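import Pool.Agent.Helper12_AWB.B149
import Pool.Agent.Helper66_D2.Stmts
import Pool.Agent.Helper75_PP.Conj

/-!
# Merged copies (generated) of the modules

* `Pool.Agent.Helper30_D2.Ncq`
* `Pool.Agent.Helper30_D2.Psp`
* `Pool.Agent.Helper31_D2.Cen`
* `Pool.Agent.Helper51_D2.Lf1`
* `Pool.Agent.Helper52_D2.Cpl`
* `Pool.Agent.Helper6_D2.Nlk`
* `Pool.Agent.Helper74_D2.Npj`
* `Pool.Agent.Helper90_D2.Lfz`
-/

set_option autoImplicit false

section -- Pool.Agent.Helper30_D2.Ncq

/-!
# Part D2, module NCQ
-/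

set_option linter.unusedSectionVars false

noncomputable section

namespace Pool.Agent.PP.CD2.H30

open Pool.Agent.PP Pool.Agent.Helper51_AWC Pool.Agent.Helper79_WRA

/-- in a cyclic group the elements of order dividing `ℓ` are the powers of an element of order
`ℓ` -/
theorem mem_zpowers_of_pow_eq_one {G : Type} [Group G] [Finite G] {P : Subgroup G}
    (hP : IsCyclic P) {ℓ : ℕ} (hℓ : 0 < ℓ) {y₁ y : G} (hy₁ : y₁ ∈ P) (ho : orderOf y₁ = ℓ)
    (hy : y ∈ P) (h1 : y ^ ℓ = 1) : y ∈ Subgroup.zpowers y₁ := by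
  classical
  have : Fintype P := Fintype.ofFinite P
  have h := IsCyclic.card_pow_eq_one_le (α := P) hℓ
  set S : Finset P := Finset.univ.filter fun a : P => a ^ ℓ = 1 with hS
  set u : P := ⟨y₁, hy₁⟩ with hu
  have hou : orderOf u = ℓ := by
    rw [← ho, hu]
    exact Subgroup.orderOf_mk y₁ hy₁
  set T : Finset P := (Finset.range ℓ).image fun i => u ^ i with hT
  have hTc : T.card = ℓ := by
    rw [hT, Finset.card_image_of_injOn, Finset.card_range]
    intro i hi j hj hij
    have hi' : i < orderOf u := by rw [hou]; exact Finset.mem_range.1 hi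
    have hj' : j < orderOf u := by rw [hou]; exact Finset.mem_range.1 hj
    exact pow_injOn_Iio_orderOf hi' hj' hij
  have hsub : T ⊆ S := by
    intro a ha
    rw [hT, Finset.mem_image] at ha
    obtain ⟨i, _, rfl⟩ := ha
    rw [hS, Finset.mem_filter]
    refine ⟨Finset.mem_univ _, ?_⟩
    rw [← pow_mul, mul_comm, pow_mul, ← hou, pow_orderOf_eq_one, one_pow]
  have heq : T = S := Finset.eq_of_subset_of_card_le hsub (by rw [hTc]; exact h)
  have hmem : (⟨y, hy⟩ : P) ∈ S := by
    rw [hS, Finset.mem_filter]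
    refine ⟨Finset.mem_univ _, ?_⟩
    apply Subtype.ext
    exact h1
  rw [← heq, hT, Finset.mem_image] at hmem
  obtain ⟨i, _, hi⟩ := hmem
  have h2 : y₁ ^ i = y := congrArg Subtype.val hi
  rw [← h2]
  exact Subgroup.npow_mem_zpowers y₁ i

theorem ncq : NcqStmt := by
  intro ℓ hℓ G H _ _ _ _ p hp y₁ hy hc hk P _ hcyc hyP z hz hzo x' hx'
  obtain ⟨y₂, hy₂, rfl⟩ := hz
  obtain ⟨x, rfl⟩ := hp x'
  have hpr : ℓ.Prime := hℓ.out
  have hy₁ker : p y₁ = 1 := by
    have : y₁ ∈ p.ker := by
      rw [hk]
      exact Subgroup.mem_zpowers y₁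
    exact this
  -- y₂ ^ ℓ is central and of order ℓ
  have h1 : y₂ ^ ℓ ∈ Subgroup.zpowers y₁ := by
    rw [← hk, MonoidHom.mem_ker, map_pow, ← hzo, pow_orderOf_eq_one]
  have hcen : Subgroup.zpowers y₁ ≤ Subgroup.center G := by
    rw [Subgroup.zpowers_le]
    exact hc
  have h2 : y₂ ^ ℓ ≠ 1 := by
    intro h
    have h3 := mem_zpowers_of_pow_eq_one hcyc hpr.pos hyP hy hy₂ h
    rw [← hk, MonoidHom.mem_ker] at h3
    rw [h3, orderOf_one] at hzo
    exact hpr.one_lt.ne hzo
  have hpow : ∀ t ∈ Subgroup.zpowers y₁, t ^ ℓ = 1 := by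
    intro t ht
    obtain ⟨i, rfl⟩ := Subgroup.mem_zpowers_iff.1 ht
    rw [← zpow_natCast, ← zpow_mul, mul_comm, zpow_mul, zpow_natCast, ← hy, pow_orderOf_eq_one,
      one_zpow]
  have h3 : orderOf (y₂ ^ ℓ) = ℓ := by
    have h4 := orderOf_dvd_of_pow_eq_one (hpow _ h1)
    rcases (Nat.dvd_prime hpr).1 h4 with h5 | h5
    · exact absurd (orderOf_eq_one_iff.1 h5) h2
    · exact h5
  -- the action of x
  have h4 : p x * p y₂ * (p x)⁻¹ ∈ Subgroup.zpowers (p y₂) :=
    (Subgroup.mem_normalizer_iff.1 hx' (p y₂)).1 (Subgroup.mem_zpowers _)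
  obtain ⟨k, hk'⟩ := Subgroup.mem_zpowers_iff.1 h4
  have h5 : (y₂ ^ k)⁻¹ * (x * y₂ * x⁻¹) ∈ Subgroup.zpowers y₁ := by
    rw [← hk, MonoidHom.mem_ker, map_mul, map_inv, map_zpow, map_mul, map_mul, map_inv, hk',
      inv_mul_cancel]
  set c := (y₂ ^ k)⁻¹ * (x * y₂ * x⁻¹) with hcdef
  have h6 : x * y₂ * x⁻¹ = y₂ ^ k * c := by
    rw [hcdef, mul_inv_cancel_left]
  have hcc : Commute (y₂ ^ k) c := ((Subgroup.mem_center_iff.1 (hcen h5) (y₂ ^ k)))
  have h7 : (x * y₂ * x⁻¹) ^ ℓ = y₂ ^ ℓ := by
    rw [conj_pow]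
    have := Subgroup.mem_center_iff.1 (hcen h1) x
    rw [this, mul_assoc, mul_inv_cancel, mul_one]
  have h8 : (y₂ ^ ℓ) ^ (k - 1) = 1 := by
    rw [h6, hcc.mul_pow, hpow c h5, mul_one] at h7
    have e1 : (y₂ ^ ℓ) ^ k = (y₂ ^ k) ^ ℓ := by
      rw [← zpow_natCast y₂ ℓ, ← zpow_natCast (y₂ ^ k) ℓ, ← zpow_mul, ← zpow_mul, mul_comm]
    rw [zpow_sub, zpow_one, e1, h7, mul_inv_cancel]
  have h9 : (ℓ : ℤ) ∣ k - 1 := by
    rw [← h3]
    exact orderOf_dvd_iff_zpow_eq_one.2 h8
  have h10 : p y₂ ^ k = p y₂ := by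
    obtain ⟨m, hm⟩ := h9
    have : k = 1 + ℓ * m := by rw [← hm]; ring
    rw [this, zpow_add, zpow_one, zpow_mul, zpow_natCast, ← hzo, pow_orderOf_eq_one, one_zpow,
      mul_one]
  have h11 : p x * p y₂ = p y₂ * p x := by
    rw [h10] at hk'
    rw [eq_mul_inv_iff_mul_eq] at hk'
    exact hk'.symm
  refine Subgroup.mem_centralizer_iff.2 ?_
  intro t ht
  obtain ⟨i, rfl⟩ := Subgroup.mem_zpowers_iff.1 ht
  have : Commute (p x) (p y₂) := h11
  exact (this.zpow_right i).eq.symm

end Pool.Agent.PP.CD2.H30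
end
end -- Pool.Agent.Helper30_D2.Ncq

section -- Pool.Agent.Helper30_D2.Psp

/-!
# Part D2, module PSP
-/

open scoped BigOperators

set_option linter.unusedSectionVars false

noncomputable section

namespace Pool.Agent.PP.CD2.H30

open Pool.Agent.PP Pool.Agent.Helper51_AWC Pool.Agent.Helper79_WRA

variable {F G H : Type} [Field F] [Group G] [Finite G] [Group H] [Finite H]

theorem push_conj (p : G →* H) (z : G → F) (g : G) (y : H) :
    H75.push p (fun x => z (g⁻¹ * x * g)) y = H75.push p z ((p g)⁻¹ * y * p g) := by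
  classical
  have := Fintype.ofFinite G
  rw [H75.push_eq, H75.push_eq, ← Equiv.sum_comp (MulAut.conj g).toEquiv]
  apply Finset.sum_congr rfl
  intro t _
  change (if p (g * t * g⁻¹) = y then z (g⁻¹ * (g * t * g⁻¹) * g) else 0) = _
  have e1 : g⁻¹ * (g * t * g⁻¹) * g = t := by group
  have e2 : p (g * t * g⁻¹) = y ↔ p t = (p g)⁻¹ * y * p g := by
    rw [map_mul, map_mul, map_inv]
    constructor
    · rintro rfl
      group
    · intro h
      rw [h]
      group
  rw [e1]
  by_cases h : p t = (p g)⁻¹ * y * p g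
  · rw [if_pos h, if_pos (e2.2 h)]
  · rw [if_neg h, if_neg fun h' => h (e2.1 h')]

open Classical in
/-- sums over a subgroup as sums over the group -/
theorem sum_sub {K : Type} [Group K] [Finite K] [Fintype K] (Q : Subgroup K) (f : K → F) :
    ∑ᶠ q : Q, f q = ∑ x : K, if x ∈ Q then f x else 0 := by
  have := Fintype.ofFinite Q
  rw [finsum_eq_sum_of_fintype, ← Finset.sum_filter]
  symm
  apply Finset.sum_subtype (Finset.univ.filter fun x : K => x ∈ Q)
  intro x
  rw [Finset.mem_filter]
  exact ⟨fun h => h.2, fun h => ⟨Finset.mem_univ _, h⟩⟩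

theorem psp : PspStmt := by
  classical
  intro F _ G H _ _ _ _ p hp P hker e he
  obtain ⟨c, z, hc, _, hz, he⟩ := he
  have := Fintype.ofFinite G
  have := Fintype.ofFinite H
  refine ⟨H75.push p c, H75.push p z, ⟨fun g hg => absurd (Subgroup.mem_top g) hg, ?_⟩,
    fun x hx => absurd (Subgroup.mem_top x) hx, ?_, ?_⟩
  · intro h _
    obtain ⟨g, rfl⟩ := hp h
    have h1 := hc.sum g (Subgroup.mem_top g)
    rw [sum_sub P (fun x => c (g * x))] at h1
    rw [sum_sub (P.map p) (fun x => H75.push p c (p g * x)), ← h1]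
    have h2 : ∀ y : H, (if y ∈ P.map p then H75.push p c (p g * y) else 0) =
        ∑ x : G, if p x = y then (if x ∈ P then c (g * x) else 0) else 0 := by
      intro y
      by_cases hy : y ∈ P.map p
      · rw [if_pos hy, H75.push_eq, ← Equiv.sum_comp (Equiv.mulLeft g)]
        apply Finset.sum_congr rfl
        intro x _
        change (if p (g * x) = p g * y then c (g * x) else 0) = _
        by_cases hx : p x = y
        · have hxP : x ∈ P := by
            obtain ⟨q, hq, hqy⟩ := hy
            have h3 : q⁻¹ * x ∈ p.ker := by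
              rw [MonoidHom.mem_ker, map_mul, map_inv, hqy, hx, inv_mul_cancel]
            have h4 := mul_mem hq (hker h3)
            rwa [mul_inv_cancel_left] at h4
          rw [if_pos hx, if_pos hxP, if_pos]
          rw [map_mul, hx]
        · rw [if_neg hx, if_neg]
          intro h'
          apply hx
          rw [map_mul] at h'
          exact mul_left_cancel h'
      · rw [if_neg hy]
        symm
        apply Finset.sum_eq_zero
        intro x _
        by_cases hx : p x = y
        · rw [if_pos hx, if_neg]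
          intro hxP
          exact hy ⟨x, hxP, hx⟩
        · rw [if_neg hx]
    rw [Finset.sum_congr rfl fun y _ => h2 y, Finset.sum_comm]
    apply Finset.sum_congr rfl
    intro x _
    rw [Finset.sum_ite_eq Finset.univ (p x), if_pos (Finset.mem_univ _)]
  · rintro q ⟨t, ht, rfl⟩ x
    have h1 := push_conj p z t⁻¹ x
    rw [map_inv, inv_inv, inv_inv] at h1
    rw [← h1]
    congr 1
    funext y
    exact hz t ht y
  · intro y
    rw [H75.push_eq, finsum_eq_sum_of_fintype,
      H75.sum_push p c (fun h => H75.push p z (h⁻¹ * y * h))]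
    have h2 : ∀ x : G, (if p x = y then e x else 0) =
        ∑ g : G, c g * (if p x = y then z (g⁻¹ * x * g) else 0) := by
      intro x
      by_cases hx : p x = y
      · rw [if_pos hx, he x, finsum_eq_sum_of_fintype]
        apply Finset.sum_congr rfl
        intro g _
        rw [if_pos hx]
      · rw [if_neg hx]
        symm
        apply Finset.sum_eq_zero
        intro g _
        rw [if_neg hx, mul_zero]
    rw [Finset.sum_congr rfl fun x _ => h2 x, Finset.sum_comm]
    apply Finset.sum_congr rfl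
    intro g _
    rw [← push_conj, H75.push_eq, Finset.mul_sum]

end Pool.Agent.PP.CD2.H30
end
end -- Pool.Agent.Helper30_D2.Psp

section -- Pool.Agent.Helper31_D2.Cen

/-!
# Squad PP, part D2, module CEN: the centre of the algebra `F C b`
-/

open scoped BigOperators

noncomputable section

namespace Pool.Agent.PP.CD2.H31

open Pool.Agent.PP Pool.Agent.PP.H20 Pool.Agent.Helper51_AWC Pool.Agent.Helper79_WRA

variable {F : Type} [Field F] {G : Type} [Group G] [Finite G]

theorem comm_of {C : Subgroup G} {a c : G → F} (ha : SpF C a) (hc : CmF C c) :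
    mulF a c = mulF c a := by
  apply H75.mulF_comm_of (K := C) ha
  intro k hk
  funext x
  have h := hc k⁻¹ (inv_mem hk) x
  rw [inv_inv] at h
  exact h

theorem comm_ma {C : Subgroup G} {a c : G → F} (ha : SpF C a) (hc : CmF C c) :
    toMA a * toMA c = toMA c * toMA a := by
  rw [← toMA_mulF, ← toMA_mulF, comm_of ha hc]

theorem toMA_pwF (w : G → F) (s : ℕ) (a : G → F) :
    toMA (pwF w s a) = toMA w ^ s * toMA a := by
  induction s with
  | zero => rw [pow_zero, one_mul]; rfl
  | succ s ih =>
    have h : pwF w (s + 1) a = mulF w (pwF w s a) := Function.iterate_succ_apply' _ _ _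
    rw [h, toMA_mulF, ih, ← mul_assoc, pow_succ']

theorem toMA_sum {ι : Type} (s : Finset ι) (a : ι → G → F) :
    toMA (∑ t ∈ s, a t) = ∑ t ∈ s, toMA (a t) :=
  map_sum (maE (F := F) (H := G)) a s

/-- CEN -/
theorem cen : CenStmt := by
  intro F _ G _ _ C b w i q h c hsc hcc hbc
  obtain ⟨α, hα⟩ := h.loc c hsc
  refine ⟨α, ?_⟩
  obtain ⟨m, x, y, hxy, hsum⟩ := h.full
  have h1 : toMA c * toMA i = ∑ s ∈ Finset.range q, α s • (toMA w ^ s * toMA i) := by
    have h2 := congrArg toMA hα
    rw [toMA_mulF, toMA_mulF, toMA_sum] at h2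
    have h3 : toMA i * toMA i = toMA i := by rw [← toMA_mulF, h.ii]
    have h4 : toMA i * (toMA c * toMA i) = toMA c * toMA i := by
      rw [← mul_assoc, comm_ma h.si hcc, mul_assoc, h3]
    rw [← h4, h2]
    refine Finset.sum_congr rfl fun s _ => ?_
    rw [toMA_smul, toMA_pwF]
  have h5 : ∑ k, toMA (x k) * (toMA i * toMA (y k)) = toMA b := by
    rw [← hsum, toMA_sum]
    refine Finset.sum_congr rfl fun k _ => ?_
    rw [toMA_mulF, toMA_mulF]
  have h6 : ∀ (k : Fin m) (s : ℕ), toMA (x k) * toMA w ^ s = toMA w ^ s * toMA (x k) := by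
    intro k s
    have : Commute (toMA (x k)) (toMA w) := comm_ma (hxy k).1 h.cw
    exact (this.pow_right s).eq
  apply toMA_injective
  rw [toMA_sum]
  have h7 : toMA c = toMA c * toMA b := by
    rw [← comm_ma h.sb hcc, ← toMA_mulF, hbc]
  rw [h7, ← h5, Finset.mul_sum]
  have h8 : ∀ k : Fin m, toMA c * (toMA (x k) * (toMA i * toMA (y k))) =
      ∑ s ∈ Finset.range q, α s • (toMA w ^ s * (toMA (x k) * (toMA i * toMA (y k)))) := by
    intro k
    rw [← mul_assoc, ← comm_ma (hxy k).1 hcc, mul_assoc, ← mul_assoc (toMA c), h1,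
      Finset.sum_mul, Finset.mul_sum]
    refine Finset.sum_congr rfl fun s _ => ?_
    rw [smul_mul_assoc, mul_smul_comm, mul_assoc, ← mul_assoc (toMA (x k)), h6, mul_assoc]
  rw [Finset.sum_congr rfl fun k _ => h8 k, Finset.sum_comm]
  refine Finset.sum_congr rfl fun s _ => ?_
  rw [← Finset.smul_sum, ← Finset.mul_sum, h5, toMA_smul, toMA_pwF]

end Pool.Agent.PP.CD2.H31
end
end -- Pool.Agent.Helper31_D2.Cen

section -- Pool.Agent.Helper51_D2.Lf1

/-!
# Squad PP, part D2, LF1: lifting the corner
-/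

open scoped BigOperators

set_option linter.unusedSectionVars false

noncomputable section

namespace Pool.Agent.PP.CD2.H51

open Pool.Agent.Helper51_AWC Pool.Agent.Helper79_WRA Pool.Agent.PP Finset

/-! ## 1. Rings -/

section ring

variable {F A B : Type} [Field F] [Ring A] [Algebra F A] [Ring B] [Algebra F B]

theorem zpow_comm {z : A} (hz : ∀ a, z * a = a * z) (n : ℕ) (a : A) : z ^ n * a = a * z ^ n := by
  induction n with
  | zero => rw [pow_zero, one_mul, mul_one]
  | succ n ih => rw [pow_succ, mul_assoc, hz, ← mul_assoc, ih, mul_assoc]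

theorem corner_pow {i v : A} (hii : i * i = i) (hiv : i * v = v * i) (s s' : ℕ) :
    (v ^ s * i) * (v ^ s' * i) = v ^ (s + s') * i := by
  have h : i * v ^ s' = v ^ s' * i := Commute.pow_right hiv s'
  rw [mul_assoc (v ^ s), ← mul_assoc i, h, mul_assoc (v ^ s'), hii, ← mul_assoc, ← pow_add]

theorem comm2 {z : A} (hz : ∀ a, z * a = a * z) (r r' : ℕ) {x y : A} :
    (z ^ r * x) * (z ^ r' * y) = z ^ (r + r') * (x * y) := by
  rw [mul_assoc (z ^ r) x, ← mul_assoc x, ← zpow_comm hz r' x, mul_assoc (z ^ r') x y,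
    ← mul_assoc (z ^ r), ← pow_add]

/-- a right inverse of `e - z c` in the corner of `e` -/
theorem unit_corner {z : A} (hz : ∀ a, z * a = a * z) {ℓ : ℕ} (hzl : z ^ ℓ = 0) {e : A}
    (he : e * e = e) (hec : ∀ a, e * a = a * e) (c : A) :
    ∃ t : A, (e - z * c) * t = e := by
  refine ⟨∑ r ∈ range ℓ, (z * c) ^ r * e, ?_⟩
  have h1 : ∀ r : ℕ, (e - z * c) * ((z * c) ^ r * e) = (z * c) ^ r * e - (z * c) ^ (r + 1) * e := by
    intro r
    rw [sub_mul, ← mul_assoc, hec, mul_assoc, he, ← mul_assoc, ← pow_succ']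
  rw [mul_sum, Finset.sum_congr rfl (fun r _ => h1 r), sum_range_sub']
  have h2 : (z * c) ^ ℓ = 0 := by
    have : Commute z c := hz c
    rw [this.mul_pow, hzl, zero_mul]
  rw [pow_zero, one_mul, h2, zero_mul, sub_zero]

theorem core (π : A →+* B) (hπF : ∀ (α : F) (a : A), π (α • a) = α • π a)
    (hπ : Function.Surjective π) {z : A} (hz : ∀ a, z * a = a * z) {ℓ : ℕ} (hzl : z ^ ℓ = 0)
    (hker : ∀ a, π a = 0 → ∃ c, a = z * c) {e : A} (he : e * e = e)
    (hec : ∀ a, e * a = a * e) {w i' : B} {q : ℕ} (hii : i' * i' = i') (hei : π e * i' = i')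
    (hw : ∀ b, w * b = b * w)
    (hloc : ∀ b, ∃ α : ℕ → F, i' * (b * i') = ∑ s ∈ range q, α s • (w ^ s * i'))
    (hfull : ∃ (m : ℕ) (x y : Fin m → B), ∑ k, x k * (i' * y k) = π e) :
    ∃ i : A, i * i = i ∧ e * i = i ∧
      (∃ (m : ℕ) (x y : Fin m → A), ∑ k, x k * (i * y k) = e) ∧
      (∀ a c, i * a = a → a * i = a → i * c = c → c * i = c → a * c = c * a) ∧
      ∃ t : Fin ℓ × Fin q → A, ∀ a, i * a = a → a * i = a → a ∈ Submodule.span F (Set.range t) := by
  have hnil : ∀ x ∈ RingHom.ker π, IsNilpotent x := by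
    intro x hx
    obtain ⟨c, rfl⟩ := hker x hx
    have : Commute z c := hz c
    exact ⟨ℓ, by rw [this.mul_pow, hzl, zero_mul]⟩
  obtain ⟨i₀, h0, h1⟩ := exists_isIdempotentElem_eq_of_ker_isNilpotent π hnil i' (hπ i') hii
  have h0' : i₀ * i₀ = i₀ := h0
  have hi2 : (e * i₀) * (e * i₀) = e * i₀ := by
    rw [mul_assoc, hec i₀, ← mul_assoc i₀, h0', ← hec i₀, ← mul_assoc, he]
  have hi3 : e * (e * i₀) = e * i₀ := by rw [← mul_assoc, he]
  have hi4 : π (e * i₀) = i' := by rw [map_mul, h1, hei]
  generalize e * i₀ = i at hi2 hi3 hi4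
  refine ⟨i, hi2, hi3, ?_, ?_⟩
  · obtain ⟨m, x, y, hxy⟩ := hfull
    choose X hX using fun k => hπ (x k)
    choose Y hY using fun k => hπ (y k)
    have e1 : π (e - ∑ k, X k * (i * Y k)) = 0 := by
      rw [map_sub, map_sum, ← hxy, sub_eq_zero]
      apply Finset.sum_congr rfl
      intro k _
      rw [map_mul, map_mul, hX, hY, hi4]
    obtain ⟨c, hc⟩ := hker _ e1
    have e2 : ∑ k, X k * (i * Y k) = e - z * c := by rw [← hc, sub_sub_cancel]
    have e3 : e * (z * c) = z * c := by
      rw [← hc, mul_sub, he, mul_sum]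
      congr 1
      apply Finset.sum_congr rfl
      intro k _
      rw [← mul_assoc, hec, mul_assoc, ← mul_assoc e, hi3]
    obtain ⟨t, ht⟩ := unit_corner hz hzl he hec c
    refine ⟨m, X, fun k => Y k * t, ?_⟩
    rw [← ht, ← e2, sum_mul]
    apply Finset.sum_congr rfl
    intro k _
    rw [mul_assoc, mul_assoc]
  · obtain ⟨w₀, hw₀⟩ := hπ w
    have key : ∀ n : ℕ, ∀ a : A, i * a = a → a * i = a → ∃ (β : ℕ → ℕ → F) (c : A),
        i * c = c ∧ c * i = c ∧
        a = ∑ r ∈ range n, ∑ s ∈ range q, β r s • (z ^ r * ((i * w₀ * i) ^ s * i)) + z ^ n * c := by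
      intro n
      induction n with
      | zero =>
        intro a h2 h3
        exact ⟨fun _ _ => 0, a, h2, h3, by rw [range_zero, sum_empty, pow_zero, one_mul, zero_add]⟩
      | succ n ih =>
        intro a h2 h3
        obtain ⟨β, c, h4, h5, h6⟩ := ih a h2 h3
        obtain ⟨α, hα⟩ := hloc (π c)
        have h7 : ∀ s : ℕ, π ((i * w₀ * i) ^ s * i) = w ^ s * i' := by
          intro s
          induction s with
          | zero => rw [pow_zero, one_mul, hi4, pow_zero, one_mul]
          | succ s ihs =>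
            have a1 : i' * w * i' = w * i' := by rw [← hw i', mul_assoc, hii]
            have a2 : i' * (w ^ s * i') = w ^ s * i' := by
              rw [← mul_assoc, ← zpow_comm hw s i', mul_assoc, hii]
            rw [pow_succ', mul_assoc, map_mul, ihs, map_mul, map_mul, hi4, hw₀, a1, mul_assoc, a2,
              ← mul_assoc, ← pow_succ']
        have h8 : i * (c - ∑ s ∈ range q, α s • ((i * w₀ * i) ^ s * i)) =
            c - ∑ s ∈ range q, α s • ((i * w₀ * i) ^ s * i) := by
          rw [mul_sub, h4, mul_sum]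
          congr 1
          apply Finset.sum_congr rfl
          intro s _
          rw [mul_smul_comm]
          congr 1
          cases s with
          | zero => rw [pow_zero, one_mul, hi2]
          | succ s => rw [pow_succ', ← mul_assoc, ← mul_assoc, ← mul_assoc, ← mul_assoc, hi2]
        have h9 : (c - ∑ s ∈ range q, α s • ((i * w₀ * i) ^ s * i)) * i =
            c - ∑ s ∈ range q, α s • ((i * w₀ * i) ^ s * i) := by
          rw [sub_mul, h5, sum_mul]
          congr 1
          apply Finset.sum_congr rfl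
          intro s _
          rw [smul_mul_assoc, mul_assoc, hi2]
        have h10 : π (c - ∑ s ∈ range q, α s • ((i * w₀ * i) ^ s * i)) = 0 := by
          rw [map_sub, map_sum, sub_eq_zero]
          have : π c = i' * (π c * i') := by
            rw [← hi4, ← map_mul, ← map_mul, h5, h4]
          rw [this, hα]
          apply Finset.sum_congr rfl
          intro s _
          rw [hπF, h7]
        obtain ⟨d, hd⟩ := hker _ h10
        refine ⟨fun r s => if r = n then α s else β r s, i * (d * i), ?_, ?_, ?_⟩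
        · rw [← mul_assoc, hi2]
        · rw [mul_assoc, mul_assoc, hi2]
        · have h11 : z * (i * (d * i)) = z * d := by
            rw [← mul_assoc, hz i, mul_assoc, ← mul_assoc z, ← hd, h9, h8]
          have h12 : c = ∑ s ∈ range q, α s • ((i * w₀ * i) ^ s * i) + z * (i * (d * i)) := by
            rw [h11, ← hd, add_sub_cancel]
          rw [sum_range_succ]
          have h13 : ∑ r ∈ range n, ∑ s ∈ range q, (if r = n then α s else β r s) •
              (z ^ r * ((i * w₀ * i) ^ s * i)) =
              ∑ r ∈ range n, ∑ s ∈ range q, β r s • (z ^ r * ((i * w₀ * i) ^ s * i)) := by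
            apply Finset.sum_congr rfl
            intro r hr
            apply Finset.sum_congr rfl
            intro s _
            rw [if_neg (ne_of_lt (mem_range.1 hr))]
          have h14 : ∑ s ∈ range q, (if n = n then α s else β n s) •
              (z ^ n * ((i * w₀ * i) ^ s * i)) =
              z ^ n * ∑ s ∈ range q, α s • ((i * w₀ * i) ^ s * i) := by
            rw [mul_sum]
            apply Finset.sum_congr rfl
            intro s _
            rw [if_pos rfl, mul_smul_comm]
          rw [h13, h14, pow_succ, mul_assoc (z ^ n) z, add_assoc, ← mul_add, ← h12]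
          exact h6
    have span : ∀ a : A, i * a = a → a * i = a → ∃ β : ℕ → ℕ → F,
        a = ∑ r ∈ range ℓ, ∑ s ∈ range q, β r s • (z ^ r * ((i * w₀ * i) ^ s * i)) := by
      intro a h2 h3
      obtain ⟨β, c, -, -, h⟩ := key ℓ a h2 h3
      refine ⟨β, ?_⟩
      rw [hzl, zero_mul, add_zero] at h
      exact h
    have hcom : ∀ s s' : ℕ, ((i * w₀ * i) ^ s * i) * ((i * w₀ * i) ^ s' * i) =
        ((i * w₀ * i) ^ s' * i) * ((i * w₀ * i) ^ s * i) := by
      have hc1 : i * (i * w₀ * i) = (i * w₀ * i) * i := by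
        rw [← mul_assoc, ← mul_assoc, hi2, mul_assoc (i * w₀), hi2]
      intro s s'
      rw [corner_pow hi2 hc1, corner_pow hi2 hc1, add_comm]
    refine ⟨?_, ?_⟩
    · intro a c h2 h3 h4 h5
      obtain ⟨β, hβ⟩ := span a h2 h3
      obtain ⟨γ, hγ⟩ := span c h4 h5
      have hc2 : Commute a c := by
        rw [hβ, hγ]
        apply Commute.sum_left
        intro r _
        apply Commute.sum_left
        intro s _
        apply Commute.sum_right
        intro r' _
        apply Commute.sum_right
        intro s' _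
        apply Commute.smul_left
        apply Commute.smul_right
        change _ * _ = _ * _
        rw [comm2 hz, comm2 hz, hcom, add_comm]
      exact hc2
    · refine ⟨fun u => z ^ (u.1 : ℕ) * ((i * w₀ * i) ^ (u.2 : ℕ) * i), ?_⟩
      intro a h2 h3
      obtain ⟨β, hβ⟩ := span a h2 h3
      rw [hβ]
      apply Submodule.sum_mem
      intro r hr
      apply Submodule.sum_mem
      intro s hs
      apply Submodule.smul_mem
      exact Submodule.subset_span ⟨(⟨r, mem_range.1 hr⟩, ⟨s, mem_range.1 hs⟩), rfl⟩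

end ring

/-! ## 2. The push -/

section push

variable {F G H : Type} [Field F] [Group G] [Finite G] [Group H] [Finite H]

theorem ma_one : (ma (dl F (1 : G)) : MonoidAlgebra F G) = 1 := by
  rw [ma_dl]; rfl

theorem push_dl (p : G →* H) (x : G) : H75.push p (dl F x) = dl F (p x) := by
  classical
  have := Fintype.ofFinite G
  funext y
  rw [H75.push_eq, Finset.sum_eq_single x]
  · rw [dl, dl, if_pos rfl]
    by_cases h : p x = y
    · rw [if_pos h, if_pos h.symm]
    · rw [if_neg h, if_neg (fun h' => h h'.symm)]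
  · intro b _ hb
    rw [dl, if_neg hb, ite_self]
  · intro h
    exact absurd (Finset.mem_univ _) h

theorem push_add (p : G →* H) (a b : G → F) :
    H75.push p (a + b) = H75.push p a + H75.push p b := by
  classical
  have := Fintype.ofFinite G
  funext y
  rw [Pi.add_apply, H75.push_eq, H75.push_eq, H75.push_eq, ← Finset.sum_add_distrib]
  apply Finset.sum_congr rfl
  intro x _
  split_ifs
  · rfl
  · rw [add_zero]

theorem push_smul (p : G →* H) (c : F) (a : G → F) :
    H75.push p (c • a) = c • H75.push p a := by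
  classical
  have := Fintype.ofFinite G
  funext y
  rw [Pi.smul_apply, H75.push_eq, H75.push_eq, Finset.smul_sum]
  apply Finset.sum_congr rfl
  intro x _
  split_ifs
  · rfl
  · rw [smul_zero]

/-- the ring homomorphism of group rings -/
def pr (p : G →* H) : MonoidAlgebra F G →+* MonoidAlgebra F H where
  toFun x := ma (H75.push p (maL.symm x))
  map_one' := by
    have : maL.symm (1 : MonoidAlgebra F G) = dl F (1 : G) := by
      rw [← ma_one, ← maL_apply, LinearEquiv.symm_apply_apply]
    rw [this, push_dl, map_one, ma_one]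
  map_mul' x y := by
    obtain ⟨a, rfl⟩ := ma_surjective x
    obtain ⟨b, rfl⟩ := ma_surjective y
    have hs : ∀ c : G → F, maL.symm (ma c) = c := fun c => maL.symm_apply_apply c
    rw [← ma_mul, hs, hs, hs, H75.push_mulF, ma_mul]
  map_zero' := by
    rw [map_zero, H75.push_zero, ma_zero]
  map_add' x y := by
    rw [map_add, push_add, ma_add]

theorem pr_ma (p : G →* H) (a : G → F) : pr p (ma a) = ma (H75.push p a) := by
  change ma (H75.push p (maL.symm (maL a))) = _
  rw [LinearEquiv.symm_apply_apply]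

theorem pr_smul (p : G →* H) (c : F) (x : MonoidAlgebra F G) : pr p (c • x) = c • pr p x := by
  obtain ⟨a, rfl⟩ := ma_surjective x
  rw [← ma_smul, pr_ma, pr_ma, push_smul, ma_smul]

theorem pr_single (p : G →* H) (x : G) :
    pr p (MonoidAlgebra.single x (1 : F)) = MonoidAlgebra.single (p x) 1 := by
  rw [← ma_dl, pr_ma, push_dl, ma_dl]

theorem eq_sum [Fintype G] (a : G → F) :
    ma a = ∑ x, a x • (MonoidAlgebra.single x (1 : F)) := by
  classical
  have : a = ∑ x, a x • dl F x := by
    funext y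
    rw [Finset.sum_apply, Finset.sum_eq_single y]
    · rw [Pi.smul_apply, dl, if_pos rfl, smul_eq_mul, mul_one]
    · intro b _ hb
      rw [Pi.smul_apply, dl, if_neg (fun h => hb h.symm), smul_zero]
    · intro h
      exact absurd (Finset.mem_univ _) h
  conv_lhs => rw [this]
  rw [ma_sum]
  apply Finset.sum_congr rfl
  intro x _
  rw [ma_smul, ma_dl]

theorem pr_surj {p : G →* H} (hp : Function.Surjective p) :
    Function.Surjective (pr p : MonoidAlgebra F G →+* MonoidAlgebra F H) := by
  classical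
  intro y
  have := Fintype.ofFinite H
  obtain ⟨b, rfl⟩ := ma_surjective y
  choose s hs using hp
  refine ⟨∑ h : H, b h • MonoidAlgebra.single (s h) (1 : F), ?_⟩
  rw [map_sum, eq_sum]
  apply Finset.sum_congr rfl
  intro h _
  rw [pr_smul, pr_single, hs]

/-- the central element `y - 1` -/
def zz (F : Type) [Field F] (y : G) : MonoidAlgebra F G := MonoidAlgebra.single y 1 - 1

theorem zz_comm {y : G} (hy : y ∈ Subgroup.center G) (a : MonoidAlgebra F G) :
    zz F y * a = a * zz F y := by
  classical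
  have := Fintype.ofFinite G
  obtain ⟨b, rfl⟩ := ma_surjective a
  rw [eq_sum, mul_sum, sum_mul]
  apply Finset.sum_congr rfl
  intro x _
  rw [mul_smul_comm, smul_mul_assoc, zz, sub_mul, mul_sub, one_mul, mul_one,
    MonoidAlgebra.single_mul_single, MonoidAlgebra.single_mul_single,
    (Subgroup.mem_center_iff.1 hy x)]

theorem ker_pr {p : G →* H} (hp : Function.Surjective p) {y : G} (hy : y ∈ Subgroup.center G)
    (hk : p.ker = Subgroup.zpowers y) (a : MonoidAlgebra F G) (ha : pr p a = 0) :
    ∃ c, a = zz F y * c := by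
  classical
  have := Fintype.ofFinite G
  have := Fintype.ofFinite H
  obtain ⟨b, rfl⟩ := ma_surjective a
  choose s hs using hp
  have h1 : ∀ x : G, ∃ c : MonoidAlgebra F G,
      MonoidAlgebra.single x (1 : F) - MonoidAlgebra.single (s (p x)) 1 = zz F y * c := by
    intro x
    have h2 : (s (p x))⁻¹ * x ∈ p.ker := by
      rw [MonoidHom.mem_ker, map_mul, map_inv, hs, inv_mul_cancel]
    rw [hk, ← mem_powers_iff_mem_zpowers, Submonoid.mem_powers_iff] at h2
    obtain ⟨k, hk'⟩ := h2
    refine ⟨(∑ j ∈ range k, (MonoidAlgebra.single y (1 : F)) ^ j) *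
      MonoidAlgebra.single (s (p x)) 1, ?_⟩
    rw [← mul_assoc, zz, mul_geom_sum, MonoidAlgebra.single_pow, one_pow, sub_mul, one_mul,
      MonoidAlgebra.single_mul_single, mul_one, hk']
    have h3 : (s (p x))⁻¹ * x * s (p x) = x := by
      rw [← hk', ← Subgroup.mem_center_iff.1 (Subgroup.pow_mem _ hy k) (s (p x)), hk',
        mul_inv_cancel_left]
    rw [h3]
  choose c hc using h1
  refine ⟨∑ x, b x • c x, ?_⟩
  have h4 : ∑ x, b x • MonoidAlgebra.single (s (p x)) (1 : F) = (0 : MonoidAlgebra F G) := by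
    have h5 : ∑ x, b x • MonoidAlgebra.single (s (p x)) (1 : F) =
        ∑ h, H75.push p b h • (MonoidAlgebra.single (s h) (1 : F) : MonoidAlgebra F G) := by
      have h6 : ∀ h : H, H75.push p b h • (MonoidAlgebra.single (s h) (1 : F) : MonoidAlgebra F G)
          = ∑ x : G, if p x = h then b x • MonoidAlgebra.single (s h) (1 : F) else 0 := by
        intro h
        rw [H75.push_eq, Finset.sum_smul]
        apply Finset.sum_congr rfl
        intro x _
        split_ifs
        · rfl
        · rw [zero_smul]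
      rw [Finset.sum_congr rfl (fun h _ => h6 h), Finset.sum_comm]
      apply Finset.sum_congr rfl
      intro x _
      rw [Finset.sum_ite_eq Finset.univ (p x), if_pos (Finset.mem_univ _)]
    rw [h5]
    rw [pr_ma] at ha
    have h7 : H75.push p b = 0 := ma_injective (by rw [ha, ma_zero])
    apply Finset.sum_eq_zero
    intro h _
    rw [h7, Pi.zero_apply, zero_smul]
  rw [eq_sum, mul_sum]
  have h8 : ∀ x, zz F y * (b x • c x) = b x • MonoidAlgebra.single x (1 : F) -
      b x • MonoidAlgebra.single (s (p x)) (1 : F) := by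
    intro x
    rw [mul_smul_comm, ← hc, smul_sub]
  rw [Finset.sum_congr rfl (fun x _ => h8 x), Finset.sum_sub_distrib, h4, sub_zero]

theorem zz_pow {ℓ : ℕ} [Fact ℓ.Prime] (hF : GoodF ℓ F) {y : G} (hy : orderOf y = ℓ) :
    (zz F y) ^ ℓ = 0 := by
  have := hF.char
  have h1 : CharP (MonoidAlgebra F G) ℓ :=
    charP_of_injective_algebraMap (algebraMap F (MonoidAlgebra F G)).injective ℓ
  rw [zz, sub_pow_char_of_commute (p := ℓ) (Commute.one_right _), MonoidAlgebra.single_pow, one_pow,
    one_pow, ← hy, pow_orderOf_eq_one, ← MonoidAlgebra.one_def, sub_self]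

end push

theorem lf1 : Lf1Stmt := by
  classical
  intro ℓ _ F _ hF G H _ _ _ _ p hp y hy hc hk e he w i' q h
  obtain ⟨he1, he2⟩ := he
  have hcent : ∀ {K : Type} [Group K] [Finite K] {a : K → F}, IsCl a →
      ∀ x : MonoidAlgebra F K, ma a * x = x * ma a := by
    intro K _ _ a ha x
    have := (isCl_iff a).1 ha
    exact ((Subalgebra.mem_center_iff.1 this) x).symm
  have hw : IsCl w := fun x z => h.cw z (Subgroup.mem_top _) x
  obtain ⟨i, h1, h2, ⟨m, x, z, h3⟩, h4, t, h5⟩ := core (F := F) (pr p) (pr_smul p) (pr_surj hp)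
    (zz_comm hc) (zz_pow hF hy) (ker_pr hp hc hk) (e := ma e) (by rw [← ma_mul, he2])
    (hcent he1) (w := ma w) (i' := ma i') (q := q) (by rw [← ma_mul, h.ii])
    (by rw [pr_ma, ← ma_mul, h.bi]) (hcent hw)
    (by
      intro b
      obtain ⟨a, rfl⟩ := ma_surjective b
      obtain ⟨α, hα⟩ := h.loc a (fun x hx => absurd (Subgroup.mem_top x) hx)
      refine ⟨α, ?_⟩
      rw [← ma_mul, ← ma_mul, hα, ma_sum]
      apply Finset.sum_congr rfl
      intro s _
      rw [ma_smul, pwF, ma_iterate])
    (by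
      obtain ⟨m, x, y, -, h6⟩ := h.full
      refine ⟨m, fun k => ma (x k), fun k => ma (y k), ?_⟩
      rw [pr_ma, ← h6, ma_sum]
      apply Finset.sum_congr rfl
      intro k _
      rw [ma_mul, ma_mul])
  obtain ⟨j, rfl⟩ := ma_surjective i
  choose X hX using fun k => ma_surjective (x k)
  choose Z hZ using fun k => ma_surjective (z k)
  refine ⟨j, ma_injective (by rw [ma_mul, h1]), ma_injective (by rw [ma_mul, h2]),
    ⟨m, X, Z, ma_injective ?_⟩, ?_, ?_⟩
  · rw [ma_sum, ← h3]
    apply Finset.sum_congr rfl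
    intro k _
    rw [ma_mul, ma_mul, hX, hZ]
  · intro a ha c hc'
    apply ma_injective
    rw [ma_mul, ma_mul]
    exact h4 _ _ (by rw [← ma_mul, ha.1]) (by rw [← ma_mul, ha.2]) (by rw [← ma_mul, hc'.1])
      (by rw [← ma_mul, hc'.2])
  · have h6 : Submodule.span F (crn j) ≤
        Submodule.span F (Set.range fun u => maL.symm (t u)) := by
      rw [Submodule.span_le]
      intro a ha
      have h7 := h5 (ma a) (by rw [← ma_mul, ha.1]) (by rw [← ma_mul, ha.2])
      have h8 : a = maL.symm (ma a) := by rw [← maL_apply, LinearEquiv.symm_apply_apply]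
      rw [SetLike.mem_coe, h8]
      have h9 : (Set.range fun u => maL.symm (t u)) =
          (maL.symm.toLinearMap : MonoidAlgebra F G →ₗ[F] (G → F)) '' Set.range t := by
        rw [← Set.range_comp]; rfl
      rw [h9, ← Submodule.map_span]
      exact ⟨ma a, h7, rfl⟩
    calc Module.finrank F (Submodule.span F (crn j)) ≤
        Module.finrank F (Submodule.span F (Set.range fun u => maL.symm (t u))) :=
          Submodule.finrank_mono h6
      _ ≤ Fintype.card (Fin ℓ × Fin q) := finrank_range_le_card _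
      _ = ℓ * q := by rw [Fintype.card_prod, Fintype.card_fin, Fintype.card_fin]

end Pool.Agent.PP.CD2.H51
end
end -- Pool.Agent.Helper51_D2.Lf1

section -- Pool.Agent.Helper52_D2.Cpl

/-!
# Squad PP, part D2: module CPL
-/

open scoped BigOperators

noncomputable section

namespace Pool.Agent.PP.CD2.H52

open Pool.Agent.Helper51_AWC Pool.Agent.Helper79_WRA

/-- CPL -/
theorem cpl (hSPA : SpaStmt) : CplStmt := by
  intro ℓ _ F _ hF G _ _ n N P y₁ b w hD V _ _ ρ Z Y hZY hYf hZ hY
  obtain ⟨p, hp⟩ := LinearMap.exists_leftInverse_of_injective Z.subtype (Submodule.ker_subtype Z)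
  have hp' : ∀ v : Z, p v = v := fun v => by
    have := LinearMap.congr_fun hp v
    simpa using this
  have hfix : ∀ v ∈ Y, evV ρ (bY y₁ b) v = v ∧ evV ρ w v = 0 := fun v hv => hYf hv
  obtain ⟨g', h1, h2⟩ := hSPA ℓ F hF G n N P y₁ b w hD V V ρ ρ Y hY (fun v hv => (hfix v hv).1)
    (Z.subtype ∘ₗ p) (by
      intro v hv
      rw [(hfix v hv).2, map_zero]
      exact ((hfix _ (hZY (p v).2)).2).symm)
  have h3 : ∀ v ∈ Y, g' v ∈ Z := by
    intro v hv
    have := h2 Y le_rfl hY Z hZ 0 (by intro k _ v _; simp) (by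
      intro v _
      simp) v hv
    simpa using this
  have h4 : ∀ v ∈ Z, g' v = v := by
    intro v hv
    have := h2 Z hZY hZ ⊥ (by
      intro k _ v hv
      rw [Submodule.mem_bot] at hv ⊢
      rw [hv, map_zero]) LinearMap.id (by intro k _ v _; rfl) (by
      intro v hv
      rw [Submodule.mem_bot, sub_eq_zero]
      change ((p v : Z) : V) = v
      rw [hp' ⟨v, hv⟩]) v hv
    rw [Submodule.mem_bot, sub_eq_zero] at this
    exact this
  refine ⟨Y ⊓ LinearMap.ker g', ?_, ?_, ?_⟩
  · intro k hk v hv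
    rw [Submodule.mem_inf, LinearMap.mem_ker] at hv ⊢
    exact ⟨hY k hk v hv.1, by rw [h1 k hk v hv.1, hv.2, map_zero]⟩
  · rw [eq_bot_iff]
    intro v hv
    rw [Submodule.mem_inf, Submodule.mem_inf, LinearMap.mem_ker] at hv
    rw [Submodule.mem_bot, ← h4 v hv.2, hv.1.2]
  · apply le_antisymm
    · exact sup_le inf_le_left hZY
    · intro v hv
      have h5 : v = (v - g' v) + g' v := by abel
      rw [h5]
      refine Submodule.add_mem_sup ?_ (h3 v hv)
      rw [Submodule.mem_inf, LinearMap.mem_ker]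
      refine ⟨Y.sub_mem hv (hZY (h3 v hv)), ?_⟩
      rw [map_sub, h4 _ (h3 v hv), sub_self]

end Pool.Agent.PP.CD2.H52
end
end -- Pool.Agent.Helper52_D2.Cpl

section -- Pool.Agent.Helper6_D2.Nlk

/-!
# Squad PP, part D2, module NLK: linear algebra of a nilpotent endomorphism
-/

open scoped BigOperators

noncomputable section

namespace Pool.Agent.PP.CD2.H6

/-- NLK -/
theorem nlk : NlkStmt := by
  intro F _ E _ _ W q s t u hq hs1 hsq ht hts hker
  set A : Submodule F E := Submodule.span F (Set.range fun k : ℕ => (W ^ k) u) with hA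
  have hAk : ∀ k, (W ^ k) u ∈ A := fun k => Submodule.subset_span ⟨k, rfl⟩
  have hmono : ∀ i j, i ≤ j → LinearMap.range (W ^ j) ≤ LinearMap.range (W ^ i) := by
    rintro i j hij _ ⟨v, rfl⟩
    refine ⟨(W ^ (j - i)) v, ?_⟩
    have e : W ^ j = W ^ i * W ^ (j - i) := by
      rw [← pow_add]
      congr 1
      omega
    rw [e, Module.End.mul_apply]
  have key : ∀ j, 1 ≤ j → j + 1 ≤ q → ∀ v, (W ^ j) v = 0 →
      v ∈ A ⊔ LinearMap.range (W ^ (q - j)) := by
    intro j hj
    induction j, hj using Nat.le_induction with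
    | base =>
      intro hq1 v hv
      rw [pow_one] at hv
      obtain ⟨α, v', rfl⟩ := hker v hv
      refine Submodule.add_mem_sup (A.smul_mem α ?_) ⟨v', rfl⟩
      rw [ht]
      exact hAk _
    | succ j hj ih =>
      intro hq1 v hv
      rw [pow_succ', Module.End.mul_apply] at hv
      obtain ⟨α, v₁, h1⟩ := hker _ hv
      have hm : LinearMap.range (W ^ (q - j)) ≤ LinearMap.range (W ^ (q - (j + 1))) :=
        hmono _ _ (by omega)
      have hv1 : (W ^ j) (v - (W ^ (q - (j + 1))) v₁) = α • t := by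
        have e : W ^ j * W ^ (q - (j + 1)) = W ^ (q - 1) := by
          rw [← pow_add]
          congr 1
          omega
        rw [map_sub, ← Module.End.mul_apply, e, h1, add_sub_cancel_right]
      have hsub : v = (v - (W ^ (q - (j + 1))) v₁) + (W ^ (q - (j + 1))) v₁ := by abel
      have hrg : (W ^ (q - (j + 1))) v₁ ∈ A ⊔ LinearMap.range (W ^ (q - (j + 1))) :=
        (le_sup_right : LinearMap.range (W ^ (q - (j + 1))) ≤ _) ⟨v₁, rfl⟩
      rw [hsub]
      refine Submodule.add_mem _ ?_ hrg
      by_cases hα : α = 0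
      · rw [hα, zero_smul] at hv1
        exact (sup_le_sup_left hm A) (ih (by omega) _ hv1)
      · have hjs : j < s := by
          by_contra hcon
          apply hts
          refine hmono s j (by omega) ?_
          refine ⟨α⁻¹ • (v - (W ^ (q - (j + 1))) v₁), ?_⟩
          rw [map_smul, hv1, smul_smul, inv_mul_cancel₀ hα, one_smul]
        have h2 : (W ^ j) (v - (W ^ (q - (j + 1))) v₁ - α • (W ^ (s - 1 - j)) u) = 0 := by
          have e : W ^ j * W ^ (s - 1 - j) = W ^ (s - 1) := by
            rw [← pow_add]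
            congr 1
            omega
          rw [map_sub, hv1, map_smul, ← Module.End.mul_apply, e, ← ht, sub_self]
        have h3 := (sup_le_sup_left hm A) (ih (by omega) _ h2)
        have h4 : α • (W ^ (s - 1 - j)) u ∈ A ⊔ LinearMap.range (W ^ (q - (j + 1))) :=
          (le_sup_left : A ≤ _) (A.smul_mem α (hAk _))
        have h5 := Submodule.add_mem _ h3 h4
        rwa [sub_add_cancel] at h5
  intro v hv
  have h1 := key (q - 1) (by omega) (by omega) v hv
  have e : q - (q - 1) = 1 := by omega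
  rw [e, pow_one, Submodule.mem_sup] at h1
  obtain ⟨a, ha, _, ⟨v', rfl⟩, rfl⟩ := h1
  have h2 : ∀ a ∈ A, ∃ (α : F) (v' : E), a = α • u + W v' := by
    intro a ha
    induction ha using Submodule.span_induction with
    | mem x hx =>
      obtain ⟨k, rfl⟩ := hx
      cases k with
      | zero => exact ⟨1, 0, by simp⟩
      | succ k => exact ⟨0, (W ^ k) u, by simp [pow_succ']⟩
    | zero => exact ⟨0, 0, by simp⟩
    | add x y _ _ hx hy =>
      obtain ⟨α, v₁, rfl⟩ := hx
      obtain ⟨β, v₂, rfl⟩ := hy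
      exact ⟨α + β, v₁ + v₂, by rw [add_smul, map_add]; abel⟩
    | smul r x _ hx =>
      obtain ⟨α, v₁, rfl⟩ := hx
      exact ⟨r * α, r • v₁, by rw [smul_add, smul_smul, map_smul]⟩
  obtain ⟨α, v₁, rfl⟩ := h2 a ha
  exact ⟨α, v₁ + v', by rw [map_add, add_assoc]⟩

end Pool.Agent.PP.CD2.H6
end
end -- Pool.Agent.Helper6_D2.Nlk

section -- Pool.Agent.Helper74_D2.Npj

/-!
# Part D2, module NPJ

An irreducible representation over a block of positive defect is not a trace.
-/

open scoped BigOperators

noncomputable section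

namespace Pool.Agent.PP.CD2.H74

open Pool.Agent.PP Pool.Agent.Helper51_AWC Pool.Agent.Helper79_WRA

theorem npj (hinv : InvStmt) : NpjStmt := by
  intro ℓ _ F _ hF G _ _ b hblk Q hQp hQ hbr k τ hτ hτb ψ h1
  classical
  have hchar := hF.char
  apply hbr
  -- the matrix comes from the group ring
  obtain ⟨a, ha⟩ : ∃ a : G → F, ev τ a = ψ := by
    obtain ⟨y, hy⟩ := (H20.lift_surjective τ).2 hτ.2 ψ
    obtain ⟨a, rfl⟩ := H20.toMA_surjective y
    exact ⟨a, by rw [← H20.lift_toMA]; exact hy⟩
  have hprc := D1H51.prC_trace (ℓ := ℓ) a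
  have hev : ev τ (fun y => ∑ᶠ g : G, a (g⁻¹ * y * g)) = 1 := by
    rw [D1H51.ev_trace_sum, ha]
    exact h1
  have hsc : ev τ (fun y => ∑ᶠ g : G, a (g⁻¹ * y * g)) = Matrix.scalar (Fin k) (1 : F) := by
    rw [hev, map_one]
  obtain ⟨u, hu, hub⟩ := hinv ℓ F hF G b _ hblk hprc.1
    (D1H51.not_nil hτ one_ne_zero hsc hτb)
  have h3 := (H20.pci ℓ F hF G _ u hprc hu).2
  have h4 := (H20.pci ℓ F hF G _ b h3 hblk.1.1).1
  rw [hub] at h4
  -- the values at the elements which centralise `Q` vanish
  funext x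
  unfold br
  split_ifs with hx
  · refine h4.2 x ?_
    have hle : Q ≤ Subgroup.centralizer ({x} : Set G) := by
      intro q hq
      rw [Subgroup.mem_centralizer_singleton_iff]
      exact Subgroup.mem_centralizer_iff.1 hx q hq
    obtain ⟨n, hn⟩ := (IsPGroup.iff_card.1 hQp)
    have hn0 : n ≠ 0 := by
      rintro rfl
      rw [pow_zero] at hn
      exact hQ (Subgroup.card_eq_one.1 hn)
    have hd : ℓ ∣ Nat.card Q := by
      rw [hn]
      exact dvd_pow_self ℓ hn0
    exact hd.trans (Subgroup.card_dvd_of_le hle)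
  · rfl

end Pool.Agent.PP.CD2.H74
end
end -- Pool.Agent.Helper74_D2.Npj

section -- Pool.Agent.Helper90_D2.Lfz

/-!
# Squad PP, part D2, module LFZ: the centre and a commutative corner
-/

open scoped BigOperators

noncomputable section

namespace Pool.Agent.PP.CD2.H90

open Pool.Agent.PP

section ring

variable {R : Type*} [Ring R] {e i : R} {m : ℕ} {x y : Fin m → R}

theorem lfz_ring (hec : ∀ a, a * e = e * a) (hii : i * i = i) (hei : e * i = i)
    (hful : ∑ k, x k * (i * y k) = e)
    (hcomm : ∀ a c, i * a = a → a * i = a → i * c = c → c * i = c → a * c = c * a) {r : R}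
    (hr1 : i * r = r) (hr2 : r * i = r) :
    (∀ a, a * (∑ k, x k * (r * y k)) = (∑ k, x k * (r * y k)) * a) ∧
      e * (∑ k, x k * (r * y k)) = ∑ k, x k * (r * y k) ∧
      (∑ k, x k * (r * y k)) * i = r := by
  have hc : ∀ t : R, i * (t * i) * r = r * (i * (t * i)) := by
    intro t
    apply hcomm _ _ _ _ hr1 hr2
    · rw [← mul_assoc, hii]
    · rw [mul_assoc, mul_assoc, hii]
  have her : e * r = r := by
    rw [← hr1, ← mul_assoc, hei]
  have hec' : e * (∑ k, x k * (r * y k)) = ∑ k, x k * (r * y k) := by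
    rw [Finset.mul_sum]
    refine Finset.sum_congr rfl fun k _ => ?_
    rw [← mul_assoc, ← hec (x k), mul_assoc, ← mul_assoc e, her]
  have hcen : ∀ a, a * (∑ k, x k * (r * y k)) = (∑ k, x k * (r * y k)) * a := by
    intro a
    have h1 : a * (∑ k, x k * (r * y k)) = ∑ l, ∑ k, x l * (r * (y l * (a * (x k * (i * y k))))) := by
      have h0 : a * (∑ k, x k * (r * y k)) = e * (a * (∑ k, x k * (r * y k))) := by
        rw [← mul_assoc e a, ← hec a, mul_assoc a e, hec']
      rw [h0, ← hful, Finset.sum_mul]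
      refine Finset.sum_congr rfl fun l _ => ?_
      rw [Finset.mul_sum, Finset.mul_sum]
      refine Finset.sum_congr rfl fun k _ => ?_
      have h2 := hc (y l * (a * x k))
      calc x l * (i * y l) * (a * (x k * (r * y k)))
          = x l * (i * (y l * (a * (x k * r))) * y k) := by simp only [mul_assoc]
        _ = x l * (i * (y l * (a * (x k * (i * r)))) * y k) := by rw [hr1]
        _ = x l * ((i * (y l * (a * x k) * i) * r) * y k) := by simp only [mul_assoc]
        _ = x l * ((r * (i * (y l * (a * x k) * i))) * y k) := by rw [h2]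
        _ = x l * ((r * i) * (y l * (a * (x k * (i * y k))))) := by simp only [mul_assoc]
        _ = _ := by rw [hr2]
    rw [h1]
    have h3 : (∑ k, x k * (r * y k)) * a = (∑ k, x k * (r * y k)) * (a * e) := by
      rw [hec a, ← mul_assoc, hec, hec']
    rw [h3, ← hful, Finset.sum_mul]
    refine Finset.sum_congr rfl fun l _ => ?_
    rw [Finset.mul_sum, Finset.mul_sum]
    refine Finset.sum_congr rfl fun k _ => ?_
    simp only [mul_assoc]
  refine ⟨hcen, hec', ?_⟩
  have h4 : (∑ k, x k * (r * y k)) * i = i * ((∑ k, x k * (r * y k)) * i) := by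
    rw [← mul_assoc, hcen i, mul_assoc, hii]
  rw [h4, Finset.sum_mul, Finset.mul_sum]
  have h5 : ∀ k, i * (x k * (r * y k) * i) = r * (i * ((x k * (i * y k)) * i)) := by
    intro k
    calc i * (x k * (r * y k) * i) = (i * (x k * r)) * (y k * i) := by simp only [mul_assoc]
      _ = (i * (x k * (i * r))) * (y k * i) := by rw [hr1]
      _ = (i * (x k * i) * r) * (y k * i) := by simp only [mul_assoc]
      _ = (r * (i * (x k * i))) * (y k * i) := by rw [hc]
      _ = _ := by simp only [mul_assoc]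
  rw [Finset.sum_congr rfl fun k _ => h5 k, ← Finset.mul_sum, ← Finset.mul_sum, ← Finset.sum_mul,
    hful, hei, hii, hr2]

end ring

theorem lfz : LfzStmt := by
  intro F _ G _ _ e i d he hi
  obtain ⟨m, x, y, hful⟩ := hi.full
  have hful' : ∑ k, ma (x k) * (ma i * ma (y k)) = ma e := by
    rw [← hful, ma_sum]
    exact Finset.sum_congr rfl fun k _ => by rw [ma_mul, ma_mul]
  have hec : ∀ a : MonoidAlgebra F G, a * ma e = ma e * a :=
    Subalgebra.mem_center_iff.1 ((isCl_iff e).1 he.1)
  have hii : ma i * ma i = ma i := by rw [← ma_mul, hi.ii]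
  have hei : ma e * ma i = ma i := by rw [← ma_mul, hi.ei]
  constructor
  · intro r hr
    have hr1 : ma i * ma r = ma r := by rw [← ma_mul, hr.1]
    have hr2 : ma r * ma i = ma r := by rw [← ma_mul, hr.2]
    have hcomm : ∀ a c : MonoidAlgebra F G, ma i * a = a → a * ma i = a → ma i * c = c →
        c * ma i = c → a * c = c * a := by
      intro a c h1 h2 h3 h4
      obtain ⟨a, rfl⟩ := ma_surjective a
      obtain ⟨c, rfl⟩ := ma_surjective c
      rw [← ma_mul, ← ma_mul]
      congr 1
      apply hi.comm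
      · exact ⟨ma_injective (by rw [ma_mul, h1]), ma_injective (by rw [ma_mul, h2])⟩
      · exact ⟨ma_injective (by rw [ma_mul, h3]), ma_injective (by rw [ma_mul, h4])⟩
    obtain ⟨k1, k2, k3⟩ := lfz_ring hec hii hei hful' hcomm hr1 hr2
    have hs : ma (∑ k, mulF (x k) (mulF r (y k))) = ∑ k, ma (x k) * (ma r * ma (y k)) := by
      rw [ma_sum]
      exact Finset.sum_congr rfl fun k _ => by rw [ma_mul, ma_mul]
    refine ⟨∑ k, mulF (x k) (mulF r (y k)), ?_, ?_, ?_⟩
    · rw [isCl_iff, Subalgebra.mem_center_iff, hs]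
      exact k1
    · apply ma_injective
      rw [ma_mul, hs, k2]
    · apply ma_injective
      rw [ma_mul, hs, k3]
  · intro c hc h1 h2
    have hcc : ∀ a : MonoidAlgebra F G, a * ma c = ma c * a :=
      Subalgebra.mem_center_iff.1 ((isCl_iff c).1 hc)
    have hci : ma c * ma i = 0 := by rw [← ma_mul, h2, ma_zero]
    apply ma_injective
    rw [ma_zero, ← h1, ma_mul, ← hful', Finset.sum_mul]
    refine Finset.sum_eq_zero fun k _ => ?_
    rw [mul_assoc, mul_assoc, hcc (ma (y k)), ← mul_assoc (ma i), hcc (ma i), hci, zero_mul,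
      mul_zero]

end Pool.Agent.PP.CD2.H90
end
end -- Pool.Agent.Helper90_D2.Lfz
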