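import Pool.Agent.Helper36_PP.StmtsCY
import Pool.Agent.Helper75_PP.Transport

/-!
# Merged copies (generated) of the modules

* `Pool.Agent.Helper66_CY.Brk`
* `Pool.Agent.Helper66_CY.Cyn`
* `Pool.Agent.Helper75_CY.Fre`
-/

set_option autoImplicit false

section -- Pool.Agent.Helper66_CY.Brk

/-!
# Squad PP, part CY: `V^P / (∑ P) V` is simple and determines `V`
-/

open scoped BigOperators

noncomputable section

namespace Pool.Agent.PP.CY66

open Pool.Agent.PP Pool.Agent.Helper51_AWC Pool.Agent.Helper79_WRA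

variable {F : Type} [Field F] {G : Type} [Group G]

theorem mrep_apply {n : ℕ} (σ : G →* Matrix (Fin n) (Fin n) F) (g : G) (v : Fin n → F) :
    mrep σ g v = (σ g).mulVec v := rfl

/-- traces act as zero on the fixed points modulo norms -/
theorem trP_mem {V V' : Type} [AddCommGroup V] [Module F V] [AddCommGroup V'] [Module F V']
    [Finite G] (ρ : Representation F G V) (ρ' : Representation F G V') (P : Subgroup G)
    (φ : V →ₗ[F] V') {v : V} (hv : v ∈ fixV ρ P) : trP ρ ρ' P φ v ∈ nrmV ρ' P := by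
  have := Fintype.ofFinite P
  refine ⟨φ v, ?_⟩
  unfold trP
  rw [finsum_eq_sum_of_fintype, finsum_eq_sum_of_fintype, LinearMap.sum_apply,
    LinearMap.sum_apply]
  refine Finset.sum_congr rfl fun p _ => ?_
  rw [LinearMap.comp_apply, LinearMap.comp_apply, hv _ (inv_mem p.2)]

/-- every vector is the image of a given nonzero vector -/
theorem exists_mulVec {n : ℕ} {v : Fin n → F} (hv : v ≠ 0) {m : ℕ} (w : Fin m → F) :
    ∃ A : Matrix (Fin m) (Fin n) F, A.mulVec v = w := by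
  obtain ⟨i, hi⟩ : ∃ i, v i ≠ 0 := by
    by_contra hcon
    push Not at hcon
    exact hv (funext hcon)
  refine ⟨Matrix.vecMulVec w (Pi.single i (v i)⁻¹), ?_⟩
  ext j
  simp [Matrix.mulVec, dotProduct, Matrix.vecMulVec_apply, Pi.single_apply, hi]

/-- Schur's lemma for two representations -/
theorem schur_two {n n' : ℕ} {σ : G →* Matrix (Fin n) (Fin n) F}
    {σ' : G →* Matrix (Fin n') (Fin n') F} (hσ : IsIrr σ) (hσ' : IsIrr σ')
    (f : (Fin n → F) →ₗ[F] (Fin n' → F)) (hf : ∀ g v, f ((σ g).mulVec v) = (σ' g).mulVec (f v))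
    (hne : f ≠ 0) : tr σ = tr σ' := by
  have h1 : ∀ v, f v = 0 → ∀ A : Matrix (Fin n) (Fin n) F, f (A.mulVec v) = 0 := by
    intro v hv A
    have hA : A ∈ Submodule.span F (Set.range σ) := by rw [hσ.2]; trivial
    induction hA using Submodule.span_induction with
    | mem x hx =>
      obtain ⟨g, rfl⟩ := hx
      rw [hf, hv, Matrix.mulVec_zero]
    | zero => rw [Matrix.zero_mulVec, map_zero]
    | add x y _ _ hx hy => rw [Matrix.add_mulVec, map_add, hx, hy, add_zero]
    | smul a x _ hx => rw [Matrix.smul_mulVec, map_smul, hx, smul_zero]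
  have hinj : Function.Injective f := by
    rw [injective_iff_map_eq_zero]
    intro v hv
    by_contra hv0
    refine hne (LinearMap.ext fun w => ?_)
    obtain ⟨A, rfl⟩ := exists_mulVec hv0 w
    exact h1 v hv A
  have h2 : ∀ v, ∀ A : Matrix (Fin n') (Fin n') F, A.mulVec (f v) ∈ LinearMap.range f := by
    intro v A
    have hA : A ∈ Submodule.span F (Set.range σ') := by rw [hσ'.2]; trivial
    induction hA using Submodule.span_induction with
    | mem x hx =>
      obtain ⟨g, rfl⟩ := hx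
      exact ⟨_, hf g v⟩
    | zero => rw [Matrix.zero_mulVec]; exact zero_mem _
    | add x y _ _ hx hy => rw [Matrix.add_mulVec]; exact add_mem hx hy
    | smul a x _ hx => rw [Matrix.smul_mulVec]; exact Submodule.smul_mem _ _ hx
  have hsurj : Function.Surjective f := by
    obtain ⟨v, hv⟩ : ∃ v, f v ≠ 0 := by
      by_contra hcon
      push Not at hcon
      exact hne (LinearMap.ext hcon)
    intro w
    obtain ⟨A, rfl⟩ := exists_mulVec hv w
    exact h2 v A
  funext g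
  have h3 : Matrix.toLin' (σ' g) =
      (LinearEquiv.ofBijective f ⟨hinj, hsurj⟩).conj (Matrix.toLin' (σ g)) := by
    refine LinearMap.ext fun w => ?_
    obtain ⟨v, rfl⟩ := hsurj w
    rw [LinearEquiv.conj_apply, LinearMap.comp_apply, LinearMap.comp_apply]
    have h4 : (LinearEquiv.ofBijective f ⟨hinj, hsurj⟩).symm (f v) = v :=
      (LinearEquiv.ofBijective f ⟨hinj, hsurj⟩).symm_apply_apply v
    simp only [LinearEquiv.coe_coe, h4, Matrix.toLin'_apply, LinearEquiv.ofBijective_apply]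
    exact (hf g v).symm
  have h5 := congrArg (LinearMap.trace F (Fin n' → F)) h3
  rw [LinearMap.trace_conj', Matrix.trace_toLin'_eq, Matrix.trace_toLin'_eq] at h5
  exact h5.symm

/-- Schur's lemma -/
theorem schur_one {n : ℕ} {σ : G →* Matrix (Fin n) (Fin n) F} (hσ : IsIrr σ)
    (f : (Fin n → F) →ₗ[F] (Fin n → F)) (hf : ∀ g v, f ((σ g).mulVec v) = (σ g).mulVec (f v)) :
    ∃ c : F, ∀ v, f v = c • v := by
  have h1 : ∀ A : Matrix (Fin n) (Fin n) F, Commute A (LinearMap.toMatrix' f) := by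
    intro A
    have hA : A ∈ Submodule.span F (Set.range σ) := by rw [hσ.2]; trivial
    induction hA using Submodule.span_induction with
    | mem x hx =>
      obtain ⟨g, rfl⟩ := hx
      show σ g * LinearMap.toMatrix' f = LinearMap.toMatrix' f * σ g
      have h2 : (Matrix.toLin' (σ g)) ∘ₗ f = f ∘ₗ (Matrix.toLin' (σ g)) := by
        refine LinearMap.ext fun v => ?_
        rw [LinearMap.comp_apply, LinearMap.comp_apply, Matrix.toLin'_apply, Matrix.toLin'_apply,
          hf]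
      have h3 := congrArg LinearMap.toMatrix' h2
      rwa [LinearMap.toMatrix'_comp, LinearMap.toMatrix'_comp, LinearMap.toMatrix'_toLin'] at h3
    | zero => exact Commute.zero_left _
    | add x y _ _ hx hy => exact hx.add_left hy
    | smul a x _ hx => exact hx.smul_left a
  obtain ⟨w, hw⟩ := Matrix.mem_range_scalar_of_commute_single (M := LinearMap.toMatrix' f)
    (fun i j _ => h1 (Matrix.single i j 1))
  refine ⟨w, fun v => ?_⟩
  rw [← Matrix.toLin'_toMatrix' f, ← hw, Matrix.toLin'_apply, Matrix.scalar_apply,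
    ← Matrix.smul_one_eq_diagonal, Matrix.smul_mulVec, Matrix.one_mulVec]

/-- the image of an embedding consists of fixed points of `P` -/
theorem emb_fix (hnls : NlsStmt) {ℓ : ℕ} (hF : GoodF ℓ F) [Finite G] {P N : Subgroup G}
    (hP : IsPGroup ℓ P) (hPN : P ≤ N) (hN : N ≤ Subgroup.normalizer (P : Set G)) {m : ℕ}
    {κ : N →* Matrix (Fin m) (Fin m) F} (hκ : IsIrr κ) {V : Type} [AddCommGroup V] [Module F V]
    {ρ : Representation F G V} {ι : (Fin m → F) →ₗ[F] V} (h : EmbN P N κ ρ ι) (w : Fin m → F) :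
    ι w ∈ fixV ρ P := by
  intro p hp
  have h1 : (P.subgroupOf N).Normal := by
    constructor
    intro x hx y
    rw [Subgroup.mem_subgroupOf] at hx ⊢
    exact (Subgroup.mem_normalizer_iff.1 (hN y.2) _).1 hx
  have h2 := (hnls ℓ F hF N (P.subgroupOf N) h1 (hP.comap_of_injective _ Subtype.val_injective) m κ
    hκ).1 ⟨p, hPN hp⟩ (Subgroup.mem_subgroupOf.2 hp)
  have h3 := h.int ⟨p, hPN hp⟩ w
  rw [h2, Matrix.one_mulVec] at h3
  exact h3.symm

/-- the homomorphism for `G` -/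
theorem key (hmac : MacStmt) (hnls : NlsStmt) {ℓ : ℕ} [Fact ℓ.Prime] (hF : GoodF ℓ F) [Finite G]
    {P : Subgroup G} (hT : TiS ℓ P) {n n' m : ℕ} {σ : G →* Matrix (Fin n) (Fin n) F}
    {σ' : G →* Matrix (Fin n') (Fin n') F}
    {κ : Subgroup.normalizer (P : Set G) →* Matrix (Fin m) (Fin m) F} (hκ : IsIrr κ)
    {ι : (Fin m → F) →ₗ[F] (Fin n → F)} {ι' : (Fin m → F) →ₗ[F] (Fin n' → F)}
    (hι : EmbN P (Subgroup.normalizer (P : Set G)) κ (mrep σ) ι)
    (hι' : EmbN P (Subgroup.normalizer (P : Set G)) κ (mrep σ') ι')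
    (g : (Fin n → F) →ₗ[F] (Fin n' → F))
    (hg : HomOn (Subgroup.normalizer (P : Set G)) (mrep σ) (mrep σ') g)
    (hgι : ∀ w, g (ι w) = ι' w) : ∃ f : (Fin n → F) →ₗ[F] (Fin n' → F),
      (∀ x v, f ((σ x).mulVec v) = (σ' x).mulVec (f v)) ∧ f ≠ 0 ∧
      ∀ v ∈ fixV (mrep σ) P, f v - g v ∈ nrmV (mrep σ') P := by
  obtain ⟨φ, hφ⟩ := hmac ℓ F G P hT (Fin n → F) (Fin n' → F) (mrep σ) (mrep σ') g hg
  refine ⟨_, fun x v => hφ x trivial v, ?_, ?_⟩
  · intro h0
    obtain ⟨w, hw⟩ := hι'.nt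
    have h1 := emb_fix hnls hF hT.pgrp Subgroup.le_normalizer le_rfl hκ hι w
    have h2 := trP_mem (mrep σ) (mrep σ') P φ h1
    have h3 : (g + trP (mrep σ) (mrep σ') P φ) (ι w) = 0 := by rw [h0, LinearMap.zero_apply]
    rw [LinearMap.add_apply, hgι] at h3
    rw [eq_neg_of_add_eq_zero_left h3] at hw
    exact hw (neg_mem h2)
  · intro v hv
    rw [LinearMap.add_apply, add_sub_cancel_left]
    exact trP_mem (mrep σ) (mrep σ') P φ hv

/-- INJ -/
theorem inj (hmac : MacStmt) (hspl : SplStmt) (hnls : NlsStmt) : InjStmt := by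
  intro ℓ _ F _ hF G _ _ P hT hc n n' σ σ' hσ hσ' m κ ι ι' hκ hι hι'
  have hPN : P ≤ Subgroup.normalizer (P : Set G) := Subgroup.le_normalizer
  have hidx : ¬ ℓ ∣ P.relIndex (Subgroup.normalizer (P : Set G)) := fun hd =>
    hT.sylow (hd.trans (Subgroup.relIndex_dvd_index_of_le hPN))
  rcases hspl ℓ F hF G P (Subgroup.normalizer (P : Set G)) hT.pgrp hc hPN le_rfl hidx
    (Fin n → F) (Fin n' → F) (mrep σ) (mrep σ') m κ ι ι' hκ hι hι' with ⟨g, h1, h2, -⟩ | ⟨g, h1, h2, -⟩
  · obtain ⟨f, h3, h4, -⟩ := key hmac hnls hF hT hκ hι hι' g h1 h2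
    exact schur_two hσ hσ' f h3 h4
  · obtain ⟨f, h3, h4, -⟩ := key hmac hnls hF hT hκ hι' hι g h1 h2
    exact (schur_two hσ' hσ f h3 h4).symm

/-- BRK -/
theorem brk (hmac : MacStmt) (hspl : SplStmt) (hnls : NlsStmt) : BrkStmt := by
  intro ℓ _ F _ hF G _ _ P hT hc n σ hσ m κ ι hκ hι
  have hPN : P ≤ Subgroup.normalizer (P : Set G) := Subgroup.le_normalizer
  have hidx : ¬ ℓ ∣ P.relIndex (Subgroup.normalizer (P : Set G)) := fun hd =>
    hT.sylow (hd.trans (Subgroup.relIndex_dvd_index_of_le hPN))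
  have h0 : ∃ g : (Fin n → F) →ₗ[F] (Fin n → F),
      HomOn (Subgroup.normalizer (P : Set G)) (mrep σ) (mrep σ) g ∧ (∀ w, g (ι w) = ι w) ∧
      ∀ v ∈ fixV (mrep σ) P, g v ∈ LinearMap.range ι := by
    rcases hspl ℓ F hF G P (Subgroup.normalizer (P : Set G)) hT.pgrp hc hPN le_rfl hidx
      (Fin n → F) (Fin n → F) (mrep σ) (mrep σ) m κ ι ι hκ hι hι with h | h
    · exact h
    · exact h
  obtain ⟨g, h1, h2, h3⟩ := h0
  obtain ⟨f, h4, h5, h6⟩ := key hmac hnls hF hT hκ hι hι g h1 h2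
  obtain ⟨c, hc'⟩ := schur_one hσ f h4
  obtain ⟨w, hw⟩ := hι.nt
  have hc1 : c = 1 := by
    have h7 := h6 (ι w) (emb_fix hnls hF hT.pgrp hPN le_rfl hκ hι w)
    rw [hc', h2] at h7
    by_contra hne
    have h8 : c • ι w - ι w = (c - 1) • ι w := by rw [sub_smul, one_smul]
    rw [h8, Submodule.smul_mem_iff _ (sub_ne_zero.2 hne)] at h7
    exact hw h7
  intro v hv
  have h7 := h6 v hv
  rw [hc', hc1, one_smul] at h7
  rw [show v = g v + (v - g v) by abel]
  exact add_mem (Submodule.mem_sup_left (h3 v hv)) (Submodule.mem_sup_right h7)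

end Pool.Agent.PP.CY66
end
end -- Pool.Agent.Helper66_CY.Brk

section -- Pool.Agent.Helper66_CY.Cyn

/-!
# Squad PP, part CY: the numbers of irreducible modular characters of `G` and `N_G(P)` agree
-/

open scoped BigOperators

noncomputable section

namespace Pool.Agent.PP.CY66

open Pool.Agent.PP Pool.Agent.Helper51_AWC Pool.Agent.Helper79_WRA

variable {F : Type} [Field F] {G : Type} [Group G]

/-- the norm is stable under the normaliser of `P` -/
theorem nrm_stable {V : Type} [AddCommGroup V] [Module F V] [Finite G] (ρ : Representation F G V)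
    {P : Subgroup G} {n : G} (hn : n ∈ Subgroup.normalizer (P : Set G)) {v : V}
    (hv : v ∈ nrmV ρ P) : ρ n v ∈ nrmV ρ P := by
  have := Fintype.ofFinite P
  obtain ⟨w, rfl⟩ := hv
  refine ⟨ρ n w, ?_⟩
  rw [finsum_eq_sum_of_fintype, LinearMap.sum_apply, LinearMap.sum_apply, map_sum]
  let e : P ≃ P :=
    { toFun := fun p => ⟨n * p * n⁻¹, (Subgroup.mem_normalizer_iff.1 hn _).1 p.2⟩
      invFun := fun p => ⟨n⁻¹ * p * n, by
        have h := (Subgroup.mem_normalizer_iff.1 (inv_mem hn) (p : G)).1 p.2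
        rwa [inv_inv] at h⟩
      left_inv := fun p => Subtype.ext (by simp only; group)
      right_inv := fun p => Subtype.ext (by simp only; group) }
  refine (Fintype.sum_equiv e _ _ fun p => ?_).symm
  show ρ n (ρ p w) = ρ (n * p * n⁻¹) (ρ n w)
  rw [← Module.End.mul_apply, ← map_mul, ← Module.End.mul_apply, ← map_mul,
    inv_mul_cancel_right]

/-- change of the representation of `N` -/
theorem emb_left {V : Type} [AddCommGroup V] [Module F V] {P N : Subgroup G} {m m' : ℕ}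
    {κ : N →* Matrix (Fin m) (Fin m) F} {κ' : N →* Matrix (Fin m') (Fin m') F}
    {ρ : Representation F G V} {ι : (Fin m → F) →ₗ[F] V} (h : EmbN P N κ ρ ι)
    {X : Matrix (Fin m) (Fin m') F} {Y : Matrix (Fin m') (Fin m) F} (hXY : X * Y = 1)
    (hX : ∀ g, X * κ' g = κ g * X) : EmbN P N κ' ρ (ι ∘ₗ Matrix.toLin' X) := by
  refine ⟨fun n w => ?_, ?_⟩
  · rw [LinearMap.comp_apply, LinearMap.comp_apply, Matrix.toLin'_apply, Matrix.toLin'_apply,
      Matrix.mulVec_mulVec, hX, ← Matrix.mulVec_mulVec, h.int]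
  · obtain ⟨w, hw⟩ := h.nt
    refine ⟨Y.mulVec w, ?_⟩
    rw [LinearMap.comp_apply, Matrix.toLin'_apply, Matrix.mulVec_mulVec, hXY, Matrix.one_mulVec]
    exact hw

/-- change of the representation of `G` -/
theorem emb_right [Finite G] {P N : Subgroup G} {m n n' : ℕ}
    {κ : N →* Matrix (Fin m) (Fin m) F} {σ : G →* Matrix (Fin n) (Fin n) F}
    {σ' : G →* Matrix (Fin n') (Fin n') F} {ι : (Fin m → F) →ₗ[F] (Fin n → F)}
    (h : EmbN P N κ (mrep σ) ι) {X : Matrix (Fin n') (Fin n) F} {Y : Matrix (Fin n) (Fin n') F}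
    (hYX : Y * X = 1) (hX : ∀ g, X * σ g = σ' g * X) (hY : ∀ g, Y * σ' g = σ g * Y) :
    EmbN P N κ (mrep σ') (Matrix.toLin' X ∘ₗ ι) := by
  have := Fintype.ofFinite P
  refine ⟨fun g w => ?_, ?_⟩
  · rw [LinearMap.comp_apply, LinearMap.comp_apply, h.int, mrep_apply, mrep_apply,
      Matrix.toLin'_apply, Matrix.toLin'_apply, Matrix.mulVec_mulVec, Matrix.mulVec_mulVec, hX]
  · obtain ⟨w, hw⟩ := h.nt
    refine ⟨w, fun hcon => hw ?_⟩
    obtain ⟨v, hv⟩ := hcon
    refine ⟨Y.mulVec v, ?_⟩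
    rw [finsum_eq_sum_of_fintype, LinearMap.sum_apply] at hv ⊢
    rw [LinearMap.comp_apply, Matrix.toLin'_apply] at hv
    have h1 := congrArg Y.mulVec hv
    rw [Matrix.mulVec_mulVec, hYX, Matrix.one_mulVec, ← Matrix.toLin'_apply Y, map_sum] at h1
    rw [← h1]
    refine Finset.sum_congr rfl fun p _ => ?_
    rw [Matrix.toLin'_apply, mrep_apply, mrep_apply, Matrix.mulVec_mulVec, Matrix.mulVec_mulVec, hY]

/-- an embedding is injective modulo the norm -/
theorem emb_inj [Finite G] {P N : Subgroup G} (hN : N ≤ Subgroup.normalizer (P : Set G)) {m : ℕ}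
    {κ : N →* Matrix (Fin m) (Fin m) F} (hκ : IsIrr κ) {V : Type} [AddCommGroup V] [Module F V]
    {ρ : Representation F G V} {ι : (Fin m → F) →ₗ[F] V} (h : EmbN P N κ ρ ι) {w : Fin m → F}
    (hw : ι w ∈ nrmV ρ P) : w = 0 := by
  by_contra hne
  obtain ⟨w', hw'⟩ := h.nt
  apply hw'
  obtain ⟨A, rfl⟩ := exists_mulVec hne w'
  have hA : A ∈ Submodule.span F (Set.range κ) := by rw [hκ.2]; trivial
  clear hw'
  induction hA using Submodule.span_induction with
  | mem x hx =>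
    obtain ⟨g, rfl⟩ := hx
    rw [h.int]
    exact nrm_stable ρ (hN g.2) hw
  | zero => rw [Matrix.zero_mulVec, map_zero]; exact zero_mem _
  | add x y _ _ hx hy => rw [Matrix.add_mulVec, map_add]; exact add_mem hx hy
  | smul a x _ hx => rw [Matrix.smul_mulVec, map_smul]; exact Submodule.smul_mem _ _ hx

/-- the trace of `κ` is determined by `V` -/
theorem kap_unique [Finite G] {P N : Subgroup G} (hN : N ≤ Subgroup.normalizer (P : Set G))
    {m m' : ℕ} {κ : N →* Matrix (Fin m) (Fin m) F} (hκ : IsIrr κ)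
    {κ' : N →* Matrix (Fin m') (Fin m') F} (hκ' : IsIrr κ') {V : Type} [AddCommGroup V]
    [Module F V] {ρ : Representation F G V} {ι : (Fin m → F) →ₗ[F] V}
    {ι' : (Fin m' → F) →ₗ[F] V} (h : EmbN P N κ ρ ι) (h' : EmbN P N κ' ρ ι')
    (hle : ∀ w, ι' w ∈ LinearMap.range ι ⊔ nrmV ρ P) : tr κ' = tr κ := by
  have hq : Function.Injective ((nrmV ρ P).mkQ ∘ₗ ι) := by
    rw [injective_iff_map_eq_zero]
    intro w hw
    rw [LinearMap.comp_apply, Submodule.mkQ_apply, Submodule.Quotient.mk_eq_zero] at hw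
    exact emb_inj hN hκ h hw
  have hmem : ∀ w, ((nrmV ρ P).mkQ ∘ₗ ι') w ∈ LinearMap.range ((nrmV ρ P).mkQ ∘ₗ ι) := by
    intro w
    obtain ⟨a, ⟨b, rfl⟩, c, hc, hac⟩ := Submodule.mem_sup.1 (hle w)
    refine ⟨b, ?_⟩
    have hc0 : (nrmV ρ P).mkQ c = 0 := (Submodule.Quotient.mk_eq_zero _).2 hc
    rw [LinearMap.comp_apply, LinearMap.comp_apply, ← hac, map_add, hc0, add_zero]
  let u : (Fin m' → F) →ₗ[F] (Fin m → F) :=
    (LinearEquiv.ofInjective _ hq).symm.toLinearMap ∘ₗ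
      (((nrmV ρ P).mkQ ∘ₗ ι').codRestrict _ hmem)
  have hu : ∀ w, ((nrmV ρ P).mkQ ∘ₗ ι) (u w) = ((nrmV ρ P).mkQ ∘ₗ ι') w := by
    intro w
    have h1 := (LinearEquiv.ofInjective _ hq).apply_symm_apply
      ((((nrmV ρ P).mkQ ∘ₗ ι').codRestrict _ hmem) w)
    have h2 := congrArg Subtype.val h1
    rw [LinearEquiv.ofInjective_apply] at h2
    exact h2
  refine schur_two hκ' hκ u (fun n w => ?_) ?_
  · apply hq
    rw [hu, LinearMap.comp_apply, LinearMap.comp_apply, h'.int, h.int]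
    rw [Submodule.mkQ_apply, Submodule.mkQ_apply, Submodule.Quotient.eq, ← map_sub]
    refine nrm_stable ρ (hN n.2) ?_
    have h3 : Submodule.Quotient.mk (ι (u w)) = Submodule.Quotient.mk (ι' w) := hu w
    rw [Submodule.Quotient.eq] at h3
    rw [← neg_sub]
    exact neg_mem h3
  · intro h0
    obtain ⟨w, hw⟩ := h'.nt
    have h3 := hu w
    rw [h0, LinearMap.zero_apply, map_zero, LinearMap.comp_apply, Submodule.mkQ_apply, eq_comm,
      Submodule.Quotient.mk_eq_zero] at h3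
    exact hw h3

/-- the trace of an irreducible representation is not zero -/
theorem tr_ne {k : ℕ} {ρ : G →* Matrix (Fin k) (Fin k) F} (h : IsIrr ρ) : ∃ g, tr ρ g ≠ 0 := by
  by_contra hcon
  push Not at hcon
  have h1 : ∀ A : Matrix (Fin k) (Fin k) F, A.trace = 0 := by
    intro A
    have hA : A ∈ Submodule.span F (Set.range ρ) := by rw [h.2]; trivial
    induction hA using Submodule.span_induction with
    | mem x hx =>
      obtain ⟨g, rfl⟩ := hx
      exact hcon g
    | zero => exact Matrix.trace_zero _ _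
    | add x y _ _ hx hy => rw [Matrix.trace_add, hx, hy, add_zero]
    | smul a x _ hx => rw [Matrix.trace_smul, hx, smul_zero]
  have h2 := h1 (Matrix.single ⟨0, h.1⟩ ⟨0, h.1⟩ 1)
  rw [Matrix.trace_single_eq_same] at h2
  exact one_ne_zero h2

/-- a class function acts on an irreducible modular character by its scalar -/
theorem act_iff (heig : EigStmt) [Finite G] {k : ℕ} {ρ : G →* Matrix (Fin k) (Fin k) F}
    (h : IsIrr ρ) {a : G → F} (ha : IsCl a) {c : F} (hc : ev ρ a = Matrix.scalar (Fin k) c) :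
    actF a (tr ρ) = tr ρ ↔ c = 1 := by
  obtain ⟨w, h1, h2, -⟩ := heig F G k ρ h a ha
  have : Nonempty (Fin k) := ⟨⟨0, h.1⟩⟩
  have h3 : w = c := Matrix.scalar_inj.1 (h1.symm.trans hc)
  rw [h2, h3]
  constructor
  · intro h4
    obtain ⟨g, hg⟩ := tr_ne h
    have h5 := congrFun h4 g
    rw [Pi.smul_apply, smul_eq_mul] at h5
    exact mul_right_cancel₀ hg (by rw [h5, one_mul])
  · rintro rfl
    rw [one_smul]

/-- the correspondence between the irreducible modular characters of `G` and of `N_G(P)` -/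
def Rel (P : Subgroup G) (f : G → F) (θ : Subgroup.normalizer (P : Set G) → F) : Prop :=
  ∃ (n : ℕ) (σ : G →* Matrix (Fin n) (Fin n) F) (m : ℕ)
    (κ : Subgroup.normalizer (P : Set G) →* Matrix (Fin m) (Fin m) F)
    (ι : (Fin m → F) →ₗ[F] (Fin n → F)), IsIrr σ ∧ tr σ = f ∧ IsIrr κ ∧ tr κ = θ ∧
      EmbN P (Subgroup.normalizer (P : Set G)) κ (mrep σ) ι

theorem rel_right (hbrk : BrkStmt) (hibc : IbcStmt) (hnls : NlsStmt) {ℓ : ℕ} [Fact ℓ.Prime]
    (hF : GoodF ℓ F) [Finite G] {P : Subgroup G} (hT : TiS ℓ P) (hc : IsCyclic P) {f : G → F}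
    {θ θ' : Subgroup.normalizer (P : Set G) → F} (h : Rel P f θ) (h' : Rel P f θ') : θ = θ' := by
  obtain ⟨n, σ, m, κ, ι, h1, h2, h3, h4, h5⟩ := h
  obtain ⟨n', σ', m', κ', ι', h1', h2', h3', h4', h5'⟩ := h'
  obtain ⟨X, Y, -, hXY, hYX, hX⟩ := hibc ℓ F hF G n' n σ' σ h1' h1 (h2'.trans h2.symm)
  have hY : ∀ g, Y * σ g = σ' g * Y := by
    intro g
    calc Y * σ g = Y * σ g * (X * Y) := by rw [hXY, Matrix.mul_one]
      _ = Y * (σ g * X) * Y := by simp only [Matrix.mul_assoc]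
      _ = Y * X * σ' g * Y := by rw [← hX, ← Matrix.mul_assoc]
      _ = σ' g * Y := by rw [hYX, Matrix.one_mul]
  have h6 := emb_right h5' hYX hX hY
  rw [← h4, ← h4']
  refine (kap_unique le_rfl h3 h3' h5 h6 fun w => ?_).symm
  exact hbrk ℓ F hF G P hT hc n σ h1 m κ ι h3 h5
    (emb_fix hnls hF hT.pgrp Subgroup.le_normalizer le_rfl h3' h6 w)

theorem rel_left (hinj : InjStmt) (hibc : IbcStmt) {ℓ : ℕ} [Fact ℓ.Prime]
    (hF : GoodF ℓ F) [Finite G] {P : Subgroup G} (hT : TiS ℓ P) (hc : IsCyclic P) {f f' : G → F}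
    {θ : Subgroup.normalizer (P : Set G) → F} (h : Rel P f θ) (h' : Rel P f' θ) : f = f' := by
  obtain ⟨n, σ, m, κ, ι, h1, h2, h3, h4, h5⟩ := h
  obtain ⟨n', σ', m', κ', ι', h1', h2', h3', h4', h5'⟩ := h'
  obtain ⟨X, Y, -, hXY, hYX, hX⟩ := hibc ℓ F hF (Subgroup.normalizer (P : Set G)) m m' κ κ' h3 h3'
    (h4.trans h4'.symm)
  have h6 := emb_left h5' hXY hX
  rw [← h2, ← h2']
  exact hinj ℓ F hF G P hT hc n n' σ σ' h1 h1' m κ ι _ h3 h5 h6

/-- CYN -/
theorem cyn (hnpr : NprStmt) (hfre : FrcStmt) (hexk : ExkStmt) (hbrk : BrkStmt) (hinj : InjStmt)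
    (hsur : SurStmt) (hebr : EbrStmt) (hibc : IbcStmt) (heig : EigStmt) (hnls : NlsStmt)
    (hbrm : BrmStmt) : CynStmt := by
  intro ℓ _ F _ hF G _ _ P hT hc e he hpos
  have hPN : P ≤ Subgroup.normalizer (P : Set G) := Subgroup.le_normalizer
  have hidx : ¬ ℓ ∣ P.relIndex (Subgroup.normalizer (P : Set G)) := fun hd =>
    hT.sylow (hd.trans (Subgroup.relIndex_dvd_index_of_le hPN))
  have hCN : Subgroup.centralizer (P : Set G) ≤ Subgroup.normalizer (P : Set G) := by
    intro x hx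
    rw [Subgroup.mem_normalizer_iff]
    intro y
    constructor
    · intro hy
      rw [← Subgroup.mem_centralizer_iff.1 hx y hy, mul_inv_cancel_right]
      exact hy
    · intro hy
      have h1 := Subgroup.mem_centralizer_iff.1 hx _ hy
      have h2 : x * y * x⁻¹ = y := by
        have h3 : x * y = x * (x * y * x⁻¹) := by rw [← h1]; group
        exact (mul_left_cancel h3).symm
      rwa [h2] at hy
  have hbr : IsIdem (fun t : Subgroup.normalizer (P : Set G) => br P e t) :=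
    (hbrm ℓ F hF G P _ hT.pgrp hCN le_rfl).2.2 e he
  have hl : lnum (⊤ : Subgroup G) e = {f : G → F | f ∈ IBr F G ∧ actF e f = f}.ncard := by
    rw [H75.lnum_eq]
    exact H75.cnt_equiv Subgroup.topEquiv e
  have hr : lnum (Subgroup.normalizer (P : Set G)) e =
      {θ : Subgroup.normalizer (P : Set G) → F | θ ∈ IBr F (Subgroup.normalizer (P : Set G)) ∧
        actF (fun t : Subgroup.normalizer (P : Set G) => br P e t) θ = θ}.ncard := by
    unfold lnum
    congr 1
    have hn : (P.subgroupOf (Subgroup.normalizer (P : Set G))).Normal := by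
      constructor
      intro x hx y
      rw [Subgroup.mem_subgroupOf] at hx ⊢
      exact (Subgroup.mem_normalizer_iff.1 y.2 _).1 hx
    have hb : br (P.subgroupOf (Subgroup.normalizer (P : Set G)))
        (fun t : Subgroup.normalizer (P : Set G) => e t) =
        fun t : Subgroup.normalizer (P : Set G) => br P e t := by
      classical
      funext t
      unfold br
      refine if_congr ?_ rfl rfl
      constructor
      · intro ht
        rw [Subgroup.mem_centralizer_iff] at ht ⊢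
        intro x hx
        exact congrArg Subtype.val (ht ⟨x, hPN hx⟩ (Subgroup.mem_subgroupOf.2 hx))
      · intro ht
        rw [Subgroup.mem_centralizer_iff] at ht ⊢
        intro x hx
        exact Subtype.ext (ht x (Subgroup.mem_subgroupOf.1 hx))
    ext θ
    constructor
    · rintro ⟨⟨m, κ, hκ, rfl⟩, h2⟩
      refine ⟨⟨m, κ, hκ, rfl⟩, ?_⟩
      have h3 := ((hnls ℓ F hF _ _ hn (hT.pgrp.comap_of_injective _ Subtype.val_injective) m κ
        hκ).2 (fun t => e t) (fun x y => he.1 x y)).2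
      rw [hb] at h3
      rw [← h3]
      exact h2
    · rintro ⟨⟨m, κ, hκ, rfl⟩, h2⟩
      refine ⟨⟨m, κ, hκ, rfl⟩, ?_⟩
      have h3 := ((hnls ℓ F hF _ _ hn (hT.pgrp.comap_of_injective _ Subtype.val_injective) m κ
        hκ).2 (fun t => e t) (fun x y => he.1 x y)).2
      rw [hb] at h3
      rw [h3]
      exact h2
  rw [hl, hr]
  -- existence from the left
  have hA : ∀ f : G → F, f ∈ {f : G → F | f ∈ IBr F G ∧ actF e f = f} →
      ∃ θ : Subgroup.normalizer (P : Set G) → F,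
        (θ ∈ IBr F (Subgroup.normalizer (P : Set G)) ∧
          actF (fun t : Subgroup.normalizer (P : Set G) => br P e t) θ = θ) ∧ Rel P f θ := by
    rintro f ⟨⟨n, σ, hσ, rfl⟩, h2⟩
    obtain ⟨w, h3, -, -⟩ := heig F G n σ hσ e he.1
    have h4 : w = 1 := (act_iff heig hσ he.1 h3).1 h2
    subst h4
    have h5 : ev σ e = 1 := by rw [h3, map_one]
    have h6 : ¬ fixV (mrep σ) P ≤ nrmV (mrep σ) P := by
      intro hle
      obtain ⟨φ, hφ⟩ := hfre ℓ F hF.char G P hT.pgrp hc (Fin n → F) (mrep σ) hle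
      exact hnpr ℓ F hF G P hT.pgrp hT.sylow e he hpos n σ hσ h5 φ hφ
    obtain ⟨m, κ, ι, hκ, hι⟩ := hexk ℓ F hF G P (Subgroup.normalizer (P : Set G)) hT.pgrp hPN
      le_rfl hidx (Fin n → F) (mrep σ) h6
    have h7 := hebr ℓ F hF G P hT hc n σ hσ m κ ι hκ hι e 1 he.1 h3
    exact ⟨tr κ, ⟨⟨m, κ, hκ, rfl⟩, (act_iff heig hκ hbr.1 h7).2 rfl⟩,
      n, σ, m, κ, ι, hσ, rfl, hκ, rfl, hι⟩
  choose! Θ hΘ hΘR using hA
  refine Set.ncard_congr (fun f _ => Θ f) (fun f hf => hΘ f hf) (fun f f' hf hf' h => ?_)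
    fun θ hθ => ?_
  · have h1 := hΘR f hf
    have h2 := hΘR f' hf'
    have h3 : Θ f = Θ f' := h
    rw [← h3] at h2
    exact rel_left hinj hibc hF hT hc h1 h2
  · obtain ⟨⟨m, κ, hκ, rfl⟩, h2⟩ := hθ
    obtain ⟨n, σ, ι, hσ, hι⟩ := hsur ℓ F hF G P hT m κ hκ
    obtain ⟨w, h3, -, -⟩ := heig F G n σ hσ e he.1
    have h4 := hebr ℓ F hF G P hT hc n σ hσ m κ ι hκ hι e w he.1 h3
    have h5 : w = 1 := (act_iff heig hκ hbr.1 h4).1 h2
    have hf : tr σ ∈ {f : G → F | f ∈ IBr F G ∧ actF e f = f} :=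
      ⟨⟨n, σ, hσ, rfl⟩, (act_iff heig hσ he.1 h3).2 h5⟩
    refine ⟨tr σ, hf, ?_⟩
    exact rel_right hbrk hibc hnls hF hT hc (hΘR _ hf) ⟨n, σ, m, κ, ι, hσ, rfl, hκ, rfl, hι⟩

/-- CYF -/
theorem cyf (htic : TicStmt) (hcyn : CynStmt) : CyfStmt := by
  intro ℓ _ F _ hF G _ _ P hT hc hop e he hpos
  rw [htic ℓ F G P hT hop e he.1, hcyn ℓ F hF G P hT hc e he hpos, sub_self, mul_zero]

end Pool.Agent.PP.CY66
end
end -- Pool.Agent.Helper66_CY.Cyn

section -- Pool.Agent.Helper75_CY.Fre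

/-!
# FRE: if `V^P = (∑ P) V` for an `ℓ`-group `P` in characteristic `ℓ`, the identity is a trace

`φ₀` is a linear map which on the image of the norm is a section of the norm. The trace `T` of `φ₀`
commutes with `P` and is the identity on the fixed points, hence injective (the elements `y - 1`
are nilpotent), hence bijective; `φ = φ₀ T⁻¹`.
-/

open scoped BigOperators

noncomputable section

namespace Pool.Agent.PP.CY.H75

open Pool.Agent.Helper51_AWC Pool.Agent.Helper79_WRA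

section

variable {F : Type} [Field F] {G : Type} [Group G] {V V' : Type} [AddCommGroup V]
  [Module F V] [AddCommGroup V'] [Module F V']

theorem trP_eq [Fintype G] (ρ : Representation F G V) (ρ' : Representation F G V')
    (P : Subgroup G) [Fintype P] (φ : V →ₗ[F] V') :
    trP ρ ρ' P φ = ∑ p : P, ρ' p ∘ₗ φ ∘ₗ ρ (p : G)⁻¹ :=
  finsum_eq_sum_of_fintype _

theorem trP_apply [Fintype G] (ρ : Representation F G V) (ρ' : Representation F G V')
    (P : Subgroup G) [Fintype P] (φ : V →ₗ[F] V') (v : V) :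
    trP ρ ρ' P φ v = ∑ p : P, ρ' p (φ (ρ (p : G)⁻¹ v)) := by
  rw [trP_eq, LinearMap.sum_apply]
  rfl

/-- the trace commutes with `P` -/
theorem trP_comm [Finite G] (ρ : Representation F G V) (ρ' : Representation F G V')
    (P : Subgroup G) (φ : V →ₗ[F] V') (g : G) (hg : g ∈ P) (v : V) :
    trP ρ ρ' P φ (ρ g v) = ρ' g (trP ρ ρ' P φ v) := by
  classical
  have := Fintype.ofFinite G
  have := Fintype.ofFinite P
  rw [trP_apply, trP_apply, map_sum]
  have key := Fintype.sum_equiv (Equiv.mulLeft (⟨g, hg⟩ : P))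
    (fun p : P => ρ' g (ρ' p (φ (ρ (p : G)⁻¹ v))))
    (fun p : P => ρ' p (φ (ρ (p : G)⁻¹ (ρ g v)))) (by
      intro p
      have h1 : (((Equiv.mulLeft (⟨g, hg⟩ : P)) p : P) : G) = g * (p : G) := rfl
      have h2 : ρ' (g * (p : G)) (φ (ρ (g * (p : G))⁻¹ (ρ g v))) =
          ρ' g (ρ' p (φ (ρ (p : G)⁻¹ v))) := by
        rw [map_mul ρ', ← Module.End.mul_apply (ρ (g * (p : G))⁻¹) (ρ g) v, ← map_mul ρ]
        have h3 : (g * (p : G))⁻¹ * g = (p : G)⁻¹ := by group
        rw [h3]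
        rfl
      show ρ' g (ρ' p (φ (ρ (p : G)⁻¹ v))) =
        ρ' (((Equiv.mulLeft (⟨g, hg⟩ : P)) p : P) : G)
          (φ (ρ (((Equiv.mulLeft (⟨g, hg⟩ : P)) p : P) : G)⁻¹ (ρ g v)))
      rw [h1, h2])
  exact key.symm

/-- composition with a map commuting with `P` -/
theorem trP_comp [Finite G] (ρ : Representation F G V) (ρ' : Representation F G V')
    (P : Subgroup G) (φ : V →ₗ[F] V') (T : V →ₗ[F] V)
    (hT : ∀ g ∈ P, ∀ v, T (ρ g v) = ρ g (T v)) (v : V) :
    trP ρ ρ' P (φ ∘ₗ T) v = trP ρ ρ' P φ (T v) := by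
  classical
  have := Fintype.ofFinite G
  have := Fintype.ofFinite P
  rw [trP_apply, trP_apply]
  refine Finset.sum_congr rfl fun p _ => ?_
  rw [LinearMap.comp_apply, hT _ (P.inv_mem p.2)]

end

/-- `y - 1` is nilpotent -/
theorem nilp (ℓ : ℕ) [Fact ℓ.Prime] (F : Type) [Field F] [CharP F ℓ] {V : Type} [AddCommGroup V]
    [Module F V] (Y : V →ₗ[F] V) (m : ℕ) (hY : Y ^ (ℓ ^ m) = 1) :
    (Y - 1) ^ (ℓ ^ m) = 0 := by
  have h : ((Polynomial.X : Polynomial F) - 1) ^ (ℓ ^ m) = Polynomial.X ^ (ℓ ^ m) - 1 := by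
    rw [sub_pow_char_pow, one_pow]
  have h2 := congrArg (Polynomial.aeval (R := F) (A := Module.End F V) Y) h
  simp only [map_pow, map_sub, Polynomial.aeval_X, map_one] at h2
  rw [hY, sub_self] at h2
  exact h2

theorem fre : FrcStmt := by
  intro ℓ _ F _ hch G _ _ P hP hcyc V _ _ _ ρ hfix
  classical
  have := hch
  have := Fintype.ofFinite G
  have := Fintype.ofFinite P
  obtain ⟨s, hs⟩ := (∑ᶠ p : P, ρ p : V →ₗ[F] V).rangeRestrict.exists_rightInverse_of_surjective
    (LinearMap.range_rangeRestrict _)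
  obtain ⟨φ, hφ⟩ := s.exists_extend
  have hN : ∀ v ∈ fixV ρ P, (∑ᶠ p : P, ρ p : V →ₗ[F] V) (φ v) = v := by
    intro v hv
    have hv' := hfix hv
    have h1 : φ v = s ⟨v, hv'⟩ := by
      rw [← hφ]
      rfl
    have h2 := congrArg (fun t : LinearMap.range (∑ᶠ p : P, ρ p : V →ₗ[F] V) => (t : V))
      (LinearMap.congr_fun hs ⟨v, hv'⟩)
    rw [h1]
    exact h2
  have hT1 : ∀ v ∈ fixV ρ P, trP ρ ρ P φ v = v := by
    intro v hv
    rw [trP_apply]
    have h2 := hN v hv
    rw [finsum_eq_sum_of_fintype, LinearMap.sum_apply] at h2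
    refine Eq.trans (Finset.sum_congr rfl fun p _ => ?_) h2
    rw [hv _ (P.inv_mem p.2)]
  -- injectivity
  obtain ⟨y, hy⟩ := hcyc.exists_generator
  obtain ⟨m, hm⟩ := IsPGroup.iff_card.mp hP
  have hY : (ρ (y : G)) ^ (ℓ ^ m) = 1 := by
    rw [← map_pow, ← hm, ← Subgroup.coe_pow, pow_card_eq_one', Subgroup.coe_one, map_one]
  have hnil := nilp ℓ F (ρ (y : G)) m hY
  have hfixy : ∀ v : V, ρ (y : G) v = v → v ∈ fixV ρ P := by
    intro v hv p hp
    obtain ⟨k, hk⟩ := (mem_powers_iff_mem_zpowers.mpr (hy ⟨p, hp⟩))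
    have h1 : (y : G) ^ k = p := by
      have := congrArg Subtype.val hk
      simpa using this
    rw [← h1, map_pow]
    clear hk h1
    induction k with
    | zero => rfl
    | succ k ih => rw [pow_succ, Module.End.mul_apply, hv, ih]
  have hcomm : ∀ v, trP ρ ρ P φ (ρ (y : G) v) = ρ (y : G) (trP ρ ρ P φ v) :=
    fun v => trP_comm ρ ρ P φ y y.2 v
  have hcommD : ∀ (j : ℕ) (v : V), trP ρ ρ P φ (((ρ (y : G) - 1) ^ j) v) =
      ((ρ (y : G) - 1) ^ j) (trP ρ ρ P φ v) := by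
    intro j
    induction j with
    | zero => intro v; rfl
    | succ j ih =>
      intro v
      rw [pow_succ, Module.End.mul_apply, Module.End.mul_apply, ih, LinearMap.sub_apply,
        LinearMap.sub_apply, map_sub, hcomm]
      rfl
  have hinj : Function.Injective (trP ρ ρ P φ) := by
    rw [← LinearMap.ker_eq_bot, LinearMap.ker_eq_bot']
    intro v hv
    by_contra hne
    have hex : ∃ j : ℕ, ((ρ (y : G) - 1) ^ j) v = 0 := ⟨ℓ ^ m, by rw [hnil]; rfl⟩
    have h0 : Nat.find hex ≠ 0 := by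
      intro h
      have := Nat.find_spec hex
      rw [h] at this
      exact hne this
    obtain ⟨j, hj⟩ := Nat.exists_eq_succ_of_ne_zero h0
    have hj1 := Nat.find_spec hex
    have hj2 := Nat.find_min hex (m := j) (by omega)
    rw [hj, pow_succ', Module.End.mul_apply] at hj1
    apply hj2
    have h3 : ρ (y : G) (((ρ (y : G) - 1) ^ j) v) = ((ρ (y : G) - 1) ^ j) v := by
      have : ρ (y : G) (((ρ (y : G) - 1) ^ j) v) - ((ρ (y : G) - 1) ^ j) v = 0 := hj1
      exact sub_eq_zero.mp this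
    have h4 := hT1 _ (hfixy _ h3)
    rw [hcommD, hv, map_zero] at h4
    exact h4.symm
  have hbij : Function.Bijective (trP ρ ρ P φ) :=
    ⟨hinj, LinearMap.injective_iff_surjective.mp hinj⟩
  let E : V ≃ₗ[F] V := LinearEquiv.ofBijective (trP ρ ρ P φ) hbij
  have hE : ∀ v, trP ρ ρ P φ (E.symm v) = v := fun v => E.apply_symm_apply v
  have hEc : ∀ g ∈ P, ∀ v, (E.symm : V →ₗ[F] V) (ρ g v) = ρ g ((E.symm : V →ₗ[F] V) v) := by
    intro g hg v
    apply hinj
    rw [trP_comm ρ ρ P φ g hg]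
    show trP ρ ρ P φ (E.symm (ρ g v)) = ρ g (trP ρ ρ P φ (E.symm v))
    rw [hE, hE]
  refine ⟨φ ∘ₗ (E.symm : V →ₗ[F] V), ?_⟩
  ext v
  rw [trP_comp ρ ρ P φ _ hEc]
  exact hE v

end Pool.Agent.PP.CY.H75
end
end -- Pool.Agent.Helper75_CY.Fre
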