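import Pool.Agent.Helper12_AWB.B045
import Pool.Agent.Helper12_AWB.B047
import Pool.Agent.Helper12_AWB.B051
import Pool.Agent.Helper12_AWB.B058
import Pool.Agent.Helper12_AWB.B154

/-!
# Merged copies (generated) of the modules

* `Pool.Agent.Helper66_PP.PosX`
* `Pool.Agent.Helper63_PP.Exk`
* `Pool.Agent.Helper96_BN.Npr`
* `Pool.Agent.Helper55_PP.Sur`
-/

set_option autoImplicit false

section -- Pool.Agent.Helper66_PP.PosX

/-!
# Squad PP, part V: positivity and normal subgroups of index prime to `ℓ`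
-/

open scoped BigOperators

noncomputable section

namespace Pool.Agent.PP.H66

open Pool.Agent.Helper51_AWC Pool.Agent.Helper79_WRA Pool.Agent.PP Pool.Agent.PP.H94
open Pool.Agent.AWR.H39

variable {F X : Type} [Field F] [Group X] [Finite X]

/-- The elements of the projective centre vanish at the elements which are not of defect zero. -/
theorem pc_supp {ℓ : ℕ} {N : Type} [Group N] [Finite N] {b : N → F} (hb : b ∈ PC F ℓ N) (y : N)
    (hy : ℓ ∣ Nat.card (Subgroup.centralizer ({y} : Set N))) : b y = 0 := by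
  unfold PC at hb
  induction hb using Submodule.span_induction with
  | zero => rfl
  | add f g _ _ hf hg =>
    change f y + g y = 0
    rw [hf, hg, add_zero]
  | smul c f _ hf =>
    change c * f y = 0
    rw [hf, mul_zero]
  | mem f hf =>
    obtain ⟨x, hx, rfl⟩ := hf
    unfold clsum
    rw [if_neg]
    rintro ⟨q, -, hyq⟩
    rw [hyq] at hy
    apply hx
    have h : Nat.card (Subgroup.centralizer ({q * x * q⁻¹} : Set N)) =
        Nat.card (Subgroup.centralizer ({x} : Set N)) := by
      refine Nat.card_congr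
        { toFun := fun g => ⟨q⁻¹ * g * q, ?_⟩
          invFun := fun g => ⟨q * g * q⁻¹, ?_⟩
          left_inv := fun g => Subtype.ext (by simp [mul_assoc])
          right_inv := fun g => Subtype.ext (by simp [mul_assoc]) }
      · have h1 := Subgroup.mem_centralizer_iff.1 g.2 (q * x * q⁻¹) rfl
        rw [Subgroup.mem_centralizer_iff]
        intro z hz
        rw [Set.mem_singleton_iff.1 hz]
        have h2 := congrArg (fun z => q⁻¹ * z * q) h1
        have e1 : q⁻¹ * (q * x * q⁻¹ * (g : N)) * q = x * (q⁻¹ * g * q) := by group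
        have e2 : q⁻¹ * ((g : N) * (q * x * q⁻¹)) * q = q⁻¹ * g * q * x := by group
        change q⁻¹ * (q * x * q⁻¹ * (g : N)) * q = q⁻¹ * ((g : N) * (q * x * q⁻¹)) * q at h2
        rw [e1, e2] at h2
        exact h2
      · have h1 := Subgroup.mem_centralizer_iff.1 g.2 x rfl
        rw [Subgroup.mem_centralizer_iff]
        intro z hz
        rw [Set.mem_singleton_iff.1 hz]
        have h2 := congrArg (fun z => q * z * q⁻¹) h1
        have e1 : q * (x * (g : N)) * q⁻¹ = q * x * q⁻¹ * (q * g * q⁻¹) := by group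
        have e2 : q * ((g : N) * x) * q⁻¹ = q * g * q⁻¹ * (q * x * q⁻¹) := by group
        change q * (x * (g : N)) * q⁻¹ = q * ((g : N) * x) * q⁻¹ at h2
        rw [e1, e2] at h2
        exact h2
    rw [← h]
    exact hy

/-- a class function as a combination of class sums -/
theorem cl_eq_sum [Fintype (ConjClasses X)] {b : X → F} (hb : IsCl b) :
    b = ∑ c : ConjClasses X, b c.out • clsum F ⊤ (c.out : X) := by
  funext x
  rw [Finset.sum_apply, Finset.sum_eq_single (ConjClasses.mk x)]
  · have h : IsConj ((ConjClasses.mk x).out : X) x :=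
      ConjClasses.mk_eq_mk_iff_isConj.1 (Quotient.out_eq (ConjClasses.mk x))
    obtain ⟨q, hq⟩ := isConj_iff.1 h
    change b x = b _ * clsum F ⊤ _ x
    unfold clsum
    rw [if_pos ⟨q, Subgroup.mem_top q, hq.symm⟩, mul_one]
    conv_lhs => rw [← hq]
    exact hb _ _
  · intro c _ hc
    change b _ * clsum F ⊤ _ x = 0
    unfold clsum
    rw [if_neg, mul_zero]
    rintro ⟨q, -, hq⟩
    apply hc
    have h1 : ConjClasses.mk x = ConjClasses.mk (c.out : X) := by
      rw [ConjClasses.mk_eq_mk_iff_isConj]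
      exact IsConj.symm (isConj_iff.2 ⟨q, hq.symm⟩)
    rw [h1]
    exact (Quotient.out_eq c).symm
  · intro h
    exact absurd (Finset.mem_univ _) h

/-- the centraliser of an element of a normal subgroup of index prime to `ℓ` -/
theorem cent_index {ℓ : ℕ} (hℓ : ℓ.Prime) (Y : Subgroup X) [Y.Normal] (hi : ¬ ℓ ∣ Y.index) (y : Y)
    (hy : ¬ ℓ ∣ Nat.card (Subgroup.centralizer ({y} : Set Y))) :
    ¬ ℓ ∣ Nat.card (Subgroup.centralizer ({(y : X)} : Set X)) := by
  intro h
  set C := Subgroup.centralizer ({(y : X)} : Set X) with hC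
  have h1 : Nat.card (C ⊓ Y : Subgroup X) * Y.relIndex C = Nat.card C := by
    have := Subgroup.relIndex_mul_relIndex ⊥ (C ⊓ Y) C bot_le inf_le_left
    rw [Subgroup.relIndex_bot_left, Subgroup.relIndex_bot_left, Subgroup.inf_relIndex_left] at this
    exact this
  have h2 : Y.relIndex C ∣ Y.index := Subgroup.relIndex_dvd_index_of_normal Y C
  have h3 : Nat.card (C ⊓ Y : Subgroup X) = Nat.card (Subgroup.centralizer ({y} : Set Y)) := by
    refine Nat.card_congr
      { toFun := fun g => ⟨⟨g, g.2.2⟩, ?_⟩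
        invFun := fun g => ⟨g, ?_, g.1.2⟩
        left_inv := fun g => rfl
        right_inv := fun g => rfl }
    · rw [Subgroup.mem_centralizer_iff]
      intro z hz
      rw [Set.mem_singleton_iff.1 hz]
      apply Subtype.ext
      exact Subgroup.mem_centralizer_iff.1 g.2.1 (y : X) rfl
    · have h4 := Subgroup.mem_centralizer_iff.1 g.2 y rfl
      change (g : X) ∈ Subgroup.centralizer ({(y : X)} : Set X)
      rw [Subgroup.mem_centralizer_iff]
      intro z hz
      rw [Set.mem_singleton_iff.1 hz]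
      exact congrArg Subtype.val h4
  rw [← h1, h3] at h
  rcases hℓ.dvd_mul.1 h with h4 | h4
  · exact hy h4
  · exact hi (h4.trans h2)

/-- Over a class function of defect zero of a normal subgroup of index prime to `ℓ` there is no
positive idempotent. -/
theorem posx {ℓ : ℕ} (hF : GoodF ℓ F) (Y : Subgroup X) [Y.Normal] (hi : ¬ ℓ ∣ Y.index)
    {b : X → F} (hb0 : ∀ x, x ∉ Y → b x = 0) (hbc : IsCl b) (hdz : DZ ℓ (fun t : Y => b t))
    {e : X → F} (he : IsIdem e) (heb : mulF e b = e) (hp : Pos ℓ e ⊤) : e = 0 := by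
  classical
  have hfC : Fintype (ConjClasses X) := Fintype.ofFinite _
  -- products with elements of the projective centre are nilpotent
  have hbX : b ∈ PC F ℓ X := by
    rw [cl_eq_sum hbc]
    refine Submodule.sum_mem _ fun c _ => ?_
    by_cases h0 : b (c.out : X) = 0
    · rw [h0, zero_smul]
      exact Submodule.zero_mem _
    · have hY : (c.out : X) ∈ Y := by
        by_contra h
        exact h0 (hb0 _ h)
      refine Submodule.smul_mem _ _ (Submodule.subset_span ⟨_, ?_, rfl⟩)
      refine cent_index hF.prime Y hi ⟨_, hY⟩ fun h => h0 ?_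
      exact pc_supp (N := Y) (b := fun t : Y => b t) hdz ⟨_, hY⟩ h
  have hcen : ∀ {a : X → F}, IsCl a → ∀ z, Commute (ma a) z := by
    intro a ha z
    have := (isCl_iff a).1 ha
    rw [Subalgebra.mem_center_iff] at this
    exact (this z).symm
  have hee : ma e * ma e = ma e := ((isIdem_iff e).1 he).2
  have key : ∀ a ∈ PC F ℓ X, IsCl a ∧ IsNilpotent (ma a * ma e) := by
    intro a ha
    unfold PC at ha
    induction ha using Submodule.span_induction with
    | zero => exact ⟨fun _ _ => rfl, 1, by rw [ma_zero, zero_mul, pow_one]⟩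
    | add f g _ _ hf hg =>
      refine ⟨(cfs F X).add_mem hf.1 hg.1, ?_⟩
      rw [ma_add, add_mul]
      exact Commute.isNilpotent_add ((hcen hf.1 _).mul_left (hcen he.1 _)) hf.2 hg.2
    | smul c f _ hf =>
      refine ⟨(cfs F X).smul_mem c hf.1, ?_⟩
      rw [ma_smul, smul_mul_assoc]
      exact hf.2.smul c
    | mem f hf =>
      obtain ⟨x, hx, rfl⟩ := hf
      refine ⟨clsum_cl x, ?_⟩
      obtain ⟨n, hn⟩ := hp x (Subgroup.mem_top x) (by rwa [inf_top_eq])
      refine ⟨n + 1, ?_⟩
      have h1 := ma_iterate (clsum F ⊤ x) e n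
      rw [hn, ma_zero] at h1
      rw [(hcen (clsum_cl x) (ma e)).mul_pow, pow_succ' (ma e), ← mul_assoc, pow_succ',
        mul_assoc (ma (clsum F ⊤ x)), ← h1, mul_zero, zero_mul]
  -- `e = e b` is nilpotent
  obtain ⟨n, hn⟩ := (key b hbX).2
  have h1 : ma b * ma e = ma e := by
    rw [(hcen hbc (ma e)).eq, ← ma_mul, heb]
  have h2 : ∀ k : ℕ, ma e ^ (k + 1) = ma e := by
    intro k
    induction k with
    | zero => rw [zero_add, pow_one]
    | succ k ih => rw [pow_succ, ih, hee]
  apply ma_injective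
  rw [ma_zero]
  rw [h1] at hn
  rw [← h2 n, pow_succ, hn, zero_mul]

end Pool.Agent.PP.H66
end
end -- Pool.Agent.Helper66_PP.PosX

section -- Pool.Agent.Helper63_PP.Exk

/-!
# Squad PP, part CY, module EXK: a constituent of the fixed points outside the norm
-/

open scoped BigOperators

noncomputable section

namespace Pool.Agent.PP.H63

open Pool.Agent.Helper51_AWC Pool.Agent.Helper79_WRA

section abs

variable {F : Type} [Field F] [IsAlgClosed F]

/-- Burnside -/
theorem burnside {R T : Type} [Ring R] [Algebra F R] [AddCommGroup T] [Module F T] [Module R T]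
    [IsScalarTower F R T] [IsSimpleModule R T] [FiniteDimensional F T] (f : T →ₗ[F] T) :
    ∃ r : R, ∀ t, f t = r • t := by
  classical
  have hb := IsSimpleModule.algebraMap_end_bijective_of_isAlgClosed (A := R) (V := T) F
  let f' : Module.End (Module.End R T) T :=
    { toFun := f
      map_add' := map_add f
      map_smul' := by
        intro g x
        obtain ⟨c, rfl⟩ := hb.2 g
        exact map_smul f c x }
  let b := Module.finBasis F T
  obtain ⟨r, hr⟩ := jacobson_density f' (Finset.univ.image b)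
  refine ⟨r, fun t => ?_⟩
  have h1 : f = Algebra.lsmul F F T r := by
    apply b.ext
    intro i
    exact hr (b i) (Finset.mem_image_of_mem _ (Finset.mem_univ i))
  rw [h1]
  rfl

/-- a simple constituent outside `W` -/
theorem exk_abs {Q U : Type} [Group Q] [Finite Q] [NeZero (Nat.card Q : F)] [AddCommGroup U]
    [Module F U] [FiniteDimensional F U] (τ : Representation F Q U) (W : Submodule F U)
    (hW : ∀ q, ∀ v ∈ W, τ q v ∈ W) (hne : W ≠ ⊤) :
    ∃ (m : ℕ) (κ : Q →* Matrix (Fin m) (Fin m) F) (ι : (Fin m → F) →ₗ[F] U), IsIrr κ ∧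
      (∀ q w, ι ((κ q).mulVec w) = τ q (ι w)) ∧ ∃ w, ι w ∉ W := by
  classical
  let R := MonoidAlgebra F Q
  let M := τ.asModule
  let e : M ≃ₗ[F] U := τ.asModuleEquiv
  let W' : Submodule R M :=
    Subrepresentation.subrepresentationSubmoduleOrderIso ⟨W, fun q v hv => hW q v hv⟩
  have hW' : ∀ x : M, x ∈ W' ↔ e x ∈ W := fun x => Iff.rfl
  obtain ⟨q, hq⟩ := MonoidAlgebra.Submodule.exists_isCompl W'
  have hq0 : q ≠ ⊥ := by
    rintro rfl
    have h1 : W' = ⊤ := eq_top_of_isCompl_bot hq
    apply hne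
    rw [eq_top_iff]
    intro u _
    have h2 : e.symm u ∈ W' := by rw [h1]; trivial
    rw [hW'] at h2
    simpa using h2
  obtain ⟨T, hT, hTq⟩ := (eq_bot_or_exists_atom_le q).resolve_left hq0
  have hTs : IsSimpleModule R T := isSimpleModule_iff_isAtom.2 hT
  have : FiniteDimensional F M := inferInstanceAs (FiniteDimensional F U)
  have : FiniteDimensional F T := FiniteDimensional.of_injective
    (T.subtype.restrictScalars F) (Subtype.val_injective)
  have : Nontrivial T := IsSimpleModule.nontrivial R T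
  let b := Module.finBasis F T
  let Ψ : R →ₐ[F] Matrix (Fin (Module.finrank F T)) (Fin (Module.finrank F T)) F :=
    (LinearMap.toMatrixAlgEquiv b).toAlgHom.comp (Algebra.lsmul F F T)
  let κ : Q →* Matrix (Fin (Module.finrank F T)) (Fin (Module.finrank F T)) F :=
    (Ψ : R →* _).comp (MonoidAlgebra.of F Q)
  have hΨ : Function.Surjective Ψ := by
    intro X
    obtain ⟨r, hr⟩ := burnside (R := R) ((LinearMap.toMatrixAlgEquiv b).symm X)
    refine ⟨r, ?_⟩
    have h1 : Algebra.lsmul F F T r = (LinearMap.toMatrixAlgEquiv b).symm X := by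
      apply LinearMap.ext
      intro t
      exact (hr t).symm
    change LinearMap.toMatrixAlgEquiv b (Algebra.lsmul F F T r) = X
    rw [h1]
    exact (LinearMap.toMatrixAlgEquiv b).apply_symm_apply X
  have hspan : Submodule.span F (Set.range κ) = ⊤ := by
    rw [eq_top_iff]
    rintro X -
    obtain ⟨r, rfl⟩ := hΨ X
    induction r using MonoidAlgebra.induction_on with
    | of g => exact Submodule.subset_span ⟨g, rfl⟩
    | add f g hf hg => rw [map_add]; exact Submodule.add_mem _ hf hg
    | smul c f hf => rw [map_smul]; exact Submodule.smul_mem _ _ hf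
  let ι : (Fin (Module.finrank F T) → F) →ₗ[F] U :=
    e.toLinearMap ∘ₗ (T.subtype.restrictScalars F) ∘ₗ b.equivFun.symm.toLinearMap
  refine ⟨Module.finrank F T, κ, ι, ⟨Module.finrank_pos, hspan⟩, ?_, ?_⟩
  · intro q w
    set t : T := b.equivFun.symm w with ht
    have h1 : (κ q).mulVec w = b.equivFun ((MonoidAlgebra.of F Q q : R) • t) := by
      change (LinearMap.toMatrixAlgEquiv b (Algebra.lsmul F F T (MonoidAlgebra.of F Q q))).mulVec w
        = _
      have h2 : w = b.equivFun t := by rw [ht, LinearEquiv.apply_symm_apply]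
      rw [h2]
      exact LinearMap.toMatrix_mulVec_repr b b _ t
    have h3 : ι ((κ q).mulVec w) = e (((MonoidAlgebra.of F Q q : R) • t : T) : M) := by
      rw [h1]
      change e ((b.equivFun.symm (b.equivFun _) : T) : M) = _
      rw [LinearEquiv.symm_apply_apply]
    rw [h3]
    change e ((MonoidAlgebra.of F Q q : R) • (t : M)) = τ q (e (t : M))
    change τ.asModuleEquiv ((MonoidAlgebra.of F Q q : R) • (t : M)) = _
    rw [Representation.asModuleEquiv_map_smul, Representation.asAlgebraHom_of]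
  · obtain ⟨t, ht⟩ := exists_ne (0 : T)
    refine ⟨b.equivFun t, fun hmem => ht ?_⟩
    have h1 : ι (b.equivFun t) = e (t : M) := by
      change e ((b.equivFun.symm (b.equivFun t) : T) : M) = _
      rw [LinearEquiv.symm_apply_apply]
    rw [h1] at hmem
    have h2 : (t : M) ∈ W' := (hW' _).2 hmem
    have h3 : (t : M) ∈ W' ⊓ q := ⟨h2, hTq t.2⟩
    rw [hq.inf_eq_bot] at h3
    exact Subtype.ext ((Submodule.mem_bot R).1 h3)

end abs

theorem exk : ExkStmt := by
  intro ℓ _ F _ hF G _ _ P N hP hPN hNP hidx V _ _ _ ρ hnot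
  classical
  have : IsAlgClosed F := hF.closed
  have : CharP F ℓ := hF.char
  -- the action of `N` on the fixed points
  have hstab : ∀ n ∈ N, ∀ v ∈ fixV ρ P, ρ n v ∈ fixV ρ P := by
    intro n hn v hv p hp
    have h1 : n⁻¹ * p * n ∈ P := by
      have h2 := (Subgroup.mem_normalizer_iff'' (H := P)).1 (hNP hn) p
      exact h2.1 hp
    have h3 : ρ p (ρ n v) = ρ n (ρ (n⁻¹ * p * n) v) := by
      rw [← Module.End.mul_apply, ← Module.End.mul_apply, ← map_mul, ← map_mul]
      congr 2
      group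
    rw [h3, hv _ h1]
  let τ₀ : Representation F N (fixV ρ P) :=
    { toFun := fun n => (ρ n).restrict (hstab n n.2)
      map_one' := by
        apply LinearMap.ext
        intro v
        apply Subtype.ext
        change ρ ((1 : N) : G) v = v
        simp
      map_mul' := by
        intro a b
        apply LinearMap.ext
        intro v
        apply Subtype.ext
        change ρ ((a * b : N) : G) v = ρ a (ρ b v)
        rw [Subgroup.coe_mul, map_mul]
        rfl }
  let P' : Subgroup N := P.subgroupOf N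
  have hnorm : P'.Normal := (Subgroup.normal_subgroupOf_iff_le_normalizer hPN).2 hNP
  have hker : ∀ p ∈ P', τ₀ p = 1 := by
    intro p hp
    apply LinearMap.ext
    intro v
    apply Subtype.ext
    exact v.2 _ (Subgroup.mem_subgroupOf.1 hp)
  let τ : Representation F (N ⧸ P') (fixV ρ P) := QuotientGroup.lift P' τ₀ hker
  have hτ : ∀ n : N, τ (QuotientGroup.mk n) = τ₀ n := fun n => rfl
  have hcard : NeZero (Nat.card (N ⧸ P') : F) := by
    refine ⟨fun h => hidx ?_⟩
    rw [CharP.cast_eq_zero_iff F ℓ] at h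
    exact h
  let W : Submodule F (fixV ρ P) := (nrmV ρ P).comap (fixV ρ P).subtype
  have hfin := Fintype.ofFinite P
  have hWst : ∀ q, ∀ v ∈ W, τ q v ∈ W := by
    intro q
    refine QuotientGroup.induction_on q fun n v hv => ?_
    rw [hτ]
    change ρ n (v : V) ∈ nrmV ρ P
    have hv' : (v : V) ∈ nrmV ρ P := hv
    obtain ⟨u, hu⟩ := hv'
    refine ⟨ρ n u, ?_⟩
    rw [← hu, finsum_eq_sum_of_fintype, LinearMap.sum_apply, LinearMap.sum_apply, map_sum]
    have hn : (n : G) ∈ Subgroup.normalizer (P : Set G) := hNP n.2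
    let c : P ≃ P :=
      { toFun := fun p => ⟨(n : G) * p * (n : G)⁻¹, (Subgroup.mem_normalizer_iff.1 hn _).1 p.2⟩
        invFun := fun p => ⟨(n : G)⁻¹ * p * (n : G), (Subgroup.mem_normalizer_iff''.1 hn _).1 p.2⟩
        left_inv := fun p => by apply Subtype.ext; simp [mul_assoc]
        right_inv := fun p => by apply Subtype.ext; simp [mul_assoc] }
    symm
    refine Fintype.sum_equiv c _ _ fun p => ?_
    change ρ n (ρ p u) = ρ ((n : G) * p * (n : G)⁻¹) (ρ n u)
    rw [← Module.End.mul_apply, ← Module.End.mul_apply, ← map_mul, ← map_mul]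
    congr 2
    group
  have hWne : W ≠ ⊤ := by
    intro h
    apply hnot
    intro v hv
    have : (⟨v, hv⟩ : fixV ρ P) ∈ W := by rw [h]; trivial
    exact this
  obtain ⟨m, κ, ι, hκ, hint, w, hw⟩ := exk_abs τ W hWst hWne
  refine ⟨m, κ.comp (QuotientGroup.mk' P'), (fixV ρ P).subtype ∘ₗ ι, ⟨hκ.1, ?_⟩, ⟨?_, w, hw⟩⟩
  · rw [← hκ.2]
    congr 1
    ext X
    constructor
    · rintro ⟨n, rfl⟩
      exact ⟨_, rfl⟩
    · rintro ⟨q, rfl⟩
      obtain ⟨n, rfl⟩ := QuotientGroup.mk'_surjective P' q
      exact ⟨n, rfl⟩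
  · intro n w
    change ((ι ((κ (QuotientGroup.mk' P' n)).mulVec w) : fixV ρ P) : V) = ρ n (ι w : fixV ρ P)
    rw [hint]
    rfl

end Pool.Agent.PP.H63
end
end -- Pool.Agent.Helper63_PP.Exk

section -- Pool.Agent.Helper96_BN.Npr

/-!
# Squad PP, part CY, module NPR: irreducible representations in a positive idempotent are not
projective
-/

open scoped BigOperators

set_option linter.unusedSectionVars false

noncomputable section

namespace Pool.Agent.PP.CY.H96

open Pool.Agent.PP

variable {ℓ : ℕ} {F : Type} [Field F] {G : Type} [Group G] [Finite G] {n : ℕ}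
  {σ : G →* Matrix (Fin n) (Fin n) F}

theorem ev_iter (a b : G → F) (k : ℕ) :
    ev σ ((mulF a)^[k] b) = ev σ a ^ k * ev σ b := by
  induction k with
  | zero => rw [Function.iterate_zero, id_eq, pow_zero, one_mul]
  | succ k ih =>
    rw [Function.iterate_succ_apply', Helper58_CL.ev_mulF, ih, pow_succ', mul_assoc]

/-- a class sum of defect zero acts as zero -/
theorem ev_clsum (hσ : IsIrr σ) {e : G → F} (he : ev σ e = 1) (hp : Pos ℓ e ⊤) {x : G}
    (hx : ¬ ℓ ∣ Nat.card (Subgroup.centralizer ({x} : Set G))) : ev σ (clsum F ⊤ x) = 0 := by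
  obtain ⟨k, hk⟩ := hp x (Subgroup.mem_top x) (by rwa [inf_top_eq])
  obtain ⟨w, hw, -⟩ := H20.eig F G n σ hσ (clsum F ⊤ x) (Pool.Agent.AWR.H39.clsum_cl x)
  have h1 := ev_iter (σ := σ) (clsum F ⊤ x) e k
  have h0 : ev σ (0 : G → F) = 0 := by
    unfold ev
    simp
  rw [hk, h0, he, mul_one, hw] at h1
  have hne : Nonempty (Fin n) := ⟨⟨0, hσ.1⟩⟩
  have h2 : Matrix.scalar (Fin n) (w ^ k) = 0 := by rw [map_pow]; exact h1.symm
  have h3 : w ^ k = 0 := by
    have h4 := congrFun (congrFun h2 ⟨0, hσ.1⟩) ⟨0, hσ.1⟩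
    simpa using h4
  have h5 : w = 0 := by
    by_contra hw0
    exact pow_ne_zero k hw0 h3
  rw [hw, h5, map_zero]

/-- a class function supported on elements of defect zero acts as zero -/
theorem ev_pc (hσ : IsIrr σ) {e : G → F} (he : ev σ e = 1) (hp : Pos ℓ e ⊤) {z : G → F}
    (hz : IsCl z) (hz' : ∀ x, ℓ ∣ Nat.card (Subgroup.centralizer ({x} : Set G)) → z x = 0) :
    ev σ z = 0 := by
  classical
  have hfC : Fintype (ConjClasses G) := Fintype.ofFinite _
  rw [H66.cl_eq_sum hz, Helper58_CL.ev_sum]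
  refine Finset.sum_eq_zero fun c _ => ?_
  rw [Helper58_CL.ev_smul]
  by_cases h : ℓ ∣ Nat.card (Subgroup.centralizer ({(c.out : G)} : Set G))
  · rw [hz' _ h, zero_smul]
  · rw [ev_clsum hσ he hp h, smul_zero]

/-- the sum of the conjugates vanishes at elements whose centraliser has order divisible by `ℓ` -/
theorem sum_conj_zero (hF : GoodF ℓ F) (a : G → F) {x : G}
    (hx : ℓ ∣ Nat.card (Subgroup.centralizer ({x} : Set G))) :
    ∑ᶠ g : G, a (g⁻¹ * x * g) = 0 := by
  have : Fact ℓ.Prime := ⟨hF.prime⟩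
  obtain ⟨c, hc⟩ := exists_prime_orderOf_dvd_card' ℓ hx
  set R : Subgroup G := Subgroup.zpowers (c : G) with hR
  have hRo : Nat.card R = ℓ := by
    rw [hR, Nat.card_zpowers, Subgroup.orderOf_coe, hc]
  have hRp : IsPGroup ℓ R := IsPGroup.of_card (n := 1) (by rw [hRo, pow_one])
  have hRc : ∀ r ∈ R, r * x = x * r := by
    intro r hr
    have h1 : R ≤ Subgroup.centralizer ({x} : Set G) := by
      rw [hR, Subgroup.zpowers_le]
      exact c.2
    have h2 := Subgroup.mem_centralizer_singleton_iff.1 (h1 hr)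
    exact h2.symm ▸ rfl
  have h1 := H74.orb ℓ F F R G hF.prime hF.char hRp (fun g : G => a (g⁻¹ * x * g)) (by
    intro r t
    have h2 := hRc r r.2
    have h3 : (r • t : G) = (r : G) * t := rfl
    rw [h3]
    congr 1
    have h4 : (r : G)⁻¹ * x * r = x := by rw [mul_assoc, ← h2, inv_mul_cancel_left]
    calc ((r : G) * t)⁻¹ * x * (r * t) = t⁻¹ * ((r : G)⁻¹ * x * r) * t := by group
      _ = _ := by rw [h4])
  rw [h1]
  refine finsum_mem_eq_zero_of_forall_eq_zero fun t ht => ?_
  exfalso
  have h5 : (⟨(c : G), Subgroup.mem_zpowers _⟩ : R) • t = t := ht _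
  have h6 : (c : G) * t = t := h5
  have h7 : (c : G) = 1 := by rwa [mul_eq_right] at h6
  have h8 : orderOf c = 1 := by
    rw [orderOf_eq_one_iff]
    exact Subtype.ext h7
  rw [hc] at h8
  exact hF.prime.one_lt.ne' h8

/-- the value of a sum of conjugates -/
theorem ev_conj (a : G → F) :
    ev σ (fun x => ∑ᶠ g : G, a (g⁻¹ * x * g)) = ∑ᶠ g : G, σ g * ev σ a * σ g⁻¹ := by
  classical
  have hfG := Fintype.ofFinite G
  simp only [ev, finsum_eq_sum_of_fintype, Finset.sum_smul]
  rw [Finset.sum_comm]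
  refine Finset.sum_congr rfl fun g _ => ?_
  rw [Finset.mul_sum, Finset.sum_mul, ← Equiv.sum_comp (MulAut.conj g).toEquiv]
  refine Finset.sum_congr rfl fun y _ => ?_
  have h1 : (MulAut.conj g).toEquiv y = g * y * g⁻¹ := rfl
  have h2 : g⁻¹ * (g * y * g⁻¹) * g = y := by group
  rw [h1, h2, map_mul, map_mul, Matrix.mul_smul, Matrix.smul_mul]

/-- the cosets of `P` -/
def cosetEquiv (P : Subgroup G) : (G ⧸ P) × P ≃ G where
  toFun x := x.1.out * x.2
  invFun g := ((g : G ⧸ P), ⟨((g : G ⧸ P)).out⁻¹ * g, by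
    rw [← QuotientGroup.eq]
    exact Quotient.out_eq' _⟩)
  left_inv := by
    rintro ⟨q, p⟩
    have h1 : ((q.out * p : G) : G ⧸ P) = q := by
      rw [QuotientGroup.mk_mul_of_mem _ p.2]
      exact Quotient.out_eq' q
    ext
    · exact h1
    · show (((q.out * p : G) : G ⧸ P)).out⁻¹ * (q.out * p) = p
      rw [h1, inv_mul_cancel_left]
  right_inv := by
    intro g
    show ((g : G ⧸ P)).out * (((g : G ⧸ P)).out⁻¹ * g) = g
    rw [mul_inv_cancel_left]

/-- the trace from `1` to `G` of a matrix whose trace from `1` to `P` is the identity -/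
theorem tr_index (P : Subgroup G) {B : Matrix (Fin n) (Fin n) F}
    (hB : ∑ᶠ p : P, σ p * B * σ (p : G)⁻¹ = 1) :
    ∑ᶠ g : G, σ g * B * σ g⁻¹ = (P.index : F) • (1 : Matrix (Fin n) (Fin n) F) := by
  classical
  have hfG := Fintype.ofFinite G
  have hfP := Fintype.ofFinite P
  have hfQ := Fintype.ofFinite (G ⧸ P)
  rw [finsum_eq_sum_of_fintype] at hB ⊢
  rw [← Equiv.sum_comp (cosetEquiv P), Fintype.sum_prod_type]
  have h1 : ∀ q : G ⧸ P, ∑ p : P, σ (cosetEquiv P (q, p)) * B * σ (cosetEquiv P (q, p))⁻¹ = 1 := by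
    intro q
    have h2 : ∀ p : P, cosetEquiv P (q, p) = q.out * p := fun p => rfl
    calc ∑ p : P, σ (cosetEquiv P (q, p)) * B * σ (cosetEquiv P (q, p))⁻¹
        = ∑ p : P, σ q.out * (σ p * B * σ (p : G)⁻¹) * σ (q.out : G)⁻¹ := by
          refine Finset.sum_congr rfl fun p _ => ?_
          rw [h2 p, mul_inv_rev, map_mul, map_mul]
          simp only [mul_assoc]
      _ = σ q.out * 1 * σ (q.out : G)⁻¹ := by
          rw [← Finset.sum_mul, ← Finset.mul_sum, hB]
      _ = 1 := by rw [mul_one, ← map_mul, mul_inv_cancel, map_one]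
  rw [Finset.sum_congr rfl fun q _ => h1 q, Finset.sum_const, Finset.card_univ,
    ← Nat.card_eq_fintype_card, ← Subgroup.index, Nat.cast_smul_eq_nsmul]

/-- NPR. -/
theorem npr : NprStmt := by
  intro ℓ _ F _ hF G _ _ P hP hi e he hpos n σ hσ hse φ hφ
  have hch := hF.char
  -- the matrix of `φ`
  set B : Matrix (Fin n) (Fin n) F := LinearMap.toMatrix' φ with hBdef
  have hB : ∑ᶠ p : P, σ p * B * σ (p : G)⁻¹ = 1 := by
    have hfP := Fintype.ofFinite P
    rw [finsum_eq_sum_of_fintype]
    have h1 : ∑ p : P, mrep σ p ∘ₗ φ ∘ₗ mrep σ (p : G)⁻¹ = LinearMap.id := by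
      rw [← finsum_eq_sum_of_fintype]
      exact hφ
    have h2 := congrArg LinearMap.toMatrix' h1
    rw [map_sum, LinearMap.toMatrix'_id] at h2
    rw [← h2]
    refine Finset.sum_congr rfl fun p _ => ?_
    rw [LinearMap.toMatrix'_comp, LinearMap.toMatrix'_comp]
    have h3 : ∀ g : G, LinearMap.toMatrix' (mrep σ g) = σ g := by
      intro g
      show LinearMap.toMatrix' (Matrix.toLin' (σ g)) = σ g
      rw [LinearMap.toMatrix'_toLin']
    rw [h3, h3, mul_assoc]
  obtain ⟨a, ha⟩ := H20.ibj ℓ F hF G Unit (fun _ => n) (fun _ => σ) (fun _ => hσ)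
    (fun _ _ _ => rfl) (fun _ => B)
  have ha' : ev σ a = B := ha ()
  have h1 := ev_conj (σ := σ) a
  rw [ha', tr_index P hB] at h1
  have h2 := ev_pc (z := fun x => ∑ᶠ g : G, a (g⁻¹ * x * g)) hσ hse hpos (by
    intro x y
    have hfG := Fintype.ofFinite G
    simp only [finsum_eq_sum_of_fintype]
    rw [← Equiv.sum_comp (Equiv.mulLeft y)]
    refine Finset.sum_congr rfl fun g _ => ?_
    congr 1
    rw [Equiv.coe_mulLeft]
    group) (fun x hx => sum_conj_zero hF a hx)
  rw [h2] at h1
  have h3 := congrFun (congrFun h1 ⟨0, hσ.1⟩) ⟨0, hσ.1⟩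
  rw [Matrix.smul_apply, Matrix.one_apply_eq, smul_eq_mul, mul_one, Matrix.zero_apply] at h3
  exact hi ((CharP.cast_eq_zero_iff F ℓ _).1 h3.symm)

end Pool.Agent.PP.CY.H96
end
end -- Pool.Agent.Helper96_BN.Npr

section -- Pool.Agent.Helper55_PP.Sur

/-!
# Squad PP, part CY, module SUR: every irreducible representation of `N_G(P)` occurs

The induced module contains `κ` outside the norm; a representation of `G` of least dimension with
this property is simple, by Maschke's theorem for `N / P`.
-/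

open scoped BigOperators

noncomputable section

namespace Pool.Agent.PP.H55

open Pool.Agent.PP Pool.Agent.Helper51_AWC Pool.Agent.Helper79_WRA

section simple

variable {F : Type} [Field F] [IsAlgClosed F]

/-- a simple representation is given by an irreducible matrix representation -/
theorem irr_of_simple {G V : Type} [Group G] [AddCommGroup V] [Module F V]
    [FiniteDimensional F V] [Nontrivial V] (ρ : Representation F G V)
    (h : ∀ W : Submodule F V, (∀ g, ∀ v ∈ W, ρ g v ∈ W) → W = ⊥ ∨ W = ⊤) :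
    ∃ (n : ℕ) (σ : G →* Matrix (Fin n) (Fin n) F) (e : V ≃ₗ[F] (Fin n → F)), IsIrr σ ∧
      ∀ g v, e (ρ g v) = (σ g).mulVec (e v) := by
  classical
  let R := MonoidAlgebra F G
  let M := ρ.asModule
  let e : M ≃ₗ[F] V := ρ.asModuleEquiv
  have hMn : Nontrivial M := inferInstanceAs (Nontrivial V)
  have hsm : IsSimpleModule R M := by
    refine (isSimpleModule_iff R M).2 { exists_pair_ne := ⟨⊥, ⊤, bot_ne_top⟩, eq_bot_or_eq_top := ?_ }
    intro W'
    let S : Subrepresentation ρ := Subrepresentation.subrepresentationSubmoduleOrderIso.symm W'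
    have hS : ∀ x : M, x ∈ W' ↔ e x ∈ S.toSubmodule := fun x => Iff.rfl
    rcases h S.toSubmodule (fun g v hv => S.apply_mem_toSubmodule g hv) with h1 | h1
    · left
      rw [eq_bot_iff]
      intro x hx
      rw [hS, h1, Submodule.mem_bot] at hx
      rw [Submodule.mem_bot]
      exact e.map_eq_zero_iff.1 hx
    · right
      rw [eq_top_iff]
      intro x _
      rw [hS, h1]
      trivial
  have : FiniteDimensional F M := inferInstanceAs (FiniteDimensional F V)
  let b := Module.finBasis F M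
  let Ψ : R →ₐ[F] Matrix (Fin (Module.finrank F M)) (Fin (Module.finrank F M)) F :=
    (LinearMap.toMatrixAlgEquiv b).toAlgHom.comp (Algebra.lsmul F F M)
  let κ : G →* Matrix (Fin (Module.finrank F M)) (Fin (Module.finrank F M)) F :=
    (Ψ : R →* _).comp (MonoidAlgebra.of F G)
  have hΨ : Function.Surjective Ψ := by
    intro X
    obtain ⟨r, hr⟩ := H63.burnside (R := R) ((LinearMap.toMatrixAlgEquiv b).symm X)
    refine ⟨r, ?_⟩
    have h1 : Algebra.lsmul F F M r = (LinearMap.toMatrixAlgEquiv b).symm X := by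
      apply LinearMap.ext
      intro t
      exact (hr t).symm
    change LinearMap.toMatrixAlgEquiv b (Algebra.lsmul F F M r) = X
    rw [h1]
    exact (LinearMap.toMatrixAlgEquiv b).apply_symm_apply X
  have hspan : Submodule.span F (Set.range κ) = ⊤ := by
    rw [eq_top_iff]
    rintro X -
    obtain ⟨r, rfl⟩ := hΨ X
    induction r using MonoidAlgebra.induction_on with
    | of g => exact Submodule.subset_span ⟨g, rfl⟩
    | add f g hf hg => rw [map_add]; exact Submodule.add_mem _ hf hg
    | smul c f hf => rw [map_smul]; exact Submodule.smul_mem _ _ hf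
  refine ⟨Module.finrank F M, κ, e.symm.trans b.equivFun, ⟨Module.finrank_pos, hspan⟩, ?_⟩
  intro g v
  set t : M := e.symm v with ht
  have h1 : (κ g).mulVec (b.equivFun t) = b.equivFun ((MonoidAlgebra.of F G g : R) • t) := by
    change (LinearMap.toMatrixAlgEquiv b (Algebra.lsmul F F M (MonoidAlgebra.of F G g))).mulVec
      (b.equivFun t) = _
    exact LinearMap.toMatrix_mulVec_repr b b _ t
  change b.equivFun (e.symm (ρ g v)) = (κ g).mulVec (b.equivFun t)
  rw [h1]
  congr 1
  rw [LinearEquiv.symm_apply_eq]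
  change _ = ρ.asModuleEquiv ((MonoidAlgebra.of F G g : R) • t)
  rw [Representation.asModuleEquiv_map_smul, Representation.asAlgebraHom_of]
  rfl

end simple

section emb

variable {F : Type} [Field F] {G : Type} [Group G] [Finite G] {P N : Subgroup G} {m : ℕ}
  {κ : N →* Matrix (Fin m) (Fin m) F}

/-- the averaged lift of an embedding whose image modulo `W` is contained in the norm -/
theorem lift_nrm (hPN : P ≤ N) (hNP : N ≤ Subgroup.normalizer (P : Set G))
    (hκP : ∀ n : N, (n : G) ∈ P → κ n = 1) (hidx : (P.relIndex N : F) ≠ 0) {V : Type}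
    [AddCommGroup V] [Module F V] (ρ : Representation F G V) (ι : (Fin m → F) →ₗ[F] V)
    (hint : ∀ (n : N) (w : Fin m → F), ι ((κ n).mulVec w) = ρ n (ι w))
    (W : Submodule F V) (hW : ∀ g, ∀ v ∈ W, ρ g v ∈ W)
    (hι : ∀ w, ι w ∈ nrmV ρ P ⊔ W) :
    ∃ s : (Fin m → F) →ₗ[F] V, (∀ (n : N) (w : Fin m → F), s ((κ n).mulVec w) = ρ n (s w)) ∧
      (∀ w, s w ∈ nrmV ρ P) ∧ ∀ w, ι w - s w ∈ W := by
  classical
  have hfP := Fintype.ofFinite P
  have hfN := Fintype.ofFinite N
  -- a linear lift
  have h0 : ∀ i : Fin m, ∃ u : V, ι (Pi.single i 1) - (∑ p : P, ρ p u) ∈ W := by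
    intro i
    obtain ⟨a, ⟨u, hu⟩, c, hc, hac⟩ := Submodule.mem_sup.1 (hι (Pi.single i 1))
    refine ⟨u, ?_⟩
    rw [finsum_eq_sum_of_fintype, LinearMap.sum_apply] at hu
    rw [hu, ← hac, add_sub_cancel_left]
    exact hc
  choose u hu using h0
  let s0 : (Fin m → F) →ₗ[F] V := (Pi.basisFun F (Fin m)).constr F u
  have hs0 : ∀ w, ι w - (∑ p : P, ρ p (s0 w)) ∈ W := by
    intro w
    have h1 : (W.mkQ ∘ₗ (ι - (∑ p : P, ρ p) ∘ₗ s0)) = 0 := by
      apply (Pi.basisFun F (Fin m)).ext
      intro i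
      rw [LinearMap.zero_apply, LinearMap.comp_apply, Submodule.mkQ_apply,
        Submodule.Quotient.mk_eq_zero, LinearMap.sub_apply, LinearMap.comp_apply,
        Module.Basis.constr_basis, LinearMap.sum_apply, Pi.basisFun_apply]
      exact hu i
    have h2 := LinearMap.congr_fun h1 w
    rw [LinearMap.zero_apply, LinearMap.comp_apply, Submodule.mkQ_apply,
      Submodule.Quotient.mk_eq_zero, LinearMap.sub_apply, LinearMap.comp_apply,
      LinearMap.sum_apply] at h2
    exact h2
  -- the sum of the conjugates over `N`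
  let P' : Subgroup N := P.subgroupOf N
  have hfQ := Fintype.ofFinite (N ⧸ P')
  have hfP' := Fintype.ofFinite P'
  let S : (Fin m → F) →ₗ[F] V := ∑ n : N, ρ n ∘ₗ s0 ∘ₗ Matrix.toLin' (κ n⁻¹)
  have hS : ∀ w, S w = ∑ n : N, ρ n (s0 ((κ n⁻¹).mulVec w)) := by
    intro w
    change (∑ n : N, ρ n ∘ₗ s0 ∘ₗ Matrix.toLin' (κ n⁻¹)) w = _
    rw [LinearMap.sum_apply]
    rfl
  have hSeq : ∀ (n : N) (w : Fin m → F), S ((κ n).mulVec w) = ρ n (S w) := by
    intro n w
    rw [hS, hS, map_sum, ← Equiv.sum_comp (Equiv.mulLeft n)]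
    refine Finset.sum_congr rfl fun k _ => ?_
    rw [Equiv.coe_mulLeft, Matrix.mulVec_mulVec, ← map_mul, mul_inv_rev, inv_mul_cancel_right,
      Subgroup.coe_mul, map_mul, Module.End.mul_apply]
  have hS2 : ∀ w, S w = ∑ q : N ⧸ P', ρ (q.out : N) (∑ p : P, ρ p (s0 ((κ (q.out)⁻¹).mulVec w))) := by
    intro w
    rw [hS, ← Equiv.sum_comp (CY.H96.cosetEquiv P'), Fintype.sum_prod_type]
    refine Finset.sum_congr rfl fun q _ => ?_
    rw [map_sum]
    let c : P' ≃ P := Subgroup.subgroupOfEquivOfLe hPN |>.toEquiv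
    refine Fintype.sum_equiv c _ _ fun p => ?_
    have h1 : CY.H96.cosetEquiv P' (q, p) = q.out * p := rfl
    rw [h1, mul_inv_rev, map_mul κ, hκP _ (by
      have := Subgroup.mem_subgroupOf.1 p.2
      rw [Subgroup.coe_inv]
      exact inv_mem this), one_mul, Subgroup.coe_mul, map_mul ρ, Module.End.mul_apply]
    rfl
  refine ⟨(P.relIndex N : F)⁻¹ • S, ?_, ?_, ?_⟩
  · intro n w
    rw [LinearMap.smul_apply, LinearMap.smul_apply, hSeq, map_smul]
  · intro w
    rw [LinearMap.smul_apply]
    apply Submodule.smul_mem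
    rw [hS2]
    refine Submodule.sum_mem _ fun q _ => ?_
    refine CY66.nrm_stable ρ (hNP (q.out : N).2) ⟨s0 ((κ (q.out)⁻¹).mulVec w), ?_⟩
    rw [finsum_eq_sum_of_fintype, LinearMap.sum_apply]
  · intro w
    have h1 : ∀ q : N ⧸ P', ι w - ρ (q.out : N) (∑ p : P, ρ p (s0 ((κ (q.out)⁻¹).mulVec w))) ∈ W := by
      intro q
      have h2 := hW (q.out : N) _ (hs0 ((κ (q.out)⁻¹).mulVec w))
      rw [map_sub, ← hint, Matrix.mulVec_mulVec, ← map_mul, mul_inv_cancel, map_one,
        Matrix.one_mulVec] at h2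
      exact h2
    have h3 : (P.relIndex N : F) • ι w - S w ∈ W := by
      have h4 : (P.relIndex N : F) • ι w - S w = ∑ q : N ⧸ P', (ι w -
          ρ (q.out : N) (∑ p : P, ρ p (s0 ((κ (q.out)⁻¹).mulVec w)))) := by
        rw [Finset.sum_sub_distrib, ← hS2, Finset.sum_const, Finset.card_univ,
          ← Nat.card_eq_fintype_card, Nat.cast_smul_eq_nsmul]
        rfl
      rw [h4]
      exact Submodule.sum_mem _ fun q _ => h1 q
    have h5 := W.smul_mem (P.relIndex N : F)⁻¹ h3
    rw [smul_sub, smul_smul, inv_mul_cancel₀ hidx, one_smul] at h5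
    exact h5

/-- a representation with `EmbN` has a simple constituent with `EmbN` -/
theorem exists_simple (hPN : P ≤ N) (hNP : N ≤ Subgroup.normalizer (P : Set G))
    (hκP : ∀ n : N, (n : G) ∈ P → κ n = 1) (hidx : (P.relIndex N : F) ≠ 0) [IsAlgClosed F] (d : ℕ) :
    ∀ (V : Type) [AddCommGroup V] [Module F V] [FiniteDimensional F V] (ρ : Representation F G V)
    (ι : (Fin m → F) →ₗ[F] V), EmbN P N κ ρ ι → Module.finrank F V = d →
    ∃ (n : ℕ) (σ : G →* Matrix (Fin n) (Fin n) F) (ι' : (Fin m → F) →ₗ[F] (Fin n → F)), IsIrr σ ∧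
      EmbN P N κ (mrep σ) ι' := by
  classical
  have hfP := Fintype.ofFinite P
  induction d using Nat.strong_induction_on with
  | _ d ih =>
  intro V _ _ _ ρ ι hι hd
  by_cases hs : ∀ W : Submodule F V, (∀ g, ∀ v ∈ W, ρ g v ∈ W) → W = ⊥ ∨ W = ⊤
  · have hnt : Nontrivial V := by
      obtain ⟨w, hw⟩ := hι.nt
      refine ⟨ι w, 0, fun h => hw ?_⟩
      rw [h]
      exact zero_mem _
    obtain ⟨n, σ, e, hσ, he⟩ := irr_of_simple ρ hs
    refine ⟨n, σ, e.toLinearMap ∘ₗ ι, hσ, ?_, ?_⟩
    · intro k w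
      rw [LinearMap.comp_apply, LinearMap.comp_apply, hι.int]
      exact he k (ι w)
    · obtain ⟨w, hw⟩ := hι.nt
      refine ⟨w, fun hmem => hw ?_⟩
      obtain ⟨y, hy⟩ := hmem
      refine ⟨e.symm y, ?_⟩
      apply e.injective
      rw [finsum_eq_sum_of_fintype, LinearMap.sum_apply] at hy ⊢
      rw [map_sum]
      rw [LinearMap.comp_apply] at hy
      change _ = e.toLinearMap (ι w)
      rw [← hy]
      refine Finset.sum_congr rfl fun p _ => ?_
      rw [he, LinearEquiv.apply_symm_apply]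
      rfl
  · push Not at hs
    obtain ⟨W, hW, hW0, hW1⟩ := hs
    by_cases hq : ∀ w, ι w ∈ nrmV ρ P ⊔ W
    · -- the embedding into `W`
      obtain ⟨s, hs1, hs2, hs3⟩ := lift_nrm hPN hNP hκP hidx ρ ι hι.int W hW hq
      let τ : Representation F G W := ρ.subrepresentation W (fun g v hv => hW g v hv)
      let ι' : (Fin m → F) →ₗ[F] W := (ι - s).codRestrict W hs3
      refine ih (Module.finrank F W) ?_ W τ ι' ⟨?_, ?_⟩ rfl
      · rw [← hd]
        exact Submodule.finrank_lt hW1
      · intro n w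
        apply Subtype.ext
        change ι ((κ n).mulVec w) - s ((κ n).mulVec w) = ρ n (ι w - s w)
        rw [hι.int, hs1, map_sub]
      · obtain ⟨w, hw⟩ := hι.nt
        refine ⟨w, fun hmem => hw ?_⟩
        obtain ⟨y, hy⟩ := hmem
        rw [finsum_eq_sum_of_fintype, LinearMap.sum_apply] at hy
        have h1 : (∑ p : P, ρ p (y : V)) = ι w - s w := by
          have h2 := congrArg Subtype.val hy
          rw [AddSubmonoidClass.coe_finsetSum] at h2
          exact h2
        have h3 : ι w - s w ∈ nrmV ρ P := by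
          refine ⟨(y : V), ?_⟩
          rw [finsum_eq_sum_of_fintype, LinearMap.sum_apply, h1]
        have h4 := Submodule.add_mem _ h3 (hs2 w)
        rwa [sub_add_cancel] at h4
    · -- the embedding into `V / W`
      push Not at hq
      obtain ⟨w, hw⟩ := hq
      let τ : Representation F G (V ⧸ W) := ρ.quotient W (fun g v hv => hW g v hv)
      refine ih (Module.finrank F (V ⧸ W)) ?_ (V ⧸ W) τ (W.mkQ ∘ₗ ι) ⟨?_, w, ?_⟩ rfl
      · have h1 := Submodule.finrank_quotient_add_finrank W
        have h2 : 0 < Module.finrank F W := by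
          rw [Nat.pos_iff_ne_zero, Ne, Submodule.finrank_eq_zero]
          exact hW0
        omega
      · intro n w
        rw [LinearMap.comp_apply, hι.int]
        rfl
      · intro hmem
        apply hw
        obtain ⟨y, hy⟩ := hmem
        obtain ⟨y, rfl⟩ := W.mkQ_surjective y
        rw [finsum_eq_sum_of_fintype, LinearMap.sum_apply] at hy
        have h1 : ∑ p : P, τ p (W.mkQ y) = W.mkQ (∑ p : P, ρ p y) := by
          rw [map_sum]
          rfl
        rw [h1, LinearMap.comp_apply, Submodule.mkQ_apply, Submodule.mkQ_apply,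
          Submodule.Quotient.eq] at hy
        have h2 : ι w = (∑ p : P, ρ p y) + -((∑ p : P, ρ p y) - ι w) := by abel
        rw [h2]
        refine Submodule.add_mem_sup ⟨y, ?_⟩ (W.neg_mem hy)
        rw [finsum_eq_sum_of_fintype, LinearMap.sum_apply]

/-- the embedding into the induced module -/
theorem exists_ind (hκP : ∀ n : N, (n : G) ∈ P → κ n = 1) (hPN : P ≤ N)
    (hcard : (Nat.card P : F) = 0) (hm : 0 < m) :
    ∃ (V : Type) (_ : AddCommGroup V) (_ : Module F V) (_ : FiniteDimensional F V)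
      (ρ : Representation F G V) (ι : (Fin m → F) →ₗ[F] V), EmbN P N κ ρ ι := by
  classical
  have hfP := Fintype.ofFinite P
  let τ : Representation F N (Fin m → F) := mrep κ
  have hτ : ∀ n w, τ n w = (κ n).mulVec w := fun n w => rfl
  let Y : Submodule F (G → (Fin m → F)) := Representation.coindV N.subtype τ
  let ρ : Representation F G Y := Representation.coind N.subtype τ
  have hρ : ∀ (g : G) (y : Y) (x : G), (ρ g y : G → (Fin m → F)) x = (y : G → (Fin m → F)) (x * g) :=
    fun g y x => rfl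
  let ι₀ : (Fin m → F) →ₗ[F] (G → (Fin m → F)) :=
    { toFun := fun w x => if h : x ∈ N then (κ ⟨x, h⟩).mulVec w else 0
      map_add' := by
        intro a b
        funext x
        by_cases h : x ∈ N
        · simp only [h, dif_pos, Pi.add_apply, Matrix.mulVec_add]
        · simp only [h, dif_neg, not_false_eq_true, Pi.add_apply, add_zero]
      map_smul' := by
        intro c a
        funext x
        by_cases h : x ∈ N
        · simp only [h, dif_pos, Pi.smul_apply, Matrix.mulVec_smul, RingHom.id_apply]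
        · simp only [h, dif_neg, not_false_eq_true, Pi.smul_apply, smul_zero] }
  have hι1 : ∀ w (x : N), ι₀ w x = (κ x).mulVec w := by
    intro w x
    change (if h : (x : G) ∈ N then (κ ⟨x, h⟩).mulVec w else 0) = _
    rw [dif_pos x.2]
  have hι0 : ∀ w x, x ∉ N → ι₀ w x = 0 := by
    intro w x hx
    change (if h : x ∈ N then (κ ⟨x, h⟩).mulVec w else 0) = _
    rw [dif_neg hx]
  have hιY : ∀ w, ι₀ w ∈ Y := by
    intro w
    rw [Representation.mem_coindV]
    intro n x
    change ι₀ w ((n : G) * x) = (κ n).mulVec (ι₀ w x)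
    by_cases hx : x ∈ N
    · have h1 := hι1 w (n * ⟨x, hx⟩)
      have h2 := hι1 w ⟨x, hx⟩
      rw [Subgroup.coe_mul] at h1
      rw [h1, h2, Matrix.mulVec_mulVec, ← map_mul]
    · rw [hι0 w x hx, Matrix.mulVec_zero, hι0]
      intro h
      exact hx ((Subgroup.mul_mem_cancel_left N n.2).1 h)
  let ι : (Fin m → F) →ₗ[F] Y := ι₀.codRestrict Y hιY
  have hι : ∀ w x, (ι w : G → (Fin m → F)) x = ι₀ w x := fun w x => rfl
  refine ⟨Y, inferInstance, inferInstance, inferInstance, ρ, ι, ?_, fun _ => 1, ?_⟩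
  · intro n w
    apply Subtype.ext
    funext x
    rw [hι, hρ, hι]
    by_cases hx : x ∈ N
    · have h1 := hι1 w (⟨x, hx⟩ * n)
      have h2 := hι1 ((κ n).mulVec w) ⟨x, hx⟩
      rw [Subgroup.coe_mul] at h1
      rw [h1, h2, Matrix.mulVec_mulVec, ← map_mul]
    · rw [hι0 _ x hx, hι0]
      intro h
      exact hx ((Subgroup.mul_mem_cancel_right N n.2).1 h)
  · rintro ⟨y, hy⟩
    rw [finsum_eq_sum_of_fintype, LinearMap.sum_apply] at hy
    have h1 : ((∑ p : P, ρ p y : Y) : G → (Fin m → F)) 1 =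
        (ι (fun _ => 1) : G → (Fin m → F)) 1 := by rw [hy]
    have h2 : (ι (fun _ => 1) : G → (Fin m → F)) 1 = fun _ => 1 := by
      rw [hι]
      have h3 := hι1 (fun _ => 1) 1
      rw [map_one, Matrix.one_mulVec] at h3
      exact h3
    have h3 : ((∑ p : P, ρ p y : Y) : G → (Fin m → F)) 1 = 0 := by
      rw [AddSubmonoidClass.coe_finsetSum, Finset.sum_apply]
      have h4 : ∀ p : P, (ρ p y : G → (Fin m → F)) 1 = (y : G → (Fin m → F)) 1 := by
        intro p
        rw [hρ, one_mul]
        have h5 := (Representation.mem_coindV _ _ _).1 y.2 ⟨(p : G), hPN p.2⟩ 1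
        rw [mul_one, hτ, hκP _ p.2, Matrix.one_mulVec] at h5
        exact h5
      rw [Finset.sum_congr rfl fun p _ => h4 p, Finset.sum_const, Finset.card_univ,
        ← Nat.card_eq_fintype_card, ← Nat.cast_smul_eq_nsmul F, hcard, zero_smul]
    rw [h2, h3] at h1
    have h6 := congrFun h1 ⟨0, hm⟩
    exact one_ne_zero h6.symm

end emb

/-- every irreducible representation of `N` occurs outside the norm in an irreducible
representation of `G` -/
theorem sur_gen {ℓ : ℕ} {F : Type} [Field F] (hF : GoodF ℓ F) {G : Type} [Group G] [Finite G]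
    {P N : Subgroup G} (hP : IsPGroup ℓ P) (hne : P ≠ ⊥) (hi : ¬ ℓ ∣ P.relIndex N) (hPN : P ≤ N)
    (hNP : N ≤ Subgroup.normalizer (P : Set G)) {m : ℕ} (κ : N →* Matrix (Fin m) (Fin m) F)
    (hκ : IsIrr κ) :
    ∃ (n : ℕ) (σ : G →* Matrix (Fin n) (Fin n) F) (ι : (Fin m → F) →ₗ[F] (Fin n → F)),
      IsIrr σ ∧ EmbN P N κ (mrep σ) ι := by
  have : IsAlgClosed F := hF.closed
  have hch : CharP F ℓ := hF.char
  have hnorm : (P.subgroupOf N).Normal := (Subgroup.normal_subgroupOf_iff_le_normalizer hPN).2 hNP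
  have hp : IsPGroup ℓ (P.subgroupOf N) := hP.comap_of_injective N.subtype
    Subtype.val_injective
  have hκP : ∀ n : N, (n : G) ∈ P → κ n = 1 := fun n hn =>
    H20.nls_triv hF.prime hF.char (P.subgroupOf N) hnorm hp κ hκ n (Subgroup.mem_subgroupOf.2 hn)
  have hidx : (P.relIndex N : F) ≠ 0 := by
    intro h
    rw [CharP.cast_eq_zero_iff F ℓ] at h
    exact hi h
  have hcard : (Nat.card P : F) = 0 := by
    rw [CharP.cast_eq_zero_iff F ℓ]
    have : Fact ℓ.Prime := ⟨hF.prime⟩
    obtain ⟨k, hk⟩ := IsPGroup.iff_card.1 hP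
    rw [hk]
    refine dvd_pow_self ℓ ?_
    rintro rfl
    rw [pow_zero] at hk
    exact hne (Subgroup.card_eq_one.1 hk)
  obtain ⟨V, _, _, _, ρ, ι, hι⟩ := exists_ind (κ := κ) hκP hPN hcard hκ.1
  exact exists_simple hPN hNP hκP hidx _ V ρ ι hι rfl

/-- SUR. -/
theorem sur : SurStmt := by
  intro ℓ _ F _ hF G _ _ P hP m κ hκ
  exact sur_gen hF hP.pgrp hP.ne
    (fun h => hP.sylow (h.trans (Subgroup.relIndex_dvd_index_of_le Subgroup.le_normalizer)))
    Subgroup.le_normalizer le_rfl κ hκ

end Pool.Agent.PP.H55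
end
end -- Pool.Agent.Helper55_PP.Sur
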