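import Pool.Agent.Helper12_AWB.B053
import Pool.Agent.Helper12_AWB.B074
import Pool.Agent.Helper12_AWB.B095
import Pool.Agent.Helper12_AWB.B098
import Pool.Agent.Helper12_AWB.B099
import Pool.Agent.Helper12_AWB.B155
import Pool.Agent.Helper66_DF.StmtsE

/-!
# Merged copies (generated) of the modules

* `Pool.Agent.Helper17_PP.Lqn`
* `Pool.Agent.Helper96_PP.Lqv`
* `Pool.Agent.Helper63_PP.Lqu`
* `Pool.Agent.Helper96_PP.S1g`
* `Pool.Agent.Helper66_PP.Vst`
* `Pool.Agent.Helper75_PP.RelC`
* `Pool.Agent.Helper75_PP.Fin2`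
* `Pool.Agent.Helper66_DF.FnlE`
* `Pool.Agent.Helper66_DF.LqnE`
* `Pool.Agent.Helper66_DF.LquE`
* `Pool.Agent.Helper76_DF.VstE`
* `Pool.Agent.Helper86_DF.S1gE`
-/

set_option autoImplicit false

section -- Pool.Agent.Helper17_PP.Lqn

/-!
# Squad PP, module LQN: normal subgroups of index a power of `ℓ`
-/

open scoped BigOperators

noncomputable section

namespace Pool.Agent.PP.H17

open Pool.Agent.Helper51_AWC Pool.Agent.Helper79_WRA Pool.Agent.PP

section grp

variable {X : Type} [Group X] [Finite X]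

/-- A proper normal subgroup of index a power of `ℓ` is contained in a normal subgroup of
index `ℓ`. -/
theorem exists_index {ℓ : ℕ} [hl : Fact ℓ.Prime] (X₀ : Subgroup X) [X₀.Normal] {n : ℕ}
    (h : X₀.index = ℓ ^ (n + 1)) : ∃ X₁ : Subgroup X, X₁.Normal ∧ X₀ ≤ X₁ ∧ X₁.index = ℓ := by
  classical
  have hp : ℓ.Prime := hl.out
  have hcard : Nat.card (X ⧸ X₀) = ℓ ^ (n + 1) := h
  obtain ⟨K, hK⟩ := Sylow.exists_subgroup_card_pow_prime (G := X ⧸ X₀) ℓ (n := n) (by
    rw [hcard]
    exact pow_dvd_pow ℓ (Nat.le_succ n))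
  have hKi : K.index = ℓ := by
    have h1 := K.card_mul_index
    rw [hK, hcard, pow_succ] at h1
    exact Nat.eq_of_mul_eq_mul_left (pow_pos hp.pos n) h1
  have hKn : K.Normal := by
    apply Subgroup.normal_of_index_eq_minFac_card
    rw [hKi, hcard, Nat.Prime.pow_minFac hp (Nat.succ_ne_zero n)]
  refine ⟨K.comap (QuotientGroup.mk' X₀), hKn.comap _, ?_, ?_⟩
  · intro x hx
    rw [Subgroup.mem_comap]
    have : (QuotientGroup.mk' X₀) x = 1 := (QuotientGroup.eq_one_iff x).2 hx
    rw [this]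
    exact K.one_mem
  · rw [Subgroup.index_comap_of_surjective _ (QuotientGroup.mk'_surjective X₀), hKi]

/-- Elements of order prime to `ℓ` lie in every normal subgroup of index `ℓ`. -/
theorem reg_mem {ℓ : ℕ} [hl : Fact ℓ.Prime] {X₁ : Subgroup X} (hn : X₁.Normal)
    (h : X₁.index = ℓ) {x : X} (hx : Reg ℓ x) : x ∈ X₁ := by
  have hp : ℓ.Prime := hl.out
  rw [← QuotientGroup.eq_one_iff, ← orderOf_eq_one_iff]
  have h1 : orderOf (x : X ⧸ X₁) ∣ orderOf x :=
    orderOf_map_dvd (QuotientGroup.mk' X₁) x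
  have h2 : orderOf (x : X ⧸ X₁) ∣ ℓ := by
    rw [← h]
    exact orderOf_dvd_natCard _
  exact Nat.dvd_one.1 (hx ▸ Nat.dvd_gcd h1 h2)

theorem mu_subgroupOf (Y X₁ : Subgroup X) (hY : Y ≤ X₁) : mu (Y.subgroupOf X₁) ≤ mu Y := by
  have h1 : (Subgroup.center X).subgroupOf X₁ ≤ Subgroup.center X₁ := by
    intro z hz
    rw [Subgroup.mem_center_iff]
    intro g
    apply Subtype.ext
    exact (Subgroup.mem_center_iff.1 (Subgroup.mem_subgroupOf.1 hz)) g
  have h2 : ((Subgroup.center X).subgroupOf X₁).relIndex (Y.subgroupOf X₁) =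
      (Subgroup.center X).relIndex Y := by
    rw [Subgroup.relIndex_subgroupOf hY]
  unfold mu
  rw [← h2]
  exact Subgroup.relIndex_le_of_le_left h1 Subgroup.index_ne_zero_of_finite

end grp

section pos

variable {F X : Type} [Field F] [Group X] [Finite X]

theorem idem_sub {e : X → F} (he : IsIdem e) {X₁ : Subgroup X} (hs : ∀ t, t ∉ X₁ → e t = 0) :
    IsIdem (fun t : X₁ => e t) := by
  constructor
  · intro x y
    exact he.1 x y
  · rw [← H66.mulF_sub hs, he.2]

theorem pos_sub {ℓ : ℕ} {e : X → F} {Y X₁ : Subgroup X} (hY : Y ≤ X₁) (he : Pos ℓ e Y) :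
    Pos ℓ (fun t : X₁ => e t) (Y.subgroupOf X₁) := by
  classical
  intro x hx hd
  have hx' : (x : X) ∈ Y := hx
  have hcard : Nat.card (Subgroup.centralizer ({x} : Set X₁) ⊓ Y.subgroupOf X₁ : Subgroup X₁) =
      Nat.card (Subgroup.centralizer ({(x : X)} : Set X) ⊓ Y : Subgroup X) := by
    refine Nat.card_congr
      { toFun := fun y => ⟨y.1.1, ?_⟩
        invFun := fun y => ⟨⟨y.1, hY y.2.2⟩, ?_⟩
        left_inv := fun y => rfl
        right_inv := fun y => rfl }
    · have h := Subgroup.mem_inf.1 y.2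
      rw [Subgroup.mem_centralizer_singleton_iff] at h
      rw [Subgroup.mem_inf, Subgroup.mem_centralizer_singleton_iff]
      exact ⟨congrArg Subtype.val h.1, h.2⟩
    · have h := Subgroup.mem_inf.1 y.2
      rw [Subgroup.mem_centralizer_singleton_iff] at h
      rw [Subgroup.mem_inf, Subgroup.mem_centralizer_singleton_iff]
      exact ⟨Subtype.ext h.1, h.2⟩
  have hcl : clsum F (Y.subgroupOf X₁) x = fun t : X₁ => clsum F Y (x : X) t := by
    funext t
    unfold clsum
    have hiff : (∃ q ∈ Y.subgroupOf X₁, t = q * x * q⁻¹) ↔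
        ∃ q ∈ Y, (t : X) = q * x * q⁻¹ := by
      constructor
      · rintro ⟨q, hq, rfl⟩
        exact ⟨q, hq, rfl⟩
      · rintro ⟨q, hq, h⟩
        exact ⟨⟨q, hY hq⟩, hq, Subtype.ext h⟩
    by_cases h : ∃ q ∈ Y, (t : X) = q * x * q⁻¹
    · rw [if_pos h, if_pos (hiff.2 h)]
    · rw [if_neg h, if_neg (fun h' => h (hiff.1 h'))]
  have hsupp : ∀ t, t ∉ X₁ → clsum F Y (x : X) t = 0 := by
    intro t ht
    unfold clsum
    rw [if_neg]
    rintro ⟨q, hq, rfl⟩
    exact ht (mul_mem (mul_mem (hY hq) x.2) (inv_mem (hY hq)))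
  rw [hcard] at hd
  obtain ⟨n, hn⟩ := he (x : X) hx' hd
  refine ⟨n, ?_⟩
  rw [hcl, ← H66.iter_sub hsupp]
  funext t
  exact congrFun hn (t : X)

end pos

/-- LQN -/
theorem lqn (hOSI : OsiStmt) (hLQ : LqStmt) : LqnStmt := by
  classical
  intro ℓ hl F _ hF
  have key : ∀ (n : ℕ) (X : Type) [Group X] [Finite X] (Y X₀ : Subgroup X), Y.Normal → X₀.Normal →
      Y ≤ X₀ → X₀.index = ℓ ^ n → ¬ ℓ ∣ Nat.card (Subgroup.centralizer (Y : Set X)) →
      (∀ (H : Type) [Group H] [Finite H] (i : H →* X) (Y' : Subgroup H), Function.Injective i →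
        Y'.Normal → Y'.map i ≤ Y → mu Y' < mu Y → YH ℓ F Y') →
      ∀ e : X → F, IsIdem e → Pos ℓ e Y →
        YY ℓ (Y.subgroupOf X₀) (fun t : X₀ => e t) = 0 → YY ℓ Y e = 0 := by
    intro n
    induction n with
    | zero =>
      intro X _ _ Y X₀ _ _ hYX h0 _ _ e _ _ hYY
      rw [pow_zero, Subgroup.index_eq_one] at h0
      rw [H75.YY_subgroup ℓ X₀ Y hYX e, h0] at hYY
      simp only [inf_top_eq] at hYY
      exact hYY
    | succ n ih =>
      intro X _ _ Y X₀ hY hX₀ hYX h0 hC hIH e he hpos hYY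
      obtain ⟨X₁, hX₁, h01, h1⟩ := exists_index X₀ h0
      have hYX₁ : Y ≤ X₁ := hYX.trans h01
      have hs : ∀ t, t ∉ X₁ → e t = 0 := by
        intro t ht
        apply hOSI ℓ F hF X e he t
        intro hreg
        exact ht (reg_mem hX₁ h1 hreg)
      refine hLQ ℓ F hF X Y X₁ hY hX₁ hYX₁ h1 hC hIH e he hpos ?_
      refine ih X₁ (Y.subgroupOf X₁) (X₀.subgroupOf X₁) (hY.subgroupOf X₁) (hX₀.subgroupOf X₁)
        (Subgroup.comap_mono hYX) ?_ ?_ ?_ (fun t : X₁ => e t) (idem_sub he hs)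
        (pos_sub hYX₁ hpos) ?_
      · have h2 : (X₀.subgroupOf X₁).index * X₁.index = X₀.index :=
          Subgroup.relIndex_mul_index h01
        rw [h1, h0, pow_succ] at h2
        exact Nat.eq_of_mul_eq_mul_right hl.out.pos h2
      · intro hdiv
        apply hC
        refine hdiv.trans ?_
        let f : Subgroup.centralizer ((Y.subgroupOf X₁ : Subgroup X₁) : Set X₁) →*
            Subgroup.centralizer (Y : Set X) :=
          { toFun := fun z => ⟨z.1.1, by
              rw [Subgroup.mem_centralizer_iff]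
              intro y hy
              have := Subgroup.mem_centralizer_iff.1 z.2 ⟨y, hYX₁ hy⟩ hy
              exact congrArg Subtype.val this⟩
            map_one' := rfl
            map_mul' := fun _ _ => rfl }
        have hf : Function.Injective f := by
          intro a b hab
          have h3 : ((f a : Subgroup.centralizer (Y : Set X)) : X) = (f b : X) := by rw [hab]
          exact Subtype.ext (Subtype.ext h3)
        exact Subgroup.card_dvd_of_injective f hf
      · intro H _ _ i Y' hi hY' hle hmu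
        refine hIH H (X₁.subtype.comp i) Y' (X₁.subtype_injective.comp hi) hY' ?_
          (lt_of_lt_of_le hmu (mu_subgroupOf Y X₁ hYX₁))
        rw [← Subgroup.map_map]
        calc (Y'.map i).map X₁.subtype ≤ (Y.subgroupOf X₁).map X₁.subtype := Subgroup.map_mono hle
          _ ≤ Y := by
            rw [Subgroup.map_subgroupOf_eq_of_le hYX₁]
      · let φ : X₀.subgroupOf X₁ →* X := X₁.subtype.comp (X₀.subgroupOf X₁).subtype
        have hφ : Function.Injective φ :=
          X₁.subtype_injective.comp (X₀.subgroupOf X₁).subtype_injective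
        have h2 := H75.YY_transport ℓ φ hφ
          ((Y.subgroupOf X₁).subgroupOf (X₀.subgroupOf X₁)) e
        have h3 : ((Y.subgroupOf X₁).subgroupOf (X₀.subgroupOf X₁)).map φ = Y := by
          have h5 : Y.subgroupOf X₁ ≤ X₀.subgroupOf X₁ := Subgroup.comap_mono hYX
          rw [← Subgroup.map_map, Subgroup.map_subgroupOf_eq_of_le h5,
            Subgroup.map_subgroupOf_eq_of_le hYX₁]
        have h4 : φ.range = X₀ := by
          rw [MonoidHom.range_comp, Subgroup.range_subtype, Subgroup.map_subgroupOf_eq_of_le h01]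
        rw [h3, h4, ← H75.YY_subgroup ℓ X₀ Y hYX e, hYY] at h2
        exact h2
  intro X _ _ Y X₀ hY hX₀ hYX ⟨n, hn⟩ hC hIH e he hpos hYY
  exact key n X Y X₀ hY hX₀ hYX hn hC hIH e he hpos hYY

end Pool.Agent.PP.H17
end
end -- Pool.Agent.Helper17_PP.Lqn

section -- Pool.Agent.Helper96_PP.Lqv

/-!
# Squad PP, module LQV: normal subgroups of nearly simple groups

`D` nearly simple, `M` the preimage of the socle, `D₀` a normal subgroup over `M` such that
`D₀ / M` is an `ℓ'`-group: `D₀` is nearly simple with outer part an `ℓ'`-group.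
-/

open scoped BigOperators

noncomputable section

namespace Pool.Agent.PP.H96

open Pool.Agent.Helper51_AWC Pool.Agent.Helper79_WRA Pool.Agent.PP

section

variable {D S : Type} [Group D] [Finite D] [Group S] [Finite S]

theorem Involves.trans' {H A B : Type} [Group H] [Group A] [Group B] (h : Involves H A)
    (h' : Involves A B) : Involves H B := by
  obtain ⟨A₁, f, hf⟩ := h
  exact (h'.of_surjective f hf).of_subgroup

/-- the preimage of the socle -/
theorem map_eq_socle (hS : NonabSimple S) {T : Subgroup (D ⧸ Subgroup.center D)}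
    (hT : IsSocle T S) {M : Subgroup D} (hM : M.Normal) (hZM : Subgroup.center D ≤ M)
    (hmu : mu M = Nat.card S) : M.map (QuotientGroup.mk' (Subgroup.center D)) = T := by
  have hn : (M.map (QuotientGroup.mk' (Subgroup.center D))).Normal :=
    hM.map _ (QuotientGroup.mk'_surjective _)
  have hcard : Nat.card (M.map (QuotientGroup.mk' (Subgroup.center D))) = Nat.card S := by
    rw [← hmu]
    have h1 := Subgroup.relIndex_ker (K := M) (QuotientGroup.mk' (Subgroup.center D))
    rw [QuotientGroup.ker_mk'] at h1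
    exact h1.symm
  have hne : M.map (QuotientGroup.mk' (Subgroup.center D)) ≠ ⊥ := by
    intro h
    rw [h, Subgroup.card_bot] at hcard
    have h1 := hS.1.toNontrivial
    have h2 : 1 < Nat.card S := Finite.one_lt_card
    omega
  have hle := hT.le hn hne
  obtain ⟨e⟩ := hT.iso
  have hcT : Nat.card T = Nat.card S := Nat.card_congr e.toEquiv
  exact (Subgroup.eq_of_le_of_card_ge hle (by rw [hcard, hcT])).symm

theorem mem_of_mk {M : Subgroup D} (hZM : Subgroup.center D ≤ M) {x : D}
    (hx : QuotientGroup.mk' (Subgroup.center D) x ∈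
      M.map (QuotientGroup.mk' (Subgroup.center D))) : x ∈ M := by
  obtain ⟨m, hm, h⟩ := hx
  have h1 : m⁻¹ * x ∈ Subgroup.center D := by
    have := QuotientGroup.eq.1 h
    exact this
  have h2 := M.mul_mem hm (hZM h1)
  rwa [mul_inv_cancel_left] at h2

/-- the centre of a normal subgroup over `M` -/
theorem center_sub {M D₀ : Subgroup D}
    (hCM : Subgroup.centralizer (M : Set D) = Subgroup.center D) (hle : M ≤ D₀) :
    Subgroup.center D₀ = (Subgroup.center D).subgroupOf D₀ := by
  apply le_antisymm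
  · intro x hx
    rw [Subgroup.mem_subgroupOf, ← hCM, Subgroup.mem_centralizer_iff]
    intro m hm
    exact congrArg Subtype.val (Subgroup.mem_center_iff.1 hx ⟨m, hle hm⟩)
  · intro x hx
    rw [Subgroup.mem_center_iff]
    intro y
    exact Subtype.ext (Subgroup.mem_center_iff.1 (Subgroup.mem_subgroupOf.1 hx) y)

/-- conjugation on a normal subgroup -/
def conjN {D₀ : Subgroup D} (hn : D₀.Normal) (g : D) : D₀ ≃* D₀ where
  toFun x := ⟨g * x * g⁻¹, hn.conj_mem x x.2 g⟩
  invFun x := ⟨g⁻¹ * x * g, by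
    have := hn.conj_mem x x.2 g⁻¹
    rwa [inv_inv] at this⟩
  left_inv x := by apply Subtype.ext; simp [mul_assoc]
  right_inv x := by apply Subtype.ext; simp [mul_assoc]
  map_mul' x y := by apply Subtype.ext; simp [mul_assoc]

theorem opCore_normal {ℓ : ℕ} [Fact ℓ.Prime] (hO : opCore ℓ D = ⊥) {D₀ : Subgroup D}
    (hn : D₀.Normal) : opCore ℓ D₀ = ⊥ := by
  obtain ⟨o1, o2, -⟩ := opCore_spec ℓ D₀
  have hN : ((opCore ℓ D₀).map D₀.subtype).Normal := by
    constructor
    intro x hx g
    obtain ⟨y, hy, rfl⟩ := hx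
    have h1 := opCore_equiv ℓ (conjN hn g)
    rw [mapE_apply] at h1
    have h2 : conjN hn g y ∈ opCore ℓ D₀ := by
      rw [← h1]
      exact ⟨y, hy, rfl⟩
    exact ⟨conjN hn g y, h2, rfl⟩
  have h3 := (opCore_spec ℓ D).2.2 _ hN (o2.map _)
  rw [hO, le_bot_iff, Subgroup.map_eq_bot_iff_of_injective _ D₀.subtype_injective] at h3
  exact h3

end

/-- LQV -/
theorem lqv {ℓ : ℕ} [Fact ℓ.Prime] {D S : Type} [Group D] [Finite D] [Group S] [Finite S]
    (hS : NonabSimple S) (hO : opCore ℓ D = ⊥) (hns : NearlySimple D S) {M : Subgroup D}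
    (hM : M.Normal) (hCM : Subgroup.centralizer (M : Set D) = Subgroup.center D)
    (hZM : Subgroup.center D ≤ M) (hmu : mu M = Nat.card S) :
    (∃ n : ℕ, (⊤ : Subgroup D).lowerCentralSeries n ≤ M) ∧
    ∀ D₀ : Subgroup D, M ≤ D₀ → D₀.Normal → ¬ ℓ ∣ M.relIndex D₀ →
      opCore ℓ D₀ = ⊥ ∧ NearlySimpleL ℓ D₀ S ∧
      Subgroup.center D₀ = (Subgroup.center D).subgroupOf D₀ ∧
      (∀ (H : Type) [Group H], Involves H (D ⧸ Subgroup.center D) →
        Involves H (D₀ ⧸ Subgroup.center D₀)) ∧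
      ∀ (F : Type) [Field F] (f : D → F),
        (∀ z ∈ Subgroup.center D, z ≠ 1 → ∃ c : F, c ≠ 1 ∧ ∀ x, f (z * x) = c * f x) →
        ∀ z ∈ Subgroup.center D₀, z ≠ 1 → ∃ c : F, c ≠ 1 ∧ ∀ x : D₀, f ((z * x : D₀) : D) =
          c * f x := by
  obtain ⟨T, hT1, hT2, hT3, n, hn⟩ := hns
  have hT : IsSocle T S := ⟨hS, hT1, hT2, hT3⟩
  have hMT := map_eq_socle hS hT hM hZM hmu
  refine ⟨⟨n, ?_⟩, ?_⟩
  · intro x hx
    apply mem_of_mk hZM
    rw [hMT]
    exact hn (lcs_mem _ hx)
  · intro D₀ hle hD₀ hdvd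
    have hc := center_sub hCM hle
    let φ : D₀ ⧸ Subgroup.center D₀ →* D ⧸ Subgroup.center D :=
      QuotientGroup.map (Subgroup.center D₀) (Subgroup.center D) D₀.subtype (by
        rw [hc]
        exact le_refl _)
    have hφ : Function.Injective φ := by
      rw [injective_iff_map_eq_one]
      intro x hx
      obtain ⟨x, rfl⟩ := QuotientGroup.mk'_surjective _ x
      have h1 : QuotientGroup.mk' (Subgroup.center D) (x : D) = 1 := hx
      have h2 : (x : D) ∈ Subgroup.center D := (QuotientGroup.eq_one_iff _).1 h1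
      have h3 : x ∈ Subgroup.center D₀ := by rw [hc]; exact h2
      exact (QuotientGroup.eq_one_iff _).2 h3
    let T₀ : Subgroup (D₀ ⧸ Subgroup.center D₀) :=
      (M.subgroupOf D₀).map (QuotientGroup.mk' (Subgroup.center D₀))
    have hcomp : φ.comp (QuotientGroup.mk' (Subgroup.center D₀)) =
        (QuotientGroup.mk' (Subgroup.center D)).comp D₀.subtype := by
      ext x
      rfl
    have hT₀ : T₀.map φ = T := by
      rw [← hMT]
      change ((M.subgroupOf D₀).map (QuotientGroup.mk' (Subgroup.center D₀))).map φ = _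
      rw [Subgroup.map_map, hcomp, ← Subgroup.map_map, Subgroup.map_subgroupOf_eq_of_le hle]
    have hcl : Subgroup.center D₀ ≤ M.subgroupOf D₀ := by
      rw [hc]
      intro x hx
      exact hZM hx
    refine ⟨opCore_normal hO hD₀, ⟨T₀, ?_, ?_, ?_, ?_, ?_⟩, hc, ?_, ?_⟩
    · exact (hM.subgroupOf D₀).map _ (QuotientGroup.mk'_surjective _)
    · rw [eq_bot_iff]
      intro x hx
      rw [Subgroup.mem_bot]
      apply hφ
      rw [map_one]
      have h1 : φ x ∈ Subgroup.centralizer (T : Set (D ⧸ Subgroup.center D)) := by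
        rw [Subgroup.mem_centralizer_iff]
        intro t ht
        have ht' : t ∈ T₀.map φ := by rw [hT₀]; exact ht
        obtain ⟨s, hs, rfl⟩ := ht'
        rw [← map_mul, ← map_mul, Subgroup.mem_centralizer_iff.1 hx s hs]
      rw [hT2, Subgroup.mem_bot] at h1
      exact h1
    · obtain ⟨e⟩ := hT3
      exact ⟨(T₀.equivMapOfInjective φ hφ).trans ((MulEquiv.subgroupCongr hT₀).trans e)⟩
    · refine ⟨n, fun x hx => ?_⟩
      have h1 : φ x ∈ T := hn (lcs_mem φ hx)
      rw [← hT₀] at h1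
      obtain ⟨y, hy, hyx⟩ := h1
      rwa [← hφ hyx]
    · have h1 : T₀.index = (M.subgroupOf D₀).index := by
        refine Subgroup.index_map_eq _ (QuotientGroup.mk'_surjective _) ?_
        rw [QuotientGroup.ker_mk']
        exact hcl
      rw [h1]
      exact hdvd
    · intro H _ hH
      exact Involves.trans' hH ((Involves.refl _).of_injective φ hφ)
    · intro F _ f hf z hz hz1
      rw [hc] at hz
      obtain ⟨c, hc1, hc2⟩ := hf z hz (fun h => hz1 (Subtype.ext h))
      exact ⟨c, hc1, fun x => hc2 x⟩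

end Pool.Agent.PP.H96
end
end -- Pool.Agent.Helper96_PP.Lqv

section -- Pool.Agent.Helper63_PP.Lqu

/-!
# Squad PP, module LQU: the end of the proof of S1 in the group `D`

`D₀` is the preimage of the normal subgroup of order prime to `ℓ` and index a power of `ℓ` of the
nilpotent group `D / M`.
-/

open scoped BigOperators

noncomputable section

namespace Pool.Agent.PP.H63

open Pool.Agent.Helper51_AWC Pool.Agent.Helper79_WRA Pool.Agent.PP

/-- A finite nilpotent group has a normal subgroup of order prime to `ℓ` and index a power of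
`ℓ`. -/
theorem nil_compl {V : Type} [Group V] [Finite V] (hV : Group.IsNilpotent V) (ℓ : ℕ)
    [hl : Fact ℓ.Prime] : ∃ V₀ : Subgroup V, V₀.Normal ∧ ¬ ℓ ∣ Nat.card V₀ ∧
    ∃ n : ℕ, V₀.index = ℓ ^ n := by
  classical
  by_cases hd : ℓ ∣ Nat.card V
  · obtain ⟨e⟩ := ((Group.isNilpotent_of_finite_tfae (G := V)).out 0 4).1 hV
    have hmem : ℓ ∈ (Nat.card V).primeFactors :=
      Nat.mem_primeFactors.2 ⟨hl.out, hd, Nat.card_pos.ne'⟩
    obtain ⟨P⟩ := (inferInstance : Nonempty (Sylow ℓ V))
    let π₁ : (∀ p : (Nat.card V).primeFactors, ∀ P : Sylow p V, (P : Subgroup V)) →*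
        (∀ P : Sylow ℓ V, (P : Subgroup V)) :=
      Pi.evalMonoidHom (fun p : (Nat.card V).primeFactors => ∀ P : Sylow p V, (P : Subgroup V))
        ⟨ℓ, hmem⟩
    let π₂ : (∀ P : Sylow ℓ V, (P : Subgroup V)) →* (P : Subgroup V) :=
      Pi.evalMonoidHom (fun P : Sylow ℓ V => (P : Subgroup V)) P
    have hs₁ : Function.Surjective π₁ := Function.surjective_eval _
    have hs₂ : Function.Surjective π₂ := Function.surjective_eval _
    let π : V →* (P : Subgroup V) := (π₂.comp π₁).comp e.symm.toMonoidHom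
    have hπ : Function.Surjective π := (hs₂.comp hs₁).comp e.symm.surjective
    have hidx : π.ker.index = ℓ ^ (Nat.card V).factorization ℓ := by
      rw [Subgroup.index_ker, MonoidHom.range_eq_top.2 hπ, Subgroup.card_top]
      exact P.card_eq_multiplicity
    refine ⟨π.ker, inferInstance, ?_, _, hidx⟩
    intro h
    have h1 := π.ker.card_mul_index
    rw [hidx] at h1
    have h2 : ℓ * ℓ ^ (Nat.card V).factorization ℓ ∣ Nat.card V :=
      (Nat.mul_dvd_mul h (dvd_refl _)).trans (dvd_of_eq h1)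
    rw [mul_comm, ← pow_succ] at h2
    exact Nat.pow_succ_factorization_not_dvd (Nat.card_pos (α := V)).ne' hl.out h2
  · exact ⟨⊤, inferInstance, by rwa [Subgroup.card_top], 0, by rw [Subgroup.index_top, pow_zero]⟩

/-- the subgroup `D₀` of `D` over `M` -/
theorem exists_D0 {D : Type} [Group D] [Finite D] {M : Subgroup D} (hM : M.Normal) {m : ℕ}
    (hm : (⊤ : Subgroup D).lowerCentralSeries m ≤ M) (ℓ : ℕ) [hl : Fact ℓ.Prime] :
    ∃ D₀ : Subgroup D, M ≤ D₀ ∧ D₀.Normal ∧ ¬ ℓ ∣ M.relIndex D₀ ∧ ∃ n : ℕ, D₀.index = ℓ ^ n := by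
  classical
  have hV : Group.IsNilpotent (D ⧸ M) := by
    rw [Subgroup.nilpotent_iff_lowerCentralSeries]
    refine ⟨m, ?_⟩
    have h1 := Subgroup.map_lowerCentralSeries (⊤ : Subgroup D) (QuotientGroup.mk' M) m
    rw [Subgroup.map_top_of_surjective _ (QuotientGroup.mk'_surjective M)] at h1
    rw [← h1, Subgroup.map_eq_bot_iff, QuotientGroup.ker_mk']
    exact hm
  obtain ⟨V₀, h1, h2, n, h3⟩ := nil_compl hV ℓ
  have hle : M ≤ V₀.comap (QuotientGroup.mk' M) := by
    intro x hx
    rw [Subgroup.mem_comap]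
    have : (QuotientGroup.mk' M) x = 1 := (QuotientGroup.eq_one_iff x).2 hx
    rw [this]
    exact V₀.one_mem
  refine ⟨V₀.comap (QuotientGroup.mk' M), hle, h1.comap _, ?_, n, ?_⟩
  · have h4 := Subgroup.relIndex_ker (K := V₀.comap (QuotientGroup.mk' M)) (QuotientGroup.mk' M)
    rw [QuotientGroup.ker_mk', Subgroup.map_comap_eq_self_of_surjective
      (QuotientGroup.mk'_surjective M)] at h4
    rwa [h4]
  · rw [Subgroup.index_comap_of_surjective _ (QuotientGroup.mk'_surjective M), h3]

/-- `ℓ`-regular elements lie in every normal subgroup of index a power of `ℓ`. -/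
theorem reg_mem_pow {X : Type} [Group X] [Finite X] {ℓ : ℕ} [hl : Fact ℓ.Prime] {X₁ : Subgroup X}
    (hn : X₁.Normal) {n : ℕ} (h : X₁.index = ℓ ^ n) {x : X} (hx : Reg ℓ x) : x ∈ X₁ := by
  have hp : ℓ.Prime := hl.out
  rw [← QuotientGroup.eq_one_iff, ← orderOf_eq_one_iff]
  have h1 : orderOf (x : X ⧸ X₁) ∣ orderOf x :=
    orderOf_map_dvd (QuotientGroup.mk' X₁) x
  have h2 : orderOf (x : X ⧸ X₁) ∣ ℓ ^ n := by
    rw [← h]
    exact orderOf_dvd_natCard _
  have hx' : Nat.Coprime (orderOf x) ℓ := hx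
  exact Nat.eq_one_of_dvd_coprimes (Nat.Coprime.pow_right n hx') h1 h2

theorem mu_subgroupOf_eq {D : Type} [Group D] [Finite D] {M D₀ : Subgroup D} (hle : M ≤ D₀)
    (hc : Subgroup.center D₀ = (Subgroup.center D).subgroupOf D₀) :
    mu (M.subgroupOf D₀) = mu M := by
  unfold mu
  rw [hc, Subgroup.relIndex_subgroupOf hle]

/-- LQU -/
theorem lqu (hOSI : OsiStmt) (hLQN : LqnStmt) (hFNL : H67.FnlStmt) : H67.LquStmt := by
  classical
  intro ℓ hl F _ hF S _ _ hS D _ _ M hM hO hns hCM hZ hZM hmu hgood hY hyp f hf hfaith hpos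
  obtain ⟨⟨m, hm⟩, hv⟩ := H96.lqv (S := S) hS hO hns hM hCM hZM hmu
  obtain ⟨D₀, hle, hD₀, hrel, n, hn⟩ := exists_D0 hM hm ℓ
  obtain ⟨h1, h2, hc, -, h5⟩ := hv D₀ hle hD₀ hrel
  have hs : ∀ t, t ∉ D₀ → f t = 0 := by
    intro t ht
    apply hOSI ℓ F hF D f hf t
    intro hreg
    exact ht (reg_mem_pow hD₀ hn hreg)
  have hf₀ : IsIdem (fun t : D₀ => f t) := H17.idem_sub hf hs
  have hpos₀ : Pos ℓ (fun t : D₀ => f t) (M.subgroupOf D₀) := H17.pos_sub hle hpos
  have hcardZ : Nat.card (Subgroup.center D₀) ∣ Nat.card (Subgroup.center D) := by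
    rw [hc]
    exact Subgroup.card_comap_dvd_of_injective _ _ D₀.subtype_injective
  have hmu₀ : mu (M.subgroupOf D₀) = mu M := mu_subgroupOf_eq hle hc
  have hstep : YY ℓ (M.subgroupOf D₀) (fun t : D₀ => f t) = 0 := by
    refine hFNL ℓ F hF D₀ (M.subgroupOf D₀) (hM.subgroupOf D₀) ?_ ?_ ?_ ?_ ?_ _ hf₀ hpos₀ ?_
    · apply le_antisymm
      · intro x hx
        rw [hc, Subgroup.mem_subgroupOf, ← hCM, Subgroup.mem_centralizer_iff]
        intro y hy
        exact congrArg Subtype.val
          (Subgroup.mem_centralizer_iff.1 hx ⟨y, hle hy⟩ hy)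
      · exact Subgroup.center_le_centralizer _
    · exact fun h => hZ (h.trans hcardZ)
    · rw [hc]
      intro x hx
      exact hZM hx
    · exact hgood.subgroupOf D₀ le_rfl
    · rw [hmu₀]
      exact hY
    · intro hp
      exact hyp D₀ D₀.subtype D₀.subtype_injective h1 h2 _ hf₀ (h5 F f hfaith) hp
  refine hLQN ℓ F hF D M D₀ hM hD₀ hle ⟨n, hn⟩ ?_ ?_ f hf hpos hstep
  · rw [hCM]
    exact hZ
  · intro H _ _ i Y' hi hY' hYM hmu'
    refine hY H Y' hY' hmu' ?_
    refine hgood.of_central i ?_ hYM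
    rw [(MonoidHom.ker_eq_bot_iff i).2 hi]
    exact bot_le

end Pool.Agent.PP.H63
end
end -- Pool.Agent.Helper63_PP.Lqu

section -- Pool.Agent.Helper96_PP.S1g

/-!
# Squad PP, module S1G: the case of a simple chief factor, arbitrary outer part

From the case of a nilpotent outer part (`S1nStmt`) through Fong-Reynolds, the pair sums and the
doubling.
-/

open scoped BigOperators

noncomputable section

namespace Pool.Agent.PP.H96

open Pool.Agent.Helper51_AWC Pool.Agent.Helper79_WRA Pool.Agent.PP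

section groups

variable {G H : Type} [Group G] [Finite G] [Group H] [Finite H]

/-- if `N / (N ∩ Z(G))` is nonabelian simple then `Z(N) = N ∩ Z(G)` -/
theorem center_eq_of_simple {N : Subgroup G} (h : NASimple (N ⧸ (Subgroup.center G).subgroupOf N)) :
    Subgroup.center N = (Subgroup.center G).subgroupOf N := by
  obtain ⟨hs, a, b, hab⟩ := h
  apply le_antisymm
  · have hn : ((Subgroup.center N).map
        (QuotientGroup.mk' ((Subgroup.center G).subgroupOf N))).Normal :=
      Subgroup.Normal.map inferInstance _ (QuotientGroup.mk'_surjective _)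
    rcases hs.eq_bot_or_eq_top_of_normal _ hn with h1 | h1
    · rw [Subgroup.map_eq_bot_iff, QuotientGroup.ker_mk'] at h1
      exact h1
    · exfalso
      apply hab
      have ha : a ∈ (Subgroup.center N).map
          (QuotientGroup.mk' ((Subgroup.center G).subgroupOf N)) := by
        rw [h1]; exact Subgroup.mem_top a
      obtain ⟨x, hx, rfl⟩ := ha
      obtain ⟨y, rfl⟩ := QuotientGroup.mk'_surjective ((Subgroup.center G).subgroupOf N) b
      rw [← map_mul, ← map_mul, Subgroup.mem_center_iff.1 hx y]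
  · intro x hx
    rw [Subgroup.mem_center_iff]
    intro y
    exact Subtype.ext (Subgroup.mem_center_iff.1 (Subgroup.mem_subgroupOf.1 hx) y)

theorem NASimple.of_equiv {A B : Type} [Group A] [Group B] (e : A ≃* B) (h : NASimple B) :
    NASimple A := by
  obtain ⟨hs, x, y, hxy⟩ := h
  refine ⟨(MulEquiv.isSimpleGroup_congr e).2 hs, e.symm x, e.symm y, ?_⟩
  intro h1
  apply hxy
  have h2 := congrArg e h1
  rw [map_mul, map_mul, MulEquiv.apply_symm_apply, MulEquiv.apply_symm_apply] at h2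
  exact h2

/-- the centre of a group isomorphic to `N` -/
theorem simple_transfer {N : Subgroup G} (h : NASimple (N ⧸ (Subgroup.center G).subgroupOf N))
    {Q : Subgroup H} (e : Q ≃* N) (hmu : mu Q ≤ mu N) :
    NASimple (Q ⧸ (Subgroup.center H).subgroupOf Q) ∧ mu Q = mu N := by
  have hc := center_eq_of_simple h
  have hZQ : (Subgroup.center H).subgroupOf Q ≤ Subgroup.center Q := by
    intro x hx
    rw [Subgroup.mem_center_iff]
    intro y
    exact Subtype.ext (Subgroup.mem_center_iff.1 (Subgroup.mem_subgroupOf.1 hx) y)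
  have hmap : (Subgroup.center Q).map e.toMonoidHom = Subgroup.center N := by
    ext y
    rw [Subgroup.mem_map, Subgroup.mem_center_iff]
    constructor
    · rintro ⟨x, hx, rfl⟩ z
      have h1 := Subgroup.mem_center_iff.1 hx (e.symm z)
      have h2 := congrArg e h1
      rw [map_mul, map_mul, MulEquiv.apply_symm_apply] at h2
      exact h2
    · intro hy
      refine ⟨e.symm y, ?_, MulEquiv.apply_symm_apply e y⟩
      rw [Subgroup.mem_center_iff]
      intro z
      apply e.injective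
      rw [map_mul, map_mul, MulEquiv.apply_symm_apply]
      exact hy (e z)
  have hidx : (Subgroup.center Q).index = (Subgroup.center N).index := by
    rw [← hmap]
    exact (Subgroup.index_map_equiv (Subgroup.center Q) e).symm
  have h1 : mu N = (Subgroup.center N).index := by
    rw [hc]
    rfl
  have h2 : mu Q = ((Subgroup.center H).subgroupOf Q).index := rfl
  have h3 := Subgroup.relIndex_mul_index hZQ
  rw [← h2, hidx, ← h1] at h3
  have h4 : mu N ≠ 0 := Subgroup.index_ne_zero_of_finite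
  have h5 : ((Subgroup.center H).subgroupOf Q).relIndex (Subgroup.center Q) ≠ 0 :=
    Subgroup.index_ne_zero_of_finite
  have h6 : ((Subgroup.center H).subgroupOf Q).relIndex (Subgroup.center Q) = 1 := by
    by_contra hne
    have h7 : 2 ≤ ((Subgroup.center H).subgroupOf Q).relIndex (Subgroup.center Q) := by omega
    have h8 := Nat.mul_le_mul_right (mu N) h7
    omega
  rw [h6, one_mul] at h3
  refine ⟨?_, h3.symm⟩
  have h7 : (Subgroup.center H).subgroupOf Q = Subgroup.center Q :=
    le_antisymm hZQ (Subgroup.relIndex_eq_one.1 h6)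
  refine NASimple.of_equiv (QuotientGroup.congr ((Subgroup.center H).subgroupOf Q)
    ((Subgroup.center G).subgroupOf N) e ?_) h
  rw [h7, ← hc]
  exact hmap

theorem opCore_bot_of_equiv {ℓ : ℕ} [Fact ℓ.Prime] {A B : Type} [Group A] [Finite A] [Group B]
    [Finite B] (e : A ≃* B) (h : opCore ℓ B = ⊥) : opCore ℓ A = ⊥ := by
  have h1 := opCore_equiv ℓ e
  rw [mapE_apply, h] at h1
  exact (Subgroup.map_eq_bot_iff_of_injective _ e.injective).1 h1

end groups

/-- S1G -/
theorem s1g (hS1n : S1nStmt) (hAdd : AddStmt) (hFr : FrStmt) (hPs3 : Ps3Stmt)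
    (hSum : SumStmt) (hDbln : DblnStmt) : S1Stmt := by
  intro ℓ _ F _ hF G _ _ N hN hO hNA hg hlt e0 he0 hp0
  apply hAdd ℓ F hF G N hN e0 he0
  intro e he hee
  have hp : Pos ℓ e N := H46.pos_mono he.1 (by rw [H46.mulF_comm he.1.1, hee]) hp0
  obtain ⟨b, hb0, hb, hbe⟩ := H46.exists_blk he.2.1 N
  obtain ⟨f1, f2, f3, f4⟩ := hFr ℓ F hF G N N hN hN le_rfl e he hp b hb0 hb hbe (stabF b)
    (fun g => Iff.rfl)
  rw [f4]
  set T := stabF b with hT
  have hNT : N ≤ T := by
    intro g hgN x
    by_cases hx : x ∈ N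
    · exact hb.1.1 ⟨x, hx⟩ ⟨g, hgN⟩
    · have hx' : g * x * g⁻¹ ∉ N := by
        intro h
        apply hx
        have := hN.conj_mem _ h g⁻¹
        have e2 : g⁻¹ * (g * x * g⁻¹) * g⁻¹⁻¹ = x := by group
        rwa [e2] at this
      rw [hb0 _ hx, hb0 _ hx']
  let M : Subgroup T := N.subgroupOf T
  have hM : M.Normal := hN.subgroupOf T
  let ι : M ≃* N := Subgroup.subgroupOfEquivOfLe hNT
  let bT : T → F := fun t => b t
  have hbTM : IsBlk (fun t : M => bT t) := H18.blk_equiv ι hb
  have hbT0 : ∀ x, x ∉ M → bT x = 0 := fun x hx => hb0 x (fun h => hx h)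
  have hbTc : IsCl bT := fun x y => y.2 x
  have hsb : SBlk M bT := ⟨hbT0, hbTc, hbTM⟩
  let eT : T → F := fun t => mulF e b t
  have hbb : mulF b b = b := by
    have h1 := H75.mulF_res N b hb0
    funext x
    by_cases hx : x ∈ N
    · have h2 := congrFun h1 ⟨x, hx⟩
      have h3 : mulF b b x = mulF (fun t : N => b t) (fun t : N => b t) ⟨x, hx⟩ := h2
      rw [h3, hb.1.2]
    · rw [hb0 x hx]
      exact H75.mulF_supp N hb0 hb0 x hx
  have hmul : mulF eT bT = eT := by
    have h1 := H75.mulF_res T (a := mulF e b) b f1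
    have h2 : mulF (mulF e b) b = mulF e b := by
      apply ma_injective
      rw [ma_mul, ma_mul, mul_assoc, ← ma_mul, hbb]
    rw [h2] at h1
    exact h1.symm
  have heT : eT ≠ 0 := by
    intro h0
    apply hbe
    funext x
    by_cases hx : x ∈ T
    · exact congrFun h0 ⟨x, hx⟩
    · exact f1 x hx
  obtain ⟨τ, hτ⟩ := H59.exists_lift ℓ F hF
  have hmuM : mu M ≤ mu N := by
    have h1 : (Subgroup.center G).subgroupOf T ≤ Subgroup.center T := by
      intro x hx
      rw [Subgroup.mem_center_iff]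
      intro y
      exact Subtype.ext (Subgroup.mem_center_iff.1 (Subgroup.mem_subgroupOf.1 hx) y)
    have h2 : ((Subgroup.center G).subgroupOf T).relIndex M = (Subgroup.center G).relIndex N :=
      Subgroup.relIndex_subgroupOf hNT
    unfold mu
    rw [← h2]
    apply Nat.le_of_dvd
    · exact Nat.pos_of_ne_zero Subgroup.index_ne_zero_of_finite
    · exact Subgroup.relIndex_dvd_of_le_left _ h1
  have hall : DAll τ ℓ M bT := by
    refine hDbln ℓ F hF τ hτ T M hM bT hsb ?_ ?_
    · intro hdz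
      apply heT
      refine (hPs3 ℓ F hF T M hM (fun t : M => bT t) hbTM ?_ eT f2 ?_).2 hdz f3
      · rw [H46.ext0_restr hbT0]
        rw [eq_top_iff]
        intro g _ x
        exact hbTc x g
      · rw [H46.ext0_restr hbT0]
        exact hmul
    · intro H₁ _ _ Q hQ hiso hmu hnil hemb
      obtain ⟨ε⟩ := hiso
      obtain ⟨i, hi⟩ := hemb
      obtain ⟨k1, k2⟩ := simple_transfer hNA (ε.trans ι) (hmu.trans hmuM)
      refine hS1n ℓ F hF H₁ Q hQ (opCore_bot_of_equiv (ε.trans ι) hO) k1 hnil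
        ((hg.subgroupOf T le_rfl).of_prod i hi ε.toMonoidHom ε.injective) ?_
      rw [k2]
      exact hlt
  rw [hSum ℓ F hF τ hτ T M hM bT hsb hall eT f2 hmul, mul_zero]

end Pool.Agent.PP.H96
end
end -- Pool.Agent.Helper96_PP.S1g

section -- Pool.Agent.Helper66_PP.Vst

/-!
# Squad PP, part V: outer parts generated by two elements
-/

open scoped BigOperators

noncomputable section

namespace Pool.Agent.PP.H66

open Pool.Agent.Helper51_AWC Pool.Agent.Helper79_WRA Pool.Agent.PP Pool.Agent.PP.H94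

section grp

variable {G : Type} [Group G] [Finite G]

/-- an `ℓ`-subgroup is contained in every normal subgroup of index prime to `ℓ` -/
theorem pgroup_le {ℓ : ℕ} (hℓ : ℓ.Prime) {P M : Subgroup G} (hP : IsPGroup ℓ P) [M.Normal]
    (hM : ¬ ℓ ∣ M.index) : P ≤ M := by
  intro x hx
  obtain ⟨k, hk⟩ := hP ⟨x, hx⟩
  have hk' : x ^ ℓ ^ k = 1 := congrArg Subtype.val hk
  have h1 : ((x : G) : G ⧸ M) ^ ℓ ^ k = 1 := by
    rw [← QuotientGroup.mk_pow, hk', QuotientGroup.mk_one]
  have h2 : orderOf ((x : G) : G ⧸ M) ∣ ℓ ^ k := orderOf_dvd_of_pow_eq_one h1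
  have h3 : orderOf ((x : G) : G ⧸ M) ∣ M.index := orderOf_dvd_natCard _
  have h4 : (ℓ ^ k).Coprime M.index := Nat.Coprime.pow_left k (hℓ.coprime_iff_not_dvd.2 hM)
  have h5 : orderOf ((x : G) : G ⧸ M) = 1 := Nat.eq_one_of_dvd_coprimes h4 h2 h3
  rw [orderOf_eq_one_iff] at h5
  exact (QuotientGroup.eq_one_iff x).1 h5

theorem psub_eq {ℓ : ℕ} (hℓ : ℓ.Prime) {M : Subgroup G} [M.Normal] (hM : ¬ ℓ ∣ M.index) :
    psubIn ℓ (⊤ : Subgroup G) = psubIn ℓ M := by
  ext P
  rw [mem_psubIn, mem_psubIn]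
  constructor
  · rintro ⟨-, hP⟩
    exact ⟨pgroup_le hℓ hP hM, hP⟩
  · rintro ⟨-, hP⟩
    exact ⟨le_top, hP⟩

theorem YY_top_eq {ℓ : ℕ} {F : Type} [Field F] (hℓ : ℓ.Prime) {M : Subgroup G} [M.Normal]
    (hM : ¬ ℓ ∣ M.index) (e : G → F) : YY ℓ ⊤ e = YY ℓ M e := by
  unfold YY
  rw [psub_eq hℓ hM]

/-- a group involved in a proper subgroup is smaller -/
theorem card_lt {A : Type} [Group A] {K : Subgroup G} (hK : K ≠ ⊤) (h : Involves K A) :
    Nat.card A < Nat.card G := by
  obtain ⟨B, f, hf⟩ := h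
  have h1 : Nat.card A ≤ Nat.card B := Nat.card_le_card_of_surjective f hf
  have h2 : Nat.card B ≤ Nat.card K := Subgroup.card_le_card_group B
  have h3 : Nat.card K < Nat.card G := by
    refine lt_of_le_of_ne (Subgroup.card_le_card_group K) fun h => hK ?_
    exact Subgroup.eq_top_of_card_eq K h
  omega

theorem inv_trans {A B C : Type} [Group A] [Group B] [Group C] (h : Involves A B)
    (h' : Involves B C) : Involves A C := by
  obtain ⟨K, f, hf⟩ := h
  exact (h'.of_surjective f hf).of_subgroup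

end grp

/-- (V) -/
theorem vst (main : MainStmt) (hAdd : AddStmt) (hFr : FrStmt) (hPs5 : Ps5Stmt)
    (hSum : SumStmt) (hDbln : DblnStmt) (hRst : RstStmt) : VStmt := by
  intro ℓ _ F _ hF H _ _ N hN hg
  suffices key : ∀ n : ℕ, ∀ (S : Type) [Group S] [Finite S], NonabSimple S → ℓ ∣ Nat.card S →
      Involves N S → ∀ (D : Type) [Group D] [Finite D], Nat.card (D ⧸ Subgroup.center D) = n →
      opCore ℓ D = ⊥ → NearlySimpleL ℓ D S → Involves H (D ⧸ Subgroup.center D) →
      ∀ e : D → F, IsIdem e →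
      (∀ z ∈ Subgroup.center D, z ≠ 1 → ∃ c : F, c ≠ 1 ∧ ∀ x, e (z * x) = c * e x) →
      Pos ℓ e ⊤ → YY ℓ ⊤ e = 0 by
    intro S _ _ hS hd hI D _ _ hO hns hID e he hz hp
    exact key _ S hS hd hI D rfl hO hns hID e he hz hp
  intro n
  induction n using Nat.strong_induction_on with
  | _ n IH =>
  intro S _ _ hS hd hI D _ _ hn hO hns hID e0 he0 hz0 hp0
  obtain ⟨T0, hT1, hT2, hT3, hT4, hT5⟩ := hns
  by_cases h2 : ∃ a b : D ⧸ Subgroup.center D, T0 ⊔ Subgroup.closure {a, b} = ⊤
  · exact hg S hS hd hI D hO ⟨T0, hT1, hT2, hT3, hT4, hT5, h2⟩ hID e0 he0 hz0 hp0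
  have hMn : (T0.comap (QuotientGroup.mk' (Subgroup.center D))).Normal := hT1.comap _
  set M : Subgroup D := T0.comap (QuotientGroup.mk' (Subgroup.center D)) with hM
  have hMi : ¬ ℓ ∣ M.index := by
    rw [hM, Subgroup.index_comap_of_surjective _ (QuotientGroup.mk'_surjective _)]
    exact hT5
  -- the involved simple groups
  have hMS : ∀ (S' : Type) [Group S'], NonabSimple S' → Involves M S' → Involves N S' := by
    intro S' _ hS' hI'
    obtain ⟨ε⟩ := hT3
    let q : M →* T0 := ((QuotientGroup.mk' (Subgroup.center D)).comp M.subtype).codRestrict T0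
      fun x => x.2
    have hq : q.ker ≤ Subgroup.center M := by
      intro x hx
      have h1 : QuotientGroup.mk' (Subgroup.center D) (x : D) = 1 := congrArg Subtype.val hx
      have h3 : (x : D) ∈ Subgroup.center D := (QuotientGroup.eq_one_iff _).1 h1
      rw [Subgroup.mem_center_iff]
      intro y
      exact Subtype.ext (Subgroup.mem_center_iff.1 h3 y)
    exact inv_trans hI ((hI'.of_central hS' q hq).of_equiv ε)
  -- the induction
  have good : ∀ (L H₁ : Type) [Group L] [Group H₁] (p : L →* D ⧸ Subgroup.center D),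
      p.ker ≤ Subgroup.center L → p.range ≠ ⊤ → ∀ Q : Subgroup H₁,
      (∀ (S' : Type) [Group S'], NonabSimple S' → Involves Q S' → Involves N S') →
      (∀ (A S' : Type) [Group A] [Group S'] (T' : Subgroup A), IsSocle T' S' → Involves H₁ A →
        Involves L A) → GoodP ℓ F Q := by
    intro L H₁ _ _ p hpk hpr Q hQS hQL S' _ _ hS' hd' hI' D' _ _ hO' hns' hID' e' he' hz' hp'
    obtain ⟨T', hT'⟩ := hns'.nearlySimple.socle hS'
    have h3 : Involves L (D' ⧸ Subgroup.center D') := hQL _ S' T' hT' hID'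
    have h4 : Involves p.range (D' ⧸ Subgroup.center D') := by
      refine hT'.involves_central p.rangeRestrict ?_ h3
      rw [MonoidHom.ker_rangeRestrict]
      exact hpk
    refine IH (Nat.card (D' ⧸ Subgroup.center D')) ?_ S' hS' hd' (hQS S' hS' hI') D' rfl hO' hns'
      (inv_trans hID h4.of_subgroup) e' he' hz' hp'
    rw [← hn]
    exact card_lt hpr h4
  -- reduction to blocks
  refine hAdd ℓ F hF D ⊤ inferInstance e0 he0 fun e he hee => ?_
  have hp : Pos ℓ e ⊤ := hPs5 ℓ F hF D ⊤ inferInstance e0 e he0 he.1 hee hp0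
  obtain ⟨b, hb0, hb, hbe⟩ := H46.exists_blk he.2.1 M
  obtain ⟨f1, f2, f3, f4⟩ := hFr ℓ F hF D M ⊤ hMn inferInstance le_top e he hp b hb0 hb hbe
    (stabF b) (fun g => Iff.rfl)
  rw [f4]
  set T := stabF b with hT
  have hMT : M ≤ T := by
    intro g hgN x
    by_cases hx : x ∈ M
    · exact hb.1.1 ⟨x, hx⟩ ⟨g, hgN⟩
    · have hx' : g * x * g⁻¹ ∉ M := by
        intro h
        apply hx
        have := hMn.conj_mem _ h g⁻¹
        have e2 : g⁻¹ * (g * x * g⁻¹) * g⁻¹⁻¹ = x := by group
        rwa [e2] at this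
      rw [hb0 _ hx, hb0 _ hx']
  let MT : Subgroup T := M.subgroupOf T
  have hMTn : MT.Normal := hMn.subgroupOf T
  let ι : MT ≃* M := Subgroup.subgroupOfEquivOfLe hMT
  let bT : T → F := fun t => b t
  have hbTM : IsBlk (fun t : MT => bT t) := H18.blk_equiv ι hb
  have hbT0 : ∀ x, x ∉ MT → bT x = 0 := fun x hx => hb0 x (fun h => hx h)
  have hbTc : IsCl bT := fun x y => y.2 x
  have hsb : SBlk MT bT := ⟨hbT0, hbTc, hbTM⟩
  let eT : T → F := fun t => mulF e b t
  have hbb : mulF b b = b := by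
    have h1 := H75.mulF_res M b hb0
    funext x
    by_cases hx : x ∈ M
    · have h2 := congrFun h1 ⟨x, hx⟩
      have h3 : mulF b b x = mulF (fun t : M => b t) (fun t : M => b t) ⟨x, hx⟩ := h2
      rw [h3, hb.1.2]
    · rw [hb0 x hx]
      exact H75.mulF_supp M hb0 hb0 x hx
  have hmul : mulF eT bT = eT := by
    have h1 := H75.mulF_res T (a := mulF e b) b f1
    have h2 : mulF (mulF e b) b = mulF e b := by
      apply ma_injective
      rw [ma_mul, ma_mul, mul_assoc, ← ma_mul, hbb]
    rw [h2] at h1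
    exact h1.symm
  have heT : eT ≠ 0 := by
    intro h0
    apply hbe
    funext x
    by_cases hx : x ∈ T
    · exact congrFun h0 ⟨x, hx⟩
    · exact f1 x hx
  have htop : (⊤ : Subgroup D).subgroupOf T = ⊤ := Subgroup.top_subgroupOf T
  rw [htop] at f3 ⊢
  have hMTi : ¬ ℓ ∣ MT.index := by
    intro h
    exact hMi (h.trans (Subgroup.relIndex_dvd_index_of_normal M T))
  rw [YY_top_eq (Fact.out : ℓ.Prime) hMTi]
  have hndz : ¬ DZ ℓ (fun t : MT => bT t) := fun hdz =>
    heT (posx hF MT hMTi hbT0 hbTc hdz f2 hmul f3)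
  obtain ⟨τ, hτ⟩ := H59.exists_lift ℓ F hF
  have hall : DAll τ ℓ MT bT := by
    intro x y hx hxy
    set L : Subgroup T := MT ⊔ Subgroup.closure {x, y} with hL
    have hML : MT ≤ L := le_sup_left
    have hxL : x ∈ L := (le_sup_right : _ ≤ L) (Subgroup.subset_closure (Set.mem_insert _ _))
    have hyL : y ∈ L := (le_sup_right : _ ≤ L)
      (Subgroup.subset_closure (Set.mem_insert_of_mem _ rfl))
    obtain ⟨r1, r2, r3⟩ := hRst ℓ F hF τ T MT hMTn bT hsb L hML
    refine r3 ⟨x, hxL⟩ ⟨y, hyL⟩ ?_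
    let j : MT.subgroupOf L ≃* MT := Subgroup.subgroupOfEquivOfLe hML
    have hdzL : ¬ DZ ℓ (fun t : MT.subgroupOf L => (fun t : L => bT t) t) := by
      intro h
      exact hndz (dz_equiv j h)
    have hYn : (MT.subgroupOf L).Normal := hMTn.subgroupOf L
    refine hDbln ℓ F hF τ hτ L (MT.subgroupOf L) hYn _ r1 hdzL ?_ _ _ ?_ ?_
    · intro H₁ _ _ Q₁ hQ₁ hiso hmu hnil hemb
      obtain ⟨ε⟩ := hiso
      obtain ⟨i, hi⟩ := hemb
      refine main ℓ F hF H₁ Q₁ hQ₁ (good L H₁
        ((QuotientGroup.mk' (Subgroup.center D)).comp (T.subtype.comp L.subtype)) ?_ ?_ Q₁ ?_ ?_)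
      · intro z hz
        have h1 : QuotientGroup.mk' (Subgroup.center D) ((z : T) : D) = 1 := hz
        have h3 : ((z : T) : D) ∈ Subgroup.center D := (QuotientGroup.eq_one_iff _).1 h1
        rw [Subgroup.mem_center_iff]
        intro w
        exact Subtype.ext (Subtype.ext (Subgroup.mem_center_iff.1 h3 w))
      · intro htop'
        apply h2
        refine ⟨QuotientGroup.mk' (Subgroup.center D) (x : D),
          QuotientGroup.mk' (Subgroup.center D) (y : D), ?_⟩
        rw [eq_top_iff, ← htop']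
        rintro _ ⟨w, rfl⟩
        have h3 : L ≤ (T0 ⊔ Subgroup.closure {QuotientGroup.mk' (Subgroup.center D) (x : D),
            QuotientGroup.mk' (Subgroup.center D) (y : D)}).comap
            ((QuotientGroup.mk' (Subgroup.center D)).comp T.subtype) := by
          rw [hL]
          refine sup_le ?_ ?_
          · intro v hv
            exact (le_sup_left : T0 ≤ _) hv
          · rw [Subgroup.closure_le]
            rintro v (rfl | rfl)
            · exact (le_sup_right : _ ≤ T0 ⊔ _) (Subgroup.subset_closure (Set.mem_insert _ _))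
            · exact (le_sup_right : _ ≤ T0 ⊔ _)
                (Subgroup.subset_closure (Set.mem_insert_of_mem _ rfl))
        exact h3 w.2
      · intro S' _ hS' hI'
        exact hMS S' hS' ((hI'.of_equiv ((ε.trans j).trans ι)))
      · intro A S' _ _ T' hT' hA
        exact hT'.involves_prod i hi hA
    · obtain ⟨s, hs, h3⟩ := hx
      exact ⟨s, hs, (r2 _).2 h3⟩
    · rw [r2]
      exact hxy
  rw [hSum ℓ F hF τ hτ T MT hMTn bT hsb hall eT f2 hmul, mul_zero]

end Pool.Agent.PP.H66
end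
end -- Pool.Agent.Helper66_PP.Vst

section -- Pool.Agent.Helper75_PP.RelC

/-!
# Squad PP, the relative form of the final theorem, step (R4)

Positivity over the image of a normal subgroup, modulo a central `O_ℓ(G)`.
-/

open scoped BigOperators

set_option linter.unusedSectionVars false

noncomputable section

namespace Pool.Agent.PP

open Pool.Agent.Helper51_AWC Pool.Agent.Helper79_WRA

/-- (R3) Lemma Q: the blocks of a normal subgroup under a block of the group. -/
def LemQStmt : Prop := ∀ (M : Ideal (integralClosure ℤ ℂ)) [M.IsMaximal],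
  letI := Ideal.Quotient.field M
  ∀ (G : Type) [Group G] [Finite G] (N : Subgroup G), N.Normal → ∀ e : G → FF M, IsBlk e →
  ∀ χ ∈ Irr G, res M e χ = 1 → ∀ ψ ∈ Irr N,
  (∑ᶠ n : N, χ n * starRingEnd ℂ (ψ n)) ≠ 0 →
  ∀ b b' : N → FF M, IsBlk b → res M b ψ = 1 → IsBlk b' → mulF e (ext0 N b') ≠ 0 →
  ∃ g : G, ∀ n : N, b' n = ext0 N b (g * n * g⁻¹)

namespace H75

section relc

variable {F A B : Type} [Field F] [Group A] [Finite A] [Group B] [Finite B]

/-- `O_ℓ` of a normal subgroup -/
theorem opCore_sub {ℓ : ℕ} (hℓ : ℓ.Prime) {N : Subgroup A} (hN : N.Normal) :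
    opCore ℓ N = (opCore ℓ A).subgroupOf N := by
  have hfact := Fact.mk hℓ
  obtain ⟨o1, o2, o3⟩ := opCore_spec ℓ N
  obtain ⟨a1, a2, a3⟩ := opCore_spec ℓ A
  apply le_antisymm
  · have hn : ((opCore ℓ N).map N.subtype).Normal := by
      constructor
      intro x hx g
      obtain ⟨y, hy, rfl⟩ := hx
      have h1 := opCore_equiv ℓ (H96.conjN hN g)
      rw [mapE_apply] at h1
      have h2 : H96.conjN hN g y ∈ opCore ℓ N := by
        rw [← h1]
        exact ⟨y, hy, rfl⟩
      exact ⟨H96.conjN hN g y, h2, rfl⟩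
    have h3 := a3 _ hn (o2.map _)
    intro x hx
    exact h3 ⟨x, hx, rfl⟩
  · apply o3
    · have := opCore_normal (A := A) ℓ
      infer_instance
    · intro x
      obtain ⟨k, hk⟩ := a2 ⟨x.1.1, x.2⟩
      refine ⟨k, ?_⟩
      have h1 : (x.1.1 : A) ^ ℓ ^ k = 1 := congrArg Subtype.val hk
      apply Subtype.ext
      apply Subtype.ext
      exact h1

/-- `push` and `ext0` -/
theorem push_ext0 (p : A →* B) (N : Subgroup A) (b : N → F) :
    push p (PP.ext0 N b) = PP.ext0 (N.map p) (push (p.subgroupMap N) b) := by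
  classical
  have := Fintype.ofFinite A
  have := Fintype.ofFinite N
  funext y
  rw [push_eq]
  by_cases hy : y ∈ N.map p
  · rw [H46.ext0_of_mem _ hy, push_eq]
    symm
    apply Finset.sum_of_injOn (fun x : N => (x : A))
    · intro x _ x' _ h
      exact Subtype.ext h
    · intro x _
      exact Finset.mem_coe.2 (Finset.mem_univ _)
    · intro x _ hx
      by_cases h : p x = y
      · rw [if_pos h, H46.ext0_of_not_mem]
        intro hxN
        exact hx ⟨⟨x, hxN⟩, Finset.mem_coe.2 (Finset.mem_univ _), rfl⟩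
      · rw [if_neg h]
    · intro x _
      by_cases h : p x = y
      · rw [if_pos h, if_pos (Subtype.ext h), H46.ext0_of_mem _ x.2]
      · rw [if_neg h, if_neg (fun h' => h (congrArg Subtype.val h'))]
  · rw [H46.ext0_of_not_mem _ hy]
    apply Finset.sum_eq_zero
    intro x _
    by_cases h : p x = y
    · rw [if_pos h, H46.ext0_of_not_mem]
      intro hx
      exact hy ⟨x, hx, h⟩
    · rw [if_neg h]

theorem push_dl_one (p : A →* B) : push p (dl F (1 : A)) = dl F (1 : B) := by
  classical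
  have := Fintype.ofFinite A
  funext y
  rw [push_eq, Finset.sum_eq_single 1]
  · rw [map_one]
    unfold dl
    by_cases h : y = 1
    · rw [if_pos h, if_pos h.symm, if_pos rfl]
    · rw [if_neg h, if_neg (fun h' => h h'.symm)]
  · intro x _ hx
    unfold dl
    rw [if_neg hx]
    split_ifs <;> rfl
  · intro h
    exact absurd (Finset.mem_univ _) h

theorem push_add (p : A →* B) (a b : A → F) : push p (a + b) = push p a + push p b := by
  classical
  have := Fintype.ofFinite A
  funext y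
  rw [Pi.add_apply, push_eq, push_eq, push_eq, ← Finset.sum_add_distrib]
  apply Finset.sum_congr rfl
  intro x _
  split_ifs
  · rfl
  · rw [add_zero]

/-- a block of the image lies under the image of a block -/
theorem under_block {p : A →* B} {N : Subgroup A} {e : A → F}
    {c : N.map p → F} (hc : IsBlk c) (h : mulF (push p e) (PP.ext0 (N.map p) c) ≠ 0) :
    ∃ b : N → F, IsBlk b ∧ mulF c (push (p.subgroupMap N) b) = c ∧ mulF e (PP.ext0 N b) ≠ 0 := by
  have hq : Function.Surjective (p.subgroupMap N) := p.subgroupMap_surjective N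
  have key : ∀ g : N → F, IsIdem g →
      mulF (push p e) (mulF (push p (PP.ext0 N g)) (PP.ext0 (N.map p) c)) ≠ 0 →
      ∃ b : N → F, IsBlk b ∧ mulF c (push (p.subgroupMap N) b) = c ∧ mulF e (PP.ext0 N b) ≠ 0 := by
    apply H46.idem_induction
    · intro h0
      exfalso
      apply h0
      have h1 : mulF (0 : B → F) (PP.ext0 (N.map p) c) = 0 := by
        apply ma_injective
        rw [ma_mul, ma_zero, zero_mul]
      rw [H94.ext0_zero', push_zero, h1, H46.mulF_zero]
    · intro b hb h0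
      refine ⟨b, hb, ?_, ?_⟩
      · rcases hc.2.2 _ (push_isIdem hq hb.1) with h1 | h1
        · exact h1
        · exfalso
          apply h0
          rw [push_ext0, ← H46.ext0_mul, H46.mulF_comm (push_isIdem hq hb.1).1, h1,
            H94.ext0_zero', H46.mulF_zero]
      · intro h1
        apply h0
        rw [← mulF_assoc, ← push_mulF, h1, push_zero]
        apply ma_injective
        rw [ma_mul, ma_zero, zero_mul]
    · intro e₁ e₂ _ _ _ h1 h2 h0
      by_cases h3 : mulF (push p e) (mulF (push p (PP.ext0 N e₁)) (PP.ext0 (N.map p) c)) = 0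
      · by_cases h4 : mulF (push p e) (mulF (push p (PP.ext0 N e₂)) (PP.ext0 (N.map p) c)) = 0
        · exfalso
          apply h0
          have h5 : mulF (push p (PP.ext0 N (e₁ + e₂))) (PP.ext0 (N.map p) c) =
              mulF (push p (PP.ext0 N e₁)) (PP.ext0 (N.map p) c) +
              mulF (push p (PP.ext0 N e₂)) (PP.ext0 (N.map p) c) := by
            rw [H46.ext0_add, push_add]
            apply ma_injective
            rw [ma_mul, ma_add, ma_add, add_mul, ma_mul, ma_mul]
          rw [h5, H46.mulF_add, h3, h4, add_zero]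
        · exact h2 h4
      · exact h1 h3
  apply key _ H46.isIdem_one
  rw [H46.ext0_dl, push_dl_one, H46.one_mulF]
  exact h

/-- conjugation does not change the positivity -/
theorem pos_conj {ℓ : ℕ} (hF : GoodF ℓ F) {p : A →* B} (hp : Function.Surjective p)
    {N : Subgroup A} (hN : N.Normal) {b b' : N → F} {g : A}
    (h : ∀ n : N, b' n = PP.ext0 N b (g * n * g⁻¹))
    (hpos : Pos ℓ (push (p.subgroupMap N) b) (⊤ : Subgroup (N.map p))) :
    Pos ℓ (push (p.subgroupMap N) b') (⊤ : Subgroup (N.map p)) := by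
  classical
  have := Fintype.ofFinite N
  have hNB : (N.map p).Normal := hN.map p hp
  let θ : N.map p ≃* N.map p := H96.conjN hNB (p g)
  let η : N ≃* N := H96.conjN hN g
  have hθ : ∀ n : N, θ (p.subgroupMap N n) = p.subgroupMap N (η n) := by
    intro n
    apply Subtype.ext
    change p g * p n * (p g)⁻¹ = p (g * n * g⁻¹)
    rw [map_mul, map_mul, map_inv]
  have hker : (θ.toMonoidHom).ker = ⊥ := (MonoidHom.ker_eq_bot_iff _).2 θ.injective
  have h1 : H74.infl θ.toMonoidHom (push (p.subgroupMap N) b) = push (p.subgroupMap N) b' := by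
    funext y
    unfold H74.infl
    rw [hker, Subgroup.card_bot, Nat.cast_one, inv_one, one_mul, push_eq, push_eq,
      ← Equiv.sum_comp η.toEquiv]
    apply Finset.sum_congr rfl
    intro n _
    have e1 : b' n = b (η n) := by
      rw [h, H46.ext0_of_mem _ (hN.conj_mem n n.2 g)]
      rfl
    rw [e1]
    by_cases h2 : p.subgroupMap N n = y
    · rw [if_pos h2, if_pos (show p.subgroupMap N (η.toEquiv n) = θ.toMonoidHom y by
        change p.subgroupMap N (η n) = θ y
        rw [← hθ, h2])]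
      rfl
    · rw [if_neg h2, if_neg (show ¬ p.subgroupMap N (η.toEquiv n) = θ.toMonoidHom y by
        intro h3
        apply h2
        apply θ.injective
        rw [hθ]
        exact h3)]
  have h2 := H74.infl_Pos hF θ.toMonoidHom θ.surjective (by rw [hker]; exact bot_le)
    (by rw [hker, Subgroup.card_bot]; exact Nat.coprime_one_left ℓ) _ ⊤ hpos
  rw [h1, Subgroup.comap_top] at h2
  exact h2

end relc

section main

variable {M : Ideal (integralClosure ℤ ℂ)} {A B : Type} [Group A] [Finite A] [Group B] [Finite B]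

/-- (R4) -/
theorem pos_rel (lemq : LemQStmt) (bid : BidStmt) (fld : FldStmt) {ℓ : ℕ} (hℓ : ℓ.Prime)
    [M.IsMaximal] (hM : (ℓ : integralClosure ℤ ℂ) ∈ M)
    {p : A →* B} (hp : Function.Surjective p) (hkO : p.ker = opCore ℓ A)
    (hc : p.ker ≤ Subgroup.center A) {N : Subgroup A} (hN : N.Normal) :
    letI := Ideal.Quotient.field M
    ∀ {χ : A → ℂ}, χ ∈ Irr A → ∀ {e : A → FF M}, IsBlk e → res M e χ = 1 →
      ∀ {ψ : N → ℂ}, ψ ∈ Irr N → (∑ᶠ n : N, χ n * starRingEnd ℂ (ψ n)) ≠ 0 →
      LargeDefect ℓ M ψ → Pos ℓ (push p e) (N.map p) := by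
  let _ := Ideal.Quotient.field M
  intro χ hχ e he he1 ψ hψ hχψ hL
  have hF : GoodF ℓ (FF M) := fld ℓ hℓ M hM
  obtain ⟨b, hb, hb1, -⟩ := bid ℓ hℓ M hM N ψ hψ
  have hq : Function.Surjective (p.subgroupMap N) := p.subgroupMap_surjective N
  have hqk : (p.subgroupMap N).ker = p.ker.subgroupOf N := by
    ext x
    rw [MonoidHom.mem_ker, Subgroup.mem_subgroupOf, MonoidHom.mem_ker]
    constructor
    · intro h
      exact congrArg Subtype.val h
    · intro h
      exact Subtype.ext h
  have hqO : (p.subgroupMap N).ker = opCore ℓ N := by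
    rw [hqk, hkO, opCore_sub hℓ hN]
  have hqp : IsPGroup ℓ (p.subgroupMap N).ker := by
    rw [hqO]
    exact opCore_isPGroup hℓ
  have hqc : (p.subgroupMap N).ker ≤ Subgroup.center N := by
    rw [hqk]
    intro x hx
    rw [Subgroup.mem_center_iff]
    intro y
    exact Subtype.ext (Subgroup.mem_center_iff.1 (hc hx) y)
  have hposb : Pos ℓ (push (p.subgroupMap N) b) (⊤ : Subgroup (N.map p)) :=
    pos_push hℓ hM hq hqO hqp hqc hψ hb hb1 hL
  apply H94.pos_of_blocks ℓ (N.map p) (push p e) (push_isCl hp he.1.1)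
  intro c hcb hne
  obtain ⟨b', hb', h1, h2⟩ := under_block hcb hne
  obtain ⟨g, hg⟩ := lemq M A N hN e he χ hχ he1 ψ hψ hχψ b b' hb hb1 hb' h2
  exact H46.pos_mono hcb.1 h1 (pos_conj hF hp hN hg hposb)

end main

end H75

end Pool.Agent.PP
end
end -- Pool.Agent.Helper75_PP.RelC

section -- Pool.Agent.Helper75_PP.Fin2

/-!
# Squad PP: the final theorem, relative form, in terms of ordinary characters
-/

open scoped BigOperators

set_option linter.unusedSectionVars false

noncomputable section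

namespace Pool.Agent.PP

open Pool.Agent.Helper51_AWC Pool.Agent.Helper79_WRA

/-- The conjecture holds at `ℓ` for the blocks of positive defect, faithful on the centre, of all
finite groups `D` with `O_ℓ(D) = 1` and `Z(D) ≤ [D, D]` such that `D / Z(D)` is almost simple with
socle of order divisible by `ℓ` involved in `N`, the outer part is a nilpotent group of order prime
to `ℓ` generated by two elements, and `D / Z(D)` is involved in `G`. -/
def GoodC2 (ℓ : ℕ) (M : Ideal (integralClosure ℤ ℂ)) {G : Type} [Group G] (N : Subgroup G) :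
    Prop :=
  ∀ (S : Type) [Group S] [Finite S], NonabSimple S → ℓ ∣ Nat.card S → Involves N S →
    ∀ (D : Type) [Group D] [Finite D], opCore ℓ D = ⊥ → Subgroup.center D ≤ commutator D →
      NearlySimpleF ℓ D S → Involves G (D ⧸ Subgroup.center D) →
      ∀ χ ∈ Irr D, (∀ z ∈ Subgroup.center D, χ z = χ 1 → z = 1) → LargeDefect ℓ M χ →
        altSum ℓ M χ = 0

/-- The final theorem, relative form. -/
def FinStmt2 : Prop := ∀ (ℓ : ℕ), ℓ.Prime → ∀ (M : Ideal (integralClosure ℤ ℂ)) [M.IsMaximal],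
  (ℓ : integralClosure ℤ ℂ) ∈ M → ∀ (G : Type) [Group G] [Finite G],
  opCore ℓ G ≤ Subgroup.center G → ∀ N : Subgroup G, N.Normal → GoodC2 ℓ M N →
  ∀ χ ∈ Irr G, ∀ ψ ∈ Irr N, (∑ᶠ n : N, χ n * starRingEnd ℂ (ψ n)) ≠ 0 → LargeDefect ℓ M ψ →
    altSum ℓ M χ = 0

namespace H75

/-- the final theorem, relative form -/
theorem fin2 (relq : RelQStmt) (lemq : LemQStmt) (add : AddStmt) (nls : NlsStmt) (brm : BrmStmt)
    (smt : SmtStmt) (nch : NchStmt) (dic : DicStmt) (bid : BidStmt) (chp : ChpStmt)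
    (ldp : LdpStmt) (fld : FldStmt) : FinStmt2 := by
  intro ℓ hℓ M _ hM G _ _ hc N hN hgood χ hχ ψ hψ hχψ hL
  let _ := Ideal.Quotient.field M
  have hfact := Fact.mk hℓ
  have hF : GoodF ℓ (FF M) := fld ℓ hℓ M hM
  have hn := opCore_normal (A := G) ℓ
  obtain ⟨e, he, h1, h2⟩ := bid ℓ hℓ M hM G χ hχ
  set p : G →* G ⧸ opCore ℓ G := QuotientGroup.mk' (opCore ℓ G) with hp
  have hker : p.ker = opCore ℓ G := QuotientGroup.ker_mk' _
  have hsurj : Function.Surjective p := QuotientGroup.mk'_surjective (opCore ℓ G)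
  have hkp : IsPGroup ℓ p.ker := by
    rw [hker]
    exact opCore_isPGroup hℓ
  have hkc : p.ker ≤ Subgroup.center G := by
    rw [hker]
    exact hc
  have hpos : Pos ℓ (push p e) (N.map p) :=
    pos_rel lemq bid fld hℓ hM hsurj hker hkc hN hχ he h1 hψ hχψ hL
  have heq := altSum_central nls brm smt nch dic hℓ M hM hF hsurj hker hkp hkc χ hχ e he h1 h2
  have hgoodQ : GoodQ ℓ (FF M) (N.map p) := by
    intro S _ _ hS hlS hNS D _ _ hO hD hinv hcc e' he' hcl hpos'
    apply add ℓ (FF M) hF D ⊤ inferInstance e' he'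
    intro f hf hef
    have hfe : mulF f e' = f := by
      rw [mulF_comm_cl hf.1.1]
      exact hef
    have hposf : Pos ℓ f ⊤ := H46.pos_mono hf.1 hfe hpos'
    obtain ⟨ϑ, hϑ, k1, k2, k3⟩ := block_case nls brm smt nch dic bid chp ldp fld hℓ hM hO hf hposf
    rw [← k3, hgood S hS hlS (hNS.of_surjective (p.subgroupMap N) (p.subgroupMap_surjective N)) D
      hO hcc hD (hinv.of_surjective p hsurj) ϑ hϑ (faithful_char hf hef hcl hϑ k1) k2, mul_zero]
  have h0 : YY ℓ (⊤ : Subgroup (G ⧸ opCore ℓ G)) (push p e) = 0 :=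
    relq ℓ (FF M) hF _ (N.map p) (hN.map p hsurj) hgoodQ _ (push_isIdem hsurj he.1) hpos
  rw [h0, mul_zero] at heq
  rcases mul_eq_zero.1 heq with h | h
  · exact absurd h (by exact_mod_cast (Nat.card_pos (α := G)).ne')
  · exact h

end H75

end Pool.Agent.PP
end
end -- Pool.Agent.Helper75_PP.Fin2

section -- Pool.Agent.Helper66_DF.FnlE

/-!
# Squad DF, module FNLE: the end of the proof of S1, in the group `D`
-/

open scoped BigOperators

noncomputable section

namespace Pool.Agent.DF

open Pool.Agent.Helper51_AWC Pool.Agent.Helper79_WRA Pool.Agent.Helper79_WRA.H91 Pool.Agent.PP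
open Pool.Agent.PP.H96

/-- FNL -/
theorem fnlE : FnlEStmt := by
  intro ℓ _ 𝒟 h𝒟 F _ hF D _ _ M hM hCM hZ hZM hg hlt f hf hp hdf htop
  have h0 : YY ℓ ⊤ f = 0 := htop (H94.pos2 ℓ F hF D M hM f hf hp)
  rw [← rel_eq_top hF M hM f hf, h0]
  intro c hc1 hc2 hc3 hc4
  have hcm := mem_chainsOn.1 hc1
  obtain ⟨t1, t2⟩ := H94.top_mem hcm.2.2 ⟨_, hcm.2.1⟩
  have htp : IsPGroup ℓ (top c) := (mem_psubIn.1 (hcm.1 t1)).2
  have hX1 := centralizer_top_le t2
  have hX2 : stab c ≤ Subgroup.normalizer ((top c : Subgroup D) : Set D) := by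
    intro x hx
    exact (H94.mem_stab'.1 hx) _ t1
  have hidem : IsIdem (fun t : stab c => br (top c) f t) :=
    (H20.brm ℓ F hF D (top c) (stab c) htp hX1 hX2).2.2 f hf
  have hcent : cent M c = Subgroup.centralizer ((top c : Subgroup D) : Set D) ⊓ M :=
    H46.cent_eq hc1 M
  have hposc : Pos ℓ (fun t : stab c => br (top c) f t) ((cent M c).subgroupOf (stab c)) := by
    rw [hcent]
    exact H66.ps1 ℓ F hF D (top c) M htp hM hc3 f hf hp (stab c) hX1 hX2
  have hnorm : ((cent M c).subgroupOf (stab c)).Normal := by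
    constructor
    intro x hx g
    rw [Subgroup.mem_subgroupOf] at hx ⊢
    exact Pool.Agent.Helper79_WRA.H46.conj_mem_cent hM g.2 hx
  have hcle : cent M c ≤ M := inf_le_left
  have hZX : Subgroup.center D ≤ stab c :=
    (Subgroup.center_le_centralizer _).trans hX1
  have hZc : Subgroup.center D ≤ cent M c := by
    rw [hcent]
    exact le_inf (Subgroup.center_le_centralizer _) hZM
  have hlt' : cent M c < M := by
    refine lt_of_le_of_ne hcle ?_
    intro h
    apply hc4
    -- `P` centralises `M`, so `P ≤ Z(D)` is an `ℓ'`-group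
    have h1 : top c ≤ Subgroup.center D := by
      rw [← hCM]
      intro x hx
      rw [Subgroup.mem_centralizer_iff]
      intro y hy
      have h2 : y ∈ cent M c := by rw [h]; exact hy
      exact ((H91.mem_cent.1 h2).2 _ t1 x hx).symm
    have h2 : Nat.card (top c) ∣ Nat.card (Subgroup.center D) := Subgroup.card_dvd_of_le h1
    by_contra hne
    have h3 : Nontrivial (top c) := (Subgroup.nontrivial_iff_ne_bot _).2 hne
    obtain ⟨n, hn, hn'⟩ := htp.nontrivial_iff_card.1 h3
    apply hZ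
    refine dvd_trans ?_ h2
    rw [hn']
    exact dvd_pow_self _ hn.ne'
  have hmu : mu ((cent M c).subgroupOf (stab c)) < mu M := by
    have h1 : mu ((cent M c).subgroupOf (stab c)) ≤ (Subgroup.center D).relIndex (cent M c) := by
      have h2 : ((Subgroup.center D).subgroupOf (stab c)) ≤ Subgroup.center (stab c) := by
        intro x hx
        rw [Subgroup.mem_center_iff]
        intro y
        exact Subtype.ext (Subgroup.mem_center_iff.1 hx y)
      have h3 : ((Subgroup.center D).subgroupOf (stab c)).relIndex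
          ((cent M c).subgroupOf (stab c)) = (Subgroup.center D).relIndex (cent M c) :=
        Subgroup.relIndex_subgroupOf (hcent ▸ (inf_le_left.trans hX1))
      unfold mu
      rw [← h3]
      apply Nat.le_of_dvd
      · exact Nat.pos_of_ne_zero Subgroup.index_ne_zero_of_finite
      · exact Subgroup.relIndex_dvd_of_le_left _ h2
    refine lt_of_le_of_lt h1 ?_
    unfold mu
    have h4 := Subgroup.relIndex_mul_relIndex _ _ _ hZc hcle
    have h5 : (cent M c).relIndex M ≠ 1 := by
      intro h6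
      rw [Subgroup.relIndex_eq_one] at h6
      exact absurd h6 (not_le_of_gt hlt')
    have h6 : (cent M c).relIndex M ≠ 0 := Subgroup.index_ne_zero_of_finite
    have h7 : (Subgroup.center D).relIndex (cent M c) ≠ 0 := Subgroup.index_ne_zero_of_finite
    rw [← h4]
    have h8 : 2 ≤ (cent M c).relIndex M := by omega
    nlinarith [Nat.pos_of_ne_zero h7]
  exact hlt _ _ hnorm hmu (hg.subgroupOf _ hcle) _ hidem hposc (hdf.br h𝒟 (top c) (by
    rw [Subgroup.subgroupOf_map_subtype]
    exact inf_le_left.trans hcle))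

end Pool.Agent.DF
end
end -- Pool.Agent.Helper66_DF.FnlE

section -- Pool.Agent.Helper66_DF.LqnE

/-!
# Squad DF, module LQNE: normal subgroups of index a power of `ℓ`
-/

open scoped BigOperators

noncomputable section

namespace Pool.Agent.DF

open Pool.Agent.Helper51_AWC Pool.Agent.Helper79_WRA Pool.Agent.PP Pool.Agent.PP.H17

/-- LQN -/
theorem lqnE (hOSI : OsiStmt) (hLQ : LqEStmt) : LqnEStmt := by
  classical
  intro ℓ hl 𝒟 h𝒟 F _ hF
  have key : ∀ (n : ℕ) (X : Type) [Group X] [Finite X] (Y X₀ : Subgroup X), Y.Normal → X₀.Normal →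
      Y ≤ X₀ → X₀.index = ℓ ^ n → ¬ ℓ ∣ Nat.card (Subgroup.centralizer (Y : Set X)) →
      (∀ (H : Type) [Group H] [Finite H] (i : H →* X) (Y' : Subgroup H), Function.Injective i →
        Y'.Normal → Y'.map i ≤ Y → mu Y' < mu Y → YHE ℓ 𝒟 F Y') →
      ∀ e : X → F, IsIdem e → Pos ℓ e Y → DfE ℓ 𝒟 e Y →
        YY ℓ (Y.subgroupOf X₀) (fun t : X₀ => e t) = 0 → YY ℓ Y e = 0 := by
    intro n
    induction n with
    | zero =>
      intro X _ _ Y X₀ _ _ hYX h0 _ _ e _ _ _ hYY
      rw [pow_zero, Subgroup.index_eq_one] at h0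
      rw [H75.YY_subgroup ℓ X₀ Y hYX e, h0] at hYY
      simp only [inf_top_eq] at hYY
      exact hYY
    | succ n ih =>
      intro X _ _ Y X₀ hY hX₀ hYX h0 hC hIH e he hpos hdf hYY
      obtain ⟨X₁, hX₁, h01, h1⟩ := exists_index X₀ h0
      have hYX₁ : Y ≤ X₁ := hYX.trans h01
      have hs : ∀ t, t ∉ X₁ → e t = 0 := by
        intro t ht
        apply hOSI ℓ F hF X e he t
        intro hreg
        exact ht (reg_mem hX₁ h1 hreg)
      refine hLQ ℓ 𝒟 h𝒟 F hF X Y X₁ hY hX₁ hYX₁ h1 hC hIH e he hpos hdf ?_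
      refine ih X₁ (Y.subgroupOf X₁) (X₀.subgroupOf X₁) (hY.subgroupOf X₁) (hX₀.subgroupOf X₁)
        (Subgroup.comap_mono hYX) ?_ ?_ ?_ (fun t : X₁ => e t) (idem_sub he hs)
        (pos_sub hYX₁ hpos) (hdf.sub h𝒟 (by
          rw [Subgroup.subgroupOf_map_subtype]
          exact inf_le_left)) ?_
      · have h2 : (X₀.subgroupOf X₁).index * X₁.index = X₀.index :=
          Subgroup.relIndex_mul_index h01
        rw [h1, h0, pow_succ] at h2
        exact Nat.eq_of_mul_eq_mul_right hl.out.pos h2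
      · intro hdiv
        apply hC
        refine hdiv.trans ?_
        let f : Subgroup.centralizer ((Y.subgroupOf X₁ : Subgroup X₁) : Set X₁) →*
            Subgroup.centralizer (Y : Set X) :=
          { toFun := fun z => ⟨z.1.1, by
              rw [Subgroup.mem_centralizer_iff]
              intro y hy
              have := Subgroup.mem_centralizer_iff.1 z.2 ⟨y, hYX₁ hy⟩ hy
              exact congrArg Subtype.val this⟩
            map_one' := rfl
            map_mul' := fun _ _ => rfl }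
        have hf : Function.Injective f := by
          intro a b hab
          have h3 : ((f a : Subgroup.centralizer (Y : Set X)) : X) = (f b : X) := by rw [hab]
          exact Subtype.ext (Subtype.ext h3)
        exact Subgroup.card_dvd_of_injective f hf
      · intro H _ _ i Y' hi hY' hle hmu
        refine hIH H (X₁.subtype.comp i) Y' (X₁.subtype_injective.comp hi) hY' ?_
          (lt_of_lt_of_le hmu (mu_subgroupOf Y X₁ hYX₁))
        rw [← Subgroup.map_map]
        calc (Y'.map i).map X₁.subtype ≤ (Y.subgroupOf X₁).map X₁.subtype := Subgroup.map_mono hle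
          _ ≤ Y := by
            rw [Subgroup.map_subgroupOf_eq_of_le hYX₁]
      · let φ : X₀.subgroupOf X₁ →* X := X₁.subtype.comp (X₀.subgroupOf X₁).subtype
        have hφ : Function.Injective φ :=
          X₁.subtype_injective.comp (X₀.subgroupOf X₁).subtype_injective
        have h2 := H75.YY_transport ℓ φ hφ
          ((Y.subgroupOf X₁).subgroupOf (X₀.subgroupOf X₁)) e
        have h3 : ((Y.subgroupOf X₁).subgroupOf (X₀.subgroupOf X₁)).map φ = Y := by
          have h5 : Y.subgroupOf X₁ ≤ X₀.subgroupOf X₁ := Subgroup.comap_mono hYX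
          rw [← Subgroup.map_map, Subgroup.map_subgroupOf_eq_of_le h5,
            Subgroup.map_subgroupOf_eq_of_le hYX₁]
        have h4 : φ.range = X₀ := by
          rw [MonoidHom.range_comp, Subgroup.range_subtype, Subgroup.map_subgroupOf_eq_of_le h01]
        rw [h3, h4, ← H75.YY_subgroup ℓ X₀ Y hYX e, hYY] at h2
        exact h2
  intro X _ _ Y X₀ hY hX₀ hYX ⟨n, hn⟩ hC hIH e he hpos hdf hYY
  exact key n X Y X₀ hY hX₀ hYX hn hC hIH e he hpos hdf hYY

end Pool.Agent.DF
end
end -- Pool.Agent.Helper66_DF.LqnE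

section -- Pool.Agent.Helper66_DF.LquE

/-!
# Squad DF, module LQUE: the end of the proof of S1 in the group `D`
-/

open scoped BigOperators

noncomputable section

namespace Pool.Agent.DF

open Pool.Agent.Helper51_AWC Pool.Agent.Helper79_WRA Pool.Agent.PP Pool.Agent.PP.H63

/-- normal subgroups of index prime to `ℓ` contain all `ℓ`-subgroups -/
theorem DfE.of_prime_index {ℓ : ℕ} (hℓ : ℓ.Prime) {𝒟 : (Q : Type) → [Group Q] → Prop} {F H : Type}
    [Field F] [Group H] [Finite H] {e : H → F} {N : Subgroup H} [N.Normal] (hN : ¬ ℓ ∣ N.index)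
    (h : DfE ℓ 𝒟 e N) : DfE ℓ 𝒟 e ⊤ := by
  intro Q _ hp hg
  exact h Q (H66.pgroup_le hℓ hp hN) hp hg

/-- LQU -/
theorem lquE (hOSI : OsiStmt) (hLQN : LqnEStmt) (hFNL : FnlEStmt) : LquEStmt := by
  classical
  intro ℓ hl 𝒟 h𝒟 F _ hF S _ _ hS D _ _ M hM hO hns hCM hZ hZM hmu hgood hY hyp f hf hfaith hpos
    hdf
  obtain ⟨⟨m, hm⟩, hv⟩ := H96.lqv (S := S) hS hO hns hM hCM hZM hmu
  obtain ⟨D₀, hle, hD₀, hrel, n, hn⟩ := exists_D0 hM hm ℓ
  obtain ⟨h1, h2, hc, -, h5⟩ := hv D₀ hle hD₀ hrel
  have hs : ∀ t, t ∉ D₀ → f t = 0 := by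
    intro t ht
    apply hOSI ℓ F hF D f hf t
    intro hreg
    exact ht (reg_mem_pow hD₀ hn hreg)
  have hf₀ : IsIdem (fun t : D₀ => f t) := H17.idem_sub hf hs
  have hpos₀ : Pos ℓ (fun t : D₀ => f t) (M.subgroupOf D₀) := H17.pos_sub hle hpos
  have hdf₀ : DfE ℓ 𝒟 (fun t : D₀ => f t) (M.subgroupOf D₀) := hdf.sub h𝒟 (by
    rw [Subgroup.subgroupOf_map_subtype]
    exact inf_le_left)
  have hcardZ : Nat.card (Subgroup.center D₀) ∣ Nat.card (Subgroup.center D) := by
    rw [hc]
    exact Subgroup.card_comap_dvd_of_injective _ _ D₀.subtype_injective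
  have hrel' : ¬ ℓ ∣ (M.subgroupOf D₀).index := hrel
  have hMn₀ : (M.subgroupOf D₀).Normal := hM.subgroupOf D₀
  have hmu₀ : mu (M.subgroupOf D₀) = mu M := mu_subgroupOf_eq hle hc
  have hstep : YY ℓ (M.subgroupOf D₀) (fun t : D₀ => f t) = 0 := by
    refine hFNL ℓ 𝒟 h𝒟 F hF D₀ (M.subgroupOf D₀) (hM.subgroupOf D₀) ?_ ?_ ?_ ?_ ?_ _ hf₀ hpos₀
      hdf₀ ?_
    · apply le_antisymm
      · intro x hx
        rw [hc, Subgroup.mem_subgroupOf, ← hCM, Subgroup.mem_centralizer_iff]
        intro y hy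
        exact congrArg Subtype.val
          (Subgroup.mem_centralizer_iff.1 hx ⟨y, hle hy⟩ hy)
      · exact Subgroup.center_le_centralizer _
    · exact fun h => hZ (h.trans hcardZ)
    · rw [hc]
      intro x hx
      exact hZM hx
    · exact hgood.subgroupOf D₀ le_rfl
    · rw [hmu₀]
      exact hY
    · intro hp
      refine hyp D₀ D₀.subtype D₀.subtype_injective h1 h2 _ hf₀ (h5 F f hfaith) hp ?_
      exact DfE.of_prime_index hl.out hrel' hdf₀
  refine hLQN ℓ 𝒟 h𝒟 F hF D M D₀ hM hD₀ hle ⟨n, hn⟩ ?_ ?_ f hf hpos hdf hstep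
  · rw [hCM]
    exact hZ
  · intro H _ _ i Y' hi hY' hYM hmu'
    refine hY H Y' hY' hmu' ?_
    refine hgood.of_central i ?_ hYM
    rw [(MonoidHom.ker_eq_bot_iff i).2 hi]
    exact bot_le

end Pool.Agent.DF
end
end -- Pool.Agent.Helper66_DF.LquE

section -- Pool.Agent.Helper76_DF.VstE

/-!
# Squad DF, module VE: outer parts generated by two elements, with control of the defect groups
-/

open scoped BigOperators

noncomputable section

namespace Pool.Agent.DF.H76

open Pool.Agent.Helper51_AWC Pool.Agent.Helper79_WRA Pool.Agent.PP Pool.Agent.PP.H94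
open Pool.Agent.PP.H66 (card_lt inv_trans YY_top_eq posx)
open Pool.Agent.DF

/-- VE -/
theorem vstE (main : MainEStmt) (hAdd : AddStmt) (hFr : FrStmt) (hPs5 : Ps5Stmt)
    (hSum : SumStmt) (hDbln : DblnEStmt) (hCov : CovEStmt) (hRst : RstStmt) : VEStmt := by
  intro ℓ _ 𝒟 h𝒟 F _ hF H _ _ N hN hg
  suffices key : ∀ n : ℕ, ∀ (S : Type) [Group S] [Finite S], NonabSimple S → ℓ ∣ Nat.card S →
      Involves N S → ∀ (D : Type) [Group D] [Finite D], Nat.card (D ⧸ Subgroup.center D) = n →
      opCore ℓ D = ⊥ → NearlySimpleL ℓ D S → Involves H (D ⧸ Subgroup.center D) →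
      ∀ e : D → F, IsIdem e →
      (∀ z ∈ Subgroup.center D, z ≠ 1 → ∃ c : F, c ≠ 1 ∧ ∀ x, e (z * x) = c * e x) →
      Pos ℓ e ⊤ → DfE ℓ 𝒟 e ⊤ → YY ℓ ⊤ e = 0 by
    intro S _ _ hS hd hI D _ _ hO hns hID e he hz hp hdf
    exact key _ S hS hd hI D rfl hO hns hID e he hz hp hdf
  intro n
  induction n using Nat.strong_induction_on with
  | _ n IH =>
  intro S _ _ hS hd hI D _ _ hn hO hns hID e0 he0 hz0 hp0 hd0
  obtain ⟨T0, hT1, hT2, hT3, hT4, hT5⟩ := hns
  by_cases h2 : ∃ a b : D ⧸ Subgroup.center D, T0 ⊔ Subgroup.closure {a, b} = ⊤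
  · exact hg S hS hd hI D hO ⟨T0, hT1, hT2, hT3, hT4, hT5, h2⟩ hID e0 he0 hz0 hp0 hd0
  have hMn : (T0.comap (QuotientGroup.mk' (Subgroup.center D))).Normal := hT1.comap _
  set M : Subgroup D := T0.comap (QuotientGroup.mk' (Subgroup.center D)) with hM
  have hMi : ¬ ℓ ∣ M.index := by
    rw [hM, Subgroup.index_comap_of_surjective _ (QuotientGroup.mk'_surjective _)]
    exact hT5
  -- the involved simple groups
  have hMS : ∀ (S' : Type) [Group S'], NonabSimple S' → Involves M S' → Involves N S' := by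
    intro S' _ hS' hI'
    obtain ⟨ε⟩ := hT3
    let q : M →* T0 := ((QuotientGroup.mk' (Subgroup.center D)).comp M.subtype).codRestrict T0
      fun x => x.2
    have hq : q.ker ≤ Subgroup.center M := by
      intro x hx
      have h1 : QuotientGroup.mk' (Subgroup.center D) (x : D) = 1 := congrArg Subtype.val hx
      have h3 : (x : D) ∈ Subgroup.center D := (QuotientGroup.eq_one_iff _).1 h1
      rw [Subgroup.mem_center_iff]
      intro y
      exact Subtype.ext (Subgroup.mem_center_iff.1 h3 y)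
    exact inv_trans hI ((hI'.of_central hS' q hq).of_equiv ε)
  -- the induction
  have good : ∀ (L H₁ : Type) [Group L] [Group H₁] (p : L →* D ⧸ Subgroup.center D),
      p.ker ≤ Subgroup.center L → p.range ≠ ⊤ → ∀ Q : Subgroup H₁,
      (∀ (S' : Type) [Group S'], NonabSimple S' → Involves Q S' → Involves N S') →
      (∀ (A S' : Type) [Group A] [Group S'] (T' : Subgroup A), IsSocle T' S' → Involves H₁ A →
        Involves L A) → GoodPE ℓ 𝒟 F Q := by
    intro L H₁ _ _ p hpk hpr Q hQS hQL S' _ _ hS' hd' hI' D' _ _ hO' hns' hID' e' he' hz' hp' hdf'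
    obtain ⟨T', hT'⟩ := hns'.nearlySimple.socle hS'
    have h3 : Involves L (D' ⧸ Subgroup.center D') := hQL _ S' T' hT' hID'
    have h4 : Involves p.range (D' ⧸ Subgroup.center D') := by
      refine hT'.involves_central p.rangeRestrict ?_ h3
      rw [MonoidHom.ker_rangeRestrict]
      exact hpk
    refine IH (Nat.card (D' ⧸ Subgroup.center D')) ?_ S' hS' hd' (hQS S' hS' hI') D' rfl hO' hns'
      (inv_trans hID h4.of_subgroup) e' he' hz' hp' hdf'
    rw [← hn]
    exact card_lt hpr h4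
  -- reduction to blocks
  refine hAdd ℓ F hF D ⊤ inferInstance e0 he0 fun e he hee => ?_
  have hde : DfE ℓ 𝒟 e ⊤ := hd0.le hF he0.1 he.1.1 hee
  have hp : Pos ℓ e ⊤ := hPs5 ℓ F hF D ⊤ inferInstance e0 e he0 he.1 hee hp0
  obtain ⟨b, hb0, hb, hbe⟩ := H46.exists_blk he.2.1 M
  obtain ⟨f1, f2, f3, f4⟩ := hFr ℓ F hF D M ⊤ hMn inferInstance le_top e he hp b hb0 hb hbe
    (stabF b) (fun g => Iff.rfl)
  rw [f4]
  set T := stabF b with hT
  have hMT : M ≤ T := by
    intro g hgN x
    by_cases hx : x ∈ M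
    · exact hb.1.1 ⟨x, hx⟩ ⟨g, hgN⟩
    · have hx' : g * x * g⁻¹ ∉ M := by
        intro h
        apply hx
        have := hMn.conj_mem _ h g⁻¹
        have e2 : g⁻¹ * (g * x * g⁻¹) * g⁻¹⁻¹ = x := by group
        rwa [e2] at this
      rw [hb0 _ hx, hb0 _ hx']
  let MT : Subgroup T := M.subgroupOf T
  have hMTn : MT.Normal := hMn.subgroupOf T
  let ι : MT ≃* M := Subgroup.subgroupOfEquivOfLe hMT
  let bT : T → F := fun t => b t
  have hbTM : IsBlk (fun t : MT => bT t) := H18.blk_equiv ι hb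
  have hbT0 : ∀ x, x ∉ MT → bT x = 0 := fun x hx => hb0 x (fun h => hx h)
  have hbTc : IsCl bT := fun x y => y.2 x
  have hsb : SBlk MT bT := ⟨hbT0, hbTc, hbTM⟩
  let eT : T → F := fun t => mulF e b t
  have hbb : mulF b b = b := by
    have h1 := H75.mulF_res M b hb0
    funext x
    by_cases hx : x ∈ M
    · have h2 := congrFun h1 ⟨x, hx⟩
      have h3 : mulF b b x = mulF (fun t : M => b t) (fun t : M => b t) ⟨x, hx⟩ := h2
      rw [h3, hb.1.2]
    · rw [hb0 x hx]
      exact H75.mulF_supp M hb0 hb0 x hx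
  have hmul : mulF eT bT = eT := by
    have h1 := H75.mulF_res T (a := mulF e b) b f1
    have h2 : mulF (mulF e b) b = mulF e b := by
      apply ma_injective
      rw [ma_mul, ma_mul, mul_assoc, ← ma_mul, hbb]
    rw [h2] at h1
    exact h1.symm
  have heT : eT ≠ 0 := by
    intro h0
    apply hbe
    funext x
    by_cases hx : x ∈ T
    · exact congrFun h0 ⟨x, hx⟩
    · exact f1 x hx
  -- control of the defect groups
  have hbM : ∀ n ∈ M, ∀ t, b (n * t * n⁻¹) = b t := fun n hn t => hMT hn t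
  have hdT : DfE ℓ 𝒟 eT MT := by
    refine (DfE.factor hF (a := e) (b := b) (fun n _ t => he.1.1 t n) hbM
      (hde.mono le_top)).sub h𝒟 (N' := MT) ?_
    rw [Subgroup.subgroupOf_map_subtype]
    exact inf_le_left
  have hdb : DfE ℓ 𝒟 bT MT := fun Q hQ hq hx =>
    hdT Q hQ hq (hCov ℓ F hF T MT hMTn bT hsb eT f2 heT hmul Q hQ hq hx)
  have htop : (⊤ : Subgroup D).subgroupOf T = ⊤ := Subgroup.top_subgroupOf T
  rw [htop] at f3 ⊢
  have hMTi : ¬ ℓ ∣ MT.index := by
    intro h
    exact hMi (h.trans (Subgroup.relIndex_dvd_index_of_normal M T))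
  rw [YY_top_eq (Fact.out : ℓ.Prime) hMTi]
  have hndz : ¬ DZ ℓ (fun t : MT => bT t) := fun hdz =>
    heT (posx hF MT hMTi hbT0 hbTc hdz f2 hmul f3)
  obtain ⟨τ, hτ⟩ := H59.exists_lift ℓ F hF
  have hall : DAll τ ℓ MT bT := by
    intro x y hx hxy
    set L : Subgroup T := MT ⊔ Subgroup.closure {x, y} with hL
    have hML : MT ≤ L := le_sup_left
    have hxL : x ∈ L := (le_sup_right : _ ≤ L) (Subgroup.subset_closure (Set.mem_insert _ _))
    have hyL : y ∈ L := (le_sup_right : _ ≤ L)
      (Subgroup.subset_closure (Set.mem_insert_of_mem _ rfl))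
    obtain ⟨r1, r2, r3⟩ := hRst ℓ F hF τ T MT hMTn bT hsb L hML
    refine r3 ⟨x, hxL⟩ ⟨y, hyL⟩ ?_
    let j : MT.subgroupOf L ≃* MT := Subgroup.subgroupOfEquivOfLe hML
    have hdzL : ¬ DZ ℓ (fun t : MT.subgroupOf L => (fun t : L => bT t) t) := by
      intro h
      exact hndz (dz_equiv j h)
    have hYn : (MT.subgroupOf L).Normal := hMTn.subgroupOf L
    have hdL : DfE ℓ 𝒟 (fun t : L => bT t) (MT.subgroupOf L) := by
      refine hdb.sub h𝒟 (N' := MT.subgroupOf L) ?_
      rw [Subgroup.subgroupOf_map_subtype]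
      exact inf_le_left
    refine hDbln ℓ 𝒟 h𝒟 F hF τ hτ L (MT.subgroupOf L) hYn _ r1 hdzL hdL ?_ _ _ ?_ ?_
    · intro H₁ _ _ Q₁ hQ₁ hiso hmu hnil hemb
      obtain ⟨ε⟩ := hiso
      obtain ⟨i, hi⟩ := hemb
      refine main ℓ 𝒟 h𝒟 F hF H₁ Q₁ hQ₁ (good L H₁
        ((QuotientGroup.mk' (Subgroup.center D)).comp (T.subtype.comp L.subtype)) ?_ ?_ Q₁ ?_ ?_)
      · intro z hz
        have h1 : QuotientGroup.mk' (Subgroup.center D) ((z : T) : D) = 1 := hz
        have h3 : ((z : T) : D) ∈ Subgroup.center D := (QuotientGroup.eq_one_iff _).1 h1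
        rw [Subgroup.mem_center_iff]
        intro w
        exact Subtype.ext (Subtype.ext (Subgroup.mem_center_iff.1 h3 w))
      · intro htop'
        apply h2
        refine ⟨QuotientGroup.mk' (Subgroup.center D) (x : D),
          QuotientGroup.mk' (Subgroup.center D) (y : D), ?_⟩
        rw [eq_top_iff, ← htop']
        rintro _ ⟨w, rfl⟩
        have h3 : L ≤ (T0 ⊔ Subgroup.closure {QuotientGroup.mk' (Subgroup.center D) (x : D),
            QuotientGroup.mk' (Subgroup.center D) (y : D)}).comap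
            ((QuotientGroup.mk' (Subgroup.center D)).comp T.subtype) := by
          rw [hL]
          refine sup_le ?_ ?_
          · intro v hv
            exact (le_sup_left : T0 ≤ _) hv
          · rw [Subgroup.closure_le]
            rintro v (rfl | rfl)
            · exact (le_sup_right : _ ≤ T0 ⊔ _) (Subgroup.subset_closure (Set.mem_insert _ _))
            · exact (le_sup_right : _ ≤ T0 ⊔ _)
                (Subgroup.subset_closure (Set.mem_insert_of_mem _ rfl))
        exact h3 w.2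
      · intro S' _ hS' hI'
        exact hMS S' hS' ((hI'.of_equiv ((ε.trans j).trans ι)))
      · intro A S' _ _ T' hT' hA
        exact hT'.involves_prod i hi hA
    · obtain ⟨s, hs, h3⟩ := hx
      exact ⟨s, hs, (r2 _).2 h3⟩
    · rw [r2]
      exact hxy
  rw [hSum ℓ F hF τ hτ T MT hMTn bT hsb hall eT f2 hmul, mul_zero]

end Pool.Agent.DF.H76
end
end -- Pool.Agent.Helper76_DF.VstE

section -- Pool.Agent.Helper86_DF.S1gE

/-!
# Squad DF, module S1GE: the case of a simple chief factor, arbitrary outer part, with control of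
the defect groups
-/

open scoped BigOperators

noncomputable section

namespace Pool.Agent.DF.H86

open Pool.Agent.Helper51_AWC Pool.Agent.Helper79_WRA Pool.Agent.PP Pool.Agent.DF

/-- S1GE -/
theorem s1gE (hS1n : S1nEStmt) (hDbln : DblnEStmt) (hCov : CovEStmt) (hAdd : AddStmt)
    (hFr : FrStmt) (hPs3 : Ps3Stmt) (hSum : SumStmt) : S1EStmt := by
  intro ℓ _ 𝒟 h𝒟 F _ hF G _ _ N hN hO hNA hg hlt e0 he0 hp0 hd0
  apply hAdd ℓ F hF G N hN e0 he0
  intro e he hee
  have hd : DfE ℓ 𝒟 e N := hd0.le hF he0.1 he.1.1 hee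
  have hp : Pos ℓ e N := H46.pos_mono he.1 (by rw [H46.mulF_comm he.1.1, hee]) hp0
  obtain ⟨b, hb0, hb, hbe⟩ := H46.exists_blk he.2.1 N
  obtain ⟨f1, f2, f3, f4⟩ := hFr ℓ F hF G N N hN hN le_rfl e he hp b hb0 hb hbe (stabF b)
    (fun g => Iff.rfl)
  rw [f4]
  set T := stabF b with hT
  have hNT : N ≤ T := by
    intro g hgN x
    by_cases hx : x ∈ N
    · exact hb.1.1 ⟨x, hx⟩ ⟨g, hgN⟩
    · have hx' : g * x * g⁻¹ ∉ N := by
        intro h
        apply hx
        have := hN.conj_mem _ h g⁻¹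
        have e2 : g⁻¹ * (g * x * g⁻¹) * g⁻¹⁻¹ = x := by group
        rwa [e2] at this
      rw [hb0 _ hx, hb0 _ hx']
  let M : Subgroup T := N.subgroupOf T
  have hM : M.Normal := hN.subgroupOf T
  let ι : M ≃* N := Subgroup.subgroupOfEquivOfLe hNT
  let bT : T → F := fun t => b t
  have hbTM : IsBlk (fun t : M => bT t) := H18.blk_equiv ι hb
  have hbT0 : ∀ x, x ∉ M → bT x = 0 := fun x hx => hb0 x (fun h => hx h)
  have hbTc : IsCl bT := fun x y => y.2 x
  have hsb : SBlk M bT := ⟨hbT0, hbTc, hbTM⟩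
  let eT : T → F := fun t => mulF e b t
  have hbb : mulF b b = b := by
    have h1 := H75.mulF_res N b hb0
    funext x
    by_cases hx : x ∈ N
    · have h2 := congrFun h1 ⟨x, hx⟩
      have h3 : mulF b b x = mulF (fun t : N => b t) (fun t : N => b t) ⟨x, hx⟩ := h2
      rw [h3, hb.1.2]
    · rw [hb0 x hx]
      exact H75.mulF_supp N hb0 hb0 x hx
  have hmul : mulF eT bT = eT := by
    have h1 := H75.mulF_res T (a := mulF e b) b f1
    have h2 : mulF (mulF e b) b = mulF e b := by
      apply ma_injective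
      rw [ma_mul, ma_mul, mul_assoc, ← ma_mul, hbb]
    rw [h2] at h1
    exact h1.symm
  have heT : eT ≠ 0 := by
    intro h0
    apply hbe
    funext x
    by_cases hx : x ∈ T
    · exact congrFun h0 ⟨x, hx⟩
    · exact f1 x hx
  -- control of the defect groups
  have hbN : ∀ n ∈ N, ∀ t, b (n * t * n⁻¹) = b t := fun n hn t => hNT hn t
  have hdT : DfE ℓ 𝒟 eT M := by
    refine (DfE.factor hF (a := e) (b := b) (fun n _ t => he.1.1 t n) hbN hd).sub h𝒟 (N' := M) ?_
    rw [Subgroup.subgroupOf_map_subtype]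
    exact inf_le_left
  have hdb : DfE ℓ 𝒟 bT M := fun Q hQ hq hx =>
    hdT Q hQ hq (hCov ℓ F hF T M hM bT hsb eT f2 heT hmul Q hQ hq hx)
  obtain ⟨τ, hτ⟩ := H59.exists_lift ℓ F hF
  have hmuM : mu M ≤ mu N := by
    have h1 : (Subgroup.center G).subgroupOf T ≤ Subgroup.center T := by
      intro x hx
      rw [Subgroup.mem_center_iff]
      intro y
      exact Subtype.ext (Subgroup.mem_center_iff.1 (Subgroup.mem_subgroupOf.1 hx) y)
    have h2 : ((Subgroup.center G).subgroupOf T).relIndex M = (Subgroup.center G).relIndex N :=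
      Subgroup.relIndex_subgroupOf hNT
    unfold mu
    rw [← h2]
    apply Nat.le_of_dvd
    · exact Nat.pos_of_ne_zero Subgroup.index_ne_zero_of_finite
    · exact Subgroup.relIndex_dvd_of_le_left _ h1
  have hall : DAll τ ℓ M bT := by
    refine hDbln ℓ 𝒟 h𝒟 F hF τ hτ T M hM bT hsb ?_ hdb ?_
    · intro hdz
      apply heT
      refine (hPs3 ℓ F hF T M hM (fun t : M => bT t) hbTM ?_ eT f2 ?_).2 hdz f3
      · rw [H46.ext0_restr hbT0]
        rw [eq_top_iff]
        intro g _ x
        exact hbTc x g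
      · rw [H46.ext0_restr hbT0]
        exact hmul
    · intro H₁ _ _ Q hQ hiso hmu hnil hemb
      obtain ⟨ε⟩ := hiso
      obtain ⟨i, hi⟩ := hemb
      obtain ⟨k1, k2⟩ := H96.simple_transfer hNA (ε.trans ι) (hmu.trans hmuM)
      refine hS1n ℓ 𝒟 h𝒟 F hF H₁ Q hQ (H96.opCore_bot_of_equiv (ε.trans ι) hO) k1 hnil
        ((hg.subgroupOf T le_rfl).of_prod i hi ε.toMonoidHom ε.injective) ?_
      rw [k2]
      exact hlt
  rw [hSum ℓ F hF τ hτ T M hM bT hsb hall eT f2 hmul, mul_zero]

end Pool.Agent.DF.H86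
end
end -- Pool.Agent.Helper86_DF.S1gE
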