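import Pool.Agent.Helper12_AWB.B070
import Pool.Agent.Helper12_AWB.B075
import Pool.Agent.Helper12_AWB.B076
import Pool.Agent.Helper12_AWB.B077
import Pool.Agent.Helper12_AWB.B089
import Pool.Agent.Helper12_AWB.B091
import Pool.Agent.Helper12_AWB.B092
import Pool.Agent.Helper12_AWB.B093
import Pool.Agent.Helper12_AWB.B094
import Pool.Agent.Helper12_AWB.B096
import Pool.Agent.Helper12_AWB.B097
import Pool.Agent.Helper12_AWB.B111
import Pool.Agent.Helper12_AWB.B113
import Pool.Agent.Helper12_AWB.B147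
import Pool.Agent.Helper12_AWB.B149
import Pool.Agent.Helper12_AWB.B156
import Pool.Agent.Helper50_PP.Dic

/-!
# Merged copies (generated) of the modules

* `Pool.Agent.Helper46_PP.Db1`
* `Pool.Agent.Helper96_PP.Asm`
* `Pool.Agent.Helper27_D1.Fd1`
* `Pool.Agent.Helper29_D2.Fd2`
* `Pool.Agent.Helper66_DF.DblE`
-/

set_option autoImplicit false

section -- Pool.Agent.Helper46_PP.Db1

/-!
# Squad PP, module DB1 (AWC_J 7.4, 7.5): the double and the idempotent `E₀`
-/

open scoped BigOperators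

set_option linter.unusedSectionVars false

noncomputable section

namespace Pool.Agent.PP.H46

open Pool.Agent.PP

variable {F X : Type} [Field F] [Group X] [Finite X] {Y : Subgroup X} [hY : Y.Normal]
  {f : X → F} {H : Subgroup (X ⧸ Y)} [Fintype H] {E : Lam Y → F} {ℓ : ℕ}

section fin

variable {n : ℕ} {w : (Lam Y → F) →ₗ[F] F}

theorem w_sel (hF : IsAlgClosed F) (hf : SBlk Y f) (hH : H ≤ Jb f Y)
    (hc : (Fintype.card H : F) ≠ 0) (hw : IsW f Y w) : w (sel f Y H) = 1 := by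
  unfold sel
  rw [map_smul, map_sum]
  have h1 : ∀ q : H, w (sg f Y (q : X ⧸ Y)) = 1 := fun q => w_sg hF hf hw (hH q.2)
  simp_rw [h1]
  rw [Finset.sum_const, Finset.card_univ, nsmul_eq_mul, mul_one, smul_eq_mul, inv_mul_cancel₀ hc]

theorem w_E (hF : GoodF ℓ F) (hf : SBlk Y f) (hE : IsE f Y H E)
    (hc : (Fintype.card H : F) ≠ 0) (hw : IsW f Y w) : w E = 1 := by
  have h1 := W_J1 hF hf (W0_irr hF.closed hf hw) (E_DE hE) (sel_DE hf hE.le) hE.sub
  rw [W0_apply, W0_apply, w_sel hF.closed hf hE.le hc hw] at h1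
  have h2 := congrFun (congrFun h1 0) 0
  simpa using h2

/-- the character `ω₀` -/
def om0 (f : X → F) (Y : Subgroup X) [Y.Normal] (w : (Lam Y → F) →ₗ[F] F) : (Lam Y → F) → F :=
  H58.omW (sig Y f f) (YY2 Y) (fstP Y (XF f Y)) (W0 w)

theorem om0_apply {d : Lam Y → F} (hd : DE (sig Y f f) (YY2 Y) (fstP Y (XF f Y)) d) :
    om0 f Y w d = w d := by
  unfold om0
  rw [H58.omW_of hd, W0_apply, Matrix.trace_smul, Matrix.trace_one]
  simp

theorem om0_E (hF : GoodF ℓ F) (hf : SBlk Y f) (hE : IsE f Y H E)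
    (hc : (Fintype.card H : F) ≠ 0) (hw : IsW f Y w) {d : Lam Y → F}
    (hd : DE (sig Y f f) (YY2 Y) (fstP Y (XF f Y)) d) :
    om0 f Y w (mulF E d) = om0 f Y w d := by
  rw [om0_apply hd, om0_apply (H76.DE.mul (E_DE hE) hd), w_mul hF.closed hf hw (E_DE hE) hd,
    w_E hF hf hE hc hw, one_mul]

theorem om0_mem (hF : GoodF ℓ F) (hf : SBlk Y f) (hE : IsE f Y H E)
    (hc : (Fintype.card H : F) ≠ 0) (hw : IsW f Y w) (p q : Lam Y) :
    om0 f Y w ∈ omS (sig Y f f) (YY2 Y) (fstP Y (XF f Y)) E p q := by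
  have hg := sblk_sig (Y := Y) hF.closed hf
  refine ⟨⟨1, W0 w, W0_irr hF.closed hf hw, rfl⟩, fun d hd => om0_E hF hf hE hc hw hd,
    fun d hd => ?_, fun d hd => ?_⟩
  · rw [om0_apply hd, om0_apply (H58.DE_cj hg normal_YY2 (M_normal hf) hd p),
      w_cj hF.closed hf hw p hd]
  · rw [om0_apply hd, om0_apply (H58.DE_cj hg normal_YY2 (M_normal hf) hd q),
      w_cj hF.closed hf hw q hd]

theorem W_E' {m : ℕ} {W : (Lam Y → F) →ₗ[F] Matrix (Fin m) (Fin m) F}
    (hW : IrrD (sig Y f f) (YY2 Y) (fstP Y (XF f Y)) W) (hE : IsE f Y H E)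
    (hω : ∀ d, DE (sig Y f f) (YY2 Y) (fstP Y (XF f Y)) d →
      H58.omW (sig Y f f) (YY2 Y) (fstP Y (XF f Y)) W (mulF E d) =
        H58.omW (sig Y f f) (YY2 Y) (fstP Y (XF f Y)) W d) : W E = 1 := by
  apply W_E hW hE
  intro d hd
  have h := hω d hd
  rwa [H58.omW_of hd, H58.omW_of (H76.DE.mul (E_DE hE) hd)] at h

theorem omS_eq (hF : GoodF ℓ F) (hf : SBlk Y f) (hE : IsE f Y H E)
    (hc : (Fintype.card H : F) ≠ 0) (hn : H.Normal) (hp : ∀ q ∈ Jb f Y, q ^ (ℓ ^ n) ∈ H)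
    (hw : IsW f Y w) (p q : Lam Y) :
    omS (sig Y f f) (YY2 Y) (fstP Y (XF f Y)) E p q = {om0 f Y w} := by
  apply Set.eq_singleton_iff_unique_mem.2
  refine ⟨om0_mem hF hf hE hc hw p q, ?_⟩
  rintro ω ⟨⟨m, W, hW, hωW⟩, hω, -, -⟩
  have hωW' : ω = H58.omW (sig Y f f) (YY2 Y) (fstP Y (XF f Y)) W := hωW
  rw [hωW'] at hω ⊢
  have h1 := W_E' hW hE hω
  have hm := m_one hF hf hW hE h1 hn hp hw
  subst hm
  funext d
  by_cases hd : DE (sig Y f f) (YY2 Y) (fstP Y (XF f Y)) d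
  · rw [H58.omW_of hd, om0_apply hd, W_eq hF hf hW hE h1 hn hp hw hd, Matrix.trace_smul,
      Matrix.trace_one]
    simp
  · unfold om0
    rw [H58.omW_not hd, H58.omW_not hd]

theorem w_sig (hF : IsAlgClosed F) (hf : SBlk Y f) (hw : IsW f Y w) {p : Lam Y} {v v' : X → F}
    (h : IsUnitOver f Y p.1.1 v v') : DE (sig Y f f) (YY2 Y) (fstP Y (XF f Y)) (sig Y v v') ∧
      w (sig Y v v') = 1 := by
  have hp : p ∈ fstP Y (XF f Y) := (J74.mem_XF hY hf _).2 ⟨_, _, h⟩
  have h1 := (unit_sig hf h).left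
  have h2 := w_J1 hF hf hw hp (h1.sub (sg_unit hf hp).left) (sg_can hF hf h)
  have hj : (p.1.1 : X ⧸ Y) ∈ Jb f Y := ⟨_, hp, rfl⟩
  rw [map_sub, w_sg hF hf hw hj, sub_eq_zero] at h2
  exact ⟨H58.CE_DE (N_le_M hf) hp h1, h2⟩

theorem sW_eq (hF : GoodF ℓ F) (hf : SBlk Y f) (hE : IsE f Y H E)
    (hc : (Fintype.card H : F) ≠ 0) (hn : H.Normal) (hp : ∀ q ∈ Jb f Y, q ^ (ℓ ^ n) ∈ H)
    (hw : IsW f Y w) (p q : Lam Y) {v v' : X → F}
    (h : IsUnitOver f Y (p.1.1 * q.1.1 * p.1.1⁻¹ * q.1.1⁻¹) v v') :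
    sW (sig Y f f) (YY2 Y) (fstP Y (XF f Y)) (om0 f Y w) p q (sig Y v v') = 1 := by
  classical
  obtain ⟨hd, hu⟩ := w_sig (p := p * q * p⁻¹ * q⁻¹) hF.closed hf hw h
  have hex : IsSW (sig Y f f) (YY2 Y) (fstP Y (XF f Y)) (om0 f Y w) p q (sig Y v v') 1 := by
    refine ⟨1, W0 w, 1, 1, W0_irr hF.closed hf hw, rfl, ⟨isUnit_one, fun d hd => ?_⟩,
      ⟨isUnit_one, fun d hd => ?_⟩, ?_⟩
    · rw [one_mul, mul_one, W0_apply, W0_apply, w_cj hF.closed hf hw p hd]
    · rw [one_mul, mul_one, W0_apply, W0_apply, w_cj hF.closed hf hw q hd]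
    · rw [W0_apply, hu, one_smul, one_smul, one_mul, mul_one]
  have huni : ∀ c, IsSW (sig Y f f) (YY2 Y) (fstP Y (XF f Y)) (om0 f Y w) p q (sig Y v v') c →
      c = 1 := by
    rintro c ⟨m, W, A, B, hW, hωW, hA, hB, hAB⟩
    have hωW' : om0 f Y w = H58.omW (sig Y f f) (YY2 Y) (fstP Y (XF f Y)) W := hωW
    have h1 : W E = 1 := by
      apply W_E' hW hE
      intro d hd
      rw [← hωW', om0_E hF hf hE hc hw hd]
    have hm := m_one hF hf hW hE h1 hn hp hw
    subst hm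
    rw [W_eq hF hf hW hE h1 hn hp hw hd, hu, one_smul, one_mul] at hAB
    have h2 : A * B = B * A := by
      ext i j
      fin_cases i
      fin_cases j
      simp [Matrix.mul_apply, mul_comm]
    rw [h2] at hAB
    obtain ⟨U, hU⟩ := hB.1.mul hA.1
    rw [← hU] at hAB
    have h3 : (1 : Matrix (Fin 1) (Fin 1) F) = c • 1 := by
      have h4 : (U : Matrix (Fin 1) (Fin 1) F) * (↑U⁻¹ : Matrix (Fin 1) (Fin 1) F) =
          (c • (U : Matrix (Fin 1) (Fin 1) F)) * (↑U⁻¹ : Matrix (Fin 1) (Fin 1) F) :=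
        congrArg (fun Z => Z * (↑U⁻¹ : Matrix (Fin 1) (Fin 1) F)) hAB
      rwa [Matrix.smul_mul, Units.mul_inv] at h4
    have h4 := congrFun (congrFun h3 0) 0
    simpa using h4.symm
  unfold sW
  rw [dif_pos ⟨1, hex⟩]
  exact huni _ (Exists.choose_spec (⟨1, hex⟩ :
    ∃ c, IsSW (sig Y f f) (YY2 Y) (fstP Y (XF f Y)) (om0 f Y w) p q (sig Y v v') c))

end fin

/-- **DB1** -/
theorem db1 : Db1Stmt := by
  intro ℓ F _ hF τ hτ X _ _ Y _ f hf hnil
  refine ⟨sblk_sig hF.closed hf, fun v v' p h => unit_sig hf h, ?_⟩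
  obtain ⟨m, hm⟩ := hnil
  have hm' : Subgroup.lowerCentralSeries (Jb f Y) m = ⊥ := by
    have h1 := Subgroup.map_lowerCentralSeries (XF f Y) (QuotientGroup.mk' Y) m
    unfold Jb
    rw [← h1, Subgroup.map_eq_bot_iff, QuotientGroup.ker_mk']
    exact hm
  have hl : Fact ℓ.Prime := ⟨hF.prime⟩
  have hch := hF.char
  obtain ⟨H, hn, hH, hc, n, hp⟩ := nil_part (Jb_normal hf) hm' ℓ
  have := Fintype.ofFinite H
  have hc' : (Fintype.card H : F) ≠ 0 := by
    rw [← Nat.card_eq_fintype_card]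
    intro h
    exact hc ((CharP.cast_eq_zero_iff F ℓ _).1 h)
  obtain ⟨E, hE1, hE2, hE3, hE4⟩ := exists_E hF hf hH hn hc'
  obtain ⟨w, hw⟩ := exists_w (Y := Y) hF.closed hf
  have hE : IsE f Y H E := ⟨hH, hE1, hE2, hE3, hE4⟩
  refine ⟨E, hE1, hE3, hE2, fun p q v v' h => ?_⟩
  unfold BB
  rw [omS_eq hF hf hE hc' hn hp hw p q, finsum_mem_singleton,
    sW_eq hF hf hE hc' hn hp hw p q h, hτ.one]

end Pool.Agent.PP.H46
end
end -- Pool.Agent.Helper46_PP.Db1

section -- Pool.Agent.Helper96_PP.Asm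

/-!
# Squad PP: the assembly of the main theorem `MainStmt`
-/

noncomputable section

namespace Pool.Agent.PP.H96

open Pool.Agent.PP

/-! ## Clifford theory of class functions (CL) -/

theorem brt_ : BrtStmt := H74.brt H20.ibf H20.ibc H20.ibj H20.ibn

theorem cl_ : ClStmt :=
  Pool.Agent.Helper58_CL.cl H20.ibf H20.ibc H20.ibj H20.ibn H20.eig brt_

/-! ## DZ -/

theorem nco_ : NcoStmt := H6.nco_stmt (H6.cmp H20.matS H74.orb)

theorem eps_ : EpsStmt := H18.eps_stmt H20.matS H20.ibc H20.blk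

theorem dz_ : DzStmt :=
  H18.dz (H74.covStmt H20.ibc) H74.cen H20.matS H94.nch (H65.sup H20.nls) nco_
    (H59.dzq cl_ (Pool.Agent.Helper58_CL.clu H20.ibc) eps_ H20.blk H20.matS nco_ H20.nls H20.brm
      H20.eig H20.ibc) H21.psf

/-! ## FR -/

theorem fr_ : FrStmt := H75.fr H94.nch H74.orb H20.nls H20.ibf H20.ibj H20.ibn H20.eig

/-! ## J -/

theorem tfa_ : TfaStmt := H58.tfa H62.scu

theorem sum_ : SumStmt :=
  H94.sum H94.nch cl_ J74.loc J74.xfs J74.supJ H66.lct H62.inn tfa_ H66.bby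

theorem dbln_ : DblnStmt :=
  H94.dbln H20.nls H20.brm H94.nch Pool.Agent.AWR.H39.ps3 H66.lct cl_ J74.loc J74.xfs H62.inn tfa_
    (H20.uni J74.loc H62.scu H66.lct) H46.db1 (H91R.ssp H62.scu) (H20.mov H62.scu H66.lct) H20.fra
    H20.rst

/-! ## LQ -/

theorem rkr_ : RkrStmt :=
  H67.rkr H63.smt H43.smo H20.brm H43.can H47F.fxu Pool.Agent.Helper26_PP.cux
    (Pool.Agent.Helper26_PP.gue H94.nch H20.nls)

theorem lqr_ : LqrStmt := H60L.lqr H75.lqm (H65.fis H50.fld)

theorem osi_ : OsiStmt := H47O.osi H63.sma H74.rgl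

theorem lqn_ : LqnStmt :=
  H17.lqn osi_ (H9.lq rkr_ lqr_ H66.ps1 H20.brm Pool.Agent.Helper26_PP.cux osi_)

/-! ## S1 -/

theorem s1n_ : S1nStmt :=
  H67.s1n H19.cvr H91R.pow_ H19.lma (H63.lqu osi_ lqn_ fnl)

theorem s1_ : S1Stmt :=
  s1g s1n_ H9.addStmt fr_ Pool.Agent.AWR.H39.ps3 sum_ dbln_

/-! ## R2 -/

theorem the_ : TheStmt := H90.the H20.nls H74.orb

theorem tsb_ : TsbStmt := H21.tsb the_

theorem scl_ : SclStmt := H43.scl tsb_ the_

theorem swa_ : SwaStmt := H33S.swa tsb_ the_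

theorem box_ : BoxStmt := H43.box H31.ncg

theorem pip_ : PipStmt := H51.pip H5.pib

theorem fbk_ : FbkStmt := H6.fbk H20.ibn H20.eig

theorem fcu_ : FcuStmt := H6.fcu H20.ibn H20.eig

theorem prv_ : PrvStmt :=
  H17.prv Pool.Agent.Helper26_PP.lz H31.prd fbk_ fcu_ scl_

theorem cyd_ : CydStmt :=
  H18.cyd box_ bxh H63.bij H75.con H31.shs (H90.C.ccp the_ pip_) (H17.ops the_ H63.bij) H90.cnt
    H9.pbk

theorem cyv_ : CyvStmt := H18.cyv Pool.Agent.Helper26_PP.lz cyd_ fbk_ fcu_ scl_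

theorem orv_ : OrvStmt :=
  H60.orv prv_ cyv_ H47.nie swa_ fbk_ Pool.Agent.Helper26_PP.iso

theorem jii_ : JiiStmt :=
  H63.jii (H18.brg H20.nls H66.lct J74.xfs) orv_ Pool.Agent.Helper26_PP.iso

theorem com_ : ComStmt := H6.com H20.ibn H20.eig H62.inn J74.xfs

theorem r2_ : R2Stmt :=
  H98.rr2 Pool.Agent.AWR.H39.ps3 (H66.dbc dbln_) sum_ com_ jii_

/-! ## The main theorem -/

theorem main_ : MainStmt :=
  H46.topTheorem fr_ dz_ rcn (trn H20.nls) yzr H66.ps1 Pool.Agent.AWR.H39.ps3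
    Pool.Agent.AWR.H39.gr1 Pool.Agent.AWR.H39.gr2 Pool.Agent.AWR.H39.mus H9.addStmt H20.brm
    s1_ r2_

theorem fin_ : FinStmt :=
  H75.fin main_ H9.addStmt H20.nls H20.brm H63.smt H94.nch
    (H50.dic H20.ibn H20.nls H20.brm) H50.bid H50.chp H50.ldp H50.fld

/-! ## The reductions (V) and (VI) -/

theorem v_ : VStmt :=
  H66.vst main_ H9.addStmt fr_ Pool.Agent.AWR.H39.ps5 sum_ dbln_ H20.rst

/-- The main theorem with the final form of the hypothesis. -/
theorem mainQ_ :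
    ∀ (ℓ : ℕ) [Fact ℓ.Prime] (F : Type) [Field F], GoodF ℓ F →
      ∀ (H : Type) [Group H] [Finite H] (N : Subgroup H), N.Normal → GoodQ ℓ F N → YH ℓ F N := by
  intro ℓ _ F _ hF H _ _ N hN hQ
  exact main_ ℓ F hF H N hN
    (v_ ℓ F hF H N hN (stm ℓ F hF H N hN hQ))

/-! ## The relative form (VII) -/

theorem lemQ_ : LemQStmt := by
  intro M _
  let _ := Ideal.Quotient.field M
  intro G _ _ N hN e he χ hχ he1 ψ hψ hover b b' hb hb1 hb' hne
  exact H94.lemQ N hN hχ hψ hover he he1 hb hb1 hb' hne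

theorem relQ_ : RelQStmt := H94.relQ main_ v_ stm

theorem fin2_ : FinStmt2 :=
  H75.fin2 relQ_ lemQ_ H9.addStmt H20.nls H20.brm H63.smt H94.nch
    (H50.dic H20.ibn H20.nls H20.brm) H50.bid H50.chp H50.ldp H50.fld

end Pool.Agent.PP.H96
end
end -- Pool.Agent.Helper96_PP.Asm

section -- Pool.Agent.Helper27_D1.Fd1

/-!
# AWC, part D1, module FD1: the theorem on blocks of relative defect one, in terms of characters
-/

open scoped BigOperators

set_option linter.unusedSectionVars false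

noncomputable section

namespace Pool.Agent.PP.D1.H27

open Pool.Agent.Helper51_AWC Pool.Agent.Helper79_WRA Pool.Agent.PP
open Pool.Agent.PP.H75 (push push_eq cj Om Bd)

/-! ### Class sums and homomorphisms -/

section push

variable {A B : Type} [Group A] [Group B] [Finite A] [Finite B]

/-- the number of conjugates of `x` with the same image -/
def mm (p : A →* B) (x : A) : ℕ := Nat.card {z : A // (∃ g, z = g * x * g⁻¹) ∧ p z = p x}

theorem card_mm {p : A →* B} (hp : Function.Surjective p) (x : A) :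
    Nat.card (Subgroup.centralizer ({x} : Set A)) * mm p x =
      Nat.card p.ker * Nat.card (Subgroup.centralizer ({p x} : Set B)) := by
  classical
  obtain ⟨W, hW⟩ : ∃ W : Subgroup A, W = (Subgroup.centralizer ({p x} : Set B)).comap p :=
    ⟨_, rfl⟩
  have h1 : Nat.card W = Nat.card p.ker * Nat.card (Subgroup.centralizer ({p x} : Set B)) := by
    rw [hW]
    exact H75.card_comap hp _
  rw [← h1]
  have hCW : Subgroup.centralizer ({x} : Set A) ≤ W := by
    intro g hg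
    rw [hW, Subgroup.mem_comap]
    rw [Subgroup.mem_centralizer_singleton_iff] at hg ⊢
    rw [← map_mul, hg, map_mul]
  have h2 : Nat.card W = Nat.card (W ⧸ (Subgroup.centralizer ({x} : Set A)).subgroupOf W) *
      Nat.card ((Subgroup.centralizer ({x} : Set A)).subgroupOf W) :=
    Subgroup.card_eq_card_quotient_mul_card_subgroup _
  have h3 : Nat.card ((Subgroup.centralizer ({x} : Set A)).subgroupOf W) =
      Nat.card (Subgroup.centralizer ({x} : Set A)) :=
    Nat.card_congr (Subgroup.subgroupOfEquivOfLe hCW).toEquiv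
  rw [h2, h3, mul_comm]
  congr 1
  unfold mm
  symm
  refine Nat.card_congr (Equiv.ofBijective
    (fun q => Quotient.liftOn' q (fun w => (⟨w.1 * x * w.1⁻¹, ⟨w.1, rfl⟩, ?_⟩ :
      {z : A // (∃ g, z = g * x * g⁻¹) ∧ p z = p x})) ?_) ⟨?_, ?_⟩)
  · have hw : ∀ v ∈ W, p v * p x = p x * p v := by
      intro v hv
      rw [hW, Subgroup.mem_comap, Subgroup.mem_centralizer_singleton_iff] at hv
      exact hv
    rw [map_mul, map_mul, map_inv, hw w.1 w.2, mul_inv_cancel_right]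
  · intro v w hvw
    rw [QuotientGroup.leftRel_apply, Subgroup.mem_subgroupOf,
      Subgroup.mem_centralizer_singleton_iff] at hvw
    apply Subtype.ext
    change v.1 * x * v.1⁻¹ = w.1 * x * w.1⁻¹
    have h4 : (v.1⁻¹ * w.1) * x = x * (v.1⁻¹ * w.1) := hvw
    have h5 : w.1 * x = v.1 * (x * (v.1⁻¹ * w.1)) := by
      rw [← h4]
      group
    rw [h5]
    group
  · intro q q'
    refine Quotient.inductionOn₂' q q' fun v w h => ?_
    apply Quotient.sound'
    rw [QuotientGroup.leftRel_apply, Subgroup.mem_subgroupOf,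
      Subgroup.mem_centralizer_singleton_iff]
    have h4 : v.1 * x * v.1⁻¹ = w.1 * x * w.1⁻¹ := congrArg Subtype.val h
    change (v.1⁻¹ * w.1) * x = x * (v.1⁻¹ * w.1)
    have h5 : w.1 * x = v.1 * x * v.1⁻¹ * w.1 := by
      rw [h4]
      group
    calc (v.1⁻¹ * w.1) * x = v.1⁻¹ * (w.1 * x) := by group
      _ = v.1⁻¹ * (v.1 * x * v.1⁻¹ * w.1) := by rw [h5]
      _ = x * (v.1⁻¹ * w.1) := by group
  · rintro ⟨z, ⟨g, rfl⟩, hg⟩
    have hgW : g ∈ W := by
      rw [hW, Subgroup.mem_comap, Subgroup.mem_centralizer_singleton_iff]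
      rw [map_mul, map_mul, map_inv, mul_inv_eq_iff_eq_mul] at hg
      exact hg
    exact ⟨Quotient.mk'' ⟨g, hgW⟩, rfl⟩

theorem clsum_pos {F : Type} [Field F] {x z : A} (h : ∃ r, z = r * x * r⁻¹) :
    clsum F ⊤ x z = 1 := by
  obtain ⟨r, hr⟩ := h
  unfold clsum
  rw [if_pos ⟨r, Subgroup.mem_top _, hr⟩]

theorem clsum_neg {F : Type} [Field F] {x z : A} (h : ¬ ∃ r, z = r * x * r⁻¹) :
    clsum F ⊤ x z = 0 := by
  unfold clsum
  rw [if_neg]
  rintro ⟨r, -, hr⟩
  exact h ⟨r, hr⟩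

/-- the image of a class sum -/
theorem push_cls {F : Type} [Field F] (p : A →* B) (hp : Function.Surjective p) (x : A) :
    push p (clsum F ⊤ x) = fun y => (mm p x : F) * clsum F ⊤ (p x) y := by
  classical
  have := Fintype.ofFinite A
  funext y
  rw [push_eq]
  by_cases h : ∃ q, y = q * p x * q⁻¹
  · rw [clsum_pos h, mul_one]
    obtain ⟨q, rfl⟩ := h
    obtain ⟨g, rfl⟩ := hp q
    have h1 : ∀ z : A, (if p z = p g * p x * (p g)⁻¹ then clsum F ⊤ x z else 0) =
        if p z = p g * p x * (p g)⁻¹ ∧ (∃ r, z = r * x * r⁻¹) then (1 : F) else 0 := by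
      intro z
      by_cases h2 : p z = p g * p x * (p g)⁻¹
      · rw [if_pos h2]
        by_cases h3 : ∃ r, z = r * x * r⁻¹
        · rw [if_pos (And.intro h2 h3), clsum_pos h3]
        · rw [if_neg (fun h4 => h3 h4.2), clsum_neg h3]
      · rw [if_neg h2, if_neg (fun h4 => h2 h4.1)]
    rw [Finset.sum_congr rfl (fun z _ => h1 z), Finset.sum_boole]
    congr 1
    unfold mm
    rw [Nat.card_eq_fintype_card, Fintype.card_subtype]
    refine Finset.card_bij (fun z _ => g⁻¹ * z * g) ?_ ?_ ?_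
    · intro z hz
      rw [Finset.mem_filter] at hz ⊢
      obtain ⟨-, h2, r, rfl⟩ := hz
      refine ⟨Finset.mem_univ _, ⟨g⁻¹ * r, by group⟩, ?_⟩
      rw [map_mul, map_mul, h2, map_inv]
      group
    · intro z _ z' _ h2
      have h3 : g⁻¹ * z = g⁻¹ * z' := mul_right_cancel h2
      exact mul_left_cancel h3
    · intro z hz
      rw [Finset.mem_filter] at hz
      obtain ⟨-, ⟨r, rfl⟩, h2⟩ := hz
      refine ⟨g * (r * x * r⁻¹) * g⁻¹, ?_, by group⟩
      rw [Finset.mem_filter]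
      refine ⟨Finset.mem_univ _, ?_, g * r, by group⟩
      rw [map_mul, map_mul, h2, map_inv]
  · rw [clsum_neg h, mul_zero]
    apply Finset.sum_eq_zero
    intro z _
    by_cases h1 : p z = y
    · rw [if_pos h1, clsum_neg]
      rintro ⟨r, rfl⟩
      apply h
      refine ⟨p r, ?_⟩
      rw [← h1, map_mul, map_mul, map_inv]
    · rw [if_neg h1]

theorem clsum_cl {F : Type} [Field F] (x : A) : IsCl (clsum F ⊤ x) := by
  intro z g
  have := congrFun (H75.clsum_inv (F := F) (Q := (⊤ : Subgroup A)) x g⁻¹ (Subgroup.mem_top _)) z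
  rw [cj, inv_inv] at this
  exact this

theorem br_smul {F : Type} [Field F] (Q : Subgroup A) (c : F) (a : A → F) :
    br Q (fun y => c * a y) = fun y => c * br Q a y := by
  funext y
  by_cases h : y ∈ Subgroup.centralizer (Q : Set A)
  · rw [H66.br_of_mem h, H66.br_of_mem h]
  · rw [H66.br_of_not_mem h, H66.br_of_not_mem h, mul_zero]

theorem exists_of_br_ne {F : Type} [Field F] {Q : Subgroup A} {a : A → F} (h : br Q a ≠ 0) :
    ∃ y ∈ Subgroup.centralizer (Q : Set A), a y ≠ 0 := by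
  by_contra hcon
  apply h
  funext y
  by_cases hy : y ∈ Subgroup.centralizer (Q : Set A)
  · rw [H66.br_of_mem hy]
    by_contra h0
    exact hcon ⟨y, hy, h0⟩
  · rw [H66.br_of_not_mem hy]
    rfl

theorem br_ne_of {F : Type} [Field F] {Q : Subgroup A} {a : A → F} {y : A}
    (hy : y ∈ Subgroup.centralizer (Q : Set A)) (h : a y ≠ 0) : br Q a ≠ 0 := by
  intro h0
  apply h
  have := congrFun h0 y
  rwa [H66.br_of_mem hy] at this

end push

/-! ### The image of the block of the normal subgroup -/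

section core

variable {M : Ideal (integralClosure ℤ ℂ)} {A B : Type} [Group A] [Group B] [Finite A] [Finite B]

/-- the iterated product with a class sum -/
theorem res_iter [M.IsMaximal] : letI := Ideal.Quotient.field M
    ∀ {ψ : A → ℂ}, ψ ∈ Irr A → ∀ {a b : A → FF M}, IsCl a → IsCl b → ∀ n : ℕ,
      IsCl ((mulF a)^[n] b) ∧ res M ((mulF a)^[n] b) ψ = res M a ψ ^ n * res M b ψ := by
  let _ := Ideal.Quotient.field M
  intro ψ hψ a b ha hb n
  induction n with
  | zero => exact ⟨hb, by rw [pow_zero, one_mul]; rfl⟩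
  | succ n ih =>
    rw [Function.iterate_succ_apply']
    refine ⟨H75.isCl_mulF ha ih.1, ?_⟩
    rw [H75.res_mulF hψ ha ih.1, ih.2, pow_succ']
    ring

/-- the defect of the image -/
theorem core (inv : InvStmt) {ℓ : ℕ} (hℓ : ℓ.Prime) [M.IsMaximal]
    (hM : (ℓ : integralClosure ℤ ℂ) ∈ M) (fld : FldStmt) {p : A →* B}
    (hp : Function.Surjective p) (hkO : p.ker = opCore ℓ A) :
    letI := Ideal.Quotient.field M
    ∀ {ψ : A → ℂ}, ψ ∈ Irr A → ∀ {b : A → FF M}, IsBlk b → res M b ψ = 1 → SmallDefect ℓ M ψ →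
      ∀ Q : Subgroup B, IsPGroup ℓ Q → br Q (push p b) ≠ 0 → Nat.card Q ≤ ℓ := by
  let _ := Ideal.Quotient.field M
  intro ψ hψ b hb hb1 hS Q hQ hbr
  have hF : GoodF ℓ (FF M) := fld ℓ hℓ M hM
  have hfact := Fact.mk hℓ
  obtain ⟨x, hx0, hx⟩ := hS
  have hcl : IsCl (clsum (FF M) ⊤ x) := clsum_cl x
  have hlab : res M (clsum (FF M) ⊤ x) ψ ≠ 0 := by
    rw [H75.res_clsum x]
    exact hx0
  obtain ⟨u, hu, hbu⟩ := inv ℓ (FF M) hF A b (clsum (FF M) ⊤ x) hb hcl (by
    intro n h0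
    have h1 := (res_iter (M := M) hψ hcl hb.1.1 n).2
    rw [h0, H75.res_zero, hb1, mul_one] at h1
    exact pow_ne_zero n hlab h1.symm)
  have hbp : mulF (push p b) (mulF (push p (clsum (FF M) ⊤ x)) (push p u)) = push p b := by
    rw [← H75.push_mulF, ← H75.push_mulF, hbu]
  have c1 := H75.push_isCl hp hb.1.1
  have c2 := H75.push_isCl hp hcl
  have c3 := H75.push_isCl hp hu
  have h2 : br Q (push p (clsum (FF M) ⊤ x)) ≠ 0 := by
    intro h0
    apply hbr
    rw [← hbp, H66.br_mulF hF hQ (H66.IsCl.inv c1 Q) (H66.IsCl.inv (H75.isCl_mulF c2 c3) Q),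
      H66.br_mulF hF hQ (H66.IsCl.inv c2 Q) (H66.IsCl.inv c3 Q), h0, H75.mulF_zero_left,
      H75.mulF_zero_right]
  rw [push_cls p hp x, br_smul] at h2
  have hm : (mm p x : FF M) ≠ 0 := by
    intro h0
    apply h2
    funext y
    rw [h0, zero_mul]
    rfl
  have h3 : br Q (clsum (FF M) ⊤ (p x)) ≠ 0 := by
    intro h0
    apply h2
    funext y
    rw [h0]
    exact mul_zero _
  obtain ⟨y, hy, hyne⟩ := exists_of_br_ne h3
  obtain ⟨r, hr⟩ : ∃ r, y = r * p x * r⁻¹ := by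
    by_contra hcon
    exact hyne (clsum_neg hcon)
  -- `Q` centralises a conjugate of `p x`
  have hle : conjS r⁻¹ Q ≤ Subgroup.centralizer ({p x} : Set B) := by
    intro z hz
    rw [mem_conjS, inv_inv] at hz
    rw [Subgroup.mem_centralizer_singleton_iff]
    have h4 := Subgroup.mem_centralizer_iff.1 hy _ hz
    rw [hr] at h4
    have h5 : r * (z * p x) * r⁻¹ = r * (p x * z) * r⁻¹ := by
      calc r * (z * p x) * r⁻¹ = r * z * r⁻¹ * (r * p x * r⁻¹) := by group
        _ = r * p x * r⁻¹ * (r * z * r⁻¹) := h4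
        _ = r * (p x * z) * r⁻¹ := by group
    exact mul_left_cancel (mul_right_cancel h5)
  have hdvd : Nat.card Q ∣ Nat.card (Subgroup.centralizer ({p x} : Set B)) := by
    have h4 := Subgroup.card_dvd_of_le hle
    rwa [card_conjS] at h4
  obtain ⟨k, hk⟩ := (IsPGroup.iff_card).1 hQ
  -- `ℓ²` does not divide the order of the centraliser of `p x`
  have hnd : ¬ ℓ ^ 2 ∣ Nat.card (Subgroup.centralizer ({p x} : Set B)) := by
    intro hd
    apply hx
    have h5 := card_mm hp x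
    have h6 : ℓ ^ 2 * Nat.card (opCore ℓ A) ∣
        Nat.card (Subgroup.centralizer ({x} : Set A)) * mm p x := by
      rw [h5, ← hkO, mul_comm (ℓ ^ 2)]
      exact mul_dvd_mul_left _ hd
    obtain ⟨j, hj⟩ := (IsPGroup.iff_card).1 (H75.opCore_isPGroup (A := A) hℓ)
    rw [hj, ← pow_add] at h6 ⊢
    refine (Nat.Coprime.dvd_of_dvd_mul_right ?_ h6)
    apply Nat.Coprime.pow_left
    rw [Nat.Prime.coprime_iff_not_dvd hℓ]
    intro h7
    apply hm
    have := hF.char
    exact (CharP.cast_eq_zero_iff (FF M) ℓ _).2 h7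
  rw [hk]
  rw [hk] at hdvd
  have hk1 : k ≤ 1 := by
    by_contra h7
    exact hnd ((pow_dvd_pow ℓ (by omega)).trans hdvd)
  calc ℓ ^ k ≤ ℓ ^ 1 := Nat.pow_le_pow_right hℓ.pos hk1
    _ = ℓ := pow_one ℓ

end core

section main

variable {F A B : Type} [Field F] [Group A] [Group B] [Finite A] [Finite B]

theorem push_cj (p : A →* B) (g : A) (a : A → F) : push p (cj g a) = cj (p g) (push p a) := by
  classical
  have := Fintype.ofFinite A
  funext y
  rw [cj, push_eq, push_eq, ← Equiv.sum_comp (MulAut.conj g).toEquiv]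
  apply Finset.sum_congr rfl
  intro x _
  change (if p (g * x * g⁻¹) = y then a (g⁻¹ * (g * x * g⁻¹) * g) else 0) = _
  have h1 : g⁻¹ * (g * x * g⁻¹) * g = x := by group
  rw [h1]
  by_cases h : p x = (p g)⁻¹ * y * p g
  · rw [if_pos h, if_pos]
    rw [map_mul, map_mul, map_inv, h]
    group
  · rw [if_neg h, if_neg]
    intro h2
    apply h
    rw [← h2, map_mul, map_mul, map_inv]
    group

theorem push_supp (p : A →* B) {N : Subgroup A} {a : A → F} (h : ∀ x, x ∉ N → a x = 0) :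
    ∀ y, y ∉ N.map p → push p a y = 0 := by
  classical
  have := Fintype.ofFinite A
  intro y hy
  rw [push_eq]
  apply Finset.sum_eq_zero
  intro x _
  by_cases h1 : p x = y
  · rw [if_pos h1]
    apply h
    intro hx
    exact hy ⟨x, hx, h1⟩
  · rw [if_neg h1]

theorem push_fsum {ι : Type} (s : Finset ι) (p : A →* B) (f : ι → A → F) (y : B) :
    push p (fun x => ∑ i ∈ s, f i x) y = ∑ i ∈ s, push p (f i) y := by
  classical
  have := Fintype.ofFinite A
  rw [push_eq]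
  have h1 : ∀ i ∈ s, push p (f i) y = ∑ x : A, if p x = y then f i x else 0 :=
    fun i _ => push_eq p (f i) y
  rw [Finset.sum_congr rfl h1, Finset.sum_comm]
  apply Finset.sum_congr rfl
  intro x _
  by_cases h : p x = y
  · rw [if_pos h]
    exact Finset.sum_congr rfl fun i _ => (if_pos h).symm
  · rw [if_neg h]
    exact (Finset.sum_eq_zero fun i _ => if_neg h).symm

/-- FD1 -/
theorem fd1 (d1a : D1aStmt) (inv : InvStmt) : Fd1Stmt := by
  classical
  intro ℓ hℓ M _ hM G _ _ hc N hN χ hχ ψ hψ hχψ hL hS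
  let _ := Ideal.Quotient.field M
  have hfact := Fact.mk hℓ
  have hF : GoodF ℓ (FF M) := H50.fld ℓ hℓ M hM
  have hn := H75.opCore_normal (A := G) ℓ
  obtain ⟨e, he, h1, h2⟩ := H50.bid ℓ hℓ M hM G χ hχ
  obtain ⟨b, hb, hb1, -⟩ := H50.bid ℓ hℓ M hM N ψ hψ
  set p : G →* G ⧸ opCore ℓ G := QuotientGroup.mk' (opCore ℓ G) with hp
  have hker : p.ker = opCore ℓ G := QuotientGroup.ker_mk' _
  have hsurj : Function.Surjective p := QuotientGroup.mk'_surjective (opCore ℓ G)
  have hkp : IsPGroup ℓ p.ker := by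
    rw [hker]
    exact H75.opCore_isPGroup hℓ
  have hkc : p.ker ≤ Subgroup.center G := by
    rw [hker]
    exact hc
  have hpos : Pos ℓ (push p e) (N.map p) :=
    H75.pos_rel H96.lemQ_ H50.bid H50.fld hℓ hM hsurj hker hkc hN hχ he h1 hψ hχψ hL
  have heq := H75.altSum_central H20.nls H20.brm H63.smt H94.nch
    (H50.dic H20.ibn H20.nls H20.brm) hℓ M hM hF hsurj hker hkp hkc χ hχ e he h1 h2
  -- the sum of the conjugates of the block of `ψ`
  have hover : (∑ᶠ n : N, χ n * ψ n⁻¹) ≠ 0 := by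
    intro h0
    apply hχψ
    rw [← h0]
    apply finsum_congr
    intro n
    rw [H94.irr_star hψ]
  have hB : Bd N (ext0 N b) := ⟨hN, fun x hx => H46.ext0_of_not_mem _ hx, by
    rw [H46.restr_ext0]; exact hb⟩
  have := Fintype.ofFinite (Om (ext0 N b))
  obtain ⟨h, hh⟩ : ∃ h : G → FF M, h = fun x => ∑ f : Om (ext0 N b), f.1 x := ⟨_, rfl⟩
  have hidem : IsIdem h := by rw [hh]; exact hB.fam.isIdem
  have hsupp : ∀ x, x ∉ N → h x = 0 := by
    intro x hx
    rw [hh]
    exact Finset.sum_eq_zero fun f _ => hB.supp2 f x hx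
  have hhb : mulF h (ext0 N b) = ext0 N b := by
    have := hB.fam.mul_sum Finset.univ (Finset.mem_univ (H75.omk (ext0 N b) 1))
    rw [H75.omk_one] at this
    rw [hh]
    exact this
  have hN1 : IsIdem (fun t : N => h t) := by
    refine ⟨fun x y => hidem.1 _ _, ?_⟩
    rw [← H75.mulF_res N h hsupp, hidem.2]
  have k1 : mulF (fun t : N => h t) b = b := by
    have e1 := H75.mulF_res N (ext0 N b) hsupp
    rw [H46.restr_ext0, hhb, H46.restr_ext0] at e1
    exact e1.symm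
  have k2 : res M (fun t : N => h t) ψ = 1 := by
    have e1 := H75.res_mulF hψ hN1.1 hb.1.1
    rw [k1, hb1, mul_one] at e1
    exact e1.symm
  have k3 : res M h χ = 1 := by
    rw [H94.res_over N hN hχ hψ hover hidem.1 hsupp, k2]
  have k4 : mulF e h ≠ 0 := by
    intro h0
    have e1 := H75.res_mulF hχ he.1.1 hidem.1
    rw [h0, H75.res_zero, h1, k3, mul_one] at e1
    exact zero_ne_one e1
  have k5 : mulF e h = e := (he.2.2 h hidem).resolve_right k4
  -- the map on `N`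
  have hqk : (p.subgroupMap N).ker = p.ker.subgroupOf N := by
    ext x
    rw [MonoidHom.mem_ker, Subgroup.mem_subgroupOf, MonoidHom.mem_ker]
    constructor
    · intro h
      exact congrArg Subtype.val h
    · intro h
      exact Subtype.ext h
  have hqO : (p.subgroupMap N).ker = opCore ℓ N := by
    rw [hqk, hker, H75.opCore_sub hℓ hN]
  have hNB : (N.map p).Normal := hN.map p hsurj
  have hdfo : DfO ℓ (N.map p) (push p e) := by
    refine ⟨push p h, H75.push_isIdem hsurj hidem, push_supp p hsupp, ?_, ?_⟩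
    · rw [← H75.push_mulF, k5]
    · intro Q hQN hQ hbr
      obtain ⟨y, hy, hyne⟩ := exists_of_br_ne hbr
      rw [hh, push_fsum] at hyne
      obtain ⟨f, -, hf⟩ := Finset.exists_ne_zero_of_sum_ne_zero hyne
      obtain ⟨g, rfl⟩ := H75.omk_surj f
      change push p (cj g (ext0 N b)) y ≠ 0 at hf
      rw [push_cj, H75.push_ext0, cj] at hf
      have hyN : (p g)⁻¹ * y * p g ∈ N.map p := by
        by_contra hcon
        exact hf (H46.ext0_of_not_mem _ hcon)
      rw [H46.ext0_of_mem _ hyN] at hf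
      have hle : conjS (p g)⁻¹ Q ≤ N.map p := by
        intro z hz
        rw [mem_conjS, inv_inv] at hz
        have h3 := hNB.conj_mem _ (hQN hz) (p g)⁻¹
        have h4 : (p g)⁻¹ * (p g * z * (p g)⁻¹) * (p g)⁻¹⁻¹ = z := by group
        rwa [h4] at h3
      have h5 := core inv hℓ hM H50.fld (p.subgroupMap_surjective N) hqO hψ hb hb1 hS
        ((conjS (p g)⁻¹ Q).subgroupOf (N.map p)) ?_ (br_ne_of
          (y := ⟨(p g)⁻¹ * y * p g, hyN⟩) ?_ hf)
      · rw [Nat.card_congr (Subgroup.subgroupOfEquivOfLe hle).toEquiv, card_conjS] at h5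
        exact h5
      · have hQ' : IsPGroup ℓ (conjS (p g)⁻¹ Q) := by
          rw [IsPGroup.iff_card] at hQ ⊢
          rw [card_conjS]
          exact hQ
        exact hQ'.of_equiv (Subgroup.subgroupOfEquivOfLe hle).symm
      · rw [Subgroup.mem_centralizer_iff]
        intro z hz
        have hz' : (z : G ⧸ opCore ℓ G) ∈ conjS (p g)⁻¹ Q := hz
        rw [mem_conjS, inv_inv] at hz'
        have h6 := Subgroup.mem_centralizer_iff.1 hy _ hz'
        apply Subtype.ext
        change (z : G ⧸ opCore ℓ G) * ((p g)⁻¹ * y * p g) = (p g)⁻¹ * y * p g * z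
        calc (z : G ⧸ opCore ℓ G) * ((p g)⁻¹ * y * p g) =
            (p g)⁻¹ * ((p g * z * (p g)⁻¹) * y) * p g := by group
          _ = (p g)⁻¹ * (y * (p g * z * (p g)⁻¹)) * p g := by rw [h6]
          _ = (p g)⁻¹ * y * p g * z := by group
  have h0 : YY ℓ (⊤ : Subgroup (G ⧸ opCore ℓ G)) (push p e) = 0 :=
    d1a ℓ (FF M) hF _ (N.map p) hNB _ (H75.push_isIdem hsurj he.1) hpos hdfo
  rw [h0, mul_zero] at heq
  rcases mul_eq_zero.1 heq with h | h
  · exact absurd h (by exact_mod_cast (Nat.card_pos (α := G)).ne')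
  · exact h

end main

end Pool.Agent.PP.D1.H27
end
end -- Pool.Agent.Helper27_D1.Fd1

section -- Pool.Agent.Helper29_D2.Fd2

/-!
# AWC, part D2, module FD2: the theorem on blocks of relative cyclic defect, in terms of characters
-/

open scoped BigOperators

set_option linter.unusedSectionVars false

noncomputable section

namespace Pool.Agent.PP.CD2.H29

open Pool.Agent.Helper51_AWC Pool.Agent.Helper79_WRA Pool.Agent.PP
open Pool.Agent.PP.H75 (push push_eq cj Om Bd)
open Pool.Agent.PP.D1.H27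

section cyc

theorem card_mul_rel {C : Type} [Group C] {H K : Subgroup C} (h : H ≤ K) :
    Nat.card H * H.relIndex K = Nat.card K := by
  have h1 := Subgroup.card_mul_index (H.subgroupOf K)
  rw [Nat.card_congr (Subgroup.subgroupOfEquivOfLe h).toEquiv] at h1
  exact h1

/-- an `ℓ`-subgroup is cyclic if there is a cyclic `ℓ`-subgroup of index prime to `ℓ` -/
theorem cyclic_of_sylow {C : Type} [Group C] [Finite C] {ℓ : ℕ} [Fact ℓ.Prime] {S Q : Subgroup C}
    (hS : IsPGroup ℓ S) (hi : ¬ ℓ ∣ S.index) (hc : IsCyclic S) (hQ : IsPGroup ℓ Q) :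
    IsCyclic Q := by
  obtain ⟨T, hT⟩ := hQ.exists_le_sylow
  let S' : Sylow ℓ C := hS.toSylow hi
  have e : T ≃* S' := Sylow.equiv T S'
  have h1 : IsCyclic S' := hc
  have h2 : IsCyclic T := isCyclic_of_surjective e.symm.toMonoidHom e.symm.surjective
  exact isCyclic_of_injective (Subgroup.inclusion hT) (Subgroup.inclusion_injective hT)

end cyc

section core

variable {M : Ideal (integralClosure ℤ ℂ)} {A B : Type} [Group A] [Group B] [Finite A] [Finite B]

/-- the defect of the image -/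
theorem core2 (inv : InvStmt) {ℓ : ℕ} (hℓ : ℓ.Prime) [M.IsMaximal]
    (hM : (ℓ : integralClosure ℤ ℂ) ∈ M) (fld : FldStmt) {p : A →* B}
    (hp : Function.Surjective p) (hkO : p.ker = opCore ℓ A) :
    letI := Ideal.Quotient.field M
    ∀ {ψ : A → ℂ}, ψ ∈ Irr A → ∀ {b : A → FF M}, IsBlk b → res M b ψ = 1 → CyclicDefect ℓ M ψ →
      ∀ Q : Subgroup B, IsPGroup ℓ Q → br Q (push p b) ≠ 0 → IsCyclic Q := by
  let _ := Ideal.Quotient.field M
  intro ψ hψ b hb hb1 hS Q hQ hbr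
  have hF : GoodF ℓ (FF M) := fld ℓ hℓ M hM
  have hfact := Fact.mk hℓ
  obtain ⟨x, u₀, P, hx0, hPx, hPp, hPi, hPu⟩ := hS
  have hcl : IsCl (clsum (FF M) ⊤ x) := clsum_cl x
  have hlab : res M (clsum (FF M) ⊤ x) ψ ≠ 0 := by
    rw [H75.res_clsum x]
    exact hx0
  obtain ⟨u, hu, hbu⟩ := inv ℓ (FF M) hF A b (clsum (FF M) ⊤ x) hb hcl (by
    intro n h0
    have h1 := (res_iter (M := M) hψ hcl hb.1.1 n).2
    rw [h0, H75.res_zero, hb1, mul_one] at h1
    exact pow_ne_zero n hlab h1.symm)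
  have hbp : mulF (push p b) (mulF (push p (clsum (FF M) ⊤ x)) (push p u)) = push p b := by
    rw [← H75.push_mulF, ← H75.push_mulF, hbu]
  have c1 := H75.push_isCl hp hb.1.1
  have c2 := H75.push_isCl hp hcl
  have c3 := H75.push_isCl hp hu
  have h2 : br Q (push p (clsum (FF M) ⊤ x)) ≠ 0 := by
    intro h0
    apply hbr
    rw [← hbp, H66.br_mulF hF hQ (H66.IsCl.inv c1 Q) (H66.IsCl.inv (H75.isCl_mulF c2 c3) Q),
      H66.br_mulF hF hQ (H66.IsCl.inv c2 Q) (H66.IsCl.inv c3 Q), h0, H75.mulF_zero_left,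
      H75.mulF_zero_right]
  rw [push_cls p hp x, br_smul] at h2
  have hm : (mm p x : FF M) ≠ 0 := by
    intro h0
    apply h2
    funext y
    rw [h0, zero_mul]
    rfl
  have h3 : br Q (clsum (FF M) ⊤ (p x)) ≠ 0 := by
    intro h0
    apply h2
    funext y
    rw [h0]
    exact mul_zero _
  obtain ⟨y, hy, hyne⟩ := exists_of_br_ne h3
  obtain ⟨r, hr⟩ : ∃ r, y = r * p x * r⁻¹ := by
    by_contra hcon
    exact hyne (clsum_neg hcon)
  -- `Q` centralises a conjugate of `p x`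
  have hle : conjS r⁻¹ Q ≤ Subgroup.centralizer ({p x} : Set B) := by
    intro z hz
    rw [mem_conjS, inv_inv] at hz
    rw [Subgroup.mem_centralizer_singleton_iff]
    have h4 := Subgroup.mem_centralizer_iff.1 hy _ hz
    rw [hr] at h4
    have h5 : r * (z * p x) * r⁻¹ = r * (p x * z) * r⁻¹ := by
      calc r * (z * p x) * r⁻¹ = r * z * r⁻¹ * (r * p x * r⁻¹) := by group
        _ = r * p x * r⁻¹ * (r * z * r⁻¹) := h4
        _ = r * (p x * z) * r⁻¹ := by group
    exact mul_left_cancel (mul_right_cancel h5)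
  have hmℓ : ¬ ℓ ∣ mm p x := by
    intro h7
    apply hm
    have := hF.char
    exact (CharP.cast_eq_zero_iff (FF M) ℓ _).2 h7
  -- the image of `P`
  have hkP : p.ker ≤ P := by
    rw [hkO, hPu]
    exact le_sup_left
  have hPB : P.map p = Subgroup.zpowers (p u₀) := by
    rw [hPu, Subgroup.map_sup, ← hkO, (MonoidHom.map_zpowers p u₀)]
    have h0 : p.ker.map p = ⊥ := by
      rw [Subgroup.map_eq_bot_iff]
    rw [h0, bot_sup_eq]
  have hcycP : IsCyclic (P.map p) := by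
    rw [hPB]
    infer_instance
  have hSle : P.map p ≤ Subgroup.centralizer ({p x} : Set B) := by
    rintro _ ⟨z, hz, rfl⟩
    have h4 := Subgroup.mem_centralizer_singleton_iff.1 (hPx hz)
    rw [Subgroup.mem_centralizer_singleton_iff, ← map_mul, h4, map_mul]
  have hcardP : Nat.card P = Nat.card p.ker * Nat.card (P.map p) := by
    have h4 : (P.map p).comap p = P := by
      rw [Subgroup.comap_map_eq, sup_eq_left.2 hkP]
    have h5 := H75.card_comap hp (P.map p)
    rw [h4] at h5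
    exact h5
  have hidx : ¬ ℓ ∣ (P.map p).relIndex (Subgroup.centralizer ({p x} : Set B)) := by
    have h5 := card_mm hp x
    have h6 : P.relIndex (Subgroup.centralizer ({x} : Set A)) * Nat.card P =
        Nat.card (Subgroup.centralizer ({x} : Set A)) := by
      rw [mul_comm]
      exact card_mul_rel hPx
    have h7 : (P.map p).relIndex (Subgroup.centralizer ({p x} : Set B)) *
        Nat.card (P.map p) = Nat.card (Subgroup.centralizer ({p x} : Set B)) := by
      rw [mul_comm]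
      exact card_mul_rel hSle
    have h8 : (P.map p).relIndex (Subgroup.centralizer ({p x} : Set B)) * Nat.card P =
        P.relIndex (Subgroup.centralizer ({x} : Set A)) * mm p x * Nat.card P := by
      calc (P.map p).relIndex (Subgroup.centralizer ({p x} : Set B)) * Nat.card P =
          Nat.card p.ker * ((P.map p).relIndex (Subgroup.centralizer ({p x} : Set B)) *
            Nat.card (P.map p)) := by rw [hcardP]; ring
        _ = Nat.card (Subgroup.centralizer ({x} : Set A)) * mm p x := by rw [h7, h5]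
        _ = P.relIndex (Subgroup.centralizer ({x} : Set A)) * mm p x * Nat.card P := by
            rw [← h6]; ring
    have h9 := Nat.eq_of_mul_eq_mul_right (Nat.card_pos (α := P)) h8
    rw [h9, Nat.Prime.dvd_mul hℓ]
    rintro (h | h)
    · exact hPi h
    · exact hmℓ h
  have hQ' : IsPGroup ℓ (conjS r⁻¹ Q) := by
    rw [IsPGroup.iff_card] at hQ ⊢
    rw [card_conjS]
    exact hQ
  have hQc : IsCyclic ((conjS r⁻¹ Q).subgroupOf (Subgroup.centralizer ({p x} : Set B))) := by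
    refine cyclic_of_sylow (ℓ := ℓ)
      (S := (P.map p).subgroupOf (Subgroup.centralizer ({p x} : Set B))) ?_ hidx ?_ ?_
    · exact (hPp.map p).of_equiv (Subgroup.subgroupOfEquivOfLe hSle).symm
    · exact isCyclic_of_surjective (Subgroup.subgroupOfEquivOfLe hSle).symm.toMonoidHom
        (Subgroup.subgroupOfEquivOfLe hSle).symm.surjective
    · exact hQ'.of_equiv (Subgroup.subgroupOfEquivOfLe hle).symm
  have h10 : IsCyclic (conjS r⁻¹ Q) :=
    isCyclic_of_surjective (Subgroup.subgroupOfEquivOfLe hle).toMonoidHom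
      (Subgroup.subgroupOfEquivOfLe hle).surjective
  exact isCyclic_of_surjective (conjSEquiv r⁻¹ Q).symm.toMonoidHom
    (conjSEquiv r⁻¹ Q).symm.surjective

end core

section main

/-- FD2 -/
theorem fd2 (d2a : D2aStmt) (inv : InvStmt) : Fd2Stmt := by
  classical
  intro ℓ hℓ M _ hM G _ _ hc N hN χ hχ ψ hψ hχψ hL hS
  let _ := Ideal.Quotient.field M
  have hfact := Fact.mk hℓ
  have hF : GoodF ℓ (FF M) := H50.fld ℓ hℓ M hM
  have hn := H75.opCore_normal (A := G) ℓ
  obtain ⟨e, he, h1, h2⟩ := H50.bid ℓ hℓ M hM G χ hχ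
  obtain ⟨b, hb, hb1, -⟩ := H50.bid ℓ hℓ M hM N ψ hψ
  set p : G →* G ⧸ opCore ℓ G := QuotientGroup.mk' (opCore ℓ G) with hp
  have hker : p.ker = opCore ℓ G := QuotientGroup.ker_mk' _
  have hsurj : Function.Surjective p := QuotientGroup.mk'_surjective (opCore ℓ G)
  have hkp : IsPGroup ℓ p.ker := by
    rw [hker]
    exact H75.opCore_isPGroup hℓ
  have hkc : p.ker ≤ Subgroup.center G := by
    rw [hker]
    exact hc
  have hpos : Pos ℓ (push p e) (N.map p) :=
    H75.pos_rel H96.lemQ_ H50.bid H50.fld hℓ hM hsurj hker hkc hN hχ he h1 hψ hχψ hL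
  have heq := H75.altSum_central H20.nls H20.brm H63.smt H94.nch
    (H50.dic H20.ibn H20.nls H20.brm) hℓ M hM hF hsurj hker hkp hkc χ hχ e he h1 h2
  -- the sum of the conjugates of the block of `ψ`
  have hover : (∑ᶠ n : N, χ n * ψ n⁻¹) ≠ 0 := by
    intro h0
    apply hχψ
    rw [← h0]
    apply finsum_congr
    intro n
    rw [H94.irr_star hψ]
  have hB : Bd N (ext0 N b) := ⟨hN, fun x hx => H46.ext0_of_not_mem _ hx, by
    rw [H46.restr_ext0]; exact hb⟩
  have := Fintype.ofFinite (Om (ext0 N b))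
  obtain ⟨h, hh⟩ : ∃ h : G → FF M, h = fun x => ∑ f : Om (ext0 N b), f.1 x := ⟨_, rfl⟩
  have hidem : IsIdem h := by rw [hh]; exact hB.fam.isIdem
  have hsupp : ∀ x, x ∉ N → h x = 0 := by
    intro x hx
    rw [hh]
    exact Finset.sum_eq_zero fun f _ => hB.supp2 f x hx
  have hhb : mulF h (ext0 N b) = ext0 N b := by
    have := hB.fam.mul_sum Finset.univ (Finset.mem_univ (H75.omk (ext0 N b) 1))
    rw [H75.omk_one] at this
    rw [hh]
    exact this
  have hN1 : IsIdem (fun t : N => h t) := by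
    refine ⟨fun x y => hidem.1 _ _, ?_⟩
    rw [← H75.mulF_res N h hsupp, hidem.2]
  have k1 : mulF (fun t : N => h t) b = b := by
    have e1 := H75.mulF_res N (ext0 N b) hsupp
    rw [H46.restr_ext0, hhb, H46.restr_ext0] at e1
    exact e1.symm
  have k2 : res M (fun t : N => h t) ψ = 1 := by
    have e1 := H75.res_mulF hψ hN1.1 hb.1.1
    rw [k1, hb1, mul_one] at e1
    exact e1.symm
  have k3 : res M h χ = 1 := by
    rw [H94.res_over N hN hχ hψ hover hidem.1 hsupp, k2]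
  have k4 : mulF e h ≠ 0 := by
    intro h0
    have e1 := H75.res_mulF hχ he.1.1 hidem.1
    rw [h0, H75.res_zero, h1, k3, mul_one] at e1
    exact zero_ne_one e1
  have k5 : mulF e h = e := (he.2.2 h hidem).resolve_right k4
  -- the map on `N`
  have hqk : (p.subgroupMap N).ker = p.ker.subgroupOf N := by
    ext x
    rw [MonoidHom.mem_ker, Subgroup.mem_subgroupOf, MonoidHom.mem_ker]
    constructor
    · intro h
      exact congrArg Subtype.val h
    · intro h
      exact Subtype.ext h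
  have hqO : (p.subgroupMap N).ker = opCore ℓ N := by
    rw [hqk, hker, H75.opCore_sub hℓ hN]
  have hNB : (N.map p).Normal := hN.map p hsurj
  have hcyo : CyO ℓ (N.map p) (push p e) := by
    refine ⟨push p h, H75.push_isIdem hsurj hidem, push_supp p hsupp, ?_, ?_⟩
    · rw [← H75.push_mulF, k5]
    · intro Q hQN hQ hbr
      obtain ⟨y, hy, hyne⟩ := exists_of_br_ne hbr
      rw [hh, push_fsum] at hyne
      obtain ⟨f, -, hf⟩ := Finset.exists_ne_zero_of_sum_ne_zero hyne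
      obtain ⟨g, rfl⟩ := H75.omk_surj f
      change push p (cj g (ext0 N b)) y ≠ 0 at hf
      rw [push_cj, H75.push_ext0, cj] at hf
      have hyN : (p g)⁻¹ * y * p g ∈ N.map p := by
        by_contra hcon
        exact hf (H46.ext0_of_not_mem _ hcon)
      rw [H46.ext0_of_mem _ hyN] at hf
      have hle : conjS (p g)⁻¹ Q ≤ N.map p := by
        intro z hz
        rw [mem_conjS, inv_inv] at hz
        have h3 := hNB.conj_mem _ (hQN hz) (p g)⁻¹
        have h4 : (p g)⁻¹ * (p g * z * (p g)⁻¹) * (p g)⁻¹⁻¹ = z := by group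
        rwa [h4] at h3
      have h5 := core2 inv hℓ hM H50.fld (p.subgroupMap_surjective N) hqO hψ hb hb1 hS
        ((conjS (p g)⁻¹ Q).subgroupOf (N.map p)) ?_ (br_ne_of
          (y := ⟨(p g)⁻¹ * y * p g, hyN⟩) ?_ hf)
      · have h6 : IsCyclic (conjS (p g)⁻¹ Q) :=
          isCyclic_of_surjective (Subgroup.subgroupOfEquivOfLe hle).toMonoidHom
            (Subgroup.subgroupOfEquivOfLe hle).surjective
        exact isCyclic_of_surjective (conjSEquiv (p g)⁻¹ Q).symm.toMonoidHom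
          (conjSEquiv (p g)⁻¹ Q).symm.surjective
      · have hQ' : IsPGroup ℓ (conjS (p g)⁻¹ Q) := by
          rw [IsPGroup.iff_card] at hQ ⊢
          rw [card_conjS]
          exact hQ
        exact hQ'.of_equiv (Subgroup.subgroupOfEquivOfLe hle).symm
      · rw [Subgroup.mem_centralizer_iff]
        intro z hz
        have hz' : (z : G ⧸ opCore ℓ G) ∈ conjS (p g)⁻¹ Q := hz
        rw [mem_conjS, inv_inv] at hz'
        have h6 := Subgroup.mem_centralizer_iff.1 hy _ hz'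
        apply Subtype.ext
        change (z : G ⧸ opCore ℓ G) * ((p g)⁻¹ * y * p g) = (p g)⁻¹ * y * p g * z
        calc (z : G ⧸ opCore ℓ G) * ((p g)⁻¹ * y * p g) =
            (p g)⁻¹ * ((p g * z * (p g)⁻¹) * y) * p g := by group
          _ = (p g)⁻¹ * (y * (p g * z * (p g)⁻¹)) * p g := by rw [h6]
          _ = (p g)⁻¹ * y * p g * z := by group
  have h0 : YY ℓ (⊤ : Subgroup (G ⧸ opCore ℓ G)) (push p e) = 0 :=
    d2a ℓ (FF M) hF _ (N.map p) hNB _ (H75.push_isIdem hsurj he.1) hpos hcyo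
  rw [h0, mul_zero] at heq
  rcases mul_eq_zero.1 heq with h | h
  · exact absurd h (by exact_mod_cast (Nat.card_pos (α := G)).ne')
  · exact h

end main

end Pool.Agent.PP.CD2.H29
end
end -- Pool.Agent.Helper29_D2.Fd2

section -- Pool.Agent.Helper66_DF.DblE

/-!
# Squad DF, module DBL: the doubling theorem with control of the defect groups

The proofs of `inner`, `dbl_core` and `dbln` (Helper94_PP) with the extra hypothesis `DfE`.
-/

open scoped BigOperators

set_option linter.unusedSectionVars false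

noncomputable section

namespace Pool.Agent.DF

open Pool.Agent.Helper51_AWC Pool.Agent.Helper79_WRA Pool.Agent.PP Pool.Agent.PP.H94

section dfs

variable {ℓ : ℕ} {𝒟 : (Q : Type) → [Group Q] → Prop} {F : Type} [Field F] {X : Type} [Group X]
  [Finite X] {Y : Subgroup X} [hY : Y.Normal]

/-- the double of `f` on `Y × 1` -/
theorem df_sig (h𝒟 : SubCl 𝒟) {f : X → F} (h : DfE ℓ 𝒟 f Y) :
    DfE ℓ 𝒟 (sig Y f f) (pr2 Y).ker := by
  intro Q hQ hp hg
  obtain ⟨g, hg, hg'⟩ := hg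
  have hQ1 : ∀ q ∈ Q, q.1.2 = 1 := fun q hq => hQ hq
  have h1 : 𝒟 (Q.map (pr1 Y)) := by
    refine h (Q.map (pr1 Y)) ?_ (hp.map _) ⟨g.1.1, ?_, ?_⟩
    · rintro _ ⟨q, hq, rfl⟩
      change q.1.1 ∈ Y
      rw [fst_mem_iff, hQ1 q hq]
      exact Y.one_mem
    · rw [Subgroup.mem_centralizer_iff]
      rintro _ ⟨q, hq, rfl⟩
      exact congrArg (fun z : Lam Y => z.1.1) (Subgroup.mem_centralizer_iff.1 hg q hq)
    · intro h0
      apply hg'
      change f g.1.1 * f (g.1.2)⁻¹ = 0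
      rw [h0, zero_mul]
  let i : Q →* Q.map (pr1 Y) := (pr1 Y).subgroupMap Q
  refine h𝒟 Q (Q.map (pr1 Y)) i ?_ h1
  intro p q hpq
  have h2 : p.1.1.1 = q.1.1.1 := congrArg (fun z : Q.map (pr1 Y) => (z : X)) hpq
  apply Subtype.ext
  apply lam_ext h2
  rw [hQ1 _ p.2, hQ1 _ q.2]

theorem df_eu (h𝒟 : SubCl 𝒟) (hF : GoodF ℓ F) {f : X → F} (hf : SBlk Y f) (h : DfE ℓ 𝒟 f Y)
    {E : Lam Y → F} (hE : IsIdem E) (hEf : mulF E (sig Y f f) = E) (R : Subgroup (Lam Y))
    (L : Subgroup (Lam Y)) :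
    DfE ℓ 𝒟 (fun t : L => br R E t) ((pr2 Y).comp L.subtype).ker := by
  have h1 := df_sig h𝒟 h
  have h2 : IsCl (sig Y f f) := (H46.sblk_sig hF.closed hf).cl
  have h3 : DfE ℓ 𝒟 E (pr2 Y).ker := by
    refine DfE.le hF h2 hE.1 ?_ h1
    rw [H20.mulF_comm_of_cl h2, hEf]
  refine DfE.br h𝒟 R h3 ?_
  rintro _ ⟨q, hq, rfl⟩
  exact hq

end dfs

section inner

variable {ℓ : ℕ} {F : Type} [Field F] {X : Type} [Group X] [Finite X] {Y : Subgroup X}
  [hY : Y.Normal]

/-- the hypothesis on the groups `H₁` with a normal subgroup `Q₁ ≅ Y` -/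
def HypYE (ℓ : ℕ) (𝒟 : (Q : Type) → [Group Q] → Prop) (F : Type) [Field F] {X : Type} [Group X] (Y : Subgroup X) : Prop :=
  ∀ (H₁ : Type) [Group H₁] [Finite H₁] (Q₁ : Subgroup H₁), Q₁.Normal → Nonempty (Q₁ ≃* Y) →
    mu Q₁ ≤ mu Y → (∃ n : ℕ, Subgroup.lowerCentralSeries (⊤ : Subgroup H₁) n ≤
      Q₁ ⊔ Subgroup.centralizer (Q₁ : Set H₁)) → (∃ i : H₁ →* X × X, Function.Injective i) →
      YHE ℓ 𝒟 F Q₁

open Classical in
/-- The inner sum at a normal chain `u` of the second factor vanishes. -/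
theorem innerE {𝒟 : (Q : Type) → [Group Q] → Prop} (h𝒟 : SubCl 𝒟) (hnls : NlsStmt) (hbrm : BrmStmt) (hnch : NchStmt) (hps3 : Ps3Stmt)
    (hlct : LctStmt) (hF : GoodF ℓ F) {f : X → F} (hf : SBlk Y f)
    (hdz : ¬ DZ ℓ (fun t : Y => f t)) (hnil : NilMod (⊤ : Subgroup X) Y) (hdf : DfE ℓ 𝒟 f Y)
    (hH : HypYE ℓ 𝒟 F Y)
    {E : Lam Y → F} (hE : IsIdem E) (hEf : mulF E (sig Y f f) = E) {u : Finset (Subgroup X)}
    (hu : u ∈ chainsOn (psubIn ℓ Y) ⊥) (hun : NormalChain u) :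
    ∑ t ∈ (chainsOn (psubIn ℓ Y) ⊥).filter NormalChain, (-1 : ℤ) ^ (t.card + 1) *
      ((Nat.card (((stab t).prod (stab u)).subgroupOf (Lam Y)) : ℤ) *
        (lnum (((stab t).prod (stab u)).subgroupOf (Lam Y)) E : ℤ)) = 0 := by
  have hfact : Fact ℓ.Prime := ⟨hF.prime⟩
  have hlu := hlct ℓ X Y hF.prime u hu hun
  set Λu : Subgroup (Lam Y) := (stab u).comap (pr2 Y) with hΛu
  set R1 : Subgroup (Lam Y) := ((⊥ : Subgroup X).prod (top u)).subgroupOf (Lam Y) with hR1
  set φ : Λu →* X := (pr1 Y).comp Λu.subtype with hφ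
  set Q₁ : Subgroup Λu := ((pr2 Y).comp Λu.subtype).ker with hQ₁
  set eu : Λu → F := fun t => br R1 E t with heu
  have hmemQ : ∀ q : Λu, q ∈ Q₁ ↔ q.1.1.2 = 1 := fun q => Iff.rfl
  have hQY : ∀ q : Λu, q ∈ Q₁ → q.1.1.1 ∈ Y := by
    intro q hq
    rw [fst_mem_iff, (hmemQ q).1 hq]
    exact Y.one_mem
  have hR1p : IsPGroup ℓ R1 := by
    have := (loc_prod (⟨IsPGroup.of_bot, bot_le, bot_le, le_top, ?_⟩ : Loc ℓ Y ⊥ ⊤) hlu).pgrp
    · exact this
    · intro x _
      rw [Subgroup.mem_normalizer_iff]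
      intro y
      rw [Subgroup.mem_bot, Subgroup.mem_bot]
      constructor
      · rintro rfl
        group
      · intro h
        have h1 := congrArg (fun z => x⁻¹ * z * x) h
        have e : x⁻¹ * (x * y * x⁻¹) * x = y := by group
        change x⁻¹ * (x * y * x⁻¹) * x = x⁻¹ * 1 * x at h1
        rw [e] at h1
        rw [h1]
        group
  have hcR1 : ∀ p : Lam Y, p ∈ Subgroup.centralizer (R1 : Set (Lam Y)) ↔
      p.1.2 ∈ Subgroup.centralizer ((top u : Subgroup X) : Set X) := by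
    intro p
    rw [Subgroup.mem_centralizer_iff, Subgroup.mem_centralizer_iff]
    constructor
    · intro h r hr
      have := h (inR ⟨r, hlu.le hr⟩) ⟨(⊥ : Subgroup X).one_mem, hr⟩
      exact congrArg (fun q : Lam Y => q.1.2) this
    · rintro h r ⟨hr1, hr2⟩
      apply lam_ext
      · have h1 : r.1.1 = 1 := (Subgroup.mem_bot).1 hr1
        change r.1.1 * p.1.1 = p.1.1 * r.1.1
        rw [h1, one_mul, mul_one]
      · exact h _ hr2
  have hc1 : Subgroup.centralizer (R1 : Set (Lam Y)) ≤ Λu := by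
    intro p hp
    exact hlu.cent ((hcR1 p).1 hp)
  have hn1 : Λu ≤ Subgroup.normalizer (R1 : Set (Lam Y)) := by
    intro p hp
    rw [Subgroup.mem_normalizer_iff]
    intro q
    have e2 := (Subgroup.mem_normalizer_iff.1 (hlu.norm hp)) q.1.2
    refine and_congr ?_ e2
    change q.1.1 ∈ (⊥ : Subgroup X) ↔ p.1.1 * q.1.1 * (p.1.1)⁻¹ ∈ (⊥ : Subgroup X)
    rw [Subgroup.mem_bot, Subgroup.mem_bot]
    constructor
    · intro h
      rw [h]
      group
    · intro h
      have h1 := congrArg (fun z => (p.1.1)⁻¹ * z * p.1.1) h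
      have e : (p.1.1)⁻¹ * (p.1.1 * q.1.1 * (p.1.1)⁻¹) * p.1.1 = q.1.1 := by group
      change (p.1.1)⁻¹ * (p.1.1 * q.1.1 * (p.1.1)⁻¹) * p.1.1 = (p.1.1)⁻¹ * 1 * p.1.1 at h1
      rw [e] at h1
      rw [h1]
      group
  have hidem : IsIdem eu := (hbrm ℓ F hF (Lam Y) R1 Λu hR1p hc1 hn1).2.2 E hE
  -- the isomorphism
  let e : Q₁ ≃* Y :=
    { toFun := fun q => ⟨q.1.1.1.1, hQY q.1 q.2⟩
      invFun := fun y => ⟨⟨inL y, by
        change (1 : X) ∈ stab u
        exact (stab u).one_mem⟩, (hmemQ _).2 rfl⟩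
      left_inv := fun q => Subtype.ext (Subtype.ext (lam_ext rfl ((hmemQ _).1 q.2).symm))
      right_inv := fun y => rfl
      map_mul' := fun q q' => rfl }
  have hmapQ : Q₁.map φ = Y := by
    ext y
    constructor
    · rintro ⟨q, hq, rfl⟩
      exact hQY q hq
    · intro hy
      exact ⟨(e.symm ⟨y, hy⟩ : Q₁), (e.symm ⟨y, hy⟩).2, rfl⟩
  have hcommQ : ∀ k : Λu, φ k = 1 → ∀ m ∈ Q₁, k * m = m * k := by
    intro k hk m hm
    apply Subtype.ext
    apply lam_ext
    · change k.1.1.1 * m.1.1.1 = m.1.1.1 * k.1.1.1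
      have h1 : k.1.1.1 = 1 := hk
      rw [h1, one_mul, mul_one]
    · change k.1.1.2 * m.1.1.2 = m.1.1.2 * k.1.1.2
      rw [(hmemQ m).1 hm, one_mul, mul_one]
  have hkerQ : ¬ ℓ ∣ Nat.card (φ.ker ⊓ Q₁ : Subgroup Λu) := by
    have h1 : (φ.ker ⊓ Q₁ : Subgroup Λu) = ⊥ := by
      rw [eq_bot_iff]
      rintro q ⟨h1, h2⟩
      rw [Subgroup.mem_bot]
      exact Subtype.ext (lam_ext h1 ((hmemQ q).1 h2))
    rw [h1, Subgroup.card_bot]
    exact fun h => hF.prime.one_lt.ne' (Nat.dvd_one.1 h)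
  have hmu : mu Q₁ ≤ mu Y := by
    have h0 : mu Y = ((Subgroup.center X).comap φ).relIndex Q₁ := by
      rw [Subgroup.relIndex_comap, hmapQ]
      rfl
    rw [h0, ← Subgroup.inf_relIndex_right _ Q₁]
    refine Subgroup.relIndex_le_of_le_left ?_ ?_
    · rintro q ⟨h1, h2⟩
      rw [Subgroup.mem_center_iff]
      intro k
      apply Subtype.ext
      apply lam_ext
      · have h3 := Subgroup.mem_center_iff.1 h1 k.1.1.1
        exact h3
      · change k.1.1.2 * q.1.1.2 = q.1.1.2 * k.1.1.2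
        rw [(hmemQ q).1 h2, one_mul, mul_one]
    · exact Subgroup.FiniteIndex.index_ne_zero
  have hout : ∃ n : ℕ, Subgroup.lowerCentralSeries (⊤ : Subgroup Λu) n ≤
      Q₁ ⊔ Subgroup.centralizer (Q₁ : Set Λu) := by
    obtain ⟨n, hn⟩ := hnil
    refine ⟨n, fun q hq => ?_⟩
    have h1 : q.1.1.1 ∈ Y := hn (lcs_mem φ hq)
    set a : Q₁ := e.symm ⟨q.1.1.1, h1⟩ with ha
    have h2 : (a : Λu)⁻¹ * q ∈ Subgroup.centralizer (Q₁ : Set Λu) := by
      rw [Subgroup.mem_centralizer_iff]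
      intro m hm
      refine (hcommQ _ ?_ m hm).symm
      change (q.1.1.1)⁻¹ * q.1.1.1 = 1
      exact inv_mul_cancel _
    have h3 := Subgroup.mul_mem_sup a.2 h2
    rwa [mul_inv_cancel_left] at h3
  -- positivity
  have hext : PP.ext0 Q₁ (fun q : Q₁ => f q.1.1.1.1) = fun t : Λu => ft Y f t := by
    funext t
    unfold PP.ext0 ft
    by_cases h : t ∈ Q₁
    · rw [dif_pos h, if_pos ((hmemQ t).1 h)]
    · rw [dif_neg h, if_neg (fun h' => h ((hmemQ t).2 h'))]
  have hpos : Pos ℓ eu Q₁ := by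
    refine (hps3 ℓ F hF Λu Q₁ inferInstance (fun q : Q₁ => f q.1.1.1.1) ?_ ?_ eu hidem ?_).1 ?_
    · exact H18.blk_equiv e hf.blk
    · rw [hext, eq_top_iff]
      intro g _ x
      change ft Y f ((g : Lam Y) * x * (g : Lam Y)⁻¹) = ft Y f x
      unfold ft
      have h1 : ((g : Lam Y) * x * (g : Lam Y)⁻¹).1.2 = 1 ↔ (x : Lam Y).1.2 = 1 := by
        change g.1.1.2 * x.1.1.2 * (g.1.1.2)⁻¹ = 1 ↔ x.1.1.2 = 1
        rw [mul_inv_eq_one]
        constructor
        · intro h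
          exact mul_left_cancel (a := g.1.1.2) (by rw [h, mul_one])
        · intro h
          rw [h, mul_one]
      by_cases h : (x : Lam Y).1.2 = 1
      · rw [if_pos h, if_pos (h1.2 h)]
        exact hf.cl x.1.1.1 g.1.1.1
      · rw [if_neg h, if_neg (fun h' => h (h1.1 h'))]
    · rw [hext, heu, ← H75.mulF_res Λu (ft Y f)
        (fun x hx => H66.br_of_not_mem (fun h => hx (hc1 h)))]
      have hsup : ∀ t, t ∉ Subgroup.centralizer (R1 : Set (Lam Y)) → ft Y f t = 0 := by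
        intro t ht
        unfold ft
        rw [if_neg]
        intro h
        apply ht
        rw [hcR1, h]
        exact one_mem _
      rw [← br_mul_right hsup]
      have h3 : mulF E (ft Y f) = E := by
        rw [← hEf, mulF_assoc, sig_ft hf]
      rw [h3]
    · intro h
      exact hdz (dz_equiv e h)
  -- the hypothesis
  have h1 : YY ℓ Q₁ eu = 0 := hH Λu Q₁ inferInstance ⟨e⟩ hmu hout
    ⟨(Lam Y).subtype.comp Λu.subtype, (Lam Y).subtype_injective.comp Λu.subtype_injective⟩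
    eu hidem hpos (df_eu h𝒟 hF hf hdf hE hEf R1 Λu)
  unfold YY at h1
  have h2 := H74.chf hF.prime φ Q₁ inferInstance hcommQ hkerQ
    (fun S => (Nat.card S : ℤ) * (lnum S eu : ℤ))
  rw [h2, hmapQ, hnch ℓ X Y (fun S _ => (Nat.card (S.comap φ) : ℤ) *
    (lnum (S.comap φ) eu : ℤ))] at h1
  rw [← h1]
  refine Finset.sum_congr rfl fun t ht => ?_
  rw [Finset.mem_filter] at ht
  have hlt := hlct ℓ X Y hF.prime t ht.1 ht.2
  have hloc := loc_prod hlt hlu
  set S2 : Subgroup (Lam Y) := ((stab t).prod (stab u)).subgroupOf (Lam Y) with hS2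
  have hmapS : ((stab t).comap φ).map Λu.subtype = S2 := by
    ext p
    constructor
    · rintro ⟨q, hq, rfl⟩
      exact ⟨hq, q.2⟩
    · rintro ⟨h3, h4⟩
      exact ⟨⟨p, h4⟩, h3, rfl⟩
  have e1 : lnum ((stab t).comap φ) eu = lnum S2 (br R1 E) := by
    rw [← hmapS, H75.lnum_map Λu.subtype Λu.subtype_injective]
    rfl
  have e2 : Nat.card ((stab t).comap φ) = Nat.card S2 := by
    rw [← hmapS, Subgroup.card_map_of_injective Λu.subtype_injective]
  have e3 : lnum S2 (br R1 E) = lnum S2 E := by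
    refine lnum_congr_br hF hnls hloc.pgrp hloc.leS hloc.norm ?_ ?_ ?_
    · intro x y
      exact hidem.1 ⟨x, x.2.2⟩ ⟨y, y.2.2⟩
    · intro x y
      exact hE.1 _ _
    · funext p
      by_cases hp : p ∈ Subgroup.centralizer
          ((((top t).prod (top u)).subgroupOf (Lam Y) : Subgroup (Lam Y)) : Set (Lam Y))
      · rw [H66.br_of_mem hp, H66.br_of_mem hp, H66.br_of_mem]
        refine Subgroup.centralizer_le ?_ hp
        rintro r ⟨hr1, hr2⟩
        refine ⟨?_, hr2⟩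
        have h5 : r.1.1 = 1 := (Subgroup.mem_bot).1 hr1
        change r.1.1 ∈ top t
        rw [h5]
        exact (top t).one_mem
      · rw [H66.br_of_not_mem hp, H66.br_of_not_mem hp]
  rw [e1, e2, e3]

end inner

section final

variable {ℓ : ℕ} {F : Type} [Field F] {τ : F → ℂ} {X : Type} [Group X] [Finite X]
  {Y : Subgroup X} [hY : Y.Normal]

open Classical in
/-- DBL for groups which are nilpotent modulo `Y` -/
theorem dbl_coreE {𝒟 : (Q : Type) → [Group Q] → Prop} (h𝒟 : SubCl 𝒟) (hnls : NlsStmt) (hbrm : BrmStmt) (hnch : NchStmt) (hps3 : Ps3Stmt)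
    (hlct : LctStmt) (hcl : ClStmt) (hloc : LocStmt) (hxf : XfsStmt) (hinn : InnStmt)
    (htfa : TfaStmt) (huni : UniStmt) (hdb1 : Db1Stmt) (hssp : SspStmt)
    (hF : GoodF ℓ F) (hτ : IsLift τ) {f : X → F} (hf : SBlk Y f)
    (hdz : ¬ DZ ℓ (fun t : Y => f t)) (hnil : NilMod (⊤ : Subgroup X) Y) (hdf : DfE ℓ 𝒟 f Y)
    (hH : HypYE ℓ 𝒟 F Y) :
    DAll τ ℓ Y f := by
  have hfact : Fact ℓ.Prime := ⟨hF.prime⟩
  have hfX := Fintype.ofFinite X
  have hfY := Fintype.ofFinite Y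
  have hfL := Fintype.ofFinite (Lam Y)
  obtain ⟨hxu, hXn, hYX, hun, -⟩ := hxf ℓ F hF X Y hY f hf
  obtain ⟨u, u', hu, hucos⟩ := exists_units hxf hF Y hY hf
  set J := XF f Y with hJ
  have hnilJ : NilMod J Y := by
    obtain ⟨n, hn⟩ := hnil
    exact ⟨n, (lcs_mono le_top n).trans hn⟩
  obtain ⟨hS, hunit, E, hE, hEf, hsupp, hBB⟩ := hdb1 ℓ F hF τ hτ X Y f hf hnilJ
  set M := fstP Y J with hM
  have hMn : M.Normal := fstP_normal hXn
  have hYM : YY2 Y ≤ M := by
    rintro p ⟨h1, -⟩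
    exact hYX h1
  have hMX : M ≤ XF (sig Y f f) (YY2 Y) := by
    intro p hp
    obtain ⟨v, v', hv⟩ := (hxu _).1 hp
    exact Subgroup.subset_closure ⟨_, _, hunit v v' p hv⟩
  let cond : X → X → Prop := fun x y => RegM ℓ J x ∧ x * y * x⁻¹ * y⁻¹ ∈ J
  set N := (chainsOn (psubIn ℓ Y) (⊥ : Subgroup X)).filter NormalChain with hN
  -- one pair of chains
  have h1 : ∀ t ∈ N, ∀ s ∈ N, ∑ p : Lam Y, ∑ q : Lam Y, (if cond p.1.1 q.1.1 then
      tm τ Y f t p.1.1 q.1.1 (u p.1.1 q.1.1) *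
        (starRingEnd ℂ) (tm τ Y f s p.1.2 q.1.2 (u p.1.1 q.1.1)) else 0) =
      (-1 : ℂ) ^ (s.card + 1) * ((YY2 Y).relIndex M : ℂ) * ((-1 : ℂ) ^ (t.card + 1) *
        ((Nat.card (((stab t).prod (stab s)).subgroupOf (Lam Y)) : ℂ) *
          (lnum (((stab t).prod (stab s)).subgroupOf (Lam Y)) E : ℂ))) := by
    intro t ht s hs
    rw [hN, Finset.mem_filter] at ht hs
    have hlt := hlct ℓ X Y hF.prime t ht.1 ht.2
    have hls := hlct ℓ X Y hF.prime s hs.1 hs.2
    have h2 := loc_sum hcl htfa hinn hloc hF hτ (YY2 Y) YY2_normal hS (loc_prod hlt hls) M hMn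
      hYM hMX hE hEf hsupp (fun p q => sig Y (u p.1.1 q.1.1) (u' p.1.1 q.1.1))
      (fun p q => sig Y (u' p.1.1 q.1.1) (u p.1.1 q.1.1))
      (fun p q hpq => hunit _ _ (p * q * p⁻¹ * q⁻¹) (hu p.1.1 q.1.1 hpq))
    have h3 : (-1 : ℂ) ^ (s.card + 1) * ((YY2 Y).relIndex M : ℂ) * ((-1 : ℂ) ^ (t.card + 1) *
        ((Nat.card (((stab t).prod (stab s)).subgroupOf (Lam Y)) : ℂ) *
          (lnum (((stab t).prod (stab s)).subgroupOf (Lam Y)) E : ℂ))) =
        ((-1 : ℂ) ^ (t.card + 1) * (-1 : ℂ) ^ (s.card + 1)) * (((YY2 Y).relIndex M : ℂ) *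
        ((Nat.card (((stab t).prod (stab s)).subgroupOf (Lam Y)) : ℂ) *
          (lnum (((stab t).prod (stab s)).subgroupOf (Lam Y)) E : ℂ))) := by ring
    rw [h3, h2, Finset.mul_sum]
    refine Finset.sum_congr rfl fun p _ => ?_
    rw [Finset.mul_sum]
    refine Finset.sum_congr rfl fun q _ => ?_
    have hcond : (RegM ℓ M p ∧ p * q * p⁻¹ * q⁻¹ ∈ M) ↔ cond p.1.1 q.1.1 := Iff.rfl
    by_cases hc : cond p.1.1 q.1.1
    · rw [if_pos hc]
      unfold tm
      by_cases hpt : p.1.1 ∈ stab t ∧ q.1.1 ∈ stab t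
      · by_cases hps : p.1.2 ∈ stab s ∧ q.1.2 ∈ stab s
        · rw [if_pos hpt, if_pos hps, if_pos ⟨⟨⟨hpt.1, hps.1⟩, ⟨hpt.2, hps.2⟩⟩, hcond.2 hc⟩]
          rw [hBB p q _ _ (hu p.1.1 q.1.1 hc.2),
            hssp ℓ F hF τ hτ X Y f hf _ _ _ _ hlt hls p q hpt.1 hpt.2 hps.1 hps.2 _ _
              (hu p.1.1 q.1.1 hc.2), card_YY2]
          rw [map_mul, map_mul, map_pow, map_neg, map_one, map_inv₀, map_natCast]
          push_cast
          rw [mul_inv]
          ring
        · rw [if_neg hps, map_zero, mul_zero, if_neg, mul_zero]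
          rintro ⟨⟨h4, h5⟩, -⟩
          exact hps ⟨h4.2, h5.2⟩
      · rw [if_neg hpt, zero_mul, if_neg, mul_zero]
        rintro ⟨⟨h4, h5⟩, -⟩
        exact hpt ⟨h4.1, h5.1⟩
    · rw [if_neg hc, if_neg, mul_zero]
      rintro ⟨-, h4⟩
      exact hc (hcond.1 h4)
  -- the sum over all pairs of chains
  have key : ∑ p : Lam Y, ∑ q : Lam Y, (if cond p.1.1 q.1.1 then
      D1 τ ℓ Y f p.1.1 q.1.1 (u p.1.1 q.1.1) *
        (starRingEnd ℂ) (D1 τ ℓ Y f p.1.2 q.1.2 (u p.1.1 q.1.1)) else 0) = 0 := by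
    have h2 : ∀ p q : Lam Y, (if cond p.1.1 q.1.1 then
        D1 τ ℓ Y f p.1.1 q.1.1 (u p.1.1 q.1.1) *
          (starRingEnd ℂ) (D1 τ ℓ Y f p.1.2 q.1.2 (u p.1.1 q.1.1)) else 0) =
        ∑ t ∈ N, ∑ s ∈ N, (if cond p.1.1 q.1.1 then
          tm τ Y f t p.1.1 q.1.1 (u p.1.1 q.1.1) *
          (starRingEnd ℂ) (tm τ Y f s p.1.2 q.1.2 (u p.1.1 q.1.1)) else 0) := by
      intro p q
      by_cases hc : cond p.1.1 q.1.1
      · simp only [if_pos hc]
        unfold D1
        rw [map_sum, Finset.sum_mul_sum]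
      · simp only [if_neg hc]
        rw [Finset.sum_const_zero, Finset.sum_const_zero]
    simp only [h2]
    have h3 : ∑ p : Lam Y, ∑ q : Lam Y, ∑ t ∈ N, ∑ s ∈ N, (if cond p.1.1 q.1.1 then
          tm τ Y f t p.1.1 q.1.1 (u p.1.1 q.1.1) *
          (starRingEnd ℂ) (tm τ Y f s p.1.2 q.1.2 (u p.1.1 q.1.1)) else 0) =
        ∑ s ∈ N, ∑ t ∈ N, ∑ p : Lam Y, ∑ q : Lam Y, (if cond p.1.1 q.1.1 then
          tm τ Y f t p.1.1 q.1.1 (u p.1.1 q.1.1) *
          (starRingEnd ℂ) (tm τ Y f s p.1.2 q.1.2 (u p.1.1 q.1.1)) else 0) := by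
      calc _ = ∑ p : Lam Y, ∑ t ∈ N, ∑ q : Lam Y, ∑ s ∈ N, _ :=
            Finset.sum_congr rfl fun p _ => Finset.sum_comm
        _ = ∑ t ∈ N, ∑ p : Lam Y, ∑ q : Lam Y, ∑ s ∈ N, _ := Finset.sum_comm
        _ = ∑ t ∈ N, ∑ p : Lam Y, ∑ s ∈ N, ∑ q : Lam Y, _ :=
            Finset.sum_congr rfl fun t _ => Finset.sum_congr rfl fun p _ => Finset.sum_comm
        _ = ∑ t ∈ N, ∑ s ∈ N, ∑ p : Lam Y, ∑ q : Lam Y, _ :=
            Finset.sum_congr rfl fun t _ => Finset.sum_comm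
        _ = _ := Finset.sum_comm
    rw [h3]
    refine Finset.sum_eq_zero fun s hs => ?_
    rw [Finset.sum_congr rfl fun t ht => h1 t ht s hs, ← Finset.mul_sum]
    have hs' := hs
    rw [hN, Finset.mem_filter] at hs'
    have h4 := innerE h𝒟 hnls hbrm hnch hps3 hlct hF hf hdz hnil hdf hH hE hEf hs'.1 hs'.2
    have h5 : ((∑ t ∈ (chainsOn (psubIn ℓ Y) (⊥ : Subgroup X)).filter NormalChain,
      (-1 : ℤ) ^ (t.card + 1) *
      ((Nat.card (((stab t).prod (stab s)).subgroupOf (Lam Y)) : ℤ) *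
        (lnum (((stab t).prod (stab s)).subgroupOf (Lam Y)) E : ℤ)) : ℤ) : ℂ) = 0 := by
      rw [h4, Int.cast_zero]
    push_cast at h5
    rw [h5, mul_zero]
  -- sums over `X`
  let Δ : X → X → ℂ := fun a b => DJ τ ℓ Y f a b (u a b)
  let g : X → X → ℂ := fun a b => if cond a b then
    D1 τ ℓ Y f a b (u a b) * (starRingEnd ℂ) (Δ a b) else 0
  have hg : ∑ a : X, ∑ b : X, g a b = 0 := by
    rw [← key, sum_lam]
    refine Finset.sum_congr rfl fun a _ => ?_
    have h2 : ∀ n : Y, ∑ q : Lam Y, (if cond (mkL a n).1.1 q.1.1 then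
        D1 τ ℓ Y f (mkL a n).1.1 q.1.1 (u (mkL a n).1.1 q.1.1) *
        (starRingEnd ℂ) (D1 τ ℓ Y f (mkL a n).1.2 q.1.2 (u (mkL a n).1.1 q.1.1)) else 0) =
        ∑ b : X, ∑ m : Y, (if cond a b then D1 τ ℓ Y f a b (u a b) *
        (starRingEnd ℂ) (D1 τ ℓ Y f (a * n) (b * m) (u a b)) else 0) := by
      intro n
      rw [sum_lam]
      rfl
    simp only [h2]
    rw [Finset.sum_comm]
    refine Finset.sum_congr rfl fun b _ => ?_
    change (if cond a b then D1 τ ℓ Y f a b (u a b) * (starRingEnd ℂ) (Δ a b) else 0) = _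
    by_cases hc : cond a b
    · simp only [if_pos hc]
      change _ * (starRingEnd ℂ) (DJ τ ℓ Y f a b (u a b)) = _
      rw [DJ_eq, map_sum, Finset.mul_sum]
      refine Finset.sum_congr rfl fun n _ => ?_
      rw [map_sum, Finset.mul_sum]
    · simp only [if_neg hc]
      rw [Finset.sum_const_zero, Finset.sum_const_zero]
  have h2 := avg (Y := Y) g hg
  have hcondm : ∀ (a b : X) (n m : Y), cond (a * n) (b * m) ↔ cond a b := by
    intro a b n m
    exact and_congr (regM_mul hXn a n (hYX n.2))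
      (comm_mul_mem hXn a b n m (hYX n.2) (hYX m.2))
  have h3 : ∀ a b : X, ∑ n : Y, ∑ m : Y, g (a * n) (b * m) =
      if cond a b then ((Complex.normSq (Δ a b) : ℝ) : ℂ) else 0 := by
    intro a b
    by_cases hc : cond a b
    · rw [if_pos hc, ← Complex.mul_conj]
      have h4 : ∀ n m : Y, g (a * n) (b * m) = D1 τ ℓ Y f (a * n) (b * m) (u a b) *
          (starRingEnd ℂ) (Δ a b) := by
        intro n m
        change (if cond (a * n) (b * m) then D1 τ ℓ Y f (a * n) (b * m) (u (a * n) (b * m)) *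
          (starRingEnd ℂ) (DJ τ ℓ Y f (a * n) (b * m) (u (a * n) (b * m))) else 0) = _
        rw [if_pos ((hcondm a b n m).2 hc), hucos a b n m n.2 m.2, DJ_mul]
      simp only [h4]
      simp only [← Finset.sum_mul]
      congr 1
      exact (DJ_eq f a b (u a b)).symm
    · rw [if_neg hc]
      refine Finset.sum_eq_zero fun n _ => Finset.sum_eq_zero fun m _ => ?_
      change (if cond (a * n) (b * m) then _ else _) = _
      rw [if_neg (fun h => hc ((hcondm a b n m).1 h))]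
  simp only [h3] at h2
  have h4 : ∑ a : X, ∑ b : X, (if cond a b then Complex.normSq (Δ a b) else 0) = 0 := by
    have h5 : ((∑ a : X, ∑ b : X, (if cond a b then Complex.normSq (Δ a b) else 0) : ℝ) : ℂ) =
        0 := by
      rw [← h2]
      push_cast
      refine Finset.sum_congr rfl fun a _ => Finset.sum_congr rfl fun b _ => ?_
      by_cases hc : cond a b
      · rw [if_pos hc, if_pos hc]
      · rw [if_neg hc, if_neg hc, Complex.ofReal_zero]
    exact_mod_cast h5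
  intro x y hx hxy
  have h5 := (Finset.sum_eq_zero_iff_of_nonneg (fun a _ => Finset.sum_nonneg fun b _ => by
    by_cases hc : cond a b
    · rw [if_pos hc]; exact Complex.normSq_nonneg _
    · rw [if_neg hc])).1 h4 x (Finset.mem_univ _)
  have h6 := (Finset.sum_eq_zero_iff_of_nonneg (fun b _ => by
    by_cases hc : cond x b
    · rw [if_pos hc]; exact Complex.normSq_nonneg _
    · rw [if_neg hc])).1 h5 y (Finset.mem_univ _)
  rw [if_pos (⟨hx, hxy⟩ : cond x y)] at h6
  exact huni ℓ F hF τ hτ X Y hY f hf x y _ _ (hu x y hxy) (Complex.normSq_eq_zero.1 h6)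

end final

/-- DBL (J-III) -/
theorem dblnE (hnls : NlsStmt) (hbrm : BrmStmt) (hnch : NchStmt) (hps3 : Ps3Stmt)
    (hlct : LctStmt) (hcl : ClStmt) (hloc : LocStmt) (hxf : XfsStmt) (hinn : InnStmt)
    (htfa : TfaStmt) (huni : UniStmt) (hdb1 : Db1Stmt) (hssp : SspStmt) (hmov : MovStmt)
    (hfra : FraStmt) (hrst : RstStmt) : DblnEStmt := by
  intro ℓ _ 𝒟 h𝒟 F _ hF τ hτ X _ _ Y hY f hf hdz hdf hH x y hx hxy
  obtain ⟨hxu, hXn, hYX, -⟩ := hxf ℓ F hF X Y hY f hf
  obtain ⟨L, hYL, ⟨j, hj, hxj⟩, ⟨j', hj', hyj⟩, n, hn⟩ := hfra X Y (XF f Y) hY hXn hYX x y hxy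
  obtain ⟨hfL, hXL, hback⟩ := hrst ℓ F hF τ X Y hY f hf L hYL
  have hYn : (Y.subgroupOf L).Normal := inferInstance
  -- the statement for `L`
  have hnil : NilMod (⊤ : Subgroup L) (Y.subgroupOf L) := by
    refine ⟨n, fun q hq => ?_⟩
    have h1 : ∀ (k : ℕ) (q : L), q ∈ Subgroup.lowerCentralSeries (⊤ : Subgroup L) k →
        (q : X) ∈ Subgroup.lowerCentralSeries L k := by
      intro k
      have h2 : (Subgroup.lowerCentralSeries (⊤ : Subgroup L) k).map L.subtype ≤
          Subgroup.lowerCentralSeries L k := by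
        induction k with
        | zero =>
          rintro _ ⟨q, -, rfl⟩
          exact q.2
        | succ k ih =>
          rw [Subgroup.lowerCentralSeries_succ, Subgroup.lowerCentralSeries_succ,
            Subgroup.map_commutator]
          refine Subgroup.commutator_mono ih ?_
          rintro _ ⟨q, -, rfl⟩
          exact q.2
      intro q hq
      exact h2 ⟨q, hq, rfl⟩
    exact hn (h1 n q hq)
  let e : Y.subgroupOf L ≃* Y := Subgroup.subgroupOfEquivOfLe hYL
  have hdzL : ¬ DZ ℓ (fun t : Y.subgroupOf L => (fun t : L => f t) t) := by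
    intro h
    exact hdz (dz_equiv e h)
  have hHL : HypYE ℓ 𝒟 F (Y.subgroupOf L) := by
    intro H₁ _ _ Q₁ hQ₁ hiso hmu hout hi
    obtain ⟨e₁⟩ := hiso
    obtain ⟨i, hi⟩ := hi
    refine hH H₁ Q₁ hQ₁ ⟨e₁.trans e⟩ (hmu.trans ?_) hout
      ⟨(MonoidHom.prodMap L.subtype L.subtype).comp i, ?_⟩
    rotate_left
    · exact (Function.Injective.prodMap L.subtype_injective L.subtype_injective).comp hi
    unfold mu
    have h0 : (Subgroup.center X).relIndex Y =
        ((Subgroup.center X).comap L.subtype).relIndex (Y.subgroupOf L) := by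
      rw [Subgroup.relIndex_comap, Subgroup.map_subgroupOf_eq_of_le hYL]
    rw [h0]
    refine Subgroup.relIndex_le_of_le_left ?_ Subgroup.FiniteIndex.index_ne_zero
    intro q hq
    rw [Subgroup.mem_center_iff]
    intro k
    exact Subtype.ext (Subgroup.mem_center_iff.1 hq k)
  have hall := dbl_coreE h𝒟 hnls hbrm hnch hps3 hlct hcl hloc hxf hinn htfa huni hdb1 hssp hF hτ hfL
    hdzL hnil (hdf.sub h𝒟 (Subgroup.map_subgroupOf_eq_of_le hYL).le) hHL
  -- in `L`
  have h1 : DZero τ ℓ Y f (x * j) (y * j') := by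
    refine hback ⟨x * j, hxj⟩ ⟨y * j', hyj⟩ (hall _ _ ?_ ?_)
    · have h2 := (regM_mul hXn x j hj (ℓ := ℓ)).2 hx
      obtain ⟨s, hs, h3⟩ := h2
      exact ⟨s, hs, (hXL _).2 h3⟩
    · rw [hXL]
      exact (comm_mul_mem hXn x y j j' hj hj').2 hxy
  have h2 := (hmov ℓ F hF τ hτ X Y hY f hf (x * j) (y * j')
    ((comm_mul_mem hXn x y j j' hj hj').2 hxy) j⁻¹ ((XF f Y).inv_mem hj)).1 h1
  rw [mul_inv_cancel_right] at h2
  have h3 := (hmov ℓ F hF τ hτ X Y hY f hf x (y * j') ?_ j'⁻¹ ((XF f Y).inv_mem hj')).2 h2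
  · rw [mul_inv_cancel_right] at h3
    exact h3
  · have := (comm_mul_mem hXn x y 1 j' (XF f Y).one_mem hj').2 hxy
    rwa [mul_one] at this


theorem dbl_ : DblnEStmt :=
  dblnE H20.nls H20.brm H94.nch Pool.Agent.AWR.H39.ps3 H66.lct H96.cl_ J74.loc J74.xfs H62.inn
    H96.tfa_ (H20.uni J74.loc H62.scu H66.lct) H46.db1 (H91R.ssp H62.scu)
    (H20.mov H62.scu H66.lct) H20.fra H20.rst

end Pool.Agent.DF
end
end -- Pool.Agent.Helper66_DF.DblE
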