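import Pool.Agent.Helper12_AWB.B152
import Pool.Agent.Helper12_AWB.B157

/-!
# Merged copies (generated) of the modules

* `Pool.Agent.Helper29_DF.Cmp`
* `Pool.Agent.Helper66_DF.R2E`
* `Pool.Agent.Helper66_DF.RelE`
* `Pool.Agent.Helper66_DF.TopE`
* `Pool.Agent.Helper66_DF.AsmDF`
* `Pool.Agent.Helper66_DF.FinE`
-/

set_option autoImplicit false

section -- Pool.Agent.Helper29_DF.Cmp

/-!
# Squad DF, module CMP: the components inherit the control of the defect groups
-/

open scoped BigOperators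

noncomputable section

namespace Pool.Agent.DF.H29

open Pool.Agent.Helper51_AWC Pool.Agent.Helper79_WRA Pool.Agent.PP Pool.Agent.PP.H6
  Pool.Agent.PP.H46

section core

variable {F Y : Type} [Field F] [Group Y] [Finite Y]

theorem br_nil {ℓ : ℕ} (hF : GoodF ℓ F) {Q : Subgroup Y} (hQ : IsPGroup ℓ Q) {a : Y → F}
    (ha : IsCl a) (hn : NilF a) : NilF (br Q a) := by
  rw [nilF_iff] at hn ⊢
  obtain ⟨k, hk⟩ := hn
  refine ⟨k, ?_⟩
  have h := H66.br_iter hF hQ (H66.IsCl.inv ha Q) (H66.IsCl.inv ha Q) k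
  rw [hk, H66.br_zero] at h
  exact h.symm

/-- The Brauer map does not kill the block `b` of a central product if it does not kill the block
of the factor under `b`. -/
theorem core (hibn : IbnStmt) (heig : EigStmt) {ℓ : ℕ} (hF : GoodF ℓ F) {K K' : Subgroup Y}
    (hc : ∀ x ∈ K, ∀ y ∈ K', x * y = y * x) (hs : K ⊔ K' = ⊤)
    (hz : ¬ ℓ ∣ Nat.card (Subgroup.center Y)) {b : Y → F} (hb : IsBlk b) {f : K → F}
    (hf : BlkU K b f) {Q : Subgroup K} (hQ : IsPGroup ℓ Q)
    (h0 : ∃ g ∈ Subgroup.centralizer (Q : Set K), f g ≠ 0) :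
    ∃ g ∈ Subgroup.centralizer ((Q.map K.subtype : Subgroup Y) : Set Y), b g ≠ 0 := by
  by_contra hcon
  push Not at hcon
  obtain ⟨n, ρ, hρ, hρb⟩ := exists_rep hibn heig hF hb.1 hb.2.1
  have := Fintype.ofFinite K'
  have h1 := ev_slice hc hs ρ b
  rw [hρb] at h1
  have hne := card_inter_ne hF hc hs hz
  have h2 : ∃ p : K', ev ρ (ext0 K (sl K b p)) ≠ 0 := by
    by_contra hcon2
    push Not at hcon2
    rw [Finset.sum_eq_zero (fun p _ => by rw [hcon2 p, zero_mul])] at h1
    have hpos := hρ.1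
    have h3 := congrFun (congrFun h1 ⟨0, hpos⟩) ⟨0, hpos⟩
    rw [Matrix.smul_apply, Matrix.one_apply_eq, Matrix.zero_apply, smul_eq_mul, mul_one] at h3
    exact hne h3
  obtain ⟨p, hp⟩ := h2
  have hzc : IsCl (sl K b p) := sl_cl hc hb.1.1 p.2
  obtain ⟨c, hcn⟩ := loc hibn heig hF hf.1 hzc
  have hcl : IsCl (mulF (sl K b p) f - c • f) := by
    have h2 : IsCl (mulF (sl K b p) f) := by
      rw [isCl_iff, ma_mul]
      exact Subalgebra.mul_mem _ ((isCl_iff _).1 hzc) ((isCl_iff f).1 hf.1.1.1)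
    exact (cfs F K).sub_mem h2 ((cfs F K).smul_mem c hf.1.1.1)
  have hρf : ev ρ (ext0 K f) = 1 := by
    have h3 := ev_mulF ρ (ext0 K f) b
    rw [hf.2, hρb, mul_one] at h3
    exact h3.symm
  have hc0 : c ≠ 0 := by
    rintro rfl
    have h2 := ev_nil hρ (ext0_cl hc hs hcl) (ext0_nil hcn)
    rw [zero_smul, sub_zero, ext0_mul, ev_mulF, hρf, mul_one] at h2
    exact hp h2
  have hbz : br Q (sl K b p) = 0 := by
    funext x
    by_cases hx : x ∈ Subgroup.centralizer (Q : Set K)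
    · rw [H66.br_of_mem hx]
      refine hcon ((x : Y) * p) ?_
      rw [Subgroup.mem_centralizer_iff]
      rintro _ ⟨q, hq, rfl⟩
      have h3 : q * x = x * q := Subgroup.mem_centralizer_iff.1 hx q hq
      have h4 : (q : Y) * x = x * q := congrArg Subtype.val h3
      change (q : Y) * (x * p) = x * p * q
      rw [← mul_assoc, h4, mul_assoc, mul_assoc, hc q q.2 p p.2]
    · rw [H66.br_of_not_mem hx]
      rfl
  have hbw : br Q (mulF (sl K b p) f - c • f) = (-c) • br Q f := by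
    have h3 := H66.br_mulF hF hQ (H66.IsCl.inv hzc Q) (H66.IsCl.inv hf.1.1.1 Q)
    rw [hbz] at h3
    funext x
    have h4 := congrFun h3 x
    have h5 : mulF (0 : K → F) (br Q f) x = 0 := by
      unfold mulF
      simp
    rw [h5] at h4
    by_cases hx : x ∈ Subgroup.centralizer (Q : Set K)
    · rw [H66.br_of_mem hx] at h4
      rw [H66.br_of_mem hx, Pi.sub_apply, h4, Pi.smul_apply, Pi.smul_apply, H66.br_of_mem hx,
        zero_sub, smul_eq_mul, smul_eq_mul, neg_mul]
    · rw [H66.br_of_not_mem hx, Pi.smul_apply, H66.br_of_not_mem hx, smul_zero]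
  have hnil := br_nil hF hQ hcl hcn
  rw [hbw] at hnil
  have hid : ma (br Q f) * ma (br Q f) = ma (br Q f) := by
    rw [← ma_mul, ← H66.br_mulF hF hQ (H66.IsCl.inv hf.1.1.1 Q) (H66.IsCl.inv hf.1.1.1 Q),
      hf.1.1.2]
  obtain ⟨k, hk⟩ := hnil
  rw [ma_smul, smul_pow] at hk
  have h6 : ma (br Q f) = 0 := by
    have h7 : ma (br Q f) ^ (k + 1) = ma (br Q f) := IsIdempotentElem.pow_succ_eq k hid
    have h8 : ma (br Q f) ^ k = 0 := by
      have h9 : (-c) ^ k ≠ 0 := pow_ne_zero _ (neg_ne_zero.2 hc0)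
      exact (smul_eq_zero.1 hk).resolve_left h9
    rw [← h7, pow_succ, h8, zero_mul]
  have h7 : br Q f = 0 := by
    apply ma_injective
    rw [h6, ma_zero]
  obtain ⟨g, hg, hg0⟩ := h0
  apply hg0
  have h8 := congrFun h7 g
  rw [H66.br_of_mem hg] at h8
  exact h8

end core

/-- CMPE -/
theorem cmpE (hibn : IbnStmt) (heig : EigStmt) : CmpEStmt := by
  intro ℓ _ 𝒟 h𝒟 F _ hF G _ _ N _ b hb I _ _ K bK act hK hdf i P hP hp hg
  obtain ⟨g, hg, hg0⟩ := hg
  have hgK : (g : G) ∈ K i := by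
    by_contra h
    exact hg0 ((hK.sblk i).supp g (fun h' => h (Subgroup.mem_subgroupOf.1 h')))
  have hb' : IsBlk b := by
    have h := hb.blk
    rwa [restr_ext0] at h
  -- the image of `P` in `G`
  have hPK : P.map (Subgroup.normalizer (K i : Set G)).subtype ≤ K i := by
    rintro _ ⟨q, hq, rfl⟩
    exact Subgroup.mem_subgroupOf.1 (hP hq)
  have hsup : K i ⊔ (⨆ (j : I) (_ : j ≠ i), K j) = N := by
    rw [← hK.sup]
    apply le_antisymm
    · apply sup_le (le_iSup K i)
      exact iSup₂_le (fun j _ => le_iSup K j)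
    · apply iSup_le
      intro j
      by_cases hj : j = i
      · rw [hj]
        exact le_sup_left
      · exact le_trans (le_iSup₂ (f := fun (j : I) (_ : j ≠ i) => K j) j hj) le_sup_right
  have hle' : (⨆ (j : I) (_ : j ≠ i), K j) ≤ N := iSup₂_le (fun j _ => hK.le j)
  have hcG : ∀ x ∈ K i, ∀ y ∈ (⨆ (j : I) (_ : j ≠ i), K j : Subgroup G), x * y = y * x := by
    intro x hx y hy
    have h1 : (⨆ (j : I) (_ : j ≠ i), K j : Subgroup G) ≤ Subgroup.centralizer ({x} : Set G) := by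
      apply iSup₂_le
      intro j hj z hz
      rw [Subgroup.mem_centralizer_singleton_iff]
      exact hK.comm j i hj z hz x hx
    have h2 := h1 hy
    rw [Subgroup.mem_centralizer_singleton_iff] at h2
    exact h2.symm
  have hs : (K i).subgroupOf N ⊔ (⨆ (j : I) (_ : j ≠ i), K j : Subgroup G).subgroupOf N = ⊤ := by
    rw [← Subgroup.subgroupOf_sup (hK.le i) hle', hsup, Subgroup.subgroupOf_self]
  have hc : ∀ x ∈ (K i).subgroupOf N, ∀ y ∈ (⨆ (j : I) (_ : j ≠ i), K j : Subgroup G).subgroupOf N,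
      x * y = y * x := by
    intro x hx y hy
    apply Subtype.ext
    exact hcG x (Subgroup.mem_subgroupOf.1 hx) y (Subgroup.mem_subgroupOf.1 hy)
  -- the image of `P` in the component
  let Q : Subgroup ((K i).subgroupOf N) :=
    (P.map (Subgroup.normalizer (K i : Set G)).subtype).comap
      (N.subtype.comp ((K i).subgroupOf N).subtype)
  have hQp : IsPGroup ℓ Q := by
    apply IsPGroup.comap_of_injective (hp.map _)
    exact N.subtype_injective.comp ((K i).subgroupOf N).subtype_injective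
  have hgN : (g : G) ∈ N := hK.le i hgK
  obtain ⟨y, hy, hy0⟩ := core hibn heig hF hc hs hK.center hb' (hK.blk i) hQp
    ⟨⟨⟨(g : G), hgN⟩, Subgroup.mem_subgroupOf.2 hgK⟩, by
      rw [Subgroup.mem_centralizer_iff]
      rintro q hq
      obtain ⟨u, hu, hu'⟩ := hq
      have h1 := Subgroup.mem_centralizer_iff.1 hg u hu
      have h2 : (u : G) * g = g * u := congrArg Subtype.val h1
      have h3 : (u : G) = ((q : N) : G) := hu'
      apply Subtype.ext
      apply Subtype.ext
      change ((q : N) : G) * g = g * ((q : N) : G)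
      rw [← h3]
      exact h2, hg0⟩
  have h1 : 𝒟 (P.map (Subgroup.normalizer (K i : Set G)).subtype) := by
    refine hdf _ (hPK.trans (hK.le i)) (hp.map _) ⟨(y : G), ?_, ?_⟩
    · rw [Subgroup.mem_centralizer_iff]
      intro q hq
      have hqK : q ∈ K i := hPK hq
      have h2 := Subgroup.mem_centralizer_iff.1 hy (⟨q, hK.le i hqK⟩ : N)
        ⟨⟨⟨q, hK.le i hqK⟩, Subgroup.mem_subgroupOf.2 hqK⟩, hq, rfl⟩
      exact congrArg Subtype.val h2
    · rw [ext0_of_mem b y.2]
      exact hy0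
  exact h𝒟 P _ (P.equivMapOfInjective _ (Subgroup.subtype_injective _)).toMonoidHom
    (P.equivMapOfInjective _ (Subgroup.subtype_injective _)).injective h1

end Pool.Agent.DF.H29
end
end -- Pool.Agent.Helper29_DF.Cmp

section -- Pool.Agent.Helper66_DF.R2E

/-!
# Squad DF, module R2: from the doubling theorem and the components
-/

open scoped BigOperators

noncomputable section

namespace Pool.Agent.DF

open Pool.Agent.Helper51_AWC Pool.Agent.Helper79_WRA Pool.Agent.PP

/-- COVE for `DfE` -/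
theorem DfE.cov (hcov : CovEStmt) {ℓ : ℕ} {𝒟 : (Q : Type) → [Group Q] → Prop} {F X : Type}
    [Field F] [Group X] [Finite X] (hF : GoodF ℓ F) {Y : Subgroup X} (hY : Y.Normal) {b e : X → F}
    (hb : SBlk Y b) (he : IsIdem e) (he0 : e ≠ 0) (heb : mulF e b = e) (h : DfE ℓ 𝒟 e Y) :
    DfE ℓ 𝒟 b Y :=
  fun Q hQ hp hg => h Q hQ hp (hcov ℓ F hF X Y hY b hb e he he0 heb Q hQ hp hg)

/-- R2E -/
theorem rr2E (hps3 : Ps3Stmt) (hdbl : DblnEStmt) (hsum : SumStmt) (hcom : ComStmt)
    (hjii : JiiStmt) (hcmp : CmpEStmt) (hcov : CovEStmt) : R2EStmt := by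
  intro ℓ hℓ 𝒟 h𝒟 F hFi hF G hG hfin N hCh hO hna hns hgood hY e he hpos hdf b hb hst heb
  have hN : N.Normal := hCh.1
  have hdz : ¬ DZ ℓ b := fun h => he.2.1 ((hps3 ℓ F hF G N hN b hb hst e he.1 heb).2 h hpos)
  obtain ⟨τ, hτ⟩ := H59.exists_lift ℓ F hF
  have hcl : IsCl (ext0 N b) := by
    intro x y
    have hy : y ∈ stabF (ext0 N b) := by rw [hst]; exact Subgroup.mem_top y
    exact hy x
  have hS : SBlk N (ext0 N b) := by
    refine ⟨fun x hx => ?_, hcl, ?_⟩
    · unfold PP.ext0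
      rw [dif_neg hx]
    · have : (fun t : N => ext0 N b t) = b := by
        funext t
        unfold PP.ext0
        rw [dif_pos t.2]
      rw [this]
      exact hb
  obtain ⟨I, hI, hI', K, bK, act, hK⟩ := hcom ℓ F hF G N hCh hO hna hns b hb hst hdz
  have hdb : DfE ℓ 𝒟 (ext0 N b) N := DfE.cov hcov hF hN hS he.1 he.2.1 heb hdf
  refine hsum ℓ F hF τ hτ G N hN (ext0 N b) hS ?_ e he.1 heb
  refine hjii ℓ F hF G N b hS I K bK act hK ?_ τ hτ
  intro i τ' hτ'
  refine hdbl ℓ 𝒟 h𝒟 F hF τ' hτ' _ _ ?_ _ (hK.sblk i) (hK.pos i)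
    (hcmp ℓ 𝒟 h𝒟 F hF G N b hS I K bK act hK hdb i) ?_
  · infer_instance
  · rintro H₁ _ _ Q₁ hQ ⟨ε⟩ hmu _ ⟨j, hj⟩
    exact hY H₁ Q₁ hQ (lt_of_le_of_lt hmu (hK.mu i))
      ((hgood.subgroupOf _ (hK.le i)).of_prod j hj ε.toMonoidHom ε.injective)

end Pool.Agent.DF
end
end -- Pool.Agent.Helper66_DF.R2E

section -- Pool.Agent.Helper66_DF.RelE

/-!
# Squad DF, module REL: the relative form
-/

open scoped BigOperators

noncomputable section

namespace Pool.Agent.DF

open Pool.Agent.Helper51_AWC Pool.Agent.Helper79_WRA Pool.Agent.PP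
open Pool.Agent.Helper79_WRA.H91

/-- the relative form from the main theorem -/
theorem relE (hmain : MainEStmt) {ℓ : ℕ} [Fact ℓ.Prime] {𝒟 : (Q : Type) → [Group Q] → Prop}
    (h𝒟 : SubCl 𝒟) {F : Type} [Field F] (hF : GoodF ℓ F) {G : Type} [Group G] [Finite G]
    {N : Subgroup G} (hN : N.Normal) (hg : GoodPE ℓ 𝒟 F N) {e : G → F} (he : IsIdem e)
    (hp : Pos ℓ e N) (hd : DfE ℓ 𝒟 e N) : YY ℓ ⊤ e = 0 := by
  rw [H96.rel_eq_top hF N hN e he, hmain ℓ 𝒟 h𝒟 F hF G N hN hg e he hp hd]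
  intro c hc1 hc2 hc3 _
  have hcm := mem_chainsOn.1 hc1
  obtain ⟨t1, t2⟩ := H94.top_mem hcm.2.2 ⟨_, hcm.2.1⟩
  have htp : IsPGroup ℓ (top c) := (mem_psubIn.1 (hcm.1 t1)).2
  have hX1 := H96.centralizer_top_le t2
  have hX2 : stab c ≤ Subgroup.normalizer ((top c : Subgroup G) : Set G) := by
    intro x hx
    exact (H94.mem_stab'.1 hx) _ t1
  have hidem : IsIdem (fun t : stab c => br (top c) e t) :=
    (H20.brm ℓ F hF G (top c) (stab c) htp hX1 hX2).2.2 e he
  have hcent : cent N c = Subgroup.centralizer ((top c : Subgroup G) : Set G) ⊓ N :=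
    H46.cent_eq hc1 N
  have hposc : Pos ℓ (fun t : stab c => br (top c) e t) ((cent N c).subgroupOf (stab c)) := by
    rw [hcent]
    exact H66.ps1 ℓ F hF G (top c) N htp hN hc3 e he hp (stab c) hX1 hX2
  have hnorm : ((cent N c).subgroupOf (stab c)).Normal := by
    constructor
    intro x hx g
    rw [Subgroup.mem_subgroupOf] at hx ⊢
    exact Pool.Agent.Helper79_WRA.H46.conj_mem_cent hN g.2 hx
  refine hmain ℓ 𝒟 h𝒟 F hF _ _ hnorm (hg.subgroupOf _ inf_le_left) _ hidem hposc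
    (DfE.br h𝒟 (top c) hd ?_)
  rw [Subgroup.subgroupOf_map_subtype]
  exact inf_le_left.trans inf_le_left

/-- RELQE -/
theorem relQE (hmain : MainEStmt) (hv : VEStmt) (hstm : StmEStmt) : RelQEStmt := by
  intro ℓ _ 𝒟 h𝒟 F _ hF G _ _ N hN hg e he hp hd
  exact relE hmain h𝒟 hF hN (hv ℓ 𝒟 h𝒟 F hF G N hN (hstm ℓ 𝒟 h𝒟 F hF G N hN hg)) he hp hd

end Pool.Agent.DF
end
end -- Pool.Agent.Helper66_DF.RelE

section -- Pool.Agent.Helper66_DF.TopE

/-!
# Squad DF, module TOP: the master induction with control of the defect groups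
-/

open scoped BigOperators

noncomputable section

namespace Pool.Agent.DF

open Pool.Agent.Helper51_AWC Pool.Agent.Helper79_WRA Pool.Agent.PP
open Pool.Agent.PP.H46 (pos_mono mulF_comm exists_blk mul_stable pos_card pos_dzb card_cent
  prC_of_DZ top_mem cent_eq ext0_restr)

theorem topE (hFr : FrStmt) (hDz : DzEStmt) (hRcn : RcnStmt) (hTrn : TrnStmt)
    (hYzr : YzrStmt) (hPs1 : Ps1Stmt) (hPs3 : Ps3Stmt) (hGr1 : Gr1Stmt) (hGr2 : Gr2Stmt)
    (hMus : MusStmt) (hAdd : AddStmt) (hBrm : BrmStmt) (hS1 : S1EStmt) (hR2 : R2EStmt) :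
    MainEStmt := by
  intro ℓ _ 𝒟 h𝒟 F _ hF
  classical
  -- strong induction on `mu N`
  have key : ∀ m : ℕ, ∀ (H : Type) [Group H] [Finite H] (N : Subgroup H), N.Normal → mu N = m →
      GoodPE ℓ 𝒟 F N → YHE ℓ 𝒟 F N := by
    intro m
    induction m using Nat.strong_induction_on with
    | _ m ihm =>
    have hlt : YltE ℓ 𝒟 F m := fun H _ _ N hN hm hg => ihm (mu N) hm H N hN rfl hg
    intro H gH fH N hN hm hg
    -- strong induction on `|H|`
    induction hn : Nat.card H using Nat.strong_induction_on generalizing H with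
    | _ n ihn =>
    have hltN : YltE ℓ 𝒟 F (mu N) := by rw [hm]; exact hlt
    intro e0 he0 hp0 hd0
    apply hAdd ℓ F hF H N hN e0 he0
    intro e he hee
    have hdf : DfE ℓ 𝒟 e N := DfE.le hF he0.1 he.1.1 hee hd0
    have hp : Pos ℓ e N := pos_mono he.1 (by rw [mulF_comm he.1.1, hee]) hp0
    have hez : e ≠ 0 := he.2.1
    -- normal `ℓ`-subgroups
    by_cases hO : opCore ℓ N ≠ ⊥
    · exact hYzr ℓ F hF.prime H N hN hO e
    rw [not_not] at hO
    -- the abelian case
    by_cases hab : ∀ x ∈ N, ∀ y ∈ N, x * y * x⁻¹ * y⁻¹ ∈ Subgroup.center H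
    · exact absurd (pos_card hp (hGr1 ℓ H N hN hO hab)) hez
    have hNc : ¬ N ≤ Subgroup.center H := by
      intro h
      apply hab
      intro x hx y hy
      have := Subgroup.mem_center_iff.1 (h hx) y
      have h2 : x * y * x⁻¹ * y⁻¹ = 1 := by rw [← this]; group
      rw [h2]
      exact Subgroup.one_mem _
    obtain ⟨N2, hN2N, hZN2, hCh⟩ := hGr2 H N hN hNc
    have hN2 : N2.Normal := hCh.1
    have hN2c : ¬ N2 ≤ Subgroup.center H := hCh.2.1
    obtain ⟨mus1, mus2, mus3, mus4⟩ := hMus H N N2 hN hN2 hN2N hZN2 hN2c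
    obtain ⟨b, hb0, hb, hbe⟩ := exists_blk hez N2
    -- Fong-Reynolds
    by_cases hT : stabF b = ⊤
    swap
    · have hZT : Subgroup.center H ≤ stabF b := by
        intro g hgz x
        have h1 : g * x * g⁻¹ = x := by
          have := Subgroup.mem_center_iff.1 hgz x
          rw [← this]
          group
        rw [h1]
      obtain ⟨-, h2, h3, h4⟩ := hFr ℓ F hF H N2 N hN2 hN hN2N e he hp b hb0 hb hbe (stabF b)
        (fun g => Iff.rfl)
      rw [h4]
      have hnorm : (N.subgroupOf (stabF b)).Normal := hN.subgroupOf _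
      have hmu := mus3 (stabF b) hZT
      have hgood : GoodPE ℓ 𝒟 F (N.subgroupOf (stabF b)) := hg.subgroupOf (stabF b) le_rfl
      have h5 : YHE ℓ 𝒟 F (N.subgroupOf (stabF b)) := by
        rcases lt_or_eq_of_le hmu with h | h
        · exact hltN _ _ hnorm h hgood
        · refine ihn (Nat.card (stabF b)) ?_ (stabF b) (N.subgroupOf (stabF b)) hnorm
            (by rw [h, hm]) hgood rfl
          rw [← hn]
          have h6 := Subgroup.card_le_card_group (stabF b)
          exact lt_of_le_of_ne h6 fun h7 => hT (Subgroup.eq_top_of_card_eq _ h7)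
      have hdT : DfE ℓ 𝒟 (fun t : stabF b => mulF e b t) (N.subgroupOf (stabF b)) := by
        refine DfE.sub h𝒟 (N := N ⊓ stabF b) (DfE.factor hF (fun n _ t => he.1.1 t n) ?_
          (hdf.mono inf_le_left)) ?_
        · intro n hn t
          exact hn.2 t
        · rw [Subgroup.subgroupOf_map_subtype]
      rw [h5 _ h2 h3 hdT, mul_zero]
    -- the stable case
    have hbc : IsCl b := by
      intro x y
      have : y ∈ stabF b := by rw [hT]; exact Subgroup.mem_top y
      exact this x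
    have hebe : mulF e b = e := mul_stable hb0 hb hbc he hbe
    by_cases hd : PrC ℓ (fun t : N2 => b t)
    · by_cases h2 : N2 = N
      · exfalso
        apply hez
        subst h2
        refine pos_dzb he.1 hp hebe hb0 (fun q _ x => hbc x q) ?_
        intro x hx hdiv
        have := hd.2 ⟨x, hx⟩ (by rw [card_cent]; exact hdiv)
        exact this
      · obtain ⟨D, _, _, W, M', φ, ψ, f, p1, p2, d1, d2, d3, d4, d5, d6, d7, d8, d9, dd, d10⟩ :=
          hDz ℓ F hF H N2 N b e ⟨hN2, hbc, hb0, hb, hd⟩ hN hN2N he.1 hebe hp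
        have hmu : mu M' < mu N := by
          have h3 : mu M' ≤ W.relIndex M' := by
            unfold mu
            apply Nat.le_of_dvd
            · apply Nat.pos_of_ne_zero
              exact Subgroup.index_ne_zero_of_finite
            · exact Subgroup.relIndex_dvd_of_le_left M' d1
          rw [d7] at h3
          exact lt_of_le_of_lt h3 (mus2 h2)
        have hgood : GoodPE ℓ 𝒟 F M' := by
          refine hg.trans (fun S _ hS hI => ?_) (fun A S _ _ T hT hI => ?_)
          swap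
          · have h3 : Involves (H ⧸ N2) A :=
              hT.involves_central ψ (by rw [p2]; exact d1) hI
            exact h3.of_surjective (QuotientGroup.mk' N2) (QuotientGroup.mk'_surjective _)
          have h4 : Involves (N ⧸ N2.subgroupOf N) S := by
            refine hI.of_central hS φ ?_
            rw [d6]
            intro x hx
            rw [Subgroup.mem_center_iff]
            intro y
            have hx' : (x : D) ∈ Subgroup.center D := d1 hx
            exact Subtype.ext (Subgroup.mem_center_iff.1 hx' y)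
          exact h4.of_surjective (QuotientGroup.mk' (N2.subgroupOf N))
            (QuotientGroup.mk'_surjective _)
        have h5 := hltN D M' d3 hmu hgood f d8 d9 (dd 𝒟 h𝒟 hdf)
        rw [h5, mul_zero] at d10
        rcases mul_eq_zero.1 d10 with h6 | h6
        · exfalso
          have : Nat.card W ≠ 0 := Nat.card_pos.ne'
          exact this (by exact_mod_cast h6)
        · exact h6
    -- positive over `N2`
    have hpos2 : Pos ℓ e N2 := by
      refine (hPs3 ℓ F hF H N2 hN2 (fun t : N2 => b t) hb ?_ e he.1 ?_).1 ?_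
      · rw [ext0_restr hb0]; exact hT
      · rw [ext0_restr hb0]; exact hebe
      · intro h
        exact hd (prC_of_DZ h hb.1.1)
    by_cases h2 : N2 = N
    · subst h2
      by_cases hs : IsSimpleGroup (N2 ⧸ (Subgroup.center H).subgroupOf N2)
      · refine hS1 ℓ 𝒟 h𝒟 F hF H N2 hN hO ⟨hs, ?_⟩ hg hltN e he.1 hp hdf
        push Not at hab
        obtain ⟨x, hx, y, hy, hxy⟩ := hab
        refine ⟨QuotientGroup.mk ⟨x, hx⟩, QuotientGroup.mk ⟨y, hy⟩, ?_⟩
        intro h
        apply hxy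
        have h3 : (QuotientGroup.mk ((⟨x, hx⟩ : N2) * ⟨y, hy⟩ * (⟨x, hx⟩ : N2)⁻¹ *
            (⟨y, hy⟩ : N2)⁻¹) : N2 ⧸ (Subgroup.center H).subgroupOf N2) = 1 := by
          rw [QuotientGroup.mk_mul, QuotientGroup.mk_mul, QuotientGroup.mk_mul, h,
            QuotientGroup.mk_inv, QuotientGroup.mk_inv]
          group
        exact Subgroup.mem_subgroupOf.1 ((QuotientGroup.eq_one_iff
          (N := (Subgroup.center H).subgroupOf N2) _).1 h3)
      · refine hR2 ℓ 𝒟 h𝒟 F hF H N2 hCh hO ?_ hs hg hltN e he hp hdf (fun t : N2 => b t) hb ?_ ?_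
        · push Not at hab
          exact hab
        · rw [ext0_restr hb0]; exact hT
        · rw [ext0_restr hb0]; exact hebe
    · -- relative chain reduction
      have h3 := hRcn ℓ H N N2 hN hN2 hN2N
        (fun X => (Nat.card X : ℤ) * (lnum X e : ℤ))
      have h4 : YY ℓ N e = ∑ d ∈ chainsOn (psubIn ℓ N) ⊥, (-1) ^ (d.card + 1) *
          (fun X : Subgroup H => (Nat.card X : ℤ) * (lnum X e : ℤ)) (stab d) := rfl
      rw [h4, h3]
      refine Finset.sum_eq_zero fun c hc => ?_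
      rw [Finset.mem_filter] at hc
      obtain ⟨hc1, hc2, hc3⟩ := hc
      have hcm := mem_chainsOn.1 hc1
      have hctop : c ∈ chainsOn (psubIn ℓ (⊤ : Subgroup H)) ⊥ := by
        rw [mem_chainsOn]
        refine ⟨fun D hD => ?_, hcm.2⟩
        rw [mem_psubIn]
        exact ⟨le_top, (mem_psubIn.1 (hcm.1 hD)).2⟩
      rw [hTrn ℓ F hF H N2 hN2 e he.1 c hctop hc2]
      obtain ⟨t1, t2⟩ := top_mem hc1
      have htp : IsPGroup ℓ (top c) := (mem_psubIn.1 (hcm.1 t1)).2
      have hX1 : Subgroup.centralizer ((top c : Subgroup H) : Set H) ≤ stab c := by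
        intro g hgc
        rw [mem_stab]
        intro D hD
        have h5 : g ∈ Subgroup.centralizer ((D : Subgroup H) : Set H) :=
          Subgroup.centralizer_le (t2 D hD) hgc
        rw [← mem_normalizer_iff_conjS]
        · rw [Subgroup.mem_normalizer_iff]
          intro x
          constructor
          · intro hx
            have := Subgroup.mem_centralizer_iff.1 h5 x hx
            rw [← this, mul_inv_cancel_right]
            exact hx
          · intro hx
            have := Subgroup.mem_centralizer_iff.1 h5 _ hx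
            have h7 : x = g * x * g⁻¹ := by
              have h8 : g * x * g⁻¹ * g = g * (g * x * g⁻¹) := this
              rw [inv_mul_cancel_right] at h8
              exact mul_left_cancel h8
            rw [h7]
            exact hx
      have hX2 : stab c ≤ Subgroup.normalizer ((top c : Subgroup H) : Set H) := by
        unfold stab
        exact iInf₂_le (top c) t1
      have hidem : IsIdem (fun t : stab c => br (top c) e t) :=
        (hBrm ℓ F hF H (top c) (stab c) htp hX1 hX2).2.2 e he.1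
      have hposc : Pos ℓ (fun t : stab c => br (top c) e t)
          ((cent N2 c).subgroupOf (stab c)) := by
        rw [cent_eq hc1]
        exact hPs1 ℓ F hF H (top c) N2 htp hN2 (hc3 _ t1) e he.1 hpos2 (stab c) hX1 hX2
      have hnorm : ((cent N2 c).subgroupOf (stab c)).Normal := by
        constructor
        intro x hx g
        rw [Subgroup.mem_subgroupOf] at hx ⊢
        exact Pool.Agent.Helper79_WRA.H46.conj_mem_cent hN2 g.2 hx
      have hcle : cent N2 c ≤ N2 := inf_le_left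
      have hZX : Subgroup.center H ≤ stab c :=
        (Subgroup.center_le_centralizer _).trans hX1
      have hmu : mu ((cent N2 c).subgroupOf (stab c)) < mu N :=
        lt_of_le_of_lt (mus4 (stab c) (cent N2 c) hZX hcle) (mus1 h2)
      have h7 := hltN _ _ hnorm hmu (hg.subgroupOf (stab c) (hcle.trans hN2N)) _ hidem hposc
        (DfE.br h𝒟 (top c) hdf (by
          rw [Subgroup.subgroupOf_map_subtype]
          exact inf_le_left.trans (hcle.trans hN2N)))
      rw [h7, mul_zero]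
  intro H _ _ N hN hg
  exact key (mu N) H N hN rfl hg

end Pool.Agent.DF
end
end -- Pool.Agent.Helper66_DF.TopE

section -- Pool.Agent.Helper66_DF.AsmDF

/-!
# Squad DF: assembly of the reduction with control of the defect groups
-/

open scoped BigOperators

set_option linter.unusedSectionVars false

noncomputable section

namespace Pool.Agent.DF

open Pool.Agent.Helper51_AWC Pool.Agent.Helper79_WRA Pool.Agent.PP

section asm

theorem cmp_ : CmpStmt := H6.cmp H20.matS H74.orb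

theorem dzE_ (hdfq : DfqStmt) : DzEStmt :=
  dzE hdfq cmp_ (H74.covStmt H20.ibc) H74.cen H20.matS H94.nch (H65.sup H20.nls)
    H96.nco_ (H59.dzq H96.cl_ (Pool.Agent.Helper58_CL.clu H20.ibc) H96.eps_ H20.blk H20.matS
      H96.nco_ H20.nls H20.brm H20.eig H20.ibc) H21.psf

theorem lqE_ : LqEStmt :=
  lqE H96.rkr_ H96.lqr_ H66.ps1 H20.brm Pool.Agent.Helper26_PP.cux H96.osi_

theorem lqnE_ : LqnEStmt := lqnE H96.osi_ lqE_

theorem s1nE_ : S1nEStmt := s1nE H19.cvr H91R.pow_ H19.lma (lquE H96.osi_ lqnE_ fnlE)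

theorem s1E_ (hcov : CovEStmt) (hdbl : DblnEStmt) : S1EStmt :=
  H86.s1gE s1nE_ hdbl hcov H9.addStmt H96.fr_ Pool.Agent.AWR.H39.ps3 H96.sum_

theorem r2E_ (hcov : CovEStmt) (hdbl : DblnEStmt) : R2EStmt :=
  rr2E Pool.Agent.AWR.H39.ps3 hdbl H96.sum_ H96.com_ H96.jii_ (H29.cmpE H20.ibn H20.eig) hcov

theorem mainE_ (hdfq : DfqStmt) (hcov : CovEStmt) (hdbl : DblnEStmt) : MainEStmt :=
  topE H96.fr_ (dzE_ hdfq) H96.rcn (H96.trn H20.nls) H96.yzr H66.ps1 Pool.Agent.AWR.H39.ps3
    Pool.Agent.AWR.H39.gr1 Pool.Agent.AWR.H39.gr2 Pool.Agent.AWR.H39.mus H9.addStmt H20.brm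
    (s1E_ hcov hdbl) (r2E_ hcov hdbl)

theorem vE_ (hdfq : DfqStmt) (hcov : CovEStmt) (hdbl : DblnEStmt) : VEStmt :=
  H76.vstE (mainE_ hdfq hcov hdbl) H9.addStmt H96.fr_ Pool.Agent.AWR.H39.ps5 H96.sum_ hdbl hcov
    H20.rst

theorem relQE_ (hdfq : DfqStmt) (hcov : CovEStmt) (hdbl : DblnEStmt) : RelQEStmt :=
  relQE (mainE_ hdfq hcov hdbl) (vE_ hdfq hcov hdbl) stmE

end asm

end Pool.Agent.DF
end
end -- Pool.Agent.Helper66_DF.AsmDF

section -- Pool.Agent.Helper66_DF.FinE

/-!
# Squad DF: the final theorem with control of the defect groups, in terms of ordinary characters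
-/

open scoped BigOperators

set_option linter.unusedSectionVars false

noncomputable section

namespace Pool.Agent.DF

open Pool.Agent.Helper51_AWC Pool.Agent.Helper79_WRA Pool.Agent.PP

/-- The conjecture holds at `ℓ` for the blocks of positive defect with defect groups in `𝒟`,
faithful on the centre, of all the groups `D` of `GoodC2`. -/
def GoodC3 (ℓ : ℕ) (M : Ideal (integralClosure ℤ ℂ)) (𝒟 : (Q : Type) → [Group Q] → Prop) {G : Type}
    [Group G] (N : Subgroup G) : Prop :=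
  ∀ (S : Type) [Group S] [Finite S], NonabSimple S → ℓ ∣ Nat.card S → Involves N S →
    ∀ (D : Type) [Group D] [Finite D], opCore ℓ D = ⊥ → Subgroup.center D ≤ commutator D →
      NearlySimpleF ℓ D S → Involves G (D ⧸ Subgroup.center D) →
      ∀ χ ∈ Irr D, (∀ z ∈ Subgroup.center D, χ z = χ 1 → z = 1) → LargeDefect ℓ M χ →
        DfIn ℓ M 𝒟 χ → altSum ℓ M χ = 0

/-- The final theorem with control of the defect groups. -/
def FinEStmt : Prop := ∀ (ℓ : ℕ), ℓ.Prime → ∀ (M : Ideal (integralClosure ℤ ℂ)) [M.IsMaximal],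
  (ℓ : integralClosure ℤ ℂ) ∈ M → ∀ 𝒟 : (Q : Type) → [Group Q] → Prop, SubCl 𝒟 →
  ∀ (G : Type) [Group G] [Finite G],
  opCore ℓ G ≤ Subgroup.center G → ∀ N : Subgroup G, N.Normal → GoodC3 ℓ M 𝒟 N →
  ∀ χ ∈ Irr G, ∀ ψ ∈ Irr N, (∑ᶠ n : N, χ n * starRingEnd ℂ (ψ n)) ≠ 0 → LargeDefect ℓ M ψ →
    DfIn ℓ M 𝒟 ψ → altSum ℓ M χ = 0

/-- The same with the hypothesis on idempotents. -/
theorem finI (relq : RelQEStmt) (fst : FstStmt) {ℓ : ℕ} (hℓ : ℓ.Prime)
    {M : Ideal (integralClosure ℤ ℂ)} [M.IsMaximal] (hM : (ℓ : integralClosure ℤ ℂ) ∈ M) :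
    letI := Ideal.Quotient.field M
    ∀ {𝒟 : (Q : Type) → [Group Q] → Prop}, SubCl 𝒟 → ∀ {G : Type} [Group G] [Finite G]
    [(opCore ℓ G).Normal], opCore ℓ G ≤ Subgroup.center G → ∀ {N : Subgroup G}, N.Normal →
    GoodQE ℓ 𝒟 (FF M) (N.map (QuotientGroup.mk' (opCore ℓ G))) →
    ∀ {χ : G → ℂ}, χ ∈ Irr G → ∀ {ψ : N → ℂ}, ψ ∈ Irr N →
    (∑ᶠ n : N, χ n * starRingEnd ℂ (ψ n)) ≠ 0 → LargeDefect ℓ M ψ → DfIn ℓ M 𝒟 ψ →
    altSum ℓ M χ = 0 := by
  let _ := Ideal.Quotient.field M
  intro 𝒟 h𝒟 G _ _ hn hc N hN hgoodQ χ hχ ψ hψ hχψ hL hS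
  have hfact := Fact.mk hℓ
  have hF : GoodF ℓ (FF M) := H50.fld ℓ hℓ M hM
  obtain ⟨e, he, h1, h2⟩ := H50.bid ℓ hℓ M hM G χ hχ
  set p : G →* G ⧸ opCore ℓ G := QuotientGroup.mk' (opCore ℓ G) with hp
  have hker : p.ker = opCore ℓ G := QuotientGroup.ker_mk' _
  have hsurj : Function.Surjective p := QuotientGroup.mk'_surjective (opCore ℓ G)
  have hkp : IsPGroup ℓ p.ker := by
    rw [hker]
    exact H75.opCore_isPGroup hℓ
  have hkc : p.ker ≤ Subgroup.center G := by
    rw [hker]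
    exact hc
  have hpos : Pos ℓ (H75.push p e) (N.map p) :=
    H75.pos_rel H96.lemQ_ H50.bid H50.fld hℓ hM hsurj hker hkc hN hχ he h1 hψ hχψ hL
  have heq := H75.altSum_central H20.nls H20.brm H63.smt H94.nch
    (H50.dic H20.ibn H20.nls H20.brm) hℓ M hM hF hsurj hker hkp hkc χ hχ e he h1 h2
  have hdf : DfE ℓ 𝒟 (H75.push p e) (N.map p) :=
    fst ℓ hℓ M hM 𝒟 h𝒟 G N hN χ hχ ψ hψ hχψ hS e he h1
  have h0 : YY ℓ (⊤ : Subgroup (G ⧸ opCore ℓ G)) (H75.push p e) = 0 :=
    relq ℓ 𝒟 h𝒟 (FF M) hF _ (N.map p) (hN.map p hsurj) hgoodQ _ (H75.push_isIdem hsurj he.1) hpos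
      hdf
  rw [h0, mul_zero] at heq
  rcases mul_eq_zero.1 heq with h | h
  · exact absurd h (by exact_mod_cast (Nat.card_pos (α := G)).ne')
  · exact h

/-- the final theorem -/
theorem finE (relq : RelQEStmt) (fst : FstStmt) (fen : FenStmt) : FinEStmt := by
  intro ℓ hℓ M _ hM 𝒟 h𝒟 G _ _ hc N hN hgood χ hχ ψ hψ hχψ hL hS
  let _ := Ideal.Quotient.field M
  have hfact := Fact.mk hℓ
  have hF : GoodF ℓ (FF M) := H50.fld ℓ hℓ M hM
  have hn := H75.opCore_normal (A := G) ℓ
  refine finI relq fst hℓ hM h𝒟 hc hN ?_ hχ hψ hχψ hL hS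
  intro S _ _ hS hlS hNS D _ _ hO hD hinv hcc e' he' hcl hpos' hdf'
  apply H9.addStmt ℓ (FF M) hF D ⊤ inferInstance e' he'
  intro f hf hef
  have hfe : mulF f e' = f := by
    rw [H75.mulF_comm_cl hf.1.1]
    exact hef
  have hposf : Pos ℓ f ⊤ := H46.pos_mono hf.1 hfe hpos'
  have hdff : DfE ℓ 𝒟 f ⊤ := DfE.le hF he'.1 hf.1.1 hef hdf'
  obtain ⟨ϑ, hϑ, k1, k2, k3⟩ := H75.block_case H20.nls H20.brm H63.smt H94.nch
    (H50.dic H20.ibn H20.nls H20.brm) H50.bid H50.chp H50.ldp H50.fld hℓ hM hO hf hposf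
  have hdi : DfIn ℓ M 𝒟 ϑ := fen ℓ hℓ M hM 𝒟 D hO f hf hdff ϑ hϑ k1
  rw [← k3, hgood S hS hlS (hNS.of_surjective
    ((QuotientGroup.mk' (opCore ℓ G)).subgroupMap N)
    ((QuotientGroup.mk' (opCore ℓ G)).subgroupMap_surjective N)) D
    hO hcc hD (hinv.of_surjective (QuotientGroup.mk' (opCore ℓ G))
      (QuotientGroup.mk'_surjective (opCore ℓ G))) ϑ hϑ (H75.faithful_char hf hef hcl hϑ k1) k2 hdi,
    mul_zero]

end Pool.Agent.DF
end
end -- Pool.Agent.Helper66_DF.FinE
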