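import Pool.Agent.Helper12_AWB.B158
import Pool.Agent.Helper66_ML.Stmts2

/-!
# Merged copies (generated) of the modules

* `Pool.Agent.Helper57_K9.Stmts2`
* `Pool.Agent.Helper27_K9.CT9`
* `Pool.Agent.Helper57_K9.Gq9`
* `Pool.Agent.Helper57_K9.Fin9`
* `Pool.Agent.Helper57_K9.Fin2`
* `Pool.Agent.Helper62_ML.ALB`
* `Pool.Agent.Helper9_ML.MN2`
-/

set_option autoImplicit false

section -- Pool.Agent.Helper57_K9.Stmts2

/-!
# Squad K9: the last rows

Text: `AWC_K9.md`.
-/

open scoped BigOperators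

noncomputable section

namespace Pool.Agent.PP.K9

open Pool.Agent.Helper51_AWC Pool.Agent.Helper79_WRA Pool.Agent.PP Pool.Agent.PP.KF

attribute [local instance] Ideal.Quotient.field

/-- CT9: blocks with a noncyclic defect group of order nine, `O_3(G) = 1`. -/
def Ct9Stmt : Prop := ∀ (M : Ideal (integralClosure ℤ ℂ)) [M.IsMaximal],
  ((3 : ℕ) : integralClosure ℤ ℂ) ∈ M → ∀ (G : Type) [Group G] [Finite G], opCore 3 G = ⊥ →
  ∀ e : G → FF M, IsBlk e → Pos 3 e ⊤ → ∀ V : Subgroup G, Tp 3 e V → Nat.card V = 9 →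
  ¬ IsCyclic V → YY 3 ⊤ e = 0

/-- the groups whose order divides nine -/
def C9 : (Q : Type) → [Group Q] → Prop := fun Q _ => Nat.card Q ∣ 9

/-- GQ9: the hypothesis of the reduction theorem for the class `C9`. -/
def Gq9Stmt : Prop := ∀ (M : Ideal (integralClosure ℤ ℂ)) [M.IsMaximal],
  ((3 : ℕ) : integralClosure ℤ ℂ) ∈ M → ∀ (G : Type) [Group G] [Finite G], opCore 3 G = ⊥ →
  ∀ e : G → FF M, IsIdem e → Pos 3 e ⊤ → DF.DfE 3 C9 e ⊤ → YY 3 ⊤ e = 0

/-- FIN: the final theorem. -/
def Fin9Stmt : Prop := ∀ (M : Ideal (integralClosure ℤ ℂ)) [M.IsMaximal],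
  ((3 : ℕ) : integralClosure ℤ ℂ) ∈ M → ∀ (G : Type) [Group G] [Finite G],
  opCore 3 G ≤ Subgroup.center G → ∀ N : Subgroup G, N.Normal →
  ∀ χ ∈ Irr G, ∀ ψ ∈ Irr N, (∑ᶠ n : N, χ n * starRingEnd ℂ (ψ n)) ≠ 0 → LargeDefect 3 M ψ →
  (∃ (x : N) (P : Subgroup N), ¬ Cong M (omega (MonoidHom.id N) ψ x) 0 ∧
    P ≤ Subgroup.centralizer ({x} : Set N) ∧ IsPGroup 3 P ∧
    ¬ 3 ∣ P.relIndex (Subgroup.centralizer ({x} : Set N)) ∧ (opCore 3 N).relIndex P ≤ 9) →
  altSum 3 M χ = 0

end Pool.Agent.PP.K9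
end
end -- Pool.Agent.Helper57_K9.Stmts2

section -- Pool.Agent.Helper27_K9.CT9

/-!
# Squad K9, row CT9: noncyclic defect groups of order nine, `O_3(G) = 1`
-/

open scoped BigOperators

noncomputable section

namespace Pool.Agent.PP.K9.H27

open Pool.Agent.Helper51_AWC Pool.Agent.Helper79_WRA Pool.Agent.PP Pool.Agent.PP.KF
open Pool.Agent.PP.K9

attribute [local instance] Ideal.Quotient.field

/-- a noncyclic group of order nine is elementary abelian -/
theorem elab9 {V : Type} [Group V] (h9 : Nat.card V = 9) (hnc : ¬ IsCyclic V) :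
    (∀ a b : V, a * b = b * a) ∧ ∀ a : V, a ^ 3 = 1 := by
  have hfin : Finite V := Nat.finite_of_card_ne_zero (by rw [h9]; norm_num)
  have : Fact (Nat.Prime 3) := ⟨Nat.prime_three⟩
  constructor
  · have h1 : Nat.card V = 3 ^ 2 := by rw [h9]; norm_num
    exact (IsPGroup.commutative_of_card_eq_prime_sq h1)
  · intro a
    have h1 : orderOf a ∣ 3 ^ 2 := by
      have h2 := orderOf_dvd_natCard a
      rw [h9] at h2
      exact h2
    obtain ⟨k, hk, hk2⟩ := (Nat.dvd_prime_pow Nat.prime_three).1 h1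
    have h3 : k ≠ 2 := by
      rintro rfl
      apply hnc
      apply isCyclic_of_orderOf_eq_card a
      rw [hk2, h9]
      norm_num
    have h4 : k ≤ 1 := by omega
    have h5 : orderOf a ∣ 3 := by
      rw [hk2]
      exact (pow_dvd_pow 3 h4).trans (by norm_num)
    exact orderOf_dvd_iff_pow_eq_one.1 h5

/-- CT9 -/
theorem ct9 (nn3 : ML.Nn3Stmt) (k9 : K9Stmt) (chv : ChvStmt) (lbd : LbdStmt) (fmg : FmgStmt) :
    Ct9Stmt := by
  intro M _ hM G _ _ hO e he hpos V hV hV9 hnc
  have : Fact (Nat.Prime 3) := ⟨Nat.prime_three⟩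
  have hF : GoodF 3 (FF M) := H50.fld 3 Nat.prime_three M hM
  obtain ⟨f1, ⟨f2, f3⟩, _⟩ := fmg 3 M hM G e he V hV
  obtain ⟨e1, e2⟩ := elab9 hV9 hnc
  have hdf : DF.DfE 3 (ML.ElAb 3) e ⊤ := by
    intro Q _ hQp hQ
    obtain ⟨g, hg⟩ := f1 Q hQp hQ
    have hmem : ∀ a : Q, g⁻¹ * (a : G) * g ∈ V := fun a => mem_conjS.1 (hg a.2)
    constructor
    · intro a b
      have h1 := congrArg (Subtype.val) (e1 ⟨_, hmem a⟩ ⟨_, hmem b⟩)
      simp only [Subgroup.coe_mul] at h1
      apply Subtype.ext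
      simp only [Subgroup.coe_mul]
      have h2 : g * (g⁻¹ * (a : G) * g * (g⁻¹ * (b : G) * g)) * g⁻¹ =
          g * (g⁻¹ * (b : G) * g * (g⁻¹ * (a : G) * g)) * g⁻¹ := by rw [h1]
      calc (a : G) * b = g * (g⁻¹ * (a : G) * g * (g⁻¹ * (b : G) * g)) * g⁻¹ := by group
        _ = g * (g⁻¹ * (b : G) * g * (g⁻¹ * (a : G) * g)) * g⁻¹ := h2
        _ = (b : G) * a := by group
    · intro a
      have h1 := congrArg (Subtype.val) (e2 ⟨_, hmem a⟩)
      simp only [Subgroup.coe_pow, Subgroup.coe_one] at h1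
      apply Subtype.ext
      simp only [Subgroup.coe_pow, Subgroup.coe_one]
      have h2 : (g⁻¹ * (a : G) * g) ^ 3 = g⁻¹ * (a : G) ^ 3 * g := by
        simp only [pow_succ, pow_zero, one_mul]
        group
      rw [h2] at h1
      calc (a : G) ^ 3 = g * (g⁻¹ * (a : G) ^ 3 * g) * g⁻¹ := by group
        _ = 1 := by rw [h1]; group
  obtain ⟨χ, hχ, h1, _, h3⟩ := H75.block_case H20.nls H20.brm H63.smt H94.nch
    (H50.dic H20.ibn H20.nls H20.brm) H50.bid H50.chp H50.ldp H50.fld Nat.prime_three hM hO he hpos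
  have h4 : (9 : ℤ) ∣ altSum 3 M χ := nn3 M hM G hO e he hpos hdf χ hχ h1
  have h5 := chv 3 M hM G e he V hV (by rw [hV9]; norm_num)
  obtain ⟨a1, a2⟩ := lbd 3 M hM G e he.1 he.2.1
  obtain ⟨b1, b2⟩ := lbd 3 M hM (Subgroup.normalizer (V : Set G)) _ f2.1 f2.2.1
  have a3 := k9 M hM G e he V hV hV9
  have b3 := k9 M hM (Subgroup.normalizer (V : Set G)) _ f2 _ f3 (by
    rw [Nat.card_congr (Subgroup.subgroupOfEquivOfLe (Subgroup.le_normalizer)).toEquiv, hV9])
  set A := {f : G → FF M | f ∈ IBr (FF M) G ∧ actF e f = f}.ncard with hA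
  set B := {f : Subgroup.normalizer (V : Set G) → FF M |
      f ∈ IBr (FF M) (Subgroup.normalizer (V : Set G)) ∧
      actF (fun t : Subgroup.normalizer (V : Set G) => br V e t) f = f}.ncard with hB
  have h6 : (Nat.card G : ℤ) * altSum 3 M χ = (Nat.card G : ℤ) * ((A : ℤ) - (B : ℤ)) := by
    rw [h3, h5]
    ring
  have h7 : (Nat.card G : ℤ) ≠ 0 := by exact_mod_cast Nat.card_pos.ne'
  have h8 : altSum 3 M χ = (A : ℤ) - (B : ℤ) := mul_left_cancel₀ h7 h6
  have h9 : altSum 3 M χ = 0 := by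
    obtain ⟨c, hc⟩ := h4
    omega
  rw [← h3, h9, mul_zero]

end Pool.Agent.PP.K9.H27
end
end -- Pool.Agent.Helper27_K9.CT9

section -- Pool.Agent.Helper57_K9.Gq9

/-!
# Squad K9, row GQ9: the hypothesis of the reduction theorem for the groups of order dividing nine
-/

open scoped BigOperators

noncomputable section

namespace Pool.Agent.PP.K9.H57

open Pool.Agent.Helper51_AWC Pool.Agent.Helper79_WRA Pool.Agent.PP Pool.Agent.PP.KF

attribute [local instance] Ideal.Quotient.field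

/-- the class is closed under subgroups -/
theorem c9_subCl : DF.SubCl C9 := by
  intro Q R _ _ j hj hR
  have h1 : Nat.card R ∣ 9 := hR
  have h0 : Nat.card R ≠ 0 := by
    intro h2
    rw [h2] at h1
    norm_num at h1
  have : Finite R := Nat.finite_of_card_ne_zero h0
  exact (Subgroup.card_dvd_of_injective j hj).trans h1

/-- a defect group exists -/
theorem exists_tp {ℓ : ℕ} {F G : Type} [Field F] [Group G] [Finite G] {f : G → F} (hf : f ≠ 0) :
    ∃ V : Subgroup G, Tp ℓ f V := by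
  have hfin : {Q : Subgroup G | IsPGroup ℓ Q ∧ Gd f Q}.Finite := Set.toFinite _
  obtain ⟨g, hg⟩ : ∃ g, f g ≠ 0 := by
    by_contra hcon
    push Not at hcon
    exact hf (funext hcon)
  have hne : {Q : Subgroup G | IsPGroup ℓ Q ∧ Gd f Q}.Nonempty := by
    refine ⟨⊥, IsPGroup.of_bot, g, ?_, hg⟩
    rw [Subgroup.mem_centralizer_iff]
    intro x hx
    rw [Subgroup.mem_bot.1 hx, one_mul, mul_one]
  obtain ⟨V, hV, hm⟩ := Set.exists_max_image _ (fun Q : Subgroup G => Nat.card Q) hfin hne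
  exact ⟨V, hV.1, hV.2, fun Q hQ hg => hm Q ⟨hQ, hg⟩⟩

/-- a group of order dividing nine and different from nine is cyclic -/
theorem cyc_of_card {Q : Type} [Group Q] (h : Nat.card Q ∣ 9) (h9 : Nat.card Q ≠ 9) :
    IsCyclic Q := by
  have h3 : Nat.card Q ≤ 9 := Nat.le_of_dvd (by norm_num) h
  have h0 : Nat.card Q ≠ 0 := by
    intro h2
    rw [h2] at h
    norm_num at h
  have : Finite Q := Nat.finite_of_card_ne_zero h0
  interval_cases h6 : Nat.card Q
  · exact absurd rfl h0
  · have := (Nat.card_eq_one_iff_unique.1 h6).1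
    exact isCyclic_of_subsingleton
  · norm_num at h
  · have : Fact (Nat.Prime 3) := ⟨Nat.prime_three⟩
    exact isCyclic_of_prime_card h6
  all_goals first
    | exact absurd rfl h9
    | norm_num at h

/-- GQ9 -/
theorem gq9 (hC : Ct9Stmt) (hFM : FmgStmt) (hD : CD2.D2aStmt) (hA : AddStmt) : Gq9Stmt := by
  intro M _ hM G _ _ hO e he hp hdf
  have hF : GoodF 3 (FF M) := H50.fld 3 Nat.prime_three M hM
  have : Fact (Nat.Prime 3) := ⟨Nat.prime_three⟩
  refine hA 3 (FF M) hF G ⊤ inferInstance e he fun f hf hef => ?_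
  have hfe : mulF f e = f := by rw [H46.mulF_comm hf.1.1, hef]
  have hpf : Pos 3 f ⊤ := H46.pos_mono hf.1 hfe hp
  have hdf' : DF.DfE 3 C9 f ⊤ := DF.DfE.le hF he.1 hf.1.1 hef hdf
  obtain ⟨V, hV⟩ := exists_tp (ℓ := 3) hf.2.1
  by_cases hV9 : Nat.card V = 9 ∧ ¬ IsCyclic V
  · exact hC M hM G hO f hf hpf V hV hV9.1 hV9.2
  · refine hD 3 (FF M) hF G ⊤ inferInstance f hf.1 hpf
      ⟨f, hf.1, fun x hx => absurd (Subgroup.mem_top x) hx, hf.1.2, fun Q hQ hQp hbr => ?_⟩
    have h1 : ∃ g ∈ Subgroup.centralizer (Q : Set G), f g ≠ 0 := by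
      by_contra hcon
      push Not at hcon
      apply hbr
      funext t
      by_cases ht : t ∈ Subgroup.centralizer (Q : Set G)
      · rw [H66.br_of_mem ht]
        exact hcon t ht
      · rw [H66.br_of_not_mem ht]
        rfl
    have hQ9 : Nat.card Q ∣ 9 := hdf' Q hQ hQp h1
    by_cases h9 : Nat.card Q = 9
    · have hle : 9 ≤ Nat.card V := h9 ▸ hV.mx Q hQp h1
      have hV9' : Nat.card V = 9 :=
        le_antisymm (Nat.le_of_dvd (by norm_num) (hdf' V le_top hV.pg hV.gd)) hle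
      have hcyc : IsCyclic V := by
        by_contra hn
        exact hV9 ⟨hV9', hn⟩
      obtain ⟨g, hg⟩ := (hFM 3 M hM G f hf V hV).1 Q hQp h1
      have e1 : V ≃* conjS g V := V.equivMapOfInjective _ (MulAut.conj g).injective
      have : IsCyclic (conjS g V) := isCyclic_of_surjective e1.toMonoidHom e1.surjective
      exact isCyclic_of_injective (Subgroup.inclusion hg) (Subgroup.inclusion_injective hg)
    · exact cyc_of_card hQ9 h9

end Pool.Agent.PP.K9.H57
end
end -- Pool.Agent.Helper57_K9.Gq9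

section -- Pool.Agent.Helper57_K9.Fin9

/-!
# Squad K9: the final theorem
-/

open scoped BigOperators

noncomputable section

namespace Pool.Agent.PP.K9.H57

open Pool.Agent.Helper51_AWC Pool.Agent.Helper79_WRA Pool.Agent.PP Pool.Agent.PP.KF

attribute [local instance] Ideal.Quotient.field

/-- the final theorem for defect groups of order at most nine modulo `O_3(N)` -/
theorem fin9 (relq : DF.RelQEStmt) (fst : DF.FstStmt) (gq9 : Gq9Stmt) : Fin9Stmt := by
  intro M _ hM G _ _ hc N hN χ hχ ψ hψ hχψ hL hS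
  obtain ⟨x, P, hx, hPC, hPp, hPi, h9⟩ := hS
  have hfact : Fact (Nat.Prime 3) := ⟨Nat.prime_three⟩
  have hn := H75.opCore_normal (A := G) 3
  have hnN : (opCore 3 N).Normal := H75.opCore_normal (A := N) 3
  refine DF.finI relq fst Nat.prime_three hM c9_subCl hc hN ?_ hχ hψ hχψ hL
    ⟨x, P, fun h1 => hx ?_, hPC, hPp, hPi, _, inferInstance,
      QuotientGroup.mk' ((opCore 3 N).subgroupOf P), ?_, ?_⟩
  · intro S _ _ _ _ _ D _ _ hO _ _ _ e he _ hpos hdf
    exact gq9 M hM D hO e he hpos hdf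
  · have hint : IsIntegral ℤ (omega (MonoidHom.id N) ψ x) :=
      Pool.Agent.Helper51_AWC.omega_integral _ hψ x
    rw [← Pool.Agent.Helper79_WRA.red_eq_iff hint isIntegral_zero, h1,
      Pool.Agent.Helper79_WRA.red_zero]
  · change Nat.card (P ⧸ (opCore 3 N).subgroupOf P) ∣ 9
    have h1 : Nat.card (P ⧸ (opCore 3 N).subgroupOf P) = (opCore 3 N).relIndex P := rfl
    rw [h1]
    obtain ⟨n, hn⟩ := (IsPGroup.iff_card).1 hPp
    have h2 : (opCore 3 N).relIndex P ∣ 3 ^ n := by
      rw [← hn]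
      exact Subgroup.index_dvd_card _
    obtain ⟨k, -, hk⟩ := (Nat.dvd_prime_pow Nat.prime_three).1 h2
    rw [hk] at h9 ⊢
    have hk2 : k ≤ 2 := by
      by_contra h3
      have h4 : 3 ^ 3 ≤ 3 ^ k := Nat.pow_le_pow_right (by norm_num) (by omega)
      omega
    exact pow_dvd_pow 3 hk2
  · intro u
    rw [QuotientGroup.mk'_apply, QuotientGroup.eq_one_iff]
    exact Subgroup.mem_subgroupOf

end Pool.Agent.PP.K9.H57
end
end -- Pool.Agent.Helper57_K9.Fin9

section -- Pool.Agent.Helper57_K9.Fin2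

/-!
# Squad K9: the primes two and three together
-/

open scoped BigOperators

noncomputable section

namespace Pool.Agent.PP.K9.H57

open Pool.Agent.Helper51_AWC Pool.Agent.Helper79_WRA Pool.Agent.PP Pool.Agent.PP.KF

attribute [local instance] Ideal.Quotient.field

/-- the groups whose order divides four -/
def C4 : (Q : Type) → [Group Q] → Prop := fun Q _ => Nat.card Q ∣ 4

theorem c4_subCl : DF.SubCl C4 := by
  intro Q R _ _ j hj hR
  have h1 : Nat.card R ∣ 4 := hR
  have h0 : Nat.card R ≠ 0 := by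
    intro h2
    rw [h2] at h1
    norm_num at h1
  have : Finite R := Nat.finite_of_card_ne_zero h0
  exact (Subgroup.card_dvd_of_injective j hj).trans h1

theorem cyc_of_card4 {Q : Type} [Group Q] (h : Nat.card Q ∣ 4) (h4 : Nat.card Q ≠ 4) :
    IsCyclic Q := by
  have h3 : Nat.card Q ≤ 4 := Nat.le_of_dvd (by norm_num) h
  have h0 : Nat.card Q ≠ 0 := by
    intro h2
    rw [h2] at h
    norm_num at h
  have : Finite Q := Nat.finite_of_card_ne_zero h0
  interval_cases h6 : Nat.card Q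
  · exact absurd rfl h0
  · have := (Nat.card_eq_one_iff_unique.1 h6).1
    exact isCyclic_of_subsingleton
  · have : Fact (Nat.Prime 2) := ⟨Nat.prime_two⟩
    exact isCyclic_of_prime_card h6
  · norm_num at h
  · exact absurd rfl h4

/-- a noncyclic group of order four embeds into the Klein four group -/
theorem v4_of {Q : Type} [Group Q] (h4 : Nat.card Q = 4) (hc : ¬ IsCyclic Q) : V4 Q := by
  have hfin : Finite Q := Nat.finite_of_card_ne_zero (by rw [h4]; norm_num)
  have hk : IsKleinFour Q := by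
    refine ⟨h4, ?_⟩
    have h1 : Monoid.exponent Q ∣ 4 := h4 ▸ Group.exponent_dvd_nat_card
    have h2 : Monoid.exponent Q ≠ 4 := by
      intro h
      apply hc
      have hab : IsMulCommutative Q := by
        have : Fact (Nat.Prime 2) := ⟨Nat.prime_two⟩
        exact IsPGroup.isMulCommutative_of_card_eq_prime_sq (p := 2) (by rw [h4]; norm_num)
      letI : CommGroup Q := { (inferInstance : Group Q) with
        mul_comm := fun a b => hab.is_comm.comm a b }
      exact IsCyclic.of_exponent_eq_card (by rw [h, h4])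
    have h3 : Monoid.exponent Q ≠ 1 := by
      intro h
      have : Subsingleton Q := Monoid.exp_eq_one_iff.1 h
      have h5 : Nat.card Q ≤ 1 := Finite.card_le_one_iff_subsingleton.2 this
      omega
    have h5 : Monoid.exponent Q ≤ 4 := Nat.le_of_dvd (by norm_num) h1
    interval_cases h6 : Monoid.exponent Q
    · norm_num at h1
    · exact absurd rfl h3
    · rfl
    · norm_num at h1
    · exact absurd rfl h2
  have hk2 : IsKleinFour (Multiplicative (ZMod 2) × Multiplicative (ZMod 2)) := by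
    refine ⟨?_, ?_⟩
    · rw [Nat.card_prod, show Nat.card (Multiplicative (ZMod 2)) = Nat.card (ZMod 2) from rfl,
        Nat.card_zmod]
    · have h1 : Monoid.exponent (Multiplicative (ZMod 2) × Multiplicative (ZMod 2)) ∣ 2 := by
        refine Monoid.exponent_dvd_of_forall_pow_eq_one fun g => ?_
        revert g
        decide
      refine ((Nat.dvd_prime Nat.prime_two).1 h1).resolve_left fun h => ?_
      have : Subsingleton (Multiplicative (ZMod 2) × Multiplicative (ZMod 2)) :=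
        Monoid.exp_eq_one_iff.1 h
      have h7 : ((1, 1) : Multiplicative (ZMod 2) × Multiplicative (ZMod 2)) =
        (Multiplicative.ofAdd 1, 1) := Subsingleton.elim _ _
      exact absurd h7 (by decide)
  obtain ⟨e⟩ := IsKleinFour.nonempty_mulEquiv (G₁ := Q)
    (G₂ := Multiplicative (ZMod 2) × Multiplicative (ZMod 2))
  exact ⟨e.toMonoidHom, e.injective⟩

/-- a subgroup of a group that embeds into the Klein four group -/
theorem v4_mono {Q R : Type} [Group Q] [Group R] (j : Q →* R) (hj : Function.Injective j)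
    (h : V4 R) : V4 Q := by
  obtain ⟨i, hi⟩ := h
  exact ⟨i.comp j, hi.comp hj⟩

/-- GQ4 for the groups of order dividing four -/
theorem gq4' (hC : Gq4Stmt) (hFM : FmgStmt) (hD : CD2.D2aStmt) (hA : AddStmt) :
    ∀ (M : Ideal (integralClosure ℤ ℂ)) [M.IsMaximal],
      (2 : integralClosure ℤ ℂ) ∈ M → ∀ (G : Type) [Group G] [Finite G] (e : G → FF M),
      IsIdem e → Pos 2 e ⊤ → DF.DfE 2 C4 e ⊤ → YY 2 ⊤ e = 0 := by
  intro M _ hM G _ _ e he hp hdf
  have hM' : ((2 : ℕ) : integralClosure ℤ ℂ) ∈ M := by exact_mod_cast hM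
  have hF : GoodF 2 (FF M) := H50.fld 2 Nat.prime_two M hM'
  have : Fact (Nat.Prime 2) := ⟨Nat.prime_two⟩
  refine hA 2 (FF M) hF G ⊤ inferInstance e he fun f hf hef => ?_
  have hfe : mulF f e = f := by rw [H46.mulF_comm hf.1.1, hef]
  have hpf : Pos 2 f ⊤ := H46.pos_mono hf.1 hfe hp
  have hdf' : DF.DfE 2 C4 f ⊤ := DF.DfE.le hF he.1 hf.1.1 hef hdf
  obtain ⟨V, hV⟩ := exists_tp (ℓ := 2) hf.2.1
  have hfm : ∀ Q : Subgroup G, IsPGroup 2 Q → Gd f Q → ∃ g, Q ≤ conjS g V :=
    (hFM 2 M hM' G f hf V hV).1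
  by_cases hV4 : Nat.card V = 4 ∧ ¬ IsCyclic V
  · refine hC M hM G f hf.1 hpf fun Q hQ hQp h1 => ?_
    obtain ⟨g, hg⟩ := hfm Q hQp h1
    have e1 : V ≃* conjS g V := V.equivMapOfInjective _ (MulAut.conj g).injective
    refine v4_mono ((e1.symm.toMonoidHom).comp (Subgroup.inclusion hg)) ?_
      (v4_of hV4.1 hV4.2)
    exact e1.symm.injective.comp (Subgroup.inclusion_injective hg)
  · refine hD 2 (FF M) hF G ⊤ inferInstance f hf.1 hpf
      ⟨f, hf.1, fun x hx => absurd (Subgroup.mem_top x) hx, hf.1.2, fun Q hQ hQp hbr => ?_⟩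
    have h1 : ∃ g ∈ Subgroup.centralizer (Q : Set G), f g ≠ 0 := by
      by_contra hcon
      push Not at hcon
      apply hbr
      funext t
      by_cases ht : t ∈ Subgroup.centralizer (Q : Set G)
      · rw [H66.br_of_mem ht]
        exact hcon t ht
      · rw [H66.br_of_not_mem ht]
        rfl
    have hQ4 : Nat.card Q ∣ 4 := hdf' Q hQ hQp h1
    by_cases h4 : Nat.card Q = 4
    · have hle : 4 ≤ Nat.card V := h4 ▸ hV.mx Q hQp h1
      have hV4' : Nat.card V = 4 :=
        le_antisymm (Nat.le_of_dvd (by norm_num) (hdf' V le_top hV.pg hV.gd)) hle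
      have hcyc : IsCyclic V := by
        by_contra hn
        exact hV4 ⟨hV4', hn⟩
      obtain ⟨g, hg⟩ := hfm Q hQp h1
      have e1 : V ≃* conjS g V := V.equivMapOfInjective _ (MulAut.conj g).injective
      have : IsCyclic (conjS g V) := isCyclic_of_surjective e1.toMonoidHom e1.surjective
      exact isCyclic_of_injective (Subgroup.inclusion hg) (Subgroup.inclusion_injective hg)
    · exact cyc_of_card4 hQ4 h4

/-- the final theorem for the primes two and three and defect groups of order at most `ℓ ^ 2`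
modulo `O_ℓ(N)` -/
theorem finS (relq : DF.RelQEStmt) (fst : DF.FstStmt) (gq4 : Gq4Stmt) (gq9 : Gq9Stmt)
    (hFM : FmgStmt) (hD : CD2.D2aStmt) (hA : AddStmt) :
    ∀ (ℓ : ℕ), ℓ = 2 ∨ ℓ = 3 → ∀ (M : Ideal (integralClosure ℤ ℂ)) [M.IsMaximal],
      (ℓ : integralClosure ℤ ℂ) ∈ M → ∀ (G : Type) [Group G] [Finite G],
      opCore ℓ G ≤ Subgroup.center G → ∀ N : Subgroup G, N.Normal →
      ∀ χ ∈ Irr G, ∀ ψ ∈ Irr N, (∑ᶠ n : N, χ n * starRingEnd ℂ (ψ n)) ≠ 0 →
        LargeDefect ℓ M ψ →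
        (∃ (x : N) (P : Subgroup N), ¬ Cong M (omega (MonoidHom.id N) ψ x) 0 ∧
          P ≤ Subgroup.centralizer ({x} : Set N) ∧ IsPGroup ℓ P ∧
          ¬ ℓ ∣ P.relIndex (Subgroup.centralizer ({x} : Set N)) ∧
          (opCore ℓ N).relIndex P ≤ ℓ ^ 2) →
        altSum ℓ M χ = 0 := by
  intro ℓ hℓ M _ hM G _ _ hc N hN χ hχ ψ hψ hχψ hL hS
  rcases hℓ with rfl | rfl
  · obtain ⟨x, P, hx, hPC, hPp, hPi, h4⟩ := hS
    have hfact : Fact (Nat.Prime 2) := ⟨Nat.prime_two⟩
    have hn := H75.opCore_normal (A := G) 2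
    have hnN : (opCore 2 N).Normal := H75.opCore_normal (A := N) 2
    refine DF.finI relq fst Nat.prime_two hM c4_subCl hc hN ?_ hχ hψ hχψ hL
      ⟨x, P, fun h1 => hx ?_, hPC, hPp, hPi, _, inferInstance,
        QuotientGroup.mk' ((opCore 2 N).subgroupOf P), ?_, ?_⟩
    · intro S _ _ _ _ _ D _ _ _ _ _ _ e he _ hpos hdf
      exact gq4' gq4 hFM hD hA M (by exact_mod_cast hM) D e he hpos hdf
    · have hint : IsIntegral ℤ (omega (MonoidHom.id N) ψ x) :=
        Pool.Agent.Helper51_AWC.omega_integral _ hψ x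
      rw [← Pool.Agent.Helper79_WRA.red_eq_iff hint isIntegral_zero, h1,
        Pool.Agent.Helper79_WRA.red_zero]
    · change Nat.card (P ⧸ (opCore 2 N).subgroupOf P) ∣ 4
      have h1 : Nat.card (P ⧸ (opCore 2 N).subgroupOf P) = (opCore 2 N).relIndex P := rfl
      rw [h1]
      obtain ⟨n, hn⟩ := (IsPGroup.iff_card).1 hPp
      have h2 : (opCore 2 N).relIndex P ∣ 2 ^ n := by
        rw [← hn]
        exact Subgroup.index_dvd_card _
      obtain ⟨k, -, hk⟩ := (Nat.dvd_prime_pow Nat.prime_two).1 h2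
      rw [hk] at h4 ⊢
      have hk2 : k ≤ 2 := by
        by_contra h3
        have h5 : 2 ^ 3 ≤ 2 ^ k := Nat.pow_le_pow_right (by norm_num) (by omega)
        omega
      exact pow_dvd_pow 2 hk2
    · intro u
      rw [QuotientGroup.mk'_apply, QuotientGroup.eq_one_iff]
      exact Subgroup.mem_subgroupOf
  · refine fin9 relq fst gq9 M hM G hc N hN χ hχ ψ hψ hχψ hL ?_
    obtain ⟨x, P, hx, hPC, hPp, hPi, h9⟩ := hS
    exact ⟨x, P, hx, hPC, hPp, hPi, h9.trans (by norm_num)⟩

end Pool.Agent.PP.K9.H57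
end
end -- Pool.Agent.Helper57_K9.Fin2

section -- Pool.Agent.Helper62_ML.ALB

/-!
# Squad ML, row ALB
-/

open scoped BigOperators

noncomputable section

namespace Pool.Agent.PP.ML.H62

open Pool.Agent.Helper51_AWC Pool.Agent.Helper79_WRA Pool.Agent.PP Pool.Agent.Helper98_CC
open Pool.Agent.PP.ML

theorem sum_lab {M : Ideal (integralClosure ℤ ℂ)} {G : Type} [Group G] [Finite G]
    (H : Subgroup G) {χ : G → ℂ} (hχ : χ ∈ Irr G) :
    (∑ᶠ (a : G → ℂ) (_ : a ∈ IrrS H),
      (open Classical in if labF M a = labF M χ then (1 : ℂ) else 0)) =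
      ((IrrBlock M H.subtype χ).ncard : ℂ) := by
  classical
  rw [← Pool.Agent.Helper79_WRA.H83.ncard_label H hχ,
    finsum_mem_eq_finite_toFinset_sum _ (IrrS_finite H)]
  have h1 : {a | a ∈ IrrS H ∧ labF M a = labF M χ} =
      (((IrrS_finite H).toFinset.filter fun a => labF M a = labF M χ : Finset (G → ℂ)) :
        Set (G → ℂ)) := by
    ext a
    simp
  rw [h1, Set.ncard_coe_finset, Finset.sum_boole]

theorem alb : AlbStmt := by
  intro ℓ _ M _ _ G _ _ _ χ hχ
  classical
  haveI : Finite (PChain ℓ G) := inferInstance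
  haveI := Fintype.ofFinite (Quotient (chainSetoid ℓ G))
  rw [altSum, altF, finsum_eq_sum_of_fintype, finsum_eq_sum_of_fintype]
  push_cast
  refine Finset.sum_congr rfl fun q _ => ?_
  have h := sum_lab (M := M) (stab q.out.mem) hχ
  rw [← h]

end Pool.Agent.PP.ML.H62
end
end -- Pool.Agent.Helper62_ML.ALB

section -- Pool.Agent.Helper9_ML.MN2

/-!
# Squad ML, stage 2, module MN2: from `O_ℓ(G) = 1` to a central `O_ℓ(G)`
-/

open scoped BigOperators

set_option linter.unusedSectionVars false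

noncomputable section

namespace Pool.Agent.PP.ML.H9

open Pool.Agent.Helper51_AWC Pool.Agent.Helper79_WRA Pool.Agent.PP Pool.Agent.Helper98_CC

section grp

variable {A B : Type} [Group A] [Group B] [Finite A] [Finite B]

/-- if no nontrivial element `u` of the kernel satisfies `x u ∼ x`, two conjugates of `x` with the
same image are equal -/
theorem lift_unique {p : A →* B} {x : A}
    (hx : ∀ u ∈ p.ker, (∃ w : A, w * x * w⁻¹ = x * u) → u = 1) {y z : A}
    (h : p (y * x * y⁻¹) = p (z * x * z⁻¹)) : y * x * y⁻¹ = z * x * z⁻¹ := by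
  set w := z⁻¹ * y with hw
  set u := x⁻¹ * (w * x * w⁻¹) with hu
  have hwx : w * x * w⁻¹ = x * u := by rw [hu, mul_inv_cancel_left]
  have hpw : p w * p x * (p w)⁻¹ = p x := by
    have h1 : p w * p x * (p w)⁻¹ = (p z)⁻¹ * p (y * x * y⁻¹) * p z := by
      rw [hw]
      simp only [map_mul, map_inv]
      group
    rw [h1, h]
    simp only [map_mul, map_inv]
    group
  have huk : u ∈ p.ker := by
    rw [MonoidHom.mem_ker, hu]
    simp only [map_mul, map_inv]
    rw [hpw, inv_mul_cancel]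
  have hu1 : u = 1 := hx u huk ⟨w, hwx⟩
  rw [hu1, mul_one] at hwx
  calc y * x * y⁻¹ = z * (w * x * w⁻¹) * z⁻¹ := by rw [hw]; group
    _ = z * x * z⁻¹ := by rw [hwx]

/-- the image of a class sum -/
theorem push_clsum {F : Type} [Field F] {p : A →* B}
    (hp : Function.Surjective p) {x : A}
    (hx : ∀ u ∈ p.ker, (∃ w : A, w * x * w⁻¹ = x * u) → u = 1) :
    H75.push p (clsum F ⊤ x) = clsum F ⊤ (p x) := by
  classical
  have := Fintype.ofFinite A
  funext y
  rw [H75.push_eq]
  by_cases h : ∃ q ∈ (⊤ : Subgroup B), y = q * p x * q⁻¹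
  · obtain ⟨q, _, rfl⟩ := h
    obtain ⟨g, rfl⟩ := hp q
    rw [Finset.sum_eq_single (g * x * g⁻¹)]
    · rw [if_pos (by rw [map_mul, map_mul, map_inv]), clsum, clsum, if_pos, if_pos]
      · exact ⟨p g, Subgroup.mem_top _, rfl⟩
      · exact ⟨g, Subgroup.mem_top _, rfl⟩
    · intro z _ hz
      by_cases h1 : p z = p g * p x * (p g)⁻¹
      · rw [if_pos h1, clsum, if_neg]
        rintro ⟨r, _, rfl⟩
        apply hz
        apply lift_unique hx
        rw [h1, map_mul, map_mul, map_inv]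
      · rw [if_neg h1]
    · intro h'
      exact absurd (Finset.mem_univ _) h'
  · rw [clsum, if_neg h]
    apply Finset.sum_eq_zero
    intro z _
    by_cases h1 : p z = y
    · rw [if_pos h1, clsum, if_neg]
      rintro ⟨r, _, rfl⟩
      apply h
      refine ⟨p r, Subgroup.mem_top _, ?_⟩
      rw [← h1, map_mul, map_mul, map_inv]
    · rw [if_neg h1]

/-- the image of a class sum vanishes if `x ∼ x u` for a nontrivial central `ℓ`-element of the
kernel -/
theorem push_zero {F : Type} [Field F] {ℓ : ℕ} (hF : GoodF ℓ F) {p : A →* B}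
    (hk : IsPGroup ℓ p.ker) (hc : p.ker ≤ Subgroup.center A) {x u : A} (hu : u ∈ p.ker)
    (hu1 : u ≠ 1) {w : A} (hw : w * x * w⁻¹ = x * u) : H75.push p (clsum F ⊤ x) = 0 := by
  classical
  funext y
  have huz : ∀ g, g * u = u * g := fun g => Subgroup.mem_center_iff.1 (hc hu) g
  let R : Subgroup A := Subgroup.zpowers u
  have hR : IsPGroup ℓ R := by
    have h1 : R ≤ p.ker := by
      rw [Subgroup.zpowers_le]
      exact hu
    exact hk.to_le h1
  -- invariance under multiplication by `u`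
  have hinv : ∀ t : A, clsum F ⊤ x (u * t) = clsum F ⊤ x t := by
    intro t
    have hi : (∃ q ∈ (⊤ : Subgroup A), u * t = q * x * q⁻¹) ↔
        ∃ q ∈ (⊤ : Subgroup A), t = q * x * q⁻¹ := by
      constructor
      · rintro ⟨q, _, hq⟩
        refine ⟨q * w⁻¹, Subgroup.mem_top _, ?_⟩
        have h2 : w⁻¹ * x * w = x * u⁻¹ := by
          have h3 : x = w⁻¹ * (x * u) * w := by rw [← hw]; group
          have h4 : w⁻¹ * (x * u) * w = w⁻¹ * x * w * u := by
            rw [mul_assoc w⁻¹ x w, mul_assoc w⁻¹ (x * w) u, mul_assoc x w u, huz w]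
            group
          rw [h4] at h3
          rw [eq_mul_inv_iff_mul_eq]
          exact h3.symm
        have h5 : q * w⁻¹ * x * (q * w⁻¹)⁻¹ = q * (w⁻¹ * x * w) * q⁻¹ := by group
        rw [h5, h2]
        have h6 : q * (x * u⁻¹) * q⁻¹ = u⁻¹ * (q * x * q⁻¹) := by
          have h7 : ∀ g, g * u⁻¹ = u⁻¹ * g := fun g =>
            Subgroup.mem_center_iff.1 (Subgroup.inv_mem _ (hc hu)) g
          rw [← mul_assoc, h7 (q * x)]
          group
        rw [h6, ← hq, inv_mul_cancel_left]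
      · rintro ⟨q, _, hq⟩
        refine ⟨q * w, Subgroup.mem_top _, ?_⟩
        have h5 : q * w * x * (q * w)⁻¹ = q * (w * x * w⁻¹) * q⁻¹ := by group
        rw [h5, hw, hq, ← mul_assoc q x u, huz (q * x)]
        group
    unfold clsum
    by_cases h : ∃ q ∈ (⊤ : Subgroup A), t = q * x * q⁻¹
    · rw [if_pos (hi.2 h), if_pos h]
    · rw [if_neg (fun h' => h (hi.1 h')), if_neg h]
  have hp1 : p u = 1 := MonoidHom.mem_ker.1 hu
  let h : A → F := fun t => if p t = y then clsum F ⊤ x t else 0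
  have hh : ∀ t, h (u * t) = h t := by
    intro t
    change (if p (u * t) = y then clsum F ⊤ x (u * t) else 0) = if p t = y then clsum F ⊤ x t else 0
    rw [map_mul, hp1, one_mul, hinv]
  have hinvR : ∀ (r : R) (t : A), h (r • t) = h t := by
    rintro ⟨r, hr⟩ t
    change h (r * t) = h t
    obtain ⟨n, rfl⟩ := Subgroup.mem_zpowers_iff.1 hr
    obtain ⟨m, hm⟩ : ∃ m : ℕ, u ^ m = u ^ n := by
      have := mem_powers_iff_mem_zpowers.2 (Subgroup.mem_zpowers_iff.2 ⟨n, rfl⟩ :
        u ^ n ∈ Subgroup.zpowers u)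
      exact this
    rw [← hm]
    clear hm
    induction m with
    | zero => rw [pow_zero, one_mul]
    | succ m ih => rw [pow_succ', mul_assoc, hh, ih]
  have key := H74.orb ℓ F F R A hF.prime hF.char hR h hinvR
  have h1 : H75.push p (clsum F ⊤ x) y = ∑ᶠ t, h t := by
    have := Fintype.ofFinite A
    rw [H75.push_eq, finsum_eq_sum_of_fintype]
  rw [h1, key]
  apply finsum_eq_zero_of_forall_eq_zero
  intro t
  have hnot : t ∉ MulAction.fixedPoints R A := by
    intro ht
    apply hu1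
    have h2 := (MulAction.mem_fixedPoints.1 ht) ⟨u, Subgroup.mem_zpowers u⟩
    have h3 : u * t = t := h2
    exact mul_eq_right.1 h3
  have h5 : (t ∈ MulAction.fixedPoints R A) = False := eq_false hnot
  simp only [h5, finsum_false]

/-- `O_ℓ(G / O_ℓ(G)) = 1` -/
theorem core_quot {ℓ : ℕ} [Fact ℓ.Prime] {p : A →* B} (hp : Function.Surjective p)
    (hk : p.ker = opCore ℓ A) : opCore ℓ B = ⊥ := by
  have hkp : IsPGroup ℓ p.ker := by
    rw [hk]
    exact (opCore_spec ℓ A).2.1
  have h1 : ((opCore ℓ B).comap p) ≤ opCore ℓ A := by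
    apply (opCore_spec ℓ A).2.2
    · have := (opCore_spec ℓ B).1
      exact this.comap p
    · exact (H75.isPGroup_comap_iff hp hkp _).2 (opCore_spec ℓ B).2.1
  rw [eq_bot_iff]
  intro y hy
  obtain ⟨x, rfl⟩ := hp y
  have h2 : x ∈ p.ker := by
    rw [hk]
    exact h1 hy
  rw [Subgroup.mem_bot]
  exact MonoidHom.mem_ker.1 h2

/-- the centraliser of the image -/
theorem cent_map {p : A →* B} (hp : Function.Surjective p) {x : A}
    (hx : ∀ u ∈ p.ker, (∃ w : A, w * x * w⁻¹ = x * u) → u = 1) :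
    Subgroup.centralizer ({p x} : Set B) = (Subgroup.centralizer ({x} : Set A)).map p := by
  apply le_antisymm
  · intro y hy
    obtain ⟨w, rfl⟩ := hp y
    rw [Subgroup.mem_centralizer_singleton_iff] at hy
    refine ⟨w, ?_, rfl⟩
    change w ∈ Subgroup.centralizer ({x} : Set A)
    rw [Subgroup.mem_centralizer_singleton_iff]
    have h1 : w * x * w⁻¹ = x * (x⁻¹ * (w * x * w⁻¹)) := by rw [mul_inv_cancel_left]
    have h2 : x⁻¹ * (w * x * w⁻¹) ∈ p.ker := by
      rw [MonoidHom.mem_ker]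
      simp only [map_mul, map_inv]
      rw [hy]
      group
    have h3 := hx _ h2 ⟨w, h1⟩
    rw [h3, mul_one] at h1
    exact mul_inv_eq_iff_eq_mul.1 h1
  · rintro _ ⟨w, hw, rfl⟩
    have hw' : w ∈ Subgroup.centralizer ({x} : Set A) := hw
    rw [Subgroup.mem_centralizer_singleton_iff] at hw' ⊢
    rw [← map_mul, hw', map_mul]

end grp

section res

variable {M : Ideal (integralClosure ℤ ℂ)} {A B : Type} [Group A] [Finite A] [Group B] [Finite B]

theorem res_add [M.IsMaximal] {χ : A → ℂ} :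
    letI := Ideal.Quotient.field M
    ∀ (a b : A → FF M), res M (a + b) χ = res M a χ + res M b χ := by
  let _ := Ideal.Quotient.field M
  intro a b
  unfold res
  rw [← finsum_add_distrib (Set.toFinite _) (Set.toFinite _)]
  apply finsum_congr
  intro K
  rw [Pi.add_apply, add_mul]

theorem isCl_iter {F : Type} [Field F] {a b : A → F} (ha : IsCl a) (hb : IsCl b) (n : ℕ) :
    IsCl ((mulF a)^[n] b) := by
  induction n with
  | zero => exact hb
  | succ n ih =>
    rw [Function.iterate_succ_apply']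
    exact H75.isCl_mulF ha ih

/-- the residues at a block of the quotient -/
theorem res_push [M.IsMaximal] {p : A →* B} (hp : Function.Surjective p) :
    letI := Ideal.Quotient.field M
    ∀ {χ : A → ℂ}, χ ∈ Irr A → ∀ {e : A → FF M}, IsBlk e → res M e χ = 1 →
      ∀ {f : B → FF M}, IsBlk f → mulF (H75.push p e) f = f → ∀ {ψ : B → ℂ}, ψ ∈ Irr B →
      res M f ψ = 1 → ∀ {a : A → FF M}, IsCl a → res M (H75.push p a) ψ = res M a χ := by
  let _ := Ideal.Quotient.field M
  intro χ hχ e he he1 f hf hef ψ hψ hf1 a ha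
  have hpe : IsCl (H75.push p e) := (H75.push_isIdem hp he.1).1
  have hpe1 : res M (H75.push p e) ψ = 1 := by
    have h1 := H75.res_mulF hψ hpe hf.1.1
    rw [hef, hf1, mul_one] at h1
    exact h1.symm
  set c : FF M := res M a χ with hc
  obtain ⟨hd, hd1⟩ := H75.res_dl (M := M) hχ (Subgroup.one_mem _) rfl
  obtain ⟨hd', hd1'⟩ := H75.res_dl (M := M) hψ (Subgroup.one_mem _) rfl
  set b : A → FF M := fun x => (-c) * dl (FF M) (1 : A) x with hb
  have hbcl : IsCl b := by
    intro x y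
    change -c * _ = -c * _
    rw [hd]
  have hab : IsCl (a + b) := by
    intro x y
    rw [Pi.add_apply, Pi.add_apply, ha, hbcl]
  have h0 : res M (a + b) χ = 0 := by
    rw [res_add, H75.res_smul, hd1, mul_one, ← hc, add_neg_cancel]
  obtain ⟨n, hn⟩ := H75.nilp hχ he he1 hab h0
  have h1 : (mulF (H75.push p (a + b)))^[n] (H75.push p e) = 0 := by
    rw [← H75.push_iterate, hn, H75.push_zero]
  have h2 : ∀ m : ℕ, res M ((mulF (H75.push p (a + b)))^[m] (H75.push p e)) ψ =
      res M (H75.push p (a + b)) ψ ^ m := by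
    intro m
    induction m with
    | zero => rw [Function.iterate_zero_apply, pow_zero, hpe1]
    | succ m ih =>
      rw [Function.iterate_succ_apply', H75.res_mulF hψ (H75.push_isCl hp hab)
        (isCl_iter (H75.push_isCl hp hab) hpe m), ih, pow_succ']
  have h3 := h2 n
  rw [h1, H75.res_zero] at h3
  have h4 : res M (H75.push p (a + b)) ψ = 0 := by
    by_contra h
    exact pow_ne_zero n h h3.symm
  have h5 : H75.push p b = fun y => (-c) * dl (FF M) (1 : B) y := by
    rw [← H75.push_dl_one p]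
    classical
    have := Fintype.ofFinite A
    funext y
    rw [H75.push_eq, H75.push_eq, Finset.mul_sum]
    apply Finset.sum_congr rfl
    intro t _
    rw [mul_ite, mul_zero]
  rw [H75.push_add, res_add, h5, H75.res_smul, hd1', mul_one] at h4
  exact add_neg_eq_zero.1 h4

end res

section main

variable {M : Ideal (integralClosure ℤ ℂ)} {A B : Type} [Group A] [Finite A] [Group B] [Finite B]

/-- divisibility of the alternating sum of an idempotent from the blocks -/
theorem dvd_YY {ℓ : ℕ} {F : Type} [Field F] (hF : GoodF ℓ F) (Q : Subgroup B) (c : ℤ) {e : B → F}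
    (he : IsIdem e) (h : ∀ f : B → F, IsBlk f → mulF e f = f → c ∣ YY ℓ Q f) : c ∣ YY ℓ Q e := by
  revert h
  refine H46.idem_induction (fun e => (∀ f : B → F, IsBlk f → mulF e f = f → c ∣ YY ℓ Q f) →
    c ∣ YY ℓ Q e) ?_ ?_ ?_ e he
  · intro _
    have h := H9.YY_add hF H94.nch H20.nls H20.brm H20.eig H20.ibf Q
      (H46.isIdem_zero (F := F) (H := B)) H46.isIdem_zero (H46.mulF_zero 0)
    rw [add_zero] at h
    have h0 : YY ℓ Q (0 : B → F) = 0 := by linarith
    rw [h0]
    exact dvd_zero _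
  · intro b hb h
    exact h b hb hb.1.2
  · intro e₁ e₂ h1 h2 h12 p1 p2 h
    have h21 : mulF e₂ e₁ = 0 := by rw [← H46.mulF_comm h1.1, h12]
    have hd : ∀ f : B → F, mulF (e₁ + e₂) f = mulF e₁ f + mulF e₂ f := by
      intro f
      apply ma_injective
      rw [ma_mul, ma_add, ma_add, ma_mul, ma_mul, add_mul]
    have hz : ∀ f : B → F, mulF (0 : B → F) f = 0 := by
      intro f
      apply ma_injective
      rw [ma_mul, ma_zero, zero_mul]
    rw [H9.YY_add hF H94.nch H20.nls H20.brm H20.eig H20.ibf Q h1 h2 h12]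
    apply dvd_add
    · apply p1
      intro f hf hfe
      apply h f hf
      rw [hd, hfe]
      have : mulF e₂ f = 0 := by rw [← hfe, ← mulF_assoc, h21, hz]
      rw [this, add_zero]
    · apply p2
      intro f hf hfe
      apply h f hf
      rw [hd, hfe]
      have : mulF e₁ f = 0 := by rw [← hfe, ← mulF_assoc, h12, hz]
      rw [this, zero_add]

/-- the alternating sum of a block, `O_ℓ = 1` -/
theorem block_sum {ℓ : ℕ} (hℓ : ℓ.Prime) [M.IsMaximal] (hM : (ℓ : integralClosure ℤ ℂ) ∈ M)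
    (hO : opCore ℓ B = ⊥) :
    letI := Ideal.Quotient.field M
    ∀ {f : B → FF M}, IsBlk f → ∃ χ ∈ Irr B, res M f χ = 1 ∧
      (Nat.card B : ℤ) * altSum ℓ M χ = YY ℓ ⊤ f := by
  let _ := Ideal.Quotient.field M
  intro f hf
  have hF : GoodF ℓ (FF M) := H50.fld ℓ hℓ M hM
  obtain ⟨χ, hχ, h1, h2⟩ := H75.blk_char H50.chp H50.bid hℓ hM hf
  have hker : (MonoidHom.id B).ker = opCore ℓ B := by
    rw [hO, MonoidHom.ker_id]
  have hkp : IsPGroup ℓ (MonoidHom.id B).ker := by
    rw [MonoidHom.ker_id]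
    exact IsPGroup.of_bot
  have hkc : (MonoidHom.id B).ker ≤ Subgroup.center B := by
    rw [MonoidHom.ker_id]
    exact bot_le
  have h3 := H75.altSum_central H20.nls H20.brm H63.smt H94.nch
    (H50.dic H20.ibn H20.nls H20.brm) hℓ M hM hF (p := MonoidHom.id B)
    Function.surjective_id hker hkp hkc χ hχ f hf h1 h2
  rw [MonoidHom.ker_id, Subgroup.card_bot, H75.push_id, Nat.cast_one, one_pow, one_mul] at h3
  exact ⟨χ, hχ, h1, h3⟩

theorem isCl_clsum {F : Type} [Field F] (x : A) : IsCl (clsum F (⊤ : Subgroup A) x) := by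
  intro z g
  have := congrFun (H75.clsum_inv (F := F) (Q := (⊤ : Subgroup A)) x g⁻¹ (Subgroup.mem_top _)) z
  rw [H75.cj, inv_inv] at this
  exact this

/-- MN2 -/
theorem mn2 (mn1 : Mn1Stmt) (dvr : DvrStmt) : Mn2Stmt := by
  intro ℓ _ M _ hM G _ _ hcen χ hχ x hx R hR hRC hRS A _ ρ hρ k hk
  let _ := Ideal.Quotient.field M
  have hℓ : ℓ.Prime := Fact.out
  have hF : GoodF ℓ (FF M) := H50.fld ℓ hℓ M hM
  have hn := H75.opCore_normal (A := G) ℓ
  obtain ⟨e, he, h1, h2⟩ := H50.bid ℓ hℓ M hM G χ hχ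
  set p : G →* G ⧸ opCore ℓ G := QuotientGroup.mk' (opCore ℓ G) with hp
  have hker : p.ker = opCore ℓ G := QuotientGroup.ker_mk' _
  have hsurj : Function.Surjective p := QuotientGroup.mk'_surjective (opCore ℓ G)
  have hkp : IsPGroup ℓ p.ker := by
    rw [hker]
    exact H75.opCore_isPGroup hℓ
  have hkc : p.ker ≤ Subgroup.center G := by
    rw [hker]
    exact hcen
  have heq := H75.altSum_central H20.nls H20.brm H63.smt H94.nch
    (H50.dic H20.ibn H20.nls H20.brm) hℓ M hM hF hsurj hker hkp hkc χ hχ e he h1 h2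
  have hOB : opCore ℓ (G ⧸ opCore ℓ G) = ⊥ := core_quot hsurj hker
  -- the order is a power of `ℓ`
  obtain ⟨n, hn'⟩ : ∃ n, orderOf (ρ ⟨x ^ k, hk⟩) = ℓ ^ n := by
    obtain ⟨j, hj⟩ := hR ⟨x ^ k, hk⟩
    have h3 : orderOf (ρ ⟨x ^ k, hk⟩) ∣ ℓ ^ j := by
      apply orderOf_dvd_of_pow_eq_one
      rw [← map_pow, hj, map_one]
    obtain ⟨n, _, hn'⟩ := (Nat.dvd_prime_pow hℓ).1 h3
    exact ⟨n, hn'⟩
  have hlab : labF M χ x ≠ 0 := by
    intro h0
    apply hx
    have h3 : red M (omega (MonoidHom.id G) χ x) = red M 0 := by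
      rw [red_zero]
      exact h0
    exact (red_eq_iff (omega_integral _ hχ x) isIntegral_zero).1 h3
  have main : ((Nat.card (G ⧸ opCore ℓ G) : ℤ) * ((ℓ ^ n : ℕ) : ℤ)) ∣
      YY ℓ (⊤ : Subgroup (G ⧸ opCore ℓ G)) (H75.push p e) := by
    apply dvd_YY hF _ _ (H75.push_isIdem hsurj he.1)
    intro f hf hef
    obtain ⟨ψ, hψ, hf1, hsum⟩ := block_sum hℓ hM hOB hf
    rw [← hsum]
    apply mul_dvd_mul_left
    have h3 : res M (H75.push p (clsum (FF M) ⊤ x)) ψ = labF M χ x := by
      rw [res_push hsurj hχ he h1 hf hef hψ hf1 (isCl_clsum x), H75.res_clsum x]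
    have hxu : ∀ u ∈ p.ker, (∃ w : G, w * x * w⁻¹ = x * u) → u = 1 := by
      intro u hu hw
      obtain ⟨w, hw⟩ := hw
      by_contra hu1
      rw [push_zero hF hkp hkc hu hu1 hw, H75.res_zero] at h3
      exact hlab h3.symm
    rw [push_clsum hsurj hxu, H75.res_clsum (p x)] at h3
    have hlab' : red M (omega (MonoidHom.id _) ψ (p x)) ≠ 0 := by
      have h4 : labF M ψ (p x) ≠ 0 := by
        rw [h3]
        exact hlab
      exact h4
    apply mn1 ℓ M hM _ hOB ψ hψ (p x) hlab' n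
    -- the Sylow subgroup of the centraliser in the quotient
    have hq : Function.Surjective (p.subgroupMap R) := p.subgroupMap_surjective R
    have hρker : (p.subgroupMap R).ker ≤ ρ.ker := by
      intro r hr
      rw [MonoidHom.mem_ker] at hr ⊢
      apply hρ
      have h4 : p (r : G) = 1 := congrArg Subtype.val hr
      rw [← hker]
      exact MonoidHom.mem_ker.2 h4
    obtain ⟨ρ', hρ'⟩ : ∃ ρ' : (R.map p) →* A, ∀ r : R, ρ' (p.subgroupMap R r) = ρ r := by
      refine ⟨(p.subgroupMap R).liftOfSurjective hq ⟨ρ, hρker⟩, fun r => ?_⟩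
      exact (p.subgroupMap R).liftOfRightInverse_comp_apply _ _ ⟨ρ, hρker⟩ r
    have hk' : (p x) ^ k ∈ R.map p := by
      rw [← map_pow]
      exact Subgroup.mem_map_of_mem p hk
    have h5 : ρ' ⟨(p x) ^ k, hk'⟩ = ρ ⟨x ^ k, hk⟩ := by
      rw [← hρ']
      congr 1
    have hcm := cent_map hsurj hxu
    have h6 := (dvr ℓ (G ⧸ opCore ℓ G) A (R.map p) (p x) ρ' (hR.map p) ?_ ?_ k hk').1
    · rw [h5, hn'] at h6
      exact h6
    · rw [hcm]
      exact Subgroup.map_mono hRC
    · rw [hcm]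
      intro hd
      apply hRS
      have h7 : (R.map p).relIndex ((Subgroup.centralizer ({x} : Set G)).map p) =
          ((R.map p).comap p).relIndex (Subgroup.centralizer ({x} : Set G)) :=
        (Subgroup.relIndex_comap _ _ _).symm
      rw [h7] at hd
      refine hd.trans ?_
      apply Subgroup.relIndex_dvd_of_le_left
      exact Subgroup.le_comap_map p R
  obtain ⟨s, hs⟩ := main
  rw [hs] at heq
  have hcard : (Nat.card G : ℤ) = Nat.card (opCore ℓ G) * Nat.card (G ⧸ opCore ℓ G) := by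
    rw [Subgroup.card_eq_card_quotient_mul_card_subgroup (opCore ℓ G)]
    push_cast
    ring
  rw [hker] at heq
  have hne : (Nat.card G : ℤ) ≠ 0 := by exact_mod_cast (Nat.card_pos (α := G)).ne'
  have hfin : altSum ℓ M χ = (Nat.card (opCore ℓ G) : ℤ) * (((ℓ ^ n : ℕ) : ℤ) * s) := by
    apply mul_left_cancel₀ hne
    rw [heq]
    rw [hcard]
    ring
  rw [hfin, hn']
  push_cast
  exact ⟨s, by ring⟩

end main

end Pool.Agent.PP.ML.H9
end
end -- Pool.Agent.Helper9_ML.MN2
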