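import Pool.Agent.Helper12_AWB.B047
import Pool.Agent.Helper12_AWB.B048
import Pool.Agent.Helper12_AWB.B154
import Pool.Agent.Helper66_D2.Stmts
import Pool.Agent.Helper66_PP.Pos1

/-!
# Merged copies (generated) of the modules

* `Pool.Agent.Helper36_PP.Spl`
* `Pool.Agent.Helper66_D1.Tool`
* `Pool.Agent.Helper66_D2.Tool`
* `Pool.Agent.Helper66_D1.Lft`
* `Pool.Agent.Helper66_D2.Cld`
-/

set_option autoImplicit false

section -- Pool.Agent.Helper36_PP.Spl

/-!
SPL: homomorphisms between representations with a common simple constituent of the fixed points.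
-/

open scoped BigOperators

set_option linter.unusedSectionVars false

noncomputable section

namespace Pool.Agent.PP.H36

open Pool.Agent.Helper51_AWC Pool.Agent.Helper79_WRA Pool.Agent.PP

variable {F : Type} [Field F]

/-- `(t - 1)^(q - 1) = 1 + t + ... + t^(q-1)` in characteristic `ℓ` -/
theorem pow_geom (ℓ : ℕ) [Fact ℓ.Prime] [CharP F ℓ] (a : ℕ) :
    ((Polynomial.X - 1 : Polynomial F)) ^ (ℓ ^ a - 1) =
      ∑ i ∈ Finset.range (ℓ ^ a), (Polynomial.X : Polynomial F) ^ i := by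
  have hne : (Polynomial.X - 1 : Polynomial F) ≠ 0 := by
    have := Polynomial.X_sub_C_ne_zero (1 : F)
    simpa using this
  apply mul_right_cancel₀ hne
  have h1 : ℓ ^ a - 1 + 1 = ℓ ^ a :=
    Nat.sub_add_cancel (Nat.one_le_iff_ne_zero.mpr (pow_ne_zero _ (Fact.out : ℓ.Prime).ne_zero))
  have : CharP (Polynomial F) ℓ := inferInstance
  rw [← pow_succ, h1, geom_sum_mul, sub_pow_char_pow, one_pow]

section core

variable {ℓ : ℕ} [Fact ℓ.Prime] {K : Type} [Group K] [Finite K] {P : Subgroup K}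
  {V V' : Type} [AddCommGroup V] [Module F V] [AddCommGroup V'] [Module F V']

theorem nrm_eq [CharP F ℓ] (hP : IsPGroup ℓ P) (y : K) (hy : Subgroup.zpowers y = P)
    (ρ : Representation F K V) :
    (∑ᶠ p : P, ρ p) = (ρ y - 1) ^ (Nat.card P - 1) := by
  classical
  subst hy
  obtain ⟨a, ha⟩ := (IsPGroup.iff_card.mp hP)
  have hq : orderOf y = ℓ ^ a := by rw [← Nat.card_zpowers, ha]
  have h := congrArg (Polynomial.aeval (ρ y)) (pow_geom (F := F) ℓ a)
  rw [map_pow, map_sub, Polynomial.aeval_X, map_one, map_sum] at h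
  rw [ha, h]
  have := Fintype.ofFinite (Subgroup.zpowers y)
  rw [finsum_eq_sum_of_fintype]
  simp only [map_pow, Polynomial.aeval_X]
  rw [← hq]
  symm
  rw [← Fin.sum_univ_eq_sum_range (fun i => ρ y ^ i)]
  apply Fintype.sum_equiv (finEquivZPowers (isOfFinOrder_of_finite y))
  intro i
  rw [finEquivZPowers_apply, map_pow]

/-- the powers of `y - 1` and conjugation -/
theorem range_stable (y n : K) (a : ℕ) (h : n * y * n⁻¹ = y ^ a) (ρ : Representation F K V)
    (k : ℕ) (v : V) (hv : v ∈ LinearMap.range ((ρ y - 1) ^ k)) :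
    ρ n v ∈ LinearMap.range ((ρ y - 1) ^ k) := by
  obtain ⟨u, rfl⟩ := hv
  have e1 : ρ n * (ρ y - 1) = (ρ y - 1) * (∑ i ∈ Finset.range a, ρ y ^ i) * ρ n := by
    have e2 : (ρ y - 1) * (∑ i ∈ Finset.range a, ρ y ^ i) = ρ y ^ a - 1 := by
      rw [mul_geom_sum]
    rw [e2, mul_sub, sub_mul, mul_one, one_mul, ← map_mul, ← map_pow, ← map_mul, ← h]
    simp [mul_assoc]
  have hc : Commute (ρ y - 1) (∑ i ∈ Finset.range a, ρ y ^ i) := by
    apply Commute.sum_right
    intro i _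
    exact ((Commute.refl (ρ y)).sub_left (Commute.one_left _)).pow_right i
  have e3 : ∀ k : ℕ, ρ n * (ρ y - 1) ^ k =
      (ρ y - 1) ^ k * ((∑ i ∈ Finset.range a, ρ y ^ i) ^ k * ρ n) := by
    intro k
    induction k with
    | zero => simp
    | succ k ih =>
      have h1 : (∑ i ∈ Finset.range a, ρ y ^ i) ^ k * (ρ y - 1) =
          (ρ y - 1) * (∑ i ∈ Finset.range a, ρ y ^ i) ^ k := ((hc.pow_right k).eq).symm
      calc ρ n * (ρ y - 1) ^ (k + 1) = ρ n * (ρ y - 1) ^ k * (ρ y - 1) := by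
            rw [pow_succ, mul_assoc]
        _ = (ρ y - 1) ^ k * (∑ i ∈ Finset.range a, ρ y ^ i) ^ k * (ρ n * (ρ y - 1)) := by
            rw [ih]; simp only [mul_assoc]
        _ = (ρ y - 1) ^ k * ((∑ i ∈ Finset.range a, ρ y ^ i) ^ k * (ρ y - 1)) *
            (∑ i ∈ Finset.range a, ρ y ^ i) * ρ n := by
            rw [e1]; simp only [mul_assoc]
        _ = (ρ y - 1) ^ (k + 1) * ((∑ i ∈ Finset.range a, ρ y ^ i) ^ (k + 1) * ρ n) := by
            rw [h1, pow_succ, pow_succ]; simp only [mul_assoc]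
  exact ⟨((∑ i ∈ Finset.range a, ρ y ^ i) ^ k * ρ n) u, by
    have := LinearMap.congr_fun (e3 k) u
    exact this.symm⟩

/-- an invariant subspace of an irreducible representation -/
theorem irr_sub {m : ℕ} {κ : K →* Matrix (Fin m) (Fin m) F} (hκ : IsIrr κ)
    (U : Submodule F (Fin m → F)) (hU : ∀ n : K, ∀ w ∈ U, (κ n).mulVec w ∈ U) (hne : U ≠ ⊥) :
    U = ⊤ := by
  classical
  obtain ⟨u, hu, hu0⟩ := Submodule.exists_mem_ne_zero_of_ne_bot hne
  have hall : ∀ A : Matrix (Fin m) (Fin m) F, A.mulVec u ∈ U := by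
    intro A
    have hA : A ∈ Submodule.span F (Set.range κ) := by
      rw [hκ.2]
      exact Submodule.mem_top
    induction hA using Submodule.span_induction with
    | mem x hx =>
      obtain ⟨n, rfl⟩ := hx
      exact hU n u hu
    | zero => rw [Matrix.zero_mulVec]; exact U.zero_mem
    | add x z _ _ hx hz => rw [Matrix.add_mulVec]; exact U.add_mem hx hz
    | smul c x _ hx => rw [Matrix.smul_mulVec]; exact U.smul_mem c hx
  rw [eq_top_iff]
  intro w _
  obtain ⟨j, hj⟩ := Function.ne_iff.mp hu0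
  have hj' : u j ≠ 0 := hj
  have := hall (fun i k => if k = j then w i * (u j)⁻¹ else 0)
  have e : Matrix.mulVec (fun i k => if k = j then w i * (u j)⁻¹ else 0) u = w := by
    funext i
    simp only [Matrix.mulVec, dotProduct, ite_mul, zero_mul, Finset.sum_ite_eq', Finset.mem_univ,
      if_true]
    rw [mul_assoc, inv_mul_cancel₀ hj', mul_one]
  rwa [e] at this

/-- the level of a simple constituent of the fixed points -/
theorem lev [P.Normal] (y : K) (hy : Subgroup.zpowers y = P) (ρ : Representation F K V)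
    {m : ℕ} {κ : K →* Matrix (Fin m) (Fin m) F} (hκ : IsIrr κ) (ι : (Fin m → F) →ₗ[F] V)
    (hι : ∀ (n : K) (w : Fin m → F), ι ((κ n).mulVec w) = ρ n (ι w)) (q : ℕ)
    (hnt : ∃ w, ι w ∉ LinearMap.range ((ρ y - 1) ^ q)) :
    ∃ s : ℕ, LinearMap.range ι ≤ LinearMap.range ((ρ y - 1) ^ s) ∧
      ∀ w, ι w ∈ LinearMap.range ((ρ y - 1) ^ (s + 1)) → w = 0 := by
  classical
  have hex : ∃ k : ℕ, ∃ w, ι w ∉ LinearMap.range ((ρ y - 1) ^ k) := ⟨q, hnt⟩
  obtain ⟨s, hs⟩ : ∃ s, Nat.find hex = s + 1 := by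
    apply Nat.exists_eq_succ_of_ne_zero
    intro h0
    obtain ⟨w, hw⟩ := Nat.find_spec hex
    rw [h0, pow_zero] at hw
    exact hw ⟨ι w, rfl⟩
  refine ⟨s, ?_, ?_⟩
  · rintro _ ⟨w, rfl⟩
    by_contra hc
    exact Nat.find_min hex (m := s) (by rw [hs]; exact Nat.lt_succ_self s) ⟨w, hc⟩
  · by_contra hc
    push Not at hc
    obtain ⟨w, hw, hw0⟩ := hc
    have htop := irr_sub hκ ((LinearMap.range ((ρ y - 1) ^ (s + 1))).comap ι) (by
      intro n u hu
      rw [Submodule.mem_comap] at hu ⊢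
      rw [hι]
      have hn : n * y * n⁻¹ ∈ P := (inferInstance : P.Normal).conj_mem y
        (hy ▸ Subgroup.mem_zpowers y) n
      rw [← hy] at hn
      obtain ⟨a, ha⟩ := (isOfFinOrder_of_finite y).mem_powers_iff_mem_zpowers.mpr hn
      exact range_stable y n a ha.symm ρ (s + 1) _ hu) (by
      intro hbot
      have : w ∈ (LinearMap.range ((ρ y - 1) ^ (s + 1))).comap ι := hw
      rw [hbot] at this
      exact hw0 ((Submodule.mem_bot F).mp this))
    obtain ⟨u, hu⟩ := Nat.find_spec hex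
    rw [hs] at hu
    have : u ∈ (LinearMap.range ((ρ y - 1) ^ (s + 1))).comap ι := by
      rw [htop]; exact Submodule.mem_top
    exact hu this

/-- the homomorphism before averaging -/
theorem pre (D : V →ₗ[F] V) (D' : V' →ₗ[F] V') {m : ℕ} (ι : (Fin m → F) →ₗ[F] V)
    (ι' : (Fin m → F) →ₗ[F] V') (s : ℕ)
    (hD : ∀ w, D (ι w) = 0) (hD' : ∀ w, D' (ι' w) = 0)
    (h1 : ∀ w, ι w ∈ LinearMap.range (D ^ (s + 1)) → w = 0)
    (h2 : LinearMap.range ι' ≤ LinearMap.range (D' ^ s)) :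
    ∃ g : V →ₗ[F] V', D' ∘ₗ g = g ∘ₗ D ∧ (∀ w, g (ι w) = ι' w) ∧
      ∀ v, D v = 0 → g v ∈ LinearMap.range ι' := by
  obtain ⟨ψ, hψ⟩ := LinearMap.exists_leftInverse_of_injective
    ((LinearMap.range (D ^ (s + 1))).mkQ ∘ₗ ι) (by
      rw [LinearMap.ker_eq_bot']
      intro w hw
      rw [LinearMap.comp_apply, Submodule.mkQ_apply, Submodule.Quotient.mk_eq_zero] at hw
      exact h1 w hw)
  let φ : V →ₗ[F] (Fin m → F) := ψ ∘ₗ (LinearMap.range (D ^ (s + 1))).mkQ
  have hφι : ∀ w, φ (ι w) = w := fun w => LinearMap.congr_fun hψ w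
  have hφD : φ ∘ₗ (D ^ (s + 1)) = 0 := by
    apply LinearMap.ext
    intro v
    show ψ ((LinearMap.range (D ^ (s + 1))).mkQ ((D ^ (s + 1)) v)) = 0
    have h3 : (D ^ (s + 1)) v ∈ LinearMap.range (D ^ (s + 1)) := ⟨v, rfl⟩
    rw [Submodule.mkQ_apply, (Submodule.Quotient.mk_eq_zero _).mpr h3, map_zero]
  obtain ⟨τ, hτ⟩ := Module.projective_lifting_property (D' ^ s).rangeRestrict
    (LinearMap.codRestrict (LinearMap.range (D' ^ s)) ι' (fun w => h2 ⟨w, rfl⟩))
    (LinearMap.surjective_rangeRestrict _)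
  have hτ' : ∀ w, (D' ^ s) (τ w) = ι' w := fun w =>
    congrArg Subtype.val (LinearMap.congr_fun hτ w)
  have hτD : (D' ^ (s + 1)) ∘ₗ τ = 0 := by
    ext w
    show (D' ^ (s + 1)) (τ (Pi.single w 1)) = _
    rw [pow_succ']
    show D' ((D' ^ s) (τ _)) = _
    rw [hτ', hD']
    rfl
  let f : ℕ → (V →ₗ[F] V') := fun i => (D' ^ i) ∘ₗ τ ∘ₗ φ ∘ₗ (D ^ (s + 1 - i))
  let g : V →ₗ[F] V' := ∑ i ∈ Finset.range (s + 1), (D' ^ i) ∘ₗ τ ∘ₗ φ ∘ₗ (D ^ (s - i))
  have hg1 : D' ∘ₗ g = ∑ i ∈ Finset.range (s + 1), f (i + 1) := by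
    show D' ∘ₗ (∑ i ∈ Finset.range (s + 1), (D' ^ i) ∘ₗ τ ∘ₗ φ ∘ₗ (D ^ (s - i))) = _
    ext v
    simp only [LinearMap.comp_apply, LinearMap.sum_apply, map_sum, f]
    apply Finset.sum_congr rfl
    intro i _
    rw [pow_succ', Nat.succ_sub_succ]
    rfl
  have hg2 : g ∘ₗ D = ∑ i ∈ Finset.range (s + 1), f i := by
    show (∑ i ∈ Finset.range (s + 1), (D' ^ i) ∘ₗ τ ∘ₗ φ ∘ₗ (D ^ (s - i))) ∘ₗ D = _
    ext v
    simp only [LinearMap.comp_apply, LinearMap.sum_apply, f]
    apply Finset.sum_congr rfl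
    intro i hi
    rw [Nat.succ_sub (Nat.lt_succ_iff.mp (Finset.mem_range.mp hi)), pow_succ]
    rfl
  have hfix : ∀ v, D v = 0 → g v = ι' (φ v) := by
    intro v hv
    show (∑ i ∈ Finset.range (s + 1), (D' ^ i) ∘ₗ τ ∘ₗ φ ∘ₗ (D ^ (s - i))) v = _
    rw [LinearMap.sum_apply, Finset.sum_eq_single s]
    · rw [Nat.sub_self, pow_zero]
      show (D' ^ s) (τ (φ v)) = _
      rw [hτ']
    · intro i hi his
      have : i < s := lt_of_le_of_ne (Nat.lt_succ_iff.mp (Finset.mem_range.mp hi)) his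
      obtain ⟨j, hj⟩ : ∃ j, s - i = j + 1 :=
        Nat.exists_eq_succ_of_ne_zero (Nat.sub_ne_zero_of_lt this)
      rw [hj, pow_succ]
      show (D' ^ i) (τ (φ ((D ^ j) (D v)))) = 0
      rw [hv, map_zero, map_zero, map_zero, map_zero]
    · intro h
      exact absurd (Finset.self_mem_range_succ s) h
  refine ⟨g, ?_, ?_, ?_⟩
  · rw [hg1, hg2, Finset.sum_range_succ, Finset.sum_range_succ' f]
    have e1 : f (s + 1) = 0 := by
      show (D' ^ (s + 1)) ∘ₗ τ ∘ₗ φ ∘ₗ (D ^ (s + 1 - (s + 1))) = 0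
      rw [← LinearMap.comp_assoc, hτD, LinearMap.zero_comp]
    have e2 : f 0 = 0 := by
      show (D' ^ 0) ∘ₗ τ ∘ₗ φ ∘ₗ (D ^ (s + 1 - 0)) = 0
      rw [Nat.sub_zero, hφD, LinearMap.comp_zero, LinearMap.comp_zero]
    rw [e1, e2]
  · intro w
    rw [hfix _ (hD w), hφι]
  · intro v hv
    rw [hfix v hv]
    exact ⟨_, rfl⟩

/-- averaging -/
theorem core [CharP F ℓ] [P.Normal] (hPi : ¬ ℓ ∣ P.index) (y : K) (hy : Subgroup.zpowers y = P)
    (ρ : Representation F K V) (ρ' : Representation F K V')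
    {m : ℕ} {κ : K →* Matrix (Fin m) (Fin m) F} (hκP : ∀ x ∈ P, κ x = 1)
    (ι : (Fin m → F) →ₗ[F] V) (ι' : (Fin m → F) →ₗ[F] V')
    (hι : ∀ (n : K) (w : Fin m → F), ι ((κ n).mulVec w) = ρ n (ι w))
    (hι' : ∀ (n : K) (w : Fin m → F), ι' ((κ n).mulVec w) = ρ' n (ι' w)) (s : ℕ)
    (h1 : ∀ w, ι w ∈ LinearMap.range ((ρ y - 1) ^ (s + 1)) → w = 0)
    (h2 : LinearMap.range ι' ≤ LinearMap.range ((ρ' y - 1) ^ s)) :
    ∃ g : V →ₗ[F] V', (∀ n v, g (ρ n v) = ρ' n (g v)) ∧ (∀ w, g (ι w) = ι' w) ∧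
      ∀ v, (∀ x ∈ P, ρ x v = v) → g v ∈ LinearMap.range ι' := by
  classical
  have hyP : y ∈ P := hy ▸ Subgroup.mem_zpowers y
  obtain ⟨g₀, hg1, hg2, hg3⟩ := pre (ρ y - 1) (ρ' y - 1) ι ι' s (by
      intro w
      rw [LinearMap.sub_apply, Module.End.one_apply, ← hι, hκP y hyP, Matrix.one_mulVec, sub_self])
    (by
      intro w
      rw [LinearMap.sub_apply, Module.End.one_apply, ← hι', hκP y hyP, Matrix.one_mulVec, sub_self])
    h1 h2
  have hgy : ρ' y ∘ₗ g₀ = g₀ ∘ₗ ρ y := by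
    rw [LinearMap.sub_comp, LinearMap.comp_sub] at hg1
    have e1 : (1 : V' →ₗ[F] V') ∘ₗ g₀ = g₀ := LinearMap.id_comp g₀
    have e2 : g₀ ∘ₗ (1 : V →ₗ[F] V) = g₀ := LinearMap.comp_id g₀
    rw [e1, e2] at hg1
    exact sub_left_injective hg1
  -- the elements of `P`
  have hgP : ∀ x ∈ P, ρ' x ∘ₗ g₀ = g₀ ∘ₗ ρ x := by
    intro x hx
    rw [← hy] at hx
    obtain ⟨j, rfl⟩ := (isOfFinOrder_of_finite y).mem_powers_iff_mem_zpowers.mpr hx
    show ρ' (y ^ j) ∘ₗ g₀ = g₀ ∘ₗ ρ (y ^ j)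
    induction j with
    | zero => rw [pow_zero, map_one, map_one]; rfl
    | succ j ih =>
      have ih' := ih (Subgroup.pow_mem _ (Subgroup.mem_zpowers y) j)
      rw [pow_succ, map_mul, map_mul]
      show ρ' (y ^ j) ∘ₗ (ρ' y ∘ₗ g₀) = (g₀ ∘ₗ ρ (y ^ j)) ∘ₗ ρ y
      rw [hgy, ← ih']
      rfl
  let A : K → (V →ₗ[F] V') := fun k => ρ' k ∘ₗ g₀ ∘ₗ ρ k⁻¹
  have hA : ∀ k, ∀ x ∈ P, A (k * x) = A k := by
    intro k x hx
    show ρ' (k * x) ∘ₗ g₀ ∘ₗ ρ (k * x)⁻¹ = ρ' k ∘ₗ g₀ ∘ₗ ρ k⁻¹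
    rw [mul_inv_rev, map_mul, map_mul]
    have e1 : (ρ' k * ρ' x) ∘ₗ g₀ ∘ₗ (ρ x⁻¹ * ρ k⁻¹) =
        ρ' k ∘ₗ ((ρ' x ∘ₗ g₀) ∘ₗ ρ x⁻¹) ∘ₗ ρ k⁻¹ := rfl
    have e2 : (ρ' x ∘ₗ g₀) ∘ₗ ρ x⁻¹ = g₀ := by
      rw [hgP x hx]
      have : (g₀ ∘ₗ ρ x) ∘ₗ ρ x⁻¹ = g₀ ∘ₗ (ρ x * ρ x⁻¹) := rfl
      rw [this, ← map_mul, mul_inv_cancel, map_one]
      rfl
    rw [e1, e2]
  have hfin := Fintype.ofFinite (K ⧸ P)
  let B : V →ₗ[F] V' := ∑ c : K ⧸ P, A c.out
  have hB : ∀ n v, B (ρ n v) = ρ' n (B v) := by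
    intro n v
    have e1 : ∀ c : K ⧸ P, A (n • c).out = A (n * c.out) := by
      intro c
      obtain ⟨x, hx⟩ := QuotientGroup.mk_out_eq_mul P (n * c.out)
      have e3 : (n • c) = ((n * c.out : K) : K ⧸ P) := by
        conv_lhs => rw [← QuotientGroup.out_eq' c]
        rfl
      rw [e3, hx, hA _ _ x.2]
    show (∑ c : K ⧸ P, A c.out) (ρ n v) = ρ' n ((∑ c : K ⧸ P, A c.out) v)
    rw [LinearMap.sum_apply, LinearMap.sum_apply, map_sum,
      ← Equiv.sum_comp (MulAction.toPerm n) (fun c : K ⧸ P => (A c.out) (ρ n v))]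
    apply Finset.sum_congr rfl
    intro c _
    show (A (n • c).out) (ρ n v) = _
    rw [e1]
    show ρ' (n * c.out) (g₀ (ρ (n * c.out)⁻¹ (ρ n v))) = ρ' n (ρ' c.out (g₀ (ρ (c.out)⁻¹ v)))
    have e4 : ρ (n * c.out)⁻¹ (ρ n v) = ρ (c.out)⁻¹ v := by
      rw [← Module.End.mul_apply, ← map_mul, mul_inv_rev, inv_mul_cancel_right]
    rw [e4, map_mul]
    rfl
  have hBι : ∀ w, B (ι w) = (P.index : F) • ι' w := by
    intro w
    show (∑ c : K ⧸ P, A c.out) (ι w) = _
    rw [LinearMap.sum_apply]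
    have e1 : ∀ c : K ⧸ P, (A c.out) (ι w) = ι' w := by
      intro c
      show ρ' c.out (g₀ (ρ (c.out)⁻¹ (ι w))) = ι' w
      rw [← hι, hg2, ← hι', Matrix.mulVec_mulVec, ← map_mul, mul_inv_cancel, map_one,
        Matrix.one_mulVec]
    rw [Finset.sum_congr rfl (fun c _ => e1 c), Finset.sum_const, Finset.card_univ,
      ← Nat.card_eq_fintype_card, Nat.cast_smul_eq_nsmul]
    rfl
  have hBfix : ∀ v, (∀ x ∈ P, ρ x v = v) → B v ∈ LinearMap.range ι' := by
    intro v hv
    show (∑ c : K ⧸ P, A c.out) v ∈ _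
    rw [LinearMap.sum_apply]
    apply Submodule.sum_mem
    intro c _
    obtain ⟨w, hw⟩ := hg3 (ρ (c.out)⁻¹ v) (by
      rw [LinearMap.sub_apply, Module.End.one_apply, sub_eq_zero]
      have e1 : c.out * y * (c.out)⁻¹ ∈ P := (inferInstance : P.Normal).conj_mem y hyP c.out
      calc ρ y (ρ (c.out)⁻¹ v) = ρ (c.out)⁻¹ (ρ (c.out * y * (c.out)⁻¹) v) := by
            rw [← Module.End.mul_apply, ← Module.End.mul_apply, ← map_mul, ← map_mul]
            congr 2
            group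
        _ = ρ (c.out)⁻¹ v := by rw [hv _ e1])
    refine ⟨(κ c.out).mulVec w, ?_⟩
    rw [hι', hw]
    rfl
  have hidx : (P.index : F) ≠ 0 := by
    rw [Ne, CharP.cast_eq_zero_iff F ℓ]
    exact hPi
  refine ⟨(P.index : F)⁻¹ • B, ?_, ?_, ?_⟩
  · intro n v
    rw [LinearMap.smul_apply, LinearMap.smul_apply, hB, map_smul]
  · intro w
    rw [LinearMap.smul_apply, hBι, smul_smul, inv_mul_cancel₀ hidx, one_smul]
  · intro v hv
    rw [LinearMap.smul_apply]
    exact Submodule.smul_mem _ _ (hBfix v hv)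

end core

theorem spl : SplStmt := by
  intro ℓ _ F _ hF G _ _ P N hP hcyc hPN hNn hidx V V' _ _ _ _ _ _ ρ ρ' m κ ι ι' hκ he he'
  have hch : CharP F ℓ := hF.char
  classical
  -- the subgroup `P` of `N`
  have hPn : (P.subgroupOf N).Normal := by
    constructor
    intro x hx n
    rw [Subgroup.mem_subgroupOf] at hx ⊢
    have := (Subgroup.mem_normalizer_iff.mp (hNn n.2) x).mp hx
    exact this
  have hP' : IsPGroup ℓ (P.subgroupOf N) := by
    intro x
    obtain ⟨k, hk⟩ := hP ⟨((x : N) : G), Subgroup.mem_subgroupOf.mp x.2⟩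
    refine ⟨k, ?_⟩
    apply Subtype.ext
    apply Subtype.ext
    have h3 : (((x : N) : G)) ^ ℓ ^ k = 1 := congrArg Subtype.val hk
    exact h3
  have hidx' : ¬ ℓ ∣ (P.subgroupOf N).index := hidx
  -- the generator
  obtain ⟨y, hy⟩ := hcyc.exists_generator
  let y' : N := ⟨y, hPN y.2⟩
  have hy' : Subgroup.zpowers y' = P.subgroupOf N := by
    ext x
    rw [Subgroup.mem_zpowers_iff, Subgroup.mem_subgroupOf]
    constructor
    · rintro ⟨k, rfl⟩
      exact P.zpow_mem y.2 k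
    · intro hx
      obtain ⟨k, hk⟩ := Subgroup.mem_zpowers_iff.mp (hy ⟨x, hx⟩)
      refine ⟨k, ?_⟩
      apply Subtype.ext
      have h3 : (y : G) ^ k = x := congrArg Subtype.val hk
      exact h3
  have hκP : ∀ x ∈ P.subgroupOf N, κ x = 1 := fun x hx =>
    Pool.Agent.PP.H20.nls_triv hF.prime hF.char (P.subgroupOf N) hPn hP' κ hκ x hx
  -- the norm
  have hnrm : ∀ (U : Type) [AddCommGroup U] [Module F U] (σ : Representation F G U),
      nrmV σ P = LinearMap.range (((σ.comp N.subtype) y' - 1) ^ (Nat.card (P.subgroupOf N) - 1)) := by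
    intro U _ _ σ
    rw [← nrm_eq hP' y' hy' (σ.comp N.subtype)]
    unfold nrmV
    congr 1
    exact (finsum_comp_equiv (Subgroup.subgroupOfEquivOfLe hPN).toEquiv
      (f := fun p : P => σ p)).symm
  obtain ⟨s, hs1, hs2⟩ := lev y' hy' (ρ.comp N.subtype) hκ ι he.int
    (Nat.card (P.subgroupOf N) - 1) (by rw [← hnrm]; exact he.nt)
  obtain ⟨s', hs1', hs2'⟩ := lev y' hy' (ρ'.comp N.subtype) hκ ι' he'.int
    (Nat.card (P.subgroupOf N) - 1) (by rw [← hnrm]; exact he'.nt)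
  have hmono : ∀ (U : Type) [AddCommGroup U] [Module F U] (D : U →ₗ[F] U) (a b : ℕ), a ≤ b →
      LinearMap.range (D ^ b) ≤ LinearMap.range (D ^ a) := by
    intro U _ _ D a b hab
    rintro _ ⟨u, rfl⟩
    obtain ⟨c, rfl⟩ := Nat.exists_eq_add_of_le hab
    exact ⟨(D ^ c) u, by rw [pow_add]; rfl⟩
  rcases le_total s s' with h | h
  · left
    obtain ⟨g, hg1, hg2, hg3⟩ := core hidx' y' hy' (ρ.comp N.subtype) (ρ'.comp N.subtype) hκP ι ι'
      he.int he'.int s hs2 (hs1'.trans (hmono _ _ _ _ h))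
    refine ⟨g, ?_, hg2, ?_⟩
    · intro n hn v
      exact hg1 ⟨n, hn⟩ v
    · intro v hv
      exact hg3 v (fun x hx => hv x (Subgroup.mem_subgroupOf.mp hx))
  · right
    obtain ⟨g, hg1, hg2, hg3⟩ := core hidx' y' hy' (ρ'.comp N.subtype) (ρ.comp N.subtype) hκP ι' ι
      he'.int he.int s' hs2' (hs1.trans (hmono _ _ _ _ h))
    refine ⟨g, ?_, hg2, ?_⟩
    · intro n hn v
      exact hg1 ⟨n, hn⟩ v
    · intro v hv
      exact hg3 v (fun x hx => hv x (Subgroup.mem_subgroupOf.mp hx))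

end Pool.Agent.PP.H36
end
end -- Pool.Agent.Helper36_PP.Spl

section -- Pool.Agent.Helper66_D1.Tool

/-!
# Part D1: tools for the actions of elements of the group ring
-/

open scoped BigOperators

set_option linter.unusedSectionVars false

noncomputable section

namespace Pool.Agent.PP.D66

open Pool.Agent.PP Pool.Agent.Helper51_AWC Pool.Agent.Helper79_WRA

variable {F : Type} [Field F] {G : Type} [Group G] [Finite G] {V V' : Type} [AddCommGroup V]
  [Module F V] [AddCommGroup V'] [Module F V']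

theorem evV_apply [Fintype G] (ρ : Representation F G V) (a : G → F) (v : V) :
    evV ρ a v = ∑ g : G, a g • ρ g v := by
  unfold evV
  rw [finsum_eq_sum_of_fintype, LinearMap.sum_apply]
  rfl

theorem trW_apply [Fintype G] (c : G → F) (ρ : Representation F G V) (ρ' : Representation F G V')
    (φ : V →ₗ[F] V') (v : V) : trW c ρ ρ' φ v = ∑ g : G, c g • ρ' g (φ (ρ g⁻¹ v)) := by
  unfold trW
  rw [finsum_eq_sum_of_fintype, LinearMap.sum_apply]
  rfl

/-- the relative trace of an element of the group ring -/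
theorem evV_tr (ρ : Representation F G V) {a c z : G → F}
    (h : ∀ y, a y = ∑ᶠ g : G, c g * z (g⁻¹ * y * g)) : evV ρ a = trW c ρ ρ (evV ρ z) := by
  have := Fintype.ofFinite G
  apply LinearMap.ext
  intro v
  rw [evV_apply, trW_apply]
  have h1 : ∀ g : G, c g • ρ g (evV ρ z (ρ g⁻¹ v)) =
      ∑ y : G, (c g * z (g⁻¹ * y * g)) • ρ y v := by
    intro g
    rw [evV_apply, map_sum, Finset.smul_sum]
    refine Fintype.sum_equiv (MulAut.conj g).toEquiv _ _ fun y => ?_
    have h2 : g⁻¹ * ((MulAut.conj g).toEquiv y) * g = y := by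
      change g⁻¹ * (g * y * g⁻¹) * g = y
      group
    have h3 : ρ ((MulAut.conj g).toEquiv y) v = ρ g (ρ y (ρ g⁻¹ v)) := by
      change ρ (g * y * g⁻¹) v = _
      rw [map_mul, map_mul]
      rfl
    rw [h2, h3, map_smul, smul_smul]
  rw [Finset.sum_congr rfl fun g _ => h1 g, Finset.sum_comm]
  refine Finset.sum_congr rfl fun y _ => ?_
  rw [h, finsum_eq_sum_of_fintype, Finset.sum_smul]

/-- the action of an element of the group ring preserves stable subspaces -/
theorem evV_mem {N : Subgroup G} {ρ : Representation F G V} {W : Submodule F V} (hW : Stb N ρ W)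
    {a : G → F} (ha : ∀ x, x ∉ N → a x = 0) {v : V} (hv : v ∈ W) : evV ρ a v ∈ W := by
  have := Fintype.ofFinite G
  rw [evV_apply]
  refine Submodule.sum_mem _ fun g _ => ?_
  by_cases hg : g ∈ N
  · exact W.smul_mem _ (hW g hg v hv)
  · rw [ha g hg, zero_smul]
    exact zero_mem _

theorem fix_stb {P : Subgroup G} (ρ : Representation F G V) {g : G}
    (hg : g ∈ Subgroup.normalizer (P : Set G)) {v : V} (hv : v ∈ fixV ρ P) : ρ g v ∈ fixV ρ P := by
  intro p hp
  have h1 : g⁻¹ * p * g ∈ P := by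
    have := (Subgroup.mem_normalizer_iff.1 (inv_mem hg) p).1 hp
    rwa [inv_inv] at this
  have h2 : p * g = g * (g⁻¹ * p * g) := by group
  rw [← Module.End.mul_apply, ← map_mul, h2, map_mul, Module.End.mul_apply, hv _ h1]

theorem stb_fix {P N : Subgroup G} (ρ : Representation F G V)
    (hN : N ≤ Subgroup.normalizer (P : Set G)) : Stb N ρ (fixV ρ P) :=
  fun _ hn _ hv => fix_stb ρ (hN hn) hv

theorem stb_nrm {P N : Subgroup G} (ρ : Representation F G V)
    (hN : N ≤ Subgroup.normalizer (P : Set G)) : Stb N ρ (nrmV ρ P) :=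
  fun _ hn _ hv => CY66.nrm_stable ρ (hN hn) hv

/-- the norm is contained in the fixed points -/
theorem nrm_le_fix (ρ : Representation F G V) (P : Subgroup G) : nrmV ρ P ≤ fixV ρ P := by
  have := Fintype.ofFinite P
  rintro _ ⟨w, rfl⟩ p hp
  rw [finsum_eq_sum_of_fintype, LinearMap.sum_apply, map_sum]
  refine Fintype.sum_equiv (Equiv.mulLeft (⟨p, hp⟩ : P)) _ _ fun q => ?_
  change ρ p (ρ q w) = ρ (p * q) w
  rw [map_mul]
  rfl

/-- the support of `br P b` -/
theorem br_supp {N P : Subgroup G} {b : G → F} (hb : ∀ x, x ∉ N → b x = 0) :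
    ∀ x, x ∉ N ⊓ Subgroup.normalizer (P : Set G) → br P b x = 0 := by
  classical
  intro x hx
  unfold br
  split_ifs with h
  · apply hb
    intro hN
    apply hx
    refine ⟨hN, Subgroup.mem_normalizer_iff.2 ?_⟩
    intro y
    constructor
    · intro hy
      have h1 := Subgroup.mem_centralizer_iff.1 h y hy
      rw [← h1, mul_inv_cancel_right]
      exact hy
    · intro hy
      have h1 := Subgroup.mem_centralizer_iff.1 h _ hy
      have h2 : x * y * x⁻¹ = y := by
        have h3 : x * y = x * (x * y * x⁻¹) := by rw [← h1]; group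
        exact (mul_left_cancel h3).symm
      rwa [h2] at hy
  · rfl

/-- `br_P b` acts as the identity on the fixed points modulo the norm -/
theorem br_fix (hebv : EbvStmt) {ℓ : ℕ} [Fact ℓ.Prime] {N P : Subgroup G} {b : G → F}
    (hD : D1S ℓ N P b) (ρ : Representation F G V) (hb : ∀ v, evV ρ b v = v) {v : V}
    (hv : v ∈ fixV ρ P) : v - evV ρ (br P b) v ∈ nrmV ρ P := by
  have h1 := hebv ℓ F G P hD.card V ρ b (fun p _ x => hD.idem.1 x p) v hv
  rwa [hb] at h1

/-- `br_P b` acts as the identity on stable subspaces of the fixed points which meet the norm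
trivially -/
theorem br_T (hebv : EbvStmt) {ℓ : ℕ} [Fact ℓ.Prime] {N P : Subgroup G} {b : G → F}
    (hD : D1S ℓ N P b) (ρ : Representation F G V) (hb : ∀ v, evV ρ b v = v) {T : Submodule F V}
    (hT : T ≤ fixV ρ P) (hTn : T ⊓ nrmV ρ P = ⊥)
    (hTs : Stb (N ⊓ Subgroup.normalizer (P : Set G)) ρ T) {v : V} (hv : v ∈ T) :
    evV ρ (br P b) v = v := by
  have h1 := br_fix hebv hD ρ hb (hT hv)
  have h2 : evV ρ (br P b) v ∈ T := evV_mem hTs (br_supp hD.supp) hv
  have h3 : v - evV ρ (br P b) v ∈ T ⊓ nrmV ρ P := ⟨sub_mem hv h2, h1⟩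
  rw [hTn, Submodule.mem_bot, sub_eq_zero] at h3
  exact h3.symm

/-- a generator of the group `P` of prime order -/
theorem gen {ℓ : ℕ} [Fact ℓ.Prime] {P : Subgroup G} (hP : Nat.card P = ℓ) :
    ∃ y : G, Subgroup.zpowers y = P := by
  have hc : IsCyclic P := isCyclic_of_prime_card hP
  obtain ⟨y, hy⟩ := hc.exists_generator
  refine ⟨y, ?_⟩
  apply le_antisymm
  · rw [Subgroup.zpowers_le]
    exact y.2
  · intro x hx
    obtain ⟨k, hk⟩ := Subgroup.mem_zpowers_iff.1 (hy ⟨x, hx⟩)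
    rw [Subgroup.mem_zpowers_iff]
    refine ⟨k, ?_⟩
    have := congrArg Subtype.val hk
    simpa using this

theorem isP {ℓ : ℕ} [Fact ℓ.Prime] {P : Subgroup G} (hP : Nat.card P = ℓ) : IsPGroup ℓ P :=
  IsPGroup.of_card (n := 1) (by rw [hP, pow_one])

/-- the fixed points are the kernel of `y - 1` -/
theorem mem_fix {P : Subgroup G} {y : G} (hy : Subgroup.zpowers y = P) (ρ : Representation F G V)
    {v : V} : v ∈ fixV ρ P ↔ (ρ y - 1) v = 0 := by
  rw [LinearMap.sub_apply, sub_eq_zero]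
  constructor
  · intro h
    exact h y (hy ▸ Subgroup.mem_zpowers y)
  · intro h p hp
    rw [← hy, ← mem_powers_iff_mem_zpowers] at hp
    obtain ⟨n, rfl⟩ := hp
    change ρ (y ^ n) v = v
    rw [map_pow]
    induction n with
    | zero => rfl
    | succ n ih => rw [pow_succ, Module.End.mul_apply, h]; exact ih

end Pool.Agent.PP.D66
end
end -- Pool.Agent.Helper66_D1.Tool

section -- Pool.Agent.Helper66_D2.Tool

/-!
# Part D2: calculus of functions and of their actions
-/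

open scoped BigOperators

set_option linter.unusedSectionVars false

noncomputable section

namespace Pool.Agent.PP.CD2.H66

open Pool.Agent.PP Pool.Agent.Helper51_AWC Pool.Agent.Helper79_WRA Pool.Agent.PP.H20

variable {F : Type} [Field F] {G : Type} [Group G] [Finite G] {V V' : Type} [AddCommGroup V]
  [Module F V] [AddCommGroup V'] [Module F V']

/-! ## The group algebra -/

theorem toMA_sum {m : ℕ} (a : Fin m → G → F) : toMA (∑ k, a k) = ∑ k, toMA (a k) :=
  map_sum (maE (F := F) (H := G)) a Finset.univ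

theorem toMA_sum' {ι : Type} (s : Finset ι) (a : ι → G → F) :
    toMA (∑ k ∈ s, a k) = ∑ k ∈ s, toMA (a k) :=
  map_sum (maE (F := F) (H := G)) a s

theorem pwF_zero (w a : G → F) : pwF w 0 a = a := rfl

theorem pwF_succ (w a : G → F) (s : ℕ) : pwF w (s + 1) a = mulF w (pwF w s a) :=
  Function.iterate_succ_apply' _ _ _

theorem pwR_zero (w a : G → F) : pwR w 0 a = a := rfl

theorem pwR_succ (w a : G → F) (s : ℕ) : pwR w (s + 1) a = mulF (pwR w s a) w :=
  Function.iterate_succ_apply' _ _ _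

theorem toMA_pwF (w a : G → F) (s : ℕ) : toMA (pwF w s a) = toMA w ^ s * toMA a := by
  induction s with
  | zero => rw [pwF_zero, pow_zero, one_mul]
  | succ s ih => rw [pwF_succ, toMA_mulF, ih, pow_succ', mul_assoc]

theorem toMA_pwR (w a : G → F) (s : ℕ) : toMA (pwR w s a) = toMA a * toMA w ^ s := by
  induction s with
  | zero => rw [pwR_zero, pow_zero, mul_one]
  | succ s ih => rw [pwR_succ, toMA_mulF, ih, pow_succ, mul_assoc]

theorem pwF_add (w a : G → F) (s t : ℕ) : pwF w (s + t) a = pwF w s (pwF w t a) := by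
  apply toMA_injective
  rw [toMA_pwF, toMA_pwF, toMA_pwF, pow_add, mul_assoc]

/-- conjugates -/
theorem toMA_conj (x : G) (a : G → F) : toMA (fun g => a (x⁻¹ * g * x)) =
    MonoidAlgebra.single x (1 : F) * toMA a * MonoidAlgebra.single x⁻¹ (1 : F) := by
  rw [single_mul_toMA, toMA_mul_single]
  congr 1
  funext g
  rw [inv_inv, mul_assoc]

theorem single_mul_single_inv (x : G) :
    (MonoidAlgebra.single x (1 : F) : MonoidAlgebra F G) * MonoidAlgebra.single x⁻¹ (1 : F) = 1 := by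
  rw [MonoidAlgebra.single_mul_single, mul_inv_cancel, mul_one]
  rfl

theorem single_inv_mul_single (x : G) :
    (MonoidAlgebra.single x⁻¹ (1 : F) : MonoidAlgebra F G) * MonoidAlgebra.single x (1 : F) = 1 := by
  rw [MonoidAlgebra.single_mul_single, inv_mul_cancel, mul_one]
  rfl

/-- conjugation is multiplicative -/
theorem conj_mulF (x : G) (a c : G → F) : (fun g => mulF a c (x⁻¹ * g * x)) =
    mulF (fun g => a (x⁻¹ * g * x)) (fun g => c (x⁻¹ * g * x)) := by
  apply toMA_injective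
  rw [toMA_conj, toMA_mulF, toMA_mulF, toMA_conj, toMA_conj]
  have h : (MonoidAlgebra.single x (1 : F) * toMA a * MonoidAlgebra.single x⁻¹ (1 : F)) *
      (MonoidAlgebra.single x (1 : F) * toMA c * MonoidAlgebra.single x⁻¹ (1 : F)) =
      MonoidAlgebra.single x (1 : F) * toMA a * ((MonoidAlgebra.single x⁻¹ (1 : F) *
      MonoidAlgebra.single x (1 : F)) * (toMA c * MonoidAlgebra.single x⁻¹ (1 : F))) := by
    simp only [mul_assoc]
  rw [h, single_inv_mul_single, one_mul]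
  simp only [mul_assoc]

/-! ## Supports, commuting elements -/

theorem _root_.Pool.Agent.PP.CD2.SpF.zero (C : Subgroup G) : SpF C (0 : G → F) := fun _ _ => rfl

theorem _root_.Pool.Agent.PP.CD2.SpF.add {C : Subgroup G} {a c : G → F} (ha : SpF C a) (hc : SpF C c) : SpF C (a + c) := by
  intro x hx
  rw [Pi.add_apply, ha x hx, hc x hx, add_zero]

theorem _root_.Pool.Agent.PP.CD2.SpF.sub {C : Subgroup G} {a c : G → F} (ha : SpF C a) (hc : SpF C c) : SpF C (a - c) := by
  intro x hx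
  rw [Pi.sub_apply, ha x hx, hc x hx, sub_zero]

theorem _root_.Pool.Agent.PP.CD2.SpF.smul {C : Subgroup G} {a : G → F} (α : F) (ha : SpF C a) : SpF C (α • a) := by
  intro x hx
  rw [Pi.smul_apply, ha x hx, smul_zero]

theorem _root_.Pool.Agent.PP.CD2.SpF.sum {C : Subgroup G} {ι : Type} {s : Finset ι} {a : ι → G → F}
    (ha : ∀ k ∈ s, SpF C (a k)) : SpF C (∑ k ∈ s, a k) := by
  intro x hx
  rw [Finset.sum_apply]
  exact Finset.sum_eq_zero fun k hk => ha k hk x hx

theorem _root_.Pool.Agent.PP.CD2.SpF.mul {C : Subgroup G} {a c : G → F} (ha : SpF C a) (hc : SpF C c) :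
    SpF C (mulF a c) := by
  intro x hx
  have := Fintype.ofFinite G
  unfold mulF
  rw [finsum_eq_sum_of_fintype]
  refine Finset.sum_eq_zero fun t _ => ?_
  by_cases ht : t ∈ C
  · rw [hc, mul_zero]
    intro h
    apply hx
    have := mul_mem ht h
    rwa [mul_inv_cancel_left] at this
  · rw [ha t ht, zero_mul]

theorem _root_.Pool.Agent.PP.CD2.SpF.pwF {C : Subgroup G} {w a : G → F} (hw : SpF C w) (ha : SpF C a) (s : ℕ) :
    SpF C (pwF w s a) := by
  induction s with
  | zero => exact ha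
  | succ s ih =>
    rw [pwF_succ]
    exact hw.mul ih

theorem _root_.Pool.Agent.PP.CD2.SpF.mono {C D : Subgroup G} (h : C ≤ D) {a : G → F} (ha : SpF C a) : SpF D a :=
  fun x hx => ha x fun hc => hx (h hc)

theorem cmF_iff {C : Subgroup G} {a : G → F} : CmF C a ↔ ∀ c ∈ C,
    MonoidAlgebra.single c (1 : F) * toMA a = toMA a * MonoidAlgebra.single c (1 : F) := by
  constructor
  · intro h c hc
    rw [single_mul_toMA, toMA_mul_single]
    congr 1
    funext y
    have := h c hc (c⁻¹ * y)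
    rw [mul_inv_cancel_left] at this
    exact this.symm
  · intro h c hc x
    have h1 := h c hc
    rw [single_mul_toMA, toMA_mul_single] at h1
    have h2 := congrFun (toMA_injective h1) (c * x)
    simp only [inv_mul_cancel_left] at h2
    exact h2.symm

theorem _root_.Pool.Agent.PP.CD2.CmF.zero (C : Subgroup G) : CmF C (0 : G → F) := fun _ _ _ => rfl

theorem _root_.Pool.Agent.PP.CD2.CmF.add {C : Subgroup G} {a c : G → F} (ha : CmF C a) (hc : CmF C c) : CmF C (a + c) := by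
  intro x hx y
  rw [Pi.add_apply, Pi.add_apply, ha x hx, hc x hx]

theorem _root_.Pool.Agent.PP.CD2.CmF.sub {C : Subgroup G} {a c : G → F} (ha : CmF C a) (hc : CmF C c) : CmF C (a - c) := by
  intro x hx y
  rw [Pi.sub_apply, Pi.sub_apply, ha x hx, hc x hx]

theorem _root_.Pool.Agent.PP.CD2.CmF.smul {C : Subgroup G} {a : G → F} (α : F) (ha : CmF C a) : CmF C (α • a) := by
  intro x hx y
  rw [Pi.smul_apply, Pi.smul_apply, ha x hx]

theorem _root_.Pool.Agent.PP.CD2.CmF.sum {C : Subgroup G} {ι : Type} {s : Finset ι} {a : ι → G → F}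
    (ha : ∀ k ∈ s, CmF C (a k)) : CmF C (∑ k ∈ s, a k) := by
  intro x hx y
  rw [Finset.sum_apply, Finset.sum_apply]
  exact Finset.sum_congr rfl fun k hk => ha k hk x hx y

theorem _root_.Pool.Agent.PP.CD2.CmF.mul {C : Subgroup G} {a c : G → F} (ha : CmF C a) (hc : CmF C c) :
    CmF C (mulF a c) := by
  rw [cmF_iff] at ha hc ⊢
  intro x hx
  rw [toMA_mulF, ← mul_assoc, ha x hx, mul_assoc, hc x hx, mul_assoc]

theorem _root_.Pool.Agent.PP.CD2.CmF.pwF {C : Subgroup G} {w a : G → F} (hw : CmF C w) (ha : CmF C a) (s : ℕ) :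
    CmF C (pwF w s a) := by
  induction s with
  | zero => exact ha
  | succ s ih =>
    rw [pwF_succ]
    exact hw.mul ih

theorem _root_.Pool.Agent.PP.CD2.CmF.mono {C D : Subgroup G} (h : C ≤ D) {a : G → F} (ha : CmF D a) : CmF C a :=
  fun c hc => ha c (h hc)

theorem toMA_mem_span {C : Subgroup G} {a : G → F} (ha : SpF C a) :
    toMA a ∈ Submodule.span F ((fun g : G => MonoidAlgebra.single g (1 : F)) '' (C : Set G)) := by
  have := Fintype.ofFinite G
  rw [toMA_eq]
  refine Submodule.sum_mem _ fun g _ => ?_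
  by_cases hg : g ∈ C
  · have h : (MonoidAlgebra.single g (a g) : MonoidAlgebra F G) =
        a g • MonoidAlgebra.single g (1 : F) := by
      rw [MonoidAlgebra.smul_single, smul_eq_mul, mul_one]
    rw [h]
    exact Submodule.smul_mem _ _ (Submodule.subset_span ⟨g, hg, rfl⟩)
  · rw [ha g hg, MonoidAlgebra.single_zero]
    exact zero_mem _

theorem comm_of {C : Subgroup G} {a c : G → F} (ha : CmF C a) (hc : SpF C c) :
    toMA a * toMA c = toMA c * toMA a := by
  have key : ∀ z ∈ Submodule.span F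
      ((fun g : G => MonoidAlgebra.single g (1 : F)) '' (C : Set G)),
      toMA a * z = z * toMA a := by
    intro z hz
    induction hz using Submodule.span_induction with
    | mem x hx =>
      obtain ⟨g, hg, rfl⟩ := hx
      exact (cmF_iff.1 ha g hg).symm
    | zero => rw [mul_zero, zero_mul]
    | add x y _ _ hx hy => rw [mul_add, add_mul, hx, hy]
    | smul r x _ hx => rw [mul_smul_comm, smul_mul_assoc, hx]
  exact key _ (toMA_mem_span hc)

/-- elements commuting with `C` commute with the elements supported on `C` -/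
theorem cm_comm {C : Subgroup G} {a c : G → F} (ha : CmF C a) (hc : SpF C c) :
    mulF a c = mulF c a := by
  apply toMA_injective
  rw [toMA_mulF, toMA_mulF, comm_of ha hc]

theorem cmF_of_cl {a : G → F} (ha : IsCl a) (C : Subgroup G) : CmF C a := fun c _ x => ha x c

/-- the Brauer map of an element commuting with the normaliser -/
theorem bY_cm {y : G} {b : G → F} {H : Subgroup G} (hb : CmF H b) : CmF (H ⊓ NY y) (bY y b) := by
  classical
  intro c hc x
  have h : c * x * c⁻¹ ∈ Subgroup.centralizer (Subgroup.zpowers y : Set G) ↔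
      x ∈ Subgroup.centralizer (Subgroup.zpowers y : Set G) := by
    have key : ∀ g : G, g ∈ NY y → ∀ x : G,
        x ∈ Subgroup.centralizer (Subgroup.zpowers y : Set G) →
        g * x * g⁻¹ ∈ Subgroup.centralizer (Subgroup.zpowers y : Set G) := by
      intro g hg x hx
      rw [Subgroup.mem_centralizer_iff] at hx ⊢
      intro z hz
      have h1 : g⁻¹ * z * g ∈ Subgroup.zpowers y := by
        have := (Subgroup.mem_normalizer_iff.1 (inv_mem hg) z).1 hz
        rwa [inv_inv] at this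
      have h2 := hx _ h1
      calc z * (g * x * g⁻¹) = g * ((g⁻¹ * z * g) * x) * g⁻¹ := by group
        _ = g * (x * (g⁻¹ * z * g)) * g⁻¹ := by rw [h2]
        _ = g * x * g⁻¹ * z := by group
    constructor
    · intro h
      have := key c⁻¹ (inv_mem hc.2) _ h
      have e : c⁻¹ * (c * x * c⁻¹) * c⁻¹⁻¹ = x := by group
      rwa [e] at this
    · exact key c hc.2 x
  unfold bY br
  by_cases hx : x ∈ Subgroup.centralizer (Subgroup.zpowers y : Set G)
  · rw [if_pos hx, if_pos (h.2 hx)]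
    exact hb c hc.1 x
  · rw [if_neg hx, if_neg fun h' => hx (h.1 h')]

theorem bY_sp {y : G} {b : G → F} {N : Subgroup G} (hb : SpF N b) : SpF (N ⊓ CY y) (bY y b) := by
  classical
  intro x hx
  unfold bY br
  by_cases hc : x ∈ Subgroup.centralizer (Subgroup.zpowers y : Set G)
  · rw [if_pos hc]
    exact hb x fun hn => hx ⟨hn, hc⟩
  · rw [if_neg hc]

theorem bY_mulF {ℓ : ℕ} (hF : GoodF ℓ F) {y : G} (hy : IsPGroup ℓ (Subgroup.zpowers y))
    {a c : G → F} (ha : CmF (Subgroup.zpowers y) a) (hc : CmF (Subgroup.zpowers y) c) :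
    bY y (mulF a c) = mulF (bY y a) (bY y c) :=
  _root_.Pool.Agent.PP.H66.br_mulF hF hy (fun p hp x => ha p hp x) (fun p hp x => hc p hp x)

theorem CY_le_NY (y : G) : CY y ≤ NY y := by
  intro c hc
  refine Subgroup.mem_normalizer_iff.2 fun z => ?_
  have hc' := Subgroup.mem_centralizer_iff.1 hc
  constructor
  · intro hz
    have := hc' z hz
    rw [← this, mul_assoc, mul_inv_cancel, mul_one]
    exact hz
  · intro hz
    have h1 := hc' _ hz
    have h2 : c * z * c⁻¹ * c = c * (c * z * c⁻¹) := h1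
    have h3 : c * z = c * (c * z * c⁻¹) := by
      rw [← h2]
      group
    rw [mul_left_cancel h3]
    exact hz

/-! ## Actions -/

theorem evV_add (ρ : Representation F G V) (a c : G → F) :
    evV ρ (a + c) = evV ρ a + evV ρ c := by
  have := Fintype.ofFinite G
  ext v
  rw [D66.evV_apply, LinearMap.add_apply, D66.evV_apply, D66.evV_apply, ← Finset.sum_add_distrib]
  exact Finset.sum_congr rfl fun g _ => by rw [Pi.add_apply, add_smul]

theorem evV_smul (ρ : Representation F G V) (α : F) (a : G → F) :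
    evV ρ (α • a) = α • evV ρ a := by
  have := Fintype.ofFinite G
  ext v
  rw [D66.evV_apply, LinearMap.smul_apply, D66.evV_apply, Finset.smul_sum]
  exact Finset.sum_congr rfl fun g _ => by rw [Pi.smul_apply, smul_eq_mul, mul_smul]

/-- `evV` as a linear map -/
def evL (ρ : Representation F G V) : (G → F) →ₗ[F] (V →ₗ[F] V) where
  toFun a := evV ρ a
  map_add' := evV_add ρ
  map_smul' := evV_smul ρ

theorem evV_zero (ρ : Representation F G V) : evV ρ (0 : G → F) = 0 := (evL ρ).map_zero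

theorem evV_sub (ρ : Representation F G V) (a c : G → F) :
    evV ρ (a - c) = evV ρ a - evV ρ c := (evL ρ).map_sub a c

theorem evV_sum {ι : Type} (ρ : Representation F G V) (s : Finset ι) (a : ι → G → F) :
    evV ρ (∑ k ∈ s, a k) = ∑ k ∈ s, evV ρ (a k) := map_sum (evL ρ) a s

theorem evV_mulF_apply (ρ : Representation F G V) (a c : G → F) (v : V) :
    evV ρ (mulF a c) v = evV ρ a (evV ρ c v) := by
  have := Fintype.ofFinite G
  rw [D66.evV_apply, D66.evV_apply]
  have h1 : ∀ t : G, a t • ρ t (evV ρ c v) = ∑ g : G, (a t * c (t⁻¹ * g)) • ρ g v := by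
    intro t
    rw [D66.evV_apply, map_sum, Finset.smul_sum]
    refine Fintype.sum_equiv (Equiv.mulLeft t) _ _ fun g => ?_
    change _ = (a t * c (t⁻¹ * (t * g))) • ρ (t * g) v
    rw [inv_mul_cancel_left, map_smul, smul_smul, map_mul]
    rfl
  rw [Finset.sum_congr rfl fun t _ => h1 t, Finset.sum_comm]
  refine Finset.sum_congr rfl fun g _ => ?_
  rw [mulF, finsum_eq_sum_of_fintype, Finset.sum_smul]

theorem evV_mulF (ρ : Representation F G V) (a c : G → F) :
    evV ρ (mulF a c) = evV ρ a * evV ρ c := by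
  ext v
  exact evV_mulF_apply ρ a c v

theorem evV_pwF (ρ : Representation F G V) (w a : G → F) (s : ℕ) :
    evV ρ (pwF w s a) = (evV ρ w) ^ s * evV ρ a := by
  induction s with
  | zero => rw [pwF_zero, pow_zero, one_mul]
  | succ s ih => rw [pwF_succ, evV_mulF, ih, pow_succ', mul_assoc]

theorem evV_conj (ρ : Representation F G V) (x : G) (a : G → F) (v : V) :
    evV ρ (fun g => a (x⁻¹ * g * x)) (ρ x v) = ρ x (evV ρ a v) := by
  have := Fintype.ofFinite G
  rw [D66.evV_apply, D66.evV_apply, map_sum]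
  symm
  refine Fintype.sum_equiv (MulAut.conj x).toEquiv _ _ fun g => ?_
  change ρ x (a g • ρ g v) = a (x⁻¹ * (x * g * x⁻¹) * x) • ρ (x * g * x⁻¹) (ρ x v)
  have e : x⁻¹ * (x * g * x⁻¹) * x = g := by group
  rw [e, map_smul, ← Module.End.mul_apply, ← Module.End.mul_apply, ← map_mul, ← map_mul]
  congr 3
  group

theorem evV_cm (ρ : Representation F G V) {C : Subgroup G} {a : G → F} (ha : CmF C a) {c : G}
    (hc : c ∈ C) (v : V) : evV ρ a (ρ c v) = ρ c (evV ρ a v) := by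
  rw [← evV_conj ρ c a v]
  congr 2
  funext g
  have := ha c⁻¹ (inv_mem hc) g
  rw [inv_inv] at this
  exact this.symm

theorem evV_shift (ρ : Representation F G V) (x : G) (a : G → F) (v : V) :
    evV ρ (fun g => a (x⁻¹ * g)) v = ρ x (evV ρ a v) := by
  have := Fintype.ofFinite G
  rw [D66.evV_apply, D66.evV_apply, map_sum]
  symm
  refine Fintype.sum_equiv (Equiv.mulLeft x) _ _ fun g => ?_
  change ρ x (a g • ρ g v) = a (x⁻¹ * (x * g)) • ρ (x * g) v
  rw [inv_mul_cancel_left, map_smul, ← Module.End.mul_apply, ← map_mul]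

/-! ## Sums of matrix algebras -/

section ums

variable {C : Subgroup G} {b w : G → F} {q : ℕ}

theorem ums_sb (h : UMS C b w q) : SpF C b := by
  obtain ⟨m, e, i, h1, _, h3, _⟩ := h
  rw [← h3]
  exact SpF.sum fun t _ => (h1 t).sb

theorem ums_cb (h : UMS C b w q) : CmF C b := by
  obtain ⟨m, e, i, h1, _, h3, _⟩ := h
  rw [← h3]
  exact CmF.sum fun t _ => (h1 t).cb

theorem sum_mulF {m : ℕ} (e : Fin m → G → F) (a : G → F) :
    mulF (∑ t, e t) a = ∑ t, mulF (e t) a := by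
  apply toMA_injective
  rw [toMA_mulF, toMA_sum, toMA_sum, Finset.sum_mul]
  exact Finset.sum_congr rfl fun t _ => (toMA_mulF _ _).symm

theorem mulF_sum {m : ℕ} (e : Fin m → G → F) (a : G → F) :
    mulF a (∑ t, e t) = ∑ t, mulF a (e t) := by
  apply toMA_injective
  rw [toMA_mulF, toMA_sum, toMA_sum, Finset.mul_sum]
  exact Finset.sum_congr rfl fun t _ => (toMA_mulF _ _).symm

theorem ums_w (h : UMS C b w q) : mulF b w = w := by
  obtain ⟨m, e, i, _, _, _, h4⟩ := h
  exact h4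

theorem ums_sw (h : UMS C b w q) : SpF C w := by
  obtain ⟨m, e, i, h1, _, h3, h4⟩ := h
  rw [← h4, ← h3, sum_mulF]
  exact SpF.sum fun t _ => (h1 t).sw

theorem ums_cw (h : UMS C b w q) : CmF C w := by
  obtain ⟨m, e, i, h1, _, h3, h4⟩ := h
  rw [← h4, ← h3, sum_mulF]
  exact CmF.sum fun t _ => (h1 t).cw

theorem ums_bb (h : UMS C b w q) : mulF b b = b := by
  obtain ⟨m, e, i, h1, h2, h3, h4⟩ := h
  rw [← h3, sum_mulF]
  refine Finset.sum_congr rfl fun t _ => ?_
  rw [mulF_sum, Finset.sum_eq_single t (fun s _ hs => h2 t s (Ne.symm hs))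
    (fun h => absurd (Finset.mem_univ _) h)]
  exact (h1 t).bb

theorem ums_wb (h : UMS C b w q) : mulF w b = w := by
  rw [← cm_comm (ums_cb h) (ums_sw h)]
  exact ums_w h

/-- `e_t w^s = (e_t w)^s e_t` -/
theorem umf_pw {C : Subgroup G} {e w : G → F} (he : mulF e e = e) (hc : CmF C e) (hw : SpF C w)
    (s : ℕ) : pwF (mulF e w) s e = mulF e (pwF w s e) := by
  have h1 : toMA e * toMA w = toMA w * toMA e := comm_of hc hw
  have h2 : toMA e * toMA e = toMA e := by rw [← toMA_mulF, he]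
  apply toMA_injective
  rw [toMA_pwF, toMA_mulF, toMA_mulF, toMA_pwF]
  induction s with
  | zero => rw [pow_zero, pow_zero, one_mul, h2]
  | succ s ih =>
    have hc' : toMA e * toMA w ^ s = toMA w ^ s * toMA e := Commute.pow_right h1 s
    rw [pow_succ', mul_assoc, ih, pow_succ']
    have e1 : toMA e * toMA w * (toMA e * (toMA w ^ s * toMA e)) =
        toMA e * (toMA w * toMA e) * (toMA w ^ s * toMA e) := by simp only [mul_assoc]
    rw [e1, ← h1, ← mul_assoc (toMA e) (toMA e), h2]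
    simp only [mul_assoc]

theorem ums_nil (h : UMS C b w q) : pwF w q b = 0 := by
  have hsw := ums_sw h
  obtain ⟨m, e, i, h1, h2, h3, h4⟩ := h
  have h5 : ∀ t, pwF w q (e t) = 0 := by
    intro t
    have h6 := (h1 t).nil
    rw [umf_pw (h1 t).bb (h1 t).cb hsw] at h6
    have h7 : toMA (e t) * toMA w ^ q = toMA w ^ q * toMA (e t) :=
      Commute.pow_right (comm_of (h1 t).cb hsw) q
    have h8 : toMA (e t) * toMA (e t) = toMA (e t) := by rw [← toMA_mulF, (h1 t).bb]
    have h9 := congrArg toMA h6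
    rw [toMA_mulF, toMA_pwF, ← mul_assoc, h7, mul_assoc, h8, toMA_zero] at h9
    apply toMA_injective
    rw [toMA_pwF, h9, toMA_zero]
  apply toMA_injective
  rw [toMA_pwF, ← h3, toMA_sum, Finset.mul_sum, toMA_zero]
  refine Finset.sum_eq_zero fun t _ => ?_
  rw [← toMA_pwF, h5, toMA_zero]

/-- `w ^ q = 0` if `0 < q` -/
theorem ums_nil' (h : UMS C b w q) (hq : 0 < q) : toMA w ^ q = 0 := by
  have h1 := congrArg toMA (ums_nil h)
  rw [toMA_pwF, toMA_zero] at h1
  obtain ⟨r, rfl⟩ : ∃ r, q = r + 1 := ⟨q - 1, by omega⟩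
  have h2 : toMA w * toMA b = toMA w := by rw [← toMA_mulF, ums_wb h]
  have h3 : toMA w ^ (r + 1) * toMA b = toMA w ^ (r + 1) := by
    rw [pow_succ, mul_assoc, h2]
  rw [← h3, h1]

theorem umf_ums {i : G → F} (h : UMF C b w i q) : UMS C b w q := by
  refine ⟨1, fun _ => b, fun _ => i, fun _ => ?_, fun t s hts => ?_, ?_, h.bw⟩
  · rw [h.bw]
    exact h
  · exact absurd (Subsingleton.elim t s) hts
  · simp

end ums

end Pool.Agent.PP.CD2.H66
end
end -- Pool.Agent.Helper66_D2.Tool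

section -- Pool.Agent.Helper66_D1.Lft

/-!
# Part D1, module LFT: lifting of a simple submodule
-/

open scoped BigOperators

noncomputable section

namespace Pool.Agent.PP.D66

open Pool.Agent.PP Pool.Agent.Helper51_AWC Pool.Agent.Helper79_WRA

/-- a minimal stable subspace between two stable subspaces -/
theorem exists_min {F : Type} [Field F] {G : Type} [Group G] {V : Type} [AddCommGroup V]
    [Module F V] [FiniteDimensional F V] (N : Subgroup G) (ρ : Representation F G V)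
    {A Y : Submodule F V} (hY : Stb N ρ Y) (h : A < Y) :
    ∃ U : Submodule F V, Stb N ρ U ∧ A < U ∧ U ≤ Y ∧
      ∀ W : Submodule F V, Stb N ρ W → A < W → W ≤ U → W = U := by
  classical
  have hex : ∃ d : ℕ, ∃ U : Submodule F V, Stb N ρ U ∧ A < U ∧ U ≤ Y ∧ Module.finrank F U = d :=
    ⟨_, Y, hY, h, le_rfl, rfl⟩
  obtain ⟨U, h1, h2, h3, h4⟩ := Nat.find_spec hex
  refine ⟨U, h1, h2, h3, fun W hW hAW hWU => ?_⟩
  by_contra hne
  have h5 : Module.finrank F W < Module.finrank F U :=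
    Submodule.finrank_lt_finrank_of_lt (lt_of_le_of_ne hWU hne)
  rw [h4] at h5
  exact Nat.find_min hex h5 ⟨W, hW, hAW, hWU.trans h3, rfl⟩

theorem lft (hebv : EbvStmt) : LftdStmt := by
  intro ℓ _ F _ hF G _ _ N P b hD V _ _ _ ρ hb Y hY hYf hYs
  classical
  have := Fintype.ofFinite G
  obtain ⟨c₁, z₁, hc₁, hz1, hz2, hz3⟩ := hD.prj1
  set N₁ := N ⊓ Subgroup.normalizer (P : Set G) with hN₁
  have hN₁n : N₁ ≤ Subgroup.normalizer (P : Set G) := inf_le_right
  have hPN₁ : P ≤ N₁ := le_inf hD.le Subgroup.le_normalizer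
  obtain ⟨U, hU1, hU2, hU3, hU4⟩ := exists_min N₁ ρ hYs hY
  -- the projection along the norm
  obtain ⟨p₀, hp1, hp2⟩ : ∃ p₀ : V →ₗ[F] V, (∀ v ∈ nrmV ρ P, p₀ v = 0) ∧
      ∀ v, p₀ v - v ∈ nrmV ρ P := by
    obtain ⟨s, hs⟩ := (nrmV ρ P).mkQ.exists_rightInverse_of_surjective (Submodule.range_mkQ _)
    refine ⟨s ∘ₗ (nrmV ρ P).mkQ, fun v hv => ?_, fun v => ?_⟩
    · have h1 : (nrmV ρ P).mkQ v = 0 := (Submodule.Quotient.mk_eq_zero _).2 hv
      rw [LinearMap.comp_apply, h1, map_zero]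
    · rw [← Submodule.Quotient.mk_eq_zero (nrmV ρ P)]
      have h1 := LinearMap.congr_fun hs ((nrmV ρ P).mkQ v)
      rw [LinearMap.comp_apply, LinearMap.id_apply] at h1
      change (nrmV ρ P).mkQ (s ((nrmV ρ P).mkQ v) - v) = 0
      rw [map_sub, h1, sub_self]
  set ζ : V →ₗ[F] V := evV ρ z₁ with hζ
  have hζf : ∀ v ∈ fixV ρ P, ζ v ∈ fixV ρ P := fun v hv => evV_mem (stb_fix ρ hN₁n) hz1 hv
  have hζn : ∀ v ∈ nrmV ρ P, ζ v ∈ nrmV ρ P := fun v hv => evV_mem (stb_nrm ρ hN₁n) hz1 hv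
  have hpf : ∀ v ∈ fixV ρ P, p₀ v ∈ fixV ρ P := by
    intro v hv
    have h1 := add_mem (nrm_le_fix ρ P (hp2 v)) hv
    rwa [sub_add_cancel] at h1
  set s : V →ₗ[F] V := trW c₁ ρ ρ (p₀ ∘ₗ ζ) with hs
  have hs_apply : ∀ v, s v = ∑ g : G, c₁ g • ρ g (p₀ (ζ (ρ g⁻¹ v))) := by
    intro v
    rw [hs, trW_apply]
    rfl
  -- `s` on the norm
  have hsn : ∀ v ∈ nrmV ρ P, s v = 0 := by
    intro v hv
    rw [hs_apply]
    refine Finset.sum_eq_zero fun g _ => ?_
    by_cases hg : g ∈ N₁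
    · rw [hp1 _ (hζn _ (stb_nrm ρ hN₁n _ (inv_mem hg) _ hv)), map_zero, smul_zero]
    · rw [hc₁.supp g hg, zero_smul]
  -- `s` modulo the norm
  have hsm : ∀ v ∈ fixV ρ P, s v - v ∈ nrmV ρ P := by
    intro v hv
    have h1 := br_fix hebv hD ρ hb hv
    rw [evV_tr ρ hz3, trW_apply] at h1
    have h2 : s v - ∑ g : G, c₁ g • ρ g (ζ (ρ g⁻¹ v)) ∈ nrmV ρ P := by
      rw [hs_apply, ← Finset.sum_sub_distrib]
      refine Submodule.sum_mem _ fun g _ => ?_
      by_cases hg : g ∈ N₁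
      · rw [← smul_sub, ← map_sub]
        exact Submodule.smul_mem _ _ (stb_nrm ρ hN₁n g hg _ (hp2 _))
      · rw [hc₁.supp g hg, zero_smul, zero_smul, sub_zero]
        exact zero_mem _
    have h3 := sub_mem h2 h1
    have h4 : s v - ∑ g : G, c₁ g • ρ g (ζ (ρ g⁻¹ v)) -
        (v - ∑ g : G, c₁ g • ρ g (evV ρ z₁ (ρ g⁻¹ v))) = s v - v := by
      rw [hζ]
      abel
    rwa [h4] at h3
  have hsf : ∀ v ∈ fixV ρ P, s v ∈ fixV ρ P := by
    intro v hv
    have h1 := add_mem (nrm_le_fix ρ P (hsm v hv)) hv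
    rwa [sub_add_cancel] at h1
  have hss : ∀ v ∈ fixV ρ P, s (s v) = s v := by
    intro v hv
    have h1 := hsn _ (hsm v hv)
    rwa [map_sub, sub_eq_zero] at h1
  -- `s` commutes with `N₁` on the fixed points
  have hscom : ∀ n ∈ N₁, ∀ v ∈ fixV ρ P, s (ρ n v) = ρ n (s v) := by
    have hst : ∀ n ∈ N₁, ∀ v ∈ fixV ρ P, ρ n v ∈ fixV ρ P := fun n hn v hv =>
      stb_fix ρ hN₁n n hn v hv
    -- weights
    have hw1 : ∀ (h : G → V), (∀ g, g ∉ N₁ → h g = 0) → (∀ g, ∀ p ∈ P, h (g * p) = h g) →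
        ∀ c c' : G → F, IsW N₁ P c → IsW N₁ P c' → ∑ g, c g • h g = ∑ g, c' g • h g := by
      intro h h0 hh c c' hc hc'
      have := Fintype.ofFinite P
      have e1 : ∀ g, c g • h g = ∑ p : P, c g • c' (g * p) • h (g * p) := by
        intro g
        by_cases hg : g ∈ N₁
        · have h2 := hc'.sum g hg
          rw [finsum_eq_sum_of_fintype] at h2
          rw [← Finset.smul_sum]
          congr 1
          rw [Finset.sum_congr rfl fun (p : P) _ => by rw [hh g p p.2], ← Finset.sum_smul, h2,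
            one_smul]
        · rw [hc.supp g hg, zero_smul]
          symm
          exact Finset.sum_eq_zero fun p _ => by rw [zero_smul]
      rw [Finset.sum_congr rfl fun g _ => e1 g, Finset.sum_comm]
      have e2 : ∀ p : P, ∑ g : G, c g • c' (g * p) • h (g * p) =
          ∑ g : G, c (g * (p : G)⁻¹) • c' g • h g := by
        intro p
        refine Fintype.sum_equiv (Equiv.mulRight (p : G)) _ _ fun g => ?_
        change c g • c' (g * p) • h (g * p) = c (g * p * (p : G)⁻¹) • c' (g * p) • h (g * p)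
        rw [mul_inv_cancel_right]
      rw [Finset.sum_congr rfl fun p _ => e2 p, Finset.sum_comm]
      refine Finset.sum_congr rfl fun g _ => ?_
      by_cases hg : g ∈ N₁
      · have h2 := hc.sum g hg
        rw [finsum_eq_sum_of_fintype] at h2
        rw [← Finset.sum_smul]
        have h3 : ∑ p : P, c (g * (p : G)⁻¹) = 1 := by
          rw [← h2]
          exact Fintype.sum_equiv (Equiv.inv P) _ _ fun p => rfl
        rw [h3, one_smul]
      · simp only [h0 g hg, smul_zero, Finset.sum_const_zero]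
    intro n hn v hv
    let h : G → V := fun g => if g ∈ N₁ then ρ g (p₀ (ζ (ρ g⁻¹ (ρ n v)))) else 0
    have hh0 : ∀ g, g ∉ N₁ → h g = 0 := fun g hg => if_neg hg
    have hhp : ∀ g, ∀ p ∈ P, h (g * p) = h g := by
      intro g p hp
      change (if g * p ∈ N₁ then _ else _) = (if g ∈ N₁ then _ else _)
      by_cases hg : g ∈ N₁
      · rw [if_pos hg, if_pos (mul_mem hg (hPN₁ hp))]
        have e1 : ρ g⁻¹ (ρ n v) ∈ fixV ρ P := hst _ (inv_mem hg) _ (hst n hn v hv)
        rw [mul_inv_rev, map_mul, map_mul, Module.End.mul_apply, Module.End.mul_apply,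
          e1 _ (inv_mem hp), hpf _ (hζf _ e1) _ hp]
      · rw [if_neg hg, if_neg]
        intro h1
        exact hg ((Subgroup.mul_mem_cancel_right N₁ (hPN₁ hp)).1 h1)
    have hc2 : IsW N₁ P (fun g => c₁ (n⁻¹ * g)) := by
      refine ⟨fun g hg => hc₁.supp _ fun h1 => hg ?_, fun g hg => ?_⟩
      · have h2 := mul_mem hn h1
        rwa [mul_inv_cancel_left] at h2
      · have h1 := hc₁.sum (n⁻¹ * g) (mul_mem (inv_mem hn) hg)
        rw [← h1]
        refine finsum_congr fun p => ?_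
        change c₁ (n⁻¹ * (g * (p : G))) = c₁ (n⁻¹ * g * p)
        rw [mul_assoc]
    have e1 := hw1 h hh0 hhp c₁ _ hc₁ hc2
    have e2 : s (ρ n v) = ∑ g, c₁ g • h g := by
      rw [hs_apply]
      refine Finset.sum_congr rfl fun g _ => ?_
      by_cases hg : g ∈ N₁
      · change _ = c₁ g • (if g ∈ N₁ then _ else _)
        rw [if_pos hg]
      · rw [hc₁.supp g hg, zero_smul, zero_smul]
    rw [e2, e1, hs_apply, map_sum]
    symm
    refine Fintype.sum_equiv (Equiv.mulLeft n) _ _ fun g => ?_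
    change ρ n (c₁ g • ρ g (p₀ (ζ (ρ g⁻¹ v)))) = c₁ (n⁻¹ * (n * g)) • h (n * g)
    rw [inv_mul_cancel_left, map_smul]
    by_cases hg : g ∈ N₁
    · change _ = c₁ g • (if n * g ∈ N₁ then _ else _)
      rw [if_pos (mul_mem hn hg), mul_inv_rev, ← Module.End.mul_apply (ρ (g⁻¹ * n⁻¹)) (ρ n) v,
        ← map_mul, inv_mul_cancel_right, map_mul ρ n g, Module.End.mul_apply]
    · rw [hc₁.supp g hg, zero_smul, zero_smul]
  -- the submodule
  have hUf : U ≤ fixV ρ P := hU3.trans hYf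
  have hTU : U.map s ≤ U := by
    rintro _ ⟨v, hv, rfl⟩
    have h1 := add_mem (hU2.le (hsm v (hUf hv))) hv
    rwa [sub_add_cancel] at h1
  have hTn : U.map s ⊓ nrmV ρ P = ⊥ := by
    rw [eq_bot_iff]
    rintro _ ⟨⟨v, hv, rfl⟩, h2⟩
    rw [Submodule.mem_bot, ← hss v (hUf hv)]
    exact hsn _ h2
  refine ⟨U.map s, fun h0 => ?_, hTU.trans hU3, hTn, ?_, ?_⟩
  · refine hU2.not_ge fun v hv => ?_
    have h1 : s v ∈ U.map s := ⟨v, hv, rfl⟩
    rw [h0, Submodule.mem_bot] at h1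
    have h2 := hsm v (hUf hv)
    rw [h1, zero_sub] at h2
    exact neg_mem_iff.1 h2
  · rintro n hn _ ⟨v, hv, rfl⟩
    rw [← hscom n hn v (hUf hv)]
    exact ⟨_, hU1 n hn v hv, rfl⟩
  · intro T' hT's hT'
    by_cases h0 : T' = ⊥
    · exact Or.inl h0
    right
    apply le_antisymm hT'
    have h1 : Stb N₁ ρ (nrmV ρ P ⊔ T') := by
      intro n hn v hv
      obtain ⟨a, ha, t, ht, rfl⟩ := Submodule.mem_sup.1 hv
      rw [map_add]
      exact Submodule.add_mem_sup (stb_nrm ρ hN₁n n hn a ha) (hT's n hn t ht)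
    have h2 : nrmV ρ P < nrmV ρ P ⊔ T' := by
      refine lt_of_le_of_ne le_sup_left fun h3 => h0 ?_
      rw [eq_bot_iff, ← hTn]
      exact le_inf hT' (by rw [h3]; exact le_sup_right)
    have h3 := hU4 _ h1 h2 (sup_le hU2.le (hT'.trans hTU))
    rintro _ ⟨v, hv, rfl⟩
    rw [← h3] at hv
    obtain ⟨a, ha, t, ht, rfl⟩ := Submodule.mem_sup.1 hv
    obtain ⟨u, hu, rfl⟩ := hT' ht
    rw [map_add, hsn a ha, zero_add, hss u (hUf hu)]
    exact ht

end Pool.Agent.PP.D66
end
end -- Pool.Agent.Helper66_D1.Lft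

section -- Pool.Agent.Helper66_D2.Cld

/-!
# Part D2, module CLD: existence
-/

open scoped BigOperators

noncomputable section

namespace Pool.Agent.PP.CD2.H66

open Pool.Agent.PP Pool.Agent.Helper51_AWC Pool.Agent.Helper79_WRA Pool.Agent.PP.H20

theorem cld (hcla : ClaStmt) (hclc : ClcStmt) (hcle : CleStmt) : CldStmt := by
  intro ℓ hℓ F _ hF G _ _ N hN b hb hs hblk hdz hQ
  obtain ⟨n, P, y₁, h⟩ := hcla ℓ F hF G N hN b hb hs hblk hdz hQ
  obtain ⟨w, hw, hp⟩ := hclc ℓ F hF G n N P y₁ b h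
  exact ⟨n, P, y₁, w, ⟨h.normal, h.cyc, h.card, h.le, h.mem, h.ord, h.idem, h.supp, h.frat, h.prj,
    h.prj1, h.npj, hw, hp, hcle ℓ F hF G N hN y₁ b w _ hb (pow_pos hℓ.out.pos _) hw⟩, h.brw⟩

end Pool.Agent.PP.CD2.H66
end
end -- Pool.Agent.Helper66_D2.Cld
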