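import Pool.Agent.Helper12_AWB.B155
import Pool.Agent.Helper12_AWB.B160

/-!
# Merged copies (generated) of the modules

* `Pool.Agent.Helper71_D1.Soc`
* `Pool.Agent.Helper91_D1.Rsd`
* `Pool.Agent.Helper91_D1.Fr1`
* `Pool.Agent.Helper4_D2.Rsd`
* `Pool.Agent.Helper52_D2.Fr1`
* `Pool.Agent.Helper2_D1.Key`
* `Pool.Agent.Helper52_D2.Key`
-/

set_option autoImplicit false

section -- Pool.Agent.Helper71_D1.Soc

/-!
# Squad PP, part D1, module SOC: semisimplicity of the restriction to a normal subgroup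
-/

open scoped BigOperators

noncomputable section

namespace Pool.Agent.PP.D1.H71

open Pool.Agent.PP

section gen

variable {F : Type} [Field F] {G : Type} [Group G] {V : Type} [AddCommGroup V] [Module F V]

theorem stb_inf {N : Subgroup G} {ρ : Representation F G V} {W W' : Submodule F V}
    (h : Stb N ρ W) (h' : Stb N ρ W') : Stb N ρ (W ⊓ W') :=
  fun n hn v hv => ⟨h n hn v hv.1, h' n hn v hv.2⟩

theorem stb_sup {N : Subgroup G} {ρ : Representation F G V} {W W' : Submodule F V}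
    (h : Stb N ρ W) (h' : Stb N ρ W') : Stb N ρ (W ⊔ W') := by
  intro n hn v hv
  obtain ⟨a, ha, b, hb, rfl⟩ := Submodule.mem_sup.1 hv
  rw [map_add]
  exact Submodule.add_mem_sup (h n hn a ha) (h' n hn b hb)

theorem stb_bot {N : Subgroup G} {ρ : Representation F G V} : Stb N ρ ⊥ := by
  intro n hn v hv
  rw [Submodule.mem_bot] at hv ⊢
  rw [hv, map_zero]

theorem stb_top {N : Subgroup G} {ρ : Representation F G V} : Stb N ρ ⊤ :=
  fun _ _ _ _ => trivial

/-- A nonzero stable subspace of finite dimension contains a minimal one. -/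
theorem exists_min [FiniteDimensional F V] {N : Subgroup G} {ρ : Representation F G V}
    {W : Submodule F V} (hW : Stb N ρ W) (h0 : W ≠ ⊥) : ∃ S : Submodule F V, S ≤ W ∧ S ≠ ⊥ ∧
      Stb N ρ S ∧ ∀ S' : Submodule F V, Stb N ρ S' → S' ≤ S → S' = ⊥ ∨ S' = S := by
  obtain ⟨S, ⟨hS1, hS2, hS3⟩, hmin⟩ := (wellFounded_lt (α := Submodule F V)).has_min
    {S | S ≤ W ∧ S ≠ ⊥ ∧ Stb N ρ S} ⟨W, le_refl _, h0, hW⟩
  refine ⟨S, hS1, hS2, hS3, fun S' h1 h2 => ?_⟩
  by_contra h3
  push Not at h3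
  exact hmin S' ⟨h2.trans hS1, h3.1, h1⟩ (lt_of_le_of_ne h2 h3.2)

/-- Complements. -/
theorem exists_compl [FiniteDimensional F V] {N : Subgroup G} {ρ : Representation F G V}
    (hρ : NSoc N ρ) {W : Submodule F V} (hW : Stb N ρ W) :
    ∃ C : Submodule F V, Stb N ρ C ∧ IsCompl W C := by
  obtain ⟨C, ⟨hC1, hC2⟩, hmax⟩ := (wellFounded_gt (α := Submodule F V)).has_min
    {C | Stb N ρ C ∧ W ⊓ C = ⊥} ⟨⊥, stb_bot, by rw [inf_bot_eq]⟩
  refine ⟨C, hC1, disjoint_iff.2 hC2, ?_⟩
  rw [codisjoint_iff]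
  by_contra hne
  obtain ⟨S, hS, hmin, hnle⟩ := hρ (W ⊔ C) (stb_sup hW hC1) hne
  have h1 : S ⊓ (W ⊔ C) = ⊥ := by
    rcases hmin _ (stb_inf hS (stb_sup hW hC1)) inf_le_left with h | h
    · exact h
    · exact absurd (inf_eq_left.1 h) hnle
  have h2 : W ⊓ (C ⊔ S) = ⊥ := by
    rw [eq_bot_iff]
    rintro v ⟨hv1, hv2⟩
    obtain ⟨a, ha, b, hb, rfl⟩ := Submodule.mem_sup.1 hv2
    have h3 : b ∈ S ⊓ (W ⊔ C) := by
      refine ⟨hb, ?_⟩
      have h4 : b = (a + b) - a := by abel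
      rw [h4]
      exact Submodule.sub_mem _ (Submodule.mem_sup_left hv1) (Submodule.mem_sup_right ha)
    rw [h1, Submodule.mem_bot] at h3
    rw [h3, add_zero] at hv1 ⊢
    rw [← hC2]
    exact ⟨hv1, ha⟩
  have h3 : ¬ C < C ⊔ S := fun h => hmax (C ⊔ S) ⟨stb_sup hC1 hS, h2⟩ h
  have h4 : S ≤ C := by
    by_contra h
    exact h3 (lt_of_le_of_ne le_sup_left (fun he => h (he ▸ le_sup_right)))
  exact hnle (h4.trans le_sup_right)

/-- The translate of a stable subspace is stable. -/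
theorem stb_map {N : Subgroup G} (hN : N.Normal) {ρ : Representation F G V} (g : G)
    {W : Submodule F V} (h : Stb N ρ W) : Stb N ρ (W.map (ρ g)) := by
  intro n hn v hv
  obtain ⟨w, hw, rfl⟩ := Submodule.mem_map.1 hv
  have h1 : g⁻¹ * n * g ∈ N := by
    have := hN.conj_mem n hn g⁻¹
    rwa [inv_inv] at this
  refine Submodule.mem_map.2 ⟨ρ (g⁻¹ * n * g) w, h _ h1 w hw, ?_⟩
  rw [← Module.End.mul_apply, ← map_mul, ← Module.End.mul_apply, ← map_mul]
  congr 2
  group

theorem map_map_inv (ρ : Representation F G V) (g : G) (W : Submodule F V) :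
    (W.map (ρ g⁻¹)).map (ρ g) = W := by
  ext v
  rw [Submodule.mem_map]
  constructor
  · rintro ⟨w, hw, rfl⟩
    obtain ⟨u, hu, rfl⟩ := Submodule.mem_map.1 hw
    rw [← Module.End.mul_apply, ← map_mul, mul_inv_cancel, map_one]
    exact hu
  · intro hv
    refine ⟨ρ g⁻¹ v, Submodule.mem_map_of_mem hv, ?_⟩
    rw [← Module.End.mul_apply, ← map_mul, mul_inv_cancel, map_one]
    rfl

/-- The translate of a minimal stable subspace is minimal. -/
theorem min_map {N : Subgroup G} (hN : N.Normal) {ρ : Representation F G V} (g : G)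
    {S : Submodule F V} (h : ∀ S' : Submodule F V, Stb N ρ S' → S' ≤ S → S' = ⊥ ∨ S' = S)
    (S' : Submodule F V) (h1 : Stb N ρ S') (h2 : S' ≤ S.map (ρ g)) :
    S' = ⊥ ∨ S' = S.map (ρ g) := by
  have h3 : S'.map (ρ g⁻¹) ≤ S := by
    have h4 : (S.map (ρ g)).map (ρ g⁻¹) = S := by
      have := map_map_inv ρ g⁻¹ S
      rwa [inv_inv] at this
    calc S'.map (ρ g⁻¹) ≤ (S.map (ρ g)).map (ρ g⁻¹) := Submodule.map_mono h2
      _ = S := h4
  rcases h _ (stb_map hN g⁻¹ h1) h3 with h4 | h4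
  · left
    rw [← map_map_inv ρ g S', h4, Submodule.map_bot]
  · right
    rw [← map_map_inv ρ g S', h4]

/-- A nonzero subspace of an irreducible representation which is stable under the group. -/
theorem top_of_stb {n : ℕ} {σ : G →* Matrix (Fin n) (Fin n) F} (hσ : IsIrr σ)
    {W : Submodule F (Fin n → F)} (h : Stb ⊤ (mrep σ) W) (hW : W ≠ ⊥) : W = ⊤ := by
  have h1 : ∀ A : Matrix (Fin n) (Fin n) F, ∀ w ∈ W, A.mulVec w ∈ W := by
    intro A w hw
    have hA : A ∈ Submodule.span F (Set.range σ) := by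
      rw [hσ.2]
      trivial
    induction hA using Submodule.span_induction with
    | mem a ha =>
      obtain ⟨g, rfl⟩ := ha
      exact h g trivial w hw
    | zero =>
      rw [Matrix.zero_mulVec]
      exact Submodule.zero_mem _
    | add a b _ _ h1 h2 =>
      rw [Matrix.add_mulVec]
      exact Submodule.add_mem _ h1 h2
    | smul c a _ h1 =>
      rw [Matrix.smul_mulVec]
      exact Submodule.smul_mem _ _ h1
  obtain ⟨w, hw, hw0⟩ := Submodule.exists_mem_ne_zero_of_ne_bot hW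
  obtain ⟨i, hi⟩ := Function.ne_iff.1 hw0
  rw [eq_top_iff]
  intro v _
  have h2 := h1 (Matrix.vecMulVec v (Pi.single i (w i)⁻¹)) w hw
  have h3 : (Matrix.vecMulVec v (Pi.single i (w i)⁻¹)).mulVec w = v := by
    rw [Matrix.vecMulVec_mulVec]
    have h4 : (Pi.single i (w i)⁻¹ : Fin n → F) ⬝ᵥ w = 1 := by
      rw [single_dotProduct]
      exact inv_mul_cancel₀ hi
    rw [h4]
    simp
  rwa [h3] at h2

/-- The sum of the translates of a subspace is stable under the group. -/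
theorem stb_iSup (ρ : Representation F G V) (S : Submodule F V) :
    Stb ⊤ ρ (⨆ g : G, S.map (ρ g)) := by
  intro g _ v hv
  induction hv using Submodule.iSup_induction' with
  | mem g' w hw =>
    apply Submodule.mem_iSup_of_mem (g * g')
    obtain ⟨u, hu, rfl⟩ := Submodule.mem_map.1 hw
    refine Submodule.mem_map.2 ⟨u, hu, ?_⟩
    rw [map_mul]
    rfl
  | zero =>
    rw [map_zero]
    exact Submodule.zero_mem _
  | add a b _ _ ha hb =>
    rw [map_add]
    exact Submodule.add_mem _ ha hb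

/-- Clifford: the restriction of an irreducible representation to a normal subgroup. -/
theorem nsoc_irr {N : Subgroup G} (hN : N.Normal) {n : ℕ} {σ : G →* Matrix (Fin n) (Fin n) F}
    (hσ : IsIrr σ) : NSoc N (mrep σ) := by
  intro W hW hWt
  have hn : 0 < n := hσ.1
  have hne : (⊤ : Submodule F (Fin n → F)) ≠ ⊥ := by
    have : Nonempty (Fin n) := ⟨⟨0, hn⟩⟩
    exact top_ne_bot
  obtain ⟨S, -, hS0, hS, hmin⟩ := exists_min (N := N) (ρ := mrep σ) stb_top hne
  by_contra hcon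
  push Not at hcon
  have h1 : ∀ g : G, S.map (mrep σ g) ≤ W := fun g =>
    hcon _ (stb_map hN g hS) (min_map hN g hmin)
  apply hWt
  have h2 : (⨆ g : G, S.map (mrep σ g)) = ⊤ := by
    apply top_of_stb hσ (stb_iSup _ S)
    intro h0
    apply hS0
    rw [eq_bot_iff, ← h0]
    intro w hw
    apply Submodule.mem_iSup_of_mem 1
    rw [map_one]
    exact Submodule.mem_map.2 ⟨w, hw, rfl⟩
  rw [eq_top_iff, ← h2]
  exact iSup_le h1

end gen

section prod

variable {F : Type} [Field F] {G : Type} [Group G] {V V' M : Type} [AddCommGroup V] [Module F V]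
  [AddCommGroup V'] [Module F V'] [AddCommGroup M] [Module F M]

/-- The image of a minimal stable subspace under an injective homomorphism. -/
theorem min_emb {N : Subgroup G} {ρ : Representation F G V} {τ : Representation F G M}
    (i : V →ₗ[F] M) (hi : Function.Injective i) (hc : ∀ g ∈ N, ∀ v, i (ρ g v) = τ g (i v))
    {W : Submodule F M} (hW : Stb N τ W) (hρ : NSoc N ρ) (hn : W.comap i ≠ ⊤) :
    ∃ S : Submodule F M, Stb N τ S ∧
      (∀ S' : Submodule F M, Stb N τ S' → S' ≤ S → S' = ⊥ ∨ S' = S) ∧ ¬ S ≤ W := by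
  have h1 : Stb N ρ (W.comap i) := by
    intro g hg v hv
    rw [Submodule.mem_comap] at hv ⊢
    rw [hc g hg]
    exact hW g hg _ hv
  obtain ⟨S, hS, hmin, hnle⟩ := hρ _ h1 hn
  refine ⟨S.map i, ?_, ?_, ?_⟩
  · intro g hg v hv
    obtain ⟨w, hw, rfl⟩ := Submodule.mem_map.1 hv
    rw [← hc g hg]
    exact Submodule.mem_map_of_mem (hS g hg w hw)
  · intro S' h2 h3
    have h4 : (S'.comap i).map i = S' := by
      rw [Submodule.map_comap_eq, inf_eq_right]
      exact h3.trans (LinearMap.map_le_range)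
    have h5 : Stb N ρ (S'.comap i) := by
      intro g hg v hv
      rw [Submodule.mem_comap] at hv ⊢
      rw [hc g hg]
      exact h2 g hg _ hv
    have h6 : S'.comap i ≤ S := by
      intro v hv
      obtain ⟨w, hw, hwv⟩ := Submodule.mem_map.1 (h3 (Submodule.mem_comap.1 hv))
      rwa [← hi hwv]
    rcases hmin _ h5 h6 with h7 | h7
    · left
      rw [← h4, h7, Submodule.map_bot]
    · right
      rw [← h4, h7]
  · intro h2
    apply hnle
    intro v hv
    exact h2 (Submodule.mem_map_of_mem hv)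

theorem nsoc_prod {N : Subgroup G} {ρ : Representation F G V} {ρ' : Representation F G V'}
    (h : NSoc N ρ) (h' : NSoc N ρ') : NSoc N (ρ.prod ρ') := by
  intro W hW hWt
  by_cases h1 : W.comap (LinearMap.inl F V V') = ⊤
  · by_cases h2 : W.comap (LinearMap.inr F V V') = ⊤
    · exfalso
      apply hWt
      rw [eq_top_iff]
      rintro ⟨a, b⟩ _
      have h3 : a ∈ W.comap (LinearMap.inl F V V') := by rw [h1]; trivial
      have h4 : b ∈ W.comap (LinearMap.inr F V V') := by rw [h2]; trivial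
      have h5 : ((a, b) : V × V') = LinearMap.inl F V V' a + LinearMap.inr F V V' b := by simp
      rw [h5]
      exact Submodule.add_mem _ h3 h4
    · refine min_emb (LinearMap.inr F V V') LinearMap.inr_injective ?_ hW h' h2
      intro g _ v
      change ((0 : V), ρ' g v) = ((ρ g) 0, (ρ' g) v)
      rw [map_zero]
  · refine min_emb (LinearMap.inl F V V') LinearMap.inl_injective ?_ hW h h1
    intro g _ v
    change (ρ g v, (0 : V')) = ((ρ g) v, (ρ' g) 0)
    rw [map_zero]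

end prod

/-- SOC -/
theorem soc : SocStmt := by
  intro F _ G _ _ N hN
  refine ⟨fun n σ hσ => nsoc_irr hN hσ, ?_, ?_⟩
  · intro V V' _ _ _ _ ρ ρ' h h'
    exact nsoc_prod h h'
  · intro V _ _ _ ρ hρ W hW
    exact exists_compl hρ hW

end Pool.Agent.PP.D1.H71
end
end -- Pool.Agent.Helper71_D1.Soc

section -- Pool.Agent.Helper91_D1.Rsd

/-!
# Squad PP, part D1, module RSD: restriction to `N`
-/

open scoped BigOperators

noncomputable section

namespace Pool.Agent.PP.D1.H91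

open Pool.Agent.Helper51_AWC Pool.Agent.Helper79_WRA Pool.Agent.PP

variable {F : Type} [Field F] {G : Type} [Group G]

theorem fsum_sub {M : Type*} [AddCommMonoid M] (N : Subgroup G) (f : G → M)
    (hf : ∀ x, x ∉ N → f x = 0) : ∑ᶠ g : G, f g = ∑ᶠ n : N, f n := by
  have h1 : ∑ᶠ n : (N : Set G), f n = ∑ᶠ g ∈ (N : Set G), f g :=
    finsum_set_coe_eq_finsum_mem (N : Set G)
  have h2 : ∑ᶠ g ∈ (N : Set G), f g = ∑ᶠ g : G, f g := by
    rw [finsum_mem_def, Set.indicator_eq_self.2]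
    intro x hx
    by_contra hn
    exact hx (hf x hn)
  exact (h1.trans h2).symm

theorem normalizer_subgroupOf {N P : Subgroup G} (h : P ≤ N) :
    (Subgroup.normalizer (P : Set G)).subgroupOf N =
      Subgroup.normalizer ((P.subgroupOf N : Subgroup N) : Set N) := by
  ext t
  rw [Subgroup.mem_subgroupOf, Subgroup.mem_normalizer_iff, Subgroup.mem_normalizer_iff]
  constructor
  · intro ht x
    exact ht x
  · intro ht x
    constructor
    · intro hx
      exact (ht ⟨x, h hx⟩).1 hx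
    · intro hx
      have hxN : x ∈ N := by
        have h1 := N.mul_mem (N.mul_mem (N.inv_mem t.2) (h hx)) t.2
        have h2 : (t : G)⁻¹ * ((t : G) * x * (t : G)⁻¹) * (t : G) = x := by group
        rwa [h2] at h1
      exact (ht ⟨x, hxN⟩).2 hx

theorem br_restr {N P : Subgroup G} (h : P ≤ N) (b : G → F) :
    br (P.subgroupOf N) (fun t : N => b t) = fun t : N => br P b t := by
  funext t
  have hiff : t ∈ Subgroup.centralizer ((P.subgroupOf N : Subgroup N) : Set N) ↔
      (t : G) ∈ Subgroup.centralizer (P : Set G) := by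
    rw [Subgroup.mem_centralizer_iff, Subgroup.mem_centralizer_iff]
    constructor
    · intro ht p hp
      exact congrArg Subtype.val (ht ⟨p, h hp⟩ hp)
    · intro ht p hp
      exact Subtype.ext (ht p hp)
  unfold br
  by_cases ht : (t : G) ∈ Subgroup.centralizer (P : Set G)
  · rw [if_pos ht, if_pos (hiff.2 ht)]
  · rw [if_neg ht, if_neg (fun h => ht (hiff.1 h))]

theorem prjB_restr {N R P : Subgroup G} (hRN : R ≤ N) (hPR : P ≤ R) (a : G → F)
    (h : PrjB R P a) : PrjB (R.subgroupOf N) (P.subgroupOf N) (fun t : N => a t) := by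
  obtain ⟨c, z, hc, hz, hzp, ha⟩ := h
  refine ⟨fun t => c t, fun t => z t, ⟨?_, ?_⟩, ?_, ?_, ?_⟩
  · intro g hg
    exact hc.supp g (fun h => hg (Subgroup.mem_subgroupOf.2 h))
  · intro g hg
    rw [← hc.sum g hg]
    refine finsum_eq_of_bijective (Subgroup.subgroupOfEquivOfLe (hPR.trans hRN))
      (Subgroup.subgroupOfEquivOfLe (hPR.trans hRN)).bijective ?_
    intro p
    rfl
  · intro x hx
    exact hz x (fun h => hx (Subgroup.mem_subgroupOf.2 h))
  · intro p hp x
    exact hzp p hp x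
  · intro y
    refine (ha y).trans ?_
    rw [fsum_sub N]
    · rfl
    · intro g hg
      rw [hc.supp g (fun h => hg (hRN h)), zero_mul]

/-- RSD -/
theorem rsd : RsdStmt := by
  intro ℓ hℓ F _ G _ _ N P b h
  have hn := normalizer_subgroupOf h.le
  refine ⟨⟨inferInstance, ?_, le_top, ?_, fun x hx => absurd (Subgroup.mem_top x) hx, ?_, ?_, ?_,
    ?_⟩, ?_⟩
  · rw [Nat.card_congr (Subgroup.subgroupOfEquivOfLe h.le).toEquiv]
    exact h.card
  · refine ⟨fun x y => h.idem.1 x y, ?_⟩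
    have h1 : ext0 N (mulF (fun t : N => b t) (fun t : N => b t)) = ext0 N (fun t : N => b t) := by
      rw [H46.ext0_mul, H46.ext0_restr h.supp]
      exact h.idem.2
    have h2 := congrArg (fun g : G → F => fun t : N => g t) h1
    rw [H46.restr_ext0, H46.restr_ext0] at h2
    exact h2
  · rw [top_sup_eq]
  · have h1 := prjB_restr (le_refl N) h.le b h.prj
    rwa [Subgroup.subgroupOf_self] at h1
  · have h1 := prjB_restr (N := N) (inf_le_left) (le_inf h.le Subgroup.le_normalizer) _ h.prj1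
    rw [br_restr h.le]
    have h2 : (N ⊓ Subgroup.normalizer (P : Set G)).subgroupOf N =
        (⊤ : Subgroup N) ⊓ Subgroup.normalizer ((P.subgroupOf N : Subgroup N) : Set N) := by
      rw [top_inf_eq, ← hn]
      ext t
      rw [Subgroup.mem_subgroupOf, Subgroup.mem_subgroupOf, Subgroup.mem_inf]
      exact ⟨fun h => h.2, fun h => ⟨t.2, h⟩⟩
    rwa [h2] at h1
  · intro k τ hτ hb ψ hsum
    refine h.npj k (τ.comp (Subgroup.topEquiv (G := N)).symm.toMonoidHom) ⟨hτ.1, ?_⟩ ?_ ψ ?_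
    · rw [← hτ.2]
      congr 1
      ext M
      constructor
      · rintro ⟨x, rfl⟩
        exact ⟨_, rfl⟩
      · rintro ⟨x, rfl⟩
        exact ⟨(x : N), rfl⟩
    · rw [← hb]
      unfold ev
      refine finsum_eq_of_bijective (Subgroup.topEquiv (G := N)).symm
        (Subgroup.topEquiv (G := N)).symm.bijective ?_
      intro x
      rfl
    · rw [← hsum]
      refine finsum_eq_of_bijective (Subgroup.topEquiv (G := N)).symm
        (Subgroup.topEquiv (G := N)).symm.bijective ?_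
      intro x
      rfl
  · rw [← hn]
    ext x
    rw [Subgroup.mem_subgroupOf]
    constructor
    · rintro ⟨a, rfl⟩
      exact (a : Subgroup.normalizer (P : Set G)).2
    · intro hx
      exact ⟨⟨⟨x, hx⟩, x.2⟩, rfl⟩

end Pool.Agent.PP.D1.H91
end
end -- Pool.Agent.Helper91_D1.Rsd

section -- Pool.Agent.Helper91_D1.Fr1

/-!
# Squad PP, part D1, module FR1: the fixed points are not contained in the image of the norm
-/

open scoped BigOperators

noncomputable section

namespace Pool.Agent.PP.D1.H91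

open Pool.Agent.Helper51_AWC Pool.Agent.Helper79_WRA Pool.Agent.PP

section gen

variable {F : Type} [Field F] {G : Type} [Group G] [Finite G] {V V' : Type} [AddCommGroup V]
  [Module F V] [AddCommGroup V'] [Module F V']

theorem evV_apply [Fintype G] (ρ : Representation F G V) (a : G → F) (v : V) :
    evV ρ a v = ∑ g : G, a g • ρ g v := by
  unfold evV
  rw [finsum_eq_sum_of_fintype, LinearMap.sum_apply]
  rfl

theorem trP_app (ρ : Representation F G V) (ρ' : Representation F G V') (P : Subgroup G)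
    [Fintype P] (φ : V →ₗ[F] V') (v : V) :
    trP ρ ρ' P φ v = ∑ p : P, ρ' p (φ (ρ (p : G)⁻¹ v)) := by
  unfold trP
  rw [finsum_eq_sum_of_fintype, LinearMap.sum_apply]
  rfl

theorem trW_app [Fintype G] (c : G → F) (ρ : Representation F G V) (ρ' : Representation F G V')
    (φ : V →ₗ[F] V') (v : V) : trW c ρ ρ' φ v = ∑ g : G, c g • ρ' g (φ (ρ g⁻¹ v)) := by
  unfold trW
  rw [finsum_eq_sum_of_fintype, LinearMap.sum_apply]
  rfl

theorem nrm_le_fix (ρ : Representation F G V) (P : Subgroup G) : nrmV ρ P ≤ fixV ρ P := by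
  classical
  have := Fintype.ofFinite P
  rintro _ ⟨v, rfl⟩ q hq
  rw [finsum_eq_sum_of_fintype, LinearMap.sum_apply, map_sum]
  refine Finset.sum_bijective (fun p : P => ⟨q, hq⟩ * p) (Group.mulLeft_bijective _) (by simp) ?_
  intro p _
  rw [← Module.End.mul_apply, ← map_mul]
  rfl

/-- The value at a relative trace is the relative trace of the value. -/
theorem evV_prj (ρ : Representation F G V) (b c z : G → F)
    (h : ∀ y, b y = ∑ᶠ g : G, c g * z (g⁻¹ * y * g)) : evV ρ b = trW c ρ ρ (evV ρ z) := by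
  classical
  have := Fintype.ofFinite G
  ext v
  rw [evV_apply, trW_app]
  have h1 : ∀ g : G, evV ρ z (ρ g⁻¹ v) = ∑ y : G, z (g⁻¹ * y * g) • ρ g⁻¹ (ρ y v) := by
    intro g
    rw [evV_apply]
    symm
    refine Finset.sum_bijective (fun y : G => g⁻¹ * y * g) ?_ (by simp) ?_
    · constructor
      · intro a b hab
        exact mul_left_cancel (mul_right_cancel hab)
      · intro a
        exact ⟨g * a * g⁻¹, by group⟩
    · intro y _
      congr 1
      rw [← Module.End.mul_apply, ← map_mul, ← Module.End.mul_apply, ← map_mul]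
      congr 2
      group
  have h2 : ∀ g : G, c g • ρ g (evV ρ z (ρ g⁻¹ v)) =
      ∑ y : G, (c g * z (g⁻¹ * y * g)) • ρ y v := by
    intro g
    rw [h1, map_sum, Finset.smul_sum]
    refine Finset.sum_congr rfl fun y _ => ?_
    rw [map_smul, smul_smul]
    congr 1
    rw [← Module.End.mul_apply, ← map_mul, mul_inv_cancel, map_one]
    rfl
  rw [Finset.sum_congr rfl fun g _ => h2 g, Finset.sum_comm]
  refine Finset.sum_congr rfl fun y _ => ?_
  rw [h y, finsum_eq_sum_of_fintype, Finset.sum_smul]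

theorem evV_comm (ρ : Representation F G V) (P : Subgroup G) (z : G → F)
    (h : ∀ p ∈ P, ∀ x, z (p * x * p⁻¹) = z x) : HomOn P ρ ρ (evV ρ z) := by
  classical
  have := Fintype.ofFinite G
  intro p hp v
  rw [evV_apply, evV_apply, map_sum]
  symm
  refine Finset.sum_bijective (fun y : G => p * y * p⁻¹) ?_ (by simp) ?_
  · constructor
    · intro a b hab
      exact mul_left_cancel (mul_right_cancel hab)
    · intro a
      exact ⟨p⁻¹ * a * p, by group⟩
  · intro y _
    rw [h p hp, map_smul]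
    congr 1
    rw [← Module.End.mul_apply, ← map_mul, ← Module.End.mul_apply, ← map_mul]
    congr 2
    group

theorem trP_comp (ρ : Representation F G V) (P : Subgroup G) (ζ φ : V →ₗ[F] V)
    (h : HomOn P ρ ρ ζ) : trP ρ ρ P (ζ ∘ₗ φ) = ζ ∘ₗ trP ρ ρ P φ := by
  classical
  have := Fintype.ofFinite P
  ext v
  rw [LinearMap.comp_apply, trP_app, trP_app, map_sum]
  refine Finset.sum_congr rfl fun p _ => ?_
  rw [LinearMap.comp_apply, ← h p p.2]

/-- The restriction of a representation to a subspace stable under a subgroup. -/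
def subRep (N : Subgroup G) (ρ : Representation F G V) (S : Submodule F V) (h : Stb N ρ S) :
    Representation F N S where
  toFun n := (ρ n).restrict (h n n.2)
  map_one' := by
    ext v
    change (ρ ((1 : N) : G)) v = v
    rw [Subgroup.coe_one, map_one]
    rfl
  map_mul' a b := by
    ext v
    change (ρ ((a * b : N) : G)) v = ρ a (ρ b v)
    rw [Subgroup.coe_mul, map_mul]
    rfl

theorem subRep_coe (N : Subgroup G) (ρ : Representation F G V) (S : Submodule F V)
    (h : Stb N ρ S) (n : N) (v : S) : (subRep N ρ S h n v : V) = ρ n v := rfl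

end gen

theorem mulVec_one_of {F : Type} [Field F] {k : ℕ} (A : Matrix (Fin k) (Fin k) F)
    (h : ∀ w, A.mulVec w = w) : A = 1 := by
  apply (Matrix.toLin' (R := F)).injective
  rw [Matrix.toLin'_one]
  apply LinearMap.ext
  intro w
  rw [Matrix.toLin'_apply, h]
  rfl

/-- FR1 -/
theorem fr1 (hwgt : WgtStmt) (hfrc : FrcStmt) : Fr1Stmt := by
  intro ℓ hℓ F _ hF G _ _ N P b h n σ hσ hb
  classical
  have := hF.closed
  have := hF.char
  have := Fintype.ofFinite G
  have := Fintype.ofFinite N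
  have := h.normal
  refine lt_of_le_of_ne (nrm_le_fix _ P) ?_
  intro heq
  have hle : fixV (mrep σ) P ≤ nrmV (mrep σ) P := heq.symm.le
  have hP : IsPGroup ℓ P := IsPGroup.of_card (n := 1) (by rw [h.card, pow_one])
  have hcyc : IsCyclic P := isCyclic_of_prime_card h.card
  obtain ⟨φ, hφ⟩ := hfrc ℓ F hF.char G P hP hcyc (Fin n → F) (mrep σ) hle
  obtain ⟨c, z, hc, hz, hzp, hbz⟩ := h.prj
  obtain ⟨-, hw⟩ := hwgt F G N P h.le
  obtain ⟨-, hw2⟩ := hw (Fin n → F) (Fin n → F) (mrep σ) (mrep σ) c hc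
  have hbv : ∀ v, evV (mrep σ) b v = v := by
    intro v
    rw [evV_apply]
    have h1 : (ev σ b).mulVec v = v := by rw [hb, Matrix.one_mulVec]
    rw [ev, finsum_eq_sum_of_fintype] at h1
    refine Eq.trans ?_ h1
    have h2 : (∑ t : G, b t • σ t).mulVec v = Matrix.toLin' (∑ t : G, b t • σ t) v := rfl
    rw [h2, map_sum, LinearMap.sum_apply]
    refine Finset.sum_congr rfl fun g _ => ?_
    rw [map_smul]
    rfl
  have hcomm := evV_comm (mrep σ) P z hzp
  obtain ⟨ψ, hψ⟩ : ∃ ψ, ψ = evV (mrep σ) z ∘ₗ φ := ⟨_, rfl⟩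
  have hid : ∀ v, ∑ m : N, mrep σ m (ψ (mrep σ (m : G)⁻¹ v)) = v := by
    intro v
    have h1 := hw2 ψ
    rw [hψ, trP_comp _ _ _ _ hcomm, hφ, LinearMap.comp_id, ← evV_prj (mrep σ) b c z hbz,
      finsum_eq_sum_of_fintype] at h1
    have h2 := LinearMap.congr_fun h1 v
    rw [hbv v, LinearMap.sum_apply] at h2
    rw [hψ]
    exact h2.symm
  -- a minimal `N`-stable subspace
  have hn : 0 < n := hσ.1
  have hne : (⊤ : Submodule F (Fin n → F)) ≠ ⊥ := by
    have : Nonempty (Fin n) := ⟨⟨0, hn⟩⟩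
    exact top_ne_bot
  obtain ⟨S, -, hS0, hS, hmin⟩ := H71.exists_min (N := N) (ρ := mrep σ) H71.stb_top hne
  obtain ⟨C, hC, hSC⟩ := H71.exists_compl (H71.nsoc_irr h.normal hσ) hS
  have hSn : Nontrivial S := Submodule.nontrivial_iff_ne_bot.2 hS0
  obtain ⟨k, τ, e, hτ, he⟩ := H55.irr_of_simple (subRep N (mrep σ) S hS) (by
    intro W hW
    have h1 : Stb N (mrep σ) (W.map S.subtype) := by
      rintro m hm _ ⟨v, hv, rfl⟩
      exact ⟨subRep N (mrep σ) S hS ⟨m, hm⟩ v, hW _ v hv, rfl⟩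
    rcases hmin _ h1 (Submodule.map_subtype_le S W) with h2 | h2
    · left
      rw [eq_bot_iff]
      intro x hx
      have h3 : (x : Fin n → F) ∈ W.map S.subtype := ⟨x, hx, rfl⟩
      rw [h2, Submodule.mem_bot] at h3
      exact (Submodule.mem_bot F).2 (Subtype.ext h3)
    · right
      rw [eq_top_iff]
      intro v _
      have h3 : (v : Fin n → F) ∈ W.map S.subtype := by
        rw [h2]
        exact v.2
      obtain ⟨w, hw, hwv⟩ := h3
      have h4 : w = v := Subtype.ext hwv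
      rwa [h4] at hw)
  -- the projection
  obtain ⟨q, hq⟩ : ∃ q : (Fin n → F) →ₗ[F] S, q = S.projectionOnto C hSC := ⟨_, rfl⟩
  have hqS : ∀ v : S, q v = v := by
    intro v
    rw [hq]
    exact Submodule.projectionOnto_apply_left hSC v
  have hqC : ∀ v ∈ C, q v = 0 := by
    intro v hv
    rw [hq]
    exact Submodule.projectionOnto_apply_right hSC ⟨v, hv⟩
  have hqN : ∀ (m : N) (v : Fin n → F), q (mrep σ m v) = subRep N (mrep σ) S hS m (q v) := by
    intro m v
    have hv : v ∈ S ⊔ C := by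
      rw [hSC.sup_eq_top]
      trivial
    obtain ⟨s, hs, t, ht, rfl⟩ := Submodule.mem_sup.1 hv
    rw [map_add, map_add, map_add, hqC t ht, hqC _ (hC m m.2 t ht), add_zero, add_zero,
      hqS ⟨s, hs⟩]
    exact hqS (subRep N (mrep σ) S hS m ⟨s, hs⟩)
  obtain ⟨Ψ, hΨ⟩ : ∃ Ψ : (Fin k → F) →ₗ[F] (Fin k → F),
      Ψ = e.toLinearMap ∘ₗ q ∘ₗ ψ ∘ₗ S.subtype ∘ₗ e.symm.toLinearMap := ⟨_, rfl⟩
  refine h.npj k τ hτ ?_ (LinearMap.toMatrix' Ψ) ?_
  · apply mulVec_one_of
    intro w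
    obtain ⟨v, rfl⟩ := e.surjective w
    rw [ev, finsum_eq_sum_of_fintype]
    have h2 : (∑ t : N, b t • τ t).mulVec (e v) = Matrix.toLin' (∑ t : N, b t • τ t) (e v) := rfl
    rw [h2, map_sum, LinearMap.sum_apply]
    have h3 : ∀ t : N, (Matrix.toLin' (b t • τ t)) (e v) =
        e (b t • subRep N (mrep σ) S hS t v) := by
      intro t
      rw [map_smul, map_smul, he]
      rfl
    rw [Finset.sum_congr rfl fun t _ => h3 t, ← map_sum]
    congr 1
    apply Subtype.ext
    have h4 := hbv v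
    rw [evV_apply] at h4
    rw [AddSubmonoidClass.coe_finsetSum]
    refine Eq.trans ?_ h4
    have h5 : ∑ᶠ g : G, b g • mrep σ g (v : Fin n → F) =
        ∑ᶠ t : N, b t • mrep σ t (v : Fin n → F) := by
      apply fsum_sub N
      intro x hx
      rw [h.supp x hx, zero_smul]
    rw [finsum_eq_sum_of_fintype, finsum_eq_sum_of_fintype] at h5
    exact h5.symm
  · apply mulVec_one_of
    intro w
    obtain ⟨v, rfl⟩ := e.surjective w
    rw [finsum_eq_sum_of_fintype]
    have h2 : (∑ m : N, τ m * LinearMap.toMatrix' Ψ * τ m⁻¹).mulVec (e v) =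
      Matrix.toLin' (∑ m : N, τ m * LinearMap.toMatrix' Ψ * τ m⁻¹) (e v) := rfl
    rw [h2, map_sum, LinearMap.sum_apply]
    have h3 : ∀ m : N, (Matrix.toLin' (τ m * LinearMap.toMatrix' Ψ * τ m⁻¹)) (e v) =
        e (q (mrep σ m (ψ (mrep σ (m : G)⁻¹ v)))) := by
      intro m
      have e1 : (τ m⁻¹).mulVec (e v) = e (subRep N (mrep σ) S hS m⁻¹ v) := (he m⁻¹ v).symm
      have e2 : Ψ (e (subRep N (mrep σ) S hS m⁻¹ v)) = e (q (ψ (mrep σ (m : G)⁻¹ v))) := by
        rw [hΨ]
        change e (q (ψ ((e.symm (e (subRep N (mrep σ) S hS m⁻¹ v)) : S) : Fin n → F))) = _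
        rw [LinearEquiv.symm_apply_apply]
        rfl
      rw [Matrix.toLin'_apply, ← Matrix.mulVec_mulVec, ← Matrix.mulVec_mulVec, e1,
        LinearMap.toMatrix'_mulVec, e2, hqN, he]
    rw [Finset.sum_congr rfl fun m _ => h3 m, ← map_sum, ← map_sum, hid, hqS]

end Pool.Agent.PP.D1.H91
end
end -- Pool.Agent.Helper91_D1.Fr1

section -- Pool.Agent.Helper4_D2.Rsd

/-!
# Squad PP, part D2, module RSD: restriction to `N`
-/

open scoped BigOperators

set_option linter.unusedSectionVars false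

noncomputable section

namespace Pool.Agent.PP.CD2.H4

open Pool.Agent.PP Pool.Agent.Helper51_AWC Pool.Agent.Helper79_WRA Pool.Agent.PP.H20
  Pool.Agent.PP.CD2.H66

variable {F : Type} [Field F] {G : Type} [Group G] [Finite G]

/-- restriction to `N` -/
def res (N : Subgroup G) (a : G → F) : N → F := fun t => a t

theorem res_mulF {N : Subgroup G} {a c : G → F} (ha : SpF N a) :
    mulF (res N a) (res N c) = res N (mulF a c) := by
  funext t
  have h := D1.H91.fsum_sub N (fun g : G => a g * c (g⁻¹ * (t : G)))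
    (fun x hx => by rw [ha x hx, zero_mul])
  exact h.symm

theorem res_sum {N : Subgroup G} {ι : Type} (s : Finset ι) (a : ι → G → F) :
    res N (∑ k ∈ s, a k) = ∑ k ∈ s, res N (a k) := by
  funext t
  rw [Finset.sum_apply]
  exact Finset.sum_apply _ _ _

theorem res_smul {N : Subgroup G} (α : F) (a : G → F) : res N (α • a) = α • res N a := rfl

theorem res_pwF {N : Subgroup G} {w : G → F} (hw : SpF N w) (a : G → F) (s : ℕ) :
    pwF (res N w) s (res N a) = res N (pwF w s a) := by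
  induction s with
  | zero => rfl
  | succ s ih => rw [pwF_succ, pwF_succ, ih, res_mulF hw]

theorem res_inj {N : Subgroup G} {a c : G → F} (ha : SpF N a) (hc : SpF N c)
    (h : res N a = res N c) : a = c := by
  funext x
  by_cases hx : x ∈ N
  · exact congrFun h ⟨x, hx⟩
  · rw [ha x hx, hc x hx]

theorem res_sp {N C : Subgroup G} {a : G → F} (ha : SpF C a) : SpF (C.subgroupOf N) (res N a) :=
  fun x hx => ha x fun h => hx (Subgroup.mem_subgroupOf.2 h)

theorem res_cm {N C : Subgroup G} {a : G → F} (ha : CmF C a) : CmF (C.subgroupOf N) (res N a) :=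
  fun c hc x => ha c (Subgroup.mem_subgroupOf.1 hc) x

theorem ext_sp {N C : Subgroup G} (a : N → F) (ha : SpF (C.subgroupOf N) a) :
    SpF C (ext0 N a) := by
  intro x hx
  by_cases h : x ∈ N
  · rw [H46.ext0_of_mem _ h]
    exact ha ⟨x, h⟩ fun hc => hx (Subgroup.mem_subgroupOf.1 hc)
  · rw [H46.ext0_of_not_mem _ h]

theorem res_ext {N : Subgroup G} (a : N → F) : res N (ext0 N a) = a := H46.restr_ext0 a

theorem umf_res {N C : Subgroup G} (hC : C ≤ N) {b w i : G → F} {q : ℕ} (h : UMF C b w i q) :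
    UMF (C.subgroupOf N) (res N b) (res N w) (res N i) q := by
  have hb := h.sb.mono hC
  have hw := h.sw.mono hC
  have hi := h.si.mono hC
  refine ⟨res_sp h.sb, res_sp h.sw, res_sp h.si, res_cm h.cb, res_cm h.cw, ?_, ?_, ?_, ?_, ?_, ?_,
    ?_, ?_⟩
  · rw [res_mulF hb, h.bb]
  · rw [res_mulF hb, h.bw]
  · rw [res_mulF hi, h.ii]
  · rw [res_mulF hb, h.bi]
  · rw [res_pwF hw, h.nil]
    rfl
  · intro h0
    rw [res_pwF hw] at h0
    exact h.nz (res_inj (hw.pwF hi _) (SpF.zero N) h0)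
  · intro a ha
    obtain ⟨α, hα⟩ := h.loc (ext0 N a) (ext_sp a ha)
    refine ⟨α, ?_⟩
    have h1 : mulF (ext0 N a) i = mulF (ext0 N a) i := rfl
    have ha' : SpF N (ext0 N a) := (ext_sp a ha).mono hC
    have h2 := congrArg (res N) hα
    rw [← res_mulF hi, ← res_mulF ha', res_ext, res_sum] at h2
    rw [h2]
    refine Finset.sum_congr rfl fun s _ => ?_
    rw [res_smul, res_pwF hw]
  · obtain ⟨m, x, y, hxy, hs⟩ := h.full
    refine ⟨m, fun k => res N (x k), fun k => res N (y k),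
      fun k => ⟨res_sp (hxy k).1, res_sp (hxy k).2⟩, ?_⟩
    rw [← hs, res_sum]
    refine Finset.sum_congr rfl fun k _ => ?_
    rw [res_mulF hi, res_mulF ((hxy k).1.mono hC)]

theorem ums_res {N C : Subgroup G} (hC : C ≤ N) {b w : G → F} {q : ℕ} (h : UMS C b w q) :
    UMS (C.subgroupOf N) (res N b) (res N w) q := by
  have hb := (ums_sb h).mono hC
  obtain ⟨m, e, i, h1, h2, h3, h4⟩ := h
  refine ⟨m, fun t => res N (e t), fun t => res N (i t), fun t => ?_, fun t s hts => ?_, ?_, ?_⟩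
  · have := umf_res hC (h1 t)
    rwa [← res_mulF ((h1 t).sb.mono hC)] at this
  · rw [res_mulF ((h1 t).sb.mono hC), h2 t s hts]
    rfl
  · rw [← h3, res_sum]
  · rw [res_mulF hb, h4]

theorem zpowers_sub {N : Subgroup G} (y : N) :
    (Subgroup.zpowers (y : G)).subgroupOf N = Subgroup.zpowers y := by
  ext x
  rw [Subgroup.mem_subgroupOf, Subgroup.mem_zpowers_iff, Subgroup.mem_zpowers_iff]
  constructor
  · rintro ⟨k, hk⟩
    exact ⟨k, Subtype.ext (by rw [← hk]; rfl)⟩
  · rintro ⟨k, hk⟩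
    exact ⟨k, by rw [← hk]; rfl⟩

theorem zpowers_le {N : Subgroup G} (y : N) : Subgroup.zpowers (y : G) ≤ N :=
  Subgroup.zpowers_le.2 y.2

theorem NY_sub {N : Subgroup G} (y : N) : (NY (y : G)).subgroupOf N = NY y := by
  unfold NY
  rw [D1.H91.normalizer_subgroupOf (zpowers_le y), zpowers_sub]

theorem CY_sub {N : Subgroup G} (y : N) : (CY (y : G)).subgroupOf N = CY y := by
  unfold CY
  ext t
  rw [Subgroup.mem_subgroupOf, Subgroup.mem_centralizer_iff, Subgroup.mem_centralizer_iff]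
  constructor
  · intro h x hx
    refine Subtype.ext (h x ?_)
    rw [← zpowers_sub] at hx
    exact hx
  · intro h x hx
    have hN := zpowers_le y hx
    have := h ⟨x, hN⟩ (by
      rw [← zpowers_sub]
      exact hx)
    exact congrArg Subtype.val this

theorem bY_sub {N : Subgroup G} (y : N) (b : G → F) :
    bY y (fun t : N => b t) = fun t : N => bY (y : G) b t := by
  unfold bY
  rw [← zpowers_sub]
  exact D1.H91.br_restr (zpowers_le y) b

/-- RSD -/
theorem rsd : RsdStmt := by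
  intro ℓ _ F _ G _ _ n N P y₁ b w h
  have hN := NY_sub y₁
  have hC := CY_sub y₁
  have hb₁ := bY_sub y₁ b
  have hsw : SpF N w := (ums_sw h.ums).mono inf_le_left
  have hsb₁ : SpF N (bY (y₁ : G) b) := (bY_sp h.supp).mono inf_le_left
  refine ⟨⟨inferInstance, ?_, ?_, le_top, h.mem, ?_, ?_, fun x hx => absurd (Subgroup.mem_top x) hx,
    ?_, ?_, ?_, ?_, ?_, ?_, ?_⟩, ?_, hb₁⟩
  · have := h.cyc
    exact isCyclic_of_surjective (Subgroup.subgroupOfEquivOfLe h.le).symm
      (Subgroup.subgroupOfEquivOfLe h.le).symm.surjective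
  · rw [Nat.card_congr (Subgroup.subgroupOfEquivOfLe h.le).toEquiv]
    exact h.card
  · rw [← h.ord]
    exact (Subgroup.orderOf_coe y₁).symm
  · refine ⟨fun x y => h.idem.1 x y, ?_⟩
    have h1 := congrArg (res N) h.idem.2
    rw [← res_mulF h.supp] at h1
    exact h1
  · rw [top_sup_eq]
  · have h1 := D1.H91.prjB_restr (le_refl N) h.le b h.prj
    rwa [Subgroup.subgroupOf_self] at h1
  · have hPC : P ≤ CY (y₁ : G) := by
      have := h.cyc
      have hcomm : ∀ a b : P, a * b = b * a :=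
        fun a b => (IsCyclic.isMulCommutative (α := P)).is_comm.comm a b
      intro p hp
      refine Subgroup.mem_centralizer_iff.2 fun z hz => ?_
      have hzP : z ∈ P := (Subgroup.zpowers_le.2 h.mem) hz
      exact congrArg Subtype.val (hcomm ⟨z, hzP⟩ ⟨p, hp⟩)
    have h1 := D1.H91.prjB_restr (N := N) (R := N ⊓ NY (y₁ : G)) inf_le_left
      (le_inf h.le (hPC.trans (CY_le_NY _))) _ h.prj1
    have h2 : (N ⊓ NY (y₁ : G)).subgroupOf N = (⊤ : Subgroup N) ⊓ NY y₁ := by
      rw [top_inf_eq, ← hN]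
      ext t
      rw [Subgroup.mem_subgroupOf, Subgroup.mem_subgroupOf, Subgroup.mem_inf]
      exact ⟨fun h => h.2, fun h => ⟨t.2, h⟩⟩
    rw [h2] at h1
    rw [hb₁]
    exact h1
  · intro k τ hτ hb ψ hsum
    refine h.npj k (τ.comp (Subgroup.topEquiv (G := N)).symm.toMonoidHom) ⟨hτ.1, ?_⟩ ?_ ψ ?_
    · rw [← hτ.2]
      congr 1
      ext M
      constructor
      · rintro ⟨x, rfl⟩
        exact ⟨_, rfl⟩
      · rintro ⟨x, rfl⟩
        exact ⟨(x : N), rfl⟩
    · rw [← hb]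
      unfold ev
      refine finsum_eq_of_bijective (Subgroup.topEquiv (G := N)).symm
        (Subgroup.topEquiv (G := N)).symm.bijective ?_
      intro x
      rfl
    · rw [← hsum]
      refine finsum_eq_of_bijective (Subgroup.topEquiv (G := N)).symm
        (Subgroup.topEquiv (G := N)).symm.bijective ?_
      intro x
      rfl
  · have h1 := ums_res (N := N) inf_le_left h.ums
    have h2 : (N ⊓ CY (y₁ : G)).subgroupOf N = (⊤ : Subgroup N) ⊓ CY y₁ := by
      rw [top_inf_eq, ← hC]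
      ext t
      rw [Subgroup.mem_subgroupOf, Subgroup.mem_subgroupOf, Subgroup.mem_inf]
      exact ⟨fun h => h.2, fun h => ⟨t.2, h⟩⟩
    rw [h2] at h1
    rw [hb₁]
    exact h1
  · rw [hb₁]
    have h1 := congrArg (res N) h.pow
    rw [← res_pwF hsw] at h1
    exact h1
  · intro x hx
    rw [← hN, Subgroup.mem_subgroupOf] at hx
    obtain ⟨u, hu, hcu, he⟩ := h.eqv x hx
    have h2 : (N ⊓ CY (y₁ : G)).subgroupOf N = (⊤ : Subgroup N) ⊓ CY y₁ := by
      rw [top_inf_eq, ← hC]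
      ext t
      rw [Subgroup.mem_subgroupOf, Subgroup.mem_subgroupOf, Subgroup.mem_inf]
      exact ⟨fun h => h.2, fun h => ⟨t.2, h⟩⟩
    refine ⟨res N u, ?_, ?_, ?_⟩
    · rw [← h2]
      exact res_sp hu
    · rw [← h2]
      exact res_cm hcu
    · have h1 := congrArg (res N) he
      rw [← res_mulF hsw] at h1
      exact h1
  · rw [← hN]
    ext x
    rw [Subgroup.mem_subgroupOf]
    constructor
    · rintro ⟨a, rfl⟩
      exact (a : NY (y₁ : G)).2
    · intro hx
      exact ⟨⟨⟨x, hx⟩, x.2⟩, rfl⟩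

end Pool.Agent.PP.CD2.H4
end
end -- Pool.Agent.Helper4_D2.Rsd

section -- Pool.Agent.Helper52_D2.Fr1

/-!
# Squad PP, part D2: module FR1
-/

open scoped BigOperators

noncomputable section

namespace Pool.Agent.PP.CD2.H52

open Pool.Agent.Helper51_AWC Pool.Agent.Helper79_WRA Pool.Agent.PP Pool.Agent.PP.D1
  Pool.Agent.PP.D1.H91

/-- FR1 -/
theorem fr1 (hFRA : FraStmt) (hSTW : StwStmt) : Fr1Stmt := by
  intro ℓ hℓ F _ hF G _ _ n' N P y₁ b w' h n σ hσ hb
  classical
  have := hF.closed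
  have := hF.char
  have := Fintype.ofFinite G
  have := Fintype.ofFinite N
  have := h.normal
  obtain ⟨-, -, -, -, -, -, -, hrf, -, -, -⟩ := hSTW ℓ F hF G n' N P y₁ b w' h (Fin n → F) (mrep σ)
  refine lt_of_le_of_ne hrf ?_
  intro heq
  have hbv : ∀ v, evV (mrep σ) b v = v := by
    intro v
    rw [evV_apply]
    have h1 : (ev σ b).mulVec v = v := by rw [hb, Matrix.one_mulVec]
    rw [ev, finsum_eq_sum_of_fintype] at h1
    refine Eq.trans ?_ h1
    have h2 : (∑ t : G, b t • σ t).mulVec v = Matrix.toLin' (∑ t : G, b t • σ t) v := rfl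
    rw [h2, map_sum, LinearMap.sum_apply]
    refine Finset.sum_congr rfl fun g _ => ?_
    rw [map_smul]
    rfl
  obtain ⟨ψ, hψ⟩ := hFRA ℓ F hF G n' N P y₁ b w' h (Fin n → F) (mrep σ) hbv heq.symm.le
  have hid : ∀ v, ∑ m : N, mrep σ m (ψ (mrep σ (m : G)⁻¹ v)) = v := by
    intro v
    rw [finsum_eq_sum_of_fintype] at hψ
    have h2 := LinearMap.congr_fun hψ v
    rw [LinearMap.sum_apply] at h2
    exact h2
  -- a minimal `N`-stable subspace
  have hn : 0 < n := hσ.1
  have hne : (⊤ : Submodule F (Fin n → F)) ≠ ⊥ := by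
    have : Nonempty (Fin n) := ⟨⟨0, hn⟩⟩
    exact top_ne_bot
  obtain ⟨S, -, hS0, hS, hmin⟩ := H71.exists_min (N := N) (ρ := mrep σ) H71.stb_top hne
  obtain ⟨C, hC, hSC⟩ := H71.exists_compl (H71.nsoc_irr h.normal hσ) hS
  have hSn : Nontrivial S := Submodule.nontrivial_iff_ne_bot.2 hS0
  obtain ⟨k, τ, e, hτ, he⟩ := H55.irr_of_simple (subRep N (mrep σ) S hS) (by
    intro W hW
    have h1 : Stb N (mrep σ) (W.map S.subtype) := by
      rintro m hm _ ⟨v, hv, rfl⟩
      exact ⟨subRep N (mrep σ) S hS ⟨m, hm⟩ v, hW _ v hv, rfl⟩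
    rcases hmin _ h1 (Submodule.map_subtype_le S W) with h2 | h2
    · left
      rw [eq_bot_iff]
      intro x hx
      have h3 : (x : Fin n → F) ∈ W.map S.subtype := ⟨x, hx, rfl⟩
      rw [h2, Submodule.mem_bot] at h3
      exact (Submodule.mem_bot F).2 (Subtype.ext h3)
    · right
      rw [eq_top_iff]
      intro v _
      have h3 : (v : Fin n → F) ∈ W.map S.subtype := by
        rw [h2]
        exact v.2
      obtain ⟨w, hw, hwv⟩ := h3
      have h4 : w = v := Subtype.ext hwv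
      rwa [h4] at hw)
  -- the projection
  obtain ⟨q, hq⟩ : ∃ q : (Fin n → F) →ₗ[F] S, q = S.projectionOnto C hSC := ⟨_, rfl⟩
  have hqS : ∀ v : S, q v = v := by
    intro v
    rw [hq]
    exact Submodule.projectionOnto_apply_left hSC v
  have hqC : ∀ v ∈ C, q v = 0 := by
    intro v hv
    rw [hq]
    exact Submodule.projectionOnto_apply_right hSC ⟨v, hv⟩
  have hqN : ∀ (m : N) (v : Fin n → F), q (mrep σ m v) = subRep N (mrep σ) S hS m (q v) := by
    intro m v
    have hv : v ∈ S ⊔ C := by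
      rw [hSC.sup_eq_top]
      trivial
    obtain ⟨s, hs, t, ht, rfl⟩ := Submodule.mem_sup.1 hv
    rw [map_add, map_add, map_add, hqC t ht, hqC _ (hC m m.2 t ht), add_zero, add_zero,
      hqS ⟨s, hs⟩]
    exact hqS (subRep N (mrep σ) S hS m ⟨s, hs⟩)
  obtain ⟨Ψ, hΨ⟩ : ∃ Ψ : (Fin k → F) →ₗ[F] (Fin k → F),
      Ψ = e.toLinearMap ∘ₗ q ∘ₗ ψ ∘ₗ S.subtype ∘ₗ e.symm.toLinearMap := ⟨_, rfl⟩
  refine h.npj k τ hτ ?_ (LinearMap.toMatrix' Ψ) ?_
  · apply mulVec_one_of
    intro w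
    obtain ⟨v, rfl⟩ := e.surjective w
    rw [ev, finsum_eq_sum_of_fintype]
    have h2 : (∑ t : N, b t • τ t).mulVec (e v) = Matrix.toLin' (∑ t : N, b t • τ t) (e v) := rfl
    rw [h2, map_sum, LinearMap.sum_apply]
    have h3 : ∀ t : N, (Matrix.toLin' (b t • τ t)) (e v) =
        e (b t • subRep N (mrep σ) S hS t v) := by
      intro t
      rw [map_smul, map_smul, he]
      rfl
    rw [Finset.sum_congr rfl fun t _ => h3 t, ← map_sum]
    congr 1
    apply Subtype.ext
    have h4 := hbv v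
    rw [evV_apply] at h4
    rw [AddSubmonoidClass.coe_finsetSum]
    refine Eq.trans ?_ h4
    have h5 : ∑ᶠ g : G, b g • mrep σ g (v : Fin n → F) =
        ∑ᶠ t : N, b t • mrep σ t (v : Fin n → F) := by
      apply fsum_sub N
      intro x hx
      rw [h.supp x hx, zero_smul]
    rw [finsum_eq_sum_of_fintype, finsum_eq_sum_of_fintype] at h5
    exact h5.symm
  · apply mulVec_one_of
    intro w
    obtain ⟨v, rfl⟩ := e.surjective w
    rw [finsum_eq_sum_of_fintype]
    have h2 : (∑ m : N, τ m * LinearMap.toMatrix' Ψ * τ m⁻¹).mulVec (e v) =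
      Matrix.toLin' (∑ m : N, τ m * LinearMap.toMatrix' Ψ * τ m⁻¹) (e v) := rfl
    rw [h2, map_sum, LinearMap.sum_apply]
    have h3 : ∀ m : N, (Matrix.toLin' (τ m * LinearMap.toMatrix' Ψ * τ m⁻¹)) (e v) =
        e (q (mrep σ m (ψ (mrep σ (m : G)⁻¹ v)))) := by
      intro m
      have e1 : (τ m⁻¹).mulVec (e v) = e (subRep N (mrep σ) S hS m⁻¹ v) := (he m⁻¹ v).symm
      have e2 : Ψ (e (subRep N (mrep σ) S hS m⁻¹ v)) = e (q (ψ (mrep σ (m : G)⁻¹ v))) := by
        rw [hΨ]
        change e (q (ψ ((e.symm (e (subRep N (mrep σ) S hS m⁻¹ v)) : S) : Fin n → F))) = _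
        rw [LinearEquiv.symm_apply_apply]
        rfl
      rw [Matrix.toLin'_apply, ← Matrix.mulVec_mulVec, ← Matrix.mulVec_mulVec, e1,
        LinearMap.toMatrix'_mulVec, e2, hqN, he]
    rw [Finset.sum_congr rfl fun m _ => h3 m, ← map_sum, ← map_sum, hid, hqS]


end Pool.Agent.PP.CD2.H52
end
end -- Pool.Agent.Helper52_D2.Fr1

section -- Pool.Agent.Helper2_D1.Key

/-! Squad PP, part D1, module KEY. -/

namespace Pool.Agent.PP.D1.H2

open Pool.Agent.Helper51_AWC Pool.Agent.Helper79_WRA Pool.Agent.PP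

variable {F : Type} [Field F] {G : Type} [Group G] {V : Type} [AddCommGroup V] [Module F V]

theorem rho_mul (ρ : Representation F G V) (g h : G) (v : V) : ρ (g * h) v = ρ g (ρ h v) := by
  rw [map_mul]
  rfl

theorem rho_inv_self (ρ : Representation F G V) (g : G) (v : V) : ρ g⁻¹ (ρ g v) = v := by
  rw [← rho_mul, inv_mul_cancel, map_one]
  rfl

theorem rho_self_inv (ρ : Representation F G V) (g : G) (v : V) : ρ g (ρ g⁻¹ v) = v := by
  rw [← rho_mul, mul_inv_cancel, map_one]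
  rfl

/-- (i) sums -/
theorem zs_sup {ρ : Representation F G V} {N P : Subgroup G} (hPN : P ≤ N)
    (hcp : ∀ W : Submodule F V, Stb N ρ W → ∃ C : Submodule F V, Stb N ρ C ∧ IsCompl W C)
    {Y Z₁ Z₂ : Submodule F V} (h1 : Stb N ρ Z₁) (h2 : Stb N ρ Z₂) (hY1 : Z₁ ⊓ fixV ρ P ≤ Y)
    (hY2 : Z₂ ⊓ fixV ρ P ≤ Y) : Stb N ρ (Z₁ ⊔ Z₂) ∧ (Z₁ ⊔ Z₂) ⊓ fixV ρ P ≤ Y := by
  constructor
  · intro n hn v hv
    obtain ⟨a, ha, b, hb, rfl⟩ := Submodule.mem_sup.1 hv
    rw [map_add]
    exact Submodule.add_mem_sup (h1 n hn a ha) (h2 n hn b hb)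
  · have h12 : Stb N ρ (Z₁ ⊓ Z₂) := fun n hn v hv => ⟨h1 n hn v hv.1, h2 n hn v hv.2⟩
    obtain ⟨C, hC, hcpl⟩ := hcp _ h12
    rintro v ⟨hv, hvf⟩
    obtain ⟨a, ha, b, hb, rfl⟩ := Submodule.mem_sup.1 hv
    have hbT : b ∈ (Z₁ ⊓ Z₂) ⊔ C := by
      rw [hcpl.sup_eq_top]
      exact Submodule.mem_top
    obtain ⟨w, hw, c, hc, hwc⟩ := Submodule.mem_sup.1 hbT
    have hcZ : c ∈ Z₂ := by
      have : c = b - w := by rw [← hwc]; abel
      rw [this]
      exact sub_mem hb hw.2
    set a' : V := a + w with ha'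
    have haZ : a' ∈ Z₁ := add_mem ha hw.1
    have hsum : a + b = a' + c := by rw [ha', ← hwc]; abel
    have hfix : ∀ p ∈ P, ρ p a' = a' ∧ ρ p c = c := by
      intro p hp
      have e1 : ρ p (a' + c) = a' + c := by
        rw [← hsum]
        exact hvf p hp
      rw [map_add] at e1
      have e2 : ρ p a' - a' = c - ρ p c := by
        rw [sub_eq_sub_iff_add_eq_add, e1, add_comm]
      have m1 : ρ p a' - a' ∈ Z₁ := sub_mem (h1 p (hPN hp) a' haZ) haZ
      have m2 : c - ρ p c ∈ Z₂ := sub_mem hcZ (h2 p (hPN hp) c hcZ)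
      have m3 : c - ρ p c ∈ C := sub_mem hc (hC p (hPN hp) c hc)
      have m4 : c - ρ p c ∈ (Z₁ ⊓ Z₂) ⊓ C := ⟨⟨e2 ▸ m1, m2⟩, m3⟩
      rw [hcpl.inf_eq_bot, Submodule.mem_bot] at m4
      constructor
      · rw [m4] at e2
        exact sub_eq_zero.1 e2
      · exact (sub_eq_zero.1 m4).symm
    rw [hsum]
    exact add_mem (hY1 ⟨haZ, fun p hp => (hfix p hp).1⟩) (hY2 ⟨hcZ, fun p hp => (hfix p hp).2⟩)

/-- (ii) conjugates -/
theorem zs_map {ρ : Representation F G V} {N P : Subgroup G} (hN : N.Normal)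
    {Y Z : Submodule F V} (h1 : Stb N ρ Z) (hY : Z ⊓ fixV ρ P ≤ Y)
    (hL : Stb (Subgroup.normalizer (P : Set G)) ρ Y) {x : G}
    (hx : x ∈ Subgroup.normalizer (P : Set G)) :
    Stb N ρ (Z.map (ρ x)) ∧ (Z.map (ρ x)) ⊓ fixV ρ P ≤ Y := by
  constructor
  · rintro n hn _ ⟨z, hz, rfl⟩
    refine ⟨ρ (x⁻¹ * n * x) z, h1 _ ?_ z hz, ?_⟩
    · have := hN.conj_mem n hn x⁻¹
      rwa [inv_inv] at this
    · rw [← rho_mul, ← rho_mul]
      congr 2
      group
  · rintro _ ⟨⟨z, hz, rfl⟩, hf⟩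
    apply hL x hx
    apply hY
    refine ⟨hz, fun p hp => ?_⟩
    have hp' : x * p * x⁻¹ ∈ P := (Subgroup.mem_normalizer_iff.1 hx p).1 hp
    have h2 := hf _ hp'
    have h3 : ρ (x * p * x⁻¹) (ρ x z) = ρ x (ρ p z) := by
      rw [← rho_mul, ← rho_mul]
      congr 2
      group
    rw [h3] at h2
    have h4 := congrArg (ρ x⁻¹) h2
    rwa [rho_inv_self, rho_inv_self] at h4

/-- (iii) ranges -/
theorem zs_range {ρ : Representation F G V} {N P : Subgroup G} (hPN : P ≤ N)
    (hcp : ∀ W : Submodule F V, Stb N ρ W → ∃ C : Submodule F V, Stb N ρ C ∧ IsCompl W C)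
    {Y : Submodule F V} {f : V →ₗ[F] V} (hf : HomOn N ρ ρ f) (hfY : ∀ v ∈ fixV ρ P, f v ∈ Y) :
    Stb N ρ (LinearMap.range f) ∧ LinearMap.range f ⊓ fixV ρ P ≤ Y := by
  constructor
  · rintro n hn _ ⟨v, rfl⟩
    exact ⟨ρ n v, hf n hn v⟩
  · have hk : Stb N ρ (LinearMap.ker f) := by
      intro n hn v hv
      rw [LinearMap.mem_ker] at hv ⊢
      rw [hf n hn, hv, map_zero]
    obtain ⟨C, hC, hcpl⟩ := hcp _ hk
    rintro _ ⟨⟨v, rfl⟩, hfix⟩
    have hv : v ∈ LinearMap.ker f ⊔ C := by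
      rw [hcpl.sup_eq_top]
      exact Submodule.mem_top
    obtain ⟨k, hk', c, hc, rfl⟩ := Submodule.mem_sup.1 hv
    rw [LinearMap.mem_ker] at hk'
    rw [map_add, hk', zero_add] at hfix ⊢
    apply hfY
    intro p hp
    have h1 : f (ρ p c - c) = 0 := by
      rw [map_sub, hf p (hPN hp), hfix p hp, sub_self]
    have h2 : ρ p c - c ∈ LinearMap.ker f ⊓ C :=
      ⟨h1, sub_mem (hC p (hPN hp) c hc) hc⟩
    rw [hcpl.inf_eq_bot, Submodule.mem_bot] at h2
    exact sub_eq_zero.1 h2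

/-- KEY -/
theorem key (hfex : FexStmt) (hsoc : SocStmt) : KeyStmt := by
  intro ℓ _ F _ hgood G _ _ N P b hD V _ _ _ ρ hb hs Y hY1 hY2 hL
  have hN := hD.normal
  have hPN := hD.le
  have hcp : ∀ W : Submodule F V, Stb N ρ W → ∃ C : Submodule F V, Stb N ρ C ∧ IsCompl W C :=
    (hsoc F G N hN).2.2 V ρ hs
  obtain ⟨f, hf, hf0, hfY⟩ := hfex ℓ F hgood G N P b hD V ρ hb Y hY1 hY2
    fun n hn v hv => hL n hn.2 v hv
  obtain ⟨Z, ⟨hZN, hZY⟩, hmax⟩ := (wellFounded_gt (α := Submodule F V)).has_min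
    {Z : Submodule F V | Stb N ρ Z ∧ Z ⊓ fixV ρ P ≤ Y}
    ⟨⊥, fun n _ v hv => by rw [Submodule.mem_bot] at hv ⊢; rw [hv, map_zero],
      by rw [bot_inf_eq]; exact bot_le⟩
  have hle : ∀ Z' : Submodule F V, Stb N ρ Z' ∧ Z' ⊓ fixV ρ P ≤ Y → Z' ≤ Z := by
    intro Z' hZ'
    have h1 := zs_sup hPN hcp hZN hZ'.1 hZY hZ'.2
    have h2 := hmax _ h1
    have h3 : Z ⊔ Z' = Z := by
      by_contra hne
      exact h2 (lt_of_le_of_ne le_sup_left (Ne.symm hne))
    rw [← h3]
    exact le_sup_right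
  refine ⟨Z, ?_, ?_, hZY⟩
  · intro hZ0
    have h1 := hle _ (zs_range hPN hcp hf hfY)
    rw [hZ0, le_bot_iff, LinearMap.range_eq_bot] at h1
    exact hf0 h1
  · intro g _ v hv
    have hg : g ∈ N ⊔ Subgroup.normalizer (P : Set G) := by
      rw [hD.frat]
      exact Subgroup.mem_top g
    obtain ⟨n, hn, l, hl, rfl⟩ := Subgroup.mem_sup_of_normal_left.1 hg
    rw [rho_mul]
    apply hZN n hn
    exact hle _ (zs_map hN hZN hZY hL hl) ⟨v, hv, rfl⟩

end Pool.Agent.PP.D1.H2
end -- Pool.Agent.Helper2_D1.Key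

section -- Pool.Agent.Helper52_D2.Key

/-!
# Squad PP, part D2: module KEY
-/

open scoped BigOperators

noncomputable section

namespace Pool.Agent.PP.CD2.H52

open Pool.Agent.Helper51_AWC Pool.Agent.Helper79_WRA Pool.Agent.PP Pool.Agent.PP.D1.H2

variable {F : Type} [Field F] {G : Type} [Group G] {V V' : Type} [AddCommGroup V] [Module F V]
  [AddCommGroup V'] [Module F V']

/-- an element of the group ring of `N` preserves the `N`-stable subspaces -/
theorem evV_mem [Finite G] {ρ : Representation F G V} {N : Subgroup G} {a : G → F}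
    (ha : SpF N a) {W : Submodule F V} (hW : Stb N ρ W) {v : V} (hv : v ∈ W) :
    evV ρ a v ∈ W := by
  classical
  have := Fintype.ofFinite G
  rw [D1.H91.evV_apply]
  refine W.sum_mem fun g _ => ?_
  by_cases hg : g ∈ N
  · exact W.smul_mem _ (hW g hg v hv)
  · rw [ha g hg, zero_smul]
    exact W.zero_mem

/-- an element of the group ring of `N` commutes with the maps over `N` -/
theorem evV_hom [Finite G] {ρ : Representation F G V} {ρ' : Representation F G V'}
    {N : Subgroup G} {a : G → F} (ha : SpF N a) {f : V →ₗ[F] V'} (hf : HomOn N ρ ρ' f) (v : V) :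
    f (evV ρ a v) = evV ρ' a (f v) := by
  classical
  have := Fintype.ofFinite G
  rw [D1.H91.evV_apply, D1.H91.evV_apply, map_sum]
  refine Finset.sum_congr rfl fun g _ => ?_
  rw [map_smul]
  by_cases hg : g ∈ N
  · rw [hf g hg]
  · rw [ha g hg, zero_smul, zero_smul]

section zs

variable {ρ : Representation F G V} {N : Subgroup G} {fx : Submodule F V}
  {S : Set (V →ₗ[F] V)}

/-- (i) sums -/
theorem zs_sup (hfx : ∀ v, v ∈ fx ↔ ∀ e ∈ S, e v = 0)
    (hS : ∀ e ∈ S, ∀ W : Submodule F V, Stb N ρ W → ∀ v ∈ W, e v ∈ W)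
    (hcp : ∀ W : Submodule F V, Stb N ρ W → ∃ C : Submodule F V, Stb N ρ C ∧ IsCompl W C)
    {Y Z₁ Z₂ : Submodule F V} (h1 : Stb N ρ Z₁) (h2 : Stb N ρ Z₂) (hY1 : Z₁ ⊓ fx ≤ Y)
    (hY2 : Z₂ ⊓ fx ≤ Y) : Stb N ρ (Z₁ ⊔ Z₂) ∧ (Z₁ ⊔ Z₂) ⊓ fx ≤ Y := by
  constructor
  · intro n hn v hv
    obtain ⟨a, ha, b, hb, rfl⟩ := Submodule.mem_sup.1 hv
    rw [map_add]
    exact Submodule.add_mem_sup (h1 n hn a ha) (h2 n hn b hb)
  · have h12 : Stb N ρ (Z₁ ⊓ Z₂) := fun n hn v hv => ⟨h1 n hn v hv.1, h2 n hn v hv.2⟩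
    obtain ⟨C, hC, hcpl⟩ := hcp _ h12
    rintro v ⟨hv, hvf⟩
    obtain ⟨a, ha, b, hb, rfl⟩ := Submodule.mem_sup.1 hv
    have hbT : b ∈ (Z₁ ⊓ Z₂) ⊔ C := by
      rw [hcpl.sup_eq_top]
      exact Submodule.mem_top
    obtain ⟨w, hw, c, hc, hwc⟩ := Submodule.mem_sup.1 hbT
    have hcZ : c ∈ Z₂ := by
      have : c = b - w := by rw [← hwc]; abel
      rw [this]
      exact sub_mem hb hw.2
    set a' : V := a + w with ha'
    have haZ : a' ∈ Z₁ := add_mem ha hw.1
    have hsum : a + b = a' + c := by rw [ha', ← hwc]; abel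
    have hfix : ∀ e ∈ S, e a' = 0 ∧ e c = 0 := by
      intro e he
      have e1 : e (a' + c) = 0 := by
        rw [← hsum]
        exact (hfx _).1 hvf e he
      rw [map_add] at e1
      have e2 : e a' = -e c := eq_neg_of_add_eq_zero_left e1
      have m1 : e a' ∈ Z₁ := hS e he _ h1 a' haZ
      have m2 : e c ∈ Z₂ := hS e he _ h2 c hcZ
      have m3 : e c ∈ C := hS e he _ hC c hc
      have m5 : e c ∈ Z₁ := by
        have : e c = -e a' := by rw [e2, neg_neg]
        rw [this]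
        exact neg_mem m1
      have m4 : e c ∈ (Z₁ ⊓ Z₂) ⊓ C := ⟨⟨m5, m2⟩, m3⟩
      rw [hcpl.inf_eq_bot, Submodule.mem_bot] at m4
      exact ⟨by rw [e2, m4, neg_zero], m4⟩
    rw [hsum]
    exact add_mem (hY1 ⟨haZ, (hfx _).2 fun p hp => (hfix p hp).1⟩)
      (hY2 ⟨hcZ, (hfx _).2 fun p hp => (hfix p hp).2⟩)

/-- (ii) conjugates -/
theorem zs_map {L : Subgroup G} (hN : N.Normal) (hL' : Stb L ρ fx)
    {Y Z : Submodule F V} (h1 : Stb N ρ Z) (hY : Z ⊓ fx ≤ Y) (hL : Stb L ρ Y) {x : G}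
    (hx : x ∈ L) : Stb N ρ (Z.map (ρ x)) ∧ (Z.map (ρ x)) ⊓ fx ≤ Y := by
  constructor
  · rintro n hn _ ⟨z, hz, rfl⟩
    refine ⟨ρ (x⁻¹ * n * x) z, h1 _ ?_ z hz, ?_⟩
    · have := hN.conj_mem n hn x⁻¹
      rwa [inv_inv] at this
    · rw [← rho_mul, ← rho_mul]
      congr 2
      group
  · rintro _ ⟨⟨z, hz, rfl⟩, hf⟩
    apply hL x hx
    apply hY
    refine ⟨hz, ?_⟩
    have h2 := hL' x⁻¹ (inv_mem hx) _ hf
    rwa [rho_inv_self] at h2

/-- (iii) ranges -/
theorem zs_range (hfx : ∀ v, v ∈ fx ↔ ∀ e ∈ S, e v = 0)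
    (hS : ∀ e ∈ S, ∀ W : Submodule F V, Stb N ρ W → ∀ v ∈ W, e v ∈ W)
    (hcp : ∀ W : Submodule F V, Stb N ρ W → ∃ C : Submodule F V, Stb N ρ C ∧ IsCompl W C)
    {Y : Submodule F V} {f : V →ₗ[F] V} (hf : HomOn N ρ ρ f) (hfS : ∀ e ∈ S, ∀ v, f (e v) = e (f v))
    (hfY : ∀ v ∈ fx, f v ∈ Y) :
    Stb N ρ (LinearMap.range f) ∧ LinearMap.range f ⊓ fx ≤ Y := by
  constructor
  · rintro n hn _ ⟨v, rfl⟩
    exact ⟨ρ n v, hf n hn v⟩
  · have hk : Stb N ρ (LinearMap.ker f) := by
      intro n hn v hv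
      rw [LinearMap.mem_ker] at hv ⊢
      rw [hf n hn, hv, map_zero]
    obtain ⟨C, hC, hcpl⟩ := hcp _ hk
    rintro _ ⟨⟨v, rfl⟩, hfix⟩
    have hv : v ∈ LinearMap.ker f ⊔ C := by
      rw [hcpl.sup_eq_top]
      exact Submodule.mem_top
    obtain ⟨k, hk', c, hc, rfl⟩ := Submodule.mem_sup.1 hv
    rw [LinearMap.mem_ker] at hk'
    rw [map_add, hk', zero_add] at hfix ⊢
    apply hfY
    rw [hfx]
    intro e he
    have h1 : f (e c) = 0 := by
      rw [hfS e he]
      exact (hfx _).1 hfix e he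
    have h2 : e c ∈ LinearMap.ker f ⊓ C := ⟨h1, hS e he _ hC c hc⟩
    rwa [hcpl.inf_eq_bot, Submodule.mem_bot] at h2

end zs

/-- KEY -/
theorem key (hfex : FexStmt) (hsoc : SocStmt) (hSTW : StwStmt) : KeyStmt := by
  intro ℓ _ F _ hgood G _ _ n₀ N P y₁ b w hD V _ _ _ ρ hb hs Y hY1 hY2 hL
  have hN := hD.normal
  have hcp : ∀ W : Submodule F V, Stb N ρ W → ∃ C : Submodule F V, Stb N ρ C ∧ IsCompl W C :=
    (hsoc F G N hN).2.2 V ρ hs
  obtain ⟨f, hf, hf0, hfY⟩ := hfex ℓ F hgood G n₀ N P y₁ b w hD V ρ hb Y hY1 hY2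
    fun n hn v hv => hL n hn.2 v hv
  obtain ⟨-, -, -, -, -, -, -, -, -, hfixL, -⟩ := hSTW ℓ F hgood G n₀ N P y₁ b w hD V ρ
  -- supports
  obtain ⟨m, e, i, hU, -, hsum, hbw⟩ := hD.ums
  have hsb : SpF N (bY y₁ b) := by
    intro x hx
    rw [← hsum, Finset.sum_apply]
    exact Finset.sum_eq_zero fun t _ => (hU t).sb x fun h => hx h.1
  have hsw : SpF N w := by
    intro x hx
    have h1 : w = ∑ t, mulF (e t) w := by
      conv_lhs => rw [← hbw, ← hsum]
      have h2 : ∀ (s : Finset (Fin m)), mulF (∑ t ∈ s, e t) w = ∑ t ∈ s, mulF (e t) w := by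
        classical
        have := Fintype.ofFinite G
        intro s
        ext y
        rw [Finset.sum_apply]
        unfold mulF
        simp only [finsum_eq_sum_of_fintype, Finset.sum_apply, Finset.sum_mul]
        rw [Finset.sum_comm]
      exact h2 _
    rw [h1, Finset.sum_apply]
    exact Finset.sum_eq_zero fun t _ => (hU t).sw x fun h => hx h.1
  obtain ⟨S, hSdef⟩ : ∃ S : Set (V →ₗ[F] V),
      S = {evV ρ (bY y₁ b) - LinearMap.id, evV ρ w} := ⟨_, rfl⟩
  have hfx : ∀ v, v ∈ fixW ρ (bY y₁ b) w ↔ ∀ e ∈ S, e v = 0 := by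
    intro v
    rw [hSdef]
    constructor
    · intro hv e he
      rcases he with rfl | he
      · rw [LinearMap.sub_apply, hv.1]
        exact sub_self v
      · rw [Set.mem_singleton_iff] at he
        rw [he]
        exact hv.2
    · intro h
      refine ⟨?_, h _ (Or.inr rfl)⟩
      have := h _ (Or.inl rfl)
      rw [LinearMap.sub_apply] at this
      exact sub_eq_zero.1 this
  have hS : ∀ e ∈ S, ∀ W : Submodule F V, Stb N ρ W → ∀ v ∈ W, e v ∈ W := by
    rw [hSdef]
    intro e he W hW v hv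
    rcases he with rfl | he
    · rw [LinearMap.sub_apply]
      exact sub_mem (evV_mem hsb hW hv) hv
    · rw [Set.mem_singleton_iff] at he
      rw [he]
      exact evV_mem hsw hW hv
  have hfS : ∀ e ∈ S, ∀ v, f (e v) = e (f v) := by
    rw [hSdef]
    intro e he v
    rcases he with rfl | he
    · rw [LinearMap.sub_apply, LinearMap.sub_apply, map_sub, evV_hom hsb hf]
      rfl
    · rw [Set.mem_singleton_iff] at he
      rw [he]
      exact evV_hom hsw hf v
  obtain ⟨Z, ⟨hZN, hZY⟩, hmax⟩ := (wellFounded_gt (α := Submodule F V)).has_min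
    {Z : Submodule F V | Stb N ρ Z ∧ Z ⊓ fixW ρ (bY y₁ b) w ≤ Y}
    ⟨⊥, fun n _ v hv => by rw [Submodule.mem_bot] at hv ⊢; rw [hv, map_zero],
      by rw [bot_inf_eq]; exact bot_le⟩
  have hle : ∀ Z' : Submodule F V, Stb N ρ Z' ∧ Z' ⊓ fixW ρ (bY y₁ b) w ≤ Y → Z' ≤ Z := by
    intro Z' hZ'
    have h1 := zs_sup hfx hS hcp hZN hZ'.1 hZY hZ'.2
    have h2 := hmax _ h1
    have h3 : Z ⊔ Z' = Z := by
      by_contra hne
      exact h2 (lt_of_le_of_ne le_sup_left (Ne.symm hne))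
    rw [← h3]
    exact le_sup_right
  refine ⟨Z, ?_, ?_, hZY⟩
  · intro hZ0
    have h1 := hle _ (zs_range hfx hS hcp hf hfS hfY)
    rw [hZ0, le_bot_iff, LinearMap.range_eq_bot] at h1
    exact hf0 h1
  · intro g _ v hv
    have hg : g ∈ N ⊔ NY y₁ := by
      rw [hD.frat]
      exact Subgroup.mem_top g
    obtain ⟨n, hn, l, hl, rfl⟩ := Subgroup.mem_sup_of_normal_left.1 hg
    rw [rho_mul]
    apply hZN n hn
    exact hle _ (zs_map hN hfixL hZN hZY hL hl) ⟨v, hv, rfl⟩

end Pool.Agent.PP.CD2.H52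
end
end -- Pool.Agent.Helper52_D2.Key
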