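import Pool.Agent.Helper12_AWB.B161

/-!
# Merged copies (generated) of the modules

* `Pool.Agent.Helper19_D2.Lfu`
* `Pool.Agent.Helper67_D1.Sud`
* `Pool.Agent.Helper29_D2.Sud`
* `Pool.Agent.Helper62_D2.Dzb`
-/

set_option autoImplicit false

section -- Pool.Agent.Helper19_D2.Lfu

/-!
# LFU: lifting a rank one idempotent
-/

open scoped BigOperators

noncomputable section

namespace Pool.Agent.PP.CD2.H19

open Pool.Agent.PP Pool.Agent.Helper51_AWC Pool.Agent.Helper79_WRA Pool.Agent.PP.H20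

variable {F : Type} [Field F] {G : Type} [Group G] [Finite G]

/-- An element under `b` which vanishes at the only irreducible representation is nilpotent. -/
theorem nil_of_ev (hibn : IbnStmt) (hibc : IbcStmt) (heig : EigStmt) {ℓ : ℕ} (hF : GoodF ℓ F)
    {b : G → F} (hb : IsIdem b) {k : ℕ} {σ : G →* Matrix (Fin k) (Fin k) F} (hσ : Uq b σ)
    {a : G → F} (hba : mulF b a = a) (ha : ev σ a = 0) : ∃ m : ℕ, toMA a ^ m = 0 := by
  obtain ⟨m, hm⟩ := hibn ℓ F hF G a (by
    intro n τ hτ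
    obtain ⟨w, hw, -, h01⟩ := heig F G n τ hτ b hb.1
    rcases h01 hb with h0 | h1
    · rw [← hba, ev_mulF, hw, h0, map_zero, zero_mul]
    · have h2 : ev τ b = 1 := by rw [hw, h1, map_one]
      have h3 := hσ.uniq n τ hτ h2
      obtain ⟨X, Y, -, -, hYX, hX⟩ := hibc ℓ F hF G n k τ σ hτ hσ.irr h3
      have h5 : X * ev τ a = ev σ a * X := by
        have := Fintype.ofFinite G
        rw [ev, ev, finsum_eq_sum_of_fintype, finsum_eq_sum_of_fintype, Matrix.mul_sum,
          Matrix.sum_mul]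
        refine Finset.sum_congr rfl fun t _ => ?_
        rw [Matrix.mul_smul, Matrix.smul_mul, hX]
      rw [ha, Matrix.zero_mul] at h5
      have h6 : Y * (X * ev τ a) = 0 := by rw [h5, Matrix.mul_zero]
      rwa [← Matrix.mul_assoc, hYX, Matrix.one_mul] at h6)
  refine ⟨m + 1, ?_⟩
  have h7 : toMA ((mulF a)^[m] a) = toMA a ^ m * toMA a := H66.toMA_pwF a a m
  rw [hm, toMA_zero] at h7
  rw [pow_succ, ← h7]

open Polynomial in
/-- Lifting idempotents by a polynomial. -/
theorem lift_idem {A : Type*} [Ring A] [Algebra F A] (a : A) (m : ℕ) (h : (a * (1 - a)) ^ m = 0) :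
    ∃ p : F[X], IsIdempotentElem (aeval a p) ∧ (∃ q : F[X], p = X * q) ∧
      ∀ (B : Type) [Ring B] [Algebra F B] (e : B), e * e = e → aeval e p = e := by
  set n := m + 1 with hn
  have h' : (a * (1 - a)) ^ n = 0 := by rw [hn, pow_succ, h, zero_mul]
  let P : F[X] := 1 - (1 - X ^ n) ^ n
  have h1 : (X ^ n : F[X]) ∣ P := by
    have := sub_dvd_pow_sub_pow (1 : F[X]) (1 - X ^ n) n
    rwa [one_pow, sub_sub_cancel] at this
  have h2 : ((1 - X) ^ n : F[X]) ∣ 1 - P := by
    have h3 : (1 - X : F[X]) ∣ 1 - X ^ n := by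
      have := sub_dvd_pow_sub_pow (1 : F[X]) X n
      rwa [one_pow] at this
    have h4 : 1 - P = (1 - X ^ n) ^ n := by
      show 1 - (1 - (1 - X ^ n) ^ n) = _
      ring
    rw [h4]
    exact pow_dvd_pow_of_dvd h3 n
  obtain ⟨u, hu⟩ := h1
  obtain ⟨v, hv⟩ := h2
  refine ⟨P, ?_, ⟨X ^ m * u, by rw [hu, hn, pow_succ]; ring⟩, ?_⟩
  · clear_value P
    have h5 : P * (1 - P) = (X * (1 - X)) ^ n * (u * v) := by
      rw [hv, mul_pow, hu]
      ring
    have h6 := congrArg (aeval a) h5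
    have h7 : aeval a ((X * (1 - X)) ^ n : F[X]) = 0 := by
      rw [map_pow, map_mul, map_sub, map_one, aeval_X, h']
    rw [map_mul, map_mul, h7, zero_mul, map_sub, map_one, mul_sub, mul_one, sub_eq_zero] at h6
    exact h6.symm
  · intro B _ _ e he
    have hp : ∀ j : ℕ, e ^ (j + 1) = e := by
      intro j
      induction j with
      | zero => rw [zero_add, pow_one]
      | succ j ih => rw [pow_succ, ih, he]
    have hq : ∀ j : ℕ, (1 - e) ^ (j + 1) = 1 - e := by
      intro j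
      induction j with
      | zero => rw [zero_add, pow_one]
      | succ j ih =>
        rw [pow_succ, ih]
        rw [mul_sub, mul_one, sub_mul, one_mul, he, sub_self, sub_zero]
    show aeval e (1 - (1 - X ^ n) ^ n) = e
    rw [map_sub, map_one, map_pow, map_sub, map_one, map_pow, aeval_X, hn, hp, hq, sub_sub_cancel]

theorem rank_single (k : ℕ) (i : Fin k) : (Matrix.single i i (1 : F)).rank = 1 := by
  apply le_antisymm
  · rw [Matrix.single_eq_single_vecMulVec_single]
    exact Matrix.rank_vecMulVec_le _ _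
  · rw [Nat.one_le_iff_ne_zero]
    intro h
    have h1 : (Matrix.single i i (1 : F)) = 0 := by
      unfold Matrix.rank at h
      rw [Submodule.finrank_eq_zero, LinearMap.range_eq_bot] at h
      ext u v
      have h3 := congrFun (LinearMap.congr_fun h (Pi.single v 1)) u
      rwa [Matrix.mulVecLin_apply, Matrix.mulVec_single_one] at h3
    have h2 := congrFun (congrFun h1 i) i
    rw [Matrix.single_apply_same, Matrix.zero_apply] at h2
    exact one_ne_zero h2

theorem lfu (hibn : IbnStmt) (hibc : IbcStmt) (heig : EigStmt) : LfuStmt := by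
  intro ℓ F _ hF G _ _ b hb k σ hσ
  have := Fintype.ofFinite G
  have hbb : toMA b * toMA b = toMA b := by rw [← toMA_mulF, hb.2]
  let Φ := MonoidAlgebra.lift F (Matrix (Fin k) (Fin k) F) G σ
  have hΦ : ∀ a : G → F, Φ (toMA a) = ev σ a := lift_toMA σ
  have hsur : Function.Surjective Φ := (lift_surjective σ).2 hσ.irr.2
  have hΦb : Φ (toMA b) = 1 := by rw [hΦ, hσ.one]
  have hnil : ∀ x : MonoidAlgebra F G, toMA b * x = x → Φ x = 0 → ∃ m : ℕ, x ^ m = 0 := by
    intro x hx hx0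
    obtain ⟨a, rfl⟩ := toMA_surjective x
    refine nil_of_ev hibn hibc heig hF hb hσ (a := a) ?_ ?_
    · apply toMA_injective
      rw [toMA_mulF, hx]
    · rw [← hΦ, hx0]
  have hk := hσ.irr.1
  let z : Fin k := ⟨0, hk⟩
  -- the idempotent
  obtain ⟨a₀, ha₀⟩ := hsur (Matrix.single z z 1)
  let a := toMA b * a₀
  have hba : toMA b * a = a := by
    show toMA b * (toMA b * a₀) = toMA b * a₀
    rw [← mul_assoc, hbb]
  have hΦa : Φ a = Matrix.single z z 1 := by
    show Φ (toMA b * a₀) = _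
    rw [map_mul, hΦb, one_mul, ha₀]
  have hEE : (Matrix.single z z 1 : Matrix (Fin k) (Fin k) F) * Matrix.single z z 1 =
      Matrix.single z z 1 := by
    rw [Matrix.single_mul_single_same, one_mul]
  obtain ⟨m, hm⟩ := hnil (a * (1 - a)) (by rw [← mul_assoc, hba]) (by
    rw [map_mul, map_sub, map_one, hΦa, mul_sub, mul_one, hEE, sub_self])
  obtain ⟨p, hp1, ⟨q, hq⟩, hp2⟩ := lift_idem (F := F) a m hm
  set i := Polynomial.aeval a p with hi
  have hbi : toMA b * i = i := by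
    rw [hi, hq, map_mul, Polynomial.aeval_X, ← mul_assoc, hba]
  have hΦi : Φ i = Matrix.single z z 1 := by
    rw [hi, ← Polynomial.aeval_algHom_apply, hΦa]
    exact hp2 _ _ hEE
  obtain ⟨i', hi'⟩ := toMA_surjective i
  -- FULL
  choose X hX using fun j : Fin k => hsur (Matrix.single j z 1)
  choose Y hY using fun j : Fin k => hsur (Matrix.single z j 1)
  let s := ∑ j, X j * (i * Y j)
  have hΦs : Φ s = 1 := by
    show Φ (∑ j, X j * (i * Y j)) = 1
    rw [map_sum]
    have h1 : ∀ j : Fin k, Φ (X j * (i * Y j)) = Matrix.single j j 1 := by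
      intro j
      rw [map_mul, map_mul, hX, hΦi, hY, Matrix.single_mul_single_same,
        Matrix.single_mul_single_same, one_mul, one_mul]
    rw [Finset.sum_congr rfl fun j _ => h1 j]
    ext u v
    rw [Matrix.sum_apply, Matrix.one_apply]
    simp only [Matrix.single_apply]
    by_cases huv : u = v
    · subst huv
      rw [if_pos rfl, Finset.sum_eq_single u]
      · rw [if_pos ⟨rfl, rfl⟩]
      · intro j _ hj
        rw [if_neg fun h => hj h.1]
      · intro h
        exact absurd (Finset.mem_univ _) h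
    · rw [if_neg huv]
      refine Finset.sum_eq_zero fun j _ => ?_
      rw [if_neg]
      rintro ⟨rfl, rfl⟩
      exact huv rfl
  let ν := toMA b - toMA b * s
  have hbν : toMA b * ν = ν := by
    show toMA b * (toMA b - toMA b * s) = toMA b - toMA b * s
    rw [mul_sub, hbb, ← mul_assoc, hbb]
  obtain ⟨r, hr⟩ := hnil ν hbν (by
    show Φ (toMA b - toMA b * s) = 0
    rw [map_sub, map_mul, hΦb, hΦs, one_mul, sub_self])
  let t := ∑ j ∈ Finset.range r, ν ^ j
  have ht : (1 - ν) * t = 1 := by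
    have := mul_neg_geom_sum ν r
    rw [hr, sub_zero] at this
    exact this
  have hbst : toMA b * s * t = toMA b := by
    have h1 : toMA b * s = toMA b * (1 - ν) := by
      rw [mul_sub, mul_one, hbν]
      show toMA b * s = toMA b - (toMA b - toMA b * s)
      rw [sub_sub_cancel]
    rw [h1, mul_assoc, ht, mul_one]
  clear_value t
  choose x hx using fun j : Fin k => toMA_surjective (toMA b * X j)
  choose y hy using fun j : Fin k => toMA_surjective (Y j * t)
  refine ⟨i', ?_, ?_, ?_, k, x, y, ?_⟩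
  · apply toMA_injective
    rw [toMA_mulF, hi']
    exact hp1
  · apply toMA_injective
    rw [toMA_mulF, hi', hbi]
  · rw [← hΦ, hi', hΦi]
    exact rank_single k z
  · apply toMA_injective
    rw [H66.toMA_sum]
    simp only [toMA_mulF]
    rw [← hbst]
    show ∑ j, toMA (x j) * (toMA i' * toMA (y j)) = toMA b * (∑ j, X j * (i * Y j)) * t
    rw [Finset.mul_sum, Finset.sum_mul]
    refine Finset.sum_congr rfl fun j _ => ?_
    rw [hx, hy, hi']
    simp only [mul_assoc]

end Pool.Agent.PP.CD2.H19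
end
end -- Pool.Agent.Helper19_D2.Lfu

section -- Pool.Agent.Helper67_D1.Sud

/-!
# Squad PP, part D1, module SUD: every irreducible representation of `N_G(P)` over `br_P b` occurs
-/

open scoped BigOperators

set_option linter.unusedSectionVars false

noncomputable section

namespace Pool.Agent.PP.D1.H67

open Pool.Agent.PP Pool.Agent.Helper51_AWC Pool.Agent.Helper79_WRA

section lift

variable {F : Type} [Field F] {G : Type} [Group G] [Finite G] {P N : Subgroup G} {m : ℕ}
  {κ : N →* Matrix (Fin m) (Fin m) F}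

/-- the sum over `N` by way of a system of weights -/
theorem sum_w {X : Type} [AddCommGroup X] [Module F X] [Fintype N] [Fintype P] (hPN : P ≤ N)
    {c : G → F} (hc : IsW N P c) (h : N → X) :
    ∑ n : N, h n = ∑ n : N, c n • ∑ p : P, h (n * ⟨(p : G), hPN p.2⟩) := by
  have h1 : ∀ n : N, ∑ p : P, c ((n : G) * p) = 1 := by
    intro n
    rw [← finsum_eq_sum_of_fintype]
    exact hc.sum n n.2
  have h2 : ∀ n : N, ∑ p : P, c ((n : G) * (p : G)⁻¹) = 1 := by
    intro n
    rw [← h1 n]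
    refine Fintype.sum_equiv (Equiv.inv P) _ _ fun p => ?_
    rw [Equiv.inv_apply, Subgroup.coe_inv]
  calc ∑ n : N, h n = ∑ n : N, (∑ p : P, c ((n : G) * (p : G)⁻¹)) • h n := by
        refine Finset.sum_congr rfl fun n _ => ?_
        rw [h2 n, one_smul]
    _ = ∑ n : N, ∑ p : P, c ((n : G) * (p : G)⁻¹) • h n := by
        refine Finset.sum_congr rfl fun n _ => ?_
        rw [Finset.sum_smul]
    _ = ∑ p : P, ∑ n : N, c ((n : G) * (p : G)⁻¹) • h n := Finset.sum_comm
    _ = ∑ p : P, ∑ n : N, c (n : G) • h (n * ⟨(p : G), hPN p.2⟩) := by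
        refine Finset.sum_congr rfl fun p _ => ?_
        rw [← Equiv.sum_comp (Equiv.mulRight (⟨(p : G), hPN p.2⟩ : N))]
        refine Finset.sum_congr rfl fun n _ => ?_
        rw [Equiv.coe_mulRight, Subgroup.coe_mul, mul_inv_cancel_right]
    _ = ∑ n : N, ∑ p : P, c (n : G) • h (n * ⟨(p : G), hPN p.2⟩) := Finset.sum_comm
    _ = ∑ n : N, c n • ∑ p : P, h (n * ⟨(p : G), hPN p.2⟩) := by
        refine Finset.sum_congr rfl fun n _ => ?_
        rw [Finset.smul_sum]

/-- the averaged lift of an embedding whose image modulo `W` is contained in the norm -/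
theorem lift_w (hPN : P ≤ N) (hNP : N ≤ Subgroup.normalizer (P : Set G))
    (hκP : ∀ n : N, (n : G) ∈ P → κ n = 1) {c : G → F} (hc : IsW N P c)
    {φ : Matrix (Fin m) (Fin m) F} (hφ : ∑ᶠ n : N, c n • (κ n * φ * κ n⁻¹) = 1) {V : Type}
    [AddCommGroup V] [Module F V] (ρ : Representation F G V) (ι : (Fin m → F) →ₗ[F] V)
    (hint : ∀ (n : N) (w : Fin m → F), ι ((κ n).mulVec w) = ρ n (ι w))
    (W : Submodule F V) (hW : ∀ g, ∀ v ∈ W, ρ g v ∈ W)
    (hι : ∀ w, ι w ∈ nrmV ρ P ⊔ W) :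
    ∃ s : (Fin m → F) →ₗ[F] V, (∀ (n : N) (w : Fin m → F), s ((κ n).mulVec w) = ρ n (s w)) ∧
      (∀ w, s w ∈ nrmV ρ P) ∧ ∀ w, ι w - s w ∈ W := by
  classical
  have hfP := Fintype.ofFinite P
  have hfN := Fintype.ofFinite N
  rw [finsum_eq_sum_of_fintype] at hφ
  -- a linear lift
  have h0 : ∀ i : Fin m, ∃ u : V, ι (Pi.single i 1) - (∑ p : P, ρ p u) ∈ W := by
    intro i
    obtain ⟨a, ⟨u, hu⟩, c, hc, hac⟩ := Submodule.mem_sup.1 (hι (Pi.single i 1))
    refine ⟨u, ?_⟩
    rw [finsum_eq_sum_of_fintype, LinearMap.sum_apply] at hu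
    rw [hu, ← hac, add_sub_cancel_left]
    exact hc
  choose u hu using h0
  let s0 : (Fin m → F) →ₗ[F] V := (Pi.basisFun F (Fin m)).constr F u
  have hs0 : ∀ w, ι w - (∑ p : P, ρ p (s0 w)) ∈ W := by
    intro w
    have h1 : (W.mkQ ∘ₗ (ι - (∑ p : P, ρ p) ∘ₗ s0)) = 0 := by
      apply (Pi.basisFun F (Fin m)).ext
      intro i
      rw [LinearMap.zero_apply, LinearMap.comp_apply, Submodule.mkQ_apply,
        Submodule.Quotient.mk_eq_zero, LinearMap.sub_apply, LinearMap.comp_apply,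
        Module.Basis.constr_basis, LinearMap.sum_apply, Pi.basisFun_apply]
      exact hu i
    have h2 := LinearMap.congr_fun h1 w
    rw [LinearMap.zero_apply, LinearMap.comp_apply, Submodule.mkQ_apply,
      Submodule.Quotient.mk_eq_zero, LinearMap.sub_apply, LinearMap.comp_apply,
      LinearMap.sum_apply] at h2
    exact h2
  -- the sum of the conjugates over `N`
  let S : (Fin m → F) →ₗ[F] V := ∑ n : N, ρ n ∘ₗ s0 ∘ₗ Matrix.toLin' (φ * κ n⁻¹)
  have hS : ∀ w, S w = ∑ n : N, ρ n (s0 ((φ * κ n⁻¹).mulVec w)) := by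
    intro w
    change (∑ n : N, ρ n ∘ₗ s0 ∘ₗ Matrix.toLin' (φ * κ n⁻¹)) w = _
    rw [LinearMap.sum_apply]
    rfl
  have hSeq : ∀ (n : N) (w : Fin m → F), S ((κ n).mulVec w) = ρ n (S w) := by
    intro n w
    rw [hS, hS, map_sum, ← Equiv.sum_comp (Equiv.mulLeft n)]
    refine Finset.sum_congr rfl fun k _ => ?_
    rw [Equiv.coe_mulLeft, Matrix.mulVec_mulVec, Matrix.mul_assoc, ← map_mul, mul_inv_rev,
      inv_mul_cancel_right, Subgroup.coe_mul, map_mul, Module.End.mul_apply]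
  have hS2 : ∀ w, S w = ∑ n : N, c n • ρ n (∑ p : P, ρ p (s0 ((φ * κ n⁻¹).mulVec w))) := by
    intro w
    rw [hS, sum_w hPN hc]
    refine Finset.sum_congr rfl fun n _ => ?_
    rw [map_sum]
    congr 1
    refine Finset.sum_congr rfl fun p _ => ?_
    rw [mul_inv_rev, map_mul κ, hκP _ (by
      rw [Subgroup.coe_inv]
      exact inv_mem p.2), one_mul, Subgroup.coe_mul, map_mul ρ, Module.End.mul_apply]
  have hι2 : ∀ w, ι w = ∑ n : N, c n • ρ n (ι ((φ * κ n⁻¹).mulVec w)) := by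
    intro w
    have h1 : w = ∑ n : N, c n • (κ n).mulVec ((φ * κ n⁻¹).mulVec w) := by
      calc w = (1 : Matrix (Fin m) (Fin m) F).mulVec w := by rw [Matrix.one_mulVec]
        _ = ∑ n : N, (c n • (κ n * φ * κ n⁻¹)).mulVec w := by
            rw [← hφ, Matrix.sum_mulVec]
        _ = ∑ n : N, c n • (κ n).mulVec ((φ * κ n⁻¹).mulVec w) := by
            refine Finset.sum_congr rfl fun n _ => ?_
            rw [Matrix.smul_mulVec, Matrix.mulVec_mulVec, Matrix.mul_assoc]
    calc ι w = ι (∑ n : N, c n • (κ n).mulVec ((φ * κ n⁻¹).mulVec w)) := by rw [← h1]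
      _ = ∑ n : N, c n • ρ n (ι ((φ * κ n⁻¹).mulVec w)) := by
          rw [map_sum]
          refine Finset.sum_congr rfl fun n _ => ?_
          rw [map_smul, hint]
  refine ⟨S, hSeq, ?_, ?_⟩
  · intro w
    rw [hS2]
    refine Submodule.sum_mem _ fun n _ => Submodule.smul_mem _ _ ?_
    refine CY66.nrm_stable ρ (hNP n.2) ⟨s0 ((φ * κ n⁻¹).mulVec w), ?_⟩
    rw [finsum_eq_sum_of_fintype, LinearMap.sum_apply]
  · intro w
    rw [hS2, hι2, ← Finset.sum_sub_distrib]
    refine Submodule.sum_mem _ fun n _ => ?_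
    rw [← smul_sub, ← map_sub]
    exact Submodule.smul_mem _ _ (hW _ _ (hs0 _))

/-- a representation with `EmbN` has a simple constituent with `EmbN` -/
theorem exists_simple_w (hPN : P ≤ N) (hNP : N ≤ Subgroup.normalizer (P : Set G))
    (hκP : ∀ n : N, (n : G) ∈ P → κ n = 1) {c : G → F} (hc : IsW N P c)
    {φ : Matrix (Fin m) (Fin m) F} (hφ : ∑ᶠ n : N, c n • (κ n * φ * κ n⁻¹) = 1)
    [IsAlgClosed F] (d : ℕ) :
    ∀ (V : Type) [AddCommGroup V] [Module F V] [FiniteDimensional F V] (ρ : Representation F G V)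
    (ι : (Fin m → F) →ₗ[F] V), EmbN P N κ ρ ι → Module.finrank F V = d →
    ∃ (n : ℕ) (σ : G →* Matrix (Fin n) (Fin n) F) (ι' : (Fin m → F) →ₗ[F] (Fin n → F)), IsIrr σ ∧
      EmbN P N κ (mrep σ) ι' := by
  classical
  have hfP := Fintype.ofFinite P
  induction d using Nat.strong_induction_on with
  | _ d ih =>
  intro V _ _ _ ρ ι hι hd
  by_cases hs : ∀ W : Submodule F V, (∀ g, ∀ v ∈ W, ρ g v ∈ W) → W = ⊥ ∨ W = ⊤
  · have hnt : Nontrivial V := by
      obtain ⟨w, hw⟩ := hι.nt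
      refine ⟨ι w, 0, fun h => hw ?_⟩
      rw [h]
      exact zero_mem _
    obtain ⟨n, σ, e, hσ, he⟩ := H55.irr_of_simple ρ hs
    refine ⟨n, σ, e.toLinearMap ∘ₗ ι, hσ, ?_, ?_⟩
    · intro k w
      rw [LinearMap.comp_apply, LinearMap.comp_apply, hι.int]
      exact he k (ι w)
    · obtain ⟨w, hw⟩ := hι.nt
      refine ⟨w, fun hmem => hw ?_⟩
      obtain ⟨y, hy⟩ := hmem
      refine ⟨e.symm y, ?_⟩
      apply e.injective
      rw [finsum_eq_sum_of_fintype, LinearMap.sum_apply] at hy ⊢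
      rw [map_sum]
      rw [LinearMap.comp_apply] at hy
      change _ = e.toLinearMap (ι w)
      rw [← hy]
      refine Finset.sum_congr rfl fun p _ => ?_
      rw [he, LinearEquiv.apply_symm_apply]
      rfl
  · push Not at hs
    obtain ⟨W, hW, hW0, hW1⟩ := hs
    by_cases hq : ∀ w, ι w ∈ nrmV ρ P ⊔ W
    · -- the embedding into `W`
      obtain ⟨s, hs1, hs2, hs3⟩ := lift_w hPN hNP hκP hc hφ ρ ι hι.int W hW hq
      let τ : Representation F G W := ρ.subrepresentation W (fun g v hv => hW g v hv)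
      let ι' : (Fin m → F) →ₗ[F] W := (ι - s).codRestrict W hs3
      refine ih (Module.finrank F W) ?_ W τ ι' ⟨?_, ?_⟩ rfl
      · rw [← hd]
        exact Submodule.finrank_lt hW1
      · intro n w
        apply Subtype.ext
        change ι ((κ n).mulVec w) - s ((κ n).mulVec w) = ρ n (ι w - s w)
        rw [hι.int, hs1, map_sub]
      · obtain ⟨w, hw⟩ := hι.nt
        refine ⟨w, fun hmem => hw ?_⟩
        obtain ⟨y, hy⟩ := hmem
        rw [finsum_eq_sum_of_fintype, LinearMap.sum_apply] at hy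
        have h1 : (∑ p : P, ρ p (y : V)) = ι w - s w := by
          have h2 := congrArg Subtype.val hy
          rw [AddSubmonoidClass.coe_finsetSum] at h2
          exact h2
        have h3 : ι w - s w ∈ nrmV ρ P := by
          refine ⟨(y : V), ?_⟩
          rw [finsum_eq_sum_of_fintype, LinearMap.sum_apply, h1]
        have h4 := Submodule.add_mem _ h3 (hs2 w)
        rwa [sub_add_cancel] at h4
    · -- the embedding into `V / W`
      push Not at hq
      obtain ⟨w, hw⟩ := hq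
      let τ : Representation F G (V ⧸ W) := ρ.quotient W (fun g v hv => hW g v hv)
      refine ih (Module.finrank F (V ⧸ W)) ?_ (V ⧸ W) τ (W.mkQ ∘ₗ ι) ⟨?_, w, ?_⟩ rfl
      · have h1 := Submodule.finrank_quotient_add_finrank W
        have h2 : 0 < Module.finrank F W := by
          rw [Nat.pos_iff_ne_zero, Ne, Submodule.finrank_eq_zero]
          exact hW0
        omega
      · intro n w
        rw [LinearMap.comp_apply, hι.int]
        rfl
      · intro hmem
        apply hw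
        obtain ⟨y, hy⟩ := hmem
        obtain ⟨y, rfl⟩ := W.mkQ_surjective y
        rw [finsum_eq_sum_of_fintype, LinearMap.sum_apply] at hy
        have h1 : ∑ p : P, τ p (W.mkQ y) = W.mkQ (∑ p : P, ρ p y) := by
          rw [map_sum]
          rfl
        rw [h1, LinearMap.comp_apply, Submodule.mkQ_apply, Submodule.mkQ_apply,
          Submodule.Quotient.eq] at hy
        have h2 : ι w = (∑ p : P, ρ p y) + -((∑ p : P, ρ p y) - ι w) := by abel
        rw [h2]
        refine Submodule.add_mem_sup ⟨y, ?_⟩ (W.neg_mem hy)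
        rw [finsum_eq_sum_of_fintype, LinearMap.sum_apply]

end lift

section main

variable {F : Type} [Field F] {G : Type} [Group G] [Finite G]

/-- a sum over the group of a function supported on a subgroup -/
theorem sum_sub {X : Type} [AddCommGroup X] [Fintype G] {N : Subgroup G} [Fintype N] {f : G → X}
    (hf : ∀ g, g ∉ N → f g = 0) : ∑ g : G, f g = ∑ n : N, f n := by
  symm
  refine Fintype.sum_of_injective (fun n : N => (n : G)) Subtype.val_injective _ _ ?_ fun n => rfl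
  intro g hg
  apply hf
  intro h
  exact hg ⟨⟨g, h⟩, rfl⟩

theorem evV_mrep {n : ℕ} (σ : G →* Matrix (Fin n) (Fin n) F) (a : G → F) (v : Fin n → F) :
    evV (mrep σ) a v = (ev σ a).mulVec v := by
  have := Fintype.ofFinite G
  rw [D66.evV_apply]
  unfold ev
  rw [finsum_eq_sum_of_fintype, Matrix.sum_mulVec]
  refine Finset.sum_congr rfl fun g _ => ?_
  rw [Matrix.smul_mulVec, CY66.mrep_apply]

/-- a relative trace in the group ring acts as a weighted sum of conjugates -/
theorem ev_prj {N P : Subgroup G} {m : ℕ} (κ : N →* Matrix (Fin m) (Fin m) F) {a c z : G → F}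
    (hc : IsW N P c) (h : ∀ y, a y = ∑ᶠ g : G, c g * z (g⁻¹ * y * g)) :
    ∑ᶠ n : N, c n • (κ n * (ev κ fun t : N => z t) * κ n⁻¹) = ev κ fun t : N => a t := by
  classical
  have := Fintype.ofFinite G
  have := Fintype.ofFinite N
  unfold ev
  rw [finsum_eq_sum_of_fintype, finsum_eq_sum_of_fintype, finsum_eq_sum_of_fintype]
  have h1 : ∀ n : N, c n • (κ n * (∑ t : N, z t • κ t) * κ n⁻¹) =
      ∑ y : N, (c n * z ((n : G)⁻¹ * y * n)) • κ y := by
    intro n
    rw [Finset.mul_sum, Finset.sum_mul, Finset.smul_sum]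
    refine Fintype.sum_equiv (MulAut.conj n).toEquiv _ _ fun y => ?_
    have h2 : (n : G)⁻¹ * (((MulAut.conj n).toEquiv y : N) : G) * n = y := by
      change (n : G)⁻¹ * ((n : G) * y * (n : G)⁻¹) * n = y
      group
    have h3 : κ ((MulAut.conj n).toEquiv y) = κ n * κ y * κ n⁻¹ := by
      change κ (n * y * n⁻¹) = _
      rw [map_mul, map_mul]
    rw [h2, h3, mul_smul, Matrix.mul_smul, Matrix.smul_mul]
  rw [Finset.sum_congr rfl fun n _ => h1 n, Finset.sum_comm]
  refine Finset.sum_congr rfl fun y _ => ?_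
  rw [← Finset.sum_smul]
  congr 1
  change _ = a y
  rw [h, finsum_eq_sum_of_fintype, sum_sub (N := N)]
  intro g hg
  rw [hc.supp g hg, zero_mul]

/-- `a`, supported on `N`, acts on the image of an embedding of `κ` like `κ` -/
theorem evV_emb {N : Subgroup G} {m : ℕ} {κ : N →* Matrix (Fin m) (Fin m) F} {V : Type}
    [AddCommGroup V] [Module F V] {ρ : Representation F G V} {ι : (Fin m → F) →ₗ[F] V}
    (hint : ∀ (n : N) (w : Fin m → F), ι ((κ n).mulVec w) = ρ n (ι w)) {a : G → F}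
    (ha : ∀ x, x ∉ N → a x = 0) (w : Fin m → F) :
    evV ρ a (ι w) = ι ((ev κ fun t : N => a t).mulVec w) := by
  have := Fintype.ofFinite G
  have := Fintype.ofFinite N
  rw [D66.evV_apply, sum_sub (N := N)]
  · unfold ev
    rw [finsum_eq_sum_of_fintype, Matrix.sum_mulVec, map_sum]
    refine Finset.sum_congr rfl fun n _ => ?_
    rw [Matrix.smul_mulVec, map_smul, hint]
  · intro g hg
    rw [ha g hg, zero_smul]

/-- SUD for the normaliser itself -/
theorem sud_L (hebv : EbvStmt) (hkey : KeyStmt) (heig : EigStmt) {ℓ : ℕ} [Fact ℓ.Prime]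
    (hF : GoodF ℓ F) {P : Subgroup G} {b : G → F} (hD : D1S ℓ (⊤ : Subgroup G) P b) {m : ℕ}
    (κ : Subgroup.normalizer (P : Set G) →* Matrix (Fin m) (Fin m) F) (hκ : IsIrr κ)
    (hb : ev κ (fun t : Subgroup.normalizer (P : Set G) => br P b t) = 1) :
    ∃ (n : ℕ) (σ : G →* Matrix (Fin n) (Fin n) F) (ι : (Fin m → F) →ₗ[F] (Fin n → F)),
      IsIrr σ ∧ ev σ b = 1 ∧ EmbN P (Subgroup.normalizer (P : Set G)) κ (mrep σ) ι ∧
      (∀ w, ι w ∈ fixV (mrep σ) P) ∧
      fixV (mrep σ) P ≤ LinearMap.range ι ⊔ nrmV (mrep σ) P := by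
  classical
  have : IsAlgClosed F := hF.closed
  have hch : CharP F ℓ := hF.char
  have hPL : P ≤ Subgroup.normalizer (P : Set G) := Subgroup.le_normalizer
  have hnorm : (P.subgroupOf (Subgroup.normalizer (P : Set G))).Normal :=
    (Subgroup.normal_subgroupOf_iff_le_normalizer hPL).2 le_rfl
  have hp : IsPGroup ℓ (P.subgroupOf (Subgroup.normalizer (P : Set G))) :=
    (D66.isP hD.card).comap_of_injective (Subgroup.normalizer (P : Set G)).subtype
      Subtype.val_injective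
  have hκP : ∀ n : Subgroup.normalizer (P : Set G), (n : G) ∈ P → κ n = 1 := fun n hn =>
    H20.nls_triv hF.prime hF.char _ hnorm hp κ hκ n (Subgroup.mem_subgroupOf.2 hn)
  have hcard : (Nat.card P : F) = 0 := by
    rw [hD.card, CharP.cast_eq_zero_iff F ℓ]
  obtain ⟨c, z, hc, hz, -, hz2⟩ := hD.prj1
  rw [top_inf_eq] at hc
  have hφ := ev_prj κ hc hz2
  rw [hb] at hφ
  obtain ⟨V, _, _, _, ρ, ι₀, hι₀⟩ := H55.exists_ind (κ := κ) hκP hPL hcard hκ.1
  obtain ⟨n, σ, ι, hσ, hι⟩ := exists_simple_w hPL le_rfl hκP hc hφ _ V ρ ι₀ hι₀ rfl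
  have hfix : ∀ w, ι w ∈ fixV (mrep σ) P := by
    intro w p hp
    have h1 := hι.int ⟨p, hPL hp⟩ w
    rw [hκP _ hp, Matrix.one_mulVec] at h1
    exact h1.symm
  -- `b` acts as the identity
  have hσb : ev σ b = 1 := by
    obtain ⟨w, h1, -, h2⟩ := heig F G n σ hσ b hD.idem.1
    rcases h2 hD.idem with h3 | h3
    · exfalso
      obtain ⟨u, hu⟩ := hι.nt
      apply hu
      have h4 := hebv ℓ F G P hD.card (Fin n → F) (mrep σ) b (fun p _ x => hD.idem.1 x p) (ι u)
        (hfix u)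
      have h5 : ∀ x, x ∉ Subgroup.normalizer (P : Set G) → br P b x = 0 := by
        intro x hx
        apply D66.br_supp hD.supp
        rwa [top_inf_eq]
      rw [evV_mrep, h1, h3, map_zero, Matrix.zero_mulVec, evV_emb hι.int h5, hb,
        Matrix.one_mulVec, zero_sub] at h4
      exact neg_mem_iff.1 h4
    · rw [h1, h3, map_one]
  refine ⟨n, σ, ι, hσ, hσb, hι, hfix, ?_⟩
  have hstb : Stb (Subgroup.normalizer (P : Set G)) (mrep σ)
      (LinearMap.range ι ⊔ nrmV (mrep σ) P) := by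
    apply D1.H71.stb_sup
    · rintro g hg _ ⟨w, rfl⟩
      exact ⟨(κ ⟨g, hg⟩).mulVec w, hι.int ⟨g, hg⟩ w⟩
    · exact D66.stb_nrm _ le_rfl
  have hlt : nrmV (mrep σ) P < LinearMap.range ι ⊔ nrmV (mrep σ) P := by
    refine lt_of_le_of_ne le_sup_right fun h => ?_
    obtain ⟨u, hu⟩ := hι.nt
    apply hu
    rw [h]
    exact Submodule.mem_sup_left ⟨u, rfl⟩
  have hle : LinearMap.range ι ⊔ nrmV (mrep σ) P ≤ fixV (mrep σ) P := by
    refine sup_le ?_ (D66.nrm_le_fix _ _)
    rintro _ ⟨w, rfl⟩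
    exact hfix w
  have htop : (⊤ : Subgroup G).Normal := inferInstance
  obtain ⟨Z, hZ0, hZs, hZ⟩ := hkey ℓ F hF G ⊤ P b hD (Fin n → F) (mrep σ)
    (fun v => by rw [evV_mrep, hσb, Matrix.one_mulVec]) (D1.H71.nsoc_irr htop hσ)
    (LinearMap.range ι ⊔ nrmV (mrep σ) P) hlt hle hstb
  rw [D1.H71.top_of_stb hσ hZs hZ0, top_inf_eq] at hZ
  exact hZ

/-- SUD. -/
theorem sud (hebv : EbvStmt) (hkey : KeyStmt) (heig : EigStmt) : SudStmt := by
  classical
  intro ℓ _ F _ hF G _ _ P b hD A _ _ j hj hr m κ hκ hb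
  have := Fintype.ofFinite A
  let e : A ≃* Subgroup.normalizer (P : Set G) :=
    (MonoidHom.ofInjective hj).trans (MulEquiv.subgroupCongr hr)
  have he : ∀ x, ((e x : Subgroup.normalizer (P : Set G)) : G) = j x := fun x => rfl
  let κ' : Subgroup.normalizer (P : Set G) →* Matrix (Fin m) (Fin m) F :=
    κ.comp e.symm.toMonoidHom
  have hκe : ∀ x, κ' (e x) = κ x := by
    intro x
    change κ (e.symm (e x)) = κ x
    rw [MulEquiv.symm_apply_apply]
  have hκ' : IsIrr κ' := by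
    refine ⟨hκ.1, ?_⟩
    have h1 : Set.range κ' = Set.range κ := by
      apply Set.Subset.antisymm
      · rintro _ ⟨t, rfl⟩
        exact ⟨e.symm t, rfl⟩
      · rintro _ ⟨x, rfl⟩
        exact ⟨e x, hκe x⟩
    rw [h1]
    exact hκ.2
  have hb' : ev κ' (fun t : Subgroup.normalizer (P : Set G) => br P b t) = 1 := by
    have := Fintype.ofFinite (Subgroup.normalizer (P : Set G))
    rw [← hb]
    unfold ev
    rw [finsum_eq_sum_of_fintype, finsum_eq_sum_of_fintype]
    symm
    refine Fintype.sum_equiv e.toEquiv _ _ fun x => ?_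
    change br P b (j x) • κ x = br P b (e x : Subgroup.normalizer (P : Set G)) • κ' (e x)
    rw [he, hκe]
  obtain ⟨n, σ, ι, hσ, hσb, hι, hfix, hle⟩ := sud_L hebv hkey heig hF hD κ' hκ' hb'
  have hinj : LinearMap.ker ((nrmV (mrep σ) P).mkQ ∘ₗ ι) = ⊥ := by
    rw [LinearMap.ker_eq_bot']
    intro w hw
    rw [LinearMap.comp_apply, Submodule.mkQ_apply, Submodule.Quotient.mk_eq_zero] at hw
    exact CY66.emb_inj le_rfl hκ' hι hw
  obtain ⟨q, hq⟩ := LinearMap.exists_leftInverse_of_injective _ hinj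
  have hπι : ∀ w, q ((nrmV (mrep σ) P).mkQ (ι w)) = w := fun w => LinearMap.congr_fun hq w
  have hπ0 : ∀ v ∈ nrmV (mrep σ) P, q ((nrmV (mrep σ) P).mkQ v) = 0 := by
    intro v hv
    rw [Submodule.mkQ_apply, (Submodule.Quotient.mk_eq_zero _).2 hv, map_zero]
  refine ⟨n, σ, q ∘ₗ (nrmV (mrep σ) P).mkQ, hσ, hσb, ?_, ?_, ?_⟩
  · intro x v hv
    obtain ⟨_, ⟨w, rfl⟩, c, hc, rfl⟩ := Submodule.mem_sup.1 (hle hv)
    rw [map_add, ← he, ← hι.int, hκe, LinearMap.comp_apply, LinearMap.comp_apply, map_add, map_add,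
      map_add, map_add, hπι, hπι, hπ0 c hc, hπ0 _ (CY66.nrm_stable _ (e x).2 hc), add_zero,
      add_zero]
  · intro v hv
    obtain ⟨_, ⟨w, rfl⟩, c, hc, rfl⟩ := Submodule.mem_sup.1 (hle hv)
    constructor
    · intro h
      rw [LinearMap.comp_apply, map_add, map_add, hπι, hπ0 c hc, add_zero] at h
      rw [h, map_zero, zero_add]
      exact hc
    · intro h
      rw [LinearMap.comp_apply]
      exact hπ0 _ h
  · intro w
    exact ⟨ι w, hfix w, hπι w⟩

end main

end Pool.Agent.PP.D1.H67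
end
end -- Pool.Agent.Helper67_D1.Sud

section -- Pool.Agent.Helper29_D2.Sud

/-!
# Squad PP, part D2, module SUD: every irreducible representation of `N_G(P₁)` over `b₁` occurs
-/

open scoped BigOperators

set_option linter.unusedSectionVars false

noncomputable section

namespace Pool.Agent.PP.CD2.H29

open Pool.Agent.PP Pool.Agent.Helper51_AWC Pool.Agent.Helper79_WRA

section emb

variable {F : Type} [Field F] {G : Type} [Group G] [Finite G]

/-- an embedding of `κ` outside of the norm -/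
structure EmbW (N : Subgroup G) {m : ℕ} (κ : N →* Matrix (Fin m) (Fin m) F) {V : Type}
    [AddCommGroup V] [Module F V] (ρ : Representation F G V) (w : G → F) (r : ℕ)
    (ι : (Fin m → F) →ₗ[F] V) : Prop where
  int : ∀ (n : N) (u : Fin m → F), ι ((κ n).mulVec u) = ρ n (ι u)
  nt : ∃ u, ι u ∉ rngW ρ w r

theorem evV_int {V V' : Type} [AddCommGroup V] [Module F V] [AddCommGroup V'] [Module F V']
    {ρ : Representation F G V} {ρ' : Representation F G V'} {φ : V →ₗ[F] V'}
    (h : ∀ g v, φ (ρ g v) = ρ' g (φ v)) (a : G → F) (v : V) :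
    φ (evV ρ a v) = evV ρ' a (φ v) := by
  have := Fintype.ofFinite G
  rw [D66.evV_apply, D66.evV_apply, map_sum]
  refine Finset.sum_congr rfl fun g _ => ?_
  rw [map_smul, h]

theorem evV_int_pow {V V' : Type} [AddCommGroup V] [Module F V] [AddCommGroup V'] [Module F V']
    {ρ : Representation F G V} {ρ' : Representation F G V'} {φ : V →ₗ[F] V'}
    (h : ∀ g v, φ (ρ g v) = ρ' g (φ v)) (a : G → F) (r : ℕ) (v : V) :
    φ (((evV ρ a) ^ r) v) = ((evV ρ' a) ^ r) (φ v) := by
  induction r with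
  | zero => rw [pow_zero, pow_zero]; rfl
  | succ r ih =>
    rw [pow_succ', pow_succ', Module.End.mul_apply, Module.End.mul_apply, evV_int h, ih]

theorem mem_rngW {V : Type} [AddCommGroup V] [Module F V] {ρ : Representation F G V}
    {w : G → F} {r : ℕ} {v : V} : v ∈ rngW ρ w r ↔ ∃ y, ((evV ρ w) ^ r) y = v := Iff.rfl

/-- the induced module, the embedding and the evaluation at one -/
theorem exists_ind {N : Subgroup G} {m : ℕ} (κ : N →* Matrix (Fin m) (Fin m) F) :
    ∃ (V : Type) (_ : AddCommGroup V) (_ : Module F V) (_ : FiniteDimensional F V)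
      (ρ : Representation F G V) (ι : (Fin m → F) →ₗ[F] V) (E : V →ₗ[F] (Fin m → F)),
      (∀ (n : N) (u : Fin m → F), ι ((κ n).mulVec u) = ρ n (ι u)) ∧ (∀ u, E (ι u) = u) ∧
      ∀ (n : N) (v : V), E (ρ n v) = (κ n).mulVec (E v) := by
  classical
  let τ : Representation F N (Fin m → F) := mrep κ
  have hτ : ∀ n w, τ n w = (κ n).mulVec w := fun n w => rfl
  let Y : Submodule F (G → (Fin m → F)) := Representation.coindV N.subtype τ
  let ρ : Representation F G Y := Representation.coind N.subtype τ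
  have hρ : ∀ (g : G) (y : Y) (x : G), (ρ g y : G → (Fin m → F)) x = (y : G → (Fin m → F)) (x * g) :=
    fun g y x => rfl
  let ι₀ : (Fin m → F) →ₗ[F] (G → (Fin m → F)) :=
    { toFun := fun w x => if h : x ∈ N then (κ ⟨x, h⟩).mulVec w else 0
      map_add' := by
        intro a b
        funext x
        by_cases h : x ∈ N
        · simp only [h, dif_pos, Pi.add_apply, Matrix.mulVec_add]
        · simp only [h, dif_neg, not_false_eq_true, Pi.add_apply, add_zero]
      map_smul' := by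
        intro c a
        funext x
        by_cases h : x ∈ N
        · simp only [h, dif_pos, Pi.smul_apply, Matrix.mulVec_smul, RingHom.id_apply]
        · simp only [h, dif_neg, not_false_eq_true, Pi.smul_apply, smul_zero] }
  have hι1 : ∀ w (x : N), ι₀ w x = (κ x).mulVec w := by
    intro w x
    change (if h : (x : G) ∈ N then (κ ⟨x, h⟩).mulVec w else 0) = _
    rw [dif_pos x.2]
  have hι0 : ∀ w x, x ∉ N → ι₀ w x = 0 := by
    intro w x hx
    change (if h : x ∈ N then (κ ⟨x, h⟩).mulVec w else 0) = _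
    rw [dif_neg hx]
  have hιY : ∀ w, ι₀ w ∈ Y := by
    intro w
    rw [Representation.mem_coindV]
    intro n x
    change ι₀ w ((n : G) * x) = (κ n).mulVec (ι₀ w x)
    by_cases hx : x ∈ N
    · have h1 := hι1 w (n * ⟨x, hx⟩)
      have h2 := hι1 w ⟨x, hx⟩
      rw [Subgroup.coe_mul] at h1
      rw [h1, h2, Matrix.mulVec_mulVec, ← map_mul]
    · rw [hι0 w x hx, Matrix.mulVec_zero, hι0]
      intro h
      exact hx ((Subgroup.mul_mem_cancel_left N n.2).1 h)
  let ι : (Fin m → F) →ₗ[F] Y := ι₀.codRestrict Y hιY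
  have hι : ∀ w x, (ι w : G → (Fin m → F)) x = ι₀ w x := fun w x => rfl
  let E : Y →ₗ[F] (Fin m → F) := (LinearMap.proj (1 : G)) ∘ₗ Y.subtype
  have hE : ∀ y : Y, E y = (y : G → (Fin m → F)) 1 := fun y => rfl
  refine ⟨Y, inferInstance, inferInstance, inferInstance, ρ, ι, E, ?_, ?_, ?_⟩
  · intro n w
    apply Subtype.ext
    funext x
    rw [hι, hρ, hι]
    by_cases hx : x ∈ N
    · have h1 := hι1 w (⟨x, hx⟩ * n)
      have h2 := hι1 ((κ n).mulVec w) ⟨x, hx⟩
      rw [Subgroup.coe_mul] at h1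
      rw [h1, h2, Matrix.mulVec_mulVec, ← map_mul]
    · rw [hι0 _ x hx, hι0]
      intro h
      exact hx ((Subgroup.mul_mem_cancel_right N n.2).1 h)
  · intro u
    rw [hE, hι]
    have h3 := hι1 u 1
    rw [map_one, Matrix.one_mulVec] at h3
    exact h3
  · intro n v
    rw [hE, hE, hρ, one_mul]
    have h5 := (Representation.mem_coindV _ _ _).1 v.2 n 1
    rw [mul_one, hτ] at h5
    exact h5

/-- `a`, supported on `N`, and the evaluation -/
theorem evV_proj {N : Subgroup G} {m : ℕ} {κ : N →* Matrix (Fin m) (Fin m) F} {V : Type}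
    [AddCommGroup V] [Module F V] {ρ : Representation F G V} {E : V →ₗ[F] (Fin m → F)}
    (hE : ∀ (n : N) (v : V), E (ρ n v) = (κ n).mulVec (E v)) {a : G → F}
    (ha : ∀ x, x ∉ N → a x = 0) (v : V) :
    E (evV ρ a v) = (ev κ fun t : N => a t).mulVec (E v) := by
  have := Fintype.ofFinite G
  have := Fintype.ofFinite N
  rw [D66.evV_apply, D1.H67.sum_sub (N := N)]
  · unfold ev
    rw [finsum_eq_sum_of_fintype, Matrix.sum_mulVec, map_sum]
    refine Finset.sum_congr rfl fun n _ => ?_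
    rw [Matrix.smul_mulVec, map_smul, hE]
  · intro g hg
    rw [ha g hg, zero_smul]

end emb

section main

variable {F : Type} [Field F] {G : Type} [Group G] [Finite G]

theorem split_lin {V : Type} [AddCommGroup V] [Module F V] (A W : Submodule F V) :
    ∃ s : V →ₗ[F] V, ∀ v ∈ A ⊔ W, s v ∈ A ∧ v - s v ∈ W := by
  let f : (A × W) →ₗ[F] V := LinearMap.coprod A.subtype W.subtype
  have hf : LinearMap.range f = A ⊔ W := by
    rw [LinearMap.range_coprod, Submodule.range_subtype, Submodule.range_subtype]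
  obtain ⟨g, hg⟩ := f.rangeRestrict.exists_rightInverse_of_surjective f.range_rangeRestrict
  obtain ⟨s, hs⟩ := LinearMap.exists_extend (A.subtype ∘ₗ (LinearMap.fst F A W) ∘ₗ g)
  refine ⟨s, fun v hv => ?_⟩
  rw [← hf] at hv
  have h1 : s v = ((g ⟨v, hv⟩).1 : V) := by
    have := LinearMap.congr_fun hs ⟨v, hv⟩
    exact this
  have h2 : f (g ⟨v, hv⟩) = v := by
    have := LinearMap.congr_fun hg ⟨v, hv⟩
    have h3 := congrArg Subtype.val this
    exact h3
  have h4 : ((g ⟨v, hv⟩).1 : V) + ((g ⟨v, hv⟩).2 : V) = v := h2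
  rw [h1]
  refine ⟨(g ⟨v, hv⟩).1.2, ?_⟩
  have h5 : v - ((g ⟨v, hv⟩).1 : V) = ((g ⟨v, hv⟩).2 : V) := by
    rw [sub_eq_iff_eq_add, add_comm]
    exact h4.symm
  rw [h5]
  exact (g ⟨v, hv⟩).2.2

/-- `w` acts as zero on an irreducible representation of `N_G(P₁)`. -/
theorem w_zero (hstw : StwStmt) {ℓ : ℕ} [Fact ℓ.Prime] (hF : GoodF ℓ F) {n : ℕ} {P : Subgroup G}
    {y₁ : G} {b w : G → F} (hD : D2S ℓ n (⊤ : Subgroup G) P y₁ b w) {m : ℕ}
    (κ : NY y₁ →* Matrix (Fin m) (Fin m) F) (hκ : IsIrr κ) :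
    ∀ u, (ev κ fun t : NY y₁ => w t).mulVec u = 0 := by
  classical
  obtain ⟨V, _, _, _, ρ, ι, E, h1, h2, h3⟩ := exists_ind κ
  obtain ⟨-, -, -, -, -, hnil, hker, -, -, -, -⟩ := hstw ℓ F hF G n ⊤ P y₁ b w hD V ρ
  have hws : ∀ x, x ∉ NY y₁ → w x = 0 := by
    intro x hx
    refine H66.ums_sw hD.ums x fun h => hx (H66.CY_le_NY y₁ ?_)
    exact h.2
  have hw : ∀ u, evV ρ w (ι u) = ι ((ev κ fun t : NY y₁ => w t).mulVec u) := fun u =>
    D1.H67.evV_emb h1 hws u
  have hinj : ∀ u, ι u = 0 → u = 0 := by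
    intro u hu
    rw [← h2 u, hu, map_zero]
  set A := ev κ fun t : NY y₁ => w t with hA
  let K : Submodule F (Fin m → F) := LinearMap.ker (Matrix.mulVecLin A)
  have hK : ∀ u, u ∈ K ↔ A.mulVec u = 0 := fun u => Iff.rfl
  have hstb : Stb ⊤ (mrep κ) K := by
    intro x _ u hu
    rw [hK] at hu ⊢
    apply hinj
    have h4 : evV ρ w (ι u) = 0 := by rw [hw, hu, map_zero]
    have h5 := hker x x.2 _ h4
    rw [← h1, hw] at h5
    exact h5
  have hpow : ∀ (r : ℕ) u, ((evV ρ w) ^ r) (ι u) = ι (((Matrix.mulVecLin A) ^ r) u) := by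
    intro r
    induction r with
    | zero => intro u; rw [pow_zero, pow_zero]; rfl
    | succ r ih =>
      intro u
      rw [pow_succ, pow_succ, Module.End.mul_apply, Module.End.mul_apply, hw, ih]
      rfl
  have hnil' : (Matrix.mulVecLin A) ^ (ℓ ^ (n + 1)) = 0 := by
    apply LinearMap.ext
    intro u
    apply hinj
    rw [← hpow, hnil]
    rfl
  have hK0 : K ≠ ⊥ := by
    intro hb
    have hinj2 : Function.Injective (Matrix.mulVecLin A) := LinearMap.ker_eq_bot.1 hb
    have h6 : Function.Injective (((Matrix.mulVecLin A) ^ (ℓ ^ (n + 1)) :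
        (Fin m → F) →ₗ[F] (Fin m → F))) := by
      rw [Module.End.coe_pow]
      exact hinj2.iterate _
    rw [hnil'] at h6
    have h7 : (fun _ => 1 : Fin m → F) = 0 := h6 rfl
    exact one_ne_zero (congrFun h7 ⟨0, hκ.1⟩)
  have htop := D1.H71.top_of_stb hκ hstb hK0
  intro u
  rw [← hK, htop]
  trivial

/-- SUD for the normaliser itself -/
theorem exists_simple_w (hspa : SpaStmt) (hstw : StwStmt) {ℓ : ℕ} [Fact ℓ.Prime] (hF : GoodF ℓ F)
    {n : ℕ} {P : Subgroup G} {y₁ : G} {b w : G → F} (hD : D2S ℓ n (⊤ : Subgroup G) P y₁ b w)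
    {m : ℕ} (κ : NY y₁ →* Matrix (Fin m) (Fin m) F) (hκ : IsIrr κ)
    (hb : ev κ (fun t : NY y₁ => bY y₁ b t) = 1) (d : ℕ) :
    ∀ (V : Type) [AddCommGroup V] [Module F V] [FiniteDimensional F V] (ρ : Representation F G V)
    (ι : (Fin m → F) →ₗ[F] V), EmbW (NY y₁) κ ρ w (ℓ ^ (n + 1) - 1) ι → Module.finrank F V = d →
    ∃ (k : ℕ) (σ : G →* Matrix (Fin k) (Fin k) F) (ι' : (Fin m → F) →ₗ[F] (Fin k → F)), IsIrr σ ∧
      EmbW (NY y₁) κ (mrep σ) w (ℓ ^ (n + 1) - 1) ι' := by
  classical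
  have : IsAlgClosed F := hF.closed
  have hws : ∀ x, x ∉ NY y₁ → w x = 0 := by
    intro x hx
    refine H66.ums_sw hD.ums x fun h => hx (H66.CY_le_NY y₁ ?_)
    exact h.2
  have hbs : ∀ x, x ∉ NY y₁ → bY y₁ b x = 0 := by
    intro x hx
    refine H66.ums_sb hD.ums x fun h => hx (H66.CY_le_NY y₁ ?_)
    exact h.2
  have hw0 := w_zero hstw hF hD κ hκ
  have hq : 0 < ℓ ^ (n + 1) := pow_pos (Fact.out : ℓ.Prime).pos _
  induction d using Nat.strong_induction_on with
  | _ d ih =>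
  intro V _ _ _ ρ ι hι hd
  by_cases hs : ∀ W : Submodule F V, (∀ g, ∀ v ∈ W, ρ g v ∈ W) → W = ⊥ ∨ W = ⊤
  · have hnt : Nontrivial V := by
      obtain ⟨u, hu⟩ := hι.nt
      refine ⟨ι u, 0, fun h => hu ?_⟩
      rw [h]
      exact zero_mem _
    obtain ⟨k, σ, e, hσ, he⟩ := H55.irr_of_simple ρ hs
    refine ⟨k, σ, e.toLinearMap ∘ₗ ι, hσ, ?_, ?_⟩
    · intro t u
      rw [LinearMap.comp_apply, LinearMap.comp_apply, hι.int]
      exact he t (ι u)
    · obtain ⟨u, hu⟩ := hι.nt
      refine ⟨u, fun hmem => hu ?_⟩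
      obtain ⟨y, hy⟩ := hmem
      have he' : ∀ g v, e.symm.toLinearMap (mrep σ g v) = ρ g (e.symm.toLinearMap v) := by
        intro g v
        apply e.injective
        change e (e.symm _) = e (ρ g (e.symm v))
        rw [LinearEquiv.apply_symm_apply, he, LinearEquiv.apply_symm_apply]
        rfl
      have h1 := congrArg e.symm.toLinearMap hy
      rw [evV_int_pow he'] at h1
      refine ⟨e.symm.toLinearMap y, ?_⟩
      rw [h1]
      change e.symm (e (ι u)) = ι u
      rw [LinearEquiv.symm_apply_apply]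
  · push Not at hs
    obtain ⟨W, hW, hW0, hW1⟩ := hs
    by_cases hqt : ∀ u, ι u ∈ rngW ρ w (ℓ ^ (n + 1) - 1) ⊔ W
    · -- the embedding into `W`
      obtain ⟨-, -, -, -, -, hnil, -, -, hstb, -, -⟩ := hstw ℓ F hF G n ⊤ P y₁ b w hD V ρ
      obtain ⟨s0, hs0⟩ := split_lin (rngW ρ w (ℓ ^ (n + 1) - 1)) W
      have hT : Stb (⊤ ⊓ NY y₁) ρ (LinearMap.range ι) := by
        rintro x hx _ ⟨u, rfl⟩
        exact ⟨(κ ⟨x, hx.2⟩).mulVec u, hι.int ⟨x, hx.2⟩ u⟩
      have hwι : ∀ u, evV ρ w (ι u) = 0 := by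
        intro u
        rw [D1.H67.evV_emb hι.int hws, hw0, map_zero]
      obtain ⟨g', hg1, hg2⟩ := hspa ℓ F hF G n ⊤ P y₁ b w hD V V ρ ρ (LinearMap.range ι) hT
        (by
          rintro _ ⟨u, rfl⟩
          rw [D1.H67.evV_emb hι.int hbs, hb, Matrix.one_mulVec]) s0 (by
          rintro _ ⟨u, rfl⟩
          rw [hwι, map_zero]
          obtain ⟨y, hy⟩ := (hs0 _ (hqt u)).1
          rw [← hy, ← Module.End.mul_apply, ← pow_succ', Nat.sub_add_cancel hq, hnil]
          rfl)
      have hnrm : Stb (⊤ ⊓ NY y₁) ρ (rngW ρ w (ℓ ^ (n + 1) - 1)) := by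
        intro x hx
        exact hstb _ x hx.2
      have hWs : Stb (⊤ ⊓ NY y₁) ρ W := fun x _ v hv => hW x v hv
      have hg3 : ∀ u, g' (ι u) ∈ rngW ρ w (ℓ ^ (n + 1) - 1) := by
        intro u
        have := hg2 (LinearMap.range ι) le_rfl hT _ hnrm 0 (by
          intro k _ v _
          rw [LinearMap.zero_apply, LinearMap.zero_apply, map_zero]) (by
          rintro _ ⟨u', rfl⟩
          rw [LinearMap.zero_apply, sub_zero]
          exact (hs0 _ (hqt u')).1) (ι u) ⟨u, rfl⟩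
        rwa [LinearMap.zero_apply, sub_zero] at this
      have hg4 : ∀ u, ι u - g' (ι u) ∈ W := by
        intro u
        have := hg2 (LinearMap.range ι) le_rfl hT W hWs LinearMap.id (by
          intro k _ v _
          rfl) (by
          rintro _ ⟨u', rfl⟩
          rw [LinearMap.id_apply, ← neg_sub]
          exact W.neg_mem (hs0 _ (hqt u')).2) (ι u) ⟨u, rfl⟩
        rw [LinearMap.id_apply, ← neg_sub] at this
        exact neg_mem_iff.1 this
      let τ : Representation F G W := ρ.subrepresentation W (fun g v hv => hW g v hv)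
      let ι' : (Fin m → F) →ₗ[F] W := (ι - g' ∘ₗ ι).codRestrict W hg4
      refine ih (Module.finrank F W) ?_ W τ ι' ⟨?_, ?_⟩ rfl
      · rw [← hd]
        exact Submodule.finrank_lt hW1
      · intro x u
        apply Subtype.ext
        change ι ((κ x).mulVec u) - g' (ι ((κ x).mulVec u)) = ρ x (ι u - g' (ι u))
        rw [hι.int, hg1 x ⟨trivial, x.2⟩ (ι u) ⟨u, rfl⟩, map_sub]
      · obtain ⟨u, hu⟩ := hι.nt
        refine ⟨u, fun hmem => hu ?_⟩
        obtain ⟨y, hy⟩ := hmem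
        have hsub : ∀ g v, W.subtype (τ g v) = ρ g (W.subtype v) := fun g v => rfl
        have h1 := congrArg W.subtype hy
        rw [evV_int_pow hsub] at h1
        have h2 : ((evV ρ w) ^ (ℓ ^ (n + 1) - 1)) (W.subtype y) = ι u - g' (ι u) := h1
        have h3 : ι u - g' (ι u) ∈ rngW ρ w (ℓ ^ (n + 1) - 1) := ⟨_, h2⟩
        have h4 := Submodule.add_mem _ h3 (hg3 u)
        rwa [sub_add_cancel] at h4
    · -- the embedding into `V / W`
      push Not at hqt
      obtain ⟨u, hu⟩ := hqt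
      let τ : Representation F G (V ⧸ W) := ρ.quotient W (fun g v hv => hW g v hv)
      refine ih (Module.finrank F (V ⧸ W)) ?_ (V ⧸ W) τ (W.mkQ ∘ₗ ι) ⟨?_, u, ?_⟩ rfl
      · have h1 := Submodule.finrank_quotient_add_finrank W
        have h2 : 0 < Module.finrank F W := by
          rw [Nat.pos_iff_ne_zero, Ne, Submodule.finrank_eq_zero]
          exact hW0
        omega
      · intro x u'
        rw [LinearMap.comp_apply, hι.int]
        rfl
      · intro hmem
        apply hu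
        obtain ⟨y, hy⟩ := hmem
        obtain ⟨y, rfl⟩ := W.mkQ_surjective y
        have hquo : ∀ g v, W.mkQ (ρ g v) = τ g (W.mkQ v) := fun g v => rfl
        rw [← evV_int_pow hquo, LinearMap.comp_apply, Submodule.mkQ_apply, Submodule.mkQ_apply,
          Submodule.Quotient.eq] at hy
        have h2 : ι u = ((evV ρ w) ^ (ℓ ^ (n + 1) - 1)) y +
            -(((evV ρ w) ^ (ℓ ^ (n + 1) - 1)) y - ι u) := by abel
        rw [h2]
        exact Submodule.add_mem_sup ⟨y, rfl⟩ (W.neg_mem hy)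

/-- SUD for the normaliser itself -/
theorem sud_L (hspa : SpaStmt) (hkey : KeyStmt) (hprt : PrtStmt) (hebq : EbqStmt)
    (hstw : StwStmt) (heig : EigStmt) {ℓ : ℕ} [Fact ℓ.Prime] (hF : GoodF ℓ F)
    {n : ℕ} {P : Subgroup G} {y₁ : G} {b w : G → F} (hD : D2S ℓ n (⊤ : Subgroup G) P y₁ b w)
    {m : ℕ} (κ : NY y₁ →* Matrix (Fin m) (Fin m) F) (hκ : IsIrr κ)
    (hb : ev κ (fun t : NY y₁ => bY y₁ b t) = 1) :
    ∃ (k : ℕ) (σ : G →* Matrix (Fin k) (Fin k) F) (ι : (Fin m → F) →ₗ[F] (Fin k → F)),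
      IsIrr σ ∧ ev σ b = 1 ∧ EmbW (NY y₁) κ (mrep σ) w (ℓ ^ (n + 1) - 1) ι ∧
      (∀ u, ι u ∈ fixW (mrep σ) (bY y₁ b) w) ∧
      fixW (mrep σ) (bY y₁ b) w ≤ LinearMap.range ι ⊔ rngW (mrep σ) w (ℓ ^ (n + 1) - 1) := by
  classical
  have : IsAlgClosed F := hF.closed
  have hws : ∀ x, x ∉ NY y₁ → w x = 0 := by
    intro x hx
    refine H66.ums_sw hD.ums x fun h => hx (H66.CY_le_NY y₁ ?_)
    exact h.2
  have hbs : ∀ x, x ∉ NY y₁ → bY y₁ b x = 0 := by
    intro x hx
    refine H66.ums_sb hD.ums x fun h => hx (H66.CY_le_NY y₁ ?_)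
    exact h.2
  have hw0 := w_zero hstw hF hD κ hκ
  have hℓ2 : 2 ≤ ℓ ^ (n + 1) := by
    calc 2 ≤ ℓ := (Fact.out : ℓ.Prime).two_le
      _ = ℓ ^ 1 := (pow_one ℓ).symm
      _ ≤ ℓ ^ (n + 1) := Nat.pow_le_pow_right (Fact.out : ℓ.Prime).pos (by omega)
  -- the induced module
  obtain ⟨V, _, _, _, ρ, ι₀, E, h1, h2, h3⟩ := exists_ind κ
  have hι₀ : EmbW (NY y₁) κ ρ w (ℓ ^ (n + 1) - 1) ι₀ := by
    refine ⟨h1, fun _ => 1, ?_⟩
    rintro ⟨y, hy⟩
    obtain ⟨r, hr⟩ : ∃ r, ℓ ^ (n + 1) - 1 = r + 1 := ⟨ℓ ^ (n + 1) - 2, by omega⟩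
    rw [hr, pow_succ', Module.End.mul_apply] at hy
    have h4 := congrArg E hy
    rw [evV_proj h3 hws, hw0, h2] at h4
    exact one_ne_zero (congrFun h4 ⟨0, hκ.1⟩).symm
  obtain ⟨k, σ, ι, hσ, hι⟩ := exists_simple_w hspa hstw hF hD κ hκ hb _ V ρ ι₀ hι₀ rfl
  obtain ⟨hs1, hs2, hs3, hs4, hs5, hnil, hker, hnf, hstb, hfstb, -⟩ :=
    hstw ℓ F hF G n ⊤ P y₁ b w hD (Fin k → F) (mrep σ)
  have hwι : ∀ u, evV (mrep σ) w (ι u) = 0 := by
    intro u
    rw [D1.H67.evV_emb hι.int hws, hw0, map_zero]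
  have hbι : ∀ u, evV (mrep σ) (bY y₁ b) (ι u) = ι u := by
    intro u
    rw [D1.H67.evV_emb hι.int hbs, hb, Matrix.one_mulVec]
  have hfix : ∀ u, ι u ∈ fixW (mrep σ) (bY y₁ b) w := fun u => ⟨hbι u, hwι u⟩
  -- `b` acts as the identity
  have hσb : ev σ b = 1 := by
    obtain ⟨c, h4, -, h5⟩ := heig F G k σ hσ b hD.idem.1
    rcases h5 hD.idem with h6 | h6
    · exfalso
      obtain ⟨u, hu⟩ := hι.nt
      apply hu
      have h7 := hebq ℓ F G n P y₁ hD.cyc hD.card hD.mem hD.ord (Fin k → F) (mrep σ) b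
        (H66.cmF_of_cl hD.idem.1 P)
      have h8 := hprt ℓ F hF G n ⊤ P y₁ b w hD (Fin k → F) (Fin k → F) (mrep σ) (mrep σ)
        (evV (mrep σ) b - evV (mrep σ) (bY y₁ b)) (by
          intro x hx v
          rw [LinearMap.sub_apply, LinearMap.sub_apply, map_sub, hs1 x hx.2,
            H66.evV_cm (mrep σ) (H66.cmF_of_cl hD.idem.1 ⊤) (Subgroup.mem_top x)]) h7 1
        (by omega) (ι u) (hbι u) (by rw [pow_one]; exact hwι u)
      rw [LinearMap.sub_apply, hbι, D1.H67.evV_mrep, h4, h6, map_zero, Matrix.zero_mulVec,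
        zero_sub] at h8
      exact neg_mem_iff.1 h8
    · rw [h4, h6, map_one]
  refine ⟨k, σ, ι, hσ, hσb, hι, hfix, ?_⟩
  have hst : Stb (NY y₁) (mrep σ)
      (LinearMap.range ι ⊔ rngW (mrep σ) w (ℓ ^ (n + 1) - 1)) := by
    apply D1.H71.stb_sup
    · rintro g hg _ ⟨u, rfl⟩
      exact ⟨(κ ⟨g, hg⟩).mulVec u, hι.int ⟨g, hg⟩ u⟩
    · exact hstb _
  have hlt : rngW (mrep σ) w (ℓ ^ (n + 1) - 1) <
      LinearMap.range ι ⊔ rngW (mrep σ) w (ℓ ^ (n + 1) - 1) := by
    refine lt_of_le_of_ne le_sup_right fun h => ?_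
    obtain ⟨u, hu⟩ := hι.nt
    apply hu
    rw [h]
    exact Submodule.mem_sup_left ⟨u, rfl⟩
  have hle : LinearMap.range ι ⊔ rngW (mrep σ) w (ℓ ^ (n + 1) - 1) ≤
      fixW (mrep σ) (bY y₁ b) w := by
    refine sup_le ?_ hnf
    rintro _ ⟨u, rfl⟩
    exact hfix u
  have htop : (⊤ : Subgroup G).Normal := inferInstance
  obtain ⟨Z, hZ0, hZs, hZ⟩ := hkey ℓ F hF G n ⊤ P y₁ b w hD (Fin k → F) (mrep σ)
    (fun v => by rw [D1.H67.evV_mrep, hσb, Matrix.one_mulVec]) (D1.H71.nsoc_irr htop hσ)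
    (LinearMap.range ι ⊔ rngW (mrep σ) w (ℓ ^ (n + 1) - 1)) hlt hle hst
  rw [D1.H71.top_of_stb hσ hZs hZ0, top_inf_eq] at hZ
  exact hZ

/-- SUD. -/
theorem sud (hspa : SpaStmt) (hkey : KeyStmt) (hprt : PrtStmt) (hebq : EbqStmt)
    (hstw : StwStmt) (heig : EigStmt) : SudStmt := by
  classical
  intro ℓ _ F _ hF G _ _ n P y₁ b w hD A _ _ j hj hr m κ hκ hb
  have := Fintype.ofFinite A
  let e : A ≃* NY y₁ :=
    (MonoidHom.ofInjective hj).trans (MulEquiv.subgroupCongr hr)
  have he : ∀ x, ((e x : NY y₁) : G) = j x := fun x => rfl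
  let κ' : NY y₁ →* Matrix (Fin m) (Fin m) F :=
    κ.comp e.symm.toMonoidHom
  have hκe : ∀ x, κ' (e x) = κ x := by
    intro x
    change κ (e.symm (e x)) = κ x
    rw [MulEquiv.symm_apply_apply]
  have hκ' : IsIrr κ' := by
    refine ⟨hκ.1, ?_⟩
    have h1 : Set.range κ' = Set.range κ := by
      apply Set.Subset.antisymm
      · rintro _ ⟨t, rfl⟩
        exact ⟨e.symm t, rfl⟩
      · rintro _ ⟨x, rfl⟩
        exact ⟨e x, hκe x⟩
    rw [h1]
    exact hκ.2
  have hb' : ev κ' (fun t : NY y₁ => bY y₁ b t) = 1 := by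
    have := Fintype.ofFinite (NY y₁)
    rw [← hb]
    unfold ev
    rw [finsum_eq_sum_of_fintype, finsum_eq_sum_of_fintype]
    symm
    refine Fintype.sum_equiv e.toEquiv _ _ fun x => ?_
    change bY y₁ b (j x) • κ x = bY y₁ b (e x : NY y₁) • κ' (e x)
    rw [he, hκe]
  obtain ⟨k, σ, ι, hσ, hσb, hι, hfix, hle⟩ := sud_L hspa hkey hprt hebq hstw heig hF hD κ' hκ' hb'
  obtain ⟨-, -, -, -, -, -, -, -, hstb, -, -⟩ :=
    hstw ℓ F hF G n ⊤ P y₁ b w hD (Fin k → F) (mrep σ)
  have hinj : LinearMap.ker ((rngW (mrep σ) w (ℓ ^ (n + 1) - 1)).mkQ ∘ₗ ι) = ⊥ := by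
    by_contra hne
    have h1 : Stb ⊤ (mrep κ') (LinearMap.ker ((rngW (mrep σ) w (ℓ ^ (n + 1) - 1)).mkQ ∘ₗ ι)) := by
      intro x _ u hu
      rw [LinearMap.mem_ker, LinearMap.comp_apply, Submodule.mkQ_apply,
        Submodule.Quotient.mk_eq_zero] at hu ⊢
      have h2 := hstb (ℓ ^ (n + 1) - 1) x x.2 _ hu
      rw [← hι.int] at h2
      exact h2
    have h3 := D1.H71.top_of_stb hκ' h1 hne
    obtain ⟨u, hu⟩ := hι.nt
    apply hu
    have h4 : u ∈ LinearMap.ker ((rngW (mrep σ) w (ℓ ^ (n + 1) - 1)).mkQ ∘ₗ ι) := by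
      rw [h3]
      trivial
    rw [LinearMap.mem_ker, LinearMap.comp_apply, Submodule.mkQ_apply,
      Submodule.Quotient.mk_eq_zero] at h4
    exact h4
  obtain ⟨q, hq⟩ := LinearMap.exists_leftInverse_of_injective _ hinj
  have hπι : ∀ u, q ((rngW (mrep σ) w (ℓ ^ (n + 1) - 1)).mkQ (ι u)) = u :=
    fun u => LinearMap.congr_fun hq u
  have hπ0 : ∀ v ∈ rngW (mrep σ) w (ℓ ^ (n + 1) - 1),
      q ((rngW (mrep σ) w (ℓ ^ (n + 1) - 1)).mkQ v) = 0 := by
    intro v hv
    rw [Submodule.mkQ_apply, (Submodule.Quotient.mk_eq_zero _).2 hv, map_zero]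
  refine ⟨k, σ, q ∘ₗ (rngW (mrep σ) w (ℓ ^ (n + 1) - 1)).mkQ, hσ, hσb, ?_, ?_, ?_⟩
  · intro x v hv
    obtain ⟨_, ⟨u, rfl⟩, c, hc, rfl⟩ := Submodule.mem_sup.1 (hle hv)
    rw [map_add, ← he, ← hι.int, hκe, LinearMap.comp_apply, LinearMap.comp_apply, map_add, map_add,
      map_add, map_add, hπι, hπι, hπ0 c hc, hπ0 _ (hstb _ (e x) (e x).2 c hc), add_zero,
      add_zero]
  · intro v hv
    obtain ⟨_, ⟨u, rfl⟩, c, hc, rfl⟩ := Submodule.mem_sup.1 (hle hv)
    constructor
    · intro h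
      rw [LinearMap.comp_apply, map_add, map_add, hπι, hπ0 c hc, add_zero] at h
      rw [h, map_zero, zero_add]
      exact hc
    · intro h
      rw [LinearMap.comp_apply]
      exact hπ0 _ h
  · intro u
    exact ⟨ι u, hfix u, hπι u⟩

end main

end Pool.Agent.PP.CD2.H29
end
end -- Pool.Agent.Helper29_D2.Sud

section -- Pool.Agent.Helper62_D2.Dzb

/-!
# Squad PP, part D2: module DZB

A block which is a relative trace from the trivial subgroup is a matrix algebra.
-/

open scoped BigOperators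

set_option linter.unusedSectionVars false

noncomputable section

namespace Pool.Agent.PP.CD2.H62

open Pool.Agent.PP Pool.Agent.Helper51_AWC Pool.Agent.Helper79_WRA

variable {F : Type} [Field F] {G : Type} [Group G] [Finite G]

/-- `a` acts as zero in all irreducible representations -/
def Zr (a : G → F) : Prop :=
  ∀ (n : ℕ) (ρ : G →* Matrix (Fin n) (Fin n) F), IsIrr ρ → ev ρ a = 0

theorem cent {e : G → F} (he : IsIdem e) (y : MonoidAlgebra F G) : ma e * y = y * ma e := by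
  have h := ((isIdem_iff e).1 he).1
  rw [Subalgebra.mem_center_iff] at h
  exact (h y).symm

theorem idem {e : G → F} (he : IsIdem e) : ma e * ma e = ma e := ((isIdem_iff e).1 he).2

theorem zr_ma {x : MonoidAlgebra F G} {a : G → F} (h : ma a = x) : Zr a ↔
    ∀ (n : ℕ) (ρ : G →* Matrix (Fin n) (Fin n) F), IsIrr ρ → repA ρ x = 0 := by
  unfold Zr
  simp only [ev_eq, h]

/-- the elements under `e` which act as zero in all irreducible representations -/
def Jd (e : G → F) : Submodule F (MonoidAlgebra F G) where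
  carrier := {x | ma e * x = x ∧
    ∀ (n : ℕ) (ρ : G →* Matrix (Fin n) (Fin n) F), IsIrr ρ → repA ρ x = 0}
  add_mem' := by
    rintro x y ⟨h1, h2⟩ ⟨h3, h4⟩
    exact ⟨by rw [mul_add, h1, h3], fun n ρ hρ => by rw [map_add, h2 n ρ hρ, h4 n ρ hρ, add_zero]⟩
  zero_mem' := ⟨mul_zero _, fun _ _ _ => map_zero _⟩
  smul_mem' := by
    rintro c x ⟨h1, h2⟩
    exact ⟨by rw [mul_smul_comm, h1], fun n ρ hρ => by rw [map_smul, h2 n ρ hρ, smul_zero]⟩

theorem jd_mul {e : G → F} (he : IsIdem e) (y : MonoidAlgebra F G) {x : MonoidAlgebra F G}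
    (hx : x ∈ Jd e) : y * x ∈ Jd e := by
  refine ⟨?_, fun n ρ hρ => ?_⟩
  · rw [← mul_assoc, cent he, mul_assoc, hx.1]
  · rw [map_mul, hx.2 n ρ hρ, mul_zero]

/-- the averaged projection -/
def av (z : MonoidAlgebra F G) (r : MonoidAlgebra F G →ₗ[F] MonoidAlgebra F G) :
    MonoidAlgebra F G →ₗ[F] MonoidAlgebra F G :=
  letI := Fintype.ofFinite G
  ∑ g : G, (LinearMap.mulLeft F (MonoidAlgebra.single g (1 : F) * z)) ∘ₗ r ∘ₗ
    (LinearMap.mulLeft F (MonoidAlgebra.single g⁻¹ (1 : F)))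

theorem av_apply [Fintype G] (z : MonoidAlgebra F G)
    (r : MonoidAlgebra F G →ₗ[F] MonoidAlgebra F G) (x : MonoidAlgebra F G) :
    av z r x = ∑ g : G, MonoidAlgebra.single g (1 : F) * z *
      r (MonoidAlgebra.single g⁻¹ (1 : F) * x) := by
  unfold av
  rw [LinearMap.sum_apply]
  have e : Fintype.ofFinite G = ‹Fintype G› := Subsingleton.elim _ _
  rw [e]
  rfl

theorem sgl_mul (g h : G) : (MonoidAlgebra.single g (1 : F) : MonoidAlgebra F G) *
    MonoidAlgebra.single h (1 : F) = MonoidAlgebra.single (g * h) (1 : F) := by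
  rw [MonoidAlgebra.single_mul_single, mul_one]

theorem sgl_one : (MonoidAlgebra.single (1 : G) (1 : F) : MonoidAlgebra F G) = 1 := rfl

/-- the averaged projection is linear over the group ring -/
theorem av_mul (z : MonoidAlgebra F G) (r : MonoidAlgebra F G →ₗ[F] MonoidAlgebra F G)
    (y x : MonoidAlgebra F G) : av z r (y * x) = y * av z r x := by
  have := Fintype.ofFinite G
  induction y using MonoidAlgebra.induction_linear with
  | zero => rw [zero_mul, zero_mul, map_zero]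
  | add f g hf hg => rw [add_mul, add_mul, map_add, hf, hg]
  | single h c =>
    have e : (MonoidAlgebra.single h c : MonoidAlgebra F G) =
        c • (MonoidAlgebra.single h 1 : MonoidAlgebra F G) := by
      rw [MonoidAlgebra.smul_single, smul_eq_mul, mul_one]
    rw [e, smul_mul_assoc, map_smul, smul_mul_assoc]
    congr 1
    rw [av_apply, av_apply, Finset.mul_sum]
    symm
    refine Fintype.sum_equiv (Equiv.mulLeft h) _ _ fun g => ?_
    change _ = MonoidAlgebra.single (h * g) (1 : F) * z *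
      r (MonoidAlgebra.single (h * g)⁻¹ (1 : F) * (MonoidAlgebra.single h (1 : F) * x))
    rw [← mul_assoc (MonoidAlgebra.single (h * g)⁻¹ (1 : F)), sgl_mul, ← sgl_mul h g]
    have e2 : (h * g)⁻¹ * h = g⁻¹ := by group
    rw [e2]
    simp only [mul_assoc]

/-- the relative trace from the trivial subgroup -/
theorem prj_sum [Fintype G] {e : G → F} (hp : PrjB (⊤ : Subgroup G) ⊥ e) : ∃ z : G → F,
    ma e = ∑ g : G, MonoidAlgebra.single g (1 : F) * ma z * MonoidAlgebra.single g⁻¹ (1 : F) := by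
  obtain ⟨c, z, hc, -, -, h⟩ := hp
  refine ⟨z, ?_⟩
  have hc1 : ∀ g : G, c g = 1 := by
    intro g
    have h1 := hc.sum g (Subgroup.mem_top g)
    rw [finsum_eq_single (fun p : (⊥ : Subgroup G) => c (g * p)) 1] at h1
    · rw [OneMemClass.coe_one, mul_one] at h1
      exact h1
    · intro p hp
      exact absurd (Subsingleton.elim p 1) hp
  have h2 : ∀ g : G, MonoidAlgebra.single g (1 : F) * ma z * MonoidAlgebra.single g⁻¹ (1 : F) =
      ma (fun y => z (g⁻¹ * y * g)) := fun g => (H66.toMA_conj g z).symm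
  rw [Finset.sum_congr rfl fun g _ => h2 g, ← ma_sum]
  congr 1
  funext y
  rw [h y, finsum_eq_sum_of_fintype, Finset.sum_apply]
  exact Finset.sum_congr rfl fun g _ => by rw [hc1, one_mul]

/-- no nilpotent elements -/
theorem jz {ℓ : ℕ} (hF : GoodF ℓ F) (ibn : IbnStmt) {e : G → F} (he : IsIdem e)
    (hp : PrjB (⊤ : Subgroup G) ⊥ e) {a : G → F} (h1 : mulF e a = a) (h2 : Zr a) : a = 0 := by
  have := Fintype.ofFinite G
  obtain ⟨z, hz⟩ := prj_sum hp
  obtain ⟨p, hpp⟩ := LinearMap.exists_leftInverse_of_injective (Jd e).subtype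
    (Submodule.ker_subtype _)
  set r : MonoidAlgebra F G →ₗ[F] MonoidAlgebra F G := (Jd e).subtype ∘ₗ p with hr
  have hr1 : ∀ x, r x ∈ Jd e := fun x => (p x).2
  have hr2 : ∀ x ∈ Jd e, r x = x := by
    intro x hx
    have := LinearMap.congr_fun hpp ⟨x, hx⟩
    change (p x : MonoidAlgebra F G) = x
    exact congrArg Subtype.val this
  have hav1 : ∀ x, av (ma z) r x ∈ Jd e := by
    intro x
    rw [av_apply]
    exact Submodule.sum_mem _ fun g _ => jd_mul he _ (hr1 _)
  have hav2 : ∀ x ∈ Jd e, av (ma z) r x = x := by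
    intro x hx
    rw [av_apply]
    have h3 : ∀ g : G, MonoidAlgebra.single g (1 : F) * ma z *
        r (MonoidAlgebra.single g⁻¹ (1 : F) * x) =
        (MonoidAlgebra.single g (1 : F) * ma z * MonoidAlgebra.single g⁻¹ (1 : F)) * x := by
      intro g
      rw [hr2 _ (jd_mul he _ hx), ← mul_assoc]
    rw [Finset.sum_congr rfl fun g _ => h3 g, ← Finset.sum_mul, ← hz]
    exact hx.1
  have hx : ma a ∈ Jd e := ⟨by rw [← ma_mul, h1], (zr_ma rfl).1 h2⟩
  set u := av (ma z) r (ma e) with hu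
  obtain ⟨u', hu'⟩ := ma_surjective u
  have hn : ∃ k : ℕ, u ^ k = 0 := by
    obtain ⟨k, hk⟩ := ibn ℓ F hF G u' ((zr_ma hu').2 (hav1 _).2)
    refine ⟨k + 1, ?_⟩
    have := congrArg ma hk
    rw [ma_iterate, hu', ma_zero] at this
    rw [pow_succ, this]
  obtain ⟨k, hk⟩ := hn
  have h4 : ma a = ma a * u := by
    conv_lhs => rw [← hav2 _ hx, ← hx.1, cent he, av_mul]
  have h5 : ∀ m : ℕ, ma a = ma a * u ^ m := by
    intro m
    induction m with
    | zero => rw [pow_zero, mul_one]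
    | succ m ih => rw [pow_succ, ← mul_assoc, ← ih, ← h4]
  have h6 := h5 k
  rw [hk, mul_zero] at h6
  exact ma_injective (h6.trans ma_zero.symm)

/-- the value of a block idempotent -/
theorem ev_e (eig : EigStmt) {e : G → F} (he : IsIdem e) {n : ℕ}
    {ρ : G →* Matrix (Fin n) (Fin n) F} (hρ : IsIrr ρ) : ev ρ e = 0 ∨ ev ρ e = 1 := by
  obtain ⟨w, h1, -, h3⟩ := eig F G n ρ hρ e he.1
  rcases h3 he with h | h
  · left
    rw [h1, h, map_zero]
  · right
    rw [h1, h, map_one]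

theorem one_ne {n : ℕ} (hn : 0 < n) : (1 : Matrix (Fin n) (Fin n) F) ≠ 0 := by
  intro h
  have := congrFun (congrFun h ⟨0, hn⟩) ⟨0, hn⟩
  rw [Matrix.one_apply_eq, Matrix.zero_apply] at this
  exact one_ne_zero this

theorem ex_irr {ℓ : ℕ} (hF : GoodF ℓ F) (ibn : IbnStmt) (eig : EigStmt) {e : G → F}
    (he : IsIdem e) (h0 : e ≠ 0) (hp : PrjB (⊤ : Subgroup G) ⊥ e) :
    ∃ (n : ℕ) (σ : G →* Matrix (Fin n) (Fin n) F), IsIrr σ ∧ ev σ e = 1 := by
  by_contra hcon
  push Not at hcon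
  apply h0
  refine jz hF ibn he hp he.2 fun n ρ hρ => ?_
  rcases ev_e eig he hρ with h | h
  · exact h
  · exact absurd h (hcon n ρ hρ)

/-- equal traces: equal zeros -/
theorem ev_conj {ℓ : ℕ} (hF : GoodF ℓ F) (ibc : IbcStmt) {n m : ℕ}
    {ρ : G →* Matrix (Fin n) (Fin n) F} {σ : G →* Matrix (Fin m) (Fin m) F} (hρ : IsIrr ρ)
    (hσ : IsIrr σ) (h : tr ρ = tr σ) (a : G → F) : (ev σ a = 0 → ev ρ a = 0) ∧
    (ev σ a = 1 → ev ρ a = 1) := by
  have := Fintype.ofFinite G
  obtain ⟨X, Y, -, -, hYX, hX⟩ := ibc ℓ F hF G n m ρ σ hρ hσ h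
  have h1 : X * ev ρ a = ev σ a * X := by
    unfold ev
    rw [finsum_eq_sum_of_fintype, finsum_eq_sum_of_fintype, Matrix.mul_sum, Matrix.sum_mul]
    refine Finset.sum_congr rfl fun t _ => ?_
    rw [Matrix.mul_smul, Matrix.smul_mul, hX]
  have h2 : ev ρ a = Y * (ev σ a * X) := by
    rw [← h1, ← Matrix.mul_assoc, hYX, Matrix.one_mul]
  constructor
  · intro h3
    rw [h2, h3, Matrix.zero_mul, Matrix.mul_zero]
  · intro h3
    rw [h2, h3, Matrix.one_mul, hYX]

/-- linear conditions -/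
theorem sub_e {e : G → F} {a c : G → F} (ha : mulF e a = a) (hc : mulF e c = c) :
    mulF e (a - c) = a - c := by
  apply ma_injective
  rw [ma_mul, ma_sub, mul_sub, ← ma_mul, ← ma_mul, ha, hc]

theorem ev_sub' {n : ℕ} (ρ : G →* Matrix (Fin n) (Fin n) F) (a c : G → F) :
    ev ρ (a - c) = ev ρ a - ev ρ c := by
  rw [ev_eq, ev_eq, ev_eq, ma_sub, map_sub]

/-- there is only one irreducible representation over the block -/
theorem uniq {ℓ : ℕ} (hF : GoodF ℓ F) (ibn : IbnStmt) (ibj : IbjStmt) (ibc : IbcStmt)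
    (ibf : IbfStmt) {e : G → F} (he : IsBlk e)
    (hp : PrjB (⊤ : Subgroup G) ⊥ e) {n m : ℕ} {σ : G →* Matrix (Fin n) (Fin n) F}
    {τ : G →* Matrix (Fin m) (Fin m) F} (hσ : IsIrr σ) (hτ : IsIrr τ) (hσe : ev σ e = 1)
    (hτe : ev τ e = 1) : tr τ = tr σ := by
  classical
  by_contra hne
  have hfin : Finite (IBr F G) := (ibf ℓ F hF G).1
  choose N ρ hρ using fun f : IBr F G => f.2
  have hinj : Function.Injective (fun f : IBr F G => tr (ρ f)) := by
    intro f g hfg
    change tr (ρ f) = tr (ρ g) at hfg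
    rw [← (hρ f).2, ← (hρ g).2] at hfg
    exact Subtype.ext hfg
  obtain ⟨a, ha⟩ := ibj ℓ F hF G (IBr F G) N ρ (fun f => (hρ f).1) hinj
    (fun f => if (f : G → F) = tr σ then 1 else 0)
  set g : G → F := mulF e a with hg
  have heg : mulF e g = g := by
    rw [hg, ← mulF_assoc, he.1.2]
  -- values of `g`
  have hv : ∀ (k : ℕ) (κ : G →* Matrix (Fin k) (Fin k) F), IsIrr κ →
      (tr κ = tr σ → ev κ g = 1) ∧ (tr κ ≠ tr σ → ev κ g = 0) := by
    intro k κ hκ
    set f : IBr F G := ⟨tr κ, k, κ, hκ, rfl⟩ with hf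
    have h1 : tr κ = tr (ρ f) := (hρ f).2
    have h2 := ha f
    constructor
    · intro h
      have h3 : ev (ρ f) a = 1 := by
        rw [h2, if_pos h]
      have h4 := (ev_conj hF ibc hκ (hρ f).1 h1 a).2 h3
      have h5 := (ev_conj hF ibc hκ hσ h e).2 hσe
      rw [hg, ev_mulF, h4, h5, Matrix.one_mul]
    · intro h
      have h3 : ev (ρ f) a = 0 := by
        rw [h2, if_neg h]
      have h4 := (ev_conj hF ibc hκ (hρ f).1 h1 a).1 h3
      rw [hg, ev_mulF, h4, Matrix.mul_zero]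
  have hv' : ∀ (k : ℕ) (κ : G →* Matrix (Fin k) (Fin k) F), IsIrr κ → ev κ g = 1 ∨ ev κ g = 0 := by
    intro k κ hκ
    by_cases h : tr κ = tr σ
    · exact Or.inl ((hv k κ hκ).1 h)
    · exact Or.inr ((hv k κ hκ).2 h)
  -- `g` is central
  have hcl : IsCl g := by
    rw [isCl_iff, Subalgebra.mem_center_iff]
    intro y
    obtain ⟨y', rfl⟩ := ma_surjective y
    have h1 : mulF y' g - mulF g y' = 0 := by
      refine jz hF ibn he.1 hp ?_ fun k κ hκ => ?_
      · apply sub_e
        · apply ma_injective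
          rw [ma_mul, ma_mul, ← mul_assoc, cent he.1, mul_assoc, ← ma_mul e g, heg]
        · rw [← mulF_assoc, heg]
      · rw [ev_sub', ev_mulF κ y' g, ev_mulF κ g y']
        rcases hv' k κ hκ with h | h
        · rw [h, Matrix.mul_one, Matrix.one_mul, sub_self]
        · rw [h, Matrix.mul_zero, Matrix.zero_mul, sub_self]
    have h2 := sub_eq_zero.1 h1
    rw [← ma_mul, ← ma_mul, h2]
  have hid : mulF g g = g := by
    have h1 : mulF g g - g = 0 := by
      refine jz hF ibn he.1 hp ?_ fun k κ hκ => ?_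
      · apply sub_e
        · rw [← mulF_assoc, heg]
        · exact heg
      · rw [ev_sub', ev_mulF κ g g]
        rcases hv' k κ hκ with h | h
        · rw [h, Matrix.mul_one, sub_self]
        · rw [h, Matrix.mul_zero, sub_self]
    exact sub_eq_zero.1 h1
  have hσg := (hv n σ hσ).1 rfl
  have hτg := (hv m τ hτ).2 hne
  rcases he.2.2 g ⟨hcl, hid⟩ with h | h
  · rw [heg] at h
    rw [h, hτe] at hτg
    exact one_ne hτ.1 hτg
  · rw [heg] at h
    rw [h, ev_eq, ma_zero, map_zero] at hσg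
    exact one_ne hσ.1 hσg.symm

/-- faithfulness -/
theorem zz {ℓ : ℕ} (hF : GoodF ℓ F) (ibn : IbnStmt) (ibj : IbjStmt) (ibc : IbcStmt)
    (eig : EigStmt) (ibf : IbfStmt) {e : G → F} (he : IsBlk e)
    (hp : PrjB (⊤ : Subgroup G) ⊥ e) {n : ℕ} {σ : G →* Matrix (Fin n) (Fin n) F}
    (hσ : IsIrr σ) (hσe : ev σ e = 1) {a c : G → F} (ha : mulF e a = a) (hc : mulF e c = c)
    (h : ev σ a = ev σ c) : a = c := by
  have h1 : a - c = 0 := by
    refine jz hF ibn he.1 hp (sub_e ha hc) fun k κ hκ => ?_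
    rcases ev_e eig he.1 hκ with h2 | h2
    · rw [← sub_e ha hc, ev_mulF, h2, Matrix.zero_mul]
    · have h3 := uniq hF ibn ibj ibc ibf he hp hσ hκ hσe h2
      exact (ev_conj hF ibc hκ hσ h3 _).1 (by rw [ev_sub', h, sub_self])
  exact sub_eq_zero.1 h1

/-- DZB -/
theorem dzb (ibn : IbnStmt) (ibj : IbjStmt) (ibc : IbcStmt) (eig : EigStmt) (ibf : IbfStmt) :
    DzbStmt := by
  classical
  intro ℓ _ F _ hF G _ _ e he hp
  obtain ⟨n, σ, hσ, hσe⟩ := ex_irr hF ibn eig he.1 he.2.1 hp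
  have hex : ∀ M : Matrix (Fin n) (Fin n) F, ∃ a : G → F, mulF e a = a ∧ ev σ a = M := by
    intro M
    obtain ⟨a, ha⟩ := ibj ℓ F hF G Unit (fun _ => n) (fun _ => σ) (fun _ => hσ)
      (fun _ _ _ => rfl) (fun _ => M)
    refine ⟨mulF e a, by rw [← mulF_assoc, he.1.2], ?_⟩
    rw [ev_mulF, hσe, ha (), Matrix.one_mul]
  choose A hA1 hA2 using hex
  set z : Fin n := ⟨0, hσ.1⟩ with hz
  set i : G → F := A (Matrix.single z z 1) with hi
  have hi1 : mulF e i = i := hA1 _
  have hi2 : ev σ i = Matrix.single z z 1 := hA2 _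
  have key : ∀ {a c : G → F}, mulF e a = a → mulF e c = c → ev σ a = ev σ c → a = c :=
    fun ha hc h => zz hF ibn ibj ibc eig ibf he hp hσ hσe ha hc h
  have hmul : ∀ a c : G → F, mulF e a = a → mulF e (mulF a c) = mulF a c := by
    intro a c ha
    rw [← mulF_assoc, ha]
  refine ⟨i, ?_⟩
  refine
    { sb := fun x hx => absurd (Subgroup.mem_top x) hx
      sw := fun x hx => absurd (Subgroup.mem_top x) hx
      si := fun x hx => absurd (Subgroup.mem_top x) hx
      cb := fun c _ x => he.1.1 x c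
      cw := fun _ _ _ => rfl
      bb := he.1.2
      bw := ?_
      ii := ?_
      bi := hi1
      nil := ?_
      nz := ?_
      loc := ?_
      full := ?_ }
  · apply ma_injective
    rw [ma_mul, ma_zero, mul_zero]
  · refine key (hmul _ _ hi1) hi1 ?_
    rw [ev_mulF, hi2, Matrix.single_mul_single_same, mul_one]
  · change mulF 0 e = 0
    apply ma_injective
    rw [ma_mul, ma_zero, zero_mul]
  · change i ≠ 0
    intro h
    have h1 := hi2
    rw [h, ev_eq, ma_zero, map_zero] at h1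
    have h2 := congrFun (congrFun h1 z) z
    rw [Matrix.zero_apply, Matrix.single_apply_same] at h2
    exact zero_ne_one h2
  · intro a _
    refine ⟨fun _ => ev σ a z z, ?_⟩
    rw [Finset.sum_range_one]
    change mulF i (mulF a i) = ev σ a z z • i
    refine key (hmul _ _ hi1) ?_ ?_
    · apply ma_injective
      rw [ma_mul, ma_smul, mul_smul_comm, ← ma_mul, hi1]
    · rw [ev_mulF, ev_mulF, ev_smul, hi2, ← Matrix.mul_assoc, Matrix.single_mul_mul_single,
        Matrix.smul_single, one_mul, mul_one, smul_eq_mul, mul_one]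
  · refine ⟨n, fun k => A (Matrix.single k z 1), fun k => A (Matrix.single z k 1), fun k =>
      ⟨fun x hx => absurd (Subgroup.mem_top x) hx, fun x hx => absurd (Subgroup.mem_top x) hx⟩, ?_⟩
    refine key ?_ he.1.2 ?_
    · apply ma_injective
      rw [ma_mul, ma_sum, Finset.mul_sum]
      refine Finset.sum_congr rfl fun k _ => ?_
      rw [← ma_mul, hmul _ _ (hA1 _)]
    · rw [hσe, ev_eq, ma_sum, map_sum]
      have h1 : ∀ k : Fin n, repA σ (ma (mulF (A (Matrix.single k z 1))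
          (mulF i (A (Matrix.single z k 1))))) = Matrix.single k k 1 := by
        intro k
        rw [← ev_eq, ev_mulF, ev_mulF, hA2, hA2, hA2, Matrix.single_mul_single_same,
          Matrix.single_mul_single_same, mul_one, mul_one]
      rw [Finset.sum_congr rfl fun k _ => h1 k]
      ext a c
      rw [Matrix.sum_apply, Matrix.one_apply]
      by_cases hac : a = c
      · rw [if_pos hac, ← hac, Finset.sum_eq_single a]
        · exact Matrix.single_apply_same _ _ _
        · intro b _ hb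
          exact Matrix.single_apply_of_ne _ _ _ _ _ (fun h => hb h.1)
        · intro h
          exact absurd (Finset.mem_univ _) h
      · rw [if_neg hac]
        refine Finset.sum_eq_zero fun b _ => ?_
        exact Matrix.single_apply_of_ne _ _ _ _ _ (fun h => hac (h.1.symm.trans h.2))

end Pool.Agent.PP.CD2.H62
end
end -- Pool.Agent.Helper62_D2.Dzb
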