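import Pool.Agent.Helper12_AWB.B051
import Pool.Agent.Helper12_AWB.B058
import Pool.Agent.Helper12_AWB.B090
import Pool.Agent.Helper12_AWB.B160
import Pool.Agent.Helper97_K9.Tools

/-!
# Merged copies (generated) of the modules

* `Pool.Agent.Helper74_D2.Bld`
* `Pool.Agent.Helper69_KF.K4`
* `Pool.Agent.Helper97_K9.ORB`
* `Pool.Agent.Helper97_K9.NZA`
* `Pool.Agent.Helper97_K9.NZB`
* `Pool.Agent.Helper97_K9.NZR`
-/

set_option autoImplicit false

section -- Pool.Agent.Helper74_D2.Bld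

/-!
# Part D2, module BLD

A central idempotent is the sum of the blocks below it.
-/

open scoped BigOperators

noncomputable section

namespace Pool.Agent.PP.CD2.H74

open Pool.Agent.PP Pool.Agent.Helper51_AWC Pool.Agent.Helper79_WRA

variable {F : Type} [Field F]

/-- the decomposition of a central idempotent -/
theorem dec {H : Type} [Group H] [Finite H] : ∀ e : H → F, IsIdem e →
    ∃ (m : ℕ) (f : Fin m → H → F), (∀ t, IsBlk (f t) ∧ mulF e (f t) = f t) ∧
      (∀ t s, t ≠ s → mulF (f t) (f s) = 0) ∧ ∑ t, f t = e := by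
  apply H46.idem_induction
  · exact ⟨0, fun i => i.elim0, fun t => t.elim0, fun t => t.elim0, by simp⟩
  · intro b hb
    refine ⟨1, fun _ => b, fun _ => ⟨hb, hb.1.2⟩, fun t s hts => ?_, by simp⟩
    exact absurd (Subsingleton.elim t s) hts
  · rintro e₁ e₂ h1 h2 h12 ⟨m, f, hf, hfo, hfs⟩ ⟨n, g, hg, hgo, hgs⟩
    have h21 : mulF e₂ e₁ = 0 := by rw [H46.mulF_comm h2.1, h12]
    have k1 : ∀ t, mulF e₂ (f t) = 0 := by
      intro t
      rw [← (hf t).2, ← H20.mulF_assoc, h21]
      exact H20.zero_mulF _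
    have k2 : ∀ t, mulF e₁ (g t) = 0 := by
      intro t
      rw [← (hg t).2, ← H20.mulF_assoc, h12]
      exact H20.zero_mulF _
    have k3 : ∀ t s, mulF (f t) (g s) = 0 := by
      intro t s
      rw [← (hg s).2, ← H20.mulF_assoc, H46.mulF_comm (hf t).1.1.1, k1, H20.zero_mulF]
    refine ⟨m + n, Fin.append f g, ?_, ?_, ?_⟩
    · intro t
      refine Fin.addCases (fun i => ?_) (fun i => ?_) t
      · rw [Fin.append_left]
        refine ⟨(hf i).1, ?_⟩
        rw [H20.add_mulF, (hf i).2, k1, add_zero]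
      · rw [Fin.append_right]
        refine ⟨(hg i).1, ?_⟩
        rw [H20.add_mulF, (hg i).2, k2, zero_add]
    · intro t s
      refine Fin.addCases (fun i => ?_) (fun i => ?_) t <;>
        refine Fin.addCases (fun j => ?_) (fun j => ?_) s
      · intro h
        rw [Fin.append_left, Fin.append_left]
        exact hfo i j fun h' => h (by rw [h'])
      · intro h
        rw [Fin.append_left, Fin.append_right]
        exact k3 i j
      · intro h
        rw [Fin.append_left, Fin.append_right, H46.mulF_comm (hg i).1.1.1]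
        exact k3 j i
      · intro h
        rw [Fin.append_right, Fin.append_right]
        exact hgo i j fun h' => h (by rw [h'])
    · rw [Fin.sum_univ_add]
      simp only [Fin.append_left, Fin.append_right]
      rw [hfs, hgs]

theorem bld : BldStmt := by
  intro ℓ F _ _ G _ _ C b₁ hs hc hi
  set b' : C → F := fun t => b₁ t with hb'
  have e1 : ext0 C b' = b₁ := H46.ext0_restr hs
  have inj : ∀ u v : C → F, ext0 C u = ext0 C v → u = v := by
    intro u v h
    rw [← H46.restr_ext0 u, ← H46.restr_ext0 v, h]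
  have hid : IsIdem b' := by
    constructor
    · intro x y
      exact hc y y.2 x
    · apply inj
      rw [H46.ext0_mul, e1, hi]
  obtain ⟨m, f, h1, h2, h3⟩ := dec b' hid
  refine ⟨m, fun t => ext0 C (f t), fun t => ⟨?_, ?_, ?_⟩, ?_, ?_⟩
  · exact fun x hx => H46.ext0_of_not_mem _ hx
  · change IsBlk (fun s : C => ext0 C (f t) s)
    rw [H46.restr_ext0]
    exact (h1 t).1
  · calc mulF b₁ (ext0 C (f t)) = ext0 C (mulF b' (f t)) := by rw [H46.ext0_mul, e1]
      _ = ext0 C (f t) := by rw [(h1 t).2]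
  · intro t s hts
    change mulF (ext0 C (f t)) (ext0 C (f s)) = 0
    rw [← H46.ext0_mul, h2 t s hts]
    funext x
    by_cases hx : x ∈ C
    · rw [H46.ext0_of_mem _ hx]; rfl
    · rw [H46.ext0_of_not_mem _ hx]; rfl
  · funext x
    rw [Finset.sum_apply]
    by_cases hx : x ∈ C
    · have h4 := congrFun h3 ⟨x, hx⟩
      rw [Finset.sum_apply] at h4
      rw [Finset.sum_congr rfl fun t _ => H46.ext0_of_mem (f t) hx, h4]
    · rw [Finset.sum_congr rfl fun t _ => H46.ext0_of_not_mem (f t) hx, hs x hx,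
        Finset.sum_const_zero]

end Pool.Agent.PP.CD2.H74
end
end -- Pool.Agent.Helper74_D2.Bld

section -- Pool.Agent.Helper69_KF.K4

/-!
# Squad KF, module K4: a block with Klein four defect groups has four characters
-/

open scoped BigOperators

noncomputable section

namespace Pool.Agent.PP.KF.H69

open Pool.Agent.Helper51_AWC Pool.Agent.Helper79_WRA Pool.Agent.PP Pool.Agent.PP.KF

attribute [local instance] Ideal.Quotient.field

theorem subCl_V4 : DF.SubCl V4 := by
  intro Q R _ _ j hj hR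
  obtain ⟨k, hk⟩ := hR
  exact ⟨k.comp j, hk.comp hj⟩

/-- the order is at most four -/
theorem V4_card {Q : Type} [Group Q] (h : V4 Q) : Nat.card Q ≤ 4 := by
  obtain ⟨j, hj⟩ := h
  have h1 := Nat.card_le_card_of_injective j hj
  have h2 : Nat.card (Multiplicative (ZMod 2) × Multiplicative (ZMod 2)) = 4 := by
    rw [Nat.card_prod]
    simp [Nat.card_eq_fintype_card, ZMod.card]
  omega

theorem V4_sq {Q : Type} [Group Q] (h : V4 Q) (x : Q) : x * x = 1 := by
  obtain ⟨j, hj⟩ := h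
  apply hj
  rw [map_mul, map_one]
  generalize j x = y
  revert y
  decide

theorem V4_comm {Q : Type} [Group Q] (h : V4 Q) (x y : Q) : x * y = y * x := by
  obtain ⟨j, hj⟩ := h
  apply hj
  rw [map_mul, map_mul, mul_comm]

theorem bd8 {F X : Type} [Field F] [Group X] [Finite X] {e : X → F}
    (h : DF.DfE 2 V4 e ⊤) : Bd8 e := by
  intro g hg h8
  haveI : Fact (Nat.Prime 2) := ⟨Nat.prime_two⟩
  obtain ⟨Q, hQ⟩ := Sylow.exists_subgroup_card_pow_prime (G := Subgroup.centralizer ({g} : Set X))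
    2 (n := 3) (by norm_num; exact h8)
  have hc : Nat.card (Q.map (Subgroup.centralizer ({g} : Set X)).subtype) = 2 ^ 3 := by
    rw [← hQ]
    exact (Nat.card_congr (Q.equivMapOfInjective _ (Subgroup.subtype_injective _)).toEquiv).symm
  have h1 := h (Q.map (Subgroup.centralizer ({g} : Set X)).subtype) le_top
    (IsPGroup.of_card hc) ⟨g, by
      rw [Subgroup.mem_centralizer_iff]
      rintro _ ⟨q, _, rfl⟩
      exact Subgroup.mem_centralizer_singleton_iff.1 q.2, hg⟩
  have h2 := V4_card h1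
  omega

/-- the restriction to the centraliser of an involution -/
theorem idem_cu {F X : Type} [Field F] (hF : GoodF 2 F) [Group X] [Finite X] {e : X → F}
    (he : IsIdem e) {u : X} (hu : u * u = 1) : IsIdem (fun t : Cu u => e t) := by
  have hp : IsPGroup 2 (Subgroup.zpowers u) := by
    rintro ⟨x, k, rfl⟩
    refine ⟨1, Subtype.ext ?_⟩
    change ((u ^ k) ^ 2 ^ 1 : X) = 1
    rw [pow_one, ← zpow_natCast, ← zpow_mul, mul_comm, zpow_mul, zpow_natCast, pow_two, hu,
      one_zpow]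
  have hc : Subgroup.centralizer (Subgroup.zpowers u : Set X) ≤ Cu u := by
    refine Subgroup.centralizer_le ?_
    rw [Set.singleton_subset_iff]
    exact Subgroup.mem_zpowers u
  have hc' : Cu u ≤ Subgroup.centralizer (Subgroup.zpowers u : Set X) := by
    intro x hx
    rw [Subgroup.mem_centralizer_iff]
    rintro _ ⟨k, rfl⟩
    have : Commute x u := Subgroup.mem_centralizer_singleton_iff.1 hx
    exact (this.zpow_right k).eq.symm
  have hn : Cu u ≤ Subgroup.normalizer (Subgroup.zpowers u : Set X) :=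
    hc'.trans (Subgroup.centralizer_le_normalizer _)
  have h := (H20.brm 2 F hF X (Subgroup.zpowers u) (Cu u) hp hc hn).2.2 e he
  have h2 : (fun t : Cu u => br (Subgroup.zpowers u) e t) = fun t : Cu u => e t := by
    funext t
    exact H66.br_of_mem (hc' t.2)
  rwa [h2] at h

/-- a block below an idempotent which does not vanish at a given element -/
theorem exists_blk {F X : Type} [Field F] [Group X] [Finite X] {e : X → F} (he : IsIdem e) {g : X}
    (hg : e g ≠ 0) : ∃ b : X → F, IsBlk b ∧ mulF e b = b ∧ b g ≠ 0 := by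
  obtain ⟨m, f, hf, _, hs⟩ := CD2.H74.dec e he
  by_contra hcon
  push Not at hcon
  apply hg
  rw [← hs, Finset.sum_apply]
  exact Finset.sum_eq_zero fun t _ => hcon (f t) (hf t).1 (hf t).2

theorem df_cu {F X : Type} [Field F] (hF : GoodF 2 F) [Group X] [Finite X] {e : X → F}
    (he : IsIdem e) (h : DF.DfE 2 V4 e ⊤) {u : X} (hu : u * u = 1) {b : Cu u → F} (hb : IsBlk b)
    (hm : mulF (fun t : Cu u => e t) b = b) : DF.DfE 2 V4 b ⊤ :=
  DF.DfE.le hF (idem_cu hF he hu).1 hb.1.1 hm (h.sub subCl_V4 le_top)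

theorem k4 (st1 : St1Stmt) (st2 : St2Stmt) (lk : LkStmt) : K4Stmt := by
  intro M _ hM G _ _ e he
  have hF : GoodF 2 (FF M) := H50.fld 2 Nat.prime_two M hM
  obtain ⟨V, hV, g, hgV, hg⟩ := he.ex
  haveI : Fact (Nat.Prime 2) := ⟨Nat.prime_two⟩
  have hV4 : V4 V := he.df V le_top (IsPGroup.of_card (n := 2) (by rw [hV]; norm_num)) ⟨g, hgV, hg⟩
  have hsq : ∀ x ∈ V, x * x = 1 := fun x hx => congrArg Subtype.val (V4_sq hV4 ⟨x, hx⟩)
  have hcm : ∀ x ∈ V, ∀ y ∈ V, x * y = y * x := fun x hx y hy =>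
    congrArg Subtype.val (V4_comm hV4 ⟨x, hx⟩ ⟨y, hy⟩)
  obtain ⟨u, huV, hu1⟩ : ∃ u ∈ V, u ≠ 1 := by
    by_contra hcon
    push Not at hcon
    have : V = ⊥ := (Subgroup.eq_bot_iff_forall V).2 hcon
    rw [this, Subgroup.card_bot] at hV
    omega
  obtain ⟨v, hvV, hv1, hvu⟩ : ∃ v ∈ V, v ≠ 1 ∧ v ≠ u := by
    by_contra hcon
    push Not at hcon
    have h1 : V ≤ Subgroup.zpowers u := by
      intro x hx
      by_cases hx1 : x = 1
      · rw [hx1]; exact Subgroup.one_mem _
      · rw [hcon x hx hx1]; exact Subgroup.mem_zpowers u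
    have h2 := Subgroup.card_le_of_le h1
    rw [Nat.card_zpowers, hV] at h2
    have h3 : orderOf u ≤ 2 := orderOf_le_of_pow_eq_one (by norm_num) (by
      rw [pow_two]; exact hsq u huV)
    omega
  have hgu : g ∈ Cu u := Subgroup.mem_centralizer_singleton_iff.2
    (Subgroup.mem_centralizer_iff.1 hgV u huV).symm
  have hvu' : v ∈ Cu u := Subgroup.mem_centralizer_singleton_iff.2 (hcm v hvV u huV)
  have huu : u ∈ Cu u := Subgroup.mem_centralizer_singleton_iff.2 rfl
  have hIu : Inv2 u := ⟨hsq u huV, hu1⟩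
  -- the block `β` of the centraliser of `u`
  have hf := idem_cu hF he.blk.1 (hsq u huV)
  obtain ⟨β, hβ, hβe, hβg⟩ := exists_blk hf (g := ⟨g, hgu⟩) hg
  have hdβ := df_cu hF he.blk.1 he.df (hsq u huV) hβ hβe
  -- the block `b` of the centraliser of `v`
  have hIv : Inv2 (⟨v, hvu'⟩ : Cu u) :=
    ⟨Subtype.ext (hsq v hvV), fun h => hv1 (congrArg Subtype.val h)⟩
  have hgv : (⟨g, hgu⟩ : Cu u) ∈ Cu (⟨v, hvu'⟩ : Cu u) :=
    Subgroup.mem_centralizer_singleton_iff.2
      (Subtype.ext (Subgroup.mem_centralizer_iff.1 hgV v hvV).symm)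
  have hfv := idem_cu hF hβ.1 hIv.sq
  obtain ⟨b, hb, hbβ, hbg⟩ := exists_blk hfv (g := ⟨⟨g, hgu⟩, hgv⟩) hβg
  have hdb := df_cu hF hβ.1 hdβ hIv.sq hb hbβ
  have huv' : (⟨u, huu⟩ : Cu u) ∈ Cu (⟨v, hvu'⟩ : Cu u) :=
    Subgroup.mem_centralizer_singleton_iff.2 (Subtype.ext (hcm u huV v hvV))
  have hvv' : (⟨v, hvu'⟩ : Cu u) ∈ Cu (⟨v, hvu'⟩ : Cu u) :=
    Subgroup.mem_centralizer_singleton_iff.2 rfl
  have hne : (⟨u, huu⟩ : Cu u) ≠ ⟨v, hvu'⟩ := fun h => hvu (congrArg Subtype.val h).symm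
  have hIu' : Inv2 (⟨u, huu⟩ : Cu u) :=
    ⟨Subtype.ext (hsq u huV), fun h => hu1 (congrArg Subtype.val h)⟩
  have huc : (⟨u, huu⟩ : Cu u) ∈ Subgroup.center (Cu u) := by
    rw [Subgroup.mem_center_iff]
    intro x
    exact Subtype.ext (Subgroup.mem_centralizer_singleton_iff.1 x.2)
  have hb1 : ∃ a', Hb M b a' := by
    refine st1 M hM (Cu (⟨v, hvu'⟩ : Cu u)) ⟨⟨u, huu⟩, huv'⟩ ⟨⟨v, hvu'⟩, hvv'⟩ ?_ ?_ ?_ ?_ ?_ b hb
      (bd8 hdb)
    · exact ⟨Subtype.ext hIu'.sq, fun h => hIu'.ne (congrArg Subtype.val h)⟩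
    · exact ⟨Subtype.ext hIv.sq, fun h => hIv.ne (congrArg Subtype.val h)⟩
    · exact fun h => hne (congrArg Subtype.val h)
    · rw [Subgroup.mem_center_iff]
      intro x
      exact Subtype.ext (Subgroup.mem_center_iff.1 huc x)
    · rw [Subgroup.mem_center_iff]
      intro x
      exact Subtype.ext (Subgroup.mem_centralizer_singleton_iff.1 x.2)
  obtain ⟨a, ha⟩ := st2 M hM (Cu u) ⟨u, huu⟩ ⟨v, hvu'⟩ hIu' hIv hne huc β hβ (bd8 hdβ) b hb hbβ hb1
  exact (lk M hM G e he.blk (bd8 he.df) u hIu β hβ hβe a ha).1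

end Pool.Agent.PP.KF.H69
end
end -- Pool.Agent.Helper69_KF.K4

section -- Pool.Agent.Helper97_K9.ORB

/-!
# Squad K9, module ORB: blocks of a normal subgroup under the same block are conjugate
-/

open scoped BigOperators

noncomputable section

namespace Pool.Agent.PP.K9.H97

open Pool.Agent.Helper51_AWC Pool.Agent.Helper79_WRA Pool.Agent.PP Pool.Agent.PP.KF
open Pool.Agent.PP.H75

section orb

variable {F G : Type} [Field F] [Group G] [Finite G]

theorem orb_main {N X : Subgroup G} (hXN : X ≤ N) (hN : N ≤ Subgroup.normalizer (X : Set G))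
    {f γ γ' : G → F} (hf : Bx N f) (hg : Bx X γ) (hg' : Bx X γ') (h1 : mulF f γ = γ)
    (h2 : mulF f γ' = γ') : ∃ n ∈ N, γ' = cj n γ := by
  classical
  have := Fintype.ofFinite N
  -- the conjugates
  set S : Finset (G → F) := Finset.univ.image (fun n : N => cj (n : G) γ) with hS
  have hmem : ∀ a, a ∈ S ↔ ∃ n ∈ N, a = cj n γ := by
    intro a
    rw [hS, Finset.mem_image]
    constructor
    · rintro ⟨n, -, rfl⟩
      exact ⟨n, n.2, rfl⟩
    · rintro ⟨n, hn, rfl⟩
      exact ⟨⟨n, hn⟩, Finset.mem_univ _, rfl⟩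
  have hBx : ∀ a ∈ S, Bx X a := by
    intro a ha
    obtain ⟨n, hn, rfl⟩ := (hmem a).1 ha
    exact hg.cj (hN hn)
  have hfa : ∀ a ∈ S, mulF f a = a := by
    intro a ha
    obtain ⟨n, hn, rfl⟩ := (hmem a).1 ha
    have e1 := congrArg (cj n) h1
    rw [cj_mulF, hf.ix.inv hn] at e1
    exact e1
  have hγS : γ ∈ S := (hmem γ).2 ⟨1, N.one_mem, (cj_one γ).symm⟩
  set s : G → F := ∑ a ∈ S, a with hs
  have hsma : ma s = ∑ a ∈ S, ma a := by rw [hs, ma_sum]
  have hsa : ∀ a ∈ S, mulF s a = a := by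
    intro a ha
    apply ma_injective
    rw [ma_mul, hsma, Finset.sum_mul, Finset.sum_eq_single a]
    · rw [← ma_mul, (hBx a ha).mul]
    · intro c hc hne
      rw [← ma_mul]
      rcases (hBx c hc).dich (hBx a ha) with h3 | h3
      · exact absurd h3 hne
      · rw [h3, ma_zero]
    · intro h'
      exact absurd ha h'
  have hss : mulF s s = s := by
    apply ma_injective
    rw [ma_mul]
    conv_lhs => rw [hsma]
    rw [← hsma, hsma, Finset.mul_sum]
    apply Finset.sum_congr rfl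
    intro a ha
    rw [← hsma, ← ma_mul, hsa a ha]
  have hfs : mulF f s = s := by
    apply ma_injective
    rw [ma_mul, hsma, Finset.mul_sum]
    apply Finset.sum_congr rfl
    intro a ha
    rw [← ma_mul, hfa a ha]
  have hsX : ∀ x, x ∉ X → s x = 0 := by
    intro x hx
    rw [hs, Finset.sum_apply]
    exact Finset.sum_eq_zero fun a ha => (hBx a ha).supp x hx
  have hsN : ∀ x, x ∉ N → s x = 0 := fun x hx => hsX x (fun h => hx (hXN h))
  have hsc : ∀ n ∈ N, ∀ x, s (n * x * n⁻¹) = s x := by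
    intro n hn x
    rw [hs, Finset.sum_apply, Finset.sum_apply]
    symm
    apply Finset.sum_bij (fun a _ => cj n a)
    · intro a ha
      obtain ⟨m, hm, rfl⟩ := (hmem a).1 ha
      rw [hmem, cj_cj]
      exact ⟨n * m, N.mul_mem hn hm, rfl⟩
    · intro a _ a' _ h'
      have := congrArg (cj n⁻¹) h'
      rwa [cj_inv_cj, cj_inv_cj] at this
    · intro a ha
      obtain ⟨m, hm, rfl⟩ := (hmem a).1 ha
      refine ⟨cj (n⁻¹ * m) γ, (hmem _).2 ⟨n⁻¹ * m, N.mul_mem (N.inv_mem hn) hm, rfl⟩, ?_⟩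
      rw [cj_cj, mul_inv_cancel_left]
    · intro a _
      rw [cj]
      congr 1
      group
  have hsI : Ix N s := by
    refine ⟨hsN, ?_, ?_⟩
    · intro x y
      exact hsc y y.2 x
    · rw [← mulF_res N s hsN, hss]
  -- `s = f`
  have hsf : s = f := by
    rcases hf.dich' hsI with h3 | h3
    · rw [← h3, hfs]
    · exfalso
      apply hg.ne
      have h4 : s = 0 := by rw [← hfs, h3]
      rw [← hsa γ hγS, h4, mulF_zero_left]
  -- a conjugate which does not annihilate `γ'`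
  by_contra hcon
  apply hg'.ne
  rw [← h2, ← hsf]
  apply ma_injective
  rw [ma_mul, hsma, Finset.sum_mul, ma_zero]
  apply Finset.sum_eq_zero
  intro a ha
  rw [← ma_mul]
  rcases (hBx a ha).dich hg' with h3 | h3
  · exfalso
    obtain ⟨n, hn, hn'⟩ := (hmem a).1 ha
    exact hcon ⟨n, hn, by rw [← h3, hn']⟩
  · rw [h3, ma_zero]

end orb

/-- ORB -/
theorem orb : K9.OrbStmt := by
  intro ℓ F _ hF G _ _ N X hXN hN f hf hfb γ γ' hγ hγ' hb hb' h1 h2
  obtain ⟨n, hn, h⟩ := orb_main hXN hN ⟨fun x hx => hf x (fun h => hx (hXN h)), hfb⟩ ⟨hγ, hb⟩ ⟨hγ', hb'⟩ h1 h2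
  refine ⟨n⁻¹, N.inv_mem hn, fun x => ?_⟩
  rw [h, cj, inv_inv]

end Pool.Agent.PP.K9.H97
end
end -- Pool.Agent.Helper97_K9.ORB

section -- Pool.Agent.Helper97_K9.NZA

/-!
# Squad K9, module NZR, part 1
-/

open scoped BigOperators

noncomputable section

namespace Pool.Agent.PP.K9.H97

open Pool.Agent.Helper51_AWC Pool.Agent.Helper79_WRA Pool.Agent.PP Pool.Agent.PP.KF
open Pool.Agent.PP.H75

section unit

variable {F G : Type} [Field F] [Group G] [Finite G]

theorem ma_dl_mul (a b : G) : ma (dl F a) * ma (dl F b) = ma (dl F (a * b)) := by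
  rw [ma_dl, ma_dl, ma_dl, MonoidAlgebra.single_mul_single, mul_one]

theorem ma_dl_one : ma (dl F (1 : G)) = 1 := by
  rw [ma_dl, MonoidAlgebra.one_def]

theorem ma_dl_pow (a : G) (n : ℕ) : ma (dl F a) ^ n = ma (dl F (a ^ n)) := by
  induction n with
  | zero => rw [pow_zero, pow_zero, ma_dl_one]
  | succ n ih => rw [pow_succ, ih, ma_dl_mul, pow_succ]

/-- a sum of elements of an abelian `ℓ`-group is invertible if the number of summands is prime
to `ℓ` -/
theorem unit_sum {ℓ : ℕ} (hF : GoodF ℓ F) {V : Subgroup G} (hV : IsPGroup ℓ V)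
    (hab : ∀ a ∈ V, ∀ b ∈ V, a * b = b * a) {ι : Type} (S : Finset ι) (w : ι → G)
    (hw : ∀ i ∈ S, w i ∈ V) (hS : ¬ ℓ ∣ S.card) : IsUnit (∑ i ∈ S, ma (dl F (w i))) := by
  have hfact : Fact ℓ.Prime := ⟨hF.prime⟩
  have hch : CharP F ℓ := hF.char
  have hchA : CharP (MonoidAlgebra F G) ℓ := charP_of_injective_algebraMap' F ℓ
  have hnil : IsNilpotent (∑ i ∈ S, (ma (dl F (w i)) - 1)) := by
    apply Commute.isNilpotent_sum
    · intro i hi
      obtain ⟨k, hk⟩ := hV ⟨w i, hw i hi⟩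
      refine ⟨ℓ ^ k, ?_⟩
      have hk' : w i ^ ℓ ^ k = 1 := congrArg Subtype.val hk
      rw [sub_pow_char_pow_of_commute ℓ k (Commute.one_right _), ma_dl_pow, hk', ma_dl_one, one_pow,
        sub_self]
    · intro i j hi hj
      apply Commute.sub_left
      · apply Commute.sub_right
        · change _ * _ = _ * _
          rw [ma_dl_mul, ma_dl_mul, hab _ (hw i hi) _ (hw j hj)]
        · exact Commute.one_right _
      · exact Commute.one_left _
  have hcard : IsUnit ((S.card : MonoidAlgebra F G)) := by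
    have h1 : ((S.card : F)) ≠ 0 := by
      intro h0
      exact hS ((CharP.cast_eq_zero_iff F ℓ _).1 h0)
    have h2 : IsUnit (algebraMap F (MonoidAlgebra F G) (S.card : F)) :=
      (IsUnit.mk0 _ h1).map _
    rwa [map_natCast] at h2
  have e : ∑ i ∈ S, ma (dl F (w i)) =
      (∑ i ∈ S, (ma (dl F (w i)) - 1)) + (S.card : MonoidAlgebra F G) := by
    rw [Finset.sum_sub_distrib, Finset.sum_const, nsmul_eq_mul, mul_one, sub_add_cancel]
  rw [e]
  exact hnil.isUnit_add_right_of_commute hcard (Nat.commute_cast _ _)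

/-- the main algebraic step -/
theorem not_nil {ℓ : ℕ} (hF : GoodF ℓ F) {V : Subgroup G} (hV : IsPGroup ℓ V)
    (hab : ∀ a ∈ V, ∀ b ∈ V, a * b = b * a) {ι : Type} (S : Finset ι) (w : ι → G)
    (hw : ∀ i ∈ S, w i ∈ V) (hS : ¬ ℓ ∣ S.card) {γ z : G → F} (h0 : γ ≠ 0)
    (hγ : ∀ v ∈ V, cj v γ = γ) (hz : ma z * ma γ = (∑ i ∈ S, ma (dl F (w i))) * ma γ) (n : ℕ) :
    ma z ^ n * ma γ ≠ 0 := by
  set A := ∑ i ∈ S, ma (dl F (w i)) with hA
  have hcomm : A * ma γ = ma γ * A := by
    rw [hA, Finset.sum_mul, Finset.mul_sum]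
    refine Finset.sum_congr rfl fun i hi => ?_
    rw [← ma_mul, ← ma_mul, dl_move, hγ _ (hw i hi)]
  have hpow : ma z ^ n * ma γ = A ^ n * ma γ := by
    induction n with
    | zero => rw [pow_zero, pow_zero]
    | succ n ih =>
      rw [pow_succ, mul_assoc, hz, hcomm, ← mul_assoc, ih, mul_assoc, ← hcomm, ← mul_assoc,
        ← pow_succ]
  have hu : IsUnit A := unit_sum hF hV hab S w hw hS
  intro h
  apply h0
  apply ma_injective
  rw [ma_zero]
  rw [hpow] at h
  exact (hu.pow n).mul_right_eq_zero.1 h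

end unit

section brit

variable {F G : Type} [Field F] [Group G] [Finite G]

theorem br_iter {ℓ : ℕ} (hF : GoodF ℓ F) {P : Subgroup G} (hP : IsPGroup ℓ P) {a c : G → F}
    (ha : H66.Inv P a) (hc : H66.Inv P c) (n : ℕ) :
    H66.Inv P ((mulF a)^[n] c) ∧ br P ((mulF a)^[n] c) = (mulF (br P a))^[n] (br P c) := by
  induction n with
  | zero => exact ⟨hc, rfl⟩
  | succ n ih =>
    rw [Function.iterate_succ_apply', Function.iterate_succ_apply', ← ih.2]
    exact ⟨ha.mulF ih.1, H66.br_mulF hF hP ha ih.1⟩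

/-- a good subgroup for `b` is good for `a` if `a b = b` -/
theorem gd_of_mul {ℓ : ℕ} (hF : GoodF ℓ F) {a b : G → F} (ha : IsCl a) (hb : IsCl b)
    (h : mulF a b = b) {Q : Subgroup G} (hQ : IsPGroup ℓ Q) (hg : Gd b Q) : Gd a Q := by
  by_contra hcon
  obtain ⟨g, hg1, hg2⟩ := hg
  apply hg2
  have h0 : br Q a = 0 := by
    funext x
    by_cases hx : x ∈ Subgroup.centralizer (Q : Set G)
    · rw [H66.br_of_mem hx]
      by_contra hne
      exact hcon ⟨x, hx, hne⟩
    · rw [H66.br_of_not_mem hx]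
      rfl
  have h1 := H66.br_mulF hF hQ (H66.IsCl.inv ha Q) (H66.IsCl.inv hb Q)
  rw [h, h0, mulF_zero_left] at h1
  rw [← H66.br_of_mem (a := b) hg1, h1]
  rfl

omit [Finite G] in
theorem gd_map {C : Subgroup G} {a : G → F} {Q : Subgroup C} (h : Gd (fun t : C => a t) Q) :
    Gd a (Q.map C.subtype) := by
  obtain ⟨g, hg1, hg2⟩ := h
  refine ⟨g, ?_, hg2⟩
  rw [Subgroup.mem_centralizer_iff] at hg1 ⊢
  rintro _ ⟨q, hq, rfl⟩
  exact congrArg Subtype.val (hg1 q hq)

end brit

end Pool.Agent.PP.K9.H97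
end
end -- Pool.Agent.Helper97_K9.NZA

section -- Pool.Agent.Helper97_K9.NZB

/-!
# Squad K9, module NZR, part 2: the sum of the conjugates on the centraliser of `V`
-/

open scoped BigOperators

noncomputable section

namespace Pool.Agent.PP.K9.H97

open Pool.Agent.Helper51_AWC Pool.Agent.Helper79_WRA Pool.Agent.PP Pool.Agent.PP.KF
open Pool.Agent.PP.H75

section trace

variable {F G : Type} [Field F] [Group G] [Finite G] {C : Subgroup G} {a : G → F}

theorem cj_out (ha : ∀ c ∈ C, cj c a = a) (t : G) : cj ((t : G ⧸ C).out) a = cj t a := by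
  have h1 : ((t : G ⧸ C).out)⁻¹ * t ∈ C := by
    rw [← QuotientGroup.eq]
    exact QuotientGroup.out_eq' _
  have h2 := ha _ h1
  conv_lhs => rw [← h2, cj_cj, mul_inv_cancel_left]

/-- the sum of the conjugates -/
def tsm (C : Subgroup G) (a : G → F) : G → F := fun g => ∑ᶠ q : G ⧸ C, cj q.out a g

theorem tsm_cl (ha : ∀ c ∈ C, cj c a = a) : IsCl (tsm C a) := by
  intro x y
  unfold tsm
  rw [← finsum_comp_equiv (MulAction.toPerm y : Equiv.Perm (G ⧸ C))]
  apply finsum_congr
  intro q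
  obtain ⟨t, rfl⟩ := QuotientGroup.mk_surjective q
  change cj ((y • (t : G ⧸ C)).out) a _ = _
  have h1 : y • (t : G ⧸ C) = ((y * t : G) : G ⧸ C) := rfl
  rw [h1, cj_out ha, cj_out ha, cj, cj]
  congr 1
  group

/-- the cosets which meet `N` -/
def QN (N C : Subgroup G) : Set (G ⧸ C) := {q | ∃ t ∈ N, (t : G ⧸ C) = q}

theorem tsm_br {ℓ : ℕ} (hF : GoodF ℓ F) {V : Subgroup G} (hV : IsPGroup ℓ V) (hVC : V ≤ C)
    (ha : ∀ c ∈ C, cj c a = a)
    (hfix : ∀ t : G, (∀ v ∈ V, t⁻¹ * v * t ∈ C) → ∀ g ∈ Subgroup.centralizer (V : Set G),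
      cj t a g ≠ 0 → (t : G ⧸ C) ∈ QN (Subgroup.normalizer (V : Set G)) C)
    {g : G} (hg : g ∈ Subgroup.centralizer (V : Set G)) :
    tsm C a g = ∑ᶠ (q : G ⧸ C) (_ : q ∈ QN (Subgroup.normalizer (V : Set G)) C),
      cj q.out a g := by
  classical
  unfold tsm
  have h1 := H74.orb ℓ F F V (G ⧸ C) hF.prime hF.char hV (fun q => cj q.out a g) (by
    intro v q
    obtain ⟨t, rfl⟩ := QuotientGroup.mk_surjective q
    have h1 : v • (t : G ⧸ C) = (((v : G) * t : G) : G ⧸ C) := rfl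
    rw [h1, cj_out ha, cj_out ha, cj, cj]
    congr 1
    have h2 := Subgroup.mem_centralizer_iff.1 hg v v.2
    have h3 : (v : G)⁻¹ * g * v = g := by
      rw [mul_assoc, ← h2, inv_mul_cancel_left]
    calc ((v : G) * t)⁻¹ * g * ((v : G) * t) = t⁻¹ * ((v : G)⁻¹ * g * v) * t := by group
      _ = t⁻¹ * g * t := by rw [h3])
  refine h1.trans ?_
  apply finsum_congr
  intro q
  rw [finsum_eq_if, finsum_eq_if]
  obtain ⟨t, rfl⟩ := QuotientGroup.mk_surjective q
  have hfx : (t : G ⧸ C) ∈ MulAction.fixedPoints V (G ⧸ C) ↔ ∀ v ∈ V, t⁻¹ * v * t ∈ C := by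
    constructor
    · intro h v hv
      have h2 : (((v : G) * t : G) : G ⧸ C) = (t : G ⧸ C) := h ⟨v, hv⟩
      have h3 := QuotientGroup.eq.1 h2.symm
      rw [show t⁻¹ * v * t = t⁻¹ * (v * t) by group]
      exact h3
    · intro h v
      change (((v : G) * t : G) : G ⧸ C) = (t : G ⧸ C)
      symm
      rw [QuotientGroup.eq]
      have := h v v.2
      rwa [show t⁻¹ * (v : G) * t = t⁻¹ * (v * t) by group] at this
  by_cases hq : (t : G ⧸ C) ∈ QN (Subgroup.normalizer (V : Set G)) C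
  · rw [if_pos hq, if_pos]
    obtain ⟨n, hn, hnt⟩ := hq
    rw [← hnt]
    intro v
    change (((v : G) * n : G) : G ⧸ C) = (n : G ⧸ C)
    symm
    rw [QuotientGroup.eq]
    apply hVC
    have := (Subgroup.mem_normalizer_iff.1 (inv_mem hn) v).1 v.2
    rwa [inv_inv, mul_assoc] at this
  · rw [if_neg hq]
    by_cases hq' : (t : G ⧸ C) ∈ MulAction.fixedPoints V (G ⧸ C)
    · rw [if_pos hq']
      by_contra hne
      change cj ((t : G ⧸ C).out) a g ≠ 0 at hne
      rw [cj_out ha] at hne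
      exact hq (hfix t (hfx.1 hq') g hg hne)
    · rw [if_neg hq']

omit [Finite G] in
theorem orbit_card {T : Subgroup G} :
    (MulAction.orbit T (((1 : G) : G) : G ⧸ C)).ncard = C.relIndex T := by
  rw [← MulAction.index_stabilizer, Subgroup.relIndex]
  congr 1
  ext t
  rw [MulAction.mem_stabilizer_iff, Subgroup.mem_subgroupOf]
  change ((((t : G) * 1 : G) : G ⧸ C)) = ((1 : G) : G ⧸ C) ↔ _
  rw [mul_one, eq_comm, QuotientGroup.eq, inv_one, one_mul]

theorem nzr_core {ℓ : ℕ} (hF : GoodF ℓ F) {V : Subgroup G} (hV : IsPGroup ℓ V)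
    (hab : ∀ a ∈ V, ∀ b ∈ V, a * b = b * a) (hVC : V ≤ C)
    (hXC : Subgroup.centralizer (V : Set G) ≤ C) {B : G → F} (hB : Ix C B) {w : G} (hwV : w ∈ V)
    (hwC : ∀ c ∈ C, c * w = w * c)
    (hgood : ∀ t : G, (∀ v ∈ V, t⁻¹ * v * t ∈ C) →
      (∃ x, (∀ v ∈ V, x * (t⁻¹ * v * t) = t⁻¹ * v * t * x) ∧ B x ≠ 0) →
      ∃ c ∈ C, t * c ∈ Subgroup.normalizer (V : Set G))
    {γ : G → F} (hγ : Bx (Subgroup.centralizer (V : Set G)) γ) (h1 : mulF (br V B) γ = γ)
    (hbx : Bx (Subgroup.normalizer (V : Set G) ⊓ C) (br V B))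
    (hinx : ¬ ℓ ∣ (Subgroup.centralizer (V : Set G)).relIndex
      (Subgroup.normalizer (V : Set G) ⊓ stabF γ)) (n : ℕ) :
    ma (br V (tsm C (fun x => B (w⁻¹ * x)))) ^ n * ma γ ≠ 0 := by
  classical
  set N := Subgroup.normalizer (V : Set G) with hN
  set X := Subgroup.centralizer (V : Set G) with hX
  have hXN : X ≤ N := by
    intro g hg
    rw [hN, Subgroup.mem_normalizer_iff]
    intro v
    have h1 := Subgroup.mem_centralizer_iff.1 hg
    constructor
    · intro hv
      rw [← h1 v hv, mul_inv_cancel_right]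
      exact hv
    · intro hv
      have h2 := h1 _ hv
      have h3 : g * v = g * (g * v * g⁻¹) := by
        rw [← h2]
        group
      rw [mul_left_cancel h3]
      exact hv
  have hNX : N ≤ Subgroup.normalizer (X : Set G) := by
    intro g hg
    rw [Subgroup.mem_normalizer_iff]
    have key : ∀ g ∈ N, ∀ x ∈ X, g * x * g⁻¹ ∈ X := by
      intro g hg x hx
      rw [hX, Subgroup.mem_centralizer_iff] at hx ⊢
      intro v hv
      have h2 : g⁻¹ * v * g ∈ V := by
        have := (Subgroup.mem_normalizer_iff.1 (inv_mem hg) v).1 hv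
        rwa [inv_inv] at this
      have h3 := hx _ h2
      calc v * (g * x * g⁻¹) = g * (g⁻¹ * v * g * x) * g⁻¹ := by group
        _ = g * (x * (g⁻¹ * v * g)) * g⁻¹ := by rw [h3]
        _ = g * x * g⁻¹ * v := by group
    intro x
    constructor
    · exact key g hg x
    · intro h
      have := key g⁻¹ (inv_mem hg) _ h
      have e : g⁻¹ * (g * x * g⁻¹) * g⁻¹⁻¹ = x := by group
      rwa [e] at this
  have hVX : V ≤ X := by
    intro v hv
    rw [hX, Subgroup.mem_centralizer_iff]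
    intro x hx
    exact hab x hx v hv
  set bV := br V B with hbV
  have hbVX : ∀ x, x ∉ X → bV x = 0 := fun x hx => H66.br_of_not_mem hx
  have hbI : Ix X bV := by
    refine ⟨hbVX, ?_, ?_⟩
    · intro x y
      exact hbx.blk.1.1 ⟨x, ⟨hXN x.2, hXC x.2⟩⟩ ⟨y, ⟨hXN y.2, hXC y.2⟩⟩
    · rw [← mulF_res X bV hbVX, hbx.mul]
  -- the representatives
  have hrep : ∀ q : G ⧸ C, ∃ t : G, q ∈ QN N C → t ∈ N ∧ (t : G ⧸ C) = q := by
    intro q
    by_cases hq : q ∈ QN N C
    · obtain ⟨t, ht, htq⟩ := hq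
      exact ⟨t, fun _ => ⟨ht, htq⟩⟩
    · exact ⟨1, fun h => absurd h hq⟩
  choose rep hrep using hrep
  have hfinq : Finite (G ⧸ C) := inferInstance
  have := Fintype.ofFinite (G ⧸ C)
  set a : G → F := fun x => B (w⁻¹ * x) with ha
  have haC : ∀ c ∈ C, cj c a = a := by
    intro c hc
    funext x
    change B (w⁻¹ * (c⁻¹ * x * c)) = B (w⁻¹ * x)
    have h2 := (cj_eq_iff c B).1 (hB.inv hc) (w⁻¹ * (c⁻¹ * x * c))
    rw [← h2]
    congr 1
    have h3 := hwC c hc
    have h4 : c * w⁻¹ = w⁻¹ * c := (show Commute c w from h3).inv_right.eq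
    calc c * (w⁻¹ * (c⁻¹ * x * c)) * c⁻¹ = (c * w⁻¹) * (c⁻¹ * x) := by group
      _ = w⁻¹ * x := by rw [h4]; group
  have hsum : br V (tsm C a) =
      ∑ q ∈ Finset.univ.filter (fun q => q ∈ QN N C), cj (rep q) (mulF (dl F w) bV) := by
    funext g
    rw [Finset.sum_apply]
    have hcj : ∀ q ∈ QN N C, ∀ x, (rep q)⁻¹ * x * rep q ∈ X ↔ x ∈ X := fun q hq x =>
      conj_mem_iff (hNX (hrep q hq).1) x
    by_cases hg : g ∈ X
    · rw [H66.br_of_mem hg, tsm_br hF hV hVC haC _ hg, finsum_eq_sum_of_fintype,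
        Finset.sum_filter]
      · refine Finset.sum_congr rfl fun q _ => ?_
        rw [finsum_eq_if]
        by_cases hq : q ∈ QN N C
        · rw [if_pos hq, if_pos hq]
          have h2 := (hrep q hq).2
          conv_lhs => rw [← h2, cj_out haC]
          rw [cj, cj, mulF_dl_left, ha]
          change B _ = bV _
          rw [hbV, H66.br_of_mem]
          exact X.mul_mem (X.inv_mem (hVX hwV)) ((hcj q hq g).2 hg)
        · rw [if_neg hq, if_neg hq]
      · intro t ht g hg hne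
        obtain ⟨c, hc, htc⟩ := hgood t ht (by
          refine ⟨w⁻¹ * (t⁻¹ * g * t), ?_, hne⟩
          intro v hv
          have h2 := Subgroup.mem_centralizer_iff.1 hg v hv
          have h3 := hwC _ (ht v hv)
          have h4 : t⁻¹ * v * t * w⁻¹ = w⁻¹ * (t⁻¹ * v * t) :=
            (show Commute (t⁻¹ * v * t) w from h3).inv_right.eq
          calc w⁻¹ * (t⁻¹ * g * t) * (t⁻¹ * v * t) = w⁻¹ * (t⁻¹ * (g * v) * t) := by group
            _ = w⁻¹ * (t⁻¹ * v * t) * (t⁻¹ * g * t) := by rw [← h2]; group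
            _ = t⁻¹ * v * t * w⁻¹ * (t⁻¹ * g * t) := by rw [h4]
            _ = t⁻¹ * v * t * (w⁻¹ * (t⁻¹ * g * t)) := by group)
        refine ⟨t * c, htc, ?_⟩
        symm
        rw [QuotientGroup.eq, inv_mul_cancel_left]
        exact hc
    · rw [H66.br_of_not_mem hg]
      symm
      apply Finset.sum_eq_zero
      intro q hq
      rw [Finset.mem_filter] at hq
      rw [cj, mulF_dl_left]
      apply hbVX
      intro h
      apply hg
      rw [← hcj q hq.2]
      have := X.mul_mem (hVX hwV) h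
      rwa [mul_inv_cancel_left] at this
  set S : Finset (G ⧸ C) := Finset.univ.filter
    (fun q => q ∈ QN N C ∧ mulF (cj (rep q) bV) γ = γ) with hS
  have hwS : ∀ q ∈ QN N C, rep q * w * (rep q)⁻¹ ∈ V := fun q hq =>
    (Subgroup.mem_normalizer_iff.1 (hrep q hq).1 w).1 hwV
  have hzγ : ma (br V (tsm C a)) * ma γ =
      (∑ q ∈ S, ma (dl F (rep q * w * (rep q)⁻¹))) * ma γ := by
    have h8 : ∑ q ∈ S, ma (dl F (rep q * w * (rep q)⁻¹)) * ma γ =
        ∑ q ∈ Finset.univ.filter (fun q => q ∈ QN N C),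
          if mulF (cj (rep q) bV) γ = γ then ma (dl F (rep q * w * (rep q)⁻¹)) * ma γ
            else 0 := by
      rw [← Finset.sum_filter, Finset.filter_filter]
    rw [hsum, ma_sum, Finset.sum_mul, Finset.sum_mul, h8]
    refine Finset.sum_congr rfl fun q hq => ?_
    rw [Finset.mem_filter] at hq
    have h2 : cj (rep q) (dl F w) = dl F (rep q * w * (rep q)⁻¹) := by
      funext x
      rw [cj]
      unfold dl
      have h3 : ((rep q)⁻¹ * x * rep q = w) ↔ (x = rep q * w * (rep q)⁻¹) := by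
        constructor
        · rintro rfl
          group
        · rintro rfl
          group
      by_cases h4 : (rep q)⁻¹ * x * rep q = w
      · rw [if_pos h4, if_pos (h3.1 h4)]
      · rw [if_neg h4, if_neg (fun h => h4 (h3.2 h))]
    rw [cj_mulF, h2, ma_mul, mul_assoc, ← ma_mul]
    by_cases h5 : mulF (cj (rep q) bV) γ = γ
    · rw [if_pos h5, h5]
    · rw [if_neg h5]
      have h6 := hbI.cj (hNX (hrep q hq.2).1)
      rcases hγ.dich' h6 with h7 | h7
      · exact absurd (by rw [h6.comm hγ.ix, h7]) h5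
      · rw [h6.comm hγ.ix, h7, ma_zero, mul_zero]
  -- the number of summands
  have hScard : S.card = C.relIndex (N ⊓ stabF γ) := by
    rw [← orbit_card, ← Set.ncard_coe_finset]
    congr 1
    ext q
    rw [Finset.mem_coe, hS, Finset.mem_filter, MulAction.mem_orbit_iff]
    constructor
    · rintro ⟨-, hq, h2⟩
      obtain ⟨hr1, hr2⟩ := hrep q hq
      have h3 : mulF bV (cj (rep q)⁻¹ γ) = cj (rep q)⁻¹ γ := by
        have := congrArg (cj (rep q)⁻¹) h2
        rwa [cj_mulF, cj_inv_cj] at this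
      obtain ⟨m, hm, hm'⟩ := orb_main (N := N ⊓ C) (X := X) (le_inf hXN hXC)
        (inf_le_left.trans hNX) hbx hγ (hγ.cj (hNX (inv_mem hr1))) h1 h3
      have h4 : cj (rep q * m) γ = γ := by
        rw [← cj_cj, ← hm', cj_cj_inv]
      refine ⟨⟨rep q * m, N.mul_mem hr1 hm.1, (cj_eq_iff _ _).1 h4⟩, ?_⟩
      change ((rep q * m * 1 : G) : G ⧸ C) = q
      rw [mul_one, ← hr2]
      symm
      rw [QuotientGroup.eq, hr2, inv_mul_cancel_left]
      exact hm.2
    · rintro ⟨⟨t, ht1, ht2⟩, rfl⟩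
      have h0 : ((⟨t, ht1, ht2⟩ : (N ⊓ stabF γ : Subgroup G)) • ((1 : G) : G ⧸ C)) =
          ((t : G) : G ⧸ C) := by
        change ((t * 1 : G) : G ⧸ C) = _
        rw [mul_one]
      rw [h0]
      have hq : ((t : G) : G ⧸ C) ∈ QN N C := ⟨t, ht1, rfl⟩
      refine ⟨Finset.mem_univ _, hq, ?_⟩
      obtain ⟨hr1, hr2⟩ := hrep _ hq
      have h5 : (rep (t : G ⧸ C))⁻¹ * t ∈ N ⊓ C :=
        ⟨N.mul_mem (inv_mem hr1) ht1, QuotientGroup.eq.1 hr2⟩
      have h6 : cj (rep (t : G ⧸ C)) bV = cj t bV := by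
        have := hbx.ix.inv h5
        conv_lhs => rw [← this, cj_cj, mul_inv_cancel_left]
      have h7 : cj t γ = γ := (cj_eq_iff _ _).2 ht2
      rw [h6]
      conv_lhs => rw [← h7, ← cj_mulF, h1]
      exact h7
  have hScard' : ¬ ℓ ∣ S.card := by
    rw [hScard]
    intro h
    exact hinx (h.trans (Subgroup.relIndex_dvd_of_le_left _ hXC))
  exact not_nil hF hV hab S (fun q => rep q * w * (rep q)⁻¹)
    (fun q hq => hwS q (Finset.mem_filter.1 hq).2.1) hScard' hγ.ne
    (fun v hv => hγ.ix.inv (hVX hv)) hzγ n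

end trace

end Pool.Agent.PP.K9.H97
end
end -- Pool.Agent.Helper97_K9.NZB

section -- Pool.Agent.Helper97_K9.NZR

/-!
# Squad K9, module NZR
-/

open scoped BigOperators

noncomputable section

namespace Pool.Agent.PP.K9.H97

open Pool.Agent.Helper51_AWC Pool.Agent.Helper79_WRA Pool.Agent.PP Pool.Agent.PP.KF
open Pool.Agent.PP.H75

attribute [local instance] Ideal.Quotient.field

section transfer

variable {F G : Type} [Field F] [Group G] [Finite G] {C V : Subgroup G}

omit [Finite G] in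
/-- the centraliser of a subgroup of `C` in `C` -/
theorem cent_sub (hVC : V ≤ C) (t : C) :
    t ∈ Subgroup.centralizer ((V.subgroupOf C : Subgroup C) : Set C) ↔
      (t : G) ∈ Subgroup.centralizer (V : Set G) := by
  rw [Subgroup.mem_centralizer_iff, Subgroup.mem_centralizer_iff]
  constructor
  · intro h v hv
    exact congrArg Subtype.val (h ⟨v, hVC hv⟩ hv)
  · intro h v hv
    exact Subtype.ext (h v hv)

omit [Finite G] in
theorem br_ext0 (hVC : V ≤ C) (b : C → F) (t : C) :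
    br V (PP.ext0 C b) (t : G) = br (V.subgroupOf C) b t := by
  by_cases ht : (t : G) ∈ Subgroup.centralizer (V : Set G)
  · rw [H66.br_of_mem ht, H66.br_of_mem ((cent_sub hVC t).2 ht), H46.ext0_of_mem _ t.2]
  · rw [H66.br_of_not_mem ht, H66.br_of_not_mem (fun h => ht ((cent_sub hVC t).1 h))]

omit [Finite G] in
theorem norm_sub (hVC : V ≤ C) : (Subgroup.normalizer (V : Set G) ⊓ C).subgroupOf C =
    Subgroup.normalizer ((V.subgroupOf C : Subgroup C) : Set C) := by
  ext t
  rw [Subgroup.mem_subgroupOf, Subgroup.mem_normalizer_iff]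
  constructor
  · rintro ⟨h, -⟩ v
    exact Subgroup.mem_normalizer_iff.1 h v
  · intro h
    refine ⟨?_, t.2⟩
    change (t : G) ∈ Subgroup.normalizer (V : Set G)
    rw [Subgroup.mem_normalizer_iff]
    intro v
    constructor
    · intro hv
      exact (h ⟨v, hVC hv⟩).1 hv
    · intro hv
      have h1 : v ∈ C := by
        have h2 := C.mul_mem (C.mul_mem (C.inv_mem t.2) (hVC hv)) t.2
        have e : (t : G)⁻¹ * (t * v * (t : G)⁻¹) * t = v := by group
        rwa [e] at h2
      exact (h ⟨v, h1⟩).2 hv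

omit [Finite G] in
/-- transfer of the block of the normaliser -/
theorem bx_of (hVC : V ≤ C) (hXC : Subgroup.centralizer (V : Set G) ≤ C)
    (hXN : Subgroup.centralizer (V : Set G) ≤ Subgroup.normalizer (V : Set G)) {b : C → F}
    (h : IsBlk (fun t : Subgroup.normalizer ((V.subgroupOf C : Subgroup C) : Set C) =>
      br (V.subgroupOf C) b t)) :
    Bx (Subgroup.normalizer (V : Set G) ⊓ C) (br V (PP.ext0 C b)) := by
  refine ⟨fun x hx => H66.br_of_not_mem (fun h => hx ⟨hXN h, hXC h⟩), ?_⟩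
  let φ : ↥(Subgroup.normalizer (V : Set G) ⊓ C) ≃*
      ↥(Subgroup.normalizer ((V.subgroupOf C : Subgroup C) : Set C)) :=
    (Subgroup.subgroupOfEquivOfLe (inf_le_right)).symm.trans
      (MulEquiv.subgroupCongr (norm_sub hVC))
  have h1 := H20.IsBlk_equiv φ h
  have h2 : (fun t : ↥(Subgroup.normalizer (V : Set G) ⊓ C) => br V (PP.ext0 C b) t) =
      fun t => br (V.subgroupOf C) b ((φ t : Subgroup.normalizer
        ((V.subgroupOf C : Subgroup C) : Set C)) : C) := by
    funext t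
    exact br_ext0 hVC b ⟨t, t.2.2⟩
  rw [h2]
  exact h1

end transfer

/-- NZR -/
theorem nzr (fmg : FmgStmt) (_orb : K9.OrbStmt) (inx : InxStmt) : NzrStmt := by
  intro ℓ _ M _ hM G _ _ e he V hT hab u hu b hb heb hgb w hw χ hχ h0
  have hF : GoodF ℓ (FF M) := H50.fld ℓ Fact.out M hM
  have hVC : V ≤ Cu u := fun v hv => Subgroup.mem_centralizer_singleton_iff.2 (hab v hv u hu)
  have hXC : Subgroup.centralizer (V : Set G) ≤ Cu u := fun g hg =>
    Subgroup.mem_centralizer_singleton_iff.2 (Subgroup.mem_centralizer_iff.1 hg u hu).symm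
  have hwV : w ∈ V := (Subgroup.zpowers_le.2 hu) hw
  have hwC : ∀ c ∈ Cu u, c * w = w * c := by
    intro c hc
    obtain ⟨k, rfl⟩ := Subgroup.mem_zpowers_iff.1 hw
    exact (Commute.zpow_right (show Commute c u from
      Subgroup.mem_centralizer_singleton_iff.1 hc) k).eq
  have hXN : Subgroup.centralizer (V : Set G) ≤ Subgroup.normalizer (V : Set G) := by
    intro g hg
    rw [Subgroup.mem_normalizer_iff]
    intro v
    have h1 := Subgroup.mem_centralizer_iff.1 hg
    constructor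
    · intro hv
      rw [← h1 v hv, mul_inv_cancel_right]
      exact hv
    · intro hv
      have h2 := h1 _ hv
      have h3 : g * v = g * (g * v * g⁻¹) := by
        rw [← h2]
        group
      rw [mul_left_cancel h3]
      exact hv
  have hB : Ix (Cu u) (PP.ext0 (Cu u) b) := by
    refine ⟨fun x hx => H46.ext0_of_not_mem _ hx, ?_⟩
    rw [H46.restr_ext0]
    exact hb.1
  have heC : IsCl (fun t : Cu u => e t) := fun x y => he.1.1 x y
  have hVcard : Nat.card (V.subgroupOf (Cu u)) = Nat.card V :=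
    Nat.card_congr (Subgroup.subgroupOfEquivOfLe hVC).toEquiv
  have hVp : IsPGroup ℓ (V.subgroupOf (Cu u)) :=
    hT.pg.of_equiv (Subgroup.subgroupOfEquivOfLe hVC).symm
  -- `V` is a defect group of `b`
  have hTb : Tp ℓ b (V.subgroupOf (Cu u)) := by
    refine ⟨hVp, hgb, ?_⟩
    intro Q hQ hQb
    have h1 := gd_map (gd_of_mul hF heC hb.1.1 heb hQ hQb)
    have hcard : Nat.card (Q.map (Cu u).subtype) = Nat.card Q :=
      (Nat.card_congr (Q.equivMapOfInjective (Cu u).subtype
        (Cu u).subtype_injective).toEquiv).symm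
    have h2 := hT.mx _ (hQ.map (Cu u).subtype) h1
    rw [hcard] at h2
    rw [hVcard]
    exact h2
  obtain ⟨hf1, ⟨hf2, -⟩, -⟩ := fmg ℓ M hM (Cu u) b hb _ hTb
  have hbx := bx_of hVC hXC hXN hf2
  set B := PP.ext0 (Cu u) b with hBdef
  -- conjugates of `V` in the centraliser of `u`
  have hgood : ∀ t : G, (∀ v ∈ V, t⁻¹ * v * t ∈ Cu u) →
      (∃ x, (∀ v ∈ V, x * (t⁻¹ * v * t) = t⁻¹ * v * t * x) ∧ B x ≠ 0) →
      ∃ c ∈ Cu u, t * c ∈ Subgroup.normalizer (V : Set G) := by
    rintro t ht ⟨x, hx1, hx2⟩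
    have hxC : x ∈ Cu u := by
      by_contra h
      exact hx2 (hB.supp x h)
    set Q : Subgroup (Cu u) := (conjS t⁻¹ V).subgroupOf (Cu u) with hQ
    have hQC : conjS t⁻¹ V ≤ Cu u := by
      intro y hy
      rw [mem_conjS, inv_inv] at hy
      have := ht _ hy
      rwa [show t⁻¹ * (t * y * t⁻¹) * t = y by group] at this
    have hQp : IsPGroup ℓ Q :=
      (hT.pg.map (MulAut.conj t⁻¹).toMonoidHom).of_equiv (Subgroup.subgroupOfEquivOfLe hQC).symm
    have hQg : Gd b Q := by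
      refine ⟨⟨x, hxC⟩, ?_, ?_⟩
      · rw [Subgroup.mem_centralizer_iff]
        intro y hy
        have hy' : (y : G) ∈ conjS t⁻¹ V := hy
        rw [mem_conjS, inv_inv] at hy'
        have h3 := hx1 _ hy'
        rw [show t⁻¹ * (t * (y : G) * t⁻¹) * t = y by group] at h3
        exact Subtype.ext h3.symm
      · rw [hBdef, H46.ext0_of_mem _ hxC] at hx2
        exact hx2
    obtain ⟨c, hc⟩ := hf1 Q hQp hQg
    refine ⟨c, c.2, ?_⟩
    -- `(t c)⁻¹ V (t c) ≤ V`
    have h4 : ∀ v ∈ V, (t * (c : G))⁻¹ * v * (t * c) ∈ V := by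
      intro v hv
      have h5 : (⟨t⁻¹ * v * t, ht v hv⟩ : Cu u) ∈ Q := by
        change t⁻¹ * v * t ∈ conjS t⁻¹ V
        rw [mem_conjS, inv_inv, show t * (t⁻¹ * v * t) * t⁻¹ = v by group]
        exact hv
      have h6 := hc h5
      rw [mem_conjS] at h6
      have h7 : (c : G)⁻¹ * (t⁻¹ * v * t) * c ∈ V := h6
      rwa [show (t * (c : G))⁻¹ * v * (t * c) = (c : G)⁻¹ * (t⁻¹ * v * t) * c by group]
    have h8 : (t * (c : G))⁻¹ ∈ Subgroup.normalizer (V : Set G) := by
      have h9 : conjS (t * (c : G))⁻¹ V = V := by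
        apply Subgroup.eq_of_le_of_card_ge
        · intro y hy
          rw [mem_conjS, inv_inv] at hy
          have := h4 _ hy
          rwa [show (t * (c : G))⁻¹ * (t * c * y * (t * (c : G))⁻¹) * (t * c) = y by group]
            at this
        · exact (Nat.card_congr (V.equivMapOfInjective (MulAut.conj (t * (c : G))⁻¹).toMonoidHom
            (MulAut.conj (t * (c : G))⁻¹).injective).toEquiv).le
      rw [Subgroup.mem_normalizer_iff]
      intro v
      conv_rhs => rw [← h9]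
      rw [mem_conjS, inv_inv]
      rw [show t * (c : G) * ((t * (c : G))⁻¹ * v * (t * c)) * (t * (c : G))⁻¹ = v by group]
    have := inv_mem h8
    rwa [inv_inv] at this
  -- `br V e * br V B = br V B`
  have heB : mulF (br V e) (br V B) = br V B := by
    set E : G → FF M := PP.ext0 (Cu u) (fun t : Cu u => e t) with hE
    have hEinv : H66.Inv V E := by
      intro p hp t
      by_cases ht : t ∈ Cu u
      · have ht' : p * t * p⁻¹ ∈ Cu u :=
          (Cu u).mul_mem ((Cu u).mul_mem (hVC hp) ht) ((Cu u).inv_mem (hVC hp))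
        rw [hE, H46.ext0_of_mem _ ht, H46.ext0_of_mem _ ht']
        exact he.1.1 t p
      · rw [hE, H46.ext0_of_not_mem _ ht, H46.ext0_of_not_mem]
        intro h
        apply ht
        have h2 := (Cu u).mul_mem ((Cu u).mul_mem ((Cu u).inv_mem (hVC hp)) h) (hVC hp)
        rwa [show p⁻¹ * (p * t * p⁻¹) * p = t by group] at h2
    have hBinv : H66.Inv V B := fun p hp => (cj_eq_iff p B).1 (hB.inv (hVC hp))
    have hEB : mulF E B = B := by
      have hEs : ∀ x, x ∉ Cu u → E x = 0 := fun x hx => H46.ext0_of_not_mem _ hx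
      apply eq_of_res (mulF_supp (Cu u) hEs hB.supp) hB.supp
      rw [mulF_res (Cu u) B hEs, hE, hBdef, H46.restr_ext0, H46.restr_ext0]
      exact heb
    have h1 := H66.br_mulF hF hT.pg hEinv hBinv
    rw [hEB] at h1
    have h2 : br V E = br V e := by
      funext g
      by_cases hg : g ∈ Subgroup.centralizer (V : Set G)
      · rw [H66.br_of_mem hg, H66.br_of_mem hg, hE, H46.ext0_of_mem _ (hXC hg)]
      · rw [H66.br_of_not_mem hg, H66.br_of_not_mem hg]
    rw [h2] at h1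
    exact h1.symm
  -- a block of the centraliser of `V`
  have hbI : IsIdem (fun t : Subgroup.centralizer (V : Set G) => br V B t) := by
    refine ⟨fun x y => hbx.blk.1.1 ⟨x, ⟨hXN x.2, hXC x.2⟩⟩ ⟨y, ⟨hXN y.2, hXC y.2⟩⟩, ?_⟩
    rw [← mulF_res (Subgroup.centralizer (V : Set G)) _ (fun x hx => H66.br_of_not_mem hx),
      hbx.mul]
  obtain ⟨g₀, hg₀, hg₀'⟩ := hgb
  have hg₁ := (cent_sub hVC g₀).1 hg₀
  obtain ⟨γ₀, hγ₀, hγ₁, -⟩ := H69.exists_blk hbI (g := ⟨g₀, hg₁⟩) (by
    change br V B (g₀ : G) ≠ 0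
    rw [H66.br_of_mem hg₁, hBdef, H46.ext0_of_mem _ g₀.2]
    exact hg₀')
  set γ := H75.ext0 (Subgroup.centralizer (V : Set G)) γ₀ with hγdef
  have hγr : (fun t : Subgroup.centralizer (V : Set G) => γ t) = γ₀ :=
    funext (ext0_apply _ γ₀)
  have hγ : Bx (Subgroup.centralizer (V : Set G)) γ := by
    refine ⟨ext0_supp _ γ₀, ?_⟩
    rw [hγr]
    exact hγ₀
  have hbs : ∀ x, x ∉ Subgroup.centralizer (V : Set G) → br V B x = 0 := fun x hx =>
    H66.br_of_not_mem hx
  have h1 : mulF (br V B) γ = γ := by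
    apply eq_of_res (mulF_supp _ hbs hγ.supp) hγ.supp
    rw [mulF_res _ γ hbs, hγr]
    exact hγ₁
  have h2 : mulF (br V e) γ = γ := by
    conv_lhs => rw [← h1, ← mulF_assoc, heB]
    exact h1
  have hinx := inx ℓ M hM G e he V hT hab γ hγ.supp hγ.blk h2
  -- the trace
  have hz : trc (Cu u) w b = tsm (Cu u) (fun x => B (w⁻¹ * x)) := rfl
  have hzC : ∀ c ∈ Cu u, cj c (fun x => B (w⁻¹ * x)) = fun x => B (w⁻¹ * x) := by
    intro c hc
    funext x
    change B (w⁻¹ * (c⁻¹ * x * c)) = B (w⁻¹ * x)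
    have h2 := (cj_eq_iff c B).1 (hB.inv hc) (w⁻¹ * (c⁻¹ * x * c))
    rw [← h2]
    congr 1
    have h4 : c * w⁻¹ = w⁻¹ * c := (show Commute c w from hwC c hc).inv_right.eq
    calc c * (w⁻¹ * (c⁻¹ * x * c)) * c⁻¹ = (c * w⁻¹) * (c⁻¹ * x) := by group
      _ = w⁻¹ * x := by rw [h4]; group
  have hzcl : IsCl (trc (Cu u) w b) := by
    rw [hz]
    exact tsm_cl hzC
  obtain ⟨n, hn⟩ := H50.nil_of_zero he hzcl (H50.isChar_res hχ.1) hχ.2 h0
  have h3 := (br_iter hF hT.pg (H66.IsCl.inv hzcl V) (H66.IsCl.inv he.1.1 V) n).2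
  rw [hn] at h3
  have h4 : br V (0 : G → FF M) = 0 := by
    funext g
    by_cases hg : g ∈ Subgroup.centralizer (V : Set G)
    · rw [H66.br_of_mem hg]
    · rw [H66.br_of_not_mem hg]
      rfl
  rw [h4] at h3
  have h5 := congrArg ma h3
  rw [ma_zero, ma_iterate] at h5
  have h6 : ma (br V (trc (Cu u) w b)) ^ n * ma γ = 0 := by
    conv_lhs => rw [← h2, ma_mul, ← mul_assoc, ← h5, zero_mul]
  exact nzr_core hF hT.pg hab hVC hXC hB hwV hwC hgood hγ h1 hbx hinx n h6

end Pool.Agent.PP.K9.H97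
end
end -- Pool.Agent.Helper97_K9.NZR
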