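import Pool.Agent.AT3.Stmts2
import Pool.Agent.Helper12_AWB.B133
import Pool.Agent.Helper12_AWB.B157
import Pool.Agent.Helper12_AWB.B163

/-!
# Merged copies (generated) of the modules

* `Pool.Agent.Helper24_KF.Du4`
* `Pool.Agent.Helper9_D1.Inv`
* `Pool.Agent.Helper24_K9.Dun`
* `Pool.Agent.Helper24_K9.Duc`
* `Pool.Agent.Helper88_AT3.Loc`
-/

set_option autoImplicit false

section -- Pool.Agent.Helper24_KF.Du4

/-!
# Squad KF, module DU4: the blocks of the centraliser of an involution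

Text: `AWC_KF.md`.  A block `c` of the centraliser of the involution `u`, below a block `b` with
Klein four defect groups, has Klein four defect groups.
-/

open scoped BigOperators

set_option linter.unusedSectionVars false

noncomputable section

namespace Pool.Agent.PP.KF.H24

open Pool.Agent.Helper51_AWC Pool.Agent.Helper79_WRA Pool.Agent.PP
open Pool.Agent.PP.D1.H27 (clsum_pos clsum_neg)

section grp

theorem v4_sub : DF.SubCl V4 := by
  intro Q R _ _ j hj hR
  obtain ⟨k, hk⟩ := hR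
  exact ⟨k.comp j, hk.comp hj⟩

theorem inv2_order {G : Type} [Group G] {u : G} (hu : Inv2 u) : orderOf u = 2 :=
  orderOf_eq_prime (by rw [pow_two]; exact hu.sq) hu.ne

theorem inv2_card {G : Type} [Group G] {u : G} (hu : Inv2 u) :
    Nat.card (Subgroup.zpowers u) = 2 := by
  rw [Nat.card_zpowers, inv2_order hu]

theorem inv2_pgroup {G : Type} [Group G] {u : G} (hu : Inv2 u) :
    IsPGroup 2 (Subgroup.zpowers u) :=
  IsPGroup.of_card (n := 1) (by rw [inv2_card hu, pow_one])

theorem mem_zpowers_inv2 {G : Type} [Group G] {u v : G} (hu : Inv2 u)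
    (hv : v ∈ Subgroup.zpowers u) : v = 1 ∨ v = u := by
  obtain ⟨n, rfl⟩ := hv
  have h1 : u ^ (2 : ℤ) = 1 := by
    rw [zpow_two]
    exact hu.sq
  change u ^ n = 1 ∨ u ^ n = u
  rcases Int.even_or_odd' n with ⟨k, hk | hk⟩
  · left
    rw [hk, zpow_mul, h1, one_zpow]
  · right
    rw [hk, zpow_add, zpow_mul, h1, one_zpow, zpow_one, one_mul]

/-- two involutions of a group whose order is not divisible by four are conjugate -/
theorem invol_conj {D : Type} [Group D] [Finite D] (h4 : ¬ 4 ∣ Nat.card D) {a b : D}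
    (ha : Inv2 a) (hb : Inv2 b) : ∃ s, s * a * s⁻¹ = b := by
  have hfact : Fact (Nat.Prime 2) := ⟨Nat.prime_two⟩
  have hidx : ∀ {c : D}, Inv2 c → ¬ 2 ∣ (Subgroup.zpowers c).index := by
    intro c hc hd
    apply h4
    rw [← Subgroup.card_mul_index (Subgroup.zpowers c), inv2_card hc]
    exact mul_dvd_mul_left 2 hd
  let A : Sylow 2 D := (inv2_pgroup ha).toSylow (hidx ha)
  let B : Sylow 2 D := (inv2_pgroup hb).toSylow (hidx hb)
  obtain ⟨s, hs⟩ := MulAction.exists_smul_eq D A B
  refine ⟨s, ?_⟩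
  have h1 : a ∈ A := Subgroup.mem_zpowers a
  have h2 : s * a * s⁻¹ ∈ (A.1 : Subgroup D).map (MulAut.conj s).toMonoidHom := ⟨a, h1, rfl⟩
  have h3 : s * a * s⁻¹ ∈ s • A := h2
  rw [hs] at h3
  have h5 : s * a * s⁻¹ ∈ Subgroup.zpowers b := h3
  rcases mem_zpowers_inv2 hb h5 with h | h
  · exfalso
    apply ha.ne
    have h6 : s * a = s := mul_inv_eq_one.1 h
    exact mul_eq_left.1 h6
  · exact h

variable {X : Type} [Group X] [Finite X]

/-- the centraliser of a conjugate -/
theorem card_cent_conj (x r : X) :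
    Nat.card (Subgroup.centralizer ({r * x * r⁻¹} : Set X)) =
      Nat.card (Subgroup.centralizer ({x} : Set X)) := by
  have h1 := D1H51.centralizer_conj x r (N := ⊤) (Subgroup.mem_top r)
  rw [inf_top_eq, inf_top_eq] at h1
  rw [h1, card_conjS]

/-- a subgroup of order four containing the involution `u` of the centraliser of `y` -/
theorem exists_four {u y : X} (hu : Inv2 u) (huy : u * y = y * u)
    (hd : 4 ∣ Nat.card (Subgroup.centralizer ({y} : Set X))) :
    ∃ V : Subgroup X, Nat.card V = 4 ∧ V ≤ Subgroup.centralizer ({u} : Set X) ∧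
      V ≤ Subgroup.centralizer ({y} : Set X) := by
  have hfact : Fact (Nat.Prime 2) := ⟨Nat.prime_two⟩
  have huD : u ∈ Subgroup.centralizer ({y} : Set X) :=
    Subgroup.mem_centralizer_singleton_iff.2 huy
  set D := Subgroup.centralizer ({y} : Set X) with hD
  have hu' : Inv2 (⟨u, huD⟩ : D) := by
    refine ⟨Subtype.ext hu.sq, ?_⟩
    intro h
    exact hu.ne (congrArg Subtype.val h)
  have hcard : Nat.card (Subgroup.zpowers (⟨u, huD⟩ : D)) = 2 ^ 1 := by
    rw [inv2_card hu', pow_one]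
  obtain ⟨K, hK, hle⟩ := Sylow.exists_subgroup_card_pow_succ (p := 2) (n := 1)
    (by norm_num; exact hd) hcard
  have hcomm : ∀ v w : K, v * w = w * v := by
    have hK2 : Nat.card K = 2 ^ 2 := hK
    have := IsPGroup.commutative_of_card_eq_prime_sq hK2
    exact this
  refine ⟨K.map D.subtype, ?_, ?_, ?_⟩
  · rw [Subgroup.card_map_of_injective D.subtype_injective, hK]
    norm_num
  · rintro _ ⟨v, hv, rfl⟩
    rw [Subgroup.mem_centralizer_singleton_iff]
    have h1 : (⟨u, huD⟩ : D) ∈ K := hle (Subgroup.mem_zpowers _)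
    have h2 := hcomm ⟨v, hv⟩ ⟨_, h1⟩
    have h3 : v * ⟨u, huD⟩ = ⟨u, huD⟩ * v := congrArg Subtype.val h2
    exact congrArg Subtype.val h3
  · exact Subgroup.map_subtype_le K

/-- the conjugates of `y` in the centraliser of `u` -/
theorem conj_iff {u : X} (hu : Inv2 u) (y : Cu u)
    (h4 : ¬ 4 ∣ Nat.card (Subgroup.centralizer ({(y : X)} : Set X))) (t : Cu u) :
    (∃ r : X, (t : X) = r * y * r⁻¹) ↔ ∃ r : Cu u, t = r * y * r⁻¹ := by
  constructor
  · rintro ⟨r, hr⟩
    have hyu : (y : X) * u = u * y := Subgroup.mem_centralizer_singleton_iff.1 y.2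
    have htu : (t : X) * u = u * t := Subgroup.mem_centralizer_singleton_iff.1 t.2
    set D := Subgroup.centralizer ({(t : X)} : Set X) with hD
    have h1 : u ∈ D := Subgroup.mem_centralizer_singleton_iff.2 htu.symm
    have h2 : r * u * r⁻¹ ∈ D := by
      rw [hD, Subgroup.mem_centralizer_singleton_iff, hr]
      calc r * u * r⁻¹ * (r * y * r⁻¹) = r * (u * y) * r⁻¹ := by group
        _ = r * (y * u) * r⁻¹ := by rw [hyu]
        _ = r * y * r⁻¹ * (r * u * r⁻¹) := by group
    have i1 : Inv2 (⟨u, h1⟩ : D) := by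
      refine ⟨Subtype.ext hu.sq, ?_⟩
      intro h
      exact hu.ne (congrArg Subtype.val h)
    have i2 : Inv2 (⟨r * u * r⁻¹, h2⟩ : D) := by
      refine ⟨Subtype.ext ?_, ?_⟩
      · change r * u * r⁻¹ * (r * u * r⁻¹) = 1
        calc r * u * r⁻¹ * (r * u * r⁻¹) = r * (u * u) * r⁻¹ := by group
          _ = 1 := by rw [hu.sq, mul_one, mul_inv_cancel]
      · intro h
        have h3 : r * u * r⁻¹ = 1 := congrArg Subtype.val h
        have h5 : r * u = r := mul_inv_eq_one.1 h3
        exact hu.ne (mul_eq_left.1 h5)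
    have hD4 : ¬ 4 ∣ Nat.card D := by
      rw [hD, hr, card_cent_conj]
      exact h4
    obtain ⟨s, hs⟩ := invol_conj hD4 i2 i1
    have hs' : (s : X) * (r * u * r⁻¹) * (s : X)⁻¹ = u := congrArg Subtype.val hs
    have hsr : (s : X) * r ∈ Cu u := by
      rw [Subgroup.mem_centralizer_singleton_iff]
      calc (s : X) * r * u = (s : X) * (r * u * r⁻¹) * (s : X)⁻¹ * ((s : X) * r) := by group
        _ = u * ((s : X) * r) := by rw [hs']
    refine ⟨⟨(s : X) * r, hsr⟩, Subtype.ext ?_⟩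
    change (t : X) = (s : X) * r * y * ((s : X) * r)⁻¹
    have hst : (s : X) * t = t * s := Subgroup.mem_centralizer_singleton_iff.1 s.2
    calc (t : X) = (t * s) * (s : X)⁻¹ := by group
      _ = ((s : X) * t) * (s : X)⁻¹ := by rw [hst]
      _ = ((s : X) * (r * y * r⁻¹)) * (s : X)⁻¹ := by rw [hr]
      _ = (s : X) * r * y * ((s : X) * r)⁻¹ := by group
  · rintro ⟨r, hr⟩
    exact ⟨r, congrArg Subtype.val hr⟩

end grp

section core

variable {F X : Type} [Field F] [Group X] [Finite X]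

theorem cent_zpowers (u : X) : Subgroup.centralizer (Subgroup.zpowers u : Set X) = Cu u := by
  ext t
  rw [Subgroup.mem_centralizer_iff, Subgroup.mem_centralizer_singleton_iff]
  constructor
  · intro h
    exact (h u (Subgroup.mem_zpowers u)).symm
  · rintro h _ ⟨n, rfl⟩
    have h1 : Commute u t := h.symm
    exact h1.zpow_left n

/-- restriction of class functions to the centraliser of an involution is multiplicative -/
theorem restr_mul (hF : GoodF 2 F) {u : X} (hu : Inv2 u) {a b : X → F} (ha : IsCl a)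
    (hb : IsCl b) : (fun t : Cu u => mulF a b t) =
      mulF (fun t : Cu u => a t) (fun t : Cu u => b t) := by
  have hmem : ∀ t : Cu u, (t : X) ∈ Subgroup.centralizer (Subgroup.zpowers u : Set X) := by
    intro t
    rw [cent_zpowers]
    exact t.2
  have h1 : ∀ (a : X → F), (fun t : Cu u => a t) = fun t : Cu u => br (Subgroup.zpowers u) a t := by
    intro a
    funext t
    rw [H66.br_of_mem (hmem t)]
  rw [h1, h1 a, h1 b, H66.br_mulF hF (inv2_pgroup hu) (H66.IsCl.inv ha _) (H66.IsCl.inv hb _),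
    H75.mulF_res]
  intro x hx
  apply H66.br_of_not_mem
  rw [cent_zpowers]
  exact hx

theorem restr_iter (hF : GoodF 2 F) {u : X} (hu : Inv2 u) {z b : X → F} (hz : IsCl z)
    (hb : IsCl b) (n : ℕ) : IsCl ((mulF z)^[n] b) ∧ (fun t : Cu u => (mulF z)^[n] b t) =
      (mulF (fun t : Cu u => z t))^[n] (fun t : Cu u => b t) := by
  induction n with
  | zero => exact ⟨hb, rfl⟩
  | succ n ih =>
    rw [Function.iterate_succ_apply', Function.iterate_succ_apply']
    refine ⟨H75.isCl_mulF hz ih.1, ?_⟩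
    rw [restr_mul hF hu hz ih.1, ih.2]

theorem iter_mul {Y : Type} [Group Y] [Finite Y] (z b c : Y → F) (hbc : mulF b c = c) (n : ℕ) :
    mulF ((mulF z)^[n] b) c = (mulF z)^[n] c := by
  induction n with
  | zero => exact hbc
  | succ n ih =>
    rw [Function.iterate_succ_apply', Function.iterate_succ_apply', H20.mulF_assoc, ih]

/-- the blocks of the centraliser of an involution below a block with Klein four defect groups -/
theorem core (inv : InvStmt) (hF : GoodF 2 F) {b : X → F} (hb : VB b) {u : X} (hu : Inv2 u)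
    {c : Cu u → F} (hc : IsBlk c) (hbc : mulF (fun t : Cu u => b t) c = c) : VB c := by
  classical
  have hbcl : IsCl (fun t : Cu u => b t) := fun x y => hb.blk.1.1 _ _
  refine ⟨hc, ?_, ?_⟩
  · exact (hb.df.sub v4_sub le_top).le hF hbcl hc.1.1 hbc
  by_contra hex
  obtain ⟨n, ρ, hρ, h1⟩ := H20.blk_rep hF hc.1 hc.2.1
  obtain ⟨y, hcy, w, hw, hwy⟩ := D1H51.exists_class hρ hc.1.1 h1
  have hnn := D1H51.not_nil hρ hw hwy h1
  have h4 : ¬ 4 ∣ Nat.card (Subgroup.centralizer ({(y : X)} : Set X)) := by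
    intro hd
    have hyu : (y : X) * u = u * y := Subgroup.mem_centralizer_singleton_iff.1 y.2
    obtain ⟨V, hV, hVu, hVy⟩ := exists_four hu hyu.symm hd
    apply hex
    refine ⟨V.subgroupOf (Cu u), ?_, y, ?_, hcy⟩
    · rw [Nat.card_congr (Subgroup.subgroupOfEquivOfLe hVu).toEquiv, hV]
    · rw [Subgroup.mem_centralizer_iff]
      intro v hv
      have h5 : (v : X) ∈ V := hv
      exact Subtype.ext (Subgroup.mem_centralizer_singleton_iff.1 (hVy h5))
  have hres : (fun t : Cu u => clsum F ⊤ (y : X) t) = clsum F ⊤ y := by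
    funext t
    by_cases h : ∃ r : Cu u, t = r * y * r⁻¹
    · rw [clsum_pos h, clsum_pos ((conj_iff hu y h4 t).2 h)]
    · rw [clsum_neg h, clsum_neg (fun h' => h ((conj_iff hu y h4 t).1 h'))]
  have hK : IsCl (clsum F ⊤ (y : X)) := D1H51.clsum_cl _
  obtain ⟨w', hw', hbw⟩ := inv 2 F hF X b (clsum F ⊤ (y : X)) hb.blk hK (by
    intro k h0
    have h5 := (restr_iter hF hu hK hb.blk.1.1 k).2
    rw [h0, hres] at h5
    have h6 := iter_mul (clsum F ⊤ y) (fun t : Cu u => b t) c hbc k
    rw [← h5] at h6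
    apply hnn k
    rw [← h6]
    exact H75.mulF_zero_left c)
  obtain ⟨V, hV, g, hg, hbg⟩ := hb.ex
  have hVp : IsPGroup 2 V := IsPGroup.of_card (n := 2) (by rw [hV]; norm_num)
  have hbrK : br V (clsum F ⊤ (y : X)) = 0 := by
    funext t
    by_cases ht : t ∈ Subgroup.centralizer (V : Set X)
    · rw [H66.br_of_mem ht, clsum_neg]
      · rfl
      rintro ⟨r, rfl⟩
      apply h4
      rw [← card_cent_conj (y : X) r, ← hV]
      apply Subgroup.card_dvd_of_le
      intro v hv
      rw [Subgroup.mem_centralizer_singleton_iff]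
      exact Subgroup.mem_centralizer_iff.1 ht v hv
    · exact H66.br_of_not_mem ht
  apply hbg
  have h5 : br V b = 0 := by
    rw [← hbw, H66.br_mulF hF hVp (H66.IsCl.inv hb.blk.1.1 V)
      (H66.IsCl.inv (H75.isCl_mulF hK hw') V),
      H66.br_mulF hF hVp (H66.IsCl.inv hK V) (H66.IsCl.inv hw' V), hbrK, H75.mulF_zero_left,
      H75.mulF_zero_right]
  have h6 := congrFun h5 g
  rwa [H66.br_of_mem hg] at h6

end core

attribute [local instance] Ideal.Quotient.field

/-- DU4 -/
theorem du4 (inv : InvStmt) : Du4Stmt := by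
  intro M _ hM X _ _ b hb u hu c hc hbc
  exact core inv (H50.fld 2 Nat.prime_two M hM) hb hu hc hbc

end Pool.Agent.PP.KF.H24
end
end -- Pool.Agent.Helper24_KF.Du4

section -- Pool.Agent.Helper9_D1.Inv

/-!
# Squad PP, part D1, module INV: invertible central elements of a block
-/

set_option autoImplicit false

noncomputable section

namespace Pool.Agent.PP.D1.H9

open Pool.Agent.PP Pool.Agent.PP.H50 Pool.Agent.Helper51_AWC Pool.Agent.Helper79_WRA

/-- INV -/
theorem inv : InvStmt := by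
  intro ℓ F _ _ H _ _ f z hf hz hn
  rcases blk_dich hf hz with ⟨n, h⟩ | ⟨u, hu, h⟩
  · exact absurd h (hn n)
  · refine ⟨u, hu, ?_⟩
    have hfc := (isCl_iff f).1 hf.1.1
    have hzc := (isCl_iff z).1 hz
    have h1 := congrArg ma h
    rw [ma_mul, ma_mul] at h1
    apply ma_injective
    rw [ma_mul, ma_mul]
    have e1 : ma u * ma z = ma z * ma u := (Subalgebra.mem_center_iff.1 hzc (ma u))
    have e2 : ma f * (ma z * ma u) = (ma z * ma u) * ma f :=
      (Subalgebra.mem_center_iff.1 hfc (ma z * ma u)).symm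
    rw [e2, ← e1, h1]

end Pool.Agent.PP.D1.H9
end
end -- Pool.Agent.Helper9_D1.Inv

section -- Pool.Agent.Helper24_K9.Dun

/-!
# Squad K9, row DUN (helper24): the blocks of the normaliser of `Q`

Text: `AWC_K9.md`.
-/

open scoped BigOperators Pointwise

set_option linter.unusedSectionVars false

noncomputable section

namespace Pool.Agent.PP.K9.H24

open Pool.Agent.Helper51_AWC Pool.Agent.Helper79_WRA Pool.Agent.PP Pool.Agent.PP.KF
open Pool.Agent.PP.D1.H27 (clsum_pos clsum_neg)

section group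

variable {K : Type} [Group K] [Finite K] {ℓ : ℕ} [hfact : Fact ℓ.Prime]

/-- two subgroups of order `ℓ ^ n` are conjugate if `ℓ ^ (n + 1)` does not divide the order -/
theorem conj_syl {n : ℕ} {C : Subgroup K} (h : ¬ ℓ ^ (n + 1) ∣ Nat.card C) {V W : Subgroup K}
    (hV : V ≤ C) (hW : W ≤ C) (cV : Nat.card V = ℓ ^ n) (cW : Nat.card W = ℓ ^ n) :
    ∃ c ∈ C, W = conjS c V := by
  have key : ∀ U : Subgroup K, U ≤ C → Nat.card U = ℓ ^ n →
      IsPGroup ℓ (U.subgroupOf C) ∧ ¬ ℓ ∣ (U.subgroupOf C).index := by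
    intro U hU cU
    have h1 : Nat.card (U.subgroupOf C) = ℓ ^ n := by
      rw [Nat.card_congr (Subgroup.subgroupOfEquivOfLe hU).toEquiv, cU]
    refine ⟨IsPGroup.of_card h1, fun h' => h ?_⟩
    obtain ⟨k, hk⟩ := h'
    have h2 := Subgroup.card_mul_index (U.subgroupOf C)
    rw [h1, hk] at h2
    exact ⟨k, by rw [← h2]; ring⟩
  let S : Sylow ℓ C := (key V hV cV).1.toSylow (key V hV cV).2
  let T : Sylow ℓ C := (key W hW cW).1.toSylow (key W hW cW).2
  obtain ⟨c, hc⟩ := MulAction.exists_smul_eq C S T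
  refine ⟨c, c.2, ?_⟩
  have h1 : ((c • S : Sylow ℓ C) : Subgroup C) = W.subgroupOf C := by
    rw [hc]
    rfl
  have h2 : ((c • S : Sylow ℓ C) : Subgroup C) = MulAut.conj c • (V.subgroupOf C) := rfl
  rw [h2] at h1
  ext x
  rw [mem_conjS]
  constructor
  · intro hx
    have h3 : (⟨x, hW hx⟩ : C) ∈ W.subgroupOf C := hx
    rw [← h1, Subgroup.mem_pointwise_smul_iff_inv_smul_mem] at h3
    have h4 : ((MulAut.conj c)⁻¹ • (⟨x, hW hx⟩ : C) : C) = c⁻¹ * ⟨x, hW hx⟩ * c := by
      rw [← map_inv]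
      change c⁻¹ * _ * c⁻¹⁻¹ = _
      rw [inv_inv]
    rw [h4] at h3
    exact h3
  · intro hx
    have h3 : (c⁻¹ * (⟨c * ((c : K)⁻¹ * x * c) * (c : K)⁻¹, by
      exact mul_mem (mul_mem c.2 (hV hx)) (inv_mem c.2)⟩ : C) * c) ∈ V.subgroupOf C := by
      change (c : K)⁻¹ * (c * ((c : K)⁻¹ * x * c) * (c : K)⁻¹) * c ∈ V
      have h5 : (c : K)⁻¹ * (c * ((c : K)⁻¹ * x * c) * (c : K)⁻¹) * c = (c : K)⁻¹ * x * c := by
        group
      rw [h5]
      exact hx
    have h4 : (⟨c * ((c : K)⁻¹ * x * c) * (c : K)⁻¹, by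
      exact mul_mem (mul_mem c.2 (hV hx)) (inv_mem c.2)⟩ : C) ∈
        MulAut.conj c • (V.subgroupOf C) := by
      rw [Subgroup.mem_pointwise_smul_iff_inv_smul_mem, ← map_inv]
      change c⁻¹ * _ * c⁻¹⁻¹ ∈ _
      rw [inv_inv]
      exact h3
    rw [h1] at h4
    have h6 : (c : K) * ((c : K)⁻¹ * x * c) * (c : K)⁻¹ ∈ W := h4
    have h7 : (c : K) * ((c : K)⁻¹ * x * c) * (c : K)⁻¹ = x := by group
    rwa [h7] at h6

/-- normaliser growth -/
theorem growth {n : ℕ} {V : Subgroup K} (cV : Nat.card V = ℓ ^ n)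
    {y : Subgroup.normalizer (V : Set K)} (hV : V ≤ Subgroup.centralizer ({(y : K)} : Set K))
    (hd : ℓ ^ (n + 1) ∣ Nat.card (Subgroup.centralizer ({(y : K)} : Set K))) :
    ℓ ^ (n + 1) ∣
      Nat.card (Subgroup.centralizer ({y} : Set (Subgroup.normalizer (V : Set K)))) := by
  set C := Subgroup.centralizer ({(y : K)} : Set K) with hC
  have h1 : Nat.card (V.subgroupOf C) = ℓ ^ n := by
    rw [Nat.card_congr (Subgroup.subgroupOfEquivOfLe hV).toEquiv, cV]
  have h2 := Sylow.prime_pow_dvd_card_normalizer (p := ℓ) (n := n) (G := C) hd h1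
  refine h2.trans ?_
  have hn : ∀ t : Subgroup.normalizer ((V.subgroupOf C : Subgroup C) : Set C),
      ((t : C) : K) ∈ Subgroup.normalizer (V : Set K) := by
    intro t
    rw [Subgroup.mem_normalizer_iff]
    intro v
    have h3 := Subgroup.mem_normalizer_iff.1 t.2
    constructor
    · intro hv
      exact (h3 ⟨v, hV hv⟩).1 hv
    · intro hv
      have h4 : ((t : C) : K)⁻¹ * (((t : C) : K) * v * ((t : C) : K)⁻¹) * ((t : C) : K) = v := by
        group
      have h5 : v ∈ C := by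
        rw [← h4]
        exact mul_mem (mul_mem (inv_mem (t : C).2) (hV hv)) (t : C).2
      exact (h3 ⟨v, h5⟩).2 hv
  let φ : Subgroup.normalizer ((V.subgroupOf C : Subgroup C) : Set C) →*
      Subgroup.centralizer ({y} : Set (Subgroup.normalizer (V : Set K))) :=
    { toFun := fun t => ⟨⟨((t : C) : K), hn t⟩, by
        rw [Subgroup.mem_centralizer_singleton_iff]
        apply Subtype.ext
        exact Subgroup.mem_centralizer_singleton_iff.1 (t : C).2⟩
      map_one' := rfl
      map_mul' := fun _ _ => rfl }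
  refine Subgroup.card_dvd_of_injective φ ?_
  intro a b hab
  apply Subtype.ext
  apply Subtype.ext
  exact congrArg (fun z => ((z : Subgroup.centralizer
    ({y} : Set (Subgroup.normalizer (V : Set K)))) : Subgroup.normalizer (V : Set K)).1) hab

/-- fusion in the centraliser of a Sylow subgroup -/
theorem fusion {n : ℕ} {Q : Subgroup K} (cQ : Nat.card Q = ℓ ^ n) {y t : K}
    (hy : y ∈ Subgroup.centralizer (Q : Set K)) (ht : t ∈ Subgroup.centralizer (Q : Set K))
    (h : ¬ ℓ ^ (n + 1) ∣ Nat.card (Subgroup.centralizer ({y} : Set K)))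
    {r : K} (hr : t = r * y * r⁻¹) :
    ∃ s ∈ Subgroup.normalizer (Q : Set K), t = s * y * s⁻¹ := by
  have h1 : ¬ ℓ ^ (n + 1) ∣ Nat.card (Subgroup.centralizer ({t} : Set K)) := by
    rw [hr, KF.H24.card_cent_conj]
    exact h
  have hQ : Q ≤ Subgroup.centralizer ({t} : Set K) := by
    intro q hq
    rw [Subgroup.mem_centralizer_singleton_iff]
    exact Subgroup.mem_centralizer_iff.1 ht q hq
  have hrQ : conjS r Q ≤ Subgroup.centralizer ({t} : Set K) := by
    intro x hx
    rw [mem_conjS] at hx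
    rw [Subgroup.mem_centralizer_singleton_iff, hr]
    have h2 := Subgroup.mem_centralizer_iff.1 hy _ hx
    calc x * (r * y * r⁻¹) = r * ((r⁻¹ * x * r) * y) * r⁻¹ := by group
      _ = r * (y * (r⁻¹ * x * r)) * r⁻¹ := by rw [h2]
      _ = (r * y * r⁻¹) * x := by group
  have hc : Nat.card (conjS r Q) = ℓ ^ n := by
    rw [KF.H55.card_conj4, cQ]
  obtain ⟨s, hs, hs2⟩ := conj_syl (C := Subgroup.centralizer ({t} : Set K)) h1 hrQ hQ hc cQ
  refine ⟨s * r, ?_, ?_⟩
  · rw [Subgroup.mem_normalizer_iff]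
    intro q
    have h3 : ∀ x, x ∈ Q ↔ r⁻¹ * (s⁻¹ * x * s) * r ∈ Q := by
      intro x
      conv_lhs => rw [hs2]
      rw [mem_conjS, mem_conjS]
    rw [h3 (s * r * q * (s * r)⁻¹)]
    have h4 : r⁻¹ * (s⁻¹ * (s * r * q * (s * r)⁻¹) * s) * r = q := by group
    rw [h4]
  · have h5 : s * t = t * s := Subgroup.mem_centralizer_singleton_iff.1 hs
    calc t = (t * s) * s⁻¹ := by group
      _ = (s * t) * s⁻¹ := by rw [h5]
      _ = (s * (r * y * r⁻¹)) * s⁻¹ := by rw [← hr]
      _ = s * r * y * (s * r)⁻¹ := by group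

end group

section core

variable {F X : Type} [Field F] [Group X] [Finite X] {ℓ : ℕ}

theorem restr_mulN (hF : GoodF ℓ F) {Q : Subgroup X} (hQ : IsPGroup ℓ Q) {a b : X → F}
    (ha : IsCl a) (hb : IsCl b) :
    (fun t : Subgroup.normalizer (Q : Set X) => br Q (mulF a b) t) =
      mulF (fun t : Subgroup.normalizer (Q : Set X) => br Q a t)
        (fun t : Subgroup.normalizer (Q : Set X) => br Q b t) := by
  rw [H66.br_mulF hF hQ (H66.IsCl.inv ha Q) (H66.IsCl.inv hb Q), H75.mulF_res]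
  intro x hx
  apply H66.br_of_not_mem
  intro h
  exact hx (Subgroup.centralizer_le_normalizer _ h)

theorem restr_iterN (hF : GoodF ℓ F) {Q : Subgroup X} (hQ : IsPGroup ℓ Q) {z b : X → F}
    (hz : IsCl z) (hb : IsCl b) (n : ℕ) : IsCl ((mulF z)^[n] b) ∧
    (fun t : Subgroup.normalizer (Q : Set X) => br Q ((mulF z)^[n] b) t) =
      (mulF (fun t : Subgroup.normalizer (Q : Set X) => br Q z t))^[n]
        (fun t : Subgroup.normalizer (Q : Set X) => br Q b t) := by
  induction n with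
  | zero => exact ⟨hb, rfl⟩
  | succ n ih =>
    rw [Function.iterate_succ_apply', Function.iterate_succ_apply']
    refine ⟨H75.isCl_mulF hz ih.1, ?_⟩
    rw [restr_mulN hF hQ hz ih.1, ih.2]

/-- an invertible element is not nilpotent -/
theorem inv_iter {c z f : X → F} (hc : IsCl c) (h : mulF (mulF c z) f = f) (n : ℕ)
    (h0 : (mulF z)^[n] f = 0) : f = 0 := by
  have hcm : ∀ (m : ℕ) (x : X → F), mulF c ((mulF z)^[m] x) = (mulF z)^[m] (mulF c x) := by
    intro m
    induction m with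
    | zero => intro x; rfl
    | succ m ih =>
      intro x
      rw [Function.iterate_succ_apply, Function.iterate_succ_apply, ih]
      congr 1
      rw [← H20.mulF_assoc, H75.mulF_comm_cl hc z, H20.mulF_assoc]
  induction n with
  | zero => exact h0
  | succ n ih =>
    apply ih
    have h1 : (mulF z)^[n] f = mulF c ((mulF z)^[n + 1] f) := by
      rw [Function.iterate_succ_apply, hcm, ← H20.mulF_assoc, H75.mulF_comm_cl hc z]
      conv_lhs => rw [← h]
      rw [H75.mulF_comm_cl hc z]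
    rw [h1, h0, H75.mulF_zero_right]

end core

attribute [local instance] Ideal.Quotient.field

/-- DUN -/
theorem dun (fmg : FmgStmt) : DunStmt := by
  intro ℓ hfact M _ hM G _ _ e he V hV Q hQ hlt f hf hef
  classical
  by_contra hno
  have hF : GoodF ℓ (FF M) := H50.fld ℓ hfact.out M hM
  have hQN : Q ≤ Subgroup.normalizer (Q : Set G) := Subgroup.le_normalizer
  obtain ⟨QN, hQNdef⟩ : ∃ QN : Subgroup (Subgroup.normalizer (Q : Set G)),
      QN = Q.subgroupOf (Subgroup.normalizer (Q : Set G)) := ⟨_, rfl⟩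
  rw [← hQNdef] at hno
  have hcQN : Nat.card QN = Nat.card Q := by
    rw [hQNdef]
    exact Nat.card_congr (Subgroup.subgroupOfEquivOfLe hQN).toEquiv
  obtain ⟨n, hn⟩ := hQ.exists_card_eq
  have hpN : IsPGroup ℓ QN := IsPGroup.of_card (n := n) (by rw [hcQN, hn])
  have hnorm : QN.Normal := by
    rw [hQNdef]
    exact Subgroup.normal_in_normalizer
  have hbr : br QN f = f := KF.H55.br_idem hF hnorm hpN hf.1
  have hsupp : ∀ t, f t ≠ 0 → t ∈ Subgroup.centralizer (QN : Set (Subgroup.normalizer (Q : Set G))) := by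
    intro t ht
    by_contra h
    apply ht
    rw [← hbr, H66.br_of_not_mem h]
  have hf0 : f ≠ 0 := hf.2.1
  obtain ⟨t0, ht0⟩ : ∃ t, f t ≠ 0 := by
    by_contra h
    push Not at h
    exact hf0 (funext h)
  have hTp : Tp ℓ f QN := by
    refine ⟨hpN, ⟨t0, hsupp t0 ht0, ht0⟩, ?_⟩
    intro P hP hgP
    by_contra hcard
    obtain ⟨t, ht, hft⟩ := hgP
    apply hno
    refine ⟨P ⊔ QN, IsPGroup.to_sup_of_normal_right hP hpN, ⟨t, ?_, hft⟩, ?_⟩
    · have h1 : P ⊔ QN ≤ Subgroup.centralizer ({t} : Set (Subgroup.normalizer (Q : Set G))) := by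
        refine sup_le ?_ ?_
        · intro p hp
          rw [Subgroup.mem_centralizer_singleton_iff]
          exact Subgroup.mem_centralizer_iff.1 ht p hp
        · intro p hp
          rw [Subgroup.mem_centralizer_singleton_iff]
          exact Subgroup.mem_centralizer_iff.1 (hsupp t hft) p hp
      rw [Subgroup.mem_centralizer_iff]
      intro p hp
      exact Subgroup.mem_centralizer_singleton_iff.1 (h1 hp)
    · refine lt_of_le_of_ne le_sup_right fun h => hcard ?_
      have h1 : P ≤ QN := by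
        rw [h]
        exact le_sup_left
      exact Nat.card_le_card_of_injective _ (Subgroup.inclusion_injective h1)
  obtain ⟨_, _, y, hy, hfy, hidx, c, hc, hcy⟩ := fmg ℓ M hM _ f hf QN hTp
  have hyQ : (y : G) ∈ Subgroup.centralizer (Q : Set G) := by
    rw [Subgroup.mem_centralizer_iff]
    intro q hq
    have h1 : (⟨q, hQN hq⟩ : Subgroup.normalizer (Q : Set G)) ∈ QN := by
      rw [hQNdef]
      exact hq
    exact congrArg Subtype.val (Subgroup.mem_centralizer_iff.1 hy _ h1)
  have hQy : Q ≤ Subgroup.centralizer ({(y : G)} : Set G) := by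
    intro q hq
    rw [Subgroup.mem_centralizer_singleton_iff]
    exact Subgroup.mem_centralizer_iff.1 hyQ q hq
  have hQNy : QN ≤ Subgroup.centralizer ({y} : Set (Subgroup.normalizer (Q : Set G))) := by
    intro q hq
    rw [Subgroup.mem_centralizer_singleton_iff]
    exact Subgroup.mem_centralizer_iff.1 hy q hq
  have hN : ¬ ℓ ^ (n + 1) ∣
      Nat.card (Subgroup.centralizer ({y} : Set (Subgroup.normalizer (Q : Set G)))) := by
    intro hd
    apply hidx
    have h1 := Subgroup.card_mul_index (QN.subgroupOf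
      (Subgroup.centralizer ({y} : Set (Subgroup.normalizer (Q : Set G)))))
    rw [Nat.card_congr (Subgroup.subgroupOfEquivOfLe hQNy).toEquiv, hcQN, hn] at h1
    rw [← h1, pow_succ] at hd
    exact Nat.dvd_of_mul_dvd_mul_left (pow_pos hfact.out.pos n) hd
  have hG : ¬ ℓ ^ (n + 1) ∣ Nat.card (Subgroup.centralizer ({(y : G)} : Set G)) := fun hd =>
    hN (growth hn hQy hd)
  -- the class sums
  have hres : (fun t : Subgroup.normalizer (Q : Set G) => br Q (clsum (FF M) ⊤ (y : G)) t) =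
      clsum (FF M) ⊤ y := by
    funext t
    by_cases ht : (t : G) ∈ Subgroup.centralizer (Q : Set G)
    · rw [H66.br_of_mem ht]
      by_cases h : ∃ r : Subgroup.normalizer (Q : Set G), t = r * y * r⁻¹
      · rw [clsum_pos h, clsum_pos]
        obtain ⟨r, hr⟩ := h
        exact ⟨r, congrArg Subtype.val hr⟩
      · rw [clsum_neg h, clsum_neg]
        rintro ⟨r, hr⟩
        apply h
        obtain ⟨s, hs, hs2⟩ := fusion hn hyQ ht hG hr
        exact ⟨⟨s, hs⟩, Subtype.ext hs2⟩
    · rw [H66.br_of_not_mem ht, clsum_neg]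
      rintro ⟨r, hr⟩
      apply ht
      have h1 : (t : G) = r * y * (r : G)⁻¹ := congrArg Subtype.val hr
      rw [Subgroup.mem_centralizer_iff]
      intro q hq
      have h2 : (r : G)⁻¹ * q * r ∈ Q := by
        have h3 := (Subgroup.mem_normalizer_iff.1 (Subgroup.inv_mem _ r.2) q).1 hq
        rwa [inv_inv] at h3
      have h3 := Subgroup.mem_centralizer_iff.1 hyQ _ h2
      rw [h1]
      calc q * (r * y * (r : G)⁻¹) = r * (((r : G)⁻¹ * q * r) * y) * (r : G)⁻¹ := by group
        _ = r * (y * ((r : G)⁻¹ * q * r)) * (r : G)⁻¹ := by rw [h3]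
        _ = (r * y * (r : G)⁻¹) * q := by group
  have hK : IsCl (clsum (FF M) ⊤ (y : G)) := D1H51.clsum_cl _
  obtain ⟨w', hw', hew⟩ := Pool.Agent.PP.D1.H9.inv ℓ (FF M) hF G e (clsum (FF M) ⊤ (y : G)) he hK (by
    intro k h0
    have h5 := (restr_iterN hF hQ hK he.1.1 k).2
    rw [h0, hres] at h5
    have h6 := KF.H24.iter_mul (clsum (FF M) ⊤ y)
      (fun t : Subgroup.normalizer (Q : Set G) => br Q e t) f hef k
    rw [← h5] at h6
    have h7 : (fun t : Subgroup.normalizer (Q : Set G) => br Q (0 : G → FF M) t) = 0 := by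
      funext t
      by_cases ht : (t : G) ∈ Subgroup.centralizer (Q : Set G)
      · rw [H66.br_of_mem ht]
        rfl
      · rw [H66.br_of_not_mem ht]
        rfl
    rw [h7, H75.mulF_zero_left] at h6
    exact hf0 (inv_iter hc hcy k h6.symm))
  obtain ⟨g, hg, heg⟩ := hV.gd
  obtain ⟨k, hk⟩ := hV.pg.exists_card_eq
  have hnk : n < k := by
    rw [hn, hk] at hlt
    exact (Nat.pow_lt_pow_iff_right hfact.out.one_lt).1 hlt
  have hbrK : br V (clsum (FF M) ⊤ (y : G)) = 0 := by
    funext t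
    by_cases ht : t ∈ Subgroup.centralizer (V : Set G)
    · rw [H66.br_of_mem ht, clsum_neg]
      · rfl
      rintro ⟨r, rfl⟩
      apply hG
      rw [← KF.H24.card_cent_conj (y : G) r]
      refine dvd_trans (pow_dvd_pow ℓ hnk) ?_
      rw [← hk]
      apply Subgroup.card_dvd_of_le
      intro v hv
      rw [Subgroup.mem_centralizer_singleton_iff]
      exact Subgroup.mem_centralizer_iff.1 ht v hv
    · exact H66.br_of_not_mem ht
  apply heg
  have h5 : br V e = 0 := by
    rw [← hew, H66.br_mulF hF hV.pg (H66.IsCl.inv he.1.1 V)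
      (H66.IsCl.inv (H75.isCl_mulF hK hw') V),
      H66.br_mulF hF hV.pg (H66.IsCl.inv hK V) (H66.IsCl.inv hw' V), hbrK, H75.mulF_zero_left,
      H75.mulF_zero_right]
  have h6 := congrFun h5 g
  rwa [H66.br_of_mem hg] at h6

end Pool.Agent.PP.K9.H24
end
end -- Pool.Agent.Helper24_K9.Dun

section -- Pool.Agent.Helper24_K9.Duc

/-!
# Squad K9, row DUC (helper24): the blocks of the centraliser of `Q`

Text: `AWC_K9.md`.
-/

open scoped BigOperators Pointwise

set_option linter.unusedSectionVars false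

noncomputable section

namespace Pool.Agent.PP.K9.H24

open Pool.Agent.Helper51_AWC Pool.Agent.Helper79_WRA Pool.Agent.PP Pool.Agent.PP.KF
open Pool.Agent.PP.K9.H97 (Ix Bx)

section blocks

variable {F X : Type} [Field F] [Group X] [Finite X]

theorem mulF_add_l (a b c : X → F) : mulF (a + b) c = mulF a c + mulF b c := by
  funext x
  have := Fintype.ofFinite X
  unfold mulF
  simp only [Pi.add_apply]
  rw [finsum_eq_sum_of_fintype, finsum_eq_sum_of_fintype, finsum_eq_sum_of_fintype,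
    ← Finset.sum_add_distrib]
  apply Finset.sum_congr rfl
  intro t _
  ring

/-- a block under an idempotent at which an additive map does not vanish -/
theorem exists_blk {A : Type} [AddCommGroup A] (L : (X → F) → A)
    (hL0 : L 0 = 0) (hL : ∀ a b, L (a + b) = L a + L b) {e : X → F} (he : IsIdem e)
    (h : L e ≠ 0) : ∃ b : X → F, IsBlk b ∧ mulF e b = b ∧ L b ≠ 0 := by
  have key : ∀ e : X → F, IsIdem e →
      (L e ≠ 0 → ∃ b : X → F, IsBlk b ∧ mulF e b = b ∧ L b ≠ 0) := by
    apply H46.idem_induction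
    · intro h
      exact absurd hL0 h
    · intro b hb h
      exact ⟨b, hb, hb.1.2, h⟩
    · intro e₁ e₂ he1 he2 h12 ih1 ih2 h
      have h21 : mulF e₂ e₁ = 0 := by
        rw [H75.mulF_comm_cl he2.1 e₁, h12]
      by_cases h1 : L e₁ = 0
      · have h2 : L e₂ ≠ 0 := by
          intro h2
          apply h
          rw [hL, h1, h2, add_zero]
        obtain ⟨b, hb, hb2, hb3⟩ := ih2 h2
        refine ⟨b, hb, ?_, hb3⟩
        have h3 : mulF e₁ b = 0 := by
          conv_lhs => rw [← hb2]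
          rw [← H20.mulF_assoc, h12, H75.mulF_zero_left]
        rw [mulF_add_l, hb2, h3, zero_add]
      · obtain ⟨b, hb, hb2, hb3⟩ := ih1 h1
        refine ⟨b, hb, ?_, hb3⟩
        have h3 : mulF e₂ b = 0 := by
          conv_lhs => rw [← hb2]
          rw [← H20.mulF_assoc, h21, H75.mulF_zero_left]
        rw [mulF_add_l, hb2, h3, add_zero]
  exact key e he h

end blocks

section core

variable {F G : Type} [Field F] [Group G] [Finite G] {ℓ : ℕ} [hfact : Fact ℓ.Prime]

theorem core (hF : GoodF ℓ F) {e : G → F} (he : IsIdem e) {V : Subgroup G} (hV : Tp ℓ e V)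
    (hcV : Nat.card V = ℓ ^ 2) {Q : Subgroup G} (hcQ : Nat.card Q = ℓ) {N C : Subgroup G}
    (hNdef : N = Subgroup.normalizer (Q : Set G)) (hCdef : C = Subgroup.centralizer (Q : Set G))
    (hdun : ∀ f : N → F, IsBlk f → mulF (fun t : N => br Q e t) f = f →
      ∃ P : Subgroup N, IsPGroup ℓ P ∧ Gd f P ∧ Q.subgroupOf N < P)
    {g : C → F} (hg : IsBlk g) (heg : mulF (fun t : C => e t) g = g) :
    ∃ P : Subgroup C, Nat.card P = ℓ ^ 2 ∧ Gd g P ∧ Q.subgroupOf C ≤ P := by
  classical
  have hQ : IsPGroup ℓ Q := IsPGroup.of_card (n := 1) (by rw [hcQ, pow_one])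
  have hQN : Q ≤ N := by
    rw [hNdef]
    exact Subgroup.le_normalizer
  have hCN : C ≤ N := by
    rw [hNdef, hCdef]
    exact Subgroup.centralizer_le_normalizer _
  have hconjQ : ∀ n ∈ N, ∀ q, q ∈ Q ↔ n * q * n⁻¹ ∈ Q := by
    intro n hn q
    rw [hNdef] at hn
    exact Subgroup.mem_normalizer_iff.1 hn q
  have hconjC0 : ∀ n ∈ N, ∀ x ∈ C, n * x * n⁻¹ ∈ C := by
    intro n hn x hx
    rw [hCdef, Subgroup.mem_centralizer_iff] at hx ⊢
    intro q hq
    have h1 : n⁻¹ * q * n ∈ Q := by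
      have h2 := (hconjQ n⁻¹ (N.inv_mem hn) q).1 hq
      rwa [inv_inv] at h2
    have h2 := hx _ h1
    calc q * (n * x * n⁻¹) = n * ((n⁻¹ * q * n) * x) * n⁻¹ := by group
      _ = n * (x * (n⁻¹ * q * n)) * n⁻¹ := by rw [h2]
      _ = (n * x * n⁻¹) * q := by group
  have hconjC : ∀ n ∈ N, ∀ x, x ∈ C ↔ n * x * n⁻¹ ∈ C := by
    intro n hn x
    refine ⟨hconjC0 n hn x, fun h => ?_⟩
    have h1 := hconjC0 n⁻¹ (N.inv_mem hn) _ h
    have h2 : n⁻¹ * (n * x * n⁻¹) * n⁻¹⁻¹ = x := by group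
    rwa [h2] at h1
  have hNC : N ≤ Subgroup.normalizer (C : Set G) := by
    intro n hn
    rw [Subgroup.mem_normalizer_iff]
    exact hconjC n hn
  -- the function `g` on `G`
  obtain ⟨gh, hgh⟩ : ∃ gh : G → F, gh = H75.ext0 C g := ⟨_, rfl⟩
  have hghs : ∀ x, x ∉ C → gh x = 0 := by
    rw [hgh]
    exact H75.ext0_supp C g
  have hghC : (fun t : C => gh t) = g := by
    rw [hgh]
    exact funext (H75.ext0_apply C g)
  have hBg : Bx C gh := ⟨hghs, by rw [hghC]; exact hg⟩
  have hbrs : ∀ x, x ∉ C → br Q e x = 0 := by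
    intro x hx
    rw [hCdef] at hx
    exact H66.br_of_not_mem hx
  have hbrC : (fun t : C => br Q e t) = fun t : C => e t := by
    funext t
    apply H66.br_of_mem
    rw [← hCdef]
    exact t.2
  have hegh : mulF (br Q e) gh = gh := by
    apply H75.eq_of_res (H75.mulF_supp C hbrs hghs) hghs
    rw [H75.mulF_res C gh hbrs, hbrC, hghC, heg]
  -- the idempotent of `N`
  have hbrN : ∀ x, x ∉ N → br Q e x = 0 := fun x hx => hbrs x (fun h => hx (hCN h))
  have hinv : H66.Inv Q e := H66.IsCl.inv he.1 Q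
  have hIN : IsIdem (fun t : N => br Q e t) := by
    refine ⟨?_, ?_⟩
    · intro x y
      show br Q e ((y : G) * x * (y : G)⁻¹) = br Q e x
      by_cases hx : (x : G) ∈ C
      · have h2 := (hconjC y y.2 x).1 hx
        rw [hCdef] at hx h2
        rw [H66.br_of_mem hx, H66.br_of_mem h2]
        exact he.1 _ _
      · rw [hbrs _ hx, hbrs]
        intro h
        exact hx ((hconjC y y.2 x).2 h)
    · rw [← H75.mulF_res N (br Q e) hbrN, ← H66.br_mulF hF hQ hinv hinv, he.2]
  have hgN0 : (fun t : N => gh t) ≠ 0 := by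
    intro h
    apply hBg.ne
    exact H75.eq_of_res (fun x hx => hghs x (fun h => hx (hCN h))) (fun _ _ => rfl) h
  have hgN : mulF (fun t : N => br Q e t) (fun t : N => gh t) = fun t : N => gh t := by
    rw [← H75.mulF_res N gh hbrN, hegh]
  obtain ⟨f, hf, hef, hfg⟩ := exists_blk
    (L := fun a : N → F => mulF a (fun t : N => gh t))
    (H75.mulF_zero_left _) (fun a b => mulF_add_l a b _) hIN (by
      show mulF (fun t : N => br Q e t) (fun t : N => gh t) ≠ 0
      rw [hgN]
      exact hgN0)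
  obtain ⟨P, hP, hgP, hQP⟩ := hdun f hf hef
  -- the support of `f`
  have hfs : ∀ t : N, f t ≠ 0 → (t : G) ∈ C := by
    have hpN : IsPGroup ℓ (Q.subgroupOf N) := by
      refine IsPGroup.of_card (n := 1) ?_
      rw [Nat.card_congr (Subgroup.subgroupOfEquivOfLe hQN).toEquiv, hcQ, pow_one]
    have hnorm : (Q.subgroupOf N).Normal := by
      rw [hNdef]
      exact Subgroup.normal_in_normalizer
    have hbr : br (Q.subgroupOf N) f = f := KF.H55.br_idem hF hnorm hpN hf.1
    intro t ht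
    by_contra h
    apply ht
    rw [← hbr]
    apply H66.br_of_not_mem
    intro h'
    apply h
    rw [hCdef, Subgroup.mem_centralizer_iff]
    intro q hq
    have h1 : (⟨q, hQN hq⟩ : N) ∈ Q.subgroupOf N := hq
    exact congrArg Subtype.val (Subgroup.mem_centralizer_iff.1 h' _ h1)
  obtain ⟨t, ht, hft⟩ := hgP
  have htC : (t : G) ∈ C := hfs t hft
  -- the group `P` in `G`
  obtain ⟨P', hP'def⟩ : ∃ P' : Subgroup G, P' = P.map N.subtype := ⟨_, rfl⟩
  have hcP' : Nat.card P' = Nat.card P := by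
    rw [hP'def]
    exact Subgroup.card_map_of_injective N.subtype_injective
  obtain ⟨k, hk⟩ := hP.exists_card_eq
  have hPP' : IsPGroup ℓ P' := IsPGroup.of_card (n := k) (by rw [hcP', hk])
  have hcen : ∀ s : N, s ∈ Subgroup.centralizer (P : Set N) →
      (s : G) ∈ Subgroup.centralizer (P' : Set G) := by
    intro s hs
    rw [Subgroup.mem_centralizer_iff]
    intro x hx
    rw [hP'def] at hx
    obtain ⟨p, hp, rfl⟩ := hx
    exact congrArg Subtype.val (Subgroup.mem_centralizer_iff.1 hs p hp)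
  have hGe : Gd e P' := by
    by_contra hcon
    apply hft
    have h1 : br P (fun t : N => br Q e t) = 0 := by
      funext s
      by_cases hs : s ∈ Subgroup.centralizer (P : Set N)
      · rw [H66.br_of_mem hs]
        show br Q e s = 0
        by_cases hsC : (s : G) ∈ Subgroup.centralizer (Q : Set G)
        · rw [H66.br_of_mem hsC]
          by_contra h
          exact hcon ⟨s, hcen s hs, h⟩
        · exact H66.br_of_not_mem hsC
      · exact H66.br_of_not_mem hs
    have h2 : br P f = 0 := by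
      rw [← hef, H66.br_mulF hF hP (H66.IsCl.inv hIN.1 P) (H66.IsCl.inv hf.1.1 P), h1,
        H75.mulF_zero_left]
    have h3 := congrFun h2 t
    rwa [H66.br_of_mem ht] at h3
  have hle := hV.mx P' hPP' hGe
  have hk2 : k = 2 := by
    have h1 : Nat.card (Q.subgroupOf N) < Nat.card P := by
      have h2 : (Q.subgroupOf N : Set N) ⊂ (P : Set N) := hQP
      have h3 := Set.ncard_lt_ncard h2 (Set.toFinite _)
      rwa [← Nat.card_coe_set_eq, ← Nat.card_coe_set_eq] at h3
    rw [Nat.card_congr (Subgroup.subgroupOfEquivOfLe hQN).toEquiv, hcQ, hk] at h1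
    rw [hcP', hk, hcV] at hle
    have h2 : k ≤ 2 := (Nat.pow_le_pow_iff_right hfact.out.one_lt).1 hle
    have h3 : 1 < k := by
      have h4 : ℓ ^ 1 < ℓ ^ k := by rwa [pow_one]
      exact (Nat.pow_lt_pow_iff_right hfact.out.one_lt).1 h4
    omega
  have hcP2 : Nat.card P' = ℓ ^ 2 := by rw [hcP', hk, hk2]
  have hQP' : Q ≤ P' := by
    intro q hq
    rw [hP'def]
    exact ⟨⟨q, hQN hq⟩, hQP.le hq, rfl⟩
  have hcomm : ∀ v w : P', v * w = w * v := IsPGroup.commutative_of_card_eq_prime_sq hcP2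
  have hP'C : P' ≤ C := by
    intro p hp
    rw [hCdef, Subgroup.mem_centralizer_iff]
    intro q hq
    exact congrArg Subtype.val (hcomm ⟨q, hQP' hq⟩ ⟨p, hp⟩)
  -- the function `f` on `G`
  obtain ⟨fh, hfh⟩ : ∃ fh : G → F, fh = H75.ext0 N f := ⟨_, rfl⟩
  have hfhs : ∀ x, x ∉ N → fh x = 0 := by
    rw [hfh]
    exact H75.ext0_supp N f
  have hfhN : (fun t : N => fh t) = f := by
    rw [hfh]
    exact funext (H75.ext0_apply N f)
  have hBf : Bx N fh := ⟨hfhs, by rw [hfhN]; exact hf⟩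
  have hfhC : ∀ x, x ∉ C → fh x = 0 := by
    intro x hx
    by_cases hxN : x ∈ N
    · have h1 : fh x = f ⟨x, hxN⟩ := congrFun hfhN ⟨x, hxN⟩
      rw [h1]
      by_contra h
      exact hx (hfs _ h)
    · exact hfhs x hxN
  have hIf : Ix C fh := by
    refine ⟨hfhC, ?_, ?_⟩
    · intro x y
      exact hBf.blk.1.1 ⟨x, hCN x.2⟩ ⟨y, hCN y.2⟩
    · rw [← H75.mulF_res C fh hfhC, hBf.mul]
  have hfg' : mulF fh gh = gh := by
    rw [hIf.comm hBg.ix]
    rcases hBg.dich' hIf with h | h
    · exact h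
    · exfalso
      apply hfg
      rw [← hfhN, ← H75.mulF_res N gh hfhs, hIf.comm hBg.ix, h]
      rfl
  obtain ⟨γ, hγ, hfγ, hγt⟩ := exists_blk (L := fun a : C → F => a ⟨t, htC⟩) rfl
    (fun a b => rfl) hIf.idem (by
      show fh t ≠ 0
      have h1 : fh t = f t := congrFun hfhN t
      rw [h1]
      exact hft)
  obtain ⟨γh, hγh⟩ : ∃ γh : G → F, γh = H75.ext0 C γ := ⟨_, rfl⟩
  have hγhs : ∀ x, x ∉ C → γh x = 0 := by
    rw [hγh]
    exact H75.ext0_supp C γ
  have hγhC : (fun t : C => γh t) = γ := by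
    rw [hγh]
    exact funext (H75.ext0_apply C γ)
  have hfγ' : mulF fh γh = γh := by
    apply H75.eq_of_res (H75.mulF_supp C hfhC hγhs) hγhs
    rw [H75.mulF_res C γh hfhC, hγhC, hfγ]
  obtain ⟨n, hn, hnx⟩ := Pool.Agent.PP.K9.H97.orb ℓ F hF G N C hCN hNC fh hfhC
    (by rw [hfhN]; exact hf) γh gh hγhs hghs (by rw [hγhC]; exact hγ) (by rw [hghC]; exact hg)
    hfγ' hfg'
  -- the conjugate
  have hval : gh (n⁻¹ * t * n) ≠ 0 := by
    rw [hnx]
    have h1 : n * (n⁻¹ * (t : G) * n) * n⁻¹ = t := by group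
    rw [h1]
    have h2 : γh t = γ ⟨t, htC⟩ := congrFun hγhC ⟨t, htC⟩
    rw [h2]
    exact hγt
  have htn : n⁻¹ * t * n ∈ C := by
    by_contra h
    exact hval (hghs _ h)
  obtain ⟨W, hW⟩ : ∃ W : Subgroup G, W = conjS n⁻¹ P' := ⟨_, rfl⟩
  have hWmem : ∀ x, x ∈ W ↔ n * x * n⁻¹ ∈ P' := by
    intro x
    rw [hW, mem_conjS, inv_inv]
  have hWC : W ≤ C := by
    intro x hx
    exact (hconjC n hn x).2 (hP'C ((hWmem x).1 hx))
  refine ⟨W.subgroupOf C, ?_, ⟨⟨n⁻¹ * t * n, htn⟩, ?_, ?_⟩, ?_⟩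
  · rw [Nat.card_congr (Subgroup.subgroupOfEquivOfLe hWC).toEquiv, hW, KF.H55.card_conj4, hcP2]
  · rw [Subgroup.mem_centralizer_iff]
    intro x hx
    apply Subtype.ext
    show (x : G) * (n⁻¹ * t * n) = (n⁻¹ * t * n) * x
    have h1 : n * (x : G) * n⁻¹ ∈ P' := (hWmem x).1 hx
    have h2 := Subgroup.mem_centralizer_iff.1 (hcen t ht) _ h1
    calc (x : G) * (n⁻¹ * t * n) = n⁻¹ * ((n * x * n⁻¹) * t) * n := by group
      _ = n⁻¹ * (t * (n * x * n⁻¹)) * n := by rw [h2]
      _ = (n⁻¹ * t * n) * x := by group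
  · have h1 : gh (n⁻¹ * t * n) = g ⟨n⁻¹ * t * n, htn⟩ := congrFun hghC ⟨n⁻¹ * t * n, htn⟩
    rw [← h1]
    exact hval
  · intro q hq
    have hq' : (q : G) ∈ Q := hq
    exact (hWmem q).2 (hQP' ((hconjQ n hn q).1 hq'))

end core

attribute [local instance] Ideal.Quotient.field

/-- DUC -/
theorem duc (dun : DunStmt) : DucStmt := by
  intro ℓ hfact M _ hM G _ _ e he V hV hcV Q hcQ g hg heg
  have hF : GoodF ℓ (FF M) := H50.fld ℓ hfact.out M hM
  have hQ : IsPGroup ℓ Q := IsPGroup.of_card (n := 1) (by rw [hcQ, pow_one])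
  have hlt : Nat.card Q < Nat.card V := by
    rw [hcQ, hcV]
    calc ℓ = ℓ ^ 1 := (pow_one ℓ).symm
      _ < ℓ ^ 2 := Nat.pow_lt_pow_right hfact.out.one_lt (by norm_num)
  exact core hF he.1 hV hcV hcQ rfl rfl
    (fun f hf hef => dun ℓ M hM G e he V hV Q hQ hlt f hf hef) hg heg

end Pool.Agent.PP.K9.H24
end
end -- Pool.Agent.Helper24_K9.Duc

section -- Pool.Agent.Helper88_AT3.Loc

/-!
Squad AT3, row LOC: existence and uniqueness of the local block.
-/

open scoped BigOperators

set_option autoImplicit false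

noncomputable section

namespace Pool.Agent.PP.T3.H88

open Pool.Agent.Helper51_AWC Pool.Agent.Helper79_WRA Pool.Agent.PP Pool.Agent.PP.KF
open Pool.Agent.PP.K9 Pool.Agent.PP.K9.H97 Pool.Agent.PP.H75

attribute [local instance] Ideal.Quotient.field

section tools

variable {F G : Type} [Field F] [Group G] [Finite G] {ℓ : ℕ} [Fact ℓ.Prime]

omit [Finite G] [Fact ℓ.Prime] in
theorem zpowers_pg {u : G} (hu : El ℓ u) : IsPGroup ℓ (Subgroup.zpowers u) := by
  obtain ⟨n, hn⟩ := hu
  rintro ⟨x, k, rfl⟩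
  refine ⟨n, Subtype.ext ?_⟩
  change ((u ^ k) ^ ℓ ^ n : G) = 1
  rw [← zpow_natCast, ← zpow_mul, mul_comm, zpow_mul, zpow_natCast, hn, one_zpow]

omit [Finite G] in
theorem cu_eq (u : G) : Subgroup.centralizer (Subgroup.zpowers u : Set G) = Cu u := by
  apply le_antisymm
  · refine Subgroup.centralizer_le ?_
    rw [Set.singleton_subset_iff]
    exact Subgroup.mem_zpowers u
  · intro x hx
    rw [Subgroup.mem_centralizer_iff]
    rintro _ ⟨k, rfl⟩
    have : Commute x u := Subgroup.mem_centralizer_singleton_iff.1 hx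
    exact (this.zpow_right k).eq.symm

/-- the restriction to the centraliser of an `ℓ`-element -/
theorem idem_cu (hF : GoodF ℓ F) {e : G → F} (he : IsIdem e) {u : G} (hu : El ℓ u) :
    IsIdem (fun t : Cu u => e t) := by
  have hn : Cu u ≤ Subgroup.normalizer (Subgroup.zpowers u : Set G) := by
    rw [← cu_eq]
    exact Subgroup.centralizer_le_normalizer _
  have h := (H20.brm ℓ F hF G (Subgroup.zpowers u) (Cu u) (zpowers_pg hu) (cu_eq u).le hn).2.2 e he
  have h2 : (fun t : Cu u => br (Subgroup.zpowers u) e t) = fun t : Cu u => e t := by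
    funext t
    apply H66.br_of_mem
    rw [cu_eq]
    exact t.2
  rwa [h2] at h

omit [Finite G] [Fact ℓ.Prime] in
theorem el_of_mem {V : Subgroup G} (hV : IsPGroup ℓ V) {u : G} (hu : u ∈ V) : El ℓ u := by
  obtain ⟨n, hn⟩ := hV ⟨u, hu⟩
  exact ⟨n, congrArg Subtype.val hn⟩

omit [Finite G] [Fact ℓ.Prime] in
theorem le_cu {e : G → F} {V : Subgroup G} {γ : G → F} (h : Ld ℓ e V γ) {u : G} (hu : u ∈ V) :
    V ≤ Cu u := fun v hv => Subgroup.mem_centralizer_singleton_iff.2 (h.ab v hv u hu)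

omit [Finite G] in
theorem cent_le_cu {V : Subgroup G} {u : G} (hu : u ∈ V) :
    Subgroup.centralizer (V : Set G) ≤ Cu u := fun g hg =>
  Subgroup.mem_centralizer_singleton_iff.2 (Subgroup.mem_centralizer_iff.1 hg u hu).symm

/-- `br_V` is multiplicative on the idempotents of the centraliser of `u ∈ V` -/
theorem br_mul (hF : GoodF ℓ F) {V : Subgroup G} (hV : IsPGroup ℓ V) {u : G}
    (hVC : V ≤ Cu u) {b c : G → F} (hb : Ix (Cu u) b) (hc : Ix (Cu u) c) :
    br V (mulF b c) = mulF (br V b) (br V c) :=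
  H66.br_mulF hF hV (fun p hp => (cj_eq_iff p b).1 (hb.inv (hVC hp)))
    (fun p hp => (cj_eq_iff p c).1 (hc.inv (hVC hp)))

omit [Finite G] in
theorem br_zero (V : Subgroup G) : br V (0 : G → F) = 0 := by
  funext g
  by_cases hg : g ∈ Subgroup.centralizer (V : Set G)
  · rw [H66.br_of_mem hg]
  · rw [H66.br_of_not_mem hg]
    rfl

omit [Finite G] in
theorem br_add (V : Subgroup G) (a b : G → F) : br V (a + b) = br V a + br V b := by
  funext g
  by_cases hg : g ∈ Subgroup.centralizer (V : Set G)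
  · rw [H66.br_of_mem hg, Pi.add_apply, Pi.add_apply, H66.br_of_mem hg, H66.br_of_mem hg]
  · rw [H66.br_of_not_mem hg, Pi.add_apply, H66.br_of_not_mem hg, H66.br_of_not_mem hg, add_zero]

/-- the image of an idempotent of `C(u)` under `br_V` -/
theorem ix_br (hF : GoodF ℓ F) {V : Subgroup G} (hV : IsPGroup ℓ V) {u : G}
    (hVC : V ≤ Cu u) (hXC : Subgroup.centralizer (V : Set G) ≤ Cu u) {b : G → F}
    (hb : Ix (Cu u) b) : Ix (Subgroup.centralizer (V : Set G)) (br V b) := by
  refine ⟨fun x hx => H66.br_of_not_mem hx, ?_, ?_⟩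
  · intro x y
    change br V b (y * x * (y : G)⁻¹) = br V b x
    have hmem : (y : G) * x * (y : G)⁻¹ ∈ Subgroup.centralizer (V : Set G) :=
      Subgroup.mul_mem _ (Subgroup.mul_mem _ y.2 x.2) (Subgroup.inv_mem _ y.2)
    rw [H66.br_of_mem hmem, H66.br_of_mem x.2]
    exact (cj_eq_iff (y : G) b).1 (hb.inv (hXC y.2)) x
  · rw [← mulF_res (Subgroup.centralizer (V : Set G)) _ (fun x hx => H66.br_of_not_mem hx),
      ← br_mul hF hV hVC hb hb, hb.mul]

end tools

/-- LOC -/
theorem loc : LocStmt := by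
  intro ℓ _ F _ hF G _ _ e V γ hL u hu
  have hVC := le_cu hL hu
  have hXC : Subgroup.centralizer (V : Set G) ≤ Cu u := cent_le_cu hu
  have hel := el_of_mem hL.tp.pg hu
  have heI := idem_cu hF hL.blk.1 hel
  -- uniqueness
  have huniq : ∀ b b', Lc e V γ u b → Lc e V γ u b' → b = b' := by
    intro b b' hb hb'
    rcases hb.blk.dich hb'.blk with h | h
    · exact h
    · exfalso
      apply hL.gam.ne
      have h1 := br_mul hF hL.tp.pg hVC hb.blk.ix hb'.blk.ix
      rw [h, br_zero] at h1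
      calc γ = mulF (br V b) (mulF (br V b') γ) := by rw [hb'.gam, hb.gam]
        _ = mulF (mulF (br V b) (br V b')) γ := (mulF_assoc _ _ _).symm
        _ = 0 := by rw [← h1, mulF_zero_left]
  refine ⟨?_, huniq⟩
  -- existence
  set E : G → F := PP.ext0 (Cu u) (fun t : Cu u => e t) with hE
  have hEX : Ix (Cu u) E := by
    refine ⟨fun x hx => H46.ext0_of_not_mem _ hx, ?_⟩
    rw [hE, H46.restr_ext0]
    exact heI
  have hbrE : br V E = br V e := by
    funext g
    by_cases hg : g ∈ Subgroup.centralizer (V : Set G)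
    · rw [H66.br_of_mem hg, H66.br_of_mem hg, hE, H46.ext0_of_mem _ (hXC hg)]
    · rw [H66.br_of_not_mem hg, H66.br_of_not_mem hg]
  have hext_add : ∀ a b : Cu u → F, PP.ext0 (Cu u) (a + b) = PP.ext0 (Cu u) a + PP.ext0 (Cu u) b := by
    intro a b
    funext x
    by_cases hx : x ∈ Cu u
    · rw [H46.ext0_of_mem _ hx, Pi.add_apply, Pi.add_apply, H46.ext0_of_mem _ hx,
        H46.ext0_of_mem _ hx]
    · rw [H46.ext0_of_not_mem _ hx, Pi.add_apply, H46.ext0_of_not_mem _ hx,
        H46.ext0_of_not_mem _ hx, add_zero]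
  have hext_zero : PP.ext0 (Cu u) (0 : Cu u → F) = 0 := by
    funext x
    by_cases hx : x ∈ Cu u
    · rw [H46.ext0_of_mem _ hx]
      rfl
    · rw [H46.ext0_of_not_mem _ hx]
      rfl
  obtain ⟨b₀, hb₀, heb₀, hL₀⟩ := H24.exists_blk
    (fun a : Cu u → F => mulF (br V (PP.ext0 (Cu u) a)) γ)
    (by
      show mulF (br V (PP.ext0 (Cu u) 0)) γ = 0
      rw [hext_zero, br_zero, mulF_zero_left])
    (by
      intro a b
      show mulF (br V (PP.ext0 (Cu u) (a + b))) γ =
        mulF (br V (PP.ext0 (Cu u) a)) γ + mulF (br V (PP.ext0 (Cu u) b)) γ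
      rw [hext_add, br_add, H24.mulF_add_l])
    heI
    (by
      show mulF (br V E) γ ≠ 0
      rw [hbrE, hL.und]
      exact hL.gam.ne)
  have hrestr : (fun t : Cu u => PP.ext0 (Cu u) b₀ t) = b₀ := H46.restr_ext0 _
  have hbx : Bx (Cu u) (PP.ext0 (Cu u) b₀) := by
    refine ⟨fun x hx => H46.ext0_of_not_mem _ hx, ?_⟩
    rw [hrestr]
    exact hb₀
  refine ⟨PP.ext0 (Cu u) b₀, hbx, ?_, ?_⟩
  · rw [hrestr]
    exact heb₀
  · have hix := ix_br hF hL.tp.pg hVC hXC hbx.ix
    rw [hix.comm hL.gam.ix]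
    rcases hL.gam.dich' hix with h | h
    · exact h
    · exfalso
      apply hL₀
      show mulF (br V (PP.ext0 (Cu u) b₀)) γ = 0
      rw [hix.comm hL.gam.ix, h]

end Pool.Agent.PP.T3.H88
end
end -- Pool.Agent.Helper88_AT3.Loc
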