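import Pool.Agent.Helper12_AWB.B118
import Pool.Agent.Helper12_AWB.B158
import Pool.Agent.Helper12_AWB.B164

/-!
# Merged copies (generated) of the modules

* `Pool.Agent.Helper43_DF.Fst`
* `Pool.Agent.Helper77_ML.Fin`
* `Pool.Agent.Helper43_AT5.FN5`
-/

set_option autoImplicit false

section -- Pool.Agent.Helper43_DF.Fst

/-!
# Squad DF, module FST: from the characters of `N` to `DfE`
-/

open scoped BigOperators

set_option linter.unusedSectionVars false

noncomputable section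

namespace Pool.Agent.DF.H43

open Pool.Agent.Helper51_AWC Pool.Agent.Helper79_WRA Pool.Agent.PP
open Pool.Agent.PP.H75 (push push_eq cj Om Bd)
open Pool.Agent.PP.D1.H27
open Pool.Agent.PP.CD2.H29 (card_mul_rel)

section grp

variable {A B : Type} [Group A] [Group B] [Finite A] [Finite B]

/-- the conjugation action on the conjugates with a given image -/
def actMM (p : A →* B) (x : A) :
    MulAction p.ker {z : A // (∃ g, z = g * x * g⁻¹) ∧ p z = p x} where
  smul k z := ⟨k * z.1 * (k : A)⁻¹, by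
    obtain ⟨g, hg⟩ := z.2.1
    refine ⟨⟨k * g, ?_⟩, ?_⟩
    · rw [hg]; group
    · rw [map_mul, map_mul, map_inv, (MonoidHom.mem_ker).1 k.2, z.2.2]; simp⟩
  one_smul z := by
    apply Subtype.ext
    change ((1 : p.ker) : A) * z.1 * ((1 : p.ker) : A)⁻¹ = z.1
    simp
  mul_smul k k' z := by
    apply Subtype.ext
    change ((k * k' : p.ker) : A) * z.1 * ((k * k' : p.ker) : A)⁻¹ =
      k * (k' * z.1 * (k' : A)⁻¹) * (k : A)⁻¹
    simp only [Subgroup.coe_mul]
    group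

theorem ker_le_cent {ℓ : ℕ} [Fact ℓ.Prime] {p : A →* B} (hk : IsPGroup ℓ p.ker) (x : A)
    (hm : ¬ ℓ ∣ mm p x) : p.ker ≤ Subgroup.centralizer ({x} : Set A) := by
  classical
  let act := actMM p x
  obtain ⟨z, hz⟩ := hk.nonempty_fixed_point_of_prime_not_dvd_card
    {z : A // (∃ g, z = g * x * g⁻¹) ∧ p z = p x} hm
  obtain ⟨g, hg⟩ := z.2.1
  intro k hkk
  have hk' : g * k * g⁻¹ ∈ p.ker := (MonoidHom.normal_ker p).conj_mem _ hkk g
  have h1 : (g * k * g⁻¹) * z.1 * (g * k * g⁻¹)⁻¹ = z.1 := by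
    have := hz ⟨g * k * g⁻¹, hk'⟩
    exact congrArg Subtype.val this
  rw [hg] at h1
  rw [Subgroup.mem_centralizer_singleton_iff]
  have h2 : g * (k * x * k⁻¹) * g⁻¹ = g * x * g⁻¹ := by
    calc g * (k * x * k⁻¹) * g⁻¹ =
        (g * k * g⁻¹) * (g * x * g⁻¹) * (g * k * g⁻¹)⁻¹ := by group
      _ = g * x * g⁻¹ := h1
  have h3 : k * x * k⁻¹ = x := mul_left_cancel (mul_right_cancel h2)
  calc k * x = k * x * k⁻¹ * k := by group
    _ = x * k := by rw [h3]

/-- a normal `ℓ`-subgroup lies in the `ℓ`-subgroups of index prime to `ℓ` -/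
theorem le_of_sylow {C : Type} [Group C] [Finite C] {ℓ : ℕ} [Fact ℓ.Prime] {S K : Subgroup C}
    (hS : IsPGroup ℓ S) (hi : ¬ ℓ ∣ S.index) (hK : IsPGroup ℓ K) (hn : K.Normal) : K ≤ S := by
  have h1 : IsPGroup ℓ (S ⊔ K : Subgroup C) := hS.to_sup_of_normal_right hK
  have h2 := (hS.toSylow hi).is_maximal' h1 le_sup_left
  have h3 : (S ⊔ K : Subgroup C) = S := h2
  rw [← h3]
  exact le_sup_right

/-- an `ℓ`-subgroup lies in the class if there is an `ℓ`-subgroup of the class of index prime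
to `ℓ` -/
theorem cls_of_sylow {C : Type} [Group C] [Finite C] {ℓ : ℕ} [Fact ℓ.Prime]
    {𝒟 : (Q : Type) → [Group Q] → Prop} (h𝒟 : SubCl 𝒟) {S Q : Subgroup C}
    (hS : IsPGroup ℓ S) (hi : ¬ ℓ ∣ S.index) (hc : 𝒟 S) (hQ : IsPGroup ℓ Q) : 𝒟 Q := by
  obtain ⟨T, hT⟩ := hQ.exists_le_sylow
  let S' : Sylow ℓ C := hS.toSylow hi
  have e : T ≃* S' := Sylow.equiv T S'
  have h2 : 𝒟 T := h𝒟 T S e.toMonoidHom e.injective hc
  exact h𝒟 Q T (Subgroup.inclusion hT) (Subgroup.inclusion_injective hT) h2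

end grp

section core

variable {M : Ideal (integralClosure ℤ ℂ)} {A B : Type} [Group A] [Group B] [Finite A] [Finite B]

/-- the defect of the image -/
theorem core3 (inv : InvStmt) {ℓ : ℕ} (hℓ : ℓ.Prime) [M.IsMaximal]
    (hM : (ℓ : integralClosure ℤ ℂ) ∈ M) (fld : FldStmt)
    {𝒟 : (Q : Type) → [Group Q] → Prop} (h𝒟 : SubCl 𝒟) {p : A →* B}
    (hp : Function.Surjective p) (hkO : p.ker = opCore ℓ A) :
    letI := Ideal.Quotient.field M
    ∀ {ψ : A → ℂ}, ψ ∈ Irr A → ∀ {b : A → FF M}, IsBlk b → res M b ψ = 1 → DfIn ℓ M 𝒟 ψ →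
      ∀ Q : Subgroup B, IsPGroup ℓ Q → br Q (push p b) ≠ 0 → 𝒟 Q := by
  let _ := Ideal.Quotient.field M
  intro ψ hψ b hb hb1 hS Q hQ hbr
  have hF : GoodF ℓ (FF M) := fld ℓ hℓ M hM
  have hfact := Fact.mk hℓ
  obtain ⟨x, P, hx0, hPx, hPp, hPi, P₀, hP₀, f, hDP₀, hf⟩ := hS
  have hkp : IsPGroup ℓ p.ker := by
    rw [hkO]
    exact H75.opCore_isPGroup hℓ
  have hcl : IsCl (clsum (FF M) ⊤ x) := clsum_cl x
  have hlab : res M (clsum (FF M) ⊤ x) ψ ≠ 0 := by
    rw [H75.res_clsum x]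
    exact hx0
  obtain ⟨u, hu, hbu⟩ := inv ℓ (FF M) hF A b (clsum (FF M) ⊤ x) hb hcl (by
    intro n h0
    have h1 := (res_iter (M := M) hψ hcl hb.1.1 n).2
    rw [h0, H75.res_zero, hb1, mul_one] at h1
    exact pow_ne_zero n hlab h1.symm)
  have hbp : mulF (push p b) (mulF (push p (clsum (FF M) ⊤ x)) (push p u)) = push p b := by
    rw [← H75.push_mulF, ← H75.push_mulF, hbu]
  have c1 := H75.push_isCl hp hb.1.1
  have c2 := H75.push_isCl hp hcl
  have c3 := H75.push_isCl hp hu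
  have h2 : br Q (push p (clsum (FF M) ⊤ x)) ≠ 0 := by
    intro h0
    apply hbr
    rw [← hbp, H66.br_mulF hF hQ (H66.IsCl.inv c1 Q) (H66.IsCl.inv (H75.isCl_mulF c2 c3) Q),
      H66.br_mulF hF hQ (H66.IsCl.inv c2 Q) (H66.IsCl.inv c3 Q), h0, H75.mulF_zero_left,
      H75.mulF_zero_right]
  rw [push_cls p hp x, br_smul] at h2
  have hm : (mm p x : FF M) ≠ 0 := by
    intro h0
    apply h2
    funext y
    rw [h0, zero_mul]
    rfl
  have h3 : br Q (clsum (FF M) ⊤ (p x)) ≠ 0 := by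
    intro h0
    apply h2
    funext y
    rw [h0]
    exact mul_zero _
  obtain ⟨y, hy, hyne⟩ := exists_of_br_ne h3
  obtain ⟨r, hr⟩ : ∃ r, y = r * p x * r⁻¹ := by
    by_contra hcon
    exact hyne (clsum_neg hcon)
  -- `Q` centralises a conjugate of `p x`
  have hle : conjS r⁻¹ Q ≤ Subgroup.centralizer ({p x} : Set B) := by
    intro z hz
    rw [mem_conjS, inv_inv] at hz
    rw [Subgroup.mem_centralizer_singleton_iff]
    have h4 := Subgroup.mem_centralizer_iff.1 hy _ hz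
    rw [hr] at h4
    have h5 : r * (z * p x) * r⁻¹ = r * (p x * z) * r⁻¹ := by
      calc r * (z * p x) * r⁻¹ = r * z * r⁻¹ * (r * p x * r⁻¹) := by group
        _ = r * p x * r⁻¹ * (r * z * r⁻¹) := h4
        _ = r * (p x * z) * r⁻¹ := by group
    exact mul_left_cancel (mul_right_cancel h5)
  have hmℓ : ¬ ℓ ∣ mm p x := by
    intro h7
    apply hm
    have := hF.char
    exact (CharP.cast_eq_zero_iff (FF M) ℓ _).2 h7
  -- the image of `P`
  have hkx : p.ker ≤ Subgroup.centralizer ({x} : Set A) := ker_le_cent hkp x hmℓ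
  have hkP : p.ker ≤ P := by
    have h4 := le_of_sylow (ℓ := ℓ) (C := Subgroup.centralizer ({x} : Set A))
      (S := P.subgroupOf (Subgroup.centralizer ({x} : Set A)))
      (K := p.ker.subgroupOf (Subgroup.centralizer ({x} : Set A)))
      (hPp.of_equiv (Subgroup.subgroupOfEquivOfLe hPx).symm) hPi
      (hkp.of_equiv (Subgroup.subgroupOfEquivOfLe hkx).symm)
      ((MonoidHom.normal_ker p).subgroupOf _)
    intro k hk
    exact h4 (x := ⟨k, hkx hk⟩) hk
  -- `P.map p` embeds into `P₀`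
  have hDP : 𝒟 (P.map p) := by
    have hs : Function.Surjective (p.subgroupMap P) := p.subgroupMap_surjective P
    have hker : (p.subgroupMap P).ker ≤ f.ker := by
      intro u hu
      rw [MonoidHom.mem_ker] at hu ⊢
      rw [hf u, ← hkO, MonoidHom.mem_ker]
      exact congrArg Subtype.val hu
    obtain ⟨j, hj⟩ : ∃ j : P.map p →* P₀, ∀ u : P, j (p.subgroupMap P u) = f u :=
      ⟨(p.subgroupMap P).liftOfSurjective hs ⟨f, hker⟩, fun u =>
        (p.subgroupMap P).liftOfRightInverse_comp_apply _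
          (Function.rightInverse_surjInv hs) ⟨f, hker⟩ u⟩
    refine h𝒟 (P.map p) P₀ j ?_ hDP₀
    rw [injective_iff_map_eq_one]
    intro v hv
    obtain ⟨u, rfl⟩ := hs v
    rw [hj u, hf u, ← hkO, MonoidHom.mem_ker] at hv
    exact Subtype.ext hv
  have hSle : P.map p ≤ Subgroup.centralizer ({p x} : Set B) := by
    rintro _ ⟨z, hz, rfl⟩
    have h4 := Subgroup.mem_centralizer_singleton_iff.1 (hPx hz)
    rw [Subgroup.mem_centralizer_singleton_iff, ← map_mul, h4, map_mul]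
  have hcardP : Nat.card P = Nat.card p.ker * Nat.card (P.map p) := by
    have h4 : (P.map p).comap p = P := by
      rw [Subgroup.comap_map_eq, sup_eq_left.2 hkP]
    have h5 := H75.card_comap hp (P.map p)
    rw [h4] at h5
    exact h5
  have hidx : ¬ ℓ ∣ (P.map p).relIndex (Subgroup.centralizer ({p x} : Set B)) := by
    have h5 := card_mm hp x
    have h6 : P.relIndex (Subgroup.centralizer ({x} : Set A)) * Nat.card P =
        Nat.card (Subgroup.centralizer ({x} : Set A)) := by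
      rw [mul_comm]
      exact card_mul_rel hPx
    have h7 : (P.map p).relIndex (Subgroup.centralizer ({p x} : Set B)) *
        Nat.card (P.map p) = Nat.card (Subgroup.centralizer ({p x} : Set B)) := by
      rw [mul_comm]
      exact card_mul_rel hSle
    have h8 : (P.map p).relIndex (Subgroup.centralizer ({p x} : Set B)) * Nat.card P =
        P.relIndex (Subgroup.centralizer ({x} : Set A)) * mm p x * Nat.card P := by
      calc (P.map p).relIndex (Subgroup.centralizer ({p x} : Set B)) * Nat.card P =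
          Nat.card p.ker * ((P.map p).relIndex (Subgroup.centralizer ({p x} : Set B)) *
            Nat.card (P.map p)) := by rw [hcardP]; ring
        _ = Nat.card (Subgroup.centralizer ({x} : Set A)) * mm p x := by rw [h7, h5]
        _ = P.relIndex (Subgroup.centralizer ({x} : Set A)) * mm p x * Nat.card P := by
            rw [← h6]; ring
    have h9 := Nat.eq_of_mul_eq_mul_right (Nat.card_pos (α := P)) h8
    rw [h9, Nat.Prime.dvd_mul hℓ]
    rintro (h | h)
    · exact hPi h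
    · exact hmℓ h
  have hQ' : IsPGroup ℓ (conjS r⁻¹ Q) := by
    rw [IsPGroup.iff_card] at hQ ⊢
    rw [card_conjS]
    exact hQ
  have hQc : 𝒟 ((conjS r⁻¹ Q).subgroupOf (Subgroup.centralizer ({p x} : Set B))) := by
    refine cls_of_sylow (ℓ := ℓ) h𝒟
      (S := (P.map p).subgroupOf (Subgroup.centralizer ({p x} : Set B))) ?_ hidx ?_ ?_
    · exact (hPp.map p).of_equiv (Subgroup.subgroupOfEquivOfLe hSle).symm
    · exact h𝒟 _ _ (Subgroup.subgroupOfEquivOfLe hSle).toMonoidHom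
        (Subgroup.subgroupOfEquivOfLe hSle).injective hDP
    · exact hQ'.of_equiv (Subgroup.subgroupOfEquivOfLe hle).symm
  have h10 : 𝒟 (conjS r⁻¹ Q) :=
    h𝒟 _ _ (Subgroup.subgroupOfEquivOfLe hle).symm.toMonoidHom
      (Subgroup.subgroupOfEquivOfLe hle).symm.injective hQc
  exact h𝒟 _ _ (conjSEquiv r⁻¹ Q).toMonoidHom (conjSEquiv r⁻¹ Q).injective h10

end core

/-- FST -/
theorem fst (inv : InvStmt) : FstStmt := by
  classical
  intro ℓ hℓ M _ hM
  let _ := Ideal.Quotient.field M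
  intro 𝒟 h𝒟 G _ _ hn N hN χ hχ ψ hψ hχψ hS e he h1
  have hfact := Fact.mk hℓ
  have hF : GoodF ℓ (FF M) := H50.fld ℓ hℓ M hM
  obtain ⟨b, hb, hb1, -⟩ := H50.bid ℓ hℓ M hM N ψ hψ
  set p : G →* G ⧸ opCore ℓ G := QuotientGroup.mk' (opCore ℓ G) with hp
  have hker : p.ker = opCore ℓ G := QuotientGroup.ker_mk' _
  have hsurj : Function.Surjective p := QuotientGroup.mk'_surjective (opCore ℓ G)
  -- the sum of the conjugates of the block of `ψ`
  have hover : (∑ᶠ n : N, χ n * ψ n⁻¹) ≠ 0 := by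
    intro h0
    apply hχψ
    rw [← h0]
    apply finsum_congr
    intro n
    rw [H94.irr_star hψ]
  have hB : Bd N (ext0 N b) := ⟨hN, fun x hx => H46.ext0_of_not_mem _ hx, by
    rw [H46.restr_ext0]; exact hb⟩
  have := Fintype.ofFinite (Om (ext0 N b))
  obtain ⟨h, hh⟩ : ∃ h : G → FF M, h = fun x => ∑ f : Om (ext0 N b), f.1 x := ⟨_, rfl⟩
  have hidem : IsIdem h := by rw [hh]; exact hB.fam.isIdem
  have hsupp : ∀ x, x ∉ N → h x = 0 := by
    intro x hx
    rw [hh]
    exact Finset.sum_eq_zero fun f _ => hB.supp2 f x hx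
  have hhb : mulF h (ext0 N b) = ext0 N b := by
    have := hB.fam.mul_sum Finset.univ (Finset.mem_univ (H75.omk (ext0 N b) 1))
    rw [H75.omk_one] at this
    rw [hh]
    exact this
  have hN1 : IsIdem (fun t : N => h t) := by
    refine ⟨fun x y => hidem.1 _ _, ?_⟩
    rw [← H75.mulF_res N h hsupp, hidem.2]
  have k1 : mulF (fun t : N => h t) b = b := by
    have e1 := H75.mulF_res N (ext0 N b) hsupp
    rw [H46.restr_ext0, hhb, H46.restr_ext0] at e1
    exact e1.symm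
  have k2 : res M (fun t : N => h t) ψ = 1 := by
    have e1 := H75.res_mulF hψ hN1.1 hb.1.1
    rw [k1, hb1, mul_one] at e1
    exact e1.symm
  have k3 : res M h χ = 1 := by
    rw [H94.res_over N hN hχ hψ hover hidem.1 hsupp, k2]
  have k4 : mulF e h ≠ 0 := by
    intro h0
    have e1 := H75.res_mulF hχ he.1.1 hidem.1
    rw [h0, H75.res_zero, h1, k3, mul_one] at e1
    exact zero_ne_one e1
  have k5 : mulF e h = e := (he.2.2 h hidem).resolve_right k4
  -- the map on `N`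
  have hqk : (p.subgroupMap N).ker = p.ker.subgroupOf N := by
    ext x
    rw [MonoidHom.mem_ker, Subgroup.mem_subgroupOf, MonoidHom.mem_ker]
    constructor
    · intro h
      exact congrArg Subtype.val h
    · intro h
      exact Subtype.ext h
  have hqO : (p.subgroupMap N).ker = opCore ℓ N := by
    rw [hqk, hker, H75.opCore_sub hℓ hN]
  have hNB : (N.map p).Normal := hN.map p hsurj
  have hdfh : DfE ℓ 𝒟 (push p h) (N.map p) := by
    intro Q hQN hQ hbr
    obtain ⟨y, hy, hyne⟩ := hbr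
    rw [hh, push_fsum] at hyne
    obtain ⟨f, -, hf⟩ := Finset.exists_ne_zero_of_sum_ne_zero hyne
    obtain ⟨g, rfl⟩ := H75.omk_surj f
    change push p (cj g (ext0 N b)) y ≠ 0 at hf
    rw [push_cj, H75.push_ext0, cj] at hf
    have hyN : (p g)⁻¹ * y * p g ∈ N.map p := by
      by_contra hcon
      exact hf (H46.ext0_of_not_mem _ hcon)
    rw [H46.ext0_of_mem _ hyN] at hf
    have hle : conjS (p g)⁻¹ Q ≤ N.map p := by
      intro z hz
      rw [mem_conjS, inv_inv] at hz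
      have h3 := hNB.conj_mem _ (hQN hz) (p g)⁻¹
      have h4 : (p g)⁻¹ * (p g * z * (p g)⁻¹) * (p g)⁻¹⁻¹ = z := by group
      rwa [h4] at h3
    have h5 := core3 inv hℓ hM H50.fld h𝒟 (p.subgroupMap_surjective N) hqO hψ hb hb1 hS
      ((conjS (p g)⁻¹ Q).subgroupOf (N.map p)) ?_ (br_ne_of
        (y := ⟨(p g)⁻¹ * y * p g, hyN⟩) ?_ hf)
    · have h6 : 𝒟 (conjS (p g)⁻¹ Q) :=
        h𝒟 _ _ (Subgroup.subgroupOfEquivOfLe hle).symm.toMonoidHom
          (Subgroup.subgroupOfEquivOfLe hle).symm.injective h5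
      exact h𝒟 _ _ (conjSEquiv (p g)⁻¹ Q).toMonoidHom (conjSEquiv (p g)⁻¹ Q).injective h6
    · have hQ' : IsPGroup ℓ (conjS (p g)⁻¹ Q) := by
        rw [IsPGroup.iff_card] at hQ ⊢
        rw [card_conjS]
        exact hQ
      exact hQ'.of_equiv (Subgroup.subgroupOfEquivOfLe hle).symm
    · rw [Subgroup.mem_centralizer_iff]
      intro z hz
      have hz' : (z : G ⧸ opCore ℓ G) ∈ conjS (p g)⁻¹ Q := hz
      rw [mem_conjS, inv_inv] at hz'
      have h6 := Subgroup.mem_centralizer_iff.1 hy _ hz'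
      apply Subtype.ext
      change (z : G ⧸ opCore ℓ G) * ((p g)⁻¹ * y * p g) = (p g)⁻¹ * y * p g * z
      calc (z : G ⧸ opCore ℓ G) * ((p g)⁻¹ * y * p g) =
          (p g)⁻¹ * ((p g * z * (p g)⁻¹) * y) * p g := by group
        _ = (p g)⁻¹ * (y * (p g * z * (p g)⁻¹)) * p g := by rw [h6]
        _ = (p g)⁻¹ * y * p g * z := by group
  have c1 := H75.push_isCl hsurj hidem.1
  have c2 := H75.push_isCl hsurj he.1.1
  refine DfE.le hF c1 c2 ?_ hdfh
  have k6 : mulF h e = e := by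
    rw [H75.mulF_comm_cl hidem.1 e]
    exact k5
  rw [← H75.push_mulF, k6]

end Pool.Agent.DF.H43
end
end -- Pool.Agent.Helper43_DF.Fst

section -- Pool.Agent.Helper77_ML.Fin

/-!
# Squad ML, module FIN: the alternating sum modulo `ℓ |O_ℓ(G)|`
-/

open scoped BigOperators

set_option linter.unusedSectionVars false

noncomputable section

namespace Pool.Agent.PP.ML.H77

open Pool.Agent.Helper51_AWC Pool.Agent.Helper79_WRA Pool.Agent.PP Pool.Agent.PP.ML

/-- divisibility of `YY` follows from divisibility for the blocks -/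
theorem add_dvd {ℓ : ℕ} {F : Type} [Field F] (hF : GoodF ℓ F) {G : Type} [Group G] [Finite G]
    (Q : Subgroup G) (m : ℤ) : ∀ e : G → F, IsIdem e →
    (∀ f : G → F, IsBlk f → mulF e f = f → m ∣ YY ℓ Q f) → m ∣ YY ℓ Q e := by
  have hfact : Fact ℓ.Prime := ⟨hF.prime⟩
  intro e he
  refine H46.idem_induction (fun e => (∀ f : G → F, IsBlk f → mulF e f = f → m ∣ YY ℓ Q f) →
    m ∣ YY ℓ Q e) ?_ ?_ ?_ e he
  · intro _
    rw [H67.YY_zero hF Q]
    exact dvd_zero m
  · intro b hb h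
    exact h b hb hb.1.2
  · intro e₁ e₂ h1 h2 h12 p1 p2 h
    have h21 : mulF e₂ e₁ = 0 := by rw [← H46.mulF_comm h1.1, h12]
    have hd : ∀ f : G → F, mulF (e₁ + e₂) f = mulF e₁ f + mulF e₂ f := by
      intro f
      apply ma_injective
      rw [ma_mul, ma_add, ma_add, ma_mul, ma_mul, add_mul]
    have hz : ∀ f : G → F, mulF (0 : G → F) f = 0 := by
      intro f
      apply ma_injective
      rw [ma_mul, ma_zero, zero_mul]
    rw [H9.YY_add hF H94.nch H20.nls H20.brm H20.eig H20.ibf Q h1 h2 h12]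
    apply dvd_add
    · apply p1
      intro f hf hfe
      apply h f hf
      rw [hd, hfe]
      have : mulF e₂ f = 0 := by rw [← hfe, ← mulF_assoc, h21, hz]
      rw [this, add_zero]
    · apply p2
      intro f hf hfe
      apply h f hf
      rw [hd, hfe]
      have : mulF e₁ f = 0 := by rw [← hfe, ← mulF_assoc, h12, hz]
      rw [this, zero_add]

/-- `O_ℓ(G / O_ℓ(G)) = 1` -/
theorem opCore_quot (ℓ : ℕ) [Fact ℓ.Prime] (G : Type) [Group G] [Finite G]
    [(opCore ℓ G).Normal] : opCore ℓ (G ⧸ opCore ℓ G) = ⊥ := by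
  obtain ⟨h1, h2, h3⟩ := opCore_spec ℓ G
  obtain ⟨k1, k2, k3⟩ := opCore_spec ℓ (G ⧸ opCore ℓ G)
  set p : G →* G ⧸ opCore ℓ G := QuotientGroup.mk' (opCore ℓ G) with hp
  have hker : p.ker = opCore ℓ G := QuotientGroup.ker_mk' _
  have hsurj : Function.Surjective p := QuotientGroup.mk'_surjective (opCore ℓ G)
  have hkp : IsPGroup ℓ p.ker := by rw [hker]; exact h2
  have h4 : (opCore ℓ (G ⧸ opCore ℓ G)).comap p ≤ opCore ℓ G :=
    h3 _ (k1.comap p) ((H75.isPGroup_comap_iff hsurj hkp _).2 k2)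
  rw [eq_bot_iff]
  intro x hx
  obtain ⟨g, rfl⟩ := hsurj x
  have h5 : g ∈ opCore ℓ G := h4 hx
  rw [← hker, MonoidHom.mem_ker] at h5
  rw [h5]
  exact Subgroup.one_mem _

theorem subCl_ab : DF.SubCl Ab := by
  intro Q R _ _ j hj hR a b
  apply hj
  rw [map_mul, map_mul, hR]

/-- FIN -/
theorem fin (glu : GluStmt) : FinMLStmt := by
  classical
  intro ℓ hfact M _ hM G _ _ hc χ hχ hL hS
  let _ := Ideal.Quotient.field M
  have hℓ : ℓ.Prime := hfact.out
  have hF : GoodF ℓ (FF M) := H50.fld ℓ hℓ M hM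
  have hn : (opCore ℓ G).Normal := H75.opCore_normal (A := G) ℓ
  obtain ⟨e, he, h1, h2⟩ := H50.bid ℓ hℓ M hM G χ hχ
  set p : G →* G ⧸ opCore ℓ G := QuotientGroup.mk' (opCore ℓ G) with hp
  have hker : p.ker = opCore ℓ G := QuotientGroup.ker_mk' _
  have hsurj : Function.Surjective p := QuotientGroup.mk'_surjective (opCore ℓ G)
  have hkp : IsPGroup ℓ p.ker := by
    rw [hker]
    exact H75.opCore_isPGroup hℓ
  have hkc : p.ker ≤ Subgroup.center G := by
    rw [hker]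
    exact hc
  have hO : opCore ℓ (G ⧸ opCore ℓ G) = ⊥ := opCore_quot ℓ G
  have hpos : Pos ℓ (H75.push p e) (⊤ : Subgroup (G ⧸ opCore ℓ G)) :=
    H75.pos_push hℓ hM hsurj hker hkp hkc hχ he h1 hL
  have heq := H75.altSum_central H20.nls H20.brm H63.smt H94.nch
    (H50.dic H20.ibn H20.nls H20.brm) hℓ M hM hF hsurj hker hkp hkc χ hχ e he h1 h2
  have hdi : DF.DfIn ℓ M Ab χ := by
    obtain ⟨x, P, hx, hPC, hPp, hPi, hcomm⟩ := hS
    refine ⟨x, P, fun hr => hx ?_, hPC, hPp, hPi, P ⧸ ((opCore ℓ G).subgroupOf P),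
      inferInstance, QuotientGroup.mk' ((opCore ℓ G).subgroupOf P), ?_, ?_⟩
    · have hint : IsIntegral ℤ (omega (MonoidHom.id G) χ x) :=
        Pool.Agent.Helper51_AWC.omega_integral _ hχ x
      rw [← Pool.Agent.Helper79_WRA.red_eq_iff hint isIntegral_zero, hr,
        Pool.Agent.Helper79_WRA.red_zero]
    · intro a b
      obtain ⟨a, rfl⟩ := QuotientGroup.mk'_surjective ((opCore ℓ G).subgroupOf P) a
      obtain ⟨b, rfl⟩ := QuotientGroup.mk'_surjective ((opCore ℓ G).subgroupOf P) b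
      have h3 : QuotientGroup.mk' ((opCore ℓ G).subgroupOf P) (a * b * a⁻¹ * b⁻¹) = 1 := by
        rw [← MonoidHom.mem_ker, QuotientGroup.ker_mk', Subgroup.mem_subgroupOf]
        exact hcomm a a.2 b b.2
      rw [map_mul, map_mul, map_mul, map_inv, map_inv] at h3
      rw [← mul_inv_eq_one, mul_inv_rev, ← mul_assoc]
      exact h3
    · intro u
      rw [← MonoidHom.mem_ker, QuotientGroup.ker_mk', Subgroup.mem_subgroupOf]
  have hdf : DF.DfE ℓ Ab (H75.push p e) (⊤ : Subgroup (G ⧸ opCore ℓ G)) := by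
    rintro Q - hQ ⟨g, hg, hg'⟩
    refine DF.H43.core3 D1.H9.inv hℓ hM H50.fld subCl_ab hsurj hker hχ he h1 hdi Q hQ ?_
    intro h0
    apply hg'
    have h3 := congrFun h0 g
    unfold Pool.Agent.PP.br at h3
    rwa [if_pos hg] at h3
  have hidem : IsIdem (H75.push p e) := H75.push_isIdem hsurj he.1
  have hdiv : ((ℓ * Nat.card (G ⧸ opCore ℓ G) : ℕ) : ℤ) ∣
      YY ℓ (⊤ : Subgroup (G ⧸ opCore ℓ G)) (H75.push p e) := by
    apply add_dvd hF _ _ _ hidem
    intro f hf hef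
    have hfe : mulF f (H75.push p e) = f := by
      rw [H75.mulF_comm_cl hf.1.1]
      exact hef
    have hposf : Pos ℓ f ⊤ := H46.pos_mono hf.1 hfe hpos
    have hdff : DF.DfE ℓ Ab f ⊤ := DF.DfE.le hF hidem.1 hf.1.1 hef hdf
    obtain ⟨ϑ, hϑ, k1, k2, k3⟩ := H75.block_case H20.nls H20.brm H63.smt H94.nch
      (H50.dic H20.ibn H20.nls H20.brm) H50.bid H50.chp H50.ldp H50.fld hℓ hM hO hf hposf
    obtain ⟨c, hcc⟩ := glu ℓ M hM (G ⧸ opCore ℓ G) hO f hf hposf hdff ϑ hϑ k1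
    refine ⟨c, ?_⟩
    rw [← k3, hcc]
    push_cast
    ring
  obtain ⟨c, hcc⟩ := hdiv
  have hcard : Nat.card G = Nat.card (G ⧸ opCore ℓ G) * Nat.card (opCore ℓ G) :=
    Subgroup.card_eq_card_quotient_mul_card_subgroup (opCore ℓ G)
  rw [hcc, hker, hcard] at heq
  have hq : ((Nat.card (G ⧸ opCore ℓ G) : ℕ) : ℤ) ≠ 0 := by
    exact_mod_cast (Nat.card_pos (α := G ⧸ opCore ℓ G)).ne'
  have hz : ((Nat.card (opCore ℓ G) : ℕ) : ℤ) ≠ 0 := by
    exact_mod_cast (Nat.card_pos (α := opCore ℓ G)).ne'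
  refine ⟨c, mul_left_cancel₀ (mul_ne_zero hq hz) ?_⟩
  push_cast at heq ⊢
  rw [heq]
  ring

end Pool.Agent.PP.ML.H77
end
end -- Pool.Agent.Helper77_ML.Fin

section -- Pool.Agent.Helper43_AT5.FN5

/-!
# Squad AT5, row FN5: the final theorem
-/

open scoped BigOperators

noncomputable section

namespace Pool.Agent.PP.T5.H43

open Pool.Agent.Helper51_AWC Pool.Agent.Helper79_WRA Pool.Agent.PP Pool.Agent.PP.KF
open Pool.Agent.PP.K9 Pool.Agent.PP.K9.H97 Pool.Agent.PP.H75 Pool.Agent.PP.T3 Pool.Agent.PP.T2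

attribute [local instance] Ideal.Quotient.field

theorem ep_pos' (ℓ : ℕ) : 1 ≤ ep ℓ := by
  unfold ep
  split_ifs <;> omega

/-- FN5 -/
theorem fn5 (hT5A : T5aStmt) (hDZ5 : Dz5Stmt) : Fn5Stmt := by
  classical
  intro ℓ hfact M _ hM G _ _ hc χ hχ D hD z hz hzc B hB hBc q m hq hcard hle
  have hℓ : ℓ.Prime := hfact.out
  have hF : GoodF ℓ (FF M) := H50.fld ℓ hℓ M hM
  have hep := ep_pos' ℓ
  have hn : (opCore ℓ G).Normal := H75.opCore_normal (A := G) ℓ
  obtain ⟨e, he, h1, h2⟩ := H50.bid ℓ hℓ M hM G χ hχ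
  let p : G →* G ⧸ opCore ℓ G := QuotientGroup.mk' (opCore ℓ G)
  have hker : p.ker = opCore ℓ G := QuotientGroup.ker_mk' _
  have hsurj : Function.Surjective p := QuotientGroup.mk'_surjective (opCore ℓ G)
  have hkp : IsPGroup ℓ p.ker := by
    rw [hker]
    exact H75.opCore_isPGroup hℓ
  have hkc : p.ker ≤ Subgroup.center G := by
    rw [hker]
    exact hc
  obtain ⟨hblk, hOD, hcm, hTp⟩ := hDZ5 ℓ M hM G hc χ hχ D hD e he h1
    (G ⧸ opCore ℓ G) p hsurj hker
  have heq := H75.altSum_central H20.nls H20.brm H63.smt H94.nch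
    (H50.dic H20.ibn H20.nls H20.brm) hℓ M hM hF hsurj hker hkp hkc χ hχ e he h1 h2
  have hmem : ∀ x : G, p x = 1 ↔ x ∈ opCore ℓ G := by
    intro x
    rw [← MonoidHom.mem_ker]
    exact iff_of_eq (congrArg (fun S : Subgroup G => x ∈ S) hker)
  have hcomm : ∀ x y : G, x * y * x⁻¹ * y⁻¹ ∈ opCore ℓ G → p x * p y = p y * p x := by
    intro x y h
    have h3 := (hmem _).2 h
    rw [map_mul, map_mul, map_mul, map_inv, map_inv] at h3
    have h4 : p x * p y * (p x)⁻¹ = p y := mul_inv_eq_one.1 h3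
    exact mul_inv_eq_iff_eq_mul.1 h4
  -- the numbers
  have hO0 : 0 < Nat.card (opCore ℓ G) := Nat.card_pos
  have hV' : Nat.card (D.map p) = m * q := by
    have h3 : Nat.card (D.map p) * Nat.card (opCore ℓ G) = m * q * Nat.card (opCore ℓ G) := by
      rw [hcm, hcard]
    exact Nat.eq_of_mul_eq_mul_right hO0 h3
  obtain ⟨n, hpn⟩ := (IsPGroup.iff_card).1 hTp.pg
  have hmq : m * q = ℓ ^ n := by rw [← hV', hpn]
  obtain ⟨p₀, -, hm⟩ := (Nat.dvd_prime_pow hℓ).1 (Dvd.intro _ hmq)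
  obtain ⟨a, -, hqa⟩ := (Nat.dvd_prime_pow hℓ).1 (Dvd.intro_left _ hmq)
  have hord : orderOf (p z) = ℓ ^ a := by
    rw [← hqa]
    apply Nat.dvd_antisymm
    · rw [orderOf_dvd_iff_pow_eq_one, ← map_pow, hmem, hq]
    · rw [← hq, ← hmem, map_pow]
      exact pow_orderOf_eq_one _
  -- the index
  have hBi : (B.map p).relIndex (D.map p) ≤ B.relIndex D := by
    have hKD : D ⊔ p.ker = D := sup_eq_left.2 (hker.le.trans hOD)
    rw [Subgroup.relIndex_map_map, hKD]
    refine Subgroup.relIndex_le_of_le_left le_sup_left ?_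
    intro h0
    have h5 := Subgroup.relIndex_dvd_card B D
    rw [h0, zero_dvd_iff] at h5
    exact (Nat.card_pos (α := D)).ne' h5
  have hDpg : IsPGroup ℓ D := hD.1
  obtain ⟨k, hk⟩ : ∃ k, B.relIndex D = ℓ ^ k := by
    obtain ⟨n', hn'⟩ := (IsPGroup.iff_card).1 hDpg
    have h3 : B.relIndex D ∣ ℓ ^ n' := by
      rw [← hn']
      exact Subgroup.relIndex_dvd_card B D
    obtain ⟨k, -, hk⟩ := (Nat.dvd_prime_pow hℓ).1 h3
    exact ⟨k, hk⟩
  have hineq : 3 * p₀ + k + ep ℓ ≤ a := by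
    rw [hm, hk, hqa, ← pow_mul, ← pow_add, ← pow_add] at hle
    have := (Nat.pow_le_pow_iff_right hℓ.one_lt).1 hle
    omega
  have hCy : Cy ℓ a p₀ k (D.map p) := by
    refine ⟨by omega, by omega, ⟨p z, Subgroup.mem_map_of_mem p hz, ?_, hord⟩, ?_,
      ⟨B.map p, Subgroup.map_mono hB, ?_, hk ▸ hBi⟩⟩
    · rintro v ⟨d, hd, rfl⟩
      exact (hcomm z d (hzc d hd)).symm
    · rw [hV', hm, hqa, ← pow_add, add_comm]
    · rintro x ⟨x, hx, rfl⟩ y ⟨y, hy, rfl⟩
      exact hcomm x y (hBc x hx y hy)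
  have h0 : YY ℓ (⊤ : Subgroup (G ⧸ opCore ℓ G)) (push p e) = 0 :=
    hT5A ℓ M hM a p₀ k hineq (G ⧸ opCore ℓ G) (push p e) (D.map p) hblk hTp hCy
  rw [h0, mul_zero] at heq
  rcases mul_eq_zero.1 heq with h | h
  · exact absurd h (by exact_mod_cast (Nat.card_pos (α := G)).ne')
  · exact h

end Pool.Agent.PP.T5.H43
end
end -- Pool.Agent.Helper43_AT5.FN5
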