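import Pool.Agent.Helper12_AWB.B137
import Pool.Agent.Helper12_AWB.B144
import Pool.Agent.Helper12_AWB.B150
import Pool.Agent.Helper12_AWB.B163

/-!
# Merged copies (generated) of the modules

* `Pool.Agent.Helper11_K9.Base`
* `Pool.Agent.Helper23_AT3.RTC`
* `Pool.Agent.Helper11_K9.DT3`
* `Pool.Agent.Helper11_K9.K9`
* `Pool.Agent.Helper98_AT3.Fxm`
* `Pool.Agent.Helper98_AT3.Fxs`
* `Pool.Agent.Helper98_AT3.FIX`
-/

set_option autoImplicit false

section -- Pool.Agent.Helper11_K9.Base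

/-!
# Squad K9: common tools for the modules DT3 and K9
-/

open scoped BigOperators

noncomputable section

namespace Pool.Agent.PP.K9.H11

open Pool.Agent.Helper51_AWC Pool.Agent.Helper79_WRA Pool.Agent.PP Pool.Agent.PP.KF

attribute [local instance] Ideal.Quotient.field

section inner

variable {G : Type} [Group G] [Finite G]

/-- the inner product as a sum -/
theorem ipn_eq [Fintype G] (f h : G → ℂ) :
    ipn f h = (Nat.card G : ℂ)⁻¹ * ∑ x, f x * starRingEnd ℂ (h x) := by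
  rw [ipn, finsum_eq_sum_of_fintype]

theorem ipn_self {χ : G → ℂ} (hχ : χ ∈ Irr G) : ipn χ χ = 1 := by
  have := Fintype.ofFinite G
  rw [ipn_eq]
  have h1 : ∑ x, χ x * starRingEnd ℂ (χ x) = Fintype.card G := by
    rw [← irr_orth_self hχ]
    exact Finset.sum_congr rfl fun x _ => by rw [H94.irr_star hχ]
  rw [h1, ← Nat.card_eq_fintype_card]
  exact inv_mul_cancel₀ (by exact_mod_cast Nat.card_pos.ne')

theorem ipn_ne {χ ψ : G → ℂ} (hχ : χ ∈ Irr G) (hψ : ψ ∈ Irr G) (hne : χ ≠ ψ) : ipn χ ψ = 0 := by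
  have := Fintype.ofFinite G
  rw [ipn_eq]
  have h1 : ∑ x, χ x * starRingEnd ℂ (ψ x) = 0 := by
    rw [← irr_orth_ne hχ hψ hne]
    exact Finset.sum_congr rfl fun x _ => by rw [H94.irr_star hψ]
  rw [h1, mul_zero]

theorem ipn_sub_left (f g h : G → ℂ) : ipn (f - g) h = ipn f h - ipn g h := by
  have := Fintype.ofFinite G
  simp only [ipn_eq, Pi.sub_apply, sub_mul, Finset.sum_sub_distrib, mul_sub]

theorem ipn_sub_right (f g h : G → ℂ) : ipn f (g - h) = ipn f g - ipn f h := by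
  have := Fintype.ofFinite G
  simp only [ipn_eq, Pi.sub_apply, map_sub, mul_sub, Finset.sum_sub_distrib]

/-- the inner product of two integral combinations of different irreducible characters -/
theorem ipn_comb {S : Set (G → ℂ)} (hS : S ⊆ Irr G) [Fintype S] (a b : S → ℤ) :
    ipn (∑ θ : S, a θ • (θ : G → ℂ)) (∑ θ : S, b θ • (θ : G → ℂ)) =
      ((∑ θ : S, a θ * b θ : ℤ) : ℂ) := by
  classical
  have := Fintype.ofFinite G
  have h1 : ∀ x : G, (∑ θ : S, a θ • (θ : G → ℂ)) x = ∑ θ : S, (a θ : ℂ) * (θ : G → ℂ) x := by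
    intro x
    rw [Finset.sum_apply]
    exact Finset.sum_congr rfl fun θ _ => by rw [Pi.smul_apply, zsmul_eq_mul]
  have h2 : ∀ x : G, (∑ θ : S, b θ • (θ : G → ℂ)) x = ∑ θ : S, (b θ : ℂ) * (θ : G → ℂ) x := by
    intro x
    rw [Finset.sum_apply]
    exact Finset.sum_congr rfl fun θ _ => by rw [Pi.smul_apply, zsmul_eq_mul]
  rw [ipn_eq]
  simp only [h1, h2]
  have h3 : ∀ x : G, (∑ θ : S, (a θ : ℂ) * (θ : G → ℂ) x) *
      starRingEnd ℂ (∑ θ : S, (b θ : ℂ) * (θ : G → ℂ) x) =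
      ∑ θ : S, ∑ η : S, ((a θ : ℂ) * (b η : ℂ)) *
        ((θ : G → ℂ) x * starRingEnd ℂ ((η : G → ℂ) x)) := by
    intro x
    rw [map_sum, Finset.sum_mul_sum]
    refine Finset.sum_congr rfl fun θ _ => Finset.sum_congr rfl fun η _ => ?_
    rw [map_mul, map_intCast]
    ring
  simp only [h3]
  rw [Finset.sum_comm, Finset.mul_sum]
  push_cast
  refine Finset.sum_congr rfl fun θ _ => ?_
  rw [Finset.sum_comm, Finset.mul_sum, Finset.sum_eq_single_of_mem θ (Finset.mem_univ _)]
  · rw [← Finset.mul_sum]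
    have h4 := ipn_self (hS θ.2)
    rw [ipn_eq] at h4
    calc _ = (a θ : ℂ) * (b θ : ℂ) * ((Nat.card G : ℂ)⁻¹ *
        ∑ x, (θ : G → ℂ) x * starRingEnd ℂ ((θ : G → ℂ) x)) := by ring
      _ = _ := by rw [h4, mul_one]
  · intro η _ hη
    rw [← Finset.mul_sum]
    have h4 := ipn_ne (hS θ.2) (hS η.2) (fun h => hη (Subtype.ext h.symm))
    rw [ipn_eq] at h4
    calc _ = (a θ : ℂ) * (b η : ℂ) * ((Nat.card G : ℂ)⁻¹ *
        ∑ x, (θ : G → ℂ) x * starRingEnd ℂ ((η : G → ℂ) x)) := by ring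
      _ = _ := by rw [h4, mul_zero]

end inner

section av

variable {G H : Type} [Group G] [Group H] {C : Subgroup G}

open Classical in
theorem Av_eq (ℓ : ℕ) [Fintype C] (π : C →* H) (w : G) (p : H → ℂ) (χ : G → ℂ) :
    Av ℓ π w p χ = (Nat.card H : ℂ)⁻¹ *
      ∑ s : C, if Reg ℓ s then χ (w * s) * starRingEnd ℂ (p (π s)) else 0 := by
  rw [Av, finsum_eq_sum_of_fintype]
  congr 1
  exact Finset.sum_congr rfl fun s _ => finsum_eq_if

theorem Av_smul [Finite G] (ℓ : ℕ) (π : C →* H) (w : G) (c : ℂ) (p : H → ℂ) (χ : G → ℂ) :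
    Av ℓ π w (c • p) χ = starRingEnd ℂ c * Av ℓ π w p χ := by
  classical
  have := Fintype.ofFinite C
  rw [Av_eq, Av_eq, mul_left_comm]
  congr 1
  rw [Finset.mul_sum]
  refine Finset.sum_congr rfl fun s _ => ?_
  rw [mul_ite, mul_zero]
  refine ite_congr rfl (fun _ => ?_) (fun _ => rfl)
  rw [Pi.smul_apply, smul_eq_mul, map_mul]
  ring

theorem Av_add [Finite G] (ℓ : ℕ) (π : C →* H) (w : G) (p q : H → ℂ) (χ : G → ℂ) :
    Av ℓ π w (p + q) χ = Av ℓ π w p χ + Av ℓ π w q χ := by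
  classical
  have := Fintype.ofFinite C
  rw [Av_eq, Av_eq, Av_eq, ← mul_add, ← Finset.sum_add_distrib]
  congr 1
  refine Finset.sum_congr rfl fun s _ => ?_
  by_cases h : Reg ℓ s
  · rw [if_pos h, if_pos h, if_pos h, Pi.add_apply, map_add, mul_add]
  · rw [if_neg h, if_neg h, if_neg h, add_zero]

theorem Av_sub [Finite G] (ℓ : ℕ) (π : C →* H) (w : G) (p q : H → ℂ) (χ : G → ℂ) :
    Av ℓ π w (p - q) χ = Av ℓ π w p χ - Av ℓ π w q χ := by
  have h := Av_add ℓ π w (p - q) q χ
  rw [sub_add_cancel] at h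
  rw [h, add_sub_cancel_right]

/-- linearity in the character -/
theorem Av_comb [Finite G] (ℓ : ℕ) (π : C →* H) (w : G) (p : H → ℂ) {S : Set (G → ℂ)} [Fintype S]
    (a : S → ℤ) : Av ℓ π w p (∑ θ : S, a θ • (θ : G → ℂ)) = ∑ θ : S, (a θ : ℂ) * Av ℓ π w p θ := by
  classical
  have := Fintype.ofFinite C
  simp only [Av_eq]
  have h1 : ∀ x : G, (∑ θ : S, a θ • (θ : G → ℂ)) x = ∑ θ : S, (a θ : ℂ) * (θ : G → ℂ) x := by
    intro x
    rw [Finset.sum_apply]
    exact Finset.sum_congr rfl fun θ _ => by rw [Pi.smul_apply, zsmul_eq_mul]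
  simp only [h1]
  have h2 : ∀ s : C, (if Reg ℓ s then (∑ θ : S, (a θ : ℂ) * (θ : G → ℂ) (w * s)) *
      starRingEnd ℂ (p (π s)) else 0) = ∑ θ : S, (a θ : ℂ) *
        (if Reg ℓ s then (θ : G → ℂ) (w * s) * starRingEnd ℂ (p (π s)) else 0) := by
    intro s
    by_cases h : Reg ℓ s
    · simp only [if_pos h]
      rw [Finset.sum_mul]
      exact Finset.sum_congr rfl fun θ _ => by ring
    · simp only [if_neg h, mul_zero, Finset.sum_const_zero]
  simp only [h2]
  rw [Finset.sum_comm, Finset.mul_sum]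
  refine Finset.sum_congr rfl fun θ _ => ?_
  rw [← Finset.mul_sum]
  ring

/-- a sum over the irreducible characters which is supported on `S` -/
theorem sum_irr {S : Set (G → ℂ)} (hS : S ⊆ Irr G) [Fintype S] (f : (G → ℂ) → ℂ)
    (h : ∀ χ ∈ Irr G, χ ∉ S → f χ = 0) : ∑ᶠ χ ∈ Irr G, f χ = ∑ θ : S, f θ := by
  rw [finsum_mem_def, ← finsum_eq_sum_of_fintype, finsum_set_coe_eq_finsum_mem, finsum_mem_def]
  congr 1
  funext χ
  by_cases h1 : χ ∈ S
  · rw [Set.indicator_of_mem (hS h1), Set.indicator_of_mem h1]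
  · rw [Set.indicator_of_notMem h1]
    by_cases h2 : χ ∈ Irr G
    · rw [Set.indicator_of_mem h2, h χ h2 h1]
    · rw [Set.indicator_of_notMem h2]

end av

section omega

/-- the conjugate of a primitive third root of unity -/
theorem conj_om {ω : ℂ} (h : IsPrimitiveRoot ω 3) : starRingEnd ℂ ω = ω ^ 2 := by
  have h1 : ω ^ 3 = 1 := h.pow_eq_one
  have h2 : ‖ω‖ = 1 := Complex.norm_eq_one_of_pow_eq_one h1 (by norm_num)
  rw [← Complex.inv_eq_conj h2]
  exact inv_eq_of_mul_eq_one_right (by rw [← pow_succ']; exact h1)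

theorem om_sq {ω : ℂ} (h : IsPrimitiveRoot ω 3) : ω ^ 2 = -1 - ω := by
  have h1 : ω ^ 3 = 1 := h.pow_eq_one
  have h2 : ω ≠ 1 := h.ne_one (by norm_num)
  have h3 : (ω - 1) * (ω ^ 2 + ω + 1) = 0 := by
    calc _ = ω ^ 3 - 1 := by ring
      _ = 0 := by rw [h1, sub_self]
  have h4 := (mul_eq_zero.1 h3).resolve_left (sub_ne_zero.2 h2)
  linear_combination h4

/-- the norm of an Eisenstein integer -/
theorem norm_om {ω : ℂ} (h : IsPrimitiveRoot ω 3) (z : ℂ) (hz : ∃ a b : ℤ, z = a + b * ω) :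
    ∃ n : ℤ, z * starRingEnd ℂ z = n ∧ 0 ≤ n ∧ (z ≠ 0 → 1 ≤ n) := by
  obtain ⟨a, b, rfl⟩ := hz
  have h1 : ((a : ℂ) + b * ω) * starRingEnd ℂ ((a : ℂ) + b * ω) =
      ((a * a - a * b + b * b : ℤ) : ℂ) := by
    rw [map_add, map_mul, map_intCast, map_intCast, conj_om h]
    have h2 := om_sq h
    have h3 : ω ^ 3 = 1 := h.pow_eq_one
    push_cast
    linear_combination (a * b : ℂ) * h2 + (b * b : ℂ) * h3
  refine ⟨_, h1, ?_, ?_⟩
  · nlinarith [sq_nonneg (a - b), sq_nonneg a, sq_nonneg b]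
  · intro h2
    have h4 : ((a * a - a * b + b * b : ℤ) : ℂ) ≠ 0 := by
      rw [← h1]
      exact mul_ne_zero h2 ((map_ne_zero _).2 h2)
    have h5 : (a * a - a * b + b * b : ℤ) ≠ 0 := by exact_mod_cast h4
    have h6 : 0 ≤ a * a - a * b + b * b := by
      nlinarith [sq_nonneg (a - b), sq_nonneg a, sq_nonneg b]
    omega

end omega

section quot

variable {G : Type} [Group G]

/-- `u` as an element of its centraliser -/
def uc (u : G) : Cu u := ⟨u, Subgroup.mem_centralizer_singleton_iff.2 rfl⟩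

theorem uc_center (u : G) : uc u ∈ Subgroup.center (Cu u) := by
  rw [Subgroup.mem_center_iff]
  intro x
  exact Subtype.ext (Subgroup.mem_centralizer_singleton_iff.1 x.2)

instance uc_normal (u : G) : (Subgroup.zpowers (uc u)).Normal := by
  refine ⟨fun n hn g => ?_⟩
  have h1 : Subgroup.zpowers (uc u) ≤ Subgroup.center (Cu u) := by
    rw [Subgroup.zpowers_le]
    exact uc_center u
  have h2 := Subgroup.mem_center_iff.1 (h1 hn) g
  rw [h2, mul_inv_cancel_right]
  exact hn

/-- the quotient of the centraliser -/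
abbrev Hq (u : G) : Type := Cu u ⧸ Subgroup.zpowers (uc u)

/-- the map onto the quotient -/
abbrev pq (u : G) : Cu u →* Hq u := QuotientGroup.mk' (Subgroup.zpowers (uc u))

theorem mem_zc {u : G} (c : Cu u) : c ∈ Subgroup.zpowers (uc u) ↔ (c : G) ∈ Subgroup.zpowers u := by
  rw [Subgroup.mem_zpowers_iff, Subgroup.mem_zpowers_iff]
  constructor
  · rintro ⟨k, rfl⟩
    exact ⟨k, rfl⟩
  · rintro ⟨k, hk⟩
    exact ⟨k, Subtype.ext hk⟩

theorem qt {ℓ : ℕ} {u : G} (h : orderOf u = ℓ) : Qt ℓ u (pq u) where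
  ord := h
  sur := QuotientGroup.mk'_surjective _
  ker c := by
    rw [← mem_zc]
    exact QuotientGroup.eq_one_iff c

variable {F : Type} [Field F]

/-- the restriction to the centraliser of an element of order `ℓ` -/
theorem idem_cu {ℓ : ℕ} (hF : GoodF ℓ F) [Finite G] {e : G → F} (he : IsIdem e) {u : G}
    (hu : orderOf u = ℓ) : IsIdem (fun t : Cu u => e t) := by
  have : Fact ℓ.Prime := ⟨hF.prime⟩
  have hp : IsPGroup ℓ (Subgroup.zpowers u) :=
    IsPGroup.of_card (n := 1) (by rw [Nat.card_zpowers, hu, pow_one])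
  have hc : Subgroup.centralizer (Subgroup.zpowers u : Set G) ≤ Cu u := by
    refine Subgroup.centralizer_le ?_
    rw [Set.singleton_subset_iff]
    exact Subgroup.mem_zpowers u
  have hc' : Cu u ≤ Subgroup.centralizer (Subgroup.zpowers u : Set G) := by
    intro x hx
    rw [Subgroup.mem_centralizer_iff]
    rintro _ ⟨k, rfl⟩
    have : Commute x u := Subgroup.mem_centralizer_singleton_iff.1 hx
    exact (this.zpow_right k).eq.symm
  have hn : Cu u ≤ Subgroup.normalizer (Subgroup.zpowers u : Set G) :=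
    hc'.trans (Subgroup.centralizer_le_normalizer _)
  have h := (H20.brm ℓ F hF G (Subgroup.zpowers u) (Cu u) hp hc hn).2.2 e he
  have h2 : (fun t : Cu u => br (Subgroup.zpowers u) e t) = fun t : Cu u => e t := by
    funext t
    exact H66.br_of_mem (hc' t.2)
  rwa [h2] at h

/-- good subgroups of a factor -/
theorem gd_factor {ℓ : ℕ} (hF : GoodF ℓ F) [Finite G] {a b : G → F} (ha : IsCl a) (hb : IsCl b)
    (hab : mulF a b = b) {Q : Subgroup G} (hQ : IsPGroup ℓ Q) (h : Gd b Q) : Gd a Q := by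
  obtain ⟨g, hg, hg'⟩ := h
  by_contra hcon
  apply hg'
  have h0 : br Q a = 0 := by
    funext t
    by_cases ht : t ∈ Subgroup.centralizer (Q : Set G)
    · rw [H66.br_of_mem ht]
      by_contra h1
      exact hcon ⟨t, ht, h1⟩
    · rw [H66.br_of_not_mem ht]
      rfl
  have h1 := H66.br_mulF hF hQ (a := a) (b := b) (fun p _ t => ha t p)
    (fun p _ t => hb t p)
  have h2 := congrFun h1 g
  rw [H66.br_of_mem hg, hab] at h2
  rw [h2, h0]
  unfold mulF
  simp

/-- good subgroups of the restriction to a subgroup -/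
theorem gd_sub {e : G → F} {X : Subgroup G} {Q : Subgroup X} (h : Gd (fun t : X => e t) Q) :
    Gd e (Q.map X.subtype) := by
  obtain ⟨g, hg, hg'⟩ := h
  refine ⟨g, ?_, hg'⟩
  rw [Subgroup.mem_centralizer_iff]
  rintro _ ⟨q, hq, rfl⟩
  exact congrArg Subtype.val (Subgroup.mem_centralizer_iff.1 hg q hq)

variable (M : Ideal (integralClosure ℤ ℂ)) [M.IsMaximal]

theorem irrE_sub (e : G → FF M) : IrrE M e ⊆ Irr G := fun _ h => h.1

theorem ze_span (e : G → FF M) {p : G → ℂ} (hp : p ∈ ZE M e) :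
    p ∈ Submodule.span ℂ (IrrE M e) := by
  have h : ZE M e ≤ (Submodule.span ℂ (IrrE M e)).toAddSubgroup := by
    rw [ZE, AddSubgroup.closure_le]
    exact Submodule.subset_span
  exact h hp

theorem ze_zi (e : G → FF M) {p : G → ℂ} (hp : p ∈ ZE M e) : p ∈ ZI G :=
  AddSubgroup.closure_mono (irrE_sub M e) hp

end quot

end Pool.Agent.PP.K9.H11
end
end -- Pool.Agent.Helper11_K9.Base

section -- Pool.Agent.Helper23_AT3.RTC

/-!
# Squad AT3, row RTC: the power map permutes the irreducible characters and respects the blocks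
-/

open scoped BigOperators

noncomputable section

namespace Pool.Agent.PP.T3.H23

open Pool.Agent.Helper51_AWC Pool.Agent.Helper79_WRA Pool.Agent.PP Pool.Agent.PP.KF
open Pool.Agent.PP.K9 Pool.Agent.PP.K9.H97 Pool.Agent.PP.H75

attribute [local instance] Ideal.Quotient.field

section irr

variable {G : Type} [Group G]

/-- a virtual character of norm one which is positive at `1` is irreducible -/
theorem irr_of_virtual [Finite G] {f : G → ℂ} (hf : ∀ x y, f (y * x * y⁻¹) = f x)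
    (hm : ∀ η ∈ Irr G, ∃ m : ℤ, ipn f η = m) (h1 : ipn f f = 1) (hp : ∃ d : ℕ, f 1 = d) :
    f ∈ Irr G := by
  classical
  have := Fintype.ofFinite G
  have := Fintype.ofFinite (Irr G)
  have hc : (Fintype.card G : ℂ) ≠ 0 := by exact_mod_cast Fintype.card_ne_zero
  choose m hm using fun χ : Irr G => hm χ χ.2
  have hm' : ∀ χ : Irr G, ∑ x, f x * (χ : G → ℂ) x⁻¹ = (m χ : ℂ) * Fintype.card G := by
    intro χ
    have h1 : ∑ x, f x * (χ : G → ℂ) x⁻¹ = ∑ x, f x * starRingEnd ℂ ((χ : G → ℂ) x) :=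
      Finset.sum_congr rfl fun x _ => by rw [H94.irr_star χ.2]
    rw [h1, ← hm χ, H25.ipn_eq]
    field_simp
  have h2' : f = ∑ χ : Irr G, (m χ : ℂ) • (χ : G → ℂ) := by
    rw [← sub_eq_zero]
    apply irr_complete'
    · intro g h
      simp only [Pi.sub_apply, Finset.sum_apply, Pi.smul_apply, hf]
      congr 1
      refine Finset.sum_congr rfl fun χ _ => ?_
      rw [irr_conj χ.2]
    · intro ψ hψ
      simp only [Pi.sub_apply, Finset.sum_apply, Pi.smul_apply, smul_eq_mul, sub_mul,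
        Finset.sum_sub_distrib, Finset.sum_mul]
      rw [hm' ⟨ψ, hψ⟩, Finset.sum_comm, Finset.sum_eq_single_of_mem ⟨ψ, hψ⟩ (Finset.mem_univ _)]
      · simp_rw [mul_assoc]
        rw [← Finset.mul_sum, irr_orth_self hψ, sub_self]
      · intro χ _ hne
        simp_rw [mul_assoc]
        rw [← Finset.mul_sum, irr_orth_ne χ.2 hψ (fun h => hne (Subtype.ext h)), mul_zero]
  have h2 : f = ∑ χ : Irr G, m χ • (χ : G → ℂ) := by
    rw [h2']
    exact Finset.sum_congr rfl fun χ _ => Int.cast_smul_eq_zsmul ℂ _ _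
  have hnorm : (∑ χ : Irr G, m χ * m χ) = 1 := by
    have h3 := H11.ipn_comb (G := G) (S := Irr G) (fun _ h => h) m m
    rw [← h2, h1] at h3
    exact_mod_cast h3.symm
  obtain ⟨χ, hχ⟩ : ∃ χ : Irr G, m χ ≠ 0 := by
    by_contra hcon
    push Not at hcon
    simp [hcon] at hnorm
  have hsq : ∀ ψ : Irr G, 0 ≤ m ψ * m ψ := fun ψ => mul_self_nonneg _
  have hpos : ∀ ψ : Irr G, m ψ ≠ 0 → 1 ≤ m ψ * m ψ := fun ψ h => by
    have : 0 < m ψ * m ψ := mul_self_pos.2 h
    omega
  have h4 : ∀ ψ : Irr G, ψ ≠ χ → m ψ = 0 := by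
    intro ψ hne
    by_contra hψ
    have h3 : m χ * m χ + m ψ * m ψ ≤ 1 := by
      rw [← hnorm]
      calc m χ * m χ + m ψ * m ψ = ∑ x ∈ {χ, ψ}, m x * m x := by
            rw [Finset.sum_pair (Ne.symm hne)]
        _ ≤ _ := Finset.sum_le_sum_of_subset_of_nonneg (Finset.subset_univ _)
            fun x _ _ => hsq x
    have := hpos χ hχ
    have := hpos ψ hψ
    omega
  have h5 : m χ * m χ = 1 := by
    rw [← hnorm, Finset.sum_eq_single_of_mem χ (Finset.mem_univ _)]
    intro ψ _ hne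
    rw [h4 ψ hne, mul_zero]
  have h6 : f = m χ • (χ : G → ℂ) := by
    rw [h2, Finset.sum_eq_single_of_mem χ (Finset.mem_univ _)]
    intro ψ _ hne
    rw [h4 ψ hne, zero_smul]
  have h7 : m χ = 1 := by
    rcases mul_self_eq_one_iff.1 h5 with h | h
    · exact h
    · exfalso
      obtain ⟨d, hd⟩ := hp
      obtain ⟨k, hk, hk'⟩ := irr_one χ.2
      rw [h6, Pi.smul_apply, hk', h] at hd
      have h8 : (((-1 : ℤ) * (k : ℤ) : ℤ) : ℂ) = ((d : ℤ) : ℂ) := by
        rw [zsmul_eq_mul] at hd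
        push_cast at hd ⊢
        exact hd
      have h9 : (-1 : ℤ) * (k : ℤ) = (d : ℤ) := by exact_mod_cast h8
      omega
  rw [h6, h7, one_smul]
  exact χ.2

/-- the power map of degree prime to the order is a bijection -/
theorem pow_bij [Finite G] {N : ℕ} (hN : N.Coprime (Nat.card G)) :
    Function.Bijective (fun g : G => g ^ N) :=
  (powCoprime hN.symm).bijective

theorem irr_pow (ada : AdaStmt) [Finite G] {N : ℕ} (hN : N.Coprime (Nat.card G)) {χ : G → ℂ}
    (hχ : χ ∈ Irr G) : (fun g => χ (g ^ N)) ∈ Irr G := by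
  have := Fintype.ofFinite G
  refine irr_of_virtual (fun x y => ?_) (fun η hη => ?_) ?_ ?_
  · rw [conj_pow, irr_conj hχ]
  · exact ada G N χ (AddSubgroup.subset_closure hχ) η (AddSubgroup.subset_closure hη)
  · have h1 := H11.ipn_self hχ
    rw [H25.ipn_eq] at h1 ⊢
    rw [← h1]
    congr 1
    exact Function.Bijective.sum_comp (pow_bij hN) (fun x => χ x * starRingEnd ℂ (χ x))
  · obtain ⟨d, -, hd⟩ := irr_one hχ
    exact ⟨d, by rw [one_pow, hd]⟩

end irr

/-- an idempotent vanishes at the singular elements -/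
theorem idem_sing (wbo : WboStmt) (idm : KF.IdmStmt) (ℓ : ℕ) [Fact ℓ.Prime]
    (M : Ideal (integralClosure ℤ ℂ)) [M.IsMaximal] (hM : (ℓ : integralClosure ℤ ℂ) ∈ M)
    {G : Type} [Group G] [Finite G] (e : G → FF M) (he : IsIdem e) (x : G) (hx : ¬ Reg ℓ x) :
    e x = 0 := by
  have := Fintype.ofFinite G
  have h1 := ((idm M G e he).1 x).2
  rw [H25.eh_sing wbo ℓ M hM e he x hx, rr_zero] at h1
  exact h1.symm

theorem reg_isConj {G : Type} [Group G] {ℓ : ℕ} {x y : G} (h : IsConj x y) (hx : Reg ℓ x) :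
    Reg ℓ y := by
  obtain ⟨c, hc⟩ := isConj_iff.1 h
  unfold Reg at hx ⊢
  rw [← hc]
  have : orderOf (c * x * c⁻¹) = orderOf x :=
    orderOf_injective (MulAut.conj c).toMonoidHom (MulAut.conj c).injective x
  rw [this]
  exact hx

/-- the general form -/
theorem rtc' (ada : AdaStmt) (wbo : WboStmt) (idm : KF.IdmStmt) (ℓ : ℕ) [Fact ℓ.Prime]
    (M : Ideal (integralClosure ℤ ℂ)) [M.IsMaximal] (hM : (ℓ : integralClosure ℤ ℂ) ∈ M)
    (G : Type) [Group G] [Finite G] (N : ℕ) (hN : N.Coprime (Nat.card G))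
    (hreg : ∀ g : G, Reg ℓ g → g ^ N = g) (e : G → FF M) (he : IsIdem e) :
    (∀ χ ∈ Irr G, (fun g => χ (g ^ N)) ∈ Irr G) ∧
      ∀ χ ∈ IrrE M e, (fun g => χ (g ^ N)) ∈ IrrE M e := by
  refine ⟨fun χ hχ => irr_pow ada hN hχ, fun χ hχ => ⟨irr_pow ada hN hχ.1, ?_⟩⟩
  rw [← hχ.2]
  unfold res
  refine finsum_congr fun c => ?_
  by_cases hc : Reg ℓ (Quotient.out c)
  · have h1 : omega (MonoidHom.id G) (fun g => χ (g ^ N)) (Quotient.out c) =
        omega (MonoidHom.id G) χ (Quotient.out c) := by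
      have h2 : χ (1 ^ N) = χ 1 := by rw [one_pow]
      have h3 : (∑ᶠ (h : G) (_ : IsConj (Quotient.out c) (MonoidHom.id G h)), χ (h ^ N)) =
          ∑ᶠ (h : G) (_ : IsConj (Quotient.out c) (MonoidHom.id G h)), χ h :=
        finsum_congr fun h => finsum_congr fun hh => by rw [hreg h (reg_isConj hh hc)]
      exact congrArg₂ (fun a b : ℂ => a / b) h3 h2
    rw [h1]
  · rw [idem_sing wbo idm ℓ M hM e he _ hc, zero_mul, zero_mul]

theorem rtc (ada : AdaStmt) (wbo : WboStmt) (idm : KF.IdmStmt) : RtcStmt := by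
  intro ℓ _ M _ hM G _ _ N hN e he
  exact rtc' ada wbo idm ℓ M hM G N hN.cop hN.reg e he

end Pool.Agent.PP.T3.H23
end
end -- Pool.Agent.Helper23_AT3.RTC

section -- Pool.Agent.Helper11_K9.DT3

/-!
# Squad K9, module DT3: blocks with defect groups of order three
-/

open scoped BigOperators

noncomputable section

namespace Pool.Agent.PP.K9.H11

open Pool.Agent.Helper51_AWC Pool.Agent.Helper79_WRA Pool.Agent.PP Pool.Agent.PP.KF

attribute [local instance] Ideal.Quotient.field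

section dt3

variable {M : Ideal (integralClosure ℤ ℂ)} [M.IsMaximal] {G H : Type} [Group G] [Finite G]
  [Group H] [Finite H]

/-- the projective character of a block with one character -/
theorem pr_single {b : H → FF M} {κ : H → ℂ} (h : IrrE M b = {κ}) : pr M b = κ 1 • κ := by
  funext g
  rw [pr, h, finsum_mem_singleton, Pi.smul_apply, smul_eq_mul]

/-- the values of `Av` are Eisenstein integers, and the conjugate belongs to the square -/
theorem av_int (int : IntStmt) {ω : ℂ} (hω : IsPrimitiveRoot ω 3) {u : G} {π : Cu u →* H}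
    (hπ : Qt 3 u π) {p : H → ℂ} (hp : p ∈ ZI H) (hp' : Rc 3 p) {χ : G → ℂ} (hχ : χ ∈ Irr G)
    (j : ℕ) : (∃ a b : ℤ, Av 3 π (u ^ j) p χ = a + b * ω) ∧
      starRingEnd ℂ (Av 3 π (u ^ j) p χ) = Av 3 π (u ^ (2 * j)) p χ := by
  have : Fact (Nat.Prime 3) := ⟨Nat.prime_three⟩
  obtain ⟨m, hm⟩ := int 3 G H u π hπ p hp hp' χ hχ ω hω
  have h2 := om_sq hω
  have h3 : ω ^ 3 = 1 := hω.pow_eq_one
  constructor
  · rw [hm j, Finset.sum_range_succ, Finset.sum_range_succ, Finset.sum_range_succ,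
      Finset.sum_range_zero]
    have h4 : ∀ k : ℕ, ∃ a b : ℤ, ω ^ k = a + b * ω := by
      intro k
      induction k with
      | zero => exact ⟨1, 0, by push_cast; ring⟩
      | succ k ih =>
        obtain ⟨a, b, hab⟩ := ih
        refine ⟨-b, a - b, ?_⟩
        rw [pow_succ, hab]
        push_cast
        linear_combination (b : ℂ) * h2
    obtain ⟨a0, b0, e0⟩ := h4 (0 * j)
    obtain ⟨a1, b1, e1⟩ := h4 (1 * j)
    obtain ⟨a2, b2, e2⟩ := h4 (2 * j)
    rw [e0, e1, e2]
    refine ⟨m 0 * a0 + m 1 * a1 + m 2 * a2, m 0 * b0 + m 1 * b1 + m 2 * b2, ?_⟩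
    push_cast
    ring
  · rw [hm j, hm (2 * j), map_sum]
    refine Finset.sum_congr rfl fun i _ => ?_
    rw [map_mul, map_intCast, map_pow, conj_om hω, ← pow_mul]
    congr 2
    ring

/-- an element of order three generates the group -/
theorem pow_of_ne {v w : G} (hv : orderOf v = 3) (hw : w ∈ Subgroup.zpowers v) :
    ∃ j : ℕ, w = v ^ j := by
  obtain ⟨j, hj⟩ := (isOfFinOrder_of_finite v).mem_powers_iff_mem_zpowers.2 hw
  exact ⟨j, hj.symm⟩

variable (M) in
/-- the rows of the generalised decomposition numbers -/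
def DD (e : G → FF M) (v : G) (π : Cu v →* H) : Set (IrrE M e → ℂ) :=
  {δ | ∃ w ∈ Subgroup.zpowers v, w ≠ 1 ∧ ∃ γ : Cu v → FF M, IsBlk γ ∧
    mulF (fun t : Cu v => e t) γ = γ ∧ ∃ κ : H → ℂ, IrrE M (H75.push π γ) = {κ} ∧
    δ = fun θ => Av 3 π w κ θ.1}

/-- `Rc` and automorphisms -/
theorem rc_comp {κ : H → ℂ} (h : Rc 3 κ) (τ : H ≃* H) : Rc 3 (fun x => κ (τ x)) where
  cl x y := by
    change κ (τ (y * x * y⁻¹)) = κ (τ x)
    rw [map_mul, map_mul, map_inv, h.cl]
  sg x hx := by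
    apply h.sg
    intro h1
    apply hx
    unfold Reg at h1 ⊢
    rwa [MulEquiv.orderOf_eq] at h1

/-- irreducible characters and automorphisms -/
theorem irr_comp {κ : H → ℂ} (h : κ ∈ Irr H) (τ : H ≃* H) : (fun x => κ (τ x)) ∈ Irr H := by
  have := Fintype.ofFinite H
  obtain ⟨n, ρ, hρ, rfl⟩ := h
  have h1 : (fun x => ρ.character (τ x)) =
      Representation.character (ρ.comp τ.toMonoidHom : Representation ℂ H (Fin n → ℂ)) := rfl
  rw [h1]
  apply mem_Irr_of_norm
  have h2 := irr_orth_self (mem_Irr_of_irreducible ρ)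
  rw [← h2, ← Equiv.sum_comp τ.toEquiv (fun x => ρ.character x * ρ.character x⁻¹)]
  refine Finset.sum_congr rfl fun x _ => ?_
  change ρ.character (τ x) * ρ.character (τ x⁻¹) = ρ.character (τ x) * ρ.character (τ x)⁻¹
  rw [map_inv]

end dt3

theorem dt3 (kap : KapStmt) (val : ValStmt) (eis : EisStmt) (sec : SecStmt) (cnj : CnjStmt)
    (int : IntStmt) (azr : AzrStmt) (nz : NzStmt) (prg : PrgStmt) : Dt3Stmt := by
  intro M _ hM G _ _ e he V hV hV3
  classical
  have f3 : Fact (Nat.Prime 3) := ⟨Nat.prime_three⟩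
  have hF : GoodF 3 (FF M) := H50.fld 3 Nat.prime_three M hM
  -- a generator of `V`
  obtain ⟨v, hv, rfl⟩ : ∃ v : G, orderOf v = 3 ∧ Subgroup.zpowers v = V := by
    obtain ⟨x, hx⟩ := exists_prime_orderOf_dvd_card' (G := V) 3 (by rw [hV3])
    refine ⟨x, by rw [Subgroup.orderOf_coe, hx], ?_⟩
    apply Subgroup.eq_of_le_of_card_ge
    · rw [Subgroup.zpowers_le]
      exact x.2
    · rw [hV3, Nat.card_zpowers, Subgroup.orderOf_coe, hx]
  have hπ : Qt 3 v (pq v) := qt hv
  have hfin : Finite (Hq v) := inferInstance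
  have hc' : Cu v ≤ Subgroup.centralizer (Subgroup.zpowers v : Set G) := by
    intro x hx
    rw [Subgroup.mem_centralizer_iff]
    rintro _ ⟨k, rfl⟩
    have : Commute x v := Subgroup.mem_centralizer_singleton_iff.1 hx
    exact (this.zpow_right k).eq.symm
  have hab : ∀ a ∈ Subgroup.zpowers v, ∀ b ∈ Subgroup.zpowers v, a * b = b * a := by
    rintro _ ⟨i, rfl⟩ _ ⟨j, rfl⟩
    exact ((Commute.refl v).zpow_zpow i j).eq
  have heC : IsIdem (fun t : Cu v => e t) := idem_cu hF he.1 hv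
  -- the blocks of the centraliser
  have hκ := fun (γ : Cu v → FF M) (hγ : IsBlk γ) (hγe : mulF (fun t : Cu v => e t) γ = γ) =>
    kap 3 M hM G (Hq v) e he v hV (pq v) hπ γ hγ hγe
  obtain ⟨g, hg, hge⟩ := hV.gd
  have hgC : g ∈ Cu v := Subgroup.mem_centralizer_singleton_iff.2
    (Subgroup.mem_centralizer_iff.1 hg v (Subgroup.mem_zpowers v)).symm
  obtain ⟨γ₀, hγ₀, hγ₀e, -⟩ := H69.exists_blk heC (g := ⟨g, hgC⟩) hge
  obtain ⟨κ₀, hκ₀, -⟩ := hκ γ₀ hγ₀ hγ₀e
  have hfi : (Irr G).Finite := by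
    have := Fintype.ofFinite G
    exact irr_finite'
  have := (hfi.subset (irrE_sub M e)).fintype
  have hirr := irrE_sub M e
  -- a primitive third root of unity
  obtain ⟨ω, hω⟩ : ∃ ω : ℂ, IsPrimitiveRoot ω 3 :=
    ⟨_, Complex.isPrimitiveRoot_exp 3 (by norm_num)⟩
  -- degrees
  have hdeg : ∀ θ : IrrE M e, ∃ d : ℕ, 0 < d ∧ θ.1 1 = d := fun θ => irr_one (hirr θ.2)
  choose deg hd0 hd using hdeg
  -- the values outside the block
  have hout : ∀ γ : Cu v → FF M, IsBlk γ → mulF (fun t : Cu v => e t) γ = γ → ∀ κ : Hq v → ℂ,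
      IrrE M (H75.push (pq v) γ) = {κ} → Rc 3 κ → ∀ w ∈ Subgroup.zpowers v, w ≠ 1 →
      ∀ χ ∈ Irr G, χ ∉ IrrE M e → Av 3 (pq v) w κ χ = 0 := by
    intro γ hγ hγe κ hk hr w hw hw1 χ hχ hχ'
    exact azr 3 M hM G (Hq v) v (pq v) hπ e he.1 γ hγ.1 hγe κ
      (Submodule.subset_span (by rw [hk]; rfl)) hr w hw hw1 χ hχ hχ'
  have hrc : ∀ γ : Cu v → FF M, IsBlk γ → mulF (fun t : Cu v => e t) γ = γ → ∀ κ : Hq v → ℂ,
      IrrE M (H75.push (pq v) γ) = {κ} → Rc 3 κ ∧ κ ∈ Irr (Hq v) := by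
    intro γ hγ hγe κ hk
    obtain ⟨κ', hk', hr'⟩ := hκ γ hγ hγe
    have h1 : κ' = κ := Set.singleton_injective (hk'.symm.trans hk)
    subst h1
    refine ⟨hr', ?_⟩
    have h2 : κ' ∈ IrrE M (H75.push (pq v) γ) := by rw [hk]; rfl
    exact h2.1
  -- two functions on `H` which are equal or orthogonal
  have horth : ∀ κ κ' : Hq v → ℂ, κ ∈ Irr (Hq v) → κ' ∈ Irr (Hq v) → Rc 3 κ → Rc 3 κ' →
      ∀ w ∈ Subgroup.zpowers v, w ≠ 1 → κ ≠ κ' →
      (∀ χ ∈ Irr G, χ ∉ IrrE M e → Av 3 (pq v) w κ χ = 0) →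
      ∑ θ : IrrE M e, Av 3 (pq v) w κ θ.1 * starRingEnd ℂ (Av 3 (pq v) w κ' θ.1) = 0 := by
    intro κ κ' hk hk' hr hr' w hw hw1 hne h0
    have h1 := (sec 3 G (Hq v) v (pq v) hπ κ κ' hr hr' w hw hw1).1
    rw [ipn_ne hk' hk (Ne.symm hne), mul_zero, sum_irr hirr _ (fun χ hχ hχ' => by
      rw [h0 χ hχ hχ', zero_mul])] at h1
    exact h1
  have hmain := eis (IrrE M e) ω hω deg (fun θ => (hd0 θ).ne') (DD M e v (pq v)) ?_ ?_ ?_
  rotate_left
  · exact ⟨_, v, Subgroup.mem_zpowers v, fun h => by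
      rw [h, orderOf_one] at hv
      omega, γ₀, hγ₀, hγ₀e, κ₀, hκ₀, rfl⟩
  · rintro _ ⟨w, hw, hw1, γ, hγ, hγe, κ, hk, rfl⟩
    obtain ⟨hr, hki⟩ := hrc γ hγ hγe κ hk
    obtain ⟨j, rfl⟩ := pow_of_ne hv hw
    have hout' := hout γ hγ hγe κ hk hr _ hw hw1
    have hsec := sec 3 G (Hq v) v (pq v) hπ κ κ hr hr _ hw hw1
    refine ⟨fun θ => ⟨?_, ?_⟩, ?_, ?_, ?_⟩
    · -- not zero
      change Av 3 (pq v) (v ^ j) κ θ.1 ≠ 0
      intro h0
      have h1 := (prg 3 M hM).2 G (Hq v) v (pq v) hπ γ hγ.1 _ hw θ.1 (hirr θ.2)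
      rw [pr_single hk, Av_smul, h0, mul_zero] at h1
      refine nz 3 M hM G e he _ hV hab v (Subgroup.mem_zpowers v) γ hγ hγe ?_ _ hw θ.1 θ.2 h1.symm
      obtain ⟨c, hc⟩ : ∃ c, γ c ≠ 0 := by
        by_contra hcon
        push Not at hcon
        exact hγ.2.1 (funext hcon)
      refine ⟨c, ?_, hc⟩
      rw [Subgroup.mem_centralizer_iff]
      intro x hx
      apply Subtype.ext
      exact Subgroup.mem_centralizer_iff.1 (hc' c.2) x.1 (Subgroup.mem_subgroupOf.1 hx)
    · exact (av_int int hω hπ (AddSubgroup.subset_closure hki) hr (hirr θ.2) j).1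
    · have h1 := hsec.1
      rw [ipn_self hki, mul_one, sum_irr hirr _ (fun χ hχ hχ' => by
        rw [hout' χ hχ hχ', zero_mul])] at h1
      exact_mod_cast h1
    · have h1 := hsec.2.1
      rw [sum_irr hirr _ (fun χ hχ hχ' => by rw [hout' χ hχ hχ', zero_mul])] at h1
      rw [← h1]
      exact Finset.sum_congr rfl fun θ _ => by rw [hd θ]
    · refine ⟨v ^ (2 * j), Subgroup.npow_mem_zpowers v _, ?_, γ, hγ, hγe, κ, hk, ?_⟩
      · intro h1
        apply hw1
        have h2 : orderOf v ∣ 2 * j := orderOf_dvd_of_pow_eq_one h1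
        rw [hv] at h2
        have h3 : 3 ∣ j := (Nat.Coprime.dvd_mul_left (by norm_num)).1 h2
        rw [← hv] at h3
        exact orderOf_dvd_iff_pow_eq_one.1 h3
      · funext θ
        exact (av_int int hω hπ (AddSubgroup.subset_closure hki) hr (hirr θ.2) j).2
  · rintro _ ⟨w, hw, hw1, γ, hγ, hγe, κ, hk, rfl⟩ _ ⟨w', hw', hw1', γ', hγ', hγe', κ', hk', rfl⟩ hne
    obtain ⟨hr, hki⟩ := hrc γ hγ hγe κ hk
    obtain ⟨hr', hki'⟩ := hrc γ' hγ' hγe' κ' hk'
    have hout' := hout γ hγ hγe κ hk hr w hw hw1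
    by_cases hcj : ∃ t : G, w' = t * w * t⁻¹
    · obtain ⟨t, ht⟩ := hcj
      obtain ⟨τ, hτ⟩ := cnj 3 G (Hq v) v (pq v) hπ w hw hw1 w' hw' t ht
      have h3 : ∀ θ : IrrE M e, Av 3 (pq v) w' κ' θ.1 =
          Av 3 (pq v) w (fun h => κ' (τ h)) θ.1 := fun θ => hτ κ' θ.1 (hirr θ.2)
      have h2 : (fun θ : IrrE M e => Av 3 (pq v) w' κ' θ.1) =
          fun θ : IrrE M e => Av 3 (pq v) w (fun h => κ' (τ h)) θ.1 := funext h3
      simp only [h3]
      apply horth κ _ hki (irr_comp hki' τ) hr (rc_comp hr' τ) w hw hw1 _ hout'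
      intro h4
      apply hne
      rw [h2, ← h4]
    · have h1 := (sec 3 G (Hq v) v (pq v) hπ κ κ' hr hr' w hw hw1).2.2 w' hw' hw1' hcj
      rw [sum_irr hirr _ (fun χ hχ hχ' => by rw [hout' χ hχ hχ', zero_mul])] at h1
      exact h1
  -- the virtual characters
  have hmem : ∀ a : IrrE M e → ℤ, (∑ θ : IrrE M e, a θ • (θ : G → ℂ)) ∈ ZE M e := fun a =>
    AddSubgroup.sum_mem _ fun θ _ => AddSubgroup.zsmul_mem _ (AddSubgroup.subset_closure θ.2) _
  have hRc : ∀ a : IrrE M e → ℤ, (∀ δ ∈ DD M e v (pq v), ∑ i, (a i : ℂ) * δ i = 0) →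
      Rc 3 (∑ θ : IrrE M e, a θ • (θ : G → ℂ)) := by
    intro a ha
    refine ⟨?_, ?_⟩
    · intro x y
      rw [Finset.sum_apply, Finset.sum_apply]
      refine Finset.sum_congr rfl fun θ _ => ?_
      rw [Pi.smul_apply, Pi.smul_apply, irr_conj (hirr θ.2)]
    · refine val 3 M hM G (Hq v) e he v hV (pq v) hπ _ (ze_span M e (hmem a)) ?_
      intro γ hγ hγe κ hk w hw hw1
      obtain ⟨κ', hk', hr'⟩ := hκ γ hγ hγe
      have h1 : κ = κ' := by rw [hk'] at hk; exact hk
      subst h1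
      rw [Av_comb]
      exact ha _ ⟨w, hw, hw1, γ, hγ, hγe, κ, hk', rfl⟩
  have hpr : pr M e = fun g => ∑ θ : IrrE M e, (deg θ : ℂ) * (θ : G → ℂ) g := by
    funext g
    rw [pr, ← finsum_set_coe_eq_finsum_mem (IrrE M e) (f := fun χ : G → ℂ => χ 1 * χ g),
      finsum_eq_sum_of_fintype]
    exact Finset.sum_congr rfl fun θ _ => by rw [hd θ]
  rcases hmain with ⟨a, ha3, haD, c, hc⟩ | ⟨a, b, ha2, hb2, hab1, habD, c, d, hcd⟩
  · left
    refine ⟨_, hmem a, hRc a haD, ?_, c, ?_⟩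
    · rw [ipn_comb hirr, ha3]
      norm_num
    · rw [hpr]
      funext g
      rw [Pi.smul_apply, Finset.sum_apply, smul_eq_mul, Finset.mul_sum]
      refine Finset.sum_congr rfl fun θ _ => ?_
      rw [hc θ, Pi.smul_apply, zsmul_eq_mul]
      ring
  · right
    refine ⟨_, hmem a, _, hmem b, hRc a fun δ hδ => (habD δ hδ).1, hRc b fun δ hδ => (habD δ hδ).2,
      ?_, ?_, ?_, ?_, c, d, ?_⟩
    · rw [ipn_comb hirr, ha2]
      norm_num
    · rw [ipn_comb hirr, hb2]
      norm_num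
    · rw [ipn_comb hirr, hab1]
      norm_num
    · rw [ipn_comb hirr]
      have h1 : ∑ θ : IrrE M e, b θ * a θ = 1 := by
        rw [← hab1]
        exact Finset.sum_congr rfl fun θ _ => mul_comm _ _
      rw [h1]
      norm_num
    · rw [hpr]
      funext g
      rw [Pi.add_apply, Pi.smul_apply, Pi.smul_apply, Finset.sum_apply, Finset.sum_apply,
        smul_eq_mul, smul_eq_mul, Finset.mul_sum, Finset.mul_sum, ← Finset.sum_add_distrib]
      refine Finset.sum_congr rfl fun θ _ => ?_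
      rw [hcd θ, Pi.smul_apply, Pi.smul_apply, zsmul_eq_mul, zsmul_eq_mul]
      ring

end Pool.Agent.PP.K9.H11
end
end -- Pool.Agent.Helper11_K9.DT3

section -- Pool.Agent.Helper11_K9.K9

/-!
# Squad K9, module K9: a block with a defect group of order nine has at most nine characters
-/

open scoped BigOperators

noncomputable section

namespace Pool.Agent.PP.K9.H11

open Pool.Agent.Helper51_AWC Pool.Agent.Helper79_WRA Pool.Agent.PP Pool.Agent.PP.KF

attribute [local instance] Ideal.Quotient.field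

theorem ker_pq {G : Type} [Group G] (u : G) : (pq u).ker = Subgroup.zpowers (uc u) :=
  QuotientGroup.ker_mk' _

theorem k9 (dt3 : Dt3Stmt) (pug : PugStmt) (int : IntStmt) (sec : SecStmt) (azr : AzrStmt)
    (nz : NzStmt) (prg : PrgStmt) : K9Stmt := by
  intro M _ hM G _ _ e he V hV hV9
  classical
  have f3 : Fact (Nat.Prime 3) := ⟨Nat.prime_three⟩
  have hF : GoodF 3 (FF M) := H50.fld 3 Nat.prime_three M hM
  -- `V` is abelian
  have hab : ∀ a ∈ V, ∀ b ∈ V, a * b = b * a := by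
    intro a ha b hb
    have h1 := IsPGroup.commutative_of_card_eq_prime_sq (G := V) (p := 3) (by rw [hV9]; norm_num)
      ⟨a, ha⟩ ⟨b, hb⟩
    exact congrArg Subtype.val h1
  -- an element of order three
  obtain ⟨u, huV, hu⟩ : ∃ u ∈ V, orderOf u = 3 := by
    obtain ⟨x, hx⟩ := exists_prime_orderOf_dvd_card' (G := V) 3 (by rw [hV9]; norm_num)
    exact ⟨x, x.2, by rw [Subgroup.orderOf_coe, hx]⟩
  have hu1 : u ≠ 1 := fun h => by
    rw [h, orderOf_one] at hu
    omega
  have hπ : Qt 3 u (pq u) := qt hu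
  have hfin : Finite (Hq u) := inferInstance
  have huu : orderOf (uc u) = 3 := by
    rw [← hu]
    exact Subgroup.orderOf_mk u _
  have hVC : V ≤ Cu u := fun x hx => Subgroup.mem_centralizer_singleton_iff.2 (hab x hx u huV)
  have heC : IsIdem (fun t : Cu u => e t) := idem_cu hF he.1 hu
  -- the block of the centraliser
  obtain ⟨g, hg, hge⟩ := hV.gd
  have hgC : g ∈ Cu u := Subgroup.mem_centralizer_singleton_iff.2
    (Subgroup.mem_centralizer_iff.1 hg u huV).symm
  obtain ⟨b, hb, hbe, hbg⟩ := H69.exists_blk heC (g := ⟨g, hgC⟩) hge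
  have hbV : Gd b (V.subgroupOf (Cu u)) := by
    refine ⟨⟨g, hgC⟩, ?_, hbg⟩
    rw [Subgroup.mem_centralizer_iff]
    intro x hx
    apply Subtype.ext
    exact Subgroup.mem_centralizer_iff.1 hg x.1 (Subgroup.mem_subgroupOf.1 hx)
  -- the quotient
  have hker := ker_pq u
  have hkc : Nat.card (pq u).ker = 3 := by rw [hker, Nat.card_zpowers, huu]
  have hkp : IsPGroup 3 (pq u).ker := IsPGroup.of_card (n := 1) (by rw [hkc, pow_one])
  have hb' : IsBlk (H75.push (pq u) b) :=
    CD2.H24.psb 3 (FF M) hF (Cu u) (Hq u) (pq u) hπ.sur (uc u) huu (uc_center u) hker b hb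
  have hkV : (pq u).ker ≤ V.subgroupOf (Cu u) := by
    rw [hker, Subgroup.zpowers_le]
    exact huV
  have hVp : IsPGroup 3 (V.subgroupOf (Cu u)) :=
    hV.pg.of_equiv (Subgroup.subgroupOfEquivOfLe hVC).symm
  have hVc : Nat.card (V.subgroupOf (Cu u)) = 9 := by
    rw [← hV9]
    exact Nat.card_congr (Subgroup.subgroupOfEquivOfLe hVC).toEquiv
  have hcard : ∀ Q : Subgroup (Hq u), Nat.card (Q.comap (pq u)) = 3 * Nat.card Q := by
    intro Q
    have := H75.card_comap (p := pq u) hπ.sur Q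
    rw [this, hkc]
  have hcm : ((V.subgroupOf (Cu u)).map (pq u)).comap (pq u) = V.subgroupOf (Cu u) :=
    Subgroup.comap_map_eq_self hkV
  have hV' : Nat.card ((V.subgroupOf (Cu u)).map (pq u)) = 3 := by
    have h1 := hcard ((V.subgroupOf (Cu u)).map (pq u))
    rw [hcm, hVc] at h1
    omega
  have hTp : Tp 3 (H75.push (pq u) b) ((V.subgroupOf (Cu u)).map (pq u)) := by
    refine ⟨hVp.map _, (pug 3 (FF M) hF (Cu u) (Hq u) (pq u) hπ.sur hkp b hb.1 _ hkV hVp).1 hbV, ?_⟩
    intro Q hQ hQb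
    have h1 : Q = (Q.comap (pq u)).map (pq u) :=
      (Subgroup.map_comap_eq_self_of_surjective hπ.sur Q).symm
    have h2 : IsPGroup 3 (Q.comap (pq u)) := by
      obtain ⟨n, hn⟩ := (IsPGroup.iff_card).1 hQ
      exact IsPGroup.of_card (n := n + 1) (by rw [hcard, hn, pow_succ, mul_comm])
    have h3 : (pq u).ker ≤ Q.comap (pq u) := by
      intro x hx
      rw [Subgroup.mem_comap, MonoidHom.mem_ker.1 hx]
      exact Q.one_mem
    rw [h1] at hQb
    have h4 := (pug 3 (FF M) hF (Cu u) (Hq u) (pq u) hπ.sur hkp b hb.1 _ h3 h2).2 hQb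
    have h5 := gd_sub (gd_factor hF heC.1 hb.1.1 hbe h2 h4)
    have h6 := hV.mx _ (h2.map _) h5
    have h7 : Nat.card ((Q.comap (pq u)).map (Cu u).subtype) = Nat.card (Q.comap (pq u)) :=
      (Nat.card_congr ((Q.comap (pq u)).equivMapOfInjective _
        (Subgroup.subtype_injective _)).toEquiv).symm
    rw [h7, hcard, hV9] at h6
    rw [hV']
    omega
  -- the characters of `e`
  have hfi : (Irr G).Finite := by
    have := Fintype.ofFinite G
    exact irr_finite'
  have := (hfi.subset (irrE_sub M e)).fintype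
  have hirr := irrE_sub M e
  obtain ⟨ω, hω⟩ : ∃ ω : ℂ, IsPrimitiveRoot ω 3 :=
    ⟨_, Complex.isPrimitiveRoot_exp 3 (by norm_num)⟩
  have huz : u ∈ Subgroup.zpowers u := Subgroup.mem_zpowers u
  have hout : ∀ p ∈ ZE M (H75.push (pq u) b), Rc 3 p → ∀ χ ∈ Irr G, χ ∉ IrrE M e →
      Av 3 (pq u) u p χ = 0 := by
    intro p hp hr χ hχ hχ'
    exact azr 3 M hM G (Hq u) u (pq u) hπ e he.1 b hb.1 hbe p (ze_span M _ hp) hr u huz hu1 χ hχ hχ'
  have hne : ∀ θ : IrrE M e, Av 3 (pq u) u (pr M (H75.push (pq u) b)) θ.1 ≠ 0 := by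
    intro θ
    rw [(prg 3 M hM).2 G (Hq u) u (pq u) hπ b hb.1 u huz θ.1 (hirr θ.2)]
    exact nz 3 M hM G e he V hV hab u huV b hb hbe hbV u huz θ.1 θ.2
  have hint : ∀ p ∈ ZE M (H75.push (pq u) b), Rc 3 p → ∀ θ : IrrE M e,
      ∃ n : ℤ, Av 3 (pq u) u p θ.1 * starRingEnd ℂ (Av 3 (pq u) u p θ.1) = n ∧ 0 ≤ n ∧
        (Av 3 (pq u) u p θ.1 ≠ 0 → 1 ≤ n) := by
    intro p hp hr θ
    have h1 := (av_int int hω hπ (ze_zi M _ hp) hr (hirr θ.2) 1).1
    rw [pow_one] at h1
    exact norm_om hω _ h1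
  have hsum : ∀ p ∈ ZE M (H75.push (pq u) b), Rc 3 p →
      ∑ θ : IrrE M e, Av 3 (pq u) u p θ.1 * starRingEnd ℂ (Av 3 (pq u) u p θ.1) =
        3 * ipn p p := by
    intro p hp hr
    have h1 := (sec 3 G (Hq u) u (pq u) hπ p p hr hr u huz hu1).1
    rw [sum_irr hirr _ (fun χ hχ hχ' => by rw [hout p hp hr χ hχ hχ', zero_mul])] at h1
    exact_mod_cast h1
  have hk : (IrrE M e).ncard = Fintype.card (IrrE M e) := by
    rw [← Nat.card_coe_set_eq, Nat.card_eq_fintype_card]
  rw [hk]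
  rcases dt3 M hM (Hq u) (H75.push (pq u) b) hb' _ hTp hV' with
    ⟨p, hp, hr, hp3, c, hc⟩ | ⟨p₁, hp₁, p₂, hp₂, hr₁, hr₂, h11, h22, h12, h21, c₁, c₂, hcc⟩
  · choose n hn hn0 hn1 using hint p hp hr
    have h1 : ∀ θ, 1 ≤ n θ := by
      intro θ
      apply hn1
      intro h0
      apply hne θ
      rw [hc, Av_smul, h0, mul_zero]
    have h2 : ((∑ θ, n θ : ℤ) : ℂ) = (9 : ℤ) := by
      push_cast
      rw [← Finset.sum_congr rfl fun θ _ => hn θ, hsum p hp hr, hp3]
      norm_num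
    have h3 : ∑ θ, n θ = 9 := by exact_mod_cast h2
    have h4 : ∑ _θ : IrrE M e, (1 : ℤ) ≤ ∑ θ, n θ := Finset.sum_le_sum fun θ _ => h1 θ
    rw [h3, Finset.sum_const, Finset.card_univ, nsmul_eq_mul, mul_one] at h4
    exact_mod_cast h4
  · have hp₃ : p₁ - p₂ ∈ ZE M (H75.push (pq u) b) := AddSubgroup.sub_mem _ hp₁ hp₂
    have hr₃ : Rc 3 (p₁ - p₂) := by
      refine ⟨fun x y => ?_, fun x hx => ?_⟩
      · rw [Pi.sub_apply, Pi.sub_apply, hr₁.cl, hr₂.cl]
      · rw [Pi.sub_apply, hr₁.sg x hx, hr₂.sg x hx, sub_zero]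
    have h33 : ipn (p₁ - p₂) (p₁ - p₂) = 2 := by
      rw [ipn_sub_left, ipn_sub_right, ipn_sub_right, h11, h22, h12, h21]
      norm_num
    choose n hn hn0 hn1 using hint p₁ hp₁ hr₁
    choose m hm hm0 hm1 using hint p₂ hp₂ hr₂
    choose k hk' hk0 hk1 using hint _ hp₃ hr₃
    have h1 : ∀ θ, 2 ≤ n θ + m θ + k θ := by
      intro θ
      have e1 := hn0 θ
      have e2 := hm0 θ
      have e3 := hk0 θ
      have h0 := hne θ
      rw [hcc, Av_add, Av_smul, Av_smul] at h0
      have e4 := Av_sub 3 (pq u) u p₁ p₂ θ.1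
      by_cases i1 : Av 3 (pq u) u p₁ θ.1 = 0
      · have i2 : Av 3 (pq u) u p₂ θ.1 ≠ 0 := by
          intro h
          apply h0
          rw [i1, h, mul_zero, mul_zero, add_zero]
        have i3 : Av 3 (pq u) u (p₁ - p₂) θ.1 ≠ 0 := by
          rw [e4, i1, zero_sub]
          exact neg_ne_zero.2 i2
        have j2 := hm1 θ i2
        have j3 := hk1 θ i3
        omega
      · have j1 := hn1 θ i1
        by_cases i2 : Av 3 (pq u) u p₂ θ.1 = 0
        · have i3 : Av 3 (pq u) u (p₁ - p₂) θ.1 ≠ 0 := by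
            rw [e4, i2, sub_zero]
            exact i1
          have j3 := hk1 θ i3
          omega
        · have j2 := hm1 θ i2
          omega
    have s1 : ((∑ θ, n θ : ℤ) : ℂ) = (6 : ℤ) := by
      push_cast
      rw [← Finset.sum_congr rfl fun θ _ => hn θ, hsum p₁ hp₁ hr₁, h11]
      norm_num
    have s2 : ((∑ θ, m θ : ℤ) : ℂ) = (6 : ℤ) := by
      push_cast
      rw [← Finset.sum_congr rfl fun θ _ => hm θ, hsum p₂ hp₂ hr₂, h22]
      norm_num
    have s3 : ((∑ θ, k θ : ℤ) : ℂ) = (6 : ℤ) := by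
      push_cast
      rw [← Finset.sum_congr rfl fun θ _ => hk' θ, hsum _ hp₃ hr₃, h33]
      norm_num
    have t1 : ∑ θ, n θ = 6 := by exact_mod_cast s1
    have t2 : ∑ θ, m θ = 6 := by exact_mod_cast s2
    have t3 : ∑ θ, k θ = 6 := by exact_mod_cast s3
    have h4 : ∑ _θ : IrrE M e, (2 : ℤ) ≤ ∑ θ, (n θ + m θ + k θ) :=
      Finset.sum_le_sum fun θ _ => h1 θ
    rw [Finset.sum_add_distrib, Finset.sum_add_distrib, t1, t2, t3, Finset.sum_const,
      Finset.card_univ, nsmul_eq_mul] at h4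
    have h5 : (Fintype.card (IrrE M e) : ℤ) ≤ 9 := by linarith
    exact_mod_cast h5

end Pool.Agent.PP.K9.H11
end
end -- Pool.Agent.Helper11_K9.K9

section -- Pool.Agent.Helper98_AT3.Fxm

/-!
# Squad AT3, row FIX: the trace for one block of the centraliser
-/

open scoped BigOperators

set_option linter.unusedSectionVars false

noncomputable section

namespace Pool.Agent.PP.T3.H98

open Pool.Agent.Helper51_AWC Pool.Agent.Helper79_WRA Pool.Agent.PP Pool.Agent.PP.KF
open Pool.Agent.PP.K9 Pool.Agent.PP.KF.H71 Pool.Agent.PP.KF.H92 Pool.Agent.PP.K9.H10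
open Pool.Agent.PP.K9.H97 Pool.Agent.PP.H75

attribute [local instance] Ideal.Quotient.field

section mat

variable {K n : Type} [Field K] [Fintype n] [DecidableEq n]

/-- the permutation matrix -/
def pm (K : Type) [Field K] (σ : Equiv.Perm n) : Matrix n n K :=
  Matrix.of fun x t => if σ x = t then 1 else 0

theorem pm_mul (σ : Equiv.Perm n) (A : Matrix n n K) (x t : n) :
    (pm K σ * A) x t = A (σ x) t := by
  rw [Matrix.mul_apply]
  simp [pm]

theorem mul_pm (σ : Equiv.Perm n) (A : Matrix n n K) (x t : n) :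
    (A * pm K σ) x t = A x (σ⁻¹ t) := by
  rw [Matrix.mul_apply, Finset.sum_eq_single (σ⁻¹ t)]
  · simp [pm]
  · intro b _ hb
    rw [pm, Matrix.of_apply, if_neg, mul_zero]
    intro h
    apply hb
    rw [← h]
    simp
  · intro h
    exact absurd (Finset.mem_univ _) h

theorem pm_one : pm K (1 : Equiv.Perm n) = 1 := by
  ext x t
  rw [pm, Matrix.of_apply, Matrix.one_apply]
  rfl

theorem pm_pm (σ τ : Equiv.Perm n) : pm K σ * pm K τ = pm K (τ * σ) := by
  ext x t
  rw [pm_mul]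
  rfl

theorem pm_pow (σ : Equiv.Perm n) (i : ℕ) : pm K σ ^ i = pm K (σ ^ i) := by
  induction i with
  | zero => rw [pow_zero, pow_zero, pm_one]
  | succ i ih => rw [pow_succ, ih, pm_pm, pow_succ']

theorem pm_diag (σ : Equiv.Perm n) (d : n → K) (i : ℕ) :
    pm K σ ^ i * Matrix.diagonal d * pm K σ⁻¹ ^ i = Matrix.diagonal (fun x => d ((σ ^ i) x)) := by
  ext x t
  rw [pm_pow, pm_pow, mul_pm, pm_mul, Matrix.diagonal_apply, Matrix.diagonal_apply]
  have e : (σ⁻¹ ^ i)⁻¹ t = (σ ^ i) t := by rw [inv_pow, inv_inv]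
  rw [e]
  by_cases h : x = t
  · rw [h, if_pos rfl, if_pos rfl]
  · rw [if_neg h, if_neg fun h' => h ((σ ^ i).injective h')]

theorem pm_diag_comm (σ : Equiv.Perm n) (d : n → K) (h : ∀ x, d (σ x) = d x) :
    Matrix.diagonal d * pm K σ = pm K σ * Matrix.diagonal d := by
  ext x t
  rw [mul_pm, pm_mul, Matrix.diagonal_apply, Matrix.diagonal_apply]
  by_cases h' : σ x = t
  · rw [if_pos h', if_pos (by rw [← h']; simp), h]
  · rw [if_neg h', if_neg]
    intro h2
    apply h'
    rw [h2]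
    simp

end mat

section ring

variable {F : Type} [Field F] {G : Type} [Group G] [Fintype G] [DecidableEq G]

theorem Km_dl2 (z w x t : G) :
    Km (dl F z) (dl F w) x t = if z⁻¹ * x * w⁻¹ = t then 1 else 0 := by
  rw [Km_apply, Finset.sum_eq_single z]
  · unfold dl
    rw [if_pos rfl, one_mul]
    by_cases h : z⁻¹ * x * w⁻¹ = t
    · rw [if_pos h, if_pos]
      rw [← h]
      group
    · rw [if_neg h, if_neg]
      intro h'
      apply h
      rw [← h']
      group
  · intro g _ hg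
    unfold dl
    rw [if_neg hg, zero_mul]
  · intro h
    exact absurd (Finset.mem_univ _) h

theorem Km_col (a b : G → F) (x t : G) : Km a b x t = mulF a (mulF (dl F t) b) x := by
  rw [← Km_mulVec, Matrix.mulVec, dotProduct, Finset.sum_eq_single t]
  · unfold dl
    rw [if_pos rfl, mul_one]
  · intro g _ hg
    unfold dl
    rw [if_neg hg, mul_zero]
  · intro h
    exact absurd (Finset.mem_univ _) h

end ring

/-- `y` is a power of `y ^ N` -/
theorem cu_pow {G : Type} [Group G] [Finite G] {N : ℕ} (hN : N.Coprime (Nat.card G)) (y : G) :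
    Cu (y ^ N) = Cu y := by
  have h1 : N.Coprime (orderOf y) := hN.coprime_dvd_right (orderOf_dvd_natCard y)
  obtain ⟨m, hm⟩ := exists_pow_eq_self_of_coprime h1
  ext x
  rw [Subgroup.mem_centralizer_singleton_iff, Subgroup.mem_centralizer_singleton_iff]
  constructor
  · intro h
    have h2 : Commute x (y ^ N) := h
    have h3 := h2.pow_right m
    rw [hm] at h3
    exact h3
  · intro h
    have h2 : Commute x y := h
    exact (h2.pow_right N).eq

/-- the trace for one block `b` of the centraliser of `y` -/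
theorem blk_trace (trg : TrgStmt) (cyc : CycStmt) (ℓ : ℕ) [Fact ℓ.Prime]
    (M : Ideal (integralClosure ℤ ℂ)) [M.IsMaximal] (hM : (ℓ : integralClosure ℤ ℂ) ∈ M)
    (G : Type) [Group G] [Finite G] (N : ℕ) (hN : N.Coprime (Nat.card G)) (y s : G)
    (hy : El ℓ y) (hs : s ∈ Cu y) (hsr : Reg ℓ s) (b : G → FF M) (hb : Bx (Cu y) b)
    (hcj : ∀ g : G, g * y * g⁻¹ = y ^ N → cj g b ≠ b) :
    ∑ᶠ χ ∈ Irr G, gbv (Cu y) (y ^ N * s) (eh M (fun t : Cu y => b t)) χ *
      starRingEnd ℂ (gbv (Cu y) (y * s) (eh M (fun t : Cu y => b t)) χ) = 0 := by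
  classical
  have hℓ : ℓ.Prime := Fact.out
  have := Fintype.ofFinite G
  have hF : GoodF ℓ (FF M) := H50.fld ℓ hℓ M hM
  haveI hchar : CharP (FF M) ℓ := hF.char
  obtain ⟨n, hyn⟩ := hy
  obtain ⟨y', hy'⟩ : ∃ y', y' = y ^ N := ⟨_, rfl⟩
  rw [← hy'] at hcj ⊢
  have hyC : y ∈ Cu y := u_mem y
  have hy'C : y' ∈ Cu y := by
    rw [hy']
    exact (Cu y).pow_mem hyC N
  have hm0 : 0 < orderOf s := orderOf_pos s
  have hml : ¬ ℓ ∣ orderOf s := (Nat.Prime.coprime_iff_not_dvd hℓ).1 (Nat.Coprime.symm hsr)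
  have hcomm : Commute y s := by
    have := (Subgroup.mem_centralizer_iff.1 hs) y (Set.mem_singleton y)
    exact this
  have hcomm' : Commute y' s := by
    rw [hy']
    exact hcomm.pow_left N
  obtain ⟨b₀, hb₀⟩ : ∃ b₀ : Cu y → FF M, b₀ = fun t : Cu y => b t := ⟨_, rfl⟩
  rw [← hb₀]
  have hbI : IsIdem b₀ := by
    rw [hb₀]
    exact hb.blk.1
  obtain ⟨h1, h2, -⟩ := KF.H25.idm M (Cu y) b₀ hbI
  -- over the complex numbers
  set bh : Cu y → ℂ := eh M b₀ with hbh
  set B : G → ℂ := PP.ext0 (Cu y) bh with hB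
  have hBB : mulF B B = B := e0_idem y bh h2.2
  have hBz : ∀ z ∈ Cu y, mulF B (dl ℂ z) = mulF (dl ℂ z) B := fun z hz => dl_comm' y bh h2.1 hz
  set P : Matrix G G ℂ := Km B B with hP
  set σ : Equiv.Perm G := (Equiv.mulLeft y'⁻¹).trans (Equiv.mulRight y) with hσdef
  have hσ1 : ∀ x, σ x = y'⁻¹ * x * y := fun x => rfl
  have hσ2 : ∀ x, σ⁻¹ x = y' * x * y⁻¹ := by
    intro x
    apply σ.injective
    rw [hσ1]
    change σ (σ⁻¹ x) = _
    rw [← Equiv.Perm.mul_apply, mul_inv_cancel, Equiv.Perm.one_apply]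
    rw [hσ1]
    group
  have hσ : ∀ (k : ℕ) (x : G), (σ ^ k) x = (y' ^ k)⁻¹ * x * y ^ k := by
    intro k
    induction k with
    | zero => intro x; simp
    | succ k ih =>
      intro x
      rw [pow_succ', Equiv.Perm.mul_apply, hσ1, ih, pow_succ y' k, pow_succ y k]
      group
  have hy'n : y' ^ ℓ ^ n = 1 := by
    rw [hy', ← pow_mul, mul_comm, pow_mul, hyn, one_pow]
  obtain ⟨c, hc01, hcl, hcs⟩ := cyc ℓ G σ n (by
    ext x
    rw [hσ, hyn, hy'n]
    simp)
  set U : Matrix G G ℂ := Km (dl ℂ y') (dl ℂ y⁻¹) with hU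
  set W : Matrix G G ℂ := Km (dl ℂ y'⁻¹) (dl ℂ y) with hW
  set V : Matrix G G ℂ := Km (dl ℂ s) (dl ℂ s⁻¹) with hV
  set X : Matrix G G ℂ := Matrix.diagonal (fun x => (c x : ℂ)) with hX
  have hUp : U = pm ℂ σ := by
    ext x t
    rw [hU, Km_dl2, pm, Matrix.of_apply, inv_inv, hσ1]
  have hWp : W = pm ℂ σ⁻¹ := by
    ext x t
    rw [hW, Km_dl2, pm, Matrix.of_apply, inv_inv, hσ2]
  have hPP : P * P = P := by rw [hP, Km_mul, hBB]
  have hUP : U * P = P * U := by
    rw [hU, hP, Km_mul, Km_mul, ← hBz y' hy'C, hBz _ ((Cu y).inv_mem hyC)]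
  have hVP : V * P = P * V := by
    rw [hV, hP, Km_mul, Km_mul, ← hBz s hs, hBz _ ((Cu y).inv_mem hs)]
  have hUV : U * V = Km (dl ℂ (y' * s)) (dl ℂ (y * s)⁻¹) := by
    rw [hU, hV, Km_mul, dl_dl, dl_dl, ← mul_inv_rev]
  have hVU : U * V = V * U := by
    rw [hUV, hU, hV, Km_mul, dl_dl, dl_dl, ← mul_inv_rev, ← hcomm.eq, ← hcomm'.eq]
  have hUW : U * W = 1 := by
    rw [hUp, hWp, pm_pm, inv_mul_cancel, pm_one]
  have hVm : V ^ orderOf s = 1 := by
    rw [hV, Km_dl_pow, pow_orderOf_eq_one, inv_one, Km_one]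
  have hXU : X * U ^ ℓ = U ^ ℓ * X := by
    rw [hUp, pm_pow, hX]
    apply pm_diag_comm
    intro x
    rw [hcl]
  -- the reductions
  set B' : G → FF M := PP.ext0 (Cu y) b₀ with hB'
  have hB'b : B' = b := by
    funext x
    by_cases hx : x ∈ Cu y
    · rw [hB', e0_app y b₀ ⟨x, hx⟩, hb₀]
    · rw [hB', e0_supp y b₀ x hx, hb.supp x hx]
  have hBr : ∀ g, B g ∈ RM M ∧ rr M (B g) = B' g := by
    intro g
    by_cases hg : g ∈ Cu y
    · rw [hB, hB', e0_app y bh ⟨g, hg⟩, e0_app y b₀ ⟨g, hg⟩]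
      exact h1 _
    · rw [hB, hB', e0_supp y bh g hg, e0_supp y b₀ g hg]
      exact ⟨(RM M).zero_mem, rr_zero⟩
  have hBB' : (fun g => rr M (B g)) = B' := funext fun g => (hBr g).2
  have hPR : ∀ i j, P i j ∈ RM M := fun i j => Km_RM (fun g => (hBr g).1) (fun g => (hBr g).1) i j
  have hzR : ∀ z w : G, ∀ i j, Km (dl ℂ z) (dl ℂ w) i j ∈ RM M := fun z w i j =>
    Km_RM (fun g => (dl_RM z g).1) (fun g => (dl_RM w g).1) i j
  have hcR : ∀ x, ((c x : ℕ) : ℂ) ∈ RM M ∧ rr M ((c x : ℕ) : ℂ) = (c x : FF M) := by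
    intro x
    rcases hc01 x with h | h
    · rw [h, Nat.cast_zero, Nat.cast_zero]
      exact ⟨(RM M).zero_mem, rr_zero⟩
    · rw [h, Nat.cast_one, Nat.cast_one]
      exact ⟨(RM M).one_mem, rr_one⟩
  have hXR : ∀ i j, X i j ∈ RM M := by
    intro i j
    rw [hX, Matrix.diagonal_apply]
    split_ifs
    · exact (hcR i).1
    · exact (RM M).zero_mem
  have hPm : P.map (rr M) = Km B' B' := by
    rw [hP, Km_map (fun g => (hBr g).1) (fun g => (hBr g).1), hBB']
  have hpmm : ∀ τ : Equiv.Perm G, (pm ℂ τ).map (rr M) = pm (FF M) τ := by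
    intro τ
    ext x t
    rw [Matrix.map_apply, pm, pm, Matrix.of_apply, Matrix.of_apply]
    split_ifs
    · exact rr_one
    · exact rr_zero
  have hXm : X.map (rr M) = Matrix.diagonal (fun x => (c x : FF M)) := by
    ext x t
    rw [Matrix.map_apply, hX, Matrix.diagonal_apply, Matrix.diagonal_apply]
    split_ifs
    · exact (hcR x).2
    · exact rr_zero
  set π : Matrix G G (FF M) := Matrix.diagonal (fun x => if σ x = x then (1 : FF M) else 0) with hπ
  have hsumX : ∑ i ∈ Finset.range ℓ, U.map (rr M) ^ i * X.map (rr M) * W.map (rr M) ^ i =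
      1 - π := by
    have e1 : ∀ i, U.map (rr M) ^ i * X.map (rr M) * W.map (rr M) ^ i =
        Matrix.diagonal (fun x => (c ((σ ^ i) x) : FF M)) := by
      intro i
      rw [hUp, hWp, hpmm, hpmm, hXm, pm_diag]
    rw [Finset.sum_congr rfl fun i _ => e1 i]
    ext x t
    rw [Matrix.sum_apply, Matrix.sub_apply, hπ, Matrix.one_apply, Matrix.diagonal_apply]
    by_cases hxt : x = t
    · rw [if_pos hxt, if_pos hxt]
      simp only [Matrix.diagonal_apply, if_pos hxt]
      rw [← Nat.cast_sum]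
      by_cases hx : σ x = x
      · rw [if_pos hx, sub_self]
        have e2 : ∀ i, (σ ^ i) x = x := by
          intro i
          induction i with
          | zero => rfl
          | succ i ih => rw [pow_succ', Equiv.Perm.mul_apply, ih, hx]
        rw [Finset.sum_congr rfl fun i _ => by rw [e2 i], Finset.sum_const, Finset.card_range,
          smul_eq_mul, Nat.cast_mul, CharP.cast_eq_zero, zero_mul]
      · rw [if_neg hx, sub_zero, hcs x hx, Nat.cast_one]
    · rw [if_neg hxt, if_neg hxt, sub_self]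
      refine Finset.sum_eq_zero fun i _ => ?_
      rw [Matrix.diagonal_apply, if_neg hxt]
  have hPπ : P.map (rr M) * π = 0 := by
    ext x t
    rw [hπ, Matrix.mul_diagonal, Matrix.zero_apply]
    by_cases ht : σ t = t
    · rw [if_pos ht, mul_one, hPm, Km_col, hB'b]
      have h3 : t * y * t⁻¹ = y' := by
        rw [hσ1] at ht
        have : t * y = y' * t := by
          conv_rhs => rw [← ht]
          group
        rw [this]
        group
      have h5 : Cu y' = Cu y := by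
        rw [hy']
        exact cu_pow hN y
      have h4 : t ∈ Subgroup.normalizer ((Cu y : Subgroup G) : Set G) := by
        rw [Subgroup.mem_normalizer_iff]
        intro z
        change z ∈ Cu y ↔ t * z * t⁻¹ ∈ Cu y
        conv_rhs => rw [← h5]
        rw [Subgroup.mem_centralizer_singleton_iff, Subgroup.mem_centralizer_singleton_iff, ← h3]
        constructor
        · intro h
          calc t * z * t⁻¹ * (t * y * t⁻¹) = t * (z * y) * t⁻¹ := by group
            _ = t * (y * z) * t⁻¹ := by rw [h]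
            _ = t * y * t⁻¹ * (t * z * t⁻¹) := by group
        · intro h
          have e1 : z * y = t⁻¹ * (t * z * t⁻¹ * (t * y * t⁻¹)) * t := by group
          rw [e1, h]
          group
      have h6 : mulF b (cj t b) = 0 := by
        rcases Bx.dich hb (hb.cj h4) with h7 | h7
        · exact absurd h7.symm (hcj t h3)
        · exact h7
      rw [dl_move, ← H20.mulF_assoc, h6, H20.zero_mulF, Pi.zero_apply]
    · rw [if_neg ht, mul_zero]
  have hPPm : P.map (rr M) * P.map (rr M) = P.map (rr M) := by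
    rw [← map_rr_mul hPR hPR, hPP]
  have hred : P.map (rr M) * (∑ i ∈ Finset.range ℓ, U.map (rr M) ^ i * X.map (rr M) *
      W.map (rr M) ^ i) * P.map (rr M) = P.map (rr M) := by
    rw [hsumX, mul_sub, mul_one, hPπ, sub_zero, hPPm]
  have key := trg ℓ M hM G P U W V X (orderOf s) hm0 hml hPR (hzR y' y⁻¹) (hzR y'⁻¹ y)
    (hzR s s⁻¹) hXR hPP hUW hVm hUP hVP hVU hXU hred
  have hUVP : U * V * P = Km (mulF (dl ℂ (y' * s)) B) (mulF B (dl ℂ (y * s)⁻¹)) := by
    rw [hUV, hP, Km_mul]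
  rw [hUVP] at key
  have htr : (Km (mulF (dl ℂ (y' * s)) B) (mulF B (dl ℂ (y * s)⁻¹))).trace =
      ∑ᶠ χ ∈ Irr G, chv (mulF (dl ℂ (y' * s)) B) χ * chv (mulF B (dl ℂ (y * s)⁻¹)) χ := by
    rw [KF.trc G, finsum_eq_sum_of_fintype, Matrix.trace]
    refine Finset.sum_congr rfl fun x _ => ?_
    rw [Matrix.diag_apply, finsum_eq_sum_of_fintype, Km_apply]
  rw [htr] at key
  rw [← key]
  refine finsum_mem_congr rfl fun χ hχ => ?_
  rw [hB, chv_left, chv_right, hbh, gbv_conj y (y * s) b₀ hχ]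

end Pool.Agent.PP.T3.H98
end
end -- Pool.Agent.Helper98_AT3.Fxm

section -- Pool.Agent.Helper98_AT3.Fxs

/-!
# Squad AT3, row FIX: the sum over the blocks of the centraliser
-/

open scoped BigOperators

set_option linter.unusedSectionVars false

noncomputable section

namespace Pool.Agent.PP.T3.H98

open Pool.Agent.Helper51_AWC Pool.Agent.Helper79_WRA Pool.Agent.PP Pool.Agent.PP.KF
open Pool.Agent.PP.K9 Pool.Agent.PP.KF.H71 Pool.Agent.PP.KF.H92 Pool.Agent.PP.K9.H10
open Pool.Agent.PP.K9.H97 Pool.Agent.PP.H75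

attribute [local instance] Ideal.Quotient.field

section lift

variable {M : Ideal (integralClosure ℤ ℂ)} [M.IsMaximal] {H : Type} [Group H] [Finite H]

theorem om_add' [Fintype H] (a b χ : H → ℂ) : H50.om (a + b) χ = H50.om a χ + H50.om b χ := by
  unfold H50.om
  rw [← add_div, ← Finset.sum_add_distrib]
  congr 1
  refine Finset.sum_congr rfl fun t _ => ?_
  rw [Pi.add_apply, add_mul]

/-- the lift is additive -/
theorem eh_add {f₁ f₂ : H → FF M} (h₁ : IsIdem f₁) (h₂ : IsIdem f₂) (h : mulF f₁ f₂ = 0) :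
    eh M (f₁ + f₂) = eh M f₁ + eh M f₂ := by
  have := Fintype.ofFinite H
  apply KF.H25.ext_om (KF.H25.eh_cl _)
  · intro x y
    rw [Pi.add_apply, Pi.add_apply, KF.H25.eh_cl, KF.H25.eh_cl]
  · intro χ hχ
    rw [om_add']
    have h0 := H50.res_mul (M := M) h₁.1 h₂.1 hχ
    rw [h, H50.res_zero] at h0
    have h3 : res M (f₁ + f₂) χ = res M f₁ χ + res M f₂ χ := H50.res_add f₁ f₂ χ
    rcases H50.res_idem h₁ hχ with h1 | h1
    · have n1 : χ ∉ IrrE M f₁ := fun hx => by
        have := hx.2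
        rw [h1] at this
        exact zero_ne_one this
      rw [(KF.H25.eh_om f₁ hχ).2 n1, zero_add]
      rcases H50.res_idem h₂ hχ with h2 | h2
      · have n2 : χ ∉ IrrE M f₂ := fun hx => by
          have := hx.2
          rw [h2] at this
          exact zero_ne_one this
        rw [(KF.H25.eh_om f₂ hχ).2 n2]
        refine (KF.H25.eh_om _ hχ).2 fun hx => ?_
        have := hx.2
        rw [h3, h1, h2, add_zero] at this
        exact zero_ne_one this
      · rw [(KF.H25.eh_om f₂ hχ).1 ⟨hχ, h2⟩]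
        refine (KF.H25.eh_om _ hχ).1 ⟨hχ, ?_⟩
        rw [h3, h1, h2, zero_add]
    · rw [(KF.H25.eh_om f₁ hχ).1 ⟨hχ, h1⟩]
      rcases H50.res_idem h₂ hχ with h2 | h2
      · have n2 : χ ∉ IrrE M f₂ := fun hx => by
          have := hx.2
          rw [h2] at this
          exact zero_ne_one this
        rw [(KF.H25.eh_om f₂ hχ).2 n2, add_zero]
        refine (KF.H25.eh_om _ hχ).1 ⟨hχ, ?_⟩
        rw [h3, h1, h2, add_zero]
      · exfalso
        rw [h1, h2, one_mul] at h0
        exact zero_ne_one h0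

theorem eh_zero : eh M (0 : H → FF M) = 0 := by
  have h1 := eh_add (M := M) (H := H) H46.isIdem_zero H46.isIdem_zero (H46.mulF_zero 0)
  rw [add_zero] at h1
  have h2 : eh M (0 : H → FF M) + 0 = eh M (0 : H → FF M) + eh M (0 : H → FF M) := by
    rw [add_zero, ← h1]
  exact (add_left_cancel h2).symm

/-- the lift of the identity -/
theorem eh_one : eh M (dl (FF M) (1 : H)) = dl ℂ (1 : H) := by
  have := Fintype.ofFinite H
  classical
  apply KF.H25.ext_om (KF.H25.eh_cl _)
  · intro x y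
    exact dl_cl x y
  · intro χ hχ
    have h1 : H50.om (dl ℂ (1 : H)) χ = 1 := by
      unfold H50.om
      rw [Finset.sum_eq_single (1 : H)]
      · unfold dl
        rw [if_pos rfl, one_mul, div_self (irr_one_ne hχ)]
      · intro t _ ht
        unfold dl
        rw [if_neg ht, zero_mul]
      · intro h
        exact absurd (Finset.mem_univ _) h
    rw [h1]
    refine (KF.H25.eh_om _ hχ).1 ⟨hχ, ?_⟩
    exact H50.res_one (irr_one_ne hχ) (fun g => omega_integral _ hχ g)

end lift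

/-- class functions are combinations of irreducible characters -/
theorem span_irr {H : Type} [Group H] [Finite H] {f : H → ℂ}
    (hf : ∀ x y, f (y * x * y⁻¹) = f x) : f ∈ Submodule.span ℂ (Irr H) := by
  classical
  have := Fintype.ofFinite H
  have := Fintype.ofFinite (Irr H)
  have hc : (Fintype.card H : ℂ) ≠ 0 := by exact_mod_cast Fintype.card_ne_zero
  obtain ⟨a, ha⟩ : ∃ a : Irr H → ℂ, ∀ χ : Irr H, ∑ x, f x * (χ : H → ℂ) x⁻¹ =
      a χ * Fintype.card H :=
    ⟨fun χ => (∑ x, f x * (χ : H → ℂ) x⁻¹) / Fintype.card H, fun χ => by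
      rw [div_mul_cancel₀ _ hc]⟩
  have h2 : f = ∑ χ : Irr H, a χ • (χ : H → ℂ) := by
    rw [← sub_eq_zero]
    apply irr_complete'
    · intro g h
      simp only [Pi.sub_apply, Finset.sum_apply, Pi.smul_apply, hf]
      congr 1
      refine Finset.sum_congr rfl fun χ _ => ?_
      rw [irr_conj χ.2]
    · intro ψ hψ
      simp only [Pi.sub_apply, Finset.sum_apply, Pi.smul_apply, smul_eq_mul, sub_mul,
        Finset.sum_sub_distrib, Finset.sum_mul]
      rw [ha ⟨ψ, hψ⟩, Finset.sum_comm, Finset.sum_eq_single_of_mem ⟨ψ, hψ⟩ (Finset.mem_univ _)]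
      · simp_rw [mul_assoc]
        rw [← Finset.mul_sum, irr_orth_self hψ, sub_self]
      · intro χ _ hne
        simp_rw [mul_assoc]
        rw [← Finset.mul_sum, irr_orth_ne χ.2 hψ (fun h => hne (Subtype.ext h)), mul_zero]
  rw [h2]
  exact Submodule.sum_mem _ fun χ _ => Submodule.smul_mem _ _ (Submodule.subset_span χ.2)

/-- a central element acts by a scalar -/
theorem cent_mul {C : Type} [Group C] {θ : C → ℂ} (hθ : θ ∈ Irr C) {z : C}
    (hz : ∀ c, z * c = c * z) (c : C) : θ (z * c) = θ z / θ 1 * θ c := by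
  have hne : θ 1 ≠ 0 := irr_one_ne hθ
  obtain ⟨n, ρ, hρ, rfl⟩ := hθ
  obtain ⟨k, hk⟩ := schur_scalar ρ (ρ z) (by
    intro g
    have h1 : ρ z * ρ g = ρ g * ρ z := by rw [← map_mul, ← map_mul, hz]
    exact h1)
  have h1 : ∀ c, ρ.character (z * c) = k * ρ.character c := by
    intro c
    show LinearMap.trace ℂ _ (ρ (z * c)) = k * LinearMap.trace ℂ _ (ρ c)
    rw [map_mul, hk, smul_mul_assoc, map_smul, smul_eq_mul]
    rfl
  have h2 := h1 1
  rw [mul_one] at h2
  rw [h2, mul_div_cancel_right₀ _ hne, h1]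

section proj

variable {M : Ideal (integralClosure ℤ ℂ)} [M.IsMaximal] {C : Type} [Group C] [Fintype C]

/-- the projection to the characters of a block -/
theorem mem_span_blk (b : C → FF M) {z : C} (hz : ∀ c, z * c = c * z) {φ : C → ℂ}
    (hφ : φ ∈ Submodule.span ℂ (Irr C)) :
    (fun c => ∑ t, eh M b t * φ (z * c * t)) ∈ Submodule.span ℂ (IrrE M b) := by
  induction hφ using Submodule.span_induction with
  | mem θ hθ =>
    have h1 : (fun c => ∑ t, eh M b t * θ (z * c * t)) =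
        (H50.om (eh M b) θ * (θ z / θ 1)) • θ := by
      funext c
      have h2 := H50.eigen (KF.H25.eh_cl (M := M) b) hθ (z * c)
      have h3 : ∀ t, θ (z * c * t) = θ (t * (z * c)) := by
        intro t
        have := irr_conj hθ (t * (z * c)) t⁻¹
        rw [← this]
        congr 1
        group
      simp only [h3]
      rw [h2, cent_mul hθ hz c,
        Pi.smul_apply, smul_eq_mul]
      ring
    rw [h1]
    by_cases h : θ ∈ IrrE M b
    · exact Submodule.smul_mem _ _ (Submodule.subset_span h)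
    · rw [(KF.H25.eh_om b hθ).2 h, zero_mul, zero_smul]
      exact Submodule.zero_mem _
  | zero =>
    have : (fun c => ∑ t, eh M b t * (0 : C → ℂ) (z * c * t)) = 0 := by
      funext c
      simp
    rw [this]
    exact Submodule.zero_mem _
  | add f g _ _ hf hg =>
    have : (fun c => ∑ t, eh M b t * (f + g) (z * c * t)) =
        (fun c => ∑ t, eh M b t * f (z * c * t)) + (fun c => ∑ t, eh M b t * g (z * c * t)) := by
      funext c
      rw [Pi.add_apply, ← Finset.sum_add_distrib]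
      refine Finset.sum_congr rfl fun t _ => ?_
      rw [Pi.add_apply, mul_add]
    rw [this]
    exact Submodule.add_mem _ hf hg
  | smul a f _ hf =>
    have : (fun c => ∑ t, eh M b t * (a • f) (z * c * t)) =
        a • (fun c => ∑ t, eh M b t * f (z * c * t)) := by
      funext c
      rw [Pi.smul_apply, smul_eq_mul, Finset.mul_sum]
      refine Finset.sum_congr rfl fun t _ => ?_
      rw [Pi.smul_apply, smul_eq_mul]
      ring
    rw [this]
    exact Submodule.smul_mem _ _ hf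

/-- the projection is self-adjoint -/
theorem proj_sum (b : C → FF M) {q : C → ℂ} (hq : q ∈ Submodule.span ℂ (IrrE M b)) (p : C → ℂ) :
    ∑ s, starRingEnd ℂ (q s) * p s = ∑ s, starRingEnd ℂ (q s) * ∑ c, eh M b c * p (s * c) := by
  have h1 : ∀ s : C, starRingEnd ℂ (q s) * p s =
      ∑ c : C, eh M b c * starRingEnd ℂ (q (s * c⁻¹)) * p s := by
    intro s
    rw [← Finset.sum_mul, K9.H65.eh_act b hq]
  rw [Finset.sum_congr rfl fun s _ => h1 s, Finset.sum_comm]
  have h2 : ∀ c : C, ∑ s : C, eh M b c * starRingEnd ℂ (q (s * c⁻¹)) * p s =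
      ∑ s : C, starRingEnd ℂ (q s) * (eh M b c * p (s * c)) := by
    intro c
    rw [← Equiv.sum_comp (Equiv.mulRight c)
      (fun s : C => eh M b c * starRingEnd ℂ (q (s * c⁻¹)) * p s)]
    refine Finset.sum_congr rfl fun s _ => ?_
    rw [Equiv.coe_mulRight, mul_inv_cancel_right]
    ring
  rw [Finset.sum_congr rfl fun c _ => h2 c, Finset.sum_comm]
  refine Finset.sum_congr rfl fun s _ => ?_
  rw [Finset.mul_sum]

end proj

/-- the restriction to the centraliser of an `ℓ`-element -/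
theorem idem_cu {ℓ : ℕ} [Fact ℓ.Prime] {F G : Type} [Field F] [Group G] [Finite G]
    (hF : GoodF ℓ F) {e : G → F} (he : IsIdem e) {u : G} (hu : El ℓ u) :
    IsIdem (fun t : Cu u => e t) := by
  have hc : Subgroup.centralizer (Subgroup.zpowers u : Set G) ≤ Cu u := by
    refine Subgroup.centralizer_le ?_
    rw [Set.singleton_subset_iff]
    exact Subgroup.mem_zpowers u
  have hc' : Cu u ≤ Subgroup.centralizer (Subgroup.zpowers u : Set G) := by
    intro x hx
    rw [Subgroup.mem_centralizer_iff]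
    rintro _ ⟨k, rfl⟩
    have : Commute x u := Subgroup.mem_centralizer_singleton_iff.1 hx
    exact (this.zpow_right k).eq.symm
  have hp : IsPGroup ℓ (Subgroup.zpowers u) := by
    obtain ⟨n, hn⟩ := hu
    rintro ⟨x, k, rfl⟩
    refine ⟨n, Subtype.ext ?_⟩
    change ((u ^ k) ^ ℓ ^ n : G) = 1
    rw [← zpow_natCast, ← zpow_mul, mul_comm, zpow_mul, zpow_natCast, hn, one_zpow]
  have hn : Cu u ≤ Subgroup.normalizer (Subgroup.zpowers u : Set G) :=
    hc'.trans (Subgroup.centralizer_le_normalizer _)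
  have h := (H20.brm ℓ F hF G (Subgroup.zpowers u) (Cu u) hp hc hn).2.2 e he
  have h2 : (fun t : Cu u => br (Subgroup.zpowers u) e t) = fun t : Cu u => e t := by
    funext t
    exact H66.br_of_mem (hc' t.2)
  rwa [h2] at h

/-- one `ℓ`-element -/
theorem fxy_sum (trg : TrgStmt) (cyc : CycStmt) (smg : SmgStmt) (rot : RotStmt)
    (ℓ : ℕ) [Fact ℓ.Prime] (M : Ideal (integralClosure ℤ ℂ)) [M.IsMaximal]
    (hM : (ℓ : integralClosure ℤ ℂ) ∈ M) (G : Type) [Group G] [Fintype G] (N : ℕ)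
    (hN : N.Coprime (Nat.card G)) (e : G → FF M) (he : IsIdem e) (y : G) (hy1 : y ≠ 1)
    (hy : El ℓ y)
    (hcj : ∀ b : G → FF M, Bx (Cu y) b →
      mulF (fun t : Cu y => e t) (fun t : Cu y => b t) = (fun t : Cu y => b t) →
      ∀ g : G, g * y * g⁻¹ = y ^ N → cj g b ≠ b) :
    ∑ᶠ (s : G) (_ : s ∈ Cu y ∧ Reg ℓ s), ∑ᶠ χ ∈ IrrE M e,
      χ (y ^ N * s) * starRingEnd ℂ (χ (y * s)) = 0 := by
  classical
  have := Fintype.ofFinite (Cu y)
  have hF : GoodF ℓ (FF M) := H50.fld ℓ Fact.out M hM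
  obtain ⟨y', hy'⟩ : ∃ y', y' = y ^ N := ⟨_, rfl⟩
  have hyC : y ∈ Cu y := u_mem y
  have hy'C : y' ∈ Cu y := by
    rw [hy']
    exact (Cu y).pow_mem hyC N
  have hz : ∀ c : Cu y, (⟨y', hy'C⟩ : Cu y) * c = c * ⟨y', hy'C⟩ := by
    intro c
    apply Subtype.ext
    change y' * (c : G) = c * y'
    rw [hy']
    have : Commute (c : G) y := Subgroup.mem_centralizer_singleton_iff.1 c.2
    exact (this.pow_right N).eq.symm
  obtain ⟨S, hSdef⟩ : ∃ S, S = (K9.H25.irrE_finite M e).toFinset := ⟨_, rfl⟩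
  have hS : ∀ χ ∈ S, χ ∈ IrrE M e := fun χ hχ => by
    rw [hSdef, Set.Finite.mem_toFinset] at hχ
    exact hχ
  -- the sum over one block
  let T : (Cu y → FF M) → ℂ := fun f => ∑ χ ∈ S, ∑ s : Cu y, if Reg ℓ (s : G) then
    gbv (Cu y) (y' * s) (eh M f) χ * starRingEnd ℂ (χ (y * s)) else 0
  have hreg : ∀ s : Cu y, Reg ℓ s ↔ Reg ℓ (s : G) := by
    intro s
    unfold Reg
    rw [Subgroup.orderOf_coe]
  have hT : ∀ f : Cu y → FF M, IsIdem f → T f = 0 := by
    refine H46.idem_induction _ ?_ ?_ ?_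
    · refine Finset.sum_eq_zero fun χ _ => Finset.sum_eq_zero fun s _ => ?_
      have h1 : gbv (Cu y) (y' * s) (eh M (0 : Cu y → FF M)) χ = 0 := by
        rw [gbv, finsum_eq_sum_of_fintype, eh_zero]
        simp
      rw [h1, zero_mul, ite_self]
    · intro b hb
      have hbx : Bx (Cu y) (PP.ext0 (Cu y) b) := by
        refine ⟨fun x hx => e0_supp y b x hx, ?_⟩
        have : (fun t : Cu y => PP.ext0 (Cu y) b t) = b := funext fun t => e0_app y b t
        rw [this]
        exact hb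
      have hbb : (fun t : Cu y => PP.ext0 (Cu y) b t) = b := funext fun t => e0_app y b t
      have heC : IsIdem (fun t : Cu y => e t) := by
        exact idem_cu hF he hy
      -- the second factor
      have hsec : ∀ χ ∈ S, ∑ s : Cu y, (if Reg ℓ (s : G) then
          gbv (Cu y) (y' * s) (eh M b) χ * starRingEnd ℂ (χ (y * s)) else 0) =
          ∑ s : Cu y, (if Reg ℓ (s : G) then
          gbv (Cu y) (y' * s) (eh M b) χ * starRingEnd ℂ (gbv (Cu y) (y * s) (eh M b) χ)
          else 0) := by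
        intro χ hχ
        have hχI : χ ∈ Irr G := (hS χ hχ).1
        have h1 : (fun c : Cu y => χ c) ∈ Submodule.span ℂ (Irr (Cu y)) := by
          apply span_irr
          intro a c
          have := irr_conj hχI (a : G) (c : G)
          exact this
        have h2 := mem_span_blk b hz h1
        have h3 := (rot ℓ M hM (Cu y) b hb.1).1 _ h2
        have h4 := proj_sum b h3 (fun s : Cu y => χ (y * s))
        have h5 : ∀ s : Cu y, ∑ t : Cu y, eh M b t * χ ((⟨y', hy'C⟩ * s * t : Cu y) : G) =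
            gbv (Cu y) (y' * s) (eh M b) χ := by
          intro s
          rw [gbv, finsum_eq_sum_of_fintype]
          rfl
        have h6 : ∀ s : Cu y, ∑ c : Cu y, eh M b c * χ (y * ((s * c : Cu y) : G)) =
            gbv (Cu y) (y * s) (eh M b) χ := by
          intro s
          rw [gbv, finsum_eq_sum_of_fintype]
          refine Finset.sum_congr rfl fun c _ => ?_
          rw [Subgroup.coe_mul, mul_assoc]
        have h7 := congrArg (starRingEnd ℂ) h4
        rw [map_sum, map_sum] at h7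
        refine Eq.trans ?_ (h7.trans ?_)
        · refine Finset.sum_congr rfl fun s _ => ?_
          rw [map_mul, Complex.conj_conj]
          simp only [hreg]
          rw [h5]
          split_ifs
          · rfl
          · rw [zero_mul]
        · refine Finset.sum_congr rfl fun s _ => ?_
          rw [map_mul, Complex.conj_conj]
          simp only [hreg]
          rw [h5, h6]
          split_ifs
          · rfl
          · rw [zero_mul]
      change ∑ χ ∈ S, _ = _
      rw [Finset.sum_congr rfl hsec]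
      rcases hb.2.2 _ heC with h1 | h1
      · have h1' : mulF (fun t : Cu y => e t) b = b := by
          rw [H46.mulF_comm heC.1, h1]
        rw [Finset.sum_comm]
        refine Finset.sum_eq_zero fun s _ => ?_
        by_cases hs : Reg ℓ (s : G)
        · simp only [if_pos hs]
          have h2 := blk_trace trg cyc ℓ M hM G N hN y s hy s.2 hs _ hbx (by
            refine hcj _ hbx ?_
            rw [hbb, h1'])
          rw [hbb, ← hy'] at h2
          have h3 := (smg ℓ M hM G y s hy1 hy s.2 hs b hb.1 e he).1 h1'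
          rw [finsum_mem_eq_finite_toFinset_sum _ (irr_finite' (G := G))] at h2
          rw [← h2]
          apply Finset.sum_subset
          · intro χ hχ
            exact (Set.Finite.mem_toFinset _).2 (hS χ hχ).1
          · intro χ hχ hne
            rw [h3 χ ((Set.Finite.mem_toFinset _).1 hχ) (fun h => hne (by
              rw [hSdef, Set.Finite.mem_toFinset]
              exact h)), map_zero, mul_zero]
        · simp only [if_neg hs]
          exact Finset.sum_const_zero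
      · have h1' : mulF (fun t : Cu y => e t) b = 0 := by
          rw [H46.mulF_comm heC.1, h1]
        refine Finset.sum_eq_zero fun χ hχ => Finset.sum_eq_zero fun s _ => ?_
        by_cases hs : Reg ℓ (s : G)
        · rw [if_pos hs, (smg ℓ M hM G y s hy1 hy s.2 hs b hb.1 e he).2 h1' χ (hS χ hχ), map_zero,
            mul_zero]
        · rw [if_neg hs]
    · intro f₁ f₂ h1 h2 h12 p1 p2
      have h3 : T (f₁ + f₂) = T f₁ + T f₂ := by
        change ∑ χ ∈ S, _ = ∑ χ ∈ S, _ + ∑ χ ∈ S, _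
        rw [← Finset.sum_add_distrib]
        refine Finset.sum_congr rfl fun χ _ => ?_
        rw [← Finset.sum_add_distrib]
        refine Finset.sum_congr rfl fun s _ => ?_
        by_cases hs : Reg ℓ (s : G)
        · rw [if_pos hs, if_pos hs, if_pos hs, ← add_mul]
          congr 1
          rw [gbv, gbv, gbv, finsum_eq_sum_of_fintype, finsum_eq_sum_of_fintype,
            finsum_eq_sum_of_fintype, ← Finset.sum_add_distrib, eh_add h1 h2 h12]
          refine Finset.sum_congr rfl fun t _ => ?_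
          rw [Pi.add_apply, add_mul]
        · rw [if_neg hs, if_neg hs, if_neg hs, add_zero]
      rw [h3, p1, p2, add_zero]
  have h1 := hT (dl (FF M) (1 : Cu y)) H46.isIdem_one
  have h2 : ∀ (g : G) (χ : G → ℂ), gbv (Cu y) g (eh M (dl (FF M) (1 : Cu y))) χ = χ g := by
    intro g χ
    rw [gbv, finsum_eq_sum_of_fintype, eh_one, Finset.sum_eq_single (1 : Cu y)]
    · unfold dl
      rw [if_pos rfl, one_mul, Subgroup.coe_one, mul_one]
    · intro t _ ht
      unfold dl
      rw [if_neg ht, zero_mul]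
    · intro h
      exact absurd (Finset.mem_univ _) h
  change ∑ χ ∈ S, _ = _ at h1
  simp only [h2] at h1
  rw [← h1, Finset.sum_comm, ← hy']
  have h3 : ∀ s : G, ∑ᶠ χ ∈ IrrE M e, χ (y' * s) * starRingEnd ℂ (χ (y * s)) =
      ∑ χ ∈ S, χ (y' * s) * starRingEnd ℂ (χ (y * s)) := by
    intro s
    rw [finsum_mem_eq_finite_toFinset_sum _ (K9.H25.irrE_finite M e), hSdef]
  simp only [h3]
  rw [finsum_eq_sum_of_fintype]
  have h4 : ∀ s : G, (∑ᶠ (_ : s ∈ Cu y ∧ Reg ℓ s),
      ∑ χ ∈ S, χ (y' * s) * starRingEnd ℂ (χ (y * s))) =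
      if s ∈ Cu y then (if Reg ℓ s then ∑ χ ∈ S, χ (y' * s) * starRingEnd ℂ (χ (y * s)) else 0)
        else 0 := by
    intro s
    rw [finsum_eq_if, ite_and]
  rw [Finset.sum_congr rfl fun s _ => h4 s, ← Finset.sum_filter]
  rw [Finset.sum_subtype (Finset.univ.filter fun s => s ∈ Cu y) (p := fun s => s ∈ Cu y)
    (by intro x; simp)]
  refine Finset.sum_congr rfl fun s _ => ?_
  by_cases hs : Reg ℓ (s : G)
  · rw [if_pos hs]
    refine Finset.sum_congr rfl fun χ _ => ?_
    rw [if_pos hs]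
  · rw [if_neg hs]
    symm
    refine Finset.sum_eq_zero fun χ _ => ?_
    rw [if_neg hs]

end Pool.Agent.PP.T3.H98
end
end -- Pool.Agent.Helper98_AT3.Fxs

section -- Pool.Agent.Helper98_AT3.FIX

/-!
# Squad AT3, row FIX: the number of the characters fixed by the power map
-/

open scoped BigOperators

set_option linter.unusedSectionVars false

noncomputable section

namespace Pool.Agent.PP.T3.H98

open Pool.Agent.Helper51_AWC Pool.Agent.Helper79_WRA Pool.Agent.PP Pool.Agent.PP.KF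
open Pool.Agent.PP.K9 Pool.Agent.PP.KF.H71 Pool.Agent.PP.KF.H92 Pool.Agent.PP.K9.H10
open Pool.Agent.PP.K9.H97 Pool.Agent.PP.H75

attribute [local instance] Ideal.Quotient.field

/-- the singular elements are the products `y s` -/
theorem sing_sum {ℓ : ℕ} [Fact ℓ.Prime] {G : Type} [Group G] [Fintype G] (F : G → ℂ)
    (h : ∀ y : G, y ≠ 1 → El ℓ y → ∑ᶠ (s : G) (_ : s ∈ Cu y ∧ Reg ℓ s), F (y * s) = 0) :
    ∑ᶠ (g : G) (_ : ¬ Reg ℓ g), F g = 0 := by
  classical
  obtain ⟨K, hK1, hK2⟩ := K9.H27.prt ℓ G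
  have e0 : ∀ (p : G → Prop) [DecidablePred p] (f : G → ℂ), ∑ᶠ (g : G) (_ : p g), f g =
      ∑ g ∈ Finset.univ.filter p, f g := by
    intro p _ f
    rw [finsum_eq_sum_of_fintype, Finset.sum_filter]
    exact Finset.sum_congr rfl fun g _ => finsum_eq_if
  rw [e0, ← Finset.sum_fiberwise (Finset.univ.filter fun g : G => ¬ Reg ℓ g)
    (fun g : G => (g ^ K)⁻¹ * g) F]
  refine Finset.sum_eq_zero fun y _ => ?_
  by_cases hy1 : y = 1
  · apply Finset.sum_eq_zero
    intro g hg
    exfalso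
    rw [Finset.mem_filter, Finset.mem_filter] at hg
    have h1 : g ^ K = g := by
      have := hg.2
      rw [hy1] at this
      exact inv_mul_eq_one.1 this
    apply hg.1.2
    rw [← h1]
    exact (hK1 g).1
  · by_cases hy : El ℓ y
    · rw [← h y hy1 hy, e0]
      refine Finset.sum_bij' (fun g _ => g ^ K) (fun s _ => y * s) ?_ ?_ ?_ ?_ ?_
      · intro g hg
        rw [Finset.mem_filter, Finset.mem_filter] at hg
        rw [Finset.mem_filter]
        refine ⟨Finset.mem_univ _, ?_, (hK1 g).1⟩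
        rw [Subgroup.mem_centralizer_singleton_iff, ← hg.2]
        have hc : Commute (g ^ K) ((g ^ K)⁻¹ * g) :=
          ((Commute.refl (g ^ K)).inv_right).mul_right ((Commute.refl g).pow_left K)
        exact hc.eq
      · intro s hs
        rw [Finset.mem_filter] at hs
        have hc : Commute s y := Subgroup.mem_centralizer_singleton_iff.1 hs.2.1
        have h1 : (y * s) ^ K = s := by
          rw [← hc.eq]
          exact hK2 s y hc hs.2.2 hy
        rw [Finset.mem_filter, Finset.mem_filter]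
        refine ⟨⟨Finset.mem_univ _, ?_⟩, ?_⟩
        · intro hr
          have h2 := hK2 (y * s) 1 (Commute.one_right _) hr ⟨0, one_pow _⟩
          rw [mul_one, h1] at h2
          exact hy1 (mul_eq_right.1 h2.symm)
        · change ((y * s) ^ K)⁻¹ * (y * s) = y
          rw [h1, ← hc.eq, inv_mul_cancel_left]
      · intro g hg
        rw [Finset.mem_filter] at hg
        change y * g ^ K = g
        rw [← hg.2]
        have hc : Commute (g ^ K) g := (Commute.refl g).pow_left K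
        rw [mul_assoc, ← hc.eq, inv_mul_cancel_left]
      · intro s hs
        rw [Finset.mem_filter] at hs
        have hc : Commute s y := Subgroup.mem_centralizer_singleton_iff.1 hs.2.1
        change (y * s) ^ K = s
        rw [← hc.eq]
        exact hK2 s y hc hs.2.2 hy
      · intro g hg
        rw [Finset.mem_filter] at hg
        have hc : Commute (g ^ K) g := (Commute.refl g).pow_left K
        have : y * g ^ K = g := by
          rw [← hg.2, mul_assoc, ← hc.eq, inv_mul_cancel_left]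
        rw [this]
    · apply Finset.sum_eq_zero
      intro g hg
      exfalso
      rw [Finset.mem_filter] at hg
      apply hy
      rw [← hg.2]
      exact (hK1 g).2

theorem fix (trg : TrgStmt) (cyc : CycStmt) (smg : SmgStmt) (rot : RotStmt) (ada : AdaStmt)
    (wbo : WboStmt) (idm : KF.IdmStmt) : FixStmt := by
  intro ℓ _ M _ hM G _ _ N hN e he hcj
  classical
  have := Fintype.ofFinite G
  have hrtc := (H23.rtc' ada wbo idm ℓ M hM G N hN.cop hN.reg e he).2
  obtain ⟨S, hSdef⟩ : ∃ S, S = (K9.H25.irrE_finite M e).toFinset := ⟨_, rfl⟩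
  have hS : ∀ χ, χ ∈ S ↔ χ ∈ IrrE M e := fun χ => by rw [hSdef, Set.Finite.mem_toFinset]
  have hc : (Fintype.card G : ℂ) ≠ 0 := by exact_mod_cast Fintype.card_ne_zero
  have hset : {χ | χ ∈ IrrE M e ∧ ∀ g, χ (g ^ N) = χ g} =
      ((S.filter fun χ => ∀ g, χ (g ^ N) = χ g : Finset (G → ℂ)) : Set (G → ℂ)) := by
    ext χ
    simp [hS]
  have hF : ∀ F : (G → ℂ) → ℂ, ∑ᶠ χ ∈ IrrE M e, F χ = ∑ χ ∈ S, F χ := by
    intro F
    rw [finsum_mem_eq_finite_toFinset_sum _ (K9.H25.irrE_finite M e), hSdef]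
  have h1 : ∀ χ ∈ S, ∑ g : G, χ (g ^ N) * starRingEnd ℂ (χ g) =
      if (∀ g, χ (g ^ N) = χ g) then (Fintype.card G : ℂ) else 0 := by
    intro χ hχ
    have hI := ((hS χ).1 hχ).1
    have hI' := (hrtc χ ((hS χ).1 hχ)).1
    have h2 : ∑ g : G, χ (g ^ N) * starRingEnd ℂ (χ g) =
        ∑ g : G, (fun g => χ (g ^ N)) g * χ g⁻¹ :=
      Finset.sum_congr rfl fun g _ => by rw [H94.irr_star hI]
    rw [h2]
    by_cases h : ∀ g, χ (g ^ N) = χ g
    · rw [if_pos h]
      have h3 : (fun g => χ (g ^ N)) = χ := funext h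
      rw [h3, irr_orth_self hI]
    · rw [if_neg h, irr_orth_ne hI' hI]
      intro h3
      exact h fun g => congrFun h3 g
  have h2 : (Fintype.card G : ℂ) *
      ({χ | χ ∈ IrrE M e ∧ ∀ g, χ (g ^ N) = χ g}.ncard : ℂ) =
      ∑ g : G, ∑ χ ∈ S, χ (g ^ N) * starRingEnd ℂ (χ g) := by
    rw [Finset.sum_comm, Finset.sum_congr rfl h1, ← Finset.sum_filter, Finset.sum_const, hset,
      Set.ncard_coe_finset, nsmul_eq_mul, mul_comm]
  have h3 := sing_sum (ℓ := ℓ) (G := G) (fun g => ∑ χ ∈ S, χ (g ^ N) * starRingEnd ℂ (χ g)) (by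
    intro y hy1 hy
    rw [← fxy_sum trg cyc smg rot ℓ M hM G N hN.cop e he y hy1 hy (hcj y hy1 hy)]
    refine finsum_congr fun s => finsum_congr fun hs => ?_
    rw [hF]
    refine Finset.sum_congr rfl fun χ _ => ?_
    have hc : Commute y s := (show Commute s y from
      Subgroup.mem_centralizer_singleton_iff.1 hs.1).symm
    rw [hc.mul_pow, hN.reg s hs.2])
  have e0 : ∀ (p : G → Prop) [DecidablePred p] (f : G → ℂ), ∑ᶠ (g : G) (_ : p g), f g =
      ∑ g ∈ Finset.univ.filter p, f g := by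
    intro p _ f
    rw [finsum_eq_sum_of_fintype, Finset.sum_filter]
    exact Finset.sum_congr rfl fun g _ => finsum_eq_if
  rw [e0] at h3
  have h4 : (Fintype.card G : ℂ) *
      ({χ | χ ∈ IrrE M e ∧ ∀ g, χ (g ^ N) = χ g}.ncard : ℂ) =
      ∑ᶠ (s : G) (_ : Reg ℓ s), ∑ᶠ χ ∈ IrrE M e, χ s * starRingEnd ℂ (χ s) := by
    rw [h2, ← Finset.sum_filter_add_sum_filter_not Finset.univ (fun g => Reg ℓ g), h3, add_zero,
      e0]
    refine Finset.sum_congr rfl fun s hs => ?_
    rw [Finset.mem_filter] at hs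
    rw [hF, hN.reg s hs.2]
  rw [← h4, Nat.card_eq_fintype_card, inv_mul_cancel_left₀ hc]

end Pool.Agent.PP.T3.H98
end
end -- Pool.Agent.Helper98_AT3.FIX
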