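import Pool.Agent.Helper12_AWB.B119
import Pool.Agent.Helper12_AWB.B125
import Pool.Agent.Helper12_AWB.B167

/-!
# Merged copies (generated) of the modules

* `Pool.Agent.Helper56_AT3.SMG`
* `Pool.Agent.Helper16_AT6.SMH`
* `Pool.Agent.Helper62_ATZ.HTZ`
* `Pool.Agent.Helper89_ATZ.PJZ`
-/

set_option autoImplicit false

section -- Pool.Agent.Helper56_AT3.SMG

/-!
# Squad AT3, row SMG: the second main theorem for all `ℓ`-elements
-/

open scoped BigOperators

set_option linter.unusedSectionVars false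

noncomputable section

namespace Pool.Agent.PP.T3.H56

open Pool.Agent.Helper51_AWC Pool.Agent.Helper79_WRA Pool.Agent.PP Pool.Agent.PP.KF
open Pool.Agent.PP.K9 Pool.Agent.PP.KF.H71 Pool.Agent.PP.KF.H92 Pool.Agent.PP.K9.H10

attribute [local instance] Ideal.Quotient.field

section ring

variable {F : Type} [Field F] {G : Type} [Group G] [Fintype G] [DecidableEq G]

theorem Km_sum (q : ℕ) (a : ℕ → G → F) (b : G → F) :
    ∑ i ∈ Finset.range q, Km (a i) b = Km (∑ i ∈ Finset.range q, a i) b := by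
  ext x y
  rw [Matrix.sum_apply]
  simp only [Km_apply, Finset.sum_apply, Finset.sum_mul]
  rw [Finset.sum_comm]

end ring

theorem part1 (trg : TrgStmt) (cyc : CycStmt) (ℓ : ℕ) [Fact ℓ.Prime]
    (M : Ideal (integralClosure ℤ ℂ)) [M.IsMaximal] (hM : (ℓ : integralClosure ℤ ℂ) ∈ M)
    (G : Type) [Group G] [Finite G] (y s : G) (hy1 : y ≠ 1) (hy : El ℓ y) (hs : s ∈ Cu y)
    (hsr : Reg ℓ s) (b : Cu y → FF M) (hb : IsIdem b) (e : G → FF M) (he : IsIdem e)
    (heb : mulF (fun t : Cu y => e t) b = b) :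
    ∀ χ ∈ Irr G, χ ∉ IrrE M e → gbv (Cu y) (y * s) (eh M b) χ = 0 := by
  classical
  have hℓ : ℓ.Prime := Fact.out
  have := Fintype.ofFinite G
  obtain ⟨n, hyn⟩ := hy
  have hyC : y ∈ Cu y := u_mem y
  have hm0 : 0 < orderOf s := orderOf_pos s
  have hml : ¬ ℓ ∣ orderOf s := (Nat.Prime.coprime_iff_not_dvd hℓ).1 (Nat.Coprime.symm hsr)
  have hcomm : Commute y s := by
    have := (Subgroup.mem_centralizer_iff.1 hs) y (Set.mem_singleton y)
    exact this
  obtain ⟨h1, h2, -⟩ := KF.H25.idm M (Cu y) b hb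
  obtain ⟨k1, k2, k3⟩ := KF.H25.idm M G e he
  have hone : ∀ {F : Type} [Field F] (a : G → F), mulF a (dl F (1 : G)) = a := by
    intro F _ a
    rw [← H20.mulF_comm_of_cl dl_cl, dl_one_mulF]
  set g : G := y * s with hg
  -- over the complex numbers
  set E : G → ℂ := eh M e with hE
  set bh : Cu y → ℂ := eh M b with hbh
  set B : G → ℂ := PP.ext0 (Cu y) bh with hB
  set f : G → ℂ := dl ℂ (1 : G) - E with hf
  have hfc : IsCl f := H20.isCl_sub dl_cl k2.1
  have hff : mulF f f = f := by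
    rw [hf, H20.mulF_sub, hone, H20.sub_mulF, dl_one_mulF, k2.2, sub_self, sub_zero]
  have hBB : mulF B B = B := e0_idem y bh h2.2
  have hBz : ∀ z ∈ Cu y, mulF B (dl ℂ z) = mulF (dl ℂ z) B := fun z hz => dl_comm' y bh h2.1 hz
  have hfB : mulF (mulF f B) (mulF f B) = mulF f B := cl_idem hfc hff hBB
  set P : Matrix G G ℂ := Km (mulF f B) B with hP
  set U : Matrix G G ℂ := Km (dl ℂ y) (dl ℂ y⁻¹) with hU
  set W : Matrix G G ℂ := Km (dl ℂ y⁻¹) (dl ℂ (y⁻¹)⁻¹) with hW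
  set V : Matrix G G ℂ := Km (dl ℂ s) (dl ℂ s⁻¹) with hV
  -- the half transversal
  set σ : Equiv.Perm G := MulAut.toPerm G (MulAut.conj y⁻¹) with hσdef
  have hσ : ∀ (k : ℕ) (x : G), (σ ^ k) x = (y ^ k)⁻¹ * x * y ^ k := by
    intro k x
    rw [hσdef, ← map_pow, ← map_pow]
    change (y⁻¹) ^ k * x * ((y⁻¹) ^ k)⁻¹ = _
    rw [inv_pow, inv_inv]
  obtain ⟨c, hc01, hcl, hcs⟩ := cyc ℓ G σ n (by
    ext x
    rw [hσ, hyn]
    simp)
  have hcl' : ∀ x, c ((y ^ ℓ)⁻¹ * x * y ^ ℓ) = c x := by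
    intro x
    rw [← hσ]
    exact hcl x
  set β' : G → ℂ := fun x => (c x : ℂ) * mulF f B x with hβ'
  set X : Matrix G G ℂ := Km β' B with hX
  -- commutation
  have hzP : ∀ z ∈ Cu y, Km (dl ℂ z) (dl ℂ z⁻¹) * P = P * Km (dl ℂ z) (dl ℂ z⁻¹) := by
    intro z hz
    rw [hP, Km_mul, Km_mul, ← hBz z⁻¹ ((Cu y).inv_mem hz), H20.mulF_assoc f B, hBz z hz,
      ← H20.mulF_assoc, ← H20.mulF_assoc, ← H20.mulF_comm_of_cl hfc]
  have hPP : P * P = P := by
    rw [hP, Km_mul, hfB, hBB]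
  have hUV : U * V = Km (dl ℂ g) (dl ℂ g⁻¹) := by
    rw [hU, hV, Km_mul, dl_dl, dl_dl, ← mul_inv_rev]
  have hVU : U * V = V * U := by
    rw [hUV, hU, hV, Km_mul, dl_dl, dl_dl, ← mul_inv_rev, ← hcomm.eq]
  have hUW : U * W = 1 := by
    rw [hU, hW, Km_mul, dl_dl, dl_dl, mul_inv_cancel, inv_inv, mul_inv_cancel, Km_one]
  have hVm : V ^ orderOf s = 1 := by
    rw [hV, Km_dl_pow, pow_orderOf_eq_one, inv_one, Km_one]
  -- conjugation by the powers of `y`
  have hβy : ∀ (i : ℕ) (x : G), mulF f B ((y ^ i)⁻¹ * x * y ^ i) = mulF f B x := by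
    intro i x
    have hz : y ^ i ∈ Cu y := (Cu y).pow_mem hyC i
    have q : mulF (dl ℂ (y ^ i)) (mulF (mulF f B) (dl ℂ (y ^ i)⁻¹)) = mulF f B := by
      rw [H20.mulF_assoc, hBz _ ((Cu y).inv_mem hz), ← H20.mulF_assoc f,
        H20.mulF_comm_of_cl hfc, H20.mulF_assoc, ← H20.mulF_assoc (dl ℂ (y ^ i)), dl_dl,
        mul_inv_cancel, dl_one_mulF, H20.mulF_comm_of_cl hfc]
    have q1 := congrFun q x
    rw [H75.mulF_dl_left, H75.mulF_dl_right, inv_inv] at q1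
    exact q1
  have hβ'z : mulF β' (dl ℂ (y ^ ℓ)) = mulF (dl ℂ (y ^ ℓ)) β' := by
    funext x
    rw [H75.mulF_dl_left, H75.mulF_dl_right]
    simp only [hβ']
    have e1 := hcl' (x * (y ^ ℓ)⁻¹)
    have e2 := hβy ℓ (x * (y ^ ℓ)⁻¹)
    have e3 : (y ^ ℓ)⁻¹ * (x * (y ^ ℓ)⁻¹) * y ^ ℓ = (y ^ ℓ)⁻¹ * x := by group
    rw [e3] at e1 e2
    rw [e1, e2]
  have hXU : X * U ^ ℓ = U ^ ℓ * X := by
    have hz : y ^ ℓ ∈ Cu y := (Cu y).pow_mem hyC ℓ
    rw [hU, Km_dl_pow, hX, Km_mul, Km_mul, hβ'z, hBz _ ((Cu y).inv_mem hz)]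
  -- the reductions
  set f' : G → FF M := dl (FF M) (1 : G) - e with hf'
  set B' : G → FF M := PP.ext0 (Cu y) b with hB'
  have hfr : ∀ g, f g ∈ RM M ∧ rr M (f g) = f' g := by
    intro g
    rw [hf, hf', Pi.sub_apply, Pi.sub_apply]
    refine ⟨(RM M).sub_mem (dl_RM _ _).1 (k1 g).1, ?_⟩
    rw [rr_sub (dl_RM _ _).1 (k1 g).1, (dl_RM _ _).2, (k1 g).2]
  have hBr : ∀ g, B g ∈ RM M ∧ rr M (B g) = B' g := by
    intro g
    by_cases hg : g ∈ Cu y
    · rw [hB, hB', e0_app y bh ⟨g, hg⟩, e0_app y b ⟨g, hg⟩]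
      exact h1 _
    · rw [hB, hB', e0_supp y bh g hg, e0_supp y b g hg]
      exact ⟨(RM M).zero_mem, rr_zero⟩
  have hff' : (fun g => rr M (f g)) = f' := funext fun g => (hfr g).2
  have hBB' : (fun g => rr M (B g)) = B' := funext fun g => (hBr g).2
  have hfBr : ∀ g, mulF f B g ∈ RM M := fun g =>
    (mulF_RM (fun g => (hfr g).1) (fun g => (hBr g).1) g).1
  set al : G → FF M := mulF f' B' with hal
  have hfBr1 : ∀ g, rr M (mulF f B g) = al g := by
    intro g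
    rw [(mulF_RM (fun g => (hfr g).1) (fun g => (hBr g).1) g).2, hff', hBB']
  have hfBr' : (fun g => rr M (mulF f B g)) = al := funext hfBr1
  have hβr : ∀ g, β' g ∈ RM M ∧ rr M (β' g) = (c g : FF M) * al g := by
    intro g
    rcases hc01 g with h | h
    · simp only [hβ', h, Nat.cast_zero, zero_mul]
      exact ⟨(RM M).zero_mem, rr_zero⟩
    · simp only [hβ', h, Nat.cast_one, one_mul]
      exact ⟨hfBr g, hfBr1 g⟩
  have hβr' : (fun g => rr M (β' g)) = fun g => (c g : FF M) * al g := funext fun g => (hβr g).2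
  have hdlr : ∀ z : G, (fun g => rr M (dl ℂ z g)) = dl (FF M) z := fun z =>
    funext fun g => (dl_RM z g).2
  have hPR : ∀ i j, P i j ∈ RM M := fun i j => Km_RM hfBr (fun g => (hBr g).1) i j
  have hXR : ∀ i j, X i j ∈ RM M := fun i j => Km_RM (fun g => (hβr g).1) (fun g => (hBr g).1) i j
  have hzR : ∀ z : G, ∀ i j, Km (dl ℂ z) (dl ℂ z⁻¹) i j ∈ RM M := fun z i j =>
    Km_RM (fun g => (dl_RM z g).1) (fun g => (dl_RM z⁻¹ g).1) i j
  have hPm : P.map (rr M) = Km al B' := by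
    rw [hP, Km_map hfBr (fun g => (hBr g).1), hfBr', hBB']
  have hXm : X.map (rr M) = Km (fun g => (c g : FF M) * al g) B' := by
    rw [hX, Km_map (fun g => (hβr g).1) (fun g => (hBr g).1), hβr', hBB']
  have hzm : ∀ z : G, (Km (dl ℂ z) (dl ℂ z⁻¹)).map (rr M) = Km (dl (FF M) z) (dl (FF M) z⁻¹) := by
    intro z
    rw [Km_map (fun g => (dl_RM z g).1) (fun g => (dl_RM z⁻¹ g).1), hdlr, hdlr]
  have hBz' : ∀ z ∈ Cu y, mulF B' (dl (FF M) z) = mulF (dl (FF M) z) B' := fun z hz =>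
    dl_comm' y b hb.1 hz
  have hali : ∀ (i : ℕ) (x : G), al ((y ^ i)⁻¹ * x * y ^ i) = al x := by
    intro i x
    rw [← hfBr1, ← hfBr1, hβy]
  have haC : ∀ g ∈ Cu y, al g = 0 := al_zero y b e he.1 hb.1 heb
  have hterm : ∀ i : ℕ, U.map (rr M) ^ i * X.map (rr M) * W.map (rr M) ^ i =
      Km (fun x => (c ((y ^ i)⁻¹ * x * y ^ i) : FF M) * al x) B' := by
    intro i
    have hz : y ^ i ∈ Cu y := (Cu y).pow_mem hyC i
    rw [hU, hW, hzm, hzm, hXm, Km_dl_pow, Km_dl_pow, Km_mul, Km_mul, inv_pow, inv_inv,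
      hBz' _ ((Cu y).inv_mem hz), ← H20.mulF_assoc (dl (FF M) (y ^ i)), dl_dl, mul_inv_cancel,
      dl_one_mulF]
    congr 1
    funext x
    rw [H75.mulF_dl_right, H75.mulF_dl_left, inv_inv]
    have e1 : (y ^ i)⁻¹ * (x * y ^ i) = (y ^ i)⁻¹ * x * y ^ i := by group
    rw [e1]
    change (c ((y ^ i)⁻¹ * x * y ^ i) : FF M) * al ((y ^ i)⁻¹ * x * y ^ i) = _
    rw [hali]
  have hsumX : ∑ i ∈ Finset.range ℓ, U.map (rr M) ^ i * X.map (rr M) * W.map (rr M) ^ i =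
      P.map (rr M) := by
    rw [Finset.sum_congr rfl fun i _ => hterm i, Km_sum, hPm]
    congr 1
    funext x
    rw [Finset.sum_apply, ← Finset.sum_mul, ← Nat.cast_sum]
    by_cases hx : σ x = x
    · have hxC : x ∈ Cu y := by
        rw [Subgroup.mem_centralizer_singleton_iff]
        have e1 := hσ 1 x
        rw [pow_one, pow_one, hx] at e1
        calc x * y = ((y⁻¹ * x * y) * y) := by rw [← e1]
          _ = y * x := by
            have e2 : y * x = x * y := by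
              conv_lhs => rw [e1]
              group
            rw [← e1, e2]
      rw [haC x hxC, mul_zero]
    · have e1 := hcs x hx
      have e2 : ∑ i ∈ Finset.range ℓ, c ((y ^ i)⁻¹ * x * y ^ i) = 1 := by
        rw [← e1]
        exact Finset.sum_congr rfl fun i _ => by rw [hσ]
      rw [e2, Nat.cast_one, one_mul]
  have hPPm : P.map (rr M) * P.map (rr M) = P.map (rr M) := by
    rw [← map_rr_mul hPR hPR, hPP]
  have key := trg ℓ M hM G P U W V X (orderOf s) hm0 hml hPR (hzR y) (hzR y⁻¹) (hzR s) hXR hPP hUW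
    hVm (hzP y hyC) (hzP s hs) hVU hXU (by rw [hsumX, hPPm, hPPm])
  -- the sum is a trace
  have hUVP : U * V * P = Km (mulF (dl ℂ g) (mulF f B)) (mulF B (dl ℂ g⁻¹)) := by
    rw [hUV, hP, Km_mul]
  rw [hUVP] at key
  have htr : (Km (mulF (dl ℂ g) (mulF f B)) (mulF B (dl ℂ g⁻¹))).trace =
      ∑ᶠ χ ∈ Irr G, chv (mulF (dl ℂ g) (mulF f B)) χ * chv (mulF B (dl ℂ g⁻¹)) χ := by
    rw [KF.trc G, finsum_eq_sum_of_fintype, Matrix.trace]
    refine Finset.sum_congr rfl fun x _ => ?_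
    rw [Matrix.diag_apply, finsum_eq_sum_of_fintype, Km_apply]
  rw [htr] at key
  have hgfB : mulF (dl ℂ g) (mulF f B) = mulF f (mulF (dl ℂ g) B) := by
    rw [← H20.mulF_assoc, ← H20.mulF_comm_of_cl hfc, H20.mulF_assoc]
  have q1 : ∀ χ ∈ Irr G, χ ∉ IrrE M e → chv (mulF (dl ℂ g) (mulF f B)) χ *
      chv (mulF B (dl ℂ g⁻¹)) χ = ((Complex.normSq (gbv (Cu y) g bh χ) : ℝ) : ℂ) := by
    intro χ hχ hne
    have hr : res M e χ ≠ 1 := fun h => hne ⟨hχ, h⟩
    have e1 : chv (mulF (dl ℂ g) (mulF f B)) χ = gbv (Cu y) g bh χ := by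
      rw [hgfB, hf, H20.sub_mulF, dl_one_mulF, chv_sub, (k3 χ hχ _).2 hr, sub_zero, hB,
        chv_left]
    have e2 : chv (mulF B (dl ℂ g⁻¹)) χ = starRingEnd ℂ (gbv (Cu y) g bh χ) := by
      rw [hB, chv_right, hbh, gbv_conj y g b hχ]
    rw [e1, e2, Complex.mul_conj]
  have q2 : ∀ χ ∈ Irr G, χ ∈ IrrE M e → chv (mulF (dl ℂ g) (mulF f B)) χ *
      chv (mulF B (dl ℂ g⁻¹)) χ = 0 := by
    intro χ hχ hin
    have e1 : chv (mulF (dl ℂ g) (mulF f B)) χ = 0 := by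
      rw [hgfB, hf, H20.sub_mulF, dl_one_mulF, chv_sub, (k3 χ hχ _).1 hin.2, sub_self]
    rw [e1, zero_mul]
  let r : (G → ℂ) → ℝ := fun χ => if χ ∈ IrrE M e then 0 else
    Complex.normSq (gbv (Cu y) g bh χ)
  have hr0 : ∀ χ, 0 ≤ r χ := by
    intro χ
    simp only [r]
    split_ifs
    · exact le_rfl
    · exact Complex.normSq_nonneg _
  have hsum : ∑ χ ∈ (irr_finite' (G := G)).toFinset, r χ = 0 := by
    rw [finsum_mem_eq_finite_toFinset_sum _ (irr_finite' (G := G))] at key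
    have e1 : ((∑ χ ∈ (irr_finite' (G := G)).toFinset, r χ : ℝ) : ℂ) = 0 := by
      rw [← key, Complex.ofReal_sum]
      refine Finset.sum_congr rfl fun χ hχ => ?_
      have hχ' : χ ∈ Irr G := (Set.Finite.mem_toFinset _).1 hχ
      by_cases hin : χ ∈ IrrE M e
      · rw [q2 χ hχ' hin]
        simp only [r]
        rw [if_pos hin, Complex.ofReal_zero]
      · rw [q1 χ hχ' hin]
        simp only [r]
        rw [if_neg hin]
    exact_mod_cast e1
  intro χ hχ hne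
  have e1 := (Finset.sum_eq_zero_iff_of_nonneg fun χ _ => hr0 χ).1 hsum χ
    ((Set.Finite.mem_toFinset _).2 hχ)
  simp only [r] at e1
  rw [if_neg hne] at e1
  exact Complex.normSq_eq_zero.1 e1

theorem smg (trg : TrgStmt) (cyc : CycStmt) : SmgStmt := by
  intro ℓ _ M _ hM G _ _ y s hy1 hy hs hsr b hb e he
  refine ⟨part1 trg cyc ℓ M hM G y s hy1 hy hs hsr b hb e he, ?_⟩
  intro heb χ hχ
  classical
  have := Fintype.ofFinite G
  set e' : G → FF M := dl (FF M) (1 : G) - e with he'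
  have hone : ∀ a : G → FF M, mulF a (dl (FF M) (1 : G)) = a := by
    intro a
    rw [← H20.mulF_comm_of_cl dl_cl, dl_one_mulF]
  have hid : IsIdem e' := by
    refine ⟨H20.isCl_sub dl_cl he.1, ?_⟩
    rw [he', H20.mulF_sub, hone, H20.sub_mulF, dl_one_mulF, he.2, sub_self, sub_zero]
  have hee : mulF e e' = 0 := by
    rw [he', H20.mulF_sub, hone, he.2, sub_self]
  have heb' : mulF (fun t : Cu y => e' t) b = b := by
    have h2 : (fun t : Cu y => e' t) = dl (FF M) (1 : Cu y) - (fun t : Cu y => e t) := by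
      funext t
      simp only [he', Pi.sub_apply]
      congr 1
      unfold dl
      by_cases ht : t = 1
      · rw [if_pos ht, if_pos (by rw [ht]; rfl)]
      · rw [if_neg ht, if_neg]
        exact fun h' => ht (Subtype.ext h')
    rw [h2, H20.sub_mulF, heb, sub_zero, dl_one_mulF]
  refine part1 trg cyc ℓ M hM G y s hy1 hy hs hsr b hb e' hid heb' χ hχ.1 ?_
  intro hin
  have h3 := H75.res_mulF hχ.1 he.1 hid.1
  rw [hee, H75.res_zero, hχ.2, hin.2, mul_one] at h3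
  exact zero_ne_one h3

end Pool.Agent.PP.T3.H56
end
end -- Pool.Agent.Helper56_AT3.SMG

section -- Pool.Agent.Helper16_AT6.SMH

/-!
# Squad AT6, row SMH: the second main theorem for class functions
-/

open scoped BigOperators

set_option linter.unusedSectionVars false

noncomputable section

namespace Pool.Agent.PP.T6.H16

open Pool.Agent.Helper51_AWC Pool.Agent.Helper79_WRA Pool.Agent.PP Pool.Agent.PP.KF
open Pool.Agent.PP.K9 Pool.Agent.PP.K9.H97 Pool.Agent.PP.H75 Pool.Agent.PP.T3 Pool.Agent.PP.T2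
open Pool.Agent.PP.KF.H92

attribute [local instance] Ideal.Quotient.field

section base

variable {M : Ideal (integralClosure ℤ ℂ)} [M.IsMaximal] {G : Type} [Group G] [Finite G]

/-- the value of an irreducible character at `z ê` -/
theorem fv_eh (e : G → FF M) {χ : G → ℂ} (hχ : χ ∈ Irr G) (z : G) :
    (χ ∈ IrrE M e → T8.fv (eh M e) z χ = χ z) ∧ (χ ∉ IrrE M e → T8.fv (eh M e) z χ = 0) := by
  classical
  have := Fintype.ofFinite G
  have h1 : T8.fv (eh M e) z χ = H50.om (eh M e) χ * χ z := by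
    unfold T8.fv
    rw [finsum_eq_sum_of_fintype, ← H50.eigen (KF.H25.eh_cl e) hχ z]
    refine Finset.sum_congr rfl fun t _ => ?_
    congr 1
    have h2 := irr_conj hχ (g := t * z) (h := z)
    rw [← h2]
    congr 1
    group
  constructor
  · intro h
    rw [h1, (KF.H25.eh_om e hχ).1 h, one_mul]
  · intro h
    rw [h1, (KF.H25.eh_om e hχ).2 h, zero_mul]

/-- the whole group -/
theorem gv_one (e : G → FF M) (he : IsCl e) (z : G) (χ : G → ℂ) :
    gv M (Cu (1 : G)) z e χ = T8.fv (eh M e) z χ := by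
  classical
  have := Fintype.ofFinite G
  have := Fintype.ofFinite (Cu (1 : G))
  have htop : Cu (1 : G) = ⊤ := by
    rw [eq_top_iff]
    intro x _
    rw [Subgroup.mem_centralizer_singleton_iff]
    simp
  obtain ⟨φ, hφ⟩ : ∃ φ : Cu (1 : G) ≃* G, ∀ t : Cu (1 : G), φ t = (t : G) :=
    ⟨(MulEquiv.subgroupCongr htop).trans Subgroup.topEquiv, fun t => rfl⟩
  have hb : IsCl (fun t : Cu (1 : G) => e t) := fun x y => he x y
  unfold gv gbv T8.fv
  rw [finsum_eq_sum_of_fintype, finsum_eq_sum_of_fintype, ← Equiv.sum_comp φ.toEquiv]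
  refine Finset.sum_congr rfl fun t _ => ?_
  have h1 := T3.H62.eh_equiv φ hb t
  have h2 : (fun y => (fun t : Cu (1 : G) => e t) (φ.symm y)) = e := by
    funext y
    have h3 := hφ (φ.symm y)
    rw [MulEquiv.apply_symm_apply] at h3
    exact congrArg e h3.symm
  rw [h2] at h1
  have h4 : φ.toEquiv t = (t : G) := hφ t
  rw [← h1, h4, hφ t]

theorem gbv_add {C : Subgroup G} (z : G) (p r : C → ℂ) (χ : G → ℂ) :
    gbv C z (p + r) χ = gbv C z p χ + gbv C z r χ := by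
  have := Fintype.ofFinite C
  unfold gbv
  rw [finsum_eq_sum_of_fintype, finsum_eq_sum_of_fintype, finsum_eq_sum_of_fintype,
    ← Finset.sum_add_distrib]
  refine Finset.sum_congr rfl fun t _ => ?_
  rw [Pi.add_apply, add_mul]

theorem gbv_one {C : Subgroup G} (z : G) (χ : G → ℂ) :
    gbv C z (dl ℂ (1 : C)) χ = χ z := by
  classical
  have := Fintype.ofFinite C
  unfold gbv
  rw [finsum_eq_sum_of_fintype, Finset.sum_eq_single (1 : C)]
  · unfold dl
    rw [if_pos rfl, one_mul, Subgroup.coe_one, mul_one]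
  · intro t _ ht
    unfold dl
    rw [if_neg ht, zero_mul]
  · intro h
    exact absurd (Finset.mem_univ _) h

end base

/-- SMH: the second main theorem for class functions. -/
theorem smh (smg : T3.SmgStmt) : SmhStmt := by
  intro ℓ hℓ M _ hM G _ _ e he x hx s hs hsr θ hθ
  classical
  have := Fintype.ofFinite G
  have := Fintype.ofFinite (Cu x)
  have key : ∀ χ ∈ Irr G, T8.fv (eh M e) (x * s) χ = gv M (Cu x) (x * s) e χ := by
    intro χ hχ
    by_cases hx1 : x = 1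
    · subst hx1
      rw [gv_one e he.1]
    · have hF : GoodF ℓ (FF M) := H50.fld ℓ Fact.out M hM
      have hid : IsIdem (fun t : Cu x => e t) := T3.H98.idem_cu hF he hx
      set E : Cu x → FF M := fun t => e t with hE
      set E' : Cu x → FF M := dl (FF M) (1 : Cu x) - E with hE'
      have hone : ∀ a : Cu x → FF M, mulF a (dl (FF M) (1 : Cu x)) = a := by
        intro a
        rw [← H20.mulF_comm_of_cl dl_cl, dl_one_mulF]
      have hid' : IsIdem E' := by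
        refine ⟨H20.isCl_sub dl_cl hid.1, ?_⟩
        rw [hE', H20.mulF_sub, hone, H20.sub_mulF, dl_one_mulF, hid.2, sub_self, sub_zero]
      have hEE : mulF E E' = 0 := by
        rw [hE', H20.mulF_sub, hone, hid.2, sub_self]
      have hsum : eh M E + eh M E' = dl ℂ (1 : Cu x) := by
        rw [← T3.H98.eh_add hid hid' hEE, hE', add_sub_cancel, T3.H98.eh_one]
      have h1 : gbv (Cu x) (x * s) (eh M E) χ + gbv (Cu x) (x * s) (eh M E') χ = χ (x * s) := by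
        rw [← gbv_add, hsum, gbv_one]
      have h2 : gv M (Cu x) (x * s) e χ = gbv (Cu x) (x * s) (eh M E) χ := rfl
      rw [h2]
      by_cases hin : χ ∈ IrrE M e
      · rw [(fv_eh e hχ _).1 hin, ← h1,
          (smg ℓ M hM G x s hx1 hx hs hsr E' hid' e he).2 hEE χ hin, add_zero]
      · rw [(fv_eh e hχ _).2 hin,
          (smg ℓ M hM G x s hx1 hx hs hsr E hid e he).1 hid.2 χ hχ hin]
  have hspan := T3.H98.span_irr hθ
  have hfv : ∀ f : G → ℂ, T8.fv (eh M e) (x * s) f = ∑ t, eh M e t * f (x * s * t) := fun f =>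
    finsum_eq_sum_of_fintype _
  have hgv : ∀ f : G → ℂ, gv M (Cu x) (x * s) e f =
      ∑ t : Cu x, eh M (fun t : Cu x => e t) t * f (x * s * t) := fun f =>
    finsum_eq_sum_of_fintype _
  clear hθ
  induction hspan using Submodule.span_induction with
  | mem χ hχ => exact key χ hχ
  | zero =>
    rw [hfv, hgv, Finset.sum_eq_zero, Finset.sum_eq_zero]
    · intro t _
      rw [Pi.zero_apply, mul_zero]
    · intro t _
      rw [Pi.zero_apply, mul_zero]
  | add f g _ _ h1 h2 =>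
    rw [hfv, hgv] at h1 h2 ⊢
    simp only [Pi.add_apply, mul_add, Finset.sum_add_distrib]
    rw [h1, h2]
  | smul a f _ h1 =>
    rw [hfv, hgv] at h1 ⊢
    have e1 : ∀ u v : ℂ, u * (a * v) = a * (u * v) := fun u v => by ring
    simp only [Pi.smul_apply, smul_eq_mul, e1]
    rw [← Finset.mul_sum, ← Finset.mul_sum, h1]

end Pool.Agent.PP.T6.H16
end
end -- Pool.Agent.Helper16_AT6.SMH

section -- Pool.Agent.Helper62_ATZ.HTZ

/-!
# Squad ATZ, row HTZ: the heights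
-/

open scoped BigOperators

noncomputable section

namespace Pool.Agent.PP.TB.H62

open Pool.Agent.Helper51_AWC Pool.Agent.Helper79_WRA Pool.Agent.PP Pool.Agent.PP.KF
open Pool.Agent.PP.K9 Pool.Agent.PP.K9.H97 Pool.Agent.PP.H75 Pool.Agent.PP.T3 Pool.Agent.PP.T2
open Pool.Agent.PP.T5 Pool.Agent.PP.TB

attribute [local instance] Ideal.Quotient.field

theorem card_cop {ℓ a : ℕ} (hℓ : ℓ.Prime) (ha : 0 < a) :
    ((Finset.range (ℓ ^ a)).filter (fun j => ¬ ℓ ∣ j)).card = ℓ ^ (a - 1) * (ℓ - 1) := by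
  rw [← Nat.totient_prime_pow hℓ ha, Nat.totient_eq_card_coprime]
  congr 1
  apply Finset.filter_congr
  intro j _
  rw [Nat.coprime_pow_left_iff ha, Nat.Prime.coprime_iff_not_dvd hℓ]

/-- the powers with exponent prime to the order -/
theorem sum_pow {Z : Type} [Group Z] [Fintype Z] (f : Z → ℝ) {j : ℕ}
    (hj : (Nat.card Z).Coprime j) : ∑ z, f (z ^ j) = ∑ z, f z :=
  Fintype.sum_equiv (powCoprime hj) _ _ fun _ => rfl

theorem htz (hzcp : ZcpStmt) (hxch : XchStmt) (hzin : ZinStmt) (hpoz : PozStmt)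
    (hpjz : PjzStmt) (hnrz : NrzStmt) : HtzStmt := by
  intro ℓ hℓ M _ hM G _ _ e V Z γ b hD χ hχ h hint
  classical
  have := Fintype.ofFinite G
  have := Fintype.ofFinite Z
  have hpr : ℓ.Prime := Fact.out
  obtain ⟨-, hpow, -, hiz0, -, hcz0, -⟩ := hzcp ℓ M hM G e V Z γ b hD
  have hZp : IsPGroup ℓ Z := hD.tp.pg.to_le hD.le
  obtain ⟨n, hn⟩ := IsPGroup.iff_card.1 hZp
  obtain ⟨a, ha, han⟩ : ∃ a : ℕ, 0 < a ∧ a = n + 1 := ⟨n + 1, Nat.succ_pos n, rfl⟩
  have hza : ∀ z ∈ Z, z ^ ℓ ^ a = 1 := by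
    intro z hz
    have h1 : (⟨z, hz⟩ : Z) ^ Nat.card Z = 1 := pow_card_eq_one'
    have h2 : z ^ Nat.card Z = 1 := congrArg Subtype.val h1
    rw [han, pow_succ, pow_mul, ← hn, h2, one_pow]
  set ζ : ℂ := Complex.exp (2 * Real.pi * Complex.I / (ℓ ^ a : ℕ)) with hζd
  have hζ : IsPrimitiveRoot ζ (ℓ ^ a) := Complex.isPrimitiveRoot_exp _ (pow_pos hpr.pos a).ne'
  have hχ1 : χ 1 ≠ 0 := irr_one_ne hχ.1
  have hG0 : (Nat.card G : ℂ) ≠ 0 := Nat.cast_ne_zero.2 Nat.card_pos.ne'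
  have hl0 : (ℓ : ℂ) ^ h ≠ 0 := pow_ne_zero _ (Nat.cast_ne_zero.2 hpr.ne_zero)
  have hV0 : 0 < Nat.card V := Nat.card_pos
  -- the values
  have hmm : ∀ w : G, ∃ x : ℝ, w ∈ Z → 0 < x ∧ mm M ℓ (Cu w) w (b w) χ χ = (x : ℂ) := by
    intro w
    by_cases hw : w ∈ Z
    · obtain ⟨x, hx⟩ := (hpoz ℓ M hM G e V Z γ b hD w hw).2 χ hχ
      exact ⟨x, fun _ => hx⟩
    · exact ⟨0, fun h => absurd h hw⟩
  choose X hX using hmm
  set y : G → ℝ := fun w => (Nat.card V : ℝ) * (cz V Z γ w : ℝ) * X w with hy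
  have hypos : ∀ w ∈ Z, 0 < y w := by
    intro w hw
    exact mul_pos (mul_pos (Nat.cast_pos.2 hV0) (Nat.cast_pos.2 (hcz0 w hw))) (hX w hw).1
  have hyc : ∀ w ∈ Z, (y w : ℂ) =
      (Nat.card V : ℂ) * (cz V Z γ w : ℂ) * mm M ℓ (Cu w) w (b w) χ χ := by
    intro w hw
    rw [(hX w hw).2, hy]
    push_cast
    rfl
  -- one element
  have key : ∀ z ∈ Z, ((ℓ ^ (a - 1) * (ℓ - 1) * ℓ ^ h : ℕ) : ℝ) ≤
      ∑ j ∈ (Finset.range (ℓ ^ a)).filter (fun j => ¬ ℓ ∣ j), y (z ^ j) := by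
    intro z hz
    obtain ⟨m, hm⟩ := hzin ℓ M hM G e V Z γ b hD z hz a ha (hza z hz) ζ hζ χ hχ.1 χ hχ.1
    refine hnrz ℓ M hM a h ha ζ hζ (fun i => (cz V Z γ z : ℤ) * m i) (fun j => y (z ^ j)) ?_ ?_
    · intro j hj
      have hzj : z ^ j ∈ Z := Z.pow_mem hz j
      refine ⟨hypos _ hzj, ?_⟩
      have h1 := hm j hj
      have h2 := (hpow z hz j hj).2.2
      change (y (z ^ j) : ℂ) = _
      rw [hyc _ hzj, h2]
      have h3 : (Nat.card V : ℂ) * (cz V Z γ z : ℂ) *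
          mm M ℓ (Cu (z ^ j)) (z ^ j) (b (z ^ j)) χ χ =
          (cz V Z γ z : ℂ) * ((Nat.card V : ℂ) *
            mm M ℓ (Cu (z ^ j)) (z ^ j) (b (z ^ j)) χ χ) := by ring
      rw [h3, h1, Finset.mul_sum]
      refine Finset.sum_congr rfl fun i _ => ?_
      push_cast
      ring
    · intro j _
      have hzj : z ^ j ∈ Z := Z.pow_mem hz j
      change (y (z ^ j) : ℂ) / (ℓ : ℂ) ^ h ∈ RM M
      rw [hyc _ hzj]
      have h1 := (hxch ℓ M hM G e hD.blk (z ^ j) (b (z ^ j)) (hD.lb _ hzj).1.bx.ix χ hχ.1).1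
        χ hχ.1
      have h2 : (Nat.card V : ℂ) * (cz V Z γ (z ^ j) : ℂ) *
          mm M ℓ (Cu (z ^ j)) (z ^ j) (b (z ^ j)) χ χ / (ℓ : ℂ) ^ h =
          (cz V Z γ (z ^ j) : ℂ) * ((Nat.card V : ℂ) * χ 1 / (Nat.card G * (ℓ : ℂ) ^ h)) *
          ((Nat.card G : ℂ) * mm M ℓ (Cu (z ^ j)) (z ^ j) (b (z ^ j)) χ χ / χ 1) := by
        field_simp
      rw [h2]
      exact (RM M).mul_mem ((RM M).mul_mem (natCast_mem (RM M) _) hint) h1
  -- the sum over `Z`
  set S : Finset ℕ := (Finset.range (ℓ ^ a)).filter (fun j => ¬ ℓ ∣ j) with hS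
  set φ : ℕ := ℓ ^ (a - 1) * (ℓ - 1) with hφ
  have hφ0 : 0 < φ := Nat.mul_pos (pow_pos hpr.pos _) (Nat.sub_pos_of_lt hpr.one_lt)
  have hScard : S.card = φ := card_cop hpr ha
  have h1 : (Nat.card Z : ℝ) * ((φ * ℓ ^ h : ℕ) : ℝ) ≤ ∑ z : Z, ∑ j ∈ S, y ((z : G) ^ j) := by
    have h2 : ∑ _z : Z, ((φ * ℓ ^ h : ℕ) : ℝ) ≤ ∑ z : Z, ∑ j ∈ S, y ((z : G) ^ j) :=
      Finset.sum_le_sum fun z _ => key z z.2
    rwa [Finset.sum_const, Finset.card_univ, nsmul_eq_mul, ← Nat.card_eq_fintype_card] at h2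
  have h2 : ∑ z : Z, ∑ j ∈ S, y ((z : G) ^ j) = (φ : ℝ) * ∑ z : Z, y z := by
    rw [Finset.sum_comm]
    have h3 : ∀ j ∈ S, ∑ z : Z, y ((z : G) ^ j) = ∑ z : Z, y z := by
      intro j hj
      have hj' : ¬ ℓ ∣ j := (Finset.mem_filter.1 hj).2
      have hcop : (Nat.card Z).Coprime j := by
        rw [hn]
        exact Nat.Coprime.pow_left n ((Nat.Prime.coprime_iff_not_dvd hpr).2 hj')
      exact sum_pow (fun z : Z => y z) hcop
    rw [Finset.sum_congr rfl h3, Finset.sum_const, hScard, nsmul_eq_mul]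
  -- the projection
  obtain ⟨x, hx, hxle⟩ := (hpjz ℓ M hM G e V Z γ b hD Z le_rfl hD.nrm χ hχ.1).1
  have h3 : ∑ z : Z, y z = (Nat.card V : ℝ) * x := by
    have h4 : ((∑ z : Z, y z : ℝ) : ℂ) = (((Nat.card V : ℝ) * x : ℝ) : ℂ) := by
      push_cast
      rw [← hx, Pw, finsum_eq_sum_of_fintype, Finset.mul_sum]
      refine Finset.sum_congr rfl fun z _ => ?_
      rw [hyc z z.2, mul_assoc]
    exact_mod_cast h4
  rw [h2, h3] at h1
  have h5 : (Nat.card Z : ℝ) * ((φ * ℓ ^ h : ℕ) : ℝ) ≤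
      (φ : ℝ) * ((Nat.card V : ℝ) * iz V Z γ) := by
    refine h1.trans ?_
    refine mul_le_mul_of_nonneg_left ?_ (Nat.cast_nonneg _)
    exact mul_le_mul_of_nonneg_left hxle (Nat.cast_nonneg _)
  have h6 : Nat.card Z * (φ * ℓ ^ h) ≤ φ * (Nat.card V * iz V Z γ) := by exact_mod_cast h5
  have h7 : φ * (ℓ ^ h * Nat.card Z) ≤ φ * (Nat.card V * iz V Z γ) := by
    refine le_trans (le_of_eq ?_) h6
    ring
  exact Nat.le_of_mul_le_mul_left h7 hφ0

end Pool.Agent.PP.TB.H62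
end
end -- Pool.Agent.Helper62_ATZ.HTZ

section -- Pool.Agent.Helper89_ATZ.PJZ

/-!
# Squad ATZ, row PJZ: the projection onto the sections of the elements of `W`
-/

open scoped BigOperators

noncomputable section

namespace Pool.Agent.PP.TB.H89

open Pool.Agent.Helper51_AWC Pool.Agent.Helper79_WRA Pool.Agent.PP Pool.Agent.PP.KF
open Pool.Agent.PP.K9 Pool.Agent.PP.K9.H97 Pool.Agent.PP.H75 Pool.Agent.PP.T3 Pool.Agent.PP.T2
open Pool.Agent.PP.T5

attribute [local instance] Ideal.Quotient.field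

theorem pjz (zcp : ZcpStmt) (mmo : MmoStmt) (poz : PozStmt) : PjzStmt := by
  intro ℓ hℓ M _ hM G _ _ e V Z γ b hd W hWZ hWT χ₀ hχ₀
  classical
  have := Fintype.ofFinite G
  have hW : Fintype W := Fintype.ofFinite W
  obtain ⟨z1, -, z3, -, -, -, -⟩ := zcp ℓ M hM G e V Z γ b hd
  set I := (Set.toFinite (Irr G)).toFinset with hI
  have hmem : ∀ χ, χ ∈ I ↔ χ ∈ Irr G := fun χ => Set.Finite.mem_toFinset _
  set c : W → ℂ := fun w => (cz V Z γ (w : G) : ℂ) with hc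
  set m : W → (G → ℂ) → ℂ := fun w χ => mm M ℓ (Cu (w : G)) w (b w) χ χ₀ with hm
  have hP : ∀ χ, Pw M ℓ V Z W γ b χ χ₀ = ∑ w : W, c w * m w χ := by
    intro χ
    unfold Pw
    rw [finsum_eq_sum_of_fintype]
  -- the orbits
  set O : W → Finset W := fun w =>
    Finset.univ.filter fun w' : W => ∃ t ∈ Tg V γ, t * (w' : G) * t⁻¹ = (w : G) with hO
  have hOmem : ∀ w w' : W, w' ∈ O w ↔ ∃ t ∈ Tg V γ, t * (w' : G) * t⁻¹ = (w : G) := by
    intro w w'
    simp only [hO, Finset.mem_filter, Finset.mem_univ, true_and]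
  have hcO : ∀ w w' : W, w' ∈ O w → c w' = c w := by
    intro w w' h
    obtain ⟨t, ht, hw⟩ := (hOmem w w').1 h
    have h1 := (z1 (w' : G) (hWZ w'.2) t ht).2.1
    rw [hw] at h1
    simp only [hc]
    rw [h1]
  have hcard : ∀ w : W, c w * ((O w).card : ℂ) = (iz V Z γ : ℂ) := by
    intro w
    have h1 := z3 (w : G) (hWZ w.2)
    have h2 : {y | ∃ t ∈ Tg V γ, y = t * (w : G) * t⁻¹} =
        (((O w).image (fun w' : W => (w' : G)) : Finset G) : Set G) := by
      ext y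
      rw [Finset.coe_image, Set.mem_image]
      constructor
      · rintro ⟨t, ht, rfl⟩
        refine ⟨⟨t * (w : G) * t⁻¹, hWT t ht w w.2⟩, ?_, rfl⟩
        rw [Finset.mem_coe, hOmem]
        refine ⟨t⁻¹, (Tg V γ).inv_mem ht, ?_⟩
        group
      · rintro ⟨w', hw', rfl⟩
        rw [Finset.mem_coe, hOmem] at hw'
        obtain ⟨t, ht, hw⟩ := hw'
        refine ⟨t⁻¹, (Tg V γ).inv_mem ht, ?_⟩
        rw [← hw]
        group
    rw [h2, Set.ncard_coe_finset, Finset.card_image_of_injective _ Subtype.val_injective] at h1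
    simp only [hc]
    exact_mod_cast h1
  have hsum : ∀ w : W, ∑ w' ∈ O w, c w' = (iz V Z γ : ℂ) := by
    intro w
    rw [Finset.sum_congr rfl (fun w' hw' => hcO w w' hw'), Finset.sum_const, nsmul_eq_mul,
      mul_comm, hcard]
  -- orthogonality
  have horth : ∀ w w' : W, ∑ χ ∈ I, m w χ * starRingEnd ℂ (m w' χ) =
      if w' ∈ O w then m w χ₀ else 0 := by
    intro w w'
    have h1 := mmo ℓ M hM G e V Z γ b hd (w : G) (hWZ w.2) (w' : G) (hWZ w'.2) χ₀ hχ₀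
    rw [finsum_mem_eq_finite_toFinset_sum _ (Set.toFinite (Irr G))] at h1
    split_ifs with h
    · exact h1.1 ((hOmem w w').1 h)
    · exact h1.2 (fun h2 => h ((hOmem w w').2 h2))
  have hPP : ∑ χ ∈ I, Pw M ℓ V Z W γ b χ χ₀ * starRingEnd ℂ (Pw M ℓ V Z W γ b χ χ₀) =
      (iz V Z γ : ℂ) * Pw M ℓ V Z W γ b χ₀ χ₀ := by
    have h1 : ∀ χ, Pw M ℓ V Z W γ b χ χ₀ * starRingEnd ℂ (Pw M ℓ V Z W γ b χ χ₀) =
        ∑ w : W, ∑ w' : W, c w * c w' * (m w χ * starRingEnd ℂ (m w' χ)) := by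
      intro χ
      rw [hP, map_sum, Finset.sum_mul_sum]
      refine Finset.sum_congr rfl fun w _ => Finset.sum_congr rfl fun w' _ => ?_
      rw [map_mul]
      have : starRingEnd ℂ (c w') = c w' := by
        simp only [hc]
        exact Complex.conj_natCast _
      rw [this]
      ring
    rw [Finset.sum_congr rfl fun χ _ => h1 χ, Finset.sum_comm, hP, Finset.mul_sum]
    refine Finset.sum_congr rfl fun w _ => ?_
    rw [Finset.sum_comm]
    have h2 : ∀ w' : W, ∑ χ ∈ I, c w * c w' * (m w χ * starRingEnd ℂ (m w' χ)) =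
        if w' ∈ O w then c w * c w' * m w χ₀ else 0 := by
      intro w'
      rw [← Finset.mul_sum, horth]
      split_ifs <;> simp
    rw [Finset.sum_congr rfl fun w' _ => h2 w', ← Finset.sum_filter,
      Finset.filter_univ_mem]
    have h3 : ∀ w' ∈ O w, c w * c w' * m w χ₀ = c w' * (c w * m w χ₀) := fun w' _ => by ring
    rw [Finset.sum_congr rfl h3, ← Finset.sum_mul, hsum]
  -- positivity
  have hpos : ∃ x : ℝ, 0 ≤ x ∧ Pw M ℓ V Z W γ b χ₀ χ₀ = (x : ℂ) := by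
    have h1 : ∀ w : W, ∃ x : ℝ, 0 ≤ x ∧ m w χ₀ = (x : ℂ) := fun w =>
      (poz ℓ M hM G e V Z γ b hd (w : G) (hWZ w.2)).1 χ₀ hχ₀
    choose y hy0 hy using h1
    refine ⟨∑ w : W, (cz V Z γ (w : G) : ℝ) * y w,
      Finset.sum_nonneg fun w _ => mul_nonneg (Nat.cast_nonneg _) (hy0 w), ?_⟩
    rw [hP]
    push_cast
    refine Finset.sum_congr rfl fun w _ => ?_
    rw [hy]
  obtain ⟨x, hx0, hx⟩ := hpos
  have hN : ∑ χ ∈ I, Complex.normSq (Pw M ℓ V Z W γ b χ χ₀) = (iz V Z γ : ℝ) * x := by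
    have h1 : ((∑ χ ∈ I, Complex.normSq (Pw M ℓ V Z W γ b χ χ₀) : ℝ) : ℂ) =
        (((iz V Z γ : ℝ) * x : ℝ) : ℂ) := by
      push_cast
      rw [← hx, ← hPP]
      exact Finset.sum_congr rfl fun χ _ => (Complex.mul_conj _).symm
    exact_mod_cast h1
  have hx2 : x * x ≤ (iz V Z γ : ℝ) * x := by
    rw [← hN]
    have h1 : x * x = Complex.normSq (Pw M ℓ V Z W γ b χ₀ χ₀) := by
      rw [hx, Complex.normSq_ofReal]
    rw [h1]
    exact Finset.single_le_sum (f := fun χ => Complex.normSq (Pw M ℓ V Z W γ b χ χ₀))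
      (fun χ _ => Complex.normSq_nonneg _) ((hmem χ₀).2 hχ₀)
  have hxi : x ≤ (iz V Z γ : ℝ) := by
    rcases hx0.eq_or_lt with h | h
    · rw [← h]
      exact Nat.cast_nonneg _
    · exact le_of_mul_le_mul_right hx2 h
  refine ⟨⟨x, hx, hxi⟩, ?_⟩
  rw [finsum_mem_eq_finite_toFinset_sum _ (Set.toFinite (Irr G))]
  rw [← hI, hN, sq]
  exact mul_le_mul_of_nonneg_left hxi (Nat.cast_nonneg _)

end Pool.Agent.PP.TB.H89
end
end -- Pool.Agent.Helper89_ATZ.PJZ
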