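import Pool.Agent.AT3.Stmts3
import Pool.Agent.Helper12_AWB.B113
import Pool.Agent.Helper12_AWB.B150
import Pool.Agent.Helper12_AWB.B163

/-!
# Merged copies (generated) of the modules

* `Pool.Agent.Helper85_AT3.LSB`
* `Pool.Agent.Helper38_AT3.GCH`
* `Pool.Agent.Helper41_AT3.DGC`
* `Pool.Agent.Helper41_AT3.RGL`
-/

set_option autoImplicit false

section -- Pool.Agent.Helper85_AT3.LSB

/-!
# Squad AT3, modules LSB and NVT
-/

open scoped BigOperators

noncomputable section

namespace Pool.Agent.PP.T3.H85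

open Pool.Agent.Helper51_AWC Pool.Agent.Helper79_WRA Pool.Agent.PP Pool.Agent.PP.KF
open Pool.Agent.PP.K9 Pool.Agent.PP.K9.H97 Pool.Agent.PP.H75

attribute [local instance] Ideal.Quotient.field

section transfer

variable {F G : Type} [Field F] [Group G] [Finite G] {X V : Subgroup G}

/-- the centralisers of `V` in `X` and in `G` -/
def cequiv (hVX : V ≤ X) (hCX : Subgroup.centralizer (V : Set G) ≤ X) :
    Subgroup.centralizer ((V.subgroupOf X : Subgroup X) : Set X) ≃*
      Subgroup.centralizer (V : Set G) where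
  toFun t := ⟨((t : X) : G), (cent_sub hVX (t : X)).1 t.2⟩
  invFun t := ⟨⟨(t : G), hCX t.2⟩, (cent_sub hVX ⟨(t : G), hCX t.2⟩).2 t.2⟩
  left_inv _ := rfl
  right_inv _ := rfl
  map_mul' _ _ := rfl

omit [Finite G] in
theorem cent_eq (hVX : V ≤ X) :
    Subgroup.centralizer ((V.subgroupOf X : Subgroup X) : Set X) =
      (Subgroup.centralizer (V : Set G)).subgroupOf X := by
  ext t
  rw [Subgroup.mem_subgroupOf]
  exact cent_sub hVX t

omit [Finite G] in
theorem Tg_eq (hVX : V ≤ X) (hCX : Subgroup.centralizer (V : Set G) ≤ X) {γ : G → F}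
    (hγ : ∀ x, x ∉ Subgroup.centralizer (V : Set G) → γ x = 0) :
    Tg (V.subgroupOf X) (fun t : X => γ t) = (Tg V γ ⊓ X).subgroupOf X := by
  ext t
  have h1 : t ∈ Subgroup.normalizer ((V.subgroupOf X : Subgroup X) : Set X) ↔
      (t : G) ∈ Subgroup.normalizer (V : Set G) := by
    rw [← norm_sub hVX, Subgroup.mem_subgroupOf]
    exact ⟨fun h => h.1, fun h => ⟨h, t.2⟩⟩
  have h2 : t ∈ stabF (fun t : X => γ t) ↔ (t : G) ∈ stabF γ := by
    constructor
    · intro h x
      by_cases hx : x ∈ X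
      · exact h ⟨x, hx⟩
      · rw [hγ x (fun h' => hx (hCX h')), hγ]
        intro h'
        apply hx
        have h3 := X.mul_mem (X.mul_mem (X.inv_mem t.2) (hCX h')) t.2
        have e : (t : G)⁻¹ * (t * x * (t : G)⁻¹) * t = x := by group
        rwa [e] at h3
    · intro h x
      exact h (x : G)
  constructor
  · rintro ⟨ha, hb⟩
    rw [Subgroup.mem_subgroupOf]
    exact ⟨⟨h1.1 ha, h2.1 hb⟩, t.2⟩
  · intro h
    rw [Subgroup.mem_subgroupOf] at h
    exact ⟨h1.2 h.1.1, h2.2 h.1.2⟩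

omit [Finite G] in
theorem ix_eq (hVX : V ≤ X) (hCX : Subgroup.centralizer (V : Set G) ≤ X) {γ : G → F}
    (hγ : ∀ x, x ∉ Subgroup.centralizer (V : Set G) → γ x = 0) :
    ix (V.subgroupOf X) (fun t : X => γ t) =
      (Subgroup.centralizer (V : Set G)).relIndex (Tg V γ ⊓ X) := by
  unfold ix
  rw [Tg_eq hVX hCX hγ, cent_eq hVX]
  exact Subgroup.relIndex_subgroupOf inf_le_right

/-- transfer of the local data -/
theorem ld_of {ℓ : ℕ} (hVX : V ≤ X) (hCX : Subgroup.centralizer (V : Set G) ≤ X)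
    (hab : ∀ a ∈ V, ∀ b ∈ V, a * b = b * a) {b γ : G → F}
    (hb : IsBlk (fun t : X => b t)) (hγ : Bx (Subgroup.centralizer (V : Set G)) γ)
    (hbg : mulF (br V b) γ = γ) (hT : Tp ℓ (fun t : X => b t) (V.subgroupOf X)) :
    Ld ℓ (fun t : X => b t) (V.subgroupOf X) (fun t : X => γ t) := by
  refine ⟨hb, hT, ?_, ⟨?_, ?_⟩, ?_⟩
  · intro a ha c hc
    exact Subtype.ext (hab a ha c hc)
  · intro x hx
    exact hγ.supp x (fun h => hx ((cent_sub hVX x).2 h))
  · exact H20.IsBlk_equiv (cequiv hVX hCX) hγ.blk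
  · have h1 : br (V.subgroupOf X) (fun t : X => b t) = fun t : X => br V b t := by
      funext t
      by_cases ht : (t : G) ∈ Subgroup.centralizer (V : Set G)
      · rw [H66.br_of_mem ht, H66.br_of_mem ((cent_sub hVX t).2 ht)]
      · rw [H66.br_of_not_mem ht, H66.br_of_not_mem (fun h => ht ((cent_sub hVX t).1 h))]
    rw [h1, ← mulF_res X γ (fun x hx => H66.br_of_not_mem (fun h => hx (hCX h))), hbg]

omit [Finite G] in
theorem cent_le_norm (V : Subgroup G) :
    Subgroup.centralizer (V : Set G) ≤ Subgroup.normalizer (V : Set G) := by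
  intro g hg
  rw [Subgroup.mem_normalizer_iff]
  intro v
  have h1 := Subgroup.mem_centralizer_iff.1 hg
  constructor
  · intro hv
    rw [← h1 v hv, mul_inv_cancel_right]
    exact hv
  · intro hv
    have h2 := h1 _ hv
    have h3 : g * v = g * (g * v * g⁻¹) := by
      rw [← h2]
      group
    rw [mul_left_cancel h3]
    exact hv

omit [Finite G] in
theorem gd_of_gam (hVX : V ≤ X) (hCX : Subgroup.centralizer (V : Set G) ≤ X) {b γ : G → F}
    (hγ : Bx (Subgroup.centralizer (V : Set G)) γ) (hbg : mulF (br V b) γ = γ) :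
    Gd (fun t : X => b t) (V.subgroupOf X) := by
  by_contra hcon
  have h0 : br V b = 0 := by
    funext g
    by_cases hg : g ∈ Subgroup.centralizer (V : Set G)
    · rw [H66.br_of_mem hg]
      by_contra h1
      apply hcon
      exact ⟨⟨g, hCX hg⟩, (cent_sub hVX ⟨g, hCX hg⟩).2 hg, h1⟩
    · rw [H66.br_of_not_mem hg]
      rfl
  rw [h0] at hbg
  apply hγ.ne
  rw [← hbg]
  funext x
  unfold mulF
  simp

omit [Finite G] [Group G] in
open Classical in
theorem push_equiv' {A B : Type} [Group A] [Group B] (φ : A ≃* B) (a : A → F) :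
    H75.push (φ : A →* B) a = fun y => a (φ.symm y) := by
  funext y
  unfold H75.push
  rw [finsum_eq_single _ (φ.symm y)]
  · rw [finsum_eq_if, if_pos (show (φ : A →* B) (φ.symm y) = y from φ.apply_symm_apply y)]
  · intro x hx
    rw [finsum_eq_if, if_neg]
    intro h
    apply hx
    rw [← h]
    exact (φ.symm_apply_apply x).symm

end transfer

theorem dg_equiv {M : Ideal (integralClosure ℤ ℂ)} [M.IsMaximal] {A B : Type} [Group A] [Finite A]
    [Group B] [Finite B] (φ : A ≃* B) {b : A → FF M} (hb : IsCl b) {c : ℕ} (h : Dg M b c) :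
    Dg M (fun y => b (φ.symm y)) c := by
  refine ⟨h.1, ?_⟩
  intro κ hκ
  have h1 := (K9.H3.psi M A B (φ : A →* B) φ.surjective b hb).1
  rw [push_equiv'] at h1
  rw [h1] at hκ
  have h2 := h.2 _ hκ.2
  rw [← h2]
  change κ 1 = κ (φ 1)
  rw [map_one]

/-- LSB -/
theorem lsb : LsbStmt := by
  intro ℓ _ M _ hM G _ _ e V γ hL u hu b hLc
  have hF : GoodF ℓ (FF M) := H50.fld ℓ Fact.out M hM
  have hVX : V ≤ Cu u := fun v hv => Subgroup.mem_centralizer_singleton_iff.2 (hL.ab v hv u hu)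
  have hCX : Subgroup.centralizer (V : Set G) ≤ Cu u := fun g hg =>
    Subgroup.mem_centralizer_singleton_iff.2 (Subgroup.mem_centralizer_iff.1 hg u hu).symm
  have heC : IsCl (fun t : Cu u => e t) := fun x y => hL.blk.1.1 x y
  have hVcard : Nat.card (V.subgroupOf (Cu u)) = Nat.card V :=
    Nat.card_congr (Subgroup.subgroupOfEquivOfLe hVX).toEquiv
  have hVp : IsPGroup ℓ (V.subgroupOf (Cu u)) :=
    hL.tp.pg.of_equiv (Subgroup.subgroupOfEquivOfLe hVX).symm
  have hTb : Tp ℓ (fun t : Cu u => b t) (V.subgroupOf (Cu u)) := by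
    refine ⟨hVp, gd_of_gam hVX hCX hL.gam hLc.gam, ?_⟩
    intro Q hQ hQb
    have h1 := gd_map (gd_of_mul hF heC hLc.blk.blk.1.1 hLc.und hQ hQb)
    have hcard : Nat.card (Q.map (Cu u).subtype) = Nat.card Q :=
      (Nat.card_congr (Q.equivMapOfInjective (Cu u).subtype
        (Cu u).subtype_injective).toEquiv).symm
    have h2 := hL.tp.mx _ (hQ.map (Cu u).subtype) h1
    rw [hcard] at h2
    rw [hVcard]
    exact h2
  refine ⟨ld_of hVX hCX hL.ab hLc.blk.blk hL.gam hLc.gam hTb, ix_eq hVX hCX hL.gam.supp, hVcard,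
    Nat.card_congr (cequiv hVX hCX).toEquiv, ?_⟩
  intro c hc
  exact dg_equiv (cequiv hVX hCX).symm hL.gam.blk.1.1 hc

/-- NVT -/
theorem nvt : NvtStmt := by
  intro ℓ _ M _ hM G _ _ e V γ hL
  have hVX : V ≤ Subgroup.normalizer (V : Set G) := Subgroup.le_normalizer
  have hCX := cent_le_norm V
  obtain ⟨-, ⟨h1, h2⟩, -⟩ := K9.H69.fmg ℓ M hM G e hL.blk V hL.tp
  have hbr : br V (br V e) = br V e := by
    funext g
    by_cases hg : g ∈ Subgroup.centralizer (V : Set G)
    · rw [H66.br_of_mem hg]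
    · rw [H66.br_of_not_mem hg, H66.br_of_not_mem hg]
  refine ⟨ld_of hVX hCX hL.ab h1 hL.gam (by rw [hbr]; exact hL.und) h2, ?_⟩
  rw [ix_eq hVX hCX hL.gam.supp]
  unfold ix
  have h3 : Tg V γ ⊓ Subgroup.normalizer (V : Set G) = Tg V γ :=
    inf_eq_left.2 inf_le_left
  rw [h3]

end Pool.Agent.PP.T3.H85
end
end -- Pool.Agent.Helper85_AT3.LSB

section -- Pool.Agent.Helper38_AT3.GCH

open scoped BigOperators

noncomputable section

namespace Pool.Agent.PP.T3.H38

open Pool.Agent.Helper51_AWC Pool.Agent.Helper79_WRA Pool.Agent.PP Pool.Agent.PP.KF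
open Pool.Agent.PP.K9 Pool.Agent.PP.K9.H97 Pool.Agent.PP.H75 Pool.Agent.PP.T3

attribute [local instance] Ideal.Quotient.field

theorem gch (lcj : LcjStmt) : GchStmt := by
  intro ℓ hℓ M _ hM G _ _ e V γ γ₁ h h₁
  have hF : GoodF ℓ (FF M) := H50.fld ℓ hℓ.out M hM
  obtain ⟨-, ⟨hb, -⟩, -⟩ := K9.H69.fmg ℓ M hM G e h.blk V h.tp
  have hXN : Subgroup.centralizer (V : Set G) ≤ Subgroup.normalizer (V : Set G) :=
    Subgroup.centralizer_le_normalizer _
  have hN : Subgroup.normalizer (V : Set G) ≤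
      Subgroup.normalizer ((Subgroup.centralizer (V : Set G) : Subgroup G) : Set G) := by
    intro n hn
    have key : ∀ m : G, m ∈ Subgroup.normalizer (V : Set G) → ∀ c,
        c ∈ Subgroup.centralizer (V : Set G) → m * c * m⁻¹ ∈ Subgroup.centralizer (V : Set G) := by
      intro m hm c hc
      rw [Subgroup.mem_centralizer_iff]
      intro v hv
      have h1 : m⁻¹ * v * m ∈ V := by
        have := (Subgroup.mem_normalizer_iff.1 (Subgroup.inv_mem _ hm) v).1 hv
        rwa [inv_inv] at this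
      have h2 := Subgroup.mem_centralizer_iff.1 hc _ h1
      have h3 : m * (m⁻¹ * v * m * c) * m⁻¹ = m * (c * (m⁻¹ * v * m)) * m⁻¹ := by rw [h2]
      have h4 : m * (m⁻¹ * v * m * c) * m⁻¹ = v * (m * c * m⁻¹) := by group
      have h5 : m * (c * (m⁻¹ * v * m)) * m⁻¹ = m * c * m⁻¹ * v := by group
      rw [h4, h5] at h3
      exact h3
    rw [Subgroup.mem_normalizer_iff]
    intro c
    refine ⟨key n hn c, fun hc => ?_⟩
    have h1 := key n⁻¹ (Subgroup.inv_mem _ hn) _ hc
    have h2 : n⁻¹ * (n * c * n⁻¹) * n⁻¹⁻¹ = c := by group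
    rwa [h2] at h1
  obtain ⟨n, hn, hγ⟩ := orb_main hXN hN (f := br V e)
    ⟨fun x hx => H66.br_of_not_mem fun h2 => hx (hXN h2), hb⟩ h.gam h₁.gam h.und h₁.und
  have hconj : conjS n V = V := mem_normalizer_iff_conjS.1 hn
  obtain ⟨-, h2⟩ := lcj ℓ (FF M) hF G e V γ h n
  rw [hconj, ← hγ] at h2
  exact h2

end Pool.Agent.PP.T3.H38
end
end -- Pool.Agent.Helper38_AT3.GCH

section -- Pool.Agent.Helper41_AT3.DGC

/-!
# Squad AT3, row DGC
-/

open scoped BigOperators

noncomputable section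

namespace Pool.Agent.PP.T3.H41

open Pool.Agent.Helper51_AWC Pool.Agent.Helper79_WRA Pool.Agent.PP Pool.Agent.PP.KF
open Pool.Agent.PP.K9 Pool.Agent.PP.K9.H97 Pool.Agent.PP.H75

attribute [local instance] Ideal.Quotient.field

theorem dgc (hCEN : CenStmt) : DgcStmt := by
  intro ℓ _ M _ hM G _ _ e V γ hL
  have hF : GoodF ℓ (FF M) := H50.fld ℓ Fact.out M hM
  obtain ⟨C, hC⟩ : ∃ C : Subgroup G, C = Subgroup.centralizer (V : Set G) := ⟨_, rfl⟩
  have hVC : V ≤ C := by
    intro v hv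
    rw [hC, Subgroup.mem_centralizer_iff]
    intro w hw
    exact hL.ab w hw v hv
  have hbx : Bx C γ := by rw [hC]; exact hL.gam
  have hVz : V.subgroupOf C ≤ Subgroup.center C := by
    intro v hv
    rw [Subgroup.mem_center_iff]
    intro g
    have h1 : (g : G) ∈ Subgroup.centralizer (V : Set G) := by rw [← hC]; exact g.2
    exact Subtype.ext (Subgroup.mem_centralizer_iff.1 h1 v hv).symm
  have hVcard : Nat.card (V.subgroupOf C) = Nat.card V :=
    Nat.card_congr (Subgroup.subgroupOfEquivOfLe hVC).toEquiv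
  have hbrcl : IsCl (fun t : C => br V e t) := by
    intro x y
    have h1 : ∀ t : C, br V e t = e t := fun t =>
      H66.br_of_mem (by rw [← hC]; exact t.2)
    have h2 := h1 (y * x * y⁻¹)
    have h3 := h1 x
    change br V e ((y * x * y⁻¹ : C) : G) = br V e (x : G)
    rw [h2, h3]
    exact hL.blk.1.1 _ _
  have hmul : mulF (fun t : C => br V e t) (fun t : C => γ t) = fun t : C => γ t := by
    have hs : ∀ x, x ∉ C → br V e x = 0 := fun x hx => H66.br_of_not_mem (by rw [← hC]; exact hx)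
    rw [← mulF_res C γ hs, hL.und]
  have hT : Tp ℓ (fun t : C => γ t) (V.subgroupOf C) := by
    refine ⟨hL.tp.pg.of_equiv (Subgroup.subgroupOfEquivOfLe hVC).symm, ?_, ?_⟩
    · have hne : (fun t : C => γ t) ≠ 0 := hbx.blk.2.1
      obtain ⟨t, ht⟩ := Function.ne_iff.1 hne
      refine ⟨t, ?_, ht⟩
      rw [Subgroup.mem_centralizer_iff]
      intro v hv
      exact (Subgroup.mem_center_iff.1 (hVz hv) t).symm
    · intro Q hQ hQg
      have h1 := gd_of_mul hF hbrcl hbx.blk.1.1 hmul hQ hQg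
      have h2 : Gd (fun t : C => e t) Q := by
        obtain ⟨g, hg1, hg2⟩ := h1
        refine ⟨g, hg1, ?_⟩
        change br V e (g : G) ≠ 0 at hg2
        rw [H66.br_of_mem (by rw [← hC]; exact g.2)] at hg2
        exact hg2
      have hcard : Nat.card (Q.map C.subtype) = Nat.card Q :=
        (Nat.card_congr (Q.equivMapOfInjective C.subtype C.subtype_injective).toEquiv).symm
      have h3 := hL.tp.mx _ (hQ.map C.subtype) (gd_map h2)
      rw [hcard] at h3
      rw [hVcard]
      exact h3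
  subst hC
  exact (hCEN ℓ M hM _ _ hbx.blk _ hT hVz).1

end Pool.Agent.PP.T3.H41
end
end -- Pool.Agent.Helper41_AT3.DGC

section -- Pool.Agent.Helper41_AT3.RGL

/-!
# Squad AT3, rows RGL, QTD
-/

open scoped BigOperators

noncomputable section

namespace Pool.Agent.PP.T3.H41

open Pool.Agent.Helper51_AWC Pool.Agent.Helper79_WRA Pool.Agent.PP Pool.Agent.PP.KF
open Pool.Agent.PP.K9 Pool.Agent.PP.K9.H97 Pool.Agent.PP.H75

attribute [local instance] Ideal.Quotient.field

theorem rgl (hLOC : LocStmt) (hLSB : LsbStmt) (hNIL : NilStmt) : RglStmt := by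
  intro ℓ _ M _ hM G _ _ e V γ hL u hu
  have hF : GoodF ℓ (FF M) := H50.fld ℓ Fact.out M hM
  obtain ⟨hu1, hu2, hu3⟩ := hu
  obtain ⟨⟨b, hb⟩, -⟩ := hLOC ℓ (FF M) hF G e V γ hL u hu1
  obtain ⟨h1, h2, h3, h4, h5⟩ := hLSB ℓ M hM G e V γ hL u hu1 b hb
  have h6 : ix (V.subgroupOf (Cu u)) (fun t : Cu u => γ t) = 1 := by
    rw [h2]
    exact Subgroup.relIndex_eq_one.2 hu3
  obtain ⟨⟨d, hd⟩, h7, -⟩ := hNIL ℓ M hM (Cu u) _ _ _ h1 h6
  exact ⟨b, d, hb, hd, h7.trans h3, h6⟩

theorem qtd (hQT1 : Qt1Stmt) (hLCJ : LcjStmt) (hQT2 : Qt2Stmt) : QtdStmt := by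
  intro ℓ _ M _ hM G _ _ e V γ hL Q hQ A _ _ p hp hker f hf hff
  have hF : GoodF ℓ (FF M) := H50.fld ℓ Fact.out M hM
  obtain ⟨k, hk, hT⟩ := hQT1 ℓ M hM G e V γ hL Q hQ A p hp hker f hf hff
  obtain ⟨hL', hix⟩ := hLCJ ℓ (FF M) hF G e V γ hL k
  obtain ⟨γ', hγ', hix'⟩ := hQT2 ℓ M hM G e (conjS k V) (cj k γ) hL' Q hk A p hp hker f hf hff hT
  refine ⟨_, γ', hγ', ?_, hix'.trans hix.le⟩
  -- the order
  have hcard : Nat.card (conjS k V) = Nat.card V :=
    (Nat.card_congr (V.equivMapOfInjective (MulAut.conj k).toMonoidHom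
      (MulAut.conj k).injective).toEquiv).symm
  have hVN : conjS k V ≤ Subgroup.normalizer (Q : Set G) := by
    intro v hv
    rw [Subgroup.mem_normalizer_iff]
    intro h
    have hab := hL'.ab
    constructor
    · intro hh
      rw [hab v hv h (hk hh), mul_inv_cancel_right]
      exact hh
    · intro hh
      have h1 := hab v hv _ (hk hh)
      have h2 : v * h = v * (v * h * v⁻¹) := by
        rw [h1]
        group
      rw [mul_left_cancel h2]
      exact hh
  obtain ⟨W, hW⟩ : ∃ W : Subgroup (Subgroup.normalizer (Q : Set G)),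
      W = (conjS k V).subgroupOf (Subgroup.normalizer (Q : Set G)) := ⟨_, rfl⟩
  have hWc : Nat.card W = Nat.card (conjS k V) := by
    rw [hW]
    exact Nat.card_congr (Subgroup.subgroupOfEquivOfLe hVN).toEquiv
  have hkW : p.ker ≤ W := by
    rw [hker, hW]
    exact Subgroup.comap_mono hk
  have hQc : Nat.card p.ker = Nat.card Q := by
    rw [hker]
    exact Nat.card_congr (Subgroup.subgroupOfEquivOfLe Subgroup.le_normalizer).toEquiv
  rw [← hW, ← hcard, ← hWc, ← hQc, mul_comm]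
  have h1 : Nat.card (p.ker.subgroupOf W) * (p.ker.subgroupOf W).index = Nat.card W :=
    Subgroup.card_mul_index _
  have h2 : Nat.card (p.ker.subgroupOf W) = Nat.card p.ker :=
    Nat.card_congr (Subgroup.subgroupOfEquivOfLe hkW).toEquiv
  have h3 : (p.ker.subgroupOf W).index = Nat.card (W.map p) := by
    have h4 : (p.comp W.subtype).ker = p.ker.subgroupOf W := rfl
    rw [← h4, Subgroup.index_ker]
    congr 1
    rw [MonoidHom.range_comp, Subgroup.range_subtype]
  rw [← h3, ← h2]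
  exact h1

end Pool.Agent.PP.T3.H41
end
end -- Pool.Agent.Helper41_AT3.RGL
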