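import Pool.Agent.Helper12_AWB.B116
import Pool.Agent.Helper12_AWB.B119
import Pool.Agent.Helper12_AWB.B132
import Pool.Agent.Helper12_AWB.B146
import Pool.Agent.Helper12_AWB.B166
import Pool.Agent.Helper12_AWB.B169

/-!
# Merged copies (generated) of the modules

* `Pool.Agent.Helper79_AT3.FUS`
* `Pool.Agent.Helper92_C2.DUV`
* `Pool.Agent.Helper69_AT2.Teb1`
* `Pool.Agent.Helper69_AT2.Teb2`
* `Pool.Agent.Helper69_AT2.Teb3`
* `Pool.Agent.Helper69_AT2.Teb4`
* `Pool.Agent.Helper70_AT5.TB5`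
* `Pool.Agent.Helper82_ATZ.ZAB`
-/

set_option autoImplicit false

section -- Pool.Agent.Helper79_AT3.FUS

/-!
# Squad AT3, row FUS: the inertial group controls the fusion
-/

open scoped BigOperators

noncomputable section

namespace Pool.Agent.PP.T3.H79

open Pool.Agent.Helper51_AWC Pool.Agent.Helper79_WRA Pool.Agent.PP Pool.Agent.PP.KF
open Pool.Agent.PP.K9 Pool.Agent.PP.K9.H97 Pool.Agent.PP.H75

attribute [local instance] Ideal.Quotient.field

section aux

variable {F G : Type} [Field F] [Group G] [Finite G]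

omit [Finite G] in
/-- the normaliser of `V` normalises the centraliser -/
theorem norm_cent (V : Subgroup G) :
    Subgroup.normalizer (V : Set G) ≤
      Subgroup.normalizer (Subgroup.centralizer (V : Set G) : Set G) := by
  have h0 : ∀ n ∈ Subgroup.normalizer (V : Set G), ∀ x ∈ Subgroup.centralizer (V : Set G),
      n * x * n⁻¹ ∈ Subgroup.centralizer (V : Set G) := by
    intro n hn x hx
    rw [Subgroup.mem_centralizer_iff] at hx ⊢
    intro q hq
    have h1 : n⁻¹ * q * n ∈ V := by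
      have h2 := (Subgroup.mem_normalizer_iff.1 (inv_mem hn) q).1 hq
      rwa [inv_inv] at h2
    have h2 := hx _ h1
    calc q * (n * x * n⁻¹) = n * ((n⁻¹ * q * n) * x) * n⁻¹ := by group
      _ = n * (x * (n⁻¹ * q * n)) * n⁻¹ := by rw [h2]
      _ = (n * x * n⁻¹) * q := by group
  intro n hn
  rw [Subgroup.mem_normalizer_iff]
  intro x
  refine ⟨fun h => h0 n hn x h, fun h => ?_⟩
  have h1 := h0 n⁻¹ (inv_mem hn) _ h
  rwa [show n⁻¹ * (n * x * n⁻¹) * n⁻¹⁻¹ = x by group] at h1

omit [Finite G] in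
theorem cj_br {V : Subgroup G} {n : G} (hn : n ∈ Subgroup.normalizer (V : Set G)) (a : G → F) :
    H75.cj n (br V a) = br V (H75.cj n a) := by
  have hc := norm_cent V
  funext t
  have hiff : n⁻¹ * t * n ∈ Subgroup.centralizer (V : Set G) ↔
      t ∈ Subgroup.centralizer (V : Set G) := conj_mem_iff (hc hn) t
  show br V a (n⁻¹ * t * n) = br V (H75.cj n a) t
  by_cases ht : t ∈ Subgroup.centralizer (V : Set G)
  · rw [H66.br_of_mem ht, H66.br_of_mem (hiff.2 ht)]
    rfl
  · rw [H66.br_of_not_mem ht, H66.br_of_not_mem (fun h => ht (hiff.1 h))]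

end aux

/-- FUS -/
theorem fus (hlsb : LsbStmt) : FusStmt := by
  intro ℓ _ M _ hM G _ _ e V γ hL u hu u' hu' b b' hb hb' g hg hgb
  have hF : GoodF ℓ (FF M) := H50.fld ℓ Fact.out M hM
  have hVC : V ≤ Cu u := fun v hv => Subgroup.mem_centralizer_singleton_iff.2 (hL.ab v hv u hu)
  have hVC' : V ≤ Cu u' := fun v hv =>
    Subgroup.mem_centralizer_singleton_iff.2 (hL.ab v hv u' hu')
  have hXC : Subgroup.centralizer (V : Set G) ≤ Cu u := fun g hg =>
    Subgroup.mem_centralizer_singleton_iff.2 (Subgroup.mem_centralizer_iff.1 hg u hu).symm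
  have hXN : Subgroup.centralizer (V : Set G) ≤ Subgroup.normalizer (V : Set G) :=
    Subgroup.centralizer_le_normalizer _
  obtain ⟨hLb, -⟩ := hlsb ℓ M hM G e V γ hL u hu b hb
  obtain ⟨hf1, ⟨hf2, -⟩, -⟩ := H69.fmg ℓ M hM (Cu u) _ hLb.blk _ hLb.tp
  -- `br_V b` is a block of `N(V) ∩ C(u)`
  have hext : PP.ext0 (Cu u) (fun t : Cu u => b t) = b := by
    funext x
    by_cases hx : x ∈ Cu u
    · rw [H46.ext0_of_mem _ hx]
    · rw [H46.ext0_of_not_mem _ hx, hb.blk.supp x hx]
  have hbx := bx_of hVC hXC hXN hf2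
  rw [hext] at hbx
  -- a good element
  obtain ⟨x, hxV, hxb⟩ : ∃ x ∈ Subgroup.centralizer (V : Set G), b' x ≠ 0 := by
    by_contra hno
    push Not at hno
    apply hL.gam.ne
    rw [← hb'.gam]
    have h0 : br V b' = 0 := by
      funext t
      by_cases ht : t ∈ Subgroup.centralizer (V : Set G)
      · rw [H66.br_of_mem ht, hno t ht]
        rfl
      · rw [H66.br_of_not_mem ht]
        rfl
    rw [h0]
    funext t
    simp [mulF]
  -- conjugates
  have hQC : conjS g V ≤ Cu u := by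
    intro y hy
    rw [mem_conjS] at hy
    have h1 := Subgroup.mem_centralizer_singleton_iff.1 (hVC' hy)
    rw [Subgroup.mem_centralizer_singleton_iff, ← hg]
    have h2 : y * (g * u' * g⁻¹) = g * ((g⁻¹ * y * g) * u') * g⁻¹ := by group
    rw [h2, h1]
    group
  set Q : Subgroup (Cu u) := (conjS g V).subgroupOf (Cu u) with hQ
  have hQp : IsPGroup ℓ Q :=
    (hL.tp.pg.map (MulAut.conj g).toMonoidHom).of_equiv (Subgroup.subgroupOfEquivOfLe hQC).symm
  have hgxg : ∀ y ∈ conjS g V, y * (g * x * g⁻¹) = (g * x * g⁻¹) * y := by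
    intro y hy
    rw [mem_conjS] at hy
    have h1 := Subgroup.mem_centralizer_iff.1 hxV _ hy
    have h2 : y * (g * x * g⁻¹) = g * ((g⁻¹ * y * g) * x) * g⁻¹ := by group
    rw [h2, h1]
    group
  have hgx : g * x * g⁻¹ ∈ Cu u := by
    rw [Subgroup.mem_centralizer_singleton_iff]
    have h1 : u ∈ conjS g V := by
      rw [mem_conjS, ← hg, show g⁻¹ * (g * u' * g⁻¹) * g = u' by group]
      exact hu'
    exact (hgxg u h1).symm
  have hQg : Gd (fun t : Cu u => b t) Q := by
    refine ⟨⟨g * x * g⁻¹, hgx⟩, ?_, ?_⟩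
    · rw [Subgroup.mem_centralizer_iff]
      intro y hy
      exact Subtype.ext (hgxg y hy)
    · show b (g * x * g⁻¹) ≠ 0
      rw [← hgb]
      show b' (g⁻¹ * (g * x * g⁻¹) * g) ≠ 0
      rwa [show g⁻¹ * (g * x * g⁻¹) * g = x by group]
  obtain ⟨c, hc⟩ := hf1 Q hQp hQg
  -- `n = c⁻¹ g` normalises `V`
  set n : G := (c : G)⁻¹ * g with hn
  have h4 : ∀ v ∈ V, n * v * n⁻¹ ∈ V := by
    intro v hv
    have h5 : g * v * g⁻¹ ∈ conjS g V := by
      rw [mem_conjS, show g⁻¹ * (g * v * g⁻¹) * g = v by group]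
      exact hv
    have h6 : (⟨g * v * g⁻¹, hQC h5⟩ : Cu u) ∈ Q := h5
    have h7 := hc h6
    rw [mem_conjS] at h7
    have h8 : (c : G)⁻¹ * (g * v * g⁻¹) * c ∈ V := h7
    rwa [show n * v * n⁻¹ = (c : G)⁻¹ * (g * v * g⁻¹) * c by rw [hn]; group]
  have hnN : n ∈ Subgroup.normalizer (V : Set G) := by
    have h9 : conjS n V = V := by
      apply Subgroup.eq_of_le_of_card_ge
      · intro y hy
        rw [mem_conjS] at hy
        have := h4 _ hy
        rwa [show n * (n⁻¹ * y * n) * n⁻¹ = y by group] at this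
      · exact (Nat.card_congr (V.equivMapOfInjective (MulAut.conj n).toMonoidHom
          (MulAut.conj n).injective).toEquiv).le
    rw [Subgroup.mem_normalizer_iff]
    intro v
    conv_rhs => rw [← h9]
    rw [mem_conjS, show n⁻¹ * (n * v * n⁻¹) * n = v by group]
  have hcu : (c : G) * u = u * c := Subgroup.mem_centralizer_singleton_iff.1 c.2
  have hnu : n * u' * n⁻¹ = u := by
    have h1 : n * u' * n⁻¹ = (c : G)⁻¹ * (g * u' * g⁻¹) * c := by rw [hn]; group
    rw [h1, hg, mul_assoc, ← hcu]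
    group
  have hnb : H75.cj n b' = b := by
    rw [hn, ← cj_cj, hgb]
    exact hb.blk.ix.inv (inv_mem c.2)
  -- the block `cj n γ`
  have hnγ : Bx (Subgroup.centralizer (V : Set G)) (H75.cj n γ) := hL.gam.cj (norm_cent V hnN)
  have hbn : mulF (br V b) (H75.cj n γ) = H75.cj n γ := by
    have h1 := congrArg (H75.cj n) hb'.gam
    rw [cj_mulF, cj_br hnN, hnb] at h1
    exact h1
  obtain ⟨m, hm, hmn⟩ := H97.orb_main (N := Subgroup.normalizer (V : Set G) ⊓ Cu u)
    (X := Subgroup.centralizer (V : Set G)) (le_inf hXN hXC)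
    (inf_le_left.trans (norm_cent V)) hbx hL.gam hnγ hb.gam hbn
  refine ⟨m⁻¹ * n, ⟨Subgroup.mul_mem _ (inv_mem hm.1) hnN, ?_⟩, ?_⟩
  · have h1 : H75.cj (m⁻¹ * n) γ = γ := by
      rw [← cj_cj, hmn, cj_inv_cj]
    exact (cj_eq_iff _ _).1 h1
  · have hmu : m * u = u * m := Subgroup.mem_centralizer_singleton_iff.1 hm.2
    have h1 : m⁻¹ * n * u' * (m⁻¹ * n)⁻¹ = m⁻¹ * (n * u' * n⁻¹) * m := by group
    rw [h1, hnu, mul_assoc, ← hmu]
    group

end Pool.Agent.PP.T3.H79
end
end -- Pool.Agent.Helper79_AT3.FUS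

section -- Pool.Agent.Helper92_C2.DUV

/-!
# Squad C2, row DUV (helper92): the blocks of `N(Q) / Q`

Text: `AWC_C2.md`.
-/

open scoped BigOperators Pointwise

set_option linter.unusedSectionVars false

noncomputable section

namespace Pool.Agent.PP.C2.H92

open Pool.Agent.Helper51_AWC Pool.Agent.Helper79_WRA Pool.Agent.PP Pool.Agent.PP.KF
open Pool.Agent.PP.K9

section push

variable {F A B C : Type} [Field F] [Group A] [Group B] [Group C] [Finite A] [Finite B] [Finite C]

theorem push_add (p : A →* B) (a b : A → F) :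
    H75.push p (a + b) = H75.push p a + H75.push p b := by
  classical
  have := Fintype.ofFinite A
  funext y
  rw [Pi.add_apply, H75.push_eq, H75.push_eq, H75.push_eq, ← Finset.sum_add_distrib]
  apply Finset.sum_congr rfl
  intro x _
  split_ifs
  · rfl
  · rw [add_zero]

/-- the image of a function which vanishes outside a subgroup -/
theorem push_inj (p : A →* B) (i : C →* A) (hi : Function.Injective i) (g : A → F)
    (hg : ∀ x, x ∉ Set.range i → g x = 0) :
    H75.push (p.comp i) (fun c => g (i c)) = H75.push p g := by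
  classical
  have := Fintype.ofFinite A
  have := Fintype.ofFinite C
  funext y
  rw [H75.push_eq, H75.push_eq]
  apply Fintype.sum_of_injective i hi
  · intro x hx
    rw [hg x hx, ite_self]
  · intro c
    rfl

theorem push_off (p : A →* B) (g : A → F) (y : B) (hy : ∀ x, p x ≠ y) : H75.push p g y = 0 := by
  classical
  have := Fintype.ofFinite A
  rw [H75.push_eq]
  apply Finset.sum_eq_zero
  intro x _
  rw [if_neg (hy x)]

theorem push_range (p : A →* B) (g : A → F) (y : p.range) :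
    H75.push p.rangeRestrict g y = H75.push p g y := by
  classical
  have := Fintype.ofFinite A
  rw [H75.push_eq, H75.push_eq]
  apply Finset.sum_congr rfl
  intro x _
  have h : p.rangeRestrict x = y ↔ p x = (y : B) := Subtype.ext_iff
  by_cases h1 : p.rangeRestrict x = y
  · rw [if_pos h1, if_pos (h.1 h1)]
  · rw [if_neg h1, if_neg (fun h2 => h1 (h.2 h2))]

end push

section core

variable {F G A : Type} [Field F] [Group G] [Finite G] [Group A] [Finite A] {ℓ : ℕ}
  [hfact : Fact ℓ.Prime]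

/-- good subgroups of the blocks of the quotient -/
theorem good_up (hF : GoodF ℓ F) {e : G → F} {Q : Subgroup G} {N : Subgroup G}
    (hIN : IsIdem (fun t : N => br Q e t)) {p : N →* A} (hp : Function.Surjective p)
    (hk : IsPGroup ℓ p.ker) {f : A → F} (hf : IsIdem f)
    (hpf : mulF (H75.push p (fun t : N => br Q e t)) f = f) {R : Subgroup A}
    (hR : IsPGroup ℓ R) (hg : Gd f R) : Gd e (upm p R) := by
  have hpI : IsIdem (H75.push p (fun t : N => br Q e t)) := H75.push_isIdem hp hIN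
  have h1 : Gd (H75.push p (fun t : N => br Q e t)) R := by
    by_contra hcon
    obtain ⟨x, hx, hfx⟩ := hg
    apply hfx
    have h2 : br R (H75.push p (fun t : N => br Q e t)) = 0 := by
      funext s
      by_cases hs : s ∈ Subgroup.centralizer (R : Set A)
      · rw [H66.br_of_mem hs]
        by_contra h
        exact hcon ⟨s, hs, h⟩
      · exact H66.br_of_not_mem hs
    have h3 : br R f = 0 := by
      rw [← hpf, H66.br_mulF hF hR (H66.IsCl.inv hpI.1 R) (H66.IsCl.inv hf.1 R), h2,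
        H75.mulF_zero_left]
    have h4 := congrFun h3 x
    rwa [H66.br_of_mem hx] at h4
  have hR1 : IsPGroup ℓ (R.comap p) := (H75.isPGroup_comap_iff hp hk R).2 hR
  have hker : p.ker ≤ R.comap p := by
    intro x hx
    rw [Subgroup.mem_comap, (MonoidHom.mem_ker).1 hx]
    exact one_mem _
  have h5 : Gd (fun t : N => br Q e t) (R.comap p) := by
    rw [H02.pug ℓ F hF N A p hp hk _ hIN (R.comap p) hker hR1,
      Subgroup.map_comap_eq_self_of_surjective hp]
    exact h1
  obtain ⟨x, hx, hex⟩ := h5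
  refine ⟨x, ?_, ?_⟩
  · rw [Subgroup.mem_centralizer_iff]
    intro y hy
    obtain ⟨z, hz, rfl⟩ := hy
    exact congrArg Subtype.val (Subgroup.mem_centralizer_iff.1 hx z hz)
  · intro h
    apply hex
    by_cases hxQ : (x : G) ∈ Subgroup.centralizer (Q : Set G)
    · change br Q e x = 0
      rw [H66.br_of_mem hxQ]
      exact h
    · exact H66.br_of_not_mem hxQ

theorem card_upm {N : Subgroup G} {p : N →* A} (hp : Function.Surjective p) (R : Subgroup A) :
    Nat.card (upm p R) = Nat.card p.ker * Nat.card R := by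
  unfold upm
  rw [Subgroup.card_map_of_injective N.subtype_injective, H75.card_comap hp]

theorem core (hF : GoodF ℓ F) {e : G → F} (he : IsIdem e) {V : Subgroup G} (hV : Tp ℓ e V)
    (hVc : ∀ a ∈ V, ∀ b ∈ V, a * b = b * a)
    (fmg : ∀ Q : Subgroup G, IsPGroup ℓ Q → Gd e Q → ∃ g : G, Q ≤ conjS g V)
    (psn : ∀ (A B : Type) [Group A] [Finite A] [Group B] [Finite B] (p : A →* B),
      Function.Surjective p → IsPGroup ℓ p.ker → p.ker ≤ Subgroup.center A → ∀ e : A → F,
      IsBlk e → IsBlk (H75.push p e))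
    (covn : ∀ (X : Type) [Group X] [Finite X] (Y : Subgroup X), Y.Normal → ∀ b : X → F, Bk Y b →
      ∀ e : X → F, IsIdem e → mulF e b ≠ 0 → ∀ Q : Subgroup X, Q ≤ Y → IsPGroup ℓ Q → Gd b Q →
      Gd e Q)
    {Q : Subgroup G} (hQ : IsPGroup ℓ Q) {N C : Subgroup G}
    (hNdef : N = Subgroup.normalizer (Q : Set G)) (hCdef : C = Subgroup.centralizer (Q : Set G))
    (gdv : ∀ g : G → F, Bk C g → mulF (br Q e) g = g → ∃ P : Subgroup G, IsPGroup ℓ P ∧ Q ≤ P ∧
      P ≤ C ∧ Nat.card P = Nat.card V ∧ Gd g P)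
    {p : N →* A} (hp : Function.Surjective p) (hk : p.ker = Q.subgroupOf N)
    {f : A → F} (hf : IsBlk f) (hpf : mulF (H75.push p (fun t : N => br Q e t)) f = f) :
    ∃ R : Subgroup A, Tp ℓ f R ∧ ∃ g : G, upm p R = conjS g V := by
  classical
  have hQN : Q ≤ N := by
    rw [hNdef]
    exact Subgroup.le_normalizer
  have hCN : C ≤ N := by
    rw [hNdef, hCdef]
    exact Subgroup.centralizer_le_normalizer _
  have hkp : IsPGroup ℓ p.ker := by
    rw [hk]
    exact hQ.comap_subtype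
  have hconjC : ∀ n ∈ N, ∀ x ∈ C, n * x * n⁻¹ ∈ C := by
    intro n hn x hx
    rw [hNdef] at hn
    rw [hCdef, Subgroup.mem_centralizer_iff] at hx ⊢
    intro q hq
    have h1 : n⁻¹ * q * n ∈ Q := by
      have h2 := (Subgroup.mem_normalizer_iff.1 (inv_mem hn) q).1 hq
      rwa [inv_inv] at h2
    have h2 := hx _ h1
    calc q * (n * x * n⁻¹) = n * ((n⁻¹ * q * n) * x) * n⁻¹ := by group
      _ = n * (x * (n⁻¹ * q * n)) * n⁻¹ := by rw [h2]
      _ = (n * x * n⁻¹) * q := by group
  have hbrs : ∀ x, x ∉ C → br Q e x = 0 := by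
    intro x hx
    rw [hCdef] at hx
    exact H66.br_of_not_mem hx
  have hbrN : ∀ x, x ∉ N → br Q e x = 0 := fun x hx => hbrs x (fun h => hx (hCN h))
  have hinv : H66.Inv Q e := H66.IsCl.inv he.1 Q
  have hcl : ∀ x, ∀ n ∈ N, br Q e (n * x * n⁻¹) = br Q e x := by
    intro x n hn
    by_cases hx : x ∈ C
    · have h2 := hconjC n hn x hx
      rw [hCdef] at hx h2
      rw [H66.br_of_mem hx, H66.br_of_mem h2]
      exact he.1 _ _
    · rw [hbrs _ hx, hbrs]
      intro h
      apply hx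
      have h1 := hconjC n⁻¹ (N.inv_mem hn) _ h
      have h2 : n⁻¹ * (n * x * n⁻¹) * n⁻¹⁻¹ = x := by group
      rwa [h2] at h1
  have hbrbr : mulF (br Q e) (br Q e) = br Q e := by
    rw [← H66.br_mulF hF hQ hinv hinv, he.2]
  have hIN : IsIdem (fun t : N => br Q e t) := by
    refine ⟨fun x y => hcl x y y.2, ?_⟩
    rw [← H75.mulF_res N (br Q e) hbrN, hbrbr]
  have hIC : IsIdem (fun t : C => br Q e t) := by
    refine ⟨fun x y => hcl x y (hCN y.2), ?_⟩
    rw [← H75.mulF_res C (br Q e) hbrs, hbrbr]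
  -- `Q` is abelian
  have hup : ∀ R : Subgroup A, IsPGroup ℓ R → Gd f R → Gd e (upm p R) := fun R hR hg =>
    good_up hF hIN hp hkp hf.1 hpf hR hg
  have hbotQ : upm p (⊥ : Subgroup A) = Q := by
    unfold upm
    rw [MonoidHom.comap_bot, hk, Subgroup.subgroupOf_map_subtype]
    exact inf_eq_left.2 hQN
  have hGQ : Gd e Q := by
    have h1 : Gd f (⊥ : Subgroup A) := by
      obtain ⟨x, hx⟩ := Function.ne_iff.1 hf.2.1
      refine ⟨x, ?_, hx⟩
      rw [Subgroup.mem_centralizer_iff]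
      intro y hy
      have : y = 1 := Subgroup.mem_bot.1 hy
      rw [this, one_mul, mul_one]
    have h2 := hup ⊥ IsPGroup.of_bot h1
    rwa [hbotQ] at h2
  have hQC : Q ≤ C := by
    obtain ⟨g, hg⟩ := fmg Q hQ hGQ
    intro x hx
    rw [hCdef, Subgroup.mem_centralizer_iff]
    intro y hy
    have h1 := mem_conjS.1 (hg hx)
    have h2 := mem_conjS.1 (hg hy)
    have h3 := hVc _ h2 _ h1
    have e1 : y * x = g * (g⁻¹ * y * g * (g⁻¹ * x * g)) * g⁻¹ := by group
    have e2 : x * y = g * (g⁻¹ * x * g * (g⁻¹ * y * g)) * g⁻¹ := by group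
    rw [e1, e2, h3]
  -- the inclusion of `C`
  obtain ⟨i, hi⟩ : ∃ i : C →* N, i = Subgroup.inclusion hCN := ⟨_, rfl⟩
  have hic : ∀ c : C, ((i c : N) : G) = c := by
    intro c
    rw [hi]
    rfl
  have hii : Function.Injective i := by
    rw [hi]
    exact Subgroup.inclusion_injective hCN
  have hir : ∀ x : N, (x : G) ∈ C → x ∈ Set.range i := by
    intro x hx
    exact ⟨⟨x, hx⟩, Subtype.ext (hic _)⟩
  have hpE : H75.push (p.comp i) (fun t : C => br Q e t) = H75.push p (fun t : N => br Q e t) := by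
    rw [← push_inj p i hii (fun t : N => br Q e t)]
    · congr 1
      funext c
      rw [hic]
    · intro x hx
      apply hbrs
      intro h
      exact hx (hir x h)
  -- the block of `C`
  obtain ⟨g0, hg0, heg0, hgf⟩ := H24.exists_blk
    (L := fun a : C → F => mulF (H75.push (p.comp i) a) f)
    (by rw [H75.push_zero]; exact H75.mulF_zero_left _)
    (fun a b => by rw [push_add, H24.mulF_add_l]) hIC (by
      show mulF (H75.push (p.comp i) (fun t : C => br Q e t)) f ≠ 0
      rw [hpE, hpf]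
      exact hf.2.1)
  obtain ⟨g, hgdef⟩ : ∃ g : G → F, g = H75.ext0 C g0 := ⟨_, rfl⟩
  have hgs : ∀ x, x ∉ C → g x = 0 := by
    rw [hgdef]
    exact H75.ext0_supp C g0
  have hgC : (fun t : C => g t) = g0 := by
    rw [hgdef]
    exact funext (H75.ext0_apply C g0)
  have hBg : Bk C g := ⟨hgs, by rw [hgC]; exact hg0⟩
  have heg : mulF (br Q e) g = g := by
    apply H75.eq_of_res (H75.mulF_supp C hbrs hgs) hgs
    rw [H75.mulF_res C g hbrs, hgC, heg0]
  obtain ⟨P, hP, hQP, hPC, hcP, hgP⟩ := gdv g hBg heg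
  have hPN : P ≤ N := hPC.trans hCN
  -- the image of `C`
  obtain ⟨q, hq⟩ : ∃ q : C →* A, q = p.comp i := ⟨_, rfl⟩
  have hqc : ∀ c : C, q c = p (i c) := by
    intro c
    rw [hq]
    rfl
  have hqker : ∀ c : C, q c = 1 ↔ (c : G) ∈ Q := by
    intro c
    rw [hqc, ← MonoidHom.mem_ker, hk, Subgroup.mem_subgroupOf, hic]
  have hrs : Function.Surjective q.rangeRestrict := MonoidHom.rangeRestrict_surjective q
  have hrk : IsPGroup ℓ q.rangeRestrict.ker := by
    have h1 : q.rangeRestrict.ker = Q.subgroupOf C := by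
      rw [MonoidHom.ker_rangeRestrict]
      ext c
      rw [MonoidHom.mem_ker, hqker, Subgroup.mem_subgroupOf]
    rw [h1]
    exact hQ.comap_subtype
  have hrc : q.rangeRestrict.ker ≤ Subgroup.center C := by
    intro c hc
    rw [MonoidHom.ker_rangeRestrict, MonoidHom.mem_ker, hqker] at hc
    rw [Subgroup.mem_center_iff]
    intro d
    apply Subtype.ext
    have hd : (d : G) ∈ Subgroup.centralizer (Q : Set G) := hCdef ▸ d.2
    rw [Subgroup.mem_centralizer_iff] at hd
    exact (hd _ hc).symm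
  have hb1 : IsBlk (H75.push q.rangeRestrict g0) := psn C q.range q.rangeRestrict hrs hrk hrc g0 hg0
  obtain ⟨b, hb⟩ : ∃ b : A → F, b = H75.push q g0 := ⟨_, rfl⟩
  have hbr' : (fun t : q.range => b t) = H75.push q.rangeRestrict g0 := by
    funext t
    rw [hb, push_range]
  have hBb : Bk q.range b := by
    refine ⟨?_, by rw [hbr']; exact hb1⟩
    intro x hx
    rw [hb]
    apply push_off
    intro c hc
    exact hx ⟨c, hc⟩
  have hYn : q.range.Normal := by
    refine ⟨?_⟩
    rintro _ ⟨c, rfl⟩ a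
    obtain ⟨n, rfl⟩ := hp a
    refine ⟨⟨(n : G) * c * (n : G)⁻¹, hconjC n n.2 c c.2⟩, ?_⟩
    rw [hqc, hqc, ← map_mul, ← map_inv, ← map_mul]
    congr 1
    apply Subtype.ext
    rw [hic]
    show (n : G) * c * (n : G)⁻¹ = n * (i c : N) * (n : G)⁻¹
    rw [hic]
  -- the image of `P`
  obtain ⟨R, hR⟩ : ∃ R : Subgroup A, R = (P.subgroupOf N).map p := ⟨_, rfl⟩
  have hRp : IsPGroup ℓ R := by
    rw [hR]
    exact hP.comap_subtype.map p
  have hRY : R ≤ q.range := by
    rw [hR]
    rintro _ ⟨n, hn, rfl⟩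
    have hnC : (n : G) ∈ C := hPC hn
    refine ⟨⟨n, hnC⟩, ?_⟩
    rw [hqc]
    congr 1
    exact Subtype.ext (hic _)
  have hGb : Gd b R := by
    have h1 : Gd g0 (P.subgroupOf C) := by
      obtain ⟨x, hx, hgx⟩ := hgP
      have hxC : x ∈ C := by
        by_contra h
        exact hgx (hgs x h)
      refine ⟨⟨x, hxC⟩, ?_, ?_⟩
      · rw [Subgroup.mem_centralizer_iff]
        intro y hy
        apply Subtype.ext
        exact Subgroup.mem_centralizer_iff.1 hx y hy
      · have h2 : g x = g0 ⟨x, hxC⟩ := congrFun hgC ⟨x, hxC⟩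
        rw [← h2]
        exact hgx
    have h2 : q.rangeRestrict.ker ≤ P.subgroupOf C := by
      intro c hc
      rw [MonoidHom.ker_rangeRestrict, MonoidHom.mem_ker, hqker] at hc
      exact hQP hc
    have h3 := (H02.pug ℓ F hF C q.range q.rangeRestrict hrs hrk g0 hg0.1 (P.subgroupOf C) h2
      hP.comap_subtype).1 h1
    obtain ⟨y, hy, hgy⟩ := h3
    refine ⟨y, ?_, ?_⟩
    · rw [Subgroup.mem_centralizer_iff]
      intro z hz
      have hz' : z ∈ R := hz
      rw [hR] at hz'
      obtain ⟨n, hn, rfl⟩ := hz'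
      have hnC : (n : G) ∈ C := hPC hn
      have h4 := Subgroup.mem_centralizer_iff.1 hy (q.rangeRestrict ⟨n, hnC⟩)
        ⟨⟨n, hnC⟩, hn, rfl⟩
      have h5 := congrArg Subtype.val h4
      have h6 : ((q.rangeRestrict ⟨n, hnC⟩ : q.range) : A) = p n := by
        show q ⟨n, hnC⟩ = p n
        rw [hqc]
        congr 1
        exact Subtype.ext (hic _)
      change ((q.rangeRestrict ⟨n, hnC⟩ : q.range) : A) * y = y * ((q.rangeRestrict ⟨n, hnC⟩ :
        q.range) : A) at h5
      rw [h6] at h5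
      exact h5
    · rw [hb, ← push_range]
      exact hgy
  have hfb : mulF f b ≠ 0 := by
    rw [H75.mulF_comm_cl hf.1.1 b, hb, hq]
    exact hgf
  have hGf : Gd f R := covn A q.range hYn b hBb f hf.1 hfb R hRY hRp hGb
  -- the preimage of `R`
  have hRc : R.comap p = P.subgroupOf N := by
    rw [hR, Subgroup.comap_map_eq, hk]
    apply sup_eq_left.2
    intro x hx
    exact hQP hx
  have hRu : upm p R = P := by
    unfold upm
    rw [hRc, Subgroup.subgroupOf_map_subtype]
    exact inf_eq_left.2 hPN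
  refine ⟨R, ⟨hRp, hGf, ?_⟩, ?_⟩
  · intro S hS hgS
    have h1 := hup S hS hgS
    have h2 : IsPGroup ℓ (upm p S) := ((H75.isPGroup_comap_iff hp hkp S).2 hS).map N.subtype
    have h3 := hV.mx _ h2 h1
    rw [← hcP, ← hRu, card_upm hp, card_upm hp] at h3
    exact Nat.le_of_mul_le_mul_left h3 Nat.card_pos
  · have h1 := hup R hRp hGf
    rw [hRu] at h1 ⊢
    obtain ⟨x, hx⟩ := fmg P hP h1
    refine ⟨x, ?_⟩
    apply Subgroup.eq_of_le_of_card_ge hx
    rw [KF.H55.card_conj4, hcP]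

end core

attribute [local instance] Ideal.Quotient.field

/-- DUV -/
theorem duv (hG : GdvStmt) (hC : CovnStmt) (hP : PsnStmt) : DuvStmt := by
  intro ℓ hfact M _ hM G _ _ e he V hV hVc Q hQ A _ _ p hp hk f hf hpf
  have hF : GoodF ℓ (FF M) := H50.fld ℓ hfact.out M hM
  exact core hF he.1 hV hVc (H69.fmg ℓ M hM G e he V hV).1
    (fun A B _ _ _ _ p => hP ℓ (FF M) hF A B p)
    (fun X _ _ Y => hC ℓ (FF M) hF X Y) hQ rfl rfl
    (fun g hg heg => hG ℓ M hM G e he V hV hVc Q hQ g hg heg) hp hk hf hpf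

end Pool.Agent.PP.C2.H92
end
end -- Pool.Agent.Helper92_C2.DUV

section -- Pool.Agent.Helper69_AT2.Teb1

/-!
# Squad AT2, row TEB, part 1
-/

open scoped BigOperators

noncomputable section

namespace Pool.Agent.PP.T2.H69

open Pool.Agent.Helper51_AWC Pool.Agent.Helper79_WRA Pool.Agent.PP Pool.Agent.PP.KF
open Pool.Agent.PP.K9 Pool.Agent.PP.K9.H97 Pool.Agent.PP.H75 Pool.Agent.PP.T3

section fin

variable {F G : Type} [Field F] [Group G] [Finite G]

/-- a subgroup has only finitely many blocks -/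
theorem bx_finite (X : Subgroup G) : {b : G → F | Bx X b}.Finite := by
  have h : LinearIndependent F (fun b : {b : G → F | Bx X b} => (b : G → F)) := by
    rw [linearIndependent_iff']
    intro s g hg b hb
    have h1 : ma (∑ i ∈ s, g i • (i : G → F)) = 0 := by rw [hg, ma_zero]
    rw [ma_sum] at h1
    have h2 : ma (b : G → F) * ∑ i ∈ s, ma (g i • (i : G → F)) = g b • ma (b : G → F) := by
      rw [Finset.mul_sum, Finset.sum_eq_single_of_mem b hb]
      · rw [ma_smul, mul_smul_comm, ← ma_mul, b.2.mul]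
      · intro i _ hi
        rw [ma_smul, mul_smul_comm, ← ma_mul]
        rcases b.2.dich i.2 with h3 | h3
        · exact absurd (Subtype.ext h3).symm hi
        · rw [h3, ma_zero, smul_zero]
    rw [h1, mul_zero] at h2
    rcases smul_eq_zero.1 h2.symm with h3 | h3
    · exact h3
    · exact absurd (ma_injective (h3.trans ma_zero.symm)) b.2.ne
  exact h.setFinite

end fin

section env

variable {F G : Type} [Field F] [Group G] [Finite G]

/-- the hypotheses of TEB for one subgroup `Q` -/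
structure En (ℓ : ℕ) (U Q : Subgroup G) (f : G → F) : Prop where
  hF : GoodF ℓ F
  bx : Bx (Subgroup.normalizer (U : Set G)) f
  pg : IsPGroup ℓ Q
  ort : ∀ g h : G, Bt U Q g → Bt U Q h → conjS g U ≠ conjS h U →
    mulF (br Q (cj g f)) (br Q (cj h f)) = 0

variable {ℓ : ℕ} {U Q : Subgroup G} {f : G → F}

omit [Finite G] in
theorem conjS_mul (g h : G) (D : Subgroup G) : conjS (g * h) D = conjS g (conjS h D) := by
  ext x
  rw [H62.mem_conjS, H62.mem_conjS, H62.mem_conjS]
  have e : (g * h)⁻¹ * x * (g * h) = h⁻¹ * (g⁻¹ * x * g) * h := by group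
  rw [e]

omit [Finite G] in
theorem conjS_norm {D : Subgroup G} {g : G} (hg : g ∈ Subgroup.normalizer (D : Set G)) :
    conjS g D = D := by
  ext x
  rw [H62.mem_conjS]
  exact conj_mem_iff hg x

omit [Finite G] in
theorem conjS_eq_iff (g h : G) (D : Subgroup G) :
    conjS g D = conjS h D ↔ g⁻¹ * h ∈ Subgroup.normalizer (D : Set G) := by
  constructor
  · intro H
    rw [Subgroup.mem_normalizer_iff]
    intro x
    have h1 : h * x * h⁻¹ ∈ conjS h D ↔ x ∈ D := H62.conjS_mem_iff x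
    rw [← H, H62.mem_conjS] at h1
    rw [← h1]
    have e : g⁻¹ * (h * x * h⁻¹) * g = g⁻¹ * h * x * (g⁻¹ * h)⁻¹ := by group
    rw [e]
  · intro H
    have e : h = g * (g⁻¹ * h) := by group
    rw [e, conjS_mul, conjS_norm H]

omit [Finite G] in
/-- `Bt` depends only on the coset -/
theorem bt_coset {g h : G} (H : g⁻¹ * h ∈ Subgroup.normalizer (U : Set G)) :
    Bt U Q g ↔ Bt U Q h := by
  unfold Bt
  rw [(conjS_eq_iff g h U).2 H]

omit [Finite G] in
theorem bt_mul {n g : G} (hn : n ∈ Subgroup.normalizer (Q : Set G)) :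
    Bt U Q (n * g) ↔ Bt U Q g := by
  have key : ∀ (n g : G), n ∈ Subgroup.normalizer (Q : Set G) → Bt U Q g → Bt U Q (n * g) := by
    intro n g hn hg
    obtain ⟨h1, h2⟩ := hg
    refine ⟨?_, ?_⟩
    · rw [conjS_mul]
      intro x hx
      rw [H62.mem_conjS] at hx
      exact (conj_mem_iff hn x).1 (h1 hx)
    · rw [conjS_mul]
      intro x hx
      rw [H62.mem_cent_conjS]
      exact h2 ((conj_mem_iff hn x).2 hx)
  constructor
  · intro h
    have h1 := key n⁻¹ (n * g) (inv_mem hn) h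
    rwa [inv_mul_cancel_left] at h1
  · exact key n g hn

omit [Finite G] in
theorem mem_conjX (g x : G) : x ∈ conjS g (Subgroup.normalizer (U : Set G)) ↔
    g⁻¹ * x * g ∈ Subgroup.normalizer (U : Set G) := H62.mem_conjS

omit [Finite G] in
theorem cent_le {g : G} (hg : Bt U Q g) :
    Subgroup.centralizer (Q : Set G) ≤ conjS g (Subgroup.normalizer (U : Set G)) := by
  intro x hx
  rw [mem_conjX, ← H62.mem_norm_conjS]
  apply Subgroup.centralizer_le_normalizer
  rw [Subgroup.mem_centralizer_iff] at hx ⊢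
  intro y hy
  exact hx y (hg.1 hy)

omit [Finite G] in
theorem Q_le {g : G} (hg : Bt U Q g) : Q ≤ conjS g (Subgroup.normalizer (U : Set G)) := by
  intro x hx
  rw [mem_conjX, ← H62.mem_norm_conjS]
  exact Subgroup.centralizer_le_normalizer _ (hg.2 hx)

/-- `cj g f` is invariant under `g X g⁻¹` -/
theorem En.cjinv (h : En ℓ U Q f) {g x : G}
    (hx : x ∈ conjS g (Subgroup.normalizer (U : Set G))) : cj x (cj g f) = cj g f := by
  have h1 := h.bx.ix.inv ((mem_conjX g x).1 hx)
  have e : x * g = g * (g⁻¹ * x * g) := by group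
  rw [cj_cj, e, ← cj_cj, h1]

/-- the idempotents `br_Q (cj g f)` -/
def Eg (Q : Subgroup G) (f : G → F) (g : G) : G → F := br Q (cj g f)

omit [Finite G] in
theorem Eg_supp (g : G) : ∀ x, x ∉ Subgroup.centralizer (Q : Set G) → Eg Q f g x = 0 :=
  fun _ hx => H66.br_of_not_mem hx

theorem cj_Eg {n : G} (hn : n ∈ Subgroup.normalizer (Q : Set G)) (g : G) :
    cj n (Eg Q f g) = Eg Q f (n * g) := by
  unfold Eg
  rw [H79.cj_br hn, cj_cj]

theorem En.coset (h : En ℓ U Q f) {g k : G} (H : g⁻¹ * k ∈ Subgroup.normalizer (U : Set G)) :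
    Eg Q f g = Eg Q f k := by
  have e : k = g * (g⁻¹ * k) := by group
  unfold Eg
  rw [e, ← cj_cj, h.bx.ix.inv H]

theorem En.idem (h : En ℓ U Q f) {g : G} (hg : Bt U Q g) :
    mulF (Eg Q f g) (Eg Q f g) = Eg Q f g := by
  have hinv : H66.Inv Q (cj g f) := by
    intro x hx
    exact (cj_eq_iff x _).1 (h.cjinv (Q_le hg hx))
  unfold Eg
  rw [← H66.br_mulF h.hF h.pg hinv hinv, ← cj_mulF, h.bx.mul]

theorem En.orth (h : En ℓ U Q f) {g k : G} (hg : Bt U Q g) (hk : Bt U Q k)
    (H : g⁻¹ * k ∉ Subgroup.normalizer (U : Set G)) : mulF (Eg Q f g) (Eg Q f k) = 0 :=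
  h.ort g k hg hk (fun h' => H ((conjS_eq_iff g k U).1 h'))

theorem En.fixE (h : En ℓ U Q f) {g x : G} (hx : x ∈ Subgroup.normalizer (Q : Set G))
    (hx' : x ∈ conjS g (Subgroup.normalizer (U : Set G))) : cj x (Eg Q f g) = Eg Q f g := by
  rw [cj_Eg hx]
  apply (h.coset _).symm
  rw [mem_conjX] at hx'
  rwa [← mul_assoc]

end env

end Pool.Agent.PP.T2.H69
end
end -- Pool.Agent.Helper69_AT2.Teb1

section -- Pool.Agent.Helper69_AT2.Teb2

/-!
# Squad AT2, row TEB, part 2: the images in `N(Q)/Q`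
-/

open scoped BigOperators

noncomputable section

namespace Pool.Agent.PP.T2.H69

open Pool.Agent.Helper51_AWC Pool.Agent.Helper79_WRA Pool.Agent.PP Pool.Agent.PP.KF
open Pool.Agent.PP.K9 Pool.Agent.PP.K9.H97 Pool.Agent.PP.H75 Pool.Agent.PP.T3

section pushenv

variable {F G A : Type} [Field F] [Group G] [Finite G] [Group A] [Finite A]
variable {ℓ : ℕ} {U Q : Subgroup G} {f : G → F} (p : Subgroup.normalizer (Q : Set G) →* A)

/-- the image of the centraliser -/
def Cp : Subgroup A :=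
  ((Subgroup.centralizer (Q : Set G)).subgroupOf (Subgroup.normalizer (Q : Set G))).map p

/-- the image of `br_Q (cj g f)` -/
def Pg (f : G → F) (g : G) : A → F :=
  push p (fun t : Subgroup.normalizer (Q : Set G) => Eg Q f g t)

/-- the image of `N(Q) ∩ g X g⁻¹` -/
def Ag (U : Subgroup G) (g : G) : Subgroup A :=
  ((conjS g (Subgroup.normalizer (U : Set G))).subgroupOf
    (Subgroup.normalizer (Q : Set G))).map p

omit [Finite G] [Finite A] in
theorem mem_Cp {y : A} : y ∈ Cp p ↔ ∃ n : Subgroup.normalizer (Q : Set G),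
    (n : G) ∈ Subgroup.centralizer (Q : Set G) ∧ p n = y := by
  unfold Cp
  rw [Subgroup.mem_map]
  rfl

omit [Finite G] [Finite A] in
theorem mem_Ag {g : G} {y : A} : y ∈ Ag p U g ↔ ∃ n : Subgroup.normalizer (Q : Set G),
    (n : G) ∈ conjS g (Subgroup.normalizer (U : Set G)) ∧ p n = y := by
  unfold Ag
  rw [Subgroup.mem_map]
  rfl

omit [Finite G] [Finite A] in
theorem Cp_le_Ag {g : G} (hg : Bt U Q g) : Cp p ≤ Ag p U g := by
  intro y hy
  obtain ⟨n, hn, rfl⟩ := (mem_Cp p).1 hy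
  exact (mem_Ag p).2 ⟨n, cent_le hg hn, rfl⟩

theorem Pg_supp (g : G) : ∀ y, y ∉ Cp p → Pg p f g y = 0 := by
  classical
  intro y hy
  have := Fintype.ofFinite (Subgroup.normalizer (Q : Set G))
  unfold Pg
  rw [push_eq]
  refine Finset.sum_eq_zero fun x _ => ?_
  split_ifs with h
  · exact Eg_supp g _ (fun h' => hy ((mem_Cp p).2 ⟨x, h', h⟩))
  · rfl

theorem cj_Pg (n : Subgroup.normalizer (Q : Set G)) (g : G) :
    cj (p n) (Pg p f g) = Pg p f (n * g) := by
  unfold Pg
  rw [← H43.push_cj]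
  congr 1
  have h1 := cj_Eg (Q := Q) (f := f) n.2 g
  funext t
  exact congrFun h1 (t : G)

theorem En.Pg_coset (h : En ℓ U Q f) {g k : G} (H : g⁻¹ * k ∈ Subgroup.normalizer (U : Set G)) :
    Pg p f g = Pg p f k := by
  unfold Pg
  rw [h.coset H]

theorem En.Pg_fix (h : En ℓ U Q f) {g : G} {n : Subgroup.normalizer (Q : Set G)}
    (hn : (n : G) ∈ conjS g (Subgroup.normalizer (U : Set G))) :
    cj (p n) (Pg p f g) = Pg p f g := by
  rw [cj_Pg]
  apply (h.Pg_coset p _).symm
  rw [mem_conjX] at hn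
  rwa [← mul_assoc]

theorem mulF_Pg (g k : G) : mulF (Pg p f g) (Pg p f k) =
    push p (fun t : Subgroup.normalizer (Q : Set G) => mulF (Eg Q f g) (Eg Q f k) t) := by
  unfold Pg
  rw [← push_mulF, mulF_res (Subgroup.normalizer (Q : Set G)) (Eg Q f k)
    (fun x hx => Eg_supp g x (fun h => hx (Subgroup.centralizer_le_normalizer _ h)))]

theorem En.Pg_idem (h : En ℓ U Q f) {g : G} (hg : Bt U Q g) :
    mulF (Pg p f g) (Pg p f g) = Pg p f g := by
  rw [mulF_Pg, h.idem hg]
  rfl

theorem En.Pg_orth (h : En ℓ U Q f) {g k : G} (hg : Bt U Q g) (hk : Bt U Q k)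
    (H : g⁻¹ * k ∉ Subgroup.normalizer (U : Set G)) : mulF (Pg p f g) (Pg p f k) = 0 := by
  rw [mulF_Pg, h.orth hg hk H]
  exact push_zero p

/-- the index set -/
def II (U Q : Subgroup G) : Finset (G ⧸ Subgroup.normalizer (U : Set G)) :=
  open Classical in
  letI := Fintype.ofFinite (G ⧸ Subgroup.normalizer (U : Set G))
  Finset.univ.filter (fun q => Bt U Q q.out)

theorem mem_II {q : G ⧸ Subgroup.normalizer (U : Set G)} : q ∈ II U Q ↔ Bt U Q q.out := by
  classical
  unfold II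
  rw [Finset.mem_filter]
  exact ⟨fun h => h.2, fun h => ⟨@Finset.mem_univ _ (Fintype.ofFinite _) _, h⟩⟩

theorem finsum_II {V : Type} [AddCommMonoid V] (w : G ⧸ Subgroup.normalizer (U : Set G) → V) :
    ∑ᶠ (q : G ⧸ Subgroup.normalizer (U : Set G)) (_ : Bt U Q q.out), w q = ∑ q ∈ II U Q, w q := by
  rw [← finsum_mem_coe_finset]
  apply finsum_congr
  intro q
  have h1 : Bt U Q q.out = (q ∈ (II U Q : Set (G ⧸ Subgroup.normalizer (U : Set G)))) :=
    propext (mem_II.symm.trans Finset.mem_coe.symm)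
  exact congrArg (fun P : Prop => ∑ᶠ (_ : P), w q) h1

theorem push_sum {ι : Type} (s : Finset ι) (a : ι → Subgroup.normalizer (Q : Set G) → F) :
    push p (∑ i ∈ s, a i) = ∑ i ∈ s, push p (a i) := by
  classical
  induction s using Finset.induction_on with
  | empty => rw [Finset.sum_empty, Finset.sum_empty]; exact push_zero p
  | insert i s hi ih => rw [Finset.sum_insert hi, Finset.sum_insert hi, H43.push_add, ih]

theorem push_brU : push p (fun t : Subgroup.normalizer (Q : Set G) => brU U Q f t) =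
    ∑ q ∈ II U Q, Pg p f q.out := by
  have h1 : (fun t : Subgroup.normalizer (Q : Set G) => brU U Q f t) =
      ∑ q ∈ II U Q, fun t : Subgroup.normalizer (Q : Set G) => Eg Q f q.out t := by
    funext t
    rw [Finset.sum_apply]
    exact finsum_II (fun q => Eg Q f q.out t)
  rw [h1, push_sum]
  rfl

theorem En.out_ne {q k : G ⧸ Subgroup.normalizer (U : Set G)} (hqk : q ≠ k) :
    q.out⁻¹ * k.out ∉ Subgroup.normalizer (U : Set G) := by
  intro h
  apply hqk
  rw [← QuotientGroup.out_eq' q, ← QuotientGroup.out_eq' k]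
  exact QuotientGroup.eq.2 h

/-- products with the sum -/
theorem En.mul_sum (h : En ℓ U Q f) {q : G ⧸ Subgroup.normalizer (U : Set G)}
    (hq : q ∈ II U Q) : mulF (∑ k ∈ II U Q, Pg p f k.out) (Pg p f q.out) = Pg p f q.out := by
  apply ma_injective
  rw [ma_mul, ma_sum, Finset.sum_mul, Finset.sum_eq_single_of_mem q hq]
  · rw [← ma_mul, h.Pg_idem p (mem_II.1 hq)]
  · intro k hk hkq
    rw [← ma_mul, h.Pg_orth p (mem_II.1 hk) (mem_II.1 hq) (En.out_ne hkq), ma_zero]

theorem En.sum_idem (h : En ℓ U Q f) (hp : Function.Surjective p) :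
    IsIdem (∑ k ∈ II U Q, Pg p f k.out) := by
  constructor
  · intro x y
    obtain ⟨n, rfl⟩ := hp y
    have h1 : cj (p n)⁻¹ (∑ k ∈ II U Q, Pg p f k.out) = ∑ k ∈ II U Q, Pg p f k.out := by
      rw [← map_inv]
      obtain ⟨m, hm⟩ : ∃ m, m = n⁻¹ := ⟨_, rfl⟩
      rw [← hm]
      have h2 : cj (p m) (∑ k ∈ II U Q, Pg p f k.out) =
          ∑ k ∈ II U Q, cj (p m) (Pg p f k.out) := by
        funext z
        rw [Finset.sum_apply]
        show (∑ k ∈ II U Q, Pg p f k.out) _ = _
        rw [Finset.sum_apply]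
        rfl
      rw [h2]
      refine Finset.sum_bij (fun k _ => (m : G) • k) ?_ ?_ ?_ ?_
      · intro k hk
        rw [mem_II] at hk ⊢
        have h3 : ((m : G) * k.out)⁻¹ * ((m : G) • k).out ∈ Subgroup.normalizer (U : Set G) := by
          rw [← QuotientGroup.eq, QuotientGroup.out_eq']
          have h4 : (((m : G) * k.out : G) : G ⧸ Subgroup.normalizer (U : Set G)) =
              (m : G) • ((k.out : G) : G ⧸ Subgroup.normalizer (U : Set G)) := rfl
          rw [h4, QuotientGroup.out_eq']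
        exact (bt_coset h3).1 ((bt_mul m.2).2 hk)
      · intro a _ b _ hab
        exact smul_left_cancel (m : G) hab
      · intro k hk
        refine ⟨(m : G)⁻¹ • k, ?_, smul_inv_smul _ _⟩
        rw [mem_II] at hk ⊢
        have h3 : ((m : G)⁻¹ * k.out)⁻¹ * ((m : G)⁻¹ • k).out ∈
            Subgroup.normalizer (U : Set G) := by
          rw [← QuotientGroup.eq, QuotientGroup.out_eq']
          have h4 : (((m : G)⁻¹ * k.out : G) : G ⧸ Subgroup.normalizer (U : Set G)) =
              (m : G)⁻¹ • ((k.out : G) : G ⧸ Subgroup.normalizer (U : Set G)) := rfl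
          rw [h4, QuotientGroup.out_eq']
        exact (bt_coset h3).1 ((bt_mul (inv_mem m.2)).2 hk)
      · intro k hk
        rw [cj_Pg]
        apply h.Pg_coset
        rw [← QuotientGroup.eq, QuotientGroup.out_eq']
        have h4 : (((m : G) * k.out : G) : G ⧸ Subgroup.normalizer (U : Set G)) =
            (m : G) • ((k.out : G) : G ⧸ Subgroup.normalizer (U : Set G)) := rfl
        rw [h4, QuotientGroup.out_eq']
    have h5 := congrFun h1 x
    have h6 : cj (p n)⁻¹ (∑ k ∈ II U Q, Pg p f k.out) x =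
        (∑ k ∈ II U Q, Pg p f k.out) (p n * x * (p n)⁻¹) := by
      unfold cj
      rw [inv_inv]
    rw [← h6, h5]
  · apply ma_injective
    rw [ma_mul]
    conv_lhs =>
      rw [ma_sum (II U Q) (fun k => Pg p f k.out), Finset.mul_sum]
    rw [ma_sum]
    refine Finset.sum_congr rfl fun q hq => ?_
    have h1 := congrArg ma (h.mul_sum p hq)
    rw [ma_mul, ma_sum] at h1
    exact h1

theorem En.ixP (h : En ℓ U Q f) {g : G} (hg : Bt U Q g) : Ix (Cp p) (Pg p f g) := by
  refine ⟨Pg_supp p g, ?_, ?_⟩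
  · intro x y
    obtain ⟨n, hn, hny⟩ := (mem_Cp p).1 y.2
    have h1 := (cj_eq_iff _ _).1 (h.Pg_fix p (cent_le hg hn)) (x : A)
    rw [hny] at h1
    exact h1
  · rw [← mulF_res (Cp p) _ (Pg_supp p g), h.Pg_idem p hg]

/-- the stabiliser of a block under `E_g` -/
theorem En.stab_le (h : En ℓ U Q f) (hp : Function.Surjective p) {g : G} (hg : Bt U Q g)
    {b : A → F} (hb : b ≠ 0) (hgb : mulF (Pg p f g) b = b) : stabF b ≤ Ag p U g := by
  intro α hα
  obtain ⟨n, rfl⟩ := hp α
  rw [mem_Ag]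
  refine ⟨n, ?_, rfl⟩
  by_contra hn
  apply hb
  have h1 : cj (p n) b = b := (cj_eq_iff _ _).2 hα
  have h2 : mulF (Pg p f (n * g)) b = b := by
    rw [← cj_Pg]
    conv_lhs => rw [← h1]
    rw [← cj_mulF, hgb, h1]
  have h3 : mulF (Pg p f (n * g)) (Pg p f g) = 0 := by
    apply h.Pg_orth p ((bt_mul n.2).2 hg) hg
    intro h4
    apply hn
    rw [mem_conjX]
    have h5 := inv_mem h4
    have e : (((n : G) * g)⁻¹ * g)⁻¹ = g⁻¹ * n * g := by group
    rwa [e] at h5
  rw [← h2, ← hgb, ← H20.mulF_assoc, h3, mulF_zero_left]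

/-- a block under `E` is under one of the `E_q` -/
theorem En.exists_q (h : En ℓ U Q f) {b : A → F} (hb : Bx (Cp p) b)
    (hE : mulF (∑ k ∈ II U Q, Pg p f k.out) b = b) :
    ∃ q ∈ II U Q, mulF (Pg p f q.out) b = b := by
  by_contra hcon
  push Not at hcon
  apply hb.ne
  rw [← hE]
  apply ma_injective
  rw [ma_mul, ma_sum, Finset.sum_mul, ma_zero]
  refine Finset.sum_eq_zero fun q hq => ?_
  have h1 := h.ixP p (mem_II.1 hq)
  rw [← ma_mul]
  rcases hb.dich' h1 with h2 | h2
  · rw [hb.ix.comm h1] at h2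
    exact absurd h2 (hcon q hq)
  · rw [hb.ix.comm h1] at h2
    rw [h2, ma_zero]

theorem En.uniq_q (h : En ℓ U Q f) {b : A → F} (hb : b ≠ 0)
    {q k : G ⧸ Subgroup.normalizer (U : Set G)} (hq : q ∈ II U Q) (hk : k ∈ II U Q)
    (h1 : mulF (Pg p f q.out) b = b) (h2 : mulF (Pg p f k.out) b = b) : q = k := by
  by_contra hne
  apply hb
  have h3 := h.Pg_orth p (mem_II.1 hq) (mem_II.1 hk) (En.out_ne hne)
  rw [← h1, ← h2, ← H20.mulF_assoc, h3, mulF_zero_left]

theorem En.under_q (h : En ℓ U Q f) {b : A → F}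
    {q : G ⧸ Subgroup.normalizer (U : Set G)} (hq : q ∈ II U Q)
    (h1 : mulF (Pg p f q.out) b = b) : mulF (∑ k ∈ II U Q, Pg p f k.out) b = b := by
  conv_lhs => rw [← h1]
  rw [← H20.mulF_assoc, h.mul_sum p hq, h1]

end pushenv

end Pool.Agent.PP.T2.H69
end
end -- Pool.Agent.Helper69_AT2.Teb2

section -- Pool.Agent.Helper69_AT2.Teb3

/-!
# Squad AT2, row TEB, part 3: the theorem of Fong and Reynolds in `N(Q)/Q` and in the subgroups
-/

open scoped BigOperators

noncomputable section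

namespace Pool.Agent.PP.T2.H69

open Pool.Agent.Helper51_AWC Pool.Agent.Helper79_WRA Pool.Agent.PP Pool.Agent.PP.KF
open Pool.Agent.PP.K9 Pool.Agent.PP.K9.H97 Pool.Agent.PP.H75 Pool.Agent.PP.T3

section sub

variable {F A : Type} [Field F] [Group A] [Finite A] {K C : Subgroup A}

/-- transport of the alternating sum between two descriptions of the same subgroup -/
theorem YY_range {B : Type} [Group B] [Finite B] (ℓ : ℕ) (φ : B →* A)
    (hφ : Function.Injective φ) {L : Subgroup A} (hL : φ.range = L) (a : A → F) :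
    YY ℓ (⊤ : Subgroup B) (fun x => a (φ x)) = YY ℓ (⊤ : Subgroup L) (fun x : L => a x) := by
  have h1 := YY_transport ℓ φ hφ ⊤ a
  have h2 := YY_subgroup ℓ L L le_rfl a
  rw [Subgroup.subgroupOf_self] at h2
  have h3 : (⊤ : Subgroup B).map φ = L := by rw [← hL, MonoidHom.range_eq_map]
  rw [h1, h2, h3, hL]

/-- the stabiliser of the restriction -/
theorem mem_stab_res (hCK : C ≤ K) {b : A → F} (hb : ∀ x, x ∉ C → b x = 0) (t : K) :
    t ∈ stabF (fun x : K => b x) ↔ (t : A) ∈ stabF b := by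
  constructor
  · intro h x
    by_cases hx : x ∈ K
    · exact h ⟨x, hx⟩
    · rw [hb x (fun h' => hx (hCK h')), hb]
      intro h'
      apply hx
      have h3 := K.mul_mem (K.mul_mem (K.inv_mem t.2) (hCK h')) t.2
      have e : (t : A)⁻¹ * (t * x * (t : A)⁻¹) * t = x := by group
      rwa [e] at h3
  · intro h x
    exact h (x : A)

theorem YY_stab (ℓ : ℕ) (hCK : C ≤ K) {b : A → F} (hb : ∀ x, x ∉ C → b x = 0)
    (hs : stabF b ≤ K) :
    YY ℓ (⊤ : Subgroup (stabF (fun x : K => b x)))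
      (fun t : stabF (fun x : K => b x) => b ((t : K) : A)) =
    YY ℓ (⊤ : Subgroup (stabF b)) (fun t : stabF b => b t) := by
  have h1 : (K.subtype.comp (stabF (fun x : K => b x)).subtype).range = stabF b := by
    ext y
    rw [MonoidHom.mem_range]
    constructor
    · rintro ⟨t, rfl⟩
      exact (mem_stab_res hCK hb (t : K)).1 t.2
    · intro hy
      exact ⟨⟨⟨y, hs hy⟩, (mem_stab_res hCK hb ⟨y, hs hy⟩).2 hy⟩, rfl⟩
  exact YY_range ℓ (K.subtype.comp (stabF (fun x : K => b x)).subtype)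
    (K.subtype_injective.comp (Subgroup.subtype_injective _)) h1 b

/-- restriction of a block of `C ≤ K` to `K` -/
theorem bx_res (hCK : C ≤ K) {b : A → F} (hb : Bx C b) :
    Bx (C.subgroupOf K) (fun t : K => b t) := by
  refine ⟨fun x hx => hb.supp x hx, ?_⟩
  exact H20.IsBlk_equiv (Subgroup.subgroupOfEquivOfLe hCK) hb.blk

theorem bx_ext (hCK : C ≤ K) {b' : K → F} (hb : Bx (C.subgroupOf K) b') :
    Bx C (H75.ext0 K b') := by
  have hs : ∀ x, x ∉ C → H75.ext0 K b' x = 0 := by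
    intro x hx
    by_cases hxK : x ∈ K
    · have := ext0_apply K b' ⟨x, hxK⟩
      rw [this]
      exact hb.supp _ hx
    · exact ext0_supp K b' x hxK
  refine ⟨hs, ?_⟩
  have h1 := H20.IsBlk_equiv (Subgroup.subgroupOfEquivOfLe hCK).symm hb.blk
  have h2 : (fun t : C => H75.ext0 K b' t) =
      fun t : C => b' (((Subgroup.subgroupOfEquivOfLe hCK).symm t : C.subgroupOf K) : K) := by
    funext t
    exact ext0_apply K b' ⟨(t : A), hCK t.2⟩
  rw [h2]
  exact h1

end sub

section frs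

variable {F G A : Type} [Field F] [Group G] [Finite G] [Group A] [Finite A]
variable {ℓ : ℕ} {U Q : Subgroup G} {f : G → F} (p : Subgroup.normalizer (Q : Set G) →* A)

/-- the value of a block -/
def WW (ℓ : ℕ) (b : A → F) : ℤ := YY ℓ (⊤ : Subgroup (stabF b)) (fun t : stabF b => b t)

theorem Cp_normal (hp : Function.Surjective p) : (Cp p).Normal := by
  have h1 : ((Subgroup.centralizer (Q : Set G)).subgroupOf
      (Subgroup.normalizer (Q : Set G))).Normal := by
    refine ⟨fun x hx n => ?_⟩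
    rw [Subgroup.mem_subgroupOf] at hx ⊢
    exact (Subgroup.mem_normalizer_iff.1 (H79.norm_cent Q n.2) (x : G)).1 hx
  exact Subgroup.Normal.map h1 p hp

/-- FRS in the subgroup `A_g` -/
theorem En.frs_g [Fact ℓ.Prime] (frs : FrsStmt) (h : En ℓ U Q f) (hp : Function.Surjective p)
    {g : G} (hg : Bt U Q g) :
    ∑ᶠ b ∈ {b : A → F | Bx (Cp p) b ∧ mulF (Pg p f g) b = b}, WW ℓ b =
      YY ℓ (⊤ : Subgroup (Ag p U g)) (fun t : Ag p U g => Pg p f g t) := by
  obtain ⟨K, hK⟩ : ∃ K, K = Ag p U g := ⟨_, rfl⟩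
  have hCK : Cp p ≤ K := by rw [hK]; exact Cp_le_Ag p hg
  have hst : ∀ b : A → F, b ≠ 0 → mulF (Pg p f g) b = b → stabF b ≤ K := by
    rw [hK]
    exact fun b hb hgb => h.stab_le p hp hg hb hgb
  have hfix : ∀ y ∈ K, cj y (Pg p f g) = Pg p f g := by
    rw [hK]
    intro y hy
    obtain ⟨n, hn, rfl⟩ := (mem_Ag p).1 hy
    exact h.Pg_fix p hn
  rw [← hK]
  have hPs := Pg_supp (f := f) p g
  have hPK : ∀ x, x ∉ K → Pg p f g x = 0 := fun x hx => hPs x (fun h' => hx (hCK h'))
  have hn : ((Cp p).subgroupOf K).Normal := by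
    have := Cp_normal p hp
    infer_instance
  have hid : IsIdem (fun t : K => Pg p f g t) := by
    constructor
    · intro x y
      have h1 := (cj_eq_iff _ _).1 (hfix (y : A) y.2) (x : A)
      exact h1
    · rw [← mulF_res K _ hPK, h.Pg_idem p hg]
  have h1 := frs ℓ F h.hF K ((Cp p).subgroupOf K) hn (fun t : K => Pg p f g t) hid
    (fun x hx => hPs x hx)
  rw [h1]
  refine finsum_mem_eq_of_bijOn (s := {b : A → F | Bx (Cp p) b ∧ mulF (Pg p f g) b = b})
    (t := {b' : K → F | Bx ((Cp p).subgroupOf K) b' ∧ mulF (fun t : K => Pg p f g t) b' = b'})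
    (fun b => fun t : K => b t) ⟨?_, ?_, ?_⟩ ?_
  · rintro b ⟨hb1, hb2⟩
    refine ⟨bx_res hCK hb1, ?_⟩
    rw [← mulF_res K b hPK, hb2]
  · rintro b ⟨hb1, -⟩ c ⟨hc1, -⟩ hbc
    exact eq_of_res (fun x hx => hb1.supp x (fun h' => hx (hCK h')))
      (fun x hx => hc1.supp x (fun h' => hx (hCK h'))) hbc
  · rintro b' ⟨hb1, hb2⟩
    have h3 : (fun t : K => H75.ext0 K b' t) = b' := funext (ext0_apply K b')
    refine ⟨H75.ext0 K b', ⟨bx_ext hCK hb1, ?_⟩, h3⟩
    apply eq_of_res (N := K) (mulF_supp K hPK (ext0_supp K b')) (ext0_supp K b')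
    rw [mulF_res K _ hPK, h3, hb2]
  · rintro b ⟨hb1, hb2⟩
    exact (YY_stab ℓ hCK hb1.supp (hst b hb1.ne hb2)).symm

/-- FRS in `A`, compared with the subgroups -/
theorem En.frs_all [Fact ℓ.Prime] (frs : FrsStmt) (h : En ℓ U Q f)
    (hp : Function.Surjective p) :
    YY ℓ (⊤ : Subgroup A) (push p (fun t : Subgroup.normalizer (Q : Set G) => brU U Q f t)) =
      ∑ q ∈ II U Q, YY ℓ (⊤ : Subgroup (Ag p U q.out)) (fun t : Ag p U q.out => Pg p f q.out t) := by
  rw [push_brU]
  have hsupp : ∀ x, x ∉ Cp p → (∑ k ∈ II U Q, Pg p f k.out) x = 0 := by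
    intro x hx
    rw [Finset.sum_apply]
    exact Finset.sum_eq_zero fun q _ => Pg_supp p q.out x hx
  rw [frs ℓ F h.hF A (Cp p) (Cp_normal p hp) _ (h.sum_idem p hp) hsupp]
  have h1 : {b : A → F | Bx (Cp p) b ∧ mulF (∑ k ∈ II U Q, Pg p f k.out) b = b} =
      ⋃ q ∈ (II U Q : Set (G ⧸ Subgroup.normalizer (U : Set G))),
        {b : A → F | Bx (Cp p) b ∧ mulF (Pg p f q.out) b = b} := by
    ext b
    rw [Set.mem_iUnion₂]
    constructor
    · rintro ⟨hb1, hb2⟩
      obtain ⟨q, hq, hqb⟩ := h.exists_q p hb1 hb2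
      exact ⟨q, hq, hb1, hqb⟩
    · rintro ⟨q, hq, hb1, hb2⟩
      exact ⟨hb1, h.under_q p hq hb2⟩
  have h2 : ∑ᶠ (b : A → F) (_ : Bx (Cp p) b ∧ mulF (∑ k ∈ II U Q, Pg p f k.out) b = b),
      YY ℓ (⊤ : Subgroup (stabF b)) (fun t : stabF b => b t) =
      ∑ᶠ b ∈ {b : A → F | Bx (Cp p) b ∧ mulF (∑ k ∈ II U Q, Pg p f k.out) b = b}, WW ℓ b := rfl
  rw [h2, h1, finsum_mem_biUnion]
  · rw [finsum_mem_coe_finset]
    refine Finset.sum_congr rfl fun q hq => ?_
    exact h.frs_g p frs hp (mem_II.1 hq)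
  · intro q hq k hk hne
    rw [Function.onFun, Set.disjoint_left]
    rintro b ⟨hb1, hb2⟩ ⟨-, hb3⟩
    exact hne (h.uniq_q p hb1.ne hq hk hb2 hb3)
  · exact (II U Q).finite_toSet
  · intro q _
    exact (bx_finite (Cp p)).subset (fun b hb => hb.1)

end frs

end Pool.Agent.PP.T2.H69
end
end -- Pool.Agent.Helper69_AT2.Teb3

section -- Pool.Agent.Helper69_AT2.Teb4

/-!
# Squad AT2, row TEB, part 4: conjugation, and the theorem
-/

open scoped BigOperators

noncomputable section

namespace Pool.Agent.PP.T2.H69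

open Pool.Agent.Helper51_AWC Pool.Agent.Helper79_WRA Pool.Agent.PP Pool.Agent.PP.KF
open Pool.Agent.PP.K9 Pool.Agent.PP.K9.H97 Pool.Agent.PP.H75 Pool.Agent.PP.T3

attribute [local instance] Ideal.Quotient.field

section yq

variable {F G A : Type} [Field F] [Group G] [Finite G] [Group A] [Finite A]
variable {ℓ : ℕ} {U Q : Subgroup G} {f : G → F}

omit [Finite G] in
theorem Q'_le {g : G} (hg : Bt U Q g) : conjS g⁻¹ Q ≤ Subgroup.normalizer (U : Set G) := by
  intro x hx
  rw [H62.mem_conjS] at hx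
  have h1 := (mem_conjX g _).1 (Q_le hg hx)
  have e : g⁻¹ * (g⁻¹⁻¹ * x * g⁻¹) * g = x := by group
  rwa [e] at h1

omit [Finite G] in
theorem mem_NX {g : G} (hg : Bt U Q g) (x : Subgroup.normalizer (U : Set G)) :
    x ∈ Subgroup.normalizer (((conjS g⁻¹ Q).subgroupOf (Subgroup.normalizer (U : Set G)) :
      Subgroup (Subgroup.normalizer (U : Set G))) : Set (Subgroup.normalizer (U : Set G))) ↔
      g * x * g⁻¹ ∈ Subgroup.normalizer (Q : Set G) := by
  rw [← norm_sub (Q'_le hg), Subgroup.mem_subgroupOf, Subgroup.mem_inf, H62.mem_norm_conjS,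
    inv_inv]
  exact ⟨fun h => h.1, fun h => ⟨h, x.2⟩⟩

/-- conjugation with `g` -/
def io {g : G} (hg : Bt U Q g) :
    Subgroup.normalizer (((conjS g⁻¹ Q).subgroupOf (Subgroup.normalizer (U : Set G)) :
      Subgroup (Subgroup.normalizer (U : Set G))) : Set (Subgroup.normalizer (U : Set G))) →*
      Subgroup.normalizer (Q : Set G) where
  toFun x := ⟨g * ((x : Subgroup.normalizer (U : Set G)) : G) * g⁻¹, (mem_NX hg _).1 x.2⟩
  map_one' := by
    apply Subtype.ext
    show g * 1 * g⁻¹ = 1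
    group
  map_mul' x y := by
    apply Subtype.ext
    show g * (((x : Subgroup.normalizer (U : Set G)) : G) *
      ((y : Subgroup.normalizer (U : Set G)) : G)) * g⁻¹ = _
    simp only [Subgroup.coe_mul]
    group

omit [Finite G] in
theorem io_coe {g : G} (hg : Bt U Q g) (x) : ((io hg x : Subgroup.normalizer (Q : Set G)) : G) =
    g * ((x : Subgroup.normalizer (U : Set G)) : G) * g⁻¹ := rfl

omit [Finite G] in
theorem io_inj {g : G} (hg : Bt U Q g) : Function.Injective (io hg) := by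
  intro x y hxy
  have h1 := congrArg Subtype.val hxy
  rw [io_coe, io_coe] at h1
  exact Subtype.ext (Subtype.ext (mul_left_cancel (mul_right_cancel h1)))

/-- TEB for one `g` -/
theorem En.yq (h : En ℓ U Q f) (p : Subgroup.normalizer (Q : Set G) →* A)
    (hker : p.ker = Q.subgroupOf (Subgroup.normalizer (Q : Set G))) {g : G} (hg : Bt U Q g) :
    YY ℓ (⊤ : Subgroup (Ag p U g)) (fun t : Ag p U g => Pg p f g t) =
      YQ ℓ (fun t : Subgroup.normalizer (U : Set G) => f t)
        ((conjS g⁻¹ Q).subgroupOf (Subgroup.normalizer (U : Set G))) := by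
  classical
  have hpk : ∀ n : Subgroup.normalizer (Q : Set G), p n = 1 ↔ (n : G) ∈ Q := by
    intro n
    rw [← MonoidHom.mem_ker, hker, Subgroup.mem_subgroupOf]
  have hQ' : ∀ x : Subgroup.normalizer (U : Set G),
      x ∈ (conjS g⁻¹ Q).subgroupOf (Subgroup.normalizer (U : Set G)) ↔
        g * (x : G) * g⁻¹ ∈ Q := by
    intro x
    rw [Subgroup.mem_subgroupOf, H62.mem_conjS, inv_inv]
  unfold YQ
  obtain ⟨QX, hQX⟩ : ∃ QX, QX = (conjS g⁻¹ Q).subgroupOf (Subgroup.normalizer (U : Set G)) :=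
    ⟨_, rfl⟩
  have hone : ∀ x ∈ ((conjS g⁻¹ Q).subgroupOf (Subgroup.normalizer (U : Set G))).subgroupOf
      (Subgroup.normalizer (((conjS g⁻¹ Q).subgroupOf (Subgroup.normalizer (U : Set G)) :
      Subgroup (Subgroup.normalizer (U : Set G))) : Set (Subgroup.normalizer (U : Set G)))),
      p.comp (io hg) x = 1 := by
    intro x hx
    rw [MonoidHom.comp_apply, hpk, io_coe]
    exact (hQ' _).1 hx
  let φ := QuotientGroup.lift _ (p.comp (io hg)) hone
  have hφ : ∀ x, φ (QuotientGroup.mk' _ x) = p (io hg x) := fun x => rfl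
  have hinj : Function.Injective φ := by
    rw [injective_iff_map_eq_one]
    intro y hy
    obtain ⟨x, rfl⟩ := QuotientGroup.mk'_surjective _ y
    rw [hφ, hpk, io_coe] at hy
    exact (QuotientGroup.eq_one_iff x).2 (Subgroup.mem_subgroupOf.2 ((hQ' _).2 hy))
  have hrange : φ.range = Ag p U g := by
    ext y
    rw [MonoidHom.mem_range, mem_Ag]
    constructor
    · rintro ⟨z, rfl⟩
      obtain ⟨x, rfl⟩ := QuotientGroup.mk'_surjective _ z
      refine ⟨io hg x, ?_, (hφ x).symm⟩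
      rw [io_coe, mem_conjX]
      have e : g⁻¹ * (g * ((x : Subgroup.normalizer (U : Set G)) : G) * g⁻¹) * g =
        ((x : Subgroup.normalizer (U : Set G)) : G) := by group
      rw [e]
      exact (x : Subgroup.normalizer (U : Set G)).2
    · rintro ⟨n, hn, rfl⟩
      have h1 := (mem_conjX g _).1 hn
      have e : g * (g⁻¹ * (n : G) * g) * g⁻¹ = n := by group
      have h2 : (⟨g⁻¹ * n * g, h1⟩ : Subgroup.normalizer (U : Set G)) ∈
          Subgroup.normalizer (((conjS g⁻¹ Q).subgroupOf (Subgroup.normalizer (U : Set G)) :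
      Subgroup (Subgroup.normalizer (U : Set G))) : Set (Subgroup.normalizer (U : Set G))) := by
        rw [mem_NX hg]
        show g * (g⁻¹ * (n : G) * g) * g⁻¹ ∈ _
        rw [e]
        exact n.2
      refine ⟨QuotientGroup.mk' _ ⟨_, h2⟩, ?_⟩
      rw [hφ]
      congr 1
      apply Subtype.ext
      rw [io_coe]
      exact e
  rw [← YY_range ℓ φ hinj hrange (Pg p f g)]
  congr 1
  -- the functions
  have h3 : Pg p f g = push (p.comp (io hg))
      (fun c => Eg Q f g ((io hg c : Subgroup.normalizer (Q : Set G)) : G)) := by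
    unfold Pg
    refine (C2.H92.push_inj p (io hg) (io_inj hg)
      (fun t : Subgroup.normalizer (Q : Set G) => Eg Q f g t) ?_).symm
    intro x hx
    apply Eg_supp
    intro hxC
    apply hx
    have h1 := (mem_conjX g _).1 (cent_le hg hxC)
    have e : g * (g⁻¹ * (x : G) * g) * g⁻¹ = x := by group
    have h2 : (⟨g⁻¹ * x * g, h1⟩ : Subgroup.normalizer (U : Set G)) ∈
        Subgroup.normalizer (((conjS g⁻¹ Q).subgroupOf (Subgroup.normalizer (U : Set G)) :
      Subgroup (Subgroup.normalizer (U : Set G))) : Set (Subgroup.normalizer (U : Set G))) := by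
      rw [mem_NX hg]
      show g * (g⁻¹ * (x : G) * g) * g⁻¹ ∈ _
      rw [e]
      exact x.2
    exact ⟨⟨_, h2⟩, Subtype.ext e⟩
  funext y
  rw [h3]
  have := Fintype.ofFinite (Subgroup.normalizer
    (((conjS g⁻¹ Q).subgroupOf (Subgroup.normalizer (U : Set G)) :
      Subgroup (Subgroup.normalizer (U : Set G))) : Set (Subgroup.normalizer (U : Set G))))
  rw [push_eq, push_eq]
  refine Finset.sum_congr rfl fun x _ => ?_
  have h4 : (p.comp (io hg)) x = φ y ↔ (QuotientGroup.mk' _) x = y := by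
    constructor
    · intro h5
      apply hinj
      rw [hφ]
      exact h5
    · intro h5
      rw [← h5, hφ]
      rfl
  have h5 : Eg Q f g ((io hg x : Subgroup.normalizer (Q : Set G)) : G) =
      br ((conjS g⁻¹ Q).subgroupOf (Subgroup.normalizer (U : Set G)))
        (fun t : Subgroup.normalizer (U : Set G) => f t)
        (x : Subgroup.normalizer (U : Set G)) := by
    have e : g⁻¹ * (g * ((x : Subgroup.normalizer (U : Set G)) : G) * g⁻¹) * g =
        ((x : Subgroup.normalizer (U : Set G)) : G) := by group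
    have h6 : (x : Subgroup.normalizer (U : Set G)) ∈ Subgroup.centralizer
        (((conjS g⁻¹ Q).subgroupOf (Subgroup.normalizer (U : Set G)) :
      Subgroup (Subgroup.normalizer (U : Set G))) : Set (Subgroup.normalizer (U : Set G))) ↔
        g * ((x : Subgroup.normalizer (U : Set G)) : G) * g⁻¹ ∈
          Subgroup.centralizer (Q : Set G) := by
      rw [cent_sub (Q'_le hg), H62.mem_cent_conjS, inv_inv]
    unfold Eg
    rw [io_coe]
    by_cases h7 : g * ((x : Subgroup.normalizer (U : Set G)) : G) * g⁻¹ ∈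
        Subgroup.centralizer (Q : Set G)
    · rw [H66.br_of_mem h7, H66.br_of_mem (h6.2 h7)]
      show f (g⁻¹ * (g * ((x : Subgroup.normalizer (U : Set G)) : G) * g⁻¹) * g) = _
      rw [e]
    · rw [H66.br_of_not_mem h7, H66.br_of_not_mem (fun h8 => h7 (h6.1 h8))]
  rw [h5]
  by_cases h8 : (QuotientGroup.mk' _) x = y
  · rw [if_pos h8, if_pos (h4.2 h8)]
  · rw [if_neg h8, if_neg (fun h9 => h8 (h4.1 h9))]

end yq

/-- TEB -/
theorem teb (ort : OrtStmt) (frs : FrsStmt) : TebStmt := by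
  intro ℓ _ M _ hM G _ _ e V γ hL n U hU f hf Q hQ
  have hF : GoodF ℓ (FF M) := H50.fld ℓ Fact.out M hM
  have hE : En ℓ U Q f := by
    refine ⟨hF, hf.blk, hQ, ?_⟩
    subst hU
    intro g h hg hh hne
    exact ort ℓ M hM G e V γ hL n f hf Q hQ g h hg hh hne
  have hs := QuotientGroup.mk'_surjective (Q.subgroupOf (Subgroup.normalizer (Q : Set G)))
  have hk := QuotientGroup.ker_mk' (Q.subgroupOf (Subgroup.normalizer (Q : Set G)))
  rw [hE.frs_all _ frs hs, finsum_II (U := U) (Q := Q)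
    (fun q => YQ ℓ (fun t : Subgroup.normalizer (U : Set G) => f t)
        ((conjS q.out⁻¹ Q).subgroupOf (Subgroup.normalizer (U : Set G))))]
  refine Finset.sum_congr rfl fun q hq => ?_
  exact hE.yq _ hk (mem_II.1 hq)

end Pool.Agent.PP.T2.H69
end
end -- Pool.Agent.Helper69_AT2.Teb4

section -- Pool.Agent.Helper70_AT5.TB5

/-!
# Squad AT5, row TB5: the part over the conjugates of `(U, f)` is the same in `G` and in `N(U)`

The proof of `T2.TebStmt` (`Helper69_AT2/Teb1` to `Teb4`), for an idempotent `f` of `N(U)` instead of a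
block.
-/

open scoped BigOperators

set_option linter.unusedSectionVars false

noncomputable section

namespace Pool.Agent.PP.T5.H70

open Pool.Agent.Helper51_AWC Pool.Agent.Helper79_WRA Pool.Agent.PP Pool.Agent.PP.KF
open Pool.Agent.PP.K9 Pool.Agent.PP.K9.H97 Pool.Agent.PP.H75 Pool.Agent.PP.T3 Pool.Agent.PP.T2
open Pool.Agent.PP.T2.H69

attribute [local instance] Ideal.Quotient.field

section env

variable {F G A : Type} [Field F] [Group G] [Finite G] [Group A] [Finite A]

/-- the hypotheses of TB5 for one subgroup `Q` -/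
structure Eo (ℓ : ℕ) (U Q : Subgroup G) (f : G → F) : Prop where
  hF : GoodF ℓ F
  ix : Ix (Subgroup.normalizer (U : Set G)) f
  pg : IsPGroup ℓ Q
  ort : ∀ g h : G, Bt U Q g → Bt U Q h → conjS g U ≠ conjS h U →
    mulF (br Q (cj g f)) (br Q (cj h f)) = 0

variable {ℓ : ℕ} {U Q : Subgroup G} {f : G → F}

/-- `cj g f` is invariant under `g X g⁻¹` -/
theorem Eo.cjinv (h : Eo ℓ U Q f) {g x : G}
    (hx : x ∈ conjS g (Subgroup.normalizer (U : Set G))) : cj x (cj g f) = cj g f := by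
  have h1 := h.ix.inv ((mem_conjX g x).1 hx)
  have e : x * g = g * (g⁻¹ * x * g) := by group
  rw [cj_cj, e, ← cj_cj, h1]

theorem Eo.coset (h : Eo ℓ U Q f) {g k : G} (H : g⁻¹ * k ∈ Subgroup.normalizer (U : Set G)) :
    Eg Q f g = Eg Q f k := by
  have e : k = g * (g⁻¹ * k) := by group
  unfold Eg
  rw [e, ← cj_cj, h.ix.inv H]

theorem Eo.idem (h : Eo ℓ U Q f) {g : G} (hg : Bt U Q g) :
    mulF (Eg Q f g) (Eg Q f g) = Eg Q f g := by
  have hinv : H66.Inv Q (cj g f) := by
    intro x hx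
    exact (cj_eq_iff x _).1 (h.cjinv (Q_le hg hx))
  unfold Eg
  rw [← H66.br_mulF h.hF h.pg hinv hinv, ← cj_mulF, h.ix.mul]

theorem Eo.orth (h : Eo ℓ U Q f) {g k : G} (hg : Bt U Q g) (hk : Bt U Q k)
    (H : g⁻¹ * k ∉ Subgroup.normalizer (U : Set G)) : mulF (Eg Q f g) (Eg Q f k) = 0 :=
  h.ort g k hg hk (fun h' => H ((conjS_eq_iff g k U).1 h'))

theorem Eo.fixE (h : Eo ℓ U Q f) {g x : G} (hx : x ∈ Subgroup.normalizer (Q : Set G))
    (hx' : x ∈ conjS g (Subgroup.normalizer (U : Set G))) : cj x (Eg Q f g) = Eg Q f g := by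
  rw [cj_Eg hx]
  apply (h.coset _).symm
  rw [mem_conjX] at hx'
  rwa [← mul_assoc]

end env

section pushenv

variable {F G A : Type} [Field F] [Group G] [Finite G] [Group A] [Finite A]
variable {ℓ : ℕ} {U Q : Subgroup G} {f : G → F} (p : Subgroup.normalizer (Q : Set G) →* A)

theorem Eo.Pg_coset (h : Eo ℓ U Q f) {g k : G} (H : g⁻¹ * k ∈ Subgroup.normalizer (U : Set G)) :
    Pg p f g = Pg p f k := by
  unfold Pg
  rw [h.coset H]

theorem Eo.Pg_fix (h : Eo ℓ U Q f) {g : G} {n : Subgroup.normalizer (Q : Set G)}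
    (hn : (n : G) ∈ conjS g (Subgroup.normalizer (U : Set G))) :
    cj (p n) (Pg p f g) = Pg p f g := by
  rw [cj_Pg]
  apply (h.Pg_coset p _).symm
  rw [mem_conjX] at hn
  rwa [← mul_assoc]

theorem Eo.Pg_idem (h : Eo ℓ U Q f) {g : G} (hg : Bt U Q g) :
    mulF (Pg p f g) (Pg p f g) = Pg p f g := by
  rw [mulF_Pg, h.idem hg]
  rfl

theorem Eo.Pg_orth (h : Eo ℓ U Q f) {g k : G} (hg : Bt U Q g) (hk : Bt U Q k)
    (H : g⁻¹ * k ∉ Subgroup.normalizer (U : Set G)) : mulF (Pg p f g) (Pg p f k) = 0 := by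
  rw [mulF_Pg, h.orth hg hk H]
  exact push_zero p

theorem Eo.out_ne {q k : G ⧸ Subgroup.normalizer (U : Set G)} (hqk : q ≠ k) :
    q.out⁻¹ * k.out ∉ Subgroup.normalizer (U : Set G) := by
  intro h
  apply hqk
  rw [← QuotientGroup.out_eq' q, ← QuotientGroup.out_eq' k]
  exact QuotientGroup.eq.2 h

/-- products with the sum -/
theorem Eo.mul_sum (h : Eo ℓ U Q f) {q : G ⧸ Subgroup.normalizer (U : Set G)}
    (hq : q ∈ II U Q) : mulF (∑ k ∈ II U Q, Pg p f k.out) (Pg p f q.out) = Pg p f q.out := by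
  apply ma_injective
  rw [ma_mul, ma_sum, Finset.sum_mul, Finset.sum_eq_single_of_mem q hq]
  · rw [← ma_mul, h.Pg_idem p (mem_II.1 hq)]
  · intro k hk hkq
    rw [← ma_mul, h.Pg_orth p (mem_II.1 hk) (mem_II.1 hq) (Eo.out_ne hkq), ma_zero]

theorem Eo.sum_idem (h : Eo ℓ U Q f) (hp : Function.Surjective p) :
    IsIdem (∑ k ∈ II U Q, Pg p f k.out) := by
  constructor
  · intro x y
    obtain ⟨n, rfl⟩ := hp y
    have h1 : cj (p n)⁻¹ (∑ k ∈ II U Q, Pg p f k.out) = ∑ k ∈ II U Q, Pg p f k.out := by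
      rw [← map_inv]
      obtain ⟨m, hm⟩ : ∃ m, m = n⁻¹ := ⟨_, rfl⟩
      rw [← hm]
      have h2 : cj (p m) (∑ k ∈ II U Q, Pg p f k.out) =
          ∑ k ∈ II U Q, cj (p m) (Pg p f k.out) := by
        funext z
        rw [Finset.sum_apply]
        show (∑ k ∈ II U Q, Pg p f k.out) _ = _
        rw [Finset.sum_apply]
        rfl
      rw [h2]
      refine Finset.sum_bij (fun k _ => (m : G) • k) ?_ ?_ ?_ ?_
      · intro k hk
        rw [mem_II] at hk ⊢
        have h3 : ((m : G) * k.out)⁻¹ * ((m : G) • k).out ∈ Subgroup.normalizer (U : Set G) := by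
          rw [← QuotientGroup.eq, QuotientGroup.out_eq']
          have h4 : (((m : G) * k.out : G) : G ⧸ Subgroup.normalizer (U : Set G)) =
              (m : G) • ((k.out : G) : G ⧸ Subgroup.normalizer (U : Set G)) := rfl
          rw [h4, QuotientGroup.out_eq']
        exact (bt_coset h3).1 ((bt_mul m.2).2 hk)
      · intro a _ b _ hab
        exact smul_left_cancel (m : G) hab
      · intro k hk
        refine ⟨(m : G)⁻¹ • k, ?_, smul_inv_smul _ _⟩
        rw [mem_II] at hk ⊢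
        have h3 : ((m : G)⁻¹ * k.out)⁻¹ * ((m : G)⁻¹ • k).out ∈
            Subgroup.normalizer (U : Set G) := by
          rw [← QuotientGroup.eq, QuotientGroup.out_eq']
          have h4 : (((m : G)⁻¹ * k.out : G) : G ⧸ Subgroup.normalizer (U : Set G)) =
              (m : G)⁻¹ • ((k.out : G) : G ⧸ Subgroup.normalizer (U : Set G)) := rfl
          rw [h4, QuotientGroup.out_eq']
        exact (bt_coset h3).1 ((bt_mul (inv_mem m.2)).2 hk)
      · intro k hk
        rw [cj_Pg]
        apply h.Pg_coset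
        rw [← QuotientGroup.eq, QuotientGroup.out_eq']
        have h4 : (((m : G) * k.out : G) : G ⧸ Subgroup.normalizer (U : Set G)) =
            (m : G) • ((k.out : G) : G ⧸ Subgroup.normalizer (U : Set G)) := rfl
        rw [h4, QuotientGroup.out_eq']
    have h5 := congrFun h1 x
    have h6 : cj (p n)⁻¹ (∑ k ∈ II U Q, Pg p f k.out) x =
        (∑ k ∈ II U Q, Pg p f k.out) (p n * x * (p n)⁻¹) := by
      unfold cj
      rw [inv_inv]
    rw [← h6, h5]
  · apply ma_injective
    rw [ma_mul]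
    conv_lhs =>
      rw [ma_sum (II U Q) (fun k => Pg p f k.out), Finset.mul_sum]
    rw [ma_sum]
    refine Finset.sum_congr rfl fun q hq => ?_
    have h1 := congrArg ma (h.mul_sum p hq)
    rw [ma_mul, ma_sum] at h1
    exact h1

theorem Eo.ixP (h : Eo ℓ U Q f) {g : G} (hg : Bt U Q g) : Ix (Cp p) (Pg p f g) := by
  refine ⟨Pg_supp p g, ?_, ?_⟩
  · intro x y
    obtain ⟨n, hn, hny⟩ := (mem_Cp p).1 y.2
    have h1 := (cj_eq_iff _ _).1 (h.Pg_fix p (cent_le hg hn)) (x : A)
    rw [hny] at h1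
    exact h1
  · rw [← mulF_res (Cp p) _ (Pg_supp p g), h.Pg_idem p hg]

/-- the stabiliser of a block under `E_g` -/
theorem Eo.stab_le (h : Eo ℓ U Q f) (hp : Function.Surjective p) {g : G} (hg : Bt U Q g)
    {b : A → F} (hb : b ≠ 0) (hgb : mulF (Pg p f g) b = b) : stabF b ≤ Ag p U g := by
  intro α hα
  obtain ⟨n, rfl⟩ := hp α
  rw [mem_Ag]
  refine ⟨n, ?_, rfl⟩
  by_contra hn
  apply hb
  have h1 : cj (p n) b = b := (cj_eq_iff _ _).2 hα
  have h2 : mulF (Pg p f (n * g)) b = b := by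
    rw [← cj_Pg]
    conv_lhs => rw [← h1]
    rw [← cj_mulF, hgb, h1]
  have h3 : mulF (Pg p f (n * g)) (Pg p f g) = 0 := by
    apply h.Pg_orth p ((bt_mul n.2).2 hg) hg
    intro h4
    apply hn
    rw [mem_conjX]
    have h5 := inv_mem h4
    have e : (((n : G) * g)⁻¹ * g)⁻¹ = g⁻¹ * n * g := by group
    rwa [e] at h5
  rw [← h2, ← hgb, ← H20.mulF_assoc, h3, mulF_zero_left]

/-- a block under `E` is under one of the `E_q` -/
theorem Eo.exists_q (h : Eo ℓ U Q f) {b : A → F} (hb : Bx (Cp p) b)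
    (hE : mulF (∑ k ∈ II U Q, Pg p f k.out) b = b) :
    ∃ q ∈ II U Q, mulF (Pg p f q.out) b = b := by
  by_contra hcon
  push Not at hcon
  apply hb.ne
  rw [← hE]
  apply ma_injective
  rw [ma_mul, ma_sum, Finset.sum_mul, ma_zero]
  refine Finset.sum_eq_zero fun q hq => ?_
  have h1 := h.ixP p (mem_II.1 hq)
  rw [← ma_mul]
  rcases hb.dich' h1 with h2 | h2
  · rw [hb.ix.comm h1] at h2
    exact absurd h2 (hcon q hq)
  · rw [hb.ix.comm h1] at h2
    rw [h2, ma_zero]

theorem Eo.uniq_q (h : Eo ℓ U Q f) {b : A → F} (hb : b ≠ 0)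
    {q k : G ⧸ Subgroup.normalizer (U : Set G)} (hq : q ∈ II U Q) (hk : k ∈ II U Q)
    (h1 : mulF (Pg p f q.out) b = b) (h2 : mulF (Pg p f k.out) b = b) : q = k := by
  by_contra hne
  apply hb
  have h3 := h.Pg_orth p (mem_II.1 hq) (mem_II.1 hk) (Eo.out_ne hne)
  rw [← h1, ← h2, ← H20.mulF_assoc, h3, mulF_zero_left]

theorem Eo.under_q (h : Eo ℓ U Q f) {b : A → F}
    {q : G ⧸ Subgroup.normalizer (U : Set G)} (hq : q ∈ II U Q)
    (h1 : mulF (Pg p f q.out) b = b) : mulF (∑ k ∈ II U Q, Pg p f k.out) b = b := by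
  conv_lhs => rw [← h1]
  rw [← H20.mulF_assoc, h.mul_sum p hq, h1]

/-- FRS in the subgroup `A_g` -/
theorem Eo.frs_g [Fact ℓ.Prime] (frs : FrsStmt) (h : Eo ℓ U Q f) (hp : Function.Surjective p)
    {g : G} (hg : Bt U Q g) :
    ∑ᶠ b ∈ {b : A → F | Bx (Cp p) b ∧ mulF (Pg p f g) b = b}, WW ℓ b =
      YY ℓ (⊤ : Subgroup (Ag p U g)) (fun t : Ag p U g => Pg p f g t) := by
  obtain ⟨K, hK⟩ : ∃ K, K = Ag p U g := ⟨_, rfl⟩
  have hCK : Cp p ≤ K := by rw [hK]; exact Cp_le_Ag p hg
  have hst : ∀ b : A → F, b ≠ 0 → mulF (Pg p f g) b = b → stabF b ≤ K := by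
    rw [hK]
    exact fun b hb hgb => h.stab_le p hp hg hb hgb
  have hfix : ∀ y ∈ K, cj y (Pg p f g) = Pg p f g := by
    rw [hK]
    intro y hy
    obtain ⟨n, hn, rfl⟩ := (mem_Ag p).1 hy
    exact h.Pg_fix p hn
  rw [← hK]
  have hPs := Pg_supp (f := f) p g
  have hPK : ∀ x, x ∉ K → Pg p f g x = 0 := fun x hx => hPs x (fun h' => hx (hCK h'))
  have hn : ((Cp p).subgroupOf K).Normal := by
    have := Cp_normal p hp
    infer_instance
  have hid : IsIdem (fun t : K => Pg p f g t) := by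
    constructor
    · intro x y
      have h1 := (cj_eq_iff _ _).1 (hfix (y : A) y.2) (x : A)
      exact h1
    · rw [← mulF_res K _ hPK, h.Pg_idem p hg]
  have h1 := frs ℓ F h.hF K ((Cp p).subgroupOf K) hn (fun t : K => Pg p f g t) hid
    (fun x hx => hPs x hx)
  rw [h1]
  refine finsum_mem_eq_of_bijOn (s := {b : A → F | Bx (Cp p) b ∧ mulF (Pg p f g) b = b})
    (t := {b' : K → F | Bx ((Cp p).subgroupOf K) b' ∧ mulF (fun t : K => Pg p f g t) b' = b'})
    (fun b => fun t : K => b t) ⟨?_, ?_, ?_⟩ ?_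
  · rintro b ⟨hb1, hb2⟩
    refine ⟨bx_res hCK hb1, ?_⟩
    rw [← mulF_res K b hPK, hb2]
  · rintro b ⟨hb1, -⟩ c ⟨hc1, -⟩ hbc
    exact eq_of_res (fun x hx => hb1.supp x (fun h' => hx (hCK h')))
      (fun x hx => hc1.supp x (fun h' => hx (hCK h'))) hbc
  · rintro b' ⟨hb1, hb2⟩
    have h3 : (fun t : K => H75.ext0 K b' t) = b' := funext (ext0_apply K b')
    refine ⟨H75.ext0 K b', ⟨bx_ext hCK hb1, ?_⟩, h3⟩
    apply eq_of_res (N := K) (mulF_supp K hPK (ext0_supp K b')) (ext0_supp K b')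
    rw [mulF_res K _ hPK, h3, hb2]
  · rintro b ⟨hb1, hb2⟩
    exact (YY_stab ℓ hCK hb1.supp (hst b hb1.ne hb2)).symm

/-- FRS in `A`, compared with the subgroups -/
theorem Eo.frs_all [Fact ℓ.Prime] (frs : FrsStmt) (h : Eo ℓ U Q f)
    (hp : Function.Surjective p) :
    YY ℓ (⊤ : Subgroup A) (push p (fun t : Subgroup.normalizer (Q : Set G) => brU U Q f t)) =
      ∑ q ∈ II U Q, YY ℓ (⊤ : Subgroup (Ag p U q.out)) (fun t : Ag p U q.out => Pg p f q.out t) := by
  rw [push_brU]
  have hsupp : ∀ x, x ∉ Cp p → (∑ k ∈ II U Q, Pg p f k.out) x = 0 := by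
    intro x hx
    rw [Finset.sum_apply]
    exact Finset.sum_eq_zero fun q _ => Pg_supp p q.out x hx
  rw [frs ℓ F h.hF A (Cp p) (Cp_normal p hp) _ (h.sum_idem p hp) hsupp]
  have h1 : {b : A → F | Bx (Cp p) b ∧ mulF (∑ k ∈ II U Q, Pg p f k.out) b = b} =
      ⋃ q ∈ (II U Q : Set (G ⧸ Subgroup.normalizer (U : Set G))),
        {b : A → F | Bx (Cp p) b ∧ mulF (Pg p f q.out) b = b} := by
    ext b
    rw [Set.mem_iUnion₂]
    constructor
    · rintro ⟨hb1, hb2⟩
      obtain ⟨q, hq, hqb⟩ := h.exists_q p hb1 hb2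
      exact ⟨q, hq, hb1, hqb⟩
    · rintro ⟨q, hq, hb1, hb2⟩
      exact ⟨hb1, h.under_q p hq hb2⟩
  have h2 : ∑ᶠ (b : A → F) (_ : Bx (Cp p) b ∧ mulF (∑ k ∈ II U Q, Pg p f k.out) b = b),
      YY ℓ (⊤ : Subgroup (stabF b)) (fun t : stabF b => b t) =
      ∑ᶠ b ∈ {b : A → F | Bx (Cp p) b ∧ mulF (∑ k ∈ II U Q, Pg p f k.out) b = b}, WW ℓ b := rfl
  rw [h2, h1, finsum_mem_biUnion]
  · rw [finsum_mem_coe_finset]
    refine Finset.sum_congr rfl fun q hq => ?_
    exact h.frs_g p frs hp (mem_II.1 hq)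
  · intro q hq k hk hne
    rw [Function.onFun, Set.disjoint_left]
    rintro b ⟨hb1, hb2⟩ ⟨-, hb3⟩
    exact hne (h.uniq_q p hb1.ne hq hk hb2 hb3)
  · exact (II U Q).finite_toSet
  · intro q _
    exact (bx_finite (Cp p)).subset (fun b hb => hb.1)

end pushenv

section yq

variable {F G A : Type} [Field F] [Group G] [Finite G] [Group A] [Finite A]
variable {ℓ : ℕ} {U Q : Subgroup G} {f : G → F}

/-- TEB for one `g` -/
theorem Eo.yq (h : Eo ℓ U Q f) (p : Subgroup.normalizer (Q : Set G) →* A)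
    (hker : p.ker = Q.subgroupOf (Subgroup.normalizer (Q : Set G))) {g : G} (hg : Bt U Q g) :
    YY ℓ (⊤ : Subgroup (Ag p U g)) (fun t : Ag p U g => Pg p f g t) =
      YQ ℓ (fun t : Subgroup.normalizer (U : Set G) => f t)
        ((conjS g⁻¹ Q).subgroupOf (Subgroup.normalizer (U : Set G))) := by
  classical
  have hpk : ∀ n : Subgroup.normalizer (Q : Set G), p n = 1 ↔ (n : G) ∈ Q := by
    intro n
    rw [← MonoidHom.mem_ker, hker, Subgroup.mem_subgroupOf]
  have hQ' : ∀ x : Subgroup.normalizer (U : Set G),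
      x ∈ (conjS g⁻¹ Q).subgroupOf (Subgroup.normalizer (U : Set G)) ↔
        g * (x : G) * g⁻¹ ∈ Q := by
    intro x
    rw [Subgroup.mem_subgroupOf, H62.mem_conjS, inv_inv]
  unfold YQ
  obtain ⟨QX, hQX⟩ : ∃ QX, QX = (conjS g⁻¹ Q).subgroupOf (Subgroup.normalizer (U : Set G)) :=
    ⟨_, rfl⟩
  have hone : ∀ x ∈ ((conjS g⁻¹ Q).subgroupOf (Subgroup.normalizer (U : Set G))).subgroupOf
      (Subgroup.normalizer (((conjS g⁻¹ Q).subgroupOf (Subgroup.normalizer (U : Set G)) :
      Subgroup (Subgroup.normalizer (U : Set G))) : Set (Subgroup.normalizer (U : Set G)))),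
      p.comp (io hg) x = 1 := by
    intro x hx
    rw [MonoidHom.comp_apply, hpk, io_coe]
    exact (hQ' _).1 hx
  let φ := QuotientGroup.lift _ (p.comp (io hg)) hone
  have hφ : ∀ x, φ (QuotientGroup.mk' _ x) = p (io hg x) := fun x => rfl
  have hinj : Function.Injective φ := by
    rw [injective_iff_map_eq_one]
    intro y hy
    obtain ⟨x, rfl⟩ := QuotientGroup.mk'_surjective _ y
    rw [hφ, hpk, io_coe] at hy
    exact (QuotientGroup.eq_one_iff x).2 (Subgroup.mem_subgroupOf.2 ((hQ' _).2 hy))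
  have hrange : φ.range = Ag p U g := by
    ext y
    rw [MonoidHom.mem_range, mem_Ag]
    constructor
    · rintro ⟨z, rfl⟩
      obtain ⟨x, rfl⟩ := QuotientGroup.mk'_surjective _ z
      refine ⟨io hg x, ?_, (hφ x).symm⟩
      rw [io_coe, mem_conjX]
      have e : g⁻¹ * (g * ((x : Subgroup.normalizer (U : Set G)) : G) * g⁻¹) * g =
        ((x : Subgroup.normalizer (U : Set G)) : G) := by group
      rw [e]
      exact (x : Subgroup.normalizer (U : Set G)).2
    · rintro ⟨n, hn, rfl⟩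
      have h1 := (mem_conjX g _).1 hn
      have e : g * (g⁻¹ * (n : G) * g) * g⁻¹ = n := by group
      have h2 : (⟨g⁻¹ * n * g, h1⟩ : Subgroup.normalizer (U : Set G)) ∈
          Subgroup.normalizer (((conjS g⁻¹ Q).subgroupOf (Subgroup.normalizer (U : Set G)) :
      Subgroup (Subgroup.normalizer (U : Set G))) : Set (Subgroup.normalizer (U : Set G))) := by
        rw [mem_NX hg]
        show g * (g⁻¹ * (n : G) * g) * g⁻¹ ∈ _
        rw [e]
        exact n.2
      refine ⟨QuotientGroup.mk' _ ⟨_, h2⟩, ?_⟩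
      rw [hφ]
      congr 1
      apply Subtype.ext
      rw [io_coe]
      exact e
  rw [← YY_range ℓ φ hinj hrange (Pg p f g)]
  congr 1
  -- the functions
  have h3 : Pg p f g = push (p.comp (io hg))
      (fun c => Eg Q f g ((io hg c : Subgroup.normalizer (Q : Set G)) : G)) := by
    unfold Pg
    refine (C2.H92.push_inj p (io hg) (io_inj hg)
      (fun t : Subgroup.normalizer (Q : Set G) => Eg Q f g t) ?_).symm
    intro x hx
    apply Eg_supp
    intro hxC
    apply hx
    have h1 := (mem_conjX g _).1 (cent_le hg hxC)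
    have e : g * (g⁻¹ * (x : G) * g) * g⁻¹ = x := by group
    have h2 : (⟨g⁻¹ * x * g, h1⟩ : Subgroup.normalizer (U : Set G)) ∈
        Subgroup.normalizer (((conjS g⁻¹ Q).subgroupOf (Subgroup.normalizer (U : Set G)) :
      Subgroup (Subgroup.normalizer (U : Set G))) : Set (Subgroup.normalizer (U : Set G))) := by
      rw [mem_NX hg]
      show g * (g⁻¹ * (x : G) * g) * g⁻¹ ∈ _
      rw [e]
      exact x.2
    exact ⟨⟨_, h2⟩, Subtype.ext e⟩
  funext y
  rw [h3]
  have := Fintype.ofFinite (Subgroup.normalizer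
    (((conjS g⁻¹ Q).subgroupOf (Subgroup.normalizer (U : Set G)) :
      Subgroup (Subgroup.normalizer (U : Set G))) : Set (Subgroup.normalizer (U : Set G))))
  rw [push_eq, push_eq]
  refine Finset.sum_congr rfl fun x _ => ?_
  have h4 : (p.comp (io hg)) x = φ y ↔ (QuotientGroup.mk' _) x = y := by
    constructor
    · intro h5
      apply hinj
      rw [hφ]
      exact h5
    · intro h5
      rw [← h5, hφ]
      rfl
  have h5 : Eg Q f g ((io hg x : Subgroup.normalizer (Q : Set G)) : G) =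
      br ((conjS g⁻¹ Q).subgroupOf (Subgroup.normalizer (U : Set G)))
        (fun t : Subgroup.normalizer (U : Set G) => f t)
        (x : Subgroup.normalizer (U : Set G)) := by
    have e : g⁻¹ * (g * ((x : Subgroup.normalizer (U : Set G)) : G) * g⁻¹) * g =
        ((x : Subgroup.normalizer (U : Set G)) : G) := by group
    have h6 : (x : Subgroup.normalizer (U : Set G)) ∈ Subgroup.centralizer
        (((conjS g⁻¹ Q).subgroupOf (Subgroup.normalizer (U : Set G)) :
      Subgroup (Subgroup.normalizer (U : Set G))) : Set (Subgroup.normalizer (U : Set G))) ↔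
        g * ((x : Subgroup.normalizer (U : Set G)) : G) * g⁻¹ ∈
          Subgroup.centralizer (Q : Set G) := by
      rw [cent_sub (Q'_le hg), H62.mem_cent_conjS, inv_inv]
    unfold Eg
    rw [io_coe]
    by_cases h7 : g * ((x : Subgroup.normalizer (U : Set G)) : G) * g⁻¹ ∈
        Subgroup.centralizer (Q : Set G)
    · rw [H66.br_of_mem h7, H66.br_of_mem (h6.2 h7)]
      show f (g⁻¹ * (g * ((x : Subgroup.normalizer (U : Set G)) : G) * g⁻¹) * g) = _
      rw [e]
    · rw [H66.br_of_not_mem h7, H66.br_of_not_mem (fun h8 => h7 (h6.1 h8))]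
  rw [h5]
  by_cases h8 : (QuotientGroup.mk' _) x = y
  · rw [if_pos h8, if_pos (h4.2 h8)]
  · rw [if_neg h8, if_neg (fun h9 => h8 (h4.1 h9))]

end yq

/-- TB5 -/
theorem tb5 (hfrs : T2.FrsStmt) : Tb5Stmt := by
  intro ℓ _ F _ hF G _ _ e _ U f _ hUo Q hQ
  have hE : Eo ℓ U Q f := ⟨hF, hUo.ix, hQ, hUo.ort Q hQ⟩
  have hs := QuotientGroup.mk'_surjective (Q.subgroupOf (Subgroup.normalizer (Q : Set G)))
  have hk := QuotientGroup.ker_mk' (Q.subgroupOf (Subgroup.normalizer (Q : Set G)))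
  rw [hE.frs_all _ hfrs hs, finsum_II (U := U) (Q := Q)
    (fun q => YQ ℓ (fun t : Subgroup.normalizer (U : Set G) => f t)
        ((conjS q.out⁻¹ Q).subgroupOf (Subgroup.normalizer (U : Set G))))]
  refine Finset.sum_congr rfl fun q hq => ?_
  exact hE.yq _ hk (mem_II.1 hq)

end Pool.Agent.PP.T5.H70
end
end -- Pool.Agent.Helper70_AT5.TB5

section -- Pool.Agent.Helper82_ATZ.ZAB

/-!
# Squad ATZ, row ZAB: the data for an abelian defect group
-/

noncomputable section

namespace Pool.Agent.PP.TB.H82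

open Pool.Agent.Helper51_AWC Pool.Agent.Helper79_WRA Pool.Agent.PP Pool.Agent.PP.KF
open Pool.Agent.PP.K9 Pool.Agent.PP.K9.H97 Pool.Agent.PP.H75 Pool.Agent.PP.T3 Pool.Agent.PP.T2
open Pool.Agent.PP.T5

attribute [local instance] Ideal.Quotient.field

theorem zab : ZabStmt := by
  intro ℓ _ M _ hM G _ _ e V γ hL
  have hF : GoodF ℓ (FF M) := H50.fld ℓ Fact.out M hM
  constructor
  · have hloc := T3.H88.loc ℓ (FF M) hF G e V γ hL
    have hex : ∀ z : G, ∃ b : G → FF M, z ∈ V → Lc e V γ z b := by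
      intro z
      by_cases hz : z ∈ V
      · obtain ⟨b, hb⟩ := (hloc z hz).1
        exact ⟨b, fun _ => hb⟩
      · exact ⟨0, fun h => absurd h hz⟩
    choose b hb using hex
    refine ⟨b, ?_⟩
    refine { blk := hL.blk, tp := hL.tp, gam := hL.gam, und := hL.und, le := le_rfl,
             cen := fun z hz v hv => hL.ab v hv z hz, nrm := ?_, lb := ?_, fus := ?_ }
    · intro t ht z hz
      exact (Subgroup.mem_normalizer_iff.1 (Subgroup.mem_inf.1 ht).1 z).1 hz
    · intro z hz
      refine ⟨?_, (hb z hz).gam⟩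
      refine { blk := hL.blk, tp := hL.tp, mem := hz, cen := fun v hv => hL.ab v hv z hz,
               bx := (hb z hz).blk, und := (hb z hz).und, gd := ?_ }
      by_contra hgd
      have h0 : br V (b z) = 0 := by
        funext x
        by_cases hx : x ∈ Subgroup.centralizer (V : Set G)
        · rw [H66.br_of_mem hx]
          by_contra h
          exact hgd ⟨x, hx, h⟩
        · rw [H66.br_of_not_mem hx]
          rfl
      have h1 := (hb z hz).gam
      rw [h0, mulF_zero_left] at h1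
      exact hL.gam.ne h1.symm
    · intro z hz z' hz' x hx hxb
      exact T3.H79.fus T3.H85.lsb ℓ M hM G e V γ hL z hz z' hz' (b z) (b z') (hb z hz) (hb z' hz')
        x hx hxb
  · unfold iz ix
    rw [inf_eq_left.2 (T3.H49.cen_le_Tg hL.gam)]

end Pool.Agent.PP.TB.H82
end
end -- Pool.Agent.Helper82_ATZ.ZAB
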