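import Pool.Agent.Helper12_AWB.B115
import Pool.Agent.Helper12_AWB.B128
import Pool.Agent.Helper12_AWB.B139
import Pool.Agent.Helper12_AWB.B141
import Pool.Agent.Helper12_AWB.B144
import Pool.Agent.Helper12_AWB.B169

/-!
# Merged copies (generated) of the modules

* `Pool.Agent.Helper72_AT3.NIB`
* `Pool.Agent.Helper72_AT8.RG1`
* `Pool.Agent.Helper99_AT8.SBS`
* `Pool.Agent.Helper33_ASO.Lin`
* `Pool.Agent.Helper33_ASO.Abs`
* `Pool.Agent.Helper33_ASO.Mu`
* `Pool.Agent.Helper33_ASO.MainH`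
* `Pool.Agent.Helper33_ASO.NSV`
-/

set_option autoImplicit false

section -- Pool.Agent.Helper72_AT3.NIB

/-!
# NIB: Bessel's inequality for a block of inertial index one
-/

set_option autoImplicit false

open scoped BigOperators

noncomputable section

namespace Pool.Agent.PP.T3.H72

open Pool.Agent.Helper51_AWC Pool.Agent.Helper79_WRA Pool.Agent.PP Pool.Agent.PP.KF
open Pool.Agent.PP.K9 Pool.Agent.PP.K9.H97 Pool.Agent.PP.H75

attribute [local instance] Ideal.Quotient.field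

section conj2

variable {F G : Type} [Field F] [Group G] [Finite G] {X Y : Subgroup G} {b : G → F}

theorem ix_cj2 (h : Ix X b) {g : G} (hXY : ∀ y, y ∈ Y ↔ g⁻¹ * y * g ∈ X) :
    Ix Y (cj g b) := by
  have hs : ∀ x, x ∉ Y → H75.cj g b x = 0 := by
    intro x hx
    apply h.supp
    rwa [← hXY]
  refine ⟨hs, ?_, ?_⟩
  · intro x y
    change b (g⁻¹ * ((y : G) * x * (y : G)⁻¹) * g) = b (g⁻¹ * x * g)
    have hy : g⁻¹ * (y : G) * g ∈ X := (hXY _).1 y.2
    have h2 := (cj_eq_iff _ _).1 (h.inv hy) (g⁻¹ * x * g)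
    rw [← h2]
    congr 1
    group
  · rw [← mulF_res Y (H75.cj g b) hs, ← cj_mulF, h.mul]

theorem bx_cj2 (h : Bx X b) {g : G} (hXY : ∀ y, y ∈ Y ↔ g⁻¹ * y * g ∈ X) :
    Bx Y (cj g b) := by
  have hYX : ∀ x, x ∈ X ↔ (g⁻¹)⁻¹ * x * g⁻¹ ∈ Y := by
    intro x
    rw [hXY]
    have e : g⁻¹ * ((g⁻¹)⁻¹ * x * g⁻¹) * g = x := by group
    rw [e]
  have h1 := ix_cj2 h.ix hXY
  refine ⟨h1.supp, h1.idem, ?_, ?_⟩
  · intro h0
    apply h.ne
    have h2 : H75.cj g b = 0 := eq_of_res h1.supp (fun _ _ => rfl) h0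
    have h3 := congrArg (H75.cj g⁻¹) h2
    rw [cj_inv_cj, cj_zero] at h3
    exact h3
  · intro a ha
    have hax : Ix Y (H75.ext0 Y a) := by
      refine ⟨ext0_supp Y a, ?_⟩
      have : (fun t : Y => H75.ext0 Y a t) = a := funext (ext0_apply Y a)
      rw [this]
      exact ha
    have h2 := ix_cj2 hax hYX
    have h4 : mulF (fun t : Y => H75.cj g b t) a =
        fun t : Y => mulF (H75.cj g b) (H75.ext0 Y a) t := by
      rw [mulF_res Y _ h1.supp]
      congr 1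
      exact (funext (ext0_apply Y a)).symm
    rw [h4]
    have h5 : mulF (H75.cj g b) (H75.ext0 Y a) =
        H75.cj g (mulF b (H75.cj g⁻¹ (H75.ext0 Y a))) := by
      rw [cj_mulF, cj_cj_inv]
    rcases h.dich' h2 with h3 | h3
    · left
      rw [h5, h3]
    · right
      rw [h5, h3, cj_zero]
      rfl

end conj2

section elem

variable {H : Type} [Group H]

theorem cent_prod {χ : H → ℂ} (hχ : χ ∈ Irr H) {z : H} (hz : z ∈ Subgroup.center H) (g : H) :
    χ z * χ g = χ 1 * χ (z * g) := by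
  rw [KF.H32.central_mul hχ hz g]
  have h1 : χ 1 ≠ 0 := irr_one_ne hχ
  field_simp

theorem cent_norm [Finite H] {χ : H → ℂ} (hχ : χ ∈ Irr H) {z : H}
    (hz : z ∈ Subgroup.center H) : Complex.normSq (χ z) = Complex.normSq (χ 1) := by
  have h1 := cent_prod hχ hz z⁻¹
  rw [mul_inv_cancel] at h1
  have h2 : starRingEnd ℂ (χ z) = χ z⁻¹ := H94.irr_star hχ z
  have h3 : starRingEnd ℂ (χ 1) = χ 1 := by
    rw [H94.irr_star hχ, inv_one]
  have h4 : ((Complex.normSq (χ z) : ℝ) : ℂ) = ((Complex.normSq (χ 1) : ℝ) : ℂ) := by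
    rw [← Complex.mul_conj, ← Complex.mul_conj, h2, h3, h1]
  exact_mod_cast h4

/-- a product of commuting regular elements is regular -/
theorem reg_mul {ℓ : ℕ} {a b : H} (hab : Commute a b) (ha : Reg ℓ a) (hb : Reg ℓ b) :
    Reg ℓ (a * b) := by
  unfold Reg at *
  have h1 : orderOf (a * b) ∣ orderOf a * orderOf b :=
    (hab.orderOf_mul_dvd_lcm).trans (Nat.lcm_dvd_mul _ _)
  exact Nat.Coprime.coprime_dvd_left h1 (Nat.Coprime.mul_left ha hb)

theorem el_reg {ℓ : ℕ} {y : H} (hy : El ℓ y) (hr : Reg ℓ y) : y = 1 := by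
  obtain ⟨n, hn⟩ := hy
  have h1 : orderOf y ∣ ℓ ^ n := orderOf_dvd_of_pow_eq_one hn
  have h2 : (orderOf y).Coprime (ℓ ^ n) := Nat.Coprime.pow_right n hr
  have h3 : orderOf y = 1 := Nat.Coprime.eq_one_of_dvd h2 h1
  exact orderOf_eq_one_iff.1 h3

/-- a nontrivial `ℓ`-element times a commuting regular element is singular -/
theorem sing_mul {ℓ : ℕ} {y s : H} (hy : El ℓ y) (hy1 : y ≠ 1) (hc : Commute y s)
    (hs : Reg ℓ s) : ¬ Reg ℓ (y * s) := by
  intro h
  apply hy1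
  refine el_reg hy ?_
  have h1 : Reg ℓ s⁻¹ := H25.reg_inv.2 hs
  have h2 : Commute (y * s) s⁻¹ := by
    have h3 : Commute s s⁻¹ := (Commute.refl s).inv_right
    exact (hc.inv_right).mul_left h3
  have h3 := reg_mul h2 h h1
  rwa [mul_inv_cancel_right] at h3

theorem el_of_mem {ℓ : ℕ} {V : Subgroup H} (hV : IsPGroup ℓ V) {x : H} (hx : x ∈ V) :
    El ℓ x := by
  obtain ⟨n, hn⟩ := hV ⟨x, hx⟩
  refine ⟨n, ?_⟩
  have := congrArg (fun t : V => (t : H)) hn
  simpa using this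

end elem

theorem wbo_ : WboStmt := H82W.wbo (H82.trb H53.tra)

section sums

variable {H : Type} [Group H] [Fintype H] {ℓ : ℕ} [Fact ℓ.Prime]
  {M : Ideal (integralClosure ℤ ℂ)} [M.IsMaximal]

/-- the sum over the block of `χ(x) conj χ(g)`, `x` central -/
theorem sum_cent (b : H → FF M) {x : H} (hx : x ∈ Subgroup.center H) (g : H) :
    ∑ χ ∈ (H25.irrE_finite M b).toFinset, χ x * starRingEnd ℂ (χ g) = pr M b (x * g⁻¹) := by
  rw [H25.pr_eq]
  refine Finset.sum_congr rfl fun χ hχ => ?_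
  rw [Set.Finite.mem_toFinset] at hχ
  rw [H94.irr_star hχ.1, cent_prod hχ.1 hx]

/-- conjugate of `χ(w b)` -/
theorem gv_star {C : Subgroup H} [Fintype C] (w : H) (b : H → FF M) (χ : H → ℂ) :
    starRingEnd ℂ (gv M C w b χ) =
      ∑ s : C, starRingEnd ℂ (eh M (fun t : C => b t) s) * starRingEnd ℂ (χ (w * s)) := by
  unfold gv gbv
  rw [finsum_eq_sum_of_fintype, map_sum]
  exact Finset.sum_congr rfl fun s _ => map_mul _ _ _

/-- orthogonality of the central and of the other vectors -/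
theorem sum_mixed (hM : (ℓ : integralClosure ℤ ℂ) ∈ M) {b : H → FF M} (hb : IsIdem b)
    {x x' : H} (hx : x ∈ Subgroup.center H) (hxe : El ℓ (x * x'⁻¹)) (hne : x ≠ x')
    {c : H → FF M} (hc : Ix (Cu x') c) :
    ∑ χ ∈ (H25.irrE_finite M b).toFinset, χ x * starRingEnd ℂ (gv M (Cu x') x' c χ) = 0 := by
  have := Fintype.ofFinite (Cu x')
  have e1 : ∑ χ ∈ (H25.irrE_finite M b).toFinset, χ x * starRingEnd ℂ (gv M (Cu x') x' c χ) =
      ∑ s : Cu x', starRingEnd ℂ (eh M (fun t : Cu x' => c t) s) *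
        pr M b (x * (x' * s)⁻¹) := by
    have e2 : ∀ χ ∈ (H25.irrE_finite M b).toFinset,
        χ x * starRingEnd ℂ (gv M (Cu x') x' c χ) =
        ∑ s : Cu x', starRingEnd ℂ (eh M (fun t : Cu x' => c t) s) *
          (χ x * starRingEnd ℂ (χ (x' * s))) := by
      intro χ _
      rw [gv_star x' c χ, Finset.mul_sum]
      refine Finset.sum_congr rfl fun s _ => ?_
      ring
    rw [Finset.sum_congr rfl e2, Finset.sum_comm]
    refine Finset.sum_congr rfl fun s _ => ?_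
    rw [← Finset.mul_sum, sum_cent b hx]
  rw [e1]
  refine Finset.sum_eq_zero fun s _ => ?_
  by_cases hs : Reg ℓ s
  · have hs2 : Reg ℓ (s : H) := by
      unfold Reg at hs ⊢
      rwa [Subgroup.orderOf_coe]
    have hcom : Commute x' (s : H) := by
      have h1 := Subgroup.mem_centralizer_singleton_iff.1 s.2
      exact h1.symm
    have hcx : Commute x (s : H) := (Subgroup.mem_center_iff.1 hx s).symm
    have e3 : x * (x' * s)⁻¹ = (x * x'⁻¹) * (s : H)⁻¹ := by
      have h2 : (x' * (s : H))⁻¹ = x'⁻¹ * (s : H)⁻¹ := by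
        rw [hcom.eq, mul_inv_rev]
      rw [h2, mul_assoc]
    have hcom2 : Commute (x * x'⁻¹) (s : H)⁻¹ :=
      (hcx.mul_left hcom.inv_left).inv_right
    have hne2 : x * x'⁻¹ ≠ 1 := by
      intro h
      exact hne (mul_inv_eq_one.1 h)
    have h4 : ¬ Reg ℓ (x * (x' * s)⁻¹) := by
      rw [e3]
      exact sing_mul hxe hne2 hcom2 (H25.reg_inv.2 hs2)
    rw [(H25.rc_pr wbo_ ℓ M hM H b hb).sg _ h4, mul_zero]
  · rw [H25.eh_sing wbo_ ℓ M hM _ hc.idem s hs, map_zero, zero_mul]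

/-- orthogonality of two noncentral vectors -/
theorem orth_ss (fus : FusStmt) (co2 : Co2Stmt) (hM : (ℓ : integralClosure ℤ ℂ) ∈ M)
    {b : H → FF M} {V : Subgroup H} {γ : H → FF M} (hL : Ld ℓ b V γ) (hix : ix V γ = 1)
    {x x' : H} (hx : x ∈ V) (hx' : x' ∈ V) (hne : x ≠ x') {c c' : H → FF M}
    (hc : Lc b V γ x c) (hc' : Lc b V γ x' c') :
    ∑ᶠ χ ∈ Irr H, gv M (Cu x) x c χ * starRingEnd ℂ (gv M (Cu x') x' c' χ) = 0 := by
  refine co2 ℓ M hM H x x' (el_of_mem hL.tp.pg hx) (el_of_mem hL.tp.pg hx') c c' hc.blk.ix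
    hc'.blk.ix fun g hg => ?_
  have hXY : ∀ y, y ∈ Cu x ↔ g⁻¹ * y * g ∈ Cu x' := by
    intro y
    rw [Subgroup.mem_centralizer_singleton_iff, Subgroup.mem_centralizer_singleton_iff, ← hg]
    constructor
    · intro h
      have h1 : g⁻¹ * y * g * x' = g⁻¹ * (y * (g * x' * g⁻¹)) * g := by group
      rw [h1, h]
      group
    · intro h
      have h1 : y * (g * x' * g⁻¹) = g * (g⁻¹ * y * g * x') * g⁻¹ := by group
      rw [h1, h]
      group
  have hb : Bx (Cu x) (cj g c') := bx_cj2 hc'.blk hXY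
  rcases hc.blk.dich hb with h | h
  · exfalso
    obtain ⟨t, ht, ht2⟩ := fus ℓ M hM H b V γ hL x hx x' hx' c c' hc hc' g hg h.symm
    have hle : Tg V γ ≤ Subgroup.centralizer (V : Set H) := Subgroup.relIndex_eq_one.1 hix
    have h2 := Subgroup.mem_centralizer_iff.1 (hle ht) x' hx'
    apply hne
    rw [← ht2, ← h2, mul_inv_cancel_right]
  · exact h

end sums

/-- NIB -/
theorem nib (fus : FusStmt) (co1 : Co1Stmt) (co2 : Co2Stmt) (bes : BesStmt) : NibStmt := by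
  classical
  intro ℓ _ M _ hM H _ _ b V γ hL hix S Z hS hZ c d hcd κ hκ
  have := Fintype.ofFinite H
  have := Fintype.ofFinite (Irr H)
  -- the norm in the block
  set σ : ℝ := ∑ᶠ χ ∈ IrrE M b, Complex.normSq (χ 1) with hσdef
  have hσ1 : σ = ∑ χ ∈ (H25.irrE_finite M b).toFinset, Complex.normSq (χ 1) := by
    rw [hσdef, finsum_mem_eq_finite_toFinset_sum _ (H25.irrE_finite M b)]
  have hκ1 : 0 < Complex.normSq (κ 1) := Complex.normSq_pos.2 (irr_one_ne hκ.1)
  have hσ0 : 0 < σ := by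
    rw [hσ1]
    refine lt_of_lt_of_le hκ1 (Finset.single_le_sum (f := fun χ : H → ℂ => Complex.normSq (χ 1))
      (fun χ _ => Complex.normSq_nonneg _) ((Set.Finite.mem_toFinset _).2 hκ))
  have hV0 : 0 < (Nat.card V : ℝ) := by exact_mod_cast Nat.card_pos
  have hpr1 : pr M b 1 = (σ : ℂ) := by
    rw [H25.pr_eq, hσ1, Complex.ofReal_sum]
    refine Finset.sum_congr rfl fun χ hχ => ?_
    rw [Set.Finite.mem_toFinset] at hχ
    rw [← Complex.mul_conj, H94.irr_star hχ.1, inv_one]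
  -- the degrees
  have hd : ∀ x ∈ S, (0 : ℝ) < d x := fun x hx => by exact_mod_cast (hcd x hx).2.1.1
  have hxV : ∀ x ∈ S, x ∈ V := fun x hx => ((hS x).1 hx).1
  have hnorm : ∀ x ∈ S, ∑ᶠ χ ∈ Irr H, gv M (Cu x) x (c x) χ *
      starRingEnd ℂ (gv M (Cu x) x (c x) χ) = ((Nat.card V : ℝ) * (d x) ^ 2 : ℝ) := by
    intro x hx
    obtain ⟨h1, h2, h3⟩ := hcd x hx
    rw [co1 ℓ M hM H x (el_of_mem hL.tp.pg (hxV x hx)) (c x) h1.blk.ix]
    have := Fintype.ofFinite (Cu x)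
    rw [finsum_mem_eq_finite_toFinset_sum _ (H25.irrE_finite M _)]
    have h4 : ∀ θ ∈ (H25.irrE_finite M (fun t : Cu x => c x t)).toFinset,
        θ 1 ^ 2 = ((d x : ℂ)) ^ 2 := by
      intro θ hθ
      rw [Set.Finite.mem_toFinset] at hθ
      rw [h2.2 θ hθ]
    rw [Finset.sum_congr rfl h4, Finset.sum_const, ← Set.ncard_eq_toFinset_card _ _, h3,
      nsmul_eq_mul]
    push_cast
    ring
  -- the vectors
  let v : (S ⊕ Z) → (Irr H) → ℂ := Sum.elim
    (fun x χ => gv M (Cu (x : H)) x (c x) χ / ((d x * Real.sqrt (Nat.card V) : ℝ) : ℂ))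
    (fun x χ => if (χ : H → ℂ) ∈ IrrE M b then (χ : H → ℂ) x / ((Real.sqrt σ : ℝ) : ℂ) else 0)
  have hsum_blk : ∀ f : (H → ℂ) → ℂ, ∑ χ : Irr H, (if (χ : H → ℂ) ∈ IrrE M b then f χ else 0) =
      ∑ χ ∈ (H25.irrE_finite M b).toFinset, f χ := by
    intro f
    rw [← K9.H86.finsum_irr (fun χ => if χ ∈ IrrE M b then f χ else 0),
      ← finsum_mem_eq_finite_toFinset_sum _ (H25.irrE_finite M b)]
    rw [finsum_mem_eq_finite_toFinset_sum _ (Set.toFinite (Irr H)),
      finsum_mem_eq_finite_toFinset_sum _ (H25.irrE_finite M b), ← Finset.sum_filter]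
    refine Finset.sum_congr ?_ fun _ _ => rfl
    ext χ
    simp only [Finset.mem_filter, Set.Finite.mem_toFinset]
    exact ⟨fun h => h.2, fun h => ⟨h.1, h⟩⟩
  have hα : ∀ x ∈ S, (0 : ℝ) < d x * Real.sqrt (Nat.card V) := fun x hx =>
    mul_pos (hd x hx) (Real.sqrt_pos.2 hV0)
  have hsσ : 0 < Real.sqrt σ := Real.sqrt_pos.2 hσ0
  have hcr : ∀ r : ℝ, starRingEnd ℂ ((r : ℝ) : ℂ) = (r : ℂ) := fun r => Complex.conj_ofReal r
  have helm : ∀ z ∈ V, ∀ x ∈ V, El ℓ (z * x⁻¹) := fun z hz x hx =>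
    el_of_mem hL.tp.pg (V.mul_mem hz (V.inv_mem hx))
  have hmix : ∀ z ∈ Z, ∀ x ∈ S, ∑ χ ∈ (H25.irrE_finite M b).toFinset,
      χ z * starRingEnd ℂ (gv M (Cu x) x (c x) χ) = 0 := by
    intro z hz x hx
    have h1 := (hZ z).1 hz
    have h2 := (hS x).1 hx
    refine sum_mixed hM hL.blk.1 h1.2 (helm z h1.1 x h2.1) ?_ (hcd x hx).1.blk.ix
    intro h
    exact h2.2 (h ▸ h1.2)
  have gram : ∀ i i' : S ⊕ Z, ∑ χ, v i χ * starRingEnd ℂ (v i' χ) = if i = i' then 1 else 0 := by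
    intro i i'
    rcases i with x | z <;> rcases i' with x' | z'
    · -- both noncentral
      have e1 : ∑ χ, v (Sum.inl x) χ * starRingEnd ℂ (v (Sum.inl x') χ) =
          (∑ᶠ χ ∈ Irr H, gv M (Cu (x : H)) x (c x) χ *
            starRingEnd ℂ (gv M (Cu (x' : H)) x' (c x') χ)) /
          (((d x * Real.sqrt (Nat.card V) : ℝ) : ℂ) * ((d x' * Real.sqrt (Nat.card V) : ℝ) : ℂ)) := by
        rw [K9.H86.finsum_irr, Finset.sum_div]
        refine Finset.sum_congr rfl fun χ _ => ?_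
        change gv M (Cu (x : H)) x (c x) χ / ((d x * Real.sqrt (Nat.card V) : ℝ) : ℂ) *
          starRingEnd ℂ (gv M (Cu (x' : H)) x' (c x') χ /
            ((d x' * Real.sqrt (Nat.card V) : ℝ) : ℂ)) = _
        rw [map_div₀, hcr, div_mul_div_comm]
      rw [e1]
      by_cases h : x = x'
      · subst h
        rw [if_pos rfl, hnorm x x.2, ← Complex.ofReal_mul, ← Complex.ofReal_div]
        have h1 : (Nat.card V : ℝ) * (d x) ^ 2 / (d x * Real.sqrt (Nat.card V) *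
            (d x * Real.sqrt (Nat.card V))) = 1 := by
          have h2 : (d x * Real.sqrt (Nat.card V) * (d x * Real.sqrt (Nat.card V)) : ℝ) =
              (Nat.card V : ℝ) * (d x) ^ 2 := by
            have h3 := Real.mul_self_sqrt hV0.le
            linear_combination ((d x : ℝ) ^ 2) * h3
          rw [h2]
          exact div_self (mul_pos hV0 (pow_pos (hd x x.2) 2)).ne'
        rw [h1, Complex.ofReal_one]
      · have h1 : (x : H) ≠ x' := fun h' => h (Subtype.ext h')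
        rw [orth_ss fus co2 hM hL hix (hxV x x.2) (hxV x' x'.2) h1 (hcd x x.2).1
          (hcd x' x'.2).1, zero_div, if_neg]
        intro h'
        exact h (Sum.inl_injective h')
    · -- noncentral, central
      rw [if_neg (by simp)]
      have e1 : ∀ χ : Irr H, v (Sum.inl x) χ * starRingEnd ℂ (v (Sum.inr z') χ) =
          if (χ : H → ℂ) ∈ IrrE M b then starRingEnd ℂ ((χ : H → ℂ) z' *
            starRingEnd ℂ (gv M (Cu (x : H)) x (c x) χ)) *
            (((d x * Real.sqrt (Nat.card V) : ℝ) : ℂ)⁻¹ * ((Real.sqrt σ : ℝ) : ℂ)⁻¹) else 0 := by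
        intro χ
        change gv M (Cu (x : H)) x (c x) χ / ((d x * Real.sqrt (Nat.card V) : ℝ) : ℂ) *
          starRingEnd ℂ (if (χ : H → ℂ) ∈ IrrE M b then
            (χ : H → ℂ) z' / ((Real.sqrt σ : ℝ) : ℂ) else 0) = _
        split_ifs with h
        · rw [map_div₀, hcr, map_mul, Complex.conj_conj]
          ring
        · rw [map_zero, mul_zero]
      rw [Finset.sum_congr rfl fun χ _ => e1 χ,
        hsum_blk fun χ => starRingEnd ℂ (χ z' * starRingEnd ℂ (gv M (Cu (x : H)) x (c x) χ)) *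
            (((d x * Real.sqrt (Nat.card V) : ℝ) : ℂ)⁻¹ * ((Real.sqrt σ : ℝ) : ℂ)⁻¹),
        ← Finset.sum_mul, ← map_sum, hmix z' z'.2 x x.2, map_zero, zero_mul]
    · -- central, noncentral
      rw [if_neg (by simp)]
      have e1 : ∀ χ : Irr H, v (Sum.inr z) χ * starRingEnd ℂ (v (Sum.inl x') χ) =
          if (χ : H → ℂ) ∈ IrrE M b then ((χ : H → ℂ) z *
            starRingEnd ℂ (gv M (Cu (x' : H)) x' (c x') χ)) *
            (((d x' * Real.sqrt (Nat.card V) : ℝ) : ℂ)⁻¹ * ((Real.sqrt σ : ℝ) : ℂ)⁻¹) else 0 := by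
        intro χ
        change (if (χ : H → ℂ) ∈ IrrE M b then
            (χ : H → ℂ) z / ((Real.sqrt σ : ℝ) : ℂ) else 0) *
          starRingEnd ℂ (gv M (Cu (x' : H)) x' (c x') χ /
            ((d x' * Real.sqrt (Nat.card V) : ℝ) : ℂ)) = _
        split_ifs with h
        · rw [map_div₀, hcr]
          ring
        · rw [zero_mul]
      rw [Finset.sum_congr rfl fun χ _ => e1 χ,
        hsum_blk fun χ => (χ z * starRingEnd ℂ (gv M (Cu (x' : H)) x' (c x') χ)) *
            (((d x' * Real.sqrt (Nat.card V) : ℝ) : ℂ)⁻¹ * ((Real.sqrt σ : ℝ) : ℂ)⁻¹),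
        ← Finset.sum_mul, hmix z z.2 x' x'.2, zero_mul]
    · -- both central
      have e1 : ∀ χ : Irr H, v (Sum.inr z) χ * starRingEnd ℂ (v (Sum.inr z') χ) =
          if (χ : H → ℂ) ∈ IrrE M b then ((χ : H → ℂ) z * starRingEnd ℂ ((χ : H → ℂ) z')) *
            ((σ : ℝ) : ℂ)⁻¹ else 0 := by
        intro χ
        change (if (χ : H → ℂ) ∈ IrrE M b then
            (χ : H → ℂ) z / ((Real.sqrt σ : ℝ) : ℂ) else 0) *
          starRingEnd ℂ (if (χ : H → ℂ) ∈ IrrE M b then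
            (χ : H → ℂ) z' / ((Real.sqrt σ : ℝ) : ℂ) else 0) = _
        split_ifs with h
        · rw [map_div₀, hcr, div_mul_div_comm, ← Complex.ofReal_mul, Real.mul_self_sqrt hσ0.le]
          rfl
        · rw [zero_mul]
      rw [Finset.sum_congr rfl fun χ _ => e1 χ,
        hsum_blk fun χ => (χ z * starRingEnd ℂ (χ z')) * ((σ : ℝ) : ℂ)⁻¹,
        ← Finset.sum_mul, sum_cent b ((hZ z).1 z.2).2]
      by_cases h : z = z'
      · subst h
        rw [if_pos rfl, mul_inv_cancel, hpr1]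
        exact mul_inv_cancel₀ (by exact_mod_cast hσ0.ne')
      · have h1 : (z : H) * (z' : H)⁻¹ ≠ 1 := fun h' => h (Subtype.ext (mul_inv_eq_one.1 h'))
        have h2 : ¬ Reg ℓ ((z : H) * (z' : H)⁻¹) := fun h' =>
          h1 (el_reg (helm z ((hZ z).1 z.2).1 z' ((hZ z').1 z'.2).1) h')
        rw [(H25.rc_pr wbo_ ℓ M hM H b hL.blk.1).sg _ h2, zero_mul, if_neg]
        intro h'
        exact h (Sum.inr_injective h')
  have hrow : ∀ i, ∑ i', ‖∑ k, v i k * starRingEnd ℂ (v i' k)‖ ≤ (1 : ℝ) := by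
    intro i
    rw [Finset.sum_eq_single i]
    · rw [gram, if_pos rfl, norm_one]
    · intro i' _ hi
      rw [gram, if_neg (Ne.symm hi), norm_zero]
    · intro h
      exact absurd (Finset.mem_univ i) h
  have hB := bes (S ⊕ Z) (Irr H) v 1 zero_le_one hrow (Pi.single ⟨κ, hκ.1⟩ 1)
  have e3 : ∀ i, ∑ k, (Pi.single (⟨κ, hκ.1⟩ : Irr H) (1 : ℂ) : Irr H → ℂ) k * v i k =
      v i ⟨κ, hκ.1⟩ := by
    intro i
    rw [Finset.sum_eq_single (⟨κ, hκ.1⟩ : Irr H)]
    · rw [Pi.single_eq_same, one_mul]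
    · intro k _ hk
      rw [Pi.single_eq_of_ne hk, zero_mul]
    · intro h
      exact absurd (Finset.mem_univ _) h
  have e4 : ∑ k, Complex.normSq ((Pi.single (⟨κ, hκ.1⟩ : Irr H) (1 : ℂ) : Irr H → ℂ) k) = 1 := by
    rw [Finset.sum_eq_single (⟨κ, hκ.1⟩ : Irr H)]
    · rw [Pi.single_eq_same, Complex.normSq_one]
    · intro k _ hk
      rw [Pi.single_eq_of_ne hk, Complex.normSq_zero]
    · intro h
      exact absurd (Finset.mem_univ _) h
  simp only [e3] at hB
  rw [e4, mul_one, Fintype.sum_sum_type] at hB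
  have e5 : ∑ x : S, Complex.normSq (v (Sum.inl x) ⟨κ, hκ.1⟩) =
      (∑ x ∈ S, Complex.normSq (gv M (Cu x) x (c x) κ / d x)) / Nat.card V := by
    rw [Finset.sum_div, ← Finset.sum_coe_sort S]
    refine Finset.sum_congr rfl fun x _ => ?_
    change Complex.normSq (gv M (Cu (x : H)) x (c x) κ /
      ((d x * Real.sqrt (Nat.card V) : ℝ) : ℂ)) = _
    have h1 : gv M (Cu (x : H)) x (c x) κ / ((d x * Real.sqrt (Nat.card V) : ℝ) : ℂ) =
        gv M (Cu (x : H)) x (c x) κ / d x / ((Real.sqrt (Nat.card V) : ℝ) : ℂ) := by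
      rw [Complex.ofReal_mul, div_div]
      rfl
    rw [h1, Complex.normSq_div, Complex.normSq_ofReal, Real.mul_self_sqrt hV0.le]
  have e6 : ∑ z : Z, Complex.normSq (v (Sum.inr z) ⟨κ, hκ.1⟩) =
      Z.card * Complex.normSq (κ 1) / σ := by
    have h1 : ∀ z : Z, Complex.normSq (v (Sum.inr z) ⟨κ, hκ.1⟩) =
        Complex.normSq (κ 1) / σ := by
      intro z
      change Complex.normSq (if κ ∈ IrrE M b then κ z / ((Real.sqrt σ : ℝ) : ℂ) else 0) = _
      rw [if_pos hκ, Complex.normSq_div, Complex.normSq_ofReal, Real.mul_self_sqrt hσ0.le,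
        cent_norm hκ.1 ((hZ z).1 z.2).2]
    rw [Finset.sum_congr rfl fun z _ => h1 z, Finset.sum_const, Finset.card_univ,
      Fintype.card_coe, nsmul_eq_mul, mul_div_assoc]
  rw [e5, e6] at hB
  exact hB

end Pool.Agent.PP.T3.H72
end
end -- Pool.Agent.Helper72_AT3.NIB

section -- Pool.Agent.Helper72_AT8.RG1

/-!
# Squad AT8, row RG1: the characters of a block of inertial index one agree at the regular
elements
-/

set_option autoImplicit false

open scoped BigOperators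

noncomputable section

namespace Pool.Agent.PP.T8.H72

open Pool.Agent.Helper51_AWC Pool.Agent.Helper79_WRA Pool.Agent.PP Pool.Agent.PP.KF
open Pool.Agent.PP.K9 Pool.Agent.PP.K9.H97 Pool.Agent.PP.H75 Pool.Agent.PP.T3
open Pool.Agent.PP.T3.H72

attribute [local instance] Ideal.Quotient.field

/-- A family of `|ι| = |κ|` orthogonal vectors without zero is complete. -/
theorem complete {ι κ : Type} [Fintype ι] [Fintype κ] [DecidableEq ι] [DecidableEq κ]
    (v : ι → κ → ℂ) (n : ι → ℂ) (hn : ∀ i, n i ≠ 0)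
    (gram : ∀ i i', ∑ k, v i k * starRingEnd ℂ (v i' k) = if i = i' then n i else 0)
    (hc : Fintype.card ι = Fintype.card κ) (f : κ → ℂ) (i0 : ι)
    (hf : ∀ i, i ≠ i0 → ∑ k, f k * starRingEnd ℂ (v i k) = 0) :
    ∃ a : ℂ, ∀ k, f k = a * v i0 k := by
  let A : Matrix ι κ ℂ := Matrix.of v
  let B : Matrix κ ι ℂ := Matrix.of fun k i => starRingEnd ℂ (v i k) * (n i)⁻¹
  have h1 : A * B = 1 := by
    ext i i'
    rw [Matrix.mul_apply, Matrix.one_apply]
    change ∑ k, v i k * (starRingEnd ℂ (v i' k) * (n i')⁻¹) = _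
    have h2 : ∀ k, v i k * (starRingEnd ℂ (v i' k) * (n i')⁻¹) =
        (v i k * starRingEnd ℂ (v i' k)) * (n i')⁻¹ := fun k => (mul_assoc _ _ _).symm
    rw [Finset.sum_congr rfl fun k _ => h2 k, ← Finset.sum_mul, gram]
    by_cases h : i = i'
    · subst h
      rw [if_pos rfl, if_pos rfl, mul_inv_cancel₀ (hn i)]
    · rw [if_neg h, if_neg h, zero_mul]
  have h2 : B * A = 1 := (Matrix.mul_eq_one_comm_of_card_eq _ _ _ hc).1 h1
  refine ⟨(∑ k, f k * starRingEnd ℂ (v i0 k)) * (n i0)⁻¹, fun k => ?_⟩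
  have h3 : ∀ k', (if k' = k then (1 : ℂ) else 0) =
      ∑ i, starRingEnd ℂ (v i k') * (n i)⁻¹ * v i k := by
    intro k'
    have h4 := congrFun (congrFun h2 k') k
    rw [Matrix.mul_apply, Matrix.one_apply] at h4
    exact h4.symm
  have h5 : f k = ∑ k', f k' * (if k' = k then (1 : ℂ) else 0) := by
    rw [Finset.sum_eq_single k]
    · rw [if_pos rfl, mul_one]
    · intro k' _ hk
      rw [if_neg hk, mul_zero]
    · intro h
      exact absurd (Finset.mem_univ _) h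
  rw [h5]
  simp only [h3, Finset.mul_sum]
  rw [Finset.sum_comm, Finset.sum_eq_single i0]
  · rw [Finset.sum_mul, Finset.sum_mul]
    refine Finset.sum_congr rfl fun k' _ => ?_
    ring
  · intro i _ hi
    have h6 : ∑ k', f k' * (starRingEnd ℂ (v i k') * (n i)⁻¹ * v i k) =
        (∑ k', f k' * starRingEnd ℂ (v i k')) * ((n i)⁻¹ * v i k) := by
      rw [Finset.sum_mul]
      refine Finset.sum_congr rfl fun k' _ => ?_
      ring
    rw [h6, hf i hi, zero_mul]
  · intro h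
    exact absurd (Finset.mem_univ _) h

/-- RG1 -/
theorem rg1 (loc : T3.LocStmt) (lsb : T3.LsbStmt) (nil : T3.NilStmt) (smg : T3.SmgStmt)
    (co1 : T3.Co1Stmt) (co2 : T3.Co2Stmt) (fus : T3.FusStmt) : Rg1Stmt := by
  classical
  intro ℓ hℓ M _ hM H _ _ b V γ hL hix κ hκ κ' hκ' s hs
  have hF : GoodF ℓ (FF M) := H50.fld ℓ Fact.out M hM
  have := Fintype.ofFinite H
  obtain ⟨⟨d0, hd0⟩, hcard, -⟩ := nil ℓ M hM H b V γ hL hix
  have hTC : Tg V γ ≤ Subgroup.centralizer (V : Set H) := Subgroup.relIndex_eq_one.1 hix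
  have hEl : ∀ x ∈ V, El ℓ x := fun x hx => el_of_mem hL.tp.pg hx
  -- the local blocks
  have hloc : ∀ x : H, ∃ (c : H → FF M) (d : ℕ), x ∈ V → Lc b V γ x c ∧
      Dg M (fun t : Cu x => c t) d ∧ (IrrE M (fun t : Cu x => c t)).ncard = Nat.card V := by
    intro x
    by_cases hxV : x ∈ V
    · obtain ⟨⟨c, hc⟩, -⟩ := loc ℓ (FF M) hF H b V γ hL x hxV
      obtain ⟨h1, h2, h3, h4, h5⟩ := lsb ℓ M hM H b V γ hL x hxV c hc
      have h6 : ix (V.subgroupOf (Cu x)) (fun t : Cu x => γ t) = 1 := by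
        rw [h2]
        exact Subgroup.relIndex_eq_one.2 (inf_le_left.trans hTC)
      obtain ⟨⟨d, hd⟩, h7, -⟩ := nil ℓ M hM (Cu x) _ _ _ h1 h6
      exact ⟨c, d, fun _ => ⟨hc, hd, h7.trans h3⟩⟩
    · exact ⟨0, 0, fun h => absurd h hxV⟩
  choose c d hcd using hloc
  -- the characters of the block
  have hfin : (IrrE M b).Finite := H25.irrE_finite M b
  have hfI : (Irr H).Finite := T3.H41.irrF H
  let K : Type := hfin.toFinset
  have hcK : Fintype.card V = Fintype.card K := by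
    rw [Fintype.card_coe, ← Set.ncard_eq_toFinset_card _ hfin, hcard, Nat.card_eq_fintype_card]
  -- the vectors
  let v : V → K → ℂ := fun x χ =>
    if (x : H) ∈ Subgroup.center H then (χ : H → ℂ) x else gv M (Cu (x : H)) x (c x) χ
  have hout : ∀ x ∈ V, x ≠ 1 → ∀ χ ∈ Irr H, χ ∉ IrrE M b → gv M (Cu x) x (c x) χ = 0 := by
    intro x hx hx1 χ hχ hχb
    obtain ⟨h1, h2, h3⟩ := hcd x hx
    have h4 := (smg ℓ M hM H x 1 hx1 (hEl x hx) (Cu x).one_mem H25.reg_one
      (fun t : Cu x => c x t) h1.blk.ix.idem b hL.blk.1).1 h1.und χ hχ hχb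
    rw [mul_one] at h4
    exact h4
  -- sums over the block and over all the characters
  have hsub : hfin.toFinset ⊆ hfI.toFinset := by
    intro χ hχ
    rw [Set.Finite.mem_toFinset] at hχ ⊢
    exact hχ.1
  have hall : ∀ x ∈ V, x ≠ 1 → ∀ f : (H → ℂ) → ℂ,
      ∑ χ ∈ hfin.toFinset, gv M (Cu x) x (c x) χ * f χ =
      ∑ᶠ χ ∈ Irr H, gv M (Cu x) x (c x) χ * f χ := by
    intro x hx hx1 f
    rw [finsum_mem_eq_finite_toFinset_sum _ hfI]
    refine Finset.sum_subset hsub fun χ h1 h2 => ?_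
    rw [Set.Finite.mem_toFinset] at h1 h2
    rw [hout x hx hx1 χ h1 h2, zero_mul]
  have hn1 : ∀ x : H, x ∉ Subgroup.center H → x ≠ 1 := by
    intro x hx h
    exact hx (h ▸ (Subgroup.center H).one_mem)
  have helm : ∀ z ∈ V, ∀ x ∈ V, El ℓ (z * x⁻¹) := fun z hz x hx =>
    hEl _ (V.mul_mem hz (V.inv_mem hx))
  have hmix : ∀ z ∈ V, z ∈ Subgroup.center H → ∀ x ∈ V, x ∉ Subgroup.center H →
      ∑ χ ∈ hfin.toFinset, χ z * starRingEnd ℂ (gv M (Cu x) x (c x) χ) = 0 := by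
    intro z hz hzc x hx hxc
    refine sum_mixed hM hL.blk.1 hzc (helm z hz x hx) ?_ (hcd x hx).1.blk.ix
    intro h
    exact hxc (h ▸ hzc)
  -- the squared norms
  set σ : ℂ := pr M b 1 with hσ
  have hσ0 : σ ≠ 0 := by
    have e1 : ∀ χ ∈ (H25.irrE_finite M b).toFinset, χ 1 * χ 1 = ((d0 : ℂ)) * d0 := by
      intro χ hχ
      rw [Set.Finite.mem_toFinset] at hχ
      rw [hd0.2 χ hχ]
    rw [hσ, H25.pr_eq, Finset.sum_congr rfl e1, Finset.sum_const, nsmul_eq_mul,
      ← Set.ncard_eq_toFinset_card _ _, hcard]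
    have h1 : (Nat.card V : ℂ) ≠ 0 := by exact_mod_cast Nat.card_pos.ne'
    have h2 : (d0 : ℂ) ≠ 0 := by exact_mod_cast hd0.1.ne'
    exact mul_ne_zero h1 (mul_ne_zero h2 h2)
  let n : V → ℂ := fun x => if (x : H) ∈ Subgroup.center H then σ else
    (Nat.card V : ℂ) * (d x : ℂ) ^ 2
  have hn : ∀ x, n x ≠ 0 := by
    intro x
    change (if (x : H) ∈ Subgroup.center H then σ else (Nat.card V : ℂ) * (d x : ℂ) ^ 2) ≠ 0
    split_ifs with h
    · exact hσ0
    · have h1 : (Nat.card V : ℂ) ≠ 0 := by exact_mod_cast Nat.card_pos.ne'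
      have h2 : (d x : ℂ) ≠ 0 := by exact_mod_cast (hcd x x.2).2.1.1.ne'
      exact mul_ne_zero h1 (pow_ne_zero 2 h2)
  have hconv : ∀ f : (H → ℂ) → ℂ, ∑ k : K, f k = ∑ χ ∈ hfin.toFinset, f χ := fun f =>
    Finset.sum_coe_sort hfin.toFinset f
  have gram : ∀ i i', ∑ k, v i k * starRingEnd ℂ (v i' k) = if i = i' then n i else 0 := by
    intro x x'
    by_cases hx : (x : H) ∈ Subgroup.center H <;> by_cases hx' : (x' : H) ∈ Subgroup.center H
    · have e1 : ∑ k, v x k * starRingEnd ℂ (v x' k) =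
          ∑ k : K, (k : H → ℂ) x * starRingEnd ℂ ((k : H → ℂ) x') := by
        refine Finset.sum_congr rfl fun k _ => ?_
        change (if (x : H) ∈ Subgroup.center H then (k : H → ℂ) x else _) *
          starRingEnd ℂ (if (x' : H) ∈ Subgroup.center H then (k : H → ℂ) x' else _) = _
        rw [if_pos hx, if_pos hx']
      rw [e1, hconv fun χ => χ x * starRingEnd ℂ (χ x'), sum_cent b hx]
      by_cases h : x = x'
      · subst h
        rw [if_pos rfl, mul_inv_cancel]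
        change σ = if (x : H) ∈ Subgroup.center H then σ else _
        rw [if_pos hx]
      · rw [if_neg h]
        refine (H25.rc_pr wbo_ ℓ M hM H b hL.blk.1).sg _ fun h' => h ?_
        exact Subtype.ext (mul_inv_eq_one.1 (el_reg (helm x x.2 x' x'.2) h'))
    · have hne : x ≠ x' := fun h => hx' (h ▸ hx)
      have e1 : ∑ k, v x k * starRingEnd ℂ (v x' k) =
          ∑ k : K, (k : H → ℂ) x * starRingEnd ℂ (gv M (Cu (x' : H)) x' (c x') k) := by
        refine Finset.sum_congr rfl fun k _ => ?_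
        change (if (x : H) ∈ Subgroup.center H then (k : H → ℂ) x else _) *
          starRingEnd ℂ (if (x' : H) ∈ Subgroup.center H then (k : H → ℂ) x' else
            gv M (Cu (x' : H)) x' (c x') k) = _
        rw [if_pos hx, if_neg hx']
      rw [e1, hconv fun χ => χ x * starRingEnd ℂ (gv M (Cu (x' : H)) x' (c x') χ),
        hmix x x.2 hx x' x'.2 hx', if_neg hne]
    · have hne : x ≠ x' := fun h => hx (h ▸ hx')
      have e1 : ∑ k, v x k * starRingEnd ℂ (v x' k) =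
          ∑ k : K, starRingEnd ℂ ((k : H → ℂ) x' *
            starRingEnd ℂ (gv M (Cu (x : H)) x (c x) k)) := by
        refine Finset.sum_congr rfl fun k _ => ?_
        change (if (x : H) ∈ Subgroup.center H then (k : H → ℂ) x else
            gv M (Cu (x : H)) x (c x) k) *
          starRingEnd ℂ (if (x' : H) ∈ Subgroup.center H then (k : H → ℂ) x' else _) = _
        rw [if_neg hx, if_pos hx', map_mul, Complex.conj_conj, mul_comm]
      rw [e1, ← map_sum, hconv fun χ => χ x' * starRingEnd ℂ (gv M (Cu (x : H)) x (c x) χ),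
        hmix x' x'.2 hx' x x.2 hx, map_zero, if_neg hne]
    · have e1 : ∑ k, v x k * starRingEnd ℂ (v x' k) =
          ∑ k : K, gv M (Cu (x : H)) x (c x) k *
            starRingEnd ℂ (gv M (Cu (x' : H)) x' (c x') k) := by
        refine Finset.sum_congr rfl fun k _ => ?_
        change (if (x : H) ∈ Subgroup.center H then (k : H → ℂ) x else
            gv M (Cu (x : H)) x (c x) k) *
          starRingEnd ℂ (if (x' : H) ∈ Subgroup.center H then (k : H → ℂ) x' else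
            gv M (Cu (x' : H)) x' (c x') k) = _
        rw [if_neg hx, if_neg hx']
      rw [e1, hconv fun χ => gv M (Cu (x : H)) x (c x) χ *
            starRingEnd ℂ (gv M (Cu (x' : H)) x' (c x') χ),
        hall x x.2 (hn1 x hx) fun χ => starRingEnd ℂ (gv M (Cu (x' : H)) x' (c x') χ)]
      by_cases h : x = x'
      · subst h
        rw [if_pos rfl]
        change _ = if (x : H) ∈ Subgroup.center H then σ else (Nat.card V : ℂ) * (d x : ℂ) ^ 2
        rw [if_neg hx]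
        obtain ⟨h1, h2, h3⟩ := hcd x x.2
        rw [co1 ℓ M hM H x (hEl x x.2) (c x) h1.blk.ix,
          finsum_mem_eq_finite_toFinset_sum _ (H25.irrE_finite M _)]
        have h4 : ∀ θ ∈ (H25.irrE_finite M (fun t : Cu (x : H) => c x t)).toFinset,
            θ 1 ^ 2 = ((d x : ℂ)) ^ 2 := by
          intro θ hθ
          rw [Set.Finite.mem_toFinset] at hθ
          rw [h2.2 θ hθ]
        rw [Finset.sum_congr rfl h4, Finset.sum_const, ← Set.ncard_eq_toFinset_card _ _, h3,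
          nsmul_eq_mul]
      · have h1 : (x : H) ≠ x' := fun h' => h (Subtype.ext h')
        rw [orth_ss fus co2 hM hL hix x.2 x'.2 h1 (hcd x x.2).1 (hcd x' x'.2).1, if_neg h]
  -- the values at `s`
  have hf : ∀ i : V, i ≠ 1 → ∑ k : K, (k : H → ℂ) s * starRingEnd ℂ (v i k) = 0 := by
    intro x hx1
    have hx1' : (x : H) ≠ 1 := fun h => hx1 (Subtype.ext h)
    have hw : ∀ g : H, ¬ Reg ℓ g →
        ∑ χ ∈ hfin.toFinset, χ s * starRingEnd ℂ (χ g) = 0 := by
      intro g hg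
      have h1 := wbo_ ℓ M hM H b hL.blk.1 s⁻¹ g⁻¹ (H25.reg_inv.2 hs)
        (fun h => hg (H25.reg_inv.1 h))
      rw [finsum_mem_eq_finite_toFinset_sum _ hfin, inv_inv] at h1
      rw [← h1]
      refine Finset.sum_congr rfl fun χ hχ => ?_
      rw [Set.Finite.mem_toFinset] at hχ
      rw [H94.irr_star hχ.1]
    by_cases hx : (x : H) ∈ Subgroup.center H
    · have e1 : ∑ k : K, (k : H → ℂ) s * starRingEnd ℂ (v x k) =
          ∑ k : K, (k : H → ℂ) s * starRingEnd ℂ ((k : H → ℂ) x) := by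
        refine Finset.sum_congr rfl fun k _ => ?_
        change _ * starRingEnd ℂ (if (x : H) ∈ Subgroup.center H then (k : H → ℂ) x else _) = _
        rw [if_pos hx]
      rw [e1, hconv fun χ => χ s * starRingEnd ℂ (χ x)]
      exact hw x fun h => hx1' (el_reg (hEl x x.2) h)
    · have e1 : ∑ k : K, (k : H → ℂ) s * starRingEnd ℂ (v x k) =
          ∑ k : K, (k : H → ℂ) s * starRingEnd ℂ (gv M (Cu (x : H)) x (c x) k) := by
        refine Finset.sum_congr rfl fun k _ => ?_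
        change _ * starRingEnd ℂ (if (x : H) ∈ Subgroup.center H then _ else
            gv M (Cu (x : H)) x (c x) k) = _
        rw [if_neg hx]
      rw [e1, hconv fun χ => χ s * starRingEnd ℂ (gv M (Cu (x : H)) x (c x) χ)]
      have := Fintype.ofFinite (Cu (x : H))
      have e2 : ∀ χ ∈ hfin.toFinset,
          χ s * starRingEnd ℂ (gv M (Cu (x : H)) x (c x) χ) =
          ∑ t : Cu (x : H), starRingEnd ℂ (eh M (fun t : Cu (x : H) => c x t) t) *
            (χ s * starRingEnd ℂ (χ (x * t))) := by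
        intro χ _
        rw [gv_star (x : H) (c x) χ, Finset.mul_sum]
        refine Finset.sum_congr rfl fun t _ => ?_
        ring
      rw [Finset.sum_congr rfl e2, Finset.sum_comm]
      refine Finset.sum_eq_zero fun t _ => ?_
      rw [← Finset.mul_sum]
      by_cases ht : Reg ℓ t
      · have ht2 : Reg ℓ (t : H) := by
          unfold Reg at ht ⊢
          rwa [Subgroup.orderOf_coe]
        have hcom : Commute (x : H) (t : H) :=
          (Subgroup.mem_centralizer_singleton_iff.1 t.2).symm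
        rw [hw _ (sing_mul (hEl x x.2) hx1' hcom ht2), mul_zero]
      · rw [H25.eh_sing wbo_ ℓ M hM _ (hcd x x.2).1.blk.ix.idem t ht, map_zero, zero_mul]
  obtain ⟨a, ha⟩ := complete v n hn gram hcK (fun k : K => (k : H → ℂ) s) 1 hf
  have h1 : ∀ k : K, v 1 k = d0 := by
    intro k
    change (if ((1 : V) : H) ∈ Subgroup.center H then (k : H → ℂ) ((1 : V) : H) else _) = _
    rw [OneMemClass.coe_one, if_pos (Subgroup.center H).one_mem]
    exact hd0.2 k ((Set.Finite.mem_toFinset _).1 k.2)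
  have h2 := ha ⟨κ, (Set.Finite.mem_toFinset _).2 hκ⟩
  have h3 := ha ⟨κ', (Set.Finite.mem_toFinset _).2 hκ'⟩
  rw [h1] at h2 h3
  exact h2.trans h3.symm

end Pool.Agent.PP.T8.H72
end
end -- Pool.Agent.Helper72_AT8.RG1

section -- Pool.Agent.Helper99_AT8.SBS

/-!
# Squad AT8, row SBS: the strict form of Bessel's inequality with the degree vector
-/

set_option autoImplicit false
set_option maxHeartbeats 4000000

open scoped BigOperators

noncomputable section

namespace Pool.Agent.PP.T8.H99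

open Pool.Agent.Helper51_AWC Pool.Agent.Helper79_WRA Pool.Agent.PP Pool.Agent.PP.KF
open Pool.Agent.PP.K9 Pool.Agent.PP.K9.H97 Pool.Agent.PP.H75 Pool.Agent.PP.T3 Pool.Agent.PP.T2

attribute [local instance] Ideal.Quotient.field

/-- Bessel's inequality with one additional orthogonal vector, abstract form. -/
theorem bessel_strict {ι κ : Type*} [DecidableEq κ] (U : Finset ι) (E : Finset κ) (v : ι → κ → ℂ)
    (D : κ → ℝ) (x : κ) (hx : x ∈ E) (hD : D x ≠ 0)
    (orth : ∀ u ∈ U, ∑ k ∈ E, v u k * (D k : ℂ) = 0) (c : ℝ) (hc : 0 < c)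
    (hw : ∑ k ∈ E, Complex.normSq (∑ u ∈ U, starRingEnd ℂ (v u x) * v u k) ≤
      c * ∑ u ∈ U, Complex.normSq (v u x)) :
    ∑ u ∈ U, Complex.normSq (v u x) < c := by
  set A : ℝ := ∑ u ∈ U, Complex.normSq (v u x) with hA
  set w : κ → ℂ := fun k => ∑ u ∈ U, starRingEnd ℂ (v u x) * v u k with hwd
  set S : ℝ := ∑ k ∈ E, D k ^ 2 with hS
  have hA0 : 0 ≤ A := Finset.sum_nonneg fun u _ => Complex.normSq_nonneg _
  have hDS : D x ^ 2 ≤ S :=
    Finset.single_le_sum (f := fun k => D k ^ 2) (fun k _ => sq_nonneg _) hx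
  have hDx : 0 < D x ^ 2 := by positivity
  have hS0 : 0 < S := lt_of_lt_of_le hDx hDS
  have hwx : w x = (A : ℂ) := by
    rw [hwd, hA]
    push_cast
    refine Finset.sum_congr rfl fun u _ => ?_
    rw [Complex.normSq_eq_conj_mul_self]
  have hwD : ∑ k ∈ E, w k * (D k : ℂ) = 0 := by
    rw [hwd]
    simp only [Finset.sum_mul]
    rw [Finset.sum_comm]
    refine Finset.sum_eq_zero fun u hu => ?_
    have h := orth u hu
    calc ∑ k ∈ E, starRingEnd ℂ (v u x) * v u k * (D k : ℂ)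
        = starRingEnd ℂ (v u x) * ∑ k ∈ E, v u k * (D k : ℂ) := by
          rw [Finset.mul_sum]
          refine Finset.sum_congr rfl fun k _ => by ring
      _ = 0 := by rw [h, mul_zero]
  -- the test vector
  set y : κ → ℝ := fun k => (if k = x then 1 else 0) - D x / S * D k with hy
  have h1 : (A : ℂ) = ∑ k ∈ E, w k * (y k : ℂ) := by
    have e1 : ∀ k ∈ E, w k * (y k : ℂ) =
        (if k = x then w k else 0) - (D x / S : ℝ) * (w k * (D k : ℂ)) := by
      intro k _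
      rw [hy]
      simp only
      split_ifs
      · push_cast
        ring
      · push_cast
        ring
    rw [Finset.sum_congr rfl e1, Finset.sum_sub_distrib, ← Finset.mul_sum, hwD, mul_zero, sub_zero,
      Finset.sum_ite_eq' E x w, if_pos hx, hwx]
  have h2 : A ≤ ∑ k ∈ E, ‖w k‖ * |y k| := by
    have e1 : ‖(A : ℂ)‖ = A := by
      rw [Complex.norm_real, Real.norm_eq_abs, abs_of_nonneg hA0]
    rw [← e1, h1]
    refine (norm_sum_le _ _).trans (le_of_eq ?_)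
    refine Finset.sum_congr rfl fun k _ => ?_
    rw [norm_mul, Complex.norm_real, Real.norm_eq_abs]
  have h3 : A ^ 2 ≤ (∑ k ∈ E, ‖w k‖ ^ 2) * ∑ k ∈ E, |y k| ^ 2 :=
    (pow_le_pow_left₀ hA0 h2 2).trans (Finset.sum_mul_sq_le_sq_mul_sq E _ _)
  have h4 : ∑ k ∈ E, ‖w k‖ ^ 2 ≤ c * A := by
    refine le_trans (le_of_eq ?_) hw
    refine Finset.sum_congr rfl fun k _ => ?_
    rw [Complex.normSq_eq_norm_sq]
  have h5 : ∑ k ∈ E, |y k| ^ 2 = 1 - D x ^ 2 / S := by
    have e1 : ∀ k ∈ E, |y k| ^ 2 =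
        (if k = x then 1 - 2 * (D x / S * D k) else 0) + (D x / S) ^ 2 * D k ^ 2 := by
      intro k _
      rw [sq_abs, hy]
      simp only
      split_ifs <;> ring
    rw [Finset.sum_congr rfl e1, Finset.sum_add_distrib, ← Finset.mul_sum, ← hS,
      Finset.sum_ite_eq' E x (fun k => 1 - 2 * (D x / S * D k)), if_pos hx]
    field_simp
    ring
  have h6 : 0 < D x ^ 2 / S := div_pos hDx hS0
  have h7 : D x ^ 2 / S ≤ 1 := (div_le_one hS0).2 hDS
  rcases hA0.eq_or_lt with h0 | h0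
  · rw [← h0]
    exact hc
  · have h8 : A ^ 2 ≤ c * A * (1 - D x ^ 2 / S) := by
      rw [← h5]
      refine h3.trans (mul_le_mul_of_nonneg_right h4 ?_)
      exact Finset.sum_nonneg fun k _ => sq_nonneg _
    have h9 : A ≤ c * (1 - D x ^ 2 / S) := by
      have : A * A ≤ A * (c * (1 - D x ^ 2 / S)) := by nlinarith
      exact le_of_mul_le_mul_left this h0
    nlinarith [mul_pos hc h6]

section main

variable {G : Type} [Group G] [Finite G] {ℓ : ℕ} [Fact ℓ.Prime]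
  {M : Ideal (integralClosure ℤ ℂ)} [M.IsMaximal]

/-- the values vanish outside of the block -/
theorem vv_out (smg : SmgStmt) (hM : (ℓ : integralClosure ℤ ℂ) ∈ M) {e : G → FF M}
    {V : Subgroup G} {γ : G → FF M} {b : G → G → FF M} {d : G → ℕ} {c : ℕ} {ε : G → ℤ}
    (h : Dat M ℓ e V γ b d c ε) {u : G} (hu : Rg V γ u) {χ : G → ℂ} (hχ : χ ∈ Irr G)
    (hn : χ ∉ IrrE M e) : vv M b d u χ = 0 := by
  have h1 := (smg ℓ M hM G u 1 hu.2.1 (H72.el_of_mem h.ld.tp.pg hu.1) (Subgroup.one_mem _)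
    H25.reg_one (fun t : Cu u => b u t) (h.lc u hu).blk.blk.1 e h.ld.blk.1).1 (h.lc u hu).und χ hχ hn
  unfold vv gv
  rw [mul_one] at h1
  rw [h1, zero_div]

/-- the values are orthogonal to the degrees -/
theorem vv_deg (wbo : WboStmt) (hM : (ℓ : integralClosure ℤ ℂ) ∈ M) {e : G → FF M}
    {V : Subgroup G} {γ : G → FF M} {b : G → G → FF M} {d : G → ℕ} {c : ℕ} {ε : G → ℤ}
    (h : Dat M ℓ e V γ b d c ε) {u : G} (hu : Rg V γ u) (E : Finset (G → ℂ))
    (hE : ∀ χ, χ ∈ E ↔ χ ∈ IrrE M e) : ∑ χ ∈ E, vv M b d u χ * χ 1 = 0 := by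
  classical
  have := Fintype.ofFinite G
  have := Fintype.ofFinite (Cu u)
  have hel : El ℓ u := H72.el_of_mem h.ld.tp.pg hu.1
  have e1 : ∀ χ ∈ E, vv M b d u χ * χ 1 =
      ∑ t : Cu u, (d u : ℂ)⁻¹ * eh M (fun t : Cu u => b u t) t * (χ (1 : G)⁻¹ * χ (u * t)) := by
    intro χ _
    unfold vv gv gbv
    rw [finsum_eq_sum_of_fintype, div_eq_mul_inv, Finset.sum_mul, Finset.sum_mul]
    refine Finset.sum_congr rfl fun t _ => ?_
    rw [inv_one]
    ring
  rw [Finset.sum_congr rfl e1, Finset.sum_comm]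
  refine Finset.sum_eq_zero fun t _ => ?_
  rw [← Finset.mul_sum]
  by_cases ht : Reg ℓ t
  · have hs : ¬ Reg ℓ (u * (t : G)) := by
      refine H72.sing_mul hel hu.2.1 ?_ ?_
      · exact (Subgroup.mem_centralizer_singleton_iff.1 t.2).symm
      · unfold Reg at ht ⊢
        rwa [Subgroup.orderOf_coe]
    have h1 := wbo ℓ M hM G e h.ld.blk.1 1 (u * (t : G)) H25.reg_one hs
    have h2 : ∑ χ ∈ E, χ (1 : G)⁻¹ * χ (u * (t : G)) = 0 := by
      rw [← h1]
      rw [← finsum_mem_coe_finset]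
      refine finsum_mem_congr ?_ (fun _ _ => rfl)
      ext χ
      rw [Finset.mem_coe, hE]
    rw [h2, mul_zero]
  · have h1 := H25.eh_sing wbo ℓ M hM (fun t : Cu u => b u t) (h.lc u hu).blk.blk.1 t ht
    rw [h1, mul_zero, zero_mul]

/-- The number of the conjugates of an element of `V` under the inertial group is at most the
inertial index. -/
theorem conj_card {F : Type} [Field F] (V : Subgroup G) (γ : G → F) (u : G) (hu : u ∈ V)
    (S : Finset G) (hS : ∀ z ∈ S, ∃ t ∈ Tg V γ, t * z * t⁻¹ = u) : S.card ≤ ix V γ := by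
  classical
  have := Fintype.ofFinite G
  have hix : ix V γ = Nat.card (Tg V γ ⧸ (Subgroup.centralizer (V : Set G)).subgroupOf (Tg V γ)) := rfl
  have : Fintype (Tg V γ ⧸ (Subgroup.centralizer (V : Set G)).subgroupOf (Tg V γ)) :=
    Fintype.ofFinite _
  rw [hix, Nat.card_eq_fintype_card, ← Finset.card_univ]
  have hsub : S ⊆ (Finset.univ : Finset (Tg V γ ⧸
      (Subgroup.centralizer (V : Set G)).subgroupOf (Tg V γ))).image
      (fun q => (q.out : G) * u * (q.out : G)⁻¹) := by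
    intro z hz
    obtain ⟨t, ht, hzt⟩ := hS z hz
    rw [Finset.mem_image]
    have ht' : t⁻¹ ∈ Tg V γ := (Tg V γ).inv_mem ht
    refine ⟨QuotientGroup.mk (⟨t⁻¹, ht'⟩ : Tg V γ), Finset.mem_univ _, ?_⟩
    obtain ⟨s, hs⟩ := QuotientGroup.mk_out_eq_mul
      ((Subgroup.centralizer (V : Set G)).subgroupOf (Tg V γ)) (⟨t⁻¹, ht'⟩ : Tg V γ)
    rw [hs]
    have hsc : ((s : Tg V γ) : G) ∈ Subgroup.centralizer (V : Set G) :=
      Subgroup.mem_subgroupOf.1 s.2
    have hcomm : ((s : Tg V γ) : G) * u = u * ((s : Tg V γ) : G) :=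
      (Subgroup.mem_centralizer_iff.1 hsc u hu).symm
    change t⁻¹ * ((s : Tg V γ) : G) * u * (t⁻¹ * ((s : Tg V γ) : G))⁻¹ = z
    have hz' : z = t⁻¹ * u * t := by
      rw [← hzt]
      group
    rw [hz', mul_assoc t⁻¹, hcomm]
    group
  exact (Finset.card_le_card hsub).trans Finset.card_image_le

/-- SBS: the strict form of Bessel's inequality. -/
theorem sbs (dor : DorStmt) (dpw : DpwStmt) (smg : SmgStmt) (wbo : WboStmt) : SbsStmt := by
  intro ℓ hℓ M _ hM hℓ2 G _ _ e V γ b d c ε h χ hχ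
  classical
  have := Fintype.ofFinite G
  have hfin : (IrrE M e).Finite := (irr_finite' (G := G)).subset fun _ h => h.1
  obtain ⟨E, hE⟩ : ∃ E : Finset (G → ℂ), ∀ χ, χ ∈ E ↔ χ ∈ IrrE M e :=
    ⟨hfin.toFinset, fun χ => Set.Finite.mem_toFinset hfin⟩
  obtain ⟨I, hI⟩ : ∃ I : Finset (G → ℂ), ∀ χ, χ ∈ I ↔ χ ∈ Irr G :=
    ⟨(irr_finite' (G := G)).toFinset, fun χ => Set.Finite.mem_toFinset _⟩
  obtain ⟨U, hU⟩ : ∃ U : Finset G, ∀ u, u ∈ U ↔ Rg V γ u :=
    ⟨Finset.univ.filter fun u => Rg V γ u, fun u => by simp⟩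
  have e0 : ∑ᶠ (u : G) (_ : Rg V γ u), Complex.normSq (vv M b d u χ) =
      ∑ u ∈ U, Complex.normSq (vv M b d u χ) := by
    rw [← finsum_mem_coe_finset]
    refine finsum_congr fun u => ?_
    have h1 : (u ∈ (U : Set G)) = Rg V γ u := by
      rw [Finset.mem_coe, hU]
    rw [h1]
  rw [e0]
  have hre : ∀ ψ ∈ Irr G, ((ψ 1).re : ℂ) = ψ 1 := by
    intro ψ hψ
    have h3 : starRingEnd ℂ (ψ 1) = ψ 1 := by
      rw [H94.irr_star hψ, inv_one]
    exact Complex.conj_eq_iff_re.1 h3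
  have hχI : χ ∈ Irr G := hχ.1
  have hcard : 0 < ix V γ * Nat.card V := by
    refine Nat.mul_pos ?_ Nat.card_pos
    have hix : ix V γ = Nat.card (Tg V γ ⧸
      (Subgroup.centralizer (V : Set G)).subgroupOf (Tg V γ)) := rfl
    rw [hix]
    exact Nat.card_pos
  refine bessel_strict U E (fun u ψ => vv M b d u ψ) (fun ψ => (ψ 1).re) χ ((hE χ).2 hχ) ?_ ?_ _
    (by exact_mod_cast hcard) ?_
  · intro h0
    have h1 := hre χ hχI
    rw [h0, Complex.ofReal_zero] at h1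
    exact irr_one_ne hχI h1.symm
  · intro u hu
    have h1 := vv_deg (ℓ := ℓ) wbo hM h ((hU u).1 hu) E hE
    rw [← h1]
    refine Finset.sum_congr rfl fun ψ hψ => ?_
    rw [hre ψ ((hE ψ).1 hψ).1]
  · -- the norm of the vector `w`
    have hdor : ∀ u ∈ U, ∀ u' ∈ U, ∑ ψ ∈ E, vv M b d u ψ * starRingEnd ℂ (vv M b d u' ψ) =
        if (∃ t ∈ Tg V γ, t * u' * t⁻¹ = u) then (Nat.card V : ℂ) else 0 := by
      intro u hu u' hu'
      have h1 := dor ℓ M hM G e V γ b d c ε h u u' ((hU u).1 hu) ((hU u').1 hu')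
      have h2 : ∑ᶠ ψ ∈ Irr G, vv M b d u ψ * starRingEnd ℂ (vv M b d u' ψ) =
          ∑ ψ ∈ E, vv M b d u ψ * starRingEnd ℂ (vv M b d u' ψ) := by
        have h3 : ∑ᶠ ψ ∈ Irr G, vv M b d u ψ * starRingEnd ℂ (vv M b d u' ψ) =
            ∑ ψ ∈ I, vv M b d u ψ * starRingEnd ℂ (vv M b d u' ψ) := by
          rw [← finsum_mem_coe_finset]
          refine finsum_mem_congr ?_ (fun _ _ => rfl)
          ext ψ
          rw [Finset.mem_coe, hI]
        rw [h3]
        symm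
        refine Finset.sum_subset ?_ ?_
        · intro ψ hψ
          exact (hI ψ).2 ((hE ψ).1 hψ).1
        · intro ψ hψ hn
          rw [vv_out smg hM h ((hU u).1 hu) ((hI ψ).1 hψ) (fun hh => hn ((hE ψ).2 hh)), zero_mul]
      rw [h2] at h1
      split_ifs with hc
      · exact h1.1 hc
      · exact h1.2 hc
    have hval : ∀ u ∈ U, ∀ u' ∈ U, (∃ t ∈ Tg V γ, t * u' * t⁻¹ = u) →
        vv M b d u' χ = vv M b d u χ := by
      intro u _ u' hu' ⟨t, ht, htu⟩
      have h1 := ((dpw ℓ M hM hℓ2 G e V γ b d c ε h).1 t ht u' ((hU u').1 hu')).2.2 χ hχI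
      rw [htu] at h1
      exact h1.symm
    -- the sum of squares as a complex number
    have hsum : ((∑ ψ ∈ E, Complex.normSq (∑ u ∈ U, starRingEnd ℂ (vv M b d u χ) *
        vv M b d u ψ) : ℝ) : ℂ) = ∑ u ∈ U, ∑ u' ∈ U,
          (if (∃ t ∈ Tg V γ, t * u' * t⁻¹ = u) then
            ((Nat.card V * Complex.normSq (vv M b d u χ) : ℝ) : ℂ) else 0) := by
      have s1 : ((∑ ψ ∈ E, Complex.normSq (∑ u ∈ U, starRingEnd ℂ (vv M b d u χ) *
          vv M b d u ψ) : ℝ) : ℂ) = ∑ ψ ∈ E, ∑ u ∈ U, ∑ u' ∈ U,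
          (starRingEnd ℂ (vv M b d u χ) * vv M b d u' χ) *
            (vv M b d u ψ * starRingEnd ℂ (vv M b d u' ψ)) := by
        push_cast
        refine Finset.sum_congr rfl fun ψ _ => ?_
        rw [← Complex.mul_conj, map_sum, Finset.sum_mul_sum]
        refine Finset.sum_congr rfl fun u _ => Finset.sum_congr rfl fun u' _ => ?_
        rw [map_mul, Complex.conj_conj]
        ring
      rw [s1, Finset.sum_comm]
      refine Finset.sum_congr rfl fun u hu => ?_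
      rw [Finset.sum_comm]
      refine Finset.sum_congr rfl fun u' hu' => ?_
      rw [← Finset.mul_sum, hdor u hu u' hu']
      split_ifs with hc
      · rw [hval u hu u' hu' hc]
        push_cast
        rw [Complex.normSq_eq_conj_mul_self]
        ring
      · rw [mul_zero]
    have hsum' : (∑ ψ ∈ E, Complex.normSq (∑ u ∈ U, starRingEnd ℂ (vv M b d u χ) *
        vv M b d u ψ) : ℝ) = ∑ u ∈ U, ∑ u' ∈ U,
          (if (∃ t ∈ Tg V γ, t * u' * t⁻¹ = u) then
            (Nat.card V * Complex.normSq (vv M b d u χ) : ℝ) else 0) := by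
      have : ((∑ ψ ∈ E, Complex.normSq (∑ u ∈ U, starRingEnd ℂ (vv M b d u χ) *
        vv M b d u ψ) : ℝ) : ℂ) = ((∑ u ∈ U, ∑ u' ∈ U,
          (if (∃ t ∈ Tg V γ, t * u' * t⁻¹ = u) then
            (Nat.card V * Complex.normSq (vv M b d u χ) : ℝ) else 0) : ℝ) : ℂ) := by
        rw [hsum]
        push_cast
        refine Finset.sum_congr rfl fun u _ => Finset.sum_congr rfl fun u' _ => ?_
        split_ifs <;> simp
      exact_mod_cast this
    rw [hsum', Finset.mul_sum]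
    refine Finset.sum_le_sum fun u hu => ?_
    rw [← Finset.sum_filter, Finset.sum_const, nsmul_eq_mul]
    have h1 := conj_card V γ u ((hU u).1 hu).1
      (U.filter fun u' => ∃ t ∈ Tg V γ, t * u' * t⁻¹ = u) (by
        intro z hz
        exact (Finset.mem_filter.1 hz).2)
    have h2 : ((U.filter fun u' => ∃ t ∈ Tg V γ, t * u' * t⁻¹ = u).card : ℝ) ≤ ix V γ := by
      exact_mod_cast h1
    have h3 : (0 : ℝ) ≤ Nat.card V * Complex.normSq (vv M b d u χ) :=
      mul_nonneg (Nat.cast_nonneg _) (Complex.normSq_nonneg _)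
    push_cast
    nlinarith [mul_le_mul_of_nonneg_right h2 h3]

end main

end Pool.Agent.PP.T8.H99
end
end -- Pool.Agent.Helper99_AT8.SBS

section -- Pool.Agent.Helper33_ASO.Lin

/-!
# Linear characters of an elementary abelian group of order `ℓ ^ 2`, transforms on cyclic groups
-/

namespace Pool.Agent.PP.SO.H33

open scoped BigOperators

/-- a linear character -/
def Ln {V₀ : Type} [CommGroup V₀] (f : V₀ → ℂ) : Prop := f 1 = 1 ∧ ∀ v w, f (v * w) = f v * f w

section lin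

variable {V₀ : Type} [CommGroup V₀] {f f' : V₀ → ℂ}

theorem Ln.inv_mul (h : Ln f) (v : V₀) : f v⁻¹ * f v = 1 := by
  rw [← h.2, inv_mul_cancel, h.1]

theorem Ln.pow (h : Ln f) (v : V₀) (n : ℕ) : f (v ^ n) = f v ^ n := by
  induction n with
  | zero => simp [h.1]
  | succ n ih => rw [pow_succ, pow_succ, h.2, ih]

theorem Ln.ne (h : Ln f) (v : V₀) : f v ≠ 0 := by
  intro h0
  have := h.inv_mul v
  rw [h0, mul_zero] at this
  exact zero_ne_one this

theorem Ln.norm [Finite V₀] (h : Ln f) (v : V₀) : ‖f v‖ = 1 := by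
  have h1 : f v ^ Nat.card V₀ = 1 := by
    rw [← h.pow, pow_card_eq_one', h.1]
  exact Complex.norm_eq_one_of_pow_eq_one h1 Nat.card_pos.ne'

theorem Ln.star [Finite V₀] (h : Ln f) (v : V₀) : starRingEnd ℂ (f v) = f v⁻¹ := by
  have h1 : starRingEnd ℂ (f v) * f v = 1 := by
    rw [mul_comm, Complex.mul_conj, Complex.normSq_eq_norm_sq, h.norm]
    simp
  have h2 := h.inv_mul v
  exact mul_right_cancel₀ (h.ne v) (h1.trans h2.symm)

/-- orthogonality -/
theorem Ln.orth [Fintype V₀] (h : Ln f) (h' : Ln f') (hne : f ≠ f') :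
    ∑ x, f x⁻¹ * f' x = 0 := by
  obtain ⟨y, hy⟩ := Function.ne_iff.1 hne
  have h1 : ∑ x, f x⁻¹ * f' x = f y⁻¹ * f' y * ∑ x, f x⁻¹ * f' x := by
    rw [Finset.mul_sum, ← Equiv.sum_comp (Equiv.mulLeft y) (fun x => f x⁻¹ * f' x)]
    refine Finset.sum_congr rfl fun x _ => ?_
    show f (y * x)⁻¹ * f' (y * x) = _
    rw [mul_inv_rev, h.2, h'.2]
    ring
  have h2 : f y⁻¹ * f' y ≠ 1 := by
    intro h3
    apply hy
    have h4 : f y⁻¹ * f' y = f y⁻¹ * f y := by rw [h3, h.inv_mul]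
    exact (mul_left_cancel₀ (h.ne _) h4).symm
  have h3 : (f y⁻¹ * f' y - 1) * ∑ x, f x⁻¹ * f' x = 0 := by
    rw [sub_mul, ← h1, one_mul, sub_self]
  rcases mul_eq_zero.1 h3 with h4 | h4
  · exact absurd (sub_eq_zero.1 h4) h2
  · exact h4

theorem Ln.orth_self [Fintype V₀] (h : Ln f) : ∑ x, f x⁻¹ * f x = Fintype.card V₀ := by
  simp [h.inv_mul]

/-- a family of `|V₀|` linear characters with the right sums is the family of all the linear
characters -/
theorem bij_of_sum [Fintype V₀] {X : Type*} {B : Set X} (hB : B.Finite)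
    (hc : B.ncard = Fintype.card V₀) (μ : X → V₀ → ℂ) (hμ : ∀ χ ∈ B, Ln (μ χ))
    (hs : ∀ x : V₀, x ≠ 1 → ∑ χ ∈ hB.toFinset, μ χ x = 0) :
    Set.BijOn μ B {f | Ln f} := by
  classical
  have hcard : hB.toFinset.card = Fintype.card V₀ := by
    rw [← hc, Set.ncard_eq_toFinset_card _ hB]
  have key : ∀ f : V₀ → ℂ, Ln f → (hB.toFinset.filter fun χ => μ χ = f).card = 1 := by
    intro f hf
    have h1 : ∑ x, f x⁻¹ * ∑ χ ∈ hB.toFinset, μ χ x = Fintype.card V₀ := by
      rw [Finset.sum_eq_single (1 : V₀)]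
      · rw [inv_one, hf.1, one_mul, Finset.sum_congr rfl (g := fun _ => (1 : ℂ))]
        · simp [hcard]
        · intro χ hχ
          exact (hμ χ (hB.mem_toFinset.1 hχ)).1
      · intro x _ hx
        rw [hs x hx, mul_zero]
      · intro h
        exact absurd (Finset.mem_univ _) h
    have h2 : ∑ x, f x⁻¹ * ∑ χ ∈ hB.toFinset, μ χ x =
        ∑ χ ∈ hB.toFinset, if μ χ = f then (Fintype.card V₀ : ℂ) else 0 := by
      simp_rw [Finset.mul_sum]
      rw [Finset.sum_comm]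
      refine Finset.sum_congr rfl fun χ hχ => ?_
      have h3 := hμ χ (hB.mem_toFinset.1 hχ)
      split_ifs with h4
      · rw [h4]
        exact hf.orth_self
      · exact hf.orth h3 (Ne.symm h4)
    rw [h2, ← Finset.sum_filter, Finset.sum_const, nsmul_eq_mul] at h1
    have h3 : (Fintype.card V₀ : ℂ) ≠ 0 := by exact_mod_cast Fintype.card_ne_zero
    have h4 : ((hB.toFinset.filter fun χ => μ χ = f).card : ℂ) = 1 := by
      have h5 : ((hB.toFinset.filter fun χ => μ χ = f).card : ℂ) * Fintype.card V₀ =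
          1 * Fintype.card V₀ := by rw [h1, one_mul]
      exact mul_right_cancel₀ h3 h5
    exact_mod_cast h4
  refine ⟨fun χ hχ => hμ χ hχ, ?_, ?_⟩
  · intro χ hχ χ' hχ' h
    have h1 := key (μ χ) (hμ χ hχ)
    rw [Finset.card_eq_one] at h1
    obtain ⟨a, ha⟩ := h1
    have h2 : χ ∈ hB.toFinset.filter fun χ₁ => μ χ₁ = μ χ := by
      rw [Finset.mem_filter]
      exact ⟨hB.mem_toFinset.2 hχ, rfl⟩
    have h3 : χ' ∈ hB.toFinset.filter fun χ₁ => μ χ₁ = μ χ := by
      rw [Finset.mem_filter]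
      exact ⟨hB.mem_toFinset.2 hχ', h.symm⟩
    rw [ha, Finset.mem_singleton] at h2 h3
    rw [h2, h3]
  · intro f hf
    have h1 := key f hf
    obtain ⟨χ, hχ⟩ := Finset.card_pos.1 (by rw [h1]; exact one_pos)
    rw [Finset.mem_filter] at hχ
    exact ⟨χ, hB.mem_toFinset.1 hχ.1, hχ.2⟩

end lin

/-! ### Subgroups of a group of order `ℓ ^ 2` -/

section sub

variable {V₀ : Type} [CommGroup V₀] {ℓ : ℕ} [hℓ : Fact ℓ.Prime]

theorem sup_top (hc : Nat.card V₀ = ℓ ^ 2) {W : Subgroup V₀} (hW : W ≠ ⊥) {x : V₀}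
    (hx : x ∉ W) : W ⊔ Subgroup.zpowers x = ⊤ := by
  have hfin : Finite V₀ := Nat.finite_of_card_ne_zero (by
    rw [hc]
    exact pow_ne_zero _ hℓ.out.ne_zero)
  apply Subgroup.eq_top_of_card_eq
  rw [hc]
  have h1 : Nat.card W ∣ ℓ ^ 2 := hc ▸ Subgroup.card_subgroup_dvd_card W
  have h2 : Nat.card (W ⊔ Subgroup.zpowers x : Subgroup V₀) ∣ ℓ ^ 2 :=
    hc ▸ Subgroup.card_subgroup_dvd_card _
  obtain ⟨a, ha, ha2⟩ := (Nat.dvd_prime_pow hℓ.out).1 h1
  obtain ⟨b, hb, hb2⟩ := (Nat.dvd_prime_pow hℓ.out).1 h2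
  have h3 : Nat.card W ≠ 1 := fun h => hW (Subgroup.card_eq_one.1 h)
  have h4 : a ≠ 0 := fun h => h3 (by rw [ha2, h, pow_zero])
  have h5 : W < W ⊔ Subgroup.zpowers x := by
    refine lt_of_le_of_ne le_sup_left fun h => hx ?_
    rw [h]
    exact (le_sup_right : Subgroup.zpowers x ≤ W ⊔ Subgroup.zpowers x)
      (Subgroup.mem_zpowers x)
  have h6 : Nat.card W < Nat.card (W ⊔ Subgroup.zpowers x : Subgroup V₀) := by
    by_contra h
    push Not at h
    exact h5.ne (Subgroup.eq_of_le_of_card_ge h5.le h)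
  rw [ha2, hb2] at h6
  have h7 := (Nat.pow_lt_pow_iff_right hℓ.out.one_lt).1 h6
  have h8 : b = 2 := by omega
  rw [hb2, h8]

/-- decomposition -/
theorem decomp (hex : ∀ v : V₀, v ^ ℓ = 1) (hc : Nat.card V₀ = ℓ ^ 2) {W : Subgroup V₀}
    (hW : W ≠ ⊥) {x : V₀} (hx : x ∉ W) (v : V₀) : ∃ (j : ℕ) (w : V₀), w ∈ W ∧ v = x ^ j * w := by
  have h1 : v ∈ W ⊔ Subgroup.zpowers x := by rw [sup_top hc hW hx]; trivial
  obtain ⟨w, hw, y, hy, rfl⟩ := Subgroup.mem_sup.1 h1
  obtain ⟨n, rfl⟩ := Subgroup.mem_zpowers_iff.1 hy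
  obtain ⟨m, hm⟩ : ∃ m : ℕ, x ^ n = x ^ m := by
    refine ⟨(n % ℓ).toNat, ?_⟩
    have h3 : (ℓ : ℤ) ≠ 0 := by exact_mod_cast hℓ.out.ne_zero
    rw [← zpow_natCast, Int.toNat_of_nonneg (Int.emod_nonneg n h3)]
    conv_lhs => rw [← Int.emod_add_mul_ediv n ℓ, zpow_add, zpow_mul, zpow_natCast, hex, one_zpow,
      mul_one]
  exact ⟨m, w, hw, by rw [hm, mul_comm]⟩

theorem pow_notMem (hex : ∀ v : V₀, v ^ ℓ = 1) {W : Subgroup V₀} {x : V₀} (hx : x ∉ W) {j : ℕ}
    (hj : ¬ ℓ ∣ j) : x ^ j ∉ W := by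
  intro h
  apply hx
  have h1 : orderOf x ∣ ℓ := orderOf_dvd_of_pow_eq_one (hex x)
  have h2 : j.Coprime (orderOf x) := by
    refine Nat.Coprime.coprime_dvd_right h1 ?_
    exact ((Nat.Prime.coprime_iff_not_dvd hℓ.out).2 hj).symm
  obtain ⟨m, hm⟩ := exists_pow_eq_self_of_coprime h2
  rw [← hm]
  exact W.pow_mem h m

omit hℓ in
theorem pow_dvd (hex : ∀ v : V₀, v ^ ℓ = 1) (x : V₀) {j : ℕ} (hj : ℓ ∣ j) : x ^ j = 1 := by
  obtain ⟨k, rfl⟩ := hj
  rw [pow_mul, hex, one_pow]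

/-- a function given by a character of `W` and a root of unity is a linear character -/
theorem ln_of (hex : ∀ v : V₀, v ^ ℓ = 1) (hc : Nat.card V₀ = ℓ ^ 2) {W : Subgroup V₀}
    (hW : W ≠ ⊥) {x : V₀} (hx : x ∉ W) {f ν : V₀ → ℂ} {η : ℂ}
    (hν : ∀ w ∈ W, ∀ w' ∈ W, ν (w * w') = ν w * ν w') (hν1 : ν 1 = 1)
    (hf : ∀ j : ℕ, ∀ w ∈ W, f (x ^ j * w) = ν w * η ^ j) : Ln f := by
  refine ⟨?_, ?_⟩
  · have := hf 0 1 W.one_mem
    rw [pow_zero, mul_one, hν1, pow_zero, mul_one] at this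
    exact this
  · intro v v'
    obtain ⟨j, w, hw, rfl⟩ := decomp hex hc hW hx v
    obtain ⟨j', w', hw', rfl⟩ := decomp hex hc hW hx v'
    have e1 : x ^ j * w * (x ^ j' * w') = x ^ (j + j') * (w * w') := by
      rw [pow_add]
      simp only [mul_assoc, mul_left_comm, mul_comm]
    rw [e1, hf _ _ (W.mul_mem hw hw'), hf _ _ hw, hf _ _ hw', hν w hw w' hw', pow_add]
    ring

end sub

/-! ### Transforms -/

section dft

variable {ℓ : ℕ} [hℓ : Fact ℓ.Prime] {ζ : ℂ}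

omit hℓ in
theorem geom_zero (hζ : IsPrimitiveRoot ζ ℓ) {i : ℕ} (hi : ¬ ℓ ∣ i) :
    ∑ j ∈ Finset.range ℓ, ζ ^ (i * j) = 0 := by
  have h1 : ζ ^ i ≠ 1 := fun h => hi ((hζ.pow_eq_one_iff_dvd i).1 h)
  have h2 : (ζ ^ i) ^ ℓ = 1 := by
    rw [← pow_mul, mul_comm, pow_mul, hζ.pow_eq_one, one_pow]
  have h3 := geom_sum_eq h1 ℓ
  rw [h2, sub_self, zero_div] at h3
  simpa [pow_mul] using h3

/-- a function on the cyclic group whose transform vanishes off `0` -/
theorem sum_of_zero (hζ : IsPrimitiveRoot ζ ℓ) (m : ℕ → ℤ)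
    (h : ∀ j : ℕ, ¬ ℓ ∣ j → ∑ i ∈ Finset.range ℓ, (m i : ℂ) * ζ ^ (i * j) = 0) :
    ∑ i ∈ Finset.range ℓ, m i = ℓ * m 0 := by
  have hpos := hℓ.out.pos
  have h1 : ∑ j ∈ Finset.range ℓ, ∑ i ∈ Finset.range ℓ, (m i : ℂ) * ζ ^ (i * j) =
      ℓ * m 0 := by
    rw [Finset.sum_comm, Finset.sum_eq_single 0]
    · simp
    · intro i hi hi0
      rw [← Finset.mul_sum, geom_zero hζ, mul_zero]
      intro hd
      have := Nat.le_of_dvd (Nat.pos_of_ne_zero hi0) hd
      exact absurd (Finset.mem_range.1 hi) (not_lt.2 this)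
    · intro h0
      exact absurd (Finset.mem_range.2 hpos) h0
  have h2 : ∑ j ∈ Finset.range ℓ, ∑ i ∈ Finset.range ℓ, (m i : ℂ) * ζ ^ (i * j) =
      ∑ i ∈ Finset.range ℓ, (m i : ℂ) := by
    rw [Finset.sum_eq_single 0]
    · simp
    · intro j hj hj0
      apply h
      intro hd
      have := Nat.le_of_dvd (Nat.pos_of_ne_zero hj0) hd
      exact absurd (Finset.mem_range.1 hj) (not_lt.2 this)
    · intro h0
      exact absurd (Finset.mem_range.2 hpos) h0
  rw [h2] at h1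
  exact_mod_cast h1

omit hℓ in
/-- the values of the transform of a constant plus a delta function -/
theorem val_of_delta (hζ : IsPrimitiveRoot ζ ℓ) (m : ℕ → ℤ) (j₀ : Fin ℓ) (ε m₀ : ℤ)
    (h : ∀ k : Fin ℓ, m k = m₀ + if k = j₀ then ε else 0) :
    (∀ j : ℕ, ¬ ℓ ∣ j → ∑ i ∈ Finset.range ℓ, (m i : ℂ) * ζ ^ (i * j) =
      ε * (ζ ^ (j₀ : ℕ)) ^ j) ∧ ∑ i ∈ Finset.range ℓ, m i = ℓ * m₀ + ε := by
  have h1 : ∀ i ∈ Finset.range ℓ, m i = m₀ + if i = (j₀ : ℕ) then ε else 0 := by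
    intro i hi
    have h2 := h ⟨i, Finset.mem_range.1 hi⟩
    simp only [Fin.ext_iff] at h2
    exact h2
  refine ⟨?_, ?_⟩
  · intro j hj
    have h3 : ∀ i ∈ Finset.range ℓ, (m i : ℂ) * ζ ^ (i * j) =
        m₀ * ζ ^ (j * i) + if i = (j₀ : ℕ) then (ε : ℂ) * ζ ^ (i * j) else 0 := by
      intro i hi
      rw [h1 i hi, mul_comm j i]
      split_ifs <;> push_cast <;> ring
    rw [Finset.sum_congr rfl h3, Finset.sum_add_distrib, ← Finset.mul_sum, geom_zero hζ hj,
      mul_zero, zero_add, Finset.sum_ite_eq', if_pos (Finset.mem_range.2 j₀.2), ← pow_mul]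
  · rw [Finset.sum_congr rfl h1, Finset.sum_add_distrib, Finset.sum_ite_eq',
      if_pos (Finset.mem_range.2 j₀.2)]
    simp

end dft

end Pool.Agent.PP.SO.H33
end -- Pool.Agent.Helper33_ASO.Lin

section -- Pool.Agent.Helper33_ASO.Abs

/-!
# Character values in a local block: the group `H = C(i W)`
-/

open scoped BigOperators

noncomputable section

namespace Pool.Agent.PP.SO.H33

open Pool.Agent.Helper51_AWC Pool.Agent.Helper79_WRA Pool.Agent.PP Pool.Agent.PP.KF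
open Pool.Agent.PP.K9 Pool.Agent.PP.K9.H97 Pool.Agent.PP.H75 Pool.Agent.PP.T3

attribute [local instance] Ideal.Quotient.field

section gen

variable {M : Ideal (integralClosure ℤ ℂ)} [M.IsMaximal] {H : Type} [Group H] [Finite H]

/-- the lift of the idempotent `g` of `C`, as a function on the group -/
def EG (M : Ideal (integralClosure ℤ ℂ)) [M.IsMaximal] (C : Subgroup H) (g : H → FF M) : H → ℂ :=
  PP.ext0 C (eh M (fun t : C => g t))

omit [Finite H] in
theorem EG_mem (C : Subgroup H) (g : H → FF M) {s : H} (hs : s ∈ C) :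
    EG M C g s = eh M (fun t : C => g t) ⟨s, hs⟩ := by
  unfold EG PP.ext0
  rw [dif_pos hs]

omit [Finite H] in
theorem EG_not (C : Subgroup H) (g : H → FF M) {s : H} (hs : s ∉ C) : EG M C g s = 0 := by
  unfold EG PP.ext0
  rw [dif_neg hs]

/-- `gv` as a sum over the group -/
theorem gv_sum [Fintype H] {X C : Subgroup H} (hXC : X = C) (w : H) (g : H → FF M)
    (χ : H → ℂ) : gv M X w g χ = ∑ s : H, EG M C g s * χ (w * s) := by
  subst hXC
  unfold gv gbv
  rw [← finsum_eq_sum_of_fintype,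
    H75.sum_sub X (fun s => EG M X g s * χ (w * s)) (fun x hx => by rw [EG_not X g hx, zero_mul])]
  refine finsum_congr fun s => ?_
  rw [EG_mem X g s.2]

/-- central translations -/
theorem sum_cent_mul [Fintype H] (E : H → ℂ) {χ : H → ℂ} (hχ : χ ∈ Irr H) {z : H}
    (hz : z ∈ Subgroup.center H) (w : H) :
    ∑ s : H, E s * χ (w * z * s) = χ z / χ 1 * ∑ s : H, E s * χ (w * s) := by
  rw [Finset.mul_sum]
  refine Finset.sum_congr rfl fun s _ => ?_
  have e1 : w * z * s = z * (w * s) := by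
    rw [Subgroup.mem_center_iff.1 hz w, mul_assoc]
  rw [e1, KF.H32.central_mul hχ hz]
  ring

omit [Finite H] in
theorem cu_pow {ℓ : ℕ} [hℓ : Fact ℓ.Prime] {x : H} (hx : x ^ ℓ = 1) {j : ℕ} (hj : ¬ ℓ ∣ j) :
    Cu (x ^ j) = Cu x := by
  have h1 : orderOf x ∣ ℓ := orderOf_dvd_of_pow_eq_one hx
  have h2 : j.Coprime (orderOf x) := by
    refine Nat.Coprime.coprime_dvd_right h1 ?_
    exact ((Nat.Prime.coprime_iff_not_dvd hℓ.out).2 hj).symm
  obtain ⟨m, hm⟩ := exists_pow_eq_self_of_coprime h2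
  ext y
  rw [Subgroup.mem_centralizer_singleton_iff, Subgroup.mem_centralizer_singleton_iff]
  constructor
  · intro h
    rw [← hm]
    exact (show Commute y (x ^ j) from h).pow_right m
  · intro h
    exact (show Commute y x from h).pow_right j

/-- the local block of an element `y` of `V` with `C(y) = C(V)` is `g` -/
theorem lc_of {ℓ : ℕ} {b : H → FF M} {V : Subgroup H} {g : H → FF M} (hL : Ld ℓ b V g) {y : H}
    (hCy : Cu y = Subgroup.centralizer (V : Set H)) : Lc b V g y g := by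
  have h1 : ∀ X : Subgroup H, X = Subgroup.centralizer (V : Set H) →
      Bx X g ∧ mulF (fun t : X => b t) (fun t : X => g t) = fun t : X => g t := by
    rintro X rfl
    refine ⟨hL.gam, ?_⟩
    have h2 := mulF_res (Subgroup.centralizer (V : Set H)) (a := br V b) g
      (fun x hx => H66.br_of_not_mem hx)
    rw [hL.und] at h2
    have h3 : (fun t : Subgroup.centralizer (V : Set H) => br V b t) =
        fun t : Subgroup.centralizer (V : Set H) => b t := by
      funext t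
      exact H66.br_of_mem t.2
    rw [h3] at h2
    exact h2.symm
  obtain ⟨h2, h3⟩ := h1 _ hCy
  refine ⟨h2, h3, ?_⟩
  have h4 : br V g = g := by
    funext x
    by_cases hx : x ∈ Subgroup.centralizer (V : Set H)
    · exact H66.br_of_mem hx
    · rw [H66.br_of_not_mem hx, hL.gam.supp x hx]
  rw [h4]
  exact hL.gam.mul

/-- degree along an equality of subgroups -/
theorem dg_eq {X Y : Subgroup H} (hXY : X = Y) {g : H → FF M} {c : ℕ}
    (h : Dg M (fun t : Y => g t) c) : Dg M (fun t : X => g t) c := by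
  subst hXY
  exact h

end gen

section vals

variable {ℓ : ℕ} [hℓ : Fact ℓ.Prime] {M : Ideal (integralClosure ℤ ℂ)} [M.IsMaximal]
  (hM : (ℓ : integralClosure ℤ ℂ) ∈ M) {H : Type} [Group H] [Finite H]

include hM in
/-- signs with the same residue are equal -/
theorem sign_eq (h2 : ℓ ≠ 2) {ε S : ℤ} (hε : ε = 1 ∨ ε = -1) (hS : S = 1 ∨ S = -1)
    (h : (ε : FF M) = (S : FF M)) : ε = S := by
  have hch : CharP (FF M) ℓ := (H50.fld ℓ Fact.out M hM).char
  have h3 : ¬ ((ℓ : ℤ) ∣ 2) := by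
    intro hd
    have h4 : ℓ ∣ 2 := by exact_mod_cast hd
    exact h2 ((Nat.prime_dvd_prime_iff_eq hℓ.out Nat.prime_two).1 h4)
  rcases hε with rfl | rfl <;> rcases hS with rfl | rfl
  · rfl
  · exfalso
    apply h3
    rw [← CharP.intCast_eq_zero_iff (FF M) ℓ 2]
    have : ((2 : ℤ) : FF M) = ((1 : ℤ) : FF M) - ((-1 : ℤ) : FF M) := by push_cast; ring
    rw [this, h, sub_self]
  · exfalso
    apply h3
    rw [← CharP.intCast_eq_zero_iff (FF M) ℓ 2]
    have : ((2 : ℤ) : FF M) = ((1 : ℤ) : FF M) - ((-1 : ℤ) : FF M) := by push_cast; ring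
    rw [this, h, sub_self]
  · rfl

include hM in
/-- the values of a character of the block at the products `x ^ j g`, `x` not central -/
theorem vals_in (h2 : ℓ ≠ 2) (hNil : NilStmt) (hInr : InrStmt) (hRsv : RsvStmt)
    (hIso : IsoStmt) {b : H → FF M} {V : Subgroup H} {g : H → FF M} (hL : Ld ℓ b V g)
    (hix : ix V g = 1) {x : H} (hx : x ∈ V) (hxc : x ∉ Subgroup.center H)
    (hCx : Cu x = Subgroup.centralizer (V : Set H)) (hxℓ : x ^ ℓ = 1) {d c : ℕ} (hd : Dg M b d)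
    (hc : Dg M (fun t : Subgroup.centralizer (V : Set H) => g t) c) {S : ℤ}
    (hS : S = 1 ∨ S = -1)
    (hU : (S * Nat.card H * c / (Nat.card (Subgroup.centralizer (V : Set H)) * d) : ℂ) ∈ RM M)
    (hU1 : rr M (S * Nat.card H * c / (Nat.card (Subgroup.centralizer (V : Set H)) * d) : ℂ) = 1)
    {ψ : H → ℂ} (hψ : ψ ∈ IrrE M b) : ∃ (m₀ : ℤ) (η : ℂ), η ^ ℓ = 1 ∧
      (∀ j : ℕ, ¬ ℓ ∣ j → gv M (Cu x) (x ^ j) g ψ = c * (S * η ^ j)) ∧
      gv M (Cu x) 1 g ψ = c * (ℓ * m₀ + S) := by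
  have hTC : Tg V g ≤ Subgroup.centralizer (V : Set H) := Subgroup.relIndex_eq_one.1 hix
  obtain ⟨ζ, hζ⟩ : ∃ ζ : ℂ, IsPrimitiveRoot ζ ℓ := ⟨_, Complex.isPrimitiveRoot_exp _ hℓ.out.ne_zero⟩
  have hc0 : (c : ℂ) ≠ 0 := Nat.cast_ne_zero.2 hc.1.ne'
  have hd0 : (d : ℂ) ≠ 0 := Nat.cast_ne_zero.2 hd.1.ne'
  have hbx : Ix (Cu x) g := (lc_of hL hCx).blk.ix
  obtain ⟨m, hm⟩ := hInr M H x ℓ hℓ.out.pos hxℓ g hbx c (dg_eq hCx hc) ζ hζ ψ hψ.1
  -- the absolute values
  have hn : ∀ j : ℕ, ¬ ℓ ∣ j →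
      Complex.normSq (∑ i ∈ Finset.range ℓ, (m i : ℂ) * ζ ^ (i * j)) = 1 := by
    intro j hj
    have hCj : Cu (x ^ j) = Subgroup.centralizer (V : Set H) := (cu_pow hxℓ hj).trans hCx
    have hxj : x ^ j ∉ Subgroup.center H := by
      intro h
      apply hxc
      rw [Subgroup.mem_center_iff] at h ⊢
      intro y
      have h3 : y ∈ Cu (x ^ j) := Subgroup.mem_centralizer_singleton_iff.2 (h y)
      rw [cu_pow hxℓ hj] at h3
      exact Subgroup.mem_centralizer_singleton_iff.1 h3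
    have h3 := (hNil ℓ M hM H b V g hL hix).2.2 (x ^ j) (V.pow_mem hx j) hxj g (lc_of hL hCj) c
      (dg_eq hCj hc) ψ hψ
    have h4 : gv M (Cu (x ^ j)) (x ^ j) g ψ = gv M (Cu x) (x ^ j) g ψ := by
      have := Fintype.ofFinite H
      rw [gv_sum (cu_pow hxℓ hj), gv_sum rfl]
    rw [h4, hm j, mul_div_cancel_left₀ _ hc0] at h3
    exact h3
  obtain ⟨j₀, ε, m₀, hε, hmk⟩ := hIso ℓ ζ hζ (fun k => m k) (fun j hj => by
    rw [Fin.sum_univ_eq_sum_range (fun k => (m k : ℂ) * ζ ^ (k * j))]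
    exact hn j hj)
  obtain ⟨v1, v2⟩ := val_of_delta hζ m j₀ ε m₀ hmk
  have hη : (ζ ^ (j₀ : ℕ)) ^ ℓ = 1 := by
    rw [← pow_mul, mul_comm, pow_mul, hζ.pow_eq_one, one_pow]
  -- the sign
  have hj1 : ¬ ℓ ∣ 1 := fun h => hℓ.out.one_lt.ne' (Nat.dvd_one.1 h)
  have hval : gv M (Cu x) x g ψ = c * (ε * ζ ^ (j₀ : ℕ)) := by
    have h3 := hm 1
    rw [pow_one, v1 1 hj1, pow_one] at h3
    exact h3
  obtain ⟨-, o⟩ := K9.H19.omg M H x (fun t : Cu x => g t) hbx.idem x (Subgroup.mem_zpowers x)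
  obtain ⟨o1, o2⟩ := o ψ hψ.1
  have o3 := hRsv ℓ M hM H b V g hL x hx g (lc_of hL hCx) ψ hψ
  have o4 : (Cu x).relIndex (Tg V g) = 1 := Subgroup.relIndex_eq_one.2 (by rw [hCx]; exact hTC)
  rw [o4, Nat.cast_one] at o3
  have o5 : gbv (Cu x) x (eh M (fun t : Cu x => g t)) ψ = c * (ε * ζ ^ (j₀ : ℕ)) := hval
  rw [o3, o5, hd.2 ψ hψ] at o2
  rw [o5, hd.2 ψ hψ] at o1
  have hηr := H41.rr_root hM (ζ := ζ ^ (j₀ : ℕ)) (k := 1) (by rw [pow_one]; exact hη)
  have hcard : (Nat.card (Cu x) : ℂ) = Nat.card (Subgroup.centralizer (V : Set H)) := by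
    rw [hCx]
  rw [hcard] at o1 o2
  have hC0 : (Nat.card (Subgroup.centralizer (V : Set H)) : ℂ) ≠ 0 :=
    Nat.cast_ne_zero.2 Nat.card_pos.ne'
  have hSS : (S : ℂ) * S = 1 := by
    rcases hS with h | h <;> rw [h] <;> norm_num
  have key : (Nat.card H * (c * (ε * ζ ^ (j₀ : ℕ))) /
      (Nat.card (Subgroup.centralizer (V : Set H)) * d) : ℂ) =
      ((ε * S : ℤ) : ℂ) * ((S * Nat.card H * c /
        (Nat.card (Subgroup.centralizer (V : Set H)) * d) : ℂ) * ζ ^ (j₀ : ℕ)) := by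
    push_cast
    field_simp
    linear_combination (-(Nat.card H : ℂ) * ε * ζ ^ (j₀ : ℕ)) * hSS
  rw [key, rr_mul (rr_int _).1 ((RM M).mul_mem hU hηr.1), rr_mul hU hηr.1, hU1, hηr.2,
    (rr_int _).2, one_mul, mul_one] at o2
  have hεS : ε = S := by
    refine sign_eq hM h2 hε hS ?_
    have hSS' : (S : FF M) * S = 1 := by
      rcases hS with h | h <;> rw [h] <;> norm_num
    have h5 : ((ε * S : ℤ) : FF M) * S = 1 * S := by rw [o2]
    push_cast at h5
    rw [mul_assoc, hSS', mul_one, one_mul] at h5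
    exact h5
  refine ⟨m₀, ζ ^ (j₀ : ℕ), hη, ?_, ?_⟩
  · intro j hj
    rw [hm j, v1 j hj, hεS]
  · have h3 := hm 0
    rw [pow_zero] at h3
    rw [h3]
    congr 1
    simp only [mul_zero, pow_zero, mul_one]
    have h4 : ((∑ i ∈ Finset.range ℓ, m i : ℤ) : ℂ) = ((ℓ * m₀ + ε : ℤ) : ℂ) := by rw [v2]
    rw [hεS] at h4
    push_cast at h4
    exact h4

include hM in
/-- the values of the characters outside of the block -/
theorem vals_out (hInr : InrStmt) (hSmg : SmgStmt) {b : H → FF M} {V : Subgroup H}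
    {g : H → FF M} (hL : Ld ℓ b V g) {x : H} (hx1 : x ≠ 1)
    (hCx : Cu x = Subgroup.centralizer (V : Set H)) (hxℓ : x ^ ℓ = 1) {c : ℕ}
    (hc : Dg M (fun t : Subgroup.centralizer (V : Set H) => g t) c) {ψ : H → ℂ}
    (hψ : ψ ∈ Irr H) (hψb : ψ ∉ IrrE M b) :
    (∀ j : ℕ, ¬ ℓ ∣ j → gv M (Cu x) (x ^ j) g ψ = 0) ∧
      ∃ m₀ : ℤ, gv M (Cu x) 1 g ψ = c * (ℓ * m₀) := by
  obtain ⟨ζ, hζ⟩ : ∃ ζ : ℂ, IsPrimitiveRoot ζ ℓ := ⟨_, Complex.isPrimitiveRoot_exp _ hℓ.out.ne_zero⟩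
  have hc0 : (c : ℂ) ≠ 0 := Nat.cast_ne_zero.2 hc.1.ne'
  have hbx : Ix (Cu x) g := (lc_of hL hCx).blk.ix
  obtain ⟨m, hm⟩ := hInr M H x ℓ hℓ.out.pos hxℓ g hbx c (dg_eq hCx hc) ζ hζ ψ hψ
  have hz : ∀ j : ℕ, ¬ ℓ ∣ j → gv M (Cu x) (x ^ j) g ψ = 0 := by
    intro j hj
    have hCj : Cu (x ^ j) = Subgroup.centralizer (V : Set H) := (cu_pow hxℓ hj).trans hCx
    have hxj : x ^ j ≠ 1 := by
      intro h
      apply hx1
      have h3 : orderOf x ∣ ℓ := orderOf_dvd_of_pow_eq_one hxℓ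
      have h4 : orderOf x ∣ j := orderOf_dvd_of_pow_eq_one h
      have h5 : orderOf x ∣ Nat.gcd ℓ j := Nat.dvd_gcd h3 h4
      rw [((Nat.Prime.coprime_iff_not_dvd hℓ.out).2 hj)] at h5
      exact orderOf_eq_one_iff.1 (Nat.dvd_one.1 h5)
    have hel : El ℓ (x ^ j) := ⟨1, by rw [pow_one, ← pow_mul, mul_comm, pow_mul, hxℓ, one_pow]⟩
    have hlc := lc_of hL hCj
    have h3 := (hSmg ℓ M hM H (x ^ j) 1 hxj hel (Subgroup.one_mem _) H25.reg_one
      (fun t : Cu (x ^ j) => g t) hlc.blk.ix.idem b hL.blk.1).1 hlc.und ψ hψ hψb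
    rw [mul_one] at h3
    have h4 : gv M (Cu x) (x ^ j) g ψ = gv M (Cu (x ^ j)) (x ^ j) g ψ := by
      have := Fintype.ofFinite H
      rw [gv_sum (cu_pow hxℓ hj), gv_sum rfl]
    rw [h4]
    exact h3
  refine ⟨hz, m 0, ?_⟩
  have h3 := sum_of_zero hζ m (fun j hj => by
    have h4 := hm j
    rw [hz j hj] at h4
    exact (mul_eq_zero.1 h4.symm).resolve_left hc0)
  have h4 := hm 0
  rw [pow_zero] at h4
  rw [h4]
  congr 1
  simp only [mul_zero, pow_zero, mul_one]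
  have h5 : ((∑ i ∈ Finset.range ℓ, m i : ℤ) : ℂ) = ((ℓ * m 0 : ℤ) : ℂ) := by rw [h3]
  push_cast at h5
  exact h5

end vals

end Pool.Agent.PP.SO.H33
end
end -- Pool.Agent.Helper33_ASO.Abs

section -- Pool.Agent.Helper33_ASO.Mu

/-!
# The linear character of a character of a local block
-/

open scoped BigOperators

noncomputable section

namespace Pool.Agent.PP.SO.H33

open Pool.Agent.Helper51_AWC Pool.Agent.Helper79_WRA Pool.Agent.PP Pool.Agent.PP.KF
open Pool.Agent.PP.K9 Pool.Agent.PP.K9.H97 Pool.Agent.PP.H75 Pool.Agent.PP.T3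

attribute [local instance] Ideal.Quotient.field

/-- the data of a local block in its own group -/
structure HD (ℓ : ℕ) (M : Ideal (integralClosure ℤ ℂ)) [M.IsMaximal] {V₀ H : Type}
    [CommGroup V₀] [Group H] (W : Subgroup V₀) (j : V₀ →* H) (b g : H → FF M) (d c : ℕ)
    (S : ℤ) : Prop where
  ex : ∀ v : V₀, v ^ ℓ = 1
  cd : Nat.card V₀ = ℓ ^ 2
  nb : W ≠ ⊥
  inj : Function.Injective j
  cen : ∀ w ∈ W, j w ∈ Subgroup.center H
  ld : Ld ℓ b j.range g
  ix1 : ix j.range g = 1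
  dd : Dg M b d
  dc : Dg M (fun t : Subgroup.centralizer (j.range : Set H) => g t) c
  sg : S = 1 ∨ S = -1
  un : (S * Nat.card H * c / (Nat.card (Subgroup.centralizer (j.range : Set H)) * d) : ℂ) ∈ RM M
  un1 : rr M (S * Nat.card H * c /
    (Nat.card (Subgroup.centralizer (j.range : Set H)) * d) : ℂ) = 1

section hd

variable {ℓ : ℕ} [hℓ : Fact ℓ.Prime] {M : Ideal (integralClosure ℤ ℂ)} [M.IsMaximal]
  {V₀ H : Type} [CommGroup V₀] [Group H] {W : Subgroup V₀} {j : V₀ →* H} {b g : H → FF M}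
  {d c : ℕ} {S : ℤ}

theorem HD.cu (h : HD ℓ M W j b g d c S) {x : V₀} (hx : x ∉ W) :
    Cu (j x) = Subgroup.centralizer (j.range : Set H) := by
  ext y
  rw [Subgroup.mem_centralizer_singleton_iff, Subgroup.mem_centralizer_iff]
  constructor
  · rintro hy _ ⟨v, rfl⟩
    obtain ⟨k, w, hw, rfl⟩ := decomp h.ex h.cd h.nb hx v
    rw [map_mul, map_pow]
    have h1 : Commute y (j x) := hy
    have h2 : Commute y (j w) := Subgroup.mem_center_iff.1 (h.cen w hw) y
    exact ((h1.pow_right k).mul_right h2).symm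
  · intro hy
    exact (hy (j x) ⟨x, rfl⟩).symm

/-- if one element outside of `W` is central then everything is -/
theorem HD.all_cen (h : HD ℓ M W j b g d c S) {x : V₀} (hx : x ∉ W)
    (hxc : j x ∈ Subgroup.center H) : j.range ≤ Subgroup.center H := by
  rintro _ ⟨v, rfl⟩
  obtain ⟨k, w, hw, rfl⟩ := decomp h.ex h.cd h.nb hx v
  rw [map_mul, map_pow]
  exact Subgroup.mul_mem _ (Subgroup.pow_mem _ hxc k) (h.cen w hw)

theorem HD.pow_j (h : HD ℓ M W j b g d c S) (x : V₀) : j x ^ ℓ = 1 := by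
  rw [← map_pow, h.ex, map_one]

theorem HD.el (h : HD ℓ M W j b g d c S) (x : V₀) : El ℓ (j x) :=
  ⟨1, by rw [pow_one, h.pow_j]⟩

variable [Finite H] (hM : (ℓ : integralClosure ℤ ℂ) ∈ M)

include hM in
/-- the central case -/
theorem HD.central (h : HD ℓ M W j b g d c S) (h2 : ℓ ≠ 2) (hz : j.range ≤ Subgroup.center H) :
    Subgroup.centralizer (j.range : Set H) = ⊤ ∧ b = g ∧ c = d ∧ S = 1 ∧
      EG M (Subgroup.centralizer (j.range : Set H)) g = eh M b := by
  have htop : Subgroup.centralizer (j.range : Set H) = ⊤ := by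
    rw [eq_top_iff]
    intro y _
    rw [Subgroup.mem_centralizer_iff]
    intro v hv
    exact (Subgroup.mem_center_iff.1 (hz hv) y).symm
  obtain ⟨h3, h4⟩ := H41.nit_central M hM H b j.range g h.ld hz d c h.dd h.dc
  have hbrb : br j.range b = b := funext fun x => H66.br_of_mem (by
    rw [htop]
    exact Subgroup.mem_top x)
  have hγb : IsBlk g := by
    have h1 : ∀ C : Subgroup H, C = ⊤ → IsBlk (fun t : C => g t) → IsBlk g := by
      rintro _ rfl h
      exact H9.blk_tr Subgroup.topEquiv.symm h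
    exact h1 _ htop h.ld.gam.blk
  have hmul : mulF b g = g := by
    have h1 := h.ld.und
    rwa [hbrb] at h1
  have hbγ : b = g := H17.blk_eq h.ld.blk hγb (by
    rw [hmul]
    exact hγb.2.1)
  have hS : S = 1 := by
    refine sign_eq hM h2 h.sg (Or.inl rfl) ?_
    have h5 := h.un1
    have hd0 : (d : ℂ) ≠ 0 := Nat.cast_ne_zero.2 h.dd.1.ne'
    have hH0 : (Nat.card H : ℂ) ≠ 0 := Nat.cast_ne_zero.2 Nat.card_pos.ne'
    have e1 : (S * Nat.card H * c /
        (Nat.card (Subgroup.centralizer (j.range : Set H)) * d) : ℂ) = (S : ℂ) := by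
      rw [h3, h4]
      field_simp
    rw [e1, (rr_int S).2] at h5
    rw [h5, Int.cast_one]
  refine ⟨htop, hbγ, h4, hS, ?_⟩
  have h6 : ∀ C : Subgroup H, C = ⊤ → EG M C g = eh M g := by
    rintro _ rfl
    funext s
    rw [EG_mem ⊤ g (Subgroup.mem_top s)]
    have h7 := T3.H62.eh_equiv (M := M) (Subgroup.topEquiv : (⊤ : Subgroup H) ≃* H)
      (b := fun t : (⊤ : Subgroup H) => g t) (fun x y => hγb.1.1 x y) ⟨s, Subgroup.mem_top s⟩
    rw [← h7]
    rfl
  rw [h6 _ htop, hbγ]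

variable [Fintype H]

include hM in
/-- the linear character -/
theorem HD.mu (h : HD ℓ M W j b g d c S) (h2 : ℓ ≠ 2) (hNil : NilStmt) (hInr : InrStmt)
    (hRsv : RsvStmt) (hIso : IsoStmt) {ψ : H → ℂ} (hψ : ψ ∈ IrrE M b) :
    ∃ μ : V₀ → ℂ, Ln μ ∧ (∀ x ∈ W, ψ (j x) = ψ 1 * μ x) ∧
      (∀ x, x ∉ W → ∑ s : H, EG M (Subgroup.centralizer (j.range : Set H)) g s * ψ (j x * s) =
        c * (S * μ x)) ∧
      ∃ m₀ : ℤ, (∑ s : H, EG M (Subgroup.centralizer (j.range : Set H)) g s * ψ s =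
        c * (ℓ * m₀ + S)) ∨ (Subgroup.centralizer (j.range : Set H) = ⊤ ∧
        ∑ s : H, EG M (Subgroup.centralizer (j.range : Set H)) g s * ψ s = c) := by
  classical
  have hψ1 : ψ 1 ≠ 0 := irr_one_ne hψ.1
  have hνm : ∀ w ∈ W, ∀ w' ∈ W, ψ (j (w * w')) / ψ 1 = ψ (j w) / ψ 1 * (ψ (j w') / ψ 1) := by
    intro w hw w' _
    rw [map_mul, KF.H32.central_mul hψ.1 (h.cen w hw)]
    field_simp
  by_cases hz : j.range ≤ Subgroup.center H
  · obtain ⟨c1, c2, c3, c4, c5⟩ := h.central hM h2 hz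
    refine ⟨fun x => ψ (j x) / ψ 1, ⟨?_, ?_⟩, ?_, ?_, 0, Or.inr ⟨c1, ?_⟩⟩
    · simp only [map_one]
      exact div_self hψ1
    · intro v w
      simp only [map_mul]
      rw [KF.H32.central_mul hψ.1 (hz ⟨v, rfl⟩)]
      field_simp
    · intro x _
      field_simp
    · intro x _
      have e1 := sum_cent_mul (EG M (Subgroup.centralizer (j.range : Set H)) g) hψ.1
        (hz ⟨x, rfl⟩) 1
      simp only [one_mul] at e1
      rw [e1, c5, H25.eh_chv M b hψ.1, if_pos hψ, h.dd.2 ψ hψ, c3, c4]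
      push_cast
      ring
    · rw [c5, H25.eh_chv M b hψ.1, if_pos hψ, h.dd.2 ψ hψ, c3]
  · -- the case of a noncentral `V`
    have hWne : ∃ x₀, x₀ ∉ W := by
      by_contra hcon
      push Not at hcon
      apply hz
      rintro _ ⟨v, rfl⟩
      exact h.cen v (hcon v)
    obtain ⟨x₀, hx₀⟩ := hWne
    have hx₀c : j x₀ ∉ Subgroup.center H := fun h' => hz (h.all_cen hx₀ h')
    obtain ⟨m₀, η, hη, hv, hv0⟩ := vals_in hM h2 hNil hInr hRsv hIso h.ld h.ix1 ⟨x₀, rfl⟩ hx₀c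
      (h.cu hx₀) (h.pow_j x₀) h.dd h.dc h.sg h.un h.un1 hψ
    have hc0 : (c : ℂ) ≠ 0 := Nat.cast_ne_zero.2 h.dc.1.ne'
    have hS0 : (S : ℂ) ≠ 0 := by
      rcases h.sg with h' | h' <;> rw [h'] <;> norm_num
    obtain ⟨μ, hμ⟩ : ∃ μ : V₀ → ℂ, μ = fun v => if v ∈ W then ψ (j v) / ψ 1 else
      (∑ s : H, EG M (Subgroup.centralizer (j.range : Set H)) g s * ψ (j v * s)) / (c * S) :=
      ⟨_, rfl⟩
    have key : ∀ k : ℕ, ∀ w ∈ W, μ (x₀ ^ k * w) = ψ (j w) / ψ 1 * η ^ k := by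
      intro k w hw
      by_cases hk : ℓ ∣ k
      · have e1 : x₀ ^ k = 1 := pow_dvd h.ex x₀ hk
        have e2 : η ^ k = 1 := by
          obtain ⟨n, rfl⟩ := hk
          rw [pow_mul, hη, one_pow]
        rw [e1, e2, one_mul, mul_one, hμ]
        simp only
        rw [if_pos hw]
      · have e1 : x₀ ^ k ∉ W := pow_notMem h.ex hx₀ hk
        have e2 : x₀ ^ k * w ∉ W := fun h' => e1 ((Subgroup.mul_mem_cancel_right W hw).1 h')
        rw [hμ]
        simp only
        rw [if_neg e2, map_mul, map_pow,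
          sum_cent_mul (EG M (Subgroup.centralizer (j.range : Set H)) g) hψ.1 (h.cen w hw)
            (j x₀ ^ k), ← gv_sum (h.cu hx₀), hv k hk]
        field_simp
    refine ⟨μ, ln_of h.ex h.cd h.nb hx₀ (ν := fun w => ψ (j w) / ψ 1) hνm
      (by simp only [map_one]; exact div_self hψ1) key, ?_, ?_, m₀, Or.inl ?_⟩
    · intro x hx
      rw [hμ]
      simp only
      rw [if_pos hx]
      field_simp
    · intro x hx
      rw [hμ]
      simp only
      rw [if_neg hx]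
      field_simp
    · rw [← hv0, gv_sum (h.cu hx₀)]
      simp only [one_mul]

include hM in
/-- the characters outside of the block -/
theorem HD.out (h : HD ℓ M W j b g d c S) (h2 : ℓ ≠ 2) (hInr : InrStmt) (hSmg : SmgStmt)
    {ψ : H → ℂ} (hψ : ψ ∈ Irr H) (hψb : ψ ∉ IrrE M b) :
    (∀ x, x ∉ W → ∑ s : H, EG M (Subgroup.centralizer (j.range : Set H)) g s * ψ (j x * s) = 0) ∧
      ∃ m₀ : ℤ, ∑ s : H, EG M (Subgroup.centralizer (j.range : Set H)) g s * ψ s =
        c * (ℓ * m₀) := by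
  classical
  by_cases hz : j.range ≤ Subgroup.center H
  · obtain ⟨c1, c2, c3, c4, c5⟩ := h.central hM h2 hz
    refine ⟨fun x _ => ?_, 0, ?_⟩
    · have e1 := sum_cent_mul (EG M (Subgroup.centralizer (j.range : Set H)) g) hψ
        (hz ⟨x, rfl⟩) 1
      simp only [one_mul] at e1
      rw [e1, c5, H25.eh_chv M b hψ, if_neg hψb, mul_zero]
    · rw [c5, H25.eh_chv M b hψ, if_neg hψb]
      simp
  · have hWne : ∃ x₀, x₀ ∉ W := by
      by_contra hcon
      push Not at hcon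
      apply hz
      rintro _ ⟨v, rfl⟩
      exact h.cen v (hcon v)
    obtain ⟨x₀, hx₀⟩ := hWne
    have hne : ∀ x : V₀, x ∉ W → j x ≠ 1 := by
      intro x hx h'
      apply hx
      have : x = 1 := h.inj (by rw [h', map_one])
      rw [this]
      exact W.one_mem
    have hj1 : ¬ ℓ ∣ 1 := fun h => hℓ.out.one_lt.ne' (Nat.dvd_one.1 h)
    refine ⟨fun x hx => ?_, ?_⟩
    · have h3 := (vals_out hM hInr hSmg h.ld (hne x hx) (h.cu hx) (h.pow_j x) h.dc hψ hψb).1 1 hj1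
      rw [pow_one, gv_sum (h.cu hx)] at h3
      exact h3
    · obtain ⟨m₀, h3⟩ := (vals_out hM hInr hSmg h.ld (hne x₀ hx₀) (h.cu hx₀) (h.pow_j x₀) h.dc
        hψ hψb).2
      rw [gv_sum (h.cu hx₀)] at h3
      simp only [one_mul] at h3
      exact ⟨m₀, h3⟩

include hM in
/-- the sums of the linear characters -/
theorem HD.sums (h : HD ℓ M W j b g d c S) (μ : (H → ℂ) → V₀ → ℂ)
    (hW : ∀ ψ ∈ IrrE M b, ∀ x ∈ W, ψ (j x) = ψ 1 * μ ψ x)
    (hO : ∀ ψ ∈ IrrE M b, ∀ x, x ∉ W →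
      ∑ s : H, EG M (Subgroup.centralizer (j.range : Set H)) g s * ψ (j x * s) =
        c * (S * μ ψ x)) {x : V₀} (hx : x ≠ 1) :
    ∑ ψ ∈ (H25.irrE_finite M b).toFinset, μ ψ x = 0 := by
  classical
  have hd0 : (d : ℂ) ≠ 0 := Nat.cast_ne_zero.2 h.dd.1.ne'
  have hc0 : (c : ℂ) ≠ 0 := Nat.cast_ne_zero.2 h.dc.1.ne'
  have hS0 : (S : ℂ) ≠ 0 := by
    rcases h.sg with h' | h' <;> rw [h'] <;> norm_num
  have hjx : j x ≠ 1 := fun h' => hx (h.inj (by rw [h', map_one]))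
  have hpr : ∀ y : H, ¬ Reg ℓ y → ∑ ψ ∈ (H25.irrE_finite M b).toFinset, ψ y = 0 := by
    intro y hy
    have h3 := (H25.rc_pr H72.wbo_ ℓ M hM H b h.ld.blk.1).sg y hy
    rw [H25.pr_eq] at h3
    have h4 : ∑ ψ ∈ (H25.irrE_finite M b).toFinset, ψ 1 * ψ y =
        d * ∑ ψ ∈ (H25.irrE_finite M b).toFinset, ψ y := by
      rw [Finset.mul_sum]
      refine Finset.sum_congr rfl fun ψ hψ => ?_
      rw [h.dd.2 ψ ((H25.irrE_finite M b).mem_toFinset.1 hψ)]
    rw [h4] at h3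
    exact (mul_eq_zero.1 h3).resolve_left hd0
  by_cases hxW : x ∈ W
  · have h3 := hpr (j x) (fun h' => hjx (H72.el_reg (h.el x) h'))
    have h4 : ∑ ψ ∈ (H25.irrE_finite M b).toFinset, ψ (j x) =
        d * ∑ ψ ∈ (H25.irrE_finite M b).toFinset, μ ψ x := by
      rw [Finset.mul_sum]
      refine Finset.sum_congr rfl fun ψ hψ => ?_
      have hψ' := (H25.irrE_finite M b).mem_toFinset.1 hψ
      rw [hW ψ hψ' x hxW, h.dd.2 ψ hψ']
    rw [h4] at h3
    exact (mul_eq_zero.1 h3).resolve_left hd0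
  · have h3 : ∑ ψ ∈ (H25.irrE_finite M b).toFinset,
        ∑ s : H, EG M (Subgroup.centralizer (j.range : Set H)) g s * ψ (j x * s) = 0 := by
      rw [Finset.sum_comm]
      refine Finset.sum_eq_zero fun s _ => ?_
      rw [← Finset.mul_sum]
      by_cases hs : s ∈ Subgroup.centralizer (j.range : Set H)
      · by_cases hr : Reg ℓ s
        · rw [hpr, mul_zero]
          have hcom : Commute (j x) s :=
            Subgroup.mem_centralizer_iff.1 hs (j x) ⟨x, rfl⟩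
          exact H72.sing_mul (h.el x) hjx hcom hr
        · rw [EG_mem _ _ hs]
          have := Fintype.ofFinite (Subgroup.centralizer (j.range : Set H))
          rw [H25.eh_sing H72.wbo_ ℓ M hM _ h.ld.gam.ix.idem, zero_mul]
          intro h'
          apply hr
          unfold Reg at h' ⊢
          rwa [← Subgroup.orderOf_coe] at h'
      · rw [EG_not _ _ hs, zero_mul]
    have h4 : ∑ ψ ∈ (H25.irrE_finite M b).toFinset,
        ∑ s : H, EG M (Subgroup.centralizer (j.range : Set H)) g s * ψ (j x * s) =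
        c * S * ∑ ψ ∈ (H25.irrE_finite M b).toFinset, μ ψ x := by
      rw [Finset.mul_sum]
      refine Finset.sum_congr rfl fun ψ hψ => ?_
      rw [hO ψ ((H25.irrE_finite M b).mem_toFinset.1 hψ) x hxW]
      ring
    rw [h4] at h3
    exact (mul_eq_zero.1 h3).resolve_left (mul_ne_zero hc0 hS0)

/-- the functions of the sums of the conjugates -/
def FX (M : Ideal (integralClosure ℤ ℂ)) [M.IsMaximal] {V₀ H : Type} [CommGroup V₀] [Group H]
    (W : Subgroup V₀) (j : V₀ →* H) (b g : H → FF M) (x : V₀) (y : H) : ℂ :=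
  open Classical in
  if x ∈ W then eh M b ((j x)⁻¹ * y) else
    (Nat.card (Subgroup.centralizer (j.range : Set H)) : ℂ)⁻¹ *
      ∑ᶠ z : H, EG M (Subgroup.centralizer (j.range : Set H)) g ((j x)⁻¹ * (z⁻¹ * y * z))

/-- `FX` is a class function -/
theorem FX_cl (hcen : ∀ w ∈ W, j w ∈ Subgroup.center H) (x : V₀) (y k : H) :
    FX M W j b g x (k * y * k⁻¹) = FX M W j b g x y := by
  classical
  unfold FX
  split_ifs with hx
  · have h1 := Subgroup.mem_center_iff.1 (Subgroup.inv_mem _ (hcen x hx)) k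
    have e1 : (j x)⁻¹ * (k * y * k⁻¹) = k * ((j x)⁻¹ * y) * k⁻¹ := by
      rw [← mul_assoc, ← mul_assoc, ← h1]
      group
    rw [e1, K9.H25.eh_cl]
  · congr 1
    rw [finsum_eq_sum_of_fintype, finsum_eq_sum_of_fintype,
      ← Equiv.sum_comp (Equiv.mulLeft k)]
    refine Finset.sum_congr rfl fun z _ => ?_
    show EG M _ g ((j x)⁻¹ * ((k * z)⁻¹ * (k * y * k⁻¹) * (k * z))) = _
    congr 1
    group

/-- the values of the characters at `FX` -/
theorem FX_val {ψ : H → ℂ} (hψ : ψ ∈ Irr H) (x : V₀) :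
    (x ∈ W → (ψ ∈ IrrE M b → j x ∈ Subgroup.center H →
        ∑ y, FX M W j b g x y * ψ y = ψ (j x)) ∧
      (ψ ∉ IrrE M b → j x ∈ Subgroup.center H → ∑ y, FX M W j b g x y * ψ y = 0)) ∧
    (x ∉ W → ∑ y, FX M W j b g x y * ψ y = Nat.card H /
      Nat.card (Subgroup.centralizer (j.range : Set H)) *
      ∑ s : H, EG M (Subgroup.centralizer (j.range : Set H)) g s * ψ (j x * s)) := by
  classical
  have hsum : x ∈ W → j x ∈ Subgroup.center H → ∑ y, FX M W j b g x y * ψ y =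
      ψ (j x) / ψ 1 * ∑ s, eh M b s * ψ s := by
    intro hx hxc
    rw [← Equiv.sum_comp (Equiv.mulLeft (j x)), Finset.mul_sum]
    refine Finset.sum_congr rfl fun y _ => ?_
    show FX M W j b g x (j x * y) * ψ (j x * y) = _
    unfold FX
    rw [if_pos hx, inv_mul_cancel_left, KF.H32.central_mul hψ hxc]
    ring
  refine ⟨fun hx => ⟨fun hb hxc => ?_, fun hb hxc => ?_⟩, fun hx => ?_⟩
  · rw [hsum hx hxc, H25.eh_chv M b hψ, if_pos hb]
    have := irr_one_ne hψ
    field_simp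
  · rw [hsum hx hxc, H25.eh_chv M b hψ, if_neg hb, mul_zero]
  · have e1 : ∀ y, FX M W j b g x y =
        (Nat.card (Subgroup.centralizer (j.range : Set H)) : ℂ)⁻¹ *
        ∑ z : H, EG M (Subgroup.centralizer (j.range : Set H)) g ((j x)⁻¹ * (z⁻¹ * y * z)) := by
      intro y
      unfold FX
      rw [if_neg hx, finsum_eq_sum_of_fintype]
    simp_rw [e1, mul_assoc, ← Finset.mul_sum, Finset.sum_mul]
    rw [Finset.sum_comm]
    have e2 : ∀ z : H, ∑ y, EG M (Subgroup.centralizer (j.range : Set H)) g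
        ((j x)⁻¹ * (z⁻¹ * (y * z))) * ψ y =
        ∑ s : H, EG M (Subgroup.centralizer (j.range : Set H)) g s * ψ (j x * s) := by
      intro z
      have e3 : ∀ s : H, ψ (j x * s) = ψ (z * (j x * s) * z⁻¹) := fun s =>
        (irr_conj hψ _ _).symm
      rw [← Equiv.sum_comp ((Equiv.mulLeft (j x)).trans (MulAut.conj z).toEquiv)]
      refine Finset.sum_congr rfl fun s _ => ?_
      show EG M _ g ((j x)⁻¹ * (z⁻¹ * (z * (j x * s) * z⁻¹ * z))) *
        ψ (z * (j x * s) * z⁻¹) = _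
      rw [← e3 s]
      congr 2
      group
    simp_rw [← mul_assoc] at e2 ⊢
    rw [Finset.sum_congr rfl fun z _ => e2 z, Finset.sum_const, Finset.card_univ, nsmul_eq_mul,
      Nat.card_eq_fintype_card (α := H), div_eq_mul_inv]
    ring

end hd

end Pool.Agent.PP.SO.H33
end
end -- Pool.Agent.Helper33_ASO.Mu

section -- Pool.Agent.Helper33_ASO.MainH

/-!
# Central characters, bijection and inversion in the group `H = C(i W)`
-/

open scoped BigOperators

noncomputable section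

namespace Pool.Agent.PP.SO.H33

open Pool.Agent.Helper51_AWC Pool.Agent.Helper79_WRA Pool.Agent.PP Pool.Agent.PP.KF
open Pool.Agent.PP.K9 Pool.Agent.PP.K9.H97 Pool.Agent.PP.H75 Pool.Agent.PP.T3

attribute [local instance] Ideal.Quotient.field

/-- `1` on `W` and `U` outside of `W` -/
def UX {V₀ : Type} [CommGroup V₀] (W : Subgroup V₀) (U : ℂ) (x : V₀) : ℂ :=
  open Classical in if x ∈ W then 1 else U

section hd

variable {ℓ : ℕ} [hℓ : Fact ℓ.Prime] {M : Ideal (integralClosure ℤ ℂ)} [M.IsMaximal]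
  {V₀ H : Type} [CommGroup V₀] [Fintype V₀] [Group H] {W : Subgroup V₀} {j : V₀ →* H}
  {b g : H → FF M} {d c : ℕ} {S : ℤ} [Finite H] (hM : (ℓ : integralClosure ℤ ℂ) ∈ M)
  [Fintype H]

include hM in
/-- the main statement in the group `H` -/
theorem HD.main (h : HD ℓ M W j b g d c S) (h2 : ℓ ≠ 2) (hNil : NilStmt) (hInr : InrStmt)
    (hRsv : RsvStmt) (hIso : IsoStmt) (hSmg : SmgStmt) {U : ℂ}
    (hU : U = S * Nat.card H * c / (Nat.card (Subgroup.centralizer (j.range : Set H)) * d)) :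
    ∃ μ : (H → ℂ) → V₀ → ℂ, Set.BijOn μ (IrrE M b) {f | Ln f} ∧
      (∀ ψ ∈ IrrE M b, ∀ x, ∑ y, FX M W j b g x y * ψ y = ψ 1 * (UX W U x * μ ψ x)) ∧
      (∀ ψ ∈ Irr H, ψ ∉ IrrE M b → ∀ x, ∑ y, FX M W j b g x y * ψ y = 0) ∧
      (∀ ψ ∈ IrrE M b, ∀ y, ψ y = Nat.card H / (ℓ ^ 2 * d) *
        ∑ x, starRingEnd ℂ (μ ψ x) / UX W U x * FX M W j b g x y⁻¹) ∧
      (∀ ψ ∈ IrrE M b, ∃ m₀ : ℤ,
        (∑ s : H, EG M (Subgroup.centralizer (j.range : Set H)) g s * ψ s = c * (ℓ * m₀ + S)) ∨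
        (Subgroup.centralizer (j.range : Set H) = ⊤ ∧
          ∑ s : H, EG M (Subgroup.centralizer (j.range : Set H)) g s * ψ s = c)) ∧
      (∀ ψ ∈ Irr H, ψ ∉ IrrE M b → ∃ m₀ : ℤ,
        ∑ s : H, EG M (Subgroup.centralizer (j.range : Set H)) g s * ψ s = c * (ℓ * m₀)) ∧
      eh M b 1 = ℓ ^ 2 * d ^ 2 / Nat.card H := by
  classical
  have hex : ∀ ψ : H → ℂ, ∃ μ : V₀ → ℂ, ψ ∈ IrrE M b → (Ln μ ∧
      (∀ x ∈ W, ψ (j x) = ψ 1 * μ x) ∧
      (∀ x, x ∉ W → ∑ s : H, EG M (Subgroup.centralizer (j.range : Set H)) g s * ψ (j x * s) =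
        c * (S * μ x)) ∧
      ∃ m₀ : ℤ, (∑ s : H, EG M (Subgroup.centralizer (j.range : Set H)) g s * ψ s =
        c * (ℓ * m₀ + S)) ∨ (Subgroup.centralizer (j.range : Set H) = ⊤ ∧
        ∑ s : H, EG M (Subgroup.centralizer (j.range : Set H)) g s * ψ s = c)) := by
    intro ψ
    by_cases hψ : ψ ∈ IrrE M b
    · obtain ⟨μ, h3⟩ := h.mu hM h2 hNil hInr hRsv hIso hψ
      exact ⟨μ, fun _ => h3⟩
    · exact ⟨0, fun h' => absurd h' hψ⟩
  choose μ hμ using hex
  have hd0 : (d : ℂ) ≠ 0 := Nat.cast_ne_zero.2 h.dd.1.ne'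
  have hc0 : (c : ℂ) ≠ 0 := Nat.cast_ne_zero.2 h.dc.1.ne'
  have hH0 : (Nat.card H : ℂ) ≠ 0 := Nat.cast_ne_zero.2 Nat.card_pos.ne'
  have hC0 : (Nat.card (Subgroup.centralizer (j.range : Set H)) : ℂ) ≠ 0 :=
    Nat.cast_ne_zero.2 Nat.card_pos.ne'
  have hℓ0 : (ℓ : ℂ) ≠ 0 := Nat.cast_ne_zero.2 hℓ.out.ne_zero
  have hS0 : (S : ℂ) ≠ 0 := by
    rcases h.sg with h' | h' <;> rw [h'] <;> norm_num
  have hU0 : U ≠ 0 := by
    rw [hU]
    exact div_ne_zero (mul_ne_zero (mul_ne_zero hS0 hH0) hc0) (mul_ne_zero hC0 hd0)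
  have hUX0 : ∀ x, UX W U x ≠ 0 := by
    intro x
    unfold UX
    split_ifs
    · exact one_ne_zero
    · exact hU0
  have hcardV : Fintype.card V₀ = ℓ ^ 2 := by rw [← Nat.card_eq_fintype_card, h.cd]
  have hnc : (IrrE M b).ncard = ℓ ^ 2 := by
    rw [(hNil ℓ M hM H b j.range g h.ld h.ix1).2.1, ← h.cd]
    exact (Nat.card_congr (MonoidHom.ofInjective h.inj).toEquiv).symm
  have hbij : Set.BijOn μ (IrrE M b) {f | Ln f} :=
    bij_of_sum (H25.irrE_finite M b) (by rw [hnc, hcardV]) μ (fun ψ hψ => (hμ ψ hψ).1)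
      (fun x hx => h.sums hM μ (fun ψ hψ => (hμ ψ hψ).2.1) (fun ψ hψ => (hμ ψ hψ).2.2.1) hx)
  have hval : ∀ ψ ∈ IrrE M b, ∀ x,
      ∑ y, FX M W j b g x y * ψ y = ψ 1 * (UX W U x * μ ψ x) := by
    intro ψ hψ x
    obtain ⟨f1, f2⟩ := FX_val (M := M) (W := W) (j := j) (b := b) (g := g) hψ.1 x
    unfold UX
    by_cases hx : x ∈ W
    · rw [if_pos hx, one_mul, (f1 hx).1 hψ (h.cen x hx), (hμ ψ hψ).2.1 x hx]
    · rw [if_neg hx, f2 hx, (hμ ψ hψ).2.2.1 x hx, h.dd.2 ψ hψ, hU]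
      field_simp
  have hout : ∀ ψ ∈ Irr H, ψ ∉ IrrE M b → ∀ x, ∑ y, FX M W j b g x y * ψ y = 0 := by
    intro ψ hψ hψb x
    obtain ⟨f1, f2⟩ := FX_val (M := M) (W := W) (j := j) (b := b) (g := g) hψ x
    by_cases hx : x ∈ W
    · exact (f1 hx).2 hψb (h.cen x hx)
    · rw [f2 hx, (h.out hM h2 hInr hSmg hψ hψb).1 x hx, mul_zero]
  refine ⟨μ, hbij, hval, hout, ?_, fun ψ hψ => (hμ ψ hψ).2.2.2,
    fun ψ hψ hψb => (h.out hM h2 hInr hSmg hψ hψb).2, ?_⟩
  · -- inversion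
    intro χ hχ
    have h0 : (fun y => χ y - Nat.card H / (ℓ ^ 2 * d) *
        ∑ x, starRingEnd ℂ (μ χ x) / UX W U x * FX M W j b g x y⁻¹) = 0 := by
      apply irr_complete'
      · intro y k
        have e1 : (k * y * k⁻¹)⁻¹ = k * y⁻¹ * k⁻¹ := by group
        rw [irr_conj hχ.1, e1]
        simp_rw [FX_cl h.cen]
      · intro ψ hψ
        have e2 : ∀ x, ∑ y, FX M W j b g x y⁻¹ * ψ y⁻¹ = ∑ y, FX M W j b g x y * ψ y :=
          fun x => Equiv.sum_comp (Equiv.inv H) (fun y => FX M W j b g x y * ψ y)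
        have e3 : ∑ y, (χ y - Nat.card H / (ℓ ^ 2 * d) *
            ∑ x, starRingEnd ℂ (μ χ x) / UX W U x * FX M W j b g x y⁻¹) * ψ y⁻¹ =
            ∑ y, χ y * ψ y⁻¹ - Nat.card H / (ℓ ^ 2 * d) *
            ∑ x, starRingEnd ℂ (μ χ x) / UX W U x * ∑ y, FX M W j b g x y * ψ y := by
          simp_rw [sub_mul, Finset.sum_sub_distrib]
          congr 1
          simp_rw [← e2, Finset.mul_sum, Finset.sum_mul]
          rw [Finset.sum_comm]
          refine Finset.sum_congr rfl fun x _ => Finset.sum_congr rfl fun y _ => ?_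
          ring
        rw [e3]
        by_cases hψb : ψ ∈ IrrE M b
        · have e4 : ∀ x, starRingEnd ℂ (μ χ x) / UX W U x *
              ∑ y, FX M W j b g x y * ψ y = d * (μ χ x⁻¹ * μ ψ x) := by
            intro x
            rw [hval ψ hψb x, h.dd.2 ψ hψb, (hμ χ hχ).1.star]
            have := hUX0 x
            field_simp
          rw [Finset.sum_congr rfl fun x _ => e4 x, ← Finset.mul_sum]
          by_cases hχψ : χ = ψ
          · subst hχψ
            rw [irr_orth_self hχ.1, (hμ χ hχ).1.orth_self, hcardV, Nat.card_eq_fintype_card]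
            push_cast
            field_simp
            ring
          · have hne : μ χ ≠ μ ψ := fun h' => hχψ (hbij.injOn hχ hψb h')
            rw [irr_orth_ne hχ.1 hψ hχψ, (hμ χ hχ).1.orth (hμ ψ hψb).1 hne]
            ring
        · have hχψ : χ ≠ ψ := fun h' => hψb (h' ▸ hχ)
          rw [irr_orth_ne hχ.1 hψ hχψ]
          simp_rw [hout ψ hψ hψb]
          simp
    intro y
    have h3 := congrFun h0 y
    simp only [Pi.zero_apply] at h3
    exact sub_eq_zero.1 h3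
  · rw [K9.H25.eh_eq, Finset.sum_congr rfl (g := fun _ => (d : ℂ) ^ 2)]
    · rw [Finset.sum_const, ← Set.ncard_eq_toFinset_card _ (H25.irrE_finite M b), hnc,
        nsmul_eq_mul, Nat.card_eq_fintype_card]
      push_cast
      rw [div_eq_inv_mul]
    · intro χ hχ
      rw [inv_one, h.dd.2 χ ((H25.irrE_finite M b).mem_toFinset.1 hχ)]
      ring

end hd

end Pool.Agent.PP.SO.H33
end
end -- Pool.Agent.Helper33_ASO.MainH

section -- Pool.Agent.Helper33_ASO.NSV

/-!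
# Row NSV: the values of the central characters in the local blocks
-/

open scoped BigOperators

noncomputable section

namespace Pool.Agent.PP.SO.H33

open Pool.Agent.Helper51_AWC Pool.Agent.Helper79_WRA Pool.Agent.PP Pool.Agent.PP.KF
open Pool.Agent.PP.K9 Pool.Agent.PP.K9.H97 Pool.Agent.PP.H75 Pool.Agent.PP.T3

attribute [local instance] Ideal.Quotient.field

section rl

variable {ℓ : ℕ} [hℓ : Fact ℓ.Prime] {M : Ideal (integralClosure ℤ ℂ)} [M.IsMaximal]

/-- rational numbers with denominator prime to `ℓ` are in the local ring -/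
theorem rl_RM (hM : (ℓ : integralClosure ℤ ℂ) ∈ M) {q : ℚ} (hq : q ∈ SOR.Rl ℓ) :
    (q : ℂ) ∈ RM M := by
  have h1 : ¬ ℓ ∣ q.den := hq
  have hch : CharP (FF M) ℓ := (H50.fld ℓ Fact.out M hM).char
  have h2 : rr M (q.den : ℂ) ≠ 0 := by
    rw [(rr_nat q.den).2]
    intro h
    exact h1 ((CharP.cast_eq_zero_iff (FF M) ℓ q.den).1 h)
  have h3 := (inv_RM (rr_nat q.den).1 h2).1
  have h4 : (q : ℂ) = (q.num : ℂ) * (q.den : ℂ)⁻¹ := by
    rw [← div_eq_mul_inv]
    exact Rat.cast_def q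
  rw [h4]
  exact (RM M).mul_mem (rr_int q.num).1 h3

theorem unit_RM (hM : (ℓ : integralClosure ℤ ℂ) ∈ M) {u q : ℚ} (hq : q ∈ SOR.Rl ℓ)
    (hu : u = 1 + ℓ * q) : (u : ℂ) ∈ RM M ∧ rr M (u : ℂ) = 1 := by
  have hch : CharP (FF M) ℓ := (H50.fld ℓ Fact.out M hM).char
  have h1 := rl_RM hM hq
  have h2 : (u : ℂ) = 1 + (ℓ : ℂ) * (q : ℂ) := by rw [hu]; push_cast; ring
  have h3 : (ℓ : ℂ) * (q : ℂ) ∈ RM M := (RM M).mul_mem (rr_nat ℓ).1 h1
  refine ⟨?_, ?_⟩
  · rw [h2]
    exact (RM M).add_mem (RM M).one_mem h3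
  · rw [h2, rr_add (RM M).one_mem h3, rr_one, rr_mul (rr_nat ℓ).1 h1, (rr_nat ℓ).2,
      CharP.cast_eq_zero (FF M) ℓ, zero_mul, add_zero]

end rl

section tr

variable {ℓ : ℕ} [hℓ : Fact ℓ.Prime] {M : Ideal (integralClosure ℤ ℂ)} [M.IsMaximal]
  {V₀ G : Type} [CommGroup V₀] [Group G] {E₀ : Subgroup (MulAut V₀)} (B : Bk (FF M) V₀ G)

omit [M.IsMaximal] in
theorem i_mem_C (W : Subgroup V₀) (v : V₀) : B.i v ∈ B.C W := by
  unfold Bk.C
  rw [Subgroup.mem_centralizer_iff]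
  rintro _ ⟨w, _, rfl⟩
  rw [← map_mul, ← map_mul, mul_comm]

omit [M.IsMaximal] in
theorem mem_C {W : Subgroup V₀} {y : G} : y ∈ B.C W ↔ ∀ w ∈ W, B.i w * y = y * B.i w := by
  unfold Bk.C
  rw [Subgroup.mem_centralizer_iff]
  constructor
  · intro h w hw
    exact h (B.i w) ⟨w, hw, rfl⟩
  · rintro h _ ⟨w, hw, rfl⟩
    exact h w hw

omit [M.IsMaximal] in
theorem C_top : B.C ⊤ = Subgroup.centralizer (B.i.range : Set G) := by
  ext y
  rw [mem_C, Subgroup.mem_centralizer_iff]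
  constructor
  · rintro h _ ⟨w, rfl⟩
    exact h w (Subgroup.mem_top w)
  · intro h w _
    exact h (B.i w) ⟨w, rfl⟩

omit [M.IsMaximal] in
theorem C_top_le (W : Subgroup V₀) : Subgroup.centralizer (B.i.range : Set G) ≤ B.C W := by
  intro y hy
  rw [mem_C]
  intro w _
  exact Subgroup.mem_centralizer_iff.1 hy (B.i w) ⟨w, rfl⟩

omit [M.IsMaximal] in
theorem i_le_C (W : Subgroup V₀) : B.i.range ≤ B.C W := by
  rintro _ ⟨v, rfl⟩
  exact i_mem_C B W v

/-- the embedding of the defect group in `C(i W)` -/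
def jW (W : Subgroup V₀) : V₀ →* B.C W := B.i.codRestrict (B.C W) (i_mem_C B W)

omit [M.IsMaximal] in
theorem jW_coe (W : Subgroup V₀) (v : V₀) : (jW B W v : G) = B.i v := rfl

omit [M.IsMaximal] in
theorem jW_range (W : Subgroup V₀) : (jW B W).range = B.i.range.subgroupOf (B.C W) := by
  ext t
  rw [Subgroup.mem_subgroupOf]
  constructor
  · rintro ⟨v, rfl⟩
    exact ⟨v, rfl⟩
  · rintro ⟨v, hv⟩
    exact ⟨v, Subtype.ext hv⟩

omit [M.IsMaximal] in
theorem jW_cen (W : Subgroup V₀) {w : V₀} (hw : w ∈ W) : jW B W w ∈ Subgroup.center (B.C W) := by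
  rw [Subgroup.mem_center_iff]
  intro y
  apply Subtype.ext
  show (y : G) * B.i w = B.i w * y
  exact ((mem_C B).1 y.2 w hw).symm

variable [Finite G]

theorem b_top (hb : Sb ℓ M E₀ B) : B.b ⊤ = B.g := by
  have h1 : Bx (Subgroup.centralizer (B.i.range : Set G)) (B.b ⊤) := by
    have h2 := (hb.lb ⊤).blk
    have h3 : Subgroup.centralizer (((⊤ : Subgroup V₀).map B.i : Subgroup G) : Set G) =
        Subgroup.centralizer (B.i.range : Set G) := C_top B
    rw [h3] at h2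
    exact h2
  have h2 : br B.i.range (B.b ⊤) = B.b ⊤ := by
    funext x
    by_cases hx : x ∈ Subgroup.centralizer (B.i.range : Set G)
    · exact H66.br_of_mem hx
    · rw [H66.br_of_not_mem hx, h1.supp x hx]
  have h3 := (hb.lb ⊤).gam
  rw [h2] at h3
  rcases h1.dich hb.ld.gam with h4 | h4
  · exact h4
  · exfalso
    apply hb.ld.gam.ne
    rw [← h3, h4]

/-- the lift of `g` on `C(i W)` -/
theorem bh_top (hb : Sb ℓ M E₀ B) (W : Subgroup V₀) (t : B.C W) :
    bh B ⊤ t = EG M (Subgroup.centralizer ((jW B W).range : Set (B.C W)))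
      (fun t : B.C W => B.g t) t := by
  have hX : ∀ X : Subgroup G, X = Subgroup.centralizer (B.i.range : Set G) →
      PP.ext0 X (eh M (fun t : X => B.g t)) t =
      EG M (Subgroup.centralizer ((B.i.range.subgroupOf (B.C W) : Subgroup (B.C W)) :
        Set (B.C W))) (fun t : B.C W => B.g t) t := by
    rintro X rfl
    have hVX := i_le_C B W
    have hCX := C_top_le B W
    by_cases ht : (t : G) ∈ Subgroup.centralizer (B.i.range : Set G)
    · have ht' : t ∈ Subgroup.centralizer ((B.i.range.subgroupOf (B.C W) :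
          Subgroup (B.C W)) : Set (B.C W)) := (cent_sub hVX t).2 ht
      rw [EG_mem _ _ ht']
      unfold PP.ext0
      rw [dif_pos ht]
      have h1 := T3.H62.eh_equiv (M := M) (H85.cequiv hVX hCX).symm
        (b := fun t : Subgroup.centralizer (B.i.range : Set G) => B.g t)
        hb.ld.gam.blk.1.1 ⟨t, ht⟩
      rw [← h1]
      rfl
    · have ht' : t ∉ Subgroup.centralizer ((B.i.range.subgroupOf (B.C W) :
          Subgroup (B.C W)) : Set (B.C W)) := fun h => ht ((cent_sub hVX t).1 h)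
      rw [EG_not _ _ ht']
      unfold PP.ext0
      rw [dif_neg ht]
  unfold bh
  rw [b_top B hb, jW_range]
  exact hX _ (C_top B)

theorem bh_W (W : Subgroup V₀) (t : B.C W) :
    bh B W t = eh M (fun t : B.C W => B.b W t) t := by
  unfold bh PP.ext0
  rw [dif_pos t.2]

theorem bh_not (W : Subgroup V₀) {t : G} (ht : t ∉ B.C W) : bh B W t = 0 := by
  unfold bh PP.ext0
  rw [dif_neg ht]

variable [Finite V₀]

/-- the functions `fc` on `C(i W)` -/
theorem fc_eq (hcd : Nat.card V₀ = ℓ ^ 2) (hb : Sb ℓ M E₀ B) {W : Subgroup V₀} (hW : W ≠ ⊥)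
    (x : V₀) (t : B.C W) :
    fc B W x t = FX M W (jW B W) (fun t : B.C W => B.b W t) (fun t : B.C W => B.g t) x t := by
  classical
  have := Fintype.ofFinite (B.C W)
  unfold FX fc
  by_cases hx : x ∈ W
  · have h1 : W ⊔ Subgroup.zpowers x = W := sup_eq_left.2 (Subgroup.zpowers_le.2 hx)
    rw [if_pos hx, h1, finsum_eq_sum_of_fintype]
    have h2 : ∀ z : B.C W, bh B W ((B.i x)⁻¹ * ((z : G)⁻¹ * t * z)) =
        eh M (fun t : B.C W => B.b W t) ((jW B W x)⁻¹ * t) := by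
      intro z
      have e1 : (B.i x)⁻¹ * ((z : G)⁻¹ * t * z) =
          (((jW B W x)⁻¹ * (z⁻¹ * t * z) : B.C W) : G) := rfl
      rw [e1, bh_W]
      have h3 := Subgroup.mem_center_iff.1 (Subgroup.inv_mem _ (jW_cen B W hx)) z⁻¹
      have e2 : (jW B W x)⁻¹ * (z⁻¹ * t * z) = z⁻¹ * ((jW B W x)⁻¹ * t) * (z⁻¹)⁻¹ := by
        rw [inv_inv, ← mul_assoc, ← mul_assoc, ← h3]
        group
      rw [e2, K9.H25.eh_cl]
    rw [Finset.sum_congr rfl fun z _ => h2 z, Finset.sum_const, Finset.card_univ, nsmul_eq_mul,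
      ← mul_assoc, Nat.card_eq_fintype_card, inv_mul_cancel₀, one_mul]
    exact_mod_cast Fintype.card_ne_zero
  · have h1 : W ⊔ Subgroup.zpowers x = ⊤ := sup_top hcd hW hx
    rw [if_neg hx, h1]
    have h2 : Nat.card (B.C ⊤) =
        Nat.card (Subgroup.centralizer ((jW B W).range : Set (B.C W))) := by
      rw [C_top, jW_range]
      exact (Nat.card_congr (H85.cequiv (i_le_C B W) (C_top_le B W)).toEquiv).symm
    rw [h2]
    congr 1
    refine finsum_congr fun z => ?_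
    exact bh_top B hb W ((jW B W x)⁻¹ * (z⁻¹ * t * z))

/-- a sum over `G` -/
theorem sum_supp (W : Subgroup V₀) [Fintype (B.C W)] {χ : G → ℂ}
    (hχ : ∀ x, x ∉ B.C W → χ x = 0) (f : G → ℂ) :
    ∑ᶠ s, f s * χ s = ∑ t : B.C W, f t * χ t := by
  rw [H75.sum_sub (B.C W) (fun s => f s * χ s) (fun x hx => by rw [hχ x hx, mul_zero]),
    finsum_eq_sum_of_fintype]

/-- the data of the local block -/
theorem hd_of (hM : (ℓ : integralClosure ℤ ℂ) ∈ M) (hFr : Fr ℓ V₀ E₀)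
    (hLbg : LbgStmt) (hB : Sy ℓ M E₀ B) {W : Subgroup V₀} (hW : W ≠ ⊥) :
    HD ℓ M W (jW B W) (fun t : B.C W => B.b W t) (fun t : B.C W => B.g t) (B.D W) (B.D ⊤)
      (B.S W) ∧ ((B.U W : ℚ) : ℂ) = B.S W * Nat.card (B.C W) * B.D ⊤ /
        (Nat.card (Subgroup.centralizer ((jW B W).range : Set (B.C W))) * B.D W) := by
  have hVX := i_le_C B W
  have hCX := C_top_le B W
  obtain ⟨l1, l2⟩ := hLbg ℓ M hM V₀ G E₀ hFr B hB.toSb W hW
  have hcardC : Nat.card (Subgroup.centralizer ((jW B W).range : Set (B.C W))) =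
      Nat.card (B.C ⊤) := by
    rw [C_top, jW_range]
    exact Nat.card_congr (H85.cequiv hVX hCX).toEquiv
  have hU : ((B.U W : ℚ) : ℂ) = B.S W * Nat.card (B.C W) * B.D ⊤ /
        (Nat.card (Subgroup.centralizer ((jW B W).range : Set (B.C W))) * B.D W) := by
    rw [hcardC]
    unfold Bk.U
    push_cast
    ring
  have htop : (⊤ : Subgroup V₀) ≠ ⊥ := fun h => hW (eq_bot_iff.2 (h ▸ le_top))
  have hdc : Dg M (fun t : Subgroup.centralizer ((jW B W).range : Set (B.C W)) =>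
      B.g ((t : B.C W) : G)) (B.D ⊤) := by
    have h1 := hB.dg ⊤ htop
    rw [b_top B hB.toSb] at h1
    have h2 : Dg M (fun t : Subgroup.centralizer (B.i.range : Set G) => B.g t) (B.D ⊤) := by
      have h3 : ∀ X : Subgroup G, X = Subgroup.centralizer (B.i.range : Set G) →
          Dg M (fun t : X => B.g t) (B.D ⊤) →
          Dg M (fun t : Subgroup.centralizer (B.i.range : Set G) => B.g t) (B.D ⊤) := by
        rintro X rfl h
        exact h
      exact h3 _ (C_top B) h1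
    have h4 := H85.dg_equiv (H85.cequiv hVX hCX).symm hB.ld.gam.blk.1.1 h2
    rw [jW_range]
    exact h4
  obtain ⟨q, hq, hUq⟩ := hB.un W hW
  obtain ⟨u1, u2⟩ := unit_RM hM hq hUq
  rw [hU] at u1 u2
  refine ⟨{ ex := hFr.ex, cd := hFr.cd, nb := hW, inj := ?_, cen := fun w hw => jW_cen B W hw,
            ld := ?_, ix1 := ?_, dd := hB.dg W hW, dc := hdc, sg := hB.sg W hW,
            un := u1, un1 := u2 }, hU⟩
  · intro v w h
    exact hB.inj (congrArg Subtype.val h)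
  · rw [jW_range]
    exact l1
  · rw [jW_range]
    exact l2

end tr

/-- NSV, from the library -/
theorem nsv_of (hNil : NilStmt) (hInr : InrStmt) (hRsv : RsvStmt) (hSmg : SmgStmt)
    (hLbg : LbgStmt) (hIso : IsoStmt) : NsvStmt := by
  classical
  intro ℓ _ M _ hM h2 V₀ G _ _ _ _ E₀ hFr B hB W hW
  have := Fintype.ofFinite G
  have := Fintype.ofFinite V₀
  have := Fintype.ofFinite (B.C W)
  obtain ⟨hd, hU⟩ := hd_of B hM hFr hLbg hB hW
  obtain ⟨μ, m1, m2, m3, m4, m5, m6, m7⟩ :=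
    hd.main hM h2 hNil hInr hRsv hIso hSmg hU
  -- notation
  have hux : ∀ x, ((ux B.U W x : ℚ) : ℂ) = UX W ((B.U W : ℚ) : ℂ) x := by
    intro x
    unfold ux UX
    split_ifs
    · exact Rat.cast_one
    · rfl
  have hU0 : ((B.U W : ℚ) : ℂ) ≠ 0 := by
    have h3 := (unit_RM hM (hB.un W hW).choose_spec.1 (hB.un W hW).choose_spec.2).2
    intro h0
    rw [h0, rr_zero] at h3
    exact zero_ne_one h3
  have hux0 : ∀ x, ((ux B.U W x : ℚ) : ℂ) ≠ 0 := by
    intro x
    rw [hux]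
    unfold UX
    split_ifs
    · exact one_ne_zero
    · exact hU0
  have hcv : ∀ χ : G → ℂ, (∀ x, x ∉ B.C W → χ x = 0) → ∀ x, cv (fc B W x) χ =
      (∑ t : B.C W, FX M W (jW B W) (fun t : B.C W => B.b W t) (fun t : B.C W => B.g t) x t *
        χ t) / χ 1 := by
    intro χ hχ x
    unfold cv
    rw [sum_supp B W hχ]
    simp_rw [fc_eq B hFr.cd hB.toSb hW]
  have hin : ∀ χ ∈ Ch B W, ∀ x, cv (fc B W x) χ =
      ((ux B.U W x : ℚ) : ℂ) * μ (fun t : B.C W => χ t) x := by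
    intro χ hχ x
    have h3 := m2 (fun t : B.C W => χ t) hχ.2 x
    have h4 : χ 1 ≠ 0 := by
      have h5 := irr_one_ne hχ.2.1
      exact h5
    rw [hcv χ hχ.1, h3, hux]
    show χ 1 * _ / χ 1 = _
    field_simp
  have hlam : ∀ χ ∈ Ch B W, lam B W χ = μ (fun t : B.C W => χ t) := by
    intro χ hχ
    funext x
    unfold lam
    rw [hin χ hχ x, mul_div_cancel_left₀ _ (hux0 x)]
  have hout : ∀ χ : G → ℂ, (∀ x, x ∉ B.C W → χ x = 0) →
      (fun t : B.C W => χ t) ∈ Irr (B.C W) → χ ∉ Ch B W →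
      (fun t : B.C W => χ t) ∉ IrrE M (fun t : B.C W => B.b W t) :=
    fun χ h3 _ h5 h6 => h5 ⟨h3, h6⟩
  have htopsum : ∀ χ : G → ℂ, (∀ x, x ∉ B.C W → χ x = 0) → ∑ᶠ s, bh B ⊤ s * χ s =
      ∑ t : B.C W, EG M (Subgroup.centralizer ((jW B W).range : Set (B.C W)))
        (fun t : B.C W => B.g t) t * χ t := by
    intro χ hχ
    rw [sum_supp B W hχ]
    simp_rw [bh_top B hB.toSb W]
  refine ⟨⟨?_, ?_, ?_⟩, ?_, ?_, ?_, ?_, ?_, ?_⟩
  · intro χ hχ
    rw [hlam χ hχ]
    exact m1.mapsTo hχ.2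
  · intro χ hχ χ' hχ' h
    rw [hlam χ hχ, hlam χ' hχ'] at h
    have h3 := m1.injOn hχ.2 hχ'.2 h
    funext x
    by_cases hx : x ∈ B.C W
    · exact congrFun h3 ⟨x, hx⟩
    · rw [hχ.1 x hx, hχ'.1 x hx]
  · intro f hf
    obtain ⟨ψ, hψ, hψf⟩ := m1.surjOn hf
    have h3 : (fun t : B.C W => PP.ext0 (B.C W) ψ t) = ψ := by
      funext t
      unfold PP.ext0
      rw [dif_pos t.2]
    have h4 : PP.ext0 (B.C W) ψ ∈ Ch B W := by
      refine ⟨?_, ?_⟩
      · intro x hx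
        unfold PP.ext0
        rw [dif_neg hx]
      · rw [h3]
        exact hψ
    refine ⟨PP.ext0 (B.C W) ψ, h4, ?_⟩
    rw [hlam _ h4, h3]
    exact hψf
  · intro χ hχ x
    rw [hin χ hχ x, hlam χ hχ]
  · intro χ h3 h4 h5 x
    rw [hcv χ h3, m3 _ h4 (hout χ h3 h4 h5) x, zero_div]
  · intro χ hχ y hy
    have h3 := m4 _ hχ.2 ⟨y, hy⟩
    rw [hlam χ hχ, finsum_eq_sum_of_fintype]
    refine h3.trans ?_
    congr 1
    refine Finset.sum_congr rfl fun x _ => ?_
    rw [hux, ← fc_eq B hFr.cd hB.toSb hW x (⟨y, hy⟩⁻¹ : B.C W)]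
    rfl
  · intro χ hχ
    obtain ⟨m₀, h3⟩ := m5 _ hχ.2
    refine ⟨m₀, ?_⟩
    rw [htopsum χ hχ.1]
    rcases h3 with h3 | ⟨h3, h4⟩
    · exact Or.inl h3
    · refine Or.inr ⟨?_, h4⟩
      rw [C_top]
      refine le_antisymm ?_ (C_top_le B W)
      intro y hy
      have h5 : (⟨y, hy⟩ : B.C W) ∈
          Subgroup.centralizer ((jW B W).range : Set (B.C W)) := by
        rw [h3]
        exact Subgroup.mem_top _
      rw [jW_range] at h5
      exact (cent_sub (i_le_C B W) _).1 h5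
  · intro χ h3 h4 h5
    obtain ⟨m₀, h6⟩ := m6 _ h4 (hout χ h3 h4 h5)
    exact ⟨m₀, by rw [htopsum χ h3]; exact h6⟩
  · have h3 := bh_W B W (1 : B.C W)
    rw [m7] at h3
    exact h3

end Pool.Agent.PP.SO.H33
end
end -- Pool.Agent.Helper33_ASO.NSV
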