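import Pool.Agent.Helper12_AWB.B123
import Pool.Agent.Helper12_AWB.B127
import Pool.Agent.Helper12_AWB.B131
import Pool.Agent.Helper12_AWB.B146
import Pool.Agent.Helper12_AWB.B167
import Pool.Agent.Helper12_AWB.B171

/-!
# Merged copies (generated) of the modules

* `Pool.Agent.Helper83_AT3.CO1`
* `Pool.Agent.Helper89_AT3.BES`
* `Pool.Agent.Helper89_AT3.BES2`
* `Pool.Agent.Helper15_AT5.KBF`
* `Pool.Agent.Helper48_AT5.CO3`
* `Pool.Agent.Helper48_AT5.TWY`
* `Pool.Agent.Helper45_ATZ.MMO`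
* `Pool.Agent.Helper1_AT10.BLO`
* `Pool.Agent.Helper9_AT6.BSL`
* `Pool.Agent.Helper3_ASE.CXV`
-/

set_option autoImplicit false

section -- Pool.Agent.Helper83_AT3.CO1

/-!
# Squad AT3, row CO1: the norm of the vector `χ(u b^)`
-/

open scoped BigOperators

set_option linter.unusedSectionVars false

noncomputable section

namespace Pool.Agent.PP.T3.H83

open Pool.Agent.Helper51_AWC Pool.Agent.Helper79_WRA Pool.Agent.PP Pool.Agent.PP.KF
open Pool.Agent.PP.K9 Pool.Agent.PP.K9.H97 Pool.Agent.PP.H75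

attribute [local instance] Ideal.Quotient.field

section basics

variable {G : Type} [Group G] [Fintype G]

theorem eh_star (M : Ideal (integralClosure ℤ ℂ)) [M.IsMaximal] (e : G → FF M) (g : G) :
    starRingEnd ℂ (eh M e g) = eh M e g⁻¹ := by
  rw [K9.H25.eh_eq, K9.H25.eh_eq, map_mul, map_sum, map_inv₀, map_natCast]
  congr 1
  refine Finset.sum_congr rfl fun χ hχ => ?_
  rw [Set.Finite.mem_toFinset] at hχ
  rw [map_mul, H94.irr_star hχ.1, H94.irr_star hχ.1, inv_one]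

theorem chv_ext0 (C : Subgroup G) (a : C → ℂ) (z : G) (χ : G → ℂ) :
    chv (fun g => H75.ext0 C a (z⁻¹ * g)) χ = gbv C z a χ := by
  unfold chv gbv
  have e1 : ∑ᶠ g : G, H75.ext0 C a (z⁻¹ * g) * χ g =
      ∑ᶠ g : G, H75.ext0 C a g * χ (z * g) := by
    rw [← finsum_comp_equiv (Equiv.mulLeft z)]
    refine finsum_congr fun g => ?_
    rw [Equiv.coe_mulLeft, inv_mul_cancel_left]
  rw [e1, sum_sub C _ (fun x hx => by rw [ext0_supp C a x hx, zero_mul])]
  refine finsum_congr fun t => ?_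
  rw [ext0_apply]

/-- the conjugate of the value at `z b` -/
theorem gbv_star (M : Ideal (integralClosure ℤ ℂ)) [M.IsMaximal] (z : G)
    (b : Cu z → FF M) {χ : G → ℂ} (hχ : χ ∈ Irr G) :
    starRingEnd ℂ (gbv (Cu z) z (eh M b) χ) = gbv (Cu z) z⁻¹ (eh M b) χ := by
  classical
  have := Fintype.ofFinite (Cu z)
  unfold gbv
  rw [finsum_eq_sum_of_fintype, finsum_eq_sum_of_fintype, map_sum]
  refine Fintype.sum_equiv (Equiv.inv (Cu z)) _ _ fun c => ?_
  rw [Equiv.inv_apply, map_mul, eh_star, H94.irr_star hχ]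
  congr 2
  have h : (c : G) * z = z * c := Subgroup.mem_centralizer_singleton_iff.1 c.2
  rw [Subgroup.coe_inv, ← h, mul_inv_rev]

/-- the comparison of the `ℓ`-parts -/
theorem part_eq {ℓ N : ℕ} (hN : ∀ x y : G, Commute x y → Reg ℓ x → (∃ n : ℕ, y ^ ℓ ^ n = 1) →
    (x * y) ^ N = x) {u u' s s' x : G} (hu : ∃ n : ℕ, u ^ ℓ ^ n = 1)
    (hu' : ∃ n : ℕ, u' ^ ℓ ^ n = 1) (hs : Reg ℓ s) (hs' : Reg ℓ s') (hsu : Commute s u)
    (hsu' : Commute s' u') (h : x⁻¹ * (s * u) * x = s' * u') : x⁻¹ * u * x = u' := by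
  have e1 : (x⁻¹ * (s * u) * x) ^ N = x⁻¹ * s * x := by
    have e2 : (x⁻¹ * (s * u) * x) ^ N = x⁻¹ * (s * u) ^ N * x := by
      have e3 := conj_pow (i := N) (a := x⁻¹) (b := s * u)
      rwa [inv_inv] at e3
    rw [e2, hN s u hsu hs hu]
  rw [h, hN s' u' hsu' hs' hu'] at e1
  have e4 : x⁻¹ * (s * u) * x = (x⁻¹ * s * x) * (x⁻¹ * u * x) := by group
  rw [h, ← e1] at e4
  exact (mul_left_cancel e4).symm

end basics

theorem co1 : Co1Stmt := by
  intro ℓ _ M _ hM G _ _ u hu b hb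
  classical
  have := Fintype.ofFinite G
  have := Fintype.ofFinite (Cu u)
  obtain ⟨N, -, hN⟩ := H27.prt ℓ G
  obtain ⟨h1, h2, -⟩ := KF.H25.idm M (Cu u) (fun t : Cu u => b t) hb.idem
  have hbh : eh M (fun t : Cu u => b t) 1 = (Nat.card (Cu u) : ℂ)⁻¹ *
      ∑ᶠ χ ∈ IrrE M (fun t : Cu u => b t), χ 1 ^ 2 := by
    rw [eh]
    simp only [inv_one, pow_two]
  have hsg : ∀ t : Cu u, ¬ Reg ℓ t → eh M (fun t : Cu u => b t) t = 0 := fun t ht =>
    K9.H25.eh_sing (H82W.wbo (H82.trb H53.tra)) ℓ M hM _ hb.idem t ht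
  have hgv : ∀ χ ∈ Irr G, gv M (Cu u) u b χ * starRingEnd ℂ (gv M (Cu u) u b χ) =
      chv (fun g => H75.ext0 (Cu u) (eh M (fun t : Cu u => b t)) (u⁻¹ * g)) χ *
      chv (fun g => H75.ext0 (Cu u) (eh M (fun t : Cu u => b t)) (u * g)) χ := by
    intro χ hχ
    have e1 := chv_ext0 (Cu u) (eh M (fun t : Cu u => b t)) u χ
    have e2 := chv_ext0 (Cu u) (eh M (fun t : Cu u => b t)) u⁻¹ χ
    rw [inv_inv] at e2
    rw [e1, e2, ← gbv_star M u _ hχ]
    rfl
  rw [finsum_mem_congr rfl hgv, trc]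
  generalize eh M (fun t : Cu u => b t) = bh at h1 h2 hbh hsg ⊢
  set B : G → ℂ := H75.ext0 (Cu u) bh with hB
  have hBs : ∀ g, g ∉ Cu u → B g = 0 := ext0_supp _ _
  have hBa : ∀ t : Cu u, B t = bh t := ext0_apply _ _
  have huC : u ∈ Cu u := Subgroup.mem_centralizer_singleton_iff.2 rfl
  have hcm : ∀ {c : G}, c ∈ Cu u → c * u = u * c := fun hc =>
    Subgroup.mem_centralizer_singleton_iff.1 hc
  have hBr : ∀ g, B g ≠ 0 → g ∈ Cu u ∧ Reg ℓ g := by
    intro g hg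
    have hg' : g ∈ Cu u := by
      by_contra h
      exact hg (hBs g h)
    refine ⟨hg', ?_⟩
    by_contra h
    apply hg
    rw [hBa ⟨g, hg'⟩]
    apply hsg
    intro h'
    apply h
    unfold Reg at h' ⊢
    rwa [← Subgroup.orderOf_coe] at h'
  have hBB : mulF B B = B := by
    rw [hB, ← ext0_mulF, h2.2]
  have hBc : ∀ c ∈ Cu u, ∀ x, B (c * x * c⁻¹) = B x := by
    intro c hc x
    by_cases hx : x ∈ Cu u
    · have := h2.1 ⟨x, hx⟩ ⟨c, hc⟩
      rw [← hBa, ← hBa] at this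
      exact this
    · rw [hBs x hx, hBs]
      intro h
      apply hx
      have := (Cu u).mul_mem ((Cu u).mul_mem ((Cu u).inv_mem hc) h) hc
      have e : c⁻¹ * (c * x * c⁻¹) * c = x := by group
      rwa [e] at this
  rw [finsum_eq_sum_of_fintype]
  simp only [finsum_eq_sum_of_fintype]
  rw [← Finset.sum_filter_add_sum_filter_not Finset.univ (fun g => g ∈ Cu u)]
  -- the complement of the centraliser
  have hc : ∑ x ∈ Finset.univ.filter (fun g => ¬ g ∈ Cu u),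
      ∑ g, B (u⁻¹ * g) * B (u * (x⁻¹ * g⁻¹ * x)) = 0 := by
    refine Finset.sum_eq_zero fun x hx => Finset.sum_eq_zero fun g _ => ?_
    by_contra hne
    apply (Finset.mem_filter.1 hx).2
    obtain ⟨hs1, hs2⟩ := hBr _ (left_ne_zero_of_mul hne)
    obtain ⟨hs1', hs2'⟩ := hBr _ (right_ne_zero_of_mul hne)
    have hui : ∃ n : ℕ, u⁻¹ ^ ℓ ^ n = 1 := by
      obtain ⟨n, hn⟩ := hu
      exact ⟨n, by rw [inv_pow, hn, inv_one]⟩
    have k1 : Commute (u⁻¹ * g)⁻¹ u⁻¹ := (show Commute (u⁻¹ * g) u from hcm hs1).inv_inv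
    have k2 : Commute (u * (x⁻¹ * g⁻¹ * x)) u⁻¹ :=
      (show Commute (u * (x⁻¹ * g⁻¹ * x)) u from hcm hs1').inv_right
    have k3 : x⁻¹ * ((u⁻¹ * g)⁻¹ * u⁻¹) * x = (u * (x⁻¹ * g⁻¹ * x)) * u⁻¹ := by
      rw [k2.eq]
      group
    have k4 := part_eq hN hui hui (show Reg ℓ (u⁻¹ * g)⁻¹ by
      unfold Reg
      rw [orderOf_inv]
      exact hs2) hs2' k1 k2 k3
    rw [Subgroup.mem_centralizer_singleton_iff]
    have k5 : u⁻¹ * x = x * u⁻¹ := by
      calc u⁻¹ * x = x * (x⁻¹ * u⁻¹ * x) := by group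
        _ = x * u⁻¹ := by rw [k4]
    have k6 : Commute x u⁻¹ := k5.symm
    exact (Commute.inv_right_iff.1 k6).eq
  rw [hc, add_zero]
  -- the centraliser
  have hS : ∑ g, B (u⁻¹ * g) * B (u * g⁻¹) = bh 1 := by
    have e1 : mulF B B 1 = bh 1 := by
      rw [hBB]
      exact hBa 1
    rw [← e1, mulF, finsum_eq_sum_of_fintype]
    refine Fintype.sum_equiv (Equiv.mulLeft u⁻¹) _ _ fun g => ?_
    rw [Equiv.coe_mulLeft]
    congr 1
    rw [← hBc u huC ((u⁻¹ * g)⁻¹ * 1)]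
    congr 1
    group
  have hC : ∀ x ∈ Finset.univ.filter (fun g => g ∈ Cu u),
      ∑ g, B (u⁻¹ * g) * B (u * (x⁻¹ * g⁻¹ * x)) = bh 1 := by
    intro x hx
    have hx' : x ∈ Cu u := (Finset.mem_filter.1 hx).2
    rw [← hS]
    refine Finset.sum_congr rfl fun g _ => ?_
    congr 1
    rw [← hBc x hx' (u * (x⁻¹ * g⁻¹ * x))]
    congr 1
    calc x * (u * (x⁻¹ * g⁻¹ * x)) * x⁻¹ = (x * u) * x⁻¹ * g⁻¹ := by group
      _ = u * g⁻¹ := by rw [hcm hx']; group
  rw [Finset.sum_congr rfl hC, Finset.sum_const, hbh, nsmul_eq_mul]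
  have hcard : (Finset.univ.filter (fun g => g ∈ Cu u)).card = Nat.card (Cu u) := by
    rw [Nat.card_eq_fintype_card, Fintype.card_subtype]
  rw [hcard, ← mul_assoc, mul_inv_cancel₀, one_mul]
  exact Nat.cast_ne_zero.2 Nat.card_pos.ne'

end Pool.Agent.PP.T3.H83
end
end -- Pool.Agent.Helper83_AT3.CO1

section -- Pool.Agent.Helper89_AT3.BES

/-!
# Squad AT3, row BES: Bessel's inequality in the form of the Schur test
-/

set_option autoImplicit false

namespace Pool.Agent.PP.T3.H89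

/-- BES with `0 ≤ c` -/
theorem bes0 (ι κ : Type) [Fintype ι] [Fintype κ] (v : ι → κ → ℂ) (c : ℝ) (hc : 0 ≤ c)
    (h : ∀ i, ∑ i', ‖∑ k, v i k * starRingEnd ℂ (v i' k)‖ ≤ c) (s : κ → ℂ) :
    ∑ i, Complex.normSq (∑ k, s k * v i k) ≤ c * ∑ k, Complex.normSq (s k) := by
  classical
  set x : ι → ℂ := fun i => starRingEnd ℂ (∑ k, s k * v i k) with hx
  set T : κ → ℂ := fun k => ∑ i, x i * v i k with hT
  set A : ℝ := ∑ i, ‖x i‖ ^ 2 with hA
  set S : ℝ := ∑ k, ‖s k‖ ^ 2 with hS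
  have hAeq : ∑ i, Complex.normSq (∑ k, s k * v i k) = A := by
    rw [hA]
    refine Finset.sum_congr rfl (fun i _ => ?_)
    rw [hx]
    simp only [Complex.normSq_eq_norm_sq, RCLike.norm_conj]
  have hSeq : ∑ k, Complex.normSq (s k) = S := by
    rw [hS]
    exact Finset.sum_congr rfl (fun k _ => Complex.normSq_eq_norm_sq _)
  rw [hAeq, hSeq]
  have hA0 : 0 ≤ A := Finset.sum_nonneg (fun i _ => sq_nonneg _)
  have hS0 : 0 ≤ S := Finset.sum_nonneg (fun i _ => sq_nonneg _)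
  -- A as a sum over k
  have hAc : (A : ℂ) = ∑ k, s k * T k := by
    have h1 : (A : ℂ) = ∑ i, x i * (∑ k, s k * v i k) := by
      rw [hA]
      push_cast
      refine Finset.sum_congr rfl (fun i _ => ?_)
      rw [← Complex.mul_conj', hx]
      simp only [Complex.conj_conj]
    rw [h1]
    simp only [Finset.mul_sum]
    rw [Finset.sum_comm]
    refine Finset.sum_congr rfl (fun k _ => ?_)
    rw [hT, Finset.mul_sum]
    refine Finset.sum_congr rfl (fun i _ => ?_)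
    ring
  have hA1 : A ≤ ∑ k, ‖s k‖ * ‖T k‖ := by
    have h1 : A = ‖(A : ℂ)‖ := by
      rw [Complex.norm_real, Real.norm_of_nonneg hA0]
    rw [h1, hAc]
    refine (norm_sum_le _ _).trans ?_
    exact le_of_eq (Finset.sum_congr rfl (fun k _ => norm_mul _ _))
  have hA2 : A ^ 2 ≤ S * ∑ k, ‖T k‖ ^ 2 := by
    refine (pow_le_pow_left₀ hA0 hA1 2).trans ?_
    exact Finset.sum_mul_sq_le_sq_mul_sq Finset.univ (fun k => ‖s k‖) (fun k => ‖T k‖)
  -- the sum of |T k|^2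
  have hT1 : ((∑ k, ‖T k‖ ^ 2 : ℝ) : ℂ) = ∑ i, ∑ i', x i * starRingEnd ℂ (x i') *
      ∑ k, v i k * starRingEnd ℂ (v i' k) := by
    push_cast
    have h1 : ∀ k, ((‖T k‖ : ℝ) : ℂ) ^ 2 = ∑ i, ∑ i', (x i * starRingEnd ℂ (x i')) *
        (v i k * starRingEnd ℂ (v i' k)) := by
      intro k
      rw [← Complex.mul_conj', hT]
      simp only [map_sum, map_mul]
      rw [Finset.sum_mul_sum]
      refine Finset.sum_congr rfl (fun i _ => Finset.sum_congr rfl (fun i' _ => ?_))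
      ring
    rw [Finset.sum_congr rfl (fun k _ => h1 k), Finset.sum_comm]
    refine Finset.sum_congr rfl (fun i _ => ?_)
    rw [Finset.sum_comm]
    refine Finset.sum_congr rfl (fun i' _ => ?_)
    rw [Finset.mul_sum]
  have hsym : ∀ i i', ‖∑ k, v i k * starRingEnd ℂ (v i' k)‖ =
      ‖∑ k, v i' k * starRingEnd ℂ (v i k)‖ := by
    intro i i'
    rw [← RCLike.norm_conj, map_sum]
    congr 1
    refine Finset.sum_congr rfl (fun k _ => ?_)
    rw [map_mul, Complex.conj_conj]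
    ring
  have hT2 : ∑ k, ‖T k‖ ^ 2 ≤ c * A := by
    have h0 : 0 ≤ ∑ k, ‖T k‖ ^ 2 := Finset.sum_nonneg (fun i _ => sq_nonneg _)
    have h1 : ∑ k, ‖T k‖ ^ 2 = ‖((∑ k, ‖T k‖ ^ 2 : ℝ) : ℂ)‖ := by
      rw [Complex.norm_real, Real.norm_of_nonneg h0]
    rw [h1, hT1]
    calc ‖∑ i, ∑ i', x i * starRingEnd ℂ (x i') * ∑ k, v i k * starRingEnd ℂ (v i' k)‖
        ≤ ∑ i, ∑ i', ‖x i‖ * ‖x i'‖ * ‖∑ k, v i k * starRingEnd ℂ (v i' k)‖ := by
          refine (norm_sum_le _ _).trans (Finset.sum_le_sum (fun i _ => ?_))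
          refine (norm_sum_le _ _).trans (Finset.sum_le_sum (fun i' _ => ?_))
          rw [norm_mul, norm_mul, RCLike.norm_conj (x i')]
      _ ≤ ∑ i, ∑ i', (‖x i‖ ^ 2 * (‖∑ k, v i k * starRingEnd ℂ (v i' k)‖ / 2) +
            ‖x i'‖ ^ 2 * (‖∑ k, v i k * starRingEnd ℂ (v i' k)‖ / 2)) := by
          refine Finset.sum_le_sum (fun i _ => Finset.sum_le_sum (fun i' _ => ?_))
          have hg : 0 ≤ ‖∑ k, v i k * starRingEnd ℂ (v i' k)‖ := norm_nonneg _
          nlinarith [mul_nonneg (sq_nonneg (‖x i‖ - ‖x i'‖)) hg]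
      _ = ∑ i, ‖x i‖ ^ 2 * ((∑ i', ‖∑ k, v i k * starRingEnd ℂ (v i' k)‖) / 2) +
            ∑ i', ‖x i'‖ ^ 2 * ((∑ i, ‖∑ k, v i k * starRingEnd ℂ (v i' k)‖) / 2) := by
          simp only [Finset.sum_add_distrib]
          congr 1
          · refine Finset.sum_congr rfl (fun i _ => ?_)
            rw [← Finset.mul_sum, Finset.sum_div]
          · rw [Finset.sum_comm]
            refine Finset.sum_congr rfl (fun i' _ => ?_)
            rw [← Finset.mul_sum, Finset.sum_div]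
      _ ≤ ∑ i, ‖x i‖ ^ 2 * (c / 2) + ∑ i', ‖x i'‖ ^ 2 * (c / 2) := by
          refine add_le_add (Finset.sum_le_sum (fun i _ => ?_)) (Finset.sum_le_sum (fun i' _ => ?_))
          · exact mul_le_mul_of_nonneg_left (by linarith [h i]) (sq_nonneg _)
          · refine mul_le_mul_of_nonneg_left ?_ (sq_nonneg _)
            have h2 := h i'
            rw [Finset.sum_congr rfl (fun i _ => hsym i' i)] at h2
            linarith
      _ = c * A := by
          rw [← Finset.sum_mul]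
          ring
  rcases hA0.eq_or_lt with h0 | h0
  · rw [← h0]
    exact mul_nonneg hc hS0
  · have h3 : A * A ≤ (c * S) * A := by
      calc A * A = A ^ 2 := (sq A).symm
        _ ≤ S * ∑ k, ‖T k‖ ^ 2 := hA2
        _ ≤ S * (c * A) := mul_le_mul_of_nonneg_left hT2 hS0
        _ = (c * S) * A := by ring
    exact le_of_mul_le_mul_right h3 h0

/-- BES for nonempty families -/
theorem bes1 (ι κ : Type) [Fintype ι] [Nonempty ι] [Fintype κ] (v : ι → κ → ℂ) (c : ℝ)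
    (h : ∀ i, ∑ i', ‖∑ k, v i k * starRingEnd ℂ (v i' k)‖ ≤ c) (s : κ → ℂ) :
    ∑ i, Complex.normSq (∑ k, s k * v i k) ≤ c * ∑ k, Complex.normSq (s k) := by
  refine bes0 ι κ v c ?_ h s
  obtain ⟨i⟩ := (inferInstance : Nonempty ι)
  exact (Finset.sum_nonneg (fun i' _ => norm_nonneg _)).trans (h i)

end Pool.Agent.PP.T3.H89
end -- Pool.Agent.Helper89_AT3.BES

section -- Pool.Agent.Helper89_AT3.BES2

/-! # Squad AT3, row BES: `BesStmt` -/

namespace Pool.Agent.PP.T3.H89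

theorem bes : BesStmt := by
  intro ι κ _ _ v c hc h s
  exact bes0 ι κ v c hc h s

end Pool.Agent.PP.T3.H89
end -- Pool.Agent.Helper89_AT3.BES2

section -- Pool.Agent.Helper15_AT5.KBF

/-! Squad AT5, row KBF: the number of characters of a block is at most the square of the order of a
defect group. -/

open scoped BigOperators

noncomputable section

namespace Pool.Agent.PP.T5.H15

open Pool.Agent.Helper51_AWC Pool.Agent.Helper79_WRA Pool.Agent.PP Pool.Agent.PP.KF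
open Pool.Agent.PP.K9 Pool.Agent.PP.K9.H97 Pool.Agent.PP.H75 Pool.Agent.PP.T3 Pool.Agent.PP.T2
open Pool.Agent.PP.T5 Pool.Agent.PP.H94

attribute [local instance] Ideal.Quotient.field

theorem rip_eq {H : Type} [Group H] [Fintype H] (ℓ : ℕ) (κ ψ : H → ℂ) [DecidablePred (Reg (H := H) ℓ)] :
    rip ℓ κ ψ = ∑ k : H, ((Fintype.card H : ℂ)⁻¹ * (if Reg ℓ k then starRingEnd ℂ (ψ k) else 0)) *
      κ k := by
  unfold rip
  rw [Nat.card_eq_fintype_card, finsum_eq_sum_of_fintype, Finset.mul_sum]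
  refine Finset.sum_congr rfl fun k _ => ?_
  by_cases h : Reg ℓ k
  · rw [finsum_eq_if, if_pos h, if_pos h]; ring
  · rw [finsum_eq_if, if_neg h, if_neg h]; ring

theorem sum_nsq {H : Type} [Group H] [Fintype H] {ψ : H → ℂ} (hψ : ψ ∈ Irr H) :
    ∑ k : H, Complex.normSq (ψ k) = Fintype.card H := by
  have h := irr_orth_self hψ
  have h2 : ((∑ k : H, Complex.normSq (ψ k) : ℝ) : ℂ) = ((Fintype.card H : ℝ) : ℂ) := by
    push_cast
    rw [← h]
    refine Finset.sum_congr rfl fun k _ => ?_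
    rw [← Complex.mul_conj, irr_star hψ]
  exact_mod_cast h2

theorem bessel {H : Type} [Group H] [Fintype H] (ℓ : ℕ) {S : Set (H → ℂ)} (hS : S ⊆ Irr H)
    [Fintype S] {ψ : H → ℂ} (hψ : ψ ∈ Irr H) :
    ∑ κ : S, Complex.normSq (rip ℓ κ.1 ψ) ≤ 1 := by
  classical
  have hc : (0 : ℝ) < Fintype.card H := by exact_mod_cast Fintype.card_pos
  have hb := T3.H89.bes S H (fun κ k => κ.1 k) (Fintype.card H) hc.le (by
    intro i
    rw [Finset.sum_eq_single i]
    · have h1 : (∑ k : H, i.1 k * starRingEnd ℂ (i.1 k)) = Fintype.card H := by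
        rw [← irr_orth_self (hS i.2)]
        refine Finset.sum_congr rfl fun k _ => ?_
        rw [irr_star (hS i.2)]
      rw [h1]
      simp
    · intro j _ hj
      have h1 : (∑ k : H, i.1 k * starRingEnd ℂ (j.1 k)) = 0 := by
        rw [← irr_orth_ne (hS i.2) (hS j.2) (fun h => hj (Subtype.ext h.symm))]
        refine Finset.sum_congr rfl fun k _ => ?_
        rw [irr_star (hS j.2)]
      rw [h1, norm_zero]
    · intro h; exact absurd (Finset.mem_univ _) h)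
    (fun k => (Fintype.card H : ℂ)⁻¹ * (if Reg ℓ k then starRingEnd ℂ (ψ k) else 0))
  have h1 : ∀ κ : S, rip ℓ κ.1 ψ =
      ∑ k : H, ((Fintype.card H : ℂ)⁻¹ * (if Reg ℓ k then starRingEnd ℂ (ψ k) else 0)) * κ.1 k :=
    fun κ => rip_eq ℓ κ.1 ψ
  have h2 : ∑ κ : S, Complex.normSq (rip ℓ κ.1 ψ) ≤ (Fintype.card H : ℝ) *
      ∑ k : H, Complex.normSq ((Fintype.card H : ℂ)⁻¹ *
        (if Reg ℓ k then starRingEnd ℂ (ψ k) else 0)) := by
    refine le_trans (le_of_eq ?_) hb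
    exact Finset.sum_congr rfl fun κ _ => by rw [h1 κ]
  refine h2.trans ?_
  have h3 : ∑ k : H, Complex.normSq ((Fintype.card H : ℂ)⁻¹ *
        (if Reg ℓ k then starRingEnd ℂ (ψ k) else 0)) ≤
      ((Fintype.card H : ℝ)⁻¹) ^ 2 * ∑ k : H, Complex.normSq (ψ k) := by
    rw [Finset.mul_sum]
    refine Finset.sum_le_sum fun k _ => ?_
    rw [map_mul]
    have h4 : Complex.normSq ((Fintype.card H : ℂ)⁻¹) = ((Fintype.card H : ℝ)⁻¹) ^ 2 := by
      have h5 : ((Fintype.card H : ℂ)⁻¹) = (((Fintype.card H : ℝ)⁻¹ : ℝ) : ℂ) := by push_cast; rfl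
      rw [h5, Complex.normSq_ofReal, pow_two]
    rw [h4]
    refine mul_le_mul_of_nonneg_left ?_ (by positivity)
    by_cases h : Reg ℓ k
    · rw [if_pos h, Complex.normSq_conj]
    · rw [if_neg h, map_zero]; exact Complex.normSq_nonneg _
  calc (Fintype.card H : ℝ) * ∑ k : H, Complex.normSq ((Fintype.card H : ℂ)⁻¹ *
        (if Reg ℓ k then starRingEnd ℂ (ψ k) else 0))
      ≤ (Fintype.card H : ℝ) * (((Fintype.card H : ℝ)⁻¹) ^ 2 * ∑ k : H, Complex.normSq (ψ k)) :=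
        mul_le_mul_of_nonneg_left h3 hc.le
    _ = 1 := by
        rw [sum_nsq hψ]
        field_simp

theorem kbf (hz : NzmStmt) (hi : InqStmt) : KbfStmt := by
  intro ℓ _ M _ hM H _ _ b hb V hV
  classical
  haveI : Fintype H := Fintype.ofFinite H
  obtain ⟨ψ, hψ, hne⟩ := hz ℓ M hM H b hb
  have hS : IrrE M b ⊆ Irr H := fun χ h => h.1
  have hfin : (IrrE M b).Finite := (irr_finite' (G := H)).subset hS
  haveI : Fintype (IrrE M b) := hfin.fintype
  have hV0 : 0 < Nat.card V := Nat.card_pos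
  have hVr : (0 : ℝ) < Nat.card V := by exact_mod_cast hV0
  have hB := bessel ℓ hS (hS hψ)
  have hk : ∀ κ : IrrE M b, ((Nat.card V : ℝ) ^ 2)⁻¹ ≤ Complex.normSq (rip ℓ κ.1 ψ) := by
    intro κ
    obtain ⟨n, hn⟩ := hi ℓ M hM H b hb V hV κ.1 κ.2 ψ hψ
    have hr := hne κ.1 κ.2
    have hn0 : n ≠ 0 := by
      rintro rfl
      rw [Int.cast_zero] at hn
      rcases mul_eq_zero.1 hn with h | h
      · exact hV0.ne' (by exact_mod_cast h)
      · exact hr h
    have h1 : Complex.normSq ((Nat.card V : ℂ) * rip ℓ κ.1 ψ) = (n : ℝ) ^ 2 := by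
      rw [hn]
      have h5 : ((n : ℤ) : ℂ) = ((n : ℝ) : ℂ) := by push_cast; rfl
      rw [h5, Complex.normSq_ofReal, pow_two]
    rw [map_mul] at h1
    have h4 : Complex.normSq ((Nat.card V : ℂ)) = (Nat.card V : ℝ) ^ 2 := by
      have h5 : ((Nat.card V : ℕ) : ℂ) = ((Nat.card V : ℝ) : ℂ) := by push_cast; rfl
      rw [h5, Complex.normSq_ofReal, pow_two]
    rw [h4] at h1
    have h6 : (1 : ℝ) ≤ (n : ℝ) ^ 2 := by
      have h7 : (1 : ℤ) ≤ n ^ 2 := by
        have := Int.one_le_abs hn0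
        nlinarith [sq_abs n, abs_nonneg n]
      exact_mod_cast h7
    rw [inv_le_iff_one_le_mul₀ (by positivity)]
    rw [mul_comm]
    linarith
  have hsum : (Fintype.card (IrrE M b) : ℝ) * ((Nat.card V : ℝ) ^ 2)⁻¹ ≤ 1 := by
    refine le_trans ?_ hB
    have h8 : ∑ _κ : IrrE M b, ((Nat.card V : ℝ) ^ 2)⁻¹ ≤
        ∑ κ : IrrE M b, Complex.normSq (rip ℓ κ.1 ψ) := Finset.sum_le_sum fun κ _ => hk κ
    rw [Finset.sum_const, nsmul_eq_mul, Finset.card_univ] at h8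
    exact h8
  have h9 : (Fintype.card (IrrE M b) : ℝ) ≤ (Nat.card V : ℝ) ^ 2 := by
    rw [← div_eq_mul_inv, div_le_one (by positivity)] at hsum
    exact hsum
  rw [Set.ncard_eq_toFinset_card' , Set.toFinset_card]
  exact_mod_cast h9

end Pool.Agent.PP.T5.H15
end
end -- Pool.Agent.Helper15_AT5.KBF

section -- Pool.Agent.Helper48_AT5.CO3

/-!
# Squad AT5, row CO3: the inner product of the vectors `χ(u s b)`, `χ(u s' b)`
-/

open scoped BigOperators

set_option linter.unusedSectionVars false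

noncomputable section

namespace Pool.Agent.PP.T5.H48

open Pool.Agent.Helper51_AWC Pool.Agent.Helper79_WRA Pool.Agent.PP Pool.Agent.PP.KF
open Pool.Agent.PP.K9 Pool.Agent.PP.K9.H97 Pool.Agent.PP.H75 Pool.Agent.PP.T3 Pool.Agent.PP.T2

attribute [local instance] Ideal.Quotient.field

section kern

variable {G : Type} [Group G] {M : Ideal (integralClosure ℤ ℂ)} [M.IsMaximal]

theorem ife_fin {H : Type} [Group H] [Finite H] (b : H → FF M) : (IrrE M b).Finite := by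
  have := Fintype.ofFinite H
  exact K9.H25.irrE_finite M b

theorem kr_eq [Finite G] (C : Subgroup G) (b : G → FF M) (s g : G) :
    kr M C b s g = ∑ κ ∈ (ife_fin (fun t : C => b t)).toFinset,
      H75.ext0 C κ s * starRingEnd ℂ (H75.ext0 C κ g) := by
  unfold kr
  rw [finsum_mem_eq_finite_toFinset_sum _ (ife_fin (fun t : C => b t))]

theorem kr_right [Finite G] {C : Subgroup G} {b : G → FF M} {s g : G} (hg : g ∉ C) :
    kr M C b s g = 0 := by
  rw [kr_eq]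
  refine Finset.sum_eq_zero fun κ _ => ?_
  rw [H75.ext0_supp C κ g hg, map_zero, mul_zero]

theorem kr_coe [Finite G] (C : Subgroup G) (b : G → FF M) (s g : C) :
    kr M C b s g = ∑ᶠ κ ∈ IrrE M (fun t : C => b t), κ s * κ g⁻¹ := by
  unfold kr
  refine finsum_mem_congr rfl fun κ hκ => ?_
  rw [H75.ext0_apply, H75.ext0_apply, H94.irr_star hκ.1]

theorem reg_coe' {ℓ : ℕ} {C : Subgroup G} {s : C} : Reg ℓ (s : G) ↔ Reg ℓ s := by
  unfold Reg
  rw [Subgroup.orderOf_coe]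

theorem reg_inv' {ℓ : ℕ} {s : G} : Reg ℓ s⁻¹ ↔ Reg ℓ s := by
  unfold Reg
  rw [orderOf_inv]

/-- the kernel vanishes at the singular elements -/
theorem kr_sing [Finite G] {ℓ : ℕ} [Fact ℓ.Prime] (hM : (ℓ : integralClosure ℤ ℂ) ∈ M)
    {C : Subgroup G} {b : G → FF M} (hb : Ix C b) {s g : G} (hsC : s ∈ C) (hs : Reg ℓ s)
    (hg : ¬ Reg ℓ g) : kr M C b s g = 0 := by
  by_cases hgC : g ∈ C
  · have h1 := kr_coe C b ⟨s, hsC⟩ ⟨g, hgC⟩
    have h2 := T3.H62.wbo_ ℓ M hM C (fun t : C => b t) hb.idem (⟨s, hsC⟩ : C)⁻¹ (⟨g, hgC⟩ : C)⁻¹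
      (reg_inv'.2 (reg_coe'.1 hs)) (fun h => hg (reg_coe'.2 (reg_inv'.1 h)))
    simp only [inv_inv] at h2
    rw [← h2]
    exact h1
  · exact kr_right hgC

theorem ext0_cj [Finite G] (C : Subgroup G) {κ : C → ℂ} (hκ : κ ∈ Irr C) {c : G} (hc : c ∈ C) (g : G) :
    H75.ext0 C κ (c * g * c⁻¹) = H75.ext0 C κ g := by
  by_cases hg : g ∈ C
  · have h1 := irr_conj hκ ⟨g, hg⟩ ⟨c, hc⟩
    have h2 := H75.ext0_apply C κ ⟨g, hg⟩
    have h3 := H75.ext0_apply C κ (⟨c, hc⟩ * ⟨g, hg⟩ * (⟨c, hc⟩ : C)⁻¹)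
    rw [h1] at h3
    exact h3.trans h2.symm
  · rw [H75.ext0_supp C κ g hg, H75.ext0_supp]
    intro h
    apply hg
    have h1 := C.mul_mem (C.mul_mem (C.inv_mem hc) h) hc
    have h2 : c⁻¹ * (c * g * c⁻¹) * c = g := by group
    rwa [h2] at h1

theorem kr_cj_right [Finite G] {C : Subgroup G} {b : G → FF M} (s g : G) {c : G} (hc : c ∈ C) :
    kr M C b s (c * g * c⁻¹) = kr M C b s g := by
  unfold kr
  refine finsum_mem_congr rfl fun κ hκ => ?_
  rw [ext0_cj C hκ.1 hc]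

theorem kr_cj_left [Finite G] {C : Subgroup G} {b : G → FF M} (s g : G) {c : G} (hc : c ∈ C) :
    kr M C b (c * s * c⁻¹) g = kr M C b s g := by
  unfold kr
  refine finsum_mem_congr rfl fun κ hκ => ?_
  rw [ext0_cj C hκ.1 hc]

theorem ext0_sum [Fintype G] (C : Subgroup G) [Fintype C] (κ κ' : C → ℂ) :
    ∑ g, H75.ext0 C κ g * starRingEnd ℂ (H75.ext0 C κ' g) =
      ∑ c : C, κ c * starRingEnd ℂ (κ' c) := by
  classical
  have h1 : ∑ g, H75.ext0 C κ g * starRingEnd ℂ (H75.ext0 C κ' g) =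
      ∑ g ∈ Finset.univ.filter (fun g => g ∈ C),
        H75.ext0 C κ g * starRingEnd ℂ (H75.ext0 C κ' g) := by
    rw [Finset.sum_filter]
    refine Finset.sum_congr rfl fun g _ => ?_
    by_cases hg : g ∈ C
    · rw [if_pos hg]
    · rw [if_neg hg, H75.ext0_supp C κ g hg, zero_mul]
  rw [h1]
  refine (Finset.sum_bij (fun (c : C) _ => (c : G)) (fun c _ => ?_) (fun c _ d _ h => Subtype.ext h)
    (fun g hg => ⟨⟨g, (Finset.mem_filter.1 hg).2⟩, Finset.mem_univ _, rfl⟩) (fun c _ => ?_)).symm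
  · exact Finset.mem_filter.2 ⟨Finset.mem_univ _, c.2⟩
  · rw [H75.ext0_apply, H75.ext0_apply]

/-- the kernel is a reproducing kernel -/
theorem kr_mul [Finite G] (C : Subgroup G) (b : G → FF M) (s s' : G) :
    ∑ᶠ g, kr M C b s g * starRingEnd ℂ (kr M C b s' g) = Nat.card C * kr M C b s s' := by
  classical
  have := Fintype.ofFinite G
  have := Fintype.ofFinite C
  rw [finsum_eq_sum_of_fintype]
  have e1 : ∀ g, kr M C b s g * starRingEnd ℂ (kr M C b s' g) =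
      ∑ κ ∈ (ife_fin (fun t : C => b t)).toFinset, ∑ κ' ∈ (ife_fin (fun t : C => b t)).toFinset,
        (H75.ext0 C κ s * starRingEnd ℂ (H75.ext0 C κ' s')) *
          (H75.ext0 C κ' g * starRingEnd ℂ (H75.ext0 C κ g)) := by
    intro g
    rw [kr_eq, kr_eq, map_sum, Finset.sum_mul_sum]
    refine Finset.sum_congr rfl fun κ _ => Finset.sum_congr rfl fun κ' _ => ?_
    rw [map_mul, starRingEnd_self_apply]
    ring
  rw [Finset.sum_congr rfl fun g _ => e1 g, Finset.sum_comm]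
  have e2 : ∀ κ ∈ (ife_fin (fun t : C => b t)).toFinset,
      ∑ g, ∑ κ' ∈ (ife_fin (fun t : C => b t)).toFinset,
        (H75.ext0 C κ s * starRingEnd ℂ (H75.ext0 C κ' s')) *
          (H75.ext0 C κ' g * starRingEnd ℂ (H75.ext0 C κ g)) =
      Nat.card C * (H75.ext0 C κ s * starRingEnd ℂ (H75.ext0 C κ s')) := by
    intro κ hκ
    rw [Finset.sum_comm]
    simp only [← Finset.mul_sum, ext0_sum]
    rw [Finset.sum_eq_single_of_mem κ hκ]
    · have h1 : ∑ c : C, κ c * starRingEnd ℂ (κ c) = Nat.card C := by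
        have h2 := irr_orth_self (((Set.Finite.mem_toFinset _).1 hκ).1)
        rw [Nat.card_eq_fintype_card, ← h2]
        exact Finset.sum_congr rfl fun c _ => by
          rw [H94.irr_star (((Set.Finite.mem_toFinset _).1 hκ).1)]
      rw [h1]
      ring
    · intro κ' hκ' hne
      have h1 : ∑ c : C, κ' c * starRingEnd ℂ (κ c) = 0 := by
        have h2 := irr_orth_ne (((Set.Finite.mem_toFinset _).1 hκ').1)
          (((Set.Finite.mem_toFinset _).1 hκ).1) hne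
        rw [← h2]
        exact Finset.sum_congr rfl fun c _ => by
          rw [H94.irr_star (((Set.Finite.mem_toFinset _).1 hκ).1)]
      rw [h1, mul_zero]
  rw [Finset.sum_congr rfl e2, ← Finset.mul_sum, kr_eq]

end kern

theorem drop_P {α : Type} {P : α → Prop} {F : α → ℂ} (h : ∀ c, ¬ P c → F c = 0) :
    ∑ᶠ (c : α) (_ : P c), F c = ∑ᶠ c, F c := by
  classical
  refine finsum_congr fun c => ?_
  rw [finsum_eq_if]
  by_cases hc : P c
  · rw [if_pos hc]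
  · rw [if_neg hc, h c hc]

theorem chv_eq {G : Type} [Group G] [Fintype G] (a χ : G → ℂ) : chv a χ = ∑ g, a g * χ g := by
  unfold chv
  rw [finsum_eq_sum_of_fintype]

theorem co3 (hK : KerStmt) : Co3Stmt := by
  intro ℓ _ M _ hM G _ _ u hu b hb s hsC hs s' hsC' hs'
  classical
  have := Fintype.ofFinite G
  obtain ⟨N, -, hN⟩ := H27.prt ℓ G
  have huc : ∀ c ∈ Cu u, u * c = c * u := fun c hc =>
    (Subgroup.mem_centralizer_singleton_iff.1 hc).symm
  have hm : ∀ {t : G}, t ∈ Cu u → Reg ℓ t → ∀ g, kr M (Cu u) b t g ≠ 0 → g ∈ Cu u ∧ Reg ℓ g := by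
    intro t htC ht g hg
    refine ⟨?_, ?_⟩
    · by_contra h
      exact hg (kr_right h)
    · by_contra h
      exact hg (kr_sing hM hb htC ht h)
  set n : ℂ := (Nat.card (Cu u) : ℂ)⁻¹ with hn
  have hns : starRingEnd ℂ n = n := by
    rw [hn, map_inv₀, map_natCast]
  -- the values
  have e0 : ∀ t ∈ Cu u, Reg ℓ t → ∀ χ ∈ Irr G, gv M (Cu u) (u * t) b χ =
      ∑ c, n * kr M (Cu u) b t c * χ (u * c) := by
    intro t htC ht χ hχ
    rw [hK ℓ M hM G u u huc b hb t htC ht χ hχ, drop_P, finsum_eq_sum_of_fintype, Finset.mul_sum]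
    · exact Finset.sum_congr rfl fun c _ => by rw [hn]; ring
    · intro c hc
      have : kr M (Cu u) b t c = 0 := by
        by_contra h
        exact hc (hm htC ht c h)
      rw [this, zero_mul]
  have e1 : ∀ χ ∈ Irr G, gv M (Cu u) (u * s) b χ =
      chv (fun g => n * kr M (Cu u) b s (u⁻¹ * g)) χ := by
    intro χ hχ
    rw [e0 s hsC hs χ hχ, chv_eq, ← Equiv.sum_comp (Equiv.mulLeft u)
      (fun g => n * kr M (Cu u) b s (u⁻¹ * g) * χ g)]
    refine Finset.sum_congr rfl fun g _ => ?_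
    simp only [Equiv.coe_mulLeft, inv_mul_cancel_left]
  have e2 : ∀ χ ∈ Irr G, starRingEnd ℂ (gv M (Cu u) (u * s') b χ) =
      chv (fun g => n * starRingEnd ℂ (kr M (Cu u) b s' (u⁻¹ * g⁻¹))) χ := by
    intro χ hχ
    rw [e0 s' hsC' hs' χ hχ, chv_eq, map_sum]
    refine Fintype.sum_equiv ((Equiv.mulLeft u).trans (Equiv.inv G)) _ _ fun g => ?_
    simp only [Equiv.trans_apply, Equiv.coe_mulLeft, Equiv.inv_apply, inv_inv,
      inv_mul_cancel_left, map_mul, hns]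
    rw [H94.irr_star hχ]
  have e3 : ∑ᶠ χ ∈ Irr G, gv M (Cu u) (u * s) b χ * starRingEnd ℂ (gv M (Cu u) (u * s') b χ) =
      ∑ᶠ χ ∈ Irr G, chv (fun g => n * kr M (Cu u) b s (u⁻¹ * g)) χ *
        chv (fun g => n * starRingEnd ℂ (kr M (Cu u) b s' (u⁻¹ * g⁻¹))) χ := by
    refine finsum_mem_congr rfl fun χ hχ => ?_
    rw [e1 χ hχ, e2 χ hχ]
  rw [e3, Pool.Agent.PP.KF.trc, finsum_eq_sum_of_fintype]
  simp only [finsum_eq_sum_of_fintype]
  rw [← Finset.sum_filter_add_sum_filter_not Finset.univ (fun g => g ∈ Cu u)]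
  have hc : ∑ x ∈ Finset.univ.filter (fun g => ¬ g ∈ Cu u),
      ∑ g, n * kr M (Cu u) b s (u⁻¹ * g) *
        (n * starRingEnd ℂ (kr M (Cu u) b s' (u⁻¹ * (x⁻¹ * g⁻¹ * x)⁻¹))) = 0 := by
    refine Finset.sum_eq_zero fun x hx => Finset.sum_eq_zero fun g _ => ?_
    by_contra hne
    apply (Finset.mem_filter.1 hx).2
    have h1 : kr M (Cu u) b s (u⁻¹ * g) ≠ 0 := right_ne_zero_of_mul (left_ne_zero_of_mul hne)
    have h2 : kr M (Cu u) b s' (u⁻¹ * (x⁻¹ * g⁻¹ * x)⁻¹) ≠ 0 := by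
      intro h
      apply hne
      rw [h, map_zero, mul_zero, mul_zero]
    obtain ⟨hc1, hc2⟩ := hm hsC hs _ h1
    obtain ⟨hd1, hd2⟩ := hm hsC' hs' _ h2
    have k1 : Commute (u⁻¹ * g) u := (huc _ hc1).symm
    have k2 : Commute (u⁻¹ * (x⁻¹ * g⁻¹ * x)⁻¹) u := (huc _ hd1).symm
    have k3 : x⁻¹ * ((u⁻¹ * g) * u) * x = (u⁻¹ * (x⁻¹ * g⁻¹ * x)⁻¹) * u := by
      rw [k1.eq, k2.eq]
      group
    have k4 := T3.H83.part_eq hN hu hu hc2 hd2 k1 k2 k3
    rw [Subgroup.mem_centralizer_singleton_iff]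
    calc x * u = x * (x⁻¹ * u * x) := by rw [k4]
      _ = u * x := by group
  rw [hc, add_zero]
  have hC : ∀ x ∈ Finset.univ.filter (fun g => g ∈ Cu u),
      ∑ g, n * kr M (Cu u) b s (u⁻¹ * g) *
        (n * starRingEnd ℂ (kr M (Cu u) b s' (u⁻¹ * (x⁻¹ * g⁻¹ * x)⁻¹))) =
      n * kr M (Cu u) b s s' := by
    intro x hx
    have hx' : x ∈ Cu u := (Finset.mem_filter.1 hx).2
    have h1 : ∀ g, u⁻¹ * (x⁻¹ * g⁻¹ * x)⁻¹ = x⁻¹ * (u⁻¹ * g) * (x⁻¹)⁻¹ := by
      intro g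
      have h2 : Commute u x := huc x hx'
      have h3 : x⁻¹ * u⁻¹ = u⁻¹ * x⁻¹ := by
        rw [← mul_inv_rev, ← mul_inv_rev, h2.eq]
      calc u⁻¹ * (x⁻¹ * g⁻¹ * x)⁻¹ = (u⁻¹ * x⁻¹) * g * x := by group
        _ = x⁻¹ * (u⁻¹ * g) * (x⁻¹)⁻¹ := by rw [← h3]; group
    simp only [h1, kr_cj_right _ _ (Subgroup.inv_mem _ hx')]
    have h4 := kr_mul (M := M) (Cu u) b s s'
    rw [finsum_eq_sum_of_fintype, ← Equiv.sum_comp (Equiv.mulLeft u⁻¹)] at h4
    simp only [Equiv.coe_mulLeft] at h4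
    have h5 : ∀ g, n * kr M (Cu u) b s (u⁻¹ * g) *
        (n * starRingEnd ℂ (kr M (Cu u) b s' (u⁻¹ * g))) =
        n * n * (kr M (Cu u) b s (u⁻¹ * g) * starRingEnd ℂ (kr M (Cu u) b s' (u⁻¹ * g))) :=
      fun g => by ring
    rw [Finset.sum_congr rfl fun g _ => h5 g, ← Finset.mul_sum, h4, mul_assoc, ← mul_assoc n
      (Nat.card (Cu u) : ℂ), hn, inv_mul_cancel₀ (Nat.cast_ne_zero.2 Nat.card_pos.ne'), one_mul]
  rw [Finset.sum_congr rfl hC, Finset.sum_const, nsmul_eq_mul]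
  have hcard : (Finset.univ.filter (fun g => g ∈ Cu u)).card = Nat.card (Cu u) := by
    rw [Nat.card_eq_fintype_card, Fintype.card_subtype]
  rw [hcard, ← mul_assoc, hn, mul_inv_cancel₀ (Nat.cast_ne_zero.2 Nat.card_pos.ne'), one_mul]

end Pool.Agent.PP.T5.H48
end
end -- Pool.Agent.Helper48_AT5.CO3

section -- Pool.Agent.Helper48_AT5.TWY

/-!
# Squad AT5, row TWY: the contribution of an `ℓ`-element which is conjugate to its power
-/

open scoped BigOperators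

set_option linter.unusedSectionVars false

noncomputable section

namespace Pool.Agent.PP.T5.H48

open Pool.Agent.Helper51_AWC Pool.Agent.Helper79_WRA Pool.Agent.PP Pool.Agent.PP.KF
open Pool.Agent.PP.K9 Pool.Agent.PP.K9.H97 Pool.Agent.PP.H75 Pool.Agent.PP.T3 Pool.Agent.PP.T2

attribute [local instance] Ideal.Quotient.field

/-- the kernel depends only on the restriction -/
theorem kr_res {G : Type} [Group G] {M : Ideal (integralClosure ℤ ℂ)} [M.IsMaximal]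
    {C : Subgroup G} {b b' : G → FF M} (h : (fun t : C => b t) = fun t : C => b' t) (s g : G) :
    kr M C b s g = kr M C b' s g := by
  unfold kr
  rw [h]

theorem gv_res {G : Type} [Group G] {M : Ideal (integralClosure ℤ ℂ)} [M.IsMaximal]
    {C : Subgroup G} {b b' : G → FF M} (h : (fun t : C => b t) = fun t : C => b' t) (w : G)
    (χ : G → ℂ) : gv M C w b χ = gv M C w b' χ := by
  unfold gv
  rw [h]

theorem twy (smg : T3.SmgStmt) (hC : Co3Stmt) : TwyStmt := by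
  intro ℓ _ M _ hM G _ _ e he y hy1 hy n g hg
  classical
  have := Fintype.ofFinite G
  have := Fintype.ofFinite (Cu y)
  have hF : GoodF ℓ (FF M) := H50.fld ℓ Fact.out M hM
  have heC : IsIdem (fun t : Cu y => e t) := T3.H98.idem_cu hF he hy
  -- the restriction of `e`
  set b : G → FF M := H75.ext0 (Cu y) (fun t : Cu y => e t) with hb
  have hbb : (fun t : Cu y => b t) = fun t : Cu y => e t :=
    funext (H75.ext0_apply (Cu y) _)
  have hbx : Ix (Cu y) b := by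
    refine ⟨H75.ext0_supp _ _, ?_⟩
    rw [hbb]
    exact heC
  obtain ⟨f1, f2⟩ := H46.isIdem_sub (H46.isIdem_one (F := FF M) (H := Cu y)) heC
    (H46.one_mulF _)
  have hval : ∀ s ∈ Cu y, Reg ℓ s → ∀ χ ∈ IrrE M e, gv M (Cu y) (y * s) b χ = χ (y * s) := by
    intro s hsC hs χ hχ
    have h1 := (smg ℓ M hM G y s hy1 hy hsC hs _ f1 e he).2 f2 χ hχ
    have h2 : eh M (dl (FF M) (1 : Cu y)) = eh M (fun t : Cu y => e t) +
        eh M (dl (FF M) (1 : Cu y) - fun t : Cu y => e t) := by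
      rw [← T3.H98.eh_add heC f1 f2, add_sub_cancel]
    have h3 : gbv (Cu y) (y * s) (eh M (dl (FF M) (1 : Cu y))) χ = χ (y * s) := by
      rw [gbv, finsum_eq_sum_of_fintype, T3.H98.eh_one, Finset.sum_eq_single (1 : Cu y)]
      · unfold dl
        rw [if_pos rfl, one_mul, Subgroup.coe_one, mul_one]
      · intro t _ ht
        unfold dl
        rw [if_neg ht, zero_mul]
      · intro h
        exact absurd (Finset.mem_univ _) h
    have h4 : gbv (Cu y) (y * s) (eh M (dl (FF M) (1 : Cu y))) χ =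
        gbv (Cu y) (y * s) (eh M (fun t : Cu y => e t)) χ +
        gbv (Cu y) (y * s) (eh M (dl (FF M) (1 : Cu y) - fun t : Cu y => e t)) χ := by
      rw [h2, gbv, gbv, gbv, finsum_eq_sum_of_fintype, finsum_eq_sum_of_fintype,
        finsum_eq_sum_of_fintype, ← Finset.sum_add_distrib]
      refine Finset.sum_congr rfl fun t _ => ?_
      rw [Pi.add_apply, add_mul]
    rw [h1, add_zero, h3] at h4
    rw [gv, hbb, ← h4]
  have hzero : ∀ s ∈ Cu y, Reg ℓ s → ∀ χ ∈ Irr G, χ ∉ IrrE M e →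
      gv M (Cu y) (y * s) b χ = 0 := by
    intro s hsC hs χ hχ hne
    rw [gv, hbb]
    exact (smg ℓ M hM G y s hy1 hy hsC hs _ heC e he).1 heC.2 χ hχ hne
  -- the inner products
  have hin : ∀ s ∈ Cu y, Reg ℓ s → ∀ s' ∈ Cu y, Reg ℓ s' →
      ∑ᶠ χ ∈ IrrE M e, χ (y * s') * starRingEnd ℂ (χ (y * s)) = kr M (Cu y) e s' s := by
    intro s hsC hs s' hsC' hs'
    rw [← kr_res hbb, ← hC ℓ M hM G y hy b hbx s' hsC' hs' s hsC hs,
      finsum_mem_eq_finite_toFinset_sum _ (ife_fin e),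
      finsum_mem_eq_finite_toFinset_sum _ (irr_finite' (G := G))]
    have h1 : ∑ χ ∈ (ife_fin e).toFinset, χ (y * s') * starRingEnd ℂ (χ (y * s)) =
        ∑ χ ∈ (ife_fin e).toFinset,
          gv M (Cu y) (y * s') b χ * starRingEnd ℂ (gv M (Cu y) (y * s) b χ) := by
      refine Finset.sum_congr rfl fun χ hχ => ?_
      rw [Set.Finite.mem_toFinset] at hχ
      rw [hval s' hsC' hs' χ hχ, hval s hsC hs χ hχ]
    rw [h1]
    apply Finset.sum_subset
    · intro χ hχ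
      exact (Set.Finite.mem_toFinset _).2 ((Set.Finite.mem_toFinset _).1 hχ).1
    · intro χ hχ hne
      rw [hzero s' hsC' hs' χ ((Set.Finite.mem_toFinset _).1 hχ) (fun h => hne
        ((Set.Finite.mem_toFinset _).2 h)), zero_mul]
  -- the two sides
  rw [tw, ← mul_assoc, mul_inv_cancel₀ (Nat.cast_ne_zero.2 Nat.card_pos.ne'), one_mul]
  refine finsum_congr fun s => finsum_congr fun hs => ?_
  have hs' : g⁻¹ * s * g⁻¹⁻¹ ∈ Cu y := by
    rw [Subgroup.mem_centralizer_singleton_iff]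
    have h1 : Commute s y := Subgroup.mem_centralizer_singleton_iff.1 hs.1
    have h2 : Commute s (g * y * g⁻¹) := by
      rw [hg]
      exact h1.pow_right n
    calc g⁻¹ * s * g⁻¹⁻¹ * y = g⁻¹ * (s * (g * y * g⁻¹)) * g := by group
      _ = g⁻¹ * ((g * y * g⁻¹) * s) * g := by rw [h2.eq]
      _ = y * (g⁻¹ * s * g⁻¹⁻¹) := by group
  have hr' : Reg ℓ (g⁻¹ * s * g⁻¹⁻¹) := by
    have h1 : Reg ℓ s := hs.2
    unfold Reg at h1 ⊢
    have h2 : orderOf (g⁻¹ * s * g⁻¹⁻¹) = orderOf s := by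
      have := orderOf_injective (MulAut.conj g⁻¹).toMonoidHom (MulAut.conj g⁻¹).injective s
      exact this
    rwa [h2]
  rw [← hin s hs.1 hs.2 _ hs' hr']
  refine finsum_mem_congr rfl fun χ hχ => ?_
  congr 1
  have h1 := irr_conj hχ.1 (y * (g⁻¹ * s * g⁻¹⁻¹)) g
  rw [← h1]
  congr 1
  rw [← hg]
  group

end Pool.Agent.PP.T5.H48
end
end -- Pool.Agent.Helper48_AT5.TWY

section -- Pool.Agent.Helper45_ATZ.MMO

/-!
# Squad ATZ, row MMO: orthogonality of the sections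
-/

open scoped BigOperators

noncomputable section

namespace Pool.Agent.PP.TB.H45

open Pool.Agent.Helper51_AWC Pool.Agent.Helper79_WRA Pool.Agent.PP Pool.Agent.PP.KF
open Pool.Agent.PP.K9 Pool.Agent.PP.K9.H97 Pool.Agent.PP.H75 Pool.Agent.PP.T3 Pool.Agent.PP.T2
open Pool.Agent.PP.T5

attribute [local instance] Ideal.Quotient.field

section

variable {G : Type} [Group G] [Fintype G] {M : Ideal (integralClosure ℤ ℂ)} [M.IsMaximal]

open Classical in
/-- the regular elements of the subgroup `C` -/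
def rg (ℓ : ℕ) (C : Subgroup G) : Finset G := Finset.univ.filter (fun s => s ∈ C ∧ Reg ℓ s)

theorem mem_rg {ℓ : ℕ} {C : Subgroup G} {s : G} : s ∈ rg ℓ C ↔ s ∈ C ∧ Reg ℓ s := by
  classical
  unfold rg
  rw [Finset.mem_filter]
  exact ⟨fun h => h.2, fun h => ⟨Finset.mem_univ _, h⟩⟩

theorem fsum_rg (ℓ : ℕ) (C : Subgroup G) (F : G → ℂ) :
    ∑ᶠ (s : G) (_ : s ∈ C ∧ Reg ℓ s), F s = ∑ s ∈ rg ℓ C, F s := by
  classical
  unfold rg
  rw [Finset.sum_filter, ← finsum_eq_sum_of_fintype]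
  exact finsum_congr fun c => finsum_eq_if

theorem mm_eq (ℓ : ℕ) (C : Subgroup G) (w : G) (b : G → FF M) (χ ψ : G → ℂ) :
    mm M ℓ C w b χ ψ = (Nat.card C : ℂ)⁻¹ * ∑ s ∈ rg ℓ C,
      gv M C (w * s) b χ * starRingEnd ℂ (gv M C (w * s) b ψ) := by
  unfold mm
  rw [fsum_rg]

theorem kr_star (C : Subgroup G) (b : G → FF M) (s g : G) :
    starRingEnd ℂ (T5.kr M C b s g) = T5.kr M C b g s := by
  rw [T5.H48.kr_eq, T5.H48.kr_eq, map_sum]
  refine Finset.sum_congr rfl fun κ _ => ?_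
  rw [map_mul, Complex.conj_conj, mul_comm]

/-- the kernel is idempotent on the regular elements -/
theorem kr_idem {ℓ : ℕ} [Fact ℓ.Prime] (hM : (ℓ : integralClosure ℤ ℂ) ∈ M)
    {C : Subgroup G} {b : G → FF M} (hb : Ix C b) {s : G} (hs : s ∈ rg ℓ C) (c : G) :
    ∑ t ∈ rg ℓ C, T5.kr M C b s t * T5.kr M C b t c = (Nat.card C : ℂ) * T5.kr M C b s c := by
  obtain ⟨hsC, hsr⟩ := mem_rg.1 hs
  rw [← T5.H48.kr_mul C b s c, ← fsum_rg,
    T5.H48.drop_P (P := fun t : G => t ∈ C ∧ Reg ℓ t)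
      (F := fun t => T5.kr M C b s t * T5.kr M C b t c)]
  · refine finsum_congr fun t => ?_
    rw [kr_star]
  · intro t ht
    have h0 : T5.kr M C b s t = 0 := by
      by_cases htC : t ∈ C
      · exact T5.H48.kr_sing hM hb hsC hsr (fun h => ht ⟨htC, h⟩)
      · exact T5.H48.kr_right htC
    simp only [h0, zero_mul]

/-- the expansion of the sum of the products -/
theorem expand (ℓ : ℕ) (C C' : Subgroup G) (w w' : G) (b b' : G → FF M) (χ₀ : G → ℂ) :
    ∑ᶠ χ ∈ Irr G, mm M ℓ C w b χ χ₀ * starRingEnd ℂ (mm M ℓ C' w' b' χ χ₀) =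
      (Nat.card C : ℂ)⁻¹ * (Nat.card C' : ℂ)⁻¹ * ∑ s ∈ rg ℓ C, ∑ s' ∈ rg ℓ C',
        starRingEnd ℂ (gv M C (w * s) b χ₀) * gv M C' (w' * s') b' χ₀ *
          ∑ᶠ χ ∈ Irr G, gv M C (w * s) b χ * starRingEnd ℂ (gv M C' (w' * s') b' χ) := by
  classical
  have hfin : (Irr G).Finite := T3.H49.irr_fin G
  rw [finsum_mem_eq_finite_toFinset_sum _ hfin]
  have h1 : ∀ χ ∈ hfin.toFinset,
      mm M ℓ C w b χ χ₀ * starRingEnd ℂ (mm M ℓ C' w' b' χ χ₀) =
        (Nat.card C : ℂ)⁻¹ * (Nat.card C' : ℂ)⁻¹ * ∑ s ∈ rg ℓ C, ∑ s' ∈ rg ℓ C',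
          starRingEnd ℂ (gv M C (w * s) b χ₀) * gv M C' (w' * s') b' χ₀ *
            (gv M C (w * s) b χ * starRingEnd ℂ (gv M C' (w' * s') b' χ)) := by
    intro χ _
    rw [mm_eq, mm_eq, map_mul, map_inv₀, map_natCast, map_sum, mul_mul_mul_comm,
      Finset.sum_mul_sum]
    congr 1
    refine Finset.sum_congr rfl fun s _ => Finset.sum_congr rfl fun s' _ => ?_
    rw [map_mul, Complex.conj_conj]
    ring
  rw [Finset.sum_congr rfl h1, ← Finset.mul_sum, Finset.sum_comm]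
  congr 1
  refine Finset.sum_congr rfl fun s _ => ?_
  rw [Finset.sum_comm]
  refine Finset.sum_congr rfl fun s' _ => ?_
  rw [finsum_mem_eq_finite_toFinset_sum _ hfin, Finset.mul_sum]

end

theorem mmo (zcp : ZcpStmt) (co3 : T5.Co3Stmt) (co5 : T5.Co5Stmt) (ker : T5.KerStmt) :
    MmoStmt := by
  intro ℓ hℓ M _ hM G _ _ e V Z γ b hZ z hz z' hz' χ₀ hχ₀
  classical
  have := Fintype.ofFinite G
  have hEl : ∀ y ∈ Z, El ℓ y := by
    intro y hy
    obtain ⟨n, hn⟩ := hZ.tp.pg ⟨y, hZ.le hy⟩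
    exact ⟨n, congrArg Subtype.val hn⟩
  have hIx : ∀ y ∈ Z, Ix (Cu y) (b y) := fun y hy => (hZ.lb y hy).1.bx.ix
  constructor
  · rintro ⟨t, ht, htz⟩
    -- the same sections
    have h1 : ∀ χ ∈ Irr G, mm M ℓ (Cu z') z' (b z') χ χ₀ = mm M ℓ (Cu z) z (b z) χ χ₀ := by
      intro χ hχ
      have h2 := ((zcp ℓ M hM G e V Z γ b hZ).1 z' hz' t ht).2.2 χ hχ χ₀ hχ₀
      rw [htz] at h2
      exact h2.symm
    have h2 : ∑ᶠ χ ∈ Irr G, mm M ℓ (Cu z) z (b z) χ χ₀ *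
        starRingEnd ℂ (mm M ℓ (Cu z') z' (b z') χ χ₀) =
        ∑ᶠ χ ∈ Irr G, mm M ℓ (Cu z) z (b z) χ χ₀ *
        starRingEnd ℂ (mm M ℓ (Cu z) z (b z) χ χ₀) :=
      finsum_mem_congr rfl fun χ hχ => by rw [h1 χ hχ]
    rw [h2, expand]
    set C := Cu z with hC
    set f : G → ℂ := fun s => gv M C (z * s) (b z) χ₀ with hf
    have hcard : (Nat.card C : ℂ) ≠ 0 := by exact_mod_cast Nat.card_pos.ne'
    have hzc : ∀ c ∈ Cu z, z * c = c * z := fun c hc =>
      (Subgroup.mem_centralizer_singleton_iff.1 hc).symm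
    -- the kernel fixes `f`
    have hfix : ∀ s ∈ rg ℓ C, ∑ s' ∈ rg ℓ C, f s' * T5.kr M C (b z) s s' =
        (Nat.card C : ℂ) * f s := by
      intro s hs
      have hk : ∀ t ∈ rg ℓ C, f t = (Nat.card C : ℂ)⁻¹ *
          ∑ c ∈ rg ℓ C, T5.kr M C (b z) t c * χ₀ (z * c) := by
        intro t ht
        obtain ⟨htC, htr⟩ := mem_rg.1 ht
        rw [← fsum_rg]
        exact ker ℓ M hM G z z hzc (b z) (hIx z hz) t htC htr χ₀ hχ₀
      have e1 : ∑ s' ∈ rg ℓ C, f s' * T5.kr M C (b z) s s' =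
          ∑ s' ∈ rg ℓ C, ∑ c ∈ rg ℓ C, (Nat.card C : ℂ)⁻¹ * χ₀ (z * c) *
            (T5.kr M C (b z) s s' * T5.kr M C (b z) s' c) := by
        refine Finset.sum_congr rfl fun s' hs' => ?_
        rw [hk s' hs', mul_assoc, Finset.sum_mul, Finset.mul_sum]
        refine Finset.sum_congr rfl fun c _ => ?_
        ring
      rw [e1, Finset.sum_comm, hk s hs, Finset.mul_sum, Finset.mul_sum]
      refine Finset.sum_congr rfl fun c _ => ?_
      rw [← Finset.mul_sum, kr_idem hM (hIx z hz) hs]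
      ring
    have h3 : ∀ s ∈ rg ℓ C, ∑ s' ∈ rg ℓ C,
        starRingEnd ℂ (gv M C (z * s) (b z) χ₀) * gv M C (z * s') (b z) χ₀ *
          ∑ᶠ χ ∈ Irr G, gv M C (z * s) (b z) χ * starRingEnd ℂ (gv M C (z * s') (b z) χ) =
        (Nat.card C : ℂ) * (f s * starRingEnd ℂ (f s)) := by
      intro s hs
      have e1 : ∀ s' ∈ rg ℓ C,
          starRingEnd ℂ (gv M C (z * s) (b z) χ₀) * gv M C (z * s') (b z) χ₀ *
          ∑ᶠ χ ∈ Irr G, gv M C (z * s) (b z) χ * starRingEnd ℂ (gv M C (z * s') (b z) χ) =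
          starRingEnd ℂ (f s) * (f s' * T5.kr M C (b z) s s') := by
        intro s' hs'
        rw [co3 ℓ M hM G z (hEl z hz) (b z) (hIx z hz) s (mem_rg.1 hs).1 (mem_rg.1 hs).2 s'
          (mem_rg.1 hs').1 (mem_rg.1 hs').2, mul_assoc]
      rw [Finset.sum_congr rfl e1, ← Finset.mul_sum, hfix s hs]
      ring
    rw [Finset.sum_congr rfl h3, ← Finset.mul_sum, mm_eq, ← mul_assoc, mul_assoc (Nat.card C : ℂ)⁻¹,
      inv_mul_cancel₀ hcard, mul_one]
  · intro hno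
    rw [expand]
    have h0 : ∀ x : G, x * z' * x⁻¹ = z → mulF (b z) (cj x (b z')) = 0 := by
      intro x hx
      have hb1 := (hZ.lb z hz).1.bx
      have hb2 := T3.H49.bx_cj hx (hZ.lb z' hz').1.bx
      rcases hb1.dich hb2 with h | h
      · exact absurd (hZ.fus z hz z' hz' x hx h.symm) hno
      · exact h
    have h1 : ∀ s ∈ rg ℓ (Cu z), ∑ s' ∈ rg ℓ (Cu z'),
        starRingEnd ℂ (gv M (Cu z) (z * s) (b z) χ₀) * gv M (Cu z') (z' * s') (b z') χ₀ *
          ∑ᶠ χ ∈ Irr G, gv M (Cu z) (z * s) (b z) χ *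
            starRingEnd ℂ (gv M (Cu z') (z' * s') (b z') χ) = 0 := by
      intro s hs
      refine Finset.sum_eq_zero fun s' hs' => ?_
      rw [co5 ℓ M hM G z z' (hEl z hz) (hEl z' hz') (b z) (b z') (hIx z hz) (hIx z' hz') h0 s
        (mem_rg.1 hs).1 (mem_rg.1 hs).2 s' (mem_rg.1 hs').1 (mem_rg.1 hs').2, mul_zero]
    rw [Finset.sum_eq_zero h1, mul_zero]

end Pool.Agent.PP.TB.H45
end
end -- Pool.Agent.Helper45_ATZ.MMO

section -- Pool.Agent.Helper1_AT10.BLO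

/-!
# Squad AT10, row BLO: the block may be omitted in one factor
-/

open scoped BigOperators

noncomputable section

namespace Pool.Agent.PP.T10.H1

open Pool.Agent.Helper51_AWC Pool.Agent.Helper79_WRA Pool.Agent.PP Pool.Agent.PP.KF
open Pool.Agent.PP.K9 Pool.Agent.PP.K9.H97 Pool.Agent.PP.H75 Pool.Agent.PP.T3 Pool.Agent.PP.T2
open Pool.Agent.PP.T5 Pool.Agent.PP.TB
open Pool.Agent.PP.T8 (rs pw fv rd Ip Rv)

attribute [local instance] Ideal.Quotient.field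

theorem blo (ker : T5.KerStmt) : BloStmt := by
  intro ℓ _ M _ hM G _ _ u w hw b hb χ hχ ψ hψ
  classical
  have := Fintype.ofFinite G
  obtain ⟨C, hC⟩ : ∃ C : Subgroup G, C = Cu u := ⟨_, rfl⟩
  rw [← hC] at hb ⊢
  have hn : (Nat.card C : ℂ) ≠ 0 := by exact_mod_cast Nat.card_pos.ne'
  rw [TB.H45.mm_eq, TB.H45.fsum_rg]
  congr 1
  have hk : ∀ φ ∈ Irr G, ∀ t ∈ TB.H45.rg ℓ C, gv M C (w * t) b φ = (Nat.card C : ℂ)⁻¹ *
      ∑ c ∈ TB.H45.rg ℓ C, T5.kr M C b t c * φ (w * c) := by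
    intro φ hφ t ht
    obtain ⟨htC, htr⟩ := TB.H45.mem_rg.1 ht
    rw [← TB.H45.fsum_rg, hC]
    rw [hC] at htC
    exact ker ℓ M hM G u w hw b (by rw [← hC]; exact hb) t htC htr φ hφ
  -- the kernel fixes `g`
  have hfix : ∀ c ∈ TB.H45.rg ℓ C, ∑ s ∈ TB.H45.rg ℓ C, T5.kr M C b c s * gv M C (w * s) b χ =
      (Nat.card C : ℂ) * gv M C (w * c) b χ := by
    intro c hc
    calc ∑ s ∈ TB.H45.rg ℓ C, T5.kr M C b c s * gv M C (w * s) b χ
        = ∑ s ∈ TB.H45.rg ℓ C, ∑ d ∈ TB.H45.rg ℓ C,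
            (Nat.card C : ℂ)⁻¹ * (χ (w * d) * (T5.kr M C b c s * T5.kr M C b s d)) := by
          refine Finset.sum_congr rfl fun s hs => ?_
          rw [hk χ hχ s hs, Finset.mul_sum, Finset.mul_sum]
          refine Finset.sum_congr rfl fun d _ => ?_
          ring
      _ = ∑ d ∈ TB.H45.rg ℓ C, (Nat.card C : ℂ)⁻¹ * (χ (w * d) *
            ((Nat.card C : ℂ) * T5.kr M C b c d)) := by
          rw [Finset.sum_comm]
          refine Finset.sum_congr rfl fun d _ => ?_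
          rw [← Finset.mul_sum, ← Finset.mul_sum, TB.H45.kr_idem hM hb hc]
      _ = (Nat.card C : ℂ) * gv M C (w * c) b χ := by
          rw [hk χ hχ c hc, Finset.mul_sum, Finset.mul_sum]
          refine Finset.sum_congr rfl fun d _ => ?_
          ring
  calc ∑ s ∈ TB.H45.rg ℓ C, gv M C (w * s) b χ * starRingEnd ℂ (ψ (w * s))
      = ∑ s ∈ TB.H45.rg ℓ C, (Nat.card C : ℂ)⁻¹ * (starRingEnd ℂ (ψ (w * s)) *
          ∑ t ∈ TB.H45.rg ℓ C, T5.kr M C b s t * gv M C (w * t) b χ) := by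
        refine Finset.sum_congr rfl fun s hs => ?_
        rw [hfix s hs]
        field_simp
    _ = ∑ s ∈ TB.H45.rg ℓ C, ∑ t ∈ TB.H45.rg ℓ C, (Nat.card C : ℂ)⁻¹ *
          (starRingEnd ℂ (ψ (w * s)) * (T5.kr M C b s t * gv M C (w * t) b χ)) := by
        refine Finset.sum_congr rfl fun s _ => ?_
        rw [Finset.mul_sum, Finset.mul_sum]
    _ = ∑ t ∈ TB.H45.rg ℓ C, gv M C (w * t) b χ * starRingEnd ℂ (gv M C (w * t) b ψ) := by
        rw [Finset.sum_comm]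
        refine Finset.sum_congr rfl fun t ht => ?_
        rw [hk ψ hψ t ht, map_mul, map_inv₀, map_natCast, map_sum, Finset.mul_sum, Finset.mul_sum]
        refine Finset.sum_congr rfl fun s _ => ?_
        rw [map_mul, TB.H45.kr_star]
        ring

end Pool.Agent.PP.T10.H1
end
end -- Pool.Agent.Helper1_AT10.BLO

section -- Pool.Agent.Helper9_AT6.BSL

/-!
# Squad AT6, row BSL: Bessel's inequality for the sections
-/

open scoped BigOperators

noncomputable section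

namespace Pool.Agent.PP.T6.H9

open Pool.Agent.Helper51_AWC Pool.Agent.Helper79_WRA Pool.Agent.PP Pool.Agent.PP.KF
open Pool.Agent.PP.K9 Pool.Agent.PP.K9.H97 Pool.Agent.PP.H75 Pool.Agent.PP.T3 Pool.Agent.PP.T2

attribute [local instance] Ideal.Quotient.field

section tools

variable {G : Type} [Group G] {F : Type} [Field F]

/-- the number of the conjugates under the inertial group -/
theorem card_conj_le' [Finite G] (T : Subgroup G) (u : G) (S : Finset G)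
    (hS : ∀ u' ∈ S, ∃ t ∈ T, t * u' * t⁻¹ = u) : S.card ≤ (T ⊓ Cu u).relIndex T := by
  classical
  set C := T ⊓ Cu u with hC
  have hE : C.relIndex T = Nat.card (T ⧸ C.subgroupOf T) := rfl
  have : Fintype (T ⧸ C.subgroupOf T) := Fintype.ofFinite _
  rw [hE, Nat.card_eq_fintype_card, ← Finset.card_univ]
  have h1 : S ⊆ (Finset.univ : Finset (T ⧸ C.subgroupOf T)).image
      (fun q => ((q.out : T) : G) * u * ((q.out : T) : G)⁻¹) := by
    intro u' hu'
    obtain ⟨t, ht, htu⟩ := hS u' hu'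
    rw [Finset.mem_image]
    let t' : T := ⟨t, ht⟩
    let q : T ⧸ C.subgroupOf T := ((t'⁻¹ : T) : T ⧸ C.subgroupOf T)
    refine ⟨q, Finset.mem_univ _, ?_⟩
    have hc : ((t'⁻¹ : T)⁻¹ * q.out) ∈ C.subgroupOf T := by
      rw [← QuotientGroup.eq]
      exact (Quotient.out_eq' q).symm
    rw [Subgroup.mem_subgroupOf] at hc
    set c : T := (t'⁻¹ : T)⁻¹ * q.out with hcd
    have h4 : ((q.out : T) : G) = t⁻¹ * (c : G) := by
      simp [t', hcd]
    have h3 : (c : G) * u = u * c :=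
      Subgroup.mem_centralizer_singleton_iff.1 (Subgroup.mem_inf.1 hc).2
    rw [h4]
    calc t⁻¹ * (c : G) * u * (t⁻¹ * (c : G))⁻¹ = t⁻¹ * ((c : G) * u) * (c : G)⁻¹ * t := by group
      _ = t⁻¹ * (u * (c : G)) * (c : G)⁻¹ * t := by rw [h3]
      _ = t⁻¹ * u * t := by group
      _ = u' := by
        rw [← htu]
        group
  exact le_trans (Finset.card_le_card h1) Finset.card_image_le

theorem cen_le_cu {V : Subgroup G} {v : G} (hv : v ∈ V) :
    Subgroup.centralizer (V : Set G) ≤ Cu v := by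
  intro c hc
  rw [Subgroup.mem_centralizer_singleton_iff]
  exact (Subgroup.mem_centralizer_iff.1 hc v hv).symm

/-- the norm of the sum of vectors which are orthogonal if they are not related -/
theorem pair_sum {κ : Type} [Fintype κ] (q : Finset G) (z : G → κ → ℂ) (R : G → G → Prop)
    [DecidableRel R] (hs : ∀ v ∈ q, ∀ w ∈ q, R v w → R w v)
    (h0 : ∀ v ∈ q, ∀ w ∈ q, ¬ R v w → ∑ k, z v k * starRingEnd ℂ (z w k) = 0) :
    ∑ k, Complex.normSq (∑ v ∈ q, z v k) ≤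
      ∑ v ∈ q, ((q.filter (fun w => R v w)).card : ℝ) * ∑ k, Complex.normSq (z v k) := by
  classical
  have h1 : ∀ v w, (∑ k, z v k * starRingEnd ℂ (z w k)).re ≤
      (∑ k, Complex.normSq (z v k) + ∑ k, Complex.normSq (z w k)) / 2 := by
    intro v w
    rw [Complex.re_sum, ← Finset.sum_add_distrib, Finset.sum_div]
    refine Finset.sum_le_sum fun k _ => ?_
    rw [Complex.mul_re, Complex.conj_re, Complex.conj_im, Complex.normSq_apply,
      Complex.normSq_apply]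
    nlinarith [sq_nonneg ((z v k).re - (z w k).re), sq_nonneg ((z v k).im - (z w k).im)]
  have h2 : ∑ k, Complex.normSq (∑ v ∈ q, z v k) =
      ∑ v ∈ q, ∑ w ∈ q, (∑ k, z v k * starRingEnd ℂ (z w k)).re := by
    have h3 : ∀ k, Complex.normSq (∑ v ∈ q, z v k) =
        ∑ v ∈ q, ∑ w ∈ q, (z v k * starRingEnd ℂ (z w k)).re := by
      intro k
      have h4 : ((Complex.normSq (∑ v ∈ q, z v k) : ℝ) : ℂ) =
          ∑ v ∈ q, ∑ w ∈ q, z v k * starRingEnd ℂ (z w k) := by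
        rw [← Complex.mul_conj, map_sum, Finset.sum_mul_sum]
      have h5 := congrArg Complex.re h4
      rw [Complex.ofReal_re, Complex.re_sum] at h5
      rw [h5]
      exact Finset.sum_congr rfl fun v _ => Complex.re_sum _ _
    simp only [h3, Complex.re_sum]
    rw [Finset.sum_comm]
    refine Finset.sum_congr rfl fun v _ => ?_
    rw [Finset.sum_comm]
  have h3 : ∀ v ∈ q, ∀ w ∈ q, (∑ k, z v k * starRingEnd ℂ (z w k)).re ≤
      (if R v w then (∑ k, Complex.normSq (z v k)) / 2 else 0) +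
        (if R v w then (∑ k, Complex.normSq (z w k)) / 2 else 0) := by
    intro v hv w hw
    by_cases h : R v w
    · rw [if_pos h, if_pos h, ← add_div]
      exact h1 v w
    · rw [if_neg h, if_neg h, h0 v hv w hw h, Complex.zero_re, add_zero]
  rw [h2]
  have h4 : ∑ v ∈ q, ∑ w ∈ q, (if R v w then (∑ k, Complex.normSq (z w k)) / 2 else 0) =
      ∑ v ∈ q, ∑ w ∈ q, (if R v w then (∑ k, Complex.normSq (z v k)) / 2 else 0) := by
    rw [Finset.sum_comm]
    refine Finset.sum_congr rfl fun v hv => Finset.sum_congr rfl fun w hw => ?_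
    by_cases h : R v w
    · rw [if_pos h, if_pos (hs v hv w hw h)]
    · rw [if_neg h, if_neg fun h' => h (hs w hw v hv h')]
  have h5 : ∀ v ∈ q, ∑ w ∈ q, (if R v w then (∑ k, Complex.normSq (z v k)) / 2 else 0) =
      ((q.filter (fun w => R v w)).card : ℝ) * ((∑ k, Complex.normSq (z v k)) / 2) := by
    intro v _
    rw [← Finset.sum_filter, Finset.sum_const, nsmul_eq_mul]
  calc ∑ v ∈ q, ∑ w ∈ q, (∑ k, z v k * starRingEnd ℂ (z w k)).re
      ≤ ∑ v ∈ q, ∑ w ∈ q, ((if R v w then (∑ k, Complex.normSq (z v k)) / 2 else 0) +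
        (if R v w then (∑ k, Complex.normSq (z w k)) / 2 else 0)) :=
        Finset.sum_le_sum fun v hv => Finset.sum_le_sum fun w hw => h3 v hv w hw
    _ = ∑ v ∈ q, ((q.filter (fun w => R v w)).card : ℝ) * ((∑ k, Complex.normSq (z v k)) / 2) +
        ∑ v ∈ q, ((q.filter (fun w => R v w)).card : ℝ) *
          ((∑ k, Complex.normSq (z v k)) / 2) := by
        simp only [Finset.sum_add_distrib]
        rw [h4, Finset.sum_congr rfl h5]
    _ = ∑ v ∈ q, ((q.filter (fun w => R v w)).card : ℝ) * ∑ k, Complex.normSq (z v k) := by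
        rw [← Finset.sum_add_distrib]
        exact Finset.sum_congr rfl fun v _ => by ring

theorem fin_P {α β : Type} [AddCommMonoid β] [Fintype α] (P : α → Prop) [DecidablePred P]
    (f : α → β) : ∑ᶠ (s : α) (_ : P s), f s = ∑ s ∈ Finset.univ.filter P, f s := by
  rw [finsum_eq_sum_of_fintype, Finset.sum_filter]
  exact Finset.sum_congr rfl fun s _ => finsum_eq_if

end tools

section norm

variable {G : Type} [Group G] [Finite G] {M : Ideal (integralClosure ℤ ℂ)} [M.IsMaximal]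

/-- Bessel's inequality for the characters of a subgroup -/
theorem bes_one (bes : BesStmt) (C : Subgroup G) (b : G → FF M) (R : Finset G) (y : G → ℂ) :
    ∑ κ ∈ (T5.H48.ife_fin (fun t : C => b t)).toFinset,
      Complex.normSq (∑ s ∈ R, y s * H75.ext0 C κ s) ≤
      (Nat.card C : ℝ) * ∑ s ∈ R, Complex.normSq (y s) := by
  classical
  have := Fintype.ofFinite G
  have := Fintype.ofFinite C
  set S := (T5.H48.ife_fin (fun t : C => b t)).toFinset with hS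
  have hirr : ∀ κ : S, (κ : C → ℂ) ∈ Irr C := fun κ => ((Set.Finite.mem_toFinset _).1 κ.2).1
  have h1 := bes S G (fun κ g => H75.ext0 C κ g) (Nat.card C : ℝ) (by positivity) (by
    intro κ
    rw [Finset.sum_eq_single κ]
    · rw [T5.H48.ext0_sum]
      have h1 : ∑ c : C, (κ : C → ℂ) c * starRingEnd ℂ ((κ : C → ℂ) c) = Nat.card C := by
        have h2 := irr_orth_self (hirr κ)
        rw [Nat.card_eq_fintype_card, ← h2]
        exact Finset.sum_congr rfl fun c _ => by rw [H94.irr_star (hirr κ)]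
      rw [h1, Complex.norm_natCast]
    · intro κ' _ hne
      rw [T5.H48.ext0_sum]
      have h1 : ∑ c : C, (κ : C → ℂ) c * starRingEnd ℂ ((κ' : C → ℂ) c) = 0 := by
        have h2 := irr_orth_ne (hirr κ) (hirr κ') (fun h => hne (Subtype.ext h.symm))
        rw [← h2]
        exact Finset.sum_congr rfl fun c _ => by rw [H94.irr_star (hirr κ')]
      rw [h1, norm_zero]
    · intro h
      exact absurd (Finset.mem_univ _) h) (fun g => if g ∈ R then y g else 0)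
  have h2 : ∀ κ : S, ∑ g, (if g ∈ R then y g else 0) * H75.ext0 C κ g =
      ∑ s ∈ R, y s * H75.ext0 C κ s := by
    intro κ
    rw [← Finset.sum_filter_add_sum_filter_not Finset.univ (fun g => g ∈ R)]
    have h3 : ∑ g ∈ Finset.univ.filter (fun g => ¬ g ∈ R),
        (if g ∈ R then y g else 0) * H75.ext0 C κ g = 0 := by
      refine Finset.sum_eq_zero fun g hg => ?_
      rw [if_neg (Finset.mem_filter.1 hg).2, zero_mul]
    rw [h3, add_zero, Finset.filter_mem_eq_inter, Finset.univ_inter]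
    exact Finset.sum_congr rfl fun g hg => by rw [if_pos hg]
  have h3 : ∑ g, Complex.normSq (if g ∈ R then y g else 0) = ∑ s ∈ R, Complex.normSq (y s) := by
    rw [← Finset.sum_filter_add_sum_filter_not Finset.univ (fun g => g ∈ R)]
    have h3 : ∑ g ∈ Finset.univ.filter (fun g => ¬ g ∈ R),
        Complex.normSq (if g ∈ R then y g else 0) = 0 := by
      refine Finset.sum_eq_zero fun g hg => ?_
      rw [if_neg (Finset.mem_filter.1 hg).2, map_zero]
    rw [h3, add_zero, Finset.filter_mem_eq_inter, Finset.univ_inter]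
    exact Finset.sum_congr rfl fun g hg => by rw [if_pos hg]
  rw [h3] at h1
  simp only [h2] at h1
  rw [← Finset.sum_coe_sort S]
  exact h1

/-- the norm of the vector of one section -/
theorem norm_one (co3 : T5.Co3Stmt) (bes : BesStmt) [Fintype (Irr G)] {ℓ : ℕ} [Fact ℓ.Prime]
    (hM : (ℓ : integralClosure ℤ ℂ) ∈ M) {v : G} (hv : El ℓ v) {b : G → FF M} (hb : Ix (Cu v) b)
    (R : Finset G) (hR : ∀ s ∈ R, s ∈ Cu v ∧ Reg ℓ s) (Y : G → ℂ) :
    ∑ χ : Irr G, Complex.normSq ((Nat.card (Cu v) : ℂ)⁻¹ *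
      ∑ s ∈ R, gv M (Cu v) (v * s) b χ * starRingEnd ℂ (Y s)) ≤
      (Nat.card (Cu v) : ℝ)⁻¹ * ∑ s ∈ R, Complex.normSq (Y s) := by
  classical
  set n : ℂ := (Nat.card (Cu v) : ℂ)⁻¹ with hn
  have hns : starRingEnd ℂ n = n := by
    rw [hn, map_inv₀, map_natCast]
  set S := (T5.H48.ife_fin (fun t : Cu v => b t)).toFinset with hS
  have h1 : ((∑ χ : Irr G, Complex.normSq (n *
      ∑ s ∈ R, gv M (Cu v) (v * s) b χ * starRingEnd ℂ (Y s)) : ℝ) : ℂ) =
      ((Nat.card (Cu v) : ℝ)⁻¹ ^ 2 * ∑ κ ∈ S, Complex.normSq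
        (∑ s ∈ R, starRingEnd ℂ (Y s) * H75.ext0 (Cu v) κ s) : ℝ) := by
    push_cast
    have e1 : ∀ χ : Irr G, ((Complex.normSq (n *
        ∑ s ∈ R, gv M (Cu v) (v * s) b χ * starRingEnd ℂ (Y s)) : ℝ) : ℂ) =
        ∑ s ∈ R, ∑ s' ∈ R, n ^ 2 * (starRingEnd ℂ (Y s) * Y s') *
          (gv M (Cu v) (v * s) b χ * starRingEnd ℂ (gv M (Cu v) (v * s') b χ)) := by
      intro χ
      rw [← Complex.mul_conj, map_mul, hns, map_sum]
      have e2 : n * (∑ s ∈ R, gv M (Cu v) (v * s) b χ * starRingEnd ℂ (Y s)) *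
          (n * ∑ s ∈ R, starRingEnd ℂ (gv M (Cu v) (v * s) b χ * starRingEnd ℂ (Y s))) =
          n ^ 2 * ((∑ s ∈ R, gv M (Cu v) (v * s) b χ * starRingEnd ℂ (Y s)) *
          ∑ s ∈ R, starRingEnd ℂ (gv M (Cu v) (v * s) b χ * starRingEnd ℂ (Y s))) := by ring
      rw [e2, Finset.sum_mul_sum, Finset.mul_sum]
      refine Finset.sum_congr rfl fun s _ => ?_
      rw [Finset.mul_sum]
      refine Finset.sum_congr rfl fun s' _ => ?_
      rw [map_mul, Complex.conj_conj]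
      ring
    rw [Finset.sum_congr rfl fun χ _ => e1 χ, Finset.sum_comm]
    have e3 : ∀ s ∈ R, ∑ χ : Irr G, ∑ s' ∈ R, n ^ 2 * (starRingEnd ℂ (Y s) * Y s') *
          (gv M (Cu v) (v * s) b χ * starRingEnd ℂ (gv M (Cu v) (v * s') b χ)) =
        ∑ s' ∈ R, n ^ 2 * (starRingEnd ℂ (Y s) * Y s') * T5.kr M (Cu v) b s s' := by
      intro s hs
      rw [Finset.sum_comm]
      refine Finset.sum_congr rfl fun s' hs' => ?_
      rw [← Finset.mul_sum]
      have e4 := co3 ℓ M hM G v hv b hb s (hR s hs).1 (hR s hs).2 s' (hR s' hs').1 (hR s' hs').2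
      rw [T3.H49.finsum_mem_fintype] at e4
      rw [e4]
    rw [Finset.sum_congr rfl e3]
    have e5 : ∀ κ ∈ S, ((Complex.normSq
        (∑ s ∈ R, starRingEnd ℂ (Y s) * H75.ext0 (Cu v) κ s) : ℝ) : ℂ) =
        ∑ s ∈ R, ∑ s' ∈ R, (starRingEnd ℂ (Y s) * Y s') *
          (H75.ext0 (Cu v) κ s * starRingEnd ℂ (H75.ext0 (Cu v) κ s')) := by
      intro κ _
      rw [← Complex.mul_conj, map_sum, Finset.sum_mul_sum]
      refine Finset.sum_congr rfl fun s _ => Finset.sum_congr rfl fun s' _ => ?_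
      rw [map_mul, Complex.conj_conj]
      ring
    rw [Finset.sum_congr rfl e5]
    have e6 : ∑ κ ∈ S, ∑ s ∈ R, ∑ s' ∈ R, (starRingEnd ℂ (Y s) * Y s') *
          (H75.ext0 (Cu v) κ s * starRingEnd ℂ (H75.ext0 (Cu v) κ s')) =
        ∑ s ∈ R, ∑ s' ∈ R, (starRingEnd ℂ (Y s) * Y s') * T5.kr M (Cu v) b s s' := by
      rw [Finset.sum_comm]
      refine Finset.sum_congr rfl fun s _ => ?_
      rw [Finset.sum_comm]
      refine Finset.sum_congr rfl fun s' _ => ?_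
      rw [← Finset.mul_sum, T5.H48.kr_eq]
    rw [e6, Finset.mul_sum]
    refine Finset.sum_congr rfl fun s _ => ?_
    rw [Finset.mul_sum]
    refine Finset.sum_congr rfl fun s' _ => ?_
    rw [hn]
    ring
  have h2 := Complex.ofReal_injective h1
  rw [h2]
  have h3 := bes_one bes (Cu v) b R (fun s => starRingEnd ℂ (Y s))
  simp only [Complex.normSq_conj] at h3
  have h4 : (0 : ℝ) < Nat.card (Cu v) := by exact_mod_cast Nat.card_pos
  calc (Nat.card (Cu v) : ℝ)⁻¹ ^ 2 * ∑ κ ∈ S, Complex.normSq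
        (∑ s ∈ R, starRingEnd ℂ (Y s) * H75.ext0 (Cu v) κ s)
      ≤ (Nat.card (Cu v) : ℝ)⁻¹ ^ 2 * ((Nat.card (Cu v) : ℝ) * ∑ s ∈ R, Complex.normSq (Y s)) :=
        mul_le_mul_of_nonneg_left h3 (by positivity)
    _ = (Nat.card (Cu v) : ℝ)⁻¹ * ∑ s ∈ R, Complex.normSq (Y s) := by
        field_simp

end norm

/-- BSL -/
theorem bsl (co3 : T5.Co3Stmt) (co5 : T5.Co5Stmt) (fus : FusStmt) : BslStmt := by
  intro ℓ hℓ M _ hM G _ _ e V γ hL q hq b hb Y
  classical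
  have bes : BesStmt := T3.H89.bes
  have := Fintype.ofFinite G
  have : Finite (Irr G) := (T3.H49.irr_fin G).to_subtype
  have := Fintype.ofFinite (Irr G)
  have hEl : ∀ v ∈ q, El ℓ v := by
    intro v hv
    obtain ⟨n, hn⟩ := hL.tp.pg ⟨v, hq v hv⟩
    exact ⟨n, congrArg Subtype.val hn⟩
  let R : G → Finset G := fun v => Finset.univ.filter (fun s => s ∈ Cu v ∧ Reg ℓ s)
  have hR : ∀ v, ∀ s ∈ R v, s ∈ Cu v ∧ Reg ℓ s := fun v s hs => (Finset.mem_filter.1 hs).2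
  let z : G → Irr G → ℂ := fun v χ => (Nat.card (Cu v) : ℂ)⁻¹ *
    ∑ s ∈ R v, gv M (Cu v) (v * s) (b v) χ * starRingEnd ℂ (Y v s)
  have hz : ∀ v (χ : Irr G), (Nat.card (Cu v) : ℂ)⁻¹ *
      ∑ᶠ (s : G) (_ : s ∈ Cu v ∧ Reg ℓ s),
        gv M (Cu v) (v * s) (b v) χ * starRingEnd ℂ (Y v s) = z v χ := by
    intro v χ
    rw [fin_P]
  have hY : ∀ v, ∑ᶠ (s : G) (_ : s ∈ Cu v ∧ Reg ℓ s), Complex.normSq (Y v s) =
      ∑ s ∈ R v, Complex.normSq (Y v s) := fun v => fin_P _ _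
  rw [T3.H49.finsum_mem_fintype]
  have h0 : ∀ v ∈ q, ∀ w ∈ q, (¬ ∃ t ∈ Tg V γ, t * w * t⁻¹ = v) →
      ∑ k, z v k * starRingEnd ℂ (z w k) = 0 := by
    intro v hv w hw hno
    have h1 : ∀ k : Irr G, z v k * starRingEnd ℂ (z w k) =
        ∑ s ∈ R v, ∑ s' ∈ R w, ((Nat.card (Cu v) : ℂ)⁻¹ * (Nat.card (Cu w) : ℂ)⁻¹ *
          (starRingEnd ℂ (Y v s) * Y w s')) *
          (gv M (Cu v) (v * s) (b v) k * starRingEnd ℂ (gv M (Cu w) (w * s') (b w) k)) := by
      intro k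
      change ((Nat.card (Cu v) : ℂ)⁻¹ *
        ∑ s ∈ R v, gv M (Cu v) (v * s) (b v) k * starRingEnd ℂ (Y v s)) *
        starRingEnd ℂ ((Nat.card (Cu w) : ℂ)⁻¹ *
        ∑ s ∈ R w, gv M (Cu w) (w * s) (b w) k * starRingEnd ℂ (Y w s)) = _
      rw [map_mul, map_inv₀, map_natCast, map_sum, mul_mul_mul_comm, Finset.sum_mul_sum,
        Finset.mul_sum]
      refine Finset.sum_congr rfl fun s _ => ?_
      rw [Finset.mul_sum]
      refine Finset.sum_congr rfl fun s' _ => ?_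
      rw [map_mul, Complex.conj_conj]
      ring
    rw [Finset.sum_congr rfl fun k _ => h1 k, Finset.sum_comm]
    refine Finset.sum_eq_zero fun s hs => ?_
    rw [Finset.sum_comm]
    refine Finset.sum_eq_zero fun s' hs' => ?_
    rw [← Finset.mul_sum]
    have h2 := co5 ℓ M hM G v w (hEl v hv) (hEl w hw) (b v) (b w) (hb v hv).blk.ix
      (hb w hw).blk.ix (by
        intro x hx
        rcases (hb v hv).blk.dich (T3.H49.bx_cj hx (hb w hw).blk) with h2 | h2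
        · exfalso
          apply hno
          exact fus ℓ M hM G e V γ hL v (hq v hv) w (hq w hw) (b v) (b w) (hb v hv) (hb w hw) x hx
            h2.symm
        · exact h2) s (hR v s hs).1 (hR v s hs).2 s' (hR w s' hs').1 (hR w s' hs').2
    rw [T3.H49.finsum_mem_fintype] at h2
    rw [h2, mul_zero]
  have h1 : ∑ χ : Irr G, Complex.normSq (∑ v ∈ q, (Nat.card (Cu v) : ℂ)⁻¹ *
      ∑ᶠ (s : G) (_ : s ∈ Cu v ∧ Reg ℓ s),
        gv M (Cu v) (v * s) (b v) χ * starRingEnd ℂ (Y v s)) =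
      ∑ χ : Irr G, Complex.normSq (∑ v ∈ q, z v χ) := by
    refine Finset.sum_congr rfl fun χ _ => ?_
    rw [Finset.sum_congr rfl fun v _ => hz v χ]
  rw [h1]
  refine le_trans (pair_sum q z (fun v w => ∃ t ∈ Tg V γ, t * w * t⁻¹ = v) ?_ h0) ?_
  · rintro v _ w _ ⟨t, ht, rfl⟩
    exact ⟨t⁻¹, (Tg V γ).inv_mem ht, by group⟩
  rw [Finset.mul_sum]
  refine Finset.sum_le_sum fun v hv => ?_
  have h2 : (q.filter (fun w => ∃ t ∈ Tg V γ, t * w * t⁻¹ = v)).card ≤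
      (Tg V γ ⊓ Cu v).relIndex (Tg V γ) :=
    card_conj_le' (Tg V γ) v _ fun w hw => (Finset.mem_filter.1 hw).2
  have h3 : (Subgroup.centralizer (V : Set G)).relIndex (Tg V γ ⊓ Cu v) *
      (Tg V γ ⊓ Cu v).relIndex (Tg V γ) = ix V γ :=
    Subgroup.relIndex_mul_relIndex _ _ _
      (le_inf (T3.H49.cen_le_Tg hL.gam) (cen_le_cu (hq v hv))) inf_le_left
  have h4 : (0 : ℝ) < (Subgroup.centralizer (V : Set G)).relIndex (Tg V γ ⊓ Cu v) := by
    exact_mod_cast Nat.pos_of_ne_zero Subgroup.FiniteIndex.index_ne_zero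
  have h5 := norm_one co3 bes hM (hEl v hv) (hb v hv).blk.ix (R v) (hR v) (Y v)
  have h6 : (0 : ℝ) ≤ (Nat.card (Cu v) : ℝ)⁻¹ * ∑ s ∈ R v, Complex.normSq (Y v s) :=
    mul_nonneg (by positivity) (Finset.sum_nonneg fun s _ => Complex.normSq_nonneg _)
  rw [hY]
  calc ((q.filter (fun w => ∃ t ∈ Tg V γ, t * w * t⁻¹ = v)).card : ℝ) *
        ∑ k, Complex.normSq (z v k)
      ≤ ((Tg V γ ⊓ Cu v).relIndex (Tg V γ) : ℝ) *
        ((Nat.card (Cu v) : ℝ)⁻¹ * ∑ s ∈ R v, Complex.normSq (Y v s)) := by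
        refine mul_le_mul (by exact_mod_cast h2) h5
          (Finset.sum_nonneg fun k _ => Complex.normSq_nonneg _) (by positivity)
    _ = (ix V γ : ℝ) * ((((Subgroup.centralizer (V : Set G)).relIndex (Tg V γ ⊓ Cu v) : ℕ) : ℝ)⁻¹ *
        ((Nat.card (Cu v) : ℝ)⁻¹ * ∑ s ∈ R v, Complex.normSq (Y v s))) := by
        rw [← h3]
        push_cast
        field_simp

end Pool.Agent.PP.T6.H9
end
end -- Pool.Agent.Helper9_AT6.BSL

section -- Pool.Agent.Helper3_ASE.CXV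

/-!
# Row CXV: the functions `cx`
-/

open scoped BigOperators

noncomputable section

namespace Pool.Agent.PP.SE.H3

open Pool.Agent.Helper51_AWC Pool.Agent.Helper79_WRA Pool.Agent.PP Pool.Agent.PP.KF
open Pool.Agent.PP.K9 Pool.Agent.PP.K9.H97 Pool.Agent.PP.H75 Pool.Agent.PP.T3 Pool.Agent.PP.SO
open Pool.Agent.PP.SD

attribute [local instance] Ideal.Quotient.field

section abs

variable {H : Type} [Group H] [Fintype H] {M : Ideal (integralClosure ℤ ℂ)} [M.IsMaximal]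

/-- the lifted idempotent acts by a scalar -/
theorem act_irr (b : H → FF M) {κ : H → ℂ} (hκ : κ ∈ Irr H) (s : H) :
    ∑ r, eh M b r * κ (s * r) = H50.om (eh M b) κ * κ s := by
  rw [← H50.eigen (K9.H25.eh_cl M b) hκ s]
  refine Finset.sum_congr rfl fun r _ => ?_
  have e : s * r = s * (r * s) * s⁻¹ := by group
  rw [e, irr_conj hκ]

/-- the component in a block where all characters are equal at the elements of `P` -/
theorem comp_span (b : H → FF M) {P : H → Prop} {K : H → ℂ} {D : ℂ}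
    (hK : ∀ κ ∈ IrrE M b, (∀ s, P s → κ s = K s) ∧ κ 1 = D) {f : H → ℂ}
    (hf : f ∈ Submodule.span ℂ (Irr H)) (s : H) (hs : P s) :
    (∑ r, eh M b r * f (s * r)) * D = (∑ r, eh M b r * f r) * K s := by
  induction hf using Submodule.span_induction with
  | mem κ hκ =>
    have h1 := act_irr (M := M) b hκ s
    have h2 := act_irr (M := M) b hκ 1
    simp only [one_mul] at h2
    rw [h1, h2]
    by_cases h : κ ∈ IrrE M b
    · obtain ⟨h3, h4⟩ := hK κ h
      rw [h3 s hs, h4]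
      ring
    · rw [(KF.H25.eh_om b hκ).2 h]
      ring
  | zero => simp
  | add f g _ _ hf hg =>
    simp only [Pi.add_apply, mul_add, Finset.sum_add_distrib, add_mul]
    rw [hf, hg]
  | smul a f _ hf =>
    have e : ∀ g : H → H, ∑ r, eh M b r * (a • f) (g r) = a * ∑ r, eh M b r * f (g r) := by
      intro g
      rw [Finset.mul_sum]
      refine Finset.sum_congr rfl fun r _ => ?_
      simp only [Pi.smul_apply, smul_eq_mul]
      ring
    have e1 := e (fun r => s * r)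
    have e2 := e (fun r => r)
    rw [e1, e2, mul_assoc, hf, mul_assoc]

end abs

section top

variable {ℓ : ℕ} [hℓ : Fact ℓ.Prime] {M : Ideal (integralClosure ℤ ℂ)} [M.IsMaximal]
  {V₀ G : Type} [CommGroup V₀] [Finite V₀] [Group G] [Finite G] {E₀ : Subgroup (MulAut V₀)}
  {B : Bk (FF M) V₀ G}

omit [M.IsMaximal] [Finite V₀] [Finite G] hℓ in
theorem reg_coe {H : Subgroup G} (s : H) : Reg ℓ s ↔ Reg ℓ (s : G) := by
  unfold Reg
  rw [Subgroup.orderOf_coe]

omit [Finite V₀] in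
theorem bh_sing (wbo : WboStmt) (hM : (ℓ : integralClosure ℤ ℂ) ∈ M)
    (hB : Sb ℓ M E₀ B) (W : Subgroup V₀) (s : G)
    (hs : ¬ Reg ℓ s) : bh B W s = 0 := by
  classical
  have := Fintype.ofFinite (B.C W)
  by_cases h : s ∈ B.C W
  · have h1 := SO.H33.bh_W B W ⟨s, h⟩
    have h2 := K9.H25.eh_sing wbo ℓ M hM (fun t : B.C W => B.b W t) (hB.lb W).blk.blk.1 ⟨s, h⟩
      (fun h1 => hs ((reg_coe (ℓ := ℓ) (⟨s, h⟩ : B.C W)).1 h1))
    exact h1.trans h2
  · exact SO.H33.bh_not B W h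

omit [M.IsMaximal] [Finite V₀] [Finite G] in
theorem C_anti {W W' : Subgroup V₀} (h : W ≤ W') : B.C W' ≤ B.C W := by
  intro z hz
  rw [SO.H33.mem_C] at hz ⊢
  exact fun w hw => hz w (h hw)

omit [Finite V₀] in
/-- characters are class functions -/
theorem ch_cls {W : Subgroup V₀} {χ : G → ℂ} (hχ : χ ∈ Ch B W) {z g : G} (hz : z ∈ B.C W)
    (hg : g ∈ B.C W) : χ (z * g * z⁻¹) = χ g :=
  irr_conj hχ.2.1 (⟨g, hg⟩ : B.C W) (⟨z, hz⟩ : B.C W)

omit [Finite V₀] in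
/-- the functions `cx` as sums over `C Y` -/
theorem cx_eq (Y : Subgroup V₀) [Fintype (B.C Y)] (y : V₀) (χ : G → ℂ) (s : B.C Y) :
    cx B Y y χ s = ∑ r : B.C Y, eh M (fun t : B.C Y => B.b Y t) r *
      χ (B.i y * ((s * r : B.C Y) : G)) := by
  unfold cx
  rw [H75.sum_sub (B.C Y) (fun r => bh B Y r * χ (B.i y * s * r))
    (fun x hx => by rw [SO.H33.bh_not B Y hx, zero_mul]), finsum_eq_sum_of_fintype]
  refine Finset.sum_congr rfl fun r _ => ?_
  rw [SO.H33.bh_W B Y r, Subgroup.coe_mul, mul_assoc]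

/-- the common value of the characters of `g` at the regular elements -/
theorem ch_top (wbo : WboStmt) (hNsd : NsdStmt) (hM : (ℓ : integralClosure ℤ ℂ) ∈ M) (h2 : ℓ ≠ 2)
    (hFq : Fq ℓ V₀ E₀) (hB : Sd ℓ M E₀ B) :
    (B.D ⊤ : ℂ) ≠ 0 ∧ bh B ⊤ 1 = ℓ ^ 2 * B.D ⊤ ^ 2 / Nat.card (B.C ⊤) ∧
    ∀ κ ∈ Ch B ⊤, ∀ h ∈ B.C ⊤, Reg ℓ h →
      κ h = (Nat.card (B.C ⊤) : ℂ) / (ℓ ^ 2 * B.D ⊤) * bh B ⊤ h⁻¹ := by
  classical
  have hRw : Rw E₀ (⊤ : Subgroup V₀) := by
    refine ⟨?_, ?_⟩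
    · intro h
      have h1 : Nat.card (⊤ : Subgroup V₀) = Nat.card V₀ := Subgroup.card_top
      rw [h, Subgroup.card_bot, hFq.cd] at h1
      have h3 := (Nat.pow_eq_one.1 h1.symm).resolve_right (by norm_num)
      exact hℓ.out.one_lt.ne' h3
    · intro σ _ hσ
      ext v
      exact hσ v (Subgroup.mem_top v)
  obtain ⟨n1, -, -, n4, -, -, n7⟩ := hNsd ℓ M hM h2 V₀ G E₀ hFq B hB ⊤ hRw
  have hD : (B.D ⊤ : ℂ) ≠ 0 := Nat.cast_ne_zero.2 (hB.dg ⊤ hRw).1.ne'
  refine ⟨hD, n7, fun κ hκ h hh hr => ?_⟩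
  have := Fintype.ofFinite V₀
  have := Fintype.ofFinite (B.C ⊤)
  rw [n4 κ hκ h hh, finsum_eq_sum_of_fintype]
  congr 1
  have hfc : ∀ x : V₀, fc B ⊤ x h⁻¹ = bh B ⊤ ((B.i x)⁻¹ * h⁻¹) := by
    intro x
    unfold fc
    have e0 : (⊤ : Subgroup V₀) ⊔ Subgroup.zpowers x = ⊤ := top_sup_eq _
    rw [e0, finsum_eq_sum_of_fintype]
    have hxh : (B.i x)⁻¹ * h⁻¹ ∈ B.C ⊤ :=
      (B.C ⊤).mul_mem ((B.C ⊤).inv_mem (SO.H33.i_mem_C B ⊤ x)) ((B.C ⊤).inv_mem hh)
    have e1 : ∀ z : B.C ⊤, bh B ⊤ ((B.i x)⁻¹ * ((z : G)⁻¹ * h⁻¹ * z)) =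
        bh B ⊤ ((B.i x)⁻¹ * h⁻¹) := by
      intro z
      have hz : B.i x * (z : G) = z * B.i x := (SO.H33.mem_C B).1 z.2 x (Subgroup.mem_top x)
      have e2 : (B.i x)⁻¹ * ((z : G)⁻¹ * h⁻¹ * z) =
          ((z⁻¹ * ⟨(B.i x)⁻¹ * h⁻¹, hxh⟩ * (z⁻¹)⁻¹ : B.C ⊤) : G) := by
        show (B.i x)⁻¹ * ((z : G)⁻¹ * h⁻¹ * z) =
          (z : G)⁻¹ * ((B.i x)⁻¹ * h⁻¹) * ((z : G)⁻¹)⁻¹
        have e3 : (B.i x)⁻¹ * (z : G)⁻¹ = (z : G)⁻¹ * (B.i x)⁻¹ := by
          rw [← mul_inv_rev, ← mul_inv_rev, hz]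
        rw [inv_inv, ← mul_assoc, ← mul_assoc, e3]
        group
      rw [e2, SO.H33.bh_W, K9.H25.eh_cl, ← SO.H33.bh_W]
    rw [Finset.sum_congr rfl fun z _ => e1 z, Finset.sum_const, Finset.card_univ, nsmul_eq_mul,
      ← mul_assoc, Nat.card_eq_fintype_card, inv_mul_cancel₀, one_mul]
    exact_mod_cast Fintype.card_ne_zero
  rw [Finset.sum_eq_single (1 : V₀)]
  · have hl : lam B ⊤ κ 1 = 1 := (n1.mapsTo hκ).1
    have hu : ux B.U ⊤ (1 : V₀) = 1 := by
      unfold ux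
      rw [if_pos (Subgroup.mem_top _)]
    rw [hl, hu, hfc 1, map_one, map_one, Rat.cast_one, div_one, one_mul, inv_one, one_mul]
  · intro x _ hx
    rw [hfc x, bh_sing wbo hM hB.toSb, mul_zero]
    intro h3
    apply hx
    apply hB.inj
    rw [map_one]
    -- `i x` is regular and of order dividing `ℓ`
    have hc : Commute (B.i x) h := (SO.H33.mem_C B).1 hh x (Subgroup.mem_top x)
    have h4 : Reg ℓ ((B.i x)⁻¹ * h⁻¹ * h) := by
      refine T3.H72.reg_mul ?_ h3 hr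
      exact (hc.inv_left.mul_left ((Commute.refl h).inv_left))
    rw [inv_mul_cancel_right] at h4
    have h5 : Reg ℓ (B.i x) := K9.H25.reg_inv.1 h4
    have h6 : orderOf (B.i x) ∣ ℓ := by
      apply orderOf_dvd_of_pow_eq_one
      rw [← map_pow, hFq.ex, map_one]
    have h7 : orderOf (B.i x) = 1 := Nat.Coprime.eq_one_of_dvd h5 h6
    exact orderOf_eq_one_iff.1 h7
  · intro h3
    exact absurd (Finset.mem_univ _) h3

/-- the values of the functions `cx ⊤` -/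
theorem cx_top (wbo : WboStmt) (hNsd : NsdStmt) (hM : (ℓ : integralClosure ℤ ℂ) ∈ M) (h2 : ℓ ≠ 2)
    (hFq : Fq ℓ V₀ E₀) (hB : Sd ℓ M E₀ B) {D : Rd V₀ G} (hRs : Rs ℓ E₀ B D) {W : Subgroup V₀}
    (hW : W ≠ ⊥) {χ : G → ℂ} (hχ : χ ∈ Ch B W) {y : V₀} (hy : y ∉ W ∨ W = ⊤) {s : G}
    (hs : s ∈ B.C ⊤) (hr : Reg ℓ s) :
    cx B ⊤ y χ s = D.D W χ y * ((Nat.card (B.C ⊤) : ℂ) / (ℓ ^ 2 * B.D ⊤) * bh B ⊤ s⁻¹) := by
  classical
  have := Fintype.ofFinite (B.C ⊤)
  obtain ⟨hD, hb1, hK⟩ := ch_top wbo hNsd hM h2 hFq hB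
  have hC : (Nat.card (B.C ⊤) : ℂ) ≠ 0 := by
    exact_mod_cast (Nat.card_pos (α := B.C ⊤)).ne'
  have hl : (ℓ : ℂ) ≠ 0 := Nat.cast_ne_zero.2 hℓ.out.ne_zero
  have hcl : ∀ a b : B.C ⊤, (fun t : B.C ⊤ => χ (B.i y * (t : G))) (b * a * b⁻¹) =
      (fun t : B.C ⊤ => χ (B.i y * (t : G))) a := by
    intro a b
    have hyb : B.i y * (b : G) = b * B.i y := (SO.H33.mem_C B).1 b.2 y (Subgroup.mem_top y)
    have e : B.i y * ((b * a * b⁻¹ : B.C ⊤) : G) = b * (B.i y * a) * (b : G)⁻¹ := by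
      show B.i y * ((b : G) * a * (b : G)⁻¹) = b * (B.i y * a) * (b : G)⁻¹
      rw [← mul_assoc, ← mul_assoc, hyb]
      group
    show χ (B.i y * ((b * a * b⁻¹ : B.C ⊤) : G)) = χ (B.i y * (a : G))
    rw [e]
    refine ch_cls hχ (C_anti le_top b.2) ((B.C W).mul_mem (SO.H33.i_mem_C B W y)
      (C_anti le_top a.2))
  have hspan := T3.H98.span_irr (f := fun t : B.C ⊤ => χ (B.i y * (t : G))) hcl
  have hKK : ∀ κ ∈ IrrE M (fun t : B.C ⊤ => B.b ⊤ t), (∀ s : B.C ⊤, Reg ℓ s → κ s =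
      (Nat.card (B.C ⊤) : ℂ) / (ℓ ^ 2 * B.D ⊤) * bh B ⊤ ((s⁻¹ : B.C ⊤) : G)) ∧
      κ 1 = B.D ⊤ := by
    intro κ hκ
    have hx : PP.ext0 (B.C ⊤) κ ∈ Ch B ⊤ := by
      have h3 : (fun t : B.C ⊤ => PP.ext0 (B.C ⊤) κ t) = κ := by
        funext t
        unfold PP.ext0
        rw [dif_pos t.2]
      refine ⟨?_, ?_⟩
      · intro x hx
        unfold PP.ext0
        rw [dif_neg hx]
      · rw [h3]
        exact hκ
    have hval : ∀ s : B.C ⊤, PP.ext0 (B.C ⊤) κ s = κ s := by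
      intro t
      unfold PP.ext0
      rw [dif_pos t.2]
    have h5 : ∀ s : B.C ⊤, Reg ℓ s → κ s =
        (Nat.card (B.C ⊤) : ℂ) / (ℓ ^ 2 * B.D ⊤) * bh B ⊤ ((s⁻¹ : B.C ⊤) : G) := by
      intro s hs
      rw [← hval s]
      exact hK _ hx s s.2 ((reg_coe s).1 hs)
    refine ⟨h5, ?_⟩
    rw [h5 1 K9.H25.reg_one, inv_one, Subgroup.coe_one, hb1]
    field_simp
  have h6 := comp_span (M := M) (fun t : B.C ⊤ => B.b ⊤ t) hKK hspan ⟨s, hs⟩
    ((reg_coe (⟨s, hs⟩ : B.C ⊤)).2 hr)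
  have h7 := cx_eq (M := M) (B := B) ⊤ y χ ⟨s, hs⟩
  have h8 := hRs.d1 W hW χ hχ y hy
  rw [H75.sum_sub (B.C ⊤) (fun r => bh B ⊤ r * χ (B.i y * r))
    (fun x hx => by rw [SO.H33.bh_not B ⊤ hx, zero_mul]), finsum_eq_sum_of_fintype] at h8
  have h9 : ∑ r : B.C ⊤, bh B ⊤ r * χ (B.i y * r) =
      ∑ r : B.C ⊤, eh M (fun t : B.C ⊤ => B.b ⊤ t) r * χ (B.i y * (r : G)) :=
    Finset.sum_congr rfl fun r _ => by rw [SO.H33.bh_W B ⊤ r]
  rw [h9] at h8
  rw [← h7, ← h8] at h6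
  have h10 : cx B ⊤ y χ s * B.D ⊤ = (B.D ⊤ : ℂ) * D.D W χ y *
      ((Nat.card (B.C ⊤) : ℂ) / (ℓ ^ 2 * B.D ⊤) * bh B ⊤ s⁻¹) := h6
  have h11 : (B.D ⊤ : ℂ) * cx B ⊤ y χ s = (B.D ⊤ : ℂ) * (D.D W χ y *
      ((Nat.card (B.C ⊤) : ℂ) / (ℓ ^ 2 * B.D ⊤) * bh B ⊤ s⁻¹)) := by
    rw [mul_comm, h10, mul_assoc]
  exact mul_left_cancel₀ hD h11

omit [Finite V₀] in
/-- the sum of the squares -/
theorem sum_sq (wbo : WboStmt) (hM : (ℓ : integralClosure ℤ ℂ) ∈ M) (hB : Sb ℓ M E₀ B)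
    (W : Subgroup V₀) :
    ∑ᶠ s ∈ {s : G | s ∈ B.C W ∧ Reg ℓ s}, bh B W s⁻¹ * starRingEnd ℂ (bh B W s⁻¹) =
      bh B W 1 := by
  classical
  have := Fintype.ofFinite G
  have := Fintype.ofFinite (B.C W)
  have h1 : ∑ᶠ s ∈ {s : G | s ∈ B.C W ∧ Reg ℓ s}, bh B W s⁻¹ * starRingEnd ℂ (bh B W s⁻¹) =
      ∑ᶠ s : G, bh B W s⁻¹ * starRingEnd ℂ (bh B W s⁻¹) := by
    rw [finsum_mem_eq_finite_toFinset_sum _ (Set.toFinite _), finsum_eq_sum_of_fintype]
    refine Finset.sum_subset (Finset.subset_univ _) fun s _ hs => ?_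
    rw [Set.Finite.mem_toFinset] at hs
    have h2 : bh B W s⁻¹ = 0 := by
      by_cases h3 : s ∈ B.C W
      · refine bh_sing wbo hM hB W s⁻¹ fun h4 => hs ⟨h3, K9.H25.reg_inv.1 h4⟩
      · exact SO.H33.bh_not B W fun h4 => h3 ((B.C W).inv_mem_iff.1 h4)
    rw [h2, zero_mul]
  rw [h1, H75.sum_sub (B.C W) (fun s => bh B W s⁻¹ * starRingEnd ℂ (bh B W s⁻¹))
    (fun x hx => by
      rw [SO.H33.bh_not B W fun h4 => hx ((B.C W).inv_mem_iff.1 h4), zero_mul]),
    finsum_eq_sum_of_fintype]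
  have h2 := (KF.H25.eh_idem (M := M) (fun t : B.C W => B.b W t)).2
  have h3 := congrFun h2 1
  rw [KF.H25.mulF_eq] at h3
  have h4 := SO.H33.bh_W B W 1
  rw [Subgroup.coe_one] at h4
  rw [h4, ← h3, ← Equiv.sum_comp (Equiv.inv (B.C W))]
  refine Finset.sum_congr rfl fun s _ => ?_
  rw [Equiv.inv_apply, mul_one, Subgroup.coe_inv, inv_inv, SO.H33.bh_W B W s, T3.H83.eh_star]

end top

/-- CXV -/
theorem cxv (wbo : WboStmt) (hNsd : NsdStmt) : CxvStmt := by
  classical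
  intro ℓ _ M _ hM h2 V₀ G _ _ _ _ E₀ hFq B hB D hRs W hW χ hχ y
  have hl : (ℓ : ℂ) ≠ 0 := Nat.cast_ne_zero.2 (Fact.out : ℓ.Prime).ne_zero
  refine ⟨?_, ?_⟩
  · intro hy W' hW' hy' ψ hψ
    obtain ⟨hD, hb1, hK⟩ := ch_top wbo hNsd hM h2 hFq hB
    have hC : (Nat.card (B.C ⊤) : ℂ) ≠ 0 := by
      exact_mod_cast (Nat.card_pos (α := B.C ⊤)).ne'
    have h1 : ∑ᶠ s ∈ {s : G | s ∈ B.C ⊤ ∧ Reg ℓ s}, cx B ⊤ y χ s * starRingEnd ℂ (cx B ⊤ y ψ s) =
        ∑ᶠ s ∈ {s : G | s ∈ B.C ⊤ ∧ Reg ℓ s}, (D.D W χ y * starRingEnd ℂ (D.D W' ψ y) *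
          ((Nat.card (B.C ⊤) : ℂ) / (ℓ ^ 2 * B.D ⊤)) ^ 2) *
          (bh B ⊤ s⁻¹ * starRingEnd ℂ (bh B ⊤ s⁻¹)) := by
      refine finsum_mem_congr rfl fun s hs => ?_
      rw [cx_top wbo hNsd hM h2 hFq hB hRs hW hχ hy hs.1 hs.2,
        cx_top wbo hNsd hM h2 hFq hB hRs hW' hψ hy' hs.1 hs.2]
      simp only [map_mul, map_div₀, map_pow, map_natCast]
      ring
    rw [h1, ← mul_finsum_mem, sum_sq wbo hM hB.toSb ⊤, hb1]
    field_simp
  · intro hy s hs
    have := Fintype.ofFinite (B.C W)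
    have h1 := cx_eq (M := M) (B := B) W y χ ⟨s, hs⟩
    have h3 := act_irr (M := M) (fun t : B.C W => B.b W t) hχ.2.1 (SO.H33.jW B W y * ⟨s, hs⟩)
    rw [(KF.H25.eh_om _ hχ.2.1).1 hχ.2, one_mul] at h3
    have h4 := KF.H32.central_mul hχ.2.1 (SO.H33.jW_cen B W hy) ⟨s, hs⟩
    have h5 : cx B W y χ s = ∑ r : B.C W, eh M (fun t : B.C W => B.b W t) r *
        χ ((SO.H33.jW B W y * ⟨s, hs⟩ * r : B.C W) : G) := by
      rw [show cx B W y χ s = cx B W y χ ((⟨s, hs⟩ : B.C W) : G) from rfl, h1]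
      refine Finset.sum_congr rfl fun r _ => ?_
      rw [mul_assoc (SO.H33.jW B W y)]
      rfl
    rw [h5]
    refine h3.trans ?_
    refine h4.trans ?_
    rfl

end Pool.Agent.PP.SE.H3
end
end -- Pool.Agent.Helper3_ASE.CXV
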