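import Pool.Agent.Helper12_AWB.B125
import Pool.Agent.Helper12_AWB.B164
import Pool.Agent.Helper12_AWB.B169

/-!
# Merged copies (generated) of the modules

* `Pool.Agent.Helper32_AT2.PWU`
* `Pool.Agent.Helper60_AT2.ORJ`
* `Pool.Agent.Helper45_AT8.RKX`
* `Pool.Agent.Helper32_AT2.FST`
* `Pool.Agent.Helper6_AT5.OJ5`
* `Pool.Agent.Helper45_AT6.OR6`
-/

set_option autoImplicit false

section -- Pool.Agent.Helper32_AT2.PWU

/-!
# Squad AT2, module PWU: the subgroup of the powers of an abelian group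
-/

open scoped BigOperators

noncomputable section

namespace Pool.Agent.PP.T2.H32

open Pool.Agent.Helper51_AWC Pool.Agent.Helper79_WRA Pool.Agent.PP Pool.Agent.PP.KF
open Pool.Agent.PP.K9 Pool.Agent.PP.K9.H97 Pool.Agent.PP.H75 Pool.Agent.PP.T3
open Pool.Agent.PP.T2

variable {G : Type} [Group G]

theorem mem_uw {n : ℕ} {V : Subgroup G} (hab : ∀ a ∈ V, ∀ b ∈ V, a * b = b * a) (x : G) :
    x ∈ Uw n V ↔ ∃ v ∈ V, x = v ^ n := by
  constructor
  · intro hx
    refine Subgroup.closure_induction (p := fun y _ => ∃ v ∈ V, y = v ^ n) ?_ ?_ ?_ ?_ hx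
    · rintro y ⟨v, hv, rfl⟩
      exact ⟨v, hv, rfl⟩
    · exact ⟨1, V.one_mem, (one_pow n).symm⟩
    · rintro y z _ _ ⟨v, hv, rfl⟩ ⟨w, hw, rfl⟩
      have hc : Commute v w := hab v hv w hw
      exact ⟨v * w, V.mul_mem hv hw, (hc.mul_pow n).symm⟩
    · rintro y _ ⟨v, hv, rfl⟩
      exact ⟨v⁻¹, V.inv_mem hv, (inv_pow v n).symm⟩
  · rintro ⟨v, hv, rfl⟩
    exact Subgroup.subset_closure ⟨v, hv, rfl⟩

theorem uw_le (n : ℕ) (V : Subgroup G) : Uw n V ≤ V := by
  apply (Subgroup.closure_le V).2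
  rintro y ⟨v, hv, rfl⟩
  exact V.pow_mem hv n

theorem uw_map (n : ℕ) (V : Subgroup G) {H : Type} [Group H] (φ : G →* H) :
    Uw n (V.map φ) = (Uw n V).map φ := by
  unfold Uw
  rw [MonoidHom.map_closure]
  apply congrArg
  ext y
  constructor
  · rintro ⟨x, hx, rfl⟩
    obtain ⟨v, hv, rfl⟩ := hx
    refine ⟨v ^ n, ⟨v, hv, rfl⟩, ?_⟩
    simp
  · rintro ⟨x, ⟨v, hv, rfl⟩, rfl⟩
    refine ⟨φ v, ⟨v, hv, rfl⟩, ?_⟩
    simp

theorem uw_normalizer (n : ℕ) (V : Subgroup G) :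
    Subgroup.normalizer (V : Set G) ≤ Subgroup.normalizer (Uw n V : Set G) := by
  intro g hg
  have key : ∀ g ∈ Subgroup.normalizer (V : Set G), ∀ y ∈ Uw n V, g * y * g⁻¹ ∈ Uw n V := by
    intro g hg y hy
    have h1 : g * y * g⁻¹ ∈ (Uw n V).map (MulAut.conj g).toMonoidHom := ⟨y, hy, by simp⟩
    rw [← uw_map] at h1
    have h2 : V.map (MulAut.conj g).toMonoidHom = V := by
      ext z
      constructor
      · rintro ⟨w, hw, rfl⟩
        exact (Subgroup.mem_normalizer_iff.1 hg w).1 hw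
      · intro hz
        have hg' := (Subgroup.normalizer (V : Set G)).inv_mem hg
        have h3 := (Subgroup.mem_normalizer_iff.1 hg' z).1 hz
        refine ⟨g⁻¹ * z * g⁻¹⁻¹, h3, ?_⟩
        simp
        group
    rwa [h2] at h1
  rw [Subgroup.mem_normalizer_iff]
  intro y
  constructor
  · intro hy
    exact key g hg y hy
  · intro hy
    have h4 := key g⁻¹ ((Subgroup.normalizer (V : Set G)).inv_mem hg) _ hy
    have h5 : g⁻¹ * (g * y * g⁻¹) * g⁻¹⁻¹ = y := by group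
    rwa [h5] at h4

theorem uw_subgroupOf {n : ℕ} {V : Subgroup G} (hab : ∀ a ∈ V, ∀ b ∈ V, a * b = b * a)
    {X : Subgroup G} (hX : V ≤ X) : Uw n (V.subgroupOf X) = (Uw n V).subgroupOf X := by
  have hab' : ∀ a ∈ V.subgroupOf X, ∀ b ∈ V.subgroupOf X, a * b = b * a := by
    intro a ha b hb
    apply Subtype.ext
    exact hab _ ha _ hb
  ext x
  rw [mem_uw hab', Subgroup.mem_subgroupOf, mem_uw hab]
  constructor
  · rintro ⟨v, hv, rfl⟩
    exact ⟨v, hv, by simp⟩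
  · rintro ⟨v, hv, hx⟩
    exact ⟨⟨v, hX hv⟩, hv, Subtype.ext (by simpa using hx)⟩

/-- for an abelian `V` whose exponent is a power of a prime `ℓ`: if `v ^ ℓ^(a-1) = 1` for all
`v ∈ V`, the exponent divides `ℓ ^ (a-1)` -/
theorem exponent_dvd_iff (V : Subgroup G) (m : ℕ) :
    Monoid.exponent V ∣ m ↔ ∀ v ∈ V, v ^ m = 1 := by
  rw [Monoid.exponent_dvd_iff_forall_pow_eq_one]
  constructor
  · intro h v hv
    have := h ⟨v, hv⟩
    exact congrArg Subtype.val this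
  · intro h v
    apply Subtype.ext
    exact h v v.2

theorem uw_exp {ℓ a : ℕ} [hp : Fact ℓ.Prime] (ha : 0 < a) {V : Subgroup G}
    (hab : ∀ a ∈ V, ∀ b ∈ V, a * b = b * a) (he : Monoid.exponent V = ℓ ^ a) :
    Uw (ℓ ^ (a - 1)) V ≠ ⊥ ∧ ∀ (H : Type) [Group H] (φ : G →* H),
      Monoid.exponent (V.map φ) = ℓ ^ a ∨ Uw (ℓ ^ (a - 1)) V ≤ φ.ker := by
  constructor
  · intro hbot
    have h1 : ∀ v ∈ V, v ^ ℓ ^ (a - 1) = 1 := by
      intro v hv
      have h2 : v ^ ℓ ^ (a - 1) ∈ Uw (ℓ ^ (a - 1)) V := (mem_uw hab _).2 ⟨v, hv, rfl⟩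
      rw [hbot] at h2
      exact Subgroup.mem_bot.1 h2
    have h3 := (exponent_dvd_iff V _).2 h1
    rw [he] at h3
    have h4 := (Nat.pow_dvd_pow_iff_le_right hp.out.one_lt).1 h3
    omega
  · intro H _ φ
    have h5 : Monoid.exponent (V.map φ) ∣ ℓ ^ a := by
      rw [exponent_dvd_iff]
      rintro y ⟨v, hv, rfl⟩
      have h6 := (exponent_dvd_iff V (ℓ ^ a)).1 (he ▸ dvd_refl _) v hv
      rw [← map_pow, h6, map_one]
    obtain ⟨k, hk, hk'⟩ := (Nat.dvd_prime_pow hp.out).1 h5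
    by_cases hka : k = a
    · left
      rw [hk', hka]
    · right
      intro x hx
      obtain ⟨v, hv, rfl⟩ := (mem_uw hab _).1 hx
      have h7 : Monoid.exponent (V.map φ) ∣ ℓ ^ (a - 1) := by
        rw [hk']
        apply Nat.pow_dvd_pow
        omega
      have h8 := (exponent_dvd_iff (V.map φ) _).1 h7 (φ v) ⟨v, hv, rfl⟩
      rw [MonoidHom.mem_ker, map_pow]
      exact h8

theorem pwu : PwuStmt := by
  intro G _ _ n V hab
  refine ⟨mem_uw hab, uw_le n V, uw_normalizer n V, ?_, ?_, ?_, ?_, ?_⟩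
  · exact Subgroup.centralizer_le (uw_le n V)
  · intro g
    exact uw_map n V _
  · intro H _ φ
    exact uw_map n V φ
  · intro X hX
    exact uw_subgroupOf hab hX
  · intro ℓ a _ ha he hn
    subst hn
    exact uw_exp ha hab he

end Pool.Agent.PP.T2.H32
end
end -- Pool.Agent.Helper32_AT2.PWU

section -- Pool.Agent.Helper60_AT2.ORJ

/-! Squad AT2, row ORJ: orthogonality for the powers of `u`. -/

open scoped BigOperators

noncomputable section

namespace Pool.Agent.PP.T2.H60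

open Pool.Agent.Helper51_AWC Pool.Agent.Helper79_WRA Pool.Agent.PP Pool.Agent.PP.KF
open Pool.Agent.PP.K9 Pool.Agent.PP.K9.H97 Pool.Agent.PP.H75 Pool.Agent.PP.T3

attribute [local instance] Ideal.Quotient.field

/-- a number which is one modulo `ℓ`, with a power prime to `ℓ` which is one modulo `ℓ ^ k` -/
theorem one_mod {ℓ c m k : ℕ} (hp : ℓ.Prime) (hc : c ≡ 1 [MOD ℓ]) (hm : ¬ ℓ ∣ m)
    (hcm : c ^ m ≡ 1 [MOD ℓ ^ k]) : c ≡ 1 [MOD ℓ ^ k] := by
  set x : ZMod (ℓ ^ k) := (c : ZMod (ℓ ^ k)) with hx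
  have h1 : x ^ m = 1 := by
    rw [hx, ← Nat.cast_pow, ← Nat.cast_one]
    exact (ZMod.natCast_eq_natCast_iff _ _ _).2 hcm
  have h2 : x ^ ℓ ^ k = 1 := by
    have h3 : ((ℓ : ℤ)) ∣ (c : ℤ) - 1 := by
      have := hc.symm.dvd
      rw [Nat.cast_one] at this
      exact this
    have h4 := dvd_sub_pow_of_dvd_sub (R := ℤ) (p := ℓ) h3 k
    rw [one_pow] at h4
    have h5 : ((ℓ ^ k : ℕ) : ℤ) ∣ ((c ^ ℓ ^ k : ℕ) : ℤ) - ((1 : ℕ) : ℤ) := by
      push_cast
      exact (pow_dvd_pow _ (Nat.le_succ k)).trans h4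
    have h6 : 1 ≡ c ^ ℓ ^ k [MOD ℓ ^ k] := (Nat.modEq_iff_dvd).2 h5
    rw [hx, ← Nat.cast_pow, ← Nat.cast_one]
    exact (ZMod.natCast_eq_natCast_iff _ _ _).2 h6.symm
  have h3 : orderOf x ∣ Nat.gcd m (ℓ ^ k) :=
    Nat.dvd_gcd (orderOf_dvd_of_pow_eq_one h1) (orderOf_dvd_of_pow_eq_one h2)
  have h4 : Nat.gcd m (ℓ ^ k) = 1 :=
    Nat.Coprime.pow_right k ((Nat.Prime.coprime_iff_not_dvd hp).2 hm).symm
  rw [h4, Nat.dvd_one, orderOf_eq_one_iff] at h3
  rw [← ZMod.natCast_eq_natCast_iff, Nat.cast_one]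
  exact h3

theorem conj_pow_pow {G : Type} [Group G] {t u : G} {c : ℕ} (h : t * u * t⁻¹ = u ^ c) (m : ℕ) :
    t ^ m * u * (t ^ m)⁻¹ = u ^ c ^ m := by
  induction m with
  | zero => simp
  | succ m ih =>
    have e : t ^ (m + 1) * u * (t ^ (m + 1))⁻¹ = t * (t ^ m * u * (t ^ m)⁻¹) * t⁻¹ := by
      rw [pow_succ']
      group
    rw [e, ih, ← conj_pow, h, ← pow_mul, pow_succ, mul_comm]

/-- the normaliser of `V` normalises the centraliser -/
theorem norm_cent {G : Type} [Group G] (V : Subgroup G) :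
    Subgroup.normalizer (V : Set G) ≤
      Subgroup.normalizer (Subgroup.centralizer (V : Set G) : Set G) := by
  have h0 : ∀ n ∈ Subgroup.normalizer (V : Set G), ∀ x ∈ Subgroup.centralizer (V : Set G),
      n * x * n⁻¹ ∈ Subgroup.centralizer (V : Set G) := by
    intro n hn x hx
    rw [Subgroup.mem_centralizer_iff] at hx ⊢
    intro q hq
    have h1 : n⁻¹ * q * n ∈ V := by
      have h2 := (Subgroup.mem_normalizer_iff.1 (inv_mem hn) q).1 hq
      rwa [inv_inv] at h2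
    have h2 := hx _ h1
    calc q * (n * x * n⁻¹) = n * ((n⁻¹ * q * n) * x) * n⁻¹ := by group
      _ = n * (x * (n⁻¹ * q * n)) * n⁻¹ := by rw [h2]
      _ = (n * x * n⁻¹) * q := by group
  intro n hn
  rw [Subgroup.mem_normalizer_iff]
  intro x
  refine ⟨fun h => h0 n hn x h, fun h => ?_⟩
  have h1 := h0 n⁻¹ (inv_mem hn) _ h
  rwa [show n⁻¹ * (n * x * n⁻¹) * n⁻¹⁻¹ = x by group] at h1

/-- the group theory -/
theorem fix {ℓ : ℕ} (hp : ℓ.Prime) {G : Type} [Group G] [Finite G] {V T : Subgroup G} {u t : G}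
    (hu : u ∈ V) {n : ℕ} (hun : u ^ ℓ ^ n = 1) (hT : T ≤ Subgroup.normalizer (V : Set G))
    (hix : ¬ ℓ ∣ (Subgroup.centralizer (V : Set G)).relIndex T) (ht : t ∈ T) {j j' : ℕ}
    (hj : ¬ ℓ ∣ j) (hjj : j ≡ j' [MOD ℓ]) (htu : t * u ^ j' * t⁻¹ = u ^ j) : u ^ j = u ^ j' := by
  have hj' : ¬ ℓ ∣ j' := by
    intro h
    exact hj ((hjj.dvd_iff (dvd_refl ℓ)).2 h)
  set X := Subgroup.centralizer (V : Set G) with hX
  obtain ⟨r, hr, hro⟩ := (Nat.dvd_prime_pow hp).1 (orderOf_dvd_of_pow_eq_one hun)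
  rcases Nat.eq_zero_or_pos r with h0 | h0
  · rw [h0, pow_zero, orderOf_eq_one_iff] at hro
    rw [hro, one_pow, one_pow]
  -- inverse of j'
  have hcop : Nat.Coprime j' (ℓ ^ r) :=
    Nat.Coprime.pow_right _ ((Nat.Prime.coprime_iff_not_dvd hp).2 hj').symm
  obtain ⟨i, hi⟩ : ∃ i, j' * i ≡ 1 [MOD ℓ ^ r] := by
    obtain ⟨i, hi⟩ := Nat.exists_mul_mod_eq_one_of_coprime hcop (Nat.one_lt_pow h0.ne' hp.one_lt)
    refine ⟨i, ?_⟩
    unfold Nat.ModEq
    rw [hi.2, Nat.mod_eq_of_lt (Nat.one_lt_pow h0.ne' hp.one_lt)]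
  have h1 : u ^ (j' * i) = u := by
    have : u ^ (j' * i) = u ^ 1 := pow_eq_pow_iff_modEq.2 (by rw [hro]; exact hi)
    rw [this, pow_one]
  have h2 : t * u * t⁻¹ = u ^ (j * i) := by
    have h3 : t * u * t⁻¹ = (t * u ^ j' * t⁻¹) ^ i := by
      rw [conj_pow, ← pow_mul, h1]
    rw [h3, htu, ← pow_mul]
  set m := X.relIndex T with hm
  have hnorm : (X.subgroupOf T).Normal :=
    Subgroup.normal_subgroupOf_of_le_normalizer (hT.trans (norm_cent V))
  have h3 : t ^ m ∈ X := by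
    have h4 := Subgroup.pow_index_mem (X.subgroupOf T) ⟨t, ht⟩
    exact Subgroup.mem_subgroupOf.1 h4
  have h4 : u ^ (j * i) ^ m = u := by
    rw [← conj_pow_pow h2 m]
    have h5 := Subgroup.mem_centralizer_iff.1 h3 u hu
    rw [← h5, mul_assoc, mul_inv_cancel, mul_one]
  have h5 : (j * i) ^ m ≡ 1 [MOD ℓ ^ r] := by
    have : u ^ (j * i) ^ m = u ^ 1 := by rw [h4, pow_one]
    rw [← hro]
    exact pow_eq_pow_iff_modEq.1 this
  have h6 : j * i ≡ 1 [MOD ℓ] := by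
    have h7 : j' * i ≡ 1 [MOD ℓ] := hi.of_dvd (dvd_pow_self ℓ h0.ne')
    exact (hjj.mul_right i).trans h7
  have h7 := one_mod hp h6 hix h5
  have h8 : j ≡ j' [MOD ℓ ^ r] := by
    have h9 : j * i * j' ≡ 1 * j' [MOD ℓ ^ r] := h7.mul_right j'
    have h10 : j * (j' * i) ≡ j * 1 [MOD ℓ ^ r] := (Nat.ModEq.refl j).mul hi
    have e : j * i * j' = j * (j' * i) := by ring
    rw [e, one_mul] at h9
    rw [mul_one] at h10
    exact h10.symm.trans h9
  exact pow_eq_pow_iff_modEq.2 (by rw [hro]; exact h8)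

theorem orj (co2 : T3.Co2Stmt) (lpw : T3.LpwStmt) (fus : T3.FusStmt) : OrjStmt := by
  intro ℓ _ M _ hM G _ _ e V γ hL u hu b hb j j' hj hjj hne
  have hp : ℓ.Prime := Fact.out
  have hF : GoodF ℓ (FF M) := H50.fld ℓ Fact.out M hM
  have hj' : ¬ ℓ ∣ j' := by
    intro h
    exact hj ((hjj.dvd_iff (dvd_refl ℓ)).2 h)
  obtain ⟨hC, hLc⟩ := lpw ℓ (FF M) hF G e V γ hL u hu b hb j hj
  obtain ⟨hC', hLc'⟩ := lpw ℓ (FF M) hF G e V γ hL u hu b hb j' hj'
  obtain ⟨n, hn⟩ : ∃ n : ℕ, u ^ ℓ ^ n = 1 := by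
    obtain ⟨n, hn⟩ := hL.tp.pg ⟨u, hu⟩
    refine ⟨n, ?_⟩
    have := congrArg (fun v : V => (v : G)) hn
    exact this
  have hEl : ∀ i : ℕ, El ℓ (u ^ i) := by
    intro i
    refine ⟨n, ?_⟩
    rw [← pow_mul, mul_comm, pow_mul, hn, one_pow]
  have hix : ¬ ℓ ∣ (Subgroup.centralizer (V : Set G)).relIndex (Tg V γ) :=
    K9.H34.inx ℓ M hM G e hL.blk V hL.tp hL.ab γ hL.gam.supp hL.gam.blk hL.und
  have h1 := co2 ℓ M hM G (u ^ j) (u ^ j') (hEl j) (hEl j') b b hLc.blk.ix hLc'.blk.ix ?_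
  · rw [hC, hC'] at h1
    exact h1
  intro x hx
  have hxn : x ∈ Subgroup.normalizer ((Cu u : Subgroup G) : Set G) := by
    have h2 : ∀ z, z ∈ Cu u → x * z * x⁻¹ ∈ Cu u := by
      intro z hz
      rw [← hC'] at hz
      rw [← hC, ← hx]
      have h3 := Subgroup.mem_centralizer_singleton_iff.1 hz
      rw [Subgroup.mem_centralizer_singleton_iff]
      calc x * z * x⁻¹ * (x * u ^ j' * x⁻¹) = x * (z * u ^ j') * x⁻¹ := by group
        _ = x * (u ^ j' * z) * x⁻¹ := by rw [h3]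
        _ = _ := by group
    have h3 : ∀ z, x * z * x⁻¹ ∈ Cu u → z ∈ Cu u := by
      intro z hz
      rw [← hC, ← hx] at hz
      rw [← hC']
      have h3 := Subgroup.mem_centralizer_singleton_iff.1 hz
      rw [Subgroup.mem_centralizer_singleton_iff]
      have h4 : x * (z * u ^ j') * x⁻¹ = x * (u ^ j' * z) * x⁻¹ := by
        calc x * (z * u ^ j') * x⁻¹ = x * z * x⁻¹ * (x * u ^ j' * x⁻¹) := by group
          _ = _ := h3
          _ = x * (u ^ j' * z) * x⁻¹ := by group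
      exact mul_left_cancel (mul_right_cancel h4)
    rw [Subgroup.mem_normalizer_iff]
    exact fun z => ⟨h2 z, h3 z⟩
  rcases hb.blk.dich (hb.blk.cj hxn) with h2 | h2
  · exfalso
    apply hne
    have huj : ∀ i : ℕ, u ^ i ∈ V := fun i => V.pow_mem hu i
    obtain ⟨t, ht, htu⟩ := fus ℓ M hM G e V γ hL (u ^ j) (huj j) (u ^ j') (huj j') b b hLc hLc' x
      hx h2.symm
    exact fix hp hu hn inf_le_left hix ht hj hjj htu
  · exact h2

end Pool.Agent.PP.T2.H60
end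
end -- Pool.Agent.Helper60_AT2.ORJ

section -- Pool.Agent.Helper45_AT8.RKX

/-!
# Squad AT8, rows RKX, XCT
-/

open scoped BigOperators

noncomputable section

namespace Pool.Agent.PP.T8.H45

open Pool.Agent.Helper51_AWC Pool.Agent.Helper79_WRA Pool.Agent.PP Pool.Agent.PP.KF
open Pool.Agent.PP.K9 Pool.Agent.PP.K9.H97 Pool.Agent.PP.H75 Pool.Agent.PP.T3 Pool.Agent.PP.T2

attribute [local instance] Ideal.Quotient.field

/-- an inverse of `j` for the exponents -/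
theorem inv_exp {ℓ : ℕ} (hp : ℓ.Prime) {a j : ℕ} (hj : ¬ ℓ ∣ j) :
    ∃ c : ℕ, ∀ {G : Type} [Group G] (y : G), y ^ ℓ ^ a = 1 → y ^ (j * c) = y := by
  rcases Nat.eq_zero_or_pos a with h0 | h0
  · refine ⟨0, fun y hy => ?_⟩
    rw [h0, pow_zero, pow_one] at hy
    rw [hy, one_pow]
  · have h1 : 1 < ℓ ^ a := Nat.one_lt_pow h0.ne' hp.one_lt
    have hcop : Nat.Coprime j (ℓ ^ a) :=
      Nat.Coprime.pow_right _ ((Nat.Prime.coprime_iff_not_dvd hp).2 hj).symm
    obtain ⟨i, hi⟩ := Nat.exists_mul_mod_eq_one_of_coprime hcop h1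
    refine ⟨i, fun y hy => ?_⟩
    have h2 : y ^ (j * i) = y ^ 1 := by
      apply pow_eq_pow_iff_modEq.2
      have h3 : j * i ≡ 1 [MOD ℓ ^ a] := by
        unfold Nat.ModEq
        rw [hi.2, Nat.mod_eq_of_lt h1]
      exact h3.of_dvd (orderOf_dvd_of_pow_eq_one hy)
    rw [h2, pow_one]

/-- `n - 1` for `n = 1` modulo `ℓ`, `m` prime to `ℓ`: powers -/
theorem pow_sub {ℓ : ℕ} (hp : ℓ.Prime) {r m a : ℕ} (hr : r ≡ 1 [MOD ℓ]) (hm : ¬ ℓ ∣ m)
    {G : Type} [Group G] (W : Subgroup G) (y : G) (hy : y ^ ℓ ^ a = 1)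
    (h : y ^ ((r : ℤ) ^ m - 1) ∈ W) : y ^ ((r : ℤ) - 1) ∈ W := by
  set S : ℤ := ∑ i ∈ Finset.range m, (r : ℤ) ^ i with hS
  have h1 : ((r : ℤ) - 1) * S = (r : ℤ) ^ m - 1 := mul_geom_sum _ _
  have h2 : (r : ℤ) ≡ 1 [ZMOD ℓ] := by
    have := (Int.natCast_modEq_iff (a := r) (b := 1) (n := ℓ)).2 hr
    simpa using this
  have h3 : S ≡ (m : ℤ) [ZMOD ℓ] := by
    have h4 : ∀ n : ℕ, (∑ i ∈ Finset.range n, (r : ℤ) ^ i) ≡ (n : ℤ) [ZMOD ℓ] := by
      intro n
      induction n with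
      | zero => simp
      | succ n ih =>
        rw [Finset.sum_range_succ]
        push_cast
        have h5 := (h2.pow n)
        rw [one_pow] at h5
        exact ih.add h5
    exact h4 m
  have h4 : ¬ (ℓ : ℤ) ∣ S := by
    intro h5
    apply hm
    have h6 : (ℓ : ℤ) ∣ (m : ℤ) := h3.dvd_iff.1 h5
    exact_mod_cast h6
  have h5 : IsCoprime S ((ℓ : ℤ) ^ a) :=
    (((Nat.prime_iff_prime_int.1 hp).coprime_iff_not_dvd.2 h4).symm).pow_right
  obtain ⟨x, z, hxz⟩ := h5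
  have h6 : (r : ℤ) - 1 = ((r : ℤ) ^ m - 1) * x + (ℓ : ℤ) ^ a * (z * ((r : ℤ) - 1)) := by
    rw [← h1]
    linear_combination (-(((r : ℤ) - 1))) * hxz
  have h7 : y ^ ((ℓ : ℤ) ^ a * (z * ((r : ℤ) - 1))) = 1 := by
    rw [zpow_mul]
    have : y ^ ((ℓ : ℤ) ^ a) = 1 := by
      have h8 : ((ℓ : ℤ) ^ a) = ((ℓ ^ a : ℕ) : ℤ) := by push_cast; rfl
      rw [h8, zpow_natCast, hy]
    rw [this, one_zpow]
  rw [h6, zpow_add, h7, mul_one, zpow_mul]
  exact W.zpow_mem h x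

section

variable {G : Type} [Group G] {ℓ a k : ℕ} {V : Subgroup G}

theorem order_yw (hp : ℓ.Prime) (ha : 0 < a) (hk : 0 < k)
    (hab : ∀ a ∈ V, ∀ b ∈ V, a * b = b * a) (hexp : ∀ v ∈ V, v ^ ℓ ^ a = 1) {y v : G} (hy : y ∈ V)
    (hv : v ∈ V) (ho : orderOf y = ℓ ^ a) : orderOf (y * v ^ ℓ ^ k) = ℓ ^ a := by
  obtain ⟨b, rfl⟩ : ∃ b, a = b + 1 := ⟨a - 1, by omega⟩
  have : Fact ℓ.Prime := ⟨hp⟩
  have hc : Commute y (v ^ ℓ ^ k) := hab y hy _ (V.pow_mem hv _)
  refine orderOf_eq_prime_pow ?_ ?_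
  · rw [hc.mul_pow, ← pow_mul v, ← pow_add]
    have h1 : v ^ ℓ ^ (k + b) = 1 := by
      obtain ⟨c, rfl⟩ : ∃ c, k = c + 1 := ⟨k - 1, by omega⟩
      have : ℓ ^ (c + 1 + b) = ℓ ^ (b + 1) * ℓ ^ c := by rw [← pow_add]; congr 1; omega
      rw [this, pow_mul, hexp v hv, one_pow]
    rw [h1, mul_one]
    intro h2
    have h3 := orderOf_dvd_of_pow_eq_one h2
    rw [ho] at h3
    have h4 := (Nat.pow_dvd_pow_iff_le_right hp.one_lt).1 h3
    omega
  · exact hexp _ (V.mul_mem hy (V.pow_mem hv _))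

end

theorem rkx : RkxStmt := by
  intro ℓ _ F _ hF G _ _ e V γ hL hix a k hk hka hexp y hy
  have hp : ℓ.Prime := Fact.out
  have ha : 0 < a := by omega
  have hab := hL.ab
  obtain ⟨hW, hWV, hNW, -⟩ := H32.pwu G (ℓ ^ k) V hab
  set W := Uw (ℓ ^ k) V with hWdef
  have hexpV : ∀ v ∈ V, v ^ ℓ ^ a = 1 := by
    intro v hv
    have h1 := Monoid.pow_exponent_eq_one (⟨v, hv⟩ : V)
    rw [hexp] at h1
    exact congrArg (fun v : V => (v : G)) h1
  have hTN : Tg V γ ≤ Subgroup.normalizer (V : Set G) := inf_le_left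
  have conjV : ∀ t ∈ Tg V γ, ∀ v ∈ V, t * v * t⁻¹ ∈ V := fun t ht v hv =>
    (Subgroup.mem_normalizer_iff.1 (hTN ht) v).1 hv
  have conjW : ∀ t ∈ Tg V γ, ∀ w ∈ W, t * w * t⁻¹ ∈ W := fun t ht w hw =>
    (Subgroup.mem_normalizer_iff.1 (hNW (hTN ht)) w).1 hw
  have key : ∀ t ∈ Tg V γ, ∀ w ∈ W, t * y * t⁻¹ = y * w →
      t ∈ Subgroup.centralizer (V : Set G) := by
    intro t ht w hw h
    obtain ⟨v, hv, rfl⟩ := (hW w).1 hw
    exact hy.reg t ht v hv h
  have comm : ∀ u ∈ V, ∀ w ∈ V, ∀ n : ℕ, (u * w) ^ n = u ^ n * w ^ n := fun u hu w hw n =>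
    (show Commute u w from hab u hu w hw).mul_pow n
  refine ⟨?_, ?_, ?_, ?_⟩
  · intro j hj
    obtain ⟨c, hc⟩ := inv_exp (a := a) hp hj
    refine ⟨V.pow_mem hy.mem _, ?_, ?_⟩
    · have hcop : (orderOf y).Coprime j := by
        rw [hy.ord]
        exact (Nat.Coprime.pow_right _ ((Nat.Prime.coprime_iff_not_dvd hp).2 hj).symm).symm
      rw [hcop.orderOf_pow, hy.ord]
    · intro t ht v hv h
      refine hy.reg t ht (v ^ c) (V.pow_mem hv _) ?_
      have h1 : t * y * t⁻¹ = (t * y ^ j * t⁻¹) ^ c := by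
        rw [conj_pow, ← pow_mul, hc y (hexpV y hy.mem)]
      rw [h1, h, comm _ (V.pow_mem hy.mem _) _ (V.pow_mem hv _), ← pow_mul, hc y (hexpV y hy.mem),
        ← pow_mul, ← pow_mul, Nat.mul_comm]
  · intro w hw
    obtain ⟨v, hv, rfl⟩ := (hW w).1 hw
    have ho := order_yw hp ha hk hab hexpV hy.mem hv hy.ord
    refine ⟨⟨V.mul_mem hy.mem (V.pow_mem hv _), ?_, ?_⟩, ho⟩
    · intro h1
      rw [h1, orderOf_one] at ho
      exact absurd ho (Nat.one_lt_pow ha.ne' hp.one_lt).ne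
    · rintro t ⟨ht, htc⟩
      have h1 : t * (y * v ^ ℓ ^ k) = (y * v ^ ℓ ^ k) * t :=
        (Subgroup.mem_centralizer_iff.1 htc _ rfl).symm
      refine key t ht (v ^ ℓ ^ k * (t * v ^ ℓ ^ k * t⁻¹)⁻¹)
        (W.mul_mem hw (W.inv_mem (conjW t ht _ hw))) ?_
      calc t * y * t⁻¹ = (t * (y * v ^ ℓ ^ k)) * t⁻¹ * (t * v ^ ℓ ^ k * t⁻¹)⁻¹ := by group
        _ = ((y * v ^ ℓ ^ k) * t) * t⁻¹ * (t * v ^ ℓ ^ k * t⁻¹)⁻¹ := by rw [h1]
        _ = y * (v ^ ℓ ^ k * (t * v ^ ℓ ^ k * t⁻¹)⁻¹) := by group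
  · intro j j' hj hjj w hw w' hw' t ht h
    obtain ⟨c, hc⟩ := inv_exp (a := a) hp hj
    -- the element `t` maps `y` to `y ^ r` modulo `W`
    have h1 : ∃ w₁ ∈ W, t * y ^ j * t⁻¹ = y ^ j' * w₁ := by
      refine ⟨w' * (t * w * t⁻¹)⁻¹, W.mul_mem hw' (W.inv_mem (conjW t ht _ hw)), ?_⟩
      calc t * y ^ j * t⁻¹ = (t * (y ^ j * w) * t⁻¹) * (t * w * t⁻¹)⁻¹ := by group
        _ = y ^ j' * w' * (t * w * t⁻¹)⁻¹ := by rw [h]
        _ = _ := by rw [mul_assoc]
    obtain ⟨w₁, hw₁, h1⟩ := h1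
    set r := j' * c with hr
    have h2 : ∃ w₂ ∈ W, t * y * t⁻¹ = y ^ r * w₂ := by
      refine ⟨w₁ ^ c, W.pow_mem hw₁ _, ?_⟩
      have h3 : t * y * t⁻¹ = (t * y ^ j * t⁻¹) ^ c := by
        rw [conj_pow, ← pow_mul, hc y (hexpV y hy.mem)]
      rw [h3, h1, comm _ (V.pow_mem hy.mem _) _ (hWV hw₁), ← pow_mul]
    obtain ⟨w₂, hw₂, h2⟩ := h2
    have hrl : r ≡ 1 [MOD ℓ] := by
      have h3 : y ^ (j * c) = y ^ 1 := by rw [pow_one]; exact hc y (hexpV y hy.mem)
      have h4 := pow_eq_pow_iff_modEq.1 h3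
      rw [hy.ord] at h4
      have h5 := h4.of_dvd (dvd_pow_self ℓ ha.ne')
      exact (hjj.symm.mul_right c).trans h5
    have h3 : ∀ n : ℕ, ∃ w₃ ∈ W, t ^ n * y * (t ^ n)⁻¹ = y ^ r ^ n * w₃ := by
      intro n
      induction n with
      | zero => exact ⟨1, W.one_mem, by simp⟩
      | succ n ih =>
        obtain ⟨w₃, hw₃, h4⟩ := ih
        refine ⟨w₂ ^ r ^ n * (t * w₃ * t⁻¹), W.mul_mem (W.pow_mem hw₂ _) (conjW t ht _ hw₃), ?_⟩
        calc t ^ (n + 1) * y * (t ^ (n + 1))⁻¹ = t * (t ^ n * y * (t ^ n)⁻¹) * t⁻¹ := by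
              rw [pow_succ']
              group
          _ = t * (y ^ r ^ n * w₃) * t⁻¹ := by rw [h4]
          _ = (t * y ^ r ^ n * t⁻¹) * (t * w₃ * t⁻¹) := by group
          _ = (t * y * t⁻¹) ^ r ^ n * (t * w₃ * t⁻¹) := by rw [conj_pow]
          _ = y ^ r ^ (n + 1) * (w₂ ^ r ^ n * (t * w₃ * t⁻¹)) := by
              rw [h2, comm _ (V.pow_mem hy.mem _) _ (hWV hw₂), ← pow_mul, pow_succ' r n, mul_assoc]
    set m := (Subgroup.centralizer (V : Set G)).relIndex (Tg V γ) with hm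
    have hnorm : ((Subgroup.centralizer (V : Set G)).subgroupOf (Tg V γ)).Normal :=
      Subgroup.normal_subgroupOf_of_le_normalizer (hTN.trans (H60.norm_cent V))
    have h4 : t ^ m ∈ Subgroup.centralizer (V : Set G) := by
      have h4 := Subgroup.pow_index_mem ((Subgroup.centralizer (V : Set G)).subgroupOf (Tg V γ))
        ⟨t, ht⟩
      exact Subgroup.mem_subgroupOf.1 h4
    obtain ⟨w₃, hw₃, h5⟩ := h3 m
    have h6 : y ^ ((r : ℤ) ^ m - 1) ∈ W := by
      have h7 : t ^ m * y * (t ^ m)⁻¹ = y := by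
        rw [← Subgroup.mem_centralizer_iff.1 h4 y hy.mem, mul_assoc, mul_inv_cancel, mul_one]
      rw [h7] at h5
      have h8 : y ^ ((r : ℤ) ^ m - 1) = w₃⁻¹ := by
        have h9 : ((r : ℤ) ^ m) = ((r ^ m : ℕ) : ℤ) := by push_cast; rfl
        rw [zpow_sub, zpow_one, h9, zpow_natCast, mul_inv_eq_iff_eq_mul]
        have h10 : w₃ * y = y * w₃ := hab _ (hWV hw₃) _ hy.mem
        have h11 : w₃ * y = w₃ * (y ^ r ^ m) * w₃ := by
          rw [mul_assoc, ← h5]
        have h12 : y = y ^ r ^ m * w₃ := h5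
        calc y ^ r ^ m = (y ^ r ^ m * w₃) * w₃⁻¹ := by group
          _ = y * w₃⁻¹ := by rw [← h12]
          _ = w₃⁻¹ * y := by
            exact hab _ hy.mem _ (V.inv_mem (hWV hw₃))
      rw [h8]
      exact W.inv_mem hw₃
    have h7 := pow_sub hp hrl hix W y (hexpV y hy.mem) h6
    refine key t ht (y ^ ((r : ℤ) - 1) * w₂) (W.mul_mem h7 hw₂) ?_
    rw [h2, ← mul_assoc]
    congr 1
    rw [← zpow_one_add]
    have : 1 + ((r : ℤ) - 1) = ((r : ℕ) : ℤ) := by ring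
    rw [this, zpow_natCast]
  · -- (iv)
    have main : ∀ j j' : ℕ, j ≤ j' → ∀ w ∈ W, ∀ w' ∈ W, y ^ j * w = y ^ j' * w' →
        j ≡ j' [MOD ℓ ^ k] := by
      intro j j' hle w hw w' hw' h
      obtain ⟨n, rfl⟩ := Nat.exists_eq_add_of_le hle
      have h1 : y ^ n ∈ W := by
        have h2 : y ^ n = w * w'⁻¹ := by
          rw [pow_add, mul_assoc] at h
          rw [eq_mul_inv_iff_mul_eq]
          exact (mul_left_cancel h).symm
        rw [h2]
        exact W.mul_mem hw (W.inv_mem hw')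
      obtain ⟨v, hv, h2⟩ := (hW _).1 h1
      have h3 : y ^ (n * ℓ ^ (a - k)) = 1 := by
        rw [pow_mul, h2, ← pow_mul, ← pow_add, Nat.add_sub_cancel' hka]
        exact hexpV v hv
      have h4 := orderOf_dvd_of_pow_eq_one h3
      rw [hy.ord] at h4
      have h5 : ℓ ^ a = ℓ ^ k * ℓ ^ (a - k) := by rw [← pow_add, Nat.add_sub_cancel' hka]
      rw [h5] at h4
      have h6 : ℓ ^ k ∣ n := Nat.dvd_of_mul_dvd_mul_right (pow_pos hp.pos _) h4
      exact (Nat.modEq_iff_dvd' hle).2 (by rwa [Nat.add_sub_cancel_left])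
    intro j j' w hw w' hw' h
    rcases Nat.le_total j j' with hle | hle
    · exact main j j' hle w hw w' hw' h
    · exact (main j' j hle w' hw' w hw h.symm).symm

theorem xct : XctStmt := by
  intro ℓ _ F _ hF G _ _ e V γ hL hix a k hk hka hexp y hy
  obtain ⟨-, h2, h3, -⟩ := rkx ℓ F hF G e V γ hL hix a k hk hka hexp y hy
  obtain ⟨hW, hWV, hNW, -⟩ := H32.pwu G (ℓ ^ k) V hL.ab
  set W := Uw (ℓ ^ k) V with hWdef
  set C := Subgroup.centralizer (V : Set G) with hC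
  have hp : ℓ.Prime := Fact.out
  have hTN : Tg V γ ≤ Subgroup.normalizer (V : Set G) := inf_le_left
  let f : (Tg V γ ⧸ C.subgroupOf (Tg V γ)) × W → G := fun p =>
    ((p.1.out : Tg V γ) : G) * (y * (p.2 : G)) * ((p.1.out : Tg V γ) : G)⁻¹
  have hinj : Function.Injective f := by
    rintro ⟨q, w⟩ ⟨q', w'⟩ h
    simp only [f] at h
    set t : G := ((q.out : Tg V γ) : G) with ht
    set t' : G := ((q'.out : Tg V γ) : G) with ht'
    have hs : t'⁻¹ * t ∈ Tg V γ := (Tg V γ).mul_mem ((Tg V γ).inv_mem q'.out.2) q.out.2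
    have h4 : (t'⁻¹ * t) * (y ^ 1 * (w : G)) * (t'⁻¹ * t)⁻¹ = y ^ 1 * (w' : G) := by
      rw [pow_one]
      calc (t'⁻¹ * t) * (y * (w : G)) * (t'⁻¹ * t)⁻¹ = t'⁻¹ * (t * (y * w) * t⁻¹) * t' := by group
        _ = t'⁻¹ * (t' * (y * w') * t'⁻¹) * t' := by rw [h]
        _ = _ := by group
    have h5 := h3 1 1 (fun hd => hp.one_lt.ne' (Nat.dvd_one.1 hd)) (Nat.ModEq.refl 1) w w.2 w' w'.2
      (t'⁻¹ * t) hs h4
    have hq : q = q' := by
      rw [← QuotientGroup.out_eq' q, ← QuotientGroup.out_eq' q']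
      symm
      rw [QuotientGroup.eq, Subgroup.mem_subgroupOf]
      exact h5
    subst hq
    have h6 : y * (w : G) = y * (w' : G) := by
      have h7 : t * (y * (w : G)) * t⁻¹ = t * (y * (w' : G)) * t⁻¹ := h
      exact mul_left_cancel (mul_right_cancel h7)
    exact Prod.ext rfl (Subtype.ext (mul_left_cancel h6))
  have hsub : Set.range f ⊆ {u | Rg V γ u} := by
    rintro _ ⟨⟨q, w⟩, rfl⟩
    have ht : ((q.out : Tg V γ) : G) ∈ Tg V γ := q.out.2
    simp only [f]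
    generalize ((q.out : Tg V γ) : G) = t at ht
    obtain ⟨⟨hu1, hu2, hu3⟩, -⟩ := h2 w w.2
    generalize y * (w : G) = u at hu1 hu2 hu3
    have hn := hTN ht
    refine ⟨(Subgroup.mem_normalizer_iff.1 hn u).1 hu1, fun h => hu2 ?_, ?_⟩
    · rw [mul_inv_eq_one] at h
      exact mul_left_cancel (h.trans (mul_one t).symm)
    · rintro s ⟨hs, hsc⟩
      have h4 : s * (t * u * t⁻¹) = (t * u * t⁻¹) * s :=
        (Subgroup.mem_centralizer_iff.1 hsc _ rfl).symm
      have h5 : t⁻¹ * s * t ∈ C := by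
        apply hu3
        refine ⟨(Tg V γ).mul_mem ((Tg V γ).mul_mem ((Tg V γ).inv_mem ht) hs) ht, ?_⟩
        refine Subgroup.mem_centralizer_iff.2 fun x hx => ?_
        rw [Set.mem_singleton_iff.1 hx]
        calc u * (t⁻¹ * s * t) = t⁻¹ * ((t * u * t⁻¹) * s) * t := by group
          _ = t⁻¹ * (s * (t * u * t⁻¹)) * t := by rw [h4]
          _ = t⁻¹ * s * t * u := by group
      have h6 := (Subgroup.mem_normalizer_iff.1 (H60.norm_cent V hn) _).1 h5
      have h7 : t * (t⁻¹ * s * t) * t⁻¹ = s := by group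
      rwa [h7] at h6
  have hcard : (Set.range f).ncard = ix V γ * Nat.card W := by
    rw [← Nat.card_coe_set_eq, Nat.card_range_of_injective hinj, Nat.card_prod]
    rfl
  rw [← hcard]
  exact Set.ncard_le_ncard hsub (Set.toFinite _)

end Pool.Agent.PP.T8.H45
end
end -- Pool.Agent.Helper45_AT8.RKX

section -- Pool.Agent.Helper32_AT2.FST

/-!
# Squad AT2, module FST: the block of the normaliser of `U = V ^ n` over `γ`
-/

open scoped BigOperators

noncomputable section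

namespace Pool.Agent.PP.T2.H32

open Pool.Agent.Helper51_AWC Pool.Agent.Helper79_WRA Pool.Agent.PP Pool.Agent.PP.KF
open Pool.Agent.PP.K9 Pool.Agent.PP.K9.H97 Pool.Agent.PP.H75 Pool.Agent.PP.T3
open Pool.Agent.PP.T2

attribute [local instance] Ideal.Quotient.field

section tools

variable {F G : Type} [Field F] [Group G] [Finite G] {ℓ : ℕ} [Fact ℓ.Prime]

omit [Finite G] in
theorem br_zero (V : Subgroup G) : br V (0 : G → F) = 0 := by
  funext g
  by_cases hg : g ∈ Subgroup.centralizer (V : Set G)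
  · rw [H66.br_of_mem hg]
  · rw [H66.br_of_not_mem hg]
    rfl

omit [Finite G] in
theorem br_add (V : Subgroup G) (a b : G → F) : br V (a + b) = br V a + br V b := by
  funext g
  by_cases hg : g ∈ Subgroup.centralizer (V : Set G)
  · rw [H66.br_of_mem hg, Pi.add_apply, Pi.add_apply, H66.br_of_mem hg, H66.br_of_mem hg]
  · rw [H66.br_of_not_mem hg, Pi.add_apply, H66.br_of_not_mem hg, H66.br_of_not_mem hg, add_zero]

omit [Fact ℓ.Prime] in
/-- `br_V` is multiplicative on the idempotents of `X ≥ V` -/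
theorem br_mul (hF : GoodF ℓ F) {V X : Subgroup G} (hV : IsPGroup ℓ V)
    (hVX : V ≤ X) {b c : G → F} (hb : Ix X b) (hc : Ix X c) :
    br V (mulF b c) = mulF (br V b) (br V c) :=
  H66.br_mulF hF hV (fun p hp => (cj_eq_iff p b).1 (hb.inv (hVX hp)))
    (fun p hp => (cj_eq_iff p c).1 (hc.inv (hVX hp)))

omit [Fact ℓ.Prime] in
/-- the image of an idempotent of `X` under `br_V` -/
theorem ix_br (hF : GoodF ℓ F) {V X : Subgroup G} (hV : IsPGroup ℓ V)
    (hVX : V ≤ X) (hCX : Subgroup.centralizer (V : Set G) ≤ X) {b : G → F}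
    (hb : Ix X b) : Ix (Subgroup.centralizer (V : Set G)) (br V b) := by
  refine ⟨fun x hx => H66.br_of_not_mem hx, ?_, ?_⟩
  · intro x y
    change br V b (y * x * (y : G)⁻¹) = br V b x
    have hmem : (y : G) * x * (y : G)⁻¹ ∈ Subgroup.centralizer (V : Set G) :=
      Subgroup.mul_mem _ (Subgroup.mul_mem _ y.2 x.2) (Subgroup.inv_mem _ y.2)
    rw [H66.br_of_mem hmem, H66.br_of_mem x.2]
    exact (cj_eq_iff (y : G) b).1 (hb.inv (hCX y.2)) x
  · rw [← mulF_res (Subgroup.centralizer (V : Set G)) _ (fun x hx => H66.br_of_not_mem hx),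
      ← br_mul hF hV hVX hb hb, hb.mul]

omit [Fact ℓ.Prime] in
/-- Two central idempotents which are equal in all irreducible representations are equal. -/
theorem idem_eq (hF : GoodF ℓ F) {a b : G → F} (ha : IsIdem a) (hb : IsIdem b)
    (h : ∀ (n : ℕ) (ρ : G →* Matrix (Fin n) (Fin n) F), IsIrr ρ → ev ρ a = ev ρ b) : a = b := by
  have hab : mulF a b = mulF b a := H75.mulF_comm_cl ha.1 b
  have h1 : ∀ (n : ℕ) (ρ : G →* Matrix (Fin n) (Fin n) F), IsIrr ρ → ev ρ (a - b) = 0 := by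
    intro n ρ hρ
    have h3 : ev ρ (a - b) = ev ρ a - ev ρ b := by
      rw [sub_eq_add_neg, ← neg_one_smul F b, ev_add, ev_smul,
        neg_one_smul, sub_eq_add_neg]
    rw [h3, h n ρ hρ, sub_self]
  obtain ⟨k, hk⟩ := H20.ibn ℓ F hF G (a - b) h1
  -- the products
  have hsubl : ∀ x y z : G → F, mulF (x - y) z = mulF x z - mulF y z := by
    intro x y z
    have h4 := K9.H24.mulF_add_l (x - y) y z
    rw [sub_add_cancel] at h4
    rw [h4, add_sub_cancel_right]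
  have hc2 : mulF (a - b) (a - b) = a + b - mulF a b - mulF a b := by
    rw [hsubl, H20.mulF_sub, H20.mulF_sub, ha.2, hb.2, ← hab]
    abel
  have haab : mulF a (mulF a b) = mulF a b := by rw [← mulF_assoc, ha.2]
  have hbab : mulF b (mulF a b) = mulF a b := by
    rw [hab, ← mulF_assoc, hb.2]
  have hc3 : mulF (a - b) (mulF (a - b) (a - b)) = a - b := by
    rw [hc2, hsubl, H20.mulF_sub, H20.mulF_sub, H20.mulF_sub, H20.mulF_sub, H20.mulF_add,
      H20.mulF_add, ha.2, hb.2, haab, hbab, ← hab]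
    abel
  have hit : ∀ m : ℕ, (mulF (a - b))^[2 * m] (a - b) = a - b := by
    intro m
    induction m with
    | zero => rfl
    | succ m ih =>
      rw [show 2 * (m + 1) = 2 * m + 2 by ring, Function.iterate_add_apply]
      have h5 : (mulF (a - b))^[2] (a - b) = a - b := hc3
      rw [h5, ih]
  have h6 : (mulF (a - b))^[2 * k] (a - b) = 0 := by
    rw [show 2 * k = k + k by ring, Function.iterate_add_apply, hk]
    clear hk h1 hit
    induction k with
    | zero => rfl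
    | succ k ih =>
      rw [Function.iterate_succ_apply, H75.mulF_zero_right, ih]
  rw [hit k] at h6
  exact sub_eq_zero.1 h6

omit [Fact ℓ.Prime] in
/-- a central idempotent of the normaliser of an `ℓ`-subgroup `U` is zero outside of the
centraliser of `U` -/
theorem supp_cent (hF : GoodF ℓ F) {U X : Subgroup G} (hU : IsPGroup ℓ U) (hUX : U ≤ X)
    (hCX : Subgroup.centralizer (U : Set G) ≤ X)
    (hX : X ≤ Subgroup.normalizer (U : Set G)) {f : G → F} (hf : Ix X f) :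
    br U f = f := by
  have hbr := ix_br hF hU hUX hCX hf
  have hsupp : ∀ x, x ∉ X → br U f x = 0 := fun x hx => hbr.supp x (fun h => hx (hCX h))
  apply eq_of_res hsupp hf.supp
  have hnorm : (U.subgroupOf X).Normal := by
    rw [Subgroup.normal_subgroupOf_iff hUX]
    intro h g hh hg
    exact (Subgroup.mem_normalizer_iff.1 (hX hg) h).1 hh
  have hp : IsPGroup ℓ (U.subgroupOf X) :=
    hU.of_equiv (Subgroup.subgroupOfEquivOfLe hUX).symm
  have hbr2 : br (U.subgroupOf X) (fun t : X => f t) = fun t : X => br U f t := by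
    funext t
    by_cases hc : (t : G) ∈ Subgroup.centralizer (U : Set G)
    · rw [H66.br_of_mem hc, H66.br_of_mem ((cent_sub hUX t).2 hc)]
    · rw [H66.br_of_not_mem hc, H66.br_of_not_mem (fun h => hc ((cent_sub hUX t).1 h))]
  have hcl : IsCl (fun t : X => br U f t) := by
    intro x y
    change br U f ((y : G) * x * (y : G)⁻¹) = br U f x
    have hmem : (y : G) * x * (y : G)⁻¹ ∈ Subgroup.centralizer (U : Set G) ↔
        (x : G) ∈ Subgroup.centralizer (U : Set G) := by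
      have h1 : ∀ x y : G, y ∈ Subgroup.normalizer (U : Set G) →
          x ∈ Subgroup.centralizer (U : Set G) →
          y * x * y⁻¹ ∈ Subgroup.centralizer (U : Set G) := by
        intro x y hy hx
        rw [Subgroup.mem_centralizer_iff] at hx ⊢
        intro r hr
        have h2 : y⁻¹ * r * y ∈ U := by
          have := (Subgroup.mem_normalizer_iff.1 (Subgroup.inv_mem _ hy) r).1 hr
          rwa [inv_inv] at this
        have h3 := hx _ h2
        calc r * (y * x * y⁻¹) = y * (y⁻¹ * r * y * x) * y⁻¹ := by group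
          _ = y * (x * (y⁻¹ * r * y)) * y⁻¹ := by rw [h3]
          _ = y * x * y⁻¹ * r := by group
      constructor
      · intro h
        have h3 := h1 _ _ (Subgroup.inv_mem _ (hX y.2)) h
        have h4 : (y : G)⁻¹ * ((y : G) * x * (y : G)⁻¹) * ((y : G)⁻¹)⁻¹ = x := by group
        rwa [h4] at h3
      · exact h1 _ _ (hX y.2)
    by_cases hc : (x : G) ∈ Subgroup.centralizer (U : Set G)
    · rw [H66.br_of_mem hc, H66.br_of_mem (hmem.2 hc)]
      exact hf.idem.1 x y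
    · rw [H66.br_of_not_mem hc, H66.br_of_not_mem (fun h => hc (hmem.1 h))]
  have hid : IsIdem (fun t : X => br U f t) := by
    refine ⟨hcl, ?_⟩
    rw [← mulF_res X _ hsupp, hbr.mul]
  apply idem_eq hF hid hf.idem
  intro n ρ hρ
  have h2 := ((H20.nls ℓ F hF X (U.subgroupOf X) hnorm hp n ρ hρ).2 (fun t : X => f t)
    hf.idem.1).1
  rw [hbr2] at h2
  exact h2.symm

end tools

/-- FST -/
theorem fst : FstStmt := by
  intro ℓ _ M _ hM G _ _ e V γ hL n
  have hF : GoodF ℓ (FF M) := H50.fld ℓ Fact.out M hM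
  obtain ⟨-, hUV, hNV, hCVU, -⟩ := pwu G n V hL.ab
  set U : Subgroup G := Uw n V with hUdef
  have hUp : IsPGroup ℓ U := hL.tp.pg.to_le hUV
  set X : Subgroup G := Subgroup.normalizer (U : Set G) with hXdef
  have hCX : Subgroup.centralizer (V : Set G) ≤ X :=
    (T3.H85.cent_le_norm V).trans hNV
  have hCUX : Subgroup.centralizer (U : Set G) ≤ X := T3.H85.cent_le_norm U
  have hVX : V ≤ X := by
    refine le_trans ?_ hNV
    exact Subgroup.le_normalizer
  have hUX : U ≤ X := hUV.trans hVX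
  -- the idempotent `br_U(e)` of `X`
  have hEid : IsIdem (fun t : X => br U e t) :=
    (H20.brm ℓ (FF M) hF G U X hUp hCUX le_rfl).2.2 e hL.blk.1
  have hEX : Ix X (br U e) :=
    ⟨fun x hx => H66.br_of_not_mem (fun h => hx (hCUX h)), hEid⟩
  have hbrE : br V (br U e) = br V e := by
    funext g
    by_cases hg : g ∈ Subgroup.centralizer (V : Set G)
    · rw [H66.br_of_mem hg, H66.br_of_mem hg, H66.br_of_mem (hCVU hg)]
    · rw [H66.br_of_not_mem hg, H66.br_of_not_mem hg]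
  have hext_add : ∀ a b : X → FF M, PP.ext0 X (a + b) = PP.ext0 X a + PP.ext0 X b := by
    intro a b
    funext x
    by_cases hx : x ∈ X
    · rw [H46.ext0_of_mem _ hx, Pi.add_apply, Pi.add_apply, H46.ext0_of_mem _ hx,
        H46.ext0_of_mem _ hx]
    · rw [H46.ext0_of_not_mem _ hx, Pi.add_apply, H46.ext0_of_not_mem _ hx,
        H46.ext0_of_not_mem _ hx, add_zero]
  have hext_zero : PP.ext0 X (0 : X → FF M) = 0 := by
    funext x
    by_cases hx : x ∈ X
    · rw [H46.ext0_of_mem _ hx]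
      rfl
    · rw [H46.ext0_of_not_mem _ hx]
      rfl
  have hextE : PP.ext0 X (fun t : X => br U e t) = br U e := by
    funext x
    by_cases hx : x ∈ X
    · rw [H46.ext0_of_mem _ hx]
    · rw [H46.ext0_of_not_mem _ hx, hEX.supp x hx]
  obtain ⟨b₀, hb₀, heb₀, hL₀⟩ := K9.H24.exists_blk
    (fun a : X → FF M => mulF (br V (PP.ext0 X a)) γ)
    (by
      show mulF (br V (PP.ext0 X 0)) γ = 0
      rw [hext_zero, br_zero, mulF_zero_left])
    (by
      intro a b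
      show mulF (br V (PP.ext0 X (a + b))) γ =
        mulF (br V (PP.ext0 X a)) γ + mulF (br V (PP.ext0 X b)) γ
      rw [hext_add, br_add, K9.H24.mulF_add_l])
    hEid
    (by
      show mulF (br V (PP.ext0 X (fun t : X => br U e t))) γ ≠ 0
      rw [hextE, hbrE, hL.und]
      exact hL.gam.ne)
  have hrestr : (fun t : X => PP.ext0 X b₀ t) = b₀ := H46.restr_ext0 _
  set f : G → FF M := PP.ext0 X b₀ with hf
  have hfX : Bx X f := by
    refine ⟨fun x hx => H46.ext0_of_not_mem _ hx, ?_⟩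
    rw [hrestr]
    exact hb₀
  have hfg : mulF (br V f) γ = γ := by
    have hix := ix_br hF hL.tp.pg hVX hCX hfX.ix
    rw [hix.comm hL.gam.ix]
    rcases hL.gam.dich' hix with h | h
    · exact h
    · exfalso
      apply hL₀
      show mulF (br V f) γ = 0
      rw [hix.comm hL.gam.ix, h]
  have hund : mulF (br U e) f = f := by
    apply eq_of_res (mulF_supp X hEX.supp hfX.supp) hfX.supp
    rw [mulF_res X f hEX.supp, hrestr]
    exact heb₀
  have hsupp : ∀ x, x ∉ Subgroup.centralizer (U : Set G) → f x = 0 := by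
    intro x hx
    rw [← supp_cent hF hUp hUX hCUX le_rfl hfX.ix]
    exact H66.br_of_not_mem hx
  -- the defect group of `f`
  have hVcard : Nat.card (V.subgroupOf X) = Nat.card V :=
    Nat.card_congr (Subgroup.subgroupOfEquivOfLe hVX).toEquiv
  have hVp : IsPGroup ℓ (V.subgroupOf X) :=
    hL.tp.pg.of_equiv (Subgroup.subgroupOfEquivOfLe hVX).symm
  have hTf : Tp ℓ (fun t : X => f t) (V.subgroupOf X) := by
    refine ⟨hVp, T3.H85.gd_of_gam hVX hCX hL.gam hfg, ?_⟩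
    intro Q hQ hQf
    have hmul : mulF (fun t : X => br U e t) (fun t : X => f t) = fun t : X => f t := by
      rw [hrestr]
      exact heb₀
    have h1 := gd_map (gd_of_mul hF hEid.1 hfX.blk.1.1 hmul hQ hQf)
    have h1' : Gd e (Q.map X.subtype) := by
      obtain ⟨g, hg1, hg2⟩ := h1
      refine ⟨g, hg1, ?_⟩
      intro h0
      apply hg2
      by_cases hg : g ∈ Subgroup.centralizer (U : Set G)
      · rw [H66.br_of_mem hg, h0]
      · rw [H66.br_of_not_mem hg]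
    have hcard : Nat.card (Q.map X.subtype) = Nat.card Q :=
      (Nat.card_congr (Q.equivMapOfInjective X.subtype X.subtype_injective).toEquiv).symm
    have h2 := hL.tp.mx _ (hQ.map X.subtype) h1'
    rw [hcard] at h2
    rw [hVcard]
    exact h2
  have hLf := T3.H85.ld_of hVX hCX hL.ab hfX.blk hL.gam hfg hTf
  -- the two blocks of the normaliser of `V`
  obtain ⟨-, ⟨hbe, -⟩, -⟩ := K9.H69.fmg ℓ M hM G e hL.blk V hL.tp
  obtain ⟨-, ⟨hbf, -⟩, -⟩ := K9.H69.fmg ℓ M hM X (fun t : X => f t) hfX.blk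
    (V.subgroupOf X) hTf
  have hBe : Bx (Subgroup.normalizer (V : Set G)) (br V e) :=
    ⟨fun x hx => H66.br_of_not_mem (fun h => hx (T3.H85.cent_le_norm V h)), hbe⟩
  have hBf : Bx (Subgroup.normalizer (V : Set G)) (br V f) := by
    have h1 := bx_of hVX hCX (T3.H85.cent_le_norm V) hbf
    rw [hrestr, inf_eq_left.2 hNV] at h1
    exact h1
  have hbr : br V f = br V e := by
    rcases hBf.dich hBe with h | h
    · exact h
    · exfalso
      apply hL.gam.ne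
      calc γ = mulF (br V f) (mulF (br V e) γ) := by rw [hL.und, hfg]
        _ = mulF (mulF (br V f) (br V e)) γ := (mulF_assoc _ _ _).symm
        _ = 0 := by rw [h, mulF_zero_left]
  refine ⟨f, hfX, hsupp, hund, hbr, hNV, hLf, ?_⟩
  rw [T3.H85.ix_eq hVX hCX hL.gam.supp]
  unfold ix
  have h3 : Tg V γ ⊓ X = Tg V γ := inf_eq_left.2 (inf_le_left.trans hNV)
  rw [h3]

end Pool.Agent.PP.T2.H32
end
end -- Pool.Agent.Helper32_AT2.FST

section -- Pool.Agent.Helper6_AT5.OJ5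

/-! Squad AT5, row OJ5: orthogonality for the powers of `u`. -/

open scoped BigOperators

noncomputable section

namespace Pool.Agent.PP.T5.H6

open Pool.Agent.Helper51_AWC Pool.Agent.Helper79_WRA Pool.Agent.PP Pool.Agent.PP.KF
open Pool.Agent.PP.K9 Pool.Agent.PP.K9.H97 Pool.Agent.PP.H75 Pool.Agent.PP.T3 Pool.Agent.PP.T2
open Pool.Agent.PP.T2.H60

attribute [local instance] Ideal.Quotient.field

theorem pow_one_mod {ℓ c : ℕ} (k : ℕ) (hc : c ≡ 1 [MOD ℓ]) : c ^ ℓ ^ k ≡ 1 [MOD ℓ ^ k] := by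
  have h3 : ((ℓ : ℤ)) ∣ (c : ℤ) - 1 := by
    have := hc.symm.dvd
    rw [Nat.cast_one] at this
    exact this
  have h4 := dvd_sub_pow_of_dvd_sub (R := ℤ) (p := ℓ) h3 k
  rw [one_pow] at h4
  have h5 : ((ℓ ^ k : ℕ) : ℤ) ∣ ((c ^ ℓ ^ k : ℕ) : ℤ) - ((1 : ℕ) : ℤ) := by
    push_cast
    exact (pow_dvd_pow _ (Nat.le_succ k)).trans h4
  have h6 : 1 ≡ c ^ ℓ ^ k [MOD ℓ ^ k] := (Nat.modEq_iff_dvd).2 h5
  exact h6.symm

/-- an inverse modulo `ℓ ^ a` -/
theorem inv_mod {ℓ : ℕ} (hp : ℓ.Prime) {i : ℕ} (hi : ¬ ℓ ∣ i) (a : ℕ) :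
    ∃ i', i * i' ≡ 1 [MOD ℓ ^ a] := by
  rcases Nat.eq_zero_or_pos a with h0 | h0
  · refine ⟨0, ?_⟩
    rw [h0, pow_zero]
    exact Nat.modEq_one
  have hcop : Nat.Coprime i (ℓ ^ a) :=
    Nat.Coprime.pow_right _ ((Nat.Prime.coprime_iff_not_dvd hp).2 hi).symm
  obtain ⟨i', hi'⟩ := Nat.exists_mul_mod_eq_one_of_coprime hcop (Nat.one_lt_pow h0.ne' hp.one_lt)
  refine ⟨i', ?_⟩
  unfold Nat.ModEq
  rw [hi'.2, Nat.mod_eq_of_lt (Nat.one_lt_pow h0.ne' hp.one_lt)]

theorem pow_inv_pow {G : Type} [Group G] {ℓ a : ℕ} {u : G} (ho : orderOf u = ℓ ^ a) {i i' : ℕ}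
    (h : i * i' ≡ 1 [MOD ℓ ^ a]) : (u ^ i) ^ i' = u := by
  have : u ^ (i * i') = u ^ 1 := pow_eq_pow_iff_modEq.2 (by rw [ho]; exact h)
  rw [← pow_mul, this, pow_one]

theorem cu_pow {G : Type} [Group G] {ℓ a : ℕ} (hp : ℓ.Prime) {u : G} (ho : orderOf u = ℓ ^ a)
    {i : ℕ} (hi : ¬ ℓ ∣ i) : Cu (u ^ i) = Cu u := by
  obtain ⟨i', hi'⟩ := inv_mod hp hi a
  have hu := pow_inv_pow ho hi'
  ext x
  rw [Subgroup.mem_centralizer_singleton_iff, Subgroup.mem_centralizer_singleton_iff]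
  constructor
  · intro h
    have h1 : Commute x (u ^ i) := h
    have h2 := h1.pow_right i'
    rw [hu] at h2
    exact h2
  · intro h
    have h1 : Commute x u := h
    exact h1.pow_right i

theorem oj5 (co5 : Co5Stmt) (inc : IncStmt) : Oj5Stmt := by
  intro ℓ _ M _ hM G _ _ e V u b hLb a hea hord j j' hj hjj hne s hs hsr
  have hp : ℓ.Prime := Fact.out
  have hep : 0 < ep ℓ := by
    unfold ep
    split_ifs <;> norm_num
  have hjl : j ≡ j' [MOD ℓ] := hjj.of_dvd (dvd_pow_self ℓ hep.ne')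
  have hj' : ¬ ℓ ∣ j' := by
    intro h
    exact hj ((hjl.dvd_iff (dvd_refl ℓ)).2 h)
  have hC := cu_pow hp hord hj
  have hC' := cu_pow hp hord hj'
  have hua : u ^ ℓ ^ a = 1 := by rw [← hord]; exact pow_orderOf_eq_one u
  have hEl : ∀ i : ℕ, El ℓ (u ^ i) := by
    intro i
    refine ⟨a, ?_⟩
    rw [← pow_mul, mul_comm, pow_mul, hua, one_pow]
  have h1 := co5 ℓ M hM G (u ^ j) (u ^ j') (hEl j) (hEl j') b b (by rw [hC]; exact hLb.bx.ix)
    (by rw [hC']; exact hLb.bx.ix) ?_ s (by rw [hC]; exact hs) hsr s (by rw [hC']; exact hs) hsr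
  · rw [hC, hC'] at h1
    exact h1
  intro x hx
  have hxn : x ∈ Subgroup.normalizer ((Cu u : Subgroup G) : Set G) := by
    have h2 : ∀ z, z ∈ Cu u → x * z * x⁻¹ ∈ Cu u := by
      intro z hz
      rw [← hC'] at hz
      rw [← hC, ← hx]
      have h3 := Subgroup.mem_centralizer_singleton_iff.1 hz
      rw [Subgroup.mem_centralizer_singleton_iff]
      calc x * z * x⁻¹ * (x * u ^ j' * x⁻¹) = x * (z * u ^ j') * x⁻¹ := by group
        _ = x * (u ^ j' * z) * x⁻¹ := by rw [h3]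
        _ = _ := by group
    have h3 : ∀ z, x * z * x⁻¹ ∈ Cu u → z ∈ Cu u := by
      intro z hz
      rw [← hC, ← hx] at hz
      rw [← hC']
      have h3 := Subgroup.mem_centralizer_singleton_iff.1 hz
      rw [Subgroup.mem_centralizer_singleton_iff]
      have h4 : x * (z * u ^ j') * x⁻¹ = x * (u ^ j' * z) * x⁻¹ := by
        calc x * (z * u ^ j') * x⁻¹ = x * z * x⁻¹ * (x * u ^ j' * x⁻¹) := by group
          _ = _ := h3
          _ = x * (u ^ j' * z) * x⁻¹ := by group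
      exact mul_left_cancel (mul_right_cancel h4)
    rw [Subgroup.mem_normalizer_iff]
    exact fun z => ⟨h2 z, h3 z⟩
  rcases hLb.bx.dich (hLb.bx.cj hxn) with h2 | h2
  · exfalso
    apply hne
    -- `x u x⁻¹ = u ^ c`
    obtain ⟨i, hi⟩ := inv_mod hp hj' a
    have hxu : x * u * x⁻¹ = u ^ (j * i) := by
      have h3 : x * u * x⁻¹ = (x * u ^ j' * x⁻¹) ^ i := by
        rw [conj_pow, pow_inv_pow hord hi]
      rw [h3, hx, ← pow_mul]
    have hc1 : j * i ≡ 1 [MOD ℓ] := by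
      have ha0 : a ≠ 0 := by omega
      have h7 : j' * i ≡ 1 [MOD ℓ] := hi.of_dvd (dvd_pow_self ℓ ha0)
      exact (hjl.mul_right i).trans h7
    have hxa : x ^ ℓ ^ a ∈ Cu u := by
      have h4 := conj_pow_pow hxu (ℓ ^ a)
      have h5 : u ^ (j * i) ^ ℓ ^ a = u ^ 1 :=
        pow_eq_pow_iff_modEq.2 (by rw [hord]; exact pow_one_mod a hc1)
      rw [h5, pow_one] at h4
      rw [Subgroup.mem_centralizer_singleton_iff]
      calc x ^ ℓ ^ a * u = (x ^ ℓ ^ a * u * (x ^ ℓ ^ a)⁻¹) * x ^ ℓ ^ a := by group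
        _ = u * x ^ ℓ ^ a := by rw [h4]
    have hxz : x ∈ Subgroup.normalizer (Subgroup.zpowers u : Set G) := by
      obtain ⟨i2, hi2⟩ := inv_mod hp hj a
      have hfw : ∀ z ∈ Subgroup.zpowers u, x * z * x⁻¹ ∈ Subgroup.zpowers u := by
        intro z hz
        obtain ⟨n, rfl⟩ := Subgroup.mem_zpowers_iff.1 hz
        rw [← conj_zpow, hxu]
        exact Subgroup.zpow_mem _ (Subgroup.pow_mem _ (Subgroup.mem_zpowers u) _) _
      have hbk' : x⁻¹ * u * x ∈ Subgroup.zpowers u := by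
        have h4 : x⁻¹ * u ^ j * x = u ^ j' := by
          rw [← hx]; group
        have h5 : x⁻¹ * u * x = (x⁻¹ * u ^ j * x) ^ i2 := by
          have h6 : x⁻¹ * u ^ j * x = x⁻¹ * u ^ j * x⁻¹⁻¹ := by rw [inv_inv]
          rw [h6, conj_pow, pow_inv_pow hord hi2, inv_inv]
        rw [h5, h4]
        exact Subgroup.pow_mem _ (Subgroup.pow_mem _ (Subgroup.mem_zpowers u) _) _
      have hbk : ∀ z ∈ Subgroup.zpowers u, x⁻¹ * z * x ∈ Subgroup.zpowers u := by
        intro z hz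
        obtain ⟨n, rfl⟩ := Subgroup.mem_zpowers_iff.1 hz
        have h6 : x⁻¹ * u ^ n * x = (x⁻¹ * u * x) ^ n := by
          have h7 : x⁻¹ * u * x = x⁻¹ * u * x⁻¹⁻¹ := by rw [inv_inv]
          rw [h7, conj_zpow, inv_inv]
        rw [h6]
        exact Subgroup.zpow_mem _ hbk' _
      rw [Subgroup.mem_normalizer_iff]
      intro z
      refine ⟨fun h => hfw z h, fun h => ?_⟩
      have h8 := hbk _ h
      have h9 : x⁻¹ * (x * z * x⁻¹) * x = z := by group
      rwa [h9] at h8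
    have hxC := inc ℓ M hM G e V u b hLb x hxz h2.symm a hxa
    have h10 : Commute x u := Subgroup.mem_centralizer_singleton_iff.1 hxC
    have h11 := (h10.pow_right j').eq
    rw [← hx, h11, mul_assoc, mul_inv_cancel, mul_one]
  · exact h2

end Pool.Agent.PP.T5.H6
end
end -- Pool.Agent.Helper6_AT5.OJ5

section -- Pool.Agent.Helper45_AT6.OR6

/-!
# Squad AT6, row OR6: sums over the elements outside the centraliser of `D ^ (ℓ ^ c)`
-/

open scoped BigOperators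

noncomputable section

namespace Pool.Agent.PP.T6.H45

open Pool.Agent.Helper51_AWC Pool.Agent.Helper79_WRA Pool.Agent.PP Pool.Agent.PP.KF
open Pool.Agent.PP.K9 Pool.Agent.PP.K9.H97 Pool.Agent.PP.H75 Pool.Agent.PP.T3 Pool.Agent.PP.T2

attribute [local instance] Ideal.Quotient.field

theorem or6 (obz : ObzStmt) : Or6Stmt := by
  intro ℓ hℓ M _ G _ _ D hD hab c S hS hx F hF hinv
  have hp : ℓ.Prime := hℓ.out
  refine obz M G D S hS F hinv ((ℓ : ℂ) ^ c) fun x hxS => ?_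
  obtain ⟨n, hn⟩ := IsPGroup.iff_card.1 hD
  have hdvd : (D ⊓ Cu x).relIndex D ∣ ℓ ^ n := by
    rw [← hn]
    exact Subgroup.relIndex_dvd_card _ _
  obtain ⟨k, -, hk⟩ := (Nat.dvd_prime_pow hp).1 hdvd
  have hck : c ≤ k := by
    by_contra hlt
    apply hx x hxS
    obtain ⟨hW, -⟩ := H32.pwu G (ℓ ^ c) D hab
    rw [Subgroup.mem_centralizer_iff]
    intro v hv
    obtain ⟨d, hd, rfl⟩ := (hW v).1 hv
    have hnorm : ((D ⊓ Cu x).subgroupOf D).Normal := by
      refine ⟨fun a ha b => ?_⟩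
      have h1 : b * a * b⁻¹ = a := by
        apply Subtype.ext
        rw [Subgroup.coe_mul, Subgroup.coe_mul, Subgroup.coe_inv, hab b b.2 a a.2,
          mul_inv_cancel_right]
      rwa [h1]
    have h2 := Subgroup.pow_index_mem ((D ⊓ Cu x).subgroupOf D) ⟨d, hd⟩
    have h3 : d ^ (D ⊓ Cu x).relIndex D ∈ D ⊓ Cu x := Subgroup.mem_subgroupOf.1 h2
    rw [hk] at h3
    have h4 : d ^ ℓ ^ c ∈ Cu x := by
      have h5 : ℓ ^ c = ℓ ^ k * ℓ ^ (c - k) := by rw [← pow_add]; congr 1; omega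
      rw [h5, pow_mul]
      exact (Cu x).pow_mem h3.2 _
    exact (Subgroup.mem_centralizer_iff.1 h4 x rfl).symm
  refine ⟨(ℓ : ℂ) ^ (k - c) * F x, (RM M).mul_mem ?_ (hF x), ?_⟩
  · have h1 := (rr_nat (M := M) (ℓ ^ (k - c))).1
    push_cast at h1
    exact h1
  · rw [hk]
    push_cast
    rw [← mul_assoc, ← pow_add, Nat.add_sub_cancel' hck]

end Pool.Agent.PP.T6.H45
end
end -- Pool.Agent.Helper45_AT6.OR6
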