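import Pool.Agent.Helper12_AWB.B116
import Pool.Agent.Helper12_AWB.B127
import Pool.Agent.Helper12_AWB.B132
import Pool.Agent.Helper12_AWB.B139
import Pool.Agent.Helper12_AWB.B166
import Pool.Agent.Helper12_AWB.B173

/-!
# Merged copies (generated) of the modules

* `Pool.Agent.Helper3_C2.DUG`
* `Pool.Agent.Helper3_C2.GDV`
* `Pool.Agent.Helper65_AT2.TYA`
* `Pool.Agent.Helper25_AT8.TY8`
* `Pool.Agent.Helper88_AT3.Cgr`
* `Pool.Agent.Helper88_AT8.Dcg`
* `Pool.Agent.Helper3_AT3.DUG`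
* `Pool.Agent.Helper56_AT6.APS`
* `Pool.Agent.Helper46_AT6.LCX`
-/

set_option autoImplicit false

section -- Pool.Agent.Helper3_C2.DUG

/-!
# C2, modules DUG, GDV: the blocks of `C(Q)` (model: `Helper24_K9/Duc.lean`)
-/

open scoped BigOperators Pointwise

set_option linter.unusedSectionVars false

noncomputable section

namespace Pool.Agent.PP.C2.H3

open Pool.Agent.Helper51_AWC Pool.Agent.Helper79_WRA Pool.Agent.PP Pool.Agent.PP.KF
open Pool.Agent.PP.K9
open Pool.Agent.PP.K9.H97 (Ix Bx)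

section core

variable {F G : Type} [Field F] [Group G] [Finite G] {ℓ : ℕ} [hfact : Fact ℓ.Prime]

theorem core (hF : GoodF ℓ F) {e : G → F} (he : IsIdem e)
    {Q : Subgroup G} (hQ : IsPGroup ℓ Q)
    (hab : ∀ P : Subgroup G, IsPGroup ℓ P → Gd e P → ∀ a ∈ P, ∀ b ∈ P, a * b = b * a)
    {N C : Subgroup G}
    (hNdef : N = Subgroup.normalizer (Q : Set G)) (hCdef : C = Subgroup.centralizer (Q : Set G))
    (hdun : ∀ f : N → F, IsBlk f → mulF (fun t : N => br Q e t) f = f →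
      ∃ P : Subgroup N, IsPGroup ℓ P ∧ Gd f P ∧ Q.subgroupOf N < P)
    {gh : G → F} (hBg : Bx C gh) (hegh : mulF (br Q e) gh = gh) :
    ∃ P : Subgroup G, IsPGroup ℓ P ∧ Q < P ∧ P ≤ C ∧ (∀ a ∈ P, ∀ b ∈ P, a * b = b * a) ∧
      Gd gh P := by
  classical
  have hQN : Q ≤ N := by
    rw [hNdef]
    exact Subgroup.le_normalizer
  have hCN : C ≤ N := by
    rw [hNdef, hCdef]
    exact Subgroup.centralizer_le_normalizer _
  have hconjQ : ∀ n ∈ N, ∀ q, q ∈ Q ↔ n * q * n⁻¹ ∈ Q := by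
    intro n hn q
    rw [hNdef] at hn
    exact Subgroup.mem_normalizer_iff.1 hn q
  have hconjC0 : ∀ n ∈ N, ∀ x ∈ C, n * x * n⁻¹ ∈ C := by
    intro n hn x hx
    rw [hCdef, Subgroup.mem_centralizer_iff] at hx ⊢
    intro q hq
    have h1 : n⁻¹ * q * n ∈ Q := by
      have h2 := (hconjQ n⁻¹ (N.inv_mem hn) q).1 hq
      rwa [inv_inv] at h2
    have h2 := hx _ h1
    calc q * (n * x * n⁻¹) = n * ((n⁻¹ * q * n) * x) * n⁻¹ := by group
      _ = n * (x * (n⁻¹ * q * n)) * n⁻¹ := by rw [h2]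
      _ = (n * x * n⁻¹) * q := by group
  have hconjC : ∀ n ∈ N, ∀ x, x ∈ C ↔ n * x * n⁻¹ ∈ C := by
    intro n hn x
    refine ⟨hconjC0 n hn x, fun h => ?_⟩
    have h1 := hconjC0 n⁻¹ (N.inv_mem hn) _ h
    have h2 : n⁻¹ * (n * x * n⁻¹) * n⁻¹⁻¹ = x := by group
    rwa [h2] at h1
  have hNC : N ≤ Subgroup.normalizer (C : Set G) := by
    intro n hn
    rw [Subgroup.mem_normalizer_iff]
    exact hconjC n hn
  have hghs : ∀ x, x ∉ C → gh x = 0 := hBg.supp
  have hbrs : ∀ x, x ∉ C → br Q e x = 0 := by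
    intro x hx
    rw [hCdef] at hx
    exact H66.br_of_not_mem hx
  -- the idempotent of `N`
  have hbrN : ∀ x, x ∉ N → br Q e x = 0 := fun x hx => hbrs x (fun h => hx (hCN h))
  have hinv : H66.Inv Q e := H66.IsCl.inv he.1 Q
  have hIN : IsIdem (fun t : N => br Q e t) := by
    refine ⟨?_, ?_⟩
    · intro x y
      show br Q e ((y : G) * x * (y : G)⁻¹) = br Q e x
      by_cases hx : (x : G) ∈ C
      · have h2 := (hconjC y y.2 x).1 hx
        rw [hCdef] at hx h2
        rw [H66.br_of_mem hx, H66.br_of_mem h2]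
        exact he.1 _ _
      · rw [hbrs _ hx, hbrs]
        intro h
        exact hx ((hconjC y y.2 x).2 h)
    · rw [← H75.mulF_res N (br Q e) hbrN, ← H66.br_mulF hF hQ hinv hinv, he.2]
  have hgN0 : (fun t : N => gh t) ≠ 0 := by
    intro h
    apply hBg.ne
    exact H75.eq_of_res (fun x hx => hghs x (fun h => hx (hCN h))) (fun _ _ => rfl) h
  have hgN : mulF (fun t : N => br Q e t) (fun t : N => gh t) = fun t : N => gh t := by
    rw [← H75.mulF_res N gh hbrN, hegh]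
  obtain ⟨f, hf, hef, hfg⟩ := K9.H24.exists_blk
    (L := fun a : N → F => mulF a (fun t : N => gh t))
    (H75.mulF_zero_left _) (fun a b => K9.H24.mulF_add_l a b _) hIN (by
      show mulF (fun t : N => br Q e t) (fun t : N => gh t) ≠ 0
      rw [hgN]
      exact hgN0)
  obtain ⟨P, hP, hgP, hQP⟩ := hdun f hf hef
  -- the support of `f`
  have hfs : ∀ t : N, f t ≠ 0 → (t : G) ∈ C := by
    have hpN : IsPGroup ℓ (Q.subgroupOf N) := hQ.comap_subtype
    have hnorm : (Q.subgroupOf N).Normal := by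
      rw [hNdef]
      exact Subgroup.normal_in_normalizer
    have hbr : br (Q.subgroupOf N) f = f := KF.H55.br_idem hF hnorm hpN hf.1
    intro t ht
    by_contra h
    apply ht
    rw [← hbr]
    apply H66.br_of_not_mem
    intro h'
    apply h
    rw [hCdef, Subgroup.mem_centralizer_iff]
    intro q hq
    have h1 : (⟨q, hQN hq⟩ : N) ∈ Q.subgroupOf N := hq
    exact congrArg Subtype.val (Subgroup.mem_centralizer_iff.1 h' _ h1)
  obtain ⟨t, ht, hft⟩ := hgP
  have htC : (t : G) ∈ C := hfs t hft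
  -- the group `P` in `G`
  obtain ⟨P', hP'def⟩ : ∃ P' : Subgroup G, P' = P.map N.subtype := ⟨_, rfl⟩
  have hcP' : Nat.card P' = Nat.card P := by
    rw [hP'def]
    exact Subgroup.card_map_of_injective N.subtype_injective
  have hPP' : IsPGroup ℓ P' := by
    rw [hP'def]
    exact hP.map _
  have hcen : ∀ s : N, s ∈ Subgroup.centralizer (P : Set N) →
      (s : G) ∈ Subgroup.centralizer (P' : Set G) := by
    intro s hs
    rw [Subgroup.mem_centralizer_iff]
    intro x hx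
    rw [hP'def] at hx
    obtain ⟨p, hp, rfl⟩ := hx
    exact congrArg Subtype.val (Subgroup.mem_centralizer_iff.1 hs p hp)
  have hGe : Gd e P' := by
    by_contra hcon
    apply hft
    have h1 : br P (fun t : N => br Q e t) = 0 := by
      funext s
      by_cases hs : s ∈ Subgroup.centralizer (P : Set N)
      · rw [H66.br_of_mem hs]
        show br Q e s = 0
        by_cases hsC : (s : G) ∈ Subgroup.centralizer (Q : Set G)
        · rw [H66.br_of_mem hsC]
          by_contra h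
          exact hcon ⟨s, hcen s hs, h⟩
        · exact H66.br_of_not_mem hsC
      · exact H66.br_of_not_mem hs
    have h2 : br P f = 0 := by
      rw [← hef, H66.br_mulF hF hP (H66.IsCl.inv hIN.1 P) (H66.IsCl.inv hf.1.1 P), h1,
        H75.mulF_zero_left]
    have h3 := congrFun h2 t
    rwa [H66.br_of_mem ht] at h3
  have hQP' : Q ≤ P' := by
    intro q hq
    rw [hP'def]
    exact ⟨⟨q, hQN hq⟩, hQP.le hq, rfl⟩
  have hcomm := hab P' hPP' hGe
  have hP'C : P' ≤ C := by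
    intro p hp
    rw [hCdef, Subgroup.mem_centralizer_iff]
    intro q hq
    exact hcomm q (hQP' hq) p hp
  have hcQ : Nat.card Q < Nat.card P' := by
    have h1 : Nat.card (Q.subgroupOf N) < Nat.card P := by
      have h2 : (Q.subgroupOf N : Set N) ⊂ (P : Set N) := hQP
      have h3 := Set.ncard_lt_ncard h2 (Set.toFinite _)
      rwa [← Nat.card_coe_set_eq, ← Nat.card_coe_set_eq] at h3
    rw [hcP']
    rwa [Nat.card_congr (Subgroup.subgroupOfEquivOfLe hQN).toEquiv] at h1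
  -- the function `f` on `G`
  obtain ⟨fh, hfh⟩ : ∃ fh : G → F, fh = H75.ext0 N f := ⟨_, rfl⟩
  have hfhs : ∀ x, x ∉ N → fh x = 0 := by
    rw [hfh]
    exact H75.ext0_supp N f
  have hfhN : (fun t : N => fh t) = f := by
    rw [hfh]
    exact funext (H75.ext0_apply N f)
  have hBf : Bx N fh := ⟨hfhs, by rw [hfhN]; exact hf⟩
  have hfhC : ∀ x, x ∉ C → fh x = 0 := by
    intro x hx
    by_cases hxN : x ∈ N
    · have h1 : fh x = f ⟨x, hxN⟩ := congrFun hfhN ⟨x, hxN⟩
      rw [h1]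
      by_contra h
      exact hx (hfs _ h)
    · exact hfhs x hxN
  have hIf : Ix C fh := by
    refine ⟨hfhC, ?_, ?_⟩
    · intro x y
      exact hBf.blk.1.1 ⟨x, hCN x.2⟩ ⟨y, hCN y.2⟩
    · rw [← H75.mulF_res C fh hfhC, hBf.mul]
  have hfg' : mulF fh gh = gh := by
    rw [hIf.comm hBg.ix]
    rcases hBg.dich' hIf with h | h
    · exact h
    · exfalso
      apply hfg
      rw [← hfhN, ← H75.mulF_res N gh hfhs, hIf.comm hBg.ix, h]
      rfl
  obtain ⟨γ, hγ, hfγ, hγt⟩ := K9.H24.exists_blk (L := fun a : C → F => a ⟨t, htC⟩) rfl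
    (fun a b => rfl) hIf.idem (by
      show fh t ≠ 0
      have h1 : fh t = f t := congrFun hfhN t
      rw [h1]
      exact hft)
  obtain ⟨γh, hγh⟩ : ∃ γh : G → F, γh = H75.ext0 C γ := ⟨_, rfl⟩
  have hγhs : ∀ x, x ∉ C → γh x = 0 := by
    rw [hγh]
    exact H75.ext0_supp C γ
  have hγhC : (fun t : C => γh t) = γ := by
    rw [hγh]
    exact funext (H75.ext0_apply C γ)
  have hfγ' : mulF fh γh = γh := by
    apply H75.eq_of_res (H75.mulF_supp C hfhC hγhs) hγhs
    rw [H75.mulF_res C γh hfhC, hγhC, hfγ]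
  obtain ⟨n, hn, hnx⟩ := Pool.Agent.PP.K9.H97.orb ℓ F hF G N C hCN hNC fh hfhC
    (by rw [hfhN]; exact hf) γh gh hγhs hghs (by rw [hγhC]; exact hγ) hBg.blk
    hfγ' hfg'
  -- the conjugate
  have hval : gh (n⁻¹ * t * n) ≠ 0 := by
    rw [hnx]
    have h1 : n * (n⁻¹ * (t : G) * n) * n⁻¹ = t := by group
    rw [h1]
    have h2 : γh t = γ ⟨t, htC⟩ := congrFun hγhC ⟨t, htC⟩
    rw [h2]
    exact hγt
  obtain ⟨W, hW⟩ : ∃ W : Subgroup G, W = conjS n⁻¹ P' := ⟨_, rfl⟩
  have hWmem : ∀ x, x ∈ W ↔ n * x * n⁻¹ ∈ P' := by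
    intro x
    rw [hW, mem_conjS, inv_inv]
  have hWC : W ≤ C := by
    intro x hx
    exact (hconjC n hn x).2 (hP'C ((hWmem x).1 hx))
  have hWcard : Nat.card W = Nat.card P' := by rw [hW, KF.H55.card_conj4]
  have hQW : Q ≤ W := by
    intro q hq
    exact (hWmem q).2 (hQP' ((hconjQ n hn q).1 hq))
  refine ⟨W, ?_, ?_, hWC, ?_, n⁻¹ * t * n, ?_, hval⟩
  · rw [hW]
    exact hPP'.map _
  · refine lt_of_le_of_ne hQW ?_
    intro h
    rw [h, hWcard] at hcQ
    exact lt_irrefl _ hcQ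
  · intro a ha b hb
    have h1 := hcomm _ ((hWmem a).1 ha) _ ((hWmem b).1 hb)
    calc a * b = n⁻¹ * ((n * a * n⁻¹) * (n * b * n⁻¹)) * n := by group
      _ = n⁻¹ * ((n * b * n⁻¹) * (n * a * n⁻¹)) * n := by rw [h1]
      _ = b * a := by group
  · rw [Subgroup.mem_centralizer_iff]
    intro x hx
    have h1 : n * x * n⁻¹ ∈ P' := (hWmem x).1 hx
    have h2 := Subgroup.mem_centralizer_iff.1 (hcen t ht) _ h1
    calc x * (n⁻¹ * t * n) = n⁻¹ * ((n * x * n⁻¹) * t) * n := by group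
      _ = n⁻¹ * (t * (n * x * n⁻¹)) * n := by rw [h2]
      _ = (n⁻¹ * t * n) * x := by group

end core

attribute [local instance] Ideal.Quotient.field

/-- good subgroups are abelian if the defect group is -/
theorem good_comm {ℓ : ℕ} [Fact ℓ.Prime] {M : Ideal (integralClosure ℤ ℂ)} [M.IsMaximal]
    (hM : (ℓ : integralClosure ℤ ℂ) ∈ M) {G : Type} [Group G] [Finite G] {e : G → FF M}
    (he : IsBlk e) {V : Subgroup G} (hV : Tp ℓ e V) (hVc : ∀ a ∈ V, ∀ b ∈ V, a * b = b * a)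
    (P : Subgroup G) (hP : IsPGroup ℓ P) (hg : Gd e P) : ∀ a ∈ P, ∀ b ∈ P, a * b = b * a := by
  obtain ⟨g, hg⟩ := (K9.H69.fmg ℓ M hM G e he V hV).1 P hP hg
  intro a ha b hb
  have h1 := mem_conjS.1 (hg ha)
  have h2 := mem_conjS.1 (hg hb)
  have h3 := hVc _ h1 _ h2
  calc a * b = g * ((g⁻¹ * a * g) * (g⁻¹ * b * g)) * g⁻¹ := by group
    _ = g * ((g⁻¹ * b * g) * (g⁻¹ * a * g)) * g⁻¹ := by rw [h3]
    _ = b * a := by group

/-- DUG -/
theorem dug : DugStmt := by
  intro ℓ hfact M _ hM G _ _ e he V hV hVc Q hQ _ hlt g hg heg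
  have hF : GoodF ℓ (FF M) := H50.fld ℓ hfact.out M hM
  exact core hF he.1 hQ (good_comm hM he hV hVc) rfl rfl
    (fun f hf hef => K9.H24.dun K9.H69.fmg ℓ M hM G e he V hV Q hQ hlt f hf hef) ⟨hg.off, hg.blk⟩ heg

end Pool.Agent.PP.C2.H3
end
end -- Pool.Agent.Helper3_C2.DUG

section -- Pool.Agent.Helper3_C2.GDV

/-!
# C2, module GDV: the blocks of `C(Q)` have defect groups of order `|V|`
-/

open scoped BigOperators Pointwise

noncomputable section

namespace Pool.Agent.PP.C2.H3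

open Pool.Agent.Helper51_AWC Pool.Agent.Helper79_WRA Pool.Agent.PP Pool.Agent.PP.KF
open Pool.Agent.PP.K9
open Pool.Agent.PP.K9.H97 (Ix Bx)

section

variable {F G : Type} [Field F] [Group G]

theorem br_br {P R : Subgroup G} (h : P ≤ R) (a : G → F) : br R (br P a) = br R a := by
  funext t
  by_cases ht : t ∈ Subgroup.centralizer (R : Set G)
  · rw [H66.br_of_mem ht, H66.br_of_mem ht,
      H66.br_of_mem (Subgroup.centralizer_le (show (P : Set G) ⊆ R from h) ht)]
  · rw [H66.br_of_not_mem ht, H66.br_of_not_mem ht]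

theorem br_ne_of_gd {P : Subgroup G} {a : G → F} (h : Gd a P) : br P a ≠ 0 := by
  obtain ⟨x, hx, hx2⟩ := h
  intro h0
  apply hx2
  rw [← H66.br_of_mem (a := a) hx, h0]
  rfl

theorem gd_of_br' {e : G → F} {R : Subgroup G} (h : br R e ≠ 0) : Gd e R := by
  by_contra h0
  apply h
  funext t
  by_cases ht : t ∈ Subgroup.centralizer (R : Set G)
  · rw [H66.br_of_mem ht]
    by_contra h1
    exact h0 ⟨t, ht, h1⟩
  · exact H66.br_of_not_mem ht

theorem ix_br [Finite G] {ℓ : ℕ} (hF : GoodF ℓ F) {b : G → F} {P : Subgroup G}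
    (hP : IsPGroup ℓ P) (h1 : ∀ y ∈ Subgroup.centralizer (P : Set G), ∀ x, b (y * x * y⁻¹) = b x)
    (hinv : H66.Inv P b) (hbb : mulF b b = b) :
    Ix (Subgroup.centralizer (P : Set G)) (br P b) := by
  refine ⟨fun x hx => H66.br_of_not_mem hx, ?_, ?_⟩
  · intro x y
    show br P b ((y : G) * x * (y : G)⁻¹) = br P b x
    rw [H66.br_of_mem x.2, H66.br_of_mem (mul_mem (mul_mem y.2 x.2) (inv_mem y.2))]
    exact h1 _ y.2 _
  · rw [← H75.mulF_res (Subgroup.centralizer (P : Set G)) (br P b)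
      (fun x hx => H66.br_of_not_mem hx), ← H66.br_mulF hF hP hinv hinv, hbb]

theorem ix_inv [Finite G] {X : Subgroup G} {b : G → F} (h : Ix X b) {y : G} (hy : y ∈ X)
    (x : G) : b (y * x * y⁻¹) = b x :=
  (H75.cj_eq_iff _ _).1 (h.inv hy) x

end

attribute [local instance] Ideal.Quotient.field

/-- GDV -/
theorem gdv (dug : DugStmt) : GdvStmt := by
  intro ℓ hfact M _ hM G _ _ e he V hV hVc
  have hF : GoodF ℓ (FF M) := H50.fld ℓ hfact.out M hM
  have key : ∀ n : ℕ, ∀ Q : Subgroup G, Nat.card V - Nat.card Q = n → IsPGroup ℓ Q →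
      ∀ g : G → FF M, Bk (Subgroup.centralizer (Q : Set G)) g → mulF (br Q e) g = g →
      ∃ P : Subgroup G, IsPGroup ℓ P ∧ Q ≤ P ∧ P ≤ Subgroup.centralizer (Q : Set G) ∧
        Nat.card P = Nat.card V ∧ Gd g P := by
    intro n
    induction n using Nat.strong_induction_on with
    | _ n ih =>
      intro Q hn hQ g hg heg
      have hBg : Bx (Subgroup.centralizer (Q : Set G)) g := ⟨hg.off, hg.blk⟩
      have hQe : Gd e Q := by
        apply gd_of_br'
        intro h0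
        apply hBg.ne
        rw [← heg, h0, H75.mulF_zero_left]
      have hQab := good_comm hM he hV hVc Q hQ hQe
      have hle := hV.mx Q hQ hQe
      rcases hle.eq_or_lt with heq | hlt
      · refine ⟨Q, hQ, le_rfl, ?_, heq, ?_⟩
        · intro a ha
          rw [Subgroup.mem_centralizer_iff]
          intro b hb
          exact hQab b hb a ha
        · obtain ⟨x, hx⟩ := Function.ne_iff.1 hBg.ne
          refine ⟨x, ?_, hx⟩
          by_contra h
          exact hx (hg.off x h)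
      · obtain ⟨P, hP, hQP, hPC, hPab, hgP⟩ := dug ℓ M hM G e he V hV hVc Q hQ hQab hlt g hg heg
        have hCC : Subgroup.centralizer (P : Set G) ≤ Subgroup.centralizer (Q : Set G) :=
          Subgroup.centralizer_le (show (Q : Set G) ⊆ P from hQP.le)
        have hinvP : H66.Inv P g := fun p hp t => ix_inv hBg.ix (hPC hp) t
        have hIg : Ix (Subgroup.centralizer (P : Set G)) (br P g) :=
          ix_br hF hP (fun y hy x => ix_inv hBg.ix (hCC hy) x) hinvP hBg.mul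
        have hbrg : br P g ≠ 0 := br_ne_of_gd hgP
        have hIQ : Ix (Subgroup.centralizer (Q : Set G)) (br Q e) :=
          ix_br hF hQ (fun y _ x => he.1.1 x y) (H66.IsCl.inv he.1.1 Q) he.1.2
        have hinvQ : H66.Inv P (br Q e) := fun p hp t => ix_inv hIQ (hPC hp) t
        have hPeg : mulF (br P e) (br P g) = br P g := by
          have h1 := congrArg (br P) heg
          rwa [H66.br_mulF hF hP hinvQ hinvP, br_br hQP.le] at h1
        obtain ⟨γ, hγ, hgγ, -⟩ := K9.H24.exists_blk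
          (L := fun a : Subgroup.centralizer (P : Set G) → FF M => a) rfl
          (fun a b => rfl) hIg.idem (by
            intro h
            apply hbrg
            exact H75.eq_of_res hIg.supp (fun _ _ => rfl) h)
        obtain ⟨γh, hγh⟩ : ∃ γh : G → FF M,
            γh = H75.ext0 (Subgroup.centralizer (P : Set G)) γ := ⟨_, rfl⟩
        have hγhs : ∀ x, x ∉ Subgroup.centralizer (P : Set G) → γh x = 0 := by
          rw [hγh]
          exact H75.ext0_supp _ γ
        have hγhC : (fun t : Subgroup.centralizer (P : Set G) => γh t) = γ := by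
          rw [hγh]
          exact funext (H75.ext0_apply _ γ)
        have hBγ : Bx (Subgroup.centralizer (P : Set G)) γh := ⟨hγhs, by rw [hγhC]; exact hγ⟩
        have hgγ' : mulF (br P g) γh = γh := by
          apply H75.eq_of_res (H75.mulF_supp _ hIg.supp hγhs) hγhs
          rw [H75.mulF_res _ γh hIg.supp, hγhC, hgγ]
        have heγ : mulF (br P e) γh = γh := by
          rw [← hgγ', ← H20.mulF_assoc, hPeg]
        have hcard : Nat.card Q < Nat.card P := by
          have h2 : (Q : Set G) ⊂ (P : Set G) := hQP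
          have h3 := Set.ncard_lt_ncard h2 (Set.toFinite _)
          rwa [← Nat.card_coe_set_eq, ← Nat.card_coe_set_eq] at h3
        obtain ⟨R, hR, hPR, hRC, hRV, hgR⟩ := ih (Nat.card V - Nat.card P) (by omega) P rfl hP γh
          ⟨hBγ.supp, hBγ.blk⟩ heγ
        refine ⟨R, hR, hQP.le.trans hPR, hRC.trans hCC, hRV, gd_of_br' ?_⟩
        intro h0
        have hinvR1 : H66.Inv R (br P g) := fun p hp t => ix_inv hIg (hRC hp) t
        have hinvR2 : H66.Inv R γh := fun p hp t => ix_inv hBγ.ix (hRC hp) t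
        have h1 := congrArg (br R) hgγ'
        rw [H66.br_mulF hF hR hinvR1 hinvR2, br_br hPR, h0, H75.mulF_zero_left] at h1
        exact br_ne_of_gd hgR h1.symm
  intro Q hQ g hg heg
  exact key _ Q rfl hQ g hg heg

end Pool.Agent.PP.C2.H3
end
end -- Pool.Agent.Helper3_C2.GDV

section -- Pool.Agent.Helper65_AT2.TYA

/-!
# AT2, row TYA: the blocks of `N(Q)/Q` which are not over a conjugate of `(U, f)`
-/

open scoped BigOperators

noncomputable section

namespace Pool.Agent.PP.T2.H65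

open Pool.Agent.Helper51_AWC Pool.Agent.Helper79_WRA Pool.Agent.PP Pool.Agent.PP.KF
open Pool.Agent.PP.K9 Pool.Agent.PP.K9.H97 Pool.Agent.PP.H75 Pool.Agent.PP.T3

attribute [local instance] Ideal.Quotient.field

set_option linter.unusedSectionVars false

section push

variable {F A B : Type} [Field F] [Group A] [Group B] [Finite A] [Finite B]

/-- the image of an invariant function on the centraliser of the image of `Q` -/
theorem push_br_inv {ℓ : ℕ} (hF : GoodF ℓ F) {p : A →* B} {Q : Subgroup A} (hQ : IsPGroup ℓ Q)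
    {e : A → F} (he : H66.Inv Q e) {y : B}
    (hy : y ∈ Subgroup.centralizer ((Q.map p : Subgroup B) : Set B)) :
    push p e y = push p (br Q e) y := by
  classical
  have := Fintype.ofFinite A
  have h1 := H66.orb_conj (F := F) hF hQ (fun x : A => if p x = y then e x else 0) (by
    intro q hq t
    have h2 : p (q * t * q⁻¹) = y ↔ p t = y := by
      rw [map_mul, map_mul, map_inv]
      have h3 := Subgroup.mem_centralizer_iff.1 hy (p q) ⟨q, hq, rfl⟩
      constructor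
      · intro h4
        have h5 : p t = (p q)⁻¹ * (p q * p t * (p q)⁻¹) * p q := by group
        rw [h5, h4, mul_assoc, ← h3, inv_mul_cancel_left]
      · intro h4
        rw [h4, h3, mul_inv_cancel_right]
    change (if p (q * t * q⁻¹) = y then e (q * t * q⁻¹) else 0) = if p t = y then e t else 0
    by_cases h : p t = y
    · rw [if_pos h, if_pos (h2.2 h), he q hq]
    · rw [if_neg h, if_neg (fun h' => h (h2.1 h'))])
  rw [finsum_eq_sum_of_fintype, finsum_eq_sum_of_fintype] at h1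
  rw [push_eq, push_eq, h1]
  refine Finset.sum_congr rfl fun x _ => ?_
  by_cases hx : x ∈ Subgroup.centralizer (Q : Set A)
  · rw [H66.br_of_mem hx, H66.br_of_mem hx]
  · rw [H66.br_of_not_mem hx, H66.br_of_not_mem hx, ite_self]

/-- the image of an invariant function is invariant under the image -/
theorem push_inv {p : A →* B} {Q : Subgroup A} {e : A → F} (he : H66.Inv Q e) :
    H66.Inv (Q.map p) (push p e) := by
  rintro _ ⟨q, hq, rfl⟩ t
  have h1 : cj q e = e := (cj_eq_iff q e).2 (he q hq)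
  have h2 : cj (p q) (push p e) = push p e := by
    rw [← T3.H43.push_cj, h1]
  exact (cj_eq_iff _ _).1 h2 t

/-- conjugation and the Brauer map -/
theorem cj_br (k : A) (V : Subgroup A) (a : A → F) : br (conjS k V) (cj k a) = cj k (br V a) := by
  funext t
  have h1 : t ∈ Subgroup.centralizer ((conjS k V : Subgroup A) : Set A) ↔
      k⁻¹ * t * k ∈ Subgroup.centralizer (V : Set A) := by
    rw [Subgroup.mem_centralizer_iff, Subgroup.mem_centralizer_iff]
    constructor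
    · intro h v hv
      have h2 := h (k * v * k⁻¹) (mem_conjS.2 (by
        have h3 : k⁻¹ * (k * v * k⁻¹) * k = v := by group
        rwa [h3]))
      calc v * (k⁻¹ * t * k) = k⁻¹ * ((k * v * k⁻¹) * t) * k := by group
        _ = k⁻¹ * (t * (k * v * k⁻¹)) * k := by rw [h2]
        _ = (k⁻¹ * t * k) * v := by group
    · intro h v hv
      have h2 := h (k⁻¹ * v * k) (mem_conjS.1 hv)
      calc v * t = k * ((k⁻¹ * v * k) * (k⁻¹ * t * k)) * k⁻¹ := by group
        _ = k * ((k⁻¹ * t * k) * (k⁻¹ * v * k)) * k⁻¹ := by rw [h2]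
        _ = t * v := by group
  by_cases ht : t ∈ Subgroup.centralizer ((conjS k V : Subgroup A) : Set A)
  · rw [br_in _ ht]
    change a (k⁻¹ * t * k) = br V a (k⁻¹ * t * k)
    rw [br_in _ (h1.1 ht)]
  · rw [br_out _ ht]
    change 0 = br V a (k⁻¹ * t * k)
    rw [br_out _ (fun h => ht (h1.2 h))]

end push

/-- row TYA -/
theorem tya (pwu : PwuStmt) (qt1 : Qt1Stmt) (qt2 : Qt2Stmt) (lcj : LcjStmt) : TyaStmt := by
  intro ℓ _ M _ hM G _ _ e V γ hLd a ha hexp f hFs Q hQp A _ _ p hp hker f₁ hf₁ hff hno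
  classical
  have hF : GoodF ℓ (FF M) := H50.fld ℓ Fact.out M hM
  obtain ⟨k, hQk, hTp⟩ := qt1 ℓ M hM G e V γ hLd Q hQp A p hp hker f₁ hf₁ hff
  obtain ⟨hLdk, hixk⟩ := lcj ℓ (FF M) hF G e V γ hLd k
  obtain ⟨γ', hLd', hix'⟩ := qt2 ℓ M hM G e (conjS k V) (cj k γ) hLdk Q hQk A p hp hker f₁ hf₁
    hff hTp
  obtain ⟨W, hW⟩ : ∃ W : Subgroup G, W = conjS k V := ⟨_, rfl⟩
  rw [← hW] at hQk hTp hLdk hixk hLd' hix'
  have hWp : IsPGroup ℓ W := hLdk.tp.pg
  have hWQ : W ≤ Subgroup.centralizer (Q : Set G) := by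
    intro w hw
    rw [Subgroup.mem_centralizer_iff]
    intro x hx
    exact hLdk.ab x (hQk hx) w hw
  have hWN : W ≤ Subgroup.normalizer (Q : Set G) :=
    hWQ.trans (Subgroup.centralizer_le_normalizer _)
  obtain ⟨V₁, hV₁⟩ : ∃ V₁ : Subgroup (Subgroup.normalizer (Q : Set G)),
    V₁ = W.subgroupOf (Subgroup.normalizer (Q : Set G)) := ⟨_, rfl⟩
  rw [← hV₁] at hTp hLd' hix'
  have hV₁p : IsPGroup ℓ V₁ := by
    rw [hV₁]
    exact hWp.comap_of_injective (Subgroup.normalizer (Q : Set G)).subtype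
      (Subgroup.normalizer (Q : Set G)).subtype_injective
  have hV₁c : ∀ t : Subgroup.normalizer (Q : Set G),
      t ∈ Subgroup.centralizer (V₁ : Set (Subgroup.normalizer (Q : Set G))) ↔
        (t : G) ∈ Subgroup.centralizer (W : Set G) := by
    rw [hV₁]
    exact cent_sub hWN
  have hCWQ : Subgroup.centralizer (W : Set G) ≤ Subgroup.centralizer (Q : Set G) :=
    Subgroup.centralizer_le hQk
  -- `V` is isomorphic to `V₁`
  have hiso : Nonempty (V ≃* V₁) := by
    subst hW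
    subst hV₁
    exact ⟨(conjSEquiv k V).trans (Subgroup.subgroupOfEquivOfLe hWN).symm⟩
  obtain ⟨φ⟩ := hiso
  have hexp₁ : Monoid.exponent V₁ = ℓ ^ a := by
    rw [← hexp]
    exact (Monoid.exponent_eq_of_mulEquiv φ).symm
  have hV₁ab : ∀ x ∈ V₁, ∀ y ∈ V₁, x * y = y * x := by
    intro x hx y hy
    rw [hV₁] at hx hy
    exact Subtype.ext (hLdk.ab _ (Subgroup.mem_subgroupOf.1 hx) _ (Subgroup.mem_subgroupOf.1 hy))
  refine ⟨V₁.map p, γ', hLd', ?_, ⟨(p.subgroupMap V₁).comp φ.toMonoidHom, ?_⟩, ?_⟩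
  · obtain ⟨-, -, -, -, -, -, -, h8⟩ := pwu (Subgroup.normalizer (Q : Set G)) (ℓ ^ (a - 1)) V₁ hV₁ab
    obtain ⟨-, h9⟩ := h8 ℓ a ha hexp₁ rfl
    rcases h9 A p with h10 | h10
    · exact h10
    · exfalso
      obtain ⟨-, -, -, -, h5, -, -, -⟩ := pwu G (ℓ ^ (a - 1)) V hLd.ab
      obtain ⟨-, h2', -, -, -, -, h7, -⟩ := pwu G (ℓ ^ (a - 1)) W hLdk.ab
      have hUQ : conjS k (Uw (ℓ ^ (a - 1)) V) ≤ Q := by
        rw [← h5 k, ← hW]
        intro x hx
        have hxN : x ∈ Subgroup.normalizer (Q : Set G) := hWN (h2' hx)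
        have h11 : (⟨x, hxN⟩ : Subgroup.normalizer (Q : Set G)) ∈ Uw (ℓ ^ (a - 1)) V₁ := by
          rw [hV₁, h7 _ hWN]
          exact Subgroup.mem_subgroupOf.2 hx
        have h12 := h10 h11
        rw [hker] at h12
        exact Subgroup.mem_subgroupOf.1 h12
      have h13 := hno k hUQ
      -- invariance
      have hfinv : ∀ v ∈ V, ∀ x, f (v * x * v⁻¹) = f x := by
        intro v hv x
        have hvX : v ∈ Subgroup.normalizer ((Uw (ℓ ^ (a - 1)) V : Subgroup G) : Set G) :=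
          hFs.nle (Subgroup.le_normalizer hv)
        exact C2.H3.ix_inv hFs.blk.ix hvX x
      have hkf : H66.Inv W (cj k f) := by
        intro w hw x
        rw [hW] at hw
        have h1 := hfinv _ (mem_conjS.1 hw) (k⁻¹ * x * k)
        change f (k⁻¹ * (w * x * w⁻¹) * k) = f (k⁻¹ * x * k)
        rw [← h1]
        congr 1
        group
      have hbrinv : ∀ b : G → FF M, H66.Inv W b →
          H66.Inv V₁ (fun t : Subgroup.normalizer (Q : Set G) => br Q b t) := by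
        intro b hb w hw x
        rw [hV₁] at hw
        have hw1 : (w : G) ∈ W := Subgroup.mem_subgroupOf.1 hw
        change br Q b ((w : G) * x * (w : G)⁻¹) = br Q b x
        have hwQ := hWQ hw1
        by_cases hx : (x : G) ∈ Subgroup.centralizer (Q : Set G)
        · rw [br_in _ hx, br_in _ (mul_mem (mul_mem hwQ hx) (inv_mem hwQ))]
          exact hb _ hw1 _
        · rw [br_out _ hx, br_out]
          intro h
          apply hx
          have h1 := mul_mem (mul_mem (inv_mem hwQ) h) hwQ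
          have h2 : (w : G)⁻¹ * ((w : G) * x * (w : G)⁻¹) * w = x := by group
          rwa [h2] at h1
      have hbb : ∀ b : G → FF M, br V₁ (fun t : Subgroup.normalizer (Q : Set G) => br Q b t) =
          fun t : Subgroup.normalizer (Q : Set G) => br W b t := by
        intro b
        funext t
        by_cases ht : (t : G) ∈ Subgroup.centralizer (W : Set G)
        · rw [br_in _ ((hV₁c t).2 ht), br_in _ ht, br_in _ (hCWQ ht)]
        · rw [br_out _ (fun h => ht ((hV₁c t).1 h)), br_out _ ht]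
      have hWe : br W (cj k f) = br W e := by
        rw [hW, cj_br, hFs.brV, ← cj_br, cj_isCl k hLd.blk.1.1]
      have heW : H66.Inv W e := H66.IsCl.inv hLd.blk.1.1 W
      obtain ⟨f', hf'⟩ : ∃ f' : A → FF M,
        f' = push p (fun t : Subgroup.normalizer (Q : Set G) => br Q e t) := ⟨_, rfl⟩
      obtain ⟨f'', hf''⟩ : ∃ f'' : A → FF M,
        f'' = push p (fun t : Subgroup.normalizer (Q : Set G) => br Q (cj k f) t) := ⟨_, rfl⟩
      rw [← hf'] at hff
      rw [← hf''] at h13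
      have hbr : br (V₁.map p) f' = br (V₁.map p) f'' := by
        funext y
        by_cases hy : y ∈ Subgroup.centralizer ((V₁.map p : Subgroup A) : Set A)
        · rw [br_in _ hy, br_in _ hy, hf', hf'', push_br_inv hF hV₁p (hbrinv e heW) hy,
            push_br_inv hF hV₁p (hbrinv _ hkf) hy, hbb, hbb, hWe]
        · rw [br_out _ hy, br_out _ hy]
      have hi' : H66.Inv (V₁.map p) f' := by
        rw [hf']
        exact push_inv (hbrinv e heW)
      have hi'' : H66.Inv (V₁.map p) f'' := by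
        rw [hf'']
        exact push_inv (hbrinv _ hkf)
      have hi₁ : H66.Inv (V₁.map p) f₁ := H66.IsCl.inv hf₁.1.1 _
      have hVp : IsPGroup ℓ (V₁.map p) := hTp.pg
      have h14 : br (V₁.map p) f₁ = 0 := by
        rw [← hff, H66.br_mulF hF hVp hi' hi₁, hbr, ← H66.br_mulF hF hVp hi'' hi₁, h13]
        funext t
        by_cases ht : t ∈ Subgroup.centralizer ((V₁.map p : Subgroup A) : Set A)
        · rw [br_in _ ht]
        · rw [br_out _ ht]
          rfl
      exact C2.H3.br_ne_of_gd hTp.gd h14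
  · intro y
    obtain ⟨x, hx⟩ := p.subgroupMap_surjective V₁ y
    obtain ⟨v, hv⟩ := φ.surjective x
    refine ⟨v, ?_⟩
    change p.subgroupMap V₁ (φ v) = y
    rw [hv, hx]
  · rw [hixk] at hix'
    exact hix'

end Pool.Agent.PP.T2.H65
end
end -- Pool.Agent.Helper65_AT2.TYA

section -- Pool.Agent.Helper25_AT8.TY8

/-!
# AT8, row TY8: the blocks of `N(Q)/Q` which are not over a conjugate of `(U, f)`
-/

open scoped BigOperators

noncomputable section

namespace Pool.Agent.PP.T8.H25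

open Pool.Agent.Helper51_AWC Pool.Agent.Helper79_WRA Pool.Agent.PP Pool.Agent.PP.KF
open Pool.Agent.PP.K9 Pool.Agent.PP.K9.H97 Pool.Agent.PP.H75 Pool.Agent.PP.T3 Pool.Agent.PP.T2
open Pool.Agent.PP.T2.H65

attribute [local instance] Ideal.Quotient.field

set_option linter.unusedSectionVars false

/-- row TY8 -/
theorem ty8 (pwu : PwuStmt) (qt1 : Qt1Stmt) (qt3 : Qt3Stmt) (lcj : LcjStmt) (fqt : FqtStmt) :
    Ty8aStmt := by
  intro ℓ _ M _ hM G _ _ e V γ hLd a ha hexp f hFs Q hQp A _ _ p hp hker f₁ hf₁ hff hno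
  classical
  have hF : GoodF ℓ (FF M) := H50.fld ℓ Fact.out M hM
  obtain ⟨k, hQk, hTp⟩ := qt1 ℓ M hM G e V γ hLd Q hQp A p hp hker f₁ hf₁ hff
  obtain ⟨hLdk, hixk⟩ := lcj ℓ (FF M) hF G e V γ hLd k
  obtain ⟨γ', hLd', hFe⟩ := qt3 ℓ M hM G e (conjS k V) (cj k γ) hLdk Q hQk A p hp hker f₁ hf₁
    hff hTp
  obtain ⟨q1, q2, -, -⟩ := fqt ℓ (FF M) hF G e V γ hLd
  obtain ⟨-, -, -, q4⟩ := fqt ℓ (FF M) hF G e (conjS k V) (cj k γ) hLdk
  have hfq := q1 _ _ _ _ _ _ (q2 k) (q4 Q hQk A p γ' hFe)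
  obtain ⟨W, hW⟩ : ∃ W : Subgroup G, W = conjS k V := ⟨_, rfl⟩
  rw [← hW] at hQk hTp hLdk hixk hLd' hfq
  have hWp : IsPGroup ℓ W := hLdk.tp.pg
  have hWQ : W ≤ Subgroup.centralizer (Q : Set G) := by
    intro w hw
    rw [Subgroup.mem_centralizer_iff]
    intro x hx
    exact hLdk.ab x (hQk hx) w hw
  have hWN : W ≤ Subgroup.normalizer (Q : Set G) :=
    hWQ.trans (Subgroup.centralizer_le_normalizer _)
  obtain ⟨V₁, hV₁⟩ : ∃ V₁ : Subgroup (Subgroup.normalizer (Q : Set G)),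
    V₁ = W.subgroupOf (Subgroup.normalizer (Q : Set G)) := ⟨_, rfl⟩
  rw [← hV₁] at hTp hLd' hfq
  have hV₁p : IsPGroup ℓ V₁ := by
    rw [hV₁]
    exact hWp.comap_of_injective (Subgroup.normalizer (Q : Set G)).subtype
      (Subgroup.normalizer (Q : Set G)).subtype_injective
  have hV₁c : ∀ t : Subgroup.normalizer (Q : Set G),
      t ∈ Subgroup.centralizer (V₁ : Set (Subgroup.normalizer (Q : Set G))) ↔
        (t : G) ∈ Subgroup.centralizer (W : Set G) := by
    rw [hV₁]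
    exact cent_sub hWN
  have hCWQ : Subgroup.centralizer (W : Set G) ≤ Subgroup.centralizer (Q : Set G) :=
    Subgroup.centralizer_le hQk
  -- `V` is isomorphic to `V₁`
  have hiso : Nonempty (V ≃* V₁) := by
    subst hW
    subst hV₁
    exact ⟨(conjSEquiv k V).trans (Subgroup.subgroupOfEquivOfLe hWN).symm⟩
  obtain ⟨φ⟩ := hiso
  have hexp₁ : Monoid.exponent V₁ = ℓ ^ a := by
    rw [← hexp]
    exact (Monoid.exponent_eq_of_mulEquiv φ).symm
  have hV₁ab : ∀ x ∈ V₁, ∀ y ∈ V₁, x * y = y * x := by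
    intro x hx y hy
    rw [hV₁] at hx hy
    exact Subtype.ext (hLdk.ab _ (Subgroup.mem_subgroupOf.1 hx) _ (Subgroup.mem_subgroupOf.1 hy))
  refine ⟨V₁.map p, γ', hLd', ?_, hfq⟩
  · obtain ⟨-, -, -, -, -, -, -, h8⟩ := pwu (Subgroup.normalizer (Q : Set G)) (ℓ ^ (a - 1)) V₁ hV₁ab
    obtain ⟨-, h9⟩ := h8 ℓ a ha hexp₁ rfl
    rcases h9 A p with h10 | h10
    · exact h10
    · exfalso
      obtain ⟨-, -, -, -, h5, -, -, -⟩ := pwu G (ℓ ^ (a - 1)) V hLd.ab
      obtain ⟨-, h2', -, -, -, -, h7, -⟩ := pwu G (ℓ ^ (a - 1)) W hLdk.ab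
      have hUQ : conjS k (Uw (ℓ ^ (a - 1)) V) ≤ Q := by
        rw [← h5 k, ← hW]
        intro x hx
        have hxN : x ∈ Subgroup.normalizer (Q : Set G) := hWN (h2' hx)
        have h11 : (⟨x, hxN⟩ : Subgroup.normalizer (Q : Set G)) ∈ Uw (ℓ ^ (a - 1)) V₁ := by
          rw [hV₁, h7 _ hWN]
          exact Subgroup.mem_subgroupOf.2 hx
        have h12 := h10 h11
        rw [hker] at h12
        exact Subgroup.mem_subgroupOf.1 h12
      have h13 := hno k hUQ
      -- invariance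
      have hfinv : ∀ v ∈ V, ∀ x, f (v * x * v⁻¹) = f x := by
        intro v hv x
        have hvX : v ∈ Subgroup.normalizer ((Uw (ℓ ^ (a - 1)) V : Subgroup G) : Set G) :=
          hFs.nle (Subgroup.le_normalizer hv)
        exact C2.H3.ix_inv hFs.blk.ix hvX x
      have hkf : H66.Inv W (cj k f) := by
        intro w hw x
        rw [hW] at hw
        have h1 := hfinv _ (mem_conjS.1 hw) (k⁻¹ * x * k)
        change f (k⁻¹ * (w * x * w⁻¹) * k) = f (k⁻¹ * x * k)
        rw [← h1]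
        congr 1
        group
      have hbrinv : ∀ b : G → FF M, H66.Inv W b →
          H66.Inv V₁ (fun t : Subgroup.normalizer (Q : Set G) => br Q b t) := by
        intro b hb w hw x
        rw [hV₁] at hw
        have hw1 : (w : G) ∈ W := Subgroup.mem_subgroupOf.1 hw
        change br Q b ((w : G) * x * (w : G)⁻¹) = br Q b x
        have hwQ := hWQ hw1
        by_cases hx : (x : G) ∈ Subgroup.centralizer (Q : Set G)
        · rw [br_in _ hx, br_in _ (mul_mem (mul_mem hwQ hx) (inv_mem hwQ))]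
          exact hb _ hw1 _
        · rw [br_out _ hx, br_out]
          intro h
          apply hx
          have h1 := mul_mem (mul_mem (inv_mem hwQ) h) hwQ
          have h2 : (w : G)⁻¹ * ((w : G) * x * (w : G)⁻¹) * w = x := by group
          rwa [h2] at h1
      have hbb : ∀ b : G → FF M, br V₁ (fun t : Subgroup.normalizer (Q : Set G) => br Q b t) =
          fun t : Subgroup.normalizer (Q : Set G) => br W b t := by
        intro b
        funext t
        by_cases ht : (t : G) ∈ Subgroup.centralizer (W : Set G)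
        · rw [br_in _ ((hV₁c t).2 ht), br_in _ ht, br_in _ (hCWQ ht)]
        · rw [br_out _ (fun h => ht ((hV₁c t).1 h)), br_out _ ht]
      have hWe : br W (cj k f) = br W e := by
        rw [hW, cj_br, hFs.brV, ← cj_br, cj_isCl k hLd.blk.1.1]
      have heW : H66.Inv W e := H66.IsCl.inv hLd.blk.1.1 W
      obtain ⟨f', hf'⟩ : ∃ f' : A → FF M,
        f' = push p (fun t : Subgroup.normalizer (Q : Set G) => br Q e t) := ⟨_, rfl⟩
      obtain ⟨f'', hf''⟩ : ∃ f'' : A → FF M,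
        f'' = push p (fun t : Subgroup.normalizer (Q : Set G) => br Q (cj k f) t) := ⟨_, rfl⟩
      rw [← hf'] at hff
      rw [← hf''] at h13
      have hbr : br (V₁.map p) f' = br (V₁.map p) f'' := by
        funext y
        by_cases hy : y ∈ Subgroup.centralizer ((V₁.map p : Subgroup A) : Set A)
        · rw [br_in _ hy, br_in _ hy, hf', hf'', push_br_inv hF hV₁p (hbrinv e heW) hy,
            push_br_inv hF hV₁p (hbrinv _ hkf) hy, hbb, hbb, hWe]
        · rw [br_out _ hy, br_out _ hy]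
      have hi' : H66.Inv (V₁.map p) f' := by
        rw [hf']
        exact push_inv (hbrinv e heW)
      have hi'' : H66.Inv (V₁.map p) f'' := by
        rw [hf'']
        exact push_inv (hbrinv _ hkf)
      have hi₁ : H66.Inv (V₁.map p) f₁ := H66.IsCl.inv hf₁.1.1 _
      have hVp : IsPGroup ℓ (V₁.map p) := hTp.pg
      have h14 : br (V₁.map p) f₁ = 0 := by
        rw [← hff, H66.br_mulF hF hVp hi' hi₁, hbr, ← H66.br_mulF hF hVp hi'' hi₁, h13]
        funext t
        by_cases ht : t ∈ Subgroup.centralizer ((V₁.map p : Subgroup A) : Set A)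
        · rw [br_in _ ht]
        · rw [br_out _ ht]
          rfl
      exact C2.H3.br_ne_of_gd hTp.gd h14

end Pool.Agent.PP.T8.H25
end
end -- Pool.Agent.Helper25_AT8.TY8

section -- Pool.Agent.Helper88_AT3.Cgr

/-!
Squad AT3, row CGR: the congruence for one regular element.
-/

open scoped BigOperators

set_option autoImplicit false

noncomputable section

namespace Pool.Agent.PP.T3.H88

open Pool.Agent.Helper51_AWC Pool.Agent.Helper79_WRA Pool.Agent.PP Pool.Agent.PP.KF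
open Pool.Agent.PP.K9 Pool.Agent.PP.K9.H97 Pool.Agent.PP.H75

attribute [local instance] Ideal.Quotient.field

section tools

variable {F G : Type} [Field F] [Group G] [Finite G] {ℓ : ℕ}

theorem cent_le_tg {e : G → F} {V : Subgroup G} {γ : G → F} (h : Ld ℓ e V γ) :
    Subgroup.centralizer (V : Set G) ≤ Tg V γ := by
  refine le_inf (Subgroup.centralizer_le_normalizer _) ?_
  intro g hg x
  exact (cj_eq_iff g γ).1 (h.gam.ix.inv hg) x

theorem relindex_reg {e : G → F} {V : Subgroup G} {γ : G → F} (h : Ld ℓ e V γ) {u : G}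
    (hu : Rg V γ u) : (Cu u).relIndex (Tg V γ) = ix V γ := by
  have h1 : Tg V γ ⊓ Cu u = Subgroup.centralizer (V : Set G) :=
    le_antisymm hu.2.2 (le_inf (cent_le_tg h) (cent_le_cu hu.1))
  unfold ix
  rw [← Subgroup.inf_relIndex_left, h1]

end tools

/-- CGR -/
theorem cgr (rsv : RsvStmt) (nit : NitStmt) (lsb : LsbStmt) (rgl : RglStmt) : CgrStmt := by
  intro ℓ _ M _ hM G _ _ e V γ hL c hc u hu b hb d hd
  obtain ⟨b', d', -, -, -, hix⟩ := rgl ℓ M hM G e V γ hL u hu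
  obtain ⟨hL', -, -, hcard, hdg⟩ := lsb ℓ M hM G e V γ hL u hu.1 b hb
  obtain ⟨ε, hε, h1, h2⟩ := nit ℓ M hM (Cu u) _ _ _ hL' hix d c hd (hdg c hc)
  rw [hcard] at h1 h2
  refine ⟨ε, hε, fun χ hχ => ?_⟩
  obtain ⟨-, h3⟩ := H19.omg M G u (fun t : Cu u => b t) hb.blk.blk.1 u
    (Subgroup.mem_zpowers u)
  obtain ⟨h4, h5⟩ := h3 χ hχ.1
  have h6 := rsv ℓ M hM G e V γ hL u hu.1 b hb χ hχ
  rw [relindex_reg hL hu] at h6
  rw [h6] at h5
  have hCu : (Nat.card (Cu u) : ℂ) ≠ 0 := by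
    exact_mod_cast Nat.card_pos.ne'
  have hd0 : (d : ℂ) ≠ 0 := by
    exact_mod_cast hd.1.ne'
  have hCV : (Nat.card (Subgroup.centralizer (V : Set G)) : ℂ) ≠ 0 := by
    exact_mod_cast Nat.card_pos.ne'
  have hχ1 : χ 1 ≠ 0 := irr_one_ne hχ.1
  have e1 : gv M (Cu u) u b χ / d * ((Nat.card G * c : ℂ) /
      (Nat.card (Subgroup.centralizer (V : Set G)) * χ 1)) =
      (Nat.card G * gbv (Cu u) u (eh M (fun t : Cu u => b t)) χ / (Nat.card (Cu u) * χ 1)) *
      ((Nat.card (Cu u) * c : ℂ) / (Nat.card (Subgroup.centralizer (V : Set G)) * d)) := by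
    unfold gv
    field_simp
  rw [e1]
  refine ⟨(RM M).mul_mem h4 h1, ?_⟩
  rw [rr_mul h4 h1, h5, h2]
  push_cast
  ring

end Pool.Agent.PP.T3.H88
end
end -- Pool.Agent.Helper88_AT3.Cgr

section -- Pool.Agent.Helper88_AT8.Dcg

/-! Squad AT8, row DCG: the congruence for `vv u χ`. -/

open scoped BigOperators

set_option autoImplicit false

noncomputable section

namespace Pool.Agent.PP.T8.H88

open Pool.Agent.Helper51_AWC Pool.Agent.Helper79_WRA Pool.Agent.PP Pool.Agent.PP.KF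
open Pool.Agent.PP.K9 Pool.Agent.PP.K9.H97 Pool.Agent.PP.H75 Pool.Agent.PP.T3 Pool.Agent.PP.T2

attribute [local instance] Ideal.Quotient.field

/-- DCG -/
theorem dcg (rsv : T3.RsvStmt) : DcgStmt := by
  intro ℓ _ M _ hM G _ _ e V γ b d c ε hD u hu χ hχ
  have hL := hD.ld
  have hb := hD.lc u hu
  have hd := hD.dg u hu
  obtain ⟨h1, h2⟩ := hD.cg u hu
  obtain ⟨-, h3⟩ := H19.omg M G u (fun t : Cu u => b u t) hb.blk.blk.1 u
    (Subgroup.mem_zpowers u)
  obtain ⟨h4, h5⟩ := h3 χ hχ.1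
  have h6 := rsv ℓ M hM G e V γ hL u hu.1 (b u) hb χ hχ
  rw [T3.H88.relindex_reg hL hu] at h6
  rw [h6] at h5
  have hCu : (Nat.card (Cu u) : ℂ) ≠ 0 := by
    exact_mod_cast Nat.card_pos.ne'
  have hd0 : (d u : ℂ) ≠ 0 := by
    exact_mod_cast hd.1.ne'
  have hCV : (Nat.card (Subgroup.centralizer (V : Set G)) : ℂ) ≠ 0 := by
    exact_mod_cast Nat.card_pos.ne'
  have hχ1 : χ 1 ≠ 0 := irr_one_ne hχ.1
  have e1 : vv M b d u χ * ((Nat.card G * c : ℂ) /
      (Nat.card (Subgroup.centralizer (V : Set G)) * χ 1)) =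
      (Nat.card G * gbv (Cu u) u (eh M (fun t : Cu u => b u t)) χ / (Nat.card (Cu u) * χ 1)) *
      ((Nat.card (Cu u) * c : ℂ) /
        (Nat.card (Subgroup.centralizer (V : Set G)) * d u)) := by
    unfold vv gv
    field_simp
  rw [e1]
  refine ⟨(RM M).mul_mem h4 h1, ?_⟩
  rw [rr_mul h4 h1, h5, h2]
  push_cast
  ring

end Pool.Agent.PP.T8.H88
end
end -- Pool.Agent.Helper88_AT8.Dcg

section -- Pool.Agent.Helper3_AT3.DUG

/-!
# Squad AT3, rows DUG, NST
-/

open scoped BigOperators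

noncomputable section

namespace Pool.Agent.PP.T3.H3

open Pool.Agent.Helper51_AWC Pool.Agent.Helper79_WRA Pool.Agent.PP Pool.Agent.PP.KF
open Pool.Agent.PP.K9 Pool.Agent.PP.K9.H97

attribute [local instance] Ideal.Quotient.field

theorem under_iff {F G : Type} [Field F] [Group G] [Finite G] {e g : G → F} {Q : Subgroup G}
    (hg : Bx (Subgroup.centralizer (Q : Set G)) g)
    (heg : mulF (fun t : Subgroup.centralizer (Q : Set G) => e t)
      (fun t : Subgroup.centralizer (Q : Set G) => g t) =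
        (fun t : Subgroup.centralizer (Q : Set G) => g t)) : mulF (br Q e) g = g := by
  have hbrs : ∀ x, x ∉ Subgroup.centralizer (Q : Set G) → br Q e x = 0 :=
    fun x hx => H66.br_of_not_mem hx
  have hbr : (fun t : Subgroup.centralizer (Q : Set G) => br Q e t) =
      fun t : Subgroup.centralizer (Q : Set G) => e t := by
    funext t
    exact H66.br_of_mem t.2
  apply H75.eq_of_res (H75.mulF_supp _ hbrs hg.supp) hg.supp
  rw [H75.mulF_res _ g hbrs, hbr]
  exact heg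

/-- DUG -/
theorem dug : DugStmt := by
  intro ℓ _ M _ hM G _ _ e he V hV hVc Q hQ g hg heg
  obtain ⟨P, h1, h2, h3, h4, h5⟩ := C2.H3.gdv C2.H3.dug ℓ M hM G e he V hV hVc Q hQ g
    ⟨hg.supp, hg.blk⟩ (under_iff hg heg)
  exact ⟨P, h2, h3, h1, h4, h5⟩

/-- NST -/
theorem nst (dug : DugStmt) (fus : FusStmt) (gch : GchStmt) (lcj : LcjStmt) (lpw : LpwStmt) :
    NstStmt := by
  intro ℓ hfact M _ hM G _ _ N hN e V γ hL hix y hy1 hyl b hb heb g hg hgb
  have hF : GoodF ℓ (FF M) := H50.fld ℓ hfact.out M hM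
  have hpr : ℓ.Prime := hfact.out
  have hC : Subgroup.centralizer ((Subgroup.zpowers y : Subgroup G) : Set G) = Cu y := by
    ext x
    rw [Subgroup.mem_centralizer_iff, Subgroup.mem_centralizer_singleton_iff]
    constructor
    · intro h
      exact (h y (Subgroup.mem_zpowers y)).symm
    · intro h z hz
      obtain ⟨k, rfl⟩ := Subgroup.mem_zpowers_iff.1 hz
      exact ((show Commute x y from h).zpow_right k).eq.symm
  have hQ : IsPGroup ℓ (Subgroup.zpowers y) := by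
    obtain ⟨n, hn⟩ := hyl
    rintro ⟨z, hz⟩
    obtain ⟨k, rfl⟩ := Subgroup.mem_zpowers_iff.1 hz
    refine ⟨n, Subtype.ext ?_⟩
    show (y ^ k) ^ ℓ ^ n = 1
    rw [← zpow_natCast, ← zpow_mul, mul_comm, zpow_mul, zpow_natCast, hn, one_zpow]
  obtain ⟨P, hQP, hPC, hP, hPV, hgP⟩ := dug ℓ M hM G e hL.blk V hL.tp hL.ab (Subgroup.zpowers y) hQ
    b (by rw [hC]; exact hb) (by rw [hC]; exact heb)
  have hyP : y ∈ P := hQP (Subgroup.mem_zpowers y)
  rw [hC] at hPC
  have hbQ : Bx (Subgroup.centralizer ((Subgroup.zpowers y : Subgroup G) : Set G)) b := by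
    rw [hC]
    exact hb
  have hunQ : mulF (br (Subgroup.zpowers y) e) b = b :=
    under_iff hbQ (by rw [hC]; exact heb)
  -- `P` is good for `e`
  have hCC : Subgroup.centralizer (P : Set G) ≤ Cu y := by
    rw [← hC]
    exact Subgroup.centralizer_le (show ((Subgroup.zpowers y : Subgroup G) : Set G) ⊆ P from hQP)
  have hinvP : H66.Inv P b := fun p hp t => C2.H3.ix_inv hb.ix (hPC hp) t
  have hIb : Ix (Subgroup.centralizer (P : Set G)) (br P b) :=
    C2.H3.ix_br hF hP (fun z hz x => C2.H3.ix_inv hb.ix (hCC hz) x) hinvP hb.mul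
  have hIQ : Ix (Subgroup.centralizer ((Subgroup.zpowers y : Subgroup G) : Set G))
      (br (Subgroup.zpowers y) e) :=
    C2.H3.ix_br hF hQ (fun z _ x => hL.blk.1.1 x z) (H66.IsCl.inv hL.blk.1.1 _) hL.blk.1.2
  have hinvQ : H66.Inv P (br (Subgroup.zpowers y) e) := fun p hp t =>
    C2.H3.ix_inv hIQ (by rw [hC]; exact hPC hp) t
  have hPe : mulF (br P e) (br P b) = br P b := by
    have h1 := congrArg (br P) hunQ
    rwa [H66.br_mulF hF hP hinvQ hinvP, C2.H3.br_br hQP] at h1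
  have hbrb : br P b ≠ 0 := C2.H3.br_ne_of_gd hgP
  have hGe : Gd e P := by
    apply C2.H3.gd_of_br'
    intro h0
    apply hbrb
    rw [← hPe, h0, H75.mulF_zero_left]
  -- the conjugate
  obtain ⟨k, hk⟩ := (K9.H69.fmg ℓ M hM G e hL.blk V hL.tp).1 P hP hGe
  have hPk : P = conjS k V := by
    refine Subgroup.eq_of_le_of_card_ge hk ?_
    rw [card_conjS, hPV]
  obtain ⟨hL1, hix1⟩ := lcj ℓ (FF M) hF G e V γ hL k
  rw [← hPk] at hL1 hix1
  -- the block of `C(P)`
  obtain ⟨γ₀, hγ₀, hgγ, -⟩ := K9.H24.exists_blk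
    (L := fun a : Subgroup.centralizer (P : Set G) → FF M => a) rfl
    (fun a b => rfl) hIb.idem (by
      intro h
      apply hbrb
      exact H75.eq_of_res hIb.supp (fun _ _ => rfl) h)
  obtain ⟨γ₁, hγ₁⟩ : ∃ γ₁ : G → FF M,
      γ₁ = H75.ext0 (Subgroup.centralizer (P : Set G)) γ₀ := ⟨_, rfl⟩
  have hγs : ∀ x, x ∉ Subgroup.centralizer (P : Set G) → γ₁ x = 0 := by
    rw [hγ₁]
    exact H75.ext0_supp _ γ₀
  have hγC : (fun t : Subgroup.centralizer (P : Set G) => γ₁ t) = γ₀ := by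
    rw [hγ₁]
    exact funext (H75.ext0_apply _ γ₀)
  have hBγ : Bx (Subgroup.centralizer (P : Set G)) γ₁ := ⟨hγs, by rw [hγC]; exact hγ₀⟩
  have hbγ : mulF (br P b) γ₁ = γ₁ := by
    apply H75.eq_of_res (H75.mulF_supp _ hIb.supp hγs) hγs
    rw [H75.mulF_res _ γ₁ hIb.supp, hγC, hgγ]
  have heγ : mulF (br P e) γ₁ = γ₁ := by
    rw [← hbγ, ← H20.mulF_assoc, hPe]
  have hL2 : Ld ℓ e P γ₁ := ⟨hL.blk, hL1.tp, hL1.ab, hBγ, heγ⟩
  have hix2 : ix P γ₁ = ix V γ := (gch ℓ M hM G e P (H75.cj k γ) γ₁ hL1 hL2).trans hix1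
  have hLc : Lc e P γ₁ y b := ⟨hb, heb, hbγ⟩
  -- `N` is prime to `ℓ`
  have hord : ℓ ∣ orderOf y := by
    obtain ⟨n, hn⟩ := hyl
    obtain ⟨m, _, hm⟩ := (Nat.dvd_prime_pow hpr).1 (orderOf_dvd_of_pow_eq_one hn)
    rcases Nat.eq_zero_or_pos m with h0 | h0
    · exfalso
      rw [h0, pow_zero] at hm
      exact hy1 (orderOf_eq_one_iff.1 hm)
    · rw [hm]
      exact dvd_pow_self _ h0.ne'
  have hNℓ : ¬ ℓ ∣ N := by
    intro h
    have h1 : ℓ ∣ Nat.card G := hord.trans (orderOf_dvd_natCard y)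
    have h2 := Nat.dvd_gcd h h1
    rw [hN.cop.gcd_eq_one] at h2
    exact hpr.one_lt.ne' (Nat.dvd_one.1 h2)
  obtain ⟨-, hLcN⟩ := lpw ℓ (FF M) hF G e P γ₁ hL2 y hyP b hLc N hNℓ
  obtain ⟨t, ht, hty⟩ := fus ℓ M hM G e P γ₁ hL2 (y ^ N) (P.pow_mem hyP N) y hyP b b hLcN hLc g hg
    hgb
  have hpow : ∀ k : ℕ, t ^ k * y * (t ^ k)⁻¹ = y ^ N ^ k := by
    intro k
    induction k with
    | zero => rw [pow_zero, pow_zero, pow_one, one_mul, inv_one, mul_one]
    | succ k ih =>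
      calc t ^ (k + 1) * y * (t ^ (k + 1))⁻¹ = t ^ k * (t * y * t⁻¹) * (t ^ k)⁻¹ := by
            rw [pow_succ]
            group
        _ = (t ^ k * y * (t ^ k)⁻¹) ^ N := by rw [hty, conj_pow]
        _ = y ^ N ^ (k + 1) := by rw [ih, ← pow_mul, pow_succ]
  obtain ⟨m, hm0, hm1, hm2⟩ := Subgroup.exists_pow_mem_of_relIndex_ne_zero
    (H := Subgroup.centralizer (P : Set G)) (K := Tg P γ₁) (a := t)
    Subgroup.index_ne_zero_of_finite ht
  have hm3 : m ≤ ix V γ := by
    rw [← hix2]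
    exact hm1
  have h1 : y ^ N ^ m = y ^ 1 := by
    rw [← hpow m, pow_one]
    have h2 := Subgroup.mem_centralizer_iff.1 (Subgroup.mem_inf.1 hm2).1 y hyP
    rw [← h2, mul_inv_cancel_right]
  have h3 := (pow_eq_pow_iff_modEq.1 h1).of_dvd hord
  exact hN.ord m hm0 (by omega) h3

end Pool.Agent.PP.T3.H3
end
end -- Pool.Agent.Helper3_AT3.DUG

section -- Pool.Agent.Helper56_AT6.APS

/-!
# Squad AT6, row APS: the matrix entries in terms of the sections of `C(W)`
-/

open scoped BigOperators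

noncomputable section

namespace Pool.Agent.PP.T6.H56

open Pool.Agent.Helper51_AWC Pool.Agent.Helper79_WRA Pool.Agent.PP Pool.Agent.PP.KF
open Pool.Agent.PP.K9 Pool.Agent.PP.K9.H97 Pool.Agent.PP.H75 Pool.Agent.PP.T3 Pool.Agent.PP.T2

attribute [local instance] Ideal.Quotient.field

section dv

variable {M : Ideal (integralClosure ℤ ℂ)} [M.IsMaximal] {m : ℂ}

theorem dv_zero : Dv M m 0 := ⟨0, (RM M).zero_mem, by rw [mul_zero]⟩

theorem dv_add {a b : ℂ} (ha : Dv M m a) (hb : Dv M m b) : Dv M m (a + b) := by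
  obtain ⟨s, hs, rfl⟩ := ha
  obtain ⟨t, ht, rfl⟩ := hb
  exact ⟨s + t, (RM M).add_mem hs ht, by ring⟩

theorem dv_neg {a : ℂ} (ha : Dv M m a) : Dv M m (-a) := by
  obtain ⟨s, hs, rfl⟩ := ha
  exact ⟨-s, (RM M).neg_mem hs, by ring⟩

theorem dv_sub {a b : ℂ} (ha : Dv M m a) (hb : Dv M m b) : Dv M m (a - b) := by
  rw [sub_eq_add_neg]
  exact dv_add ha (dv_neg hb)

theorem dv_mul {a r : ℂ} (hr : r ∈ RM M) (ha : Dv M m a) : Dv M m (r * a) := by
  obtain ⟨s, hs, rfl⟩ := ha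
  exact ⟨r * s, (RM M).mul_mem hr hs, by ring⟩

theorem dv_sum {ι : Type*} (s : Finset ι) (f : ι → ℂ) (h : ∀ i ∈ s, Dv M m (f i)) :
    Dv M m (∑ i ∈ s, f i) := by
  classical
  induction s using Finset.induction_on with
  | empty => exact dv_zero
  | insert i s hi ih =>
    rw [Finset.sum_insert hi]
    exact dv_add (h i (Finset.mem_insert_self _ _))
      (ih fun j hj => h j (Finset.mem_insert_of_mem hj))

end dv

section fv

variable {A : Type} [Group A] [Finite A]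

theorem fv_eq [Fintype A] (i : A → ℂ) (z : A) (χ : A → ℂ) :
    T8.fv i z χ = ∑ g : A, i g * χ (z * g) := by
  unfold T8.fv
  rw [finsum_eq_sum_of_fintype]

theorem fv_RM {M : Ideal (integralClosure ℤ ℂ)} [M.IsMaximal] {i χ : A → ℂ}
    (hi : ∀ x, i x ∈ RM M) (hχ : ∀ x, χ x ∈ RM M) (z : A) : T8.fv i z χ ∈ RM M := by
  have := Fintype.ofFinite A
  rw [fv_eq]
  exact Subring.sum_mem _ fun g _ => (RM M).mul_mem (hi g) (hχ _)

/-- invariance -/
theorem fv_conj {i χ : A → ℂ} {d : A} (hi : ∀ x, i (d * x * d⁻¹) = i x)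
    (hχ : ∀ x y, χ (y * x * y⁻¹) = χ x) (z : A) :
    T8.fv i (d * z * d⁻¹) χ = T8.fv i z χ := by
  have := Fintype.ofFinite A
  rw [fv_eq, fv_eq, ← Equiv.sum_comp (MulAut.conj d).toEquiv]
  refine Finset.sum_congr rfl fun g _ => ?_
  change i (d * g * d⁻¹) * χ (d * z * d⁻¹ * (d * g * d⁻¹)) = _
  rw [hi, show d * z * d⁻¹ * (d * g * d⁻¹) = d * (z * g) * d⁻¹ by group, hχ]

/-- the transfer of an idempotent -/
theorem conv (b y θ χ : A → ℂ) (hy : mulF b y = y) (hθ : ∀ x y, θ (y * x * y⁻¹) = θ x) :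
    ∑ᶠ h : A, θ h * T8.fv y h⁻¹ χ = ∑ᶠ h : A, T8.fv b h θ * T8.fv y h⁻¹ χ := by
  have := Fintype.ofFinite A
  have h1 : ∀ h : A, T8.fv y h⁻¹ χ = ∑ t : A, b t * T8.fv y (h⁻¹ * t) χ := by
    intro h
    rw [fv_eq]
    calc ∑ g : A, y g * χ (h⁻¹ * g) = ∑ g : A, mulF b y g * χ (h⁻¹ * g) := by rw [hy]
      _ = ∑ g : A, ∑ t : A, b t * y (t⁻¹ * g) * χ (h⁻¹ * g) := by
          refine Finset.sum_congr rfl fun g _ => ?_
          unfold mulF
          rw [finsum_eq_sum_of_fintype, Finset.sum_mul]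
      _ = ∑ t : A, ∑ g : A, b t * y (t⁻¹ * g) * χ (h⁻¹ * g) := Finset.sum_comm
      _ = ∑ t : A, b t * T8.fv y (h⁻¹ * t) χ := by
          refine Finset.sum_congr rfl fun t _ => ?_
          rw [fv_eq, Finset.mul_sum, ← Equiv.sum_comp (Equiv.mulLeft t)]
          refine Finset.sum_congr rfl fun g _ => ?_
          change b t * y (t⁻¹ * (t * g)) * χ (h⁻¹ * (t * g)) = _
          rw [inv_mul_cancel_left, mul_assoc h⁻¹ t g, mul_assoc]
  rw [finsum_eq_sum_of_fintype, finsum_eq_sum_of_fintype]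
  calc ∑ h : A, θ h * T8.fv y h⁻¹ χ = ∑ h : A, ∑ t : A, θ h * (b t * T8.fv y (h⁻¹ * t) χ) := by
        refine Finset.sum_congr rfl fun h _ => ?_
        rw [h1, Finset.mul_sum]
    _ = ∑ t : A, ∑ h : A, θ h * (b t * T8.fv y (h⁻¹ * t) χ) := Finset.sum_comm
    _ = ∑ t : A, ∑ h : A, θ (t * h) * (b t * T8.fv y h⁻¹ χ) := by
        refine Finset.sum_congr rfl fun t _ => ?_
        rw [← Equiv.sum_comp (Equiv.mulLeft t)]
        refine Finset.sum_congr rfl fun h _ => ?_
        change θ (t * h) * (b t * T8.fv y ((t * h)⁻¹ * t) χ) = _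
        rw [show (t * h)⁻¹ * t = h⁻¹ by group]
    _ = ∑ h : A, ∑ t : A, θ (t * h) * (b t * T8.fv y h⁻¹ χ) := Finset.sum_comm
    _ = ∑ h : A, T8.fv b h θ * T8.fv y h⁻¹ χ := by
        refine Finset.sum_congr rfl fun h _ => ?_
        rw [fv_eq b, Finset.sum_mul]
        refine Finset.sum_congr rfl fun t _ => ?_
        have h2 : θ (t * h) = θ (h * t) := by
          have h3 := hθ (t * h) t⁻¹
          rw [show t⁻¹ * (t * h) * t⁻¹⁻¹ = h * t by group] at h3
          exact h3.symm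
        rw [h2]
        ring

end fv

section sub

variable {G : Type} [Group G] [Finite G]

/-- sums over a subgroup -/
theorem sum_coe (H : Subgroup G) (P : G → Prop) (hP : ∀ x, P x → x ∈ H) (F : G → ℂ) :
    ∑ᶠ (h : H) (_ : P h), F h = ∑ᶠ (g : G) (_ : P g), F g := by
  classical
  have := Fintype.ofFinite G
  have := Fintype.ofFinite H
  have e1 : ∀ g : G, (∑ᶠ (_ : P g), F g) = if P g then F g else 0 := fun g => finsum_eq_if
  have e2 : ∀ h : H, (∑ᶠ (_ : P h), F h) = if P h then F h else 0 := fun g => finsum_eq_if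
  simp only [e1, e2]
  rw [finsum_eq_sum_of_fintype, finsum_eq_sum_of_fintype]
  rw [← Finset.sum_subset (Finset.subset_univ (Finset.univ.map
    (Function.Embedding.subtype fun x => x ∈ H)))]
  · rw [Finset.sum_map]
    rfl
  · intro x _ hx
    rw [if_neg]
    intro hPx
    apply hx
    rw [Finset.mem_map]
    exact ⟨⟨x, hP x hPx⟩, Finset.mem_univ _, rfl⟩

end sub

/-- the weights are in the local ring -/
theorem wt_RM {ℓ : ℕ} [Fact ℓ.Prime] {M : Ideal (integralClosure ℤ ℂ)} [M.IsMaximal]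
    (hM : (ℓ : integralClosure ℤ ℂ) ∈ M) (inx : K9.InxStmt) {G : Type} [Group G] [Finite G]
    {e : G → FF M} {V : Subgroup G} {γ : G → FF M} (hL : Ld ℓ e V γ) {v : G} (hv : v ∈ V) :
    wt V γ v ∈ RM M := by
  have h1 : Subgroup.centralizer (V : Set G) ≤ Tg V γ := T3.H88.cent_le_tg hL
  have h2 : Subgroup.centralizer (V : Set G) ≤ Tg V γ ⊓ Cu v := by
    refine le_inf h1 fun x hx => ?_
    rw [Subgroup.mem_centralizer_singleton_iff]
    exact (Subgroup.mem_centralizer_iff.1 hx v hv).symm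
  have hn := inx ℓ M hM G e hL.blk V hL.tp hL.ab γ hL.gam.supp hL.gam.blk hL.und
  have hn' : ¬ ℓ ∣ (Subgroup.centralizer (V : Set G)).relIndex (Tg V γ) := hn
  have e1 := Subgroup.relIndex_mul_relIndex ⊥ (Subgroup.centralizer (V : Set G)) (Tg V γ)
    bot_le h1
  have e2 := Subgroup.relIndex_mul_relIndex ⊥ (Subgroup.centralizer (V : Set G))
    (Tg V γ ⊓ Cu v) bot_le h2
  rw [Subgroup.relIndex_bot_left, Subgroup.relIndex_bot_left] at e1 e2
  have h3 := inv_nat_RM Fact.out hM hn'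
  unfold wt
  rw [← e1, ← e2]
  push_cast
  have h4 : (Nat.card (Subgroup.centralizer (V : Set G)) : ℂ) ≠ 0 := by
    exact_mod_cast Nat.card_pos.ne'
  have h5 : ((Subgroup.centralizer (V : Set G)).relIndex (Tg V γ) : ℂ) ≠ 0 := by
    have : (Subgroup.centralizer (V : Set G)).relIndex (Tg V γ) ≠ 0 := by
      intro h0
      apply hn'
      rw [h0]
      exact dvd_zero _
    exact_mod_cast this
  rw [mul_div_mul_left _ _ h4, div_eq_mul_inv]
  exact (RM M).mul_mem (natCast_mem (RM M) _) h3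

/-- sums over a set which contains the centraliser of `V ^ (ℓ ^ c)` -/
theorem or6_diff (or6 : Or6Stmt) {ℓ : ℕ} [Fact ℓ.Prime] {M : Ideal (integralClosure ℤ ℂ)}
    [M.IsMaximal] {G : Type} [Group G] [Finite G] {V : Subgroup G} (hV : IsPGroup ℓ V)
    (hab : ∀ a ∈ V, ∀ b ∈ V, a * b = b * a) (c : ℕ)
    (hN : ∀ d ∈ V, ∀ x, x ∈ Subgroup.centralizer (Uw (ℓ ^ c) V : Set G) →
      d * x * d⁻¹ ∈ Subgroup.centralizer (Uw (ℓ ^ c) V : Set G)) (S : Set G)
    (hS : ∀ d ∈ V, ∀ x ∈ S, d * x * d⁻¹ ∈ S)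
    (hCS : (Subgroup.centralizer (Uw (ℓ ^ c) V : Set G) : Set G) ⊆ S) {F : G → ℂ}
    (hF : ∀ x, F x ∈ RM M) (hFi : ∀ d ∈ V, ∀ x, F (d * x * d⁻¹) = F x) :
    Dv M ((ℓ : ℂ) ^ c) (∑ᶠ (x : G) (_ : x ∈ S), F x -
      ∑ᶠ (x : G) (_ : x ∈ (Subgroup.centralizer (Uw (ℓ ^ c) V : Set G) : Set G)), F x) := by
  have h1 := finsum_mem_add_sdiff hCS (Set.toFinite S) (f := F)
  rw [← h1, add_sub_cancel_left]
  refine or6 ℓ M G V hV hab c _ ?_ ?_ F hF hFi
  · rintro d hd x ⟨hx1, hx2⟩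
    refine ⟨hS d hd x hx1, fun h => hx2 ?_⟩
    have h2 := hN d⁻¹ (V.inv_mem hd) _ h
    rw [show d⁻¹ * (d * x * d⁻¹) * d⁻¹⁻¹ = x by group] at h2
    exact h2
  · rintro x ⟨-, hx⟩
    exact hx

/-- sums of functions which vanish off a subgroup -/
theorem sum_ext {G : Type} [Group G] [Finite G] (H : Subgroup G) (F : G → ℂ)
    (h0 : ∀ x, x ∉ H → F x = 0) : ∑ᶠ g : G, F g = ∑ᶠ h : H, F h := by
  classical
  have h1 := sum_coe H (fun x => x ∈ H) (fun x hx => hx) F
  have h2 : ∀ h : H, (∑ᶠ (_ : (h : G) ∈ H), F h) = F h := fun h => by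
    rw [finsum_eq_if, if_pos h.2]
  have h3 : ∀ g : G, (∑ᶠ (_ : g ∈ H), F g) = F g := fun g => by
    rw [finsum_eq_if]
    by_cases hg : g ∈ H
    · rw [if_pos hg]
    · rw [if_neg hg, h0 g hg]
  rw [finsum_congr h2, finsum_congr h3] at h1
  exact h1.symm

section core

variable {G : Type} [Group G] [Finite G] {ℓ : ℕ} [Fact ℓ.Prime]
  {M : Ideal (integralClosure ℤ ℂ)} [M.IsMaximal]

theorem core (or6 : Or6Stmt) {V H : Subgroup G} (hVp : IsPGroup ℓ V)
    (hab : ∀ a ∈ V, ∀ b ∈ V, a * b = b * a) (hVH : V ≤ H) (c : ℕ)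
    (hCH : Subgroup.centralizer (Uw (ℓ ^ c) V : Set G) ≤ H)
    (hN : ∀ d ∈ V, ∀ x, x ∈ Subgroup.centralizer (Uw (ℓ ^ c) V : Set G) →
      d * x * d⁻¹ ∈ Subgroup.centralizer (Uw (ℓ ^ c) V : Set G))
    (b y : H → ℂ) (hbR : ∀ x, b x ∈ RM M) (hbc : ∀ x y, b (y * x * y⁻¹) = b x)
    (hyR : ∀ x, y x ∈ RM M) (hyV : ∀ v : H, (v : G) ∈ V → ∀ x, y (v * x * v⁻¹) = y x)
    (hby : mulF b y = y) (θ χ' : G → ℂ) (hθ : ∀ x y, θ (y * x * y⁻¹) = θ x)
    (hθR : ∀ x, θ x ∈ RM M) (hχ' : ∀ x y, χ' (y * x * y⁻¹) = χ' x) (hχR : ∀ x, χ' x ∈ RM M)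
    (P : H → Prop) (hP : ∀ v' : H, P v' → (v' : G) ∈ V) (wt' : H → ℂ)
    (hwt : ∀ v' : H, (v' : G) ∈ V → wt' v' ∈ RM M) (sθ sχ : H → H → ℂ)
    (hsec : ∀ h : H, T8.fv b h (fun t : H => θ t) =
      ∑ᶠ (v' : H) (_ : (v' : G) ∈ V), wt' v' * sθ v' h)
    (hb1 : ∀ v' : H, (v' : G) ∈ V → P v' → ∀ h : H,
      (h : G) ∈ Subgroup.centralizer (Uw (ℓ ^ c) V : Set G) →
        Dv M ((ℓ : ℂ) ^ c) (sθ v' h - sχ v' h))
    (hb2 : ∀ v' : H, (v' : G) ∈ V → ¬ P v' → ∀ h : H,
      (h : G) ∈ Subgroup.centralizer (Uw (ℓ ^ c) V : Set G) → Dv M ((ℓ : ℂ) ^ c) (sθ v' h)) :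
    Dv M ((ℓ : ℂ) ^ c) (∑ᶠ g : G, θ g * T8.fv (H75.ext0 H y) g⁻¹ χ' -
      ∑ᶠ (v' : H) (_ : P v'), wt' v' * ∑ᶠ (h : H)
        (_ : (h : G) ∈ Subgroup.centralizer (Uw (ℓ ^ c) V : Set G)),
          sχ v' h * T8.fv y h⁻¹ (fun t : H => χ' t)) := by
  classical
  have := Fintype.ofFinite G
  have := Fintype.ofFinite H
  obtain ⟨C, hC⟩ : ∃ C : Subgroup G, C = Subgroup.centralizer (Uw (ℓ ^ c) V : Set G) := ⟨_, rfl⟩
  have hor := or6_diff or6 hVp hab c hN (M := M)
  rw [← hC] at hCH hor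
  simp only [← hC] at hb1 hb2
  rw [← hC]
  -- the function `φ`
  obtain ⟨φ, hφ⟩ : ∃ φ : G → ℂ, φ = fun g => T8.fv (H75.ext0 H y) g⁻¹ χ' := ⟨_, rfl⟩
  have hφ' : ∀ g, T8.fv (H75.ext0 H y) g⁻¹ χ' = φ g := fun g => by rw [hφ]
  have hyR' : ∀ x, H75.ext0 H y x ∈ RM M := by
    intro x
    by_cases hx : x ∈ H
    · have h1 := H75.ext0_apply H y ⟨x, hx⟩
      rw [h1]
      exact hyR _
    · rw [H75.ext0_supp H y x hx]
      exact (RM M).zero_mem
  have hφR : ∀ g, φ g ∈ RM M := by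
    intro g
    rw [← hφ']
    exact fv_RM hyR' hχR _
  have hyi : ∀ d ∈ V, ∀ x, H75.ext0 H y (d * x * d⁻¹) = H75.ext0 H y x := by
    intro d hd x
    by_cases hx : x ∈ H
    · have h1 := H75.ext0_apply H y ⟨x, hx⟩
      have h2 := H75.ext0_apply H y (⟨d, hVH hd⟩ * ⟨x, hx⟩ * (⟨d, hVH hd⟩ : H)⁻¹)
      rw [hyV ⟨d, hVH hd⟩ hd] at h2
      exact h2.trans h1.symm
    · have hx' : d * x * d⁻¹ ∉ H := by
        intro h
        apply hx
        have h2 := H.mul_mem (H.mul_mem (H.inv_mem (hVH hd)) h) (hVH hd)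
        rwa [show d⁻¹ * (d * x * d⁻¹) * d = x by group] at h2
      rw [H75.ext0_supp H y x hx, H75.ext0_supp H y _ hx']
  have hφi : ∀ d ∈ V, ∀ x, φ (d * x * d⁻¹) = φ x := by
    intro d hd x
    rw [← hφ', ← hφ', show (d * x * d⁻¹)⁻¹ = d * x⁻¹ * d⁻¹ by group]
    exact fv_conj (hyi d hd) hχ' _
  have hφH : ∀ h : H, T8.fv y h⁻¹ (fun t : H => χ' t) = φ h := by
    intro h
    rw [← hφ']
    unfold T8.fv
    rw [sum_ext H (fun g => H75.ext0 H y g * χ' ((h : G)⁻¹ * g)) (fun x hx => by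
      rw [H75.ext0_supp H y x hx, zero_mul])]
    refine finsum_congr fun x => ?_
    rw [H75.ext0_apply]
    rfl
  simp only [hφ', hφH]
  -- the sums
  obtain ⟨θ', hθ'⟩ : ∃ θ' : H → ℂ, θ' = fun h => T8.fv b h (fun t : H => θ t) := ⟨_, rfl⟩
  have hθ'R : ∀ x, θ' x ∈ RM M := by
    intro x
    rw [hθ']
    exact fv_RM hbR (fun t => hθR t) _
  have hcore : ∑ᶠ h : H, θ h * φ h = ∑ᶠ h : H, θ' h * φ h := by
    have h1 := conv b y (fun t : H => θ t) (fun t : H => χ' t) hby (fun x y => hθ x y)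
    simp only [hφH] at h1
    rw [hθ']
    exact h1
  have s1 : ∑ᶠ (g : G) (_ : g ∈ (H : Set G)), θ g * φ g = ∑ᶠ h : H, θ h * φ h := by
    rw [← sum_coe H (fun x => x ∈ (H : Set G)) (fun x hx => hx) (fun g => θ g * φ g)]
    refine finsum_congr fun h => ?_
    rw [finsum_eq_if, if_pos (show (h : G) ∈ (H : Set G) from h.2)]
  have hF'i : ∀ d ∈ V, ∀ x, H75.ext0 H θ' (d * x * d⁻¹) * φ (d * x * d⁻¹) =
      H75.ext0 H θ' x * φ x := by
    intro d hd x
    rw [hφi d hd]
    congr 1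
    by_cases hx : x ∈ H
    · have h1 := H75.ext0_apply H θ' ⟨x, hx⟩
      have h2 := H75.ext0_apply H θ' (⟨d, hVH hd⟩ * ⟨x, hx⟩ * (⟨d, hVH hd⟩ : H)⁻¹)
      have h3 : θ' (⟨d, hVH hd⟩ * ⟨x, hx⟩ * (⟨d, hVH hd⟩ : H)⁻¹) = θ' ⟨x, hx⟩ := by
        rw [hθ']
        exact fv_conj (fun z => hbc z _) (fun x y => hθ x y) _
      rw [h3] at h2
      exact h2.trans h1.symm
    · have hx' : d * x * d⁻¹ ∉ H := by
        intro h
        apply hx
        have h2 := H.mul_mem (H.mul_mem (H.inv_mem (hVH hd)) h) (hVH hd)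
        rwa [show d⁻¹ * (d * x * d⁻¹) * d = x by group] at h2
      rw [H75.ext0_supp H θ' x hx, H75.ext0_supp H θ' _ hx']
  have s2 : ∑ᶠ (g : G) (_ : g ∈ (H : Set G)), H75.ext0 H θ' g * φ g = ∑ᶠ h : H, θ' h * φ h := by
    rw [← sum_coe H (fun x => x ∈ (H : Set G)) (fun x hx => hx)
      (fun g => H75.ext0 H θ' g * φ g)]
    refine finsum_congr fun h => ?_
    rw [finsum_eq_if, if_pos (show (h : G) ∈ (H : Set G) from h.2), H75.ext0_apply]
  have s3 : ∑ᶠ (g : G) (_ : g ∈ (C : Set G)), H75.ext0 H θ' g * φ g =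
      ∑ᶠ (h : H) (_ : (h : G) ∈ C), θ' h * φ h := by
    rw [← sum_coe H (fun x => x ∈ (C : Set G)) (fun x hx => hCH hx)
      (fun g => H75.ext0 H θ' g * φ g)]
    refine finsum_congr fun h => ?_
    rw [H75.ext0_apply]
    rfl
  have d1 := hor Set.univ (fun d _ x _ => Set.mem_univ _) (Set.subset_univ _)
    (F := fun g => θ g * φ g) (fun x => (RM M).mul_mem (hθR x) (hφR x))
    (fun d hd x => by
      change θ (d * x * d⁻¹) * φ (d * x * d⁻¹) = θ x * φ x
      rw [hθ, hφi d hd])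
  rw [finsum_mem_univ] at d1
  have hHst : ∀ d ∈ V, ∀ x ∈ (H : Set G), d * x * d⁻¹ ∈ (H : Set G) := fun d hd x hx =>
    H.mul_mem (H.mul_mem (hVH hd) hx) (H.inv_mem (hVH hd))
  have d2 := hor (H : Set G) hHst hCH
    (F := fun g => θ g * φ g) (fun x => (RM M).mul_mem (hθR x) (hφR x))
    (fun d hd x => by
      change θ (d * x * d⁻¹) * φ (d * x * d⁻¹) = θ x * φ x
      rw [hθ, hφi d hd])
  have d3 := hor (H : Set G) hHst hCH
    (F := fun g => H75.ext0 H θ' g * φ g) (fun x => by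
      refine (RM M).mul_mem ?_ (hφR x)
      by_cases hx : x ∈ H
      · have h1 := H75.ext0_apply H θ' ⟨x, hx⟩
        rw [h1]
        exact hθ'R _
      · rw [H75.ext0_supp H θ' x hx]
        exact (RM M).zero_mem)
    hF'i
  rw [s1] at d2
  rw [s2, s3] at d3
  -- the last step
  have d4 : Dv M ((ℓ : ℂ) ^ c) (∑ᶠ (h : H) (_ : (h : G) ∈ C), θ' h * φ h -
      ∑ᶠ (v' : H) (_ : P v'), wt' v' * ∑ᶠ (h : H) (_ : (h : G) ∈ C), sχ v' h * φ h) := by
    have e1 : ∑ᶠ (h : H) (_ : (h : G) ∈ C), θ' h * φ h = ∑ v' : H, ∑ h : H,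
        if (v' : G) ∈ V ∧ (h : G) ∈ C then wt' v' * sθ v' h * φ h else 0 := by
      rw [Finset.sum_comm, finsum_eq_sum_of_fintype]
      refine Finset.sum_congr rfl fun h _ => ?_
      rw [finsum_eq_if]
      by_cases hh : (h : G) ∈ C
      · rw [if_pos hh, show θ' h = _ from (congrFun hθ' h).trans (hsec h),
          finsum_eq_sum_of_fintype, Finset.sum_mul]
        refine Finset.sum_congr rfl fun v' _ => ?_
        rw [finsum_eq_if]
        by_cases hv' : (v' : G) ∈ V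
        · rw [if_pos hv', if_pos ⟨hv', hh⟩]
        · rw [if_neg hv', if_neg (fun h => hv' h.1), zero_mul]
      · rw [if_neg hh]
        refine (Finset.sum_eq_zero fun v' _ => ?_).symm
        rw [if_neg (fun h => hh h.2)]
    have e2 : ∑ᶠ (v' : H) (_ : P v'), wt' v' * ∑ᶠ (h : H) (_ : (h : G) ∈ C), sχ v' h * φ h =
        ∑ v' : H, ∑ h : H, if P v' ∧ (h : G) ∈ C then wt' v' * sχ v' h * φ h else 0 := by
      rw [finsum_eq_sum_of_fintype]
      refine Finset.sum_congr rfl fun v' _ => ?_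
      rw [finsum_eq_if]
      by_cases hv' : P v'
      · rw [if_pos hv', finsum_eq_sum_of_fintype, Finset.mul_sum]
        refine Finset.sum_congr rfl fun h _ => ?_
        rw [finsum_eq_if]
        by_cases hh : (h : G) ∈ C
        · rw [if_pos hh, if_pos ⟨hv', hh⟩, mul_assoc]
        · rw [if_neg hh, if_neg (fun h => hh h.2), mul_zero]
      · rw [if_neg hv']
        refine (Finset.sum_eq_zero fun h _ => ?_).symm
        rw [if_neg (fun h => hv' h.1)]
    rw [e1, e2, ← Finset.sum_sub_distrib]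
    refine dv_sum _ _ fun v' _ => ?_
    rw [← Finset.sum_sub_distrib]
    refine dv_sum _ _ fun h _ => ?_
    by_cases hh : (h : G) ∈ C
    · by_cases hv' : (v' : G) ∈ V
      · by_cases hPv : P v'
        · rw [if_pos ⟨hv', hh⟩, if_pos ⟨hPv, hh⟩]
          have h1 := hb1 v' hv' hPv h hh
          have h2 := dv_mul ((RM M).mul_mem (hwt v' hv') (hφR h)) h1
          have h3 : wt' v' * sθ v' h * φ h - wt' v' * sχ v' h * φ h =
            wt' v' * φ h * (sθ v' h - sχ v' h) := by ring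
          rw [h3]
          exact h2
        · rw [if_pos ⟨hv', hh⟩, if_neg (fun h => hPv h.1), sub_zero]
          have h1 := hb2 v' hv' hPv h hh
          have h2 := dv_mul ((RM M).mul_mem (hwt v' hv') (hφR h)) h1
          have h3 : wt' v' * sθ v' h * φ h = wt' v' * φ h * sθ v' h := by ring
          rw [h3]
          exact h2
      · rw [if_neg (fun h => hv' h.1), if_neg (fun h => hv' (hP v' h.1)), sub_zero]
        exact dv_zero
    · rw [if_neg (fun h => hh h.2), if_neg (fun h => hh h.2), sub_zero]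
      exact dv_zero
  have hfin := dv_add (dv_add (dv_sub d1 d2) d3) d4
  rw [hcore] at hfin
  have h9 : ∀ a₀ a₁ a₃ a₄ a₅ : ℂ, a₀ - a₁ - (a₃ - a₁) + (a₃ - a₄) + (a₄ - a₅) = a₀ - a₅ := by
    intro a₀ a₁ a₃ a₄ a₅
    ring
  rw [h9] at hfin
  exact hfin

end core

/-- APS -/
theorem aps (yid : YidStmt) (or6 : Or6Stmt) (sec : SecStmt) (blk : BlkStmt) (lwd : LwdStmt)
    (svv : SvvStmt) (inx : K9.InxStmt) : ApsStmt := by
  intro ℓ _ M _ hM G _ _ e V γ hL c V₁ W hV₁ hW f hf g hg y hyR hyV hfy χ hχ χ' hχ' v hv b hb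
  obtain ⟨hmem1, h1V, hN1, -⟩ := T2.H32.pwu G (ℓ ^ c) V hL.ab
  obtain ⟨hmem2, h2V, -⟩ := T2.H32.pwu G (ℓ ^ (2 * c)) V hL.ab
  have hWV₁ : W ≤ V₁ := by
    intro x hx
    rw [hW] at hx
    obtain ⟨w, hw, rfl⟩ := (hmem2 x).1 hx
    rw [hV₁, hmem1]
    refine ⟨w ^ ℓ ^ c, V.pow_mem hw _, ?_⟩
    rw [← pow_mul, ← pow_add]
    congr 2
    ring
  have hWV : W ≤ V := by
    rw [hW]
    exact h2V
  have hVH : V ≤ Subgroup.centralizer (W : Set G) := by
    intro x hx
    rw [Subgroup.mem_centralizer_iff]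
    intro w hw
    exact hL.ab w (hWV hw) x hx
  have hCH : Subgroup.centralizer (V₁ : Set G) ≤ Subgroup.centralizer (W : Set G) :=
    Subgroup.centralizer_le hWV₁
  obtain ⟨-, hlw⟩ := lwd ℓ M hM G e V γ hL W hWV
  obtain ⟨hLf, hTg⟩ := hlw f hf
  have hN : ∀ d ∈ V, ∀ x, x ∈ Subgroup.centralizer (V₁ : Set G) →
      d * x * d⁻¹ ∈ Subgroup.centralizer (V₁ : Set G) := by
    intro d hd x hx
    have hdc : d ∈ Subgroup.centralizer (V₁ : Set G) := by
      rw [Subgroup.mem_centralizer_iff]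
      intro w hw
      rw [hV₁] at hw
      exact hL.ab w (h1V hw) d hd
    exact Subgroup.mul_mem _ (Subgroup.mul_mem _ hdc hx) (Subgroup.inv_mem _ hdc)
  -- class functions
  have hχc : ∀ x y, χ (y * x * y⁻¹) = χ x := fun x y => irr_conj hχ x y
  have hχ'c : ∀ x y, χ' (y * x * y⁻¹) = χ' x := fun x y => irr_conj hχ' x y
  have hχR : ∀ x, χ x ∈ RM M := fun x => RM_of_int (irr_integral hχ x)
  have hχ'R : ∀ x, χ' x ∈ RM M := fun x => RM_of_int (irr_integral hχ' x)
  obtain ⟨-, -, sv3, sv4, -⟩ := svv ℓ M hM G v b hb.blk.ix χ hχc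
  obtain ⟨i1, i2, -⟩ := KF.H25.idm M _ (fun t : Subgroup.centralizer (W : Set G) => f t) hf.blk.blk.1
  -- the orbit
  obtain ⟨P, hP⟩ : ∃ P : Subgroup.centralizer (W : Set G) → Prop,
    P = fun v' : Subgroup.centralizer (W : Set G) =>
      ∃ t ∈ Tg V γ, t * v * t⁻¹ = (v' : G) := ⟨_, rfl⟩
  have hPV : ∀ v' : Subgroup.centralizer (W : Set G), P v' → (v' : G) ∈ V := by
    intro v' h
    rw [hP] at h
    obtain ⟨t, ht, ht2⟩ := h
    rw [← ht2]
    exact (Subgroup.mem_normalizer_iff.1 ht.1 v).1 hv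
  have hmain := core or6 hL.tp.pg hL.ab hVH c (by rw [← hV₁]; exact hCH)
    (by rw [← hV₁]; exact hN)
    (eh M (fun t : Subgroup.centralizer (W : Set G) => f t)) y (fun x => (i1 x).1)
    (fun x y => i2.1 x y) hyR hyV hfy (sv M ℓ v b χ) χ' sv3 (sv4 hχR) hχ'c hχ'R P hPV
    (fun v' => wt (V.subgroupOf (Subgroup.centralizer (W : Set G)))
      (fun t : Subgroup.centralizer (W : Set G) => γ t) v')
    (fun v' hv' => wt_RM hM inx hLf hv')
    (fun v' h => sv M ℓ v' (g v')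
      (fun t : Subgroup.centralizer (W : Set G) => sv M ℓ v b χ t) h)
    (fun v' h => sv M ℓ v' (g v')
      (fun t : Subgroup.centralizer (W : Set G) => χ t) h)
    (fun h => sec ℓ M hM _ _ _ _ hLf g hg _ (fun x y => sv3 x y) h)
    (fun v' hv' hPv h hh => (blk ℓ M hM G e V γ hL c V₁ W hV₁ hW f hf v hv b hb v' hv' (g v')
      (hg v' hv') χ hχc hχR h (by rw [hV₁]; exact hh)).1 (by rw [hP] at hPv; exact hPv))
    (fun v' hv' hPv h hh => (blk ℓ M hM G e V γ hL c V₁ W hV₁ hW f hf v hv b hb v' hv' (g v')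
      (hg v' hv') χ hχc hχR h (by rw [hV₁]; exact hh)).2 (by rw [hP] at hPv; exact hPv))
  rw [yid ℓ M hM G v (T3.H88.el_of_mem hL.tp.pg hv) b hb.blk.ix χ hχc χ' hχ'] at hmain
  have h1 := dv_mul (natCast_mem (RM M)
    ((Subgroup.centralizer (V : Set G)).relIndex (Tg V γ ⊓ Cu v))) hmain
  rw [mul_sub] at h1
  have hchv : chv (H75.ext0 (Subgroup.centralizer (W : Set G)) y) χ' =
      ∑ᶠ x : Subgroup.centralizer (W : Set G), y x * χ' x := by
    unfold chv
    rw [sum_ext (Subgroup.centralizer (W : Set G))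
      (fun x => H75.ext0 (Subgroup.centralizer (W : Set G)) y x * χ' x) (fun x hx => by
      rw [H75.ext0_supp _ y x hx, zero_mul])]
    refine finsum_congr fun x => ?_
    rw [H75.ext0_apply]
  have hVn : (Nat.card V : ℂ) ≠ 0 := by
    exact_mod_cast Nat.card_pos.ne'
  rw [hchv] at h1
  obtain ⟨S, hS⟩ : ∃ S, S = ∑ᶠ x : Subgroup.centralizer (W : Set G), y x * χ' x := ⟨_, rfl⟩
  rw [← hS] at h1 ⊢
  have e1 : (Nat.card G * S / (Nat.card V * χ' 1)) * Mm M ℓ V γ v b χ χ' =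
      ((Subgroup.centralizer (V : Set G)).relIndex (Tg V γ ⊓ Cu v) : ℂ) *
        (Nat.card G * S / χ' 1 * Pm M ℓ v b χ χ') := by
    unfold Mm
    by_cases h0 : χ' 1 = 0
    · rw [h0]
      simp
    · field_simp
  rw [e1]
  rw [← hV₁, hP] at h1
  exact h1

end Pool.Agent.PP.T6.H56
end
end -- Pool.Agent.Helper56_AT6.APS

section -- Pool.Agent.Helper46_AT6.LCX

/-!
# Squad AT6, row LCX: every local block is conjugate to a local block of an element of `V`
(adapted from `Helper81_AT2/STG.lean` and `Helper38_AT3/GCH.lean`)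
-/

open scoped BigOperators

set_option autoImplicit false

noncomputable section

namespace Pool.Agent.PP.T6.H46

open Pool.Agent.Helper51_AWC Pool.Agent.Helper79_WRA Pool.Agent.PP Pool.Agent.PP.KF
open Pool.Agent.PP.K9 Pool.Agent.PP.K9.H97 Pool.Agent.PP.T3 Pool.Agent.PP.T2

attribute [local instance] Ideal.Quotient.field

theorem br_cj' {F G : Type} [Field F] [Group G] [Finite G] (g : G) (V : Subgroup G) (b : G → F) :
    br (conjS g V) (H75.cj g b) = H75.cj g (br V b) := by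
  classical
  funext x
  change _ = br V b (g⁻¹ * x * g)
  unfold br
  by_cases h : x ∈ Subgroup.centralizer (conjS g V : Set G)
  · rw [if_pos h, if_pos ((T3.H62.mem_cent_conjS x).1 h)]
    rfl
  · rw [if_neg h, if_neg (fun h' => h ((T3.H62.mem_cent_conjS x).2 h'))]

/-- blocks of the centraliser of a defect group under the same block are conjugate under the
normaliser -/
theorem exists_conj {ℓ : ℕ} [hℓ : Fact ℓ.Prime] {M : Ideal (integralClosure ℤ ℂ)} [M.IsMaximal]
    (hM : (ℓ : integralClosure ℤ ℂ) ∈ M) {G : Type} [Group G] [Finite G] {e : G → FF M}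
    {V : Subgroup G} {γ γ₁ : G → FF M} (h : Ld ℓ e V γ) (h₁ : Ld ℓ e V γ₁) :
    ∃ n ∈ Subgroup.normalizer (V : Set G), γ₁ = H75.cj n γ := by
  have hF : GoodF ℓ (FF M) := H50.fld ℓ hℓ.out M hM
  obtain ⟨-, ⟨hb, -⟩, -⟩ := K9.H69.fmg ℓ M hM G e h.blk V h.tp
  have hXN : Subgroup.centralizer (V : Set G) ≤ Subgroup.normalizer (V : Set G) :=
    Subgroup.centralizer_le_normalizer _
  have hN : Subgroup.normalizer (V : Set G) ≤
      Subgroup.normalizer ((Subgroup.centralizer (V : Set G) : Subgroup G) : Set G) := by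
    intro n hn
    have key : ∀ m : G, m ∈ Subgroup.normalizer (V : Set G) → ∀ c,
        c ∈ Subgroup.centralizer (V : Set G) → m * c * m⁻¹ ∈ Subgroup.centralizer (V : Set G) := by
      intro m hm c hc
      rw [Subgroup.mem_centralizer_iff]
      intro v hv
      have h1 : m⁻¹ * v * m ∈ V := by
        have := (Subgroup.mem_normalizer_iff.1 (Subgroup.inv_mem _ hm) v).1 hv
        rwa [inv_inv] at this
      have h2 := Subgroup.mem_centralizer_iff.1 hc _ h1
      have h3 : m * (m⁻¹ * v * m * c) * m⁻¹ = m * (c * (m⁻¹ * v * m)) * m⁻¹ := by rw [h2]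
      have h4 : m * (m⁻¹ * v * m * c) * m⁻¹ = v * (m * c * m⁻¹) := by group
      have h5 : m * (c * (m⁻¹ * v * m)) * m⁻¹ = m * c * m⁻¹ * v := by group
      rw [h4, h5] at h3
      exact h3
    rw [Subgroup.mem_normalizer_iff]
    intro c
    refine ⟨key n hn c, fun hc => ?_⟩
    have h1 := key n⁻¹ (Subgroup.inv_mem _ hn) _ hc
    have h2 : n⁻¹ * (n * c * n⁻¹) * n⁻¹⁻¹ = c := by group
    rwa [h2] at h1
  exact orb_main hXN hN (f := br V e)
    ⟨fun x hx => H66.br_of_not_mem fun h2 => hx (hXN h2), hb⟩ h.gam h₁.gam h.und h₁.und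

/-- the unit condition in the centraliser through the Brauer map -/
theorem und_iff {F G : Type} [Field F] [Group G] [Finite G] {e g : G → F} {Q : Subgroup G}
    (h : mulF (br Q e) g = g) :
    mulF (fun t : Subgroup.centralizer (Q : Set G) => e t)
      (fun t : Subgroup.centralizer (Q : Set G) => g t) =
        (fun t : Subgroup.centralizer (Q : Set G) => g t) := by
  have hbrs : ∀ x, x ∉ Subgroup.centralizer (Q : Set G) → br Q e x = 0 :=
    fun x hx => H66.br_of_not_mem hx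
  have hbr : (fun t : Subgroup.centralizer (Q : Set G) => br Q e t) =
      fun t : Subgroup.centralizer (Q : Set G) => e t := by
    funext t
    exact H66.br_of_mem t.2
  have h1 := H75.mulF_res (Subgroup.centralizer (Q : Set G)) g hbrs
  rw [hbr, h] at h1
  exact h1.symm

theorem cent_zp {G : Type} [Group G] (y : G) :
    Subgroup.centralizer ((Subgroup.zpowers y : Subgroup G) : Set G) = Cu y := by
  ext x
  rw [Subgroup.mem_centralizer_iff, Subgroup.mem_centralizer_singleton_iff]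
  constructor
  · intro h
    exact (h y (Subgroup.mem_zpowers y)).symm
  · intro h z hz
    obtain ⟨k, rfl⟩ := Subgroup.mem_zpowers_iff.1 hz
    exact ((show Commute x y from h).zpow_right k).eq.symm

/-- LCX -/
theorem lcx (dug : DugStmt) : LcxStmt := by
  intro ℓ hfact M _ hM G _ _ e V γ hL y hyl b hb heb
  have hF : GoodF ℓ (FF M) := H50.fld ℓ hfact.out M hM
  have hC : Subgroup.centralizer ((Subgroup.zpowers y : Subgroup G) : Set G) = Cu y := by
    ext x
    rw [Subgroup.mem_centralizer_iff, Subgroup.mem_centralizer_singleton_iff]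
    constructor
    · intro h
      exact (h y (Subgroup.mem_zpowers y)).symm
    · intro h z hz
      obtain ⟨k, rfl⟩ := Subgroup.mem_zpowers_iff.1 hz
      exact ((show Commute x y from h).zpow_right k).eq.symm
  have hQ : IsPGroup ℓ (Subgroup.zpowers y) := by
    obtain ⟨n, hn⟩ := hyl
    rintro ⟨z, hz⟩
    obtain ⟨k, rfl⟩ := Subgroup.mem_zpowers_iff.1 hz
    refine ⟨n, Subtype.ext ?_⟩
    show (y ^ k) ^ ℓ ^ n = 1
    rw [← zpow_natCast, ← zpow_mul, mul_comm, zpow_mul, zpow_natCast, hn, one_zpow]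
  obtain ⟨P, hQP, hPC, hP, hPV, hgP⟩ := dug ℓ M hM G e hL.blk V hL.tp hL.ab (Subgroup.zpowers y) hQ
    b (by rw [hC]; exact hb) (by rw [hC]; exact heb)
  have hyP : y ∈ P := hQP (Subgroup.mem_zpowers y)
  rw [hC] at hPC
  have hbQ : Bx (Subgroup.centralizer ((Subgroup.zpowers y : Subgroup G) : Set G)) b := by
    rw [hC]
    exact hb
  have hunQ : mulF (br (Subgroup.zpowers y) e) b = b :=
    T3.H3.under_iff hbQ (by rw [hC]; exact heb)
  -- `P` is good for `e`
  have hCC : Subgroup.centralizer (P : Set G) ≤ Cu y := by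
    rw [← hC]
    exact Subgroup.centralizer_le (show ((Subgroup.zpowers y : Subgroup G) : Set G) ⊆ P from hQP)
  have hinvP : H66.Inv P b := fun p hp t => C2.H3.ix_inv hb.ix (hPC hp) t
  have hIb : Ix (Subgroup.centralizer (P : Set G)) (br P b) :=
    C2.H3.ix_br hF hP (fun z hz x => C2.H3.ix_inv hb.ix (hCC hz) x) hinvP hb.mul
  have hIQ : Ix (Subgroup.centralizer ((Subgroup.zpowers y : Subgroup G) : Set G))
      (br (Subgroup.zpowers y) e) :=
    C2.H3.ix_br hF hQ (fun z _ x => hL.blk.1.1 x z) (H66.IsCl.inv hL.blk.1.1 _) hL.blk.1.2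
  have hinvQ : H66.Inv P (br (Subgroup.zpowers y) e) := fun p hp t =>
    C2.H3.ix_inv hIQ (by rw [hC]; exact hPC hp) t
  have hPe : mulF (br P e) (br P b) = br P b := by
    have h1 := congrArg (br P) hunQ
    rwa [H66.br_mulF hF hP hinvQ hinvP, C2.H3.br_br hQP] at h1
  have hbrb : br P b ≠ 0 := C2.H3.br_ne_of_gd hgP
  have hGe : Gd e P := by
    apply C2.H3.gd_of_br'
    intro h0
    apply hbrb
    rw [← hPe, h0, H75.mulF_zero_left]
  -- the conjugate
  obtain ⟨k, hk⟩ := (K9.H69.fmg ℓ M hM G e hL.blk V hL.tp).1 P hP hGe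
  have hPk : P = conjS k V := by
    refine Subgroup.eq_of_le_of_card_ge hk ?_
    rw [card_conjS, hPV]
  obtain ⟨hL1, hix1⟩ := T3.H62.lcj ℓ (FF M) hF G e V γ hL k
  rw [← hPk] at hL1 hix1
  -- the block of `C(P)`
  obtain ⟨γ₀, hγ₀, hgγ, -⟩ := K9.H24.exists_blk
    (L := fun a : Subgroup.centralizer (P : Set G) → FF M => a) rfl
    (fun a b => rfl) hIb.idem (by
      intro h
      apply hbrb
      exact H75.eq_of_res hIb.supp (fun _ _ => rfl) h)
  obtain ⟨γ₁, hγ₁⟩ : ∃ γ₁ : G → FF M,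
      γ₁ = H75.ext0 (Subgroup.centralizer (P : Set G)) γ₀ := ⟨_, rfl⟩
  have hγs : ∀ x, x ∉ Subgroup.centralizer (P : Set G) → γ₁ x = 0 := by
    rw [hγ₁]
    exact H75.ext0_supp _ γ₀
  have hγC : (fun t : Subgroup.centralizer (P : Set G) => γ₁ t) = γ₀ := by
    rw [hγ₁]
    exact funext (H75.ext0_apply _ γ₀)
  have hBγ : Bx (Subgroup.centralizer (P : Set G)) γ₁ := ⟨hγs, by rw [hγC]; exact hγ₀⟩
  have hbγ : mulF (br P b) γ₁ = γ₁ := by
    apply H75.eq_of_res (H75.mulF_supp _ hIb.supp hγs) hγs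
    rw [H75.mulF_res _ γ₁ hIb.supp, hγC, hgγ]
  have heγ : mulF (br P e) γ₁ = γ₁ := by
    rw [← hbγ, ← H20.mulF_assoc, hPe]
  have hL2 : Ld ℓ e P γ₁ := ⟨hL.blk, hL1.tp, hL1.ab, hBγ, heγ⟩
  have hLc : Lc e P γ₁ y b := ⟨hb, heb, hbγ⟩
  -- the conjugate of `γ`
  obtain ⟨n, hn, hγn⟩ := exists_conj hM hL1 hL2
  have hPn : conjS n P = P := mem_normalizer_iff_conjS.1 hn
  rw [H75.cj_cj] at hγn
  have hPu : conjS (n * k) V = P := by rw [← conjS_conjS, ← hPk, hPn]
  have hv : (n * k)⁻¹ * y * (n * k) ∈ V := by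
    rw [← T3.H62.mem_conjS, hPu]
    exact hyP
  have hyu : y = (n * k) * ((n * k)⁻¹ * y * (n * k)) * (n * k)⁻¹ := by group
  refine ⟨n * k, (n * k)⁻¹ * y * (n * k), hv, hyu, ?_⟩
  obtain ⟨u, hu⟩ : ∃ u : G, u = n * k := ⟨_, rfl⟩
  rw [← hu] at hγn hPu hv hyu ⊢
  have hVu : conjS u⁻¹ P = V := by rw [← hPu, conjS_conjS, inv_mul_cancel, conjS_one]
  have hCu : ∀ z, z ∈ Cu (u⁻¹ * y * u) ↔ u⁻¹⁻¹ * z * u⁻¹ ∈ Cu y := by
    intro z
    rw [inv_inv, Subgroup.mem_centralizer_singleton_iff, Subgroup.mem_centralizer_singleton_iff]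
    constructor
    · intro h
      calc u * z * u⁻¹ * y = u * (z * (u⁻¹ * y * u)) * u⁻¹ := by group
        _ = u * ((u⁻¹ * y * u) * z) * u⁻¹ := by rw [h]
        _ = y * (u * z * u⁻¹) := by group
    · intro h
      calc z * (u⁻¹ * y * u) = u⁻¹ * (u * z * u⁻¹ * y) * u := by group
        _ = u⁻¹ * (y * (u * z * u⁻¹)) * u := by rw [h]
        _ = (u⁻¹ * y * u) * z := by group
  refine ⟨T3.H62.bx_cj hCu hb, ?_, ?_⟩
  · have h1 : mulF (br (Subgroup.zpowers (u⁻¹ * y * u)) e) (H75.cj u⁻¹ b) = H75.cj u⁻¹ b := by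
      have h2 : conjS u⁻¹ (Subgroup.zpowers y) = Subgroup.zpowers (u⁻¹ * y * u) := by
        rw [conjS, MonoidHom.map_zpowers]
        congr 1
        simp
      rw [← h2, T3.H62.br_cj u⁻¹ _ hL.blk.1.1, ← H75.cj_mulF, hunQ]
    have h3 := und_iff h1
    rw [cent_zp] at h3
    exact h3
  · have h1 : br V (H75.cj u⁻¹ b) = H75.cj u⁻¹ (br P b) := by
      rw [← hVu]
      exact br_cj' u⁻¹ P b
    have h2 : γ = H75.cj u⁻¹ γ₁ := by rw [hγn, H75.cj_inv_cj]
    rw [h1, h2, ← H75.cj_mulF, hbγ]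

end Pool.Agent.PP.T6.H46
end
end -- Pool.Agent.Helper46_AT6.LCX
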