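import Pool.Agent.Helper12_AWB.B123
import Pool.Agent.Helper12_AWB.B126
import Pool.Agent.Helper12_AWB.B130
import Pool.Agent.Helper12_AWB.B142
import Pool.Agent.Helper12_AWB.B145
import Pool.Agent.Helper12_AWB.B174

/-!
# Merged copies (generated) of the modules

* `Pool.Agent.Helper81_AT5.SEI`
* `Pool.Agent.Helper1_AT10.SBE`
* `Pool.Agent.Helper1_AT10.FRB`
* `Pool.Agent.Helper79_AT10.FRG`
* `Pool.Agent.Helper86_AT10.LCA`
* `Pool.Agent.Helper24_ASO.HRAT`
* `Pool.Agent.Helper34_ASO.HFRO`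
* `Pool.Agent.Helper92_ASO.HTZ`
-/

set_option autoImplicit false

section -- Pool.Agent.Helper81_AT5.SEI

/-!
# Squad AT5, row SEI: two virtual characters
-/

open scoped BigOperators

set_option autoImplicit false

noncomputable section

namespace Pool.Agent.PP.T5.H81

open Pool.Agent.Helper51_AWC Pool.Agent.Helper79_WRA Pool.Agent.PP Pool.Agent.PP.KF
open Pool.Agent.PP.K9 Pool.Agent.PP.K9.H97 Pool.Agent.PP.H75 Pool.Agent.PP.T3 Pool.Agent.PP.T2

variable {G : Type} [Group G]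

open Classical in
/-- the character induced from the trivial character of `P` -/
def indt (P : Subgroup G) (g : G) : ℂ :=
  (Nat.card P : ℂ)⁻¹ * ∑ᶠ x : G, if x⁻¹ * g * x ∈ P then (1 : ℂ) else 0

theorem one_irr [Finite G] : (fun _ : G => (1 : ℂ)) ∈ Irr G := by
  have := linear_mem_Irr (1 : G →* ℂˣ)
  simpa using this

theorem indt_zi [Finite G] (P : Subgroup G) : indt P ∈ ZI G := by
  classical
  have := Fintype.ofFinite G
  have := Fintype.ofFinite P
  apply K9.H25.mem_zi_of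
  · intro x y
    unfold indt
    rw [finsum_eq_sum_of_fintype, finsum_eq_sum_of_fintype]
    congr 1
    refine Fintype.sum_equiv (Equiv.mulLeft y⁻¹) _ _ fun t => ?_
    simp only [Equiv.coe_mulLeft, mul_inv_rev, inv_inv, mul_assoc]
  · intro η hη
    obtain ⟨m, hm⟩ := K9.H25.zi_ipn (AddSubgroup.subset_closure (one_irr (G := P)))
      (K9.H77.zi_res P hη)
    refine ⟨m, ?_⟩
    rw [← hm, K9.H25.ipn_eq, K9.H25.ipn_eq]
    have hG : (Fintype.card G : ℂ) ≠ 0 := by exact_mod_cast Fintype.card_ne_zero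
    have h1 : ∑ x : G, indt P x * starRingEnd ℂ (η x) =
        (Fintype.card P : ℂ)⁻¹ * (Fintype.card G * ∑ g : G,
          (if g ∈ P then (1 : ℂ) else 0) * starRingEnd ℂ (η g)) := by
      have e1 : ∑ x : G, indt P x * starRingEnd ℂ (η x) = (Fintype.card P : ℂ)⁻¹ *
          ∑ y : G, ∑ x : G, (if y⁻¹ * x * y ∈ P then (1 : ℂ) else 0) *
            starRingEnd ℂ (η x) := by
        rw [Finset.sum_comm, Finset.mul_sum]
        refine Finset.sum_congr rfl fun x _ => ?_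
        unfold indt
        rw [finsum_eq_sum_of_fintype, Nat.card_eq_fintype_card, mul_assoc, Finset.sum_mul]
      rw [e1]
      congr 1
      have e2 : ∀ y : G, ∑ x : G, (if y⁻¹ * x * y ∈ P then (1 : ℂ) else 0) *
            starRingEnd ℂ (η x) = ∑ g : G,
          (if g ∈ P then (1 : ℂ) else 0) * starRingEnd ℂ (η g) := by
        intro y
        refine Fintype.sum_equiv (MulAut.conj y⁻¹).toEquiv _ _ fun x => ?_
        have e3 : (MulAut.conj y⁻¹).toEquiv x = y⁻¹ * x * y := by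
          simp [MulAut.conj_apply]
        rw [e3]
        congr 2
        have e4 := irr_conj hη x y⁻¹
        rw [inv_inv] at e4
        exact e4.symm
      rw [Finset.sum_congr rfl fun y _ => e2 y, Finset.sum_const, Finset.card_univ,
        nsmul_eq_mul]
    have h2 : ∑ g : G, (if g ∈ P then (1 : ℂ) else 0) * starRingEnd ℂ (η g) =
        ∑ p : P, 1 * starRingEnd ℂ (η p) := by
      have e1 : ∑ g : G, (if g ∈ P then (1 : ℂ) else 0) * starRingEnd ℂ (η g) =
          ∑ g ∈ Finset.univ.filter (fun g => g ∈ P), 1 * starRingEnd ℂ (η g) := by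
        rw [Finset.sum_filter]
        refine Finset.sum_congr rfl fun g _ => ?_
        split_ifs
        · rfl
        · rw [zero_mul]
      rw [e1]
      exact Finset.sum_subtype _ (by simp) _
    rw [h1, h2]
    field_simp

theorem indt_one [Finite G] (P : Subgroup G) : indt P 1 = P.index := by
  classical
  have := Fintype.ofFinite G
  unfold indt
  rw [finsum_eq_sum_of_fintype]
  have h1 : ∀ x : G, (if x⁻¹ * 1 * x ∈ P then (1 : ℂ) else 0) = 1 := by
    intro x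
    rw [if_pos]
    rw [mul_one, inv_mul_cancel]
    exact P.one_mem
  rw [Finset.sum_congr rfl fun x _ => h1 x, Finset.sum_const, Finset.card_univ, nsmul_eq_mul,
    mul_one, ← Nat.card_eq_fintype_card, ← P.card_mul_index]
  have h2 : (Nat.card P : ℂ) ≠ 0 := by exact_mod_cast Nat.card_pos.ne'
  push_cast
  field_simp

theorem indt_zero {r : ℕ} {P : Subgroup G} (hP : IsPGroup r P) {g : G} (hg : ¬ El r g) :
    indt P g = 0 := by
  classical
  unfold indt
  have h1 : ∀ x : G, (if x⁻¹ * g * x ∈ P then (1 : ℂ) else 0) = 0 := by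
    intro x
    rw [if_neg]
    intro hx
    apply hg
    obtain ⟨n, hn⟩ := hP ⟨_, hx⟩
    refine ⟨n, ?_⟩
    have h2 : (x⁻¹ * g * x) ^ r ^ n = 1 := by
      have := congrArg Subtype.val hn
      simpa using this
    have h3 : (x⁻¹ * g * x) ^ r ^ n = x⁻¹ * g ^ r ^ n * x := by
      have := conj_pow (i := r ^ n) (a := x⁻¹) (b := g)
      rwa [inv_inv] at this
    rw [h3] at h2
    calc g ^ r ^ n = x * (x⁻¹ * g ^ r ^ n * x) * x⁻¹ := by group
      _ = 1 := by rw [h2]; group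
  simp_rw [h1]
  rw [finsum_zero, mul_zero]

theorem zi_pow (ada : K9.AdaStmt) [Finite G] (N : ℕ) {f : G → ℂ} (hf : f ∈ ZI G) :
    (fun g => f (g ^ N)) ∈ ZI G := by
  refine K9.H25.mem_zi_of (fun x y => ?_) fun η hη =>
    ada G N f hf η (AddSubgroup.subset_closure hη)
  have h1 : (y * x * y⁻¹) ^ N = y * x ^ N * y⁻¹ := conj_pow
  rw [h1]
  exact K9.H25.zi_cl hf _ _

/-- an element of two coprime prime power orders -/
theorem el_el {r ℓ : ℕ} (h : Nat.Coprime r ℓ) {g : G} (h1 : El r g) (h2 : El ℓ g) : g = 1 := by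
  obtain ⟨m, hm⟩ := h1
  obtain ⟨n, hn⟩ := h2
  have e1 := orderOf_dvd_of_pow_eq_one hm
  have e2 := orderOf_dvd_of_pow_eq_one hn
  have e3 : Nat.Coprime (r ^ m) (ℓ ^ n) := Nat.Coprime.pow _ _ h
  exact orderOf_eq_one_iff.1 (Nat.dvd_one.1 (e3 ▸ Nat.dvd_gcd e1 e2))

theorem reg_el {ℓ : ℕ} {g : G} (h1 : Reg ℓ g) (h2 : El ℓ g) : g = 1 := by
  obtain ⟨n, hn⟩ := h2
  have e2 := orderOf_dvd_of_pow_eq_one hn
  have e3 : Nat.Coprime (orderOf g) (ℓ ^ n) := Nat.Coprime.pow_right n h1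
  exact orderOf_eq_one_iff.1 (Nat.dvd_one.1 (e3 ▸ Nat.dvd_gcd dvd_rfl e2))

/-- a power which gives the `ℓ`-part -/
theorem prt' (prt : K9.PrtStmt) (ℓ : ℕ) [Fact ℓ.Prime] (G : Type) [Group G] [Finite G] :
    ∃ N : ℕ, (∀ g : G, El ℓ (g ^ N)) ∧ ∀ g : G, g ^ N = 1 ↔ Reg ℓ g := by
  obtain ⟨N, h1, h2⟩ := prt ℓ G
  have h3 : ∀ g : G, g ^ (1 + (Nat.card G - 1) * N) = (g ^ N)⁻¹ * g := by
    intro g
    have hc : 0 < Nat.card G := Nat.card_pos
    have h4 : (g ^ N) ^ (Nat.card G - 1) = (g ^ N)⁻¹ := by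
      rw [eq_inv_iff_mul_eq_one, ← pow_succ, Nat.sub_add_cancel hc]
      exact pow_card_eq_one'
    rw [pow_add, pow_one, mul_comm _ N, pow_mul, h4]
    exact ((Commute.refl g).pow_right N).inv_right.eq
  refine ⟨1 + (Nat.card G - 1) * N, fun g => ?_, fun g => ?_⟩
  · rw [h3]
    exact (h1 g).2
  · rw [h3, inv_mul_eq_one]
    constructor
    · intro h
      rw [← h]
      exact (h1 g).1
    · intro h
      have := h2 g 1 (Commute.one_right g) h ⟨0, one_pow _⟩
      rwa [mul_one] at this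

theorem gcd_mem {n ℓ c : ℕ} [hℓ : Fact ℓ.Prime] (hn : n ≠ 0) (A : AddSubgroup ℤ)
    (h1 : (n : ℤ) ∈ A) (hc : n = ℓ ^ c * (n / ℓ ^ c)) (hc' : ¬ ℓ ∣ n / ℓ ^ c)
    (h2 : ∀ r : ℕ, r.Prime → r ≠ ℓ → ∃ k : ℕ, (k : ℤ) ∈ A ∧ ¬ r ∣ k) : ((ℓ ^ c : ℕ) : ℤ) ∈ A := by
  obtain ⟨a, rfl⟩ := Int.subgroup_cyclic A
  have h3 : ∀ k : ℕ, (k : ℤ) ∈ AddSubgroup.closure ({a} : Set ℤ) ↔ a.natAbs ∣ k := by
    intro k
    rw [AddSubgroup.mem_closure_singleton]
    constructor
    · rintro ⟨z, hz⟩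
      rw [← Int.natCast_dvd_natCast, Int.natAbs_dvd]
      exact ⟨z, by rw [← hz, smul_eq_mul, mul_comm]⟩
    · intro h
      rw [← Int.natCast_dvd_natCast, Int.natAbs_dvd] at h
      obtain ⟨z, hz⟩ := h
      exact ⟨z, by rw [hz, smul_eq_mul, mul_comm]⟩
  rw [h3] at h1 ⊢
  have ha : a.natAbs ≠ 0 := by
    intro h
    rw [h, zero_dvd_iff] at h1
    exact hn h1
  have h4 : Nat.Coprime a.natAbs (n / ℓ ^ c) := by
    apply Nat.Coprime.symm
    rw [Nat.coprime_iff_gcd_eq_one] at *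
    by_contra hne
    obtain ⟨r, hr, hrd⟩ := Nat.exists_prime_and_dvd hne
    have hr1 := (Nat.dvd_gcd_iff.1 hrd).1
    have hr2 := (Nat.dvd_gcd_iff.1 hrd).2
    have hrl : r ≠ ℓ := by
      rintro rfl
      exact hc' hr1
    obtain ⟨k, hk, hk'⟩ := h2 r hr hrl
    rw [h3] at hk
    exact hk' (hr2.trans hk)
  rw [hc] at h1
  exact h4.dvd_of_dvd_mul_right h1

theorem sei (ada : K9.AdaStmt) (prt : K9.PrtStmt) : SeiStmt := by
  classical
  intro ℓ hℓ H _ _ P
  have hprime := hℓ.out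
  constructor
  · obtain ⟨N, hN1, hN2⟩ := prt' prt ℓ H
    -- the integers `n` with `n 1_reg` a virtual character
    let A : AddSubgroup ℤ :=
      { carrier := {n | (fun h : H => if Reg ℓ h then (n : ℂ) else 0) ∈ ZI H}
        zero_mem' := by
          have : (fun h : H => if Reg ℓ h then ((0 : ℤ) : ℂ) else 0) = 0 := by
            funext h
            split_ifs <;> simp
          rw [Set.mem_ofPred_eq, this]
          exact AddSubgroup.zero_mem _
        add_mem' := by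
          intro a b ha hb
          have : (fun h : H => if Reg ℓ h then ((a + b : ℤ) : ℂ) else 0) =
              (fun h : H => if Reg ℓ h then (a : ℂ) else 0) +
                fun h : H => if Reg ℓ h then (b : ℂ) else 0 := by
            funext h
            rw [Pi.add_apply]
            split_ifs
            · push_cast
              rfl
            · rw [add_zero]
          rw [Set.mem_ofPred_eq, this]
          exact AddSubgroup.add_mem _ ha hb
        neg_mem' := by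
          intro a ha
          have : (fun h : H => if Reg ℓ h then ((-a : ℤ) : ℂ) else 0) =
              -(fun h : H => if Reg ℓ h then (a : ℂ) else 0) := by
            funext h
            rw [Pi.neg_apply]
            split_ifs
            · push_cast
              rfl
            · rw [neg_zero]
          rw [Set.mem_ofPred_eq, this]
          exact AddSubgroup.neg_mem _ ha }
    have hA : ∀ (r : ℕ) (Q : Subgroup H), IsPGroup r Q → Nat.Coprime r ℓ →
        ((Q.index : ℕ) : ℤ) ∈ A := by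
      intro r Q hQ hr
      have h1 := zi_pow ada N (indt_zi Q)
      have h2 : (fun g : H => indt Q (g ^ N)) =
          fun h : H => if Reg ℓ h then (((Q.index : ℕ) : ℤ) : ℂ) else 0 := by
        funext g
        split_ifs with hg
        · rw [(hN2 g).2 hg, indt_one]
          push_cast
          rfl
        · apply indt_zero hQ
          intro he
          exact hg ((hN2 g).1 (el_el hr he (hN1 g)))
      rw [h2] at h1
      exact h1
    have hcard : Nat.card H ≠ 0 := Nat.card_pos.ne'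
    have h1 : ((Nat.card H : ℕ) : ℤ) ∈ A := by
      have := hA 1 ⊥ (IsPGroup.of_bot) (Nat.coprime_one_left ℓ)
      rwa [Subgroup.index_bot] at this
    have hP := P.card_eq_multiplicity
    have h2 : ((ℓ ^ (Nat.card H).factorization ℓ : ℕ) : ℤ) ∈ A := by
      refine gcd_mem hcard A h1 (Nat.ordProj_mul_ordCompl_eq_self _ _).symm
        (Nat.not_dvd_ordCompl hprime hcard) ?_
      intro r hr hrl
      have : Fact r.Prime := ⟨hr⟩
      obtain ⟨Q⟩ : Nonempty (Sylow r H) := inferInstance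
      exact ⟨(Q : Subgroup H).index, hA r Q Q.isPGroup' ((Nat.coprime_primes hr hprime).2 hrl),
        Q.not_dvd_index⟩
    rw [← hP] at h2
    have h3 : (fun h : H => if Reg ℓ h then ((((Nat.card P : ℕ) : ℤ)) : ℂ) else 0) ∈ ZI H := h2
    have h4 : (fun h : H => if Reg ℓ h then ((((Nat.card P : ℕ) : ℤ)) : ℂ) else 0) =
        fun h : H => if Reg ℓ h then (Nat.card P : ℂ) else 0 := by
      funext h
      split_ifs
      · push_cast
        rfl
      · rfl
    rw [h4] at h3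
    exact h3
  · obtain ⟨N, hN1, hN2⟩ := prt ℓ H
    have h1 := zi_pow ada N (indt_zi (P : Subgroup H))
    have h2 : (fun g : H => indt (P : Subgroup H) (g ^ N)) =
        fun h : H => if El ℓ h then ((P : Subgroup H).index : ℂ) else 0 := by
      funext g
      split_ifs with hg
      · have h3 := hN2 1 g (Commute.one_left g)
          (by unfold Reg; rw [orderOf_one]; exact Nat.coprime_one_left ℓ) hg
        rw [one_mul] at h3
        rw [h3, indt_one]
      · apply indt_zero P.isPGroup'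
        intro he
        apply hg
        have h3 := reg_el (hN1 g).1 he
        obtain ⟨n, hn⟩ := (hN1 g).2
        rw [h3, inv_one, one_mul] at hn
        exact ⟨n, hn⟩
    rw [h2] at h1
    exact h1

end Pool.Agent.PP.T5.H81
end
end -- Pool.Agent.Helper81_AT5.SEI

section -- Pool.Agent.Helper1_AT10.SBE

/-!
# Squad AT10, row SBE: the family `sb b`
-/

open scoped BigOperators

noncomputable section

namespace Pool.Agent.PP.T10.H1

open Pool.Agent.Helper51_AWC Pool.Agent.Helper79_WRA Pool.Agent.PP Pool.Agent.PP.KF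
open Pool.Agent.PP.K9 Pool.Agent.PP.K9.H97 Pool.Agent.PP.H75 Pool.Agent.PP.T3 Pool.Agent.PP.T2
open Pool.Agent.PP.T5 Pool.Agent.PP.TB
open Pool.Agent.PP.T8 (rs pw fv rd Ip Rv)

attribute [local instance] Ideal.Quotient.field

section sbe

variable {F G : Type} [Field F] [Group G] [Finite G]

omit [Finite G] in
theorem mem_cu {u x : G} : x ∈ Cu u ↔ x * u = u * x := Subgroup.mem_centralizer_singleton_iff

omit [Finite G] in
theorem mem_cu_conj {z u q : G} (h : q * z * q⁻¹ = u) (x : G) :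
    x ∈ Cu u ↔ q⁻¹ * x * q ∈ Cu z := by
  rw [mem_cu, mem_cu, ← h]
  constructor
  · intro h1
    have h2 := congrArg (fun y => q⁻¹ * y * q) h1
    calc q⁻¹ * x * q * z = q⁻¹ * (x * (q * z * q⁻¹)) * q := by group
      _ = q⁻¹ * (q * z * q⁻¹ * x) * q := h2
      _ = z * (q⁻¹ * x * q) := by group
  · intro h1
    have h2 := congrArg (fun y => q * y * q⁻¹) h1
    calc x * (q * z * q⁻¹) = q * (q⁻¹ * x * q * z) * q⁻¹ := by group
      _ = q * (z * (q⁻¹ * x * q)) * q⁻¹ := h2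
      _ = q * z * q⁻¹ * x := by group

theorem sb_eq {b : G → G → F} {z u q : G} (hb : Ix (Cu z) (b z)) (h : q * z * q⁻¹ = u) :
    sb b z u = cj q (b z) := by
  have hex : ∃ q : G, q * z * q⁻¹ = u := ⟨q, h⟩
  have h1 : sb b z u = cj hex.choose (b z) := by
    unfold sb
    rw [dif_pos hex]
    rfl
  rw [h1]
  have h2 := hex.choose_spec
  generalize hex.choose = r at h2 ⊢
  have h3 : q⁻¹ * r ∈ Cu z := by
    rw [mem_cu]
    have h4 : r * z = q * z * q⁻¹ * r := by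
      calc r * z = r * z * r⁻¹ * r := by group
        _ = q * z * q⁻¹ * r := by rw [h2, h]
    calc q⁻¹ * r * z = q⁻¹ * (r * z) := by group
      _ = q⁻¹ * (q * z * q⁻¹ * r) := by rw [h4]
      _ = z * (q⁻¹ * r) := by group
  have h5 := hb.inv h3
  have h6 := congrArg (cj q) h5
  rw [cj_cj, mul_inv_cancel_left] at h6
  exact h6

omit [Finite G] in
theorem sb_zero {b : G → G → F} {z u : G} (h : ¬ ∃ q : G, q * z * q⁻¹ = u) :
    sb b z u = 0 := by
  unfold sb
  rw [dif_neg h]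

theorem ix_zero (X : Subgroup G) : Ix X (0 : G → F) := by
  refine ⟨fun _ _ => rfl, fun _ _ => rfl, ?_⟩
  exact mulF_zero_right _

theorem sb_ix {b : G → G → F} {z : G} (hb : Ix (Cu z) (b z)) (u : G) :
    Ix (Cu u) (sb b z u) := by
  by_cases h : ∃ q : G, q * z * q⁻¹ = u
  · obtain ⟨q, hq⟩ := h
    rw [sb_eq hb hq]
    exact T3.H62.ix_cj (mem_cu_conj hq) hb
  · rw [sb_zero h]
    exact ix_zero _

theorem sb_cj {b : G → G → F} {z : G} (hb : Ix (Cu z) (b z)) (g u : G) :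
    sb b z (g * u * g⁻¹) = cj g (sb b z u) := by
  by_cases h : ∃ q : G, q * z * q⁻¹ = u
  · obtain ⟨q, hq⟩ := h
    have h1 : (g * q) * z * (g * q)⁻¹ = g * u * g⁻¹ := by
      rw [← hq]
      group
    rw [sb_eq hb hq, sb_eq hb h1, cj_cj]
  · have h1 : ¬ ∃ q : G, q * z * q⁻¹ = g * u * g⁻¹ := by
      rintro ⟨q, hq⟩
      apply h
      refine ⟨g⁻¹ * q, ?_⟩
      calc g⁻¹ * q * z * (g⁻¹ * q)⁻¹ = g⁻¹ * (q * z * q⁻¹) * g := by group
        _ = g⁻¹ * (g * u * g⁻¹) * g := by rw [hq]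
        _ = u := by group
    rw [sb_zero h, sb_zero h1]
    rfl

end sbe

theorem sbe : SbeStmt := by
  intro ℓ _ M _ hM G _ _ e V Z γ b hZ
  have hb : ∀ z ∈ Z, Ix (Cu z) (b z) := fun z hz => (hZ.lb z hz).1.bx.ix
  refine ⟨⟨fun k u => sb_ix (hb k k.2) u, fun k g u => sb_cj (hb k k.2) g u⟩, ?_⟩
  intro z hz q
  exact sb_eq (hb z hz) rfl

end Pool.Agent.PP.T10.H1
end
end -- Pool.Agent.Helper1_AT10.SBE

section -- Pool.Agent.Helper1_AT10.FRB

/-!
# Squad AT10, row FRB: the inner product of `fg` and `ψ`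
-/

open scoped BigOperators

noncomputable section

namespace Pool.Agent.PP.T10.H1

open Pool.Agent.Helper51_AWC Pool.Agent.Helper79_WRA Pool.Agent.PP Pool.Agent.PP.KF
open Pool.Agent.PP.K9 Pool.Agent.PP.K9.H97 Pool.Agent.PP.H75 Pool.Agent.PP.T3 Pool.Agent.PP.T2
open Pool.Agent.PP.T5 Pool.Agent.PP.TB
open Pool.Agent.PP.T8 (rs pw fv rd Ip Rv)

attribute [local instance] Ideal.Quotient.field

/-- virtual characters composed with a homomorphism -/
theorem zi_comp {A B : Type} [Group A] [Finite A] [Group B] (φ : A →* B) {f : B → ℂ}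
    (hf : f ∈ ZI B) : (fun a => f (φ a)) ∈ ZI A := by
  refine AddSubgroup.closure_induction (p := fun f _ => (fun a => f (φ a)) ∈ ZI A)
    (fun χ hχ => ?_) ?_ (fun a b _ _ ha hb => ?_) (fun a _ ha => ?_) hf
  · obtain ⟨n, ρ, _, rfl⟩ := hχ
    exact T5.H32.char_mem_ZI (ρ.comp φ)
  · exact AddSubgroup.zero_mem _
  · exact AddSubgroup.add_mem _ ha hb
  · exact AddSubgroup.neg_mem _ ha

section cls

variable {G : Type} [Group G] [Fintype G]

/-- the sum over representatives of the classes -/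
theorem class_sum (R : Subring ℂ) {f : G → ℂ} (hf : ∀ x y, f (y * x * y⁻¹) = f x)
    (hR : ∀ x, f x ∈ R) :
    (Nat.card G : ℂ)⁻¹ * ∑ s, (Nat.card (Cu s) : ℂ) * f s ∈ R := by
  classical
  let r : G → G := fun s => Quotient.out (ConjClasses.mk s)
  have hr1 : ∀ s, ConjClasses.mk (r s) = ConjClasses.mk s := fun s => Quotient.out_eq _
  have hr2 : ∀ s t : G, r (t * s * t⁻¹) = r s := by
    intro s t
    have h1 : ConjClasses.mk (t * s * t⁻¹) = ConjClasses.mk s :=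
      ConjClasses.mk_eq_mk_iff_isConj.2 (isConj_iff.2 ⟨t⁻¹, by group⟩)
    change Quotient.out (ConjClasses.mk (t * s * t⁻¹)) = Quotient.out (ConjClasses.mk s)
    rw [h1]
  have hcard : ∀ s, (Nat.card (Cu s) : ℂ) = ∑ t, if t * s * t⁻¹ = r s then 1 else 0 := by
    intro s
    obtain ⟨g, hg⟩ := isConj_iff.1 (ConjClasses.mk_eq_mk_iff_isConj.1 (hr1 s).symm)
    have h1 : ∑ t, (if t * s * t⁻¹ = r s then (1 : ℂ) else 0) =
        ∑ t, if t ∈ Cu s then (1 : ℂ) else 0 := by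
      rw [← Equiv.sum_comp (Equiv.mulLeft g)]
      refine Finset.sum_congr rfl fun t _ => ?_
      have h2 : (g * t) * s * (g * t)⁻¹ = r s ↔ t ∈ Cu s := by
        rw [mem_cu, ← hg]
        constructor
        · intro h
          have h3 : t * s * t⁻¹ = s := by
            have h4 := congrArg (fun y => g⁻¹ * y * g) h
            calc t * s * t⁻¹ = g⁻¹ * (g * t * s * (g * t)⁻¹) * g := by group
              _ = g⁻¹ * (g * s * g⁻¹) * g := h4
              _ = s := by group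
          calc t * s = t * s * t⁻¹ * t := by group
            _ = s * t := by rw [h3]
        · intro h
          calc g * t * s * (g * t)⁻¹ = g * (t * s) * t⁻¹ * g⁻¹ := by group
            _ = g * (s * t) * t⁻¹ * g⁻¹ := by rw [h]
            _ = g * s * g⁻¹ := by group
      change (if (g * t) * s * (g * t)⁻¹ = r s then (1 : ℂ) else 0) = _
      by_cases h3 : t ∈ Cu s
      · rw [if_pos h3, if_pos (h2.2 h3)]
      · rw [if_neg h3, if_neg (fun h => h3 (h2.1 h))]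
    rw [h1, Finset.sum_boole, Nat.card_eq_fintype_card, Fintype.card_subtype]
  have hswap : ∑ s, (Nat.card (Cu s) : ℂ) * f s =
      (Nat.card G : ℂ) * ∑ s, if s = r s then f s else 0 := by
    have e1 : ∀ s, (Nat.card (Cu s) : ℂ) * f s = ∑ t, if t * s * t⁻¹ = r s then f s else 0 := by
      intro s
      rw [hcard, Finset.sum_mul]
      refine Finset.sum_congr rfl fun t _ => ?_
      rw [ite_mul, one_mul, zero_mul]
    rw [Finset.sum_congr rfl fun s _ => e1 s, Finset.sum_comm]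
    have e2 : ∀ t : G, ∑ s, (if t * s * t⁻¹ = r s then f s else 0) =
        ∑ s, if s = r s then f s else 0 := by
      intro t
      rw [← Equiv.sum_comp (MulAut.conj t).toEquiv (fun s => if s = r s then f s else 0)]
      refine Finset.sum_congr rfl fun s _ => ?_
      change _ = if t * s * t⁻¹ = r (t * s * t⁻¹) then f (t * s * t⁻¹) else 0
      rw [hr2, hf]
    rw [Finset.sum_congr rfl fun t _ => e2 t, Finset.sum_const, Finset.card_univ, nsmul_eq_mul,
      Nat.card_eq_fintype_card]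
  have hn : (Nat.card G : ℂ) ≠ 0 := by exact_mod_cast Nat.card_pos.ne'
  rw [hswap, ← mul_assoc, inv_mul_cancel₀ hn, one_mul]
  refine Subring.sum_mem _ fun s _ => ?_
  split_ifs
  · exact hR s
  · exact R.zero_mem

end cls

section fu

variable {M : Ideal (integralClosure ℤ ℂ)} [M.IsMaximal] {G : Type} [Group G] [Finite G]
  {ι : Type} [Finite ι]

omit [Finite ι] in
theorem fu_conj {c : ι → ℂ} {β : ι → G → G → FF M} (hβ : Ef M β) {χ : G → ℂ}
    (hχ : ∀ x y, χ (y * x * y⁻¹) = χ x) (t u s : G) :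
    fu M c β χ (t * u * t⁻¹) (t * s * t⁻¹) = fu M c β χ u s := by
  unfold fu
  refine finsum_congr fun k => ?_
  have h1 : t * u * t⁻¹ * (t * s * t⁻¹) = t * (u * s) * t⁻¹ := by group
  rw [h1, hβ.eq, T6.H69.gv_cj (hβ.ix k u) hχ]

theorem fu_mem {c : ι → ℂ} {β : ι → G → G → FF M} (hβ : Ef M β) (hc : ∀ k, c k ∈ RM M)
    {χ : G → ℂ} (hχ : χ ∈ Irr G) (u s : G) : fu M c β χ u s ∈ RM M := by
  have := Fintype.ofFinite ι
  unfold fu
  rw [finsum_eq_sum_of_fintype]
  refine Subring.sum_mem _ fun k _ => (RM M).mul_mem (hc k) ?_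
  rw [T6.H66.gv_eq_fv]
  exact T6.H56.fv_RM (fun x => T6.H66.hat_mem (hβ.ix k u) x)
    (fun x => RM_of_int (irr_integral hχ x)) _

end fu

theorem frb (frg : FrgStmt) (sps : SpsStmt) : FrbStmt := by
  intro ℓ _ M _ hM G _ _ ι _ c β hβ hc χ hχ hH ψ hψ
  classical
  have := Fintype.ofFinite G
  have hcχ : ∀ x y, χ (y * x * y⁻¹) = χ x := irr_conj hχ
  have hcψ : ∀ x y, ψ (y * x * y⁻¹) = ψ x := irr_conj hψ
  -- the function of two variables
  let F : G → G → ℂ := fun u s => fu M c β χ u s * starRingEnd ℂ (ψ (u * s))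
  have hFc : ∀ t u s : G, F (t * u * t⁻¹) (t * s * t⁻¹) = F u s := by
    intro t u s
    change fu M c β χ (t * u * t⁻¹) (t * s * t⁻¹) *
      starRingEnd ℂ (ψ (t * u * t⁻¹ * (t * s * t⁻¹))) = _
    have h1 : t * u * t⁻¹ * (t * s * t⁻¹) = t * (u * s) * t⁻¹ := by group
    rw [fu_conj hβ hcχ, h1, hcψ]
  have hFm : ∀ u s : G, F u s ∈ RM M := by
    intro u s
    refine (RM M).mul_mem (fu_mem hβ hc hχ u s) ?_
    rw [Pool.Agent.PP.H94.irr_star hψ]
    exact RM_of_int (irr_integral hψ _)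
  -- the inner sums
  let X : G → ℂ := fun s => ∑ u, if El ℓ u ∧ u ∈ Cu s ∧ Reg ℓ s then F u s else 0
  have hXm : ∀ s, (Nat.card (Cu s) : ℂ)⁻¹ * X s ∈ RM M := by
    intro s
    by_cases hs : Reg ℓ s
    · have P : Sylow ℓ (Cu s) := default
      have h1 := frg ℓ M hM (Cu s) P (fun u => F (u : G) s) (fun x y => ?_)
        (fun x => hFm _ _) (fun κ hκ => ?_)
      · have h2 : ∑ᶠ (u : Cu s) (_ : El ℓ u), F (u : G) s = X s := by
          have h3 : ∀ u : Cu s, (∑ᶠ (_ : El ℓ u), F (u : G) s) =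
              if El ℓ (u : G) then F (u : G) s else 0 := by
            intro u
            have h4 : El ℓ u ↔ El ℓ (u : G) := by
              constructor
              · rintro ⟨n, hn⟩
                exact ⟨n, congrArg Subtype.val hn⟩
              · rintro ⟨n, hn⟩
                exact ⟨n, Subtype.ext hn⟩
            by_cases h5 : El ℓ (u : G)
            · rw [if_pos h5, finsum_eq_if, if_pos (h4.2 h5)]
            · rw [if_neg h5, finsum_eq_if, if_neg (fun h => h5 (h4.1 h))]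
          rw [finsum_congr h3, finsum_eq_sum_of_fintype]
          change _ = ∑ u, if El ℓ u ∧ u ∈ Cu s ∧ Reg ℓ s then F u s else 0
          have h6 : ∀ u : G, (if El ℓ u ∧ u ∈ Cu s ∧ Reg ℓ s then F u s else 0) =
              if u ∈ Cu s then (if El ℓ u then F u s else 0) else 0 := by
            intro u
            by_cases h7 : u ∈ Cu s
            · by_cases h8 : El ℓ u
              · rw [if_pos ⟨h8, h7, hs⟩, if_pos h7, if_pos h8]
              · rw [if_neg (fun h => h8 h.1), if_pos h7, if_neg h8]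
            · rw [if_neg (fun h => h7 h.2.1), if_neg h7]
          have h9 : (∑ u : G, if u ∈ Cu s then (if El ℓ u then F u s else 0) else 0) =
              ∑ u ∈ Finset.univ.filter (fun u => u ∈ Cu s), (if El ℓ u then F u s else 0) :=
            (Finset.sum_filter _ _).symm
          rw [Finset.sum_congr rfl fun u _ => h6 u, h9]
          refine Finset.sum_bij (fun (v : Cu s) _ => (v : G)) (fun v _ => ?_)
            (fun v _ w _ h => Subtype.ext h)
            (fun u hu => ⟨⟨u, (Finset.mem_filter.1 hu).2⟩, Finset.mem_univ _, rfl⟩)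
            (fun v _ => rfl)
          exact Finset.mem_filter.2 ⟨Finset.mem_univ _, v.2⟩
        rw [← h2]
        exact h1
      · -- class function
        have h3 := hFc (y : G) (x : G) s
        have h4 : (y : G) * s * (y : G)⁻¹ = s := by
          have := mem_cu.1 y.2
          rw [this]
          group
        rw [h4] at h3
        exact h3
      · -- the hypothesis for the Sylow subgroup
        let e := (P : Subgroup (Cu s)).equivMapOfInjective (Cu s).subtype (Cu s).subtype_injective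
        let P' : Subgroup G := (P : Subgroup (Cu s)).map (Cu s).subtype
        have hP' : IsPGroup ℓ P' := P.isPGroup'.map _
        have hcen : s ∈ Subgroup.centralizer (P' : Set G) := by
          rw [Subgroup.mem_centralizer_iff]
          rintro x hx
          obtain ⟨y, hy, rfl⟩ := hx
          exact mem_cu.1 y.2
        have h3 := sps ℓ M hM G ι c β hβ χ hχ hH ψ hψ P' hP' s hcen hs
          (fun u' : P' => κ ((e.symm u' : (P : Subgroup (Cu s))) : Cu s))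
          (zi_comp (((P : Subgroup (Cu s)).subtype).comp e.symm.toMonoidHom) hκ)
        have h4 : Nat.card P' = Nat.card P := Nat.card_congr e.symm.toEquiv
        have h5 : ∑ᶠ u' : P', (fu M c β χ (u' : G) s * starRingEnd ℂ (ψ ((u' : G) * s))) *
            κ ((e.symm u' : (P : Subgroup (Cu s))) : Cu s) =
            ∑ᶠ u : P, F ((u : Cu s) : G) s * κ (u : Cu s) := by
          rw [← finsum_comp_equiv e.toEquiv]
          refine finsum_congr fun u => ?_
          have h6 : e.symm (e.toEquiv u) = u := e.symm_apply_apply u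
          rw [h6]
          rfl
        rw [h4, h5] at h3
        exact h3
    · have h1 : X s = 0 := by
        refine Finset.sum_eq_zero fun u _ => ?_
        rw [if_neg (fun h => hs h.2.2)]
      rw [h1, mul_zero]
      exact (RM M).zero_mem
  have hXc : ∀ s t : G, X (t * s * t⁻¹) = X s := by
    intro s t
    change (∑ u, if El ℓ u ∧ u ∈ Cu (t * s * t⁻¹) ∧ Reg ℓ (t * s * t⁻¹) then
      F u (t * s * t⁻¹) else 0) = ∑ u, if El ℓ u ∧ u ∈ Cu s ∧ Reg ℓ s then F u s else 0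
    rw [← Equiv.sum_comp (MulAut.conj t).toEquiv]
    refine Finset.sum_congr rfl fun u _ => ?_
    change (if El ℓ (t * u * t⁻¹) ∧ t * u * t⁻¹ ∈ Cu (t * s * t⁻¹) ∧ Reg ℓ (t * s * t⁻¹) then
      F (t * u * t⁻¹) (t * s * t⁻¹) else 0) = _
    have h1 : El ℓ (t * u * t⁻¹) ↔ El ℓ u := by
      refine ⟨fun h => ?_, T6.H69.el_conj⟩
      have h2 := T6.H69.el_conj (t := t⁻¹) h
      have h3 : t⁻¹ * (t * u * t⁻¹) * t⁻¹⁻¹ = u := by group
      rwa [h3] at h2
    have h2 : Reg ℓ (t * s * t⁻¹) ↔ Reg ℓ s := by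
      refine ⟨fun h => ?_, T6.H69.reg_conj⟩
      have h2 := T6.H69.reg_conj (t := t⁻¹) h
      have h3 : t⁻¹ * (t * s * t⁻¹) * t⁻¹⁻¹ = s := by group
      rwa [h3] at h2
    have h3 : t * u * t⁻¹ ∈ Cu (t * s * t⁻¹) ↔ u ∈ Cu s := by
      rw [mem_cu_conj (z := s) (q := t) rfl]
      have h4 : t⁻¹ * (t * u * t⁻¹) * t = u := by group
      rw [h4]
    rw [h1, h2, h3, hFc]
  have hCc : ∀ s t : G, Nat.card (Cu (t * s * t⁻¹)) = Nat.card (Cu s) := by
    intro s t
    exact Nat.card_congr (T3.H62.cjE (u := t * s * t⁻¹) (u' := s) (x := t) rfl).symm.toEquiv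
  -- the total sum
  have hS : ∑ᶠ g : G, fg M ℓ c β χ g * starRingEnd ℂ (ψ g) = ∑ s, X s := by
    rw [finsum_eq_sum_of_fintype]
    have e1 : ∀ g : G, fg M ℓ c β χ g * starRingEnd ℂ (ψ g) =
        ∑ u, if Lp ℓ g u then F u (u⁻¹ * g) else 0 := by
      intro g
      unfold fg
      rw [finsum_eq_sum_of_fintype, Finset.sum_mul]
      refine Finset.sum_congr rfl fun u _ => ?_
      rw [finsum_eq_if, ite_mul, zero_mul]
      have h1 : F u (u⁻¹ * g) = fu M c β χ u (u⁻¹ * g) * starRingEnd ℂ (ψ g) := by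
        change fu M c β χ u (u⁻¹ * g) * starRingEnd ℂ (ψ (u * (u⁻¹ * g))) = _
        rw [mul_inv_cancel_left]
      rw [h1]
    rw [Finset.sum_congr rfl fun g _ => e1 g, Finset.sum_comm]
    have e2 : ∀ u : G, ∑ g, (if Lp ℓ g u then F u (u⁻¹ * g) else 0) =
        ∑ s, if El ℓ u ∧ u ∈ Cu s ∧ Reg ℓ s then F u s else 0 := by
      intro u
      rw [← Equiv.sum_comp (Equiv.mulLeft u)]
      refine Finset.sum_congr rfl fun s _ => ?_
      change (if Lp ℓ (u * s) u then F u (u⁻¹ * (u * s)) else 0) = _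
      rw [inv_mul_cancel_left]
      have h1 : Lp ℓ (u * s) u ↔ El ℓ u ∧ u ∈ Cu s ∧ Reg ℓ s := by
        constructor
        · intro h
          refine ⟨h.el, ?_, ?_⟩
          · rw [mem_cu]
            have h2 : u * (u * s) = u * s * u := h.com
            have h3 := congrArg (fun y => u⁻¹ * y) h2
            calc u * s = u⁻¹ * (u * (u * s)) := by group
              _ = u⁻¹ * (u * s * u) := h3
              _ = s * u := by group
          · have h2 := h.reg
            rwa [inv_mul_cancel_left] at h2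
        · rintro ⟨h2, h3, h4⟩
          refine ⟨h2, ?_, ?_⟩
          · change u * (u * s) = u * s * u
            rw [mem_cu] at h3
            rw [mul_assoc u s u, ← h3]
          · rwa [inv_mul_cancel_left]
      by_cases h2 : Lp ℓ (u * s) u
      · rw [if_pos h2, if_pos (h1.1 h2)]
      · rw [if_neg h2, if_neg (fun h => h2 (h1.2 h))]
    rw [Finset.sum_congr rfl fun u _ => e2 u, Finset.sum_comm]
  rw [hS]
  have h1 := class_sum (RM M) (f := fun s => (Nat.card (Cu s) : ℂ)⁻¹ * X s)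
    (fun s t => by simp only [hXc, hCc]) hXm
  have h2 : ∑ s, (Nat.card (Cu s) : ℂ) * ((Nat.card (Cu s) : ℂ)⁻¹ * X s) = ∑ s, X s := by
    refine Finset.sum_congr rfl fun s _ => ?_
    have hn : (Nat.card (Cu s) : ℂ) ≠ 0 := by exact_mod_cast Nat.card_pos.ne'
    rw [← mul_assoc, mul_inv_cancel₀ hn, one_mul]
  rw [h2] at h1
  exact h1

end Pool.Agent.PP.T10.H1
end
end -- Pool.Agent.Helper1_AT10.FRB

section -- Pool.Agent.Helper79_AT10.FRG

/-!
# Squad AT10, row FRG: averages over the `ℓ`-elements (Frobenius, permutation character)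
-/

open scoped BigOperators

set_option autoImplicit false

noncomputable section

namespace Pool.Agent.PP.T10.H79

open Pool.Agent.Helper51_AWC Pool.Agent.Helper79_WRA Pool.Agent.PP Pool.Agent.PP.KF
open Pool.Agent.PP.K9 Pool.Agent.PP.K9.H97 Pool.Agent.PP.H75 Pool.Agent.PP.T3 Pool.Agent.PP.T2
open Pool.Agent.PP.T5 Pool.Agent.PP.TB
open Pool.Agent.PP.T8 (rs pw fv rd Ip Rv)
open Pool.Agent.PP.T5.H81 (indt indt_zi indt_zero)

attribute [local instance] Ideal.Quotient.field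

section perm

variable {C : Type} [Group C] [Finite C]

/-- the number of the fixed points of `u` on the cosets of `P` -/
def fx (P : Subgroup C) (u : C) : ℕ := Nat.card {q : C ⧸ P | u • q = q}

omit [Finite C] in
theorem mem_iff_fix (P : Subgroup C) (u x : C) :
    x⁻¹ * u * x ∈ P ↔ u • (x : C ⧸ P) = (x : C ⧸ P) := by
  have h1 : u • (x : C ⧸ P) = ((u * x : C) : C ⧸ P) := rfl
  rw [h1, eq_comm, QuotientGroup.eq, mul_assoc]

theorem indt_eq (P : Subgroup C) (u : C) : indt P u = fx P u := by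
  classical
  have := Fintype.ofFinite C
  unfold indt
  rw [finsum_eq_sum_of_fintype]
  have h1 : ∑ x : C, (if x⁻¹ * u * x ∈ P then (1 : ℂ) else 0) =
      (Nat.card (QuotientGroup.mk ⁻¹' {q : C ⧸ P | u • q = q} : Set C) : ℂ) := by
    rw [Finset.sum_ite, Finset.sum_const_zero, add_zero, Finset.sum_const, nsmul_eq_mul, mul_one]
    congr 1
    rw [Nat.card_eq_fintype_card, Fintype.card_subtype]
    congr 1
    ext x
    simp only [Finset.mem_filter, Finset.mem_univ, true_and, Set.mem_preimage, Set.mem_ofPred_eq]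
    exact mem_iff_fix P u x
  rw [h1, QuotientGroup.card_preimage_mk]
  have h2 : (Nat.card P : ℂ) ≠ 0 := by exact_mod_cast Nat.card_pos.ne'
  unfold fx
  push_cast
  field_simp

theorem fx_modEq {ℓ : ℕ} [Fact ℓ.Prime] (P : Subgroup C) {u : C} (hu : El ℓ u) :
    P.index ≡ fx P u [MOD ℓ] := by
  obtain ⟨n, hn⟩ := hu
  have hz : IsPGroup ℓ (Subgroup.zpowers u) := by
    rw [IsPGroup.iff_card] at *
    have h1 : orderOf u ∣ ℓ ^ n := orderOf_dvd_of_pow_eq_one hn
    obtain ⟨k, _, hk⟩ := (Nat.dvd_prime_pow (Fact.out : ℓ.Prime)).1 h1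
    exact ⟨k, by rw [Nat.card_zpowers, hk]⟩
  have h2 := hz.card_modEq_card_fixedPoints (C ⧸ P)
  have h3 : Nat.card (MulAction.fixedPoints (Subgroup.zpowers u) (C ⧸ P)) = fx P u := by
    unfold fx
    congr 1
    have h4 : (MulAction.fixedPoints (Subgroup.zpowers u) (C ⧸ P)) =
        {q : C ⧸ P | u • q = q} := by
      ext q
      constructor
      · intro h
        exact h ⟨u, Subgroup.mem_zpowers u⟩
      · intro h g
        obtain ⟨g, k, rfl⟩ := g
        have h5 : u ∈ MulAction.stabilizer C q := h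
        exact Subgroup.zpow_mem _ h5 k
    rw [h4]
  rw [h3] at h2
  exact h2

theorem fx_conj (P : Subgroup C) (x u : C) : (fx P (x * u * x⁻¹) : ℂ) = fx P u := by
  rw [← indt_eq, ← indt_eq]
  exact K9.H25.zi_cl (indt_zi P) _ _

end perm

theorem inv_mem_RM {M : Ideal (integralClosure ℤ ℂ)} [M.IsMaximal] {ℓ : ℕ} (hℓ : ℓ.Prime)
    (hM : (ℓ : integralClosure ℤ ℂ) ∈ M) {n : ℕ} (hn : ¬ ℓ ∣ n) : ((n : ℂ))⁻¹ ∈ RM M := by
  have h1 : rr M ((n : ℤ) : ℂ) ≠ 0 := by
    intro h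
    exact hn (by exact_mod_cast (dvd_of_rr hℓ hM).1 h)
  have h2 := (inv_RM (rr_int (M := M) (n : ℤ)).1 h1).1
  simpa using h2

theorem pow_mem_ZI {C : Type} [Group C] [Finite C] {f : C → ℂ} (hf : f ∈ ZI C) (n : ℕ) :
    (fun x => f x ^ n) ∈ ZI C := by
  induction n with
  | zero =>
    simp only [pow_zero]
    exact AddSubgroup.subset_closure T5.H81.one_irr
  | succ n ih =>
    simp only [pow_succ]
    exact T5.H32.mul_mem_ZI ih hf

/-- FRG -/
theorem frg : FrgStmt := by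
  intro ℓ hℓ M hMm hM C _ _ P h hcl hR hκ
  classical
  have := Fintype.ofFinite C
  have := Fintype.ofFinite (P : Subgroup C)
  have hp : ℓ.Prime := Fact.out
  -- the index is prime to `ℓ`
  have hidx : ¬ ℓ ∣ (P : Subgroup C).index := P.not_dvd_index
  have hPC : Nat.card (P : Subgroup C) * (P : Subgroup C).index = Nat.card C :=
    (P : Subgroup C).card_mul_index
  obtain ⟨A, hA⟩ := IsPGroup.iff_card.1 P.isPGroup'
  set m : ℕ := Nat.totient (ℓ ^ A) with hm
  have hmpos : 0 < m := Nat.totient_pos.2 (pow_pos hp.pos A)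
  set f : C → ℕ := fx (P : Subgroup C) with hf
  -- Euler
  have heul : ∀ u : C, El ℓ u → ∃ k : ℤ, (f u : ℂ) ^ m = 1 + (Nat.card (P : Subgroup C) : ℂ) * k := by
    intro u hu
    have h1 : ¬ ℓ ∣ f u := by
      intro h2
      exact hidx ((Nat.ModEq.dvd_iff (fx_modEq (P : Subgroup C) hu) dvd_rfl).2 h2)
    have h3 : Nat.Coprime (f u) (ℓ ^ A) :=
      Nat.Coprime.pow_right _ ((Nat.Prime.coprime_iff_not_dvd hp).2 h1).symm
    have h4 := Nat.ModEq.pow_totient h3
    have h5 : ((ℓ ^ A : ℕ) : ℤ) ∣ ((f u ^ m : ℕ) : ℤ) - (1 : ℕ) :=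
      (Nat.modEq_iff_dvd.1 h4.symm)
    obtain ⟨k, hk⟩ := h5
    refine ⟨k, ?_⟩
    have h6 : ((f u ^ m : ℕ) : ℤ) = 1 + (ℓ ^ A : ℕ) * k := by
      push_cast at hk ⊢
      linarith
    have h7 : (((f u ^ m : ℕ) : ℤ) : ℂ) = ((1 + (ℓ ^ A : ℕ) * k : ℤ) : ℂ) := by rw [h6]
    rw [hA]
    push_cast at h7 ⊢
    exact h7
  -- zero away from the `ℓ`-elements
  have hzero : ∀ u : C, ¬ El ℓ u → (f u : ℂ) = 0 := by
    intro u hu
    rw [hf, ← indt_eq]
    exact indt_zero P.isPGroup' hu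
  have hC0 : (Nat.card C : ℂ) ≠ 0 := by exact_mod_cast Nat.card_pos.ne'
  have hP0 : (Nat.card (P : Subgroup C) : ℂ) ≠ 0 := by exact_mod_cast Nat.card_pos.ne'
  -- part (i)
  have hi : (Nat.card C : ℂ)⁻¹ * ∑ u : C, h u * (f u : ℂ) ^ m =
      (Nat.card (P : Subgroup C) : ℂ)⁻¹ *
        ∑ᶠ u : (P : Subgroup C), h (u : C) * (f (u : C) : ℂ) ^ (m - 1) := by
    have e1 : ∀ u : C, h u * (f u : ℂ) ^ m = (Nat.card (P : Subgroup C) : ℂ)⁻¹ *
        ∑ x : C, (if x⁻¹ * u * x ∈ (P : Subgroup C) then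
          h (x⁻¹ * u * x) * (f (x⁻¹ * u * x) : ℂ) ^ (m - 1) else 0) := by
      intro u
      have e2 : (f u : ℂ) ^ m = (f u : ℂ) ^ (m - 1) * indt (P : Subgroup C) u := by
        rw [indt_eq, ← pow_succ, Nat.sub_add_cancel hmpos]
      rw [e2]
      unfold indt
      rw [finsum_eq_sum_of_fintype]
      have e3 : ∀ x : C, (if x⁻¹ * u * x ∈ (P : Subgroup C) then
          h (x⁻¹ * u * x) * (f (x⁻¹ * u * x) : ℂ) ^ (m - 1) else 0) =
          h u * (f u : ℂ) ^ (m - 1) * (if x⁻¹ * u * x ∈ (P : Subgroup C) then (1 : ℂ) else 0) := by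
        intro x
        have e4 : h (x⁻¹ * u * x) = h u := by
          have := hcl u x⁻¹
          rwa [inv_inv] at this
        have e5 : (f (x⁻¹ * u * x) : ℂ) = f u := by
          have := fx_conj (P : Subgroup C) x⁻¹ u
          rwa [inv_inv] at this
        rw [e4, e5]
        split_ifs
        · rw [mul_one]
        · rw [mul_zero]
      rw [Finset.sum_congr rfl fun x _ => e3 x, ← Finset.mul_sum]
      ring
    rw [Finset.sum_congr rfl fun u _ => e1 u, ← Finset.mul_sum, Finset.sum_comm]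
    have e6 : ∀ x : C, ∑ u : C, (if x⁻¹ * u * x ∈ (P : Subgroup C) then
          h (x⁻¹ * u * x) * (f (x⁻¹ * u * x) : ℂ) ^ (m - 1) else 0) =
        ∑ᶠ u : (P : Subgroup C), h (u : C) * (f (u : C) : ℂ) ^ (m - 1) := by
      intro x
      have e7 : ∑ u : C, (if x⁻¹ * u * x ∈ (P : Subgroup C) then
          h (x⁻¹ * u * x) * (f (x⁻¹ * u * x) : ℂ) ^ (m - 1) else 0) =
          ∑ v : C, (if v ∈ (P : Subgroup C) then h v * (f v : ℂ) ^ (m - 1) else 0) := by
        refine Fintype.sum_equiv (MulAut.conj x⁻¹).toEquiv _ _ fun u => ?_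
        have e8 : (MulAut.conj x⁻¹).toEquiv u = x⁻¹ * u * x := by
          simp
        rw [e8]
      rw [e7, finsum_eq_sum_of_fintype, ← Finset.sum_filter]
      exact Finset.sum_subtype _ (by simp) _
    rw [Finset.sum_congr rfl fun x _ => e6 x, Finset.sum_const, Finset.card_univ, nsmul_eq_mul,
      ← Nat.card_eq_fintype_card]
    field_simp
  have hi2 : (Nat.card C : ℂ)⁻¹ * ∑ u : C, h u * (f u : ℂ) ^ m ∈ RM M := by
    rw [hi]
    have h1 := hκ (fun u => indt (P : Subgroup C) u ^ (m - 1))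
      (pow_mem_ZI (indt_zi (P : Subgroup C)) (m - 1))
    simp only [indt_eq] at h1
    exact h1
  -- part (ii)
  have hk : ∀ u : C, ∃ k : ℤ, El ℓ u →
      (f u : ℂ) ^ m = 1 + (Nat.card (P : Subgroup C) : ℂ) * k := by
    intro u
    by_cases hu : El ℓ u
    · obtain ⟨k, hk⟩ := heul u hu
      exact ⟨k, fun _ => hk⟩
    · exact ⟨0, fun h => absurd h hu⟩
  choose k hk using hk
  have e9 : (∑ᶠ (u : C) (_ : El ℓ u), h u) = ∑ u : C, if El ℓ u then h u else 0 := by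
    rw [finsum_eq_sum_of_fintype]
    refine Finset.sum_congr rfl fun u _ => ?_
    by_cases hu : El ℓ u
    · rw [finsum_eq_if, if_pos hu]
    · rw [finsum_eq_if, if_neg hu]
  have e10 : (Nat.card C : ℂ)⁻¹ * (∑ u : C, if El ℓ u then h u else 0) =
      (Nat.card C : ℂ)⁻¹ * (∑ u : C, h u * (f u : ℂ) ^ m) -
        (((P : Subgroup C).index : ℂ))⁻¹ * ∑ u : C, (if El ℓ u then h u * k u else 0) := by
    have e11 : (∑ u : C, if El ℓ u then h u else 0) = (∑ u : C, h u * (f u : ℂ) ^ m) -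
        (Nat.card (P : Subgroup C) : ℂ) * ∑ u : C, (if El ℓ u then h u * k u else 0) := by
      rw [Finset.mul_sum, ← Finset.sum_sub_distrib]
      refine Finset.sum_congr rfl fun u _ => ?_
      by_cases hu : El ℓ u
      · rw [if_pos hu, if_pos hu, hk u hu]
        ring
      · rw [if_neg hu, if_neg hu, hzero u hu, zero_pow hmpos.ne']
        ring
    rw [e11, mul_sub, ← hPC]
    congr 1
    have h1 : ((P : Subgroup C).index : ℂ) ≠ 0 := by
      exact_mod_cast (Subgroup.index_ne_zero_of_finite (H := (P : Subgroup C)))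
    push_cast
    field_simp
  rw [e9, e10]
  refine Subring.sub_mem _ hi2 (Subring.mul_mem _ (inv_mem_RM hp hM hidx)
    (Subring.sum_mem _ fun u _ => ?_))
  split_ifs
  · exact Subring.mul_mem _ (hR u) (intCast_mem (RM M) _)
  · exact Subring.zero_mem _

end Pool.Agent.PP.T10.H79
end
end -- Pool.Agent.Helper79_AT10.FRG

section -- Pool.Agent.Helper86_AT10.LCA

/-!
# Squad AT10, row LCA: averages over a central subgroup
-/

open scoped BigOperators

noncomputable section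

namespace Pool.Agent.PP.T10.H86

open Pool.Agent.Helper51_AWC Pool.Agent.Helper79_WRA Pool.Agent.PP Pool.Agent.PP.KF
open Pool.Agent.PP.K9 Pool.Agent.PP.K9.H97 Pool.Agent.PP.H75 Pool.Agent.PP.T3 Pool.Agent.PP.T2
open Pool.Agent.PP.T8 (rs pw fv rd Ip Rv)

section zi

variable {H : Type} [Group H] [Finite H]

/-- the average of a virtual character is an integer -/
theorem avg_int {f : H → ℂ} (hf : f ∈ ZI H) :
    ∃ n : ℤ, (Nat.card H : ℂ)⁻¹ * ∑ᶠ u : H, f u = n := by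
  have := Fintype.ofFinite H
  simp_rw [finsum_eq_sum_of_fintype]
  refine AddSubgroup.closure_induction
    (p := fun f _ => ∃ n : ℤ, (Nat.card H : ℂ)⁻¹ * ∑ u : H, f u = n)
    (fun χ hχ => ?_) ?_ (fun a b _ _ ha hb => ?_) (fun a _ ha => ?_) hf
  · obtain ⟨n, σ, -, rfl⟩ := hχ
    refine ⟨(Module.finrank ℂ σ.invariants : ℤ), ?_⟩
    have h1 := Representation.card_inv_mul_sum_char_eq_finrank σ
    rw [Int.cast_natCast]
    exact h1
  · exact ⟨0, by simp⟩
  · obtain ⟨n, hn⟩ := ha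
    obtain ⟨m, hm⟩ := hb
    refine ⟨n + m, ?_⟩
    simp only [Pi.add_apply, Finset.sum_add_distrib, mul_add]
    rw [hn, hm]
    push_cast
    ring
  · obtain ⟨n, hn⟩ := ha
    refine ⟨-n, ?_⟩
    simp only [Pi.neg_apply, Finset.sum_neg_distrib, mul_neg]
    rw [hn]
    push_cast
    ring

/-- a linear character is a virtual character -/
theorem lin_mem (lam : H →* ℂ) : (fun u => lam u) ∈ ZI H := by
  let ρ : Representation ℂ H ℂ :=
    { toFun := fun u => lam u • LinearMap.id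
      map_one' := by rw [map_one, one_smul]; rfl
      map_mul' := by
        intro x y
        ext
        simp [mul_comm] }
  have h1 := T5.H32.char_mem_ZI ρ
  have h2 : ρ.character = fun u => lam u := by
    funext u
    change LinearMap.trace ℂ ℂ (lam u • LinearMap.id) = lam u
    rw [map_smul, LinearMap.trace_id, Module.finrank_self]
    simp
  rw [h2] at h1
  exact h1

/-- restriction -/
theorem res_mem {K : Type} [Group K] [Finite K] (φ : K →* H) {f : H → ℂ} (hf : f ∈ ZI H) :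
    (fun u => f (φ u)) ∈ ZI K := by
  refine AddSubgroup.closure_induction (p := fun f _ => (fun u => f (φ u)) ∈ ZI K)
    (fun χ hχ => ?_) ?_ (fun a b _ _ ha hb => ?_) (fun a _ ha => ?_) hf
  · obtain ⟨n, σ, -, rfl⟩ := hχ
    have h1 := T5.H32.char_mem_ZI (σ.comp φ)
    exact h1
  · exact AddSubgroup.zero_mem _
  · exact AddSubgroup.add_mem _ ha hb
  · exact AddSubgroup.neg_mem _ ha

end zi

theorem lca (hFCZ : FczStmt) (hZIM : T5.ZimStmt) : LcaStmt := by
  intro M _ G _ _ P P₀ hP i hi χ hχ lam κ hκ k hk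
  have hi₀ : Ip M P₀ i := ⟨hi.rm, hi.id, fun v hv x => hi.iv v (hP hv) x⟩
  have h1 := hFCZ M G P₀ i hi₀ χ hχ
  have hkk : ∀ u, k u = Subgroup.inclusion hP u := fun u => Subtype.ext (hk u)
  have h2 := res_mem (Subgroup.inclusion hP) hκ
  have h3 := (hZIM P₀ _ (lin_mem lam) _ h1).1
  have h4 := (hZIM P₀ _ h3 _ h2).1
  obtain ⟨n, hn⟩ := avg_int h4
  refine ⟨n, ?_⟩
  rw [← hn]
  congr 1
  refine finsum_congr fun u => ?_
  rw [hkk]

end Pool.Agent.PP.T10.H86
end
end -- Pool.Agent.Helper86_AT10.LCA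

section -- Pool.Agent.Helper24_ASO.HRAT

/-!
# Squad ASO, row HRAT: the sum over a line is rational
-/

open scoped BigOperators

noncomputable section

namespace Pool.Agent.PP.SO.H24

open Pool.Agent.Helper51_AWC Pool.Agent.Helper79_WRA Pool.Agent.PP Pool.Agent.PP.KF
open Pool.Agent.PP.K9 Pool.Agent.PP.K9.H97 Pool.Agent.PP.H75 Pool.Agent.PP.T3

attribute [local instance] Ideal.Quotient.field

/-- the value at the powers of a central element as a sum of roots of unity -/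
theorem gv_sum (M : Ideal (integralClosure ℤ ℂ)) [M.IsMaximal] {G : Type} [Group G] [Finite G]
    {u : G} {q : ℕ} (hq : 0 < q) (hu : u ^ q = 1) (b : G → FF M) {ζ : ℂ}
    (hζ : IsPrimitiveRoot ζ q) {χ : G → ℂ} (hχ : χ ∈ Irr G) :
    ∃ m : ℕ → ℤ, ∀ j : ℕ, gv M (Cu u) (u ^ j) b χ =
      ∑ i ∈ Finset.range q, (m i : ℂ) * ζ ^ (i * j) := by
  classical
  have := Fintype.ofFinite G
  have := Fintype.ofFinite (Cu u)
  obtain ⟨b', hb'⟩ : ∃ b' : Cu u → FF M, b' = fun t : Cu u => b t := ⟨_, rfl⟩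
  have hS : (IrrE M b').Finite := irr_finite'.subset (fun θ h => h.1)
  obtain ⟨uC, huC⟩ : ∃ uC : Cu u, (uC : G) = u :=
    ⟨⟨u, Subgroup.mem_centralizer_singleton_iff.2 rfl⟩, rfl⟩
  have hz : ∀ c : Cu u, uC * c = c * uC := by
    intro c
    apply Subtype.ext
    show (uC : G) * c = c * uC
    rw [huC]
    exact (Subgroup.mem_centralizer_singleton_iff.1 c.2).symm
  have hzq : uC ^ q = 1 := by
    apply Subtype.ext
    rw [Subgroup.coe_pow, huC, hu, Subgroup.coe_one]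
  have h1 : ∀ θ ∈ hS.toFinset, ∃ i : ℕ, i < q ∧
      ∀ (j : ℕ) (c : Cu u), θ (uC ^ j * c) = (ζ ^ i) ^ j * θ c := by
    intro θ hθ
    have hθ' : θ ∈ Irr (Cu u) := (hS.mem_toFinset.1 hθ).1
    obtain ⟨k, hk, hkj⟩ := T3.H63.cent_root hθ' hz hzq
    have : NeZero q := ⟨hq.ne'⟩
    obtain ⟨i, hi, rfl⟩ := hζ.eq_pow_of_pow_eq_one hk
    exact ⟨i, hi, hkj⟩
  have h2 : ∀ θ ∈ hS.toFinset, ∃ m : ℤ,
      (Nat.card (Cu u) : ℂ)⁻¹ * ∑ c : Cu u, χ c * θ c⁻¹ = m := by
    intro θ hθ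
    exact KF.H30.mult_int (Cu u) hχ (hS.mem_toFinset.1 hθ).1
  have h3 : ∀ θ ∈ hS.toFinset, ∃ d : ℕ, θ 1 = d := fun θ hθ => by
    obtain ⟨d, -, hd⟩ := irr_one (hS.mem_toFinset.1 hθ).1
    exact ⟨d, hd⟩
  choose! ix hix hix2 using h1
  choose! mu hmu using h2
  choose! dg hdg using h3
  refine ⟨fun i => ∑ θ ∈ hS.toFinset.filter (fun θ => ix θ = i), (dg θ : ℤ) * mu θ, ?_⟩
  intro j
  have e1 : gv M (Cu u) (u ^ j) b χ = ∑ c : Cu u, eh M b' c * χ (u ^ j * c) := by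
    rw [gv, gbv, finsum_eq_sum_of_fintype, hb']
  have e2 : ∀ c : Cu u, eh M b' c =
      (Nat.card (Cu u) : ℂ)⁻¹ * ∑ θ ∈ hS.toFinset, (dg θ : ℂ) * θ c⁻¹ := by
    intro c
    rw [eh, finsum_mem_eq_finite_toFinset_sum _ hS]
    congr 1
    exact Finset.sum_congr rfl fun θ hθ => by rw [hdg θ hθ]
  have e3 : ∀ θ ∈ hS.toFinset, (Nat.card (Cu u) : ℂ)⁻¹ * ∑ c : Cu u, θ c⁻¹ * χ (u ^ j * c) =
      mu θ * ζ ^ (ix θ * j) := by
    intro θ hθ
    rw [← hmu θ hθ, ← Equiv.sum_comp (Equiv.mulLeft (uC ^ j))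
      (fun c : Cu u => χ c * θ c⁻¹), mul_assoc, Finset.sum_mul]
    refine congrArg ((Nat.card (Cu u) : ℂ)⁻¹ * ·) (Finset.sum_congr rfl fun c _ => ?_)
    show θ c⁻¹ * χ (u ^ j * c) = χ ((uC ^ j * c : Cu u) : G) * θ (uC ^ j * c)⁻¹ * ζ ^ (ix θ * j)
    have a1 : ((uC ^ j * c : Cu u) : G) = u ^ j * c := by
      rw [Subgroup.coe_mul, Subgroup.coe_pow, huC]
    have hcomm : ∀ (c : Cu u), uC ^ j * c = c * uC ^ j := fun c =>
      (Commute.pow_left (hz c) j)
    have a2 : θ c⁻¹ = (ζ ^ (ix θ)) ^ j * θ (uC ^ j * c)⁻¹ := by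
      rw [← hix2 θ hθ, mul_inv_rev, ← mul_assoc, hcomm c⁻¹, mul_assoc, mul_inv_cancel, mul_one]
    rw [a1, a2, pow_mul]
    ring
  rw [e1]
  simp only [e2]
  have e4 : ∑ c : Cu u, (Nat.card (Cu u) : ℂ)⁻¹ * (∑ θ ∈ hS.toFinset, (dg θ : ℂ) * θ c⁻¹) *
      χ (u ^ j * c) = ∑ θ ∈ hS.toFinset, (dg θ : ℂ) * ((Nat.card (Cu u) : ℂ)⁻¹ *
        ∑ c : Cu u, θ c⁻¹ * χ (u ^ j * c)) := by
    simp_rw [Finset.mul_sum, Finset.sum_mul]
    rw [Finset.sum_comm]
    refine Finset.sum_congr rfl fun θ _ => Finset.sum_congr rfl fun c _ => ?_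
    ring
  rw [e4, Finset.sum_congr rfl fun θ hθ => by rw [e3 θ hθ]]
  rw [← Finset.sum_fiberwise_of_maps_to (s := hS.toFinset) (t := Finset.range q) (g := ix)
    (fun θ hθ => Finset.mem_range.2 (hix θ hθ))]
  refine Finset.sum_congr rfl fun i _ => ?_
  rw [Int.cast_sum, Finset.sum_mul]
  refine Finset.sum_congr rfl fun θ hθ => ?_
  rw [(Finset.mem_filter.1 hθ).2]
  push_cast
  ring

/-- splitting off the term of index zero -/
theorem range_split {ℓ : ℕ} (h : 0 < ℓ) (f : ℕ → ℂ) :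
    ∑ t ∈ Finset.range ℓ, f t = f 0 + ∑ t ∈ Finset.Icc 1 (ℓ - 1), f t := by
  rw [Finset.range_eq_Ico, Finset.sum_eq_sum_Ico_succ_bot h]
  have : Finset.Ico (0 + 1) ℓ = Finset.Icc 1 (ℓ - 1) := by
    ext x
    rw [Finset.mem_Ico, Finset.mem_Icc]
    omega
  rw [this]

/-- the sum of the nontrivial powers -/
theorem pow_sum {ℓ : ℕ} (hℓ : 0 < ℓ) {ζ : ℂ} (hζ : IsPrimitiveRoot ζ ℓ) {i : ℕ}
    (hi : i < ℓ) :
    ∑ t ∈ Finset.Icc 1 (ℓ - 1), ζ ^ (i * t) = if i = 0 then (ℓ : ℂ) - 1 else -1 := by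
  have h := range_split hℓ (fun t => ζ ^ (i * t))
  by_cases h0 : i = 0
  · subst h0
    simp only [zero_mul, pow_zero, Finset.sum_const, Finset.card_range, nsmul_eq_mul,
      mul_one] at h
    rw [if_pos rfl]
    simp only [zero_mul, pow_zero, Finset.sum_const, nsmul_eq_mul, mul_one]
    linear_combination -h
  · rw [if_neg h0]
    have h1 : ζ ^ i ≠ 1 := hζ.pow_ne_one_of_pos_of_lt h0 hi
    have h2 : ∑ t ∈ Finset.range ℓ, ζ ^ (i * t) = 0 := by
      have h3 := geom_sum_mul (ζ ^ i) ℓ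
      rw [← pow_mul, mul_comm i ℓ, pow_mul, hζ.pow_eq_one, one_pow, sub_self] at h3
      have h4 := (mul_eq_zero.1 h3).resolve_right (sub_ne_zero.2 h1)
      rw [← h4]
      exact Finset.sum_congr rfl fun t _ => pow_mul _ _ _
    simp only [h2, mul_zero, pow_zero] at h
    linear_combination -h

/-- a rational number of residue zero -/
theorem rat_res {ℓ : ℕ} [hℓ : Fact ℓ.Prime] {M : Ideal (integralClosure ℤ ℂ)} [M.IsMaximal]
    (hM : (ℓ : integralClosure ℤ ℂ) ∈ M) {r : ℚ} (hr : (r : ℂ) ∈ RM M) (h0 : rr M (r : ℂ) = 0) :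
    ∃ q ∈ SOR.Rl ℓ, r = ℓ * q := by
  have hp : ℓ.Prime := hℓ.out
  have h1 : ((r.num : ℤ) : ℂ) = ((r.den : ℤ) : ℂ) * (r : ℂ) := by
    have : (r.num : ℚ) = (r.den : ℚ) * r := by
      rw [mul_comm]
      exact (Rat.mul_den_eq_num r).symm
    have h2 := congrArg (fun x : ℚ => (x : ℂ)) this
    push_cast at h2
    push_cast
    exact h2
  have h2 : rr M ((r.num : ℤ) : ℂ) = 0 := by
    rw [h1, rr_mul (rr_int _).1 hr, h0, mul_zero]
  have h3 : (ℓ : ℤ) ∣ r.num := (dvd_of_rr hp hM).1 h2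
  have h4 : ¬ ℓ ∣ r.den := by
    intro h
    have h5 : ℓ ∣ r.num.natAbs := Int.natCast_dvd.1 h3
    have h6 := Nat.dvd_gcd h5 h
    rw [r.reduced] at h6
    exact hp.one_lt.ne' (Nat.dvd_one.1 h6)
  obtain ⟨k, hk⟩ := h3
  have hd : (r.den : ℚ) ≠ 0 := by exact_mod_cast r.den_nz
  refine ⟨(k : ℚ) / r.den, SOR.H3.rl_of_mul ℓ h4 (a := k) (div_mul_cancel₀ _ hd), ?_⟩
  have h5 : (r.num : ℚ) = ℓ * k := by rw [hk]; push_cast; ring
  rw [← mul_div_assoc, ← h5, eq_div_iff hd]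
  exact Rat.mul_den_eq_num r

section line

variable {V₀ : Type} [CommGroup V₀]

theorem pow_back {ℓ : ℕ} (hℓ : ℓ.Prime) {c : V₀} (hc : c ^ ℓ = 1) {t : ℕ}
    (ht : t ∈ Finset.Icc 1 (ℓ - 1)) : ∃ m : ℕ, (c ^ t) ^ m = c := by
  have h1 := Finset.mem_Icc.1 ht
  have h2 : Nat.Coprime t (orderOf c) := by
    have h3 : Nat.Coprime t ℓ := Nat.Coprime.symm (hℓ.coprime_iff_not_dvd.2 fun h =>
      absurd (Nat.le_of_dvd (by omega) h) (by omega))
    exact h3.coprime_dvd_right (orderOf_dvd_of_pow_eq_one hc)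
  exact exists_pow_eq_self_of_coprime h2

theorem zpowers_line {ℓ : ℕ} (hℓ : ℓ.Prime) {c : V₀} (hc : c ^ ℓ = 1) {t : ℕ}
    (ht : t ∈ Finset.Icc 1 (ℓ - 1)) : Subgroup.zpowers (c ^ t) = Subgroup.zpowers c := by
  obtain ⟨m, hm⟩ := pow_back hℓ hc ht
  refine le_antisymm ?_ ?_
  · rw [Subgroup.zpowers_le]
    exact Subgroup.pow_mem _ (Subgroup.mem_zpowers c) t
  · rw [Subgroup.zpowers_le]
    have := Subgroup.pow_mem _ (Subgroup.mem_zpowers (c ^ t)) m
    rwa [hm] at this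

theorem Es_line {ℓ : ℕ} (hℓ : ℓ.Prime) (E₀ : Subgroup (MulAut V₀)) {c : V₀} (hc : c ^ ℓ = 1)
    {t : ℕ} (ht : t ∈ Finset.Icc 1 (ℓ - 1)) : Es E₀ (c ^ t) = Es E₀ c := by
  obtain ⟨m, hm⟩ := pow_back hℓ hc ht
  ext σ
  constructor
  · rintro ⟨h1, h2⟩
    refine ⟨h1, ?_⟩
    calc σ c = σ ((c ^ t) ^ m) := by rw [hm]
      _ = (σ (c ^ t)) ^ m := map_pow _ _ _
      _ = c := by rw [h2, hm]
  · rintro ⟨h1, h2⟩
    refine ⟨h1, ?_⟩
    rw [map_pow, h2]

theorem nE_line {ℓ : ℕ} (hℓ : ℓ.Prime) (E₀ : Subgroup (MulAut V₀)) {c : V₀} (hc : c ^ ℓ = 1)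
    {t : ℕ} (ht : t ∈ Finset.Icc 1 (ℓ - 1)) : nE E₀ (c ^ t) = nE E₀ c := by
  unfold nE
  rw [Es_line hℓ E₀ hc ht]

end line

theorem hrat (hlnk : HLnkStmt) (_hixe : HIxeStmt) (homr : HOmrStmt) : HRatStmt := by
  intro ℓ hℓ M hMm hM V₀ _ _ hV E₀ G _ _ B hB c _ χ hχ
  have hp : ℓ.Prime := hℓ.out
  have hc : c ^ ℓ = 1 := hV c
  obtain ⟨n, hn0, hn⟩ := irr_one hχ.1
  have hu : (B.i c) ^ ℓ = 1 := by rw [← map_pow, hc, map_one]
  obtain ⟨m, hm⟩ := gv_sum M hp.pos hu (B.b (Subgroup.zpowers c))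
    (Complex.isPrimitiveRoot_exp ℓ hp.ne_zero) hχ.1
  set ζ : ℂ := Complex.exp (2 * Real.pi * Complex.I / ℓ) with hζ
  have hζp : IsPrimitiveRoot ζ ℓ := Complex.isPrimitiveRoot_exp ℓ hp.ne_zero
  -- the terms
  have h1 : ∀ t ∈ Finset.Icc 1 (ℓ - 1), cv (fc B ⊥ (c ^ t)) χ =
      ((Nat.card G : ℂ) / (Nat.card (B.C (Subgroup.zpowers c)) * n)) *
        ∑ i ∈ Finset.range ℓ, (m i : ℂ) * ζ ^ (i * t) := by
    intro t ht
    obtain ⟨a1, -, a3⟩ := hlnk ℓ M hM V₀ E₀ G B hB (c ^ t)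
    obtain ⟨b1, -, -⟩ := hlnk ℓ M hM V₀ E₀ G B hB c
    rw [a3 χ hχ.1, a1, zpowers_line hp hc ht, ← b1, map_pow, hm t, hn, b1]
    ring
  -- the sum is rational
  have h2 : ∑ t ∈ Finset.Icc 1 (ℓ - 1), cv (fc B ⊥ (c ^ t)) χ =
      (((Nat.card G : ℚ) / (Nat.card (B.C (Subgroup.zpowers c)) * n) *
        ((ℓ * m 0 - ∑ i ∈ Finset.range ℓ, m i : ℤ) : ℚ) : ℚ) : ℂ) := by
    rw [Finset.sum_congr rfl h1, ← Finset.mul_sum, Finset.sum_comm]
    have h3 : ∑ i ∈ Finset.range ℓ, ∑ t ∈ Finset.Icc 1 (ℓ - 1), (m i : ℂ) * ζ ^ (i * t) =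
        (ℓ : ℂ) * m 0 - ∑ i ∈ Finset.range ℓ, (m i : ℂ) := by
      have h4 : ∀ i ∈ Finset.range ℓ, ∑ t ∈ Finset.Icc 1 (ℓ - 1), (m i : ℂ) * ζ ^ (i * t) =
          (if i = 0 then (ℓ : ℂ) * m i else 0) - m i := by
        intro i hi
        rw [← Finset.mul_sum, pow_sum hp.pos hζp (Finset.mem_range.1 hi)]
        split_ifs with h0
        · ring
        · ring
      rw [Finset.sum_congr rfl h4, Finset.sum_sub_distrib, Finset.sum_ite_eq' (Finset.range ℓ) 0,
        if_pos (Finset.mem_range.2 hp.pos)]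
    rw [h3]
    push_cast
    ring
  obtain ⟨r, hr⟩ : ∃ r : ℚ, ∑ t ∈ Finset.Icc 1 (ℓ - 1), cv (fc B ⊥ (c ^ t)) χ = (r : ℂ) :=
    ⟨_, h2⟩
  -- the residue
  have h5 : ∀ t ∈ Finset.Icc 1 (ℓ - 1), cv (fc B ⊥ (c ^ t)) χ ∈ RM M := fun t _ =>
    (homr ℓ M hM V₀ E₀ G B hB (c ^ t) χ hχ).1
  have h6 : ∀ t ∈ Finset.Icc 1 (ℓ - 1), rr M (cv (fc B ⊥ (c ^ t)) χ) =
      ((nE E₀ c : ℕ) : FF M) := fun t ht => by
    rw [(homr ℓ M hM V₀ E₀ G B hB (c ^ t) χ hχ).2, nE_line hp E₀ hc ht]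
  have hℓ0 : (ℓ : FF M) = 0 := by
    have := Ideal.Quotient.eq_zero_iff_mem.2 hM
    rwa [map_natCast] at this
  have h7 : (r : ℂ) ∈ RM M := by rw [← hr]; exact Subring.sum_mem _ h5
  have h8 : rr M (r : ℂ) = -((nE E₀ c : ℕ) : FF M) := by
    rw [← hr, rr_sum _ _ h5, Finset.sum_congr rfl h6, Finset.sum_const, Nat.card_Icc,
      nsmul_eq_mul]
    have : ((ℓ - 1 + 1 - 1 : ℕ) : FF M) = -1 := by
      rw [show ℓ - 1 + 1 - 1 = ℓ - 1 by omega, Nat.cast_sub hp.one_lt.le, hℓ0]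
      simp
    rw [this]
    ring
  have h9 : ((r + nE E₀ c : ℚ) : ℂ) ∈ RM M := by
    push_cast
    exact Subring.add_mem _ h7 (rr_nat _).1
  have h10 : rr M ((r + nE E₀ c : ℚ) : ℂ) = 0 := by
    push_cast
    rw [rr_add h7 (rr_nat _).1, h8, (rr_nat _).2, neg_add_cancel]
  obtain ⟨q, hq, hqe⟩ := rat_res hM h9 h10
  refine ⟨q, hq, ?_⟩
  rw [hr, ← hqe]
  congr 1
  ring

end Pool.Agent.PP.SO.H24
end
end -- Pool.Agent.Helper24_ASO.HRAT

section -- Pool.Agent.Helper34_ASO.HFRO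

/-!
# Squad ASO, row HFRO: the theorem of Frobenius for characters
-/

open scoped BigOperators

set_option autoImplicit false

noncomputable section

namespace Pool.Agent.PP.SO.H34

open Pool.Agent.Helper51_AWC Pool.Agent.Helper79_WRA Pool.Agent.PP Pool.Agent.PP.KF
open Pool.Agent.PP.K9 Pool.Agent.PP.K9.H97 Pool.Agent.PP.H75 Pool.Agent.PP.T3

attribute [local instance] Ideal.Quotient.field

theorem hfro : HFroStmt := by
  intro ℓ hℓ M hMm hM G _ _ χ hχ
  have P : Sylow ℓ G := default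
  have hZ : χ ∈ ZI G := AddSubgroup.subset_closure hχ
  obtain ⟨m, hm⟩ : ∃ m, Nat.card G = lpG ℓ G * m := Nat.ordProj_dvd _ _
  have hl0 : (lpG ℓ G : ℂ) ≠ 0 := by
    have h1 : lpG ℓ G ≠ 0 := pow_ne_zero _ (Fact.out : ℓ.Prime).ne_zero
    exact_mod_cast h1
  have hG0 : (Nat.card G : ℂ) ≠ 0 := by exact_mod_cast Nat.card_pos.ne'
  have hmR : (m : ℂ) ∈ RM M := by
    have := (rr_int (M := M) (m : ℤ)).1
    rwa [Int.cast_natCast] at this
  have h1 := T10.H79.frg ℓ M hM G P (fun x => (m : ℂ) * χ x)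
    (fun x y => by simp only [irr_conj hχ])
    (fun x => (RM M).mul_mem hmR (RM_of_int (irr_integral hχ x)))
    (fun κ hκ => by
      have h2 : (fun u : (P : Subgroup G) => χ (u : G) * κ (u : G)) ∈ ZI (P : Subgroup G) :=
        T5.H32.mul_mem_ZI (T10.H86.res_mem (P : Subgroup G).subtype hZ)
          (T10.H86.res_mem (P : Subgroup G).subtype hκ)
      obtain ⟨n, hn⟩ := T10.H86.avg_int h2
      have h4 : ∑ᶠ u : (P : Subgroup G), (m : ℂ) * χ (u : G) * κ (u : G) =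
          (m : ℂ) * ∑ᶠ u : (P : Subgroup G), χ (u : G) * κ (u : G) := by
        rw [mul_finsum' _ _ (Set.toFinite _)]
        exact finsum_congr fun u => mul_assoc _ _ _
      have h3 : (Nat.card (P : Subgroup G) : ℂ)⁻¹ *
          ∑ᶠ u : (P : Subgroup G), (m : ℂ) * χ (u : G) * κ (u : G) = (m : ℂ) * n := by
        rw [h4, ← hn]
        ring
      have h5 : (Nat.card (P : Subgroup G) : ℂ)⁻¹ *
          ∑ᶠ u : (P : Subgroup G), (m : ℂ) * χ (u : G) * κ (u : G) ∈ RM M := by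
        rw [h3]
        exact (RM M).mul_mem hmR (rr_int n).1
      exact h5)
  have h2 : ∑ᶠ (u : G) (_ : El ℓ u), (m : ℂ) * χ u = (m : ℂ) * ∑ᶠ (u : G) (_ : El ℓ u), χ u := by
    rw [mul_finsum' _ _ (Set.toFinite _)]
    refine finsum_congr fun u => ?_
    classical
    rw [finsum_eq_if, finsum_eq_if]
    split_ifs
    · rfl
    · rw [mul_zero]
  rw [h2] at h1
  have h3 : (Nat.card G : ℂ) = (lpG ℓ G : ℂ) * (m : ℂ) := by exact_mod_cast hm
  have hm0 : (m : ℂ) ≠ 0 := by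
    intro h
    rw [h, mul_zero] at h3
    exact hG0 h3
  have h4 : (Nat.card G : ℂ)⁻¹ * ((m : ℂ) * ∑ᶠ (u : G) (_ : El ℓ u), χ u) =
      (∑ᶠ (u : G) (_ : El ℓ u), χ u) / (lpG ℓ G : ℂ) := by
    rw [h3]
    field_simp
  rw [h4] at h1
  exact h1

end Pool.Agent.PP.SO.H34
end
end -- Pool.Agent.Helper34_ASO.HFRO

section -- Pool.Agent.Helper92_ASO.HTZ

/-!
# Squad ASO, row HTZ: the heights are zero
-/

open scoped BigOperators

noncomputable section

namespace Pool.Agent.PP.SO.H92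

open Pool.Agent.Helper51_AWC Pool.Agent.Helper79_WRA Pool.Agent.PP Pool.Agent.PP.KF
open Pool.Agent.PP.K9 Pool.Agent.PP.K9.H97 Pool.Agent.PP.H75 Pool.Agent.PP.T3

attribute [local instance] Ideal.Quotient.field

section tools

variable {M : Ideal (integralClosure ℤ ℂ)} [M.IsMaximal]

/-- the residue of an `ℓ`-th root of unity -/
theorem htz_root {ℓ : ℕ} [hℓ : Fact ℓ.Prime] (hM : (ℓ : integralClosure ℤ ℂ) ∈ M) {ζ : ℂ}
    (hζ : ζ ^ ℓ = 1) (k : ℕ) : ζ ^ k ∈ RM M ∧ rr M (ζ ^ k) = 1 := by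
  have hq : ℓ ≠ 0 := hℓ.out.ne_zero
  have hR : ζ ∈ RM M := by
    refine RM_of_int ⟨Polynomial.X ^ ℓ - 1, Polynomial.monic_X_pow_sub_C 1 hq, ?_⟩
    simp [hζ]
  have hch : CharP (FF M) ℓ := (H50.fld ℓ Fact.out M hM).char
  have h0 : rr M ζ = 1 := by
    have h1 : (rr M ζ - 1) ^ ℓ = rr M ζ ^ ℓ - 1 ^ ℓ :=
      sub_pow_char_of_commute _ (Commute.all _ _)
    have h2 : rr M (ζ ^ ℓ) = rr M ζ ^ ℓ := map_pow (rrHom M) ⟨ζ, hR⟩ _
    rw [← h2, hζ, rr_one, one_pow, sub_self] at h1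
    exact sub_eq_zero.1 ((pow_eq_zero_iff hq).1 h1)
  refine ⟨(RM M).pow_mem hR k, ?_⟩
  have h2 : rr M (ζ ^ k) = rr M ζ ^ k := map_pow (rrHom M) ⟨ζ, hR⟩ _
  rw [h2, h0, one_pow]

end tools

/-- the sum of the powers of a power of a root of unity -/
theorem geo {ℓ : ℕ} {ζ : ℂ} (hζ : IsPrimitiveRoot ζ ℓ) (a : ℕ) :
    ∑ j ∈ Finset.range ℓ, ζ ^ (a * j) = if ℓ ∣ a then (ℓ : ℂ) else 0 := by
  by_cases h : ℓ ∣ a
  · rw [if_pos h]
    obtain ⟨b, rfl⟩ := h
    have h1 : ∀ j ∈ Finset.range ℓ, ζ ^ (ℓ * b * j) = 1 := by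
      intro j _
      rw [mul_assoc, pow_mul, hζ.pow_eq_one, one_pow]
    rw [Finset.sum_congr rfl h1, Finset.sum_const, Finset.card_range, nsmul_eq_mul, mul_one]
  · rw [if_neg h]
    have h1 : ζ ^ a ≠ 1 := fun h2 => h (hζ.dvd_of_pow_eq_one a h2)
    have h3 := geom_sum_mul (ζ ^ a) ℓ
    rw [← pow_mul, mul_comm a ℓ, pow_mul, hζ.pow_eq_one, one_pow, sub_self] at h3
    have h4 := (mul_eq_zero.1 h3).resolve_right (sub_ne_zero.2 h1)
    rw [← h4]
    exact Finset.sum_congr rfl fun t _ => pow_mul _ _ _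

/-- if all the numbers `v_j` are divisible by `ℓ` then they are `ℓ` times numbers of the same
kind -/
theorem dft {M : Ideal (integralClosure ℤ ℂ)} [M.IsMaximal] {ℓ : ℕ} [hℓ : Fact ℓ.Prime]
    (hM : (ℓ : integralClosure ℤ ℂ) ∈ M) {ζ : ℂ} (hζ : IsPrimitiveRoot ζ ℓ) (m : ℕ → ℤ)
    (s : ℕ → ℂ) (hs : ∀ j ∈ Finset.Icc 1 (ℓ - 1), s j ∈ RM M)
    (hv : ∀ j ∈ Finset.Icc 1 (ℓ - 1),
      ∑ i ∈ Finset.range ℓ, (m i : ℂ) * ζ ^ (i * j) = ℓ * s j) :
    ∃ n : ℕ → ℤ, ∀ j ∈ Finset.Icc 1 (ℓ - 1), ∑ i ∈ Finset.range ℓ, (m i : ℂ) * ζ ^ (i * j) =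
      ℓ * ∑ i ∈ Finset.range ℓ, (n i : ℂ) * ζ ^ (i * j) := by
  have hp : ℓ.Prime := hℓ.out
  have hℓ0 : (ℓ : ℂ) ≠ 0 := by exact_mod_cast hp.ne_zero
  -- inversion
  have h1 : ∀ k ∈ Finset.range ℓ, ∑ j ∈ Finset.range ℓ,
      (∑ i ∈ Finset.range ℓ, (m i : ℂ) * ζ ^ (i * j)) * ζ ^ ((ℓ - k) * j) = ℓ * m k := by
    intro k hk
    have hk' := Finset.mem_range.1 hk
    have e1 : ∑ j ∈ Finset.range ℓ,
        (∑ i ∈ Finset.range ℓ, (m i : ℂ) * ζ ^ (i * j)) * ζ ^ ((ℓ - k) * j) =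
        ∑ i ∈ Finset.range ℓ, (m i : ℂ) * ∑ j ∈ Finset.range ℓ, ζ ^ ((i + (ℓ - k)) * j) := by
      simp_rw [Finset.sum_mul, Finset.mul_sum]
      rw [Finset.sum_comm]
      refine Finset.sum_congr rfl fun i _ => Finset.sum_congr rfl fun j _ => ?_
      rw [add_mul, pow_add]
      ring
    rw [e1, Finset.sum_eq_single k]
    · rw [geo hζ, if_pos ⟨1, by omega⟩, mul_comm]
    · intro i hi hik
      have hi' := Finset.mem_range.1 hi
      rw [geo hζ, if_neg, mul_zero]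
      rintro ⟨a, ha⟩
      rcases Nat.lt_or_ge a 1 with h | h
      · have : a = 0 := by omega
        rw [this, mul_zero] at ha
        omega
      · rcases Nat.lt_or_ge a 2 with h' | h'
        · have : a = 1 := by omega
          rw [this, mul_one] at ha
          omega
        · have : ℓ * 2 ≤ ℓ * a := Nat.mul_le_mul_left ℓ h'
          omega
    · intro h
      exact absurd hk h
  -- differences
  have h2 : ∀ k ∈ Finset.range ℓ, ((m k : ℂ) - m 0) =
      ∑ j ∈ Finset.Icc 1 (ℓ - 1), s j * (ζ ^ ((ℓ - k) * j) - ζ ^ ((ℓ - 0) * j)) := by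
    intro k hk
    apply mul_left_cancel₀ hℓ0
    rw [mul_sub, ← h1 k hk, ← h1 0 (Finset.mem_range.2 hp.pos), ← Finset.sum_sub_distrib,
      H24.range_split hp.pos, Finset.mul_sum]
    simp only [mul_zero, pow_zero, mul_one, sub_self, zero_add]
    refine Finset.sum_congr rfl fun j hj => ?_
    rw [hv j hj]
    ring
  have h3 : ∀ k ∈ Finset.range ℓ, (ℓ : ℤ) ∣ m k - m 0 := by
    intro k hk
    rw [← dvd_of_rr (M := M) hp hM]
    push_cast
    rw [h2 k hk]
    have a1 : ∀ j ∈ Finset.Icc 1 (ℓ - 1),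
        s j * (ζ ^ ((ℓ - k) * j) - ζ ^ ((ℓ - 0) * j)) ∈ RM M := fun j hj =>
      (RM M).mul_mem (hs j hj) ((RM M).sub_mem (htz_root hM hζ.pow_eq_one _).1
        (htz_root hM hζ.pow_eq_one _).1)
    rw [rr_sum _ _ a1]
    refine Finset.sum_eq_zero fun j hj => ?_
    rw [rr_mul (hs j hj) ((RM M).sub_mem (htz_root hM hζ.pow_eq_one _).1
        (htz_root hM hζ.pow_eq_one _).1), rr_sub (htz_root hM hζ.pow_eq_one _).1
        (htz_root hM hζ.pow_eq_one _).1, (htz_root hM hζ.pow_eq_one _).2,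
        (htz_root hM hζ.pow_eq_one _).2, sub_self, mul_zero]
  choose! n hn using h3
  refine ⟨n, fun j hj => ?_⟩
  have hj' := Finset.mem_Icc.1 hj
  have h4 : ∑ i ∈ Finset.range ℓ, ζ ^ (i * j) = 0 := by
    have h5 := geo hζ j
    rw [if_neg (fun h => by
      have := Nat.le_of_dvd (by omega) h
      omega)] at h5
    rw [← h5]
    exact Finset.sum_congr rfl fun i _ => by rw [mul_comm]
  have h5 : ∀ i ∈ Finset.range ℓ, (m i : ℂ) * ζ ^ (i * j) =
      ℓ * ((n i : ℂ) * ζ ^ (i * j)) + m 0 * ζ ^ (i * j) := by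
    intro i hi
    have h6 : (m i : ℂ) = ℓ * n i + m 0 := by
      have := hn i hi
      have h7 : m i = ℓ * n i + m 0 := by linarith
      exact_mod_cast congrArg (fun z : ℤ => (z : ℂ)) h7
    rw [h6]
    ring
  rw [Finset.sum_congr rfl h5, Finset.sum_add_distrib, ← Finset.mul_sum, ← Finset.mul_sum, h4,
    mul_zero, add_zero]

/-- the numbers below `ℓ` which are prime to `ℓ` -/
theorem filt {ℓ : ℕ} (hℓ : ℓ.Prime) :
    (Finset.range ℓ).filter (fun j => ¬ ℓ ∣ j) = Finset.Icc 1 (ℓ - 1) := by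
  ext j
  rw [Finset.mem_filter, Finset.mem_range, Finset.mem_Icc]
  have hp := hℓ.pos
  constructor
  · rintro ⟨h1, h2⟩
    have h3 : j ≠ 0 := by
      rintro rfl
      exact h2 (dvd_zero ℓ)
    omega
  · rintro ⟨h1, h2⟩
    refine ⟨by omega, fun h => ?_⟩
    have := Nat.le_of_dvd (by omega) h
    omega

/-- `v_1` of a character which vanishes at the singular elements -/
theorem gv_zero (prg : K9.PrgStmt) {ℓ : ℕ} [hℓ : Fact ℓ.Prime] {M : Ideal (integralClosure ℤ ℂ)}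
    [M.IsMaximal] (hM : (ℓ : integralClosure ℤ ℂ) ∈ M) {G : Type} [Group G] [Finite G] {u : G}
    (hu : u ^ ℓ = 1) (hu1 : u ≠ 1) {b : G → FF M} (hb : IsIdem (fun t : Cu u => b t))
    {χ : G → ℂ} (hχ : ∀ g, ¬ Reg ℓ g → χ g = 0) : gv M (Cu u) u b χ = 0 := by
  have h1 := (prg ℓ M hM).1 (Cu u) (fun t : Cu u => b t) hb
  have hord : orderOf u = ℓ := orderOf_eq_prime hu hu1
  unfold gv gbv
  rw [← finsum_zero]
  refine finsum_congr fun c => ?_
  by_cases hc : Reg ℓ c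
  · rw [hχ, mul_zero]
    intro h
    have hcomm : Commute u (c : G) :=
      (Subgroup.mem_centralizer_singleton_iff.1 c.2).symm
    have hcop : (orderOf u).Coprime (orderOf (c : G)) := by
      rw [hord, Subgroup.orderOf_coe]
      exact Nat.Coprime.symm hc
    unfold Reg at h
    rw [hcomm.orderOf_mul_eq_mul_orderOf_of_coprime hcop, hord] at h
    have h2 : Nat.Coprime ℓ ℓ := Nat.Coprime.coprime_dvd_left (dvd_mul_right _ _) h
    rw [Nat.coprime_self] at h2
    exact hℓ.out.one_lt.ne' h2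
  · have h3 : eh M (fun t : Cu u => b t) c = 0 := by
      have h4 : K9.pr M (fun t : Cu u => b t) c⁻¹ = 0 := by
        apply h1.sg
        unfold Reg
        rw [orderOf_inv]
        exact hc
      unfold eh
      unfold K9.pr at h4
      rw [h4, mul_zero]
    rw [h3, zero_mul]

/-- the core -/
theorem core (cgr : T3.CgrStmt) (inr : T3.InrStmt) (glp : T3.GlpStmt) (co1 : T3.Co1Stmt)
    (lpw : T3.LpwStmt) (prg : K9.PrgStmt) {ℓ : ℕ} [hℓ : Fact ℓ.Prime]
    {M : Ideal (integralClosure ℤ ℂ)} [M.IsMaximal] (hM : (ℓ : integralClosure ℤ ℂ) ∈ M)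
    {G : Type} [Group G] [Finite G] {e : G → FF M} {V : Subgroup G} {γ : G → FF M}
    (hL : Ld ℓ e V γ) (hV : Nat.card V = ℓ ^ 2) {c : ℕ}
    (hc : Dg M (fun t : Subgroup.centralizer (V : Set G) => γ t) c) {u : G} (hu : Rg V γ u)
    (huℓ : u ^ ℓ = 1) {b : G → FF M} (hb : Lc e V γ u b) {d : ℕ}
    (hd : Dg M (fun t : Cu u => b t) d)
    (hk : (IrrE M (fun t : Cu u => b t)).ncard = Nat.card V) (hix : ¬ ℓ ∣ ix V γ)
    {χ : G → ℂ} (hχ : χ ∈ IrrE M e) {q : ℚ}
    (hq : (q : ℂ) = (Nat.card G * c : ℂ) /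
      (Nat.card (Subgroup.centralizer (V : Set G)) * χ 1)) :
    ¬ ℓ ∣ q.den ∧ ¬ (ℓ : ℤ) ∣ q.num := by
  classical
  have := Fintype.ofFinite G
  have hp : ℓ.Prime := hℓ.out
  have hℓ0 : (ℓ : ℂ) ≠ 0 := by exact_mod_cast hp.ne_zero
  have hd0 : (d : ℂ) ≠ 0 := by exact_mod_cast hd.1.ne'
  -- the residue of the index
  have hixr : ∀ ε : ℤ, (ε = 1 ∨ ε = -1) → ((ε * ix V γ : ℤ) : FF M) ≠ 0 := by
    intro ε hε h
    rw [← (rr_int (M := M) _).2, dvd_of_rr hp hM] at h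
    apply hix
    rcases hε with rfl | rfl
    · rw [one_mul] at h
      exact_mod_cast h
    · rw [neg_one_mul, dvd_neg] at h
      exact_mod_cast h
  -- the powers of `u`
  have hF := H50.fld ℓ Fact.out M hM
  have hpw : ∀ j ∈ Finset.Icc 1 (ℓ - 1), ¬ ℓ ∣ j := by
    intro j hj h
    have := Finset.mem_Icc.1 hj
    have := Nat.le_of_dvd (by omega) h
    have := hp.pos
    omega
  have hCj : ∀ j ∈ Finset.Icc 1 (ℓ - 1), Cu (u ^ j) = Cu u := fun j hj =>
    (lpw ℓ (FF M) hF G e V γ hL u hu.1 b hb j (hpw j hj)).1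
  have hLj : ∀ j ∈ Finset.Icc 1 (ℓ - 1), Lc e V γ (u ^ j) b := fun j hj =>
    (lpw ℓ (FF M) hF G e V γ hL u hu.1 b hb j (hpw j hj)).2
  have huj : ∀ j ∈ Finset.Icc 1 (ℓ - 1), u ^ j ≠ 1 := by
    intro j hj h
    have h1 : orderOf u = ℓ := orderOf_eq_prime huℓ hu.2.1
    have h2 := orderOf_dvd_of_pow_eq_one h
    rw [h1] at h2
    exact hpw j hj h2
  have hRj : ∀ j ∈ Finset.Icc 1 (ℓ - 1), Rg V γ (u ^ j) := by
    intro j hj
    refine ⟨V.pow_mem hu.1 j, huj j hj, ?_⟩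
    rw [hCj j hj]
    exact hu.2.2
  have hDj : ∀ j ∈ Finset.Icc 1 (ℓ - 1), Dg M (fun t : Cu (u ^ j) => b t) d := by
    intro j hj
    rw [hCj j hj]
    exact hd
  obtain ⟨v, hvd⟩ : ∃ v : ℕ → (G → ℂ) → ℂ, v = fun j ψ => gv M (Cu u) (u ^ j) b ψ / d := ⟨_, rfl⟩
  -- CGR
  have hcg : ∀ j ∈ Finset.Icc 1 (ℓ - 1), ∃ ε : ℤ, (ε = 1 ∨ ε = -1) ∧ ∀ ψ ∈ IrrE M e,
      (v j ψ * ((Nat.card G * c : ℂ) /
        (Nat.card (Subgroup.centralizer (V : Set G)) * ψ 1))) ∈ RM M ∧
      rr M (v j ψ * ((Nat.card G * c : ℂ) /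
        (Nat.card (Subgroup.centralizer (V : Set G)) * ψ 1))) = ((ε * ix V γ : ℤ) : FF M) := by
    intro j hj
    obtain ⟨ε, hε, h1⟩ := cgr ℓ M hM G e V γ hL c hc (u ^ j) (hRj j hj) b (hLj j hj) d (hDj j hj)
    refine ⟨ε, hε, fun ψ hψ => ?_⟩
    have h2 := h1 ψ hψ
    rw [hCj j hj] at h2
    rw [hvd]
    exact h2
  have h1m : 1 ∈ Finset.Icc 1 (ℓ - 1) := Finset.mem_Icc.2 ⟨le_rfl, by have := hp.two_le; omega⟩
  have hv1 : ∀ ψ ∈ IrrE M e, v 1 ψ ≠ 0 := by
    intro ψ hψ h0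
    obtain ⟨ε, hε, h1⟩ := hcg 1 h1m
    have h2 := (h1 ψ hψ).2
    rw [h0, zero_mul, rr_zero] at h2
    exact hixr ε hε h2.symm
  -- the roots of unity
  obtain ⟨ζ, hζ⟩ : ∃ ζ : ℂ, IsPrimitiveRoot ζ ℓ := ⟨_, Complex.isPrimitiveRoot_exp ℓ hp.ne_zero⟩
  have hIx : Ix (Cu u) b := hb.blk.ix
  obtain ⟨m, hm⟩ := inr M G u ℓ hp.pos huℓ b hIx d hd ζ hζ χ hχ.1
  have hvm : ∀ j, v j χ = ∑ i ∈ Finset.range ℓ, (m i : ℂ) * ζ ^ (i * j) := by
    intro j
    rw [hvd]
    show gv M (Cu u) (u ^ j) b χ / d = _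
    rw [hm j, mul_div_cancel_left₀ _ hd0]
  have hvR : ∀ j, v j χ ∈ RM M := by
    intro j
    rw [hvm]
    exact Subring.sum_mem _ fun i _ => (RM M).mul_mem (rr_int _).1
      (htz_root hM hζ.pow_eq_one _).1
  -- the first claim
  have hA : ¬ ℓ ∣ q.den := by
    intro hdv
    have hnum : ¬ (ℓ : ℤ) ∣ q.num := by
      intro h
      have h5 : ℓ ∣ q.num.natAbs := Int.natCast_dvd.1 h
      have h6 := Nat.dvd_gcd h5 hdv
      rw [q.reduced] at h6
      exact hp.one_lt.ne' (Nat.dvd_one.1 h6)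
    obtain ⟨k, hk'⟩ := hdv
    have hq0 : (q.num : ℂ) ≠ 0 := by
      intro h
      apply hnum
      have : q.num = 0 := by exact_mod_cast h
      rw [this]
      exact dvd_zero _
    have hnR : ((q.num : ℤ) : ℂ)⁻¹ ∈ RM M := by
      refine (inv_RM (rr_int q.num).1 fun h => hnum ?_).1
      exact (dvd_of_rr hp hM).1 h
    have hqm : (q : ℂ) * (q.den : ℂ) = q.num := by
      have := congrArg (fun x : ℚ => (x : ℂ)) (Rat.mul_den_eq_num q)
      push_cast at this
      exact this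
    have hden : (q.den : ℂ) ≠ 0 := by exact_mod_cast q.den_nz
    have hqinv : (q : ℂ) * (ℓ * (k * ((q.num : ℤ) : ℂ)⁻¹)) = 1 := by
      have h2 : (q.den : ℂ) = ℓ * k := by
        rw [hk']
        push_cast
        ring
      rw [h2] at hqm
      calc (q : ℂ) * (ℓ * (k * ((q.num : ℤ) : ℂ)⁻¹)) = (q : ℂ) * (ℓ * k) * ((q.num : ℤ) : ℂ)⁻¹ := by
            ring
        _ = 1 := by rw [hqm, mul_inv_cancel₀ hq0]
    -- the numbers `v_j` are divisible by `ℓ`
    obtain ⟨s, hs⟩ : ∃ s : ℕ → ℂ, s = fun j => v j χ * q * (k * ((q.num : ℤ) : ℂ)⁻¹) := ⟨_, rfl⟩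
    obtain ⟨n, hn⟩ := dft hM hζ m s (by
      intro j hj
      obtain ⟨ε, hε, h1⟩ := hcg j hj
      have h2 := (h1 χ hχ).1
      rw [← hq] at h2
      rw [hs]
      exact (RM M).mul_mem h2 ((RM M).mul_mem (rr_nat _).1 hnR)) (by
      intro j hj
      rw [← hvm, hs]
      show v j χ = ℓ * (v j χ * q * (k * ((q.num : ℤ) : ℂ)⁻¹))
      calc v j χ = v j χ * ((q : ℂ) * (ℓ * (k * ((q.num : ℤ) : ℂ)⁻¹))) := by rw [hqinv, mul_one]
        _ = _ := by ring)
    -- GLP
    have hn1 : ∑ i ∈ Finset.range ℓ, (n i : ℂ) * ζ ^ i ≠ 0 := by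
      intro h
      have h2 := hn 1 h1m
      rw [← hvm] at h2
      simp only [mul_one] at h2
      rw [h, mul_zero] at h2
      exact hv1 χ hχ h2
    have hg := (glp ℓ 1 one_pos ζ (by rwa [pow_one]) n (by rwa [pow_one])).1
    rw [pow_one, filt hp, Nat.sub_self, pow_zero, one_mul] at hg
    have hg2 : ((ℓ : ℝ) ^ 2 * ((ℓ - 1 : ℕ) : ℝ)) ≤
        ∑ j ∈ Finset.Icc 1 (ℓ - 1), Complex.normSq (v j χ) := by
      have h2 : ∀ j ∈ Finset.Icc 1 (ℓ - 1), Complex.normSq (v j χ) =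
          (ℓ : ℝ) ^ 2 * Complex.normSq (∑ i ∈ Finset.range ℓ, (n i : ℂ) * ζ ^ (i * j)) := by
        intro j hj
        rw [hvm, hn j hj, Complex.normSq_mul, Complex.normSq_natCast]
        ring
      rw [Finset.sum_congr rfl h2, ← Finset.mul_sum]
      exact mul_le_mul_of_nonneg_left hg (by positivity)
    -- CO1
    have hfin : (Irr G).Finite := irr_finite'
    have hco : ∀ j ∈ Finset.Icc 1 (ℓ - 1),
        ∑ ψ ∈ hfin.toFinset, Complex.normSq (v j ψ) = (ℓ : ℝ) ^ 2 := by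
      intro j hj
      have hEl : El ℓ (u ^ j) := ⟨1, by rw [pow_one, ← pow_mul, mul_comm, pow_mul, huℓ, one_pow]⟩
      have h2 := co1 ℓ M hM G (u ^ j) hEl b (hLj j hj).blk.ix
      rw [hCj j hj] at h2
      rw [finsum_mem_eq_finite_toFinset_sum _ hfin] at h2
      have hfb : (IrrE M (fun t : Cu u => b t)).Finite := by
        have := Fintype.ofFinite (Cu u)
        exact irr_finite'.subset fun θ h => h.1
      have h3 : ∑ᶠ κ ∈ IrrE M (fun t : Cu u => b t), κ 1 ^ 2 = (ℓ : ℂ) ^ 2 * (d : ℂ) ^ 2 := by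
        rw [finsum_mem_eq_finite_toFinset_sum _ hfb]
        have h4 : ∀ κ ∈ hfb.toFinset, κ 1 ^ 2 = (d : ℂ) ^ 2 := by
          intro κ hκ
          rw [hd.2 κ (hfb.mem_toFinset.1 hκ)]
        rw [Finset.sum_congr rfl h4, Finset.sum_const, nsmul_eq_mul,
          ← Set.ncard_eq_toFinset_card _ hfb, hk, hV]
        push_cast
        ring
      rw [h3] at h2
      have h5 : ∀ ψ ∈ hfin.toFinset, gv M (Cu u) (u ^ j) b ψ *
          starRingEnd ℂ (gv M (Cu u) (u ^ j) b ψ) =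
          (((d : ℝ) ^ 2 * Complex.normSq (v j ψ) : ℝ) : ℂ) := by
        intro ψ _
        have h6 : gv M (Cu u) (u ^ j) b ψ = d * v j ψ := by
          rw [hvd]
          show gv M (Cu u) (u ^ j) b ψ = d * (gv M (Cu u) (u ^ j) b ψ / d)
          field_simp
        rw [h6, map_mul, Complex.conj_natCast]
        push_cast
        rw [← Complex.mul_conj (v j ψ)]
        ring
      rw [Finset.sum_congr rfl h5] at h2
      have h7 : ((d : ℝ) ^ 2 * ∑ ψ ∈ hfin.toFinset, Complex.normSq (v j ψ) : ℝ) =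
          (ℓ : ℝ) ^ 2 * (d : ℝ) ^ 2 := by
        rw [Finset.mul_sum]
        exact_mod_cast h2
      have hdr : (d : ℝ) ^ 2 ≠ 0 := by
        have : (d : ℝ) ≠ 0 := by exact_mod_cast hd.1.ne'
        positivity
      apply mul_left_cancel₀ hdr
      rw [h7]
      ring
    -- the other characters
    have hone : ∀ ψ ∈ IrrE M e, ψ = χ := by
      intro ψ hψ
      by_contra hne
      have h2 : ∑ j ∈ Finset.Icc 1 (ℓ - 1), ∑ θ ∈ hfin.toFinset, Complex.normSq (v j θ) =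
          ((ℓ - 1 : ℕ) : ℝ) * (ℓ : ℝ) ^ 2 := by
        rw [Finset.sum_congr rfl hco, Finset.sum_const, Nat.card_Icc, nsmul_eq_mul,
          Nat.add_sub_cancel]
      have h3 : ∀ j ∈ Finset.Icc 1 (ℓ - 1), Complex.normSq (v j χ) + Complex.normSq (v j ψ) ≤
          ∑ θ ∈ hfin.toFinset, Complex.normSq (v j θ) := by
        intro j _
        have h4 : ∑ θ ∈ ({χ, ψ} : Finset (G → ℂ)), Complex.normSq (v j θ) =
            Complex.normSq (v j χ) + Complex.normSq (v j ψ) :=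
          Finset.sum_pair (Ne.symm hne)
        rw [← h4]
        refine Finset.sum_le_sum_of_subset_of_nonneg ?_ fun _ _ _ => Complex.normSq_nonneg _
        intro θ hθ
        rw [hfin.mem_toFinset]
        rcases Finset.mem_insert.1 hθ with rfl | h
        · exact hχ.1
        · rw [Finset.mem_singleton.1 h]
          exact hψ.1
      have h4 := Finset.sum_le_sum h3
      rw [Finset.sum_add_distrib, h2] at h4
      have h5 : Complex.normSq (v 1 ψ) ≤ ∑ j ∈ Finset.Icc 1 (ℓ - 1), Complex.normSq (v j ψ) :=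
        Finset.single_le_sum (f := fun j => Complex.normSq (v j ψ))
          (fun _ _ => Complex.normSq_nonneg _) h1m
      have h6 : 0 < Complex.normSq (v 1 ψ) := Complex.normSq_pos.2 (hv1 ψ hψ)
      linarith
    have hset : IrrE M e = {χ} := by
      ext ψ
      rw [Set.mem_singleton_iff]
      exact ⟨hone ψ, fun h => h ▸ hχ⟩
    have hsing : ∀ g, ¬ Reg ℓ g → χ g = 0 := by
      intro g hg
      have h2 := ((prg ℓ M hM).1 G e hL.blk.1).sg g hg
      unfold K9.pr at h2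
      rw [hset, finsum_mem_singleton] at h2
      exact (mul_eq_zero.1 h2).resolve_left (irr_one_ne hχ.1)
    have h0 := gv_zero prg hM huℓ hu.2.1 hIx.idem hsing
    apply hv1 χ hχ
    rw [hvd]
    show gv M (Cu u) (u ^ 1) b χ / d = 0
    rw [pow_one, h0, zero_div]
  refine ⟨hA, ?_⟩
  intro hB
  obtain ⟨ε, hε, h1⟩ := hcg 1 h1m
  obtain ⟨h2, h3⟩ := h1 χ hχ
  rw [← hq] at h2 h3
  have hdR : ((q.den : ℕ) : ℂ)⁻¹ ∈ RM M := inv_nat_RM hp hM hA
  have hqe : (q : ℂ) = ((q.num : ℤ) : ℂ) * ((q.den : ℕ) : ℂ)⁻¹ := by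
    rw [← div_eq_mul_inv]
    exact_mod_cast congrArg (fun x : ℚ => (x : ℂ)) (Rat.num_div_den q).symm
  have hqR : (q : ℂ) ∈ RM M ∧ rr M (q : ℂ) = 0 := by
    rw [hqe]
    refine ⟨(RM M).mul_mem (rr_int _).1 hdR, ?_⟩
    rw [rr_mul (rr_int _).1 hdR, (dvd_of_rr hp hM).2 hB, zero_mul]
  rw [rr_mul (hvR 1) hqR.1, hqR.2, mul_zero] at h3
  exact hixr ε hε h3.symm

/-- **HTZ** -/
theorem htz (hixe : HIxeStmt) (hta : HTaStmt) (rgl : T3.RglStmt) (cgr : T3.CgrStmt)
    (dgc : T3.DgcStmt) (inr : T3.InrStmt) (glp : T3.GlpStmt) (co1 : T3.Co1Stmt)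
    (lpw : T3.LpwStmt) (prg : K9.PrgStmt) : HTzStmt := by
  intro ℓ hℓ M _ hM V₀ _ _ hex hcd E₀ G _ _ B hB c hc χ hχ
  have hp : ℓ.Prime := hℓ.out
  obtain ⟨i1, i2, -, i4⟩ := hixe ℓ M hM V₀ E₀ G B hB
  have hu := (i4 c).2.2.1 hc
  have huℓ : B.i c ^ ℓ = 1 := by rw [← map_pow, hex, map_one]
  have hL := hB.ld
  have hV : Nat.card B.i.range = ℓ ^ 2 := by
    rw [← hcd]
    exact (Nat.card_congr (B.i.ofInjective hB.inj).toEquiv).symm
  obtain ⟨b, d, hb, hd, hk, -⟩ := rgl ℓ M hM G B.e B.i.range B.g hL (B.i c) hu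
  obtain ⟨c₀, hc₀⟩ := dgc ℓ M hM G B.e B.i.range B.g hL
  obtain ⟨m, hm, hcard⟩ := hta ℓ M hM G B.e B.i.range B.g hL c₀ hc₀
  obtain ⟨n, hn0, hn⟩ := irr_one hχ.1
  have hix : ¬ ℓ ∣ ix B.i.range B.g := by rwa [i1]
  obtain ⟨q, hq⟩ : ∃ q : ℚ, q = (Nat.card G * c₀ : ℚ) /
      (Nat.card (Subgroup.centralizer (B.i.range : Set G)) * n) := ⟨_, rfl⟩
  obtain ⟨hA, hBn⟩ := core cgr inr glp co1 lpw prg hM hL hV hc₀ hu huℓ hb hd hk hix hχ (q := q) (by
    rw [hq, hn]
    push_cast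
    rfl)
  have hG : 0 < Nat.card G := Nat.card_pos
  have hq0 : 0 < q := by
    rw [hq]
    have h1 : 0 < Nat.card (Subgroup.centralizer (B.i.range : Set G)) := Nat.card_pos
    have h2 := hc₀.1
    positivity
  have hnum : 0 < q.num := Rat.num_pos.2 hq0
  refine ⟨m * q.num.natAbs, q.den, ?_, hA, ?_⟩
  · rw [hp.dvd_mul, not_or]
    refine ⟨hm, fun h => hBn (Int.natCast_dvd.2 h)⟩
  · have h1 : q * q.den = q.num := Rat.mul_den_eq_num q
    have h2 : (q.num : ℚ) = (q.num.natAbs : ℚ) := by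
      have : (q.num.natAbs : ℤ) = q.num := Int.natAbs_of_nonneg hnum.le
      have h5 : ((q.num.natAbs : ℤ) : ℚ) = (q.num : ℚ) := by rw [this]
      rw [← h5, Int.cast_natCast]
    rw [h2] at h1
    have h3 : (Nat.card (Subgroup.centralizer (B.i.range : Set G)) : ℚ) =
        (ℓ : ℚ) ^ 2 * c₀ * m := by
      rw [hcard, hV]
      push_cast
      ring
    rw [h3] at hq
    have hc0 : (c₀ : ℚ) ≠ 0 := by exact_mod_cast hc₀.1.ne'
    have hm0 : (m : ℚ) ≠ 0 := by
      have : m ≠ 0 := by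
        rintro rfl
        exact hm (dvd_zero _)
      exact_mod_cast this
    have hn0' : (n : ℚ) ≠ 0 := by exact_mod_cast hn0.ne'
    have hl0 : (ℓ : ℚ) ≠ 0 := by exact_mod_cast hp.ne_zero
    have h4 : (q.den : ℚ) * Nat.card G = (ℓ : ℚ) ^ 2 * n * (m * q.num.natAbs) := by
      rw [← h1, hq]
      field_simp
    rw [hn]
    exact_mod_cast congrArg (fun z : ℚ => (z : ℂ)) h4

end Pool.Agent.PP.SO.H92
end
end -- Pool.Agent.Helper92_ASO.HTZ
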