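import Pool.Agent.Helper12_AWB.B123
import Pool.Agent.Helper12_AWB.B136
import Pool.Agent.Helper12_AWB.B140
import Pool.Agent.Helper12_AWB.B165
import Pool.Agent.Helper12_AWB.B174

/-!
# Merged copies (generated) of the modules

* `Pool.Agent.Helper10_AT2.UX2`
* `Pool.Agent.Helper39_AT2.LB2`
* `Pool.Agent.Helper39_AT2.VJC`
* `Pool.Agent.Helper53_AT2.FN2`
* `Pool.Agent.Helper69_AT2.Fn3`
* `Pool.Agent.Helper81_AT2.STG`
* `Pool.Agent.Helper74_ATW.FNZ`
* `Pool.Agent.Helper86_ATW.ST3`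
* `Pool.Agent.Helper61_ATW.VAL`
* `Pool.Agent.Helper61_ATW.NR3`
-/

set_option autoImplicit false

section -- Pool.Agent.Helper10_AT2.UX2

/-!
# Squad AT2, row UX2: a regular element of order `ℓ ^ a` in a group of rank two
-/

noncomputable section

namespace Pool.Agent.PP.T2.H10

section abstract

variable {V : Type} [CommGroup V]

/-- powers mod the group of the `ℓ`-th powers -/
theorem fr_mem {ℓ m : ℕ} (hm : Nat.Coprime ℓ m) (Φ : Subgroup V) (hΦ : ∀ v : V, v ^ ℓ ∈ Φ)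
    {w : V} (h : w ^ m ∈ Φ) : w ∈ Φ := by
  have h1 : (w : V) = (w ^ ℓ) ^ (Nat.gcdA ℓ m) * (w ^ m) ^ (Nat.gcdB ℓ m) := by
    rw [← zpow_natCast w ℓ, ← zpow_natCast w m, ← zpow_mul, ← zpow_mul, ← zpow_add]
    have h2 := Nat.gcd_eq_gcd_ab ℓ m
    rw [hm] at h2
    rw [← h2]
    simp
  rw [h1]
  exact Φ.mul_mem (Φ.zpow_mem (hΦ w) _) (Φ.zpow_mem h _)

/-- the Frattini argument -/
theorem fr_top {ℓ a : ℕ} (W Φ : Subgroup V) (hΦ : ∀ v ∈ Φ, ∃ z : V, v = z ^ ℓ)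
    (ha : ∀ v : V, v ^ ℓ ^ a = 1) (h : ∀ v : V, ∃ w ∈ W, ∃ f ∈ Φ, v = w * f) (v : V) : v ∈ W := by
  have key : ∀ k : ℕ, ∀ v : V, ∃ w ∈ W, ∃ z : V, v = w * z ^ ℓ ^ k := by
    intro k
    induction k with
    | zero => exact fun v => ⟨1, W.one_mem, v, by simp⟩
    | succ k ih =>
      intro v
      obtain ⟨w, hw, z, rfl⟩ := ih v
      obtain ⟨w', hw', f, hf, rfl⟩ := h z
      obtain ⟨z', rfl⟩ := hΦ f hf
      refine ⟨w * w' ^ ℓ ^ k, W.mul_mem hw (W.pow_mem hw' _), z', ?_⟩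
      rw [mul_pow, ← pow_mul, pow_succ', mul_assoc]
  obtain ⟨w, hw, z, hz⟩ := key a v
  rw [ha, mul_one] at hz
  rw [hz]
  exact hw

/-- the fixed points -/
def fx (r : MulAut V) : Subgroup V where
  carrier := {v | r v = v}
  one_mem' := map_one r
  mul_mem' := by
    intro u v hu hv
    change r (u * v) = u * v
    rw [map_mul, show r u = u from hu, show r v = v from hv]
  inv_mem' := by
    intro u hu
    change r u⁻¹ = u⁻¹
    rw [map_inv, show r u = u from hu]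

theorem mem_fx {r : MulAut V} {v : V} : v ∈ fx r ↔ r v = v := Iff.rfl

/-- the norm is a fixed point -/
theorem norm_mem (r : MulAut V) (m : ℕ) (hr : r ^ m = 1) (v : V) :
    (∏ i ∈ Finset.range m, (r ^ i) v) ∈ fx r := by
  rw [mem_fx, map_prod]
  have h1 : ∀ i, r ((r ^ i) v) = (r ^ (i + 1)) v := by
    intro i
    rw [pow_succ']
    rfl
  simp only [h1]
  have h2 := Finset.prod_range_succ (fun i => (r ^ i) v) m
  have h3 := Finset.prod_range_succ' (fun i => (r ^ i) v) m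
  rw [h2] at h3
  simp only [hr, pow_zero] at h3
  exact (mul_right_cancel h3).symm

/-- an element fixed modulo `Φ` is in `W Φ` -/
theorem fix_mod {ℓ m : ℕ} (hm : Nat.Coprime ℓ m) (r : MulAut V) (hr : r ^ m = 1)
    (Φ : Subgroup V) (hΦ : ∀ v : V, v ^ ℓ ∈ Φ) (hrΦ : ∀ v ∈ Φ, r v ∈ Φ) {v : V} {f : V}
    (hf : f ∈ Φ) (hv : r v = v * f) : v ∈ fx r ⊔ Φ := by
  have h1 : ∀ i : ℕ, ∃ g ∈ Φ, (r ^ i) v = v * g := by
    intro i
    induction i with
    | zero => exact ⟨1, Φ.one_mem, by simp⟩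
    | succ i ih =>
      obtain ⟨g, hg, h⟩ := ih
      refine ⟨f * r g, Φ.mul_mem hf (hrΦ g hg), ?_⟩
      rw [pow_succ', MulAut.mul_apply, h, map_mul, hv, mul_assoc]
  choose g hg h using h1
  have h2 : ∏ i ∈ Finset.range m, (r ^ i) v = v ^ m * ∏ i ∈ Finset.range m, g i := by
    rw [Finset.prod_congr rfl fun i _ => h i, Finset.prod_mul_distrib]
    simp
  have h3 : v ^ m ∈ fx r ⊔ Φ := by
    have h4 : v ^ m = (∏ i ∈ Finset.range m, (r ^ i) v) * (∏ i ∈ Finset.range m, g i)⁻¹ := by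
      rw [h2, mul_inv_cancel_right]
    rw [h4]
    refine Subgroup.mul_mem _ (Subgroup.mem_sup_left (norm_mem r m hr v))
      (Subgroup.mem_sup_right (Φ.inv_mem (Φ.prod_mem fun i _ => hg i)))
  exact fr_mem hm _ (fun u => Subgroup.mem_sup_right (hΦ u)) h3

/-- a coprime automorphism which is unipotent modulo `Φ` is trivial -/
theorem unip {ℓ m a : ℕ} (hm : Nat.Coprime ℓ m) (r : MulAut V) (hr : r ^ m = 1)
    (Φ : Subgroup V) (hΦ : ∀ v : V, v ^ ℓ ∈ Φ) (hΦ' : ∀ v ∈ Φ, ∃ z : V, v = z ^ ℓ)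
    (ha : ∀ v : V, v ^ ℓ ^ a = 1) (x y : V) (hxy : ∀ v : V, ∃ i j : ℤ, v = x ^ i * y ^ j)
    (hy : ∃ f ∈ Φ, r y = y * f) (hx : ∃ k : ℤ, ∃ f ∈ Φ, r x = x * y ^ k * f) : r = 1 := by
  have hrΦ : ∀ v ∈ Φ, r v ∈ Φ := by
    intro v hv
    obtain ⟨z, rfl⟩ := hΦ' v hv
    rw [map_pow]
    exact hΦ _
  obtain ⟨f, hf, hy⟩ := hy
  have hyW : y ∈ fx r ⊔ Φ := fix_mod hm r hr Φ hΦ hrΦ hf hy
  obtain ⟨k, g, hg, hx⟩ := hx
  obtain ⟨w, hw, p, hp, hwp⟩ := Subgroup.mem_sup.1 (Subgroup.zpow_mem _ hyW k)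
  have hx' : r x = x * w * (p * g) := by
    rw [hx, ← hwp]
    simp only [mul_assoc]
  have h1 : ∀ i : ℕ, ∃ q ∈ Φ, (r ^ i) x = x * w ^ i * q := by
    intro i
    induction i with
    | zero => exact ⟨1, Φ.one_mem, by simp⟩
    | succ i ih =>
      obtain ⟨q, hq, h⟩ := ih
      refine ⟨p * g * r q, Φ.mul_mem (Φ.mul_mem hp hg) (hrΦ q hq), ?_⟩
      rw [pow_succ', MulAut.mul_apply, h, map_mul, map_mul, map_pow, mem_fx.1 hw, hx', pow_succ]
      simp only [mul_assoc, mul_left_comm, mul_comm]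
  obtain ⟨q, hq, h2⟩ := h1 m
  rw [hr, MulAut.one_apply] at h2
  have h3 : w ^ m ∈ Φ := by
    have h4 : w ^ m = q⁻¹ := by
      rw [mul_assoc] at h2
      have h5 : w ^ m * q = 1 := (mul_eq_left.1 h2.symm)
      exact eq_inv_of_mul_eq_one_left h5
    rw [h4]
    exact Φ.inv_mem hq
  have h4 : w ∈ Φ := fr_mem hm Φ hΦ h3
  have hxW : x ∈ fx r ⊔ Φ :=
    fix_mod hm r hr Φ hΦ hrΦ (f := w * (p * g)) (Φ.mul_mem h4 (Φ.mul_mem hp hg))
      (by rw [hx', mul_assoc])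
  have h5 : ∀ v : V, v ∈ fx r := by
    refine fr_top (ℓ := ℓ) (a := a) (fx r) Φ hΦ' ha fun v => ?_
    obtain ⟨i, j, rfl⟩ := hxy v
    have h6 : x ^ i * y ^ j ∈ fx r ⊔ Φ :=
      Subgroup.mul_mem _ (Subgroup.zpow_mem _ hxW i) (Subgroup.zpow_mem _ hyW j)
    obtain ⟨w, hw, p, hp, h7⟩ := Subgroup.mem_sup.1 h6
    exact ⟨w, hw, p, hp, h7.symm⟩
  ext v
  exact h5 v

/-- a proper subgroup of a finite `ℓ`-group has at most `|V| / ℓ` elements -/
theorem card_le {ℓ : ℕ} [hℓ : Fact ℓ.Prime] [Finite V] (hp : IsPGroup ℓ V) (H : Subgroup V)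
    {x : V} (hx : x ∉ H) : Nat.card H * ℓ ≤ Nat.card V := by
  obtain ⟨k, hk⟩ := (IsPGroup.iff_card).1 hp
  have h1 : H.index ∣ ℓ ^ k := hk ▸ Subgroup.index_dvd_card H
  obtain ⟨j, -, hj⟩ := (Nat.dvd_prime_pow hℓ.out).1 h1
  have h2 : j ≠ 0 := by
    intro h0
    rw [h0, pow_zero, Subgroup.index_eq_one] at hj
    exact hx (hj ▸ Subgroup.mem_top x)
  have h3 : ℓ ≤ H.index := by
    rw [hj]
    exact Nat.le_self_pow h2 ℓ
  rw [← Subgroup.card_mul_index H]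
  exact Nat.mul_le_mul_left _ h3

/-- the main counting argument -/
theorem cnt {ℓ n : ℕ} [hℓ : Fact ℓ.Prime] [Finite V] (x y : V)
    (hxy : ∀ v : V, ∃ i j : ℤ, v = x ^ i * y ^ j) (hx : x ^ ℓ ^ n ≠ 1) (hy : y ^ ℓ ^ n = 1)
    (ha : ∀ v : V, v ^ ℓ ^ (n + 1) = 1) (A : Subgroup (MulAut V)) (hA : ¬ ℓ ∣ Nat.card A) :
    ∃ u : V, u ^ ℓ ^ n ≠ 1 ∧ ∀ t ∈ A, t u = u → t = 1 := by
  classical
  have hcop : Nat.Coprime ℓ (Nat.card A) := (Nat.Prime.coprime_iff_not_dvd hℓ.out).2 hA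
  have hpow : ∀ t ∈ A, t ^ Nat.card A = 1 := by
    intro t ht
    have h1 : (⟨t, ht⟩ : A) ^ Nat.card A = 1 := pow_card_eq_one'
    exact congrArg Subtype.val h1
  obtain ⟨Φ, hΦ, hΦ'⟩ : ∃ Φ : Subgroup V, (∀ v : V, v ^ ℓ ∈ Φ) ∧ ∀ v ∈ Φ, ∃ z : V, v = z ^ ℓ :=
    ⟨(powMonoidHom ℓ : V →* V).range, fun v => ⟨v, rfl⟩, fun v hv => by
      obtain ⟨z, hz⟩ := hv
      exact ⟨z, hz.symm⟩⟩
  have hrΦ : ∀ (r : MulAut V), ∀ v ∈ Φ, r v ∈ Φ := by
    intro r v hv
    obtain ⟨z, rfl⟩ := hΦ' v hv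
    rw [map_pow]
    exact hΦ _
  -- powers of `X`
  have hX : (x ^ ℓ ^ n) ^ ℓ = 1 := by rw [← pow_mul, ← pow_succ, ha]
  have hXd : ∀ i : ℤ, (x ^ ℓ ^ n) ^ i = 1 → (ℓ : ℤ) ∣ i := by
    intro i hi
    have h1 : orderOf (x ^ ℓ ^ n) = ℓ := orderOf_eq_prime hX hx
    have h2 := orderOf_dvd_iff_zpow_eq_one.2 hi
    rwa [h1] at h2
  have hP : ∀ i j : ℤ, (x ^ i * y ^ j) ^ ℓ ^ n = (x ^ ℓ ^ n) ^ i := by
    intro i j
    rw [mul_pow, ← zpow_natCast (x ^ i), ← zpow_mul, mul_comm i, zpow_mul, zpow_natCast,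
      ← zpow_natCast (y ^ j), ← zpow_mul, mul_comm j, zpow_mul, zpow_natCast, hy, one_zpow,
      mul_one]
  have hzΦ : ∀ (z : V) (i : ℤ), (ℓ : ℤ) ∣ i → z ^ i ∈ Φ := by
    intro z i hi
    obtain ⟨c, rfl⟩ := hi
    rw [zpow_mul, zpow_natCast]
    exact Φ.zpow_mem (hΦ z) c
  set A0 : Set (MulAut V) := {t | t ∈ A ∧ ∀ v : V, t (v ^ ℓ ^ n) = v ^ ℓ ^ n} with hA0
  -- claim 1
  have h1 : ∀ u : V, u ^ ℓ ^ n ≠ 1 → ∀ t ∈ A, t u = u → t ∈ A0 := by
    intro u hu t ht htu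
    refine ⟨ht, fun v => ?_⟩
    obtain ⟨i, j, rfl⟩ := hxy u
    obtain ⟨i', j', rfl⟩ := hxy v
    rw [hP] at hu ⊢
    have h2 : ¬ (ℓ : ℤ) ∣ i := by
      intro h3
      obtain ⟨c, rfl⟩ := h3
      apply hu
      rw [zpow_mul, zpow_natCast, hX, one_zpow]
    have h3 : IsCoprime (ℓ : ℤ) i :=
      (Nat.prime_iff_prime_int.1 hℓ.out).coprime_iff_not_dvd.2 h2
    obtain ⟨c, d, hcd⟩ := h3
    have h4 : x ^ ℓ ^ n = ((x ^ ℓ ^ n) ^ i) ^ d := by
      rw [← zpow_mul]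
      have h5 : i * d = 1 - ℓ * c := by linarith
      rw [h5, zpow_sub, zpow_mul, zpow_natCast, hX, one_zpow, zpow_one, inv_one, mul_one]
    have h5 : t ((x ^ ℓ ^ n) ^ i) = (x ^ ℓ ^ n) ^ i := by
      rw [← hP i j, map_pow, htu]
    have h6 : t (x ^ ℓ ^ n) = x ^ ℓ ^ n := by
      rw [h4, map_zpow, h5]
    rw [map_zpow, h6]
  -- claim 2
  have h2y : ∀ t ∈ A0, ∃ j : ℕ, j < ℓ ∧ ∃ f ∈ Φ, t y = y ^ j * f := by
    intro t ht
    obtain ⟨i, j, hij⟩ := hxy (t y)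
    have h3 : (t y) ^ ℓ ^ n = 1 := by rw [← map_pow, hy, map_one]
    rw [hij, hP] at h3
    have h4 := hXd i h3
    have h5 : (0 : ℤ) ≤ j % ℓ := Int.emod_nonneg _ (by exact_mod_cast hℓ.out.ne_zero)
    have h6 : j % ℓ < ℓ := Int.emod_lt_of_pos _ (by exact_mod_cast hℓ.out.pos)
    refine ⟨(j % ℓ).toNat, by omega, y ^ (ℓ * (j / ℓ)) * x ^ i,
      Φ.mul_mem (hzΦ y _ ⟨_, rfl⟩) (hzΦ x i h4), ?_⟩
    rw [hij, ← zpow_natCast, Int.toNat_of_nonneg h5, ← mul_assoc, ← zpow_add,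
      Int.emod_add_mul_ediv, mul_comm]
  have h2x : ∀ t ∈ A0, ∃ k : ℤ, ∃ f ∈ Φ, t x = x * y ^ k * f := by
    intro t ht
    obtain ⟨i, j, hij⟩ := hxy (t x)
    have h3 : (t x) ^ ℓ ^ n = x ^ ℓ ^ n := by rw [← map_pow, ht.2]
    rw [hij, hP] at h3
    have h4 : (ℓ : ℤ) ∣ i - 1 := by
      apply hXd
      rw [zpow_sub, h3, zpow_one, mul_inv_cancel]
    refine ⟨j, x ^ (i - 1), hzΦ x _ h4, ?_⟩
    rw [hij, mul_right_comm, ← zpow_one_add]
    congr 2
    ring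
  choose! J hJ g hg hJg using h2y
  -- claim 3
  have h3 : Set.InjOn J A0 := by
    intro t ht s hs hts
    have hr : s⁻¹ * t ∈ A0 := by
      refine ⟨A.mul_mem (A.inv_mem hs.1) ht.1, fun v => ?_⟩
      rw [MulAut.mul_apply, ht.2 v]
      have h4 : s⁻¹ (s (v ^ ℓ ^ n)) = v ^ ℓ ^ n := MulAut.inv_apply_self _ _ _
      rwa [hs.2 v] at h4
    have h4 : s⁻¹ * t = 1 := by
      refine unip hcop (s⁻¹ * t) (hpow _ hr.1) Φ hΦ hΦ' ha x y hxy ?_ (h2x _ hr)
      refine ⟨s⁻¹ ((g s)⁻¹ * g t), hrΦ _ _ (Φ.mul_mem (Φ.inv_mem (hg s hs)) (hg t ht)), ?_⟩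
      have h5 : t y = s y * ((g s)⁻¹ * g t) := by
        rw [hJg t ht, hJg s hs, hts]
        simp only [mul_assoc, mul_inv_cancel_left]
      rw [MulAut.mul_apply, h5, map_mul]
      congr 1
      exact MulAut.inv_apply_self _ _ _
    exact (inv_mul_eq_one.1 h4).symm
  have hAfin : A0.Finite := Set.toFinite _
  -- claim 4
  have h4 : A0.ncard < ℓ := by
    by_cases hyΦ : y ∈ Φ
    · have h5 : A0 ⊆ {1} := by
        intro t ht
        refine unip hcop t (hpow _ ht.1) Φ hΦ hΦ' ha x y hxy ?_ (h2x _ ht)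
        exact ⟨y⁻¹ * t y, Φ.mul_mem (Φ.inv_mem hyΦ) (hrΦ t y hyΦ), by simp⟩
      have h6 := Set.ncard_le_ncard h5
      rw [Set.ncard_singleton] at h6
      have := hℓ.out.two_le
      omega
    · have h5 : J '' A0 ⊆ (Finset.Ico 1 ℓ : Set ℕ) := by
        rintro _ ⟨t, ht, rfl⟩
        rw [Finset.mem_coe, Finset.mem_Ico]
        refine ⟨?_, hJ t ht⟩
        rw [Nat.one_le_iff_ne_zero]
        intro h6
        apply hyΦ
        have h7 := hJg t ht
        rw [h6, pow_zero, one_mul] at h7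
        have h8 : t⁻¹ (t y) = y := MulAut.inv_apply_self _ _ _
        rw [← h8, h7]
        exact hrΦ _ _ (hg t ht)
      have h6 := Set.ncard_le_ncard h5 (Finset.finite_toSet _)
      rw [h3.ncard_image, Set.ncard_coe_finset, Nat.card_Ico] at h6
      have := hℓ.out.two_le
      omega
  -- claim 5
  by_contra hcon
  push Not at hcon
  have hp : IsPGroup ℓ V := fun v => ⟨n + 1, ha v⟩
  have := Fintype.ofFinite V
  set Ω : Subgroup V := (powMonoidHom (ℓ ^ n) : V →* V).ker with hΩ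
  have hΩm : ∀ v : V, v ∈ Ω ↔ v ^ ℓ ^ n = 1 := fun v => Iff.rfl
  have h1A : (1 : MulAut V) ∈ A0 := ⟨A.one_mem, fun v => rfl⟩
  set B : MulAut V → Subgroup V := fun t => if t = 1 then Ω else fx t with hB
  have hBc : ∀ t, Nat.card (B t) * ℓ ≤ Nat.card V := by
    intro t
    by_cases ht : t = 1
    · refine card_le hp _ (x := x) ?_
      rw [hB]
      simp only [ht, if_true, hΩm]
      exact hx
    · obtain ⟨v, hv⟩ : ∃ v, t v ≠ v := by
        by_contra h5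
        push Not at h5
        exact ht (MulEquiv.ext h5)
      refine card_le hp _ (x := v) ?_
      rw [hB]
      simp only [ht, if_false, mem_fx]
      exact hv
  have hcov : (Finset.univ : Finset V) ⊆
      hAfin.toFinset.biUnion fun t => (Finset.univ.filter fun v => v ∈ B t) := by
    intro v _
    rw [Finset.mem_biUnion]
    by_cases hv : v ^ ℓ ^ n = 1
    · refine ⟨1, hAfin.mem_toFinset.2 h1A, Finset.mem_filter.2 ⟨Finset.mem_univ _, ?_⟩⟩
      rw [hB]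
      simp only [if_true, hΩm]
      exact hv
    · obtain ⟨t, ht, htv, ht1⟩ := hcon v hv
      refine ⟨t, hAfin.mem_toFinset.2 (h1 v hv t ht htv),
        Finset.mem_filter.2 ⟨Finset.mem_univ _, ?_⟩⟩
      rw [hB]
      simp only [ht1, if_false, mem_fx]
      exact htv
  have hle := (Finset.card_le_card hcov).trans Finset.card_biUnion_le
  have hcf : ∀ t, (Finset.univ.filter fun v => v ∈ B t).card = Nat.card (B t) := by
    intro t
    rw [Nat.card_eq_fintype_card, Fintype.card_subtype]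
  simp only [hcf, Finset.card_univ, ← Nat.card_eq_fintype_card] at hle
  have h5 : Nat.card V * ℓ ≤ Nat.card V * A0.ncard := by
    calc Nat.card V * ℓ ≤ (∑ t ∈ hAfin.toFinset, Nat.card (B t)) * ℓ :=
          Nat.mul_le_mul_right _ hle
      _ = ∑ t ∈ hAfin.toFinset, Nat.card (B t) * ℓ := Finset.sum_mul _ _ _
      _ ≤ ∑ t ∈ hAfin.toFinset, Nat.card V := Finset.sum_le_sum fun t _ => hBc t
      _ = Nat.card V * A0.ncard := by
          rw [Finset.sum_const, smul_eq_mul, Set.ncard_eq_toFinset_card _ hAfin, mul_comm]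
  have h6 := Nat.le_of_mul_le_mul_left h5 Nat.card_pos
  omega

/-- `V` has a generator killed by `ℓ ^ n` if its order is small -/
theorem red {ℓ n : ℕ} [hℓ : Fact ℓ.Prime] [Finite V] (x y : V)
    (hxy : ∀ v : V, ∃ i j : ℤ, v = x ^ i * y ^ j) (hx : x ^ ℓ ^ n ≠ 1)
    (ha : ∀ v : V, v ^ ℓ ^ (n + 1) = 1) (hc : Nat.card V < ℓ ^ (2 * (n + 1))) :
    ∃ y' : V, y' ^ ℓ ^ n = 1 ∧ ∀ v : V, ∃ i j : ℤ, v = x ^ i * y' ^ j := by
  by_cases hY : y ^ ℓ ^ n ∈ Subgroup.zpowers (x ^ ℓ ^ n)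
  · obtain ⟨k, hk⟩ := Subgroup.mem_zpowers_iff.1 hY
    refine ⟨y * x ^ (-k), ?_, fun v => ?_⟩
    · rw [mul_pow, ← hk, ← zpow_natCast (x ^ (-k)), ← zpow_mul, ← zpow_natCast x (ℓ ^ n),
        ← zpow_mul, ← zpow_add]
      have h1 : ((ℓ ^ n : ℕ) : ℤ) * k + -k * ((ℓ ^ n : ℕ) : ℤ) = 0 := by ring
      rw [h1, zpow_zero]
    · obtain ⟨i, j, rfl⟩ := hxy v
      refine ⟨i + k * j, j, ?_⟩
      have h1 : k * j + -k * j = 0 := by ring
      rw [mul_zpow, ← zpow_mul, zpow_add, mul_mul_mul_comm, ← zpow_add, h1, zpow_zero, mul_one]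
  · exfalso
    have hX : (x ^ ℓ ^ n) ^ ℓ = 1 := by rw [← pow_mul, ← pow_succ, ha]
    have hYl : (y ^ ℓ ^ n) ^ ℓ = 1 := by rw [← pow_mul, ← pow_succ, ha]
    have hXd : ∀ i : ℤ, (x ^ ℓ ^ n) ^ i = 1 → (ℓ : ℤ) ∣ i := by
      intro i hi
      have h1 : orderOf (x ^ ℓ ^ n) = ℓ := orderOf_eq_prime hX hx
      have h2 := orderOf_dvd_iff_zpow_eq_one.2 hi
      rwa [h1] at h2
    have key : ∀ i j : ℤ, x ^ i * y ^ j = 1 → ∀ k : ℕ, k ≤ n + 1 →
        ((ℓ ^ k : ℕ) : ℤ) ∣ i ∧ ((ℓ ^ k : ℕ) : ℤ) ∣ j := by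
      intro i j hij k
      induction k with
      | zero => intro _; simp
      | succ k ih =>
        intro hk
        obtain ⟨⟨i', hi'⟩, j', hj'⟩ := ih (by omega)
        have h1 : (x ^ ℓ ^ n) ^ i' * (y ^ ℓ ^ n) ^ j' = 1 := by
          have h2 : (x ^ i * y ^ j) ^ ℓ ^ (n - k) = 1 := by rw [hij, one_pow]
          rw [mul_pow, ← zpow_natCast (x ^ i), ← zpow_natCast (y ^ j), ← zpow_mul, ← zpow_mul]
            at h2
          have h3 : ((ℓ ^ k : ℕ) : ℤ) * ((ℓ ^ (n - k) : ℕ) : ℤ) = ((ℓ ^ n : ℕ) : ℤ) := by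
            rw [← Nat.cast_mul, ← pow_add]
            congr 3
            omega
          have h4 : i * ((ℓ ^ (n - k) : ℕ) : ℤ) = ((ℓ ^ n : ℕ) : ℤ) * i' := by
            rw [hi', ← h3]
            ring
          have h5 : j * ((ℓ ^ (n - k) : ℕ) : ℤ) = ((ℓ ^ n : ℕ) : ℤ) * j' := by
            rw [hj', ← h3]
            ring
          rw [h4, h5, zpow_mul, zpow_mul, zpow_natCast, zpow_natCast] at h2
          exact h2
        have h2 : (ℓ : ℤ) ∣ j' := by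
          by_contra h3
          have h4 : IsCoprime (ℓ : ℤ) j' :=
            (Nat.prime_iff_prime_int.1 hℓ.out).coprime_iff_not_dvd.2 h3
          obtain ⟨c, d, hcd⟩ := h4
          apply hY
          have h5 : y ^ ℓ ^ n = ((y ^ ℓ ^ n) ^ j') ^ d := by
            rw [← zpow_mul]
            have h5 : j' * d = 1 - ℓ * c := by linarith
            rw [h5, zpow_sub, zpow_mul, zpow_natCast, hYl, one_zpow, zpow_one, inv_one, mul_one]
          have h6 : (y ^ ℓ ^ n) ^ j' = (x ^ ℓ ^ n) ^ (-i') := by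
            rw [zpow_neg]
            exact eq_inv_of_mul_eq_one_right h1
          rw [h5, h6]
          exact Subgroup.zpow_mem _ (Subgroup.zpow_mem _ (Subgroup.mem_zpowers _) _) _
        have h3 : (ℓ : ℤ) ∣ i' := by
          obtain ⟨c, rfl⟩ := h2
          rw [zpow_mul (y ^ ℓ ^ n), zpow_natCast, hYl, one_zpow, mul_one] at h1
          exact hXd _ h1
        obtain ⟨c, rfl⟩ := h3
        obtain ⟨d, rfl⟩ := h2
        refine ⟨⟨c, ?_⟩, d, ?_⟩
        · rw [hi', pow_succ, Nat.cast_mul, mul_assoc]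
        · rw [hj', pow_succ, Nat.cast_mul, mul_assoc]
    have hy1 : y ^ ℓ ^ n ≠ 1 := fun h => hY (h ▸ Subgroup.one_mem _)
    have hox : orderOf x = ℓ ^ (n + 1) := orderOf_eq_prime_pow hx (ha x)
    have hoy : orderOf y = ℓ ^ (n + 1) := orderOf_eq_prime_pow hy1 (ha y)
    have hdis : Disjoint (Subgroup.zpowers x) (Subgroup.zpowers y) := by
      rw [Subgroup.disjoint_def]
      intro z hz hz'
      obtain ⟨i, rfl⟩ := Subgroup.mem_zpowers_iff.1 hz
      obtain ⟨j, hj⟩ := Subgroup.mem_zpowers_iff.1 hz'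
      have h1 := (key i (-j) (by rw [zpow_neg, hj, mul_inv_cancel]) (n + 1) le_rfl).1
      rw [← hox] at h1
      exact orderOf_dvd_iff_zpow_eq_one.1 h1
    have h1 := Subgroup.mul_injective_of_disjoint hdis
    have h2 := Nat.card_le_card_of_injective _ h1
    rw [Nat.card_prod, Nat.card_zpowers, Nat.card_zpowers, hox, hoy, ← pow_add] at h2
    have h3 : n + 1 + (n + 1) = 2 * (n + 1) := by ring
    rw [h3] at h2
    omega

end abstract

/-- the group theoretic statement -/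
theorem grp {G : Type} [Group G] [Finite G] {ℓ : ℕ} [hℓ : Fact ℓ.Prime] (V T : Subgroup G)
    (hT : T ≤ Subgroup.normalizer (V : Set G)) (hab : ∀ a ∈ V, ∀ b ∈ V, a * b = b * a) {a : ℕ}
    (ha : 0 < a) (hexp : Monoid.exponent V = ℓ ^ a) (hc : Nat.card V < ℓ ^ (2 * a))
    (hi : ¬ ℓ ∣ (Subgroup.centralizer (V : Set G)).relIndex T)
    (hgen : ∃ x y : G, V = Subgroup.closure {x, y}) :
    ∃ u ∈ V, orderOf u = ℓ ^ a ∧ ∀ t ∈ T, t * u * t⁻¹ = u →
      t ∈ Subgroup.centralizer (V : Set G) := by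
  obtain ⟨n, rfl⟩ : ∃ n, a = n + 1 := ⟨a - 1, by omega⟩
  let _ : CommGroup V := { (inferInstance : Group V) with
    mul_comm := fun x y => Subtype.ext (hab x x.2 y y.2) }
  obtain ⟨x0, y0, hV⟩ := hgen
  have hx0 : x0 ∈ V := by rw [hV]; exact Subgroup.subset_closure (by simp)
  have hy0 : y0 ∈ V := by rw [hV]; exact Subgroup.subset_closure (by simp)
  have htop : Subgroup.closure ({⟨x0, hx0⟩, ⟨y0, hy0⟩} : Set V) = ⊤ := by
    rw [eq_top_iff]
    intro v _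
    have h1 : (v : G) ∈ (Subgroup.closure ({⟨x0, hx0⟩, ⟨y0, hy0⟩} : Set V)).map V.subtype := by
      rw [MonoidHom.map_closure, Set.image_pair]
      exact hV.le v.2
    obtain ⟨w, hw, hwv⟩ := h1
    have h3 : w = v := Subtype.ext hwv
    rw [← h3]
    exact hw
  have hall : ∀ v : V, ∃ i j : ℤ, v = (⟨x0, hx0⟩ : V) ^ i * (⟨y0, hy0⟩ : V) ^ j := by
    intro v
    have h1 : v ∈ Subgroup.closure ({⟨x0, hx0⟩, ⟨y0, hy0⟩} : Set V) := by
      rw [htop]
      exact Subgroup.mem_top v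
    obtain ⟨i, j, h⟩ := Subgroup.mem_closure_pair.1 h1
    exact ⟨i, j, h.symm⟩
  have hpow : ∀ v : V, v ^ ℓ ^ (n + 1) = 1 := by
    intro v
    rw [← hexp]
    exact Monoid.pow_exponent_eq_one v
  set A : Subgroup (MulAut V) :=
    (T.subgroupOf (Subgroup.normalizer (V : Set G))).map V.normalizerMonoidHom with hA
  have hAc : Nat.card A = (Subgroup.centralizer (V : Set G)).relIndex T := by
    rw [hA, ← Subgroup.relIndex_ker, Subgroup.normalizerMonoidHom_ker,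
      Subgroup.relIndex_subgroupOf hT]
  have fin : ∀ x y : V, (∀ v : V, ∃ i j : ℤ, v = x ^ i * y ^ j) → x ^ ℓ ^ n ≠ 1 →
      ∃ u ∈ V, orderOf u = ℓ ^ (n + 1) ∧ ∀ t ∈ T, t * u * t⁻¹ = u →
        t ∈ Subgroup.centralizer (V : Set G) := by
    intro x y hxy hx
    obtain ⟨y', hy', hxy'⟩ := red x y hxy hx hpow hc
    obtain ⟨u, hu, hu'⟩ := cnt x y' hxy' hx hy' hpow A (by rw [hAc]; exact hi)
    refine ⟨u, u.2, ?_, fun t ht htu => ?_⟩
    · rw [Subgroup.orderOf_coe]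
      exact orderOf_eq_prime_pow hu (hpow u)
    · have h1 : V.normalizerMonoidHom ⟨t, hT ht⟩ ∈ A :=
        ⟨⟨t, hT ht⟩, ht, rfl⟩
      have h2 := hu' _ h1 (Subtype.ext htu)
      have h3 : (⟨t, hT ht⟩ : Subgroup.normalizer (V : Set G)) ∈ V.normalizerMonoidHom.ker := h2
      rw [Subgroup.normalizerMonoidHom_ker] at h3
      exact h3
  by_cases hx : (⟨x0, hx0⟩ : V) ^ ℓ ^ n = 1
  · by_cases hy : (⟨y0, hy0⟩ : V) ^ ℓ ^ n = 1
    · exfalso
      have h1 : Monoid.exponent V ∣ ℓ ^ n := by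
        refine Monoid.exponent_dvd_of_forall_pow_eq_one fun v => ?_
        obtain ⟨i, j, rfl⟩ := hall v
        rw [mul_pow, ← zpow_natCast, ← zpow_mul, mul_comm i, zpow_mul, zpow_natCast, hx, one_zpow,
          ← zpow_natCast, ← zpow_mul, mul_comm j, zpow_mul, zpow_natCast, hy, one_zpow, one_mul]
      rw [hexp, Nat.pow_dvd_pow_iff_le_right hℓ.out.one_lt] at h1
      omega
    · refine fin ⟨y0, hy0⟩ ⟨x0, hx0⟩ (fun v => ?_) hy
      obtain ⟨i, j, h⟩ := hall v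
      exact ⟨j, i, by rw [h, mul_comm]⟩
  · exact fin _ _ hall hx

open Pool.Agent.Helper51_AWC Pool.Agent.Helper79_WRA Pool.Agent.PP Pool.Agent.PP.KF
open Pool.Agent.PP.K9 Pool.Agent.PP.K9.H97 Pool.Agent.PP.H75 Pool.Agent.PP.T3

/-- UX2 -/
theorem ux2 : Ux2Stmt := by
  intro ℓ _ F _ _ G _ _ e V γ hL a ha hexp hc hi hgen
  obtain ⟨u, huV, hou, hu⟩ := grp V (Tg V γ) inf_le_left hL.ab ha hexp hc hi hgen
  refine ⟨u, ⟨huV, ?_, ?_⟩, hou⟩
  · rintro rfl
    rw [orderOf_one] at hou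
    have h1 : 1 < ℓ ^ a := Nat.one_lt_pow ha.ne' (Fact.out : ℓ.Prime).one_lt
    omega
  · rintro t ⟨ht, htu⟩
    refine hu t ht ?_
    have h1 : t * u = u * t := (Subgroup.mem_centralizer_iff.1 htu u rfl).symm
    rw [h1, mul_inv_cancel_right]

end Pool.Agent.PP.T2.H10
end
end -- Pool.Agent.Helper10_AT2.UX2

section -- Pool.Agent.Helper39_AT2.LB2

/-!
# Squad AT2, row LB2: the bound for the number of modular characters
-/

open scoped BigOperators

noncomputable section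

namespace Pool.Agent.PP.T2.H39

open Pool.Agent.Helper51_AWC Pool.Agent.Helper79_WRA Pool.Agent.PP Pool.Agent.PP.KF
open Pool.Agent.PP.K9 Pool.Agent.PP.K9.H97 Pool.Agent.PP.H75 Pool.Agent.PP.T3

attribute [local instance] Ideal.Quotient.field

theorem lb2 (hPR : Pr2Stmt) (hU1 : Ux1Stmt) (hU2 : Ux2Stmt) (hFX : FxsStmt) (hST : StgStmt)
    (hBN : Bn2Stmt) : Lb2Stmt := by
  intro ℓ _ M _ hM h2 G _ _ e V γ hL a hT
  have hpr : ℓ.Prime := Fact.out
  have hF : GoodF ℓ (FF M) := H50.fld ℓ Fact.out M hM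
  obtain ⟨N, hN⟩ := hPR ℓ h2 G
  have hix : ¬ ℓ ∣ ix V γ :=
    H34.inx ℓ M hM G e hL.blk V hL.tp hL.ab γ hL.gam.supp hL.gam.blk hL.und
  obtain ⟨u, hu, hua⟩ : ∃ u : G, Rg V γ u ∧ orderOf u = ℓ ^ a := by
    rcases hT.gen with h | h
    · exact hU1 ℓ (FF M) hF G e V γ hL a hT.pos hT.exp h
    · exact hU2 ℓ (FF M) hF G e V γ hL a hT.pos hT.exp hT.small hix h
  have h3 := hFX ℓ M hM G N hN e hL.blk.1 (fun y hy hy2 b hb heb g hg =>
    hST ℓ M hM G N hN e V γ hL y hy hy2 b hb heb g hg)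
  have h4 := hBN ℓ M hM G N hN e V γ hL u a hu hT.pos hua
  obtain ⟨k, hk⟩ := (IsPGroup.iff_card.1 hL.tp.pg)
  have h5 := hT.small
  rw [hk] at h5 h4
  have h6 : k < 2 * a := (Nat.pow_lt_pow_iff_right hpr.one_lt).1 h5
  have h7 : ln e * ℓ ^ (a - 1) ≤ ℓ ^ a * ℓ ^ (a - 1) := by
    calc ln e * ℓ ^ (a - 1) ≤ _ := Nat.mul_le_mul_right _ h3
      _ ≤ ℓ ^ k := h4
      _ ≤ ℓ ^ (a + (a - 1)) := Nat.pow_le_pow_right hpr.pos (by have := hT.pos; omega)
      _ = ℓ ^ a * ℓ ^ (a - 1) := pow_add _ _ _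
  exact Nat.le_of_mul_le_mul_right h7 (pow_pos hpr.pos _)

end Pool.Agent.PP.T2.H39
end
end -- Pool.Agent.Helper39_AT2.LB2

section -- Pool.Agent.Helper39_AT2.VJC

/-!
# Squad AT2, row VJC: the values of the fixed characters
-/

open scoped BigOperators

noncomputable section

namespace Pool.Agent.PP.T2.H39

open Pool.Agent.Helper51_AWC Pool.Agent.Helper79_WRA Pool.Agent.PP Pool.Agent.PP.KF
open Pool.Agent.PP.K9 Pool.Agent.PP.K9.H97 Pool.Agent.PP.H75 Pool.Agent.PP.T3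

attribute [local instance] Ideal.Quotient.field

theorem reg_coe' {ℓ : ℕ} {G : Type} [Group G] {C : Subgroup G} {s : C} (hs : Reg ℓ s) :
    Reg ℓ (s : G) := by
  unfold Reg at hs ⊢
  rwa [Subgroup.orderOf_coe]

theorem vjc : VjcStmt := by
  intro ℓ _ M _ hM G _ _ N hN u hu b hb χ hχ hfix j j' hj hjj
  obtain ⟨k, hk⟩ := hN.gen j j' hj hjj
  unfold gv gbv
  refine finsum_congr fun c => ?_
  by_cases hc : Reg ℓ c
  · have hc' : Reg ℓ (c : G) := reg_coe' hc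
    have hcomm : Commute u (c : G) := (Subgroup.mem_centralizer_singleton_iff.1 c.2).symm
    have key : ∀ i : ℕ, χ ((u ^ j) ^ N ^ i * c) = χ (u ^ j * c) := by
      intro i
      induction i with
      | zero => rw [pow_zero, pow_one]
      | succ i ih =>
        have h1 : Commute ((u ^ j) ^ N ^ i) (c : G) := (hcomm.pow_left j).pow_left _
        rw [← ih, ← hfix ((u ^ j) ^ N ^ i * c), h1.mul_pow, hN.reg c hc', ← pow_mul (u ^ j),
          ← pow_succ]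
    rw [← hk u hu, key]
  · have := Fintype.ofFinite (Cu u)
    rw [H25.eh_sing (H82W.wbo (H82.trb H53.tra)) ℓ M hM _ hb.idem c hc, zero_mul, zero_mul]

end Pool.Agent.PP.T2.H39
end
end -- Pool.Agent.Helper39_AT2.VJC

section -- Pool.Agent.Helper53_AT2.FN2

/-!
# Squad AT2, module FN2: the final theorem for defect groups of rank two
-/

open scoped BigOperators

noncomputable section

namespace Pool.Agent.PP.T2.H53

open Pool.Agent.Helper51_AWC Pool.Agent.Helper79_WRA Pool.Agent.PP Pool.Agent.PP.KF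
open Pool.Agent.PP.K9 Pool.Agent.PP.K9.H97 Pool.Agent.PP.H75 Pool.Agent.PP.T3

attribute [local instance] Ideal.Quotient.field

/-- two surjections with the same kernel -/
def eqv {D V W : Type} [Group D] [Group V] [Group W] (ψ : D →* V) (φ : D →* W)
    (hψ : Function.Surjective ψ) (hφ : Function.Surjective φ) (h : ψ.ker = φ.ker) : V ≃* W :=
  (QuotientGroup.quotientKerEquivOfSurjective ψ hψ).symm.trans
    ((QuotientGroup.quotientMulEquivOfEq h).trans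
      (QuotientGroup.quotientKerEquivOfSurjective φ hφ))

/-- the abelian group of rank two -/
abbrev W2 (m n : ℕ) : Type := Multiplicative (ZMod m) × Multiplicative (ZMod n)

theorem exp_cyc (n : ℕ) : Monoid.exponent (Multiplicative (ZMod n)) = n := by
  rw [IsCyclic.exponent_eq_card, Nat.card_congr Multiplicative.toAdd, Nat.card_zmod]

theorem exp_W2 {ℓ : ℕ} (a b : ℕ) : Monoid.exponent (W2 (ℓ ^ a) (ℓ ^ b)) = ℓ ^ max a b := by
  rw [Monoid.exponent_prod, exp_cyc, exp_cyc]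
  rcases le_total a b with h | h
  · rw [max_eq_right h]
    exact Nat.lcm_eq_right (pow_dvd_pow ℓ h)
  · rw [max_eq_left h]
    exact Nat.lcm_eq_left (pow_dvd_pow ℓ h)

theorem gen_W2 (m n : ℕ) (w : W2 m n) : ∃ i j : ℤ,
    w = ((Multiplicative.ofAdd (1 : ZMod m), 1) : W2 m n) ^ i *
      ((1, Multiplicative.ofAdd (1 : ZMod n)) : W2 m n) ^ j := by
  obtain ⟨x, y⟩ := w
  obtain ⟨i, hi⟩ := ZMod.intCast_surjective (Multiplicative.toAdd x)
  obtain ⟨j, hj⟩ := ZMod.intCast_surjective (Multiplicative.toAdd y)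
  refine ⟨i, j, ?_⟩
  ext
  · change x = (Multiplicative.ofAdd (1 : ZMod m)) ^ i * (1 : Multiplicative (ZMod m)) ^ j
    rw [one_zpow, mul_one, ← ofAdd_zsmul, zsmul_one, hi]
    rfl
  · change y = (1 : Multiplicative (ZMod n)) ^ i * (Multiplicative.ofAdd (1 : ZMod n)) ^ j
    rw [one_zpow, one_mul, ← ofAdd_zsmul, zsmul_one, hj]
    rfl

/-- FN2 -/
theorem fn2 (hT2A : T2aStmt) (hDZA : DzaStmt) : Fn2Stmt := by
  classical
  intro ℓ hfact M _ hM hℓ2 G _ _ hc χ hχ D hD a b hab φ hφ hker0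
  have hℓ : ℓ.Prime := hfact.out
  have hF : GoodF ℓ (FF M) := H50.fld ℓ hℓ M hM
  have hn : (opCore ℓ G).Normal := H75.opCore_normal (A := G) ℓ
  obtain ⟨e, he, h1, h2⟩ := H50.bid ℓ hℓ M hM G χ hχ
  let p : G →* G ⧸ opCore ℓ G := QuotientGroup.mk' (opCore ℓ G)
  have hker : p.ker = opCore ℓ G := QuotientGroup.ker_mk' _
  have hsurj : Function.Surjective p := QuotientGroup.mk'_surjective (opCore ℓ G)
  have hkp : IsPGroup ℓ p.ker := by
    rw [hker]
    exact H75.opCore_isPGroup hℓ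
  have hkc : p.ker ≤ Subgroup.center G := by
    rw [hker]
    exact hc
  have hcomm : ∀ x ∈ D, ∀ y ∈ D, x * y * x⁻¹ * y⁻¹ ∈ opCore ℓ G := by
    intro x hx y hy
    have h3 : φ ((⟨x, hx⟩ : D) * ⟨y, hy⟩ * (⟨x, hx⟩ : D)⁻¹ * (⟨y, hy⟩ : D)⁻¹) = 1 := by
      rw [map_mul, map_mul, map_mul, map_inv, map_inv,
        mul_comm (φ (⟨x, hx⟩ : D)) (φ (⟨y, hy⟩ : D)), mul_inv_cancel_right, mul_inv_cancel]
    exact (hker0 _).1 h3
  obtain ⟨hblk, -, -, γ, hL⟩ := hDZA ℓ M hM G hc χ hχ D hD hcomm e he h1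
    (G ⧸ opCore ℓ G) p hsurj hker
  have heq := H75.altSum_central H20.nls H20.brm H63.smt H94.nch
    (H50.dic H20.ibn H20.nls H20.brm) hℓ M hM hF hsurj hker hkp hkc χ hχ e he h1 h2
  -- the defect group
  let V : Subgroup (G ⧸ opCore ℓ G) := D.map p
  have hL' : Ld ℓ (push p e) V γ := hL
  let ψ : D →* V := p.subgroupMap D
  have hψ : Function.Surjective ψ := p.subgroupMap_surjective D
  have hkk : ψ.ker = φ.ker := by
    ext x
    rw [MonoidHom.mem_ker, MonoidHom.mem_ker, hker0]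
    have h3 : (x : G) ∈ opCore ℓ G ↔ p (x : G) = 1 := by
      rw [← MonoidHom.mem_ker]
      exact (iff_of_eq (congrArg (fun S : Subgroup G => (x : G) ∈ S) hker)).symm
    rw [h3]
    exact Subtype.ext_iff
  let E : V ≃* W2 (ℓ ^ a) (ℓ ^ b) := eqv ψ φ hψ hφ hkk
  have hcardV : Nat.card V = ℓ ^ (a + b) := by
    rw [Nat.card_congr E.toEquiv, Nat.card_prod, Nat.card_congr Multiplicative.toAdd, Nat.card_zmod,
      Nat.card_congr Multiplicative.toAdd, Nat.card_zmod, pow_add]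
  have hTy : Ty ℓ (max a b) V (ix V γ) := by
    refine ⟨by omega, ?_, ?_, Or.inr ?_⟩
    · rw [Monoid.exponent_eq_of_mulEquiv E, exp_W2]
    · rw [hcardV]
      exact Nat.pow_lt_pow_right hℓ.one_lt (by omega)
    · refine ⟨((E.symm (Multiplicative.ofAdd (1 : ZMod (ℓ ^ a)), 1) : V) : G ⧸ opCore ℓ G),
        ((E.symm (1, Multiplicative.ofAdd (1 : ZMod (ℓ ^ b))) : V) : G ⧸ opCore ℓ G), ?_⟩
      apply le_antisymm
      · intro v hv
        obtain ⟨i, j, hij⟩ := gen_W2 (ℓ ^ a) (ℓ ^ b) (E ⟨v, hv⟩)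
        have h3 : (⟨v, hv⟩ : V) =
            (E.symm (Multiplicative.ofAdd (1 : ZMod (ℓ ^ a)), 1)) ^ i *
            (E.symm (1, Multiplicative.ofAdd (1 : ZMod (ℓ ^ b)))) ^ j := by
          rw [← map_zpow, ← map_zpow, ← map_mul, ← hij, MulEquiv.symm_apply_apply]
        have h4 := congrArg (fun t : V => (t : G ⧸ opCore ℓ G)) h3
        change v = _ at h4
        rw [h4]
        change ((E.symm (Multiplicative.ofAdd (1 : ZMod (ℓ ^ a)), 1) : V) : G ⧸ opCore ℓ G) ^ i *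
          ((E.symm (1, Multiplicative.ofAdd (1 : ZMod (ℓ ^ b))) : V) : G ⧸ opCore ℓ G) ^ j ∈ _
        refine mul_mem (Subgroup.zpow_mem _ (Subgroup.subset_closure ?_) _)
          (Subgroup.zpow_mem _ (Subgroup.subset_closure ?_) _)
        · exact Or.inl rfl
        · exact Or.inr rfl
      · rw [Subgroup.closure_le]
        rintro x (rfl | rfl)
        · exact SetLike.coe_mem _
        · exact SetLike.coe_mem _
  have h0 : YY ℓ (⊤ : Subgroup (G ⧸ opCore ℓ G)) (push p e) = 0 :=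
    hT2A ℓ M hM hℓ2 (max a b) (G ⧸ opCore ℓ G) (push p e) V γ hL' hTy
  rw [h0, mul_zero] at heq
  rcases mul_eq_zero.1 heq with h | h
  · exact absurd h (by exact_mod_cast (Nat.card_pos (α := G)).ne')
  · exact h

end Pool.Agent.PP.T2.H53
end
end -- Pool.Agent.Helper53_AT2.FN2

section -- Pool.Agent.Helper69_AT2.Fn3

/-!
FN3: the final theorem of the squad AT2, inertial index smaller than `ℓ`.
-/

open scoped BigOperators

noncomputable section

namespace Pool.Agent.PP.T2.H69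

open Pool.Agent.Helper51_AWC Pool.Agent.Helper79_WRA Pool.Agent.PP Pool.Agent.PP.KF
open Pool.Agent.PP.K9 Pool.Agent.PP.K9.H97 Pool.Agent.PP.H75 Pool.Agent.PP.T3

attribute [local instance] Ideal.Quotient.field

/-- the centraliser of `V` is contained in the inertial group of `γ` -/
theorem cent_le_Tg {ℓ : ℕ} {F : Type} [Field F] {G : Type} [Group G] [Finite G] {e : G → F}
    {V : Subgroup G} {γ : G → F} (h : Ld ℓ e V γ) :
    Subgroup.centralizer (V : Set G) ≤ Tg V γ := by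
  intro c hc
  refine Subgroup.mem_inf.2 ⟨?_, ?_⟩
  · rw [Subgroup.mem_normalizer_iff]
    intro x
    rw [Subgroup.mem_centralizer_iff] at hc
    constructor
    · intro hx
      have h1 := hc x hx
      rw [← h1, mul_inv_cancel_right]
      exact hx
    · intro hx
      have h1 := hc _ hx
      have h2 : x = c⁻¹ * (c * x * c⁻¹) * c := by group
      have h3 : c⁻¹ * (c * x * c⁻¹) * c = c * x * c⁻¹ := by
        rw [mul_assoc, h1, inv_mul_cancel_left]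
      rw [h2, h3]
      exact hx
  · exact (cj_eq_iff _ _).1 (h.gam.ix.inv hc)


/-- QT1 and QT2 together, with the explicit defect group -/
theorem qtx (hQT1 : Qt1Stmt) (hLCJ : LcjStmt) (hQT2 : Qt2Stmt) (ℓ : ℕ) [Fact ℓ.Prime]
    (M : Ideal (integralClosure ℤ ℂ)) [M.IsMaximal] (hM : (ℓ : integralClosure ℤ ℂ) ∈ M)
    (G : Type) [Group G] [Finite G] (e : G → FF M) (V : Subgroup G) (γ : G → FF M)
    (hL : Ld ℓ e V γ) (Q : Subgroup G) (hQ : IsPGroup ℓ Q) (A : Type) [Group A] [Finite A]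
    (p : Subgroup.normalizer (Q : Set G) →* A) (hp : Function.Surjective p)
    (hker : p.ker = Q.subgroupOf (Subgroup.normalizer (Q : Set G))) (f : A → FF M) (hf : IsBlk f)
    (hff : mulF (push p (fun t : Subgroup.normalizer (Q : Set G) => br Q e t)) f = f) :
    ∃ (k : G) (γ' : A → FF M), Q ≤ conjS k V ∧
      conjS k V ≤ Subgroup.normalizer (Q : Set G) ∧
      Ld ℓ f (((conjS k V).subgroupOf (Subgroup.normalizer (Q : Set G))).map p) γ' ∧
      Nat.card (((conjS k V).subgroupOf (Subgroup.normalizer (Q : Set G))).map p) *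
        Nat.card Q = Nat.card V ∧
      ix (((conjS k V).subgroupOf (Subgroup.normalizer (Q : Set G))).map p) γ' ≤ ix V γ := by
  have hF : GoodF ℓ (FF M) := H50.fld ℓ Fact.out M hM
  obtain ⟨k, hk, hT⟩ := hQT1 ℓ M hM G e V γ hL Q hQ A p hp hker f hf hff
  obtain ⟨hL', hix⟩ := hLCJ ℓ (FF M) hF G e V γ hL k
  obtain ⟨γ', hγ', hix'⟩ := hQT2 ℓ M hM G e (conjS k V) (cj k γ) hL' Q hk A p hp hker f hf hff hT
  have hcard : Nat.card (conjS k V) = Nat.card V :=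
    (Nat.card_congr (V.equivMapOfInjective (MulAut.conj k).toMonoidHom
      (MulAut.conj k).injective).toEquiv).symm
  have hVN : conjS k V ≤ Subgroup.normalizer (Q : Set G) := by
    intro v hv
    rw [Subgroup.mem_normalizer_iff]
    intro h
    have hab := hL'.ab
    constructor
    · intro hh
      rw [hab v hv h (hk hh), mul_inv_cancel_right]
      exact hh
    · intro hh
      have h1 := hab v hv _ (hk hh)
      have h2 : v * h = v * (v * h * v⁻¹) := by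
        rw [h1]
        group
      rw [mul_left_cancel h2]
      exact hh
  refine ⟨k, γ', hk, hVN, hγ', ?_, hix'.trans hix.le⟩
  obtain ⟨W, hW⟩ : ∃ W : Subgroup (Subgroup.normalizer (Q : Set G)),
      W = (conjS k V).subgroupOf (Subgroup.normalizer (Q : Set G)) := ⟨_, rfl⟩
  have hWc : Nat.card W = Nat.card (conjS k V) := by
    rw [hW]
    exact Nat.card_congr (Subgroup.subgroupOfEquivOfLe hVN).toEquiv
  have hkW : p.ker ≤ W := by
    rw [hker, hW]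
    exact Subgroup.comap_mono hk
  have hQc : Nat.card p.ker = Nat.card Q := by
    rw [hker]
    exact Nat.card_congr (Subgroup.subgroupOfEquivOfLe Subgroup.le_normalizer).toEquiv
  rw [← hW, ← hcard, ← hWc, ← hQc, mul_comm]
  have h1 : Nat.card (p.ker.subgroupOf W) * (p.ker.subgroupOf W).index = Nat.card W :=
    Subgroup.card_mul_index _
  have h2 : Nat.card (p.ker.subgroupOf W) = Nat.card p.ker :=
    Nat.card_congr (Subgroup.subgroupOfEquivOfLe hkW).toEquiv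
  have h3 : (p.ker.subgroupOf W).index = Nat.card (W.map p) := by
    have h4 : (p.comp W.subtype).ker = p.ker.subgroupOf W := rfl
    rw [← h4, Subgroup.index_ker]
    congr 1
    rw [MonoidHom.range_comp, Subgroup.range_subtype]
  rw [← h3, ← h2]
  exact h1

theorem fn3 (hP : PsgStmt) (hF : FltStmt) (hQ1 : Qt1Stmt) (hLCJ : LcjStmt) (hQ2 : Qt2Stmt)
    (hT : T2aStmt) : Fn3Stmt := by
  intro ℓ hfact M _ hM h2l G _ _ hc χ hχ D hD hab a ha hxa hxb hDc θ hθ hI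
  have hℓ := hfact.out
  have hGF : GoodF ℓ (FF M) := H50.fld ℓ hℓ M hM
  obtain ⟨e, he, h1, h2⟩ := H50.bid ℓ hℓ M hM G χ hχ
  have hn : (opCore ℓ G).Normal := H75.opCore_normal (A := G) ℓ
  obtain ⟨p, hp⟩ : ∃ p : G →* G ⧸ opCore ℓ G, p = QuotientGroup.mk' (opCore ℓ G) := ⟨_, rfl⟩
  have hker : p.ker = opCore ℓ G := by
    rw [hp]
    exact QuotientGroup.ker_mk' _
  have hsurj : Function.Surjective p := by
    rw [hp]
    exact QuotientGroup.mk'_surjective (opCore ℓ G)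
  have hkp : IsPGroup ℓ p.ker := by
    rw [hker]
    exact H75.opCore_isPGroup hℓ
  have hkc : p.ker ≤ Subgroup.center G := by
    rw [hker]
    exact hc
  have heq := H75.altSum_central H20.nls H20.brm H63.smt H94.nch
    (H50.dic H20.ibn H20.nls H20.brm) hℓ M hM hGF hsurj hker hkp hkc χ hχ e he h1 h2
  have hbf : IsBlk (push p e) := hP ℓ (FF M) hGF G (G ⧸ opCore ℓ G) p hsurj hkc hkp e he
  obtain ⟨γ, hγ, hTg⟩ := hF ℓ M hM G χ hχ e he h1 D hD hab θ hθ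
  have hix : ix D γ < ℓ := by
    have e1 : ix D γ * Nat.card (Subgroup.centralizer (D : Set G)) = Nat.card (Tg D γ) := by
      unfold ix
      rw [mul_comm]
      have := Subgroup.card_mul_index ((Subgroup.centralizer (D : Set G)).subgroupOf (Tg D γ))
      rw [Nat.card_congr (Subgroup.subgroupOfEquivOfLe (cent_le_Tg hγ)).toEquiv] at this
      exact this
    have e2 : (Iner M D θ).ncard = Nat.card (Tg D γ) := by
      rw [← hTg]
      rfl
    rw [e2, ← e1] at hI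
    exact Nat.lt_of_mul_lt_mul_right hI
  -- the normaliser of the core
  obtain ⟨q, hq⟩ : ∃ q : Subgroup.normalizer (opCore ℓ G : Set G) →* G ⧸ opCore ℓ G,
      q = p.comp (Subgroup.normalizer (opCore ℓ G : Set G)).subtype := ⟨_, rfl⟩
  have hnt : Subgroup.normalizer (opCore ℓ G : Set G) = ⊤ :=
    Subgroup.normalizer_eq_top (opCore ℓ G)
  have hqs : Function.Surjective q := by
    intro y
    obtain ⟨x, hx⟩ := hsurj y
    refine ⟨⟨x, hnt ▸ Subgroup.mem_top x⟩, ?_⟩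
    rw [hq]
    exact hx
  have hqk : q.ker = (opCore ℓ G).subgroupOf (Subgroup.normalizer (opCore ℓ G : Set G)) := by
    ext x
    rw [MonoidHom.mem_ker, Subgroup.mem_subgroupOf, hq]
    have h3 : (x : G) ∈ p.ker ↔ (x : G) ∈ opCore ℓ G := by rw [hker]
    rw [← h3, MonoidHom.mem_ker]
    rfl
  have hbr : br (opCore ℓ G) e = e := by
    funext t
    unfold br
    rw [if_pos]
    rw [Subgroup.mem_centralizer_iff]
    intro z hz
    exact (Subgroup.mem_center_iff.1 (hc hz) t).symm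
  have hpq : push q (fun t : Subgroup.normalizer (opCore ℓ G : Set G) => br (opCore ℓ G) e t) =
      push p e := by
    classical
    have := Fintype.ofFinite G
    have := Fintype.ofFinite (Subgroup.normalizer (opCore ℓ G : Set G))
    rw [hbr]
    funext y
    rw [push_eq, push_eq]
    refine Fintype.sum_bijective
      (fun x : Subgroup.normalizer (opCore ℓ G : Set G) => (x : G))
      ⟨Subtype.val_injective, fun g => ⟨⟨g, hnt ▸ Subgroup.mem_top g⟩, rfl⟩⟩ _ _ fun x => ?_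
    rw [hq]
    rfl
  have hopp : IsPGroup ℓ (opCore ℓ G) := H75.opCore_isPGroup hℓ
  obtain ⟨k, γ', hk, hkN, hV', hcard, hixle⟩ := qtx hQ1 hLCJ hQ2 ℓ M hM G e D γ hγ (opCore ℓ G) hopp
    (G ⧸ opCore ℓ G) q hqs hqk (push p e) hbf (by rw [hpq]; exact hbf.1.2)
  obtain ⟨V', hV'e⟩ : ∃ V' : Subgroup (G ⧸ opCore ℓ G), V' =
      ((conjS k D).subgroupOf (Subgroup.normalizer (opCore ℓ G : Set G))).map q := ⟨_, rfl⟩
  rw [← hV'e] at hV' hcard hixle
  have hq1 : ∀ x : Subgroup.normalizer (opCore ℓ G : Set G), q x = 1 ↔ (x : G) ∈ opCore ℓ G := by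
    intro x
    rw [← MonoidHom.mem_ker, hqk, Subgroup.mem_subgroupOf]
  have hmem : ∀ y, y ∈ V' → ∃ x ∈ D, ∃ hx : k * x * k⁻¹ ∈ Subgroup.normalizer (opCore ℓ G : Set G),
      y = q ⟨k * x * k⁻¹, hx⟩ := by
    intro y hy
    rw [hV'e] at hy
    obtain ⟨z, hz, hzy⟩ := Subgroup.mem_map.1 hy
    rw [Subgroup.mem_subgroupOf] at hz
    obtain ⟨x, hx, hxz⟩ := hz
    have hxz' : k * x * k⁻¹ = (z : G) := hxz
    refine ⟨x, hx, hxz' ▸ z.2, ?_⟩
    rw [← hzy]
    congr 1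
    exact Subtype.ext hxz'.symm
  have hpow : ∀ (x : G) (n : ℕ), (k * x * k⁻¹) ^ n = k * x ^ n * k⁻¹ := fun x n => conj_pow
  have hconj : ∀ x : G, k * x * k⁻¹ ∈ opCore ℓ G ↔ x ∈ opCore ℓ G := by
    intro x
    constructor
    · intro h
      have := hn.conj_mem _ h k⁻¹
      have h3 : k⁻¹ * (k * x * k⁻¹) * k⁻¹⁻¹ = x := by group
      rwa [h3] at this
    · intro h
      exact hn.conj_mem _ h k
  have hq2 : ∀ (x : G) (hx : k * x * k⁻¹ ∈ Subgroup.normalizer (opCore ℓ G : Set G)) (n : ℕ),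
      q ⟨k * x * k⁻¹, hx⟩ ^ n = 1 ↔ x ^ n ∈ opCore ℓ G := by
    intro x hx n
    rw [← map_pow, hq1, ← hconj (x ^ n), ← hpow]
    rfl
  have hexp : Monoid.exponent V' = ℓ ^ a := by
    have hd : Monoid.exponent V' ∣ ℓ ^ a := by
      rw [Monoid.exponent_dvd_iff_forall_pow_eq_one]
      rintro ⟨y, hy⟩
      obtain ⟨x, hx, hx', rfl⟩ := hmem y hy
      exact Subtype.ext ((hq2 x hx' _).2 (hxa x hx))
    obtain ⟨j, hj, hje⟩ := (Nat.dvd_prime_pow hℓ).1 hd
    rcases Nat.lt_or_ge j a with hja | hja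
    · exfalso
      obtain ⟨x, hx, hxn⟩ := hxb
      have hxk : k * x * k⁻¹ ∈ conjS k D := ⟨x, hx, rfl⟩
      have hxN : k * x * k⁻¹ ∈ Subgroup.normalizer (opCore ℓ G : Set G) := hkN hxk
      have hyV : q ⟨k * x * k⁻¹, hxN⟩ ∈ V' := by
        rw [hV'e]
        exact Subgroup.mem_map_of_mem _ (Subgroup.mem_subgroupOf.2 hxk)
      have h3 : (⟨q ⟨k * x * k⁻¹, hxN⟩, hyV⟩ : V') ^ ℓ ^ (a - 1) = 1 := by
        have h4 : Monoid.exponent V' ∣ ℓ ^ (a - 1) := by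
          rw [hje]
          exact pow_dvd_pow _ (by omega)
        exact (Monoid.exponent_dvd_iff_forall_pow_eq_one.1 h4) _
      have h4 : q ⟨k * x * k⁻¹, hxN⟩ ^ ℓ ^ (a - 1) = 1 := congrArg Subtype.val h3
      exact hxn ((hq2 x hxN _).1 h4)
    · rw [hje, le_antisymm hj hja]
  have hsmall : Nat.card V' < ℓ ^ (2 * a) := by
    rw [← hcard] at hDc
    exact Nat.lt_of_mul_lt_mul_right hDc
  have hty : Ty ℓ a V' (ix V' γ') := ⟨ha, hexp, hsmall, Or.inl (lt_of_le_of_lt hixle hix)⟩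
  have h0 : YY ℓ (⊤ : Subgroup (G ⧸ opCore ℓ G)) (push p e) = 0 :=
    hT ℓ M hM h2l a (G ⧸ opCore ℓ G) (push p e) V' γ' hV' hty
  rw [h0, mul_zero] at heq
  rcases mul_eq_zero.1 heq with h | h
  · exact absurd h (by exact_mod_cast (Nat.card_pos (α := G)).ne')
  · exact h

end Pool.Agent.PP.T2.H69
end
end -- Pool.Agent.Helper69_AT2.Fn3

section -- Pool.Agent.Helper81_AT2.STG

/-!
# Squad AT2, row STG: no pair `(y, b)`, `y ^ ℓ ≠ 1`, is conjugate to `(y ^ (1 + ℓ), b)`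
(adapted from row NST of squad AT3, `Helper3_AT3/DUG.lean`)
-/

open scoped BigOperators

set_option autoImplicit false

noncomputable section

namespace Pool.Agent.PP.T2.H81

open Pool.Agent.Helper51_AWC Pool.Agent.Helper79_WRA Pool.Agent.PP Pool.Agent.PP.KF
open Pool.Agent.PP.K9 Pool.Agent.PP.K9.H97 Pool.Agent.PP.T3 Pool.Agent.PP.T2

attribute [local instance] Ideal.Quotient.field

/-- the `|T : C(V)|`-th power of an element of `T` centralises `V` -/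
theorem pow_ix {G : Type} [Group G] [Finite G] {F : Type} [Field F] (V : Subgroup G) (γ : G → F)
    {t : G} (ht : t ∈ Tg V γ) : t ^ ix V γ ∈ Subgroup.centralizer (V : Set G) := by
  have hn : ((Subgroup.centralizer (V : Set G)).subgroupOf (Tg V γ)).Normal := by
    refine ⟨?_⟩
    rintro ⟨x, hx⟩ hxc ⟨s, hs⟩
    rw [Subgroup.mem_subgroupOf] at hxc ⊢
    change s * x * s⁻¹ ∈ Subgroup.centralizer (V : Set G)
    change x ∈ Subgroup.centralizer (V : Set G) at hxc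
    rw [Subgroup.mem_centralizer_iff] at hxc ⊢
    intro v hv
    have hsN : s ∈ Subgroup.normalizer (V : Set G) := (Subgroup.mem_inf.1 hs).1
    have h1 : s⁻¹ * v * s ∈ V := by
      have h2 := (Subgroup.mem_normalizer_iff.1 (Subgroup.inv_mem _ hsN) v).1 hv
      rwa [inv_inv] at h2
    have h3 := hxc _ h1
    calc v * (s * x * s⁻¹) = s * ((s⁻¹ * v * s) * x) * s⁻¹ := by group
      _ = s * (x * (s⁻¹ * v * s)) * s⁻¹ := by rw [h3]
      _ = s * x * s⁻¹ * v := by group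
  have h := Subgroup.pow_index_mem ((Subgroup.centralizer (V : Set G)).subgroupOf (Tg V γ)) ⟨t, ht⟩
  rw [Subgroup.mem_subgroupOf] at h
  exact h

/-- STG -/
theorem stg (dug : DugStmt) (lpw : LpwStmt) (fus : FusStmt) (lcj : LcjStmt) : StgStmt := by
  intro ℓ hfact M _ hM G _ _ N hN e V γ hL y hyl hy1 b hb heb g hg hgb
  have hF : GoodF ℓ (FF M) := H50.fld ℓ hfact.out M hM
  have hpr : ℓ.Prime := hfact.out
  have hC : Subgroup.centralizer ((Subgroup.zpowers y : Subgroup G) : Set G) = Cu y := by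
    ext x
    rw [Subgroup.mem_centralizer_iff, Subgroup.mem_centralizer_singleton_iff]
    constructor
    · intro h
      exact (h y (Subgroup.mem_zpowers y)).symm
    · intro h z hz
      obtain ⟨k, rfl⟩ := Subgroup.mem_zpowers_iff.1 hz
      exact ((show Commute x y from h).zpow_right k).eq.symm
  have hQ : IsPGroup ℓ (Subgroup.zpowers y) := by
    obtain ⟨n, hn⟩ := hyl
    rintro ⟨z, hz⟩
    obtain ⟨k, rfl⟩ := Subgroup.mem_zpowers_iff.1 hz
    refine ⟨n, Subtype.ext ?_⟩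
    show (y ^ k) ^ ℓ ^ n = 1
    rw [← zpow_natCast, ← zpow_mul, mul_comm, zpow_mul, zpow_natCast, hn, one_zpow]
  obtain ⟨P, hQP, hPC, hP, hPV, hgP⟩ := dug ℓ M hM G e hL.blk V hL.tp hL.ab (Subgroup.zpowers y) hQ
    b (by rw [hC]; exact hb) (by rw [hC]; exact heb)
  have hyP : y ∈ P := hQP (Subgroup.mem_zpowers y)
  rw [hC] at hPC
  have hbQ : Bx (Subgroup.centralizer ((Subgroup.zpowers y : Subgroup G) : Set G)) b := by
    rw [hC]
    exact hb
  have hunQ : mulF (br (Subgroup.zpowers y) e) b = b :=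
    T3.H3.under_iff hbQ (by rw [hC]; exact heb)
  -- `P` is good for `e`
  have hCC : Subgroup.centralizer (P : Set G) ≤ Cu y := by
    rw [← hC]
    exact Subgroup.centralizer_le (show ((Subgroup.zpowers y : Subgroup G) : Set G) ⊆ P from hQP)
  have hinvP : H66.Inv P b := fun p hp t => C2.H3.ix_inv hb.ix (hPC hp) t
  have hIb : Ix (Subgroup.centralizer (P : Set G)) (br P b) :=
    C2.H3.ix_br hF hP (fun z hz x => C2.H3.ix_inv hb.ix (hCC hz) x) hinvP hb.mul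
  have hIQ : Ix (Subgroup.centralizer ((Subgroup.zpowers y : Subgroup G) : Set G))
      (br (Subgroup.zpowers y) e) :=
    C2.H3.ix_br hF hQ (fun z _ x => hL.blk.1.1 x z) (H66.IsCl.inv hL.blk.1.1 _) hL.blk.1.2
  have hinvQ : H66.Inv P (br (Subgroup.zpowers y) e) := fun p hp t =>
    C2.H3.ix_inv hIQ (by rw [hC]; exact hPC hp) t
  have hPe : mulF (br P e) (br P b) = br P b := by
    have h1 := congrArg (br P) hunQ
    rwa [H66.br_mulF hF hP hinvQ hinvP, C2.H3.br_br hQP] at h1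
  have hbrb : br P b ≠ 0 := C2.H3.br_ne_of_gd hgP
  have hGe : Gd e P := by
    apply C2.H3.gd_of_br'
    intro h0
    apply hbrb
    rw [← hPe, h0, H75.mulF_zero_left]
  -- the conjugate
  obtain ⟨k, hk⟩ := (K9.H69.fmg ℓ M hM G e hL.blk V hL.tp).1 P hP hGe
  have hPk : P = conjS k V := by
    refine Subgroup.eq_of_le_of_card_ge hk ?_
    rw [card_conjS, hPV]
  obtain ⟨hL1, hix1⟩ := lcj ℓ (FF M) hF G e V γ hL k
  rw [← hPk] at hL1 hix1
  -- the block of `C(P)`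
  obtain ⟨γ₀, hγ₀, hgγ, -⟩ := K9.H24.exists_blk
    (L := fun a : Subgroup.centralizer (P : Set G) → FF M => a) rfl
    (fun a b => rfl) hIb.idem (by
      intro h
      apply hbrb
      exact H75.eq_of_res hIb.supp (fun _ _ => rfl) h)
  obtain ⟨γ₁, hγ₁⟩ : ∃ γ₁ : G → FF M,
      γ₁ = H75.ext0 (Subgroup.centralizer (P : Set G)) γ₀ := ⟨_, rfl⟩
  have hγs : ∀ x, x ∉ Subgroup.centralizer (P : Set G) → γ₁ x = 0 := by
    rw [hγ₁]
    exact H75.ext0_supp _ γ₀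
  have hγC : (fun t : Subgroup.centralizer (P : Set G) => γ₁ t) = γ₀ := by
    rw [hγ₁]
    exact funext (H75.ext0_apply _ γ₀)
  have hBγ : Bx (Subgroup.centralizer (P : Set G)) γ₁ := ⟨hγs, by rw [hγC]; exact hγ₀⟩
  have hbγ : mulF (br P b) γ₁ = γ₁ := by
    apply H75.eq_of_res (H75.mulF_supp _ hIb.supp hγs) hγs
    rw [H75.mulF_res _ γ₁ hIb.supp, hγC, hgγ]
  have heγ : mulF (br P e) γ₁ = γ₁ := by
    rw [← hbγ, ← H20.mulF_assoc, hPe]
  have hL2 : Ld ℓ e P γ₁ := ⟨hL.blk, hL1.tp, hL1.ab, hBγ, heγ⟩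
  have hLc : Lc e P γ₁ y b := ⟨hb, heb, hbγ⟩
  -- `N` is prime to `ℓ`
  obtain ⟨n, hn⟩ := hyl
  obtain ⟨m, _, hm⟩ := (Nat.dvd_prime_pow hpr).1 (orderOf_dvd_of_pow_eq_one hn)
  have hm2 : 2 ≤ m := by
    by_contra h
    apply hy1
    apply orderOf_dvd_iff_pow_eq_one.1
    rw [hm]
    have h1 : m ≤ 1 := by omega
    calc ℓ ^ m ∣ ℓ ^ 1 := pow_dvd_pow ℓ h1
      _ = ℓ := pow_one ℓ
  have hord : ℓ ^ 2 ∣ orderOf y := by
    rw [hm]
    exact pow_dvd_pow ℓ hm2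
  have hord1 : ℓ ∣ orderOf y := (dvd_pow_self ℓ two_ne_zero).trans hord
  have hNℓ : ¬ ℓ ∣ N := by
    intro h
    have h1 : ℓ ∣ Nat.card G := hord1.trans (orderOf_dvd_natCard y)
    have h2 := Nat.dvd_gcd h h1
    rw [hN.cop.gcd_eq_one] at h2
    exact hpr.one_lt.ne' (Nat.dvd_one.1 h2)
  obtain ⟨-, hLcN⟩ := lpw ℓ (FF M) hF G e P γ₁ hL2 y hyP b hLc N hNℓ
  obtain ⟨t, ht, hty⟩ := fus ℓ M hM G e P γ₁ hL2 (y ^ N) (P.pow_mem hyP N) y hyP b b hLcN hLc g hg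
    hgb
  rw [hN.pow y ⟨n, hn⟩] at hty
  have hpow : ∀ k : ℕ, t ^ k * y * (t ^ k)⁻¹ = y ^ (1 + ℓ) ^ k := by
    intro k
    induction k with
    | zero => rw [pow_zero, pow_zero, pow_one, one_mul, inv_one, mul_one]
    | succ k ih =>
      calc t ^ (k + 1) * y * (t ^ (k + 1))⁻¹ = t ^ k * (t * y * t⁻¹) * (t ^ k)⁻¹ := by
            rw [pow_succ]
            group
        _ = (t ^ k * y * (t ^ k)⁻¹) ^ (1 + ℓ) := by rw [hty, conj_pow]
        _ = y ^ (1 + ℓ) ^ (k + 1) := by rw [ih, ← pow_mul, pow_succ]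
  have hcen := pow_ix P γ₁ ht
  have h1 : y ^ (1 + ℓ) ^ ix P γ₁ = y ^ 1 := by
    rw [← hpow (ix P γ₁), pow_one]
    have h2 := Subgroup.mem_centralizer_iff.1 hcen y hyP
    rw [← h2, mul_inv_cancel_right]
  have h3 : (1 + ℓ) ^ ix P γ₁ ≡ 1 [MOD ℓ ^ 2] := (pow_eq_pow_iff_modEq.1 h1).of_dvd hord
  have h4 : ∀ k : ℕ, (1 + ℓ) ^ k ≡ 1 + k * ℓ [MOD ℓ ^ 2] := by
    intro k
    induction k with
    | zero => rw [pow_zero, Nat.zero_mul, Nat.add_zero]
    | succ k ih =>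
      calc (1 + ℓ) ^ (k + 1) = (1 + ℓ) ^ k * (1 + ℓ) := pow_succ _ _
        _ ≡ (1 + k * ℓ) * (1 + ℓ) [MOD ℓ ^ 2] := ih.mul_right _
        _ = 1 + (k + 1) * ℓ + k * ℓ ^ 2 := by ring
        _ ≡ 1 + (k + 1) * ℓ [MOD ℓ ^ 2] := by
          have h5 : k * ℓ ^ 2 ≡ 0 [MOD ℓ ^ 2] := (Nat.modEq_zero_iff_dvd.2 (dvd_mul_left _ _))
          exact (Nat.ModEq.refl (1 + (k + 1) * ℓ)).add h5
  have h5 : ix P γ₁ * ℓ ≡ 0 [MOD ℓ ^ 2] := by
    have h6 : 1 + ix P γ₁ * ℓ ≡ 1 + 0 [MOD ℓ ^ 2] := (h4 (ix P γ₁)).symm.trans h3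
    exact Nat.ModEq.add_left_cancel' 1 h6
  have h6 : ℓ ∣ ix P γ₁ := by
    have h7 := Nat.modEq_zero_iff_dvd.1 h5
    rw [pow_two] at h7
    exact Nat.dvd_of_mul_dvd_mul_right hpr.pos h7
  exact K9.H34.inx ℓ M hM G e hL2.blk P hL2.tp hL2.ab γ₁ hL2.gam.supp hL2.gam.blk hL2.und h6

end Pool.Agent.PP.T2.H81
end
end -- Pool.Agent.Helper81_AT2.STG

section -- Pool.Agent.Helper74_ATW.FNZ

/-!
# Squad ATW, row FNZ: the final theorem for the prime `ℓ`, from the theorem for block idempotents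
-/

open scoped BigOperators

noncomputable section

namespace Pool.Agent.PP.TW.H74

open Pool.Agent.Helper51_AWC Pool.Agent.Helper79_WRA Pool.Agent.PP Pool.Agent.PP.KF
open Pool.Agent.PP.K9 Pool.Agent.PP.K9.H97 Pool.Agent.PP.H75 Pool.Agent.PP.T3

attribute [local instance] Ideal.Quotient.field

/-- FNZ -/
theorem fnz (hDZA : T2.DzaStmt) : FnzStmt := by
  classical
  intro ℓ hfact hTt M _ hM G _ _ hc χ hχ D hD hcomm A _ _ p hsurj hker a ha hexp hgen
  have hℓ : ℓ.Prime := hfact.out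
  have hF : GoodF ℓ (FF M) := H50.fld ℓ hℓ M hM
  have hn : (opCore ℓ G).Normal := H75.opCore_normal (A := G) ℓ
  obtain ⟨e, he, h1, h2⟩ := H50.bid ℓ hℓ M hM G χ hχ
  have hkp : IsPGroup ℓ p.ker := by
    rw [hker]
    exact H75.opCore_isPGroup hℓ
  have hkc : p.ker ≤ Subgroup.center G := by
    rw [hker]
    exact hc
  obtain ⟨hblk, -, -, γ, hL⟩ := hDZA ℓ M hM G hc χ hχ D hD hcomm e he h1 A p hsurj hker
  have heq := H75.altSum_central H20.nls H20.brm H63.smt H94.nch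
    (H50.dic H20.ibn H20.nls H20.brm) hℓ M hM hF hsurj hker hkp hkc χ hχ e he h1 h2
  have h0 : YY ℓ (⊤ : Subgroup A) (push p e) = 0 :=
    hTt M hM a ha A (push p e) (D.map p) γ hL hexp hgen
  rw [h0, mul_zero] at heq
  rcases mul_eq_zero.1 heq with h | h
  · exact absurd h (by exact_mod_cast (Nat.card_pos (α := G)).ne')
  · exact h

end Pool.Agent.PP.TW.H74
end
end -- Pool.Agent.Helper74_ATW.FNZ

section -- Pool.Agent.Helper86_ATW.ST3

/-!
# Squad ATW, row ST3: no pair `(y, b)`, `y ^ 2 ≠ 1`, is conjugate to `(y ^ 3, b)`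
(adapted from row STG of squad AT2, `Helper81_AT2/STG.lean`)
-/

open scoped BigOperators

set_option autoImplicit false

noncomputable section

namespace Pool.Agent.PP.TW.H86

open Pool.Agent.Helper51_AWC Pool.Agent.Helper79_WRA Pool.Agent.PP Pool.Agent.PP.KF
open Pool.Agent.PP.K9 Pool.Agent.PP.K9.H97 Pool.Agent.PP.H75 Pool.Agent.PP.T3 Pool.Agent.PP.T2
open Pool.Agent.PP.T5 Pool.Agent.PP.TB Pool.Agent.PP.TW

attribute [local instance] Ideal.Quotient.field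

/-- ST3 -/
theorem st3 (dug : DugStmt) (lpw : LpwStmt) (fus : FusStmt) (lcj : LcjStmt) : St3Stmt := by
  intro M _ hM G _ _ N hN e V γ hL y hyl hy1 b hb heb g hg hgb
  have hF : GoodF 2 (FF M) := H50.fld 2 Nat.prime_two M hM
  have hpr : Nat.Prime 2 := Nat.prime_two
  have hC : Subgroup.centralizer ((Subgroup.zpowers y : Subgroup G) : Set G) = Cu y := by
    ext x
    rw [Subgroup.mem_centralizer_iff, Subgroup.mem_centralizer_singleton_iff]
    constructor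
    · intro h
      exact (h y (Subgroup.mem_zpowers y)).symm
    · intro h z hz
      obtain ⟨k, rfl⟩ := Subgroup.mem_zpowers_iff.1 hz
      exact ((show Commute x y from h).zpow_right k).eq.symm
  have hQ : IsPGroup 2 (Subgroup.zpowers y) := by
    obtain ⟨n, hn⟩ := hyl
    rintro ⟨z, hz⟩
    obtain ⟨k, rfl⟩ := Subgroup.mem_zpowers_iff.1 hz
    refine ⟨n, Subtype.ext ?_⟩
    show (y ^ k) ^ 2 ^ n = 1
    rw [← zpow_natCast, ← zpow_mul, mul_comm, zpow_mul, zpow_natCast, hn, one_zpow]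
  obtain ⟨P, hQP, hPC, hP, hPV, hgP⟩ := dug 2 M hM G e hL.blk V hL.tp hL.ab (Subgroup.zpowers y) hQ
    b (by rw [hC]; exact hb) (by rw [hC]; exact heb)
  have hyP : y ∈ P := hQP (Subgroup.mem_zpowers y)
  rw [hC] at hPC
  have hbQ : Bx (Subgroup.centralizer ((Subgroup.zpowers y : Subgroup G) : Set G)) b := by
    rw [hC]
    exact hb
  have hunQ : mulF (br (Subgroup.zpowers y) e) b = b :=
    T3.H3.under_iff hbQ (by rw [hC]; exact heb)
  -- `P` is good for `e`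
  have hCC : Subgroup.centralizer (P : Set G) ≤ Cu y := by
    rw [← hC]
    exact Subgroup.centralizer_le (show ((Subgroup.zpowers y : Subgroup G) : Set G) ⊆ P from hQP)
  have hinvP : H66.Inv P b := fun p hp t => C2.H3.ix_inv hb.ix (hPC hp) t
  have hIb : Ix (Subgroup.centralizer (P : Set G)) (br P b) :=
    C2.H3.ix_br hF hP (fun z hz x => C2.H3.ix_inv hb.ix (hCC hz) x) hinvP hb.mul
  have hIQ : Ix (Subgroup.centralizer ((Subgroup.zpowers y : Subgroup G) : Set G))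
      (br (Subgroup.zpowers y) e) :=
    C2.H3.ix_br hF hQ (fun z _ x => hL.blk.1.1 x z) (H66.IsCl.inv hL.blk.1.1 _) hL.blk.1.2
  have hinvQ : H66.Inv P (br (Subgroup.zpowers y) e) := fun p hp t =>
    C2.H3.ix_inv hIQ (by rw [hC]; exact hPC hp) t
  have hPe : mulF (br P e) (br P b) = br P b := by
    have h1 := congrArg (br P) hunQ
    rwa [H66.br_mulF hF hP hinvQ hinvP, C2.H3.br_br hQP] at h1
  have hbrb : br P b ≠ 0 := C2.H3.br_ne_of_gd hgP
  have hGe : Gd e P := by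
    apply C2.H3.gd_of_br'
    intro h0
    apply hbrb
    rw [← hPe, h0, H75.mulF_zero_left]
  -- the conjugate
  obtain ⟨k, hk⟩ := (K9.H69.fmg 2 M hM G e hL.blk V hL.tp).1 P hP hGe
  have hPk : P = conjS k V := by
    refine Subgroup.eq_of_le_of_card_ge hk ?_
    rw [card_conjS, hPV]
  obtain ⟨hL1, hix1⟩ := lcj 2 (FF M) hF G e V γ hL k
  rw [← hPk] at hL1 hix1
  -- the block of `C(P)`
  obtain ⟨γ₀, hγ₀, hgγ, -⟩ := K9.H24.exists_blk
    (L := fun a : Subgroup.centralizer (P : Set G) → FF M => a) rfl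
    (fun a b => rfl) hIb.idem (by
      intro h
      apply hbrb
      exact H75.eq_of_res hIb.supp (fun _ _ => rfl) h)
  obtain ⟨γ₁, hγ₁⟩ : ∃ γ₁ : G → FF M,
      γ₁ = H75.ext0 (Subgroup.centralizer (P : Set G)) γ₀ := ⟨_, rfl⟩
  have hγs : ∀ x, x ∉ Subgroup.centralizer (P : Set G) → γ₁ x = 0 := by
    rw [hγ₁]
    exact H75.ext0_supp _ γ₀
  have hγC : (fun t : Subgroup.centralizer (P : Set G) => γ₁ t) = γ₀ := by
    rw [hγ₁]
    exact funext (H75.ext0_apply _ γ₀)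
  have hBγ : Bx (Subgroup.centralizer (P : Set G)) γ₁ := ⟨hγs, by rw [hγC]; exact hγ₀⟩
  have hbγ : mulF (br P b) γ₁ = γ₁ := by
    apply H75.eq_of_res (H75.mulF_supp _ hIb.supp hγs) hγs
    rw [H75.mulF_res _ γ₁ hIb.supp, hγC, hgγ]
  have heγ : mulF (br P e) γ₁ = γ₁ := by
    rw [← hbγ, ← H20.mulF_assoc, hPe]
  have hL2 : Ld 2 e P γ₁ := ⟨hL.blk, hL1.tp, hL1.ab, hBγ, heγ⟩
  have hLc : Lc e P γ₁ y b := ⟨hb, heb, hbγ⟩
  -- `N` is prime to `2`
  obtain ⟨n, hn⟩ := hyl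
  obtain ⟨m, _, hm⟩ := (Nat.dvd_prime_pow hpr).1 (orderOf_dvd_of_pow_eq_one hn)
  have hm2 : 2 ≤ m := by
    by_contra h
    apply hy1
    apply orderOf_dvd_iff_pow_eq_one.1
    rw [hm]
    have h1 : m ≤ 1 := by omega
    calc 2 ^ m ∣ 2 ^ 1 := pow_dvd_pow 2 h1
      _ = 2 := pow_one 2
  have hord : 2 ^ 2 ∣ orderOf y := by
    rw [hm]
    exact pow_dvd_pow 2 hm2
  have hord1 : 2 ∣ orderOf y := (dvd_pow_self 2 two_ne_zero).trans hord
  have hN2 : ¬ 2 ∣ N := by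
    intro h
    have h1 : 2 ∣ Nat.card G := hord1.trans (orderOf_dvd_natCard y)
    have h2 := Nat.dvd_gcd h h1
    rw [hN.cop.gcd_eq_one] at h2
    exact hpr.one_lt.ne' (Nat.dvd_one.1 h2)
  obtain ⟨-, hLcN⟩ := lpw 2 (FF M) hF G e P γ₁ hL2 y hyP b hLc N hN2
  obtain ⟨t, ht, hty⟩ := fus 2 M hM G e P γ₁ hL2 (y ^ N) (P.pow_mem hyP N) y hyP b b hLcN hLc g hg
    hgb
  rw [hN.pow y ⟨n, hn⟩] at hty
  have hpow : ∀ k : ℕ, t ^ k * y * (t ^ k)⁻¹ = y ^ 3 ^ k := by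
    intro k
    induction k with
    | zero => rw [pow_zero, pow_zero, pow_one, one_mul, inv_one, mul_one]
    | succ k ih =>
      calc t ^ (k + 1) * y * (t ^ (k + 1))⁻¹ = t ^ k * (t * y * t⁻¹) * (t ^ k)⁻¹ := by
            rw [pow_succ]
            group
        _ = (t ^ k * y * (t ^ k)⁻¹) ^ 3 := by rw [hty, conj_pow]
        _ = y ^ 3 ^ (k + 1) := by rw [ih, ← pow_mul, pow_succ]
  have hcen := T2.H81.pow_ix P γ₁ ht
  have h1 : y ^ 3 ^ ix P γ₁ = y ^ 1 := by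
    rw [← hpow (ix P γ₁), pow_one]
    have h2 := Subgroup.mem_centralizer_iff.1 hcen y hyP
    rw [← h2, mul_inv_cancel_right]
  have h3 : 3 ^ ix P γ₁ ≡ 1 [MOD 2 ^ 2] := (pow_eq_pow_iff_modEq.1 h1).of_dvd hord
  have h6 : 2 ∣ ix P γ₁ := by
    by_contra hodd
    obtain ⟨k, hk⟩ : ∃ k, ix P γ₁ = 2 * k + 1 := ⟨ix P γ₁ / 2, by omega⟩
    have h9 : 3 ^ ix P γ₁ = (3 ^ 2) ^ k * 3 := by
      rw [hk, ← pow_mul]
      exact pow_succ 3 (2 * k)
    rw [h9] at h3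
    have h7 : (3 ^ 2) ^ k * 3 ≡ 1 ^ k * 3 [MOD 2 ^ 2] :=
      (Nat.ModEq.pow k (show 3 ^ 2 ≡ 1 [MOD 2 ^ 2] by decide)).mul_right 3
    have h8 := h7.symm.trans h3
    rw [one_pow] at h8
    exact absurd h8 (by decide)
  exact K9.H34.inx 2 M hM G e hL2.blk P hL2.tp hL2.ab γ₁ hL2.gam.supp hL2.gam.blk hL2.und h6

end Pool.Agent.PP.TW.H86
end
end -- Pool.Agent.Helper86_ATW.ST3

section -- Pool.Agent.Helper61_ATW.VAL

/-!
# VAL: the values of the fixed characters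
-/

set_option autoImplicit false
set_option linter.unusedSectionVars false

open scoped BigOperators

noncomputable section

namespace Pool.Agent.PP.TW.H61

open Pool.Agent.Helper51_AWC Pool.Agent.Helper79_WRA Pool.Agent.PP Pool.Agent.PP.KF
open Pool.Agent.PP.K9 Pool.Agent.PP.K9.H97 Pool.Agent.PP.H75 Pool.Agent.PP.T3 Pool.Agent.PP.T2
open Pool.Agent.PP.T5 Pool.Agent.PP.TB
open Pool.Agent.PP.T8 (rs pw fv rd Ip Rv vv Dat Fr)

attribute [local instance] Ideal.Quotient.field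

theorem r2_sq : r2 ^ 2 = -2 := by
  rw [r2, mul_pow, Complex.I_sq, ← Complex.ofReal_pow, Real.sq_sqrt (by norm_num)]
  push_cast
  ring

theorem r2_int : IsIntegral ℤ r2 := by
  refine ⟨Polynomial.X ^ 2 + Polynomial.C 2, ?_, ?_⟩
  · exact Polynomial.monic_X_pow_add_C _ (by norm_num)
  · simp [r2_sq]

theorem r2_rr {M : Ideal (integralClosure ℤ ℂ)} [M.IsMaximal]
    (hlM : ((2 : ℕ) : integralClosure ℤ ℂ) ∈ M) : r2 ∈ RM M ∧ rr M r2 = 0 := by
  have h1 : r2 ∈ RM M := RM_of_int r2_int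
  refine ⟨h1, ?_⟩
  have h2 : rr M r2 * rr M r2 = 0 := by
    rw [← rr_mul h1 h1, ← pow_two, r2_sq]
    have h3 := (dvd_of_rr (M := M) Nat.prime_two hlM (n := -2)).2 (by norm_num)
    push_cast at h3
    exact h3
  exact mul_self_eq_zero.1 h2

theorem sg8_one : sg8 1 = 1 := by
  simp [sg8]

theorem val_three {N : ℕ} {M : Ideal (integralClosure ℤ ℂ)} [M.IsMaximal]
    (hM : ((2 : ℕ) : integralClosure ℤ ℂ) ∈ M) {G : Type} [Group G] [Finite G] (hN : G3 G N)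
    {u : G} (hu : El 2 u) {b : G → FF M} (hb : Ix (Cu u) b) {χ : G → ℂ}
    (hfix : ∀ g, χ (g ^ N) = χ g) (j : ℕ) :
    gv M (Cu u) (u ^ (3 * j)) b χ = gv M (Cu u) (u ^ j) b χ := by
  haveI : Fact (Nat.Prime 2) := ⟨Nat.prime_two⟩
  unfold gv gbv
  refine finsum_congr fun c => ?_
  by_cases hc : Reg 2 c
  · have hc' : Reg 2 (c : G) := T2.H39.reg_coe' hc
    have hcomm : Commute u (c : G) := (Subgroup.mem_centralizer_singleton_iff.1 c.2).symm
    have hEl : El 2 (u ^ j) := by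
      obtain ⟨n, hn⟩ := hu
      exact ⟨n, by rw [← pow_mul, mul_comm, pow_mul, hn, one_pow]⟩
    have h1 : u ^ (3 * j) = (u ^ j) ^ N := by
      rw [hN.pow _ hEl, ← pow_mul, mul_comm]
    have h2 : Commute (u ^ j) (c : G) := hcomm.pow_left j
    have h3 : χ (u ^ (3 * j) * c) = χ (u ^ j * c) := by
      rw [← hfix (u ^ j * c), h2.mul_pow, hN.reg c hc', h1]
    rw [h3]
  · have := Fintype.ofFinite (Cu u)
    rw [H25.eh_sing (H82W.wbo (H82.trb H53.tra)) 2 M hM _ hb.idem c hc, zero_mul, zero_mul]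

theorem val (hINR : T3.InrStmt) (hDPV : DpvStmt) (hZI2 : Zi2Stmt) (hHT2 : Ht2Stmt) : ValStmt := by
  intro M hM hlM G _ _ N hN a e V γ b d c ε y w hS χ hχ u hu
  haveI : Fact (Nat.Prime 2) := ⟨Nat.prime_two⟩
  have hD := hS.dat
  have ha : 0 < a := lt_of_lt_of_le (by norm_num) hS.le
  have hpow : ∀ j : ℕ, ¬ 2 ∣ j → Rg V γ (u ^ j) ∧ Cu (u ^ j) = Cu u ∧ b (u ^ j) = b u ∧
      d (u ^ j) = d u := fun j hj => (hDPV 2 M hlM G e V γ b d c ε hD).2 u hu j hj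
  have hu2 : u ^ 2 ^ a = 1 := by
    have h := Monoid.pow_exponent_eq_one (⟨u, hu.1⟩ : V)
    rw [hS.exp] at h
    exact congrArg Subtype.val h
  have hix : Ix (Cu u) (b u) := (hD.lc u hu).blk.ix
  obtain ⟨hd0, -⟩ := hD.dg u hu
  have hdC : (d u : ℂ) ≠ 0 := by exact_mod_cast hd0.ne'
  have hζ := Complex.isPrimitiveRoot_exp (2 ^ a) (pow_ne_zero a (by norm_num))
  obtain ⟨m, hm⟩ := hINR M G u (2 ^ a) (pow_pos (by norm_num) a) hu2 (b u) hix (d u)
    (hD.dg u hu) _ hζ χ hχ.1.1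
  set x : ℕ → ℂ := fun j => ∑ i ∈ Finset.range (2 ^ a), (m i : ℂ) *
    (Complex.exp (2 * Real.pi * Complex.I / ((2 ^ a : ℕ) : ℂ))) ^ (i * j) with hx
  have hgx : ∀ j : ℕ, gv M (Cu u) (u ^ j) (b u) χ = d u * x j := fun j => hm j
  have hx3 : ∀ j : ℕ, ¬ 2 ∣ j → x (3 * j) = x j := by
    intro j _
    have h := val_three hlM hN (u := u) ⟨a, hu2⟩ hix hχ.2 j
    rw [hgx, hgx] at h
    exact mul_left_cancel₀ hdC h
  obtain ⟨p, q, h1, h2⟩ := hZI2 a ha _ hζ m x (fun j => rfl) hx3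
  have hv : ∀ j : ℕ, ¬ 2 ∣ j → vv M b d (u ^ j) χ = p + sg8 j * q * r2 := by
    intro j hj
    obtain ⟨-, e1, e2, e3⟩ := hpow j hj
    rw [← h1 j hj, vv, e1, e2, e3, hgx, mul_div_cancel_left₀ _ hdC]
  refine ⟨p, q, hv, h2, ?_⟩
  obtain ⟨h3, h4⟩ := hHT2 M hlM G a e V γ b d c ε y w hS χ hχ.1 u hu
  have h5 := hv 1 (by norm_num)
  rw [pow_one, sg8_one] at h5
  obtain ⟨r1, r3⟩ := r2_rr hlM
  rw [← Int.not_even_iff_odd]
  intro hp
  apply h4
  rw [h5]
  have k1 : ((1 : ℤ) : ℂ) * (q : ℂ) * r2 ∈ RM M :=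
    (RM M).mul_mem ((RM M).mul_mem (rr_int 1).1 (rr_int q).1) r1
  rw [rr_add (rr_int p).1 k1, rr_mul ((RM M).mul_mem (rr_int 1).1 (rr_int q).1) r1, r3, mul_zero,
    add_zero]
  exact (dvd_of_rr (M := M) Nat.prime_two hlM (n := p)).2 (by exact_mod_cast hp.two_dvd)

end Pool.Agent.PP.TW.H61
end
end -- Pool.Agent.Helper61_ATW.VAL

section -- Pool.Agent.Helper61_ATW.NR3

/-!
# NR3: the number of the fixed characters
-/

set_option autoImplicit false
set_option linter.unusedSectionVars false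

open scoped BigOperators

noncomputable section

namespace Pool.Agent.PP.TW.H61

open Pool.Agent.Helper51_AWC Pool.Agent.Helper79_WRA Pool.Agent.PP Pool.Agent.PP.KF
open Pool.Agent.PP.K9 Pool.Agent.PP.K9.H97 Pool.Agent.PP.H75 Pool.Agent.PP.T3 Pool.Agent.PP.T2
open Pool.Agent.PP.T5 Pool.Agent.PP.TB
open Pool.Agent.PP.T8 (rs pw fv rd Ip Rv vv Dat Fr)

attribute [local instance] Ideal.Quotient.field

/-- the odd numbers below `2 ^ a` -/
def Od (a : ℕ) : Finset ℕ := (Finset.range (2 ^ a)).filter (fun j => ¬ 2 ∣ j)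

theorem card_odd (k : ℕ) : ((Finset.range (2 * k)).filter (fun j => ¬ 2 ∣ j)).card = k := by
  induction k with
  | zero => rfl
  | succ k ih =>
    have h1 : 2 * (k + 1) = 2 * k + 1 + 1 := by ring
    rw [h1, Finset.range_add_one, Finset.range_add_one, Finset.filter_insert, if_pos (by omega),
      Finset.filter_insert, if_neg (by omega), Finset.card_insert_of_notMem, ih]
    simp

theorem card_Od {a : ℕ} (ha : 0 < a) : (Od a).card = 2 ^ (a - 1) := by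
  obtain ⟨k, rfl⟩ : ∃ k, a = k + 1 := ⟨a - 1, by omega⟩
  rw [Od, pow_succ, mul_comm, card_odd, Nat.add_sub_cancel]

theorem sum_sg8 (k : ℕ) :
    ∑ j ∈ Finset.range (8 * k), (if ¬ 2 ∣ j then sg8 j else 0) = 0 := by
  induction k with
  | zero => rfl
  | succ k ih =>
    have e : ∀ i : ℕ, (8 * k + i) % 8 = i % 8 := by intro i; omega
    have h1 : 8 * (k + 1) = 8 * k + 8 := by ring
    rw [h1, Finset.sum_range_add, ih, zero_add]
    simp only [Finset.sum_range_succ, Finset.sum_range_zero, sg8, e]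
    have d0 : 2 ∣ 8 * k + 0 := by omega
    have d1 : ¬ 2 ∣ 8 * k + 1 := by omega
    have d2 : 2 ∣ 8 * k + 2 := by omega
    have d3 : ¬ 2 ∣ 8 * k + 3 := by omega
    have d4 : 2 ∣ 8 * k + 4 := by omega
    have d5 : ¬ 2 ∣ 8 * k + 5 := by omega
    have d6 : 2 ∣ 8 * k + 6 := by omega
    have d7 : ¬ 2 ∣ 8 * k + 7 := by omega
    simp only [d1, d2, d3, d4, d5, d6, d7]
    have dd : 2 ∣ 8 * k := by omega
    simp [dd]

theorem sum_Od {a : ℕ} (ha : 3 ≤ a) : ∑ j ∈ Od a, sg8 j = 0 := by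
  obtain ⟨k, rfl⟩ : ∃ k, a = k + 3 := ⟨a - 3, by omega⟩
  rw [Od, Finset.sum_filter, pow_add]
  have h := sum_sg8 (2 ^ k)
  rw [mul_comm] at h
  exact h

/-- the norm of the sum -/
theorem norm_ge {a : ℕ} (ha : 2 ≤ a) {s : ℤ} {p q p' q' : ℤ} (hq : a ≤ 2 → q = 0)
    (hq' : a ≤ 2 → q' = 0) {x x' : ℕ → ℂ} (hx : ∀ j, ¬ 2 ∣ j → x j = p + sg8 j * q * r2)
    (hx' : ∀ j, ¬ 2 ∣ j → x' j = p' + sg8 j * q' * r2) (h4 : 4 ≤ (p + s * p') ^ 2) :
    (4 : ℝ) ^ a ≤ Complex.normSq (∑ j ∈ Od a, (x j + s * x' j)) := by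
  have h1 : ∑ j ∈ Od a, (x j + s * x' j) = (((2 : ℤ) ^ (a - 1) * (p + s * p') : ℤ) : ℂ) := by
    have h2 : ∀ j ∈ Od a, x j + s * x' j =
        (p + s * p') + (sg8 j : ℂ) * ((q + s * q') * r2) := by
      intro j hj
      have hj2 : ¬ 2 ∣ j := (Finset.mem_filter.1 hj).2
      rw [hx j hj2, hx' j hj2]
      ring
    rw [Finset.sum_congr rfl h2, Finset.sum_add_distrib, Finset.sum_const, card_Od (by omega),
      ← Finset.sum_mul]
    have h3 : (∑ j ∈ Od a, (sg8 j : ℂ)) * ((q + s * q') * r2) = 0 := by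
      rcases Nat.lt_or_ge 2 a with h | h
      · have h5 := sum_Od (a := a) h
        have h6 : ∑ j ∈ Od a, (sg8 j : ℂ) = 0 := by
          rw [← Int.cast_sum, h5, Int.cast_zero]
        rw [h6, zero_mul]
      · rw [hq h, hq' h]
        push_cast
        ring
    rw [h3, add_zero, nsmul_eq_mul]
    push_cast
    ring
  rw [h1]
  have h7 : Complex.normSq ((((2 : ℤ) ^ (a - 1) * (p + s * p') : ℤ) : ℂ)) =
      ((((2 : ℤ) ^ (a - 1) * (p + s * p')) ^ 2 : ℤ) : ℝ) := by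
    have h8 : ((((2 : ℤ) ^ (a - 1) * (p + s * p') : ℤ) : ℂ)) =
        ((((2 : ℤ) ^ (a - 1) * (p + s * p') : ℤ) : ℝ) : ℂ) := by
      push_cast
      rfl
    rw [h8, Complex.normSq_ofReal]
    push_cast
    ring
  rw [h7]
  have h9 : (4 : ℤ) ^ a ≤ ((2 : ℤ) ^ (a - 1) * (p + s * p')) ^ 2 := by
    obtain ⟨k, rfl⟩ : ∃ k, a = k + 1 := ⟨a - 1, by omega⟩
    rw [Nat.add_sub_cancel, mul_pow, ← pow_mul, mul_comm k 2, pow_mul, pow_succ]
    exact mul_le_mul_of_nonneg_left h4 (by positivity)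
  exact_mod_cast h9

theorem nr3 (hVAL : ValStmt) (hBDV : BdvStmt) (hARW : ArwStmt) (hBWS : BwsStmt) (hRGW : RgwStmt) :
    Nr3Stmt := by
  intro M hM hlM G _ _ N hN a e V γ b d c ε y w hS
  classical
  have hIrr : (Irr G).Finite := by
    haveI := Fintype.ofFinite G
    exact irr_finite'
  rcases Set.eq_empty_or_nonempty (Rf M N e) with h0 | ⟨ψ, hψ⟩
  · rw [h0, Set.ncard_empty]
    exact Nat.zero_le _
  have hsub : Rf M N e ⊆ Irr G := fun χ hχ => hχ.1.1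
  have hRfin : (Rf M N e).Finite := hIrr.subset hsub
  obtain ⟨g1, -, -, -⟩ := hRGW M hlM G a e V γ b d c ε y w hS
  have hy : Rg V γ y := by
    have := g1 1 0 (by norm_num)
    rwa [pow_one, pow_zero, mul_one] at this
  have hyw : Rg V γ (y * w) := by
    have := g1 1 1 (by norm_num)
    rwa [pow_one, pow_one] at this
  obtain ⟨p0, q0, h0⟩ := hVAL M hlM G N hN a e V γ b d c ε y w hS ψ hψ y hy
  obtain ⟨p0', q0', h0'⟩ := hVAL M hlM G N hN a e V γ b d c ε y w hS ψ hψ (y * w) hyw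
  obtain ⟨b1, -⟩ := hBDV M hlM G N hN a e V γ b d c ε y w hS ψ hψ ψ hψ p0 q0 p0' q0' p0 q0 p0' q0'
    h0 h0' h0 h0'
  obtain ⟨s, hs1, hs2⟩ : ∃ s : ℤ, (s = 1 ∨ s = -1) ∧ s ≡ p0 * p0' [ZMOD 4] := by
    have ho : Odd (p0 * p0') := h0.2.2.mul h0'.2.2
    obtain ⟨k, hk⟩ := ho
    rw [hk]
    rcases Int.even_or_odd k with ⟨l, hl⟩ | ⟨l, hl⟩
    · refine ⟨1, Or.inl rfl, ?_⟩
      rw [Int.ModEq]
      omega
    · refine ⟨-1, Or.inr rfl, ?_⟩
      rw [Int.ModEq]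
      omega
  have hB := hBWS M hlM G a e V γ b d c ε y w hS s hs1
  have hge : ∀ χ ∈ Rf M N e, (4 : ℝ) ^ a ≤ Complex.normSq
      (∑ j ∈ (Finset.range (2 ^ a)).filter (fun j => ¬ 2 ∣ j),
        (vv M b d (y ^ j) χ + s * vv M b d ((y * w) ^ j) χ)) := by
    intro χ hχ
    obtain ⟨p, q, h1⟩ := hVAL M hlM G N hN a e V γ b d c ε y w hS χ hχ y hy
    obtain ⟨p', q', h1'⟩ := hVAL M hlM G N hN a e V γ b d c ε y w hS χ hχ (y * w) hyw
    obtain ⟨b2, b3⟩ := hBDV M hlM G N hN a e V γ b d c ε y w hS χ hχ ψ hψ p q p' q' p0 q0 p0' q0'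
      h1 h1' h0 h0'
    obtain ⟨-, h4⟩ := hARW p q p' q' p0 q0 p0' q0' h1.2.2 h1'.2.2 h0.2.2 h0'.2.2 b2 b1 b3
    exact norm_ge hS.le h1.2.1 h1'.2.1 h1.1 h1'.1 (h4 s hs1 hs2)
  have hcard : Nat.card V ≤ 4 ^ a := hS.card
  have hsum : (4 : ℝ) ^ a * (Rf M N e).ncard ≤ 2 ^ a * 4 ^ a := by
    have e1 : (4 : ℝ) ^ a * (Rf M N e).ncard = ∑ χ ∈ hRfin.toFinset, (4 : ℝ) ^ a := by
      rw [Finset.sum_const, nsmul_eq_mul, Set.ncard_eq_toFinset_card _ hRfin]
      ring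
    rw [e1]
    calc ∑ χ ∈ hRfin.toFinset, (4 : ℝ) ^ a
        ≤ ∑ χ ∈ hRfin.toFinset, Complex.normSq
          (∑ j ∈ (Finset.range (2 ^ a)).filter (fun j => ¬ 2 ∣ j),
          (vv M b d (y ^ j) χ + s * vv M b d ((y * w) ^ j) χ)) :=
          Finset.sum_le_sum fun χ hχ => hge χ (hRfin.mem_toFinset.1 hχ)
      _ ≤ ∑ χ ∈ hIrr.toFinset, Complex.normSq
          (∑ j ∈ (Finset.range (2 ^ a)).filter (fun j => ¬ 2 ∣ j),
          (vv M b d (y ^ j) χ + s * vv M b d ((y * w) ^ j) χ)) := by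
          refine Finset.sum_le_sum_of_subset_of_nonneg ?_ fun χ _ _ => Complex.normSq_nonneg _
          intro χ hχ
          rw [Set.Finite.mem_toFinset] at hχ ⊢
          exact hsub hχ
      _ = 2 ^ a * Nat.card V := by
          rw [← hB, finsum_mem_eq_finite_toFinset_sum _ hIrr]
      _ ≤ 2 ^ a * 4 ^ a := by
          refine mul_le_mul_of_nonneg_left ?_ (by positivity)
          exact_mod_cast hcard
  have h4 : (0 : ℝ) < 4 ^ a := by positivity
  rw [mul_comm ((2 : ℝ) ^ a)] at hsum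
  have h5 := le_of_mul_le_mul_left hsum h4
  exact_mod_cast h5

end Pool.Agent.PP.TW.H61
end
end -- Pool.Agent.Helper61_ATW.NR3
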