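import Pool.Agent.Helper12_AWB.B122
import Pool.Agent.Helper12_AWB.B123
import Pool.Agent.Helper12_AWB.B170
import Pool.Agent.Helper12_AWB.B174

/-!
# Merged copies (generated) of the modules

* `Pool.Agent.Helper17_AT6.CLC`
* `Pool.Agent.Helper17_AT6.OBZ`
* `Pool.Agent.Helper17_ATZ.ZCP`
* `Pool.Agent.Helper69_AT10.ZLO`
* `Pool.Agent.Helper69_AT10.STF`
* `Pool.Agent.Helper94_AT6.BLK`
-/

set_option autoImplicit false

section -- Pool.Agent.Helper17_AT6.CLC

/-!
# Squad AT6, row CLC: the component in an idempotent of `C_H(x)` of a section component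
-/

open scoped BigOperators

set_option autoImplicit false

noncomputable section

namespace Pool.Agent.PP.T6.H17

open Pool.Agent.Helper51_AWC Pool.Agent.Helper79_WRA Pool.Agent.PP Pool.Agent.PP.KF
open Pool.Agent.PP.K9 Pool.Agent.PP.K9.H97 Pool.Agent.PP.H75 Pool.Agent.PP.T3 Pool.Agent.PP.T2
open Pool.Agent.PP.T6

attribute [local instance] Ideal.Quotient.field

section tools

theorem sumext {G : Type} [Group G] [Fintype G] (C : Subgroup G) (f : C → ℂ) (F : G → ℂ) :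
    ∑ᶠ c : C, f c * F c = ∑ g : G, H75.ext0 C f g * F g := by
  classical
  have := Fintype.ofFinite C
  rw [finsum_eq_sum_of_fintype]
  have h1 : ∀ g : G, H75.ext0 C f g * F g = ∑ c : C, if (c : G) = g then f c * F c else 0 := by
    intro g
    by_cases hg : g ∈ C
    · rw [Finset.sum_eq_single (⟨g, hg⟩ : C)]
      · rw [if_pos rfl, H75.ext0, dif_pos hg]
      · intro c _ hc
        rw [if_neg]
        intro h'
        exact hc (Subtype.ext h')
      · intro h'; exact absurd (Finset.mem_univ _) h'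
    · rw [H75.ext0, dif_neg hg, zero_mul, Finset.sum_eq_zero]
      intro c _
      rw [if_neg]
      intro h'
      exact hg (h' ▸ c.2)
  rw [Finset.sum_congr rfl (fun g _ => h1 g), Finset.sum_comm]
  refine Finset.sum_congr rfl fun c _ => ?_
  simp

theorem gv_sum {G : Type} [Group G] [Fintype G] (M : Ideal (integralClosure ℤ ℂ)) [M.IsMaximal]
    (C : Subgroup G) (w : G) (b : G → FF M) (χ : G → ℂ) :
    gv M C w b χ = ∑ g : G, hat M C b g * χ (w * g) := by
  unfold gv gbv hat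
  exact sumext C _ (fun g => χ (w * g))

/-- `gv` of the conjugate -/
theorem gv_cj2 {G : Type} [Group G] [Finite G] {M : Ideal (integralClosure ℤ ℂ)} [M.IsMaximal]
    {u u' t : G} (k : G) (h : t * u' * t⁻¹ = u) {b : G → FF M}
    (hb : IsCl (fun s : Cu u' => b s)) {χ : G → ℂ} (hχ : ∀ x y, χ (y * x * y⁻¹) = χ x) :
    gv M (Cu u) (t * k * t⁻¹) (cj t b) χ = gv M (Cu u') k b χ := by
  unfold gv gbv
  have := Fintype.ofFinite G
  classical
  rw [finsum_eq_sum_of_fintype, finsum_eq_sum_of_fintype]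
  rw [← Equiv.sum_comp (T3.H62.cjE h).toEquiv]
  refine Finset.sum_congr rfl fun c _ => ?_
  have h1 := T3.H62.eh_equiv (T3.H62.cjE h) hb c
  have h2 : (fun y : Cu u => b (((T3.H62.cjE h).symm y : Cu u') : G)) =
      (fun s : Cu u => cj t b s) := rfl
  rw [h2] at h1
  show eh M (fun s : Cu u => cj t b s) (T3.H62.cjE h c) *
    χ (t * k * t⁻¹ * ((T3.H62.cjE h c : Cu u) : G)) = _
  rw [h1]
  congr 1
  have h3 : ((T3.H62.cjE h c : Cu u) : G) = t * c * t⁻¹ := rfl
  rw [h3, ← hχ (k * c) t]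
  congr 1
  group

/-- the `ℓ`-part is unique -/
theorem lp_unique {G : Type} [Group G] [Finite G] {ℓ : ℕ} [Fact ℓ.Prime] {g u x : G}
    (h : T5.Lp ℓ g u) (h' : T5.Lp ℓ g x) : u = x := by
  have hp : ℓ.Prime := Fact.out
  have hc0 : Nat.card G ≠ 0 := Nat.card_pos.ne'
  have hco : (ordProj[ℓ] (Nat.card G)).Coprime (ordCompl[ℓ] (Nat.card G)) :=
    (Nat.coprime_ordCompl hp hc0).pow_left _
  obtain ⟨N, hN1, hN2⟩ := Nat.chineseRemainder hco 1 0
  have hpow : ∀ v : G, T5.Lp ℓ g v → g ^ N = v := by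
    intro v hv
    have hg : g = v * (v⁻¹ * g) := by group
    have hcom : Commute v (v⁻¹ * g) := by
      apply Commute.mul_right
      · exact (Commute.refl v).inv_right
      · exact hv.com
    rw [hg, hcom.mul_pow]
    have h1 : v ^ N = v := by
      obtain ⟨n, hn⟩ := hv.el
      have ho : orderOf v ∣ ordProj[ℓ] (Nat.card G) := by
        obtain ⟨k, -, hk⟩ := (Nat.dvd_prime_pow hp).1 (orderOf_dvd_of_pow_eq_one hn)
        rw [hk]
        have : ℓ ^ k ∣ Nat.card G := by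
          rw [← hk]
          exact orderOf_dvd_natCard v
        exact pow_dvd_pow _ ((hp.pow_dvd_iff_le_factorization hc0).1 this)
      have h2 : N ≡ 1 [MOD orderOf v] := hN1.of_dvd ho
      have h3 := pow_eq_pow_iff_modEq.2 h2
      rw [pow_one] at h3
      exact h3
    have h2 : (v⁻¹ * g) ^ N = 1 := by
      rw [← orderOf_dvd_iff_pow_eq_one]
      have hr : (orderOf (v⁻¹ * g)).Coprime ℓ := hv.reg
      have ho : orderOf (v⁻¹ * g) ∣ Nat.card G := orderOf_dvd_natCard _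
      rw [← Nat.ordProj_mul_ordCompl_eq_self (Nat.card G) ℓ] at ho
      have ho2 := (hr.pow_right _).dvd_of_dvd_mul_left ho
      exact ho2.trans ((Nat.modEq_zero_iff_dvd).1 hN2)
    rw [h1, h2, mul_one]
  rw [← hpow u h, ← hpow x h']

theorem lp_mul {G : Type} [Group G] {ℓ : ℕ} {x s : G} (hx : El ℓ x) (hs : Commute x s)
    (hr : Reg ℓ s) : T5.Lp ℓ (x * s) x := by
  refine ⟨hx, ?_, ?_⟩
  · exact (Commute.refl x).mul_right hs
  · rw [inv_mul_cancel_left]
    exact hr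

theorem lp_conj {G : Type} [Group G] {ℓ : ℕ} {g u v : G} (h : T5.Lp ℓ (u⁻¹ * g * u) v) :
    T5.Lp ℓ g (u * v * u⁻¹) := by
  refine ⟨?_, ?_, ?_⟩
  · obtain ⟨n, hn⟩ := h.el
    refine ⟨n, ?_⟩
    rw [conj_pow, hn]
    group
  · have h2 : v * (u⁻¹ * g * u) = (u⁻¹ * g * u) * v := h.com
    show u * v * u⁻¹ * g = g * (u * v * u⁻¹)
    calc u * v * u⁻¹ * g = u * (v * (u⁻¹ * g * u)) * u⁻¹ := by group
      _ = u * ((u⁻¹ * g * u) * v) * u⁻¹ := by rw [h2]
      _ = g * (u * v * u⁻¹) := by group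
  · have h3 : (u * v * u⁻¹)⁻¹ * g = u * (v⁻¹ * (u⁻¹ * g * u)) * u⁻¹ := by group
    have h4 := h.reg
    unfold Reg at h4 ⊢
    rw [h3]
    have h5 : orderOf (u * (v⁻¹ * (u⁻¹ * g * u)) * u⁻¹) = orderOf (v⁻¹ * (u⁻¹ * g * u)) :=
      MulEquiv.orderOf_eq (MulAut.conj u) _
    rw [h5]
    exact h4

end tools

theorem clc (h1 : SvvStmt) (h2 : KrfStmt) : ClcStmt := by
  intro ℓ _ M _ hM G _ _ H v hv b hb θ hθ x κ hx hκ s hs hsr
  classical
  have := Fintype.ofFinite G
  have := Fintype.ofFinite H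
  have hsx : s * x = x * s := Subgroup.mem_centralizer_singleton_iff.1 hs
  -- the class function `ψ`
  obtain ⟨ψ, hψ⟩ : ∃ ψ : H → ℂ, ∀ c : H, ψ c = sv M ℓ v b θ ((x * c : H) : G) := ⟨_, fun _ => rfl⟩
  have e1 : gv M (Cu x) (x * s) κ (fun t : H => sv M ℓ v b θ t) = gv M (Cu x) s κ ψ := by
    rw [gv_sum, gv_sum]
    refine Finset.sum_congr rfl fun g _ => ?_
    rw [hψ, mul_assoc]
  have hxG : El ℓ (x : G) := by
    obtain ⟨n, hn⟩ := hx
    exact ⟨n, by rw [← Subgroup.coe_pow, hn, Subgroup.coe_one]⟩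
  have hcomm : ∀ c : H, c ∈ Cu x → Commute (x : G) (c : G) := by
    intro c hc
    have := Subgroup.mem_centralizer_singleton_iff.1 hc
    show (x : G) * c = c * x
    rw [← Subgroup.coe_mul, ← Subgroup.coe_mul, this]
  have hregG : ∀ c : H, Reg ℓ c → Reg ℓ (c : G) := by
    intro c hc
    unfold Reg at hc ⊢
    rwa [Subgroup.orderOf_coe]
  have hlp : ∀ c : H, c ∈ Cu x → Reg ℓ c → T5.Lp ℓ ((x * c : H) : G) x := by
    intro c hc hcr
    rw [Subgroup.coe_mul]
    exact lp_mul hxG (hcomm c hc) (hregG c hcr)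
  have hψcl : ∀ a ∈ Cu x, ∀ y ∈ Cu x, ψ (y * a * y⁻¹) = ψ a := by
    intro a _ y hy
    rw [hψ, hψ]
    have hyx : y * x = x * y := Subgroup.mem_centralizer_singleton_iff.1 hy
    have : x * (y * a * y⁻¹) = y * (x * a) * y⁻¹ := by
      rw [← mul_assoc, ← mul_assoc, ← hyx]
      group
    rw [this]
    exact (h1 ℓ M hM G v b hb θ hθ).2.2.1 _ _
  constructor
  · intro w hw
    have hb' : Ix (Cu (x : G)) (cj w b) := by
      apply T3.H62.ix_cj _ hb
      intro y
      rw [Subgroup.mem_centralizer_singleton_iff, Subgroup.mem_centralizer_singleton_iff, ← hw]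
      constructor
      · intro h
        calc w⁻¹ * y * w * v = w⁻¹ * (y * (w * v * w⁻¹)) * w := by group
          _ = w⁻¹ * ((w * v * w⁻¹) * y) * w := by rw [h]
          _ = v * (w⁻¹ * y * w) := by group
      · intro h
        calc y * (w * v * w⁻¹) = w * (w⁻¹ * y * w * v) * w⁻¹ := by group
          _ = w * (v * (w⁻¹ * y * w)) * w⁻¹ := by rw [h]
          _ = w * v * w⁻¹ * y := by group
    obtain ⟨φ, hφ⟩ : ∃ φ : H → ℂ, ∀ c : H, φ c = gv M (Cu (x : G)) ((x * c : H) : G) (cj w b) θ :=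
      ⟨_, fun _ => rfl⟩
    have hφcl : ∀ a ∈ Cu x, ∀ y ∈ Cu x, φ (y * a * y⁻¹) = φ a := by
      intro a _ y hy
      rw [hφ, hφ]
      have hyx : y * x = x * y := Subgroup.mem_centralizer_singleton_iff.1 hy
      have e : x * (y * a * y⁻¹) = y * (x * a) * y⁻¹ := by
        rw [← mul_assoc, ← mul_assoc, ← hyx]
        group
      have hyG : (y : G) ∈ Cu (x : G) := by
        rw [Subgroup.mem_centralizer_singleton_iff, ← Subgroup.coe_mul, ← Subgroup.coe_mul, hyx]
      have hyc : (y : G) * (x : G) * (y : G)⁻¹ = x := by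
        rw [mul_inv_eq_iff_eq_mul]
        exact Subgroup.mem_centralizer_singleton_iff.1 hyG
      have h3 := gv_cj2 (M := M) ((x * a : H) : G) hyc hb'.idem.1 hθ
      rw [hb'.inv hyG] at h3
      rw [e]
      exact h3
    have hreg : ∀ c ∈ Cu x, Reg ℓ c → ψ c = φ c := by
      intro c hc hcr
      rw [hψ, hφ]
      have h3 := (h1 ℓ M hM G v b hb θ hθ).2.2.2.2 w ((x * c : H) : G)
      rw [hw] at h3
      rw [← h3]
      have h4 := (h1 ℓ M hM G (x : G) (cj w b) hb' θ hθ).1 ((x * c : H) : G) 1 (by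
        rw [inv_one, one_mul, mul_one]
        exact hlp c hc hcr)
      rw [inv_one, one_mul, mul_one] at h4
      exact h4
    have h5 := h2 ℓ M hM H (Cu x) κ hκ (fun c => ψ c - φ c)
      (fun a ha y hy => by rw [hψcl a ha y hy, hφcl a ha y hy])
      (fun c hc hcr => by rw [hreg c hc hcr, sub_self]) s hs hsr
    have h6 : gv M (Cu x) s κ ψ = gv M (Cu x) s κ φ := by
      rw [gv_sum] at h5 ⊢
      rw [gv_sum, ← sub_eq_zero, ← Finset.sum_sub_distrib, ← h5]
      refine Finset.sum_congr rfl fun g _ => ?_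
      ring
    rw [e1, h6, gv_sum]
    -- the left side as a double sum over `G`
    have h7 : ∑ g : H, hat M (Cu x) κ g * φ (s * g) =
        ∑ g : G, H75.ext0 H (hat M (Cu x) κ) g *
          ∑ d : G, hat M (Cu (x : G)) (cj w b) d * θ ((x : G) * ((s : G) * g) * d) := by
      rw [← sumext H (hat M (Cu x) κ) (fun g =>
        ∑ d : G, hat M (Cu (x : G)) (cj w b) d * θ ((x : G) * ((s : G) * g) * d)),
        finsum_eq_sum_of_fintype]
      refine Finset.sum_congr rfl fun g _ => ?_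
      rw [hφ, gv_sum]
      rfl
    rw [h7]
    unfold T8.fv mulF
    rw [finsum_eq_sum_of_fintype]
    have h8 : ∀ g : G, (∑ᶠ t, H75.ext0 H (hat M (Cu x) κ) t *
        hat M (Cu (x : G)) (cj w b) (t⁻¹ * g)) * θ (((x * s : H) : G) * g) =
        ∑ t : G, H75.ext0 H (hat M (Cu x) κ) t *
          (hat M (Cu (x : G)) (cj w b) (t⁻¹ * g) * θ (((x * s : H) : G) * g)) := by
      intro g
      rw [finsum_eq_sum_of_fintype, Finset.sum_mul]
      refine Finset.sum_congr rfl fun t _ => ?_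
      ring
    rw [Finset.sum_congr rfl (fun g _ => h8 g), Finset.sum_comm]
    refine Finset.sum_congr rfl fun t _ => ?_
    rw [← Finset.mul_sum]
    congr 1
    rw [← Equiv.sum_comp (Equiv.mulLeft t) (fun g => hat M (Cu (x : G)) (cj w b) (t⁻¹ * g) *
      θ (((x * s : H) : G) * g))]
    refine Finset.sum_congr rfl fun d _ => ?_
    rw [Equiv.coe_mulLeft, inv_mul_cancel_left, Subgroup.coe_mul]
    congr 2
    group
  · intro hno
    rw [e1]
    apply h2 ℓ M hM H (Cu x) κ hκ ψ hψcl _ s hs hsr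
    intro c hc hcr
    rw [hψ]
    apply (h1 ℓ M hM G v b hb θ hθ).2.1
    intro u hu
    exact hno u (lp_unique (lp_conj hu) (hlp c hc hcr))

end Pool.Agent.PP.T6.H17
end
end -- Pool.Agent.Helper17_AT6.CLC

section -- Pool.Agent.Helper17_AT6.OBZ

/-!
# Squad AT6, row OBZ: sums over the orbits of a conjugation action
-/

open scoped BigOperators

noncomputable section

namespace Pool.Agent.PP.T6.H17

open Pool.Agent.Helper51_AWC Pool.Agent.Helper79_WRA Pool.Agent.PP Pool.Agent.PP.KF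
open Pool.Agent.PP.K9 Pool.Agent.PP.K9.H97 Pool.Agent.PP.H75 Pool.Agent.PP.T3 Pool.Agent.PP.T2
open Pool.Agent.PP.T6

/-- the conjugates of `x` by elements of `D` -/
def orb {G : Type} [Group G] (D : Subgroup G) (x : G) : Set G := {y | ∃ d ∈ D, y = d * x * d⁻¹}

theorem orb_ncard {G : Type} [Group G] [Finite G] (D : Subgroup G) (x : G) :
    (orb D x).ncard = (D ⊓ Cu x).relIndex D := by
  let act : MulAction D G := MulAction.compHom G ((MulAut.conj : G →* MulAut G).comp D.subtype)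
  have hs : ∀ (d : D) (y : G), d • y = (d : G) * y * (d : G)⁻¹ := fun d y => rfl
  have h1 : MulAction.orbit D x = orb D x := by
    ext y
    constructor
    · rintro ⟨d, rfl⟩
      exact ⟨d, d.2, hs d x⟩
    · rintro ⟨d, hd, rfl⟩
      exact ⟨⟨d, hd⟩, hs _ _⟩
  have h2 : MulAction.stabilizer D x = (D ⊓ Cu x).subgroupOf D := by
    ext d
    rw [MulAction.mem_stabilizer_iff, Subgroup.mem_subgroupOf, Subgroup.mem_inf,
      Subgroup.mem_centralizer_singleton_iff, hs]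
    constructor
    · intro h
      refine ⟨d.2, ?_⟩
      rw [mul_inv_eq_iff_eq_mul] at h
      exact h
    · intro h
      rw [mul_inv_eq_iff_eq_mul]
      exact h.2
  rw [← h1, ← MulAction.index_stabilizer, h2, Subgroup.relIndex]

theorem dv_add {M : Ideal (integralClosure ℤ ℂ)} [M.IsMaximal] {m a b : ℂ} (ha : Dv M m a)
    (hb : Dv M m b) : Dv M m (a + b) := by
  obtain ⟨s, hs, rfl⟩ := ha
  obtain ⟨t, ht, rfl⟩ := hb
  exact ⟨s + t, (RM M).add_mem hs ht, by ring⟩

theorem obz : ObzStmt := by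
  intro M _ G _ _ D S hS F hF m
  generalize hn : S.ncard = n
  induction n using Nat.strong_induction_on generalizing S with
  | _ n ih =>
    intro hD
    rcases S.eq_empty_or_nonempty with rfl | ⟨x, hx⟩
    · rw [finsum_mem_empty]
      exact ⟨0, (RM M).zero_mem, by ring⟩
    · have hsub : orb D x ⊆ S := by
        rintro y ⟨d, hd, rfl⟩
        exact hS d hd x hx
      have hxo : x ∈ orb D x := ⟨1, D.one_mem, by group⟩
      have hsplit : ∑ᶠ (y : G) (_ : y ∈ S), F y =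
          ∑ᶠ (y : G) (_ : y ∈ orb D x), F y + ∑ᶠ (y : G) (_ : y ∈ S \ orb D x), F y := by
        rw [← finsum_mem_union disjoint_sdiff_self_right (Set.toFinite _) (Set.toFinite _),
          Set.union_sdiff_cancel hsub]
      have horb : ∑ᶠ (y : G) (_ : y ∈ orb D x), F y = ((D ⊓ Cu x).relIndex D : ℕ) * F x := by
        have h1 : ∑ᶠ (y : G) (_ : y ∈ orb D x), F y = ∑ᶠ (y : G) (_ : y ∈ orb D x), F x := by
          apply finsum_mem_congr rfl
          rintro y ⟨d, hd, rfl⟩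
          exact hF d hd x
        rw [h1, finsum_mem_eq_finite_toFinset_sum _ (Set.toFinite _), Finset.sum_const,
          nsmul_eq_mul, ← Set.ncard_eq_toFinset_card, orb_ncard]
      rw [hsplit, horb]
      apply dv_add (hD x hx)
      apply ih (S \ orb D x).ncard
      · rw [← hn]
        apply Set.ncard_lt_ncard _ (Set.toFinite _)
        refine ⟨Set.sdiff_subset, fun h => ?_⟩
        exact (h hx).2 hxo
      · rintro d hd y ⟨hy, hyo⟩
        refine ⟨hS d hd y hy, ?_⟩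
        rintro ⟨d', hd', h⟩
        apply hyo
        refine ⟨d⁻¹ * d', D.mul_mem (D.inv_mem hd) hd', ?_⟩
        have : y = d⁻¹ * (d * y * d⁻¹) * d := by group
        rw [this, h]
        group
      · rfl
      · intro y hy
        exact hD y hy.1

end Pool.Agent.PP.T6.H17
end
end -- Pool.Agent.Helper17_AT6.OBZ

section -- Pool.Agent.Helper17_ATZ.ZCP

/-!
# Squad ATZ, row ZCP: conjugation and powers of the data `(z, b z)`
-/

open scoped BigOperators

set_option autoImplicit false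

noncomputable section

namespace Pool.Agent.PP.TB.H17

open Pool.Agent.Helper51_AWC Pool.Agent.Helper79_WRA Pool.Agent.PP Pool.Agent.PP.KF
open Pool.Agent.PP.K9 Pool.Agent.PP.K9.H97 Pool.Agent.PP.H75 Pool.Agent.PP.T3 Pool.Agent.PP.T2
open Pool.Agent.PP.T5 Pool.Agent.PP.TB

attribute [local instance] Ideal.Quotient.field

section tools

variable {F G : Type} [Field F] [Group G] [Finite G]

/-- uniqueness of the block over `γ` -/
theorem uniq {ℓ : ℕ} [Fact ℓ.Prime] (hF : GoodF ℓ F) {V : Subgroup G} (hV : IsPGroup ℓ V)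
    {γ : G → F} (hγ : Bx (Subgroup.centralizer (V : Set G)) γ) {z : G}
    (hc : ∀ v ∈ V, v * z = z * v) {β β' : G → F} (h : Bx (Cu z) β) (h' : Bx (Cu z) β')
    (hg : mulF (br V β) γ = γ) (hg' : mulF (br V β') γ = γ) : β = β' := by
  have hVC : V ≤ Cu z := fun v hv => Subgroup.mem_centralizer_singleton_iff.2 (hc v hv)
  rcases h.dich h' with h3 | h3
  · exact h3
  · exfalso
    apply hγ.ne
    have h1 := T3.H88.br_mul hF hV hVC h.ix h'.ix
    rw [h3, T3.H88.br_zero] at h1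
    calc γ = mulF (br V β) (mulF (br V β') γ) := by rw [hg', hg]
      _ = mulF (mulF (br V β) (br V β')) γ := (mulF_assoc _ _ _).symm
      _ = 0 := by rw [← h1, mulF_zero_left]

omit [Finite G] in
theorem mem_cu_conj (t z x : G) : x ∈ Cu (t * z * t⁻¹) ↔ t⁻¹ * x * t ∈ Cu z := by
  rw [Subgroup.mem_centralizer_singleton_iff, Subgroup.mem_centralizer_singleton_iff]
  constructor
  · intro h
    calc t⁻¹ * x * t * z = t⁻¹ * (x * (t * z * t⁻¹)) * t := by group
      _ = t⁻¹ * ((t * z * t⁻¹) * x) * t := by rw [h]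
      _ = z * (t⁻¹ * x * t) := by group
  · intro h
    calc x * (t * z * t⁻¹) = t * (t⁻¹ * x * t * z) * t⁻¹ := by group
      _ = t * (z * (t⁻¹ * x * t)) * t⁻¹ := by rw [h]
      _ = t * z * t⁻¹ * x := by group

omit [Finite G] in
theorem cu_pow2 {ℓ : ℕ} [Fact ℓ.Prime] {z : G} (hz : El ℓ z) {j : ℕ} (hj : ¬ ℓ ∣ j) :
    Cu (z ^ j) = Cu z := by
  have hp : ℓ.Prime := Fact.out
  obtain ⟨n, hn⟩ := hz
  -- an inverse of `j`
  have hcop : Nat.Coprime j (ℓ ^ (n + 1)) :=
    Nat.Coprime.pow_right _ ((Nat.Prime.coprime_iff_not_dvd hp).2 hj).symm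
  obtain ⟨i, hi⟩ := Nat.exists_mul_mod_eq_one_of_coprime hcop
    (Nat.one_lt_pow (Nat.succ_ne_zero n) hp.one_lt)
  have hz1 : z ^ ℓ ^ (n + 1) = 1 := by rw [pow_succ, pow_mul, hn, one_pow]
  have hzi : (z ^ j) ^ i = z := by
    rw [← pow_mul]
    have h1 : j * i ≡ 1 [MOD ℓ ^ (n + 1)] := by
      unfold Nat.ModEq
      rw [hi.2, Nat.mod_eq_of_lt (Nat.one_lt_pow (Nat.succ_ne_zero n) hp.one_lt)]
    have h2 : j * i ≡ 1 [MOD orderOf z] := h1.of_dvd (orderOf_dvd_of_pow_eq_one hz1)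
    have h3 := pow_eq_pow_iff_modEq.2 h2
    rw [pow_one] at h3
    exact h3
  ext x
  rw [Subgroup.mem_centralizer_singleton_iff, Subgroup.mem_centralizer_singleton_iff]
  constructor
  · intro h
    have h1 : Commute x (z ^ j) := h
    have h2 := h1.pow_right i
    rw [hzi] at h2
    exact h2
  · intro h
    have h1 : Commute x z := h
    exact h1.pow_right j

end tools

theorem zcp (h1 : T5.Ix5Stmt) : ZcpStmt := by
  intro ℓ _ M _ hM G _ _ e V Z γ b hZ
  classical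
  have hp : ℓ.Prime := Fact.out
  have hF : GoodF ℓ (FF M) := H50.fld ℓ Fact.out M hM
  have hEl : ∀ z ∈ Z, El ℓ z := by
    intro z hz
    obtain ⟨n, hn⟩ := hZ.tp.pg ⟨z, hZ.le hz⟩
    exact ⟨n, congrArg Subtype.val hn⟩
  have hA : ∀ z ∈ Z, Subgroup.centralizer (Z : Set G) ⊓ Tg V γ ≤ Tg V γ ⊓ Cu z := by
    intro z hz x hx
    refine Subgroup.mem_inf.2 ⟨hx.2, ?_⟩
    rw [Subgroup.mem_centralizer_singleton_iff]
    exact (Subgroup.mem_centralizer_iff.1 hx.1 z hz).symm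
  have horb : ∀ z ∈ Z, cz V Z γ z * {y | ∃ t ∈ Tg V γ, y = t * z * t⁻¹}.ncard = iz V Z γ := by
    intro z hz
    have h2 : {y | ∃ t ∈ Tg V γ, y = t * z * t⁻¹}.ncard = (Tg V γ ⊓ Cu z).relIndex (Tg V γ) :=
      T6.H17.orb_ncard (Tg V γ) z
    rw [h2]
    exact Subgroup.relIndex_mul_relIndex _ _ _ (hA z hz) inf_le_left
  have hpos : 0 < iz V Z γ := by
    unfold iz
    exact Nat.pos_of_ne_zero Subgroup.index_ne_zero_of_finite
  have hcpos : ∀ z ∈ Z, 0 < cz V Z γ z := by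
    intro z _
    unfold cz
    exact Nat.pos_of_ne_zero Subgroup.index_ne_zero_of_finite
  have hcconj : ∀ z ∈ Z, ∀ t ∈ Tg V γ, cz V Z γ (t * z * t⁻¹) = cz V Z γ z := by
    intro z hz t ht
    have h2 := horb z hz
    have h3 := horb (t * z * t⁻¹) (hZ.nrm t ht z hz)
    have h4 : {y | ∃ s ∈ Tg V γ, y = s * (t * z * t⁻¹) * s⁻¹} =
        {y | ∃ s ∈ Tg V γ, y = s * z * s⁻¹} := by
      ext y
      constructor
      · rintro ⟨s, hs, rfl⟩
        refine ⟨s * t, (Tg V γ).mul_mem hs ht, ?_⟩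
        group
      · rintro ⟨s, hs, rfl⟩
        refine ⟨s * t⁻¹, (Tg V γ).mul_mem hs ((Tg V γ).inv_mem ht), ?_⟩
        group
    rw [h4] at h3
    have h5 : 0 < {y | ∃ s ∈ Tg V γ, y = s * z * s⁻¹}.ncard := by
      rw [Set.ncard_pos (Set.toFinite _)]
      exact ⟨z, 1, (Tg V γ).one_mem, by group⟩
    exact Nat.eq_of_mul_eq_mul_right h5 (h3.trans h2.symm)
  have hbconj : ∀ z ∈ Z, ∀ t ∈ Tg V γ, cj t (b z) = b (t * z * t⁻¹) := by
    intro z hz t ht
    have hz' := hZ.nrm t ht z hz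
    have hbx : Bx (Cu (t * z * t⁻¹)) (cj t (b z)) :=
      T3.H62.bx_cj (fun x => mem_cu_conj t z x) (hZ.lb z hz).1.bx
    have hγ : cj t γ = γ := (cj_eq_iff t γ).2 ht.2
    apply uniq hF hZ.tp.pg hZ.gam (fun v hv => hZ.cen _ hz' v hv) hbx (hZ.lb _ hz').1.bx _
      (hZ.lb _ hz').2
    rw [← T3.H79.cj_br ht.1]
    conv_lhs => rw [← hγ]
    rw [← cj_mulF, (hZ.lb z hz).2, hγ]
  have hirr : ∀ χ ∈ Irr G, ∀ x y : G, χ (y * x * y⁻¹) = χ x := by
    rintro χ ⟨n, ρ, -, rfl⟩ x y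
    exact ρ.char_conj x y
  refine ⟨?_, ?_, horb, hpos, ?_, hcpos, ?_⟩
  · intro z hz t ht
    refine ⟨hbconj z hz t ht, hcconj z hz t ht, ?_⟩
    intro χ hχ ψ hψ
    rw [← hbconj z hz t ht]
    unfold mm
    have hcard : Nat.card (Cu (t * z * t⁻¹)) = Nat.card (Cu z) :=
      (Nat.card_congr (T3.H62.cjE (rfl : t * z * t⁻¹ = t * z * t⁻¹)).toEquiv).symm
    rw [hcard]
    congr 1
    rw [← finsum_comp_equiv (MulAut.conj t).toEquiv]
    apply finsum_congr
    intro s
    have hs : (MulAut.conj t).toEquiv s = t * s * t⁻¹ := rfl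
    rw [hs]
    have hmem : (t * s * t⁻¹ ∈ Cu (t * z * t⁻¹) ∧ Reg ℓ (t * s * t⁻¹)) = (s ∈ Cu z ∧ Reg ℓ s) := by
      have h3 : t⁻¹ * (t * s * t⁻¹) * t = s := by group
      have h4 : orderOf (t * s * t⁻¹) = orderOf s := MulEquiv.orderOf_eq (MulAut.conj t) s
      rw [mem_cu_conj, h3]
      unfold Reg
      rw [h4]
    apply finsum_congr_Prop hmem
    intro _
    have hk : t * z * t⁻¹ * (t * s * t⁻¹) = t * (z * s) * t⁻¹ := by group
    have hcl : IsCl (fun s : Cu z => b z s) := (hZ.lb z hz).1.bx.blk.1.1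
    rw [hk, T6.H17.gv_cj2 (M := M) (z * s) rfl hcl (hirr χ hχ),
      T6.H17.gv_cj2 (M := M) (z * s) rfl hcl (hirr ψ hψ)]
  · intro z hz j hj
    have hC := cu_pow2 (hEl z hz) hj
    have hzj : z ^ j ∈ Z := Z.pow_mem hz j
    refine ⟨hC, ?_, ?_⟩
    · apply uniq hF hZ.tp.pg hZ.gam (fun v hv => hZ.cen _ hzj v hv) (hZ.lb _ hzj).1.bx _
        (hZ.lb _ hzj).2 (hZ.lb _ hz).2
      rw [hC]
      exact (hZ.lb z hz).1.bx
    · unfold cz
      rw [hC]
  · -- `iz` is prime to `ℓ`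
    have h2 := h1 ℓ M hM G e hZ.blk V hZ.tp γ hZ.gam hZ.und
    intro h3
    apply h2
    have hle : V ⊔ Subgroup.centralizer (V : Set G) ≤
        Subgroup.centralizer (Z : Set G) ⊓ Tg V γ := by
      apply sup_le
      · intro v hv
        refine Subgroup.mem_inf.2 ⟨?_, Subgroup.le_normalizer hv, ?_⟩
        · rw [Subgroup.mem_centralizer_iff]
          intro z hz
          exact (hZ.cen z hz v hv).symm
        · intro x
          by_cases hx : x ∈ Subgroup.centralizer (V : Set G)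
          · have h4 : v * x = x * v := Subgroup.mem_centralizer_iff.1 hx v hv
            rw [h4, mul_inv_cancel_right]
          · rw [hZ.gam.supp x hx, hZ.gam.supp]
            intro h4
            apply hx
            have h5 : v * (v * x * v⁻¹) = (v * x * v⁻¹) * v := Subgroup.mem_centralizer_iff.1 h4 v hv
            have h6 : v * x * v⁻¹ = x := by
              have h7 : v * x * v⁻¹ * v = v * x := by group
              rw [h7] at h5
              exact mul_left_cancel h5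
            rw [← h6]
            exact h4
      · intro c hc
        refine Subgroup.mem_inf.2 ⟨?_, ?_, ?_⟩
        · rw [Subgroup.mem_centralizer_iff]
          intro z hz
          exact Subgroup.mem_centralizer_iff.1 hc z (hZ.le hz)
        · exact Subgroup.centralizer_le_normalizer _ hc
        · exact (cj_eq_iff c γ).1 (hZ.gam.ix.inv hc)
    have h4 := Subgroup.relIndex_mul_relIndex _ _ _ hle
      (inf_le_right : Subgroup.centralizer (Z : Set G) ⊓ Tg V γ ≤ Tg V γ)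
    rw [← h4]
    exact Dvd.dvd.mul_left h3 _
  · unfold cz iz
    congr 1
    apply le_antisymm inf_le_left
    intro x hx
    refine Subgroup.mem_inf.2 ⟨hx, ?_⟩
    rw [Subgroup.mem_centralizer_singleton_iff, mul_one, one_mul]

end Pool.Agent.PP.TB.H17
end
end -- Pool.Agent.Helper17_ATZ.ZCP

section -- Pool.Agent.Helper69_AT10.ZLO

/-!
# AT10, row ZLO: the data for `Z = Z(V) ^ (ℓ ^ p)` and the local property
-/

open scoped BigOperators

set_option autoImplicit false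

noncomputable section

namespace Pool.Agent.PP.T10.H69

open Pool.Agent.Helper51_AWC Pool.Agent.Helper79_WRA Pool.Agent.PP Pool.Agent.PP.KF
open Pool.Agent.PP.K9 Pool.Agent.PP.K9.H97 Pool.Agent.PP.H75 Pool.Agent.PP.T3 Pool.Agent.PP.T2
open Pool.Agent.PP.T5 Pool.Agent.PP.TB
open Pool.Agent.PP.T8 (rs pw fv rd Ip Rv)

attribute [local instance] Ideal.Quotient.field

section tools

variable {F G : Type} [Field F] [Group G] [Finite G] {ℓ : ℕ} [Fact ℓ.Prime]

theorem brx (hF : GoodF ℓ F) {P : Subgroup G} (hP : IsPGroup ℓ P) {e : G → F} (he : IsIdem e) :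
    Ix (Subgroup.centralizer (P : Set G)) (br P e) :=
  ⟨fun _ hx => Pool.Agent.PP.H66.br_of_not_mem hx,
    (Pool.Agent.PP.H20.brm ℓ F hF G P (Subgroup.centralizer (P : Set G)) hP le_rfl
      (Subgroup.centralizer_le_normalizer _)).2.2 e he⟩

/-- uniqueness of the local block -/
theorem loc_un (hF : GoodF ℓ F) {V : Subgroup G} (hV : IsPGroup ℓ V) {γ : G → F}
    (hγ : Bx (Subgroup.centralizer (V : Set G)) γ) {z : G} (hVC : V ≤ Cu z) {b b' : G → F}
    (hb : Bx (Cu z) b) (hb' : Bx (Cu z) b') (h : mulF (br V b) γ = γ)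
    (h' : mulF (br V b') γ = γ) : b = b' := by
  rcases hb.dich hb' with h0 | h0
  · exact h0
  · exfalso
    apply hγ.ne
    have h1 := T3.H88.br_mul hF hV hVC hb.ix hb'.ix
    rw [h0, T3.H88.br_zero] at h1
    calc γ = mulF (br V b) (mulF (br V b') γ) := by rw [h', h]
      _ = mulF (mulF (br V b) (br V b')) γ := (mulF_assoc _ _ _).symm
      _ = 0 := by rw [← h1, mulF_zero_left]

omit [Finite G] [Fact ℓ.Prime] in
theorem zc_le {V : Subgroup G} {z : G} (hz : z ∈ Zc V) : V ≤ Cu z := fun v hv =>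
  Subgroup.mem_centralizer_singleton_iff.2 (Subgroup.mem_centralizer_iff.1 hz.2 v hv)

/-- existence of the local block -/
theorem loc_ex (hF : GoodF ℓ F) {e : G → F} {V : Subgroup G} {γ : G → F} (hblk : IsBlk e)
    (htp : Tp ℓ e V) (hγ : Bx (Subgroup.centralizer (V : Set G)) γ)
    (hund : mulF (br V e) γ = γ) {u : G} (hu : u ∈ Zc V) :
    ∃ b, Lb ℓ e V u b ∧ mulF (br V b) γ = γ := by
  have hVC : V ≤ Cu u := zc_le hu
  have hXC : Subgroup.centralizer (V : Set G) ≤ Cu u := T3.H88.cent_le_cu hu.1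
  have hel := T3.H88.el_of_mem htp.pg hu.1
  have heI := T3.H88.idem_cu hF hblk.1 hel
  set E : G → F := PP.ext0 (Cu u) (fun t : Cu u => e t) with hE
  have hEX : Ix (Cu u) E := by
    refine ⟨fun x hx => Pool.Agent.PP.H46.ext0_of_not_mem _ hx, ?_⟩
    rw [hE, Pool.Agent.PP.H46.restr_ext0]
    exact heI
  have hbrE : br V E = br V e := by
    funext g
    by_cases hg : g ∈ Subgroup.centralizer (V : Set G)
    · rw [Pool.Agent.PP.H66.br_of_mem hg, Pool.Agent.PP.H66.br_of_mem hg, hE,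
        Pool.Agent.PP.H46.ext0_of_mem _ (hXC hg)]
    · rw [Pool.Agent.PP.H66.br_of_not_mem hg, Pool.Agent.PP.H66.br_of_not_mem hg]
  have hext_add : ∀ a b : Cu u → F,
      PP.ext0 (Cu u) (a + b) = PP.ext0 (Cu u) a + PP.ext0 (Cu u) b := by
    intro a b
    funext x
    by_cases hx : x ∈ Cu u
    · rw [Pool.Agent.PP.H46.ext0_of_mem _ hx, Pi.add_apply, Pi.add_apply,
        Pool.Agent.PP.H46.ext0_of_mem _ hx, Pool.Agent.PP.H46.ext0_of_mem _ hx]
    · rw [Pool.Agent.PP.H46.ext0_of_not_mem _ hx, Pi.add_apply,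
        Pool.Agent.PP.H46.ext0_of_not_mem _ hx, Pool.Agent.PP.H46.ext0_of_not_mem _ hx, add_zero]
  have hext_zero : PP.ext0 (Cu u) (0 : Cu u → F) = 0 := by
    funext x
    by_cases hx : x ∈ Cu u
    · rw [Pool.Agent.PP.H46.ext0_of_mem _ hx]
      rfl
    · rw [Pool.Agent.PP.H46.ext0_of_not_mem _ hx]
      rfl
  obtain ⟨b₀, hb₀, heb₀, hL₀⟩ := K9.H24.exists_blk
    (fun a : Cu u → F => mulF (br V (PP.ext0 (Cu u) a)) γ)
    (by
      show mulF (br V (PP.ext0 (Cu u) 0)) γ = 0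
      rw [hext_zero, T3.H88.br_zero, mulF_zero_left])
    (by
      intro a b
      show mulF (br V (PP.ext0 (Cu u) (a + b))) γ =
        mulF (br V (PP.ext0 (Cu u) a)) γ + mulF (br V (PP.ext0 (Cu u) b)) γ
      rw [hext_add, T3.H88.br_add, K9.H24.mulF_add_l])
    heI
    (by
      show mulF (br V E) γ ≠ 0
      rw [hbrE, hund]
      exact hγ.ne)
  have hrestr : (fun t : Cu u => PP.ext0 (Cu u) b₀ t) = b₀ := Pool.Agent.PP.H46.restr_ext0 _
  have hbx : Bx (Cu u) (PP.ext0 (Cu u) b₀) := by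
    refine ⟨fun x hx => Pool.Agent.PP.H46.ext0_of_not_mem _ hx, ?_⟩
    rw [hrestr]
    exact hb₀
  have hbr : mulF (br V (PP.ext0 (Cu u) b₀)) γ = γ := by
    have hix := T3.H88.ix_br hF htp.pg hVC hXC hbx.ix
    rw [hix.comm hγ.ix]
    rcases hγ.dich' hix with h | h
    · exact h
    · exfalso
      apply hL₀
      show mulF (br V (PP.ext0 (Cu u) b₀)) γ = 0
      rw [hix.comm hγ.ix, h]
  refine ⟨PP.ext0 (Cu u) b₀, ⟨hblk, htp, hu.1, fun v hv => ?_, hbx, ?_, ?_⟩, hbr⟩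
  · exact Subgroup.mem_centralizer_iff.1 hu.2 v hv
  · rw [hrestr]
    exact heb₀
  · by_contra hcon
    apply hγ.ne
    have h0 : br V (PP.ext0 (Cu u) b₀) = 0 := by
      funext g
      by_cases hg : g ∈ Subgroup.centralizer (V : Set G)
      · rw [Pool.Agent.PP.H66.br_of_mem hg]
        by_contra h1
        exact hcon ⟨g, hg, h1⟩
      · rw [Pool.Agent.PP.H66.br_of_not_mem hg]
        rfl
    rw [← hbr, h0, mulF_zero_left]

omit [Finite G] [Fact ℓ.Prime] in
/-- restriction of compatible functions -/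
theorem cm_mono {P P' : Subgroup G} (h : P ≤ P') {β : Subgroup G → G → F} (hβ : Cm P' β) :
    Cm P β :=
  ⟨fun Q hQ => hβ.bx Q (hQ.trans h), fun Q S h1 h2 => hβ.st Q S h1 (h2.trans h),
    fun Q S h1 h2 => hβ.br Q S h1 (h2.trans h)⟩

omit [Finite G] in
theorem conjS_mono (g : G) {Q S : Subgroup G} (h : Q ≤ S) : conjS g Q ≤ conjS g S := by
  intro x hx
  rw [T3.H62.mem_conjS] at hx ⊢
  exact h hx

/-- the conjugate of a compatible function -/
theorem cm_conj {V : Subgroup G} {g : G} {β : Subgroup G → G → F} (hβ : Cm (conjS g V) β) :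
    Cm V (fun Q => cj g⁻¹ (β (conjS g Q))) := by
  refine ⟨fun Q hQ => ?_, fun Q S hQS hS hN s hs => ?_, fun Q S hQS hS hN => ?_⟩
  · refine T3.H62.bx_cj (X := Subgroup.centralizer (conjS g Q : Set G)) (fun x => ?_)
      (hβ.bx (conjS g Q) (conjS_mono g hQ))
    rw [T3.H62.mem_cent_conjS]
    have e : g⁻¹ * (g⁻¹⁻¹ * x * g⁻¹) * g = x := by group
    rw [e]
  · have hN' : conjS g S ≤ Subgroup.normalizer (conjS g Q : Set G) := by
      intro x hx
      rw [T3.H62.mem_conjS] at hx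
      rw [T3.H62.mem_norm_conjS]
      exact hN hx
    have h1 := hβ.st (conjS g Q) (conjS g S) (conjS_mono g hQS) (conjS_mono g hS) hN'
      (g * s * g⁻¹) ((T3.H62.conjS_mem_iff s).2 hs)
    change cj s (cj g⁻¹ (β (conjS g Q))) = cj g⁻¹ (β (conjS g Q))
    have e : s * g⁻¹ = g⁻¹ * (g * s * g⁻¹) := by group
    rw [cj_cj, e, ← cj_cj, h1]
  · have hN' : conjS g S ≤ Subgroup.normalizer (conjS g Q : Set G) := by
      intro x hx
      rw [T3.H62.mem_conjS] at hx
      rw [T3.H62.mem_norm_conjS]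
      exact hN hx
    have h1 := hβ.br (conjS g Q) (conjS g S) (conjS_mono g hQS) (conjS_mono g hS) hN'
    change mulF (br S (cj g⁻¹ (β (conjS g Q)))) (cj g⁻¹ (β (conjS g S))) =
      cj g⁻¹ (β (conjS g S))
    have h2 := T2.H65.cj_br g⁻¹ (conjS g S) (β (conjS g Q))
    have h3 : conjS g⁻¹ (conjS g S) = S := by
      ext x
      rw [T3.H62.mem_conjS, T3.H62.mem_conjS]
      have e : g⁻¹ * (g⁻¹⁻¹ * x * g⁻¹) * g = x := by group
      rw [e]
    rw [h3] at h2
    rw [h2, ← cj_mulF, h1]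

omit [Finite G] in
theorem conjS_zpowers (g u : G) :
    conjS g (Subgroup.zpowers (g⁻¹ * u * g)) = Subgroup.zpowers u := by
  ext x
  rw [T3.H62.mem_conjS, Subgroup.mem_zpowers_iff, Subgroup.mem_zpowers_iff]
  have e : ∀ k : ℤ, (g⁻¹ * u * g) ^ k = g⁻¹ * u ^ k * g := by
    intro k
    have h := conj_zpow (i := k) (a := g⁻¹) (b := u)
    rw [inv_inv] at h
    exact h
  constructor
  · rintro ⟨k, hk⟩
    rw [e] at hk
    exact ⟨k, mul_left_cancel (mul_right_cancel hk)⟩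
  · rintro ⟨k, hk⟩
    exact ⟨k, by rw [e, hk]⟩

omit [Finite G] in
/-- restriction to the centraliser of `u` is the Brauer map of the group generated by `u` -/
theorem rs_eq_br (u : G) (a : G → F) : rs (Cu u) a = br (Subgroup.zpowers u) a := by
  classical
  funext x
  unfold rs
  by_cases hx : x ∈ Cu u
  · rw [if_pos hx, Pool.Agent.PP.H66.br_of_mem]
    rw [T3.H88.cu_eq]
    exact hx
  · rw [if_neg hx, Pool.Agent.PP.H66.br_of_not_mem]
    rw [T3.H88.cu_eq]
    exact hx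

end tools

theorem zlo (hPRX : PrxStmt) (hPRU : PruStmt) (hPRM : PrmStmt) (hUNB : UnbStmt)
    (hSCL : SclStmt) : ZloStmt := by
  classical
  intro ℓ _ M _ hM G _ _ e V γ hblk htp hγ hund p hcard
  have hF : GoodF ℓ (FF M) := H50.fld ℓ Fact.out M hM
  have hab : ∀ a ∈ Zc V, ∀ b ∈ Zc V, a * b = b * a := fun a ha b hb =>
    (Subgroup.mem_centralizer_iff.1 hb.2 a ha.1)
  obtain ⟨hUm, hUle, -⟩ := T2.H32.pwu G (ℓ ^ p) (Zc V) hab
  set Z : Subgroup G := Uw (ℓ ^ p) (Zc V) with hZdef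
  have hZV : ∀ z ∈ Z, z ∈ V := fun z hz => (hUle hz).1
  have hVCz : ∀ z ∈ Z, V ≤ Cu z := fun z hz => zc_le (hUle hz)
  -- the local blocks
  have hex : ∀ z : G, ∃ b : G → FF M, z ∈ Z → Lb ℓ e V z b ∧ mulF (br V b) γ = γ := by
    intro z
    by_cases hz : z ∈ Z
    · obtain ⟨b, hb⟩ := loc_ex hF hblk htp hγ hund (hUle hz)
      exact ⟨b, fun _ => hb⟩
    · exact ⟨0, fun h => absurd h hz⟩
  choose b hb using hex
  have hnrm : ∀ t ∈ Tg V γ, ∀ z ∈ Z, t * z * t⁻¹ ∈ Z := by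
    intro t ht z hz
    obtain ⟨w, hw, rfl⟩ := (hUm z).1 hz
    have ht' : t ∈ Subgroup.normalizer (V : Set G) := ht.1
    rw [hUm]
    refine ⟨t * w * t⁻¹, ⟨?_, ?_⟩, ?_⟩
    · exact (Subgroup.mem_normalizer_iff.1 ht' w).1 hw.1
    · change t * w * t⁻¹ ∈ Subgroup.centralizer (V : Set G)
      rw [Subgroup.mem_centralizer_iff]
      intro v hv
      have hv' : t⁻¹ * v * t ∈ V := (conj_mem_iff ht' v).2 hv
      have h1 := Subgroup.mem_centralizer_iff.1 hw.2 _ hv'
      have h2 : v * (t * w * t⁻¹) = t * ((t⁻¹ * v * t) * w) * t⁻¹ := by group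
      rw [h2, h1]
      group
    · rw [conj_pow]
  -- the compatible function of `(V, γ)`
  obtain ⟨β₀, hβ₀, hβ₀V⟩ := hPRX ℓ (FF M) hF G V htp.pg γ hγ
  have hA : ∀ z ∈ Z, β₀ (Subgroup.zpowers z) = b z := by
    intro z hz
    have hzV : Subgroup.zpowers z ≤ V := by
      rw [Subgroup.zpowers_le]
      exact hZV z hz
    have hN : V ≤ Subgroup.normalizer (Subgroup.zpowers z : Set G) := by
      refine (hVCz z hz).trans ?_
      rw [← T3.H88.cu_eq]
      exact Subgroup.centralizer_le_normalizer _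
    have h1 := hβ₀.br (Subgroup.zpowers z) V hzV le_rfl hN
    rw [hβ₀V] at h1
    have h2 := hβ₀.bx (Subgroup.zpowers z) hzV
    rw [T3.H88.cu_eq] at h2
    exact loc_un hF htp.pg hγ (hVCz z hz) h2 (hb z hz).1.bx h1 (hb z hz).2
  have hscl := hSCL ℓ M hM G e V γ hblk htp hγ hund p hcard β₀ hβ₀ hβ₀V
  have hZd : Zd ℓ e V Z γ b := by
    refine ⟨hblk, htp, hγ, hund, fun z hz => hZV z hz, fun z hz v hv => ?_, hnrm, hb, ?_⟩
    · exact Subgroup.mem_centralizer_iff.1 (hUle hz).2 v hv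
    · intro z hz z' hz' x hx hcj
      exact hscl z' hz' (b z') (hb z' hz').1 (hb z' hz').2 z (hZV z hz) x hx
        (hcj.trans (hA z hz).symm)
  refine ⟨b, hZd, ?_⟩
  -- the local property
  intro P hP i hi hei hbri
  obtain ⟨β', hβ', hβ'i⟩ := hUNB ℓ (FF M) hF G P hP i hi hbri
  have hBP : Bx (Subgroup.centralizer (P : Set G)) (β' P) := hβ'.bx P le_rfl
  have hiP : mulF (br P i) (β' P) = br P i := hβ'i P le_rfl
  have hPe := brx hF hP hblk.1
  have heinv : ∀ v ∈ P, ∀ x, e (v * x * v⁻¹) = e x := fun v _ x => hblk.1.1 x v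
  have hePi : mulF (br P e) (br P i) = br P i := by
    rw [← Pool.Agent.PP.H66.br_mulF hF hP heinv hi.iv, hei]
  have hund' : mulF (br P e) (β' P) = β' P := by
    rw [hPe.comm hBP.ix]
    rcases hBP.dich' hPe with h | h
    · exact h
    · exfalso
      apply hbri
      have hcomm : ∀ a : G → FF M, (∀ x, x ∉ Subgroup.centralizer (P : Set G) → a x = 0) →
          mulF (br P e) a = mulF a (br P e) := fun a ha =>
        (mulF_comm_of (K := Subgroup.centralizer (P : Set G)) ha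
          (fun k hk => hPe.inv hk)).symm
      have h1 : mulF (br P i) (br P e) = br P i := by
        rw [← hcomm _ (fun x hx => Pool.Agent.PP.H66.br_of_not_mem hx), hePi]
      calc br P i = mulF (mulF (br P i) (β' P)) (br P e) := by rw [hiP, h1]
        _ = mulF (br P i) (mulF (β' P) (br P e)) := mulF_assoc _ _ _
        _ = 0 := by rw [h, Pool.Agent.PP.H46.mulF_zero]
  obtain ⟨g, β, hβ, hPg, hβg, hβP⟩ := hPRM ℓ M hM G e V γ hblk htp hγ hund P hP (β' P) hBP hund'
  have hββ' : ∀ Q ≤ P, β Q = β' Q := hPRU ℓ (FF M) hF G P hP β β' (cm_mono hPg hβ) hβ' hβP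
  have hβ₁ : Cm V (fun Q => cj g⁻¹ (β (conjS g Q))) := cm_conj hβ
  have hβ₁₀ : ∀ Q ≤ V, cj g⁻¹ (β (conjS g Q)) = β₀ Q :=
    hPRU ℓ (FF M) hF G V htp.pg (fun Q => cj g⁻¹ (β (conjS g Q))) β₀ hβ₁ hβ₀ (by
      change cj g⁻¹ (β (conjS g V)) = β₀ V
      rw [hβg, cj_inv_cj, hβ₀V])
  -- the elements of `P`
  have hu1 : ∀ u ∈ P, mulF (rs (Cu u) i) (β (Subgroup.zpowers u)) = rs (Cu u) i := by
    intro u hu
    have hle : Subgroup.zpowers u ≤ P := by
      rw [Subgroup.zpowers_le]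
      exact hu
    rw [rs_eq_br, hββ' _ hle]
    exact hβ'i _ hle
  have hu2 : ∀ u ∈ P, β (Subgroup.zpowers u) = cj g (β₀ (Subgroup.zpowers (g⁻¹ * u * g))) := by
    intro u hu
    have h1 : g⁻¹ * u * g ∈ V := T3.H62.mem_conjS.1 (hPg hu)
    have h2 := hβ₁₀ (Subgroup.zpowers (g⁻¹ * u * g)) (by
      rw [Subgroup.zpowers_le]
      exact h1)
    rw [conjS_zpowers] at h2
    rw [← h2, cj_cj_inv]
  refine ⟨g, hPg, ?_, ?_⟩
  · intro u hu huZ
    have h1 := hu1 u hu
    rw [hu2 u hu, hA _ (T3.H62.mem_conjS.1 huZ)] at h1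
    exact h1
  · intro u hu huZ z hz q hq
    have hbx1 : Bx (Cu u) (cj q (b z)) := T3.H49.bx_cj hq (hb z hz).1.bx
    have hbx2 : Bx (Cu u) (β (Subgroup.zpowers u)) := by
      have h1 := hβ.bx (Subgroup.zpowers u) (by
        rw [Subgroup.zpowers_le]
        exact hPg hu)
      rw [T3.H88.cu_eq] at h1
      exact h1
    rcases hbx2.dich hbx1 with h | h
    · exfalso
      have hu0 : g⁻¹ * u * g ∈ V := T3.H62.mem_conjS.1 (hPg hu)
      have h1 : cj (g⁻¹ * q) (b z) = β₀ (Subgroup.zpowers (g⁻¹ * u * g)) := by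
        rw [← cj_cj, ← h, hu2 u hu, cj_inv_cj]
      have h2 : g⁻¹ * q * z * (g⁻¹ * q)⁻¹ = g⁻¹ * u * g := by
        rw [← hq]
        group
      obtain ⟨t, ht, htz⟩ := hscl z hz (b z) (hb z hz).1 (hb z hz).2 _ hu0 (g⁻¹ * q) h2 h1
      apply huZ
      rw [T3.H62.mem_conjS, ← htz]
      exact hnrm t ht z hz
    · rw [← hu1 u hu, mulF_assoc, h, Pool.Agent.PP.H46.mulF_zero]

end Pool.Agent.PP.T10.H69
end
end -- Pool.Agent.Helper69_AT10.ZLO

section -- Pool.Agent.Helper69_AT10.STF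

/-!
# AT10, row STF: the conclusion of the STAR block
-/

open scoped BigOperators

set_option autoImplicit false

noncomputable section

namespace Pool.Agent.PP.T10.H69

open Pool.Agent.Helper51_AWC Pool.Agent.Helper79_WRA Pool.Agent.PP Pool.Agent.PP.KF
open Pool.Agent.PP.K9 Pool.Agent.PP.K9.H97 Pool.Agent.PP.H75 Pool.Agent.PP.T3 Pool.Agent.PP.T2
open Pool.Agent.PP.T5 Pool.Agent.PP.TB
open Pool.Agent.PP.T8 (rs pw fv rd Ip Rv)

attribute [local instance] Ideal.Quotient.field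

/-- a block of `C(V)` under `br_V(e)` -/
theorem gam_ex {F G : Type} [Field F] [Group G] [Finite G] {ℓ : ℕ} [Fact ℓ.Prime] (hF : GoodF ℓ F)
    {e : G → F} {V : Subgroup G} (hblk : IsBlk e) (htp : Tp ℓ e V) :
    ∃ γ : G → F, Bx (Subgroup.centralizer (V : Set G)) γ ∧ mulF (br V e) γ = γ := by
  have hX := brx hF htp.pg hblk.1
  obtain ⟨g, hg, hg0⟩ := htp.gd
  obtain ⟨c, hc, hec, -⟩ := K9.H24.exists_blk
    (fun a : Subgroup.centralizer (V : Set G) → F => a)
    rfl (fun _ _ => rfl) hX.idem (by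
      intro h0
      have h1 := congrFun h0 ⟨g, hg⟩
      change br V e g = 0 at h1
      rw [Pool.Agent.PP.H66.br_of_mem hg] at h1
      exact hg0 h1)
  have hrestr : (fun t : Subgroup.centralizer (V : Set G) =>
      PP.ext0 (Subgroup.centralizer (V : Set G)) c t) = c := Pool.Agent.PP.H46.restr_ext0 _
  have hbx : Bx (Subgroup.centralizer (V : Set G))
      (PP.ext0 (Subgroup.centralizer (V : Set G)) c) := by
    refine ⟨fun x hx => Pool.Agent.PP.H46.ext0_of_not_mem _ hx, ?_⟩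
    rw [hrestr]
    exact hc
  refine ⟨_, hbx, ?_⟩
  apply eq_of_res (mulF_supp _ hX.supp hbx.supp) hbx.supp
  rw [mulF_res _ _ hX.supp, hrestr]
  exact hec

theorem stf (hCLZ : TB.ClzStmt) (hZLO : ZloStmt) (hSTR : StrStmt) : StfStmt := by
  intro ℓ _ M _ hM G _ _ e V r p hblk htp hCl
  have hF : GoodF ℓ (FF M) := H50.fld ℓ Fact.out M hM
  obtain ⟨γ, hγ, hund⟩ := gam_ex hF hblk htp
  have hcard := (hCLZ ℓ G r p V htp.pg hCl).1
  obtain ⟨b, hZd, hLo⟩ := hZLO ℓ M hM G e V γ hblk htp hγ hund p hcard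
  exact ⟨γ, b, hZd, hSTR ℓ M hM G e V _ γ b hZd hLo⟩

end Pool.Agent.PP.T10.H69
end
end -- Pool.Agent.Helper69_AT10.STF

section -- Pool.Agent.Helper94_AT6.BLK

/-!
# Squad AT6, row BLK: the component in a local section of a section component, modulo `ℓ ^ c`
-/

open scoped BigOperators

set_option autoImplicit false

noncomputable section

namespace Pool.Agent.PP.T6.H94

open Pool.Agent.Helper51_AWC Pool.Agent.Helper79_WRA Pool.Agent.PP Pool.Agent.PP.KF
open Pool.Agent.PP.K9 Pool.Agent.PP.K9.H97 Pool.Agent.PP.H75 Pool.Agent.PP.T3 Pool.Agent.PP.T2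
open Pool.Agent.PP.T6

attribute [local instance] Ideal.Quotient.field

section tools

variable {G : Type} [Group G] [Finite G]

/-- two functions commute if the second one is invariant under the support of the first -/
theorem comm_of_inv {F : Type} [Field F] {a c : G → F}
    (h : ∀ r, a r ≠ 0 → ∀ y, c (r * y * r⁻¹) = c y) : mulF a c = mulF c a := by
  have := Fintype.ofFinite G
  funext y
  unfold mulF
  rw [finsum_eq_sum_of_fintype, finsum_eq_sum_of_fintype]
  rw [← Equiv.sum_comp ((Equiv.inv G).trans (Equiv.mulLeft y)) (fun t => c t * a (t⁻¹ * y))]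
  refine Finset.sum_congr rfl fun r _ => ?_
  change a r * c (r⁻¹ * y) = c (y * r⁻¹) * a ((y * r⁻¹)⁻¹ * y)
  have e1 : (y * r⁻¹)⁻¹ * y = r := by group
  rw [e1, mul_comm]
  by_cases hr : a r = 0
  · rw [hr, mul_zero, mul_zero]
  · have h1 := h r hr (r⁻¹ * y)
    have e2 : r * (r⁻¹ * y) * r⁻¹ = y * r⁻¹ := by group
    rw [e2] at h1
    rw [h1]

/-- the facts on the lift of an idempotent of a subgroup -/
theorem hat_facts {M : Ideal (integralClosure ℤ ℂ)} [M.IsMaximal] (X : Subgroup G)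
    {b : G → FF M} (hb : Ix X b) :
    (∀ y, hat M X b y ∈ RM M) ∧ (∀ y, rr M (hat M X b y) = b y) ∧
    (∀ y, y ∉ X → hat M X b y = 0) ∧ mulF (hat M X b) (hat M X b) = hat M X b ∧
    ∀ d ∈ X, ∀ y, hat M X b (d * y * d⁻¹) = hat M X b y := by
  have := Fintype.ofFinite G
  have := Fintype.ofFinite X
  have h1 := KF.H25.idm M X (fun t : X => b t) hb.idem
  have hsupp : ∀ y, y ∉ X → hat M X b y = 0 := H75.ext0_supp X _
  have hin : ∀ y (hy : y ∈ X), hat M X b y = eh M (fun t : X => b t) ⟨y, hy⟩ := by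
    intro y hy
    unfold hat
    rw [H75.ext0, dif_pos hy]
  refine ⟨?_, ?_, hsupp, ?_, ?_⟩
  · intro y
    by_cases hy : y ∈ X
    · rw [hin y hy]
      exact (h1.1 _).1
    · rw [hsupp y hy]
      exact (RM M).zero_mem
  · intro y
    by_cases hy : y ∈ X
    · rw [hin y hy]
      exact (h1.1 _).2
    · rw [hsupp y hy, rr_zero, hb.supp y hy]
  · unfold hat
    rw [← H75.ext0_mulF, h1.2.1.2]
  · intro d hd y
    by_cases hy : y ∈ X
    · have hy' : d * y * d⁻¹ ∈ X := X.mul_mem (X.mul_mem hd hy) (X.inv_mem hd)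
      rw [hin y hy, hin _ hy']
      exact h1.2.1.1 ⟨y, hy⟩ ⟨d, hd⟩
    · have hy' : d * y * d⁻¹ ∉ X := by
        intro h
        apply hy
        have := X.mul_mem (X.mul_mem (X.inv_mem hd) h) hd
        have e : d⁻¹ * (d * y * d⁻¹) * d = y := by group
        rwa [e] at this
      rw [hsupp y hy, hsupp _ hy']

theorem dv_zero {M : Ideal (integralClosure ℤ ℂ)} [M.IsMaximal] (m : ℂ) : Dv M m 0 :=
  ⟨0, (RM M).zero_mem, (mul_zero m).symm⟩

theorem dv_neg {M : Ideal (integralClosure ℤ ℂ)} [M.IsMaximal] {m z : ℂ} (h : Dv M m z) :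
    Dv M m (-z) := by
  obtain ⟨t, ht, rfl⟩ := h
  exact ⟨-t, (RM M).neg_mem ht, by ring⟩

theorem fv_sub (a c : G → ℂ) (g : G) (θ : G → ℂ) :
    T8.fv (a - c) g θ = T8.fv a g θ - T8.fv c g θ := by
  have := Fintype.ofFinite G
  unfold T8.fv
  rw [finsum_eq_sum_of_fintype, finsum_eq_sum_of_fintype, finsum_eq_sum_of_fintype,
    ← Finset.sum_sub_distrib]
  refine Finset.sum_congr rfl fun x _ => ?_
  rw [Pi.sub_apply]
  ring

omit [Finite G] in
theorem el_mem {ℓ : ℕ} {V : Subgroup G} (hV : IsPGroup ℓ V) {u : G} (hu : u ∈ V) : El ℓ u := by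
  obtain ⟨k, hk⟩ := hV ⟨u, hu⟩
  exact ⟨k, by simpa using congrArg Subtype.val hk⟩

end tools

theorem blk (svv : SvvStmt) (clc : ClcStmt) (cnd : CndStmt) (div : DivStmt)
    (pwu : T2.PwuStmt) : BlkStmt := by
  intro ℓ _ M _ hM G _ _ e V γ hL c V₁ W hV₁ hW f hf v hv b hb v' hv' g' hg' θ hθ hθR h hh
  classical
  have := Fintype.ofFinite G
  have hab := hL.ab
  obtain ⟨hU1, hU2, -⟩ := pwu G (ℓ ^ c) V hab
  have hVV : V₁ ≤ V := hV₁ ▸ hU2
  have hWV : W ≤ V := by
    rw [hW]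
    exact (pwu G (ℓ ^ (2 * c)) V hab).2.1
  have hab₁ : ∀ a ∈ V₁, ∀ b ∈ V₁, a * b = b * a := fun a ha b hb => hab a (hVV ha) b (hVV hb)
  have hUW : Uw (ℓ ^ c) V₁ = W := by
    ext x
    rw [(pwu G (ℓ ^ c) V₁ hab₁).1, hW, (pwu G (ℓ ^ (2 * c)) V hab).1]
    constructor
    · rintro ⟨d, hd, rfl⟩
      rw [hV₁, hU1] at hd
      obtain ⟨w, hw, rfl⟩ := hd
      exact ⟨w, hw, by rw [← pow_mul, ← pow_add, two_mul]⟩
    · rintro ⟨w, hw, rfl⟩
      refine ⟨w ^ ℓ ^ c, ?_, by rw [← pow_mul, ← pow_add, two_mul]⟩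
      rw [hV₁, hU1]
      exact ⟨w, hw, rfl⟩
  have hV₁H : V₁ ≤ Subgroup.centralizer (W : Set G) := by
    intro d hd
    rw [Subgroup.mem_centralizer_iff]
    intro y hy
    exact hab y (hWV hy) d (hVV hd)
  have hP₁ : IsPGroup ℓ V₁ := hL.tp.pg.to_le hVV
  obtain ⟨H, hH⟩ : ∃ H : Subgroup G, H = Subgroup.centralizer (W : Set G) := ⟨_, rfl⟩
  have hcnd := cnd ℓ M hM G e V γ hL W hWV f hf v hv b hb v' hv' g' hg'
  subst hH
  have hbI : Ix (Cu v) b := hb.blk.ix
  have hgI : Ix (Cu v') g' := hg'.blk.ix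
  have hsv := svv ℓ M hM G v b hbI θ hθ
  have hψ : ∀ x y : Subgroup.centralizer (W : Set G),
      sv M ℓ v b θ ((y * x * y⁻¹ : Subgroup.centralizer (W : Set G)) : G) = sv M ℓ v b θ x := by
    intro x y
    exact hsv.2.2.1 x y
  have hθH : ∀ x y : Subgroup.centralizer (W : Set G),
      θ ((y * x * y⁻¹ : Subgroup.centralizer (W : Set G)) : G) = θ x := fun x y => hθ x y
  have hs1 := svv ℓ M hM _ v' g' hgI
    (fun t : Subgroup.centralizer (W : Set G) => sv M ℓ v b θ t) hψ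
  have hs2 := svv ℓ M hM _ v' g' hgI (fun t : Subgroup.centralizer (W : Set G) => θ t) hθH
  by_cases hu : ∃ u : Subgroup.centralizer (W : Set G), T5.Lp ℓ (u⁻¹ * h * u) v'
  swap
  · have hu' : ∀ u : Subgroup.centralizer (W : Set G), ¬ T5.Lp ℓ (u⁻¹ * h * u) v' :=
      fun u h' => hu ⟨u, h'⟩
    rw [hs1.2.1 h hu', hs2.2.1 h hu', sub_zero]
    exact ⟨fun _ => dv_zero _, fun _ => dv_zero _⟩
  obtain ⟨u, hu⟩ := hu
  rw [hs1.1 h u hu, hs2.1 h u hu]
  obtain ⟨x, hx⟩ : ∃ x, x = u * v' * u⁻¹ := ⟨_, rfl⟩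
  obtain ⟨κ, hκ⟩ : ∃ κ, κ = cj u g' := ⟨_, rfl⟩
  have hlp : T5.Lp ℓ h x := by
    rw [hx]
    exact H17.lp_conj hu
  have hcu : ∀ ψ : Subgroup.centralizer (W : Set G) → ℂ, (∀ x y, ψ (y * x * y⁻¹) = ψ x) →
      gv M (Cu v') (u⁻¹ * h * u) g' ψ = gv M (Cu x) h κ ψ := by
    intro ψ hψ
    have h1 := H17.gv_cj2 (u⁻¹ * h * u) hx.symm hgI.idem.1 hψ
    have e1 : u * (u⁻¹ * h * u) * u⁻¹ = h := by group
    rw [e1, ← hκ] at h1
    exact h1.symm
  rw [hcu _ hψ, hcu _ hθH]
  have hκI : Ix (Cu x) κ := by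
    rw [hκ]
    apply T3.H62.ix_cj _ hgI
    intro y
    rw [Subgroup.mem_centralizer_singleton_iff, Subgroup.mem_centralizer_singleton_iff, hx]
    constructor
    · intro h
      calc u⁻¹ * y * u * v' = u⁻¹ * (y * (u * v' * u⁻¹)) * u := by group
        _ = u⁻¹ * ((u * v' * u⁻¹) * y) * u := by rw [h]
        _ = v' * (u⁻¹ * y * u) := by group
    · intro h
      calc y * (u * v' * u⁻¹) = u * (u⁻¹ * y * u * v') * u⁻¹ := by group
        _ = u * (v' * (u⁻¹ * y * u)) * u⁻¹ := by rw [h]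
        _ = u * v' * u⁻¹ * y := by group
  -- the regular part
  obtain ⟨s, hs⟩ : ∃ s, s = x⁻¹ * h := ⟨_, rfl⟩
  have hxs : h = x * s := by rw [hs]; group
  have hsR : Reg ℓ s := by rw [hs]; exact hlp.reg
  have hsC : s ∈ Cu x := by
    rw [Subgroup.mem_centralizer_singleton_iff, hs]
    have : x * h = h * x := hlp.com
    calc x⁻¹ * h * x = x⁻¹ * (h * x) := by group
      _ = x⁻¹ * (x * h) := by rw [this]
      _ = x * (x⁻¹ * h) := by group
  -- `V₁` commutes with `x`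
  have hVx : ∀ d (hd : d ∈ V₁), (⟨d, hV₁H hd⟩ : Subgroup.centralizer (W : Set G)) ∈ Cu x := by
    intro d hd
    obtain ⟨D, hD⟩ : ∃ D : Subgroup.centralizer (W : Set G), D = ⟨d, hV₁H hd⟩ := ⟨_, rfl⟩
    rw [← hD]
    have h1 : D * h = h * D := by
      apply Subtype.ext
      rw [Subgroup.coe_mul, Subgroup.coe_mul, hD]
      exact Subgroup.mem_centralizer_iff.1 hh d hd
    have h2 : D⁻¹ * h * D = h := by
      rw [mul_assoc, ← h1]
      group
    have h3 : T5.Lp ℓ h (D * x * D⁻¹) := by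
      apply H17.lp_conj
      rw [h2]
      exact hlp
    have h4 := H17.lp_unique h3 hlp
    rw [Subgroup.mem_centralizer_singleton_iff]
    calc D * x = (D * x * D⁻¹) * D := by group
      _ = x * D := by rw [h4]
  have hcoe : ∀ t : Subgroup.centralizer (W : Set G), t ∈ Cu x → (t : G) ∈ Cu (x : G) := by
    intro t ht
    rw [Subgroup.mem_centralizer_singleton_iff] at ht ⊢
    rw [← Subgroup.coe_mul, ht, Subgroup.coe_mul]
  by_cases hw : ∃ w : G, w * v * w⁻¹ = x
  swap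
  · refine ⟨?_, fun _ => ?_⟩
    · rintro ⟨t, -, ht⟩
      exfalso
      apply hw
      refine ⟨u * t, ?_⟩
      rw [hx, Subgroup.coe_mul, Subgroup.coe_mul, Subgroup.coe_inv, ← ht]
      group
    · rw [hxs, (clc ℓ M hM G _ v (el_mem hL.tp.pg hv) b hbI θ hθ x κ hlp.el hκI s hsC hsR).2
        fun w h' => hw ⟨w, h'⟩]
      exact dv_zero _
  obtain ⟨w, hw⟩ := hw
  have hc1 := (clc ℓ M hM G _ v (el_mem hL.tp.pg hv) b hbI θ hθ x κ hlp.el hκI s hsC
    hsR).1 w hw
  rw [← hxs] at hc1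
  rw [hc1]
  have hb'I : Ix (Cu (x : G)) (cj w b) := by
    apply T3.H62.ix_cj _ hbI
    intro y
    rw [Subgroup.mem_centralizer_singleton_iff, Subgroup.mem_centralizer_singleton_iff, ← hw]
    constructor
    · intro h
      calc w⁻¹ * y * w * v = w⁻¹ * (y * (w * v * w⁻¹)) * w := by group
        _ = w⁻¹ * ((w * v * w⁻¹) * y) * w := by rw [h]
        _ = v * (w⁻¹ * y * w) := by group
    · intro h
      calc y * (w * v * w⁻¹) = w * (w⁻¹ * y * w * v) * w⁻¹ := by group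
        _ = w * (v * (w⁻¹ * y * w)) * w⁻¹ := by rw [h]
        _ = w * v * w⁻¹ * y := by group
  obtain ⟨k1, k2, k3, k4, k5⟩ := hat_facts (M := M) (Cu x) hκI
  obtain ⟨l1, l2, l3, l4, l5⟩ := hat_facts (M := M) (Cu (x : G)) hb'I
  obtain ⟨K, hK⟩ : ∃ K, K = H75.ext0 (Subgroup.centralizer (W : Set G)) (hat M (Cu x) κ) :=
    ⟨_, rfl⟩
  obtain ⟨B, hB⟩ : ∃ B, B = hat M (Cu (x : G)) (cj w b) := ⟨_, rfl⟩
  rw [← hB] at l1 l2 l3 l4 l5
  have hKin : ∀ t : Subgroup.centralizer (W : Set G), K t = hat M (Cu x) κ t := by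
    intro t
    rw [hK, H75.ext0_apply]
  have hKout : ∀ t, t ∉ Subgroup.centralizer (W : Set G) → K t = 0 := by
    intro t ht
    rw [hK, H75.ext0_supp _ _ t ht]
  have hKR : ∀ y, K y ∈ RM M := by
    intro y
    by_cases hy : y ∈ Subgroup.centralizer (W : Set G)
    · rw [hKin ⟨y, hy⟩]
      exact k1 _
    · rw [hKout y hy]
      exact (RM M).zero_mem
  have hKK : mulF K K = K := by
    rw [hK, ← H75.ext0_mulF, k4]
  have hKsupp : ∀ r, K r ≠ 0 → r ∈ Cu (x : G) := by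
    intro r hr
    by_cases hy : r ∈ Subgroup.centralizer (W : Set G)
    · apply hcoe ⟨r, hy⟩
      by_contra h'
      apply hr
      rw [hKin ⟨r, hy⟩, k3 _ h']
    · exact absurd (hKout r hy) hr
  have hKinv : ∀ d ∈ V₁, ∀ y, K (d * y * d⁻¹) = K y := by
    intro d hd y
    by_cases hy : y ∈ Subgroup.centralizer (W : Set G)
    · have := k5 ⟨d, hV₁H hd⟩ (hVx d hd) ⟨y, hy⟩
      rw [← hKin, ← hKin] at this
      exact this
    · rw [hKout y hy, hKout]
      intro h'
      apply hy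
      have h2 := mul_mem (mul_mem (inv_mem (hV₁H hd)) h') (hV₁H hd)
      have e : d⁻¹ * (d * y * d⁻¹) * d = y := by group
      rwa [e] at h2
  have hBinv : ∀ d ∈ V₁, ∀ y, B (d * y * d⁻¹) = B y := by
    intro d hd y
    exact l5 d (hcoe _ (hVx d hd)) y
  have hKB : mulF K B = mulF B K := comm_of_inv fun r hr y => l5 r (hKsupp r hr) y
  obtain ⟨P, hP⟩ : ∃ P, P = mulF K B := ⟨_, rfl⟩
  have hKP : mulF K P = P := by rw [hP, ← H20.mulF_assoc, hKK]
  have hPK : mulF P K = P := by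
    rw [hP, H20.mulF_assoc, ← hKB, ← H20.mulF_assoc, hKK]
  have hPB : mulF P B = P := by rw [hP, H20.mulF_assoc, l4]
  have hPP : mulF P P = P := by
    calc mulF P P = mulF P (mulF K B) := by rw [← hP]
      _ = mulF (mulF P K) B := (H20.mulF_assoc _ _ _).symm
      _ = P := by rw [hPK, hPB]
  have hPR : ∀ y, P y ∈ RM M := by
    rw [hP]
    exact T8.H28.mulF_RM hKR l1
  have hPinv : ∀ d ∈ V₁, ∀ y, P (d * y * d⁻¹) = P y := by
    intro d hd
    rw [← cj_eq_iff, hP, cj_mulF, (cj_eq_iff d K).2 (hKinv d hd), (cj_eq_iff d B).2 (hBinv d hd)]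
  -- the residue of `P` on the centraliser of `W`
  have hPres : ∀ y : Subgroup.centralizer (W : Set G), rr M (P y) =
      mulF (fun t : Subgroup.centralizer (W : Set G) => cj w b t) κ y := by
    intro y
    have h1 : T8.rd M P = mulF (T8.rd M K) (T8.rd M B) := by
      rw [hP]
      exact T8.H28.rd_mulF hKR l1
    have h2 : rr M (P y) = mulF (T8.rd M K) (T8.rd M B) y := by
      rw [← h1]
      rfl
    rw [h2]
    have h3 := congrFun (mulF_res (Subgroup.centralizer (W : Set G)) (a := T8.rd M K) (T8.rd M B)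
      (fun t ht => by
        change rr M (K t) = 0
        rw [hKout t ht, rr_zero])) y
    rw [h3]
    have h4 : (fun t : Subgroup.centralizer (W : Set G) => T8.rd M K t) = κ := by
      funext t
      change rr M (K t) = κ t
      rw [hKin, k2]
    have h5 : (fun t : Subgroup.centralizer (W : Set G) => T8.rd M B t) =
        fun t : Subgroup.centralizer (W : Set G) => cj w b t := by
      funext t
      exact l2 t
    rw [h4, h5]
    refine congrFun (comm_of_inv fun r hr y => ?_) y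
    have hr' : r ∈ Cu x := by
      by_contra h'
      exact hr (hκI.supp r h')
    have h6 := (cj_eq_iff (r : G) (cj w b)).1 (hb'I.inv (hcoe r hr')) y
    exact h6
  have hw₁ : ((u : G)⁻¹ * w) * v * ((u : G)⁻¹ * w)⁻¹ = v' := by
    calc ((u : G)⁻¹ * w) * v * ((u : G)⁻¹ * w)⁻¹ = (u : G)⁻¹ * (w * v * w⁻¹) * u := by group
      _ = (u : G)⁻¹ * ((u * v' * u⁻¹ : Subgroup.centralizer (W : Set G)) : G) * u := by
          rw [hw, hx]
      _ = v' := by
          rw [Subgroup.coe_mul, Subgroup.coe_mul, Subgroup.coe_inv]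
          group
  obtain ⟨hn1, hn2⟩ := hcnd ((u : G)⁻¹ * w) hw₁
  have hcjm : mulF (fun t : Subgroup.centralizer (W : Set G) => cj w b t) κ =
      cj u (mulF (fun t : Subgroup.centralizer (W : Set G) => cj ((u : G)⁻¹ * w) b t) g') := by
    rw [cj_mulF, ← hκ]
    congr 1
    funext t
    change b (w⁻¹ * t * w) = b (((u : G)⁻¹ * w)⁻¹ * ((u : G)⁻¹ * t * u) * ((u : G)⁻¹ * w))
    congr 1
    group
  have hdiv : ∀ J : G → ℂ, (∀ x, J x ∈ RM M) → mulF J J = J →
      (∀ d ∈ V₁, ∀ x, J (d * x * d⁻¹) = J x) →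
      (∀ y : Subgroup.centralizer (W : Set G), rr M (J y) = 0) →
      Dv M ((ℓ : ℂ) ^ c) (T8.fv J h θ) := by
    intro J h1 h2 h3 h4
    refine div ℓ M hM G V₁ hP₁ hab₁ c J h1 h2 h3 ?_ θ hθ hθR h hh
    intro y hy
    rw [hUW] at hy
    exact h4 ⟨y, hy⟩
  have hfvK : gv M (Cu x) h κ (fun t : Subgroup.centralizer (W : Set G) => θ t) =
      T8.fv K h θ := by
    have := Fintype.ofFinite (Subgroup.centralizer (W : Set G))
    rw [H17.gv_sum]
    unfold T8.fv
    rw [finsum_eq_sum_of_fintype, hK,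
      ← H17.sumext (Subgroup.centralizer (W : Set G)) (hat M (Cu x) κ) (fun g => θ (h * g)),
      finsum_eq_sum_of_fintype]
    rfl
  rw [hfvK, ← hK, ← hB, ← hP]
  constructor
  · intro ht
    have h1 := hn1 ht
    rw [h1, ← hκ] at hcjm
    have h2 : T8.fv P h θ - T8.fv K h θ = -T8.fv (K - P) h θ := by
      rw [fv_sub]
      ring
    rw [h2]
    refine dv_neg (hdiv _ ?_ ?_ ?_ ?_)
    · intro y
      exact (RM M).sub_mem (hKR y) (hPR y)
    · rw [H20.mulF_sub, H20.sub_mulF, H20.sub_mulF, hKK, hPK, hKP, hPP]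
      simp
    · intro d hd y
      rw [Pi.sub_apply, Pi.sub_apply, hKinv d hd, hPinv d hd]
    · intro y
      rw [Pi.sub_apply, rr_sub (hKR y) (hPR y), hPres y, hcjm, hKin, k2, sub_self]
  · intro ht
    have h1 := hn2 ht
    rw [h1, cj_zero] at hcjm
    refine hdiv P hPR hPP hPinv ?_
    intro y
    rw [hPres y, hcjm]
    rfl

end Pool.Agent.PP.T6.H94
end
end -- Pool.Agent.Helper94_AT6.BLK
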