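import Pool.Agent.Helper12_AWB.B050
import Pool.Agent.Helper12_AWB.B125
import Pool.Agent.Helper12_AWB.B142
import Pool.Agent.Helper12_AWB.B169

/-!
# Merged copies (generated) of the modules

* `Pool.Agent.Helper14_AT8.FRY`
* `Pool.Agent.PFC.StmtsB6b`
* `Pool.Agent.Helper24_PFC.PIC`
* `Pool.Agent.Helper29_PFC.REP`
* `Pool.Agent.Helper51_PFC.LNO`
* `Pool.Agent.Helper8_PFC.NNZ`
-/

set_option autoImplicit false

section -- Pool.Agent.Helper14_AT8.FRY

/-!
# Squad AT8, row FRY: the values of the coherent idempotent at the regular elements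
-/

open scoped BigOperators

noncomputable section

namespace Pool.Agent.PP.T8.H14

open Pool.Agent.Helper51_AWC Pool.Agent.Helper79_WRA Pool.Agent.PP Pool.Agent.PP.KF
open Pool.Agent.PP.K9 Pool.Agent.PP.K9.H97 Pool.Agent.PP.H75 Pool.Agent.PP.T3 Pool.Agent.PP.T2

attribute [local instance] Ideal.Quotient.field

section tr

variable {H : Type} [Group H] [Finite H]

/-- the value of an irreducible character at an idempotent is a natural number -/
theorem chv_idem {j : H → ℂ} (hj : mulF j j = j) {κ : H → ℂ} (hκ : κ ∈ Irr H) :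
    ∃ n : ℕ, chv j κ = n := by
  have := Fintype.ofFinite H
  obtain ⟨n, ρ, hρ, rfl⟩ := hκ
  have h1 : act ρ j * act ρ j = act ρ j := by
    have h2 : act ρ j * act ρ j = ∑ g, ∑ h, (j h * j (h⁻¹ * g)) • ρ g := by
      rw [act, Finset.sum_mul]
      rw [Finset.sum_comm]
      refine Finset.sum_congr rfl fun h _ => ?_
      rw [Finset.mul_sum, ← Equiv.sum_comp (Equiv.mulLeft h)
        (fun g => (j h * j (h⁻¹ * g)) • ρ g)]
      refine Finset.sum_congr rfl fun g _ => ?_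
      rw [Equiv.coe_mulLeft, inv_mul_cancel_left, map_mul, smul_mul_smul_comm]
    rw [h2, act]
    refine Finset.sum_congr rfl fun g _ => ?_
    rw [← Finset.sum_smul]
    congr 1
    have h3 := congrFun hj g
    rw [mulF, finsum_eq_sum_of_fintype] at h3
    exact h3
  have h4 := (LinearMap.isProj_iff_isIdempotentElem (act ρ j)).2 h1
  obtain ⟨p, hp⟩ := h4
  refine ⟨Module.finrank ℂ p, ?_⟩
  have h5 := hp.trace
  rw [act_trace] at h5
  rw [chv, finsum_eq_sum_of_fintype]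
  exact h5

/-- a linear functional on the class functions is determined by the values at the irreducible
characters: here it is applied to `s ↦ f (u s)`, `u` central -/
theorem sum_cent {f : H → ℂ} (hf : ∀ x y, f (y * x * y⁻¹) = f x) {u : H}
    (hu : ∀ c, u * c = c * u) {a a' : H → ℂ} {r : ℂ}
    (h : ∀ κ ∈ Irr H, chv a κ = r * chv a' κ) :
    ∑ᶠ s, a s * f (u * s) = r * ∑ᶠ s, a' s * f (u * s) := by
  have := Fintype.ofFinite H
  have hI : (Irr H).Finite := irr_finite'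
  have := hI.fintype
  obtain ⟨m, hm⟩ := H50.decomp f hf
  have h1 : ∀ κ : Irr H, ∃ k : ℂ, ∀ s, (κ : H → ℂ) (u * s) = k * (κ : H → ℂ) s := by
    intro κ
    obtain ⟨k, -, hk⟩ := T3.H63.cent_root κ.2 hu (q := Nat.card H) (pow_card_eq_one')
    refine ⟨k, fun s => ?_⟩
    have := hk 1 s
    rwa [pow_one, pow_one] at this
  choose k hk using h1
  have h2 : ∀ b : H → ℂ, ∑ᶠ s, b s * f (u * s) = ∑ κ : Irr H, m κ * k κ * chv b κ := by
    intro b
    rw [finsum_eq_sum_of_fintype]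
    have h3 : ∀ s, b s * f (u * s) = ∑ κ : Irr H, m κ * k κ * (b s * (κ : H → ℂ) s) := by
      intro s
      rw [hm, Finset.sum_apply, Finset.mul_sum]
      refine Finset.sum_congr rfl fun κ _ => ?_
      rw [Pi.smul_apply, smul_eq_mul, hk]
      ring
    simp_rw [h3]
    rw [Finset.sum_comm]
    refine Finset.sum_congr rfl fun κ _ => ?_
    rw [← Finset.mul_sum, chv, finsum_eq_sum_of_fintype]
  rw [h2, h2, Finset.mul_sum]
  refine Finset.sum_congr rfl fun κ _ => ?_
  rw [h κ κ.2]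
  ring

end tr

/-- a central idempotent which is not zero has a character -/
theorem irrE_nonempty (M : Ideal (integralClosure ℤ ℂ)) [M.IsMaximal] {H : Type} [Group H]
    [Finite H] {b : H → FF M} (hb : IsIdem b) (h0 : b ≠ 0) : ∃ κ, κ ∈ IrrE M b := by
  by_contra hcon
  push Not at hcon
  apply h0
  funext g
  have h1 := ((KF.H25.idm M H b hb).1 g).2
  rw [← h1]
  have h2 : IrrE M b = ∅ := Set.eq_empty_of_forall_notMem hcon
  rw [eh, h2, finsum_mem_empty, mul_zero, rr_zero]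
  rfl

/-- the values of the irreducible characters at the lift of a central idempotent -/
theorem chv_eh' (M : Ideal (integralClosure ℤ ℂ)) [M.IsMaximal] {H : Type} [Group H]
    [Finite H] {b : H → FF M} (hb : IsIdem b) {κ : H → ℂ} (hκ : κ ∈ Irr H) :
    (res M b κ = 1 → chv (eh M b) κ = κ 1) ∧ (res M b κ ≠ 1 → chv (eh M b) κ = 0) := by
  classical
  have h0 := (KF.H25.idm M H b hb).2.2 κ hκ (fun g => if g = 1 then 1 else 0)
  have h1 : mulF (eh M b) (fun g => if g = 1 then 1 else 0) = eh M b := by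
    have := Fintype.ofFinite H
    funext x
    rw [mulF, finsum_eq_sum_of_fintype, Finset.sum_eq_single x]
    · rw [if_pos (inv_mul_cancel x), mul_one]
    · intro y _ hy
      rw [if_neg, mul_zero]
      intro h2
      exact hy (inv_mul_eq_one.1 h2)
    · intro h
      exact absurd (Finset.mem_univ x) h
  have h2 : chv (fun g : H => if g = 1 then (1 : ℂ) else 0) κ = κ 1 := by
    have := Fintype.ofFinite H
    rw [chv, finsum_eq_sum_of_fintype, Finset.sum_eq_single 1]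
    · rw [if_pos rfl, one_mul]
    · intro y _ hy
      rw [if_neg hy, zero_mul]
    · intro h
      exact absurd (Finset.mem_univ _) h
  rw [h1, h2] at h0
  exact h0

theorem irrE_equiv {M : Ideal (integralClosure ℤ ℂ)} [M.IsMaximal] {A B : Type} [Group A]
    [Finite A] [Group B] [Finite B] (φ : A ≃* B) {b : A → FF M} (hb : IsCl b) {κ : B → ℂ}
    (h : κ ∈ IrrE M (fun y => b (φ.symm y))) : (fun a => κ (φ a)) ∈ IrrE M b := by
  have h1 := (K9.H3.psi M A B (φ : A →* B) φ.surjective b hb).1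
  rw [T3.H85.push_equiv'] at h1
  rw [h1] at h
  exact h.2

/-- FRY -/
theorem fry (lcl : LclStmt) (rg1 : Rg1Stmt) (prj : PrjStmt) (omi : OmiStmt) (knz : KnzStmt) :
    FryStmt := by
  intro ℓ _ M _ hM G _ _ e V γ b d c ε hD i hi u hu
  have hL := hD.ld
  have hLc := hD.lc u hu
  have hVX : V ≤ Cu u := fun v hv => Subgroup.mem_centralizer_singleton_iff.2 (hL.ab v hv u hu.1)
  have hCX : Subgroup.centralizer (V : Set G) ≤ Cu u := fun g hg =>
    Subgroup.mem_centralizer_singleton_iff.2 (Subgroup.mem_centralizer_iff.1 hg u hu.1).symm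
  obtain ⟨hLd, hix, hVc, hCc, hdc⟩ := T3.H85.lsb ℓ M hM G e V γ hL u hu.1 (b u) hLc
  have hix1 : ix (V.subgroupOf (Cu u)) (fun t : Cu u => γ t) = 1 := by
    rw [hix]
    exact Subgroup.relIndex_eq_one.2 hu.2.2
  obtain ⟨j, hj, hjs, hjr, hjb, hjf⟩ := lcl ℓ M hM G e V γ hL i hi u hu.1 (b u) hLc
  obtain ⟨jC, hjC⟩ : ∃ jC : Cu u → ℂ, jC = fun t : Cu u => j t := ⟨_, rfl⟩
  obtain ⟨bC, hbC⟩ : ∃ bC : Cu u → FF M, bC = fun t : Cu u => b u t := ⟨_, rfl⟩
  have hbI : IsIdem bC := by rw [hbC]; exact hLc.blk.blk.1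
  have hb0 : bC ≠ 0 := by rw [hbC]; exact hLc.blk.blk.2.1
  have hdg : Dg M bC (d u) := by rw [hbC]; exact hD.dg u hu
  have hLd' : Ld ℓ bC (V.subgroupOf (Cu u)) (fun t : Cu u => γ t) := by rw [hbC]; exact hLd
  have hjRM : ∀ t, jC t ∈ RM M := by rw [hjC]; exact fun t => hj.rm t
  have hjj : mulF jC jC = jC := by
    rw [hjC, ← mulF_res (Cu u) j hjs, hj.id]
  have hjb' : mulF jC (eh M bC) = jC := by
    have h1 := mulF_res (Cu u) (PP.ext0 (Cu u) (eh M bC)) hjs
    have h2 : (fun t : Cu u => PP.ext0 (Cu u) (eh M bC) t) = eh M bC := by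
      funext t
      rw [PP.ext0, dif_pos t.2]
    rw [← hbC] at hjb
    rw [hjb, h2] at h1
    rw [hjC]
    exact h1.symm
  have hidm := KF.H25.idm M (Cu u) bC hbI
  have hcomm : mulF jC (eh M bC) = mulF (eh M bC) jC := by
    apply mulF_comm_of (K := (⊤ : Subgroup (Cu u))) (fun x hx => absurd (Subgroup.mem_top x) hx)
    intro k _
    rw [cj_eq_iff]
    intro x
    exact hidm.2.1.1 x k
  -- the values of the characters at `j`
  obtain ⟨κ₀, hκ₀⟩ := irrE_nonempty M hbI hb0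
  obtain ⟨r, hr⟩ := chv_idem hjj hκ₀.1
  have hout : ∀ κ ∈ Irr (Cu u), κ ∉ IrrE M bC → chv jC κ = 0 := by
    intro κ hκ hκ'
    rw [← hjb', hcomm]
    exact (hidm.2.2 κ hκ jC).2 (fun h => hκ' ⟨hκ, h⟩)
  have hin : ∀ κ ∈ IrrE M bC, chv jC κ = r := by
    intro κ hκ
    rw [← hr]
    have h1 := prj ℓ M hM (Cu u) jC hjRM hjj (fun s => κ s - κ₀ s) (by
      intro x y
      rw [irr_conj hκ.1, irr_conj hκ₀.1]) (by
      intro x hx
      rw [rg1 ℓ M hM (Cu u) bC (V.subgroupOf (Cu u)) (fun t : Cu u => γ t) hLd' hix1 κ hκ κ₀ hκ₀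
        x hx, sub_self])
    have := Fintype.ofFinite (Cu u)
    rw [chv, chv, finsum_eq_sum_of_fintype, finsum_eq_sum_of_fintype, ← sub_eq_zero,
      ← Finset.sum_sub_distrib]
    rw [finsum_eq_sum_of_fintype] at h1
    rw [← h1]
    exact Finset.sum_congr rfl fun s _ => (mul_sub _ _ _).symm
  have hd0 : (d u : ℂ) ≠ 0 := by
    have := hdg.1
    exact_mod_cast this.ne'
  obtain ⟨uC, huC⟩ : ∃ uC : Cu u, (uC : G) = u :=
    ⟨⟨u, Subgroup.mem_centralizer_singleton_iff.2 rfl⟩, rfl⟩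
  have hz : ∀ c : Cu u, uC * c = c * uC := by
    intro c
    apply Subtype.ext
    show (uC : G) * c = c * uC
    rw [huC]
    exact (Subgroup.mem_centralizer_singleton_iff.1 c.2).symm
  refine ⟨r, ?_, ?_⟩
  · intro χ hχ
    rw [hjf χ (fun x y => irr_conj hχ x y)]
    have h1 := sum_cent (f := fun s : Cu u => χ s) (fun x y => by
      show χ ((y * x * y⁻¹ : Cu u) : G) = χ x
      push_cast
      exact irr_conj hχ _ _) hz (a := jC) (a' := eh M bC) (r := r / d u) (by
      intro κ hκ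
      by_cases hκ' : κ ∈ IrrE M bC
      · rw [hin κ hκ', (chv_eh' M hbI hκ).1 hκ'.2, hdg.2 κ hκ', div_mul_cancel₀ _ hd0]
      · rw [hout κ hκ hκ', (chv_eh' M hbI hκ).2 (fun h => hκ' ⟨hκ, h⟩), mul_zero])
    have h2 : fv j u χ = ∑ᶠ s : Cu u, jC s * χ ((uC * s : Cu u) : G) := by
      rw [fv, sum_sub (Cu u) _ (fun x hx => by rw [hjs x hx, zero_mul]), hjC]
      refine finsum_congr fun s => ?_
      rw [Subgroup.coe_mul, huC]
    have h3 : gv M (Cu u) u (b u) χ = ∑ᶠ s : Cu u, eh M bC s * χ ((uC * s : Cu u) : G) := by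
      rw [gv, gbv, ← hbC]
      refine finsum_congr fun s => ?_
      rw [Subgroup.coe_mul, huC]
    rw [h2, h1, vv, h3]
    push_cast
    ring
  · intro κ hκ
    obtain ⟨φ, hφ⟩ : ∃ φ : Subgroup.centralizer ((V.subgroupOf (Cu u) : Subgroup (Cu u)) :
        Set (Cu u)) ≃* Subgroup.centralizer (V : Set G), φ = T3.H85.cequiv hVX hCX := ⟨_, rfl⟩
    have hκ' : (fun t => κ (φ t)) ∈ IrrE M (fun t : Subgroup.centralizer
        ((V.subgroupOf (Cu u) : Subgroup (Cu u)) : Set (Cu u)) => γ ((t : Cu u) : G)) := by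
      have hcl : IsCl (fun t : Subgroup.centralizer
        ((V.subgroupOf (Cu u) : Subgroup (Cu u)) : Set (Cu u)) => γ ((t : Cu u) : G)) :=
        hLd.gam.blk.1.1
      apply irrE_equiv φ hcl
      rw [hφ]
      exact hκ
    have hsupp : ∀ x, x ∉ Cu u → br V (rd M i) x = 0 := fun x hx =>
      H66.br_of_not_mem (fun h => hx (hCX h))
    have hbr : br (V.subgroupOf (Cu u)) (rd M jC) = fun t : Cu u => br V (rd M i) t := by
      funext t
      by_cases ht : (t : G) ∈ Subgroup.centralizer (V : Set G)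
      · rw [H66.br_of_mem ht, H66.br_of_mem ((cent_sub hVX t).2 ht), rd, rd, hjC]
        exact hjr t t.2
      · rw [H66.br_of_not_mem ht, H66.br_of_not_mem (fun h => ht ((cent_sub hVX t).1 h))]
    have hgm : mulF (br (V.subgroupOf (Cu u)) (rd M jC)) (fun t : Cu u => γ t) =
        br (V.subgroupOf (Cu u)) (rd M jC) := by
      rw [hbr, ← mulF_res (Cu u) γ hsupp, hi.gm]
    have hiv : ∀ v ∈ V.subgroupOf (Cu u), ∀ x, jC (v * x * v⁻¹) = jC x := by
      intro v hv x
      rw [hjC]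
      exact hj.iv v hv x
    obtain ⟨hA, hB, hAB⟩ := omi ℓ M hM (Cu u) bC (V.subgroupOf (Cu u)) (fun t : Cu u => γ t) hLd'
      jC hjRM hiv hgm κ₀ hκ₀ (fun t => κ (φ t)) hκ'
    obtain ⟨hQ, -⟩ := knz ℓ M hM G e V γ hL c hD.dc
    obtain ⟨hX, hX'⟩ := hD.cg u hu
    have hS : (∑ᶠ t : Subgroup.centralizer
        ((V.subgroupOf (Cu u) : Subgroup (Cu u)) : Set (Cu u)), jC t * κ (φ t)) =
        ∑ᶠ t : Subgroup.centralizer (V : Set G), j t * κ t := by
      rw [← finsum_comp_equiv φ.toEquiv]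
      refine finsum_congr fun t => ?_
      rw [hjC, hφ]
      rfl
    have hc0 : (c : ℂ) ≠ 0 := by
      have := hD.dc.1
      exact_mod_cast this.ne'
    have hV0 : (Nat.card V : ℂ) ≠ 0 := by exact_mod_cast Nat.card_pos.ne'
    have hC0 : (Nat.card (Subgroup.centralizer (V : Set G)) : ℂ) ≠ 0 := by
      exact_mod_cast Nat.card_pos.ne'
    have hκ1 : κ (φ 1) = c := by
      rw [map_one]
      exact hD.dc.2 κ hκ
    rw [hix1, Nat.cast_one, one_mul] at hAB
    rw [hr, hdg.2 κ₀ hκ₀, hVc] at hA hAB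
    rw [hS, hVc, hCc, hκ1] at hB
    rw [hS, hCc, hκ1] at hAB
    obtain ⟨S, hSd⟩ : ∃ S : ℂ, S = ∑ᶠ t : Subgroup.centralizer (V : Set G), j t * κ t := ⟨_, rfl⟩
    rw [← hSd] at hB hAB
    have e1 : rr M S = rr M (∑ᶠ t : Subgroup.centralizer (V : Set G), i t * κ t) := by
      have := Fintype.ofFinite (Subgroup.centralizer (V : Set G))
      have hk : ∀ t, κ t ∈ RM M := fun t => RM_of_int (irr_integral hκ.1 t)
      rw [hSd, finsum_eq_sum_of_fintype, finsum_eq_sum_of_fintype,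
        rr_sum _ _ (fun (t : Subgroup.centralizer (V : Set G)) _ =>
          (RM M).mul_mem (hj.rm (t : G)) (hk t)),
        rr_sum _ _ (fun (t : Subgroup.centralizer (V : Set G)) _ =>
          (RM M).mul_mem (hi.ip.rm (t : G)) (hk t))]
      refine Finset.sum_congr rfl fun t _ => ?_
      rw [rr_mul (hj.rm t) (hk t), rr_mul (hi.ip.rm t) (hk t), hjr t (hCX t.2)]
    rw [← e1]
    have e2 : S = (Nat.card (Subgroup.centralizer (V : Set G)) * S / (Nat.card V * c)) *
        ((Nat.card V * c : ℂ) / Nat.card (Subgroup.centralizer (V : Set G))) := by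
      field_simp
    have e3 : (r : ℂ) * ((Nat.card (Cu u) * c : ℂ) /
        (Nat.card (Subgroup.centralizer (V : Set G)) * d u)) =
        (Nat.card (Cu u) * r / (Nat.card V * d u)) *
        ((Nat.card V * c : ℂ) / Nat.card (Subgroup.centralizer (V : Set G))) := by
      field_simp
    have e4 : rr M ((r : ℂ) * ((Nat.card (Cu u) * c : ℂ) /
        (Nat.card (Subgroup.centralizer (V : Set G)) * d u))) = (r : FF M) * (ε u : FF M) := by
      rw [rr_mul (rr_nat r).1 hX, hX', (rr_nat r).2]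
    rw [e2, rr_mul hB hQ, ← hAB, ← rr_mul hA hQ, ← e3, e4]
    push_cast
    rfl

end Pool.Agent.PP.T8.H14
end
end -- Pool.Agent.Helper14_AT8.FRY

section -- Pool.Agent.PFC.StmtsB6b

/-!
# Squad PFC, block B6, part b: the local algebras `A(W)`, `1 ≠ W ≤ V`

`F = FF M`.  Elements of the group ring are functions with the product `mulF`.  `H = C(W)`, `f` the
block of `H` over `γ` (`T6.Lw`), `j` an idempotent of `F H` which is invariant under `V`, under `f` and
whose Brauer image at `V` is under `γ`, and on which the characters of `γ` do not vanish modulo `M`.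
Then `j F H j` is mapped onto a full matrix algebra of size prime to `ℓ`, with nil kernel.
Complete proofs in the docstrings; the rows are independent (a row may take the rows and the
statements of squads AT2, AT3, AT6, AT8 which it uses as hypotheses).
-/

open scoped BigOperators

noncomputable section

namespace Pool.Agent.PFC

open Pool.Agent.Helper51_AWC Pool.Agent.Helper79_WRA Pool.Agent.PP Pool.Agent.PP.KF
open Pool.Agent.PP.K9 Pool.Agent.PP.K9.H97 Pool.Agent.PP.H75 Pool.Agent.PP.T3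

attribute [local instance] Ideal.Quotient.field

section defs

variable {F H : Type} [Field F] [Group H]

/-- `π` maps the algebra `j F H j` onto the matrices of size `n`, the kernel is nil, and `n` is not
divisible by the characteristic. -/
structure Pj (j : H → F) (n : ℕ) (π : (H → F) →ₗ[F] Matrix (Fin n) (Fin n) F) : Prop where
  pos : 0 < n
  cop : (n : F) ≠ 0
  one : π j = 1
  mul : ∀ a b, mulF j a = a → mulF a j = a → mulF j b = b → mulF b j = b →
    π (mulF a b) = π a * π b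
  sur : ∀ B, ∃ a, mulF j a = a ∧ mulF a j = a ∧ π a = B
  nil : ∀ a, mulF j a = a → mulF a j = a → π a = 0 → ∃ N : ℕ, (mulF a)^[N] a = 0

end defs

/-- LNO: a block with an abelian defect group and inertial index one has one modular character.

Proof.  By `T3.NilStmt` all `κ ∈ IrrE M b` have the same degree `d`, and there are `|V|` of them; by
`T8.Rg1Stmt` they agree at the regular elements.  Let `κ₀` be one of them.  The lift
`eh M b (g) = |H|⁻¹ ∑_κ κ(1) κ(g⁻¹)` vanishes at the singular elements (`K9.WboStmt` or the lemma used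
in `T3.NilStmt`; for example `Helper41_AT6/DIM.lean`), and `κ₀(eh M b) = κ₀(1) = d` (`KF.IdmStmt`,
`T8.H14.chv_eh'` in `Helper14_AT8/FRY.lean`): so `|H|⁻¹ |V| d ∑_{s regular} κ₀(s⁻¹) κ₀(s) = d`.
By `T3.LrkStmt` `ln b = |H|⁻¹ ∑_{s regular} ∑_κ |κ(s)|² = |H|⁻¹ |V| ∑_{s regular} |κ₀(s)|² = 1`.
(Other way: `1 ≤ ln b` by `K9.LbdStmt` and `ln b ≤ ix = 1` by `T8.LfrStmt`, for `ℓ ≠ 2`.) -/
def LnoStmt : Prop := ∀ (ℓ : ℕ) [Fact ℓ.Prime] (M : Ideal (integralClosure ℤ ℂ)) [M.IsMaximal],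
  (ℓ : integralClosure ℤ ℂ) ∈ M → ∀ (H : Type) [Group H] [Finite H] (b : H → FF M)
  (V : Subgroup H) (γ : H → FF M), Ld ℓ b V γ → ix V γ = 1 → ln b = 1

/-- REP: the representation of a central idempotent with one modular character.

Proof.  `ln b = 1`: there is `tr ρ ∈ IBr F H` with `actF b (tr ρ) = tr ρ`, unique.  `EigStmt`
(`Helper94_PP/StmtsKR.lean`): `ev ρ b = 1` (the scalar is `0` or `1`, and `tr ρ ≠ 0`), and for an
irreducible `σ` with `tr σ ≠ tr ρ` the scalar `ev σ b` is `0`.  If `b a = a` and `ev ρ a = 0` then for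
every irreducible `σ`: `ev σ a = ev σ b * ev σ a` is `0` if `tr σ ≠ tr ρ`; if `tr σ = tr ρ` then
`ev σ a = 0` because `ρ`, `σ` are conjugate (`IbcStmt`).  `IbnStmt`.  Last claim: `φ = actL b φ` is in
`(TT F H ℓ).map (actL b)`, which has dimension `1` (`RnkStmt`) and contains `tr ρ ≠ 0`
(`BrtStmt`).  (All statements of `StmtsKR.lean` are proved, see `Helper94_PP`, `Helper20_PP`,
`Helper74_PP`.) -/
def RepStmt : Prop := ∀ (ℓ : ℕ) (F : Type) [Field F], GoodF ℓ F → ∀ (H : Type) [Group H] [Finite H]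
  (b : H → F), IsIdem b → ln b = 1 →
  ∃ (N : ℕ) (ρ : H →* Matrix (Fin N) (Fin N) F), IsIrr ρ ∧ ev ρ b = 1 ∧
    (∀ a, mulF b a = a → ev ρ a = 0 → ∃ k : ℕ, (mulF a)^[k] a = 0) ∧
    ∀ φ ∈ TT F H ℓ, actF b φ = φ → ∃ w : F, φ = w • tr ρ

/-- NNZ: the characters of a block of inertial index one do not vanish modulo `M` at `j`.

Proof.  Second half of `Helper14_AT8/FRY.lean` (for `Cu u = H`).  `T8.LftStmt` (`C = ⊤`): `i` over
the local ring with `Ip M V i`, `rd M i = j`.  Let `κ ∈ γ`, `χ ∈ b`, `c = κ(1)`, `d = χ(1)` (`DgcStmt`,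
`NilStmt`), `C = C(V)`, `X = ∑_{t ∈ C} i(t) κ(t)`, `Y = chv i χ`.  `T8.OmiStmt` (for `e = b`): `|H| Y/(|V| d)`
and `|C| X/(|V| c)` are in `RM M` with the same residue (`ix = 1`).  Multiply with
`q = |V| c/|C| ∈ RM M` (`T8.KnzStmt`): `|H| c Y/(|C| d)` has the residue of `X`, which is
`∑_t j(t) rr κ(t) ≠ 0`.  `|H| c/(|C| d)` is in `RM M` (`NitStmt`).  So the residue of `Y`, which is
`∑_h j(h) rr χ(h)`, is not zero. -/
def NnzStmt : Prop := ∀ (ℓ : ℕ) [Fact ℓ.Prime] (M : Ideal (integralClosure ℤ ℂ)) [M.IsMaximal],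
  (ℓ : integralClosure ℤ ℂ) ∈ M → ∀ (H : Type) [Group H] [Finite H] (b : H → FF M)
  (V : Subgroup H) (γ : H → FF M), Ld ℓ b V γ → ix V γ = 1 → ∀ j : H → FF M, mulF j j = j →
  (∀ v ∈ V, ∀ x, j (v * x * v⁻¹) = j x) → mulF (br V j) γ = br V j →
  (∀ κ ∈ IrrE M (fun t : Subgroup.centralizer (V : Set H) => γ t),
    ∑ᶠ t : Subgroup.centralizer (V : Set H), j t * rr M (κ t) ≠ 0) →
  ∀ χ ∈ IrrE M b, ∑ᶠ h, j h * rr M (χ h) ≠ 0

/-- PIC: from the representation of `F H` to the representation of `j F H j`.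

Proof.  `P = ev ρ j` is an idempotent matrix; let `n` be its rank, `P = Y X`, `X Y = 1`, `Y : N × n`,
`X : n × N` (basis of the range).  `tr P = tr (X Y) = n` in `F`, so `(n : F) ≠ 0`, `0 < n`.
`π a = X (ev ρ a) Y`.  `π j = X Y X Y = 1`.  For `a`, `b` in the corner `ev ρ a = ev ρ a P`, so
`π a π b = X (ev ρ a) Y X (ev ρ b) Y = X (ev ρ a)(ev ρ b) Y = π (a b)`.  Onto: `ev ρ x = Y B X` for some
`x` (`IsIrr ρ`: the matrices `ρ h` span), `a = j x j`, `π a = X P Y B X P Y = B`.  If `π a = 0` then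
`ev ρ a = P (ev ρ a) P = Y (π a) X = 0`. -/
def PicStmt : Prop := ∀ (F : Type) [Field F] (H : Type) [Group H] [Finite H] (N : ℕ)
  (ρ : H →* Matrix (Fin N) (Fin N) F), IsIrr ρ → ∀ j : H → F, mulF j j = j →
  (ev ρ j).trace ≠ 0 →
  (∀ a, mulF j a = a → mulF a j = a → ev ρ a = 0 → ∃ k : ℕ, (mulF a)^[k] a = 0) →
  ∃ n π, Pj j n π

/-- LPB: the local algebra.

Proof.  `Ld`, and the inertial group of `f` is the set of the elements of `H` in `Tg V γ`, by
`T6.LwdStmt`; an element `w ≠ 1` of `W` commutes with it, so by `Fr V γ` it is `C(V)`: the inertial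
index of `f` is one.  LNO, REP: `ρ`.  Let `χ ∈ IrrE M f` (not empty, `T8.H14.irrE_nonempty`),
`φ = rr ∘ χ`: it is in `TT` and `actF f φ = φ` (`KF.IdmStmt` at the functions `dl x`), so `φ = w • tr ρ`,
and NNZ gives `w tr (ev ρ j) = ∑_h j(h) φ(h) ≠ 0` (the centraliser of `V` in `H` is `C(V)`).  PIC. -/
def LpbStmt : Prop := ∀ (ℓ : ℕ) [Fact ℓ.Prime] (M : Ideal (integralClosure ℤ ℂ)) [M.IsMaximal],
  (ℓ : integralClosure ℤ ℂ) ∈ M → ∀ (G : Type) [Group G] [Finite G] (e : G → FF M)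
  (V : Subgroup G) (γ : G → FF M), Ld ℓ e V γ → T8.Fr V γ → ∀ W : Subgroup G, W ≤ V → W ≠ ⊥ →
  ∀ f, T6.Lw V γ W f → ∀ j : Subgroup.centralizer (W : Set G) → FF M, mulF j j = j →
  (∀ v : Subgroup.centralizer (W : Set G), (v : G) ∈ V → ∀ x, j (v * x * v⁻¹) = j x) →
  mulF (fun t : Subgroup.centralizer (W : Set G) => f t) j = j →
  mulF (br (V.subgroupOf (Subgroup.centralizer (W : Set G))) j)
    (fun t : Subgroup.centralizer (W : Set G) => γ t) =
      br (V.subgroupOf (Subgroup.centralizer (W : Set G))) j →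
  (∀ κ ∈ IrrE M (fun t : Subgroup.centralizer (V : Set G) => γ t),
    ∑ᶠ t : Subgroup.centralizer (V : Set G), PP.ext0 (Subgroup.centralizer (W : Set G)) j t *
      rr M (κ t) ≠ 0) →
  ∃ n π, Pj j n π

end Pool.Agent.PFC
end
end -- Pool.Agent.PFC.StmtsB6b

section -- Pool.Agent.Helper24_PFC.PIC

/-!
# Squad PFC, block B6, row PIC
-/

open scoped BigOperators

noncomputable section

namespace Pool.Agent.PFC.H24

open Pool.Agent.Helper51_AWC Pool.Agent.Helper79_WRA Pool.Agent.PP Pool.Agent.PP.KF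
open Pool.Agent.PP.K9 Pool.Agent.PP.K9.H97 Pool.Agent.PP.H75 Pool.Agent.PP.T3

/-- rank factorisation of an idempotent matrix -/
theorem rank_fact {F : Type} [Field F] {N : ℕ} (P : Matrix (Fin N) (Fin N) F) (hP : P * P = P) :
    ∃ (n : ℕ) (Y : Matrix (Fin N) (Fin n) F) (X : Matrix (Fin n) (Fin N) F),
      Y * X = P ∧ X * Y = 1 := by
  classical
  let f := Matrix.toLin' P
  have hf : f ∘ₗ f = f := by
    rw [← Matrix.toLin'_mul, hP]
  let R := LinearMap.range f
  let b := Module.finBasis F R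
  let g : (Fin N → F) →ₗ[F] R := f.rangeRestrict
  let i : R →ₗ[F] (Fin N → F) := R.subtype
  have h1 : i ∘ₗ g = f := LinearMap.ext fun x => rfl
  have h2 : g ∘ₗ i = LinearMap.id := by
    ext ⟨x, y, rfl⟩ : 2
    exact LinearMap.congr_fun hf y
  refine ⟨_, LinearMap.toMatrix b (Pi.basisFun F (Fin N)) i,
    LinearMap.toMatrix (Pi.basisFun F (Fin N)) b g, ?_, ?_⟩
  · rw [← LinearMap.toMatrix_comp, h1, LinearMap.toMatrix_eq_toMatrix', LinearMap.toMatrix'_toLin']
  · rw [← LinearMap.toMatrix_comp, h2, LinearMap.toMatrix_id]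

theorem pic : PicStmt := by
  intro F _ H _ _ N ρ hρ j hj htr hnil
  have hP : ev ρ j * ev ρ j = ev ρ j := by rw [← ev_mulF, hj]
  obtain ⟨n, Y, X, hYX, hXY⟩ := rank_fact (ev ρ j) hP
  have hn : (ev ρ j).trace = (n : F) := by
    rw [← hYX, Matrix.trace_mul_comm, hXY, Matrix.trace_one, Fintype.card_fin]
  let π : (H → F) →ₗ[F] Matrix (Fin n) (Fin n) F :=
    { toFun := fun a => X * ev ρ a * Y
      map_add' := by
        intro a b
        rw [ev_add, Matrix.mul_add, Matrix.add_mul]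
      map_smul' := by
        intro c a
        rw [ev_smul, Matrix.mul_smul, Matrix.smul_mul, RingHom.id_apply] }
  have hπ : ∀ a, π a = X * ev ρ a * Y := fun a => rfl
  refine ⟨n, π, ?_⟩
  constructor
  · refine Nat.pos_of_ne_zero fun h0 => htr ?_
    rw [hn, h0, Nat.cast_zero]
  · rw [← hn]; exact htr
  · rw [hπ, ← hYX]
    calc X * (Y * X) * Y = (X * Y) * (X * Y) := by simp only [Matrix.mul_assoc]
      _ = 1 := by rw [hXY, Matrix.one_mul]
  · intro a b _ ha2 _ _
    rw [hπ, hπ, hπ, ev_mulF]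
    have h : ev ρ a * (Y * X) = ev ρ a := by rw [hYX, ← ev_mulF, ha2]
    calc X * (ev ρ a * ev ρ b) * Y = X * ((ev ρ a * (Y * X)) * ev ρ b) * Y := by rw [h]
      _ = X * ev ρ a * Y * (X * ev ρ b * Y) := by simp only [Matrix.mul_assoc]
  · intro B
    obtain ⟨x, hx⟩ := Pool.Agent.PP.H33.ev_surj hρ (Y * B * X)
    refine ⟨mulF j (mulF x j), ?_, ?_, ?_⟩
    · rw [← mulF_assoc, hj]
    · rw [mulF_assoc, mulF_assoc, hj]
    · rw [hπ, ev_mulF, ev_mulF, hx, ← hYX]
      calc X * (Y * X * (Y * B * X * (Y * X))) * Y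
          = (X * Y) * (X * Y) * B * (X * Y) * (X * Y) := by simp only [Matrix.mul_assoc]
        _ = B := by rw [hXY]; simp only [Matrix.one_mul, Matrix.mul_one]
  · intro a ha1 ha2 ha
    refine hnil a ha1 ha2 ?_
    rw [hπ] at ha
    have h1 : ev ρ a = (Y * X) * ev ρ a := by rw [hYX, ← ev_mulF, ha1]
    have h2 : ev ρ a = ev ρ a * (Y * X) := by rw [hYX, ← ev_mulF, ha2]
    calc ev ρ a = (Y * X) * (ev ρ a * (Y * X)) := by rw [← h2]; exact h1
      _ = Y * (X * ev ρ a * Y) * X := by simp only [Matrix.mul_assoc]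
      _ = 0 := by rw [ha, Matrix.mul_zero, Matrix.zero_mul]

end Pool.Agent.PFC.H24
end
end -- Pool.Agent.Helper24_PFC.PIC

section -- Pool.Agent.Helper29_PFC.REP

/-!
# Squad PFC, block B6, row REP: the representation of a central idempotent with one modular
character.
-/

open scoped BigOperators

noncomputable section

namespace Pool.Agent.PFC.H29

open Pool.Agent.Helper51_AWC Pool.Agent.Helper79_WRA Pool.Agent.PP Pool.Agent.PP.KF
open Pool.Agent.PP.K9 Pool.Agent.PP.K9.H97 Pool.Agent.PP.H75 Pool.Agent.PP.T3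
open Pool.Agent.PFC

theorem ev_conj {F H : Type} [Field F] [Group H] [Finite H] {n m : ℕ}
    (ρ : H →* Matrix (Fin n) (Fin n) F) (σ : H →* Matrix (Fin m) (Fin m) F)
    (X : Matrix (Fin m) (Fin n) F) (h : ∀ g, X * ρ g = σ g * X) (a : H → F) :
    X * ev ρ a = ev σ a * X := by
  have := Fintype.ofFinite H
  rw [ev, ev, finsum_eq_sum_of_fintype, finsum_eq_sum_of_fintype, Matrix.mul_sum, Matrix.sum_mul]
  exact Finset.sum_congr rfl fun t _ => by
    rw [Matrix.mul_smul, Matrix.smul_mul, h]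

/-- REP -/
theorem rep : RepStmt := by
  intro ℓ F _ hF H _ _ b hb h1
  rw [ln, Set.ncard_eq_one] at h1
  obtain ⟨f, hf⟩ := h1
  have hfm : f ∈ {f : H → F | f ∈ IBr F H ∧ actF b f = f} := by rw [hf]; rfl
  obtain ⟨⟨N, ρ, hρ, rfl⟩, hact⟩ := hfm
  have hne : tr ρ ≠ 0 := by
    have h := (Pool.Agent.PP.H20.ibf ℓ F hF H).2.ne_zero (⟨tr ρ, N, ρ, hρ, rfl⟩ : IBr F H)
    exact h
  obtain ⟨w, hw1, hw2, _⟩ := Pool.Agent.PP.H20.eig F H N ρ hρ b hb.1
  have hw : w = 1 := by
    rw [hact] at hw2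
    obtain ⟨x, hx⟩ := Function.ne_iff.1 hne
    have h := congrFun hw2 x
    simp only [Pi.smul_apply, smul_eq_mul] at h
    have h2 : (w - 1) * tr ρ x = 0 := by rw [sub_mul, one_mul, ← h, sub_self]
    rcases mul_eq_zero.1 h2 with h3 | h3
    · exact sub_eq_zero.1 h3
    · exact absurd h3 hx
  subst hw
  refine ⟨N, ρ, hρ, by rw [hw1, map_one], ?_, ?_⟩
  · intro a ha h0
    refine Pool.Agent.PP.H20.ibn ℓ F hF H a fun m σ hσ => ?_
    obtain ⟨v, hv1, hv2, hv3⟩ := Pool.Agent.PP.H20.eig F H m σ hσ b hb.1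
    have hm : ev σ a = ev σ b * ev σ a := by rw [← Pool.Agent.PP.H20.ev_mulF, ha]
    rcases hv3 hb with rfl | rfl
    · rw [hm, hv1, map_zero, zero_mul]
    · have ht : tr σ ∈ {f : H → F | f ∈ IBr F H ∧ actF b f = f} :=
        ⟨⟨m, σ, hσ, rfl⟩, by rw [hv2, one_smul]⟩
      rw [hf] at ht
      have ht' : tr ρ = tr σ := (Set.mem_singleton_iff.1 ht).symm
      obtain ⟨X, Y, _, hXY, _, hc⟩ := Pool.Agent.PP.H20.ibc ℓ F hF H N m ρ σ hρ hσ ht'
      have h2 := ev_conj ρ σ X hc a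
      rw [h0, Matrix.mul_zero] at h2
      calc ev σ a = ev σ a * (X * Y) := by rw [hXY, Matrix.mul_one]
        _ = 0 := by rw [← Matrix.mul_assoc, ← h2, Matrix.zero_mul]
  · intro φ hφ hact'
    have hbrt : BrtStmt := Pool.Agent.PP.H74.brt Pool.Agent.PP.H20.ibf Pool.Agent.PP.H20.ibc
      Pool.Agent.PP.H20.ibj Pool.Agent.PP.H20.ibn
    have hrk := Pool.Agent.PP.H74.rnk Pool.Agent.PP.H20.ibf Pool.Agent.PP.H20.eig hbrt ℓ F hF H b hb
    rw [hf, Set.ncard_singleton, rk] at hrk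
    have htr : tr ρ ∈ TT F H ℓ := by
      rw [← hbrt ℓ F hF H]
      exact Submodule.subset_span ⟨N, ρ, hρ, rfl⟩
    have hm1 : tr ρ ∈ (TT F H ℓ).map (actL b) := ⟨tr ρ, htr, hact⟩
    have hm2 : φ ∈ (TT F H ℓ).map (actL b) := ⟨φ, hφ, hact'⟩
    have hne' : (⟨tr ρ, hm1⟩ : (TT F H ℓ).map (actL b)) ≠ 0 := by
      intro h
      exact hne (congrArg Subtype.val h)
    obtain ⟨c, hc⟩ := (finrank_eq_one_iff_of_nonzero' _ hne').1 hrk ⟨φ, hm2⟩
    exact ⟨c, (congrArg Subtype.val hc).symm⟩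

end Pool.Agent.PFC.H29
end
end -- Pool.Agent.Helper29_PFC.REP

section -- Pool.Agent.Helper51_PFC.LNO

/-!
# Squad PFC, row LNO: a block with an abelian defect group and inertial index one has one modular
character
-/

open scoped BigOperators

noncomputable section

namespace Pool.Agent.PFC.H51

open Pool.Agent.Helper51_AWC Pool.Agent.Helper79_WRA Pool.Agent.PP Pool.Agent.PP.KF
open Pool.Agent.PP.K9 Pool.Agent.PP.K9.H97 Pool.Agent.PP.H75 Pool.Agent.PP.T3

attribute [local instance] Ideal.Quotient.field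

/-- LNO -/
theorem lno (hWBO : WboStmt) (hLRK : T3.LrkStmt) (hRG1 : T8.Rg1Stmt) : LnoStmt := by
  classical
  intro ℓ _ M _ hM H _ _ b V γ hLd hix
  have hb : IsIdem b := hLd.blk.1
  have := Fintype.ofFinite H
  obtain ⟨κ₀, hκ₀⟩ := T8.H14.irrE_nonempty M hb hLd.blk.2.1
  have hagree := hRG1 ℓ M hM H b V γ hLd hix
  have hfin : (IrrE M b).Finite := irr_finite'.subset fun χ hχ => hχ.1
  let I := {κ : H → ℂ // κ ∈ IrrE M b}
  have : Finite I := hfin.to_subtype
  have := Fintype.ofFinite I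
  have hc : (Nat.card H : ℂ) ≠ 0 := by exact_mod_cast Nat.card_pos.ne'
  have hsum : ∀ f : (H → ℂ) → ℂ, ∑ᶠ χ ∈ IrrE M b, f χ = ∑ κ : I, f κ.1 := by
    intro f
    rw [← finsum_eq_sum_of_fintype]
    exact (finsum_subtype_eq_finsum_cond (f := f) (fun χ => χ ∈ IrrE M b)).symm
  have h1c : (0 : ℂ) ≠ 1 := zero_ne_one
  -- the number of modular characters
  have hreg1 : Reg ℓ (1 : H) := by
    show (orderOf (1 : H)).Coprime ℓ
    rw [orderOf_one]
    exact Nat.coprime_one_left ℓ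
  have hln := hLRK ℓ M hM H b hb
  let A : ℂ := ∑ᶠ (s : H) (_ : Reg ℓ s), κ₀ s * starRingEnd ℂ (κ₀ s)
  have hln2 : (ln b : ℂ) = (Nat.card H : ℂ)⁻¹ * ((Fintype.card I : ℂ) * A) := by
    rw [hln]
    apply congrArg (fun z => (Nat.card H : ℂ)⁻¹ * z)
    have hA : ((Fintype.card I : ℂ) * A) =
        ∑ᶠ (s : H) (_ : Reg ℓ s), (Fintype.card I : ℂ) * (κ₀ s * starRingEnd ℂ (κ₀ s)) := by
      show (Fintype.card I : ℂ) * (∑ᶠ (s : H) (_ : Reg ℓ s), κ₀ s * starRingEnd ℂ (κ₀ s)) = _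
      rw [mul_finsum]
      apply finsum_congr
      intro s
      by_cases hs : Reg ℓ s
      · rw [finsum_eq_if, finsum_eq_if, if_pos hs, if_pos hs]
      · rw [finsum_eq_if, finsum_eq_if, if_neg hs, if_neg hs, mul_zero]
    rw [hA]
    apply finsum_congr
    intro s
    apply finsum_congr
    intro hs
    rw [hsum (fun χ => χ s * starRingEnd ℂ (χ s))]
    rw [Finset.sum_congr rfl (fun κ _ => by rw [hagree κ.1 κ.2 κ₀ hκ₀ s hs])]
    rw [Finset.sum_const, Finset.card_univ, nsmul_eq_mul]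
  -- the projection formula at the element one
  have hproj : (Nat.card H : ℂ)⁻¹ * ((Fintype.card I : ℂ) * A) = 1 := by
    have hA2 : A = ∑ g : H, if Reg ℓ g then κ₀ g * starRingEnd ℂ (κ₀ g) else 0 := by
      show (∑ᶠ (s : H) (_ : Reg ℓ s), κ₀ s * starRingEnd ℂ (κ₀ s)) = _
      rw [finsum_eq_sum_of_fintype]
      refine Finset.sum_congr rfl fun s _ => ?_
      rw [finsum_eq_if]
    have h0 : ∀ g : H, ¬ Reg ℓ g → ∑ k : I, k.1 1 * starRingEnd ℂ (k.1 g) = 0 := by
      intro g hg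
      have h1 := hWBO ℓ M hM H b hb 1 g hreg1 hg
      rw [hsum (fun χ => χ (1 : H)⁻¹ * χ g)] at h1
      have h2 := congrArg (starRingEnd ℂ) h1
      rw [map_sum, map_zero] at h2
      rw [← h2]
      refine Finset.sum_congr rfl fun k _ => ?_
      rw [map_mul, inv_one, H94.irr_star k.2.1 (1 : H), inv_one]
    have hne : κ₀ 1 ≠ 0 := irr_one_ne hκ₀.1
    have h3 : ∑ k : I, k.1 (1 : H) * ∑ g : H, κ₀ g * k.1 g⁻¹ = κ₀ 1 * Nat.card H := by
      rw [Finset.sum_eq_single (⟨κ₀, hκ₀⟩ : I)]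
      · show κ₀ 1 * ∑ g : H, κ₀ g * κ₀ g⁻¹ = κ₀ 1 * Nat.card H
        rw [irr_orth_self hκ₀.1, Nat.card_eq_fintype_card]
      · intro k _ hk
        rw [irr_orth_ne hκ₀.1 k.2.1 (fun h => hk (Subtype.ext h.symm)), mul_zero]
      · intro h
        exact absurd (Finset.mem_univ _) h
    have h4 : ∑ k : I, k.1 (1 : H) * ∑ g : H, κ₀ g * k.1 g⁻¹ =
        ∑ g : H, (∑ k : I, k.1 1 * starRingEnd ℂ (k.1 g)) * κ₀ g := by
      simp only [Finset.mul_sum, Finset.sum_mul]
      rw [Finset.sum_comm]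
      refine Finset.sum_congr rfl fun g _ => Finset.sum_congr rfl fun k _ => ?_
      rw [H94.irr_star k.2.1]
      ring
    have h5 : ∑ g : H, (∑ k : I, k.1 1 * starRingEnd ℂ (k.1 g)) * κ₀ g =
        κ₀ 1 * ((Fintype.card I : ℂ) * A) := by
      rw [hA2, Finset.mul_sum, Finset.mul_sum]
      refine Finset.sum_congr rfl fun g _ => ?_
      by_cases hg : Reg ℓ g
      · rw [if_pos hg]
        have h6 : ∑ k : I, k.1 (1 : H) * starRingEnd ℂ (k.1 g) =
            (Fintype.card I : ℂ) * (κ₀ 1 * starRingEnd ℂ (κ₀ g)) := by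
          rw [Finset.sum_congr rfl (fun κ _ => by
            rw [hagree κ.1 κ.2 κ₀ hκ₀ g hg, hagree κ.1 κ.2 κ₀ hκ₀ 1 hreg1])]
          rw [Finset.sum_const, Finset.card_univ, nsmul_eq_mul]
        rw [h6]
        ring
      · rw [if_neg hg, h0 g hg]
        ring
    have h7 : κ₀ 1 * ((Fintype.card I : ℂ) * A) = κ₀ 1 * Nat.card H := by
      rw [← h5, ← h4, h3]
    have h8 : (Fintype.card I : ℂ) * A = Nat.card H := mul_left_cancel₀ hne h7
    rw [h8, inv_mul_cancel₀ hc]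
  have h9 : (ln b : ℂ) = 1 := by rw [hln2, hproj]
  exact_mod_cast h9

end Pool.Agent.PFC.H51
end
end -- Pool.Agent.Helper51_PFC.LNO

section -- Pool.Agent.Helper8_PFC.NNZ

/-!
# Squad PFC, row NNZ: the characters of a block of inertial index one at the idempotent
-/

open scoped BigOperators

noncomputable section

namespace Pool.Agent.PFC.H8

open Pool.Agent.Helper51_AWC Pool.Agent.Helper79_WRA Pool.Agent.PP Pool.Agent.PP.KF
open Pool.Agent.PP.K9 Pool.Agent.PP.K9.H97 Pool.Agent.PP.H75 Pool.Agent.PP.T3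

attribute [local instance] Ideal.Quotient.field

/-- NNZ -/
theorem nnz (lft : T8.LftStmt) (omi : T8.OmiStmt) (knz : T8.KnzStmt) (nit : NitStmt)
    (nil : NilStmt) (dgc : DgcStmt) : NnzStmt := by
  intro ℓ _ M _ hM H _ _ b V γ hL hix j hjj hjv hjg hnz χ hχ
  obtain ⟨i, hi, -, hij⟩ := lft M H V ⊤ j hjj (fun g hg => absurd (Subgroup.mem_top g) hg) hjv
  obtain ⟨⟨d, hd⟩, hcard, -⟩ := nil ℓ M hM H b V γ hL hix
  obtain ⟨c, hc⟩ := dgc ℓ M hM H b V γ hL
  have hκne : ∃ κ, κ ∈ IrrE M (fun t : Subgroup.centralizer (V : Set H) => γ t) := by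
    by_contra hcon
    push Not at hcon
    have hI := hL.gam.blk.1
    apply hL.gam.blk.2.1
    funext g
    have h1 := ((KF.H25.idm M _ _ hI).1 g).2
    rw [← h1]
    have h2 : IrrE M (fun t : Subgroup.centralizer (V : Set H) => γ t) = ∅ :=
      Set.eq_empty_of_forall_notMem hcon
    rw [eh, h2, finsum_mem_empty, mul_zero, rr_zero]
    rfl
  obtain ⟨κ, hκ⟩ := hκne
  obtain ⟨hQ, -⟩ := knz ℓ M hM H b V γ hL c hc
  obtain ⟨ε, hε, hR, hR'⟩ := nit ℓ M hM H b V γ hL hix d c hd hc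
  have hgm : mulF (br V (T8.rd M i)) γ = br V (T8.rd M i) := by rw [hij]; exact hjg
  obtain ⟨hA, hB, hAB⟩ := omi ℓ M hM H b V γ hL i hi.rm hi.iv hgm χ hχ κ hκ
  rw [hix, Nat.cast_one, one_mul] at hAB
  have hχ1 : χ 1 = d := hd.2 χ hχ
  have hκ1 : κ 1 = c := hc.2 κ hκ
  rw [hχ1] at hA hAB
  rw [hκ1] at hB hAB
  have hc0 : (c : ℂ) ≠ 0 := by
    have := hc.1
    exact_mod_cast this.ne'
  have hd0 : (d : ℂ) ≠ 0 := by
    have := hd.1
    exact_mod_cast this.ne'
  have hV0 : (Nat.card V : ℂ) ≠ 0 := by exact_mod_cast Nat.card_pos.ne'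
  have hC0 : (Nat.card (Subgroup.centralizer (V : Set H)) : ℂ) ≠ 0 := by
    exact_mod_cast Nat.card_pos.ne'
  obtain ⟨X, hX⟩ : ∃ X : ℂ, X = ∑ᶠ t : Subgroup.centralizer (V : Set H), i t * κ t := ⟨_, rfl⟩
  rw [← hX] at hB hAB
  have := Fintype.ofFinite H
  have := Fintype.ofFinite (Subgroup.centralizer (V : Set H))
  have hrX : rr M X = ∑ᶠ t : Subgroup.centralizer (V : Set H), j t * rr M (κ t) := by
    have hk : ∀ t, κ t ∈ RM M := fun t => RM_of_int (irr_integral hκ.1 t)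
    rw [hX, finsum_eq_sum_of_fintype, finsum_eq_sum_of_fintype,
      rr_sum _ _ (fun (t : Subgroup.centralizer (V : Set H)) _ =>
        (RM M).mul_mem (hi.rm (t : H)) (hk t))]
    refine Finset.sum_congr rfl fun t _ => ?_
    rw [rr_mul (hi.rm t) (hk t), ← hij]
    rfl
  have hrY : rr M (chv i χ) = ∑ᶠ h, j h * rr M (χ h) := by
    have hk : ∀ t, χ t ∈ RM M := fun t => RM_of_int (irr_integral hχ.1 t)
    rw [chv, finsum_eq_sum_of_fintype, finsum_eq_sum_of_fintype,
      rr_sum _ _ (fun t _ => (RM M).mul_mem (hi.rm t) (hk t))]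
    refine Finset.sum_congr rfl fun t _ => ?_
    rw [rr_mul (hi.rm t) (hk t), ← hij]
    rfl
  have hYm : chv i χ ∈ RM M := by
    rw [chv, finsum_eq_sum_of_fintype]
    exact (RM M).sum_mem fun t _ => (RM M).mul_mem (hi.rm t) (RM_of_int (irr_integral hχ.1 t))
  rw [← hrY]
  intro hzero
  apply hnz κ hκ
  rw [← hrX]
  have e2 : X = (Nat.card (Subgroup.centralizer (V : Set H)) * X / (Nat.card V * c)) *
      ((Nat.card V * c : ℂ) / Nat.card (Subgroup.centralizer (V : Set H))) := by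
    field_simp
  have e3 : (Nat.card H * chv i χ / (Nat.card V * d)) *
      ((Nat.card V * c : ℂ) / Nat.card (Subgroup.centralizer (V : Set H))) =
      chv i χ * ((Nat.card H * c : ℂ) /
        (Nat.card (Subgroup.centralizer (V : Set H)) * d)) := by
    field_simp
  rw [e2, rr_mul hB hQ, ← hAB, ← rr_mul hA hQ, e3, rr_mul hYm hR, hzero, zero_mul]

end Pool.Agent.PFC.H8
end
end -- Pool.Agent.Helper8_PFC.NNZ
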