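import Pool.Agent.Helper12_AWB.B125
import Pool.Agent.Helper12_AWB.B130
import Pool.Agent.Helper12_AWB.B139
import Pool.Agent.Helper12_AWB.B169

/-!
# Merged copies (generated) of the modules

* `Pool.Agent.ASD.Stmts5`
* `Pool.Agent.AT8.StmtsF`
* `Pool.Agent.ASO.Stmts8`
* `Pool.Agent.ASD.Stmts8`
* `Pool.Agent.Helper43_ASO.S2A`
* `Pool.Agent.Helper91_ASD.LNN`
-/

set_option autoImplicit false

section -- Pool.Agent.ASD.Stmts5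

/-!
# Squad ASD, statements 5: the relation, the comparison of groups, the arithmetic

Complete proofs in the docstrings.  `V₀ = A₁ × A₂`, `E₀` diagonal (`Dx`).  `Of A₁ A₂ W`: `W` is not `⊥`, `A₁`,
`A₂` (it is `⊤` or a line off the axes); then `Rw E₀ W` (DIX (1)).
-/

open scoped BigOperators

noncomputable section

namespace Pool.Agent.PP.SD

open Pool.Agent.Helper51_AWC Pool.Agent.Helper79_WRA Pool.Agent.PP Pool.Agent.PP.KF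
open Pool.Agent.PP.K9 Pool.Agent.PP.K9.H97 Pool.Agent.PP.H75 Pool.Agent.PP.T3 Pool.Agent.PP.SO

attribute [local instance] Ideal.Quotient.field

/-! ## 0. Definitions -/

section defs

variable {V₀ : Type} [CommGroup V₀]

/-- `W` is not `⊥`, `A₁`, `A₂`. -/
def Of (A₁ A₂ W : Subgroup V₀) : Prop := W ≠ ⊥ ∧ W ≠ A₁ ∧ W ≠ A₂

open Classical in
/-- the lift of `ρ` with values in `[0, ℓ)`, changed at `v₀` -/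
def lf {ℓ : ℕ} (ρ : V₀ → ZMod ℓ) (v₀ v : V₀) : ℤ :=
  ((ρ v).val : ℤ) + if v = v₀ ∧ ρ v ≠ 0 then (ℓ : ℤ) else 0

variable {n : ℕ} (E₀ : Subgroup (MulAut V₀)) (A₁ A₂ : Subgroup V₀)

/-- the local part of the value of `W12`, `aL` off the axes -/
def P12X (U : Subgroup V₀ → ℚ) (c d : V₀) (L : Set (SO.SS n V₀)) : ℚ :=
  ∑ᶠ σ ∈ {σ | σ ∈ EL E₀ L ∧ Of A₁ A₂ (aL (c * σ d) L)},
    ux U (pL L) c * ux U (pL L) (σ d) / ux U (pL L) (c * σ d) *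
      (ux U (aL (c * σ d) L) (c * σ d) * N12 E₀ (c * σ d) L)

/-- the sum for `F₁₃` -/
def PX13 (U : Subgroup V₀ → ℚ) (c d : V₀) (F₁₃ : Set (SO.SS n V₀) → ℚ) : ℚ :=
  ∑ᶠ L ∈ {L : Set (SO.SS n V₀) | pL L ≠ ⊥ ∧ pL L ≠ A₂ ∧ qL L ≠ ⊥ ∧ qL L ≠ A₂ ∧
    ¬ (pL L = A₁ ∧ qL L = A₁)}, mob F₁₃ L * P13 E₀ U c d L

/-- the sum for `F₁₂` -/
def PX12 (U : Subgroup V₀ → ℚ) (c d : V₀) (F₁₂ : Set (SO.SS n V₀) → ℚ) : ℚ :=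
  ∑ᶠ L ∈ {L : Set (SO.SS n V₀) | Of A₁ A₂ (pL L)}, mob F₁₂ L * P12X E₀ A₁ A₂ U c d L

end defs

section axes

variable {V₀ G : Type} [CommGroup V₀] [Group G] {M : Ideal (integralClosure ℤ ℂ)} [M.IsMaximal]
  {n : ℕ} (E₀ : Subgroup (MulAut V₀)) (A₁ A₂ : Subgroup V₀)

/-- the part of `F₁₃` at `A₁` -/
def AX1 (B : Bk (FF M) V₀ G) (m : ℕ) (c d : V₀) (F₁₃ : Set (SO.SS n V₀) → ℚ) : ℂ :=
  ∑ᶠ L ∈ {L : Set (SO.SS n V₀) | pL L = A₁ ∧ qL L = A₁}, (mob F₁₃ L : ℚ) * W13 B m c d L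

/-- the part of `F₁₂` at `A₁` -/
def AX2 (B : Bk (FF M) V₀ G) (m : ℕ) (c d : V₀) (F₁₂ : Set (SO.SS n V₀) → ℚ) : ℂ :=
  (kE E₀ c : ℂ)⁻¹ * ∑ᶠ L ∈ {L : Set (SO.SS n V₀) | pL L = A₁}, (mob F₁₂ L : ℚ) *
    ∑ᶠ σ ∈ {σ | σ ∈ EL E₀ L ∧ aL (c * σ d) L = A₁}, HK B m (c * σ d) L

/-- the part of `F₁₂` at `A₂`: pure conditions -/
def AX3 (B : Bk (FF M) V₀ G) (m : ℕ) (c d : V₀) (F₁₂ : Set (SO.SS n V₀) → ℚ) : ℂ :=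
  ((kE E₀ c : ℂ) * kE E₀ d)⁻¹ * ∑ᶠ L ∈ {L : Set (SO.SS n V₀) | pL L = A₂ ∧ qL L = A₂ ∧
    ∀ s ∈ L, (s.1 : ℕ) = 0 ∧ (s.2.1 : ℕ) = 0}, (mob F₁₂ L : ℚ) * W12 B m c d L

/-- the part of `F₁₂` at `A₂`: `pL = ⊤`, `aL = A₂` -/
def AX4 (B : Bk (FF M) V₀ G) (m : ℕ) (c d : V₀) (F₁₂ : Set (SO.SS n V₀) → ℚ) : ℂ :=
  ((kE E₀ c : ℂ) * kE E₀ d)⁻¹ * ∑ᶠ L ∈ {L : Set (SO.SS n V₀) | pL L = ⊤}, (mob F₁₂ L : ℚ) *
    ∑ᶠ σ ∈ {σ | σ ∈ EL E₀ L ∧ aL (c * σ d) L = A₂}, HK B m (c * σ d) L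

/-- the part of `F₁₂` at `A₂`: `pL` a line off the axes, `aL = A₂`; with arbitrary numbers `U` -/
def AX5 (U : Subgroup V₀ → ℚ) (B : Bk (FF M) V₀ G) (m : ℕ) (c d : V₀)
    (F₁₂ : Set (SO.SS n V₀) → ℚ) : ℂ :=
  ((kE E₀ c : ℂ) * kE E₀ d)⁻¹ * ∑ᶠ σ ∈ {σ : MulAut V₀ | σ ∈ E₀ ∧ c * σ d ≠ 1},
    ∑ᶠ w ∈ {w : V₀ | w ∈ A₂ ∧ w ≠ 1}, (U (Subgroup.zpowers (c * σ d * w)) : ℚ) *
      T5 B m (c * σ d) w σ F₁₂

/-- the main part -/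
def MN (ℓ : ℕ) (B : Bk (FF M) V₀ G) (x₁ x₂ : V₀ → ℤ) (c d : V₀) : ℂ :=
  ((x₁ c⁻¹ * x₂ d⁻¹ : ℤ) : ℂ) / ℓ ^ 2 * L2 B c d -
    (kE E₀ c : ℂ)⁻¹ * ∑ᶠ σ ∈ {σ : MulAut V₀ | σ ∈ E₀ ∧ c * σ d ≠ 1},
      ((x₁ (c * σ d)⁻¹ * x₂ (σ⁻¹ (c * σ d))⁻¹ : ℤ) : ℂ) / ℓ ^ 2 * L1 B (c * σ d)

end axes

/-! ## 1. The group `E₀` -/

/-- DIX: consequences of `Dx`.

Proof.  (1) `W = ⊤`: only `1` fixes all elements.  `|W| = ℓ`, `W ≠ A₁`, `A₂`: `W` is generated by `a₁ a₂` with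
`a₁ ∈ A₁`, `a₂ ∈ A₂` both `≠ 1`; if `σ` fixes it then `σ a₁ = a₁`, `σ a₂ = a₂` (`s1`, `s2`, `ds`), so `σ` is `1` on `A₁ = ⟨a₁⟩`,
`A₂ = ⟨a₂⟩` and on `V₀ = A₁ A₂` (orders).  The order of `W ≠ ⊥` is `ℓ` or `ℓ²`.
(2) Subgroups of groups of prime order.
(3) `σ ∈ E₀` fixes `c` iff it fixes `A₁ = ⟨c⟩`.  `Es E₀ c ≤ E₀`, Lagrange; `nE` divides `|E₀|`.
(4) `c = a₁ a₂` as in (1).
(5) `v = a₁ a₂`, `a₁ = a ^ i` for a generator `a` of `A₁`; `ρ v = i`.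
(6) `σ a = a ^ (χ σ)` for a generator `a` of `A₁` (the exponent modulo `ℓ`; for `σ ∉ E₀` let `χ σ = 0`),
`ρ(σ v) = χ σ ρ v` because `ρ` is `0` on `A₂` and `σ A₂ ≤ A₂`.  `χ` is multiplicative on `E₀`, not trivial (`nt`),
so `(1 - χ τ) ∑ χ σ = 0` with `χ τ ≠ 1`.  `χ(σ⁻¹)` in the same way (substitution).
(7) `W` is generated by `a₁ a₂` as in (1), also by its power with first component `κ`; `w` is unique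
(`ds`); the elements of `⟨κ w⟩` are the `(κ w)^i = κ^i w^i`. -/
def DixStmt : Prop := ∀ (ℓ : ℕ) [Fact ℓ.Prime] (V₀ : Type) [CommGroup V₀] [Finite V₀]
  (E₀ : Subgroup (MulAut V₀)) (A₁ A₂ : Subgroup V₀), Dx ℓ E₀ A₁ A₂ →
  (∀ W, Of A₁ A₂ W → Rw E₀ W) ∧
  (A₁ ≠ ⊥ ∧ A₂ ≠ ⊥ ∧ A₁ ≠ ⊤ ∧ A₂ ≠ ⊤ ∧ A₁ ≠ A₂ ∧ (∀ W, W ≤ A₁ → W = ⊥ ∨ W = A₁) ∧
    (∀ W, W ≤ A₂ → W = ⊥ ∨ W = A₂)) ∧
  (∀ c ∈ A₁, c ≠ 1 → Subgroup.zpowers c = A₁ ∧ kE E₀ c = Nat.card (St E₀ A₁) ∧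
    nE E₀ c * kE E₀ c = Nat.card E₀ ∧ ¬ ℓ ∣ kE E₀ c ∧ ¬ ℓ ∣ nE E₀ c) ∧
  (∃ c, Rgl E₀ c) ∧
  (∃ ρ : V₀ → ZMod ℓ, Hm ρ ∧ (∀ v ∈ A₂, ρ v = 0) ∧ ∀ v ∈ A₁, v ≠ 1 → ρ v ≠ 0) ∧
  (∃ χ : MulAut V₀ → ZMod ℓ, (∀ σ ∈ E₀, χ σ⁻¹ * χ σ = 1) ∧
    (∀ ρ : V₀ → ZMod ℓ, Hm ρ → (∀ v ∈ A₂, ρ v = 0) → ∀ σ ∈ E₀, ∀ v, ρ (σ v) = χ σ * ρ v) ∧
    ∑ᶠ σ ∈ {σ | σ ∈ E₀}, χ σ = 0 ∧ ∑ᶠ σ ∈ {σ | σ ∈ E₀}, χ σ⁻¹ = 0) ∧
  (∀ κ ∈ A₁, κ ≠ 1 → (∀ w ∈ A₂, w ≠ 1 → Of A₁ A₂ (Subgroup.zpowers (κ * w)) ∧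
      Subgroup.zpowers (κ * w) ≠ ⊤ ∧ κ ∉ Subgroup.zpowers (κ * w) ∧
      ∀ w' ∈ A₂, Subgroup.zpowers (κ * w') = Subgroup.zpowers (κ * w) → w' = w) ∧
    ∀ W, Of A₁ A₂ W → W ≠ ⊤ → κ ∉ W ∧ ∃ w ∈ A₂, w ≠ 1 ∧ W = Subgroup.zpowers (κ * w))

/-! ## 2. The relation -/

/-- F3D: the part of `F₁₃`.

Proof.  If all `p` or all `q` of `L` are in `A₂` (`pL L ≤ A₂` or `qL L ≤ A₂`) then `mob F₁₃ L = 0` (MBI and the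
hypothesis for all subsets).  `kf W c = 1` for `W ≤ A₁ = ⟨c⟩` (DIX (3)), `kf W c = (kE c)⁻¹` otherwise.
`pL = qL = A₁`: the term of `AX1`.  `pL = A₁`, `Of (qL L)`: the factor is `(kE d)⁻¹`, `W13 = (kE c)⁻¹ P13` (MXA,
`c ∈ A₁`, `|St E₀ A₁| = kE c`).  `Of (pL L)`, `qL L = A₁`: MXB.  Both off the axes: the factor is
`(kE c)⁻¹ (kE d)⁻¹`, `W13 = P13` (WTD, DIX (1)). -/
def F3dStmt : Prop := ∀ (ℓ : ℕ) [Fact ℓ.Prime] (M : Ideal (integralClosure ℤ ℂ)) [M.IsMaximal],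
  (ℓ : integralClosure ℤ ℂ) ∈ M → ℓ ≠ 2 → ∀ (V₀ G : Type) [CommGroup V₀] [Finite V₀] [Group G]
  [Finite G] (E₀ : Subgroup (MulAut V₀)) (A₁ A₂ : Subgroup V₀), Dx ℓ E₀ A₁ A₂ →
  ∀ B : Bk (FF M) V₀ G, Sd ℓ M E₀ B → ∀ n m : ℕ, PE ℓ n m G → ∀ (c d : V₀), c ∈ A₁ → d ∈ A₁ → c ≠ 1 →
  d ≠ 1 → ∀ F₁₃ : Set (SO.SS n V₀) → ℚ,
  (∀ τ : Set (SO.SS n V₀), (∀ s ∈ τ, s.2.2.1 ∈ A₂) ∨ (∀ s ∈ τ, s.2.2.2 ∈ A₂) → F₁₃ τ = 0) →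
  ∑ᶠ L : Set (SO.SS n V₀), (mob F₁₃ L : ℚ) * ((kf E₀ (pL L) c * kf E₀ (qL L) d : ℚ) : ℂ) *
      W13 B m c d L =
    ((kE E₀ c : ℂ) * kE E₀ d)⁻¹ * ((PX13 E₀ A₁ A₂ B.U c d F₁₃ : ℚ) : ℂ) + AX1 A₁ B m c d F₁₃

/-- F2A: the part of `F₁₂` with `pL = ⊥`.

Proof.  `qL L ≠ ⊥`: `W12 L = 0` (W2A (1)).  `qL L = ⊥`, `L ≠ ∅`: all `p = q = 1` in `L`, so `F₁₂` has the value `v` on
all subsets of `L` and `mob F₁₂ L = 0` (MBI).  `L = ∅`: `mob F₁₂ ∅ = v`, `kf ⊥ c = 1`, WZE (c). -/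
def F2aStmt : Prop := ∀ (ℓ : ℕ) [Fact ℓ.Prime] (M : Ideal (integralClosure ℤ ℂ)) [M.IsMaximal],
  (ℓ : integralClosure ℤ ℂ) ∈ M → ℓ ≠ 2 → ∀ (V₀ G : Type) [CommGroup V₀] [Finite V₀] [Group G]
  [Finite G] (E₀ : Subgroup (MulAut V₀)), Fq ℓ V₀ E₀ →
  ∀ B : Bk (FF M) V₀ G, Sb ℓ M E₀ B → ∀ n m : ℕ, PE ℓ n m G → ∀ (c d : V₀), c ≠ 1 →
  d ≠ 1 → ∀ (F₁₂ : Set (SO.SS n V₀) → ℚ) (v : ℚ),
  (∀ τ : Set (SO.SS n V₀), (∀ s ∈ τ, s.2.2.1 = 1 ∧ s.2.2.2 = 1) → F₁₂ τ = v) →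
  ∑ᶠ L ∈ {L : Set (SO.SS n V₀) | pL L = ⊥}, (mob F₁₂ L : ℚ) *
      ((kf E₀ (pL L) c * kf E₀ (qL L) d : ℚ) : ℂ) * W12 B m c d L = v * L2 B c d

/-- F2B: the part of `F₁₂` with `pL = A₁`.

Proof.  `EL L = ∅`: `W12 L = 0` (W2A (2)), and the term of `AX2` is `0`.  Otherwise `qL L = A₁` (`σ ∈ E₀` maps `qL L`
onto `pL L`), `kf = 1`, `c`, `σ d ∈ A₁ = pL L`: W2X: `W12 L = (kE c)⁻¹ ∑_(σ ∈ EL) HK (c σ d) L` (DIX (3)).  The `σ` with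
`aL (c σ d) L = A₁` give `AX2`; `aL (c σ d) L ≤ A₁`, so the others have `aL = ⊥`: with `κ = c σ d` all `p = κ⁻ᵏ`,
`q = σ⁻¹ p = (σ⁻¹ κ)⁻ᵏ`, and `κ ≠ 1` because `pL L ≠ ⊥`.  Conversely for `σ ∈ E₀` with `κ ≠ 1` these `L` are the
`L ⊆ τ₀` of M12 (`κ₂ = σ⁻¹ κ`) with `pL L ≠ ⊥` (then `pL L = A₁`, `σ ∈ EL L`).  For `F = F₁₂ - v`, `mob F L = mob F₁₂ L`
(`L ≠ ∅`, MBI), and `mob F L = 0` for the `L ⊆ τ₀` with `pL L = ⊥` (then all `p = q = 1` in `L`, hypothesis, also for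
`L = ∅`).  M12 for `F` with the value `- g κ⁻¹ (σ⁻¹ κ)⁻¹`. -/
def F2bStmt : Prop := ∀ (ℓ : ℕ) [Fact ℓ.Prime] (M : Ideal (integralClosure ℤ ℂ)) [M.IsMaximal],
  (ℓ : integralClosure ℤ ℂ) ∈ M → ℓ ≠ 2 → ∀ (V₀ G : Type) [CommGroup V₀] [Finite V₀] [Group G]
  [Finite G] (E₀ : Subgroup (MulAut V₀)) (A₁ A₂ : Subgroup V₀), Dx ℓ E₀ A₁ A₂ →
  ∀ B : Bk (FF M) V₀ G, Sb ℓ M E₀ B → ∀ n m : ℕ, PE ℓ n m G → ∀ (c d : V₀), c ∈ A₁ → d ∈ A₁ → c ≠ 1 →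
  d ≠ 1 → ∀ (F₁₂ : Set (SO.SS n V₀) → ℚ) (v : ℚ) (g : V₀ → V₀ → ℚ),
  (∀ τ : Set (SO.SS n V₀), (∀ s ∈ τ, s.2.2.1 = 1 ∧ s.2.2.2 = 1) → F₁₂ τ = v) →
  (∀ (κ₁ κ₂ : V₀) (I : Set (Fin n)), (∃ i ∈ I, (i : ℕ) = 0) →
    F₁₂ {s | s.1 ∈ I ∧ s.2.2.1 = κ₁ ^ (s.2.1 : ℕ) ∧ s.2.2.2 = κ₂ ^ (s.2.1 : ℕ)} = v - g κ₁ κ₂) →
  ∑ᶠ L ∈ {L : Set (SO.SS n V₀) | pL L = A₁}, (mob F₁₂ L : ℚ) *
      ((kf E₀ (pL L) c * kf E₀ (qL L) d : ℚ) : ℂ) * W12 B m c d L =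
    -((kE E₀ c : ℂ)⁻¹ * ∑ᶠ σ ∈ {σ : MulAut V₀ | σ ∈ E₀ ∧ c * σ d ≠ 1},
      (g (c * σ d)⁻¹ (σ⁻¹ (c * σ d))⁻¹ : ℚ) * L1 B (c * σ d)) + AX2 E₀ A₁ B m c d F₁₂

/-- F2C: the part of `F₁₂` with `pL = A₂`.

Proof.  `EL L = ∅`: `W12 L = 0` (W2A (2)).  Otherwise `qL L = A₂`, the factor is `(kE c)⁻¹ (kE d)⁻¹`.  Let `N` be the set
of the `s ∈ L` with `i = k = 0`, `(p, q) ≠ (1, 1)`.  For `T ⊆ L` all `p`, `q` in `T` are in `A₂`; `F₁₂ T = 0` if `T` meets `N` (not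
free), `F₁₂ T = v` otherwise.  So `mob F₁₂ L = v (-1)^|N| [L = N]`, i.e. it is `0` unless `i = k = 0` for all of `L`.
(In general: the sum over the `T ⊆ L - N` of `(-1)^|L - T|` is `0` unless `L = N`.)  If some `s ∈ L` has `i = k = 0`,
`p = q = 1` then `mob F₁₂ L = 0`, too; this does not matter. -/
def F2cStmt : Prop := ∀ (ℓ : ℕ) [Fact ℓ.Prime] (M : Ideal (integralClosure ℤ ℂ)) [M.IsMaximal],
  (ℓ : integralClosure ℤ ℂ) ∈ M → ℓ ≠ 2 → ∀ (V₀ G : Type) [CommGroup V₀] [Finite V₀] [Group G]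
  [Finite G] (E₀ : Subgroup (MulAut V₀)) (A₁ A₂ : Subgroup V₀), Dx ℓ E₀ A₁ A₂ →
  ∀ B : Bk (FF M) V₀ G, Sb ℓ M E₀ B → ∀ n m : ℕ, PE ℓ n m G → ∀ (c d : V₀), c ∈ A₁ → d ∈ A₁ → c ≠ 1 →
  d ≠ 1 → ∀ (F₁₂ : Set (SO.SS n V₀) → ℚ) (v : ℚ), (∀ τ, ¬ Fre τ → F₁₂ τ = 0) →
  (∀ τ : Set (SO.SS n V₀), Fre τ → (∀ s ∈ τ, s.2.2.1 ∈ A₂ ∧ s.2.2.2 ∈ A₂) → F₁₂ τ = v) →
  ∑ᶠ L ∈ {L : Set (SO.SS n V₀) | pL L = A₂}, (mob F₁₂ L : ℚ) *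
      ((kf E₀ (pL L) c * kf E₀ (qL L) d : ℚ) : ℂ) * W12 B m c d L = AX3 E₀ A₂ B m c d F₁₂

/-- F2E: the part of `F₁₂` with `pL` off the axes.

Proof.  `Rw (pL L)` (DIX (1)), W2A (3); if `σ ∈ EL L` then `qL L = σ⁻¹ (pL L)` is off the axes, and the factor is
`(kE c)⁻¹ (kE d)⁻¹` (if `EL L` is empty all terms are `0`).  Let `σ ∈ EL L`, `κ = c σ d ∈ A₁`, `a = κ^k p`.  If all `a ∈ A₁` then
all `p ∈ A₁`, not possible; so `aL κ L` is `A₂` or off the axes.  Off the axes: W2B gives the terms of `P12X`.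
`aL κ L = A₂`: `κ ≠ 1` (otherwise `pL L ≤ A₂`).  If `pL L = ⊤` all `ux = 1`: the terms of `AX4`.  Otherwise
`pL L = ⟨κ w⟩` for a unique `w ∈ A₂`, `w ≠ 1` (DIX (7)), `c`, `σ d`, `κ ∉ pL L` (they generate `A₁`), the factor is
`U (pL L)`; `p = (κ w)^j`, `κ^(k+j) w^j ∈ A₂` gives `j ≡ - k` modulo `ℓ`: `p = (κ w)^(-k)`, `q = σ⁻¹ p`: `L ⊆ TP n κ w σ`.
Conversely for `σ ∈ E₀` with `κ ≠ 1`, `w ∈ A₂`, `w ≠ 1`, `L ⊆ TP n κ w σ` with `pL L ≠ ⊥`: `pL L = ⟨κ w⟩`, `σ ∈ EL L`, and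
`aL κ L`, generated by the `w^(-k)`, is `A₂` (some `k` is not divisible by `ℓ`). -/
def F2eStmt : Prop := ∀ (ℓ : ℕ) [Fact ℓ.Prime] (M : Ideal (integralClosure ℤ ℂ)) [M.IsMaximal],
  (ℓ : integralClosure ℤ ℂ) ∈ M → ℓ ≠ 2 → ∀ (V₀ G : Type) [CommGroup V₀] [Finite V₀] [Group G]
  [Finite G] (E₀ : Subgroup (MulAut V₀)) (A₁ A₂ : Subgroup V₀), Dx ℓ E₀ A₁ A₂ →
  ∀ B : Bk (FF M) V₀ G, Sd ℓ M E₀ B → ∀ n m : ℕ, PE ℓ n m G → ∀ (c d : V₀), c ∈ A₁ → d ∈ A₁ → c ≠ 1 →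
  d ≠ 1 → ∀ F₁₂ : Set (SO.SS n V₀) → ℚ,
  ∑ᶠ L ∈ {L : Set (SO.SS n V₀) | Of A₁ A₂ (pL L)}, (mob F₁₂ L : ℚ) *
      ((kf E₀ (pL L) c * kf E₀ (qL L) d : ℚ) : ℂ) * W12 B m c d L =
    ((kE E₀ c : ℂ) * kE E₀ d)⁻¹ * ((PX12 E₀ A₁ A₂ B.U c d F₁₂ : ℚ) : ℂ) + AX4 E₀ A₂ B m c d F₁₂ +
      AX5 E₀ A₂ B.U B m c d F₁₂

/-- FID: the relation.

Proof.  LAD and LBX, and the sum over `L` is split (F3D for `F₁₃`; `pL = ⊥`, `A₁`, `A₂` or off the axes for `F₁₂`: F2A,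
F2B, F2C, F2E) with `v = x₁(c⁻¹) x₂(d⁻¹)/ℓ²`, `g κ₁ κ₂ = x₁(κ₁) x₂(κ₂)/ℓ²`.  The hypotheses: `z13` (`ρ₁`, `ρ₂` are `0` on `A₂`);
types with all `p = q = 1` are free, `z12` (`ρ 1 = 0`); the types of F2B are free and satisfy the hypotheses of
`prod`, and `K1` (`n > 1`) gives `K = x₁(κ₁) x₂(κ₂)/ℓ²`; `nf`, `z12`. -/
def FidStmt : Prop := ∀ (ℓ : ℕ) [Fact ℓ.Prime] (M : Ideal (integralClosure ℤ ℂ)) [M.IsMaximal],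
  (ℓ : integralClosure ℤ ℂ) ∈ M → ℓ ≠ 2 → ∀ (V₀ G : Type) [CommGroup V₀] [Finite V₀] [Group G]
  [Finite G] (E₀ : Subgroup (MulAut V₀)) (A₁ A₂ : Subgroup V₀), Dx ℓ E₀ A₁ A₂ →
  ∀ B : Bk (FF M) V₀ G, Sd ℓ M E₀ B → ∀ n m : ℕ, PE ℓ n m G →
  ∀ (ρ₁ ρ₂ : V₀ → ZMod ℓ) (x₁ x₂ : V₀ → ℤ) (c d : V₀), c ∈ A₁ → d ∈ A₁ → c ≠ 1 → d ≠ 1 →
  ∀ (F₁₃ F₁₂ : Set (SO.SS n V₀) → ℚ) (K : Set (Fin n × V₀ × V₀) → ℚ), Hm ρ₁ → Hm ρ₂ →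
  (∀ v ∈ A₂, ρ₁ v = 0 ∧ ρ₂ v = 0) → FY ℓ n ρ₁ ρ₂ x₁ x₂ c d F₁₃ F₁₂ K →
  Rel ℓ n m B.i c d F₁₃ F₁₂ →
  MN E₀ ℓ B x₁ x₂ c d + ((kE E₀ c : ℂ) * kE E₀ d)⁻¹ *
      ((PX13 E₀ A₁ A₂ B.U c d F₁₃ + PX12 E₀ A₁ A₂ B.U c d F₁₂ : ℚ) : ℂ) +
    (AX1 A₁ B m c d F₁₃ + AX2 E₀ A₁ B m c d F₁₂ + AX3 E₀ A₂ B m c d F₁₂ +
      AX4 E₀ A₂ B m c d F₁₂ + AX5 E₀ A₂ B.U B m c d F₁₂) ∈ RM M

/-! ## 3. Comparison -/

/-- PPE: continuity of the local part.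

Proof.  As `PPC` (squad ASO): `P13` (in `PX13`: `pL L` is `A₁` or off the axes, `ux U A₁ c = 1` as `c ∈ A₁`, in the same
way for `qL L`, `d`) and `P12X` depend only on the numbers `U W` with `Of A₁ A₂ W`. -/
def PpeStmt : Prop := ∀ (ℓ : ℕ) [Fact ℓ.Prime] (V₀ : Type) [CommGroup V₀] [Finite V₀]
  (E₀ : Subgroup (MulAut V₀)) (A₁ A₂ : Subgroup V₀) (n : ℕ) (c d : V₀), c ∈ A₁ → d ∈ A₁ →
  ∀ F₁₃ F₁₂ : Set (SO.SS n V₀) → ℚ,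
  ∃ K₀ : ℕ, ∀ K, K₀ ≤ K → ∀ U U' : Subgroup V₀ → ℚ,
  (∀ W, Of A₁ A₂ W → ∃ q ∈ SOR.Rl ℓ, U W = 1 + ℓ * q) →
  (∀ W, Of A₁ A₂ W → ∃ q ∈ SOR.Rl ℓ, U' W = 1 + ℓ * q) →
  (∀ W, Of A₁ A₂ W → ∃ q ∈ SOR.Rl ℓ, U W - U' W = ℓ ^ K * q) →
  (PX13 E₀ A₁ A₂ U c d F₁₃ + PX12 E₀ A₁ A₂ U c d F₁₂) -
    (PX13 E₀ A₁ A₂ U' c d F₁₃ + PX12 E₀ A₁ A₂ U' c d F₁₂) ∈ SOR.Rl ℓ

/-- T5B: the numbers `T5` have the denominator `ℓ ^ 2`.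

Proof.  TFA: `L1A` is `ℓ` times an element of `RM M` (TFH), the numbers `nI` are in `RM M` (TFN (1)), and
`F₁₂ (..) - v = - 12 x₁ x₂/(ℓ² i₀) + z/ℓ` (`np`, `¬ ℓ ∣ i₀` for `1 ≤ i₀ ≤ ℓ - 1`), `ℓ²` times it is in `Rl ℓ`. -/
def T5bStmt : Prop := ∀ (ℓ : ℕ) [Fact ℓ.Prime] (M : Ideal (integralClosure ℤ ℂ)) [M.IsMaximal],
  (ℓ : integralClosure ℤ ℂ) ∈ M → ℓ ≠ 2 → ∀ (V₀ G : Type) [CommGroup V₀] [Finite V₀] [Group G]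
  [Finite G] (E₀ : Subgroup (MulAut V₀)), Fq ℓ V₀ E₀ → ∀ B : Bk (FF M) V₀ G, Sd ℓ M E₀ B →
  ∀ n m r : ℕ, 0 < r → n = ℓ ^ r → PE ℓ n m G → ∀ (ρ₁ ρ₂ : V₀ → ZMod ℓ) (x₁ x₂ : V₀ → ℤ)
  (c d : V₀) (F₁₃ F₁₂ : Set (SO.SS n V₀) → ℚ) (K : Set (Fin n × V₀ × V₀) → ℚ), Hm ρ₁ → Hm ρ₂ →
  FY ℓ n ρ₁ ρ₂ x₁ x₂ c d F₁₃ F₁₂ K → ∀ (κ w : V₀) (σ : MulAut V₀), w ≠ 1 →
  κ ∉ Subgroup.zpowers w → (ℓ : ℂ) ^ 2 * T5 B m κ w σ F₁₂ ∈ RM M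

/-- PAX: the parts at the axes for pairs.

Proof.  `AX1`: PRT.  `AX2`: PRH for `A₁`.  `AX3`: PRO.  `AX4`, `T5`: PRH for `A₂` (for `L ⊆ TP n κ w σ` with `pL L ≠ ⊥` and
`w ∈ A₂`, `w ≠ 1`: `aL κ L` is generated by the `w^(-k)`, and `ℓ ∤ k` for one of them (otherwise all `p = 1`),
so it is `A₂`, of order `ℓ`). -/
def PaxStmt : Prop := ∀ (ℓ : ℕ) [Fact ℓ.Prime] (M : Ideal (integralClosure ℤ ℂ)) [M.IsMaximal],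
  (ℓ : integralClosure ℤ ℂ) ∈ M → ℓ ≠ 2 → ∀ (V₀ G H : Type) [CommGroup V₀] [Finite V₀] [Group G]
  [Finite G] [Group H] [Finite H] (E₀ : Subgroup (MulAut V₀)) (A₁ A₂ : Subgroup V₀),
  Dx ℓ E₀ A₁ A₂ → ∀ (B : Bk (FF M) V₀ G) (B' : Bk (FF M) V₀ H) (j : H →* G), Sb ℓ M E₀ B →
  Sb ℓ M E₀ B' → ∀ n m : ℕ, PE ℓ n m G →
  (Pr A₁ B B' j → ∀ (c d : V₀) (F₁₃ F₁₂ : Set (SO.SS n V₀) → ℚ),
    AX1 A₁ B' m c d F₁₃ = AX1 A₁ B m c d F₁₃ ∧ AX2 E₀ A₁ B' m c d F₁₂ = AX2 E₀ A₁ B m c d F₁₂) ∧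
  (Pr A₂ B B' j → ∀ (c d : V₀) (F₁₂ : Set (SO.SS n V₀) → ℚ),
    AX3 E₀ A₂ B' m c d F₁₂ = AX3 E₀ A₂ B m c d F₁₂ ∧
    AX4 E₀ A₂ B' m c d F₁₂ = AX4 E₀ A₂ B m c d F₁₂ ∧
    (∀ (κ w : V₀) (σ : MulAut V₀), w ∈ A₂ → w ≠ 1 → T5 B' m κ w σ F₁₂ = T5 B m κ w σ F₁₂) ∧
    ∀ U : Subgroup V₀ → ℚ, AX5 E₀ A₂ U B' m c d F₁₂ = AX5 E₀ A₂ U B m c d F₁₂)

/-- DFB: the difference of `B` and a comparison block `B'`.

Proof.  `K ≥ 2` and `K ≥ K₀` of PPE.  FID for `B` and for `B'`.  The difference of the local parts is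
`(kE c kE d)⁻¹` (a unit of `Rl ℓ`, DIX (3)) times an element of `Rl ℓ` (PPE; `Sd.un`).  PAX for `B'`, `BR`:
`AXi B' = AXi BR`, `AX5 (B'.U) B' = AX5 (B'.U) BR`; and `AX5 (B'.U) BR - AX5 (B.U) BR` is in `RM M`: `B'.U W - B.U W ∈ ℓ^K Rl ℓ` for
`W = ⟨κ w⟩` (`Of`, DIX (7)), `ℓ² T5 ∈ RM M` (T5B for `BR`; `κ = c σ d ∈ A₁`, `κ ∉ ⟨w⟩ = A₂`). -/
def DfbStmt : Prop := ∀ (ℓ : ℕ) [Fact ℓ.Prime] (M : Ideal (integralClosure ℤ ℂ)) [M.IsMaximal],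
  (ℓ : integralClosure ℤ ℂ) ∈ M → ℓ ≠ 2 → ∀ (V₀ : Type) [CommGroup V₀] [Finite V₀]
  (E₀ : Subgroup (MulAut V₀)) (A₁ A₂ : Subgroup V₀), Dx ℓ E₀ A₁ A₂ → ∀ n r : ℕ, 0 < r → n = ℓ ^ r →
  ∀ (ρ₁ ρ₂ : V₀ → ZMod ℓ) (x₁ x₂ : V₀ → ℤ) (c d : V₀), c ∈ A₁ → d ∈ A₁ → c ≠ 1 → d ≠ 1 →
  ∀ (F₁₃ F₁₂ : Set (SO.SS n V₀) → ℚ) (K : Set (Fin n × V₀ × V₀) → ℚ), Hm ρ₁ → Hm ρ₂ →
  (∀ v ∈ A₂, ρ₁ v = 0 ∧ ρ₂ v = 0) → FY ℓ n ρ₁ ρ₂ x₁ x₂ c d F₁₃ F₁₂ K →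
  ∃ K₀ : ℕ, ∀ k, K₀ ≤ k → ∀ (G G' H : Type) [Group G] [Finite G] [Group G'] [Finite G'] [Group H]
  [Finite H] (B : Bk (FF M) V₀ G) (B' : Bk (FF M) V₀ G') (BR : Bk (FF M) V₀ H) (j : H →* G')
  (m : ℕ), Sd ℓ M E₀ B → Sd ℓ M E₀ B' → Sd ℓ M E₀ BR → PE ℓ n m G → PE ℓ n m G' → PE ℓ n m H →
  Rel ℓ n m B.i c d F₁₃ F₁₂ → Rel ℓ n m B'.i c d F₁₃ F₁₂ → Pr A₁ B' BR j → Pr A₂ B' BR j →
  (∀ W, Of A₁ A₂ W → ∃ q ∈ SOR.Rl ℓ, B.U W - B'.U W = ℓ ^ k * q) →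
  MN E₀ ℓ B x₁ x₂ c d - MN E₀ ℓ B' x₁ x₂ c d + (AX1 A₁ B m c d F₁₃ - AX1 A₁ BR m c d F₁₃) +
    (AX2 E₀ A₁ B m c d F₁₂ - AX2 E₀ A₁ BR m c d F₁₂) +
    (AX3 E₀ A₂ B m c d F₁₂ - AX3 E₀ A₂ BR m c d F₁₂) +
    (AX4 E₀ A₂ B m c d F₁₂ - AX4 E₀ A₂ BR m c d F₁₂) +
    (AX5 E₀ A₂ B.U B m c d F₁₂ - AX5 E₀ A₂ B.U BR m c d F₁₂) ∈ RM M

/-- T5C: the sums `AX5` for the difference of two systems of numbers `U`.

Proof.  `u w = (U ⟨κ w⟩ - U' ⟨κ w⟩)/ℓ` for `w ≠ 1`, `u 1 = 0`, `κ = c σ d ∈ A₁`, `κ ≠ 1`: in `Rl ℓ` (`un`, `Of`, DIX (7)); for `τ ∈ St E₀ A₁`: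
`⟨κ τ w⟩ = τ ⟨κ w⟩` and `B.U`, `B'.U` are invariant (CJD (6), with `sur`).  TFV for every `σ`. -/
def T5cStmt : Prop := ∀ (ℓ : ℕ) [Fact ℓ.Prime] (M : Ideal (integralClosure ℤ ℂ)) [M.IsMaximal],
  (ℓ : integralClosure ℤ ℂ) ∈ M → ℓ ≠ 2 → ∀ (V₀ G G' H : Type) [CommGroup V₀] [Finite V₀]
  [Group G] [Finite G] [Group G'] [Finite G'] [Group H] [Finite H]
  (E₀ : Subgroup (MulAut V₀)) (A₁ A₂ : Subgroup V₀), Dx ℓ E₀ A₁ A₂ →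
  ∀ (B : Bk (FF M) V₀ G) (B' : Bk (FF M) V₀ G') (BH : Bk (FF M) V₀ H), Sd ℓ M E₀ B →
  Sd ℓ M E₀ B' → Sd ℓ M E₀ BH → ∀ n m r : ℕ, 0 < r → n = ℓ ^ r → PE ℓ n m H →
  ∀ (ρ₁ ρ₂ : V₀ → ZMod ℓ) (x₁ x₂ : V₀ → ℤ) (c d : V₀), c ∈ A₁ → d ∈ A₁ → c ≠ 1 → d ≠ 1 →
  ∀ (F₁₃ F₁₂ : Set (SO.SS n V₀) → ℚ) (K : Set (Fin n × V₀ × V₀) → ℚ), Hm ρ₁ → Hm ρ₂ → Lf ρ₁ x₁ →
  Lf ρ₂ x₂ → (∀ v ∈ A₂, ρ₁ v = 0 ∧ ρ₂ v = 0) → FY ℓ n ρ₁ ρ₂ x₁ x₂ c d F₁₃ F₁₂ K →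
  AX5 E₀ A₂ B.U BH m c d F₁₂ - AX5 E₀ A₂ B'.U BH m c d F₁₂ ∈ RM M

/-- CPD: comparison of four groups.

Proof.  The alternating sum of DFB for `(B₀, B₀')`, .., `(B₃, B₃')`.  The terms `AX1 BR`, .., `AX4 BR` cancel.  PAX for
`(B₀, B₁)`, `(B₂, B₃)` (`A₁`): `AX1`, `AX2` cancel.  PAX for `(B₀, B₂)`, `(B₁, B₃)` (`A₂`): `AX3`, `AX4` cancel.  The terms
`AX5`: `AX5 (B₂.U) B₂ = AX5 (B₂.U) B₀`, `AX5 (B₃.U) B₃ = AX5 (B₃.U) B₁` (PAX), and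
`AX5 (B₀.U) B₀ - AX5 (B₂.U) B₀`, `AX5 (B₁.U) B₁ - AX5 (B₃.U) B₁`, and the same with `BR`, are in `RM M` (T5C).
The functions `F₁₃`, `F₁₂` are given by RTZ; `PE ℓ n m` for `G₁`, `G₂`, `G₃`, `H` follows from the ones for the groups
containing them or is given. -/
def CpdStmt : Prop := ∀ (ℓ : ℕ) [Fact ℓ.Prime] (M : Ideal (integralClosure ℤ ℂ)) [M.IsMaximal],
  (ℓ : integralClosure ℤ ℂ) ∈ M → ℓ ≠ 2 → ∀ (V₀ : Type) [CommGroup V₀] [Finite V₀]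
  (E₀ : Subgroup (MulAut V₀)) (A₁ A₂ : Subgroup V₀), Dx ℓ E₀ A₁ A₂ → ∀ n r : ℕ, 0 < r → n = ℓ ^ r →
  ∀ (ρ₁ ρ₂ : V₀ → ZMod ℓ) (x₁ x₂ : V₀ → ℤ) (c d : V₀), c ∈ A₁ → d ∈ A₁ → c ≠ 1 → d ≠ 1 →
  Hm ρ₁ → Hm ρ₂ → Lf ρ₁ x₁ → Lf ρ₂ x₂ → (∀ v ∈ A₂, ρ₁ v = 0 ∧ ρ₂ v = 0) →
  ∃ K₀ : ℕ, ∀ k, K₀ ≤ k → ∀ (G₀ G₁ G₂ G₃ G₀' G₁' G₂' G₃' H : Type) [Group G₀] [Finite G₀]
  [Group G₁] [Finite G₁] [Group G₂] [Finite G₂] [Group G₃] [Finite G₃]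
  [Group G₀'] [Finite G₀'] [Group G₁'] [Finite G₁'] [Group G₂'] [Finite G₂'] [Group G₃']
  [Finite G₃'] [Group H] [Finite H] (B₀ : Bk (FF M) V₀ G₀) (B₁ : Bk (FF M) V₀ G₁)
  (B₂ : Bk (FF M) V₀ G₂) (B₃ : Bk (FF M) V₀ G₃) (B₀' : Bk (FF M) V₀ G₀') (B₁' : Bk (FF M) V₀ G₁')
  (B₂' : Bk (FF M) V₀ G₂') (B₃' : Bk (FF M) V₀ G₃') (BR : Bk (FF M) V₀ H)
  (j₁ : G₁ →* G₀) (j₂ : G₂ →* G₀) (j₃ : G₃ →* G₂) (j₄ : G₃ →* G₁)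
  (i₀ : H →* G₀') (i₁ : H →* G₁') (i₂ : H →* G₂') (i₃ : H →* G₃') (m : ℕ),
  Sd ℓ M E₀ B₀ → Sd ℓ M E₀ B₁ → Sd ℓ M E₀ B₂ → Sd ℓ M E₀ B₃ → Sd ℓ M E₀ B₀' →
  Sd ℓ M E₀ B₁' → Sd ℓ M E₀ B₂' → Sd ℓ M E₀ B₃' → Sd ℓ M E₀ BR →
  PE ℓ n m G₀ → PE ℓ n m G₁ → PE ℓ n m G₂ → PE ℓ n m G₃ →
  PE ℓ n m G₀' → PE ℓ n m G₁' → PE ℓ n m G₂' → PE ℓ n m G₃' → PE ℓ n m H →
  Pr A₁ B₀ B₁ j₁ → Pr A₂ B₀ B₂ j₂ → Pr A₁ B₂ B₃ j₃ → Pr A₂ B₁ B₃ j₄ →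
  Pr A₁ B₀' BR i₀ → Pr A₂ B₀' BR i₀ → Pr A₁ B₁' BR i₁ → Pr A₂ B₁' BR i₁ →
  Pr A₁ B₂' BR i₂ → Pr A₂ B₂' BR i₂ → Pr A₁ B₃' BR i₃ → Pr A₂ B₃' BR i₃ →
  (∀ W, Of A₁ A₂ W → ∃ q ∈ SOR.Rl ℓ, B₀.U W - B₀'.U W = ℓ ^ k * q) →
  (∀ W, Of A₁ A₂ W → ∃ q ∈ SOR.Rl ℓ, B₁.U W - B₁'.U W = ℓ ^ k * q) →
  (∀ W, Of A₁ A₂ W → ∃ q ∈ SOR.Rl ℓ, B₂.U W - B₂'.U W = ℓ ^ k * q) →
  (∀ W, Of A₁ A₂ W → ∃ q ∈ SOR.Rl ℓ, B₃.U W - B₃'.U W = ℓ ^ k * q) →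
  (MN E₀ ℓ B₀ x₁ x₂ c d - MN E₀ ℓ B₀' x₁ x₂ c d) - (MN E₀ ℓ B₁ x₁ x₂ c d - MN E₀ ℓ B₁' x₁ x₂ c d) -
    (MN E₀ ℓ B₂ x₁ x₂ c d - MN E₀ ℓ B₂' x₁ x₂ c d) +
    (MN E₀ ℓ B₃ x₁ x₂ c d - MN E₀ ℓ B₃' x₁ x₂ c d) ∈ RM M

/-! ## 4. Arithmetic -/

/-- PEM: a common number `m`.

Proof.  Only the assertion for two groups: by PEX for `G × H` there are `r`, `m` with `PE ℓ (ℓ ^ r) m (G × H)`.  `m % ℓ = 1`.
`El ℓ (g, h)` iff `El ℓ g` and `El ℓ h` (and the same for `Reg`): so `(g, h) ^ m = (g, h)`, and `(g, h) ^ n = 1` by the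
hypotheses.  The second claim: an injective homomorphism preserves orders (`El`, `Reg` depend on the order). -/
def PemStmt : Prop := ∀ (ℓ : ℕ) [Fact ℓ.Prime] (n : ℕ) (G H : Type) [Group G] [Finite G] [Group H]
  [Finite H], ((∃ m, PE ℓ n m G) → (∃ m, PE ℓ n m H) → ∃ m, PE ℓ n m (G × H)) ∧
  (∀ j : H →* G, Function.Injective j → ∀ m, PE ℓ n m G → PE ℓ n m H) ∧
  (∀ r r', 0 < r → r ≤ r' → (∃ m, PE ℓ (ℓ ^ r) m G) → ∃ m, PE ℓ (ℓ ^ r') m G)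

/-- KAD: the arithmetic.

Proof.  `k₁ = kE E₀ c` is the same for all `c ∈ A₁ - 1`, prime to `ℓ`; `n = nE E₀ c`, `n k₁ = |E₀|`, prime to `ℓ` (DIX (3)).
`A₁ - 1` consists of the powers `c^j`, `ℓ ∤ j`, so `D c = D` is constant on `A₁ - 1`.  (R) multiplied with `ℓ²`:
`x₁(c⁻¹) x₂(d⁻¹) N(c, d) ≡ k₁⁻¹ D ∑_(σ, κ = c σ d ≠ 1) x₁(κ⁻¹) x₂((σ⁻¹ κ)⁻¹)` modulo `ℓ² Rl ℓ`, `x₁ = lf ρ v₀`, `x₂ = lf ρ 1`.
(a) `v₀ = c⁻¹` minus `v₀ = 1` (`κ ≠ c` as `d ≠ 1`): `ℓ x₂(d⁻¹) N(c, d) ≡ 0`, so `N(c, d) ∈ ℓ Rl ℓ`.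
(b) `c = d`, `v₀ = κ₀⁻¹`, `κ₀ = c²` (`κ₀ ≠ 1` as `ℓ ≠ 2`, `κ₀ ≠ c`) minus `v₀ = 1`:
`k₁⁻¹ D ℓ ∑_(σ : c σ c = c²) x₂((σ⁻¹ κ₀)⁻¹) ≡ 0`; `σ` runs over the `k₁` elements fixing `c`, `σ⁻¹ κ₀ = κ₀`, so
`D ℓ x₂(κ₀⁻¹) ≡ 0`, `D ∈ ℓ Rl ℓ`.
(c) `v₀ = 1`; modulo `ℓ`: `x₁(κ⁻¹) x₂((σ⁻¹ κ)⁻¹) ≡ ρ(κ) ρ(σ⁻¹ κ) = (a + χ b)(χ⁻¹ a + b) = χ⁻¹ a² + 2 a b + χ b²`, `a = ρ c`,
`b = ρ d`, `χ = χ σ` (DIX (6)); the terms with `κ = 1` are `0`.  The sum over `σ ∈ E₀` is `2 a b |E₀|` modulo `ℓ`.  As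
`N(c, d)`, `D ∈ ℓ Rl ℓ`: `a b N(c, d) ≡ k₁⁻¹ D 2 a b |E₀|`, so `N(c, d) ≡ 2 n D` modulo `ℓ²`.
(d) The last hypothesis for `c = d` in `A₁ - 1` (`A₁ ≠ ⊥`): `(ℓ - 1)² 2 n D + 2 n (ℓ - 1) D + n² k ≡ 0` modulo `ℓ²`; as
`ℓ ∣ D`: `2 n D - 2 n D + n² k ≡ 0`, so `ℓ² ∣ k`. -/
def KadStmt : Prop := ∀ (ℓ : ℕ) [Fact ℓ.Prime], ℓ ≠ 2 → ∀ (V₀ : Type) [CommGroup V₀] [Finite V₀]
  (E₀ : Subgroup (MulAut V₀)) (A₁ A₂ : Subgroup V₀), Dx ℓ E₀ A₁ A₂ → ∀ ρ : V₀ → ZMod ℓ, Hm ρ →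
  (∀ v ∈ A₂, ρ v = 0) → (∀ v ∈ A₁, v ≠ 1 → ρ v ≠ 0) →
  ∀ (D : V₀ → ℚ) (N : V₀ → V₀ → ℚ) (k : ℤ), (∀ c, D c ∈ SOR.Rl ℓ) → (∀ c d, N c d ∈ SOR.Rl ℓ) →
  (∀ c : V₀, ∀ j : ℕ, ¬ ℓ ∣ j → D (c ^ j) = D c) →
  (∀ c ∈ A₁, ∀ d ∈ A₁, c ≠ 1 → d ≠ 1 → ∀ v₀ : V₀,
    ((lf ρ v₀ c⁻¹ * lf ρ 1 d⁻¹ : ℤ) : ℚ) / ℓ ^ 2 * N c d -
      (kE E₀ c : ℚ)⁻¹ * ∑ᶠ σ ∈ {σ : MulAut V₀ | σ ∈ E₀ ∧ c * σ d ≠ 1},
        ((lf ρ v₀ (c * σ d)⁻¹ * lf ρ 1 (σ⁻¹ (c * σ d))⁻¹ : ℤ) : ℚ) / ℓ ^ 2 * D (c * σ d) ∈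
          SOR.Rl ℓ) →
  (∀ c d : V₀, c ≠ 1 → d ≠ 1 → ∃ q ∈ SOR.Rl ℓ,
    ∑ t ∈ Finset.Icc 1 (ℓ - 1), ∑ s ∈ Finset.Icc 1 (ℓ - 1), N (c ^ t) (d ^ s) +
      nE E₀ d * ∑ t ∈ Finset.Icc 1 (ℓ - 1), D (c ^ t) +
      nE E₀ c * ∑ s ∈ Finset.Icc 1 (ℓ - 1), D (d ^ s) +
      nE E₀ c * nE E₀ d * k = ℓ ^ 2 * q) →
  ((ℓ ^ 2 : ℕ) : ℤ) ∣ k

/-- K4B: four blocks with the same `V₀`, `E₀`, equal at the axes.

Proof.  `ρ` from DIX (5); `lf ρ v₀` is a lift (`Lf`).  PEX, PEM: `r`, `m` with `PE ℓ (ℓ^r) m (G₀ × G₁ × G₂ × G₃)` (for a common `r`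
use PEM (3); `CbxStmt` needs `0 < r`).  `k` = the maximum of the `K₀` of CPD for `x₁ = lf ρ v₀`, `x₂ = lf ρ 1`, over all
`c`, `d ∈ A₁ - 1`, `v₀ ∈ V₀`.  `BR` and the comparison blocks `B₀'`, .., `B₃'` for `k`, `r` from `CbxStmt` (`Stmts7.lean`); a common
`m` by PEM (for the product of the nine groups; the first claim, then the second claim for the embeddings).
`D c = (L1 B₀ c - L1 B₀' c) - .. - .. + ..`, `N` in the same way with `L2` (rational numbers, HL12), `k` the alternating sum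
of the numbers of characters (the ones of the comparison blocks are equal).  KAD: `D`, `N ∈ Rl ℓ` and the
invariance: HL12; the relation: CPD, a rational number in `RM M` is in `Rl ℓ`; the last one: HSM (2) for the eight
blocks (`Rgl`: DIX (4); the same `E₀`). -/
def K4bStmt : Prop := ∀ (ℓ : ℕ) [Fact ℓ.Prime] (M : Ideal (integralClosure ℤ ℂ)) [M.IsMaximal],
  (ℓ : integralClosure ℤ ℂ) ∈ M → ℓ ≠ 2 → ∀ (V₀ : Type) [CommGroup V₀] [Finite V₀]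
  (E₀ : Subgroup (MulAut V₀)) (A₁ A₂ : Subgroup V₀), Dx ℓ E₀ A₁ A₂ →
  ∀ (G₀ G₁ G₂ G₃ : Type) [Group G₀] [Finite G₀] [Group G₁] [Finite G₁] [Group G₂] [Finite G₂]
  [Group G₃] [Finite G₃] (B₀ : Bk (FF M) V₀ G₀) (B₁ : Bk (FF M) V₀ G₁)
  (B₂ : Bk (FF M) V₀ G₂) (B₃ : Bk (FF M) V₀ G₃)
  (j₁ : G₁ →* G₀) (j₂ : G₂ →* G₀) (j₃ : G₃ →* G₂) (j₄ : G₃ →* G₁),
  Sd ℓ M E₀ B₀ → Sd ℓ M E₀ B₁ → Sd ℓ M E₀ B₂ → Sd ℓ M E₀ B₃ →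
  Pr A₁ B₀ B₁ j₁ → Pr A₂ B₀ B₂ j₂ → Pr A₁ B₂ B₃ j₃ → Pr A₂ B₁ B₃ j₄ →
  ((ℓ ^ 2 : ℕ) : ℤ) ∣ ((IrrE M B₀.e).ncard : ℤ) - (IrrE M B₁.e).ncard - (IrrE M B₂.e).ncard +
    (IrrE M B₃.e).ncard

end Pool.Agent.PP.SD
end
end -- Pool.Agent.ASD.Stmts5

section -- Pool.Agent.AT8.StmtsF

/-!
# Squad AT8, block F: free inertial quotients

Text: `AWC_T8.md`.  Complete proofs in the docstrings.  If the inertial quotient `E = T/C(V)` acts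
freely on `V - 1` then `l(e) ≤ |E|`.
-/

open scoped BigOperators

noncomputable section

namespace Pool.Agent.PP.T8

open Pool.Agent.Helper51_AWC Pool.Agent.Helper79_WRA Pool.Agent.PP Pool.Agent.PP.KF
open Pool.Agent.PP.K9 Pool.Agent.PP.K9.H97 Pool.Agent.PP.H75 Pool.Agent.PP.T3 Pool.Agent.PP.T2

attribute [local instance] Ideal.Quotient.field

section defs

variable {G : Type} [Group G] (M : Ideal (integralClosure ℤ ℂ)) [M.IsMaximal]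

/-- the difference of the coefficients at `lam` and at the trivial character of the function
`v ↦ ε(v) vv(v) χ` -/
def cl (V : Subgroup G) (b : G → G → FF M) (d : G → ℕ) (ε : G → ℤ) (lam : V →* ℂ) (χ : G → ℂ) :
    ℂ :=
  (Nat.card V : ℂ)⁻¹ * ∑ᶠ v : V, (ε v : ℂ) * vv M b d v χ * (lam v⁻¹ - 1)

/-- `mu` is the conjugate of `lam` by `t` -/
def Tc (V : Subgroup G) (t : G) (lam mu : V →* ℂ) : Prop :=
  ∀ v w : V, (w : G) = t * v * t⁻¹ → mu v = lam w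

end defs

/-- FNI: integrality.

Proof.  All `v ∈ V - 1` are regular (`Fr`).  `f` from COH for `χ`: `cl lam χ = a_lam(f) - a_1(f)`
(the term `v = 1` is `0`), so it is in `RM M`.  Let `|V| = ℓ ^ A`, `A > 0` (otherwise `cl = 0`),
`ζ` of order `ℓ ^ A`.  INR (`q = ℓ ^ A`), DPW: `vv(v ^ j) χ = ∑_i m_{v,i} ζ ^ (i j)` for `j` prime to
`ℓ`, `lam(v) = ζ ^ (k_v)`.  So `|V| cl lam χ = P(ζ)`, `P(T) = ∑_v ε(v) (∑_i m_{v,i} T ^ i)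
(T ^ (n_v) - 1)` with integers `m_{v,i}` and `n_v ≥ 0`, `ζ ^ (n_v) = lam(v⁻¹)`, the sum over
`v ≠ 1`, and for `j` prime to `ℓ`: `P(ζ ^ j) = ∑_v ε(v) vv(v ^ j) χ (lam(v ^ (-j)) - 1) = P(ζ)`
(`ε(v ^ j) = ε(v)`, `v ↦ v ^ j` is a bijection of `V - 1`).  So `φ(ℓ ^ A) P(ζ) = ∑_j P(ζ ^ j)` is a
rational integer (the sums `∑_j ζ ^ (i j)` over the `j` prime to `ℓ` are), `P(ζ)` is rational and an
algebraic integer, so an integer `n`, and `n/|V| ∈ RM M` gives `|V| ∣ n` (otherwise `1/ℓ ∈ RM M`). -/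
def FniStmt : Prop := ∀ (ℓ : ℕ) [Fact ℓ.Prime] (M : Ideal (integralClosure ℤ ℂ)) [M.IsMaximal],
  (ℓ : integralClosure ℤ ℂ) ∈ M → ℓ ≠ 2 → ∀ (G : Type) [Group G] [Finite G] (N : ℕ), GS G ℓ N →
  ∀ (e : G → FF M) (V : Subgroup G) (γ : G → FF M) (b : G → G → FF M) (d : G → ℕ) (c : ℕ)
  (ε : G → ℤ), Dat M ℓ e V γ b d c ε → Fr V γ → ∀ χ ∈ Irr G, ∀ lam : V →* ℂ,
    ∃ n : ℤ, cl M V b d ε lam χ = n

/-- FNZ: conjugation and non vanishing.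

Proof.  (i) `v ↦ t v t⁻¹` is a bijection of `V`, `ε`, `vv` are constant on the orbits (DPW) (the term
`v = 1` is `0`).  (ii) For `v ≠ 1` Fourier inversion gives
`∑_lam cl lam χ lam(v) = ε(v) vv(v) χ` (the sum of `lam(v)` over all `lam` is `0`; the number
`∑_lam lam(w⁻¹) lam(v)` is `|V|` for `w = v` and `0` otherwise), and `vv(v) χ ≠ 0` for `χ ∈ e` (DCG and
`K9.InxStmt`; `v` is regular); `cl` of the trivial character is `0`.  (iii) `vv(v) χ = 0` for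
`χ ∉ e` (SMG). -/
def FnzStmt : Prop := ∀ (ℓ : ℕ) [Fact ℓ.Prime] (M : Ideal (integralClosure ℤ ℂ)) [M.IsMaximal],
  (ℓ : integralClosure ℤ ℂ) ∈ M → ℓ ≠ 2 → ∀ (G : Type) [Group G] [Finite G] (e : G → FF M)
  (V : Subgroup G) (γ : G → FF M) (b : G → G → FF M) (d : G → ℕ) (c : ℕ) (ε : G → ℤ),
  Dat M ℓ e V γ b d c ε → Fr V γ →
  (∀ t ∈ Tg V γ, ∀ lam mu : V →* ℂ, Tc V t lam mu → ∀ χ ∈ Irr G,
    cl M V b d ε mu χ = cl M V b d ε lam χ) ∧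
  (V ≠ ⊥ → ∀ χ ∈ IrrE M e, ∃ lam : V →* ℂ, (∃ v, lam v ≠ 1) ∧ cl M V b d ε lam χ ≠ 0) ∧
  ∀ lam : V →* ℂ, ∀ χ ∈ Irr G, χ ∉ IrrE M e → cl M V b d ε lam χ = 0

/-- FGR: the Gram matrix.

Proof.  `∑_χ cl lam χ conj (cl mu χ) = |V|⁻² ∑_{u, u'} ε(u) ε(u') (∑_χ vv(u) χ conj (vv(u') χ))
(lam(u⁻¹) - 1) (mu(u') - 1)`, `u, u' ∈ V - 1`.  By DOR the inner sum is `|V|` if `u'` is in the
`T`-orbit of `u`, `0` otherwise; the orbit consists of the `t u t⁻¹`, one for each coset `t C(V)` in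
`T` (`Fr`), and `ε(u') = ε(u)` there (DPW).  So the sum is
`|V|⁻¹ ∑_{t C(V)} ∑_{u ∈ V} (lam(u⁻¹) - 1) (mu(t u t⁻¹) - 1)`, and for `lam, mu` not trivial
`|V|⁻¹ ∑_u (lam(u⁻¹) mu(t u t⁻¹) - lam(u⁻¹) - mu(t u t⁻¹) + 1)` is `1` or `2`; it is `2` iff
`lam(u) = mu(t u t⁻¹)` for all `u`, i.e. `Tc V t mu lam`.  If `lam = mu` this holds only for
`t ∈ C(V)`: if `lam(t u t⁻¹ u⁻¹) = 1` for all `u` and `t ∉ C(V)`, then, as `u ↦ t u t⁻¹ u⁻¹` is an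
injective homomorphism of `V` (`Fr`), so surjective, `lam` would be trivial. -/
def FgrStmt : Prop := ∀ (ℓ : ℕ) [Fact ℓ.Prime] (M : Ideal (integralClosure ℤ ℂ)) [M.IsMaximal],
  (ℓ : integralClosure ℤ ℂ) ∈ M → ℓ ≠ 2 → ∀ (G : Type) [Group G] [Finite G] (e : G → FF M)
  (V : Subgroup G) (γ : G → FF M) (b : G → G → FF M) (d : G → ℕ) (c : ℕ) (ε : G → ℤ),
  Dat M ℓ e V γ b d c ε → Fr V γ → ∀ lam mu : V →* ℂ, (∃ v, lam v ≠ 1) → (∃ v, mu v ≠ 1) →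
  (lam = mu → ∑ᶠ χ ∈ Irr G, cl M V b d ε lam χ * starRingEnd ℂ (cl M V b d ε mu χ) =
    1 + ix V γ) ∧
  ((∀ t ∈ Tg V γ, ¬ Tc V t mu lam) →
    ∑ᶠ χ ∈ Irr G, cl M V b d ε lam χ * starRingEnd ℂ (cl M V b d ε mu χ) = ix V γ)

/-- CMB: integral vectors with Gram matrix `1 + n J`.

Proof.  Let `m = |ι|`, `K = |κ|`.  `m = 0`: then `κ` is empty.  `m = 1`: `K ≤ ∑ c² = 1 + n`.  Let
`m ≥ 2`, `d_ij = c_i - c_j`: `|d_ij|² = 2`, so `d_ij` has exactly two entries `≠ 0`, both `±1`, and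
`(d_ij, d_il) = 1` for `i, j, l` different, so the supports of `d_ij` and `d_il` have exactly one
common element, with the same sign.  Fix `i = 1`, `S_j` the support of `d_1j`, `j ≠ 1`: different sets
with two elements, any two of them meet in one element.  Either they have a common element `a` or
`m = 4` and they are `{a,b}, {a,c}, {b,c}`; in this case, with the signs `α, β, γ` at `a, b, c`,
`|c_j|² = |c_1|²` gives `α c_1(a) + β c_1(b) = 1`, `α c_1(a) + γ c_1(c) = 1`,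
`β c_1(b) + γ c_1(c) = 1`, the sum `2 (...) = 3` is impossible.  So (for all `m ≥ 2`)
`d_1j = α δ_a + β_j δ_(b_j)`, the `b_j` different and `≠ a`.  `y = c_1 - α δ_a`,
`c_j = y - β_j δ_(b_j)`.  With `t = α y(a)`: `|c_j|² = |c_1|²` gives `β_j y(b_j) = -t`, and
`|c_1|² = |y|² + 2 t + 1`, so `|y|² = n - 2 t`.  At the `K - m` other places `y = c_i ≠ 0` for some
`i`, so `|y|² ≥ K - m + m t²`, `K ≤ m + n - 2 t - m t² ≤ m + n` (`m ≥ 2`, `t` an integer). -/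
def CmbStmt : Prop := ∀ (ι κ : Type) [Fintype ι] [Fintype κ] (c : ι → κ → ℤ) (n : ℕ),
  (∀ i, ∑ k, c i k * c i k = 1 + n) → (∀ i j, i ≠ j → ∑ k, c i k * c j k = n) →
  (∀ k, ∃ i, c i k ≠ 0) → Fintype.card κ ≤ Fintype.card ι + n

/-- FKL: the number of ordinary and of modular characters.

Proof.  Let `K = IrrE e`, `R(χ, χ') = |G|⁻¹ ∑_{s regular} χ(s) conj (χ'(s))` for `χ, χ' ∈ K`.  By
`K9.RotStmt` the multiplication with the indicator function of the regular elements preserves the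
span of `K`; it is an orthogonal projection with matrix `R` in the orthonormal basis `K`, so
`R` is a projection, its rank is its trace, which is `ln e` (`T3.LrkStmt`).  The vectors
`(vv(u_i) χ)_{χ ∈ K}` are orthogonal, not `0` (DOR, norm squared `|V|`; they vanish outside `K`,
SMG) and in the kernel of `R` or of its conjugate: `∑_{χ'} conj (χ'(s)) vv(u) χ'` is a combination
of `∑_{χ' ∈ e} χ'(s⁻¹) χ'(g)`, `g` singular, `0` by `K9.WboStmt`.  So `|ι| ≤ |K| - ln e`. -/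
def FklStmt : Prop := ∀ (ℓ : ℕ) [Fact ℓ.Prime] (M : Ideal (integralClosure ℤ ℂ)) [M.IsMaximal],
  (ℓ : integralClosure ℤ ℂ) ∈ M → ∀ (G : Type) [Group G] [Finite G] (e : G → FF M)
  (V : Subgroup G) (γ : G → FF M) (b : G → G → FF M) (d : G → ℕ) (c : ℕ) (ε : G → ℤ),
  Dat M ℓ e V γ b d c ε → ∀ (ι : Type) [Fintype ι] (u : ι → G), (∀ i, Rg V γ (u i)) →
  (∀ i j, i ≠ j → ∀ t ∈ Tg V γ, t * u i * t⁻¹ ≠ u j) →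
    ln e + Fintype.card ι ≤ (IrrE M e).ncard

/-- FOR: representatives of the orbits.

Proof.  `E = T/C(V)` acts on `V - 1` (`v ↦ t v t⁻¹`) and on the set of the nontrivial homomorphisms
`V → ℂ`, both with `|V| - 1` elements, and both actions are free: on `V - 1` by `Fr`; if
`lam(t u t⁻¹) = lam(u)` for all `u` and `t ∉ C(V)` then `lam` is trivial on the image of the
injective homomorphism `u ↦ t u t⁻¹ u⁻¹`, which is `V`.  So both have `m = (|V| - 1)/|E|` orbits;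
take representatives. -/
def ForStmt : Prop := ∀ (ℓ : ℕ) [Fact ℓ.Prime] (F : Type) [Field F], GoodF ℓ F → ∀ (G : Type)
  [Group G] [Finite G] (e : G → F) (V : Subgroup G) (γ : G → F), Ld ℓ e V γ → Fr V γ →
  ∃ (m : ℕ) (u : Fin m → G) (lam : Fin m → (V →* ℂ)),
    (∀ i, u i ∈ V ∧ u i ≠ 1) ∧ (∀ i j, i ≠ j → ∀ t ∈ Tg V γ, t * u i * t⁻¹ ≠ u j) ∧
    (∀ i, ∃ v, lam i v ≠ 1) ∧ (∀ i j, i ≠ j → ∀ t ∈ Tg V γ, ¬ Tc V t (lam i) (lam j)) ∧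
    ∀ mu : V →* ℂ, (∃ v, mu v ≠ 1) → ∃ i, ∃ t ∈ Tg V γ, Tc V t (lam i) mu

/- LFR (`LfrStmt` in `Stmts4.lean`): assembly.

Proof.  `N` from `T2.Pr2Stmt`, the data from DAT, `m`, `u`, `lam` from FOR.  `c_i(χ)` is the integer
of FNI for `lam i`, `χ ∈ IrrE e`.  By FGR (and FNZ (iii)) CMB applies with `n = ix V γ`: by FNZ (i),
(ii) for every `χ ∈ IrrE e` some `c_i(χ) ≠ 0`.  So `|IrrE e| ≤ m + ix V γ`, and by FKL (`V ≠ ⊥`, all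
`u i` are regular) `ln e + m ≤ |IrrE e|`. -/

end Pool.Agent.PP.T8
end
end -- Pool.Agent.AT8.StmtsF

section -- Pool.Agent.ASO.Stmts8

/-!
# Squad ASO, statements 8: the final deduction

Complete proofs in the docstrings.  `T8.Fr V γ`: the inertial quotient acts freely on `V - 1`.
Library: AT8 (`Pool/Agent/AT8/Asm.lean`), AT6, K9.
-/

open scoped BigOperators

noncomputable section

namespace Pool.Agent.PP.SO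

open Pool.Agent.Helper51_AWC Pool.Agent.Helper79_WRA Pool.Agent.PP Pool.Agent.PP.KF
open Pool.Agent.PP.K9 Pool.Agent.PP.K9.H97 Pool.Agent.PP.H75 Pool.Agent.PP.T3

attribute [local instance] Ideal.Quotient.field

/-- K2B: the output of blocks (1) - (7): the number of ordinary characters modulo `ℓ ^ 2`. -/
def K2bStmt : Prop := ∀ (ℓ : ℕ) [Fact ℓ.Prime] (M : Ideal (integralClosure ℤ ℂ)) [M.IsMaximal],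
  (ℓ : integralClosure ℤ ℂ) ∈ M → 5 ≤ ℓ → ∀ (V₀ G : Type) [CommGroup V₀] [Finite V₀] [Group G]
  [Finite G] (E₀ : Subgroup (MulAut V₀)), Fr ℓ V₀ E₀ → ∀ B : Bk (FF M) V₀ G, Sy ℓ M E₀ B →
  ((ℓ ^ 2 : ℕ) : ℤ) ∣ ((IrrE M B.e).ncard : ℤ) - ((Irr (V₀ ⋊[E₀.subtype] E₀)).ncard : ℤ)

/-- KLN: the number of ordinary and of modular characters for a free inertial quotient.

Proof.  Local blocks `b v`, `v ∈ V` (`T3.LocStmt`).  `T6.CplStmt` for `χ ∈ e`: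
`∑_{v ∈ V} Mm v (b v) χ χ = |V| ix`; add over the `k(e)` characters `χ`.  `v = 1`: `C(1) = G`, `b 1 = e`
(uniqueness), `C(V).relIndex (T ⊓ C(1)) = ix`, `gv G s e χ = χ(s)` for `χ ∈ e`, so the sum of `Pm` over
`χ ∈ e` is `ln e` (`T3.LrkStmt`): the contribution is `|V| ix ln e`.  `v ≠ 1`: `v` is regular
(`T8.Fr`), the relative index is `1`; let `b = b v`, `C = C(v)`, `d` the degree, `κ₀ ∈ b`
(`T3.RglStmt`; `b` has inertial index one by `T3.LsbStmt`).  `χ|C = ∑ m_κ κ`,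
`gv C (v s) b χ = ∑_{κ ∈ b} m_κ κ(v s) = ∑ m_κ (κ(v)/d) κ(s) = (κ₀(s)/d) gv C v b χ` for `s` regular
(`T8.Rg1Stmt`).  So `∑_χ Pm v b χ χ = (|C|⁻¹ ∑_s |κ₀(s)|²) ∑_χ |gv v b χ|²/d²`; the second factor is
`|V|` (`T3.Co1Stmt`, `|V|` characters of degree `d`; `gv v b χ = 0` for `χ ∉ e`, `T3.SmgStmt`), and
`|V| |C|⁻¹ ∑_s |κ₀(s)|² = |C|⁻¹ ∑_s ∑_{κ ∈ b} |κ(s)|² = ln b = 1` (LRK; `1 ≤ ln b` by `K9.LbdStmt`,
`ln b ≤ ix = 1` by `T8.LfrStmt`).  So the contribution of `v` is `|V|`, and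
`|V| ix k(e) = |V| ix ln e + (|V| - 1) |V|`. -/
def KlnStmt : Prop := ∀ (ℓ : ℕ) [Fact ℓ.Prime] (M : Ideal (integralClosure ℤ ℂ)) [M.IsMaximal],
  (ℓ : integralClosure ℤ ℂ) ∈ M → ℓ ≠ 2 → ∀ (G : Type) [Group G] [Finite G] (e : G → FF M)
  (V : Subgroup G) (γ : G → FF M), Ld ℓ e V γ → V ≠ ⊥ → T8.Fr V γ →
  (IrrE M e).ncard * ix V γ = ln e * ix V γ + (Nat.card V - 1)

/-- ESY: the group `V₀` and the automorphisms `E₀`, for `G` and for `N(V)`.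

Proof.  `V₀ = V` with the commutative group structure, `i` the inclusion in `G`, `j` the inclusion in
`N(V)`, `E₀` the set of the automorphisms `v ↦ t v t⁻¹`, `t ∈ T = Tg V γ`.  `T ≤ N(V)`, and the inertial
group of `γ` in `N(V)` is `T` (as in `T3.NvtStmt`).  `Fr`: if `t v t⁻¹ = v ≠ 1` then `t ∈ C(V)`
(`T8.Fr`), so `σ = 1`. -/
def EsyStmt : Prop := ∀ (ℓ : ℕ) [Fact ℓ.Prime] (M : Ideal (integralClosure ℤ ℂ)) [M.IsMaximal],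
  (ℓ : integralClosure ℤ ℂ) ∈ M → ∀ (G : Type) [Group G] [Finite G] (e : G → FF M)
  (V : Subgroup G) (γ : G → FF M), Ld ℓ e V γ → T8.Fr V γ → (∀ v ∈ V, v ^ ℓ = 1) →
  Nat.card V = ℓ ^ 2 →
  ∃ (V₀ : Type) (_ : CommGroup V₀) (_ : Finite V₀) (E₀ : Subgroup (MulAut V₀)) (i : V₀ →* G)
    (j : V₀ →* Subgroup.normalizer (V : Set G)), Fr ℓ V₀ E₀ ∧
    (Function.Injective i ∧ i.range = V ∧
      (∀ t ∈ Tg V γ, ∃ σ ∈ E₀, ∀ v, t * i v * t⁻¹ = i (σ v)) ∧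
      ∀ σ ∈ E₀, ∃ t ∈ Tg V γ, ∀ v, t * i v * t⁻¹ = i (σ v)) ∧
    Function.Injective j ∧ j.range = V.subgroupOf (Subgroup.normalizer (V : Set G)) ∧
      (∀ t ∈ Tg (V.subgroupOf (Subgroup.normalizer (V : Set G)))
        (fun t : Subgroup.normalizer (V : Set G) => γ t), ∃ σ ∈ E₀, ∀ v, t * j v * t⁻¹ = j (σ v)) ∧
      ∀ σ ∈ E₀, ∃ t ∈ Tg (V.subgroupOf (Subgroup.normalizer (V : Set G)))
        (fun t : Subgroup.normalizer (V : Set G) => γ t), ∀ v, t * j v * t⁻¹ = j (σ v)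

/-- S2A: the theorem for block idempotents.

Proof.  ESY; SYE (`SyeStmt`) for `e`, `G` and for `f = br V e`, `N(V)` (`T3.NvtStmt`); K2B for both with
the same `V₀`, `E₀`: `ℓ ^ 2 ∣ k(e) - k(f)`.  `ix` is the same for both (NVT) and `T8.Fr` holds for `f`
(the inertial groups are equal), so KLN gives `ix (k(e) - ln e) = ix (k(f) - ln f)`,
`ℓ ^ 2 ∣ ln e - ln f`.  `1 ≤ ln e, ln f` (`K9.LbdStmt`), `ln e, ln f ≤ ix` (`T8.LfrStmt`) and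
`ix ≤ ℓ ^ 2 - 1` (KLN: `ix ∣ ℓ ^ 2 - 1`).  So `ln e = ln f`, and `YY = 0` by `K9.ChvStmt`. -/
def S2aStmt : Prop := ∀ (ℓ : ℕ) [Fact ℓ.Prime] (M : Ideal (integralClosure ℤ ℂ)) [M.IsMaximal],
  (ℓ : integralClosure ℤ ℂ) ∈ M → 5 ≤ ℓ → ∀ (G : Type) [Group G] [Finite G] (e : G → FF M)
  (V : Subgroup G) (γ : G → FF M), Ld ℓ e V γ → T8.Fr V γ → (∀ v ∈ V, v ^ ℓ = 1) →
  Nat.card V = ℓ ^ 2 → YY ℓ ⊤ e = 0

/-- FRD: the reduction modulo `O_ℓ(G)`.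

Proof.  This is a part of `Helper24_AT8/FN8.lean`: `e` the block of `χ`,
`|G| altSum χ = |Z|² YY ℓ ⊤ (push p e)`, `γ'` from QT3, `T8.Fr` from `T8.Fd`. -/
def FrdStmt : Prop := ∀ (ℓ : ℕ) [Fact ℓ.Prime] (M : Ideal (integralClosure ℤ ℂ)) [M.IsMaximal],
  (ℓ : integralClosure ℤ ℂ) ∈ M → ∀ (G : Type) [Group G] [Finite G],
  opCore ℓ G ≤ Subgroup.center G → ∀ χ ∈ Irr G, ∀ D : Subgroup G, ML.IsDef ℓ M χ D →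
  (∀ x ∈ D, ∀ y ∈ D, x * y = y * x) →
  ∀ th ∈ IrrBlock M (Subgroup.centralizer (D : Set G)).subtype χ, T8.Fd ℓ M D th →
  ∀ (A : Type) [Group A] [Finite A] (p : G →* A), Function.Surjective p → p.ker = opCore ℓ G →
  Nat.card (D.map p) * Nat.card (opCore ℓ G) = Nat.card D ∧
  ∃ f γ' : A → FF M, Ld ℓ f (D.map p) γ' ∧ T8.Fr (D.map p) γ' ∧
    (Nat.card G : ℤ) * altSum ℓ M χ = (Nat.card (opCore ℓ G) : ℤ) ^ 2 * YY ℓ ⊤ f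

/-- FNO: the final theorem.

Proof.  FRD for `p : G → G/O_ℓ(G)`.  If `D.map p` has exponent `ℓ`: S2A.  Otherwise it is cyclic of order
`ℓ ^ 2`, an element `y` of order `ℓ ^ 2` generates it: `T5.t5a_` (`Helper11_AT5/Asm5.lean`, cyclic defect
groups), or `T8.T8aStmt`. -/
def FnoStmt : Prop := ∀ (ℓ : ℕ) [Fact ℓ.Prime] (M : Ideal (integralClosure ℤ ℂ)) [M.IsMaximal],
  (ℓ : integralClosure ℤ ℂ) ∈ M → 5 ≤ ℓ → ∀ (G : Type) [Group G] [Finite G],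
  opCore ℓ G ≤ Subgroup.center G → ∀ χ ∈ Irr G, ∀ D : Subgroup G, ML.IsDef ℓ M χ D →
  (∀ x ∈ D, ∀ y ∈ D, x * y = y * x) →
  Nat.card D = ℓ ^ 2 * Nat.card (opCore ℓ G) →
  ∀ th ∈ IrrBlock M (Subgroup.centralizer (D : Set G)).subtype χ, T8.Fd ℓ M D th →
  altSum ℓ M χ = 0

end Pool.Agent.PP.SO
end
end -- Pool.Agent.ASO.Stmts8

section -- Pool.Agent.ASD.Stmts8

/-!
# Squad ASD, statements 8: the numbers of characters, the final deduction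

Complete proofs in the docstrings.  `ln e` is the number of the irreducible modular characters in
`e` (`T3.ln`), `lT B` the one of the block `g` of the inertial group.
-/

open scoped BigOperators

noncomputable section

namespace Pool.Agent.PP.SD

open Pool.Agent.Helper51_AWC Pool.Agent.Helper79_WRA Pool.Agent.PP Pool.Agent.PP.KF
open Pool.Agent.PP.K9 Pool.Agent.PP.K9.H97 Pool.Agent.PP.H75 Pool.Agent.PP.T3 Pool.Agent.PP.SO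

attribute [local instance] Ideal.Quotient.field

/-- the number of the irreducible modular characters of the inertial group which are in `g` -/
def lT {F V₀ G : Type} [Field F] [CommGroup V₀] [Group G] (B : Bk F V₀ G) : ℕ :=
  ln (fun t : Tg B.i.range B.g => B.g t)

/-! ## 1. The number of ordinary characters -/

/-- PML: the sum of the diagonal entries over all characters.

Proof.  `C = C(v)`, `s ∈ C` regular.  As in `T6.IpsStmt` (or by it: `∑_g sv v b χ g conj χ(g) =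
|G| Pm v b χ χ`): `gv C (v s) b χ = ∑_(κ ∈ b) (χ|C, κ) κ(v s)`, `κ(v s) = c κ(s)`, and for `κ ∈ b`, `κ' ∉ b` the sum
of `κ(s) conj κ'(s)` over the regular `s` is `0` (`K9.RotStmt`), so `Pm v b χ χ =
|C|⁻¹ ∑_s gv C (v s) b χ conj χ(v s)`.  For fixed `s` let `F(g) = ∑_(χ ∈ Irr G) χ(g) conj χ(v s)`, the number of
the `x ∈ G` with `x g x⁻¹ = v s` (column orthogonality); `∑_χ gv C (v s) b χ conj χ(v s)` is the value at `v s`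
of the component of `F|C` in `b`.  For `g ∈ C` with `ℓ`-part `v` such an `x` is in `C`, so there
`F(g) = ∑_(κ ∈ Irr C) κ(g) conj κ(v s)`, the same for all `g ∈ C` up to a class function of `C` which vanishes at the
elements with `ℓ`-part `v`; the component in `b` of such a function vanishes there, too (translate
with the central element `v`; `K9.RotStmt`).  So the value is `∑_(κ ∈ b) |κ(v s)|² = ∑_(κ ∈ b) |κ(s)|²`.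
`T3.LrkStmt`. -/
def PmlStmt : Prop := ∀ (ℓ : ℕ) [Fact ℓ.Prime] (M : Ideal (integralClosure ℤ ℂ)) [M.IsMaximal],
  (ℓ : integralClosure ℤ ℂ) ∈ M → ∀ (G : Type) [Group G] [Finite G] (v : G), El ℓ v →
  ∀ b : G → FF M, Ix (Cu v) b →
    ∑ᶠ χ ∈ Irr G, T6.Pm M ℓ v b χ χ = (ln (fun t : Cu v => b t) : ℂ)

/-- KLD: the number of ordinary characters.

Proof.  Second claim: `b W` has the defect group `V` and inertial index one (LBD), so its inertial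
quotient acts freely: `ln ≤ 1` (`T8.LfrStmt`, `V ≠ ⊥`), `1 ≤ ln` (`K9.LbdStmt`).
First claim: `b ⟨v⟩` is the local block of `i(v)` (`T3.Lc`; `C ⟨v⟩ = C(i v)`).  `T6.CplStmt` for `χ ∈ e`:
`∑_(v ∈ V) Mm v (b v) χ χ = |V| ix`; `ix = |E₀|` (LBD for `W = ⊥`, or `act`, `sur`), the factor
`|T ∩ C(i v) : C(V)|` in `Mm` is `|Es E₀ v|` (LBD for `⟨v⟩`, LSB).  Add over the `k(e)` characters `χ ∈ e`.  If `χ ∉ e`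
then `gv (v s) (b v) χ = 0` for all regular `s` (`T3.SmgStmt` if `v ≠ 1`; clear if `v = 1`, `b 1 = e`), so the sum of
`Pm v (b v) χ χ` over `χ ∈ e` is the sum over `Irr G`, PML. -/
def KldStmt : Prop := ∀ (ℓ : ℕ) [Fact ℓ.Prime] (M : Ideal (integralClosure ℤ ℂ)) [M.IsMaximal],
  (ℓ : integralClosure ℤ ℂ) ∈ M → ℓ ≠ 2 → ∀ (V₀ G : Type) [CommGroup V₀] [Finite V₀] [Group G]
  [Finite G] (E₀ : Subgroup (MulAut V₀)), Fq ℓ V₀ E₀ → ∀ B : Bk (FF M) V₀ G, Sb ℓ M E₀ B →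
  Nat.card E₀ * (IrrE M B.e).ncard = ∑ᶠ v : V₀, Nat.card (Es E₀ v) *
      ln (fun t : B.C (Subgroup.zpowers v) => B.b (Subgroup.zpowers v) t) ∧
  ∀ W, Rw E₀ W → ln (fun t : B.C W => B.b W t) = 1

/-! ## 2. The inertial group -/

/-- LNT: the theorem of Fong and Reynolds for the number of modular characters.

Proof.  `H75.Bd.yy` (`Helper75_PP/Fr.lean`; its hypotheses are theorems of the library, compare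
`Helper83_AT2/FRS.lean`) for `R = ⊥`: `YY ℓ ⊥ e = |N : st b| YY ℓ ⊥ (e b | st b)`.  The only chain of
`ℓ`-subgroups of `⊥` which begins with `⊥` is `{⊥}`, its stabiliser is the whole group: `YY ℓ ⊥ e = |N| ln e`
(`lnum ⊤ e = ln e`), and in the same way for `st b`.  `e b = b`. -/
def LntStmt : Prop := ∀ (ℓ : ℕ) [Fact ℓ.Prime] (F : Type) [Field F], GoodF ℓ F → ∀ (N : Type)
  [Group N] [Finite N] (C : Subgroup N), C.Normal → ∀ e : N → F, IsBlk e → ∀ b : N → F, Bx C b →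
  mulF e b = b → ln e = ln (fun t : st b => b t)

/-- LNN: the block of the normaliser of the defect group.

Proof.  `V = B.i.range`, `N = N(V)`, `f = br V e | N` is a block (`T3.NvtStmt`, `K9.FmgStmt`), `f g = g` (`ld.und`), `C(V)` is normal
in `N`, LNT.  The stabiliser of `g` in `N` is `Tg V g`; both are subgroups of `G` up to the embedding of `N`
(transport `ln` along the isomorphism). -/
def LnnStmt : Prop := ∀ (ℓ : ℕ) [Fact ℓ.Prime] (M : Ideal (integralClosure ℤ ℂ)) [M.IsMaximal],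
  (ℓ : integralClosure ℤ ℂ) ∈ M → ∀ (V₀ G : Type) [CommGroup V₀] [Finite V₀] [Group G]
  [Finite G] (E₀ : Subgroup (MulAut V₀)) (B : Bk (FF M) V₀ G), Sb ℓ M E₀ B →
  ln (fun t : Subgroup.normalizer (B.i.range : Set G) => br B.i.range B.e t) = lT B

/-- LNJ: the inertial groups of a pair.

Proof.  `j` maps `T' = Tg B'.i.range B'.g` onto `T = Tg B.i.range B.g`, `B'.g = B.g ∘ j`; transport `ln`.  Let `t' ∈ T'`: `j t'`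
normalises `V = j(V')`, and `B.g ((j t') x (j t')⁻¹) = B.g x` for `x` in the image of `j`; `B.g` vanishes outside of
`C(V)`, which is contained in `C(i A)`, so in the image of `j` (`cen`).  Let `t ∈ T`, inducing `σ ∈ E₀`
(`act` for `B`), `t' ∈ T'` inducing `σ` (`sur` for `B'`): `(j t')⁻¹ t` centralises `V`, so it is in the image of `j`,
`t = j t''`, and `t'' ∈ T'` (`j` is injective). -/
def LnjStmt : Prop := ∀ (ℓ : ℕ) [Fact ℓ.Prime] (M : Ideal (integralClosure ℤ ℂ)) [M.IsMaximal],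
  (ℓ : integralClosure ℤ ℂ) ∈ M → ∀ (V₀ G H : Type) [CommGroup V₀] [Finite V₀] [Group G]
  [Finite G] [Group H] [Finite H] (E₀ : Subgroup (MulAut V₀)) (A : Subgroup V₀)
  (B : Bk (FF M) V₀ G) (B' : Bk (FF M) V₀ H) (j : H →* G), Sb ℓ M E₀ B → Sb ℓ M E₀ B' →
  Pr A B B' j → lT B' = lT B

/-- LNH: groups with a normal `ℓ`-subgroup.

Proof.  `i(A) ≠ 1` is a normal `ℓ`-subgroup, so `opCore ℓ G ≠ ⊥` and `YY ℓ ⊤ e = 0` (`YzrStmt`,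
`Helper96_PP/Trn.lean`, `Q = ⊤`).  `K9.ChvStmt` (`|V| = ℓ ^ 2`): `ln e = ln (br V e | N(V))`.  LNN. -/
def LnhStmt : Prop := ∀ (ℓ : ℕ) [Fact ℓ.Prime] (M : Ideal (integralClosure ℤ ℂ)) [M.IsMaximal],
  (ℓ : integralClosure ℤ ℂ) ∈ M → ∀ (V₀ G : Type) [CommGroup V₀] [Finite V₀] [Group G]
  [Finite G] (E₀ : Subgroup (MulAut V₀)), Fq ℓ V₀ E₀ → ∀ B : Bk (FF M) V₀ G, Sb ℓ M E₀ B →
  ∀ A : Subgroup V₀, A ≠ ⊥ → (A.map B.i).Normal → ln B.e = lT B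

/-! ## 3. Four groups -/

/-- G4D: the four groups (output of block 6, `Stmts6.lean`): `G₁ = N(i A₁, b A₁)`, `G₂ = N(i A₂, b A₂)`,
`G₃ = G₁ ∩ G₂`. -/
def G4dStmt : Prop := ∀ (ℓ : ℕ) [Fact ℓ.Prime] (M : Ideal (integralClosure ℤ ℂ)) [M.IsMaximal],
  (ℓ : integralClosure ℤ ℂ) ∈ M → ℓ ≠ 2 → ∀ (V₀ G : Type) [CommGroup V₀] [Finite V₀] [Group G]
  [Finite G] (E₀ : Subgroup (MulAut V₀)) (A₁ A₂ : Subgroup V₀), Dx ℓ E₀ A₁ A₂ →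
  ∀ B : Bk (FF M) V₀ G, Sd ℓ M E₀ B →
  ∃ (G₁ G₂ G₃ : Type) (_ : Group G₁) (_ : Finite G₁) (_ : Group G₂) (_ : Finite G₂)
    (_ : Group G₃) (_ : Finite G₃) (B₁ : Bk (FF M) V₀ G₁) (B₂ : Bk (FF M) V₀ G₂)
    (B₃ : Bk (FF M) V₀ G₃) (j₁ : G₁ →* G) (j₂ : G₂ →* G) (j₃ : G₃ →* G₂) (j₄ : G₃ →* G₁),
    Sd ℓ M E₀ B₁ ∧ Sd ℓ M E₀ B₂ ∧ Sd ℓ M E₀ B₃ ∧
    Pr A₁ B B₁ j₁ ∧ Pr A₂ B B₂ j₂ ∧ Pr A₁ B₂ B₃ j₃ ∧ Pr A₂ B₁ B₃ j₄ ∧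
    (A₁.map B₁.i).Normal ∧ (A₂.map B₂.i).Normal ∧ (A₁.map B₃.i).Normal

/-- L4D: the numbers of modular characters of four groups.

Proof.  KLD for the four data.  The terms for `v ∉ A₁ ∪ A₂` are `1` (`Of`, DIX (1): `Rw`, `Es E₀ v` is trivial), so
they cancel.  For `v ∈ A₁`, `v ≠ 1` (`⟨v⟩ = A₁`) the terms for `B₀`, `B₁` are equal and the terms for `B₂`, `B₃` are
equal (PCH, last claim), for `v ∈ A₂` the ones for `B₀`, `B₂` and for `B₁`, `B₃`.  `v = 1`: `|Es E₀ 1| = |E₀|`,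
`b ⊥ = e` (`lb`: `C ⊥ = ⊤`, a block of `G` under `e`).  So `|E₀|` times the alternating sum of the `k(B_i)` is
`|E₀|` times the alternating sum of the `ln (B_i).e`; K4B. -/
def L4dStmt : Prop := ∀ (ℓ : ℕ) [Fact ℓ.Prime] (M : Ideal (integralClosure ℤ ℂ)) [M.IsMaximal],
  (ℓ : integralClosure ℤ ℂ) ∈ M → ℓ ≠ 2 → ∀ (V₀ : Type) [CommGroup V₀] [Finite V₀]
  (E₀ : Subgroup (MulAut V₀)) (A₁ A₂ : Subgroup V₀), Dx ℓ E₀ A₁ A₂ →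
  ∀ (G₀ G₁ G₂ G₃ : Type) [Group G₀] [Finite G₀] [Group G₁] [Finite G₁] [Group G₂] [Finite G₂]
  [Group G₃] [Finite G₃] (B₀ : Bk (FF M) V₀ G₀) (B₁ : Bk (FF M) V₀ G₁)
  (B₂ : Bk (FF M) V₀ G₂) (B₃ : Bk (FF M) V₀ G₃)
  (j₁ : G₁ →* G₀) (j₂ : G₂ →* G₀) (j₃ : G₃ →* G₂) (j₄ : G₃ →* G₁),
  Sd ℓ M E₀ B₀ → Sd ℓ M E₀ B₁ → Sd ℓ M E₀ B₂ → Sd ℓ M E₀ B₃ →
  Pr A₁ B₀ B₁ j₁ → Pr A₂ B₀ B₂ j₂ → Pr A₁ B₂ B₃ j₃ → Pr A₂ B₁ B₃ j₄ →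
  ((ℓ ^ 2 : ℕ) : ℤ) ∣ (ln B₀.e : ℤ) - ln B₁.e - ln B₂.e + ln B₃.e

/-- S2D: the theorem for the datum of a block.

Proof.  G4D, L4D: `ℓ ^ 2 ∣ ln e - ln e₁ - ln e₂ + ln e₃`.  LNH: `ln e₁ = lT B₁`, `ln e₂ = lT B₂`, `ln e₃ = lT B₃`
(`A₁`, `A₂ ≠ ⊥`), and LNJ: they are equal to `lT B`.  So `ℓ ^ 2 ∣ ln e - lT B`.  KLD for `B` and the term of
`v ≠ 1` (they are positive: `1 ≤ ln` by `K9.LbdStmt`): `ln e < k(e) ≤ ℓ ^ 2` (`K9.KlStmt`); in the same way for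
the block `br V e` of `N(V)` (`T3.NvtStmt`; it has a datum with the same `V₀`, `E₀`: SYD, compare `ESY` of squad ASO;
or the datum `B'` of `N(V)` with `Pr ⊤ B B' j`): `lT B = ln (br V e | N(V)) < ℓ ^ 2` (LNN).  So `ln e = lT B` and `K9.ChvStmt`
with LNN give `YY = 0`. -/
def S2dStmt : Prop := ∀ (ℓ : ℕ) [Fact ℓ.Prime] (M : Ideal (integralClosure ℤ ℂ)) [M.IsMaximal],
  (ℓ : integralClosure ℤ ℂ) ∈ M → ℓ ≠ 2 → ∀ (V₀ G : Type) [CommGroup V₀] [Finite V₀] [Group G]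
  [Finite G] (E₀ : Subgroup (MulAut V₀)) (A₁ A₂ : Subgroup V₀), Dx ℓ E₀ A₁ A₂ →
  ∀ B : Bk (FF M) V₀ G, Sd ℓ M E₀ B → YY ℓ ⊤ B.e = 0

/-! ## 4. Abelian inertial quotients -/

/-- ABD: the abelian groups `E₀`.

Proof.  If `Fr` is false there are `σ ∈ E₀`, `σ ≠ 1`, and `v ≠ 1` with `σ v = v`.  Let `C` be the subgroup of the
elements fixed by `σ` and `D` the image of `w ↦ σ w w⁻¹` (a homomorphism with kernel `C`).  `V₀ = C × D`: let `n` be the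
order of `σ` (`σ ^ n = 1`, `n` is prime to `ℓ` as it divides `|E₀|`); if `w = σ u u⁻¹ ∈ C` then
`σ ^ n u = w ^ n u`, so `w ^ n = 1`, `w = 1`; and `|C| |D| = |V₀|`.  `C ≠ 1` (`v`), `D ≠ 1` (`σ ≠ 1`), so both have order
`ℓ`.  `E₀` is commutative, so all `τ ∈ E₀` map `C` and `D` to themselves.  If some `τ ∈ E₀` acts non trivially on
`C`: `A₁ = C`, `A₂ = D` (`cs`: `σ`).  If not: `A₁ = D` (`σ` acts non trivially on `D`, because `σ ≠ 1`), `A₂ = C` (`cs`: the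
second case). -/
def AbdStmt : Prop := ∀ (ℓ : ℕ) [Fact ℓ.Prime] (V₀ : Type) [CommGroup V₀] [Finite V₀]
  (E₀ : Subgroup (MulAut V₀)), Fq ℓ V₀ E₀ → (∀ σ ∈ E₀, ∀ τ ∈ E₀, σ * τ = τ * σ) →
  Fr ℓ V₀ E₀ ∨ ∃ A₁ A₂ : Subgroup V₀, Dx ℓ E₀ A₁ A₂

/-- ESD: the group `V₀` and the automorphisms `E₀`.

Proof.  As `SO.EsyStmt` (`Helper43_ASO/ESY.lean`): `V₀ = V`, `i` the inclusion, `E₀` the set of the automorphisms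
`v ↦ t v t⁻¹`, `t ∈ T`.  `|E₀| = ix V γ` (`T` acts with kernel `C(V)`) is prime to `ℓ` (`K9.InxStmt`).  If
`s t s⁻¹ t⁻¹` centralises `V` then the automorphisms of `s` and `t` commute. -/
def EsdStmt : Prop := ∀ (ℓ : ℕ) [Fact ℓ.Prime] (M : Ideal (integralClosure ℤ ℂ)) [M.IsMaximal],
  (ℓ : integralClosure ℤ ℂ) ∈ M → ∀ (G : Type) [Group G] [Finite G] (e : G → FF M)
  (V : Subgroup G) (γ : G → FF M), Ld ℓ e V γ → (∀ v ∈ V, v ^ ℓ = 1) → Nat.card V = ℓ ^ 2 →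
  ∃ (V₀ : Type) (_ : CommGroup V₀) (_ : Finite V₀) (E₀ : Subgroup (MulAut V₀)) (i : V₀ →* G),
    Fq ℓ V₀ E₀ ∧ Function.Injective i ∧ i.range = V ∧
    (∀ t ∈ Tg V γ, ∃ σ ∈ E₀, ∀ v, t * i v * t⁻¹ = i (σ v)) ∧
    (∀ σ ∈ E₀, ∃ t ∈ Tg V γ, ∀ v, t * i v * t⁻¹ = i (σ v)) ∧
    ((∀ s ∈ Tg V γ, ∀ t ∈ Tg V γ, s * t * s⁻¹ * t⁻¹ ∈ Subgroup.centralizer (V : Set G)) →
      ∀ σ ∈ E₀, ∀ τ ∈ E₀, σ * τ = τ * σ) ∧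
    (Fr ℓ V₀ E₀ → T8.Fr V γ)

/-- S2E: the theorem for block idempotents.

Proof.  ESD.  ABD: if `Fr ℓ V₀ E₀`: `SO.S2aStmt` (`T8.Fr V γ`).  If `Dx`: SYD gives `B` with `B.e = e`, S2D. -/
def S2eStmt : Prop := ∀ (ℓ : ℕ) [Fact ℓ.Prime] (M : Ideal (integralClosure ℤ ℂ)) [M.IsMaximal],
  (ℓ : integralClosure ℤ ℂ) ∈ M → 5 ≤ ℓ → ∀ (G : Type) [Group G] [Finite G] (e : G → FF M)
  (V : Subgroup G) (γ : G → FF M), Ld ℓ e V γ → (∀ v ∈ V, v ^ ℓ = 1) → Nat.card V = ℓ ^ 2 →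
  (∀ s ∈ Tg V γ, ∀ t ∈ Tg V γ, s * t * s⁻¹ * t⁻¹ ∈ Subgroup.centralizer (V : Set G)) →
  YY ℓ ⊤ e = 0

/-! ## 5. The final theorem -/

/-- the inertial quotient acts freely on `D/O_ℓ(G)` or it is abelian -/
def Fa (ℓ : ℕ) (M : Ideal (integralClosure ℤ ℂ)) {G : Type} [Group G] [Finite G] (D : Subgroup G)
    (th : Subgroup.centralizer (D : Set G) → ℂ) : Prop :=
  T8.Fd ℓ M D th ∨ ∀ s ∈ Iner M D th, ∀ t ∈ Iner M D th,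
    s * t * s⁻¹ * t⁻¹ ∈ Subgroup.centralizer (D : Set G)

/-- ARD: the reduction modulo `O_ℓ(G)`.

Proof.  As `SO.FrdStmt` (`Helper43_ASO/FRD.lean`), from `Helper24_AT8/FN8.lean`: `e` the block of `χ`,
`|G| altSum χ = |Z|² YY ℓ ⊤ (push p e)`, `γ'` from QT3.  Every `t' ∈ Tg V' γ'` acts on `V' = p(D)` as an element
`t ∈ Tg D γ` (QT3; `Tr` in FRD.lean), `Tg D γ = Iner M D th`; if the commutator of `s`, `t` centralises `D` then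
the commutator of `s'`, `t'` centralises `p(D)`. -/
def ArdStmt : Prop := ∀ (ℓ : ℕ) [Fact ℓ.Prime] (M : Ideal (integralClosure ℤ ℂ)) [M.IsMaximal],
  (ℓ : integralClosure ℤ ℂ) ∈ M → ∀ (G : Type) [Group G] [Finite G],
  opCore ℓ G ≤ Subgroup.center G → ∀ χ ∈ Irr G, ∀ D : Subgroup G, ML.IsDef ℓ M χ D →
  (∀ x ∈ D, ∀ y ∈ D, x * y = y * x) →
  ∀ th ∈ IrrBlock M (Subgroup.centralizer (D : Set G)).subtype χ,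
  (∀ s ∈ Iner M D th, ∀ t ∈ Iner M D th,
    s * t * s⁻¹ * t⁻¹ ∈ Subgroup.centralizer (D : Set G)) →
  ∀ (A : Type) [Group A] [Finite A] (p : G →* A), Function.Surjective p → p.ker = opCore ℓ G →
  Nat.card (D.map p) * Nat.card (opCore ℓ G) = Nat.card D ∧
  ∃ f γ' : A → FF M, Ld ℓ f (D.map p) γ' ∧
    (∀ s ∈ Tg (D.map p) γ', ∀ t ∈ Tg (D.map p) γ',
      s * t * s⁻¹ * t⁻¹ ∈ Subgroup.centralizer ((D.map p : Subgroup A) : Set A)) ∧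
    (Nat.card G : ℤ) * altSum ℓ M χ = (Nat.card (opCore ℓ G) : ℤ) ^ 2 * YY ℓ ⊤ f

/-- FAD: the final theorem.

Proof.  If `T8.Fd`: `SO.FnoStmt`.  Otherwise ARD for `p : G → G/O_ℓ(G)`; if `D.map p` has exponent `ℓ`: S2E;
otherwise it is cyclic of order `ℓ ^ 2`: `T5.t5a_` (`Helper11_AT5/Asm5.lean`), as in `SO.FnoStmt`. -/
def FadStmt : Prop := ∀ (ℓ : ℕ) [Fact ℓ.Prime] (M : Ideal (integralClosure ℤ ℂ)) [M.IsMaximal],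
  (ℓ : integralClosure ℤ ℂ) ∈ M → 5 ≤ ℓ → ∀ (G : Type) [Group G] [Finite G],
  opCore ℓ G ≤ Subgroup.center G → ∀ χ ∈ Irr G, ∀ D : Subgroup G, ML.IsDef ℓ M χ D →
  (∀ x ∈ D, ∀ y ∈ D, x * y = y * x) →
  Nat.card D = ℓ ^ 2 * Nat.card (opCore ℓ G) →
  ∀ th ∈ IrrBlock M (Subgroup.centralizer (D : Set G)).subtype χ, Fa ℓ M D th →
  altSum ℓ M χ = 0

end Pool.Agent.PP.SD
end
end -- Pool.Agent.ASD.Stmts8

section -- Pool.Agent.Helper43_ASO.S2A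

/-!
# Squad ASO, row S2A: the theorem for block idempotents
-/

open scoped BigOperators

noncomputable section

namespace Pool.Agent.PP.SO.H43

open Pool.Agent.Helper51_AWC Pool.Agent.Helper79_WRA Pool.Agent.PP Pool.Agent.PP.KF
open Pool.Agent.PP.K9 Pool.Agent.PP.K9.H97 Pool.Agent.PP.H75 Pool.Agent.PP.T3

attribute [local instance] Ideal.Quotient.field

/-- the number of ordinary characters modulo `ℓ ^ 2` -/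
theorem k2 (sye : SyeStmt) (k2b : K2bStmt) {ℓ : ℕ} [Fact ℓ.Prime]
    {M : Ideal (integralClosure ℤ ℂ)} [M.IsMaximal] (hM : (ℓ : integralClosure ℤ ℂ) ∈ M)
    (h5 : 5 ≤ ℓ) {V₀ G : Type} [CommGroup V₀] [Finite V₀] [Group G] [Finite G]
    {E₀ : Subgroup (MulAut V₀)} (hFr : Fr ℓ V₀ E₀) {e : G → FF M} {V : Subgroup G} {γ : G → FF M}
    (hL : Ld ℓ e V γ) {i : V₀ →* G} (hi : Function.Injective i) (hr : i.range = V)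
    (h1 : ∀ t ∈ Tg V γ, ∃ σ ∈ E₀, ∀ v, t * i v * t⁻¹ = i (σ v))
    (h2 : ∀ σ ∈ E₀, ∃ t ∈ Tg V γ, ∀ v, t * i v * t⁻¹ = i (σ v)) :
    ((ℓ ^ 2 : ℕ) : ℤ) ∣ ((IrrE M e).ncard : ℤ) - ((Irr (V₀ ⋊[E₀.subtype] E₀)).ncard : ℤ) := by
  subst hr
  obtain ⟨B, rfl, -, -, hB⟩ := sye ℓ M hM V₀ G E₀ hFr e γ i hi hL h1 h2
  exact k2b ℓ M hM h5 V₀ G E₀ hFr B hB

/-- S2A -/
theorem s2a (sye : SyeStmt) (k2b : K2bStmt) (kln : KlnStmt) (esy : EsyStmt) (nvt : T3.NvtStmt)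
    (lfr : T8.LfrStmt) (chv : K9.ChvStmt) : S2aStmt := by
  intro ℓ hℓ M _ hM h5 G _ _ e V γ hL hFr hexp hcd
  have hl2 : ℓ ≠ 2 := by omega
  have hp := hℓ.out
  obtain ⟨V₀, _, _, E₀, i, j, hFr0, ⟨hi, hir, hi1, hi2⟩, hj, hjr, hj1, hj2⟩ :=
    esy ℓ M hM G e V γ hL hFr hexp hcd
  obtain ⟨hLN, hix⟩ := nvt ℓ M hM G e V γ hL
  have hk1 := k2 sye k2b hM h5 hFr0 hL hi hir hi1 hi2
  have hk2 := k2 sye k2b hM h5 hFr0 hLN hj hjr hj1 hj2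
  have hVX : V ≤ Subgroup.normalizer (V : Set G) := Subgroup.le_normalizer
  have hCX := T3.H85.cent_le_norm V
  have hFrN : T8.Fr (V.subgroupOf (Subgroup.normalizer (V : Set G)))
      (fun t : Subgroup.normalizer (V : Set G) => γ t) := by
    intro t ht v hv hv1 hc
    rw [T3.H85.Tg_eq hVX hCX hL.gam.supp, Subgroup.mem_subgroupOf] at ht
    rw [cent_sub hVX]
    exact hFr t ht.1 v (Subgroup.mem_subgroupOf.1 hv) (fun h => hv1 (Subtype.ext h))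
      (congrArg Subtype.val hc)
  have hVne : V ≠ ⊥ := by
    rintro rfl
    rw [Subgroup.card_bot] at hcd
    have : 1 < ℓ ^ 2 := Nat.one_lt_pow two_ne_zero hp.one_lt
    omega
  have hcdN : Nat.card (V.subgroupOf (Subgroup.normalizer (V : Set G))) = ℓ ^ 2 := by
    rw [← hcd]
    exact Nat.card_congr (Subgroup.subgroupOfEquivOfLe hVX).toEquiv
  have hVneN : V.subgroupOf (Subgroup.normalizer (V : Set G)) ≠ ⊥ := by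
    intro h
    rw [h, Subgroup.card_bot] at hcdN
    have : 1 < ℓ ^ 2 := Nat.one_lt_pow two_ne_zero hp.one_lt
    omega
  have hn1 := kln ℓ M hM hl2 G e V γ hL hVne hFr
  have hn2 := kln ℓ M hM hl2 _ _ _ _ hLN hVneN hFrN
  have hb1 := lfr ℓ M hM hl2 G e V γ hL hVne hFr
  have hb2 := lfr ℓ M hM hl2 _ _ _ _ hLN hVneN hFrN
  have hc1 := (H3.lbd ℓ M hM G e hL.blk.1 hL.blk.2.1).1
  have hc2 := (H3.lbd ℓ M hM _ _ hLN.blk.1 hLN.blk.2.1).1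
  rw [hix] at hn2 hb2
  rw [hcd] at hn1
  rw [hcdN] at hn2
  have hchv := chv ℓ M hM G e hL.blk V hL.tp hcd
  obtain ⟨N, hN⟩ : ∃ N : ℕ, N = ln (fun t : Subgroup.normalizer (V : Set G) => br V e t) :=
    ⟨_, rfl⟩
  obtain ⟨K, hK⟩ : ∃ K : ℕ, K = (IrrE M
    (fun t : Subgroup.normalizer (V : Set G) => br V e t)).ncard := ⟨_, rfl⟩
  change YY ℓ ⊤ e = (Nat.card G : ℤ) * (ln e : ℤ) - (Nat.card G : ℤ) *
    (ln (fun t : Subgroup.normalizer (V : Set G) => br V e t) : ℤ) at hchv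
  change 1 ≤ ln e at hc1
  change 1 ≤ ln (fun t : Subgroup.normalizer (V : Set G) => br V e t) at hc2
  rw [← hN] at hchv hn2 hb2 hc2
  rw [← hK] at hn2 hk2
  -- the inertial index
  have hixp : 0 < ix V γ := Nat.pos_of_ne_zero (by
    unfold ix
    exact Subgroup.index_ne_zero_of_finite)
  have hl25 : 1 < ℓ ^ 2 := Nat.one_lt_pow two_ne_zero hp.one_lt
  have hixd : ix V γ ≤ ℓ ^ 2 - 1 := by
    refine Nat.le_of_dvd (by omega) ?_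
    have h1 : ix V γ ∣ ln e * ix V γ + (ℓ ^ 2 - 1) := ⟨_, (hn1.symm.trans (mul_comm _ _))⟩
    exact (Nat.dvd_add_right (Dvd.intro_left _ rfl)).1 h1
  -- the differences
  have e1 : (((IrrE M e).ncard : ℤ) - K) * ix V γ = ((ln e : ℤ) - N) * ix V γ := by
    have h1 : ((IrrE M e).ncard : ℤ) * ix V γ = ln e * ix V γ + (ℓ ^ 2 - 1 : ℕ) := by
      exact_mod_cast hn1
    have h2 : (K : ℤ) * ix V γ = N * ix V γ + (ℓ ^ 2 - 1 : ℕ) := by exact_mod_cast hn2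
    linear_combination h1 - h2
  have e2 : ((IrrE M e).ncard : ℤ) - K = (ln e : ℤ) - N :=
    mul_right_cancel₀ (by exact_mod_cast hixp.ne') e1
  have e3 : ((ℓ ^ 2 : ℕ) : ℤ) ∣ (ln e : ℤ) - N := by
    rw [← e2]
    have := dvd_sub hk1 hk2
    rwa [sub_sub_sub_cancel_right] at this
  have e4 : (ln e : ℤ) - N = 0 := by
    refine Int.eq_zero_of_abs_lt_dvd e3 ?_
    rw [abs_lt]
    constructor
    · have : ((ℓ ^ 2 : ℕ) : ℤ) > 0 := by exact_mod_cast (by omega : 0 < ℓ ^ 2)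
      have h6 : (N : ℤ) ≤ ((ℓ ^ 2 - 1 : ℕ) : ℤ) := by exact_mod_cast hb2.trans hixd
      have h7 : ((ℓ ^ 2 - 1 : ℕ) : ℤ) = ((ℓ ^ 2 : ℕ) : ℤ) - 1 := by
        rw [Nat.cast_sub (by omega), Nat.cast_one]
      have h8 : (1 : ℤ) ≤ ln e := by exact_mod_cast hc1
      linarith
    · have h6 : (ln e : ℤ) ≤ ((ℓ ^ 2 - 1 : ℕ) : ℤ) := by exact_mod_cast hb1.trans hixd
      have h7 : ((ℓ ^ 2 - 1 : ℕ) : ℤ) = ((ℓ ^ 2 : ℕ) : ℤ) - 1 := by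
        rw [Nat.cast_sub (by omega), Nat.cast_one]
      have h8 : (1 : ℤ) ≤ N := by exact_mod_cast hc2
      linarith
  rw [hchv, ← mul_sub, e4, mul_zero]

end Pool.Agent.PP.SO.H43
end
end -- Pool.Agent.Helper43_ASO.S2A

section -- Pool.Agent.Helper91_ASD.LNN

/-!
# Squad ASD, row LNN: the block of the normaliser of the defect group
-/

open scoped BigOperators

noncomputable section

namespace Pool.Agent.PP.SD.H91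

open Pool.Agent.Helper51_AWC Pool.Agent.Helper79_WRA Pool.Agent.PP Pool.Agent.PP.KF
open Pool.Agent.PP.K9 Pool.Agent.PP.K9.H97 Pool.Agent.PP.H75 Pool.Agent.PP.T3 Pool.Agent.PP.SO

attribute [local instance] Ideal.Quotient.field

section gen

variable {G : Type} [Group G]

theorem cen_le_nor (V : Subgroup G) :
    Subgroup.centralizer (V : Set G) ≤ Subgroup.normalizer (V : Set G) := by
  intro x hx
  rw [Subgroup.mem_normalizer_iff]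
  intro h
  have key : ∀ y ∈ V, x * y * x⁻¹ = y := by
    intro y hy
    have := Subgroup.mem_centralizer_iff.1 hx y hy
    rw [← this, mul_inv_cancel_right]
  constructor
  · intro hh
    change x * h * x⁻¹ ∈ V
    rw [key h hh]
    exact hh
  · intro hh
    have hh' : x * h * x⁻¹ ∈ V := hh
    have h1 := key _ hh'
    have h2 : x * h * x⁻¹ = h := by
      have h3 : x * (x * h * x⁻¹) * x⁻¹ = x * h * x⁻¹ := h1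
      have h4 := mul_right_cancel h3
      exact mul_left_cancel h4
    change h ∈ V
    rw [← h2]
    exact hh'

theorem mem_cen_sub (V : Subgroup G) (t : Subgroup.normalizer (V : Set G)) :
    t ∈ Subgroup.centralizer
      ((V.subgroupOf (Subgroup.normalizer (V : Set G)) :
        Subgroup (Subgroup.normalizer (V : Set G))) : Set (Subgroup.normalizer (V : Set G))) ↔
    (t : G) ∈ Subgroup.centralizer (V : Set G) := by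
  rw [Subgroup.mem_centralizer_iff, Subgroup.mem_centralizer_iff]
  constructor
  · intro h y hy
    have hy' : y ∈ Subgroup.normalizer (V : Set G) := Subgroup.le_normalizer hy
    have := h ⟨y, hy'⟩ (Subgroup.mem_subgroupOf.2 hy)
    exact congrArg Subtype.val this
  · intro h y hy
    apply Subtype.ext
    exact h y (Subgroup.mem_subgroupOf.1 hy)

theorem cen_sub_normal (V : Subgroup G) : (Subgroup.centralizer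
      ((V.subgroupOf (Subgroup.normalizer (V : Set G)) :
        Subgroup (Subgroup.normalizer (V : Set G))) :
          Set (Subgroup.normalizer (V : Set G)))).Normal := by
  constructor
  intro c hc g
  rw [Subgroup.mem_centralizer_iff] at hc ⊢
  intro y hy
  have hn : (V.subgroupOf (Subgroup.normalizer (V : Set G))).Normal :=
    Subgroup.normal_in_normalizer
  have h1 : g⁻¹ * y * g ∈ V.subgroupOf (Subgroup.normalizer (V : Set G)) := by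
    have := hn.conj_mem y hy g⁻¹
    rwa [inv_inv] at this
  have h2 := hc _ h1
  calc y * (g * c * g⁻¹) = g * ((g⁻¹ * y * g) * c) * g⁻¹ := by group
    _ = g * (c * (g⁻¹ * y * g)) * g⁻¹ := by rw [h2]
    _ = g * c * g⁻¹ * y := by group

variable {F : Type} [Field F]

/-- the stabiliser in the normaliser and the inertial group -/
def stTg (V : Subgroup G) (γ : G → F)
    (h : ∀ x, x ∉ Subgroup.centralizer (V : Set G) → γ x = 0)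
    [Finite (Subgroup.normalizer (V : Set G))] :
    st (fun t : Subgroup.normalizer (V : Set G) => γ t) ≃* Tg V γ where
  toFun x := ⟨x.1.1, x.1.2, by
    have hx := (cj_eq_iff x.1 (fun t : Subgroup.normalizer (V : Set G) => γ t)).1 x.2
    intro y
    by_cases hy : y ∈ Subgroup.normalizer (V : Set G)
    · exact hx ⟨y, hy⟩
    · rw [h y (fun hc => hy (cen_le_nor V hc))]
      apply h
      intro hc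
      apply hy
      have h1 := cen_le_nor V hc
      have h2 := Subgroup.mul_mem _ (Subgroup.mul_mem _ (Subgroup.inv_mem _ x.1.2) h1) x.1.2
      have h3 : (x.1.1)⁻¹ * (x.1.1 * y * (x.1.1)⁻¹) * x.1.1 = y := by group
      rwa [h3] at h2⟩
  invFun x := ⟨⟨x.1, x.2.1⟩, by
    refine (cj_eq_iff _ (fun t : Subgroup.normalizer (V : Set G) => γ t)).2 ?_
    intro y
    exact x.2.2 y.1⟩
  left_inv x := rfl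
  right_inv x := rfl
  map_mul' x y := rfl

end gen

theorem lnn (lnt : LntStmt) (nvt : T3.NvtStmt) : LnnStmt := by
  intro ℓ _ M _ hM V₀ G _ _ _ _ E₀ B hB
  have hF : GoodF ℓ (FF M) := H50.fld ℓ Fact.out M hM
  have hN := (nvt ℓ M hM G B.e B.i.range B.g hB.ld).1
  have hf : br (B.i.range.subgroupOf (Subgroup.normalizer (B.i.range : Set G)))
      (fun t : Subgroup.normalizer (B.i.range : Set G) => br B.i.range B.e t) =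
      fun t : Subgroup.normalizer (B.i.range : Set G) => br B.i.range B.e t := by
    funext t
    unfold br
    by_cases ht : (t : G) ∈ Subgroup.centralizer (B.i.range : Set G)
    · rw [if_pos ((mem_cen_sub B.i.range t).2 ht)]
    · rw [if_neg (fun h => ht ((mem_cen_sub B.i.range t).1 h)), if_neg ht]
  have hu := hN.und
  rw [hf] at hu
  have h1 := lnt ℓ (FF M) hF (Subgroup.normalizer (B.i.range : Set G)) _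
    (cen_sub_normal B.i.range) _ hN.blk _ hN.gam hu
  rw [h1]
  exact cnt_equiv (stTg B.i.range B.g hB.ld.gam.supp) (fun t : Tg B.i.range B.g => B.g t)

end Pool.Agent.PP.SD.H91
end
end -- Pool.Agent.Helper91_ASD.LNN
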