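import Pool.Agent.Helper12_AWB.B063
import Pool.Agent.Helper12_AWB.B127
import Pool.Agent.Helper12_AWB.B141
import Pool.Agent.Helper12_AWB.B178
import Pool.Agent.Helper12_AWB.B179

/-!
# Merged copies (generated) of the modules

* `Pool.Agent.Helper62_AT8.FGR`
* `Pool.Agent.Helper14_AT3.RIN`
* `Pool.Agent.Helper72_AT8.FNI`
* `Pool.Agent.Helper86_AT3.CEN`
* `Pool.Agent.Helper87_AT8.KNZ`
* `Pool.Agent.Helper49_AT3.PRM`
* `Pool.Agent.Helper72_AT3.ARI`
* `Pool.Agent.Helper89_AT3.CYC`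
* `Pool.Agent.Helper8_PFC.LPB`
-/

set_option autoImplicit false

section -- Pool.Agent.Helper62_AT8.FGR

/-!
# Squad AT8, row FGR: the Gram matrix of the vectors `cl`
-/

open scoped BigOperators

set_option linter.unusedSectionVars false

noncomputable section

namespace Pool.Agent.PP.T8.H62

open Pool.Agent.Helper51_AWC Pool.Agent.Helper79_WRA Pool.Agent.PP Pool.Agent.PP.KF
open Pool.Agent.PP.K9 Pool.Agent.PP.K9.H97 Pool.Agent.PP.H75 Pool.Agent.PP.T3 Pool.Agent.PP.T2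

attribute [local instance] Ideal.Quotient.field

section abs

theorem char_inv {A : Type} [Group A] (lam : A →* ℂ) (a : A) : lam a⁻¹ * lam a = 1 := by
  rw [← map_mul, inv_mul_cancel, map_one]

theorem char_star {A : Type} [Group A] [Finite A] (lam : A →* ℂ) (a : A) :
    starRingEnd ℂ (lam a⁻¹) = lam a := by
  have h1 : (lam a⁻¹) ^ Nat.card A = 1 := by
    rw [← map_pow, pow_card_eq_one', map_one]
  have h2 : ‖lam a⁻¹‖ = 1 := Complex.norm_eq_one_of_pow_eq_one h1 Nat.card_pos.ne'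
  have h3 : starRingEnd ℂ (lam a⁻¹) = (lam a⁻¹)⁻¹ := (Complex.inv_eq_conj h2).symm
  rw [h3]
  exact inv_eq_of_mul_eq_one_right (char_inv lam a)

theorem sum_mf {A : Type} [Group A] [Fintype A] (κ : A → ℂ) (hκ : ∀ u a, κ (u * a) = κ u * κ a)
    (h : ∃ a, κ a ≠ 1) : ∑ u, κ u = 0 := by
  obtain ⟨a, ha⟩ := h
  have h1 : ∑ u, κ u = (∑ u, κ u) * κ a := by
    rw [Finset.sum_mul]
    calc ∑ u, κ u = ∑ u, κ (u * a) :=
          (Fintype.sum_equiv (Equiv.mulRight a) _ _ fun _ => rfl).symm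
      _ = _ := Finset.sum_congr rfl fun u _ => hκ u a
  have h2 : (∑ u, κ u) * (κ a - 1) = 0 := by
    rw [mul_sub, mul_one, ← h1, sub_self]
  rcases mul_eq_zero.1 h2 with h | h
  · exact h
  · exact absurd (sub_eq_zero.1 h) ha

variable {G : Type} [Group G]

/-- the sum over `u` for one element `t` -/
theorem at_sum (V : Subgroup G) [Fintype V] (hab : ∀ a ∈ V, ∀ b ∈ V, a * b = b * a) (t : G)
    (ht : ∀ v ∈ V, t * v * t⁻¹ ∈ V) (ht' : ∀ v ∈ V, t⁻¹ * v * t ∈ V) (lam mu : V →* ℂ)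
    (hl : ∃ v, lam v ≠ 1) (hm : ∃ v, mu v ≠ 1) [Decidable (Tc V t mu lam)] :
    ∑ u : V, (lam u⁻¹ - 1) * (mu ⟨t * u * t⁻¹, ht u u.2⟩ - 1) =
      Nat.card V * (1 + if Tc V t mu lam then 1 else 0) := by
  have hcm : ∀ u a : V, (u * a)⁻¹ = u⁻¹ * a⁻¹ := by
    intro u a
    rw [mul_inv_rev]
    exact Subtype.ext (hab _ (a⁻¹).2 _ (u⁻¹).2)
  have hct : ∀ u a : V, (⟨t * ((u * a : V) : G) * t⁻¹, ht _ (u * a).2⟩ : V) =
      ⟨t * u * t⁻¹, ht u u.2⟩ * ⟨t * a * t⁻¹, ht a a.2⟩ := by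
    intro u a
    apply Subtype.ext
    change t * ((u : G) * a) * t⁻¹ = t * u * t⁻¹ * (t * a * t⁻¹)
    group
  have h1 : ∑ u : V, lam u⁻¹ = 0 := by
    refine sum_mf (fun u => lam u⁻¹) (fun u a => ?_) ?_
    · change lam (u * a)⁻¹ = lam u⁻¹ * lam a⁻¹
      rw [hcm, map_mul]
    · obtain ⟨v, hv⟩ := hl
      refine ⟨v⁻¹, ?_⟩
      rwa [inv_inv]
  have h2 : ∑ u : V, mu ⟨t * u * t⁻¹, ht u u.2⟩ = 0 := by
    refine sum_mf (fun u : V => mu ⟨t * u * t⁻¹, ht u u.2⟩) (fun u a => ?_) ?_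
    · change mu ⟨t * ((u * a : V) : G) * t⁻¹, ht _ (u * a).2⟩ = _
      rw [hct, map_mul]
    · obtain ⟨v, hv⟩ := hm
      refine ⟨⟨t⁻¹ * v * t, ht' v v.2⟩, ?_⟩
      change mu ⟨t * (t⁻¹ * v * t) * t⁻¹, _⟩ ≠ 1
      have h3 : (⟨t * (t⁻¹ * v * t) * t⁻¹, ht _ (ht' v v.2)⟩ : V) = v := by
        apply Subtype.ext
        change t * (t⁻¹ * v * t) * t⁻¹ = v
        group
      rwa [h3]
  have h3 : ∑ u : V, lam u⁻¹ * mu ⟨t * u * t⁻¹, ht u u.2⟩ =
      Nat.card V * if Tc V t mu lam then 1 else 0 := by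
    by_cases hT : Tc V t mu lam
    · rw [if_pos hT, mul_one]
      have h4 : ∀ u : V, lam u⁻¹ * mu ⟨t * u * t⁻¹, ht u u.2⟩ = 1 := by
        intro u
        rw [← hT u ⟨t * u * t⁻¹, ht u u.2⟩ rfl, char_inv]
      rw [Finset.sum_congr rfl fun u _ => h4 u, Finset.sum_const, Finset.card_univ, nsmul_eq_mul,
        mul_one, Nat.card_eq_fintype_card]
    · rw [if_neg hT, mul_zero]
      refine sum_mf (fun u : V => lam u⁻¹ * mu ⟨t * u * t⁻¹, ht u u.2⟩) (fun u a => ?_) ?_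
      · change lam (u * a)⁻¹ * mu ⟨t * ((u * a : V) : G) * t⁻¹, ht _ (u * a).2⟩ = _
        rw [hct, hcm, map_mul, map_mul]
        ring
      · by_contra hcon
        apply hT
        intro v w hw
        have h4 : lam v⁻¹ * mu ⟨t * v * t⁻¹, ht v v.2⟩ = 1 := by
          by_contra h5
          exact hcon ⟨v, h5⟩
        have h5 : w = ⟨t * v * t⁻¹, ht v v.2⟩ := Subtype.ext hw
        rw [← h5] at h4
        have h6 := char_inv lam v
        have h7 : lam v⁻¹ ≠ 0 := left_ne_zero_of_mul_eq_one h6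
        exact mul_left_cancel₀ h7 (h6.trans h4.symm)
  have h4 : ∀ u : V, (lam u⁻¹ - 1) * (mu ⟨t * u * t⁻¹, ht u u.2⟩ - 1) =
      lam u⁻¹ * mu ⟨t * u * t⁻¹, ht u u.2⟩ - lam u⁻¹ - mu ⟨t * u * t⁻¹, ht u u.2⟩ + 1 := by
    intro u
    ring
  rw [Finset.sum_congr rfl fun u _ => h4 u, Finset.sum_add_distrib, Finset.sum_sub_distrib,
    Finset.sum_sub_distrib, h1, h2, h3, Finset.sum_const, Finset.card_univ, nsmul_eq_mul,
    Nat.card_eq_fintype_card]
  ring

variable [Finite G]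

/-- the elements `t` of `T` with `t u t⁻¹ = u'` -/
theorem count (V T : Subgroup G) [Fintype T]
    (hfr : ∀ t ∈ T, ∀ v ∈ V, v ≠ 1 → t * v = v * t → t ∈ Subgroup.centralizer (V : Set G))
    {u u' : G} (hu : u ∈ V) (hu1 : u ≠ 1) (h : ∃ t ∈ T, t * u * t⁻¹ = u')
    [DecidablePred fun t : T => (t : G) * u * (t : G)⁻¹ = u'] :
    (Finset.univ.filter fun t : T => (t : G) * u * (t : G)⁻¹ = u').card =
      Nat.card ((Subgroup.centralizer (V : Set G)).subgroupOf T) := by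
  classical
  obtain ⟨t₀, ht₀, h0⟩ := h
  have := Fintype.ofFinite ((Subgroup.centralizer (V : Set G)).subgroupOf T)
  rw [Nat.card_eq_fintype_card, ← Finset.card_univ]
  symm
  refine Finset.card_bij (fun (c : (Subgroup.centralizer (V : Set G)).subgroupOf T) _ =>
    (⟨t₀, ht₀⟩ : T) * c.1) ?_ ?_ ?_
  · intro c _
    rw [Finset.mem_filter]
    refine ⟨Finset.mem_univ _, ?_⟩
    have h1 : ((c.1 : T) : G) ∈ Subgroup.centralizer (V : Set G) := c.2
    have h2 := Subgroup.mem_centralizer_iff.1 h1 u hu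
    change t₀ * ((c.1 : T) : G) * u * (t₀ * ((c.1 : T) : G))⁻¹ = u'
    rw [← h0, mul_assoc t₀, ← h2, mul_inv_rev]
    group
  · intro c _ c' _ hcc
    exact Subtype.ext (mul_left_cancel hcc)
  · intro t ht
    rw [Finset.mem_filter] at ht
    have h1 := ht.2
    have h2 : t₀⁻¹ * (t : G) * u = u * (t₀⁻¹ * t) := by
      have h3 : t₀ * u * t₀⁻¹ = (t : G) * u * (t : G)⁻¹ := h0.trans h1.symm
      calc t₀⁻¹ * (t : G) * u = t₀⁻¹ * ((t : G) * u * (t : G)⁻¹) * t := by group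
        _ = t₀⁻¹ * (t₀ * u * t₀⁻¹) * t := by rw [h3]
        _ = u * (t₀⁻¹ * t) := by group
    have h3 : t₀⁻¹ * (t : G) ∈ T := T.mul_mem (T.inv_mem ht₀) t.2
    have h4 := hfr _ h3 u hu hu1 h2
    refine ⟨⟨(⟨t₀, ht₀⟩ : T)⁻¹ * t, h4⟩, Finset.mem_univ _, ?_⟩
    exact mul_inv_cancel_left _ _

/-- the Gram matrix, times the order of `C(V)` in `T` -/
theorem gram (V T : Subgroup G) [Fintype V] [Fintype T]
    (hTV : ∀ t ∈ T, ∀ v ∈ V, t * v * t⁻¹ ∈ V) (hab : ∀ a ∈ V, ∀ b ∈ V, a * b = b * a)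
    (hfr : ∀ t ∈ T, ∀ v ∈ V, v ≠ 1 → t * v = v * t → t ∈ Subgroup.centralizer (V : Set G))
    {κ : Type} (K : Finset κ) (w : G → κ → ℂ)
    (hw1 : ∀ u ∈ V, ∀ u' ∈ V, u ≠ 1 → u' ≠ 1 → (∃ t ∈ T, t * u * t⁻¹ = u') →
      ∑ χ ∈ K, w u χ * starRingEnd ℂ (w u' χ) = Nat.card V)
    (hw2 : ∀ u ∈ V, ∀ u' ∈ V, u ≠ 1 → u' ≠ 1 → (¬ ∃ t ∈ T, t * u * t⁻¹ = u') →
      ∑ χ ∈ K, w u χ * starRingEnd ℂ (w u' χ) = 0)
    (lam mu : V →* ℂ) (hl : ∃ v, lam v ≠ 1) (hm : ∃ v, mu v ≠ 1)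
    [DecidablePred fun t : T => Tc V (t : G) mu lam] :
    (Nat.card ((Subgroup.centralizer (V : Set G)).subgroupOf T) : ℂ) *
      ∑ χ ∈ K, ((Nat.card V : ℂ)⁻¹ * ∑ v : V, w v χ * (lam v⁻¹ - 1)) *
        starRingEnd ℂ ((Nat.card V : ℂ)⁻¹ * ∑ v : V, w v χ * (mu v⁻¹ - 1)) =
      Nat.card T + (Finset.univ.filter fun t : T => Tc V (t : G) mu lam).card := by
  classical
  have hV0 : (Nat.card V : ℂ) ≠ 0 := Nat.cast_ne_zero.2 Nat.card_pos.ne'
  set n : ℂ := (Nat.card V : ℂ) with hn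
  set c₀ : ℂ := (Nat.card ((Subgroup.centralizer (V : Set G)).subgroupOf T) : ℂ) with hc₀
  -- the sum over the characters
  have e1 : ∑ χ ∈ K, (n⁻¹ * ∑ v : V, w v χ * (lam v⁻¹ - 1)) *
        starRingEnd ℂ (n⁻¹ * ∑ v : V, w v χ * (mu v⁻¹ - 1)) =
      n⁻¹ * n⁻¹ * ∑ u : V, ∑ u' : V, (lam u⁻¹ - 1) * (mu u' - 1) *
        ∑ χ ∈ K, w u χ * starRingEnd ℂ (w u' χ) := by
    have hnc : starRingEnd ℂ n⁻¹ = n⁻¹ := by
      rw [map_inv₀, hn, Complex.conj_natCast]
    have e2 : ∀ χ ∈ K, (n⁻¹ * ∑ v : V, w v χ * (lam v⁻¹ - 1)) *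
        starRingEnd ℂ (n⁻¹ * ∑ v : V, w v χ * (mu v⁻¹ - 1)) =
      n⁻¹ * n⁻¹ * ∑ u : V, ∑ u' : V, (lam u⁻¹ - 1) * (mu u' - 1) *
        (w u χ * starRingEnd ℂ (w u' χ)) := by
      intro χ _
      rw [map_mul, hnc, map_sum]
      have e3 : ∀ v : V, starRingEnd ℂ (w v χ * (mu v⁻¹ - 1)) =
          starRingEnd ℂ (w v χ) * (mu v - 1) := by
        intro v
        rw [map_mul, map_sub, map_one, char_star]
      rw [Finset.sum_congr rfl fun v _ => e3 v]
      have e4 : (n⁻¹ * ∑ v : V, w v χ * (lam v⁻¹ - 1)) *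
          (n⁻¹ * ∑ v : V, starRingEnd ℂ (w v χ) * (mu v - 1)) =
          n⁻¹ * n⁻¹ * ((∑ v : V, w v χ * (lam v⁻¹ - 1)) *
            ∑ v : V, starRingEnd ℂ (w v χ) * (mu v - 1)) := by ring
      rw [e4, Finset.sum_mul_sum]
      congr 1
      refine Finset.sum_congr rfl fun u _ => Finset.sum_congr rfl fun u' _ => ?_
      ring
    rw [Finset.sum_congr rfl e2, ← Finset.mul_sum]
    congr 1
    rw [Finset.sum_comm]
    refine Finset.sum_congr rfl fun u _ => ?_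
    rw [Finset.sum_comm]
    refine Finset.sum_congr rfl fun u' _ => ?_
    rw [Finset.mul_sum]
  -- the orbits
  have e5 : ∀ u u' : V, c₀ * ((lam u⁻¹ - 1) * (mu u' - 1) *
        ∑ χ ∈ K, w u χ * starRingEnd ℂ (w u' χ)) =
      n * ∑ t : T, if (t : G) * u * (t : G)⁻¹ = u' then (lam u⁻¹ - 1) * (mu u' - 1) else 0 := by
    intro u u'
    by_cases hu : u = 1
    · have h1 : lam u⁻¹ - 1 = 0 := by
        rw [hu, inv_one, map_one, sub_self]
      rw [h1]
      simp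
    by_cases hu' : u' = 1
    · have h1 : mu u' - 1 = 0 := by
        rw [hu', map_one, sub_self]
      rw [h1]
      simp
    have hu1 : (u : G) ≠ 1 := fun h => hu (Subtype.ext h)
    have hu1' : (u' : G) ≠ 1 := fun h => hu' (Subtype.ext h)
    rw [← Finset.sum_filter, Finset.sum_const, nsmul_eq_mul]
    by_cases hex : ∃ t ∈ T, t * (u : G) * t⁻¹ = u'
    · rw [hw1 u u.2 u' u'.2 hu1 hu1' hex, count V T hfr u.2 hu1 hex]
      ring
    · rw [hw2 u u.2 u' u'.2 hu1 hu1' hex]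
      have h1 : (Finset.univ.filter fun t : T => (t : G) * u * (t : G)⁻¹ = u') = ∅ := by
        rw [Finset.filter_eq_empty_iff]
        intro t _ h2
        exact hex ⟨t, t.2, h2⟩
      rw [h1, Finset.card_empty, Nat.cast_zero]
      ring
  have e6 : c₀ * ∑ u : V, ∑ u' : V, (lam u⁻¹ - 1) * (mu u' - 1) *
        ∑ χ ∈ K, w u χ * starRingEnd ℂ (w u' χ) =
      n * ∑ t : T, ∑ u : V, (lam u⁻¹ - 1) * (mu ⟨t * u * (t : G)⁻¹, hTV t t.2 u u.2⟩ - 1) := by
    rw [Finset.mul_sum]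
    simp only [Finset.mul_sum]
    rw [Finset.sum_comm (s := (Finset.univ : Finset T))]
    refine Finset.sum_congr rfl fun u _ => ?_
    have e7 : ∀ u' : V, c₀ * ((lam u⁻¹ - 1) * (mu u' - 1) *
        ∑ χ ∈ K, w u χ * starRingEnd ℂ (w u' χ)) =
      ∑ t : T, n * if (t : G) * u * (t : G)⁻¹ = u' then (lam u⁻¹ - 1) * (mu u' - 1) else 0 := by
      intro u'
      rw [e5, Finset.mul_sum]
    have e8 : ∀ u' : V, ∑ χ ∈ K, c₀ * ((lam u⁻¹ - 1) * (mu u' - 1) *
        (w u χ * starRingEnd ℂ (w u' χ))) =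
      ∑ t : T, n * if (t : G) * u * (t : G)⁻¹ = u' then (lam u⁻¹ - 1) * (mu u' - 1) else 0 := by
      intro u'
      rw [← e7, Finset.mul_sum, Finset.mul_sum]
    rw [Finset.sum_congr rfl fun u' _ => e8 u', Finset.sum_comm]
    refine Finset.sum_congr rfl fun t _ => ?_
    rw [Finset.sum_eq_single (⟨t * u * (t : G)⁻¹, hTV t t.2 u u.2⟩ : V)]
    · rw [if_pos rfl]
    · intro v _ hv
      rw [if_neg, mul_zero]
      intro h
      exact hv (Subtype.ext h.symm)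
    · intro h
      exact absurd (Finset.mem_univ _) h
  have e9 : ∀ t : T, ∑ u : V, (lam u⁻¹ - 1) *
      (mu ⟨t * u * (t : G)⁻¹, hTV t t.2 u u.2⟩ - 1) =
      n * (1 + if Tc V (t : G) mu lam then 1 else 0) := by
    intro t
    refine at_sum V hab t (hTV t t.2) (fun v hv => ?_) lam mu hl hm
    have h1 := hTV _ (T.inv_mem t.2) v hv
    rwa [inv_inv] at h1
  rw [e1]
  have e10 : c₀ * (n⁻¹ * n⁻¹ * ∑ u : V, ∑ u' : V, (lam u⁻¹ - 1) * (mu u' - 1) *
        ∑ χ ∈ K, w u χ * starRingEnd ℂ (w u' χ)) =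
      n⁻¹ * n⁻¹ * (c₀ * ∑ u : V, ∑ u' : V, (lam u⁻¹ - 1) * (mu u' - 1) *
        ∑ χ ∈ K, w u χ * starRingEnd ℂ (w u' χ)) := by ring
  rw [e10, e6, Finset.sum_congr rfl fun t _ => e9 t, ← Finset.mul_sum, Finset.sum_add_distrib,
    Finset.sum_const, Finset.card_univ, nsmul_eq_mul, mul_one, ← Finset.sum_filter,
    Finset.sum_const, nsmul_eq_mul, mul_one, Nat.card_eq_fintype_card]
  field_simp

end abs

theorem fgr (hdor : DorStmt) (hdpw : DpwStmt) : FgrStmt := by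
  intro ℓ _ M _ hM hℓ2 G _ _ e V γ b d c ε hD hF lam mu hl hm
  classical
  have := Fintype.ofFinite V
  have := Fintype.ofFinite (Tg V γ)
  have hfin : (Irr G).Finite := by
    have := Fintype.ofFinite G
    exact irr_finite'
  have hab : ∀ a ∈ V, ∀ b ∈ V, a * b = b * a := hD.ld.ab
  have hTV : ∀ t ∈ Tg V γ, ∀ v ∈ V, t * v * t⁻¹ ∈ V := fun t ht v hv =>
    (Subgroup.mem_normalizer_iff.1 ht.1 v).1 hv
  have hreg : ∀ u ∈ V, u ≠ 1 → Rg V γ u := by
    intro u hu hu1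
    refine ⟨hu, hu1, ?_⟩
    rintro t ⟨ht, htu⟩
    refine hF t ht u hu hu1 ?_
    exact Subgroup.mem_centralizer_singleton_iff.1 htu
  have hdp := (hdpw ℓ M hM hℓ2 G e V γ b d c ε hD).1
  set w : G → (G → ℂ) → ℂ := fun u χ => (ε u : ℂ) * vv M b d u χ with hw
  have hww : ∀ u u' : G, ∑ χ ∈ hfin.toFinset, w u χ * starRingEnd ℂ (w u' χ) =
      (ε u : ℂ) * (ε u' : ℂ) * ∑ᶠ χ ∈ Irr G, vv M b d u χ * starRingEnd ℂ (vv M b d u' χ) := by
    intro u u'
    rw [finsum_mem_eq_finite_toFinset_sum _ hfin, Finset.mul_sum]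
    refine Finset.sum_congr rfl fun χ _ => ?_
    simp only [hw, map_mul, map_intCast]
    ring
  have hinv : ∀ u u' : G, (∃ t ∈ Tg V γ, t * u * t⁻¹ = u') ↔ ∃ t ∈ Tg V γ, t * u' * t⁻¹ = u := by
    intro u u'
    constructor
    · rintro ⟨t, ht, rfl⟩
      exact ⟨t⁻¹, inv_mem ht, by group⟩
    · rintro ⟨t, ht, rfl⟩
      exact ⟨t⁻¹, inv_mem ht, by group⟩
  have hw1 : ∀ u ∈ V, ∀ u' ∈ V, u ≠ 1 → u' ≠ 1 → (∃ t ∈ Tg V γ, t * u * t⁻¹ = u') →
      ∑ χ ∈ hfin.toFinset, w u χ * starRingEnd ℂ (w u' χ) = Nat.card V := by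
    intro u hu u' hu' hu1 hu1' hex
    have h1 := (hdor ℓ M hM G e V γ b d c ε hD u u' (hreg u hu hu1) (hreg u' hu' hu1')).1
      ((hinv u u').1 hex)
    rw [hww, h1]
    obtain ⟨t, ht, rfl⟩ := hex
    rw [(hdp t ht u (hreg u hu hu1)).2.1]
    rcases hD.sg u (hreg u hu hu1) with h | h <;> rw [h] <;> norm_num
  have hw2 : ∀ u ∈ V, ∀ u' ∈ V, u ≠ 1 → u' ≠ 1 → (¬ ∃ t ∈ Tg V γ, t * u * t⁻¹ = u') →
      ∑ χ ∈ hfin.toFinset, w u χ * starRingEnd ℂ (w u' χ) = 0 := by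
    intro u hu u' hu' hu1 hu1' hex
    have h1 := (hdor ℓ M hM G e V γ b d c ε hD u u' (hreg u hu hu1) (hreg u' hu' hu1')).2
      (fun h => hex ((hinv u u').2 h))
    rw [hww, h1, mul_zero]
  have key := gram V (Tg V γ) hTV hab hF hfin.toFinset w hw1 hw2 lam mu hl hm
  have hcl : ∑ᶠ χ ∈ Irr G, cl M V b d ε lam χ * starRingEnd ℂ (cl M V b d ε mu χ) =
      ∑ χ ∈ hfin.toFinset, ((Nat.card V : ℂ)⁻¹ * ∑ v : V, w v χ * (lam v⁻¹ - 1)) *
        starRingEnd ℂ ((Nat.card V : ℂ)⁻¹ * ∑ v : V, w v χ * (mu v⁻¹ - 1)) := by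
    rw [finsum_mem_eq_finite_toFinset_sum _ hfin]
    refine Finset.sum_congr rfl fun χ _ => ?_
    simp only [cl, finsum_eq_sum_of_fintype, hw]
  rw [← hcl] at key
  set C₀ : Subgroup (Tg V γ) := (Subgroup.centralizer (V : Set G)).subgroupOf (Tg V γ) with hC₀
  have hcard : Nat.card C₀ * ix V γ = Nat.card (Tg V γ) := Subgroup.card_mul_index C₀
  have hc0 : (Nat.card C₀ : ℂ) ≠ 0 := Nat.cast_ne_zero.2 Nat.card_pos.ne'
  rw [← hcard, Nat.cast_mul] at key
  constructor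
  · rintro rfl
    have h1 : (Finset.univ.filter fun t : Tg V γ => Tc V (t : G) lam lam).card =
        Nat.card C₀ := by
      rw [Nat.card_eq_fintype_card]
      rw [Fintype.card_subtype]
      congr 1
      ext t
      rw [Finset.mem_filter, Finset.mem_filter]
      simp only [Finset.mem_univ, true_and]
      constructor
      · intro hT
        by_contra hcon
        have hcon' : (t : G) ∉ Subgroup.centralizer (V : Set G) := hcon
        -- the injective map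
        set φ : V → V := fun u => ⟨(t : G) * u * (t : G)⁻¹ * (u : G)⁻¹,
          mul_mem (hTV t t.2 u u.2) (inv_mem u.2)⟩ with hφ
        have hinj : Function.Injective φ := by
          intro u u' huu
          by_contra hne
          apply hcon'
          have h2 : (t : G) * u * (t : G)⁻¹ * (u : G)⁻¹ =
              (t : G) * u' * (t : G)⁻¹ * (u' : G)⁻¹ := congrArg Subtype.val huu
          refine hF t t.2 ((u' : G)⁻¹ * u) (mul_mem (inv_mem u'.2) u.2) ?_ ?_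
          · intro h3
            apply hne
            apply Subtype.ext
            exact (inv_mul_eq_one.1 h3).symm
          · have h3 : (t : G) * ((u' : G)⁻¹ * u) * (t : G)⁻¹ = (u' : G)⁻¹ * u := by
              have h4 : (u' : G)⁻¹ * u = u * (u' : G)⁻¹ := hab _ (inv_mem u'.2) _ u.2
              have h5 := hTV t t.2 _ (inv_mem u'.2)
              have h6 := hTV t t.2 _ u.2
              have h7 := hab _ h5 _ h6
              have h8 : (t : G) * ((u' : G)⁻¹ * u) * (t : G)⁻¹ =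
                  (t : G) * (u' : G)⁻¹ * (t : G)⁻¹ * ((t : G) * u * (t : G)⁻¹) := by group
              rw [h8, h7]
              have h9 : (t : G) * u * (t : G)⁻¹ =
                  (t : G) * u' * (t : G)⁻¹ * (u' : G)⁻¹ * u := by
                rw [← h2]
                group
              rw [h9, h4]
              have h10 : (t : G) * u' * (t : G)⁻¹ * (u' : G)⁻¹ * u * ((t : G) * (u' : G)⁻¹ *
                  (t : G)⁻¹) = ((t : G) * u' * (t : G)⁻¹) * (((u' : G)⁻¹ * u) * ((t : G) *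
                  (u' : G)⁻¹ * (t : G)⁻¹)) := by group
              rw [h10, hab _ (mul_mem (inv_mem u'.2) u.2) _ h5, h4]
              group
            calc (t : G) * ((u' : G)⁻¹ * u) = (t : G) * ((u' : G)⁻¹ * u) * (t : G)⁻¹ * t := by
                  group
              _ = (u' : G)⁻¹ * u * t := by rw [h3]
        have hsur : Function.Surjective φ := Finite.surjective_of_injective hinj
        obtain ⟨v, hv⟩ := hl
        obtain ⟨u, hu⟩ := hsur v
        apply hv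
        have h3 : v = ⟨(t : G) * u * (t : G)⁻¹, hTV t t.2 u u.2⟩ * u⁻¹ := by
          rw [← hu]
          rfl
        rw [h3, map_mul, ← hT u ⟨(t : G) * u * (t : G)⁻¹, hTV t t.2 u u.2⟩ rfl, mul_comm,
          char_inv]
      · intro ht v w' hw'
        have h2 : (t : G) ∈ Subgroup.centralizer (V : Set G) := ht
        have h3 := Subgroup.mem_centralizer_iff.1 h2 v v.2
        have h4 : w' = v := by
          apply Subtype.ext
          rw [hw', ← h3, mul_inv_cancel_right]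
        rw [h4]
    rw [h1] at key
    have h2 : (Nat.card C₀ : ℂ) * (∑ᶠ χ ∈ Irr G, cl M V b d ε lam χ *
        starRingEnd ℂ (cl M V b d ε lam χ)) = (Nat.card C₀ : ℂ) * (1 + ix V γ) := by
      rw [key]
      ring
    exact mul_left_cancel₀ hc0 h2
  · intro hno
    have h1 : (Finset.univ.filter fun t : Tg V γ => Tc V (t : G) mu lam) = ∅ := by
      rw [Finset.filter_eq_empty_iff]
      intro t _
      exact hno t t.2
    rw [h1, Finset.card_empty, Nat.cast_zero, add_zero] at key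
    exact mul_left_cancel₀ hc0 key

end Pool.Agent.PP.T8.H62
end
end -- Pool.Agent.Helper62_AT8.FGR

section -- Pool.Agent.Helper14_AT3.RIN

/-!
# Squad AT3, row RIN: characters fixed by the power map
-/

open scoped BigOperators

noncomputable section

namespace Pool.Agent.PP.T3.H14

open Pool.Agent.Helper51_AWC Pool.Agent.Helper79_WRA Pool.Agent.PP Pool.Agent.PP.KF
open Pool.Agent.PP.K9 Pool.Agent.PP.K9.H97 Pool.Agent.PP.H75

attribute [local instance] Ideal.Quotient.field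

theorem geom_int (q i : ℕ) (ζ : ℂ) (hζ : ζ ^ q = 1) :
    ∃ z : ℤ, ∑ j ∈ Finset.range q, ζ ^ (i * j) = z := by
  by_cases h : ζ ^ i = 1
  · refine ⟨q, ?_⟩
    rw [Finset.sum_congr rfl (fun j _ => by rw [pow_mul, h, one_pow])]
    simp
  · refine ⟨0, ?_⟩
    have h2 : (∑ j ∈ Finset.range q, ζ ^ (i * j)) * (ζ ^ i - 1) = 0 := by
      rw [Finset.sum_congr rfl (fun j _ => pow_mul ζ i j), geom_sum_mul, ← pow_mul, mul_comm i q,
        pow_mul, hζ, one_pow, sub_self]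
    rcases mul_eq_zero.1 h2 with h3 | h3
    · rw [h3, Int.cast_zero]
    · exact absurd (sub_eq_zero.1 h3) h

theorem ram_int (ℓ q i : ℕ) (hl : 0 < ℓ) (ζ : ℂ) (hζ : ζ ^ (ℓ * q) = 1) :
    ∃ z : ℤ, ∑ j ∈ (Finset.range (ℓ * q)).filter (fun j => ¬ ℓ ∣ j), ζ ^ (i * j) = z := by
  obtain ⟨z1, h1⟩ := geom_int (ℓ * q) i ζ hζ
  obtain ⟨z2, h2⟩ := geom_int q i (ζ ^ ℓ) (by rw [← pow_mul]; exact hζ)
  refine ⟨z1 - z2, ?_⟩
  have h3 := Finset.sum_filter_add_sum_filter_not (Finset.range (ℓ * q)) (fun j => ℓ ∣ j)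
    (fun j => ζ ^ (i * j))
  have h4 : ∑ j ∈ (Finset.range (ℓ * q)).filter (fun j => ℓ ∣ j), ζ ^ (i * j) =
      ∑ j ∈ Finset.range q, (ζ ^ ℓ) ^ (i * j) := by
    have h5 : (Finset.range (ℓ * q)).filter (fun j => ℓ ∣ j) =
        (Finset.range q).image (fun j => ℓ * j) := by
      ext j
      simp only [Finset.mem_filter, Finset.mem_range, Finset.mem_image]
      constructor
      · rintro ⟨hj, c, rfl⟩
        exact ⟨c, Nat.lt_of_mul_lt_mul_left hj, rfl⟩
      · rintro ⟨c, hc, rfl⟩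
        exact ⟨Nat.mul_lt_mul_of_pos_left hc hl, dvd_mul_right _ _⟩
    rw [h5, Finset.sum_image (fun a _ b _ hab => Nat.eq_of_mul_eq_mul_left hl hab)]
    refine Finset.sum_congr rfl fun j _ => ?_
    rw [← pow_mul]
    congr 1
    ring
  rw [h4, h2, h1] at h3
  push_cast
  rw [← h3]
  ring

theorem int_of (v : ℂ) (hv : IsIntegral ℤ v) (Z : ℤ) (n : ℕ) (hn : n ≠ 0)
    (h : (n : ℂ) * v = Z) : ∃ z : ℤ, v = z := by
  have hn' : (n : ℂ) ≠ 0 := Nat.cast_ne_zero.2 hn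
  have h1 : v = algebraMap ℚ ℂ ((Z : ℚ) / n) := by
    have : v = (Z : ℂ) / n := by
      rw [eq_div_iff hn', mul_comm]
      exact h
    rw [this]
    simp
  rw [h1] at hv
  have h2 : IsIntegral ℤ ((Z : ℚ) / n) :=
    (isIntegral_algebraMap_iff (algebraMap ℚ ℂ).injective).1 hv
  obtain ⟨z, hz⟩ := IsIntegrallyClosed.algebraMap_eq_of_integral h2
  refine ⟨z, ?_⟩
  rw [h1, ← hz]
  simp

section grp

variable {G : Type} [Group G]

theorem pow_pow_fix (N : ℕ) (χ : G → ℂ) (h : ∀ g, χ (g ^ N) = χ g) (k : ℕ) (g : G) :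
    χ (g ^ N ^ k) = χ g := by
  induction k with
  | zero => simp
  | succ k ih => rw [pow_succ, pow_mul, h, ih]

theorem reg_pow_fix (ℓ N : ℕ) (h : ∀ g : G, Reg ℓ g → g ^ N = g) (k : ℕ) (g : G)
    (hg : Reg ℓ g) : g ^ N ^ k = g := by
  induction k with
  | zero => simp
  | succ k ih => rw [pow_succ, pow_mul, ih, h g hg]

end grp

theorem rin (wbo : WboStmt) (inr : InrStmt) : RinStmt := by
  intro ℓ hℓ M hMm hM G _ _ N hN u hu b hb d hd χ hχ hfix
  classical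
  obtain ⟨n, hn⟩ := hu
  have hl : 0 < ℓ := hℓ.out.pos
  have hq : 0 < ℓ ^ (n + 1) := pow_pos hl _
  have hu2 : u ^ ℓ ^ (n + 1) = 1 := by rw [pow_succ, pow_mul, hn, one_pow]
  have hζ : IsPrimitiveRoot (Complex.exp (2 * Real.pi * Complex.I / (ℓ ^ (n + 1) : ℕ)))
      (ℓ ^ (n + 1)) := Complex.isPrimitiveRoot_exp _ hq.ne'
  set ζ : ℂ := Complex.exp (2 * Real.pi * Complex.I / (ℓ ^ (n + 1) : ℕ)) with hζdef
  obtain ⟨m, hm⟩ := inr M G u (ℓ ^ (n + 1)) hq hu2 b hb d hd ζ hζ χ hχ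
  have hd0 : (d : ℂ) ≠ 0 := Nat.cast_ne_zero.2 hd.1.ne'
  -- invariance
  have key : ∀ j : ℕ, ¬ ℓ ∣ j → gv M (Cu u) (u ^ j) b χ = gv M (Cu u) u b χ := by
    intro j hj
    obtain ⟨k, hk⟩ := hN.gen j hj
    unfold gv gbv
    refine finsum_congr fun c => ?_
    by_cases hc : Reg ℓ (c : Cu u)
    · congr 1
      have hc2 : Reg ℓ (c : G) := by
        unfold Reg at hc ⊢
        rwa [Subgroup.orderOf_coe]
      have hcomm : Commute u (c : G) := (Subgroup.mem_centralizer_singleton_iff.1 c.2).symm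
      have e1 : (u * (c : G)) ^ N ^ k = u ^ j * c := by
        rw [hcomm.mul_pow, hk u ⟨n, hn⟩, reg_pow_fix ℓ N hN.reg k _ hc2]
      rw [← e1]
      exact pow_pow_fix N χ hfix k _
    · letI := Fintype.ofFinite G
      letI : Fintype (Cu u) := Fintype.ofFinite _
      rw [H25.eh_sing wbo ℓ M hM (fun t : Cu u => b t) hb.idem c hc, zero_mul, zero_mul]
  set v : ℂ := ∑ i ∈ Finset.range (ℓ ^ (n + 1)), (m i : ℂ) * ζ ^ i with hv
  have hval : gv M (Cu u) u b χ = d * v := by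
    have := hm 1
    rw [pow_one] at this
    rw [this, hv]
    simp only [mul_one]
  have hj : ∀ j : ℕ, ¬ ℓ ∣ j →
      ∑ i ∈ Finset.range (ℓ ^ (n + 1)), (m i : ℂ) * ζ ^ (i * j) = v := by
    intro j hj
    have h1 := key j hj
    rw [hm j, hval] at h1
    exact mul_left_cancel₀ hd0 h1
  have hpow : ℓ ^ (n + 1) = ℓ * ℓ ^ n := by rw [pow_succ, mul_comm]
  have hζq : ζ ^ (ℓ * ℓ ^ n) = 1 := by rw [← hpow]; exact hζ.pow_eq_one
  choose z hz using fun i => ram_int ℓ (ℓ ^ n) i hl ζ hζq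
  set F : Finset ℕ := (Finset.range (ℓ * ℓ ^ n)).filter (fun j => ¬ ℓ ∣ j) with hF
  have hFc : F.card ≠ 0 := by
    have : 1 ∈ F := by
      rw [hF, Finset.mem_filter, Finset.mem_range]
      refine ⟨?_, fun h => hℓ.out.one_lt.ne' (Nat.dvd_one.1 h)⟩
      have h1 : 1 ≤ ℓ ^ n := Nat.one_le_pow _ _ hl
      have h2 := hℓ.out.two_le
      nlinarith
    exact (Finset.card_pos.2 ⟨1, this⟩).ne'
  have hsum : (F.card : ℂ) * v = ((∑ i ∈ Finset.range (ℓ ^ (n + 1)), m i * z i : ℤ) : ℂ) := by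
    have h1 : ∑ j ∈ F, ∑ i ∈ Finset.range (ℓ ^ (n + 1)), (m i : ℂ) * ζ ^ (i * j) =
        (F.card : ℂ) * v := by
      rw [Finset.sum_congr rfl (fun j hjF => hj j (Finset.mem_filter.1 hjF).2),
        Finset.sum_const, nsmul_eq_mul]
    rw [← h1, Finset.sum_comm]
    push_cast
    refine Finset.sum_congr rfl fun i _ => ?_
    rw [← Finset.mul_sum, hz i]
  have hint : IsIntegral ℤ v := by
    rw [hv]
    refine IsIntegral.sum _ fun i _ => ?_
    refine IsIntegral.mul ?_ ((hζ.isIntegral hq).pow i)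
    exact isIntegral_algebraMap (R := ℤ) (A := ℂ) (x := m i)
  obtain ⟨y, hy⟩ := int_of v hint _ F.card hFc hsum
  exact ⟨y, by rw [hval, hy]⟩

end Pool.Agent.PP.T3.H14
end
end -- Pool.Agent.Helper14_AT3.RIN

section -- Pool.Agent.Helper72_AT8.FNI

/-!
# Squad AT8, row FNI: integrality for a free inertial quotient
-/

set_option autoImplicit false

open scoped BigOperators

noncomputable section

namespace Pool.Agent.PP.T8.H72

open Pool.Agent.Helper51_AWC Pool.Agent.Helper79_WRA Pool.Agent.PP Pool.Agent.PP.KF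
open Pool.Agent.PP.K9 Pool.Agent.PP.K9.H97 Pool.Agent.PP.H75 Pool.Agent.PP.T3 Pool.Agent.PP.T2

attribute [local instance] Ideal.Quotient.field

section poly

open Polynomial

/-- the sum of the conjugates of the value of an integral polynomial is an integer -/
theorem sum_aeval_int (ℓ q : ℕ) (hl : 0 < ℓ) (ζ : ℂ) (hζ : ζ ^ (ℓ * q) = 1) (P : ℤ[X]) :
    ∃ z : ℤ, ∑ j ∈ (Finset.range (ℓ * q)).filter (fun j => ¬ ℓ ∣ j), aeval (ζ ^ j) P = z := by
  have h1 : ∀ i : ℕ, ∃ z : ℤ,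
      ∑ j ∈ (Finset.range (ℓ * q)).filter (fun j => ¬ ℓ ∣ j), ζ ^ (i * j) = z := fun i =>
    T3.H14.ram_int ℓ q i hl ζ hζ
  choose z hz using h1
  refine ⟨∑ i ∈ P.support, P.coeff i * z i, ?_⟩
  have h2 : ∀ j, aeval (ζ ^ j) P = ∑ i ∈ P.support, (P.coeff i : ℂ) * ζ ^ (i * j) := by
    intro j
    rw [aeval_eq_sum_range, ← P.sum_def (fun i a => (a : ℂ) * ζ ^ (i * j)),
      P.sum_over_range (fun n => by rw [Int.cast_zero, zero_mul])]
    refine Finset.sum_congr rfl fun i _ => ?_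
    rw [zsmul_eq_mul, ← pow_mul, mul_comm i j]
  rw [Finset.sum_congr rfl fun j _ => h2 j, Finset.sum_comm]
  push_cast
  refine Finset.sum_congr rfl fun i _ => ?_
  rw [← Finset.mul_sum, hz]

theorem isInt_aeval (P : ℤ[X]) {z : ℂ} (hz : IsIntegral ℤ z) : IsIntegral ℤ (aeval z P) := by
  have h1 : aeval z P ∈ integralClosure ℤ ℂ := by
    rw [aeval_eq_sum_range]
    refine Subalgebra.sum_mem _ fun i _ => ?_
    exact Subalgebra.smul_mem _ (Subalgebra.pow_mem _ hz i) _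
  exact h1

end poly

/-- an element of the local ring whose product with a power of `ℓ` is an integer is an integer -/
theorem int_of_RM {ℓ : ℕ} (hℓ : ℓ.Prime) {M : Ideal (integralClosure ℤ ℂ)} [M.IsMaximal]
    (hM : (ℓ : integralClosure ℤ ℂ) ∈ M) :
    ∀ (A : ℕ) (x : ℂ), x ∈ RM M → ∀ n : ℤ, (ℓ : ℂ) ^ A * x = n → ∃ z : ℤ, x = z := by
  intro A
  induction A with
  | zero =>
    intro x _ n h
    rw [pow_zero, one_mul] at h
    exact ⟨n, h⟩
  | succ A ih =>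
    intro x hx n h
    have hpos : (ℓ : ℂ) ≠ 0 := by exact_mod_cast hℓ.pos.ne'
    have h0 : ∀ k : ℕ, (ℓ : ℂ) ^ k ∈ RM M := by
      intro k
      have h1 := (rr_nat (M := M) (ℓ ^ k)).1
      push_cast at h1
      exact h1
    have h1 : rr M (n : ℂ) = 0 := by
      have h2 : (n : ℂ) = ((ℓ : ℕ) : ℂ) * ((ℓ : ℂ) ^ A * x) := by
        rw [← h, pow_succ]
        ring
      rw [h2, rr_mul (rr_nat ℓ).1 ((RM M).mul_mem (h0 A) hx), (rr_nat ℓ).2]
      have h3 : (ℓ : FF M) = 0 := by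
        have := Ideal.Quotient.eq_zero_iff_mem.2 hM
        rwa [map_natCast] at this
      rw [h3, zero_mul]
    obtain ⟨n', hn'⟩ := (dvd_of_rr hℓ hM).1 h1
    refine ih x hx n' ?_
    have h4 : (ℓ : ℂ) * ((ℓ : ℂ) ^ A * x) = ℓ * n' := by
      rw [← mul_assoc, ← pow_succ', h, hn']
      push_cast
      ring
    exact mul_left_cancel₀ hpos h4

/-- FNI -/
theorem fni (coh : CohStmt) (inr : T3.InrStmt) (dpw : DpwStmt) (lpw : T3.LpwStmt) :
    FniStmt := by
  classical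
  intro ℓ hℓ M _ hM hl2 G _ _ N hN e V γ b d c ε hD hfr χ hχ lam
  have hp : ℓ.Prime := hℓ.out
  have hF : GoodF ℓ (FF M) := H50.fld ℓ Fact.out M hM
  have := Fintype.ofFinite V
  have hrg : ∀ v ∈ V, v ≠ 1 → Rg V γ v := by
    intro v hv hv1
    refine ⟨hv, hv1, fun t ht => ?_⟩
    obtain ⟨ht1, ht2⟩ := Subgroup.mem_inf.1 ht
    exact hfr t ht1 v hv hv1 (Subgroup.mem_centralizer_singleton_iff.1 ht2)
  obtain ⟨A, hA⟩ := (IsPGroup.iff_card.1 hD.ld.tp.pg)
  obtain ⟨f, hf1, hf2, -⟩ := coh ℓ M hM hl2 G N hN e V γ b d c ε hD χ hχ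
  obtain ⟨-, hpw, -⟩ := dpw ℓ M hM hl2 G e V γ b d c ε hD
  -- the value as a sum
  set S : ℂ := ∑ v : V, (ε v : ℂ) * vv M b d v χ * (lam v⁻¹ - 1) with hS
  have hcl : cl M V b d ε lam χ = (Nat.card V : ℂ)⁻¹ * S := by
    unfold cl
    rw [finsum_eq_sum_of_fintype]
  -- it is in the local ring
  have hRM : cl M V b d ε lam χ ∈ RM M := by
    have h1 := hf1 lam
    have h2 := hf1 1
    rw [finsum_eq_sum_of_fintype] at h1 h2
    have h3 : cl M V b d ε lam χ = (Nat.card V : ℂ)⁻¹ * ∑ v : V, f v * lam v⁻¹ -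
        (Nat.card V : ℂ)⁻¹ * ∑ v : V, f v * (1 : V →* ℂ) v⁻¹ := by
      rw [hcl, ← mul_sub, ← Finset.sum_sub_distrib]
      congr 1
      refine Finset.sum_congr rfl fun v _ => ?_
      by_cases hv : v = 1
      · subst hv
        rw [inv_one, map_one, map_one]
        ring
      · have hv1 : (v : G) ≠ 1 := fun h => hv (Subtype.ext h)
        rw [hf2 v (hrg v v.2 hv1), MonoidHom.one_apply]
        ring
    rw [h3]
    exact (RM M).sub_mem h1 h2
  -- the roots of unity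
  have hl : 0 < ℓ := hp.pos
  have hq : 0 < ℓ * ℓ ^ A := Nat.mul_pos hl (pow_pos hl _)
  have hζ : IsPrimitiveRoot (Complex.exp (2 * Real.pi * Complex.I / (ℓ * ℓ ^ A : ℕ)))
      (ℓ * ℓ ^ A) := Complex.isPrimitiveRoot_exp _ hq.ne'
  set ζ : ℂ := Complex.exp (2 * Real.pi * Complex.I / (ℓ * ℓ ^ A : ℕ)) with hζdef
  have hζ1 : ζ ^ (ℓ * ℓ ^ A) = 1 := hζ.pow_eq_one
  have hvq : ∀ v : V, v ^ (ℓ * ℓ ^ A) = 1 := by
    intro v
    rw [mul_comm, pow_mul, ← hA, pow_card_eq_one', one_pow]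
  have hpoly : ∀ v : V, ∃ P : Polynomial ℤ, ∀ j : ℕ, ¬ ℓ ∣ j →
      (ε ((v ^ j : V) : G) : ℂ) * vv M b d ((v ^ j : V) : G) χ * (lam (v ^ j)⁻¹ - 1) =
        Polynomial.aeval (ζ ^ j) P := by
    intro v
    by_cases hv : v = 1
    · refine ⟨0, fun j _ => ?_⟩
      subst hv
      rw [one_pow, inv_one, map_one, sub_self, mul_zero, map_zero]
    · have hv1 : (v : G) ≠ 1 := fun h => hv (Subtype.ext h)
      have hr := hrg v v.2 hv1
      have hvq' : (v : G) ^ (ℓ * ℓ ^ A) = 1 := by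
        have h1 := congrArg (fun t : V => (t : G)) (hvq v)
        simpa using h1
      obtain ⟨m, hm⟩ := inr M G v (ℓ * ℓ ^ A) hq hvq' (b v) (hD.lc v hr).blk.ix (d v)
        (hD.dg v hr) ζ hζ χ hχ
      have hd0 : (d v : ℂ) ≠ 0 := by exact_mod_cast (hD.dg v hr).1.ne'
      have h2 : (lam v⁻¹) ^ (ℓ * ℓ ^ A) = 1 := by
        rw [← map_pow, inv_pow, hvq, inv_one, map_one]
      obtain ⟨k, -, hk⟩ := hζ.eq_pow_of_pow_eq_one h2
      refine ⟨Polynomial.C (ε v) * (∑ i ∈ Finset.range (ℓ * ℓ ^ A),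
        Polynomial.C (m i) * Polynomial.X ^ i) * (Polynomial.X ^ k - 1), fun j hj => ?_⟩
      obtain ⟨-, hb, hd, he⟩ := hpw v hr j hj
      have hcu : Cu ((v : G) ^ j) = Cu (v : G) :=
        (lpw ℓ (FF M) hF G e V γ hD.ld v v.2 (b v) (hD.lc v hr) j hj).1
      have e1 : ((v ^ j : V) : G) = (v : G) ^ j := rfl
      have e2 : vv M b d ((v ^ j : V) : G) χ =
          ∑ i ∈ Finset.range (ℓ * ℓ ^ A), (m i : ℂ) * ζ ^ (i * j) := by
        rw [e1]
        unfold vv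
        rw [hb, hd, hcu, hm j]
        field_simp
      have e3 : lam (v ^ j)⁻¹ = ζ ^ (k * j) := by
        rw [← inv_pow, map_pow, ← hk, ← pow_mul]
      rw [e2, e3, e1, he, map_mul, map_mul, map_sub, map_pow, map_one, Polynomial.aeval_X,
        map_sum, Polynomial.aeval_C]
      have e4 : ∑ i ∈ Finset.range (ℓ * ℓ ^ A), (m i : ℂ) * ζ ^ (i * j) =
          ∑ i ∈ Finset.range (ℓ * ℓ ^ A),
            Polynomial.aeval (ζ ^ j) (Polynomial.C (m i) * Polynomial.X ^ i) := by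
        refine Finset.sum_congr rfl fun i _ => ?_
        rw [map_mul, map_pow, Polynomial.aeval_C, Polynomial.aeval_X, ← pow_mul, mul_comm i j]
        rfl
      rw [e4, ← pow_mul, mul_comm k j]
      rfl
  choose P hP using hpoly
  have hconj : ∀ j : ℕ, ¬ ℓ ∣ j → S = Polynomial.aeval (ζ ^ j) (∑ v : V, P v) := by
    intro j hj
    have hcop : (Nat.card V).Coprime j := by
      rw [hA]
      exact Nat.Coprime.pow_left _ ((Nat.Prime.coprime_iff_not_dvd hp).2 hj)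
    rw [map_sum, hS, ← Equiv.sum_comp (powCoprime hcop)]
    refine Finset.sum_congr rfl fun v _ => ?_
    rw [← hP v j hj]
    rfl
  obtain ⟨Z, hZ⟩ := sum_aeval_int ℓ (ℓ ^ A) hl ζ hζ1 (∑ v : V, P v)
  have hsum : (((Finset.range (ℓ * ℓ ^ A)).filter (fun j => ¬ ℓ ∣ j)).card : ℂ) * S = Z := by
    rw [← hZ, ← nsmul_eq_mul, ← Finset.sum_const]
    refine Finset.sum_congr rfl fun j hj => ?_
    exact hconj j (Finset.mem_filter.1 hj).2
  have hne : ((Finset.range (ℓ * ℓ ^ A)).filter (fun j => ¬ ℓ ∣ j)).card ≠ 0 := by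
    rw [Finset.card_ne_zero]
    refine ⟨1, Finset.mem_filter.2 ⟨Finset.mem_range.2 ?_, fun h => hp.one_lt.ne'
      (Nat.dvd_one.1 h)⟩⟩
    calc 1 < ℓ := hp.one_lt
      _ = ℓ * 1 := (mul_one _).symm
      _ ≤ ℓ * ℓ ^ A := Nat.mul_le_mul_left _ (Nat.one_le_pow _ _ hl)
  have hint : IsIntegral ℤ S := by
    rw [hconj 1 (fun h => hp.one_lt.ne' (Nat.dvd_one.1 h)), pow_one]
    exact isInt_aeval _ (hζ.isIntegral hq)
  obtain ⟨z, hz⟩ := T3.H14.int_of S hint Z _ hne hsum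
  refine int_of_RM hp hM A _ hRM z ?_
  have h1 : (Nat.card V : ℂ) = (ℓ : ℂ) ^ A := by
    rw [hA]
    push_cast
    rfl
  have h2 : (ℓ : ℂ) ^ A ≠ 0 := pow_ne_zero _ (by exact_mod_cast hl.ne')
  rw [hcl, h1, ← mul_assoc, mul_inv_cancel₀ h2, one_mul, hz]

end Pool.Agent.PP.T8.H72
end
end -- Pool.Agent.Helper72_AT8.FNI

section -- Pool.Agent.Helper86_AT3.CEN

/-!
# Squad AT3, row CEN: blocks with a central defect group
-/

open scoped BigOperators

set_option linter.unusedSectionVars false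

noncomputable section

namespace Pool.Agent.PP.T3.H86

open Pool.Agent.Helper51_AWC Pool.Agent.Helper79_WRA Pool.Agent.PP Pool.Agent.PP.KF
open Pool.Agent.PP.K9 Pool.Agent.PP.K9.H97 Pool.Agent.PP.H75 Pool.Agent.PP.T3

attribute [local instance] Ideal.Quotient.field

/-- a central element acts by a scalar -/
theorem cent_mul {C : Type} [Group C] {θ : C → ℂ} (hθ : θ ∈ Irr C) {z : C}
    (hz : ∀ c, z * c = c * z) (c : C) : θ (z * c) = θ z / θ 1 * θ c := by
  have hne : θ 1 ≠ 0 := irr_one_ne hθ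
  obtain ⟨n, ρ, hρ, rfl⟩ := hθ
  obtain ⟨k, hk⟩ := schur_scalar ρ (ρ z) (by
    intro g
    have h1 : ρ z * ρ g = ρ g * ρ z := by rw [← map_mul, ← map_mul, hz]
    exact h1)
  have h1 : ∀ c, ρ.character (z * c) = k * ρ.character c := by
    intro c
    show LinearMap.trace ℂ _ (ρ (z * c)) = k * LinearMap.trace ℂ _ (ρ c)
    rw [map_mul, hk, smul_mul_assoc, map_smul, smul_eq_mul]
    rfl
  have h2 := h1 1
  rw [mul_one] at h2
  rw [h2, mul_div_cancel_right₀ _ hne, h1]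

/-- a character which is trivial on the central kernel comes from the quotient -/
theorem irr_defl' {A B : Type} [Group A] [Group B] {p : A →* B} (hp : Function.Surjective p)
    (hz : ∀ z, p z = 1 → ∀ c, z * c = c * z) {μ : A → ℂ}
    (hμ : μ ∈ Irr A) (h1 : ∀ z, p z = 1 → ∀ c, μ (z * c) = μ c) :
    ∃ θ ∈ Irr B, μ = fun a => θ (p a) := by
  have hne : μ 1 ≠ 0 := irr_one_ne hμ
  obtain ⟨n, ρ, hρ, rfl⟩ := hμ
  have hρz : ∀ z, p z = 1 → ρ z = 1 := by
    intro z hpz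
    obtain ⟨k, hk'⟩ := schur_scalar ρ (ρ z) (by
      intro g
      have h1 : ρ z * ρ g = ρ g * ρ z := by rw [← map_mul, ← map_mul, hz z hpz]
      exact h1)
    have hk1 : k = 1 := by
      have h2 : ρ.character (z * 1) = k * ρ.character 1 := by
        show LinearMap.trace ℂ _ (ρ (z * 1)) = k * LinearMap.trace ℂ _ (ρ 1)
        rw [map_mul, hk', smul_mul_assoc, map_smul, smul_eq_mul]
        rfl
      rw [h1 z hpz] at h2
      have h3 : (k - 1) * ρ.character 1 = 0 := by linear_combination -h2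
      rcases mul_eq_zero.1 h3 with h | h
      · exact sub_eq_zero.1 h
      · exact absurd h hne
    rw [hk', hk1, one_smul]
    rfl
  have hρe : ∀ x y : A, p x = p y → ρ x = ρ y := by
    intro x y hxy
    have hi : p (x * y⁻¹) = 1 := by rw [map_mul, map_inv, hxy, mul_inv_cancel]
    have h2 : x = (x * y⁻¹) * y := by group
    rw [h2, map_mul, hρz _ hi, one_mul]
  choose σ hσ using hp
  let ρ' : Representation ℂ B (Fin n → ℂ) :=
    { toFun := fun b => ρ (σ b)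
      map_one' := by
        have : ρ (σ 1) = ρ 1 := hρe _ _ (by rw [hσ, map_one])
        rw [this, map_one]
      map_mul' := fun b b' => by
        have : ρ (σ (b * b')) = ρ (σ b * σ b') := hρe _ _ (by rw [hσ, map_mul, hσ, hσ])
        rw [this, map_mul] }
  have hρ' : ∀ a, ρ' (p a) = ρ a := fun a => hρe _ _ (hσ (p a))
  refine ⟨ρ'.character, ⟨n, ρ', ?_, rfl⟩, ?_⟩
  · have f : Subrepresentation ρ' ≃o Subrepresentation ρ :=
      { toFun := fun S => ⟨S.toSubmodule, fun g v hv => by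
          rw [← hρ' g]
          exact S.apply_mem_toSubmodule (p g) hv⟩
        invFun := fun S => ⟨S.toSubmodule, fun h v hv => S.apply_mem_toSubmodule (σ h) hv⟩
        left_inv := fun S => rfl
        right_inv := fun S => rfl
        map_rel_iff' := Iff.rfl }
    exact (OrderIso.isSimpleOrder_iff f).2 hρ
  · funext a
    show LinearMap.trace ℂ _ (ρ a) = LinearMap.trace ℂ _ (ρ' (p a))
    rw [hρ']

/-- the multiplicative functions on a group -/
structure Mu {K : Type} [Group K] (l : K → ℂ) : Prop where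
  one : l 1 = 1
  mul : ∀ z z', l (z * z') = l z * l z'

theorem Mu.ne {K : Type} [Group K] {l : K → ℂ} (h : Mu l) (z : K) : l z * l z⁻¹ = 1 := by
  rw [← h.mul, mul_inv_cancel, h.one]

theorem mu_orth_self {K : Type} [Group K] [Fintype K] {l : K → ℂ} (hl : Mu l) :
    ∑ z : K, l z⁻¹ * l z = Fintype.card K := by
  rw [Finset.sum_congr rfl fun z _ => show l z⁻¹ * l z = 1 by rw [mul_comm, hl.ne]]
  simp

theorem mu_orth {K : Type} [Group K] [Fintype K] {l m : K → ℂ} (hl : Mu l) (hm : Mu m)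
    (h : l ≠ m) : ∑ z : K, l z⁻¹ * m z = 0 := by
  obtain ⟨z₀, hz⟩ : ∃ z₀, l z₀ ≠ m z₀ := by
    by_contra hc
    push Not at hc
    exact h (funext hc)
  have h1 : ∑ z : K, l z⁻¹ * m z = l z₀⁻¹ * m z₀ * ∑ z : K, l z⁻¹ * m z := by
    rw [Finset.mul_sum]
    rw [← Equiv.sum_comp (Equiv.mulLeft z₀) (fun z : K => l z⁻¹ * m z)]
    refine Finset.sum_congr rfl fun z _ => ?_
    show l (z₀ * z)⁻¹ * m (z₀ * z) = _
    rw [mul_inv_rev, hl.mul, hm.mul]
    ring
  have h2 : (l z₀⁻¹ * m z₀ - 1) * ∑ z : K, l z⁻¹ * m z = 0 := by linear_combination -h1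
  rcases mul_eq_zero.1 h2 with h3 | h3
  · exfalso
    apply hz
    have h4 := hl.ne z₀
    have h5 : l z₀ * (l z₀⁻¹ * m z₀ - 1) = 0 := by rw [h3, mul_zero]
    linear_combination m z₀ * h4 - h5
  · exact h3

theorem cen_quot (wbo : WboStmt) (ada : AdaStmt) (psi : PsiStmt) (ℓ : ℕ) [Fact ℓ.Prime]
    (M : Ideal (integralClosure ℤ ℂ)) [M.IsMaximal] (hM : (ℓ : integralClosure ℤ ℂ) ∈ M)
    (A B : Type) [Group A] [Finite A] [Group B] [Finite B] (p : A →* B)
    (hp : Function.Surjective p) (hkc : p.ker ≤ Subgroup.center A) (hkp : IsPGroup ℓ p.ker)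
    (γ : A → FF M) (hγ : IsIdem γ) (κ₀ : B → ℂ) (hκ₀ : IrrE M (H75.push p γ) = {κ₀})
    (hrc : Rc ℓ κ₀) :
    (κ₀ (p 1) ≠ 0) ∧ (∀ κ ∈ IrrE M γ, κ 1 = κ₀ (p 1)) ∧ (IrrE M γ).ncard = Nat.card p.ker := by
  classical
  have := Fintype.ofFinite A
  have := Fintype.ofFinite B
  have := Fintype.ofFinite p.ker
  have := Fintype.ofFinite (Irr A)
  have hKC : (Fintype.card p.ker : ℂ) ≠ 0 := by exact_mod_cast Fintype.card_ne_zero
  -- the kernel
  have hk2 : ∀ c d : A, p c = 1 → c * d = d * c := by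
    intro c d hc
    exact (Subgroup.mem_center_iff.1 (hkc (MonoidHom.mem_ker.2 hc)) d).symm
  have hpz : ∀ (z : p.ker) (x : A), p (z * x) = p x := by
    intro z x
    rw [map_mul, MonoidHom.mem_ker.1 z.2, one_mul]
  have hzl : ∀ z : p.ker, ∃ n : ℕ, (z : A) ^ ℓ ^ n = 1 := by
    intro z
    obtain ⟨n, hn⟩ := hkp z
    exact ⟨n, by simpa using congrArg Subtype.val hn⟩
  -- the characters
  obtain ⟨hpsi1, hpsi2⟩ := psi M A B p hp γ hγ.1
  rw [hκ₀] at hpsi1
  have hκ₀B : κ₀ ∈ Irr B ∧ (fun a => κ₀ (p a)) ∈ IrrE M γ := by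
    have : κ₀ ∈ ({κ₀} : Set (B → ℂ)) := rfl
    rw [hpsi1] at this
    exact this
  have hκ₀A : (fun a => κ₀ (p a)) ∈ Irr A := hκ₀B.2.1
  -- the scalars
  obtain ⟨lam, hlamd⟩ : ∃ lam : (A → ℂ) → (p.ker → ℂ), ∀ μ z, lam μ z = μ z / μ 1 :=
    ⟨fun μ z => μ z / μ 1, fun _ _ => rfl⟩
  have hlam : ∀ μ ∈ Irr A, ∀ (z : p.ker) (c : A), μ (z * c) = lam μ z * μ c := by
    intro μ hμ z c
    rw [hlamd]
    exact cent_mul hμ (fun c => hk2 z c (MonoidHom.mem_ker.1 z.2)) c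
  have hlamu : ∀ μ ∈ Irr A, Mu (lam μ) := by
    intro μ hμ
    have hne := irr_one_ne hμ
    refine ⟨?_, ?_⟩
    · rw [hlamd]
      exact div_self hne
    · intro z z'
      have h1 := hlam μ hμ z z'
      rw [hlamd μ (z * z'), hlamd μ z']
      show μ ((z : A) * z') / μ 1 = _
      rw [h1, mul_div_assoc]
  -- the finite set of the characters
  have hfin : (IrrE M γ).Finite := Set.Finite.subset (Set.toFinite (Irr A)) fun χ h => h.1
  obtain ⟨Γ, hΓ⟩ : ∃ Γ : Finset (A → ℂ), Γ = hfin.toFinset := ⟨_, rfl⟩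
  have hΓm : ∀ μ, μ ∈ Γ ↔ μ ∈ IrrE M γ := by
    intro μ
    rw [hΓ, Set.Finite.mem_toFinset]
  have hsum : ∀ f : (A → ℂ) → ℂ, ∑ᶠ χ ∈ IrrE M γ, f χ = ∑ χ ∈ Γ, f χ := by
    intro f
    rw [hΓ]
    exact finsum_mem_eq_finite_toFinset_sum f hfin
  obtain ⟨N, hN0, hN⟩ := H27.prt ℓ A
  have hpowN : ∀ (z : p.ker) (s : A), Reg ℓ s → ((z : A) * s) ^ N = s := by
    intro z s hs
    have h0 : (z : A) * s = s * z := hk2 z s (MonoidHom.mem_ker.1 z.2)
    rw [h0]
    exact hN s z h0.symm hs (hzl z)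
  -- singular elements
  have hsing : ∀ (z : p.ker) (s : A), Reg ℓ s → z ≠ 1 → ¬ Reg ℓ ((z : A) * s) := by
    intro z s hs hz1 hreg
    have h1 := hpowN z s hs
    have h2 := hpowN 1 ((z : A) * s) hreg
    rw [Subgroup.coe_one, one_mul] at h2
    rw [h2] at h1
    apply hz1
    apply Subtype.ext
    have : (z : A) * s = 1 * s := by rw [h1, one_mul]
    exact mul_right_cancel this
  -- the sums over the characters with a given scalar
  have hE0 : ∀ l : p.ker → ℂ, Mu l → ∀ s s' : A, Reg ℓ s → Reg ℓ s' →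
      (Fintype.card p.ker : ℂ) * ∑ μ ∈ Γ.filter (fun μ => lam μ = l), μ s⁻¹ * μ s' =
        ∑ μ ∈ Γ, μ s⁻¹ * μ s' := by
    intro l hl s s' hs hs'
    have h1 : ∑ z : p.ker, l z⁻¹ * ∑ μ ∈ Γ, μ s⁻¹ * μ (z * s') =
        ∑ μ ∈ Γ, μ s⁻¹ * μ s' := by
      rw [Finset.sum_eq_single_of_mem (1 : p.ker) (Finset.mem_univ _)]
      · rw [inv_one, hl.one, one_mul]
        simp only [Subgroup.coe_one, one_mul]
      · intro z _ hz0
        rw [← hsum, wbo ℓ M hM A γ hγ s (z * s') hs (hsing z s' hs' hz0), mul_zero]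
    rw [← h1]
    calc (Fintype.card p.ker : ℂ) * ∑ μ ∈ Γ.filter (fun μ => lam μ = l), μ s⁻¹ * μ s'
        = ∑ μ ∈ Γ, (μ s⁻¹ * μ s') * ∑ z : p.ker, l z⁻¹ * lam μ z := by
          rw [Finset.mul_sum, Finset.sum_filter]
          refine Finset.sum_congr rfl fun μ hμ => ?_
          have hμ' := hlamu μ ((hΓm μ).1 hμ).1
          by_cases h : lam μ = l
          · rw [if_pos h, h, mu_orth_self hl]
            ring
          · rw [if_neg h, mu_orth hl hμ' (fun h' => h h'.symm), mul_zero]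
      _ = ∑ z : p.ker, l z⁻¹ * ∑ μ ∈ Γ, μ s⁻¹ * μ (z * s') := by
          simp_rw [Finset.mul_sum]
          rw [Finset.sum_comm]
          refine Finset.sum_congr rfl fun i _ => Finset.sum_congr rfl fun μ hμ => ?_
          rw [hlam μ ((hΓm μ).1 hμ).1]
          ring
  have hmu1 : Mu (fun _ : p.ker => (1 : ℂ)) := ⟨rfl, fun _ _ => by rw [one_mul]⟩
  -- the characters with the scalar one
  have hone : Γ.filter (fun μ => lam μ = fun _ => 1) = {fun a => κ₀ (p a)} := by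
    ext μ
    rw [Finset.mem_filter, Finset.mem_singleton, hΓm]
    constructor
    · rintro ⟨hμ, hμ1⟩
      -- `μ` is inflated
      have hμA := hμ.1
      obtain ⟨θ, hθ, hθμ⟩ := irr_defl' hp (fun z hz c => hk2 z c hz) hμA (fun z hz c => by
        have := hlam μ hμA ⟨z, MonoidHom.mem_ker.2 hz⟩ c
        rwa [hμ1, one_mul] at this)
      have h1 : θ ∈ ({κ₀} : Set (B → ℂ)) := by
        rw [hpsi1]
        exact ⟨hθ, by rw [← hθμ]; exact hμ⟩
      rw [hθμ, Set.mem_singleton_iff.1 h1]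
    · rintro rfl
      refine ⟨hκ₀B.2, ?_⟩
      funext z
      rw [hlamd]
      show κ₀ (p z) / κ₀ (p 1) = 1
      have h2 : κ₀ (p z) = κ₀ (p 1) := by
        have := hpz z 1
        rw [mul_one] at this
        rw [this]
      rw [h2]
      exact div_self (irr_one_ne hκ₀A)
  have hE : ∀ l : p.ker → ℂ, Mu l → ∀ s s' : A, Reg ℓ s → Reg ℓ s' →
      ∑ μ ∈ Γ.filter (fun μ => lam μ = l), μ s⁻¹ * μ s' = κ₀ (p s⁻¹) * κ₀ (p s') := by
    intro l hl s s' hs hs'
    have h1 := hE0 l hl s s' hs hs'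
    have h2 := hE0 _ hmu1 s s' hs hs'
    rw [← h2, hone, Finset.sum_singleton] at h1
    exact mul_left_cancel₀ hKC h1
  have hreg1 : Reg ℓ (1 : A) := by
    unfold Reg
    rw [orderOf_one]
    exact Nat.coprime_one_left ℓ
  have hsq : ∀ μ ∈ Irr A, ∀ x : A, μ x * μ x⁻¹ = ((‖μ x‖ ^ 2 : ℝ) : ℂ) := by
    intro μ hμ x
    rw [← H94.irr_star hμ, Complex.mul_conj, Complex.normSq_eq_norm_sq]
  -- every element over a regular element
  have hdec : ∀ x : A, Reg ℓ (p x) → ∃ (z : p.ker) (s : A), Reg ℓ s ∧ x = z * s := by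
    intro x hx
    obtain ⟨hs, n, hn⟩ := hN0 x
    have hy : p ((x ^ N)⁻¹ * x) = 1 := by
      have h1 : p ((x ^ N)⁻¹ * x) ^ ℓ ^ n = 1 := by rw [← map_pow, hn, map_one]
      have h2 : orderOf (p ((x ^ N)⁻¹ * x)) ∣ ℓ ^ n := orderOf_dvd_of_pow_eq_one h1
      have h3 : orderOf (p ((x ^ N)⁻¹ * x)) ∣ orderOf (p x) := by
        have h4 : p ((x ^ N)⁻¹ * x) ∈ Subgroup.zpowers (p x) := by
          rw [map_mul, map_inv, map_pow]
          exact Subgroup.mul_mem _ (Subgroup.inv_mem _ (Subgroup.npow_mem_zpowers _ _))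
            (Subgroup.mem_zpowers _)
        exact orderOf_dvd_of_mem_zpowers h4
      have h5 : Nat.Coprime (ℓ ^ n) (orderOf (p x)) := (Nat.Coprime.pow_left n hx.symm)
      have h6 := Nat.eq_one_of_dvd_coprimes h5 h2 h3
      exact orderOf_eq_one_iff.1 h6
    refine ⟨⟨(x ^ N)⁻¹ * x, MonoidHom.mem_ker.2 hy⟩, x ^ N, hs, ?_⟩
    show x = (x ^ N)⁻¹ * x * x ^ N
    have h7 : x * x ^ N = x ^ N * x := ((Commute.refl x).pow_right N).eq
    rw [mul_assoc, h7, inv_mul_cancel_left]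
  have hdeg : ∀ κ ∈ IrrE M γ, κ 1 = κ₀ (p 1) := by
    intro κ hκ
    -- real numbers
    obtain ⟨d, hd, hκd⟩ := irr_one hκ.1
    obtain ⟨d₀, hd₀, hκd₀'⟩ := irr_one hκ₀A
    have hκd₀ : κ₀ (p 1) = d₀ := hκd₀'
    obtain ⟨l, hl⟩ : ∃ l, l = lam κ := ⟨_, rfl⟩
    have hll : Mu l := by rw [hl]; exact hlamu κ hκ.1
    have hκl : κ ∈ Γ.filter (fun μ => lam μ = l) := by
      rw [Finset.mem_filter, hΓm]
      exact ⟨hκ, hl.symm⟩
    -- proportionality
    have hprop : ∀ s : A, Reg ℓ s → κ₀ (p 1) * κ s = κ₀ (p s) * κ 1 := by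
      intro s hs
      have hterm : ∀ μ ∈ Γ.filter (fun μ => lam μ = l),
          ((‖κ₀ (p 1) * μ s - κ₀ (p s) * μ 1‖ ^ 2 : ℝ) : ℂ) =
          κ₀ (p 1) * κ₀ (p 1) * (μ s⁻¹ * μ s) - κ₀ (p 1) * κ₀ (p s⁻¹) * (μ 1⁻¹ * μ s) -
            κ₀ (p s) * κ₀ (p 1) * (μ s⁻¹ * μ 1) + κ₀ (p s) * κ₀ (p s⁻¹) * (μ 1⁻¹ * μ 1) := by
        intro μ hμ
        have hμA : μ ∈ Irr A := ((hΓm μ).1 (Finset.mem_filter.1 hμ).1).1
        rw [← Complex.normSq_eq_norm_sq, ← Complex.mul_conj, map_sub, map_mul, map_mul,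
          H94.irr_star hμA, H94.irr_star hμA]
        have e1 : starRingEnd ℂ (κ₀ (p 1)) = κ₀ (p 1⁻¹) := H94.irr_star hκ₀A 1
        have e2 : starRingEnd ℂ (κ₀ (p s)) = κ₀ (p s⁻¹) := H94.irr_star hκ₀A s
        rw [e1, e2]
        simp only [inv_one]
        ring
      have hzero : ((∑ μ ∈ Γ.filter (fun μ => lam μ = l),
          ‖κ₀ (p 1) * μ s - κ₀ (p s) * μ 1‖ ^ 2 : ℝ) : ℂ) = 0 := by
        push_cast
        have h0 : ∀ μ ∈ Γ.filter (fun μ => lam μ = l),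
            ((‖κ₀ (p 1) * μ s - κ₀ (p s) * μ 1‖ : ℝ) : ℂ) ^ 2 =
            κ₀ (p 1) * κ₀ (p 1) * (μ s⁻¹ * μ s) - κ₀ (p 1) * κ₀ (p s⁻¹) * (μ 1⁻¹ * μ s) -
            κ₀ (p s) * κ₀ (p 1) * (μ s⁻¹ * μ 1) + κ₀ (p s) * κ₀ (p s⁻¹) * (μ 1⁻¹ * μ 1) := by
          intro μ hμ
          rw [← hterm μ hμ]
          push_cast
          rfl
        rw [Finset.sum_congr rfl h0, Finset.sum_add_distrib, Finset.sum_sub_distrib,
          Finset.sum_sub_distrib, ← Finset.mul_sum, ← Finset.mul_sum, ← Finset.mul_sum,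
          ← Finset.mul_sum, hE l hll s s hs hs, hE l hll 1 s hreg1 hs, hE l hll s 1 hs hreg1,
          hE l hll 1 1 hreg1 hreg1, inv_one]
        ring
      have hzero' : ∑ μ ∈ Γ.filter (fun μ => lam μ = l),
          ‖κ₀ (p 1) * μ s - κ₀ (p s) * μ 1‖ ^ 2 = 0 := by exact_mod_cast hzero
      have h2 := (Finset.sum_eq_zero_iff_of_nonneg (fun μ _ => by positivity)).1 hzero' κ hκl
      have h3 : ‖κ₀ (p 1) * κ s - κ₀ (p s) * κ 1‖ = 0 := by
        exact pow_eq_zero_iff (two_ne_zero) |>.1 h2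
      exact sub_eq_zero.1 (norm_eq_zero.1 h3)
    -- the ratio of the degrees is an integer
    have hκ₀ZI : (fun a => κ₀ (p a)) ∈ ZI A := AddSubgroup.subset_closure hκ₀A
    have hκZI : κ ∈ ZI A := AddSubgroup.subset_closure hκ.1
    obtain ⟨m, hm⟩ := ada A N κ hκZI (fun a => κ₀ (p a)) hκ₀ZI
    have hcardA : (Fintype.card A : ℂ) ≠ 0 := by exact_mod_cast Fintype.card_ne_zero
    have hm2 : κ₀ (p 1) * m = κ 1 := by
      rw [← hm]
      unfold ipn
      rw [finsum_eq_sum_of_fintype, Nat.card_eq_fintype_card]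
      have h1 : ∀ x : A, κ₀ (p 1) * (κ (x ^ N) * starRingEnd ℂ (κ₀ (p x))) =
          κ 1 * (κ₀ (p x) * κ₀ (p x⁻¹)) := by
        intro x
        have e1 : starRingEnd ℂ (κ₀ (p x)) = κ₀ (p x⁻¹) := H94.irr_star hκ₀A x
        rw [e1]
        by_cases hx : Reg ℓ (p x)
        · obtain ⟨z, s, hs, hxs⟩ := hdec x hx
          have h2 : κ (x ^ N) = κ s := by rw [hxs, hpowN z s hs]
          have h3 : p x = p s := by rw [hxs, hpz]
          rw [h2, h3, ← mul_assoc, hprop s hs]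
          ring
        · have h2 : κ₀ (p x) = 0 := hrc.sg _ hx
          have h3 : κ₀ (p x⁻¹) = 0 := by rw [← e1, h2, map_zero]
          rw [h3, mul_zero, mul_zero, mul_zero, mul_zero]
      have h2 : κ₀ (p 1) * ((Fintype.card A : ℂ)⁻¹ *
          ∑ x : A, κ (x ^ N) * starRingEnd ℂ (κ₀ (p x))) =
          (Fintype.card A : ℂ)⁻¹ * (κ 1 * ∑ x : A, κ₀ (p x) * κ₀ (p x⁻¹)) := by
        rw [Finset.mul_sum (s := Finset.univ) (a := κ 1), ← Finset.sum_congr rfl fun x _ => h1 x,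
          ← Finset.mul_sum]
        ring
      rw [h2]
      have h3 : ∑ x : A, κ₀ (p x) * κ₀ (p x⁻¹) = Fintype.card A := irr_orth_self hκ₀A
      rw [h3]
      field_simp
    -- the degrees are equal
    have h1 := hE l hll 1 1 hreg1 hreg1
    rw [inv_one] at h1
    have h2 : ∀ μ ∈ Γ.filter (fun μ => lam μ = l), ∃ a : ℕ, μ 1 = a := by
      intro μ hμ
      obtain ⟨a, -, ha⟩ := irr_one ((hΓm μ).1 (Finset.mem_filter.1 hμ).1).1
      exact ⟨a, ha⟩
    have h3 : ∃ r : ℕ, ∑ μ ∈ (Γ.filter (fun μ => lam μ = l)).erase κ, μ 1 * μ 1 = r := by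
      have h4 : ∀ S : Finset (A → ℂ), (∀ μ ∈ S, ∃ a : ℕ, μ 1 = a) →
          ∃ r : ℕ, ∑ μ ∈ S, μ 1 * μ 1 = r := by
        intro S
        induction S using Finset.induction_on with
        | empty => exact fun _ => ⟨0, by simp⟩
        | insert μ S hμ ih =>
          intro h
          obtain ⟨a, ha⟩ := h μ (Finset.mem_insert_self _ _)
          obtain ⟨r, hr⟩ := ih fun ν hν => h ν (Finset.mem_insert_of_mem hν)
          refine ⟨a * a + r, ?_⟩
          rw [Finset.sum_insert hμ, ha, hr]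
          push_cast
          ring
      exact h4 _ fun μ hμ => h2 μ (Finset.mem_of_mem_erase hμ)
    obtain ⟨r, hr⟩ := h3
    rw [← Finset.add_sum_erase _ _ hκl, hr, hκd, hκd₀] at h1
    have h5 : d * d + r = d₀ * d₀ := by exact_mod_cast h1
    rw [hκd₀, hκd] at hm2
    have h6 : (d₀ : ℤ) * m = d := by exact_mod_cast hm2
    have hd0Z : (0 : ℤ) < d₀ := by exact_mod_cast hd₀
    have hdZ : (0 : ℤ) < d := by exact_mod_cast hd
    have hmpos : 0 < m := by
      by_contra h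
      have : (d₀ : ℤ) * m ≤ 0 := mul_nonpos_of_nonneg_of_nonpos hd0Z.le (not_lt.1 h)
      omega
    have h7 : (d : ℤ) * d ≤ d₀ * d₀ := by
      have : ((d * d + r : ℕ) : ℤ) = ((d₀ * d₀ : ℕ) : ℤ) := by rw [h5]
      push_cast at this
      have hr0 : (0 : ℤ) ≤ r := by positivity
      linarith
    have h8 : (d : ℤ) ≤ d₀ := by
      by_contra h
      push Not at h
      nlinarith
    have h9 : m = 1 := by
      have : m ≤ 1 := by
        by_contra h
        push Not at h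
        have : (d₀ : ℤ) * 2 ≤ d₀ * m := mul_le_mul_of_nonneg_left (by omega) hd0Z.le
        omega
      omega
    rw [h9, mul_one] at h6
    rw [hκd, hκd₀]
    exact_mod_cast h6.symm
  have hk0 : κ₀ (p 1) ≠ 0 := irr_one_ne hκ₀A
  refine ⟨hk0, hdeg, ?_⟩
  have h1 := hE0 _ hmu1 1 1 hreg1 hreg1
  rw [hone, Finset.sum_singleton] at h1
  have h2 : ∑ μ ∈ Γ, μ 1⁻¹ * μ 1 = (Γ.card : ℂ) * (κ₀ (p 1) * κ₀ (p 1)) := by
    rw [Finset.sum_congr rfl fun μ hμ => by rw [inv_one, hdeg μ ((hΓm μ).1 hμ)],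
      Finset.sum_const, nsmul_eq_mul]
  rw [h2] at h1
  have h3 : (Fintype.card p.ker : ℂ) = Γ.card := by
    have h4 : κ₀ (p 1) * κ₀ (p 1) ≠ 0 := mul_ne_zero hk0 hk0
    have h5 : (Fintype.card p.ker : ℂ) * (κ₀ (p 1) * κ₀ (p 1)) =
        (Γ.card : ℂ) * (κ₀ (p 1) * κ₀ (p 1)) := by
      rw [← h1, inv_one]
    exact mul_right_cancel₀ h4 h5
  have h4 : Fintype.card p.ker = Γ.card := by exact_mod_cast h3
  rw [Nat.card_eq_fintype_card, h4, hΓ, Set.ncard_eq_toFinset_card _ hfin]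

theorem cen (psg : PsgStmt) : CenStmt := by
  intro ℓ hℓ M _ hM H _ _ b hb V hV hVc
  have hF : GoodF ℓ (FF M) := H50.fld ℓ hℓ.out M hM
  have hn : V.Normal := ⟨fun n hn g => by
    have h1 := Subgroup.mem_center_iff.1 (hVc hn) g
    rw [h1, mul_assoc, mul_inv_cancel, mul_one]
    exact hn⟩
  obtain ⟨p, hpd⟩ : ∃ p : H →* H ⧸ V, p = QuotientGroup.mk' V := ⟨_, rfl⟩
  have hker : p.ker = V := by rw [hpd, QuotientGroup.ker_mk']
  have hp : Function.Surjective p := by rw [hpd]; exact QuotientGroup.mk'_surjective V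
  have hkp : IsPGroup ℓ p.ker := by rw [hker]; exact hV.pg
  have hkc : p.ker ≤ Subgroup.center H := by rw [hker]; exact hVc
  have hb' : IsBlk (H75.push p b) := psg ℓ (FF M) hF H (H ⧸ V) p hp hkc hkp b hb
  have wbo : WboStmt := H82W.wbo (H82.trb H53.tra)
  have hgood : ∀ Q : Subgroup (H ⧸ V), IsPGroup ℓ Q → Gd (H75.push p b) Q → Q = ⊥ := by
    intro Q hQ hQb
    have h1 : Q = (Q.comap p).map p := (Subgroup.map_comap_eq_self_of_surjective hp Q).symm
    have hcard : Nat.card (Q.comap p) = Nat.card V * Nat.card Q := by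
      have := H75.card_comap (p := p) hp Q
      rw [this, hker]
    have h2 : IsPGroup ℓ (Q.comap p) := by
      obtain ⟨n, hn⟩ := (IsPGroup.iff_card).1 hQ
      obtain ⟨m, hm⟩ := (IsPGroup.iff_card).1 hV.pg
      exact IsPGroup.of_card (n := m + n) (by rw [hcard, hn, hm, pow_add])
    have h3 : p.ker ≤ Q.comap p := by
      intro x hx
      rw [Subgroup.mem_comap, MonoidHom.mem_ker.1 hx]
      exact Q.one_mem
    rw [h1] at hQb
    have h4 := (H02.pug ℓ (FF M) hF H (H ⧸ V) p hp hkp b hb.1 _ h3 h2).2 hQb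
    have h6 := hV.mx _ h2 h4
    rw [hcard] at h6
    have h7 : 0 < Nat.card V := Nat.card_pos
    have h8 : 0 < Nat.card Q := Nat.card_pos
    have h9 : Nat.card Q = 1 := by
      have : Nat.card V * Nat.card Q ≤ Nat.card V * 1 := by rw [mul_one]; exact h6
      have := Nat.le_of_mul_le_mul_left this h7
      omega
    exact Subgroup.card_eq_one.1 h9
  obtain ⟨κ₀, hκ₀, hrc⟩ := H1.dzo wbo ℓ M hM (H ⧸ V) (H75.push p b) hb' hgood
  obtain ⟨h1, h2, h3⟩ := cen_quot wbo (H25.ada H20.adp) H3.psi ℓ M hM H (H ⧸ V) p hp hkc hkp b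
    hb.1 κ₀ hκ₀ hrc
  refine ⟨?_, by rw [h3, hker]⟩
  -- the degree
  obtain ⟨hpsi1, hpsi2⟩ := H3.psi M H (H ⧸ V) p hp b hb.1.1
  rw [hκ₀] at hpsi1
  have hκ₀B : κ₀ ∈ Irr (H ⧸ V) ∧ (fun a => κ₀ (p a)) ∈ IrrE M b := by
    have : κ₀ ∈ ({κ₀} : Set (H ⧸ V → ℂ)) := rfl
    rw [hpsi1] at this
    exact this
  obtain ⟨d, hd, hdd⟩ := irr_one hκ₀B.2.1
  exact ⟨d, hd, fun κ hκ => by rw [h2 κ hκ]; exact hdd⟩

end Pool.Agent.PP.T3.H86
end
end -- Pool.Agent.Helper86_AT3.CEN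

section -- Pool.Agent.Helper87_AT8.KNZ

/-!
# Squad AT8, row KNZ: the characters of `γ` modulo `M`
-/

set_option autoImplicit false

open scoped BigOperators

set_option linter.unusedSectionVars false

noncomputable section

namespace Pool.Agent.PP.T8.H87

open Pool.Agent.Helper51_AWC Pool.Agent.Helper79_WRA Pool.Agent.PP Pool.Agent.PP.KF
open Pool.Agent.PP.K9 Pool.Agent.PP.K9.H97 Pool.Agent.PP.H75 Pool.Agent.PP.T3 Pool.Agent.PP.T2

attribute [local instance] Ideal.Quotient.field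

/-- the multiplicity of the trivial character of a subgroup is a natural number -/
theorem mult_one {B : Type} [Group B] [Finite B] (P : Subgroup B) {χ : B → ℂ} (hχ : χ ∈ Irr B) :
    ∃ m : ℕ, (Nat.card P : ℂ)⁻¹ * ∑ᶠ x : P, χ x = m := by
  obtain ⟨n, ρ, _, hρ⟩ := hχ
  have hFV : Fintype P := Fintype.ofFinite P
  have hV0 : (Nat.card P : ℂ) ≠ 0 := Nat.cast_ne_zero.2 Nat.card_pos.ne'
  let q0 : Module.End ℂ (Fin n → ℂ) := ∑ v : P, ρ v
  have hq : q0 * q0 = (Nat.card P : ℂ) • q0 := by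
    have h1 : q0 * q0 = ∑ v : P, ∑ w : P, ρ ((v * w : P) : B) := by
      simp only [q0, Finset.sum_mul, Finset.mul_sum]
      rw [Finset.sum_comm]
      refine Finset.sum_congr rfl fun v _ => Finset.sum_congr rfl fun w _ => ?_
      rw [Subgroup.coe_mul, map_mul]
    have h2 : ∀ v : P, ∑ w : P, ρ ((v * w : P) : B) = q0 := by
      intro v
      exact Equiv.sum_comp (Equiv.mulLeft v) (fun x : P => ρ (x : B))
    rw [h1, Finset.sum_congr rfl fun v _ => h2 v, Finset.sum_const, Finset.card_univ,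
      ← Nat.card_eq_fintype_card, ← Nat.cast_smul_eq_nsmul ℂ]
  have hid : ((Nat.card P : ℂ)⁻¹ • q0) * ((Nat.card P : ℂ)⁻¹ • q0) =
      (Nat.card P : ℂ)⁻¹ • q0 := by
    rw [smul_mul_smul_comm, hq, smul_smul, mul_assoc, inv_mul_cancel₀ hV0, mul_one]
  have htr : ∃ m : ℕ, LinearMap.trace ℂ (Fin n → ℂ) ((Nat.card P : ℂ)⁻¹ • q0) = m :=
    ⟨_, LinearMap.IsProj.trace (LinearMap.IsIdempotentElem.isProj_range _ hid)⟩
  obtain ⟨m, hm⟩ := htr
  refine ⟨m, ?_⟩
  rw [← hm, map_smul, smul_eq_mul]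
  congr 1
  rw [finsum_eq_sum_of_fintype]
  simp only [q0, map_sum]
  refine Finset.sum_congr rfl fun v _ => ?_
  rw [← hρ]
  rfl

/-- the residue of a character value depends only on the regular part -/
theorem rr_reg {ℓ : ℕ} [hℓ : Fact ℓ.Prime] (M : Ideal (integralClosure ℤ ℂ)) [M.IsMaximal]
    (hM : (ℓ : integralClosure ℤ ℂ) ∈ M) {H : Type} [Group H] [Finite H] {κ : H → ℂ}
    (hκ : κ ∈ Irr H) (g s : H) (n : ℕ) (h : g ^ ℓ ^ n = s ^ ℓ ^ n) :
    rr M (κ g) = rr M (κ s) := by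
  have hF : GoodF ℓ (FF M) := H50.fld ℓ hℓ.out M hM
  have hch : CharP (FF M) ℓ := hF.char
  have hexp : ExpChar (FF M) ℓ := ExpChar.prime hℓ.out
  have h1 : ∀ t : H, rr M (κ (t ^ ℓ ^ n)) = rr M (κ t) ^ ℓ ^ n := by
    intro t
    rw [rr_of_int (irr_integral hκ _), rr_of_int (irr_integral hκ _)]
    exact H15.vpow ℓ M hM H κ hκ t n
  have h2 : rr M (κ g) ^ ℓ ^ n = rr M (κ s) ^ ℓ ^ n := by rw [← h1, ← h1, h]
  exact iterateFrobenius_inj (FF M) ℓ n h2

theorem knz_cen (rg1 : Rg1Stmt) (cens : T3.CenStmt) (psg : T3.PsgStmt) (ℓ : ℕ) [hℓ : Fact ℓ.Prime]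
    (M : Ideal (integralClosure ℤ ℂ)) [M.IsMaximal] (hM : (ℓ : integralClosure ℤ ℂ) ∈ M)
    (H : Type) [Group H] [Finite H] (b : H → FF M) (hb : IsBlk b) (V : Subgroup H)
    (hV : Tp ℓ b V) (hVc : V ≤ Subgroup.center H) (c : ℕ) (hc : Dg M b c) :
    ((Nat.card V * c : ℂ) / Nat.card H) ∈ RM M ∧
    ∀ κ ∈ IrrE M b, (∃ s, rr M (κ s) ≠ 0) ∧ ∀ κ' ∈ IrrE M b, ∀ g, rr M (κ' g) = rr M (κ g) := by
  have hF : GoodF ℓ (FF M) := H50.fld ℓ hℓ.out M hM
  have hFH : Fintype H := Fintype.ofFinite H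
  have hn : V.Normal := ⟨fun n hn g => by
    have h1 := Subgroup.mem_center_iff.1 (hVc hn) g
    rw [h1, mul_assoc, mul_inv_cancel, mul_one]
    exact hn⟩
  obtain ⟨p, hpd⟩ : ∃ p : H →* H ⧸ V, p = QuotientGroup.mk' V := ⟨_, rfl⟩
  have hker : p.ker = V := by rw [hpd, QuotientGroup.ker_mk']
  have hp : Function.Surjective p := by rw [hpd]; exact QuotientGroup.mk'_surjective V
  have hkp : IsPGroup ℓ p.ker := by rw [hker]; exact hV.pg
  have hkc : p.ker ≤ Subgroup.center H := by rw [hker]; exact hVc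
  have hb' : IsBlk (H75.push p b) := psg ℓ (FF M) hF H (H ⧸ V) p hp hkc hkp b hb
  have wbo : WboStmt := H82W.wbo (H82.trb H53.tra)
  have hgood : ∀ Q : Subgroup (H ⧸ V), IsPGroup ℓ Q → Gd (H75.push p b) Q → Q = ⊥ := by
    intro Q hQ hQb
    have h1 : Q = (Q.comap p).map p := (Subgroup.map_comap_eq_self_of_surjective hp Q).symm
    have hcard : Nat.card (Q.comap p) = Nat.card V * Nat.card Q := by
      have := H75.card_comap (p := p) hp Q
      rw [this, hker]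
    have h2 : IsPGroup ℓ (Q.comap p) := by
      obtain ⟨n, hn⟩ := (IsPGroup.iff_card).1 hQ
      obtain ⟨m, hm⟩ := (IsPGroup.iff_card).1 hV.pg
      exact IsPGroup.of_card (n := m + n) (by rw [hcard, hn, hm, pow_add])
    have h3 : p.ker ≤ Q.comap p := by
      intro x hx
      rw [Subgroup.mem_comap, MonoidHom.mem_ker.1 hx]
      exact Q.one_mem
    rw [h1] at hQb
    have h4 := (H02.pug ℓ (FF M) hF H (H ⧸ V) p hp hkp b hb.1 _ h3 h2).2 hQb
    have h6 := hV.mx _ h2 h4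
    rw [hcard] at h6
    have h7 : 0 < Nat.card V := Nat.card_pos
    have h8 : 0 < Nat.card Q := Nat.card_pos
    have h9 : Nat.card Q = 1 := by
      have : Nat.card V * Nat.card Q ≤ Nat.card V * 1 := by rw [mul_one]; exact h6
      have := Nat.le_of_mul_le_mul_left this h7
      omega
    exact Subgroup.card_eq_one.1 h9
  obtain ⟨κ₀, hκ₀, hrc⟩ := H1.dzo wbo ℓ M hM (H ⧸ V) (H75.push p b) hb' hgood
  obtain ⟨hpsi1, hpsi2⟩ := H3.psi M H (H ⧸ V) p hp b hb.1.1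
  rw [hκ₀] at hpsi1
  have hκ₀B : κ₀ ∈ Irr (H ⧸ V) ∧ (fun a => κ₀ (p a)) ∈ IrrE M b := by
    have : κ₀ ∈ ({κ₀} : Set (H ⧸ V → ℂ)) := rfl
    rw [hpsi1] at this
    exact this
  have hκ1 : κ₀ 1 = c := by
    have h1 := hc.2 _ hκ₀B.2
    simpa using h1
  -- the degree
  have hcardV : (Nat.card H : ℂ) = Nat.card V * Nat.card (H ⧸ V) := by
    have h1 := Subgroup.card_eq_card_quotient_mul_card_subgroup V
    rw [h1]
    push_cast
    ring
  have hV0 : (Nat.card V : ℂ) ≠ 0 := Nat.cast_ne_zero.2 Nat.card_pos.ne'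
  have hB0 : (Nat.card (H ⧸ V) : ℂ) ≠ 0 := Nat.cast_ne_zero.2 Nat.card_pos.ne'
  have hq : ((Nat.card V * c : ℂ) / Nat.card H) ∈ RM M := by
    obtain ⟨P, hP⟩ : ∃ P : Sylow ℓ (H ⧸ V), P = default := ⟨_, rfl⟩
    obtain ⟨m, hm⟩ := mult_one (P : Subgroup (H ⧸ V)) hκ₀B.1
    have hFP : Fintype (P : Subgroup (H ⧸ V)) := Fintype.ofFinite _
    have hsum : ∑ᶠ x : (P : Subgroup (H ⧸ V)), κ₀ x = c := by
      rw [finsum_eq_sum_of_fintype, Finset.sum_eq_single (1 : (P : Subgroup (H ⧸ V)))]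
      · rw [Subgroup.coe_one]
        exact hκ1
      · intro x _ hx
        apply hrc.sg
        intro hreg
        apply hx
        obtain ⟨k, hk⟩ := P.isPGroup' x
        have h1 : orderOf (x : H ⧸ V) ∣ ℓ ^ k := by
          apply orderOf_dvd_of_pow_eq_one
          have := congrArg Subtype.val hk
          simpa using this
        have h2 : (orderOf (x : H ⧸ V)).Coprime (ℓ ^ k) := Nat.Coprime.pow_right k hreg
        have h3 : orderOf (x : H ⧸ V) = 1 := Nat.eq_one_of_dvd_coprimes h2 dvd_rfl h1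
        exact Subtype.ext (orderOf_eq_one_iff.1 h3)
      · intro h
        exact absurd (Finset.mem_univ _) h
    rw [hsum] at hm
    have hP0 : (Nat.card (P : Subgroup (H ⧸ V)) : ℂ) ≠ 0 := Nat.cast_ne_zero.2 Nat.card_pos.ne'
    have hidx : ¬ ℓ ∣ (P : Subgroup (H ⧸ V)).index := P.not_dvd_index
    have hcardP : (Nat.card (H ⧸ V) : ℂ) =
        Nat.card (P : Subgroup (H ⧸ V)) * (P : Subgroup (H ⧸ V)).index := by
      have := Subgroup.card_mul_index (P : Subgroup (H ⧸ V))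
      exact_mod_cast this.symm
    have hi0 : (((P : Subgroup (H ⧸ V)).index : ℕ) : ℂ) ≠ 0 := by
      intro h
      apply hB0
      rw [hcardP, h, mul_zero]
    have h1 : (Nat.card V * c : ℂ) / Nat.card H =
        (m : ℂ) * (((P : Subgroup (H ⧸ V)).index : ℕ) : ℂ)⁻¹ := by
      rw [← hm, hcardV, hcardP]
      field_simp
    rw [h1]
    exact (RM M).mul_mem (rr_nat m).1 (inv_nat_RM hℓ.out hM hidx)
  refine ⟨hq, ?_⟩
  -- the values at the regular elements
  have htop : Subgroup.centralizer (V : Set H) = ⊤ := by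
    rw [eq_top_iff]
    intro g _
    rw [Subgroup.mem_centralizer_iff]
    intro v hv
    exact (Subgroup.mem_center_iff.1 (hVc hv) g).symm
  have hbrb : br V b = b := funext fun x => H66.br_of_mem (by
    rw [htop]
    exact Subgroup.mem_top x)
  have hL : Ld ℓ b V b := by
    refine ⟨hb, hV, ?_, ⟨?_, ?_⟩, ?_⟩
    · intro a ha b hb
      exact (Subgroup.mem_center_iff.1 (hVc ha) b).symm
    · intro x hx
      rw [htop] at hx
      exact absurd (Subgroup.mem_top x) hx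
    · have h1 : ∀ C : Subgroup H, C = ⊤ → IsBlk (fun t : C => b t) := by
        rintro _ rfl
        exact H9.blk_tr Subgroup.topEquiv hb
      exact h1 _ htop
    · rw [hbrb]
      exact hb.1.2
  have hix : ix V b = 1 := by
    unfold ix
    rw [htop]
    exact Subgroup.relIndex_top_left _
  have hreg : ∀ κ ∈ IrrE M b, ∀ κ' ∈ IrrE M b, ∀ s : H, Reg ℓ s → κ s = κ' s :=
    rg1 ℓ M hM H b V b hL hix
  have hcard : (IrrE M b).ncard = Nat.card V := (cens ℓ M hM H b hb V hV hVc).2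
  intro κ hκ
  constructor
  · -- a value which is not zero
    obtain ⟨s, hs⟩ := Function.ne_iff.1 hb.2.1
    obtain ⟨hid1, -, -⟩ := H25.idm M H b hb.1
    have hsr : Reg ℓ s := by
      by_contra h
      apply hs
      rw [← (hid1 s).2, H25.eh_sing wbo ℓ M hM b hb.1 s h, rr_zero]
      rfl
    refine ⟨s⁻¹, fun h0 => hs ?_⟩
    have hsi : Reg ℓ s⁻¹ := by
      unfold Reg
      rw [orderOf_inv]
      exact hsr
    have h1 : eh M b s = ((Nat.card V * c : ℂ) / Nat.card H) * κ s⁻¹ := by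
      rw [K9.H25.eh_eq]
      have h2 : ∀ χ ∈ (K9.H25.irrE_finite M b).toFinset, χ 1 * χ s⁻¹ = (c : ℂ) * κ s⁻¹ := by
        intro χ hχ
        rw [Set.Finite.mem_toFinset] at hχ
        rw [hc.2 χ hχ, hreg χ hχ κ hκ _ hsi]
      rw [Finset.sum_congr rfl h2, Finset.sum_const, ← Set.ncard_eq_toFinset_card _
        (K9.H25.irrE_finite M b), hcard, nsmul_eq_mul, ← Nat.card_eq_fintype_card]
      ring
    rw [← (hid1 s).2, h1, rr_mul hq (RM_of_int (irr_integral hκ.1 _)), h0, mul_zero]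
    rfl
  · intro κ' hκ' g
    obtain ⟨N, hN0, -⟩ := H27.prt ℓ H
    obtain ⟨hs, n, hn⟩ := hN0 g
    have hcomm : Commute ((g ^ N)⁻¹) g := ((Commute.refl g).pow_left N).inv_left
    have h1 : g ^ ℓ ^ n = (g ^ N) ^ ℓ ^ n := by
      rw [hcomm.mul_pow, inv_pow] at hn
      exact (inv_mul_eq_one.1 hn).symm
    rw [rr_reg M hM hκ'.1 g (g ^ N) n h1, rr_reg M hM hκ.1 g (g ^ N) n h1,
      hreg κ' hκ' κ hκ _ hs]

theorem knz (rg1 : Rg1Stmt) (cens : T3.CenStmt) (psg : T3.PsgStmt) : KnzStmt := by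
  intro ℓ hℓ M _ hM G _ _ e V γ hL c hc
  have hF : GoodF ℓ (FF M) := H50.fld ℓ Fact.out M hM
  obtain ⟨C, hC⟩ : ∃ C : Subgroup G, C = Subgroup.centralizer (V : Set G) := ⟨_, rfl⟩
  have hVC : V ≤ C := by
    intro v hv
    rw [hC, Subgroup.mem_centralizer_iff]
    intro w hw
    exact hL.ab w hw v hv
  have hbx : Bx C γ := by rw [hC]; exact hL.gam
  have hVz : V.subgroupOf C ≤ Subgroup.center C := by
    intro v hv
    rw [Subgroup.mem_center_iff]
    intro g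
    have h1 : (g : G) ∈ Subgroup.centralizer (V : Set G) := by rw [← hC]; exact g.2
    exact Subtype.ext (Subgroup.mem_centralizer_iff.1 h1 v hv).symm
  have hVcard : Nat.card (V.subgroupOf C) = Nat.card V :=
    Nat.card_congr (Subgroup.subgroupOfEquivOfLe hVC).toEquiv
  have hbrcl : IsCl (fun t : C => br V e t) := by
    intro x y
    have h1 : ∀ t : C, br V e t = e t := fun t =>
      H66.br_of_mem (by rw [← hC]; exact t.2)
    have h2 := h1 (y * x * y⁻¹)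
    have h3 := h1 x
    change br V e ((y * x * y⁻¹ : C) : G) = br V e (x : G)
    rw [h2, h3]
    exact hL.blk.1.1 _ _
  have hmul : mulF (fun t : C => br V e t) (fun t : C => γ t) = fun t : C => γ t := by
    have hs : ∀ x, x ∉ C → br V e x = 0 := fun x hx => H66.br_of_not_mem (by rw [← hC]; exact hx)
    rw [← mulF_res C γ hs, hL.und]
  have hT : Tp ℓ (fun t : C => γ t) (V.subgroupOf C) := by
    refine ⟨hL.tp.pg.of_equiv (Subgroup.subgroupOfEquivOfLe hVC).symm, ?_, ?_⟩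
    · have hne : (fun t : C => γ t) ≠ 0 := hbx.blk.2.1
      obtain ⟨t, ht⟩ := Function.ne_iff.1 hne
      refine ⟨t, ?_, ht⟩
      rw [Subgroup.mem_centralizer_iff]
      intro v hv
      exact (Subgroup.mem_center_iff.1 (hVz hv) t).symm
    · intro Q hQ hQg
      have h1 := gd_of_mul hF hbrcl hbx.blk.1.1 hmul hQ hQg
      have h2 : Gd (fun t : C => e t) Q := by
        obtain ⟨g, hg1, hg2⟩ := h1
        refine ⟨g, hg1, ?_⟩
        change br V e (g : G) ≠ 0 at hg2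
        rw [H66.br_of_mem (by rw [← hC]; exact g.2)] at hg2
        exact hg2
      have hcard : Nat.card (Q.map C.subtype) = Nat.card Q :=
        (Nat.card_congr (Q.equivMapOfInjective C.subtype C.subtype_injective).toEquiv).symm
      have h3 := hL.tp.mx _ (hQ.map C.subtype) (gd_map h2)
      rw [hcard] at h3
      rw [hVcard]
      exact h3
  subst hC
  have h1 := knz_cen rg1 cens psg ℓ M hM _ _ hbx.blk _ hT hVz c hc
  rw [hVcard] at h1
  exact h1

end Pool.Agent.PP.T8.H87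
end
end -- Pool.Agent.Helper87_AT8.KNZ

section -- Pool.Agent.Helper49_AT3.PRM

/-! Squad AT3, row PRM: existence of the exponent `N`. -/

open scoped BigOperators

noncomputable section

namespace Pool.Agent.PP.T3.H49

open Pool.Agent.Helper51_AWC Pool.Agent.Helper79_WRA Pool.Agent.PP Pool.Agent.PP.KF
open Pool.Agent.PP.K9 Pool.Agent.PP.K9.H97 Pool.Agent.PP.H75

theorem prm : PrmStmt := by
  intro ℓ hℓ hℓ2 G _ _
  have hp : ℓ.Prime := hℓ.out
  set n := Nat.card G with hn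
  have hn0 : n ≠ 0 := Nat.card_pos.ne'
  set a := n.factorization ℓ with ha
  set m := n / ℓ ^ a with hm
  have hnm : ℓ ^ a * m = n := Nat.ordProj_mul_ordCompl_eq_self n ℓ
  have hcop : Nat.Coprime ℓ m := Nat.coprime_ordCompl hp hn0
  have hc2 : Nat.Coprime (ℓ ^ (a + 1)) m := Nat.Coprime.pow_left _ hcop
  haveI : NeZero (ℓ ^ (a + 1)) := ⟨pow_ne_zero _ hp.ne_zero⟩
  haveI : NeZero ℓ := ⟨hp.ne_zero⟩
  haveI := ZMod.isCyclic_units_of_prime_pow ℓ hp hℓ2 (a + 1)
  obtain ⟨t, ht⟩ := IsCyclic.exists_generator (α := (ZMod (ℓ ^ (a + 1)))ˣ)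
  obtain ⟨N, hN1, hN2⟩ := Nat.chineseRemainder hc2 (t : ZMod (ℓ ^ (a + 1))).val 1
  have hNt : ((N : ℕ) : ZMod (ℓ ^ (a + 1))) = t := by
    have := (ZMod.natCast_eq_natCast_iff _ _ _).2 hN1
    rw [this, ZMod.natCast_zmod_val]
  have hNl : Nat.Coprime N (ℓ ^ (a + 1)) := by
    rw [← ZMod.isUnit_iff_coprime, hNt]
    exact t.isUnit
  have hNl1 : Nat.Coprime N ℓ := Nat.Coprime.coprime_dvd_right (dvd_pow_self ℓ (by omega)) hNl
  have hNm : Nat.Coprime N m := by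
    have := hN2.gcd_eq
    rw [Nat.gcd_one_left] at this
    exact this
  -- order of an element of order prime to ℓ
  refine ⟨N, ?_, ?_, ?_, ?_⟩
  · rw [← hn, ← hnm]
    exact Nat.Coprime.mul_right (Nat.Coprime.pow_right _ hNl1) hNm
  · intro g hg
    have h1 : orderOf g ∣ m := by
      have h2 : orderOf g ∣ ℓ ^ a * m := by
        rw [hnm]
        exact orderOf_dvd_natCard g
      exact (Nat.Coprime.pow_right a hg).dvd_of_dvd_mul_left h2
    have h2 : g ^ N = g ^ 1 := pow_eq_pow_iff_modEq.2 (hN2.of_dvd h1)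
    rw [h2, pow_one]
  · intro j hj
    have hjc : Nat.Coprime j (ℓ ^ (a + 1)) := by
      apply Nat.Coprime.pow_right
      exact ((Nat.Prime.coprime_iff_not_dvd hp).2 hj).symm
    obtain ⟨u, hu⟩ := (ZMod.isUnit_iff_coprime j (ℓ ^ (a + 1))).2 hjc
    obtain ⟨k, hk⟩ := (mem_powers_iff_mem_zpowers.2 (ht u))
    refine ⟨k, fun y hy => ?_⟩
    have h1 : N ^ k ≡ j [MOD ℓ ^ (a + 1)] := by
      rw [← ZMod.natCast_eq_natCast_iff, Nat.cast_pow, hNt, ← hu, ← hk]
      simp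
    have h2 : orderOf y ∣ ℓ ^ (a + 1) := by
      obtain ⟨i, hi⟩ := hy
      have h3 : orderOf y ∣ ℓ ^ i := orderOf_dvd_of_pow_eq_one hi
      have h4 : orderOf y ∣ ℓ ^ a * m := by
        rw [hnm]
        exact orderOf_dvd_natCard y
      have h5 : Nat.Coprime (orderOf y) m :=
        Nat.Coprime.coprime_dvd_left h3 (Nat.Coprime.pow_left _ hcop)
      exact (h5.dvd_of_dvd_mul_right h4).trans (pow_dvd_pow _ (by omega))
    exact pow_eq_pow_iff_modEq.2 (h1.of_dvd h2)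
  · intro k hk0 hk h
    have hd : ℓ ∣ ℓ ^ (a + 1) := dvd_pow_self ℓ (by omega)
    have hs := ZMod.unitsMap_surjective hd
    have hgen : ∀ x : (ZMod ℓ)ˣ, x ∈ Subgroup.zpowers (ZMod.unitsMap hd t) := by
      intro x
      obtain ⟨y, rfl⟩ := hs x
      obtain ⟨i, hi⟩ := ht y
      refine ⟨i, ?_⟩
      rw [← hi]
      simp
    have ho : orderOf (ZMod.unitsMap hd t) = ℓ - 1 := by
      rw [orderOf_eq_card_of_forall_mem_zpowers hgen, Nat.card_eq_fintype_card, ZMod.card_units]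
    have h1 : (ZMod.unitsMap hd t) ^ k = 1 := by
      ext
      rw [Units.val_pow_eq_pow_val, Units.val_one]
      have h2 : ((ZMod.unitsMap hd t : (ZMod ℓ)ˣ) : ZMod ℓ) = (N : ZMod ℓ) := by
        rw [ZMod.unitsMap_val, ← hNt]
        simp
      rw [h2, ← Nat.cast_pow, ← Nat.cast_one]
      exact (ZMod.natCast_eq_natCast_iff _ _ _).2 h
    have h3 : ℓ - 1 ∣ k := by
      rw [← ho]
      exact orderOf_dvd_of_pow_eq_one h1
    have := Nat.le_of_dvd hk0 h3
    omega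

end Pool.Agent.PP.T3.H49
end
end -- Pool.Agent.Helper49_AT3.PRM

section -- Pool.Agent.Helper72_AT3.ARI

/-!
# ARI: the arithmetic lemma
-/

set_option autoImplicit false

open scoped BigOperators

namespace Pool.Agent.PP.T3.H72

/-- no entry is divisible by `ℓ` -/
theorem ari_nd {ℓ K : ℕ} {ρ ι : Type} [Fintype ρ] [Fintype ι] {a : ρ → ι → ℤ} (h3 : 3 ≤ ℓ)
    (hK : 2 * K < ℓ * Fintype.card ι) (hne : ∀ r i, a r i ≠ 0)
    (hcong : ∀ r i i', (ℓ : ℤ) ∣ a r i - a r i') (hrow : ∀ r, ∑ i, (a r i) ^ 2 ≤ (K : ℤ)) :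
    ∀ r i, ¬ (ℓ : ℤ) ∣ a r i := by
  intro r i hd
  have hL : (3 : ℤ) ≤ (ℓ : ℤ) := by exact_mod_cast h3
  have h1 : ∀ i', (ℓ : ℤ) ^ 2 ≤ (a r i') ^ 2 := by
    intro i'
    have hd' : (ℓ : ℤ) ∣ a r i' := by
      have := dvd_sub hd (hcong r i i')
      rwa [sub_sub_cancel] at this
    have h2 : (ℓ : ℤ) ≤ |a r i'| :=
      Int.le_of_dvd (abs_pos.2 (hne r i')) ((dvd_abs _ _).2 hd')
    rw [← sq_abs (a r i')]
    exact pow_le_pow_left₀ (by linarith) h2 2
  have h2 : (Fintype.card ι : ℤ) * (ℓ : ℤ) ^ 2 ≤ (K : ℤ) := by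
    refine le_trans ?_ (hrow r)
    calc (Fintype.card ι : ℤ) * (ℓ : ℤ) ^ 2 = ∑ _i' : ι, (ℓ : ℤ) ^ 2 := by
          rw [Finset.sum_const, Finset.card_univ, nsmul_eq_mul]
      _ ≤ _ := Finset.sum_le_sum fun i' _ => h1 i'
  have h4 : (2 : ℤ) * K < ℓ * Fintype.card ι := by exact_mod_cast hK
  have hn : (0 : ℤ) ≤ (Fintype.card ι : ℤ) := Int.natCast_nonneg _
  nlinarith [mul_nonneg hn (mul_nonneg (by linarith : (0 : ℤ) ≤ (ℓ : ℤ))
    (by linarith : (0 : ℤ) ≤ 2 * (ℓ : ℤ) - 1))]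

/-- the sign and the residue of a row -/
theorem ari_st {ℓ : ℕ} (h3 : 3 ≤ ℓ) (hodd : Odd ℓ) {ι : Type} (b : ι → ℤ) (i0 : ι)
    (hnd : ¬ (ℓ : ℤ) ∣ b i0) (hcong : ∀ i, (ℓ : ℤ) ∣ b i0 - b i) :
    ∃ s t : ℤ, s ^ 2 = 1 ∧ 1 ≤ t ∧ 2 * t < ℓ ∧ ∀ i, (ℓ : ℤ) ∣ t - s * b i := by
  have hL : (3 : ℤ) ≤ (ℓ : ℤ) := by exact_mod_cast h3
  have hL0 : (ℓ : ℤ) ≠ 0 := by linarith
  set c : ℤ := b i0 % ℓ with hc
  have hc0 : 0 ≤ c := Int.emod_nonneg _ hL0
  have hc1 : c < ℓ := Int.emod_lt_of_pos _ (by linarith)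
  have hc2 : c ≠ 0 := fun h => hnd (Int.dvd_of_emod_eq_zero h)
  have hdc : (ℓ : ℤ) ∣ b i0 - c := Int.dvd_self_sub_emod
  have hd : ∀ i, (ℓ : ℤ) ∣ b i - c := by
    intro i
    have := dvd_sub hdc (hcong i)
    have e : b i0 - c - (b i0 - b i) = b i - c := by ring
    rwa [e] at this
  obtain ⟨q, hq⟩ := hodd
  have hqz : (ℓ : ℤ) = 2 * q + 1 := by exact_mod_cast hq
  by_cases h : 2 * c < ℓ
  · refine ⟨1, c, by norm_num, by omega, h, fun i => ?_⟩
    have := (dvd_neg (α := ℤ)).2 (hd i)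
    have e : -(b i - c) = c - 1 * b i := by ring
    rwa [e] at this
  · refine ⟨-1, ℓ - c, by norm_num, by omega, by omega, fun i => ?_⟩
    have := dvd_add (dvd_refl (ℓ : ℤ)) (hd i)
    have e : (ℓ : ℤ) + (b i - c) = ℓ - c - -1 * b i := by ring
    rwa [e] at this

theorem ari_sq (L T J : ℤ) (_hL : 0 ≤ L) : T ^ 2 - (2 * T - L) * L * J ≤ (T - L * J) ^ 2 := by
  have h : J ≤ J ^ 2 := by
    rcases le_or_gt J 0 with h | h
    · exact h.trans (sq_nonneg J)
    · nlinarith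
  nlinarith [mul_nonneg (sq_nonneg L) (sub_nonneg.2 h)]

theorem ari_sq2 (L T J : ℤ) (hT : 0 ≤ T) (hTL : 2 * T ≤ L) : T ^ 2 ≤ (T - L * J) ^ 2 := by
  have hL : 0 ≤ L := by linarith
  rcases le_or_gt J 0 with h | h
  · have h1 : T ≤ T - L * J := by nlinarith
    nlinarith
  · have h1 : L ≤ L * J := by nlinarith
    nlinarith

/-- the sum over one row -/
theorem ari_row {L K n t S : ℤ} (hL : 3 ≤ L) (hn : 0 ≤ n) (hK : 2 * K < L * n) (ht : 1 ≤ t)
    (htL : 2 * t < L) (h : n * t ^ 2 + (L - 2 * t) * L * S ≤ K) : (L - 2) * L * S ≤ K - n := by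
  have e1 : (K - n) * (L - 2 * t) - (K - n * t ^ 2) * (L - 2) =
      (t - 1) * (n * (L * (t + 1) - 2 * t) - 2 * K) := by ring
  have e2 : 0 ≤ (t - 1) * (n * (L * (t + 1) - 2 * t) - 2 * K) := by
    refine mul_nonneg (by linarith) ?_
    have h1 : n * L ≤ n * (L * (t + 1) - 2 * t) := by
      refine mul_le_mul_of_nonneg_left ?_ hn
      nlinarith
    nlinarith
  have h2 : (L - 2 * t) * L * S ≤ K - n * t ^ 2 := by linarith
  have h3 : (L - 2) * ((L - 2 * t) * L * S) ≤ (L - 2) * (K - n * t ^ 2) :=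
    mul_le_mul_of_nonneg_left h2 (by linarith)
  have h4 : (L - 2 * t) * ((L - 2) * L * S) ≤ (L - 2 * t) * (K - n) := by
    have e3 : (L - 2 * t) * ((L - 2) * L * S) = (L - 2) * ((L - 2 * t) * L * S) := by ring
    rw [e3]
    linarith [mul_comm (L - 2 * t) (K - n), mul_comm (L - 2) (K - n * t ^ 2)]
  exact le_of_mul_le_mul_left h4 (by linarith)

/-- the final contradiction in the case `ℓ < 2 T` -/
theorem ari_fin {L K n R T : ℤ} (hL : 3 ≤ L) (hn : 0 < n) (hK0 : 0 ≤ K) (hK : 2 * K < L * n)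
    (hR : 0 < R) (hRT : R ≤ T) (hT : L < 2 * T)
    (h : (L - 2) * n * T ^ 2 - (2 * T - L) * (R * (K - n)) ≤ (L - 2) * (K * R)) : False := by
  have hb : 0 < (L - 1) * n - K := by nlinarith
  by_cases hc : L ≤ 2 * R
  · have e1 : (L - 2) * n * T ^ 2 - (2 * T - L) * (R * (K - n)) - (L - 2) * (K * R) =
        (T - R) * ((L - 2) * n * (T + R) - 2 * R * (K - n)) + R * (R - 1) * (L * n - 2 * K) := by
      ring
    have h1 : 0 ≤ (T - R) * ((L - 2) * n * (T + R) - 2 * R * (K - n)) := by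
      refine mul_nonneg (by linarith) ?_
      have h2 : (L - 2) * n * (2 * R) ≤ (L - 2) * n * (T + R) :=
        mul_le_mul_of_nonneg_left (by linarith) (mul_nonneg (by linarith) hn.le)
      nlinarith [mul_pos hR hb]
    have h3 : 0 < R * (R - 1) * (L * n - 2 * K) :=
      mul_pos (mul_pos hR (by linarith)) (by linarith)
    linarith
  · push Not at hc
    have e1 : 4 * ((L - 2) * n * T ^ 2 - (2 * T - L) * (R * (K - n)) - (L - 2) * (K * R)) =
        (2 * T - L) * ((L - 2) * n * (2 * T + L) - 4 * R * (K - n)) +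
          (L - 2) * (n * L ^ 2 - 4 * (K * R)) := by ring
    have h1 : 0 < (2 * T - L) * ((L - 2) * n * (2 * T + L) - 4 * R * (K - n)) := by
      refine mul_pos (by linarith) ?_
      have h2 : (L - 2) * n * (4 * R) ≤ (L - 2) * n * (2 * T + L) :=
        mul_le_mul_of_nonneg_left (by linarith) (mul_nonneg (by linarith) hn.le)
      nlinarith [mul_pos hR hb]
    have h3 : 0 ≤ (L - 2) * (n * L ^ 2 - 4 * (K * R)) := by
      refine mul_nonneg (by linarith) ?_
      have h4 : K * (2 * R) ≤ K * L := mul_le_mul_of_nonneg_left hc.le hK0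
      have h5 : 2 * K * L ≤ L * n * L := mul_le_mul_of_nonneg_right hK.le (by linarith)
      nlinarith
    linarith

/-- ARI -/
theorem ari : AriStmt := by
  classical
  intro ℓ K ρ ι _ _ a h3 hodd hK hne hcong hs
  rcases Nat.eq_zero_or_pos (Fintype.card ρ) with hR0 | hR0
  · rw [hR0, zero_mul]
    exact Nat.zero_le _
  have hn0 : 0 < Fintype.card ι := by
    rcases Nat.eq_zero_or_pos (Fintype.card ι) with h | h
    · rw [h, mul_zero] at hK
      omega
    · exact h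
  obtain ⟨i0⟩ := Fintype.card_pos_iff.1 hn0
  have hrow : ∀ r, ∑ i, (a r i) ^ 2 ≤ (K : ℤ) := by
    intro r
    have h := hs (Pi.single r 1)
    have e1 : ∀ i, ∑ r', (Pi.single r 1 : ρ → ℤ) r' * a r' i = a r i := by
      intro i
      rw [Finset.sum_eq_single r]
      · rw [Pi.single_eq_same, one_mul]
      · intro r' _ hr'
        rw [Pi.single_eq_of_ne hr', zero_mul]
      · intro hr
        exact absurd (Finset.mem_univ r) hr
    have e2 : ∑ r', ((Pi.single r 1 : ρ → ℤ) r') ^ 2 = 1 := by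
      rw [Finset.sum_eq_single r]
      · rw [Pi.single_eq_same, one_pow]
      · intro r' _ hr'
        rw [Pi.single_eq_of_ne hr']
        norm_num
      · intro hr
        exact absurd (Finset.mem_univ r) hr
    simp only [e1, e2, mul_one] at h
    exact h
  have hnd := ari_nd h3 hK hne hcong hrow
  have hst : ∀ r, ∃ s t : ℤ, s ^ 2 = 1 ∧ 1 ≤ t ∧ 2 * t < ℓ ∧ ∀ i, (ℓ : ℤ) ∣ t - s * a r i :=
    fun r => ari_st h3 hodd (a r) i0 (hnd r i0) fun i => hcong r i0 i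
  choose s t hs1 ht1 ht2 hdv using hst
  choose j hj using hdv
  set L : ℤ := (ℓ : ℤ) with hLdef
  set n : ℤ := (Fintype.card ι : ℤ) with hndef
  set R : ℤ := (Fintype.card ρ : ℤ) with hRdef
  have hL : 3 ≤ L := by rw [hLdef]; exact_mod_cast h3
  have hn : 0 < n := by rw [hndef]; exact_mod_cast hn0
  have hR : 0 < R := by rw [hRdef]; exact_mod_cast hR0
  have hKz : 2 * (K : ℤ) < L * n := by rw [hLdef, hndef]; exact_mod_cast hK
  have hK0 : (0 : ℤ) ≤ (K : ℤ) := Int.natCast_nonneg _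
  set T : ℤ := ∑ r, t r with hTdef
  have hRT : R ≤ T := by
    rw [hRdef, hTdef]
    calc (Fintype.card ρ : ℤ) = ∑ _r : ρ, (1 : ℤ) := by
          rw [Finset.sum_const, Finset.card_univ, nsmul_eq_mul, mul_one]
      _ ≤ _ := Finset.sum_le_sum fun r _ => ht1 r
  have hsa : ∀ r i, s r * a r i = t r - L * j r i := by
    intro r i
    have := hj r i
    linarith
  have hcol : ∀ i, ∑ r, s r * a r i = T - L * ∑ r, j r i := by
    intro i
    rw [Finset.sum_congr rfl fun r _ => hsa r i, Finset.sum_sub_distrib, ← Finset.mul_sum]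
  have hmain : ∑ i, (T - L * ∑ r, j r i) ^ 2 ≤ (K : ℤ) * R := by
    have h := hs s
    have e1 : ∑ r, s r ^ 2 = R := by
      rw [Finset.sum_congr rfl fun r _ => hs1 r, Finset.sum_const, Finset.card_univ, nsmul_eq_mul,
        mul_one]
    rw [e1] at h
    rwa [Finset.sum_congr rfl fun i _ => by rw [hcol i]] at h
  have hsum_const : ∀ c : ℤ, ∑ _i : ι, c = n * c := by
    intro c
    rw [Finset.sum_const, Finset.card_univ, nsmul_eq_mul]
  have goalz : R * n ≤ (K : ℤ) := by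
    by_cases hT : 2 * T ≤ L
    · have h1 : n * T ^ 2 ≤ (K : ℤ) * R := by
        refine le_trans ?_ hmain
        rw [← hsum_const]
        exact Finset.sum_le_sum fun i _ => ari_sq2 L T _ (by linarith) hT
      have hT0 : 0 < T := by linarith
      have h2 : (n * T) * T ≤ (K : ℤ) * T := by
        calc (n * T) * T = n * T ^ 2 := by ring
          _ ≤ (K : ℤ) * R := h1
          _ ≤ (K : ℤ) * T := mul_le_mul_of_nonneg_left hRT hK0
      have h4 : n * T ≤ (K : ℤ) := le_of_mul_le_mul_right h2 hT0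
      have h5 : n * R ≤ n * T := mul_le_mul_of_nonneg_left hRT hn.le
      linarith [mul_comm n R]
    · exfalso
      push Not at hT
      -- the sum over the rows
      have hrs : ∀ r, (L - 2) * L * ∑ i, j r i ≤ (K : ℤ) - n := by
        intro r
        refine ari_row hL hn.le hKz (ht1 r) (ht2 r) ?_
        have h1 : ∑ i, (t r ^ 2 - (2 * t r - L) * L * j r i) ≤ (K : ℤ) := by
          refine le_trans (Finset.sum_le_sum fun i _ => ?_) (hrow r)
          have h2 : (a r i) ^ 2 = (t r - L * j r i) ^ 2 := by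
            rw [← hsa r i, mul_pow, hs1 r, one_mul]
          rw [h2]
          exact ari_sq L (t r) (j r i) (by linarith)
        rw [Finset.sum_sub_distrib, hsum_const, ← Finset.mul_sum] at h1
        have e : n * t r ^ 2 + (L - 2 * t r) * L * ∑ i, j r i =
            n * t r ^ 2 - (2 * t r - L) * L * ∑ i, j r i := by ring
        rw [e]
        exact h1
      have hJ : (L - 2) * L * ∑ i, ∑ r, j r i ≤ R * ((K : ℤ) - n) := by
        rw [Finset.sum_comm, Finset.mul_sum]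
        calc ∑ r, (L - 2) * L * ∑ i, j r i ≤ ∑ _r : ρ, ((K : ℤ) - n) :=
              Finset.sum_le_sum fun r _ => hrs r
          _ = R * ((K : ℤ) - n) := by
              rw [Finset.sum_const, Finset.card_univ, nsmul_eq_mul]
      have h2 : n * T ^ 2 - (2 * T - L) * L * ∑ i, ∑ r, j r i ≤ (K : ℤ) * R := by
        refine le_trans (le_of_eq ?_) (le_trans (Finset.sum_le_sum fun i _ =>
          ari_sq L T (∑ r, j r i) (by linarith)) hmain)
        rw [Finset.sum_sub_distrib, hsum_const, ← Finset.mul_sum]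
      refine ari_fin hL hn hK0 hKz hR hRT hT ?_
      have h5 : (2 * T - L) * ((L - 2) * L * ∑ i, ∑ r, j r i) ≤
          (2 * T - L) * (R * ((K : ℤ) - n)) :=
        mul_le_mul_of_nonneg_left hJ (by linarith)
      have h6 : (L - 2) * (n * T ^ 2 - (2 * T - L) * L * ∑ i, ∑ r, j r i) ≤
          (L - 2) * ((K : ℤ) * R) := mul_le_mul_of_nonneg_left h2 (by linarith)
      have e7 : (L - 2) * (n * T ^ 2 - (2 * T - L) * L * ∑ i, ∑ r, j r i) =
          (L - 2) * n * T ^ 2 - (2 * T - L) * ((L - 2) * L * ∑ i, ∑ r, j r i) := by ring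
      rw [e7] at h6
      linarith
  have hfin : ((Fintype.card ρ * Fintype.card ι : ℕ) : ℤ) ≤ ((K : ℕ) : ℤ) := by
    push_cast
    exact goalz
  exact_mod_cast hfin

end Pool.Agent.PP.T3.H72
end -- Pool.Agent.Helper72_AT3.ARI

section -- Pool.Agent.Helper89_AT3.CYC

/-!
# Squad AT3, row CYC: half a transversal for a permutation of prime power order
-/

set_option autoImplicit false

namespace Pool.Agent.PP.T3.H89

open Pool.Agent.PP.T3

section

variable {X : Type} (σ : Equiv.Perm X)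

theorem dvd_of_fix (ℓ : ℕ) (hℓ : ℓ.Prime) (n : ℕ) (hσ : σ ^ ℓ ^ n = 1) (y : X) (hy : σ y ≠ y)
    (m : ℕ) (h : (σ ^ m) y = y) : ℓ ∣ m := by
  have h1 : Function.minimalPeriod σ y ∣ m := by
    refine Function.IsPeriodicPt.minimalPeriod_dvd ?_
    show (σ : X → X)^[m] y = y
    rw [Equiv.Perm.iterate_eq_pow]
    exact h
  have h2 : Function.minimalPeriod σ y ∣ ℓ ^ n := by
    refine Function.IsPeriodicPt.minimalPeriod_dvd ?_
    show (σ : X → X)^[ℓ ^ n] y = y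
    rw [Equiv.Perm.iterate_eq_pow, hσ]
    rfl
  obtain ⟨j, -, hj⟩ := (Nat.dvd_prime_pow hℓ).1 h2
  have h3 : j ≠ 0 := by
    rintro rfl
    rw [pow_zero] at hj
    exact hy (Function.minimalPeriod_eq_one_iff_isFixedPt.1 hj)
  rw [hj] at h1
  exact (dvd_pow_self ℓ h3).trans h1

theorem mod_of_eq (ℓ : ℕ) (hℓ : ℓ.Prime) (n : ℕ) (hσ : σ ^ ℓ ^ n = 1) (y : X) (hy : σ y ≠ y)
    (a b : ℕ) (h : (σ ^ a) y = (σ ^ b) y) (ha : ℓ ∣ a) : ℓ ∣ b := by
  rcases le_total a b with hab | hab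
  · obtain ⟨d, rfl⟩ := Nat.exists_eq_add_of_le hab
    rw [pow_add, Equiv.Perm.mul_apply] at h
    have h1 := (σ ^ a).injective h
    exact dvd_add ha (dvd_of_fix σ ℓ hℓ n hσ y hy d h1.symm)
  · obtain ⟨d, rfl⟩ := Nat.exists_eq_add_of_le hab
    rw [pow_add, Equiv.Perm.mul_apply] at h
    have h1 := (σ ^ b).injective h
    exact (Nat.dvd_add_left (dvd_of_fix σ ℓ hℓ n hσ y hy d h1)).1 ha

end

/-- CYC -/
theorem cyc : CycStmt := by
  classical
  intro ℓ hℓ X _ σ n hσ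
  have hp : ℓ.Prime := hℓ.out
  let r : X → X := fun x => (Quotient.mk (Equiv.Perm.SameCycle.setoid σ) x).out
  have hr1 : ∀ x, Equiv.Perm.SameCycle σ (r x) x := fun x => Quotient.mk_out
    (s := Equiv.Perm.SameCycle.setoid σ) x
  have hr2 : ∀ x (i : ℕ), r ((σ ^ i) x) = r x := by
    intro x i
    have h1 : Quotient.mk (Equiv.Perm.SameCycle.setoid σ) ((σ ^ i) x) =
        Quotient.mk (Equiv.Perm.SameCycle.setoid σ) x :=
      Quotient.sound (s := Equiv.Perm.SameCycle.setoid σ)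
        (show Equiv.Perm.SameCycle σ ((σ ^ i) x) x from
          ⟨-(i : ℤ), by rw [← Equiv.Perm.mul_apply, ← zpow_natCast, ← zpow_add]; simp⟩)
    exact congrArg Quotient.out h1
  have hfo : IsOfFinOrder σ := isOfFinOrder_iff_pow_eq_one.2 ⟨ℓ ^ n, pow_pos hp.pos n, hσ⟩
  have hr3 : ∀ x, ∃ k : ℕ, (σ ^ k) (r x) = x := by
    intro x
    obtain ⟨z, hz⟩ := hr1 x
    have h1 : σ ^ z ∈ Submonoid.powers σ := by
      rw [hfo.mem_powers_iff_mem_zpowers]
      exact ⟨z, rfl⟩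
    obtain ⟨k, hk⟩ := h1
    refine ⟨k, ?_⟩
    have hk' : σ ^ k = σ ^ z := hk
    rw [hk']
    exact hz
  have hfix : ∀ x (i : ℕ), σ ((σ ^ i) x) = (σ ^ i) x ↔ σ x = x := by
    intro x i
    have h1 : σ ((σ ^ i) x) = (σ ^ i) (σ x) := by
      rw [← Equiv.Perm.mul_apply, ← Equiv.Perm.mul_apply, ← pow_succ', ← pow_succ]
    rw [h1]
    exact (σ ^ i).injective.eq_iff
  let c : X → ℕ := fun x => if σ x ≠ x ∧ ∃ k : ℕ, ℓ ∣ k ∧ (σ ^ k) (r x) = x then 1 else 0
  -- the values of `c`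
  have hc : ∀ x (k : ℕ), (σ ^ k) (r x) = x → σ x ≠ x → ∀ i : ℕ,
      c ((σ ^ i) x) = if ℓ ∣ i + k then 1 else 0 := by
    intro x k hk hx i
    have hrx : σ (r x) ≠ r x := by
      intro h
      apply hx
      have h2 := (hfix (r x) k).2 h
      rw [hk] at h2
      exact h2
    have e1 : (σ ^ (i + k)) (r x) = (σ ^ i) x := by
      rw [pow_add, Equiv.Perm.mul_apply, hk]
    show (if σ ((σ ^ i) x) ≠ (σ ^ i) x ∧ ∃ k' : ℕ, ℓ ∣ k' ∧
      (σ ^ k') (r ((σ ^ i) x)) = (σ ^ i) x then 1 else 0) = _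
    rw [hr2 x i]
    by_cases hd : ℓ ∣ i + k
    · rw [if_pos hd, if_pos]
      exact ⟨fun h => hx ((hfix x i).1 h), i + k, hd, e1⟩
    · rw [if_neg hd, if_neg]
      rintro ⟨-, k', hk', h'⟩
      rw [← e1] at h'
      exact hd (mod_of_eq σ ℓ hp n hσ (r x) hrx k' (i + k) h' hk')
  refine ⟨c, fun x => ?_, fun x => ?_, fun x hx => ?_⟩
  · show (if _ then 1 else 0) = 0 ∨ (if _ then 1 else 0) = 1
    split_ifs
    · exact Or.inr rfl
    · exact Or.inl rfl
  · by_cases hx : σ x = x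
    · have h1 : σ ((σ ^ ℓ) x) = (σ ^ ℓ) x := (hfix x ℓ).2 hx
      show (if _ then 1 else 0) = (if _ then 1 else 0)
      rw [if_neg (fun h => h.1 h1), if_neg (fun h => h.1 hx)]
    · obtain ⟨k, hk⟩ := hr3 x
      have h1 := hc x k hk hx ℓ
      have h2 := hc x k hk hx 0
      rw [pow_zero, Equiv.Perm.one_apply, zero_add] at h2
      rw [h1, h2]
      have h3 : (ℓ ∣ ℓ + k) ↔ (ℓ ∣ k) := Nat.dvd_add_right (dvd_refl ℓ)
      by_cases h4 : ℓ ∣ k
      · rw [if_pos h4, if_pos (h3.2 h4)]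
      · rw [if_neg h4, if_neg (fun h => h4 (h3.1 h))]
  · obtain ⟨k, hk⟩ := hr3 x
    rw [Finset.sum_congr rfl (fun i _ => hc x k hk hx i)]
    have hpos : 0 < ℓ := hp.pos
    rw [Finset.sum_eq_single ((ℓ - k % ℓ) % ℓ)]
    · rw [if_pos]
      have h1 : k % ℓ < ℓ := Nat.mod_lt _ hpos
      rw [Nat.dvd_iff_mod_eq_zero, Nat.mod_add_mod]
      have h2 : ℓ - k % ℓ + k = ℓ + ℓ * (k / ℓ) := by
        have := Nat.mod_add_div k ℓ
        omega
      rw [h2]
      simp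
    · intro b hb hne
      rw [if_neg]
      intro hd
      apply hne
      have hb' := Finset.mem_range.1 hb
      have h1 : k % ℓ < ℓ := Nat.mod_lt _ hpos
      have h3 : (b + k % ℓ) % ℓ = 0 := by
        rw [Nat.add_mod_mod]
        exact Nat.mod_eq_zero_of_dvd hd
      have h4 : b + k % ℓ < 2 * ℓ := by omega
      obtain ⟨q, hq⟩ := Nat.dvd_of_mod_eq_zero h3
      have h5 : q < 2 := by
        by_contra hcon
        have : 2 ≤ q := by omega
        have := Nat.mul_le_mul_left ℓ this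
        omega
      interval_cases q
      · have : b = 0 ∧ k % ℓ = 0 := by omega
        rw [this.1, this.2]
        simp
      · have h6 : b = ℓ - k % ℓ := by omega
        rw [← h6, Nat.mod_eq_of_lt hb']
    · intro h
      exact absurd (Finset.mem_range.2 (Nat.mod_lt _ hpos)) h

end Pool.Agent.PP.T3.H89
end -- Pool.Agent.Helper89_AT3.CYC

section -- Pool.Agent.Helper8_PFC.LPB

/-!
# Squad PFC, row LPB: the local algebras
-/

open scoped BigOperators

noncomputable section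

namespace Pool.Agent.PFC.H8

open Pool.Agent.Helper51_AWC Pool.Agent.Helper79_WRA Pool.Agent.PP Pool.Agent.PP.KF
open Pool.Agent.PP.K9 Pool.Agent.PP.K9.H97 Pool.Agent.PP.H75 Pool.Agent.PP.T3

attribute [local instance] Ideal.Quotient.field

/-- the residue of a character is a class function which depends only on the regular part -/
theorem rr_TT {ℓ : ℕ} [Fact ℓ.Prime] (M : Ideal (integralClosure ℤ ℂ)) [M.IsMaximal]
    (hM : (ℓ : integralClosure ℤ ℂ) ∈ M) {H : Type} [Group H] [Finite H] {χ : H → ℂ}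
    (hχ : χ ∈ Irr H) : (fun h => rr M (χ h)) ∈ TT (FF M) H ℓ := by
  refine ⟨fun x y => ?_, fun x y hxy hy => ?_⟩
  · show rr M (χ (y * x * y⁻¹)) = rr M (χ x)
    rw [irr_conj hχ]
  · obtain ⟨n, hn⟩ := hy
    refine T8.H87.rr_reg M hM hχ _ _ n ?_
    rw [hxy.mul_pow, hn, mul_one]

/-- the residue of a character of `b` is invariant under `b` -/
theorem actF_rr (M : Ideal (integralClosure ℤ ℂ)) [M.IsMaximal] {H : Type} [Group H] [Finite H]
    {b : H → FF M} (hb : IsIdem b) {χ : H → ℂ} (hχ : χ ∈ IrrE M b) :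
    actF b (fun h => rr M (χ h)) = fun h => rr M (χ h) := by
  have := Fintype.ofFinite H
  have hidm := KF.H25.idm M H b hb
  funext x
  have h1 := (hidm.2.2 χ hχ.1 (dl ℂ x)).1 hχ.2
  have h2 : chv (dl ℂ x) χ = χ x := by
    rw [chv, finsum_eq_sum_of_fintype, Finset.sum_eq_single x]
    · rw [dl, if_pos rfl, one_mul]
    · intro y _ hy
      rw [dl, if_neg hy, zero_mul]
    · intro h
      exact absurd (Finset.mem_univ _) h
  have h3 : mulF (eh M b) (dl ℂ x) = fun g => eh M b (g * x⁻¹) := by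
    funext g
    rw [mulF, finsum_eq_sum_of_fintype, Finset.sum_eq_single (g * x⁻¹)]
    · rw [dl, if_pos (by group), mul_one]
    · intro y _ hy
      rw [dl, if_neg, mul_zero]
      intro h
      apply hy
      rw [← h]
      group
    · intro h
      exact absurd (Finset.mem_univ _) h
  rw [h2, h3, chv, finsum_eq_sum_of_fintype, ← Equiv.sum_comp (Equiv.mulRight x)] at h1
  have h4 : ∑ t : H, eh M b t * χ (t * x) = χ x := by
    rw [← h1]
    refine Finset.sum_congr rfl fun t _ => ?_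
    rw [Equiv.coe_mulRight, mul_inv_cancel_right]
  rw [actF, finsum_eq_sum_of_fintype, ← h4,
    rr_sum _ _ (fun t _ => (RM M).mul_mem (hidm.1 t).1 (RM_of_int (irr_integral hχ.1 _)))]
  refine Finset.sum_congr rfl fun t _ => ?_
  rw [rr_mul (hidm.1 t).1 (RM_of_int (irr_integral hχ.1 _)), (hidm.1 t).2]

/-- LPB -/
theorem lpb (lwd : T6.LwdStmt) (lno : LnoStmt) (rep : RepStmt) (nnz : NnzStmt) (pic : PicStmt) :
    LpbStmt := by
  intro ℓ _ M _ hM G _ _ e V γ hL hFr W hWV hW1 f hf j hjj hjv hfj hjg hnz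
  have hF : GoodF ℓ (FF M) := H50.fld ℓ Fact.out M hM
  obtain ⟨hLd, hTg⟩ := (lwd ℓ M hM G e V γ hL W hWV).2 f hf
  have hVX : V ≤ Subgroup.centralizer (W : Set G) := fun v hv =>
    Subgroup.mem_centralizer_iff.2 fun w hw => hL.ab w (hWV hw) v hv
  have hCX : Subgroup.centralizer (V : Set G) ≤ Subgroup.centralizer (W : Set G) :=
    Subgroup.centralizer_le (fun w hw => hWV hw)
  obtain ⟨w, hwW, hw1⟩ : ∃ w : G, w ∈ W ∧ w ≠ 1 := by
    by_contra hcon
    push Not at hcon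
    exact hW1 ((Subgroup.eq_bot_iff_forall W).2 hcon)
  have hix : ix (V.subgroupOf (Subgroup.centralizer (W : Set G)))
      (fun t : Subgroup.centralizer (W : Set G) => γ t) = 1 := by
    refine Subgroup.relIndex_eq_one.2 fun t ht => ?_
    have h1 : (t : G) ∈ Tg V γ := (hTg t).1 ht
    have h2 : (t : G) * w = w * t :=
      (Subgroup.mem_centralizer_iff.1 t.2 w hwW).symm
    exact (cent_sub hVX t).2 (hFr t h1 w (hWV hwW) hw1 h2)
  obtain ⟨fH, hfH⟩ : ∃ fH : Subgroup.centralizer (W : Set G) → FF M,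
    fH = fun t : Subgroup.centralizer (W : Set G) => f t := ⟨_, rfl⟩
  rw [← hfH] at hLd hfj
  have hfI : IsIdem fH := hLd.blk.1
  have h1 := lno ℓ M hM _ fH _ _ hLd hix
  obtain ⟨N, ρ, hirr, hone, hnil, hφ⟩ := rep ℓ (FF M) hF _ fH hfI h1
  obtain ⟨χ, hχ⟩ := T8.H14.irrE_nonempty M hfI hLd.blk.2.1
  obtain ⟨z, hz⟩ := hφ _ (rr_TT M hM hχ.1) (actF_rr M hfI hχ)
  have h2 := nnz ℓ M hM _ fH _ _ hLd hix j hjj (fun v hv x => hjv v hv x) hjg (by
    intro κ hκ
    obtain ⟨φ, hφe⟩ : ∃ φ, φ = T3.H85.cequiv hVX hCX := ⟨_, rfl⟩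
    have hκ' : (fun t => κ (φ.symm t)) ∈ IrrE M
        (fun t : Subgroup.centralizer (V : Set G) => γ t) := by
      apply T8.H14.irrE_equiv φ.symm hL.gam.blk.1.1
      rw [hφe]
      exact hκ
    have h3 := hnz _ hκ'
    rw [← finsum_comp_equiv φ.toEquiv] at h3
    intro h4
    apply h3
    rw [← h4]
    refine finsum_congr fun t => ?_
    have h5 : ((φ.toEquiv t : Subgroup.centralizer (V : Set G)) : G) =
        ((t : Subgroup.centralizer (W : Set G)) : G) := by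
      rw [hφe]
      rfl
    have h6 : φ.symm (φ.toEquiv t) = t := φ.symm_apply_apply t
    rw [h6, h5, PP.ext0, dif_pos t.1.2]) χ hχ
  have := Fintype.ofFinite (Subgroup.centralizer (W : Set G))
  have h3 : (ev ρ j).trace ≠ 0 := by
    intro h4
    apply h2
    have h5 : ∀ h, rr M (χ h) = z * PP.tr ρ h := fun h => congrFun hz h
    have h6 : (ev ρ j).trace = ∑ h, j h * PP.tr ρ h := by
      rw [ev, finsum_eq_sum_of_fintype, Matrix.trace_sum]
      exact Finset.sum_congr rfl fun h _ => by rw [Matrix.trace_smul, smul_eq_mul, PP.tr]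
    rw [finsum_eq_sum_of_fintype]
    have h7 : ∀ h, j h * rr M (χ h) = z * (j h * PP.tr ρ h) := fun h => by rw [h5]; ring
    rw [Finset.sum_congr rfl fun h _ => h7 h, ← Finset.mul_sum, ← h6, h4, mul_zero]
  refine pic (FF M) _ N ρ hirr j hjj h3 fun a ha _ hev => hnil a ?_ hev
  rw [← ha, ← mulF_assoc, hfj]

end Pool.Agent.PFC.H8
end
end -- Pool.Agent.Helper8_PFC.LPB
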