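import Pool.Agent.Helper12_AWB.B132
import Pool.Agent.Helper12_AWB.B179

/-!
# Merged copies (generated) of the modules

* `Pool.Agent.AT12.Defs`
* `Pool.Agent.AT12.Stmts1`
* `Pool.Agent.AT12.Stmts2`
* `Pool.Agent.AT12.Stmts3`
* `Pool.Agent.Helper65_AT12.GRM`
-/

set_option autoImplicit false

section -- Pool.Agent.AT12.Defs

/-!
# Squad AT12: defect groups `C_(ℓ ^ 2) × C_(ℓ ^ 2)`, every inertial quotient: definitions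

Text: notes 2902, 2903.  Everything on top of squads AT8 (`Pool.Agent.PP.T8`), AT2, AT3 and C2.
-/

open scoped BigOperators

noncomputable section

namespace Pool.Agent.PP.T12

open Pool.Agent.Helper51_AWC Pool.Agent.Helper79_WRA Pool.Agent.PP Pool.Agent.PP.KF
open Pool.Agent.PP.K9 Pool.Agent.PP.K9.H97 Pool.Agent.PP.H75 Pool.Agent.PP.T3 Pool.Agent.PP.T2
open Pool.Agent.PP.T8

attribute [local instance] Ideal.Quotient.field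

section defs

variable {G H : Type} [Group G] [Group H]

/-- the sum of the numbers `A_χ(g i)` at `w` -/
def bq (ℓ : ℕ) {C : Subgroup G} (π : C →* H) {m : ℕ} (g : Fin m → H → ℂ) (w : G) (χ : G → ℂ) :
    ℂ := ∑ i, Av ℓ π w (g i) χ

/-- The element `y` of `V` has order `ℓ ^ 2`, `V = ⟨y⟩ × ⟨w⟩`, the stabiliser of the coset
`y V ^ ℓ` in the inertial group centralises `y`, it acts on `⟨w⟩` by powers and freely on
`⟨w⟩ - 1`, and its order modulo `C(V)` is `m ≥ 2`. -/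
structure Cs {F : Type} (ℓ : ℕ) (V : Subgroup G) (γ : G → F) (y w : G) (m : ℕ) : Prop where
  yV : y ∈ V
  wV : w ∈ V
  card : Nat.card V = ℓ ^ 4
  oy : orderOf y = ℓ ^ 2
  ow : orderOf w = ℓ ^ 2
  gen : ∀ v ∈ V, ∃ i k : ℕ, v = y ^ i * w ^ k
  uni : ∀ i i' k k' : ℕ, y ^ i * w ^ k = y ^ i' * w ^ k' → i ≡ i' [MOD ℓ ^ 2] ∧ k ≡ k' [MOD ℓ ^ 2]
  stb : ∀ t ∈ Tg V γ, ∀ v ∈ V, t * y * t⁻¹ = y * v ^ ℓ → t * y = y * t
  act : ∀ t ∈ Tg V γ, t * y = y * t → ∃ μ : ℕ, t * w * t⁻¹ = w ^ μ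
  fre : ∀ t ∈ Tg V γ, t * y = y * t → ∀ k : ℕ, ¬ ℓ ^ 2 ∣ k → t * w ^ k = w ^ k * t →
    t ∈ Subgroup.centralizer (V : Set G)
  ind : (Subgroup.centralizer (V : Set G)).relIndex (Tg V γ ⊓ Cu y) = m
  two : 2 ≤ m
  dvd : m ∣ ℓ - 1
  cyc : ∃ t₀ ∈ Tg V γ ⊓ Cu y, ∀ t ∈ Tg V γ ⊓ Cu y, ∃ k : ℕ,
    t₀ ^ k * t ∈ Subgroup.centralizer (V : Set G)

variable (M : Ideal (integralClosure ℤ ℂ)) [M.IsMaximal]

/-- The structure of a block `f` with the abelian defect group `W` and a free inertial quotient of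
order `m`: the `g i` are `m` virtual characters in `f` which vanish at the singular elements, with
Gram matrix `1 + K J`, `m K + 1 = |W|`, and the values of the class functions at an idempotent of
`f` which commutes with `W` are given by integers `n i` which are congruent modulo `|W|`. -/
structure Cd (ℓ : ℕ) (f : H → FF M) (W : Subgroup H) (m K : ℕ) (g : Fin m → H → ℂ) : Prop where
  mul : m * K + 1 = Nat.card W
  ze : ∀ i, g i ∈ ZE M f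
  rc : ∀ i, Rc ℓ (g i)
  gr : ∀ i j, ipn (g i) (g j) = (if i = j then 1 else 0) + K
  idm : ∀ j : H → ℂ, Ip M W j → mulF (rd M j) f = rd M j → ∃ n : Fin m → ℤ,
    (∀ i i', ((m * K + 1 : ℕ) : ℤ) ∣ n i - n i') ∧
    ∀ th : H → ℂ, (∀ x y, th (y * x * y⁻¹) = th x) →
      ∑ᶠ h, j h * th h = ∑ i, (n i : ℂ) * ipn th (g i)

/-- The situation at the element `y` of `V` of order `ℓ ^ a`: `β` is its local block, `π` is a
homomorphism of `C(y)` onto `H` with kernel `⟨y⟩`, the inertial group of `V` in `C(y)` has index `m`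
over `C(V)`, and the image of `β` in `H` has the structure `Cd`. -/
structure Sy (ℓ a : ℕ) (e : G → FF M) (V : Subgroup G) (γ : G → FF M) (y : G) (β : G → FF M)
    (π : Cu y →* H) (m K : ℕ) (g : Fin m → H → ℂ) : Prop where
  ld : Ld ℓ e V γ
  mem : y ∈ V
  pos : 0 < a
  qn : C2.Qn (ℓ ^ a) y π
  lc : Lc e V γ y β
  ind : (Subgroup.centralizer (V : Set G)).relIndex (Tg V γ ⊓ Cu y) = m
  cd : Cd M ℓ (push π (fun t : Cu y => β t)) ((V.subgroupOf (Cu y)).map π) m K g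

/-- The conclusion of the coherence theorem, with the value at the powers of `y`. -/
structure Ch (ℓ N : ℕ) (V : Subgroup G) (γ : G → FF M) (b : G → G → FF M) (d : G → ℕ)
    (ε : G → ℤ) (y : G) (π : Cu y →* H) (m K : ℕ) (g : Fin m → H → ℂ) (θ : ℤ) (χ f : G → ℂ) :
    Prop where
  rv : Rv M V f
  reg : ∀ u, Rg V γ u → f u = ε u * vv M b d u χ
  inv : (∀ x, χ (x ^ N) = χ x) → ∀ v ∈ V, f (v ^ N) = f v
  y : ∀ j : ℕ, ¬ ℓ ∣ j →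
    (f (y ^ j) - θ * bq ℓ π g (y ^ j) χ) / ((m * K + 1 : ℕ) : ℂ) ∈ RM M

/-- All the data of this section. -/
structure Sg (ℓ N : ℕ) (e : G → FF M) (V : Subgroup G) (γ : G → FF M) (b : G → G → FF M)
    (d : G → ℕ) (c : ℕ) (ε : G → ℤ) (y w : G) (β : G → FF M) (π : Cu y →* H) (m K : ℕ)
    (g : Fin m → H → ℂ) (θ : ℤ) : Prop where
  odd : ℓ ≠ 2
  exp : Monoid.exponent V = ℓ ^ 2
  gs : GS G ℓ N
  dat : Dat M ℓ e V γ b d c ε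
  cs : Cs ℓ V γ y w m
  sy : Sy M ℓ 2 e V γ y β π m K g
  sgn : θ = 1 ∨ θ = -1
  coh : ∀ χ ∈ Irr G, ∃ f : G → ℂ, Ch M ℓ N V γ b d ε y π m K g θ χ f

/-- the number `ε(u) χ(u b_u)/d_u` for `u = y ^ j w ^ (ℓ k)` -/
def vk (ℓ : ℕ) (b : G → G → FF M) (d : G → ℕ) (ε : G → ℤ) (y w : G) (j k : ℕ) (χ : G → ℂ) : ℂ :=
  (ε (y ^ j * w ^ (ℓ * k)) : ℂ) * vv M b d (y ^ j * w ^ (ℓ * k)) χ

/-- the average over the coset `y ^ j V ^ ℓ` for a fixed character -/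
def aa (ℓ : ℕ) (b : G → G → FF M) (d : G → ℕ) (ε : G → ℤ) (y w : G) {C : Subgroup G}
    (π : C →* H) {m : ℕ} (g : Fin m → H → ℂ) (θ : ℤ) (j : ℕ) (χ : G → ℂ) : ℂ :=
  (ℓ : ℂ)⁻¹ * ((θ : ℂ) * bq ℓ π g (y ^ j) χ + ∑ k ∈ Finset.Ico 1 ℓ, vk M ℓ b d ε y w j k χ)

/-- the characters in `e` which are fixed by `N` -/
def Rf (N : ℕ) (e : G → FF M) : Set (G → ℂ) := {χ | χ ∈ IrrE M e ∧ ∀ g, χ (g ^ N) = χ g}

/-- The new type of defect groups: two generators, exponent `ℓ ^ a`, `a ≥ 2`. -/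
structure Tg2 (ℓ a : ℕ) (V : Subgroup G) : Prop where
  le : 2 ≤ a
  exp : Monoid.exponent V = ℓ ^ a
  gen : ∃ x y : G, V = Subgroup.closure {x, y}

/-- the types of defect groups -/
def Ty12 {F : Type} (ℓ a : ℕ) (V : Subgroup G) (γ : G → F) : Prop :=
  Ty8 ℓ a V γ ∨ Tg2 ℓ a V

end defs

end Pool.Agent.PP.T12
end
end -- Pool.Agent.AT12.Defs

section -- Pool.Agent.AT12.Stmts1

/-!
# Squad AT12, part 1: blocks with a free inertial quotient and `l(f) = |E|`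

Complete proofs in the docstrings.  A class function of `H` is written as a combination of the
irreducible characters; `IrrE M f` are the irreducible characters of the block `f`; `Rc ℓ p`: `p` is a
class function which vanishes at the `ℓ`-singular elements.  `T8.cl M W b d ε lam χ` (block F of AT8)
are integers (FNI) with Gram matrix `1 + m J` (FGR).
-/

open scoped BigOperators

noncomputable section

namespace Pool.Agent.PP.T12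

open Pool.Agent.Helper51_AWC Pool.Agent.Helper79_WRA Pool.Agent.PP Pool.Agent.PP.KF
open Pool.Agent.PP.K9 Pool.Agent.PP.K9.H97 Pool.Agent.PP.H75 Pool.Agent.PP.T3 Pool.Agent.PP.T2
open Pool.Agent.PP.T8

attribute [local instance] Ideal.Quotient.field

/-! ## 1. Combinatorics -/

/-- CMS: integral vectors with Gram matrix `1 + n J`, the extremal case.

Proof.  See the proof of `T8.CmbStmt` (`Helper6_AT8/CMB.lean`).  Let `K = |ι| ≥ 3`, `|κ| = K + n`.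
`n ≥ 1`: otherwise the `c i` are orthonormal integral vectors `± δ` with different supports, take
`y = 0`; the same formulas work.  `d_ij = c_i - c_j` has `|d_ij|² = 2`, so exactly two entries `≠ 0`,
both `±1`, and `(d_1j, d_1l) = 1` for `1, j, l` different; as in CMB (the case of three sets
`{a,b}, {a,c}, {b,c}`, `K = 4`, is impossible) there are `a`, `α = ±1`, different `b_j ≠ a` and
`β_j = ±1` (`j ≠ 1`) with `d_1j = α δ_a + β_j δ_(b_j)` (for `K = 3` choose `a` in the two supports,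
which meet in exactly one element with the same sign).  Put `y = c_1 - α δ_a`, `b_1 = a`,
`β_1 = - α`: `c_j = y - β_j δ_(b_j)` for all `j`, the `b_j` different.  With `t = α y(a)`: for `j ≠ 1`
`|c_j|² = |c_1|²` gives `β_j y(b_j) = - t`; also `β_1 y(b_1) = - t`.  `1 + n = |c_1|² =
|y|² + 2 t + 1`, so `|y|² = n - 2 t`.  At the `n` places which are not a `b_j` all the `c_i` are equal
to `y`, so `y ≠ 0` there, and `|y|² ≥ n + K t²`.  So `K t² ≤ - 2 t`, and `K ≥ 3` gives `t = 0`.  So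
`y(b_j) = 0`, `|y|² = n`, and `y = ±1` at the `n` other places. -/
def CmsStmt : Prop := ∀ (ι κ : Type) [Fintype ι] [Fintype κ] [DecidableEq κ] (c : ι → κ → ℤ)
  (n : ℕ), (∀ i, ∑ k, c i k * c i k = 1 + n) → (∀ i j, i ≠ j → ∑ k, c i k * c j k = n) →
  (∀ k, ∃ i, c i k ≠ 0) → 3 ≤ Fintype.card ι → Fintype.card κ = Fintype.card ι + n →
  ∃ (y : κ → ℤ) (s : ι → ℤ) (r : ι → κ), Function.Injective r ∧ (∀ i, s i = 1 ∨ s i = -1) ∧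
    (∀ i, y (r i) = 0) ∧ (∀ k, (∀ i, r i ≠ k) → y k = 1 ∨ y k = -1) ∧
    ∀ i k, c i k = y k - if k = r i then s i else 0

/-! ## 2. The number of modular characters -/

/-- CYN: blocks with cyclic defect groups.

Proof.  Compare `Helper3_C2/CYC.lean` (order `ℓ`).  By `CD2.Asm.d2a_` (`CyO`: every `R` with
`br_R(e) ≠ 0` is conjugate to a subgroup of `V`, `K9.H69.fmg`, so cyclic; `Pos ℓ e ⊤` as there, since
`V ≠ ⊥`, or by `T3.PosStmt`) `YY ℓ ⊤ e = 0` for every block `e` with a cyclic defect group `V ≠ ⊥`.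
`C2.RecStmt` (`Helper56_C2/REC.lean`, no hypotheses): `YY ℓ ⊤ e = |G| lnum ⊤ e - ∑_{Q ≠ ⊥} |Q|
yq ℓ Q e`.  Let `Q ≠ ⊥` be an `ℓ`-subgroup.  (i) `|Q| < |V|`: `yq ℓ Q e` is the sum of `YY ℓ ⊤ f`
over the blocks `f` of `N(Q)/Q` under the image of `br_Q(e)` (`AddStmt`; compare
`Helper27_C2/YQZ.lean`), and by `C2.DuvStmt` (`Helper92_C2/DUV.lean`) `f` has a defect group `R` with
`upm p R = conjS g V`, so `R` is a quotient of a group isomorphic to `V`, cyclic, of order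
`|V|/|Q| > 1`: `YY ℓ ⊤ f = 0`.  (ii) `|Q| > |V|`: `Q` is not good, `br_Q(e) = 0`, `yq ℓ Q e = 0`.
(iii) `|Q| = |V|`: `C2.YqvStmt` (`Helper39_C2/YQV.lean`): `|Q| yq ℓ Q e = |N(Q)| lnum (N(Q)) e`.  So
`|G| lnum ⊤ e = ∑_{|Q| = |V|} |N(Q)| lnum (N(Q)) e`, and as in the second half of `CYC.lean` the last
sum is `|G| lnum (N(V)) e = |G| lb (br_V(e) | N(V))` (`K9.H75.lbr`, `K9.H35.card_conj`,
`K9.H35.lnum_conjS`).  (For `V = ⊥` the claim is trivial: `N(⊥) = ⊤`, `br_⊥(e) = e`; it is excluded.) -/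
def CynStmt : Prop := ∀ (ℓ : ℕ) [Fact ℓ.Prime] (M : Ideal (integralClosure ℤ ℂ)) [M.IsMaximal],
  (ℓ : integralClosure ℤ ℂ) ∈ M → ∀ (G : Type) [Group G] [Finite G] (e : G → FF M), IsBlk e →
  ∀ V : Subgroup G, Tp ℓ e V → V ≠ ⊥ → IsCyclic V →
  C2.lb e = C2.lb (fun t : Subgroup.normalizer (V : Set G) => br V e t)

/-- LBY: lower bound for the number of modular characters of the image of the local block.

Proof.  As `C2.LbuStmt` (`Helper82_C2/LBU.lean`), with CYN instead of `C2.CycStmt`; the hypothesis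
on `t₀` replaces `cyc_act` there.  `T1 = Tg V γ ⊓ Cu y` as a subgroup of `C(y)` is the inertial group of
`V1 = V.subgroupOf (Cu y)`, `γ | C(y)` (`T3.LsbStmt` gives `Ld` and the index; `Ld` gives `C2.Inr`
with `T = Tg`).  `C2.NrmStmt` (`Helper82_C2/NRM.lean`) for `C(y)`, `β`: `m = |T1 : C(V1)| ≤
lb(br(β) | N(V1)) = lnum (N(V1)) β` (`K9.H75.lbr`), and as in `LBU.lean` (`p = π`, `ker π = ⟨y⟩`
central) `lnum (N(V1)) β = lnum (N(V1.map π)) (push π β) = lb (br (push π β) | N) = lb (push π β)` (the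
last step CYN for the block `push π β`, `C2.PsnStmt`, with the defect group `V1.map π`).  `T3.ln` and
`C2.lb` are the same number (`rfl`). -/
def LbyStmt : Prop := ∀ (ℓ : ℕ) [Fact ℓ.Prime] (M : Ideal (integralClosure ℤ ℂ)) [M.IsMaximal],
  (ℓ : integralClosure ℤ ℂ) ∈ M → ∀ (G H : Type) [Group G] [Finite G] [Group H] [Finite H]
  (e : G → FF M) (V : Subgroup G) (γ : G → FF M), Ld ℓ e V γ → ∀ y ∈ V, ∀ (a : ℕ)
  (π : Cu y →* H), C2.Qn (ℓ ^ a) y π → ∀ β, Lc e V γ y β →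
  IsCyclic ((V.subgroupOf (Cu y)).map π) → (V.subgroupOf (Cu y)).map π ≠ ⊥ →
  (∃ t₀ ∈ Tg V γ ⊓ Cu y, ∀ t ∈ Tg V γ ⊓ Cu y, ∃ k : ℕ,
    t₀ ^ k * t ∈ Subgroup.centralizer (V : Set G)) →
  (Subgroup.centralizer (V : Set G)).relIndex (Tg V γ ⊓ Cu y) ≤
    ln (push π (fun t : Cu y => β t))

/-! ## 3. The structure -/

/-- ANN: the class functions in `f` which vanish at the singular elements, if `l(f) ≥ |E|`.

Proof.  `m = ix W δ`, `k = |IrrE f|`.  All elements of `W - 1` are regular (`Fr`).  Let `K` be the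
number of the `u i`.  By `T8.FklStmt` `ln f + K ≤ k`.  By FNI, FGR, FNZ the integral vectors `c_i =
(cl (lam i) χ)_χ` on `IrrE f` satisfy the hypotheses of `T8.CmbStmt` with `n = m` (see
`Helper6_AT8/LFR.lean`), so `k ≤ K + m`.  With `m ≤ ln f`: `ln f = m`, `k = K + m`.  Let `S` be the
space of the complex combinations `Ψ` of `IrrE f` with `Rc ℓ Ψ`.  (i) If `Ψ ∈ S` then
`∑_χ (Ψ, χ) cl (lam i) χ = 0`: `cl (lam i) χ` is a combination of the numbers `vv v χ`, `v ∈ W - 1`, and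
`∑_χ (Ψ, χ) vv v χ = 0`, because `∑_χ (Ψ, χ) χ(v s) = Ψ(v s) = 0` for all `s ∈ C(v)` regular (`v s` is
singular).  (ii) `dim S = ln f = m`: by `K9.RotStmt` the multiplication with the indicator function
of the regular elements maps the span of `IrrE f` to itself; it is a projection onto `S`, its trace
(in the basis `IrrE f`) is `|H|⁻¹ ∑_{s regular} ∑_χ |χ(s)|² = ln f` (`T3.LrkStmt`).  (iii) The
conditions in (i) define a subspace of dimension `k - K = m` (the `c_i` are linearly independent,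
Gram matrix `1 + m J`) which contains `S`, so it is `S`. -/
def AnnStmt : Prop := ∀ (ℓ : ℕ) [Fact ℓ.Prime] (M : Ideal (integralClosure ℤ ℂ)) [M.IsMaximal],
  (ℓ : integralClosure ℤ ℂ) ∈ M → ℓ ≠ 2 → ∀ (H : Type) [Group H] [Finite H] (N : ℕ), GS H ℓ N →
  ∀ (f : H → FF M) (W : Subgroup H) (δ : H → FF M) (b : H → H → FF M) (d : H → ℕ) (c : ℕ)
  (ε : H → ℤ), Dat M ℓ f W δ b d c ε → Fr W δ → W ≠ ⊥ → ix W δ ≤ ln f →
  ∀ (K : ℕ) (u : Fin K → H) (lam : Fin K → (W →* ℂ)), (∀ i, u i ∈ W ∧ u i ≠ 1) →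
  (∀ i j, i ≠ j → ∀ t ∈ Tg W δ, t * u i * t⁻¹ ≠ u j) → (∀ i, ∃ v, lam i v ≠ 1) →
  (∀ i j, i ≠ j → ∀ t ∈ Tg W δ, ¬ Tc W t (lam i) (lam j)) →
  (∀ mu : W →* ℂ, (∃ v, mu v ≠ 1) → ∃ i, ∃ t ∈ Tg W δ, Tc W t (lam i) mu) →
  (IrrE M f).ncard = K + ix W δ ∧
  ∀ Ψ ∈ Submodule.span ℂ (IrrE M f),
    (Rc ℓ Ψ ↔ ∀ i, ∑ᶠ χ ∈ IrrE M f, ipn Ψ χ * cl M W b d ε (lam i) χ = 0)

/-- STF: the structure.

Proof.  `N` from `T2.Pr2Stmt`, the data from DAT, `K`, `u`, `lam` from `T8.ForStmt`;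
`m K + 1 = |W|` (count the elements of `W - 1`: the sets `{t (u i) t⁻¹}` have `m` elements each, they
are disjoint, and they cover `W - 1`, because there are as many orbits on the nontrivial
homomorphisms; or: `m K = |W| - 1` follows from the last claim of FOR applied to `lam`, all the
orbits of nontrivial homomorphisms have `m` elements, and there are `|W| - 1` of them).  `K ≥ 3`:
`m K ≥ 3 m`.  ANN, CMS for `ι = Fin K`, `κ = IrrE f`, `n = m`: `y`, `s`, `r`; the set `O` of the `χ ∈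
IrrE f` which are not an `r i` has `m` elements; number them, `χ_1, ..., χ_m`.  `g_p = y(χ_p) χ_p +
∑_i s_i r_i`.  `(g_p, g_q) = δ_pq + K`.  `∑_χ (g_p, χ) c_i(χ) = y(χ_p)² - s_i² = 0`, so `Rc ℓ (g_p)` by
ANN.  Let `j` be an idempotent as in `Cd.idm`.  `χ(j) := ∑_h j(h) χ(h)` is `0` for `χ ∈ Irr(H)`,
`χ ∉ IrrE f` (`mulF j (eh f) = j` as in LCL: the idempotent `j - j f^` has residue `0`, so it is `0`;
`IdmStmt`), a natural number otherwise (trace of an idempotent matrix).  `Ψ = ∑_χ χ(j) χ`, over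
`IrrE f`: for a class function `th`: `∑_h j(h) th(h) = ∑_χ (th, χ) χ(j) = ipn th Ψ` (`χ(j)` is real).
`Ψ` vanishes at the singular elements: for the indicator function `th` of a singular class
`ipn th Ψ = ∑_h j(h) th(h) = 0` by PRJ.  By ANN `∑_χ χ(j) c_i(χ) = 0`, that is
`s_i r_i(j) = ∑_p y(χ_p) χ_p(j)`.  With `n_p = y(χ_p) χ_p(j)`: `Ψ = ∑_p n_p g_p`
(`r_i(j) = s_i ∑_p n_p`).  Congruence: let `Δ = y(χ_p) χ_p - y(χ_q) χ_q = g_p - g_q`, `Rc ℓ Δ`.  For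
`v ∈ W - 1` the number `fv j v Δ = ∑_h j(h) Δ(v h)` is `0`: let `j'` be the idempotent of LFT for
`C = Cu v`, `x = rs (Cu v) (rd M j)`; SMI gives `fv j v Δ = fv j' v Δ = ∑_{c ∈ C(v)} j'(c) Δ(v c)`, and
the class function `c ↦ Δ(v c)` of `C(v)` vanishes at the regular elements (`v c` is singular), PRJ
for `C(v)`.  By FCH (trivial homomorphism) for `χ_p`, `χ_q`: `|W|⁻¹ ∑_v fv j v Δ = |W|⁻¹ Δ(j) =
|W|⁻¹ (n_p - n_q)` is an integer. -/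
def StfStmt : Prop := ∀ (ℓ : ℕ) [Fact ℓ.Prime] (M : Ideal (integralClosure ℤ ℂ)) [M.IsMaximal],
  (ℓ : integralClosure ℤ ℂ) ∈ M → ℓ ≠ 2 → ∀ (H : Type) [Group H] [Finite H] (f : H → FF M)
  (W : Subgroup H) (δ : H → FF M), Ld ℓ f W δ → Fr W δ → ix W δ ≤ ln f →
  3 * ix W δ < Nat.card W → ∃ (K : ℕ) (g : Fin (ix W δ) → H → ℂ), Cd M ℓ f W (ix W δ) K g

end Pool.Agent.PP.T12
end
end -- Pool.Agent.AT12.Stmts1

section -- Pool.Agent.AT12.Stmts2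

/-!
# Squad AT12, part 2: the coherence theorem at the powers of `y`

Complete proofs in the docstrings.  `gbv C g q χ = ∑_{c ∈ C} q(c) χ(g c)`,
`Av ℓ π w p χ = |H|⁻¹ ∑_{s ∈ C(y) regular} χ(w s) conj p(π s)`, `fv i z χ = χ(z i)`,
`fs V γ i z χ` its sum over the `t z t⁻¹`, `t ∈ T/C(V)`, `cc V γ i z = ∑_χ (F_χ, 1) F_χ(z)`.
`Sy M ℓ a e V γ y β π m K g`: the structure at the element `y` of order `ℓ ^ a`.
-/

open scoped BigOperators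

noncomputable section

namespace Pool.Agent.PP.T12

open Pool.Agent.Helper51_AWC Pool.Agent.Helper79_WRA Pool.Agent.PP Pool.Agent.PP.KF
open Pool.Agent.PP.K9 Pool.Agent.PP.K9.H97 Pool.Agent.PP.H75 Pool.Agent.PP.T3 Pool.Agent.PP.T2
open Pool.Agent.PP.T8

attribute [local instance] Ideal.Quotient.field

/-! ## 4. Orthogonality -/

/-- QOR: block orthogonality for elements of the centres of the blocks of the centralisers.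

Proof.  As `T3.Co2Stmt` (`Helper*_AT3`, row CO2).  The complex conjugate of `gbv (Cu u') u' q' χ` is
`∑_c conj (q'(c)) χ((u' c)⁻¹)`.  Put `q''(s) = conj (q'(s⁻¹))`; `eh M β'(s⁻¹) = conj (eh M β'(s))`, so
`mulF q'' (eh M β') = q''`.  By `TrcStmt` the sum is the sum over `x, g ∈ G` of
`a(g) a'(x⁻¹ g⁻¹ x)`, `a = u q`, `a' = u'⁻¹ q''` (supported on `u C`, `u'⁻¹ C'`, `C`, `C'` the regular
elements of `C(u)`, `C(u')`).  `g = u s`, `x⁻¹ s⁻¹ u⁻¹ x = u'⁻¹ s'`; comparing the `ℓ`-parts,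
`x u' x⁻¹ = u`.  For such an `x` the sum over `g` is `(q · (x q'' x⁻¹))(1)` in the group ring of
`C(u) = x C(u') x⁻¹`.  `q = q β^`, `x q'' x⁻¹ = (cj x β')^ (x q'' x⁻¹)`, and `β^ (cj x β')^ = 0`, because
the two idempotents of `F C(u)` are orthogonal (no character is in both). -/
def QorStmt : Prop := ∀ (ℓ : ℕ) [Fact ℓ.Prime] (M : Ideal (integralClosure ℤ ℂ)) [M.IsMaximal],
  (ℓ : integralClosure ℤ ℂ) ∈ M → ∀ (G : Type) [Group G] [Finite G] (u u' : G), El ℓ u → El ℓ u' →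
  ∀ β β' : G → FF M, Ix (Cu u) β → Ix (Cu u') β' →
  (∀ x : G, x * u' * x⁻¹ = u → mulF β (cj x β') = 0) → ∀ (q : Cu u → ℂ) (q' : Cu u' → ℂ),
  Rc ℓ q → Rc ℓ q' → mulF q (eh M (fun t : Cu u => β t)) = q →
  mulF q' (eh M (fun t : Cu u' => β' t)) = q' →
    ∑ᶠ χ ∈ Irr G, gbv (Cu u) u q χ * starRingEnd ℂ (gbv (Cu u') u' q' χ) = 0

/-- QAV: the numbers `Av` are of this form.

Proof.  `q(s) = |H|⁻¹ conj (p(π s))` for `s` regular, `0` otherwise.  Let `P(s) = p(π s)`; by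
`K9.PsiStmt` (`Helper3_K9/PSI.lean` or the file proving it) it is in the span of `IrrE M β`, and by
`K9.RotStmt` so is its product `P°` with the indicator function of the regular elements:
`P° = ∑_{κ ∈ β} a_κ κ`, `q(s) = |H|⁻¹ ∑ conj(a_κ) κ(s⁻¹)`.  `eh M β(s) = |C|⁻¹ ∑_{κ ∈ β} κ(1) κ(s⁻¹)`, and
the convolution of `s ↦ κ(s⁻¹)` with `eh M β` is `s ↦ κ(s⁻¹)` for `κ ∈ β` (`IdmStmt`/Schur).
`Av ℓ π x p χ = |H|⁻¹ ∑_{s regular} χ(x s) conj (p(π s)) = gbv (Cu u) x q χ` (definitions). -/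
def QavStmt : Prop := ∀ (ℓ : ℕ) [Fact ℓ.Prime] (M : Ideal (integralClosure ℤ ℂ)) [M.IsMaximal],
  (ℓ : integralClosure ℤ ℂ) ∈ M → ∀ (G H : Type) [Group G] [Finite G] [Group H] [Finite H] (u : G)
  (n : ℕ) (π : Cu u →* H), C2.Qn n u π → ∀ β : G → FF M, Ix (Cu u) β →
  ∀ p ∈ Submodule.span ℂ (IrrE M (push π (fun t : Cu u => β t))), Rc ℓ p →
  ∃ q : Cu u → ℂ, Rc ℓ q ∧ mulF q (eh M (fun t : Cu u => β t)) = q ∧
    ∀ (x : G) (χ : G → ℂ), Av ℓ π x p χ = gbv (Cu u) x q χ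

/-- QFV: the numbers `fv i z` are of this form.

Proof.  `j` from LCL for `z`, `b`.  `q(s) = |C(z)|⁻¹ ∑_{x ∈ C(z)} j(x s x⁻¹)` for `s ∈ C(z)`: a class
function of `C(z)` with `mulF q (eh M b) = q` (`mulF j (ext0 (eh M b)) = j`, and `eh M b` is a class
function), it vanishes at the singular elements (PRJ for `C(z)` and the idempotent `j | C(z)`, `th`
the indicator function of a singular class), and `fv i z th = fv j z th = ∑_{s ∈ C(z)} j(s) th(z s) =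
∑_s q(s) th(z s)`, since `s ↦ th(z s)` is a class function of `C(z)`. -/
def QfvStmt : Prop := ∀ (ℓ : ℕ) [Fact ℓ.Prime] (M : Ideal (integralClosure ℤ ℂ)) [M.IsMaximal],
  (ℓ : integralClosure ℤ ℂ) ∈ M → ∀ (G : Type) [Group G] [Finite G] (e : G → FF M)
  (V : Subgroup G) (γ : G → FF M), Ld ℓ e V γ → ∀ i : G → ℂ, Ci M e V γ i → ∀ z ∈ V, ∀ b,
  Lc e V γ z b → ∃ q : Cu z → ℂ, Rc ℓ q ∧ mulF q (eh M (fun t : Cu z => b t)) = q ∧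
    ∀ th : G → ℂ, (∀ x y, th (y * x * y⁻¹) = th x) → fv i z th = gbv (Cu z) z q th

/-- OAV: orthogonality for the numbers `Av` at the powers of `y`.

Proof.  `z = y ^ j`: `C(z) = C(y)` and `β` is the local block of `z` (LPW); `Av ℓ π z p χ =
gbv (Cu y) (y ^ j) q χ` by QAV, which is `gbv (Cu z) z q χ` after rewriting `C(z) = C(y)`.  (i) QFV for
`v` and its local block `b`; (ii) `vv M b d u χ = (d u)⁻¹ gbv (Cu u) u (eh M (b u)) χ`, `eh M (b u)` is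
`Rc ℓ` (`K9.H25.eh_sing`) and idempotent; (iii) QAV.  In all cases QOR: let `x v x⁻¹ = z` and
`mulF β (cj x b) ≠ 0`; `cj x b` is a block of `C(z)`, so `β = cj x b` (`Bx.dich`), and FUS (`u = z`,
`u' = v`) gives `t ∈ T` with `t v t⁻¹ = z`, against the hypothesis.  (In (iii) `v = y ^ j'`, `b = β`.)
(iv) is `C2.Sec2Stmt` (`Helper25_C2/SEC2.lean`, no hypotheses). -/
def OavStmt : Prop := ∀ (ℓ : ℕ) [Fact ℓ.Prime] (M : Ideal (integralClosure ℤ ℂ)) [M.IsMaximal],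
  (ℓ : integralClosure ℤ ℂ) ∈ M → ∀ (G H : Type) [Group G] [Finite G] [Group H] [Finite H] (a : ℕ)
  (e : G → FF M) (V : Subgroup G) (γ : G → FF M) (y : G) (β : G → FF M) (π : Cu y →* H) (m K : ℕ)
  (g : Fin m → H → ℂ), Sy M ℓ a e V γ y β π m K g → ∀ j : ℕ, ¬ ℓ ∣ j →
  ∀ p ∈ ZE M (push π (fun t : Cu y => β t)), Rc ℓ p →
  (∀ i : G → ℂ, Ci M e V γ i → ∀ v ∈ V, (∀ t ∈ Tg V γ, t * v * t⁻¹ ≠ y ^ j) →
    ∑ᶠ χ ∈ Irr G, Av ℓ π (y ^ j) p χ * starRingEnd ℂ (fv i v χ) = 0) ∧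
  (∀ (b : G → G → FF M) (d : G → ℕ) (c : ℕ) (ε : G → ℤ), Dat M ℓ e V γ b d c ε →
    ∀ u, Rg V γ u → (∀ t ∈ Tg V γ, t * u * t⁻¹ ≠ y ^ j) →
    ∑ᶠ χ ∈ Irr G, Av ℓ π (y ^ j) p χ * starRingEnd ℂ (vv M b d u χ) = 0) ∧
  (∀ j' : ℕ, ¬ ℓ ∣ j' → (∀ t ∈ Tg V γ, t * y ^ j' * t⁻¹ ≠ y ^ j) →
    ∀ p' ∈ ZE M (push π (fun t : Cu y => β t)), Rc ℓ p' →
    ∑ᶠ χ ∈ Irr G, Av ℓ π (y ^ j) p χ * starRingEnd ℂ (Av ℓ π (y ^ j') p' χ) = 0) ∧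
  ∀ p' ∈ ZE M (push π (fun t : Cu y => β t)), Rc ℓ p' →
    ∑ᶠ χ ∈ Irr G, Av ℓ π (y ^ j) p χ * starRingEnd ℂ (Av ℓ π (y ^ j) p' χ) =
      (ℓ : ℂ) ^ a * ipn p' p

/-! ## 5. The coherent idempotent at the powers of `y` -/

/-- AVI: the values of a coherent idempotent.

Proof.  `C = C(y)`, `j₀` from LCL for `z = y`, `β`; let `J = push π j₀` (the sum over the fibres, for
complex functions), `W` the image of `V`, `f = push π β`.  `Ip M W J`: `push π` is a ring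
homomorphism, the sums are in `RM M`, and `J` commutes with `W` because `j₀` commutes with `V`.
`rd M J = push π (rd M j₀)`, and `mulF (rd M j₀) β = rd M j₀` on `C` (`mulF j₀ β^ = j₀`, `rd (β^) = β`), so
`mulF (rd M J) f = rd M J`.  `Cd.idm` gives the `n s`.  Let `¬ ℓ ∣ j`.  `C(y ^ j) = C`, so SMI for
`z = y ^ j`, `i` and `j₀`: `fv i (y ^ j) χ = fv j₀ (y ^ j) χ = ∑_{c ∈ C} j₀(c) χ(y ^ j c)`.  For `h ∈ H` regular
there is exactly one regular `c ∈ C` with `π c = h` (the kernel `⟨y⟩` is a central `ℓ`-group); let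
`th(h) = χ(y ^ j c)`, and `th(h) = 0` for `h` singular; `th` is a class function of `H`.  The class
function `c ↦ χ(y ^ j c) - th(π c)` of `C` vanishes at the regular elements, so PRJ for `C` and `j₀`
gives `∑_c j₀(c) χ(y ^ j c) = ∑_c j₀(c) th(π c) = ∑_h J(h) th(h) = ∑_s n_s ipn th (g s)`, and
`ipn th (g s) = |H|⁻¹ ∑_h th(h) conj (g s h) = Av ℓ π (y ^ j) (g s) χ` (sum over the regular `h`). -/
def AviStmt : Prop := ∀ (ℓ : ℕ) [Fact ℓ.Prime] (M : Ideal (integralClosure ℤ ℂ)) [M.IsMaximal],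
  (ℓ : integralClosure ℤ ℂ) ∈ M → ∀ (G H : Type) [Group G] [Finite G] [Group H] [Finite H] (a : ℕ)
  (e : G → FF M) (V : Subgroup G) (γ : G → FF M) (y : G) (β : G → FF M) (π : Cu y →* H) (m K : ℕ)
  (g : Fin m → H → ℂ), Sy M ℓ a e V γ y β π m K g → ∀ i : G → ℂ, Ci M e V γ i →
  ∃ n : Fin m → ℤ, (∀ s s', ((m * K + 1 : ℕ) : ℤ) ∣ n s - n s') ∧
    ∀ j : ℕ, ¬ ℓ ∣ j → ∀ χ ∈ Irr G, fv i (y ^ j) χ = ∑ s, (n s : ℂ) * Av ℓ π (y ^ j) (g s) χ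

/-- FSY: the sum over the conjugates.

Proof.  For `t ∈ T = Tg V γ` let `i_t(x) = i(t x t⁻¹)`.  (1) `fv i (t z t⁻¹) χ = fv i_t z χ` (`χ` is a
class function).  (2) `Ci M e V γ i_t`: `ip` is clear (`t` normalises `V`).  `i_t = cj t⁻¹ i`,
`br V (cj t⁻¹ a) = cj t⁻¹ (br V a)`, `γ = cj t⁻¹ γ`: `gm`.  `lb`: for `z ∈ V` with the local block `b` the
local block of `t z t⁻¹` is `cj t b` (see DPW), `rs (Cu z) (cj t⁻¹ a) = cj t⁻¹ (rs (Cu (t z t⁻¹)) a)`.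
`nz`: `∑ i(t c t⁻¹) κ(c) = ∑ i(c) κ(t⁻¹ c t)` and `c ↦ κ(t⁻¹ c t)` is again a character of `γ`.  (3) AVI
for the `i_t`, `t` the coset representatives `q.out` in the definition of `fs`, and add. -/
def FsyStmt : Prop := ∀ (ℓ : ℕ) [Fact ℓ.Prime] (M : Ideal (integralClosure ℤ ℂ)) [M.IsMaximal],
  (ℓ : integralClosure ℤ ℂ) ∈ M → ∀ (G H : Type) [Group G] [Finite G] [Group H] [Finite H] (a : ℕ)
  (e : G → FF M) (V : Subgroup G) (γ : G → FF M) (y : G) (β : G → FF M) (π : Cu y →* H) (m K : ℕ)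
  (g : Fin m → H → ℂ), Sy M ℓ a e V γ y β π m K g → ∀ i : G → ℂ, Ci M e V γ i →
  ∃ R : Fin m → ℤ, (∀ s s', ((m * K + 1 : ℕ) : ℤ) ∣ R s - R s') ∧
    ∀ j : ℕ, ¬ ℓ ∣ j → ∀ χ ∈ Irr G,
      fs V γ i (y ^ j) χ = ∑ s, (R s : ℂ) * Av ℓ π (y ^ j) (g s) χ

/-- CCY: the function `cc` at the powers of `y`.

Proof.  `z = y ^ j`.  `(F_χ, 1) = |V|⁻¹ ∑_v fs v χ` is an integer (FCH for the trivial homomorphism,
and `v ↦ t v t⁻¹` is a bijection of `V`), so real: `cc z = |V|⁻¹ ∑_{v ∈ V} ∑_χ fs z χ conj (fs v χ)`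
(compare `Helper2_AT8/CSQ.lean`).  If `v` is not a `t z t⁻¹`, `t ∈ T`, then `∑_χ fs z χ
conj (fs v χ) = 0` by OAV (i) (all `q v q⁻¹`, `q ∈ T`, are not `T`-conjugate to `z` either).  If
`v = t z t⁻¹` then `fs v χ = fs z χ` (reindex the cosets of `C(V)` in `T`), and by OAV (iv)
`∑_χ |fs z χ|² = ∑_{s,s'} R_s R_s' ℓ ^ a ipn (g s') (g s) = ℓ ^ a (∑ R_s² + K (∑ R_s)²)`.  The number of
these `v` is `|T : T ∩ C(z)| = |T : T ∩ C(y)| = ix/m`.  `|V| = ℓ ^ a (m K + 1)` (`W ≅ V/⟨y⟩`,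
`Cd.mul`). -/
def CcyStmt : Prop := ∀ (ℓ : ℕ) [Fact ℓ.Prime] (M : Ideal (integralClosure ℤ ℂ)) [M.IsMaximal],
  (ℓ : integralClosure ℤ ℂ) ∈ M → ∀ (G H : Type) [Group G] [Finite G] [Group H] [Finite H] (a : ℕ)
  (e : G → FF M) (V : Subgroup G) (γ : G → FF M) (y : G) (β : G → FF M) (π : Cu y →* H) (m K : ℕ)
  (g : Fin m → H → ℂ), Sy M ℓ a e V γ y β π m K g → ∀ i : G → ℂ, Ci M e V γ i →
  ∀ R : Fin m → ℤ, (∀ j : ℕ, ¬ ℓ ∣ j → ∀ χ ∈ Irr G,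
      fs V γ i (y ^ j) χ = ∑ s, (R s : ℂ) * Av ℓ π (y ^ j) (g s) χ) →
  ∀ j : ℕ, ¬ ℓ ∣ j → (m : ℂ) * (m * K + 1 : ℕ) * T8.cc V γ i (y ^ j) =
    ix V γ * (∑ s, (R s : ℂ) ^ 2 + K * (∑ s, (R s : ℂ)) ^ 2)

/-- SE2: the square root, with the values at all elements.

Proof.  The proof of `T8.SerStmt` (`Helper21_AT8/SER.lean`).  There `s'(v) = n⁻¹ P(h(v))` with
`h = g/n² - 1` and `P² (1 + T) = 1 + T ^ K Q`, so `s'(v)² g(v) = P(h)² (1 + h) = 1 + h ^ K Q(h)` at all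
`v ∈ V`, and `h(v) ^ K` is `|V|` times an element of `RM M` (RVC; `X` is not empty, so `h(v) ∈
π RM M`).  For `y ∈ X`: `s(y) = 1/R(y)`, `s(y)² g(y) = 1`.  `rr (s v) = rr (s 1)`: `s` is in `Rv`
(RVC). -/
def Se2Stmt : Prop := ∀ (ℓ : ℕ) [Fact ℓ.Prime] (M : Ideal (integralClosure ℤ ℂ)) [M.IsMaximal],
  (ℓ : integralClosure ℤ ℂ) ∈ M → ℓ ≠ 2 → ∀ (G : Type) [Group G] [Finite G] (V : Subgroup G),
  IsPGroup ℓ V → (∀ a ∈ V, ∀ b ∈ V, a * b = b * a) → ∀ g : G → ℂ, Rv M V g →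
  ∀ (X : Set G) (R : G → ℤ) (n : ℤ), ¬ (ℓ : ℤ) ∣ n → X.Nonempty →
  (∀ y ∈ X, y ∈ V ∧ g y = (R y : ℂ) ^ 2 ∧ (ℓ : ℤ) ∣ R y - n) →
  ∃ s : G → ℂ, Rv M V s ∧ (∀ y ∈ X, s y * R y = 1) ∧
    (∀ v ∈ V, ∃ r ∈ RM M, s v ^ 2 * g v = 1 + Nat.card V * r) ∧
    (∀ v ∈ V, s v ∈ RM M ∧ rr M (s v) = rr M (s 1)) ∧
    ∀ N : ℕ, (∀ v ∈ V, g (v ^ N) = g v) → (∀ v ∈ V, v ^ N ∈ X ↔ v ∈ X) →
      ∀ v ∈ V, s (v ^ N) = s v

/-- CO2: the coherence theorem at the powers of `y`.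

Proof.  As COH (`Helper10_AT8/COH.lean`), with SE2 instead of SER: `i` a coherent idempotent (CID),
`F_χ(z) = fs V γ i z χ`, `g₀ = cc/ix`, `R'(u) = ε u R u` (CSQ), `X` the set of the regular elements
(not empty), `s`, `f(z) = F_χ(z) s(z)`.  This gives `rv`, `reg`, `inv`.  `y`: let `R_p` (`p : Fin m`) be
the integers of FSY, `m ≥ 1`, `R₀` one of them, `R_p = R₀ + L r_p`, `L = m K + 1 = |W|`.  CCY:
`g₀(y ^ j) = (∑ R_p² + K (∑ R_p)²)/(m L)`, and with `ρ = ∑ r_p`: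
`∑ R_p² + K (∑ R_p)² = m R₀² (1 + m K) + 2 L R₀ ρ (1 + m K) + L² (∑ r_p² + K ρ²)
= m L R₀² + L² (2 R₀ ρ + ∑ r_p² + K ρ²)`, so `g₀(y ^ j) = R₀² + L r/m` with an integer `r`.  If `L = 1`
the claim `y` is clear (all numbers are in `RM M`); let `L > 1`: `L` is a power of `ℓ` (`W` is an
`ℓ`-group), so `ℓ ∤ m`, `1/m ∈ RM M`, and `L` divides `|V|`.  So `(s(y ^ j) R₀)² ∈ 1 + L RM M`, so one of
`s(y ^ j) R₀ ± 1` is in `L RM M` (their difference `2` is a unit of the local ring, so one of them is a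
unit).  The sign is determined by `rr (s(y ^ j) R₀) = rr (s(1) R₀)` (`1 ≠ -1` in `FF M`), so it does
not depend on `j` or `χ`: `s(y ^ j) R₀ = θ + L x`, `x ∈ RM M`.  So `f(y ^ j) = s(y ^ j) ∑ R_p Av_p =
s(y ^ j) R₀ ∑ Av_p + L s(y ^ j) ∑ r_p Av_p = θ ∑ Av_p + L (...)`, because `Av_p = Av ℓ π (y ^ j) (g p) χ`
is in `RM M`: an algebraic integer (`C2.Int2Stmt`, `ZE ≤ ZI`).  The residue `rr (s(1) R₀)` is `± 1`, and
this defines `θ` (take `j = 1`). -/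
def Co2Stmt : Prop := ∀ (ℓ : ℕ) [Fact ℓ.Prime] (M : Ideal (integralClosure ℤ ℂ)) [M.IsMaximal],
  (ℓ : integralClosure ℤ ℂ) ∈ M → ℓ ≠ 2 → ∀ (G H : Type) [Group G] [Finite G] [Group H] [Finite H]
  (N : ℕ), GS G ℓ N → ∀ (e : G → FF M) (V : Subgroup G) (γ : G → FF M) (b : G → G → FF M)
  (d : G → ℕ) (c : ℕ) (ε : G → ℤ), Dat M ℓ e V γ b d c ε → (∃ u, Rg V γ u) →
  ∀ (a : ℕ) (y : G) (β : G → FF M) (π : Cu y →* H) (m K : ℕ) (g : Fin m → H → ℂ),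
  Sy M ℓ a e V γ y β π m K g → ∃ θ : ℤ, (θ = 1 ∨ θ = -1) ∧
    ∀ χ ∈ Irr G, ∃ f : G → ℂ, Ch M ℓ N V γ b d ε y π m K g θ χ f

end Pool.Agent.PP.T12
end
end -- Pool.Agent.AT12.Stmts2

section -- Pool.Agent.AT12.Stmts3

/-!
# Squad AT12, part 3: the coset of `y`, Bessel's inequality, the number of the fixed characters

Complete proofs in the docstrings.  `Cs ℓ V γ y w m`: `V = ⟨y⟩ × ⟨w⟩`, both of order `ℓ ^ 2`, the
stabiliser of the coset `y V ^ ℓ` in `T = Tg V γ` is `T ∩ C(y)`, it acts on `⟨w⟩` by powers, freely on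
`⟨w⟩ - 1`, `m = |T ∩ C(y) : C(V)| ≥ 2`.  `Sg ...`: all the data, `vk ... j k χ = ε(u) χ(u b_u)/d_u` for
`u = y ^ j w ^ (ℓ k)`, `aa ... j χ = (1/ℓ)(θ ∑_s Av(y ^ j)(g s) + ∑_{k=1}^{ℓ-1} vk j k)`.
-/

open scoped BigOperators

noncomputable section

namespace Pool.Agent.PP.T12

open Pool.Agent.Helper51_AWC Pool.Agent.Helper79_WRA Pool.Agent.PP Pool.Agent.PP.KF
open Pool.Agent.PP.K9 Pool.Agent.PP.K9.H97 Pool.Agent.PP.H75 Pool.Agent.PP.T3 Pool.Agent.PP.T2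
open Pool.Agent.PP.T8

attribute [local instance] Ideal.Quotient.field

/-! ## 6. Group theory -/

/-- CPY: automorphisms of `C_(ℓ ^ 2) × C_(ℓ ^ 2)`.

Proof.  Compare `T8.RgbStmt` (`Helper24_AT8/RGB.lean`).  Choose `u` of order `ℓ ^ 2`,
`S = {s ∈ E | s u ∈ u V ^ ℓ}`, a subgroup, `π` from `T8.CprStmt` for `S`, `y = π(u) ∈ u V ^ ℓ`: it is fixed
by `S`, `y ^ ℓ = u ^ ℓ ≠ 1` (the `ℓ`-th power of an element of `V ^ ℓ` is `1`), so `y` has order `ℓ ^ 2`,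
and `S = {s ∈ E | s y ∈ y V ^ ℓ}` (as `y V ^ ℓ = u V ^ ℓ`), so for `s ∈ E` with `s y ∈ y V ^ ℓ` we have
`s y = y`.  If `S = 1`: first case.  Let `S ≠ 1`, `C` the image and `K` the kernel of `π`, `V = C × K`,
both stable under `S`, `y ∈ C`.  `K ≠ 1` (`S` acts faithfully and trivially on `C`).  `V/V ^ ℓ` has
order `ℓ ^ 2`: at most `ℓ ^ 2` (two generators), `v ↦ v ^ ℓ` induces a surjection of `V/V ^ ℓ` onto
`V ^ ℓ` (exponent `ℓ ^ 2`), so `|V ^ ℓ| ≤ |V/V ^ ℓ| ≤ ℓ ^ 2`, and the product is `ℓ ^ 4`.  `V/V ^ ℓ` is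
`C/C ^ ℓ × K/K ^ ℓ`, both factors are not trivial, so of order `ℓ`, so `C` and `K` are cyclic, and
`|C|, |K| ≤ ℓ ^ 2`, `|C| |K| = ℓ ^ 4`: both have order `ℓ ^ 2`; `C = ⟨y⟩`, `K = ⟨w⟩`.  `s ∈ S`:
`s w ∈ K`, `s w = w ^ μ`.  Freeness: let `s ∈ S`, `ℓ ^ 2 ∤ k`, `s (w ^ k) = w ^ k`: `w ^ (k (μ - 1)) = 1`,
so `ℓ ∣ μ - 1`, and `s` acts trivially on `V/V ^ ℓ`; `s = 1` by CPR (last claim, for the group
generated by `s`).  So `s ↦ μ` mod `ℓ` is an injective homomorphism of `S` into the cyclic group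
`(ZMod ℓ)ˣ` of order `ℓ - 1`: `S` is cyclic and `|S| ∣ ℓ - 1`. -/
def CpyStmt : Prop := ∀ (ℓ : ℕ) [Fact ℓ.Prime] (V : Type) [CommGroup V] [Finite V],
  Monoid.exponent V = ℓ ^ 2 → Nat.card V = ℓ ^ 4 →
  (∃ x y : V, (⊤ : Subgroup V) = Subgroup.closure {x, y}) →
  ∀ E : Subgroup (MulAut V), ¬ ℓ ∣ Nat.card E →
  (∃ y : V, orderOf y = ℓ ^ 2 ∧ ∀ s ∈ E, ∀ v : V, s y = y * v ^ ℓ → s = 1) ∨
  ∃ y w : V, orderOf y = ℓ ^ 2 ∧ orderOf w = ℓ ^ 2 ∧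
    (∀ v : V, ∃ i k : ℕ, v = y ^ i * w ^ k) ∧
    (∀ i i' k k' : ℕ, y ^ i * w ^ k = y ^ i' * w ^ k' →
      i ≡ i' [MOD ℓ ^ 2] ∧ k ≡ k' [MOD ℓ ^ 2]) ∧
    (∀ s ∈ E, ∀ v : V, s y = y * v ^ ℓ → s y = y) ∧
    (∀ s ∈ E, s y = y → ∃ μ : ℕ, s w = w ^ μ) ∧
    (∀ s ∈ E, s y = y → ∀ k : ℕ, ¬ ℓ ^ 2 ∣ k → s (w ^ k) = w ^ k → s = 1) ∧
    (∃ s ∈ E, s ≠ 1 ∧ s y = y) ∧ Nat.card {s : MulAut V // s ∈ E ∧ s y = y} ∣ ℓ - 1 ∧
    ∃ s₀ ∈ E, s₀ y = y ∧ ∀ s ∈ E, s y = y → ∃ k : ℕ, s₀ ^ k * s = 1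

/-- CST: a regular coset, or the structure `Cs`.

Proof.  As `T8.RtrStmt` (`Helper10_AT8/RTR.lean`): `V` is a commutative group, `E` the image of
`T = Tg V γ` in its automorphism group, with kernel `C(V)`, `|E| = ix V γ`; CPY.  The index of `C(V)` in
`T ∩ C(y)` is the number of the `s ∈ E` with `s y = y`. -/
def CstStmt : Prop := ∀ (ℓ : ℕ) [Fact ℓ.Prime] (F : Type) [Field F], GoodF ℓ F → ∀ (G : Type)
  [Group G] [Finite G] (e : G → F) (V : Subgroup G) (γ : G → F), Ld ℓ e V γ → ¬ ℓ ∣ ix V γ →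
  Monoid.exponent V = ℓ ^ 2 → Nat.card V = ℓ ^ 4 → (∃ x y : G, V = Subgroup.closure {x, y}) →
  (∃ y, Rk ℓ 2 1 V γ y) ∨ ∃ (y w : G) (m : ℕ), Cs ℓ V γ y w m

/-- SYX: the structure at `y`.

Proof.  `β` from LOC.  `H = C(y)/⟨y⟩`, `π` the projection, `W = (V.subgroupOf (Cu y)).map π ≅ V/⟨y⟩`,
cyclic of order `ℓ ^ 2`, generated by `π(w)`.  `f = push π β` is a block (`T3.PsgStmt`, or
`C2.PsnStmt`), with the defect group `W` (compare `LBU.lean`: `hV't`).  As in `T3.Qt2Stmt`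
(`Helper43_AT3/QT2.lean`) for the group `C(y)`, the block `β`, `V.subgroupOf (Cu y)` (`T3.LsbStmt`) and
the normal subgroup `⟨y⟩` (use `T8.Qt3Stmt` for `Q = ⟨y⟩` in the group `C(y)`, where `N(Q) = C(y)`,
`br_Q β = β`): there is `δ` with `Ld ℓ f W δ`, `ix W δ ≤ m`, and every `t' ∈ Tg W δ` acts on `W` as an
element `t ∈ T ∩ C(y)` (up to conjugation with `n ∈ N(V) ∩ C(y)`, `Fe`).  `Fr W δ`: let `t' ∈ Tg W δ`
commute with `1 ≠ v' ∈ W`; `v' = π(n v n⁻¹)`, `v = y ^ i w ^ k ∈ V`, `ℓ ^ 2 ∤ k`; `t v t⁻¹ ∈ v ⟨y⟩`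
(`n` centralises `y`), `t w ^ k t⁻¹ = w ^ (μ k)`, so `w ^ (μ k - k) ∈ ⟨y⟩`, so it is `1` (`uni`), `t`
commutes with `w ^ k`, `t ∈ C(V)` (`fre`), so `t'` centralises `W`.  `m ≤ ln f` (LBY, `Cs.cyc`),
`ln f ≤ ix W δ` (`T8.LfrStmt`), so `ix W δ = m = ln f`.  `3 m < ℓ ^ 2 = |W|` (`m ≤ ℓ - 1`; for `ℓ = 3`:
`m = 2`, `6 < 9`).  STF (the type `Fin (ix W δ)` is `Fin m`). -/
def SyxStmt : Prop := ∀ (ℓ : ℕ) [Fact ℓ.Prime] (M : Ideal (integralClosure ℤ ℂ)) [M.IsMaximal],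
  (ℓ : integralClosure ℤ ℂ) ∈ M → ℓ ≠ 2 → ∀ (G : Type) [Group G] [Finite G] (e : G → FF M)
  (V : Subgroup G) (γ : G → FF M), Ld ℓ e V γ → ∀ (y w : G) (m : ℕ), Cs ℓ V γ y w m →
  ∃ (H : Type) (_ : Group H) (_ : Finite H) (β : G → FF M) (π : Cu y →* H) (K : ℕ)
    (g : Fin m → H → ℂ), Sy M ℓ 2 e V γ y β π m K g

/-- CRG: the elements of the cosets `y ^ j V ^ ℓ`.

Proof.  (ii) Let `t u t⁻¹ = u'`, `u = y ^ j w ^ (ℓ k)`, `u' = y ^ j' w ^ (ℓ k')`, `j' = j + ℓ i` (or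
`j = j' + ℓ i`).  Let `c j = 1` modulo `ℓ ^ 2`.  `u ^ c = y w ^ (ℓ k c)`, `u' ^ c ∈ y V ^ ℓ`, and
`t w ^ (ℓ k c) t⁻¹ = (t w t⁻¹) ^ (ℓ k c) ∈ V ^ ℓ`, so `t y t⁻¹ ∈ y V ^ ℓ` (`V` is abelian), `t y = y t`
(`stb`).  So `y ^ j w ^ (ℓ μ k) = y ^ j' w ^ (ℓ k')`, `j = j'` modulo `ℓ ^ 2` (`uni`).  (i) `u ≠ 1` by
`uni`; if `t ∈ T` commutes with `u` then by (ii) `t y = y t`, so `t` commutes with `w ^ (ℓ k)` and is in
`C(V)` by `fre`.  (iii) The `t ∈ T` with `t u t⁻¹ = y ^ j w ^ (ℓ k')` for some `k'` are those of `T ∩ C(y)`,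
and the map `t C(V) ↦ t u t⁻¹` is injective on `(T ∩ C(y))/C(V)` (if `t u t⁻¹ = t₁ u t₁⁻¹` then
`t₁⁻¹ t` commutes with `u`, so it is in `C(V)` by (i)); `t u t⁻¹ = y ^ j w ^ (ℓ μ k)` determines
`k' = μ k` modulo `ℓ`, not `0` (otherwise `w ^ (ℓ k) = 1`); so there are `m` such `k'` with
`1 ≤ k' < ℓ`. -/
def CrgStmt : Prop := ∀ (ℓ : ℕ) [Fact ℓ.Prime] (F : Type) [Field F], GoodF ℓ F → ℓ ≠ 2 →
  ∀ (G : Type) [Group G] [Finite G] (e : G → F) (V : Subgroup G) (γ : G → F), Ld ℓ e V γ →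
  ∀ (y w : G) (m : ℕ), Cs ℓ V γ y w m →
  (∀ j k : ℕ, ¬ ℓ ∣ j → ¬ ℓ ∣ k → Rg V γ (y ^ j * w ^ (ℓ * k))) ∧
  (∀ j j' k k' : ℕ, ¬ ℓ ∣ j → j ≡ j' [MOD ℓ] → ∀ t ∈ Tg V γ,
    t * (y ^ j * w ^ (ℓ * k)) * t⁻¹ = y ^ j' * w ^ (ℓ * k') → t * y = y * t ∧ j ≡ j' [MOD ℓ ^ 2] ∧
      (ℓ ∣ k ↔ ℓ ∣ k')) ∧
  ∀ j k : ℕ, ¬ ℓ ∣ j → ¬ ℓ ∣ k →
    {k' : ℕ | 1 ≤ k' ∧ k' < ℓ ∧ ∃ t ∈ Tg V γ,
      t * (y ^ j * w ^ (ℓ * k)) * t⁻¹ = y ^ j * w ^ (ℓ * k')}.ncard = m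

/-- CSM: the average of an invariant function over the coset.

Proof.  `V ^ ℓ = {y ^ (ℓ i) w ^ (ℓ k) | i, k < ℓ}`, `ℓ ^ 2` elements (PWU, `gen`, `uni`).  For the given
`j, i, k`: `c = (j + ℓ i)/j` modulo `ℓ ^ 2` is `1` modulo `ℓ`, and `(y ^ j w ^ (ℓ k)) ^ c =
y ^ (j + ℓ i) w ^ (ℓ k)`; by `GS.gen` (for `j = 1`, `j' = c`) there is `r` with `v ^ N ^ r = v ^ c` for all
`v ∈ V`, so `f(y ^ (j + ℓ i) w ^ (ℓ k)) = f(y ^ j w ^ (ℓ k))`. -/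
def CsmStmt : Prop := ∀ (ℓ : ℕ) [Fact ℓ.Prime] (F : Type) [Field F], GoodF ℓ F → ℓ ≠ 2 →
  ∀ (G : Type) [Group G] [Finite G] (N : ℕ), GS G ℓ N → ∀ (e : G → F) (V : Subgroup G) (γ : G → F),
  Ld ℓ e V γ → ∀ (y w : G) (m : ℕ), Cs ℓ V γ y w m → ∀ f : G → ℂ, (∀ v ∈ V, f (v ^ N) = f v) →
  ∀ j : ℕ, ¬ ℓ ∣ j →
  (∀ j' k : ℕ, j ≡ j' [MOD ℓ] → f (y ^ j' * w ^ (ℓ * k)) = f (y ^ j * w ^ (ℓ * k))) ∧
  (Nat.card (Uw (ℓ ^ 1) V) : ℂ)⁻¹ * ∑ᶠ v : Uw (ℓ ^ 1) V, f (y ^ j * v) =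
    (ℓ : ℂ)⁻¹ * ∑ k ∈ Finset.range ℓ, f (y ^ j * w ^ (ℓ * k))

/-! ## 7. The numbers of a fixed character -/

/-- AVN: the numbers `Av` and `vk` of a fixed character depend only on `j` modulo `ℓ`.

Proof.  `GS.gen` gives `r` with `(v ^ j) ^ N ^ r = v ^ j'` for all `ℓ`-elements `v`.  For `s` regular in
`C(y)`: `(y ^ j s) ^ N ^ r = y ^ j' s`, so `χ(y ^ j' s) = χ(y ^ j s)`.  `vk`: `f` from `Sg.coh`,
`vk j k χ = f(y ^ j w ^ (ℓ k))` (CRG (i)), CSM. -/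
def AvnStmt : Prop := ∀ (ℓ : ℕ) [Fact ℓ.Prime] (M : Ideal (integralClosure ℤ ℂ)) [M.IsMaximal],
  (ℓ : integralClosure ℤ ℂ) ∈ M → ∀ (G H : Type) [Group G] [Finite G] [Group H] [Finite H]
  (N : ℕ) (e : G → FF M) (V : Subgroup G) (γ : G → FF M) (b : G → G → FF M) (d : G → ℕ) (c : ℕ)
  (ε : G → ℤ) (y w : G) (β : G → FF M) (π : Cu y →* H) (m K : ℕ) (g : Fin m → H → ℂ) (θ : ℤ),
  Sg M ℓ N e V γ b d c ε y w β π m K g θ → ∀ χ ∈ Rf M N e, ∀ j j' : ℕ, ¬ ℓ ∣ j →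
  j ≡ j' [MOD ℓ] → (∀ p : H → ℂ, Av ℓ π (y ^ j) p χ = Av ℓ π (y ^ j') p χ) ∧
    ∀ k : ℕ, ¬ ℓ ∣ k → vk M ℓ b d ε y w j k χ = vk M ℓ b d ε y w j' k χ

/-- AVL: the number `aa` is an integer at `M`; it is not divisible by `ℓ` if the height is `0`.

Proof.  `f` from `Sg.coh` for `χ`.  AVB (`k = 1`, `W = Uw (ℓ ^ 1) V`) for `f` and `y ^ j`: the average
`A` of `f` over the coset is in `RM M`; CSM: `A = (1/ℓ)(f(y ^ j) + ∑_{k=1}^{ℓ-1} f(y ^ j w ^ (ℓ k)))`, and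
`f(y ^ j w ^ (ℓ k)) = vk j k χ` (`Ch.reg`, CRG (i)).  So `A - aa j χ = (1/ℓ)(f(y ^ j) -
θ bq (y ^ j) χ)`, which is in `ℓ RM M` by `Ch.y` (`m K + 1 = |W| = ℓ ^ 2`, as `|V| = ℓ ^ 4` and
`|⟨y⟩| = ℓ ^ 2`).  So `aa ∈ RM M`.  If `aa/ℓ ∈ RM M` then `A/ℓ ∈ RM M`, and by AVB for the point
`u = y ^ j w ^ ℓ` of the same coset (the same average) `f(u) - A ∈ ℓ RM M`, so
`± vv M b d u χ/ℓ ∈ RM M`, against the hypothesis (`u` is regular). -/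
def AvlStmt : Prop := ∀ (ℓ : ℕ) [Fact ℓ.Prime] (M : Ideal (integralClosure ℤ ℂ)) [M.IsMaximal],
  (ℓ : integralClosure ℤ ℂ) ∈ M → ∀ (G H : Type) [Group G] [Finite G] [Group H] [Finite H]
  (N : ℕ) (e : G → FF M) (V : Subgroup G) (γ : G → FF M) (b : G → G → FF M) (d : G → ℕ) (c : ℕ)
  (ε : G → ℤ) (y w : G) (β : G → FF M) (π : Cu y →* H) (m K : ℕ) (g : Fin m → H → ℂ) (θ : ℤ),
  Sg M ℓ N e V γ b d c ε y w β π m K g θ → ∀ χ ∈ Rf M N e, ∀ j : ℕ, ¬ ℓ ∣ j →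
  aa M ℓ b d ε y w π g θ j χ ∈ RM M ∧
  ((∀ u, Rg V γ u → vv M b d u χ / ℓ ∉ RM M) → aa M ℓ b d ε y w π g θ j χ / ℓ ∉ RM M)

/-- GAL: the Galois conjugates.

Proof.  (i) `C2.Int2Stmt` (`Helper48_C2/INT2.lean`, no hypotheses) for `g s` and `g s'` (`ZE ≤ ZI`),
subtract.  (ii) `ℓ aa j χ = θ ∑_s Av(y ^ j)(g s) + ∑_{k=1}^{ℓ-1} vk j k χ`.  The first part as in (i).
`w ^ (ℓ k)` depends only on `k` modulo `ℓ`; so (reindex `k ↦ j k` modulo `ℓ`)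
`∑_k vk j k χ = ∑_k ε(u_k ^ j) vv(u_k ^ j) χ`, `u_k = y w ^ (ℓ k)`, `ε(u_k ^ j) = ε(u_k)`,
`b(u_k ^ j) = b(u_k)`, `d(u_k ^ j) = d(u_k)` (DPW), and INR for `u_k`, `q = ℓ ^ 2`.  (iii) If all
`Av(y)(g s) χ` are equal then by (i) and the Galois action so are all `Av(y ^ j)(g s) χ`, `ℓ ∤ j` (the
polynomial `P` with `P(ζ) = 0` is divisible by the cyclotomic polynomial), so the first part is
`θ m Av(y ^ j)(g 0) χ` (`m ≥ 1`).  In the second part group the `k` (mod `ℓ`, not `0`) into the classes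
`{k' | y w ^ (ℓ k') is T-conjugate to y w ^ (ℓ k)}`, of `m` elements each (CRG (iii), an equivalence
relation); `ε(u_k)`, `vv(u_k ^ j) χ` are constant on a class (DPW: if `u_k' = t u_k t⁻¹` then
`u_k' ^ j = t u_k ^ j t⁻¹`).  So the second part is `m` times a sum over representatives.
(iv) INR for `u = y w ^ ℓ`. -/
def GalStmt : Prop := ∀ (ℓ : ℕ) [Fact ℓ.Prime] (M : Ideal (integralClosure ℤ ℂ)) [M.IsMaximal],
  (ℓ : integralClosure ℤ ℂ) ∈ M → ∀ (G H : Type) [Group G] [Finite G] [Group H] [Finite H]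
  (N : ℕ) (e : G → FF M) (V : Subgroup G) (γ : G → FF M) (b : G → G → FF M) (d : G → ℕ) (c : ℕ)
  (ε : G → ℤ) (y w : G) (β : G → FF M) (π : Cu y →* H) (m K : ℕ) (g : Fin m → H → ℂ) (θ : ℤ),
  Sg M ℓ N e V γ b d c ε y w β π m K g θ → ∀ ζ : ℂ, IsPrimitiveRoot ζ (ℓ ^ 2) → ∀ χ ∈ Irr G,
  (∀ s s' : Fin m, ∃ n : ℕ → ℤ, ∀ j : ℕ, Av ℓ π (y ^ j) (g s) χ - Av ℓ π (y ^ j) (g s') χ =
    ∑ i ∈ Finset.range (ℓ ^ 2), (n i : ℂ) * ζ ^ (i * j)) ∧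
  (∃ n : ℕ → ℤ, ∀ j : ℕ, ¬ ℓ ∣ j → ℓ * aa M ℓ b d ε y w π g θ j χ =
    ∑ i ∈ Finset.range (ℓ ^ 2), (n i : ℂ) * ζ ^ (i * j)) ∧
  ((∀ s s' : Fin m, Av ℓ π y (g s) χ = Av ℓ π y (g s') χ) →
    ∃ n : ℕ → ℤ, ∀ j : ℕ, ¬ ℓ ∣ j → ℓ * aa M ℓ b d ε y w π g θ j χ =
      m * ∑ i ∈ Finset.range (ℓ ^ 2), (n i : ℂ) * ζ ^ (i * j)) ∧
  ∃ n : ℕ → ℤ, ∀ j : ℕ, ¬ ℓ ∣ j → vk M ℓ b d ε y w j j χ =
    ∑ i ∈ Finset.range (ℓ ^ 2), (n i : ℂ) * ζ ^ (i * j)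

/-! ## 8. Bessel's inequality -/

/-- BSF: orthogonal vectors which agree on a set.

Proof.  Let `x = ∑_{χ ∈ R} |v 0 χ|²`, `w = ∑_{i < n} v i`: `|w|² = n c` by orthogonality, and for
`χ ∈ R` `w χ = n v 0 χ`.  So `n² x = ∑_{χ ∈ R} |w χ|² ≤ |w|² = n c`. -/
def BsfStmt : Prop := ∀ (G : Type) [Group G] [Finite G] (R : Set (G → ℂ)), R ⊆ Irr G →
  ∀ (n : ℕ) (v : ℕ → (G → ℂ) → ℂ) (c : ℝ), 0 < n →
  (∀ i < n, ∀ i' < n, i ≠ i' → ∑ᶠ χ ∈ Irr G, v i χ * starRingEnd ℂ (v i' χ) = 0) →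
  (∀ i < n, ∑ᶠ χ ∈ Irr G, v i χ * starRingEnd ℂ (v i χ) = c) →
  (∀ i < n, ∀ χ ∈ R, v i χ = v 0 χ) → n * ∑ᶠ χ ∈ R, Complex.normSq (v 0 χ) ≤ c

/-- GRM: the Gram matrix.

Proof.  (i) If `j = j'` modulo `ℓ ^ 2` then `y ^ j = y ^ j'`, OAV (iv) and `Cd.gr` (`ipn (g s') (g s)`).
Otherwise OAV (iii) with CRG (ii) (`k = k' = 0`, the element `t`).  (ii) OAV (ii) with CRG (ii): a
`T`-conjugate of `y ^ j' w ^ (ℓ k)`, `ℓ ∤ k`, is not `y ^ j` (last claim of (ii)).  (iii) DOR; by CRG (ii)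
the elements are not conjugate if `j ≠ j'` modulo `ℓ ^ 2`; if they are conjugate then
`ε ε' = 1` (DPW). -/
def GrmStmt : Prop := ∀ (ℓ : ℕ) [Fact ℓ.Prime] (M : Ideal (integralClosure ℤ ℂ)) [M.IsMaximal],
  (ℓ : integralClosure ℤ ℂ) ∈ M → ∀ (G H : Type) [Group G] [Finite G] [Group H] [Finite H]
  (N : ℕ) (e : G → FF M) (V : Subgroup G) (γ : G → FF M) (b : G → G → FF M) (d : G → ℕ) (c : ℕ)
  (ε : G → ℤ) (y w : G) (β : G → FF M) (π : Cu y →* H) (m K : ℕ) (g : Fin m → H → ℂ) (θ : ℤ),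
  Sg M ℓ N e V γ b d c ε y w β π m K g θ → ∀ j j' : ℕ, ¬ ℓ ∣ j → j ≡ j' [MOD ℓ] →
  (∀ s s' : Fin m, (j ≡ j' [MOD ℓ ^ 2] →
      ∑ᶠ χ ∈ Irr G, Av ℓ π (y ^ j) (g s) χ * starRingEnd ℂ (Av ℓ π (y ^ j') (g s') χ) =
        (ℓ : ℂ) ^ 2 * ((if s = s' then 1 else 0) + K)) ∧
    (¬ j ≡ j' [MOD ℓ ^ 2] →
      ∑ᶠ χ ∈ Irr G, Av ℓ π (y ^ j) (g s) χ * starRingEnd ℂ (Av ℓ π (y ^ j') (g s') χ) = 0)) ∧
  (∀ (s : Fin m) (k : ℕ), ¬ ℓ ∣ k → ∑ᶠ χ ∈ Irr G,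
    Av ℓ π (y ^ j) (g s) χ * starRingEnd ℂ (vk M ℓ b d ε y w j' k χ) = 0) ∧
  ∀ k k' : ℕ, ¬ ℓ ∣ k → ¬ ℓ ∣ k' →
    ((j ≡ j' [MOD ℓ ^ 2] ∧ ∃ t ∈ Tg V γ,
        t * (y ^ j * w ^ (ℓ * k)) * t⁻¹ = y ^ j * w ^ (ℓ * k')) →
      ∑ᶠ χ ∈ Irr G, vk M ℓ b d ε y w j k χ * starRingEnd ℂ (vk M ℓ b d ε y w j' k' χ) =
        (ℓ : ℂ) ^ 4) ∧
    (¬ (j ≡ j' [MOD ℓ ^ 2] ∧ ∃ t ∈ Tg V γ,
        t * (y ^ j * w ^ (ℓ * k)) * t⁻¹ = y ^ j * w ^ (ℓ * k')) →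
      ∑ᶠ χ ∈ Irr G, vk M ℓ b d ε y w j k χ * starRingEnd ℂ (vk M ℓ b d ε y w j' k' χ) = 0)

/-- BES: Bessel's inequality for the fixed characters.

Proof.  `m K + 1 = ℓ ^ 2`.  BSF with `R = Rf`, `n = ℓ`, `j_i = j + ℓ i` (all different modulo `ℓ ^ 2`,
equal modulo `ℓ`, AVN); GRM gives the norms:
(1) `v i = Av(y ^ (j_i))(g s) - Av(y ^ (j_i))(g s')`: `c = 2 ℓ ^ 2`;
(2) `v i = ℓ aa j_i = θ ∑_s Av(y ^ (j_i))(g s) + ∑_k vk j_i k`: `ℓ ^ 2 (m + m² K) + ∑_k m ℓ ^ 4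
= m ℓ ^ 4 + (ℓ - 1) m ℓ ^ 4 = m ℓ ^ 5` (CRG (iii): `m` numbers `k'` for each `k`), so
`ℓ ∑_R ℓ² |aa|² ≤ m ℓ ^ 5`;
(3) `v i = vk j_i k`: `c = ℓ ^ 4`;
(4) `m = ℓ - 1`: by CRG (iii) all the `y ^ j w ^ (ℓ k)`, `1 ≤ k < ℓ`, are conjugate under `T`, so all
`vk j k χ` are equal (DPW) and `ℓ aa j χ = θ ∑_s Av(y ^ j)(g s) χ + (ℓ - 1) vk j j χ`,
`ℓ (aa j χ - vk j j χ) = θ ∑_s Av(y ^ j)(g s) χ - vk j j χ`, of norm squared
`m ℓ ^ 4 + ℓ ^ 4 = ℓ ^ 5` (`vk j_i j_i = vk j_i j`, as `w ^ (ℓ k)` depends only on `k` modulo `ℓ`). -/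
def Be2Stmt : Prop := ∀ (ℓ : ℕ) [Fact ℓ.Prime] (M : Ideal (integralClosure ℤ ℂ)) [M.IsMaximal],
  (ℓ : integralClosure ℤ ℂ) ∈ M → ∀ (G H : Type) [Group G] [Finite G] [Group H] [Finite H]
  (N : ℕ) (e : G → FF M) (V : Subgroup G) (γ : G → FF M) (b : G → G → FF M) (d : G → ℕ) (c : ℕ)
  (ε : G → ℤ) (y w : G) (β : G → FF M) (π : Cu y →* H) (m K : ℕ) (g : Fin m → H → ℂ) (θ : ℤ),
  Sg M ℓ N e V γ b d c ε y w β π m K g θ → ∀ j : ℕ, ¬ ℓ ∣ j →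
  (∀ s s' : Fin m, s ≠ s' → ∑ᶠ χ ∈ Rf M N e,
    Complex.normSq (Av ℓ π (y ^ j) (g s) χ - Av ℓ π (y ^ j) (g s') χ) ≤ 2 * ℓ) ∧
  ∑ᶠ χ ∈ Rf M N e, Complex.normSq (aa M ℓ b d ε y w π g θ j χ) ≤ m * ℓ ^ 2 ∧
  (∀ k : ℕ, ¬ ℓ ∣ k → ∑ᶠ χ ∈ Rf M N e, Complex.normSq (vk M ℓ b d ε y w j k χ) ≤ ℓ ^ 3) ∧
  (m = ℓ - 1 → ∑ᶠ χ ∈ Rf M N e,
    Complex.normSq (aa M ℓ b d ε y w π g θ j χ - vk M ℓ b d ε y w j j χ) ≤ ℓ ^ 2)

/-! ## 9. The number of the fixed characters -/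

/-- CNB: the count.

Proof.  `P = |J| > 0`, `ℓ ≥ 3`.  Let `A = {r | a j r ≠ 0 for some j}`, `A_c` the `r ∈ A` with
`X j r s = X j r s'` for all `j, s, s'`, `A_n` the other `r ∈ A`, `Z` the complement of `A`.
(1) For `r ∈ A_n` define `s ~ s'` by: `X j r s = X j r s'` for all `j`.  There are at least two classes,
so at least `m - 1` pairs `{s, s'}` with `s ≁ s'`, so `∑_j ∑_{s<s'} |X j r s - X j r s'|² ≥ (m - 1) P`.
Sum over `A_n` and use the hypothesis `(2 ℓ` for each pair and each `j)`: `(m - 1) P |A_n| ≤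
P (m (m - 1)/2) 2 ℓ`, so `|A_n| ≤ m ℓ`.  (2) `m² P |A_c| + P |A_n| ≤ P m ℓ²`.  So
`|A| = |A_c| + |A_n| ≤ ℓ²/m + |A_n| (1 - 1/m²) ≤ ℓ²/m + m ℓ - ℓ/m`, i.e.
`m |A| ≤ ℓ² + m² ℓ - ℓ`.  (3) If `m = ℓ - 1`: `m |A| ≤ ℓ (ℓ - 1) + ℓ (ℓ - 1)² = ℓ² m`, so `|A| ≤ ℓ²`.
For `r ∈ Z` `a = 0`, `∑_j |a - v|² = ∑_j |v|² ≥ ℓ² P`, and `∑_r ∑_j |a - v|² ≤ ℓ² P`: `|Z| ≤ 1`.  (4) If
`m < ℓ - 1`: `m n = ℓ - 1` with `n ≥ 2`, so `2 m ≤ ℓ - 1`, `ℓ ≥ 5`.  `(m - 2)(2 m - (ℓ - 1)) ≤ 0` gives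
`2 m² ≤ (ℓ + 3) m - 2 (ℓ - 1)`, so `m |A| ≤ ℓ (ℓ - 1) + ℓ m² ≤ ℓ m (ℓ + 3)/2`, `2 |A| ≤ ℓ (ℓ + 3)`.
`|Z| ℓ² P ≤ ℓ³ P`: `|Z| ≤ ℓ`.  `2 |ρ| ≤ ℓ (ℓ + 3) + 2 ℓ = ℓ² + 5 ℓ ≤ 2 ℓ² + 2` (`ℓ² - 5 ℓ + 2 ≥ 0`). -/
def CnbStmt : Prop := ∀ (ℓ m : ℕ) (J ρ : Type) [Fintype J] [Fintype ρ] (X : J → ρ → Fin m → ℂ)
  (a v : J → ρ → ℂ), Odd ℓ → 3 ≤ ℓ → 2 ≤ m → m ∣ ℓ - 1 → 0 < Fintype.card J →
  (∀ j s s', s ≠ s' → ∑ r, Complex.normSq (X j r s - X j r s') ≤ 2 * ℓ) →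
  (∀ j, ∑ r, Complex.normSq (a j r) ≤ m * ℓ ^ 2) →
  (∀ j, ∑ r, Complex.normSq (v j r) ≤ ℓ ^ 3) →
  (m = ℓ - 1 → ∀ j, ∑ r, Complex.normSq (a j r - v j r) ≤ ℓ ^ 2) →
  (∀ r s s', (∀ j, X j r s = X j r s') ∨
    (Fintype.card J : ℝ) ≤ ∑ j, Complex.normSq (X j r s - X j r s')) →
  (∀ r, (∃ j, a j r ≠ 0) → (Fintype.card J : ℝ) ≤ ∑ j, Complex.normSq (a j r)) →
  (∀ r, (∃ j, a j r ≠ 0) → (∀ j s s', X j r s = X j r s') →
    (m : ℝ) ^ 2 * Fintype.card J ≤ ∑ j, Complex.normSq (a j r)) →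
  (∀ r, (∀ j, a j r = 0) → (ℓ : ℝ) ^ 2 * Fintype.card J ≤ ∑ j, Complex.normSq (v j r)) →
  Fintype.card ρ ≤ ℓ ^ 2 + 1

/-- FX1: the number of the fixed characters is larger than the number of modular characters.

Proof.  As `T2.FxsStmt` (`Helper*_AT2`, row FXS) with `T2.StgStmt`: `|R| = ln e + |G|⁻¹ ∑_g ∑_{χ ∈ e}
|χ(g)|²`, the sum over the `g` whose `ℓ`-part `x` has order `ℓ`.  Let `z ∈ V` have order `ℓ`, `b` its
local block (LOC), `χ ∈ e`: `χ(z b^) ≠ 0` (`K9.NzStmt`; `V` is good for `b` by LSB), so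
`χ(z s) ≠ 0` for some regular `s ∈ C(z)`; so the sum is positive, and the integer `|R| - ln e` is
at least one. -/
def Fx1Stmt : Prop := ∀ (ℓ : ℕ) [Fact ℓ.Prime] (M : Ideal (integralClosure ℤ ℂ)) [M.IsMaximal],
  (ℓ : integralClosure ℤ ℂ) ∈ M → ∀ (G : Type) [Group G] [Finite G] (N : ℕ), GS G ℓ N →
  ∀ (e : G → FF M) (V : Subgroup G) (γ : G → FF M), Ld ℓ e V γ → V ≠ ⊥ →
  ln e + 1 ≤ (Rf M N e).ncard

/-- LBZ: the bound for the number of the fixed characters.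

Proof.  CNB with `J` the set of the `j < ℓ ^ 2` prime to `ℓ`, `P = |J| = ℓ (ℓ - 1)`, `ρ = Rf M N e`,
`X j χ s = Av ℓ π (y ^ j) (g s) χ`, `a j χ = aa j χ`, `v j χ = vk j j χ`.  The sums: BE2.  Let `ζ` be
of order `ℓ ^ 2`.  (i) `X j χ s - X j χ s' = ∑ n_i ζ ^ (i j)` (GAL (i)): if it is `0` for `j = 1` then for
all `j` prime to `ℓ` (Galois; or by the divisibility of the polynomial by the cyclotomic
polynomial), otherwise NRM with `a = 2`, `s = 0`, `h = 0` (algebraic integers are in `RM M`); the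
same if it is not `0` for another `j₀` (replace `ζ` by `ζ ^ j₀` and reindex).  (ii) If `aa j χ ≠ 0` for some
`j`: NRM with `s = 1`, `h = 0`: GAL (ii) and AVL.  (iii) In addition all `X j χ s = X j χ s'`: GAL (iii),
`aa j χ/m = (1/ℓ) ∑ n_i ζ ^ (i j)` is in `RM M` (`ℓ ∤ m`), NRM.  (iv) `aa j χ = 0` for all `j`: by AVL
there is a regular `u` with `vv M b d u χ/ℓ ∈ RM M`, and then `vv M b d u' χ/ℓ ∈ RM M` for all
regular `u'` (DCG, see the proof of HGT), also `vv M b d u' χ ≠ 0`; NRM with `s = 0`, `h = 1` and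
GAL (iv) (`vk j j χ = ± vv(y ^ j w ^ (ℓ j)) χ`). -/
def LbzStmt : Prop := ∀ (ℓ : ℕ) [Fact ℓ.Prime] (M : Ideal (integralClosure ℤ ℂ)) [M.IsMaximal],
  (ℓ : integralClosure ℤ ℂ) ∈ M → ∀ (G H : Type) [Group G] [Finite G] [Group H] [Finite H]
  (N : ℕ) (e : G → FF M) (V : Subgroup G) (γ : G → FF M) (b : G → G → FF M) (d : G → ℕ) (c : ℕ)
  (ε : G → ℤ) (y w : G) (β : G → FF M) (π : Cu y →* H) (m K : ℕ) (g : Fin m → H → ℂ) (θ : ℤ),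
  Sg M ℓ N e V γ b d c ε y w β π m K g θ → (Rf M N e).ncard ≤ ℓ ^ 2 + 1

/-! ## 10. The theorem -/

/-- LBC: the bound for the number of modular characters for `C_(ℓ ^ 2) × C_(ℓ ^ 2)`.

Proof.  CST (`K9.InxStmt`).  First case: `T8.Lb8Stmt` with `a = 2`, `k = 1`: `ix |V| ≤ ℓ² n` by
`T8.XctStmt` (`ix |V ^ ℓ| ≤ n`, `|V| = ℓ ^ 4`, `|V ^ ℓ| = ℓ ^ 2`), `|V| = ℓ ^ 2 |V ^ ℓ|`.  Second case: `N`
from `T2.Pr2Stmt`, the data from DAT, SYX, CO2 (a regular element: CRG (i)); so `Sg`, LBZ: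
`|R| ≤ ℓ ^ 2 + 1`, and FX1. -/
def LbcStmt : Prop := ∀ (ℓ : ℕ) [Fact ℓ.Prime] (M : Ideal (integralClosure ℤ ℂ)) [M.IsMaximal],
  (ℓ : integralClosure ℤ ℂ) ∈ M → ℓ ≠ 2 → ∀ (G : Type) [Group G] [Finite G] (e : G → FF M)
  (V : Subgroup G) (γ : G → FF M), Ld ℓ e V γ → Monoid.exponent V = ℓ ^ 2 →
  Nat.card V = ℓ ^ 4 → (∃ x y : G, V = Subgroup.closure {x, y}) → ln e ≤ ℓ ^ 2

/-- LTC: the bound for all the types.

Proof.  `Ty8`: `T8.Lt8Stmt`.  `Tg2`, `a ≥ 3`: `Tb`, `T8.Lt8Stmt`.  `Tg2`, `a = 2`: `|V| ≤ ℓ ^ 4` (two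
generators of order at most `ℓ ^ 2`); if `|V| = ℓ ^ 4`: LBC.  Otherwise `Ty ℓ 2 V (ix V γ)`,
`T2.Lb2Stmt`. -/
def LtcStmt : Prop := ∀ (ℓ : ℕ) [Fact ℓ.Prime] (M : Ideal (integralClosure ℤ ℂ)) [M.IsMaximal],
  (ℓ : integralClosure ℤ ℂ) ∈ M → ℓ ≠ 2 → ∀ (G : Type) [Group G] [Finite G] (e : G → FF M)
  (V : Subgroup G) (γ : G → FF M), Ld ℓ e V γ → ∀ a : ℕ, Ty12 ℓ a V γ → ln e ≤ ℓ ^ a

/-- TCC: the types are closed under quotients.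

Proof.  `T8.Tc8Stmt` for `Ty8`; two generators map to two generators. -/
def TccStmt : Prop := ∀ (ℓ : ℕ) [Fact ℓ.Prime] (F : Type) [Field F], GoodF ℓ F → ∀ (G A : Type)
  [Group G] [Finite G] [Group A] [Finite A] (e : G → F) (V : Subgroup G) (γ : G → F)
  (f : A → F) (V' : Subgroup A) (γ' : A → F), Ld ℓ e V γ → Ld ℓ f V' γ' → ¬ ℓ ∣ ix V γ →
  ∀ a : ℕ, Ty12 ℓ a V γ → Monoid.exponent V' = ℓ ^ a → Fq V γ V' γ' → Ty12 ℓ a V' γ'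

/-- TCA: the main theorem for block idempotents.

Proof.  As `T8.T8aStmt` (`Helper3_AT8/T8A.lean`) with LTC, TCC instead of LT8, TC8. -/
def TcaStmt : Prop := ∀ (ℓ : ℕ) [Fact ℓ.Prime] (M : Ideal (integralClosure ℤ ℂ)) [M.IsMaximal],
  (ℓ : integralClosure ℤ ℂ) ∈ M → ℓ ≠ 2 → ∀ (a : ℕ) (G : Type) [Group G] [Finite G]
  (e : G → FF M) (V : Subgroup G) (γ : G → FF M), Ld ℓ e V γ → Ty12 ℓ a V γ → YY ℓ ⊤ e = 0

/-- FNC: the final theorem.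

Proof.  As `T8.Fn8Stmt` (`Helper24_AT8/FN8.lean`) with TCA instead of T8A: only the second case
changes (`2 ≤ a` instead of `3 ≤ a`, `Tg2` instead of `Tb`). -/
def FncStmt : Prop := ∀ (ℓ : ℕ) [Fact ℓ.Prime] (M : Ideal (integralClosure ℤ ℂ)) [M.IsMaximal],
  (ℓ : integralClosure ℤ ℂ) ∈ M → ℓ ≠ 2 → ∀ (G : Type) [Group G] [Finite G],
  opCore ℓ G ≤ Subgroup.center G → ∀ χ ∈ Irr G, ∀ D : Subgroup G, ML.IsDef ℓ M χ D →
  (∀ x ∈ D, ∀ y ∈ D, x * y = y * x) →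
  ∀ th ∈ IrrBlock M (Subgroup.centralizer (D : Set G)).subtype χ,
  ∀ (A : Type) [Group A] [Finite A] (p : G →* A), Function.Surjective p → p.ker = opCore ℓ G →
  ∀ a : ℕ, Monoid.exponent (D.map p) = ℓ ^ a →
  ((∃ k : ℕ, 0 < k ∧ k ≤ a ∧
      (Nat.card (D.map p) ≤ ℓ ^ (2 * k) * Nat.card (Uw ℓ (D.map p)) ∨ In M D th ℓ ∨
        (In M D th (ℓ ^ (2 * k)) ∧ Fd ℓ M D th)) ∧
      Nat.card (D.map p) ≤ ℓ ^ (a + k - 1) * Nat.card (Uw (ℓ ^ k) (D.map p)) ∧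
      ((∀ s ∈ Iner M D th, ∀ t ∈ Iner M D th,
        s * t * s⁻¹ * t⁻¹ ∈ Subgroup.centralizer (D : Set G)) ∨ In M D th ℓ ∨ Fd ℓ M D th)) ∨
    (2 ≤ a ∧ ∃ x y : A, D.map p = Subgroup.closure {x, y}) ∨
    (0 < a ∧ Fd ℓ M D th ∧ In M D th (ℓ ^ a + 1))) → altSum ℓ M χ = 0

end Pool.Agent.PP.T12
end
end -- Pool.Agent.AT12.Stmts3

section -- Pool.Agent.Helper65_AT12.GRM

/-!
# Squad AT12: GRM, the Gram matrix
-/

set_option autoImplicit false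

open scoped BigOperators

noncomputable section

namespace Pool.Agent.PP.T12.H65

open Pool.Agent.Helper51_AWC Pool.Agent.Helper79_WRA Pool.Agent.PP Pool.Agent.PP.KF
open Pool.Agent.PP.K9 Pool.Agent.PP.K9.H97 Pool.Agent.PP.H75 Pool.Agent.PP.T3 Pool.Agent.PP.T2
open Pool.Agent.PP.T8 Pool.Agent.PP.T12

attribute [local instance] Ideal.Quotient.field

theorem grm (hO : OavStmt) (hC : CrgStmt) (hD : T8.DorStmt) (hP : T8.DpwStmt) : GrmStmt := by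
  intro ℓ _ M _ hM G H _ _ _ _ N e V γ b d c ε y w β π m K g θ hs j j' hj hjj
  have hF : GoodF ℓ (FF M) := H50.fld ℓ Fact.out M hM
  have hℓ : ℓ ≠ 2 := hs.odd
  have hj' : ¬ ℓ ∣ j' := fun h => hj ((Nat.modEq_zero_iff_dvd.1 (hjj.trans
    (Nat.modEq_zero_iff_dvd.2 h))))
  have hcs := hs.cs
  have hsy := hs.sy
  have hdat := hs.dat
  obtain ⟨c1, c2, -⟩ := hC ℓ (FF M) hF hℓ G e V γ hdat.ld y w m hcs
  have hze : ∀ s, g s ∈ ZE M (push π (fun t : Cu y => β t)) := hsy.cd.ze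
  have hrc : ∀ s, Rc ℓ (g s) := hsy.cd.rc
  have hpow : j ≡ j' [MOD ℓ ^ 2] → y ^ j = y ^ j' := by
    intro h
    rw [pow_eq_pow_iff_modEq, hcs.oy]
    exact h
  refine ⟨?_, ?_, ?_⟩
  · intro s s'
    obtain ⟨-, -, o3, o4⟩ := hO ℓ M hM G H 2 e V γ y β π m K g hsy j hj (g s) (hze s) (hrc s)
    constructor
    · intro h
      rw [← hpow h, o4 (g s') (hze s') (hrc s'), hsy.cd.gr s' s]
      simp only [eq_comm (a := s')]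
    · intro h
      refine o3 j' hj' ?_ (g s') (hze s') (hrc s')
      intro t ht h1
      refine h ?_
      have h2 := c2 j' j 0 0 hj' hjj.symm t ht (by simpa using h1)
      exact h2.2.1.symm
  · intro s k hk
    obtain ⟨-, o2, -, -⟩ := hO ℓ M hM G H 2 e V γ y β π m K g hsy j hj (g s) (hze s) (hrc s)
    have h1 := o2 b d c ε hdat (y ^ j' * w ^ (ℓ * k)) (c1 j' k hj' hk) (by
      intro t ht h2
      have h3 := c2 j' j k 0 hj' hjj.symm t ht (by simpa using h2)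
      exact hk (h3.2.2.2 (dvd_zero ℓ)))
    have h2 : ∀ χ : G → ℂ, Av ℓ π (y ^ j) (g s) χ * starRingEnd ℂ (vk M ℓ b d ε y w j' k χ) =
        (ε (y ^ j' * w ^ (ℓ * k)) : ℂ) * (Av ℓ π (y ^ j) (g s) χ *
          starRingEnd ℂ (vv M b d (y ^ j' * w ^ (ℓ * k)) χ)) := by
      intro χ
      unfold vk
      rw [map_mul, map_intCast]
      ring
    simp only [h2]
    rw [← mul_finsum_mem, h1, mul_zero]
  · intro k k' hk hk'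
    have hr := c1 j k hj hk
    have hr' := c1 j' k' hj' hk'
    obtain ⟨d1, d2⟩ := hD ℓ M hM G e V γ b d c ε hdat _ _ hr hr'
    have h2 : ∀ χ : G → ℂ, vk M ℓ b d ε y w j k χ * starRingEnd ℂ (vk M ℓ b d ε y w j' k' χ) =
        ((ε (y ^ j * w ^ (ℓ * k)) : ℂ) * (ε (y ^ j' * w ^ (ℓ * k')) : ℂ)) *
          (vv M b d (y ^ j * w ^ (ℓ * k)) χ *
            starRingEnd ℂ (vv M b d (y ^ j' * w ^ (ℓ * k')) χ)) := by
      intro χ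
      unfold vk
      rw [map_mul, map_intCast]
      ring
    constructor
    · rintro ⟨hmod, t, ht, h3⟩
      have h4 : t * (y ^ j * w ^ (ℓ * k)) * t⁻¹ = y ^ j' * w ^ (ℓ * k') := by
        rw [h3, hpow hmod]
      simp only [h2]
      rw [← mul_finsum_mem, d1 ⟨t⁻¹, inv_mem ht, by rw [← h4]; group⟩]
      obtain ⟨p1, -, -⟩ := hP ℓ M hM hℓ G e V γ b d c ε hdat
      have h5 := (p1 t ht _ hr).2.1
      rw [h4] at h5
      rw [h5, hcs.card]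
      have h6 : (ε (y ^ j * w ^ (ℓ * k)) : ℂ) * (ε (y ^ j * w ^ (ℓ * k)) : ℂ) = 1 := by
        rcases hdat.sg _ hr with h7 | h7
        · rw [h7]; norm_num
        · rw [h7]; norm_num
      rw [h6, one_mul]
      push_cast
      rfl
    · intro hn
      simp only [h2]
      rw [← mul_finsum_mem, d2, mul_zero]
      rintro ⟨t, ht, h3⟩
      obtain ⟨-, h5, -⟩ := c2 j' j k' k hj' hjj.symm t ht h3
      refine hn ⟨h5.symm, t⁻¹, inv_mem ht, ?_⟩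
      rw [← h3, hpow h5.symm]
      group

end Pool.Agent.PP.T12.H65
end
end -- Pool.Agent.Helper65_AT12.GRM
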