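import Pool.Agent.Helper12_AWB.B003
import Pool.Agent.Helper12_AWB.B100
import Pool.Agent.Helper12_AWB.B123
import Pool.Agent.Helper12_AWB.B178
import Pool.Agent.Helper12_AWB.B181

/-!
# Merged copies (generated) of the modules

* `Pool.Agent.WAT.Defs`
* `Pool.Agent.WAT.Stmts`
* `Pool.Agent.WAT.StmtsF`
* `Pool.Agent.WAX.Stmts`
* `Pool.Agent.PFC.Chain`
* `Pool.Agent.PFC.DefsB6`
* `Pool.Agent.PFC.StmtsB6`
* `Pool.Agent.PFD.DefsD5`
* `Pool.Agent.PFD.StmtsD5a`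
* `Pool.Agent.PFD.StmtsD5b`
* `Pool.Agent.Helper21_WAX.LN0`
* `Pool.Agent.Helper58_WAX.LTX`
* `Pool.Agent.Helper82_WAX.BNK`
-/

set_option autoImplicit false

section -- Pool.Agent.WAT.Defs

/-!
# Squad WAT: the theorem of Watanabe for abelian defect groups: definitions

THEOREM.  `e` a block of `G` with an abelian defect group `V`, `γ` a block of `C(V)` under `e`, `T` the
inertial group.  For `z ∈ V` centralised by `T` let `b` be the local block of `C(z)`.  Then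
`l(e) = l(b)`.

COROLLARY.  If `[T, V]` is generated by two elements, or `T / C(V)` acts freely on `[T, V]` and has
order at most `ℓ`, then the alternating sum of `e` is zero (`V` has arbitrary rank).

Everything on top of the squads ATZ (`TB`), AT10 (`T10`), ATW (`TW`), AT12, AT8, AT5, AT3, AT2.
-/

open scoped BigOperators

noncomputable section

namespace Pool.Agent.PP.TV

open Pool.Agent.Helper51_AWC Pool.Agent.Helper79_WRA Pool.Agent.PP Pool.Agent.PP.KF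
open Pool.Agent.PP.K9 Pool.Agent.PP.K9.H97 Pool.Agent.PP.H75 Pool.Agent.PP.T3 Pool.Agent.PP.T2
open Pool.Agent.PP.T5 Pool.Agent.PP.TB
open Pool.Agent.PP.T8 (Rv Fq Fr)

attribute [local instance] Ideal.Quotient.field

section defs

variable {G : Type} [Group G]

/-- the elements of `V` which commute with the inertial group -/
def Zf {F : Type} (V : Subgroup G) (γ : G → F) : Subgroup G :=
  V ⊓ Subgroup.centralizer (Tg V γ : Set G)

/-- the commutator group `[T, V]` -/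
def Vc {F : Type} (V : Subgroup G) (γ : G → F) : Subgroup G := ⁅Tg V γ, V⁆

/-- The inertial quotient acts freely on `[T, V]`. -/
def Fc {F : Type} (V : Subgroup G) (γ : G → F) : Prop :=
  ∀ t ∈ Tg V γ, ∀ v ∈ Vc V γ, v ≠ 1 → t * v = v * t → t ∈ Subgroup.centralizer (V : Set G)

/-- a homomorphism from `V` to the complex numbers which is invariant under the inertial group -/
def Li {F : Type} (V : Subgroup G) (γ : G → F) (lam : V →* ℂ) : Prop :=
  ∀ t ∈ Tg V γ, ∀ v w : V, (w : G) = t * v * t⁻¹ → lam w = lam v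

variable (M : Ideal (integralClosure ℤ ℂ)) [M.IsMaximal]

/-- The alternating sum is zero for all the blocks of groups of order less than `N` whose defect
group `V'` is a quotient of `V` in the sense of `Fq` and satisfies `V' ^ n ≠ 1`. -/
def Iu (ℓ n N : ℕ) (V : Subgroup G) (γ : G → FF M) : Prop :=
  ∀ (A : Type) [Group A] [Finite A], Nat.card A < N → ∀ (f : A → FF M) (V' : Subgroup A)
    (γ' : A → FF M), Ld ℓ f V' γ' → Uw n V' ≠ ⊥ → Fq V γ V' γ' → YY ℓ ⊤ f = 0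

end defs

end Pool.Agent.PP.TV
end
end -- Pool.Agent.WAT.Defs

section -- Pool.Agent.WAT.Stmts

/-!
# Squad WAT: the statements

Complete proofs in the docstrings; all rows are independent (a row may take the rows which it uses as
hypotheses).  Setting: `Ld ℓ e V γ`, `V` abelian, `T = Tg V γ`, `E = T / C(V)`, `b v` the local block
of `v ∈ V`, `cz V V γ v = |C_E(v)|`, `iz V V γ = |E|`, `mm(v) = mm M ℓ (Cu v) v (b v) χ χ`.
-/

open scoped BigOperators

noncomputable section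

namespace Pool.Agent.PP.TV

open Pool.Agent.Helper51_AWC Pool.Agent.Helper79_WRA Pool.Agent.PP Pool.Agent.PP.KF
open Pool.Agent.PP.K9 Pool.Agent.PP.K9.H97 Pool.Agent.PP.H75 Pool.Agent.PP.T3 Pool.Agent.PP.T2
open Pool.Agent.PP.T5 Pool.Agent.PP.TB
open Pool.Agent.PP.T8 (Rv Fq Fr Qt3Stmt FqtStmt)

attribute [local instance] Ideal.Quotient.field

/-! ## 1. The theorem of Watanabe -/

/-- TGI: integrality of the twisted sums.

Proof.  As `TB.GizStmt` (`Helper*_ATZ/GIZ.lean`), with the factor `lam(v)` and `W = Z = V`.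
`F(v) = |V| lam(v) mm(v)` is constant on the `T`-orbits of `V` (`ZcpStmt` (i), `Li`), the orbit of `v`
has `iz/cz(v)` elements (`ZcpStmt` (iii)), so the left side is `iz S`, `S` the sum of `F` over
representatives of the orbits, an algebraic integer (`ZinStmt`; `lam(v)` is a root of unity).  `S` is
rational: choose `a > 0` with `v ^ ℓ ^ a = 1` for all `v ∈ V`, `ζ` of order `ℓ ^ a`, `lam(v) = ζ ^ k(v)`.
For `j` prime to `ℓ` the map `v ↦ v ^ j` is a bijection of `V` and `cz(v ^ j) = cz(v)`, so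
`φ(ℓ ^ a)` times the left side is `∑_v cz(v) ∑_j lam(v) ^ j |V| mm(v ^ j)`, `j < ℓ ^ a` prime to `ℓ`,
and by `ZinStmt` the inner sum is `∑_i m_i ∑_j ζ ^ ((i + k(v)) j)`, a rational integer (the sum over `j`
is `φ(ℓ ^ a)`, `- ℓ ^ (a-1)` or `0`).  A rational algebraic integer is an integer. -/
def TgiStmt : Prop := ∀ (ℓ : ℕ) [Fact ℓ.Prime] (M : Ideal (integralClosure ℤ ℂ)) [M.IsMaximal],
  (ℓ : integralClosure ℤ ℂ) ∈ M → ∀ (G : Type) [Group G] [Finite G] (e : G → FF M)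
  (V : Subgroup G) (γ : G → FF M) (b : G → G → FF M), Zd ℓ e V V γ b →
  ∀ lam : V →* ℂ, Li V γ lam → ∀ χ ∈ Irr G, ∃ n : ℤ,
    (Nat.card V : ℂ) * ∑ᶠ v : V, (cz V V γ (v : G) : ℂ) * lam v *
      mm M ℓ (Cu (v : G)) v (b v) χ χ = (iz V V γ : ℂ) * n

/-- TVA: the twisted sums vanish.

Proof.  Let `A` be the sum.  By `Star` (for `lam ↦ lam⁻¹`, `v ↦ lam(v⁻¹)` is a homomorphism) and the
definitions of `Az`, `Rv`: `A = |V|⁻¹ ∑_v Az(v) lam(v) ∈ RM M`.  TGI: `|V| A = iz n`; `iz` is prime to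
`ℓ` (`ZcpStmt` (iv)), so a unit of `RM M`, and `n/|V| ∈ RM M`, `|V|` a power of `ℓ`: so `|V|` divides `n`
(see the proof of `TB.BfzStmt`; `KF.dvd_of_rr`), and `A = iz m` with an integer `m`.  `mm(v)` is real and
`> 0` for all `v ∈ V` (`PozStmt`, `χ ∈ e`), `cz(v) > 0`, `|lam(v)| = 1`, `lam(1) = 1` and
`lam(v) ≠ 1` for some `v`: so `|A| < ∑_v cz(v) mm(v) = Pw V ≤ iz` (`PjzStmt` with `W = V`; the triangle
inequality is strict: `|cz(1) mm(1) + cz(v) mm(v) lam(v)| < cz(1) mm(1) + cz(v) mm(v)`).  So `m = 0`. -/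
def TvaStmt : Prop := ∀ (ℓ : ℕ) [Fact ℓ.Prime] (M : Ideal (integralClosure ℤ ℂ)) [M.IsMaximal],
  (ℓ : integralClosure ℤ ℂ) ∈ M → ∀ (G : Type) [Group G] [Finite G] (e : G → FF M)
  (V : Subgroup G) (γ : G → FF M) (b : G → G → FF M), Zd ℓ e V V γ b → Star M ℓ e V V γ b →
  ∀ lam : V →* ℂ, Li V γ lam → (∃ v : V, lam v ≠ 1) → ∀ χ ∈ IrrE M e,
    ∑ᶠ v : V, (cz V V γ (v : G) : ℂ) * lam v * mm M ℓ (Cu (v : G)) v (b v) χ χ = 0

/-- SMM: the sum of the `mm(z)` over the characters of the block.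

Proof.  `C = C(z)`, `β = b z`.  For `χ ∈ Irr G` not in `e`: `gv M C (z s) β χ = 0` for regular `s ∈ C`
(`z ≠ 1`: `T3.SmgStmt` (i), `Lb` says that `β` is under `e`; `z = 1`: `β = e`, `IdmStmt`, as in
`TB.OneStmt`), so the sum may be taken over `Irr G`.  `T5.Co3Stmt` (`s' = s`):
`∑_χ gv M C (z s) β χ conj (gv M C (z s) β χ) = kr M C β s s = ∑_{κ ∈ β} κ(s) conj κ(s)`, so the sum is
`|C|⁻¹ ∑_s ∑_κ κ(s) conj κ(s)`, `s` over the regular elements of `C`, which is `ln β`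
(`T3.LrkStmt` for the group `C`). -/
def SmmStmt : Prop := ∀ (ℓ : ℕ) [Fact ℓ.Prime] (M : Ideal (integralClosure ℤ ℂ)) [M.IsMaximal],
  (ℓ : integralClosure ℤ ℂ) ∈ M → ∀ (G : Type) [Group G] [Finite G] (e : G → FF M)
  (V : Subgroup G) (γ : G → FF M) (b : G → G → FF M), Zd ℓ e V V γ b → ∀ z ∈ V,
  ∑ᶠ χ ∈ IrrE M e, mm M ℓ (Cu z) z (b z) χ χ = (ln (fun t : Cu z => b z t) : ℂ)

/-- FOU: Fourier inversion on `V / V₀`.

Proof.  `g(z) = ∑_{w ∈ V₀} f(z w)` depends only on the coset of `z`; for a nontrivial homomorphism `μ`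
of `V/V₀` to the units of the complex numbers, `∑_{z ∈ V/V₀} g(z) μ(z) = ∑_v f(v) μ(v V₀) = 0` (the
composition of `μ` with `V → V/V₀` is a homomorphism to `ℂ` which is trivial on `V₀`, not trivial).
Orthogonality of the characters of the finite abelian group `V/V₀` (for example
`AddChar` / `MonoidHom` duality in Mathlib: enough characters): `g` is constant.  Elementary
alternative: the functions on `V/V₀` with this property are orthogonal to all nontrivial characters. -/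
def FouStmt : Prop := ∀ (V : Type) [CommGroup V] [Finite V] (V₀ : Subgroup V) (f : V → ℂ),
  (∀ lam : V →* ℂ, (∀ v ∈ V₀, lam v = 1) → (∃ v, lam v ≠ 1) → ∑ᶠ v : V, f v * lam v = 0) →
  ∀ z : V, ∑ᶠ w : V₀, f (z * w) = ∑ᶠ w : V₀, f w

/-- CPV: coprime action.

Proof.  `T ≤ N(V)` acts on the abelian group `V` by conjugation, with kernel `C(V)` (`V`, `C(V) ≤ T`: `γ`
is a class function of `C(V)`, supported there), the image `S` in `MulAut V` has order `ix V γ`,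
prime to `ℓ`.  `T8.CprStmt` (first part; exponent of `V` is a power of `ℓ`): `π : V → V` with
`s (π v) = π v = π (s v)` for `s ∈ S`, and `π v = v` if `v` is fixed by `S`.  So `π` has values in
`Zf`, it is the identity on `Zf`, and it is trivial on the commutators `(s v) v⁻¹`, so on `Vc`.  If
`v ∈ Zf ⊓ Vc` then `v = π v = 1`.  `v π(v)⁻¹ ∈ Vc` for all `v`: `π(v) = (∏_{s ∈ S} s v) ^ m'` with
`m m' = 1` modulo the exponent (this is the construction in the proof of `CprStmt`; or: apply the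
first part of `CprStmt` to the abelian group `V/Vc`, on which `S` acts trivially; or count:
`|V| = |Zf| |ker π|`, and `ker π = Vc` because ...; the simplest way is to define `π` directly by this
product), so `V = Zf Vc`. -/
def CpvStmt : Prop := ∀ (ℓ : ℕ) [Fact ℓ.Prime] (F : Type) [Field F], GoodF ℓ F → ∀ (G : Type)
  [Group G] [Finite G] (e : G → F) (V : Subgroup G) (γ : G → F), Ld ℓ e V γ → ¬ ℓ ∣ ix V γ →
  Vc V γ ≤ V ∧ Zf V γ ⊓ Vc V γ = ⊥ ∧ ∀ v ∈ V, ∃ z ∈ Zf V γ, ∃ w ∈ Vc V γ, v = z * w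

/-- DBL: local blocks of local blocks.

Proof.  `C = C(u) ∩ C(v) = C(u') ∩ C(v')`, a subgroup of `G` which contains `C(V)`.  The map
`Cu v → C` (`Cu v` a subgroup of the group `Cu u`) is an isomorphism.  Let `β : G → FF M` be the
extension of `c` by zero, `β'` the extension of `c'`.  `β` is a block of `C` (`Bx C β`; transport of
`c` along the isomorphism) and `br_V(β) γ = γ` (the centraliser of `V.subgroupOf (Cu u)` in `Cu u` is
`C(V)`; compare `T3.LsbStmt`, `Helper85_AT3/LSB.lean`, and `K9.H97`: `cent_sub`, `br_ext0`); the same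
for `β'`.  `γ = br_V(β) br_V(β') γ = br_V(β β') γ ≠ 0` (`H75.br_mulF`), so `β β' ≠ 0` and `β = β'`
(`Bx.dich`).  `ln` is invariant under the isomorphisms (`Helper97_PP/Kri.lean`: `ncard_comp`). -/
def DblStmt : Prop := ∀ (ℓ : ℕ) [Fact ℓ.Prime] (M : Ideal (integralClosure ℤ ℂ)) [M.IsMaximal],
  (ℓ : integralClosure ℤ ℂ) ∈ M → ∀ (G : Type) [Group G] [Finite G] (e : G → FF M)
  (V : Subgroup G) (γ : G → FF M), Ld ℓ e V γ → ∀ u ∈ V, ∀ u' ∈ V, ∀ b b' : G → FF M,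
  Lc e V γ u b → Lc e V γ u' b' → ∀ (v : Cu u) (v' : Cu u'), (v : G) ∈ V → (v' : G) ∈ V →
  Cu u ⊓ Cu (v : G) = Cu u' ⊓ Cu (v' : G) → ∀ (c : Cu u → FF M) (c' : Cu u' → FF M),
  Lc (fun t : Cu u => b t) (V.subgroupOf (Cu u)) (fun t : Cu u => γ t) v c →
  Lc (fun t : Cu u' => b' t) (V.subgroupOf (Cu u')) (fun t : Cu u' => γ t) v' c' →
    ln (fun t : Cu v => c t) = ln (fun t : Cu v' => c' t)

/-- WAT: the theorem of Watanabe.

Proof.  Induction on `|G|`.  `TW.StaStmt`: `b'` with `Zd ℓ e V V γ b'` and `Star`; `b' v` is the local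
block of `v` (`Zd.lb`), so `b' z = b` (`T3.LocStmt`).  `F(v) = cz(v) ln (b' v)`.  For a homomorphism
`lam : V → ℂ` which is trivial on `Vc` and not trivial: `Li V γ lam` (`t v t⁻¹ = (t v t⁻¹ v⁻¹) v`), and
`∑_v F(v) lam(v) = ∑_{χ ∈ e} ∑_v cz(v) lam(v) mm(v) = 0` by SMM and TVA.  FOU for `V`, `V₀ = Vc` (as a
subgroup of `V`): `∑_{w ∈ Vc} F(z w) = ∑_{w ∈ Vc} F(w)`.  Since `z` commutes with `T`,
`T ∩ C(z w) = T ∩ C(w)` and `cz(z w) = cz(w)`.  Claim: `ln (b' (z w)) = ln (b' w)` for `w ∈ Vc`,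
`w ≠ 1`.  If `w` (or `z w`) is in the centre of `G` then it commutes with `T`, so `w ∈ Zf ⊓ Vc`
(`z ∈ Zf`), `w = 1` by CPV (`K9.InxStmt`).  So `C(w)` and `C(z w)` are proper subgroups.  In the group
`C(w)` with the block `b' w`, the defect group `V` and `γ` (`T3.LsbStmt`): the inertial group consists
of the elements of `T ∩ C(w)`, so `z` is in `Zf`; by induction `ln (b' w) = ln c`, `c` the local block
at `z` (`T3.LocStmt`).  The same in `C(z w)`: `ln (b' (z w)) = ln c'`.  `C(w) ∩ C(z) = C(z w) ∩ C(z)`, so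
`ln c = ln c'` by DBL.  So the terms for `w = 1` are equal: `cz(1) ln (b' z) = cz(1) ln (b' 1)`,
`cz(1) > 0` (`ZcpStmt`) and `b' 1 = e` (`C(1) = G`; `ln` of `b' 1` as a function on `Cu 1 = ⊤` is
`ln e`). -/
def WatStmt : Prop := ∀ (ℓ : ℕ) [Fact ℓ.Prime] (M : Ideal (integralClosure ℤ ℂ)) [M.IsMaximal],
  (ℓ : integralClosure ℤ ℂ) ∈ M → ∀ (G : Type) [Group G] [Finite G] (e : G → FF M)
  (V : Subgroup G) (γ : G → FF M), Ld ℓ e V γ → ∀ z ∈ Zf V γ, ∀ b : G → FF M, Lc e V γ z b →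
    ln (fun t : Cu z => b t) = ln e

/-! ## 2. The recursion -/

/-- TSN: the telescoping sum for `U = V ^ n`.

Proof.  As `T8.Ty8aStmt`, `Te8Stmt`, `Tx8Stmt`, `Ts8Stmt` with `Iu` instead of `Iq`, `n` instead of
`ℓ ^ (a-1)` and `Uw n V' ≠ ⊥` instead of `exponent V' = ℓ ^ a` (`Uw n (V.map φ) = (Uw n V).map φ`).
(helper66 proves this row.) -/
def TsnStmt : Prop := ∀ (ℓ : ℕ) [Fact ℓ.Prime] (M : Ideal (integralClosure ℤ ℂ)) [M.IsMaximal],
  (ℓ : integralClosure ℤ ℂ) ∈ M → ∀ (G : Type) [Group G] [Finite G] (e : G → FF M)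
  (V : Subgroup G) (γ : G → FF M), Ld ℓ e V γ → ∀ (n : ℕ) (U : Subgroup G), U = Uw n V → U ≠ ⊥ →
  ∀ f : G → FF M, Fs ℓ e V U γ f → Iu M ℓ n (Nat.card G) V γ →
  YY ℓ ⊤ e = (Nat.card G : ℤ) *
    ((ln e : ℤ) - (ln (fun t : Subgroup.normalizer (U : Set G) => f t) : ℤ))

/-- NLB: the local block of the normaliser block and the normaliser block of the local block.

Proof.  `Uw 1 V = V`, `X = N(V)` (`hU`), `C = C(z)`, `V ≤ X ∩ C`.  `c`, extended by zero to `G`, is a block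
of `X ∩ C` over `γ` (`br_V(c) γ = γ`), and so is `f'`, extended by zero (`f'` is a block of the
normaliser `N_C(V)` of `V.subgroupOf C` in `C`, which is `X ∩ C`; `br f' = br b`, and `br_V(b) γ = γ`).
Two blocks of `X ∩ C ≥ C(V)` with `br_V(·) γ = γ` are equal (see DBL).  `ln` is invariant under the
isomorphisms of `Cu z_X` (in `X`) and `N_C(V)` (in `C`) with `X ∩ C`. -/
def NlbStmt : Prop := ∀ (ℓ : ℕ) [Fact ℓ.Prime] (M : Ideal (integralClosure ℤ ℂ)) [M.IsMaximal],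
  (ℓ : integralClosure ℤ ℂ) ∈ M → ∀ (G : Type) [Group G] [Finite G] (e : G → FF M)
  (V : Subgroup G) (γ : G → FF M), Ld ℓ e V γ → ∀ z ∈ V, ∀ b : G → FF M, Lc e V γ z b →
  ∀ U : Subgroup G, U = V → ∀ f : G → FF M, Fs ℓ e V U γ f →
  ∀ z' : Subgroup.normalizer (U : Set G), (z' : G) = z →
  ∀ c : Subgroup.normalizer (U : Set G) → FF M,
  Lc (fun t : Subgroup.normalizer (U : Set G) => f t)
    (V.subgroupOf (Subgroup.normalizer (U : Set G)))
    (fun t : Subgroup.normalizer (U : Set G) => γ t) z' c →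
  ∀ (U' : Subgroup (Cu z)), U' = V.subgroupOf (Cu z) → ∀ f' : Cu z → FF M,
  Fs ℓ (fun t : Cu z => b t) (V.subgroupOf (Cu z)) U' (fun t : Cu z => γ t) f' →
    ln (fun t : Cu z' => c t) =
      ln (fun t : Subgroup.normalizer (U' : Set (Cu z)) => f' t)

/-! ## 3. The theorem for blocks -/

/-- CLV: closure of the classes under quotients.

Proof.  `π : V → V'`, `t' ∈ T'` induced by `t ∈ T`.  Every commutator `t' v' t'⁻¹ v'⁻¹`, `v' = π v`, is
`π (t v t⁻¹ v⁻¹)`, so `Vc V' γ' ≤ π (Vc V γ)` (`Vc V γ ≤ V` as `T ≤ N(V)`): a subgroup of a quotient of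
`Vc V γ`; `RK2.rk2_sub`, and quotients of `Rk2` are `Rk2` (`Helper66_X4/Rks.lean`: `X4.rk2_surj`).
`Fc`: let `t' ∈ T'` commute with `v' ∈ Vc V' γ'`, `v' ≠ 1`, `v' = π v`, `v ∈ Vc V γ`, `t ∈ T` inducing `t'`,
`m = ix V γ` (prime to `ℓ`), `t ^ m ∈ C(V)`.  `v₁ = ∏_{i < m} t ^ i v t ^ (-i) ∈ Vc V γ` commutes with `t`
and `π v₁ = v' ^ m ≠ 1`, so `v₁ ≠ 1`, `t ∈ C(V)`, so `t'` centralises `V' = π V`.  `ix`: part (2) of the
proof of `T8.Tc8Stmt` (`Helper25_AT8/TC8.lean`). -/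
def ClvStmt : Prop := ∀ (ℓ : ℕ) [Fact ℓ.Prime] (F : Type) [Field F], GoodF ℓ F → ∀ (G A : Type)
  [Group G] [Finite G] [Group A] [Finite A] (e : G → F) (V : Subgroup G) (γ : G → F)
  (f : A → F) (V' : Subgroup A) (γ' : A → F), Ld ℓ e V γ → Ld ℓ f V' γ' → ¬ ℓ ∣ ix V γ →
  Fq V γ V' γ' → (RK2.Rk2 (Vc V γ) → RK2.Rk2 (Vc V' γ')) ∧ (Fc V γ → Fc V' γ') ∧
    ix V' γ' ≤ ix V γ

/-- RB2: the theorem for abelian defect groups with two generators (from `TW.rk2_blk`). -/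
def Rb2Stmt : Prop := ∀ (ℓ : ℕ) [Fact ℓ.Prime] (M : Ideal (integralClosure ℤ ℂ)) [M.IsMaximal],
  (ℓ : integralClosure ℤ ℂ) ∈ M → ∀ (G : Type) [Group G] [Finite G] (e : G → FF M)
  (V : Subgroup G) (γ : G → FF M), Ld ℓ e V γ → V ≠ ⊥ → RK2.Rk2 V → YY ℓ ⊤ e = 0

/-- ABR: the theorem for blocks.

Proof.  Induction on `|G|`.  If `opCore ℓ G ≠ ⊥`: `H96.yzr`.  Let `opCore ℓ G = ⊥`.  `K9.InxStmt`: `ix V γ`
is prime to `ℓ`.  Case `Zf V γ = ⊥`: `Vc V γ = V` by CPV.  If `Rk2 (Vc V γ)`: RB2.  If `Fc V γ` and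
`ix V γ ≤ ℓ`: `Fr V γ`.  `ix V γ ≠ 1` (otherwise `T = C(V)` and `Zf V γ = V ≠ ⊥`), so `ℓ ≠ 2`; let `ℓ ^ a` be
the exponent of `V`, `a > 0`; `T8.T8aStmt` with `Ty8`, third type (`ix V γ ≤ ℓ ≤ ℓ ^ a`).
Case `Zf V γ ≠ ⊥`: `z ∈ Zf V γ`, `z ≠ 1`; `C(z) ≠ G` (otherwise `⟨z⟩` is a normal `ℓ`-subgroup).  `U = V`
(`Uw 1 V = V`), `f` from `T2.FstStmt` (`n = 1`).  `Iu M ℓ 1 |G| V γ` by induction and CLV (`Uw 1 V' = V'`).
TSN: `YY ℓ ⊤ e = |G| (ln e - ln f_X)`, `X = N(V)`.  WAT: `ln e = ln b`, `b` the local block at `z`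
(`T3.LocStmt`), and `ln f_X = ln c`, `c` the local block of `f_X` at `z` (`Fs.ld`; `z` is in `Zf` for `X`,
because the inertial group of `V_X`, `γ_X` consists of elements of `T`).  In the group `C(z)`, with the
block `b` (`T3.LsbStmt`): `YY ℓ ⊤ b = 0` (`z` is central, `opCore ≠ ⊥`, `H96.yzr`), `f'` from
`T2.FstStmt`, and `Iu` for `C(z)` (`|C(z)| < |G|`, `Fq` is transitive or CLV twice: the inertial group of
`V` in `C(z)` consists of elements of `T`, `Vc` becomes smaller or equal, `Rk2` for subgroups by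
`RK2.rk2_sub`, `Fc` restricts, the index divides): by induction all the blocks in question vanish;
TSN: `0 = |C(z)| (ln b - ln f')`.  NLB: `ln c = ln f'`.  So `ln e = ln f_X`. -/
def AbrStmt : Prop := ∀ (ℓ : ℕ) [Fact ℓ.Prime] (M : Ideal (integralClosure ℤ ℂ)) [M.IsMaximal],
  (ℓ : integralClosure ℤ ℂ) ∈ M → ∀ (G : Type) [Group G] [Finite G] (e : G → FF M)
  (V : Subgroup G) (γ : G → FF M), Ld ℓ e V γ → V ≠ ⊥ →
  (RK2.Rk2 (Vc V γ) ∨ (Fc V γ ∧ ix V γ ≤ ℓ)) → YY ℓ ⊤ e = 0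

end Pool.Agent.PP.TV
end
end -- Pool.Agent.WAT.Stmts

section -- Pool.Agent.WAT.StmtsF

/-!
# Squad WAT: the final theorem for characters
-/

open scoped BigOperators

noncomputable section

namespace Pool.Agent.PP.TV

open Pool.Agent.Helper51_AWC Pool.Agent.Helper79_WRA Pool.Agent.PP Pool.Agent.PP.KF
open Pool.Agent.PP.K9 Pool.Agent.PP.K9.H97 Pool.Agent.PP.H75 Pool.Agent.PP.T3 Pool.Agent.PP.T2
open Pool.Agent.PP.T8 (Fd In)

attribute [local instance] Ideal.Quotient.field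

/-- the subgroup generated by the commutators of the elements of the inertial group with the elements
of `D` -/
def Dc (M : Ideal (integralClosure ℤ ℂ)) {G : Type} [Group G] (D : Subgroup G)
    (th : Subgroup.centralizer (D : Set G) → ℂ) : Subgroup G :=
  Subgroup.closure {x | ∃ t ∈ Iner M D th, ∃ d ∈ D, x = t * d * t⁻¹ * d⁻¹}

/-- FNW: the final theorem.  `D` is an abelian defect group of the block of `χ`, larger than `O_ℓ(G)`,
`th` belongs to a block of `C(D)` under the block of `χ`, `Iner M D th` is its inertial group. -/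
def FnwStmt : Prop := ∀ (ℓ : ℕ) [Fact ℓ.Prime] (M : Ideal (integralClosure ℤ ℂ)) [M.IsMaximal],
  (ℓ : integralClosure ℤ ℂ) ∈ M → ∀ (G : Type) [Group G] [Finite G],
  opCore ℓ G ≤ Subgroup.center G → ∀ χ ∈ Irr G, ∀ D : Subgroup G, ML.IsDef ℓ M χ D →
  D ≠ opCore ℓ G → (∀ x ∈ D, ∀ y ∈ D, x * y = y * x) →
  ∀ th ∈ IrrBlock M (Subgroup.centralizer (D : Set G)).subtype χ,
  ((∃ a ∈ D, ∃ b ∈ D, Dc M D th ≤ Subgroup.closure {a, b}) ∨
    (In M D th (ℓ + 1) ∧ ∀ t ∈ Iner M D th, ∀ v ∈ Dc M D th, v ≠ 1 → t * v = v * t →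
      t ∈ Subgroup.centralizer (D : Set G)) ∨
    3 * (Iner M D th).ncard ≤ ℓ * Nat.card (Subgroup.centralizer (D : Set G)) ∨
    (ℓ ≠ 2 ∧ ∃ (A : Type) (_ : Group A) (_ : Finite A) (p : G →* A) (a : ℕ),
      Function.Surjective p ∧ p.ker = opCore ℓ G ∧ Monoid.exponent (D.map p) = ℓ ^ a ∧
      ((∃ k : ℕ, 0 < k ∧ k ≤ a ∧
          (Nat.card (D.map p) ≤ ℓ ^ (2 * k) * Nat.card (Uw ℓ (D.map p)) ∨ In M D th ℓ ∨
            (In M D th (ℓ ^ (2 * k)) ∧ Fd ℓ M D th)) ∧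
          Nat.card (D.map p) ≤ ℓ ^ (a + k - 1) * Nat.card (Uw (ℓ ^ k) (D.map p)) ∧
          ((∀ s ∈ Iner M D th, ∀ t ∈ Iner M D th,
            s * t * s⁻¹ * t⁻¹ ∈ Subgroup.centralizer (D : Set G)) ∨ In M D th ℓ ∨
              Fd ℓ M D th)) ∨
        (0 < a ∧ Fd ℓ M D th ∧ In M D th (ℓ ^ a + 1))))) → altSum ℓ M χ = 0

end Pool.Agent.PP.TV
end
end -- Pool.Agent.WAT.StmtsF

section -- Pool.Agent.WAX.Stmts

/-!
# Squad WAX: abelian defect groups, the conditions on `[T, V]` and on the exponent of `V`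

On top of squad WAT (theorem of Watanabe).  Setting: `Ld ℓ e V γ`, `V` abelian, `T = Tg V γ`,
`E = T / C(V)`, `ix V γ = |E|`, `Vc V γ = [T, V]`, `Zf V γ` the elements of `V` which commute with `T`.
Complete proofs in the docstrings; all rows are independent (a row may take the rows which it uses as
hypotheses).

THEOREM.  Let `ℓ ^ a` be the exponent of `V`, `r` the rank of `[T, V]`.  The alternating sum is zero
if `|E| < ℓ` and `r ≤ a`, or `ℓ ≠ 2`, `E` is abelian and `r ^ 2 < 2 a`, or `2 r ^ 3 + 2 r ep ℓ ≤ a`,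
or `ℓ ≠ 2`, `E` acts freely on `[T, V]` and `|E| ≤ ℓ ^ a`.
-/

open scoped BigOperators

noncomputable section

namespace Pool.Agent.PP.TX

open Pool.Agent.Helper51_AWC Pool.Agent.Helper79_WRA Pool.Agent.PP Pool.Agent.PP.KF
open Pool.Agent.PP.K9 Pool.Agent.PP.K9.H97 Pool.Agent.PP.H75 Pool.Agent.PP.T3 Pool.Agent.PP.T2
open Pool.Agent.PP.T5 Pool.Agent.PP.TB Pool.Agent.PP.TV
open Pool.Agent.PP.T8 (Rv Fq Fr Ei Hk Rk Fd In)

attribute [local instance] Ideal.Quotient.field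

section defs

variable {G : Type} [Group G]

/-- `W / W ^ ℓ` has order at most `ℓ ^ r` (for an abelian `ℓ`-group: `r` generators). -/
def Rr (ℓ r : ℕ) (W : Subgroup G) : Prop := Nat.card W ≤ ℓ ^ r * Nat.card (Uw ℓ W)

/-- The inertial quotient is abelian. -/
def Ab {F : Type} (V : Subgroup G) (γ : G → F) : Prop :=
  ∀ s ∈ Tg V γ, ∀ t ∈ Tg V γ, s * t * s⁻¹ * t⁻¹ ∈ Subgroup.centralizer (V : Set G)

/-- The conditions on the inertial quotient and on the rank `r` of `[T, V]`. -/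
def Tx {F : Type} (ℓ a : ℕ) (V : Subgroup G) (γ : G → F) : Prop :=
  (ℓ ≠ 2 ∧ Fc V γ ∧ ix V γ ≤ ℓ ^ a) ∨
  ∃ r : ℕ, Rr ℓ r (Vc V γ) ∧ ((ix V γ < ℓ ∧ r ≤ a) ∨ (ℓ ≠ 2 ∧ Ab V γ ∧ r ^ 2 < 2 * a) ∨
    2 * r ^ 3 + 2 * r * ep ℓ ≤ a)

end defs

/-! ## 1. Bounds for the number of modular characters -/

/-- LN0: the trivial defect group.

Proof.  `ln e ≤ |IrrE M e|` (`K9.LbdStmt`, `Helper3_K9/Lbd.lean`), and `|IrrE M e| = 1` for a block whose
good `ℓ`-subgroups are trivial (`Tp ℓ e ⊥`: they have order at most `|⊥| = 1`; `K9.DzoStmt`; see the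
last part of `Helper18_AT5/LNB.lean`). -/
def Ln0Stmt : Prop := ∀ (ℓ : ℕ) [Fact ℓ.Prime] (M : Ideal (integralClosure ℤ ℂ)) [M.IsMaximal],
  (ℓ : integralClosure ℤ ℂ) ∈ M → ∀ (G : Type) [Group G] [Finite G] (e : G → FF M)
  (V : Subgroup G) (γ : G → FF M), Ld ℓ e V γ → V = ⊥ → ln e ≤ 1

/-- BNK: the bound from the averages over the cosets of `V ^ (ℓ ^ k)`.

Proof.  As in the proofs of `T8.Lt8Stmt` (first type) and `T8.Lb8Stmt` (`Helper*_AT8/LB8.lean`), without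
the last inequality.  `K9.InxStmt`.  `T8.RtrStmt` gives `y` with `Rk ℓ a 1`, so also `Rk ℓ a k`
(`v ^ (ℓ ^ k)` is an `ℓ`-th power of an element of `V`).  `T8.HkxStmt`, `T8.HgtStmt`.  `N` from
`T2.Pr2Stmt`, the data from `T8.DatStmt`; `T2.FxsStmt` with `T2.StgStmt`: `ln e ≤ |R|`, `R` the set of
the fixed characters; `T8.Bn8Stmt`: `|R| ℓ ^ (k-1) |V ^ (ℓ ^ k)| ≤ |V|`. -/
def BnkStmt : Prop := ∀ (ℓ : ℕ) [Fact ℓ.Prime] (M : Ideal (integralClosure ℤ ℂ)) [M.IsMaximal],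
  (ℓ : integralClosure ℤ ℂ) ∈ M → ℓ ≠ 2 → ∀ (G : Type) [Group G] [Finite G] (e : G → FF M)
  (V : Subgroup G) (γ : G → FF M), Ld ℓ e V γ → ∀ a k : ℕ, 0 < k → k ≤ a →
  Monoid.exponent V = ℓ ^ a → Ei ℓ V γ → Hk ℓ k V γ →
    ln e * ℓ ^ (k - 1) * Nat.card (Uw (ℓ ^ k) V) ≤ Nat.card V

/-- KRG: the bound if there is a regular element.

Proof.  As `SO.HKbStmt` (`Helper*_ASO`, row HKB), which is the case of an elementary abelian `V` of order
`ℓ ^ 2`.  Let `u` be regular, `u ≠ 1` (if `u = 1` then `T = C(V)` and every element of `V` is regular;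
`V = 1`: LN0), of order `q = ℓ ^ b`, `β` its local block, `d` its degree, `v_j(χ) = gv u^j β χ/d`
(`j` prime to `ℓ`; `T3.RglStmt`, `T3.LpwStmt`: the same block, the same degree).  For `χ ∈ e`
`v_1(χ) ≠ 0` (`T5.Nz5Stmt` or `T3`, see HKB), so by `T3.GlpStmt` (`a = b`) `∑_j |v_j(χ)|² ≥ φ(q)`, `j < q`
prime to `ℓ`, and `∑_{χ ∈ Irr G} |v_j(χ)|² = |V|` for every `j` (`T3.Co1Stmt`).  So
`φ(q) |IrrE M e| ≤ φ(q) |V|`, and `ln e ≤ |IrrE M e|` (`K9.LbdStmt`). -/
def KrgStmt : Prop := ∀ (ℓ : ℕ) [Fact ℓ.Prime] (M : Ideal (integralClosure ℤ ℂ)) [M.IsMaximal],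
  (ℓ : integralClosure ℤ ℂ) ∈ M → ∀ (G : Type) [Group G] [Finite G] (e : G → FF M)
  (V : Subgroup G) (γ : G → FF M), Ld ℓ e V γ → (∃ u, Rg V γ u) → ln e ≤ Nat.card V

/-- LXA: small inertial quotients.

Proof.  `V = ⊥`: LN0.  Let `V ≠ ⊥`, `ℓ ^ b` its exponent, `b > 0`.  If `ℓ = 2` then `ix V γ = 1`,
`T = C(V)` and `Zf V γ = V ≠ ⊥`.  BNK with `a = b`, `k = 1` (`Ei`, `Hk` by `ix V γ < ℓ`):
`ln e |V ^ ℓ| ≤ |V| ≤ ℓ ^ r |V ^ ℓ|`. -/
def LxaStmt : Prop := ∀ (ℓ : ℕ) [Fact ℓ.Prime] (M : Ideal (integralClosure ℤ ℂ)) [M.IsMaximal],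
  (ℓ : integralClosure ℤ ℂ) ∈ M → ∀ (G : Type) [Group G] [Finite G] (e : G → FF M)
  (V : Subgroup G) (γ : G → FF M), Ld ℓ e V γ → Zf V γ = ⊥ → ix V γ < ℓ → ∀ r : ℕ,
  Rr ℓ r V → ln e ≤ ℓ ^ r

/-- LXB: abelian inertial quotients.

Proof.  `V = ⊥`: LN0.  Let `V ≠ ⊥`, `ℓ ^ b` its exponent, `b > 0`, so `r > 0` (`|V| ≤ |V ^ ℓ|` gives
`V ^ ℓ = V`, `V = V ^ (ℓ ^ b) = ⊥`).  Let `k = (r + 1) / 2 > 0` (rounded down), so `r ≤ 2 k`, and `Hk ℓ k`
holds (first case).  `|V| ≤ ℓ ^ (r i) |V ^ (ℓ ^ i)|` for all `i` (`TB.UwaStmt` (ii)).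
If `k ≤ b`: BNK (`Ei`, first case): `ln e ℓ ^ (k-1) |V ^ (ℓ ^ k)| ≤ |V| ≤ ℓ ^ (r k) |V ^ (ℓ ^ k)|`, so
`ln e ≤ ℓ ^ ((r-1) k + 1)`; for `r = 2 k`: `(2 k - 1) k + 1 ≤ 2 k ^ 2 + 1 ≤ a` as `4 k ^ 2 < 2 a`; for
`r = 2 k - 1`: `(2 k - 2) k + 1 ≤ a` as `4 k ^ 2 - 4 k + 1 < 2 a`.
If `b < k`: `V ^ (ℓ ^ b) = ⊥`, `|V| ≤ ℓ ^ (r b) ≤ ℓ ^ (r (k-1)) ≤ ℓ ^ a` (`2 k (k-1)` resp.
`(2 k - 1)(k - 1)`), and there is a regular element (`T8.RtrStmt` (i), `Rk.reg` with `v = 1`), so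
KRG gives `ln e ≤ |V|`. -/
def LxbStmt : Prop := ∀ (ℓ : ℕ) [Fact ℓ.Prime] (M : Ideal (integralClosure ℤ ℂ)) [M.IsMaximal],
  (ℓ : integralClosure ℤ ℂ) ∈ M → ℓ ≠ 2 → ∀ (G : Type) [Group G] [Finite G] (e : G → FF M)
  (V : Subgroup G) (γ : G → FF M), Ld ℓ e V γ → Ab V γ → ∀ r a : ℕ, Rr ℓ r V →
  r ^ 2 < 2 * a → ln e ≤ ℓ ^ a

/-- LXC: all inertial quotients, all primes.

Proof.  `TB.BndStmt` with `p = 0`: `Cl ℓ r 0 V` with `Z₀ = V` (`Zc V = V ⊓ C(V) = V`), `Uw (ℓ ^ 0) (Zc V) = V`,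
and `TW.StaStmt` for the last hypothesis.  `cb ℓ r 0 = 2 (r (r r + ep ℓ))`. -/
def LxcStmt : Prop := ∀ (ℓ : ℕ) [Fact ℓ.Prime] (M : Ideal (integralClosure ℤ ℂ)) [M.IsMaximal],
  (ℓ : integralClosure ℤ ℂ) ∈ M → ∀ (G : Type) [Group G] [Finite G] (e : G → FF M)
  (V : Subgroup G) (γ : G → FF M), Ld ℓ e V γ → ∀ r : ℕ, Rr ℓ r V →
    ln e ≤ ℓ ^ (2 * r ^ 3 + 2 * r * ep ℓ)

/-! ## 2. The reduction to `C_V(T) = 1` -/

/-- LNW: a block with the same number of modular characters and without fixed points.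

Proof.  Induction on `|G|`.  If `Zf V γ = ⊥` take `e` itself (`Fq` with `π` = identity).  Let `z ∈ Zf V γ`,
`z ≠ 1`, `C = Cu z`, `b` the local block of `z` (`T3.LocStmt`), `Ld` for `C` by `T3.LsbStmt`,
`ln b = ln e` by WAT.  `Fq` from `G` to `C`: `TV.H38.fq_sub` (`Helper38_WAT/ABR.lean`).  Let
`Q = ⟨z⟩`, central in `C`, `A = C/Q`, `p : C → A`, `f₁ = push p b`: a block (`T3.PsgStmt`) with
`ln f₁ = ln b` (see `Helper18_AT5/LNB.lean`, `e1`), and `V.map p` is a defect group of `f₁`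
(`K9.PugStmt`: good `ℓ`-subgroups of `f₁` have good preimages which contain `Q`; compare the proofs
of `T2.DzaStmt` (`Helper*_AT2/DZA.lean`) and `C2.DuvStmt`).  `T8.Qt3Stmt` for `C`, `b`, `Q` (`N_C(Q) = C` as
`Q` is central, `br_Q(b) = b`; compare `Helper24_AT8/FN8.lean`, which does this for `Q = O_ℓ(G)`): `γ'`
with `Ld ℓ f₁ (V.map p) γ'` and `Fe`, so `Fq` (`T8.FqtStmt` (iv)).  `|A| < |C| ≤ |G|`: induction gives
`f`, `V'`, `γ'` for `A`; `Fq` is transitive (`T8.FqtStmt` (i)). -/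
def LnwStmt : Prop := ∀ (ℓ : ℕ) [Fact ℓ.Prime] (M : Ideal (integralClosure ℤ ℂ)) [M.IsMaximal],
  (ℓ : integralClosure ℤ ℂ) ∈ M → ∀ (G : Type) [Group G] [Finite G] (e : G → FF M)
  (V : Subgroup G) (γ : G → FF M), Ld ℓ e V γ →
  ∃ (A : Type) (_ : Group A) (_ : Finite A) (f : A → FF M) (V' : Subgroup A) (γ' : A → FF M),
    Ld ℓ f V' γ' ∧ ln f = ln e ∧ Fq V γ V' γ' ∧ Zf V' γ' = ⊥

/-- CLR: closure under quotients.

Proof.  `π : V → V'`; `Vc V' γ' ≤ (image of Vc V γ)` (see `TV.ClvStmt`, `Helper13_WAT/CLV.lean`: every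
commutator `t' v' t'⁻¹ v'⁻¹` is `π (t v t⁻¹ v⁻¹)`).  `W ↦ |W : W ^ ℓ|` does not increase for surjective
images (`W/W ^ ℓ → π(W)/π(W) ^ ℓ` is surjective; the `ℓ`-th powers of an abelian group form the image
of a homomorphism, `T2.PwuStmt`) nor for subgroups of abelian groups (`TB.UwaStmt` (i)).  `Ab`: part
(1) of the proof of `T8.Tc8Stmt`.  The exponent of `π(V)` divides the exponent of `V`. -/
def ClrStmt : Prop := ∀ (ℓ : ℕ) [Fact ℓ.Prime] (F : Type) [Field F], GoodF ℓ F → ∀ (G A : Type)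
  [Group G] [Finite G] [Group A] [Finite A] (e : G → F) (V : Subgroup G) (γ : G → F)
  (f : A → F) (V' : Subgroup A) (γ' : A → F), Ld ℓ e V γ → Ld ℓ f V' γ' → ¬ ℓ ∣ ix V γ →
  Fq V γ V' γ' → (∀ r, Rr ℓ r (Vc V γ) → Rr ℓ r (Vc V' γ')) ∧ (Ab V γ → Ab V' γ')

/-- CTX: the conditions `Tx` are closed under quotients.

Proof.  CLR and `TV.ClvStmt` (`Fc`, `ix`). -/
def CtxStmt : Prop := ∀ (ℓ : ℕ) [Fact ℓ.Prime] (F : Type) [Field F], GoodF ℓ F → ∀ (G A : Type)
  [Group G] [Finite G] [Group A] [Finite A] (e : G → F) (V : Subgroup G) (γ : G → F)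
  (f : A → F) (V' : Subgroup A) (γ' : A → F), Ld ℓ e V γ → Ld ℓ f V' γ' → ¬ ℓ ∣ ix V γ →
  Fq V γ V' γ' → ∀ a, Tx ℓ a V γ → Tx ℓ a V' γ'

/-- LTX: the bound (the exponent of `V` does not matter here).

Proof.  LNW: `A`, `f`, `V'`, `γ'` with `ln f = ln e`, `Zf V' γ' = ⊥`; CTX: `Tx ℓ a V' γ'` (`K9.InxStmt`).
`TV.CpvStmt`: `Vc V' γ' = V'`.  If `V' = ⊥`: LN0.  Let `V' ≠ ⊥`.  First case of `Tx`: `Fc V' γ'` is
`Fr V' γ'` (as `Vc V' γ' = V'`), `T8.LfrStmt`: `ln f ≤ ix V' γ' ≤ ℓ ^ a`.  Otherwise `Rr ℓ r V'`: LXA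
(`ℓ ^ r ≤ ℓ ^ a`), LXB, LXC. -/
def LtxStmt : Prop := ∀ (ℓ : ℕ) [Fact ℓ.Prime] (M : Ideal (integralClosure ℤ ℂ)) [M.IsMaximal],
  (ℓ : integralClosure ℤ ℂ) ∈ M → ∀ (G : Type) [Group G] [Finite G] (e : G → FF M)
  (V : Subgroup G) (γ : G → FF M), Ld ℓ e V γ → ∀ a : ℕ, Tx ℓ a V γ → ln e ≤ ℓ ^ a

/-! ## 3. The theorem -/

/-- GEN: the recursion for a class of blocks which is closed under quotients with the same exponent
and for which `ln e ≤ ℓ ^ a`.

Proof.  Copy of `T8.T8aStmt` (`Helper3_AT8/T8A.lean`) with `P` instead of `Ty8 ℓ a V γ`, the hypothesis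
`hcl` instead of TC8 and `hbd` instead of LT8 (the prime `2` is allowed). -/
def GenStmt : Prop := ∀ (ℓ : ℕ) [Fact ℓ.Prime] (M : Ideal (integralClosure ℤ ℂ)) [M.IsMaximal],
  (ℓ : integralClosure ℤ ℂ) ∈ M → ∀ a : ℕ, 0 < a →
  ∀ P : ∀ (G : Type) [Group G], (G → FF M) → Subgroup G → (G → FF M) → Prop,
  (∀ (G A : Type) [Group G] [Finite G] [Group A] [Finite A] (e : G → FF M) (V : Subgroup G)
    (γ : G → FF M) (f : A → FF M) (V' : Subgroup A) (γ' : A → FF M), Ld ℓ e V γ →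
    Ld ℓ f V' γ' → Fq V γ V' γ' → Monoid.exponent V = ℓ ^ a → Monoid.exponent V' = ℓ ^ a →
    P G e V γ → P A f V' γ') →
  (∀ (G : Type) [Group G] [Finite G] (e : G → FF M) (V : Subgroup G) (γ : G → FF M),
    Ld ℓ e V γ → Monoid.exponent V = ℓ ^ a → P G e V γ → ln e ≤ ℓ ^ a) →
  ∀ (G : Type) [Group G] [Finite G] (e : G → FF M) (V : Subgroup G) (γ : G → FF M),
    Ld ℓ e V γ → Monoid.exponent V = ℓ ^ a → P G e V γ → YY ℓ ⊤ e = 0

/-- TXA: the theorem for blocks.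

Proof.  GEN with `P G e V γ = Tx ℓ a V γ`, CTX (`K9.InxStmt`), LTX. -/
def TxaStmt : Prop := ∀ (ℓ : ℕ) [Fact ℓ.Prime] (M : Ideal (integralClosure ℤ ℂ)) [M.IsMaximal],
  (ℓ : integralClosure ℤ ℂ) ∈ M → ∀ (G : Type) [Group G] [Finite G] (e : G → FF M)
  (V : Subgroup G) (γ : G → FF M), Ld ℓ e V γ → ∀ a : ℕ, 0 < a →
  Monoid.exponent V = ℓ ^ a → Tx ℓ a V γ → YY ℓ ⊤ e = 0

/-- FNX: the final theorem.  `D` is an abelian defect group of the block of `χ`, larger than `O_ℓ(G)`,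
`th` belongs to a block of `C(D)` under the block of `χ`, `Iner M D th` is its inertial group,
`Dc M D th` the subgroup generated by the commutators of its elements with the elements of `D`; it has
`r` generators; the exponent of `D/O_ℓ(G)` is at least `ℓ ^ a`.

Proof.  As `TV.FnwStmt` (`Helper66_WAT/FNW.lean`).  With `A = G/O_ℓ(G)`, `V' = D.map p`, `γ'` and `Fe` as
there: the exponent of `V'` is `ℓ ^ a₀`, `a₀ ≥ a`, and `Tx ℓ a` implies `Tx ℓ a₀`.  `r ≤ 2` and `3 |E| ≤ ℓ`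
as in FNW (`TV.AbrStmt`, `T3.T3aStmt`).  For the other cases `Tx ℓ a V' γ'`: by `Fe` the group
`Vc V' γ'` is contained in the image of `n Dc n⁻¹`, which has `r` generators, so `Rr ℓ r (Vc V' γ')`
(abelian `ℓ`-groups; `TB.UwaStmt` (i) for subgroups); `ix V' γ'` is at most the index of the inertial
group of `th` (see FNW and `Helper24_AT8/FN8.lean`, also for `Ab`); `Fc` as in FNW.  TXA. -/
def FnxStmt : Prop := ∀ (ℓ : ℕ) [Fact ℓ.Prime] (M : Ideal (integralClosure ℤ ℂ)) [M.IsMaximal],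
  (ℓ : integralClosure ℤ ℂ) ∈ M → ∀ (G : Type) [Group G] [Finite G],
  opCore ℓ G ≤ Subgroup.center G → ∀ χ ∈ Irr G, ∀ D : Subgroup G, ML.IsDef ℓ M χ D →
  D ≠ opCore ℓ G → (∀ x ∈ D, ∀ y ∈ D, x * y = y * x) →
  ∀ th ∈ IrrBlock M (Subgroup.centralizer (D : Set G)).subtype χ,
  ∀ a : ℕ, 0 < a → (∃ d ∈ D, d ^ ℓ ^ (a - 1) ∉ opCore ℓ G) →
  ∀ r : ℕ, (∃ s : Fin r → G, (∀ i, s i ∈ D) ∧ Dc M D th ≤ Subgroup.closure (Set.range s)) →
  (r ≤ 2 ∨ 3 * (Iner M D th).ncard ≤ ℓ * Nat.card (Subgroup.centralizer (D : Set G)) ∨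
    (In M D th ℓ ∧ r ≤ a) ∨
    (ℓ ≠ 2 ∧ (∀ s ∈ Iner M D th, ∀ t ∈ Iner M D th,
      s * t * s⁻¹ * t⁻¹ ∈ Subgroup.centralizer (D : Set G)) ∧ r ^ 2 < 2 * a) ∨
    2 * r ^ 3 + 2 * r * ep ℓ ≤ a ∨
    (ℓ ≠ 2 ∧ In M D th (ℓ ^ a + 1) ∧ ∀ t ∈ Iner M D th, ∀ v ∈ Dc M D th, v ≠ 1 →
      t * v = v * t → t ∈ Subgroup.centralizer (D : Set G))) → altSum ℓ M χ = 0

end Pool.Agent.PP.TX
end
end -- Pool.Agent.WAX.Stmts

section -- Pool.Agent.PFC.Chain

/-!
# Squad PFC: the chain of the final steps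

`ls F A` (`DefsP.lean`) is the number of simple `A`-modules, `SExt F γ` the output of part (0) and
`PIn F φ α` (`DefsP2.lean`) its input.
`Cy V γ`: the inertial quotient is cyclic.  `Fr V γ` (squad AT8): it acts freely on `V - 1`.

blocks: `PibStmt` (B6) gives `PIn`; `PuiStmt` (B4, B5; `DefsP2.lean`) gives `SExt`; `DefStmt` (B1, B2,
B3) gives the lower bound; `FctStmt` is theorem FC.
-/

open scoped BigOperators

noncomputable section

namespace Pool.Agent.PFC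

open Pool.Agent.Helper51_AWC Pool.Agent.Helper79_WRA Pool.Agent.PP Pool.Agent.PP.KF
open Pool.Agent.PP.K9 Pool.Agent.PP.K9.H97 Pool.Agent.PP.H75 Pool.Agent.PP.T3 Pool.Agent.PP.T2
open Pool.Agent.PP.T8 (Fr)

attribute [local instance] Ideal.Quotient.field

section defs

variable {G : Type} [Group G]

/-- The inertial quotient is cyclic: `T` is generated by `C(V)` and one element. -/
def Cy {F : Type} (V : Subgroup G) (γ : G → F) : Prop :=
  ∃ t ∈ Tg V γ, ∀ x ∈ Tg V γ, ∃ k : ℕ, t ^ k * x⁻¹ ∈ Subgroup.centralizer (V : Set G)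

end defs

/-- DEF: the deformation theorem (blocks B1, B2, B3).

`A` is an algebra over an algebraically closed field of characteristic `ℓ` with the structure `SExt`
over the group algebra of `V ⋊ E`, `V ≠ 1` an abelian `ℓ`-group, `E` cyclic, free on `V - 1`.  Then `A`
has at least `|E|` simple modules. -/
def DefStmt : Prop :=
  ∀ (F V E A : Type) [Field F] [IsAlgClosed F] [CommGroup V] [Fintype V] [Group E] [Fintype E]
    [Ring A] [Algebra F A] (ℓ : ℕ) [CharP F ℓ] (φ : E →* MulAut V) (e0 : E)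
    [Fintype (V ⋊[φ] E)] (γ : V ⋊[φ] E →* A), Ctx ℓ φ e0 → SExt F γ → Nat.card E ≤ ls F A

/-- PIB: the input of part (0) for blocks (block B6). -/
def PibStmt : Prop := ∀ (ℓ : ℕ) [Fact ℓ.Prime] (M : Ideal (integralClosure ℤ ℂ)) [M.IsMaximal],
  (ℓ : integralClosure ℤ ℂ) ∈ M → ∀ (G : Type) [Group G] [Finite G] (e : G → FF M)
  (V : Subgroup G) (γ : G → FF M), Ld ℓ e V γ → V ≠ ⊥ → Fr V γ → Cy V γ →
  ∃ (W E A : Type) (_ : CommGroup W) (_ : Fintype W) (_ : Group E) (_ : Fintype E) (_ : Ring A)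
    (_ : Algebra (FF M) A) (φ : E →* MulAut W) (e0 : E) (α : W →* A),
    Ctx ℓ φ e0 ∧ PIn (FF M) φ ⊥ α ∧ Nat.card E = ix V γ ∧ ls (FF M) A ≤ ln e

/-- FCT: theorem FC.  Proof.  PIB, `PuiStmt`, DEF (`Nat.card E ≤ ls F A' ≤ ls F A ≤ ln e`,
`Nat.card E = ix V γ`), and `T8.LfrStmt` for the other inequality. -/
def FctStmt : Prop := ∀ (ℓ : ℕ) [Fact ℓ.Prime] (M : Ideal (integralClosure ℤ ℂ)) [M.IsMaximal],
  (ℓ : integralClosure ℤ ℂ) ∈ M → ℓ ≠ 2 → ∀ (G : Type) [Group G] [Finite G] (e : G → FF M)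
  (V : Subgroup G) (γ : G → FF M), Ld ℓ e V γ → V ≠ ⊥ → Fr V γ → Cy V γ → ln e = ix V γ

end Pool.Agent.PFC
end
end -- Pool.Agent.PFC.Chain

section -- Pool.Agent.PFC.DefsB6

/-!
# Squad PFC, block B6: definitions

The corner `j (F G) j` of the group ring as a ring (`Crn`), the homomorphism `V → Crn` (`jal`), the
local blocks of the subgroups of `V` (`Lq`), the coherent idempotents (`Jd`).  The elements of the
group ring are functions `G → F` with the product `mulF`; `dl F g` is the element `g`.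
-/

open scoped BigOperators

noncomputable section

namespace Pool.Agent.PFC

open Pool.Agent.Helper51_AWC Pool.Agent.Helper79_WRA Pool.Agent.PP Pool.Agent.PP.KF
open Pool.Agent.PP.K9 Pool.Agent.PP.K9.H97 Pool.Agent.PP.H75 Pool.Agent.PP.T3 Pool.Agent.PP.T2
open Pool.Agent.PP.T8 (Fr rs pw)

section corner

variable {F G : Type} [Field F] [Group G] [Finite G]

/-- the corner `j (F G) j`, a subspace -/
def CnS (j : G → F) : Submodule F (G → F) where
  carrier := {x | mulF j x = x ∧ mulF x j = x}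
  add_mem' := by
    rintro a b ⟨h1, h2⟩ ⟨h3, h4⟩
    exact ⟨by rw [H20.mulF_add, h1, h3], by rw [H20.add_mulF, h2, h4]⟩
  zero_mem' := ⟨H20.mulF_zero j, H20.zero_mulF j⟩
  smul_mem' := by
    rintro c a ⟨h1, h2⟩
    exact ⟨by rw [H20.mulF_smul, h1], by rw [H20.smul_mulF, h2]⟩

/-- The corner `j (F G) j`, `j` an idempotent: a ring with identity `j`. -/
def Crn {j : G → F} (_ : mulF j j = j) : Type := CnS j

variable {j : G → F} (hj : mulF j j = j)

instance : AddCommGroup (Crn hj) := inferInstanceAs (AddCommGroup (CnS j))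

instance : Module F (Crn hj) := inferInstanceAs (Module F (CnS j))

/-- the element of the group ring -/
def cv {hj : mulF j j = j} (x : Crn hj) : G → F := x.1

/-- an element of the group ring as an element of the corner -/
def mkc (x : G → F) (h : mulF j x = x ∧ mulF x j = x) : Crn hj := ⟨x, h⟩

theorem cv_mkc (x : G → F) (h : mulF j x = x ∧ mulF x j = x) : cv (mkc hj x h) = x := rfl

theorem cv_inj {x y : Crn hj} (h : cv x = cv y) : x = y := Subtype.ext h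

theorem cv_l (x : Crn hj) : mulF j (cv x) = cv x := x.2.1

theorem cv_r (x : Crn hj) : mulF (cv x) j = cv x := x.2.2

instance : Mul (Crn hj) := ⟨fun x y => mkc hj (mulF (cv x) (cv y))
  ⟨by rw [← H20.mulF_assoc, cv_l], by rw [H20.mulF_assoc, cv_r]⟩⟩

instance : One (Crn hj) := ⟨mkc hj j ⟨hj, hj⟩⟩

theorem cv_mul (x y : Crn hj) : cv (x * y) = mulF (cv x) (cv y) := rfl

theorem cv_one : cv (1 : Crn hj) = j := rfl

theorem cv_add (x y : Crn hj) : cv (x + y) = cv x + cv y := rfl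

theorem cv_zero : cv (0 : Crn hj) = 0 := rfl

theorem cv_smul (c : F) (x : Crn hj) : cv (c • x) = c • cv x := rfl

instance : Ring (Crn hj) :=
  { (inferInstance : AddCommGroup (Crn hj)) with
    mul := fun x y => x * y
    one := 1
    mul_assoc := fun x y z => cv_inj hj (by
      change mulF (mulF (cv x) (cv y)) (cv z) = mulF (cv x) (mulF (cv y) (cv z))
      exact H20.mulF_assoc _ _ _)
    one_mul := fun x => cv_inj hj (cv_l hj x)
    mul_one := fun x => cv_inj hj (cv_r hj x)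
    left_distrib := fun x y z => cv_inj hj (H20.mulF_add _ _ _)
    right_distrib := fun x y z => cv_inj hj (H20.add_mulF _ _ _)
    zero_mul := fun x => cv_inj hj (H20.zero_mulF _)
    mul_zero := fun x => cv_inj hj (H20.mulF_zero _) }

instance : Algebra F (Crn hj) := Algebra.ofModule
  (fun c x y => cv_inj hj (H20.smul_mulF c (cv x) (cv y)))
  (fun c x y => cv_inj hj (H20.mulF_smul c (cv x) (cv y)))

/-- the compression `j x j` -/
def mkj (x : G → F) : Crn hj := mkc hj (mulF j (mulF x j))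
  ⟨by rw [← H20.mulF_assoc, hj], by rw [H20.mulF_assoc, H20.mulF_assoc, hj]⟩

theorem cv_mkj (x : G → F) : cv (mkj hj x) = mulF j (mulF x j) := rfl

theorem mulF_dl_l (g : G) (a : G → F) : mulF (dl F g) a = fun y => a (g⁻¹ * y) := by
  apply ma_injective
  rw [ma_mul, ma_dl]
  apply ma_ext
  intro y
  rw [ma_coeff]
  have := MonoidAlgebra.coeff_single_mul_apply (ma a) (1 : F) g y
  rw [one_mul] at this
  exact this

theorem mulF_dl_r (g : G) (a : G → F) : mulF a (dl F g) = fun y => a (y * g⁻¹) := by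
  apply ma_injective
  rw [ma_mul, ma_dl]
  apply ma_ext
  intro y
  rw [ma_coeff]
  have := MonoidAlgebra.coeff_mul_single_apply (ma a) (1 : F) g y
  rw [mul_one] at this
  exact this

theorem dl_comm {g : G} {a : G → F} (h : ∀ x, a (g * x * g⁻¹) = a x) :
    mulF (dl F g) a = mulF a (dl F g) := by
  rw [mulF_dl_l, mulF_dl_r]
  funext y
  rw [← h (g⁻¹ * y)]
  congr 1
  group

theorem dl_mul (g h : G) : mulF (dl F g) (dl F h) = dl F (g * h) := by
  rw [mulF_dl_l]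
  funext y
  unfold dl
  by_cases hy : y = g * h
  · subst hy
    simp
  · rw [if_neg hy, if_neg]
    intro h'
    apply hy
    rw [← h']
    group

/-- The interior structure of the corner: `w ↦ ι(w) j`. -/
def jal {W : Type} [Group W] (ι : W →* G) (hv : ∀ w x, j (ι w * x * (ι w)⁻¹) = j x) :
    W →* Crn hj where
  toFun := fun w => mkc hj (mulF (dl F (ι w)) j)
    ⟨by rw [dl_comm (hv w), ← H20.mulF_assoc, hj], by rw [H20.mulF_assoc, hj]⟩
  map_one' := by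
    apply cv_inj
    rw [cv_mkc, cv_one, mulF_dl_l, map_one]
    funext y
    simp
  map_mul' := by
    intro w w'
    apply cv_inj
    rw [cv_mkc, cv_mul, cv_mkc, cv_mkc, map_mul, ← dl_mul, H20.mulF_assoc, H20.mulF_assoc,
      ← H20.mulF_assoc j, ← dl_comm (hv w'), H20.mulF_assoc, hj]

theorem cv_jal {W : Type} [Group W] (ι : W →* G) (hv : ∀ w x, j (ι w * x * (ι w)⁻¹) = j x)
    (w : W) : cv (jal hj ι hv w) = mulF (dl F (ι w)) j := rfl

end corner

section loc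

attribute [local instance] Ideal.Quotient.field

variable (M : Ideal (integralClosure ℤ ℂ)) [M.IsMaximal] {G : Type} [Group G]

/-- A coherent local idempotent: it commutes with `V`, its Brauer images `br_W(j)`, `W ≤ V`, are under
the blocks over `γ` (for `W = V`: under `γ`), the characters of `γ` do not vanish modulo `M` at `j`,
and every element of the algebra of the elements of `j F G j` which commute with `V` has a power
which is `j` or `0`. -/
structure Jd (V : Subgroup G) (γ j : G → FF M) : Prop where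
  id : mulF j j = j
  iv : ∀ v ∈ V, ∀ x, j (v * x * v⁻¹) = j x
  lb : ∀ W : Subgroup G, W ≤ V → ∀ f, T6.Lw V γ W f → mulF (br W j) f = br W j
  nz : ∀ κ ∈ IrrE M (fun t : Subgroup.centralizer (V : Set G) => γ t),
    ∑ᶠ t : Subgroup.centralizer (V : Set G), j t * rr M (κ t) ≠ 0
  lo : ∀ w : G → FF M, (∀ v ∈ V, ∀ x, w (v * x * v⁻¹) = w x) → mulF j w = w → mulF w j = w →
    ∃ n : ℕ, 0 < n ∧ (pw w n = j ∨ pw w n = 0)

end loc

end Pool.Agent.PFC
end
end -- Pool.Agent.PFC.DefsB6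

section -- Pool.Agent.PFC.StmtsB6

/-!
# Squad PFC, block B6, part a: from the block to the input `PIn` of part (0)

`F = FF M`, `e` a block of `G` with the abelian defect group `V`, `γ` a block of `C(V)` under `e`,
`T = Tg V γ`.  `j` is a coherent local idempotent (`Jd`), `A = Crn hj` the corner `j (F G) j` as a ring
(`cv` = the element as a function, `cv_mul`, `cv_one`, `mkj` = compression), `jal` the homomorphism
`w ↦ ι(w) j` from `W ≅ V`.  Elements of the group ring are functions with the product `mulF`, `dl F g`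
is the element `g` (`mulF_dl_l`, `mulF_dl_r`, `dl_comm` in `DefsB6.lean`), `pw x n` the power,
`br Q x` the restriction of `x` to `C(Q)`, `H75.cj g b` the conjugate `g b g⁻¹` (the name `cj` alone is
the conjugation representation of `DefsB4.lean`).  Complete proofs in the docstrings.

Tools.  `H75.br_mulF` and its relatives: the restriction to `C(Q)` is multiplicative on the elements
of `F G` which commute with the `ℓ`-group `Q` (`char F = ℓ`).  `T8.H…min_` and `Helper…/MIN.lean`: the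
proof of `T8.MinStmt`.  The rows are independent: a row may take other rows as hypotheses.
-/

open scoped BigOperators

noncomputable section

namespace Pool.Agent.PFC

open Pool.Agent.Helper51_AWC Pool.Agent.Helper79_WRA Pool.Agent.PP Pool.Agent.PP.KF
open Pool.Agent.PP.K9 Pool.Agent.PP.K9.H97 Pool.Agent.PP.H75 Pool.Agent.PP.T3 Pool.Agent.PP.T2
open Pool.Agent.PP.T8 (Fr rs pw)

attribute [local instance] Ideal.Quotient.field

/-! ## 1. Fusion -/

/-- FUW: the inertial group controls the fusion of the subgroups of `V`.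

Proof.  As `T3.FusStmt` (`Helper79_AT3`, `H79.fus`), with `C(Q)`, `C(Q')` instead of `C(u)`, `C(u')`, and
`T6.LwdStmt` instead of LSB.  `g C(Q') g⁻¹ = C(Q)`, `V ≤ C(Q')` (`V` is abelian), so `g V g⁻¹ ≤ C(Q)` is
good for `cj g b' = b`, in the group `C(Q)`, and it has the order of `V`, so by `FmgStmt` (first part,
for `C(Q)`, `b`, `V`) there is `c ∈ C(Q)` with `c g V g⁻¹ c⁻¹ = V`.  `n = c g` is in `N(V)`,
`n x n⁻¹ = g x g⁻¹` for `x ∈ Q'` (as `g x g⁻¹ ∈ Q`), and `cj n γ` is a block of `C(V)` with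
`br_V(b) cj n γ = cj n γ` (apply `cj n` to `br_V(b') γ = γ`; `cj n b' = cj c b = b`).  `br_V(b)` is a
block of `N(V) ∩ C(Q)` (`FmgStmt`, second part), so by `K9.OrbStmt` (`N = N(V) ∩ C(Q)`, `X = C(V)`)
there is `m ∈ N(V) ∩ C(Q)` with `cj n γ = cj m γ`.  `t = m⁻¹ n ∈ T`,
`t x t⁻¹ = m⁻¹ (g x g⁻¹) m = g x g⁻¹` for `x ∈ Q'`. -/
def FuwStmt : Prop := ∀ (ℓ : ℕ) [Fact ℓ.Prime] (M : Ideal (integralClosure ℤ ℂ)) [M.IsMaximal],
  (ℓ : integralClosure ℤ ℂ) ∈ M → ∀ (G : Type) [Group G] [Finite G] (e : G → FF M)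
  (V : Subgroup G) (γ : G → FF M), Ld ℓ e V γ → ∀ Q Q' : Subgroup G, Q ≤ V → Q' ≤ V →
  ∀ b b', T6.Lw V γ Q b → T6.Lw V γ Q' b' → ∀ g : G, (∀ x, x ∈ Q' ↔ g * x * g⁻¹ ∈ Q) →
  H75.cj g b' = b → ∃ t ∈ Tg V γ, ∀ x ∈ Q', t * x * t⁻¹ = g * x * g⁻¹

/-! ## 2. The coherent local idempotent -/

/-- JEX: existence of `j`.

Proof.  As `T8.MinStmt` (see its docstring and its Lean proof, cited in `AT8/Asm.lean` as `min__`):
`Φ(a) = ∑_{t ∈ C(V)} a(t) rr(κ t)`; let `j` be an idempotent of `F G` which commutes with `V`, with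
`Φ(j) ≠ 0`, such that the rank of `a ↦ j a` is minimal.  `lb`: for `W ≤ V` the local block `f` is a class
function of `C(W)`, extended by zero; it commutes with `V ≤ C(W)`, `br_V(f) γ = γ`.  By IDP
`j' = (j f j) ^ n` is an idempotent for some `n ≥ 1`, it commutes with `V`, `j j' = j' = j' j`;
`br_V(j') γ = br_V(j) γ` (`br_V` is multiplicative on the elements which commute with `V`; as in the
claim in MIN with `w = f`: `br_V(f)` is a class function of `C(V)` and `br_V(f) γ = γ`), so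
`Φ(j') = Φ(j) ≠ 0`, and by minimality `j' = j`: `(j f j) ^ n = j`.  The restriction to `C(W)` is
multiplicative on the elements which commute with `W`, so with `x = br_W(j)`:
`x = (x f x) ^ n = x f` (`f` is a central idempotent of `F C(W)`).  `lo`: let `w` be as in `lo`.  By IDP
`j' = pw w n` is an idempotent for some `n ≥ 1`, it commutes with `V`, `j j' = j' = j' j`.  If
`Φ(j') ≠ 0` then `j' = j` by minimality.  If `Φ(j') = 0` then `Φ(j - j') ≠ 0`, `j - j'` is an idempotent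
which commutes with `V`, so `j - j' = j`, `j' = 0`. -/
def JexStmt : Prop := ∀ (ℓ : ℕ) [Fact ℓ.Prime] (M : Ideal (integralClosure ℤ ℂ)) [M.IsMaximal],
  (ℓ : integralClosure ℤ ℂ) ∈ M → ∀ (G : Type) [Group G] [Finite G] (e : G → FF M)
  (V : Subgroup G) (γ : G → FF M), Ld ℓ e V γ → ∃ j : G → FF M, Jd M V γ j

/-- JUN: `j` is under `e` and `br_V(j)` is under `γ`.

Proof.  `e` is the local block of `⊥` (`C(⊥) = ⊤`, `br ⊥ j = j`; `Bx ⊤ e` by transport along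
`⊤ ≅ G`; `Ld.und`), and `γ` is the local block of `V` (`Ld.gam`, `br V γ = γ`, `γ γ = γ`). -/
def JunStmt : Prop := ∀ (ℓ : ℕ) [Fact ℓ.Prime] (M : Ideal (integralClosure ℤ ℂ)) [M.IsMaximal],
  (ℓ : integralClosure ℤ ℂ) ∈ M → ∀ (G : Type) [Group G] [Finite G] (e : G → FF M)
  (V : Subgroup G) (γ : G → FF M), Ld ℓ e V γ → ∀ j : G → FF M, Jd M V γ j →
  mulF j e = j ∧ mulF e j = j ∧ mulF (br V j) γ = br V j

/-- JCJ: the conjugates of `j` under the inertial group.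

Proof.  Transport of structure along the automorphism `x ↦ t⁻¹ x t` of `G`, which fixes `V` and `γ`
(`cj t γ = γ`).  `lb`: `cj t⁻¹` maps the local block of `W` to a local block of `t⁻¹ W t`.  `nz`:
`κ ∘ (conjugation)` is again in `γ`. -/
def JcjStmt : Prop := ∀ (ℓ : ℕ) [Fact ℓ.Prime] (M : Ideal (integralClosure ℤ ℂ)) [M.IsMaximal],
  (ℓ : integralClosure ℤ ℂ) ∈ M → ∀ (G : Type) [Group G] [Finite G] (e : G → FF M)
  (V : Subgroup G) (γ : G → FF M), Ld ℓ e V γ → ∀ j : G → FF M, Jd M V γ j → ∀ t ∈ Tg V γ,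
  Jd M V γ (H75.cj t j)

/-! ## 3. The Brauer image at `V` -/

/-- NPH: a modular character vanishes at the nilpotent elements of the group ring.

Proof.  `φ(a) = ∑_h a(h) rr(κ h)`.  By (1), (2) in the proof of `T8.Rk1Stmt` (see its Lean proof
`H53.rk1`, `AT8/Asm.lean`): `φ(a ^ ℓ) = φ(a) ^ ℓ`.  So `φ(x) ^ (ℓ ^ k) = φ(x ^ (ℓ ^ k)) = 0` for
`ℓ ^ k ≥ n`.  Second claim: `φ` is a trace: `φ(a b) = φ(b a)`, because `κ` is a class function. -/
def NphStmt : Prop := ∀ (ℓ : ℕ) [Fact ℓ.Prime] (M : Ideal (integralClosure ℤ ℂ)) [M.IsMaximal],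
  (ℓ : integralClosure ℤ ℂ) ∈ M → ∀ (H : Type) [Group H] [Finite H], ∀ κ ∈ Irr H,
  (∀ (x : H → FF M) (n : ℕ), pw x n = 0 → ∑ᶠ h, x h * rr M (κ h) = 0) ∧
  ∀ a b : H → FF M, ∑ᶠ h, mulF a b h * rr M (κ h) = ∑ᶠ h, mulF b a h * rr M (κ h)

/-- LMB: the sum of the coefficients at the elements of `V`.

Proof.  `C = C(V)`, `q = rr (|V| c/|C|)`.  By the proof of `T8.KnzStmt` (`H87.knz`): `γ(s) = q rr κ(s⁻¹)`
for `s ∈ C` regular, `γ` vanishes at the singular elements (`K9`: a central idempotent is supported on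
the regular elements), and `rr κ(y s) = rr κ(s)` if the `ℓ`-part `y` is in `V`, `κ(y s) = 0` if
`y ∉ V`.  `q ≠ 0` as `γ ≠ 0`.  Let `a` be supported on `C`, `a γ = a`.  For `v ∈ V`:
`a(v) = ∑_{t ∈ C} a(t) γ(t⁻¹ v)`.  For `t ∈ C` with `ℓ`-part `y` and regular part `s`, `t⁻¹ v` is regular
iff `v = y` (`v` is a central `ℓ`-element of `C`), and then `γ(t⁻¹ v) = γ(s⁻¹) = q rr κ(s) = q rr κ(t)`.
So the sum over `v ∈ V` is the sum of `a(t) q rr κ(t)` over the `t ∈ C` with `y ∈ V`, and for `y ∉ V`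
`κ(t) = 0`. -/
def LmbStmt : Prop := ∀ (ℓ : ℕ) [Fact ℓ.Prime] (M : Ideal (integralClosure ℤ ℂ)) [M.IsMaximal],
  (ℓ : integralClosure ℤ ℂ) ∈ M → ∀ (G : Type) [Group G] [Finite G] (e : G → FF M)
  (V : Subgroup G) (γ : G → FF M), Ld ℓ e V γ → ∃ q : FF M, q ≠ 0 ∧
  ∀ κ ∈ IrrE M (fun t : Subgroup.centralizer (V : Set G) => γ t), ∀ a : G → FF M,
    (∀ x, x ∉ Subgroup.centralizer (V : Set G) → a x = 0) → mulF a γ = a →
    ∑ᶠ v : V, a v = q * ∑ᶠ t : Subgroup.centralizer (V : Set G), a t * rr M (κ t)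

/-- CFA: `br_V(j) F C(V) br_V(j)` modulo the augmentation ideal of `F V`.

Proof.  Let `C = C(V)`, `j' = br V j`, `L` the set of the `x` in the statement (functions supported on
`C` with `j' x = x = x j'`), `Φ(a) = ∑_{t ∈ C} a(t) rr(κ t)`, a trace function on `F C`.  (1) Every `x ∈ L`
has a power (with positive exponent) which is `j'` or `0`: `w = j x j` commutes with `V`
(`x` is supported on `C(V)`), `br_V(w) = j' x j' = x`, apply `Jd.lo` to `w` and take `br_V`.  (2) If `n ∈ L`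
is nilpotent and `y ∈ L` then `n y` is nilpotent: otherwise `(n y) ^ k = j'`, so `n z = j'` with `z ∈ L`, and
`n ^ m = 0`, `m` minimal, gives `n ^ (m-1) = n ^ (m-1) n z = 0`, a contradiction (`j' ≠ 0` by `nz`).
(3) For `x ∈ L` there is `c ∈ F` such that `x - c j'` is nilpotent: the linear map `y ↦ x y` of `L ≠ 0`
has an eigenvalue `c` (`F` is algebraically closed), so `x - c j'` has no inverse in `L`; (1).
(4) Let `n ∈ L` be nilpotent.  For `g ∈ C`: `∑_{v ∈ V} n(v g) = 0`: it is `∑_v (n g⁻¹)(v)`, `n g⁻¹ γ = n γ g⁻¹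
= n g⁻¹` (`n = n j' = n j' γ` by JUN, `γ` is central in `F C`), so by LMB it is
`q Φ(n g⁻¹) = q Φ(n j' g⁻¹ j')` (trace, `n = j' n j'`), and `n (j' g⁻¹ j')` is nilpotent by (2), so the value
is `0` by NPH.  (5) So `n = ∑_{g} ∑_{v ∈ V} n(v g) (v - 1) g`, `g` over representatives of `V\C`, and
`n = j' n j' = ∑_{v ∈ V} (v - 1) y_v`, `y_v = j' (∑_g n(v g) g) j' ∈ L` (`V` is central in `F C`). -/
def CfaStmt : Prop := ∀ (ℓ : ℕ) [Fact ℓ.Prime] (M : Ideal (integralClosure ℤ ℂ)) [M.IsMaximal],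
  (ℓ : integralClosure ℤ ℂ) ∈ M → ∀ (G : Type) [Group G] [Finite G] (e : G → FF M)
  (V : Subgroup G) (γ : G → FF M), Ld ℓ e V γ → ∀ j : G → FF M, Jd M V γ j → ∀ x : G → FF M,
  (∀ g, g ∉ Subgroup.centralizer (V : Set G) → x g = 0) → mulF (br V j) x = x →
  mulF x (br V j) = x → ∃ (c : FF M) (y : G → G → FF M),
    (∀ v, (∀ g, g ∉ Subgroup.centralizer (V : Set G) → y v g = 0) ∧
      mulF (br V j) (y v) = y v ∧ mulF (y v) (br V j) = y v) ∧
    x = c • br V j + ∑ᶠ v : V, (mulF (dl (FF M) (v : G)) (y v) - y v)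

/-- NKA: Nakayama's lemma for a finite `ℓ`-group in characteristic `ℓ`.

Proof.  `L` is a finite-dimensional space on which the abelian `ℓ`-group `W` acts, `N` a submodule with
`L = N + ∑_w (w - 1) L`.  If `N ≠ L`: the dual of `L/N` is a nonzero representation of `W`, so it has a
nonzero fixed vector `λ` (an `ℓ`-group acting linearly on a nonzero space over a field of
characteristic `ℓ` fixes a nonzero vector; Mathlib for finite fields, or: the product of commuting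
unipotent operators; induction over the elements: `(w - 1) ^ (ℓ ^ a) = w ^ (ℓ ^ a) - 1 = 0`, so
`ker (w - 1) ≠ 0` on every stable nonzero subspace).  `λ` vanishes on `N` and on all `(w - 1) x`, so
`λ = 0`.  Second claim (the same fact): a nonzero stable subspace contains a nonzero fixed vector. -/
def NkaStmt : Prop := ∀ (ℓ : ℕ) [Fact ℓ.Prime] (F W L : Type) [Field F] [CharP F ℓ] [CommGroup W]
  [Finite W] [AddCommGroup L] [Module F L] [FiniteDimensional F L] (ρ : W →* (L →ₗ[F] L)),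
  IsPGroup ℓ W →
  (∀ N : Submodule F L, (∀ w, ∀ x ∈ N, ρ w x ∈ N) →
    (∀ x : L, ∃ n ∈ N, ∃ y : W → L, x = n + ∑ᶠ w, (ρ w (y w) - y w)) → N = ⊤) ∧
  ∀ N : Submodule F L, (∀ w, ∀ x ∈ N, ρ w x ∈ N) → N ≠ ⊥ → ∃ x ∈ N, x ≠ 0 ∧ ∀ w, ρ w x = x

/-- CFB: `br_V(j) F C(V) br_V(j) = F V`.

Proof.  Spanning: CFA and NKA for `L` (as in CFA, a finite-dimensional space on which `V` acts by
`x ↦ v x`), `N` = the span of the `v br_V(j)`.  Free: let `x = ∑ c_v v ≠ 0` in `F V` and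
`x br_V(j) = 0`.  `F V x ≠ 0` is a subspace of the functions on `V` stable under multiplication with
`V`, so by NKA (second claim) it contains a nonzero fixed vector, a multiple of `∑ v` (`V` acts
transitively).  So `∑_v v br_V(j) = 0`; value at `1`: `∑_v br_V(j)(v) = 0`, against LMB
(`a = br_V(j)`, JUN, `Jd.nz`). -/
def CfbStmt : Prop := ∀ (ℓ : ℕ) [Fact ℓ.Prime] (M : Ideal (integralClosure ℤ ℂ)) [M.IsMaximal],
  (ℓ : integralClosure ℤ ℂ) ∈ M → ∀ (G : Type) [Group G] [Finite G] (e : G → FF M)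
  (V : Subgroup G) (γ : G → FF M), Ld ℓ e V γ → ∀ j : G → FF M, Jd M V γ j →
  (∀ x : G → FF M, (∀ g, g ∉ Subgroup.centralizer (V : Set G) → x g = 0) →
    mulF (br V j) x = x → mulF x (br V j) = x →
    ∃ c : V → FF M, x = ∑ᶠ v : V, c v • mulF (dl (FF M) (v : G)) (br V j)) ∧
  (∀ c : V → FF M, ∑ᶠ v : V, c v • mulF (dl (FF M) (v : G)) (br V j) = 0 → c = 0) ∧
  ∑ᶠ v : V, j v ≠ 0

/-! ## 4. The corner as an interior algebra -/

/-- CPS: the corner is a summand of a permutation module, with the frame `g ↦ j g j`.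

Proof.  `Ω = G` with the action `(u, v) g = ι(u) g ι(v)⁻¹`, `b(g) = j g j`, `c_g(a) = a(g)`: equivariant
because `j` commutes with `ι(W)`, and `∑_g a(g) j g j = j a j = a`.  For the second claim the key lemma
on frames (`B4/Key.lean`, `frame_BK`, `frame_iff`; `K` is an `ℓ`-group as a subgroup of `W × W`): the
Brauer kernel at `K` is the set of the fixed elements `a` with `c_g(a) = 0` for all `g ∈ Ω^K`. -/
def CpsStmt : Prop := ∀ (ℓ : ℕ) [Fact ℓ.Prime] (F : Type) [Field F] [CharP F ℓ] (G W : Type)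
  [Group G] [Finite G] [CommGroup W] [Fintype W] (ι : W →* G), Function.Injective ι →
  IsPGroup ℓ W → ∀ (j : G → F) (hj : mulF j j = j) (hv : ∀ w x, j (ι w * x * (ι w)⁻¹) = j x),
  PS (fun K => ∃ g : G, ∀ w : W × W, w ∈ K ↔ ι w.1 * g = g * ι w.2) (bi F (jal hj ι hv)) ∧
  (∀ (K : Subgroup (W × W)) (a : Crn hj), a ∈ Fx (bi F (jal hj ι hv)) K →
    (a ∈ BK (bi F (jal hj ι hv)) K ↔
      ∀ g : G, (∀ w ∈ K, ι w.1 * g = g * ι w.2) → cv a g = 0)) ∧
  ∀ (Q : Subgroup W) (a : Crn hj), a ∈ Fx (cj F (jal hj ι hv)) Q →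
    (a ∈ BK (cj F (jal hj ι hv)) Q ↔
      ∀ g ∈ Subgroup.centralizer ((Q.map ι : Subgroup G) : Set G), cv a g = 0)

/-- CBR: the Brauer map of the corner at a subgroup `Q`.

Proof.  `C = C(ι(Q))`, `β(a) = ` the restriction of `cv a` to `C`.  `a` in the centraliser of
`α(Q) = ι(Q) j`: `ι(u) a = ι(u) j a = a ι(u) j = a ι(u)` for `u ∈ Q`, so `cv a` commutes with `ι(Q)`, and
the restriction to `C` is multiplicative on such elements (`H75.br_mulF`), so `β` is a homomorphism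
of algebras into the corner of `j|C`, `β(1) = j|C`.  Onto: let `x` be in the corner of `j|C`, `x'` its
extension by zero; it commutes with `ι(Q)`; `a = mkj x'`, `β(a) = (j|C) x (j|C) = x`.  Kernel: CPS.  (The
proof that `j|C` is an idempotent of `F C` is part of the row.) -/
def CbrStmt : Prop := ∀ (ℓ : ℕ) [Fact ℓ.Prime] (F : Type) [Field F] [CharP F ℓ] (G W : Type)
  [Group G] [Finite G] [CommGroup W] [Fintype W] (ι : W →* G), Function.Injective ι →
  IsPGroup ℓ W → ∀ (j : G → F) (hj : mulF j j = j) (hv : ∀ w x, j (ι w * x * (ι w)⁻¹) = j x)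
  (Q : Subgroup W), ∃ (hc : mulF
      (fun t : Subgroup.centralizer ((Q.map ι : Subgroup G) : Set G) => j t)
      (fun t : Subgroup.centralizer ((Q.map ι : Subgroup G) : Set G) => j t) =
      (fun t : Subgroup.centralizer ((Q.map ι : Subgroup G) : Set G) => j t))
    (β : Cz F (jal hj ι hv) Q →ₐ[F] Crn hc), Function.Surjective β ∧
    (∀ a t, cv (β a) t = cv (a : Crn hj) t) ∧
    ∀ a, β a = 0 ↔ (a : Crn hj) ∈ BK (cj F (jal hj ι hv)) Q

/-- LCP: from the local algebra to the local data `Lcq`.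

Proof.  CBR: `β`; `π'(a) = π (cv (β a))` is a homomorphism of algebras (`Pj.mul`, `Pj.one`, linear), onto
(`Pj.sur`, `β` onto), it kills `BK`; if `π'(a) = 0` then `β(a)` is nilpotent (`Pj.nil`, the iterated
product is a power in `Crn hc`), so `β(a ^ N) = 0` and `a ^ N ∈ BK`. -/
def LcpStmt : Prop := ∀ (ℓ : ℕ) [Fact ℓ.Prime] (F : Type) [Field F] [CharP F ℓ] (G W : Type)
  [Group G] [Finite G] [CommGroup W] [Fintype W] (ι : W →* G), Function.Injective ι →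
  IsPGroup ℓ W → ∀ (j : G → F) (hj : mulF j j = j) (hv : ∀ w x, j (ι w * x * (ι w)⁻¹) = j x)
  (Q : Subgroup W) (n : ℕ)
  (π : (Subgroup.centralizer ((Q.map ι : Subgroup G) : Set G) → F) →ₗ[F]
    Matrix (Fin n) (Fin n) F),
  Pj (fun t : Subgroup.centralizer ((Q.map ι : Subgroup G) : Set G) => j t) n π →
  ∃ π', Lcq F (jal hj ι hv) Q n π'

/-- JLQ: the restriction of `j` to `C(W)` satisfies the hypotheses of `LpbStmt`.

Proof.  `C = C(W)`, `j₁ = j|C`.  Idempotent: `H75.br_mulF` for the `ℓ`-group `W ≤ V`.  `f j₁ = j₁`: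
`Jd.lb`, `f` is a class function of `C`.  `br_V(j₁) γ = br_V(j₁)`: JUN restricted to `C(V) ≤ C` (the
centraliser of `V.subgroupOf C` in `C` is `C(V)`, as in `Helper39_AT6/LWD.lean`,
`Helper97_K9/NZR.lean`).  The last hypothesis is `Jd.nz` (`C(V) ≤ C`).  LPB. -/
def JlqStmt : Prop := ∀ (ℓ : ℕ) [Fact ℓ.Prime] (M : Ideal (integralClosure ℤ ℂ)) [M.IsMaximal],
  (ℓ : integralClosure ℤ ℂ) ∈ M → ∀ (G : Type) [Group G] [Finite G] (e : G → FF M)
  (V : Subgroup G) (γ : G → FF M), Ld ℓ e V γ → Fr V γ → ∀ j : G → FF M, Jd M V γ j →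
  ∀ W : Subgroup G, W ≤ V → W ≠ ⊥ →
  ∃ n π, Pj (fun t : Subgroup.centralizer (W : Set G) => j t) n π

/-! ## 5. The fields of `PIn` -/

/-- FFA: the fields `fin`, `frm`, `loc`, `top`.

Proof.  `fin`: `Crn hj` is a subspace of the functions.  `frm`: `lam(a) = (cv a)(1)`.  Symmetric:
`(x y)(1) = ∑_t x(t) y(t⁻¹) = (y x)(1)`.  Nondegenerate: if `lam(a b) = 0` for all `b ∈ A` then for
`g ∈ G`, `b = mkj (dl g⁻¹)`: `a(g) = (a g⁻¹)(1) = (j a j g⁻¹)(1) = (a j g⁻¹ j)(1) = 0`.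
`lam(∑_w α(w)) = ∑_w (ι(w) j)(1) = ∑_w j(ι(w)⁻¹) = ∑_{v ∈ V} j(v) ≠ 0` (CFB).  `loc`: `Jd.lo`: every element
of the centraliser has a power (positive exponent) which is `1` or `0`, so it is a unit or
nilpotent, and `1 - a` is a unit if `a` is nilpotent; `1 ≠ 0` (`Jd.nz`).  `top`: `a ∈ Fx (cj α) ⊤` means that
`cv a` commutes with `V`; `x = br_V(cv a)` satisfies the hypotheses of CFB (`br_V` multiplicative), so
`x = ∑ c_v v br_V(j)`, and `a - ∑ c_w α(w)` vanishes on `C(V)`, so it is in `BK` (CPS); if `∑ c_w α(w)`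
is in `BK` then it vanishes on `C(V)`, so `∑ c_v v br_V(j) = 0`, `c = 0` (CFB). -/
def FfaStmt : Prop := ∀ (ℓ : ℕ) [Fact ℓ.Prime] (M : Ideal (integralClosure ℤ ℂ)) [M.IsMaximal],
  (ℓ : integralClosure ℤ ℂ) ∈ M → ∀ (G : Type) [Group G] [Finite G] (e : G → FF M)
  (V : Subgroup G) (γ : G → FF M), Ld ℓ e V γ → ∀ j : G → FF M, Jd M V γ j →
  ∀ (W : Type) [CommGroup W] [Fintype W] (ι : W →* G), Function.Injective ι → ι.range = V →
  ∀ (hj : mulF j j = j) (hv : ∀ w x, j (ι w * x * (ι w)⁻¹) = j x),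
  FiniteDimensional (FF M) (Crn hj) ∧ (∃ lam, Frm (FF M) (jal hj ι hv) lam) ∧
  IsLocalRing (Cz (FF M) (jal hj ι hv) ⊤) ∧ Tpv (FF M) (jal hj ι hv)

/-- FSN: the twisted diagonal subgroups with nonzero Brauer quotient come from `T`.

Proof.  Let `Q' = {v ∈ V | g v g⁻¹ ∈ V}`, `Q = g Q' g⁻¹ ≤ V`, `X = {h | g v g⁻¹ h = h v, v ∈ Q'}`
`= g C(Q') = C(Q) g`.  By hypothesis `x(h₀) ≠ 0` for some `h₀ ∈ X`.  Let `x'` be the restriction of `x` to
`X`, `f`, `f'` the local blocks of `Q`, `Q'` (`T6.LwdStmt`).  (1) `x' = br_Q(j) x' br_{Q'}(j)`: for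
`h ∈ X`, `x(h) = (j x j)(h) = ∑ j(a) x(y) j(c)` over `a y c = h`.  The `ℓ`-group `Q'` acts on these
triples by `(a, y, c) ↦ (v₁ a v₁⁻¹, v₁ y v⁻¹, v c v⁻¹)`, `v₁ = g v g⁻¹`, and the terms are invariant, so
only the fixed triples contribute (`OrbStmt` of `StmtsKR`, `char F = ℓ`): `a ∈ C(Q)`, `y ∈ X`,
`c ∈ C(Q')`.  (2) So `x' = f x' f'` (`Jd.lb`; `f` is central in `F C(Q)`).  Write `x' = y g`, `y` supported on
`C(Q)`: `x' = f y g f' = f y (cj g f') g = y f (cj g f') g`, so `f (cj g f') ≠ 0`; both are blocks of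
`C(Q) = g C(Q') g⁻¹`, so `cj g f' = f` (`Bx.dich`; `Bx` of a conjugate as in `H97.Bx.cj`, with the
conjugated subgroup).  FUW. -/
def FsnStmt : Prop := ∀ (ℓ : ℕ) [Fact ℓ.Prime] (M : Ideal (integralClosure ℤ ℂ)) [M.IsMaximal],
  (ℓ : integralClosure ℤ ℂ) ∈ M → ∀ (G : Type) [Group G] [Finite G] (e : G → FF M)
  (V : Subgroup G) (γ : G → FF M), Ld ℓ e V γ → ∀ j : G → FF M, Jd M V γ j → ∀ (g : G)
  (x : G → FF M), mulF j x = x → mulF x j = x →
  (∀ v ∈ V, g * v * g⁻¹ ∈ V → ∀ h, x (g * v * g⁻¹ * h * v⁻¹) = x h) →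
  (∃ h, (∀ v ∈ V, g * v * g⁻¹ ∈ V → g * v * g⁻¹ * h = h * v) ∧ x h ≠ 0) →
  ∃ t ∈ Tg V γ, ∀ v ∈ V, g * v * g⁻¹ ∈ V → t * v * t⁻¹ = g * v * g⁻¹

/-- FPS: the field `ps`.

Proof.  CPS (first claim), `PsxStmt` (B4a, `H = W × W` is an abelian `ℓ`-group): the stabilisers `K` of
the new frame are `K = {w | ι w.1 g = g ι w.2}` with `¬ Fx K ≤ BK K`.  By CPS (second claim) there is
`a ∈ A` fixed by `K` and `h` with `ι w.1 h = h ι w.2` for `w ∈ K` and `cv a h ≠ 0`.  For `v ∈ V` with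
`g v g⁻¹ ∈ V` the pair `(g v g⁻¹, v)` is in `K`, so FSN applies: `t ∈ T` with `t v t⁻¹ = g v g⁻¹` for these
`v`.  By hypothesis there is `x : E` with `ι (φ x w) = t ι(w) t⁻¹`.  `K = tw (φ x) R`,
`R = {w | g ι(w) g⁻¹ ∈ V}`: `(u, w) ∈ K` iff `ι u = g ι(w) g⁻¹`, iff `w ∈ R` and `u = φ x w`. -/
def FpsStmt : Prop := ∀ (ℓ : ℕ) [Fact ℓ.Prime] (M : Ideal (integralClosure ℤ ℂ)) [M.IsMaximal],
  (ℓ : integralClosure ℤ ℂ) ∈ M → ∀ (G : Type) [Group G] [Finite G] (e : G → FF M)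
  (V : Subgroup G) (γ : G → FF M), Ld ℓ e V γ → ∀ j : G → FF M, Jd M V γ j →
  ∀ (W E : Type) [CommGroup W] [Fintype W] [Group E] (ι : W →* G), Function.Injective ι →
  ι.range = V → ∀ φ : E →* MulAut W, (∀ t ∈ Tg V γ, ∃ x : E, ∀ w, ι (φ x w) = t * ι w * t⁻¹) →
  ∀ (hj : mulF j j = j) (hv : ∀ w x, j (ι w * x * (ι w)⁻¹) = j x),
  PS (fun K => ∃ (x : E) (R : Subgroup W), K = tw (φ x).toMonoidHom R)
    (bi (FF M) (jal hj ι hv))

/-- CJJ: two coherent local idempotents are conjugate.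

Proof.  `C = C(V)`, `Φ(a) = ∑_{t ∈ C} a(t) rr(κ t)`.  The function `rr ∘ κ` on `C` is `w • tr τ` with an
irreducible `τ` of `C` and `w ≠ 0` (`LnoStmt`, `RepStmt` for `C`, `γ|C`, of inertial index one, see the
proof of `LpbStmt`; `w ≠ 0` by `T8.KnzStmt` or `Jd.nz`), so for functions `a` on `C`
`Φ(a) = w tr(ev τ a)`.  `P = ev τ (j|C)`, `P' = ev τ (j'|C)` are not `0` (`Jd.nz`).  Choose matrices with
`tr(P X P' Y) ≠ 0`, and `x, y` supported on `C` with `ev τ x = X`, `ev τ y = Y` (`IsIrr`).  All of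
`j, j', x, y` commute with `V`, and `br_V` is multiplicative on such elements.  `u = j x j' y j`:
`Φ(u) = w tr(P X P' Y P) = w tr(P X P' Y) ≠ 0`, so `u` is not nilpotent (NPH and `br_V`), so
`pw u n = j`, `n > 0` (`Jd.lo`).  `a = j x j'`, `b = j' y j u ^ (n-1)` (`b = j' y j` if `n = 1`):
`a b = u ^ n = j`.  `b a` is an idempotent (`b a b a = b j a = b a`) of `j' F G j'` which commutes with `V`
and is not `0` (`a (b a) b = j ≠ 0`); by `Jd.lo` for `j'` a power of it is `j'` or `0`, so `b a = j'`. -/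
def CjjStmt : Prop := ∀ (ℓ : ℕ) [Fact ℓ.Prime] (M : Ideal (integralClosure ℤ ℂ)) [M.IsMaximal],
  (ℓ : integralClosure ℤ ℂ) ∈ M → ∀ (G : Type) [Group G] [Finite G] (e : G → FF M)
  (V : Subgroup G) (γ : G → FF M), Ld ℓ e V γ → ∀ j j' : G → FF M, Jd M V γ j → Jd M V γ j' →
  ∃ a b : G → FF M, (∀ v ∈ V, ∀ x, a (v * x * v⁻¹) = a x) ∧
    (∀ v ∈ V, ∀ x, b (v * x * v⁻¹) = b x) ∧ mulF j a = a ∧ mulF a j' = a ∧ mulF j' b = b ∧
    mulF b j = b ∧ mulF a b = j ∧ mulF b a = j'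

/-- UNT: the units of `A` which come from the inertial group.

Proof.  `j' = cj t j = t j t⁻¹` satisfies `Jd` (JCJ).  CJJ: `a, b` with `a b = j`, `b a = j'`, `a ∈ j F G j'`,
`b ∈ j' F G j`.  `y = a t`, `y' = t⁻¹ b`: `y = a j' t = a t j`, so `y, y' ∈ A`; `y y' = a b = j`,
`y' y = t⁻¹ b a t = t⁻¹ j' t = j`.  `a` commutes with `V`: `y ι(w) j = a t ι(w) j = a (t ι(w) t⁻¹) t j =
(t ι(w) t⁻¹) a t j = ι(s w) j y`. -/
def UntStmt : Prop := ∀ (ℓ : ℕ) [Fact ℓ.Prime] (M : Ideal (integralClosure ℤ ℂ)) [M.IsMaximal],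
  (ℓ : integralClosure ℤ ℂ) ∈ M → ∀ (G : Type) [Group G] [Finite G] (e : G → FF M)
  (V : Subgroup G) (γ : G → FF M), Ld ℓ e V γ → ∀ j : G → FF M, Jd M V γ j →
  ∀ (W : Type) [CommGroup W] [Fintype W] (ι : W →* G), Function.Injective ι → ι.range = V →
  ∀ (hj : mulF j j = j) (hv : ∀ w x, j (ι w * x * (ι w)⁻¹) = j x), ∀ t ∈ Tg V γ,
  ∀ s : MulAut W, (∀ w, ι (s w) = t * ι w * t⁻¹) →
  ∃ y y' : Crn hj, y * y' = 1 ∧ y' * y = 1 ∧
    ∀ w, y * jal hj ι hv w = jal hj ι hv (s w) * y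

/-- ROT: the finite order of the unit (abstract).

Proof.  `R` (the centraliser of `α(V)`) is local with nil maximal ideal and residue field `F`
(finite-dimensional over an algebraically closed field), `m` the order of `s`.  `z = y ^ m` is in `R`
(`y ^ m α(u) = α(s ^ m u) y ^ m`), a unit, `z = c (1 + n)`, `c ∈ F`, `n` nilpotent.  `(1 + n) ^ (ℓ ^ k) = 1`
for large `k`.  `y` commutes with `z`, so with `1 + n`.  Choose `b` with `b m = 1` modulo `ℓ ^ k` (`ℓ ∤ m`)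
and `y₁ = y (1 + n) ^ (ℓ ^ k (m + 1) (b + 1) - b)` (a positive exponent congruent to `-b`):
`y₁ ^ m = z (1 + n) ^ (- b m) = c`.  `c ≠ 0`, so `c ^ r = 1` for some `r > 0` (`GoodF.tors`), and one can
take `ℓ ∤ r` (`c ^ r = 1`, `r = ℓ r'` implies `c ^ r' = 1` in characteristic `ℓ`).  `o = m r`.  `1 + n ∈ R`
commutes with `α(V)`. -/
def RotStmt : Prop := ∀ (ℓ : ℕ) (F : Type) [Field F], GoodF ℓ F → ∀ (W A : Type) [CommGroup W]
  [Fintype W] [Ring A] [Algebra F A] [FiniteDimensional F A] (α : W →* A),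
  IsLocalRing (Cz F α ⊤) → ∀ (s : MulAut W) (m : ℕ), 0 < m → ¬ ℓ ∣ m → s ^ m = 1 →
  ∀ y y' : A, y * y' = 1 → y' * y = 1 → (∀ u, y * α u = α (s u) * y) →
  ∃ (y₁ y₁' : A) (o : ℕ), y₁ * y₁' = 1 ∧ y₁' * y₁ = 1 ∧ (∀ u, y₁ * α u = α (s u) * y₁) ∧
    y₁ ^ o = 1 ∧ ¬ ℓ ∣ o

/-- LSE: the number of simple modules of `A` is at most the number of modular characters in `e`.

Proof.  Let `K` be the kernel of a surjection `ρ : A → Mat_n(F)`, `n > 0`; `S₀ = F ^ n` is a simple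
`A`-module, `S₀ = A x₀`, `L₀ = {a | ρ(a) x₀ = 0}` a maximal left ideal of `A`.  In the left ideal
`P = F G j` (functions `x` with `x j = x`) let `N₀ = F G L₀` (span of the `x a`, `a ∈ L₀`); `j N₀ ⊆ L₀`
(`j x a = (j x j) a`), and `j ∉ N₀` (else `j ∈ L₀`).  Let `N` be a maximal left submodule of `P` with
`N₀ ≤ N`, `j ∉ N` (finite dimension); it is a maximal submodule of `P`, because `P = F G j`, so `P/N` is
simple: an irreducible representation `σ` of `G` (Burnside: `IsIrr`, compare `Helper20_PP/Ibr.lean`).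
`{a ∈ A | a ∈ N} = L₀` (it contains `L₀`, is not `A`, and `L₀` is maximal).  So `j (P/N) ≅ A/L₀ ≅ S₀`, and
`K = {a ∈ A | ev σ a = 0}`: if `ev σ a = 0` then `a j(P/N) = 0`, so `ρ(a) = 0`; if `ρ(a) = 0` then
`a A ⊆ L₀`, so `a (P/N) = a j (P/N) = 0`.  `actF e (tr σ) = tr σ`: `e j = j` (JUN), so `e` is the identity of
`P/N`.  The function `tr σ` determines `K`: `ev σ a = 0` iff `∑_g (a x)(g) tr σ(g) = 0` for all `x ∈ F G`
(the trace form of the matrix algebra, `ev σ` is onto).  So `K ↦ tr σ` is injective from the set of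
the kernels to the finite set `{f ∈ IBr | actF e f = f}` (`IbfStmt`). -/
def LseStmt : Prop := ∀ (ℓ : ℕ) (F : Type) [Field F], GoodF ℓ F → ∀ (G : Type) [Group G]
  [Finite G] (e j : G → F), IsIdem e → mulF e j = j → ∀ hj : mulF j j = j,
  ls F (Crn hj) ≤ ln e

/-- EGR: the groups `W` and `E`.

Proof.  `W = V` (a type; commutative by `Ld.ab`), `ι` the inclusion.  For `t ∈ T` let `s_t` be the
automorphism `v ↦ t v t⁻¹` of `W` (`T ≤ N(V)`); `t ↦ s_t` is a homomorphism `T → MulAut W` with kernel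
`C(V)` (`C(V) ≤ T`), `E` its range, `φ` the inclusion; `|E| = |T : C(V)| = ix V γ`.  `Cy`: the class of `t₀`
generates `T/C(V)`, `e0 = s_{t₀}`.  `Ctx`: `V` is an `ℓ`-group (`Tp`), not trivial, `ℓ ∤ ix`
(`K9.InxStmt`), free by `Fr`. -/
def EgrStmt : Prop := ∀ (ℓ : ℕ) [Fact ℓ.Prime] (M : Ideal (integralClosure ℤ ℂ)) [M.IsMaximal],
  (ℓ : integralClosure ℤ ℂ) ∈ M → ∀ (G : Type) [Group G] [Finite G] (e : G → FF M)
  (V : Subgroup G) (γ : G → FF M), Ld ℓ e V γ → V ≠ ⊥ → Fr V γ → Cy V γ →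
  ∃ (W E : Type) (_ : CommGroup W) (_ : Fintype W) (_ : Group E) (_ : Fintype E) (ι : W →* G)
    (φ : E →* MulAut W) (e0 : E), Function.Injective ι ∧ ι.range = V ∧ Ctx ℓ φ e0 ∧
    Nat.card E = ix V γ ∧ (∀ t ∈ Tg V γ, ∃ x : E, ∀ w, ι (φ x w) = t * ι w * t⁻¹) ∧
    ∀ x : E, ∃ t ∈ Tg V γ, ∀ w, ι (φ x w) = t * ι w * t⁻¹

/-- PBF: the input of part (0) for blocks (`PibStmt` of `Chain.lean`), from the rows.

Proof.  EGR, JEX: `j`, `hj = Jd.id`, `hv` from `Jd.iv` (`ι w ∈ V`), `A = Crn hj`, `α = jal`.  `fin`, `frm`,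
`loc`, `top`: FFA.  `ps`: FPS.  `lcq`: for `¬ Q ≤ ⊥` the subgroup `Q.map ι` of `V` is not `⊥`: JLQ, LCP.
`uni`: UNT for every `x ∈ E` (`t ∈ T` from EGR; ROT is not needed).  `ls F A ≤ ln e`: LSE, JUN. -/
def PbfStmt : Prop := PibStmt

end Pool.Agent.PFC
end
end -- Pool.Agent.PFC.StmtsB6

section -- Pool.Agent.PFD.DefsD5

/-!
# Squad PFD, block D5: definitions

`Sp V γ U W`: the defect group `V` is the direct product of two subgroups `U ≠ 1` and `W` which are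
normalised by the inertial group `T = Tg V γ`, and `T / C(V)` acts freely on `U - 1`.
`Ei V γ`: the group of the automorphisms of `V` induced by `T`, isomorphic to `T / C(V)`.
-/

open scoped BigOperators

noncomputable section

namespace Pool.Agent.PFD

open Pool.Agent.Helper51_AWC Pool.Agent.Helper79_WRA Pool.Agent.PP Pool.Agent.PP.KF
open Pool.Agent.PP.K9 Pool.Agent.PP.K9.H97 Pool.Agent.PP.H75 Pool.Agent.PP.T3 Pool.Agent.PP.T2

attribute [local instance] Ideal.Quotient.field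

section defs

variable {G : Type} [Group G]

/-- `V = U × W`, both factors are normalised by the inertial group, which acts freely on `U - 1`
modulo `C(V)`, and `U ≠ 1`. -/
structure Sp {F : Type} (V : Subgroup G) (γ : G → F) (U W : Subgroup G) : Prop where
  lu : U ≤ V
  lw : W ≤ V
  dj : U ⊓ W = ⊥
  jn : U ⊔ W = V
  nt : U ≠ ⊥
  su : ∀ t ∈ Tg V γ, ∀ u ∈ U, t * u * t⁻¹ ∈ U
  sw : ∀ t ∈ Tg V γ, ∀ w ∈ W, t * w * t⁻¹ ∈ W
  fr : ∀ t ∈ Tg V γ, ∀ u ∈ U, u ≠ 1 → t * u = u * t → t ∈ Subgroup.centralizer (V : Set G)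

/-- the automorphisms of `V` induced by the inertial group -/
def Ei {F : Type} (V : Subgroup G) (γ : G → F) : Subgroup (MulAut V) :=
  ((Tg V γ).subgroupOf (Subgroup.normalizer (V : Set G))).map V.normalizerMonoidHom

/-- the number of conjugacy classes of `T / C(V)` -/
def ke {F : Type} (V : Subgroup G) (γ : G → F) : ℕ := Nat.card (ConjClasses (Ei V γ))

end defs

end Pool.Agent.PFD
end
end -- Pool.Agent.PFD.DefsD5

section -- Pool.Agent.PFD.StmtsD5a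

/-!
# Squad PFD, block D5, part a: the block side for `V = U × W`

`F = FF M`, `e` a block of `G` with the abelian defect group `V`, `γ` a block of `C(V)` under `e`,
`T = Tg V γ`, `Sp V γ U W`: `V = U × W`, both factors normalised by `T`, `T / C(V)` free on `U - 1`,
`U ≠ 1`.  `j` is a coherent local idempotent (`PFC.Jd`), `A = Crn hj`.  Target: `PbxStmt`, the input
`PIn` of `PmzStmt` (`Pool/Agent/PFC/DefsP2.lean`) for blocks, with `ls F A = ln e` and
`dim Z(A) = |Irr(e)|`.  Complete proofs in the docstrings; a row may take other rows (also those of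
`PFC/StmtsB6.lean`, `PFC/StmtsB6b.lean`) as hypotheses.
-/

open scoped BigOperators

noncomputable section

namespace Pool.Agent.PFD

open Pool.Agent.Helper51_AWC Pool.Agent.Helper79_WRA Pool.Agent.PP Pool.Agent.PP.KF
open Pool.Agent.PP.K9 Pool.Agent.PP.K9.H97 Pool.Agent.PP.H75 Pool.Agent.PP.T3 Pool.Agent.PP.T2
open Pool.Agent.PFC (Jd Crn jal Pj PIn Ctf ls Cz cv)

attribute [local instance] Ideal.Quotient.field

/-- SPF: the fixed points of the inertial group.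

Proof.  `v = u w`, `u ∈ U`, `w ∈ W` (`V` is abelian, `U ⊔ W = V`).  If `t` commutes with `v` then
`u w = (t u t⁻¹)(t w t⁻¹)`, so `(t u t⁻¹)⁻¹ u = (t w t⁻¹) w⁻¹ ∈ U ⊓ W = 1`, so `t u = u t`: `t ∈ C(V)`, or
`u = 1` and `v ∈ W`. -/
def SpfStmt : Prop := ∀ (ℓ : ℕ) (F : Type) [Field F] (G : Type) [Group G] [Finite G] (e : G → F)
  (V : Subgroup G) (γ : G → F), Ld ℓ e V γ → ∀ U W : Subgroup G, Sp V γ U W →
  ∀ t ∈ Tg V γ, ∀ v ∈ V, t * v = v * t → t ∈ Subgroup.centralizer (V : Set G) ∨ v ∈ W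

/-- JLX: the local algebra at `Q`, if only `C(V)` centralises `Q` in the inertial group.

Proof.  As `PFC.JlqStmt` and `PFC.LpbStmt` (their Lean files), where the freeness is used only for
this: the inertial group of the local block `f` of `C(Q)` is the set of the elements of `C(Q)` in
`Tg V γ` (`T6.LwdStmt`), so by hypothesis it is `C(V)` and the inertial index of `f` is one.  (If
`Q = ⊥` this means that the inertial index of `e` is one; the proof is the same.) -/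
def JlxStmt : Prop := ∀ (ℓ : ℕ) [Fact ℓ.Prime] (M : Ideal (integralClosure ℤ ℂ)) [M.IsMaximal],
  (ℓ : integralClosure ℤ ℂ) ∈ M → ∀ (G : Type) [Group G] [Finite G] (e : G → FF M)
  (V : Subgroup G) (γ : G → FF M), Ld ℓ e V γ → ∀ j : G → FF M, Jd M V γ j →
  ∀ Q : Subgroup G, Q ≤ V →
  (∀ t ∈ Tg V γ, (∀ u ∈ Q, t * u = u * t) → t ∈ Subgroup.centralizer (V : Set G)) →
  ∃ n π, Pj (fun t : Subgroup.centralizer (Q : Set G) => j t) n π

/-- EGX: the groups.

Proof.  As `PFC.EgrStmt`: `V' = V` as a type (commutative by `Ld.ab`), `ι` the inclusion,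
`E = Ei V γ`, `φ` the inclusion in `MulAut V`, `X = W.comap ι`.  `Ctf`: `V` is an `ℓ`-group (`Tp`);
`nt`: `U ≠ 1`, `U ⊓ W = 1`; `cop`: `E ≅ T / C(V)`, `K9.InxStmt`; `stab`, `cmp` (complement
`U.comap ι`): `Sp.sw`, `Sp.su`, `Sp.dj`, `Sp.jn`; `free`: SPF, and an element of `T` in `C(V)` induces
the identity. -/
def EgxStmt : Prop := ∀ (ℓ : ℕ) [Fact ℓ.Prime] (M : Ideal (integralClosure ℤ ℂ)) [M.IsMaximal],
  (ℓ : integralClosure ℤ ℂ) ∈ M → ∀ (G : Type) [Group G] [Finite G] (e : G → FF M)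
  (V : Subgroup G) (γ : G → FF M), Ld ℓ e V γ → ∀ U W : Subgroup G, Sp V γ U W →
  ∃ (V' E : Type) (_ : CommGroup V') (_ : Fintype V') (_ : Group E) (_ : Fintype E) (ι : V' →* G)
    (φ : E →* MulAut V') (X : Subgroup V'), Function.Injective ι ∧ ι.range = V ∧ X.map ι = W ∧
    Ctf ℓ φ X ∧ Nonempty (E ≃* Ei V γ) ∧
    (∀ t ∈ Tg V γ, ∃ x : E, ∀ w, ι (φ x w) = t * ι w * t⁻¹) ∧
    ∀ x : E, ∃ t ∈ Tg V γ, ∀ w, ι (φ x w) = t * ι w * t⁻¹

/-- FUL: the two-sided ideal of `F G` generated by `j` contains `e`.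

Proof.  `C = C(V)`, `j' = br_V(j)`.  (1) Let `τ` be the irreducible representation of `C` with
`ev τ γ = 1` (`PFC.LnoStmt`, `PFC.RepStmt` for `C`, `γ|C`, as in the proof of `PFC.LpbStmt`).
`ev τ j' ≠ 0` (`Jd.nz`), so there are `a_k`, `b_k` supported on `C` with `∑ ev τ (a_k j' b_k) = 1` (the
matrices `τ h` span; the ideal generated by a nonzero matrix is everything).
`i = ∑ γ a_k j' b_k γ`, `ev τ (γ - i) = 0`, so `n = γ - i` is nilpotent (REP), and
`γ = i (γ + n + n² + ...)`: `γ = ∑ a_k' j' b_k'` with functions supported on `C`.  (2) By the proof of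
`T6.YexStmt` (`FmgStmt` for the group `C`, its block `γ` and the defect group `V`) there is `y₀ ∈ C`
such that `V` is a Sylow `ℓ`-subgroup of `C ∩ C(y₀)` and the class sum of `y₀` in `C` has a nonzero
central character at `γ`.  `c = γ y₀ = ∑ (y₀ a_k') j' b_k'` up to the order of the factors (`γ` is central
in `F C`).  Put `w = ∑ (a_k' ) j (b_k' y₀)` with the same coefficients: `w` commutes with `V`
(all factors do), `br_V(w) = c` and `w` is in the ideal generated by `j`, so `e w = w` (JUN).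
(3) `z = ∑ x w x⁻¹` over the cosets `x V` of `V` in `G`: a class function, in the ideal generated by
`j`, `e z = z`.  By `T8.OmiStmt` for a lift `i` of `w` over the local ring (values `s(w g)` with a
section `s` of `rr`, invariant under `V`) the central character of `e` at `z`, which is the residue of
`|G| chv i χ/(|V| χ(1))`, is `ix V γ` times the residue of `|C| (∑ i(t) κ(t))/(|V| κ(1))`; the last
number is `|C ∩ C(y₀) : V| ω_κ(class sum of y₀)` up to the residue `0` (as in YEX), not zero, and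
`ix V γ ≠ 0` in `F` (`K9.InxStmt`).  (4) So `z` acts in all irreducible modular representations of `e`
as a scalar `λ ≠ 0` (the same one: `e` is a block, `H50.char_uniq`, `Helper74_PP/Loc.lean`), so `z - λ e`
is nilpotent (`IbnStmt`), and `e` is `z` times a polynomial in `z`, in the ideal generated by `j`. -/
def FulStmt : Prop := ∀ (ℓ : ℕ) [Fact ℓ.Prime] (M : Ideal (integralClosure ℤ ℂ)) [M.IsMaximal],
  (ℓ : integralClosure ℤ ℂ) ∈ M → ∀ (G : Type) [Group G] [Finite G] (e : G → FF M)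
  (V : Subgroup G) (γ : G → FF M), Ld ℓ e V γ → ∀ j : G → FF M, Jd M V γ j →
  e ∈ Submodule.span (FF M) {x : G → FF M | ∃ a b, x = mulF a (mulF j b)}

/-- LSG: the number of simple modules of a full corner.

Proof.  `≤`: `PFC.LseStmt`.  `≥`: let `σ` be an irreducible representation of `G` with
`actF e (tr σ) = tr σ`, so `ev σ e = 1` (EIG; `tr σ ≠ 0`).  `ev σ j ≠ 0`, otherwise `ev σ` vanishes on the
ideal generated by `j`.  `P = ev σ j` is an idempotent matrix of rank `n > 0`, `P = Y X`, `X Y = 1`;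
`π_σ(a) = X (ev σ a) Y` is a surjective homomorphism of algebras `Crn hj → Mat_n(F)` (as in
`PFC.PicStmt`), with kernel `{a | ev σ a = 0}`.  For `tr σ ≠ tr σ'` there is `a ∈ F G` with
`ev σ a = 1`, `ev σ' a = 0` (`IbjStmt`), so `mkj a` is in the kernel for `σ'` and not in the one for `σ`.
So `tr σ ↦ ker π_σ` is injective into `kers F (Crn hj)`, which is finite by `≤` of the first part (its
proof gives an injection into a finite set), so `ln e ≤ ls`. -/
def LsgStmt : Prop := ∀ (ℓ : ℕ) (F : Type) [Field F], GoodF ℓ F → ∀ (G : Type) [Group G]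
  [Finite G] (e j : G → F), IsIdem e → mulF e j = j → ∀ hj : mulF j j = j,
  e ∈ Submodule.span F {x : G → F | ∃ a b, x = mulF a (mulF j b)} →
  ls F (Crn hj) = ln e

/-- CTR: the centre of a full corner.

Proof.  `Z = {a | IsCl a, e a = a}`.  `a ↦ a j` maps `Z` into the centre of `Crn hj`.  Let
`e = ∑ a_k j b_k` (an element of the span is such a finite sum).  `ζ ↦ ∑ a_k ζ b_k` is the inverse: for
`x ∈ F G` and `ζ` central in the corner,
`x (∑_k a_k ζ b_k) = ∑_{l,k} a_l j b_l x a_k ζ b_k = ∑ a_l ζ (j b_l x a_k j) b_k = (∑_l a_l ζ b_l) x e`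
(`x` replaced by `e x = x e`; `e` times the sum is the sum, because `a_k` can be replaced by `e a_k`), so it
is central; `(∑ a_k ζ b_k) j = ∑ a_k ζ (j b_k j) = ∑ a_k (j b_k j) ζ = e j ζ = ζ`, and for `a ∈ Z`
`∑ a_k a j b_k = a e = a`.  So the dimension of the centre is that of `Z`.  `a ↦ (x ↦ a(x⁻¹))` maps the class
functions onto the class functions and `mulF e` to `actF e` (`mulF e a (x) = ∑_t e(t) a(t⁻¹ x)`; with
`f(x) = a(x⁻¹)`: `a(t⁻¹ x) = f(x⁻¹ t) = f(t x⁻¹)`), and the image of the idempotent operator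
`actL e` on `cfs` is `{f | actF e f = f}`. -/
def CtrStmt : Prop := ∀ (F : Type) [Field F] (G : Type) [Group G] [Finite G] (e j : G → F),
  IsIdem e → mulF e j = j → ∀ hj : mulF j j = j,
  e ∈ Submodule.span F {x : G → F | ∃ a b, x = mulF a (mulF j b)} →
  Module.finrank F (Subalgebra.center F (Crn hj)) = rk e (cfs F G)

/-- PBX: the input of `PmzStmt` for blocks.

Proof.  EGX, `PFC.JexStmt`: `j`; `hj = Jd.id`, `hv` from `Jd.iv`; `A = Crn hj`, `α = jal hj ι hv`.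
`PIn`: `fin`, `frm`, `loc`, `top`: `PFC.FfaStmt`; `ps`: `PFC.FpsStmt`; `lcq`: if `¬ Q ≤ X` then
`Q.map ι` is not contained in `W`, by SPF an element of `T` which centralises it is in `C(V)`: JLX,
`PFC.LcpStmt`; `uni`: `PFC.UntStmt` for every `x ∈ E`.  `ls`: FUL, LSG (`PFC.JunStmt`: `e j = j`).
Centre: CTR and `ChpStmt` (`Helper94_PP/StmtsKR.lean`; `IrrE M e` is the set there). -/
def PbxStmt : Prop := ∀ (ℓ : ℕ) [Fact ℓ.Prime] (M : Ideal (integralClosure ℤ ℂ)) [M.IsMaximal],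
  (ℓ : integralClosure ℤ ℂ) ∈ M → ∀ (G : Type) [Group G] [Finite G] (e : G → FF M)
  (V : Subgroup G) (γ : G → FF M), Ld ℓ e V γ → ∀ U W : Subgroup G, Sp V γ U W →
  ∃ (V' E A : Type) (_ : CommGroup V') (_ : Fintype V') (_ : Group E) (_ : Fintype E)
    (_ : Ring A) (_ : Algebra (FF M) A) (ι : V' →* G) (φ : E →* MulAut V') (X : Subgroup V')
    (α : V' →* A), Function.Injective ι ∧ ι.range = V ∧ X.map ι = W ∧
    Ctf ℓ φ X ∧ PIn (FF M) φ X α ∧ Nonempty (E ≃* Ei V γ) ∧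
    (∀ t ∈ Tg V γ, ∃ x : E, ∀ w, ι (φ x w) = t * ι w * t⁻¹) ∧
    (∀ x : E, ∃ t ∈ Tg V γ, ∀ w, ι (φ x w) = t * ι w * t⁻¹) ∧
    ls (FF M) A = ln e ∧
    Module.finrank (FF M) (Subalgebra.center (FF M) A) = (IrrE M e).ncard

end Pool.Agent.PFD
end
end -- Pool.Agent.PFD.StmtsD5a

section -- Pool.Agent.PFD.StmtsD5b

/-!
# Squad PFD, block D5, part b: from the dimension of the centre to the theorem for blocks

Setting: `Ld ℓ e V γ` (`e` a block of `G` with the abelian defect group `V`, `γ` a block of `C(V)` under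
`e`), `T = Tg V γ` the inertial group, `Sp V γ U W` (`PFD/DefsD5.lean`: `V = U × W` stable under `T`,
`U ≠ 1`, `T / C(V)` free on `U - 1`), `Ei V γ` the group of the automorphisms of `V` induced by `T`,
`ke V γ` the number of its conjugacy classes, `kv V γ` the number of the conjugacy classes of
`V : Ei V γ`.

1. `KxeStmt` (from `Chain2.lean`, the blocks D1 - D6): `|Irr(e)| = kv V γ`.
2. `LeqStmt`: `ln e = ke V γ` (induction on `|G|` with Brauer's count KSM and the count NCG).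
3. `MnyStmt`: the alternating sums of `push p e`, `p : G → A` surjective with `p.ker < V`, are zero
   (induction on `|A|`; no quotient of a block is a block of the class in general, this is why the
   statement is about `push p e`).
4. `FndStmt`, `FinStmt`: the final theorems.

Complete proofs in the docstrings; a row may take the rows which it uses as hypotheses.
-/

open scoped BigOperators

noncomputable section

namespace Pool.Agent.PFD

open Pool.Agent.Helper51_AWC Pool.Agent.Helper79_WRA Pool.Agent.PP Pool.Agent.PP.KF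
open Pool.Agent.PP.K9 Pool.Agent.PP.K9.H97 Pool.Agent.PP.H75 Pool.Agent.PP.T3 Pool.Agent.PP.T2
open Pool.Agent.PP.TB (Zd Star iz cz)

attribute [local instance] Ideal.Quotient.field

/-! ## 1. Groups -/

/-- the stabiliser of `v` in `E` -/
def Fxs {V E : Type} [Group V] [Group E] (φ : E →* MulAut V) (v : V) : Subgroup E where
  carrier := {e | φ e v = v}
  one_mem' := by
    change φ 1 v = v
    rw [map_one]
    rfl
  mul_mem' := by
    intro a b ha hb
    change φ a v = v at ha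
    change φ b v = v at hb
    change φ (a * b) v = v
    rw [map_mul, MulAut.mul_apply, hb, ha]
  inv_mem' := by
    intro a ha
    change φ a v = v at ha
    change φ a⁻¹ v = v
    rw [map_inv]
    have h : (φ a)⁻¹ (φ a v) = v := MulAut.inv_apply_self V (φ a) v
    rwa [ha] at h

section defs

variable {G : Type} [Group G]

/-- the number of conjugacy classes of `V : (T / C(V))` -/
def kv {F : Type} (V : Subgroup G) (γ : G → F) : ℕ :=
  Nat.card (ConjClasses (V ⋊[(Ei V γ).subtype] Ei V γ))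

/-- the automorphisms of `V` induced by the elements of `T ∩ X` -/
def Eix {F : Type} (V : Subgroup G) (γ : G → F) (X : Subgroup G) : Subgroup (MulAut V) :=
  ((Tg V γ ⊓ X).subgroupOf (Subgroup.normalizer (V : Set G))).map V.normalizerMonoidHom

end defs

/-- NCG: the conjugacy classes of `V : E`.

Proof.  `P = V : E`.  `|P| k(P)` is the number of the pairs `(x, y)` with `x y = y x` (Mathlib:
`card_comm_eq_card_conjClasses_mul_card`).  `(v, e) (w, f) = (v φ_e(w), e f)`, so `(v, e)`, `(w, f)` commute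
if and only if `e f = f e` and `v φ_f(v)⁻¹ = w φ_e(w)⁻¹` (`V` is commutative).  Let `e f = f e`,
`I = {w φ_e(w)⁻¹} {v φ_f(v)⁻¹}`, a subgroup, `H` the subgroup generated by `e`, `f`, `C` the fixed points
of `H` (those of `e` and `f`).  The number of the pairs `(v, w)` is the order of the kernel of the
homomorphism `V × V → V`, `(v, w) ↦ v φ_f(v)⁻¹ (w φ_e(w)⁻¹)⁻¹`, whose image is `I`: it is
`|V|² / |I|`.  `V = C I`, `C ∩ I = 1`: let `N(v) = ∏_(h ∈ H) φ_h(v)`.  `N` is trivial on `I` (`H` is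
commutative or just: `N(φ_e v) = N(v)`, reindex with `h ↦ h e`) and `N(v) = v ^ |H|` for `v ∈ C`; as
`|H|` divides `|E|`, it is prime to `|V|`, so `C ∩ I = 1`.  For every `h ∈ H` and every `v`:
`φ_h(v) v⁻¹ ∈ I` (the `h` with this property form a subgroup: `φ_(h h')(v) v⁻¹ = φ_h(φ_h'(v)) φ_h'(v)⁻¹ ·
φ_h'(v) v⁻¹`; it contains `e`, `f`), so `N(v) ∈ v ^ |H| I`, and `N(v) ∈ C` (`φ_h N = N`).  So `v ^ |H| ∈ C I`
and `v ∈ C I` (a power of `v ^ |H|`).  So the number of the pairs is `|V| |C|`.  Sum over the commuting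
pairs: `|V| ∑_(e,f) |C(e, f)| = |V| ∑_v #{(e, f) commuting in Fxs φ v} =
|V| ∑_v |Fxs φ v| k(Fxs φ v)`, and it is `|V| |E| k(P)`. -/
def NcgStmt : Prop := ∀ (V E : Type) [Group V] [Finite V] [Group E] [Finite E]
  (φ : E →* MulAut V), (∀ a b : V, a * b = b * a) → (Nat.card V).Coprime (Nat.card E) →
  Nat.card E * Nat.card (ConjClasses (V ⋊[φ] E)) =
    ∑ᶠ v : V, Nat.card (Fxs φ v) * Nat.card (ConjClasses (Fxs φ v))

/-- TRN: transport to `V` and `Ei V γ`.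

Proof.  `a : V' ≃* V`, `w ↦ ι w`.  For `x : E` the automorphism `a φ_x a⁻¹` of `V` is in `Ei V γ` (by the last
hypothesis it is `v ↦ t v t⁻¹`, `t ∈ T ≤ N(V)`), `b : E → Ei V γ` is a homomorphism, injective (`φ` is), and
surjective: an element of `Ei V γ` is induced by some `t ∈ T`; take the `x` of the third hypothesis.
`V' : E ≅ V : Ei V γ` (`SemidirectProduct.congr` or by hand), so the numbers of classes are equal. -/
def TrnStmt : Prop := ∀ (F : Type) (G : Type) [Group G] (V : Subgroup G) (γ : G → F)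
  (V' E : Type) [CommGroup V'] [Group E] (ι : V' →* G) (φ : E →* MulAut V'),
  Function.Injective ι → ι.range = V → Function.Injective φ →
  (∀ t ∈ Tg V γ, ∃ x : E, ∀ w, ι (φ x w) = t * ι w * t⁻¹) →
  (∀ x : E, ∃ t ∈ Tg V γ, ∀ w, ι (φ x w) = t * ι w * t⁻¹) →
  Nat.card (ConjClasses (V' ⋊[φ] E)) = kv V γ

/-- EIX: the automorphisms induced by the inertial group of `γ` in a subgroup `X ≥ C(V)`.

Proof.  `V ≤ C(V) ≤ X` (`Ld.ab`).  `Tg (V.subgroupOf X) (γ|X) = (Tg V γ ⊓ X).subgroupOf X`: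
`T3.H85.Tg_eq` (`Helper85_AT3/LSB.lean`; `γ` is supported on `C(V)`: `Ld.gam`).  The isomorphism
`V.subgroupOf X ≃* V` (`Subgroup.subgroupOfEquivOfLe`) gives `MulAut (V.subgroupOf X) ≃* MulAut V`, which
maps the automorphism induced by `t ∈ X` to the one induced by `t`. -/
def EixStmt : Prop := ∀ (ℓ : ℕ) (F : Type) [Field F] (G : Type) [Group G] [Finite G] (e : G → F)
  (V : Subgroup G) (γ : G → F), Ld ℓ e V γ → ∀ X : Subgroup G,
  Subgroup.centralizer (V : Set G) ≤ X →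
  Nonempty (Ei (V.subgroupOf X) (fun t : X => γ t) ≃* Eix V γ X)

/-- LKE: the indices.

Proof.  The kernel of `N(V) → MulAut V` is `C(V)` (as subgroups of `N(V)`), `C(V) ≤ T`
(`T3.H66.cent_le_Tg`, `Helper66_AT3/Fnt.lean`), so `|Ei V γ| = |T : C(V) ∩ T| = iz V V γ`, and
`|Eix V γ (C(v))| = |T ∩ C(v) : C(V) ∩ T| = cz V V γ v` (`C(V) ∩ T ≤ T ∩ C(v)` for `v ∈ V`).
`Eix V γ (C(v))` is the set of the elements of `Ei V γ` which fix `v` (if `t ∈ T` induces an automorphism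
which fixes `v` then `t ∈ C(v)`), so it is isomorphic to `Fxs (Ei V γ).subtype v`.  Third claim: EIX
for `X = C(v) ≥ C(V)`. -/
def LkeStmt : Prop := ∀ (ℓ : ℕ) (F : Type) [Field F] (G : Type) [Group G] [Finite G] (e : G → F)
  (V : Subgroup G) (γ : G → F), Ld ℓ e V γ → iz V V γ = Nat.card (Ei V γ) ∧
  ∀ v : V, cz V V γ (v : G) = Nat.card (Fxs (Ei V γ).subtype v) ∧
    ke (V.subgroupOf (Cu (v : G))) (fun t : Cu (v : G) => γ t) =
      Nat.card (ConjClasses (Fxs (Ei V γ).subtype v))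

/-- SPX: the splitting in a subgroup `X ≥ C(V)`.

Proof.  `V ≤ C(V) ≤ X`.  `T3.H85.Tg_eq`: the inertial group in `X` is `T ∩ X`.  `fr`: an element of `X`
which is in `C(V)` centralises `V.subgroupOf X`.  The rest is clear (`U.subgroupOf X = ⊥` implies `U = ⊥`,
since `U ≤ X`; `jn`: every element of `V` is a product `u w`, `V` is abelian). -/
def SpxStmt : Prop := ∀ (ℓ : ℕ) (F : Type) [Field F] (G : Type) [Group G] [Finite G] (e : G → F)
  (V : Subgroup G) (γ : G → F), Ld ℓ e V γ → ∀ U W : Subgroup G, Sp V γ U W →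
  ∀ X : Subgroup G, Subgroup.centralizer (V : Set G) ≤ X →
  Sp (V.subgroupOf X) (fun t : X => γ t) (U.subgroupOf X) (W.subgroupOf X)

/-- SPJ: the splitting and conjugation.

Proof.  `Tg (conjS g V) (cj g γ) = conjS g (Tg V γ)` (see the proof of `T3.LcjStmt`,
`Helper62_AT3/LCJ.lean`), `C(g V g⁻¹) = g C(V) g⁻¹`. -/
def SpjStmt : Prop := ∀ (F : Type) (G : Type) [Group G] (V : Subgroup G) (γ : G → F)
  (U W : Subgroup G), Sp V γ U W → ∀ g : G,
  Sp (conjS g V) (cj g γ) (conjS g U) (conjS g W)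

/-! ## 2. Splitting of a free part -/

/-- EDA: a homocyclic subgroup over a simple submodule.

Proof.  Let `A` be minimal among the `E`-stable subgroups of `{v | v ^ ℓ ^ n ∈ U}` with
`{a ^ ℓ ^ n} = U` (the whole set is one of them, as `U ≤ V ^ (ℓ ^ n)`).  `q : A → U`, `a ↦ a ^ ℓ ^ n`, is
surjective and trivial on `A ^ ℓ` (`u ^ ℓ = 1` in `U`).  The kernel `K` of `q` is `A ^ ℓ`: `A/A ^ ℓ` is an
elementary abelian `ℓ`-group on which `E` acts, `ℓ` does not divide `|E|`, so `K/A ^ ℓ` has an `E`-stable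
complement, its
preimage `A'` is `E`-stable, `A' K = A`, so `q(A') = U` and `A' = A` by minimality, `K = A ^ ℓ`.  This is the
last claim.  `U = A ^ (ℓ ^ n) ≤ A`.  The kernel of `a ↦ a ^ ℓ` on `A` has the order `|A : A ^ ℓ| = |A : K| =
|U|` (first isomorphism theorem twice), and it contains `U`, so it is `U`.  (The complement of `K/A ^ ℓ`:
EDC with `n = 0` for the group `A/A ^ ℓ`, then EDV.) -/
def EdaStmt : Prop := ∀ (ℓ n : ℕ) (V E : Type) [CommGroup V] [Finite V] [Group E] [Finite E]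
  (φ : E →* MulAut V), ℓ.Prime → ¬ ℓ ∣ Nat.card E → ∀ U : Subgroup V, U ≠ ⊥ →
  (∀ e, ∀ u ∈ U, φ e u ∈ U) →
  (∀ u ∈ U, u ^ ℓ = 1) → (∀ u ∈ U, ∃ v : V, u = v ^ ℓ ^ n) →
  ∃ A : Subgroup V, (∀ e, ∀ a ∈ A, φ e a ∈ A) ∧ U ≤ A ∧ (∀ a ∈ A, a ^ ℓ = 1 → a ∈ U) ∧
    (∀ a ∈ A, a ^ ℓ ^ n = 1 → ∃ c ∈ A, a = c ^ ℓ)

/-- EDC: a complement.

Proof.  `B₀ = {v ^ ℓ ^ (n+1)}`, `A ∩ B₀ = 1`.  Let `B ≥ B₀` be maximal with `A ∩ B = 1`.  Suppose
`A B ≠ V`.  `V/(A B)` is a nontrivial `ℓ`-group, so there is `v ∉ A B` with `v ^ ℓ = a b`, `a ∈ A`, `b ∈ B`.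
`v ^ ℓ ^ (n+1) = a ^ ℓ ^ n b ^ ℓ ^ n`, so `a ^ ℓ ^ n ∈ A ∩ B = 1`, `a = c ^ ℓ`, `c ∈ A`.
`w = v c⁻¹ ∉ A B`, `w ^ ℓ = b ∈ B`.  `B' = B ⟨w⟩ > B`; if `b₁ w ^ k ∈ A` then `w ^ k ∈ A B`, so `ℓ` divides `k`
(otherwise `w` is a product of powers of `w ^ k` and `w ^ ℓ`, in `A B`), `w ^ k ∈ B`, and
`b₁ w ^ k ∈ A ∩ B = 1`.  So `A ∩ B' = 1`, against the choice of `B`. -/
def EdcStmt : Prop := ∀ (ℓ n : ℕ) (V : Type) [CommGroup V] [Finite V], ℓ.Prime → IsPGroup ℓ V →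
  ∀ A : Subgroup V, (∀ a ∈ A, a ^ ℓ ^ n = 1 → ∃ c ∈ A, a = c ^ ℓ) →
  (∀ v : V, v ^ ℓ ^ (n + 1) ∈ A → v ^ ℓ ^ (n + 1) = 1) → ∃ B : Subgroup V, IsCompl A B

/-- EDV: an `E`-stable complement.

Proof.  `π : V → V` the projection on `A` with kernel `B`, `m` with `m |E| = 1` modulo `|V|`,
`π'(v) = (∏_e φ_e (π (φ_e⁻¹ v))) ^ m`, a homomorphism with values in `A`, the identity on `A`, which
commutes with `E` (reindex).  `W` = its kernel. -/
def EdvStmt : Prop := ∀ (V E : Type) [CommGroup V] [Finite V] [Group E] [Finite E]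
  (φ : E →* MulAut V), (Nat.card V).Coprime (Nat.card E) → ∀ A B : Subgroup V, IsCompl A B →
  (∀ e, ∀ u ∈ A, φ e u ∈ A) → ∃ W : Subgroup V, IsCompl A W ∧ ∀ e, ∀ u ∈ W, φ e u ∈ W

/-- EDF: splitting of a free part.

Proof.  Let `U₁ ≤ U` be minimal among the nontrivial `E`-stable subgroups; `{u ∈ U₁ | u ^ ℓ = 1}` is one, so
`u ^ ℓ = 1` on `U₁`.  Let `n` be maximal with `U₁ ≤ {v ^ ℓ ^ n}` (`n = 0` is possible; for large `n` the
right side is trivial).  EDA for `U₁`: `A`.  If `v ^ ℓ ^ (n+1) = y ∈ A`, `y ≠ 1`, then a power `y'` of `y` has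
order `ℓ`, is in `A`, so in `U₁`, and in `{v ^ ℓ ^ (n+1)}`; so `U₁ ∩ {v ^ ℓ ^ (n+1)}` is a nontrivial
`E`-stable subgroup of `U₁`, so it is `U₁`, against the choice of `n`.  EDC, EDV: `V = A × W'`.  If
`φ_e(a) = a`, `a ∈ A`, `a ≠ 1`, then a power of `a` is in `U₁ - 1` and fixed by `e`, so `e = 1`.
`U' = A`. -/
def EdfStmt : Prop := ∀ (ℓ : ℕ) (V E : Type) [CommGroup V] [Finite V] [Group E] [Finite E]
  (φ : E →* MulAut V), ℓ.Prime → IsPGroup ℓ V → ¬ ℓ ∣ Nat.card E → ∀ U : Subgroup V, U ≠ ⊥ →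
  (∀ e, ∀ u ∈ U, φ e u ∈ U) → (∀ e, ∀ u ∈ U, φ e u = u → e = 1 ∨ u = 1) →
  ∃ U' W' : Subgroup V, U' ≠ ⊥ ∧ IsCompl U' W' ∧ (∀ e, ∀ u ∈ U', φ e u ∈ U') ∧
    (∀ e, ∀ u ∈ W', φ e u ∈ W') ∧ ∀ e, ∀ u ∈ U', φ e u = u → e = 1 ∨ u = 1

/-- SPE: the same for the inertial group.

Proof.  EDF for the commutative group `V` (`Ld.ab`), `E = Ei V γ` (its order is the index of `C(V)` in `T`,
LKE, prime to `ℓ` by `K9.InxStmt`), `U.subgroupOf V`; `U = (U').map V.subtype`, `W = (W').map V.subtype`.  An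
element `t ∈ T` which commutes with `u ≠ 1` in the new `U` induces an automorphism which fixes `u`, so it
is the identity, `t ∈ C(V)`. -/
def SpeStmt : Prop := ∀ (ℓ : ℕ) [Fact ℓ.Prime] (M : Ideal (integralClosure ℤ ℂ)) [M.IsMaximal],
  (ℓ : integralClosure ℤ ℂ) ∈ M → ∀ (G : Type) [Group G] [Finite G] (e : G → FF M)
  (V : Subgroup G) (γ : G → FF M), Ld ℓ e V γ → ∀ U₀ : Subgroup G, U₀ ≤ V → U₀ ≠ ⊥ →
  (∀ t ∈ Tg V γ, ∀ u ∈ U₀, t * u * t⁻¹ ∈ U₀) →
  (∀ t ∈ Tg V γ, ∀ u ∈ U₀, u ≠ 1 → t * u = u * t → t ∈ Subgroup.centralizer (V : Set G)) →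
  ∃ U W : Subgroup G, Sp V γ U W

/-! ## 3. The numbers of characters -/

/-- KXE: the number of the characters in `e`; from `Chain2.lean` (the blocks D1 - D6) and TRN. -/
def KxeStmt : Prop := ∀ (ℓ : ℕ) [Fact ℓ.Prime] (M : Ideal (integralClosure ℤ ℂ)) [M.IsMaximal],
  (ℓ : integralClosure ℤ ℂ) ∈ M → ∀ (G : Type) [Group G] [Finite G] (e : G → FF M)
  (V : Subgroup G) (γ : G → FF M), Ld ℓ e V γ → ∀ U W : Subgroup G, Sp V γ U W →
  (IrrE M e).ncard = kv V γ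

/-- KSM: Brauer's formula for the number of characters, weighted over `V`.

Proof.  Let `χ ∈ e`, `mm(v) = mm M ℓ (Cu v) v (b v) χ χ`, `A = ∑_v cz(v) mm(v)`.  As in the proof of
`TV.TvaStmt` (`Helper89_WAT/TVA.lean`) for the trivial homomorphism `lam = 1`: `A ∈ RM M` by `Star`,
`|V| A = iz n` with an integer `n` by `TV.TgiStmt` (`lam = 1`), `iz` is prime to `ℓ` (`TB.ZcpStmt`), so `|V|`
divides `n` and `A = iz m`, `m` an integer.  `A > 0` (`TB.PozStmt`; `cz(v) > 0`) and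
`A = Pw V ≤ iz` (`TB.PjzStmt` for `W = V`), so `m = 1`: `A = iz`.  Sum over `χ ∈ e` and `TV.SmmStmt`:
`iz |Irr(e)| = ∑_v cz(v) ln (b v)`.  (All these statements are proved: `TV.tgi_`, `TV.smm_`
in `Helper66_WAT/Asm.lean`, `TB.zcp_`, `TB.poz_`, `TB.pjz_`.) -/
def KsmStmt : Prop := ∀ (ℓ : ℕ) [Fact ℓ.Prime] (M : Ideal (integralClosure ℤ ℂ)) [M.IsMaximal],
  (ℓ : integralClosure ℤ ℂ) ∈ M → ∀ (G : Type) [Group G] [Finite G] (e : G → FF M)
  (V : Subgroup G) (γ : G → FF M) (b : G → G → FF M), Zd ℓ e V V γ b → Star M ℓ e V V γ b →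
  iz V V γ * (IrrE M e).ncard =
    ∑ᶠ v : V, cz V V γ (v : G) * ln (fun t : Cu (v : G) => b v t)

/-- LNT: the local block of a central element.

Proof.  `Cu v = ⊤`.  `b` is a block of `Cu v`, extended by zero, and under `e`, so `b = e` as functions on
`G` (a block of `G`, not orthogonal to the block `e`).  The modular characters of the subgroup `Cu v = ⊤` in
`e` and of `G` in `e` are the same (`lnum ⊤ e = ln e`: `K9.H35.lnum_top`; rewrite `Cu v = ⊤`). -/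
def LntStmt : Prop := ∀ (ℓ : ℕ) (F : Type) [Field F], GoodF ℓ F → ∀ (G : Type) [Group G]
  [Finite G] (e : G → F) (V : Subgroup G) (γ : G → F), Ld ℓ e V γ → ∀ v ∈ V,
  v ∈ Subgroup.center G → ∀ b : G → F, Lc e V γ v b → ln (fun t : Cu v => b t) = ln e

/-- LEQ: the number of the modular characters.

Proof.  Induction on `|G|`.  `TB.ZabStmt` (`TB.zab_`): `b` with `Zd ℓ e V V γ b`; `Star` by `TW.sta_` (see how
`TV.WatStmt` uses it).  `Lc e V γ v (b v)` for `v ∈ V` (`Zd.lb`).  KSM, KXE, LKE: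
`|Ei| kv V γ = ∑_v |Fxs v| ln (b v)`.  NCG for `φ = (Ei V γ).subtype` (`V` an `ℓ`-group, `|Ei|` prime to `ℓ` by
LKE and `K9.InxStmt`): `|Ei| kv V γ = ∑_v |Fxs v| k(Fxs v)`.  Let `v` be not central in `G`: `|Cu v| < |G|`,
`Ld` for `b v` (`T3.LsbStmt`), `Sp` (SPX, `C(V) ≤ C(v)`), so by induction
`ln (b v) = ke (V.subgroupOf (Cu v)) (γ|Cu v) = k(Fxs v)` (LKE).  If `v` is central then `Fxs v = ⊤`,
`k(Fxs v) = ke V γ` and `ln (b v) = ln e` (LNT).  So the terms of the two sums for noncentral `v` are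
equal, and `z |Ei| ln e = z |Ei| ke V γ`, where `z > 0` is the number of the central `v ∈ V` (`v = 1`). -/
def LeqStmt : Prop := ∀ (ℓ : ℕ) [Fact ℓ.Prime] (M : Ideal (integralClosure ℤ ℂ)) [M.IsMaximal],
  (ℓ : integralClosure ℤ ℂ) ∈ M → ∀ (G : Type) [Group G] [Finite G] (e : G → FF M)
  (V : Subgroup G) (γ : G → FF M), Ld ℓ e V γ → ∀ U W : Subgroup G, Sp V γ U W →
  ln e = ke V γ

/-! ## 4. The alternating sums -/

/-- YAD: additivity.

Proof.  Induction on the number of the blocks under `f` (finite; or on the dimension of the class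
functions `a` with `f a = a`).  `f = 0`: `H67.YY_zero`.  Otherwise there is a block `c` under `f`
(`K9.H24.exists_blk` with the identity map), `f = c + (f - c)`, orthogonal central idempotents;
`push p` is additive (`T3.H43.push_add`), multiplicative, and maps central idempotents to central
idempotents (`H75.push_isIdem`), so `YY` is additive (`H9.YY_add`, `Helper9_PP/Add.lean`). -/
def YadStmt : Prop := ∀ (ℓ : ℕ) (F : Type) [Field F], GoodF ℓ F → ∀ (N A : Type) [Group N]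
  [Finite N] [Group A] [Finite A] (p : N →* A), Function.Surjective p → ∀ f : N → F, IsIdem f →
  (∀ c : N → F, IsBlk c → mulF f c = c → YY ℓ ⊤ (push p c) = 0) → YY ℓ ⊤ (push p f) = 0

/-- BNR: the blocks of `N(R)` under `br_R(e)`.

Proof.  As `T3.Qt1Stmt` (`Helper65_AT3/QT1.lean`) with `A = N(R)` and `p` the identity, then GCH.
`N = N(R)`, `C = C(R)`.  (1) `br_R e ≠ 0`, so `R` is good for `e`, `R` is contained in a conjugate of `V`
(`FmgStmt`), abelian, `R ≤ C ≤ N`.  (2) `e|C` is a central idempotent of `F C`, `c (e|C) = c`, so there is a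
block `d` of `C` under `e|C` with `c d ≠ 0`.  `T3.DugStmt`: `P` good for `d`, `R ≤ P ≤ C`, `|P| = |V|`.  `P` is
good for `e` (`br_P(e) br_P(d) = br_P(d)`), so `P = conjS k V` (`FmgStmt`, orders).
`T3.H65.cover_gd` for `C.subgroupOf N`: `P` is good for `c`.  A good `ℓ`-subgroup of `c` is good for `br_R e`
and for `e`, so its order is at most `|V|`: `Tp ℓ c (P.subgroupOf N)`.  (3) `C(P) ≤ C(R) ≤ N`.  `br_P(c) ≠ 0`
on `C(P)`: let `γ₁` be a block of `C(P)` with `br_P(c) γ₁ = γ₁` (`c` extended by zero).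
`br_P(e) br_P(c) = br_P(c)` (`c (br_R e) = c`, `br_P br_R = br_P`), so `br_P(e) γ₁ = γ₁`.
`cj k γ` is a block of `C(P)` under `br_P(e)` (`T3.LcjStmt`), and `br_P(e)` is a block of `N(P)` (`FmgStmt`), so
`K9.OrbStmt` (as in the proof of `T3.GchStmt`) gives `n ∈ N(P)` with `γ₁ = cj n (cj k γ)`; `g = n k`,
`conjS g V = P`.  `T3.H85.ld_of` with `X = N`. -/
def BnrStmt : Prop := ∀ (ℓ : ℕ) [Fact ℓ.Prime] (M : Ideal (integralClosure ℤ ℂ)) [M.IsMaximal],
  (ℓ : integralClosure ℤ ℂ) ∈ M → ∀ (G : Type) [Group G] [Finite G] (e : G → FF M)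
  (V : Subgroup G) (γ : G → FF M), Ld ℓ e V γ → ∀ R : Subgroup G, IsPGroup ℓ R →
  ∀ c : Subgroup.normalizer (R : Set G) → FF M, IsBlk c →
  mulF (fun t : Subgroup.normalizer (R : Set G) => br R e t) c = c →
  ∃ g : G, R ≤ conjS g V ∧
    Ld ℓ c ((conjS g V).subgroupOf (Subgroup.normalizer (R : Set G)))
      (fun t : Subgroup.normalizer (R : Set G) => cj g γ t)

/-- RQA: the local alternating sums of a quotient.

Proof.  `R = p⁻¹(R')`, an `ℓ`-group; `N = N(R) = p⁻¹(N')`, `N' = N(R')`.  `p` induces an isomorphism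
`σ : N/R → N'/R'`.  `a = push (N → N/R) (br_R e|N)`, `a' = push (N' → N'/R') (br_R'(push p e)|N')`, central
idempotents.  Claim: `push σ a = a'`.  Let `τ` be an irreducible representation of `N'/R'`, `ρ'` its
inflation to `N'`, `ρ` its inflation to `N`.  `ev τ a' = ev ρ' (br_R'(push p e)|N') = ev ρ' ((push p e)|N')`
(`NlsStmt`: `R'` is a normal `ℓ`-subgroup of `N'`) `= ev ρ (e|N)` (`(push p e)|N' = push (N → N') (e|N)`, as
`N` is the full preimage), and `ev τ (push σ a) = ev ρ (br_R e|N) = ev ρ (e|N)` (`NlsStmt` for `R`).  So the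
two central idempotents act in the same way in all irreducible representations; `x = push σ a`:
`x - x a'` is idempotent and nilpotent (`IbnStmt`), so `x = x a' = a'`.  `YY` is invariant under the isomorphism
`σ`.  Another way: both sides are sums over chains, and all the terms are numbers
`lnum (preimage in G of the stabiliser) e` by `K9.LbrStmt` and `K9.H35.lnum_up` (see
`Helper28_AT3/REC.lean`). -/
def RqaStmt : Prop := ∀ (ℓ : ℕ) [Fact ℓ.Prime] (F : Type) [Field F], GoodF ℓ F → ∀ (G A : Type)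
  [Group G] [Finite G] [Group A] [Finite A] (p : G →* A), Function.Surjective p →
  IsPGroup ℓ p.ker → ∀ e : G → F, IsIdem e → ∀ R' : Subgroup A, IsPGroup ℓ R' →
  YQ ℓ (push p e) R' = YQ ℓ e (R'.comap p)

/-- CHR: the alternating sum of `push p e`.

Proof.  As `T3.ChaStmt` (`Helper41_AT3/CHA.lean`).  `K = p.ker ≤ V`, `f = push p e`.  `T3.RecStmt`
(`T3.Asm.rec__`) for `A` and the central idempotent `f`: `YY ℓ ⊤ f = |A| lnum ⊤ f - ∑ |R'| YQ ℓ f R'` over the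
nontrivial `ℓ`-subgroups `R'` of `A`; `R = p⁻¹(R')` is an `ℓ`-group with `K < R`, `|R'| |K| = |R|`, and
`YQ ℓ f R' = YQ ℓ e R` (RQA).  `lnum ⊤ f = ln e` (`K` is a normal `ℓ`-subgroup: `cnt_push` in
`Helper35_K9/CHQ.lean`).  If `R` is not good for `e` then `br R e = 0` and `YQ ℓ e R = 0`.  If `R` is good and
`|R| < |V|`: hypothesis.  Otherwise `R` is a conjugate of `V` (`FmgStmt`), and
`|R| YQ ℓ e R = |N(R)| lnum N(R) e` (`T3.H41.term_max`).  All the conjugates of `V` contain `K` (normal), they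
are `|G : N(V)|`, and `V ≠ K`.  So the sum is `|G : N(V)| |N(V)| |K|⁻¹ lnum N(V) e = |A| lnum N(V) e`, and
`lnum N(V) e = ln (br V e|N(V))` (`K9.LbrStmt`). -/
def ChrStmt : Prop := ∀ (ℓ : ℕ) [Fact ℓ.Prime] (M : Ideal (integralClosure ℤ ℂ)) [M.IsMaximal],
  (ℓ : integralClosure ℤ ℂ) ∈ M → ∀ (G : Type) [Group G] [Finite G] (e : G → FF M), IsBlk e →
  ∀ V : Subgroup G, Tp ℓ e V → ∀ (A : Type) [Group A] [Finite A] (p : G →* A),
  Function.Surjective p → p.ker ≤ V → p.ker ≠ V →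
  (∀ R : Subgroup G, IsPGroup ℓ R → p.ker ≤ R → p.ker ≠ R → Gd e R →
    Nat.card R < Nat.card V → YQ ℓ e R = 0) →
  YY ℓ ⊤ (push p e) = (Nat.card A : ℤ) *
    ((ln e : ℤ) - (ln (fun t : Subgroup.normalizer (V : Set G) => br V e t) : ℤ))

/-- MNY: the alternating sums are zero.

Proof.  Strong induction on `|A|`, for all `G`, `e`, `V`, `γ`, `U`, `W`, `p`.  `K = p.ker`.  (1) Let `R` be as in the
hypothesis of CHR: `YQ ℓ e R` is the `YY ℓ ⊤` of `push q (br_R e|N)`, `N = N(R)`, `q : N → N/R`.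
`br_R e|N` is a central idempotent.  By YAD it is enough that `YY ℓ ⊤ (push q c) = 0` for the blocks `c` of `N`
under it.  BNR: `g`, `V₁ = conjS g V`, `R ≤ V₁ ≤ C(R) ≤ N`, `Ld ℓ c (V₁.subgroupOf N) (cj g γ|N)`;
`Sp` by SPJ (and `T3.LcjStmt` for `Ld ℓ e V₁ (cj g γ)`) and SPX (`C(V₁) ≤ C(R) ≤ N`).  `q.ker = R.subgroupOf N` is
contained in `V₁.subgroupOf N` and different from it (`|R| < |V|`).  `|N/R| ≤ |G|/|R| < |G|/|K| = |A|`.
Induction.  (2) CHR: `YY ℓ ⊤ (push p e) = |A| (ln e - ln f)`, `f = br V e|N(V)`.  LEQ: `ln e = ke V γ`.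
`T3.NvtStmt`: `Ld` for `f`, SPX with `X = N(V)`, LEQ: `ln f = ke (V.subgroupOf N(V)) (γ|N(V))`, which is
`ke V γ` by EIX with `X = N(V)` (`T ≤ N(V)`, so `Eix V γ N(V) = Ei V γ`). -/
def MnyStmt : Prop := ∀ (ℓ : ℕ) [Fact ℓ.Prime] (M : Ideal (integralClosure ℤ ℂ)) [M.IsMaximal],
  (ℓ : integralClosure ℤ ℂ) ∈ M → ∀ (G : Type) [Group G] [Finite G] (e : G → FF M)
  (V : Subgroup G) (γ : G → FF M), Ld ℓ e V γ → ∀ U W : Subgroup G, Sp V γ U W →
  ∀ (A : Type) [Group A] [Finite A] (p : G →* A), Function.Surjective p → p.ker ≤ V →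
  p.ker ≠ V → YY ℓ ⊤ (push p e) = 0

/-! ## 5. The final theorems -/

/-- FND: the theorem for characters.  `D` is an abelian defect group of the block of `χ`, larger than
`O_ℓ(G)`, `th` belongs to a block of `C(D)` under the block of `χ`, `Iner M D th` is its inertial group; it
normalises a nontrivial subgroup `U` of `D`, and `Iner M D th / C(D)` acts freely on `U - 1`.

Proof.  As `T3.FntStmt` (`Helper66_AT3/Fnt.lean`).  `Z = opCore ℓ G`, `p : G → G/Z`, `e` the block of `χ`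
(`H50.bid`), `H75.altSum_central`: `|G| altSum χ = |Z|² YY ℓ ⊤ (push p e)`.  `T3.FltStmt`: `γ` with
`Ld ℓ e D γ` and `Tg D γ = Iner M D th`.  SPE: `Sp D γ U' W'`.  `Z ≤ D`: `Z D` is an `ℓ`-group, `Z` is central, so
`C(Z D) = C(D)` and `Z D` is good for `e`, `|Z D| ≤ |D|` (`Tp.mx`).  MNY. -/
def FndStmt : Prop := ∀ (ℓ : ℕ) [Fact ℓ.Prime] (M : Ideal (integralClosure ℤ ℂ)) [M.IsMaximal],
  (ℓ : integralClosure ℤ ℂ) ∈ M → ∀ (G : Type) [Group G] [Finite G],
  opCore ℓ G ≤ Subgroup.center G → ∀ χ ∈ Irr G, ∀ D : Subgroup G, ML.IsDef ℓ M χ D →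
  D ≠ opCore ℓ G → (∀ x ∈ D, ∀ y ∈ D, x * y = y * x) →
  ∀ th ∈ IrrBlock M (Subgroup.centralizer (D : Set G)).subtype χ,
  ∀ U : Subgroup G, U ≤ D → U ≠ ⊥ →
  (∀ t ∈ Iner M D th, ∀ u ∈ U, t * u * t⁻¹ ∈ U) →
  (∀ t ∈ Iner M D th, ∀ u ∈ U, u ≠ 1 → t * u = u * t →
    t ∈ Subgroup.centralizer (D : Set G)) → altSum ℓ M χ = 0

/-- FIN: the final theorem, together with the previous cases (`TX.FnxStmt`, squad WAX).

Proof.  `TX.fnx_` (`Pool/Agent/WAX`) for the first five alternatives, FND for the last one. -/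
def FinStmt : Prop := ∀ (ℓ : ℕ) [Fact ℓ.Prime] (M : Ideal (integralClosure ℤ ℂ)) [M.IsMaximal],
  (ℓ : integralClosure ℤ ℂ) ∈ M → ∀ (G : Type) [Group G] [Finite G],
  opCore ℓ G ≤ Subgroup.center G → ∀ χ ∈ Irr G, ∀ D : Subgroup G, ML.IsDef ℓ M χ D →
  D ≠ opCore ℓ G → (∀ x ∈ D, ∀ y ∈ D, x * y = y * x) →
  ∀ th ∈ IrrBlock M (Subgroup.centralizer (D : Set G)).subtype χ,
  ∀ a : ℕ, 0 < a → (∃ d ∈ D, d ^ ℓ ^ (a - 1) ∉ opCore ℓ G) →
  ∀ r : ℕ, (∃ s : Fin r → G, (∀ i, s i ∈ D) ∧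
    TV.Dc M D th ≤ Subgroup.closure (Set.range s)) →
  (r ≤ 2 ∨ 3 * (Iner M D th).ncard ≤ ℓ * Nat.card (Subgroup.centralizer (D : Set G)) ∨
    (T8.In M D th ℓ ∧ r ≤ a) ∨
    (ℓ ≠ 2 ∧ (∀ s ∈ Iner M D th, ∀ t ∈ Iner M D th,
      s * t * s⁻¹ * t⁻¹ ∈ Subgroup.centralizer (D : Set G)) ∧ r ^ 2 < 2 * a) ∨
    2 * r ^ 3 + 2 * r * T5.ep ℓ ≤ a ∨
    (∃ U : Subgroup G, U ≤ D ∧ U ≠ ⊥ ∧ (∀ t ∈ Iner M D th, ∀ u ∈ U, t * u * t⁻¹ ∈ U) ∧
      ∀ t ∈ Iner M D th, ∀ u ∈ U, u ≠ 1 → t * u = u * t →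
        t ∈ Subgroup.centralizer (D : Set G))) → altSum ℓ M χ = 0

end Pool.Agent.PFD
end
end -- Pool.Agent.PFD.StmtsD5b

section -- Pool.Agent.Helper21_WAX.LN0

/-!
# Squad WAX, row LN0: the trivial defect group
-/

open scoped BigOperators

noncomputable section

namespace Pool.Agent.PP.TX.H21

open Pool.Agent.Helper51_AWC Pool.Agent.Helper79_WRA Pool.Agent.PP Pool.Agent.PP.KF
open Pool.Agent.PP.K9 Pool.Agent.PP.K9.H97 Pool.Agent.PP.H75 Pool.Agent.PP.T3 Pool.Agent.PP.T2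

attribute [local instance] Ideal.Quotient.field

/-- LN0: the trivial defect group. -/
theorem ln0 (lbd : K9.LbdStmt) (dzo : K9.DzoStmt) : Ln0Stmt := by
  intro ℓ hℓ M hMx hM G _ _ e V γ hL hV
  have h1 : ln e ≤ (IrrE M e).ncard := (lbd ℓ M hM G e hL.blk.1 hL.blk.2.1).2
  have h2 : ∀ Q : Subgroup G, IsPGroup ℓ Q → Gd e Q → Q = ⊥ := by
    intro Q hQ hg
    have h3 := hL.tp.mx Q hQ hg
    rw [hV, Subgroup.card_bot] at h3
    exact (Subgroup.card_le_one_iff_eq_bot Q).1 h3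
  obtain ⟨κ, hκ, -⟩ := dzo ℓ M hM G e hL.blk h2
  rw [hκ, Set.ncard_singleton] at h1
  exact h1

end Pool.Agent.PP.TX.H21
end
end -- Pool.Agent.Helper21_WAX.LN0

section -- Pool.Agent.Helper58_WAX.LTX

/-!
# Squad WAX, rows LTX and TXA
-/

open scoped BigOperators

noncomputable section

namespace Pool.Agent.PP.TX.H58

open Pool.Agent.Helper51_AWC Pool.Agent.Helper79_WRA Pool.Agent.PP Pool.Agent.PP.KF
open Pool.Agent.PP.K9 Pool.Agent.PP.K9.H97 Pool.Agent.PP.H75 Pool.Agent.PP.T3 Pool.Agent.PP.T2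
open Pool.Agent.PP.T5 Pool.Agent.PP.TB Pool.Agent.PP.TV Pool.Agent.PP.TX
open Pool.Agent.PP.T8 (Rv Fq Fr Ei Hk Rk Fd In)

attribute [local instance] Ideal.Quotient.field

theorem ix_of {ℓ : ℕ} [Fact ℓ.Prime] {M : Ideal (integralClosure ℤ ℂ)} [M.IsMaximal]
    (hM : (ℓ : integralClosure ℤ ℂ) ∈ M) {G : Type} [Group G] [Finite G] {e : G → FF M}
    {V : Subgroup G} {γ : G → FF M} (hL : Ld ℓ e V γ) : ¬ ℓ ∣ ix V γ :=
  K9.H34.inx ℓ M hM G e hL.blk V hL.tp hL.ab γ hL.gam.supp hL.gam.blk hL.und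

/-- Row LTX. -/
theorem ltx (lnw : LnwStmt) (ctx : CtxStmt) (cpv : TV.CpvStmt) (ln0 : Ln0Stmt) (lxa : LxaStmt)
    (lxb : LxbStmt) (lxc : LxcStmt) (lfr : T8.LfrStmt) : LtxStmt := by
  intro ℓ hℓ M _ hM G _ _ e V γ hL a hT
  have hF : GoodF ℓ (FF M) := H50.fld ℓ Fact.out M hM
  obtain ⟨A, iG, iF, f, V', γ', hL', hln, hfq, hZ⟩ := lnw ℓ M hM G e V γ hL
  have hT' := ctx ℓ (FF M) hF G A e V γ f V' γ' hL hL' (ix_of hM hL) hfq a hT
  obtain ⟨hV1, hV2, hV3⟩ := cpv ℓ (FF M) hF A f V' γ' hL' (ix_of hM hL')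
  have hVc : Vc V' γ' = V' := by
    refine le_antisymm hV1 fun v hv => ?_
    obtain ⟨z, hz, w, hw, rfl⟩ := hV3 v hv
    rw [hZ, Subgroup.mem_bot] at hz
    rw [hz, one_mul]
    exact hw
  have hℓ0 : 0 < ℓ := hℓ.out.pos
  rw [← hln]
  by_cases hV : V' = ⊥
  · exact (ln0 ℓ M hM A f V' γ' hL' hV).trans (Nat.one_le_pow _ _ hℓ0)
  rcases hT' with ⟨h2, hFc, hix⟩ | ⟨r, hR, h⟩
  · refine (lfr ℓ M hM h2 A f V' γ' hL' hV ?_).trans hix
    intro t ht v hv hv1 hc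
    exact hFc t ht v (by rw [hVc]; exact hv) hv1 hc
  · rw [hVc] at hR
    rcases h with ⟨h1, h3⟩ | ⟨h2, h3, h4⟩ | h
    · exact (lxa ℓ M hM A f V' γ' hL' hZ h1 r hR).trans (Nat.pow_le_pow_right hℓ0 h3)
    · exact lxb ℓ M hM h2 A f V' γ' hL' h3 r a hR h4
    · exact (lxc ℓ M hM A f V' γ' hL' r hR).trans (Nat.pow_le_pow_right hℓ0 h)

/-- Row TXA. -/
theorem txa (gen : GenStmt) (ctx : CtxStmt) (ltx : LtxStmt) : TxaStmt := by
  intro ℓ hℓ M _ hM G _ _ e V γ hL a ha hexp hT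
  have hF : GoodF ℓ (FF M) := H50.fld ℓ Fact.out M hM
  refine gen ℓ M hM a ha (fun G _ _ V γ => Tx ℓ a V γ) ?_ ?_ G e V γ hL hexp hT
  · intro G A _ _ _ _ e V γ f V' γ' hL hL' hfq _ _ hT
    exact ctx ℓ (FF M) hF G A e V γ f V' γ' hL hL' (ix_of hM hL) hfq a hT
  · intro G _ _ e V γ hL _ hT
    exact ltx ℓ M hM G e V γ hL a hT

end Pool.Agent.PP.TX.H58
end
end -- Pool.Agent.Helper58_WAX.LTX

section -- Pool.Agent.Helper82_WAX.BNK

/-!
# Squad WAX, row BNK: the bound from the averages over the cosets of `V ^ (ℓ ^ k)`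
-/

open scoped BigOperators

set_option autoImplicit false

noncomputable section

namespace Pool.Agent.PP.TX.H82

open Pool.Agent.Helper51_AWC Pool.Agent.Helper79_WRA Pool.Agent.PP Pool.Agent.PP.KF
open Pool.Agent.PP.K9 Pool.Agent.PP.K9.H97 Pool.Agent.PP.H75 Pool.Agent.PP.T3 Pool.Agent.PP.T2
open Pool.Agent.PP.T8 (Rv Fq Fr Ei Hk Rk Fd In)

attribute [local instance] Ideal.Quotient.field

theorem bnk (hPR : T2.Pr2Stmt) (hFX : T2.FxsStmt) (hST : T2.StgStmt) (hDA : T8.DatStmt)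
    (hHG : T8.HgtStmt) (hBN : T8.Bn8Stmt) (rtr : T8.RtrStmt) (hkx : T8.HkxStmt) : BnkStmt := by
  intro ℓ _ M _ hM h2 G _ _ e V γ hL a k hk hka hexp hei hhk
  have hpr : ℓ.Prime := Fact.out
  have ha : 0 < a := lt_of_lt_of_le hk hka
  have hF : GoodF ℓ (FF M) := H50.fld ℓ Fact.out M hM
  have hixd : ¬ ℓ ∣ ix V γ :=
    K9.H34.inx ℓ M hM G e hL.blk V hL.tp hL.ab γ hL.gam.supp hL.gam.blk hL.und
  obtain ⟨y, hy⟩ := (rtr ℓ (FF M) hF G e V γ hL hixd a hexp).1 ha hei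
  have hix := hkx ℓ (FF M) hF G e V γ hL hixd a k hk ha hexp ⟨y, hy⟩ hhk
  have hyk : Rk ℓ a k V γ y := by
    refine ⟨hy.mem, hy.ord, fun t ht v hv he => ?_⟩
    refine hy.reg t ht (v ^ ℓ ^ (k - 1)) (V.pow_mem hv _) ?_
    rw [he, ← pow_mul, ← pow_add]
    congr 3
    omega
  obtain ⟨N, hN⟩ := hPR ℓ h2 G
  obtain ⟨b, d, c, ε, hD⟩ := hDA ℓ M hM G e V γ hL
  have h3 := hFX ℓ M hM G N hN e hL.blk.1 (fun y hy hy2 b hb heb g hg =>
    hST ℓ M hM G N hN e V γ hL y hy hy2 b hb heb g hg)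
  have h4 := hHG ℓ M hM h2 G e V γ b d c ε hD a k ha hexp hix
  have h5 := hBN ℓ M hM h2 G N hN e V γ b d c ε hD a k hk hka hexp y hyk h4
  obtain ⟨W, hW⟩ : ∃ W : ℕ, W = Nat.card (Uw (ℓ ^ k) V) := ⟨_, rfl⟩
  rw [← hW] at h5 ⊢
  calc ln e * ℓ ^ (k - 1) * W = ln e * (ℓ ^ (k - 1) * W) := mul_assoc _ _ _
    _ ≤ _ * (ℓ ^ (k - 1) * W) := Nat.mul_le_mul_right _ h3
    _ = _ := (mul_assoc _ _ _).symm
    _ ≤ Nat.card V := h5

end Pool.Agent.PP.TX.H82
end
end -- Pool.Agent.Helper82_WAX.BNK
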