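import Pool.Agent.Helper12_AWB.B005
import Pool.Agent.Helper12_AWB.B182

/-!
# Merged copies (generated) of the modules

* `Pool.Agent.PSS.DefsG`
* `Pool.Agent.PSS.StmtsG`
* `Pool.Agent.PSS.StmtsS6`
* `Pool.Agent.Helper41_PFD.SPJ`
* `Pool.Agent.Helper21_PSS.QRJ`
* `Pool.Agent.Helper9_PFC.FFA`
* `Pool.Agent.Helper44_PSS.RFG`
-/

set_option autoImplicit false

section -- Pool.Agent.PSS.DefsG

/-!
# Squad PSS, group level: classes of abelian defect groups with the action of the inertial quotient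

`Ei V γ ≤ Aut V` is the inertial quotient (`PFD/DefsD5.lean`).  A class `K` (type `Kl`) is a property
`K ℓ V E W` of the triples: `V` an abelian `ℓ`-group, `E ≤ Aut V`, `W ≤ V` an `E`-stable subgroup.
`Adm ℓ K`: the class is closed under subgroups of `E` and isomorphisms (`iso`), and under the passage to
`V / W` (`quo`).  `StoStmt K` is the input from the algebras: for a block `e` with the abelian defect
group `V`, the inertial quotient `E` and `K ℓ V E W` the numbers of the ordinary characters of `e` and of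
its Brauer correspondent in `N(W)` are equal.

`KS` is the class (A) + (S): `V = C × W`, `C` a direct product of cyclic `E`-stable subgroups,
`W = U × X`, `U ≠ 1`, the group induced by `E` on `W` is free on `U - 1`.
-/

open scoped BigOperators

noncomputable section

namespace Pool.Agent.PSS

open Pool.Agent.Helper51_AWC Pool.Agent.Helper79_WRA Pool.Agent.PP Pool.Agent.PP.KF
open Pool.Agent.PP.K9 Pool.Agent.PP.K9.H97 Pool.Agent.PP.H75 Pool.Agent.PP.T3 Pool.Agent.PP.T2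
open Pool.Agent.PP.TB (Zd Star iz cz)
open Pool.Agent.PFD (Ei)

attribute [local instance] Ideal.Quotient.field

/-! ## 1. Quotients -/

/-- `(V', E')` is a quotient of `(V, E)` by means of `π`: `π` is surjective, and every element of `E'` is
induced by an element of `E`. -/
structure Qr {V V' : Type} [Group V] [Group V'] (E : Subgroup (MulAut V))
    (E' : Subgroup (MulAut V')) (π : V →* V') : Prop where
  sur : Function.Surjective π
  lif : ∀ a' ∈ E', ∃ a ∈ E, ∀ v, π (a v) = a' (π v)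

/-- a class of triples `(V, E, W)`, for every prime `ℓ` -/
abbrev Kl : Type 1 := ℕ → ∀ (V : Type) [Group V], Subgroup (MulAut V) → Subgroup V → Prop

/-- admissible classes -/
structure Adm (ℓ : ℕ) (K : Kl) : Prop where
  nt : ∀ (V : Type) [Group V] (E : Subgroup (MulAut V)) (W : Subgroup V), K ℓ V E W → W ≠ ⊥
  st : ∀ (V : Type) [Group V] (E : Subgroup (MulAut V)) (W : Subgroup V), K ℓ V E W →
    ∀ a ∈ E, ∀ w ∈ W, a w ∈ W
  iso : ∀ (V V' : Type) [Group V] [Group V'] (E : Subgroup (MulAut V)) (E' : Subgroup (MulAut V'))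
    (W : Subgroup V) (π : V ≃* V'), Qr E E' π.toMonoidHom → K ℓ V E W →
    K ℓ V' E' (W.map π.toMonoidHom)
  quo : ∀ (V V' : Type) [Group V] [Finite V] [Group V'] [Finite V'] (E : Subgroup (MulAut V))
    (E' : Subgroup (MulAut V')) (W : Subgroup V) (π : V →* V'), IsPGroup ℓ V →
    ¬ ℓ ∣ Nat.card E → (∀ a b : V, a * b = b * a) → Qr E E' π → K ℓ V E W → π.ker = W →
    (∃ v : V', v ≠ 1) → ∃ W' : Subgroup V', K ℓ V' E' W'

/-! ## 2. The class (A) + (S) -/

/-- a direct product of cyclic `E`-stable subgroups -/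
inductive Cyc {V : Type} [Group V] (E : Subgroup (MulAut V)) : Subgroup V → Prop
  | bot : Cyc E ⊥
  | mul (C Y : Subgroup V) : Cyc E C → (∃ y ∈ Y, ∀ x ∈ Y, ∃ k : ℤ, x = y ^ k) →
      (∀ a ∈ E, ∀ y ∈ Y, a y ∈ Y) → C ⊓ Y = ⊥ → Cyc E (C ⊔ Y)

/-- `V = C × W`, `C` is a direct product of cyclic `E`-stable subgroups, `W = U × X`, all factors
`E`-stable, and an element of `E` which fixes some `u ≠ 1` in `U` fixes `W` pointwise. -/
structure Sx {V : Type} [Group V] (E : Subgroup (MulAut V)) (C W U X : Subgroup V) : Prop where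
  ab : ∀ a b : V, a * b = b * a
  cy : Cyc E C
  cw : C ⊓ W = ⊥
  jn : C ⊔ W = ⊤
  ux : U ⊓ X = ⊥
  uw : U ⊔ X = W
  nt : U ≠ ⊥
  su : ∀ a ∈ E, ∀ u ∈ U, a u ∈ U
  sx : ∀ a ∈ E, ∀ x ∈ X, a x ∈ X
  fr : ∀ a ∈ E, ∀ u ∈ U, u ≠ 1 → a u = u → ∀ w ∈ W, a w = w

/-- the class (A) + (S) -/
def KS : Kl := fun _ _ _ E W => ∃ C U X, Sx E C W U X

/-! ## 3. The input from the algebras -/

/-- STO: the numbers of the ordinary characters of `e` and of its correspondent `c` in `N(W)`. -/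
def StoFor (K : Kl) : Prop := ∀ (ℓ : ℕ) [Fact ℓ.Prime] (M : Ideal (integralClosure ℤ ℂ))
  [M.IsMaximal], (ℓ : integralClosure ℤ ℂ) ∈ M → ∀ (G : Type) [Group G] [Finite G]
  (e : G → FF M) (V : Subgroup G) (γ : G → FF M), Ld ℓ e V γ → ∀ W : Subgroup G, W ≤ V →
  K ℓ V (Ei V γ) (W.subgroupOf V) → ∀ c : Subgroup.normalizer (W : Set G) → FF M,
  Ld ℓ c (V.subgroupOf (Subgroup.normalizer (W : Set G)))
    (fun t : Subgroup.normalizer (W : Set G) => γ t) →
  (IrrE M e).ncard = (IrrE M c).ncard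

/-- STO for the class (A) + (S) -/
def StoStmt : Prop := StoFor KS

end Pool.Agent.PSS
end
end -- Pool.Agent.PSS.DefsG

section -- Pool.Agent.PSS.StmtsG

/-!
# Squad PSS, group level (block S7): from STO to Alperin's weight conjecture

Setting: `Ld ℓ e V γ` (`e` a block of `G` with the abelian defect group `V`, `γ` a block of `C(V)` under
`e`), `T = Tg V γ`, `E = Ei V γ ≤ Aut V` the inertial quotient, `K` an admissible class (`Adm ℓ K`) which
satisfies STO (`PSS/DefsG.lean`).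

1. The inertial quotient in subgroups, conjugates, quotients: QRX, QRJ, QRQ, TWN.
2. The correspondent in `N(W)`: EXC; Fong - Reynolds: FRT, LTX, IZX.
3. LEN: `ln e = ln (br_V e | N(V))`, induction on `|G|` (QLN: the quotient step).
4. MNN: the alternating sums.
5. ADS: the class (A) + (S) is admissible.  CLN: clean hypotheses.  FNS: the final theorem.

Complete proofs in the docstrings; a row may take the rows which it uses as hypotheses.
-/

open scoped BigOperators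

noncomputable section

namespace Pool.Agent.PSS

open Pool.Agent.Helper51_AWC Pool.Agent.Helper79_WRA Pool.Agent.PP Pool.Agent.PP.KF
open Pool.Agent.PP.K9 Pool.Agent.PP.K9.H97 Pool.Agent.PP.H75 Pool.Agent.PP.T3 Pool.Agent.PP.T2
open Pool.Agent.PP.TB (Zd Star iz cz)
open Pool.Agent.PFD (Ei)

attribute [local instance] Ideal.Quotient.field

/-! ## 1. The inertial quotient in subgroups, conjugates, quotients -/

/-- QRX: the inertial quotient in a subgroup `X ≥ C(V)`.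

Proof.  `V ≤ C(V) ≤ X` (`Ld.ab`).  `T3.H85.Tg_eq` (`Helper85_AT3/LSB.lean`; `γ` is supported on `C(V)`:
`Ld.gam`): `Tg (V.subgroupOf X) (γ|X) = (Tg V γ ⊓ X).subgroupOf X`.  `π` is the inverse of
`Subgroup.subgroupOfEquivOfLe`.  An automorphism of `V.subgroupOf X` induced by `t ∈ Tg V γ ⊓ X` comes from
the automorphism of `V` induced by `t`.  (Compare `PFD.EixStmt`, `Helper6_PFD/EIX.lean`.) -/
def QrxStmt : Prop := ∀ (ℓ : ℕ) (F : Type) [Field F] (G : Type) [Group G] [Finite G] (e : G → F)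
  (V : Subgroup G) (γ : G → F), Ld ℓ e V γ → ∀ X : Subgroup G,
  Subgroup.centralizer (V : Set G) ≤ X →
  ∃ π : V ≃* V.subgroupOf X, (∀ v : V, (((π v : V.subgroupOf X) : X) : G) = v) ∧
    Qr (Ei V γ) (Ei (V.subgroupOf X) (fun t : X => γ t)) π.toMonoidHom

/-- QRJ: the inertial quotient of a conjugate.

Proof.  `Tg (conjS g V) (cj g γ) = conjS g (Tg V γ)` (see `Helper41_PFD/SPJ.lean`).  `π = conjSEquiv g V`
(`Helper51_AWC/Basic.lean`).  The automorphism of `conjS g V` induced by `g t g⁻¹` comes from the automorphism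
of `V` induced by `t`. -/
def QrjStmt : Prop := ∀ (F : Type) (G : Type) [Group G] (V : Subgroup G) (γ : G → F) (g : G),
  ∃ π : V ≃* conjS g V, (∀ v : V, ((π v : conjS g V) : G) = g * v * g⁻¹) ∧
    Qr (Ei V γ) (Ei (conjS g V) (cj g γ)) π.toMonoidHom

/-- QRQ: the inertial quotient of the blocks of `G / W`, `W ≤ V` normal in `G`.

Proof.  `N(W) = ⊤`; let `i : N(W) ≃* G` (`Subgroup.topEquiv` after rewriting, or the subtype map, which is
bijective) and `p' = p ∘ i : N(W) → A`, `p'.ker = W.subgroupOf N(W)`.  `push p' (br_W e|N(W)) = push p e`: by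
`K9.LbrStmt`-like facts only `lnum` is known, so argue as follows: `e = br_W e` as `e` is supported on
`C(W)`: a block idempotent of a group with the normal `ℓ`-subgroup `W` vanishes outside `C(W)`.  (Use what
exists: `T3.Qt1Stmt` and `T8.Qt3Stmt` are formulated with `push p' (br_W e|N(W))`; all we need is
`push p' (br_W e|N(W)) f = f`.  For this it is enough that the two central idempotents
`push p' (br_W e|N(W))` and `push p e` of `F A` act in the same way on all irreducible representations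
`τ` of `A`: `ev τ (push p a) = ev (τ p) a`, and `NlsStmt` says `ev ρ (br_W e) = ev ρ e` for the irreducible
`ρ = τ p` of `G`, on which the normal `ℓ`-subgroup `W` acts trivially; then they are equal by `IbnStmt` as
in the proof of `PFD.RqaStmt`, `Helper39_PFD/Rqa.lean`.)  `T3.Qt1Stmt` for `Q = W`: `k` with `W ≤ conjS k V`
and `Tp ℓ f` for the image of `conjS k V`, which is `conjS (p k)` of `V.map p`; so `Tp ℓ f (V.map p)` (`Tp` is
invariant under conjugation, as `f` is central).  `T8.Qt3Stmt`: `γ'` with `Ld ℓ f (V.map p) γ'` and `Fe`: `n ∈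
N(V)` such that for every `t' ∈ Tg (V.map p) γ'` there is `t ∈ Tg V γ` with `p (n t v t⁻¹ n⁻¹) = t' p(n v n⁻¹) t'⁻¹`
for `v ∈ V`.  `π v = p (n v n⁻¹)`; its kernel is `V ⊓ n⁻¹ W n = W`. -/
def QrqStmt : Prop := ∀ (ℓ : ℕ) [Fact ℓ.Prime] (M : Ideal (integralClosure ℤ ℂ)) [M.IsMaximal],
  (ℓ : integralClosure ℤ ℂ) ∈ M → ∀ (G : Type) [Group G] [Finite G] (e : G → FF M)
  (V : Subgroup G) (γ : G → FF M), Ld ℓ e V γ → ∀ W : Subgroup G, W ≤ V → W.Normal →
  ∀ (A : Type) [Group A] [Finite A] (p : G →* A), Function.Surjective p → p.ker = W →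
  ∀ f : A → FF M, IsBlk f → mulF (push p e) f = f →
  ∃ γ' : A → FF M, Ld ℓ f (V.map p) γ' ∧ ∃ π : V →* V.map p, π.ker = W.subgroupOf V ∧
    Qr (Ei V γ) (Ei (V.map p) γ') π

/-- TWN: the inertial group normalises an `E`-stable subgroup.

Proof.  `t ∈ Tg V γ ≤ N(V)` induces an element of `Ei V γ`, so `t w t⁻¹ ∈ W` for `w ∈ W`; the same for
`t⁻¹`. -/
def TwnStmt : Prop := ∀ (F : Type) (G : Type) [Group G] (V : Subgroup G) (γ : G → F)
  (W : Subgroup G), W ≤ V → (∀ a ∈ Ei V γ, ∀ w ∈ W.subgroupOf V, a w ∈ W.subgroupOf V) →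
  Tg V γ ≤ Subgroup.normalizer (W : Set G)

/-! ## 2. The correspondent in the normaliser, the theorem of Fong and Reynolds -/

/-- EXC: the block of `N(R)`, `R ≤ V`, with the subpair `(V, γ)`.

Proof.  `N = N(R) ≥ C(R) ≥ C(V) ≥ V`, `V` is an `ℓ`-group.  `br_V` is a homomorphism from the centre of `F N` to
the centre of `F C(V)` (`H20.brm`, `Helper20_PP`), `1 = ∑ c` over the blocks `c` of `N`
(`K9.H24.exists_blk` in another form: there is a block `c` of `N` with `br_V(c) γ ≠ 0`, see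
`H97`, `Helper24_K9`), so (`γ` is primitive) there is `c` with `br_V(c) γ = γ`.  `c` is under `br_R e|N`: the
product of `c` with `br_R e|N` is `c` or `0`, and `br_V (br_R e) γ = br_V(e) γ = γ`, so it is not `0`.
`PFD.BnrStmt`: `g` with `R ≤ conjS g V` and `Ld ℓ c ((conjS g V).subgroupOf N) _`, so all good `ℓ`-subgroups of
`c` have order at most `|V|`, and `V` is good for `c` (`br_V(c) ≠ 0`): `Tp ℓ c (V.subgroupOf N)`.
`T3.H85.ld_of` (`Helper85_AT3/LSB.lean`) for `X = N` (with `c` extended by zero, `ext0`). -/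
def ExcStmt : Prop := ∀ (ℓ : ℕ) [Fact ℓ.Prime] (M : Ideal (integralClosure ℤ ℂ)) [M.IsMaximal],
  (ℓ : integralClosure ℤ ℂ) ∈ M → ∀ (G : Type) [Group G] [Finite G] (e : G → FF M)
  (V : Subgroup G) (γ : G → FF M), Ld ℓ e V γ → ∀ R : Subgroup G, R ≤ V →
  ∃ c : Subgroup.normalizer (R : Set G) → FF M,
    Ld ℓ c (V.subgroupOf (Subgroup.normalizer (R : Set G)))
      (fun t : Subgroup.normalizer (R : Set G) => γ t)

/-- FRT: the theorem of Fong and Reynolds for `br_V e`.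

Proof.  `N = N(V)`, `C = C(V)` normal in `N`, `b = br V e|N` is a block of `N` (`T3.NvtStmt`), `g = γ|N`,
`b g = g ≠ 0`.  `H75.Bd` (`Helper75_PP/Conj.lean`) for `N`, the subgroup `C.subgroupOf N` and `g`:
`H75.Bd.sum_eq`: `b` is the sum of the conjugates of `g` under `N` (times `b`, but `b` absorbs them).
`H75.Cor (stabiliser of g in N) g` (`Bd.fam`, `Fam.cor`), `H75.Cor.card` (`Helper75_PP/Corner.lean`) or
`H75.Fam.card` (`Helper75_PP/Cliff.lean`): the number of the irreducible modular characters of `N` in `b` is that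
of the stabiliser in `g`.  The stabiliser of `g` in `N` is `(Tg V γ).subgroupOf N`, and `lnum` of it is
`lnum (Tg V γ) γ` (`PP.H75.lnum_map`, `H35.lnum_up`).  (`H75.Bd.yy` in `Helper75_PP/Fr.lean` and `T2.FrsStmt`,
`Helper83_AT2/FRS.lean`, are similar statements for `YY`.) -/
def FrtStmt : Prop := ∀ (ℓ : ℕ) [Fact ℓ.Prime] (M : Ideal (integralClosure ℤ ℂ)) [M.IsMaximal],
  (ℓ : integralClosure ℤ ℂ) ∈ M → ∀ (G : Type) [Group G] [Finite G] (e : G → FF M)
  (V : Subgroup G) (γ : G → FF M), Ld ℓ e V γ →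
  ln (fun t : Subgroup.normalizer (V : Set G) => br V e t) = lnum (Tg V γ) γ

/-- LTX: the number `lnum T γ` in a subgroup `X ≥ C(V)`.

Proof.  `T3.H85.Tg_eq`, and `lnum (Y.subgroupOf X) (a|X) = lnum Y a` for `Y ≤ X` (`PP.H75.lnum_map` for
`X.subtype`).  With `Y = Tg V γ ⊓ X ⊓ Cu v` in the second part (`Cu v` in `X` is `(Cu v).subgroupOf X`). -/
def LtxStmt : Prop := ∀ (ℓ : ℕ) (F : Type) [Field F] (G : Type) [Group G] [Finite G] (e : G → F)
  (V : Subgroup G) (γ : G → F), Ld ℓ e V γ → ∀ X : Subgroup G,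
  Subgroup.centralizer (V : Set G) ≤ X →
  lnum (Tg (V.subgroupOf X) (fun t : X => γ t)) (fun t : X => γ t) = lnum (Tg V γ ⊓ X) γ ∧
  ∀ v : X, lnum (Tg (V.subgroupOf X) (fun t : X => γ t) ⊓ Cu v) (fun t : X => γ t) =
    lnum (Tg V γ ⊓ X ⊓ Cu (v : G)) γ

/-- IZX: the indices in a subgroup `X ≥ T`.

Proof.  `C(V) ≤ Tg V γ ≤ X` (`T3.H66.cent_le_Tg`, `Helper66_AT3/Fnt.lean`).  `T3.H85.Tg_eq`, the centraliser of
`V.subgroupOf X` in `X` is `C(V).subgroupOf X` (`T3.H85.cent_sub`), `Subgroup.relIndex` of two subgroups of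
`X` is the same in `G` (`Subgroup.relIndex_subgroupOf` or by `Subgroup.relIndex_comap`). -/
def IzxStmt : Prop := ∀ (ℓ : ℕ) (F : Type) [Field F] (G : Type) [Group G] [Finite G] (e : G → F)
  (V : Subgroup G) (γ : G → F), Ld ℓ e V γ → ∀ X : Subgroup G, Tg V γ ≤ X →
  iz (V.subgroupOf X) (V.subgroupOf X) (fun t : X => γ t) = iz V V γ ∧
  ∀ v : X, cz (V.subgroupOf X) (V.subgroupOf X) (fun t : X => γ t) v = cz V V γ (v : G)

/-! ## 3. The number of the modular characters -/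

/-- QLN: the quotient step.

Proof.  `W = p.ker`.  `ln` is additive on orthogonal central idempotents (as `YadStmt`,
`Helper64_PFD/YAD.lean`, by `H46.idem_induction`; an irreducible modular character on which `f₁ + f₂` acts as
the identity belongs to exactly one of `f₁`, `f₂`: `H9`, `Helper9_PP/Add.lean`), and `f ↦ br (V.map p) f` is
additive, so the hypothesis for the blocks `f` gives `ln (push p e) = ln (br (V.map p) (push p e)|N(V.map p))`.
`ln (push p e) = ln e` (`cnt_push` in `Helper35_K9/CHQ.lean` or `H35.lnum_up` with `H35.lnum_top`; `W` is a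
normal `ℓ`-subgroup).  `K9.LbrStmt` for `A`, `Q = V.map p`, `X = N(Q)`: `ln (br Q (push p e)|X) = lnum X (br Q
(push p e)) = lnum X (push p e)` (`br Q` is supported on `C(Q) ≤ X`), which is `lnum (p⁻¹ X) e` (`H35.lnum_up`),
`p⁻¹ (N(V.map p)) = N(V)` as `W ≤ V` is the kernel, and `lnum N(V) e = ln (br V e|N(V))` (`K9.LbrStmt`). -/
def QlnStmt : Prop := ∀ (ℓ : ℕ) [Fact ℓ.Prime] (F : Type) [Field F], GoodF ℓ F → ∀ (G A : Type)
  [Group G] [Finite G] [Group A] [Finite A] (p : G →* A), Function.Surjective p →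
  ∀ V : Subgroup G, IsPGroup ℓ V → p.ker ≤ V → ∀ e : G → F, IsIdem e →
  (∀ f : A → F, IsBlk f → mulF (push p e) f = f →
    ln f = ln (fun t : Subgroup.normalizer ((V.map p : Subgroup A) : Set A) =>
      br (V.map p) f t)) →
  ln e = ln (fun t : Subgroup.normalizer (V : Set G) => br V e t)

/-- the conclusion of LEN -/
def LenFor (K : Kl) : Prop := ∀ (ℓ : ℕ) [Fact ℓ.Prime] (M : Ideal (integralClosure ℤ ℂ))
  [M.IsMaximal], (ℓ : integralClosure ℤ ℂ) ∈ M → ∀ (G : Type) [Group G] [Finite G]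
  (e : G → FF M) (V : Subgroup G) (γ : G → FF M), Ld ℓ e V γ →
  (V = ⊥ ∨ ∃ W : Subgroup V, K ℓ V (Ei V γ) W) →
  ln e = ln (fun t : Subgroup.normalizer (V : Set G) => br V e t)

/-- LEN: the number of the modular characters of `e` and of its Brauer correspondent.

Proof.  Strong induction on `|G|`; the claim is, by FRT, also `ln e = lnum (Tg V γ) γ`.  `V = ⊥`:
`N(V) = ⊤`, `br V e = e` (`K9.LbrStmt` for `Q = ⊥`, `X = ⊤`, `H35.lnum_top`).  Let `K ℓ V E W₀`,
`W = W₀.map V.subtype ≤ V`, `W.subgroupOf V = W₀`, `W ≠ ⊥`.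

(1) `W` not normal in `G`.  `N = N(W) < G`, `c` from EXC, `|Irr(e)| = |Irr(c)|` by STO.  `Tg V γ ≤ N` (TWN,
`Adm.st`).  `TW.sta_` for `e` and for `c` (see `Helper11_PFD/LEQ.lean`): `b`, `b'` with `Zd`, `Star`.
`PFD.KsmStmt` for both: `iz |Irr e| = ∑_(v ∈ V) cz(v) ln (b v)`, `iz' |Irr c| = ∑_(v ∈ V') cz'(v) ln (b' v)`,
`V' = V.subgroupOf N`; `iz = iz'`, `cz' (v) = cz (v)` (IZX).  Let `v ∈ V` be not central in `G`: `|C(v)| < |G|`,
`Ld` for `b v` (`T3.LsbStmt`), the class by QRX (`X = C(v)`) and `Adm.iso`, so by induction and FRT, LTX: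
`ln (b v) = lnum (Tg V γ ⊓ C(v)) γ`.  For all `v' ∈ V'` with image `v`: the group `C_N(v')` has order at most
`|N| < |G|`, `T3.LsbStmt` for `c`, the class by QRX for `X = N` and then for `C_N(v')`, so
`ln (b' v') = lnum (Tg V' γ' ⊓ C_N(v')) γ' = lnum (Tg V γ ⊓ C(v)) γ` (LTX for `C_N(v')` in `N`, then the second
part of LTX for `N` in `G`, `Tg V γ ⊓ N = Tg V γ`).  For `v` central in `G`: `ln (b v) = ln e` (`PFD.LntStmt`),
and `Tg V γ ⊓ C(v) = Tg V γ`, `cz(v) = iz`.  Comparison (`PFD.H11.cmp` in `Helper11_PFD/LEQ.lean`):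
`ln e = lnum (Tg V γ) γ`.

(2) `W` normal in `G`.  QLN for `p : G → G/W` (`|G/W| < |G|`): for a block `f` of `G/W` under `push p e` QRQ gives
`Ld ℓ f (V.map p) γ'` and `π` with kernel `W.subgroupOf V = W₀`; `V.map p = ⊥` or `Adm.quo` gives the class
(`ℓ` does not divide `|E|`: `PFD.LkeStmt` and `K9.InxStmt` as in `Helper11_PFD/LEQ.lean`; `V` is commutative);
induction. -/
def LenStmt : Prop := ∀ K : Kl, (∀ ℓ : ℕ, ℓ.Prime → Adm ℓ K) → StoFor K → LenFor K

/-! ## 4. The alternating sums -/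

/-- the conclusion of MNN -/
def MnnFor (K : Kl) : Prop := ∀ (ℓ : ℕ) [Fact ℓ.Prime] (M : Ideal (integralClosure ℤ ℂ))
  [M.IsMaximal], (ℓ : integralClosure ℤ ℂ) ∈ M → ∀ (G : Type) [Group G] [Finite G]
  (e : G → FF M) (V : Subgroup G) (γ : G → FF M), Ld ℓ e V γ →
  ∀ W : Subgroup V, K ℓ V (Ei V γ) W → ∀ (A : Type) [Group A] [Finite A] (p : G →* A),
  Function.Surjective p → p.ker ≤ V → p.ker ≠ V → YY ℓ ⊤ (push p e) = 0

/-- MNN: the alternating sums are zero.

Proof.  As `PFD.MnyStmt` (`Helper11_PFD/MNY.lean`): strong induction on `|A|`.  (1) For `R` as in the hypothesis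
of CHR the blocks `c` of `N(R)` under `br_R e` have, by BNR, `Ld ℓ c ((conjS g V).subgroupOf N(R)) _`; the class
by QRJ and QRX (`X = N(R) ≥ C(conjS g V)`) and `Adm.iso`; YAD and induction.  (2) CHR:
`YY ℓ ⊤ (push p e) = |A| (ln e - ln (br_V e|N(V)))`, which is zero by LEN. -/
def MnnStmt : Prop := ∀ K : Kl, (∀ ℓ : ℕ, ℓ.Prime → Adm ℓ K) → LenFor K → MnnFor K

/-! ## 5. The class (A) + (S) -/

/-- CYQ: products of cyclic subgroups in quotients, and their last factor.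

Proof.  (1) Induction on `Cyc E C`; `π` is injective on `C`, so `π(C) ⊓ π(Y) = ⊥` for `C ⊔ Y` in the next
step (`V` is commutative: an element of `C ⊔ Y` is `c y`).  (2) Induction on `Cyc`: `bot` contradicts
`C ≠ ⊥`; `mul C Y`: if `Y = ⊥` then `C ⊔ Y = C`, induction; otherwise take `C₁ = C`, `Y₁ = Y`.  Let `a ∈ E` fix
`u ≠ 1` in `Y₁ = ⟨y⟩`, a cyclic `ℓ`-group.  `a y = y ^ k`; `y ^ (|Y₁|/ℓ)` is a power of `u` (the subgroup of order
`ℓ` of `Y₁` is in every nontrivial subgroup), so it is fixed by `a`, so `ℓ` divides `k - 1`.  So the order of `a`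
on `Y₁` is a power of `ℓ` (`k ^ (ℓ ^ n) = 1` modulo `ℓ ^ (n+1)`), and it divides the order of `a`, which is prime
to `ℓ`; so `a` is trivial on `Y₁`. -/
def CyqStmt : Prop := (∀ (V V' : Type) [Group V] [Group V'] (E : Subgroup (MulAut V))
    (E' : Subgroup (MulAut V')) (π : V →* V'), (∀ a b : V, a * b = b * a) → Qr E E' π →
    ∀ C : Subgroup V, Cyc E C → C ⊓ π.ker = ⊥ → Cyc E' (C.map π)) ∧
  ∀ (ℓ : ℕ) (V : Type) [Group V] [Finite V] (E : Subgroup (MulAut V)), ℓ.Prime → IsPGroup ℓ V →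
    ¬ ℓ ∣ Nat.card E → (∀ a b : V, a * b = b * a) → ∀ C : Subgroup V, Cyc E C → C ≠ ⊥ →
    ∃ C₁ Y₁ : Subgroup V, Cyc E C₁ ∧ C₁ ⊓ Y₁ = ⊥ ∧ C₁ ⊔ Y₁ = C ∧ Y₁ ≠ ⊥ ∧
      (∀ a ∈ E, ∀ y ∈ Y₁, a y ∈ Y₁) ∧ ∀ a ∈ E, ∀ u ∈ Y₁, u ≠ 1 → a u = u → ∀ y ∈ Y₁, a y = y

/-- ADS: the class (A) + (S) is admissible.

Proof.  `nt`: `U ≤ W`, `U ≠ ⊥`.  `st`: `W = U ⊔ X`.  `iso`: transport along `π`; `Cyc` by CYQ (1).  `quo`: `C` is
mapped isomorphically to `V'` (`C ⊓ W = ⊥`, `C ⊔ W = ⊤`), `Cyc E' ⊤` (CYQ (1)).  CYQ (2) for `E'` (the order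
of `E'` is prime to `ℓ`: every `a' ∈ E'` is induced by some `a ∈ E`, so its order is prime to `ℓ`, and
Cauchy): `C₁`, `Y₁`; `W' = Y₁`, `U = Y₁`, `X = ⊥`. -/
def AdsStmt : Prop := ∀ ℓ : ℕ, ℓ.Prime → Adm ℓ KS

/-- The clean hypotheses of the final theorem: `D` is the direct product of the cyclic subgroups `Y i` and
of `W`, all normalised by `T`, `W = ⊥` or `T` normalises a subgroup `U ≠ 1` of `W` and an element of `T`
which commutes with some `u ≠ 1` in `U` centralises `W`. -/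
structure Cln {H : Type} [Group H] (T : Set H) (D : Subgroup H) (s : ℕ) (Y : Fin s → Subgroup H)
    (W U : Subgroup H) : Prop where
  jn : (⨆ i, Y i) ⊔ W = D
  dy : ∀ i, Y i ⊓ (⨆ j, ⨆ (_ : j < i), Y j) = ⊥
  dw : (⨆ i, Y i) ⊓ W = ⊥
  cy : ∀ i, ∃ y ∈ Y i, ∀ x ∈ Y i, ∃ k : ℤ, x = y ^ k
  sy : ∀ i, ∀ t ∈ T, ∀ y ∈ Y i, t * y * t⁻¹ ∈ Y i
  sw : ∀ t ∈ T, ∀ w ∈ W, t * w * t⁻¹ ∈ W
  su : ∀ t ∈ T, ∀ u ∈ U, t * u * t⁻¹ ∈ U
  uw : U ≤ W
  nt : U = ⊥ → W = ⊥
  fr : ∀ t ∈ T, ∀ u ∈ U, u ≠ 1 → t * u = u * t → t ∈ Subgroup.centralizer (W : Set H)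

/-- CLN: from the clean hypotheses to the class.

Proof.  `E = Ei V γ`, of order prime to `ℓ` (`PFD.LkeStmt`, `K9.InxStmt`), an element of `E` is induced by an
element of `T = Tg V γ`.  All subgroups are replaced by their traces on `V` (`subgroupOf`).
`Cyc E (⨆ i, Y i)`: for `n ≤ s` show `Cyc E (⨆ i < n, Y i)` by induction.  If `W ≠ ⊥`, so `U ≠ ⊥`:
`PFD.EdfStmt` for the group `W` and the group of the automorphisms of `W` induced by `E` (a quotient of `E`, so of
order prime to `ℓ`): `W = U' × X'`.  If `W = ⊥`: `Cyc E V`, `V ≠ ⊥`, CYQ (2): `C = C₁`, `W = U = Y₁`, `X = ⊥`. -/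
def ClnStmt : Prop := ∀ (ℓ : ℕ) [Fact ℓ.Prime] (M : Ideal (integralClosure ℤ ℂ)) [M.IsMaximal],
  (ℓ : integralClosure ℤ ℂ) ∈ M → ∀ (G : Type) [Group G] [Finite G] (e : G → FF M)
  (V : Subgroup G) (γ : G → FF M), Ld ℓ e V γ → V ≠ ⊥ → ∀ (s : ℕ) (Y : Fin s → Subgroup G)
  (W U : Subgroup G), Cln (Tg V γ : Set G) V s Y W U → ∃ W₀ : Subgroup V, KS ℓ V (Ei V γ) W₀

/-- FNS: the final theorem, in the form of `PFD.H66.FneStmt` (`Helper66_PFD/Fne.lean`).

Proof.  As `PFD.H66.fne` there, with CLN instead of SPE and MNN instead of MNY.  `D ≠ ⊥`: the image of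
`O_ℓ(G)` is contained in `D` (`PFD.H66.cen_le`) and different from it. -/
def FnsStmt : Prop := ∀ (ℓ : ℕ) [Fact ℓ.Prime] (M : Ideal (integralClosure ℤ ℂ)) [M.IsMaximal],
  (ℓ : integralClosure ℤ ℂ) ∈ M → ∀ (G : Type) [Group G] [Finite G],
  opCore ℓ G ≤ Subgroup.center G → ∀ χ ∈ Irr G, ∀ (H : Type) [Group H] (p : G →* H),
  Function.Surjective p → p.ker ≤ opCore ℓ G → ∀ ψ ∈ Irr H,
  (∀ g : G, Cong M (omega (MonoidHom.id G) (fun x => ψ (p x)) g)
    (omega (MonoidHom.id G) χ g)) →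
  ∀ D : Subgroup H, ML.IsDef ℓ M ψ D → D ≠ (opCore ℓ G).map p →
  (∀ x ∈ D, ∀ y ∈ D, x * y = y * x) →
  ∀ th ∈ IrrBlock M (Subgroup.centralizer (D : Set H)).subtype ψ,
  ∀ (s : ℕ) (Y : Fin s → Subgroup H) (W U : Subgroup H), Cln (Iner M D th) D s Y W U →
  altSum ℓ M χ = 0

end Pool.Agent.PSS
end
end -- Pool.Agent.PSS.StmtsG

section -- Pool.Agent.PSS.StmtsS6

/-!
# Squad PSS, block S6: from blocks to the class `Cl`, and `N_W(A)` as a corner of `N_G(W)`

`F = FF M`, `e` a block of `G` with the abelian defect group `V`, `γ` a block of `C(V)` under `e`,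
`T = Tg V γ`, `j` a coherent local idempotent (`PFC.Jd`), `A = Crn hj` the corner `j (F G) j` as a ring
(`cv`, `cv_mul`, `mkj`, see `PFC/DefsB6.lean`), `α = jal hj ι hv`.  Elements of the group ring are
functions with the product `mulF`, `dl F g` is the element `g`, `pw x n` the power, `br Q x` the
restriction of `x` to `C(Q)`, `tsm V b` the sum of the conjugates of `b` over the cosets of `V`.
`W ≤ V`, `N = N(W)`, `j' = br_W(j)` as a function on `N`: it is a coherent local idempotent of `N` for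
the block `c` of `N` with the subpair `(V, γ)` (JNW), and `N_W(A) = Crn hj'` (NWG).
Complete proofs in the docstrings; a row may take other rows as hypotheses.  Everything of
`PFC/StmtsB6.lean` and `PFD/StmtsD5a.lean` is proved (`Pool/Agent/HelperNN_PFC`, `_PFD`, see the
columns `path` of the tables pfc, pfd: for example `PFC.H38.cps`, `PFC.H24.fps`, `PFC.H9F.ffa`,
`PFC.H62.unt`, `PFC.H52.jun`, `PFC.H45.jex`, `PFD.H52.ful`, `PFD.H61.ctr`).
-/

open scoped BigOperators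

noncomputable section

namespace Pool.Agent.PSS

open Pool.Agent.Helper51_AWC Pool.Agent.Helper79_WRA Pool.Agent.PP Pool.Agent.PP.KF
open Pool.Agent.PP.K9 Pool.Agent.PP.K9.H97 Pool.Agent.PP.H75 Pool.Agent.PP.T3 Pool.Agent.PP.T2
open Pool.Agent.PP.T8 (pw)
open Pool.Agent.PFD (Ei)
open Pool.Agent.PFC (Jd Crn jal Cz cv)

attribute [local instance] Ideal.Quotient.field

/-! ## 1. The class -/

/-- RFG: the relative Frobenius system of the corner.

Proof.  `lam(a) = (cv a)(1)` (symmetric, as in `PFC.FfaStmt`, `Helper9_PFC/FFA.lean`), `K = G ⧸ ι(W)`,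
`x q = mkj (dl q.out)`, `y q = mkj (dl q.out⁻¹)`.  `j` commutes with `ι(W)`, so
`x q * α w = j q.out ι(w) j` and `α w⁻¹ * y q = j ι(w)⁻¹ q.out⁻¹ j`.  For `g = q.out ι(w)`:
`lam(α w⁻¹ * y q * a) = (j g⁻¹ j a)(1) = (g⁻¹ a)(1) = a(g)` (symmetry of `x ↦ x(1)`, `j a = a = a j`), and
`(q, w) ↦ q.out ι(w)` is a bijection onto `G`, so the sum in `e1` is `∑_g a(g) j g j = j a j = a`; in the
same way `e2`: `lam(a * (x q * α w)) = (a g)(1) = a(g⁻¹)`, the sum is `∑_g a(g⁻¹) j g⁻¹ j = a`.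
`∑ x q * y q = ∑_q j q.out j q.out⁻¹ j = j (tsm j) j` (`PFD.H52.cj_eq_mulF`, `Helper52_PFD/FUL.lean`), and
`tsm j` is a class function (`tsm_cl`), so this is `j j (tsm j)`. -/
def RfgStmt : Prop := ∀ (F : Type) [Field F] (G W : Type) [Group G] [Finite G] [CommGroup W]
  [Fintype W] (ι : W →* G), Function.Injective ι → ∀ (j : G → F) (hj : mulF j j = j)
  (hv : ∀ w x, j (ι w * x * (ι w)⁻¹) = j x),
  ∃ (lam : Crn hj →ₗ[F] F) (K : Type) (_ : Fintype K) (x y : K → Crn hj),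
    RF F (jal hj ι hv) lam x y ∧ cv (∑ k, x k * y k) = mulF j (tsm ι.range j)

/-- BLG: the field `blk` of `Cl` if the centraliser of `V` is local.

Proof.  `FxR (cw F α) Q` is the set of the elements of `Cz F α Q` (both say that `a` commutes with
`α u`, `u ∈ Q`), and `BKR (cw F α) Q` is an ideal of it (`x * Tr(m) = Tr(x * m)` for `x` fixed by `Q`; for
a field see the lemmas on `BK` in `Helper38_PFC`, `Helper70_PFC/CBR.lean`, `B4/Key.lean`).  `e` is in
`BKR ⊤`, so it is not a unit of `Cz F α ⊤` (otherwise `1 ∈ BKR ⊤`), so it is in the maximal ideal of the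
finite-dimensional local algebra `Cz F α ⊤` and nilpotent, `e ^ n = 0`, `n ≥ 1`.  `e ^ m - e ∈ BKR Q` for
`m ≥ 1` by induction: `e ^ (m+1) - e = e (e ^ m - e) + (e * e - e)`, `e ∈ FxR Q`.  So `e ∈ BKR Q`. -/
def BlgStmt : Prop := ∀ (F V A : Type) [Field F] [CommGroup V] [Fintype V] [Ring A] [Algebra F A]
  [FiniteDimensional F A] (α : V →* A), IsLocalRing (Cz F α ⊤) →
  (1 : A) ∉ BKR (cw F α) ⊤ → ∀ Q : Subgroup V, ∀ e ∈ FxR (cw F α) ⊤,
  e * e - e ∈ BKR (cw F α) Q → e ∈ BKR (cw F α) ⊤ → e ∈ BKR (cw F α) Q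

/-- CLG: the corner is in the class.

Proof.  `fin`: `PFC.FfaStmt`.  `per`: `PFC.FpsStmt` (`PFC.PS` for `PFC.bi`; over a field `bw`, `cw`,
`FxR`, `BKR`, `FrR` are `PFC.bi`, `PFC.cj`, `PFC.Fx`, `PFC.BK`, `PFC.IsFr` up to unfolding).  `uni`:
`PFC.UntStmt` for every `x : E`.  `rt`: RFG; `z = tsm V j` is a class function, its central character
at `e` is not zero (`PFD.H52.res_ne`, `Helper52_PFD/FUL.lean`), so by `H50.blk_dich` (see `PFD.H52.ful`)
there is a class function `c` with `c z e = e`; `u = mkj c`: `u (j z) = j c j j z = j c z = j c z e`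
(`e j = j`, `PFC.JunStmt`; `e`, `c`, `z` central) `= j e = j`.  `blk`: BLG; `IsLocalRing`: FFA;
`1 ∉ BKR ⊤`: `Tpv.free` (FFA) for the function which is `1` at the identity and `0` elsewhere. -/
def ClgStmt : Prop := ∀ (ℓ : ℕ) [Fact ℓ.Prime] (M : Ideal (integralClosure ℤ ℂ)) [M.IsMaximal],
  (ℓ : integralClosure ℤ ℂ) ∈ M → ∀ (G : Type) [Group G] [Finite G] (e : G → FF M)
  (V : Subgroup G) (γ : G → FF M), Ld ℓ e V γ → ∀ j : G → FF M, Jd M V γ j →
  ∀ (W E : Type) [CommGroup W] [Fintype W] [Group E] (ι : W →* G), Function.Injective ι →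
  ι.range = V → ∀ φ : E →* MulAut W, (∀ t ∈ Tg V γ, ∃ x : E, ∀ w, ι (φ x w) = t * ι w * t⁻¹) →
  (∀ x : E, ∃ t ∈ Tg V γ, ∀ w, ι (φ x w) = t * ι w * t⁻¹) →
  ∀ (hj : mulF j j = j) (hv : ∀ w x, j (ι w * x * (ι w)⁻¹) = j x),
  Cl (FF M) φ (jal hj ι hv)

/-! ## 2. The coherent local idempotent of the normaliser -/

/-- SGW: the support of the central idempotents, `R` a normal `ℓ`-subgroup.

Proof.  `d = f - br R f`.  `br R f` is a central idempotent (`H20.brm`, `Helper20_PP`, with `G = X = H`;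
`N(R) = ⊤`), so `d` is a class function.  For every irreducible `ρ` `ev ρ d = 0` (`NlsStmt`, `H20.nls`),
so `d` is nilpotent (`IbnStmt`, `H20.ibn`).  `f`, `br R f` are commuting idempotents, so `d ^ 3 = d`, and
`d = 0`. -/
def SgwStmt : Prop := ∀ (ℓ : ℕ) [Fact ℓ.Prime] (F : Type) [Field F], GoodF ℓ F → ∀ (H : Type)
  [Group H] [Finite H] (R : Subgroup H), R.Normal → IsPGroup ℓ R → ∀ f : H → F, IsIdem f →
  ∀ x, x ∉ Subgroup.centralizer (R : Set H) → f x = 0

/-- NKW: the kernel of `br_R` is nil, `R` a normal `ℓ`-subgroup.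

Proof.  Let `ρ` be irreducible: `ρ r = 1` for `r ∈ R` (`H20.nls`), so `ρ(r x r⁻¹) = ρ x`, and
`ev ρ a = ∑_x a(x) ρ(x)`: the summand is invariant under the conjugation with the `ℓ`-group `R`, so in
characteristic `ℓ` only the fixed points `x ∈ C(R)` contribute (`PP.OrbStmt`, `H74.orb`), and there
`a(x) = 0`.  So `ev ρ a = 0` for all irreducible `ρ`, and `a` is nilpotent (`H20.ibn`). -/
def NkwStmt : Prop := ∀ (ℓ : ℕ) [Fact ℓ.Prime] (F : Type) [Field F], GoodF ℓ F → ∀ (H : Type)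
  [Group H] [Finite H] (R : Subgroup H), R.Normal → IsPGroup ℓ R → ∀ a : H → F,
  (∀ r ∈ R, ∀ x, a (r * x * r⁻¹) = a x) → br R a = 0 → ∃ n : ℕ, 0 < n ∧ pw a n = 0

/-- JNW: `br_W(j)` is a coherent local idempotent of `N(W)`.

Proof.  `N = N(W)`, `W ≤ V ≤ C(V) ≤ C(W) ≤ N`, `V' = V.subgroupOf N`, `γ' = γ|N`, `j' = br W j|N`, which
is supported on `C(W)`.  The restriction to `C(W)` is multiplicative on the elements which commute with
`W` (`H75.br_mulF orb hF hPW`).  `id`: `br W (j j) = br W j br W j`, and the restriction to `N` of functions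
supported on `N` is multiplicative (`mulF_res`).  `iv`: `v ∈ V ≤ C(W)`.  `nz`: the centraliser of `V'` in
`N` is `C(V)` (`T3.H85.cequiv`, `Helper85_AT3/LSB.lean`; for the transport of `IrrE` see
`T3.H85.ld_of` and `IrrE_equiv` in `Helper75_PFC/Cjl.lean`), and `j' = j` there.
`lb`: let `Q ≤ V'`, `f` a block of `C_N(Q)` with `br_(V')(f) γ' = γ'`.  `Q₁ = Q.map N.subtype`,
`P = Q₁ ⊔ W ≤ V`; `C_N(Q) ∩ C(W) = C(P)`.  `f₂` the local block of `P` in `G` (`T6.LwdStmt`,
`T6.H39.lwd`): `br_P(j) f₂ = br_P(j)` (`Jd.lb`).  `br_Q(j') = br_P(j)|N`.  By SGW for `H = C_N(Q)` and its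
normal `ℓ`-subgroup `W` (`W ≤ V` is abelian, `N` normalises `W`) `f` is supported on `C(P)`, so `f` is a
central idempotent of `F C(P)` and `f₂ f` is `f₂` or `0` (`Bx.dich'`); `br_V(f₂ f) γ = br_V(f₂) br_V(f) γ = γ`,
so `f₂ f = f₂`.  So `br_Q(j') f = br_P(j) f₂ f = br_P(j) f₂ = br_Q(j')`.
`lo`: let `w` be as in `lo`.  `b = br_(W')(w)`, `W' = W.subgroupOf N`, extended by zero to `G`, is
supported on `C(W)` and commutes with `V`.  `w₁ = j b j` commutes with `V`, `j w₁ = w₁ = w₁ j`, so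
`pw w₁ n` is `j` or `0` for some `n > 0` (`Jd.lo`), and `br_W(w₁) = br_W(j) b br_W(j) = b`
(`j' w j' = w`), so `pw b n` is `br_W j` or `0`.  If it is `0` then `br_(W')(pw w n) = 0`, so `pw w n` is
nilpotent (NKW) and so is `w`.  Otherwise `a = pw w n - j'` is in the kernel of `br_(W')`, it commutes
with `W'`, `j' a = a = a j'`, so it is nilpotent (NKW), and `pw w (n ℓ ^ k) = (j' + a) ^ (ℓ ^ k) =
j' + a ^ (ℓ ^ k) = j'` for large `k` (characteristic `ℓ`, `a` and `j'` commute). -/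
def JnwStmt : Prop := ∀ (ℓ : ℕ) [Fact ℓ.Prime] (M : Ideal (integralClosure ℤ ℂ)) [M.IsMaximal],
  (ℓ : integralClosure ℤ ℂ) ∈ M → ∀ (G : Type) [Group G] [Finite G] (e : G → FF M)
  (V : Subgroup G) (γ : G → FF M), Ld ℓ e V γ → ∀ W : Subgroup G, W ≤ V →
  ∀ c : Subgroup.normalizer (W : Set G) → FF M,
  Ld ℓ c (V.subgroupOf (Subgroup.normalizer (W : Set G)))
    (fun t : Subgroup.normalizer (W : Set G) => γ t) → ∀ j : G → FF M, Jd M V γ j →
  Jd M (V.subgroupOf (Subgroup.normalizer (W : Set G)))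
    (fun t : Subgroup.normalizer (W : Set G) => γ t)
    (fun t : Subgroup.normalizer (W : Set G) => br W j t)

/-! ## 3. The sum of the twisted Brauer quotients -/

/-- NWG: `N_X(A)` is the corner of the normaliser.

Proof.  `N = N(Q)`, `j' = br Q j|N`.  For `ε : MulAut X` let `X_ε = {g | g ι(w) g⁻¹ = ι(ε w), w ∈ X}`;
it is contained in `N`, the `X_ε` are disjoint (`ι` is injective), their union is `N`, `X_1 = C(Q)`,
`X_ε X_δ ≤ X_(ε δ)`.  For `b : G → F` let `r_ε(b) : N → F` be `b` on `X_ε` and `0` elsewhere.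
`β ε a = mkj (r_ε (cv a))` (linear).  (1) If `a : G → F` satisfies `a(ι(ε w) g ι(w)⁻¹) = a(g)` for `w ∈ X` and
`b(ι(δ w) g ι(w)⁻¹) = b(g)` then `r_(ε δ)(a b) = r_ε(a) r_δ(b)`: for `g ∈ X_(ε δ)` the group `X` acts on
the pairs `(h, k)` with `h k = g` by `(h, k) ↦ (ι(ε δ w) h ι(δ w)⁻¹, ι(δ w) k ι(w)⁻¹)`, the products
`a(h) b(k)` are invariant, so only the fixed pairs contribute (`PP.OrbStmt`, `H74.orb`, characteristic
`ℓ`), and these are the pairs with `k ∈ X_δ`, `h ∈ X_ε`.  (Or by `H75.br_mulF` after the multiplication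
with a fixed element of `X_δ`, `X_ε`.)  (2) `a ∈ FxR (bw F α) (twW X ε)` means
`cv a (ι(ε w) g ι(w)⁻¹) = cv a g` (`PFC.H38.cv_bi` in `Helper38_PFC/CPS.lean`); then
`j' r_ε(cv a) j' = r_ε(cv a)` by (1) (`j a j = a`; `j' = r_1(j)`), so `cv (β ε a) = r_ε(cv a)`.
`one`: `cv 1 = j`, `r_1(j) = j'`.  `mul`: (1).  `ker`: the second claim of `PFC.CpsStmt` for
`K = twW X ε`: `a ∈ BKR` iff `cv a` vanishes on `X_ε`.  `ind`: the supports `X_ε` are disjoint (`MulAut X`
is finite).  `spn`: for `b` in the corner of `j'` let `b_ε` be its restriction to `X_ε`, extended by zero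
to `G`; `b = ∑ b_ε`, and `j' b_ε j' = b_ε` because `j'` is supported on `C(Q) = X_1` (compare the supports
in `b = j' b j'`).  `f ε = mkj b_ε`: it is in `FxR` (for `g ∈ X_ε`: `ι(ε w) g ι(w)⁻¹ = g`; `j` commutes
with `ι(X)`), and `r_ε(j b_ε j) = j' b_ε j' = b_ε` by (1). -/
def NwgStmt : Prop := ∀ (ℓ : ℕ) [Fact ℓ.Prime] (F : Type) [Field F] [CharP F ℓ] (G W : Type)
  [Group G] [Finite G] [CommGroup W] [Fintype W] (ι : W →* G), Function.Injective ι →
  IsPGroup ℓ W → ∀ (X : Subgroup W) (Q : Subgroup G), X.map ι = Q →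
  ∀ (j : G → F) (hj : mulF j j = j) (hv : ∀ w x, j (ι w * x * (ι w)⁻¹) = j x)
  (hn : mulF (fun t : Subgroup.normalizer (Q : Set G) => br Q j t)
    (fun t : Subgroup.normalizer (Q : Set G) => br Q j t) =
    fun t : Subgroup.normalizer (Q : Set G) => br Q j t),
  Nonempty (IsNW F (jal hj ι hv) X (Crn hn))

/-! ## 4. The numbers of characters -/

/-- DZC: the centre of the corner.

Proof.  `PFD.FulStmt`, `PFD.CtrStmt`, `ChpStmt` (`H50.chp`), as in the Lean proof of `PFD.PbxStmt`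
(`Helper91_PFD/PBX.lean`, last lines). -/
def DzcStmt : Prop := ∀ (ℓ : ℕ) [Fact ℓ.Prime] (M : Ideal (integralClosure ℤ ℂ)) [M.IsMaximal],
  (ℓ : integralClosure ℤ ℂ) ∈ M → ∀ (G : Type) [Group G] [Finite G] (e : G → FF M)
  (V : Subgroup G) (γ : G → FF M), Ld ℓ e V γ → ∀ j : G → FF M, Jd M V γ j →
  ∀ hj : mulF j j = j,
  Module.finrank (FF M) (Subalgebra.center (FF M) (Crn hj)) = (IrrE M e).ncard

/-- CYP: the class `Sx` in the form of `DefsS.lean`.

Proof.  Claim, by induction on `Cyc E C` (ambient group `V`, `E ≤ Aut V`): for every commutative group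
`V₁`, `φ : E₁ →* MulAut V₁`, injective `i : V₁ →* V` such that every `φ x` is the restriction of an
element of `E` (`∀ x, ∃ a ∈ E, ∀ v, i (φ x v) = a (i v)`), and `φ`-stable `W₁ ≤ V₁` with
`C ⊓ W₁.map i = ⊥`, `C ⊔ W₁.map i = i.range`: there is `n` with `Cyp n V₁ E₁ φ W₁`.  `bot`: `W₁ = ⊤`, `n = 0`.
`mul C Y`: `Y₁ = Y.comap i` (`Y ≤ i.range`, so `Y₁ ≅ Y` is cyclic, and it is stable),
`W' = (C ⊔ W₁.map i).comap i ≥ W₁` (`C ≤ i.range`; `C` is stable under `E`, by an induction on `Cyc`),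
`IsCompl Y₁ W'`: `y = c w` with `y ∈ Y`, `c ∈ C`, `w ∈ W₁.map i` gives `w ∈ (C ⊔ Y) ⊓ W₁.map i = ⊥`,
`y = c ∈ C ⊓ Y = ⊥`.  `ψ` the restriction of `φ` to `W'`; induction for `W'`, `i ∘ W'.subtype`,
`W₁.subgroupOf W'` (its image under `i` is `W₁.map i`), `n + 1`.  Apply the claim to `V₁ = V`, `i = id`,
`W₁ = W`.  `ψ` the restriction of the action to `W` (`W = U ⊔ X` is stable), `Fre ψ` with `U.subgroupOf W`,
`X.subgroupOf W` (`Sx.fr`). -/
def CypStmt : Prop := ∀ (V : Type) [CommGroup V] [Finite V] (E : Subgroup (MulAut V))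
  (C W U X : Subgroup V), Sx E C W U X →
  ∃ (n : ℕ) (ψ : E →* MulAut W), Cyp n V E E.subtype W ∧ IsRs E.subtype W ψ ∧ Fre ψ

/-- STO: the input of the group level from the theorem for algebras.

Proof.  `V' = V` as a commutative group (`Ld.ab`), `ι = V.subtype`, `E = Ei V γ`, `φ = E.subtype`
(the two properties of `φ`, `¬ ℓ ∣ Nat.card E` and `IsPGroup` as in `Helper63_PFD/EGX.lean`),
`X = W.subgroupOf V`, `X.map ι = W`.  CYP: `n`, `ψ`.  `j` from `PFC.JexStmt`; `hj`, `hv` from `Jd.id`,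
`Jd.iv`; `A = Crn hj`: CLG.  JNW: `j' = br W j|N` is coherent for `c`; `hn` its `id`; `B = Crn hn`: NWG
(`Q = W`).  `AtsStmt`: `dim Z(A) = dim Z(B)`.  DZC for `(G, e, V, γ, j)` and for
`(N(W), c, V.subgroupOf N(W), γ|N(W), j')`. -/
def StoAlgStmt : Prop := AtsStmt → StoStmt

end Pool.Agent.PSS
end
end -- Pool.Agent.PSS.StmtsS6

section -- Pool.Agent.Helper41_PFD.SPJ

open scoped BigOperators

noncomputable section

namespace Pool.Agent.PFD.H41

open Pool.Agent.Helper51_AWC Pool.Agent.Helper79_WRA Pool.Agent.PP Pool.Agent.PP.KF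
open Pool.Agent.PP.K9 Pool.Agent.PP.K9.H97 Pool.Agent.PP.H75 Pool.Agent.PP.T3 Pool.Agent.PP.T2
open Pool.Agent.PP.TB (Zd Star iz cz)

section conj

variable {G : Type} [Group G]

theorem mem_conjS {g : G} {P : Subgroup G} {x : G} : x ∈ conjS g P ↔ g⁻¹ * x * g ∈ P := by
  rw [conjS, Subgroup.mem_map]
  constructor
  · rintro ⟨y, hy, rfl⟩
    have : g⁻¹ * ((MulAut.conj g).toMonoidHom y) * g = y := by
      simp [mul_assoc]
    rw [this]
    exact hy
  · intro h
    exact ⟨_, h, by simp [mul_assoc]⟩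

theorem conjS_mem_iff {g : G} {V : Subgroup G} (x : G) : g * x * g⁻¹ ∈ conjS g V ↔ x ∈ V := by
  rw [mem_conjS]
  have e : g⁻¹ * (g * x * g⁻¹) * g = x := by group
  rw [e]

theorem mem_norm_conjS {g : G} {V : Subgroup G} (x : G) :
    x ∈ Subgroup.normalizer (conjS g V : Set G) ↔
      g⁻¹ * x * g ∈ Subgroup.normalizer (V : Set G) := by
  rw [Subgroup.mem_normalizer_iff, Subgroup.mem_normalizer_iff]
  constructor
  · intro h v
    have h1 := h (g * v * g⁻¹)
    rw [conjS_mem_iff, mem_conjS] at h1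
    rw [h1]
    have e : g⁻¹ * (x * (g * v * g⁻¹) * x⁻¹) * g = g⁻¹ * x * g * v * (g⁻¹ * x * g)⁻¹ := by group
    rw [e]
  · intro h v
    have h1 := h (g⁻¹ * v * g)
    rw [mem_conjS, mem_conjS, h1]
    have e : g⁻¹ * (x * v * x⁻¹) * g = g⁻¹ * x * g * (g⁻¹ * v * g) * (g⁻¹ * x * g)⁻¹ := by group
    rw [e]

theorem mem_stabF_cj {F : Type} {g : G} {γ : G → F} (x : G) :
    x ∈ stabF (cj g γ) ↔ g⁻¹ * x * g ∈ stabF γ := by
  constructor
  · intro h y
    have h1 := h (g * y * g⁻¹)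
    change γ (g⁻¹ * (x * (g * y * g⁻¹) * x⁻¹) * g) = γ (g⁻¹ * (g * y * g⁻¹) * g) at h1
    have e1 : g⁻¹ * (x * (g * y * g⁻¹) * x⁻¹) * g = g⁻¹ * x * g * y * (g⁻¹ * x * g)⁻¹ := by group
    have e2 : g⁻¹ * (g * y * g⁻¹) * g = y := by group
    rw [e1, e2] at h1
    exact h1
  · intro h y
    have h1 : γ (g⁻¹ * x * g * (g⁻¹ * y * g) * (g⁻¹ * x * g)⁻¹) = γ (g⁻¹ * y * g) :=
      h (g⁻¹ * y * g)
    change γ (g⁻¹ * (x * y * x⁻¹) * g) = γ (g⁻¹ * y * g)
    rw [← h1]
    congr 1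
    group

theorem tg_conjS {F : Type} (g : G) (V : Subgroup G) (γ : G → F) :
    Tg (conjS g V) (cj g γ) = conjS g (Tg V γ) := by
  ext x
  rw [mem_conjS, Tg, Tg, Subgroup.mem_inf, Subgroup.mem_inf, mem_norm_conjS, mem_stabF_cj]

end conj

theorem spj : SpjStmt := by
  intro F G _ V γ U W h g
  have hinj : Function.Injective (MulAut.conj g).toMonoidHom := (MulAut.conj g).injective
  refine ⟨Subgroup.map_mono h.lu, Subgroup.map_mono h.lw, ?_, ?_, ?_, ?_, ?_, ?_⟩
  · unfold conjS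
    rw [← Subgroup.map_inf _ _ _ hinj, h.dj, Subgroup.map_bot]
  · unfold conjS
    rw [← Subgroup.map_sup, h.jn]
  · intro h0
    apply h.nt
    unfold conjS at h0
    rwa [Subgroup.map_eq_bot_iff_of_injective _ hinj] at h0
  · intro t ht u hu
    rw [tg_conjS, mem_conjS] at ht
    rw [mem_conjS] at hu ⊢
    have h1 := h.su _ ht _ hu
    have e : g⁻¹ * (t * u * t⁻¹) * g = g⁻¹ * t * g * (g⁻¹ * u * g) * (g⁻¹ * t * g)⁻¹ := by group
    rw [e]
    exact h1
  · intro t ht u hu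
    rw [tg_conjS, mem_conjS] at ht
    rw [mem_conjS] at hu ⊢
    have h1 := h.sw _ ht _ hu
    have e : g⁻¹ * (t * u * t⁻¹) * g = g⁻¹ * t * g * (g⁻¹ * u * g) * (g⁻¹ * t * g)⁻¹ := by group
    rw [e]
    exact h1
  · intro t ht u hu hu1 hc
    rw [tg_conjS, mem_conjS] at ht
    rw [mem_conjS] at hu
    have h1 : g⁻¹ * u * g ≠ 1 := by
      intro h0
      apply hu1
      have e : u = g * (g⁻¹ * u * g) * g⁻¹ := by group
      rw [e, h0]
      group
    have h2 : g⁻¹ * t * g * (g⁻¹ * u * g) = g⁻¹ * u * g * (g⁻¹ * t * g) := by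
      have e1 : g⁻¹ * t * g * (g⁻¹ * u * g) = g⁻¹ * (t * u) * g := by group
      have e2 : g⁻¹ * u * g * (g⁻¹ * t * g) = g⁻¹ * (u * t) * g := by group
      rw [e1, e2, hc]
    have h3 := h.fr _ ht _ hu h1 h2
    rw [Subgroup.mem_centralizer_iff] at h3 ⊢
    intro v hv
    have h4 := h3 (g⁻¹ * v * g) (mem_conjS.1 hv)
    have h5 : g * (g⁻¹ * v * g * (g⁻¹ * t * g)) * g⁻¹ = g * (g⁻¹ * t * g * (g⁻¹ * v * g)) * g⁻¹ := by
      rw [h4]
    have e1 : g * (g⁻¹ * v * g * (g⁻¹ * t * g)) * g⁻¹ = v * t := by group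
    have e2 : g * (g⁻¹ * t * g * (g⁻¹ * v * g)) * g⁻¹ = t * v := by group
    rw [e1, e2] at h5
    exact h5

end Pool.Agent.PFD.H41
end
end -- Pool.Agent.Helper41_PFD.SPJ

section -- Pool.Agent.Helper21_PSS.QRJ

/-!
# Row pss:QRJ

The inertial quotient of a conjugate subgroup.
-/

open scoped BigOperators

noncomputable section

namespace Pool.Agent.PSS.H21

open Pool.Agent.Helper51_AWC Pool.Agent.Helper79_WRA Pool.Agent.PP Pool.Agent.PP.KF
open Pool.Agent.PP.K9 Pool.Agent.PP.K9.H97 Pool.Agent.PP.H75 Pool.Agent.PP.T3 Pool.Agent.PP.T2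
open Pool.Agent.PP.TB (Zd Star iz cz)
open Pool.Agent.PFD (Ei)
open Pool.Agent.PFD.H41 (tg_conjS mem_norm_conjS)

theorem qrj : QrjStmt := by
  intro F G _ V γ g
  refine ⟨conjSEquiv g V, fun v => conjSEquiv_coe g V v, ?_, ?_⟩
  · exact (conjSEquiv g V).surjective
  · intro a' ha'
    rw [Ei, Subgroup.mem_map] at ha'
    obtain ⟨t', ht', rfl⟩ := ha'
    rw [Subgroup.mem_subgroupOf, tg_conjS, Pool.Agent.PFD.H41.mem_conjS] at ht'
    have hn : g⁻¹ * (t' : G) * g ∈ Subgroup.normalizer (V : Set G) :=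
      (mem_norm_conjS (t' : G)).1 t'.2
    refine ⟨V.normalizerMonoidHom ⟨g⁻¹ * (t' : G) * g, hn⟩, ?_, ?_⟩
    · rw [Ei, Subgroup.mem_map]
      exact ⟨⟨g⁻¹ * (t' : G) * g, hn⟩, ht', rfl⟩
    · intro v
      apply Subtype.ext
      have e1 : ((((conjSEquiv g V).toMonoidHom
          (V.normalizerMonoidHom ⟨g⁻¹ * (t' : G) * g, hn⟩ v)) : conjS g V) : G)
          = g * ((g⁻¹ * (t' : G) * g) * (v : G) * (g⁻¹ * (t' : G) * g)⁻¹) * g⁻¹ := rfl
      have e2 : ((((conjS g V).normalizerMonoidHom t'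
          ((conjSEquiv g V).toMonoidHom v)) : conjS g V) : G)
          = (t' : G) * (g * (v : G) * g⁻¹) * (t' : G)⁻¹ := rfl
      rw [e1, e2]
      group

end Pool.Agent.PSS.H21
end
end -- Pool.Agent.Helper21_PSS.QRJ

section -- Pool.Agent.Helper9_PFC.FFA

/-!
# Squad PFC, row FFA: the fields `fin`, `frm`, `loc`, `top`
-/

open scoped BigOperators

noncomputable section

namespace Pool.Agent.PFC.H9F

open Pool.Agent.Helper51_AWC Pool.Agent.Helper79_WRA Pool.Agent.PP Pool.Agent.PP.KF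
open Pool.Agent.PP.K9 Pool.Agent.PP.K9.H97 Pool.Agent.PP.H75 Pool.Agent.PP.T3 Pool.Agent.PP.T2
open Pool.Agent.PP.T8 (Fr rs pw)

section gen

variable {F G : Type} [Field F] [Group G] [Finite G]

/-- The coefficient at one is a trace. -/
theorem mulF_one_comm (a b : G → F) : mulF a b 1 = mulF b a 1 := by
  unfold mulF
  rw [← finsum_comp_equiv (Equiv.inv G)]
  apply finsum_congr
  intro t
  rw [Equiv.inv_apply, mul_one, mul_one, inv_inv, mul_comm]

theorem pw_zero_eq (x : G → F) : pw x 0 = dl F (1 : G) := by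
  funext g
  unfold pw dl
  by_cases h : g = 1
  · simp only [if_pos h]
  · simp only [if_neg h]

variable {j : G → F} (hj : mulF j j = j)

theorem cv_pow (a : Crn hj) (n : ℕ) : cv (a ^ (n + 1)) = pw (cv a) (n + 1) := by
  induction n with
  | zero =>
    change cv (a ^ 1) = mulF (cv a) (pw (cv a) 0)
    rw [pow_one, pw_zero_eq, mulF_dl_r]
    funext y
    rw [inv_one, mul_one]
  | succ n ih =>
    rw [pow_succ', cv_mul, ih]
    rfl

theorem cv_sum {κ : Type} (s : Finset κ) (f : κ → Crn hj) :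
    cv (∑ i ∈ s, f i) = ∑ i ∈ s, cv (f i) := by
  classical
  induction s using Finset.induction_on with
  | empty => rw [Finset.sum_empty, Finset.sum_empty]; exact cv_zero hj
  | insert a s ha ih => rw [Finset.sum_insert ha, Finset.sum_insert ha, cv_add, ih]

theorem fin_crn : FiniteDimensional F (Crn hj) :=
  inferInstanceAs (FiniteDimensional F (CnS j))

/-- the coefficient at one -/
def lam1 : Crn hj →ₗ[F] F where
  toFun := fun a => cv a 1
  map_add' := fun _ _ => rfl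
  map_smul' := fun _ _ => rfl

theorem lam1_apply (a : Crn hj) : lam1 hj a = cv a 1 := rfl

theorem lam1_sym (a b : Crn hj) : lam1 hj (a * b) = lam1 hj (b * a) := by
  rw [lam1_apply, lam1_apply, cv_mul, cv_mul]
  exact mulF_one_comm _ _

theorem lam1_nd (a : Crn hj) (h : ∀ b, lam1 hj (a * b) = 0) : a = 0 := by
  apply cv_inj hj
  rw [cv_zero]
  funext g
  have h1 := h (mkj hj (dl F g⁻¹))
  rw [lam1_apply, cv_mul, cv_mkj, ← H20.mulF_assoc, cv_r, ← H20.mulF_assoc,
    mulF_one_comm, ← H20.mulF_assoc, cv_l, mulF_dl_r] at h1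
  change cv a (1 * g⁻¹⁻¹) = 0 at h1
  rw [inv_inv, one_mul] at h1
  exact h1

variable {W : Type} [CommGroup W] [Fintype W] (ι : W →* G)
  (hv : ∀ w x, j (ι w * x * (ι w)⁻¹) = j x)

theorem sumV (hι : Function.Injective ι) {N : Type} [AddCommMonoid N] (f : ι.range → N) :
    ∑ᶠ v, f v = ∑ u : W, f ⟨ι u, ⟨u, rfl⟩⟩ := by
  rw [← finsum_comp_equiv (MonoidHom.ofInjective hι).toEquiv, finsum_eq_sum_of_fintype]
  apply Finset.sum_congr rfl
  intro u _
  rfl

theorem inv_of_comm (a : Crn hj) (w : W) (h : jal hj ι hv w * a = a * jal hj ι hv w) (x : G) :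
    cv a (ι w * x * (ι w)⁻¹) = cv a x := by
  have h1 := congrArg cv h
  rw [cv_mul, cv_mul, cv_jal, H20.mulF_assoc, cv_l, dl_comm (hv w), ← H20.mulF_assoc, cv_r,
    mulF_dl_l, mulF_dl_r] at h1
  have h2 := congrFun h1 (ι w * x)
  rw [inv_mul_cancel_left] at h2
  exact h2.symm

theorem lam1_nz (hι : Function.Injective ι) (h : ∑ᶠ v : ι.range, j v ≠ 0) :
    lam1 hj (∑ u, jal hj ι hv u) ≠ 0 := by
  rw [lam1_apply, cv_sum, Finset.sum_apply]
  have h1 : ∀ u : W, cv (jal hj ι hv u) 1 = j (ι u⁻¹) := by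
    intro u
    rw [cv_jal, mulF_dl_l, map_inv]
    change j ((ι u)⁻¹ * 1) = _
    rw [mul_one]
  rw [Finset.sum_congr rfl fun u _ => h1 u]
  rw [sumV ι hι] at h
  have h2 := Equiv.sum_comp (Equiv.inv W) (fun u => j (ι u))
  intro h3
  apply h
  exact h2.symm.trans h3

theorem fx_comm (a : Crn hj) (h : a ∈ Fx (cj F (jal hj ι hv)) ⊤) (w : W) :
    jal hj ι hv w * a = a * jal hj ι hv w := by
  have h1 : jal hj ι hv w * (a * jal hj ι hv w⁻¹) = a := h w (Subgroup.mem_top w)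
  calc jal hj ι hv w * a = jal hj ι hv w * (a * jal hj ι hv w⁻¹) * jal hj ι hv w := by
        rw [mul_assoc, mul_assoc, ← map_mul, inv_mul_cancel, map_one, mul_one]
    _ = a * jal hj ι hv w := by rw [h1]

theorem fx_jal (u : W) : jal hj ι hv u ∈ Fx (cj F (jal hj ι hv)) ⊤ := by
  intro w _
  change jal hj ι hv w * (jal hj ι hv u * jal hj ι hv w⁻¹) = jal hj ι hv u
  rw [← map_mul, ← map_mul, mul_comm u, mul_inv_cancel_left]

theorem fx_sum (c : W → F) : ∑ u, c u • jal hj ι hv u ∈ Fx (cj F (jal hj ι hv)) ⊤ :=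
  Submodule.sum_mem _ fun u _ => Submodule.smul_mem _ _ (fx_jal hj ι hv u)

theorem cv_comb (c : W → F) (g : G) :
    cv (∑ u, c u • jal hj ι hv u) g = ∑ u, c u * j ((ι u)⁻¹ * g) := by
  rw [cv_sum, Finset.sum_apply]
  apply Finset.sum_congr rfl
  intro u _
  rw [cv_smul, cv_jal, mulF_dl_l]
  rfl

theorem mem_cen (u : W) : ι u ∈ Subgroup.centralizer (ι.range : Set G) := by
  rw [Subgroup.mem_centralizer_iff]
  rintro _ ⟨v, rfl⟩
  rw [← map_mul, ← map_mul, mul_comm]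

open Classical in
/-- The combinations of the elements of `V` and of the idempotent, restricted to `C(V)`. -/
theorem comb_br (hι : Function.Injective ι) (c : ι.range → F) (g : G) :
    (∑ᶠ v : ι.range, c v • mulF (dl F (v : G)) (br ι.range j)) g =
      if g ∈ Subgroup.centralizer (ι.range : Set G) then
        ∑ u, c ⟨ι u, ⟨u, rfl⟩⟩ * j ((ι u)⁻¹ * g) else 0 := by
  classical
  rw [sumV ι hι, Finset.sum_apply]
  by_cases hg : g ∈ Subgroup.centralizer (ι.range : Set G)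
  · rw [if_pos hg]
    apply Finset.sum_congr rfl
    intro u _
    rw [Pi.smul_apply, mulF_dl_l]
    change c ⟨ι u, ⟨u, rfl⟩⟩ * br ι.range j ((ι u)⁻¹ * g) = _
    rw [H66.br_of_mem (mul_mem (inv_mem (mem_cen ι u)) hg)]
  · rw [if_neg hg]
    apply Finset.sum_eq_zero
    intro u _
    rw [Pi.smul_apply, mulF_dl_l]
    change c ⟨ι u, ⟨u, rfl⟩⟩ * br ι.range j ((ι u)⁻¹ * g) = 0
    rw [H66.br_of_not_mem, mul_zero]
    intro h
    apply hg
    have h2 := mul_mem (mem_cen ι u) h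
    rwa [mul_inv_cancel_left] at h2

end gen

section main

attribute [local instance] Ideal.Quotient.field

/-- Row FFA. -/
theorem ffa (cfb : CfbStmt) (cps : CpsStmt) : FfaStmt := by
  intro ℓ hℓ M hMm hM G _ _ e V γ hL j hJ W _ _ ι hι hV hj hv
  classical
  have hG : GoodF ℓ (FF M) := H50.fld ℓ Fact.out M hM
  have hch : CharP (FF M) ℓ := hG.char
  subst hV
  have hW : IsPGroup ℓ W := by
    apply hL.tp.pg.of_injective ι.rangeRestrict
    intro a b hab
    exact hι (congrArg Subtype.val hab)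
  obtain ⟨hspan, hfree, hnz⟩ := cfb ℓ M hM G e ι.range γ hL j hJ
  obtain ⟨-, -, hbk⟩ := cps ℓ (FF M) G W ι hι hW j hj hv
  have hmap : (Subgroup.map ι ⊤ : Subgroup G) = ι.range := (MonoidHom.range_eq_map ι).symm
  have hbk' : ∀ a : Crn hj, a ∈ Fx (cj (FF M) (jal hj ι hv)) ⊤ →
      (a ∈ BK (cj (FF M) (jal hj ι hv)) ⊤ ↔
        ∀ g ∈ Subgroup.centralizer (ι.range : Set G), cv a g = 0) := by
    intro a ha
    have h1 := hbk ⊤ a ha
    rw [hmap] at h1
    exact h1
  have hinvj : H66.Inv ι.range j := by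
    rintro _ ⟨w, rfl⟩ x
    exact hv w x
  refine ⟨fin_crn hj, ⟨lam1 hj, lam1_sym hj, lam1_nd hj, lam1_nz hj ι hv hι hnz⟩, ?_, ?_⟩
  · -- local
    have hj0 : j ≠ 0 := by
      intro h0
      apply hnz
      rw [h0]
      exact finsum_zero
    have hnt : Nontrivial (Cz (FF M) (jal hj ι hv) ⊤) := by
      refine ⟨⟨0, 1, ?_⟩⟩
      intro h
      have h1 : (0 : Crn hj) = 1 := congrArg Subtype.val h
      apply hj0
      have h2 := congrArg cv h1
      rw [cv_one, cv_zero] at h2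
      exact h2.symm
    refine @IsLocalRing.of_is_unit_or_is_unit_of_add_one _ _ hnt ?_
    intro a b hab
    have hb : b = 1 - a := by rw [← hab]; abel
    have hinv : ∀ v ∈ ι.range, ∀ x, cv (a : Crn hj) (v * x * v⁻¹) = cv (a : Crn hj) x := by
      rintro _ ⟨w, rfl⟩ x
      apply inv_of_comm hj ι hv
      have h1 := a.2
      unfold Cz at h1
      rw [Subalgebra.mem_centralizer_iff] at h1
      exact h1 _ ⟨w, Subgroup.mem_top w, rfl⟩
    obtain ⟨n, hn, hn'⟩ := hJ.lo (cv (a : Crn hj)) hinv (cv_l hj _) (cv_r hj _)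
    obtain ⟨m, rfl⟩ : ∃ m, n = m + 1 := ⟨n - 1, by omega⟩
    rw [← cv_pow hj] at hn'
    rcases hn' with h1 | h1
    · left
      apply IsUnit.of_pow_eq_one (n := m + 1) _ (Nat.succ_ne_zero m)
      apply Subtype.ext
      apply cv_inj hj
      exact h1
    · right
      rw [hb]
      apply IsNilpotent.isUnit_one_sub
      refine ⟨m + 1, ?_⟩
      apply Subtype.ext
      apply cv_inj hj
      exact h1
  · -- top
    constructor
    · intro a ha
      have hinv : H66.Inv ι.range (cv a) := by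
        rintro _ ⟨w, rfl⟩ x
        exact inv_of_comm hj ι hv a w (fx_comm hj ι hv a ha w) x
      obtain ⟨c, hc⟩ := hspan (br ι.range (cv a)) (fun g hg => H66.br_of_not_mem hg)
        (by rw [← H66.br_mulF hG hL.tp.pg hinvj hinv, cv_l])
        (by rw [← H66.br_mulF hG hL.tp.pg hinv hinvj, cv_r])
      refine ⟨fun u => c ⟨ι u, ⟨u, rfl⟩⟩, ?_⟩
      rw [hbk' _ (Submodule.sub_mem _ ha (fx_sum hj ι hv _))]
      intro g hg
      have h1 : cv (a - ∑ u, c ⟨ι u, ⟨u, rfl⟩⟩ • jal hj ι hv u) g =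
          cv a g - cv (∑ u, c ⟨ι u, ⟨u, rfl⟩⟩ • jal hj ι hv u) g := rfl
      rw [h1, cv_comb hj ι hv (fun u => c ⟨ι u, ⟨u, rfl⟩⟩), sub_eq_zero]
      have h2 := congrFun hc g
      rw [comb_br ι hι, if_pos hg, H66.br_of_mem hg] at h2
      exact h2
    · intro c hc
      rw [hbk' _ (fx_sum hj ι hv c)] at hc
      let e' := MonoidHom.ofInjective hι
      have h1 := hfree (fun v => c (e'.symm v)) (by
        funext g
        rw [comb_br ι hι]
        by_cases hg : g ∈ Subgroup.centralizer (ι.range : Set G)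
        · rw [if_pos hg]
          have h2 := hc g hg
          rw [cv_comb hj ι hv] at h2
          rw [Pi.zero_apply, ← h2]
          apply Finset.sum_congr rfl
          intro u _
          have h3 : e'.symm ⟨ι u, ⟨u, rfl⟩⟩ = u := e'.symm_apply_apply u
          rw [h3]
        · rw [if_neg hg]
          rfl)
      funext u
      have h2 := congrFun h1 (e' u)
      have h3 : e'.symm (e' u) = u := e'.symm_apply_apply u
      simp only [h3] at h2
      exact h2

end main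

end Pool.Agent.PFC.H9F
end
end -- Pool.Agent.Helper9_PFC.FFA

section -- Pool.Agent.Helper44_PSS.RFG

/-! Squad PSS (MP_6a3f1a_al), row RFG (helper44): the relative Frobenius system of the corner. -/

set_option autoImplicit false

open scoped BigOperators

set_option linter.unusedSectionVars false

noncomputable section

namespace Pool.Agent.PSS.H44R

open Pool.Agent.Helper51_AWC Pool.Agent.Helper79_WRA Pool.Agent.PP Pool.Agent.PP.KF
open Pool.Agent.PP.K9 Pool.Agent.PP.K9.H97 Pool.Agent.PP.H75 Pool.Agent.PP.T3 Pool.Agent.PP.T2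
open Pool.Agent.PFC (Jd Crn jal Cz cv mkj cv_mul cv_mkj cv_inj cv_l cv_r cv_jal dl_mul dl_comm)

section gen

variable {F G : Type} [Field F] [Group G] [Finite G]

theorem cj_eq (x : G) (a : G → F) :
    cj x a = mulF (mulF (dl F x) a) (dl F x⁻¹) := by
  rw [PFC.mulF_dl_r, PFC.mulF_dl_l]
  funext y
  rw [cj, inv_inv]
  congr 1
  group

variable {j : G → F} (hj : mulF j j = j)

theorem lam_mkj (g : G) (a : Crn hj) : PFC.H9F.lam1 hj (mkj hj (dl F g) * a) = cv a g⁻¹ := by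
  rw [PFC.H9F.lam1_apply, cv_mul, cv_mkj, H20.mulF_assoc, H20.mulF_assoc, cv_l,
    PFC.H9F.mulF_one_comm, H20.mulF_assoc, cv_r, PFC.mulF_dl_l]
  change cv a (g⁻¹ * 1) = _
  rw [mul_one]

theorem mulF_one (a b : G → F) [Fintype G] : mulF a b 1 = ∑ g, a g * b g⁻¹ := by
  unfold mulF
  rw [finsum_eq_sum_of_fintype]
  refine Finset.sum_congr rfl fun g _ => ?_
  rw [mul_one]

theorem sum_mkj [Fintype G] (a : Crn hj) : ∑ g, cv a g • mkj hj (dl F g) = a := by
  rw [← sub_eq_zero]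
  refine PFC.H9F.lam1_nd hj _ fun b => ?_
  rw [sub_mul, map_sub, Finset.sum_mul, map_sum, PFC.H9F.lam1_apply hj (a * b), cv_mul,
    mulF_one, sub_eq_zero]
  refine Finset.sum_congr rfl fun g _ => ?_
  rw [smul_mul_assoc, map_smul, lam_mkj, smul_eq_mul]

variable {W : Type} [CommGroup W] [Fintype W] (ι : W →* G)
  (hv : ∀ w x, j (ι w * x * (ι w)⁻¹) = j x)

theorem mkj_jal (g : G) (w : W) :
    mkj hj (dl F g) * jal hj ι hv w = mkj hj (dl F (g * ι w)) := by
  apply cv_inj hj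
  rw [cv_mul, cv_mkj, cv_mkj, cv_jal, ← dl_mul, H20.mulF_assoc, H20.mulF_assoc, H20.mulF_assoc,
    ← H20.mulF_assoc j (dl F (ι w)), ← dl_comm (hv w), H20.mulF_assoc (dl F (ι w)), hj]

theorem jal_mkj (g : G) (w : W) :
    jal hj ι hv w * mkj hj (dl F g) = mkj hj (dl F (ι w * g)) := by
  apply cv_inj hj
  rw [cv_mul, cv_mkj, cv_mkj, cv_jal, ← dl_mul, H20.mulF_assoc, ← H20.mulF_assoc j j, hj,
    ← H20.mulF_assoc (dl F (ι w)), dl_comm (hv w), H20.mulF_assoc, H20.mulF_assoc]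

theorem sum_cos (hι : Function.Injective ι) [Fintype G] [Fintype (G ⧸ ι.range)]
    {N : Type} [AddCommMonoid N] (f : G → N) :
    ∑ q : G ⧸ ι.range, ∑ w : W, f (q.out * ι w) = ∑ g, f g := by
  rw [← Fintype.sum_prod_type']
  refine Fintype.sum_bijective (fun x : (G ⧸ ι.range) × W => x.1.out * ι x.2) ?_ _ _
    fun x => rfl
  have hmk : ∀ x : (G ⧸ ι.range) × W, ((x.1.out * ι x.2 : G) : G ⧸ ι.range) = x.1 := by
    intro x
    rw [QuotientGroup.mk_mul_of_mem _ (⟨x.2, rfl⟩ : ι x.2 ∈ ι.range)]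
    exact QuotientGroup.out_eq' _
  constructor
  · intro x y hxy
    have h1 : x.1 = y.1 := by
      rw [← hmk x, ← hmk y]
      exact congrArg _ hxy
    have h2 : x.2 = y.2 := by
      apply hι
      have h3 : x.1.out * ι x.2 = y.1.out * ι y.2 := hxy
      rw [h1] at h3
      exact mul_left_cancel h3
    exact Prod.ext h1 h2
  · intro g
    have h1 : ((g : G ⧸ ι.range).out)⁻¹ * g ∈ ι.range := by
      rw [← QuotientGroup.eq]
      exact QuotientGroup.out_eq' _
    obtain ⟨w, hw⟩ := h1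
    refine ⟨((g : G ⧸ ι.range), w), ?_⟩
    change (g : G ⧸ ι.range).out * ι w = g
    rw [hw, mul_inv_cancel_left]

end gen

theorem rfg : RfgStmt := by
  intro F _ G W _ _ _ _ ι hι j hj hv
  classical
  have := Fintype.ofFinite G
  have := Fintype.ofFinite (G ⧸ ι.range)
  refine ⟨PFC.H9F.lam1 hj, G ⧸ ι.range, inferInstance, fun q => mkj hj (dl F q.out),
    fun q => mkj hj (dl F (q.out)⁻¹), ⟨PFC.H9F.lam1_sym hj, ?_, ?_⟩, ?_⟩
  · intro a
    have h1 : ∀ (q : G ⧸ ι.range) (w : W), PFC.H9F.lam1 hj (jal hj ι hv w⁻¹ *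
        mkj hj (dl F (q.out)⁻¹) * a) • (mkj hj (dl F q.out) * jal hj ι hv w) =
        cv a (q.out * ι w) • mkj hj (dl F (q.out * ι w)) := by
      intro q w
      rw [jal_mkj, mkj_jal, lam_mkj]
      congr 2
      rw [map_inv]
      group
    rw [Finset.sum_congr rfl fun q _ => Finset.sum_congr rfl fun w _ => h1 q w,
      sum_cos ι hι (fun g => cv a g • mkj hj (dl F g)), sum_mkj]
  · intro a
    have h1 : ∀ (q : G ⧸ ι.range) (w : W), PFC.H9F.lam1 hj (a * (mkj hj (dl F q.out) *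
        jal hj ι hv w)) • (jal hj ι hv w⁻¹ * mkj hj (dl F (q.out)⁻¹)) =
        cv a (q.out * ι w)⁻¹ • mkj hj (dl F (q.out * ι w)⁻¹) := by
      intro q w
      rw [jal_mkj, mkj_jal, PFC.H9F.lam1_sym, lam_mkj]
      congr 2
      congr 1
      rw [map_inv]
      group
    rw [Finset.sum_congr rfl fun q _ => Finset.sum_congr rfl fun w _ => h1 q w,
      sum_cos ι hι (fun g => cv a g⁻¹ • mkj hj (dl F g⁻¹))]
    rw [Fintype.sum_equiv (Equiv.inv G) (fun g => cv a g⁻¹ • mkj hj (dl F g⁻¹))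
      (fun g => cv a g • mkj hj (dl F g)) fun g => rfl]
    exact sum_mkj hj a
  · have hcl : IsCl (tsm ι.range j) := by
      apply tsm_cl
      rintro _ ⟨w, rfl⟩
      exact (cj_eq_iff (ι w) j).2 (hv w)
    have h1 : tsm ι.range j = ∑ q : G ⧸ ι.range, cj q.out j := by
      funext g
      unfold tsm
      rw [finsum_eq_sum_of_fintype, Finset.sum_apply]
    have h2 : ∀ q : G ⧸ ι.range, cv (mkj hj (dl F q.out) * mkj hj (dl F (q.out)⁻¹)) =
        cv (mkj hj (cj q.out j)) := by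
      intro q
      rw [cv_mul, cv_mkj, cv_mkj, cv_mkj, cj_eq]
      simp only [H20.mulF_assoc]
      rw [← H20.mulF_assoc j j, hj]
    have h3 : ∀ s : Finset (G ⧸ ι.range), cv (∑ q ∈ s, mkj hj (cj q.out j)) =
        cv (mkj hj (∑ q ∈ s, cj q.out j)) := by
      intro s
      induction s using Finset.induction_on with
      | empty =>
        rw [Finset.sum_empty, Finset.sum_empty, cv_mkj, H20.zero_mulF, H20.mulF_zero]
        exact PFC.cv_zero hj
      | insert a s ha ih =>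
        rw [Finset.sum_insert ha, Finset.sum_insert ha, PFC.cv_add, ih, cv_mkj, cv_mkj, cv_mkj,
          H20.add_mulF, H20.mulF_add]
    rw [PFC.H9F.cv_sum, Finset.sum_congr rfl fun q _ => h2 q, ← PFC.H9F.cv_sum, h3, ← h1, cv_mkj,
      mulF_comm_cl hcl, ← H20.mulF_assoc, hj]

end Pool.Agent.PSS.H44R
end
end -- Pool.Agent.Helper44_PSS.RFG
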