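import Pool.Agent.Helper12_AWB.B004
import Pool.Agent.Helper12_AWB.B012
import Pool.Agent.Helper12_AWB.B185

/-!
# Merged copies (generated) of the modules

* `Pool.Agent.PST.DefsET`
* `Pool.Agent.PST.StmtsET1`
* `Pool.Agent.PST.StmtsET2`
* `Pool.Agent.Helper13_PST.PWS`
* `Pool.Agent.Helper1_PST.JCU`
* `Pool.Agent.Helper41_PST.FCZ`
* `Pool.Agent.Helper55_PST.REL`
* `Pool.Agent.Helper65_PST.PCM`
* `Pool.Agent.Helper81_PST.GEN`
* `Pool.Agent.Helper81_PST.RFS`
* `Pool.Agent.Helper83_PST.SUB`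
-/

set_option autoImplicit false

section -- Pool.Agent.PST.DefsET

/-!
# Squad PST (theorem (S+)), block ET (helper57): etaleness of the generic fibre, definitions

`R` is a complete discrete valuation ring of characteristic `ℓ` (in the end `F⟦X⟧`), `c : Cdv R F`, `H` is an
`F`-algebra with `α : V →* H`, `V` elementary abelian of rank `r`, `Hs` a finite free `R`-algebra with the special fibre
map `f : FibG Hs H c` (`f.q : Hs →+* H`).

* `EDat F lam xx t`: `lam l` (`l < r`) a basis of the additive functions `V → F`, `xx l` elements of the augmentation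
  ideal (functions on `V`) dual to the `lam n`, `t l ≠ 0`.
* `gv lam xx t v u = ∑ l, t l * lam l v * xx l u`: the coefficient at `u` of the value at `v` of the direction.
* `IV F α`: the span of the `α u * b - b * α u`.
* `Rgd ℓ c f α lam xx t`: the first order datum.
* `SFr R lam x y`: `lam` is a symmetric form with the dual families `x`, `y`.
* `SVd c σ cf`: `S` has the basis `σ v` with the coordinates `cf v`, and `σ u * σ v = σ (u v)` modulo `π`.
* `CrR j κ`: `Y` is the corner `j D j` (over the ring `R`).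
* `cmt R D`: the span of the commutators.
-/

open scoped BigOperators TensorProduct

noncomputable section

namespace Pool.Agent.PST.ET

open Pool.Agent.PFD.D2 (Cdv FibG)

/-- eigen-coordinates (without the characters) -/
structure EDat (F : Type) {V : Type} [Field F] [CommGroup V] [Fintype V] {r : ℕ}
    (lam xx : Fin r → V → F) (t : Fin r → F) : Prop where
  add : ∀ l u v, lam l (u * v) = lam l u + lam l v
  sp : ∀ m : V → F, (∀ u v, m (u * v) = m u + m v) → ∃ k : Fin r → F, ∀ v, m v = ∑ l, k l * lam l v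
  x0 : ∀ l, ∑ v, xx l v = 0
  x1 : ∀ l n, ∑ v, xx l v * lam n v = if l = n then 1 else 0
  t0 : ∀ l, t l ≠ 0

/-- the coefficient at `u` of the direction at `v` -/
def gv {F V : Type} [Field F] {r : ℕ} (lam xx : Fin r → V → F) (t : Fin r → F) (v u : V) : F :=
  ∑ l, t l * lam l v * xx l u

/-- the span of the commutators with `V` -/
def IV (F : Type) {V H : Type} [Field F] [CommGroup V] [Ring H] [Algebra F H] (α : V →* H) :
    Submodule F H :=
  Submodule.span F {x | ∃ (u : V) (b : H), x = α u * b - b * α u}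

/-- the span of all commutators -/
def cmt (R D : Type) [CommRing R] [Ring D] [Algebra R D] : Submodule R D :=
  Submodule.span R {x | ∃ a b : D, x = a * b - b * a}

section reg

variable {R F V H Hs : Type} [CommRing R] [Field F] [CommGroup V] [Fintype V] [Ring H]
  [Algebra F H] [Ring Hs] [Algebra R Hs]

/-- The first order datum: lifts of the elements of `V`, their `ℓ`-th powers and their commutators. -/
structure Rgd (ℓ : ℕ) (c : Cdv R F) (f : FibG Hs H c) (α : V →* H) {r : ℕ}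
    (lam xx : Fin r → V → F) (t : Fin r → F) : Prop where
  pw : ∀ v, ∃ w G : Hs, f.q w = α v ∧ w ^ ℓ = 1 + c.π • G ∧
    f.q G - ∑ u, gv lam xx t v u • α u ∈ IV F α
  cm : ∀ u v, ∃ a b d : Hs, f.q a = α u ∧ f.q b = α v ∧ a * b - b * a = c.π • d ∧
    f.q d ∈ IV F α

end reg

/-- a symmetric form with dual families -/
structure SFr (R : Type) {D K : Type} [CommRing R] [Ring D] [Algebra R D] [Fintype K]
    (lam : D →ₗ[R] R) (x y : K → D) : Prop where
  sym : ∀ a b, lam (a * b) = lam (b * a)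
  e1 : ∀ a, ∑ k, lam (y k * a) • x k = a
  e2 : ∀ a, ∑ k, lam (a * x k) • y k = a

/-- `Y` is the corner `j D j` -/
structure CrR {R D Y : Type} [CommRing R] [Ring D] [Algebra R D] [Ring Y] [Algebra R Y] (j : D)
    (κ : Y →ₗ[R] D) : Prop where
  inj : Function.Injective κ
  mul : ∀ a b, κ (a * b) = κ a * κ b
  one : κ 1 = j
  ran : ∀ a, j * a = a → a * j = a → ∃ b, κ b = a

section svd

variable {R F V S : Type} [CommRing R] [Field F] [CommGroup V] [Fintype V] [DecidableEq V]
  [Ring S] [Algebra R S]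

/-- the basis `σ v` of `S` with the coordinates `cf v`; modulo `π` it is the group `V` -/
structure SVd (c : Cdv R F) (σ : V → S) (cf : V → (S →ₗ[R] R)) : Prop where
  b1 : ∀ s, ∑ v, cf v s • σ v = s
  b2 : ∀ u v, cf u (σ v) = if u = v then 1 else 0
  one : σ 1 = 1
  mul : ∀ u v, ∃ d, σ u * σ v = σ (u * v) + c.π • d

/-- the powers of the `σ v` -/
def Pws (ℓ : ℕ) (c : Cdv R F) {r : ℕ} (lam xx : Fin r → V → F) (t : Fin r → F) (σ : V → S)
    (cf : V → (S →ₗ[R] R)) : Prop :=
  ∀ v, ∃ g, σ v ^ ℓ = 1 + c.π • g ∧ ∀ u, c.κ (cf u g) = gv lam xx t v u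

/-- the augmentation -/
def eps (c : Cdv R F) (cf : V → (S →ₗ[R] R)) (s : S) : F := ∑ v, c.κ (cf v s)

/-- the functional of an additive function -/
def dl (c : Cdv R F) (cf : V → (S →ₗ[R] R)) (m : V → F) (s : S) : F := ∑ v, c.κ (cf v s) * m v

end svd

section loc

variable {F V H : Type} [Field F] [CommGroup V] [Fintype V] [DecidableEq V] [Ring H] [Algebra F H]

/-- `lam` gives the `V`-`V`-projection `a ↦ ∑ u, lam (α u⁻¹ * a) • α u` of `H` onto the span of `V`. -/
structure Prj (α : V →* H) (lam : H →ₗ[F] F) : Prop where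
  inv : ∀ v a, lam (α v * a) = lam (a * α v)
  del : ∀ v, lam (α v) = if v = 1 then 1 else 0

/-- the projection -/
def prj (α : V →* H) (lam : H →ₗ[F] F) (a : H) : H := ∑ u, lam (α u⁻¹ * a) • α u

/-- `1 - prj` is a trace from the trivial subgroup (conjugation action) -/
def Trc (α : V →* H) (lam : H →ₗ[F] F) : Prop :=
  ∃ th : H →ₗ[F] H, ∀ a, ∑ v, α v * th (α v⁻¹ * a * α v) * α v⁻¹ = a - prj α lam a

end loc

end Pool.Agent.PST.ET
end
end -- Pool.Agent.PST.DefsET

section -- Pool.Agent.PST.StmtsET1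

/-!
# Squad PST, block ET (helper57), part 1: the commutative algebra `S`

`S` is a commutative `R`-algebra with the basis `σ v` (`v ∈ V`), `S / π = F V`, `σ v ^ ℓ = 1 + π g v`, where `g v`
reduces to `∑_l t_l lam_l(v) X_l`, `X_l = ∑_u xx l u • u`.  Result (`ZsuStmt`): the Casimir element
`∑ σ v * σ' v` (`σ'` the dual basis for the form `cf 1`) is `π ^ r` times a unit.

Idea.  `b_1, .., b_r` a basis of `V`, `τ_i = σ (b_i)`, `d_i = τ_i ⊗ 1 - 1 ⊗ τ_i` in `S ⊗ S`.
`d_j ^ ℓ = π (g_j ⊗ 1 - 1 ⊗ g_j) = π ∑_i M_ji d_i`.  `Δ = det (diag (d_j ^ (ℓ-1)) - π M)` is killed by all `d_i`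
(Cramer), so it is `(w ⊗ 1) c`, `c = ∑ σ v ⊗ σ' v`, `w = (id ⊗ t) Δ`; modulo `π` it is `∏ d_j ^ (ℓ-1)`, so `w` is a
unit; the multiplication maps `Δ` to `(-π) ^ r det (mult M)`, and `det (mult M)` is a unit because the
`∑_l t_l lam_l(b_j) X_l` are independent modulo the square of the augmentation ideal.

All rows are elementary, the proofs in the docstrings are complete.
-/

open scoped BigOperators TensorProduct

noncomputable section

namespace Pool.Agent.PST.ET

open Pool.Agent.PFD.D2 (Cdv FibG)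

/-- GBS: a basis of the elementary abelian group `V`.

Proof.  `Additive V` is a vector space over `ZMod ℓ` (`AddCommGroup.zmodModule`, as `ℓ • x = 0`); let `b_1, .., b_m` be a
basis (`Module.finBasis`), `μ_i : V → F` the coordinates composed with `ZMod.castHom (dvd_refl ℓ) F`; they are
additive, so by `sp` `μ_i = ∑_l K_il lam_l`, and `L = (lam_l (b_j))` satisfies `K * L = 1` (size `m`).  As
`lam_n v = ∑_j μ_j(v) lam_n(b_j)` (additivity), `x1` gives `δ_ln = ∑_j (∑_v xx l v μ_j v) lam_n (b_j)`, that is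
`X * Lᵀ = 1` (size `r`).  So `m ≤ r` and `r ≤ m` (ranks, or injective / surjective linear maps between `F^m` and
`F^r`), `m = r`; reindex.  Every element of a vector space over `ZMod ℓ` with the basis `b` is uniquely
`∑ e_i • b_i` with `e_i ∈ {0, .., ℓ-1}`: the map is bijective (`Module.Basis.equivFun`, `ZMod.natCast_zmod_val`;
or injective and surjective with `ZMod.val`).  The second matrix identity: `K * L = 1` implies `L * K = 1` for square
matrices (`Matrix.mul_eq_one_comm`). -/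
def GbsStmt : Prop :=
  ∀ (ℓ r : ℕ) [Fact ℓ.Prime] (F V : Type) [Field F] [CharP F ℓ] [CommGroup V] [Fintype V]
    (lam xx : Fin r → V → F) (t : Fin r → F), (∀ v : V, v ^ ℓ = 1) → EDat F lam xx t →
    ∃ (b : Fin r → V) (K : Matrix (Fin r) (Fin r) F),
      K * Matrix.of (fun l j => lam l (b j)) = 1 ∧ Matrix.of (fun l j => lam l (b j)) * K = 1 ∧
      Function.Bijective (fun e : Fin r → Fin ℓ => ∏ i, b i ^ (e i : ℕ))

/-- EPS: the augmentation is a ring homomorphism modulo `π`, the functional of an additive function is a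
derivation over it.

Proof.  All maps are additive and `κ`-semilinear; by `b1` it is enough to check the identities for `a = σ u`,
`b = σ v`: `σ u * σ v = σ (u v) + π d`, `κ (cf w (π • d)) = κ π * .. = 0` (`c.ker`: `κ π = 0` since `π = π * 1`),
`κ (cf w (σ (u v))) = δ`. -/
def EpsStmt : Prop :=
  ∀ (R F V S : Type) [CommRing R] [Field F] [CommGroup V] [Fintype V] [DecidableEq V] [CommRing S]
    [Algebra R S] (c : Cdv R F) (σ : V → S) (cf : V → (S →ₗ[R] R)) (m : V → F), SVd c σ cf →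
    (∀ u v, m (u * v) = m u + m v) →
    eps c cf 1 = 1 ∧ (∀ a b, eps c cf (a + b) = eps c cf a + eps c cf b) ∧
    (∀ a b, eps c cf (a * b) = eps c cf a * eps c cf b) ∧
    (∀ r a, eps c cf (r • a) = c.κ r * eps c cf a) ∧
    (∀ a b, dl c cf m (a + b) = dl c cf m a + dl c cf m b) ∧
    (∀ a b, dl c cf m (a * b) = eps c cf a * dl c cf m b + dl c cf m a * eps c cf b) ∧
    (∀ r a, dl c cf m (r • a) = c.κ r * dl c cf m a) ∧
    (∀ v, eps c cf (σ v) = 1) ∧ (∀ v, dl c cf m (σ v) = m v)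

/-- UPR: an element which is invertible modulo `π` is invertible.

Proof.  `D2.UngStmt` for `M = D` and the right multiplication by `s y`, resp. `y s`: `x s y - x = x (s y - 1) = π ..`,
so `x ↦ x s y` is surjective: `x s y = 1`... in detail: the right multiplications by `s * y` and by `y * s` are bijective,
and so are the left multiplications, so `s * y` and `y * s` are units; `s` has a left and a right inverse. -/
def UprStmt : Prop :=
  ∀ (R F D : Type) [CommRing R] [Field F] (c : Cdv R F) [Ring D] [Algebra R D] [Module.Finite R D]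
    (s y d d' : D), s * y = 1 + c.π • d → y * s = 1 + c.π • d' → IsUnit s

/-- UNS: units of `S`.

Proof.  Let `e = eps s ≠ 0`, `κ r = e`, `x = s - r • 1`, so `eps x = 0`.  `x = ∑ cf v x • σ v` and in characteristic `ℓ`
`x ^ ℓ = ∑ (cf v x) ^ ℓ • σ v ^ ℓ`, and `σ v ^ ℓ = 1 + π ..` (from `mul` by induction `σ v ^ n = σ (v ^ n) + π ..`,
`v ^ ℓ = 1`, `one`), so `x ^ ℓ = (∑ (cf v x) ^ ℓ) • 1 + π ..` and `κ (∑ (cf v x) ^ ℓ) = (eps x) ^ ℓ = 0` (`sum_pow_char`):
`x ^ ℓ = π • d`.  `s = r • 1 + x`; `s ^ ℓ = r ^ ℓ • 1 + π • d`, `r` is a unit (`c.loc`).  So `s * (s ^ (ℓ-1) r^(-ℓ)) = 1 + π ..`: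
UPR (`S` is commutative, and finite over `R` by `b1`). -/
def UnsStmt : Prop :=
  ∀ (ℓ : ℕ) [Fact ℓ.Prime] (R F V S : Type) [CommRing R] [CharP R ℓ] [Field F] [CommGroup V]
    [Fintype V] [DecidableEq V] [CommRing S] [Algebra R S] (c : Cdv R F) (σ : V → S)
    (cf : V → (S →ₗ[R] R)), (∀ v : V, v ^ ℓ = 1) → SVd c σ cf → ∀ s, eps c cf s ≠ 0 → IsUnit s

/-- GNS: `S` is generated by the `σ (b i)`.

Proof.  `N` = the algebra generated (as a submodule).  For `v = ∏ b i ^ e i`: `∏ σ (b i) ^ e i = σ v + π ..` (`mul`, `one`,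
induction), so every `s = ∑ cf v s • σ v` is in `N + π S`.  Nakayama: `N = S` (`S` finite over `R`; `π` is in the
Jacobson radical of `R` since `κ (1 + π r) = 1 ≠ 0`, `c.loc`; `Submodule.le_of_le_smul_of_le_jacobson_bot` or
`D2.UngStmt` for the `R`-linear map `σ v ↦ ∏ σ (b i) ^ e i`, which is the identity modulo `π`: it is surjective, with
the image in `N`). -/
def GnsStmt : Prop :=
  ∀ (ℓ r : ℕ) [Fact ℓ.Prime] (R F V S : Type) [CommRing R] [Field F] [CommGroup V]
    [Fintype V] [DecidableEq V] [CommRing S] [Algebra R S] (c : Cdv R F) (σ : V → S)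
    (cf : V → (S →ₗ[R] R)) (b : Fin r → V), SVd c σ cf →
    Function.Bijective (fun e : Fin r → Fin ℓ => ∏ i, b i ^ (e i : ℕ)) →
    Algebra.adjoin R (Set.range fun i => σ (b i)) = ⊤

/-- DIF: differences of the images under two homomorphisms.

Proof.  `Algebra.adjoin_induction`: `i1 (x y) - i2 (x y) = i1 x (i1 y - i2 y) + (i1 x - i2 x) i2 y`, constants give `0`. -/
def DifStmt : Prop :=
  ∀ (r : ℕ) (R S T : Type) [CommRing R] [CommRing S] [Algebra R S] [CommRing T] [Algebra R T]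
    (i1 i2 : S →ₐ[R] T) (τ : Fin r → S), Algebra.adjoin R (Set.range τ) = ⊤ →
    ∀ y, i1 y - i2 y ∈ Ideal.span (Set.range fun i => i1 (τ i) - i2 (τ i))

/-- DET: Cramer's rule.

Proof.  `A = diagonal (d j ^ (ℓ-1)) - p • M`; the hypothesis says `A.mulVec d = 0`; `adjugate A * A = det A • 1`, so
`det A * d i = 0`.  `m (det A) = det (m A)` (`RingHom.map_det`), `m A = - m p • m M` (`ℓ ≥ 2`, `m (d j) = 0`),
`det = (- m p) ^ r * det (m M)` (`Matrix.det_smul`).  `h A` is diagonal: `Matrix.det_diagonal`. -/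
def DetStmt : Prop :=
  ∀ (ℓ r : ℕ) [Fact ℓ.Prime] (T : Type) [CommRing T] (p : T) (d : Fin r → T)
    (M : Matrix (Fin r) (Fin r) T), (∀ j, d j ^ ℓ = p * ∑ i, M j i * d i) →
    (∀ i, (Matrix.diagonal (fun j => d j ^ (ℓ - 1)) - p • M).det * d i = 0) ∧
    (∀ (S : Type) [CommRing S] (m : T →+* S), (∀ j, m (d j) = 0) →
      m (Matrix.diagonal (fun j => d j ^ (ℓ - 1)) - p • M).det =
        (-m p) ^ r * (m.mapMatrix M).det) ∧
    ∀ (S : Type) [CommRing S] (h : T →+* S), h p = 0 →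
      h (Matrix.diagonal (fun j => d j ^ (ℓ - 1)) - p • M).det = ∏ j, h (d j) ^ (ℓ - 1)

/-- JCU: the Jacobian is a unit.

Proof.  `d_i = σ (b i) ⊗ 1 - 1 ⊗ σ (b i)`.  For `n < r` let `χ : S ⊗ S → F` be the additive map
`χ (x ⊗ y) = eps x * dl (lam n) y` (`F` as an `R`-module through `κ`: `letI := c.κ.toAlgebra`, `TensorProduct.lift`), and
`ε (x ⊗ y) = eps x * eps y`; by EPS `ε` is a ring homomorphism and `χ (a b) = ε a χ b + χ a ε b` (check on pure
tensors).  `ε (d_i) = 0`, `χ (d_i) = - lam n (b i)` (`dl 1 = dl (σ 1) = lam n 1 = 0`), `χ (g_j ⊗ 1 - 1 ⊗ g_j) = - dl (lam n) g_j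
= - ∑_u gv (b j) u * lam n u = - ∑_l t_l lam_l(b j) ∑_u xx l u lam_n u = - t_n lam_n(b j)`.  So the hypothesis gives
`t_n lam_n(b j) = ∑_i μ_ji lam_n(b i)`, `μ_ji = ε (M_ji) = eps (mult M_ji)` (`ε = eps ∘ mult`), that is `diag(t) * L = L * μᵀ`
with `L = (lam n (b i))` invertible; so `det μ = ∏ t_n ≠ 0`.  `eps (det (mult M)) = det μ` (EPS: `eps` is a ring
homomorphism), UNS. -/
def JcuStmt : Prop :=
  ∀ (ℓ r : ℕ) [Fact ℓ.Prime] (R F V S : Type) [CommRing R] [CharP R ℓ] [Field F] [CommGroup V]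
    [Fintype V] [DecidableEq V] [CommRing S] [Algebra R S] (c : Cdv R F) (σ : V → S)
    (cf : V → (S →ₗ[R] R)) (lam xx : Fin r → V → F) (t : Fin r → F) (b : Fin r → V)
    (K : Matrix (Fin r) (Fin r) F) (g : Fin r → S)
    (M : Matrix (Fin r) (Fin r) (S ⊗[R] S)), (∀ v : V, v ^ ℓ = 1) → EDat F lam xx t →
    SVd c σ cf → Matrix.of (fun l j => lam l (b j)) * K = 1 →
    (∀ j u, c.κ (cf u (g j)) = gv lam xx t (b j) u) →
    (∀ j, g j ⊗ₜ[R] (1 : S) - (1 : S) ⊗ₜ[R] g j =
      ∑ i, M j i * (σ (b i) ⊗ₜ[R] (1 : S) - (1 : S) ⊗ₜ[R] σ (b i))) →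
    IsUnit ((Algebra.TensorProduct.lmul' (S := S) R).toRingHom.mapMatrix M).det

/-- SCA: the sum of the elements of `V`.

Proof.  By the bijection and `Finset.prod_univ_sum` (`Fintype.piFinset`): `∑ v, β v = ∑_e ∏_i β (b i) ^ e i =
∏_i ∑_(k < ℓ) β (b i) ^ k`, and in characteristic `ℓ` `∑_(k < ℓ) x ^ k = (1 - x) ^ (ℓ-1)`: in `(ZMod ℓ)[X]`
`(1 - X) * (1 - X) ^ (ℓ-1) = 1 - X ^ ℓ = (1 - X) * ∑ X ^ k` (`sub_pow_char`), cancel `1 - X`, and evaluate. -/
def ScaStmt : Prop :=
  ∀ (ℓ r : ℕ) [Fact ℓ.Prime] (V K : Type) [CommGroup V] [Fintype V] [CommRing K] [CharP K ℓ]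
    (β : V →* K) (b : Fin r → V),
    Function.Bijective (fun e : Fin r → Fin ℓ => ∏ i, b i ^ (e i : ℕ)) →
    ∑ v, β v = ∏ i, (1 - β (b i)) ^ (ℓ - 1)

/-- TSF: the form `cf 1` is a symmetrising form, the dual basis.

Proof.  Gram matrix `G u v = cf 1 (σ u * σ v)`; `κ (G u v) = δ_(u v = 1)`; `P = (κ G)` is the
permutation matrix of the inversion, `det P = ± 1`, so `det G` is a unit (`c.loc`) and `G` has an inverse `N` (symmetric, as
`G` is).  `σ' v = ∑_u N v u • σ u`: `cf 1 (σ' v * σ w) = ∑_u N v u G u w = δ_vw`; so `e1` for `s = σ w`, and by linearity for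
all `s` (`b1`).  `e2`: for `s`, `∑_v cf 1 (σ v * s) • σ' v` pairs with every `σ w` under `cf 1` to `cf 1 (σ w * s)`, and `cf 1 (a *
σ w) = 0` for all `w` gives `a = 0` (`e1`).  `κ (cf u (σ' v)) = κ (N v u) = (P⁻¹) v u = P v u`. -/
def TsfStmt : Prop :=
  ∀ (R F V S : Type) [CommRing R] [Field F] [CommGroup V] [Fintype V] [DecidableEq V] [CommRing S]
    [Algebra R S] (c : Cdv R F) (σ : V → S) (cf : V → (S →ₗ[R] R)), SVd c σ cf →
    ∃ σ' : V → S, (∀ s, ∑ v, cf 1 (σ' v * s) • σ v = s) ∧ (∀ s, ∑ v, cf 1 (σ v * s) • σ' v = s) ∧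
      ∀ u v, c.κ (cf u (σ' v)) = if u = v⁻¹ then 1 else 0

/-- CSS: the elements of `S ⊗ S` which are killed by the `s ⊗ 1 - 1 ⊗ s`.

Proof.  `w = (id ⊗ t) Δ`, `t = cf 1`.  For pure tensors `x ⊗ y = ∑_v x ⊗ t (σ v y) σ' v = ∑_v (t (σ v y) • x) ⊗ σ' v =
∑_v ((id ⊗ t) ((1 ⊗ σ v) (x ⊗ y))) ⊗ σ' v`, so `Δ = ∑_v ((id ⊗ t) ((1 ⊗ σ v) Δ)) ⊗ σ' v = ∑_v ((id ⊗ t) ((σ v ⊗ 1) Δ)) ⊗ σ' v =
∑_v σ v w ⊗ σ' v`.  Apply the multiplication. -/
def CssStmt : Prop :=
  ∀ (R V S : Type) [CommRing R] [Fintype V] [CommRing S] [Algebra R S] (σ σ' : V → S)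
    (t : S →ₗ[R] R), (∀ s, ∑ v, t (σ v * s) • σ' v = s) → ∀ Δ : S ⊗[R] S,
    (∀ s : S, (s ⊗ₜ[R] (1 : S)) * Δ = ((1 : S) ⊗ₜ[R] s) * Δ) →
    Algebra.TensorProduct.lmul' (S := S) R Δ =
      TensorProduct.lift ((LinearMap.lsmul R S).flip.compl₂ t) Δ * ∑ v, σ v * σ' v

/-- WUN: `w` is a unit.

Proof.  `K = S ⧸ (π)`, `β v` = the class of `σ v`: a homomorphism `V →* K` (`mul`, `one`); `K` has characteristic `ℓ` or is zero
(not zero: `eps` induces `K → F`).  `Θ : S ⊗ S → K`, `Θ (x ⊗ y) = eps(x) * class of y`: precisely, `K` is an algebra over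
`R ⧸ (π)`, which is a field isomorphic to `F` by `κ`; take `Θ (x ⊗ y) = class of (r • y)` for any `r` with `κ r = eps x`
(`Θ` is a ring homomorphism by EPS).  `Θ (π) = 0`, `Θ (σ v ⊗ 1 - 1 ⊗ σ v) = 1 - β v`.  So `Θ Δ = ∏ (1 - β (b i)) ^ (ℓ-1) =
∑ v, β v` (hypothesis `hD`, SCA).  `t' : K → F` induced by `κ ∘ cf 1`: `t' (β v) = δ_(v = 1)`, and `t' ∘ Θ = eps ∘ (id ⊗ cf 1)`
(pure tensors: both are `eps x * κ (cf 1 y)`).  So `eps w = t' (∑ β v) = 1`, UNS. -/
def WunStmt : Prop :=
  ∀ (ℓ r : ℕ) [Fact ℓ.Prime] (R F V S : Type) [CommRing R] [CharP R ℓ] [Field F] [CommGroup V]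
    [Fintype V] [DecidableEq V] [CommRing S] [Algebra R S] (c : Cdv R F) (σ : V → S)
    (cf : V → (S →ₗ[R] R)) (b : Fin r → V) (Δ : S ⊗[R] S), (∀ v : V, v ^ ℓ = 1) →
    SVd c σ cf → Function.Bijective (fun e : Fin r → Fin ℓ => ∏ i, b i ^ (e i : ℕ)) →
    (∀ (K : Type) [CommRing K] (h : S ⊗[R] S →+* K),
      h (algebraMap R (S ⊗[R] S) c.π) = 0 →
      h Δ = ∏ i, h (σ (b i) ⊗ₜ[R] (1 : S) - (1 : S) ⊗ₜ[R] σ (b i)) ^ (ℓ - 1)) →
    IsUnit (TensorProduct.lift ((LinearMap.lsmul R S).flip.compl₂ (cf 1)) Δ)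

/-- ZSU: TOP of part 1: the Casimir element of `S`.

Proof.  GBS: `b`, `K`.  `Pws`: `g_j` for `v = b j`.  `T = S ⊗ S`, `d_i = σ (b i) ⊗ 1 - 1 ⊗ σ (b i)`, characteristic `ℓ`:
`d_j ^ ℓ = σ (b j) ^ ℓ ⊗ 1 - 1 ⊗ σ (b j) ^ ℓ = π (g_j ⊗ 1 - 1 ⊗ g_j)`; GNS and DIF (`i1`, `i2` the two inclusions) give `M`
with `g_j ⊗ 1 - 1 ⊗ g_j = ∑ M_ji d_i` (`Ideal.mem_span_range_iff_exists_fun`).  DET with `p = π`: `Δ`.  `Δ d_i = 0`, and by DIF
`Δ` is killed by all `s ⊗ 1 - 1 ⊗ s`: CSS: `mult Δ = w z_S`; DET: `mult Δ = (-π) ^ r det (mult M)`, JCU: the determinant is a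
unit; WUN: `w` is a unit.  So `z_S = π ^ r • z`, `z = w⁻¹ (-1) ^ r det (mult M)`. -/
def ZsuStmt : Prop :=
  ∀ (ℓ r : ℕ) [Fact ℓ.Prime] (R F V S : Type) [CommRing R] [CharP R ℓ] [Field F] [CharP F ℓ]
    [CommGroup V] [Fintype V] [DecidableEq V] [CommRing S] [Algebra R S] (c : Cdv R F) (σ : V → S)
    (cf : V → (S →ₗ[R] R)) (lam xx : Fin r → V → F) (t : Fin r → F) (σ' : V → S),
    (∀ v : V, v ^ ℓ = 1) → EDat F lam xx t → SVd c σ cf → Pws ℓ c lam xx t σ cf →
    (∀ s, ∑ v, cf 1 (σ v * s) • σ' v = s) →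
    ∃ z : S, IsUnit z ∧ ∑ v, σ v * σ' v = c.π ^ r • z

end Pool.Agent.PST.ET
end
end -- Pool.Agent.PST.StmtsET1

section -- Pool.Agent.PST.StmtsET2

/-!
# Squad PST, block ET (helper57), part 2: lifting lemmas, and the local case

Part A: commutators, idempotents, Casimir traces over `R`.
Part B: the local case: `H` with `PMid F φ ⊥ α`.  Then `H = F V ⊕ M` as `V`-`V`-bimodules, `M` projective for the
conjugation action; so `F V` lifts to a subalgebra `S` of `Hs` with a basis `σ v`, `S` is commutative by the first order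
datum, and `∑ x k * y k = ∑ x~ z_S y~ = π ^ r • unit` with relative families `x~`, `y~` over `S`.

All rows are elementary, the proofs in the docstrings are complete.
-/

open scoped BigOperators TensorProduct

noncomputable section

namespace Pool.Agent.PST.ET

open Pool.Agent.PFD.D2 (Cdv FibG)
open Pool.Agent.PFC (Fx BK cj bi tw PS Frm PMid)
open Pool.Agent.PSS (RF)

/-! ## A. General -/

/-- TOR: `π` is a nonzero divisor on a free module; elements which are divisible by all powers of `π` vanish.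
Proof.  Coordinates (`Module.Free.chooseBasis`), `c.reg`, `c.sep`. -/
def TorStmt : Prop :=
  ∀ (R F D : Type) [CommRing R] [Field F] (c : Cdv R F) [AddCommGroup D] [Module R D]
    [Module.Free R D], (∀ (n : ℕ) (x : D), c.π ^ n • x = 0 → x = 0) ∧
    ∀ x : D, (∀ n : ℕ, ∃ y, x = c.π ^ n • y) → x = 0

/-- KRS: Krull.

Proof.  `M = D ⧸ N` is a finite module over the Noetherian ring `R`, which is local (`c.loc`, `c.ker`: the nonunits are
`π R`), `π` is not a unit (`κ π = 0`): the intersection of the `π ^ n M` is `0`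
(`Ideal.iInf_pow_smul_eq_bot_of_isLocalRing`). -/
def KrsStmt : Prop :=
  ∀ (R F D : Type) [CommRing R] [IsDomain R] [IsPrincipalIdealRing R] [Field F] (c : Cdv R F)
    [AddCommGroup D] [Module R D] [Module.Finite R D] (N : Submodule R D) (x : D),
    (∀ n : ℕ, ∃ y, x - c.π ^ n • y ∈ N) → x ∈ N

/-- PCM: `ℓ`-th powers modulo the commutators.

Proof.  `(a + b) ^ ℓ` is the sum of the words of length `ℓ` in `a`, `b`; the cyclic group of order `ℓ` acts on the words by
rotation; a rotated word is congruent modulo `cmt` (`x y - y x`); the orbits of the words different from `a ^ ℓ`, `b ^ ℓ` have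
`ℓ` elements, `ℓ = 0` in `D`.  `(a b - b a) ^ ℓ` is congruent to `(a b) ^ ℓ - (b a) ^ ℓ = a y - y a` with `y = b (a b) ^ (ℓ-1)`;
for a sum `∑ r_i (a_i b_i - b_i a_i)` use the first part (`(r a) ^ ℓ = r ^ ℓ a ^ ℓ`), induction
(`Submodule.span_induction`: write the element as a sum, the statement `a ^ ℓ ∈ cmt` is stable under sums by the
first part). -/
def PcmStmt : Prop :=
  ∀ (ℓ : ℕ) [Fact ℓ.Prime] (R D : Type) [CommRing R] [CharP R ℓ] [Ring D] [Algebra R D],
    (∀ a b : D, (a + b) ^ ℓ - a ^ ℓ - b ^ ℓ ∈ cmt R D) ∧ ∀ a ∈ cmt R D, a ^ ℓ ∈ cmt R D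

/-- KLF: an integral combination of idempotents which is a sum of commutators modulo `π` is a sum of commutators.

Proof.  `x = ∑ m i • j i`.  Lift the commutators: `x = c0 + π d`, `c0 ∈ cmt R D` (`f.surj`, `c.surj`, `f.ker`).  By PCM, modulo
`cmt`: `x ^ (ℓ ^ n) = ∑ (m i) ^ (ℓ ^ n) • j i = x` (`m ^ ℓ = m` modulo `ℓ`), and `x ^ (ℓ ^ n) = c0 ^ (ℓ ^ n) + (π d) ^ (ℓ ^ n)`, the
first term is in `cmt`.  So `x - π ^ (ℓ ^ n) • d ^ (ℓ ^ n) ∈ cmt` for all `n`, and `ℓ ^ n ≥ n`: KRS. -/
def KlfStmt : Prop :=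
  ∀ (ℓ : ℕ) [Fact ℓ.Prime] (R F D H ι : Type) [CommRing R] [IsDomain R] [IsPrincipalIdealRing R]
    [CharP R ℓ] [Field F] (c : Cdv R F) [Ring D] [Algebra R D] [Module.Finite R D]
    [Ring H] [Algebra F H] (f : FibG D H c) [Fintype ι] (j : ι → D) (m : ι → ℤ),
    (∀ i, j i * j i = j i) → ∑ i, m i • f.q (j i) ∈ cmt F H → ∑ i, m i • j i ∈ cmt R D

/-- TAU: the Casimir trace `τ a = ∑ x k * a * y k`.

Proof.  (1) `d x_k = ∑_l T (y_l d x_k) x_l` (`e1`), so `d τ a = ∑_l x_l a ∑_k T (y_l d x_k) y_k = ∑_l x_l a y_l d` (`e2`).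
(2) `τ' z = ∑ y_k z x_k` is central in the same way (`b y_k = ∑_l T (b y_k x_l) y_l`, `∑_k T (y_k x_l b) x_k = x_l b`).
`T (τ (a b) z) = T (a b τ' z) = T (b τ' z a) = T (b a τ' z) = T (τ (b a) z)` for all `z`; if `T (e z) = 0` for all `z` then `e = 0`
(`e2`).  (3) linear. -/
def TauStmt : Prop :=
  ∀ (R D K : Type) [CommRing R] [Ring D] [Algebra R D] [Fintype K] (T : D →ₗ[R] R) (x y : K → D),
    SFr R T x y → (∀ a d, d * ∑ k, x k * a * y k = (∑ k, x k * a * y k) * d) ∧
    (∀ a b, ∑ k, x k * (a * b) * y k = ∑ k, x k * (b * a) * y k) ∧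
    ∀ z ∈ cmt R D, ∑ k, x k * z * y k = 0

/-- ILF: idempotents lift.  Proof.  `D2.IdgStmt` for `M = D`, the set of the left multiplications, `e` the right
multiplication by a lift `a` of `j`: `g` commutes with the left multiplications, so it is the right multiplication by
`j' = g 1`, and `j' - a ∈ π D`. -/
def IlfStmt : Prop :=
  ∀ (R F D H : Type) [CommRing R] [IsDomain R] [IsPrincipalIdealRing R] [Field F] (c : Cdv R F)
    [Ring D] [Algebra R D] [Module.Finite R D] [Module.Free R D] [Ring H] [Algebra F H]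
    (f : FibG D H c) (j : H), j * j = j → ∃ j' : D, j' * j' = j' ∧ f.q j' = j

/-- CIL: an idempotent which is central modulo `π` is central.

Proof.  Let `x ∈ b D (1 - b)`, i.e. `b x = x`, `x b = 0`.  `q x = q b * q x = q x * q b = 0`, so `x = π y`; `π (b y - y) = 0`,
`π (y b) = 0`, so `y ∈ b D (1 - b)` (TOR).  By induction `x ∈ π ^ n D` for all `n`: `x = 0` (TOR).  In the same way
`(1 - b) D b = 0`; `b a = b a b = a b`. -/
def CilStmt : Prop :=
  ∀ (R F D H : Type) [CommRing R] [Field F] (c : Cdv R F)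
    [Ring D] [Algebra R D] [Module.Free R D] [Ring H] [Algebra F H]
    (f : FibG D H c) (b : D), b * b = b → (∀ h, f.q b * h = h * f.q b) → ∀ a, b * a = a * b

/-- FUN: fullness lifts.

Proof.  `I` = the span of the `s j t`, a two-sided ideal, `N = {x : b x = x}`.  `b = i + π d` (lift the sum), `i ∈ I`; for
`x ∈ N`: `x = b (b x) = b i x + π (b d x)`, so `N ≤ I ⊔ π N`; by iteration `b - π ^ n • y ∈ I` for all `n`; KRS. -/
def FunStmt : Prop :=
  ∀ (R F D H : Type) [CommRing R] [IsDomain R] [IsPrincipalIdealRing R] [Field F] (c : Cdv R F)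
    [Ring D] [Algebra R D] [Module.Finite R D] [Ring H] [Algebra F H]
    (f : FibG D H c) (b j : D), b * b = b → (∀ a, b * a = a * b) →
    f.q b ∈ Submodule.span F {x : H | ∃ s t : H, x = s * f.q j * t} →
    b ∈ Submodule.span R {x : D | ∃ s t : D, x = s * j * t}

/-- FCZ: a central element which is `p` times a unit on a full corner.

Proof.  `b = ∑ s_i j t_i`, `z = ∑ s_i u t_i b`, `z' = ∑ s_i u' t_i b`.  `p z = ∑ s_i j τ t_i b = τ b b = τ b = τ`.  `p (z a - a z) = τ a - a τ = 0`,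
so `z` is central.  `p (z z') = τ z' = ∑ s_i u' τ t_i b` (`τ` central) `= ∑ s_i u' (j τ) t_i b = p ∑ s_i u' u t_i b = p ∑ s_i j t_i b = p b`:
`z z' = b`.  `z' = b z'`, and `z'` is central: for `a`: `z (z' a - a z') = b a - a b = 0`, multiply by `z'`... : `z' z = z z' = b`, so
`z' a - a z' = b (z' a - a z') = z' z (z' a - a z') = 0`. -/
def FczStmt : Prop :=
  ∀ (R D : Type) [CommRing R] [Ring D] [Algebra R D] (p : R) (b j τ u u' : D),
    (∀ x : D, p • x = 0 → x = 0) → b * b = b → (∀ a, b * a = a * b) → j * j = j →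
    b ∈ Submodule.span R {x : D | ∃ s t : D, x = s * j * t} → (∀ a, τ * a = a * τ) →
    τ * b = τ → j * τ = p • u → j * u = u → u * j = u → j * u' = u' → u' * j = u' →
    u * u' = j → u' * u = j →
    ∃ z z' : D, (∀ a, z * a = a * z) ∧ (∀ a, z' * a = a * z') ∧ z * z' = b ∧ z * b = z ∧
      τ = p • z

/-- RDF: reduction of a symmetric form.  Proof.  `lam0 (q a) = κ (T a)`: well defined by `f.ker`, `F`-linear by
`c.surj`, `f.sc`. -/
def RdfStmt : Prop :=
  ∀ (R F D H K : Type) [CommRing R] [Field F] (c : Cdv R F) [Ring D] [Algebra R D]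
    [Ring H] [Algebra F H] (f : FibG D H c) [Fintype K] (T : D →ₗ[R] R) (x y : K → D),
    SFr R T x y → ∃ lam0 : H →ₗ[F] F, (∀ a, lam0 (f.q a) = c.κ (T a)) ∧
      SFr F lam0 (fun k => f.q (x k)) (fun k => f.q (y k))

/-- CSI: the Casimir trace does not depend on the families.

Proof.  `x k = ∑_l T (Y l * x k) • X l`, so `∑_k x k a y k = ∑_l X l a ∑_k T (Y l x k) y k = ∑_l X l a Y l` (`e2`). -/
def CsiStmt : Prop :=
  ∀ (R D K L : Type) [CommRing R] [Ring D] [Algebra R D] [Fintype K] [Fintype L]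
    (T : D →ₗ[R] R) (x y : K → D) (X Y : L → D), SFr R T x y →
    (∀ a, ∑ l, T (Y l * a) • X l = a) → ∀ a, ∑ l, X l * a * Y l = ∑ k, x k * a * y k

/-! ## B. The local case -/

/-- FVP: the `V`-`V`-projection onto the span of `V`.

Proof.  In the group algebra `F[V]` let `p = ∑_u lam (α u⁻¹) u`; its augmentation is `e = lam (∑ α u) ≠ 0`, and
`(p - e) ^ (ℓ ^ m) = ∑ lam(α u⁻¹) ^ (ℓ ^ m) (u ^ (ℓ ^ m) - 1) = 0` for `ℓ ^ m = |V|`; so `p` has an inverse `x = ∑ x_w w`.
`lam' a = ∑_w x_w lam (α w * a)`.  `lam' (α v) = ∑_w x_w lam (α (w v))` is the coefficient of `x p = 1` at `v⁻¹`.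
`inv`: `lam (w v a) = lam (v w a) = lam (w a v)`. -/
def FvpStmt : Prop :=
  ∀ (ℓ : ℕ) [Fact ℓ.Prime] (F V H : Type) [Field F] [CharP F ℓ] [CommGroup V] [Fintype V]
    [DecidableEq V] [Ring H] [Algebra F H] (α : V →* H) (lam : H →ₗ[F] F), IsPGroup ℓ V →
    Frm F α lam → ∃ lam' : H →ₗ[F] F, Prj α lam'

/-- BKT: fixed vectors are combinations of `V` and traces from the trivial group.

Proof.  Strong induction on `Nat.card R`.  `R = ⊥`: `m = a`, `c = 0`.  `R ≠ ⊥`: `a - ∑ c_u u` is a combination of traces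
`∑_(x ∈ S) x m' x⁻¹`, `S` a transversal of `P' < R`, `m'` fixed by `P'`; by induction `m' = ∑ c'_u u + ∑_(p ∈ P') p m'' p⁻¹`;
the sum over `x ∈ S` of the first part is `|S| c'_u u = 0` (`ℓ` divides `|R : P'|`, `V` is commutative), of the second part
`∑_(v ∈ R) v m'' v⁻¹` (`(x, p) ↦ x p` is a bijection of `S × P'` onto `R`).  The set of the elements of the form
`∑ c_u u + ∑_(v ∈ R) v m v⁻¹` is a subspace. -/
def BktStmt : Prop :=
  ∀ (ℓ : ℕ) [Fact ℓ.Prime] (F V H : Type) [Field F] [CharP F ℓ] [CommGroup V] [Fintype V]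
    [Ring H] [Algebra F H] (α : V →* H), IsPGroup ℓ V →
    (∀ R : Subgroup V, ¬ R ≤ ⊥ → ∀ a ∈ Fx (cj F α) R, ∃ c : V → F,
      a - ∑ u, c u • α u ∈ BK (cj F α) R) →
    ∀ (R : Subgroup V) [Fintype R], ∀ a ∈ Fx (cj F α) R, ∃ (c : V → F) (m : H),
      a = ∑ u, c u • α u + ∑ v : R, α v * m * α (v : V)⁻¹

/-- CFD: `1 - prj` is a trace from the trivial subgroup.

Proof.  Frame `(Ω, b, c)` for `V × V`; `v` acts on `Ω` by `(v, v)`; `R_ω` the stabiliser in `V`.  `b ω` is fixed by `R_ω` under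
conjugation: BKT: `b ω = ∑ c_u u + ∑_(v ∈ R_ω) v m_ω v⁻¹`.  Put `b' ω = b ω - prj (b ω)`, `m' = m_ω - prj m_ω`:
`b' ω = ∑_(v ∈ R_ω) v m' v⁻¹` (`prj` is `V`-`V`-linear, it fixes the `u`).  Also for `R_ω = ⊥`.  Let `Ω₀` be a set of
representatives of the `V`-orbits on `Ω`, `th a = ∑_(ω ∈ Ω₀) c ω a • m'_ω`.  `∑_v v th (v⁻¹ a v) v⁻¹ = ∑_(ω ∈ Ω₀) ∑_v c (v ω) a • v m'_ω v⁻¹`
(`c ω (v⁻¹ a v) = c (v ω) a`), and for `x` in a transversal of `R_ω` and `p ∈ R_ω`, `v = x p`:
`= ∑_(ω ∈ Ω₀) ∑_x c (x ω) a • x b'_ω x⁻¹ = ∑_(ω ∈ Ω) c ω a • b'_ω` (`x b'_ω x⁻¹ = b'_(x ω)`) `= a - prj a`.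
(The sum over the orbit of `ω`: `MulAction.orbitEquivQuotientStabilizer`, `MulAction.selfEquivSigmaOrbits`.) -/
def CfdStmt : Prop :=
  ∀ (ℓ : ℕ) [Fact ℓ.Prime] (F V H : Type) [Field F] [CharP F ℓ] [CommGroup V] [Fintype V]
    [DecidableEq V] [Ring H] [Algebra F H] (α : V →* H) (lam : H →ₗ[F] F)
    (X : Subgroup (V × V) → Prop), IsPGroup ℓ V → Prj α lam → PS X (bi F α) →
    (∀ R : Subgroup V, ¬ R ≤ ⊥ → ∀ a ∈ Fx (cj F α) R, ∃ c : V → F,
      a - ∑ u, c u • α u ∈ BK (cj F α) R) → Trc α lam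

/-- COB: 2-cocycles with values in `ker prj` are coboundaries.

Proof.  `c(u,v) = C(u,v) α(u v)⁻¹`; the hypothesis times `α(u v w)⁻¹` is `u c(v,w) u⁻¹ - c(u v,w) + c(u,v w) - c(u,v) = 0`.
`h(u) = ∑_x x th(c(x⁻¹,u)) x⁻¹`.  `u h(v) u⁻¹ = ∑_x (u x) th(c(x⁻¹,v)) (u x)⁻¹ = ∑_y y th(c(y⁻¹ u,v)) y⁻¹`; the identity for
`(y⁻¹,u,v)`: `c(y⁻¹ u,v) - c(y⁻¹,u v) + c(y⁻¹,u) = y⁻¹ c(u,v) y`; so `u h(v) u⁻¹ - h(u v) + h(u) = ∑_y y th(y⁻¹ c(u,v) y) y⁻¹ =
c(u,v)` (`Trc`, `prj (c(u,v)) = prj (C(u,v)) α(u v)⁻¹ = 0`).  `g(u) = h(u) α u`. -/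
def CobStmt : Prop :=
  ∀ (F V H : Type) [Field F] [CommGroup V] [Fintype V] [DecidableEq V] [Ring H] [Algebra F H]
    (α : V →* H) (lam : H →ₗ[F] F), Prj α lam → Trc α lam → ∀ C : V → V → H,
    (∀ u v, prj α lam (C u v) = 0) →
    (∀ u v w, α u * C v w - C (u * v) w + C u (v * w) - C u v * α w = 0) →
    ∃ g : V → H, ∀ u v, α u * g v - g (u * v) + g u * α v = C u v

/-- RLI: the lifts of the elements of `V` are independent, also modulo `π ^ n`; their span is pure.

Proof.  Induction on `n`: apply `q` and `lam (α u⁻¹ * ·)`: `κ (r u) = 0`, `r u = π s_u`, `π (∑ s_u σ u - π ^ (n-1) h) = 0`, TOR.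
For `∑ r u σ u = 0` use all `n` with `h = 0` and `c.sep`.  `π h = ∑ r u σ u` gives `r u = π s_u`, `h = ∑ s_u σ u` (TOR). -/
def RliStmt : Prop :=
  ∀ (R F V H Hs : Type) [CommRing R] [Field F] [CommGroup V] [Fintype V] [DecidableEq V]
    [Ring H] [Algebra F H] [Ring Hs] [Algebra R Hs] [Module.Free R Hs] (c : Cdv R F)
    (f : FibG Hs H c) (α : V →* H) (lam : H →ₗ[F] F) (σ : V → Hs), Prj α lam →
    (∀ v, f.q (σ v) = α v) →
    (∀ (n : ℕ) (r : V → R) (h : Hs), ∑ v, r v • σ v = c.π ^ n • h → ∀ v, ∃ s, r v = c.π ^ n * s) ∧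
    (∀ r : V → R, ∑ v, r v • σ v = 0 → r = 0) ∧
    ∀ h : Hs, c.π • h ∈ Submodule.span R (Set.range σ) → h ∈ Submodule.span R (Set.range σ)

/-- the span of the `σ v` is closed under the multiplication modulo `π ^ n` -/
def Cls {R F V Hs : Type} [CommRing R] [Field F] [Fintype V] [Ring Hs] [Algebra R Hs]
    (c : Cdv R F) (σ : V → Hs) (n : ℕ) : Prop :=
  ∀ u v, ∃ (s : V → R) (d : Hs), σ u * σ v = ∑ w, s w • σ w + c.π ^ n • d

/-- STE: the lifting step.

Proof.  Choose `s(u,v,w)`, `d(u,v)`.  `prj (q d(u,v)) = ∑ k_w α w`; lift `k_w` to `R`, replace `s` by `s + π ^ n k_w`, `d` by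
`d - ∑ k_w σ w`: so `prj (q d(u,v)) = 0`.  `κ (s(u,v,w)) = δ_(w = u v)` (apply `q`, `n ≥ 1`).  Associativity:
`0 = σ_u (σ_v σ_w) - (σ_u σ_v) σ_w = ∑_y r_y σ_y + π ^ n (σ_u d(v,w) + ∑_x s(v,w,x) d(u,x) - d(u,v) σ_w - ∑_x s(u,v,x) d(x,w))`; by
RLI `r_y = π ^ n r'_y`; divide by `π ^ n` (TOR) and apply `q`: `∑ κ(r'_y) α y + (α u D(v,w) + D(u,v w) - D(u,v) α w - D(u v,w)) = 0`,
`D = q d`; apply `prj`: the first sum is `0` (`prj` is `V`-`V`-linear, `prj D = 0`, `prj (α y) = α y`), so the bracket is `0`.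
COB: `g` with `α u g(v) - g(u v) + g(u) α v = D(u,v)`; `z(u)` = minus a lift of `g(u)`: `σ'_u σ'_v = σ_u σ_v + π ^ n (z_u σ_v + σ_u z_v) +
π ^ (2n) z_u z_v`, and `∑ s_w σ_w = ∑ s_w σ'_w - π ^ n ∑ s_w z_w`; the coefficient of `π ^ n` is `d + z_u σ_v + σ_u z_v - ∑ s_w z_w`, under `q`:
`D(u,v) - g(u) α v - α u g(v) + g(u v) = 0`, so it is `π ..` (`f.ker`); `2 n ≥ n + 1`. -/
def SteStmt : Prop :=
  ∀ (R F V H Hs : Type) [CommRing R] [Field F] [CommGroup V] [Fintype V] [DecidableEq V]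
    [Ring H] [Algebra F H] [Ring Hs] [Algebra R Hs] [Module.Free R Hs] (c : Cdv R F)
    (f : FibG Hs H c) (α : V →* H) (lam : H →ₗ[F] F), Prj α lam → Trc α lam →
    ∀ (n : ℕ) (σ : V → Hs), 1 ≤ n → (∀ v, f.q (σ v) = α v) → Cls c σ n →
    ∃ z : V → Hs, Cls c (fun v => σ v + c.π ^ n • z v) (n + 1)

/-- SEX: the subalgebra exists.

Proof.  `D2.SugStmt` for `M = V → Hs` and `P n σ`: `(∀ v, q (σ v) = α v) ∧ Cls c σ n` for `n ≥ 1`, `True` for `n = 0` (adding
`π ^ n z` preserves it: expand); `P 1` holds for every lift (`σ u σ v - σ (u v) ∈ π Hs`); STE.  So there is `σ` with `Cls c σ n` for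
all `n`; KRS for the span `N` of the `σ w`: `σ u σ v ∈ N`; `N` is closed under the multiplication.  `1 ∈ N`: `x ↦ x σ_1` maps
`N` to `N` and is the identity modulo `π N` (`N` is pure: RLI), so it is onto (`D2.UngStmt` for `N`, finite): `e σ_1 = σ_1`
with `e ∈ N`; `σ_1` is a unit of `Hs` (UPR, `q σ_1 = 1`), so `e = 1`.  `1 = ∑ r_w σ_w`, `κ (r_w) = δ_(w = 1)` (apply `q` and `lam (α w⁻¹ ·)`),
`r_1` is a unit: replace `σ_1` by `1`; the span is the same. -/
def SexStmt : Prop :=
  ∀ (R F V H Hs : Type) [CommRing R] [IsDomain R] [IsPrincipalIdealRing R] [Field F] [CommGroup V]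
    [Fintype V] [DecidableEq V] [Ring H] [Algebra F H] [Ring Hs] [Algebra R Hs]
    [Module.Finite R Hs] [Module.Free R Hs] (c : Cdv R F) (f : FibG Hs H c) (α : V →* H)
    (lam : H →ₗ[F] F), Prj α lam → Trc α lam →
    ∃ σ : V → Hs, σ 1 = 1 ∧ (∀ v, f.q (σ v) = α v) ∧
      ∀ u v, σ u * σ v ∈ Submodule.span R (Set.range σ)

/-- PWS: the powers of the `σ v`.

Proof.  `Rgd.pw`: `w`, `G`; `w = σ_v + π s` (`f.ker`).  `w ^ ℓ = σ_v ^ ℓ + π ∑_(i<ℓ) σ_v ^ i s σ_v ^ (ℓ-1-i) + π ^ 2 ..`, so `σ_v ^ ℓ = 1 + π g`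
with `q g = q G - ∑_i v ^ i s' v ^ (ℓ-1-i)`, `s' = q s`; `v ^ (ℓ-1-i) = v⁻¹ v ^ (-i)` as `v ^ ℓ = 1`, and `v ^ i (s' v⁻¹) v ^ (-i)` is `s' v⁻¹` modulo
`IV`, so the sum is `ℓ s' v⁻¹ = 0` modulo `IV`: `q g - ∑ gv v u • α u ∈ IV`.  `g` is in the span `N` of the `σ w`: `σ_v ^ ℓ ∈ N` (closed,
`1 = σ 1`), `π g ∈ N`, RLI.  So `q g` is a combination of the `α w`; and a combination `y` of the `α w` which is in `IV` is `0`:
`lam (α w⁻¹ * (α u b - b α u)) = 0` (`Prj.inv`), so all coefficients `lam (α w⁻¹ * y)` of `y` vanish. -/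
def PwsStmt : Prop :=
  ∀ (ℓ r : ℕ) [Fact ℓ.Prime] (R F V H Hs : Type) [CommRing R] [Field F] [CharP F ℓ]
    [CommGroup V] [Fintype V] [DecidableEq V] [Ring H] [Algebra F H] [Ring Hs] [Algebra R Hs]
    [Module.Free R Hs] (c : Cdv R F) (f : FibG Hs H c) (α : V →* H) (lam' : H →ₗ[F] F)
    (lam xx : Fin r → V → F) (t : Fin r → F) (σ : V → Hs), (∀ v : V, v ^ ℓ = 1) →
    Rgd ℓ c f α lam xx t → Prj α lam' → σ 1 = 1 → (∀ v, f.q (σ v) = α v) →
    (∀ u v, σ u * σ v ∈ Submodule.span R (Set.range σ)) →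
    (∀ v, ∃ g ∈ Submodule.span R (Set.range σ), σ v ^ ℓ = 1 + c.π • g ∧
      f.q g = ∑ u, gv lam xx t v u • α u) ∧
    ∀ u v, ∃ d ∈ Submodule.span R (Set.range σ), σ u * σ v - σ v * σ u = c.π ^ 2 • d

/-- GEN: the direction generates the group algebra.

Proof.  (1) `X_l = ∑_u xx l u • β u ∈ B`: by `x1` `∑_v xx n v * (t_l lam_l v) = t_l δ_nl`, so `∑_v xx l v • (∑_u gv v u • β u) = t_l X_l`.
(2) `I` = the span of the `β v - 1`, an ideal of the span `K₀` of the `β v`; `I` is nilpotent (it is generated by the commuting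
elements `β v - 1`, `(β v - 1) ^ ℓ = β (v ^ ℓ) - 1 = 0`; a product of `|V| (ℓ-1) + 1` elements `β v - 1` is `0`).  `X_l ∈ I` (`x0`).
(3) `β v - 1 - ∑_l lam_l(v) X_l ∈ I ^ 2` (`I ^ 2` = the span of the products): otherwise there is an `F`-linear `ψ : K → F`
which vanishes on `I ^ 2` and not at this element; `m v = ψ (β v - 1)` is additive, as `β (u v) - 1 = (β u - 1) + (β v - 1) +
(β u - 1)(β v - 1)`; so `m = ∑ k_l lam_l` (`sp`), `ψ (X_l) = ∑_u xx l u m(u) = k_l` (`x0`, `x1`), and `ψ (β v - 1 - ∑ lam_l(v) X_l) =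
m v - ∑ lam_l(v) k_l = 0`, a contradiction.
(4) So `I ≤ (B ⊓ I) + I ^ 2`, by induction `I ≤ (B ⊓ I) + I ^ k` for all `k ≥ 1` (`I ^ k ≤ ((B ⊓ I) + I ^ 2) ^ k ≤ (B ⊓ I) + I ^ (k+1)`),
`I ≤ B`, `1 ∈ B`. -/
def GenStmt : Prop :=
  ∀ (ℓ r : ℕ) [Fact ℓ.Prime] (F V K : Type) [Field F] [CharP F ℓ] [CommGroup V] [Fintype V]
    [CommRing K] [Algebra F K] (β : V →* K) (lam xx : Fin r → V → F) (t : Fin r → F)
    (B : Subalgebra F K), (∀ v : V, v ^ ℓ = 1) → EDat F lam xx t →
    (∀ v, ∑ u, gv lam xx t v u • β u ∈ B) → ∀ v, β v ∈ B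

/-- COM: the `σ v` commute.

Proof.  `N` = the span of the `σ v`, a subring (`σ 1 = 1`), pure (RLI).  Claim: `[N, N] ≤ π ^ n N` for all `n ≥ 2`; then
`[σ u, σ v] = 0` (TOR).  `n = 2`: the last hypothesis.  Step: let `B` be the set of the `a ∈ N` with `a b - b a ∈ π ^ (n+1) N` for all
`b ∈ N`: a subring (`[a a', b] = a [a', b] + [a, b] a'`), an `R`-submodule, it contains `π N`.  It contains `g_v` (`σ_v ^ ℓ = 1 + π g_v`):
`π [g_v, b] = [σ_v ^ ℓ, b] = ad(σ_v) ^ ℓ b` (`ad a = L_a - R_a`, `L_a`, `R_a` commute, characteristic `ℓ`: `sub_pow_char_of_commute` in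
`Module.End R Hs`), and `ad(σ_v) ^ ℓ b ∈ π ^ (n ℓ) N` (each `ad(σ_v)` maps `π ^ k N` to `π ^ (k+n) N`), so `[g_v, b] ∈ π ^ (n ℓ - 1) N`,
`n ℓ - 1 ≥ n + 1` (`n ≥ 2`, `ℓ ≥ 2`).  `q(B)` is a subalgebra of the commutative algebra `q(N)` = the span of the `α v`; GEN (with
`K` = the subalgebra generated by the `α v`, it is commutative: `Algebra.adjoinCommRingOfComm`; or the group algebra and the
preimage of `q(B)`) : `α v ∈ q(B)`.  So for `b ∈ N` there is `a ∈ B` with `q (b - a) = 0`, `b - a = π y`, `y ∈ N` (pure), `b ∈ B`. -/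
def ComStmt : Prop :=
  ∀ (ℓ r : ℕ) [Fact ℓ.Prime] (R F V H Hs : Type) [CommRing R] [CharP R ℓ] [Field F] [CharP F ℓ]
    [CommGroup V] [Fintype V] [DecidableEq V] [Ring H] [Algebra F H] [Ring Hs] [Algebra R Hs]
    [Module.Free R Hs] (c : Cdv R F) (f : FibG Hs H c) (α : V →* H) (lam' : H →ₗ[F] F)
    (lam xx : Fin r → V → F) (t : Fin r → F) (σ : V → Hs), (∀ v : V, v ^ ℓ = 1) →
    EDat F lam xx t → Prj α lam' → σ 1 = 1 → (∀ v, f.q (σ v) = α v) →
    (∀ u v, σ u * σ v ∈ Submodule.span R (Set.range σ)) →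
    (∀ v, ∃ g ∈ Submodule.span R (Set.range σ), σ v ^ ℓ = 1 + c.π • g ∧
      f.q g = ∑ u, gv lam xx t v u • α u) →
    (∀ u v, ∃ d ∈ Submodule.span R (Set.range σ), σ u * σ v - σ v * σ u = c.π ^ 2 • d) →
    ∀ u v, σ u * σ v = σ v * σ u

/-- SUB: the commutative subalgebra `S`.

Proof.  SEX, PWS, COM.  `S` = the subalgebra of `Hs` with the underlying module the span of the `σ v` (commutative; `Algebra.adjoin R
(range σ)`, `Algebra.adjoinCommRingOfComm`), `i` the inclusion.  `cf v s` = the coordinates (RLI: unique).  `SVd.mul`: `q (σ u σ v -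
σ (u v)) = 0`, `= π d`, `d` in the span (RLI).  `Pws`: `g` from PWS, `κ (cf u g)` = the coefficient of `q g` at `α u` =
`lam' (α u⁻¹ * q g) = gv v u`. -/
def SubStmt : Prop :=
  ∀ (ℓ r : ℕ) [Fact ℓ.Prime] (R F V H Hs : Type) [CommRing R] [IsDomain R]
    [IsPrincipalIdealRing R] [CharP R ℓ] [Field F] [CharP F ℓ]
    [CommGroup V] [Fintype V] [DecidableEq V] [Ring H] [Algebra F H] [Ring Hs] [Algebra R Hs]
    [Module.Finite R Hs] [Module.Free R Hs] (c : Cdv R F) (f : FibG Hs H c) (α : V →* H)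
    (lam' : H →ₗ[F] F) (lam xx : Fin r → V → F) (t : Fin r → F), (∀ v : V, v ^ ℓ = 1) →
    EDat F lam xx t → Rgd ℓ c f α lam xx t → Prj α lam' → Trc α lam' →
    ∃ (S : Type) (_ : CommRing S) (_ : Algebra R S) (i : S →ₐ[R] Hs) (σ : V → S)
      (cf : V → (S →ₗ[R] R)), Function.Injective i ∧ (∀ v, f.q (i (σ v)) = α v) ∧ SVd c σ cf ∧
      Pws ℓ c lam xx t σ cf

/-- REL: the relative form is right `S`-linear.

Proof.  `T (i σ'_v a i s) = T (i (s σ'_v) a)` (`sym`), `s σ'_v = ∑_w t (σ_w s σ'_v) σ'_w`, so the left side is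
`∑_w T (i σ'_w a) i (∑_v t (σ_w s σ'_v) σ_v) = ∑_w T (i σ'_w a) i (s σ_w)` (`S` commutative, first identity). -/
def RelStmt : Prop :=
  ∀ (R V S D : Type) [CommRing R] [Fintype V] [CommRing S] [Algebra R S] [Ring D] [Algebra R D]
    (i : S →ₐ[R] D) (σ σ' : V → S) (t : S →ₗ[R] R) (T : D →ₗ[R] R),
    (∀ a b, T (a * b) = T (b * a)) → (∀ s, ∑ v, t (σ' v * s) • σ v = s) →
    (∀ s, ∑ v, t (σ v * s) • σ' v = s) → ∀ (a : D) (s : S),
    ∑ v, T (i (σ' v) * (a * i s)) • i (σ v) = (∑ v, T (i (σ' v) * a) • i (σ v)) * i s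

/-- RFS: relative dual families over `S`.

Proof.  `Ẽ a = ∑_v T (i σ'_v a) • i σ_v` (REL: right `S`-linear); `q (i σ'_v) = α v⁻¹` (last part of TSF), so `q (Ẽ a) =
∑_v lam0 (α v⁻¹ q a) α v`.  Lift `x0 k`, `y0 k` to `x♭`, `y♭`; `Φ a = ∑_k x♭_k Ẽ (y♭_k a)` is `R`-linear, right `S`-linear, and `q (Φ a) = q a`
by `RF.e1`: `Φ` is bijective (`D2.UngStmt`).  `x k = Φ⁻¹ (x♭_k)`, `y k = y♭_k`: `a = Φ⁻¹ (Φ a) = ∑ Φ⁻¹ (x♭_k) Ẽ (y♭_k a)`.
`q (x k) = q (Φ (x k)) = x0 k`. -/
def RfsStmt : Prop :=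
  ∀ (R F V S H Hs K : Type) [CommRing R] [Field F] [CommGroup V] [Fintype V] [DecidableEq V]
    [CommRing S] [Algebra R S] [Ring H] [Algebra F H] [Ring Hs] [Algebra R Hs]
    [Module.Finite R Hs] [Fintype K] (c : Cdv R F) (f : FibG Hs H c) (α : V →* H)
    (i : S →ₐ[R] Hs) (σ σ' : V → S) (cf : V → (S →ₗ[R] R)) (T : Hs →ₗ[R] R)
    (lam0 : H →ₗ[F] F) (x0 y0 : K → H), SVd c σ cf → (∀ v, f.q (i (σ v)) = α v) →
    (∀ s, ∑ v, cf 1 (σ' v * s) • σ v = s) → (∀ s, ∑ v, cf 1 (σ v * s) • σ' v = s) →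
    (∀ u v, c.κ (cf u (σ' v)) = if u = v⁻¹ then 1 else 0) →
    (∀ a b, T (a * b) = T (b * a)) → (∀ a, lam0 (f.q a) = c.κ (T a)) → RF F α lam0 x0 y0 →
    ∃ x y : K → Hs, (∀ k, f.q (x k) = x0 k) ∧ (∀ k, f.q (y k) = y0 k) ∧
      ∀ a, ∑ k, ∑ v, T (i (σ' v) * y k * a) • (x k * i (σ v)) = a

/-- RFP: relative Frobenius families from the frame.

Proof.  Frame `(Ω, b, c)` for `V × V`, the stabilisers are twisted diagonals, so `1 × V` acts freely on `Ω`.  `c ω a = lam (s ω * a)` with
`s ω ∈ H` (nondegenerate, finite-dimensional).  `Z` = representatives of the `1 × V`-orbits: `a = ∑_ω c ω a • b ω =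
∑_(κ ∈ Z) ∑_v c ((1,v) κ) a • b κ α v⁻¹`, `c ((1,v) κ) a = c κ (a α v) = lam (s κ a α v) = lam (α v s κ a)`; put `v⁻¹` for `v`:
`e1` for `x κ = b κ`, `y κ = s κ`.  `e2`: PSS row RFE (`H.. rfe`): the second identity follows from the first. -/
def RfpStmt : Prop :=
  ∀ (F V E H : Type) [Field F] [CommGroup V] [Fintype V] [Group E] [Ring H] [Algebra F H]
    (φ : E →* MulAut V) (α : V →* H) (lam : H →ₗ[F] F), FiniteDimensional F H →
    (∀ a b, lam (a * b) = lam (b * a)) → (∀ a, (∀ b, lam (a * b) = 0) → a = 0) →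
    PS (fun K => ∃ (e : E) (R : Subgroup V), K = tw (φ e).toMonoidHom R) (bi F α) →
    ∃ (K : Type) (_ : Fintype K) (x y : K → H), RF F α lam x y

/-- RTU: the relative trace of an element of `F V` of nonzero augmentation is a unit.

Proof.  `B = A(V)` (`S0.BqxStmt`, `Q = ⊤`, `β`), `S0.LmbStmt`/`S0.BpuStmt`: `RF F αB lamB xB yB`, `lamB (β a) = lam a`.  By `PMid.spn` for
`R = ⊤` (if `V = 1`: `H = F 1` as `H = Cz ⊤` is local... in this case `⊤ ≤ ⊥`; so the statement assumes `V` nontrivial) `B` is the span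
of the `αB v`, commutative.  `∑ xB yB = ζ`: `1 = ∑_k G(y_k) x_k` with `G(b) = ∑_v lamB (v⁻¹ b) v = b G(1)`, so `1 = ζ G(1)`: `ζ` is a unit.
`S0.MckStmt` for `Q = ⊤`, `a = ∑ s v • α v`: `β (rt a) = ∑_(t ∈ T) ζ β (n_t a n'_t) = ζ ∑_(t ∈ T) ∑_v s v αB (φ t v)`.  `w = ∑_t ∑_v s v • αB (φ t v)`
has the augmentation `|T| ∑ s v`, `|T| = |φ(E)|` divides `|E|`, not zero in `F`; `(w - |T| ∑ s) ^ (ℓ ^ m) = 0` for `ℓ ^ m = |V|`
(`B` commutative of characteristic `ℓ`), so `w` is a unit of `B`.  `z = rt a` is central (`S0.ZrtStmt`), so it is in the local ring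
`Cz F α ⊤` (finite-dimensional: its elements are units or nilpotent); if `z` is nilpotent, `β z` is a nilpotent unit, `B = 0`,
`1 ∈ BK`, a contradiction to `PMid.one`. -/
def RtuStmt : Prop :=
  ∀ (ℓ : ℕ) [Fact ℓ.Prime] (F V E H K : Type) [Field F] [CharP F ℓ] [CommGroup V] [Fintype V]
    [Group E] [Finite E] [Ring H] [Algebra F H] [Fintype K] (φ : E →* MulAut V) (α : V →* H)
    (lam : H →ₗ[F] F) (x y : K → H), IsPGroup ℓ V → Nontrivial V → ¬ ℓ ∣ Nat.card E →
    PMid F φ ⊥ α → RF F α lam x y → ∀ s : V → F, ∑ v, s v ≠ 0 →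
    IsUnit (∑ k, x k * (∑ v, s v • α v) * y k)

/-- LOC: TOP of part B: the local case.

Proof.  `PMid.frm`: FVP: `lam'`; CFD (`PMid.ps`, `PMid.spn`): `Trc`; SUB: `S`, `i`, `σ`, `cf`; TSF: `σ'`; ZSU: `∑ σ v σ' v = π ^ r z_S`, `z_S` a
unit of `S`.  RDF: `lam0`, nondegenerate and symmetric; RFP: `x0`, `y0`; RFS: `x~`, `y~`; CSI for `X (k,v) = x~ k i(σ v)`, `Y (k,v) =
i(σ' v) y~ k`, `a = 1`: `∑ x k y k = ∑_k x~ k i(π ^ r z_S) y~ k = π ^ r z`, `z = ∑_k x~ k i(z_S) y~ k`.  `z` is central: TAU (1), TOR.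
`q (i z_S) = ∑ s v • α v`, `s v = κ (cf v z_S)`, `∑ s v = eps z_S ≠ 0` (`z_S` is a unit and `eps` is a ring homomorphism: EPS).
`q z = ∑_k x0 k (∑ s v α v) y0 k` is a unit of `H`: RTU; `z` is a unit: UPR (lift the inverse). -/
def LocStmt : Prop :=
  ∀ (ℓ r : ℕ) [Fact ℓ.Prime] (R F V E H Hs K : Type) [CommRing R] [IsDomain R]
    [IsPrincipalIdealRing R] [CharP R ℓ] [Field F] [CharP F ℓ] [CommGroup V] [Fintype V]
    [Group E] [Finite E] [Ring H] [Algebra F H] [Ring Hs] [Algebra R Hs]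
    [Module.Finite R Hs] [Module.Free R Hs] [Fintype K] (c : Cdv R F) (f : FibG Hs H c)
    (φ : E →* MulAut V) (α : V →* H) (lam xx : Fin r → V → F) (t : Fin r → F)
    (T : Hs →ₗ[R] R) (x y : K → Hs), IsPGroup ℓ V → Nontrivial V → (∀ v : V, v ^ ℓ = 1) →
    ¬ ℓ ∣ Nat.card E → PMid F φ ⊥ α → EDat F lam xx t → Rgd ℓ c f α lam xx t →
    SFr R T x y → ∃ z : Hs, IsUnit z ∧ (∀ a, z * a = a * z) ∧ ∑ k, x k * y k = c.π ^ r • z

end Pool.Agent.PST.ET
end
end -- Pool.Agent.PST.StmtsET2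

section -- Pool.Agent.Helper13_PST.PWS

/-!
# Row PWS of squad PST: the powers of the `σ v`
-/

set_option autoImplicit false

open scoped BigOperators

noncomputable section

namespace Pool.Agent.PST.H13

open Pool.Agent.PFD.D2 (Cdv FibG)
open Pool.Agent.PST.ET

theorem pws (hRli : ET.RliStmt) : ET.PwsStmt := by
  intro ℓ r _ R F V H Hs _ _ _ _ _ _ _ _ _ _ _ c f α lam' lam xx t σ hV hG hP hσ1 hσ hcl
  obtain ⟨_, _, hpure⟩ := hRli R F V H Hs c f α lam' σ hP hσ
  have hqs : ∀ (k : R) (x : Hs), f.q (k • x) = c.κ k • f.q x := by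
    intro k x
    rw [Algebra.smul_def, map_mul, f.sc, ← Algebra.smul_def]
  have hκπ : c.κ c.π = 0 := (c.ker c.π).2 ⟨1, (mul_one _).symm⟩
  have hqπ : ∀ x : Hs, f.q (c.π • x) = 0 := fun x => by rw [hqs, hκπ, zero_smul]
  have hαc : ∀ u v, α u * α v = α v * α u := fun u v => by rw [← map_mul, ← map_mul, mul_comm]
  -- IV
  have hIV : ∀ (u : V) (b : H), α u * b - b * α u ∈ IV F α := fun u b =>
    Submodule.subset_span ⟨u, b, rfl⟩
  have hIVr : ∀ (v : V) (x : H), x ∈ IV F α → x * α v ∈ IV F α := by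
    intro v x hx
    unfold IV at hx
    induction hx using Submodule.span_induction with
    | mem x hx =>
      obtain ⟨u, b, rfl⟩ := hx
      have e : (α u * b - b * α u) * α v = α u * (b * α v) - b * α v * α u := by
        rw [sub_mul, mul_assoc, mul_assoc b, hαc u v, mul_assoc b]
      rw [e]
      exact hIV _ _
    | zero =>
      rw [zero_mul]
      exact Submodule.zero_mem _
    | add x y _ _ hx hy =>
      rw [add_mul]
      exact Submodule.add_mem _ hx hy
    | smul k x _ hx =>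
      rw [smul_mul_assoc]
      exact Submodule.smul_mem _ _ hx
  have hlam0 : ∀ (w : V) (x : H), x ∈ IV F α → lam' (α w⁻¹ * x) = 0 := by
    intro w x hx
    unfold IV at hx
    induction hx using Submodule.span_induction with
    | mem x hx =>
      obtain ⟨u, b, rfl⟩ := hx
      have e : lam' (α w⁻¹ * (b * α u)) = lam' (α w⁻¹ * (α u * b)) := by
        rw [← mul_assoc, ← hP.inv, ← mul_assoc, ← mul_assoc, hαc]
      rw [mul_sub, map_sub, e, sub_self]
    | zero => rw [mul_zero, map_zero]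
    | add x y _ _ hx hy => rw [mul_add, map_add, hx, hy, add_zero]
    | smul k x _ hx => rw [mul_smul_comm, map_smul, hx, smul_zero]
  have hzero : ∀ k : V → F, ∑ u, k u • α u ∈ IV F α → ∀ u, k u = 0 := by
    intro k hk w
    have h1 := hlam0 w _ hk
    rw [Finset.mul_sum, map_sum] at h1
    have h2 : ∀ u, lam' (α w⁻¹ * (k u • α u)) = if u = w then k u else 0 := by
      intro u
      rw [mul_smul_comm, map_smul, ← map_mul, hP.del, smul_eq_mul]
      by_cases h : u = w
      · rw [if_pos h, if_pos (by rw [h, inv_mul_cancel]), mul_one]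
      · rw [if_neg h, if_neg (fun h' => h (inv_mul_eq_one.1 h').symm), mul_zero]
    simp only [h2] at h1
    rwa [Finset.sum_ite_eq' Finset.univ w k, if_pos (Finset.mem_univ _)] at h1
  -- the span
  have hqN : ∀ g ∈ Submodule.span R (Set.range σ), ∃ k : V → F, f.q g = ∑ u, k u • α u := by
    intro g hg
    obtain ⟨k, hk⟩ := (Submodule.mem_span_range_iff_exists_fun R).1 hg
    refine ⟨fun u => c.κ (k u), ?_⟩
    rw [← hk, map_sum]
    exact Finset.sum_congr rfl fun u _ => by rw [hqs, hσ]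
  have hσN : ∀ v, σ v ∈ Submodule.span R (Set.range σ) := fun v =>
    Submodule.subset_span ⟨v, rfl⟩
  have hNmul : ∀ x ∈ Submodule.span R (Set.range σ), ∀ y ∈ Submodule.span R (Set.range σ),
      x * y ∈ Submodule.span R (Set.range σ) := by
    intro x hx y hy
    obtain ⟨k, hk⟩ := (Submodule.mem_span_range_iff_exists_fun R).1 hx
    obtain ⟨k', hk'⟩ := (Submodule.mem_span_range_iff_exists_fun R).1 hy
    rw [← hk, ← hk', Finset.sum_mul]
    refine Submodule.sum_mem _ fun u _ => ?_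
    rw [Finset.mul_sum]
    refine Submodule.sum_mem _ fun v _ => ?_
    rw [smul_mul_smul_comm]
    exact Submodule.smul_mem _ _ (hcl u v)
  have hNone : (1 : Hs) ∈ Submodule.span R (Set.range σ) := by
    rw [← hσ1]
    exact hσN 1
  have hNpow : ∀ v (n : ℕ), σ v ^ n ∈ Submodule.span R (Set.range σ) := by
    intro v n
    induction n with
    | zero => rw [pow_zero]; exact hNone
    | succ n ih => rw [pow_succ]; exact hNmul _ ih _ (hσN v)
  constructor
  · intro v
    obtain ⟨w, G, hw, hwl, hG1⟩ := hG.pw v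
    obtain ⟨s, hs⟩ := f.ker (w - σ v) (by rw [map_sub, hw, hσ, sub_self])
    have hws : w = σ v + c.π • s := by rw [← hs]; abel
    have hexp : ∀ n : ℕ, ∃ S e : Hs, w ^ n = σ v ^ n + c.π • S + c.π ^ 2 • e ∧
        f.q S * α v - n • (f.q s * α v ^ n) ∈ IV F α := by
      intro n
      induction n with
      | zero =>
        refine ⟨0, 0, by simp, ?_⟩
        simp
      | succ n ih =>
        obtain ⟨S, e, h1, h2⟩ := ih
        refine ⟨S * σ v + σ v ^ n * s, e * σ v + S * s + c.π • (e * s), ?_, ?_⟩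
        · rw [pow_succ w, h1, hws, pow_succ (σ v)]
          simp only [mul_add, add_mul, smul_mul_assoc, mul_smul_comm, smul_add, smul_smul]
          have e1 : c.π * c.π = c.π ^ 2 := (sq _).symm
          have e2 : c.π ^ 2 * c.π = c.π * c.π ^ 2 := mul_comm _ _
          rw [e1]
          have e3 : (c.π * c.π ^ 2) • (e * s) = (c.π ^ 2 * c.π) • (e * s) := by rw [e2]
          rw [e3]
          abel
        · rw [map_add, map_mul, map_mul, map_pow, hσ, add_mul]
          have h3 := hIVr v _ h2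
          have h4 := hIV (v ^ n) (f.q s * α v)
          rw [map_pow] at h4
          have h5 := Submodule.add_mem _ h3 h4
          have e1 : (f.q S * α v - n • (f.q s * α v ^ n)) * α v +
              (α v ^ n * (f.q s * α v) - f.q s * α v * α v ^ n) =
              f.q S * α v * α v + α v ^ n * f.q s * α v - (n + 1) • (f.q s * α v ^ (n + 1)) := by
            rw [sub_mul, smul_mul_assoc, mul_assoc (f.q s) (α v ^ n) (α v), ← pow_succ,
              mul_assoc (f.q s) (α v) (α v ^ n), ← pow_succ', ← mul_assoc (α v ^ n), add_smul,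
              one_smul]
            abel
          rw [e1] at h5
          exact h5
    obtain ⟨S, e, h1, h2⟩ := hexp ℓ
    have hS : f.q S ∈ IV F α := by
      have h3 : f.q S * α v ∈ IV F α := by
        have e1 : ℓ • (f.q s * α v ^ ℓ) = 0 := by
          rw [← Nat.cast_smul_eq_nsmul F, CharP.cast_eq_zero F ℓ, zero_smul]
        rwa [e1, sub_zero] at h2
      have h4 := hIVr v⁻¹ _ h3
      rwa [mul_assoc, ← map_mul, mul_inv_cancel, map_one, mul_one] at h4
    have hg : σ v ^ ℓ = 1 + c.π • (G - S - c.π • e) := by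
      have e1 : σ v ^ ℓ = w ^ ℓ - c.π • S - c.π ^ 2 • e := by rw [h1]; abel
      rw [e1, hwl, smul_sub, smul_sub, smul_smul, ← sq]
      abel
    have hgN : G - S - c.π • e ∈ Submodule.span R (Set.range σ) := by
      apply hpure
      have e1 : c.π • (G - S - c.π • e) = σ v ^ ℓ - 1 := by rw [hg]; abel
      rw [e1]
      exact Submodule.sub_mem _ (hNpow v ℓ) hNone
    refine ⟨_, hgN, hg, ?_⟩
    obtain ⟨k, hk⟩ := hqN _ hgN
    have h3 : ∑ u, (k u - gv lam xx t v u) • α u ∈ IV F α := by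
      have e1 : ∑ u, (k u - gv lam xx t v u) • α u =
          (f.q G - ∑ u, gv lam xx t v u • α u) - f.q S := by
        simp only [sub_smul]
        rw [Finset.sum_sub_distrib, ← hk, map_sub, map_sub, hqπ]
        abel
      rw [e1]
      exact Submodule.sub_mem _ hG1 hS
    rw [hk]
    exact Finset.sum_congr rfl fun u _ => by rw [sub_eq_zero.1 (hzero _ h3 u)]
  · intro u v
    obtain ⟨a, b, d, ha, hb, hab, hd⟩ := hG.cm u v
    obtain ⟨s, hs⟩ := f.ker (a - σ u) (by rw [map_sub, ha, hσ, sub_self])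
    obtain ⟨t', ht⟩ := f.ker (b - σ v) (by rw [map_sub, hb, hσ, sub_self])
    have has : a = σ u + c.π • s := by rw [← hs]; abel
    have hbt : b = σ v + c.π • t' := by rw [← ht]; abel
    have h1 : σ u * σ v - σ v * σ u = c.π • (d - (σ u * t' - t' * σ u) - (s * σ v - σ v * s) -
        c.π • (s * t' - t' * s)) := by
      have e1 : c.π • d = (σ u + c.π • s) * (σ v + c.π • t') -
          (σ v + c.π • t') * (σ u + c.π • s) := by rw [← has, ← hbt, hab]
      rw [smul_sub, smul_sub, smul_sub, e1]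
      simp only [mul_add, add_mul, smul_mul_assoc, mul_smul_comm, smul_sub, smul_add]
      abel
    obtain ⟨D, hD⟩ : ∃ D, D = d - (σ u * t' - t' * σ u) - (s * σ v - σ v * s) -
        c.π • (s * t' - t' * s) := ⟨_, rfl⟩
    rw [← hD] at h1
    have hDN : D ∈ Submodule.span R (Set.range σ) := by
      apply hpure
      rw [← h1]
      exact Submodule.sub_mem _ (hcl u v) (hcl v u)
    have hDI : f.q D ∈ IV F α := by
      rw [hD, map_sub, map_sub, map_sub, hqπ, sub_zero, map_sub, map_sub, map_mul, map_mul,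
        map_mul, map_mul, hσ, hσ]
      refine Submodule.sub_mem _ (Submodule.sub_mem _ hd (hIV _ _)) ?_
      have := Submodule.neg_mem _ (hIV v (f.q s))
      rwa [neg_sub] at this
    obtain ⟨k, hk⟩ := hqN _ hDN
    have hD0 : f.q D = 0 := by
      rw [hk] at hDI ⊢
      exact Finset.sum_eq_zero fun u _ => by rw [hzero k hDI u, zero_smul]
    obtain ⟨D', hD'⟩ := f.ker D hD0
    refine ⟨D', hpure D' (by rw [← hD']; exact hDN), ?_⟩
    rw [h1, hD', smul_smul, ← sq]

end Pool.Agent.PST.H13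
end
end -- Pool.Agent.Helper13_PST.PWS

section -- Pool.Agent.Helper1_PST.JCU

/-!
# PST, block ET, row JCU (helper1): the Jacobian is a unit
-/

open scoped BigOperators TensorProduct

noncomputable section

namespace Pool.Agent.PST.ET.H1

open Pool.Agent.PFD.D2 (Cdv FibG)
open Pool.Agent.PST.ET

section aux

variable {R F V S : Type} [CommRing R] [Field F] [CommGroup V] [Fintype V] [DecidableEq V]
  [CommRing S] [Algebra R S]

lemma eps_zero (c : Cdv R F) (cf : V → (S →ₗ[R] R)) : eps c cf 0 = 0 := by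
  simp [eps]

/-- the augmentation as a ring homomorphism -/
def epsH (c : Cdv R F) (cf : V → (S →ₗ[R] R)) (h1 : eps c cf 1 = 1)
    (ha : ∀ a b, eps c cf (a + b) = eps c cf a + eps c cf b)
    (hm : ∀ a b, eps c cf (a * b) = eps c cf a * eps c cf b) : S →+* F where
  toFun := eps c cf
  map_one' := h1
  map_mul' := hm
  map_zero' := eps_zero c cf
  map_add' := ha

/-- the additive map `x ⊗ y ↦ eps x * dl m y` -/
def chi (c : Cdv R F) (cf : V → (S →ₗ[R] R)) (m : V → F)
    (ha : ∀ a b, eps c cf (a + b) = eps c cf a + eps c cf b)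
    (hr : ∀ r a, eps c cf (r • a) = c.κ r * eps c cf a)
    (hd : ∀ a b, dl c cf m (a + b) = dl c cf m a + dl c cf m b)
    (hdr : ∀ r a, dl c cf m (r • a) = c.κ r * dl c cf m a) : S ⊗[R] S →+ F :=
  TensorProduct.liftAddHom
    { toFun := fun x =>
        { toFun := fun y => eps c cf x * dl c cf m y
          map_zero' := by simp [dl]
          map_add' := fun a b => by rw [hd, mul_add] }
      map_zero' := by
        ext y
        simp [eps_zero]
      map_add' := fun a b => by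
        ext y
        show eps c cf (a + b) * dl c cf m y = eps c cf a * dl c cf m y + eps c cf b * dl c cf m y
        rw [ha, add_mul] }
    (fun r x y => by
      show eps c cf (r • x) * dl c cf m y = eps c cf x * dl c cf m (r • y)
      rw [hr, hdr]
      ring)

lemma chi_tmul (c : Cdv R F) (cf : V → (S →ₗ[R] R)) (m : V → F)
    (ha : ∀ a b, eps c cf (a + b) = eps c cf a + eps c cf b)
    (hr : ∀ r a, eps c cf (r • a) = c.κ r * eps c cf a)
    (hd : ∀ a b, dl c cf m (a + b) = dl c cf m a + dl c cf m b)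
    (hdr : ∀ r a, dl c cf m (r • a) = c.κ r * dl c cf m a) (x y : S) :
    chi c cf m ha hr hd hdr (x ⊗ₜ[R] y) = eps c cf x * dl c cf m y := rfl

end aux

theorem jcu (hEps : EpsStmt) (hUns : UnsStmt) : JcuStmt := by
  intro ℓ r _ R F V S _ _ _ _ _ _ _ _ c σ cf lam xx t b K g M hV hE hS hK hg hM
  obtain ⟨h1, ha, hm, hr, -, -, -, hσ, -⟩ :=
    hEps R F V S c σ cf (fun _ => 0) hS (by simp)
  set eH : S →+* F := epsH c cf h1 ha hm with heH
  have eH_apply : ∀ s, eH s = eps c cf s := fun s => rfl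
  set mu : S ⊗[R] S →+* S := (Algebra.TensorProduct.lmul' (S := S) R).toRingHom with hmu
  have mu_tmul : ∀ x y : S, mu (x ⊗ₜ[R] y) = x * y := fun x y => by
    simp [hmu]
  -- the reduced matrix
  set L : Matrix (Fin r) (Fin r) F := Matrix.of (fun l j => lam l (b j)) with hL
  set μ : Matrix (Fin r) (Fin r) F := Matrix.of (fun j i => eH (mu (M j i))) with hμ
  have key : ∀ n j, t n * lam n (b j) = ∑ i, eH (mu (M j i)) * lam n (b i) := by
    intro n j
    obtain ⟨-, -, -, -, hd, hdm, hdr, -, hdσ⟩ :=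
      hEps R F V S c σ cf (lam n) hS (hE.add n)
    set χ := chi c cf (lam n) ha hr hd hdr with hχ
    have χt : ∀ x y : S, χ (x ⊗ₜ[R] y) = eps c cf x * dl c cf (lam n) y := fun x y => rfl
    have hlam1 : lam n 1 = 0 := by
      have h := hE.add n 1 1
      rw [mul_one] at h
      exact left_eq_add.mp h
    have hd1 : dl c cf (lam n) 1 = 0 := by
      rw [← hS.one, hdσ, hlam1]
    -- derivation
    have χm : ∀ a b : S ⊗[R] S, χ (a * b) = eH (mu a) * χ b + χ a * eH (mu b) := by
      intro a b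
      induction a using TensorProduct.induction_on with
      | zero => simp
      | add a a' h h' =>
        rw [add_mul, map_add, h, h', map_add, map_add, map_add]
        ring
      | tmul x y =>
        induction b using TensorProduct.induction_on with
        | zero => simp
        | add b b' h h' =>
          rw [mul_add, map_add, h, h', map_add, map_add, map_add]
          ring
        | tmul x' y' =>
          rw [Algebra.TensorProduct.tmul_mul_tmul, χt, χt, χt, mu_tmul, mu_tmul, eH_apply,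
            eH_apply, hm, hm, hm, hdm]
          ring
    have χd : ∀ i, χ (σ (b i) ⊗ₜ[R] (1 : S) - (1 : S) ⊗ₜ[R] σ (b i)) = - lam n (b i) := by
      intro i
      rw [map_sub, χt, χt, hd1, h1, hdσ]
      ring
    have ed : ∀ i, eH (mu (σ (b i) ⊗ₜ[R] (1 : S) - (1 : S) ⊗ₜ[R] σ (b i))) = 0 := by
      intro i
      rw [map_sub, mu_tmul, mu_tmul, mul_one, one_mul, sub_self, map_zero]
    have χg : χ (g j ⊗ₜ[R] (1 : S) - (1 : S) ⊗ₜ[R] g j) = - (t n * lam n (b j)) := by
      rw [map_sub, χt, χt, hd1, h1]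
      have : dl c cf (lam n) (g j) = t n * lam n (b j) := by
        show ∑ v, c.κ (cf v (g j)) * lam n v = _
        have e1 : ∀ v, c.κ (cf v (g j)) * lam n v =
            ∑ l, t l * lam l (b j) * (xx l v * lam n v) := by
          intro v
          rw [hg]
          show (∑ l, t l * lam l (b j) * xx l v) * lam n v = _
          rw [Finset.sum_mul]
          exact Finset.sum_congr rfl fun l _ => by ring
        rw [Finset.sum_congr rfl fun v _ => e1 v, Finset.sum_comm]
        have e2 : ∀ l, ∑ v, t l * lam l (b j) * (xx l v * lam n v) =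
            t l * lam l (b j) * if l = n then 1 else 0 := by
          intro l
          rw [← Finset.mul_sum, hE.x1]
        rw [Finset.sum_congr rfl fun l _ => e2 l]
        simp
      rw [this]
      ring
    have hMj := congrArg χ (hM j)
    rw [χg, map_sum] at hMj
    have e3 : ∀ i, χ (M j i * (σ (b i) ⊗ₜ[R] (1 : S) - (1 : S) ⊗ₜ[R] σ (b i))) =
        - (eH (mu (M j i)) * lam n (b i)) := by
      intro i
      rw [χm, χd, ed]
      ring
    rw [Finset.sum_congr rfl fun i _ => e3 i, Finset.sum_neg_distrib] at hMj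
    exact neg_injective hMj
  have hmat : Matrix.diagonal t * L = L * μ.transpose := by
    ext n j
    rw [Matrix.diagonal_mul, Matrix.mul_apply]
    show t n * lam n (b j) = ∑ i, lam n (b i) * eH (mu (M j i))
    rw [key]
    exact Finset.sum_congr rfl fun i _ => mul_comm _ _
  have hdetL : L.det ≠ 0 := by
    have h := congrArg Matrix.det hK
    rw [Matrix.det_mul, Matrix.det_one] at h
    exact left_ne_zero_of_mul_eq_one h
  have hdet : μ.det = ∏ n, t n := by
    have h := congrArg Matrix.det hmat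
    rw [Matrix.det_mul, Matrix.det_mul, Matrix.det_diagonal, Matrix.det_transpose,
      mul_comm] at h
    exact (mul_left_cancel₀ hdetL h).symm
  refine hUns ℓ R F V S c σ cf hV hS _ ?_
  have e4 : eps c cf (mu.mapMatrix M).det = μ.det := by
    rw [← eH_apply, RingHom.map_det]
    rfl
  rw [e4, hdet]
  exact Finset.prod_ne_zero_iff.mpr fun n _ => hE.t0 n

end Pool.Agent.PST.ET.H1
end
end -- Pool.Agent.Helper1_PST.JCU

section -- Pool.Agent.Helper41_PST.FCZ

/-! Squad PST, block ET, rows FCZ, RDF: central elements on a full corner; reduction of a form. -/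

open scoped BigOperators TensorProduct

noncomputable section

namespace Pool.Agent.PST.ET.H41

open Pool.Agent.PFD.D2 (Cdv FibG)

theorem fcz : FczStmt := by
  intro R D _ _ _ p b j τ u u' htf hbb hb hjj hspan hτ hτb hjτ hju huj hju' hu'j huu' hu'u
  have key : ∀ x ∈ Submodule.span R {x : D | ∃ s t : D, x = s * j * t},
      ∃ z z' : D, p • z = τ * x ∧ τ * z' = p • x := by
    intro x hx
    induction hx using Submodule.span_induction with
    | mem x hx =>
      obtain ⟨s, t, rfl⟩ := hx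
      refine ⟨s * u * t, s * u' * t, ?_, ?_⟩
      · calc p • (s * u * t) = s * (p • u) * t := by
              rw [mul_smul_comm, smul_mul_assoc]
          _ = s * (j * τ) * t := by rw [hjτ]
          _ = τ * (s * j * t) := by
              rw [← hτ j, ← mul_assoc s, ← hτ s]
              simp only [mul_assoc]
      · calc τ * (s * u' * t) = s * (j * τ) * u' * t := by
              rw [← hτ j]
              nth_rewrite 1 [← hju']
              rw [← mul_assoc s τ j, ← hτ s]
              simp only [mul_assoc]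
          _ = s * (p • u) * u' * t := by rw [hjτ]
          _ = p • (s * (u * u') * t) := by
              rw [mul_smul_comm, smul_mul_assoc, smul_mul_assoc]
              simp only [mul_assoc]
          _ = p • (s * j * t) := by rw [huu']
    | zero => exact ⟨0, 0, by simp, by simp⟩
    | add x y _ _ hx hy =>
      obtain ⟨z₁, z₁', h1, h2⟩ := hx
      obtain ⟨z₂, z₂', h3, h4⟩ := hy
      exact ⟨z₁ + z₂, z₁' + z₂', by rw [smul_add, h1, h3, mul_add], by
        rw [mul_add, h2, h4, smul_add]⟩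
    | smul r x _ hx =>
      obtain ⟨z₁, z₁', h1, h2⟩ := hx
      exact ⟨r • z₁, r • z₁', by rw [smul_comm, h1, mul_smul_comm], by
        rw [mul_smul_comm, h2, smul_comm]⟩
  obtain ⟨z, z₁, h1, h2⟩ := key b hspan
  rw [hτb] at h1
  have heq : ∀ x y : D, p • x = p • y → x = y := fun x y h =>
    sub_eq_zero.1 (htf _ (by rw [smul_sub, h, sub_self]))
  have hz : ∀ a, z * a = a * z := fun a => heq _ _ (by
    rw [← smul_mul_assoc, ← mul_smul_comm, h1, hτ])
  have hzb : z * b = z := heq _ _ (by rw [← smul_mul_assoc, h1, hτb])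
  have hzz : z * z₁ = b := heq _ _ (by rw [← smul_mul_assoc, h1, h2])
  have hzz' : z * (b * z₁) = b := by rw [← mul_assoc, hzb, hzz]
  refine ⟨z, b * z₁, hz, ?_, hzz', hzb, h1.symm⟩
  intro a
  have h3 : z * (b * z₁ * a - a * (b * z₁)) = 0 := by
    rw [mul_sub, ← mul_assoc, hzz', ← mul_assoc z a, hz a, mul_assoc, hzz', hb a, sub_self]
  have h4 : b * (b * z₁ * a - a * (b * z₁)) = b * z₁ * a - a * (b * z₁) := by
    rw [mul_sub, ← mul_assoc b (b * z₁), ← mul_assoc b b, hbb, ← mul_assoc b a, hb a, mul_assoc a b,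
      ← mul_assoc b b, hbb]
  have h5 : b * (b * z₁ * a - a * (b * z₁)) = 0 := by
    have h6 : ∀ c : D, z * c = 0 → b * c = 0 := fun c hc => by
      rw [← hzz', hz, mul_assoc, hc, mul_zero]
    exact h6 _ h3
  rw [h4] at h5
  exact sub_eq_zero.1 h5

theorem rdf : RdfStmt := by
  intro R F D H K _ _ c _ _ _ _ f _ T x y hS
  obtain ⟨hsym, he1, he2⟩ := hS
  have hκπ : c.κ c.π = 0 := (c.ker _).2 ⟨1, (mul_one _).symm⟩
  have hwd : ∀ a b : D, f.q a = f.q b → c.κ (T a) = c.κ (T b) := by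
    intro a b h
    obtain ⟨d, hd⟩ := f.ker (a - b) (by rw [map_sub, h, sub_self])
    have h1 : T a - T b = c.π * T d := by rw [← map_sub, hd, map_smul, smul_eq_mul]
    have h2 : c.κ (T a) - c.κ (T b) = 0 := by rw [← map_sub, h1, map_mul, hκπ, zero_mul]
    exact sub_eq_zero.1 h2
  have hqs : ∀ (r : R) (a : D), f.q (r • a) = c.κ r • f.q a := by
    intro r a
    rw [Algebra.smul_def, map_mul, f.sc, ← Algebra.smul_def]
  let g : H → D := fun h => (f.surj h).choose
  have hg : ∀ h, f.q (g h) = h := fun h => (f.surj h).choose_spec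
  let lam0 : H →ₗ[F] F :=
    { toFun := fun h => c.κ (T (g h))
      map_add' := by
        intro h h'
        rw [hwd (g (h + h')) (g h + g h') (by rw [map_add, hg, hg, hg]), map_add, map_add]
      map_smul' := by
        intro r h
        obtain ⟨ρ, rfl⟩ := c.surj r
        rw [hwd (g (c.κ ρ • h)) (ρ • g h) (by rw [hg, hqs, hg]), map_smul, smul_eq_mul, map_mul]
        rfl }
  have hl : ∀ a, lam0 (f.q a) = c.κ (T a) := fun a => hwd _ _ (hg _)
  refine ⟨lam0, hl, ?_, ?_, ?_⟩
  · intro h h'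
    obtain ⟨a, rfl⟩ := f.surj h
    obtain ⟨b, rfl⟩ := f.surj h'
    rw [← map_mul, ← map_mul, hl, hl, hsym]
  · intro h
    obtain ⟨a, rfl⟩ := f.surj h
    conv_rhs => rw [← he1 a, map_sum]
    refine Finset.sum_congr rfl fun k _ => ?_
    rw [← map_mul, hl, hqs]
  · intro h
    obtain ⟨a, rfl⟩ := f.surj h
    conv_rhs => rw [← he2 a, map_sum]
    refine Finset.sum_congr rfl fun k _ => ?_
    rw [← map_mul, hl, hqs]

end Pool.Agent.PST.ET.H41
end
end -- Pool.Agent.Helper41_PST.FCZ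

section -- Pool.Agent.Helper55_PST.REL

/-!
# Squad PST, row REL_ET: the relative form is right `S`-linear (helper55)
-/

open scoped BigOperators

noncomputable section

namespace Pool.Agent.PST.H55

open Pool.Agent.PST.ET (RelStmt)

theorem rel : RelStmt := by
  intro R V S D _ _ _ _ _ _ i σ σ' t T hT h1 h2 a s
  have hA : ∀ v, T (i (σ' v) * (a * i s)) = ∑ w, t (σ w * (s * σ' v)) * T (i (σ' w) * a) := by
    intro v
    have e1 : T (i (σ' v) * (a * i s)) = T (i (s * σ' v) * a) := by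
      rw [← mul_assoc, hT, ← mul_assoc, ← map_mul i]
    have e2 : i (s * σ' v) = ∑ w, t (σ w * (s * σ' v)) • i (σ' w) := by
      conv_lhs => rw [← h2 (s * σ' v)]
      rw [map_sum]
      exact Finset.sum_congr rfl fun w _ => map_smul i _ _
    rw [e1, e2, Finset.sum_mul, map_sum]
    refine Finset.sum_congr rfl fun w _ => ?_
    rw [smul_mul_assoc, map_smul, smul_eq_mul]
  calc ∑ v, T (i (σ' v) * (a * i s)) • i (σ v)
      = ∑ v, ∑ w, T (i (σ' w) * a) • t (σ' v * (σ w * s)) • i (σ v) := by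
        refine Finset.sum_congr rfl fun v _ => ?_
        rw [hA v, Finset.sum_smul]
        refine Finset.sum_congr rfl fun w _ => ?_
        rw [smul_smul, mul_comm (T _)]
        congr 3
        rw [← mul_assoc, mul_comm]
    _ = ∑ w, ∑ v, T (i (σ' w) * a) • t (σ' v * (σ w * s)) • i (σ v) := Finset.sum_comm
    _ = ∑ w, T (i (σ' w) * a) • i (σ w * s) := by
        refine Finset.sum_congr rfl fun w _ => ?_
        rw [← Finset.smul_sum]
        congr 1
        conv_rhs => rw [← h1 (σ w * s)]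
        rw [map_sum]
        exact Finset.sum_congr rfl fun v _ => (map_smul i _ _).symm
    _ = (∑ v, T (i (σ' v) * a) • i (σ v)) * i s := by
        rw [Finset.sum_mul]
        refine Finset.sum_congr rfl fun w _ => ?_
        rw [smul_mul_assoc, map_mul i]

end Pool.Agent.PST.H55
end
end -- Pool.Agent.Helper55_PST.REL

section -- Pool.Agent.Helper65_PST.PCM

/-!
# Squad PST, block ET, row PCM: `ℓ`-th powers modulo the commutators

The polynomial `(a + X b) ^ ℓ` has the derivative `∑ (a + X b) ^ i b (a + X b) ^ (ℓ - 1 - i)`, which is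
`ℓ b (a + X b) ^ (ℓ - 1) = 0` modulo the commutators, so `k c_k` is a sum of commutators for every coefficient `c_k`.
-/

noncomputable section

namespace Pool.Agent.PST.ET.H65

open Polynomial

variable {R D : Type} [CommRing R] [Ring D] [Algebra R D]

theorem comm_mem (a b : D) : a * b - b * a ∈ cmt R D := Submodule.subset_span ⟨a, b, rfl⟩

theorem pc_comm (P Q : D[X]) (k : ℕ) : (P * Q - Q * P).coeff k ∈ cmt R D := by
  rw [coeff_sub, coeff_mul, coeff_mul,
    ← Finset.Nat.sum_antidiagonal_swap (f := fun x : ℕ × ℕ => Q.coeff x.1 * P.coeff x.2) (n := k),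
    ← Finset.sum_sub_distrib]
  refine Submodule.sum_mem _ fun x _ => ?_
  exact comm_mem _ _

theorem der_pow (P : D[X]) (n : ℕ) :
    derivative (P ^ n) = ∑ i ∈ Finset.range n, P ^ i * derivative P * P ^ (n - 1 - i) := by
  induction n with
  | zero => simp
  | succ n ih =>
    rw [pow_succ, derivative_mul, ih, Finset.sum_mul, Finset.sum_range_succ]
    congr 1
    · refine Finset.sum_congr rfl fun i hi => ?_
      rw [Finset.mem_range] at hi
      rw [mul_assoc _ _ P, ← pow_succ]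
      congr 2
      omega
    · simp

theorem pc_der (P : D[X]) (n k : ℕ) :
    (derivative (P ^ n) - (n : D[X]) * (derivative P * P ^ (n - 1))).coeff k ∈ cmt R D := by
  have h : derivative (P ^ n) - (n : D[X]) * (derivative P * P ^ (n - 1)) =
      ∑ i ∈ Finset.range n, (P ^ i * (derivative P * P ^ (n - 1 - i)) -
        (derivative P * P ^ (n - 1 - i)) * P ^ i) := by
    rw [der_pow, Finset.sum_sub_distrib]
    congr 1
    · refine Finset.sum_congr rfl fun i _ => ?_
      rw [mul_assoc]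
    · rw [Finset.sum_congr rfl (g := fun _ => derivative P * P ^ (n - 1))]
      · rw [Finset.sum_const, Finset.card_range, nsmul_eq_mul]
      · intro i hi
        rw [Finset.mem_range] at hi
        rw [mul_assoc, ← pow_add]
        congr 2
        omega
  rw [h, finsetSum_coeff]
  exact Submodule.sum_mem _ fun i _ => pc_comm _ _ _

theorem pcm : PcmStmt := by
  intro ℓ hℓ R D _ _ _ _
  have hp : ℓ.Prime := hℓ.out
  have hcD : (ℓ : D) = 0 := by
    have h1 : ((ℓ : R) : R) = 0 := CharP.cast_eq_zero R ℓ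
    have h2 := congrArg (algebraMap R D) h1
    rwa [map_natCast, map_zero] at h2
  have key : ∀ a b : D, (a + b) ^ ℓ - a ^ ℓ - b ^ ℓ ∈ cmt R D := by
    intro a b
    obtain ⟨P, hP⟩ : ∃ P : D[X], P = C a + X * C b := ⟨_, rfl⟩
    have hdeg : P.natDegree ≤ 1 := by
      rw [hP]
      refine (natDegree_add_le _ _).trans (max_le (by simp) ?_)
      refine (natDegree_mul_le).trans ?_
      have := natDegree_X_le (R := D)
      simp only [natDegree_C, add_zero]
      exact this
    have hc0 : P.coeff 0 = a := by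
      rw [hP]
      simp
    have hc1 : P.coeff 1 = b := by
      rw [hP]
      simp [coeff_C]
    have h0 : (P ^ ℓ).coeff 0 = a ^ ℓ := by
      have := map_pow (constantCoeff (R := D)) P ℓ
      simp only [constantCoeff_apply] at this
      rw [this, hc0]
    have h1 : (P ^ ℓ).coeff ℓ = b ^ ℓ := by
      have := coeff_pow_of_natDegree_le (m := ℓ) hdeg
      rw [mul_one] at this
      rw [this, hc1]
    have hdl : (P ^ ℓ).natDegree ≤ ℓ := by
      refine (natDegree_pow_le).trans ?_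
      calc ℓ * P.natDegree ≤ ℓ * 1 := Nat.mul_le_mul_left _ hdeg
        _ = ℓ := mul_one _
    have hev : (a + b) ^ ℓ = ∑ k ∈ Finset.range (ℓ + 1), (P ^ ℓ).coeff k := by
      have h2 : ∀ Q : D[X], eval₂RingHom' (RingHom.id D) 1 (fun _ => Commute.one_right _) Q =
          Q.sum fun _ c => c := by
        intro Q
        show eval₂ (RingHom.id D) 1 Q = _
        rw [eval₂_eq_sum]
        simp
      have h3 : eval₂RingHom' (RingHom.id D) 1 (fun _ => Commute.one_right _) P = a + b := by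
        show eval₂ (RingHom.id D) 1 P = _
        rw [hP, eval₂_add, eval₂_C, eval₂_mul_noncomm _ _ (fun _ => Commute.one_right _)]
        simp
      rw [← h3, ← map_pow, h2, sum_over_range' _ (fun _ => rfl) (ℓ + 1) (by omega)]
    have hmid : ∀ k, 0 < k → k < ℓ → (P ^ ℓ).coeff k ∈ cmt R D := by
      intro k hk0 hkl
      have h2 := pc_der (R := R) P ℓ (k - 1)
      have h3 : ((ℓ : ℕ) : D[X]) = 0 := by
        rw [← C_eq_natCast, hcD, C_0]
      rw [h3, zero_mul, sub_zero, coeff_derivative] at h2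
      rw [show k - 1 + 1 = k by omega] at h2
      have h4 : ((k - 1 : ℕ) : D) + 1 = ((k : ℕ) : D) := by
        rw [← Nat.cast_succ]
        congr 1
        omega
      rw [h4] at h2
      -- `k` is invertible in `R`
      have hu : IsUnit ((k : ℕ) : ZMod ℓ) := by
        rw [ZMod.isUnit_iff_coprime]
        exact (Nat.coprime_of_lt_prime hk0.ne' hkl hp).symm
      have hu2 : IsUnit ((k : ℕ) : R) := by
        have := hu.map (ZMod.castHom (dvd_refl ℓ) R)
        rwa [map_natCast] at this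
      obtain ⟨u, hu3⟩ := hu2
      have h5 : (↑u⁻¹ : R) • ((P ^ ℓ).coeff k * ((k : ℕ) : D)) = (P ^ ℓ).coeff k := by
        have h6 : ((k : ℕ) : D) = algebraMap R D (u : R) := by
          rw [hu3, map_natCast]
        rw [h6, ← Algebra.commutes, ← Algebra.smul_def, smul_smul, Units.inv_mul, one_smul]
      rw [← h5]
      exact Submodule.smul_mem _ _ h2
    have h6 : (a + b) ^ ℓ - a ^ ℓ - b ^ ℓ = ∑ k ∈ Finset.Ico 1 ℓ, (P ^ ℓ).coeff k := by
      rw [hev, Finset.sum_range_succ, h1, Finset.range_eq_Ico,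
        Finset.sum_eq_sum_Ico_succ_bot hp.pos, h0]
      abel
    rw [h6]
    refine Submodule.sum_mem _ fun k hk => ?_
    rw [Finset.mem_Ico] at hk
    exact hmid k (by omega) hk.2
  refine ⟨key, ?_⟩
  intro a ha
  have hadd : ∀ x y : D, x ^ ℓ ∈ cmt R D → y ^ ℓ ∈ cmt R D → (x + y) ^ ℓ ∈ cmt R D := by
    intro x y hx hy
    have := Submodule.add_mem _ (Submodule.add_mem _ (key x y) hx) hy
    have h2 : (x + y) ^ ℓ - x ^ ℓ - y ^ ℓ + x ^ ℓ + y ^ ℓ = (x + y) ^ ℓ := by abel
    rwa [h2] at this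
  unfold cmt at ha
  induction ha using Submodule.span_induction with
  | mem x hx =>
    obtain ⟨x, y, rfl⟩ := hx
    have h1 := key (x * y - y * x) (y * x)
    rw [sub_add_cancel] at h1
    obtain ⟨n, hn⟩ : ∃ n, ℓ = n + 1 := ⟨ℓ - 1, by have := hp.pos; omega⟩
    have h3 : (y * x) ^ ℓ = y * (x * y) ^ n * x := by
      rw [hn, pow_succ, ← mul_assoc]
      congr 1
      clear h1 hn
      induction n with
      | zero => simp
      | succ n ih =>
        rw [pow_succ, mul_assoc _ (y * x) y, mul_assoc y x y, ← mul_assoc _ y, ih, mul_assoc y,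
          ← pow_succ]
    have h4 : (x * y) ^ ℓ = x * (y * (x * y) ^ n) := by
      rw [hn, pow_succ', mul_assoc]
    have h5 : (x * y) ^ ℓ - (y * x) ^ ℓ ∈ cmt R D := by
      rw [h3, h4]
      exact comm_mem _ _
    have h6 := Submodule.sub_mem _ h5 h1
    have h7 : (x * y) ^ ℓ - (y * x) ^ ℓ - ((x * y) ^ ℓ - (x * y - y * x) ^ ℓ - (y * x) ^ ℓ) =
        (x * y - y * x) ^ ℓ := by abel
    rwa [h7] at h6
  | zero => rw [zero_pow hp.ne_zero]; exact Submodule.zero_mem _
  | add x y _ _ hx hy => exact hadd x y hx hy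
  | smul r x _ hx =>
    rw [_root_.smul_pow]
    exact Submodule.smul_mem _ _ hx

end Pool.Agent.PST.ET.H65
end
end -- Pool.Agent.Helper65_PST.PCM

section -- Pool.Agent.Helper81_PST.GEN

/-!
# Squad PST, block ET, row GEN (helper81): the direction generates the group algebra
-/

set_option autoImplicit false

open scoped BigOperators

noncomputable section

namespace Pool.Agent.PST.ET.H81

open Pool.Agent.PST.ET

/-- row GEN -/
theorem gen : GenStmt := by
  classical
  intro ℓ r _ F V K _ _ _ _ _ _ β lam xx t B hV hE hB v₀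
  rcases subsingleton_or_nontrivial K with hK | hK
  · rw [Subsingleton.elim (β v₀) 0]
    exact B.zero_mem
  have hchar : CharP K ℓ := charP_of_injective_algebraMap (algebraMap F K).injective ℓ
  have hadd := hE.add
  -- the augmentation ideal
  let I : Submodule F K := Submodule.span F (Set.range fun v => β v - 1)
  have hI : ∀ v, β v - 1 ∈ I := fun v => Submodule.subset_span ⟨v, rfl⟩
  let X : Fin r → K := fun l => ∑ u, xx l u • β u
  have hXI : ∀ l, X l ∈ I := by
    intro l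
    have : X l = ∑ u, xx l u • (β u - 1) := by
      show ∑ u, xx l u • β u = _
      simp only [smul_sub]
      rw [Finset.sum_sub_distrib, ← Finset.sum_smul, hE.x0, zero_smul, sub_zero]
    rw [this]
    exact Submodule.sum_mem _ fun u _ => Submodule.smul_mem _ _ (hI u)
  have hXB : ∀ l, X l ∈ B := by
    intro n
    have h1 : ∑ v, xx n v • (∑ u, gv lam xx t v u • β u) = t n • X n := by
      have h2 : ∀ u, ∑ v, xx n v * gv lam xx t v u = t n * xx n u := by
        intro u
        unfold gv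
        calc ∑ v, xx n v * ∑ l, t l * lam l v * xx l u =
            ∑ v, ∑ l, (t l * xx l u) * (xx n v * lam l v) := by
              refine Finset.sum_congr rfl fun v _ => ?_
              rw [Finset.mul_sum]
              refine Finset.sum_congr rfl fun l _ => ?_
              ring
          _ = ∑ l, (t l * xx l u) * ∑ v, xx n v * lam l v := by
              rw [Finset.sum_comm]
              refine Finset.sum_congr rfl fun l _ => ?_
              rw [Finset.mul_sum]
          _ = ∑ l, (t l * xx l u) * (if n = l then 1 else 0) := by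
              refine Finset.sum_congr rfl fun l _ => ?_
              rw [hE.x1]
          _ = t n * xx n u := by simp
      calc ∑ v, xx n v • (∑ u, gv lam xx t v u • β u) =
          ∑ u, (∑ v, xx n v * gv lam xx t v u) • β u := by
            simp only [Finset.smul_sum, smul_smul, Finset.sum_smul]
            rw [Finset.sum_comm]
        _ = t n • X n := by
            show _ = t n • ∑ u, xx n u • β u
            simp only [h2, Finset.smul_sum, smul_smul]
    have h2 : X n = (t n)⁻¹ • ∑ v, xx n v • (∑ u, gv lam xx t v u • β u) := by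
      rw [h1, smul_smul, inv_mul_cancel₀ (hE.t0 n), one_smul]
    rw [h2]
    exact B.smul_mem (Subalgebra.sum_mem _ fun v _ => B.smul_mem (hB v) _) _
  -- the generators modulo the square
  have h3 : ∀ v, β v - 1 - ∑ l, lam l v • X l ∈ I * I := by
    intro v
    by_contra hcon
    obtain ⟨ψ, hψ, hker⟩ := Submodule.exists_le_ker_of_notMem hcon
    have hk : ∀ a b, ψ ((β a - 1) * (β b - 1)) = 0 := fun a b =>
      hker (Submodule.mul_mem_mul (hI a) (hI b))
    let m : V → F := fun v => ψ (β v - 1)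
    have hm : ∀ u v, m (u * v) = m u + m v := by
      intro u v
      have e : β (u * v) - 1 = (β u - 1) + (β v - 1) + (β u - 1) * (β v - 1) := by
        rw [map_mul]; ring
      show ψ (β (u * v) - 1) = ψ (β u - 1) + ψ (β v - 1)
      rw [e, map_add, map_add, hk, add_zero]
    obtain ⟨k, hk'⟩ := hE.sp m hm
    have hX : ∀ l, ψ (X l) = k l := by
      intro l
      have h4 : ψ (X l) = ∑ u, xx l u * m u := by
        have h5 : X l = ∑ u, xx l u • (β u - 1) := by
          show ∑ u, xx l u • β u = _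
          simp only [smul_sub]
          rw [Finset.sum_sub_distrib, ← Finset.sum_smul, hE.x0, zero_smul, sub_zero]
        rw [h5, map_sum]
        refine Finset.sum_congr rfl fun u _ => ?_
        rw [map_smul, smul_eq_mul]
      rw [h4]
      calc ∑ u, xx l u * m u = ∑ u, ∑ n, k n * (xx l u * lam n u) := by
            refine Finset.sum_congr rfl fun u _ => ?_
            rw [hk', Finset.mul_sum]
            refine Finset.sum_congr rfl fun n _ => ?_
            ring
        _ = ∑ n, k n * ∑ u, xx l u * lam n u := by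
            rw [Finset.sum_comm]
            refine Finset.sum_congr rfl fun n _ => ?_
            rw [Finset.mul_sum]
        _ = ∑ n, k n * (if l = n then 1 else 0) := by
            refine Finset.sum_congr rfl fun n _ => ?_
            rw [hE.x1]
        _ = k l := by simp
    apply hψ
    rw [map_sub, map_sum]
    have h6 : ψ (β v - 1) = m v := rfl
    rw [h6, hk']
    simp only [map_smul, hX, smul_eq_mul]
    rw [sub_eq_zero]
    exact Finset.sum_congr rfl fun l _ => mul_comm _ _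
  let B' : Submodule F K := Subalgebra.toSubmodule B
  have hBm : ∀ x y, x ∈ B' → y ∈ B' → x * y ∈ B' := fun x y hx hy => B.mul_mem hx hy
  have h4 : I ≤ (B' ⊓ I) ⊔ I * I := by
    refine Submodule.span_le.2 ?_
    rintro _ ⟨v, rfl⟩
    have e : β v - 1 = ∑ l, lam l v • X l + (β v - 1 - ∑ l, lam l v • X l) := by abel
    show β v - 1 ∈ (B' ⊓ I) ⊔ I * I
    rw [e]
    refine Submodule.add_mem_sup ?_ (h3 v)
    exact Submodule.sum_mem _ fun l _ => Submodule.smul_mem _ _ ⟨hXB l, hXI l⟩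
  -- the powers
  have h5 : ∀ k, I ^ (k + 1) ≤ (B' ⊓ I ^ (k + 1)) ⊔ I ^ (k + 2) := by
    intro k
    induction k with
    | zero =>
      rw [zero_add, pow_one, pow_two]
      exact h4
    | succ k ih =>
      have e1 : I ^ (k + 1 + 1) = I ^ (k + 1) * I := pow_succ _ _
      rw [e1, Submodule.mul_le]
      intro x hx y hy
      obtain ⟨x₁, hx₁, x₂, hx₂, rfl⟩ := Submodule.mem_sup.1 (ih hx)
      obtain ⟨y₁, hy₁, y₂, hy₂, rfl⟩ := Submodule.mem_sup.1 (h4 hy)
      have e2 : (x₁ + x₂) * (y₁ + y₂) = x₁ * y₁ + (x₁ * y₂ + x₂ * (y₁ + y₂)) := by ring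
      rw [e2]
      refine Submodule.add_mem_sup ⟨hBm _ _ hx₁.1 hy₁.1, Submodule.mul_mem_mul hx₁.2 hy₁.2⟩ ?_
      refine Submodule.add_mem _ ?_ ?_
      · have e3 : I ^ (k + 1 + 2) = I ^ (k + 1) * (I * I) := by rw [pow_add, pow_two]
        rw [e3]
        exact Submodule.mul_mem_mul hx₁.2 hy₂
      · have e3 : I ^ (k + 1 + 2) = I ^ (k + 2) * I := by
          rw [show k + 1 + 2 = (k + 2) + 1 by ring, pow_succ]
        rw [e3]
        exact Submodule.mul_mem_mul hx₂ hy
  -- nilpotency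
  obtain ⟨N, hN⟩ : ∃ N, I ^ (N + 1) = ⊥ := by
    let J : Ideal K := Ideal.span (Set.range fun v => β v - 1)
    have hfg : J.FG := by
      refine ⟨Finset.univ.image fun v => β v - 1, ?_⟩
      show Ideal.span _ = _
      rw [Finset.coe_image, Finset.coe_univ, Set.image_univ]
    have hnil : J ≤ nilradical K := by
      refine Ideal.span_le.2 ?_
      rintro _ ⟨v, rfl⟩
      show β v - 1 ∈ nilradical K
      rw [mem_nilradical]
      refine ⟨ℓ, ?_⟩
      rw [sub_pow_char, one_pow, ← map_pow, hV, map_one, sub_self]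
    obtain ⟨N, hN⟩ := (Ideal.FG.isNilpotent_iff_le_nilradical hfg).2 hnil
    have hsub : ∀ k, ∀ x ∈ I ^ k, x ∈ J ^ k := by
      intro k
      induction k with
      | zero =>
        intro x _
        rw [pow_zero, Ideal.one_eq_top]
        trivial
      | succ k ih =>
        intro x hx
        rw [pow_succ] at hx ⊢
        refine Submodule.mul_induction_on hx ?_ ?_
        · intro a ha b hb
          refine Ideal.mul_mem_mul (ih a ha) ?_
          have : I ≤ J.restrictScalars F := by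
            refine Submodule.span_le.2 ?_
            rintro _ ⟨v, rfl⟩
            exact Ideal.subset_span ⟨v, rfl⟩
          exact this hb
        · intro a b ha hb
          exact Ideal.add_mem _ ha hb
    refine ⟨N, ?_⟩
    rw [eq_bot_iff]
    intro x hx
    have h7 := hsub (N + 1) x hx
    rw [pow_succ, hN, Ideal.zero_eq_bot, Ideal.bot_mul] at h7
    exact h7
  have h8 : ∀ j, j ≤ N → I ^ (N - j + 1) ≤ B' := by
    intro j
    induction j with
    | zero =>
      intro _
      rw [Nat.sub_zero, hN]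
      exact bot_le
    | succ j ih =>
      intro hj
      have e : N - (j + 1) + 2 = N - j + 1 := by omega
      refine (h5 (N - (j + 1))).trans (sup_le inf_le_left ?_)
      rw [e]
      exact ih (by omega)
  have h9 := h8 N le_rfl
  rw [Nat.sub_self, zero_add, pow_one] at h9
  have h10 : β v₀ - 1 ∈ B := h9 (hI v₀)
  have e : β v₀ = (β v₀ - 1) + 1 := by ring
  rw [e]
  exact B.add_mem h10 B.one_mem

end Pool.Agent.PST.ET.H81
end
end -- Pool.Agent.Helper81_PST.GEN

section -- Pool.Agent.Helper81_PST.RFS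

/-!
# Squad PST, block ET, row RFS (helper81): relative dual families over `S`
-/

set_option autoImplicit false

open scoped BigOperators

noncomputable section

namespace Pool.Agent.PST.ET.H81

open Pool.Agent.PFD.D2 (Cdv FibG)
open Pool.Agent.PSS (RF)
open Pool.Agent.PST.ET

/-- row RFS -/
theorem rfs (rel : RelStmt) (ung : Pool.Agent.PFD.D2.UngStmt) : RfsStmt := by
  classical
  intro R F V S H Hs K _ _ _ _ _ _ _ _ _ _ _ _ _ c f α i σ σ' cf T lam0 x0 y0 hS hσ h1 h2 h3 hT
    hlam hRF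
  have hqs : ∀ (ρ : R) (a : Hs), f.q (ρ • a) = c.κ ρ • f.q a := by
    intro ρ a
    rw [Algebra.smul_def, map_mul, f.sc, ← Algebra.smul_def]
  have hσ' : ∀ v, f.q (i (σ' v)) = α v⁻¹ := by
    intro v
    have e : i (σ' v) = ∑ u, cf u (σ' v) • i (σ u) := by
      conv_lhs => rw [← hS.b1 (σ' v)]
      rw [map_sum]
      exact Finset.sum_congr rfl fun u _ => map_smul i _ _
    rw [e, map_sum]
    calc ∑ u, f.q (cf u (σ' v) • i (σ u)) = ∑ u, (if u = v⁻¹ then (1 : F) else 0) • α u := by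
          refine Finset.sum_congr rfl fun u _ => ?_
          rw [hqs, h3, hσ]
      _ = α v⁻¹ := by simp
  -- the relative form
  let es : Hs → S := fun a => ∑ v, T (i (σ' v) * a) • σ v
  have hes : ∀ a, i (es a) = ∑ v, T (i (σ' v) * a) • i (σ v) := by
    intro a
    show i (∑ v, T (i (σ' v) * a) • σ v) = _
    rw [map_sum]
    exact Finset.sum_congr rfl fun v _ => map_smul i _ _
  have hesr : ∀ a s, i (es (a * i s)) = i (es a) * i s := by
    intro a s
    rw [hes, hes]
    exact rel R V S Hs i σ σ' (cf 1) T hT h1 h2 a s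
  have hesa : ∀ a b, es (a + b) = es a + es b := by
    intro a b
    show ∑ v, T (i (σ' v) * (a + b)) • σ v = ∑ v, T (i (σ' v) * a) • σ v +
      ∑ v, T (i (σ' v) * b) • σ v
    rw [← Finset.sum_add_distrib]
    refine Finset.sum_congr rfl fun v _ => ?_
    rw [mul_add, map_add, add_smul]
  have hess : ∀ (ρ : R) a, es (ρ • a) = ρ • es a := by
    intro ρ a
    show ∑ v, T (i (σ' v) * (ρ • a)) • σ v = ρ • ∑ v, T (i (σ' v) * a) • σ v
    rw [Finset.smul_sum]
    refine Finset.sum_congr rfl fun v _ => ?_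
    rw [mul_smul_comm, map_smul, smul_eq_mul, mul_smul]
  have hqe : ∀ a, f.q (i (es a)) = ∑ v, lam0 (α v⁻¹ * f.q a) • α v := by
    intro a
    rw [hes, map_sum]
    refine Finset.sum_congr rfl fun v _ => ?_
    rw [hqs, hσ, ← hlam, map_mul, hσ']
  choose xb hxb using fun k => f.surj (x0 k)
  choose yb hyb using fun k => f.surj (y0 k)
  let Φ : Hs →ₗ[R] Hs :=
    { toFun := fun a => ∑ k, xb k * i (es (yb k * a))
      map_add' := by
        intro a b
        rw [← Finset.sum_add_distrib]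
        refine Finset.sum_congr rfl fun k _ => ?_
        rw [mul_add, hesa, map_add, mul_add]
      map_smul' := by
        intro ρ a
        rw [RingHom.id_apply, Finset.smul_sum]
        refine Finset.sum_congr rfl fun k _ => ?_
        rw [mul_smul_comm, hess, map_smul, mul_smul_comm] }
  have hΦ : ∀ a, Φ a = ∑ k, xb k * i (es (yb k * a)) := fun _ => rfl
  have hqΦ : ∀ a, f.q (Φ a) = f.q a := by
    intro a
    rw [hΦ, map_sum]
    have h4 := hRF.e1 (f.q a)
    refine Eq.trans ?_ h4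
    refine Finset.sum_congr rfl fun k _ => ?_
    rw [map_mul, hxb, hqe, Finset.mul_sum]
    refine Finset.sum_congr rfl fun v _ => ?_
    rw [map_mul f.q, hyb, mul_smul_comm, mul_assoc]
  have hΦr : ∀ a s, Φ (a * i s) = Φ a * i s := by
    intro a s
    rw [hΦ, hΦ, Finset.sum_mul]
    refine Finset.sum_congr rfl fun k _ => ?_
    rw [← mul_assoc, hesr, mul_assoc]
  have hbij : Function.Bijective Φ := by
    refine ung R F Hs c Φ fun a => f.ker _ ?_
    rw [map_sub, hqΦ, sub_self]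
  let e : Hs ≃ₗ[R] Hs := LinearEquiv.ofBijective Φ hbij
  have he : ∀ a, e a = Φ a := fun _ => rfl
  have her : ∀ a s, e.symm (a * i s) = e.symm a * i s := by
    intro a s
    apply e.injective
    rw [e.apply_symm_apply, he, hΦr, ← he, e.apply_symm_apply]
  refine ⟨fun k => e.symm (xb k), yb, ?_, hyb, ?_⟩
  · intro k
    rw [← hqΦ, ← he, e.apply_symm_apply, hxb]
  · intro a
    have h5 : a = e.symm (Φ a) := by rw [← he, e.symm_apply_apply]
    conv_rhs => rw [h5, hΦ, map_sum]
    refine Finset.sum_congr rfl fun k _ => ?_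
    rw [her, hes, Finset.mul_sum]
    refine Finset.sum_congr rfl fun v _ => ?_
    rw [mul_smul_comm, mul_assoc]

end Pool.Agent.PST.ET.H81
end
end -- Pool.Agent.Helper81_PST.RFS

section -- Pool.Agent.Helper83_PST.SUB

/-!
# PST ET SUB: the commutative subalgebra `S`
-/

set_option autoImplicit false

open scoped BigOperators TensorProduct

noncomputable section

namespace Pool.Agent.PST.ET.H83

open Pool.Agent.PFD.D2 (Cdv FibG)

/-- a commutative subalgebra as an abstract commutative algebra -/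
theorem comm_sub {R D : Type} [CommRing R] [Ring D] [Algebra R D] (A : Subalgebra R D)
    (h : ∀ a ∈ A, ∀ b ∈ A, a * b = b * a) :
    ∃ (S : Type) (_ : CommRing S) (_ : Algebra R S) (i : S →ₐ[R] D),
      Function.Injective i ∧ ∀ x, x ∈ A ↔ ∃ s, i s = x := by
  let _ : CommRing A := { A.toRing with
    mul_comm := fun a b => Subtype.ext (h a.1 a.2 b.1 b.2) }
  refine ⟨A, inferInstance, A.algebra, A.val, Subtype.val_injective, fun x => ?_⟩
  exact ⟨fun hx => ⟨⟨x, hx⟩, rfl⟩, fun ⟨s, hs⟩ => hs ▸ s.2⟩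

theorem sub (hSEX : SexStmt) (hPWS : PwsStmt) (hCOM : ComStmt) (hRLI : RliStmt) : SubStmt := by
  intro ℓ r hℓ R F V H Hs _ _ _ _ _ _ _ _ _ _ _ _ _ _ _ c f α lam' lam xx t hV hE hR hP hTr
  obtain ⟨σ0, h1, hq, hN⟩ := hSEX R F V H Hs c f α lam' hP hTr
  obtain ⟨hpw, hcm⟩ := hPWS ℓ r R F V H Hs c f α lam' lam xx t σ0 hV hR hP h1 hq hN
  have hcomm := hCOM ℓ r R F V H Hs c f α lam' lam xx t σ0 hV hE hP h1 hq hN hpw hcm
  obtain ⟨-, hli, hpure⟩ := hRLI R F V H Hs c f α lam' σ0 hP hq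
  let A : Subalgebra R Hs := Algebra.adjoin R (Set.range σ0)
  have hA : ∀ x, x ∈ A ↔ x ∈ Submodule.span R (Set.range σ0) := by
    intro x
    constructor
    · intro hx
      induction hx using Algebra.adjoin_induction with
      | mem x hx => exact Submodule.subset_span hx
      | algebraMap a =>
        rw [Algebra.algebraMap_eq_smul_one, ← h1]
        exact Submodule.smul_mem _ _ (Submodule.subset_span ⟨1, rfl⟩)
      | add x y _ _ hx hy => exact Submodule.add_mem _ hx hy
      | mul x y _ _ hx hy =>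
        have h2 : ∀ a ∈ Submodule.span R (Set.range σ0), ∀ b ∈ Submodule.span R (Set.range σ0),
            a * b ∈ Submodule.span R (Set.range σ0) := by
          intro a ha b hb
          induction ha using Submodule.span_induction with
          | mem a ha =>
            obtain ⟨u, rfl⟩ := ha
            induction hb using Submodule.span_induction with
            | mem b hb =>
              obtain ⟨v, rfl⟩ := hb
              exact hN u v
            | zero => rw [mul_zero]; exact Submodule.zero_mem _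
            | add b b' _ _ hb hb' => rw [mul_add]; exact Submodule.add_mem _ hb hb'
            | smul k b _ hb => rw [mul_smul_comm]; exact Submodule.smul_mem _ _ hb
          | zero => rw [zero_mul]; exact Submodule.zero_mem _
          | add a a' _ _ ha ha' => rw [add_mul]; exact Submodule.add_mem _ ha ha'
          | smul k a _ ha => rw [smul_mul_assoc]; exact Submodule.smul_mem _ _ ha
        exact h2 x hx y hy
    · intro hx
      exact Algebra.span_le_adjoin R _ hx
  have hAc : ∀ a ∈ A, ∀ b ∈ A, a * b = b * a := by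
    intro a ha b hb
    have hs : ∀ x ∈ Set.range σ0, ∀ y ∈ Set.range σ0, x * y = y * x := by
      rintro _ ⟨u, rfl⟩ _ ⟨v, rfl⟩
      exact hcomm u v
    have h3 : ∀ b ∈ Submodule.span R (Set.range σ0), ∀ u, σ0 u * b = b * σ0 u := by
      intro b hb u
      induction hb using Submodule.span_induction with
      | mem b hb =>
        obtain ⟨v, rfl⟩ := hb
        exact hcomm u v
      | zero => rw [zero_mul, mul_zero]
      | add b b' _ _ hb hb' => rw [mul_add, add_mul, hb, hb']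
      | smul k b _ hb => rw [mul_smul_comm, smul_mul_assoc, hb]
    have ha' := (hA a).1 ha
    have hb' := (hA b).1 hb
    clear ha
    induction ha' using Submodule.span_induction with
    | mem a ha =>
      obtain ⟨v, rfl⟩ := ha
      exact h3 b hb' v
    | zero => rw [zero_mul, mul_zero]
    | add a a' _ _ ha ha' => rw [mul_add, add_mul, ha, ha']
    | smul k a _ ha => rw [mul_smul_comm, smul_mul_assoc, ha]
  obtain ⟨S, iS, jS, i, hi, hiA⟩ := comm_sub A hAc
  have hex : ∀ x ∈ Submodule.span R (Set.range σ0), ∃ s, i s = x := fun x hx =>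
    (hiA x).1 ((hA x).2 hx)
  have hσ : ∀ v, ∃ s, i s = σ0 v := fun v => hex _ (Submodule.subset_span ⟨v, rfl⟩)
  choose σ hσ using hσ
  have hlin : LinearIndependent R σ := by
    rw [Fintype.linearIndependent_iff]
    intro g hg v
    have h4 : ∑ v, g v • σ0 v = 0 := by
      have := congrArg i hg
      rw [map_sum, map_zero] at this
      rw [← this]
      exact Finset.sum_congr rfl fun v _ => by rw [map_smul, hσ]
    exact congrFun (hli g h4) v
  have hspan : ⊤ ≤ Submodule.span R (Set.range σ) := by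
    intro s _
    have h5 : i s ∈ Submodule.span R (Set.range σ0) := (hA _).1 ((hiA _).2 ⟨s, rfl⟩)
    have h6 : Submodule.span R (Set.range σ0) = (Submodule.span R (Set.range σ)).map
        i.toLinearMap := by
      rw [Submodule.map_span, ← Set.range_comp]
      congr 2
      funext v
      exact (hσ v).symm
    rw [h6] at h5
    obtain ⟨s', hs', h7⟩ := h5
    rw [← hi h7]
    exact hs'
  let b := Module.Basis.mk hlin hspan
  have hb : ∀ v, b v = σ v := fun v => Module.Basis.mk_apply hlin hspan v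
  have hb1 : ∀ s, ∑ v, b.coord v s • σ v = s := by
    intro s
    have := b.sum_repr s
    simp_rw [hb] at this
    exact this
  have hσ1 : σ 1 = 1 := hi (by rw [hσ, h1, map_one])
  refine ⟨S, iS, jS, i, σ, fun v => b.coord v, hi, fun v => by rw [hσ, hq], ⟨hb1, ?_, hσ1, ?_⟩,
    ?_⟩
  · intro u v
    rw [← hb v, Module.Basis.coord_apply, Module.Basis.repr_self, Finsupp.single_apply]
    by_cases h : u = v
    · simp [h]
    · simp [h, Ne.symm h]
  · intro u v
    obtain ⟨d, hd⟩ := f.ker (σ0 u * σ0 v - σ0 (u * v)) (by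
      rw [map_sub, map_mul, hq, hq, hq, map_mul, sub_self])
    have h8 : d ∈ Submodule.span R (Set.range σ0) := by
      apply hpure
      rw [← hd]
      exact Submodule.sub_mem _ (hN u v) (Submodule.subset_span ⟨_, rfl⟩)
    obtain ⟨d', rfl⟩ := hex d h8
    refine ⟨d', hi ?_⟩
    rw [map_mul, map_add, map_smul, hσ, hσ, hσ, ← hd]
    abel
  · intro v
    obtain ⟨g0, hg0, hg1, hg2⟩ := hpw v
    obtain ⟨g, rfl⟩ := hex g0 hg0
    refine ⟨g, hi ?_, fun u => ?_⟩
    · rw [map_pow, map_add, map_smul, map_one, hσ, hg1]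
    · have h9 : f.q (i g) = ∑ u, c.κ (b.coord u g) • α u := by
        conv_lhs => rw [← hb1 g]
        rw [map_sum, map_sum]
        refine Finset.sum_congr rfl fun u _ => ?_
        rw [map_smul, hσ, Algebra.smul_def, map_mul, f.sc, hq, ← Algebra.smul_def]
      have h10 : ∀ k : V → F, lam' (α u⁻¹ * ∑ w, k w • α w) = k u := by
        intro k
        rw [Finset.mul_sum, map_sum, Finset.sum_eq_single u]
        · rw [mul_smul_comm, ← map_mul, map_smul, inv_mul_cancel, hP.del, if_pos rfl,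
            smul_eq_mul, mul_one]
        · intro w _ hw
          rw [mul_smul_comm, ← map_mul, map_smul, hP.del, if_neg, smul_zero]
          intro h
          exact hw (inv_mul_eq_one.1 h).symm
        · intro h
          exact absurd (Finset.mem_univ u) h
      rw [← h10 (fun u => c.κ (b.coord u g)), ← h9, hg2, h10]

end Pool.Agent.PST.ET.H83
end
end -- Pool.Agent.Helper83_PST.SUB
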