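import Pool.Agent.Helper12_AWB.B186

/-!
# Merged copies (generated) of the modules

* `Pool.Agent.PST.StmtsET3`
* `Pool.Agent.Helper19_PST.BCM`
* `Pool.Agent.Helper19_PST.DCI`
* `Pool.Agent.Helper31_PST.ETC`
* `Pool.Agent.Helper32_PST.TWF`
* `Pool.Agent.Helper39_PST.TWZ`
* `Pool.Agent.Helper41_PST.CRE`
* `Pool.Agent.Helper41_PST.TWR`
* `Pool.Agent.Helper47_PST.TWC`
* `Pool.Agent.Helper4_PST.LCL`
* `Pool.Agent.Helper59_PST.CRS`
* `Pool.Agent.Helper69_PST.ETB`
* `Pool.Agent.Helper75_PST.VTR`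
* `Pool.Agent.Helper83_PST.CRG`
-/

set_option autoImplicit false

section -- Pool.Agent.PST.StmtsET3

/-!
# Squad PST, block ET (helper57), part 3: corners, the Dade twist, blocks, and the top statement

`EtcStmt` (TOP of ET): `H` in the class `Cl F φ α`, `V` elementary abelian of rank `r`, `φ(E)` free on `V - 1`, `Hs` a
deformation of `H` over `R` (an `F`-algebra) with the first order datum `Rgd`: then `∑ x k * y k = π ^ r • z` with a central
unit `z` of `Hs`, for every symmetric form of `Hs` with dual families `x`, `y`.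

Steps: corners (C1 - C3), the twist by `N = End(M)` (D1 - D7), the decomposition of `1` modulo the commutators (E1 - E5).
-/

open scoped BigOperators TensorProduct

noncomputable section

namespace Pool.Agent.PST.ET

open Pool.Agent.PFD.D2 (Cdv FibG)
open Pool.Agent.PFC (Fx BK cj bi tw PS Frm PMid PIn Ctf IA BQ Cor)
open Pool.Agent.PFC.B5c (bd)
open Pool.Agent.PSS (RF Cl Per Uni FxR BKR cw)
open Pool.Agent.PSS.S5 (Loi Eqi Pci CorV Ej Lc)

/-! ## C. Corners -/

/-- CRE: a corner of the deformation.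

Proof.  `Ys` = the submodule `{a | j a = a = a j}` of `D` (finite and free: `R` is a PID) with the multiplication of `D` and the
unit `j`; `κs` the inclusion.  `fY.q a = κ⁻¹ (q a)` (`CrR.ran`, `CrR.inj`).  Surjective: `κ y = q a`, take `j a j`.  Kernel: `q a = 0`
gives `a = π b`, `a = j a j = π (j b j)`. -/
def CreStmt : Prop :=
  ∀ (R F D H Y : Type) [CommRing R] [IsDomain R] [IsPrincipalIdealRing R] [Field F] (c : Cdv R F)
    [Ring D] [Algebra R D] [Module.Finite R D] [Module.Free R D] [Ring H] [Algebra F H]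
    (f : FibG D H c) [Ring Y] [Algebra F Y] (j : D) (κ : Y →ₗ[F] H), j * j = j →
    CrR (f.q j) κ →
    ∃ (Ys : Type) (_ : Ring Ys) (_ : Algebra R Ys) (_ : Module.Finite R Ys)
      (_ : Module.Free R Ys) (κs : Ys →ₗ[R] D) (fY : FibG Ys Y c), CrR j κs ∧
      ∀ a, κ (fY.q a) = f.q (κs a)

/-- CRS: the form and the Casimir element of a corner.

Proof.  `x' k = κs⁻¹ (j x k j)`, `y' k = κs⁻¹ (j y k j)`.  `e1`: for `a = κs b`: `∑ T (j y k j a) j x k j = j (∑ T (y k a) x k) j = a`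
(`T (j y j a) = T (y j a j) = T (y a)`).  `κs (∑ x' y') = ∑ j x k j y k j = j τ(j) j = j τ(j)` (`τ(j) = ∑ x k j y k` is central: TAU). -/
def CrsStmt : Prop :=
  ∀ (R D Y K : Type) [CommRing R] [Ring D] [Algebra R D] [Ring Y] [Algebra R Y] [Fintype K]
    (T : D →ₗ[R] R) (x y : K → D) (j : D) (κ : Y →ₗ[R] D), SFr R T x y → j * j = j →
    CrR j κ → ∃ x' y' : K → Y, SFr R (T.comp κ) x' y' ∧
      κ (∑ k, x' k * y' k) = j * ∑ k, x k * j * y k

/-- CRG: the first order datum of a corner.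

Proof.  `P = j`, `q P` commutes with the `α v`.  (pw) `w`, `G` for `v`: `w P - P w = π s` (`q` of it is `0`); multiply by `P` on both
sides: `P s P = 0` (TOR).  Claim: `(P w P) ^ n = P w ^ n P + π ^ 2 ..` for `n ≥ 1`: `(P w ^ n P)(P w P) = P w ^ n (P w) P =
P w ^ n (w P - π s) P = P w ^ (n+1) P - π P w ^ n s P`, and modulo `π` `P w ^ n s P` is `w ^ n P s P = 0` (`q w ^ n` commutes with `q P`).
So `(P w P) ^ ℓ = P w ^ ℓ P + π ^ 2 .. = P + π (P G P + π ..)`.  `w' = κs⁻¹ (P w P)`, `G'`: `κ (fY.q G') = q P q G q P`.  `κ⁻¹ (P h P)` maps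
`α u b - b α u` to `αY u b' - b' αY u` (`b' = κ⁻¹ (P b P)`, `P` commutes with `α u`), and `α u` to `αY u`.
(cm) `a`, `b`, `d`: `P a P b P = P a (b P - π s) P = P a b P - π P a s P`, `P s P = 0` and `q P` commutes with `q a = α u`, so `P a s P ∈ π D`:
`[P a P, P b P] = P [a, b] P + π ^ 2 .. = π (P d P + π ..)`. -/
def CrgStmt : Prop :=
  ∀ (ℓ r : ℕ) [Fact ℓ.Prime] (R F V D H Y Ys : Type) [CommRing R] [Field F] [CommGroup V]
    [Fintype V] [Ring D] [Algebra R D] [Module.Free R D] [Ring H] [Algebra F H] [Ring Y]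
    [Algebra F Y] [Ring Ys] [Algebra R Ys] (c : Cdv R F) (f : FibG D H c) (fY : FibG Ys Y c)
    (α : V →* H) (αY : V →* Y) (j : D) (κ : Y →ₗ[F] H) (κs : Ys →ₗ[R] D)
    (lam xx : Fin r → V → F) (t : Fin r → F), j * j = j → CrR (f.q j) κ → CrR j κs →
    (∀ a, κ (fY.q a) = f.q (κs a)) → (∀ v, α v * f.q j = f.q j * α v) →
    (∀ v, κ (αY v) = α v * f.q j) → Rgd ℓ c f α lam xx t → Rgd ℓ c fY αY lam xx t

/-! ## D. The twist -/

/-- NBK: `N(V) = F`: the elements of `V` are `1` modulo the Brauer kernel.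

Proof.  `BQ N (IA.one F V) ⊤`: `β`, `s`; `β (ι v) = 1` (`ABr.cov`), `β 1 = 1` (`cov` for `v = 1`); `QkeStmt` (`PFC.B5c`, proved:
`Helper18_PFC`, `H18.qke`): for `a` fixed by `V`, `β a = 0` iff `a ∈ BK`. -/
def NbkStmt : Prop :=
  ∀ (ℓ : ℕ) [Fact ℓ.Prime] (F V : Type) [Field F] [CharP F ℓ] [CommGroup V] [Fintype V]
    (N : IA F V), IsPGroup ℓ V → BQ N (IA.one F V) ⊤ → ∀ v, N.ι v - 1 ∈ BK (cj F N.ι) ⊤

/-- CO2: the core of part (0), for `W = ⊥`, with more output.

Proof.  Copy of `PFC.B5c.H43.core` (`Helper43_PFC/AsmB5.lean`; its hypotheses `Rows` are proved: see `Helper66_PFD/AsmPmz.lean`,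
`B5c.H43.rows` in `Helper43_PFC/AllB5.lean`): `hNt : BQ N (IA.one F V) ⊤` gives the fourth part (NBK), `H.ndm` gives
`(n : F) ≠ 0`; the last part is `FulStmt` (`Helper31_PFC/FUL.lean`, `H31.ful`) for `N ⊗ A`; its hypothesis about the centre:
`ZmxStmt` (see the use of both in `pmz` of `AsmB5.lean`). -/
def Co2Stmt : Prop :=
  ∀ (ℓ : ℕ) [Fact ℓ.Prime] (F V E A : Type) [Field F] [IsAlgClosed F] [CharP F ℓ] [CommGroup V]
    [Fintype V] [Group E] [Fintype E] [Ring A] [Algebra F A] [FiniteDimensional F A]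
    (φ : E →* MulAut V) (α : V →* A), Ctf ℓ φ ⊥ → PIn F φ ⊥ α →
    ∃ (N Y' : IA F V) (j : (N.tens (bd F α)).A) (κ : Y'.A →ₗ[F] (N.tens (bd F α)).A) (n : ℕ),
      0 < n ∧ (n : F) ≠ 0 ∧ Nonempty (N.A ≃ₐ[F] Matrix (Fin n) (Fin n) F) ∧
      (∀ v, N.ι v - 1 ∈ BK (cj F N.ι) ⊤) ∧ Cor (N.tens (bd F α)) Y' j κ ∧ j * j = j ∧
      1 - j ∈ BK (cj F (N.tens (bd F α)).ι) ⊤ ∧ PMid F φ ⊥ Y'.ι ∧
      (1 : (N.tens (bd F α)).A) ∈ Submodule.span F {x | ∃ a b, x = a * j * b}

/-- TWF: matrices over `Hs` are a deformation of `N ⊗ H`.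

Proof.  `g.q X = ∑_(a,b) e⁻¹(E_ab) ⊗ q (X a b)`: the composite of `Matrix (Fin n) (Fin n) Hs → Matrix (Fin n) (Fin n) H` (`RingHom.mapMatrix`)
and of the isomorphism `X ↦ ∑ e⁻¹(E_ab) ⊗ X a b` onto `N ⊗ H` (multiplicative: `E_ab E_cd = δ_bc E_ad`; bijective:
`matrixEquivTensor` or `Basis.baseChange`).  `sc`: `∑_a e⁻¹(E_aa) ⊗ κ r = κ r`.  Kernel: all `q (X a b) = 0`. -/
def TwfStmt : Prop :=
  ∀ (n : ℕ) (R F N H Hs : Type) [CommRing R] [Field F] [Ring N] [Algebra F N] [Ring H]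
    [Algebra F H] [Ring Hs] [Algebra R Hs] (c : Cdv R F) (f : FibG Hs H c)
    (e : N ≃ₐ[F] Matrix (Fin n) (Fin n) F),
    ∃ g : FibG (Matrix (Fin n) (Fin n) Hs) (N ⊗[F] H) c,
      ∀ X, g.q X = ∑ a, ∑ b, e.symm (Matrix.single a b 1) ⊗ₜ[F] f.q (X a b)

/-- TWR: the first order datum of the twist.

Proof.  `i : F → R` the structure map, `X_v` = the matrix `e (ι v)` with entries mapped to `Hs` (`v ↦ X_v` is multiplicative),
`s(w)` = the scalar matrix; `X_v` commutes with `s(w)`.  (pw) `w' = X_v s(w)`, `g.q w' = ι v ⊗ α v`; `w' ^ ℓ = X_v ^ ℓ s(w ^ ℓ) = 1 + π s(G)`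
(`v ^ ℓ = 1`).  `g.q s(G) = 1 ⊗ q G`.  (1) `1 ⊗ (α u b - b α u) = β u (ι u⁻¹ ⊗ b) - (ι u⁻¹ ⊗ b) β u ∈ IV`.  (2) `∑_u gv v u (ι u ⊗ α u - 1 ⊗ α u) ∈ IV`:
`ι u - 1` is a combination of traces `∑_(x ∈ S) ι x m ι x⁻¹`, `S` a transversal of `P' < ⊤`, `|S| = 0` in `F`, and
`(∑_x ι x m ι x⁻¹) ⊗ α u = ∑_x β x (m ⊗ α u) β x⁻¹` (`V` commutative) is `|S| (m ⊗ α u) = 0` modulo `IV`
(`y b y⁻¹ - b = y (b y⁻¹) - (b y⁻¹) y`, `y = β x`).
(cm) `a' = X_u s(a)`, `b' = X_v s(b)`: `[a', b'] = X_u X_v s([a, b]) = π X_(u v) s(d)`, `g.q = ι (u v) ⊗ q d`, and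
`ι z ⊗ (α u b - b α u) = β u (ι (z u⁻¹) ⊗ b) - (ι (z u⁻¹) ⊗ b) β u`. -/
def TwrStmt : Prop :=
  ∀ (ℓ r n : ℕ) [Fact ℓ.Prime] (R F V N H Hs : Type) [CommRing R] [Field F] [CharP F ℓ]
    [Algebra F R] [CommGroup V] [Fintype V] [Ring N] [Algebra F N] [Ring H] [Algebra F H]
    [Ring Hs] [Algebra R Hs] (c : Cdv R F) (f : FibG Hs H c)
    (e : N ≃ₐ[F] Matrix (Fin n) (Fin n) F) (g : FibG (Matrix (Fin n) (Fin n) Hs) (N ⊗[F] H) c)
    (ι : V →* N) (α : V →* H) (β : V →* N ⊗[F] H) (lam xx : Fin r → V → F) (t : Fin r → F),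
    (∀ a : F, c.κ (algebraMap F R a) = a) →
    (∀ X, g.q X = ∑ a, ∑ b, e.symm (Matrix.single a b 1) ⊗ₜ[F] f.q (X a b)) →
    (∀ v, β v = ι v ⊗ₜ[F] α v) → IsPGroup ℓ V → (∀ v : V, v ^ ℓ = 1) →
    (∀ v, ι v - 1 ∈ BK (cj F ι) ⊤) → Rgd ℓ c f α lam xx t → Rgd ℓ c g β lam xx t

/-- TWC: the form and the Casimir element of the matrix algebra.

Proof.  `T' X = ∑_a T (X a a)`, `X_(a,b,k) = E_ab x k`, `Y_(a,b,k) = E_ba y k` (`Matrix.single`): `T' (Y Z) = T (y k Z a b)`; the products
`X Y = E_aa x k y k`, the sum over `b` gives `n`. -/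
def TwcStmt : Prop :=
  ∀ (n : ℕ) (R D K : Type) [CommRing R] [Ring D] [Algebra R D] [Fintype K]
    (T : D →ₗ[R] R) (x y : K → D), SFr R T x y →
    ∃ (T' : Matrix (Fin n) (Fin n) D →ₗ[R] R) (L : Type) (_ : Fintype L)
      (X Y : L → Matrix (Fin n) (Fin n) D), SFr R T' X Y ∧
      ∑ l, X l * Y l = Matrix.scalar (Fin n) ((n : R) • ∑ k, x k * y k)

/-- TWZ: the centre of the matrix algebra.  Proof.  `z` commutes with the `E_ab`: it is a scalar matrix; the entry is
central, and a unit if `z` is (the inverse is central, so scalar). -/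
def TwzStmt : Prop :=
  ∀ (n : ℕ) (D : Type) [Ring D], 0 < n → ∀ z : Matrix (Fin n) (Fin n) D, IsUnit z →
    (∀ a, z * a = a * z) → ∃ z1 : D, IsUnit z1 ∧ (∀ a, z1 * a = a * z1) ∧
      z = Matrix.scalar (Fin n) z1

/-- BCM: the Brauer kernel of `V` consists of sums of commutators.

Proof.  `∑_(x ∈ S) x m x⁻¹` is `|S| m = 0` modulo `cmt` (`x m x⁻¹ - m = x (m x⁻¹) - (m x⁻¹) x`; `ℓ` divides `|S| = |V : P'|`, `P' < ⊤`). -/
def BcmStmt : Prop :=
  ∀ (ℓ : ℕ) [Fact ℓ.Prime] (F V H : Type) [Field F] [CharP F ℓ] [CommGroup V] [Finite V]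
    [Ring H] [Algebra F H] (α : V →* H), IsPGroup ℓ V → ∀ m ∈ BK (cj F α) ⊤, m ∈ cmt F H

/-- LCL: TOP of part D: the local class `Lc`.

Proof.  `Ctf ℓ φ ⊥` (`cmp` with `U = ⊤`; `free` by hypothesis), `PIn F φ ⊥ α`: `S5.LcpStmt` with `NN Q = ¬ Q ≤ ⊥` and `S5.LkcStmt`
(`Q ≠ ⊥`: an element which centralises `Q` is `1`).  CO2: `N`, `Y'`, `j`, `κ`, `n`.  `D = Matrix (Fin n) (Fin n) Hs`: TWF `g`, TWR `Rgd ℓ c g ..`,
TWC `T'`, `X`, `Y`.  ILF: `j~`; CRE: `Ys`, `κs`, `fY`; CRG; CRS; LOC (`E`, `PMid F φ ⊥ Y'.ι`): `∑ x' y' = π ^ r • u`, `u` a central unit.  So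
with `τ a = ∑ X l * a * Y l`: `j~ τ(j~) = π ^ r • κs u`.  `1 - j ∈ cmt F` (BCM), KLF for the idempotents `1`, `j~` and the integers
`1`, `-1`: `1 - j~ ∈ cmt R D`, so `τ(1) = τ(j~)` (TAU).  FUN (`b = 1`), FCZ (`b = 1`, `p = π ^ r`, `u, u'` = `κs u`, `κs u⁻¹`): `τ(1) =
π ^ r • z`, `z` a central unit.  TWC, TWZ: `n • ρ = π ^ r • z1`, `ρ = ∑ x k * y k` (entry `(0,0)`, `n > 0`); `n` is a unit of `R` (`κ n ≠ 0`). -/
def LclStmt : Prop :=
  ∀ (ℓ r : ℕ) [Fact ℓ.Prime] (R F V E H Hs K : Type) [CommRing R] [IsDomain R]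
    [IsPrincipalIdealRing R] [CharP R ℓ] [Field F] [IsAlgClosed F] [CharP F ℓ] [Algebra F R]
    [CommGroup V] [Fintype V] [Group E] [Finite E] [Ring H] [Algebra F H] [Ring Hs]
    [Algebra R Hs] [Module.Finite R Hs] [Module.Free R Hs] [Fintype K] (c : Cdv R F)
    (f : FibG Hs H c) (φ : E →* MulAut V) (α : V →* H) (lam xx : Fin r → V → F)
    (t : Fin r → F) (T : Hs →ₗ[R] R) (x y : K → Hs), (∀ a : F, c.κ (algebraMap F R a) = a) →
    IsPGroup ℓ V → Nontrivial V → (∀ v : V, v ^ ℓ = 1) → ¬ ℓ ∣ Nat.card E →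
    (∀ (e : E) (v : V), φ e v = v → e = 1 ∨ v = 1) → Lc F φ α → EDat F lam xx t →
    Rgd ℓ c f α lam xx t → SFr R T x y →
    ∃ z : Hs, IsUnit z ∧ (∀ a, z * a = a * z) ∧ ∑ k, x k * y k = c.π ^ r • z

/-! ## E. Blocks -/

/-- EQC: equivalent and conjugate idempotents have the same class and the same relative trace.

Proof.  `Eqi`: `p q = y j y'`, `q p = j'`, difference `p q - q p`; `y j y' - j = (y j) y' - y' (y j)`.  `rt (p q) = rt (q p)`: `S0.TrsStmt`.
`rt (y j y') = rt j`: the families `x k * y`, `y' * y k` are also a relative Frobenius system: `∑_(k,v) lam (α v⁻¹ y' y_k a) x_k y α v =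
∑ lam (y' α(s v)⁻¹ y_k a) x_k α(s v) y = (∑_w lam (α w⁻¹ y_k (a y')) x_k α w) y = a y' y = a`; `S0.IndStmt` (`e2` in the same way). -/
def EqcStmt : Prop :=
  ∀ (F V H K : Type) [Field F] [CommGroup V] [Fintype V] [Ring H] [Algebra F H] [Fintype K]
    (α : V →* H) (lam : H →ₗ[F] F) (x y : K → H) (s : MulAut V) (j j' y0 y0' : H),
    RF F α lam x y → y0 * y0' = 1 → y0' * y0 = 1 → (∀ u, y0 * α u = α (s u) * y0) →
    j ∈ FxR (cw F α) ⊤ → j' ∈ FxR (cw F α) ⊤ → Eqi F α (y0 * j * y0') j' →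
    j - j' ∈ cmt F H ∧ ∑ k, x k * j * y k = ∑ k, x k * j' * y k

/-- DCI: decomposition of an idempotent of the centraliser of `V`.

Proof.  Strong induction on `finrank {x ∈ C | b x = x, x b = x}`, `C = FxR (cw F α) ⊤` (the subalgebra `Cz F α ⊤`).  If `b ∈ BKR`, or
`Loi F α b`: one summand.  Otherwise `b ≠ 0`, `Loi.loc` fails: some `x ∈ C` with `b x b` neither nilpotent nor invertible: `S5.FitStmt`
(`S = C`, `j = b`): `b = j1 + (b - j1)`, both idempotents of `b C b`, nonzero, with smaller spaces. -/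
def DciStmt : Prop :=
  ∀ (F V H : Type) [Field F] [CommGroup V] [Ring H] [Algebra F H] [FiniteDimensional F H]
    (α : V →* H) (b : H), b ∈ FxR (cw F α) ⊤ → b * b = b →
    ∃ (n : ℕ) (j : Fin n → H), (∀ i, j i ∈ FxR (cw F α) ⊤ ∧ b * j i = j i) ∧
      (∀ i, Loi F α (j i) ∨ j i ∈ BKR (cw F α) ⊤) ∧ ∑ i, j i = b

/-- MLT: a block is a multiple of a local idempotent modulo the commutators.

Proof.  DCI for `b` (central, so in `C`): `b = ∑ j_i`.  The `j_i` with `Loi`: `S5.BorStmt` for `j`, `j_i` and EQC (`Uni`: units for `e`):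
`j - j_i ∈ cmt`, `rt j = rt j_i`.  The others are in `BKR ≤ cmt` (BCM), and `rt` of them is in `BKR` (`S5.RbkStmt`).  `m` = the number of
the first: `b - m • j ∈ cmt F H`.  If `m = 0` in `F`: `rt b = b ζ ∈ BKR`, `ζ = rt 1`, `u ζ = 1` (`Cl.rt`; `ζ` is central, so is `u`), `b = u (b ζ) ∈
BKR (cw F α) ⊤` (`S0.BkiStmt`), and `Cl.blk` for `Q = ⊥` gives `b ∈ BKR (cw F α) ⊥ = ⊥`, `b = 0`, a contradiction. -/
def MltStmt : Prop :=
  ∀ (ℓ : ℕ) [Fact ℓ.Prime] (F V E H : Type) [Field F] [CharP F ℓ] [CommGroup V] [Fintype V]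
    [Group E] [Finite E] [Ring H] [Algebra F H] (φ : E →* MulAut V) (α : V →* H),
    IsPGroup ℓ V → Cl F φ α → ∀ b j : H, Pci b → Loi F α j → b * j = j →
    ∃ m : ℕ, (m : F) ≠ 0 ∧ b - m • j ∈ cmt F H

/-- VTR: the case `V = 1`.

Proof.  `r = 0`: otherwise `x1` for `l = n` is `xx l 1 * lam l 1 = 0 ≠ 1` (`lam l 1 = 0`).  `Cl.rt`: `SFr F lam1 x1 y1` (`V` is trivial),
`u ∑ x1 y1 = 1`.  RDF: `lam0` with the dual families `q x`, `q y`.  There are `c1, c2 ∈ H` with `lam0 a = lam1 (c1 a)`, `lam1 a = lam0 (c2 a)`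
(`c1 = ∑ lam0 (x1 k) y1 k`), central, `c1 c2 = 1`.  `(x1, y1 c2)` are dual for `lam0`: `lam0 (y1 c2 a) = lam1 (c1 y1 c2 a) = lam1 (y1 a)`; CSI:
`∑ q x q y = (∑ x1 y1) c2`, a unit; UPR, TAU. -/
def VtrStmt : Prop :=
  ∀ (ℓ r : ℕ) [Fact ℓ.Prime] (R F V E H Hs K : Type) [CommRing R] [Field F] [CharP F ℓ]
    [CommGroup V] [Fintype V] [Group E] [Ring H] [Algebra F H] [Ring Hs] [Algebra R Hs]
    [Module.Finite R Hs] [Module.Free R Hs] [Fintype K] (c : Cdv R F) (_f : FibG Hs H c)
    (φ : E →* MulAut V) (α : V →* H) (lam xx : Fin r → V → F) (t : Fin r → F)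
    (T : Hs →ₗ[R] R) (x y : K → Hs), Subsingleton V → Cl F φ α → EDat F lam xx t →
    SFr R T x y → ∃ z : Hs, IsUnit z ∧ (∀ a, z * a = a * z) ∧ ∑ k, x k * y k = c.π ^ r • z

/-- ETB: one block.

Proof.  `S5.CoeStmt`: the corner `Y` of `H` at `j`; `S5.CljStmt`: `Lc F (Ej φ αY).subtype αY`.  ILF: `j~`; CRE: `Ys`, `κs`, `fY`; CRG; CRS;
LCL for the group `Ej φ αY` (finite; contained in `φ.range`, so its order divides `|E|`; free by hypothesis): `∑ x' y' = π ^ r • u`,
so `j~ τ(j~) = π ^ r • κs u`, `τ a = ∑ x k * a * y k`.  ILF: `b~`, an idempotent lift of `b`, central (CIL).  `(1 - b~) j~` is an idempotent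
in `π Hs` (`q` of it is `(1 - b) j = 0`), so it is in `π ^ n Hs` for all `n`: `b~ j~ = j~` (TOR).  FUN: `b~ ∈ span {s j~ t}`.
`τ(j~) b~ = τ(j~ b~) = τ(j~)`; FCZ. -/
def EtbStmt : Prop :=
  ∀ (ℓ r : ℕ) [Fact ℓ.Prime] (R F V E H Hs K : Type) [CommRing R] [IsDomain R]
    [IsPrincipalIdealRing R] [CharP R ℓ] [Field F] [IsAlgClosed F] [CharP F ℓ] [Algebra F R]
    [CommGroup V] [Fintype V] [Group E] [Finite E] [Ring H] [Algebra F H] [Ring Hs]
    [Algebra R Hs] [Module.Finite R Hs] [Module.Free R Hs] [Fintype K] (c : Cdv R F)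
    (f : FibG Hs H c) (φ : E →* MulAut V) (α : V →* H) (lam xx : Fin r → V → F)
    (t : Fin r → F) (T : Hs →ₗ[R] R) (x y : K → Hs) (b j : H),
    (∀ a : F, c.κ (algebraMap F R a) = a) →
    IsPGroup ℓ V → Nontrivial V → (∀ v : V, v ^ ℓ = 1) → ¬ ℓ ∣ Nat.card E →
    (∀ (e : E) (v : V), φ e v = v → v = 1 ∨ φ e = 1) → Cl F φ α → EDat F lam xx t →
    Rgd ℓ c f α lam xx t → SFr R T x y → Pci b → Loi F α j → b * j = j →
    b ∈ Submodule.span F {x : H | ∃ s t : H, x = s * j * t} →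
    ∃ (j' z z' : Hs), j' * j' = j' ∧ f.q j' = j ∧ (∀ a, z * a = a * z) ∧
      (∀ a, z' * a = a * z') ∧ f.q z * f.q z' = b ∧ f.q z * b = f.q z ∧
      ∑ k, x k * j' * y k = c.π ^ r • z

/-- ETC: TOP of the block ET.

Proof.  `V = 1`: VTR.  Otherwise `S5.PcxStmt`: `1 = ∑ b_i`.  `Cl.rt`, `S5.BptStmt`: `j_i` local, `b_i j_i = j_i`, `b_i = rt (j_i c_i j_i)`, which is in
the span of the `s j_i t`.  MLT: `m_i`.  So `1 - ∑ m_i • j_i ∈ cmt F H`.  ETB: `j'_i`, `z_i`, `z'_i`.  KLF (idempotents `1` and the `j'_i`,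
index type `Option (Fin n)`): `1 - ∑ m_i • j'_i ∈ cmt R Hs`, so by TAU `∑ x y = ∑ m_i • τ(j'_i) = π ^ r • z`, `z = ∑ m_i • z_i`, central.
Unit: `w = q z = ∑ m_i • u_i`, `u_i = q z_i`, `u_i = u_i b_i`; with `u'_i = q z'_i b_i` (`b_i` is central): `u_i u'_k = u_i b_i b_k q z'_k = 0`
for `i ≠ k`, `u_i u'_i = b_i`; so `w * ∑ (m_i)⁻¹ • u'_i = ∑ b_i = 1`, and `w` is central: `w` is a unit, `z` is a unit (UPR). -/
def EtcStmt : Prop :=
  ∀ (ℓ r : ℕ) [Fact ℓ.Prime] (R F V E H Hs K : Type) [CommRing R] [IsDomain R]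
    [IsPrincipalIdealRing R] [CharP R ℓ] [Field F] [IsAlgClosed F] [CharP F ℓ] [Algebra F R]
    [CommGroup V] [Fintype V] [Group E] [Finite E] [Ring H] [Algebra F H] [Ring Hs]
    [Algebra R Hs] [Module.Finite R Hs] [Module.Free R Hs] [Fintype K] (c : Cdv R F)
    (f : FibG Hs H c) (φ : E →* MulAut V) (α : V →* H) (lam xx : Fin r → V → F)
    (t : Fin r → F) (T : Hs →ₗ[R] R) (x y : K → Hs), (∀ a : F, c.κ (algebraMap F R a) = a) →
    IsPGroup ℓ V → (∀ v : V, v ^ ℓ = 1) → ¬ ℓ ∣ Nat.card E →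
    (∀ (e : E) (v : V), φ e v = v → v = 1 ∨ φ e = 1) → Cl F φ α → EDat F lam xx t →
    Rgd ℓ c f α lam xx t → SFr R T x y →
    ∃ z : Hs, IsUnit z ∧ (∀ a, z * a = a * z) ∧ ∑ k, x k * y k = c.π ^ r • z

end Pool.Agent.PST.ET
end
end -- Pool.Agent.PST.StmtsET3

section -- Pool.Agent.Helper19_PST.BCM

/-!
# Squad PST, block ET, row BCM: the Brauer kernel of `V` consists of sums of commutators
-/

open scoped BigOperators TensorProduct

noncomputable section

namespace Pool.Agent.PST.ET.H19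

open Pool.Agent.PFC (Fx BK cj bi IsTv)

theorem card_tv {H : Type} [Group H] [Finite H] (P' P : Subgroup H) (hle : P' ≤ P)
    (S : Finset H) (hS : IsTv P' P S) : S.card * Nat.card P' = Nat.card P := by
  classical
  have : Fintype H := Fintype.ofFinite H
  have hb : Function.Bijective (fun z : S × P' =>
      (⟨(z.1 : H) * (z.2 : H), P.mul_mem (hS.1 _ z.1.2) (hle z.2.2)⟩ : P)) := by
    constructor
    · rintro ⟨⟨s, hs⟩, ⟨q, hq⟩⟩ ⟨⟨s', hs'⟩, ⟨q', hq'⟩⟩ h
      simp only [Subtype.mk.injEq] at h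
      have hp : s * q ∈ P := P.mul_mem (hS.1 _ hs) (hle hq)
      obtain ⟨t, -, ht⟩ := hS.2 (s * q) hp
      have h1 : s = t := ht s ⟨hs, by simpa using hq⟩
      have h2 : s' = t := ht s' ⟨hs', by rw [h]; simpa using hq'⟩
      have h3 : s = s' := h1.trans h2.symm
      subst h3
      have h4 : q = q' := mul_left_cancel h
      subst h4
      rfl
    · intro p
      obtain ⟨s, ⟨hs, hs2⟩, -⟩ := hS.2 p p.2
      exact ⟨(⟨s, hs⟩, ⟨_, hs2⟩), Subtype.ext (by simp)⟩
  have h := Nat.card_congr (Equiv.ofBijective _ hb)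
  rw [Nat.card_prod, Nat.card_eq_fintype_card (α := S), Fintype.card_coe] at h
  exact h

theorem bcm : BcmStmt := by
  intro ℓ _ F V H _ _ _ _ _ _ α hV m hm
  refine Submodule.span_induction (p := fun x _ => x ∈ cmt F H) ?_ (Submodule.zero_mem _)
    (fun x y _ _ hx hy => Submodule.add_mem _ hx hy)
    (fun a x _ hx => Submodule.smul_mem _ a hx) hm
  rintro n ⟨P', S, m, hlt, hS, -, rfl⟩
  have hcm : ∀ x : V, cj F α x m - m ∈ cmt F H := by
    intro x
    refine Submodule.subset_span ⟨α x, m * α x⁻¹, ?_⟩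
    have h1 : cj F α x m = α x * (m * α x⁻¹) := rfl
    rw [h1, mul_assoc m, ← map_mul, inv_mul_cancel, map_one, mul_one]
  have hcard : (S.card : F) = 0 := by
    have hc := card_tv P' ⊤ hlt.le S hS
    obtain ⟨k, hk⟩ := (IsPGroup.iff_card).1 (hV.to_subgroup (⊤ : Subgroup V))
    have hdiv : S.card ∣ ℓ ^ k := ⟨_, by rw [← hk]; exact hc.symm⟩
    obtain ⟨j, -, hj⟩ := (Nat.dvd_prime_pow (Fact.out : ℓ.Prime)).1 hdiv
    rcases Nat.eq_zero_or_pos j with h0 | h0
    · exfalso
      rw [h0, pow_zero] at hj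
      rw [hj, one_mul] at hc
      exact hlt.ne (Subgroup.eq_of_le_of_card_ge hlt.le hc.ge)
    · rw [hj, Nat.cast_pow, CharP.cast_eq_zero, zero_pow h0.ne']
  have h2 : ∑ x ∈ S, cj F α x m = ∑ x ∈ S, (cj F α x m - m) := by
    rw [Finset.sum_sub_distrib, Finset.sum_const, ← Nat.cast_smul_eq_nsmul F, hcard, zero_smul,
      sub_zero]
  rw [h2]
  exact Submodule.sum_mem _ fun x _ => hcm x

end Pool.Agent.PST.ET.H19
end
end -- Pool.Agent.Helper19_PST.BCM

section -- Pool.Agent.Helper19_PST.DCI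

/-!
# Squad PST, block ET, row DCI: decomposition of an idempotent of the centraliser of `V`
-/

open scoped BigOperators TensorProduct

noncomputable section

namespace Pool.Agent.PST.ET.H19

open Pool.Agent.PSS (FxR BKR cw)
open Pool.Agent.PSS.S5 (Loi FitStmt)

section

variable {F V H : Type} [Field F] [CommGroup V] [Ring H] [Algebra F H] {α : V →* H}

theorem mem_fx {m : H} : m ∈ FxR (cw F α) ⊤ ↔ ∀ u, α u * m = m * α u := by
  have hcw : ∀ u : V, cw F α u m = α u * (m * α u⁻¹) := fun u => rfl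
  constructor
  · intro h u
    have h1 : cw F α u m = m := h u trivial
    rw [hcw] at h1
    calc α u * m = α u * (m * α u⁻¹) * α u := by
          rw [mul_assoc, mul_assoc, ← map_mul, inv_mul_cancel, map_one, mul_one]
      _ = m * α u := by rw [h1]
  · intro h u _
    rw [hcw, ← mul_assoc, h u, mul_assoc, ← map_mul, mul_inv_cancel, map_one, mul_one]

variable (F α) in
/-- the space of the idempotent `b` -/
def wsp (b : H) : Submodule F H where
  carrier := {x | x ∈ FxR (cw F α) ⊤ ∧ b * x = x ∧ x * b = x}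
  add_mem' := by
    rintro x y ⟨h1, h2, h3⟩ ⟨h4, h5, h6⟩
    exact ⟨Submodule.add_mem _ h1 h4, by rw [mul_add, h2, h5], by rw [add_mul, h3, h6]⟩
  zero_mem' := ⟨Submodule.zero_mem _, mul_zero _, zero_mul _⟩
  smul_mem' := by
    rintro a x ⟨h1, h2, h3⟩
    exact ⟨Submodule.smul_mem _ a h1, by rw [mul_smul_comm, h2], by rw [smul_mul_assoc, h3]⟩

theorem wsp_lt {b j : H} (hb : b ∈ FxR (cw F α) ⊤) (hbb : b * b = b) (hbj : b * j = j)
    (hjb : j * b = j) (hne : j ≠ b) : wsp F α j < wsp F α b := by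
  refine lt_of_le_of_ne ?_ ?_
  · rintro x ⟨h1, h2, h3⟩
    refine ⟨h1, ?_, ?_⟩
    · rw [← h2, ← mul_assoc, hbj]
    · rw [← h3, mul_assoc, hjb]
  · intro h
    have h1 : b ∈ wsp F α b := ⟨hb, hbb, hbb⟩
    rw [← h] at h1
    have h2 : j * b = b := h1.2.1
    exact hne (hjb.symm.trans h2)

end

theorem dci (hF : FitStmt) : DciStmt := by
  intro F V H _ _ _ _ _ α
  have key : ∀ (n : ℕ) (b : H), Module.finrank F (wsp F α b) = n → b ∈ FxR (cw F α) ⊤ →
      b * b = b → ∃ (n : ℕ) (j : Fin n → H), (∀ i, j i ∈ FxR (cw F α) ⊤ ∧ b * j i = j i) ∧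
        (∀ i, Loi F α (j i) ∨ j i ∈ BKR (cw F α) ⊤) ∧ ∑ i, j i = b := by
    intro n
    induction n using Nat.strong_induction_on with
    | _ n ih =>
    intro b hn hb hbb
    by_cases h0 : Loi F α b ∨ b ∈ BKR (cw F α) ⊤
    · exact ⟨1, fun _ => b, fun _ => ⟨hb, hbb⟩, fun _ => h0, by simp⟩
    · rw [not_or] at h0
      obtain ⟨hL, hB⟩ := h0
      have hloc : ∃ x ∈ FxR (cw F α) ⊤, ¬ IsNilpotent (b * x * b) ∧
          ¬ ∃ y ∈ FxR (cw F α) ⊤, b * x * b * (b * y * b) = b ∧ b * y * b * (b * x * b) = b := by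
        by_contra hcon
        push Not at hcon
        refine hL ⟨hb, hbb, hB, fun x hx => ?_⟩
        by_cases hnil : IsNilpotent (b * x * b)
        · exact Or.inl hnil
        · exact Or.inr (hcon x hx hnil)
      obtain ⟨x, hx, hnil, hinv⟩ := hloc
      have hmem : ∀ m : H, m ∈ Subalgebra.centralizer F (Set.range α) ↔
          m ∈ FxR (cw F α) ⊤ := by
        intro m
        rw [mem_fx, Subalgebra.mem_centralizer_iff]
        constructor
        · intro h u
          exact h (α u) ⟨u, rfl⟩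
        · rintro h _ ⟨u, rfl⟩
          exact h u
      obtain ⟨j1, hj1, hjj, hbj, hjb, hj0, hjne⟩ :=
        hF F H (Subalgebra.centralizer F (Set.range α)) b x ((hmem b).2 hb) ((hmem x).2 hx) hbb
          hnil (by
            rintro ⟨y, hy, h1, h2⟩
            exact hinv ⟨y, (hmem y).1 hy, h1, h2⟩)
      rw [hmem] at hj1
      have h2f : b - j1 ∈ FxR (cw F α) ⊤ := Submodule.sub_mem _ hb hj1
      have h2b : b * (b - j1) = b - j1 := by rw [mul_sub, hbb, hbj]
      have h2b' : (b - j1) * b = b - j1 := by rw [sub_mul, hbb, hjb]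
      have h2i : (b - j1) * (b - j1) = b - j1 := by
        rw [sub_mul, h2b, mul_sub, hjb, hjj, sub_self, sub_zero]
      have h2n : b - j1 ≠ b := by
        intro h
        exact hj0 (sub_eq_self.1 h)
      have l1 := Submodule.finrank_lt_finrank_of_lt (wsp_lt hb hbb hbj hjb hjne)
      have l2 := Submodule.finrank_lt_finrank_of_lt (wsp_lt hb hbb h2b h2b' h2n)
      rw [hn] at l1 l2
      obtain ⟨n1, f1, ha1, hc1, hs1⟩ := ih _ l1 j1 rfl hj1 hjj
      obtain ⟨n2, f2, ha2, hc2, hs2⟩ := ih _ l2 (b - j1) rfl h2f h2i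
      refine ⟨n1 + n2, Fin.append f1 f2, ?_, ?_, ?_⟩
      · intro i
        refine Fin.addCases (fun i => ?_) (fun i => ?_) i
        · rw [Fin.append_left]
          refine ⟨(ha1 i).1, ?_⟩
          rw [← (ha1 i).2, ← mul_assoc, hbj]
        · rw [Fin.append_right]
          refine ⟨(ha2 i).1, ?_⟩
          rw [← (ha2 i).2, ← mul_assoc, h2b]
      · intro i
        refine Fin.addCases (fun i => ?_) (fun i => ?_) i
        · rw [Fin.append_left]
          exact hc1 i
        · rw [Fin.append_right]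
          exact hc2 i
      · rw [Fin.sum_univ_add]
        simp only [Fin.append_left, Fin.append_right]
        rw [hs1, hs2]
        abel
  intro b hb hbb
  exact key _ b rfl hb hbb

end Pool.Agent.PST.ET.H19
end
end -- Pool.Agent.Helper19_PST.DCI

section -- Pool.Agent.Helper31_PST.ETC

/-!
# Squad PST, block ET, row ETC: the top statement
-/

open scoped BigOperators TensorProduct

noncomputable section

namespace Pool.Agent.PST.ET.H31

open Pool.Agent.PFD.D2 (Cdv FibG)
open Pool.Agent.PSS (RF Cl Per Uni FxR BKR cw)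
open Pool.Agent.PSS.S5 (Loi Eqi Pci PcxStmt BptStmt)

/-- ETC -/
theorem etc (pcx : PcxStmt) (bpt : BptStmt) (upr : UprStmt) (klf : KlfStmt) (tau : TauStmt)
    (mlt : MltStmt) (vtr : VtrStmt) (etb : EtbStmt) : EtcStmt := by
  intro ℓ r _ R F V E H Hs K _ _ _ _ _ _ _ _ _ _ _ _ _ _ _ _ _ _ _ c f φ α lam xx t T x y
    hk hV hel hE hfr hCl hED hR hS
  rcases subsingleton_or_nontrivial V with hs | hn
  · exact vtr ℓ r R F V E H Hs K c f φ α lam xx t T x y hs hCl hED hS
  haveI := hCl.fin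
  obtain ⟨n, b, hb, hbo, hb1⟩ := pcx F H
  obtain ⟨lam1, K1, _, x1, y1, hRF, u, hu⟩ := hCl.rt
  have h1 : ∀ i, ∃ (j : H) (m : ℕ) (j' z z' : Hs), (m : F) ≠ 0 ∧ b i - m • j ∈ cmt F H ∧
      j' * j' = j' ∧ f.q j' = j ∧ (∀ a, z * a = a * z) ∧ (∀ a, z' * a = a * z') ∧
      f.q z * f.q z' = b i ∧ f.q z * b i = f.q z ∧ ∑ k, x k * j' * y k = c.π ^ r • z := by
    intro i
    obtain ⟨j, cc, hj, hbj, hcc, hsum⟩ :=
      bpt ℓ F V E H K1 φ α lam1 x1 y1 u hV hCl hRF hu (b i) (hb i)
    obtain ⟨m, hm, hmj⟩ := mlt ℓ F V E H φ α hV hCl (b i) j (hb i) hj hbj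
    have hspan : b i ∈ Submodule.span F {x : H | ∃ s t : H, x = s * j * t} := by
      rw [← hsum]
      refine Submodule.sum_mem _ fun k _ => Submodule.subset_span ⟨x1 k, cc * j * y1 k, ?_⟩
      simp only [mul_assoc]
    obtain ⟨j', z, z', h1, h2, h3, h4, h5, h6, h7⟩ := etb ℓ r R F V E H Hs K c f φ α lam xx t T x y
      (b i) j hk hV hn hel hE hfr hCl hED hR hS (hb i) hj hbj hspan
    exact ⟨j, m, j', z, z', hm, hmj, h1, h2, h3, h4, h5, h6, h7⟩
  choose j m j' z z' hm hmj hj1 hj2 hz hz' hzz hzb hsum using h1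
  have hk1 : ∑ i : Option (Fin n), (Option.elim i (1 : ℤ) fun i => -(m i : ℤ)) •
      f.q (Option.elim i (1 : Hs) j') ∈ cmt F H := by
    rw [Fintype.sum_option]
    simp only [Option.elim, one_smul, map_one]
    have h2 : (1 : H) + ∑ i, (-(m i : ℤ)) • f.q (j' i) = ∑ i, (b i - m i • j i) := by
      rw [Finset.sum_sub_distrib, hb1, sub_eq_add_neg, ← Finset.sum_neg_distrib]
      congr 1
      refine Finset.sum_congr rfl fun i _ => ?_
      rw [hj2, neg_smul, natCast_zsmul]
    rw [h2]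
    exact Submodule.sum_mem _ fun i _ => hmj i
  have hk2 := klf ℓ R F Hs H (Option (Fin n)) c f (fun i => Option.elim i (1 : Hs) j')
    (fun i => Option.elim i (1 : ℤ) fun i => -(m i : ℤ))
    (by
      rintro (_ | i)
      · exact mul_one 1
      · exact hj1 i) hk1
  rw [Fintype.sum_option] at hk2
  simp only [Option.elim, one_smul] at hk2
  obtain ⟨-, -, htau⟩ := tau R Hs K T x y hS
  have h3 := htau _ hk2
  have h4 : ∑ k, x k * y k = c.π ^ r • ∑ i, m i • z i := by
    have h5 : ∑ k, x k * (1 + ∑ i, (-(m i : ℤ)) • j' i) * y k =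
        ∑ k, x k * y k - ∑ i, m i • ∑ k, x k * j' i * y k := by
      simp only [mul_add, add_mul, mul_one, Finset.sum_add_distrib, Finset.mul_sum,
        Finset.sum_mul, mul_smul_comm, smul_mul_assoc]
      rw [sub_eq_add_neg, ← Finset.sum_neg_distrib, Finset.sum_comm]
      congr 1
      refine Finset.sum_congr rfl fun i _ => ?_
      rw [Finset.smul_sum, ← Finset.sum_neg_distrib]
      refine Finset.sum_congr rfl fun k _ => ?_
      rw [neg_smul, natCast_zsmul]
    rw [h5, sub_eq_zero] at h3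
    rw [h3, Finset.smul_sum]
    refine Finset.sum_congr rfl fun i _ => ?_
    rw [hsum, smul_comm]
  have hcz : ∀ a, (∑ i, m i • z i) * a = a * ∑ i, m i • z i := by
    intro a
    rw [Finset.sum_mul, Finset.mul_sum]
    refine Finset.sum_congr rfl fun i _ => ?_
    rw [smul_mul_assoc, mul_smul_comm, hz]
  refine ⟨∑ i, m i • z i, ?_, hcz, h4⟩
  obtain ⟨Y, hY⟩ := f.surj (∑ i, ((m i : F))⁻¹ • (f.q (z' i) * b i))
  have hmul : f.q (∑ i, m i • z i) * f.q Y = 1 := by
    rw [hY, map_sum, Finset.sum_mul_sum]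
    have h6 : ∀ i ∈ Finset.univ, ∑ k, f.q (m i • z i) * ((m k : F)⁻¹ • (f.q (z' k) * b k)) =
        b i := by
      intro i _
      rw [Finset.sum_eq_single i]
      · rw [map_nsmul, mul_smul_comm, smul_mul_assoc, ← mul_assoc, hzz, (hb i).id,
          ← Nat.cast_smul_eq_nsmul F, smul_smul, inv_mul_cancel₀ (hm i), one_smul]
      · intro k _ hki
        have h7 : f.q (z i) * (f.q (z' k) * b k) = 0 := by
          rw [← hzb i, mul_assoc, ← mul_assoc (b i), (hb i).cen (f.q (z' k)), mul_assoc,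
            hbo i k hki.symm, mul_zero, mul_zero]
        rw [map_nsmul, smul_mul_assoc, mul_smul_comm, h7, smul_zero, smul_zero]
      · intro h
        exact absurd (Finset.mem_univ _) h
    rw [Finset.sum_congr rfl h6, hb1]
  obtain ⟨d, hd⟩ := f.ker ((∑ i, m i • z i) * Y - 1)
    (by rw [map_sub, map_mul, hmul, map_one, sub_self])
  have h5 : (∑ i, m i • z i) * Y = 1 + c.π • d := by
    rw [← hd]
    abel
  have h6 : Y * (∑ i, m i • z i) = 1 + c.π • d := by
    rw [← hcz, h5]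
  exact upr R F Hs c _ Y d d h5 h6

end Pool.Agent.PST.ET.H31
end
end -- Pool.Agent.Helper31_PST.ETC

section -- Pool.Agent.Helper32_PST.TWF

/-!
# TWF: matrices over `Hs` are a deformation of `N ⊗ H`
-/

set_option autoImplicit false

open scoped BigOperators TensorProduct

noncomputable section

namespace Pool.Agent.PST.ET.H32

open Pool.Agent.PFD.D2 (Cdv FibG)

/-- the isomorphism of `Mat_n(H)` onto `N ⊗ H` -/
def twTh (n : ℕ) (F N H : Type) [Field F] [Ring N] [Algebra F N] [Ring H] [Algebra F H]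
    (e : N ≃ₐ[F] Matrix (Fin n) (Fin n) F) : Matrix (Fin n) (Fin n) H ≃ₐ[F] N ⊗[F] H :=
  ((matrixEquivTensor (Fin n) F H).trans
    (Algebra.TensorProduct.comm F H (Matrix (Fin n) (Fin n) F))).trans
    (Algebra.TensorProduct.congr e.symm AlgEquiv.refl)

theorem twTh_apply (n : ℕ) (F N H : Type) [Field F] [Ring N] [Algebra F N] [Ring H] [Algebra F H]
    (e : N ≃ₐ[F] Matrix (Fin n) (Fin n) F) (X : Matrix (Fin n) (Fin n) H) :
    twTh n F N H e X = ∑ a, ∑ b, e.symm (Matrix.single a b 1) ⊗ₜ[F] X a b := by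
  rw [twTh, AlgEquiv.trans_apply, AlgEquiv.trans_apply, matrixEquivTensor_apply, map_sum, map_sum,
    Fintype.sum_prod_type]
  refine Finset.sum_congr rfl fun a _ => Finset.sum_congr rfl fun b _ => ?_
  rw [Algebra.TensorProduct.comm_tmul, Algebra.TensorProduct.congr_apply,
    Algebra.TensorProduct.map_tmul]
  rfl

theorem twf : TwfStmt := by
  intro n R F N H Hs _ _ _ _ _ _ _ _ c f e
  have hsc : ∀ r : R, f.q.mapMatrix (algebraMap R (Matrix (Fin n) (Fin n) Hs) r) =
      algebraMap F (Matrix (Fin n) (Fin n) H) (c.κ r) := by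
    intro r
    ext a b
    rw [RingHom.mapMatrix_apply, Matrix.map_apply, Matrix.algebraMap_matrix_apply,
      Matrix.algebraMap_matrix_apply]
    split_ifs with h
    · exact f.sc r
    · exact map_zero f.q
  refine ⟨{ q := ((twTh n F N H e : Matrix (Fin n) (Fin n) H →+* N ⊗[F] H)).comp f.q.mapMatrix
            sc := ?_
            surj := ?_
            ker := ?_ }, ?_⟩
  · intro r
    rw [RingHom.comp_apply, hsc]
    exact (twTh n F N H e).commutes (c.κ r)
  · intro z
    obtain ⟨Y, hY⟩ := (twTh n F N H e).surjective z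
    choose g hg using f.surj
    refine ⟨Matrix.of fun a b => g (Y a b), ?_⟩
    rw [RingHom.comp_apply]
    have h1 : f.q.mapMatrix (Matrix.of fun a b => g (Y a b)) = Y := by
      ext a b
      rw [RingHom.mapMatrix_apply, Matrix.map_apply]
      exact hg _
    rw [h1]
    exact hY
  · intro X hX
    rw [RingHom.comp_apply] at hX
    have h1 : f.q.mapMatrix X = 0 := by
      have h2 : twTh n F N H e (f.q.mapMatrix X) = 0 := hX
      exact (map_eq_zero_iff _ (twTh n F N H e).injective).1 h2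
    have h3 : ∀ a b, ∃ y, X a b = c.π • y := by
      intro a b
      refine f.ker _ ?_
      have h4 := congrFun (congrFun h1 a) b
      rw [RingHom.mapMatrix_apply, Matrix.map_apply] at h4
      exact h4
    choose g hg using h3
    refine ⟨Matrix.of fun a b => g a b, ?_⟩
    ext a b
    rw [Matrix.smul_apply]
    exact hg a b
  · intro X
    exact twTh_apply n F N H e (f.q.mapMatrix X)

end Pool.Agent.PST.ET.H32
end
end -- Pool.Agent.Helper32_PST.TWF

section -- Pool.Agent.Helper39_PST.TWZ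

/-!
# Squad PST, block ET, row TWZ (helper39): the centre of the matrix algebra
-/

noncomputable section

namespace Pool.Agent.PST.ET.H39

theorem scal {n : ℕ} {D : Type} [Ring D] (z : Matrix (Fin n) (Fin n) D)
    (hz : ∀ a, z * a = a * z) : ∃ z1 : D, Matrix.scalar (Fin n) z1 = z := by
  have h : z ∈ Set.range (Matrix.scalar (Fin n)) :=
    Matrix.mem_range_scalar_of_commute_single (fun i j _ => (hz _).symm)
  exact h

theorem twz : TwzStmt := by
  intro n D _ hn z hu hz
  have : Nonempty (Fin n) := ⟨⟨0, hn⟩⟩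
  obtain ⟨z1, rfl⟩ := scal z hz
  obtain ⟨w, hw1, hw2⟩ := isUnit_iff_exists.1 hu
  have hwc : ∀ a, w * a = a * w := by
    intro a
    calc w * a = w * a * (Matrix.scalar (Fin n) z1 * w) := by rw [hw1, mul_one]
      _ = w * (a * Matrix.scalar (Fin n) z1) * w := by simp only [mul_assoc]
      _ = w * (Matrix.scalar (Fin n) z1 * a) * w := by rw [hz a]
      _ = (w * Matrix.scalar (Fin n) z1) * a * w := by simp only [mul_assoc]
      _ = a * w := by rw [hw2, one_mul]
  obtain ⟨w1, rfl⟩ := scal w hwc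
  refine ⟨z1, isUnit_iff_exists.2 ⟨w1, ?_, ?_⟩, fun a => ?_, rfl⟩
  · refine Matrix.scalar_inj.1 (?_ : Matrix.scalar (Fin n) (z1 * w1) = Matrix.scalar (Fin n) 1)
    rw [map_mul, map_one, hw1]
  · refine Matrix.scalar_inj.1 (?_ : Matrix.scalar (Fin n) (w1 * z1) = Matrix.scalar (Fin n) 1)
    rw [map_mul, map_one, hw2]
  · refine Matrix.scalar_inj.1 (?_ : Matrix.scalar (Fin n) (z1 * a) =
      Matrix.scalar (Fin n) (a * z1))
    rw [map_mul, map_mul, hz]

end Pool.Agent.PST.ET.H39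
end
end -- Pool.Agent.Helper39_PST.TWZ

section -- Pool.Agent.Helper41_PST.CRE

/-! Squad PST, block ET, row CRE: a corner of the deformation. -/

open scoped BigOperators TensorProduct

noncomputable section

namespace Pool.Agent.PST.ET.H41

open Pool.Agent.PFD.D2 (Cdv FibG)

section

variable (R : Type) {D : Type} [CommRing R] [Ring D] [Algebra R D]

/-- the corner `j D j` -/
def crn (j : D) : Submodule R D where
  carrier := {a | j * a = a ∧ a * j = a}
  add_mem' := by
    rintro a b ⟨h1, h2⟩ ⟨h3, h4⟩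
    exact ⟨by rw [mul_add, h1, h3], by rw [add_mul, h2, h4]⟩
  zero_mem' := ⟨mul_zero _, zero_mul _⟩
  smul_mem' := by
    rintro r a ⟨h1, h2⟩
    exact ⟨by rw [mul_smul_comm, h1], by rw [smul_mul_assoc, h2]⟩

variable {R}

/-- the ring structure of the corner -/
@[reducible] def crnRing (j : D) (hj : j * j = j) : Ring (crn R j) :=
  { (inferInstance : AddCommGroup (crn R j)) with
    mul := fun a b => ⟨(a : D) * b, by rw [← mul_assoc, a.2.1], by rw [mul_assoc, b.2.2]⟩
    one := ⟨j, hj, hj⟩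
    left_distrib := fun a b c => Subtype.ext (mul_add (a : D) b c)
    right_distrib := fun a b c => Subtype.ext (add_mul (a : D) b c)
    zero_mul := fun a => Subtype.ext (zero_mul (a : D))
    mul_zero := fun a => Subtype.ext (mul_zero (a : D))
    mul_assoc := fun a b c => Subtype.ext (mul_assoc (a : D) b c)
    one_mul := fun a => Subtype.ext a.2.1
    mul_one := fun a => Subtype.ext a.2.2 }

end

theorem cre : CreStmt := by
  intro R F D H Y _ _ _ _ c _ _ _ _ _ _ f _ _ j κ hj hκ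
  let ir : Ring (crn R j) := crnRing j hj
  let ia : Algebra R (crn R j) := Algebra.ofModule
    (fun r a b => Subtype.ext (smul_mul_assoc r (a : D) (b : D)))
    (fun r a b => Subtype.ext (mul_smul_comm r (a : D) (b : D)))
  have hκπ : c.κ c.π = 0 := (c.ker _).2 ⟨1, (mul_one _).symm⟩
  have hqs : ∀ (r : R) (a : D), f.q (r • a) = c.κ r • f.q a := by
    intro r a
    rw [Algebra.smul_def, map_mul, f.sc, ← Algebra.smul_def]
  have hex : ∀ a : crn R j, ∃ y, κ y = f.q a := fun a =>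
    hκ.ran _ (by rw [← map_mul, a.2.1]) (by rw [← map_mul, a.2.2])
  let g : crn R j → Y := fun a => (hex a).choose
  have hg : ∀ a, κ (g a) = f.q a := fun a => (hex a).choose_spec
  let q : crn R j →+* Y :=
    { toFun := g
      map_one' := hκ.inj (by rw [hg, hκ.one]; rfl)
      map_mul' := fun a b => hκ.inj (by
        rw [hg, hκ.mul, hg, hg, ← map_mul]
        rfl)
      map_zero' := hκ.inj (by rw [hg, map_zero]; exact map_zero f.q)
      map_add' := fun a b => hκ.inj (by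
        rw [hg, map_add, hg, hg, ← map_add]
        rfl) }
  have hq : ∀ a : crn R j, κ (q a) = f.q a := hg
  have hfin : Module.Finite R (crn R j) := by
    have : IsNoetherian R D := isNoetherian_of_isNoetherianRing_of_finite R D
    exact Module.IsNoetherian.finite R (crn R j)
  have hfree : Module.Free R (crn R j) := by
    exact Module.free_of_finite_type_torsion_free'
  refine ⟨crn R j, ir, ia, hfin, hfree, (crn R j).subtype, ⟨q, ?_, ?_, ?_⟩, ?_, ?_⟩
  · intro r
    refine hκ.inj ?_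
    rw [hq]
    have h1 : ((algebraMap R (crn R j) r : crn R j) : D) = r • j := by
      rw [Algebra.algebraMap_eq_smul_one]
      rfl
    rw [h1, hqs, Algebra.algebraMap_eq_smul_one, map_smul, hκ.one]
  · intro y
    obtain ⟨a, ha⟩ := f.surj (κ y)
    refine ⟨⟨j * a * j, ?_, ?_⟩, hκ.inj ?_⟩
    · rw [← mul_assoc, ← mul_assoc, hj]
    · rw [mul_assoc, hj]
    · rw [hq]
      show f.q (j * a * j) = κ y
      rw [map_mul, map_mul, ha, ← hκ.one, ← hκ.mul, ← hκ.mul, one_mul, mul_one]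
  · intro x hx
    obtain ⟨b, hb⟩ := f.ker (x : D) (by rw [← hq, hx, map_zero])
    refine ⟨⟨j * b * j, ?_, ?_⟩, Subtype.ext ?_⟩
    · rw [← mul_assoc, ← mul_assoc, hj]
    · rw [mul_assoc, hj]
    · show (x : D) = c.π • (j * b * j)
      have h1 : (x : D) = j * x * j := by rw [x.2.1, x.2.2]
      rw [h1, hb, mul_smul_comm, smul_mul_assoc]
  · exact ⟨Subtype.val_injective, fun _ _ => rfl, rfl, fun a h1 h2 => ⟨⟨a, h1, h2⟩, rfl⟩⟩
  · exact hq

end Pool.Agent.PST.ET.H41
end
end -- Pool.Agent.Helper41_PST.CRE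

section -- Pool.Agent.Helper41_PST.TWR

/-! Squad PST, block ET, row TWR: the first order datum of the twist. -/

open scoped BigOperators TensorProduct

noncomputable section

namespace Pool.Agent.PST.ET.H41

open Pool.Agent.PFD.D2 (Cdv FibG)
open Pool.Agent.PFC (Fx BK cj bi IsTv)

/-- the number of elements of a transversal is divisible by `ℓ` -/
lemma twr_card {ℓ : ℕ} (hℓ : ℓ.Prime) {V : Type} [CommGroup V] [Finite V] (hp : IsPGroup ℓ V)
    {P' : Subgroup V} {S : Finset V} (hlt : P' < ⊤) (hS : IsTv P' ⊤ S) : ℓ ∣ S.card := by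
  have h1 : S.card = P'.index := by
    have hb : Function.Bijective (fun s : S => ((s : V) : V ⧸ P')) := by
      constructor
      · intro s s' h
        have h2 : (s : V)⁻¹ * s' ∈ P' := QuotientGroup.eq.1 h
        have h3 := (hS.2 (s' : V) (Subgroup.mem_top _)).unique ⟨s.2, h2⟩
          ⟨s'.2, by rw [inv_mul_cancel]; exact P'.one_mem⟩
        exact Subtype.ext h3
      · intro p
        induction p using QuotientGroup.induction_on with
        | H p =>
          obtain ⟨s, ⟨hs, hs'⟩, -⟩ := hS.2 p (Subgroup.mem_top _)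
          exact ⟨⟨s, hs⟩, QuotientGroup.eq.2 hs'⟩
    rw [Subgroup.index, ← Nat.card_congr (Equiv.ofBijective _ hb), Nat.card_eq_fintype_card,
      Fintype.card_coe]
  rw [h1]
  have : Fact ℓ.Prime := ⟨hℓ⟩
  obtain ⟨k, hk⟩ := IsPGroup.iff_card.1 hp
  obtain ⟨m, -, hm⟩ := (Nat.dvd_prime_pow hℓ).1 (hk ▸ P'.index_dvd_card)
  rcases m with _ | m
  · rw [pow_zero, Subgroup.index_eq_one] at hm
    exact absurd hm hlt.ne
  · rw [hm, pow_succ]
    exact dvd_mul_left _ _

theorem twr : TwrStmt := by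
  intro ℓ r n hℓ R F V N H Hs _ _ _ _ _ _ _ _ _ _ _ _ c f e g ι α β lam xx t hκ hgq hβ hp hvℓ hBK hR
  obtain ⟨hpw, hcm⟩ := hR
  -- the matrices
  let mx : Matrix (Fin n) (Fin n) F →+* Matrix (Fin n) (Fin n) Hs :=
    ((algebraMap R Hs).comp (algebraMap F R)).mapMatrix
  let s : Hs →+* Matrix (Fin n) (Fin n) Hs := Matrix.scalar (Fin n)
  have hmx : ∀ m a b, mx m a b = algebraMap R Hs (algebraMap F R (m a b)) := fun m a b => rfl
  have hms : ∀ m w a b, (mx m * s w) a b = algebraMap R Hs (algebraMap F R (m a b)) * w := by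
    intro m w a b
    show (mx m * Matrix.diagonal (fun _ => w) : Matrix (Fin n) (Fin n) Hs) a b = _
    rw [Matrix.mul_diagonal, hmx]
  have hcomm : ∀ m w, Commute (mx m) (s w) := by
    intro m w
    ext a b
    rw [hms]
    show _ = (Matrix.diagonal (fun _ => w) * mx m : Matrix (Fin n) (Fin n) Hs) a b
    rw [Matrix.diagonal_mul, hmx, Algebra.commutes]
  have hsp : ∀ (ρ : R) (w : Hs), s (ρ • w) = ρ • s w := by
    intro ρ w
    show Matrix.diagonal (fun _ => ρ • w) = ρ • Matrix.diagonal (fun _ => w)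
    rw [← Matrix.diagonal_smul]
    rfl
  have hgm : ∀ m w, g.q (mx m * s w) = e.symm m ⊗ₜ[F] f.q w := by
    intro m w
    rw [hgq]
    have h1 : ∀ a b, e.symm (Matrix.single a b 1) ⊗ₜ[F] f.q ((mx m * s w) a b) =
        e.symm (Matrix.single a b (m a b)) ⊗ₜ[F] f.q w := by
      intro a b
      rw [hms, map_mul, f.sc, hκ, ← Algebra.smul_def, TensorProduct.tmul_smul,
        TensorProduct.smul_tmul', ← map_smul, Matrix.smul_single, smul_eq_mul, mul_one]
    simp only [h1]
    simp only [← TensorProduct.sum_tmul, ← map_sum]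
    rw [← Matrix.matrix_eq_sum_single]
  have hgv : ∀ v w, g.q (mx (e (ι v)) * s w) = ι v ⊗ₜ[F] f.q w := by
    intro v w
    rw [hgm, AlgEquiv.symm_apply_apply]
  have hgs : ∀ w, g.q (s w) = 1 ⊗ₜ[F] f.q w := by
    intro w
    have := hgv 1 w
    rwa [map_one, map_one, map_one, one_mul] at this
  have hX : ∀ u v, mx (e (ι u)) * mx (e (ι v)) = mx (e (ι (u * v))) := by
    intro u v
    rw [← map_mul, ← map_mul, ← map_mul]
  -- the commutators
  have hI1 : ∀ (z : V) (x : H), x ∈ IV F α → ι z ⊗ₜ[F] x ∈ IV F β := by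
    intro z x hx
    unfold IV at hx
    induction hx using Submodule.span_induction with
    | mem x hx =>
      obtain ⟨u, b, rfl⟩ := hx
      refine Submodule.subset_span ⟨u, ι (z * u⁻¹) ⊗ₜ[F] b, ?_⟩
      rw [hβ, Algebra.TensorProduct.tmul_mul_tmul, Algebra.TensorProduct.tmul_mul_tmul, ← map_mul,
        ← map_mul, inv_mul_cancel_right, mul_comm u, inv_mul_cancel_right, TensorProduct.tmul_sub]
    | zero => rw [TensorProduct.tmul_zero]; exact Submodule.zero_mem _
    | add x y _ _ hx hy => rw [TensorProduct.tmul_add]; exact Submodule.add_mem _ hx hy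
    | smul a x _ hx => rw [TensorProduct.tmul_smul]; exact Submodule.smul_mem _ a hx
  have hI2 : ∀ (u : V) (y : N), y ∈ BK (cj F ι) ⊤ → y ⊗ₜ[F] α u ∈ IV F β := by
    intro u y hy
    unfold BK at hy
    induction hy using Submodule.span_induction with
    | mem y hy =>
      obtain ⟨P', S, m, hlt, hS, -, rfl⟩ := hy
      have hcj : ∀ x, cj F ι x m = ι x * m * ι x⁻¹ := by
        intro x
        show bi F ι (x, x) m = _
        simp only [bi, MonoidHom.coe_mk, OneHom.coe_mk, LinearMap.comp_apply,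
          LinearMap.mulRight_apply, LinearMap.mulLeft_apply, mul_assoc]
      have h1 : ∀ x, (cj F ι x m) ⊗ₜ[F] α u - m ⊗ₜ[F] α u ∈ IV F β := by
        intro x
        refine Submodule.subset_span ⟨x, (m ⊗ₜ[F] α u) * β x⁻¹, ?_⟩
        rw [mul_assoc, ← map_mul, inv_mul_cancel, map_one, mul_one, hβ, hβ,
          Algebra.TensorProduct.tmul_mul_tmul, Algebra.TensorProduct.tmul_mul_tmul, ← map_mul,
          ← map_mul, mul_comm u, mul_inv_cancel_left, hcj, mul_assoc]
      have hF : (S.card : F) = 0 := by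
        rw [CharP.cast_eq_zero_iff F ℓ]
        exact twr_card hℓ.out hp hlt hS
      have h2 : ∑ x ∈ S, m ⊗ₜ[F] α u = (0 : N ⊗[F] H) := by
        rw [Finset.sum_const, ← Nat.cast_smul_eq_nsmul F, hF, zero_smul]
      rw [TensorProduct.sum_tmul, ← sub_zero (∑ x ∈ S, _), ← h2, ← Finset.sum_sub_distrib]
      exact Submodule.sum_mem _ fun x _ => h1 x
    | zero => rw [TensorProduct.zero_tmul]; exact Submodule.zero_mem _
    | add x y _ _ hx hy => rw [TensorProduct.add_tmul]; exact Submodule.add_mem _ hx hy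
    | smul a x _ hx => rw [← TensorProduct.smul_tmul']; exact Submodule.smul_mem _ a hx
  refine ⟨fun v => ?_, fun u v => ?_⟩
  · obtain ⟨w, G, h1, h2, h3⟩ := hpw v
    refine ⟨mx (e (ι v)) * s w, s G, ?_, ?_, ?_⟩
    · rw [hgv, h1, hβ]
    · rw [(hcomm _ _).mul_pow, ← map_pow, ← map_pow, ← map_pow, ← map_pow, hvℓ, map_one, map_one,
        map_one, one_mul, h2, map_add, map_one, hsp]
    · have e1 : g.q (s G) - ∑ u, gv lam xx t v u • β u =
          ι 1 ⊗ₜ[F] (f.q G - ∑ u, gv lam xx t v u • α u) -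
            ∑ u, gv lam xx t v u • ((ι u - 1) ⊗ₜ[F] α u) := by
        rw [hgs, map_one, TensorProduct.tmul_sub, TensorProduct.tmul_sum, sub_sub,
          ← Finset.sum_add_distrib]
        congr 1
        refine Finset.sum_congr rfl fun u _ => ?_
        rw [TensorProduct.tmul_smul, ← smul_add, TensorProduct.sub_tmul, add_sub_cancel, hβ]
      rw [e1]
      exact Submodule.sub_mem _ (hI1 1 _ h3)
        (Submodule.sum_mem _ fun u _ => Submodule.smul_mem _ _ (hI2 u _ (hBK u)))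
  · obtain ⟨a, b, d, h1, h2, h3, h4⟩ := hcm u v
    refine ⟨mx (e (ι u)) * s a, mx (e (ι v)) * s b, mx (e (ι (u * v))) * s d, ?_, ?_, ?_, ?_⟩
    · rw [hgv, h1, hβ]
    · rw [hgv, h2, hβ]
    · have e1 : mx (e (ι u)) * s a * (mx (e (ι v)) * s b) = mx (e (ι (u * v))) * s (a * b) := by
        rw [mul_assoc, ← mul_assoc (s a), ← (hcomm (e (ι v)) a).eq, mul_assoc, ← mul_assoc, hX,
          ← map_mul]
      have e2 : mx (e (ι v)) * s b * (mx (e (ι u)) * s a) = mx (e (ι (u * v))) * s (b * a) := by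
        rw [mul_assoc, ← mul_assoc (s b), ← (hcomm (e (ι u)) b).eq, mul_assoc, ← mul_assoc, hX,
          ← map_mul, mul_comm v u]
      rw [e1, e2, ← mul_sub, ← map_sub, h3, hsp, mul_smul_comm]
    · rw [hgv]
      exact hI1 (u * v) _ h4

end Pool.Agent.PST.ET.H41
end
end -- Pool.Agent.Helper41_PST.TWR

section -- Pool.Agent.Helper47_PST.TWC

/-!
Squad PST, block ET, row TWC (helper47): the form and the Casimir element of the matrix algebra.
-/

set_option autoImplicit false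

open scoped BigOperators

noncomputable section

namespace Pool.Agent.PST.ET.H47

/-- the form -/
def twT (n : ℕ) {R D : Type} [CommRing R] [Ring D] [Algebra R D] (T : D →ₗ[R] R) :
    Matrix (Fin n) (Fin n) D →ₗ[R] R where
  toFun M := ∑ a, T (M a a)
  map_add' A B := by simp [Finset.sum_add_distrib]
  map_smul' r A := by simp [Finset.mul_sum]

theorem twc : TwcStmt := by
  intro n R D K _ _ _ _ T x y hS
  refine ⟨twT n T, Fin n × Fin n × K, inferInstance, fun l => Matrix.single l.1 l.2.1 (x l.2.2),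
    fun l => Matrix.single l.2.1 l.1 (y l.2.2), ⟨?_, ?_, ?_⟩, ?_⟩
  · intro A B
    show ∑ a, T ((A * B) a a) = ∑ a, T ((B * A) a a)
    simp only [Matrix.mul_apply, map_sum]
    rw [Finset.sum_comm]
    refine Finset.sum_congr rfl fun a _ => Finset.sum_congr rfl fun b _ => ?_
    exact hS.sym _ _
  · intro Z
    have h1 : ∀ (a b : Fin n) (k : K), twT n T (Matrix.single b a (y k) * Z) = T (y k * Z a b) := by
      intro a b k
      show ∑ c, T ((Matrix.single b a (y k) * Z) c c) = _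
      rw [Finset.sum_eq_single b]
      · rw [Matrix.single_mul_apply_same]
      · intro c _ hc
        rw [Matrix.single_mul_apply_of_ne _ _ _ _ _ hc, map_zero]
      · intro h
        exact absurd (Finset.mem_univ b) h
    ext i j
    rw [Fintype.sum_prod_type, Matrix.sum_apply]
    rw [Finset.sum_eq_single i]
    · rw [Fintype.sum_prod_type, Matrix.sum_apply, Finset.sum_eq_single j]
      · rw [Matrix.sum_apply]
        simp only [h1, Matrix.smul_apply, Matrix.single_apply_same]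
        exact hS.e1 (Z i j)
      · intro b _ hb
        rw [Matrix.sum_apply]
        refine Finset.sum_eq_zero fun k _ => ?_
        simp [Matrix.single_apply, hb]
      · intro h
        exact absurd (Finset.mem_univ j) h
    · intro a _ ha
      rw [Fintype.sum_prod_type, Matrix.sum_apply]
      refine Finset.sum_eq_zero fun b _ => ?_
      rw [Matrix.sum_apply]
      refine Finset.sum_eq_zero fun k _ => ?_
      simp [Matrix.single_apply, ha]
    · intro h
      exact absurd (Finset.mem_univ i) h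
  · intro Z
    have h1 : ∀ (a b : Fin n) (k : K), twT n T (Z * Matrix.single a b (x k)) = T (Z b a * x k) := by
      intro a b k
      show ∑ c, T ((Z * Matrix.single a b (x k)) c c) = _
      rw [Finset.sum_eq_single b]
      · rw [Matrix.mul_single_apply_same]
      · intro c _ hc
        rw [Matrix.mul_single_apply_of_ne _ _ _ _ _ hc, map_zero]
      · intro h
        exact absurd (Finset.mem_univ b) h
    ext i j
    rw [Fintype.sum_prod_type, Matrix.sum_apply]
    rw [Finset.sum_eq_single j]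
    · rw [Fintype.sum_prod_type, Matrix.sum_apply, Finset.sum_eq_single i]
      · rw [Matrix.sum_apply]
        simp only [h1, Matrix.smul_apply, Matrix.single_apply_same]
        exact hS.e2 (Z i j)
      · intro b _ hb
        rw [Matrix.sum_apply]
        refine Finset.sum_eq_zero fun k _ => ?_
        simp [Matrix.single_apply, hb]
      · intro h
        exact absurd (Finset.mem_univ i) h
    · intro a _ ha
      rw [Fintype.sum_prod_type, Matrix.sum_apply]
      refine Finset.sum_eq_zero fun b _ => ?_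
      rw [Matrix.sum_apply]
      refine Finset.sum_eq_zero fun k _ => ?_
      simp [Matrix.single_apply, ha]
    · intro h
      exact absurd (Finset.mem_univ j) h
  · ext i j
    simp only [Matrix.single_mul_single_same]
    rw [Fintype.sum_prod_type, Matrix.sum_apply]
    have h1 : ∀ a : Fin n, (∑ l : Fin n × K, Matrix.single a a (x l.2 * y l.2)) i j =
        if a = i ∧ a = j then (n : R) • ∑ k, x k * y k else 0 := by
      intro a
      rw [Fintype.sum_prod_type]
      simp only [Finset.sum_const, Finset.card_univ, Fintype.card_fin]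
      rw [Matrix.smul_apply, Matrix.sum_apply]
      by_cases h : a = i ∧ a = j
      · rw [if_pos h]
        obtain ⟨rfl, rfl⟩ := h
        simp only [Matrix.single_apply_same]
        rw [Nat.cast_smul_eq_nsmul]
      · rw [if_neg h]
        have : ∀ k, Matrix.single a a (x k * y k) i j = 0 := by
          intro k
          rw [Matrix.single_apply, if_neg h]
        simp [this]
    simp only [h1]
    rw [Matrix.scalar_apply, Matrix.diagonal_apply]
    by_cases h : i = j
    · subst h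
      simp
    · rw [if_neg h]
      refine Finset.sum_eq_zero fun a _ => ?_
      rw [if_neg]
      rintro ⟨rfl, rfl⟩
      exact h rfl

end Pool.Agent.PST.ET.H47
end
end -- Pool.Agent.Helper47_PST.TWC

section -- Pool.Agent.Helper4_PST.LCL

/-!
# Squad PST, block ET, row LCL: the local class
-/

open scoped BigOperators TensorProduct

noncomputable section

namespace Pool.Agent.PST.ET.H4

open Pool.Agent.PFD.D2 (Cdv FibG)
open Pool.Agent.PFC (Fx BK cj bi tw PS Frm PMid PIn Ctf IA BQ Cor)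
open Pool.Agent.PFC.B5c (bd)
open Pool.Agent.PSS.S5 (Lc LcpStmt LkcStmt)

/-- From a corner which is full and of class `1` modulo commutators. -/
theorem lcl_corner (ilf : IlfStmt) (cre : CreStmt) (crg : CrgStmt) (crs : CrsStmt) (loc : LocStmt)
    (bcm : BcmStmt) (klf : KlfStmt) (tau : TauStmt) (fun_ : FunStmt) (fcz : FczStmt)
    (tor : TorStmt) (ℓ r : ℕ) [Fact ℓ.Prime] (R F V E B D Y L : Type) [CommRing R] [IsDomain R]
    [IsPrincipalIdealRing R] [CharP R ℓ] [Field F] [CharP F ℓ] [CommGroup V] [Fintype V]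
    [Group E] [Finite E] [Ring B] [Algebra F B] [Ring D] [Algebra R D]
    [Module.Finite R D] [Module.Free R D] [Ring Y] [Algebra F Y] [Fintype L] (c : Cdv R F)
    (g : FibG D B c) (φ : E →* MulAut V) (β : V →* B) (αY : V →* Y) (lam xx : Fin r → V → F)
    (t : Fin r → F) (T : D →ₗ[R] R) (x y : L → D) (j : B) (κ : Y →ₗ[F] B)
    (pg : IsPGroup ℓ V) (nt : Nontrivial V) (el : ∀ v : V, v ^ ℓ = 1) (cop : ¬ ℓ ∣ Nat.card E)
    (ed : EDat F lam xx t) (rg : Rgd ℓ c g β lam xx t) (sf : SFr R T x y)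
    (jj : j * j = j) (cr : CrR j κ) (com : ∀ v, β v * j = j * β v)
    (cov : ∀ v, κ (αY v) = β v * j) (bk : 1 - j ∈ BK (cj F β) ⊤) (pm : PMid F φ ⊥ αY)
    (full : (1 : B) ∈ Submodule.span F {x | ∃ a b, x = a * j * b}) :
    ∃ z : D, IsUnit z ∧ (∀ a, z * a = a * z) ∧ ∑ k, x k * y k = c.π ^ r • z := by
  obtain ⟨j', hj', hq⟩ := ilf R F D B c g j jj
  have cr' : CrR (g.q j') κ := by rw [hq]; exact cr
  obtain ⟨Ys, i1, i2, i3, i4, κs, fY, crs', hfY⟩ := cre R F D B Y c g j' κ hj' cr'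
  have hrg : Rgd ℓ c fY αY lam xx t := by
    refine crg ℓ r R F V D B Y Ys c g fY β αY j' κ κs lam xx t hj' cr' crs' hfY ?_ ?_ rg
    · intro v; rw [hq]; exact com v
    · intro v; rw [hq]; exact cov v
  obtain ⟨x', y', sf', hxy⟩ := crs R D Ys L T x y j' κs sf hj' crs'
  obtain ⟨u, hu, huc, hus⟩ := loc ℓ r R F V E Y Ys L c fY φ αY lam xx t (T.comp κs) x' y' pg nt
    el cop pm ed hrg sf'
  obtain ⟨tau1, -, tau3⟩ := tau R D L T x y sf
  have hjt : j' * ∑ k, x k * j' * y k = c.π ^ r • κs u := by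
    rw [← hxy, hus, map_smul]
  -- `1 - j'` is a sum of commutators
  have h1 : 1 - j' ∈ cmt R D := by
    have h2 := klf ℓ R F D B (Fin 2) c g ![1, j'] ![1, -1] ?_ ?_
    · simpa [Fin.sum_univ_two, sub_eq_add_neg] using h2
    · intro i
      fin_cases i
      · simp
      · simpa using hj'
    · have h3 : (∑ i : Fin 2, (![1, -1] : Fin 2 → ℤ) i • g.q ((![1, j'] : Fin 2 → D) i)) =
          1 - j := by
        rw [Fin.sum_univ_two]
        simp [hq, sub_eq_add_neg]
      rw [h3]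
      exact bcm ℓ F V B β pg _ bk
  have h4 : ∑ k, x k * 1 * y k = ∑ k, x k * j' * y k := by
    have h5 := tau3 _ h1
    simp only [mul_sub, sub_mul, Finset.sum_sub_distrib] at h5
    exact sub_eq_zero.1 h5
  have h6 : (1 : D) ∈ Submodule.span R {x : D | ∃ s t : D, x = s * j' * t} := by
    refine fun_ R F D B c g 1 j' (mul_one 1) (fun a => by rw [one_mul, mul_one]) ?_
    rw [map_one, hq]
    exact full
  obtain ⟨v, hv⟩ := hu
  have h7 : ∀ w : Ys, j' * κs w = κs w := fun w => by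
    rw [← crs'.one, ← crs'.mul, one_mul]
  have h8 : ∀ w : Ys, κs w * j' = κs w := fun w => by
    rw [← crs'.one, ← crs'.mul, mul_one]
  obtain ⟨z, z', hz, hz', hzz, -, hτ⟩ := fcz R D (c.π ^ r) 1 j' (∑ k, x k * 1 * y k) (κs u)
    (κs ((v⁻¹ : Ysˣ) : Ys)) (fun a ha => (tor R F D c).1 r a ha) (mul_one 1)
    (fun a => by rw [one_mul, mul_one]) hj' h6 (fun a => (tau1 1 a).symm) (mul_one _)
    (by rw [h4]; exact hjt) (h7 _) (h8 _) (h7 _) (h8 _)
    (by rw [← crs'.mul, ← hv, Units.mul_inv, crs'.one])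
    (by rw [← crs'.mul, ← hv, Units.inv_mul, crs'.one])
  refine ⟨z, ⟨⟨z, z', hzz, by rw [← hz, hzz]⟩, rfl⟩, hz, ?_⟩
  rw [← hτ]
  simp only [mul_one]

theorem lcl (co2 : Co2Stmt) (twf : TwfStmt) (twr : TwrStmt) (twc : TwcStmt) (twz : TwzStmt)
    (ilf : IlfStmt) (cre : CreStmt) (crg : CrgStmt) (crs : CrsStmt) (loc : LocStmt)
    (bcm : BcmStmt) (klf : KlfStmt) (tau : TauStmt) (fun_ : FunStmt) (fcz : FczStmt)
    (tor : TorStmt) (lcp : LcpStmt) (lkc : LkcStmt) : LclStmt := by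
  intro ℓ r _ R F V E H Hs K _ _ _ _ _ _ _ _ _ _ _ _ _ _ _ _ _ _ _ c f φ α lam xx t T x y
    hκ pg nt el cop free lc ed rg sf
  have hE : Fintype E := Fintype.ofFinite E
  have hfd : FiniteDimensional F H := lc.fin
  have ctf : Ctf ℓ φ (⊥ : Subgroup V) := by
    refine ⟨Fact.out, pg, ?_, cop, ?_, ⟨⊤, isCompl_top_bot, fun _ _ _ => trivial⟩, ?_⟩
    · obtain ⟨u, hu⟩ := exists_ne (1 : V)
      exact ⟨u, fun h' => hu (Subgroup.mem_bot.1 h')⟩
    · intro e u hu
      rw [Subgroup.mem_bot.1 hu, map_one]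
      exact Subgroup.one_mem _
    · intro e u hu
      rcases free e u hu with h1 | h1
      · exact Or.inl h1
      · exact Or.inr (Subgroup.mem_bot.2 h1)
  have pin : PIn F φ (⊥ : Subgroup V) α := by
    have h1 := lcp ℓ F V E H φ α (fun Q => ¬ Q ≤ ⊥) pg lc ?_
    · exact ⟨h1.fin, h1.frm, h1.loc, h1.ps, h1.top, h1.lcq, h1.uni⟩
    · intro Q hQ
      refine lkc ℓ F V E H φ α Q pg lc ?_
      intro e he
      obtain ⟨u, hu, hu1⟩ : ∃ u ∈ Q, u ∉ (⊥ : Subgroup V) := SetLike.not_le_iff_exists.1 hQ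
      rcases free e u (he u hu) with h2 | h2
      · rw [h2, map_one]
      · exact absurd (Subgroup.mem_bot.2 h2) hu1
  obtain ⟨N, Y', j, κ, n, n0, nF, ⟨e⟩, hbk, hcor, jj, hj1, pm, hfull⟩ :=
    co2 ℓ F V E H φ α ctf pin
  obtain ⟨g, hg⟩ := twf n R F N.A H Hs c f e
  have rg' := twr ℓ r n R F V N.A H Hs c f e g N.ι α (N.tens (bd F α)).ι lam xx t hκ hg
    (fun v => rfl) pg el hbk rg
  obtain ⟨T', L, _, X, Y, sf', hXY⟩ := twc n R Hs K T x y sf
  have hcr : CrR j κ := ⟨hcor.inj, hcor.mul, hcor.one, hcor.ran⟩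
  obtain ⟨z, hz, hzc, hzs⟩ := lcl_corner ilf cre crg crs loc bcm klf tau fun_ fcz tor ℓ r R F V E
    (N.A ⊗[F] H) (Matrix (Fin n) (Fin n) Hs) Y'.A L c g φ (N.tens (bd F α)).ι Y'.ι lam xx t T' X Y j
    κ pg nt el cop ed rg' sf' jj hcr hcor.com hcor.cov hj1 pm hfull
  obtain ⟨z1, hz1, hz1c, rfl⟩ := twz n Hs n0 z hz hzc
  rw [hXY] at hzs
  have h2 : (n : R) • ∑ k, x k * y k = c.π ^ r • z1 := by
    have h3 := congrFun (congrFun hzs ⟨0, n0⟩) ⟨0, n0⟩
    simpa [Matrix.scalar_apply, Matrix.smul_apply] using h3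
  have h4 : IsUnit (n : R) := by
    apply c.loc
    rw [map_natCast]
    exact nF
  obtain ⟨m, hm⟩ := h4
  refine ⟨((m⁻¹ : Rˣ) : R) • z1, ?_, ?_, ?_⟩
  · have h5 : IsUnit (algebraMap R Hs ((m⁻¹ : Rˣ) : R)) := (m⁻¹).isUnit.map _
    rw [Algebra.smul_def]
    exact h5.mul hz1
  · intro a
    rw [smul_mul_assoc, mul_smul_comm, hz1c]
  · rw [smul_comm, ← h2, ← hm, smul_smul, Units.inv_mul, one_smul]

end Pool.Agent.PST.ET.H4
end
end -- Pool.Agent.Helper4_PST.LCL

section -- Pool.Agent.Helper59_PST.CRS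

/-!
# Squad PST, row CRS: the form and the Casimir element of a corner (helper59)
-/

set_option autoImplicit false

open scoped BigOperators

noncomputable section

namespace Pool.Agent.PST.ET.H59

/-- Row CRS. -/
theorem crs (hTAU : TauStmt) : CrsStmt := by
  intro R D Y K _ _ _ _ _ _ T x y j κ hS hj hC
  have hjl : ∀ a : Y, j * κ a = κ a := by
    intro a
    rw [← hC.one, ← hC.mul, one_mul]
  have hjr : ∀ a : Y, κ a * j = κ a := by
    intro a
    rw [← hC.one, ← hC.mul, mul_one]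
  have hr : ∀ d : D, ∃ b : Y, κ b = j * d * j := by
    intro d
    refine hC.ran _ ?_ ?_
    · rw [← mul_assoc, ← mul_assoc, hj]
    · rw [mul_assoc, hj]
  choose g hg using hr
  refine ⟨fun k => g (x k), fun k => g (y k), ⟨?_, ?_, ?_⟩, ?_⟩
  · intro a b
    rw [LinearMap.comp_apply, LinearMap.comp_apply, hC.mul, hC.mul, hS.sym]
  · intro a
    apply hC.inj
    have h1 : ∀ k, T.comp κ (g (y k) * a) = T (y k * κ a) := by
      intro k
      rw [LinearMap.comp_apply, hC.mul, hg, mul_assoc, hjl, mul_assoc, hS.sym, mul_assoc, hjr]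
    rw [map_sum]
    calc ∑ k, κ (T.comp κ (g (y k) * a) • g (x k))
        = ∑ k, j * (T (y k * κ a) • x k) * j := by
          refine Finset.sum_congr rfl fun k _ => ?_
          rw [h1, map_smul, hg, mul_smul_comm, smul_mul_assoc]
      _ = j * (∑ k, T (y k * κ a) • x k) * j := by
          rw [Finset.mul_sum, Finset.sum_mul]
      _ = κ a := by rw [hS.e1, hjl, hjr]
  · intro a
    apply hC.inj
    have h1 : ∀ k, T.comp κ (a * g (x k)) = T (κ a * x k) := by
      intro k
      rw [LinearMap.comp_apply, hC.mul, hg, ← mul_assoc, ← mul_assoc, hjr, hS.sym, ← mul_assoc, hjl]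
    rw [map_sum]
    calc ∑ k, κ (T.comp κ (a * g (x k)) • g (y k))
        = ∑ k, j * (T (κ a * x k) • y k) * j := by
          refine Finset.sum_congr rfl fun k _ => ?_
          rw [h1, map_smul, hg, mul_smul_comm, smul_mul_assoc]
      _ = j * (∑ k, T (κ a * x k) • y k) * j := by
          rw [Finset.mul_sum, Finset.sum_mul]
      _ = κ a := by rw [hS.e2, hjl, hjr]
  · have h1 := (hTAU R D K T x y hS).1 j j
    rw [map_sum]
    calc ∑ k, κ (g (x k) * g (y k)) = ∑ k, j * (x k * j * y k) * j := by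
          refine Finset.sum_congr rfl fun k _ => ?_
          rw [hC.mul, hg, hg]
          calc j * x k * j * (j * y k * j) = j * x k * (j * j) * y k * j := by
                simp only [mul_assoc]
            _ = j * (x k * j * y k) * j := by
                rw [hj]
                simp only [mul_assoc]
      _ = j * (∑ k, x k * j * y k) * j := by rw [Finset.mul_sum, Finset.sum_mul]
      _ = j * ∑ k, x k * j * y k := by rw [mul_assoc, ← h1, ← mul_assoc, hj]

end Pool.Agent.PST.ET.H59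
end
end -- Pool.Agent.Helper59_PST.CRS

section -- Pool.Agent.Helper69_PST.ETB

open scoped BigOperators TensorProduct

noncomputable section

namespace Pool.Agent.PST.ET.H69

open Pool.Agent.PFD.D2 (Cdv FibG)
open Pool.Agent.PSS (RF Cl Per Uni FxR BKR cw bw)
open Pool.Agent.PSS.S5 (Loi Eqi Pci CorV Ej Lc CoeStmt CljStmt)
open Pool.Agent.PST.ET

theorem etb (hCOE : CoeStmt) (hCLJ : CljStmt) (hILF : IlfStmt) (hCRE : CreStmt)
    (hCRG : CrgStmt) (hCRS : CrsStmt) (hLCL : LclStmt) (hCIL : CilStmt) (hFUN : FunStmt)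
    (hFCZ : FczStmt) (hTOR : TorStmt) (hTAU : TauStmt) : EtbStmt := by
  intro ℓ r _ R F V E H Hs K _ _ _ _ _ _ _ _ _ _ _ _ _ _ _ _ _ _ _ c f φ α lam xx t T x y b j
    hsc hp hnt hl hE hfree hCl hED hRgd hSF hb hj hbj hfull
  have hαj : ∀ v, α v * j = j * α v := by
    intro v
    have h := hj.fx v trivial
    have h1 : α v * j * α v⁻¹ = j := by
      rw [mul_assoc]
      exact h
    calc α v * j = α v * j * (α v⁻¹ * α v) := by
          rw [← map_mul, inv_mul_cancel, map_one, mul_one]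
      _ = (α v * j * α v⁻¹) * α v := by simp only [mul_assoc]
      _ = j * α v := by rw [h1]
  obtain ⟨Y, _, _, αY, κ, hcor⟩ := hCOE F V H α j hj.id hαj
  have hLc := hCLJ ℓ F V E H Y φ α j αY κ hp hE hCl hj hcor
  obtain ⟨j', hj2, hqj⟩ := hILF R F Hs H c f j hj.id
  have hcr : CrR (f.q j') κ := by
    rw [hqj]
    exact ⟨hcor.inj, hcor.mul, hcor.one, hcor.ran⟩
  obtain ⟨Ys, _, _, _, _, κs, fY, hcrs, hqs⟩ := hCRE R F Hs H Y c f j' κ hj2 hcr
  have hRgY : Rgd ℓ c fY αY lam xx t := by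
    refine hCRG ℓ r R F V Hs H Y Ys c f fY α αY j' κ κs lam xx t hj2 hcr hcrs hqs ?_ ?_ hRgd
    · intro v; rw [hqj]; exact hαj v
    · intro v; rw [hqj]; exact hcor.cov v
  obtain ⟨x', y', hSF', hcas⟩ := hCRS R Hs Ys K T x y j' κs hSF hj2 hcrs
  haveI hfinE : Finite (Ej φ αY) := by
    have hle : Ej φ αY ≤ φ.range := fun s hs => hs.1
    have : Finite φ.range := inferInstance
    exact Finite.of_injective (Subgroup.inclusion hle) (Subgroup.inclusion_injective hle)
  have hE' : ¬ ℓ ∣ Nat.card (Ej φ αY) := by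
    intro hd
    have hle : Ej φ αY ≤ φ.range := fun s hs => hs.1
    exact hE ((hd.trans (Subgroup.card_dvd_of_le hle)).trans (Subgroup.card_range_dvd φ))
  have hfree' : ∀ (e : Ej φ αY) (v : V), (Ej φ αY).subtype e v = v → e = 1 ∨ v = 1 := by
    rintro ⟨e, he⟩ v hv
    have hr : e ∈ φ.range := he.1
    obtain ⟨e0, he0⟩ := hr
    have hv' : φ e0 v = v := by rw [he0]; exact hv
    rcases hfree e0 v hv' with h | h
    · exact Or.inr h
    · left
      apply Subtype.ext
      show e = 1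
      rw [← he0, h]
  obtain ⟨u, hu, huc, hsum⟩ := hLCL ℓ r R F V (Ej φ αY) Y Ys K c fY (Ej φ αY).subtype αY
    lam xx t (T.comp κs) x' y' hsc hp hnt hl hE' hfree' hLc hED hRgY hSF'
  -- the lift of b
  obtain ⟨b', hb2, hqb⟩ := hILF R F Hs H c f b hb.id
  have hbc : ∀ a, b' * a = a * b' := by
    refine hCIL R F Hs H c f b' hb2 ?_
    intro h
    rw [hqb]
    exact hb.cen h
  obtain ⟨hT1, hT2⟩ := hTOR R F Hs c
  have hbj' : b' * j' = j' := by
    have hw : (1 - b') * j' = 0 := by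
      have hid : (1 - b') * j' * ((1 - b') * j') = (1 - b') * j' := by
        have e1 : j' * (1 - b') = (1 - b') * j' := by
          rw [mul_sub, sub_mul, mul_one, one_mul, hbc]
        have e2 : (1 - b') * (1 - b') = 1 - b' := by
          rw [mul_sub, mul_one, sub_mul, one_mul, hb2, sub_self, sub_zero]
        calc (1 - b') * j' * ((1 - b') * j') = (1 - b') * (j' * (1 - b')) * j' := by
              simp only [mul_assoc]
          _ = (1 - b') * ((1 - b') * j') * j' := by rw [e1]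
          _ = ((1 - b') * (1 - b')) * (j' * j') := by simp only [mul_assoc]
          _ = (1 - b') * j' := by rw [e2, hj2]
      have hq0 : f.q ((1 - b') * j') = 0 := by
        rw [map_mul, map_sub, map_one, hqb, hqj, sub_mul, one_mul, hbj, sub_self]
      obtain ⟨d, hd⟩ := f.ker _ hq0
      refine hT2 _ ?_
      intro n
      rcases Nat.eq_zero_or_pos n with rfl | hn
      · exact ⟨(1 - b') * j', by rw [pow_zero, one_smul]⟩
      · refine ⟨d ^ n, ?_⟩
        have hpow : ∀ m : ℕ, ((1 - b') * j') ^ (m + 1) = (1 - b') * j' := by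
          intro m
          induction m with
          | zero => rw [zero_add, pow_one]
          | succ m ih => rw [pow_succ, ih, hid]
        obtain ⟨m, rfl⟩ : ∃ m, n = m + 1 := ⟨n - 1, by omega⟩
        rw [← smul_pow, ← hd, hpow]
    have h3 : j' - b' * j' = 0 := by
      rw [← hw, sub_mul, one_mul]
    exact (sub_eq_zero.1 h3).symm
  have hspan : b' ∈ Submodule.span R {z : Hs | ∃ s t : Hs, z = s * j' * t} := by
    refine hFUN R F Hs H c f b' j' hb2 hbc ?_
    rw [hqb, hqj]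
    exact hfull
  obtain ⟨hA1, hA2, hA3⟩ := hTAU R Hs K T x y hSF
  obtain ⟨uu, huu⟩ := hu
  have hone : κs 1 = j' := hcrs.one
  have hτb : (∑ k, x k * j' * y k) * b' = ∑ k, x k * j' * y k := by
    rw [Finset.sum_mul]
    refine Finset.sum_congr rfl ?_
    intro k _
    calc x k * j' * y k * b' = x k * j' * (y k * b') := by rw [mul_assoc]
      _ = x k * j' * (b' * y k) := by rw [hbc (y k)]
      _ = x k * (b' * j') * y k := by
          rw [hbc j']; simp only [mul_assoc]
      _ = x k * j' * y k := by rw [hbj']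
  have hτj : j' * (∑ k, x k * j' * y k) = c.π ^ r • κs u := by
    rw [← hcas, hsum, map_smul]
  obtain ⟨z, z', hz, hz', hzz, hzb, hτ⟩ := hFCZ R Hs (c.π ^ r) b' j' (∑ k, x k * j' * y k)
    (κs u) (κs (↑uu⁻¹ : Ys)) (fun w hw => hT1 r w hw) hb2 hbc hj2 hspan
    (fun a => (hA1 j' a).symm) hτb hτj
    (by rw [← hone, ← hcrs.mul, one_mul])
    (by rw [← hone, ← hcrs.mul, mul_one])
    (by rw [← hone, ← hcrs.mul, one_mul])
    (by rw [← hone, ← hcrs.mul, mul_one])
    (by rw [← hcrs.mul, ← huu, Units.mul_inv, hone])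
    (by rw [← hcrs.mul, ← huu, Units.inv_mul, hone])
  refine ⟨j', z, z', hj2, hqj, hz, hz', ?_, ?_, hτ⟩
  · rw [← map_mul, hzz, hqb]
  · rw [← hqb, ← map_mul, hzb]

end Pool.Agent.PST.ET.H69
end
end -- Pool.Agent.Helper69_PST.ETB

section -- Pool.Agent.Helper75_PST.VTR

/-!
# VTR (block ET of squad PST): the case `V = 1` (helper75)
-/

open scoped BigOperators TensorProduct

noncomputable section

namespace Pool.Agent.PST.ET.H75

open Pool.Agent.PFD.D2 (Cdv FibG)
open Pool.Agent.PSS (RF Cl Per Uni FxR BKR cw)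

/-- comparison of two symmetric forms -/
theorem form_ratio {F H K : Type} [Field F] [Ring H] [Algebra F H] [Fintype K]
    (l0 l1 : H →ₗ[F] F) (x y : K → H) (h0 : ∀ a b, l0 (a * b) = l0 (b * a))
    (h : SFr F l1 x y) : ∃ c1 : H, (∀ a, l1 (c1 * a) = l0 a) ∧ ∀ a, c1 * a = a * c1 := by
  have nd : ∀ s : H, (∀ a, l1 (s * a) = 0) → s = 0 := by
    intro s hs
    rw [← h.e2 s]
    exact Finset.sum_eq_zero fun k _ => by rw [hs, zero_smul]
  have h1 : ∀ a, l1 ((∑ k, l0 (x k) • y k) * a) = l0 a := by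
    intro a
    rw [Finset.sum_mul, map_sum]
    conv_rhs => rw [← h.e1 a]
    rw [map_sum]
    refine Finset.sum_congr rfl fun k _ => ?_
    rw [smul_mul_assoc, map_smul, map_smul, smul_eq_mul, smul_eq_mul, mul_comm]
  refine ⟨∑ k, l0 (x k) • y k, h1, fun s => ?_⟩
  refine sub_eq_zero.1 (nd _ fun a => ?_)
  rw [sub_mul, map_sub, mul_assoc, h1, mul_assoc, h.sym s, mul_assoc, h1, h0, sub_self]

theorem vtr (rdf : RdfStmt) (csi : CsiStmt) (upr : UprStmt) (tau : TauStmt) : VtrStmt := by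
  intro ℓ r _ R F V E H Hs K _ _ _ _ _ _ _ _ _ _ _ _ _ c f φ α lam xx t T x y hV hcl he hT
  -- `r = 0`
  have hr : r = 0 := by
    rcases Nat.eq_zero_or_pos r with h | h
    · exact h
    · exfalso
      have h1 := he.x1 ⟨0, h⟩ ⟨0, h⟩
      have h2 : ∀ v : V, lam ⟨0, h⟩ v = 0 := by
        intro v
        have h3 := he.add ⟨0, h⟩ v v
        rw [Subsingleton.elim (v * v) v] at h3
        exact left_eq_add.1 h3
      rw [if_pos rfl, Finset.sum_eq_zero fun v _ => by rw [h2 v, mul_zero]] at h1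
      exact zero_ne_one h1
  subst hr
  rw [pow_zero]
  obtain ⟨l1, K1, _, x1, y1, hRF, u, hu⟩ := hcl.rt
  have hα : ∀ v : V, α v = 1 := fun v => by rw [Subsingleton.elim v 1, map_one]
  have hS1 : SFr F l1 x1 y1 := by
    refine ⟨hRF.sym, fun a => ?_, fun a => ?_⟩
    · have := hRF.e1 a
      conv_rhs => rw [← this]
      refine Finset.sum_congr rfl fun k _ => ?_
      rw [Fintype.sum_subsingleton _ (1 : V), hα, hα, one_mul, mul_one]
    · have := hRF.e2 a
      conv_rhs => rw [← this]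
      refine Finset.sum_congr rfl fun k _ => ?_
      rw [Fintype.sum_subsingleton _ (1 : V), hα, hα, one_mul, mul_one]
  obtain ⟨l0, hl0, hS0⟩ := rdf R F Hs H K c f T x y hT
  obtain ⟨c1, hc1, hc1c⟩ := form_ratio l0 l1 x1 y1 hS0.sym hS1
  obtain ⟨c2, hc2, hc2c⟩ := form_ratio l1 l0 _ _ hS1.sym hS0
  have nd : ∀ s : H, (∀ a, l1 (s * a) = 0) → s = 0 := by
    intro s hs
    rw [← hS1.e2 s]
    exact Finset.sum_eq_zero fun k _ => by rw [hs, zero_smul]
  have h12 : c1 * c2 = 1 := by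
    refine sub_eq_zero.1 (nd _ fun a => ?_)
    rw [sub_mul, one_mul, map_sub, mul_assoc, hc1, hc2, sub_self]
  have hcs := csi F H K K1 l0 (fun k => f.q (x k)) (fun k => f.q (y k)) x1
    (fun k => y1 k * c2) hS0 (fun a => by
      conv_rhs => rw [← hS1.e1 a]
      refine Finset.sum_congr rfl fun k _ => ?_
      rw [← hc2c (y1 k), mul_assoc, hc2]) 1
  simp only [mul_one] at hcs
  -- the sum `∑ x1 y1`
  have hs1c : ∀ d : H, d * ∑ k, x1 k * y1 k = (∑ k, x1 k * y1 k) * d := by
    intro d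
    have := (tau F H K1 l1 x1 y1 hS1).1 1 d
    simpa only [mul_one] using this
  have hqz : f.q (∑ k, x k * y k) = (∑ k, x1 k * y1 k) * c2 := by
    rw [map_sum, Finset.sum_mul]
    have h5 : ∑ k, f.q (x k * y k) = ∑ k, f.q (x k) * f.q (y k) :=
      Finset.sum_congr rfl fun k _ => map_mul _ _ _
    rw [h5, ← hcs]
    exact Finset.sum_congr rfl fun k _ => (mul_assoc _ _ _).symm
  have hzc : ∀ a, (∑ k, x k * y k) * a = a * ∑ k, x k * y k := by
    intro a
    have := (tau R Hs K T x y hT).1 1 a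
    simpa only [mul_one] using this.symm
  obtain ⟨y', hy'⟩ := f.surj (c1 * u)
  have hz1 : f.q ((∑ k, x k * y k) * y' - 1) = 0 := by
    rw [map_sub, map_mul, map_one, hqz, hy']
    have : (∑ k, x1 k * y1 k) * c2 * (c1 * u) = 1 := by
      rw [mul_assoc, ← mul_assoc c2, hc2c, h12, one_mul, ← hs1c, hu]
    rw [this, sub_self]
  have hz2 : f.q (y' * (∑ k, x k * y k) - 1) = 0 := by
    rw [← hzc y']
    exact hz1
  obtain ⟨d, hd⟩ := f.ker _ hz1
  obtain ⟨d', hd'⟩ := f.ker _ hz2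
  refine ⟨∑ k, x k * y k, ?_, hzc, (one_smul R _).symm⟩
  exact upr R F Hs c (∑ k, x k * y k) y' d d' (by rw [← hd]; abel) (by rw [← hd']; abel)

end Pool.Agent.PST.ET.H75
end
end -- Pool.Agent.Helper75_PST.VTR

section -- Pool.Agent.Helper83_PST.CRG

/-!
# PST ET CRG: the first order datum of a corner
-/

set_option autoImplicit false

open scoped BigOperators TensorProduct

noncomputable section

namespace Pool.Agent.PST.ET.H83

open Pool.Agent.PFD.D2 (Cdv FibG)

section

variable {R F V D H Y Ys : Type} [CommRing R] [Field F] [CommGroup V]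
  [Fintype V] [Ring D] [Algebra R D] [Ring H] [Algebra F H] [Ring Y]
  [Algebra F Y] [Ring Ys] [Algebra R Ys]

theorem q_pi {A' A : Type} [Ring A'] [Algebra R A'] [Ring A] [Algebra F A] {c : Cdv R F}
    (f : FibG A' A c) (x : A') : f.q (c.π • x) = 0 := by
  have h0 : c.κ c.π = 0 := (c.ker c.π).2 ⟨1, (mul_one _).symm⟩
  rw [Algebra.smul_def, map_mul, f.sc, h0, map_zero, zero_mul]

omit [Fintype V] in
/-- the compression to a corner maps the commutators with `V` to the commutators with `V` -/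
theorem iv_map (α : V →* H) (αY : V →* Y) (p : H) (κ : Y →ₗ[F] H) (hp : p * p = p)
    (hκ : CrR p κ) (hα : ∀ v, α v * p = p * α v) (hαY : ∀ v, κ (αY v) = α v * p) :
    ∀ x ∈ IV F α, ∀ y, κ y = p * x * p → y ∈ IV F αY := by
  have key : ∀ x ∈ IV F α, ∃ y ∈ IV F αY, κ y = p * x * p := by
    intro x hx
    unfold IV at hx
    induction hx using Submodule.span_induction with
    | mem x hx =>
      obtain ⟨u, b, rfl⟩ := hx
      obtain ⟨b', hb'⟩ := hκ.ran (p * b * p) (by simp only [← mul_assoc, hp])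
        (by rw [mul_assoc, hp])
      refine ⟨αY u * b' - b' * αY u, Submodule.subset_span ⟨u, b', rfl⟩, ?_⟩
      rw [map_sub, hκ.mul, hκ.mul, hb', hαY, mul_sub, sub_mul]
      have e1 : α u * p * (p * b * p) = p * (α u * b) * p := by
        calc α u * p * (p * b * p) = α u * (p * p) * b * p := by simp only [mul_assoc]
          _ = (α u * p) * b * p := by rw [hp]
          _ = p * (α u * b) * p := by rw [hα]; simp only [mul_assoc]
      have e2 : p * b * p * (α u * p) = p * (b * α u) * p := by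
        calc p * b * p * (α u * p) = p * b * (p * α u) * p := by simp only [mul_assoc]
          _ = p * b * (α u * p) * p := by rw [hα]
          _ = p * b * α u * (p * p) := by simp only [mul_assoc]
          _ = p * (b * α u) * p := by rw [hp]; simp only [mul_assoc]
      rw [e1, e2]
    | zero => exact ⟨0, Submodule.zero_mem _, by simp⟩
    | add x y _ _ hx hy =>
      obtain ⟨x', h1, h2⟩ := hx
      obtain ⟨y', h3, h4⟩ := hy
      exact ⟨x' + y', Submodule.add_mem _ h1 h3, by rw [map_add, h2, h4, mul_add, add_mul]⟩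
    | smul a x _ hx =>
      obtain ⟨x', h1, h2⟩ := hx
      exact ⟨a • x', Submodule.smul_mem _ _ h1, by rw [map_smul, h2, mul_smul_comm,
        smul_mul_assoc]⟩
  intro x hx y hy
  obtain ⟨y', h1, h2⟩ := key x hx
  rwa [hκ.inj (hy.trans h2.symm)]

theorem crg (hT : TorStmt) : CrgStmt := by
  intro ℓ r hℓ R F V D H Y Ys _ _ _ _ _ _ _ _ _ _ _ _ _ c f fY α αY P κ κs lam xx t hP hκ hκs
    hc hα hαY hR
  have htor : ∀ x : D, c.π • x = 0 → x = 0 := by
    intro x hx
    refine (hT R F D c).1 1 x ?_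
    rw [pow_one]
    exact hx
  have hp : f.q P * f.q P = f.q P := by rw [← map_mul, hP]
  have hIV := iv_map α αY (f.q P) κ hp hκ hα hαY
  -- the compression
  have hτ : ∀ a : D, ∃ b : Ys, κs b = P * a * P := fun a =>
    hκs.ran (P * a * P) (by simp only [← mul_assoc, hP]) (by rw [mul_assoc, hP])
  choose τ hτ using hτ
  have hPP : ∀ a : D, P * (P * a * P) * P = P * a * P := by
    intro a
    calc P * (P * a * P) * P = (P * P) * a * (P * P) := by simp only [mul_assoc]
      _ = P * a * P := by rw [hP]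
  have hcomm : ∀ (w : D) (v : V), f.q w = α v → ∃ s : D, w * P - P * w = c.π • s ∧
      P * s * P = 0 := by
    intro w v hw
    obtain ⟨s, hs⟩ := f.ker (w * P - P * w) (by rw [map_sub, map_mul, map_mul, hw, hα, sub_self])
    refine ⟨s, hs, htor _ ?_⟩
    rw [← smul_mul_assoc, ← mul_smul_comm, ← hs, mul_sub, sub_mul]
    have e1 : P * (w * P) * P = P * w * P := by
      calc P * (w * P) * P = P * w * (P * P) := by simp only [mul_assoc]
        _ = P * w * P := by rw [hP]
    have e2 : P * (P * w) * P = P * w * P := by rw [← mul_assoc, hP]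
    rw [e1, e2, sub_self]
  -- `P a s P` is divisible by `π` if `q a = h` commutes with `q P` and `P s P = 0`
  have hdiv : ∀ (a s : D), f.q a * f.q P = f.q P * f.q a → P * s * P = 0 →
      ∃ s', P * (a * s) * P = c.π • s' := by
    intro a s ha hs
    refine f.ker _ ?_
    have : f.q (P * (a * s) * P) = f.q a * f.q (P * s * P) := by
      simp only [map_mul]
      calc f.q P * (f.q a * f.q s) * f.q P = (f.q P * f.q a) * f.q s * f.q P := by
            simp only [mul_assoc]
        _ = (f.q a * f.q P) * f.q s * f.q P := by rw [ha]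
        _ = f.q a * (f.q P * f.q s * f.q P) := by simp only [mul_assoc]
    rw [this, hs, map_zero, mul_zero]
  have hprod : ∀ (a b s : D), b * P - P * b = c.π • s →
      P * a * P * (P * b * P) = P * (a * b) * P - c.π • (P * (a * s) * P) := by
    intro a b s hs
    have e3 : P * b = b * P - c.π • s := by rw [← hs]; abel
    calc P * a * P * (P * b * P) = P * a * ((P * P) * b) * P := by simp only [mul_assoc]
      _ = P * a * (P * b) * P := by rw [hP]
      _ = P * a * (b * P - c.π • s) * P := by rw [e3]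
      _ = P * a * (b * P) * P - c.π • (P * a * s * P) := by
          rw [mul_sub, sub_mul, mul_smul_comm, smul_mul_assoc]
      _ = P * (a * b) * (P * P) - c.π • (P * (a * s) * P) := by simp only [mul_assoc]
      _ = P * (a * b) * P - c.π • (P * (a * s) * P) := by rw [hP]
  refine ⟨?_, ?_⟩
  · intro v
    obtain ⟨w, G, hw, hwℓ, hG⟩ := hR.pw v
    obtain ⟨s, hs, hPs⟩ := hcomm w v hw
    have hwn : ∀ n, f.q (w ^ n) * f.q P = f.q P * f.q (w ^ n) := by
      intro n
      rw [map_pow, hw]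
      exact (Commute.pow_left (hα v) n)
    have hpow : ∀ n : ℕ, ∃ e, (P * w * P) ^ (n + 1) = P * w ^ (n + 1) * P + c.π • c.π • e := by
      intro n
      induction n with
      | zero => exact ⟨0, by simp⟩
      | succ n ih =>
        obtain ⟨e, he⟩ := ih
        obtain ⟨s', hs'⟩ := hdiv (w ^ (n + 1)) s (hwn _) hPs
        refine ⟨e * (P * w * P) - s', ?_⟩
        rw [pow_succ, he, add_mul, hprod _ w s hs, hs', smul_mul_assoc, smul_mul_assoc,
          ← pow_succ, smul_sub, smul_sub]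
        abel
    obtain ⟨e, he⟩ := hpow (ℓ - 1)
    have hℓ1 : ℓ - 1 + 1 = ℓ := Nat.sub_add_cancel hℓ.out.one_lt.le
    rw [hℓ1] at he
    have hκpow : ∀ n : ℕ, κs (τ w ^ (n + 1)) = (P * w * P) ^ (n + 1) := by
      intro n
      induction n with
      | zero => simp [hτ]
      | succ n ih => rw [pow_succ, hκs.mul, ih, hτ, ← pow_succ]
    have h1 := hκpow (ℓ - 1)
    rw [hℓ1] at h1
    have he2 : (P * w * P) ^ ℓ = P + c.π • (P * G * P) + c.π • c.π • (P * e * P) := by
      have h2 : P * (P * w * P) ^ ℓ * P = (P * w * P) ^ ℓ := by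
        rw [← hℓ1]
        have h3 : P * (P * w * P) = P * w * P := by simp only [← mul_assoc, hP]
        have h4 : P * w * P * P = P * w * P := by rw [mul_assoc, hP]
        rw [pow_succ', ← mul_assoc, h3, ← pow_succ', pow_succ, mul_assoc, h4, ← pow_succ]
      rw [← h2, he, hwℓ]
      simp only [mul_add, add_mul, mul_one, mul_smul_comm, smul_mul_assoc, hP]
      rw [hPP]
    refine ⟨τ w, τ G + c.π • τ e, ?_, ?_, ?_⟩
    · apply hκ.inj
      rw [hc, hτ, hαY, map_mul, map_mul, hw, ← hα, mul_assoc, hp]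
    · apply hκs.inj
      rw [h1, he2, map_add, hκs.one, map_smul, map_add, map_smul, hτ, hτ, smul_add, add_assoc]
    · refine hIV _ hG _ ?_
      rw [map_add, q_pi, add_zero, map_sub, hc, hτ, map_sum, mul_sub, sub_mul, Finset.mul_sum,
        Finset.sum_mul, map_mul, map_mul]
      congr 1
      refine Finset.sum_congr rfl fun u _ => ?_
      rw [map_smul, hαY, mul_smul_comm, smul_mul_assoc, ← hα, mul_assoc, hp]
  · intro u v
    obtain ⟨a, b, d, ha, hb, hab, hd⟩ := hR.cm u v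
    obtain ⟨ra, hra, hPra⟩ := hcomm a u ha
    obtain ⟨rb, hrb, hPrb⟩ := hcomm b v hb
    obtain ⟨sa, hsa⟩ := hdiv a rb (by rw [ha, hα]) hPrb
    obtain ⟨sb, hsb⟩ := hdiv b ra (by rw [hb, hα]) hPra
    have hq : ∀ (a : D) (u : V), f.q a = α u → fY.q (τ a) = αY u := by
      intro a u ha
      apply hκ.inj
      rw [hc, hτ, hαY, map_mul, map_mul, ha, ← hα, mul_assoc, hp]
    refine ⟨τ a, τ b, τ d - c.π • τ (sa - sb), hq a u ha, hq b v hb, ?_, ?_⟩
    · apply hκs.inj
      rw [map_sub, hκs.mul, hκs.mul, map_smul, map_sub, map_smul]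
      simp only [hτ]
      have e1 := hprod a b rb hrb
      have e2 := hprod b a ra hra
      have e3 : P * a * P * (P * b * P) - P * b * P * (P * a * P) =
          c.π • (P * d * P) - c.π • c.π • (sa - sb) := by
        rw [e1, e2, hsa, hsb]
        have e4 : P * (a * b) * P - P * (b * a) * P = c.π • (P * d * P) := by
          rw [← sub_mul, ← mul_sub, hab, mul_smul_comm, smul_mul_assoc]
        rw [← e4, smul_sub, smul_sub]
        abel
      have e5 : P * (P * a * P * (P * b * P) - P * b * P * (P * a * P)) * P =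
          P * a * P * (P * b * P) - P * b * P * (P * a * P) := by
        have h3 : ∀ x : D, P * (P * x) = P * x := fun x => by rw [← mul_assoc, hP]
        have h4 : ∀ x : D, x * P * P = x * P := fun x => by rw [mul_assoc, hP]
        simp only [mul_sub, sub_mul, mul_assoc, h3, hP]
      rw [← e5, e3, mul_sub, sub_mul, smul_sub c.π (P * d * P)]
      simp only [mul_smul_comm, smul_mul_assoc, hPP]
    · refine hIV _ hd _ ?_
      rw [map_sub, q_pi, sub_zero, hc, hτ, map_mul, map_mul]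

end

end Pool.Agent.PST.ET.H83
end
end -- Pool.Agent.Helper83_PST.CRG
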