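import Pool.Agent.Helper12_AWB.B029
import Pool.Agent.Helper12_AWB.B036
import Pool.Agent.Helper12_AWB.B186

/-!
# Merged copies (generated) of the modules

* `Pool.Agent.Helper29_PST.KLF`
* `Pool.Agent.Helper2_PST.ILF`
* `Pool.Agent.Helper37_PST.COM`
* `Pool.Agent.Helper58_PST.SEX`
-/

set_option autoImplicit false

section -- Pool.Agent.Helper29_PST.KLF

/-! # PST block ET, row KLF (uses PCM, KRS): an integral combination of idempotents which is a sum of
commutators modulo `π` is a sum of commutators. -/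

noncomputable section

namespace Pool.Agent.PST.ET.H29

open Pool.Agent.PFD.D2 (Cdv FibG)

theorem klf (hP : PcmStmt) (hK : KrsStmt) : KlfStmt := by
  intro ℓ hℓ R F D H ι _ _ _ _ _ c _ _ _ _ _ f _ j m hj hx
  obtain ⟨hadd, hpow⟩ := hP ℓ R D
  have hsm : ∀ (r : R) (x : D), f.q (r • x) = c.κ r • f.q x := by
    intro r x
    rw [Algebra.smul_def, map_mul, f.sc, ← Algebra.smul_def]
  have hlift : ∀ h ∈ cmt F H, ∃ c0 ∈ cmt R D, f.q c0 = h := by
    intro h hh
    refine Submodule.span_induction (p := fun h _ => ∃ c0 ∈ cmt R D, f.q c0 = h) ?_ ?_ ?_ ?_ hh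
    · rintro _ ⟨a, b, rfl⟩
      obtain ⟨a', rfl⟩ := f.surj a
      obtain ⟨b', rfl⟩ := f.surj b
      exact ⟨a' * b' - b' * a', Submodule.subset_span ⟨a', b', rfl⟩, by
        rw [map_sub, map_mul, map_mul]⟩
    · exact ⟨0, Submodule.zero_mem _, map_zero _⟩
    · rintro x y _ _ ⟨x', hx', rfl⟩ ⟨y', hy', rfl⟩
      exact ⟨x' + y', Submodule.add_mem _ hx' hy', map_add _ _ _⟩
    · rintro r x _ ⟨x', hx', rfl⟩
      obtain ⟨r', rfl⟩ := c.surj r
      exact ⟨r' • x', Submodule.smul_mem _ _ hx', hsm _ _⟩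
  set x : D := ∑ i, m i • j i with hxdef
  obtain ⟨c0, hc0, hc0q⟩ := hlift _ hx
  obtain ⟨d, hd⟩ := f.ker (x - c0) (by
    rw [map_sub, hc0q, hxdef, map_sum, sub_eq_zero]
    exact Finset.sum_congr rfl fun i _ => map_zsmul _ _ _)
  -- congruences
  have hcong : ∀ a b : D, a - b ∈ cmt R D → a ^ ℓ - b ^ ℓ ∈ cmt R D := by
    intro a b hab
    have h1 := hadd b (a - b)
    rw [add_sub_cancel] at h1
    have h2 := Submodule.add_mem _ h1 (hpow _ hab)
    have h3 : a ^ ℓ - b ^ ℓ - (a - b) ^ ℓ + (a - b) ^ ℓ = a ^ ℓ - b ^ ℓ := by abel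
    rwa [h3] at h2
  have hsum : ∀ (s : Finset ι) (g : ι → D), (∑ i ∈ s, g i) ^ ℓ - ∑ i ∈ s, g i ^ ℓ ∈ cmt R D := by
    classical
    intro s g
    induction s using Finset.induction_on with
    | empty =>
      rw [Finset.sum_empty, Finset.sum_empty, zero_pow hℓ.out.ne_zero, sub_zero]
      exact Submodule.zero_mem _
    | insert i s hi ih =>
      rw [Finset.sum_insert hi, Finset.sum_insert hi]
      have h1 := Submodule.add_mem _ (hadd (g i) (∑ i ∈ s, g i)) ih
      have h2 : (g i + ∑ i ∈ s, g i) ^ ℓ - g i ^ ℓ - (∑ i ∈ s, g i) ^ ℓ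
            + ((∑ i ∈ s, g i) ^ ℓ - ∑ i ∈ s, g i ^ ℓ)
          = (g i + ∑ i ∈ s, g i) ^ ℓ - (g i ^ ℓ + ∑ i ∈ s, g i ^ ℓ) := by abel
      rwa [h2] at h1
  have hfer : ∀ k : ℤ, ((k : R)) ^ ℓ = (k : R) := by
    intro k
    have h1 : ((k : ZMod ℓ)) ^ ℓ = (k : ZMod ℓ) := ZMod.pow_card _
    have h2 := congrArg (ZMod.castHom (dvd_refl ℓ) R) h1
    rwa [map_pow, map_intCast] at h2
  have hone : ∀ i, (m i • j i) ^ ℓ = m i • j i := by
    intro i
    have h1 : m i • j i = (m i : R) • j i := (Int.cast_smul_eq_zsmul R (m i) (j i)).symm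
    have h2 : ∀ n : ℕ, 0 < n → (j i) ^ n = j i := by
      intro n hn
      obtain ⟨k, rfl⟩ : ∃ k, n = k + 1 := ⟨n - 1, by omega⟩
      induction k with
      | zero => simp
      | succ k ih => rw [pow_succ, ih (by omega), hj]
    rw [h1, smul_pow, hfer, h2 ℓ hℓ.out.pos]
  have hxℓ : x ^ ℓ - x ∈ cmt R D := by
    have h1 := hsum Finset.univ (fun i => m i • j i)
    simp only [hone] at h1
    exact h1
  have hP2 : ∀ n : ℕ, x - c.π ^ (ℓ ^ n) • d ^ (ℓ ^ n) ∈ cmt R D := by
    intro n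
    induction n with
    | zero =>
      rw [pow_zero, pow_one, pow_one, ← hd, sub_sub_cancel]
      exact hc0
    | succ n ih =>
      have h1 := hcong _ _ ih
      rw [smul_pow, ← pow_mul, ← pow_mul, ← pow_succ] at h1
      have h2 := Submodule.sub_mem _ h1 hxℓ
      have h3 : x ^ ℓ - c.π ^ ℓ ^ (n + 1) • d ^ ℓ ^ (n + 1) - (x ^ ℓ - x)
          = x - c.π ^ ℓ ^ (n + 1) • d ^ ℓ ^ (n + 1) := by abel
      rwa [h3] at h2
  refine hK R F D c (cmt R D) x fun n => ?_
  have hn : n ≤ ℓ ^ n := (Nat.lt_pow_self hℓ.out.one_lt).le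
  refine ⟨c.π ^ (ℓ ^ n - n) • d ^ (ℓ ^ n), ?_⟩
  rw [smul_smul, ← pow_add, Nat.add_sub_cancel' hn]
  exact hP2 n

end Pool.Agent.PST.ET.H29
end
end -- Pool.Agent.Helper29_PST.KLF

section -- Pool.Agent.Helper2_PST.ILF

/-!
# Squad PST, row ILF (helper2): idempotents lift
-/

set_option autoImplicit false

noncomputable section

namespace Pool.Agent.PST.ET.H2

open Pool.Agent.PFD.D2 (Cdv FibG)
open Pool.Agent.PST.ET

theorem ilf_of (hI : Pool.Agent.PFD.D2.IdgStmt) : IlfStmt := by
  intro R F D H _ _ _ _ c _ _ _ _ _ _ f j hj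
  obtain ⟨a, rfl⟩ := f.surj j
  have hπ : c.κ c.π = 0 := (c.ker _).mpr ⟨1, (mul_one _).symm⟩
  have hq : ∀ y : D, f.q (c.π • y) = 0 := fun y => by
    rw [Algebra.smul_def, map_mul, f.sc, hπ, map_zero, zero_mul]
  obtain ⟨y0, hy0⟩ := f.ker (a * a - a) (by rw [map_sub, map_mul, hj, sub_self])
  obtain ⟨g, hg, hgS, hge⟩ := hI R F D c (Set.range fun b : D => LinearMap.mulLeft R b)
    (LinearMap.mulRight R a) (by
      rintro s ⟨b, rfl⟩
      ext x
      simp [mul_assoc]) (fun x => ⟨x * y0, by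
      rw [LinearMap.mulRight_apply, LinearMap.mulRight_apply, mul_assoc, ← mul_sub, hy0,
        mul_smul_comm]⟩)
  have hgl : ∀ x : D, g x = x * g 1 := fun x => by
    have h1 := LinearMap.congr_fun (hgS (LinearMap.mulLeft R x) ⟨x, rfl⟩) 1
    simp only [Module.End.mul_apply, LinearMap.mulLeft_apply, mul_one] at h1
    exact h1.symm
  refine ⟨g 1, ?_, ?_⟩
  · rw [← hgl (g 1)]
    exact LinearMap.congr_fun hg 1
  · obtain ⟨y, hy⟩ := hge 1
    rw [LinearMap.mulRight_apply, one_mul, sub_eq_iff_eq_add] at hy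
    rw [hy, map_add, hq, zero_add]

theorem ilf : IlfStmt := ilf_of (Pool.Agent.PFD.D2.H76.idg Pool.Agent.PFD.D2.H10.sug)

end Pool.Agent.PST.ET.H2
end
end -- Pool.Agent.Helper2_PST.ILF

section -- Pool.Agent.Helper37_PST.COM

/-!
# Squad PST, row COM: the `σ v` commute
-/

set_option autoImplicit false

open scoped BigOperators

noncomputable section

namespace Pool.Agent.PST.ET.H37

open Pool.Agent.PST.ET
open Pool.Agent.PFD.D2 (Cdv FibG)

section
variable {R Hs : Type} [CommRing R] [Ring Hs] [Algebra R Hs]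

/-- the submodule `p ^ k N` -/
def Mk (p : R) (N : Submodule R Hs) (k : ℕ) : Submodule R Hs :=
  N.map (LinearMap.lsmul R Hs (p ^ k))

theorem mem_Mk {p : R} {N : Submodule R Hs} {k : ℕ} {a : Hs} :
    a ∈ Mk p N k ↔ ∃ d ∈ N, a = p ^ k • d := by
  unfold Mk
  rw [Submodule.mem_map]
  constructor
  · rintro ⟨d, hd, rfl⟩
    exact ⟨d, hd, by rw [LinearMap.lsmul_apply]⟩
  · rintro ⟨d, hd, rfl⟩
    exact ⟨d, hd, by rw [LinearMap.lsmul_apply]⟩

theorem Mk_mul_left {p : R} {N : Subalgebra R Hs} {k : ℕ} {a b : Hs} (ha : a ∈ N)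
    (hb : b ∈ Mk p N.toSubmodule k) : a * b ∈ Mk p N.toSubmodule k := by
  rw [mem_Mk] at hb ⊢
  obtain ⟨d, hd, rfl⟩ := hb
  exact ⟨a * d, N.mul_mem ha hd, by rw [mul_smul_comm]⟩

theorem Mk_mul_right {p : R} {N : Subalgebra R Hs} {k : ℕ} {a b : Hs} (ha : a ∈ N)
    (hb : b ∈ Mk p N.toSubmodule k) : b * a ∈ Mk p N.toSubmodule k := by
  rw [mem_Mk] at hb ⊢
  obtain ⟨d, hd, rfl⟩ := hb
  exact ⟨d * a, N.mul_mem hd ha, by rw [smul_mul_assoc]⟩

theorem Mk_anti {p : R} {N : Submodule R Hs} {k j : ℕ} (h : j ≤ k) {a : Hs} (ha : a ∈ Mk p N k) :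
    a ∈ Mk p N j := by
  rw [mem_Mk] at ha ⊢
  obtain ⟨d, hd, rfl⟩ := ha
  refine ⟨p ^ (k - j) • d, N.smul_mem _ hd, ?_⟩
  rw [smul_smul, ← pow_add, Nat.add_sub_cancel' h]

/-- the elements of `N` whose commutators with `N` are in `p ^ k N` -/
def Bk (p : R) (N : Subalgebra R Hs) (k : ℕ) : Subalgebra R Hs where
  carrier := {a | a ∈ N ∧ ∀ b ∈ N, a * b - b * a ∈ Mk p N.toSubmodule k}
  mul_mem' := by
    rintro a a' ⟨ha, ha2⟩ ⟨hb, hb2⟩
    refine ⟨N.mul_mem ha hb, fun b hb' => ?_⟩
    have e : a * a' * b - b * (a * a') = a * (a' * b - b * a') + (a * b - b * a) * a' := by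
      noncomm_ring
    rw [e]
    exact Submodule.add_mem _ (Mk_mul_left ha (hb2 b hb')) (Mk_mul_right hb (ha2 b hb'))
  add_mem' := by
    rintro a a' ⟨ha, ha2⟩ ⟨hb, hb2⟩
    refine ⟨N.add_mem ha hb, fun b hb' => ?_⟩
    have e : (a + a') * b - b * (a + a') = (a * b - b * a) + (a' * b - b * a') := by
      noncomm_ring
    rw [e]
    exact Submodule.add_mem _ (ha2 b hb') (hb2 b hb')
  algebraMap_mem' := by
    intro r
    refine ⟨N.algebraMap_mem r, fun b _ => ?_⟩
    rw [Algebra.commutes, sub_self]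
    exact Submodule.zero_mem _

theorem mem_Bk {p : R} {N : Subalgebra R Hs} {k : ℕ} {a : Hs} :
    a ∈ Bk p N k ↔ a ∈ N ∧ ∀ b ∈ N, a * b - b * a ∈ Mk p N.toSubmodule k := Iff.rfl

/-- the power of the commutation operator in characteristic `ℓ` -/
theorem ad_pow (ℓ : ℕ) (hℓ : ℓ.Prime) (h0 : ∀ z : Hs, (ℓ : R) • z = 0) (s b : Hs) :
    ((LinearMap.mulLeft R s - LinearMap.mulRight R s) ^ ℓ) b = s ^ ℓ * b - b * s ^ ℓ := by
  have hc : Commute (LinearMap.mulLeft R s - LinearMap.mulRight R s) (LinearMap.mulRight R s) :=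
    (LinearMap.commute_mulLeft_right (R := R) s s).sub_left (Commute.refl _)
  have h1 := hc.add_pow_prime_eq hℓ
  rw [sub_add_cancel, LinearMap.pow_mulLeft, LinearMap.pow_mulRight, mul_assoc, mul_assoc] at h1
  have h2 := congrArg (fun φ : Hs →ₗ[R] Hs => φ b) h1
  simp only [LinearMap.add_apply, LinearMap.mulLeft_apply, LinearMap.mulRight_apply] at h2
  have h3 : ∀ φ : Module.End R Hs, ((ℓ : Module.End R Hs) * φ) b = 0 := by
    intro φ
    rw [Module.End.mul_apply, Module.End.natCast_apply, ← Nat.cast_smul_eq_nsmul R, h0]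
  rw [h3, add_zero] at h2
  rw [h2]
  abel

end

/-- COM -/
theorem com (gen : GenStmt) (rli : RliStmt) (tor : TorStmt) : ComStmt := by
  intro ℓ r _ R F V H Hs _ _ _ _ _ _ _ _ _ _ _ _ c f α lam' lam xx t σ hV hE hP h1 hq hmul hpw hcm
  have hℓ : ℓ.Prime := Fact.out
  have hℓ2 : 2 ≤ ℓ := hℓ.two_le
  obtain ⟨tor1, tor2⟩ := tor R F Hs c
  obtain ⟨_, _, hpure⟩ := rli R F V H Hs c f α lam' σ hP hq
  -- the subalgebra
  have hmul' : ∀ a ∈ Submodule.span R (Set.range σ), ∀ b ∈ Submodule.span R (Set.range σ),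
      a * b ∈ Submodule.span R (Set.range σ) := by
    intro a ha b hb
    have h2 := Submodule.mul_mem_mul ha hb
    rw [Submodule.span_mul_span] at h2
    refine Submodule.span_le.2 ?_ h2
    rintro _ ⟨_, ⟨u, rfl⟩, _, ⟨v, rfl⟩, rfl⟩
    exact hmul u v
  obtain ⟨N, hN⟩ : ∃ N : Subalgebra R Hs, ∀ a, a ∈ N ↔ a ∈ Submodule.span R (Set.range σ) :=
    ⟨{ carrier := {a | a ∈ Submodule.span R (Set.range σ)}
       mul_mem' := fun {a b} ha hb => hmul' a ha b hb
       add_mem' := fun {a b} ha hb => (Submodule.span R (Set.range σ)).add_mem ha hb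
       algebraMap_mem' := fun s => by
        show algebraMap R Hs s ∈ Submodule.span R (Set.range σ)
        rw [Algebra.algebraMap_eq_smul_one, ← h1]
        exact Submodule.smul_mem _ _ (Submodule.subset_span ⟨1, rfl⟩) }, fun a => Iff.rfl⟩
  have hσ : ∀ v, σ v ∈ N := fun v => (hN _).2 (Submodule.subset_span ⟨v, rfl⟩)
  have hpureN : ∀ h : Hs, c.π • h ∈ N → h ∈ N := fun h hh => (hN h).2 (hpure h ((hN _).1 hh))
  have hsm : ∀ (s : R) (z : Hs), f.q (s • z) = c.κ s • f.q z := by
    intro s z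
    rw [Algebra.smul_def, map_mul, f.sc, ← Algebra.smul_def]
  have hchar : ∀ z : Hs, (ℓ : R) • z = 0 := by
    intro z
    rw [CharP.cast_eq_zero, zero_smul]
  -- the claim
  have key : ∀ n : ℕ, 2 ≤ n → ∀ a ∈ N, ∀ b ∈ N, a * b - b * a ∈ Mk c.π N.toSubmodule n := by
    intro n hn
    induction n, hn using Nat.le_induction with
    | base =>
      have hb : ∀ v, σ v ∈ Bk c.π N 2 := by
        intro v
        refine mem_Bk.2 ⟨hσ v, fun b hb => ?_⟩
        rw [hN] at hb
        induction hb using Submodule.span_induction with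
        | mem b hb =>
          obtain ⟨u, rfl⟩ := hb
          obtain ⟨d, hd, hd2⟩ := hcm v u
          exact mem_Mk.2 ⟨d, (hN d).2 hd, hd2⟩
        | zero => rw [mul_zero, zero_mul, sub_self]; exact Submodule.zero_mem _
        | add b b' _ _ hb hb' =>
          have e : σ v * (b + b') - (b + b') * σ v = (σ v * b - b * σ v) + (σ v * b' - b' * σ v) := by
            noncomm_ring
          rw [e]
          exact Submodule.add_mem _ hb hb'
        | smul s b _ hb =>
          rw [mul_smul_comm, smul_mul_assoc, ← smul_sub]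
          exact Submodule.smul_mem _ _ hb
      intro a ha
      have h2 : a ∈ Bk c.π N 2 := by
        rw [hN] at ha
        refine (Submodule.span_le (p := (Bk c.π N 2).toSubmodule)).2 ?_ ha
        rintro _ ⟨v, rfl⟩
        exact hb v
      exact (mem_Bk.1 h2).2
    | succ n hn ih =>
      -- the multiples of `π`
      have hB1 : ∀ a ∈ N, c.π • a ∈ Bk c.π N (n + 1) := by
        intro a ha
        refine mem_Bk.2 ⟨N.smul_mem ha _, fun b hb => ?_⟩
        obtain ⟨d, hd, hd2⟩ := mem_Mk.1 (ih a ha b hb)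
        refine mem_Mk.2 ⟨d, hd, ?_⟩
        rw [smul_mul_assoc, mul_smul_comm, ← smul_sub, hd2, smul_smul, pow_succ']
      -- the elements `g`
      have hB2 : ∀ v (g : Hs), g ∈ N → σ v ^ ℓ = 1 + c.π • g → g ∈ Bk c.π N (n + 1) := by
        intro v g hg hpg
        refine mem_Bk.2 ⟨hg, fun b hb => ?_⟩
        have hk : ∀ j : ℕ, ((LinearMap.mulLeft R (σ v) - LinearMap.mulRight R (σ v)) ^ j) b ∈
            Mk c.π N.toSubmodule (n * j) := by
          intro j
          induction j with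
          | zero =>
            rw [pow_zero, Module.End.one_apply, mul_zero]
            exact mem_Mk.2 ⟨b, hb, by rw [pow_zero, one_smul]⟩
          | succ j ihj =>
            rw [pow_succ', Module.End.mul_apply]
            obtain ⟨d, hd, hd2⟩ := mem_Mk.1 ihj
            rw [hd2, map_smul]
            obtain ⟨d', hd', hd2'⟩ := mem_Mk.1 (ih (σ v) (hσ v) d hd)
            refine mem_Mk.2 ⟨d', hd', ?_⟩
            rw [LinearMap.sub_apply, LinearMap.mulLeft_apply, LinearMap.mulRight_apply, hd2',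
              smul_smul, ← pow_add, mul_add, mul_one]
        obtain ⟨d, hd, hd2⟩ := mem_Mk.1 (hk ℓ)
        rw [ad_pow ℓ hℓ hchar, hpg] at hd2
        have hle : n + 1 + 1 ≤ n * ℓ := by nlinarith
        obtain ⟨m, hm⟩ := Nat.exists_eq_add_of_le hle
        have e1 : c.π ^ 1 • ((g * b - b * g) - c.π ^ (n + 1 + m) • d) = 0 := by
          have e2 : (1 + c.π • g) * b - b * (1 + c.π • g) = c.π • (g * b - b * g) := by
            rw [add_mul, mul_add, smul_mul_assoc, mul_smul_comm, smul_sub, one_mul, mul_one]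
            abel
          rw [pow_one, smul_sub, ← e2, hd2, smul_smul, ← pow_succ', hm,
            show n + 1 + 1 + m = n + 1 + m + 1 by ring, sub_self]
        have e3 := sub_eq_zero.1 (tor1 1 _ e1)
        rw [e3]
        exact Mk_anti (Nat.le_add_right (n + 1) m) (mem_Mk.2 ⟨d, hd, rfl⟩)
      -- the image in `H`
      obtain ⟨Q, hQ⟩ : ∃ Q : Subalgebra F H, ∀ h, h ∈ Q ↔ ∃ a ∈ Bk c.π N (n + 1), f.q a = h :=
        ⟨{ carrier := {h | ∃ a ∈ Bk c.π N (n + 1), f.q a = h}
           mul_mem' := by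
            rintro _ _ ⟨a, ha, rfl⟩ ⟨b, hb, rfl⟩
            exact ⟨a * b, (Bk c.π N (n + 1)).mul_mem ha hb, map_mul _ _ _⟩
           add_mem' := by
            rintro _ _ ⟨a, ha, rfl⟩ ⟨b, hb, rfl⟩
            exact ⟨a + b, (Bk c.π N (n + 1)).add_mem ha hb, map_add _ _ _⟩
           algebraMap_mem' := by
            intro s
            obtain ⟨s', rfl⟩ := c.surj s
            exact ⟨algebraMap R Hs s', (Bk c.π N (n + 1)).algebraMap_mem s', f.sc s'⟩ },
          fun h => Iff.rfl⟩
      have hα : ∀ v, α v ∈ Q := by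
        have h2 := gen ℓ r F V (MonoidAlgebra F V) (MonoidAlgebra.of F V) lam xx t
          (Q.comap (MonoidAlgebra.lift F H V α)) hV hE (fun v => ?_)
        · intro v
          have h3 := h2 v
          rw [Subalgebra.mem_comap, MonoidAlgebra.lift_of] at h3
          exact h3
        · rw [Subalgebra.mem_comap, map_sum]
          obtain ⟨g, hg, hg1, hg2⟩ := hpw v
          have e1 : ∑ u, (MonoidAlgebra.lift F H V α) (gv lam xx t v u • (MonoidAlgebra.of F V) u) =
              f.q g := by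
            rw [hg2]
            refine Finset.sum_congr rfl fun u _ => ?_
            rw [map_smul, MonoidAlgebra.lift_of]
          rw [e1]
          exact (hQ _).2 ⟨g, hB2 v g ((hN g).2 hg) hg1, rfl⟩
      have hNB : ∀ b ∈ N, b ∈ Bk c.π N (n + 1) := by
        intro b hb
        have hqb : ∀ b ∈ Submodule.span R (Set.range σ), f.q b ∈ Q := by
          intro b hb'
          induction hb' using Submodule.span_induction with
          | mem b hb =>
            obtain ⟨u, rfl⟩ := hb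
            rw [hq]
            exact hα u
          | zero => rw [map_zero]; exact Q.zero_mem
          | add x y hx hy h2 h3 =>
            rw [map_add]
            exact Q.add_mem h2 h3
          | smul s x hx h2 =>
            rw [hsm]
            exact Q.smul_mem h2 _
        obtain ⟨a, ha, hab⟩ := (hQ _).1 (hqb b ((hN b).1 hb))
        obtain ⟨y, hy⟩ := f.ker (b - a) (by rw [map_sub, hab, sub_self])
        have haN : a ∈ N := (mem_Bk.1 ha).1
        have hyN : y ∈ N := hpureN y (by rw [← hy]; exact N.sub_mem hb haN)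
        have e1 : b = a + c.π • y := by rw [← hy]; abel
        rw [e1]
        exact (Bk c.π N (n + 1)).add_mem ha (hB1 y hyN)
      intro a ha
      exact (mem_Bk.1 (hNB a ha)).2
  intro u v
  refine sub_eq_zero.1 (tor2 _ fun n => ?_)
  obtain ⟨d, _, hd⟩ := mem_Mk.1 (Mk_anti (show n ≤ n + 2 by omega)
    (key (n + 2) (by omega) (σ u) (hσ u) (σ v) (hσ v)))
  exact ⟨d, hd⟩

end Pool.Agent.PST.ET.H37
end
end -- Pool.Agent.Helper37_PST.COM

section -- Pool.Agent.Helper58_PST.SEX

/-!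
# Squad PST, block ET, row SEX (helper58): the subalgebra exists
-/

open scoped BigOperators TensorProduct

noncomputable section

namespace Pool.Agent.PST.ET.H58

open Pool.Agent.PFD.D2 (Cdv FibG)

variable {R F D H : Type} [CommRing R] [Field F] {c : Cdv R F} [Ring D] [Algebra R D]
    [Ring H] [Algebra F H]

theorem q_smul (f : FibG D H c) (r : R) (x : D) : f.q (r • x) = c.κ r • f.q x := by
  rw [Algebra.smul_def, map_mul, f.sc, Algebra.smul_def]

theorem kpi (c : Cdv R F) : c.κ c.π = 0 := (c.ker c.π).2 ⟨1, (mul_one _).symm⟩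

theorem q_pi (f : FibG D H c) (n : ℕ) (hn : 1 ≤ n) (x : D) : f.q (c.π ^ n • x) = 0 := by
  rw [q_smul, map_pow, kpi, zero_pow (by omega), zero_smul]

theorem sex (ste : SteStmt) (krs : KrsStmt) (rli : RliStmt) (upr : UprStmt) : SexStmt := by
  intro R F V H Hs _ _ _ _ _ _ _ _ _ _ _ _ _ c f α lam hP hT
  have aa : ∀ x y : V, α x * α y = α (x * y) := fun x y => (map_mul α x y).symm
  -- a lift
  choose σ0 hσ0 using fun v => f.surj (α v)
  let P : ℕ → (V → Hs) → Prop := fun n σ => n = 0 ∨ ((∀ v, f.q (σ v) = α v) ∧ Cls c σ n)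
  have h1 : ∀ (n : ℕ) (x z : V → Hs), P n x → P n (x + c.π ^ n • z) := by
    intro n x z hx
    rcases hx with hx | ⟨hq, hc⟩
    · exact Or.inl hx
    · rcases Nat.eq_zero_or_pos n with hn | hn
      · exact Or.inl hn
      · right
        constructor
        · intro v
          simp only [Pi.add_apply, Pi.smul_apply]
          rw [map_add, q_pi f n hn, add_zero, hq]
        · intro u v
          obtain ⟨s, d, hd⟩ := hc u v
          refine ⟨s, d + (x u * z v + z u * x v + c.π ^ n • (z u * z v)) - ∑ w, s w • z w, ?_⟩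
          simp only [Pi.add_apply, Pi.smul_apply]
          have e1 : ∑ w, s w • (x w + c.π ^ n • z w) = ∑ w, s w • x w + c.π ^ n • ∑ w, s w • z w := by
            rw [Finset.smul_sum, ← Finset.sum_add_distrib]
            apply Finset.sum_congr rfl
            intro w _
            rw [smul_add, smul_comm (s w)]
          rw [e1, add_mul, mul_add, mul_add, hd]
          simp only [smul_mul_assoc, mul_smul_comm, smul_sub, smul_add]
          abel
  have h2 : ∀ (n : ℕ) (x : V → Hs), 1 ≤ n → P n x → ∃ z, P (n + 1) (x + c.π ^ n • z) := by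
    intro n x hn hx
    rcases hx with hx | ⟨hq, hc⟩
    · omega
    · obtain ⟨z, hz⟩ := ste R F V H Hs c f α lam hP hT n x hn hq hc
      refine ⟨z, Or.inr ⟨?_, hz⟩⟩
      intro v
      simp only [Pi.add_apply, Pi.smul_apply]
      rw [map_add, q_pi f n hn, add_zero, hq]
  have h3 : P 1 σ0 := by
    right
    refine ⟨hσ0, ?_⟩
    intro u v
    obtain ⟨d, hd⟩ := f.ker (σ0 u * σ0 v - σ0 (u * v)) (by
      rw [map_sub, map_mul, hσ0, hσ0, hσ0, aa, sub_self])
    refine ⟨Pi.single (u * v) 1, d, ?_⟩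
    rw [pow_one, ← hd, Finset.sum_eq_single (u * v)]
    · rw [Pi.single_eq_same, one_smul]
      abel
    · intro w _ hw
      rw [Pi.single_eq_of_ne hw, zero_smul]
    · intro h
      exact absurd (Finset.mem_univ _) h
  obtain ⟨z, hz⟩ := Pool.Agent.PFD.D2.H10.sug R F (V → Hs) c P h1 h2 σ0 h3
  set σ : V → Hs := σ0 + c.π • z with hσ
  have hq : ∀ v, f.q (σ v) = α v := by
    rcases hz 1 le_rfl with h | h
    · omega
    · exact h.1
  have hcl : ∀ n, Cls c σ (n + 1) := by
    intro n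
    rcases hz (n + 1) (by omega) with h | h
    · omega
    · exact h.2
  obtain ⟨rli1, rli2, rli3⟩ := rli R F V H Hs c f α lam σ hP hq
  set N : Submodule R Hs := Submodule.span R (Set.range σ) with hN
  have hmem : ∀ v, σ v ∈ N := fun v => Submodule.subset_span ⟨v, rfl⟩
  have hsum : ∀ s : V → R, ∑ w, s w • σ w ∈ N := fun s =>
    Submodule.sum_mem _ (fun w _ => Submodule.smul_mem _ _ (hmem w))
  have hmul : ∀ u v, σ u * σ v ∈ N := by
    intro u v
    apply krs R F Hs c N
    intro n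
    obtain ⟨s, d, hd⟩ := hcl n u v
    refine ⟨c.π • d, ?_⟩
    have e : σ u * σ v - c.π ^ n • (c.π • d) = ∑ w, s w • σ w := by
      rw [hd, smul_smul, ← pow_succ]
      abel
    rw [e]
    exact hsum s
  have hclosed : ∀ a ∈ N, ∀ b ∈ N, a * b ∈ N := by
    intro a ha b hb
    have h : N * N ≤ N := by
      rw [hN, Submodule.span_mul_span, Submodule.span_le]
      rintro x ⟨y, ⟨u, rfl⟩, w, ⟨v, rfl⟩, rfl⟩
      exact hmul u v
    exact h (Submodule.mul_mem_mul ha hb)
  -- the right multiplication by σ 1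
  let g : N →ₗ[R] N := (LinearMap.mulRight R (σ 1)).restrict (fun x hx => hclosed x hx _ (hmem 1))
  have : Module.Finite R N := Module.Finite.span_of_finite R (Set.finite_range σ)
  have hg : ∀ x : N, (g x : Hs) = x * σ 1 := fun x => rfl
  have hq1 : f.q (σ 1) = 1 := by rw [hq, map_one]
  have hgb := Pool.Agent.PFD.D2.H49.ung R F N c g (by
    intro x
    obtain ⟨h, hh⟩ := f.ker ((x : Hs) * σ 1 - x) (by
      rw [map_sub, map_mul, hq1, mul_one, sub_self])
    have hh2 : c.π • h ∈ N := by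
      rw [← hh]
      exact Submodule.sub_mem _ (hclosed _ x.2 _ (hmem 1)) x.2
    refine ⟨⟨h, rli3 h hh2⟩, ?_⟩
    apply Subtype.ext
    change (g x : Hs) - x = c.π • h
    rw [hg, hh])
  obtain ⟨e, he⟩ := hgb.2 ⟨σ 1, hmem 1⟩
  have he1 : (e : Hs) * σ 1 = σ 1 := by
    rw [← hg, he]
  have hu : IsUnit (σ 1) := by
    obtain ⟨d, hd⟩ := f.ker (σ 1 - 1) (by rw [map_sub, hq1, map_one, sub_self])
    apply upr R F Hs c (σ 1) 1 d d
    · rw [mul_one, ← hd]
      abel
    · rw [one_mul, ← hd]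
      abel
  have h1N : (1 : Hs) ∈ N := by
    have : (e : Hs) = 1 := by
      have e2 : (e : Hs) * σ 1 = 1 * σ 1 := by rw [he1, one_mul]
      exact hu.mul_right_cancel e2
    rw [← this]
    exact e.2
  obtain ⟨r, hr⟩ : ∃ r : V → R, ∑ w, r w • σ w = 1 := by
    rw [hN] at h1N
    exact (Submodule.mem_span_range_iff_exists_fun R).1 h1N
  have hr1 : c.κ (r 1) = 1 := by
    have e3 := congrArg (fun x => lam (f.q x)) hr
    simp only [map_sum, q_smul, hq, map_one, map_smul, hP.del] at e3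
    have e4 : lam 1 = 1 := by
      have := hP.del 1
      rw [map_one, if_pos rfl] at this
      exact this
    rw [e4] at e3
    simpa using e3
  obtain ⟨u, hu1⟩ := c.loc (r 1) (by rw [hr1]; exact one_ne_zero)
  set σ' : V → Hs := Function.update σ 1 1 with hσ'
  have hs1 : σ' 1 = 1 := by rw [hσ', Function.update_self]
  have hs2 : ∀ v, v ≠ 1 → σ' v = σ v := fun v hv => by rw [hσ', Function.update_of_ne hv]
  have hmem' : ∀ v, σ' v ∈ Submodule.span R (Set.range σ') := fun v => Submodule.subset_span ⟨v, rfl⟩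
  have hle : N ≤ Submodule.span R (Set.range σ') := by
    rw [hN, Submodule.span_le]
    rintro x ⟨v, rfl⟩
    by_cases hv : v = 1
    · subst hv
      have e5 : r 1 • σ 1 = 1 - ∑ w ∈ Finset.univ.erase 1, r w • σ w := by
        rw [← hr, ← Finset.add_sum_erase _ _ (Finset.mem_univ (1 : V))]
        abel
      have e6 : σ 1 = (↑u⁻¹ : R) • (r 1 • σ 1) := by
        rw [smul_smul, ← hu1, Units.inv_mul, one_smul]
      rw [e6, e5]
      apply Submodule.smul_mem
      apply Submodule.sub_mem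
      · rw [← hs1]
        exact hmem' 1
      · apply Submodule.sum_mem
        intro w hw
        rw [← hs2 w (Finset.ne_of_mem_erase hw)]
        exact Submodule.smul_mem _ _ (hmem' w)
    · rw [← hs2 v hv]
      exact hmem' v
  have hN' : ∀ v, σ' v ∈ N := by
    intro v
    by_cases hv : v = 1
    · subst hv
      rw [hs1]
      exact h1N
    · rw [hs2 v hv]
      exact hmem v
  refine ⟨σ', hs1, ?_, ?_⟩
  · intro v
    by_cases hv : v = 1
    · subst hv
      rw [hs1, map_one, map_one]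
    · rw [hs2 v hv, hq]
  · intro u v
    exact hle (hclosed _ (hN' u) _ (hN' v))

end Pool.Agent.PST.ET.H58
end
end -- Pool.Agent.Helper58_PST.SEX
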