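import Pool.Agent.Helper12_AWB.B186

/-!
# Merged copies (generated) of the modules

* `Pool.Agent.Helper27_PST.STE`
* `Pool.Agent.Helper40_PST.RTU`
-/

set_option autoImplicit false

section -- Pool.Agent.Helper27_PST.STE

set_option autoImplicit false

/-!
# Squad PST, row STE: the lifting step
-/

open scoped BigOperators TensorProduct

noncomputable section

namespace Pool.Agent.PST.ET.H27

open Pool.Agent.PFD.D2 (Cdv FibG)

section prj

variable {F V H : Type} [Field F] [CommGroup V] [Fintype V] [DecidableEq V] [Ring H] [Algebra F H]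

/-- the projection as a linear map -/
def Pl (α : V →* H) (lam : H →ₗ[F] F) : H →ₗ[F] H :=
  ∑ u, (lam ∘ₗ LinearMap.mulLeft F (α u⁻¹)).smulRight (α u)

theorem Pl_apply (α : V →* H) (lam : H →ₗ[F] F) (a : H) : Pl α lam a = prj α lam a := by
  simp [Pl, prj, LinearMap.sum_apply]

theorem Pl_of {α : V →* H} {lam : H →ₗ[F] F} (hP : Prj α lam) (w : V) :
    Pl α lam (α w) = α w := by
  rw [Pl_apply, prj, Finset.sum_eq_single w]
  · rw [← map_mul, inv_mul_cancel, hP.del, if_pos rfl, one_smul]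
  · intro u _ hu
    rw [← map_mul, hP.del, if_neg, zero_smul]
    intro h
    exact hu (inv_mul_eq_one.1 h)
  · intro h
    exact absurd (Finset.mem_univ w) h

theorem Pl_left {α : V →* H} {lam : H →ₗ[F] F} (u : V) (a : H) :
    Pl α lam (α u * a) = α u * Pl α lam a := by
  rw [Pl_apply, Pl_apply, prj, prj, Finset.mul_sum]
  refine (Fintype.sum_equiv (Equiv.mulLeft u) _ _ fun y => ?_).symm
  rw [Equiv.coe_mulLeft, mul_smul_comm, ← map_mul, ← mul_assoc, ← map_mul]
  congr 4
  rw [mul_inv_rev, inv_mul_cancel_right]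

theorem Pl_right {α : V →* H} {lam : H →ₗ[F] F} (hP : Prj α lam) (w : V) (a : H) :
    Pl α lam (a * α w) = Pl α lam a * α w := by
  rw [Pl_apply, Pl_apply, prj, prj, Finset.sum_mul]
  refine (Fintype.sum_equiv (Equiv.mulRight w) _ _ fun y => ?_).symm
  rw [Equiv.coe_mulRight, smul_mul_assoc, ← map_mul, ← mul_assoc, ← hP.inv w, ← mul_assoc,
    ← map_mul]
  congr 4
  rw [mul_inv_rev, mul_inv_cancel_left]

end prj

theorem ste (cob : CobStmt) (rli : RliStmt) (tor : TorStmt) : SteStmt := by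
  classical
  intro R F V H Hs _ _ _ _ _ _ _ _ _ _ c f α lam hP hT n σ hn hσ hC
  have hqs : ∀ (r : R) (x : Hs), f.q (r • x) = c.κ r • f.q x := fun r x => by
    rw [Algebra.smul_def, map_mul, f.sc, Algebra.smul_def]
  have hκπ : c.κ c.π = 0 := (c.ker c.π).2 ⟨1, by ring⟩
  have hκπn : c.κ (c.π ^ n) = 0 := by
    rw [map_pow, hκπ, zero_pow (by omega)]
  choose s0 d0 h0 using hC
  -- the corrected data
  let L : F → R := Function.surjInv c.surj
  have hL : ∀ x, c.κ (L x) = x := Function.surjInv_eq c.surj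
  let k : V → V → V → F := fun u v w => lam (α w⁻¹ * f.q (d0 u v))
  let s : V → V → V → R := fun u v w => s0 u v w + c.π ^ n * L (k u v w)
  let d : V → V → Hs := fun u v => d0 u v - ∑ w, L (k u v w) • σ w
  have hs : ∀ u v, σ u * σ v = ∑ w, s u v w • σ w + c.π ^ n • d u v := by
    intro u v
    rw [h0 u v]
    simp only [s, d, add_smul, Finset.sum_add_distrib, smul_sub, Finset.smul_sum, mul_smul]
    abel
  have hqd0 : ∀ u v, f.q (d u v) = f.q (d0 u v) - Pl α lam (f.q (d0 u v)) := by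
    intro u v
    simp only [d, map_sub, map_sum, hqs, hL, hσ, Pl_apply, prj, k]
  have hPP : ∀ a, Pl α lam (Pl α lam a) = Pl α lam a := by
    intro a
    rw [Pl_apply α lam a, prj, map_sum]
    refine Finset.sum_congr rfl fun u _ => ?_
    rw [map_smul, Pl_of hP]
  have hqd : ∀ u v, Pl α lam (f.q (d u v)) = 0 := by
    intro u v
    rw [hqd0, map_sub, hPP, sub_self]
  have hκs : ∀ u v w, c.κ (s u v w) = if w = u * v then 1 else 0 := by
    intro u v w
    have h1 : α (u * v) = ∑ x, c.κ (s u v x) • α x := by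
      have h2 := congrArg f.q (hs u v)
      rw [map_mul, hσ, hσ, ← map_mul, map_add, map_sum, hqs, hκπn, zero_smul, add_zero] at h2
      rw [h2]
      exact Finset.sum_congr rfl fun x _ => by rw [hqs, hσ]
    have h3 := congrArg (fun a => lam (α w⁻¹ * a)) h1
    simp only [Finset.mul_sum, map_sum, mul_smul_comm, map_smul, ← map_mul, hP.del,
      smul_eq_mul] at h3
    rw [Finset.sum_eq_single w] at h3
    · rw [inv_mul_cancel, if_pos rfl, mul_one] at h3
      rw [← h3]
      have h4 : (w⁻¹ * (u * v) = 1) ↔ (w = u * v) := inv_mul_eq_one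
      simp only [h4]
    · intro x _ hx
      rw [if_neg, mul_zero]
      intro h
      exact hx (inv_mul_eq_one.1 h).symm
    · intro h
      exact absurd (Finset.mem_univ w) h
  have hsum : ∀ (u v : V) (g : V → H), ∑ x, c.κ (s u v x) • g x = g (u * v) := by
    intro u v g
    simp only [hκs, ite_smul, one_smul, zero_smul]
    rw [Finset.sum_ite_eq' Finset.univ (u * v)]
    simp
  -- the cocycle identity
  have hcyc : ∀ u v w, α u * f.q (d v w) - f.q (d (u * v) w) + f.q (d u (v * w)) -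
      f.q (d u v) * α w = 0 := by
    intro u v w
    let r : V → R := fun y => ∑ x, s v w x * s u x y - ∑ x, s u v x * s x w y
    let E : Hs := σ u * d v w + ∑ x, s v w x • d u x - d u v * σ w - ∑ x, s u v x • d x w
    have e1 : σ u * (σ v * σ w) = ∑ y, (∑ x, s v w x * s u x y) • σ y +
        c.π ^ n • (σ u * d v w + ∑ x, s v w x • d u x) := by
      rw [hs v w, mul_add, Finset.mul_sum]
      have e2 : ∀ x, σ u * s v w x • σ x = ∑ y, (s v w x * s u x y) • σ y +
          c.π ^ n • (s v w x • d u x) := by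
        intro x
        rw [mul_smul_comm, hs u x, smul_add, Finset.smul_sum]
        congr 1
        · exact Finset.sum_congr rfl fun y _ => (mul_smul _ _ _).symm
        · rw [smul_comm]
      simp only [e2, Finset.sum_add_distrib]
      rw [Finset.sum_comm, smul_add, mul_smul_comm, Finset.smul_sum]
      simp only [Finset.sum_smul]
      abel
    have e3 : σ u * σ v * σ w = ∑ y, (∑ x, s u v x * s x w y) • σ y +
        c.π ^ n • (d u v * σ w + ∑ x, s u v x • d x w) := by
      rw [hs u v, add_mul, Finset.sum_mul]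
      have e2 : ∀ x, s u v x • σ x * σ w = ∑ y, (s u v x * s x w y) • σ y +
          c.π ^ n • (s u v x • d x w) := by
        intro x
        rw [smul_mul_assoc, hs x w, smul_add, Finset.smul_sum]
        congr 1
        · exact Finset.sum_congr rfl fun y _ => (mul_smul _ _ _).symm
        · rw [smul_comm]
      simp only [e2, Finset.sum_add_distrib]
      rw [Finset.sum_comm, smul_add, smul_mul_assoc, Finset.smul_sum]
      simp only [Finset.sum_smul]
      abel
    have e4 : ∑ y, r y • σ y = c.π ^ n • (-E) := by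
      have h1 := mul_assoc (σ u) (σ v) (σ w)
      rw [e1, e3] at h1
      have h2 : ∑ y, r y • σ y = ∑ y, (∑ x, s v w x * s u x y) • σ y -
          ∑ y, (∑ x, s u v x * s x w y) • σ y := by
        simp only [r, sub_smul, Finset.sum_sub_distrib]
      rw [h2]
      simp only [E]
      rw [sub_eq_iff_eq_add]
      have h3 := eq_sub_of_add_eq h1.symm
      rw [h3]
      simp only [smul_neg, smul_sub, smul_add]
      abel
    obtain ⟨hr1, -, -⟩ := rli R F V H Hs c f α lam σ hP hσ
    have hr2 := hr1 n r (-E) e4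
    choose r' hr' using hr2
    have e5 : ∑ y, r' y • σ y + E = 0 := by
      refine (tor R F Hs c).1 n _ ?_
      rw [smul_add, Finset.smul_sum]
      have : ∑ y, c.π ^ n • r' y • σ y = ∑ y, r y • σ y :=
        Finset.sum_congr rfl fun y _ => by rw [hr' y, mul_smul]
      rw [this, e4, smul_neg, neg_add_cancel]
    have e6 := congrArg f.q e5
    have hqE : f.q E = α u * f.q (d v w) + f.q (d u (v * w)) - f.q (d u v) * α w -
        f.q (d (u * v) w) := by
      simp only [E, map_sub, map_add, map_mul, map_sum, hqs, hσ]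
      rw [hsum v w (fun x => f.q (d u x)), hsum u v (fun x => f.q (d x w))]
    have hPE : Pl α lam (f.q E) = 0 := by
      rw [hqE, map_sub, map_sub, map_add, Pl_left, Pl_right hP, hqd, hqd, hqd, hqd]
      simp
    rw [map_add, map_sum, map_zero] at e6
    have e7 := congrArg (Pl α lam) e6
    rw [map_add, hPE, add_zero, map_zero, map_sum] at e7
    have e8 : ∑ y, Pl α lam (f.q (r' y • σ y)) = ∑ y, f.q (r' y • σ y) :=
      Finset.sum_congr rfl fun y _ => by rw [hqs, hσ, map_smul, Pl_of hP]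
    rw [e8] at e7
    rw [e7, zero_add, hqE] at e6
    rw [← e6]
    abel
  obtain ⟨g, hg⟩ := cob F V H α lam hP hT (fun u v => f.q (d u v))
    (fun u v => by rw [← Pl_apply]; exact hqd u v) hcyc
  choose z hz using fun u => f.surj (-g u)
  refine ⟨z, fun u v => ?_⟩
  have e1 : f.q (d u v + z u * σ v + σ u * z v - ∑ w, s u v w • z w) = 0 := by
    simp only [map_sub, map_add, map_mul, map_sum, hqs, hσ, hz]
    rw [hsum u v (fun x => -g x), ← hg u v]
    noncomm_ring
  obtain ⟨e, he⟩ := f.ker _ e1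
  refine ⟨s u v, e + c.π ^ (n - 1) • (z u * z v), ?_⟩
  have hpow : c.π ^ (n + 1) * c.π ^ (n - 1) = c.π ^ n * c.π ^ n := by
    rw [← pow_add, ← pow_add]
    congr 1
    omega
  have e2 : (σ u + c.π ^ n • z u) * (σ v + c.π ^ n • z v) =
      σ u * σ v + c.π ^ n • (z u * σ v + σ u * z v) + (c.π ^ n * c.π ^ n) • (z u * z v) := by
    rw [add_mul, mul_add, mul_add, smul_mul_assoc, smul_mul_assoc, mul_smul_comm, mul_smul_comm,
      smul_add, mul_smul]
    abel
  have e3 : ∑ w, s u v w • (σ w + c.π ^ n • z w) =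
      ∑ w, s u v w • σ w + c.π ^ n • ∑ w, s u v w • z w := by
    rw [Finset.smul_sum, ← Finset.sum_add_distrib]
    refine Finset.sum_congr rfl fun w _ => ?_
    rw [smul_add, smul_comm]
  have e4 : c.π ^ n • (d u v + z u * σ v + σ u * z v - ∑ w, s u v w • z w) =
      c.π ^ (n + 1) • e := by
    rw [he, ← mul_smul, pow_succ]
  have e5 : c.π ^ n • (z u * σ v + σ u * z v) = c.π ^ (n + 1) • e - c.π ^ n • d u v +
      c.π ^ n • ∑ w, s u v w • z w := by
    rw [← e4]
    simp only [smul_sub, smul_add]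
    abel
  rw [e2, e3, hs u v, e5, smul_add, ← mul_smul, hpow]
  abel

end Pool.Agent.PST.ET.H27
end
end -- Pool.Agent.Helper27_PST.STE

section -- Pool.Agent.Helper40_PST.RTU

/-! Row RTU of block ET of squad PST: the relative trace of an element of `F V` of nonzero
augmentation is a unit (helper40). -/

open scoped BigOperators

noncomputable section

namespace Pool.Agent.PST.H40

open Pool.Agent.PSS (RF FxR BKR cw bw Per Uni)
open Pool.Agent.PFC (Fx BK cj bi tw PS Frm PMid Cz)
open Finset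

namespace RTU

/-- an element of `F V` with nonzero augmentation is a unit -/
theorem unit_aug (ℓ : ℕ) [Fact ℓ.Prime] (F V B : Type) [Field F] [CharP F ℓ] [CommGroup V]
    [Fintype V] [Ring B] [Algebra F B] (αB : V →* B) (hV : IsPGroup ℓ V) (s : V → F)
    (hs : ∑ v, s v ≠ 0) : IsUnit (∑ v, s v • αB v) := by
  classical
  have : CharP (MonoidAlgebra F V) ℓ :=
    charP_of_injective_algebraMap (algebraMap F (MonoidAlgebra F V)).injective ℓ
  obtain ⟨m, hm⟩ := IsPGroup.iff_card.mp hV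
  have hv : ∀ v : V, v ^ ℓ ^ m = 1 := fun v => by rw [← hm]; exact pow_card_eq_one'
  set w : MonoidAlgebra F V := ∑ v, MonoidAlgebra.single v (s v) with hw
  have h1 : w ^ ℓ ^ m = algebraMap F (MonoidAlgebra F V) ((∑ v, s v) ^ ℓ ^ m) := by
    rw [hw, sum_pow_char_pow, sum_pow_char_pow, map_sum]
    refine sum_congr rfl fun v _ => ?_
    rw [MonoidAlgebra.single_pow, hv]
    rfl
  have h2 : IsUnit w := by
    have hne : ℓ ^ m ≠ 0 := pow_ne_zero _ (Fact.out : ℓ.Prime).ne_zero
    rw [← isUnit_pow_iff hne, h1]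
    exact (IsUnit.mk0 _ (pow_ne_zero _ hs)).map _
  have h3 := h2.map (MonoidAlgebra.lift F B V αB)
  have h4 : MonoidAlgebra.lift F B V αB w = ∑ v, s v • αB v := by
    rw [hw, map_sum]
    refine sum_congr rfl fun v _ => ?_
    rw [MonoidAlgebra.lift_single]
  rwa [h4] at h3

theorem fx_iff {F V A : Type} [Field F] [CommGroup V] [Ring A] [Algebra F A] (α : V →* A) (x : A) :
    x ∈ FxR (cw F α) ⊤ ↔ ∀ v, α v * x = x * α v := by
  have hi : ∀ v : V, α v⁻¹ * α v = 1 := fun v => by rw [← map_mul, inv_mul_cancel, map_one]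
  have hi' : ∀ v : V, α v * α v⁻¹ = 1 := fun v => by rw [← map_mul, mul_inv_cancel, map_one]
  constructor
  · intro h v
    have h1 : α v * (x * α v⁻¹) = x := h v trivial
    calc α v * x = α v * (x * α v⁻¹) * α v := by
          rw [← mul_assoc, mul_assoc _ (α v⁻¹), hi, mul_one]
      _ = x * α v := by rw [h1]
  · intro h v _
    change α v * (x * α v⁻¹) = x
    rw [← mul_assoc, h, mul_assoc, hi', mul_one]

end RTU

open RTU in
theorem rtu (bqx : Pool.Agent.PSS.S0.BqxStmt) (bpu : Pool.Agent.PSS.S0.BpuStmt)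
    (mck : Pool.Agent.PSS.S0.MckStmt) (zrt : Pool.Agent.PSS.S0.ZrtStmt) : ET.RtuStmt := by
  classical
  intro ℓ _ F V E H K _ _ _ _ _ _ _ _ _ φ α lam x y hV hnt hE hP hRF s hs
  have h0 : (ℓ : F) = 0 := CharP.cast_eq_zero F ℓ
  obtain ⟨B, iB, aB, αB, β, hβ⟩ := bqx F V H α ⊤
  have hper : Per F φ α := hP.ps
  have huni : Uni φ α := hP.uni
  obtain ⟨-, -, lamB, KB, iKB, xB, yB, hRB, hlam⟩ := bpu ℓ F V E H B K φ α ⊤ αB β lam x y φ.ker
    h0 hV hper huni hRF hβ (by
      intro e
      rw [MonoidHom.mem_ker]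
      constructor
      · intro h q _
        rw [h]
        rfl
      · intro h
        ext q
        exact h q trivial)
  -- `α v` and the combinations are fixed
  have hαf : ∀ v, α v ∈ FxR (cw F α) ⊤ := fun v => (fx_iff α _).mpr fun u => by
    rw [← map_mul, mul_comm, map_mul]
  have hcf : ∀ c : V → F, ∑ u, c u • α u ∈ FxR (cw F α) ⊤ := fun c =>
    Submodule.sum_mem _ fun u _ => Submodule.smul_mem _ _ (hαf u)
  have hβs : ∀ (t : Finset V) (g : V → H), (∀ u, g u ∈ FxR (cw F α) ⊤) →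
      β (∑ u ∈ t, g u) = ∑ u ∈ t, β (g u) := by
    intro t g hg
    have hβ0 : β 0 = 0 := by
      have := hβ.smul 0 0 (Submodule.zero_mem _)
      rwa [zero_smul, zero_smul] at this
    induction t using Finset.induction_on with
    | empty => simpa using hβ0
    | insert u t hu ih =>
      rw [sum_insert hu, sum_insert hu, hβ.add _ (hg u) _ (Submodule.sum_mem _ fun v _ => hg v), ih]
  have hβc : ∀ c : V → F, β (∑ u, c u • α u) = ∑ u, c u • αB u := by
    intro c
    rw [hβs _ _ fun u => Submodule.smul_mem _ _ (hαf u)]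
    refine sum_congr rfl fun u _ => ?_
    rw [hβ.smul _ _ (hαf u), hβ.om]
  -- `B` is spanned by the `αB u`
  have hspan : ∀ b : B, ∃ c : V → F, b = ∑ u, c u • αB u := by
    intro b
    obtain ⟨a, ha, rfl⟩ := hβ.surj b
    obtain ⟨c, hc⟩ := hP.spn ⊤ (by
      intro h
      obtain ⟨v, hv⟩ := exists_ne (1 : V)
      exact hv (Subgroup.mem_bot.mp (h (Subgroup.mem_top v)))) a ha
    refine ⟨c, ?_⟩
    rw [← hβc c]
    have hmem : a - ∑ u, c u • α u ∈ FxR (cw F α) ⊤ := Submodule.sub_mem _ ha (hcf c)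
    have h1 : β (a - ∑ u, c u • α u) = 0 := (hβ.ker _ hmem).mpr hc
    have h2 := hβ.add _ hmem _ (hcf c)
    rw [sub_add_cancel, h1, zero_add] at h2
    exact h2
  have hcomm : ∀ b b' : B, b * b' = b' * b := by
    intro b b'
    obtain ⟨c, rfl⟩ := hspan b
    obtain ⟨d, rfl⟩ := hspan b'
    rw [sum_mul_sum, sum_mul_sum, sum_comm]
    refine sum_congr rfl fun u _ => sum_congr rfl fun v _ => ?_
    rw [smul_mul_smul_comm, smul_mul_smul_comm, mul_comm (c v), ← map_mul, ← map_mul, mul_comm v]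
  -- `∑ xB yB` is a unit
  have hG : ∀ b : B, ∑ v, lamB (αB v⁻¹ * b) • αB v = b * ∑ v, lamB (αB v⁻¹) • αB v := by
    have h1 : ∀ u, ∑ v, lamB (αB v⁻¹ * αB u) • αB v = αB u * ∑ v, lamB (αB v⁻¹) • αB v := by
      intro u
      rw [mul_sum, ← Equiv.sum_comp (Equiv.mulLeft u)]
      refine sum_congr rfl fun v _ => ?_
      rw [Equiv.coe_mulLeft, ← map_mul, mul_smul_comm, ← map_mul]
      have : (u * v)⁻¹ * u = v⁻¹ := by
        rw [mul_inv, mul_comm u⁻¹, mul_assoc, inv_mul_cancel, mul_one]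
      rw [this]
    intro b
    obtain ⟨c, rfl⟩ := hspan b
    have h2 : ∀ v, lamB (αB v⁻¹ * ∑ u, c u • αB u) • αB v =
        ∑ u, c u • (lamB (αB v⁻¹ * αB u) • αB v) := by
      intro v
      rw [mul_sum, map_sum, sum_smul]
      refine sum_congr rfl fun u _ => ?_
      rw [mul_smul_comm, map_smul, smul_eq_mul, mul_smul]
    simp_rw [h2]
    rw [sum_comm, sum_mul]
    refine sum_congr rfl fun u _ => ?_
    rw [← smul_sum, h1, smul_mul_assoc]
  have hζ : IsUnit (∑ k, xB k * yB k) := by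
    have h1 : (∑ k, xB k * yB k) * ∑ v, lamB (αB v⁻¹) • αB v = 1 := by
      rw [← hRB.e1 1, sum_mul]
      refine sum_congr rfl fun k _ => ?_
      rw [mul_assoc, ← hG (yB k), mul_sum]
      refine sum_congr rfl fun v _ => ?_
      rw [mul_one, mul_smul_comm]
    exact ⟨⟨_, _, h1, by rw [hcomm, h1]⟩, rfl⟩
  -- the Mackey formula
  choose n n' hn1 hn2 hn3 using huni
  have : Fintype φ.range := Fintype.ofFinite _
  choose sec hsec using fun g : φ.range => g.2
  have hsecinj : Function.Injective sec := by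
    intro g g' h
    apply Subtype.ext
    rw [← hsec g, ← hsec g', h]
  set T : Finset E := univ.image sec with hT
  have hTcard : T.card = Nat.card φ.range := by
    rw [hT, card_image_of_injective _ hsecinj, card_univ, Nat.card_eq_fintype_card]
  have hTu : ∀ e : E, ∃! t, t ∈ T ∧ ∀ q ∈ (⊤ : Subgroup V), (φ t)⁻¹ q = (φ e)⁻¹ q := by
    intro e
    refine ⟨sec ⟨φ e, e, rfl⟩, ⟨mem_image_of_mem _ (mem_univ _), ?_⟩, ?_⟩
    · intro q _
      rw [hsec]
    · rintro t ⟨ht, htq⟩
      obtain ⟨g, -, rfl⟩ := mem_image.mp ht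
      have : φ (sec g) = φ e := by
        have h1 : (φ (sec g))⁻¹ = (φ e)⁻¹ := by
          ext q
          exact htq q trivial
        exact inv_injective h1
      have h2 : g = ⟨φ e, e, rfl⟩ := Subtype.ext (by rw [← hsec g, this])
      rw [← h2]
  set a : H := ∑ v, s v • α v with ha
  have hamem : a ∈ FxR (cw F α) ⊤ := hcf s
  have hm := mck ℓ F V E H B K KB φ α ⊤ αB β lam x y lamB xB yB n n' T h0 hV hper hRF hβ hRB hlam
    (fun e => ⟨hn1 e, hn2 e, hn3 e⟩) hTu a hamem
  -- the value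
  set w : B := ∑ v, (∑ t ∈ T, s ((φ t)⁻¹ v)) • αB v with hw
  have hconj : ∀ t, n t * a * n' t = ∑ v, s ((φ t)⁻¹ v) • α v := by
    intro t
    rw [ha, mul_sum, sum_mul, ← Equiv.sum_comp (φ t).toEquiv (fun v => s ((φ t)⁻¹ v) • α v)]
    refine sum_congr rfl fun v _ => ?_
    have e1 : (φ t)⁻¹ ((φ t) v) = v := MulAut.inv_apply_self V (φ t) v
    change _ = s ((φ t)⁻¹ ((φ t) v)) • α ((φ t) v)
    rw [e1, mul_smul_comm, smul_mul_assoc, hn3, mul_assoc, hn1, mul_one]
  have hval : β (∑ k, x k * a * y k) = (∑ k, xB k * yB k) * w := by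
    rw [hm]
    have h1 : ∀ t, ∑ k, xB k * β (n t * a * n' t) * yB k =
        (∑ k, xB k * yB k) * ∑ v, s ((φ t)⁻¹ v) • αB v := by
      intro t
      rw [hconj, hβc, sum_mul]
      refine sum_congr rfl fun k _ => ?_
      rw [mul_assoc, hcomm _ (yB k), ← mul_assoc]
    rw [sum_congr rfl fun t _ => h1 t, ← mul_sum, sum_comm, hw]
    simp_rw [sum_smul]
  have hwu : IsUnit w := by
    refine unit_aug ℓ F V B αB hV _ ?_
    rw [sum_comm]
    have h1 : ∀ t, ∑ v, s ((φ t)⁻¹ v) = ∑ v, s v := fun t =>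
      Equiv.sum_comp ((φ t)⁻¹ : MulAut V).toEquiv s
    rw [sum_congr rfl fun t _ => h1 t, sum_const, nsmul_eq_mul]
    refine mul_ne_zero ?_ hs
    intro h
    rw [CharP.cast_eq_zero_iff F ℓ, hTcard] at h
    exact hE (h.trans (Subgroup.card_range_dvd φ))
  have hβu : IsUnit (β (∑ k, x k * a * y k)) := hval ▸ hζ.mul hwu
  -- back to `H`
  set z : H := ∑ k, x k * a * y k with hz
  have hzc : ∀ c, c * z = z * c := zrt F V H K α lam x y hRF a hamem
  have hzf : z ∈ FxR (cw F α) ⊤ := (fx_iff α z).mpr fun v => hzc (α v)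
  have := hP.loc
  have hCz : ∀ b : H, b ∈ FxR (cw F α) ⊤ → b ∈ Cz F α ⊤ := by
    intro b hb
    rw [Cz, Subalgebra.mem_centralizer_iff]
    rintro _ ⟨v, -, rfl⟩
    exact (fx_iff α b).mp hb v
  obtain ⟨z', hz'f, hz'⟩ := hβ.surj (↑(hβu.unit⁻¹) : B)
  have hmul : β (z * z') = 1 := by
    rw [hβ.mul _ hzf _ hz'f, hz']
    exact hβu.mul_val_inv
  have h1f : (1 : H) ∈ FxR (cw F α) ⊤ := (fx_iff α _).mpr fun v => by rw [mul_one, one_mul]
  have hzz' : z * z' ∈ FxR (cw F α) ⊤ := (fx_iff α _).mpr fun v => by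
    rw [← mul_assoc, (fx_iff α z).mp hzf, mul_assoc, (fx_iff α z').mp hz'f, mul_assoc]
  have hsub : 1 - z * z' ∈ FxR (cw F α) ⊤ := Submodule.sub_mem _ h1f hzz'
  have hβ1 : β (1 - z * z') = 0 := by
    have h2 := hβ.add _ hsub _ hzz'
    rw [sub_add_cancel, hβ.one, hmul] at h2
    have := congrArg (fun b => b - 1) h2
    simpa using this.symm
  have hB : (1 : B) ≠ 0 := by
    intro h
    apply hP.one
    exact (hβ.ker 1 h1f).mp (by rw [hβ.one, h])
  have hloc := IsLocalRing.isUnit_or_isUnit_of_add_one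
    (a := (⟨z * z', hCz _ hzz'⟩ : Cz F α ⊤)) (b := ⟨1 - z * z', hCz _ hsub⟩)
    (Subtype.ext (by change z * z' + (1 - z * z') = 1; abel))
  rcases hloc with h | h
  · have h2 : IsUnit (z * z') := h.map (Cz F α ⊤).val
    obtain ⟨u, hu⟩ := h2
    refine ⟨⟨z, z' * ↑u⁻¹, ?_, ?_⟩, rfl⟩
    · rw [← mul_assoc, ← hu, Units.mul_inv]
    · have h3 : z * (z' * ↑u⁻¹) = 1 := by rw [← mul_assoc, ← hu, Units.mul_inv]
      rw [hzc, h3]
  · exfalso
    obtain ⟨u, hu⟩ := h
    have hu1 : (u : Cz F α ⊤).1 * (↑u⁻¹ : Cz F α ⊤).1 = 1 := by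
      have := congrArg Subtype.val (Units.mul_inv u)
      exact this
    have hu2 : (u : Cz F α ⊤).1 = 1 - z * z' := by rw [hu]
    have hinvf : (↑u⁻¹ : Cz F α ⊤).1 ∈ FxR (cw F α) ⊤ := by
      rw [fx_iff]
      intro v
      have h3 : ∀ g ∈ α '' ((⊤ : Subgroup V) : Set V), g * (↑u⁻¹ : Cz F α ⊤).1 =
          (↑u⁻¹ : Cz F α ⊤).1 * g :=
        (Subalgebra.mem_centralizer_iff F).mp (↑u⁻¹ : Cz F α ⊤).2
      exact h3 _ ⟨v, trivial, rfl⟩
    have h4 : β ((1 - z * z') * (↑u⁻¹ : Cz F α ⊤).1) = 0 := by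
      rw [hβ.mul _ hsub _ hinvf, hβ1, zero_mul]
    rw [← hu2, hu1, hβ.one] at h4
    exact hB h4

end Pool.Agent.PST.H40
end
end -- Pool.Agent.Helper40_PST.RTU
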