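import Pool.Agent.Helper12_AWB.B025
import Pool.Agent.Helper12_AWB.B185

/-!
# Merged copies (generated) of the modules

* `Pool.Agent.Helper10_PSS.LKC`
* `Pool.Agent.Helper10_PSS.NDM`
* `Pool.Agent.Helper18_PSS.NIL`
* `Pool.Agent.Helper37_PSS.STB`
* `Pool.Agent.Helper46_PSS.LNS`
* `Pool.Agent.Helper8_PSS.NDL`
* `Pool.Agent.Helper8_PSS.NQB`
* `Pool.Agent.Helper8_PSS.NQR`
* `Pool.Agent.Helper8_PSS.NZS`
* `Pool.Agent.Helper95_PSS.MDV`
-/

set_option autoImplicit false

section -- Pool.Agent.Helper10_PSS.LKC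

/-!
# PSS, block S5, row LKC: the local condition for the subgroups with a trivial centraliser in `E`
-/

set_option autoImplicit false

open scoped BigOperators TensorProduct

noncomputable section

namespace Pool.Agent.PSS.H10

open Pool.Agent.PSS.S5
open Pool.Agent.PFC (tw IsTv Cnr Cz PIn Ctf Lcq PmzStmt PS bi)
open Pool.Agent.PSS.S0 (IsBQ BqxStmt)

theorem lkc (lcq : LcqStmt) (nil : NilStmt) (lqx : LqxStmt) (bqx : BqxStmt) : LkcStmt := by
  intro ℓ _ F V E A _ _ _ _ _ _ _ _ _ φ α Q hV hL hQ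
  obtain ⟨E1, hE1⟩ : ∃ E1 : Subgroup E, ∀ e, e ∈ E1 ↔ ∀ q ∈ Q, φ e q = q :=
    ⟨{  carrier := {e | ∀ q ∈ Q, φ e q = q}
        one_mem' := fun q _ => by rw [map_one]; rfl
        mul_mem' := by
          intro a b ha hb q hq
          rw [map_mul, MulAut.mul_apply, hb q hq, ha q hq]
        inv_mem' := by
          intro a ha q hq
          have h1 : φ a q = q := ha q hq
          have h2 : (φ a)⁻¹ (φ a q) = q := MulAut.inv_apply_self _ _ _
          rw [h1] at h2
          rw [map_inv, h2] }, fun e => Iff.rfl⟩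
  obtain ⟨B, _, _, αB, β, hB⟩ := bqx F V A α Q
  have h1 := lcq ℓ F V E A B φ α Q αB β E1 hV hL hB hE1
  have h2 : Mxl F B := nil ℓ F V E1 B (φ.comp E1.subtype) αB hV
    (fun e => hQ e ((hE1 e).1 e.2)) h1
  exact lqx F V A B α Q αB β hB h2

end Pool.Agent.PSS.H10
end
end -- Pool.Agent.Helper10_PSS.LKC

section -- Pool.Agent.Helper10_PSS.NDM

/-!
# PSS, block S5, row NDM: the size of the matrix algebra is prime to `ℓ`
-/

set_option autoImplicit false

open scoped BigOperators TensorProduct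

noncomputable section

namespace Pool.Agent.PSS.H10

open Pool.Agent.PSS.S5

theorem ndm (ndl : NdlStmt) (mdv : MdvStmt) : NdmStmt := by
  intro ℓ _ F V E A _ _ _ _ _ _ _ φ α hV hφ hL n π hπ hk hn
  obtain ⟨L, hLd⟩ : ∃ L : Submodule F A, ∀ l, l ∈ L ↔ ∀ v, l * α v = l :=
    ⟨{  carrier := {l | ∀ v, l * α v = l}
        add_mem' := by
          intro a b ha hb v
          rw [add_mul, ha v, hb v]
        zero_mem' := fun v => zero_mul _
        smul_mem' := by
          intro c a ha v
          rw [smul_mul_assoc, ha v] }, fun l => Iff.rfl⟩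
  have h1 := ndl ℓ F V E A φ α hV hφ hL L hLd
  have := hL.fin
  obtain ⟨m, hm⟩ := mdv F A n π hπ hk L (by
    intro a l hl
    rw [hLd] at hl ⊢
    intro v
    rw [mul_assoc, hl v])
  rw [hm, Nat.cast_mul, hn, zero_mul] at h1
  exact zero_ne_one h1

end Pool.Agent.PSS.H10
end
end -- Pool.Agent.Helper10_PSS.NDM

section -- Pool.Agent.Helper18_PSS.NIL

/-!
# Squad PSS, block S5, row NIL (helper18): the nilpotent case
-/

open scoped BigOperators TensorProduct

noncomputable section

namespace Pool.Agent.PSS.S5.H18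

open Pool.Agent.PFC (tw IsTv Cnr Cz PIn Ctf Lcq PmzStmt PS bi)
open Pool.Agent.PSS.S0 (IsBQ)

section basic

variable {F V E A : Type} [Field F] [CommGroup V] [Fintype V] [Group E] [Ring A] [Algebra F A]

theorem lc_nontrivial {φ : E →* MulAut V} {α : V →* A} (h : Lc F φ α) : Nontrivial A := by
  have h1 := h.loc
  have h2 : Nontrivial (Cz F α ⊤) := h1.toNontrivial
  obtain ⟨x, y, hxy⟩ := h2
  exact ⟨(x : A), (y : A), fun h3 => hxy (Subtype.ext h3)⟩

theorem lc_unit {φ : E →* MulAut V} {α : V →* A} (hφ : ∀ e, φ e = 1) (h : Lc F φ α) :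
    Lc F (1 : Unit →* MulAut V) α := by
  refine ⟨h.fin, ?_, ?_, h.frm, h.loc, h.spn⟩
  · obtain ⟨Ω, i1, i2, b, c, hf, hs⟩ := h.per
    refine ⟨Ω, i1, i2, b, c, hf, fun ω => ?_⟩
    obtain ⟨e, S, hS⟩ := hs ω
    refine ⟨(), S, ?_⟩
    rw [hS, hφ e]
    rfl
  · intro e
    exact ⟨1, 1, mul_one 1, mul_one 1, fun u => by rw [one_mul, mul_one]; rfl⟩

omit [Fintype V] in
theorem card_cls : Nat.card (ConjClasses (V ⋊[(1 : Unit →* MulAut V)] Unit)) = Nat.card V := by
  have hc : ∀ a b : V ⋊[(1 : Unit →* MulAut V)] Unit, a * b = b * a := by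
    intro a b
    apply SemidirectProduct.ext
    · rw [SemidirectProduct.mul_left, SemidirectProduct.mul_left]
      change a.left * b.left = b.left * a.left
      exact mul_comm _ _
    · rfl
  have h1 : Function.Bijective
      (ConjClasses.mk : V ⋊[(1 : Unit →* MulAut V)] Unit → ConjClasses _) := by
    constructor
    · intro a b hab
      rw [ConjClasses.mk_eq_mk_iff_isConj, isConj_iff] at hab
      obtain ⟨c, hc1⟩ := hab
      rw [← hc1, hc c a, mul_assoc, mul_inv_cancel, mul_one]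
    · exact ConjClasses.mk_surjective
  rw [← Nat.card_congr (Equiv.ofBijective _ h1),
    Nat.card_congr SemidirectProduct.equivProd, Nat.card_prod,
    Nat.card_unique (α := Unit), mul_one]

theorem mxl_one {φ : E →* MulAut V} {α : V →* A} (hV : Nat.card V = 1) (h : Lc F φ α) :
    Mxl F A := by
  have hs : Subsingleton V := (Nat.card_eq_one_iff_unique.1 hV).1
  have hbot : BKR (cw F α) ⊤ = ⊥ := by
    rw [BKR, Submodule.span_eq_bot]
    rintro n ⟨P', S, m, hlt, -⟩
    exfalso
    apply hlt.ne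
    ext v
    rw [Subsingleton.elim v 1]
    exact ⟨fun _ => P'.one_mem |> fun _ => Subgroup.mem_top _, fun _ => P'.one_mem⟩
  have hfx : ∀ a : A, a ∈ FxR (cw F α) ⊤ := by
    intro a
    rw [mem_cw]
    intro q _
    rw [Subsingleton.elim q 1, map_one, one_mul, mul_one]
  have hsc : ∀ a : A, ∃ t : F, algebraMap F A t = a := by
    intro a
    obtain ⟨c, hc⟩ := h.spn a (hfx a)
    rw [hbot, Submodule.mem_bot, sub_eq_zero] at hc
    refine ⟨∑ u, c u, ?_⟩
    rw [hc, Algebra.algebraMap_eq_smul_one, Finset.sum_smul]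
    refine Finset.sum_congr rfl fun u _ => ?_
    rw [Subsingleton.elim u 1, map_one]
  have hnt := lc_nontrivial h
  have hbij : Function.Bijective (Algebra.ofId F A) :=
    ⟨(algebraMap F A).injective, fun a => hsc a⟩
  let e : F ≃ₐ[F] A := AlgEquiv.ofBijective (Algebra.ofId F A) hbij
  refine ⟨1, (Algebra.ofId F (Matrix (Fin 1) (Fin 1) F)).comp (e.symm : A →ₐ[F] F), one_pos,
    ?_, ?_, ?_⟩
  · intro M
    refine ⟨e (M 0 0), ?_⟩
    rw [AlgHom.comp_apply]
    change (Algebra.ofId F (Matrix (Fin 1) (Fin 1) F)) (e.symm (e (M 0 0))) = M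
    rw [AlgEquiv.symm_apply_apply, Algebra.ofId_apply]
    ext i j
    rw [Subsingleton.elim i 0, Subsingleton.elim j 0, Matrix.algebraMap_matrix_apply, if_pos rfl]
    rfl
  · intro a ha
    have h1 : (Algebra.ofId F (Matrix (Fin 1) (Fin 1) F)) (e.symm a) = 0 := ha
    have h2 : e.symm a = 0 := by
      rw [Algebra.ofId_apply] at h1
      have h3 := congrFun (congrFun h1 0) 0
      rw [Matrix.algebraMap_matrix_apply, if_pos rfl] at h3
      exact h3
    have h4 : a = 0 := by
      rw [← AlgEquiv.apply_symm_apply e a, h2, map_zero]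
    rw [h4]
    exact IsNilpotent.zero
  · rw [Nat.cast_one]
    exact one_ne_zero

theorem mxl_comp {B B' : Type} [Ring B] [Algebra F B] [Ring B'] [Algebra F B'] (p : B →ₐ[F] B')
    (hs : Function.Surjective p) (hn : ∀ b, p b = 0 → IsNilpotent b) (h : Mxl F B') :
    Mxl F B := by
  obtain ⟨n, π, hn0, hπ, hk, hnF⟩ := h
  refine ⟨n, π.comp p, hn0, hπ.comp hs, ?_, hnF⟩
  intro b hb
  obtain ⟨N, hN⟩ := hk (p b) hb
  rw [← map_pow] at hN
  obtain ⟨M, hM⟩ := hn _ hN
  exact ⟨N * M, by rw [pow_mul, hM]⟩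

omit [Fintype V] in
theorem ctf_unit {ℓ : ℕ} (hℓ : ℓ.Prime) (hp : IsPGroup ℓ V) (hV : Nat.card V ≠ 1) :
    Ctf ℓ (1 : Unit →* MulAut V) ⊥ := by
  have hnt : ∃ u : V, u ≠ 1 := by
    by_contra h
    push Not at h
    apply hV
    have : Subsingleton V := ⟨fun a b => by rw [h a, h b]⟩
    exact Nat.card_eq_one_iff_unique.2 ⟨this, ⟨1⟩⟩
  refine ⟨hℓ, hp, ?_, ?_, ?_, ⟨⊤, isCompl_top_bot, fun _ _ _ => trivial⟩, ?_⟩
  · obtain ⟨u, hu⟩ := hnt
    exact ⟨u, fun h => hu (Subgroup.mem_bot.1 h)⟩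
  · rw [Nat.card_unique]
    exact hℓ.one_lt.ne' ∘ Nat.dvd_one.1
  · intro e u hu
    rw [Subgroup.mem_bot.1 hu, map_one]
    exact Subgroup.one_mem _
  · intro e u _
    exact Or.inl rfl

end basic

theorem nil (lcq : LcqStmt) (nqt : NqtStmt) (lqx : LqxStmt) (kln : KlnStmt) (nzs : NzsStmt)
    (ryn : RynStmt) (ndm : NdmStmt) (bqx : S0.BqxStmt) : NilStmt := by
  intro ℓ _ F V E A _ _ _ _ _ _ _ _ _ φ α hp hφ hL
  obtain ⟨m, hm⟩ : ∃ m, Nat.card V = m := ⟨_, rfl⟩
  induction m using Nat.strong_induction_on generalizing V E A with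
  | _ m ih =>
    by_cases hV : Nat.card V = 1
    · exact mxl_one hV hL
    have hlc : ∀ Q : Subgroup V, ¬ Q ≤ ⊥ → ∃ n π, Lcq F α Q n π := by
      intro Q hQ
      obtain ⟨B, _, _, αB, β, hB⟩ := bqx F V A α Q
      have hLB := lcq ℓ F V E A B φ α Q αB β ⊤ hp hL hB (fun e => by
        refine ⟨fun _ q _ => ?_, fun _ => Subgroup.mem_top e⟩
        rw [hφ e]
        rfl)
      have hcen : ∀ q ∈ Q, ∀ b, αB q * b = b * αB q := by
        intro q hq b
        obtain ⟨a, ha, rfl⟩ := hB.surj b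
        have hq' : α q ∈ FxR (cw F α) Q := al_mem_cw q Q
        rw [← hB.om, ← hB.mul _ hq' _ ha, ← hB.mul _ ha _ hq', mem_cw.1 ha q hq]
      have : Fintype Q := Fintype.ofFinite _
      have : Fintype (V ⧸ Q) := Fintype.ofFinite _
      obtain ⟨B', _, _, α', p, hps, hpn, hL'⟩ := nqt ℓ F V _ B
        (φ.comp (⊤ : Subgroup E).subtype) αB Q hp (fun e => hφ e) hLB hcen
      have hcard : Nat.card (V ⧸ Q) < m := by
        have h1 : Nat.card V = Nat.card (V ⧸ Q) * Nat.card Q :=
          Subgroup.card_eq_card_quotient_mul_card_subgroup Q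
        have h2 : 1 < Nat.card Q := by
          by_contra h3
          have h4 : 0 < Nat.card Q := Nat.card_pos
          have h5 : Nat.card Q = 1 := by omega
          exact hQ (Subgroup.card_eq_one.1 h5).le
        have h6 : 0 < Nat.card (V ⧸ Q) := Nat.card_pos
        rw [← hm, h1]
        exact lt_mul_of_one_lt_right h6 h2
      have hM := ih _ hcard (V ⧸ Q) Unit B' (1 : Unit →* MulAut (V ⧸ Q)) α'
        (hp.to_quotient Q) (fun _ => rfl) hL' rfl
      exact lqx F V A B α Q αB β hB (mxl_comp p hps hpn hM)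
    have hnt := lc_nontrivial hL
    have hfin : FiniteDimensional F A := hL.fin
    have hz := kln ℓ F V Unit A 1 α ⊥ (ctf_unit Fact.out hp hV) (lc_unit hφ hL) hlc
    rw [card_cls] at hz
    obtain ⟨lam, K, _, x, y, hRF, -⟩ := hL.frm
    obtain ⟨n, π, hn, hπ, hk⟩ := ryn F A lam hRF.sym (fun a ha => by
      rw [← hRF.e2 a]
      refine Finset.sum_eq_zero fun k _ => Finset.sum_eq_zero fun v _ => ?_
      rw [ha, zero_smul]) (nzs ℓ F V E A φ α hp hφ hL hz)
    exact ⟨n, π, hn, hπ, hk, ndm ℓ F V E A φ α hp hφ hL n π hπ hk⟩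

end Pool.Agent.PSS.S5.H18
end
end -- Pool.Agent.Helper18_PSS.NIL

section -- Pool.Agent.Helper37_PSS.STB

/-!
# Squad PSS, row STB: the twisted Brauer quotients of the corner
-/

open scoped BigOperators

noncomputable section

namespace Pool.Agent.PSS.H37

open Pool.Agent.PFC (tw IsTv)
open Pool.Agent.PSS.S5
open Pool.Agent.PSS.S0 (IsBQ)

/-- an intertwiner maps relative traces to relative traces -/
theorem BKR_map {R H1 H2 M1 M2 : Type} [CommRing R] [Group H1] [Group H2] [AddCommGroup M1]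
    [Module R M1] [AddCommGroup M2] [Module R M2] (ρ1 : H1 →* (M1 →ₗ[R] M1))
    (ρ2 : H2 →* (M2 →ₗ[R] M2)) (ι : H1 →* H2) (hι : Function.Injective ι) (T : M1 →ₗ[R] M2)
    (hT : ∀ h m, T (ρ1 h m) = ρ2 (ι h) (T m)) (P : Subgroup H1) {m : M1} (hm : m ∈ BKR ρ1 P) :
    T m ∈ BKR ρ2 (P.map ι) := by
  have hle : BKR ρ1 P ≤ (BKR ρ2 (P.map ι)).comap T := by
    refine Submodule.span_le.mpr ?_
    rintro _ ⟨P', S, m, hlt, hTv, hm, rfl⟩
    change T (∑ x ∈ S, ρ1 x m) ∈ BKR ρ2 (P.map ι)
    refine Submodule.subset_span ⟨P'.map ι, S.map ⟨ι, hι⟩, T m, ?_, ⟨?_, ?_⟩, ?_, ?_⟩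
    · refine lt_of_le_of_ne (Subgroup.map_mono hlt.le) fun h => ?_
      exact hlt.ne (Subgroup.map_injective hι h)
    · intro s hs
      obtain ⟨s0, hs0, rfl⟩ := Finset.mem_map.mp hs
      exact ⟨s0, hTv.1 s0 hs0, rfl⟩
    · rintro _ ⟨p0, hp0, rfl⟩
      obtain ⟨s0, ⟨hs0, hsp⟩, huniq⟩ := hTv.2 p0 hp0
      refine ⟨ι s0, ⟨Finset.mem_map.mpr ⟨s0, hs0, rfl⟩, ⟨s0⁻¹ * p0, hsp, by
        rw [map_mul, map_inv]⟩⟩, ?_⟩
      rintro _ ⟨hs, hs2⟩
      obtain ⟨s1, hs1, rfl⟩ := Finset.mem_map.mp hs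
      obtain ⟨q, hq, hq2⟩ := hs2
      have h1 : q = s1⁻¹ * p0 := hι (by
        rw [hq2, map_mul, map_inv]
        rfl)
      have h2 := huniq s1 ⟨hs1, h1 ▸ hq⟩
      show ι s1 = ι s0
      rw [h2]
    · rintro _ ⟨h, hh, rfl⟩
      rw [← hT, hm h hh]
    · rw [map_sum, Finset.sum_map]
      exact Finset.sum_congr rfl fun x _ => hT x m
  exact hle hm

section elem

variable {F V E A Y : Type} [Field F] [CommGroup V] [Group E] [Ring A] [Algebra F A]
  [Ring Y] [Algebra F Y]

theorem bw_apply (α : V →* A) (w : V × V) (a : A) : bw F α w a = α w.1 * a * α w.2⁻¹ := by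
  show α w.1 * (a * α w.2⁻¹) = _
  rw [mul_assoc]

theorem cw_apply (α : V →* A) (v : V) (a : A) : cw F α v a = α v * a * α v⁻¹ :=
  bw_apply α (v, v) a

theorem mem_cw {α : V →* A} {P : Subgroup V} {a : A} :
    a ∈ FxR (cw F α) P ↔ ∀ v ∈ P, α v * a = a * α v := by
  constructor
  · intro h v hv
    have h1 := h v hv
    rw [cw_apply] at h1
    calc α v * a = α v * a * (α v⁻¹ * α v) := by
          rw [← map_mul, inv_mul_cancel, map_one, mul_one]
      _ = (α v * a * α v⁻¹) * α v := by simp only [mul_assoc]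
      _ = a * α v := by rw [h1]
  · intro h v hv
    show cw F α v a = a
    rw [cw_apply, h v hv, mul_assoc, ← map_mul, mul_inv_cancel, map_one, mul_one]

theorem mem_bw {α : V →* A} {P : Subgroup (V × V)} {a : A} :
    a ∈ FxR (bw F α) P ↔ ∀ w ∈ P, α w.1 * a = a * α w.2 := by
  constructor
  · intro h w hw
    have h1 := h w hw
    rw [bw_apply] at h1
    calc α w.1 * a = α w.1 * a * (α w.2⁻¹ * α w.2) := by
          rw [← map_mul, inv_mul_cancel, map_one, mul_one]
      _ = (α w.1 * a * α w.2⁻¹) * α w.2 := by simp only [mul_assoc]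
      _ = a * α w.2 := by rw [h1]
  · intro h w hw
    show bw F α w a = a
    rw [bw_apply, h w hw, mul_assoc, ← map_mul, mul_inv_cancel, map_one, mul_one]

theorem Tk_ex {j : A} {αY : V →* Y} {κ : Y →ₗ[F] A} {α : V →* A} (h : CorV F α j αY κ)
    (hj : j * j = j) (b : A) : ∃ y, κ y = j * b * j :=
  h.ran (j * b * j) (by rw [← mul_assoc, ← mul_assoc, hj]) (by rw [mul_assoc, hj])

/-- `κ⁻¹ (j b j)` -/
def Tk {j : A} {αY : V →* Y} {κ : Y →ₗ[F] A} {α : V →* A} (h : CorV F α j αY κ) (hj : j * j = j) :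
    A →ₗ[F] Y where
  toFun := fun b => Classical.choose (Tk_ex h hj b)
  map_add' := by
    intro a b
    apply h.inj
    rw [map_add, Classical.choose_spec (Tk_ex h hj _), Classical.choose_spec (Tk_ex h hj _),
      Classical.choose_spec (Tk_ex h hj _), mul_add, add_mul]
  map_smul' := by
    intro c a
    apply h.inj
    rw [RingHom.id_apply, map_smul, Classical.choose_spec (Tk_ex h hj _),
      Classical.choose_spec (Tk_ex h hj _), mul_smul_comm, smul_mul_assoc]

theorem Tk_spec {j : A} {αY : V →* Y} {κ : Y →ₗ[F] A} {α : V →* A} (h : CorV F α j αY κ)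
    (hj : j * j = j) (b : A) : κ (Tk h hj b) = j * b * j :=
  Classical.choose_spec (Tk_ex h hj b)

/-- the centraliser of `R` in `E` -/
def CE (φ : E →* MulAut V) (R : Subgroup V) : Subgroup E where
  carrier := {x | ∀ r ∈ R, φ x r = r}
  one_mem' := by
    intro r _
    rw [map_one, MulAut.one_apply]
  mul_mem' := by
    intro x y hx hy r hr
    rw [map_mul, MulAut.mul_apply, hy r hr, hx r hr]
  inv_mem' := by
    intro x hx r hr
    rw [map_inv]
    conv_lhs => rw [← hx r hr]
    exact MulAut.inv_apply_self _ _ _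

end elem

/-- STB. -/
theorem stb (bor : BorStmt) (lbr : LbrStmt) (lcn : LcnStmt) (pcx : PcxStmt) (bcl : S0.BclStmt)
    (bqx : S0.BqxStmt) : StbStmt := by
  intro ℓ _ F V E A Y _ _ _ _ _ _ _ _ _ _ φ α j αY κ hV hE hCl hj hc e S hne
  obtain ⟨y₀, hy₀, hy₀n⟩ := SetLike.not_le_iff_exists.mp hne
  have hjj : j * j = j := hj.id
  have hjV : ∀ v, α v * j = j * α v := fun v => mem_cw.mp hj.fx v (Subgroup.mem_top v)
  have hκ1 : ∀ y, j * κ y = κ y := fun y => by
    rw [← hc.one, ← hc.mul, one_mul]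
  have hκ2 : ∀ y, κ y * j = κ y := fun y => by
    rw [← hc.one, ← hc.mul, mul_one]
  set a := κ y₀ with ha
  have haj : j * a = a := hκ1 y₀
  have haj2 : a * j = a := hκ2 y₀
  -- `a` is fixed by the twisted diagonal
  have hafix : ∀ s ∈ S, α (φ e s) * a = a * α s := by
    intro s hs
    have h1 := mem_bw.mp hy₀ (φ e s, s) ⟨s, hs, rfl⟩
    have h2 := congrArg κ h1
    rw [hc.mul, hc.mul, hc.cov, hc.cov] at h2
    calc α (φ e s) * a = α (φ e s) * j * κ y₀ := by rw [mul_assoc, hκ1]
      _ = κ y₀ * (α s * j) := h2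
      _ = a * α s := by rw [hjV, ← mul_assoc, hκ2]
  obtain ⟨g, g', hg1, hg2, hg3⟩ := hCl.uni e
  have hg4 : ∀ u, g' * α (φ e u) = α u * g' := by
    intro u
    calc g' * α (φ e u) = g' * α (φ e u) * (g * g') := by rw [hg1, mul_one]
      _ = g' * (α (φ e u) * g) * g' := by simp only [mul_assoc]
      _ = g' * (g * α u) * g' := by rw [hg3]
      _ = (g' * g) * α u * g' := by simp only [mul_assoc]
      _ = α u * g' := by rw [hg2, one_mul]
  set R : Subgroup V := S.map (φ e).toMonoidHom with hR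
  have hag : a * g' ∈ FxR (cw F α) R := by
    rw [mem_cw]
    rintro _ ⟨s, hs, rfl⟩
    show α (φ e s) * (a * g') = a * g' * α (φ e s)
    rw [← mul_assoc, hafix s hs, mul_assoc, mul_assoc, hg4]
  have hagn : a * g' ∉ BKR (cw F α) R := by
    intro hmem
    apply hy₀n
    -- right multiplication by `g`
    have h1 := BKR_map (cw F α) (bw F α) ((MonoidHom.id V).prod ((φ e)⁻¹).toMonoidHom)
      (fun x y hxy => (Prod.ext_iff.mp hxy).1) (LinearMap.mulRight F g) (by
        intro v m
        rw [cw_apply, bw_apply]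
        show α v * m * α v⁻¹ * g = α v * (m * g) * α ((φ e)⁻¹ v)⁻¹
        have h2 : α v⁻¹ * g = g * α ((φ e)⁻¹ v)⁻¹ := by
          rw [hg3, map_inv (φ e), MulAut.apply_inv_self]
        rw [mul_assoc, h2]
        simp only [mul_assoc]) R hmem
    have h3 : R.map ((MonoidHom.id V).prod ((φ e)⁻¹).toMonoidHom) = tw (φ e).toMonoidHom S := by
      rw [hR, Subgroup.map_map]
      unfold tw
      congr 1
      ext v
      · rfl
      · show (φ e)⁻¹ (φ e v) = v
        exact MulAut.inv_apply_self _ _ _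
    rw [h3] at h1
    have h4 : LinearMap.mulRight F g (a * g') = a := by
      show a * g' * g = a
      rw [mul_assoc, hg2, mul_one]
    rw [h4] at h1
    have h5 := BKR_map (bw F α) (bw F αY) (MonoidHom.id (V × V)) (fun x y hxy => hxy)
      (Tk hc hjj) (by
        intro w m
        apply hc.inj
        rw [Tk_spec, bw_apply]
        show _ = κ (bw F αY w (Tk hc hjj m))
        rw [bw_apply, hc.mul, hc.mul, Tk_spec, hc.cov, hc.cov]
        have e1 : α w.1 * j * (j * m * j) * (α w.2⁻¹ * j) =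
            α w.1 * (j * j) * m * (j * α w.2⁻¹) * j := by simp only [mul_assoc]
        rw [e1, hjj, ← hjV w.2⁻¹]
        rw [← mul_assoc j (α w.1 * m), ← mul_assoc j (α w.1), ← hjV w.1]
        have e2 : α w.1 * j * m * (α w.2⁻¹ * j) * j = α w.1 * j * m * α w.2⁻¹ * (j * j) := by
          simp only [mul_assoc]
        rw [e2, hjj]) (tw (φ e).toMonoidHom S) h1
    rw [Subgroup.map_id] at h5
    have h6 : Tk hc hjj a = y₀ := hc.inj (by rw [Tk_spec, haj, haj2])
    rw [h6] at h5
    exact h5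
  -- the Brauer quotient at `R`
  obtain ⟨B, _, _, αB, β, hB⟩ := bqx F V A α R
  have hCR : ∀ z ∈ FxR (cw F α) ⊤, z ∈ FxR (cw F α) R := fun z hz v _ => hz v (Subgroup.mem_top v)
  have hLcn := lcn F V A α (φ e) j g g' hj hg1 hg2 hg3
  set j₂ := g * j * g' with hj₂
  have hβ1 : β j * β (a * g') * β j₂ = β (a * g') := by
    have m1 : j * (a * g') ∈ FxR (cw F α) R := by
      rw [← mul_assoc, haj]; exact hag
    rw [← hB.mul _ (hCR _ hj.fx) _ hag, ← hB.mul _ m1 _ (hCR _ hLcn.fx)]
    congr 1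
    rw [← mul_assoc j a, haj, hj₂]
    calc a * g' * (g * j * g') = a * (g' * g) * j * g' := by simp only [mul_assoc]
      _ = a * g' := by rw [hg2, mul_one, haj2]
  have hβ2 : β (a * g') ≠ 0 := fun h => hagn ((hB.ker _ hag).mp h)
  -- the class of `B`
  have hClB := bcl ℓ F V E A B φ α R αB β (CE φ R) hV hE hCl hB (fun x => Iff.rfl)
  have := hClB.fin
  obtain ⟨n, b, hb1, hb2, hb3⟩ := pcx F B
  obtain ⟨lam, K, _, x, y, hRF, _⟩ := hCl.rt
  obtain ⟨lbr1, lbr2⟩ := lbr ℓ F V E A B K φ α R αB β lam x y hV hCl.per hRF hB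
  have hLj := lbr1 j hj
  have hLj₂ := lbr1 j₂ hLcn
  obtain ⟨i, hi⟩ : ∃ i, b i * β j ≠ 0 := by
    by_contra hcon
    push Not at hcon
    apply hβ2
    have h1 : β j = 0 := by
      calc β j = (∑ i, b i) * β j := by rw [hb3, one_mul]
        _ = 0 := by rw [Finset.sum_mul]; exact Finset.sum_eq_zero fun i _ => hcon i
    rw [← hβ1, h1, zero_mul, zero_mul]
  have hid : ∀ k : B, Loi F αB k → b i * k ≠ 0 → b i * k = k := by
    intro k hk hk0
    have hcen := (hb1 i).cen
    have hbi : b i ∈ FxR (cw F αB) ⊤ := mem_cw.mpr fun v _ => (hcen (αB v)).symm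
    have e1 : k * b i * k = b i * k := by
      rw [← hcen k, mul_assoc, hk.id]
    rcases hk.loc (b i) hbi with ⟨m, hm⟩ | ⟨y', _, h1, _⟩
    · exfalso
      apply hk0
      rw [e1] at hm
      have e2 : b i * k * (b i * k) = b i * k := by
        calc b i * k * (b i * k) = b i * (k * b i * k) := by simp only [mul_assoc]
          _ = b i * (b i * k) := by rw [e1]
          _ = b i * k := by rw [← mul_assoc, (hb1 i).id]
      have e3 : ∀ m, b i * k = 0 ∨ (b i * k) ^ (m + 1) = b i * k := by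
        intro m
        induction m with
        | zero => right; rw [pow_one]
        | succ m ih =>
          rcases ih with h | h
          · exact Or.inl h
          · right; rw [pow_succ, h, e2]
      rcases e3 m with h | h
      · exact h
      · rw [← h, pow_succ, hm, zero_mul]
    · rw [e1] at h1
      calc b i * k = b i * (b i * k * (k * y' * k)) := by rw [h1]
        _ = b i * b i * k * (k * y' * k) := by simp only [mul_assoc]
        _ = b i * k * (k * y' * k) := by rw [(hb1 i).id]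
        _ = k := h1
  have hbj : b i * β j = β j := hid _ hLj hi
  have hbj₂ : b i * β j₂ = β j₂ := by
    refine hid _ hLj₂ fun h0 => hβ2 ?_
    have hcen := (hb1 i).cen
    calc β (a * g') = β j * β (a * g') * β j₂ := hβ1.symm
      _ = b i * β j * β (a * g') * β j₂ := by rw [hbj]
      _ = b i * (β j * β (a * g')) * β j₂ := by simp only [mul_assoc]
      _ = (β j * β (a * g')) * (b i * β j₂) := by rw [hcen]; simp only [mul_assoc]
      _ = 0 := by rw [h0, mul_zero]
  obtain ⟨t, ht⟩ := bor ℓ F V (CE φ R) B (φ.comp (CE φ R).subtype) αB hV hClB (b i) (β j) (β j₂)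
    (hb1 i) hLj hLj₂ hbj hbj₂
  obtain ⟨m, m', hm1, hm2, hm3⟩ := hCl.uni (t : E)
  have hm4 : ∀ u, m' * α u = α ((φ (t : E))⁻¹ u) * m' := by
    intro u
    calc m' * α u = m' * α (φ (t : E) ((φ (t : E))⁻¹ u)) * (m * m') := by
          rw [hm1, mul_one, MulAut.apply_inv_self]
      _ = m' * (α (φ (t : E) ((φ (t : E))⁻¹ u)) * m) * m' := by simp only [mul_assoc]
      _ = m' * (m * α ((φ (t : E))⁻¹ u)) * m' := by rw [hm3]
      _ = (m' * m) * α ((φ (t : E))⁻¹ u) * m' := by simp only [mul_assoc]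
      _ = α ((φ (t : E))⁻¹ u) * m' := by rw [hm2, one_mul]
  have htR : ∀ r ∈ R, φ (t : E) r = r := t.2
  have htR' : ∀ r ∈ R, (φ (t : E))⁻¹ r = r := by
    intro r hr
    conv_lhs => rw [← htR r hr]
    exact MulAut.inv_apply_self _ _ _
  have hmR : m ∈ FxR (cw F α) R := mem_cw.mpr fun v hv => by rw [hm3, htR v hv]
  have hmR' : m' ∈ FxR (cw F α) R := mem_cw.mpr fun v hv => by rw [hm4, htR' v hv]
  have hαR : ∀ u, α u ∈ FxR (cw F α) R := fun u => mem_cw.mpr fun v _ => by
    rw [← map_mul, ← map_mul, mul_comm]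
  have hLm := lcn F V A α (φ (t : E)) j m m' hj hm1 hm2 hm3
  have hmj : m * j ∈ FxR (cw F α) R := mem_cw.mpr fun v hv => by
    have h1 := mem_cw.mp hmR v hv
    rw [← mul_assoc, h1, mul_assoc, hjV, mul_assoc]
  have hEq : Eqi F αB (β m * β j * β m') (β j₂) := by
    refine ht (β m) (β m') ?_ ?_ ?_
    · rw [← hB.mul _ hmR _ hmR', hm1, hB.one]
    · rw [← hB.mul _ hmR' _ hmR, hm2, hB.one]
    · intro u
      show β m * αB u = αB (φ (t : E) u) * β m
      rw [← hB.om, ← hB.om, ← hB.mul _ hmR _ (hαR u), ← hB.mul _ (hαR _) _ hmR, hm3]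
  rw [← hB.mul _ hmR _ (hCR _ hj.fx), ← hB.mul _ hmj _ hmR'] at hEq
  obtain ⟨p, hp, q, hq, h1, h2, h3, h4, h5, h6⟩ := lbr2 _ _ hLm hLcn hEq
  have hpV : ∀ v, α v * p = p * α v := fun v => mem_cw.mp hp v (Subgroup.mem_top v)
  -- the unit of the corner
  set z := m' * p * g with hz
  set z' := g' * q * m with hz'
  have hmp : j * m' * p = m' * p := by
    calc j * m' * p = (m' * m) * j * m' * p := by rw [hm2, one_mul]
      _ = m' * (m * j * m' * p) := by simp only [mul_assoc]
      _ = m' * p := by rw [h1]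
  have hjz : j * z = z := by
    calc j * z = j * m' * p * g := by rw [hz]; simp only [mul_assoc]
      _ = z := by rw [hmp]
  have hzj : z * j = z := by
    calc z * j = m' * p * g * j * (g' * g) := by rw [hg2, mul_one]
      _ = m' * (p * (g * j * g')) * g := by simp only [mul_assoc]
      _ = m' * p * g := by rw [h2]
  have hzz : z * z' = j := by
    calc z * z' = m' * p * (g * g') * q * m := by rw [hz, hz']; simp only [mul_assoc]
      _ = m' * (p * q) * m := by rw [hg1, mul_one]; simp only [mul_assoc]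
      _ = (m' * m) * j * (m' * m) := by rw [h5]; simp only [mul_assoc]
      _ = j := by rw [hm2, one_mul, mul_one]
  have hzz' : z' * z = j := by
    calc z' * z = g' * q * (m * m') * p * g := by rw [hz, hz']; simp only [mul_assoc]
      _ = g' * (q * p) * g := by rw [hm1, mul_one]; simp only [mul_assoc]
      _ = (g' * g) * j * (g' * g) := by rw [h6, hj₂]; simp only [mul_assoc]
      _ = j := by rw [hg2, one_mul, mul_one]
  have hjz' : j * z' = z' := by
    calc j * z' = (g' * g) * j * z' := by rw [hg2, one_mul]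
      _ = g' * (g * j * g' * q) * m := by rw [hz']; simp only [mul_assoc]
      _ = z' := by rw [h3]
  have hzj' : z' * j = z' := by
    calc z' * j = z' * j * (m' * m) := by rw [hm2, mul_one]
      _ = g' * (q * (m * j * m')) * m := by rw [hz']; simp only [mul_assoc]
      _ = z' := by rw [h4]
  have hzv : ∀ v, z * α v = α ((φ (t : E))⁻¹ (φ e v)) * z := by
    intro v
    calc z * α v = m' * p * (g * α v) := by rw [hz]; simp only [mul_assoc]
      _ = m' * (p * α (φ e v)) * g := by rw [hg3]; simp only [mul_assoc]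
      _ = m' * α (φ e v) * p * g := by rw [← hpV]; simp only [mul_assoc]
      _ = α ((φ (t : E))⁻¹ (φ e v)) * z := by rw [hm4, hz]; simp only [mul_assoc]
  obtain ⟨w, hw⟩ := hc.ran z hjz hzj
  obtain ⟨w', hw'⟩ := hc.ran z' hjz' hzj'
  refine ⟨(φ (t : E))⁻¹ * φ e, ⟨⟨(t : E)⁻¹ * e, by rw [map_mul, map_inv]⟩, w, w', ?_, ?_, ?_⟩, ?_⟩
  · apply hc.inj
    rw [hc.mul, hw, hw', hzz, hc.one]
  · apply hc.inj
    rw [hc.mul, hw, hw', hzz', hc.one]
  · intro u
    apply hc.inj
    rw [hc.mul, hc.mul, hc.cov, hc.cov, hw]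
    show z * (α u * j) = α ((φ (t : E))⁻¹ (φ e u)) * j * z
    rw [← mul_assoc, hzv, mul_assoc, hzj, mul_assoc, hjz]
  · intro s hs
    show (φ (t : E))⁻¹ (φ e s) = φ e s
    exact htR' _ ⟨s, hs, rfl⟩

end Pool.Agent.PSS.H37
end
end -- Pool.Agent.Helper37_PSS.STB

section -- Pool.Agent.Helper46_PSS.LNS

/-!
# Squad PSS, row LNS (helper46): `N_W(A)(V) = F V`
-/

open scoped BigOperators TensorProduct

noncomputable section

namespace Pool.Agent.PSS.H46

open Pool.Agent.PFC (tw IsTv)
open Pool.Agent.PFD.D2b (FrR)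
open Pool.Agent.PSS.S5 (Lc LnsStmt)

section frames

variable {R H K M Ω : Type} [CommRing R] [Group H] [Group K] [AddCommGroup M] [Module R M]

/-- a frame for `H` is a frame for `K` by means of `f : K → H` -/
theorem frR_comp [Fintype Ω] [MulAction H Ω] (ρ : H →* (M →ₗ[R] M)) (f : K →* H) (b : Ω → M)
    (c : Ω → (M →ₗ[R] R)) (h : FrR ρ b c) :
    letI : MulAction K Ω := MulAction.compHom Ω f
    FrR (ρ.comp f) b c := by
  let _ : MulAction K Ω := MulAction.compHom Ω f
  refine ⟨?_, ?_, h.2.2⟩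
  · intro g t
    exact h.1 (f g) t
  · intro g t n
    exact h.2.1 (f g) t n

end frames

/-- the diagonal -/
def dia (V : Type) [CommGroup V] : V →* V × V := (MonoidHom.id V).prod (MonoidHom.id V)

theorem dia_apply {V : Type} [CommGroup V] (v : V) : dia V v = (v, v) := rfl

theorem cw_eq (R : Type) {V A : Type} [CommRing R] [CommGroup V] [Ring A] [Algebra R A]
    (α : V →* A) : cw R α = (bw R α).comp (dia V) := by
  ext v a
  rfl

theorem lns (hN : NfrStmt) (hF : FrbStmt) : LnsStmt := by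
  classical
  intro ℓ _ F V E A B _ _ _ _ _ _ _ _ _ φ α W N hp hL b hb
  obtain ⟨Ω, fΩ, aΩ, b0, c0, hfr, hst⟩ := hL.per
  have : Finite (MulAut W) := Finite.of_injective (fun f => (f : W → W)) DFunLike.coe_injective
  have : Fintype (MulAut W) := Fintype.ofFinite _
  have hl : (ℓ : F) = 0 := CharP.cast_eq_zero F ℓ
  obtain ⟨c', h1, h2, hfr'⟩ := hN ℓ F V A B Ω α b0 c0 W N hl hp hfr
  have hT : IsPGroup ℓ (⊤ : Subgroup V) := hp.to_subgroup ⊤
  -- the frames for the diagonal
  have hA := frR_comp (bw F α) (dia V) b0 c0 hfr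
  have hB := frR_comp (bw F N.nwh) (dia V) _ c' hfr'
  rw [← cw_eq] at hA hB
  have hFA := @hF ℓ _ F V A Ω _ _ _ _ _ (MulAction.compHom Ω (dia V)) (cw F α) b0 c0 ⊤ hl hT
    inferInstance hA
  have hFB := @hF ℓ _ F V B (Σ ε : MulAut W, Fp Ω (twW W ε)) _ _ _ _ _
    (MulAction.compHom _ (dia V)) (cw F N.nwh) _ c' ⊤ hl hT inferInstance hB
  obtain ⟨hA1, -⟩ := hFA
  obtain ⟨-, hB2⟩ := hFB
  -- the fixed points
  have key : ∀ t : (Σ ε : MulAut W, Fp Ω (twW W ε)), (∀ v : V, ((v, v) : V × V) • t = t) →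
      t.1 = 1 ∧ ∀ v : V, ((v, v) : V × V) • t.2.1 = t.2.1 := by
    rintro ⟨ε, ω⟩ h
    have h3 : ∀ v : V, ((v, v) : V × V) • ω.1 = ω.1 := by
      intro v
      have h4 := h v
      rw [Sigma.ext_iff] at h4
      have h5 : ((v, v) : V × V) • ω = ω := eq_of_heq h4.2
      exact congrArg Subtype.val h5
    refine ⟨?_, h3⟩
    obtain ⟨e, S, hS⟩ := hst ω.1
    ext w
    have h4 : (((ε w : W) : V), (w : V)) ∈ MulAction.stabilizer (V × V) ω.1 := ω.2 ⟨w, rfl⟩
    have h5 : ((w : V), (w : V)) ∈ MulAction.stabilizer (V × V) ω.1 := h3 w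
    have h6 := (MulAction.stabilizer (V × V) ω.1).mul_mem h4
      ((MulAction.stabilizer (V × V) ω.1).inv_mem h5)
    rw [hS] at h6
    obtain ⟨s, hs, hs'⟩ := h6
    have h7 : φ e s = ((ε w : W) : V) * (w : V)⁻¹ := congrArg Prod.fst hs'
    have h8 : s = (w : V) * (w : V)⁻¹ := congrArg Prod.snd hs'
    rw [mul_inv_cancel] at h8
    rw [h8, map_one] at h7
    exact (mul_inv_eq_one.1 h7.symm)
  have hfix : ∀ ω : Ω, (∀ v : V, ((v, v) : V × V) • ω = ω) → b0 ω ∈ FxR (cw F α) ⊤ := by
    intro ω hω v _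
    rw [cw_eq]
    change bw F α (v, v) (b0 ω) = b0 ω
    rw [← hfr.1, hω]
  have hcw : ∀ a ∈ FxR (cw F α) ⊤, a ∈ FxR (bw F α) (twW W (1 : MulAut W)) := by
    intro a ha
    rw [mem_cw] at ha
    rw [mem_tw]
    intro w
    exact ha w (Subgroup.mem_top _)
  have hnw : ∀ a ∈ FxR (cw F α) ⊤, N.β 1 a ∈ FxR (cw F N.nwh) ⊤ := by
    intro a ha
    rw [mem_cw]
    intro v _
    have h3 := N.mul 1 1 (α v) (al_mem_tw v W) a (hcw a ha)
    have h4 := N.mul 1 1 a (hcw a ha) (α v) (al_mem_tw v W)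
    rw [N.nwh_apply, ← h3, ← h4, mem_cw.1 ha v (Subgroup.mem_top _)]
  have hbk : ∀ a ∈ BKR (cw F α) ⊤, N.β 1 a ∈ BKR (cw F N.nwh) ⊤ := by
    intro a ha
    have ha' := BKR_le_FxR ha
    have h3 := hB2 (N.β 1 a) (hnw a ha')
    rw [Finset.sum_eq_zero, sub_zero] at h3
    · exact h3
    · rintro ⟨⟨ε, ω⟩, ht⟩ _
      have h4 : ∀ v : V, ((v, v) : V × V) • (⟨ε, ω⟩ : Σ ε : MulAut W, Fp Ω (twW W ε)) =
        ⟨ε, ω⟩ := fun v => ht (Subgroup.mem_top v)
      obtain ⟨h5, h6⟩ := key _ h4
      change ε = 1 at h5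
      subst h5
      have h7 : c' ⟨1, ω⟩ (N.β 1 a) = 0 := by
        have h8 := h1 ⟨1, ω⟩ a (hcw a ha')
        exact h8.trans (hA1 ω.1 (fun v _ => h6 v) a ha)
      change c' ⟨1, ω⟩ (N.β 1 a) • _ = 0
      rw [h7, zero_smul]
  -- the elements which are combinations of the `nwh u` modulo the Brauer kernel
  let D : Submodule F B := Submodule.span F (Set.range N.nwh) ⊔ BKR (cw F N.nwh) ⊤
  have hD : b ∈ D := by
    have h3 := hB2 b hb
    have h4 : ∀ s : B, b - s ∈ BKR (cw F N.nwh) ⊤ → s ∈ D → b ∈ D := by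
      intro s hs hs'
      rw [← sub_add_cancel b s]
      exact D.add_mem (Submodule.mem_sup_right hs) hs'
    refine h4 _ h3 (D.sum_mem ?_)
    clear h4
    rintro ⟨⟨ε, ω⟩, ht⟩ _
    refine D.smul_mem _ ?_
    have h4 : ∀ v : V, ((v, v) : V × V) • (⟨ε, ω⟩ : Σ ε : MulAut W, Fp Ω (twW W ε)) =
      ⟨ε, ω⟩ := fun v => ht (Subgroup.mem_top v)
    obtain ⟨h5, h6⟩ := key _ h4
    change ε = 1 at h5
    subst h5
    change N.β 1 (b0 ω.1) ∈ D
    obtain ⟨cc, hcc⟩ := hL.spn _ (hfix ω.1 h6)
    have h7 := hbk _ hcc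
    rw [map_sub, map_sum] at h7
    have h8 : N.β 1 (b0 ω.1) = (N.β 1 (b0 ω.1) - ∑ u, N.β 1 (cc u • α u)) +
      ∑ u, N.β 1 (cc u • α u) := (sub_add_cancel _ _).symm
    rw [h8]
    refine D.add_mem (Submodule.mem_sup_right h7) (D.sum_mem ?_)
    intro u _
    rw [map_smul]
    exact D.smul_mem _ (Submodule.mem_sup_left (Submodule.subset_span ⟨u, rfl⟩))
  obtain ⟨y, hy, z, hz, rfl⟩ := Submodule.mem_sup.1 hD
  obtain ⟨cc, rfl⟩ := (Submodule.mem_span_range_iff_exists_fun F).1 hy
  refine ⟨cc, ?_⟩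
  rw [add_sub_cancel_left]
  exact hz

end Pool.Agent.PSS.H46
end
end -- Pool.Agent.Helper46_PSS.LNS

section -- Pool.Agent.Helper8_PSS.NDL

/-!
# Squad PSS, row NDL: the dimension of the elements fixed by the right multiplication with `V`
-/

set_option autoImplicit false

open scoped BigOperators

noncomputable section

namespace Pool.Agent.PSS.S5.H8

open Pool.Agent.PSS Pool.Agent.PSS.S5
open Pool.Agent.PFC (IsTv tw Fx BK IsFr)
open Pool.Agent.PSS.H21.DRF (pt pt_bij)

theorem ndl (hdim : PFC.DimStmt) : NdlStmt := by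
  classical
  intro ℓ _ F V E A _ _ _ _ _ _ _ φ α hV hφ hL L hLm
  obtain ⟨lam, K, _, x, y, hRF, hlam⟩ := hL.frm
  obtain ⟨Ω, _, _, b, c, hF, hst⟩ := hL.per
  have hstab : ∀ (u v : V) (ω : Ω), ((u, v) : V × V) • ω = ω → u = v := by
    intro u v ω h
    obtain ⟨e, S, hS⟩ := hst ω
    have h1 : ((u, v) : V × V) ∈ MulAction.stabilizer (V × V) ω := h
    rw [hS] at h1
    obtain ⟨s, -, hs⟩ := h1
    have h2 : φ e s = u := congrArg Prod.fst hs
    have h3 : s = v := congrArg Prod.snd hs
    rw [hφ e, MulAut.one_apply] at h2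
    rw [← h2, h3]
  have hfree : ∀ (v : V) (ω : Ω), ((1, v) : V × V) • ω = ω → v = 1 := fun v ω h =>
    (hstab 1 v ω h).symm
  obtain ⟨σ, hσ⟩ : ∃ σ : A, σ = ∑ v, α v := ⟨_, rfl⟩
  have hσr : ∀ v, σ * α v = σ := by
    intro v
    rw [hσ, Finset.sum_mul]
    exact Fintype.sum_bijective (fun u => u * v) (Group.mulRight_bijective v) _ _ fun u => by
      rw [map_mul]
  have hσl : ∀ v, α v * σ = σ := by
    intro v
    rw [hσ, Finset.mul_sum]
    exact Fintype.sum_bijective (fun u => v * u) (Group.mulLeft_bijective v) _ _ fun u => by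
      rw [map_mul]
  have hLr : ∀ l ∈ L, ∀ v, l * α v = l := fun l hl => (hLm l).1 hl
  have hLst : ∀ u, ∀ l ∈ L, LinearMap.mulLeft F (α u) l ∈ L := by
    intro u l hl
    rw [hLm]
    intro v
    rw [LinearMap.mulLeft_apply, mul_assoc, hLr l hl]
  have hRm : ∀ a : A, LinearMap.mulRight F σ a ∈ L := by
    intro a
    rw [hLm]
    intro v
    rw [LinearMap.mulRight_apply, mul_assoc, hσr]
  obtain ⟨ρ, hρ⟩ : ∃ ρ : V →* (L →ₗ[F] L), ∀ u l, ((ρ u l : L) : A) = α u * l := by
    refine ⟨{
      toFun := fun u => (LinearMap.mulLeft F (α u)).restrict (hLst u)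
      map_one' := by
        refine LinearMap.ext fun l => Subtype.ext ?_
        show α 1 * (l : A) = l
        rw [map_one, one_mul]
      map_mul' := by
        intro u v
        refine LinearMap.ext fun l => Subtype.ext ?_
        show α (u * v) * (l : A) = α u * (α v * l)
        rw [map_mul, mul_assoc] }, fun u l => rfl⟩
  obtain ⟨Rs, hRs⟩ : ∃ Rs : A →ₗ[F] L, ∀ a, ((Rs a : L) : A) = a * σ :=
    ⟨LinearMap.codRestrict L (LinearMap.mulRight F σ) hRm, fun a => rfl⟩
  obtain ⟨π, hπ⟩ : ∃ π : L →ₗ[F] F, ∀ l, π l = lam (l : A) :=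
    ⟨lam.comp L.subtype, fun l => rfl⟩
  -- the frame
  let hact : MulAction V (Qt (V := V) Ω) :=
    MulAction.compHom (Qt (V := V) Ω) (MonoidHom.inl V V)
  have hsm : ∀ (h : V) (k : Qt (V := V) Ω), ∃ v : V, (h • k).rep = ((h, v) : V × V) • k.rep := by
    intro h k
    have h1 : (qmk ((((h, 1) : V × V)) • k.rep) : Qt (V := V) Ω) = qmk (h • k).rep := by
      rw [Qt.mk_rep, ← smul_qmk, Qt.mk_rep]
      rfl
    obtain ⟨v, hv⟩ := qmk_eq.1 h1
    refine ⟨v, ?_⟩
    rw [← hv, smul_smul, Prod.mk_mul_mk, one_mul, mul_one]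
  have hbw : ∀ (u v : V) (a : A), bw F α (u, v) a = α u * (a * α v⁻¹) := fun _ _ _ => rfl
  obtain ⟨b', hb'⟩ : ∃ b' : Qt (V := V) Ω → L, ∀ k, b' k = Rs (b k.rep) := ⟨_, fun k => rfl⟩
  obtain ⟨c', hc'⟩ : ∃ c' : Qt (V := V) Ω → (L →ₗ[F] F), ∀ k l, c' k l = c k.rep (l : A) :=
    ⟨fun k => (c k.rep).comp L.subtype, fun k l => rfl⟩
  have hfr : IsFr ρ b' c' := by
    refine ⟨?_, ?_, ?_⟩
    · intro h k
      obtain ⟨v, hv⟩ := hsm h k
      refine Subtype.ext ?_
      rw [hρ, hb', hb', hRs, hRs, hv, hF.1, hbw, mul_assoc, mul_assoc, hσl]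
    · intro h k l
      obtain ⟨v, hv⟩ := hsm h k
      rw [hc', hc', hρ, hv, ← hF.2.1 (h, v) k.rep (l : A), hbw, hLr l l.2]
    · intro l
      refine Subtype.ext ?_
      conv_rhs => rw [← hF.2.2 (l : A)]
      rw [← Fintype.sum_bijective (pt : Qt (V := V) Ω × V → Ω) (pt_bij hfree)
        (fun p => c (pt p) (l : A) • b (pt p)) _ (fun p => rfl), Fintype.sum_prod_type,
        Submodule.coe_sum]
      refine Finset.sum_congr rfl fun k _ => ?_
      rw [Submodule.coe_smul, hc', hb', hRs, hσ, Finset.mul_sum, Finset.smul_sum]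
      refine Finset.sum_congr rfl fun v _ => ?_
      have h1 : b (pt (k, v)) = b k.rep * α v := by
        show b (((1, v⁻¹) : V × V) • k.rep) = _
        rw [hF.1, hbw, map_one, one_mul, inv_inv]
      have h2 : c (pt (k, v)) (l : A) = c k.rep (l : A) := by
        show c (((1, v⁻¹) : V × V) • k.rep) (l : A) = _
        rw [← hF.2.1 (1, v⁻¹) k.rep (l : A), hbw, map_one, one_mul, hLr l l.2]
      rw [h1, h2]
  -- the form vanishes on the traces
  have hBK : ∀ n ∈ BK ρ ⊤, π n = 0 := by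
    intro n hn
    unfold BK at hn
    induction hn using Submodule.span_induction with
    | mem n hn =>
      obtain ⟨P', S, m, hlt, hS, -, rfl⟩ := hn
      have h1 : ∀ x ∈ S, π (ρ x m) = π m := by
        intro x _
        rw [hπ, hπ, hρ, hRF.sym, hLr m m.2]
      rw [map_sum, Finset.sum_congr rfl h1, Finset.sum_const, nsmul_eq_mul,
        H21.LMB.tv_zero ℓ (CharP.cast_eq_zero F ℓ) (hV.to_subgroup ⊤) hlt hS, zero_mul]
    | zero => exact map_zero _
    | add a b _ _ ha hb => rw [map_add, ha, hb, add_zero]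
    | smul r a _ ha => rw [map_smul, ha, smul_zero]
  -- the traces of A go to traces
  have hRB : ∀ n ∈ BKR (cw F α) ⊤, Rs n ∈ BK ρ ⊤ := by
    intro n hn
    unfold BKR at hn
    induction hn using Submodule.span_induction with
    | mem n hn =>
      obtain ⟨P', S, m, hlt, hS, hm, rfl⟩ := hn
      refine Submodule.subset_span ⟨P', S, Rs m, hlt, hS, ?_, ?_⟩
      · intro h hh
        refine Subtype.ext ?_
        rw [hρ, hRs, ← mul_assoc, mem_cw.1 hm h hh, mul_assoc, hσl]
      · rw [map_sum]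
        refine Finset.sum_congr rfl fun x _ => Subtype.ext ?_
        rw [hρ, hRs, hRs]
        show α x * (m * α x⁻¹) * σ = α x * (m * σ)
        rw [mul_assoc, mul_assoc, hσl]
    | zero => rw [map_zero]; exact Submodule.zero_mem _
    | add a b _ _ ha hb => rw [map_add]; exact Submodule.add_mem _ ha hb
    | smul r a _ ha => rw [map_smul]; exact Submodule.smul_mem _ r ha
  have hσL : σ ∈ L := (hLm σ).2 hσr
  have hBQ : PFC.IsBQ ρ ⊤ π := by
    refine ⟨fun m hm => ⟨fun h0 => ?_, hBK m⟩, fun n => ?_⟩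
    · have hfix : ∀ k : Qt (V := V) Ω, (∀ h ∈ (⊤ : Subgroup V), h • k = k) →
          b' k ∈ BK ρ ⊤ ⊔ Submodule.span F {(⟨σ, hσL⟩ : L)} := by
        intro k hk
        have h1 : b k.rep ∈ FxR (cw F α) ⊤ := by
          intro u _
          have h2 : (qmk ((((u, 1) : V × V)) • k.rep) : Qt (V := V) Ω) = qmk k.rep := by
            rw [← smul_qmk, Qt.mk_rep]
            exact hk u (Subgroup.mem_top u)
          obtain ⟨v, hv⟩ := qmk_eq.1 h2
          rw [smul_smul, Prod.mk_mul_mk, one_mul, mul_one] at hv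
          have h3 := hstab u v _ hv
          rw [← h3] at hv
          show bw F α (u, u) (b k.rep) = b k.rep
          rw [← hF.1, hv]
        obtain ⟨f, hf⟩ := hL.spn _ h1
        have h2 : b' k = Rs (b k.rep - ∑ u, f u • α u) + (∑ u, f u) • (⟨σ, hσL⟩ : L) := by
          refine Subtype.ext ?_
          rw [Submodule.coe_add, Submodule.coe_smul, hb', hRs, hRs, sub_mul, Finset.sum_mul,
            Finset.sum_smul]
          have h3 : ∑ u, f u • α u * σ = ∑ u, f u • σ :=
            Finset.sum_congr rfl fun u _ => by rw [smul_mul_assoc, hσl]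
          rw [h3]
          exact (sub_add_cancel _ _).symm
        rw [h2]
        exact Submodule.add_mem_sup (hRB _ hf)
          (Submodule.smul_mem _ _ (Submodule.mem_span_singleton_self _))
      have h1 := PFC.frame_sub hfr ⊤ hm
      have h2 : m ∈ BK ρ ⊤ ⊔ Submodule.span F {(⟨σ, hσL⟩ : L)} := by
        have h3 : m = (m - ∑ k ∈ PFC.fp (⊤ : Subgroup V) (Qt (V := V) Ω), c' k m • b' k) +
            ∑ k ∈ PFC.fp (⊤ : Subgroup V) (Qt (V := V) Ω), c' k m • b' k := (sub_add_cancel _ _).symm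
        rw [h3]
        refine Submodule.add_mem _ (Submodule.mem_sup_left h1) (Submodule.sum_mem _ fun k hk => ?_)
        exact Submodule.smul_mem _ _ (hfix k ((PFC.mem_fp (⊤ : Subgroup V) (Qt (V := V) Ω) k).1 hk))
      obtain ⟨n, hn, s, hs, hns⟩ := Submodule.mem_sup.1 h2
      obtain ⟨t, rfl⟩ := Submodule.mem_span_singleton.1 hs
      have h3 : t * lam σ = 0 := by
        have h4 := congrArg π hns
        rw [map_add, hBK n hn, zero_add, map_smul, hπ, h0, smul_eq_mul] at h4
        exact h4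
      rcases mul_eq_zero.1 h3 with h4 | h4
      · rw [h4, zero_smul, add_zero] at hns
        rw [← hns]
        exact hn
      · rw [hσ] at h4
        exact absurd h4 hlam
    · refine ⟨(n / lam σ) • (⟨σ, hσL⟩ : L), ?_, ?_⟩
      · intro h _
        rw [map_smul]
        refine congrArg _ (Subtype.ext ?_)
        rw [hρ]
        exact hσl h
      · rw [map_smul, hπ, smul_eq_mul]
        refine div_mul_cancel₀ n ?_
        rw [hσ]
        exact hlam
  have h1 := hdim ℓ F V L F ρ (fun _ => True) ⟨Qt (V := V) Ω, inferInstance, hact, b', c', hfr,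
    fun _ => trivial⟩ ⊤ (hV.to_subgroup ⊤) π hBQ
  rw [h1, Module.finrank_self, Nat.cast_one]

end Pool.Agent.PSS.S5.H8
end
end -- Pool.Agent.Helper8_PSS.NDL

section -- Pool.Agent.Helper8_PSS.NQB

/-!
# Squad PSS, row NQB: the quotient and the Brauer kernel
-/

set_option autoImplicit false

open scoped BigOperators

noncomputable section

namespace Pool.Agent.PSS.S5.H8

open Pool.Agent.PSS Pool.Agent.PSS.S5
open Pool.Agent.PFC (IsTv)

/-- The sum of a function which is invariant under `R` over a transversal of `P' < R` vanishes. -/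
theorem tv_inv {ℓ : ℕ} [Fact ℓ.Prime] {F V M : Type} [Field F] [CharP F ℓ] [CommGroup V]
    [Fintype V] [AddCommGroup M] [Module F M] (hV : IsPGroup ℓ V) (P' R : Subgroup V)
    (hlt : P' < R) (S : Finset V) (hS : IsTv P' ⊤ S) (G : V → M)
    (hG : ∀ v, ∀ r ∈ R, G (v * r) = G v) : ∑ x ∈ S, G x = 0 := by
  classical
  have : Fintype (V ⧸ R) := Fintype.ofFinite _
  rw [← Finset.sum_fiberwise S (fun x : V => (x : V ⧸ R)) G]
  refine Finset.sum_eq_zero fun c _ => ?_
  obtain ⟨t, rfl⟩ : ∃ t : V, (t : V ⧸ R) = c := ⟨c.out, QuotientGroup.out_eq' c⟩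
  have hmem : ∀ x ∈ S.filter (fun x : V => (x : V ⧸ R) = (t : V ⧸ R)), t⁻¹ * x ∈ R := by
    intro x hx
    rw [Finset.mem_filter] at hx
    exact QuotientGroup.eq.1 hx.2.symm
  have h1 : ∀ x ∈ S.filter (fun x : V => (x : V ⧸ R) = (t : V ⧸ R)), G x = G t := by
    intro x hx
    have h2 := hG t _ (hmem x hx)
    rw [mul_inv_cancel_left] at h2
    exact h2
  rw [Finset.sum_congr rfl h1, Finset.sum_const]
  have htv : IsTv P' R ((S.filter (fun x : V => (x : V ⧸ R) = (t : V ⧸ R))).image
      (fun x : V => t⁻¹ * x)) := by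
    constructor
    · intro s hs
      obtain ⟨x, hx, rfl⟩ := Finset.mem_image.1 hs
      exact hmem x hx
    · intro p hp
      obtain ⟨x, ⟨hx, hx'⟩, hu⟩ := hS.2 (t * p) (Subgroup.mem_top _)
      refine ⟨t⁻¹ * x, ⟨Finset.mem_image.2 ⟨x, Finset.mem_filter.2 ⟨hx, ?_⟩, rfl⟩, ?_⟩, ?_⟩
      · rw [eq_comm, QuotientGroup.eq]
        have h3 : t⁻¹ * x = p * (x⁻¹ * (t * p))⁻¹ := by
          rw [mul_inv, mul_inv, inv_inv, mul_comm t⁻¹ p⁻¹]
          rw [mul_comm x, mul_assoc, mul_inv_cancel_left]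
        rw [h3]
        exact R.mul_mem hp (R.inv_mem (hlt.le hx'))
      · rw [mul_inv, inv_inv, mul_comm t, mul_assoc]
        exact hx'
      · rintro s ⟨hs, hs'⟩
        obtain ⟨z, hz, rfl⟩ := Finset.mem_image.1 hs
        have hz' := hu z ⟨(Finset.mem_filter.1 hz).1, by
          have h4 : z⁻¹ * (t * p) = (t⁻¹ * z)⁻¹ * p := by
            rw [mul_inv, inv_inv, mul_assoc, mul_left_comm]
          rw [h4]
          exact hs'⟩
        show t⁻¹ * z = t⁻¹ * x
        rw [hz']
  have h5 := H21.LMB.tv_zero ℓ (R := F) (CharP.cast_eq_zero F ℓ) (hV.to_subgroup R) hlt htv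
  rw [Finset.card_image_of_injective _ (mul_right_injective t⁻¹)] at h5
  rw [← Nat.cast_smul_eq_nsmul F, h5, zero_smul]

theorem nqb : NqbStmt := by
  classical
  intro ℓ _ F V A A' _ _ _ _ _ _ _ _ α Q _ α' p hV hQ a ha
  have hcw : ∀ (v : V) (m : A), p (cw F α v m) = cw F α' (v : V ⧸ Q) (p m) := by
    intro v m
    show p (α v * (m * α v⁻¹)) = α' (v : V ⧸ Q) * (p m * α' (v : V ⧸ Q)⁻¹)
    rw [map_mul, map_mul, hQ.cov, hQ.cov, QuotientGroup.mk_inv]
  unfold BKR at ha
  induction ha using Submodule.span_induction with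
  | mem n hn =>
    obtain ⟨P', S, m, hlt, hS, hm, rfl⟩ := hn
    by_cases hle : Q ≤ P'
    · refine Submodule.subset_span ⟨P'.map (QuotientGroup.mk' Q),
        S.image (fun x : V => (x : V ⧸ Q)), p m, ?_, ⟨fun s _ => Subgroup.mem_top s, ?_⟩, ?_, ?_⟩
      · rw [lt_top_iff_ne_top]
        intro h
        apply hlt.ne
        have h1 := congrArg (Subgroup.comap (QuotientGroup.mk' Q)) h
        rw [Subgroup.comap_map_eq, QuotientGroup.ker_mk', Subgroup.comap_top,
          sup_eq_left.2 hle] at h1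
        exact h1
      · intro c _
        obtain ⟨t, rfl⟩ : ∃ t : V, (t : V ⧸ Q) = c := ⟨c.out, QuotientGroup.out_eq' c⟩
        obtain ⟨x, ⟨hx, hx'⟩, hu⟩ := hS.2 t (Subgroup.mem_top _)
        refine ⟨(x : V ⧸ Q), ⟨Finset.mem_image.2 ⟨x, hx, rfl⟩, ?_⟩, ?_⟩
        · exact Subgroup.mem_map.2 ⟨x⁻¹ * t, hx', rfl⟩
        · rintro s ⟨hs, hs'⟩
          obtain ⟨z, hz, rfl⟩ := Finset.mem_image.1 hs
          obtain ⟨w, hw, hw'⟩ := Subgroup.mem_map.1 hs'
          have h2 : ((w : V) : V ⧸ Q) = ((z⁻¹ * t : V) : V ⧸ Q) := hw'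
          have h3 := hle (QuotientGroup.eq.1 h2)
          have h4 : z⁻¹ * t ∈ P' := by
            have h5 := P'.mul_mem hw h3
            rwa [mul_inv_cancel_left] at h5
          rw [hu z ⟨hz, h4⟩]
      · intro c hc
        obtain ⟨w, hw, rfl⟩ := Subgroup.mem_map.1 hc
        have h1 := hcw w m
        rw [hm w hw] at h1
        exact h1.symm
      · rw [map_sum, Finset.sum_image]
        · exact Finset.sum_congr rfl fun x _ => hcw x m
        · intro x hx z hz hxz
          obtain ⟨s, _, hu⟩ := hS.2 z (Subgroup.mem_top _)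
          have h1 : x = s := hu x ⟨hx, hle (QuotientGroup.eq.1 hxz)⟩
          have h2 : z = s := hu z ⟨hz, by rw [inv_mul_cancel]; exact P'.one_mem⟩
          rw [h1, h2]
    · have hR : P' < P' ⊔ Q := by
        rw [left_lt_sup]
        exact hle
      have h0 : ∑ x ∈ S, cw F α x m = 0 := by
        refine tv_inv (F := F) hV P' (P' ⊔ Q) hR S hS (fun x => cw F α x m) ?_
        intro v r hr
        show cw F α (v * r) m = cw F α v m
        rw [map_mul]
        show cw F α v (cw F α r m) = cw F α v m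
        obtain ⟨w, hw, q, hq, rfl⟩ := Subgroup.mem_sup.1 hr
        have h1 : cw F α q m = m := by
          show α q * (m * α q⁻¹) = m
          rw [← mul_assoc, hQ.cen q hq, mul_assoc, ← map_mul, mul_inv_cancel, map_one, mul_one]
        rw [map_mul]
        show cw F α v (cw F α w (cw F α q m)) = cw F α v m
        rw [h1, hm w hw]
      rw [h0, map_zero]
      exact Submodule.zero_mem _
  | zero => rw [map_zero]; exact Submodule.zero_mem _
  | add a b _ _ ha hb => rw [map_add]; exact Submodule.add_mem _ ha hb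
  | smul c a _ ha => rw [map_smul]; exact Submodule.smul_mem _ c ha

end Pool.Agent.PSS.S5.H8
end
end -- Pool.Agent.Helper8_PSS.NQB

section -- Pool.Agent.Helper8_PSS.NQR

/-!
# Squad PSS, row NQR: the form of the quotient by a central subgroup, and the kernel
-/

set_option autoImplicit false

open scoped BigOperators

noncomputable section

namespace Pool.Agent.PSS.S5.H8

open Pool.Agent.PSS Pool.Agent.PSS.S5

/-- Sums over `V` as sums over the cosets of `Q`. -/
theorem sum_quot {V M : Type} [CommGroup V] [Fintype V] [AddCommMonoid M] (Q : Subgroup V)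
    [Fintype Q] [Fintype (V ⧸ Q)] (f : V → M) :
    ∑ v, f v = ∑ u : V ⧸ Q, ∑ q : Q, f (u.out * q) := by
  rw [← Fintype.sum_prod_type' (fun (u : V ⧸ Q) (q : Q) => f (u.out * q))]
  symm
  refine Fintype.sum_bijective (fun p : (V ⧸ Q) × Q => (p.1.out * p.2 : V)) ⟨?_, ?_⟩ _ _
    fun p => rfl
  · rintro ⟨u, q⟩ ⟨u', q'⟩ h
    have h' : (u.out * q : V) = u'.out * q' := h
    have hmk : ∀ (w : V ⧸ Q) (r : Q), ((w.out * r : V) : V ⧸ Q) = w := by
      intro w r
      rw [QuotientGroup.mk_mul_of_mem _ r.2, QuotientGroup.out_eq']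
    have h1 : u = u' := by
      rw [← hmk u q, ← hmk u' q', h']
    subst h1
    rw [Prod.mk.injEq]
    exact ⟨rfl, Subtype.ext (mul_left_cancel h')⟩
  · intro v
    have h1 : ((v : V ⧸ Q).out)⁻¹ * v ∈ Q := by
      rw [← QuotientGroup.eq, QuotientGroup.out_eq']
    exact ⟨((v : V ⧸ Q), ⟨_, h1⟩), mul_inv_cancel_left _ v⟩

/-- A combination of central nilpotent elements is nilpotent. -/
theorem nil_sum {A ι : Type} [Ring A] (c : ι → A) (hc : ∀ i a, c i * a = a * c i)
    (hn : ∀ i, IsNilpotent (c i)) (b : ι → A) (T : Finset ι) :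
    IsNilpotent (∑ i ∈ T, c i * b i) := by
  classical
  induction T using Finset.induction_on with
  | empty => simp
  | insert i T hi ih =>
    rw [Finset.sum_insert hi]
    obtain ⟨n, hn1⟩ := ih
    obtain ⟨m, hm⟩ := hn i
    have key : ∀ k : ℕ, ∃ d, (c i * b i + ∑ j ∈ T, c j * b j) ^ k =
        c i * d + (∑ j ∈ T, c j * b j) ^ k := by
      intro k
      induction k with
      | zero => exact ⟨0, by rw [pow_zero, pow_zero, mul_zero, zero_add]⟩
      | succ k ih =>
        obtain ⟨d, hd⟩ := ih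
        refine ⟨d * (c i * b i + ∑ j ∈ T, c j * b j) + (∑ j ∈ T, c j * b j) ^ k * b i, ?_⟩
        rw [pow_succ, hd, pow_succ (∑ j ∈ T, c j * b j)]
        have h1 : (∑ j ∈ T, c j * b j) ^ k * (c i * b i) =
            c i * ((∑ j ∈ T, c j * b j) ^ k * b i) := by
          rw [← mul_assoc, ← mul_assoc, hc]
        rw [add_mul, mul_add ((∑ j ∈ T, c j * b j) ^ k), h1, mul_add (c i), mul_assoc (c i)]
        abel
    obtain ⟨d, hd⟩ := key n
    rw [hn1, add_zero] at hd
    refine ⟨n * m, ?_⟩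
    rw [pow_mul, hd, (show Commute (c i) d from hc i d).mul_pow, hm, zero_mul]

theorem nqr : NqrStmt := by
  classical
  intro ℓ _ F V A A' K _ _ _ _ _ _ _ _ _ α lam x y Q _ _ α' p hV hQ hRF
  have hq1 : ∀ q : Q, p (α q) = 1 := by
    intro q
    rw [hQ.cov, (QuotientGroup.eq_one_iff (q : V)).2 q.2, map_one]
  have hsc : ∀ a, (∑ q : Q, α q) * a = a * ∑ q : Q, α q := by
    intro a
    rw [Finset.sum_mul, Finset.mul_sum]
    exact Finset.sum_congr rfl fun q _ => hQ.cen q q.2 a
  have hpe : ∀ a b, p a = p b → (∑ q : Q, α q) * a = (∑ q : Q, α q) * b := by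
    intro a b h
    rw [← sub_eq_zero, ← mul_sub]
    refine (hQ.ker _).1 ?_
    rw [map_sub, h, sub_self]
  choose r hr using hQ.sur
  have hinv : ∀ z : A, ∑ q : Q, lam (α (q : V)⁻¹ * z) = lam ((∑ q : Q, α q) * z) := by
    intro z
    rw [Finset.sum_mul, map_sum]
    exact Fintype.sum_bijective (fun q : Q => q⁻¹) (inv_involutive.bijective) _ _
      fun q => by rw [Subgroup.coe_inv]
  have hinv' : ∀ z : A, ∑ q : Q, lam (z * α q) = lam (z * ∑ q : Q, α q) := by
    intro z
    rw [Finset.mul_sum, map_sum]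
  obtain ⟨lam', hlam⟩ : ∃ lam' : A' →ₗ[F] F, ∀ a, lam' (p a) = lam ((∑ q : Q, α q) * a) := by
    refine ⟨{
      toFun := fun b => lam ((∑ q : Q, α q) * r b)
      map_add' := fun b c => by
        rw [← map_add, ← mul_add]
        refine congrArg lam (hpe _ _ ?_)
        rw [map_add, hr, hr, hr]
      map_smul' := fun s b => by
        rw [RingHom.id_apply, ← map_smul, ← mul_smul_comm]
        refine congrArg lam (hpe _ _ ?_)
        rw [map_smul, hr, hr] }, fun a => ?_⟩
    exact congrArg lam (hpe _ _ (hr _))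
  have hout : ∀ u : V ⧸ Q, α' u = p (α u.out) := by
    intro u
    rw [hQ.cov, QuotientGroup.out_eq']
  have hout' : ∀ u : V ⧸ Q, α' u⁻¹ = p (α u.out⁻¹) := by
    intro u
    rw [hQ.cov, QuotientGroup.mk_inv, QuotientGroup.out_eq']
  have hpq : ∀ (t : V) (q : Q), p (α (t * q)) = p (α t) := by
    intro t q
    rw [map_mul, map_mul, hq1, mul_one]
  have hpq' : ∀ (t : V) (q : Q), p (α (t * q)⁻¹) = p (α t⁻¹) := by
    intro t q
    have h1 : (t * (q : V))⁻¹ = t⁻¹ * ((q⁻¹ : Q) : V) := by
      rw [mul_inv, Subgroup.coe_inv]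
    rw [h1, hpq]
  refine ⟨⟨lam', ⟨?_, ?_, ?_⟩, ?_⟩, ?_⟩
  · intro a b
    obtain ⟨a, rfl⟩ := hQ.sur a
    obtain ⟨b, rfl⟩ := hQ.sur b
    rw [← map_mul, ← map_mul, hlam, hlam, ← mul_assoc, hRF.sym, ← mul_assoc, ← hsc b, mul_assoc]
  · intro a
    obtain ⟨a, rfl⟩ := hQ.sur a
    conv_rhs => rw [← hRF.e1 a]
    rw [map_sum]
    refine Finset.sum_congr rfl fun k _ => ?_
    rw [sum_quot Q, map_sum]
    refine Finset.sum_congr rfl fun u _ => ?_
    rw [map_sum, hout', hout, ← map_mul, ← map_mul, hlam, ← hinv, Finset.sum_smul]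
    refine Finset.sum_congr rfl fun q _ => ?_
    rw [map_smul, map_mul p (x k), hpq]
    refine congrArg₂ (fun s t => lam s • t) ?_ rfl
    rw [← mul_assoc, ← mul_assoc, ← map_mul, mul_inv, mul_comm (u.out)⁻¹]
  · intro a
    obtain ⟨a, rfl⟩ := hQ.sur a
    conv_rhs => rw [← hRF.e2 a]
    rw [map_sum]
    refine Finset.sum_congr rfl fun k _ => ?_
    rw [sum_quot Q, map_sum]
    refine Finset.sum_congr rfl fun u _ => ?_
    rw [map_sum, hout', hout, ← map_mul, ← map_mul, hlam, hsc, ← hinv', Finset.sum_smul]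
    refine Finset.sum_congr rfl fun q _ => ?_
    rw [map_smul, map_mul p _ (y k), hpq']
    refine congrArg₂ (fun s t => lam s • t) ?_ rfl
    rw [mul_assoc, mul_assoc (x k), ← map_mul]
  · have h1 : ∑ u, α' u = p (∑ u : V ⧸ Q, α u.out) := by
      rw [map_sum]
      exact Finset.sum_congr rfl fun u _ => hout u
    rw [h1, hlam, sum_quot Q, hsc, Finset.sum_mul]
    refine congrArg lam (Finset.sum_congr rfl fun u _ => ?_)
    rw [Finset.mul_sum]
    refine Finset.sum_congr rfl fun q _ => ?_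
    rw [map_mul]
  · intro a ha
    have ha' := (hQ.ker a).1 ha
    rcases subsingleton_or_nontrivial A with hA | hA
    · exact ⟨1, Subsingleton.elim _ _⟩
    have hcp : CharP A ℓ := charP_of_injective_algebraMap (algebraMap F A).injective ℓ
    obtain ⟨h, hh⟩ : ∃ h : A →ₗ[F] A, ∀ a, h a =
        ∑ k, ∑ u : V ⧸ Q, lam (α u.out⁻¹ * y k * a) • (x k * α u.out) := by
      refine ⟨{
        toFun := fun a => ∑ k, ∑ u : V ⧸ Q, lam (α u.out⁻¹ * y k * a) • (x k * α u.out)
        map_add' := fun a b => by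
          rw [← Finset.sum_add_distrib]
          refine Finset.sum_congr rfl fun k _ => ?_
          rw [← Finset.sum_add_distrib]
          refine Finset.sum_congr rfl fun u _ => ?_
          rw [mul_add, map_add, add_smul]
        map_smul' := fun s a => by
          rw [RingHom.id_apply, Finset.smul_sum]
          refine Finset.sum_congr rfl fun k _ => ?_
          rw [Finset.smul_sum]
          refine Finset.sum_congr rfl fun u _ => ?_
          rw [mul_smul_comm, map_smul, smul_eq_mul, mul_smul] }, fun a => rfl⟩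
    have hsum : a = ∑ q : Q, α q * h (α (q : V)⁻¹ * a) := by
      conv_lhs => rw [← hRF.e1 a]
      have e1 : ∀ q : Q, α q * h (α (q : V)⁻¹ * a) =
          ∑ k, ∑ u : V ⧸ Q, lam (α (u.out * q)⁻¹ * y k * a) • (x k * α (u.out * q)) := by
        intro q
        rw [hh, Finset.mul_sum]
        refine Finset.sum_congr rfl fun k _ => ?_
        rw [Finset.mul_sum]
        refine Finset.sum_congr rfl fun u _ => ?_
        rw [mul_smul_comm, map_mul α u.out, hQ.cen q q.2, mul_assoc (x k)]
        refine congrArg₂ (fun s t => lam s • t) ?_ rfl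
        have hc := hQ.cen (q : V)⁻¹ (Q.inv_mem q.2) (y k)
        rw [mul_inv, map_mul, mul_assoc (α u.out⁻¹) (α (q : V)⁻¹), hc, mul_assoc, mul_assoc,
          mul_assoc]
      rw [Finset.sum_congr rfl fun q _ => e1 q]
      conv_rhs => rw [Finset.sum_comm]
      refine Finset.sum_congr rfl fun k _ => ?_
      rw [sum_quot Q]
      exact Finset.sum_comm
    have hz : ∑ q : Q, h (α (q : V)⁻¹ * a) = 0 := by
      rw [← map_sum, ← Finset.sum_mul]
      have h1 : ∑ q : Q, α (q : V)⁻¹ = ∑ q : Q, α q :=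
        Fintype.sum_bijective (fun q : Q => q⁻¹) (inv_involutive.bijective) _ _
          fun q => by rw [Subgroup.coe_inv]
      rw [h1, ha', map_zero]
    have hsum' : a = ∑ q : Q, (α q - 1) * h (α (q : V)⁻¹ * a) := by
      have h1 : ∑ q : Q, (α q - 1) * h (α (q : V)⁻¹ * a) =
          ∑ q : Q, α q * h (α (q : V)⁻¹ * a) - ∑ q : Q, h (α (q : V)⁻¹ * a) := by
        rw [← Finset.sum_sub_distrib]
        exact Finset.sum_congr rfl fun q _ => by rw [sub_mul, one_mul]
      rw [h1, hz, sub_zero]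
      exact hsum
    rw [hsum']
    refine nil_sum (fun q : Q => α q - 1) ?_ ?_ _ _
    · intro q b
      rw [sub_mul, mul_sub, one_mul, mul_one, hQ.cen q q.2]
    · intro q
      obtain ⟨k, hk⟩ := hV (q : V)
      refine ⟨ℓ ^ k, ?_⟩
      rw [sub_pow_char_pow_of_commute _ _ (Commute.one_right (α (q : V))), one_pow, ← map_pow, hk,
        map_one, sub_self]

end Pool.Agent.PSS.S5.H8
end
end -- Pool.Agent.Helper8_PSS.NQR

section -- Pool.Agent.Helper8_PSS.NZS

/-!
# Squad PSS, row NZS: `E` trivial, `dim Z(A) = |V|`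
-/

set_option autoImplicit false

open scoped BigOperators

noncomputable section

namespace Pool.Agent.PSS.S5.H8

open Pool.Agent.PSS Pool.Agent.PSS.S5
open Pool.Agent.PSS.S0 (IsBQ)

/-- Commuting nilpotent maps have a common kernel in a stable nonzero subspace. -/
theorem nil_fix {F M ι : Type} [Field F] [AddCommGroup M] [Module F M]
    (t : ι → Module.End F M) (hc : ∀ i j, t i * t j = t j * t i) (hn : ∀ i, IsNilpotent (t i))
    (N : Submodule F M) (hN : ∀ i, ∀ m ∈ N, t i m ∈ N) (w : M) (hw : w ∈ N) (hw0 : w ≠ 0)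
    (T : Finset ι) : ∃ w' ∈ N, w' ≠ 0 ∧ ∀ i ∈ T, t i w' = 0 := by
  classical
  induction T using Finset.induction_on with
  | empty => exact ⟨w, hw, hw0, fun i hi => absurd hi (Finset.notMem_empty i)⟩
  | insert i T hi ih =>
    obtain ⟨w', hw', hw1, hT⟩ := ih
    have hst : ∀ n : ℕ, (t i ^ n) w' ∈ N := by
      intro n
      induction n with
      | zero => rwa [pow_zero, Module.End.one_apply]
      | succ n ihn =>
        rw [pow_succ', Module.End.mul_apply]
        exact hN i _ ihn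
    have hex : ∃ n, (t i ^ n) w' = 0 := by
      obtain ⟨n, hn1⟩ := hn i
      exact ⟨n, by rw [hn1, LinearMap.zero_apply]⟩
    have hspec := Nat.find_spec hex
    have hpos : Nat.find hex ≠ 0 := by
      intro h
      rw [h, pow_zero, Module.End.one_apply] at hspec
      exact hw1 hspec
    obtain ⟨m, hm⟩ := Nat.exists_eq_succ_of_ne_zero hpos
    have hmin : (t i ^ m) w' ≠ 0 := Nat.find_min hex (by omega)
    refine ⟨(t i ^ m) w', hst m, hmin, fun j hj => ?_⟩
    rcases Finset.mem_insert.1 hj with rfl | hj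
    · rw [← Module.End.mul_apply, ← pow_succ']
      rw [hm] at hspec
      exact hspec
    · have h1 : t j * t i ^ m = t i ^ m * t j := (show Commute (t j) (t i) from hc j i).pow_right m
      rw [← Module.End.mul_apply, h1, Module.End.mul_apply, hT j hj, map_zero]

/-- translation of functions -/
def tv (F : Type) {V : Type} [Field F] [CommGroup V] (v : V) : Module.End F (V → F) where
  toFun := fun c u => c (v⁻¹ * u)
  map_add' := fun _ _ => rfl
  map_smul' := fun _ _ => rfl

theorem tv_pow {F V : Type} [Field F] [CommGroup V] (v : V) (n : ℕ) :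
    tv F v ^ n = tv F (v ^ n) := by
  induction n with
  | zero =>
    rw [pow_zero, pow_zero]
    ext c u
    simp [tv]
  | succ n ih =>
    rw [pow_succ, ih]
    ext c u
    simp only [tv, Module.End.mul_apply, LinearMap.coe_mk, AddHom.coe_mk]
    rw [pow_succ, mul_inv, mul_assoc, mul_left_comm]

theorem tv_nil {ℓ : ℕ} [Fact ℓ.Prime] {F V : Type} [Field F] [CharP F ℓ] [CommGroup V]
    (hV : IsPGroup ℓ V) (v : V) : IsNilpotent (tv F v - 1) := by
  obtain ⟨k, hk⟩ := hV v
  have hcp : CharP (Module.End F (V → F)) ℓ :=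
    charP_of_injective_algebraMap (algebraMap F (Module.End F (V → F))).injective ℓ
  refine ⟨ℓ ^ k, ?_⟩
  rw [sub_pow_char_pow_of_commute _ _ (Commute.one_right _), one_pow, tv_pow, hk, sub_eq_zero]
  ext c u
  simp [tv]

/-- the linear map `c ↦ ∑ c u • α u` -/
def lin (F : Type) {V B : Type} [Field F] [CommGroup V] [Fintype V] [Ring B] [Algebra F B]
    (α : V →* B) : (V → F) →ₗ[F] B where
  toFun := fun c => ∑ u, c u • α u
  map_add' := fun c d => by
    rw [← Finset.sum_add_distrib]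
    exact Finset.sum_congr rfl fun u _ => by rw [Pi.add_apply, add_smul]
  map_smul' := fun s c => by
    rw [RingHom.id_apply, Finset.smul_sum]
    exact Finset.sum_congr rfl fun u _ => by rw [Pi.smul_apply, smul_eq_mul, mul_smul]

theorem lin_tv {F V B : Type} [Field F] [CommGroup V] [Fintype V] [Ring B] [Algebra F B]
    (α : V →* B) (v : V) (c : V → F) : lin F α ((tv F v - 1) c) = (α v - 1) * lin F α c := by
  rw [LinearMap.sub_apply, map_sub, Module.End.one_apply, sub_mul, one_mul]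
  congr 1
  show ∑ u, c (v⁻¹ * u) • α u = α v * ∑ u, c u • α u
  rw [Finset.mul_sum]
  symm
  refine Fintype.sum_bijective (fun u => v * u) (Group.mulLeft_bijective v) _ _ fun u => ?_
  rw [inv_mul_cancel_left, map_mul, mul_smul_comm]

/-- `lin` is injective if the sum of the elements of `V` is not zero. -/
theorem lin_inj {ℓ : ℕ} [Fact ℓ.Prime] {F V B : Type} [Field F] [CharP F ℓ] [CommGroup V]
    [Fintype V] [Ring B] [Algebra F B] (hV : IsPGroup ℓ V) (α : V →* B) (hs : ∑ u, α u ≠ 0) :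
    Function.Injective (lin F α) := by
  classical
  rw [← LinearMap.ker_eq_bot, Submodule.eq_bot_iff]
  intro w hw
  by_contra hw0
  obtain ⟨w', hw', hw1, hT⟩ := nil_fix (fun v : V => tv F v - 1) (by
    intro v u
    have h1 : tv F v * tv F u = tv F u * tv F v := by
      refine LinearMap.ext fun c => funext fun x => ?_
      show c (u⁻¹ * (v⁻¹ * x)) = c (v⁻¹ * (u⁻¹ * x))
      rw [mul_left_comm]
    simp only [sub_mul, mul_sub, mul_one, one_mul, h1]
    abel) (fun v => tv_nil hV v) (LinearMap.ker (lin F α)) (by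
    intro v m hm
    rw [LinearMap.mem_ker] at hm ⊢
    rw [lin_tv, hm, mul_zero]) w hw hw0 Finset.univ
  have h1 : ∀ v, w' v = w' 1 := by
    intro v
    have h2 := congrFun (hT v (Finset.mem_univ v)) v
    rw [LinearMap.sub_apply, Pi.sub_apply, Module.End.one_apply, Pi.zero_apply] at h2
    have h3 : w' (v⁻¹ * v) - w' v = 0 := h2
    rw [inv_mul_cancel] at h3
    exact (eq_of_sub_eq_zero h3).symm
  have h2 : lin F α w' = w' 1 • ∑ u, α u := by
    show ∑ u, w' u • α u = _
    rw [Finset.smul_sum]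
    exact Finset.sum_congr rfl fun u _ => by rw [h1 u]
  rw [LinearMap.mem_ker.1 hw'] at h2
  rcases smul_eq_zero.1 h2.symm with h3 | h3
  · apply hw1
    funext v
    rw [h1 v, h3, Pi.zero_apply]
  · exact hs h3

theorem nzs (hbq : S0.BqxStmt) (hbp : S0.BpuStmt) (hmc : S0.MckStmt) : NzsStmt := by
  classical
  intro ℓ _ F V E A _ _ _ _ _ _ _ _ φ α hV hφ hL hdim z z' hz hz' hn
  obtain ⟨lam, K, _, x, y, hRF, hlam⟩ := hL.frm
  obtain ⟨B, _, _, αB, β, hβ⟩ := hbq F V A α ⊤
  have hℓ : (ℓ : F) = 0 := CharP.cast_eq_zero F ℓ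
  obtain ⟨-, -, lamB, KB, _, xB, yB, hRB, hlB⟩ := hbp ℓ F V E A B K φ α ⊤ αB β lam x y ⊤ hℓ hV
    hL.per hL.uni hRF hβ (by
      intro e
      refine ⟨fun _ q _ => ?_, fun _ => Subgroup.mem_top e⟩
      rw [hφ e]
      rfl)
  have hal : ∀ v, α v ∈ FxR (cw F α) ⊤ := fun v => al_mem_cw v ⊤
  have hcen : ∀ a : A, (∀ b, a * b = b * a) → a ∈ FxR (cw F α) ⊤ := by
    intro a ha
    rw [mem_cw]
    exact fun q _ => (ha (α q)).symm
  have h0 : β 0 = 0 := by
    have h1 := hβ.smul 0 0 (Submodule.zero_mem _)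
    rwa [zero_smul, zero_smul] at h1
  -- the linear map
  have hlin : ∀ c : V → F, β (∑ u, c u • α u) = lin F αB c := by
    intro c
    rw [S0.H62.be_sum hβ Finset.univ α c hal]
    exact Finset.sum_congr rfl fun u _ => by rw [hβ.om]
  have hsig : β (∑ v, α v) = ∑ v, αB v := by
    have h1 := hlin fun _ => 1
    simp only [one_smul] at h1
    rw [h1]
    exact Finset.sum_congr rfl fun u _ => one_smul F _
  have hsa : ∑ v, α v ∈ FxR (cw F α) ⊤ := Submodule.sum_mem _ fun v _ => hal v
  have hsB : ∑ v, αB v ≠ 0 := by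
    intro h
    apply hlam
    rw [← hlB _ hsa, hsig, h, map_zero]
  have hinj : Function.Injective (lin F αB) := lin_inj hV αB hsB
  have hsur : Function.Surjective (lin F αB) := by
    intro b
    obtain ⟨a, ha, rfl⟩ := hβ.surj b
    obtain ⟨c, hc⟩ := hL.spn a ha
    refine ⟨c, ?_⟩
    have hs : ∑ u, c u • α u ∈ FxR (cw F α) ⊤ :=
      Submodule.sum_mem _ fun v _ => Submodule.smul_mem _ _ (hal v)
    have hd : a - ∑ u, c u • α u ∈ FxR (cw F α) ⊤ := Submodule.sub_mem _ ha hs
    have h1 := (hβ.ker _ hd).2 hc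
    have h2 := hβ.add _ hd _ hs
    rw [sub_add_cancel, h1, zero_add] at h2
    rw [← hlin, ← h2]
  have hBc : ∀ b c : B, b * c = c * b := by
    intro b c
    obtain ⟨f, rfl⟩ := hsur b
    obtain ⟨g, rfl⟩ := hsur c
    show (∑ u, f u • αB u) * (∑ v, g v • αB v) = (∑ v, g v • αB v) * ∑ u, f u • αB u
    rw [Finset.sum_mul_sum, Finset.sum_mul_sum, Finset.sum_comm]
    refine Finset.sum_congr rfl fun v _ => Finset.sum_congr rfl fun u _ => ?_
    rw [smul_mul_smul_comm, smul_mul_smul_comm, ← map_mul, ← map_mul, mul_comm (f u), mul_comm u]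
  -- the unit
  obtain ⟨G, hG⟩ : ∃ G : B →ₗ[F] B, ∀ b, G b = ∑ v, lamB (αB v⁻¹ * b) • αB v := by
    refine ⟨{
      toFun := fun b => ∑ v, lamB (αB v⁻¹ * b) • αB v
      map_add' := fun b c => by
        rw [← Finset.sum_add_distrib]
        refine Finset.sum_congr rfl fun v _ => ?_
        rw [mul_add, map_add, add_smul]
      map_smul' := fun s b => by
        rw [RingHom.id_apply, Finset.smul_sum]
        refine Finset.sum_congr rfl fun v _ => ?_
        rw [mul_smul_comm, map_smul, smul_eq_mul, mul_smul] }, fun b => rfl⟩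
  have hGu : ∀ u b, G (αB u * b) = αB u * G b := by
    intro u b
    rw [hG, hG, Finset.mul_sum]
    symm
    refine Fintype.sum_bijective (fun v => u * v) (Group.mulLeft_bijective u) _ _ fun v => ?_
    rw [mul_smul_comm, ← map_mul, ← mul_assoc, ← map_mul]
    refine congrArg₂ (fun s t => lamB (s * b) • t) (congrArg αB ?_) rfl
    rw [mul_inv, mul_comm u⁻¹, mul_assoc, inv_mul_cancel, mul_one]
  have hGm : ∀ b c, G (b * c) = b * G c := by
    intro b c
    obtain ⟨f, rfl⟩ := hsur b
    show G ((∑ u, f u • αB u) * c) = (∑ u, f u • αB u) * G c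
    rw [Finset.sum_mul, Finset.sum_mul, map_sum]
    refine Finset.sum_congr rfl fun u _ => ?_
    rw [smul_mul_assoc, smul_mul_assoc, map_smul, hGu]
  have hze : (∑ k, xB k * yB k) * G 1 = 1 := by
    have h1 := hRB.e1 1
    conv_rhs => rw [← h1]
    rw [Finset.sum_mul]
    refine Finset.sum_congr rfl fun k _ => ?_
    have h2 : G (yB k) = yB k * G 1 := by
      rw [← hGm, mul_one]
    rw [mul_assoc, ← h2, hG, Finset.mul_sum]
    refine Finset.sum_congr rfl fun v _ => ?_
    rw [mul_smul_comm, mul_one]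
  -- the trace
  have hrt : ∀ a ∈ FxR (cw F α) ⊤, β (∑ k, x k * a * y k) = (∑ k, xB k * yB k) * β a := by
    intro a ha
    have h1 := hmc ℓ F V E A B K KB φ α ⊤ αB β lam x y lamB xB yB (fun _ => 1) (fun _ => 1) {1}
      hℓ hV hL.per hRF hβ hRB hlB (fun e => ⟨one_mul 1, one_mul 1, fun u => by
        rw [hφ e, one_mul, mul_one]
        rfl⟩) (fun e => ⟨1, ⟨Finset.mem_singleton_self 1, fun q _ => by rw [hφ 1, hφ e]⟩,
          fun t ht => Finset.mem_singleton.1 ht.1⟩) a ha
    rw [h1, Finset.sum_singleton, one_mul, mul_one, Finset.sum_mul]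
    refine Finset.sum_congr rfl fun k _ => ?_
    rw [mul_assoc, hBc (β a), mul_assoc]
  -- the centre
  have hzc : ∀ c : Subalgebra.center F A, (c : A) ∈ FxR (cw F α) ⊤ := fun c =>
    hcen _ fun b => ((Subalgebra.mem_center_iff.1 c.2) b).symm
  obtain ⟨βz, hβz⟩ : ∃ βz : Subalgebra.center F A →ₗ[F] B, ∀ c, βz c = β (c : A) :=
    ⟨{ toFun := fun c => β (c : A)
       map_add' := fun c d => by
        rw [Subalgebra.coe_add]
        exact hβ.add _ (hzc c) _ (hzc d)
       map_smul' := fun s c => by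
        rw [RingHom.id_apply, Subalgebra.coe_smul]
        exact hβ.smul s _ (hzc c) }, fun c => rfl⟩
  have hzs : Function.Surjective βz := by
    intro b
    obtain ⟨a, ha, hab⟩ := hβ.surj (G 1 * b)
    have hc : ∀ c : A, c * ∑ k, x k * a * y k = (∑ k, x k * a * y k) * c :=
      S0.H80.zrt F V A K α lam x y hRF a ha
    refine ⟨⟨∑ k, x k * a * y k, Subalgebra.mem_center_iff.2 hc⟩, ?_⟩
    rw [hβz]
    show β (∑ k, x k * a * y k) = b
    rw [hrt a ha, hab, ← mul_assoc, hze, one_mul]
  have hfd : FiniteDimensional F A := hL.fin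
  have eB : (V → F) ≃ₗ[F] B := LinearEquiv.ofBijective (lin F αB) ⟨hinj, hsur⟩
  have hfB : FiniteDimensional F B := Module.Finite.equiv eB
  have hdB : Module.finrank F B = Nat.card V := by
    rw [← eB.finrank_eq, Module.finrank_fintype_fun_eq_card, Nat.card_eq_fintype_card]
  have hzi : Function.Injective βz :=
    (LinearMap.injective_iff_surjective_of_finrank_eq_finrank (hdim.trans hdB.symm)).2 hzs
  have hzi' : ∀ c : A, (∀ b, c * b = b * c) → β c = 0 → c = 0 := by
    intro c hc hc0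
    have h1 : (⟨c, Subalgebra.mem_center_iff.2 fun b => (hc b).symm⟩ :
        Subalgebra.center F A) = 0 := by
      apply hzi
      rw [hβz, map_zero]
      exact hc0
    exact congrArg Subtype.val h1
  -- the multiples of the sum
  have hmul : ∀ z : A, (∀ a, z * a = a * z) →
      (∀ n, (∀ a, n * a = a * n) → IsNilpotent n → n * z = 0) →
      ∃ c : F, β z = c • ∑ v, αB v := by
    intro z hz hn
    obtain ⟨w, hw⟩ := hsur (β z)
    have hw1 : ∀ v, (tv F v - 1) w = 0 := by
      intro v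
      obtain ⟨n, hn'⟩ := hzs (αB v - 1)
      rw [hβz] at hn'
      have hnc : ∀ a, (n : A) * a = a * n := fun a => ((Subalgebra.mem_center_iff.1 n.2) a).symm
      have hnil : IsNilpotent (n : A) := by
        rcases subsingleton_or_nontrivial B with hB | hB
        · exact ⟨1, by rw [pow_one]; exact hzi' _ hnc (Subsingleton.elim _ _)⟩
        obtain ⟨k, hk⟩ := hV v
        have hcp : CharP B ℓ := charP_of_injective_algebraMap (algebraMap F B).injective ℓ
        have hpow : ∀ m : ℕ, (n : A) ^ m ∈ FxR (cw F α) ⊤ ∧ β ((n : A) ^ m) = (αB v - 1) ^ m := by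
          intro m
          induction m with
          | zero =>
            rw [pow_zero, pow_zero]
            exact ⟨hcen 1 fun b => by rw [one_mul, mul_one], hβ.one⟩
          | succ m ih =>
            refine ⟨hcen _ fun b => (show Commute ((n : A) ^ (m + 1)) b from
              (show Commute (n : A) b from hnc b).pow_left _).eq, ?_⟩
            rw [pow_succ, hβ.mul _ ih.1 _ (hzc n), ih.2, hn', pow_succ]
        refine ⟨ℓ ^ k, hzi' _ (fun b => (show Commute ((n : A) ^ (ℓ ^ k)) b from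
              (show Commute (n : A) b from hnc b).pow_left _).eq) ?_⟩
        rw [(hpow _).2, sub_pow_char_pow_of_commute _ _ (Commute.one_right _), one_pow, ← map_pow, hk,
          map_one, sub_self]
      have h1 := hn n hnc hnil
      have h2 : (αB v - 1) * β z = 0 := by
        rw [← hn', ← hβ.mul _ (hzc n) _ (hcen z hz), h1, h0]
      apply hinj
      rw [lin_tv, map_zero, hw, h2]
    refine ⟨w 1, ?_⟩
    have h1 : ∀ v, w v = w 1 := by
      intro v
      have h2 := congrFun (hw1 v) v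
      rw [LinearMap.sub_apply, Pi.sub_apply, Module.End.one_apply, Pi.zero_apply] at h2
      have h3 : w (v⁻¹ * v) - w v = 0 := h2
      rw [inv_mul_cancel] at h3
      exact (eq_of_sub_eq_zero h3).symm
    rw [← hw]
    show ∑ u, w u • αB u = _
    rw [Finset.smul_sum]
    exact Finset.sum_congr rfl fun u _ => by rw [h1 u]
  obtain ⟨c, hc⟩ := hmul z hz fun n h1 h2 => (hn n h1 h2).1
  obtain ⟨c', hc'⟩ := hmul z' hz' fun n h1 h2 => (hn n h1 h2).2
  by_cases h : c = 0
  · refine ⟨1, 0, Or.inl one_ne_zero, ?_⟩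
    rw [one_smul, zero_smul, add_zero]
    exact hzi' z hz (by rw [hc, h, zero_smul])
  · refine ⟨c', -c, Or.inr (neg_ne_zero.2 h), ?_⟩
    apply hzi'
    · intro b
      rw [add_mul, mul_add, smul_mul_assoc, smul_mul_assoc, mul_smul_comm, mul_smul_comm, hz, hz']
    · rw [hβ.add _ (Submodule.smul_mem _ _ (hcen z hz)) _ (Submodule.smul_mem _ _ (hcen z' hz')),
        hβ.smul _ _ (hcen z hz), hβ.smul _ _ (hcen z' hz'), hc, hc', smul_smul, smul_smul,
        ← add_smul, neg_mul, mul_comm c', add_neg_cancel, zero_smul]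

end Pool.Agent.PSS.S5.H8
end
end -- Pool.Agent.Helper8_PSS.NZS

section -- Pool.Agent.Helper95_PSS.MDV

/-!
# PSS.MDV (helper95): all composition factors of `L` are the simple module of dimension `n`
-/

open scoped BigOperators TensorProduct

noncomputable section

namespace Pool.Agent.PSS.S5.H95

open Pool.Agent.PSS.S5

theorem mdv : MdvStmt := by
  intro F A _ _ _ _ n π hπ hker L hL
  have hone : ∀ a b : A, π a = π b → ∃ u : A, u * (1 + (a - b)) = 1 := by
    intro a b hab
    have h1 : IsNilpotent (a - b) := hker _ (by rw [map_sub, hab, sub_self])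
    obtain ⟨u, hu⟩ := h1.isUnit_one_add
    refine ⟨(u⁻¹ : Aˣ), ?_⟩
    rw [← hu]
    exact u.inv_mul
  cases n with
  | zero =>
    have h0 : (1 : A) = 0 := by
      have h2 : IsNilpotent (1 : A) := hker 1 (Subsingleton.elim _ _)
      obtain ⟨k, hk⟩ := h2
      rw [one_pow] at hk
      exact hk
    haveI : Subsingleton A := subsingleton_of_zero_eq_one h0.symm
    haveI : Subsingleton L := ⟨fun x y => Subtype.ext (Subsingleton.elim _ _)⟩
    rw [Module.finrank_zero_of_subsingleton]
  | succ m =>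
    have hco : CompleteOrthogonalIdempotents
        (fun i : Fin (m + 1) => (Matrix.single i i (1 : F) : Matrix (Fin (m + 1)) (Fin (m + 1)) F)) := by
      refine ⟨⟨fun i => ?_, fun i j hij => ?_⟩, ?_⟩
      · show Matrix.single i i (1 : F) * Matrix.single i i (1 : F) = Matrix.single i i (1 : F)
        rw [Matrix.single_mul_single_same, mul_one]
      · show Matrix.single i i (1 : F) * Matrix.single j j (1 : F) = 0
        rw [Matrix.single_mul_single_of_ne (h := hij)]
      · exact Matrix.sum_single_one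
    obtain ⟨e, he, hπe⟩ := CompleteOrthogonalIdempotents.lift_of_isNilpotent_ker
      (π : A →+* Matrix (Fin (m + 1)) (Fin (m + 1)) F) (fun x hx => hker x hx) hco
      (fun i => ⟨(hπ _).choose, (hπ _).choose_spec⟩)
    have hπe' : ∀ i, π (e i) = Matrix.single i i (1 : F) := fun i => congrFun hπe i
    choose w hw using fun i j : Fin (m + 1) => hπ (Matrix.single i j (1 : F))
    set u : Fin (m + 1) → Fin (m + 1) → A := fun i j => e i * w i j * e j with hu
    have hπu : ∀ i j, π (u i j) = Matrix.single i j (1 : F) := by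
      intro i j
      show π (e i * w i j * e j) = _
      rw [map_mul, map_mul, hπe', hπe', hw, Matrix.single_mul_single_same,
        Matrix.single_mul_single_same, mul_one, mul_one]
    have heu : ∀ i j, e i * u i j = u i j := by
      intro i j
      show e i * (e i * w i j * e j) = e i * w i j * e j
      rw [← mul_assoc, ← mul_assoc, (he.idem i).eq]
    have hort : ∀ i j k l, j ≠ k → u i j * u k l = 0 := by
      intro i j k l hjk
      show e i * w i j * e j * (e k * w k l * e l) = 0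
      have h : e j * e k = 0 := he.ortho hjk
      calc e i * w i j * e j * (e k * w k l * e l)
          = e i * w i j * (e j * e k) * w k l * e l := by simp only [mul_assoc]
        _ = 0 := by rw [h, mul_zero, zero_mul, zero_mul]
    -- a product `u i j * u j i` acts injectively on `e i A`
    have hinj : ∀ i j (x : A), e i * x = x → u i j * (u j i * x) = 0 → x = 0 := by
      intro i j x hx h0
      have h1 : π (u i j * u j i) = π (e i) := by
        rw [map_mul, hπu, hπu, hπe', Matrix.single_mul_single_same, mul_one]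
      obtain ⟨y, hy⟩ := hone _ _ h1
      have h2 : (1 + (u i j * u j i - e i)) * x = 0 := by
        rw [add_mul, one_mul, sub_mul, hx, mul_assoc, h0, zero_sub, add_neg_cancel]
      calc x = (y * (1 + (u i j * u j i - e i))) * x := by rw [hy, one_mul]
        _ = y * ((1 + (u i j * u j i - e i)) * x) := mul_assoc _ _ _
        _ = 0 := by rw [h2, mul_zero]
    set M : Submodule F A := L.map (LinearMap.mulLeft F (e 0)) with hM
    have hMx : ∀ x ∈ M, e 0 * x = x ∧ x ∈ L := by
      rintro _ ⟨l, hl, rfl⟩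
      refine ⟨?_, hL _ _ hl⟩
      show e 0 * (e 0 * l) = e 0 * l
      rw [← mul_assoc, (he.idem 0).eq]
    -- first map
    have hf1 : ∀ i : Fin (m + 1), ∀ l : L, u 0 i * (l : A) ∈ M := by
      intro i l
      refine ⟨u 0 i * (l : A), hL _ _ l.2, ?_⟩
      show e 0 * (u 0 i * (l : A)) = u 0 i * (l : A)
      rw [← mul_assoc, heu]
    let f : L →ₗ[F] (Fin (m + 1) → M) := LinearMap.pi fun i =>
      LinearMap.codRestrict M ((LinearMap.mulLeft F (u 0 i)).comp L.subtype) (hf1 i)
    have hfinj : Function.Injective f := by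
      rw [injective_iff_map_eq_zero]
      intro l hl
      have h1 : ∀ i, u 0 i * (l : A) = 0 := by
        intro i
        have h2 : ((f l i : M) : A) = 0 := by rw [hl]; rfl
        exact h2
      have h3 : ∀ i, e i * (l : A) = 0 := by
        intro i
        refine hinj i 0 (e i * (l : A)) (by rw [← mul_assoc, (he.idem i).eq]) ?_
        have h4 : u 0 i * (e i * (l : A)) = u 0 i * (l : A) := by
          show e 0 * w 0 i * e i * (e i * (l : A)) = e 0 * w 0 i * e i * (l : A)
          rw [← mul_assoc, mul_assoc (e 0 * w 0 i), (he.idem i).eq]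
        rw [h4, h1, mul_zero]
      apply Subtype.ext
      show (l : A) = 0
      calc (l : A) = (∑ i, e i) * (l : A) := by rw [he.complete, one_mul]
        _ = ∑ i, e i * (l : A) := Finset.sum_mul _ _ _
        _ = 0 := Finset.sum_eq_zero fun i _ => h3 i
    -- second map
    have hg1 : ∀ x : Fin (m + 1) → M, ∑ i, u i 0 * ((x i : M) : A) ∈ L := by
      intro x
      exact Submodule.sum_mem _ fun i _ => hL _ _ (hMx _ (x i).2).2
    let g0 : (Fin (m + 1) → M) →ₗ[F] A := ∑ i : Fin (m + 1),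
      (LinearMap.mulLeft F (u i 0)).comp (M.subtype.comp (LinearMap.proj i))
    have hg0 : ∀ x, g0 x = ∑ i, u i 0 * ((x i : M) : A) := by
      intro x
      show (∑ i : Fin (m + 1),
        (LinearMap.mulLeft F (u i 0)).comp (M.subtype.comp (LinearMap.proj i))) x = _
      rw [LinearMap.sum_apply]
      rfl
    let g : (Fin (m + 1) → M) →ₗ[F] L := LinearMap.codRestrict L g0 (fun x => by
      rw [hg0]
      exact hg1 x)
    have hginj : Function.Injective g := by
      rw [injective_iff_map_eq_zero]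
      intro x hx
      have h1 : ∑ i, u i 0 * ((x i : M) : A) = 0 := by
        rw [← hg0]
        have h2 : ((g x : L) : A) = 0 := by rw [hx]; rfl
        exact h2
      funext j
      apply Subtype.ext
      show ((x j : M) : A) = 0
      refine hinj 0 j _ (hMx _ (x j).2).1 ?_
      have h2 : u 0 j * ∑ i, u i 0 * ((x i : M) : A) = 0 := by rw [h1, mul_zero]
      rw [Finset.mul_sum, Finset.sum_eq_single j] at h2
      · exact h2
      · intro i _ hij
        rw [← mul_assoc, hort 0 j i 0 hij.symm, zero_mul]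
      · intro h
        exact absurd (Finset.mem_univ j) h
    have h1 := LinearMap.finrank_le_finrank_of_injective hfinj
    have h2 := LinearMap.finrank_le_finrank_of_injective hginj
    have h3 : Module.finrank F (Fin (m + 1) → M) = (m + 1) * Module.finrank F M := by
      rw [Module.finrank_pi_fintype, Finset.sum_const, Finset.card_univ, Fintype.card_fin,
        smul_eq_mul]
    rw [h3] at h1 h2
    exact ⟨Module.finrank F M, le_antisymm h1 h2⟩

end Pool.Agent.PSS.S5.H95
end
end -- Pool.Agent.Helper95_PSS.MDV
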