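import Pool.Agent.Helper12_AWB.B004
import Pool.Agent.Helper12_AWB.B038
import Pool.Agent.Helper12_AWB.B185

/-!
# Merged copies (generated) of the modules

* `Pool.Agent.Helper10_PSS.FRC`
* `Pool.Agent.Helper13_PSS.LBR`
* `Pool.Agent.Helper18_PSS.CLJ`
* `Pool.Agent.Helper18_PSS.CNW`
* `Pool.Agent.Helper18_PSS.RDL`
* `Pool.Agent.Helper19_PSS.NQS`
* `Pool.Agent.Helper1_PSS.LSU`
* `Pool.Agent.Helper20_PSS.FIT5`
* `Pool.Agent.Helper23_PSS.NQA`
* `Pool.Agent.Helper27_PSS.VON`
* `Pool.Agent.Helper37_PSS.TPL`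
* `Pool.Agent.Helper39_PSS.LCQ`
* `Pool.Agent.Helper53_PSS.LQX`
* `Pool.Agent.Helper5_PSS.LNT`
* `Pool.Agent.Helper62_PSS.LNL`
* `Pool.Agent.Helper68_PSS.BPT`
* `Pool.Agent.Helper68_PSS.COE`
* `Pool.Agent.Helper6_PSS.TPJ`
* `Pool.Agent.Helper70_PSS.NQP`
* `Pool.Agent.Helper70_PSS.RYN`
* `Pool.Agent.Helper77_PSS.NQF`
* `Pool.Agent.Helper77_PSS.NQT`
* `Pool.Agent.Helper7_PSS.BOR`
* `Pool.Agent.Helper80_PSS.LCN`
* `Pool.Agent.Helper81_PSS.SGN`
* `Pool.Agent.Helper83_PSS.LCP`
* `Pool.Agent.Helper94_PSS.RFJ`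
-/

set_option autoImplicit false

section -- Pool.Agent.Helper10_PSS.FRC

/-!
# PSS, block S5, row FRC: the groups
-/

set_option autoImplicit false

open scoped BigOperators TensorProduct

noncomputable section

namespace Pool.Agent.PSS.H10

open Pool.Agent.PSS.S5
open Pool.Agent.PFC (Ctf)

theorem frc : FrcStmt := by
  intro ℓ _ V E _ _ _ _ φ E' hV hE hF hE'
  obtain ⟨U, W, hU, hc, hsU, hsW, hfr⟩ := hF
  have key : ∀ s : E', ∃ e, φ e = s := fun s => hE' s.2
  refine ⟨W, ?_⟩
  exact {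
    pr := Fact.out
    pg := hV
    nt := by
      by_contra hcon
      push Not at hcon
      apply hU
      have h1 : W = ⊤ := by
        rw [eq_top_iff]
        exact fun u _ => hcon u
      have h2 := hc.inf_eq_bot
      rw [h1, inf_top_eq] at h2
      exact h2
    cop := by
      intro h
      apply hE
      have h1 : Nat.card E' ∣ Nat.card φ.range := Subgroup.card_dvd_of_le hE'
      exact h.trans (h1.trans (Subgroup.card_range_dvd φ))
    stab := by
      intro s u hu
      obtain ⟨e, he⟩ := key s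
      show (s : MulAut V) u ∈ W
      rw [← he]
      exact hsW e u hu
    cmp := by
      refine ⟨U, hc, ?_⟩
      intro s u hu
      obtain ⟨e, he⟩ := key s
      show (s : MulAut V) u ∈ U
      rw [← he]
      exact hsU e u hu
    free := by
      intro s u hsu
      by_cases hu : u ∈ W
      · exact Or.inr hu
      left
      obtain ⟨e, he⟩ := key s
      have hs : (s : MulAut V) u = u := hsu
      rw [← he] at hs
      have hm : u ∈ U ⊔ W := by
        rw [hc.sup_eq_top]
        trivial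
      obtain ⟨u1, hu1, u2, hu2, hu12⟩ := Subgroup.mem_sup.1 hm
      rw [← hu12, map_mul] at hs
      have h1 : u1⁻¹ * φ e u1 = u2 * (φ e u2)⁻¹ := by
        rw [inv_mul_eq_iff_eq_mul, ← mul_assoc, eq_mul_inv_iff_mul_eq, hs]
      have h2 : u1⁻¹ * φ e u1 ∈ U ⊓ W := by
        refine ⟨U.mul_mem (U.inv_mem hu1) (hsU e u1 hu1), ?_⟩
        rw [h1]
        exact W.mul_mem hu2 (W.inv_mem (hsW e u2 hu2))
      rw [hc.inf_eq_bot, Subgroup.mem_bot] at h2
      have h3 : φ e u1 = u1 := (inv_mul_eq_one.1 h2).symm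
      have hne : u1 ≠ 1 := by
        intro h4
        apply hu
        rw [← hu12, h4, one_mul]
        exact hu2
      have h4 := hfr e u1 hu1 hne h3
      apply Subtype.ext
      rw [← he, h4]
      rfl }

end Pool.Agent.PSS.H10
end
end -- Pool.Agent.Helper10_PSS.FRC

section -- Pool.Agent.Helper13_PSS.LBR

/-!
# PSS, row LBR: local idempotents in the Brauer quotients
-/

open scoped BigOperators TensorProduct

noncomputable section

namespace Pool.Agent.PSS.S5.H13

open Pool.Agent.PSS Pool.Agent.PSS.S5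
open Pool.Agent.PSS.S0 (IsBQ)

section fx

variable {F V A : Type} [Field F] [CommGroup V] [Ring A] [Algebra F A] {α : V →* A}

theorem mem_fx {P : Subgroup V} {a : A} :
    a ∈ FxR (cw F α) P ↔ ∀ h ∈ P, α h * a = a * α h := by
  have key : ∀ h : V, (cw F α) h a = α h * (a * α h⁻¹) := fun h => rfl
  constructor
  · intro ha h hh
    have h1 : α h * (a * α h⁻¹) = a := (key h).symm.trans (ha h hh)
    calc α h * a = α h * (a * (α h⁻¹ * α h)) := by
          rw [← map_mul, inv_mul_cancel, map_one, mul_one]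
      _ = α h * (a * α h⁻¹) * α h := by simp only [mul_assoc]
      _ = a * α h := by rw [h1]
  · intro ha h hh
    show (cw F α) h a = a
    rw [key, ← mul_assoc, ha h hh, mul_assoc, ← map_mul, mul_inv_cancel, map_one, mul_one]

theorem fx_mul {P : Subgroup V} {a b : A} (ha : a ∈ FxR (cw F α) P) (hb : b ∈ FxR (cw F α) P) :
    a * b ∈ FxR (cw F α) P := by
  rw [mem_fx] at ha hb ⊢
  intro h hh
  rw [← mul_assoc, ha h hh, mul_assoc, hb h hh, mul_assoc]

theorem fx_one {P : Subgroup V} : (1 : A) ∈ FxR (cw F α) P := by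
  rw [mem_fx]
  intro h _
  rw [mul_one, one_mul]

theorem fx_pow {P : Subgroup V} {a : A} (ha : a ∈ FxR (cw F α) P) (n : ℕ) :
    a ^ n ∈ FxR (cw F α) P := by
  induction n with
  | zero =>
    rw [pow_zero]
    exact fx_one
  | succ n ih =>
    rw [pow_succ]
    exact fx_mul ih ha

end fx

/-- row LBR -/
theorem lbr (hLeq : LeqStmt) (hBbk : S0.BbkStmt) : LbrStmt := by
  intro ℓ _ F V E A B K _ _ _ _ _ _ _ _ _ _ φ α Q αB β lam x y hV hper hRF hBQ
  have hl : ((ℓ : ℕ) : F) = 0 := CharP.cast_eq_zero F ℓ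
  obtain ⟨h1, h2⟩ := hBbk ℓ F V E A B K φ α Q αB β lam x y ⊤ hl hV hper hRF hBQ
  rw [top_sup_eq] at h1 h2
  have hCQ : ∀ a ∈ FxR (cw F α) ⊤, a ∈ FxR (cw F α) Q :=
    fun a ha h _ => ha h (Subgroup.mem_top h)
  have hmul : ∀ a ∈ FxR (cw F α) ⊤, ∀ b ∈ FxR (cw F α) ⊤, β (a * b) = β a * β b :=
    fun a ha b hb => hBQ.mul a (hCQ a ha) b (hCQ b hb)
  have hpow : ∀ a ∈ FxR (cw F α) ⊤, ∀ n : ℕ, β (a ^ n) = β a ^ n := by
    intro a ha n
    induction n with
    | zero => rw [pow_zero, pow_zero, hBQ.one]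
    | succ n ih => rw [pow_succ, pow_succ, hmul _ (fx_pow ha n) _ ha, ih]
  have hβ0 : β 0 = 0 := (hBQ.ker 0 (Submodule.zero_mem _)).mpr (Submodule.zero_mem _)
  have hnil : ∀ a ∈ FxR (cw F α) ⊤, IsNilpotent a → IsNilpotent (β a) := by
    rintro a ha ⟨n, hn⟩
    refine ⟨n, ?_⟩
    rw [← hpow a ha, hn, hβ0]
  have hfirst : ∀ j, Loi F α j → Loi F αB (β j) := by
    intro j hj
    refine ⟨(h1 j hj.fx).1, ?_, ?_, ?_⟩
    · rw [← hmul j hj.fx j hj.fx, hj.id]
    · rw [(h1 j hj.fx).2]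
      exact hj.nz
    · intro z hz
      obtain ⟨x₁, hx₁, rfl⟩ := h2 z hz
      have e1 : β j * β x₁ * β j = β (j * x₁ * j) := by
        rw [hmul _ (fx_mul hj.fx hx₁) _ hj.fx, hmul _ hj.fx _ hx₁]
      rcases hj.loc x₁ hx₁ with h3 | ⟨y₁, hy₁, h3, h4⟩
      · left
        rw [e1]
        exact hnil _ (fx_mul (fx_mul hj.fx hx₁) hj.fx) h3
      · right
        have e2 : β j * β y₁ * β j = β (j * y₁ * j) := by
          rw [hmul _ (fx_mul hj.fx hy₁) _ hj.fx, hmul _ hj.fx _ hy₁]
        refine ⟨β y₁, (h1 y₁ hy₁).1, ?_, ?_⟩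
        · rw [e1, e2, ← hmul _ (fx_mul (fx_mul hj.fx hx₁) hj.fx) _
            (fx_mul (fx_mul hj.fx hy₁) hj.fx), h3]
        · rw [e1, e2, ← hmul _ (fx_mul (fx_mul hj.fx hy₁) hj.fx) _
            (fx_mul (fx_mul hj.fx hx₁) hj.fx), h4]
  refine ⟨hfirst, ?_⟩
  rintro j j' hj hj' ⟨p, hp, q, hq, e1, e2, e3, e4, e5, e6⟩
  obtain ⟨p₁, hp₁, rfl⟩ := h2 p hp
  obtain ⟨q₁, hq₁, rfl⟩ := h2 q hq
  rcases hLeq F V A α j j' hj hj' p₁ hp₁ q₁ hq₁ with h3 | h3
  · exfalso
    have hfx := fx_mul (fx_mul (fx_mul (fx_mul hj.fx hp₁) hj'.fx) hq₁) hj.fx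
    have h4 := hnil _ hfx h3
    have h5 : β (j * p₁ * j' * q₁ * j) = β j := by
      rw [hmul _ (fx_mul (fx_mul (fx_mul hj.fx hp₁) hj'.fx) hq₁) _ hj.fx,
        hmul _ (fx_mul (fx_mul hj.fx hp₁) hj'.fx) _ hq₁, hmul _ (fx_mul hj.fx hp₁) _ hj'.fx,
        hmul _ hj.fx _ hp₁, e1, e2, mul_assoc, e4, e5]
    rw [h5] at h4
    obtain ⟨n, hn⟩ := h4
    have hL := hfirst j hj
    have h6 : β j = 0 := by
      have h7 : ∀ k : ℕ, β j ^ (k + 1) = β j := by
        intro k
        induction k with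
        | zero => rw [zero_add, pow_one]
        | succ k ih => rw [pow_succ, ih, hL.id]
      have h8 : β j ^ (n + 1) = 0 := by rw [pow_succ, hn, zero_mul]
      rw [← h7 n, h8]
    apply hL.nz
    rw [h6]
    exact Submodule.zero_mem _
  · exact h3

end Pool.Agent.PSS.S5.H13
end
end -- Pool.Agent.Helper13_PSS.LBR

section -- Pool.Agent.Helper18_PSS.CLJ

/-!
# Squad PSS, block S5, row CLJ (helper18): the corner is in the class of local algebras
-/

open scoped BigOperators TensorProduct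

noncomputable section

namespace Pool.Agent.PSS.S5.H18

open Pool.Agent.PFC (tw IsTv Cnr Cz PIn Ctf Lcq PmzStmt PS bi PsxStmt)
open Pool.Agent.PFD.D2b (FrR)

section theta

variable {F V A Y : Type} [Field F] [CommGroup V] [Ring A] [Algebra F A] [Ring Y] [Algebra F Y]
  {α : V →* A} {j : A} {αY : V →* Y} {κ : Y →ₗ[F] A}

theorem cor_id (h : CorV F α j αY κ) : j * j = j := by
  rw [← h.one, ← h.mul, mul_one]

theorem cor_l (h : CorV F α j αY κ) (y : Y) : j * κ y = κ y := by
  rw [← h.one, ← h.mul, one_mul]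

theorem cor_r (h : CorV F α j αY κ) (y : Y) : κ y * j = κ y := by
  rw [← h.one, ← h.mul, mul_one]

/-- the projection of `A` onto the corner -/
theorem exists_theta (h : CorV F α j αY κ) :
    ∃ θ : A →ₗ[F] Y, (∀ a, κ (θ a) = j * a * j) ∧ ∀ y, θ (κ y) = y := by
  have hid := cor_id h
  let L : A →ₗ[F] A := (LinearMap.mulLeft F j).comp (LinearMap.mulRight F j)
  have hL : ∀ a, L a = j * a * j := by
    intro a
    change j * (a * j) = j * a * j
    rw [mul_assoc]
  have hr : ∀ a, L a ∈ LinearMap.range κ := by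
    intro a
    obtain ⟨b, hb⟩ := h.ran (L a) (by rw [hL, ← mul_assoc, ← mul_assoc, hid])
      (by rw [hL, mul_assoc, hid])
    exact ⟨b, hb⟩
  let e := LinearEquiv.ofInjective κ h.inj
  let θ : A →ₗ[F] Y := e.symm.toLinearMap.comp (L.codRestrict (LinearMap.range κ) hr)
  have h1 : ∀ a, κ (θ a) = j * a * j := by
    intro a
    have h2 : e (θ a) = L.codRestrict (LinearMap.range κ) hr a := by
      change e (e.symm _) = _
      rw [LinearEquiv.apply_symm_apply]
    have h3 := congrArg Subtype.val h2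
    rw [LinearEquiv.ofInjective_apply, LinearMap.codRestrict_apply, hL] at h3
    exact h3
  refine ⟨θ, h1, fun y => h.inj ?_⟩
  rw [h1, cor_l h, cor_r h]

theorem kap_bw (hj : ∀ v, α v * j = j * α v) (h : CorV F α j αY κ) (u v : V) (y : Y) :
    κ (bw F αY (u, v) y) = bw F α (u, v) (κ y) := by
  change κ (αY u * (y * αY v⁻¹)) = α u * (κ y * α v⁻¹)
  rw [h.mul, h.mul, h.cov, h.cov, ← mul_assoc (κ y), ← mul_assoc, ← mul_assoc]
  rw [mul_assoc (α u) j (κ y), cor_l h, mul_assoc _ (α v⁻¹) j, hj v⁻¹, ← mul_assoc,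
    mul_assoc (α u) (κ y) j, cor_r h, mul_assoc]

theorem th_bw (hj : ∀ v, α v * j = j * α v) (h : CorV F α j αY κ) {θ : A →ₗ[F] Y}
    (h1 : ∀ a, κ (θ a) = j * a * j) (u v : V) (a : A) :
    θ (bw F α (u, v) a) = bw F αY (u, v) (θ a) := by
  apply h.inj
  rw [h1, kap_bw hj h, h1]
  change j * (α u * (a * α v⁻¹)) * j = α u * (j * a * j * α v⁻¹)
  rw [← mul_assoc j, ← hj u, mul_assoc (α u * j), mul_assoc a, hj v⁻¹]
  simp only [mul_assoc]

end theta

theorem prod_pgroup {ℓ : ℕ} {V : Type} [CommGroup V] (h : IsPGroup ℓ V) : IsPGroup ℓ (V × V) := by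
  rintro ⟨u, v⟩
  obtain ⟨m, hm⟩ := h u
  obtain ⟨n, hn⟩ := h v
  refine ⟨m + n, ?_⟩
  rw [Prod.pow_mk, pow_add, pow_mul, hm, one_pow, mul_comm, pow_mul, hn, one_pow]
  rfl

theorem tw_congr {V : Type} [CommGroup V] {s t : V →* V} {S : Subgroup V}
    (h : ∀ x ∈ S, s x = t x) : tw s S = tw t S := by
  apply le_antisymm
  · rintro _ ⟨x, hx, rfl⟩
    refine ⟨x, hx, ?_⟩
    change (t x, x) = (s x, x)
    rw [h x hx]
  · rintro _ ⟨x, hx, rfl⟩
    refine ⟨x, hx, ?_⟩
    change (s x, x) = (t x, x)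
    rw [h x hx]

theorem clj (stb : StbStmt) (tpj : TpjStmt) (rfj : RfjStmt) : CljStmt := by
  intro ℓ _ F V E A Y _ _ _ _ _ _ _ _ _ _ _ φ α j αY κ hp hE hA hj hY
  have hfA : FiniteDimensional F A := hA.fin
  have hfY : FiniteDimensional F Y := Module.Finite.of_injective κ hY.inj
  have hjv : ∀ v, α v * j = j * α v := fun v => mem_cw.1 hj.fx v (Subgroup.mem_top v)
  obtain ⟨θ, hθ, hθκ⟩ := exists_theta hY
  have hmem : ∀ y : Y, y ∈ FxR (cw F αY) ⊤ → κ y ∈ FxR (cw F α) ⊤ := by
    intro y hy v hv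
    have h1 := hy v hv
    change bw F α (v, v) (κ y) = κ y
    rw [← kap_bw hjv hY]
    exact congrArg κ h1
  have hmemθ : ∀ a : A, a ∈ FxR (cw F α) ⊤ → θ a ∈ FxR (cw F αY) ⊤ := by
    intro a ha
    exact FxR_hom (ρ := cw F α) (ρ' := cw F αY) (L := θ) (fun v m => th_bw hjv hY hθ v v m) ha
  obtain ⟨lam, K, _, x, y, hRF, u, hu⟩ := hA.rt
  obtain ⟨htp, hlam⟩ := tpj ℓ F V E A K φ α lam x y u j hp hE hA hRF hu hj
  refine ⟨hfY, ?_, ?_, ?_, ?_, ?_⟩
  · -- per
    obtain ⟨Ω, i1, i2, b, c, hf, hs⟩ := hA.per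
    have hPS : PS (fun K => ∃ (e : E) (S : Subgroup V), K = tw (φ e).toMonoidHom S)
        (bi F αY) := by
      refine ⟨Ω, i1, i2, fun ω => θ (b ω), fun ω => (c ω).comp κ, ⟨?_, ?_, ?_⟩, fun ω => hs ω⟩
      · rintro ⟨u, v⟩ ω
        change θ (b ((u, v) • ω)) = bw F αY (u, v) (θ (b ω))
        rw [hf.1, th_bw hjv hY hθ]
      · rintro ⟨u, v⟩ ω m
        change c ((u, v) • ω) (κ (bw F αY (u, v) m)) = c ω (κ m)
        rw [kap_bw hjv hY, hf.2.1]
      · intro m
        change ∑ ω, c ω (κ m) • θ (b ω) = m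
        have h1 := congrArg θ (hf.2.2 (κ m))
        rw [map_sum, hθκ] at h1
        calc ∑ ω, c ω (κ m) • θ (b ω) = ∑ ω, θ (c ω (κ m) • b ω) :=
              Finset.sum_congr rfl fun ω _ => (map_smul θ _ _).symm
          _ = m := h1
    obtain ⟨Ω', i1', i2', b', c', hf', hs'⟩ := PFC.H10.psx ℓ F (V × V) Y (bi F αY) _
      (prod_pgroup hp) (fun x y => mul_comm x y) hPS
    refine ⟨Ω', i1', i2', b', c', hf', fun ω => ?_⟩
    obtain ⟨⟨e, S, hS⟩, hn⟩ := hs' ω
    rw [hS] at hn
    obtain ⟨σ, hσ, hσS⟩ := stb ℓ F V E A Y φ α j αY κ hp hE hA hj hY e S hn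
    refine ⟨⟨σ, hσ⟩, S, ?_⟩
    rw [hS]
    exact tw_congr fun x hx => (hσS x hx).symm
  · -- uni
    rintro ⟨σ, hσ⟩
    exact hσ.2
  · -- frm
    obtain ⟨K', i1, x', y', h1⟩ := rfj F V E A Y K φ α lam x y j αY κ hA.per hRF hj.id hj.fx hY
    refine ⟨lam.comp κ, K', i1, x', y', h1, ?_⟩
    rw [LinearMap.comp_apply, map_sum]
    have h2 : ∑ v, κ (αY v) = (∑ v, α v) * j := by
      rw [Finset.sum_mul]
      exact Finset.sum_congr rfl fun v _ => hY.cov v
    rw [h2]
    exact hlam
  · -- loc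
    have hnt : Nontrivial Y := by
      refine ⟨0, 1, fun h => ?_⟩
      have h1 := congrArg κ h
      rw [map_zero, hY.one] at h1
      exact hj.nz (h1 ▸ Submodule.zero_mem _)
    have hz : ∀ z : Cz F αY ⊤, (z : Y) ∈ FxR (cw F αY) ⊤ := by
      intro z
      rw [mem_cw]
      intro q hq
      have h1 : (z : Y) ∈ Subalgebra.centralizer F (αY '' ((⊤ : Subgroup V) : Set V)) := z.2
      rw [Subalgebra.mem_centralizer_iff] at h1
      exact h1 _ ⟨q, hq, rfl⟩
    have hz' : ∀ y : Y, y ∈ FxR (cw F αY) ⊤ → y ∈ Cz F αY ⊤ := by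
      intro y hy
      change y ∈ Subalgebra.centralizer F (αY '' ((⊤ : Subgroup V) : Set V))
      rw [Subalgebra.mem_centralizer_iff]
      rintro _ ⟨q, hq, rfl⟩
      exact mem_cw.1 hy q hq
    have key : ∀ z : Cz F αY ⊤, IsNilpotent z ∨ IsUnit z := by
      intro z
      have hkz : j * κ (z : Y) * j = κ (z : Y) := by
        rw [cor_l hY, cor_r hY]
      rcases hj.loc (κ (z : Y)) (hmem _ (hz z)) with h1 | ⟨w, hw, h1, h2⟩
      · left
        rw [hkz] at h1
        obtain ⟨n, hn⟩ := h1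
        refine ⟨n + 1, ?_⟩
        apply Subtype.ext
        apply hY.inj
        have hpow : ∀ m : ℕ, κ ((z : Y) ^ (m + 1)) = κ (z : Y) ^ (m + 1) := by
          intro m
          induction m with
          | zero => rw [zero_add, pow_one, pow_one]
          | succ m ih => rw [pow_succ, hY.mul, ih, ← pow_succ]
        change κ (((z ^ (n + 1) : Cz F αY ⊤) : Y)) = κ ((0 : Cz F αY ⊤) : Y)
        rw [SubmonoidClass.coe_pow, hpow, pow_succ, hn, zero_mul]
        exact (map_zero κ).symm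
      · right
        rw [hkz] at h1 h2
        have e1 : (z : Y) * θ w = 1 := by
          apply hY.inj
          rw [hY.mul, hθ, h1, hY.one]
        have e2 : θ w * (z : Y) = 1 := by
          apply hY.inj
          rw [hY.mul, hθ, h2, hY.one]
        exact ⟨⟨z, ⟨θ w, hz' _ (hmemθ w hw)⟩, Subtype.ext e1, Subtype.ext e2⟩, rfl⟩
    have hnt2 : Nontrivial (Cz F αY ⊤) := by
      refine ⟨0, 1, fun h => ?_⟩
      exact zero_ne_one (congrArg Subtype.val h)
    refine IsLocalRing.of_isUnit_or_isUnit_one_sub_self fun z => ?_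
    rcases key z with h1 | h1
    · right
      exact h1.isUnit_one_sub
    · left
      exact h1
  · -- spn
    intro a ha
    obtain ⟨c, hc⟩ := htp (κ a) (hmem a ha)
    refine ⟨c, ?_⟩
    have h1 : θ (j * κ a * j - ∑ v, c v • (α v * j)) ∈ BKR (cw F αY) ⊤ :=
      BKR_hom (ρ := cw F α) (ρ' := cw F αY) (L := θ) (fun v m => th_bw hjv hY hθ v v m) hc
    rw [cor_l hY, cor_r hY, map_sub, hθκ, map_sum] at h1
    have h2 : ∀ v, θ (c v • (α v * j)) = c v • αY v := by
      intro v
      rw [map_smul, ← hY.cov, hθκ]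
    rw [Finset.sum_congr rfl fun v _ => h2 v] at h1
    exact h1

end Pool.Agent.PSS.S5.H18
end
end -- Pool.Agent.Helper18_PSS.CLJ

section -- Pool.Agent.Helper18_PSS.CNW

/-!
# Squad PSS, block S5, row CNW (helper18): `N_W` of a corner
-/

open scoped BigOperators TensorProduct

noncomputable section

namespace Pool.Agent.PSS.S5.H18

open Pool.Agent.PFC (tw IsTv Cnr Cz PIn Ctf Lcq PmzStmt PS bi PsxStmt)

section cnr

variable {F A Y : Type} [Field F] [Ring A] [Algebra F A] [Ring Y] [Algebra F Y]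
  {j : A} {κ : Y →ₗ[F] A}

theorem cnr_id (h : Cnr j κ) : j * j = j := by
  rw [← h.one, ← h.mul, mul_one]

theorem cnr_l (h : Cnr j κ) (y : Y) : j * κ y = κ y := by
  rw [← h.one, ← h.mul, one_mul]

theorem cnr_r (h : Cnr j κ) (y : Y) : κ y * j = κ y := by
  rw [← h.one, ← h.mul, mul_one]

/-- the projection of `A` onto the corner -/
theorem cnr_theta (h : Cnr j κ) :
    ∃ θ : A →ₗ[F] Y, (∀ a, κ (θ a) = j * a * j) ∧ ∀ y, θ (κ y) = y := by
  have hid := cnr_id h
  let L : A →ₗ[F] A := (LinearMap.mulLeft F j).comp (LinearMap.mulRight F j)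
  have hL : ∀ a, L a = j * a * j := by
    intro a
    change j * (a * j) = j * a * j
    rw [mul_assoc]
  have hr : ∀ a, L a ∈ LinearMap.range κ := by
    intro a
    obtain ⟨b, hb⟩ := h.ran (L a) (by rw [hL, ← mul_assoc, ← mul_assoc, hid])
      (by rw [hL, mul_assoc, hid])
    exact ⟨b, hb⟩
  let e := LinearEquiv.ofInjective κ h.inj
  let θ : A →ₗ[F] Y := e.symm.toLinearMap.comp (L.codRestrict (LinearMap.range κ) hr)
  have h1 : ∀ a, κ (θ a) = j * a * j := by
    intro a
    have h2 : e (θ a) = L.codRestrict (LinearMap.range κ) hr a := by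
      change e (e.symm _) = _
      rw [LinearEquiv.apply_symm_apply]
    have h3 := congrArg Subtype.val h2
    rw [LinearEquiv.ofInjective_apply, LinearMap.codRestrict_apply, hL] at h3
    exact h3
  refine ⟨θ, h1, fun y => h.inj ?_⟩
  rw [h1, cnr_l h, cnr_r h]

end cnr

theorem cnw : CnwStmt := by
  intro F V A B Y Y' _ _ _ _ _ _ _ _ _ _ _ α W N j αY κ κ' hid hj hY hY'
  have hfinW : Finite (MulAut W) :=
    Finite.of_injective (fun f => (f : W → W)) DFunLike.coe_injective
  have hFW : Fintype (MulAut W) := Fintype.ofFinite _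
  have hjv : ∀ v, α v * j = j * α v := fun v => mem_cw.1 hj v (Subgroup.mem_top v)
  obtain ⟨θ, hθ, hθκ⟩ := exists_theta hY
  obtain ⟨θ', hθ', hθκ'⟩ := cnr_theta hY'
  have hj1 : j ∈ FxR (bw F α) (twW W (1 : MulAut W)) := by
    rw [mem_tw]
    intro w
    rw [MulAut.one_apply]
    exact hjv w
  have hk : ∀ (h : V × V) (m : Y), κ (bw F αY h m) = bw F α h (κ m) :=
    fun h m => kap_bw hjv hY h.1 h.2 m
  have ht : ∀ (h : V × V) (m : A), θ (bw F α h m) = bw F αY h (θ m) :=
    fun h m => th_bw hjv hY hθ h.1 h.2 m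
  have hmem : ∀ ε : MulAut W, ∀ a ∈ FxR (bw F αY) (twW W ε), κ a ∈ FxR (bw F α) (twW W ε) :=
    fun ε a ha => FxR_hom (L := κ) hk ha
  have hmemθ : ∀ ε : MulAut W, ∀ a ∈ FxR (bw F α) (twW W ε), θ a ∈ FxR (bw F αY) (twW W ε) :=
    fun ε a ha => FxR_hom (L := θ) ht ha
  have hl : ∀ ε : MulAut W, ∀ a ∈ FxR (bw F α) (twW W ε),
      N.β ε (j * a) = N.β 1 j * N.β ε a := by
    intro ε a ha
    have h1 := N.mul 1 ε j hj1 a ha
    rw [one_mul] at h1
    exact h1
  have hr : ∀ ε : MulAut W, ∀ a ∈ FxR (bw F α) (twW W ε),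
      N.β ε (a * j) = N.β ε a * N.β 1 j := by
    intro ε a ha
    have h1 := N.mul ε 1 a ha j hj1
    rw [mul_one] at h1
    exact h1
  -- the value of `κ'`
  have hval : ∀ ε : MulAut W, ∀ a ∈ FxR (bw F αY) (twW W ε),
      κ' (θ' (N.β ε (κ a))) = N.β ε (κ a) := by
    intro ε a ha
    have h1 := hmem ε a ha
    rw [hθ', ← hl ε _ h1, cor_l hY, ← hr ε _ h1, cor_r hY]
  refine ⟨⟨fun ε => θ'.comp ((N.β ε).comp κ), ?_, ?_, ?_, ?_, ?_⟩⟩
  · -- one
    apply hY'.inj
    change κ' (θ' (N.β 1 (κ 1))) = κ' 1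
    rw [hθ', hY.one, hY'.one, cnr_id hY', cnr_id hY']
  · -- mul
    intro ε δ a ha b hb
    apply hY'.inj
    change κ' (θ' (N.β (ε * δ) (κ (a * b)))) = κ' (θ' (N.β ε (κ a)) * θ' (N.β δ (κ b)))
    rw [hval _ _ (Fx_mul αY W ε δ ha hb), hY'.mul, hval _ _ ha, hval _ _ hb, hY.mul,
      N.mul ε δ _ (hmem ε a ha) _ (hmem δ b hb)]
  · -- ker
    intro ε a ha
    change θ' (N.β ε (κ a)) = 0 ↔ _
    constructor
    · intro h
      have h1 : N.β ε (κ a) = 0 := by
        rw [← hval ε a ha, h, map_zero]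
      have h2 := (N.ker ε (κ a) (hmem ε a ha)).1 h1
      have h3 := BKR_hom (L := θ) ht h2
      rw [hθκ] at h3
      exact h3
    · intro h
      have h2 := BKR_hom (L := κ) hk h
      rw [(N.ker ε (κ a) (hmem ε a ha)).2 h2, map_zero]
  · -- ind
    intro f hf h ε
    have h1 : ∑ᶠ ε, N.β ε ((fun ε => κ (f ε)) ε) = 0 := by
      rw [finsum_eq_sum_of_fintype]
      rw [finsum_eq_sum_of_fintype] at h
      have h2 := congrArg κ' h
      rw [map_sum, map_zero] at h2
      rw [← h2]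
      refine Finset.sum_congr rfl fun ε _ => ?_
      exact (hval ε (f ε) (hf ε)).symm
    have h3 := N.ind (fun ε => κ (f ε)) (fun ε => hmem ε _ (hf ε)) h1 ε
    change θ' (N.β ε (κ (f ε))) = 0
    rw [h3, map_zero]
  · -- spn
    intro b
    obtain ⟨f, hf, hb⟩ := N.spn (κ' b)
    refine ⟨fun ε => θ (f ε), fun ε => hmemθ ε _ (hf ε), ?_⟩
    apply hY'.inj
    rw [finsum_eq_sum_of_fintype] at hb ⊢
    rw [map_sum]
    have h1 : ∀ ε, κ' ((θ'.comp ((N.β ε).comp κ)) (θ (f ε))) =
        N.β 1 j * N.β ε (f ε) * N.β 1 j := by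
      intro ε
      change κ' (θ' (N.β ε (κ (θ (f ε))))) = _
      have h2 : j * f ε ∈ FxR (bw F α) (twW W ε) := by
        have h3 := Fx_mul α W 1 ε hj1 (hf ε)
        rw [one_mul] at h3
        exact h3
      rw [hval ε _ (hmemθ ε _ (hf ε)), hθ, hr ε _ h2, hl ε _ (hf ε)]
    rw [Finset.sum_congr rfl fun ε _ => h1 ε, ← Finset.sum_mul, ← Finset.mul_sum, hb,
      cnr_l hY', cnr_r hY']

end Pool.Agent.PSS.S5.H18
end
end -- Pool.Agent.Helper18_PSS.CNW

section -- Pool.Agent.Helper18_PSS.RDL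

/-!
# Squad PSS, block S5, row RDL (helper18): reduction to local algebras
-/

open scoped BigOperators TensorProduct

noncomputable section

namespace Pool.Agent.PSS.S5.H18

open Pool.Agent.PFC (tw IsTv Cnr Cz PIn Ctf Lcq PmzStmt PS bi)

variable {F V A B : Type} [Field F] [CommGroup V] [Ring A] [Algebra F A] [Ring B] [Algebra F B]

theorem fx_tw {α : V →* A} (W : Subgroup V) {a : A} (ha : a ∈ FxR (cw F α) ⊤) :
    a ∈ FxR (bw F α) (twW W (1 : MulAut W)) := by
  rw [mem_tw]
  intro w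
  rw [MulAut.one_apply]
  exact mem_cw.1 ha w (Subgroup.mem_top _)

theorem cen_fx {α : V →* A} {z : A} (hz : ∀ a, z * a = a * z) : z ∈ FxR (cw F α) ⊤ := by
  rw [mem_cw]
  intro q _
  exact (hz _).symm

theorem nw_finsum [Finite V] {α : V →* A} {W : Subgroup V} (N : IsNW F α W B) (b : B) :
    ∃ (_ : Fintype (MulAut W)) (f : MulAut W → A),
      (∀ ε, f ε ∈ FxR (bw F α) (twW W ε)) ∧ ∑ ε, N.β ε (f ε) = b := by
  have : Finite (MulAut W) := Finite.of_injective (fun f => (f : W → W)) DFunLike.coe_injective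
  have h2 : Fintype (MulAut W) := Fintype.ofFinite _
  obtain ⟨f, hf, hb⟩ := N.spn b
  refine ⟨h2, f, hf, ?_⟩
  rw [← finsum_eq_sum_of_fintype]
  exact hb

theorem nw_fin [Finite V] [FiniteDimensional F A] {α : V →* A} {W : Subgroup V}
    (N : IsNW F α W B) : FiniteDimensional F B := by
  have : Finite (MulAut W) := Finite.of_injective (fun f => (f : W → W)) DFunLike.coe_injective
  have h2 : Fintype (MulAut W) := Fintype.ofFinite _
  let L : (MulAut W → A) →ₗ[F] B := ∑ ε, (N.β ε).comp (LinearMap.proj ε)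
  have hL : Function.Surjective L := by
    intro b
    obtain ⟨f, _, hb⟩ := N.spn b
    refine ⟨f, ?_⟩
    rw [← hb, finsum_eq_sum_of_fintype]
    simp only [L, LinearMap.sum_apply, LinearMap.comp_apply, LinearMap.proj_apply]
  exact Module.Finite.of_surjective L hL

theorem nw_cen [Finite V] {α : V →* A} {W : Subgroup V} (N : IsNW F α W B) {z : A}
    (hz : ∀ a, z * a = a * z) (b : B) : N.β 1 z * b = b * N.β 1 z := by
  obtain ⟨_, f, hf, rfl⟩ := nw_finsum N b
  have h1 := fx_tw W (cen_fx (F := F) (α := α) hz)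
  rw [Finset.mul_sum, Finset.sum_mul]
  refine Finset.sum_congr rfl fun ε _ => ?_
  have h2 := N.mul 1 ε z h1 (f ε) (hf ε)
  have h3 := N.mul ε 1 (f ε) (hf ε) z h1
  rw [one_mul] at h2
  rw [mul_one] at h3
  rw [← h2, ← h3, hz]

theorem nw_mul {α : V →* A} {W : Subgroup V} (N : IsNW F α W B) {a b : A}
    (ha : a ∈ FxR (cw F α) ⊤) (hb : b ∈ FxR (cw F α) ⊤) :
    N.β 1 (a * b) = N.β 1 a * N.β 1 b := by
  have h := N.mul 1 1 a (fx_tw W ha) b (fx_tw W hb)
  rw [one_mul] at h
  exact h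

theorem rdl (pcx : PcxStmt) (zsm : ZsmStmt) (zcf : ZcfStmt) (coe : CoeStmt) (bpt : BptStmt)
    (rtn : RtnStmt) (cnw : CnwStmt) (clj : CljStmt) : RdlStmt := by
  intro ℓ _ F V E A B _ _ _ _ _ _ _ _ _ _ _ φ α W hp hE hW hA N H
  obtain ⟨lam, K, _, x, y, hRF, u, hu⟩ := hA.rt
  have hfA : FiniteDimensional F A := hA.fin
  have hfB : FiniteDimensional F B := nw_fin N
  obtain ⟨n, b, hb, hbo, hb1⟩ := pcx F A
  have hfx : ∀ i, b i ∈ FxR (cw F α) ⊤ := fun i => cen_fx (hb i).cen
  have e1 := zsm F A n b (fun i => (hb i).cen) (fun i => (hb i).id) hbo hb1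
  have e2 := zsm F B n (fun i => N.β 1 (b i)) (fun i a => nw_cen N (hb i).cen a)
    (fun i => by rw [← nw_mul N (hfx i) (hfx i), (hb i).id])
    (fun i k hik => by rw [← nw_mul N (hfx i) (hfx k), hbo i k hik, map_zero])
    (by rw [← map_sum, hb1, N.one])
  rw [e1, e2]
  refine Finset.sum_congr rfl fun i _ => ?_
  obtain ⟨j, c, hj, hbj, hc, hrt⟩ := bpt ℓ F V E A K φ α lam x y u hp hA hRF hu (b i) (hb i)
  have hjv : ∀ v, α v * j = j * α v := fun v => mem_cw.1 hj.fx v (Subgroup.mem_top v)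
  obtain ⟨Y, _, _, αY, κ, hY⟩ := coe F V A α j hj.id hjv
  have hj1 : N.β 1 j * N.β 1 j = N.β 1 j := by
    rw [← nw_mul N hj.fx hj.fx, hj.id]
  have hjv1 : ∀ v, N.nwh v * N.β 1 j = N.β 1 j * N.nwh v := by
    intro v
    rw [IsNW.nwh_apply, ← nw_mul N (al_mem_cw v ⊤) hj.fx, ← nw_mul N hj.fx (al_mem_cw v ⊤),
      hjv v]
  obtain ⟨Y', _, _, αY', κ', hY'⟩ := coe F V B N.nwh (N.β 1 j) hj1 hjv1
  obtain ⟨N'⟩ := cnw F V A B Y Y' α W N j αY κ κ' hj.id hj.fx hY hY'.cnr
  have s1 : b i ∈ Submodule.span F {x : A | ∃ s t : A, x = s * j * t} := by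
    rw [← hrt]
    refine Submodule.sum_mem _ fun k _ => ?_
    refine Submodule.subset_span ⟨x k, c * j * y k, ?_⟩
    simp only [mul_assoc]
  have s2 : N.β 1 (b i) ∈ Submodule.span F {x : B | ∃ s t : B, x = s * N.β 1 j * t} := by
    have hjc : j * c * j ∈ FxR (cw F α) ⊤ := by
      rw [mem_cw] at hc ⊢
      intro q hq
      rw [← mul_assoc, ← mul_assoc, hjv q, mul_assoc j, hc q hq, mul_assoc, mul_assoc c,
        hjv q, ← mul_assoc, ← mul_assoc, mul_assoc j c j, ← mul_assoc]
    have h1 := rtn ℓ F V E A B K φ α lam x y W N hp hW hA.per hRF (j * c * j) hjc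
    rw [hrt] at h1
    have hcj : j * c ∈ FxR (cw F α) ⊤ := by
      rw [mem_cw] at hc ⊢
      intro q hq
      rw [← mul_assoc, hjv q, mul_assoc, hc q hq, mul_assoc]
    have h2 : N.β 1 (j * c * j) = N.β 1 j * N.β 1 c * N.β 1 j := by
      rw [nw_mul N hcj hj.fx, nw_mul N hj.fx hc]
    refine Submodule.span_mono ?_ h1
    rintro w ⟨s, t, rfl⟩
    refine ⟨s, N.β 1 c * N.β 1 j * t, ?_⟩
    rw [h2]
    simp only [mul_assoc]
  rw [zcf F A Y (b i) j κ hY.cnr (hb i).cen (hb i).id hbj s1,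
    zcf F B Y' (N.β 1 (b i)) (N.β 1 j) κ' hY'.cnr (fun a => nw_cen N (hb i).cen a)
      (by rw [← nw_mul N (hfx i) (hfx i), (hb i).id])
      (by rw [← nw_mul N (hfx i) hj.fx, hbj]) s2]
  have hle : Ej φ αY ≤ φ.range := fun s hs => hs.1
  exact H (Ej φ αY) Y Y' _ _ _ _ αY hle (clj ℓ F V E A Y φ α j αY κ hp hE hA hj hY) N'

end Pool.Agent.PSS.S5.H18
end
end -- Pool.Agent.Helper18_PSS.RDL

section -- Pool.Agent.Helper19_PSS.NQS

/-!
Squad PSS, row NQS (helper19).
-/

open scoped BigOperators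

noncomputable section

namespace Pool.Agent.PSS.S5.H19

open Pool.Agent.PSS Pool.Agent.PSS.S5
open Pool.Agent.PFC (tw IsTv)
open Pool.Agent.PFD.D2b (FrR)

/-- A set which meets every orbit of `Q × 1` once and is stable under the diagonal. -/
theorem exists_slice {V Ω : Type} [CommGroup V] [MulAction (V × V) Ω] (Q : Subgroup V)
    (hst : ∀ ω : Ω, ∃ S : Subgroup V, Q ≤ S ∧
      MulAction.stabilizer (V × V) ω = tw (MonoidHom.id V) S) :
    ∃ T : Set Ω, (∀ (v : V), ∀ ω ∈ T, ((v, v) : V × V) • ω ∈ T) ∧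
      (∀ ω : Ω, ∃ q ∈ Q, ((q, 1) : V × V) • ω ∈ T) ∧
      ∀ (q : V), ∀ ω ∈ T, q ∈ Q → ((q, 1) : V × V) • ω ∈ T → q = 1 := by
  let H : Subgroup (V × V) :=
    { carrier := {h | h.1 * h.2⁻¹ ∈ Q}
      one_mem' := by
        show (1 : V) * 1⁻¹ ∈ Q
        rw [inv_one, mul_one]
        exact Q.one_mem
      mul_mem' := by
        intro a b ha hb
        show a.1 * b.1 * (a.2 * b.2)⁻¹ ∈ Q
        have h : a.1 * b.1 * (a.2 * b.2)⁻¹ = (a.1 * a.2⁻¹) * (b.1 * b.2⁻¹) := by
          rw [mul_inv, mul_mul_mul_comm]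
        rw [h]
        exact Q.mul_mem ha hb
      inv_mem' := by
        intro a ha
        show a.1⁻¹ * (a.2⁻¹)⁻¹ ∈ Q
        rw [← mul_inv]
        exact Q.inv_mem ha }
  let r : Ω → Ω := fun ω => (Quotient.mk (MulAction.orbitRel H Ω) ω).out
  have hr1 : ∀ ω : Ω, ∃ h ∈ H, ω = h • r ω := by
    intro ω
    have h := Quotient.mk_out (s := MulAction.orbitRel H Ω) ω
    obtain ⟨g, hg⟩ := MulAction.orbitRel_apply.1 ((MulAction.orbitRel H Ω).symm h)
    exact ⟨g.1, g.2, hg.symm⟩
  have hr2 : ∀ h ∈ H, ∀ ω : Ω, r (h • ω) = r ω := by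
    intro h hh ω
    have e : Quotient.mk (MulAction.orbitRel H Ω) (h • ω) =
        Quotient.mk (MulAction.orbitRel H Ω) ω :=
      Quotient.sound (MulAction.orbitRel_apply.2 ⟨⟨h, hh⟩, rfl⟩)
    show (Quotient.mk (MulAction.orbitRel H Ω) (h • ω)).out = _
    rw [e]
  have hdiag : ∀ v : V, ((v, v) : V × V) ∈ H := by
    intro v
    show v * v⁻¹ ∈ Q
    rw [mul_inv_cancel]
    exact Q.one_mem
  have hq : ∀ q ∈ Q, ((q, 1) : V × V) ∈ H := by
    intro q hq
    show q * 1⁻¹ ∈ Q
    rw [inv_one, mul_one]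
    exact hq
  refine ⟨{ω | ∃ v : V, ω = ((v, v) : V × V) • r ω}, ?_, ?_, ?_⟩
  · rintro v ω ⟨w, hw⟩
    refine ⟨v * w, ?_⟩
    rw [hr2 _ (hdiag v)]
    conv_lhs => rw [hw]
    rw [← mul_smul]
    rfl
  · intro ω
    obtain ⟨⟨u, v⟩, hh, hω⟩ := hr1 ω
    have hQ : u * v⁻¹ ∈ Q := hh
    refine ⟨(u * v⁻¹)⁻¹, Q.inv_mem hQ, v, ?_⟩
    rw [hr2 _ (hq _ (Q.inv_mem hQ))]
    conv_lhs => rw [hω]
    rw [← mul_smul]
    congr 1
    refine Prod.ext ?_ ?_
    · show (u * v⁻¹)⁻¹ * u = v
      rw [mul_inv_rev, inv_inv, mul_assoc, inv_mul_cancel, mul_one]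
    · show 1 * v = v
      rw [one_mul]
  · rintro q ω ⟨v, hv⟩ hqQ ⟨w, hw⟩
    rw [hr2 _ (hq _ hqQ)] at hw
    have hw1 : ((q, 1) : V × V) • ((v, v) : V × V) • r ω = ((w, w) : V × V) • r ω := by
      rw [← hv]
      exact hw
    obtain ⟨S, -, hS⟩ := hst (r ω)
    have h1 : (((w, w) : V × V)⁻¹ * (((q, 1) : V × V) * ((v, v) : V × V))) ∈
        MulAction.stabilizer (V × V) (r ω) := by
      rw [MulAction.mem_stabilizer_iff, mul_smul, mul_smul, hw1, ← mul_smul, inv_mul_cancel,
        one_smul]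
    rw [hS] at h1
    obtain ⟨s, hs, hs2⟩ := Subgroup.mem_map.1 h1
    have e1 : s = w⁻¹ * (q * v) := congrArg Prod.fst hs2
    have e2 : s = w⁻¹ * (1 * v) := congrArg Prod.snd hs2
    rw [e1] at e2
    exact mul_right_cancel (mul_left_cancel e2)

theorem nqs : NqsStmt := by
  classical
  intro F V A A' Ω _ _ _ _ _ _ _ _ _ α b c Q _ α' p hQ hFr hst a' ha'
  obtain ⟨a, rfl⟩ := hQ.sur a'
  have hcq : ∀ q : Q, ∀ m : A, α q * m = m * α q := fun q m => hQ.cen q q.2 m
  set σ : A := ∑ q : Q, α q with hσ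
  have hσc : ∀ m : A, σ * m = m * σ := by
    intro m
    rw [hσ, Finset.sum_mul, Finset.mul_sum]
    exact Finset.sum_congr rfl fun q _ => hcq q m
  have hqσ : ∀ q : Q, α q * σ = σ := by
    intro q
    rw [hσ, Finset.mul_sum]
    refine (Finset.sum_congr rfl fun x _ => ?_).trans
      (Equiv.sum_comp (Equiv.mulLeft q) (fun x : Q => α (x : V)))
    rw [← map_mul]
    rfl
  obtain ⟨l, hl0⟩ : ∃ l, l = σ * a := ⟨_, rfl⟩
  -- `l` commutes with the diagonal
  have hl : ∀ v : V, α v * l * α v⁻¹ = l := by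
    intro v
    have h1 : p (α v * a * α v⁻¹ - a) = 0 := by
      have h2 := ha' (v : V ⧸ Q) (Subgroup.mem_top _)
      have h3 : α' (v : V ⧸ Q) * (p a * α' (v : V ⧸ Q)⁻¹) = p a := h2
      rw [map_sub, map_mul, map_mul, hQ.cov, hQ.cov, mul_assoc]
      exact sub_eq_zero.2 h3
    have h4 : σ * (α v * a * α v⁻¹) = σ * a := by
      have h5 := (hQ.ker _).1 h1
      rw [mul_sub, sub_eq_zero] at h5
      exact h5
    rw [hl0]
    calc α v * (σ * a) * α v⁻¹ = (α v * σ) * a * α v⁻¹ := by rw [← mul_assoc]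
      _ = σ * (α v * a * α v⁻¹) := by
          rw [← hσc]
          simp only [mul_assoc]
      _ = σ * a := h4
  have hql : ∀ q : Q, α q * l = l := by
    intro q
    rw [hl0, ← mul_assoc, hqσ]
  have hlH : ∀ (q : Q) (v : V), bw F α (((q : V) * v, v) : V × V) l = l := by
    intro q v
    show α ((q : V) * v) * (l * α v⁻¹) = l
    rw [map_mul, mul_assoc, ← mul_assoc (α v), hl v, hql]
  have hcc : ∀ (q : Q) (v : V) (ω : Ω), c ((((q : V) * v, v) : V × V) • ω) l = c ω l := by
    intro q v ω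
    have h := hFr.2.1 (((q : V) * v, v) : V × V) ω l
    rw [hlH] at h
    exact h
  obtain ⟨T, hT1, hT2, hT3⟩ := exists_slice Q hst
  let T' : Finset Ω := Finset.univ.filter fun ω => ω ∈ T
  have hmT : ∀ ω, ω ∈ T' ↔ ω ∈ T := by
    intro ω
    simp [T']
  refine ⟨∑ ω ∈ T', c ω l • b ω, ?_, ?_⟩
  · intro v _
    show bw F α (v, v) _ = _
    rw [map_sum]
    refine Finset.sum_bij' (fun ω _ => ((v, v) : V × V) • ω) (fun ω _ => ((v⁻¹, v⁻¹) : V × V) • ω)
      ?_ ?_ ?_ ?_ ?_
    · intro ω hω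
      exact (hmT _).2 (hT1 v ω ((hmT _).1 hω))
    · intro ω hω
      exact (hmT _).2 (hT1 v⁻¹ ω ((hmT _).1 hω))
    · intro ω _
      rw [← mul_smul]
      have e : (((v⁻¹, v⁻¹) : V × V) * (v, v)) = 1 := by
        refine Prod.ext ?_ ?_
        · exact inv_mul_cancel v
        · exact inv_mul_cancel v
      rw [e, one_smul]
    · intro ω _
      rw [← mul_smul]
      have e : (((v, v) : V × V) * (v⁻¹, v⁻¹)) = 1 := by
        refine Prod.ext ?_ ?_
        · exact mul_inv_cancel v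
        · exact mul_inv_cancel v
      rw [e, one_smul]
    · intro ω _
      have h := hcc 1 v ω
      rw [OneMemClass.coe_one, one_mul] at h
      rw [map_smul, h, hFr.1]
  · have hz : p (∑ ω ∈ T', c ω l • b ω - a) = 0 := by
      rw [hQ.ker, mul_sub, sub_eq_zero]
      have h1 : ∑ x ∈ (Finset.univ : Finset Q) ×ˢ T',
          c (((x.1 : V), (1 : V)) • x.2) l • b (((x.1 : V), (1 : V)) • x.2) =
          ∑ ω, c ω l • b ω := by
        refine Finset.sum_bij (fun x _ => (((x.1 : V), (1 : V)) : V × V) • x.2)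
          (fun _ _ => Finset.mem_univ _) ?_ ?_ ?_
        · rintro ⟨q, ω⟩ hx ⟨q', ω'⟩ hx' h
          have hω : ω ∈ T := (hmT _).1 (Finset.mem_product.1 hx).2
          have hω' : ω' ∈ T := (hmT _).1 (Finset.mem_product.1 hx').2
          have h' : (((q : V), (1 : V)) : V × V) • ω = (((q' : V), (1 : V)) : V × V) • ω' := h
          have h2 : ((((q' : V)⁻¹ * (q : V)), (1 : V)) : V × V) • ω = ω' := by
            have e : ((((q' : V)⁻¹ * (q : V)), (1 : V)) : V × V) =
                (((q' : V), (1 : V)) : V × V)⁻¹ * (((q : V), (1 : V)) : V × V) := by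
              refine Prod.ext rfl ?_
              show (1 : V) = 1⁻¹ * 1
              rw [inv_one, mul_one]
            rw [e, mul_smul, h', ← mul_smul, inv_mul_cancel, one_smul]
          have h3 : (q' : V)⁻¹ * (q : V) = 1 := by
            refine hT3 _ ω hω (Q.mul_mem (Q.inv_mem q'.2) q.2) ?_
            rw [h2]
            exact hω'
          have h4 : q = q' := Subtype.ext (inv_mul_eq_one.1 h3).symm
          subst h4
          rw [h3] at h2
          have h5 : (((1 : V), (1 : V)) : V × V) • ω = ω := one_smul (V × V) ω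
          rw [h5] at h2
          rw [h2]
        · intro ω _
          obtain ⟨q, hq, hqT⟩ := hT2 ω
          refine ⟨(⟨q⁻¹, Q.inv_mem hq⟩, ((q, 1) : V × V) • ω),
            Finset.mem_product.2 ⟨Finset.mem_univ _, (hmT _).2 hqT⟩, ?_⟩
          show ((q⁻¹, 1) : V × V) • ((q, 1) : V × V) • ω = ω
          rw [← mul_smul]
          have e : (((q⁻¹, 1) : V × V) * (q, 1)) = 1 := by
            refine Prod.ext ?_ ?_
            · exact inv_mul_cancel q
            · exact one_mul 1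
          rw [e, one_smul]
        · intro x _
          rfl
      rw [hFr.2.2, Finset.sum_product] at h1
      have h6 : (∑ q : Q, α (q : V)) * (∑ ω ∈ T', c ω l • b ω) = l := by
        refine Eq.trans ?_ h1
        rw [Finset.sum_mul]
        refine Finset.sum_congr rfl fun q _ => ?_
        rw [Finset.mul_sum]
        refine Finset.sum_congr rfl fun ω _ => ?_
        have h2 := hcc q 1 ω
        rw [mul_one] at h2
        have h3 : b ((((q : V), (1 : V)) : V × V) • ω) = α q * b ω := by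
          rw [hFr.1]
          show α (q : V) * (b ω * α (1 : V)⁻¹) = _
          rw [inv_one, map_one, mul_one]
        show α (q : V) * (c ω l • b ω) = c (((q : V), (1 : V)) • ω) l •
          b (((q : V), (1 : V)) • ω)
        rw [h2, h3, mul_smul_comm]
      rw [h6, hl0]
    rw [map_sub, sub_eq_zero] at hz
    exact hz

end Pool.Agent.PSS.S5.H19
end
end -- Pool.Agent.Helper19_PSS.NQS

section -- Pool.Agent.Helper1_PSS.LSU

/-!
# Squad PSS, block S5, row LSU: sums modulo the Brauer kernel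
-/

set_option autoImplicit false

open scoped BigOperators

noncomputable section

namespace Pool.Agent.PSS.S5.H1

open Pool.Agent.PSS

section

variable {F V A : Type} [Field F] [CommGroup V] [Ring A] [Algebra F A]

theorem lsu_mem {α : V →* A} {a : A} :
    a ∈ FxR (cw F α) ⊤ ↔ ∀ u, α u * a = a * α u := by
  constructor
  · intro h u
    have h1 : α u * (a * α u⁻¹) = a := h u (Subgroup.mem_top u)
    calc α u * a = α u * (a * (α u⁻¹ * α u)) := by
          rw [← map_mul, inv_mul_cancel, map_one, mul_one]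
      _ = α u * (a * α u⁻¹) * α u := by simp only [mul_assoc]
      _ = a * α u := by rw [h1]
  · intro h u _
    show α u * (a * α u⁻¹) = a
    rw [← mul_assoc, h u, mul_assoc, ← map_mul, mul_inv_cancel, map_one, mul_one]

theorem lsu_mul {α : V →* A} {a b : A} (ha : a ∈ FxR (cw F α) ⊤) (hb : b ∈ FxR (cw F α) ⊤) :
    a * b ∈ FxR (cw F α) ⊤ := by
  rw [lsu_mem] at *
  intro u
  rw [← mul_assoc, ha u, mul_assoc, hb u, mul_assoc]

/-- the elements of the corner of the centraliser -/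
def Dm (α : V →* A) (j d : A) : Prop := ∃ x ∈ FxR (cw F α) ⊤, d = j * x * j

end

variable {F V A : Type} [Field F] [CommGroup V] [Ring A] [Algebra F A] {α : V →* A} {j : A}

theorem Dm.add {x y : A} (hx : Dm (F := F) α j x) (hy : Dm (F := F) α j y) :
    Dm (F := F) α j (x + y) := by
  obtain ⟨a, ha, rfl⟩ := hx
  obtain ⟨b, hb, rfl⟩ := hy
  exact ⟨a + b, Submodule.add_mem _ ha hb, by rw [mul_add, add_mul]⟩

theorem Dm.mul (hj : Loi F α j) {x y : A} (hx : Dm (F := F) α j x) (hy : Dm (F := F) α j y) :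
    Dm (F := F) α j (x * y) := by
  obtain ⟨a, ha, rfl⟩ := hx
  obtain ⟨b, hb, rfl⟩ := hy
  refine ⟨a * j * b, lsu_mul (lsu_mul ha hj.fx) hb, ?_⟩
  calc j * a * j * (j * b * j) = j * a * (j * j) * b * j := by simp only [mul_assoc]
    _ = j * (a * j * b) * j := by rw [hj.id]; simp only [mul_assoc]

theorem Dm.left (hj : Loi F α j) {x : A} (hx : Dm (F := F) α j x) : j * x = x := by
  obtain ⟨a, ha, rfl⟩ := hx
  rw [← mul_assoc, ← mul_assoc, hj.id]

theorem Dm.right (hj : Loi F α j) {x : A} (hx : Dm (F := F) α j x) : x * j = x := by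
  obtain ⟨a, ha, rfl⟩ := hx
  rw [mul_assoc, hj.id]

theorem Dm.mem (hj : Loi F α j) {x : A} (hx : Dm (F := F) α j x) : x ∈ FxR (cw F α) ⊤ := by
  obtain ⟨a, ha, rfl⟩ := hx
  exact lsu_mul (lsu_mul hj.fx ha) hj.fx

theorem Dm.alt (hj : Loi F α j) {x : A} (hx : Dm (F := F) α j x) :
    IsNilpotent x ∨ ∃ t, Dm (F := F) α j t ∧ x * t = j := by
  obtain ⟨a, ha, rfl⟩ := hx
  rcases hj.loc a ha with h | ⟨y, hy, h1, -⟩
  · exact Or.inl h
  · exact Or.inr ⟨j * y * j, ⟨y, hy, rfl⟩, h1⟩

theorem lsu_ne (hj : Loi F α j) : j ≠ 0 := by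
  rintro rfl
  exact hj.nz (Submodule.zero_mem _)

/-- a nilpotent element is not a unit -/
theorem Dm.nu (hj : Loi F α j) {x t : A} (hx : Dm (F := F) α j x) (ht : Dm (F := F) α j t)
    (hn : IsNilpotent x) (h : x * t = j) : False := by
  obtain ⟨m, hm⟩ := hn
  have key : ∀ k, x ^ k * j = 0 → j = 0 := by
    intro k
    induction k with
    | zero =>
      intro h0
      rw [pow_zero, one_mul] at h0
      exact h0
    | succ k ih =>
      intro h0
      apply ih
      calc x ^ k * j = x ^ k * (x * t) := by rw [h]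
        _ = x ^ (k + 1) * (j * t) := by rw [ht.left hj, pow_succ, mul_assoc]
        _ = 0 := by rw [← mul_assoc, h0, zero_mul]
  exact lsu_ne hj (key m (by rw [hm, zero_mul]))

/-- the sum of two nilpotent elements -/
theorem Dm.nadd (hj : Loi F α j) {x y : A} (hx : Dm (F := F) α j x) (hy : Dm (F := F) α j y)
    (hnx : IsNilpotent x) (hny : IsNilpotent y) : IsNilpotent (x + y) := by
  rcases (hx.add hy).alt hj with h | ⟨t, ht, h⟩
  · exact h
  exfalso
  have h1 : ∀ z : A, Dm (F := F) α j z → IsNilpotent z → IsNilpotent (z * t) := by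
    intro z hz hnz
    rcases (hz.mul hj ht).alt hj with h2 | ⟨s, hs, h2⟩
    · exact h2
    · rw [mul_assoc] at h2
      exact (hz.nu hj (ht.mul hj hs) hnz h2).elim
  have h2 := h1 x hx hnx
  have h3 := h1 y hy hny
  have h4 : x * t + y * t = j := by rw [← add_mul, h]
  have h5 : Commute (x * t) (y * t) := by
    have h6 : y * t = j - x * t := by rw [← h4]; abel
    rw [h6]
    have h7 : Commute (x * t) j := by
      show x * t * j = j * (x * t)
      rw [(hx.mul hj ht).left hj, (hx.mul hj ht).right hj]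
    exact h7.sub_right (Commute.refl _)
  have h8 : IsNilpotent j := by
    rw [← h4]
    exact h5.isNilpotent_add h2 h3
  obtain ⟨m, hm⟩ := h8
  have h9 : ∀ k, j ^ (k + 1) = j := by
    intro k
    induction k with
    | zero => rw [zero_add, pow_one]
    | succ k ih => rw [pow_succ, ih, hj.id]
  apply lsu_ne hj
  rw [← h9 m, pow_succ, hm, zero_mul]

/-- LSU -/
theorem lsu (bki : S0.BkiStmt) : LsuStmt := by
  intro F V A ι _ _ _ _ _ α j x hj hx hK
  by_contra hcon
  push Not at hcon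
  have h1 : ∀ s : Finset ι, Dm (F := F) α j (∑ i ∈ s, j * x i * j) ∧
      IsNilpotent (∑ i ∈ s, j * x i * j) := by
    classical
    intro s
    induction s using Finset.induction_on with
    | empty =>
      rw [Finset.sum_empty]
      exact ⟨⟨0, Submodule.zero_mem _, by rw [mul_zero, zero_mul]⟩, IsNilpotent.zero⟩
    | insert a s ha ih =>
      rw [Finset.sum_insert ha]
      have h2 : Dm (F := F) α j (j * x a * j) := ⟨x a, hx a, rfl⟩
      exact ⟨h2.add ih.1, h2.nadd hj ih.1 (hcon a) ih.2⟩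
  obtain ⟨h2, h3⟩ := h1 Finset.univ
  have hjD : Dm (F := F) α j j := ⟨j, hj.fx, by rw [hj.id, hj.id]⟩
  have h4 : Dm (F := F) α j (j - ∑ i, j * x i * j) := by
    obtain ⟨a, ha, h⟩ := h2
    refine ⟨j - a, Submodule.sub_mem _ hj.fx ha, ?_⟩
    rw [h, mul_sub, sub_mul, hj.id, hj.id]
  have h5 : IsNilpotent (j - ∑ i, j * x i * j) := by
    rcases h4.alt hj with h | ⟨t, ht, h⟩
    · exact h
    · exfalso
      apply hj.nz
      rw [← h]
      exact (bki F V A α ⊤ t (ht.mem hj) _ hK).2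
  have h6 : IsNilpotent (j - ∑ i, j * x i * j + ∑ i, j * x i * j) := h4.nadd hj h2 h5 h3
  rw [sub_add_cancel] at h6
  exact hjD.nu hj hjD h6 hj.id

end Pool.Agent.PSS.S5.H1
end
end -- Pool.Agent.Helper1_PSS.LSU

section -- Pool.Agent.Helper20_PSS.FIT5

/-! Squad PSS, row FIT (500): an idempotent which is not local splits. -/

set_option autoImplicit false

namespace Pool.Agent.PSS.S5.H20

open Polynomial

theorem fit : FitStmt := by
  intro F A _ _ _ _ S j x hj hx hjj hnil hinv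
  obtain ⟨r, hr0⟩ : ∃ r, r = j * x * j := ⟨_, rfl⟩
  rw [← hr0] at hnil hinv
  have hjr : j * r = r := by
    rw [hr0, ← mul_assoc, ← mul_assoc, hjj]
  have hrj : r * j = r := by
    rw [hr0, mul_assoc, hjj]
  have hrS : r ∈ S := by
    rw [hr0]
    exact S.mul_mem (S.mul_mem hj hx) hj
  have haS : ∀ p : F[X], aeval r p ∈ S := by
    intro p
    have h1 : Algebra.adjoin F {r} ≤ S := Algebra.adjoin_le (by
      intro z hz
      rw [Set.mem_singleton_iff.1 hz]
      exact hrS)
    exact h1 (aeval_mem_adjoin_singleton F r)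
  have hint : IsIntegral F r := IsIntegral.of_finite F r
  have hne : minpoly F r ≠ 0 := minpoly.ne_zero hint
  obtain ⟨g, hg, hg2⟩ := exists_eq_pow_rootMultiplicity_mul_and_not_dvd (minpoly F r) hne 0
  obtain ⟨k, hk⟩ : ∃ k, k = rootMultiplicity 0 (minpoly F r) := ⟨_, rfl⟩
  rw [← hk, C_0, sub_zero] at hg
  rw [C_0, sub_zero] at hg2
  have hcop : IsCoprime ((X : F[X]) ^ (k + 1)) g :=
    ((irreducible_X.coprime_iff_not_dvd).2 hg2).pow_left
  obtain ⟨a, b, hab⟩ := hcop
  have h0 : r ^ k * aeval r g = 0 := by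
    have h := minpoly.aeval F r
    rw [hg, map_mul, map_pow, aeval_X] at h
    exact h
  have h1 : aeval r a * r ^ (k + 1) + aeval r b * aeval r g = 1 := by
    have h := congrArg (aeval r) hab
    rw [map_add, map_mul, map_mul, map_pow, aeval_X, map_one] at h
    exact h
  have hc : ∀ p q : F[X], aeval r p * aeval r q = aeval r q * aeval r p := by
    intro p q
    rw [← map_mul, mul_comm, map_mul]
  have hr : ∀ (p : F[X]) (n : ℕ), aeval r p * r ^ n = r ^ n * aeval r p := by
    intro p n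
    have h := hc p (X ^ n)
    rw [map_pow, aeval_X] at h
    exact h
  have he : r * (aeval r a * r ^ k) = aeval r a * r ^ (k + 1) := by
    have h := hr a 1
    rw [pow_one] at h
    rw [← mul_assoc, ← h, mul_assoc, ← pow_succ']
  have he' : aeval r a * r ^ k * r = aeval r a * r ^ (k + 1) := by
    rw [mul_assoc, ← pow_succ]
  have hid : aeval r a * r ^ (k + 1) * (aeval r a * r ^ (k + 1)) = aeval r a * r ^ (k + 1) := by
    have h2 : aeval r a * r ^ (k + 1) * (aeval r b * aeval r g) = 0 := by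
      rw [hc b g, pow_succ']
      calc aeval r a * (r * r ^ k) * (aeval r g * aeval r b)
          = aeval r a * r * (r ^ k * aeval r g) * aeval r b := by noncomm_ring
        _ = 0 := by rw [h0, mul_zero, zero_mul]
    have h3 : aeval r a * r ^ (k + 1) * (aeval r a * r ^ (k + 1)) +
        aeval r a * r ^ (k + 1) * (aeval r b * aeval r g) = aeval r a * r ^ (k + 1) := by
      rw [← mul_add, h1, mul_one]
    rw [h2, add_zero] at h3
    exact h3
  have hjl : j * (aeval r a * r ^ (k + 1)) = aeval r a * r ^ (k + 1) := by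
    rw [← he, ← mul_assoc, hjr]
  have hjr' : aeval r a * r ^ (k + 1) * j = aeval r a * r ^ (k + 1) := by
    rw [← he', mul_assoc, hrj]
  refine ⟨aeval r a * r ^ (k + 1), S.mul_mem (haS a) (S.pow_mem hrS _), hid, hjl, hjr', ?_, ?_⟩
  · intro hz
    rw [hz, zero_add] at h1
    apply hnil
    refine ⟨k, ?_⟩
    calc r ^ k = r ^ k * (aeval r b * aeval r g) := by rw [h1, mul_one]
      _ = r ^ k * aeval r g * aeval r b := by rw [hc b g, mul_assoc]
      _ = 0 := by rw [h0, zero_mul]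
  · intro hz
    apply hinv
    refine ⟨aeval r a * r ^ k, S.mul_mem (haS a) (S.pow_mem hrS _), ?_, ?_⟩
    · calc r * (j * (aeval r a * r ^ k) * j) = r * j * (aeval r a * r ^ k) * j := by noncomm_ring
        _ = r * (aeval r a * r ^ k) * j := by rw [hrj]
        _ = j := by rw [he, hz, hjj]
    · calc j * (aeval r a * r ^ k) * j * r = j * (aeval r a * r ^ k) * (j * r) := by noncomm_ring
        _ = j * (aeval r a * r ^ k * r) := by rw [hjr, mul_assoc]
        _ = j := by rw [he', hz, hjj]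

end Pool.Agent.PSS.S5.H20
end -- Pool.Agent.Helper20_PSS.FIT5

section -- Pool.Agent.Helper23_PSS.NQA

/-! Squad PSS, block S5, row NQA: existence of the quotient by a central subgroup. -/

open scoped BigOperators

noncomputable section

namespace Pool.Agent.PSS.S5.H23

open Pool.Agent.PSS.S5

section

variable {F V A : Type} [Field F] [CommGroup V] [Ring A] [Algebra F A] (α : V →* A)
  (Q : Subgroup V) [Fintype Q]

theorem sig_comm (h : ∀ q ∈ Q, ∀ a, α q * a = a * α q) (a : A) :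
    (∑ q : Q, α q) * a = a * ∑ q : Q, α q := by
  rw [Finset.sum_mul, Finset.mul_sum]
  exact Finset.sum_congr rfl fun q _ => h q q.2 a

theorem sig_q (q : V) (hq : q ∈ Q) : (∑ r : Q, α r) * α q = ∑ r : Q, α r := by
  rw [Finset.sum_mul]
  have h := Fintype.sum_equiv (Equiv.mulRight (⟨q, hq⟩ : Q)) (fun r : Q => α (r : V) * α q)
    (fun r : Q => α (r : V)) (fun r => by
      show α (r : V) * α q = α ((r * ⟨q, hq⟩ : Q) : V)
      rw [← map_mul]
      rfl)
  exact h

/-- the congruence of the quotient -/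
def cg (h : ∀ q ∈ Q, ∀ a, α q * a = a * α q) : RingCon A where
  r a b := (∑ q : Q, α q) * a = (∑ q : Q, α q) * b
  iseqv := ⟨fun _ => rfl, fun h => h.symm, fun h k => h.trans k⟩
  add' := by
    intro a b c d hab hcd
    show (∑ q : Q, α q) * (a + c) = (∑ q : Q, α q) * (b + d)
    rw [mul_add, mul_add]
    exact congrArg₂ (· + ·) hab hcd
  mul' := by
    intro a b c d hab hcd
    have hab' : (∑ q : Q, α q) * a = (∑ q : Q, α q) * b := hab
    have hcd' : (∑ q : Q, α q) * c = (∑ q : Q, α q) * d := hcd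
    show (∑ q : Q, α q) * (a * c) = (∑ q : Q, α q) * (b * d)
    rw [← mul_assoc, hab', sig_comm α Q h b, mul_assoc, hcd', ← mul_assoc, ← sig_comm α Q h b,
      mul_assoc]

end

theorem nqa : NqaStmt := by
  intro F V A _ _ _ _ α Q _ h
  let c := cg α Q h
  let p : A →ₐ[F] c.Quotient := RingCon.mkₐ F c
  have hp : ∀ a b, p a = p b ↔ (∑ q : Q, α q) * a = (∑ q : Q, α q) * b := fun a b => c.eq
  let α' : V ⧸ Q →* c.Quotient := QuotientGroup.lift Q (p.toRingHom.toMonoidHom.comp α) (by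
    intro q hq
    have h1 : p (α q) = p 1 := (hp _ _).2 (by rw [sig_q α Q q hq, mul_one])
    show p (α q) = 1
    rw [h1, map_one])
  refine ⟨c.Quotient, inferInstance, inferInstance, α', p, ?_, ?_, ?_, ?_⟩
  · exact h
  · exact c.mk'_surjective
  · intro a
    have h2 := hp a 0
    rw [map_zero, mul_zero] at h2
    exact h2
  · intro v
    rfl

end Pool.Agent.PSS.S5.H23
end
end -- Pool.Agent.Helper23_PSS.NQA

section -- Pool.Agent.Helper27_PSS.VON

/-!
# Row VON of squad PSS (S5): the case `V = 1`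
-/

open scoped BigOperators

noncomputable section

namespace Pool.Agent.PSS.S5.H27

open Pool.Agent.PSS

theorem von : VonStmt := by
  intro F V A B _ _ _ _ _ _ α hV N
  have hsV : Subsingleton V := (Nat.card_eq_one_iff_unique.mp hV).1
  have hVV : ∀ h : V × V, h = 1 := fun h => Subsingleton.elim _ _
  have hfx : ∀ (P : Subgroup (V × V)) (a : A), a ∈ FxR (bw F α) P := by
    intro P a h _
    rw [hVV h, map_one]
    rfl
  have hbk : ∀ (P : Subgroup (V × V)) (a : A), a ∈ BKR (bw F α) P → a = 0 := by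
    intro P a ha
    have h1 : BKR (bw F α) P = ⊥ := by
      rw [eq_bot_iff]
      refine Submodule.span_le.mpr ?_
      rintro n ⟨P', S, m, hlt, _⟩
      exfalso
      refine (ne_of_lt hlt) ?_
      ext x
      rw [hVV x]
      exact ⟨fun _ => P.one_mem, fun _ => P'.one_mem⟩
    rw [h1] at ha
    exact (Submodule.mem_bot F).mp ha
  have hsM : ∀ ε : MulAut (⊤ : Subgroup V), ε = 1 := by
    intro ε
    ext x
    exact Subsingleton.elim _ _
  have hinj : Function.Injective (N.β 1) := by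
    rw [← LinearMap.ker_eq_bot, LinearMap.ker_eq_bot']
    intro a ha
    exact hbk _ a ((N.ker 1 a (hfx _ a)).mp ha)
  have hsurj : Function.Surjective (N.β 1) := by
    intro b
    obtain ⟨f, _, hf⟩ := N.spn b
    refine ⟨f 1, ?_⟩
    rw [← hf]
    exact (finsum_eq_single (fun ε => N.β ε (f ε)) 1 (fun ε hε => absurd (hsM ε) hε)).symm
  have hmul : ∀ a b : A, N.β 1 (a * b) = N.β 1 a * N.β 1 b := by
    intro a b
    have h := N.mul 1 1 a (hfx _ a) b (hfx _ b)
    rwa [mul_one] at h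
  let e : A ≃ₗ[F] B := LinearEquiv.ofBijective (N.β 1) ⟨hinj, hsurj⟩
  have he : ∀ a, e a = N.β 1 a := fun a => rfl
  have hmap : (Subalgebra.toSubmodule (Subalgebra.center F A)).map (e : A →ₗ[F] B) =
      Subalgebra.toSubmodule (Subalgebra.center F B) := by
    ext b
    constructor
    · rintro ⟨a, ha, rfl⟩
      have ha' : a ∈ Subalgebra.center F A := ha
      rw [Subalgebra.mem_center_iff] at ha'
      have h1 : e a ∈ Subalgebra.center F B := by
        rw [Subalgebra.mem_center_iff]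
        intro b
        obtain ⟨c, hc⟩ := hsurj b
        rw [← hc, he, ← hmul, ← hmul, ha' c]
      exact h1
    · intro hb
      have hb' : b ∈ Subalgebra.center F B := hb
      rw [Subalgebra.mem_center_iff] at hb'
      obtain ⟨a, ha⟩ := hsurj b
      refine ⟨a, ?_, ha⟩
      have h1 : a ∈ Subalgebra.center F A := by
        rw [Subalgebra.mem_center_iff]
        intro c
        refine hinj ?_
        rw [hmul, hmul, ha]
        exact hb' _
      exact h1
  have h2 := (e.submoduleMap (Subalgebra.toSubmodule (Subalgebra.center F A))).finrank_eq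
  have h3 : Module.finrank F
      ↥((Subalgebra.toSubmodule (Subalgebra.center F A)).map (e : A →ₗ[F] B)) =
      Module.finrank F ↥(Subalgebra.toSubmodule (Subalgebra.center F B)) := by
    rw [hmap]
  exact h2.trans h3

end Pool.Agent.PSS.S5.H27
end
end -- Pool.Agent.Helper27_PSS.VON

section -- Pool.Agent.Helper37_PSS.TPL

/-!
# Squad PSS, row TPL: a local corner of a relatively separable algebra over the central group algebra
-/

open scoped BigOperators

noncomputable section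

namespace Pool.Agent.PSS.H37

open Pool.Agent.PSS.S5

/-- the left multiplications by `V` -/
def lmV {F V B : Type} [Field F] [CommGroup V] [Ring B] [Algebra F B] (α : V →* B) :
    V →* (B →ₗ[F] B) where
  toFun := fun v => LinearMap.mulLeft F (α v)
  map_one' := by
    ext b
    simp
  map_mul' := by
    intro v w
    ext b
    simp

/-- the elements `d` with `j d = d = d j` -/
def Dj {F B : Type} [Field F] [Ring B] [Algebra F B] (j : B) : Submodule F B where
  carrier := {d | j * d = d ∧ d * j = d}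
  add_mem' := by
    rintro a b ⟨h1, h2⟩ ⟨h3, h4⟩
    exact ⟨by rw [mul_add, h1, h3], by rw [add_mul, h2, h4]⟩
  zero_mem' := ⟨mul_zero j, zero_mul j⟩
  smul_mem' := by
    rintro c a ⟨h1, h2⟩
    exact ⟨by rw [mul_smul_comm, h1], by rw [smul_mul_assoc, h2]⟩

/-- the elements `d` with `j d = d` -/
def Rj {F B : Type} [Field F] [Ring B] [Algebra F B] (j : B) : Submodule F B where
  carrier := {d | j * d = d}
  add_mem' := by
    intro a b h1 h3
    show j * (a + b) = a + b
    rw [mul_add, h1, h3]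
  zero_mem' := mul_zero j
  smul_mem' := by
    intro c a h1
    show j * (c • a) = c • a
    rw [mul_smul_comm, h1]

theorem nil_of {B : Type} [Ring B] {j n m : B} (h1 : j * n = n) (h2 : n * j = n) (k : ℕ) :
    (n * m) ^ (k + 1) = n * (j * m * j * n) ^ k * m := by
  have hX : ∀ k, n * (j * m * j * n) ^ k * j = n * (j * m * j * n) ^ k := by
    intro k
    cases k with
    | zero => rw [pow_zero, mul_one, h2]
    | succ k => rw [pow_succ, mul_assoc, mul_assoc, mul_assoc (j * m * j), h2]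
  induction k with
  | zero => simp
  | succ k ih =>
    have e : (j * m * j * n) ^ (k + 1) = (j * m * j * n) ^ k * (j * m * j * n) := pow_succ _ _
    have e3 : j * m * j * n = j * (m * n) := by
      rw [mul_assoc (j * m), h1, mul_assoc]
    calc (n * m) ^ (k + 1 + 1) = (n * m) ^ (k + 1) * (n * m) := pow_succ _ _
      _ = n * (j * m * j * n) ^ k * m * (n * m) := by rw [ih]
      _ = n * (j * m * j * n) ^ k * (m * n) * m := by simp only [mul_assoc]
      _ = n * (j * m * j * n) ^ k * j * (m * n) * m := by rw [hX k]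
      _ = n * (j * m * j * n) ^ k * (j * (m * n)) * m := by
          rw [mul_assoc (n * (j * m * j * n) ^ k) j (m * n)]
      _ = n * (j * m * j * n) ^ k * (j * m * j * n) * m := by rw [← e3]
      _ = n * (j * m * j * n) ^ (k + 1) * m := by rw [e, mul_assoc n]

/-- TPL. -/
theorem tpl (sgn : SgnStmt) (nak : NakStmt) : TplStmt := by
  intro ℓ _ F V B K _ _ _ _ _ _ _ _ _ α lam x y u j hV hcen hRF hu hjj hj0 hloc
  classical
  have hfin : Finite V := inferInstance
  set σ : B := ∑ v, α v with hσ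
  have hσc : ∀ b, σ * b = b * σ := fun b => by
    rw [hσ, Finset.sum_mul, Finset.mul_sum]
    exact Finset.sum_congr rfl fun v _ => hcen v b
  -- elements of the corner
  have hDmem : ∀ a, j * a * j ∈ (Dj (F := F) j) := fun a =>
    ⟨by rw [← mul_assoc, ← mul_assoc, hjj], by rw [mul_assoc, hjj]⟩
  have hDeq : ∀ d ∈ (Dj (F := F) j), j * d * j = d := fun d hd => by rw [hd.1, hd.2]
  -- (1)
  have hnil : ∀ n ∈ (Dj (F := F) j), IsNilpotent n → ∀ m, IsNilpotent (n * m) := by
    intro n hn hnn m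
    have h1 : j * n = n := hn.1
    have h2 : n * j = n := hn.2
    have h3 : IsNilpotent (j * m * j * n) := by
      have e : j * m * j * n = j * (m * j * n) * j := by
        rw [mul_assoc j (m * j * n) j, mul_assoc (m * j) n j, h2]
        simp only [mul_assoc]
      rw [e]
      rcases hloc (m * j * n) with h | ⟨a', _, ha'⟩
      · exact h
      · exfalso
        -- a left inverse of `n`
        set t := j * a' * j * (j * m * j) with ht
        have htn : t * n = j := by
          calc t * n = j * a' * j * (j * m * j * n) := by rw [ht, mul_assoc]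
            _ = j * a' * j * (j * (m * j * n) * j) := by rw [← e]
            _ = j := ha'
        obtain ⟨k, hk⟩ := hnn
        have : ∀ k, n ^ k = 0 → j = 0 := by
          intro k
          induction k with
          | zero =>
            intro h0
            rw [pow_zero] at h0
            rw [← mul_one j, h0, mul_zero]
          | succ k ih =>
            intro h0
            have h4 : j * n ^ k = 0 := by
              rw [← htn, mul_assoc, ← pow_succ', h0, mul_zero]
            by_cases hk0 : k = 0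
            · rw [hk0, pow_zero, mul_one] at h4
              exact h4
            · obtain ⟨l, rfl⟩ := Nat.exists_eq_succ_of_ne_zero hk0
              apply ih
              rw [Nat.succ_eq_add_one, pow_succ', ← mul_assoc, h1, ← pow_succ'] at h4
              exact h4
        exact hj0 (this k hk)
    obtain ⟨k, hk⟩ := h3
    exact ⟨k + 1, by rw [nil_of h1 h2, hk, mul_zero, zero_mul]⟩
  -- (2)
  have hσn : ∀ n ∈ (Dj (F := F) j), IsNilpotent n → σ * n = 0 := fun n hn hnn =>
    sgn F V B K α lam x y u n hcen hRF hu (hnil n hn hnn)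
  -- (3)
  have hjD : j ∈ (Dj (F := F) j) := ⟨hjj, hjj⟩
  have heig : ∀ d ∈ (Dj (F := F) j), ∃ t : F, IsNilpotent (d - t • j) := by
    intro d hd
    have hmap : ∀ s ∈ Rj (F := F) j, LinearMap.mulLeft F d s ∈ Rj (F := F) j := by
      intro s hs
      show j * (d * s) = d * s
      rw [← mul_assoc, hd.1]
    have hnt : Nontrivial (Rj (F := F) j) :=
      ⟨⟨⟨j, hjj⟩, 0, fun h => hj0 (congrArg Subtype.val h)⟩⟩
    obtain ⟨t, ht⟩ := Module.End.exists_eigenvalue
      ((LinearMap.mulLeft F d).restrict hmap : Module.End F (Rj (F := F) j))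
    obtain ⟨s, hs⟩ := ht.exists_hasEigenvector
    have hs1 : d * (s : B) = t • (s : B) := congrArg Subtype.val hs.apply_eq_smul
    have hs0 : (s : B) ≠ 0 := fun h => hs.2 (Subtype.ext h)
    have hsj : j * (s : B) = s := s.2
    refine ⟨t, ?_⟩
    have hdt : d - t • j ∈ (Dj (F := F) j) := Submodule.sub_mem _ hd (Submodule.smul_mem _ t hjD)
    rcases hloc (d - t • j) with h | ⟨a', _, ha'⟩
    · rw [hDeq _ hdt] at h
      exact h
    · exfalso
      rw [hDeq _ hdt] at ha'
      apply hs0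
      calc (s : B) = j * (s : B) := hsj.symm
        _ = (j * a' * j * (d - t • j)) * (s : B) := by rw [ha']
        _ = j * a' * j * ((d - t • j) * (s : B)) := mul_assoc _ _ _
        _ = 0 := by rw [sub_mul, hs1, smul_mul_assoc, hsj, sub_self, mul_zero]
  -- (4)
  have hspan : ∀ d ∈ (Dj (F := F) j), σ * d = 0 →
      d ∈ Submodule.span F {b : B | ∃ v, ∃ e ∈ (Dj (F := F) j), b = lmV (F := F) α v e - e} := by
    intro d hd hd0
    set h : B → B := fun a => ∑ k, lam (y k * a) • (j * x k * j) with hh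
    have hhD : ∀ a, h a ∈ (Dj (F := F) j) := fun a =>
      Submodule.sum_mem _ fun k _ => Submodule.smul_mem _ _ (hDmem (x k))
    have e1 : d = ∑ v, α v * h (α v⁻¹ * d) := by
      have h1 := hRF.e1 d
      calc d = j * d * j := (hDeq d hd).symm
        _ = j * (∑ k, ∑ v, lam (α v⁻¹ * y k * d) • (x k * α v)) * j := by rw [h1]
        _ = ∑ k, ∑ v, lam (α v⁻¹ * y k * d) • (j * (x k * α v) * j) := by
            rw [Finset.mul_sum, Finset.sum_mul]
            refine Finset.sum_congr rfl fun k _ => ?_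
            rw [Finset.mul_sum, Finset.sum_mul]
            exact Finset.sum_congr rfl fun v _ => by rw [mul_smul_comm, smul_mul_assoc]
        _ = ∑ v, ∑ k, lam (y k * (α v⁻¹ * d)) • (α v * (j * x k * j)) := by
            rw [Finset.sum_comm]
            refine Finset.sum_congr rfl fun v _ => Finset.sum_congr rfl fun k _ => ?_
            have e2 : α v⁻¹ * y k * d = y k * (α v⁻¹ * d) := by rw [hcen v⁻¹ (y k), mul_assoc]
            have e3 : j * (x k * α v) * j = α v * (j * x k * j) := by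
              rw [← hcen v (x k), ← mul_assoc j, ← hcen v j]
              simp only [mul_assoc]
            rw [e2, e3]
        _ = ∑ v, α v * h (α v⁻¹ * d) := by
            refine Finset.sum_congr rfl fun v _ => ?_
            rw [hh]
            show _ = α v * ∑ k, lam (y k * (α v⁻¹ * d)) • (j * x k * j)
            rw [Finset.mul_sum]
            exact Finset.sum_congr rfl fun k _ => (mul_smul_comm _ _ _).symm
    have e4 : ∑ v, h (α v⁻¹ * d) = 0 := by
      have e5 : ∑ v, h (α v⁻¹ * d) = ∑ k, lam (y k * (σ * d)) • (j * x k * j) := by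
        rw [hh]
        show ∑ v, ∑ k, lam (y k * (α v⁻¹ * d)) • (j * x k * j) = _
        rw [Finset.sum_comm]
        refine Finset.sum_congr rfl fun k _ => ?_
        have e7 : ∑ v, α v⁻¹ = σ := Equiv.sum_comp (Equiv.inv V) (fun v => α v)
        rw [← Finset.sum_smul, ← map_sum, ← Finset.mul_sum, ← Finset.sum_mul, e7]
      rw [e5, hd0]
      simp
    have e6 : d = ∑ v, (lmV (F := F) α v (h (α v⁻¹ * d)) - h (α v⁻¹ * d)) := by
      rw [Finset.sum_sub_distrib, e4, sub_zero]
      exact e1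
    rw [e6]
    exact Submodule.sum_mem _ fun v _ => Submodule.subset_span ⟨v, _, hhD _, rfl⟩
  -- stability
  have hstab : ∀ v, ∀ m ∈ (Dj (F := F) j), lmV (F := F) α v m ∈ (Dj (F := F) j) := by
    intro v m hm
    refine ⟨?_, ?_⟩
    · show j * (α v * m) = α v * m
      rw [← mul_assoc, ← hcen v j, mul_assoc, hm.1]
    · show α v * m * j = α v * m
      rw [mul_assoc, hm.2]
  -- (5)
  have hD' : (Dj (F := F) j) ≤ Submodule.span F (Set.range fun v => α v * j) := by
    refine nak ℓ F V B (lmV α) (Dj j) _ hV hstab ?_ ?_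
    · intro v m hm
      have hle : Submodule.span F (Set.range fun v => α v * j) ≤
          (Submodule.span F (Set.range fun v => α v * j)).comap (lmV (F := F) α v) := by
        rw [Submodule.span_le]
        rintro _ ⟨w, rfl⟩
        change α v * (α w * j) ∈ Submodule.span F (Set.range fun v => α v * j)
        rw [← mul_assoc, ← map_mul]
        exact Submodule.subset_span ⟨v * w, rfl⟩
      exact hle hm
    · intro m hm
      obtain ⟨t, ht⟩ := heig m hm
      have hdt : m - t • j ∈ (Dj (F := F) j) := Submodule.sub_mem _ hm (Submodule.smul_mem _ t hjD)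
      refine ⟨t • j, ?_, hspan _ hdt (hσn _ hdt ht)⟩
      refine Submodule.smul_mem _ t (Submodule.subset_span ⟨1, ?_⟩)
      show α 1 * j = j
      rw [map_one, one_mul]
  have hσj : σ * j ≠ 0 := by
    intro h0
    have hbot : (Dj (F := F) j) ≤ ⊥ := by
      refine nak ℓ F V B (lmV α) (Dj j) ⊥ hV hstab ?_ ?_
      · intro v m hm
        rw [Submodule.mem_bot] at hm ⊢
        rw [hm, map_zero]
      · intro m hm
        obtain ⟨t, ht⟩ := heig m hm
        have hdt : m - t • j ∈ (Dj (F := F) j) :=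
          Submodule.sub_mem _ hm (Submodule.smul_mem _ t hjD)
        have h1 := hσn _ hdt ht
        rw [mul_sub, mul_smul_comm, h0, smul_zero, sub_zero] at h1
        refine ⟨0, Submodule.zero_mem _, ?_⟩
        rw [sub_zero]
        exact hspan m hm h1
    exact hj0 ((Submodule.mem_bot F).mp (hbot hjD))
  refine ⟨fun a => ?_, ?_⟩
  · have h1 := hD' (hDmem a)
    obtain ⟨c, hc⟩ := (Submodule.mem_span_range_iff_exists_fun F).mp h1
    exact ⟨c, hc.symm⟩
  · intro h0
    apply hσj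
    have h1 : ∀ m, lam (σ * j * m) = 0 := by
      intro m
      obtain ⟨t, ht⟩ := heig _ (hDmem m)
      have hdt : j * m * j - t • j ∈ (Dj (F := F) j) :=
        Submodule.sub_mem _ (hDmem m) (Submodule.smul_mem _ t hjD)
      have h2 := hσn _ hdt ht
      have h3 : σ * (j * m * j) = t • (σ * j) := by
        rw [mul_sub, mul_smul_comm, sub_eq_zero] at h2
        exact h2
      have h4 : lam (σ * j * m) = lam (σ * (j * m * j)) := by
        have e1 : σ * j * m = (σ * j) * (j * m) := by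
          rw [mul_assoc σ j (j * m), ← mul_assoc j j m, hjj, mul_assoc]
        have e2 : σ * (j * m * j) = (j * m) * (σ * j) := by
          rw [← mul_assoc, hσc (j * m), mul_assoc]
        rw [e1, e2, hRF.sym]
      rw [h4, h3, map_smul, h0, smul_zero]
    have h5 := hRF.e2 (σ * j)
    rw [← h5]
    refine Finset.sum_eq_zero fun k _ => Finset.sum_eq_zero fun v _ => ?_
    rw [h1, zero_smul]

end Pool.Agent.PSS.H37
end
end -- Pool.Agent.Helper37_PSS.TPL

section -- Pool.Agent.Helper39_PSS.LCQ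

/-! PSS, block S5, row LCQ: the class of local algebras is stable under Brauer quotients. -/

set_option autoImplicit false

open scoped BigOperators

namespace Pool.Agent.PSS.S5.H39

open Pool.Agent.PFC (Cz)
open Pool.Agent.PSS.S0 (IsBQ)

theorem fxr_mono {F V A : Type} [Field F] [CommGroup V] [Ring A] [Algebra F A] {α : V →* A}
    (Q : Subgroup V) {a : A} (h : a ∈ FxR (cw F α) ⊤) : a ∈ FxR (cw F α) Q :=
  fun v _ => h v trivial

theorem mem_cz {F V A : Type} [Field F] [CommGroup V] [Ring A] [Algebra F A] {α : V →* A} {a : A} :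
    a ∈ Cz F α ⊤ ↔ a ∈ FxR (cw F α) ⊤ := by
  rw [mem_cw]
  unfold Cz
  rw [Subalgebra.mem_centralizer_iff]
  constructor
  · intro h q _
    exact h (α q) ⟨q, trivial, rfl⟩
  · rintro h _ ⟨q, _, rfl⟩
    exact h q trivial

theorem lcq (hBpu : S0.BpuStmt) (hBbk : S0.BbkStmt) : LcqStmt := by
  classical
  intro ℓ _ F V E A B _ _ _ _ _ _ _ _ _ φ α Q αB β E1 hV hL hB hE
  obtain ⟨lam, K, _, x, y, hRF, hlam⟩ := hL.frm
  have hℓ : ((ℓ : ℕ) : F) = 0 := CharP.cast_eq_zero F ℓ
  obtain ⟨hPer, hUni, lamB, KB, _, xB, yB, hRFB, hlamB⟩ :=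
    hBpu ℓ F V E A B K φ α Q αB β lam x y E1 hℓ hV hL.per hL.uni hRF hB hE
  obtain ⟨hb1, hb2⟩ := hBbk ℓ F V E A B K φ α Q αB β lam x y ⊤ hℓ hV hL.per hRF hB
  rw [top_sup_eq] at hb1 hb2
  have hfd := hL.fin
  -- the linear map
  let f : FxR (cw F α) Q →ₗ[F] B :=
    { toFun := fun a => β a
      map_add' := fun a b => hB.add a a.2 b b.2
      map_smul' := fun r a => hB.smul r a a.2 }
  have hf : ∀ (a : A) (ha : a ∈ FxR (cw F α) Q), f ⟨a, ha⟩ = β a := fun _ _ => rfl
  have hfs : Function.Surjective f := by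
    intro z
    obtain ⟨a, ha, h⟩ := hB.surj z
    exact ⟨⟨a, ha⟩, h⟩
  have hal : ∀ v, α v ∈ FxR (cw F α) Q := fun v => al_mem_cw v Q
  have halT : ∀ v, α v ∈ FxR (cw F α) ⊤ := fun v => al_mem_cw v ⊤
  have hcomb : ∀ c : V → F, β (∑ u, c u • α u) = ∑ u, c u • αB u := by
    intro c
    have h1 : (∑ u, c u • (⟨α u, hal u⟩ : FxR (cw F α) Q) : FxR (cw F α) Q) =
        ⟨∑ u, c u • α u, Submodule.sum_mem _ fun u _ => Submodule.smul_mem _ _ (hal u)⟩ := by
      apply Subtype.ext
      rw [Submodule.coe_sum]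
      rfl
    have h2 := congrArg f h1
    rw [map_sum, hf] at h2
    rw [← h2]
    refine Finset.sum_congr rfl fun u _ => ?_
    rw [map_smul, hf, hB.om]
  have hsum : ∑ v, αB v = β (∑ v, α v) := by
    have h1 := hcomb fun _ => 1
    simp only [one_smul] at h1
    exact h1.symm
  have hsT : (∑ v, α v) ∈ FxR (cw F α) Q := Submodule.sum_mem _ fun u _ => hal u
  have hnz : lamB (∑ v, αB v) ≠ 0 := by
    rw [hsum, hlamB _ hsT]
    exact hlam
  refine ⟨?_, hPer, hUni, ⟨lamB, KB, inferInstance, xB, yB, hRFB, hnz⟩, ?_, ?_⟩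
  · exact Module.Finite.of_surjective f hfs
  · have hloc := hL.loc
    -- the ring homomorphism
    let g : Cz F α ⊤ →+* Cz F αB ⊤ :=
      { toFun := fun a => ⟨β a, mem_cz.2 (hb1 a (mem_cz.1 a.2)).1⟩
        map_one' := Subtype.ext hB.one
        map_mul' := fun a b => Subtype.ext
          (hB.mul a (fxr_mono Q (mem_cz.1 a.2)) b (fxr_mono Q (mem_cz.1 b.2)))
        map_zero' := Subtype.ext (by
          have := f.map_zero
          exact this)
        map_add' := fun a b => Subtype.ext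
          (hB.add a (fxr_mono Q (mem_cz.1 a.2)) b (fxr_mono Q (mem_cz.1 b.2))) }
    have hgs : Function.Surjective g := by
      rintro ⟨z, hz⟩
      obtain ⟨a, ha, h⟩ := hb2 z (mem_cz.1 hz)
      exact ⟨⟨a, mem_cz.2 ha⟩, Subtype.ext h⟩
    have hnt : Nontrivial B := by
      by_contra hcon
      rw [not_nontrivial_iff_subsingleton] at hcon
      apply hnz
      rw [Subsingleton.elim (∑ v, αB v) 0, map_zero]
    have hnt2 : Nontrivial (Cz F αB ⊤) := inferInstance
    refine IsLocalRing.of_isUnit_or_isUnit_of_isUnit_add ?_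
    intro a b hab
    obtain ⟨a', ha'⟩ := hgs a
    obtain ⟨b', hb'⟩ := hgs b
    obtain ⟨c, hc⟩ := hab
    -- normalise to a sum equal to one
    obtain ⟨u', hu'⟩ := hgs (↑c⁻¹ : Cz F αB ⊤)
    have h1 : u' * a' + (1 - u' * a') = 1 := by abel
    rcases IsLocalRing.isUnit_or_isUnit_of_add_one h1 with h | h
    · left
      have h1 : IsUnit (g (u' * a')) := h.map g
      rw [map_mul, hu', ha', Units.isUnit_units_mul] at h1
      exact h1
    · right
      have h1 : IsUnit (g (1 - u' * a')) := h.map g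
      have h2 : g (1 - u' * a') = (↑c⁻¹ : Cz F αB ⊤) * b := by
        rw [map_sub, map_one, map_mul, hu', ha', sub_eq_iff_eq_add, ← mul_add, add_comm b a, ← hc,
          Units.inv_mul]
      rw [h2, Units.isUnit_units_mul] at h1
      exact h1
  · intro z hz
    obtain ⟨a, ha, rfl⟩ := hb2 z hz
    obtain ⟨c, hc⟩ := hL.spn a ha
    refine ⟨c, ?_⟩
    have hcT : (∑ u, c u • α u) ∈ FxR (cw F α) ⊤ :=
      Submodule.sum_mem _ fun u _ => Submodule.smul_mem _ _ (halT u)
    have h1 := (hb1 _ (Submodule.sub_mem _ ha hcT)).2.2 hc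
    have h2 : β (a - ∑ u, c u • α u) = β a - β (∑ u, c u • α u) := by
      have h3 := f.map_sub ⟨a, fxr_mono Q ha⟩ ⟨_, fxr_mono Q hcT⟩
      exact h3
    rw [h2, hcomb] at h1
    exact h1

end Pool.Agent.PSS.S5.H39
end -- Pool.Agent.Helper39_PSS.LCQ

section -- Pool.Agent.Helper53_PSS.LQX

/-!
# Squad PSS, row LQX: the local condition from the Brauer quotient
-/

namespace Pool.Agent.PSS.S5.H53

open Pool.Agent.PFC (tw IsTv Cz Lcq BK cj)
open Pool.Agent.PSS.S0 (IsBQ)

theorem cz_mem {F V A : Type} [Field F] [CommGroup V] [Ring A] [Algebra F A] (α : V →* A)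
    (Q : Subgroup V) (a : A) (ha : a ∈ Cz F α Q) : a ∈ FxR (cw F α) Q := by
  intro h hh
  have h1 : α h * a = a * α h := ha (α h) ⟨h, hh, rfl⟩
  change α h * (a * α h⁻¹) = a
  rw [← mul_assoc, h1, mul_assoc, ← map_mul, mul_inv_cancel, map_one, mul_one]

theorem mem_cz {F V A : Type} [Field F] [CommGroup V] [Ring A] [Algebra F A] (α : V →* A)
    (Q : Subgroup V) (a : A) (ha : a ∈ FxR (cw F α) Q) : a ∈ Cz F α Q := by
  rintro _ ⟨h, hh, rfl⟩
  have h1 : α h * (a * α h⁻¹) = a := ha h hh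
  calc α h * a = α h * (a * α h⁻¹) * α h := by
        rw [mul_assoc (α h), mul_assoc a, ← map_mul, inv_mul_cancel, map_one, mul_one]
    _ = a * α h := by rw [h1]

theorem lqx : LqxStmt := by
  intro F V A B _ _ _ _ _ _ α Q αB β hb ⟨n, π, hn, hs, hnil, hc⟩
  have hz : β 0 = 0 := by
    have h1 := hb.smul (0 : F) 0 (zero_mem _)
    rw [zero_smul, zero_smul] at h1
    exact h1
  have h1m : (1 : A) ∈ FxR (cw F α) Q := cz_mem α Q 1 (one_mem _)
  let f : Cz F α Q →ₐ[F] Matrix (Fin n) (Fin n) F :=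
    { toFun := fun a => π (β a)
      map_one' := by
        change π (β 1) = 1
        rw [hb.one, map_one]
      map_mul' := fun a b => by
        change π (β ((a : A) * b)) = _
        rw [hb.mul _ (cz_mem α Q _ a.2) _ (cz_mem α Q _ b.2), map_mul]
      map_zero' := by
        change π (β 0) = 0
        rw [hz, map_zero]
      map_add' := fun a b => by
        change π (β ((a : A) + b)) = _
        rw [hb.add _ (cz_mem α Q _ a.2) _ (cz_mem α Q _ b.2), map_add]
      commutes' := fun r => by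
        change π (β (algebraMap F A r)) = _
        rw [Algebra.algebraMap_eq_smul_one, hb.smul r 1 h1m, hb.one, map_smul, map_one,
          Algebra.algebraMap_eq_smul_one] }
  refine ⟨n, f, hn, ?_, ?_, ?_, hc⟩
  · intro y
    obtain ⟨x, hx⟩ := hs y
    obtain ⟨a, ha, hax⟩ := hb.surj x
    refine ⟨⟨a, mem_cz α Q a ha⟩, ?_⟩
    change π (β a) = y
    rw [hax, hx]
  · intro a ha
    have h2 : β a = 0 := (hb.ker _ (cz_mem α Q _ a.2)).2 ha
    change π (β a) = 0
    rw [h2, map_zero]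
  · intro a ha
    obtain ⟨N, hN⟩ := hnil _ ha
    refine ⟨N, ?_⟩
    have h3 : ∀ k : ℕ, (a : A) ^ k ∈ FxR (cw F α) Q ∧ β ((a : A) ^ k) = (β a) ^ k := by
      intro k
      induction k with
      | zero => exact ⟨by rw [pow_zero]; exact h1m, by rw [pow_zero, pow_zero, hb.one]⟩
      | succ k ih =>
        refine ⟨?_, ?_⟩
        · have h4 : ((a ^ (k + 1) : Cz F α Q) : A) ∈ FxR (cw F α) Q := cz_mem α Q _ (a ^ (k + 1)).2
          exact h4
        · rw [pow_succ, pow_succ, hb.mul _ ih.1 _ (cz_mem α Q _ a.2), ih.2]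
    have h5 := (h3 N).2
    rw [hN] at h5
    exact (hb.ker _ (h3 N).1).1 h5

end Pool.Agent.PSS.S5.H53
end -- Pool.Agent.Helper53_PSS.LQX

section -- Pool.Agent.Helper5_PSS.LNT

/-!
# Squad PSS, row LNT (helper5)
-/

open scoped BigOperators TensorProduct

noncomputable section

namespace Pool.Agent.PSS.H5

open Pool.Agent.PFC (tw IsTv)
open Pool.Agent.PFD.D2b (FrR)
open Pool.Agent.PSS.S5 (Lc LntStmt)

theorem isPGroup_twW {V : Type} [CommGroup V] {ℓ : ℕ} (hp : IsPGroup ℓ V) (W : Subgroup V) :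
    IsPGroup ℓ (twW W (1 : MulAut W)) := by
  rintro ⟨x, w, hw⟩
  obtain ⟨k, hk⟩ := hp (w : V)
  refine ⟨k, Subtype.ext ?_⟩
  change x ^ ℓ ^ k = 1
  rw [← hw]
  exact Prod.ext hk hk

theorem lnt (hF : FrbStmt) : LntStmt := by
  classical
  intro ℓ _ F V E A B _ _ _ _ _ _ _ _ _ φ α W N hp hL a ha hb
  obtain ⟨Ω, fΩ, aΩ, b0, c0, hfr, hst⟩ := hL
  have hl : (ℓ : F) = 0 := CharP.cast_eq_zero F ℓ
  obtain ⟨h1, h2⟩ := hF ℓ F (V × V) A Ω (bw F α) b0 c0 (twW W (1 : MulAut W)) hl
    (isPGroup_twW hp W) inferInstance hfr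
  have h3 := h2 a ha
  set a' : A := ∑ ω : Fp Ω (twW W (1 : MulAut W)), c0 ω.1 a • b0 ω.1 with ha'
  -- the conjugates of `a`
  have key : ∀ v : V, bw F α (v, v) a - a ∈ BKR (bw F α) (twW W (1 : MulAut W)) := by
    intro v
    have e1 : α v ∈ FxR (bw F α) (twW W (1 : MulAut W)) := al_mem_tw v W
    have e2 : α v⁻¹ ∈ FxR (bw F α) (twW W (1 : MulAut W)) := al_mem_tw v⁻¹ W
    have e3 : a * α v⁻¹ ∈ FxR (bw F α) (twW W (1 : MulAut W)) := by
      rw [mem_tw] at ha e2 ⊢
      intro w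
      rw [← mul_assoc, ha w, mul_assoc, mul_assoc]
      exact congrArg (a * ·) (e2 w)
    have e4 : α v * (a * α v⁻¹) ∈ FxR (bw F α) (twW W (1 : MulAut W)) := by
      rw [mem_tw] at e1 e3 ⊢
      intro w
      rw [← mul_assoc, e1 w, mul_assoc, mul_assoc]
      exact congrArg (α v * ·) (e3 w)
    have e5 : bw F α (v, v) a = α v * (a * α v⁻¹) := rfl
    rw [e5, ← N.ker 1 _ ((FxR (bw F α) _).sub_mem e4 ha), map_sub, sub_eq_zero]
    have e6 := N.mul 1 1 (α v) e1 (a * α v⁻¹) e3
    have e7 := N.mul 1 1 a ha (α v⁻¹) e2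
    rw [mul_one] at e6 e7
    rw [e6, e7, ← N.nwh_apply, ← N.nwh_apply, ← mul_assoc, mem_cw.1 hb v (Subgroup.mem_top v),
      mul_assoc, ← map_mul, mul_inv_cancel, map_one, mul_one]
  refine ⟨a', ?_, ?_⟩
  · intro v _
    change bw F α (v, v) a' = a'
    rw [ha', map_sum]
    refine Fintype.sum_equiv (MulAction.toPerm ((v, v) : V × V)) _ _ ?_
    intro ω
    have e1 : (((MulAction.toPerm ((v, v) : V × V)) ω :
      Fp Ω (twW W (1 : MulAut W))) : Fp Ω (twW W (1 : MulAut W))).1 =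
        ((v, v) : V × V) • ω.1 := rfl
    rw [e1, map_smul, ← hfr.1]
    have e2 : c0 (((v, v) : V × V) • ω.1) (bw F α (v, v) a) = c0 ω.1 a := hfr.2.1 (v, v) ω.1 a
    have e3 : c0 (((v, v) : V × V) • ω.1) (bw F α (v, v) a - a) = 0 := by
      refine h1 _ ?_ _ (key v)
      exact (((v, v) : V × V) • ω).2
    rw [map_sub, sub_eq_zero] at e3
    rw [← e3, e2]
  · have e1 := (N.ker 1 _ (BKR_le_FxR h3)).2 h3
    rw [map_sub, sub_eq_zero] at e1
    exact e1.symm

end Pool.Agent.PSS.H5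
end
end -- Pool.Agent.Helper5_PSS.LNT

section -- Pool.Agent.Helper62_PSS.LNL

/-! Squad PSS (MP_6a3f1a_al), block S5, row LNL (helper62): the centraliser of `V` in `N_W(A)` is
local. -/

set_option autoImplicit false

open scoped BigOperators

noncomputable section

namespace Pool.Agent.PSS.S5.H62

open Pool.Agent.PFC (tw IsTv Cnr Cz PIn Ctf Lcq PmzStmt PS bi)

/-- the right ideal generated by the `w - 1`, `w ∈ W` -/
def iw (F : Type) {V B : Type} [Field F] [CommGroup V] [Ring B] [Algebra F B] (h : V →* B)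
    (W : Subgroup V) : Submodule F B :=
  Submodule.span F {x : B | ∃ w ∈ W, ∃ b : B, x = (h w - 1) * b}

theorem sum_inv {V M : Type} [CommGroup V] [Fintype V] [AddCommGroup M] (Q : Subgroup V)
    (ψ : V → M) (hψ : ∀ v, ∀ q ∈ Q, ψ (v * q) = ψ v) (hQ : ∀ m : M, Nat.card Q • m = 0) :
    ∑ v, ψ v = 0 := by
  classical
  have : Fintype (V ⧸ Q) := Fintype.ofFinite _
  have : Fintype Q := Fintype.ofFinite _
  let e : (V ⧸ Q) × Q ≃ V :=
    { toFun := fun p => Quotient.out p.1 * p.2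
      invFun := fun v => (QuotientGroup.mk v, ⟨(Quotient.out (QuotientGroup.mk v : V ⧸ Q))⁻¹ * v,
        by
          apply QuotientGroup.eq.1
          exact QuotientGroup.out_eq' _⟩)
      left_inv := by
        rintro ⟨c, q⟩
        have h1 : (QuotientGroup.mk (Quotient.out c * (q : V)) : V ⧸ Q) = c := by
          rw [QuotientGroup.mk_mul_of_mem _ q.2]
          exact QuotientGroup.out_eq' c
        apply Prod.ext
        · exact h1
        · apply Subtype.ext
          change (Quotient.out (QuotientGroup.mk (Quotient.out c * (q : V)) : V ⧸ Q))⁻¹ *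
            (Quotient.out c * (q : V)) = q
          rw [h1, inv_mul_cancel_left]
      right_inv := by
        intro v
        change Quotient.out (QuotientGroup.mk v : V ⧸ Q) *
          ((Quotient.out (QuotientGroup.mk v : V ⧸ Q))⁻¹ * v) = v
        rw [mul_inv_cancel_left] }
  rw [← Equiv.sum_comp e, Fintype.sum_prod_type]
  apply Finset.sum_eq_zero
  intro c _
  have h1 : ∀ q : Q, ψ (e (c, q)) = ψ (Quotient.out c) := fun q => hψ _ _ q.2
  rw [Finset.sum_congr rfl (fun q _ => h1 q), Finset.sum_const, Finset.card_univ,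
    ← Nat.card_eq_fintype_card]
  exact hQ _

theorem gsum (ℓ : ℕ) [Fact ℓ.Prime] {F V B : Type} [Field F] [CharP F ℓ] [CommGroup V] [Fintype V]
    [Ring B] [Algebra F B] (h : V →* B) (W : Subgroup V) (hV : IsPGroup ℓ V) (w' : V)
    (hw : w' ∈ W) (hw1 : w' ≠ 1) (g : V → F) (hg : ∀ v, g (v * w') = g v) :
    ∑ v, g v • h v ∈ iw F h W := by
  classical
  let Q : Subgroup V := Subgroup.zpowers w'
  have hQW : Q ≤ W := by
    rw [Subgroup.zpowers_le]
    exact hw
  have hgQ : ∀ q ∈ Q, ∀ v, g (v * q) = g v := by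
    have key : Q ≤ { carrier := {q | ∀ v, g (v * q) = g v}
                     mul_mem' := by
                       intro a b ha hb v
                       rw [← mul_assoc, hb, ha]
                     one_mem' := by
                       intro v
                       rw [mul_one]
                     inv_mem' := by
                       intro a ha v
                       rw [← ha (v * a⁻¹), inv_mul_cancel_right] } := by
      rw [Subgroup.zpowers_le]
      exact hg
    exact fun q hq => key hq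
  have hcard : ((Nat.card Q : ℕ) : F) = 0 := by
    rw [CharP.cast_eq_zero_iff F ℓ]
    have hQp : IsPGroup ℓ Q := hV.to_subgroup Q
    have hnt : Nontrivial Q := by
      refine ⟨⟨⟨w', Subgroup.mem_zpowers w'⟩, 1, ?_⟩⟩
      intro h1
      exact hw1 (congrArg Subtype.val h1)
    rcases hQp.card_eq_or_dvd with h1 | h1
    · exact (Finite.one_lt_card (α := Q)).ne' h1 |>.elim
    · exact h1
  let r : V → V := fun v => Quotient.out (QuotientGroup.mk v : V ⧸ Q)
  have hr : ∀ v, (r v)⁻¹ * v ∈ Q := by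
    intro v
    apply QuotientGroup.eq.1
    exact QuotientGroup.out_eq' _
  have hrq : ∀ v, ∀ q ∈ Q, r (v * q) = r v := by
    intro v q hq
    change Quotient.out (QuotientGroup.mk (v * q) : V ⧸ Q) = _
    rw [QuotientGroup.mk_mul_of_mem _ hq]
  have h2 : ∑ v, g v • h (r v) = 0 := by
    apply sum_inv Q
    · intro v q hq
      rw [hgQ q hq, hrq v q hq]
    · intro m
      rw [← Nat.cast_smul_eq_nsmul F, hcard, zero_smul]
  have h3 : ∑ v, g v • h v = ∑ v, g v • (h v - h (r v)) := by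
    have h4 : ∑ v, g v • (h v - h (r v)) = ∑ v, g v • h v - ∑ v, g v • h (r v) := by
      rw [← Finset.sum_sub_distrib]
      exact Finset.sum_congr rfl fun v _ => smul_sub _ _ _
    rw [h4, h2, sub_zero]
  rw [h3]
  apply Submodule.sum_mem
  intro v _
  apply Submodule.smul_mem
  apply Submodule.subset_span
  refine ⟨(r v)⁻¹ * v, hQW (hr v), h (r v), ?_⟩
  rw [sub_mul, one_mul, ← map_mul, inv_mul_cancel_comm]

theorem iw_mulR {F V B : Type} [Field F] [CommGroup V] [Ring B] [Algebra F B] (h : V →* B)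
    (W : Subgroup V) {x : B} (hx : x ∈ iw F h W) (b : B) : x * b ∈ iw F h W := by
  have key : iw F h W ≤ (iw F h W).comap (LinearMap.mulRight F b) := by
    apply Submodule.span_le.2
    rintro _ ⟨w, hw, c, rfl⟩
    apply Submodule.subset_span
    exact ⟨w, hw, c * b, mul_assoc _ _ _⟩
  exact key hx

theorem iw_mulL {F V B : Type} [Field F] [CommGroup V] [Ring B] [Algebra F B] (h : V →* B)
    (W : Subgroup V) {x : B} (hx : x ∈ iw F h W) (b : B) (hb : ∀ v, h v * b = b * h v) :
    b * x ∈ iw F h W := by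
  have key : iw F h W ≤ (iw F h W).comap (LinearMap.mulLeft F b) := by
    apply Submodule.span_le.2
    rintro _ ⟨w, hw, c, rfl⟩
    apply Submodule.subset_span
    refine ⟨w, hw, b * c, ?_⟩
    change b * ((h w - 1) * c) = (h w - 1) * (b * c)
    have h1 : b * (h w - 1) = (h w - 1) * b := by
      rw [mul_sub, sub_mul, hb w, mul_one, one_mul]
    rw [← mul_assoc, ← mul_assoc, h1]
  exact key hx

/-- `1 + x` is a unit for `x` in the ideal which commutes with `V` -/
theorem unt (hNak : NakStmt) (ℓ : ℕ) [Fact ℓ.Prime] {F V B : Type} [Field F] [CharP F ℓ]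
    [CommGroup V] [Fintype V] [Ring B] [Algebra F B] [FiniteDimensional F B] (h : V →* B)
    (W : Subgroup V) (hV : IsPGroup ℓ V) {x : B} (hx : x ∈ iw F h W)
    (hc : ∀ v, h v * x = x * h v) : ∃ y, (1 + x) * y = 1 ∧ y * (1 + x) = 1 := by
  let ρ : W →* (B →ₗ[F] B) :=
    { toFun := fun w => LinearMap.mulLeft F (h w)
      map_one' := by
        ext b
        simp
      map_mul' := by
        intro a b
        ext c
        simp }
  have hρ : ∀ (w : W) (m : B), ρ w m = h w * m := fun _ _ => rfl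
  have key := hNak ℓ F W B ρ ⊤ (LinearMap.range (LinearMap.mulLeft F (1 + x)))
    (hV.to_subgroup W) (fun _ _ _ => Submodule.mem_top) (by
      rintro w _ ⟨b, rfl⟩
      refine ⟨h w * b, ?_⟩
      rw [hρ]
      change (1 + x) * (h w * b) = h w * ((1 + x) * b)
      rw [← mul_assoc, ← mul_assoc, add_mul, mul_add, one_mul, mul_one, hc]) (by
      intro m _
      refine ⟨(1 + x) * m, ⟨m, rfl⟩, ?_⟩
      have h1 : m - (1 + x) * m = -(x * m) := by
        rw [add_mul, one_mul]
        abel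
      rw [h1]
      apply Submodule.neg_mem
      have h2 : iw F h W ≤ Submodule.span F {x : B | ∃ v, ∃ d ∈ (⊤ : Submodule F B),
          x = ρ v d - d} := by
        apply Submodule.span_le.2
        rintro _ ⟨w, hw, c, rfl⟩
        apply Submodule.subset_span
        refine ⟨⟨w, hw⟩, c, Submodule.mem_top, ?_⟩
        rw [hρ, sub_mul, one_mul]
      exact h2 (iw_mulR h W hx m))
  obtain ⟨y, hy⟩ := key (Submodule.mem_top (x := (1 : B)))
  have hy1 : (1 + x) * y = 1 := hy
  refine ⟨y, hy1, ?_⟩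
  have hsur : Function.Surjective (LinearMap.mulLeft F (1 + x)) := by
    intro b
    refine ⟨y * b, ?_⟩
    change (1 + x) * (y * b) = b
    rw [← mul_assoc, hy1, one_mul]
  have hinj := LinearMap.injective_iff_surjective.2 hsur
  apply hinj
  change (1 + x) * (y * (1 + x)) = (1 + x) * 1
  rw [← mul_assoc, hy1, one_mul, mul_one]

/-- `d` with `d w' = d` is in the ideal -/
theorem dmem (ℓ : ℕ) [Fact ℓ.Prime] {F V B K : Type} [Field F] [CharP F ℓ] [CommGroup V]
    [Fintype V] [Fintype K] [Ring B] [Algebra F B] (h : V →* B) (W : Subgroup V)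
    (hV : IsPGroup ℓ V) (lam : B →ₗ[F] F) (x y : K → B) (hRF : RF F h lam x y) (w' : V)
    (hw : w' ∈ W) (hw1 : w' ≠ 1) (d : B) (hd : d * h w' = d)
    (hI : ∀ b : B, ∀ z ∈ iw F h W, b * z ∈ iw F h W) : d ∈ iw F h W := by
  have hd' : d * h w'⁻¹ = d := by
    calc d * h w'⁻¹ = d * h w' * h w'⁻¹ := by rw [hd]
      _ = d := by rw [mul_assoc, ← map_mul, mul_inv_cancel, map_one, mul_one]
  have h1 := hRF.e1 d
  rw [← h1]
  apply Submodule.sum_mem
  intro k _
  have h2 : ∑ v, lam (h v⁻¹ * y k * d) • (x k * h v) =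
      x k * ∑ v, lam (h v⁻¹ * y k * d) • h v := by
    rw [Finset.mul_sum]
    exact Finset.sum_congr rfl fun v _ => (mul_smul_comm _ _ _).symm
  rw [h2]
  apply hI
  apply gsum ℓ h W hV w' hw hw1
  intro v
  have h3 : h (v * w')⁻¹ * y k * d = h w'⁻¹ * (h v⁻¹ * y k * d) := by
    rw [mul_inv_rev, map_mul h]
    simp only [mul_assoc]
  rw [h3, hRF.sym, mul_assoc, hd']

theorem lnl (hLnp : LnpStmt) (hLnt : LntStmt) (hNak : NakStmt) : LnlStmt := by
  classical
  intro ℓ _ F V E A B _ _ _ _ _ _ _ _ _ φ α W N hV hW hL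
  obtain ⟨hfd, hPer, hUni, lam, K, _, x, y, hRF, hlam⟩ := hLnp ℓ F V E A B φ α W N hV hW hL
  have hfM : Finite (MulAut W) := inferInstance
  have : Fintype (MulAut W) := Fintype.ofFinite _
  have hcw : ∀ a ∈ FxR (cw F α) ⊤, a ∈ FxR (bw F α) (twW W (1 : MulAut W)) := by
    intro a ha
    rw [mem_cw] at ha
    rw [mem_tw]
    intro w
    exact ha w (Subgroup.mem_top _)
  -- products with the elements of `V`
  have hL1 : ∀ (v : V) (ε : MulAut W) (a : A), a ∈ FxR (bw F α) (twW W ε) →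
      α v * a ∈ FxR (bw F α) (twW W ε) := by
    intro v ε a ha
    rw [mem_tw] at ha ⊢
    intro w
    rw [mul_assoc, ← ha w, ← mul_assoc, ← mul_assoc, ← map_mul, ← map_mul, mul_comm]
  have hR1 : ∀ (v : V) (ε : MulAut W) (a : A), a ∈ FxR (bw F α) (twW W ε) →
      a * α v ∈ FxR (bw F α) (twW W ε) := by
    intro v ε a ha
    rw [mem_tw] at ha ⊢
    intro w
    rw [mul_assoc, ← map_mul, mul_comm v, map_mul, ← mul_assoc, ← mul_assoc, ha w]
  have hL2 : ∀ (v : V) (ε : MulAut W) (a : A), a ∈ FxR (bw F α) (twW W ε) →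
      N.nwh v * N.β ε a = N.β ε (α v * a) := by
    intro v ε a ha
    have h1 := N.mul 1 ε (α v) (al_mem_tw v W) a ha
    rw [one_mul] at h1
    rw [N.nwh_apply, h1]
  have hR2 : ∀ (v : V) (ε : MulAut W) (a : A), a ∈ FxR (bw F α) (twW W ε) →
      N.β ε a * N.nwh v = N.β ε (a * α v) := by
    intro v ε a ha
    have h1 := N.mul ε 1 a ha (α v) (al_mem_tw v W)
    rw [mul_one] at h1
    rw [N.nwh_apply, h1]
  have hT : ∀ (w : W) (ε : MulAut W) (a : A), a ∈ FxR (bw F α) (twW W ε) →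
      N.nwh (ε w) * N.β ε a = N.β ε a * N.nwh w := by
    intro w ε a ha
    rw [hL2 _ ε a ha, hR2 _ ε a ha, (mem_tw α W ε).1 ha w]
  -- the ideal is two-sided
  have hI : ∀ b : B, ∀ z ∈ iw F N.nwh W, b * z ∈ iw F N.nwh W := by
    intro b
    obtain ⟨f, hf, hb⟩ := N.spn b
    rw [finsum_eq_sum_of_fintype] at hb
    intro z hz
    rw [← hb, Finset.sum_mul]
    apply Submodule.sum_mem
    intro ε _
    have key : iw F N.nwh W ≤ (iw F N.nwh W).comap (LinearMap.mulLeft F (N.β ε (f ε))) := by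
      apply Submodule.span_le.2
      rintro _ ⟨w, hw, c, rfl⟩
      apply Submodule.subset_span
      refine ⟨(ε ⟨w, hw⟩ : W), (ε ⟨w, hw⟩).2, N.β ε (f ε) * c, ?_⟩
      change N.β ε (f ε) * ((N.nwh w - 1) * c) = _
      have h1 := hT ⟨w, hw⟩ ε (f ε) (hf ε)
      change N.nwh (ε ⟨w, hw⟩) * N.β ε (f ε) = N.β ε (f ε) * N.nwh w at h1
      have h2 : N.β ε (f ε) * (N.nwh w - 1) = (N.nwh (ε ⟨w, hw⟩) - 1) * N.β ε (f ε) := by
        rw [mul_sub, sub_mul, ← h1, mul_one, one_mul]
      rw [← mul_assoc, ← mul_assoc, h2]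
    exact key hz
  -- the decomposition
  have hdec : ∀ d : B, (∀ v, N.nwh v * d = d * N.nwh v) →
      ∃ a ∈ FxR (cw F α) ⊤, d - N.β 1 a ∈ iw F N.nwh W := by
    intro d hd
    obtain ⟨f, hf, hfd'⟩ := N.spn d
    have hcomp : ∀ ε v, N.nwh v * N.β ε (f ε) = N.β ε (f ε) * N.nwh v := by
      intro ε v
      have h1 : ∑ᶠ ε, N.β ε (α v * f ε - f ε * α v) = 0 := by
        rw [finsum_eq_sum_of_fintype]
        rw [finsum_eq_sum_of_fintype] at hfd'
        have h2 : ∀ ε, N.β ε (α v * f ε - f ε * α v) =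
            N.nwh v * N.β ε (f ε) - N.β ε (f ε) * N.nwh v := by
          intro ε
          rw [map_sub, hL2 v ε _ (hf ε), hR2 v ε _ (hf ε)]
        rw [Finset.sum_congr rfl (fun ε _ => h2 ε), Finset.sum_sub_distrib, ← Finset.mul_sum,
          ← Finset.sum_mul, hfd', hd v, sub_self]
      have h3 := N.ind (fun ε => α v * f ε - f ε * α v)
        (fun ε => Submodule.sub_mem _ (hL1 v ε _ (hf ε)) (hR1 v ε _ (hf ε))) h1 ε
      change N.β ε (α v * f ε - f ε * α v) = 0 at h3
      rw [map_sub, ← hL2 v ε _ (hf ε), ← hR2 v ε _ (hf ε)] at h3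
      exact sub_eq_zero.1 h3
    obtain ⟨a', ha', ha1⟩ := hLnt ℓ F V E A B φ α W N hV hL.per (f 1) (hf 1) (by
      rw [mem_cw]
      intro v _
      exact hcomp 1 v)
    refine ⟨a', ha', ?_⟩
    rw [ha1, ← hfd', finsum_eq_sum_of_fintype,
      ← Finset.add_sum_erase Finset.univ (fun ε => N.β ε (f ε)) (Finset.mem_univ 1),
      add_sub_cancel_left]
    apply Submodule.sum_mem
    intro ε hε
    have hε1 : ε ≠ 1 := Finset.ne_of_mem_erase hε
    obtain ⟨w, hw⟩ : ∃ w : W, ε w ≠ w := by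
      by_contra hcon
      exact hε1 (MulEquiv.ext fun w => not_not.1 fun hne => hcon ⟨w, hne⟩)
    have h4 : N.nwh (ε w) * N.β ε (f ε) = N.nwh w * N.β ε (f ε) := by
      rw [hT w ε _ (hf ε), hcomp ε]
    have h5 : N.β ε (f ε) * N.nwh (ε w) = N.β ε (f ε) * N.nwh w := by
      rw [← hcomp ε, ← hcomp ε, h4]
    apply dmem ℓ N.nwh W hV lam x y hRF ((ε w : V) * (w : V)⁻¹)
      (W.mul_mem (ε w).2 (W.inv_mem w.2)) _ _ _ hI
    · intro h6
      exact hw (Subtype.ext (mul_inv_eq_one.1 h6))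
    · rw [map_mul, ← mul_assoc, h5, mul_assoc, ← map_mul, mul_inv_cancel, map_one, mul_one]
  -- units
  have hun : ∀ d : B, (∀ v, N.nwh v * d = d * N.nwh v) → ∀ a ∈ FxR (cw F α) ⊤,
      d - N.β 1 a ∈ iw F N.nwh W → (∃ c ∈ FxR (cw F α) ⊤, a * c = 1 ∧ c * a = 1) →
      ∃ z, d * z = 1 ∧ z * d = 1 := by
    rintro d hd a ha hda ⟨c, hc, hac, hca⟩
    have h1 : N.β 1 a * N.β 1 c = 1 := by
      have := N.mul 1 1 a (hcw a ha) c (hcw c hc)
      rw [mul_one, hac, N.one] at this
      exact this.symm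
    have h2 : N.β 1 c * N.β 1 a = 1 := by
      have := N.mul 1 1 c (hcw c hc) a (hcw a ha)
      rw [mul_one, hca, N.one] at this
      exact this.symm
    have hvc : ∀ v, N.nwh v * N.β 1 c = N.β 1 c * N.nwh v := by
      intro v
      rw [hL2 v 1 c (hcw c hc), hR2 v 1 c (hcw c hc), mem_cw.1 hc v (Subgroup.mem_top _)]
    have hva : ∀ v, N.nwh v * N.β 1 a = N.β 1 a * N.nwh v := by
      intro v
      rw [hL2 v 1 a (hcw a ha), hR2 v 1 a (hcw a ha), mem_cw.1 ha v (Subgroup.mem_top _)]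
    have h3 : N.β 1 c * (d - N.β 1 a) ∈ iw F N.nwh W := iw_mulL N.nwh W hda _ hvc
    obtain ⟨u, hu1, hu2⟩ := unt hNak ℓ N.nwh W hV h3 (by
      intro v
      rw [← mul_assoc, hvc, mul_assoc, mul_assoc, mul_sub, sub_mul, hd, hva])
    have h4 : d = N.β 1 a * (1 + N.β 1 c * (d - N.β 1 a)) := by
      rw [mul_add, mul_one, ← mul_assoc, h1, one_mul, add_sub_cancel]
    refine ⟨u * N.β 1 c, ?_, ?_⟩
    · rw [h4, mul_assoc, ← mul_assoc _ u, hu1, one_mul, h1]
    · have h5 : u * N.β 1 c * (N.β 1 a * (1 + N.β 1 c * (d - N.β 1 a))) = 1 := by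
        rw [mul_assoc, ← mul_assoc (N.β 1 c) (N.β 1 a), h2, one_mul, hu2]
      rw [← h4] at h5
      exact h5
  have hcz : ∀ z : B, z ∈ Cz F N.nwh ⊤ ↔ ∀ v, N.nwh v * z = z * N.nwh v := by
    intro z
    unfold Cz
    rw [Subalgebra.mem_centralizer_iff]
    constructor
    · intro h v
      exact h _ ⟨v, Subgroup.mem_top v, rfl⟩
    · rintro h _ ⟨v, _, rfl⟩
      exact h v
  have hcza : ∀ z : A, z ∈ Cz F α ⊤ ↔ z ∈ FxR (cw F α) ⊤ := by
    intro z
    unfold Cz
    rw [Subalgebra.mem_centralizer_iff, mem_cw]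
    constructor
    · intro h v hv
      exact h _ ⟨v, hv, rfl⟩
    · rintro h _ ⟨v, hv, rfl⟩
      exact h v hv
  have hlift : ∀ d : Cz F N.nwh ⊤, (∃ z, (d : B) * z = 1 ∧ z * (d : B) = 1) → IsUnit d := by
    rintro d ⟨z, hz1, hz2⟩
    have hz : z ∈ Cz F N.nwh ⊤ := by
      rw [hcz]
      intro v
      have hdv := (hcz d).1 d.2 v
      calc N.nwh v * z = (z * (d : B)) * N.nwh v * z := by rw [hz2, one_mul]
        _ = z * ((d : B) * N.nwh v) * z := by rw [mul_assoc z]
        _ = z * (N.nwh v * (d : B)) * z := by rw [hdv]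
        _ = z * N.nwh v * ((d : B) * z) := by simp only [mul_assoc]
        _ = z * N.nwh v := by rw [hz1, mul_one]
    exact ⟨⟨d, ⟨z, hz⟩, Subtype.ext hz1, Subtype.ext hz2⟩, rfl⟩
  have hloc := hL.loc
  have hnt : Nontrivial B := by
    by_contra hcon
    rw [not_nontrivial_iff_subsingleton] at hcon
    exact hlam (by rw [Subsingleton.elim (∑ v, N.nwh v) 0, map_zero])
  refine { toNontrivial := ?_, isUnit_or_isUnit_of_add_one := ?_ }
  · refine ⟨⟨0, 1, ?_⟩⟩
    intro h
    exact zero_ne_one (congrArg Subtype.val h)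
  · intro d e hde
    have hdc := (hcz d).1 d.2
    have hec := (hcz e).1 e.2
    obtain ⟨a, ha, hda⟩ := hdec d hdc
    have haz : a ∈ Cz F α ⊤ := (hcza a).2 ha
    have ha2 : (1 - a) ∈ Cz F α ⊤ := (Cz F α ⊤).sub_mem (Cz F α ⊤).one_mem haz
    have hsum : (⟨a, haz⟩ : Cz F α ⊤) + ⟨1 - a, ha2⟩ = 1 := Subtype.ext (add_sub_cancel a 1)
    rcases hloc.isUnit_or_isUnit_of_add_one hsum with hu | hu
    · left
      apply hlift
      obtain ⟨u, hu⟩ := hu
      refine hun d hdc a ha hda ⟨((u⁻¹ : (Cz F α ⊤)ˣ) : Cz F α ⊤),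
        (hcza _).1 ((u⁻¹ : (Cz F α ⊤)ˣ) : Cz F α ⊤).2, ?_, ?_⟩
      · have h1 := congrArg Subtype.val u.mul_inv
        rw [hu] at h1
        exact h1
      · have h1 := congrArg Subtype.val u.inv_mul
        rw [hu] at h1
        exact h1
    · right
      apply hlift
      obtain ⟨u, hu⟩ := hu
      have he : (e : B) = 1 - (d : B) := by
        have := congrArg Subtype.val hde
        change (d : B) + (e : B) = 1 at this
        rw [← this, add_sub_cancel_left]
      refine hun e hec (1 - a) ((hcza _).1 ha2) ?_ ⟨((u⁻¹ : (Cz F α ⊤)ˣ) : Cz F α ⊤),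
        (hcza _).1 ((u⁻¹ : (Cz F α ⊤)ˣ) : Cz F α ⊤).2, ?_, ?_⟩
      · have h2 : (e : B) - N.β 1 (1 - a) = -((d : B) - N.β 1 a) := by
          rw [he, map_sub, N.one]
          abel
        rw [h2]
        exact Submodule.neg_mem _ hda
      · have h1 := congrArg Subtype.val u.mul_inv
        rw [hu] at h1
        exact h1
      · have h1 := congrArg Subtype.val u.inv_mul
        rw [hu] at h1
        exact h1

end Pool.Agent.PSS.S5.H62
end
end -- Pool.Agent.Helper62_PSS.LNL

section -- Pool.Agent.Helper68_PSS.BPT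

/-!
# Squad PSS, block S5, row BPT: every block contains a local idempotent
-/

open scoped BigOperators

noncomputable section

namespace Pool.Agent.PSS.H68

open Pool.Agent.PSS.S5
open Pool.Agent.PFC (Cz)

section fx

variable {F V A : Type} [Field F] [CommGroup V] [Ring A] [Algebra F A]

theorem mem_fx (α : V →* A) (a : A) :
    a ∈ FxR (cw F α) ⊤ ↔ ∀ v, α v * a = a * α v := by
  have key : ∀ v, cw F α v a = α v * a * α v⁻¹ := by
    intro v
    change α v * (a * α v⁻¹) = _
    rw [mul_assoc]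
  constructor
  · intro h v
    have h1 : cw F α v a = a := h v trivial
    rw [key] at h1
    calc α v * a = α v * a * α v⁻¹ * α v := by
          rw [mul_assoc (α v * a), ← map_mul, inv_mul_cancel, map_one, mul_one]
      _ = a * α v := by rw [h1]
  · intro h v _
    change cw F α v a = a
    rw [key, h, mul_assoc, ← map_mul, mul_inv_cancel, map_one, mul_one]

theorem mem_cz (α : V →* A) (a : A) :
    a ∈ Cz F α ⊤ ↔ ∀ v, α v * a = a * α v := by
  constructor
  · intro h v
    exact Subalgebra.mem_centralizer_iff F |>.mp h (α v) ⟨v, trivial, rfl⟩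
  · intro h
    refine (Subalgebra.mem_centralizer_iff F).mpr ?_
    rintro _ ⟨v, _, rfl⟩
    exact h v

theorem mem_fx_cz (α : V →* A) (a : A) : a ∈ FxR (cw F α) ⊤ ↔ a ∈ Cz F α ⊤ := by
  rw [mem_fx, mem_cz]

theorem bkr_bot (α : V →* A) (a : A) (h : a ∈ BKR (cw F α) ⊥) : a = 0 := by
  have h1 : BKR (cw F α) (⊥ : Subgroup V) = ⊥ := by
    unfold BKR
    rw [Submodule.span_eq_bot]
    rintro n ⟨P', S, m, hlt, _⟩
    exact absurd hlt not_lt_bot
  rw [h1] at h
  exact (Submodule.mem_bot F).mp h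

/-- the corner of the centraliser -/
def Dj (F : Type) {V A : Type} [Field F] [CommGroup V] [Ring A] [Algebra F A] (α : V →* A)
    (j : A) : Submodule F A where
  carrier := {x | x ∈ FxR (cw F α) ⊤ ∧ j * x * j = x}
  add_mem' := by
    rintro a b ⟨h1, h2⟩ ⟨h3, h4⟩
    exact ⟨Submodule.add_mem _ h1 h3, by rw [mul_add, add_mul, h2, h4]⟩
  zero_mem' := ⟨Submodule.zero_mem _, by rw [mul_zero, zero_mul]⟩
  smul_mem' := by
    rintro c a ⟨h1, h2⟩
    exact ⟨Submodule.smul_mem _ _ h1, by rw [mul_smul_comm, smul_mul_assoc, h2]⟩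

end fx

theorem bpt (hRbk : RbkStmt) (hFit : FitStmt) (hZrt : S0.ZrtStmt) (hBki : S0.BkiStmt) :
    BptStmt := by
  intro ℓ _ F V E A K _ _ _ _ _ _ _ _ φ α lam x y u hp hCl hRF hu b hb
  haveI := hCl.fin
  classical
  have hC1 : (1 : A) ∈ FxR (cw F α) ⊤ := (mem_fx α 1).mpr (fun v => by rw [mul_one, one_mul])
  have hcen : ∀ z : A, (∀ a, z * a = a * z) → z ∈ FxR (cw F α) ⊤ := fun z hz =>
    (mem_fx α z).mpr (fun v => (hz (α v)).symm)
  have hmul : ∀ a c : A, a ∈ FxR (cw F α) ⊤ → c ∈ FxR (cw F α) ⊤ → a * c ∈ FxR (cw F α) ⊤ := by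
    intro a c ha hc
    rw [mem_fx_cz] at ha hc ⊢
    exact Subalgebra.mul_mem _ ha hc
  -- the relative trace
  set r : A → A := fun a => ∑ k, x k * a * y k with hr
  have hrz : ∀ z a : A, (∀ c, z * c = c * z) → r (z * a) = z * r a := by
    intro z a hz
    simp only [hr]
    rw [Finset.mul_sum]
    refine Finset.sum_congr rfl (fun k _ => ?_)
    rw [← mul_assoc (x k), ← hz (x k)]
    simp only [mul_assoc]
  have hradd : ∀ a c : A, r (a + c) = r a + r c := by
    intro a c
    simp only [hr]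
    rw [← Finset.sum_add_distrib]
    refine Finset.sum_congr rfl (fun k _ => ?_)
    rw [mul_add, add_mul]
  have hrc : ∀ a ∈ FxR (cw F α) ⊤, ∀ c : A, c * r a = r a * c := fun a ha c =>
    hZrt F V A K α lam x y hRF a ha c
  have hr1 : r 1 = ∑ k, x k * y k := by
    simp only [hr, mul_one]
  have hζ : ∀ c : A, c * r 1 = r 1 * c := hrc 1 hC1
  have hu1 : u * r 1 = 1 := by rw [hr1]; exact hu
  have hu2 : r 1 * u = 1 := by rw [← hζ, hu1]
  have huc : ∀ c : A, u * c = c * u := by
    intro c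
    calc u * c = u * c * (r 1 * u) := by rw [hu2, mul_one]
      _ = u * (c * r 1) * u := by simp only [mul_assoc]
      _ = (u * r 1) * (c * u) := by rw [hζ]; simp only [mul_assoc]
      _ = c * u := by rw [hu1, one_mul]
  -- the induction
  have main : ∀ (n : ℕ) (j z : A), Module.finrank F (Dj F α j) = n → j ∈ FxR (cw F α) ⊤ →
      j * j = j → b * j = j → (∀ a, z * a = a * z) → r (z * j) = b →
      ∃ j' z' : A, Loi F α j' ∧ b * j' = j' ∧ (∀ a, z' * a = a * z') ∧ r (z' * j') = b := by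
    intro n
    induction n using Nat.strong_induction_on with
    | _ n ih =>
      intro j z hn hjC hjj hbj hz hrj
      have hnz : j ∉ BKR (cw F α) ⊤ := by
        intro hjK
        have h1 : z * j ∈ BKR (cw F α) ⊤ := (hBki F V A α ⊤ z (hcen z hz) j hjK).1
        have h2 : r (z * j) ∈ BKR (cw F α) ⊤ :=
          hRbk ℓ F V E A K φ α lam x y hp hCl.per hRF (z * j) h1
        rw [hrj] at h2
        have h3 : b ∈ BKR (cw F α) (⊥ : Subgroup V) := by
          refine hCl.blk ⊥ b (hcen b hb.cen) ?_ ?_ h2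
          · rw [hb.id, sub_self]
            exact Submodule.zero_mem _
          · intro a _
            rw [hb.cen a, sub_self]
            exact Submodule.zero_mem _
        exact hb.nz (bkr_bot α b h3)
      by_cases hloc : ∀ x ∈ FxR (cw F α) ⊤, IsNilpotent (j * x * j) ∨ ∃ y ∈ FxR (cw F α) ⊤,
          j * x * j * (j * y * j) = j ∧ j * y * j * (j * x * j) = j
      · exact ⟨j, z, ⟨hjC, hjj, hnz, hloc⟩, hbj, hz, hrj⟩
      · push Not at hloc
        obtain ⟨x0, hx0, hx1, hx2⟩ := hloc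
        obtain ⟨j1, hj1C, hj1j1, hjj1, hj1j, hj10, hj1ne⟩ :=
          hFit F A (Cz F α ⊤) j x0 ((mem_fx_cz α j).mp hjC) ((mem_fx_cz α x0).mp hx0) hjj hx1
            (by
              rintro ⟨y0, hy0, hy1, hy2⟩
              exact hx2 y0 ((mem_fx_cz α y0).mpr hy0) hy1 hy2)
        rw [← mem_fx_cz] at hj1C
        have hzC := hcen z hz
        set j2 := j - j1 with hj2
        have hj2C : j2 ∈ FxR (cw F α) ⊤ := Submodule.sub_mem _ hjC hj1C
        have hj2j2 : j2 * j2 = j2 := by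
          rw [hj2, sub_mul, mul_sub, mul_sub, hjj, hjj1, hj1j, hj1j1]
          abel
        have hjj2 : j * j2 = j2 := by rw [hj2, mul_sub, hjj, hjj1]
        have hj2j : j2 * j = j2 := by rw [hj2, sub_mul, hjj, hj1j]
        have hj2ne : j2 ≠ j := by
          intro h
          rw [hj2, sub_eq_self] at h
          exact hj10 h
        -- reduction to one of the two idempotents
        have red : ∀ j' : A, j' ∈ FxR (cw F α) ⊤ → j' * j' = j' → j * j' = j' → j' * j = j' →
            j' ≠ j → (∃ z', (∀ a, z' * a = a * z') ∧ r (z * j') * z' = b) →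
            ∃ j'' z'' : A, Loi F α j'' ∧ b * j'' = j'' ∧ (∀ a, z'' * a = a * z'') ∧
              r (z'' * j'') = b := by
          rintro j' h1 h2 h3 h4 h5 ⟨z', h6, h7⟩
          have hlt : Dj F α j' < Dj F α j := by
            refine lt_of_le_of_ne ?_ ?_
            · rintro a ⟨ha1, ha2⟩
              refine ⟨ha1, ?_⟩
              rw [← ha2]
              calc j * (j' * a * j') * j = (j * j') * a * (j' * j) := by simp only [mul_assoc]
                _ = j' * a * j' := by rw [h3, h4]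
            · intro h
              have h8 : j ∈ Dj F α j := ⟨hjC, by rw [hjj, hjj]⟩
              rw [← h] at h8
              have h9 : j' * j * j' = j := h8.2
              rw [h4, h2] at h9
              exact h5 h9
          have hlt2 : Module.finrank F (Dj F α j') < n := by
            rw [← hn]
            exact Submodule.finrank_lt_finrank_of_lt hlt
          refine ih _ hlt2 j' (z' * z) rfl h1 h2 ?_ ?_ ?_
          · rw [← h3, ← mul_assoc, hbj]
          · intro a
            rw [mul_assoc, hz a, ← mul_assoc, h6 a, mul_assoc]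
          · rw [mul_assoc, hrz z' _ h6, h6, h7]
        have hb1 : ∀ j' : A, j' ∈ FxR (cw F α) ⊤ → j * j' = j' → r (z * j') * b = r (z * j') := by
          intro j' _ h3
          have h4 : b * j' = j' := by rw [← h3, ← mul_assoc, hbj]
          rw [← hb.cen, ← hrz b _ hb.cen, ← mul_assoc, ← hz b, mul_assoc, h4]
        have hz1c : ∀ a, r (z * j1) * a = a * r (z * j1) := fun a =>
          (hrc (z * j1) (hmul z j1 hzC hj1C) a).symm
        have hz2c : ∀ a, r (z * j2) * a = a * r (z * j2) := fun a =>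
          (hrc (z * j2) (hmul z j2 hzC hj2C) a).symm
        have hsum : r (z * j1) + r (z * j2) = b := by
          rw [← hradd, ← mul_add, hj2, add_sub_cancel, hrj]
        rcases hb.loc _ hz1c with h1 | ⟨z', h6, h7⟩
        · rcases hb.loc _ hz2c with h2 | ⟨z', h6, h7⟩
          · exfalso
            rw [hb1 j1 hj1C hjj1] at h1
            rw [hb1 j2 hj2C hjj2] at h2
            have h3 : IsNilpotent (r (z * j1) + r (z * j2)) :=
              Commute.isNilpotent_add (hz1c _) h1 h2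
            rw [hsum] at h3
            obtain ⟨m, hm⟩ := h3
            have h4 : IsIdempotentElem b := hb.id
            rcases Nat.eq_zero_or_pos m with h0 | h0
            · rw [h0, pow_zero] at hm
              have h5 : b = 0 := by rw [← mul_one b, hm, mul_zero]
              exact hb.nz h5
            · rw [h4.pow_eq h0.ne'] at hm
              exact hb.nz hm
          · rw [hb1 j2 hj2C hjj2] at h7
            exact red j2 hj2C hj2j2 hjj2 hj2j hj2ne ⟨z', h6, h7⟩
        · rw [hb1 j1 hj1C hjj1] at h7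
          exact red j1 hj1C hj1j1 hjj1 hj1j hj1ne ⟨z', h6, h7⟩
  have hub : r (u * b) = b := by
    rw [hrz u b huc, ← mul_one b, hrz b 1 hb.cen, ← mul_assoc, huc b, mul_assoc, hu1, mul_one]
  obtain ⟨j, z, hj, hbj, hz, hrj⟩ := main _ b u rfl (hcen b hb.cen) hb.id hb.id huc hub
  refine ⟨j, z, hj, hbj, hcen z hz, ?_⟩
  change r (j * z * j) = b
  rw [← hz j, mul_assoc, hj.id]
  exact hrj

end Pool.Agent.PSS.H68
end
end -- Pool.Agent.Helper68_PSS.BPT

section -- Pool.Agent.Helper68_PSS.COE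

/-!
# Squad PSS, block S5, row COE: existence of corners
-/

noncomputable section

namespace Pool.Agent.PSS.H68

open Pool.Agent.PSS.S5

section corner

variable {F A : Type} [Field F] [Ring A] [Algebra F A]

/-- the corner `j A j` as a subspace -/
def crn (F : Type) {A : Type} [Field F] [Ring A] [Algebra F A] (j : A) : Submodule F A where
  carrier := {a | j * a = a ∧ a * j = a}
  add_mem' := by
    rintro a b ⟨h1, h2⟩ ⟨h3, h4⟩
    exact ⟨by rw [mul_add, h1, h3], by rw [add_mul, h2, h4]⟩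
  zero_mem' := ⟨mul_zero _, zero_mul _⟩
  smul_mem' := by
    rintro c a ⟨h1, h2⟩
    exact ⟨by rw [mul_smul_comm, h1], by rw [smul_mul_assoc, h2]⟩

theorem crn_mul {j a b : A} (ha : a ∈ crn F j) (hb : b ∈ crn F j) : a * b ∈ crn F j :=
  ⟨by rw [← mul_assoc, ha.1], by rw [mul_assoc, hb.2]⟩

/-- the ring structure of the corner -/
@[reducible] def crnRing (j : A) (hj : j * j = j) : Ring (crn F j) :=
  { (inferInstance : AddCommGroup (crn F j)) with
    mul := fun a b => ⟨a.1 * b.1, crn_mul a.2 b.2⟩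
    one := ⟨j, hj, hj⟩
    mul_assoc := fun a b c => Subtype.ext (mul_assoc a.1 b.1 c.1)
    one_mul := fun a => Subtype.ext a.2.1
    mul_one := fun a => Subtype.ext a.2.2
    left_distrib := fun a b c => Subtype.ext (mul_add a.1 b.1 c.1)
    right_distrib := fun a b c => Subtype.ext (add_mul a.1 b.1 c.1)
    zero_mul := fun a => Subtype.ext (zero_mul a.1)
    mul_zero := fun a => Subtype.ext (mul_zero a.1) }

end corner

theorem coe : CoeStmt := by
  intro F V A _ _ _ _ α j hj hc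
  letI := crnRing (F := F) j hj
  letI : Algebra F (crn F j) := Algebra.ofModule
    (fun r x y => Subtype.ext (smul_mul_assoc r x.1 y.1))
    (fun r x y => Subtype.ext (mul_smul_comm r x.1 y.1))
  have hmem : ∀ v, α v * j ∈ crn F j := by
    intro v
    exact ⟨by rw [← mul_assoc, ← hc, mul_assoc, hj], by rw [mul_assoc, hj]⟩
  let αY : V →* crn F j :=
    { toFun := fun v => ⟨α v * j, hmem v⟩
      map_one' := Subtype.ext (by
        change α 1 * j = j
        rw [map_one, one_mul])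
      map_mul' := fun u v => Subtype.ext (by
        change α (u * v) * j = α u * j * (α v * j)
        rw [map_mul, mul_assoc (α u), mul_assoc (α u), ← mul_assoc j, ← hc v,
          mul_assoc (α v), hj]) }
  refine ⟨crn F j, inferInstance, inferInstance, αY, (crn F j).subtype, ?_⟩
  exact
    { inj := Subtype.coe_injective
      mul := fun a b => rfl
      one := rfl
      ran := fun a h1 h2 => ⟨⟨a, h1, h2⟩, rfl⟩
      cov := fun v => rfl }

end Pool.Agent.PSS.H68
end
end -- Pool.Agent.Helper68_PSS.COE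

section -- Pool.Agent.Helper6_PSS.TPJ

/-!
# Squad PSS, block S5, row TPJ (helper6): the Brauer quotient of the corner, and the form
-/

open scoped BigOperators TensorProduct

noncomputable section

namespace Pool.Agent.PSS.S5.H6

open Pool.Agent.PFC (tw IsTv)
open Pool.Agent.PSS.S0 (IsBQ BqxStmt BpuStmt MckStmt ZrtStmt)

section aux

variable {F V A B : Type} [Field F] [CommGroup V] [Ring A] [Algebra F A] [Ring B] [Algebra F B]

theorem mem_fx (α : V →* A) (Q : Subgroup V) (a : A) :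
    a ∈ FxR (cw F α) Q ↔ ∀ v ∈ Q, α v * a = a * α v := by
  have h1 : ∀ v, cw F α v a = α v * (a * α v⁻¹) := fun _ => rfl
  have h2 : ∀ v, α v⁻¹ * α v = 1 := fun v => by rw [← map_mul, inv_mul_cancel, map_one]
  have h3 : ∀ v, α v * α v⁻¹ = 1 := fun v => by rw [← map_mul, mul_inv_cancel, map_one]
  constructor
  · intro h v hv
    have h4 : α v * (a * α v⁻¹) = a := h v hv
    calc α v * a = α v * (a * α v⁻¹) * α v := by rw [mul_assoc, mul_assoc a, h2, mul_one]
      _ = a * α v := by rw [h4]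
  · intro h v hv
    rw [h1, ← mul_assoc, h v hv, mul_assoc, h3, mul_one]

theorem fx_mul (α : V →* A) {Q : Subgroup V} {a b : A} (ha : a ∈ FxR (cw F α) Q)
    (hb : b ∈ FxR (cw F α) Q) : a * b ∈ FxR (cw F α) Q := by
  rw [mem_fx] at ha hb ⊢
  intro v hv
  rw [← mul_assoc, ha v hv, mul_assoc, hb v hv, mul_assoc]

theorem fx_one (α : V →* A) (Q : Subgroup V) : (1 : A) ∈ FxR (cw F α) Q := by
  rw [mem_fx]
  intro v _
  rw [mul_one, one_mul]

theorem fx_al (α : V →* A) (Q : Subgroup V) (v : V) : α v ∈ FxR (cw F α) Q := by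
  rw [mem_fx]
  intro u _
  rw [← map_mul, ← map_mul, mul_comm]

/-- the Brauer map on the centraliser, a linear map -/
def bl {α : V →* A} {Q : Subgroup V} {αB : V →* B} {β : A → B} (h : IsBQ F α Q αB β) :
    FxR (cw F α) Q →ₗ[F] B where
  toFun := fun a => β a
  map_add' := fun a b => h.add a a.2 b b.2
  map_smul' := fun r a => h.smul r a a.2

theorem be_sum {α : V →* A} {Q : Subgroup V} {αB : V →* B} {β : A → B} (h : IsBQ F α Q αB β)
    {ι : Type} (s : Finset ι) (f : ι → A) (hf : ∀ i, f i ∈ FxR (cw F α) Q) :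
    β (∑ i ∈ s, f i) = ∑ i ∈ s, β (f i) := by
  have h1 : β (∑ i ∈ s, f i) = bl h (∑ i ∈ s, ⟨f i, hf i⟩) := by
    change _ = β ((∑ i ∈ s, (⟨f i, hf i⟩ : FxR (cw F α) Q) : FxR (cw F α) Q) : A)
    rw [AddSubmonoidClass.coe_finsetSum]
  rw [h1, map_sum]
  rfl

theorem be_sub {α : V →* A} {Q : Subgroup V} {αB : V →* B} {β : A → B} (h : IsBQ F α Q αB β)
    {a b : A} (ha : a ∈ FxR (cw F α) Q) (hb : b ∈ FxR (cw F α) Q) :
    β (a - b) = β a - β b := by
  have h1 : bl h (⟨a, ha⟩ - ⟨b, hb⟩) = bl h ⟨a, ha⟩ - bl h ⟨b, hb⟩ := map_sub _ _ _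
  exact h1

end aux

theorem tpj (tpl : TplStmt) (lbr : LbrStmt) (mck : MckStmt) (bpu : BpuStmt) (bqx : BqxStmt)
    (zrt : ZrtStmt) : TpjStmt := by
  classical
  intro ℓ _ F V E A K _ _ _ _ _ _ _ _ _ _ φ α lam x y u j hV hE hC hRF hu hj
  obtain ⟨B, _, _, αB, β, hB⟩ := bqx F V A α ⊤
  have hl0 : (ℓ : F) = 0 := CharP.cast_eq_zero F ℓ
  obtain ⟨E1, hE1⟩ : ∃ E1 : Subgroup E, ∀ e, e ∈ E1 ↔ ∀ q ∈ (⊤ : Subgroup V), φ e q = q :=
    ⟨{  carrier := {e | ∀ q ∈ (⊤ : Subgroup V), φ e q = q}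
        one_mem' := fun q _ => by rw [map_one]; rfl
        mul_mem' := by
          intro a b ha hb q hq
          rw [map_mul, MulAut.mul_apply, hb q hq, ha q hq]
        inv_mem' := by
          intro a ha q hq
          have h1 : φ a q = q := ha q hq
          have h2 : (φ a)⁻¹ (φ a q) = q := MulAut.inv_apply_self _ _ _
          rw [h1] at h2
          rw [map_inv, h2] }, fun e => Iff.rfl⟩
  obtain ⟨-, -, lamB, KB, _, xB, yB, hRB, hlB⟩ := bpu ℓ F V E A B K φ α ⊤ αB β lam x y E1 hl0 hV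
    hC.per hC.uni hRF hB hE1
  have hFD : FiniteDimensional F A := hC.fin
  -- `B` is finite dimensional
  have hFB : FiniteDimensional F B := by
    refine Module.Finite.of_surjective (bl hB) ?_
    intro b
    obtain ⟨a, ha, hab⟩ := hB.surj b
    exact ⟨⟨a, ha⟩, hab⟩
  -- `V` is central in `B`
  have hcen : ∀ v b, αB v * b = b * αB v := by
    intro v b
    obtain ⟨a, ha, rfl⟩ := hB.surj b
    rw [← hB.om, ← hB.mul _ (fx_al α ⊤ v) _ ha, ← hB.mul _ ha _ (fx_al α ⊤ v),
      (mem_fx α ⊤ a).1 ha v (Subgroup.mem_top v)]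
  -- the element `ζ`
  set ζ : A := ∑ k, x k * y k with hζ
  have hζc : ∀ c, c * ζ = ζ * c := by
    intro c
    have h1 := zrt F V A K α lam x y hRF 1 (fx_one α ⊤) c
    simpa only [mul_one] using h1
  have huc : ∀ c, c * u = u * c := by
    intro c
    calc c * u = u * ζ * (c * u) := by rw [hu, one_mul]
      _ = u * (ζ * c) * u := by simp only [mul_assoc]
      _ = u * (c * ζ) * u := by rw [hζc c]
      _ = u * c * (ζ * u) := by simp only [mul_assoc]
      _ = u * c * (u * ζ) := by rw [hζc u]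
      _ = u * c := by rw [hu, mul_one]
  have huF : u ∈ FxR (cw F α) ⊤ := by
    rw [mem_fx]
    intro v _
    exact huc _
  have hζF : ζ ∈ FxR (cw F α) ⊤ := by
    rw [mem_fx]
    intro v _
    exact hζc _
  -- units
  choose n n' hn1 hn2 hn3 using hC.uni
  -- the transversal
  let T : Finset E := Set.Finite.toFinset (s := Set.range (fun s : φ.range => s.2.choose))
    (Set.finite_range _)
  have hT : ∀ e : E, ∃! t, t ∈ T ∧ ∀ q ∈ (⊤ : Subgroup V), (φ t)⁻¹ q = (φ e)⁻¹ q := by
    intro e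
    have hm : φ e ∈ φ.range := ⟨e, rfl⟩
    refine ⟨hm.choose, ⟨?_, ?_⟩, ?_⟩
    · rw [Set.Finite.mem_toFinset]
      exact ⟨⟨φ e, hm⟩, rfl⟩
    · intro q _
      rw [hm.choose_spec]
    · rintro t ⟨ht, htq⟩
      rw [Set.Finite.mem_toFinset] at ht
      obtain ⟨⟨s, hs⟩, rfl⟩ := ht
      have h1 : φ hs.choose = s := hs.choose_spec
      have h2 : (φ hs.choose)⁻¹ = (φ e)⁻¹ := MulEquiv.ext fun q => htq q (Subgroup.mem_top q)
      rw [h1, inv_inj] at h2
      subst h2
      rfl
  have hTc : T.card = Nat.card φ.range := by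
    have h1 : Function.Injective (fun s : φ.range => s.2.choose) := by
      intro s s' h
      apply Subtype.ext
      have h2 : φ s.2.choose = s := s.2.choose_spec
      have h3 : φ s'.2.choose = s' := s'.2.choose_spec
      have h4 : s.2.choose = s'.2.choose := h
      rw [← h2, ← h3, h4]
    have h5 := Set.ncard_eq_toFinset_card (Set.range (fun s : φ.range => s.2.choose))
      (Set.finite_range _)
    rw [← Nat.card_coe_set_eq, Nat.card_range_of_injective h1] at h5
    exact h5.symm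
  have hTd : (T.card : F) ≠ 0 := by
    intro h0
    rw [CharP.cast_eq_zero_iff F ℓ, hTc] at h0
    exact hE (h0.trans (Subgroup.card_range_dvd φ))
  have hM := mck ℓ F V E A B K KB φ α ⊤ αB β lam x y lamB xB yB n n' T hl0 hV hC.per hRF hB hRB
    hlB (fun e => ⟨hn1 e, hn2 e, hn3 e⟩) hT 1 (fx_one α ⊤)
  have hM2 : β ζ = (T.card : F) • ∑ k, xB k * yB k := by
    simp only [mul_one] at hM
    rw [hζ, hM]
    have h1 : ∀ t ∈ T, ∑ k, xB k * β (n t * n' t) * yB k = ∑ k, xB k * yB k := by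
      intro t _
      refine Finset.sum_congr rfl fun k _ => ?_
      rw [hn1, hB.one, mul_one]
    rw [Finset.sum_congr rfl h1, Finset.sum_const, Nat.cast_smul_eq_nsmul]
  have huB : ((T.card : F) • β u) * ∑ k, xB k * yB k = 1 := by
    rw [smul_mul_assoc, ← mul_smul_comm, ← hM2, ← hB.mul u huF ζ hζF, hu, hB.one]
  -- the idempotent
  have hjB : Loi F αB (β j) := (lbr ℓ F V E A B K φ α ⊤ αB β lam x y hV hC.per hRF hB).1 j hj
  have hjn : β j ≠ 0 := by
    intro h0
    exact hjB.nz (by rw [h0]; exact Submodule.zero_mem _)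
  have hall : ∀ b : B, b ∈ FxR (cw F αB) ⊤ := by
    intro b
    rw [mem_fx]
    intro v _
    exact hcen v b
  obtain ⟨h5, h6⟩ := tpl ℓ F V B KB αB lamB xB yB ((T.card : F) • β u) (β j) hV hcen hRB huB
    hjB.id hjn (fun a => by
      rcases hjB.loc a (hall a) with h | ⟨a', -, h1, h2⟩
      · exact Or.inl h
      · exact Or.inr ⟨a', h1, h2⟩)
  have hvj : ∀ v, α v * j ∈ FxR (cw F α) ⊤ := fun v => fx_mul α (fx_al α ⊤ v) hj.fx
  constructor
  · intro a ha
    obtain ⟨c, hc⟩ := h5 (β a)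
    refine ⟨c, ?_⟩
    have h7 : j * a * j ∈ FxR (cw F α) ⊤ := fx_mul α (fx_mul α hj.fx ha) hj.fx
    have h8 : ∀ v, c v • (α v * j) ∈ FxR (cw F α) ⊤ := fun v =>
      Submodule.smul_mem _ _ (hvj v)
    have h9 : ∑ v, c v • (α v * j) ∈ FxR (cw F α) ⊤ := Submodule.sum_mem _ fun v _ => h8 v
    refine (hB.ker _ (Submodule.sub_mem _ h7 h9)).1 ?_
    rw [be_sub hB h7 h9, be_sum hB _ _ h8, hB.mul _ (fx_mul α hj.fx ha) _ hj.fx,
      hB.mul _ hj.fx _ ha, hc, sub_eq_zero]
    refine Finset.sum_congr rfl fun v _ => ?_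
    rw [hB.smul _ _ (hvj v), hB.mul _ (fx_al α ⊤ v) _ hj.fx, hB.om]
  · have h10 : (∑ v, α v) ∈ FxR (cw F α) ⊤ := Submodule.sum_mem _ fun v _ => fx_al α ⊤ v
    rw [← hlB _ (fx_mul α h10 hj.fx), hB.mul _ h10 _ hj.fx, be_sum hB _ _ (fx_al α ⊤)]
    have h11 : ∑ v, β (α v) = ∑ v, αB v := Finset.sum_congr rfl fun v _ => hB.om v
    rw [h11]
    exact h6

end Pool.Agent.PSS.S5.H6
end
end -- Pool.Agent.Helper6_PSS.TPJ

section -- Pool.Agent.Helper70_PSS.NQP

/-!
# Squad PSS, block S5, row NQP (helper70)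

The permutation frame of the quotient by a central subgroup.
-/

set_option autoImplicit false

open scoped BigOperators TensorProduct

noncomputable section

namespace Pool.Agent.PSS.S5.H70.Nqp

open Pool.Agent.PSS Pool.Agent.PSS.S5
open Pool.Agent.PFC (tw IsTv Cz)
open Pool.Agent.PFD.D2b (FrR)

section act

variable {V Ω : Type} [CommGroup V] [MulAction (V × V) Ω] (Q : Subgroup V)

/-- the orbits of `Q × 1` -/
def rel (Ω : Type) [MulAction (V × V) Ω] : Setoid Ω where
  r := fun ω ω' => ∃ q ∈ Q, ((q, 1) : V × V) • ω = ω'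
  iseqv :=
    { refl := fun ω => ⟨1, Q.one_mem, one_smul (V × V) ω⟩
      symm := by
        rintro ω _ ⟨q, hq, rfl⟩
        refine ⟨q⁻¹, Q.inv_mem hq, ?_⟩
        rw [smul_smul, Prod.mk_mul_mk, one_mul, inv_mul_cancel]
        exact one_smul (V × V) ω
      trans := by
        rintro ω _ _ ⟨q, hq, rfl⟩ ⟨q', hq', rfl⟩
        refine ⟨q' * q, Q.mul_mem hq' hq, ?_⟩
        rw [smul_smul, Prod.mk_mul_mk, one_mul] }

/-- the set of orbits -/
def Or (Ω : Type) [MulAction (V × V) Ω] : Type := Quotient (rel Q Ω)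

/-- the orbit of a point -/
def mk (ω : Ω) : Or Q Ω := Quotient.mk (rel Q Ω) ω

/-- a point of the orbit -/
def rep (k : Or Q Ω) : Ω := Quotient.out k

theorem mk_rep (k : Or Q Ω) : mk Q (rep Q k) = k := Quotient.out_eq k

theorem mk_eq {ω ω' : Ω} : mk Q ω = mk Q ω' ↔ ∃ q ∈ Q, ((q, 1) : V × V) • ω = ω' :=
  ⟨fun h => Quotient.exact h, fun h => Quotient.sound h⟩

variable (hq : ∀ (ω : Ω), ∀ q ∈ Q, ((q, q) : V × V) • ω = ω)

include hq in
theorem mk_smul (u v u' v' : V) (hu : u⁻¹ * u' ∈ Q) (hv : v⁻¹ * v' ∈ Q) (ω : Ω) :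
    mk Q (((u, v) : V × V) • ω) = mk Q (((u', v') : V × V) • ω) := by
  rw [mk_eq]
  refine ⟨u⁻¹ * u' * (v⁻¹ * v')⁻¹, Q.mul_mem hu (Q.inv_mem hv), ?_⟩
  have h1 := hq (((u, v) : V × V) • ω) (v⁻¹ * v') hv
  calc ((u⁻¹ * u' * (v⁻¹ * v')⁻¹, 1) : V × V) • ((u, v) : V × V) • ω
      = ((u⁻¹ * u' * (v⁻¹ * v')⁻¹, 1) : V × V) • ((v⁻¹ * v', v⁻¹ * v') : V × V) •
          ((u, v) : V × V) • ω := by rw [h1]
    _ = ((u', v') : V × V) • ω := by
        rw [smul_smul, smul_smul, Prod.mk_mul_mk, Prod.mk_mul_mk]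
        have e1 : u⁻¹ * u' * (v⁻¹ * v')⁻¹ * (v⁻¹ * v') * u = u' := by
          rw [inv_mul_cancel_right, mul_comm u⁻¹ u', inv_mul_cancel_right]
        have e2 : 1 * (v⁻¹ * v') * v = v' := by
          rw [one_mul, mul_comm v⁻¹ v', inv_mul_cancel_right]
        rw [e1, e2]

/-- the action of the quotient on the orbits -/
@[instance_reducible]
def act : MulAction ((V ⧸ Q) × (V ⧸ Q)) (Or Q Ω) where
  smul g k := mk Q (((g.1.out, g.2.out) : V × V) • rep Q k)
  one_smul k := by
    change mk Q ((((1 : V ⧸ Q).out, (1 : V ⧸ Q).out) : V × V) • rep Q k) = k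
    have h1 : ((1 : V ⧸ Q).out)⁻¹ * 1 ∈ Q := by
      rw [← QuotientGroup.eq]
      exact QuotientGroup.out_eq' _
    rw [mk_smul Q hq _ _ 1 1 h1 h1]
    rw [show (((1 : V), (1 : V)) : V × V) = 1 from rfl, one_smul, mk_rep]
  mul_smul g h k := by
    change mk Q ((((g * h).1.out, (g * h).2.out) : V × V) • rep Q k) =
      mk Q (((g.1.out, g.2.out) : V × V) • rep Q (mk Q (((h.1.out, h.2.out) : V × V) • rep Q k)))
    obtain ⟨q, hqq, h1⟩ := (mk_eq Q).1 (mk_rep Q (mk Q (((h.1.out, h.2.out) : V × V) • rep Q k))).symm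
    rw [← h1, smul_smul, smul_smul]
    change mk Q ((((g * h).1.out, (g * h).2.out) : V × V) • rep Q k) =
      mk Q (((g.1.out * q * h.1.out, g.2.out * 1 * h.2.out) : V × V) • rep Q k)
    refine mk_smul Q hq _ _ _ _ ?_ ?_ _
    · rw [← QuotientGroup.eq, QuotientGroup.out_eq']
      rw [QuotientGroup.mk_mul, QuotientGroup.mk_mul, QuotientGroup.out_eq',
        QuotientGroup.out_eq', (QuotientGroup.eq_one_iff q).2 hqq, mul_one]
      rfl
    · rw [← QuotientGroup.eq, QuotientGroup.out_eq']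
      rw [QuotientGroup.mk_mul, QuotientGroup.mk_mul, QuotientGroup.out_eq',
        QuotientGroup.out_eq', QuotientGroup.mk_one, mul_one]
      rfl

theorem act_mk (u v : V) (ω : Ω) :
    (act Q hq).smul ((u : V ⧸ Q), (v : V ⧸ Q)) (mk Q ω) = mk Q (((u, v) : V × V) • ω) := by
  change mk Q ((((u : V ⧸ Q).out, (v : V ⧸ Q).out) : V × V) • rep Q (mk Q ω)) = _
  obtain ⟨q, hqq, h1⟩ := (mk_eq Q).1 (mk_rep Q (mk Q ω)).symm
  rw [← h1, smul_smul, Prod.mk_mul_mk]
  refine mk_smul Q hq _ _ _ _ ?_ ?_ _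
  · rw [← QuotientGroup.eq, QuotientGroup.mk_mul, QuotientGroup.out_eq',
      (QuotientGroup.eq_one_iff q).2 hqq, mul_one]
  · rw [← QuotientGroup.eq, QuotientGroup.mk_mul, QuotientGroup.out_eq',
      QuotientGroup.mk_one, mul_one]

end act

theorem nqp : NqpStmt := by
  intro F V A A' Ω _ _ _ _ _ _ _ _ _ α b c Q _ α' p hQ hF hst
  classical
  obtain ⟨hb, hc, hsum⟩ := hF
  have hq : ∀ (ω : Ω), ∀ q ∈ Q, ((q, q) : V × V) • ω = ω := by
    intro ω q hqq
    obtain ⟨S, hS, h1⟩ := hst ω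
    have h2 : ((q, q) : V × V) ∈ MulAction.stabilizer (V × V) ω := by
      rw [h1]
      exact ⟨q, hS hqq, rfl⟩
    exact h2
  have hfr : ∀ (ω : Ω) (q : V), ((q, 1) : V × V) • ω = ω → q = 1 := by
    intro ω q h
    obtain ⟨S, hS, h1⟩ := hst ω
    have h2 : ((q, 1) : V × V) ∈ MulAction.stabilizer (V × V) ω := h
    rw [h1] at h2
    obtain ⟨s, hs, h3⟩ := h2
    have e1 : s = q := congrArg Prod.fst h3
    have e2 : s = 1 := congrArg Prod.snd h3
    rw [← e1, e2]
  set σ : A := ∑ q : Q, α q with hσ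
  have σl : ∀ q ∈ Q, α q * σ = σ := by
    intro q hqq
    rw [hσ, Finset.mul_sum]
    refine Fintype.sum_equiv (Equiv.mulLeft (⟨q, hqq⟩ : Q)) _ _ ?_
    intro r
    rw [Equiv.coe_mulLeft, Subgroup.coe_mul, map_mul]
  have hpq : ∀ q ∈ Q, p (α q) = 1 := by
    intro q hqq
    rw [hQ.cov, (QuotientGroup.eq_one_iff q).2 hqq, map_one]
  -- the functionals
  have hker : ∀ a a' : A, p a = p a' → σ * a = σ * a' := by
    intro a a' h
    have h1 : p (a - a') = 0 := by rw [map_sub, h, sub_self]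
    have h2 := (hQ.ker _).1 h1
    rw [mul_sub, sub_eq_zero] at h2
    exact h2
  let inv : A' → A := Function.surjInv hQ.sur
  have hinv : ∀ a', p (inv a') = a' := Function.surjInv_eq hQ.sur
  let c' : Or Q Ω → (A' →ₗ[F] F) := fun k =>
    { toFun := fun a' => c (rep Q k) (σ * inv a')
      map_add' := by
        intro x y
        rw [← map_add, ← mul_add]
        exact congrArg _ (hker _ _ (by rw [map_add, hinv, hinv, hinv]))
      map_smul' := by
        intro r x
        rw [RingHom.id_apply, ← map_smul, ← mul_smul_comm]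
        exact congrArg _ (hker _ _ (by rw [map_smul, hinv, hinv])) }
  have hc'p : ∀ (k : Or Q Ω) (a : A), c' k (p a) = c (rep Q k) (σ * a) := by
    intro k a
    exact congrArg _ (hker _ _ (by rw [hinv]))
  have hcq : ∀ (ω : Ω), ∀ q ∈ Q, ∀ a, c (((q, 1) : V × V) • ω) a = c ω (α q⁻¹ * a) := by
    intro ω q hqq a
    have h1 := hc ((q, 1) : V × V) ω (α q⁻¹ * a)
    have h2 : bw F α ((q, 1) : V × V) (α q⁻¹ * a) = a := by
      change α q * (α q⁻¹ * a * α 1⁻¹) = a
      rw [inv_one, map_one, mul_one, ← mul_assoc, ← map_mul, mul_inv_cancel, map_one, one_mul]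
    rw [h2] at h1
    exact h1
  have hc'm : ∀ (ω : Ω) (a : A), c' (mk Q ω) (p a) = c ω (σ * a) := by
    intro ω a
    rw [hc'p]
    obtain ⟨q, hqq, h1⟩ := (mk_eq Q).1 (mk_rep Q (mk Q ω)).symm
    rw [← h1, hcq _ q hqq, ← mul_assoc, σl _ (Q.inv_mem hqq)]
  have hb'm : ∀ ω : Ω, p (b (rep Q (mk Q ω))) = p (b ω) := by
    intro ω
    obtain ⟨q, hqq, h1⟩ := (mk_eq Q).1 (mk_rep Q (mk Q ω)).symm
    rw [← h1, hb]
    change p (α q * (b ω * α 1⁻¹)) = p (b ω)
    rw [inv_one, map_one, mul_one, map_mul, hpq q hqq, one_mul]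
  have hfin : Finite (Or Q Ω) := inferInstanceAs (Finite (Quotient (rel Q Ω)))
  have hfty : Fintype (Or Q Ω) := Fintype.ofFinite _
  let iac : MulAction ((V ⧸ Q) × (V ⧸ Q)) (Or Q Ω) := act Q hq
  have hsm : ∀ (u v : V) (ω : Ω), ((((u : V ⧸ Q), (v : V ⧸ Q)) : (V ⧸ Q) × (V ⧸ Q)) • mk Q ω) =
      mk Q (((u, v) : V × V) • ω) := fun u v ω => act_mk Q hq u v ω
  refine ⟨Or Q Ω, inferInstance, inferInstance, fun k => p (b (rep Q k)), c', ⟨?_, ?_, ?_⟩, ?_⟩
  · rintro ⟨u', v'⟩ k
    obtain ⟨u, rfl⟩ := QuotientGroup.mk_surjective u'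
    obtain ⟨v, rfl⟩ := QuotientGroup.mk_surjective v'
    obtain ⟨ω, rfl⟩ : ∃ ω, mk Q ω = k := ⟨rep Q k, mk_rep Q k⟩
    rw [hsm]
    change p (b (rep Q (mk Q (((u, v) : V × V) • ω)))) =
      α' (u : V ⧸ Q) * (p (b (rep Q (mk Q ω))) * α' (v : V ⧸ Q)⁻¹)
    rw [hb'm, hb'm, hb]
    change p (α u * (b ω * α v⁻¹)) = α' (u : V ⧸ Q) * (p (b ω) * α' (v : V ⧸ Q)⁻¹)
    rw [map_mul, map_mul, hQ.cov, hQ.cov, QuotientGroup.mk_inv]
  · rintro ⟨u', v'⟩ k n
    obtain ⟨u, rfl⟩ := QuotientGroup.mk_surjective u'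
    obtain ⟨v, rfl⟩ := QuotientGroup.mk_surjective v'
    obtain ⟨ω, rfl⟩ : ∃ ω, mk Q ω = k := ⟨rep Q k, mk_rep Q k⟩
    obtain ⟨a, rfl⟩ := hQ.sur n
    have h1 : bw F α' (((u : V ⧸ Q), (v : V ⧸ Q)) : (V ⧸ Q) × (V ⧸ Q)) (p a) =
        p (bw F α ((u, v) : V × V) a) := by
      change α' (u : V ⧸ Q) * (p a * α' (v : V ⧸ Q)⁻¹) = p (α u * (a * α v⁻¹))
      rw [map_mul, map_mul, hQ.cov, hQ.cov, QuotientGroup.mk_inv]
    rw [hsm, h1, hc'm, hc'm]
    have h2 : σ * bw F α ((u, v) : V × V) a = bw F α ((u, v) : V × V) (σ * a) := by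
      change σ * (α u * (a * α v⁻¹)) = α u * (σ * a * α v⁻¹)
      have h3 : σ * α u = α u * σ := by
        rw [hσ, Finset.sum_mul, Finset.mul_sum]
        refine Finset.sum_congr rfl fun q _ => ?_
        rw [← map_mul, ← map_mul, mul_comm]
      rw [← mul_assoc, h3, mul_assoc, mul_assoc σ]
    rw [h2, hc]
  · intro n
    obtain ⟨a, rfl⟩ := hQ.sur n
    have h1 : p a = ∑ ω, c ω a • p (b ω) := by
      conv_lhs => rw [← hsum a]
      rw [map_sum]
      exact Finset.sum_congr rfl fun ω _ => map_smul _ _ _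
    have h10 := Finset.sum_fiberwise_of_maps_to (s := (Finset.univ : Finset Ω))
      (t := (Finset.univ : Finset (Or Q Ω)))
      (g := fun ω => mk Q ω) (fun _ _ => Finset.mem_univ _) (fun ω => c ω a • p (b ω))
    refine Eq.trans ?_ (h10.trans h1.symm)
    refine Finset.sum_congr rfl fun k _ => ?_
    have h2 : ∑ ω ∈ Finset.univ.filter (fun ω => mk Q ω = k), c ω a • p (b ω) =
        ∑ q : Q, c (((q.1, 1) : V × V) • rep Q k) a • p (b (((q.1, 1) : V × V) • rep Q k)) := by
      symm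
      refine Finset.sum_bij (fun q _ => ((q.1, 1) : V × V) • rep Q k) ?_ ?_ ?_ ?_
      · intro q _
        rw [Finset.mem_filter]
        refine ⟨Finset.mem_univ _, ?_⟩
        rw [← mk_rep Q k]
        symm
        rw [mk_eq]
        refine ⟨q.1, q.2, ?_⟩
        rw [mk_rep Q k]
      · intro q _ q' _ h
        have h3 : ((q'.1⁻¹ * q.1, 1) : V × V) • rep Q k = rep Q k := by
          have h4 : ((q'.1⁻¹ * q.1, 1) : V × V) = ((q'.1⁻¹, 1) : V × V) * ((q.1, 1) : V × V) := by
            rw [Prod.mk_mul_mk, one_mul]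
          rw [h4, mul_smul, h, smul_smul, Prod.mk_mul_mk, inv_mul_cancel, one_mul]
          exact one_smul _ _
        have h5 := hfr _ _ h3
        apply Subtype.ext
        rw [inv_mul_eq_one] at h5
        exact h5.symm
      · intro ω hω
        rw [Finset.mem_filter] at hω
        obtain ⟨q, hqq, h3⟩ := (mk_eq Q).1 ((mk_rep Q k).trans hω.2.symm)
        exact ⟨⟨q, hqq⟩, Finset.mem_univ _, h3⟩
      · intro q _
        rfl
    rw [h2, hc'p]
    have h3 : ∀ q : Q, c (((q.1, 1) : V × V) • rep Q k) a • p (b (((q.1, 1) : V × V) • rep Q k)) =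
        c (rep Q k) (α (q⁻¹ : Q) * a) • p (b (rep Q k)) := by
      intro q
      rw [hcq _ q.1 q.2, hb]
      congr 1
      change p (α q.1 * (b (rep Q k) * α 1⁻¹)) = p (b (rep Q k))
      rw [inv_one, map_one, mul_one, map_mul, hpq q.1 q.2, one_mul]
    rw [Finset.sum_congr rfl (fun q _ => h3 q), ← Finset.sum_smul, ← map_sum, ← Finset.sum_mul]
    have h4 : ∑ q : Q, α (q⁻¹ : Q) = σ := by
      rw [hσ]
      exact Fintype.sum_equiv (Equiv.inv Q) _ _ (fun _ => rfl)
    rw [h4]
  · intro k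
    obtain ⟨ω, rfl⟩ : ∃ ω, mk Q ω = k := ⟨rep Q k, mk_rep Q k⟩
    obtain ⟨S, hS, h1⟩ := hst ω
    refine ⟨(), S.map (QuotientGroup.mk' Q), ?_⟩
    ext ⟨u', v'⟩
    obtain ⟨u, rfl⟩ := QuotientGroup.mk_surjective u'
    obtain ⟨v, rfl⟩ := QuotientGroup.mk_surjective v'
    rw [MulAction.mem_stabilizer_iff, hsm]
    constructor
    · intro h
      obtain ⟨q, hqq, h2⟩ := (mk_eq Q).1 h
      rw [smul_smul, Prod.mk_mul_mk, one_mul] at h2
      have h3 : ((q * u, v) : V × V) ∈ MulAction.stabilizer (V × V) ω := h2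
      rw [h1] at h3
      obtain ⟨s, hs, h4⟩ := h3
      have e1 : s = q * u := congrArg Prod.fst h4
      have e2 : s = v := congrArg Prod.snd h4
      refine ⟨(v : V ⧸ Q), ⟨v, ?_, rfl⟩, ?_⟩
      · rw [← e2]
        exact hs
      · have e3 : (v : V ⧸ Q) = (u : V ⧸ Q) := by
          rw [← e2, e1, QuotientGroup.mk_mul, (QuotientGroup.eq_one_iff q).2 hqq, one_mul]
        change (((v : V ⧸ Q), (v : V ⧸ Q)) : (V ⧸ Q) × (V ⧸ Q)) = ((u : V ⧸ Q), (v : V ⧸ Q))
        rw [e3]
    · rintro ⟨_, ⟨s, hs, rfl⟩, h2⟩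
      have e1 : (s : V ⧸ Q) = (u : V ⧸ Q) := congrArg Prod.fst h2
      have e2 : (s : V ⧸ Q) = (v : V ⧸ Q) := congrArg Prod.snd h2
      have h3 : ((s, s) : V × V) • ω = ω := by
        have h4 : ((s, s) : V × V) ∈ MulAction.stabilizer (V × V) ω := by
          rw [h1]
          exact ⟨s, hs, rfl⟩
        exact h4
      rw [← hsm, ← e1, ← e2, hsm, h3]

end Pool.Agent.PSS.S5.H70.Nqp
end
end -- Pool.Agent.Helper70_PSS.NQP

section -- Pool.Agent.Helper70_PSS.RYN

/-!
# Squad PSS, row RYN (helper70): a symmetric algebra with one simple module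
-/

set_option autoImplicit false

open scoped BigOperators

noncomputable section

namespace Pool.Agent.PSS.S5.H70

variable {F A : Type} [Field F] [Ring A] [Algebra F A]

/-- the element of a functional -/
theorem dualel [FiniteDimensional F A] (lam : A →ₗ[F] F)
    (hn : ∀ a, (∀ b, lam (a * b) = 0) → a = 0) (τ : A →ₗ[F] F) :
    ∃ z : A, ∀ a, lam (z * a) = τ a := by
  let T : A →ₗ[F] (A →ₗ[F] F) := (LinearMap.mul F A).compr₂ lam
  have hT : ∀ z a, T z a = lam (z * a) := fun z a => rfl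
  have hinj : Function.Injective T := by
    rw [← LinearMap.ker_eq_bot, LinearMap.ker_eq_bot']
    intro z hz
    refine hn z fun b => ?_
    rw [← hT, hz]
    rfl
  have hfr : Module.finrank F A = Module.finrank F (A →ₗ[F] F) :=
    (Subspace.dual_finrank_eq (K := F) (V := A)).symm
  obtain ⟨z, hz⟩ := (LinearMap.injective_iff_surjective_of_finrank_eq_finrank hfr).1 hinj τ
  exact ⟨z, fun a => by rw [← hT, hz]⟩

theorem nil_quot [FiniteDimensional F A] (a : A)
    (h : Ideal.Quotient.mk (Ring.jacobson A) a = 0) : IsNilpotent a := by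
  haveI : IsArtinianRing A := IsArtinianRing.of_finite F A
  obtain ⟨N, hN⟩ := IsSemiprimaryRing.isNilpotent (R := A)
  refine ⟨N, ?_⟩
  have h1 : a ∈ Ring.jacobson A := Ideal.Quotient.eq_zero_iff_mem.1 h
  have h2 : a ^ N ∈ (Ring.jacobson A) ^ N := Ideal.pow_mem_pow h1 N
  rw [hN] at h2
  exact h2

theorem ryn : RynStmt := by
  intro F A _ _ _ _ _ _ lam hs hn hz
  haveI : IsArtinianRing A := IsArtinianRing.of_finite F A
  haveI : FiniteDimensional F (A ⧸ Ring.jacobson A) :=
    Module.Finite.of_surjective (Ideal.Quotient.mkₐ F (Ring.jacobson A)).toLinearMap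
      (Ideal.Quotient.mkₐ_surjective F _)
  obtain ⟨m, d, hd, ⟨e⟩⟩ :=
    IsSemisimpleRing.exists_algEquiv_pi_matrix_of_isAlgClosed F (A ⧸ Ring.jacobson A)
  let P : A →ₐ[F] (∀ i, Matrix (Fin (d i)) (Fin (d i)) F) :=
    e.toAlgHom.comp (Ideal.Quotient.mkₐ F (Ring.jacobson A))
  have hPs : Function.Surjective P := e.surjective.comp (Ideal.Quotient.mkₐ_surjective F _)
  have hPk : ∀ a, P a = 0 → IsNilpotent a := by
    intro a ha
    have h1 : e (Ideal.Quotient.mkₐ F (Ring.jacobson A) a) = 0 := ha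
    have h2 : Ideal.Quotient.mkₐ F (Ring.jacobson A) a = 0 := by
      rw [← map_zero e] at h1
      exact e.injective h1
    exact nil_quot (F := F) a h2
  let τ : Fin m → A →ₗ[F] F := fun i =>
    (Matrix.traceLinearMap (Fin (d i)) F F).comp
      ((LinearMap.proj (R := F) (φ := fun i => Matrix (Fin (d i)) (Fin (d i)) F) i).comp
        P.toLinearMap)
  have hτ : ∀ i a, τ i a = Matrix.trace (P a i) := fun i a => rfl
  have hτc : ∀ i a b, τ i (a * b) = τ i (b * a) := by
    intro i a b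
    rw [hτ, hτ, map_mul, map_mul, Pi.mul_apply, Pi.mul_apply, Matrix.trace_mul_comm]
  have hτn : ∀ i a, IsNilpotent a → τ i a = 0 := by
    intro i a ha
    rw [hτ]
    have h1 : IsNilpotent (P a i) := by
      obtain ⟨N, hN⟩ := ha
      refine ⟨N, ?_⟩
      have h2 : (P a ^ N) i = 0 := by
        rw [← map_pow, hN, map_zero]
        rfl
      rw [← h2]
      rfl
    exact (Matrix.isNilpotent_trace_of_isNilpotent h1).eq_zero
  choose z hzl using fun i => dualel lam hn (τ i)
  have hzc : ∀ i a, z i * a = a * z i := by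
    intro i a
    refine sub_eq_zero.1 (hn _ fun b => ?_)
    rw [sub_mul, map_sub, sub_eq_zero, mul_assoc, hzl, mul_assoc a, hs a, mul_assoc, hzl, hτc]
  have hzn : ∀ i n, (∀ a, n * a = a * n) → IsNilpotent n → n * z i = 0 := by
    intro i n hc hnil
    refine hn _ fun b => ?_
    rw [hc, mul_assoc, hzl]
    refine hτn i _ ?_
    exact (show Commute n b from hc b).isNilpotent_mul_right hnil
  have hm : ∀ i j : Fin m, i = j := by
    intro i j
    by_contra hij
    obtain ⟨s, t, hst, h0⟩ := hz (z i) (z j) (hzc i) (hzc j)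
      (fun n hc hnil => ⟨hzn i n hc hnil, hzn j n hc hnil⟩)
    have hlin : ∀ a, s * τ i a + t * τ j a = 0 := by
      intro a
      have h1 : lam ((s • z i + t • z j) * a) = 0 := by
        rw [h0, zero_mul, map_zero]
      rw [add_mul, map_add, smul_mul_assoc, smul_mul_assoc, map_smul, map_smul, hzl, hzl] at h1
      exact h1
    have hex : ∀ k l : Fin m, k ≠ l → ∃ a, τ k a = 1 ∧ τ l a = 0 := by
      intro k l hkl
      haveI := hd k
      obtain ⟨a, ha⟩ := hPs (Pi.single k (Matrix.single (0 : Fin (d k)) 0 (1 : F)))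
      refine ⟨a, ?_, ?_⟩
      · rw [hτ, ha, Pi.single_eq_same, Matrix.trace_single_eq_same]
      · rw [hτ, ha, Pi.single_eq_of_ne (Ne.symm hkl), Matrix.trace_zero]
    obtain ⟨a, ha1, ha2⟩ := hex i j hij
    obtain ⟨b, hb1, hb2⟩ := hex j i (Ne.symm hij)
    have e1 := hlin a
    have e2 := hlin b
    rw [ha1, ha2, mul_one, mul_zero, add_zero] at e1
    rw [hb1, hb2, mul_one, mul_zero, zero_add] at e2
    rcases hst with h | h
    · exact h e1
    · exact h e2
  have hm0 : 0 < m := by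
    rcases Nat.eq_zero_or_pos m with h | h
    · exfalso
      subst h
      have h1 : IsNilpotent (1 : A) := hPk 1 (funext fun i => i.elim0)
      obtain ⟨N, hN⟩ := h1
      rw [one_pow] at hN
      exact one_ne_zero hN
    · exact h
  let i0 : Fin m := ⟨0, hm0⟩
  refine ⟨d i0, (Pi.evalAlgHom F (fun i => Matrix (Fin (d i)) (Fin (d i)) F) i0).comp P,
    Nat.pos_of_ne_zero (hd i0).out, ?_, ?_⟩
  · intro y
    obtain ⟨a, ha⟩ := hPs (Pi.single i0 y)
    refine ⟨a, ?_⟩
    show P a i0 = y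
    rw [ha, Pi.single_eq_same]
  · intro a ha
    refine hPk a (funext fun i => ?_)
    rw [hm i i0]
    exact ha

end Pool.Agent.PSS.S5.H70
end
end -- Pool.Agent.Helper70_PSS.RYN

section -- Pool.Agent.Helper77_PSS.NQF

/-!
# Squad PSS, row NQF (helper77): the frame for a central subgroup
-/

set_option autoImplicit false

open scoped BigOperators TensorProduct

noncomputable section

namespace Pool.Agent.PSS.S5.H77

open Pool.Agent.PFC (tw IsTv)
open Pool.Agent.PFD.D2b (FrR)

theorem card_tv {H : Type} [Group H] {P' P : Subgroup H} {S : Finset H} (h : IsTv P' P S) :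
    S.card = P'.relIndex P := by
  classical
  have hb : Function.Bijective (fun s : S =>
      (QuotientGroup.mk ⟨(s : H), h.1 s s.2⟩ : P ⧸ P'.subgroupOf P)) := by
    constructor
    · rintro ⟨s, hs⟩ ⟨t, ht⟩ hst
      have hst' : (QuotientGroup.mk (⟨s, h.1 s hs⟩ : P) : P ⧸ P'.subgroupOf P) =
        QuotientGroup.mk (⟨t, h.1 t ht⟩ : P) := hst
      have h0 : (⟨s, h.1 s hs⟩ : P)⁻¹ * ⟨t, h.1 t ht⟩ ∈ P'.subgroupOf P :=
        QuotientGroup.eq.1 hst'
      have h1 : s⁻¹ * t ∈ P' := h0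
      obtain ⟨r, hr, hu⟩ := h.2 t (h.1 t ht)
      apply Subtype.ext
      change s = t
      rw [hu s ⟨hs, h1⟩, hu t ⟨ht, by rw [inv_mul_cancel]; exact P'.one_mem⟩]
    · intro q
      obtain ⟨⟨x, hx⟩, rfl⟩ := QuotientGroup.mk_surjective q
      obtain ⟨s, ⟨hs, hs'⟩, _⟩ := h.2 x hx
      have h0 : (⟨s, h.1 s hs⟩ : P)⁻¹ * ⟨x, hx⟩ ∈ P'.subgroupOf P := hs'
      exact ⟨⟨s, hs⟩, QuotientGroup.eq.2 h0⟩
  have h1 := Nat.card_congr (Equiv.ofBijective _ hb)
  rw [Nat.card_eq_fintype_card, Fintype.card_coe] at h1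
  rw [h1]
  rfl

theorem dvd_card_tv {ℓ : ℕ} [Fact ℓ.Prime] {H : Type} [Group H] {P' P : Subgroup H} [Finite P]
    (hP : IsPGroup ℓ P) (hlt : P' < P) {S : Finset H} (h : IsTv P' P S) : ℓ ∣ S.card := by
  rw [card_tv h]
  obtain ⟨n, hn⟩ := hP.index (P'.subgroupOf P)
  change P'.relIndex P = ℓ ^ n at hn
  rw [hn]
  apply dvd_pow_self
  rintro rfl
  rw [pow_zero] at hn
  exact hlt.not_ge (Subgroup.relIndex_eq_one.1 hn)

/-- NQF -/
theorem nqf (hFRB : FrbStmt) : NqfStmt := by
  classical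
  intro ℓ _ F V E A _ _ _ _ _ _ _ φ α Q hV hφ hP hQ
  obtain ⟨Ω, iF, iA, b, c, hF, hst⟩ := hP
  have hfx : ∀ a : A, ∀ P : Subgroup (V × V), P ≤ tw (MonoidHom.id V) Q →
      a ∈ FxR (bw F α) P := by
    intro a P hP h hh
    obtain ⟨q, hq, rfl⟩ := hP hh
    change α q * (a * α q⁻¹) = a
    rw [← mul_assoc, hQ q hq, mul_assoc, ← map_mul, mul_inv_cancel, map_one, mul_one]
  have hPG : IsPGroup ℓ (tw (MonoidHom.id V) Q) := (hV.to_subgroup Q).map _
  have hℓ : (ℓ : F) = 0 := CharP.cast_eq_zero F ℓ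
  have hbk : BKR (bw F α) (tw (MonoidHom.id V) Q) = ⊥ := by
    rw [eq_bot_iff]
    apply Submodule.span_le.2
    rintro n ⟨P', S, m, hlt, hS, hm, rfl⟩
    have h1 : ∀ x ∈ S, bw F α x m = m := fun x hx => hfx m _ le_rfl x (hS.1 x hx)
    rw [Finset.sum_congr rfl h1, Finset.sum_const]
    obtain ⟨k, hk⟩ := dvd_card_tv hPG hlt hS
    rw [hk, ← Nat.cast_smul_eq_nsmul F, Nat.cast_mul, hℓ, zero_mul, zero_smul]
    exact Submodule.zero_mem _
  have h2 := (hFRB ℓ F (V × V) A Ω (bw F α) b c (tw (MonoidHom.id V) Q) hℓ hPG inferInstance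
    hF).2
  refine ⟨Fp Ω (tw (MonoidHom.id V) Q), inferInstance, inferInstance, fun ω => b ω.1,
    fun ω => c ω.1, ⟨fun g t => hF.1 g t.1, fun g t n => hF.2.1 g t.1 n, fun n => ?_⟩, ?_⟩
  · have h3 := h2 n (hfx n _ le_rfl)
    rw [hbk, Submodule.mem_bot, sub_eq_zero] at h3
    exact h3.symm
  · intro ω
    obtain ⟨e, S, hS⟩ := hst ω.1
    have h3 : (φ e).toMonoidHom = MonoidHom.id V := by
      rw [hφ e]
      rfl
    rw [h3] at hS
    refine ⟨S, ?_, ?_⟩
    · intro q hq
      have h4 : ((q, q) : V × V) ∈ MulAction.stabilizer (V × V) ω.1 := ω.2 ⟨q, hq, rfl⟩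
      rw [hS] at h4
      obtain ⟨s, hs, h5⟩ := h4
      have h6 : s = q := congrArg Prod.fst h5
      rw [← h6]
      exact hs
    · rw [← hS]
      ext g
      rw [MulAction.mem_stabilizer_iff, MulAction.mem_stabilizer_iff]
      exact ⟨fun h => congrArg Subtype.val h, fun h => Subtype.ext h⟩

end Pool.Agent.PSS.S5.H77
end
end -- Pool.Agent.Helper77_PSS.NQF

section -- Pool.Agent.Helper77_PSS.NQT

/-!
# Squad PSS, row NQT (helper77): the quotient by a central subgroup of `V` is in the class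
-/

set_option autoImplicit false

open scoped BigOperators TensorProduct

noncomputable section

namespace Pool.Agent.PSS.S5.H77T

open Pool.Agent.PFC (tw IsTv Cz)
open Pool.Agent.PFD.D2b (FrR)

variable {F V A : Type} [Field F] [CommGroup V] [Ring A] [Algebra F A]

theorem mem_Cz {α : V →* A} {a : A} : a ∈ Cz F α ⊤ ↔ a ∈ FxR (cw F α) ⊤ := by
  rw [mem_cw]
  constructor
  · intro h q _
    exact (Subalgebra.mem_centralizer_iff F).1 h (α q) ⟨q, Subgroup.mem_top q, rfl⟩
  · intro h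
    apply (Subalgebra.mem_centralizer_iff F).2
    rintro _ ⟨q, _, rfl⟩
    exact h q (Subgroup.mem_top q)

/-- NQT -/
theorem nqt (hNQA : NqaStmt) (hNQF : NqfStmt) (hNQP : NqpStmt) (hNQR : NqrStmt)
    (hNQS : NqsStmt) (hNQB : NqbStmt) : NqtStmt := by
  classical
  intro ℓ _ F V E A _ _ _ _ _ _ _ φ α Q _ _ hV hφ hL hQ
  obtain ⟨A', iR, iA, α', p, hp⟩ := hNQA F V A α Q hQ
  obtain ⟨Ω, iΩ, iM, b, c, hF, hst⟩ := hNQF ℓ F V E A φ α Q hV hφ hL.per hQ
  obtain ⟨lam, K, iK, x, y, hRF, hlam⟩ := hL.frm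
  obtain ⟨⟨lam', hRF', hlam'⟩, hnil⟩ := hNQR ℓ F V A A' K α lam x y Q α' p hV hp hRF
  have hS := hNQS F V A A' Ω α b c Q α' p hp hF hst
  refine ⟨A', iR, iA, α', p, hp.sur, hnil, ?_⟩
  have hfin := hL.fin
  have hnt : Nontrivial A' := by
    refine ⟨⟨∑ u, α' u, 0, ?_⟩⟩
    intro h
    rw [h, map_zero] at hlam'
    exact hlam hlam'.symm
  have hloc := hL.loc
  have hmem : ∀ a ∈ FxR (cw F α) ⊤, p a ∈ Cz F α' ⊤ := by
    intro a ha
    rw [mem_Cz, mem_cw]
    intro q _
    obtain ⟨v, rfl⟩ := QuotientGroup.mk_surjective q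
    rw [← hp.cov v, ← map_mul, ← map_mul, (mem_cw.1 ha) v (Subgroup.mem_top v)]
  refine ⟨Module.Finite.of_surjective p.toLinearMap hp.sur,
    hNQP F V A A' Ω α b c Q α' p hp hF hst, ?_, ⟨lam', K, iK, _, _, hRF', ?_⟩, ?_, ?_⟩
  · intro e
    refine ⟨1, 1, one_mul 1, one_mul 1, fun u => ?_⟩
    rw [one_mul, mul_one]
    rfl
  · rw [hlam']
    exact hlam
  · let r : Cz F α ⊤ →ₐ[F] Cz F α' ⊤ :=
      (p.comp (Cz F α ⊤).val).codRestrict (Cz F α' ⊤) fun a => hmem a (mem_Cz.1 a.2)
    have hr : Function.Surjective r := by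
      rintro ⟨a', ha'⟩
      obtain ⟨a, ha, rfl⟩ := hS a' (mem_Cz.1 ha')
      exact ⟨⟨a, mem_Cz.2 ha⟩, Subtype.ext rfl⟩
    have : Nontrivial (Cz F α' ⊤) := inferInstance
    refine ⟨fun {a' b'} hab => ?_⟩
    obtain ⟨a, rfl⟩ := hr a'
    have h1 : b' = r (1 - a) := by
      rw [map_sub, map_one, ← hab, add_sub_cancel_left]
    rw [h1]
    exact (hloc.isUnit_or_isUnit_of_add_one (add_sub_cancel a 1)).imp (fun h => h.map r)
      (fun h => h.map r)
  · intro a' ha'
    obtain ⟨a, ha, rfl⟩ := hS a' ha'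
    obtain ⟨d, hd⟩ := hL.spn a ha
    refine ⟨fun u => ∑ v : V, if (v : V ⧸ Q) = u then d v else 0, ?_⟩
    have h1 := hNQB ℓ F V A A' α Q α' p hV hp _ hd
    rw [map_sub, map_sum] at h1
    have h2 : ∑ v, p (d v • α v) =
        ∑ u : V ⧸ Q, (∑ v : V, if (v : V ⧸ Q) = u then d v else 0) • α' u := by
      have h3 : ∀ u : V ⧸ Q, (∑ v : V, if (v : V ⧸ Q) = u then d v else 0) • α' u =
          ∑ v : V, if (v : V ⧸ Q) = u then d v • α' (v : V ⧸ Q) else 0 := by
        intro u
        rw [Finset.sum_smul]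
        refine Finset.sum_congr rfl fun v _ => ?_
        split_ifs with h
        · rw [h]
        · rw [zero_smul]
      rw [Finset.sum_congr rfl fun u _ => h3 u, Finset.sum_comm]
      refine Finset.sum_congr rfl fun v _ => ?_
      rw [Finset.sum_ite_eq, if_pos (Finset.mem_univ _), map_smul, hp.cov]
    rw [← h2]
    exact h1

end Pool.Agent.PSS.S5.H77T
end
end -- Pool.Agent.Helper77_PSS.NQT

section -- Pool.Agent.Helper7_PSS.BOR

/-!
# Squad PSS, row BOR: the local idempotents of a block are conjugate under `E` (helper7)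
-/

open scoped BigOperators TensorProduct

noncomputable section

namespace Pool.Agent.PSS.S5.H7

open Pool.Agent.PFC (tw IsTv Cnr Cz PIn Ctf Lcq PmzStmt PS bi)
open Pool.Agent.PFD.D2b (FrR)
open Pool.Agent.PSS.S0 (IsBQ)
open Pool.Agent.PSS

variable {F V E A : Type} [Field F] [CommGroup V] [Group E] [Ring A] [Algebra F A] {α : V →* A}

theorem cmem {a : A} : a ∈ FxR (cw F α) ⊤ ↔ ∀ v, α v * a = a * α v := by
  rw [mem_cw]
  exact ⟨fun h v => h v trivial, fun h v _ => h v⟩

theorem cmul {a b : A} (ha : a ∈ FxR (cw F α) ⊤) (hb : b ∈ FxR (cw F α) ⊤) :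
    a * b ∈ FxR (cw F α) ⊤ := by
  rw [cmem] at ha hb ⊢
  intro v
  rw [← mul_assoc, ha, mul_assoc, hb, mul_assoc]

/-- conjugation by a unit which induces an automorphism -/
theorem ccj {s : MulAut V} {y y' a : A} (h1 : y * y' = 1) (h2 : y' * y = 1)
    (h3 : ∀ u, y * α u = α (s u) * y) (ha : a ∈ FxR (cw F α) ⊤) :
    y * a * y' ∈ FxR (cw F α) ⊤ := by
  rw [cmem] at ha ⊢
  intro v
  have e1 : α v * y = y * α (s⁻¹ v) := by rw [h3, MulAut.apply_inv_self]
  have e2 : α (s⁻¹ v) * y' = y' * α v := by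
    calc α (s⁻¹ v) * y' = y' * (y * α (s⁻¹ v)) * y' := by rw [← mul_assoc y', h2, one_mul]
      _ = y' * (α v * y) * y' := by rw [e1]
      _ = y' * α v * (y * y') := by noncomm_ring
      _ = y' * α v := by rw [h1, mul_one]
  calc α v * (y * a * y') = α v * y * a * y' := by noncomm_ring
    _ = y * (α (s⁻¹ v) * a) * y' := by rw [e1]; noncomm_ring
    _ = y * a * (α (s⁻¹ v) * y') := by rw [ha]; noncomm_ring
    _ = y * a * y' * α v := by rw [e2]; noncomm_ring

theorem eqi_symm {j j' : A} (h : Eqi F α j j') : Eqi F α j' j := by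
  obtain ⟨p, hp, q, hq, h1, h2, h3, h4, h5, h6⟩ := h
  exact ⟨q, hq, p, hp, h3, h4, h1, h2, h6, h5⟩

theorem eqi_trans {j j' j'' : A} (h : Eqi F α j j') (h' : Eqi F α j' j'') : Eqi F α j j'' := by
  obtain ⟨p, hp, q, hq, h1, h2, h3, h4, h5, h6⟩ := h
  obtain ⟨p', hp', q', hq', g1, g2, g3, g4, g5, g6⟩ := h'
  refine ⟨p * p', cmul hp hp', q' * q, cmul hq' hq, ?_, ?_, ?_, ?_, ?_, ?_⟩
  · rw [← mul_assoc, h1]
  · rw [mul_assoc, g2]
  · rw [← mul_assoc, g3]
  · rw [mul_assoc, h4]
  · calc p * p' * (q' * q) = p * (p' * q') * q := by noncomm_ring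
      _ = p * q := by rw [g5, h2]
      _ = j := h5
  · calc q' * q * (p * p') = q' * (q * p) * p' := by noncomm_ring
      _ = q' * p' := by rw [h6, g4]
      _ = j'' := g6

theorem eqi_conj {s : MulAut V} {y y' j j' : A} (h1 : y * y' = 1) (h2 : y' * y = 1)
    (h3 : ∀ u, y * α u = α (s u) * y) (h : Eqi F α j j') :
    Eqi F α (y * j * y') (y * j' * y') := by
  obtain ⟨p, hp, q, hq, g1, g2, g3, g4, g5, g6⟩ := h
  have key : ∀ a b : A, y * a * y' * (y * b * y') = y * (a * b) * y' := by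
    intro a b
    calc y * a * y' * (y * b * y') = y * a * (y' * y) * b * y' := by noncomm_ring
      _ = y * (a * b) * y' := by rw [h2]; noncomm_ring
  exact ⟨y * p * y', ccj h1 h2 h3 hp, y * q * y', ccj h1 h2 h3 hq, by rw [key, g1],
    by rw [key, g2], by rw [key, g3], by rw [key, g4], by rw [key, g5], by rw [key, g6]⟩

theorem eqi_unit {w w' j : A} (h1 : w * w' = 1) (h2 : w' * w = 1) (hw : w ∈ FxR (cw F α) ⊤)
    (hw' : w' ∈ FxR (cw F α) ⊤) (hj : j ∈ FxR (cw F α) ⊤) (hjj : j * j = j) :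
    Eqi F α (w * j * w') j := by
  refine ⟨w * j, cmul hw hj, j * w', cmul hj hw', ?_, ?_, ?_, ?_, ?_, ?_⟩
  · calc w * j * w' * (w * j) = w * j * (w' * w) * j := by noncomm_ring
      _ = w * (j * j) := by rw [h2]; noncomm_ring
      _ = w * j := by rw [hjj]
  · rw [mul_assoc, hjj]
  · rw [← mul_assoc, hjj]
  · calc j * w' * (w * j * w') = j * (w' * w) * j * w' := by noncomm_ring
      _ = j * j * w' := by rw [h2, mul_one]
      _ = j * w' := by rw [hjj]
  · calc w * j * (j * w') = w * (j * j) * w' := by noncomm_ring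
      _ = w * j * w' := by rw [hjj]
  · calc j * w' * (w * j) = j * (w' * w) * j := by noncomm_ring
      _ = j := by rw [h2, mul_one, hjj]

/-- the first part: every local idempotent of the block is equivalent to a conjugate of `j₀` -/
theorem first (hLEQ : LeqStmt) (hLSU : LsuStmt) (hLCN : LcnStmt) (hMCK : S0.MckStmt)
    (hBPU : S0.BpuStmt) (hBQX : S0.BqxStmt) (ℓ : ℕ) [Fact ℓ.Prime] [CharP F ℓ] [Fintype V]
    [Finite E] (φ : E →* MulAut V) (hP : IsPGroup ℓ V) (hper : Per F φ α) (huni : Uni φ α)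
    {K : Type} [Fintype K] (lam : A →ₗ[F] F) (x y : K → A) (hRF : RF F α lam x y) (n n' : E → A)
    (hn : ∀ e, n e * n' e = 1 ∧ n' e * n e = 1 ∧ ∀ u, n e * α u = α (φ e u) * n e)
    (b j₀ c : A) (hb : ∀ a, b * a = a * b) (hj₀ : Loi F α j₀) (hc : c ∈ FxR (cw F α) ⊤)
    (hs : ∑ k, x k * (j₀ * c * j₀) * y k = b) (j : A) (hj : Loi F α j) (hbj : b * j = j) :
    ∃ t : E, Eqi F α j (n t * j₀ * n' t) := by
  classical
  haveI : Fintype E := Fintype.ofFinite E
  have hl0 : ((ℓ : ℕ) : F) = 0 := CharP.cast_eq_zero F ℓ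
  obtain ⟨B, _, _, αB, β, hβ⟩ := hBQX F V A α ⊤
  obtain ⟨-, -, lamB, KB, _, xB, yB, hRB, hlam⟩ := hBPU ℓ F V E A B K φ α ⊤ αB β lam x y
    φ.ker hl0 hP hper huni hRF hβ (by
      intro e
      rw [MonoidHom.mem_ker]
      constructor
      · intro h q _
        rw [h]
        rfl
      · intro h
        refine MulEquiv.ext fun q => ?_
        exact h q trivial)
  -- representatives
  have hr : ∀ g : MulAut V, ∃ e : E, (∃ e', φ e' = g) → φ e = g := by
    intro g
    by_cases h : ∃ e', φ e' = g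
    · obtain ⟨e, he⟩ := h
      exact ⟨e, fun _ => he⟩
    · exact ⟨1, fun h' => absurd h' h⟩
  choose r hr using hr
  have hr' : ∀ e, φ (r (φ e)) = φ e := fun e => hr _ ⟨e, rfl⟩
  let T : Finset E := Finset.univ.image (fun e => r (φ e))
  have hT : ∀ e : E, ∃! t, t ∈ T ∧ ∀ q ∈ (⊤ : Subgroup V), (φ t)⁻¹ q = (φ e)⁻¹ q := by
    intro e
    refine ⟨r (φ e), ⟨Finset.mem_image.2 ⟨e, Finset.mem_univ _, rfl⟩, fun q _ => by rw [hr']⟩, ?_⟩
    rintro t ⟨ht, hq⟩
    obtain ⟨e', -, rfl⟩ := Finset.mem_image.1 ht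
    have h1 : (φ (r (φ e')))⁻¹ = (φ e)⁻¹ := MulEquiv.ext fun q => hq q trivial
    have h2 : φ e' = φ e := by
      rw [hr'] at h1
      exact inv_injective h1
    show r (φ e') = r (φ e)
    rw [h2]
  have hjc : j₀ * c * j₀ ∈ FxR (cw F α) ⊤ := cmul (cmul hj₀.fx hc) hj₀.fx
  have hM := hMCK ℓ F V E A B K KB φ α ⊤ αB β lam x y lamB xB yB n n' T hl0 hP hper hRF hβ hRB
    hlam hn hT (j₀ * c * j₀) hjc
  rw [hs] at hM
  choose p hp hpx using fun k => hβ.surj (xB k)
  choose q hq hqy using fun k => hβ.surj (yB k)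
  have hbc : b ∈ FxR (cw F α) ⊤ := cmem.2 fun v => (hb _).symm
  -- the summands
  let jt : E → A := fun t => n t * j₀ * n' t
  let ct : E → A := fun t => n t * c * n' t
  have hjt : ∀ t, Loi F α (jt t) := fun t =>
    hLCN F V A α (φ t) j₀ (n t) (n' t) hj₀ (hn t).1 (hn t).2.1 (hn t).2.2
  have hct : ∀ t, ct t ∈ FxR (cw F α) ⊤ := fun t => ccj (hn t).1 (hn t).2.1 (hn t).2.2 hc
  have hprod : ∀ t, n t * (j₀ * c * j₀) * n' t = jt t * ct t * jt t := by
    intro t
    calc n t * (j₀ * c * j₀) * n' t = n t * j₀ * 1 * c * 1 * j₀ * n' t := by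
          rw [mul_one, mul_one]; noncomm_ring
      _ = n t * j₀ * (n' t * n t) * c * (n' t * n t) * j₀ * n' t := by rw [(hn t).2.1]
      _ = jt t * ct t * jt t := by simp only [jt, ct]; noncomm_ring
  let X : (↥T × KB) → A := fun i => p i.2 * jt i.1 * ct i.1 * jt i.1 * q i.2
  have hX : ∀ i, X i ∈ FxR (cw F α) ⊤ := fun i =>
    cmul (cmul (cmul (cmul (hp _) (hjt _).fx) (hct _)) (hjt _).fx) (hq _)
  have hβsum : ∀ (ι : Type) (s : Finset ι) (f : ι → A), (∀ i, f i ∈ FxR (cw F α) ⊤) →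
      β (∑ i ∈ s, f i) = ∑ i ∈ s, β (f i) := by
    intro ι s f hf
    induction s using Finset.induction_on with
    | empty =>
      rw [Finset.sum_empty, Finset.sum_empty]
      exact (hβ.ker 0 (Submodule.zero_mem _)).2 (Submodule.zero_mem _)
    | insert i s his ih =>
      rw [Finset.sum_insert his, Finset.sum_insert his,
        hβ.add _ (hf i) _ (Submodule.sum_mem _ fun k _ => hf k), ih]
  have hβX : β (∑ i, j * X i * j) = β j := by
    rw [hβsum _ _ _ (fun i => cmul (cmul hj.fx (hX i)) hj.fx)]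
    have h1 : ∀ i : ↥T × KB, β (j * X i * j) =
        β j * (xB i.2 * β (n i.1 * (j₀ * c * j₀) * n' i.1) * yB i.2) * β j := by
      intro i
      rw [hprod, hβ.mul _ (cmul hj.fx (hX i)) _ hj.fx, hβ.mul _ hj.fx _ (hX i)]
      have h2 : β (X i) = β (p i.2) * β (jt i.1 * ct i.1 * jt i.1) * β (q i.2) := by
        have h3 : X i = p i.2 * (jt i.1 * ct i.1 * jt i.1) * q i.2 := by
          simp only [X]
          noncomm_ring
        have h4 : jt (i.1 : E) * ct i.1 * jt i.1 ∈ FxR (cw F α) ⊤ :=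
          cmul (cmul (hjt _).fx (hct _)) (hjt _).fx
        rw [h3, hβ.mul _ (cmul (hp _) h4) _ (hq _), hβ.mul _ (hp _) _ h4]
      rw [h2, hpx, hqy]
    rw [Finset.sum_congr rfl fun i _ => h1 i, ← Finset.sum_mul, ← Finset.mul_sum,
      Fintype.sum_prod_type]
    have h5 : ∑ t : ↥T, ∑ k, xB k * β (n (t : E) * (j₀ * c * j₀) * n' (t : E)) * yB k = β b := by
      rw [hM]
      exact Finset.sum_coe_sort T (fun t => ∑ k, xB k * β (n t * (j₀ * c * j₀) * n' t) * yB k)
    rw [h5, ← hβ.mul _ hj.fx _ hbc, ← hβ.mul _ (cmul hj.fx hbc) _ hj.fx]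
    congr 1
    rw [mul_assoc, hbj, hj.id]
  have hker : j - ∑ i, j * X i * j ∈ BKR (cw F α) ⊤ := by
    have hS : ∑ i, j * X i * j ∈ FxR (cw F α) ⊤ :=
      Submodule.sum_mem _ fun i _ => cmul (cmul hj.fx (hX i)) hj.fx
    refine (hβ.ker _ (Submodule.sub_mem _ hj.fx hS)).1 ?_
    have h1 := hβ.add _ (Submodule.sub_mem _ hj.fx hS) _ hS
    rw [sub_add_cancel, hβX] at h1
    have h2 : β (j - ∑ i, j * X i * j) + β j = 0 + β j := by rw [zero_add]; exact h1.symm
    exact add_right_cancel h2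
  obtain ⟨i, hi⟩ := hLSU F V A (↥T × KB) α j X hj hX hker
  refine ⟨i.1, ?_⟩
  rcases hLEQ F V A α j (jt i.1) hj (hjt _) (p i.2) (hp _) (ct i.1 * jt i.1 * q i.2)
    (cmul (cmul (hct _) (hjt _).fx) (hq _)) with h | h
  · refine absurd ?_ hi
    have h3 : j * X i * j = j * p i.2 * jt i.1 * (ct i.1 * jt i.1 * q i.2) * j := by
      simp only [X]
      noncomm_ring
    rw [h3]
    exact h
  · exact h

theorem bor (hBPT : BptStmt) (hLEQ : LeqStmt) (hLSU : LsuStmt) (hLCN : LcnStmt)
    (hMCK : S0.MckStmt) (hBPU : S0.BpuStmt) (hBQX : S0.BqxStmt) : BorStmt := by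
  intro ℓ _ F V E A _ _ _ _ _ _ _ _ φ α hP hC b j j' hb hj hj' hbj hbj'
  obtain ⟨lam, K, _, x, y, hRF, u, hu⟩ := hC.rt
  choose n n' hn1 hn2 hn3 using hC.uni
  obtain ⟨j₀, c, hj₀, -, hc, hs⟩ := hBPT ℓ F V E A K φ α lam x y u hP hC hRF hu b hb
  have hn : ∀ e, n e * n' e = 1 ∧ n' e * n e = 1 ∧ ∀ u, n e * α u = α (φ e u) * n e :=
    fun e => ⟨hn1 e, hn2 e, hn3 e⟩
  obtain ⟨s, hs1⟩ := first hLEQ hLSU hLCN hMCK hBPU hBQX ℓ φ hP hC.per hC.uni lam x y hRF n n' hn
    b j₀ c hb.cen hj₀ hc hs j hj hbj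
  obtain ⟨t, ht1⟩ := first hLEQ hLSU hLCN hMCK hBPU hBQX ℓ φ hP hC.per hC.uni lam x y hRF n n' hn
    b j₀ c hb.cen hj₀ hc hs j' hj' hbj'
  refine ⟨t * s⁻¹, ?_⟩
  intro z z' hz1 hz2 hz3
  have e1 : Eqi F α (z * j * z') (z * (n s * j₀ * n' s) * z') := eqi_conj hz1 hz2 hz3 hs1
  -- the unit
  have hin : ∀ e u, n' e * α u = α ((φ e)⁻¹ u) * n' e := by
    intro e u
    calc n' e * α u = n' e * α u * (n e * n' e) := by rw [hn1, mul_one]
      _ = n' e * (α (φ e ((φ e)⁻¹ u)) * n e) * n' e := by rw [MulAut.apply_inv_self]; noncomm_ring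
      _ = n' e * (n e * α ((φ e)⁻¹ u)) * n' e := by rw [hn3]
      _ = (n' e * n e) * α ((φ e)⁻¹ u) * n' e := by noncomm_ring
      _ = α ((φ e)⁻¹ u) * n' e := by rw [hn2, one_mul]
  have hw : z * n s * n' t ∈ FxR (cw F α) ⊤ := by
    rw [cmem]
    intro v
    symm
    calc z * n s * n' t * α v = z * n s * (n' t * α v) := by noncomm_ring
      _ = z * (n s * α ((φ t)⁻¹ v)) * n' t := by rw [hin]; noncomm_ring
      _ = (z * α (φ s ((φ t)⁻¹ v))) * n s * n' t := by rw [hn3]; noncomm_ring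
      _ = α (φ (t * s⁻¹) (φ s ((φ t)⁻¹ v))) * z * n s * n' t := by rw [hz3]
      _ = α v * (z * n s * n' t) := by
        have h1 : φ (t * s⁻¹) (φ s ((φ t)⁻¹ v)) = v := by
          rw [map_mul, map_inv, MulAut.mul_apply, MulAut.inv_apply_self, MulAut.apply_inv_self]
        rw [h1]
        noncomm_ring
  have hww : z * n s * n' t * (n t * n' s * z') = 1 := by
    calc z * n s * n' t * (n t * n' s * z') = z * n s * (n' t * n t) * n' s * z' := by
          noncomm_ring
      _ = z * (n s * n' s) * z' := by rw [hn2]; noncomm_ring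
      _ = 1 := by rw [hn1, mul_one, hz1]
  have hww' : n t * n' s * z' * (z * n s * n' t) = 1 := by
    calc n t * n' s * z' * (z * n s * n' t) = n t * n' s * (z' * z) * n s * n' t := by
          noncomm_ring
      _ = n t * (n' s * n s) * n' t := by rw [hz2]; noncomm_ring
      _ = 1 := by rw [hn2, mul_one, hn1]
  have hw' : n t * n' s * z' ∈ FxR (cw F α) ⊤ := by
    rw [cmem] at hw ⊢
    intro v
    calc α v * (n t * n' s * z') = (n t * n' s * z' * (z * n s * n' t)) * α v *
          (n t * n' s * z') := by rw [hww', one_mul]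
      _ = n t * n' s * z' * ((z * n s * n' t) * α v) * (n t * n' s * z') := by noncomm_ring
      _ = n t * n' s * z' * (α v * (z * n s * n' t)) * (n t * n' s * z') := by rw [hw]
      _ = n t * n' s * z' * α v * ((z * n s * n' t) * (n t * n' s * z')) := by noncomm_ring
      _ = n t * n' s * z' * α v := by rw [hww, mul_one]
  have hjt : Loi F α (n t * j₀ * n' t) :=
    hLCN F V A α (φ t) j₀ (n t) (n' t) hj₀ (hn1 t) (hn2 t) (hn3 t)
  have e2 := eqi_unit hww hww' hw hw' hjt.fx hjt.id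
  have e3 : z * n s * n' t * (n t * j₀ * n' t) * (n t * n' s * z') =
      z * (n s * j₀ * n' s) * z' := by
    calc z * n s * n' t * (n t * j₀ * n' t) * (n t * n' s * z') =
          z * n s * (n' t * n t) * j₀ * (n' t * n t) * n' s * z' := by noncomm_ring
      _ = z * (n s * j₀ * n' s) * z' := by rw [hn2]; noncomm_ring
  rw [e3] at e2
  exact eqi_trans e1 (eqi_trans e2 (eqi_symm ht1))

end Pool.Agent.PSS.S5.H7
end
end -- Pool.Agent.Helper7_PSS.BOR

section -- Pool.Agent.Helper80_PSS.LCN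

/-!
# Row LCN of squad PSS: conjugation of local idempotents
-/

open scoped BigOperators

namespace Pool.Agent.PSS.S5.H80

open Pool.Agent.PSS Pool.Agent.PSS.S5
open Pool.Agent.PFC (IsTv)

section

variable {F V A : Type} [Field F] [CommGroup V] [Ring A] [Algebra F A]

theorem cw_apply' (α : V →* A) (v : V) (a : A) : cw F α v a = α v * (a * α v⁻¹) := rfl

theorem mem_fx (α : V →* A) (a : A) :
    a ∈ FxR (cw F α) ⊤ ↔ ∀ v, α v * a = a * α v := by
  constructor
  · intro ha v
    have h : α v * (a * α v⁻¹) = a := ha v (Subgroup.mem_top v)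
    have h2 : α v * (a * α v⁻¹) * α v = a * α v := by rw [h]
    rw [← h2, mul_assoc, mul_assoc, ← map_mul, inv_mul_cancel, map_one, mul_one]
  · intro h v _
    rw [cw_apply', ← mul_assoc, h v, mul_assoc, ← map_mul, mul_inv_cancel, map_one, mul_one]

theorem swap' (α : V →* A) (s : MulAut V) (y y' : A) (h1 : y * y' = 1) (h2 : y' * y = 1)
    (hy : ∀ u, y * α u = α (s u) * y) (u : V) : α u * y' = y' * α (s u) := by
  calc α u * y' = y' * y * (α u * y') := by rw [h2, one_mul]
    _ = y' * (y * α u) * y' := by simp only [mul_assoc]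
    _ = y' * (α (s u) * y) * y' := by rw [hy u]
    _ = y' * α (s u) * (y * y') := by simp only [mul_assoc]
    _ = y' * α (s u) := by rw [h1, mul_one]

theorem inv_swap (α : V →* A) (s : MulAut V) (y y' : A) (h1 : y * y' = 1) (h2 : y' * y = 1)
    (hy : ∀ u, y * α u = α (s u) * y) (u : V) : y' * α u = α (s⁻¹ u) * y' := by
  have h := swap' α s y y' h1 h2 hy (s⁻¹ u)
  rw [h, MulAut.apply_inv_self]

theorem fx_conj (α : V →* A) (s : MulAut V) (y y' : A) (h1 : y * y' = 1) (h2 : y' * y = 1)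
    (hy : ∀ u, y * α u = α (s u) * y) (x : A) (hx : x ∈ FxR (cw F α) ⊤) :
    y * x * y' ∈ FxR (cw F α) ⊤ := by
  rw [mem_fx] at hx ⊢
  intro v
  have e1 : α v * y = y * α (s⁻¹ v) := by
    rw [hy, MulAut.apply_inv_self]
  have e2 : α (s⁻¹ v) * y' = y' * α v := by
    rw [swap' α s y y' h1 h2 hy, MulAut.apply_inv_self]
  calc α v * (y * x * y') = (α v * y) * x * y' := by simp only [mul_assoc]
    _ = y * (α (s⁻¹ v) * x) * y' := by rw [e1]; simp only [mul_assoc]
    _ = y * x * (α (s⁻¹ v) * y') := by rw [hx]; simp only [mul_assoc]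
    _ = y * x * y' * α v := by rw [e2]; simp only [mul_assoc]

theorem bk_conj (α : V →* A) (s : MulAut V) (y y' : A) (h1 : y * y' = 1) (h2 : y' * y = 1)
    (hy : ∀ u, y * α u = α (s u) * y) (n : A) (hn : n ∈ BKR (cw F α) ⊤) :
    y * n * y' ∈ BKR (cw F α) ⊤ := by
  classical
  let L : A →ₗ[F] A := (LinearMap.mulRight F y').comp (LinearMap.mulLeft F y)
  have hL : ∀ a, L a = y * a * y' := fun _ => rfl
  have key : ∀ (v : V) (m : A), L (cw F α v m) = cw F α (s v) (L m) := by
    intro v m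
    rw [hL, hL, cw_apply', cw_apply']
    have e := swap' α s y y' h1 h2 hy v⁻¹
    calc y * (α v * (m * α v⁻¹)) * y' = (y * α v) * m * (α v⁻¹ * y') := by
          simp only [mul_assoc]
      _ = α (s v) * (y * m * y' * α (s v)⁻¹) := by
        rw [hy v, e, map_inv]; simp only [mul_assoc]
  have hsinj : Function.Injective (s.toMonoidHom : V →* V) := s.injective
  have htop : (⊤ : Subgroup V).map s.toMonoidHom = ⊤ :=
    Subgroup.map_top_of_surjective _ s.surjective
  have hle : BKR (cw F α) ⊤ ≤ (BKR (cw F α) ⊤).comap L := by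
    apply Submodule.span_le.2
    rintro _ ⟨P', S, m, hP, hS, hm, rfl⟩
    change L (∑ x ∈ S, cw F α x m) ∈ BKR (cw F α) ⊤
    refine Submodule.subset_span
      ⟨P'.map s.toMonoidHom, S.image s.toMonoidHom, L m, ?_, ?_, ?_, ?_⟩
    · refine lt_of_le_of_ne le_top fun h => hP.ne ?_
      rw [← htop] at h
      exact Subgroup.map_injective hsinj h
    · have h := IsTv_map hsinj hS
      rwa [htop] at h
    · rintro _ ⟨p, hp, rfl⟩
      change cw F α (s p) (L m) = L m
      rw [← key, hm p hp]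
    · rw [map_sum, Finset.sum_image (fun a _ b _ h => hsinj h)]
      exact Finset.sum_congr rfl fun v _ => key v m
  exact hle hn

theorem pow_conj (y y' z : A) (h2 : y' * y = 1) (n : ℕ) :
    (y * z * y') ^ (n + 1) = y * z ^ (n + 1) * y' := by
  induction n with
  | zero => simp
  | succ n ih =>
    rw [pow_succ, ih, pow_succ z (n + 1)]
    calc y * z ^ (n + 1) * y' * (y * z * y') = y * z ^ (n + 1) * (y' * y) * z * y' := by
          simp only [mul_assoc]
      _ = y * (z ^ (n + 1) * z) * y' := by rw [h2]; simp only [mul_assoc, mul_one]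

end

theorem lcn : LcnStmt := by
  intro F V A _ _ _ _ α s j y y' hj h1 h2 hy
  have hy' : ∀ u, y' * α u = α (s⁻¹ u) * y' := inv_swap α s y y' h1 h2 hy
  have back : ∀ a : A, y' * (y * a * y') * y = a := by
    intro a
    calc y' * (y * a * y') * y = (y' * y) * a * (y' * y) := by simp only [mul_assoc]
      _ = a := by rw [h2, one_mul, mul_one]
  have cc : ∀ a b : A, (y * a * y') * (y * b * y') = y * (a * b) * y' := by
    intro a b
    calc (y * a * y') * (y * b * y') = y * a * (y' * y) * b * y' := by simp only [mul_assoc]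
      _ = y * (a * b) * y' := by rw [h2]; simp only [mul_assoc, mul_one]
  have forth : ∀ a : A, y * (y' * a * y) * y' = a := by
    intro a
    calc y * (y' * a * y) * y' = (y * y') * a * (y * y') := by simp only [mul_assoc]
      _ = a := by rw [h1, one_mul, mul_one]
  refine ⟨fx_conj α s y y' h1 h2 hy j hj.fx, by rw [cc, hj.id], ?_, ?_⟩
  · intro hn
    apply hj.nz
    have h := bk_conj (F := F) α s⁻¹ y' y h2 h1 hy' _ hn
    rwa [back] at h
  · intro x hx
    have hx' : y' * x * y ∈ FxR (cw F α) ⊤ := fx_conj α s⁻¹ y' y h2 h1 hy' x hx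
    have e : y * j * y' * x * (y * j * y') = y * (j * (y' * x * y) * j) * y' := by
      rw [← forth x, cc, cc, back]
    rw [e]
    rcases hj.loc _ hx' with ⟨n, hn⟩ | ⟨w, hw, hw1, hw2⟩
    · left
      refine ⟨n + 1, ?_⟩
      rw [pow_conj y y' _ h2, pow_succ, hn]
      simp
    · right
      refine ⟨y * w * y', fx_conj α s y y' h1 h2 hy w hw, ?_, ?_⟩
      · rw [cc, cc, cc, hw1]
      · rw [cc, cc, cc, hw2]

end Pool.Agent.PSS.S5.H80
end -- Pool.Agent.Helper80_PSS.LCN

section -- Pool.Agent.Helper81_PSS.SGN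

/-!
# Squad PSS, row SGN (helper81): the sum of the elements of a central group and nilpotent elements
-/

set_option autoImplicit false

open scoped BigOperators

noncomputable section

namespace Pool.Agent.PSS.S5.H81

open Pool.Agent.PSS Pool.Agent.PSS.S5

/-- row SGN -/
theorem sgn : SgnStmt := by
  classical
  intro F V B K _ _ _ _ _ _ _ α lam x y u n hc hF hu hn
  set σ : B := ∑ v, α v with hσ
  have hσc : ∀ b, σ * b = b * σ := by
    intro b
    rw [hσ, Finset.sum_mul, Finset.mul_sum]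
    exact Finset.sum_congr rfl fun v _ => hc v b
  have hσa : ∀ v, α v * σ = σ := by
    intro v
    rw [hσ, Finset.mul_sum]
    rw [← Equiv.sum_comp (Equiv.mulLeft v) (fun w => α w)]
    refine Finset.sum_congr rfl fun w _ => ?_
    rw [Equiv.coe_mulLeft, map_mul]
  let E : B →ₗ[F] B := ∑ k, (lam.comp (LinearMap.mulLeft F (y k))).smulRight (x k * σ)
  have hEa : ∀ s, E s = ∑ k, lam (y k * s) • (x k * σ) := by
    intro s
    show (∑ k, (lam.comp (LinearMap.mulLeft F (y k))).smulRight (x k * σ)) s = _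
    rw [LinearMap.sum_apply]
    rfl
  have hEσ : ∀ t, E (σ * t) = σ * t := by
    intro t
    rw [hEa]
    conv_rhs => rw [← hF.e1 (σ * t)]
    refine Finset.sum_congr rfl fun k _ => ?_
    have h1 : ∀ v, lam (α v⁻¹ * y k * (σ * t)) = lam (y k * (σ * t)) := by
      intro v
      congr 1
      calc α v⁻¹ * y k * (σ * t) = y k * (α v⁻¹ * (σ * t)) := by
            rw [hc v⁻¹ (y k), mul_assoc]
        _ = y k * (σ * t) := by rw [← mul_assoc (α v⁻¹), hσa]
    rw [Finset.sum_congr rfl fun v _ => by rw [h1 v]]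
    rw [← Finset.smul_sum, ← Finset.mul_sum]
  have hEr : ∀ s, ∃ t, E s = σ * t := by
    intro s
    refine ⟨∑ k, lam (y k * s) • x k, ?_⟩
    rw [hEa, Finset.mul_sum]
    refine Finset.sum_congr rfl fun k _ => ?_
    rw [mul_smul_comm, hσc]
  have hEb : ∀ b s, E (b * E s) = b * E s := by
    intro b s
    obtain ⟨t, ht⟩ := hEr s
    rw [ht, ← mul_assoc, ← hσc b, mul_assoc, hEσ]
  have hpow : ∀ (a : B) (i : ℕ) (s : B),
      (((LinearMap.mulLeft F a).comp E) ^ (i + 1)) s = a ^ (i + 1) * E s := by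
    intro a i
    induction i with
    | zero =>
      intro s
      rw [zero_add, pow_one, pow_one]
      rfl
    | succ i ih =>
      intro s
      rw [pow_succ', Module.End.mul_apply, ih]
      show a * E (a ^ (i + 1) * E s) = _
      rw [hEb, ← mul_assoc, ← pow_succ']
  have htr : ∀ a : B, IsNilpotent a → ∑ k, lam (y k * (a * (x k * σ))) = 0 := by
    intro a ha
    have h1 : (LinearMap.mulLeft F a).comp E =
        ∑ k, (lam.comp (LinearMap.mulLeft F (y k))).smulRight (a * (x k * σ)) := by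
      ext s
      rw [LinearMap.sum_apply, LinearMap.comp_apply, hEa, map_sum]
      refine Finset.sum_congr rfl fun k _ => ?_
      rw [map_smul]
      rfl
    have h2 : IsNilpotent ((LinearMap.mulLeft F a).comp E) := by
      obtain ⟨m, hm⟩ := ha
      refine ⟨m + 1, ?_⟩
      ext s
      rw [hpow, pow_succ, hm, zero_mul, zero_mul]
      rfl
    have h3 := LinearMap.isNilpotent_trace_of_isNilpotent h2
    have h4 := h3.eq_zero
    rw [h1, map_sum] at h4
    rw [← h4]
    refine Finset.sum_congr rfl fun k _ => ?_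
    rw [LinearMap.trace_smulRight]
    rfl
  set ζ : B := ∑ k, x k * y k with hζ
  have hz : ∀ m, lam (σ * ζ * n * m) = 0 := by
    intro m
    rw [← htr (n * m) (hn m), hζ, Finset.mul_sum, Finset.sum_mul, Finset.sum_mul, map_sum]
    refine Finset.sum_congr rfl fun k _ => ?_
    calc lam (σ * (x k * y k) * n * m) = lam ((σ * x k) * (y k * (n * m))) := by
          congr 1
          simp only [mul_assoc]
      _ = lam (y k * (n * m) * (σ * x k)) := hF.sym _ _
      _ = lam (y k * (n * m * (x k * σ))) := by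
          congr 1
          rw [hσc, mul_assoc (y k)]
  have h0 : σ * ζ * n = 0 := by
    rw [← hF.e2 (σ * ζ * n)]
    refine Finset.sum_eq_zero fun k _ => Finset.sum_eq_zero fun v _ => ?_
    rw [hz, zero_smul]
  calc σ * n = (u * ζ) * (σ * n) := by rw [hu, one_mul]
    _ = u * (σ * ζ * n) := by
      rw [hσc ζ]
      simp only [mul_assoc]
    _ = 0 := by rw [h0, mul_zero]

end Pool.Agent.PSS.S5.H81
end
end -- Pool.Agent.Helper81_PSS.SGN

section -- Pool.Agent.Helper83_PSS.LCP

/-!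
Squad PSS, rows LCP and KLN: the input of part (0) from the class of local algebras.
-/

set_option autoImplicit false

open scoped BigOperators TensorProduct

noncomputable section

namespace Pool.Agent.PSS.S5.H83

open Pool.Agent.PFC (tw IsTv Cnr Cz PIn Ctf Lcq PmzStmt PS bi cj BK Fx Tpv Frm)
open Pool.Agent.PFD.D2b (FrR)

/-- a finite abelian group of order a power of the characteristic has nonzero fixed vectors -/
theorem fixvec (ℓ : ℕ) [hl : Fact ℓ.Prime] {F V M : Type} [Field F] [CharP F ℓ] [CommGroup V]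
    [Fintype V] [AddCommGroup M] [Module F M] (hV : IsPGroup ℓ V) (ρ : V →* (M →ₗ[F] M))
    (I : Submodule F M) (hI : ∀ v, ∀ m ∈ I, ρ v m ∈ I) {m : M} (hm : m ∈ I) (hm0 : m ≠ 0) :
    ∃ m' ∈ I, m' ≠ 0 ∧ ∀ v, ρ v m' = m' := by
  classical
  have hnt : Nontrivial M := ⟨⟨m, 0, hm0⟩⟩
  have hch : CharP (Module.End F M) ℓ :=
    charP_of_injective_algebraMap (algebraMap F (Module.End F M)).injective ℓ
  have key : ∀ s : Finset V, ∃ m' ∈ I, m' ≠ 0 ∧ ∀ v ∈ s, ρ v m' = m' := by
    intro s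
    induction s using Finset.induction_on with
    | empty => exact ⟨m, hm, hm0, fun v hv => absurd hv (Finset.notMem_empty v)⟩
    | insert a s _ ih =>
      obtain ⟨m', h1, h2, h3⟩ := ih
      obtain ⟨D, hD⟩ : ∃ D : Module.End F M, D = ρ a - 1 := ⟨_, rfl⟩
      have hnil : ∃ k, (D ^ k) m' = 0 := by
        obtain ⟨n, hn⟩ := hV a
        refine ⟨ℓ ^ n, ?_⟩
        have h4 : D ^ ℓ ^ n = 0 := by
          rw [hD, sub_pow_char_pow_of_commute _ _ (Commute.one_right (ρ a)), one_pow]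
          have h5 : (ρ a) ^ ℓ ^ n = (1 : Module.End F M) := by
            have h6 : ρ (a ^ ℓ ^ n) = (ρ a) ^ ℓ ^ n := map_pow ρ a _
            rw [← h6, hn, map_one]
          rw [h5, sub_self]
        rw [h4, LinearMap.zero_apply]
      have hDI : ∀ x ∈ I, D x ∈ I := by
        intro x hx
        rw [hD, LinearMap.sub_apply]
        exact I.sub_mem (hI a x hx) hx
      have hDk : ∀ k, (D ^ k) m' ∈ I := by
        intro k
        induction k with
        | zero =>
          rw [pow_zero]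
          exact h1
        | succ k ih =>
          rw [pow_succ']
          exact hDI _ ih
      have hcm : ∀ v ∈ s, ∀ k, ρ v ((D ^ k) m') = (D ^ k) m' := by
        intro v hv k
        have h7 : Commute (ρ v : Module.End F M) (D ^ k) := by
          apply Commute.pow_right
          rw [hD]
          apply Commute.sub_right _ (Commute.one_right _)
          show ρ v * ρ a = ρ a * ρ v
          rw [← map_mul, ← map_mul, mul_comm]
        have h8 : ρ v ((D ^ k) m') = (D ^ k) (ρ v m') := LinearMap.congr_fun h7.eq m'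
        rw [h8, h3 v hv]
      obtain ⟨k, hk⟩ : ∃ k, k = Nat.find hnil := ⟨_, rfl⟩
      have hk1 : (D ^ k) m' = 0 := by
        rw [hk]
        exact Nat.find_spec hnil
      have hk0 : k ≠ 0 := by
        intro h0
        rw [h0, pow_zero] at hk1
        exact h2 hk1
      obtain ⟨j, rfl⟩ : ∃ j, k = j + 1 := ⟨k - 1, by omega⟩
      refine ⟨(D ^ j) m', hDk j, ?_, ?_⟩
      · exact Nat.find_min hnil (by omega)
      · intro v hv
        rcases Finset.mem_insert.1 hv with h9 | h9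
        · subst h9
          rw [pow_succ'] at hk1
          have h10 : D ((D ^ j) m') = 0 := hk1
          rw [hD, LinearMap.sub_apply, sub_eq_zero] at h10
          rw [hD]
          exact h10
        · exact hcm v h9 j
  obtain ⟨m', h1, h2, h3⟩ := key Finset.univ
  exact ⟨m', h1, h2, fun v => h3 v (Finset.mem_univ v)⟩

section

variable {F V A : Type} [Field F] [CommGroup V] [Ring A] [Algebra F A] (α : V →* A)

theorem cj_apply' (v : V) (a : A) : cj F α v a = α v * (a * α v⁻¹) := rfl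

/-- a symmetric form vanishes on the Brauer kernel -/
theorem lam_BK (ℓ : ℕ) [Fact ℓ.Prime] [CharP F ℓ] [Fintype V] (hV : IsPGroup ℓ V)
    {lam : A →ₗ[F] F} (hl : ∀ a b, lam (a * b) = lam (b * a)) {a : A}
    (ha : a ∈ BK (cj F α) ⊤) : lam a = 0 := by
  unfold BK at ha
  induction ha using Submodule.span_induction with
  | mem n hn =>
    obtain ⟨P', S, m, hlt, hS, -, rfl⟩ := hn
    rw [map_sum]
    have h1 : ∀ x ∈ S, lam (cj F α x m) = lam m := by
      intro x _
      rw [cj_apply', hl, mul_assoc, ← map_mul, inv_mul_cancel, map_one, mul_one]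
    rw [Finset.sum_congr rfl h1, Finset.sum_const, nsmul_eq_mul,
      Pool.Agent.PFC.H33.card_tv_zero ℓ (hV.to_subgroup ⊤) hlt hS, zero_mul]
  | zero => exact map_zero _
  | add a b _ _ ha hb => rw [map_add, ha, hb, add_zero]
  | smul r a _ ha => rw [map_smul, ha, smul_zero]

/-- the Brauer kernel is stable under the elements of `V` -/
theorem BK_mul (v : V) {a : A} (ha : a ∈ BK (cj F α) ⊤) : α v * a ∈ BK (cj F α) ⊤ := by
  unfold BK at ha ⊢
  induction ha using Submodule.span_induction with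
  | mem n hn =>
    obtain ⟨P', S, m, hlt, hS, hm, rfl⟩ := hn
    have hc : ∀ x : V, α v * cj F α x m = cj F α x (α v * m) := by
      intro x
      rw [cj_apply', cj_apply', ← mul_assoc, ← map_mul, mul_comm v x, map_mul]
      simp only [mul_assoc]
    refine Submodule.subset_span ⟨P', S, α v * m, hlt, hS, ?_, ?_⟩
    · intro h hh
      rw [← hc, hm h hh]
    · rw [Finset.mul_sum]
      exact Finset.sum_congr rfl fun x _ => hc x
  | zero =>
    rw [mul_zero]
    exact Submodule.zero_mem _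
  | add a b _ _ ha hb =>
    rw [mul_add]
    exact Submodule.add_mem _ ha hb
  | smul r a _ ha =>
    rw [mul_smul_comm]
    exact Submodule.smul_mem _ r ha

/-- the elements of `V` are free modulo the Brauer kernel -/
theorem free_BK (ℓ : ℕ) [Fact ℓ.Prime] [CharP F ℓ] [Fintype V] (hV : IsPGroup ℓ V)
    {lam : A →ₗ[F] F} (hl : ∀ a b, lam (a * b) = lam (b * a)) (hnz : lam (∑ v, α v) ≠ 0)
    (c : V → F) (hc : ∑ u, c u • α u ∈ BK (cj F α) ⊤) : c = 0 := by
  by_contra hne
  let L : (V → F) →ₗ[F] A := Fintype.linearCombination F (fun u => α u)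
  have hL : ∀ c : V → F, L c = ∑ u, c u • α u := fun c => Fintype.linearCombination_apply F _ c
  let ρ : V →* ((V → F) →ₗ[F] (V → F)) :=
    { toFun := fun v => LinearMap.funLeft F F (fun u => v⁻¹ * u)
      map_one' := by
        apply LinearMap.ext
        intro c
        funext u
        show c (1⁻¹ * u) = c u
        rw [inv_one, one_mul]
      map_mul' := by
        intro v w
        apply LinearMap.ext
        intro c
        funext u
        show c ((v * w)⁻¹ * u) = c (w⁻¹ * (v⁻¹ * u))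
        rw [mul_inv_rev, mul_assoc] }
  have hρ : ∀ (v : V) (c : V → F) (u : V), ρ v c u = c (v⁻¹ * u) := fun _ _ _ => rfl
  have hLρ : ∀ (v : V) (c : V → F), L (ρ v c) = α v * L c := by
    intro v c
    rw [hL, hL, Finset.mul_sum]
    refine Fintype.sum_equiv (Equiv.mulLeft v⁻¹) _ _ fun u => ?_
    rw [Equiv.coe_mulLeft, hρ, mul_smul_comm, ← map_mul, mul_inv_cancel_left]
  obtain ⟨c', h1, h2, h3⟩ := fixvec ℓ hV ρ ((BK (cj F α) ⊤).comap L) (by
    intro v m hm
    rw [Submodule.mem_comap] at hm ⊢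
    rw [hLρ]
    exact BK_mul α v hm) (m := c) (by
      rw [Submodule.mem_comap, hL]
      exact hc) hne
  rw [Submodule.mem_comap, hL] at h1
  have h4 : ∀ u, c' u = c' 1 := by
    intro u
    have h5 := congrFun (h3 u) u
    rw [hρ, inv_mul_cancel] at h5
    exact h5.symm
  have h6 := lam_BK α ℓ hV hl h1
  have h7 : ∑ u, c' u • α u = c' 1 • ∑ u, α u := by
    rw [Finset.smul_sum]
    exact Finset.sum_congr rfl fun u _ => by rw [h4 u]
  rw [h7, map_smul, smul_eq_mul] at h6
  rcases mul_eq_zero.1 h6 with h8 | h8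
  · apply h2
    funext u
    rw [h4 u, h8]
    rfl
  · exact hnz h8

end

/-- LCP. -/
theorem lcp : LcpStmt := by
  intro ℓ _ F V E A _ _ _ _ _ _ _ φ α NN hV hL hq
  obtain ⟨lam, K, _, x, y, hrf, hnz⟩ := hL.frm
  refine ⟨hL.fin, ⟨lam, hrf.sym, ?_, hnz⟩, hL.loc, ?_, ⟨hL.spn, ?_⟩, hq, hL.uni⟩
  · intro a ha
    rw [← hrf.e2 a]
    refine Finset.sum_eq_zero fun k _ => Finset.sum_eq_zero fun v _ => ?_
    rw [ha, zero_smul]
  · obtain ⟨Ω, h1, h2, b, c, h3, h4⟩ := hL.per
    exact ⟨Ω, h1, h2, b, c, h3, h4⟩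
  · intro c hc
    exact free_BK α ℓ hV hrf.sym hnz c hc

end Pool.Agent.PSS.S5.H83
end
end -- Pool.Agent.Helper83_PSS.LCP

section -- Pool.Agent.Helper94_PSS.RFJ

/-! Row RFJ of squad PSS (helper94). -/

open scoped BigOperators

noncomputable section

namespace Pool.Agent.PSS.S5.H94

open Pool.Agent.PSS Pool.Agent.PSS.S5
open Pool.Agent.PFC (tw)
open Pool.Agent.PFD.D2b (FrR)

theorem rfj (dfr : DfrStmt) (drf : DrfStmt) : RfjStmt := by
  intro F V E A Y K _ _ _ _ _ _ _ _ _ φ α lam x y j αY κ hper hRF hjj hj hc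
  obtain ⟨Ω, fΩ, aΩ, b, c, hfr, hst⟩ := hper
  obtain ⟨d, hcd, hD⟩ := dfr F V E A K Ω φ α lam x y b c hRF hfr hst
  have hcm : ∀ v : V, α v * j = j * α v := fun v => mem_cw.1 hj v (Subgroup.mem_top v)
  have hb' : ∀ ω, ∃ z : Y, κ z = j * b ω * j := fun ω => hc.ran _
    (by rw [← mul_assoc, ← mul_assoc, hjj]) (by rw [mul_assoc, hjj])
  have hd' : ∀ ω, ∃ z : Y, κ z = j * d ω * j := fun ω => hc.ran _
    (by rw [← mul_assoc, ← mul_assoc, hjj]) (by rw [mul_assoc, hjj])
  choose b' hb' using hb'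
  choose d' hd' using hd'
  have hκ : ∀ a : Y, j * κ a * j = κ a := fun a => by
    rw [← hc.one, ← hc.mul, ← hc.mul, one_mul, mul_one]
  have hκl : ∀ a : Y, j * κ a = κ a := fun a => by
    rw [← hc.one, ← hc.mul, one_mul]
  have hκr : ∀ a : Y, κ a * j = κ a := fun a => by
    rw [← hc.one, ← hc.mul, mul_one]
  -- moving the group elements
  have hmv : ∀ (u v : V) (a : A), j * (α u * a * α v) * j = α u * j * (j * a * j) * (α v * j) := by
    intro u v a
    calc j * (α u * a * α v) * j = (j * α u) * a * (α v * j) := by simp only [mul_assoc]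
      _ = (α u * (j * j)) * a * ((j * j) * α v) := by rw [hjj, ← hcm, ← hcm]
      _ = (α u * j) * (j * a * j) * (j * α v) := by simp only [mul_assoc]
      _ = α u * j * (j * a * j) * (α v * j) := by rw [hcm v]
  have hDY : DFr F αY (lam.comp κ) b' d' := by
    refine ⟨?_, ?_, ?_, ?_, hD.fl, hD.fr⟩
    · intro a a'
      show lam (κ (a * a')) = lam (κ (a' * a))
      rw [hc.mul, hc.mul, hD.sym]
    · intro u v ω
      apply hc.inj
      rw [hb', hD.eb, hc.mul, hc.mul, hc.cov, hc.cov, hb', hmv]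
    · intro u v ω
      apply hc.inj
      rw [hd', hD.ed, hc.mul, hc.mul, hc.cov, hc.cov, hd', hmv]
    · intro a
      apply hc.inj
      rw [map_sum]
      have h1 : ∀ ω, κ (lam.comp κ (d' ω * a) • b' ω) =
          j * (lam (d ω * κ a) • b ω) * j := by
        intro ω
        rw [map_smul, hb']
        show lam (κ (d' ω * a)) • (j * b ω * j) = _
        have h2 : lam (κ (d' ω * a)) = lam (d ω * κ a) := by
          rw [hc.mul, hd', mul_assoc, hκl, mul_assoc, hD.sym, mul_assoc, hκr]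
        rw [h2, mul_smul_comm, smul_mul_assoc]
      rw [Finset.sum_congr rfl (fun ω _ => h1 ω), ← Finset.sum_mul, ← Finset.mul_sum,
        hD.sum, hκ]
  exact ⟨_, inferInstance, _, _, drf F V Y Ω αY (lam.comp κ) b' d' hDY⟩

end Pool.Agent.PSS.S5.H94
end
end -- Pool.Agent.Helper94_PSS.RFJ
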