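import Pool.Agent.Helper12_AWB.B020
import Pool.Agent.Helper12_AWB.B021
import Pool.Agent.Helper12_AWB.B024
import Pool.Agent.Helper12_AWB.B031
import Pool.Agent.Helper12_AWB.B185

/-!
# Merged copies (generated) of the modules

* `Pool.Agent.Helper77_PSS.NRF`
* `Pool.Agent.Helper32_PSS.RBK`
* `Pool.Agent.Helper44_PSS.NAK`
* `Pool.Agent.Helper97_PSS.RTN`
* `Pool.Agent.Helper52_PSS.NRS`
* `Pool.Agent.Helper60_PSS.DZF`
* `Pool.Agent.Helper3_PST.NCN`
* `Pool.Agent.PST.Ldw`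
* `Pool.Agent.PST.Nrt`
* `Pool.Agent.PST.Tpw`
* `Pool.Agent.PST.Stq`
-/

set_option autoImplicit false

section -- Pool.Agent.Helper77_PSS.NRF

/-!
# Squad PSS, row NRF (helper77): the relative Frobenius system of `N_W(A)`
-/

set_option autoImplicit false

open scoped BigOperators TensorProduct

noncomputable section

namespace Pool.Agent.PSS.H77N

open Pool.Agent.PFC (tw IsTv)
open Pool.Agent.PFD.D2b (FrR)

variable {R V A : Type} [CommRing R] [CommGroup V] [Ring A] [Algebra R A]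

theorem one_cw (α : V →* A) (Q : Subgroup V) : (1 : A) ∈ FxR (cw R α) Q := by
  rw [mem_cw]
  intro q _
  rw [mul_one, one_mul]

/-- the diagonal -/
def dg (V : Type) [CommGroup V] : V →* V × V := (MonoidHom.id V).prod (MonoidHom.id V)

theorem dg_inj : Function.Injective (dg V) := fun _ _ h => congrArg Prod.fst h

theorem map_dg (W : Subgroup V) : W.map (dg V) = twW W (1 : MulAut W) := by
  ext p
  constructor
  · rintro ⟨w, hw, rfl⟩
    exact ⟨⟨w, hw⟩, rfl⟩
  · rintro ⟨w, rfl⟩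
    exact ⟨w, w.2, rfl⟩

theorem BKR_cw (α : V →* A) (W : Subgroup V) :
    BKR (cw R α) W = BKR (bw R α) (twW W (1 : MulAut W)) := by
  rw [← map_dg, BKR_map (bw R α) dg_inj]
  rfl

set_option linter.unusedSectionVars false

variable [Fintype V] {Ω : Type} [Fintype Ω] [MulAction (V × V) Ω] {α : V →* A} {lam : A →ₗ[R] R}
  {b d : Ω → A}

theorem fx_b (hD : DFr R α lam b d) {W : Subgroup V} {ε : MulAut W} (ω : Fp Ω (twW W ε)) :
    b ω.1 ∈ FxR (bw R α) (twW W ε) := by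
  rw [mem_tw]
  intro w
  have h1 : (((ε w : W) : V), (w : V)) • ω.1 = ω.1 := ω.2 ⟨w, rfl⟩
  have h2 := hD.eb ((ε w : W) : V) (w : V) ω.1
  rw [h1] at h2
  calc α ((ε w : W) : V) * b ω.1 = α ((ε w : W) : V) * b ω.1 * α (w : V)⁻¹ * α (w : V) := by
        rw [mul_assoc _ (α (w : V)⁻¹), ← map_mul, inv_mul_cancel, map_one, mul_one]
    _ = b ω.1 * α (w : V) := by rw [← h2]

theorem fx_d (hD : DFr R α lam b d) {W : Subgroup V} {ε : MulAut W} (ω : Fp Ω (twW W ε)) :
    d ω.1 ∈ FxR (bw R α) (twW W ε⁻¹) := by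
  rw [mem_tw]
  intro w
  obtain ⟨w', rfl⟩ := ε.surjective w
  have h1 : (((ε w' : W) : V), (w' : V)) • ω.1 = ω.1 := ω.2 ⟨w', rfl⟩
  have h2 := hD.ed ((ε w' : W) : V) (w' : V) ω.1
  rw [h1] at h2
  have h3 : ε⁻¹ (ε w') = w' := MulAut.inv_apply_self W ε w'
  rw [h3]
  calc α (w' : V) * d ω.1
      = α (w' : V) * d ω.1 * α ((ε w' : W) : V)⁻¹ * α ((ε w' : W) : V) := by
        rw [mul_assoc _ (α ((ε w' : W) : V)⁻¹), ← map_mul, inv_mul_cancel, map_one, mul_one]
    _ = d ω.1 * α ((ε w' : W) : V) := by rw [← h2]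

theorem bd_q (hD : DFr R α lam b d) {ω ω' : Ω}
    (h : (qmk ω : Qt (V := V) Ω) = qmk ω') : b ω * d ω = b ω' * d ω' := by
  obtain ⟨v, rfl⟩ := qmk_eq.1 h
  rw [hD.eb, hD.ed, map_one, one_mul, inv_one, map_one, mul_one, mul_assoc, ← mul_assoc (α v⁻¹),
    ← map_mul, inv_mul_cancel, map_one, one_mul]

theorem fx_q {W : Subgroup V} {ε : MulAut W} (ω : Fp Ω (twW W ε)) :
    W.prod (⊥ : Subgroup V) ≤ MulAction.stabilizer (V × V) (qmk ω.1 : Qt (V := V) Ω) := by
  rintro ⟨w, u⟩ ⟨hw, hu⟩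
  have hu' : u = 1 := Subgroup.mem_bot.1 hu
  subst hu'
  obtain ⟨w', hw'⟩ := ε.surjective ⟨w, hw⟩
  have h1 : (((ε w' : W) : V), (w' : V)) • ω.1 = ω.1 := ω.2 ⟨w', rfl⟩
  rw [hw'] at h1
  rw [MulAction.mem_stabilizer_iff, smul_qmk, qmk_eq]
  refine ⟨(w' : V), ?_⟩
  rw [smul_smul, Prod.mk_mul_mk, one_mul, mul_one]
  exact h1

/-- the restriction of an automorphism to a stable subgroup -/
def rsA (f : MulAut V) (W : Subgroup V) (h1 : ∀ w ∈ W, f w ∈ W) (h2 : ∀ w ∈ W, f⁻¹ w ∈ W) :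
    MulAut W where
  toFun w := ⟨f w, h1 w w.2⟩
  invFun w := ⟨f⁻¹ w, h2 w w.2⟩
  left_inv w := Subtype.ext (MulAut.inv_apply_self V f w)
  right_inv w := Subtype.ext (MulAut.apply_inv_self V f w)
  map_mul' u v := Subtype.ext (map_mul f (u : V) v)

theorem sg_smul {W : Subgroup V} (g : V × V) (t : Σ ε : MulAut W, Fp Ω (twW W ε)) :
    g • t = ⟨t.1, g • t.2⟩ := rfl

theorem fx_eps (hD : DFr R α lam b d) {W : Subgroup V} {ε ε' : MulAut W} {ω : Ω}
    (h : twW W ε ≤ MulAction.stabilizer (V × V) ω)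
    (h' : twW W ε' ≤ MulAction.stabilizer (V × V) ω) : ε = ε' := by
  apply MulEquiv.ext
  intro w
  have h1 : (((ε w : W) : V), (w : V)) ∈ MulAction.stabilizer (V × V) ω := h ⟨w, rfl⟩
  have h2 : (((ε' w : W) : V), (w : V)) ∈ MulAction.stabilizer (V × V) ω := h' ⟨w, rfl⟩
  have h3 := mul_mem h1 (inv_mem h2)
  rw [Prod.inv_mk, Prod.mk_mul_mk, mul_inv_cancel] at h3
  have h4 := hD.fl _ _ (MulAction.mem_stabilizer_iff.1 h3)
  exact Subtype.ext (mul_inv_eq_one.1 h4)

/-- the map between the sets of orbits -/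
def qm (W : Subgroup V) (k : Qt (V := V) (Σ ε : MulAut W, Fp Ω (twW W ε))) :
    Fp (Qt (V := V) Ω) (W.prod (⊥ : Subgroup V)) :=
  ⟨qmk k.rep.2.1, fx_q k.rep.2⟩

/-- NRF -/
theorem nrf (hDFR : DfrStmt) (hDRF : DrfStmt) (hRFU : RfuStmt) (hQOR : QorStmt)
    (hNFD : NfdStmt) : NrfStmt := by
  classical
  intro ℓ hℓ R V E A B K _ _ _ _ _ _ _ _ _ φ α W N lam x y hR hV hW hP hRF
  obtain ⟨Ω, iF, iA, b, c, hF, hst⟩ := hP
  obtain ⟨d, hcd, hD⟩ := hDFR R V E A K Ω φ α lam x y b c hRF hF hst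
  have e1 := hRFU R V A K (Qt (V := V) Ω) α lam x y _ _ hRF (hDRF R V A Ω α lam b d hD) 1
    (one_cw α ⊤)
  have e2 := hQOR R V A Ω α lam b d hD W 1 (one_cw α ⊤)
  rw [BKR_cw] at e2
  have e3 := (N.ker 1 _ (BKR_le_FxR e2)).2 e2
  rw [map_sub, sub_eq_zero] at e3
  have : Finite (MulAut W) := Finite.of_injective (fun f => (f : W → W)) DFunLike.coe_injective
  let iS : Fintype (Σ ε : MulAut W, Fp Ω (twW W ε)) := Fintype.ofFinite _
  obtain ⟨lam', hl', hD'⟩ := hNFD ℓ R V A B Ω α lam b d W N hR hV hD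
  have hRF' := hDRF R V B (Σ ε : MulAut W, Fp Ω (twW W ε)) N.nwh lam' _ _ hD'
  refine ⟨lam', Qt (V := V) (Σ ε : MulAut W, Fp Ω (twW W ε)), inferInstance, _, _, hRF', ?_⟩
  have e4 : (∑ k, x k * y k : A) = ∑ k, x k * 1 * y k :=
    Finset.sum_congr rfl fun k _ => by rw [mul_one]
  rw [e4, e1, e3, map_sum]
  refine Fintype.sum_bijective (M := B) (qm W) ?_ _ _ ?_
  · constructor
    · intro k k' hk
      have h1 : (qmk k.rep.2.1 : Qt (V := V) Ω) = qmk k'.rep.2.1 := congrArg Subtype.val hk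
      obtain ⟨v, hv⟩ := qmk_eq.1 h1
      rw [← k.mk_rep, ← k'.mk_rep, qmk_eq]
      refine ⟨v, ?_⟩
      generalize k.rep = t at hv
      generalize k'.rep = t' at hv
      obtain ⟨ε, ω⟩ := t
      obtain ⟨ε', ω'⟩ := t'
      have h2 : ε = ε' := by
        apply fx_eps hD (ω := ω'.1) ?_ ω'.2
        change ((1, v) : V × V) • ω.1 = ω'.1 at hv
        rw [← hv]
        exact (((1, v) : V × V) • ω).2
      subst h2
      rw [sg_smul]
      exact congrArg (Sigma.mk ε) (Subtype.ext hv)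
    · rintro ⟨q, hq⟩
      obtain ⟨e, S, hS⟩ := hst q.rep
      have hinv : ∀ w ∈ W, (φ e)⁻¹ w ∈ W := by
        intro w hw
        rw [← map_inv]
        exact hW e⁻¹ w hw
      have h1 : twW W (rsA (φ e) W (hW e) hinv) ≤ MulAction.stabilizer (V × V) q.rep := by
        rintro _ ⟨w, rfl⟩
        have h2 : ((φ e (w : V), 1) : V × V) • q = q :=
          hq ⟨hW e w w.2, Subgroup.mem_bot.2 rfl⟩
        rw [← q.mk_rep, smul_qmk, qmk_eq] at h2
        obtain ⟨v, hv⟩ := h2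
        rw [smul_smul, Prod.mk_mul_mk, one_mul, mul_one] at hv
        have h3 : ((φ e (w : V), v) : V × V) ∈ MulAction.stabilizer (V × V) q.rep := hv
        rw [hS] at h3 ⊢
        obtain ⟨s, hs, h4⟩ := h3
        have h5 : φ e s = φ e w := congrArg Prod.fst h4
        have h6 : s = w := (φ e).injective h5
        subst h6
        exact ⟨(w : V), hs, rfl⟩
      refine ⟨qmk ⟨rsA (φ e) W (hW e) hinv, ⟨q.rep, h1⟩⟩, ?_⟩
      apply Subtype.ext
      change (qmk (qmk ⟨rsA (φ e) W (hW e) hinv, ⟨q.rep, h1⟩⟩ :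
        Qt (V := V) (Σ ε : MulAut W, Fp Ω (twW W ε))).rep.2.1 : Qt (V := V) Ω) = q
      have h7 := Qt.mk_rep (qmk ⟨rsA (φ e) W (hW e) hinv, ⟨q.rep, h1⟩⟩ :
        Qt (V := V) (Σ ε : MulAut W, Fp Ω (twW W ε)))
      rw [qmk_eq] at h7
      obtain ⟨v, hv⟩ := h7
      refine Eq.trans (qmk_eq.2 ⟨v, ?_⟩) (Qt.mk_rep q)
      exact congrArg (fun t : (Σ ε : MulAut W, Fp Ω (twW W ε)) => t.2.1) hv
  · intro k
    rw [← N.mul _ _ _ (fx_b hD k.rep.2) _ (fx_d hD k.rep.2), mul_inv_cancel, mul_one]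
    apply congrArg (N.β 1)
    exact bd_q hD (Qt.mk_rep _).symm

end Pool.Agent.PSS.H77N
end
end -- Pool.Agent.Helper77_PSS.NRF

section -- Pool.Agent.Helper32_PSS.RBK

/-!
# Squad PSS, row RBK (helper32): the relative trace preserves the Brauer kernel of `V`
-/

set_option autoImplicit false

open scoped BigOperators TensorProduct

noncomputable section

namespace Pool.Agent.PSS.S5.H32

open Pool.Agent.PFC (tw IsTv)
open Pool.Agent.PFD.D2b (FrR)

/-- RBK -/
theorem rbk (rtn : RtnStmt) : RbkStmt := by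
  intro ℓ _ F V E A K _ _ _ _ _ _ _ _ φ α lam x y hV hPer hRF z hz
  obtain ⟨Ω, i1, i2, b, c, hf, -⟩ := id hPer
  obtain ⟨B, i3, i4, ⟨N⟩⟩ := nwe α hf ⊤
  have hzF : z ∈ FxR (cw F α) ⊤ := BKR_le_FxR hz
  have h1 := rtn ℓ F V E A B K φ α lam x y ⊤ N hV (fun _ _ _ => Subgroup.mem_top _) hPer hRF z
    hzF
  rw [H77N.BKR_cw] at hz ⊢
  have h2 : N.β 1 z = 0 := (N.ker 1 z (BKR_le_FxR hz)).2 hz
  have h3 : N.β 1 (∑ k, x k * z * y k) = 0 := by
    have h4 : Submodule.span F {w : B | ∃ s t : B, w = s * N.β 1 z * t} ≤ ⊥ := by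
      refine Submodule.span_le.2 ?_
      rintro w ⟨s, t, rfl⟩
      rw [h2, mul_zero, zero_mul]
      exact Submodule.zero_mem _
    exact (Submodule.mem_bot F).1 (h4 h1)
  have h5 : ∑ k, x k * z * y k ∈ FxR (bw F α) (twW ⊤ (1 : MulAut (⊤ : Subgroup V))) := by
    rw [mem_tw]
    intro w
    exact S0.H80.zrt F V A K α lam x y hRF z hzF _
  exact (N.ker 1 _ h5).1 h3

end Pool.Agent.PSS.S5.H32
end
end -- Pool.Agent.Helper32_PSS.RBK

section -- Pool.Agent.Helper44_PSS.NAK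

/-! Squad PSS (MP_6a3f1a_al), row NAK (helper44): Nakayama's lemma for an `ℓ`-group in
characteristic `ℓ`. -/

set_option autoImplicit false

open scoped BigOperators

noncomputable section

namespace Pool.Agent.PSS.S5.H44

section gen

variable {F V M : Type} [Field F] [CommGroup V] [AddCommGroup M] [Module F M]
  (ρ : V →* (M →ₗ[F] M))

/-- the algebra homomorphism of the group algebra -/
def ph : MonoidAlgebra F V →ₐ[F] (M →ₗ[F] M) := MonoidAlgebra.lift F (M →ₗ[F] M) V ρ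

theorem ph_of (v : V) : ph ρ (MonoidAlgebra.of F V v) = ρ v := by
  unfold ph
  exact MonoidAlgebra.lift_of _ _

theorem ph_mem {D : Submodule F M} (hD : ∀ v, ∀ m ∈ D, ρ v m ∈ D) (r : MonoidAlgebra F V) :
    ∀ m ∈ D, ph ρ r m ∈ D := by
  intro m hm
  induction r using MonoidAlgebra.induction_on with
  | of v =>
    rw [ph_of]
    exact hD v m hm
  | add x y hx hy =>
    rw [map_add, LinearMap.add_apply]
    exact Submodule.add_mem _ hx hy
  | smul c x hx =>
    rw [map_smul, LinearMap.smul_apply]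
    exact Submodule.smul_mem _ _ hx

/-- the augmentation ideal -/
def aug (F V : Type) [Field F] [CommGroup V] : Ideal (MonoidAlgebra F V) :=
  Ideal.span (Set.range fun v : V => MonoidAlgebra.of F V v - 1)

theorem aug_nil (ℓ : ℕ) [Fact ℓ.Prime] [CharP F ℓ] [Finite V] (hV : IsPGroup ℓ V) :
    IsNilpotent (aug F V) := by
  have hc : CharP (MonoidAlgebra F V) ℓ :=
    charP_of_injective_algebraMap (algebraMap F (MonoidAlgebra F V)).injective ℓ
  have hfg : (aug F V).FG := Submodule.fg_span (Set.finite_range _)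
  rw [Ideal.FG.isNilpotent_iff_le_nilradical hfg]
  unfold aug
  rw [Ideal.span_le]
  rintro _ ⟨v, rfl⟩
  obtain ⟨n, hn⟩ := hV v
  change MonoidAlgebra.of F V v - 1 ∈ nilradical (MonoidAlgebra F V)
  rw [mem_nilradical]
  refine ⟨ℓ ^ n, ?_⟩
  rw [sub_pow_char_pow, ← map_pow, hn, map_one, one_pow, sub_self]

end gen

theorem nak : NakStmt := by
  intro ℓ _ F V M _ _ _ _ _ _ ρ D D' hV hD hD' h
  have key : ∀ k : ℕ, D ≤ D' ⊔ Submodule.span F {x : M | ∃ r ∈ (aug F V) ^ k, ∃ d ∈ D,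
      x = ph ρ r d} := by
    intro k
    induction k with
    | zero =>
      intro m hm
      refine Submodule.mem_sup_right (Submodule.subset_span ⟨1, ?_, m, hm, ?_⟩)
      · rw [pow_zero, Ideal.one_eq_top]
        exact Submodule.mem_top
      · rw [map_one]
        rfl
    | succ k ih =>
      refine ih.trans (sup_le le_sup_left ?_)
      rw [Submodule.span_le]
      rintro _ ⟨r, hr, d, hd, rfl⟩
      obtain ⟨m', hm', hs⟩ := h d hd
      have e : ph ρ r d = ph ρ r m' + ph ρ r (d - m') := by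
        rw [← map_add]
        congr 1
        abel
      rw [e]
      refine Submodule.add_mem _ (Submodule.mem_sup_left (ph_mem ρ hD' r m' hm')) ?_
      refine Submodule.mem_sup_right ?_
      have h2 : ∀ y ∈ Submodule.span F {x : M | ∃ v, ∃ d ∈ D, x = ρ v d - d},
          ph ρ r y ∈ Submodule.span F {x : M | ∃ r ∈ (aug F V) ^ (k + 1), ∃ d ∈ D,
            x = ph ρ r d} := by
        intro y hy
        induction hy using Submodule.span_induction with
        | mem x hx =>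
          obtain ⟨v, d', hd', rfl⟩ := hx
          refine Submodule.subset_span ⟨r * (MonoidAlgebra.of F V v - 1), ?_, d', hd', ?_⟩
          · rw [pow_succ]
            exact Ideal.mul_mem_mul hr (Ideal.subset_span ⟨v, rfl⟩)
          · have h0 : ph ρ (MonoidAlgebra.of F V v - 1) = ρ v - 1 := by
              rw [map_sub, ph_of]
              exact congrArg _ (map_one (ph ρ))
            rw [map_mul, h0]
            rfl
        | zero =>
          rw [map_zero]
          exact Submodule.zero_mem _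
        | add x y _ _ h1 h2 =>
          rw [map_add]
          exact Submodule.add_mem _ h1 h2
        | smul c x _ h1 =>
          rw [map_smul]
          exact Submodule.smul_mem _ _ h1
      have h3 : d - m' ∈ Submodule.span F {x : M | ∃ v, ∃ d ∈ D, x = ρ v d - d} := hs
      exact h2 _ h3
  obtain ⟨n, hn⟩ := aug_nil (F := F) ℓ hV
  intro m hm
  have h1 := key n hm
  have h2 : Submodule.span F {x : M | ∃ r ∈ (aug F V) ^ n, ∃ d ∈ D, x = ph ρ r d} = ⊥ := by
    rw [Submodule.span_eq_bot]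
    rintro _ ⟨r, hr, d, _, rfl⟩
    rw [hn] at hr
    have hr0 : r = 0 := hr
    rw [hr0, map_zero]
    rfl
  rw [h2, sup_bot_eq] at h1
  exact h1

end Pool.Agent.PSS.S5.H44
end
end -- Pool.Agent.Helper44_PSS.NAK

section -- Pool.Agent.Helper97_PSS.RTN

/-!
# Squad PSS, row RTN (helper97): the Brauer map of a relative trace
-/

set_option autoImplicit false

open scoped BigOperators TensorProduct

noncomputable section

namespace Pool.Agent.PSS.S5.H97

open Pool.Agent.PFC (tw IsTv)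
open Pool.Agent.PFD.D2b (FrR)
open Pool.Agent.PSS.H77N (BKR_cw rsA)

variable {R V A B : Type} [CommRing R] [CommGroup V] [Ring A] [Algebra R A] [Ring B] [Algebra R B]

/-- an element which commutes with `V` is fixed by `twW W 1` -/
theorem cw_tw {α : V →* A} {z : A} (hz : z ∈ FxR (cw R α) ⊤) (W : Subgroup V) :
    z ∈ FxR (bw R α) (twW W (1 : MulAut W)) := by
  rw [mem_tw]
  intro w
  exact mem_cw.1 hz (w : V) trivial

set_option linter.unusedSectionVars false

variable [Fintype V] {Ω : Type} [Fintype Ω] [MulAction (V × V) Ω] {α : V →* A} {lam : A →ₗ[R] R}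
  {b d : Ω → A}

/-- the product of three terms -/
theorem three {W : Subgroup V} (N : IsNW R α W B) (hD : DFr R α lam b d) {ε : MulAut W} {ω : Ω}
    (h : twW W ε ≤ MulAction.stabilizer (V × V) ω) {z : A} (hz : z ∈ FxR (cw R α) ⊤) :
    N.β 1 (b ω * z * d ω) = N.β ε (b ω) * N.β 1 z * N.β ε⁻¹ (d ω) := by
  have h1 := H77N.fx_b hD (⟨ω, h⟩ : Fp Ω (twW W ε))
  have h2 := H77N.fx_d hD (⟨ω, h⟩ : Fp Ω (twW W ε))
  have h3 := cw_tw hz W
  have h4 : b ω * z ∈ FxR (bw R α) (twW W ε) := by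
    rw [mem_tw]
    intro w
    have h5 : α ((ε w : W) : V) * b ω = b ω * α (w : V) := (mem_tw α W ε).1 h1 w
    have h6 : α (w : V) * z = z * α (w : V) := (mem_tw α W 1).1 h3 w
    rw [← mul_assoc, h5, mul_assoc, h6, mul_assoc]
  have e1 := N.mul ε ε⁻¹ _ h4 _ h2
  have e2 := N.mul ε 1 _ h1 _ h3
  rw [mul_inv_cancel] at e1
  rw [mul_one] at e2
  rw [e1, e2]

/-- RTN -/
theorem rtn (hDFR : DfrStmt) (hDRF : DrfStmt) (hRFU : RfuStmt) (hQOR : QorStmt) : RtnStmt := by
  classical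
  intro ℓ hℓ F V E A B K _ _ _ _ _ _ _ _ _ _ φ α lam x y W N hV hW hP hRF z hz
  obtain ⟨Ω, iF, iA, b, c, hF, hst⟩ := hP
  obtain ⟨d, hcd, hD⟩ := hDFR F V E A K Ω φ α lam x y b c hRF hF hst
  have e1 := hRFU F V A K (Qt (V := V) Ω) α lam x y _ _ hRF (hDRF F V A Ω α lam b d hD) z hz
  have e2 := hQOR F V A Ω α lam b d hD W z hz
  rw [BKR_cw] at e2
  have e3 := (N.ker 1 _ (BKR_le_FxR e2)).2 e2
  rw [map_sub, sub_eq_zero] at e3
  rw [e1, e3, map_sum]
  refine Submodule.sum_mem _ ?_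
  rintro ⟨q, hq⟩ _
  obtain ⟨e, S, hS⟩ := hst q.rep
  have hinv : ∀ w ∈ W, (φ e)⁻¹ w ∈ W := by
    intro w hw
    rw [← map_inv]
    exact hW e⁻¹ w hw
  have h1 : twW W (rsA (φ e) W (hW e) hinv) ≤ MulAction.stabilizer (V × V) q.rep := by
    rintro _ ⟨w, rfl⟩
    have h2 : ((φ e (w : V), 1) : V × V) • q = q :=
      hq ⟨hW e w w.2, Subgroup.mem_bot.2 rfl⟩
    rw [← q.mk_rep, smul_qmk, qmk_eq] at h2
    obtain ⟨v, hv⟩ := h2
    rw [smul_smul, Prod.mk_mul_mk, one_mul, mul_one] at hv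
    have h3 : ((φ e (w : V), v) : V × V) ∈ MulAction.stabilizer (V × V) q.rep := hv
    rw [hS] at h3 ⊢
    obtain ⟨s, hs, h4⟩ := h3
    have h5 : φ e s = φ e w := congrArg Prod.fst h4
    have h6 : s = w := (φ e).injective h5
    subst h6
    exact ⟨(w : V), hs, rfl⟩
  apply Submodule.subset_span
  exact ⟨_, _, three N hD h1 hz⟩

end Pool.Agent.PSS.S5.H97
end
end -- Pool.Agent.Helper97_PSS.RTN

section -- Pool.Agent.Helper52_PSS.NRS

/-!
# Squad PSS, row NRS: `N_W(A)` does not depend on `V`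
-/

set_option autoImplicit false

open scoped BigOperators TensorProduct

noncomputable section

namespace Pool.Agent.PSS.H52

open Pool.Agent.PSS
open Pool.Agent.PFC (tw IsTv)
open Pool.Agent.PFD.D2b (FrR)

section

variable {V : Type} [CommGroup V] {W V' : Subgroup V} (hWV : W ≤ V')

/-- the automorphisms -/
def tht : MulAut (W.subgroupOf V') ≃* MulAut W := MulAut.congr (Subgroup.subgroupOfEquivOfLe hWV)

/-- the inclusion -/
def inc (V' : Subgroup V) : V' × V' →* V × V := V'.subtype.prodMap V'.subtype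

theorem inc_inj : Function.Injective (inc V') := by
  rintro ⟨a, b⟩ ⟨c, d⟩ h
  have h' : ((a : V), (b : V)) = ((c : V), (d : V)) := h
  rw [Prod.mk.injEq] at h'
  rw [Prod.mk.injEq]
  exact ⟨Subtype.ext h'.1, Subtype.ext h'.2⟩

theorem tht_apply (ε : MulAut (W.subgroupOf V')) (w : W.subgroupOf V') :
    ((tht hWV ε (Subgroup.subgroupOfEquivOfLe hWV w) : W) : V) =
      (((ε w : W.subgroupOf V') : V') : V) := by
  have h : tht hWV ε (Subgroup.subgroupOfEquivOfLe hWV w) =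
      Subgroup.subgroupOfEquivOfLe hWV (ε w) := by
    change Subgroup.subgroupOfEquivOfLe hWV (ε ((Subgroup.subgroupOfEquivOfLe hWV).symm
      (Subgroup.subgroupOfEquivOfLe hWV w))) = _
    rw [MulEquiv.symm_apply_apply]
  rw [h]
  rfl

theorem tw_map (ε : MulAut (W.subgroupOf V')) :
    (twW (W.subgroupOf V') ε).map (inc V') = twW W (tht hWV ε) := by
  ext p
  constructor
  · rintro ⟨_, ⟨w, rfl⟩, rfl⟩
    refine ⟨Subgroup.subgroupOfEquivOfLe hWV w, ?_⟩
    refine Prod.ext ?_ rfl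
    exact tht_apply hWV ε w
  · rintro ⟨w, rfl⟩
    refine ⟨_, ⟨(Subgroup.subgroupOfEquivOfLe hWV).symm w, rfl⟩, ?_⟩
    refine Prod.ext ?_ ?_
    · have h := tht_apply hWV ε ((Subgroup.subgroupOfEquivOfLe hWV).symm w)
      rw [MulEquiv.apply_symm_apply] at h
      exact h.symm
    · have h : ((Subgroup.subgroupOfEquivOfLe hWV ((Subgroup.subgroupOfEquivOfLe hWV).symm w) :
          W) : V) = w := by
        rw [MulEquiv.apply_symm_apply]
      exact h

end

theorem nrs : NrsStmt := by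
  intro R V A B _ _ _ _ _ _ _ α W V' N hWV
  have hbw : bw R (α.comp V'.subtype) = (bw R α).comp (inc V') := rfl
  have hF : ∀ ε, FxR (bw R (α.comp V'.subtype)) (twW (W.subgroupOf V') ε) =
      FxR (bw R α) (twW W (tht hWV ε)) := by
    intro ε
    rw [hbw, ← FxR_map, tw_map]
  have hB : ∀ ε, BKR (bw R (α.comp V'.subtype)) (twW (W.subgroupOf V') ε) =
      BKR (bw R α) (twW W (tht hWV ε)) := by
    intro ε
    rw [hbw, ← BKR_map _ inc_inj, tw_map]
  refine ⟨{
    β := fun ε => N.β (tht hWV ε)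
    one := ?_
    mul := ?_
    ker := ?_
    ind := ?_
    spn := ?_ }, ?_⟩
  · rw [map_one (tht hWV)]
    exact N.one
  · intro ε δ a ha b hb
    rw [map_mul (tht hWV)]
    rw [hF] at ha hb
    exact N.mul _ _ a ha b hb
  · intro ε a ha
    rw [hF] at ha
    rw [hB]
    exact N.ker _ a ha
  · intro f hf h0 ε
    have h1 := N.ind (fun ε => f ((tht hWV).symm ε)) (by
      intro ε
      have h2 := hf ((tht hWV).symm ε)
      rw [hF, MulEquiv.apply_symm_apply] at h2
      exact h2) (by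
      rw [← h0]
      symm
      refine finsum_eq_of_bijective (tht hWV) (tht hWV).bijective fun ε => ?_
      rw [MulEquiv.symm_apply_apply]) (tht hWV ε)
    rw [MulEquiv.symm_apply_apply] at h1
    exact h1
  · intro b
    obtain ⟨f, hf, hb⟩ := N.spn b
    refine ⟨fun ε => f (tht hWV ε), ?_, ?_⟩
    · intro ε
      rw [hF]
      exact hf _
    · rw [← hb]
      exact finsum_eq_of_bijective (tht hWV) (tht hWV).bijective fun ε => rfl
  · intro v
    rw [IsNW.nwh_apply, IsNW.nwh_apply]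
    change N.β (tht hWV 1) _ = _
    rw [map_one (tht hWV)]
    rfl

end Pool.Agent.PSS.H52
end
end -- Pool.Agent.Helper52_PSS.NRS

section -- Pool.Agent.Helper60_PSS.DZF

/-!
# Squad PSS: `DzfStmt` (hypothesis of TPF) from `DzdStmt` (block S1)
-/

open scoped BigOperators TensorProduct

noncomputable section

namespace Pool.Agent.PSS.H60

open Pool.Agent.PSS
open Pool.Agent.PFD.D2b (FrR)

theorem fin_of_frame {R G N T : Type} [CommRing R] [Group G] [AddCommGroup N] [Module R N]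
    [Fintype T] [MulAction G T] {ρ : G →* (N →ₗ[R] N)} {b : T → N} {c : T → (N →ₗ[R] R)}
    (h : FrR ρ b c) : Module.Finite R N := by
  classical
  let L : (T → R) →ₗ[R] N := ∑ t, (LinearMap.proj t).smulRight (b t)
  refine Module.Finite.of_surjective L ?_
  intro n
  refine ⟨fun t => c t n, ?_⟩
  conv_rhs => rw [← h.2.2 n]
  rw [LinearMap.sum_apply]
  rfl

theorem free_of_frame {R G N T : Type} [CommRing R] [IsDomain R] [IsPrincipalIdealRing R]
    [Group G] [AddCommGroup N] [Module R N]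
    [Fintype T] [MulAction G T] {ρ : G →* (N →ₗ[R] N)} {b : T → N} {c : T → (N →ₗ[R] R)}
    (h : FrR ρ b c) : Module.Free R N := by
  classical
  have := fin_of_frame h
  have hinj : Function.Injective (LinearMap.pi c : N →ₗ[R] (T → R)) := by
    rw [injective_iff_map_eq_zero]
    intro n hn
    rw [← h.2.2 n]
    refine Finset.sum_eq_zero fun t _ => ?_
    have h1 : c t n = 0 := congrFun hn t
    rw [h1, zero_smul]
  have : Module.IsTorsionFree R N := hinj.moduleIsTorsionFree _ (fun r n => map_smul _ r n)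
  exact Module.free_of_finite_type_torsion_free'

theorem dzf (dzd : DzdStmt) (vzc : VzcStmt) : DzfStmt := by
  intro ℓ _ F V E A A' F' _ _ _ _ _ _ _ _ _ _ _ _ _ φ α Y W' α' hV hcy hfin hper hrt D hinj
  obtain ⟨lam, K, _, x, y, hRF, u, hu⟩ := hrt
  obtain ⟨z, _, hz, _, _⟩ := vzc V E φ Y W' hcy
  obtain ⟨Ω, _, _, b, c, hfr⟩ := D.per
  have := fin_of_frame hfr
  have := free_of_frame hfr
  have : FaithfulSMul (PowerSeries F) F' := (faithfulSMul_iff_algebraMap_injective _ _).2 hinj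
  refine dzd ℓ F V E A A' F' K φ W' z α α' lam x y u hper hRF ?_ hz D
  have h1 : rt x y 1 = ∑ k, x k * y k := by
    unfold rt
    simp only [mul_one]
  rw [h1]
  exact hu

end Pool.Agent.PSS.H60
end
end -- Pool.Agent.Helper60_PSS.DZF

section -- Pool.Agent.Helper3_PST.NCN

/-!
# Squad PST, row NCN (helper3): an idempotent of `B(Q)` which vanishes in `B(QW)` is `0`
-/

open scoped BigOperators TensorProduct

noncomputable section

namespace Pool.Agent.PST.H3

open Pool.Agent.PFC (tw IsTv)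
open Pool.Agent.PFD.D2b (FrR)
open Pool.Agent.PSS
open Pool.Agent.PSS.S0.H6 (cw_apply cw_mul fx_mono fx_mul)

section

variable {F V A B : Type} [Field F] [CommGroup V] [Fintype V] [Ring A] [Algebra F A] [Ring B]
  [Algebra F B]

/-- the left multiplication by the elements of `W` -/
def lm (F : Type) [Field F] [Algebra F B] (β : V →* B) (W : Subgroup V) : W →* (B →ₗ[F] B) where
  toFun := fun w => LinearMap.mulLeft F (β w)
  map_one' := by
    ext b
    simp
  map_mul' := by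
    intro u v
    ext b
    simp [mul_assoc]

theorem lm_apply (β : V →* B) (W : Subgroup V) (w : W) (b : B) : lm F β W w b = β w * b := rfl

/-- the span of the `(w - 1) d`, `d ∈ M` -/
def J (β : V →* B) (W : Subgroup V) (M : Submodule F B) : Submodule F B :=
  Submodule.span F {x : B | ∃ v, ∃ d ∈ M, x = lm F β W v d - d}

variable {α : V →* A} {W : Subgroup V} (N : IsNW F α W B)

theorem comm_w {ε : MulAut W} {a : A} (ha : a ∈ FxR (bw F α) (twW W ε)) (w : W) :
    N.β ε a * N.nwh w = N.nwh (ε w) * N.β ε a := by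
  have h1 := N.mul ε 1 a ha (α (w : V)) (al_mem_tw (w : V) W)
  have h2 := N.mul 1 ε (α (ε w)) (al_mem_tw _ W) a ha
  rw [mul_one] at h1
  rw [one_mul] at h2
  rw [N.nwh_apply, N.nwh_apply, ← h1, ← h2]
  rw [mem_tw] at ha
  rw [ha w]

/-- decomposition of an element of the centraliser of `Q` -/
theorem dec (ncg : NcgStmt) (Q : Subgroup V) {x : B} (hx : x ∈ FxR (cw F N.nwh) Q) :
    ∃ (ι : Type) (_ : Fintype ι) (y : ι → B) (s : ι → MulAut W),
      (∀ k, y k ∈ FxR (cw F N.nwh) Q) ∧ (∀ k, ∀ w : W, y k * N.nwh w = N.nwh (s k w) * y k) ∧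
      ∑ k, y k = x := by
  classical
  obtain ⟨f, h1, h2, h3⟩ := ncg F V A B α W N Q x hx
  have : Finite (MulAut W) := Finite.of_injective (fun e : MulAut W => (e : W → W))
    DFunLike.coe_injective
  have : Fintype (MulAut W) := Fintype.ofFinite _
  refine ⟨MulAut W, inferInstance, fun ε => N.β ε (f ε), fun ε => ε, h2,
    fun ε w => comm_w N (h1 ε) w, ?_⟩
  rw [← h3, finsum_eq_sum_of_fintype]

/-- `D * J(M) ≤ J(M)` -/
theorem mul_J (ncg : NcgStmt) (Q : Subgroup V) (M : Submodule F B)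
    (hM : ∀ a ∈ FxR (cw F N.nwh) Q, ∀ m ∈ M, a * m ∈ M) {a z : B}
    (ha : a ∈ FxR (cw F N.nwh) Q) (hz : z ∈ J N.nwh W M) : a * z ∈ J N.nwh W M := by
  obtain ⟨ι, _, y, s, h1, h2, h3⟩ := dec N ncg Q ha
  unfold J at hz
  induction hz using Submodule.span_induction with
  | mem z hz =>
    obtain ⟨w, d, hd, rfl⟩ := hz
    rw [← h3, Finset.sum_mul]
    refine Submodule.sum_mem _ fun k _ => Submodule.subset_span ⟨s k w, y k * d, hM _ (h1 k) _ hd, ?_⟩
    rw [lm_apply, lm_apply, mul_sub, ← mul_assoc, h2, mul_assoc]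
  | zero =>
    rw [mul_zero]
    exact Submodule.zero_mem _
  | add u v _ _ hu hv =>
    rw [mul_add]
    exact Submodule.add_mem _ hu hv
  | smul r u _ hu =>
    rw [mul_smul_comm]
    exact Submodule.smul_mem _ _ hu

theorem cw_sub (ncg : NcgStmt) (Q : Subgroup V) {y : B} (hy : y ∈ FxR (cw F N.nwh) Q) (w : W) :
    cw F N.nwh w y - y ∈ J N.nwh W (FxR (cw F N.nwh) Q) := by
  obtain ⟨ι, _, y', s, h1, h2, h3⟩ := dec N ncg Q hy
  rw [← h3, map_sum, ← Finset.sum_sub_distrib]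
  refine Submodule.sum_mem _ fun k _ => Submodule.subset_span ⟨w * s k w⁻¹, y' k, h1 k, ?_⟩
  congr 1
  have h4 := h2 k w⁻¹
  rw [cw_apply, lm_apply]
  have e : (((w⁻¹ : W) : V)) = (w : V)⁻¹ := rfl
  rw [e] at h4
  rw [h4, ← mul_assoc, ← map_mul]
  rfl

/-- the elements of the Brauer kernel of `Q ⊔ W` -/
theorem bk_le (ncg : NcgStmt) (ℓ : ℕ) [Fact ℓ.Prime] [CharP F ℓ] (hp : IsPGroup ℓ V)
    (Q : Subgroup V) :
    BKR (cw F N.nwh) (Q ⊔ W) ≤ J N.nwh W (FxR (cw F N.nwh) Q) ⊔ BKR (cw F N.nwh) Q := by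
  classical
  apply Submodule.span_le.2
  rintro n ⟨T, S, y, hT, hS, hy, rfl⟩
  by_cases hQT : Q ≤ T
  · -- `Q ≤ T`
    apply Submodule.mem_sup_left
    have hyQ : y ∈ FxR (cw F N.nwh) Q := fx_mono N.nwh hQT hy
    have h1 : ∀ s ∈ S, cw F N.nwh s y - y ∈ J N.nwh W (FxR (cw F N.nwh) Q) := by
      intro s hs
      obtain ⟨q, hq, w, hw, rfl⟩ := Subgroup.mem_sup.1 (hS.1 s hs)
      have h2 := cw_sub N ncg Q hyQ ⟨w, hw⟩
      have h3 : cw F N.nwh (q * w) y = cw F N.nwh w y := by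
        rw [mul_comm, map_mul]
        change cw F N.nwh w (cw F N.nwh q y) = _
        rw [hyQ q hq]
      rw [h3]
      exact h2
    have h4 : ∑ s ∈ S, cw F N.nwh s y = ∑ s ∈ S, (cw F N.nwh s y - y) := by
      rw [Finset.sum_sub_distrib, Finset.sum_const]
      have hcard := Pool.Agent.PFC.card_tv T (Q ⊔ W) hT.le S hS
      have hP : IsPGroup ℓ (Q ⊔ W : Subgroup V) := hp.to_subgroup _
      obtain ⟨k, hk⟩ := (IsPGroup.iff_card).1 hP
      have hdiv : S.card ∣ ℓ ^ k := ⟨_, by rw [← hk]; exact hcard.symm⟩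
      obtain ⟨j, -, hj⟩ := (Nat.dvd_prime_pow (Fact.out : ℓ.Prime)).1 hdiv
      rcases Nat.eq_zero_or_pos j with h0 | h0
      · exfalso
        rw [h0, pow_zero] at hj
        rw [hj, one_mul] at hcard
        exact hT.ne (Subgroup.eq_of_le_of_card_ge hT.le hcard.ge)
      · have h5 : (S.card : F) = 0 := by
          rw [hj, Nat.cast_pow, CharP.cast_eq_zero, zero_pow h0.ne']
        rw [← Nat.cast_smul_eq_nsmul F, h5, zero_smul, sub_zero]
    rw [h4]
    exact Submodule.sum_mem _ h1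
  · -- `Q` is not contained in `T`
    apply Submodule.mem_sup_right
    have hfix : ∀ u v : V, (QuotientGroup.mk u : V ⧸ T) = QuotientGroup.mk v →
        cw F N.nwh u y = cw F N.nwh v y := by
      intro u v huv
      have h1 : u⁻¹ * v ∈ T := QuotientGroup.eq.1 huv
      have h2 : v = u * (u⁻¹ * v) := by group
      rw [h2, map_mul]
      change _ = cw F N.nwh u (cw F N.nwh (u⁻¹ * v) y)
      rw [hy _ h1]
    let g : V ⧸ T → B := fun κ =>
      if κ.out ∈ Q ⊔ W then cw F N.nwh κ.out y else 0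
    have hout : ∀ u : V, (Quotient.out (QuotientGroup.mk u : V ⧸ T) : V) ∈ Q ⊔ W ↔
        u ∈ Q ⊔ W := by
      intro u
      have h1 : (QuotientGroup.mk (Quotient.out (QuotientGroup.mk u : V ⧸ T)) : V ⧸ T) =
        QuotientGroup.mk u := Quotient.out_eq _
      have h2 := QuotientGroup.eq.1 h1
      have h3 := hT.le h2
      constructor
      · intro h4
        have := (Q ⊔ W).mul_mem h4 h3
        rwa [mul_inv_cancel_left] at this
      · intro h4
        have := (Q ⊔ W).mul_mem h4 ((Q ⊔ W).inv_mem h3)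
        rwa [mul_inv_rev, inv_inv, mul_inv_cancel_left] at this
    have hg : ∀ u : V, g (QuotientGroup.mk u) = if u ∈ Q ⊔ W then cw F N.nwh u y else 0 := by
      intro u
      change (if (Quotient.out (QuotientGroup.mk u : V ⧸ T) : V) ∈ Q ⊔ W then _ else _) = _
      rw [if_congr (hout u) rfl rfl]
      split_ifs with h
      · exact hfix _ _ (Quotient.out_eq _)
      · rfl
    have hF := Pool.Agent.PSS.H20.fpx F V B (V ⧸ T) (cw F N.nwh) Q g ∅ ?_ ?_
    · rw [Finset.sum_empty, sub_zero] at hF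
      have h6 : ∑ κ, g κ = ∑ s ∈ S, cw F N.nwh s y := by
        symm
        have hinj : Set.InjOn (fun s : V => (QuotientGroup.mk s : V ⧸ T)) S := by
          intro s hs t ht hst
          obtain ⟨r, hr, hu⟩ := hS.2 t (hS.1 t ht)
          rw [hu s ⟨hs, QuotientGroup.eq.1 hst⟩,
            hu t ⟨ht, by rw [inv_mul_cancel]; exact T.one_mem⟩]
        rw [← Finset.sum_subset (Finset.subset_univ (S.image fun s : V => (QuotientGroup.mk s : V ⧸ T)))]
        · rw [Finset.sum_image hinj]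
          refine Finset.sum_congr rfl fun s hs => ?_
          rw [hg, if_pos (hS.1 s hs)]
        · intro κ _ hκ
          obtain ⟨u, rfl⟩ := QuotientGroup.mk_surjective κ
          rw [hg, if_neg]
          intro hu
          obtain ⟨s, ⟨hs, hs'⟩, _⟩ := hS.2 u hu
          exact hκ (Finset.mem_image.2 ⟨s, hs, QuotientGroup.eq.2 hs'⟩)
      rw [← h6]
      exact hF
    · intro q hq κ
      obtain ⟨u, rfl⟩ := QuotientGroup.mk_surjective κ
      change g (QuotientGroup.mk (q * u)) = _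
      rw [hg, hg]
      have h7 : q * u ∈ Q ⊔ W ↔ u ∈ Q ⊔ W :=
        (Q ⊔ W).mul_mem_cancel_left ((le_sup_left : Q ≤ Q ⊔ W) hq)
      rw [if_congr h7 rfl rfl]
      split_ifs
      · rw [map_mul]
        rfl
      · rw [map_zero]
    · intro κ
      constructor
      · intro h
        exact absurd h (Finset.notMem_empty κ)
      · intro h
        exfalso
        apply hQT
        intro q hq
        obtain ⟨u, rfl⟩ := QuotientGroup.mk_surjective κ
        have h8 : (QuotientGroup.mk (q * u) : V ⧸ T) = QuotientGroup.mk u := h q hq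
        have h9 := QuotientGroup.eq.1 h8
        have e : (q * u)⁻¹ * u = q⁻¹ := by
          rw [mul_inv_rev, mul_comm u⁻¹, mul_assoc, inv_mul_cancel, mul_one]
        rw [e] at h9
        exact (inv_mem_iff).1 h9

end

theorem ncn (ncg : NcgStmt) : NcnStmt := by
  intro ℓ _ F V A B _ _ _ _ _ _ _ _ α W Q N x hp hx hxx hxP
  classical
  have bki := Pool.Agent.PSS.S0.H6.bki
  have hJK := bk_le N ncg ℓ hp Q hxP
  obtain ⟨j, hj, k, hk, hjk⟩ := Submodule.mem_sup.1 hJK
  -- `D x D + K`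
  let X : Submodule F B := Submodule.span F {z : B | ∃ a ∈ FxR (cw F N.nwh) Q,
    ∃ b ∈ FxR (cw F N.nwh) Q, z = a * x * b}
  let D1 : Submodule F B := X ⊔ BKR (cw F N.nwh) Q
  have hKL : ∀ a ∈ FxR (cw F N.nwh) Q, ∀ m ∈ BKR (cw F N.nwh) Q, a * m ∈ BKR (cw F N.nwh) Q :=
    fun a ha m hm => (bki F V B N.nwh Q a ha m hm).1
  have hKR : ∀ a ∈ FxR (cw F N.nwh) Q, ∀ m ∈ BKR (cw F N.nwh) Q, m * a ∈ BKR (cw F N.nwh) Q :=
    fun a ha m hm => (bki F V B N.nwh Q a ha m hm).2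
  have hXL : ∀ a ∈ FxR (cw F N.nwh) Q, ∀ m ∈ X, a * m ∈ X := by
    intro a ha m hm
    induction hm using Submodule.span_induction with
    | mem z hz =>
      obtain ⟨c, hc, b, hb, rfl⟩ := hz
      exact Submodule.subset_span ⟨a * c, fx_mul N.nwh ha hc, b, hb, by
        simp only [mul_assoc]⟩
    | zero =>
      rw [mul_zero]
      exact Submodule.zero_mem _
    | add u v _ _ hu hv =>
      rw [mul_add]
      exact Submodule.add_mem _ hu hv
    | smul r u _ hu =>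
      rw [mul_smul_comm]
      exact Submodule.smul_mem _ _ hu
  have hDL : ∀ a ∈ FxR (cw F N.nwh) Q, ∀ m ∈ D1, a * m ∈ D1 := by
    intro a ha m hm
    obtain ⟨u, hu, v, hv, rfl⟩ := Submodule.mem_sup.1 hm
    rw [mul_add]
    exact Submodule.add_mem _ (Submodule.mem_sup_left (hXL a ha u hu))
      (Submodule.mem_sup_right (hKL a ha v hv))
  have hw : ∀ w : W, N.nwh (w : V) ∈ FxR (cw F N.nwh) Q := fun w => al_mem_cw _ Q
  have hres : D1 ≤ BKR (cw F N.nwh) Q := by
    refine Pool.Agent.PSS.S5.H44.nak ℓ F W B (lm F N.nwh W) D1 (BKR (cw F N.nwh) Q)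
      (hp.to_subgroup W) ?_ ?_ ?_
    · intro w m hm
      exact hDL _ (hw w) m hm
    · intro w m hm
      exact hKL _ (hw w) m hm
    · intro m hm
      have hle : D1 ≤ BKR (cw F N.nwh) Q ⊔ J N.nwh W D1 := by
        apply sup_le _ le_sup_left
        apply Submodule.span_le.2
        rintro z ⟨a, ha, b, hb, rfl⟩
        have e1 : a * x * b = a * (-(x * x - x)) * b + (a * k * (x * b) + a * (j * (x * b))) := by
          have : a * (x * x) * b = a * k * (x * b) + a * (j * (x * b)) := by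
            conv_lhs => rw [show x * x = (j + k) * x by rw [hjk]]
            simp only [mul_add, add_mul, mul_assoc]
            exact add_comm _ _
          rw [← this]
          simp only [mul_sub, sub_mul, mul_neg, neg_mul]
          abel
        rw [e1]
        have hxb : x * b ∈ FxR (cw F N.nwh) Q := fx_mul N.nwh hx hb
        refine Submodule.add_mem _ (Submodule.mem_sup_left ?_) (Submodule.add_mem _
          (Submodule.mem_sup_left ?_) (Submodule.mem_sup_right ?_))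
        · exact hKR b hb _ (hKL a ha _ (Submodule.neg_mem _ hxx))
        · exact hKR _ hxb _ (hKL a ha _ hk)
        · apply mul_J N ncg Q D1 hDL ha
          have hj' := hj
          unfold J at hj'
          clear e1 hjk hj
          induction hj' using Submodule.span_induction with
          | mem z hz =>
            obtain ⟨w, d, hd, rfl⟩ := hz
            refine Submodule.subset_span ⟨w, d * (x * b), ?_, ?_⟩
            · exact Submodule.mem_sup_left (Submodule.subset_span ⟨d, hd, b, hb, by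
                rw [mul_assoc]⟩)
            · rw [sub_mul, lm_apply, lm_apply, mul_assoc]
          | zero =>
            rw [zero_mul]
            exact Submodule.zero_mem _
          | add u v _ _ hu hv =>
            rw [add_mul]
            exact Submodule.add_mem _ hu hv
          | smul r u _ hu =>
            rw [smul_mul_assoc]
            exact Submodule.smul_mem _ _ hu
      obtain ⟨m', hm', n', hn', hmn⟩ := Submodule.mem_sup.1 (hle hm)
      refine ⟨m', hm', ?_⟩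
      rw [← hmn, add_sub_cancel_left]
      exact hn'
  apply hres
  apply Submodule.mem_sup_left
  refine Submodule.subset_span ⟨1, ?_, 1, ?_, by rw [one_mul, mul_one]⟩
  · rw [mem_cw]
    intro q _
    rw [mul_one, one_mul]
  · rw [mem_cw]
    intro q _
    rw [mul_one, one_mul]

end Pool.Agent.PST.H3
end
end -- Pool.Agent.Helper3_PST.NCN

section -- Pool.Agent.PST.Ldw

/-!
# Squad PST: a regular deformation lifts to the Witt vectors (LDW)
-/

open scoped BigOperators TensorProduct PowerSeries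

noncomputable section

namespace Pool.Agent.PST

open Pool.Agent.PFC (tw IsTv)
open Pool.Agent.PFD.D2 (Cdv FibG wittCdv witt_charZero)
open Pool.Agent.PFD.D2b (FrR)
open Pool.Agent.PSS

/-- LDW: an algebra in the class and a regular deformation of it lift to the Witt vectors. -/
def LdwStmt : Prop :=
  ∀ (ℓ : ℕ) [Fact ℓ.Prime] (F V E A₀ κ Ω : Type) [Field F] [IsAlgClosed F] [CharP F ℓ]
    [CommGroup V] [Fintype V] [Group E] [Fintype E] [Ring A₀] [Algebra F A₀]
    [FiniteDimensional F A₀] [Fintype κ] [Fintype Ω] [MulAction (V × V) Ω] (φ : E →* MulAut V)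
    (W : Subgroup V) (α₀ : V →* A₀) (lam₀ : A₀ →ₗ[F] F) (x₀ y₀ : κ → A₀) (b₀ : Ω → A₀)
    (c₀ : Ω → (A₀ →ₗ[F] F)) (u₀ : A₀) (D₀ : Dm F (aw α₀ W)), IsPGroup ℓ V →
    ¬ ℓ ∣ Nat.card E → Chf ℓ φ W → Cl F φ α₀ → RF F α₀ lam₀ x₀ y₀ → FrR (bw F α₀) b₀ c₀ →
    (∀ ω : Ω, ∃ (e : E) (S : Subgroup V),
      MulAction.stabilizer (V × V) ω = tw (φ e).toMonoidHom S) →
    u₀ * rt x₀ y₀ 1 = 1 → Reg ℓ F φ α₀ W D₀.w (fun Z => D₀.sq Z 0) →
    ∃ (A : Type) (_ : Ring A) (_ : Algebra (WittVector ℓ F) A)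
      (_ : Module.Finite (WittVector ℓ F) A) (_ : Module.Free (WittVector ℓ F) A)
      (f : FibG A A₀ (wittCdv ℓ F)) (α : V →* A) (lam : A →ₗ[WittVector ℓ F] WittVector ℓ F)
      (x y : κ → A) (b : Ω → A) (c : Ω → (A →ₗ[WittVector ℓ F] WittVector ℓ F)) (u : A)
      (D : Dm (WittVector ℓ F) (aw α W)),
      LiftV (wittCdv ℓ F) α₀ lam₀ x₀ y₀ b₀ c₀ f α lam x y b c ∧ u * rt x y 1 = 1 ∧
      (∀ n a a', f.q (D.m n a a') = D₀.m n (f.q a) (f.q a')) ∧
      H1P (WittVector ℓ F) (aw α W)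

theorem ldw (hL : LftStmt) (hX : KexStmt) (hT : TlwStmt) (hM : DmrStmt) (hH : H1wStmt)
    (hF : FmaStmt) (hK : KywStmt) : LdwStmt := by
  intro ℓ _ F V E A₀ κ Ω _ _ _ _ _ _ _ _ _ _ _ _ _ φ W α₀ lam₀ x₀ y₀ b₀ c₀ u₀ D₀ hp hE hch hcl
    hRF hFr hst hu hreg
  have hSt : StE φ Ω := stE_of φ hst
  obtain ⟨r, la, χ, xx, t, dd, lf, G, hdr, hfo⟩ := hreg
  obtain ⟨hz, hr⟩ := hF ℓ F V A₀ W α₀ D₀ dd lf G hp hch.pw hdr.fx hfo
  have : CharZero (WittVector ℓ F) := witt_charZero ℓ F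
  obtain ⟨A, rA, aA, fA, frA, f, α, lam, x, y, b, c, u, hLV, hu'⟩ :=
    hL (WittVector ℓ F) F V A₀ κ Ω (wittCdv ℓ F) α₀ lam₀ x₀ y₀ b₀ c₀ u₀ inferInstance hRF hFr hu
  let _ := rA
  let _ := aA
  have _ := fA
  have _ := frA
  have : CharZero (FractionRing (WittVector ℓ F)) :=
    charZero_of_injective_algebraMap
      (IsFractionRing.injective (WittVector ℓ F) (FractionRing (WittVector ℓ F)))
  obtain ⟨C⟩ := hX (WittVector ℓ F) (FractionRing (WittVector ℓ F)) V A κ Ω α lam x y b c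
    hLV.rf hLV.fr
  obtain ⟨P, m, hTr, hm⟩ := hT (WittVector ℓ F) (FractionRing (WittVector ℓ F)) F V E A A₀
    (FractionRing (WittVector ℓ F) ⊗[WittVector ℓ F] A) κ Ω φ W α lam x y b c C u
    (wittCdv ℓ F) f α₀ c₀ D₀ hch.sw hSt hu' hLV.qa hLV.qc (hz Ω b₀ c₀ hFr)
    (hK ℓ (WittVector ℓ F) (FractionRing (WittVector ℓ F)) F V E A A₀ _ κ Ω φ W
      (wittCdv ℓ F) f α₀ lam₀ x₀ y₀ b₀ c₀ α lam x y b c u C D₀ r la χ xx t dd hp hE rfl hch hcl
      hst hFr hRF hLV hu' hdr hr)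
  obtain ⟨D, hD⟩ := hM (WittVector ℓ F) (FractionRing (WittVector ℓ F)) V A _ W α C.i C.inj C.tow
    P m hTr (fun n a₁ a₂ => by
      obtain ⟨e, he, -⟩ := hm n a₁ a₂
      exact ⟨e, he⟩)
  refine ⟨A, rA, aA, fA, frA, f, α, lam, x, y, b, c, u, D, hLV, hu', ?_, ?_⟩
  · intro n a a'
    obtain ⟨e, he, hq⟩ := hm n a a'
    have h1 : e = D.m n a a' := C.inj (he.trans (hD n a a').symm)
    rw [← h1, hq]
  · intro δ hδ hw
    obtain ⟨e, he, h2⟩ := hH (WittVector ℓ F) (FractionRing (WittVector ℓ F)) V A _ κ Ω W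
      α lam x y b c C u hu' δ hδ (fun w hw' => hw ⟨w, hw'⟩)
    exact ⟨e, fun w => he w w.2, h2⟩

end Pool.Agent.PST
end
end -- Pool.Agent.PST.Ldw

section -- Pool.Agent.PST.Nrt

/-!
# Squad PST: `N_W(A)` and the restriction to `V'`, with the Brauer map of `W`
-/

open scoped BigOperators TensorProduct

noncomputable section

namespace Pool.Agent.PST

open Pool.Agent.PSS
open Pool.Agent.PSS.H52
open Pool.Agent.PFC (tw IsTv)
open Pool.Agent.PFD.D2b (FrR)

/-- NRS with the additional equation `N'.β 1 = N.β 1` -/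
theorem nrt (R V A B : Type) [CommRing R] [CommGroup V] [Finite V] [Ring A]
    [Algebra R A] [Ring B] [Algebra R B] (α : V →* A) (W V' : Subgroup V) (N : IsNW R α W B)
    (hWV : W ≤ V') : ∃ N' : IsNW R (α.comp V'.subtype) (W.subgroupOf V') B,
      (∀ v : V', N'.nwh v = N.nwh v) ∧ ∀ a, N'.β 1 a = N.β 1 a := by
  have hbw : bw R (α.comp V'.subtype) = (bw R α).comp (inc V') := rfl
  have hF : ∀ ε, FxR (bw R (α.comp V'.subtype)) (twW (W.subgroupOf V') ε) =
      FxR (bw R α) (twW W (tht hWV ε)) := by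
    intro ε
    rw [hbw, ← FxR_map, tw_map]
  have hB : ∀ ε, BKR (bw R (α.comp V'.subtype)) (twW (W.subgroupOf V') ε) =
      BKR (bw R α) (twW W (tht hWV ε)) := by
    intro ε
    rw [hbw, ← BKR_map _ inc_inj, tw_map]
  refine ⟨{
    β := fun ε => N.β (tht hWV ε)
    one := ?_
    mul := ?_
    ker := ?_
    ind := ?_
    spn := ?_ }, ?_, ?_⟩
  · rw [map_one (tht hWV)]
    exact N.one
  · intro ε δ a ha b hb
    rw [map_mul (tht hWV)]
    rw [hF] at ha hb
    exact N.mul _ _ a ha b hb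
  · intro ε a ha
    rw [hF] at ha
    rw [hB]
    exact N.ker _ a ha
  · intro f hf h0 ε
    have h1 := N.ind (fun ε => f ((tht hWV).symm ε)) (by
      intro ε
      have h2 := hf ((tht hWV).symm ε)
      rw [hF, MulEquiv.apply_symm_apply] at h2
      exact h2) (by
      rw [← h0]
      symm
      refine finsum_eq_of_bijective (tht hWV) (tht hWV).bijective fun ε => ?_
      rw [MulEquiv.symm_apply_apply]) (tht hWV ε)
    rw [MulEquiv.symm_apply_apply] at h1
    exact h1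
  · intro b
    obtain ⟨f, hf, hb⟩ := N.spn b
    refine ⟨fun ε => f (tht hWV ε), ?_, ?_⟩
    · intro ε
      rw [hF]
      exact hf _
    · rw [← hb]
      exact finsum_eq_of_bijective (tht hWV) (tht hWV).bijective fun ε => rfl
  · intro v
    rw [IsNW.nwh_apply, IsNW.nwh_apply]
    change N.β (tht hWV 1) _ = _
    rw [map_one (tht hWV)]
    rfl
  · intro a
    change N.β (tht hWV 1) a = _
    rw [map_one (tht hWV)]

end Pool.Agent.PST
end
end -- Pool.Agent.PST.Nrt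

section -- Pool.Agent.PST.Tpw

/-!
# Squad PST: the dimension of the centre of the generic fibre, for `A` and for `N_W(A)`
-/

open scoped BigOperators TensorProduct PowerSeries

noncomputable section

namespace Pool.Agent.PST

open Pool.Agent.PFC (tw IsTv)
open Pool.Agent.PFD.D2 (Cdv FibG wittCdv witt_charZero)
open Pool.Agent.PFD.D2b (FrR)
open Pool.Agent.PSS

/-- CEW: the centre of a regular deformation is onto the centre of the special fibre. -/
def CewStmt : Prop :=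
  ∀ (ℓ : ℕ) [Fact ℓ.Prime] (F V E A₀ κ Ω : Type) [Field F] [IsAlgClosed F] [CharP F ℓ]
    [CommGroup V] [Fintype V] [Group E] [Fintype E] [Ring A₀] [Algebra F A₀]
    [FiniteDimensional F A₀] [Fintype κ] [Fintype Ω] [MulAction (V × V) Ω] (φ : E →* MulAut V)
    (W : Subgroup V) (α₀ : V →* A₀) (lam₀ : A₀ →ₗ[F] F) (x₀ y₀ : κ → A₀) (b₀ : Ω → A₀)
    (c₀ : Ω → (A₀ →ₗ[F] F)) (u₀ : A₀) (D₀ : Dm F (aw α₀ W)), IsPGroup ℓ V →
    ¬ ℓ ∣ Nat.card E → Chf ℓ φ W → Cl F φ α₀ → RF F α₀ lam₀ x₀ y₀ → FrR (bw F α₀) b₀ c₀ →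
    (∀ ω : Ω, ∃ (e : E) (S : Subgroup V),
      MulAction.stabilizer (V × V) ω = tw (φ e).toMonoidHom S) →
    u₀ * rt x₀ y₀ 1 = 1 → Reg ℓ F φ α₀ W D₀.w (fun Z => D₀.sq Z 0) →
    ∀ z₀ : A₀, (∀ a, z₀ * a = a * z₀) → ∃ Z : D₀.R, (∀ a, Z * a = a * Z) ∧ D₀.sq Z 0 = z₀

theorem cew (hLDW : LdwStmt) (hUZL : UzlStmt) (hCEN : CenStmt) (hRMP : RmpStmt) : CewStmt := by
  intro ℓ _ F V E A₀ κ Ω _ _ _ _ _ _ _ _ _ _ _ _ _ φ W α₀ lam₀ x₀ y₀ b₀ c₀ u₀ D₀ hp hE hch hcl
    hrf hfr hst hu0 hreg z₀ hz₀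
  obtain ⟨A, _, _, _, _, f, α, lam, x, y, b, c, u, D, hL, hu, hm, hH⟩ :=
    hLDW ℓ F V E A₀ κ Ω φ W α₀ lam₀ x₀ y₀ b₀ c₀ u₀ D₀ hp hE hch hcl hrf hfr hst hu0 hreg
  obtain ⟨z', hz', hzq⟩ := (hUZL (WittVector ℓ F) F V A₀ A κ Ω (wittCdv ℓ F) α₀ lam₀ x₀ y₀ b₀ c₀
    f α lam x y b c u₀ hL hu0).2.2 z₀ hz₀
  obtain ⟨Z, hZ, hZ0⟩ := hCEN (WittVector ℓ F) W A (aw α W) D hH z' hz'
  obtain ⟨ψ, hψ, -, -, hs, -⟩ := hRMP (WittVector ℓ F) F W A A₀ (aw α W) (aw α₀ W) D D₀ f.q
    (wittCdv ℓ F).κ f.sc (fun w => hL.qa w) hm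
  refine ⟨ψ Z, ?_, ?_⟩
  · intro a
    obtain ⟨a', rfl⟩ := hs f.surj a
    rw [← map_mul, hZ, map_mul]
  · rw [← D.of_sq Z, hψ, D₀.sq_of, hZ0, hzq]

/-- transport of the regularity datum by an isomorphism -/
theorem reg_equiv {ℓ : ℕ} {F V E A A1 A2 : Type} [Field F] [CommGroup V] [Fintype V] [Group E]
    [Ring A] [Algebra F A] [Ring A1] [Algebra F⟦X⟧ A1] [Ring A2] [Algebra F⟦X⟧ A2]
    {φ : E →* MulAut V} {α : V →* A} {W : Subgroup V} {γ1 : W →* A1} {γ2 : W →* A2}
    {q1 : A1 → A} {q2 : A2 → A} (θ : A1 ≃ₐ[F⟦X⟧] A2) (hw : ∀ w, θ (γ1 w) = γ2 w)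
    (hq : ∀ Z, q2 (θ Z) = q1 Z) (h : Reg ℓ F φ α W γ2 q2) : Reg ℓ F φ α W γ1 q1 := by
  obtain ⟨r, la, χ, xx, t, D, lf, G, hdr, hfo⟩ := h
  refine ⟨r, la, χ, xx, t, D, fun v => θ.symm (lf v), fun v => θ.symm (G v), hdr, ?_⟩
  refine ⟨?_, ?_, ?_, ?_, ?_⟩
  · intro u
    rw [← hq, AlgEquiv.apply_symm_apply]
    exact hfo.q0 u
  · intro u w
    apply θ.injective
    rw [map_mul, map_mul, AlgEquiv.apply_symm_apply, hw]
    exact hfo.cm u w
  · intro u h
    apply θ.injective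
    rw [map_pow, map_mul, map_add, map_smul, map_one, AlgEquiv.apply_symm_apply,
      AlgEquiv.apply_symm_apply, hw]
    exact hfo.pl u h
  · intro u
    rw [← hq, AlgEquiv.apply_symm_apply]
    exact hfo.qG u
  · intro u v
    obtain ⟨z, hz⟩ := hfo.cc u v
    refine ⟨θ.symm z, ?_⟩
    apply θ.injective
    rw [map_sub, map_mul, map_mul, map_smul, AlgEquiv.apply_symm_apply,
      AlgEquiv.apply_symm_apply, AlgEquiv.apply_symm_apply]
    exact hz

/-- DZW: the dimension of the centre of the generic fibre of a regular deformation. -/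
def DzwStmt : Prop :=
  ∀ (ℓ : ℕ) [Fact ℓ.Prime] (F V E A A' F' : Type) [Field F] [IsAlgClosed F] [CharP F ℓ]
    [CommGroup V] [Fintype V] [Group E] [Fintype E] [Ring A] [Algebra F A] [Ring A']
    [Algebra F⟦X⟧ A'] [Field F'] [Algebra F⟦X⟧ F'] (φ : E →* MulAut V) (α : V →* A)
    (W : Subgroup V) (α' : W →* A'), IsPGroup ℓ V → ¬ ℓ ∣ Nat.card E → Chf ℓ φ W →
    Cl F φ α → Function.Injective (algebraMap F⟦X⟧ F') →
    ∀ df : Df (PowerSeries.X : F⟦X⟧) PowerSeries.constantCoeff (aw α W) α',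
    Reg ℓ F φ α W α' df.q →
    Module.finrank F' (Subalgebra.center F' (F' ⊗[F⟦X⟧] A')) =
      Module.finrank F (Subalgebra.center F A)

theorem dzwS (hC : CewStmt) : DzwStmt := by
  intro ℓ _ F V E A A' F' _ _ _ _ _ _ _ _ _ _ _ _ _ φ α W α' hp hE hch hA hinj df hreg
  have hfin : FiniteDimensional F A := hA.fin
  have hfaith : FaithfulSMul F⟦X⟧ F' := (faithfulSMul_iff_algebraMap_injective F⟦X⟧ F').2 hinj
  obtain ⟨Ω1, _, _, b1, c1, hfr1⟩ := df.per
  have hf1 : Module.Finite F⟦X⟧ A' := Pool.Agent.PSS.H60.fin_of_frame hfr1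
  have hf2 : Module.Free F⟦X⟧ A' := Pool.Agent.PSS.H60.free_of_frame hfr1
  obtain ⟨Ω, _, _, b, c, hfr, hst⟩ := hA.per
  obtain ⟨lam, K, _, x, y, hrf, u, hu⟩ := hA.rt
  have hu' : u * rt x y 1 = 1 := by
    refine Eq.trans ?_ hu
    simp only [rt, mul_one]
  obtain ⟨D₀, θ, hθw, hθ⟩ := df_dm W α α' b c hfr df
  refine dzw F F' W A A' (aw α W) α' df fun z₀ hz₀ => ?_
  obtain ⟨Z, hZ, hZ0⟩ := hC ℓ F V E A K Ω φ W α lam x y b c u D₀ hp hE hch hA hrf hfr hst hu'
    (reg_equiv θ hθw hθ hreg) z₀ hz₀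
  refine ⟨θ Z, fun a => ?_, ?_⟩
  · have h1 := congrArg θ (hZ (θ.symm a))
    rw [map_mul, map_mul, AlgEquiv.apply_symm_apply] at h1
    exact h1
  · rw [hθ, hZ0]

/-- TPW: the dimension of the centre of the generic fibre of `N_W` of a regular deformation. -/
def TpwStmt : Prop :=
  ∀ (ℓ : ℕ) [Fact ℓ.Prime] (F V E A A' B F' : Type) [Field F] [IsAlgClosed F] [CharP F ℓ]
    [CommGroup V] [Fintype V] [Group E] [Fintype E] [Ring A] [Algebra F A] [Ring A']
    [Algebra F⟦X⟧ A'] [Ring B] [Algebra F B] [Field F'] [Algebra F⟦X⟧ F']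
    (φ : E →* MulAut V) (α : V →* A) (W' W : Subgroup V) (α' : W' →* A'),
    IsPGroup ℓ V → ¬ ℓ ∣ Nat.card E → Chf ℓ φ W' → W ≤ W' → (∀ e : E, ∀ w ∈ W, φ e w ∈ W) →
    Cl F φ α → IsNW F α W B → Function.Injective (algebraMap F⟦X⟧ F') →
    ∀ df : Df (PowerSeries.X : F⟦X⟧) PowerSeries.constantCoeff (aw α W') α',
    Reg ℓ F φ α W' α' df.q →
    ∃ (B' : Type) (_ : Ring B') (_ : Algebra F' B')
      (_ : IsNW F' (bcw (R := F⟦X⟧) (S := F') α') (W.subgroupOf W') B'),
      Module.finrank F' (Subalgebra.center F' B') = Module.finrank F (Subalgebra.center F B)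

theorem tpw (hZ : DzwStmt) (ndf : NdfStmt) (nwc : NwcStmt) (ntr : NtrStmt) : TpwStmt := by
  intro ℓ _ F V E A A' B F' _ _ _ _ _ _ _ _ _ _ _ _ _ _ _ φ α W' W α' hV hE hch hWW hst hA N
    hinj df hreg
  have : Fintype W' := Fintype.ofFinite _
  have hℓR : (ℓ : F⟦X⟧) = 0 := by
    rw [← map_natCast (PowerSeries.C (R := F)) ℓ, CharP.cast_eq_zero F ℓ, map_zero]
  obtain ⟨N₁, hN₁, hβ⟩ := nrt F V A B α W W' N hWW
  obtain ⟨Ω, _, _, b, c, hfr⟩ := df.per
  obtain ⟨B', _, _, ⟨N'⟩⟩ := nwe α' hfr (W.subgroupOf W')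
  obtain ⟨D', hD'⟩ := ndf ℓ F⟦X⟧ F W' A A' B B' PowerSeries.X
    (PowerSeries.constantCoeff (R := F)) (aw α W') α' (W.subgroupOf W') N₁ N' df hℓR
    (hV.to_subgroup W') (Pool.Agent.PSS.H60.red_X F)
  let df' : Df (PowerSeries.X : F⟦X⟧) PowerSeries.constantCoeff (aw N.nwh W') N'.nwh :=
    { q := D'.q
      sc := D'.sc
      surj := D'.surj
      ker := D'.ker
      qw := fun w => (D'.qw w).trans (hN₁ w)
      per := D'.per }
  have hreg' : Reg ℓ F φ N.nwh W' N'.nwh df'.q :=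
    ntr ℓ F V E A A' B B' φ α W' W α' N N₁ N' df df' hV hA.per hWW hch.pw hβ
      (fun a ha => hD' 1 a ha) hreg
  have h := hZ ℓ F V E B B' F' φ N.nwh W' N'.nwh hV hE hch (nwc ℓ F V E A B φ α W N hV hst hA)
    hinj df' hreg'
  obtain ⟨N'', _⟩ := ngf (S := F') hfr N'
  exact ⟨_, _, _, N'', h⟩

end Pool.Agent.PST
end
end -- Pool.Agent.PST.Tpw

section -- Pool.Agent.PST.Stq

/-!
# Squad PST: the step STQ from the outputs of the blocks
-/

open scoped BigOperators TensorProduct PowerSeries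

noncomputable section

namespace Pool.Agent.PST

open Pool.Agent.PFC (tw IsTv)
open Pool.Agent.PFD.D2b (FrR)
open Pool.Agent.PSS

/-- the deformation in the sense of `Df` -/
def Dpt.df {ℓ : ℕ} {F V E A As K K0 : Type} [Field F] [CommGroup V] [Fintype V] [Group E]
    [Ring A] [Algebra F A] [Ring As] [Algebra F⟦X⟧ As] [Fintype K] [Fintype K0]
    {φ : E →* MulAut V} {α : V →* A} {W : Subgroup V} [Fintype W] {ψ : E →* MulAut W}
    {γ : W →* As} {q : As →+* A} {lam : As →ₗ[F⟦X⟧] F⟦X⟧} {lam0 : A →ₗ[F] F}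
    {x y : K → As} {x0 y0 : K0 → A} (D : Dpt ℓ F φ α W ψ γ q lam lam0 x y x0 y0) :
    Df (PowerSeries.X : F⟦X⟧) PowerSeries.constantCoeff (aw α W) γ where
  q := q
  sc := D.sc
  surj := D.surj
  ker := D.ker
  qw := D.qw
  per := by
    obtain ⟨Ω, i1, i2, b, c, hf, _⟩ := D.per
    exact ⟨Ω, i1, i2, b, c, hf⟩

/-- STQ -/
theorem stq (dtq : DtqStmt) (gfw : GfwStmt) (dz : DzwStmt) (tp : TpwStmt) : StqStmt := by
  intro ℓ _ F V E A B _ _ _ _ _ _ _ _ _ _ _ φ α W' W _ ψ hp hE hch hr hWW hst hA N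
  by_cases hW' : W' = ⊤
  · exact trv ℓ F V E A B φ α W' W ψ hW' hr hA N
  · obtain ⟨As, K, K0, Ω, _, _, _, _, _, _, _, _, γ, q, lam, lam0, x, y, x0, y0, b, cc, D, hfr,
      hsb, hO⟩ := dtq ℓ F V E A φ α W' ψ hp hE hch hr hA
    obtain ⟨F', _, _, _, _, hinj⟩ := exists_gf ℓ F
    obtain ⟨B', _, _, N', hB'⟩ := tp ℓ F V E A As B F' φ α W' W γ hp hE hch hWW hst hA N hinj
      D.df D.reg
    refine ⟨F', F' ⊗[F⟦X⟧] As, B', inferInstance, inferInstance, inferInstance, inferInstance,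
      inferInstance, inferInstance, inferInstance, bcw (R := F⟦X⟧) (S := F') γ, N', ?_, ?_, hB'⟩
    · exact gfw ℓ F F' V E A As K K0 Ω φ α W' ψ γ q lam lam0 x y x0 y0 b cc hinj hp hE hW' D
        hfr hsb hO
    · exact dz ℓ F V E A As F' φ α W' γ hp hE hch hA hinj D.df D.reg

end Pool.Agent.PST
end
end -- Pool.Agent.PST.Stq
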