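import Pool.Agent.Helper12_AWB.B011
import Pool.Agent.Helper12_AWB.B028
import Pool.Agent.Helper12_AWB.B032
import Pool.Agent.Helper12_AWB.B034
import Pool.Agent.Helper12_AWB.B035
import Pool.Agent.Helper12_AWB.B036
import Pool.Agent.Helper12_AWB.B192

/-!
# Merged copies (generated) of the modules

* `Pool.Agent.Helper10_PSS.DGZ`
* `Pool.Agent.Helper13_PST.YCE`
* `Pool.Agent.Helper15_PST.LAL`
* `Pool.Agent.Helper19_PSS.UNT`
* `Pool.Agent.Helper1_PST.LFX`
* `Pool.Agent.Helper21_PST.NDI`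
* `Pool.Agent.Helper24_PST.EXA`
* `Pool.Agent.Helper27_PST.ADX`
* `Pool.Agent.Helper81_PST.LSA`
* `Pool.Agent.PSS.AllS`
* `Pool.Agent.Helper40_PST.DZC`
* `Pool.Agent.Helper46_PST.YCB`
* `Pool.Agent.Helper49_PST.ALT`
* `Pool.Agent.Helper56_PST.BQT`
* `Pool.Agent.Helper79_PST.DXI`
* `Pool.Agent.Helper82_PST.VTA`
* `Pool.Agent.Helper94_PST.MCO`
* `Pool.Agent.PST.AsmKEY`
-/

set_option autoImplicit false

section -- Pool.Agent.Helper10_PSS.DGZ

/-!
# Squad PSS, row DGZ: `Gz` is a derivation modulo `q`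
-/

namespace Pool.Agent.PSS.S2.H10

open Pool.Agent.PSS.S2

section

variable {R A : Type} [CommRing R] [Ring A] [Algebra R A] {q : R}

theorem cg_sub {a a' b b' : A} (h : Cg q a a') (h' : Cg q b b') : Cg q (a - b) (a' - b') := by
  obtain ⟨d, hd⟩ := h
  obtain ⟨e, he⟩ := h'
  refine ⟨d - e, ?_⟩
  rw [smul_sub, ← hd, ← he]
  abel

theorem cg_add_right {a a' : A} (h : Cg q a a') (b : A) : Cg q (a + b) (a' + b) := by
  obtain ⟨d, hd⟩ := h
  exact ⟨d, by rw [← hd]; abel⟩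

theorem cg_mul_left {a a' : A} (h : Cg q a a') (b : A) : Cg q (b * a) (b * a') := by
  obtain ⟨d, hd⟩ := h
  exact ⟨b * d, by rw [← mul_sub, hd, mul_smul_comm]⟩

theorem cg_mul_right {a a' : A} (h : Cg q a a') (b : A) : Cg q (a * b) (a' * b) := by
  obtain ⟨d, hd⟩ := h
  exact ⟨d * b, by rw [← sub_mul, hd, smul_mul_assoc]⟩

end

theorem dgz (hT : ThlStmt) : DgzStmt := by
  intro R V A K _ _ _ _ _ _ q α z lam x y χ N hF hN a b
  let f : A →ₗ[R] A := (LinearMap.mulRight R (1 - α z⁻¹)).comp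
    (N.comp (LinearMap.mulLeft R a) - (LinearMap.mulLeft R a).comp N)
  have hf : ∀ c, f c = (N (a * c) - a * N c) * (1 - α z⁻¹) := fun c => rfl
  have hR : RLq q α f := by
    intro c v
    have hv : α v * (1 - α z⁻¹) = (1 - α z⁻¹) * α v := by
      rw [mul_sub, sub_mul, mul_one, one_mul, ← map_mul, ← map_mul, mul_comm]
    have h1 : Cg q (N (a * (c * α v))) (N (a * c) * α v + χ v • (a * c * α v)) := by
      rw [← mul_assoc]
      exact hN.lin _ _
    have h2 : Cg q (a * N (c * α v)) (a * (N c * α v + χ v • (c * α v))) :=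
      cg_mul_left (hN.lin _ _) a
    have h3 := cg_mul_right (cg_sub h1 h2) (1 - α z⁻¹)
    have e : (N (a * c) * α v + χ v • (a * c * α v) - a * (N c * α v + χ v • (c * α v))) *
        (1 - α z⁻¹) = f c * α v := by
      have e1 : N (a * c) * α v + χ v • (a * c * α v) - a * (N c * α v + χ v • (c * α v)) =
          (N (a * c) - a * N c) * α v := by
        rw [mul_add, mul_smul_comm, ← mul_assoc, ← mul_assoc, sub_mul]
        abel
      rw [e1, hf, mul_assoc, hv, mul_assoc]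
    rw [e] at h3
    exact h3
  have h1 := hT R V A K q α lam x y f hF hR b
  have e1 : Gz α z x y N (a * b) = ∑ k, f (b * x k) * y k + a * Gz α z x y N b := by
    rw [gz_apply, gz_apply, Finset.mul_sum, ← Finset.sum_add_distrib]
    refine Finset.sum_congr rfl fun k _ => ?_
    rw [hf]
    have e2 : N (a * b * x k) - a * b * N (x k) =
        (N (a * (b * x k)) - a * N (b * x k)) + a * (N (b * x k) - b * N (x k)) := by
      rw [mul_sub, ← mul_assoc, ← mul_assoc]
      abel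
    rw [e2, add_mul]
    simp only [mul_assoc]
  have e3 : Gz α z x y N a * b = (∑ k, f (x k) * y k) * b := by
    rw [gz_apply]
    congr 1
    refine Finset.sum_congr rfl fun k _ => ?_
    rw [hf, mul_assoc]
  rw [e1, e3]
  exact cg_add_right h1 _

end Pool.Agent.PSS.S2.H10
end -- Pool.Agent.Helper10_PSS.DGZ

section -- Pool.Agent.Helper13_PST.YCE

/-!
# Row YCE of squad PST: the element given by a vertex `r`
-/

set_option autoImplicit false

open scoped BigOperators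

noncomputable section

namespace Pool.Agent.PST.H13

open Pool.Agent.PSS
open Pool.Agent.PFC (IsTv)

/-- powers of `r` modulo a subgroup which contains `r ^ ℓ` but not `r` -/
theorem pow_sep {V : Type} [CommGroup V] {ℓ : ℕ} (hℓ : ℓ.Prime) {r : V} {W : Subgroup V} (hr : r ∉ W)
    (hrl : r ^ ℓ ∈ W) {j k : ℕ} (hj : j < ℓ) (hk : k < ℓ) {p : V} (h1 : (r ^ j)⁻¹ * p ∈ W)
    (h2 : (r ^ k)⁻¹ * p ∈ W) : j = k := by
  have huq0 : ∀ j k : ℕ, j < k → k < ℓ → (r ^ j)⁻¹ * p ∈ W → (r ^ k)⁻¹ * p ∈ W → False := by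
    intro j k hjk hk h1 h2
    have h3 : r ^ (k - j) ∈ W := by
      have h4 := W.mul_mem h1 (W.inv_mem h2)
      have e : (r ^ j)⁻¹ * p * ((r ^ k)⁻¹ * p)⁻¹ = r ^ (k - j) := by
        rw [mul_inv_rev, inv_inv, mul_assoc, mul_inv_cancel_left, inv_mul_eq_iff_eq_mul, ← pow_add]
        congr 1
        omega
      rwa [e] at h4
    have hcop : Nat.Coprime (k - j) ℓ := (Nat.coprime_of_lt_prime (by omega) (by omega) hℓ).symm
    obtain ⟨a, b, hab⟩ := Nat.isCoprime_iff_coprime.2 hcop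
    apply hr
    have e : r = (r ^ (k - j)) ^ a * (r ^ ℓ) ^ b := by
      rw [← zpow_natCast r, ← zpow_natCast r, ← zpow_mul, ← zpow_mul, ← zpow_add,
        mul_comm (((k - j : ℕ)) : ℤ), mul_comm ((ℓ : ℕ) : ℤ), hab, zpow_one]
    rw [e]
    exact W.mul_mem (W.zpow_mem h3 _) (W.zpow_mem hrl _)
  rcases lt_trichotomy j k with h | h | h
  · exact (huq0 j k h hk h1 h2).elim
  · exact h
  · exact (huq0 k j h hj h2 h1).elim

/-- the traces from `⟨r ^ ℓ⟩` to `⟨r⟩` -/
theorem tr_mem {R V A : Type} [CommRing R] [CommGroup V] [Finite V] [Ring A] [Algebra R A]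
    {α : V →* A} {ℓ : ℕ} (hℓ : ℓ.Prime) {r : V} {W : Subgroup V} (hr : r ∉ W) (hrl : r ^ ℓ ∈ W)
    {h : A} (hh : α (r ^ ℓ) * h = h * α (r ^ ℓ)) :
    ∑ j ∈ Finset.range ℓ, α (r ^ j) * h * α (r ^ j)⁻¹ ∈ BKR (cw R α) (Subgroup.zpowers r) := by
  classical
  have hle : Subgroup.zpowers (r ^ ℓ) ≤ W := by
    rw [Subgroup.zpowers_le]
    exact hrl
  have hsep : ∀ j < ℓ, ∀ k < ℓ, r ^ j = r ^ k → j = k := by
    intro j hj k hk h
    refine pow_sep hℓ hr hrl hj hk (p := r ^ j) ?_ ?_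
    · rw [inv_mul_cancel]
      exact W.one_mem
    · rw [h, inv_mul_cancel]
      exact W.one_mem
  refine Submodule.subset_span ⟨Subgroup.zpowers (r ^ ℓ), (Finset.range ℓ).image fun j => r ^ j, h,
    ?_, ⟨?_, ?_⟩, ?_, ?_⟩
  · apply SetLike.lt_iff_le_and_exists.2
    refine ⟨?_, r, Subgroup.mem_zpowers r, fun h => hr (hle h)⟩
    rw [Subgroup.zpowers_le]
    exact Subgroup.pow_mem _ (Subgroup.mem_zpowers r) _
  · intro s hs
    rw [Finset.mem_image] at hs
    obtain ⟨j, _, rfl⟩ := hs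
    exact Subgroup.pow_mem _ (Subgroup.mem_zpowers r) _
  · intro p hp
    obtain ⟨n, rfl⟩ := mem_powers_iff_mem_zpowers.2 hp
    simp only
    have e : (r ^ (n % ℓ))⁻¹ * r ^ n = (r ^ ℓ) ^ (n / ℓ) := by
      have e1 : r ^ n = r ^ (n % ℓ) * (r ^ ℓ) ^ (n / ℓ) := by
        rw [← pow_mul, ← pow_add, Nat.mod_add_div]
      rw [e1, inv_mul_cancel_left]
    refine ⟨r ^ (n % ℓ), ⟨Finset.mem_image_of_mem _ (Finset.mem_range.2 (Nat.mod_lt _ hℓ.pos)), ?_⟩,
      ?_⟩
    · rw [e]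
      exact Subgroup.pow_mem _ (Subgroup.mem_zpowers _) _
    · rintro y ⟨hy1, hy2⟩
      rw [Finset.mem_image] at hy1
      obtain ⟨k, hk, rfl⟩ := hy1
      rw [Finset.mem_range] at hk
      have h1 : (r ^ (n % ℓ))⁻¹ * r ^ n ∈ W := by
        rw [e]
        exact W.pow_mem hrl _
      rw [pow_sep hℓ hr hrl hk (Nat.mod_lt n hℓ.pos) (hle hy2) h1]
  · rw [mem_cw]
    intro q hq
    obtain ⟨n, rfl⟩ := mem_powers_iff_mem_zpowers.2 hq
    simp only
    rw [map_pow]
    exact (Commute.pow_left hh n).eq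
  · rw [Finset.sum_image]
    · refine Finset.sum_congr rfl fun j _ => ?_
      change _ = α (r ^ j) * (h * α (r ^ j)⁻¹)
      rw [mul_assoc]
    · intro j hj k hk h
      exact hsep j (Finset.mem_range.1 hj) k (Finset.mem_range.1 hk) h

theorem yce : YceStmt := by
  intro ℓ _ R K V A B κ Ω _ _ _ _ _ _ _ _ _ _ _ _ _ W α lam x y b c C g r e _ hg hg1 hI hr hrl he
  have hℓ : ℓ.Prime := Fact.out
  obtain ⟨β, hβ⟩ : ∃ β : V →* B, β = ia C.i α := ⟨_, rfl⟩
  have hβa : ∀ v, C.i (α v) = β v := fun v => by rw [hβ]; rfl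
  have hcc : ∀ v w : V, Commute (β v) (β w) := fun v w => by
    change β v * β w = β w * β v
    rw [← map_mul, ← map_mul, mul_comm]
  have hinv : ∀ v : V, β v * β v⁻¹ = 1 := fun v => by rw [← map_mul, mul_inv_cancel, map_one]
  have hinv' : ∀ v : V, β v⁻¹ * β v = 1 := fun v => by rw [← map_mul, inv_mul_cancel, map_one]
  rw [← hβ] at hg
  -- values of `g` commute with `r ^ ℓ`
  have hgc : ∀ a : B, Commute (β (r ^ ℓ)) a → Commute (β (r ^ ℓ)) (g a) := by
    intro a ha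
    have h1 := hg (r ^ ℓ) hrl a
    change β (r ^ ℓ) * g a = g a * β (r ^ ℓ)
    rw [← h1.1, ← h1.2, ha.eq]
  obtain ⟨s, hs⟩ : ∃ s, s = g (β r) * β r⁻¹ := ⟨_, rfl⟩
  have hsc : Commute (β (r ^ ℓ)) s := by
    rw [hs]
    exact (hgc _ (hcc _ _)).mul_right (hcc _ _)
  -- shift
  have hpow : ∀ j, β (r ^ (j + 1)) = β r * β (r ^ j) := fun j => by rw [← map_mul, ← pow_succ']
  have hpowi : ∀ j, β (r ^ (j + 1))⁻¹ = β (r ^ j)⁻¹ * β r⁻¹ := fun j => by
    rw [← map_mul, ← mul_inv_rev, ← pow_succ']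
  have hpowi' : ∀ j, β (r ^ (j + 1))⁻¹ = β r⁻¹ * β (r ^ j)⁻¹ := fun j => by
    rw [← map_mul, ← mul_inv_rev, ← pow_succ]
  have hper : ∀ t : B, Commute (β (r ^ ℓ)) t → β (r ^ ℓ) * t * β (r ^ ℓ)⁻¹ = t := by
    intro t ht
    rw [ht.eq, mul_assoc, hinv, mul_one]
  have hE : C.i e = ∑ j ∈ Finset.range ℓ, β (r ^ j) * s * β (r ^ j)⁻¹ := by
    rw [he]
    have h1 : ∀ j, d1 g (C.i (α (r ^ j))) (C.i (α r)) * C.i (α (r ^ (j + 1))⁻¹) =
        β (r ^ j) * s * β (r ^ j)⁻¹ - (g (β (r ^ (j + 1))) * β (r ^ (j + 1))⁻¹ -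
          g (β (r ^ j)) * β (r ^ j)⁻¹) := by
      intro j
      rw [hβa, hβa, hβa]
      unfold d1
      rw [← (hcc r (r ^ j)).eq, ← hpow, add_mul, sub_mul, hs]
      have e1 : β (r ^ j) * g (β r) * β (r ^ (j + 1))⁻¹ =
          β (r ^ j) * (g (β r) * β r⁻¹) * β (r ^ j)⁻¹ := by
        rw [hpowi']
        simp only [mul_assoc]
      have e2 : g (β (r ^ j)) * β r * β (r ^ (j + 1))⁻¹ = g (β (r ^ j)) * β (r ^ j)⁻¹ := by
        rw [hpowi', mul_assoc, ← mul_assoc (β r), hinv, one_mul]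
      rw [e1, e2]
      abel
    simp only [h1]
    rw [Finset.sum_sub_distrib, Finset.sum_range_sub (fun j => g (β (r ^ j)) * β (r ^ j)⁻¹)]
    have e3 : g (β (r ^ ℓ)) = 0 := by
      have h2 := (hg (r ^ ℓ) hrl 1).1
      rw [mul_one, hg1, mul_zero] at h2
      exact h2
    rw [e3, pow_zero, map_one, hg1]
    simp
  have hcomm : ∀ t : B, Commute (β (r ^ ℓ)) t →
      β r * (∑ j ∈ Finset.range ℓ, β (r ^ j) * t * β (r ^ j)⁻¹) =
        (∑ j ∈ Finset.range ℓ, β (r ^ j) * t * β (r ^ j)⁻¹) * β r := by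
    intro t ht
    have h1 : β r * (∑ j ∈ Finset.range ℓ, β (r ^ j) * t * β (r ^ j)⁻¹) * β r⁻¹ =
        ∑ j ∈ Finset.range ℓ, β (r ^ (j + 1)) * t * β (r ^ (j + 1))⁻¹ := by
      rw [Finset.mul_sum, Finset.sum_mul]
      refine Finset.sum_congr rfl fun j _ => ?_
      rw [hpow, hpowi]
      simp only [mul_assoc]
    have h2 := Finset.sum_range_succ (fun j => β (r ^ j) * t * β (r ^ j)⁻¹) ℓ
    have h3 := Finset.sum_range_succ' (fun j => β (r ^ j) * t * β (r ^ j)⁻¹) ℓ
    rw [hper t ht] at h2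
    rw [h3] at h2
    have h4 : β (r ^ 0) * t * β (r ^ 0)⁻¹ = t := by
      rw [pow_zero, inv_one, map_one, one_mul, mul_one]
    rw [h4] at h2
    have h5 := add_right_cancel h2
    rw [h5] at h1
    rw [← h1, mul_assoc (β r * _), hinv', mul_one]
    rw [h1]
  constructor
  · apply C.inj
    rw [map_mul, map_mul, hβa, hE]
    exact (hcomm s hsc).symm
  · intro a ha
    have ha' : Commute (C.i a) (β r) := by
      have := congrArg C.i ha
      rw [map_mul, map_mul, hβa] at this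
      exact this
    have hap : ∀ n : ℕ, Commute (C.i a) (β (r ^ n)) := by
      intro n
      rw [map_pow]
      exact ha'.pow_right n
    have hai : ∀ v : V, Commute (C.i a) (β v) → Commute (C.i a) (β v⁻¹) := by
      intro v hv
      change C.i a * β v⁻¹ = β v⁻¹ * C.i a
      calc C.i a * β v⁻¹ = β v⁻¹ * β v * C.i a * β v⁻¹ := by rw [hinv', one_mul]
        _ = β v⁻¹ * (β v * C.i a) * β v⁻¹ := by simp only [mul_assoc]
        _ = β v⁻¹ * (C.i a * β v) * β v⁻¹ := by rw [hv.eq]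
        _ = β v⁻¹ * C.i a * (β v * β v⁻¹) := by simp only [mul_assoc]
        _ = β v⁻¹ * C.i a := by rw [hinv, mul_one]
    obtain ⟨a1, ha1⟩ := hI a (α r)
    obtain ⟨a2, ha2⟩ := hI (α r) a
    have hga : Commute (β (r ^ ℓ)) (g (C.i a)) := hgc _ (hap ℓ).symm
    have hih : C.i ((a1 - a2) * α r⁻¹) =
        (C.i a * s - s * C.i a) + (g (C.i a) - β r * g (C.i a) * β r⁻¹) := by
      rw [map_mul, map_sub, ha1, ha2, hβa, hβa]
      unfold d1
      rw [ha'.eq, hs]
      have e1 : g (β r) * C.i a * β r⁻¹ = g (β r) * β r⁻¹ * C.i a := by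
        rw [mul_assoc, (hai r ha').eq, mul_assoc]
      have e2 : g (C.i a) * β r * β r⁻¹ = g (C.i a) := by rw [mul_assoc, hinv, mul_one]
      have e3 : (C.i a * g (β r) - g (β r * C.i a) + g (C.i a) * β r -
          (β r * g (C.i a) - g (β r * C.i a) + g (β r) * C.i a)) * β r⁻¹ =
          C.i a * g (β r) * β r⁻¹ + g (C.i a) * β r * β r⁻¹ - β r * g (C.i a) * β r⁻¹ -
            g (β r) * C.i a * β r⁻¹ := by
        simp only [add_mul, sub_mul]
        abel
      rw [e3, e1, e2, mul_assoc (C.i a)]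
      abel
    have hhc : α (r ^ ℓ) * ((a1 - a2) * α r⁻¹) = (a1 - a2) * α r⁻¹ * α (r ^ ℓ) := by
      apply C.inj
      rw [map_mul C.i (α (r ^ ℓ)), map_mul C.i _ (α (r ^ ℓ)), hih, hβa]
      have c1 : Commute (β (r ^ ℓ)) (C.i a) := (hap ℓ).symm
      exact (((c1.mul_right hsc).sub_right (hsc.mul_right c1)).add_right
        (hga.sub_right (((hcc _ _).mul_right hga).mul_right (hcc _ _)))).eq
    have hmain : a * e - e * a = ∑ j ∈ Finset.range ℓ,
        α (r ^ j) * ((a1 - a2) * α r⁻¹) * α (r ^ j)⁻¹ := by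
      apply C.inj
      rw [map_sub, map_mul, map_mul, hE, map_sum]
      have e1 : ∀ j, C.i (α (r ^ j) * ((a1 - a2) * α r⁻¹) * α (r ^ j)⁻¹) =
          (C.i a * (β (r ^ j) * s * β (r ^ j)⁻¹) - β (r ^ j) * s * β (r ^ j)⁻¹ * C.i a) -
          (β (r ^ (j + 1)) * g (C.i a) * β (r ^ (j + 1))⁻¹ -
            β (r ^ j) * g (C.i a) * β (r ^ j)⁻¹) := by
        intro j
        rw [map_mul, map_mul C.i (α (r ^ j)), hih, hβa, hβa]
        have f1 : β (r ^ j) * (C.i a * s) * β (r ^ j)⁻¹ = C.i a * (β (r ^ j) * s * β (r ^ j)⁻¹) := by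
          rw [← mul_assoc, ← (hap j).eq]
          simp only [mul_assoc]
        have f2 : β (r ^ j) * (s * C.i a) * β (r ^ j)⁻¹ = β (r ^ j) * s * β (r ^ j)⁻¹ * C.i a := by
          rw [mul_assoc (β (r ^ j)), mul_assoc s, (hai _ (hap j)).eq]
          simp only [mul_assoc]
        have f3 : β (r ^ j) * (β r * g (C.i a) * β r⁻¹) * β (r ^ j)⁻¹ =
            β (r ^ (j + 1)) * g (C.i a) * β (r ^ (j + 1))⁻¹ := by
          rw [hpow, hpowi', (hcc r (r ^ j)).eq]
          simp only [mul_assoc]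
        rw [mul_add, add_mul, mul_sub, sub_mul, mul_sub, sub_mul, f1, f2, f3]
        abel
      simp only [e1]
      rw [Finset.sum_sub_distrib, Finset.sum_range_sub
        (fun j => β (r ^ j) * g (C.i a) * β (r ^ j)⁻¹), hper _ hga, pow_zero, inv_one, map_one,
        one_mul, mul_one, sub_self, sub_zero, Finset.sum_sub_distrib, Finset.mul_sum,
        Finset.sum_mul]
    rw [hmain]
    exact tr_mem hℓ hr hrl hhc

end Pool.Agent.PST.H13
end
end -- Pool.Agent.Helper13_PST.YCE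

section -- Pool.Agent.Helper15_PST.LAL

/-! LAL: linear algebra -/

set_option autoImplicit false

open scoped BigOperators

noncomputable section

namespace Pool.Agent.PST.H15

open Pool.Agent.PST

theorem lal (alt : AltStmt) : LalStmt := by
  classical
  intro F V E Z _ _ _ _ _ _ _ φ W Q n la χ xx t w eg hQ hadd hanti hself hW hrel
  choose s hs r hr hsr using hQ
  -- `s v` and `v` agree modulo `W`
  have hsW : ∀ v, s v * v⁻¹ ∈ W := by
    intro v
    have h1 : s v * v⁻¹ = (r v)⁻¹ := by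
      have h2 : s v = v * (r v)⁻¹ := eq_mul_inv_of_mul_eq (hsr v).symm
      rw [h2, mul_comm v, mul_inv_cancel_right]
    rw [h1]
    exact W.inv_mem (hr v)
  -- only the classes matter
  have hcl : ∀ q ∈ Q, ∀ q' ∈ Q, q * q'⁻¹ ∈ W → ∀ v ∈ Q, w q v = w q' v := by
    intro q hq q' hq' h v hv
    have h1 : q = (q * q'⁻¹) * q' := by rw [inv_mul_cancel_right]
    have h2 : q * q'⁻¹ ∈ Q := Q.mul_mem hq (Q.inv_mem hq')
    rw [h1, hadd _ h2 _ hq' v hv, hW _ h2 v hv h, zero_add]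
  have hcr : ∀ q ∈ Q, ∀ q' ∈ Q, q * q'⁻¹ ∈ W → ∀ v ∈ Q, w v q = w v q' := by
    intro q hq q' hq' h v hv
    rw [hanti q hq v hv, hanti q' hq' v hv, hcl q hq q' hq' h v hv]
  have hmul : ∀ u u', s (u * u') * (s u * s u')⁻¹ ∈ W := by
    intro u u'
    have h1 : s (u * u') * (s u * s u')⁻¹ =
        (s (u * u') * (u * u')⁻¹) * ((s u * u⁻¹)⁻¹ * (s u' * u'⁻¹)⁻¹) := by
      simp only [mul_inv_rev, inv_inv]
      have : ∀ a b c d e : V, a * (d⁻¹ * c⁻¹) = a * (e⁻¹ * b⁻¹) * (b * c⁻¹ * (e * d⁻¹)) := by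
        intro a b c d e
        have h2 : a * (e⁻¹ * b⁻¹) * (b * c⁻¹ * (e * d⁻¹)) =
            a * (d⁻¹ * c⁻¹) * ((b⁻¹ * b) * (e⁻¹ * e)) := by
          simp only [mul_comm, mul_left_comm, mul_assoc]
        rw [h2]
        simp
      exact this _ _ _ _ _
    rw [h1]
    exact W.mul_mem (hsW _) (W.mul_mem (W.inv_mem (hsW u)) (W.inv_mem (hsW u')))
  set w' : V → V → Z := fun u v => w (s u) (s v) with hw'
  have hw'Q : ∀ u ∈ Q, ∀ v ∈ Q, w' u v = w u v := by
    intro u hu v hv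
    rw [hw']
    simp only
    rw [hcl _ (hs u) u hu (hsW u) _ (hs v), hcr _ (hs v) v hv (hsW v) u hu]
  have hadd' : ∀ u u' v, w' (u * u') v = w' u v + w' u' v := by
    intro u u' v
    rw [hw']
    simp only
    rw [← hadd _ (hs u) _ (hs u') _ (hs v)]
    exact hcl _ (hs _) _ (Q.mul_mem (hs u) (hs u')) (hmul u u') _ (hs v)
  have hanti' : ∀ u v, w' v u = - w' u v := fun u v => hanti _ (hs u) _ (hs v)
  have hlas : ∀ l u, la l (s u) = la l u := by
    intro l u
    have h1 : la l u = la l (s u) + la l (r u) := by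
      conv_lhs => rw [hsr u]
      exact eg.add l _ _
    rw [h1, (eg.ker (r u)).1 (hr u) l, add_zero]
  have hsmem : ∀ u, u ∈ W → s u ∈ W := by
    intro u hu
    rw [eg.ker]
    intro l
    rw [hlas, (eg.ker u).1 hu l]
  have hsmem2 : ∀ u, u ∉ W → s u ∉ W := by
    intro u hu h
    apply hu
    rw [eg.ker]
    intro l
    rw [← hlas, (eg.ker _).1 h l]
  -- the ideals
  set I : Ideal Z := Ideal.span (Set.range fun p : V × V => w' p.1 p.2) with hI
  have hwI : ∀ u v, w' u v ∈ I := fun u v => Ideal.subset_span ⟨(u, v), rfl⟩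
  set J : Ideal Z := nilradical Z with hJ
  have hf := alt F V E (Z ⧸ (J * I)) φ W Q n la χ xx t
    (fun u v => Ideal.Quotient.mk (J * I) (w' u v)) eg
    (by intro u u' v; rw [hadd', map_add])
    (by
      intro u v v'
      rw [hanti' (v * v') u, hadd', hanti' v u, hanti' v' u, ← map_add]
      congr 1
      ring)
    (by
      intro a ha v
      have h1 : w' a v = 0 := hW _ (hs a) _ (hs v) (hsmem a ha)
      rw [hanti' a v, h1, neg_zero, map_zero]
      exact ⟨rfl, rfl⟩)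
    (by
      intro u
      have h1 : w' u u = 0 := hself _ (hs u)
      rw [h1, map_zero])
    (by
      intro u
      by_cases hu : u ∈ W
      · refine Finset.sum_eq_zero fun v _ => ?_
        have h1 : pg la xx t u v = 0 := by
          unfold pg
          refine Finset.sum_eq_zero fun l _ => ?_
          rw [(eg.ker u).1 hu l, mul_zero, zero_mul]
        rw [h1, zero_smul]
      · obtain ⟨m, hm, hsum⟩ := hrel _ (hs u) (hsmem2 u hu)
        have h1 : ∀ l, ∑ v, xx l v • w v (s u) = ∑ v, xx l v • w' v u := by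
          intro l
          refine Finset.sum_congr rfl fun v _ => ?_
          by_cases hv : v ∈ Q
          · rw [hw']
            simp only
            rw [hcl _ (hs v) v hv (hsW v) _ (hs u)]
          · rw [eg.qs l v hv, zero_smul, zero_smul]
        have h2 : ∑ v, pg la xx t u v • w' u v =
            ∑ l, m l * ∑ v, xx l v • w' v u := by
          have h3 : ∑ v, pg la xx t u v • w' u v =
              - ∑ l, algebraMap F Z (t l * la l u) * ∑ v, xx l v • w' v u := by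
            simp only [← Algebra.smul_def, Finset.smul_sum]
            rw [Finset.sum_comm, ← Finset.sum_neg_distrib]
            refine Finset.sum_congr rfl fun v _ => ?_
            unfold pg
            rw [Finset.sum_smul, ← Finset.sum_neg_distrib]
            refine Finset.sum_congr rfl fun l _ => ?_
            rw [hanti' u v, smul_smul, smul_neg, neg_neg]
          rw [h3]
          have h4 : ∑ l, (algebraMap F Z (t l * la l u) + m l) * ∑ v, xx l v • w' v u = 0 := by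
            rw [← hsum]
            refine Finset.sum_congr rfl fun l _ => ?_
            rw [h1, hlas]
          simp only [add_mul, Finset.sum_add_distrib] at h4
          rw [eq_comm, ← sub_eq_zero, sub_neg_eq_add, add_comm]
          exact h4
        have h5 : ∑ v, pg la xx t u v • w' u v ∈ J * I := by
          rw [h2]
          refine Ideal.sum_mem _ fun l _ => Ideal.mul_mem_mul ?_ ?_
          · exact mem_nilradical.2 (hm l)
          · refine Ideal.sum_mem _ fun v _ => ?_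
            rw [Algebra.smul_def]
            exact I.mul_mem_left _ (hwI v u)
        have h6 := Ideal.Quotient.eq_zero_iff_mem.2 h5
        rw [map_sum] at h6
        rw [← h6]
        refine Finset.sum_congr rfl fun v _ => ?_
        rw [Algebra.smul_def, Algebra.smul_def, map_mul]
        rfl)
  have hIJ : I ≤ J • I := by
    rw [hI, Ideal.span_le, ← hI]
    rintro _ ⟨p, rfl⟩
    exact Ideal.Quotient.eq_zero_iff_mem.1 (hf p.1 p.2)
  have : IsNoetherianRing Z := isNoetherian_of_tower F (inferInstance : IsNoetherian F Z)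
  have hI0 : I = ⊥ := Submodule.eq_bot_of_le_smul_of_le_jacobson_bot J I
    (IsNoetherian.noetherian I) hIJ (by
      rw [hJ]
      exact Ideal.radical_le_jacobson)
  intro u hu v hv
  rw [← hw'Q u hu v hv]
  have h1 := hwI u v
  rw [hI0] at h1
  exact (Submodule.mem_bot Z).1 h1

end Pool.Agent.PST.H15
end
end -- Pool.Agent.Helper15_PST.LAL

section -- Pool.Agent.Helper19_PSS.UNT

/-!
Squad PSS, row UNT (helper19).
-/

open scoped BigOperators

noncomputable section

namespace Pool.Agent.PSS.S2.H19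

open Pool.Agent.PSS Pool.Agent.PSS.S2
open Pool.Agent.PFC (tw IsTv)
open Pool.Agent.PFD.D2b (FrR)

theorem unt (hRtw : RtwStmt) (hTvc : TvcStmt) (hRad : RadStmt) (hDgz : DgzStmt)
    (hRtc : Pool.Agent.PSS.RtcStmt) : UntStmt := by
  intro ℓ _ F V E A K Ω _ _ _ _ _ _ _ _ _ _ _ _ φ α z lam x y b c χ N u hp hRF hPr hu hCn hχ
    hbr w
  have hcomm : ∀ v w : V, α v * α w = α w * α v := by
    intro v w
    rw [← map_mul, ← map_mul, mul_comm]
  have hcen : ∀ w : V, ∀ a', rt x y (α w) * a' = a' * rt x y (α w) := by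
    intro w a'
    exact ((hRtc F V A K K α lam x y hRF).1 (α w) (fun v => hcomm v w) a').symm
  have hcen1 : ∀ a', rt x y (1 : A) * a' = a' * rt x y 1 := by
    intro a'
    have h := hcen 1 a'
    rw [map_one] at h
    exact h
  -- the derivation
  have hD : ∀ a b : A, Gz α z x y N (a * b) = Gz α z x y N a * b + a * Gz α z x y N b := by
    intro a b
    exact (cg_zero _ _).1 (hDgz F V A K 0 α z lam x y χ N hRF hCn a b)
  have hGc : ∀ w : V, ∀ a', Gz α z x y N (rt x y (α w)) * a' =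
      a' * Gz α z x y N (rt x y (α w)) := by
    intro w a'
    have h1 := hD (rt x y (α w)) a'
    have h2 := hD a' (rt x y (α w))
    rw [hcen w a', h2, ← hcen w (Gz α z x y N a')] at h1
    -- G a' * rt + a' * G rt = G rt * a' + rt * G a'
    have h3 : Gz α z x y N a' * rt x y (α w) = rt x y (α w) * Gz α z x y N a' := (hcen w _).symm
    rw [← h3, add_comm] at h1
    exact (add_right_cancel h1).symm
  have hCVm : ∀ a d : A, CV α a → (∀ a', d * a' = a' * d) → CV α (a * d) := by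
    intro a d ha hd v
    rw [← mul_assoc, ha v, mul_assoc, ← hd (α v), mul_assoc]
  constructor
  · refine hRad ℓ F V E A K Ω φ α lam x y b c _ hp hRF hPr ?_ ?_ hbr
    · intro a'
      rw [sub_mul, mul_sub, hcen w, hcen1]
    · intro a ha
      rw [mul_sub, map_sub, (hRtw ℓ F V E A K Ω φ α lam x y b c a w hp hRF hPr ha).1, sub_self]
  · refine hRad ℓ F V E A K Ω φ α lam x y b c _ hp hRF hPr ?_ ?_ hbr
    · intro a'
      have e1 : rt x y (α z⁻¹) * rt x y (α w) * a' = a' * (rt x y (α z⁻¹) * rt x y (α w)) := by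
        rw [mul_assoc, hcen w, ← mul_assoc, hcen z⁻¹, mul_assoc]
      have e2 : rt x y (1 : A) * rt x y 1 * a' = a' * (rt x y 1 * rt x y 1) := by
        rw [mul_assoc, hcen1, ← mul_assoc, hcen1, mul_assoc]
      rw [sub_mul, mul_sub, add_mul, mul_add, e1, e2, hGc w]
    · intro a ha
      have k1 : lam (sg α * (a * rt x y (α w)) * rt x y (α z⁻¹)) =
          lam (sg α * (a * rt x y (α w)) * rt x y 1) :=
        (hRtw ℓ F V E A K Ω φ α lam x y b c (a * rt x y (α w)) z⁻¹ hp hRF hPr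
          (hCVm a _ ha (hcen w))).1
      have k2 : lam (sg α * (a * rt x y 1) * rt x y (α w)) =
          lam (sg α * (a * rt x y 1) * rt x y 1) :=
        (hRtw ℓ F V E A K Ω φ α lam x y b c (a * rt x y 1) w hp hRF hPr
          (hCVm a _ ha hcen1)).1
      have k3 : lam (sg α * a * Gz α z x y N (rt x y (α w))) = 0 :=
        hTvc ℓ F V E A K Ω φ α z lam x y b c χ N u a (rt x y (α w)) hp hRF hPr hu hCn hχ ha
          (hcen w)
      have m1 : sg α * a * (rt x y (α z⁻¹) * rt x y (α w)) =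
          sg α * (a * rt x y (α w)) * rt x y (α z⁻¹) := by
        rw [hcen z⁻¹ (rt x y (α w))]
        simp only [mul_assoc]
      have m2 : sg α * (a * rt x y (α w)) * rt x y 1 = sg α * (a * rt x y 1) * rt x y (α w) := by
        simp only [mul_assoc]
        rw [hcen w (rt x y 1)]
      have m3 : sg α * (a * rt x y 1) * rt x y 1 = sg α * a * (rt x y 1 * rt x y 1) := by
        simp only [mul_assoc]
      rw [mul_sub, mul_add, map_sub, map_add, k3, m1, k1, m2, k2, m3, add_zero, sub_self]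

end Pool.Agent.PSS.S2.H19
end
end -- Pool.Agent.Helper19_PSS.UNT

section -- Pool.Agent.Helper1_PST.LFX

set_option autoImplicit false

open scoped BigOperators

noncomputable section

namespace Pool.Agent.PST.H1

open Pool.Agent.PFC (tw IsTv)
open Pool.Agent.PFD.D2 (Cdv FibG)
open Pool.Agent.PFD.D2b (FrR)
open Pool.Agent.PSS

theorem lfx_cw {R V A : Type} [CommRing R] [CommGroup V] [Ring A] [Algebra R A] (α : V →* A)
    (s : V) (a : A) : cw R α s a = α s * (a * α s⁻¹) := rfl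

theorem lfx_bw {R V A : Type} [CommRing R] [CommGroup V] [Ring A] [Algebra R A] (α : V →* A)
    (s : V) (a : A) : cw R α s a = bw R α (s, s) a := rfl

theorem lfx : LfxStmt := by
  intro R F V A A₀ κ Ω _ _ _ _ _ _ _ _ _ _ _ cv f α₀ lam₀ x₀ y₀ b₀ c₀ α lam x y b c hF hL S
  have hqs : ∀ (r : R) (a : A), f.q (r • a) = cv.κ r • f.q a := by
    intro r a
    rw [Algebra.smul_def, map_mul, f.sc, ← Algebra.smul_def]
  have hqc : ∀ (s : V) (a : A), f.q (cw R α s a) = cw F α₀ s (f.q a) := by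
    intro s a
    rw [lfx_cw, lfx_cw, map_mul, map_mul, hL.qa, hL.qa]
  have part1 : ∀ T : Subgroup V, ∀ a₀ ∈ FxR (cw F α₀) T, ∃ a ∈ FxR (cw R α) T, f.q a = a₀ := by
    intro T a₀ ha₀
    set σ : F → R := Function.surjInv cv.surj with hσ
    have hσ' : ∀ t, cv.κ (σ t) = t := Function.surjInv_eq cv.surj
    refine ⟨∑ ω, σ (c₀ ω a₀) • b ω, ?_, ?_⟩
    · intro s hs
      rw [map_sum]
      have h1 : cw F α₀ s a₀ = a₀ := ha₀ s hs
      refine Fintype.sum_equiv (MulAction.toPerm ((s, s) : V × V)) _ _ fun ω => ?_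
      have h2 : c₀ ((s, s) • ω) a₀ = c₀ ω a₀ := by
        have h3 := hF.2.1 (s, s) ω a₀
        rw [← lfx_bw, h1] at h3
        exact h3
      rw [map_smul, lfx_bw, ← hL.fr.1]
      show σ (c₀ ω a₀) • b ((s, s) • ω) = σ (c₀ ((s, s) • ω) a₀) • b ((s, s) • ω)
      rw [h2]
    · rw [map_sum]
      have h1 : ∀ ω, f.q (σ (c₀ ω a₀) • b ω) = c₀ ω a₀ • b₀ ω := by
        intro ω
        rw [hqs, hσ', hL.qb]
      rw [Finset.sum_congr rfl fun ω _ => h1 ω]
      exact hF.2.2 a₀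
  have part2 : ∀ a₀ ∈ BKR (cw F α₀) S, ∃ a ∈ BKR (cw R α) S, f.q a = a₀ := by
    intro a₀ ha₀
    refine Submodule.span_induction (p := fun a₀ _ => ∃ a ∈ BKR (cw R α) S, f.q a = a₀)
      ?_ ?_ ?_ ?_ ha₀
    · rintro n ⟨P', T, m₀, hP, hT, hm, rfl⟩
      obtain ⟨m, hm1, hm2⟩ := part1 P' m₀ hm
      refine ⟨∑ s ∈ T, cw R α s m, Submodule.subset_span ⟨P', T, m, hP, hT, hm1, rfl⟩, ?_⟩
      rw [map_sum]
      refine Finset.sum_congr rfl fun s _ => ?_
      rw [hqc, hm2]
    · exact ⟨0, Submodule.zero_mem _, map_zero _⟩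
    · rintro s t _ _ ⟨a, ha, rfl⟩ ⟨a', ha', rfl⟩
      exact ⟨a + a', Submodule.add_mem _ ha ha', map_add _ _ _⟩
    · rintro r s _ ⟨a, ha, rfl⟩
      obtain ⟨r', hr'⟩ := cv.surj r
      exact ⟨r' • a, Submodule.smul_mem _ _ ha, by rw [hqs, hr']⟩
  refine ⟨part1 S, part2, ?_⟩
  intro a ha
  refine ⟨?_, ?_⟩
  · intro s hs
    rw [← hqc, ha s hs]
  · intro hb
    obtain ⟨a', ha', hq⟩ := part2 _ hb
    have h1 : f.q (a - a') = 0 := by rw [map_sub, hq, sub_self]
    obtain ⟨d, hd⟩ := f.ker _ h1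
    refine ⟨a', ha', d, ?_, ?_⟩
    · intro s hs
      have h2 : a - a' ∈ FxR (cw R α) S := Submodule.sub_mem _ ha (BKR_le_FxR ha')
      have h3 : cw R α s (a - a') = a - a' := h2 s hs
      rw [hd, map_smul] at h3
      have h4 : cv.π • (cw R α s d - d) = 0 := by rw [smul_sub, h3, sub_self]
      have h5 : ∀ ω, c ω (cw R α s d - d) = 0 := by
        intro ω
        refine cv.reg _ ?_
        rw [← smul_eq_mul, ← map_smul, h4, map_zero]
      have h6 := hL.fr.2.2 (cw R α s d - d)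
      simp only [h5, zero_smul, Finset.sum_const_zero] at h6
      exact (sub_eq_zero.1 h6.symm)
    · rw [← hd]
      abel

end Pool.Agent.PST.H1
end
end -- Pool.Agent.Helper1_PST.LFX

section -- Pool.Agent.Helper21_PST.NDI

/-!
# Squad PST, row NDI: the value of a derivation at a central element congruent to an element of `F V`
-/

open scoped BigOperators

set_option autoImplicit false

noncomputable section

namespace Pool.Agent.PST.H21

open Pool.Agent.PSS
open Pool.Agent.PSS.S0 (IsBQ)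

section

variable {F V A : Type} [Field F] [CommGroup V] [Ring A] [Algebra F A]

theorem cw_eq (α : V →* A) (u : V) (a : A) : cw F α u a = α u * (a * α u⁻¹) := rfl

theorem fx_iff (α : V →* A) (a : A) :
    a ∈ FxR (cw F α) ⊤ ↔ ∀ v, α v * a = a * α v := by
  constructor
  · intro h
    exact S0.H80.comm_of_fx α a h
  · intro h v _
    show α v * (a * α v⁻¹) = a
    rw [← mul_assoc, h v, mul_assoc, ← map_mul, mul_inv_cancel, map_one, mul_one]

/-- a derivation with `D v = e v • v ζ` preserves the Brauer kernel -/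
theorem der_bk (α : V →* A) (D : A →ₗ[F] A) (hD : Der D) (e : V → F) (ζ : A)
    (he : ∀ u v, e (u * v) = e u + e v) (hζ : ∀ c, c * ζ = ζ * c)
    (h : ∀ v, D (α v) = e v • (α v * ζ)) (z : A) (hz : z ∈ BKR (cw F α) ⊤) :
    D z ∈ BKR (cw F α) ⊤ := by
  have he1 : e 1 = 0 := by
    have := he 1 1
    rw [mul_one] at this
    exact left_eq_add.1 this
  have hei : ∀ v, e v⁻¹ = - e v := by
    intro v
    have := he v v⁻¹
    rw [mul_inv_cancel, he1] at this
    exact eq_neg_of_add_eq_zero_right this.symm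
  have hcw : ∀ (t : V) (m : A), D (cw F α t m) = cw F α t (D m) := by
    intro t m
    rw [cw_eq, cw_eq, hD, hD, h, h, hei]
    have h1 : m * (-e t • (α t⁻¹ * ζ)) = - (e t • (m * α t⁻¹ * ζ)) := by
      rw [neg_smul, mul_neg, mul_smul_comm, mul_assoc]
    rw [h1, mul_add, mul_neg, smul_mul_assoc, mul_smul_comm]
    have h2 : α t * ζ * (m * α t⁻¹) = α t * (m * α t⁻¹ * ζ) := by
      rw [mul_assoc, ← hζ (m * α t⁻¹)]
    rw [h2]
    abel
  have hle : BKR (cw F α) ⊤ ≤ (BKR (cw F α) ⊤).comap D := by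
    refine Submodule.span_le.2 ?_
    rintro _ ⟨P', S, m, hP, hS, hm, rfl⟩
    show D _ ∈ BKR (cw F α) ⊤
    rw [map_sum]
    refine Submodule.subset_span ⟨P', S, D m, hP, hS, ?_, ?_⟩
    · intro s hs
      rw [← hcw, hm s hs]
    · exact Finset.sum_congr rfl fun s _ => hcw s m
  exact hle hz

theorem pow_bq (α : V →* A) {B : Type} [Ring B] [Algebra F B] (αB : V →* B) (β : A → B)
    (hB : IsBQ F α ⊤ αB β) (a : A) (ha : ∀ v, α v * a = a * α v) (n : ℕ) :
    β (a ^ n) = β a ^ n := by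
  induction n with
  | zero => rw [pow_zero, pow_zero, hB.one]
  | succ n ih =>
    have hn : ∀ v, α v * a ^ n = a ^ n * α v := fun v => (Commute.pow_right (ha v) n)
    rw [pow_succ, hB.mul _ ((fx_iff α _).2 hn) _ ((fx_iff α _).2 ha), ih, pow_succ]

theorem nil_sub (ℓ : ℕ) [Fact ℓ.Prime] [CharP F ℓ] (hV : IsPGroup ℓ V) (α : V →* A) (v : V) :
    IsNilpotent (α v - 1) := by
  rcases subsingleton_or_nontrivial A with hA | hA
  · exact ⟨1, Subsingleton.elim _ _⟩
  · have : CharP A ℓ := charP_of_injective_algebraMap (algebraMap F A).injective ℓ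
    obtain ⟨m, hm⟩ := hV v
    refine ⟨ℓ ^ m, ?_⟩
    rw [sub_pow_char_pow_of_commute (p := ℓ) _ (Commute.one_right (α v)), one_pow, ← map_pow, hm, map_one,
      sub_self]

end

theorem ndi (hN : NkbStmt) : NdiStmt := by
  intro ℓ _ F V E A K _ _ _ _ _ _ _ _ _ φ α lam x y e D p Y hV _ hCl hRF he hD hDv hY hYX
  obtain ⟨ζ, hζdef⟩ : ∃ ζ : A, ζ = rt x y 1 := ⟨_, rfl⟩
  rw [← hζdef] at hDv ⊢
  have h1fx : (1 : A) ∈ FxR (cw F α) ⊤ := (fx_iff α 1).2 fun v => by rw [mul_one, one_mul]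
  have hζ : ∀ c, c * ζ = ζ * c := fun c => by
    rw [hζdef]
    exact S0.H80.zrt F V A K α lam x y hRF 1 h1fx c
  have hDY : ∀ a, D Y * a = a * D Y := by
    intro a
    have h1 : D (Y * a) = D (a * Y) := by rw [hY]
    rw [hD, hD, hY (D a), add_comm (D a * Y)] at h1
    exact add_right_cancel h1
  refine ⟨hDY, ?_⟩
  obtain ⟨z, hz⟩ : ∃ z : A, z = D Y - (∑ v, p v * e v) • ζ := ⟨_, rfl⟩
  obtain ⟨s, hs⟩ : ∃ s : A, s = ∑ v, (p v * e v) • (α v - 1) := ⟨_, rfl⟩
  have hzc : ∀ a, z * a = a * z := by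
    intro a
    rw [hz, sub_mul, mul_sub, hDY, smul_mul_assoc, mul_smul_comm, hζ]
  have hsc : ∀ v, α v * s = s * α v := by
    intro v
    rw [hs, Finset.mul_sum, Finset.sum_mul]
    refine Finset.sum_congr rfl fun u _ => ?_
    rw [mul_smul_comm, smul_mul_assoc, mul_sub, sub_mul, ← map_mul, ← map_mul, mul_comm v u,
      mul_one, one_mul]
  have hsn : IsNilpotent s := by
    rw [hs]
    refine Commute.isNilpotent_sum (fun v _ => ?_) fun u v _ _ => ?_
    · exact (nil_sub (F := F) ℓ hV α v).smul _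
    · refine (Commute.smul_left ?_ _).smul_right _
      refine Commute.sub_left ?_ (Commute.one_left _)
      refine Commute.sub_right ?_ (Commute.one_right _)
      show α u * α v = α v * α u
      rw [← map_mul, ← map_mul, mul_comm u v]
  have hcn : IsNilpotent (s * ζ) :=
    Commute.isNilpotent_mul_right (show Commute s ζ from hζ s) hsn
  have hcc : ∀ v, α v * (s * ζ) = s * ζ * α v := by
    intro v
    rw [← mul_assoc, hsc, mul_assoc, hζ, mul_assoc]
  have hdiff : z - s * ζ ∈ BKR (cw F α) ⊤ := by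
    have h1 := der_bk α D hD e ζ he.add hζ hDv _ hYX
    have h2 : D (Y - Xe α p) = z - s * ζ := by
      rw [map_sub, Xe, map_sum, hz, hs, Finset.sum_mul, Finset.sum_smul, sub_sub,
        ← Finset.sum_add_distrib]
      congr 1
      refine Finset.sum_congr rfl fun v _ => ?_
      rw [map_smul, hDv, smul_smul, smul_mul_assoc, sub_mul, one_mul, smul_sub]
      abel
    rw [h2] at h1
    exact h1
  obtain ⟨B, _, _, αB, β, hB⟩ := S0.H70.bqx F V A α ⊤
  have hz' : z ∈ FxR (cw F α) ⊤ := (fx_iff α z).2 fun v => (hzc _).symm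
  have hc' : s * ζ ∈ FxR (cw F α) ⊤ := (fx_iff α _).2 hcc
  have hβ : β z = β (s * ζ) := by
    have h1 : β (z - s * ζ) = 0 := (hB.ker _ (Submodule.sub_mem _ hz' hc')).2 hdiff
    have h2 := hB.add _ (Submodule.sub_mem _ hz' hc') _ hc'
    rw [sub_add_cancel, h1, zero_add] at h2
    exact h2
  obtain ⟨n, hn⟩ := hcn
  have h0 : β (z ^ n) = 0 := by
    rw [pow_bq α αB β hB z fun v => (hzc _).symm, hβ, ← pow_bq α αB β hB _ hcc, hn]
    exact (hB.ker 0 (Submodule.zero_mem _)).2 (Submodule.zero_mem _)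
  have hzn : ∀ v, α v * z ^ n = z ^ n * α v := fun v =>
    Commute.pow_right (show Commute (α v) z from (hzc _).symm) n
  rw [← hz]
  exact hN F V E A φ α hCl z hzc n ((hB.ker _ ((fx_iff α _).2 hzn)).1 h0)

end Pool.Agent.PST.H21
end
end -- Pool.Agent.Helper21_PST.NDI

section -- Pool.Agent.Helper24_PST.EXA

/-!
# PST, row EXA (helper24): extension of additive functions
-/

set_option autoImplicit false

namespace Pool.Agent.PST.H24

/-- A subspace is a retract. -/
theorem retr0 (k A : Type) [Field k] [AddCommGroup A] [Module k A] (T : Submodule k A) :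
    ∃ p : A →+ A, (∀ x, p x ∈ T) ∧ ∀ x ∈ T, p x = x := by
  obtain ⟨p, hp⟩ := LinearMap.exists_leftInverse_of_injective T.subtype T.ker_subtype
  refine ⟨(T.subtype.comp p).toAddMonoidHom, fun x => ?_, fun x hx => ?_⟩
  · exact (p x).2
  · have h2 : p x = ⟨x, hx⟩ := LinearMap.congr_fun hp ⟨x, hx⟩
    change ((p x : T) : A) = x
    rw [h2]

/-- A subgroup of an elementary abelian group is a retract. -/
theorem retr (ℓ : ℕ) [Fact ℓ.Prime] (A : Type) [AddCommGroup A] (hA : ∀ x : A, ℓ • x = 0)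
    (T : AddSubgroup A) : ∃ p : A →+ A, (∀ x, p x ∈ T) ∧ ∀ x ∈ T, p x = x := by
  let _ : Module (ZMod ℓ) A := AddCommGroup.zmodModule hA
  exact retr0 (ZMod ℓ) A (AddSubgroup.toZModSubmodule ℓ T)

theorem exa : ExaStmt := by
  intro ℓ _ F V _ _ _ W T h hWT hv hadd hW0
  have hcl : ∀ s ∈ T, ∀ t ∈ T, (QuotientGroup.mk s : V ⧸ W) = QuotientGroup.mk t → h s = h t := by
    intro s hs t ht hst
    have h1 : s⁻¹ * t ∈ W := QuotientGroup.eq.1 hst
    have h2 : h (s * (s⁻¹ * t)) = h s + h (s⁻¹ * t) := hadd s hs _ (hWT h1)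
    rw [hW0 _ h1, add_zero, mul_inv_cancel_left] at h2
    exact h2.symm
  have hA : ∀ x : Additive (V ⧸ W), ℓ • x = 0 := by
    intro x
    obtain ⟨v, hv1⟩ := QuotientGroup.mk_surjective (s := W) (Additive.toMul x)
    have h1 : (Additive.toMul x) ^ ℓ = 1 := by
      rw [← hv1, ← QuotientGroup.mk_pow]
      exact (QuotientGroup.eq_one_iff _).2 (hv v)
    exact h1
  obtain ⟨p, hp1, hp2⟩ := retr ℓ (Additive (V ⧸ W)) hA
    ((T.map (QuotientGroup.mk' W)).toAddSubgroup)
  have hex : ∀ v : V, ∃ t ∈ T, Additive.ofMul (QuotientGroup.mk t : V ⧸ W) =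
      p (Additive.ofMul (QuotientGroup.mk v : V ⧸ W)) := by
    intro v
    obtain ⟨t, ht, ht2⟩ := hp1 (Additive.ofMul (QuotientGroup.mk v : V ⧸ W))
    exact ⟨t, ht, ht2⟩
  choose t ht ht2 using hex
  refine ⟨fun v => h (t v), fun u v => ?_, fun s hs => ?_⟩
  · rw [← hadd _ (ht u) _ (ht v)]
    refine hcl _ (ht _) _ (T.mul_mem (ht u) (ht v)) ?_
    have h1 : Additive.ofMul (QuotientGroup.mk (t (u * v)) : V ⧸ W) =
        Additive.ofMul (QuotientGroup.mk (t u) : V ⧸ W) +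
          Additive.ofMul (QuotientGroup.mk (t v) : V ⧸ W) := by
      rw [ht2, ht2, ht2, QuotientGroup.mk_mul, ofMul_mul, map_add]
    exact h1
  · refine hcl _ (ht _) _ hs ?_
    have h3 := ht2 s
    have h4 := hp2 (Additive.ofMul (QuotientGroup.mk s : V ⧸ W)) ⟨s, hs, rfl⟩
    exact h3.trans h4

end Pool.Agent.PST.H24
end -- Pool.Agent.Helper24_PST.EXA

section -- Pool.Agent.Helper27_PST.ADX

set_option autoImplicit false

namespace Pool.Agent.PST.H27

theorem adx : AdxStmt := by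
  classical
  intro ℓ _ F V E _ _ _ _ _ _ φ S q hV hE hS hq hqS
  haveI : Fintype E := Fintype.ofFinite E
  let P : V →* V := ∏ g : E, ((φ g : V ≃* V) : V →* V)
  have hP : ∀ v, P v = ∏ g : E, φ g v := fun v => by
    simp only [P, MonoidHom.finsetProd_apply]
    rfl
  have hPi : ∀ h v, P (φ h v) = P v := by
    intro h v
    rw [hP, hP]
    refine Fintype.prod_equiv (Equiv.mulRight h) _ _ fun g => ?_
    simp only [Equiv.coe_mulRight, map_mul, MulAut.mul_apply]
  have hPs : ∀ v, (∀ g, φ g v = v) → P v = v ^ Nat.card E := by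
    intro v hv
    rw [hP]
    simp [hv, Nat.card_eq_fintype_card]
  have hqE : q ^ Nat.card E ∉ S := by
    intro hc
    obtain ⟨k, hk⟩ := IsPGroup.iff_orderOf.1 hV q
    have hco : (Nat.card E).Coprime (orderOf q) := by
      rw [hk]
      exact ((Nat.Prime.coprime_iff_not_dvd (Fact.out : ℓ.Prime)).2 hE).symm.pow_right k
    obtain ⟨m, hm⟩ := exists_pow_eq_self_of_coprime hco
    exact hqS (hm ▸ S.pow_mem hc m)
  let H : Subgroup V := S.comap P
  have hqH : q ∉ H := fun hc => hqE (by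
    have : P q ∈ S := hc
    rwa [hPs q hq] at this)
  have hSH : S ≤ H := fun s hs => by
    change P s ∈ S
    rw [hPs s fun g => hS g s hs]
    exact S.pow_mem hs _
  have hfH : ∀ g v, φ g v * v⁻¹ ∈ H := fun g v => by
    change P (φ g v * v⁻¹) ∈ S
    rw [map_mul, hPi, map_inv, mul_inv_cancel]
    exact S.one_mem
  obtain ⟨N, hN⟩ := IsPGroup.iff_card.1 hV
  obtain ⟨n, hn⟩ := IsPGroup.iff_card.1 (hV.to_subgroup H)
  have hlt : n < N := by
    by_contra hcon
    push_neg at hcon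
    have h1 : Nat.card V ≤ Nat.card H := by
      rw [hN, hn]
      exact Nat.pow_le_pow_right (Fact.out : ℓ.Prime).pos hcon
    have h2 : H = ⊤ := Subgroup.eq_top_of_le_card H h1
    exact hqH (h2 ▸ Subgroup.mem_top q)
  obtain ⟨K, hK, hHK⟩ := Sylow.exists_subgroup_card_pow_prime_le (G := V) (p := ℓ) (n := n)
    (m := N - 1) (by rw [hN]; exact pow_dvd_pow ℓ (by omega)) H hn (by omega)
  have hcard : Nat.card (V ⧸ K) = ℓ := by
    have h1 := Subgroup.card_eq_card_quotient_mul_card_subgroup K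
    rw [hN, hK] at h1
    have h2 : ℓ ^ N = ℓ * ℓ ^ (N - 1) := by
      rw [← pow_succ']
      congr 1
      omega
    rw [h2] at h1
    exact (Nat.eq_of_mul_eq_mul_right (pow_pos (Fact.out : ℓ.Prime).pos _) h1).symm
  have hcardZ : Nat.card (Multiplicative (ZMod ℓ)) = ℓ := by
    rw [Nat.card_congr Multiplicative.toAdd, Nat.card_zmod]
  let f : V ⧸ K ≃* Multiplicative (ZMod ℓ) := mulEquivOfPrimeCardEq hcard hcardZ
  let e : V → F := fun v => ZMod.castHom (dvd_refl ℓ) F (Multiplicative.toAdd (f (QuotientGroup.mk' K v)))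
  have he : ∀ u v, e (u * v) = e u + e v := fun u v => by
    simp only [e, map_mul, toAdd_mul, map_add]
  have he0 : ∀ v ∈ K, e v = 0 := fun v hv => by
    have : QuotientGroup.mk' K v = 1 := (QuotientGroup.eq_one_iff v).2 hv
    simp only [e, this, map_one, toAdd_one, map_zero]
  refine ⟨e, ⟨he, fun g v => ?_⟩, fun s hs => he0 s (hHK (hSH hs)), ?_⟩
  · have h1 := he (φ g v * v⁻¹) v
    rw [he0 _ (hHK (hfH g v)), zero_add, inv_mul_cancel_right] at h1
    exact h1
  · have hKt : K ≠ ⊤ := by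
      intro hc
      have h1 : Nat.card K = Nat.card V := by rw [hc]; exact Subgroup.card_top
      rw [hN, hK] at h1
      have h2 := Nat.pow_right_injective (Fact.out : ℓ.Prime).two_le h1
      omega
    obtain ⟨v, -, hv⟩ := SetLike.exists_of_lt (lt_top_iff_ne_top.2 hKt)
    refine ⟨v, fun hc => hv ?_⟩
    have h1 : Multiplicative.toAdd (f (QuotientGroup.mk' K v)) = 0 :=
      ZMod.castHom_injective F (by rw [map_zero]; exact hc)
    have h2 : f (QuotientGroup.mk' K v) = 1 := h1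
    have h3 : QuotientGroup.mk' K v = 1 := by
      rw [← map_one f] at h2
      exact f.injective h2
    exact (QuotientGroup.eq_one_iff v).1 h3

end Pool.Agent.PST.H27
end -- Pool.Agent.Helper27_PST.ADX

section -- Pool.Agent.Helper81_PST.LSA

/-!
# Squad PST, row LSA (helper81): relative traces from the kernel of an additive invariant function
-/

set_option autoImplicit false

open scoped BigOperators

noncomputable section

namespace Pool.Agent.PST.H81

open Pool.Agent.PFC (tw IsTv)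
open Pool.Agent.PFD.D2b (FrR)
open Pool.Agent.PSS
open Pool.Agent.PSS.S0 (IsBQ)
open Pool.Agent.PST

/-- row LSA -/
theorem lsa (dex : DexStmt) (dzu : DzuStmt) (rfs : S0.RfsStmt) (thl : S2.ThlStmt) : LsaStmt := by
  classical
  intro ℓ _ F V E A K _ _ _ _ _ _ _ _ _ φ α lam x y u₀ e S T hV hE hCl hRF hu hAdc heS hev hT c hc
  obtain ⟨D, hD, hDv⟩ := dex F V E A K φ α lam x y e hCl.per hRF hAdc
  have hcs : ∀ s ∈ S, c * α s = α s * c := by
    intro s hs
    have h1 : α s * (c * α s⁻¹) = c := hc s hs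
    calc c * α s = α s * (c * α s⁻¹) * α s := by rw [h1]
      _ = α s * c * (α s⁻¹ * α s) := by simp only [mul_assoc]
      _ = α s * c := by rw [← map_mul, inv_mul_cancel, map_one, mul_one]
  have : Fintype S := Fintype.ofFinite S
  have hRF' := rfs F V A K α lam x y S T hRF hT
  let x' : K × T → A := fun p => x p.1 * α p.2
  let y' : K × T → A := fun p => α (p.2 : V)⁻¹ * y p.1
  let f : A →ₗ[F] A := (LinearMap.mulRight F c).comp D
  have hf : ∀ b, f b = D b * c := fun b => rfl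
  have hfl : S2.RLq 0 (α.comp S.subtype) f := by
    intro a s
    rw [S2.cg_zero, hf, hf]
    show D (a * α (s : V)) * c = D a * c * α (s : V)
    rw [hD, hDv, heS _ s.2, zero_smul, mul_zero, add_zero, mul_assoc, ← hcs _ s.2, ← mul_assoc]
  -- the relative trace
  have hf0 : rt x y (∑ t ∈ T, α t * c * α t⁻¹) = ∑ p, x' p * c * y' p := by
    unfold rt
    rw [Fintype.sum_prod_type]
    refine Finset.sum_congr rfl fun k _ => ?_
    rw [Finset.mul_sum, Finset.sum_mul, ← Finset.sum_coe_sort T]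
    refine Finset.sum_congr rfl fun t _ => ?_
    show x k * (α (t : V) * c * α (t : V)⁻¹) * y k = x k * α (t : V) * c * (α (t : V)⁻¹ * y k)
    simp only [mul_assoc]
  -- centrality of the relative traces of `V`
  have hcen : ∀ (u : V) (b : A), rt x y (α u) * b = b * rt x y (α u) := by
    intro u b
    have hg : S2.RLq 0 α (LinearMap.mulRight F (α u)) := by
      intro a v
      rw [S2.cg_zero]
      show a * α v * α u = a * α u * α v
      rw [mul_assoc, mul_assoc, ← map_mul, ← map_mul, mul_comm v u]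
    have h := (S2.cg_zero _ _).mp (thl F V A K 0 α lam x y (LinearMap.mulRight F (α u)) hRF hg b)
    have h1 : ∑ k, (LinearMap.mulRight F (α u)) (b * x k) * y k = b * rt x y (α u) := by
      unfold rt
      rw [Finset.mul_sum]
      refine Finset.sum_congr rfl fun k _ => ?_
      show b * x k * α u * y k = b * (x k * α u * y k)
      simp only [mul_assoc]
    have h2 : ∑ k, (LinearMap.mulRight F (α u)) (x k) * y k = rt x y (α u) := rfl
    rw [h1, h2] at h
    exact h.symm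
  have hcen1 : ∀ b : A, rt x y 1 * b = b * rt x y 1 := by
    have := hcen 1
    rwa [map_one] at this
  obtain ⟨u, hu0⟩ := hev
  set ζ : A := rt x y 1 with hζ
  set a : A := rt x y (α u) - ζ with ha
  have hac : ∀ b, a * b = b * a := by
    intro b
    rw [ha, sub_mul, mul_sub, hcen, hcen1]
  have hkey : D a * rt x y (∑ t ∈ T, α t * c * α t⁻¹) = 0 := by
    have h := (S2.cg_zero _ _).mp (thl F S A (K × T) 0 (α.comp S.subtype) lam x' y' f hRF' hfl a)
    have h1 : ∑ p, f (a * x' p) * y' p =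
        D a * (∑ p, x' p * c * y' p) + a * ∑ p, f (x' p) * y' p := by
      rw [Finset.mul_sum, Finset.mul_sum, ← Finset.sum_add_distrib]
      refine Finset.sum_congr rfl fun p _ => ?_
      rw [hf, hf, hD, add_mul, add_mul]
      simp only [mul_assoc]
    rw [h1, ← hac] at h
    rw [hf0]
    exact add_eq_right.mp h
  have hnil := dzu ℓ F V E A K φ α lam x y e D hV hE hCl hRF hAdc hD hDv u
  have hζu : IsUnit ζ := by
    have h1 : u₀ * ζ = 1 := hu
    have h2 : ζ * u₀ = 1 := by rw [hcen1]; exact h1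
    exact ⟨⟨ζ, u₀, h2, h1⟩, rfl⟩
  have hunit : IsUnit (e u • (ζ * ζ)) := by
    have h1 : e u • (ζ * ζ) = algebraMap F A (e u) * (ζ * ζ) := Algebra.smul_def _ _
    rw [h1]
    exact ((IsUnit.mk0 _ hu0).map (algebraMap F A)).mul (hζu.mul hζu)
  have hcomm : Commute (D a - e u • (ζ * ζ)) (e u • (ζ * ζ)) := by
    have h1 : ∀ b : A, Commute b (e u • (ζ * ζ)) := by
      intro b
      refine Commute.smul_right ?_ _
      exact (show Commute b ζ from (hcen1 b).symm).mul_right (hcen1 b).symm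
    exact h1 _
  have hDa : IsUnit (D a) := by
    have h1 := IsNilpotent.isUnit_add_left_of_commute hnil hunit hcomm
    rwa [add_sub_cancel] at h1
  obtain ⟨w, hw⟩ := hDa
  have h3 : (w : A) * rt x y (∑ t ∈ T, α t * c * α t⁻¹) = 0 := by rw [hw]; exact hkey
  calc rt x y (∑ t ∈ T, α t * c * α t⁻¹) =
        ((w⁻¹ : Aˣ) : A) * ((w : A) * rt x y (∑ t ∈ T, α t * c * α t⁻¹)) := by
          rw [← mul_assoc, Units.inv_mul, one_mul]
    _ = 0 := by rw [h3, mul_zero]

end Pool.Agent.PST.H81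
end
end -- Pool.Agent.Helper81_PST.LSA

section -- Pool.Agent.PSS.AllS

/-! Assembly of the rows of the table pss: StpStmt without hypotheses -/

namespace Pool.Agent.PSS.All

open Pool.Agent.PSS

theorem z_bkf : S0.BkfStmt :=
  Pool.Agent.PSS.S0.H63.bkf

theorem z_fpx : S0.FpxStmt :=
  Pool.Agent.PSS.H20.fpx

theorem z_fco : S0.FcoStmt :=
  Pool.Agent.PSS.S0.H92.fco

theorem z_fbk : S0.FbkStmt :=
  Pool.Agent.PSS.S0.H77.fbk z_fpx

theorem z_ftr : S0.FtrStmt :=
  Pool.Agent.PSS.H52.ftr z_fco z_fpx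

theorem z_bki : S0.BkiStmt :=
  Pool.Agent.PSS.S0.H6.bki

theorem z_res : S0.ResStmt :=
  Pool.Agent.PSS.H91.res

theorem z_rfd : S0.RfdStmt :=
  Pool.Agent.PSS.S0.H10.rfd

theorem z_ind : S0.IndStmt :=
  Pool.Agent.PSS.S0.H95.ind

theorem z_zrt : S0.ZrtStmt :=
  Pool.Agent.PSS.S0.H80.zrt

theorem z_trs : S0.TrsStmt :=
  Pool.Agent.PSS.S0.H5.trs

theorem z_rfs : S0.RfsStmt :=
  Pool.Agent.PSS.S0.H52.rfs

theorem z_rfo : S0.RfoStmt :=
  Pool.Agent.PSS.S0.H41.rfo

theorem z_bqx : S0.BqxStmt :=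
  Pool.Agent.PSS.S0.H70.bqx

theorem z_lmb : S0.LmbStmt :=
  Pool.Agent.PSS.H21.LMB.lmb

theorem z_sfq : S0.SfqStmt :=
  Pool.Agent.PSS.S0.H70.sfq

theorem z_mck : S0.MckStmt :=
  Pool.Agent.PSS.H64.mck z_rfd z_ind z_rfo z_sfq z_fpx

theorem z_bpu : S0.BpuStmt :=
  Pool.Agent.PSS.H65.bpu z_sfq z_lmb z_rfd z_rfo

theorem z_bbk : S0.BbkStmt :=
  Pool.Agent.PSS.S0.H62.bbk z_fco z_fbk z_sfq z_lmb z_rfd

theorem z_bcl : S0.BclStmt :=
  Pool.Agent.PSS.S0.H84.bcl z_mck z_bpu z_bbk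

theorem a_csr : CsrStmt :=
  Pool.Agent.PSS.H20.csr

theorem a_rtc : RtcStmt :=
  Pool.Agent.PSS.H86.rtc a_csr

theorem a_csu : CsuStmt :=
  Pool.Agent.PSS.H95.csu a_csr a_rtc

theorem a_rfe : RfeStmt :=
  Pool.Agent.PSS.H84.rfe

theorem a_unj : UnjStmt :=
  Pool.Agent.PSS.H39.unj

theorem a_rfm : RfmStmt :=
  Pool.Agent.PSS.H52.rfm a_rfe a_unj

theorem a_mol : MolStmt :=
  Pool.Agent.PSS.H64.mol

theorem a_bvl : BvlStmt :=
  Pool.Agent.PSS.H81.bvl

theorem a_stv : StvStmt :=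
  Pool.Agent.PSS.H69.stv

theorem a_alv : AlvStmt :=
  Pool.Agent.PSS.H46.alv a_stv

theorem a_rgv : RgvStmt :=
  Pool.Agent.PSS.H22.rgv

theorem a_flv : FlvStmt :=
  Pool.Agent.PSS.H81.flv

theorem a_uzl : UzlStmt :=
  Pool.Agent.PSS.H19.uzl a_csu a_unj

theorem a_tau : TauStmt :=
  Pool.Agent.PSS.H77T.tau

theorem a_fxl : FxlStmt :=
  Pool.Agent.PSS.H63.fxl

theorem a_hcb : HcbStmt :=
  Pool.Agent.PSS.H49.hcb a_tau a_fxl

theorem a_hcc : HccStmt :=
  Pool.Agent.PSS.H20.hcc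

theorem a_lfg : LfgStmt :=
  Pool.Agent.PSS.H49.lfg a_fxl

theorem a_h2v : H2vStmt :=
  Pool.Agent.PSS.H33.h2v a_csu a_hcb a_hcc a_lfg

theorem a_h1v : H1vStmt :=
  Pool.Agent.PSS.H84.h1v a_csu a_fxl

theorem a_kex : KexStmt :=
  Pool.Agent.PSS.H41.kex

theorem a_trx : TrxStmt :=
  Pool.Agent.PSS.H20.trx

theorem a_tra : TraStmt :=
  Pool.Agent.PSS.H92.tra

theorem a_trc : TrcStmt :=
  Pool.Agent.PSS.H84.trc

theorem a_dlc : DlcStmt :=
  Pool.Agent.PSS.H21.dlc a_tra

theorem a_stn : StnStmt :=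
  Pool.Agent.PSS.H47.stn a_trx a_tra a_trc a_h2v

theorem a_blt : BltStmt :=
  Pool.Agent.PSS.H82.blt a_bvl

theorem a_stt : SttStmt :=
  Pool.Agent.PSS.H47.stt a_trx a_tra a_trc a_h2v a_blt

theorem a_lim : LimStmt :=
  Pool.Agent.PSS.H75.lim

theorem a_tgn : TgnStmt :=
  Pool.Agent.PSS.H75.tgn a_trx a_tra a_trc a_stn a_lim

theorem a_tlf : TlfStmt :=
  Pool.Agent.PSS.H7.tlf a_trx a_trc a_stt a_lim

theorem a_dmr : DmrStmt :=
  Pool.Agent.PSS.H29.dmr a_tra

theorem a_dmf : DmfStmt :=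
  Pool.Agent.PSS.H29.dmf

theorem a_rmp : RmpStmt :=
  Pool.Agent.PSS.H75.rmp

theorem a_spf : SpfStmt :=
  Pool.Agent.PSS.H75.spf

theorem a_fun : FunStmt :=
  Pool.Agent.PSS.H63.funs

theorem a_cfr : CfrStmt :=
  Pool.Agent.PSS.H95.cfr a_fun

theorem a_fre : FreStmt :=
  Pool.Agent.PSS.H29.fre

theorem a_cen : CenStmt :=
  Pool.Agent.PSS.H91.cen

theorem a_fmx : FmxStmt :=
  Pool.Agent.PSS.H92.fmx a_fun a_rfe

theorem a_rwv : RwvStmt :=
  Pool.Agent.PSS.H2.rwv

theorem a_fsr : FsrStmt :=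
  Pool.Agent.PSS.H32.fsr a_rfm a_spf a_fre

theorem a_crr : CrrStmt :=
  Pool.Agent.PSS.H32.crr a_fun a_rfe a_rtc a_rwv

theorem a_lkx : LkxStmt :=
  Pool.Agent.PSS.H85.lkx a_rmp a_fun a_rfe

theorem a_for : ForStmt :=
  Pool.Agent.PSS.H49.for_ a_tra a_lkx a_crr a_rfe

theorem a_red : RedStmt :=
  Pool.Agent.PSS.H92.red a_fun a_rmp

theorem a_gen : GenStmt :=
  Pool.Agent.PSS.H84.gen a_kex a_tgn a_dmr a_dmf a_h1v a_rwv a_fmx a_fsr a_red a_for

theorem a_psc : PscStmt :=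
  Pool.Agent.PSS.H63.psc

theorem a_dfm : DfmStmt :=
  Pool.Agent.PSS.H67.dfm a_unj

theorem a_per : PerStmt :=
  Pool.Agent.PSS.H81.per a_cfr

theorem a_vzc : VzcStmt :=
  Pool.Agent.PSS.H82.vzc

theorem b_tpr : S2.TprStmt :=
  Pool.Agent.PSS.S2.H21.tpr

theorem b_thl : S2.ThlStmt :=
  Pool.Agent.PSS.S2.H91.thl

theorem b_dgz : S2.DgzStmt :=
  Pool.Agent.PSS.S2.H10.dgz b_thl

theorem b_dtr : S2.DtrStmt :=
  Pool.Agent.PSS.S2.H25.dtr

theorem b_trc : S2.TrcStmt :=
  Pool.Agent.PSS.H68.trc b_dtr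

theorem b_tor : S2.TorStmt :=
  Pool.Agent.PSS.S2.H95.tor

theorem b_htr : S2.HtrStmt :=
  Pool.Agent.PSS.H80.htr b_tor

theorem b_eor : S2.EorStmt :=
  Pool.Agent.PSS.S2.H76.eor

theorem b_wtr : S2.WtrStmt :=
  Pool.Agent.PSS.S2.H52.wtr

theorem b_fps : S2.FpsStmt :=
  Pool.Agent.PSS.S2.H56.fps

theorem b_str : S2.StrStmt :=
  Pool.Agent.PSS.S2.H56.str b_htr b_wtr b_fps

theorem b_nlm : S2.NlmStmt :=
  Pool.Agent.PSS.S2.H22.nlm

theorem b_svi : S2.SviStmt :=
  Pool.Agent.PSS.S2.H41.svi b_tpr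

theorem b_svh : S2.SvhStmt :=
  Pool.Agent.PSS.H29.svh b_tor

theorem b_cnh : S2.CnhStmt :=
  Pool.Agent.PSS.S2.H71.cnh

theorem b_svk : S2.SvkStmt :=
  Pool.Agent.PSS.S2.H41.svk b_wtr

theorem b_svg : S2.SvgStmt :=
  Pool.Agent.PSS.S2.H79.svg b_htr b_eor b_svh b_cnh b_svi b_svk b_wtr b_fps

theorem b_idt : S2.IdtStmt :=
  Pool.Agent.PSS.H64.idt

theorem b_spi : S2.SpiStmt :=
  Pool.Agent.PSS.H68.spi

theorem b_fit : S2.FitStmt :=
  Pool.Agent.PSS.S2.H85F.fit

theorem b_nlt : S2.NltStmt :=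
  Pool.Agent.PSS.S2.H32.nlt b_str b_nlm a_rtc

theorem b_rtw : S2.RtwStmt :=
  Pool.Agent.PSS.S2.H32.rtw b_str

theorem b_tvc : S2.TvcStmt :=
  Pool.Agent.PSS.S2.H39.tvc b_dgz b_trc b_rtw b_svg b_idt b_nlt b_spi

theorem b_nda : S2.NdaStmt :=
  Pool.Agent.PSS.S2.H62.nda

theorem b_ndb : S2.NdbStmt :=
  Pool.Agent.PSS.S2.H27.ndb

theorem b_rad : S2.RadStmt :=
  Pool.Agent.PSS.S2.H83.rad b_nda b_ndb b_fit

theorem b_unt : S2.UntStmt :=
  Pool.Agent.PSS.S2.H19.unt b_rtw b_tvc b_rad b_dgz a_rtc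

theorem b_chi : S2.ChiStmt :=
  Pool.Agent.PSS.S2.H92.chi

theorem b_hew : S2.HewStmt :=
  Pool.Agent.PSS.S2.H83.hew b_tor

theorem b_gwz : S2.GwzStmt :=
  Pool.Agent.PSS.S2.H85.gwz

theorem b_wwl : S2.WwlStmt :=
  Pool.Agent.PSS.S2.H40.wwl

theorem b_vdr : S2.VdrStmt :=
  Pool.Agent.PSS.H6.vdr b_chi b_hew b_cnh b_dgz b_trc b_gwz b_wwl

theorem b_rdg : S2.RdgStmt :=
  Pool.Agent.PSS.S2.H75.rdg

theorem b_drt : S2.DrtStmt :=
  Pool.Agent.PSS.S2.H75.drt b_vdr b_rdg b_cnh b_unt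

theorem c_van : S3.VanStmt :=
  Pool.Agent.PSS.H28.van

theorem c_bls : S3.BlsStmt :=
  Pool.Agent.PSS.S3.H92.bls c_van z_ftr z_rfs z_trs

theorem c_div : S3.DivStmt :=
  Pool.Agent.PSS.S3.H5.div z_rfs z_ind

theorem c_rdx : S3.RdxStmt :=
  Pool.Agent.PSS.S3.H63.rdx

theorem c_qbk : S3.QbkStmt :=
  Pool.Agent.PSS.S3.H41.qbk

theorem c_tfx : S3.TfxStmt :=
  Pool.Agent.PSS.S3.H27.tfx z_fco z_fbk

theorem c_unx : S3.UnxStmt :=
  Pool.Agent.PSS.S3.H63.unx

theorem c_idn : S3.IdnStmt :=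
  Pool.Agent.PSS.S3.H13.idn z_bki z_fco z_fbk

theorem c_unw : S3.UnwStmt :=
  Pool.Agent.PSS.H10.unw c_div c_rdx c_qbk c_tfx c_unx c_idn z_mck z_bqx z_bpu z_zrt z_bki z_bkf z_res

theorem c_prq : S3.PrqStmt :=
  Pool.Agent.PSS.S3.H41.prq c_qbk c_tfx z_bcl z_bpu z_mck z_res z_fco z_fpx z_zrt

theorem c_gfb : S3.GfbStmt :=
  Pool.Agent.PSS.H64.gfb

theorem c_gfq : S3.GfqStmt :=
  Pool.Agent.PSS.H91.Gfq.gfq c_gfb z_fpx z_lmb

theorem c_blk : S3.BlkStmt :=
  Pool.Agent.PSS.H28.blk c_bls c_unw c_prq c_gfb c_gfq z_bqx z_fco z_fbk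

theorem c_gfc : S3.GfcStmt :=
  Pool.Agent.PSS.H22.gfc c_blk c_gfb

theorem c_gfp : S3.GfpStmt :=
  Pool.Agent.PSS.S3.H30.gfp c_bls c_gfb c_gfq z_bqx z_bpu z_mck z_zrt z_fco z_fbk

theorem d_orb : OrbStmt :=
  Pool.Agent.PSS.H85.orb

theorem d_frb : FrbStmt :=
  Pool.Agent.PSS.H52.frb d_orb

theorem d_rfu : RfuStmt :=
  Pool.Agent.PSS.H56.rfu

theorem d_dfr : DfrStmt :=
  Pool.Agent.PSS.H40.dfr

theorem d_drf : DrfStmt :=
  Pool.Agent.PSS.H21.DRF.drf

theorem d_qor : QorStmt :=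
  Pool.Agent.PSS.H29.qor d_orb

theorem d_nfr : NfrStmt :=
  Pool.Agent.PSS.H45.nfr d_frb

theorem d_nfp : NfpStmt :=
  Pool.Agent.PSS.H79.nfp d_nfr

theorem d_nfd : NfdStmt :=
  Pool.Agent.PSS.H20.nfd d_frb

theorem d_nrf : NrfStmt :=
  Pool.Agent.PSS.H77N.nrf d_dfr d_drf d_rfu d_qor d_nfd

theorem d_ndf : NdfStmt :=
  Pool.Agent.PSS.H41.ndf d_nfr

theorem d_nrs : NrsStmt :=
  Pool.Agent.PSS.H52.nrs

theorem d_ftz : FtzStmt :=
  Pool.Agent.PSS.H56.ftz

theorem d_bla : BlaStmt :=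
  Pool.Agent.PSS.H60.bla z_fco z_fbk z_ftr z_bki z_bqx

theorem d_blb : BlbStmt :=
  Pool.Agent.PSS.H4.blb z_fpx z_zrt z_bqx z_bki z_bpu z_mck

theorem d_blw : BlwStmt :=
  Pool.Agent.PSS.H60.blw d_bla d_blb d_ftz

theorem a_lft : LftStmt :=
  Pool.Agent.PSS.H51.lft a_mol a_bvl a_csu a_alv a_rgv a_flv a_rfm a_uzl

theorem a_lda : LdaStmt :=
  Pool.Agent.PSS.H80.lda a_lft a_kex a_tlf a_dmr a_h1v

theorem a_cef : CefStmt :=
  Pool.Agent.PSS.H41.cef a_lda a_uzl a_cen a_rmp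

theorem a_frf : FrfStmt :=
  Pool.Agent.PSS.H41.frf a_lda a_rwv a_fmx a_fsr a_red

theorem a_dzd : DzdStmt :=
  Pool.Agent.PSS.H41.dzd a_dfm a_cef a_psc

theorem a_frd : FrdStmt :=
  Pool.Agent.PSS.H40.frd a_dfm a_cef a_frf

theorem b_dtp : S2.DtpStmt :=
  Pool.Agent.PSS.S2.H75.dtp a_lft b_drt a_gen a_per a_spf a_fre a_rtc c_unx

theorem d_dzf : DzfStmt :=
  Pool.Agent.PSS.H60.dzf a_dzd a_vzc

theorem d_tpf : TpfStmt :=
  Pool.Agent.PSS.H60.tpf d_nrs d_ndf d_nfp d_nrf d_dzf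

theorem stp : StpStmt :=
  Pool.Agent.PSS.stp a_vzc b_dtp c_gfc a_dzd d_tpf

end Pool.Agent.PSS.All
end -- Pool.Agent.PSS.AllS

section -- Pool.Agent.Helper40_PST.DZC

/-! Row DZC of squad PST: the values of a derivation at central elements (helper40). -/

open scoped BigOperators

noncomputable section

namespace Pool.Agent.PST.H40

open Pool.Agent.PSS
open Pool.Agent.PST

theorem dzc (thl : S2.ThlStmt) (zrt : S0.ZrtStmt) : DzcStmt := by
  intro F V A K ι _ _ _ _ _ _ _ α lam x y δ D e a hRF hδ hD hDv ha hδv z hz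
  set ζ : A := rt x y 1 with hζ
  have hζe : ζ = ∑ k, x k * 1 * y k := rfl
  have hζ1 : ζ = ∑ k, x k * y k := by
    rw [hζe]
    exact Finset.sum_congr rfl fun k _ => by rw [mul_one]
  have hζc : ∀ c, c * ζ = ζ * c := by
    intro c
    rw [hζe]
    refine zrt F V A K α lam x y hRF 1 ?_ c
    intro u _
    change α u * (1 * α u⁻¹) = 1
    rw [one_mul, ← map_mul, mul_inv_cancel, map_one]
  have hac : ∀ i v, α v * a i = a i * α v := fun i v => mem_cw.1 (ha i) v (Subgroup.mem_top v)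
  -- the map `N`
  let N : A →ₗ[F] A := LinearMap.mulLeft F ζ ∘ₗ δ - ∑ i, LinearMap.mulRight F (a i) ∘ₗ D i
  have hN : ∀ b, N b = ζ * δ b - ∑ i, D i b * a i := by
    intro b
    change (LinearMap.mulLeft F ζ ∘ₗ δ - ∑ i, LinearMap.mulRight F (a i) ∘ₗ D i) b = _
    rw [LinearMap.sub_apply, LinearMap.sum_apply]
    rfl
  have hNr : S2.RLq 0 α N := by
    intro b v
    rw [S2.cg_zero, hN, hN, hδ, hδv, sub_mul, mul_add, Finset.sum_mul]
    have h1 : ∀ i, D i (b * α v) * a i =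
        D i b * a i * α v + ζ * (b * (e i v • (a i * α v))) := by
      intro i
      rw [hD, hDv, add_mul, mul_assoc (D i b), hac, ← mul_assoc]
      congr 1
      rw [mul_smul_comm, smul_mul_assoc, mul_smul_comm, mul_smul_comm]
      congr 1
      rw [← hac, ← mul_assoc b, hζc, mul_assoc, mul_assoc]
    rw [Finset.sum_congr rfl fun i _ => h1 i, Finset.sum_add_distrib, ← Finset.mul_sum,
      ← Finset.mul_sum, mul_assoc ζ (δ b)]
    abel
  have h1 := (S2.cg_zero _ _).1 (thl F V A K 0 α lam x y N hRF hNr z)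
  have h2 : ∀ k, N (z * x k) * y k =
      z * (N (x k) * y k) + (ζ * δ z * (x k * y k) - ∑ i, D i z * (x k * a i * y k)) := by
    intro k
    have h3 : N (z * x k) = z * N (x k) + (ζ * δ z * x k - ∑ i, D i z * (x k * a i)) := by
      rw [hN, hN, hδ, mul_add, mul_sub, Finset.mul_sum]
      have h4 : ∀ i, D i (z * x k) * a i = D i z * (x k * a i) + z * (D i (x k) * a i) := by
        intro i
        rw [hD, add_mul, mul_assoc, mul_assoc]
      rw [Finset.sum_congr rfl fun i _ => h4 i, Finset.sum_add_distrib, ← mul_assoc ζ (δ z),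
        ← mul_assoc ζ z, ← hz ζ, mul_assoc z ζ]
      abel
    rw [h3, add_mul, sub_mul, Finset.sum_mul, mul_assoc z, mul_assoc (ζ * δ z)]
    congr 2
    exact Finset.sum_congr rfl fun i _ => by rw [mul_assoc (D i z)]
  rw [Finset.sum_congr rfl fun k _ => h2 k, Finset.sum_add_distrib, ← Finset.mul_sum,
    Finset.sum_sub_distrib, ← Finset.mul_sum, ← hζ1, hz, add_eq_left, sub_eq_zero] at h1
  rw [mul_assoc, ← hζc (δ z), ← mul_assoc, h1, Finset.sum_comm]
  refine Finset.sum_congr rfl fun i _ => ?_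
  rw [← Finset.mul_sum]
  rfl

end Pool.Agent.PST.H40
end
end -- Pool.Agent.Helper40_PST.DZC

section -- Pool.Agent.Helper46_PST.YCB

/-!
# Squad PST, row YCB (helper46)
-/

open scoped BigOperators

noncomputable section

namespace Pool.Agent.PST.H46

open Pool.Agent.PFC (tw IsTv)
open Pool.Agent.PFD.D2 (Cdv FibG)
open Pool.Agent.PFD.D2b (FrR)
open Pool.Agent.PSS
open Pool.Agent.PSS.S0 (IsBQ)

/-- fixed by a subgroup and commuting -/
theorem mem_fx_iff {R V A : Type} [CommRing R] [CommGroup V] [Ring A] [Algebra R A]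
    {α : V →* A} {S : Subgroup V} {a : A} :
    a ∈ FxR (cw R α) S ↔ ∀ s ∈ S, a * α s = α s * a := by
  constructor
  · intro h s hs
    have h1 : α s * (a * α s⁻¹) = a := h s hs
    calc a * α s = α s * (a * α s⁻¹) * α s := by rw [h1]
      _ = α s * a * (α s⁻¹ * α s) := by simp only [mul_assoc]
      _ = α s * a := by rw [← map_mul, inv_mul_cancel, map_one, mul_one]
  · intro h s hs
    show α s * (a * α s⁻¹) = a
    rw [← mul_assoc, ← h s hs, mul_assoc, ← map_mul, mul_inv_cancel, map_one, mul_one]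

theorem mem_fx_zpowers {R V A : Type} [CommRing R] [CommGroup V] [Finite V] [Ring A] [Algebra R A]
    {α : V →* A} {r : V} {a : A} (h : a * α r = α r * a) :
    a ∈ FxR (cw R α) (Subgroup.zpowers r) := by
  rw [mem_fx_iff]
  intro s hs
  rw [← (isOfFinOrder_of_finite r).mem_powers_iff_mem_zpowers] at hs
  obtain ⟨n, rfl⟩ := hs
  show a * α (r ^ n) = α (r ^ n) * a
  rw [map_pow]
  exact Commute.pow_right (show Commute a (α r) from h) n

/-- row YCB (uses YCE, LFX) -/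
theorem ycb (yce : YceStmt) (lfx : LfxStmt) : YcbStmt := by
  intro ℓ hℓ R K F V A A₀ B κ Ω Br _ _ _ _ _ _ _ _ _ _ _ _ _ _ _ _ _ _ W α lam x y b c C cv f α₀
    lam₀ x₀ y₀ b₀ c₀ g r e αB β hp hF hL hg g1 hint hr hrl hBQ he
  obtain ⟨h1, h2⟩ := yce ℓ R K V A B κ Ω W α lam x y b c C g r e hp hg g1 hint hr hrl he
  have hL1 := lfx R F V A A₀ κ Ω cv f α₀ lam₀ x₀ y₀ b₀ c₀ α lam x y b c hF hL
    (Subgroup.zpowers r)
  have heR : e ∈ FxR (cw R α) (Subgroup.zpowers r) := mem_fx_zpowers h1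
  have hqe := (hL1.2.2 e heR).1
  have hqs : ∀ (r : R) (a : A), f.q (r • a) = cv.κ r • f.q a := by
    intro r a
    rw [Algebra.smul_def, map_mul, f.sc, ← Algebra.smul_def]
  have hqc : ∀ (s : V) (a : A), f.q (cw R α s a) = cw F α₀ s (f.q a) := by
    intro s a
    show f.q (α s * (a * α s⁻¹)) = α₀ s * (f.q a * α₀ s⁻¹)
    rw [map_mul, map_mul, hL.qa, hL.qa]
  have hq : ∀ T : Subgroup V, ∀ a ∈ FxR (cw R α) T, f.q a ∈ FxR (cw F α₀) T := by
    intro T a ha s hs
    rw [← hqc, ha s hs]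
  have hqb : ∀ T : Subgroup V, ∀ a ∈ BKR (cw R α) T, f.q a ∈ BKR (cw F α₀) T := by
    intro T a ha
    refine Submodule.span_induction (p := fun a _ => f.q a ∈ BKR (cw F α₀) T) ?_ ?_ ?_ ?_ ha
    · rintro n ⟨P', S, m, hP, hS, hm, rfl⟩
      rw [map_sum]
      refine Submodule.subset_span ⟨P', S, f.q m, hP, hS, hq _ _ hm, ?_⟩
      exact Finset.sum_congr rfl fun s _ => hqc s m
    · rw [map_zero]
      exact Submodule.zero_mem _
    · intro s t _ _ hs ht
      rw [map_add]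
      exact Submodule.add_mem _ hs ht
    · intro t s _ hs
      rw [hqs]
      exact Submodule.smul_mem _ _ hs
  refine ⟨hqe, ?_⟩
  intro s
  obtain ⟨a₀, ha₀, rfl⟩ := hBQ.surj s
  obtain ⟨a, ha, rfl⟩ := hL1.1 a₀ ha₀
  have har : a * α r = α r * a := mem_fx_iff.1 ha r (Subgroup.mem_zpowers r)
  have h3 := hqb _ _ (h2 a har)
  rw [map_sub, map_mul, map_mul] at h3
  have hmul : ∀ s ∈ FxR (cw F α₀) (Subgroup.zpowers r), ∀ t ∈ FxR (cw F α₀) (Subgroup.zpowers r),
      s * t ∈ FxR (cw F α₀) (Subgroup.zpowers r) := by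
    intro s hs t ht
    rw [mem_fx_iff] at hs ht ⊢
    intro u hu
    rw [mul_assoc, ht u hu, ← mul_assoc, hs u hu, mul_assoc]
  have hm1 := hmul _ ha₀ _ hqe
  have hm2 := hmul _ hqe _ ha₀
  have h4 := (hBQ.ker _ (Submodule.sub_mem _ hm1 hm2)).2 h3
  rw [sub_eq_add_neg, ← neg_one_smul F (f.q e * f.q a),
    hBQ.add _ hm1 _ (Submodule.smul_mem _ _ hm2), hBQ.smul _ _ hm2, neg_one_smul,
    ← sub_eq_add_neg, sub_eq_zero, hBQ.mul _ ha₀ _ hqe, hBQ.mul _ hqe _ ha₀] at h4
  exact h4.symm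

end Pool.Agent.PST.H46
end
end -- Pool.Agent.Helper46_PST.YCB

section -- Pool.Agent.Helper49_PST.ALT

open scoped BigOperators

noncomputable section

namespace Pool.Agent.PST.H49

section

variable {F V E M : Type} [Field F] [CommGroup V] [Fintype V] [Group E] [AddCommGroup M]
  [Module F M] {φ : E →* MulAut V} {W Q : Subgroup V} {r : ℕ} {la : Fin r → V → F}
  {χ : Fin r → E → F} {xx : Fin r → V → F} {t : Fin r → F}

theorem spnM (h : Eg F φ W Q la χ xx t) (g : V → M) (hg : ∀ u v, g (u * v) = g u + g v)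
    (hW : ∀ w ∈ W, g w = 0) (v : V) : g v = ∑ l, la l v • ∑ u, xx l u • g u := by
  rw [← sub_eq_zero, ← Module.forall_dual_apply_eq_zero_iff F]
  intro ψ
  have h1 := h.spn (fun v => ψ (g v)) (fun u v => by rw [hg, map_add])
    (fun w hw => by rw [hW w hw, map_zero]) v
  rw [map_sub, sub_eq_zero, h1, map_sum]
  refine Finset.sum_congr rfl fun l _ => ?_
  rw [map_smul, map_sum, smul_eq_mul, mul_comm]
  congr 1
  exact Finset.sum_congr rfl fun u _ => by rw [map_smul, smul_eq_mul]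

theorem sum_xl (h : Eg F φ W Q la χ xx t) (k : Fin r) (c : Fin r → M) :
    ∑ u, xx k u • ∑ l, la l u • c l = c k := by
  simp only [Finset.smul_sum, smul_smul]
  rw [Finset.sum_comm]
  simp only [← Finset.sum_smul]
  simp only [h.xl, ite_smul, one_smul, zero_smul]
  rw [Finset.sum_ite_eq]
  simp

end

theorem alt : AltStmt := by
  intro F V E M _ _ _ _ _ _ φ W Q r la χ xx t f h hf1 hf2 hf3 hf4 hf5
  classical
  obtain ⟨I, hI⟩ : ∃ I : Fin r → V → M, ∀ n u, I n u = ∑ v, xx n v • f u v :=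
    ⟨fun n u => ∑ v, xx n v • f u v, fun _ _ => rfl⟩
  obtain ⟨Mm, hMm⟩ : ∃ Mm : Fin r → Fin r → M, ∀ l n, Mm l n = ∑ u, xx l u • I n u :=
    ⟨fun l n => ∑ u, xx l u • I n u, fun _ _ => rfl⟩
  have hanti : ∀ u v, f u v + f v u = 0 := by
    intro u v
    have h1 := hf4 (u * v)
    rw [hf1, hf2, hf2, hf4, hf4, zero_add, add_zero] at h1
    exact h1
  have e1 : ∀ u v, f u v = ∑ n, la n v • I n u := by
    intro u v
    rw [spnM h (fun v => f u v) (hf2 u) (fun w hw => (hf3 w hw u).2) v]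
    exact Finset.sum_congr rfl fun n _ => by rw [hI]
  have hIadd : ∀ n u u', I n (u * u') = I n u + I n u' := by
    intro n u u'
    rw [hI, hI, hI, ← Finset.sum_add_distrib]
    exact Finset.sum_congr rfl fun v _ => by rw [hf1, smul_add]
  have e2 : ∀ n u, I n u = ∑ l, la l u • Mm l n := by
    intro n u
    rw [spnM h (fun u => I n u) (hIadd n) (fun w hw => by
      rw [hI]
      exact Finset.sum_eq_zero fun v _ => by rw [(hf3 w hw v).1, smul_zero]) u]
    exact Finset.sum_congr rfl fun l _ => by rw [hMm]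
  have e3 : ∀ u u', ∑ v, pg la xx t u v • f u' v = ∑ l, (t l * la l u) • I l u' := by
    intro u u'
    simp only [pg, Finset.sum_smul]
    rw [Finset.sum_comm]
    refine Finset.sum_congr rfl fun l _ => ?_
    rw [hI, Finset.smul_sum]
    exact Finset.sum_congr rfl fun v _ => by rw [smul_smul]
  have e4 : ∀ u u', ∑ l, (t l * la l u) • I l u' + ∑ l, (t l * la l u') • I l u = 0 := by
    intro u u'
    have h1 := hf5 (u * u')
    rw [e3] at h1
    have h2 : ∑ l, (t l * la l (u * u')) • I l (u * u') =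
        (∑ l, (t l * la l u) • I l u + ∑ l, (t l * la l u') • I l u') +
          (∑ l, (t l * la l u) • I l u' + ∑ l, (t l * la l u') • I l u) := by
      rw [← Finset.sum_add_distrib, ← Finset.sum_add_distrib, ← Finset.sum_add_distrib]
      refine Finset.sum_congr rfl fun l _ => ?_
      rw [hIadd, h.add, mul_add, add_smul, smul_add, smul_add]
      abel
    rw [h2, ← e3 u u, ← e3 u' u', hf5, hf5, zero_add, zero_add] at h1
    exact h1
  have e5 : ∀ k u', t k • I k u' + ∑ l, (t l * la l u') • Mm k l = 0 := by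
    intro k u'
    have h1 : ∑ u, xx k u • (∑ l, (t l * la l u) • I l u' + ∑ l, (t l * la l u') • I l u) = 0 :=
      Finset.sum_eq_zero fun u _ => by rw [e4, smul_zero]
    simp only [smul_add, Finset.sum_add_distrib] at h1
    have h2 : ∑ u, xx k u • ∑ l, (t l * la l u) • I l u' = t k • I k u' := by
      have h3 := sum_xl h k (fun l => t l • I l u')
      rw [← h3]
      refine Finset.sum_congr rfl fun u _ => ?_
      congr 1
      exact Finset.sum_congr rfl fun l _ => by rw [smul_smul, mul_comm]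
    have h4 : ∑ u, xx k u • ∑ l, (t l * la l u') • I l u = ∑ l, (t l * la l u') • Mm k l := by
      simp only [Finset.smul_sum]
      rw [Finset.sum_comm]
      refine Finset.sum_congr rfl fun l _ => ?_
      rw [hMm, Finset.smul_sum]
      exact Finset.sum_congr rfl fun u _ => by rw [smul_comm]
    rw [h2, h4] at h1
    exact h1
  have e6 : ∀ n k, t k • Mm n k + t n • Mm k n = 0 := by
    intro n k
    have h1 : ∑ u, xx n u • (t k • I k u + ∑ l, (t l * la l u) • Mm k l) = 0 :=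
      Finset.sum_eq_zero fun u _ => by rw [e5, smul_zero]
    simp only [smul_add, Finset.sum_add_distrib] at h1
    have h2 : ∑ u, xx n u • t k • I k u = t k • Mm n k := by
      rw [hMm, Finset.smul_sum]
      exact Finset.sum_congr rfl fun u _ => by rw [smul_comm]
    have h3 : ∑ u, xx n u • ∑ l, (t l * la l u) • Mm k l = t n • Mm k n := by
      have h4 := sum_xl h n (fun l => t l • Mm k l)
      rw [← h4]
      refine Finset.sum_congr rfl fun u _ => ?_
      congr 1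
      exact Finset.sum_congr rfl fun l _ => by rw [smul_smul, mul_comm]
    rw [h2, h3] at h1
    exact h1
  have hM : ∀ l n, Mm l n = ∑ p : V × V, (xx l p.1 * xx n p.2) • f p.1 p.2 := by
    intro l n
    rw [Fintype.sum_prod_type, hMm]
    refine Finset.sum_congr rfl fun u _ => ?_
    rw [hI, Finset.smul_sum]
    exact Finset.sum_congr rfl fun v _ => by rw [smul_smul]
  have e7 : ∀ l n, Mm l n + Mm n l = 0 := by
    intro l n
    have h1 : Mm n l = ∑ p : V × V, (xx l p.1 * xx n p.2) • f p.2 p.1 := by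
      rw [hM]
      refine (Equiv.sum_comp (Equiv.prodComm V V) _).symm.trans ?_
      refine Finset.sum_congr rfl fun p _ => ?_
      simp only [Equiv.prodComm_apply, Prod.fst_swap, Prod.snd_swap]
      rw [mul_comm]
    rw [h1, hM, ← Finset.sum_add_distrib]
    exact Finset.sum_eq_zero fun p _ => by rw [← smul_add, hanti, smul_zero]
  have e8 : ∀ l, Mm l l = 0 := by
    intro l
    rw [hM]
    refine Finset.sum_involution (fun p _ => p.swap) ?_ ?_ ?_ ?_
    · intro p _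
      simp only [Prod.fst_swap, Prod.snd_swap]
      rw [mul_comm (xx l p.2), ← smul_add, hanti, smul_zero]
    · intro p _ hp hs
      refine hp ?_
      have : p.2 = p.1 := congrArg Prod.fst hs
      rw [this, hf4, smul_zero]
    · intro p _
      exact Finset.mem_univ _
    · intro p _
      exact Prod.swap_swap p
  have e9 : ∀ l n, Mm l n = 0 := by
    intro l n
    rcases eq_or_ne l n with rfl | hln
    · exact e8 l
    · have h1 := e6 l n
      have h2 : Mm n l = - Mm l n := by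
        rw [eq_neg_iff_add_eq_zero, add_comm]
        exact e7 l n
      rw [h2, smul_neg, ← sub_eq_add_neg, ← sub_smul] at h1
      rcases smul_eq_zero.1 h1 with h3 | h3
      · exact absurd (h.tj (sub_eq_zero.1 h3)) (Ne.symm hln)
      · exact h3
  intro u v
  rw [e1]
  refine Finset.sum_eq_zero fun n _ => ?_
  rw [e2]
  simp only [e9, smul_zero, Finset.sum_const_zero]

end Pool.Agent.PST.H49
end
end -- Pool.Agent.Helper49_PST.ALT

section -- Pool.Agent.Helper56_PST.BQT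

/-!
# Squad PST, row BQT (helper56): transitivity of Brauer quotients
-/

set_option autoImplicit false

open scoped BigOperators

noncomputable section

namespace Pool.Agent.PST.H56

open Pool.Agent.PFC (tw IsTv)
open Pool.Agent.PFD.D2b (FrR)
open Pool.Agent.PSS
open Pool.Agent.PSS.S0 (IsBQ)

section

variable {R V A B : Type} [CommRing R] [CommGroup V] [Ring A] [Algebra R A] [Ring B] [Algebra R B]
  {α : V →* A} {Q : Subgroup V} {αB : V →* B} {β : A → B}

theorem isBQ_sub (h : IsBQ R α Q αB β) {a b : A} (ha : a ∈ FxR (cw R α) Q)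
    (hb : b ∈ FxR (cw R α) Q) : β (a - b) = β a - β b := by
  have h1 := h.add (a - b) (Submodule.sub_mem _ ha hb) b hb
  rw [sub_add_cancel] at h1
  exact (sub_eq_of_eq_add h1).symm

theorem isBQ_one_mem : (1 : A) ∈ FxR (cw R α) Q :=
  mem_cw.2 fun q _ => by rw [mul_one, one_mul]

end

theorem bqt (bbk : S0.BbkStmt) : BqtStmt := by
  intro ℓ _ F V E A BT BT' K _ _ _ _ _ _ _ _ _ _ _ _ φ α lam x y T T' αT βT αT' βT' hV hP hR hT
    hT' hle
  classical
  have hℓ : (ℓ : F) = 0 := CharP.cast_eq_zero F ℓ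
  have hsup : T' ⊔ T = T' := sup_eq_left.2 hle
  obtain ⟨h1, h2⟩ := bbk ℓ F V E A BT K φ α T αT βT lam x y T' hℓ hV hP hR hT
  rw [hsup] at h1 h2
  have hmono : ∀ {a : A}, a ∈ FxR (cw F α) T' → a ∈ FxR (cw F α) T := fun h u hu => h u (hle hu)
  have key : ∀ a ∈ FxR (cw F α) T', ∀ a₁ ∈ FxR (cw F α) T', βT a = βT a₁ → βT' a = βT' a₁ := by
    intro a ha a₁ ha₁ h
    have h3 : βT (a - a₁) = 0 := by rw [isBQ_sub hT (hmono ha) (hmono ha₁), h, sub_self]
    have h4 : a - a₁ ∈ FxR (cw F α) T' := Submodule.sub_mem _ ha ha₁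
    have h5 : a - a₁ ∈ BKR (cw F α) T' :=
      (h1 _ h4).2.1 (by rw [h3]; exact Submodule.zero_mem _)
    have h6 := (hT'.ker _ h4).2 h5
    rw [isBQ_sub hT' ha ha₁, sub_eq_zero] at h6
    exact h6
  obtain ⟨f, hf⟩ : ∃ f : BT → BT', ∀ a ∈ FxR (cw F α) T', f (βT a) = βT' a := by
    refine ⟨fun z => if h : z ∈ FxR (cw F αT) T' then βT' (h2 z h).choose else 0, ?_⟩
    intro a ha
    have h3 := (h1 a ha).1
    simp only [dif_pos h3]
    obtain ⟨h4, h5⟩ := (h2 _ h3).choose_spec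
    exact key _ h4 _ ha h5
  refine ⟨f, ⟨?_, ?_, ?_, ?_, ?_, ?_, ?_⟩, hf⟩
  · intro a ha b hb
    obtain ⟨a, ha', rfl⟩ := h2 a ha
    obtain ⟨b, hb', rfl⟩ := h2 b hb
    rw [← hT.add _ (hmono ha') _ (hmono hb'), hf _ (Submodule.add_mem _ ha' hb'), hf _ ha',
      hf _ hb', hT'.add _ ha' _ hb']
  · intro r a ha
    obtain ⟨a, ha', rfl⟩ := h2 a ha
    rw [← hT.smul _ _ (hmono ha'), hf _ (Submodule.smul_mem _ _ ha'), hf _ ha', hT'.smul _ _ ha']
  · have h3 := hf 1 isBQ_one_mem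
    rw [hT.one, hT'.one] at h3
    exact h3
  · intro a ha b hb
    obtain ⟨a, ha', rfl⟩ := h2 a ha
    obtain ⟨b, hb', rfl⟩ := h2 b hb
    rw [← hT.mul _ (hmono ha') _ (hmono hb'),
      hf _ (Pool.Agent.PSS.S0.H6.fx_mul α ha' hb'), hf _ ha', hf _ hb', hT'.mul _ ha' _ hb']
  · intro a ha
    obtain ⟨a, ha', rfl⟩ := h2 a ha
    rw [hf _ ha', hT'.ker _ ha', (h1 _ ha').2]
  · intro b
    obtain ⟨a, ha, rfl⟩ := hT'.surj b
    exact ⟨βT a, (h1 a ha).1, hf a ha⟩
  · intro v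
    rw [← hT.om, hf _ (al_mem_cw v _), hT'.om]

end Pool.Agent.PST.H56
end
end -- Pool.Agent.Helper56_PST.BQT

section -- Pool.Agent.Helper79_PST.DXI

/-!
# Squad PST, row DXI (helper79): the interface `DxiStmt` follows from `DrxStmt` (helper43)
-/

open scoped BigOperators PowerSeries

noncomputable section

namespace Pool.Agent.PST.H79

open Pool.Agent.PFC (tw IsTv)
open Pool.Agent.PFD.D2 (Cdv FibG)
open Pool.Agent.PFD.D2b (FrR)
open Pool.Agent.PSS
open Pool.Agent.PSS.S0 (IsBQ)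

theorem dxi (drx : DrxStmt) (zun : ZunStmt) : DxiStmt := by
  intro ℓ _ R K F V E A A₀ B κ Ω Br KB _ _ _ _ _ _ _ _ _ _ _ _ _ _ _ _ _ _ _ _ _ _ _ _ _ _ _ _ _
    φ W α lam x y b c C cv f α₀ lam₀ x₀ y₀ b₀ c₀ m₁ cc r αB β lamB xB yB hK hm1 hm2 hm3 hm4 hz hb
    hr hrl hq hrf hlam
  obtain ⟨u₀, hu₀⟩ := zun F V E A₀ κ φ α₀ lam₀ x₀ y₀ hK.cl hK.rf0
  obtain ⟨δ, hd, hw, hp, he⟩ := drx ℓ R K F V A A₀ Br B κ Ω KB W cv f α₀ lam₀ x₀ y₀ b₀ c₀ α lam x y
    b c u₀ C m₁ cc r αB β lamB xB yB hK.pg hK.pi hK.lv hu₀ hm1 hm2 hm3 hm4 hz hb hrl hq hrf hlam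
  refine ⟨δ, hd, hw, ?_, fun e h => (he e h).2⟩
  intro z g ρ hzr hzg hρ
  obtain ⟨ρ', h1, h2⟩ := hp g z hzr hzg
  have h3 : ρ = ρ' := by
    apply C.rinj
    rw [hρ, h1]
    unfold kp
    rw [mul_assoc]
  rw [h3, ← mul_assoc]
  exact h2

end Pool.Agent.PST.H79
end
end -- Pool.Agent.Helper79_PST.DXI

section -- Pool.Agent.Helper82_PST.VTA

/-! Squad PST, row VTA. -/

set_option autoImplicit false

open scoped BigOperators

namespace Pool.Agent.PST.H82

open Pool.Agent.PSS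

/-- row VTA -/
theorem vta (hon : HonStmt) (dex : DexStmt) (dzc : DzcStmt) : VtaStmt := by
  intro ℓ _ F V E A K _ _ _ _ _ _ _ φ α lam x y W n la δ z hP hRF hW hla hδ hδW hz hδz hsp
  have hinv : ∀ v : V, α v⁻¹ * α v = 1 := fun v => by rw [← map_mul, inv_mul_cancel, map_one]
  have hinv' : ∀ v : V, α v * α v⁻¹ = 1 := fun v => by rw [← map_mul, mul_inv_cancel, map_one]
  obtain ⟨a, y₀, ha, -, hq⟩ := hon ℓ F V E A φ α W n la (fun v => δ (α v) * α v⁻¹) hP hW hsp
    (by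
      intro u v
      have h1 : α (u * v)⁻¹ = α v⁻¹ * α u⁻¹ := by rw [← map_mul, mul_inv_rev]
      simp only [map_mul α u v]
      rw [hδ, h1]
      calc (δ (α u) * α v + α u * δ (α v)) * (α v⁻¹ * α u⁻¹)
          = δ (α u) * (α v * α v⁻¹) * α u⁻¹ + α u * (δ (α v) * α v⁻¹) * α u⁻¹ := by noncomm_ring
        _ = _ := by rw [hinv', mul_one])
    (by
      intro w hw
      simp only [hδW w hw, zero_mul])
  choose D hD hDv using fun l => dex F V E A K φ α lam x y (la l) hP hRF (hla l)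
  refine ⟨a, y₀, D, ha, hq, hD, hDv, ?_⟩
  let δ' : A →ₗ[F] A := δ + (LinearMap.mulLeft F y₀ - LinearMap.mulRight F y₀)
  have hδ' : ∀ s, δ' s = δ s + (y₀ * s - s * y₀) := fun s => rfl
  have h1 := dzc F V A K (Fin n) α lam x y δ' D la a hRF
    (by
      intro s t
      rw [hδ', hδ', hδ', hδ]
      noncomm_ring)
    hD hDv ha
    (by
      intro v
      have h2 := hq v
      have h3 : δ (α v) = (δ (α v) * α v⁻¹) * α v := by rw [mul_assoc, hinv, mul_one]
      rw [hδ', h3, h2, add_mul, sub_mul, Finset.sum_mul, mul_assoc (α v * y₀), hinv, mul_one]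
      have h4 : ∀ S : A, S + (α v * y₀ - y₀ * α v) + (y₀ * α v - α v * y₀) = S := fun S => by
        abel
      rw [h4]
      exact Finset.sum_congr rfl fun l _ => smul_mul_assoc _ _ _)
    z hz
  have h2 : δ' z = 0 := by
    rw [hδ', hδz, hz y₀, sub_self, add_zero]
  rw [h2, mul_zero] at h1
  exact h1.symm

end Pool.Agent.PST.H82
end -- Pool.Agent.Helper82_PST.VTA

section -- Pool.Agent.Helper94_PST.MCO

/-! Squad PST, block KEY, row MCO (helper94). -/

open scoped BigOperators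

noncomputable section

namespace Pool.Agent.PST.H94

open Pool.Agent.PSS
open Pool.Agent.PSS.S0 (IsBQ)

theorem mco0 (hm : S0.MckStmt) : McoStmt := by
  intro ℓ _ F V E A B K KB _ _ _ _ _ _ _ _ _ _ _ φ α Q αB β lam x y lamB xB yB hV hp hu hr hB hrB
    hl hQ a ha
  classical
  choose n n' h1 h2 h3 using hu
  let N : E → A := fun e => if e = 1 then 1 else n e
  let N' : E → A := fun e => if e = 1 then 1 else n' e
  have hN : ∀ e, N e * N' e = 1 ∧ N' e * N e = 1 ∧ ∀ u, N e * α u = α (φ e u) * N e := by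
    intro e
    by_cases h : e = 1
    · subst h
      simp [N, N']
    · simp only [N, N', if_neg h]
      exact ⟨h1 e, h2 e, h3 e⟩
  have hinv : ∀ e : E, ∀ q ∈ Q, (φ e)⁻¹ q = q := by
    intro e q hq
    have h := hQ e q hq
    rw [MulAut.inv_apply, MulEquiv.symm_apply_eq]
    exact h.symm
  have hT : ∀ e : E, ∃! t, t ∈ ({1} : Finset E) ∧ ∀ q ∈ Q, (φ t)⁻¹ q = (φ e)⁻¹ q := by
    intro e
    refine ⟨1, ⟨Finset.mem_singleton_self _, ?_⟩, ?_⟩
    · intro q hq
      rw [hinv e q hq, hinv 1 q hq]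
    · intro t ht
      exact Finset.mem_singleton.mp ht.1
  have key := hm ℓ F V E A B K KB φ α Q αB β lam x y lamB xB yB N N' {1} (CharP.cast_eq_zero F ℓ)
    hV hp hr hB hrB hl hN hT a ha
  have e1 : N 1 = 1 := by simp [N]
  have e2 : N' 1 = 1 := by simp [N']
  rw [Finset.sum_singleton, e1, e2, one_mul, mul_one] at key
  exact key

theorem mco : McoStmt := mco0 Pool.Agent.PSS.All30.mck

end Pool.Agent.PST.H94
end
end -- Pool.Agent.Helper94_PST.MCO

section -- Pool.Agent.PST.AsmKEY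

/-!
# Squad PST, block KEY: assembly (helper79)
-/

namespace Pool.Agent.PST.KEY

open Pool.Agent.PSS
open Pool.Agent.PSS.All (z_bki z_bqx z_bpu z_mck z_zrt z_rfs z_fco z_fbk z_ftr z_bbk z_bcl z_bkf
  z_rfd b_thl a_uzl a_rfe)

theorem nkb_ : NkbStmt := H52.nkb z_bki

theorem dzu_ : DzuStmt := H56.dzu nkb_ z_bqx z_bpu z_mck z_zrt

theorem lsa_ : LsaStmt := H81.lsa H85.dex dzu_ z_rfs b_thl

theorem zij_ : ZijStmt :=
  H84.zij H27.adx lsa_ z_fco z_fbk z_ftr z_bqx z_bbk z_bcl z_bkf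

theorem dzc_ : DzcStmt := H40.dzc b_thl z_zrt

theorem hon_ : HonStmt := H44.hon H24.exa

theorem obc_ : ObcStmt := H13.obc H46.oba H27.obb H1.obn

theorem obw_ : ObwStmt := H95.obw H46.oba H27.obb obc_ H1.lfx

theorem obx_ : ObxStmt := H45.obx H46.oba H1.lfx

theorem obr_ : ObrStmt :=
  H91.obr zij_ H46.oba obw_ H1.lfx z_rfd z_bqx z_bcl z_bpu z_bbk z_fbk

theorem ycb_ : YcbStmt := H46.ycb H13.yce H1.lfx

theorem vtx_ : VtxStmt :=
  H70.vtx H10.zun (H56.bqt z_bbk) H94.mco (H21.ndi nkb_) (H82.vta hon_ H85.dex dzc_) z_bcl z_bbk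
    z_fco z_fbk z_zrt

theorem rel_ : RelStmt := H91.rel H95.eyr

theorem pai_ : PaiStmt := H13.pai H10.ecr H29.nrk rel_ H6.xcm_thm (H29.xpr H6.xcm_thm)

theorem trl_ : TrlStmt := H79.trl H41.bkz a_uzl

theorem drx_ : DrxStmt := H81.drx pai_ trl_ H51.rzl a_uzl a_rfe

theorem dxi_ : DxiStmt := H79.dxi drx_ H10.zun

theorem key_ : KeyStmt :=
  H84.kya dxi_ H46.oba H1.lfx obw_ obx_ obr_ ycb_ vtx_ (H15.lal H49.alt) H40.qwv z_bqx z_bpu
    z_bcl

theorem kyw_ : KywStmt := Pool.Agent.PST.kyw key_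

end Pool.Agent.PST.KEY
end -- Pool.Agent.PST.AsmKEY
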