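import Pool.Agent.Helper12_AWB.B187
import Pool.Agent.Helper12_AWB.B193

/-!
# Merged copies (generated) of the modules

* `Pool.Agent.Helper26_PST.RHR`
* `Pool.Agent.Helper26_PST.RTU`
* `Pool.Agent.Helper2_PST.QSC`
* `Pool.Agent.Helper30_PST.BLW`
* `Pool.Agent.Helper30_PST.ETW`
* `Pool.Agent.Helper30_PST.GFW`
* `Pool.Agent.Helper30_PST.QCL`
* `Pool.Agent.Helper56_PST.BFN`
* `Pool.Agent.Helper95_PST.QRG`
* `Pool.Agent.Helper30_PST.UAll`
* `Pool.Agent.PST.AllT`
-/

set_option autoImplicit false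

section -- Pool.Agent.Helper26_PST.RHR

/-!
# PST, block U, row RHR: a homogeneous relation between the relative traces
-/

open scoped BigOperators TensorProduct PowerSeries

noncomputable section

namespace Pool.Agent.PST.U.H26

open Pool.Agent.PFC (tw IsTv)
open Pool.Agent.PFD.D2b (FrR)
open Pool.Agent.PSS
open Pool.Agent.PSS.S0 Pool.Agent.PSS.S3
open Pool.Agent.PSS.Dm (cst smulq)

section
variable {k A W : Type} [CommRing k] [Ring A] [Algebra k A] [Group W] {om : W →* A}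
  (D : Dm k om)

theorem C_smul_of (t : k) (f : ℕ → A) :
    (PowerSeries.C t : PowerSeries k) • D.of f = D.of (fun n => t • f n) := by
  rw [← D.of_smul]
  congr 1
  funext n
  rw [smulq, Finset.sum_eq_single (0, n)]
  · simp
  · rintro ⟨a', b⟩ h hne
    rw [Finset.HasAntidiagonal.mem_antidiagonal] at h
    rcases a' with _ | a'
    · simp only [zero_add] at h
      exact absurd (by rw [h]) hne
    · rw [PowerSeries.coeff_C, if_neg (Nat.succ_ne_zero a'), zero_smul]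
  · intro h
    exact absurd (by rw [Finset.HasAntidiagonal.mem_antidiagonal]; simp) h
end

theorem rhr (crt : CrtStmt) (chp : ChpStmt) : RhrStmt := by
  intro R K V A B κ κ' Ω _ _ _ _ _ _ _ _ _ _ _ _ _ _ _ _ _ W _ α lam x y b c C D P m Λ x' y' w
    u u' hT hm hRF hu hu'
  obtain ⟨⟨D', hD'⟩, -, -⟩ := H92.tra K V B (ia C.i α) W P m hT
  obtain ⟨ψ, Λ', hψ, hψw, hΛ', hRF'⟩ := H85.lkx H75.rmp H63.funs H84.rfe R K V A B κ κ' Ω W α lam
    x y b c C D D' Λ x' y' (fun n a₁ a₂ => by rw [hD']; exact hm n a₁ a₂) hRF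
  have : FiniteDimensional K B := by
    classical
    refine ⟨⟨Finset.univ.image (fun ω => C.i (b ω)), eq_top_iff.2 fun a _ => ?_⟩⟩
    rw [← C.frK.2.2 a]
    refine Submodule.sum_mem _ fun ω _ => Submodule.smul_mem _ _ (Submodule.subset_span ?_)
    rw [Finset.coe_image]
    exact ⟨ω, Finset.mem_coe.2 (Finset.mem_univ ω), rfl⟩
  obtain ⟨T, _, _, Φ, j, N, N', hbij, hΦs, hjC, hNc, hNN, hNF⟩ := crt K V B κ κ' W (ia C.i α)
    C.lamK (fun t => C.i (x t)) (fun t => C.i (y t)) P m D' Λ' (fun t => ψ (x' t))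
    (fun t => ψ (y' t)) hT hD' C.rfK hRF'
  -- central elements of `A`
  have hmw : ∀ w : V, α w ∈ FxR (cw R α) ⊤ := by
    intro w v _
    show α v * (α w * α v⁻¹) = α w
    rw [← map_mul, ← map_mul]
    congr 1
    rw [mul_comm w, ← mul_assoc, mul_inv_cancel, one_mul]
  have hzc : ∀ w : V, ∀ a, rt x y (α w) * a = a * rt x y (α w) := by
    intro w a
    exact (All30.zrt R V A κ α lam x y C.rf (α w) (hmw w) a).symm
  have hz1c : ∀ a, rt x y 1 * a = a * rt x y 1 := by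
    intro a
    have h := hzc 1 a
    rw [map_one] at h
    exact h
  obtain ⟨d, a, ha0, hsum⟩ := chp R A (rt x y (α w)) (rt x y 1) u u' (hzc w) hz1c hu hu'
  refine ⟨d, a, ha0, ?_⟩
  -- the map `Φ ∘ ψ` is injective
  have hψi : Function.Injective ψ := by
    intro p q hpq
    rw [← D.of_sq p, ← D.of_sq q, hψ, hψ] at hpq
    have h1 := congrArg D'.sq hpq
    rw [D'.sq_of, D'.sq_of] at h1
    have h2 : D.sq p = D.sq q := by
      funext n
      exact C.inj (congrFun h1 n)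
    rw [← D.of_sq p, ← D.of_sq q, h2]
  have hψC : ∀ (t : R) (p : D.R), ψ ((PowerSeries.C t : PowerSeries R) • p) =
      (PowerSeries.C (algebraMap R K t) : PowerSeries K) • ψ p := by
    intro t p
    rw [← D.of_sq p, C_smul_of, hψ, hψ, C_smul_of]
    congr 1
    funext n
    rw [map_smul, C.tow]
  have hψr : ∀ q : D.R, ψ (rt x' y' q) = rt (fun t => ψ (x' t)) (fun t => ψ (y' t)) (ψ q) := by
    intro q
    rw [rt, rt, map_sum]
    refine Finset.sum_congr rfl fun t _ => ?_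
    rw [map_mul, map_mul]
  have hir : ∀ q : A, rt (fun t => C.i (x t)) (fun t => C.i (y t)) (C.i q) = C.i (rt x y q) := by
    intro q
    rw [rt, rt, map_sum]
    refine Finset.sum_congr rfl fun t _ => ?_
    rw [map_mul, map_mul]
  have hw : N * Φ (ψ (rt x' y' (D.w w))) = (W.index : T) * j (C.i (rt x y (α w))) := by
    rw [hψr, hψw, hNF w, nsmul_eq_mul, ← hir]
    rfl
  have h1 : N * Φ (ψ (rt x' y' 1)) = (W.index : T) * j (C.i (rt x y 1)) := by
    have h := hNF 1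
    rw [map_one, OneMemClass.coe_one, map_one, nsmul_eq_mul] at h
    rw [hψr, map_one, h, ← hir, map_one]
  obtain ⟨p, hp⟩ : ∃ p, p = Φ (ψ (rt x' y' (D.w w))) := ⟨_, rfl⟩
  obtain ⟨p1, hp1⟩ : ∃ p1, p1 = Φ (ψ (rt x' y' 1)) := ⟨_, rfl⟩
  rw [← hp] at hw
  rw [← hp1] at h1
  have hkey : N ^ d * Φ (ψ (∑ i ∈ Finset.range (d + 1), (PowerSeries.C (a i) : PowerSeries R) •
      (rt x' y' (D.w w) ^ i * rt x' y' 1 ^ (d - i)))) = 0 := by
    rw [map_sum, map_sum, Finset.mul_sum]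
    have hterm : ∀ i ∈ Finset.range (d + 1), N ^ d * Φ (ψ ((PowerSeries.C (a i) : PowerSeries R) •
        (rt x' y' (D.w w) ^ i * rt x' y' 1 ^ (d - i)))) =
        (W.index : T) ^ d * j (C.i (a i • (rt x y (α w) ^ i * rt x y 1 ^ (d - i)))) := by
      intro i hi
      have hid : i + (d - i) = d := by
        have := Finset.mem_range.1 hi
        omega
      have hNcm : ∀ q : T, Commute N q := fun q => hNc q
      have hIc : ∀ q : T, Commute (W.index : T) q := fun q => Nat.cast_commute _ _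
      have e1 : N ^ d * (p ^ i * p1 ^ (d - i)) = (N * p) ^ i * (N * p1) ^ (d - i) := by
        rw [(hNcm p).mul_pow, (hNcm p1).mul_pow]
        calc N ^ d * (p ^ i * p1 ^ (d - i)) = N ^ i * N ^ (d - i) * (p ^ i * p1 ^ (d - i)) := by
              rw [← pow_add, hid]
          _ = N ^ i * (N ^ (d - i) * p ^ i) * p1 ^ (d - i) := by simp only [mul_assoc]
          _ = N ^ i * (p ^ i * N ^ (d - i)) * p1 ^ (d - i) := by
              rw [((hNcm (p ^ i)).pow_left (d - i)).eq]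
          _ = N ^ i * p ^ i * (N ^ (d - i) * p1 ^ (d - i)) := by simp only [mul_assoc]
      have e2 : ((W.index : T) * j (C.i (rt x y (α w)))) ^ i *
          ((W.index : T) * j (C.i (rt x y 1))) ^ (d - i) =
          (W.index : T) ^ d * (j (C.i (rt x y (α w))) ^ i * j (C.i (rt x y 1)) ^ (d - i)) := by
        rw [(hIc _).mul_pow, (hIc _).mul_pow]
        calc (W.index : T) ^ i * j (C.i (rt x y (α w))) ^ i *
              ((W.index : T) ^ (d - i) * j (C.i (rt x y 1)) ^ (d - i)) =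
              (W.index : T) ^ i * (j (C.i (rt x y (α w))) ^ i * (W.index : T) ^ (d - i)) *
                j (C.i (rt x y 1)) ^ (d - i) := by simp only [mul_assoc]
          _ = (W.index : T) ^ i * ((W.index : T) ^ (d - i) * j (C.i (rt x y (α w))) ^ i) *
                j (C.i (rt x y 1)) ^ (d - i) := by
              rw [((hIc (j (C.i (rt x y (α w))) ^ i)).pow_left (d - i)).eq]
          _ = (W.index : T) ^ i * (W.index : T) ^ (d - i) *
                (j (C.i (rt x y (α w))) ^ i * j (C.i (rt x y 1)) ^ (d - i)) := by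
              simp only [mul_assoc]
          _ = _ := by rw [← pow_add, hid]
      rw [hψC, hΦs, map_mul, map_mul, map_pow, map_pow, map_pow, map_pow, ← hp, ← hp1,
        mul_smul_comm, e1, hw, h1, e2, map_smul, ← C.tow, hjC, map_mul, map_mul, map_pow, map_pow,
        map_pow, map_pow, mul_smul_comm]
    rw [Finset.sum_congr rfl hterm, ← Finset.mul_sum, ← map_sum, ← map_sum, hsum, map_zero,
      map_zero, mul_zero]
  have hN' : N' ^ d * N ^ d = 1 := by
    have h2 : N' * N = 1 := by rw [← hNc, hNN]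
    have h3 : Commute N' N := (hNc N').symm
    rw [← h3.mul_pow, h2, one_pow]
  have hzero : Φ (ψ (∑ i ∈ Finset.range (d + 1), (PowerSeries.C (a i) : PowerSeries R) •
      (rt x' y' (D.w w) ^ i * rt x' y' 1 ^ (d - i)))) = 0 := by
    have h2 := congrArg (fun q => N' ^ d * q) hkey
    simp only [mul_zero] at h2
    rw [← mul_assoc, hN', one_mul] at h2
    exact h2
  apply hψi
  apply hbij.1
  rw [hzero, map_zero, map_zero]

end Pool.Agent.PST.U.H26
end
end -- Pool.Agent.Helper26_PST.RHR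

section -- Pool.Agent.Helper26_PST.RTU

/-!
# PST, block U, row RTU: all relative traces `rt_V(v)` are units
-/

open scoped BigOperators TensorProduct PowerSeries

noncomputable section

namespace Pool.Agent.PST.U.H26

open Pool.Agent.PFC (tw IsTv)
open Pool.Agent.PFD.D2b (FrR)
open Pool.Agent.PSS
open Pool.Agent.PSS.S0 Pool.Agent.PSS.S3

section gen

variable {R V A : Type} [CommRing R] [CommGroup V] [Ring A] [Algebra R A] {α : V →* A}

theorem rtu_mem {P : Subgroup V} {a : A} (h : ∀ u ∈ P, α u * a = a * α u) :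
    a ∈ FxR (cw R α) P := by
  intro u hu
  show α u * (a * α u⁻¹) = a
  rw [← mul_assoc, h u hu, mul_assoc, ← map_mul, mul_inv_cancel, map_one, mul_one]

theorem rtu_comm {P : Subgroup V} {a : A} (h : a ∈ FxR (cw R α) P) {u : V} (hu : u ∈ P) :
    α u * a = a * α u := by
  have h1 : α u * (a * α u⁻¹) = a := h u hu
  calc α u * a = α u * (a * (α u⁻¹ * α u)) := by
        rw [← map_mul, inv_mul_cancel, map_one, mul_one]
    _ = (α u * (a * α u⁻¹)) * α u := by simp only [mul_assoc]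
    _ = a * α u := by rw [h1]

end gen

theorem rtu : RtuStmt := by
  classical
  intro ℓ _ F V E A K _ _ _ _ _ _ _ _ _ φ α lam x y hV hE hC hRF hu v
  obtain ⟨u, hu⟩ := hu
  have hℓ : (ℓ : F) = 0 := CharP.cast_eq_zero F ℓ
  -- central elements
  have hmw : ∀ w : V, α w ∈ FxR (cw F α) ⊤ := by
    intro w
    apply rtu_mem
    intro v _
    rw [← map_mul, ← map_mul, mul_comm]
  have hm1 : (1 : A) ∈ FxR (cw F α) ⊤ := rtu_mem fun v _ => by rw [mul_one, one_mul]
  obtain ⟨Z, hZ⟩ : ∃ Z : A, Z = ∑ k, x k * α v * y k := ⟨_, rfl⟩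
  obtain ⟨Z1, hZ1⟩ : ∃ Z1 : A, Z1 = ∑ k, x k * y k := ⟨_, rfl⟩
  have hcZ : ∀ c, c * Z = Z * c := by
    intro c
    rw [hZ]
    exact All30.zrt F V A K α lam x y hRF (α v) (hmw v) c
  have hcZ1 : ∀ c, c * Z1 = Z1 * c := by
    intro c
    have h1 := All30.zrt F V A K α lam x y hRF 1 hm1 c
    simp only [mul_one] at h1
    rw [hZ1]
    exact h1
  -- the representatives
  have : Fintype φ.range := Fintype.ofFinite _
  have hs : ∀ g : φ.range, ∃ e : E, φ e = g := fun g => g.2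
  choose s hs using hs
  obtain ⟨T, hTd⟩ : ∃ T : Finset E, T = Finset.univ.image s := ⟨_, rfl⟩
  have hT : ∀ e : E, ∃! t, t ∈ T ∧ ∀ q ∈ (⊤ : Subgroup V), (φ t)⁻¹ q = (φ e)⁻¹ q := by
    intro e
    refine ⟨s ⟨φ e, e, rfl⟩, ⟨?_, ?_⟩, ?_⟩
    · rw [hTd]
      exact Finset.mem_image_of_mem _ (Finset.mem_univ _)
    · intro v _
      rw [hs]
    · rintro t ⟨ht, ht'⟩
      rw [hTd] at ht
      obtain ⟨g, -, rfl⟩ := Finset.mem_image.1 ht
      have h1 : φ (s g) = φ e := by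
        have h2 : (φ (s g))⁻¹ = (φ e)⁻¹ := by
          apply MulEquiv.ext
          intro v
          exact ht' v trivial
        exact inv_injective h2
      have h3 : g = ⟨φ e, e, rfl⟩ := by
        apply Subtype.ext
        show (g : MulAut V) = φ e
        rw [← h1, hs]
      rw [h3]
  -- units
  choose n n' hn1 hn2 hn3 using hC.uni
  -- the Brauer quotient
  obtain ⟨B, _, _, γB, β, hB⟩ := All30.bqx F V A α ⊤
  obtain ⟨-, -, lamB, KB, _, xB, yB, hRB, hlB⟩ := All30.bpu ℓ F V E A B K φ α ⊤ γB β lam x y φ.ker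
    hℓ hV hC.per hC.uni hRF hB (by
      intro e
      constructor
      · intro he v _
        rw [MonoidHom.mem_ker.1 he]
        rfl
      · intro he
        rw [MonoidHom.mem_ker]
        apply MulEquiv.ext
        intro v
        exact he v trivial)
  have hmk := All30.mck ℓ F V E A B K KB φ α ⊤ γB β lam x y lamB xB yB n n' T hℓ hV hC.per hRF hB
    hRB hlB (fun e => ⟨hn1 e, hn2 e, hn3 e⟩) hT
  have hcB : ∀ (v : V) (z : B), γB v * z = z * γB v := by
    intro v z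
    obtain ⟨a, ha, rfl⟩ := hB.surj z
    rw [← hB.om, ← hB.mul _ (hmw v) _ ha, ← hB.mul _ ha _ (hmw v), rtu_comm ha (Subgroup.mem_top v)]
  obtain ⟨S, hS⟩ : ∃ S : B, S = ∑ k, xB k * yB k := ⟨_, rfl⟩
  have hbw : β Z = (∑ t ∈ T, γB (φ t v)) * S := by
    rw [hZ, hmk _ (hmw v), Finset.sum_mul]
    refine Finset.sum_congr rfl fun t _ => ?_
    have h1 : n t * α v * n' t = α (φ t v) := by
      rw [hn3, mul_assoc, hn1, mul_one]
    rw [h1, hB.om, hS, Finset.mul_sum]
    refine Finset.sum_congr rfl fun k _ => ?_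
    rw [← hcB, mul_assoc]
  have hb1 : β Z1 = (∑ _t ∈ T, (1 : B)) * S := by
    have h1 := hmk _ hm1
    simp only [mul_one] at h1
    rw [hZ1, h1, Finset.sum_mul]
    refine Finset.sum_congr rfl fun t _ => ?_
    rw [hn1, hB.one, hS, one_mul]
    simp only [mul_one]
  have hZm : Z ∈ FxR (cw F α) ⊤ := rtu_mem fun w _ => hcZ _
  have hZ1m : Z1 ∈ FxR (cw F α) ⊤ := rtu_mem fun w _ => hcZ1 _
  have hmul : ∀ a ∈ FxR (cw F α) ⊤, ∀ b ∈ FxR (cw F α) ⊤, a * b ∈ FxR (cw F α) ⊤ := by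
    intro a ha b hb
    apply rtu_mem
    intro w hw
    rw [← mul_assoc, rtu_comm ha hw, mul_assoc, rtu_comm hb hw, mul_assoc]
  obtain ⟨D, hD⟩ : ∃ D : A, D = Z - Z1 := ⟨_, rfl⟩
  have hDm : D ∈ FxR (cw F α) ⊤ := by
    rw [hD]
    exact Submodule.sub_mem _ hZm hZ1m
  have hbD : β D = (∑ t ∈ T, (γB (φ t v) - 1)) * S := by
    have h1 : Z = D + Z1 := by rw [hD]; abel
    have h2 : β Z = β D + β Z1 := by
      conv_lhs => rw [h1]
      exact hB.add _ hDm _ hZ1m
    have h3 : β D = β Z - β Z1 := by rw [h2]; abel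
    rw [h3, hbw, hb1, ← sub_mul, Finset.sum_sub_distrib]
  -- `β D` is nilpotent
  have hnB : IsNilpotent (β D) := by
    rcases subsingleton_or_nontrivial B with hsub | hnt
    · exact ⟨1, Subsingleton.elim _ _⟩
    have hch : CharP B ℓ := charP_of_injective_algebraMap (algebraMap F B).injective ℓ
    rw [hbD]
    have hcc : ∀ w : V, ∀ z : B, Commute (γB w - 1) z := by
      intro w z
      show (γB w - 1) * z = z * (γB w - 1)
      rw [sub_mul, mul_sub, hcB, one_mul, mul_one]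
    have h1 : IsNilpotent (∑ t ∈ T, (γB (φ t v) - 1)) := by
      apply Commute.isNilpotent_sum
      · intro t _
        obtain ⟨k, hk⟩ := hV (φ t v)
        refine ⟨ℓ ^ k, ?_⟩
        rw [sub_pow_char_pow_of_commute _ _ (Commute.one_right _), one_pow, ← map_pow, hk, map_one,
          sub_self]
      · intro t t' _ _
        exact hcc _ _
    have h2 : Commute (∑ t ∈ T, (γB (φ t v) - 1)) S :=
      Commute.sum_left _ _ _ (fun t _ => hcc _ _)
    exact h2.isNilpotent_mul_right h1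
  -- powers
  have hpw : ∀ j : ℕ, D ^ j ∈ FxR (cw F α) ⊤ ∧ β (D ^ j) = β D ^ j := by
    intro j
    induction j with
    | zero => exact ⟨by rw [pow_zero]; exact hm1, by rw [pow_zero, pow_zero, hB.one]⟩
    | succ j ih =>
      refine ⟨by rw [pow_succ]; exact hmul _ ih.1 _ hDm, ?_⟩
      rw [pow_succ, pow_succ, hB.mul _ ih.1 _ hDm, ih.2]
  have hDc : ∀ a, D * a = a * D := by
    intro a
    rw [hD, sub_mul, mul_sub, hcZ, hcZ1]
  obtain ⟨j, hj⟩ := hnB
  have hDj : D ^ j ∈ BKR (cw F α) ⊤ := (hB.ker _ (hpw j).1).1 (by rw [(hpw j).2, hj])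
  have hnil : IsNilpotent D := by
    have h1 := All30.idn ℓ F V E A φ α ⊤ (D ^ j) hV hC (by
      intro a
      have h2 : Commute D a := hDc a
      exact (h2.pow_left j)) hDj
    obtain ⟨i, hi⟩ := h1
    exact ⟨j * i, by rw [pow_mul, hi]⟩
  have hZ1u : IsUnit Z1 := by
    rw [← hZ1] at hu
    exact ⟨⟨Z1, u, by rw [← hcZ1, hu], hu⟩, rfl⟩
  have hZu : IsUnit Z := by
    have h1 : Z = Z1 + D := by rw [hD]; abel
    rw [h1]
    exact hnil.isUnit_add_left_of_commute hZ1u (hDc Z1)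
  obtain ⟨w, hw⟩ := hZu
  refine ⟨(w⁻¹ : Aˣ), ?_⟩
  rw [← hZ, ← hw]
  exact w.inv_mul

end Pool.Agent.PST.U.H26
end
end -- Pool.Agent.Helper26_PST.RTU

section -- Pool.Agent.Helper2_PST.QSC

/-!
# Squad PST, row QSC (helper2): fixed vectors and Brauer kernels of the quotient
-/

set_option autoImplicit false

open scoped BigOperators TensorProduct PowerSeries

noncomputable section

namespace Pool.Agent.PST.UC.H2

open Pool.Agent.PFC (tw IsTv)
open Pool.Agent.PFD.D2b (FrR)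
open Pool.Agent.PSS
open Pool.Agent.PSS.S0
open Pool.Agent.PST.UC

/-- the diagonal action -/
abbrev dg (G X : Type) [Group G] [MulAction (G × G) X] : MulAction G X :=
  MulAction.compHom X ((MonoidHom.id G).prod (MonoidHom.id G))

theorem cw_apply {R V A : Type} [CommRing R] [CommGroup V] [Ring A] [Algebra R A] (α : V →* A)
    (v : V) (a : A) : cw R α v a = α v * (a * α v⁻¹) := rfl

theorem bw_apply {R V A : Type} [CommRing R] [CommGroup V] [Ring A] [Algebra R A] (α : V →* A)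
    (w : V × V) (a : A) : bw R α w a = α w.1 * (a * α w.2⁻¹) := rfl

/-- a frame for the two sided action is a frame for the conjugation -/
theorem frR_dg {R V A Ω : Type} [CommRing R] [CommGroup V] [Ring A] [Algebra R A] [Fintype Ω]
    [MulAction (V × V) Ω] (α : V →* A) (b : Ω → A) (c : Ω → (A →ₗ[R] R))
    (h : FrR (bw R α) b c) : letI := dg V Ω; FrR (cw R α) b c := by
  letI := dg V Ω
  refine ⟨fun g t => h.1 (g, g) t, fun g t n => h.2.1 (g, g) t n, h.2.2⟩

theorem qsc : QscStmt := by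
  classical
  intro ℓ _ R V E A H Ω Ω' _ _ _ _ _ _ _ _ _ _ _ φ α N _ φH αH π b c b' c' σ s m hℓ hV hQ hN hF
  -- the section
  let S : H →ₗ[R] A := ∑ ω', (c' ω').smulRight (b (s ω'))
  have hSa : ∀ h, S h = ∑ ω', c' ω' h • b (s ω') := fun h => by
    simp only [S, LinearMap.sum_apply, LinearMap.smulRight_apply]
  -- equivariance of `S`
  have hSe : ∀ (v : V) (h : H), S (cw R αH (v : V ⧸ N) h) = cw R α v (S h) := fun v h => by
    rw [hSa, hSa, map_sum]
    rw [← Equiv.sum_comp (MulAction.toPerm (((v : V ⧸ N), (v : V ⧸ N)) : (V ⧸ N) × (V ⧸ N)))]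
    refine Finset.sum_congr rfl fun ω' _ => ?_
    rw [MulAction.toPerm_apply, hF.se v ω', hN.fr.1 (v, v) (s ω'), map_smul]
    have e1 := hF.fr.2.1 (((v : V ⧸ N), (v : V ⧸ N)) : (V ⧸ N) × (V ⧸ N)) ω' h
    have e2 : cw R αH (v : V ⧸ N) h =
        bw R αH (((v : V ⧸ N), (v : V ⧸ N)) : (V ⧸ N) × (V ⧸ N)) h := rfl
    rw [e2, e1]
    rfl
  -- equivariance of `π`
  have hπe : ∀ (v : V) (a : A), π (cw R α v a) = cw R αH (v : V ⧸ N) (π a) := fun v a => by
    rw [cw_apply, cw_apply, map_mul, map_mul, ← hQ.om v, ← hQ.om v⁻¹]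
    rfl
  have hπS : ∀ h, π (S h) = h := fun h => by
    rw [hSa, map_sum]
    refine Eq.trans (Finset.sum_congr rfl fun ω' _ => ?_) (hF.fr.2.2 h)
    rw [map_smul, ← hF.hb, hF.ss]
  -- a representative of an element of the image of `P`
  have hrep : ∀ (P : Subgroup V), N ≤ P → ∀ v : V,
      (v : V ⧸ N) ∈ P.map (QuotientGroup.mk' N) → v ∈ P := fun P hP v hv => by
    obtain ⟨p, hp, hpv⟩ := hv
    have h1 : p⁻¹ * v ∈ N := QuotientGroup.eq.mp hpv
    have h2 : v = p * (p⁻¹ * v) := by group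
    rw [h2]
    exact P.mul_mem hp (hP h1)
  have hfix : ∀ (P : Subgroup V) (Q : Subgroup (V ⧸ N)), (∀ v ∈ P, (v : V ⧸ N) ∈ Q) →
      ∀ h ∈ FxR (cw R αH) Q, S h ∈ FxR (cw R α) P := fun P Q hPQ h hh v hv => by
    rw [← hSe v h, hh _ (hPQ v hv)]
  have hmem : ∀ (P : Subgroup V), ∀ v ∈ P, (v : V ⧸ N) ∈ P.map (QuotientGroup.mk' N) :=
    fun P v hv => ⟨v, hv, rfl⟩
  refine ⟨S, hπS, fun P hP => ⟨hfix P _ (hmem P), ?_, ?_, ?_, ?_⟩⟩
  · -- (2)
    intro a ha x hx
    obtain ⟨v, hv, rfl⟩ := hx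
    have h1 := hπe v a
    rw [ha v hv] at h1
    exact h1.symm
  · -- (3)
    intro h hh
    unfold BKR at hh
    induction hh using Submodule.span_induction with
    | mem n hn =>
      obtain ⟨Q, T, x, hlt, hT, hx, rfl⟩ := hn
      let rp : V ⧸ N → V := fun y => Quotient.out y
      have hrp : ∀ y : V ⧸ N, ((rp y : V) : V ⧸ N) = y := fun y => QuotientGroup.out_eq' y
      have hrpi : Function.Injective rp := fun y z hyz => by
        rw [← hrp y, ← hrp z, hyz]
      let P1 : Subgroup V := Q.comap (QuotientGroup.mk' N)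
      have hP1 : P1 < P := by
        refine lt_of_le_of_ne (fun v hv => hrep P hP v (hlt.le hv)) ?_
        intro he
        refine hlt.not_ge fun y hy => ?_
        obtain ⟨v, hv, rfl⟩ := hy
        rw [← he] at hv
        exact hv
      refine Submodule.subset_span ⟨P1, T.image rp, S x, hP1, ⟨?_, ?_⟩,
        hfix P1 Q (fun v hv => hv) x hx, ?_⟩
      · intro t ht
        obtain ⟨y, hy, rfl⟩ := Finset.mem_image.mp ht
        refine hrep P hP _ ?_
        rw [hrp]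
        exact hT.1 y hy
      · intro p hp
        obtain ⟨y, ⟨hy, hyp⟩, huy⟩ := hT.2 (p : V ⧸ N) (hmem P p hp)
        refine ⟨rp y, ⟨Finset.mem_image_of_mem _ hy, ?_⟩, ?_⟩
        · change (((rp y)⁻¹ * p : V) : V ⧸ N) ∈ Q
          rw [QuotientGroup.mk_mul, QuotientGroup.mk_inv, hrp]
          exact hyp
        · rintro t ⟨ht, htp⟩
          obtain ⟨z, hz, rfl⟩ := Finset.mem_image.mp ht
          have h1 : (((rp z)⁻¹ * p : V) : V ⧸ N) ∈ Q := htp
          rw [QuotientGroup.mk_mul, QuotientGroup.mk_inv, hrp] at h1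
          rw [huy z ⟨hz, h1⟩]
      · rw [Finset.sum_image fun y _ z _ hyz => hrpi hyz, map_sum]
        refine Finset.sum_congr rfl fun y _ => ?_
        rw [← hSe, hrp]
    | zero => rw [map_zero]; exact Submodule.zero_mem _
    | add x y _ _ hx hy => rw [map_add]; exact Submodule.add_mem _ hx hy
    | smul r x _ hx => rw [map_smul]; exact Submodule.smul_mem _ r hx
  · -- (4)
    intro a ha
    have ha' := Pool.Agent.PSS.All30.bkf R V A (cw R α) P ha
    letI := dg (V ⧸ N) Ω'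
    refine Pool.Agent.PSS.All30.fbk R (V ⧸ N) H Ω' (cw R αH) b' c' (frR_dg αH b' c' hF.fr) _ (π a) ?_ ?_
    · intro x hx
      obtain ⟨v, hv, rfl⟩ := hx
      have h1 := hπe v a
      rw [ha' v hv] at h1
      exact h1.symm
    · intro ω' hω'
      rw [hF.hc]
      refine Finset.sum_eq_zero fun ω hω => ?_
      have hσ : σ ω = ω' := (Finset.mem_filter.mp hω).2
      letI := dg V Ω
      refine Pool.Agent.PSS.All30.fco ℓ R V A Ω (cw R α) b c hℓ hV (frR_dg α b c hN.fr) P a ha ω ?_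
      intro v hv
      refine hF.fx v ω ?_
      rw [hσ]
      exact hω' (v : V ⧸ N) (hmem P v hv)
  · -- (5)
    intro a ha h0
    have hz : ∑ ω, c ω a • b (s (σ ω)) = 0 := by
      rw [← Finset.sum_fiberwise_of_maps_to (s := Finset.univ) (t := Finset.univ) (g := σ)
        (fun ω _ => Finset.mem_univ _)]
      refine Finset.sum_eq_zero fun ω' _ => ?_
      have h1 := hF.hc ω' a
      rw [h0, map_zero] at h1
      have h2 : ∑ ω ∈ Finset.univ.filter (fun ω => σ ω = ω'), c ω a • b (s (σ ω)) =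
          (∑ ω ∈ Finset.univ.filter (fun ω => σ ω = ω'), c ω a) • b (s ω') := by
        rw [Finset.sum_smul]
        refine Finset.sum_congr rfl fun ω hω => ?_
        rw [(Finset.mem_filter.mp hω).2]
      rw [h2, ← h1, zero_smul]
    have hbm : ∀ ω, b ω = α (m ω) * b (s (σ ω)) := fun ω => by
      have h1 := hN.fr.1 (m ω, 1) (s (σ ω))
      rw [← hF.ms ω, bw_apply] at h1
      rw [h1]
      simp
    have hae : a = ∑ n ∈ Finset.univ.image m, (α n - 1) *
        ∑ ω ∈ Finset.univ.filter (fun ω => m ω = n), c ω a • b (s (σ ω)) := by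
      have h1 : a = ∑ ω, c ω a • ((α (m ω) - 1) * b (s (σ ω))) := by
        have h2 : ∀ ω, c ω a • ((α (m ω) - 1) * b (s (σ ω))) =
            c ω a • b ω - c ω a • b (s (σ ω)) := fun ω => by
          rw [hbm ω, sub_mul, one_mul, smul_sub]
        rw [Finset.sum_congr rfl fun ω _ => h2 ω, Finset.sum_sub_distrib, hz, sub_zero]
        exact (hN.fr.2.2 a).symm
      nth_rewrite 1 [h1]
      rw [← Finset.sum_fiberwise_of_maps_to (s := Finset.univ) (t := Finset.univ.image m) (g := m)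
        (fun ω _ => Finset.mem_image_of_mem _ (Finset.mem_univ _))]
      refine Finset.sum_congr rfl fun n _ => ?_
      rw [Finset.mul_sum]
      refine Finset.sum_congr rfl fun ω hω => ?_
      rw [(Finset.mem_filter.mp hω).2, mul_smul_comm]
    rw [hae]
    refine Submodule.sum_mem _ fun n hn => ?_
    obtain ⟨ω₀, -, hω₀⟩ := Finset.mem_image.mp hn
    have hnN : n ∈ N := by rw [← hω₀]; exact hF.mn ω₀
    refine Submodule.subset_span ⟨⟨n, hnN⟩, _, ?_, rfl⟩
    intro v hv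
    rw [map_sum]
    refine Finset.sum_nbij' (fun ω => ((v, v) : V × V) • ω) (fun ω => ((v, v) : V × V)⁻¹ • ω)
      ?_ ?_ ?_ ?_ ?_
    · intro ω hω
      rw [Finset.mem_filter] at hω ⊢
      exact ⟨Finset.mem_univ _, by rw [hF.me v ω]; exact hω.2⟩
    · intro ω hω
      rw [Finset.mem_filter] at hω ⊢
      refine ⟨Finset.mem_univ _, ?_⟩
      have h1 := hF.me v⁻¹ ω
      have h2 : ((v, v) : V × V)⁻¹ = (v⁻¹, v⁻¹) := rfl
      rw [h2, h1]; exact hω.2
    · intro ω _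
      exact inv_smul_smul _ _
    · intro ω _
      exact smul_inv_smul _ _
    · intro ω _
      have h1 : c (((v, v) : V × V) • ω) a = c ω a := by
        have h2 := hN.fr.2.1 (v, v) ω a
        have h3 : bw R α (v, v) a = a := ha v hv
        rw [h3] at h2
        exact h2
      have h2 : s (σ (((v, v) : V × V) • ω)) = ((v, v) : V × V) • s (σ ω) := by
        rw [← hF.sg v v ω, hF.se]
      rw [map_smul, h1, h2, hN.fr.1 (v, v) (s (σ ω))]
      rfl

end Pool.Agent.PST.UC.H2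
end
end -- Pool.Agent.Helper2_PST.QSC

section -- Pool.Agent.Helper30_PST.BLW

/-!
# Squad PST, block U: the rows BLW, GFX (helper30, edits of BLV by helper59 and GFV by helper49)

`BLV` and `GFV` without the hypothesis that `E` acts through an abelian group: only one element `w₀` of
`W` with `C_E(w₀) = C_E(W)` is used (remark of helper11).  If `Q < W` is closed then no `t(w₀)` is in `Q`.
-/

set_option autoImplicit false

open scoped BigOperators TensorProduct PowerSeries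

noncomputable section

namespace Pool.Agent.PST.U.H30

open Pool.Agent.PFC (tw IsTv)
open Pool.Agent.PFD.D2b (FrR)
open Pool.Agent.PSS
open Pool.Agent.PSS.S0
open Pool.Agent.PSS.S3
open Pool.Agent.PSS.S3.H41 (fx_one fx_of_comm fx_al bq_zero exists_T)
open Pool.Agent.PSS.H28 (bk_up fx_mono)

/-- BLW: the blocks of the generic fibre, from one unit `rt(w₀)`. -/
def BlwStmt : Prop :=
  ∀ (ℓ : ℕ) [Fact ℓ.Prime] (F F' W E As K : Type) [Field F] [CharP F ℓ] [Field F']
    [CharP F' ℓ] [Algebra F⟦X⟧ F'] [CommGroup W] [Fintype W] [Group E] [Finite E] [Ring As]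
    [Algebra F⟦X⟧ As] [Fintype K] (ψ : E →* MulAut W) (γ : W →* As) (lam : As →ₗ[F⟦X⟧] F⟦X⟧)
    (x y : K → As) (w₀ : W), Function.Injective (algebraMap F⟦X⟧ F') → IsPGroup ℓ W →
    ¬ ℓ ∣ Nat.card E → Per F⟦X⟧ ψ γ → Uni ψ γ → RF F⟦X⟧ γ lam x y →
    (∀ e, ψ e w₀ = w₀ → ψ e = 1) → (∀ Q : Subgroup W, ¬ Clo ψ Q → Vsh F⟦X⟧ γ Q) →
    (∃ u : F' ⊗[F⟦X⟧] As, u * ((1 : F') ⊗ₜ[F⟦X⟧] ∑ k, x k * γ w₀ * y k) = 1) →
    ∀ (Q : Subgroup W), ∀ e ∈ FxR (cw F' (bcw (R := F⟦X⟧) (S := F') γ)) ⊤,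
      e * e - e ∈ BKR (cw F' (bcw (R := F⟦X⟧) (S := F') γ)) Q →
      (∀ a ∈ FxR (cw F' (bcw (R := F⟦X⟧) (S := F') γ)) Q,
        e * a - a * e ∈ BKR (cw F' (bcw (R := F⟦X⟧) (S := F') γ)) Q) →
      e ∈ BKR (cw F' (bcw (R := F⟦X⟧) (S := F') γ)) ⊤ →
      e ∈ BKR (cw F' (bcw (R := F⟦X⟧) (S := F') γ)) Q

/-- GFX: the generic fibre is in the class, from one regular element `w₀`. -/
def GfxStmt : Prop :=
  ∀ (ℓ : ℕ) [Fact ℓ.Prime] (F F' W E As K : Type) [Field F] [CharP F ℓ] [Field F']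
    [CharP F' ℓ] [Algebra F⟦X⟧ F'] [CommGroup W] [Fintype W] [Group E] [Finite E] [Ring As]
    [Algebra F⟦X⟧ As] [Fintype K] (ψ : E →* MulAut W) (γ : W →* As) (lam : As →ₗ[F⟦X⟧] F⟦X⟧)
    (x y : K → As) (w₀ : W), Function.Injective (algebraMap F⟦X⟧ F') → IsPGroup ℓ W →
    ¬ ℓ ∣ Nat.card E → Per F⟦X⟧ ψ γ → Uni ψ γ → RF F⟦X⟧ γ lam x y →
    (∀ e, ψ e w₀ = w₀ → ψ e = 1) →
    (∀ Q : Subgroup W, ¬ Clo ψ Q → Vsh F⟦X⟧ γ Q) → Nlw F⟦X⟧ γ w₀ → Etw F γ lam →
    Rel F x y γ w₀ → Cl F' ψ (bcw (R := F⟦X⟧) (S := F') γ)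

theorem blw0 (hCLC : ClcStmt) (hBLS : BlsStmt) (hGFB : GfbStmt) (hBQX : BqxStmt) (hBPU : BpuStmt)
    (hMCK : MckStmt) (hZRT : ZrtStmt) (hFCO : FcoStmt) (hFBK : FbkStmt) : BlwStmt := by
  intro ℓ _ F F' W E As K _ _ _ _ _ _ _ _ _ _ _ _ ψ γ lam x y w hinj hW hE hper0 huni0 hrf0 hw₀
    hvsh hunt
  classical
  obtain ⟨⟨lamS, hlamS, hrf⟩, hper, huni, -⟩ := hGFB F⟦X⟧ F' W E As K ψ γ lam x y hrf0 hper0 huni0
  have hℓF' : (ℓ : F') = 0 := CharP.cast_eq_zero F' ℓ
  have hℓF : (ℓ : F) = 0 := CharP.cast_eq_zero F ℓ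
  have hℓX : (ℓ : F⟦X⟧) = 0 := by
    rw [← map_natCast (PowerSeries.C (R := F)), hℓF, map_zero]
  choose n n' hn1 hn2 hn3 using huni
  intro Q
  induction Q using WellFoundedGT.induction with
  | ind Q ih =>
  intro e he hid hcen htop
  by_cases hQ : Q = ⊤
  · rw [hQ]
    exact htop
  have hup : ∀ Q' : Subgroup W, Q < Q' →
      e ∈ BKR (cw F' (bcw (R := F⟦X⟧) (S := F') γ)) Q' := by
    intro Q' hQ'
    have heQ' : e ∈ FxR (cw F' (bcw (R := F⟦X⟧) (S := F') γ)) Q' := fx_mono _ le_top he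
    refine ih Q' hQ' e he ?_ ?_ htop
    · exact bk_up _ hFCO hFBK ℓ hℓF' hW ψ hper hQ'.le hid
        (Submodule.sub_mem _ (H28.fx_mul _ Q' heQ' heQ') heQ')
    · intro a ha
      exact bk_up _ hFCO hFBK ℓ hℓF' hW ψ hper hQ'.le (hcen a (fx_mono _ hQ'.le ha))
        (Submodule.sub_mem _ (H28.fx_mul _ Q' heQ' ha) (H28.fx_mul _ Q' ha heQ'))
  by_cases hclo : Clo ψ Q
  swap
  · exact hCLC ℓ F⟦X⟧ F' W E As ψ γ hinj hℓX hW hper0 Q (hvsh Q hclo) e he hup hcen
  -- no conjugate of `w` is in `Q`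
  have hwt : ∀ t : E, ψ t w ∉ Q := by
    intro t h
    apply hQ
    rw [eq_top_iff]
    rintro v -
    refine hclo v fun e' he' => ?_
    have h1 : ψ (t⁻¹ * e' * t) w = w := by
      rw [map_mul, map_mul, MulAut.mul_apply, MulAut.mul_apply, he' _ h, map_inv,
        MulAut.inv_apply_self]
    have h2 := hw₀ _ h1
    have h3 : ψ e' = 1 := by
      have h4 : ψ e' = ψ t * ψ (t⁻¹ * e' * t) * (ψ t)⁻¹ := by
        rw [← map_mul, ← map_inv, ← map_mul]
        congr 1
        group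
      rw [h4, h2, mul_one, mul_inv_cancel]
    rw [h3]
    rfl
  obtain ⟨D, _, _, γD, βD, hDq⟩ := hBQX F' W (F' ⊗[F⟦X⟧] As) (bcw (R := F⟦X⟧) (S := F') γ) Q
  obtain ⟨E1, hE1⟩ : ∃ E1 : Subgroup E, ∀ e, e ∈ E1 ↔ ∀ u ∈ Q, ψ e u = u :=
    ⟨{ carrier := {e | ∀ u ∈ Q, ψ e u = u}
       one_mem' := fun u _ => by rw [map_one]; rfl
       mul_mem' := fun {a b} ha hb u hu => by
         rw [map_mul, MulAut.mul_apply, hb u hu, ha u hu]
       inv_mem' := fun {a} ha u hu => by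
         have h1 := ha u hu
         rw [map_inv]
         calc (ψ a)⁻¹ u = (ψ a)⁻¹ (ψ a u) := by rw [h1]
           _ = u := MulAut.inv_apply_self _ (ψ a) u }, fun e => Iff.rfl⟩
  obtain ⟨-, -, lamD, KD, _, xD, yD, hrfD, hlamD⟩ := hBPU ℓ F' W E (F' ⊗[F⟦X⟧] As) D K ψ
    (bcw (R := F⟦X⟧) (S := F') γ) Q γD βD lamS _ _ E1 hℓF' hW hper
    (fun e => ⟨n e, n' e, hn1 e, hn2 e, hn3 e⟩) hrf hDq hE1
  obtain ⟨T, hT1, hT2⟩ := exists_T E1
  have hT3 : ∀ e : E, ∃! t, t ∈ T ∧ ∀ v ∈ Q, (ψ t)⁻¹ v = (ψ e)⁻¹ v := by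
    intro e
    have h1 : ∀ t : E, (∀ v ∈ Q, (ψ t)⁻¹ v = (ψ e)⁻¹ v) ↔ t * e⁻¹ ∈ E1 := by
      intro t
      rw [hE1]
      refine forall₂_congr fun v _ => ?_
      rw [map_mul, map_inv, MulAut.mul_apply]
      constructor
      · intro h
        rw [← h, MulAut.apply_inv_self]
      · intro h
        conv_lhs => rw [← h]
        rw [MulAut.inv_apply_self]
    simp only [h1]
    exact hT2 e
  have h1 := hMCK ℓ F' W E (F' ⊗[F⟦X⟧] As) D K KD ψ (bcw (R := F⟦X⟧) (S := F') γ) Q γD βD lamS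
    _ _ lamD xD yD n n' T hℓF' hW hper hrf hDq hrfD hlamD (fun e => ⟨hn1 e, hn2 e, hn3 e⟩) hT3
    (bcw (R := F⟦X⟧) (S := F') γ w) (fx_al w)
  set r : F' ⊗[F⟦X⟧] As := ∑ k, ((1 : F') ⊗ₜ[F⟦X⟧] x k) * (bcw (R := F⟦X⟧) (S := F') γ w) *
    ((1 : F') ⊗ₜ[F⟦X⟧] y k) with hr
  have h2 : ∀ t, βD (n t * (bcw (R := F⟦X⟧) (S := F') γ w) * n' t) = γD (ψ t w) := by
    intro t
    rw [hn3, mul_assoc, hn1, mul_one, hDq.om]
  simp only [h2] at h1
  -- `βD e * βD r = 0`
  have h3 : βD e * βD r = 0 := by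
    rw [h1, Finset.mul_sum]
    refine Finset.sum_eq_zero fun t _ => ?_
    exact hBLS ℓ F' W E (F' ⊗[F⟦X⟧] As) D KD ψ (bcw (R := F⟦X⟧) (S := F') γ) Q γD βD lamD xD yD e
      (ψ t w) hℓF' hW hper hDq hrfD he hid hcen hup (hwt t)
  -- `r` is a central unit
  have hrc : ∀ c, c * r = r * c :=
    hZRT F' W (F' ⊗[F⟦X⟧] As) K (bcw (R := F⟦X⟧) (S := F') γ) lamS _ _ hrf _ (fx_al w)
  obtain ⟨u, hu⟩ := hunt
  have e1 : (1 : F') ⊗ₜ[F⟦X⟧] (∑ k, x k * γ w * y k) = r := by
    rw [hr, TensorProduct.tmul_sum]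
    refine Finset.sum_congr rfl fun k _ => ?_
    show _ = ((1 : F') ⊗ₜ[F⟦X⟧] x k) * ((1 : F') ⊗ₜ[F⟦X⟧] γ w) * ((1 : F') ⊗ₜ[F⟦X⟧] y k)
    rw [Algebra.TensorProduct.tmul_mul_tmul, Algebra.TensorProduct.tmul_mul_tmul, one_mul, one_mul]
  rw [e1] at hu
  have hru : r * u = 1 := by rw [← hrc, hu]
  have huc : ∀ c, c * u = u * c := by
    intro c
    calc c * u = u * r * c * u := by rw [hu, one_mul]
      _ = u * (r * c) * u := by rw [mul_assoc u r c]
      _ = u * (c * r) * u := by rw [hrc]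
      _ = u * c * (r * u) := by simp only [mul_assoc]
      _ = u * c := by rw [hru, mul_one]
  have hrfx : r ∈ FxR (cw F' (bcw (R := F⟦X⟧) (S := F') γ)) Q := fx_of_comm fun v => hrc _
  have hufx : u ∈ FxR (cw F' (bcw (R := F⟦X⟧) (S := F') γ)) Q := fx_of_comm fun v => huc _
  have h4 : βD e = 0 := by
    have h5 : βD r * βD u = 1 := by
      rw [← hDq.mul _ hrfx _ hufx, hru, hDq.one]
    calc βD e = βD e * (βD r * βD u) := by rw [h5, mul_one]
      _ = 0 := by rw [← mul_assoc, h3, zero_mul]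
  exact (hDq.ker e (fx_mono _ le_top he)).1 h4

/-- Row BLW. -/
theorem blw (hCLC : ClcStmt) : BlwStmt :=
  blw0 hCLC All30.bls All30.gfb All30.bqx All30.bpu All30.mck All30.zrt All30.fco All30.fbk

theorem gfx0 (hBOT : BotStmt) (hUNC : UncStmt) (hUNR : UnrStmt) (hBLW : BlwStmt) (hGFB : GfbStmt)
    (hZRT : ZrtStmt) : GfxStmt := by
  intro ℓ _ F F' W E As K _ _ _ _ _ _ _ _ _ _ _ _ ψ γ lam x y w₀ hinj hW hE hper0 huni0 hrf0
    hw₀ hvsh hnl het hrel
  classical
  obtain ⟨⟨lamS, hlamS, hrf⟩, hper, huni, -⟩ := hGFB F⟦X⟧ F' W E As K ψ γ lam x y hrf0 hper0 huni0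
  have hℓF : (ℓ : F) = 0 := CharP.cast_eq_zero F ℓ
  have hℓX : (ℓ : F⟦X⟧) = 0 := by
    rw [← map_natCast (PowerSeries.C (R := F)), hℓF, map_zero]
  have hbot := hBOT ℓ F⟦X⟧ F' W E As ψ γ w₀ hinj hℓX hW hper0 hw₀ hvsh hnl
  obtain ⟨u, hu⟩ := hUNC ℓ F F' W E As K ψ γ lam x y hinj hW hE hper0 huni0 hrf0 het hbot
  have hfx : ∀ w : W, γ w ∈ FxR (cw F⟦X⟧ γ) ⊤ := by
    intro w v _
    change γ v * (γ w * γ v⁻¹) = γ w
    rw [← map_mul, ← map_mul, mul_comm w, mul_inv_cancel_left]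
  have hcw : ∀ (w : W) (c : As), (∑ k, x k * γ w * y k) * c = c * ∑ k, x k * γ w * y k :=
    fun w c => (hZRT F⟦X⟧ W As K γ lam x y hrf0 (γ w) (hfx w) c).symm
  have hr1 : ∑ k, x k * γ 1 * y k = ∑ k, x k * y k :=
    Finset.sum_congr rfl fun k _ => by rw [map_one, mul_one]
  have hc1 : ∀ c : As, (∑ k, x k * y k) * c = c * ∑ k, x k * y k := by
    intro c
    have := hcw 1 c
    rwa [hr1] at this
  have hunit : ∃ u : F' ⊗[F⟦X⟧] As, u * ((1 : F') ⊗ₜ[F⟦X⟧] ∑ k, x k * γ w₀ * y k) = 1 := by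
    obtain ⟨d, a, ha0, ha⟩ := hrel
    exact hUNR F F' As _ _ u d a hinj (hcw w₀) hc1 ha0 ha hu
  refine ⟨?_, hper, huni, ⟨lamS, K, inferInstance, _, _, hrf, u, ?_⟩,
    hBLW ℓ F F' W E As K ψ γ lam x y w₀ hinj hW hE hper0 huni0 hrf0 hw₀ hvsh hunit⟩
  · obtain ⟨Ω, _, _, b, c, hfr, -⟩ := hper
    refine ⟨Submodule.fg_def.2 ⟨Set.range b, Set.finite_range b, ?_⟩⟩
    rw [eq_top_iff]
    rintro m -
    rw [← hfr.2.2 m]
    exact Submodule.sum_mem _ fun t _ => Submodule.smul_mem _ _ (Submodule.subset_span ⟨t, rfl⟩)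
  · have e1 : ∑ k, (1 : F') ⊗ₜ[F⟦X⟧] x k * (1 : F') ⊗ₜ[F⟦X⟧] y k =
        (1 : F') ⊗ₜ[F⟦X⟧] ∑ k, x k * y k := by
      rw [TensorProduct.tmul_sum]
      refine Finset.sum_congr rfl fun k _ => ?_
      rw [Algebra.TensorProduct.tmul_mul_tmul, one_mul]
    rw [e1]
    exact hu

/-- Row GFX. -/
theorem gfx (hBOT : BotStmt) (hUNC : UncStmt) (hUNR : UnrStmt) (hCLC : ClcStmt) : GfxStmt :=
  gfx0 hBOT hUNC hUNR (blw hCLC) All30.gfb All30.zrt

end Pool.Agent.PST.U.H30
end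
end -- Pool.Agent.Helper30_PST.BLW

section -- Pool.Agent.Helper30_PST.ETW

/-!
# Squad PST, block UC: ETW (helper30): etaleness of the deformation, from the closed case (block ET)
-/

set_option autoImplicit false

open scoped BigOperators TensorProduct PowerSeries

noncomputable section

namespace Pool.Agent.PST.UC.H30

open Pool.Agent.PFC (tw IsTv)
open Pool.Agent.PFD.D2 (Cdv FibG)
open Pool.Agent.PFD.D2b (FrR)
open Pool.Agent.PSS
open Pool.Agent.PSS.S0

/-- the action on the quotient by a stable subgroup -/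
theorem ex_quo {V E : Type} [CommGroup V] [Group E] (φ : E →* MulAut V) (W : Subgroup V)
    (h : ∀ e : E, ∀ w ∈ W, φ e w ∈ W) :
    ∃ φH : E →* MulAut (V ⧸ W), ∀ (e : E) (v : V), φH e (v : V ⧸ W) = (φ e v : V ⧸ W) := by
  have hm : ∀ e : E, W ≤ W.comap (φ e).toMonoidHom := fun e w hw => h e w hw
  have hi : ∀ (e : E) (v : V), φ e⁻¹ (φ e v) = v := by
    intro e v
    rw [← MulAut.mul_apply, ← map_mul, inv_mul_cancel, map_one, MulAut.one_apply]
  have hi' : ∀ (e : E) (v : V), φ e (φ e⁻¹ v) = v := by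
    intro e v
    rw [← MulAut.mul_apply, ← map_mul, mul_inv_cancel, map_one, MulAut.one_apply]
  let g : E → (V ⧸ W →* V ⧸ W) := fun e => QuotientGroup.map W W (φ e).toMonoidHom (hm e)
  have hg : ∀ (e : E) (v : V), g e (v : V ⧸ W) = (φ e v : V ⧸ W) := fun e v => rfl
  refine ⟨{
    toFun := fun e =>
      { toFun := g e
        invFun := g e⁻¹
        left_inv := ?_
        right_inv := ?_
        map_mul' := fun a b => map_mul (g e) a b }
    map_one' := ?_
    map_mul' := ?_ }, fun e v => hg e v⟩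
  · intro x
    induction x using QuotientGroup.induction_on with
    | H v => rw [hg, hg, hi]
  · intro x
    induction x using QuotientGroup.induction_on with
    | H v => rw [hg, hg, hi']
  · ext x
    induction x using QuotientGroup.induction_on with
    | H v =>
      show g 1 (v : V ⧸ W) = (v : V ⧸ W)
      rw [hg, map_one, MulAut.one_apply]
  · intro e f
    ext x
    induction x using QuotientGroup.induction_on with
    | H v =>
      show g (e * f) (v : V ⧸ W) = g e (g f (v : V ⧸ W))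
      rw [hg, hg, hg, map_mul, MulAut.mul_apply]

/-- the image of `Q` in `A(Q)` is central -/
theorem bq_cen {R V A B : Type} [CommRing R] [CommGroup V] [Ring A] [Algebra R A] [Ring B]
    [Algebra R B] {α : V →* A} {Q : Subgroup V} {αB : V →* B} {β : A → B}
    (h : IsBQ R α Q αB β) : ∀ n ∈ Q, ∀ b, αB n * b = b * αB n := by
  intro n hn b
  obtain ⟨a, ha, rfl⟩ := h.surj b
  have hfn : α n ∈ FxR (cw R α) Q := by
    intro u _
    show α u * (α n * α u⁻¹) = α n
    rw [← mul_assoc, ← map_mul, mul_comm u n, map_mul, mul_assoc, ← map_mul, mul_inv_cancel,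
      map_one, mul_one]
  have hcm : α n * a = a * α n := by
    have h1 : α n * (a * α n⁻¹) = a := ha n hn
    calc α n * a = α n * (a * (α n⁻¹ * α n)) := by
          rw [← map_mul, inv_mul_cancel, map_one, mul_one]
      _ = (α n * (a * α n⁻¹)) * α n := by simp only [mul_assoc]
      _ = a * α n := by rw [h1]
  rw [← h.om, ← h.mul _ hfn _ ha, ← h.mul _ ha _ hfn, hcm]

theorem etw (prt : PrtStmt) (qfa : QfaStmt) (hsf : HsfStmt) (qrg : QrgStmt) (qtx : QtxStmt)
    (qtf : QtfStmt) (qcl : QclStmt) (bfn : BfnStmt) (qlu : QluStmt) (bqx : BqxStmt)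
    (bcl : BclStmt) (psc : PscStmt) (etc : ET.EtcStmt) : EtwStmt := by
  classical
  intro ℓ _ F V E A As K K0 _ _ _ _ _ _ _ _ _ _ _ _ _ _ _ φ α W _ ψ γ q lam lam0 x y x0 y0 hV
    hE hWt D Bs KB _ _ _ γB βs lamB xB yB hBs hRFB hlamB
  have hℓ : (ℓ : F) = 0 := CharP.cast_eq_zero F ℓ
  obtain ⟨B, _, _, αB, β, hB⟩ := bqx F V A α W
  -- the stabiliser of `W`
  let E1 : Subgroup E :=
    { carrier := {e | ∀ w ∈ W, φ e w = w}
      one_mem' := fun w _ => by rw [map_one, MulAut.one_apply]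
      mul_mem' := by
        intro a b ha hb w hw
        rw [map_mul, MulAut.mul_apply, hb w hw, ha w hw]
      inv_mem' := by
        intro a ha w hw
        have h1 := ha w hw
        rw [map_inv]
        exact (MulEquiv.symm_apply_eq _).2 h1.symm }
  have hE1 : ∀ e, e ∈ E1 ↔ ∀ w ∈ W, φ e w = w := fun e => Iff.rfl
  have hcB : Cl F (φ.comp E1.subtype) αB := bcl ℓ F V E A B φ α W αB β E1 hV hE D.cl hB hE1
  have hcE1 : ¬ ℓ ∣ Nat.card E1 := fun h => hE (h.trans (Subgroup.card_subgroup_dvd_card E1))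
  -- the quotients
  obtain ⟨H, _, _, αH, π, hH⟩ := qtx F V B αB W (bq_cen hB)
  obtain ⟨Hs, _, _, γH, πs, hHs⟩ := qtx F⟦X⟧ W Bs γB ⊤ (bq_cen hBs)
  obtain ⟨qB, hqB, hqBsc, hqBs, hqBk, hqBw⟩ := prt ℓ F V E A As B Bs α W ψ γ q αB β γB βs hV
    D.per D.sc D.surj D.ker D.qw hB hBs
  obtain ⟨q1, hq1, hq1sc, hq1s, hq1k⟩ := qfa F V B Bs H Hs W αB γB qB αH γH π πs hH hHs hqBsc
    hqBs hqBk hqBw
  obtain ⟨c, hcπ, hcκ⟩ := psc F
  let f : FibG Hs H c :=
    { q := q1
      sc := fun r => by rw [hq1sc, hcκ]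
      surj := hq1s
      ker := fun h hh => by rw [hcπ]; exact hq1k h hh }
  -- the class of `H`
  obtain ⟨φH, hφH⟩ := ex_quo (φ.comp E1.subtype) W (fun e w hw => by
    show φ (e : E) w ∈ W
    rw [e.2 w hw]
    exact hw)
  have hft : Fintype (V ⧸ W) := Fintype.ofFinite _
  obtain ⟨Ω, _, _, b, cc, hfr⟩ := bfn ℓ F V E A B K0 φ α W αB β lam0 x0 y0 E1 hℓ hV D.cl.per
    D.rf0 hB hE1
  have hClH : Cl F φH αH := qcl ℓ F V E1 B H Ω (φ.comp E1.subtype) αB W φH αH π b cc hV hcE1 hcB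
    hfr hH (fun e n hn => e.2 n hn) hφH
  -- the form of `Hs`
  have hsub : Subsingleton (W ⧸ (⊤ : Subgroup W)) := QuotientGroup.subsingleton_quotient_top
  have hfs : Fintype (W ⧸ (⊤ : Subgroup W)) := Fintype.ofFinite _
  obtain ⟨T, hT, hRFH⟩ := qtf F⟦X⟧ W Bs Hs KB γB ⊤ γH πs lamB xB yB hHs hRFB
  have hγ1 : ∀ v : W ⧸ (⊤ : Subgroup W), γH v = 1 := by
    intro v
    rw [Subsingleton.elim v 1, map_one]
  have huniv : ∀ g : W ⧸ (⊤ : Subgroup W) → Hs, ∑ v, g v = g 1 := by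
    intro g
    have : (Finset.univ : Finset (W ⧸ (⊤ : Subgroup W))) = {1} := by
      ext v
      simp [Subsingleton.elim v 1]
    rw [this, Finset.sum_singleton]
  have hS : ET.SFr F⟦X⟧ T (fun k => πs (xB k)) (fun k => πs (yB k)) := by
    refine ⟨hRFH.sym, fun a => ?_, fun a => ?_⟩
    · refine Eq.trans (Finset.sum_congr rfl fun k _ => ?_) (hRFH.e1 a)
      rw [huniv, hγ1, hγ1, one_mul, mul_one]
    · refine Eq.trans (Finset.sum_congr rfl fun k _ => ?_) (hRFH.e2 a)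
      rw [huniv, hγ1, hγ1, one_mul, mul_one]
  obtain ⟨hfin, hfree⟩ := hsf F Hs KB T _ _ hS.e1
  -- the regularity datum
  obtain ⟨r, la, xx, t, h1, h2, h3, h4, h5, h6, h7⟩ := qrg ℓ F V E A As B Bs H Hs φ α W ψ γ q αB
    β γB βs qB αH γH π πs q1 hV D.ch.pw D.cl D.per D.sc hq1sc hB hBs hqB hH hHs hq1 D.reg
  have hED : ET.EDat F la xx t := ⟨h1, h2, h3, h4, h5⟩
  have hRg : ET.Rgd ℓ c f αH la xx t := by
    refine ⟨fun v => ?_, fun u v => ?_⟩
    · obtain ⟨w, G, hw, hG, hq⟩ := h6 v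
      refine ⟨w, G, hw, ?_, hq⟩
      rw [hcπ]
      exact hG
    · obtain ⟨a, b, d, ha, hb, hd, hq⟩ := h7 u v
      refine ⟨a, b, d, ha, hb, ?_, hq⟩
      rw [hcπ]
      exact hd
  -- block ET
  have hcp : CharP F⟦X⟧ ℓ :=
    charP_of_injective_ringHom (PowerSeries.C_injective (R := F)) ℓ
  have hpH : IsPGroup ℓ (V ⧸ W) := hV.to_quotient W
  have hel : ∀ v : V ⧸ W, v ^ ℓ = 1 := by
    intro v
    induction v using QuotientGroup.induction_on with
    | H v =>
      rw [← QuotientGroup.mk_pow]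
      exact (QuotientGroup.eq_one_iff _).2 (D.ch.pw v)
  have hfree1 : ∀ (e : E1) (v : V ⧸ W), φH e v = v → v = 1 ∨ φH e = 1 := by
    intro e v hv
    induction v using QuotientGroup.induction_on with
    | H v =>
      by_cases hvW : v ∈ W
      · exact Or.inl ((QuotientGroup.eq_one_iff _).2 hvW)
      · right
        have h8 : φ (e : E) v * v⁻¹ ∈ W := by
          rw [hφH] at hv
          have h9 := QuotientGroup.eq.1 hv.symm
          rwa [mul_comm] at h9
        have h10 := D.ch.fr e v hvW h8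
        ext x
        induction x using QuotientGroup.induction_on with
        | H u =>
          rw [hφH, MulAut.one_apply]
          refine (QuotientGroup.eq.2 ?_).symm
          rw [mul_comm]
          exact h10 u
  obtain ⟨z, hzu, hzc, hz⟩ := etc ℓ r F⟦X⟧ F (V ⧸ W) E1 H Hs KB c f φH αH la xx t T
    (fun k => πs (xB k)) (fun k => πs (yB k))
    (fun a => by
      rw [hcκ]
      exact PowerSeries.constantCoeff_C a)
    hpH hel hcE1 hfree1 hClH hED hRg hS
  obtain ⟨z', hz'⟩ := hzu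
  refine qlu ℓ F (⊤ : Subgroup W) Bs Hs (γB.comp (⊤ : Subgroup W).subtype) πs
    (∑ k, xB k * yB k) r ((z'⁻¹ : Hsˣ) : Hs) ((hV.to_subgroup W).to_subgroup ⊤) ?_ hHs.surj
    (fun a ha => (hHs.ker a).1 ha) ?_
  · intro n b
    exact hHs.cen n n.2 b
  · have h11 : πs (∑ k, xB k * yB k) = ∑ k, πs (xB k) * πs (yB k) := by
      rw [map_sum]
      exact Finset.sum_congr rfl fun k _ => map_mul _ _ _
    rw [h11, hz, hcπ, mul_smul_comm, ← hz', Units.inv_mul]

end Pool.Agent.PST.UC.H30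
end
end -- Pool.Agent.Helper30_PST.ETW

section -- Pool.Agent.Helper30_PST.GFW

/-!
# Squad PST, block U: GFW (helper30): the generic fibre of the deformation is in the class
-/

set_option autoImplicit false

open scoped BigOperators TensorProduct PowerSeries

noncomputable section

namespace Pool.Agent.PST.U.H30

open Pool.Agent.PFC (tw IsTv)
open Pool.Agent.PFD.D2 (Cdv FibG)
open Pool.Agent.PFD.D2b (FrR)
open Pool.Agent.PSS
open Pool.Agent.PSS.S0
open Pool.Agent.PSS.S3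
open Pool.Agent.PST.UC (EtwStmt)

/-- GFW with a regular element `w₀` as a hypothesis. -/
def Gw0Stmt : Prop :=
  ∀ (ℓ : ℕ) [Fact ℓ.Prime] (F F' V E A As K K0 Ω : Type) [Field F] [IsAlgClosed F] [CharP F ℓ]
    [Field F'] [IsAlgClosed F'] [CharP F' ℓ] [Algebra F⟦X⟧ F'] [CommGroup V]
    [Fintype V] [Group E] [Fintype E] [Ring A] [Algebra F A] [Ring As] [Algebra F⟦X⟧ As]
    [Module.Finite F⟦X⟧ As] [Module.Free F⟦X⟧ As] [Fintype K] [Fintype K0] [Fintype Ω]
    [MulAction (V × V) Ω] (φ : E →* MulAut V) (α : V →* A) (W : Subgroup V) [Fintype W]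
    (ψ : E →* MulAut W) (γ : W →* As) (q : As →+* A) (lam : As →ₗ[F⟦X⟧] F⟦X⟧)
    (lam0 : A →ₗ[F] F) (x y : K → As) (x0 y0 : K0 → A) (b : Ω → A) (cc : Ω → (A →ₗ[F] F))
    (w₀ : W),
    Function.Injective (algebraMap F⟦X⟧ F') → IsPGroup ℓ V → ¬ ℓ ∣ Nat.card E → W ≠ ⊤ →
    Dpt ℓ F φ α W ψ γ q lam lam0 x y x0 y0 → FrR (bw F α) b cc →
    (∀ e, ψ e w₀ = w₀ → ψ e = 1) →
    Nonempty (Olf ℓ F α W γ q lam lam0 x y x0 y0 b cc) →
    Cl F' ψ (bcw (R := F⟦X⟧) (S := F') γ)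

theorem gw0 (gfx : GfxStmt) (olu : OluStmt) (clo : CloStmt) (rtu : RtuStmt) (etw : EtwStmt) :
    Gw0Stmt := by
  classical
  intro ℓ _ F F' V E A As K K0 Ω _ _ _ _ _ _ _ _ _ _ _ _ _ _ _ _ _ _ _ _ _ φ α W _ ψ γ q lam
    lam0 x y x0 y0 b cc w₀ hinj hV hE hWt D hfr hw₀ hO
  obtain ⟨O⟩ := hO
  let _ := O.iR
  let _ := O.iA
  let _ := O.iM
  let _ := O.jK
  let _ := O.jR
  let _ := O.jB
  let _ := O.jA
  let _ := O.jM
  have _ := O.iD
  have _ := O.iP
  have _ := O.iC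
  have _ := O.iF
  have _ := O.iL
  have _ := O.jZ
  -- `A` is finite-dimensional
  have hfd : FiniteDimensional F A := by
    refine ⟨⟨Finset.univ.image b, ?_⟩⟩
    rw [eq_top_iff]
    intro n _
    rw [← hfr.2.2 n]
    refine Submodule.sum_mem _ fun ω _ => Submodule.smul_mem _ _ (Submodule.subset_span ?_)
    simp
  -- the unit `rt(1)` of `A`
  have hu1 : ∃ u, u * ∑ k, x0 k * y0 k = 1 := by
    refine ⟨O.f.q O.u', ?_⟩
    have h := congrArg O.f.q O.unt
    rw [map_mul, map_one] at h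
    have h2 : O.f.q (rt O.x' O.y' 1) = ∑ k, x0 k * y0 k := by
      unfold rt
      rw [map_sum]
      refine Finset.sum_congr rfl fun k _ => ?_
      rw [map_mul, map_mul, map_one, mul_one, O.lft.qx, O.lft.qy]
    rwa [h2] at h
  have hu := rtu ℓ F V E A K0 φ α lam0 x0 y0 hV hE D.cl D.rf0 hu1
  have hxs : (fun k => O.θ (O.xs k)) = x := funext O.xr
  have hys : (fun k => O.θ (O.ys k)) = y := funext O.yr
  have hol := olu ℓ O.R F V A As O.A' O.KK O.BB K0 K Ω W O.cv α lam0 x0 y0 b cc O.f O.α' O.lam'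
    O.x' O.y' O.b' O.cc' O.u' O.C O.D O.P O.m γ q O.θ O.Λ O.xs O.ys O.hp hV O.lft O.unt
    (fun w => hu w) O.trv O.mm D.ker O.θs O.θj O.θk O.θw O.θq O.rfs w₀
  rw [hxs, hys] at hol
  exact gfx ℓ F F' W E As K ψ γ lam x y w₀ hinj (hV.to_subgroup W) hE D.per D.uni D.rf hw₀
    (clo ℓ F V E A As φ α W ψ γ q hV hE D.cl D.rs D.per D.sc D.surj D.ker D.qw) hol.1
    (etw ℓ F V E A As K K0 φ α W ψ γ q lam lam0 x y x0 y0 hV hE hWt D) hol.2

/-- GFW -/
theorem gfw (gfx : GfxStmt) (olu : OluStmt) (clo : CloStmt) (rtu : RtuStmt) (etw : EtwStmt) :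
    GfwStmt := by
  intro ℓ _ F F' V E A As K K0 Ω _ _ _ _ _ _ _ _ _ _ _ _ _ _ _ _ _ _ _ _ _ φ α W _ ψ γ q lam
    lam0 x y x0 y0 b cc hinj hV hE hWt D hfr _ hO
  obtain ⟨w, hw, hg⟩ := D.ch.gen
  refine gw0 gfx olu clo rtu etw ℓ F F' V E A As K K0 Ω φ α W ψ γ q lam lam0 x y x0 y0 b cc
    ⟨w, hw⟩ hinj hV hE hWt D hfr (fun e he => ?_) hO
  have h1 : φ e w = w := by
    rw [← D.rs e ⟨w, hw⟩, he]
  ext u
  rw [D.rs e u, MulAut.one_apply]
  exact hg e h1 u u.2

end Pool.Agent.PST.U.H30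
end
end -- Pool.Agent.Helper30_PST.GFW

section -- Pool.Agent.Helper30_PST.QCL

/-!
# PST, row QCL (helper24): the quotient is in the class
-/

open scoped BigOperators TensorProduct PowerSeries

noncomputable section

namespace Pool.Agent.PST.UC.H30Q

open Pool.Agent.PFC (tw IsTv)
open Pool.Agent.PFD.D2b (FrR)
open Pool.Agent.PSS
open Pool.Agent.PSS.S0
open Pool.Agent.PST.UC

section aux

variable {R V A : Type} [CommRing R] [CommGroup V] [Ring A] [Algebra R A]

theorem mem_fx (α : V →* A) (P : Subgroup V) (a : A) :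
    a ∈ FxR (cw R α) P ↔ ∀ h ∈ P, α h * a = a * α h := by
  have key : ∀ h : V, cw R α h a = α h * (a * α h⁻¹) := fun h => rfl
  constructor
  · intro ha h hh
    have h1 : cw R α h a = a := ha h hh
    rw [key h] at h1
    have h2 : α h * (a * α h⁻¹) * α h = a * α h := by rw [h1]
    have h3 : α h⁻¹ * α h = 1 := by rw [← map_mul, inv_mul_cancel, map_one]
    rw [mul_assoc, mul_assoc, h3, mul_one] at h2
    exact h2
  · intro ha h hh
    change cw R α h a = a
    have h3 : α h * α h⁻¹ = 1 := by rw [← map_mul, mul_inv_cancel, map_one]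
    rw [key h, ← mul_assoc, ha h hh, mul_assoc, h3, mul_one]

theorem fx_mul (α : V →* A) (P : Subgroup V) {a b : A} (ha : a ∈ FxR (cw R α) P)
    (hb : b ∈ FxR (cw R α) P) : a * b ∈ FxR (cw R α) P := by
  rw [mem_fx] at *
  intro h hh
  rw [← mul_assoc, ha h hh, mul_assoc, hb h hh, mul_assoc]

theorem fx_one (α : V →* A) (P : Subgroup V) : (1 : A) ∈ FxR (cw R α) P := by
  rw [mem_fx]
  intro h _
  rw [mul_one, one_mul]

theorem fx_al (α : V →* A) (P : Subgroup V) (v : V) : α v ∈ FxR (cw R α) P := by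
  rw [mem_fx]
  intro h _
  rw [← map_mul, ← map_mul, mul_comm]

theorem fx_mono (α : V →* A) {P P' : Subgroup V} (hP : P ≤ P') {a : A}
    (ha : a ∈ FxR (cw R α) P') : a ∈ FxR (cw R α) P := fun h hh => ha h (hP hh)

/-- polynomials in a fixed element are fixed -/
theorem fx_aeval (α : V →* A) (P : Subgroup V) {a : A} (ha : a ∈ FxR (cw R α) P)
    (g : Polynomial R) : Polynomial.aeval a g ∈ FxR (cw R α) P := by
  induction g using Polynomial.induction_on' with
  | add p q hp hq =>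
    rw [map_add]
    exact (FxR (cw R α) P).add_mem hp hq
  | monomial n r =>
    rw [Polynomial.aeval_monomial, ← Algebra.smul_def]
    refine (FxR (cw R α) P).smul_mem r ?_
    induction n with
    | zero => rw [pow_zero]; exact fx_one α P
    | succ n ih => rw [pow_succ]; exact fx_mul α P ih ha

theorem bk_bot {H M : Type} [Group H] [AddCommGroup M] [Module R M] (ρ : H →* (M →ₗ[R] M))
    {m : M} (hm : m ∈ BKR ρ ⊥) : m = 0 := by
  have h1 : BKR ρ (⊥ : Subgroup H) ≤ ⊥ := by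
    refine Submodule.span_le.2 ?_
    rintro n ⟨P', S, m', hlt, _⟩
    exact absurd hlt not_lt_bot
  exact (Submodule.mem_bot R).1 (h1 hm)

end aux

section brauer

variable {R V A B : Type} [CommRing R] [CommGroup V] [Ring A] [Algebra R A] [Ring B] [Algebra R B]

theorem aug_fx (α : V →* A) (N Q : Subgroup V) {z : A}
    (hz : z ∈ Aug R (α.comp N.subtype) (FxR (cw R α) Q)) : z ∈ FxR (cw R α) Q := by
  have h1 : Aug R (α.comp N.subtype) (FxR (cw R α) Q) ≤ FxR (cw R α) Q := by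
    refine Submodule.span_le.2 ?_
    rintro _ ⟨n, b, hb, rfl⟩
    exact fx_mul α Q ((FxR (cw R α) Q).sub_mem (fx_al α Q n) (fx_one α Q)) hb
  exact h1 hz

theorem be_sub (α : V →* A) (Q : Subgroup V) (αB : V →* B) (β : A → B) (h : IsBQ R α Q αB β)
    {a b : A} (ha : a ∈ FxR (cw R α) Q) (hb : b ∈ FxR (cw R α) Q) :
    β (a - b) = β a - β b := by
  have h1 : β (a - b + b) = β (a - b) + β b :=
    h.add _ ((FxR (cw R α) Q).sub_mem ha hb) _ hb
  rw [sub_add_cancel] at h1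
  rw [h1, add_sub_cancel_right]

/-- the Brauer map sends the augmentation part into the augmentation ideal -/
theorem be_aug (α : V →* A) (N Q : Subgroup V) (αB : V →* B) (β : A → B)
    (h : IsBQ R α Q αB β) {z : A} (hz : z ∈ Aug R (α.comp N.subtype) (FxR (cw R α) Q)) :
    β z ∈ Aug R (αB.comp N.subtype) ⊤ := by
  have h0 : β 0 = 0 := by
    have h1 := be_sub α Q αB β h (fx_one α Q) (fx_one α Q)
    rwa [sub_self, sub_self] at h1
  unfold Aug at hz
  induction hz using Submodule.span_induction with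
  | mem x hx =>
    obtain ⟨n, b, hb, rfl⟩ := hx
    refine Submodule.subset_span ⟨n, β b, trivial, ?_⟩
    change β ((α n - 1) * b) = (αB n - 1) * β b
    rw [h.mul _ ((FxR (cw R α) Q).sub_mem (fx_al α Q n) (fx_one α Q)) _ hb,
      be_sub α Q αB β h (fx_al α Q n) (fx_one α Q), h.om, h.one]
  | zero => rw [h0]; exact Submodule.zero_mem _
  | add x y hx hy ihx ihy =>
    rw [h.add x (aug_fx α N Q hx) y (aug_fx α N Q hy)]
    exact Submodule.add_mem _ ihx ihy
  | smul r x hx ih =>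
    rw [h.smul r x (aug_fx α N Q hx)]
    exact Submodule.smul_mem _ r ih

/-- elements of the augmentation ideal of the Brauer quotient lift -/
theorem aug_lift (α : V →* A) (N Q : Subgroup V) (αB : V →* B) (β : A → B)
    (h : IsBQ R α Q αB β) {w : B} (hw : w ∈ Aug R (αB.comp N.subtype) ⊤) :
    ∃ z ∈ Aug R (α.comp N.subtype) (FxR (cw R α) Q), β z = w := by
  have h0 : β 0 = 0 := by
    have h1 := be_sub α Q αB β h (fx_one α Q) (fx_one α Q)
    rwa [sub_self, sub_self] at h1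
  unfold Aug at hw
  induction hw using Submodule.span_induction with
  | mem x hx =>
    obtain ⟨n, b, _, rfl⟩ := hx
    obtain ⟨a, ha, rfl⟩ := h.surj b
    refine ⟨(α n - 1) * a, Submodule.subset_span ⟨n, a, ha, rfl⟩, ?_⟩
    change β ((α n - 1) * a) = (αB n - 1) * β a
    rw [h.mul _ ((FxR (cw R α) Q).sub_mem (fx_al α Q n) (fx_one α Q)) _ ha,
      be_sub α Q αB β h (fx_al α Q n) (fx_one α Q), h.om, h.one]
  | zero => exact ⟨0, Submodule.zero_mem _, h0⟩
  | add x y hx hy ihx ihy =>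
    obtain ⟨z, hz, rfl⟩ := ihx
    obtain ⟨z', hz', rfl⟩ := ihy
    exact ⟨z + z', Submodule.add_mem _ hz hz',
      h.add _ (aug_fx α N Q hz) _ (aug_fx α N Q hz')⟩
  | smul r x hx ih =>
    obtain ⟨z, hz, rfl⟩ := ih
    exact ⟨r • z, Submodule.smul_mem _ r hz, h.smul r z (aug_fx α N Q hz)⟩

end brauer

/-- the elements which act trivially on `Q` -/
def cenE {V E : Type} [CommGroup V] [Group E] (φ : E →* MulAut V) (Q : Subgroup V) :
    Subgroup E where
  carrier := {e | ∀ q ∈ Q, φ e q = q}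
  one_mem' := fun q _ => by rw [map_one]; rfl
  mul_mem' := by
    intro a b ha hb q hq
    rw [map_mul, MulAut.mul_apply, hb q hq, ha q hq]
  inv_mem' := by
    intro a ha q hq
    rw [map_inv]
    have h1 := ha q hq
    have h2 : (φ a)⁻¹ (φ a q) = q := by
      rw [← MulAut.mul_apply, inv_mul_cancel, MulAut.one_apply]
    rw [h1] at h2
    exact h2

/-- row QCL -/
theorem qcl (cil : CilStmt) (qrf : QtfStmt) (qfr : QfrStmt) (qsc : QscStmt) : QclStmt := by
  classical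
  intro ℓ _ F V E A H Ω _ _ _ _ _ _ _ _ _ _ _ _ φ α N _ φH αH π b c hV hE hCl hN hQt hφN hφH
  have hℓ : (ℓ : F) = 0 := CharP.cast_eq_zero F ℓ
  obtain ⟨Ω', i1, i2, b', c', σ, s, m, hq⟩ :=
    qfr ℓ F V E A H Ω φ α N φH αH π b c hV hE hQt hN hφN hφH
  obtain ⟨S, hS, hP⟩ :=
    qsc ℓ F V E A H Ω Ω' φ α N φH αH π b c b' c' σ s m hℓ hV hQt hN hq
  obtain ⟨lam, K, iK, x, y, hRF, u, hu⟩ := hCl.rt
  refine ⟨?_, ?_, ?_, ?_, ?_⟩
  · have := hCl.fin
    exact Module.Finite.of_surjective π.toLinearMap hQt.surj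
  · exact ⟨Ω', i1, i2, b', c', hq.fr, hq.st⟩
  · intro e
    obtain ⟨z, z', h1, h2, h3⟩ := hCl.uni e
    refine ⟨π z, π z', by rw [← map_mul, h1, map_one], by rw [← map_mul, h2, map_one], ?_⟩
    intro w
    obtain ⟨v, rfl⟩ := QuotientGroup.mk_surjective w
    rw [hφH, hQt.om, hQt.om, ← map_mul, ← map_mul, h3]
  · have : Fintype N := Fintype.ofFinite _
    obtain ⟨lamH, _, hRF2⟩ := qrf F V A H K α N αH π lam x y hQt hRF
    refine ⟨lamH, K, iK, _, _, hRF2, π u, ?_⟩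
    have h1 : ∑ k, π (x k) * π (y k) = π (∑ k, x k * y k) := by
      rw [map_sum]
      exact Finset.sum_congr rfl fun k _ => (map_mul π _ _).symm
    rw [h1, ← map_mul, hu, map_one]
  · intro Q' e he hee hcom heT
    -- the preimage
    have hNQ : N ≤ Q'.comap (QuotientGroup.mk' N) := by
      intro n hn
      rw [Subgroup.mem_comap, QuotientGroup.mk'_apply, (QuotientGroup.eq_one_iff n).2 hn]
      exact Q'.one_mem
    generalize hQdef : Q'.comap (QuotientGroup.mk' N) = Q at hNQ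
    have hQm : Q.map (QuotientGroup.mk' N) = Q' := by
      rw [← hQdef]
      exact Subgroup.map_comap_eq_self_of_surjective (QuotientGroup.mk'_surjective N) Q'
    have hTm : (⊤ : Subgroup V).map (QuotientGroup.mk' N) = ⊤ :=
      Subgroup.map_top_of_surjective _ (QuotientGroup.mk'_surjective N)
    obtain ⟨p1, p2, p3, p4, p5⟩ := hP Q hNQ
    obtain ⟨t1, t2, t3, t4, t5⟩ := hP ⊤ le_top
    rw [hQm] at p1 p2 p3 p4
    rw [hTm] at t1 t2 t3 t4
    have haT : S e ∈ FxR (cw F α) ⊤ := t1 e he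
    have haB : S e ∈ BKR (cw F α) ⊤ := t3 e heT
    have haQ : S e ∈ FxR (cw F α) Q := fx_mono α le_top haT
    have hπa : π (S e) = e := hS e
    generalize S e = a at haT haB haQ hπa
    -- the Brauer quotient
    obtain ⟨B, iB1, iB2, αB, β, hβ⟩ := All30.bqx F V A α Q
    have hbk : ∀ z ∈ BKR (cw F α) Q, z ∈ FxR (cw F α) Q :=
      fun z hz => All30.bkf F V A (cw F α) Q hz
    -- elements which vanish modulo the kernel
    have hmod : ∀ z ∈ FxR (cw F α) Q, π z ∈ BKR (cw F αH) Q' →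
        β z ∈ Aug F (αB.comp N.subtype) ⊤ := by
      intro z hz hπz
      have h1 : S (π z) ∈ BKR (cw F α) Q := p3 _ hπz
      have h2 : z - S (π z) ∈ FxR (cw F α) Q := (FxR (cw F α) Q).sub_mem hz (hbk _ h1)
      have h3 : π (z - S (π z)) = 0 := by rw [map_sub, hS, sub_self]
      have h4 := be_aug α N Q αB β hβ (p5 _ h2 h3)
      rw [be_sub α Q αB β hβ hz (hbk _ h1), (hβ.ker _ (hbk _ h1)).2 h1, sub_zero] at h4
      exact h4
    have hcen : ∀ (n : N) (w : B), (αB.comp N.subtype) n * w = w * (αB.comp N.subtype) n := by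
      intro n w
      obtain ⟨z, hz, rfl⟩ := hβ.surj w
      change αB n * β z = β z * αB n
      rw [← hβ.om, ← hβ.mul _ (fx_al α Q n) _ hz, ← hβ.mul _ hz _ (fx_al α Q n),
        hQt.cen n n.2 z]
    have hb1 : β a * β a - β a ∈ Aug F (αB.comp N.subtype) ⊤ := by
      rw [← hβ.mul _ haQ _ haQ, ← be_sub α Q αB β hβ (fx_mul α Q haQ haQ) haQ]
      refine hmod _ ((FxR (cw F α) Q).sub_mem (fx_mul α Q haQ haQ) haQ) ?_
      rw [map_sub, map_mul, hπa]
      exact hee
    have hb2 : ∀ w : B, β a * w - w * β a ∈ Aug F (αB.comp N.subtype) ⊤ := by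
      intro w
      obtain ⟨z, hz, rfl⟩ := hβ.surj w
      rw [← hβ.mul _ haQ _ hz, ← hβ.mul _ hz _ haQ,
        ← be_sub α Q αB β hβ (fx_mul α Q haQ hz) (fx_mul α Q hz haQ)]
      refine hmod _ ((FxR (cw F α) Q).sub_mem (fx_mul α Q haQ hz) (fx_mul α Q hz haQ)) ?_
      rw [map_sub, map_mul, map_mul, hπa]
      exact hcom _ (p2 z hz)
    have hNp : IsPGroup ℓ N := hV.to_subgroup N
    obtain ⟨f, g, hf1, hf2, hf3, hf4⟩ :=
      cil ℓ F N B (αB.comp N.subtype) (β a) hℓ hNp hcen hb1 hb2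
    -- `f` is in the Brauer kernel
    have hbb := All30.bbk ℓ F V E A B K φ α Q αB β lam x y ⊤ hℓ hV hCl.per hRF hβ
    have htop : (⊤ : Subgroup V) ⊔ Q = ⊤ := top_sup_eq Q
    rw [htop] at hbb
    obtain ⟨hba1, hba2⟩ := hbb.1 a haT
    have hbaB : β a ∈ BKR (cw F αB) ⊤ := hba2.2 haB
    have hfB : f ∈ BKR (cw F αB) ⊤ := by
      rw [hf1]
      exact (All30.bki F V B αB ⊤ _ (fx_aeval αB ⊤ hba1 g) _ hbaB).2
    have hfT : f ∈ FxR (cw F αB) ⊤ := by
      rw [hf1]
      exact fx_mul αB ⊤ hba1 (fx_aeval αB ⊤ hba1 g)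
    have hcl := All30.bcl ℓ F V E A B φ α Q αB β (cenE φ Q) hV hE hCl hβ (fun e => Iff.rfl)
    have hf0 : f = 0 := by
      refine bk_bot (cw F αB) (hcl.blk ⊥ f hfT ?_ (fun w _ => ?_) hfB)
      · rw [hf2, sub_self]
        exact Submodule.zero_mem _
      · rw [hf3 w, sub_self]
        exact Submodule.zero_mem _
    have hbaug : β a ∈ Aug F (αB.comp N.subtype) ⊤ := by
      rw [hf0, zero_sub] at hf4
      exact (Submodule.neg_mem_iff _).1 hf4
    obtain ⟨z, hz, hza⟩ := aug_lift α N Q αB β hβ hbaug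
    have hzQ := aug_fx α N Q hz
    have h1 : a - z ∈ FxR (cw F α) Q := (FxR (cw F α) Q).sub_mem haQ hzQ
    have h2 : a - z ∈ BKR (cw F α) Q := by
      rw [← hβ.ker _ h1, be_sub α Q αB β hβ haQ hzQ, hza, sub_self]
    have h3 : π z = 0 := by
      rw [hQt.ker]
      refine (Submodule.span_mono ?_ : _ ≤ _) hz
      rintro _ ⟨n, w, _, rfl⟩
      exact ⟨n, w, trivial, rfl⟩
    have h4 := p4 _ h2
    rw [map_sub, h3, sub_zero, hπa] at h4
    exact h4

end Pool.Agent.PST.UC.H30Q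
end
end -- Pool.Agent.Helper30_PST.QCL

section -- Pool.Agent.Helper56_PST.BFN

/-!
# Squad PST, row BFN (helper56): the frame of `A(Q)` has the points fixed by `(q, q)`
-/

set_option autoImplicit false

open scoped BigOperators TensorProduct

noncomputable section

namespace Pool.Agent.PST.UC.H56

open Pool.Agent.PSS.S0 Pool.Agent.PSS Pool.Agent.PSS.H65
open Pool.Agent.PFC (tw IsTv)
open Pool.Agent.PFD.D2b (FrR)

theorem bfn_of (hSfq : SfqStmt) (hLmb : LmbStmt) (hRfd : RfdStmt) : BfnStmt := by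
  intro ℓ _ R V E A B K _ _ _ _ _ _ _ _ _ φ α Q αB β lam x y E1 hℓ hV hPer hRF hB hE1
  obtain ⟨Ω, iΩ, iA, b, c, hfr, hst⟩ := hPer
  have hfree : ∀ (v : V) (ω : Ω), ((1, v) : V × V) • ω = ω → v = 1 := by
    intro v ω h
    obtain ⟨e, S, hs⟩ := hst ω
    have h1 : ((1, v) : V × V) ∈ MulAction.stabilizer (V × V) ω := h
    rw [hs, H65.mem_tw] at h1
    have h2 : (1 : V) = φ e v := h1.2
    exact (map_eq_one_iff (φ e) (φ e).injective).1 h2.symm
  obtain ⟨d, hcd, hSF⟩ := hRfd R V A K Ω α lam x y b c hRF hfr hfree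
  obtain ⟨lamB, hlB⟩ := hLmb ℓ R V A B α Q αB β lam hℓ hV hRF.sym hB
  have hfin : Fintype (OQt Q (1 : MulAut V) Ω) := Fintype.ofFinite _
  have hSF2 := (hSfq R V A B Ω α Q αB β lam lamB b d 1 1 1 hSF hB hlB (mul_one 1) (mul_one 1)
    (fun u => by rw [one_mul, mul_one]; rfl)).2
  refine ⟨OQt Q (1 : MulAut V) Ω, hfin, inferInstance,
      (fun ω : OQt Q (1 : MulAut V) Ω => β (b ω * 1)),
      fun ω => lamB.comp (LinearMap.mulLeft R (β (1 * d (ω : Ω)))), ⟨?_, ?_, ?_⟩, ?_, ?_⟩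
  · intro g ω
    have h1 := hSF2.eb g ω
    rw [bw_app]
    refine h1.trans ?_
    rw [mul_assoc]
    rfl
  · intro g ω n
    have h1 := hSF2.ed g ω
    show lamB (β (1 * d ((g • ω : OQt Q (1 : MulAut V) Ω) : Ω)) *
      (αB g.1 * (n * αB g.2⁻¹))) = lamB (β (1 * d (ω : Ω)) * n)
    have h2 : β (1 * d ((g • ω : OQt Q (1 : MulAut V) Ω) : Ω)) =
        αB g.2 * β (1 * d (ω : Ω)) * αB g.1⁻¹ := h1
    rw [h2, hSF2.sym]
    have h3 : αB g.1 * (n * αB g.2⁻¹) * (αB g.2 * β (1 * d (ω : Ω)) * αB g.1⁻¹) =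
        αB g.1 * (n * β (1 * d (ω : Ω)) * αB g.1⁻¹) := by
      have h4 : αB g.2⁻¹ * αB g.2 = 1 := by rw [← map_mul, inv_mul_cancel, map_one]
      calc αB g.1 * (n * αB g.2⁻¹) * (αB g.2 * β (1 * d (ω : Ω)) * αB g.1⁻¹)
          = αB g.1 * (n * (αB g.2⁻¹ * αB g.2) * β (1 * d (ω : Ω)) * αB g.1⁻¹) := by
            noncomm_ring
        _ = _ := by rw [h4, mul_one]
    rw [h3, hSF2.sym, mul_assoc, ← map_mul αB, inv_mul_cancel, map_one, mul_one, hSF2.sym]
  · intro n
    exact hSF2.fr n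
  · intro ω
    obtain ⟨e, S, hs⟩ := hst (ω : Ω)
    have he : e ∈ E1 := by
      rw [hE1]
      intro q hq
      have h1 : ((q, (1 : MulAut V)⁻¹ q) : V × V) • (ω : Ω) = ω := ω.2 q hq
      have h2 : ((q, q) : V × V) ∈ MulAction.stabilizer (V × V) (ω : Ω) := h1
      rw [hs, H65.mem_tw] at h2
      exact h2.2.symm
    refine ⟨⟨e, he⟩, S, ?_⟩
    have h3 : MulAction.stabilizer (V × V) ω = MulAction.stabilizer (V × V) (ω : Ω) := by
      ext g
      rw [MulAction.mem_stabilizer_iff, MulAction.mem_stabilizer_iff]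
      constructor
      · intro h
        exact congrArg Subtype.val h
      · intro h
        exact Subtype.ext h
    rw [h3, hs]
    rfl
  · intro q hq ω
    apply Subtype.ext
    have h1 : ((q, (1 : MulAut V)⁻¹ q) : V × V) • (ω : Ω) = ω := ω.2 q hq
    exact h1

theorem bfn : BfnStmt := bfn_of All30.sfq All30.lmb All30.rfd

end Pool.Agent.PST.UC.H56
end
end -- Pool.Agent.Helper56_PST.BFN

section -- Pool.Agent.Helper95_PST.QRG

set_option autoImplicit false

open scoped BigOperators TensorProduct PowerSeries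

noncomputable section

namespace Pool.Agent.PST.UC.H95

open Pool.Agent.PFC (tw IsTv)
open Pool.Agent.PFD.D2b (FrR)
open Pool.Agent.PSS
open Pool.Agent.PSS.S0
open Pool.Agent.PST
open Pool.Agent.PST.UC

/-- the size of a transversal of a proper subgroup is zero in characteristic `ℓ` -/
theorem card_tv (hFCO : FcoStmt) (ℓ : ℕ) [Fact ℓ.Prime] (F V : Type) [Field F] [CharP F ℓ]
    [CommGroup V] [Finite V] (hV : IsPGroup ℓ V) (P' : Subgroup V) (S : Finset V)
    (hP : P' < ⊤) (hS : IsTv P' ⊤ S) : (S.card : F) = 0 := by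
  let ρ : V →* (F →ₗ[F] F) := 1
  let act : MulAction V Unit :=
    { smul := fun _ t => t, one_smul := fun _ => rfl, mul_smul := fun _ _ _ => rfl }
  have hfr : FrR ρ (fun _ : Unit => (1 : F)) (fun _ => LinearMap.id) := by
    refine ⟨fun g t => rfl, fun g t n => rfl, fun n => ?_⟩
    change ∑ t : Unit, n • (1 : F) = n
    rw [Finset.univ_unique, Finset.sum_singleton, smul_eq_mul, mul_one]
  have h1 : (S.card : F) ∈ BKR ρ ⊤ := by
    refine Submodule.subset_span ⟨P', S, 1, hP, hS, fun h _ => rfl, ?_⟩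
    change (S.card : F) = ∑ _x ∈ S, (1 : F)
    rw [Finset.sum_const, nsmul_eq_mul, mul_one]
  exact hFCO ℓ F V F Unit ρ _ _ (CharP.cast_eq_zero F ℓ) hV hfr ⊤ _ h1 () (fun _ _ => rfl)

section

variable {R G A : Type} [CommRing R] [CommGroup G] [Ring A] [Algebra R A] (α : G →* A)

theorem comm_of_fx {a : A} (ha : a ∈ FxR (cw R α) ⊤) (g : G) : α g * a = a * α g := by
  have h1 : α g * (a * α g⁻¹) = a := ha g (Subgroup.mem_top g)
  calc α g * a = α g * a * (α g⁻¹ * α g) := by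
        rw [← map_mul, inv_mul_cancel, map_one, mul_one]
    _ = α g * (a * α g⁻¹) * α g := by simp only [mul_assoc]
    _ = a * α g := by rw [h1]

theorem fx_of_comm {a : A} (ha : ∀ g, α g * a = a * α g) : a ∈ FxR (cw R α) ⊤ := by
  intro g _
  change α g * (a * α g⁻¹) = a
  rw [← mul_assoc, ha, mul_assoc, ← map_mul, mul_inv_cancel, map_one, mul_one]

theorem fx_iff {a : A} : a ∈ FxR (cw R α) ⊤ ↔ ∀ g, α g * a = a * α g :=
  ⟨comm_of_fx α, fx_of_comm α⟩

/-- the span of the commutators contains the image of the Brauer kernel -/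
theorem civ_bk (hFCO : FcoStmt) (ℓ : ℕ) [Fact ℓ.Prime] (F V B H : Type) [Field F] [CharP F ℓ]
    [CommGroup V] [Finite V] [Ring B] [Algebra F B] [Ring H] [Algebra F H] (W : Subgroup V)
    (hV : IsPGroup ℓ V) (αB : V →* B) (αH : V ⧸ W →* H) (π : B →ₐ[F] H)
    (hQ : IsQt F αB W αH π) : ∀ m ∈ BKR (cw F αB) ⊤, π m ∈ Civ F αH := by
  intro m hm
  induction hm using Submodule.span_induction with
  | mem m hm =>
    obtain ⟨P', S, m', hP, hS, _, rfl⟩ := hm
    rw [map_sum]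
    have h1 : ∀ x ∈ S, π (cw F αB x m') =
        (αH (x : V ⧸ W) * (π m' * αH (x : V ⧸ W)⁻¹) -
          π m' * αH (x : V ⧸ W)⁻¹ * αH (x : V ⧸ W)) + π m' := by
      intro x _
      change π (αB x * (m' * αB x⁻¹)) = _
      have h2 : αH ((x : V ⧸ W)⁻¹) = π (αB x⁻¹) := hQ.om x⁻¹
      rw [map_mul, map_mul, ← hQ.om x, ← h2, mul_assoc (π m'), ← map_mul αH, inv_mul_cancel,
        map_one, mul_one, sub_add_cancel]
    rw [Finset.sum_congr rfl h1, Finset.sum_add_distrib, Finset.sum_const, ← Nat.cast_smul_eq_nsmul F,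
      card_tv hFCO ℓ F V hV P' S hP hS, zero_smul, add_zero]
    refine Submodule.sum_mem _ fun x _ => Submodule.subset_span ⟨(x : V ⧸ W), _, rfl⟩
  | zero =>
    rw [map_zero]
    exact Submodule.zero_mem _
  | add a b _ _ ha hb =>
    rw [map_add]
    exact Submodule.add_mem _ ha hb
  | smul r a _ ha =>
    rw [map_smul]
    exact Submodule.smul_mem _ _ ha

end

theorem qrg_aux (hFCO : FcoStmt) (hFBK : FbkStmt) (hBBK : BbkStmt) (hTFX : S3.TfxStmt) :
    QrgStmt := by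
  intro ℓ _ F V E A As B Bs H Hs _ _ _ _ _ _ _ _ _ _ _ _ _ _ _ _ _ _ φ α W _ _ ψ γ q αB β γB βs
    qB αH γH π πs q1 hV hpw hCl hper hq hq1 hB hBs hqB hQ hQs hqq hReg
  classical
  obtain ⟨r, la, χ, xx, t, D, lf, G, hD, hF⟩ := hReg
  have hE := hD.eg
  have hW : IsPGroup ℓ W := hV.to_subgroup W
  obtain ⟨htf, _⟩ := hTFX ℓ F W E As ψ γ hW hper
  -- the coordinates
  have hla1 : ∀ l, la l 1 = 0 := fun l => (hE.ker 1).1 W.one_mem l
  have hlaq : ∀ l (v v' : V), (v : V ⧸ W) = v' → la l v = la l v' := by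
    intro l v v' h
    have h1 : v⁻¹ * v' ∈ W := QuotientGroup.eq.1 h
    have h2 : v' = v * (v⁻¹ * v') := by rw [mul_inv_cancel_left]
    rw [h2, hE.add, (hE.ker _).1 h1 l, add_zero]
  have hout : ∀ v : V ⧸ W, ((Quotient.out v : V) : V ⧸ W) = v := fun v => QuotientGroup.out_eq' v
  have hlam : ∀ l (v : V), la l (Quotient.out (v : V ⧸ W)) = la l v :=
    fun l v => hlaq l _ _ (hout _)
  set la' : Fin r → V ⧸ W → F := fun l v => la l (Quotient.out v) with hla'
  set xx' : Fin r → V ⧸ W → F := fun l y => ∑ v : V, if (v : V ⧸ W) = y then xx l v else 0 with hxx'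
  have hsum : ∀ (N : Type) [AddCommGroup N] [Module F N] (l : Fin r) (f : V ⧸ W → N),
      ∑ y, xx' l y • f y = ∑ v : V, xx l v • f (v : V ⧸ W) := by
    intro N _ _ l f
    have h1 : ∀ y, xx' l y • f y = ∑ v : V, (if (v : V ⧸ W) = y then xx l v • f (v : V ⧸ W) else 0) := by
      intro y
      rw [hxx', Finset.sum_smul]
      refine Finset.sum_congr rfl fun v _ => ?_
      by_cases h : (v : V ⧸ W) = y
      · rw [if_pos h, if_pos h, h]
      · rw [if_neg h, if_neg h, zero_smul]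
    rw [Finset.sum_congr rfl fun y _ => h1 y, Finset.sum_comm]
    refine Finset.sum_congr rfl fun v _ => ?_
    rw [Finset.sum_ite_eq, if_pos (Finset.mem_univ _)]
  have hsumF : ∀ (l : Fin r) (f : V ⧸ W → F), ∑ y, xx' l y * f y = ∑ v : V, xx l v * f (v : V ⧸ W) :=
    fun l f => hsum F l f
  -- fixed elements of `As`
  have hXcomm : ∀ a : As, (∀ g, γ g * ((PowerSeries.X : F⟦X⟧) • a) = ((PowerSeries.X : F⟦X⟧) • a) * γ g) →
      ∀ g, γ g * a = a * γ g := by
    intro a ha g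
    have h1 := ha g
    rw [mul_smul_comm, smul_mul_assoc, ← sub_eq_zero, ← smul_sub] at h1
    exact sub_eq_zero.1 (htf _ h1)
  have hγγ : ∀ g h : W, γ g * γ h = γ h * γ g := by
    intro g h
    rw [← map_mul, ← map_mul, mul_comm]
  have hlf : ∀ u, ∀ g, γ g * lf u = lf u * γ g := fun u g => hF.cm u g
  have hlfp : ∀ u (n : ℕ), ∀ g, γ g * lf u ^ n = lf u ^ n * γ g := by
    intro u n g
    exact (Commute.pow_right (hlf u g : Commute (γ g) (lf u)) n)
  have hG : ∀ u, ∀ g, γ g * G u = G u * γ g := by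
    intro u
    apply hXcomm
    intro g
    have h1 := hF.pl u (hpw u)
    set c : W := ⟨u ^ ℓ, hpw u⟩ with hc
    have h2 : (PowerSeries.X : F⟦X⟧) • G u = γ c⁻¹ * lf u ^ ℓ - 1 := by
      rw [h1, ← mul_assoc, ← map_mul, inv_mul_cancel, map_one, one_mul, add_sub_cancel_left]
    rw [h2, mul_sub, sub_mul, mul_one, one_mul, ← mul_assoc, hγγ g, mul_assoc, hlfp, ← mul_assoc]
  have hfx : ∀ a : As, (∀ g, γ g * a = a * γ g) → a ∈ FxR (cw F⟦X⟧ γ) ⊤ := fun a ha =>
    fx_of_comm γ ha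
  -- the map `βs` on powers
  have hβp : ∀ a ∈ FxR (cw F⟦X⟧ γ) ⊤, ∀ n : ℕ, a ^ n ∈ FxR (cw F⟦X⟧ γ) ⊤ ∧ βs (a ^ n) = βs a ^ n := by
    intro a ha n
    induction n with
    | zero =>
      rw [pow_zero, pow_zero]
      exact ⟨fx_of_comm γ (fun g => by rw [mul_one, one_mul]), hBs.one⟩
    | succ n ih =>
      rw [pow_succ, pow_succ]
      have h1 := comm_of_fx γ ih.1
      have h2 := comm_of_fx γ ha
      refine ⟨fx_of_comm γ (fun g => by rw [← mul_assoc, h1, mul_assoc, h2, mul_assoc]), ?_⟩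
      rw [hBs.mul _ ih.1 _ ha, ih.2]
  have hfx1 : (1 : A) ∈ FxR (cw F α) W := by
    intro g _
    change α g * (1 * α g⁻¹) = 1
    rw [one_mul, ← map_mul, mul_inv_cancel, map_one]
  have hβ0 : β 0 = 0 := by
    have h1 := hB.smul 0 1 hfx1
    rw [zero_smul, zero_smul] at h1
    exact h1
  have hfxα : ∀ (v : V) (Q : Subgroup V), α v ∈ FxR (cw F α) Q := by
    intro v Q g _
    change α g * (α v * α g⁻¹) = α v
    rw [← map_mul, ← map_mul, mul_comm v, mul_inv_cancel_left]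
  have hmono : ∀ {a : A}, a ∈ FxR (cw F α) ⊤ → a ∈ FxR (cw F α) W :=
    fun {a} ha g hg => ha g (Subgroup.mem_top g)
  have hβX : ∀ (c : V → F) (s : Finset V), (∑ v ∈ s, c v • α v) ∈ FxR (cw F α) ⊤ ∧
      β (∑ v ∈ s, c v • α v) = ∑ v ∈ s, c v • αB v := by
    intro c s
    induction s using Finset.induction_on with
    | empty =>
      rw [Finset.sum_empty, Finset.sum_empty]
      exact ⟨Submodule.zero_mem _, hβ0⟩
    | insert a s ha ih =>
      rw [Finset.sum_insert ha, Finset.sum_insert ha]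
      have h1 : c a • α a ∈ FxR (cw F α) ⊤ := Submodule.smul_mem _ _ (hfxα a ⊤)
      refine ⟨Submodule.add_mem _ h1 ih.1, ?_⟩
      rw [hB.add _ (hmono h1) _ (hmono ih.1), hB.smul _ _ (hfxα a W), hB.om, ih.2]
  have hXβ : ∀ c : V → F, Xe α c ∈ FxR (cw F α) ⊤ ∧ β (Xe α c) = ∑ v, c v • αB v :=
    fun c => hβX c Finset.univ
  have hπX : ∀ u : V, π (β (Xe α (pg la xx t u))) =
      ∑ y, (∑ l, t l * la l u * xx' l y) • αH y := by
    intro u
    have h1 : ∀ v : V, π (pg la xx t u v • αB v) =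
        ∑ l, (t l * la l u) • (xx l v • αH (v : V ⧸ W)) := by
      intro v
      rw [map_smul, ← hQ.om v, pg, Finset.sum_smul]
      exact Finset.sum_congr rfl fun l _ => mul_smul _ _ _
    have h2 : ∀ y : V ⧸ W, (∑ l, t l * la l u * xx' l y) • αH y =
        ∑ l, (t l * la l u) • (xx' l y • αH y) := by
      intro y
      rw [Finset.sum_smul]
      exact Finset.sum_congr rfl fun l _ => mul_smul _ _ _
    rw [(hXβ (pg la xx t u)).2, map_sum, Finset.sum_congr rfl fun v _ => h1 v,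
      Finset.sum_congr rfl fun y _ => h2 y, Finset.sum_comm,
      Finset.sum_comm (s := (Finset.univ : Finset (V ⧸ W)))]
    refine Finset.sum_congr rfl fun l _ => ?_
    rw [← Finset.smul_sum, ← Finset.smul_sum, hsum]
  -- the Brauer map of the Brauer kernel
  have hβm : ∀ m ∈ FxR (cw F α) ⊤, m ∈ BKR (cw F α) (QW0 φ W) → π (β m) ∈ Civ F αH := by
    intro m hm hm'
    have h1 : m ∈ BKR (cw F α) ⊤ :=
      H28.bk_up α hFCO hFBK ℓ (CharP.cast_eq_zero F ℓ) hV φ hCl.per le_top hm' hm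
    obtain ⟨lam, K, _, x, y, hRF, _⟩ := hCl.rt
    have h2 := (hBBK ℓ F V E A B K φ α W αB β lam x y ⊤ (CharP.cast_eq_zero F ℓ) hV hCl.per hRF
      hB).1 m (by rw [top_sup_eq]; exact hm)
    rw [top_sup_eq] at h2
    exact civ_bk hFCO ℓ F V B H W hV αB αH π hQ _ (h2.2.2 h1)
  have hγ1 : ∀ w : W, πs (γB w) = 1 := by
    intro w
    rw [← hQs.om w, (QuotientGroup.eq_one_iff w).2 (Subgroup.mem_top w), map_one]
  have hqb : ∀ a ∈ FxR (cw F⟦X⟧ γ) ⊤, q1 (πs (βs a)) = π (β (q a)) := by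
    intro a ha
    rw [hqq, hqB a ha]
  refine ⟨r, la', xx', t, ?_, ?_, ?_, ?_, hE.t0, ?_, ?_⟩
  · intro l u v
    have h1 : ((Quotient.out u * Quotient.out v : V) : V ⧸ W) = u * v := by
      rw [QuotientGroup.mk_mul, hout, hout]
    change la l (Quotient.out (u * v)) = la l (Quotient.out u) + la l (Quotient.out v)
    rw [← hE.add, ← hlam l (Quotient.out u * Quotient.out v), h1]
  · intro μ hμ
    have hμ1 : μ 1 = 0 := by
      have h1 := hμ 1 1
      rw [mul_one] at h1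
      exact left_eq_add.1 h1
    refine ⟨fun l => ∑ u, xx l u * μ (u : V ⧸ W), fun v => ?_⟩
    have h1 := hE.spn (fun v => μ (v : V ⧸ W)) (fun u v => by rw [QuotientGroup.mk_mul, hμ])
      (fun w hw => by rw [(QuotientGroup.eq_one_iff w).2 hw, hμ1]) (Quotient.out v)
    rw [hout] at h1
    exact h1
  · intro l
    have h1 := hsumF l (fun _ => 1)
    simp only [mul_one] at h1
    rw [h1]
    exact hE.x0 l
  · intro l n
    rw [hsumF l (la' n), ← hE.xl l n]
    refine Finset.sum_congr rfl fun v _ => ?_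
    change xx l v * la n (Quotient.out (v : V ⧸ W)) = _
    rw [hlam]
  · intro v
    obtain ⟨u, hu⟩ : ∃ u : V, u = Quotient.out v := ⟨_, rfl⟩
    have huv : (u : V ⧸ W) = v := by rw [hu, hout]
    have hla2 : ∀ l, la' l v = la l u := fun l => by rw [hu]
    have hlu := hfx (lf u) (hlf u)
    have hgu := hfx (G u) (hG u)
    refine ⟨πs (βs (lf u)), πs (βs (G u)), ?_, ?_, ?_⟩
    · rw [hqb _ hlu, hF.q0, hB.om, ← hQ.om, huv]
    · have h1 : (1 : As) ∈ FxR (cw F⟦X⟧ γ) ⊤ :=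
        fx_of_comm γ (fun g => by rw [mul_one, one_mul])
      have h2 : (PowerSeries.X : F⟦X⟧) • G u ∈ FxR (cw F⟦X⟧ γ) ⊤ := Submodule.smul_mem _ _ hgu
      have h3 : γ ⟨u ^ ℓ, hpw u⟩ ∈ FxR (cw F⟦X⟧ γ) ⊤ := fx_of_comm γ (fun g => hγγ g _)
      rw [← map_pow, ← (hβp _ hlu ℓ).2, hF.pl u (hpw u), hBs.mul _ h3 _ (Submodule.add_mem _ h1 h2),
        hBs.add _ h1 _ h2, hBs.one, hBs.smul _ _ hgu, hBs.om, map_mul, hγ1, one_mul, map_add,
        map_one, map_smul]
    · have h1 : D u - Xe α (pg la xx t u) ∈ FxR (cw F α) ⊤ :=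
        Submodule.sub_mem _ (hD.fx u) (hXβ (pg la xx t u)).1
      have h2 := hβm _ h1 (hD.bk u)
      have h3 : q1 (πs (βs (G u))) =
          ∑ y, (∑ l, t l * la l u * xx' l y) • αH y + π (β (D u - Xe α (pg la xx t u))) := by
        rw [hqb _ hgu, hF.qG, ← hπX u, ← map_add, ← hB.add _ (hmono (hXβ (pg la xx t u)).1) _ (hmono h1), add_sub_cancel]
      rw [h3]
      simp only [hla2]
      rw [add_sub_cancel_left]
      exact h2
  · intro u v
    obtain ⟨z, hz⟩ := hF.cc (Quotient.out u) (Quotient.out v)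
    set a := lf (Quotient.out u) with ha
    set b := lf (Quotient.out v) with hb
    have hca : ∀ g, γ g * a = a * γ g := hlf _
    have hcb : ∀ g, γ g * b = b * γ g := hlf _
    have hab : ∀ g, γ g * (a * b) = a * b * γ g := fun g => by
      rw [← mul_assoc, hca, mul_assoc, hcb, mul_assoc]
    have hba : ∀ g, γ g * (b * a) = b * a * γ g := fun g => by
      rw [← mul_assoc, hcb, mul_assoc, hca, mul_assoc]
    have hzz : ∀ g, γ g * z = z * γ g := by
      apply hXcomm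
      apply hXcomm
      intro g
      rw [smul_smul, ← sq, ← hz, mul_sub, sub_mul, hab, hba]
    have fa := hfx a hca
    have fb := hfx b hcb
    have fz := hfx z hzz
    have fba := hfx (b * a) hba
    have f2 : ((PowerSeries.X : F⟦X⟧) ^ 2) • z ∈ FxR (cw F⟦X⟧ γ) ⊤ := Submodule.smul_mem _ _ fz
    refine ⟨πs (βs a), πs (βs b), (PowerSeries.X : F⟦X⟧) • πs (βs z), ?_, ?_, ?_, ?_⟩
    · rw [hqb _ fa, hF.q0, hB.om, ← hQ.om, hout]
    · rw [hqb _ fb, hF.q0, hB.om, ← hQ.om, hout]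
    · have h1 : a * b = b * a + ((PowerSeries.X : F⟦X⟧) ^ 2) • z := by
        rw [← hz, add_sub_cancel]
      rw [← map_mul, ← map_mul, ← hBs.mul _ fa _ fb, ← hBs.mul _ fb _ fa, h1, hBs.add _ fba _ f2,
        hBs.smul _ _ fz, map_add, map_smul, add_sub_cancel_left, sq, mul_smul]
    · have h1 : q1 ((PowerSeries.X : F⟦X⟧) • πs (βs z)) = 0 := by
        rw [Algebra.smul_def, map_mul, hq1, PowerSeries.constantCoeff_X, map_zero, zero_mul]
      rw [h1]
      exact Submodule.zero_mem _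

theorem qrg : QrgStmt :=
  qrg_aux All30.fco All30.fbk All30.bbk All30.tfx

end Pool.Agent.PST.UC.H95
end
end -- Pool.Agent.Helper95_PST.QRG

section -- Pool.Agent.Helper30_PST.UAll

/-!
# Squad PST, blocks U, UC, CL: assembly (helper30)
-/

set_option autoImplicit false

noncomputable section

namespace Pool.Agent.PST.UAll

open Pool.Agent.PSS

/-! ## Block CL -/

theorem nkb_ : NkbStmt := H52.nkb All30.bki
theorem dzu_ : DzuStmt := H56.dzu nkb_ All30.bqx All30.bpu All30.mck All30.zrt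
theorem lsa_ : LsaStmt := H81.lsa H85.dex dzu_ All30.rfs S2.H91.thl
theorem zij_ : ZijStmt := H84.zij H27.adx lsa_ All30.fco All30.fbk All30.ftr All30.bqx All30.bbk
  All30.bcl All30.bkf
theorem clo_ : CloStmt := H78.clo zij_ H15.pra H84.qrf All30.qbk All30.bqx All30.bcl All30.bbk
  All30.res

/-! ## Block U -/

theorem crt_ : U.CrtStmt := U.H49.crt U.H30L.fun' U.H30L.rfe' U.H30L.rtc' All30.rfs
theorem nzd_ : U.NzdStmt := U.H8.nzd crt_
theorem rhr_ : U.RhrStmt := U.H26.rhr crt_ U.H12.chp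
theorem clc_ : U.ClcStmt := U.H45.clc U.H49.lix
theorem bot_ : U.BotStmt := U.H92.bot U.H49.lix clc_
theorem unc_ : U.UncStmt := U.H77.unc U.H12.fit All30.zrt All30.bqx All30.bpu All30.gfq All30.gfb
  All30.mck
theorem gfx_ : U.H30.GfxStmt := U.H30.gfx bot_ unc_ U.H12.unr clc_

/-! ## Block UC -/

theorem cil_ : UC.CilStmt := UC.H92.cil UC.H21.nia
theorem qlu_ : UC.QluStmt := UC.H20.qlu UC.H21.nia
theorem qcl_ : UC.QclStmt := UC.H30Q.qcl cil_ UC.H39.qtf UC.H87.qfr UC.H2.qsc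

theorem etw_ (etc : ET.EtcStmt) : UC.EtwStmt :=
  UC.H30.etw UC.H21.prt UC.H22.qfa H86.hsf UC.H95.qrg UC.H28.qtx UC.H39.qtf qcl_ UC.H56.bfn qlu_
    All30.bqx All30.bcl H63.psc etc

/-- GFW from the top statement of block ET. -/
theorem gfw_ (etc : ET.EtcStmt) : GfwStmt :=
  U.H30.gfw gfx_
    (U.H30L.olu (U.H5.nbl U.H89.vnx U.H30P.pwc) H82.dvd U.H70.sps nzd_ rhr_ U.H84.cna)
    clo_ U.H26.rtu (etw_ etc)

end Pool.Agent.PST.UAll
end
end -- Pool.Agent.Helper30_PST.UAll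

section -- Pool.Agent.PST.AllT

/-!
# Squad PST: the step STQ from the proved rows

Only the block ET (`ET.EtcStmt`) is a hypothesis here.
-/

namespace Pool.Agent.PST.All

open Pool.Agent.PSS

theorem xcw_ : XcwStmt := Pool.Agent.PSS.H45.xcw (Pool.Agent.PSS.H77X.xco Pool.Agent.PSS.H52.syd)

theorem gam_ : GamStmt := Pool.Agent.PSS.H41.gam xcw_

theorem hcw_ : HcwStmt := Pool.Agent.PSS.H29.hcw Pool.Agent.PSS.H55.taw

theorem h2w_ : H2wStmt :=
  Pool.Agent.PSS.H41.h2w PSS.All.a_csu PSS.All.a_hcc PSS.All.a_lfg gam_ hcw_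

theorem h1w_ : H1wStmt := Pool.Agent.PSS.H87.h1w PSS.All.a_csu PSS.All.a_fxl

theorem stw_ : StwStmt :=
  Pool.Agent.PSS.H24.stw PSS.All.a_trx PSS.All.a_tra PSS.All.a_trc h2w_

theorem bia_ : BiaStmt := Pool.Agent.PSS.H62.bia PSS.All.a_tra

theorem tgw_ : TgwStmt :=
  Pool.Agent.PSS.H44.tgw PSS.All.a_trx PSS.All.a_tra PSS.All.a_trc PSS.All.a_lim stw_ bia_

theorem mub_ : MubStmt := Pool.Agent.PSS.H41.mub PSS.All.a_blt

theorem tgt_ : TgtStmt := Pool.Agent.PSS.H41.tgt PSS.All.a_tra mub_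

theorem stx_ : StxStmt := Pool.Agent.PSS.H29.stx PSS.All.a_trx PSS.All.a_trc h2w_

theorem tlw_ : TlwStmt :=
  Pool.Agent.PSS.H58.tlw PSS.All.a_trx PSS.All.a_trc PSS.All.a_lim bia_ mub_ tgt_
    Pool.Agent.PSS.H2.fz0 stx_

theorem gnq_ : GnqStmt :=
  H21.gnq PSS.All.a_kex DRA.drq_ H29.gvg H62.ekf KEY.key_ tgw_ PSS.All.a_dmr PSS.All.a_dmf h1w_
    H27.rwt PSS.All.a_fmx PSS.All.a_fsr PSS.All.a_red DRA.fox_

theorem dtq_ : DtqStmt :=
  H85.dtq PSS.All.a_lft gnq_ PSS.All.a_per PSS.All.a_spf PSS.All.a_fre PSS.All.a_rmp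
    PSS.All.c_unx

theorem ldw_ : LdwStmt :=
  ldw PSS.All.a_lft PSS.All.a_kex tlw_ PSS.All.a_dmr h1w_ H53.fma KEY.kyw_

theorem cew_ : CewStmt := cew ldw_ PSS.All.a_uzl PSS.All.a_cen PSS.All.a_rmp

theorem dzw_ : DzwStmt := dzwS cew_

theorem ncg_ : NcgStmt := H21.ncg

theorem nwc_ : NwcStmt := H56.nwc PSS.All.d_nfp PSS.All.d_nrf ncg_ H15.ncb (H3.ncn ncg_)

theorem ntr_ : NtrStmt := H5.ntr PSS.All.d_nfr PSS.All.d_frb

theorem tpw_ : TpwStmt := tpw dzw_ PSS.All.d_ndf nwc_ ntr_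

/-- STQ from ET -/
theorem stq_ (etc : ET.EtcStmt) : StqStmt := stq dtq_ (UAll.gfw_ etc) dzw_ tpw_

end Pool.Agent.PST.All
end -- Pool.Agent.PST.AllT
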