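import Pool.Agent.Helper12_AWB.B146
import Pool.Agent.Helper12_AWB.B182

/-!
# Merged copies (generated) of the modules

* `Pool.Agent.Helper8_AT8.DPW`
* `Pool.Agent.Helper33_AT12.OAV`
* `Pool.Agent.Helper45_AT12.QOR`
* `Pool.Agent.Helper84_AT12.FSY`
* `Pool.Agent.Helper91_AT12.CNB`
* `Pool.Agent.Helper65_ATW.DPV`
* `Pool.Agent.Helper77_PFC.CFB`
-/

set_option autoImplicit false

section -- Pool.Agent.Helper8_AT8.DPW

/-!
# Squad AT8, row DPW: conjugation with the inertial group, and powers, for the data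
-/

open scoped BigOperators

noncomputable section

namespace Pool.Agent.PP.T8.H8

open Pool.Agent.Helper51_AWC Pool.Agent.Helper79_WRA Pool.Agent.PP Pool.Agent.PP.KF
open Pool.Agent.PP.K9 Pool.Agent.PP.K9.H97 Pool.Agent.PP.H75 Pool.Agent.PP.T3 Pool.Agent.PP.T2
open Pool.Agent.PP.T8

attribute [local instance] Ideal.Quotient.field

section tools

variable {G : Type} [Group G]

/-- the normaliser of `V` normalises the centraliser -/
theorem conj_cent {V : Subgroup G} {n x : G} (hn : n ∈ Subgroup.normalizer (V : Set G))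
    (hx : x ∈ Subgroup.centralizer (V : Set G)) :
    n * x * n⁻¹ ∈ Subgroup.centralizer (V : Set G) := by
  rw [Subgroup.mem_centralizer_iff] at hx ⊢
  intro q hq
  have h1 : n⁻¹ * q * n ∈ V := by
    have h2 := (Subgroup.mem_normalizer_iff.1 (inv_mem hn) q).1 hq
    rwa [inv_inv] at h2
  have h2 := hx _ h1
  calc q * (n * x * n⁻¹) = n * ((n⁻¹ * q * n) * x) * n⁻¹ := by group
    _ = n * (x * (n⁻¹ * q * n)) * n⁻¹ := by rw [h2]
    _ = (n * x * n⁻¹) * q := by group

theorem cent_conj_iff {V : Subgroup G} {n x : G} (hn : n ∈ Subgroup.normalizer (V : Set G)) :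
    n⁻¹ * x * n ∈ Subgroup.centralizer (V : Set G) ↔ x ∈ Subgroup.centralizer (V : Set G) := by
  constructor
  · intro h
    have h1 := conj_cent hn h
    have e : n * (n⁻¹ * x * n) * n⁻¹ = x := by group
    rwa [e] at h1
  · intro h
    have h1 := conj_cent (inv_mem hn) h
    rwa [inv_inv] at h1

theorem br_cj_norm {F : Type} [Field F] [Finite G] {V : Subgroup G} {t : G}
    (ht : t ∈ Subgroup.normalizer (V : Set G)) (b : G → F) :
    br V (cj t b) = cj t (br V b) := by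
  funext x
  change br V (cj t b) x = br V b (t⁻¹ * x * t)
  by_cases hx : x ∈ Subgroup.centralizer (V : Set G)
  · rw [br_in _ hx, br_in _ ((cent_conj_iff ht).2 hx)]
    rfl
  · rw [br_out _ hx, br_out _ (fun h => hx ((cent_conj_iff ht).1 h))]

/-- the data of the conjugate element -/
theorem lc_cj {F : Type} [Field F] [Finite G] {e : G → F} (he : IsCl e) {V : Subgroup G}
    {γ : G → F} {u u' t : G} {b : G → F} (ht : t ∈ Tg V γ) (h : t * u * t⁻¹ = u')
    (hb : Lc e V γ u b) : Lc e V γ u' (cj t b) := by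
  refine ⟨T3.H49.bx_cj h hb.blk, ?_, ?_⟩
  · have h1 := H20.mulF_equiv (T3.H49.cuEquiv h) (fun s : Cu u => e s) (fun s : Cu u => b s)
    rw [hb.und] at h1
    have h2 : (fun s : Cu u' => (fun s : Cu u => e s) (T3.H49.cuEquiv h s)) =
        fun s : Cu u' => e s := by
      funext s
      change e (t⁻¹ * (s : G) * t) = e s
      have := he (s : G) t⁻¹
      rwa [inv_inv] at this
    rw [h2] at h1
    exact h1
  · have hγ : cj t γ = γ := by
      rw [cj_eq_iff]
      exact ht.2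
    rw [br_cj_norm ht.1]
    have h1 := congrArg (cj t) hb.gam
    rw [cj_mulF, hγ] at h1
    exact h1

theorem nonempty_of_blk {H : Type} [Group H] [Finite H] {M : Ideal (integralClosure ℤ ℂ)}
    [M.IsMaximal] {b : H → FF M} (hb : IsBlk b) : (IrrE M b).Nonempty := by
  by_contra hem
  rw [Set.not_nonempty_iff_eq_empty] at hem
  apply hb.2.1
  funext g
  obtain ⟨h1, -, -⟩ := KF.H25.idm M H b hb.1
  rw [← (h1 g).2]
  have h2 : eh M b g = 0 := by
    unfold eh
    rw [hem]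
    simp
  rw [h2]
  exact rr_zero

theorem dg_unique {M : Ideal (integralClosure ℤ ℂ)} [M.IsMaximal] {H : Type} {b : H → FF M}
    [Group H] {d d' : ℕ} (hne : (IrrE M b).Nonempty) (h1 : Dg M b d) (h2 : Dg M b d') :
    d = d' := by
  obtain ⟨χ, hχ⟩ := hne
  have h := (h1.2 χ hχ).symm.trans (h2.2 χ hχ)
  exact_mod_cast h

theorem dg_cj {M : Ideal (integralClosure ℤ ℂ)} [M.IsMaximal] [Finite G] {u u' t : G}
    (h : t * u * t⁻¹ = u') {b : G → FF M} (hb : IsCl (fun s : Cu u => b s)) {d : ℕ}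
    (hd : Dg M (fun s : Cu u => b s) d) : Dg M (fun s : Cu u' => cj t b s) d := by
  classical
  refine ⟨hd.1, ?_⟩
  intro κ hκ
  have h1 := (K9.H3.psi M (Cu u) (Cu u') ((T3.H62.cjE h : Cu u ≃* Cu u') : Cu u →* Cu u')
    (T3.H62.cjE h).surjective (fun s : Cu u => b s) hb).1
  have hp : H75.push ((T3.H62.cjE h : Cu u ≃* Cu u') : Cu u →* Cu u') (fun s : Cu u => b s) =
      fun s : Cu u' => cj t b s := by
    funext y
    unfold H75.push
    rw [finsum_eq_single _ ((T3.H62.cjE h).symm y)]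
    · rw [finsum_eq_if]
      have : ((T3.H62.cjE h : Cu u ≃* Cu u') : Cu u →* Cu u') ((T3.H62.cjE h).symm y) = y :=
        (T3.H62.cjE h).apply_symm_apply y
      rw [if_pos this]
      rfl
    · intro x hx
      rw [finsum_eq_if, if_neg]
      intro h'
      apply hx
      rw [← h']
      exact ((T3.H62.cjE h).symm_apply_apply x).symm
  rw [hp] at h1
  rw [h1] at hκ
  have h2 := hd.2 _ hκ.2
  rw [← h2]
  change κ 1 = κ ((T3.H62.cjE h) 1)
  rw [map_one]

theorem gv_cj {M : Ideal (integralClosure ℤ ℂ)} [M.IsMaximal] [Finite G] {u u' t : G}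
    (h : t * u * t⁻¹ = u') {b : G → FF M} (hb : IsCl (fun s : Cu u => b s)) {χ : G → ℂ}
    (hχ : ∀ x y, χ (y * x * y⁻¹) = χ x) :
    gv M (Cu u') u' (cj t b) χ = gv M (Cu u) u b χ := by
  change (∑ᶠ c : Cu u', eh M (fun s : Cu u' => cj t b s) c * χ (u' * c)) =
    ∑ᶠ c : Cu u, eh M (fun s : Cu u => b s) c * χ (u * c)
  rw [← finsum_comp_equiv (T3.H62.cjE h).toEquiv]
  refine finsum_congr fun c => ?_
  have h1 := T3.H62.eh_equiv (M := M) (T3.H62.cjE h) hb c
  have h2 : (fun y : Cu u' => (fun s : Cu u => b s) ((T3.H62.cjE h).symm y)) =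
      fun s : Cu u' => cj t b s := rfl
  rw [h2] at h1
  have h3 : χ (u' * (((T3.H62.cjE h).toEquiv c : Cu u') : G)) = χ (u * c) := by
    have e : u' * (((T3.H62.cjE h).toEquiv c : Cu u') : G) = t * (u * c) * t⁻¹ := by
      change u' * (t * (c : G) * t⁻¹) = _
      rw [← h]
      group
    rw [e, hχ]
  rw [h3]
  change eh M (fun s : Cu u' => cj t b s) ((T3.H62.cjE h) c) * _ = _
  rw [h1]

end tools

/-- row DPW -/
theorem dpw (hLOC : T3.LocStmt) (hLPW : T3.LpwStmt) : DpwStmt := by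
  intro ℓ _ M _ hM hℓ2 G _ _ e V γ b d c ε hD
  have hp : ℓ.Prime := Fact.out
  have hF : GoodF ℓ (FF M) := H50.fld ℓ Fact.out M hM
  have hL := hD.ld
  -- signs
  have hsgn : ∀ a a' : ℤ, (a = 1 ∨ a = -1) → (a' = 1 ∨ a' = -1) → (a : FF M) = (a' : FF M) →
      a = a' := by
    intro a a' ha ha' h
    by_contra hne
    have h2 : (2 : FF M) = 0 := by
      rcases ha with rfl | rfl <;> rcases ha' with rfl | rfl
      · exact absurd rfl hne
      · push_cast at h
        linear_combination h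
      · push_cast at h
        linear_combination -h
      · exact absurd rfl hne
    have h3 : (ℓ : FF M) = 0 := by
      have := hF.char
      exact CharP.cast_eq_zero (FF M) ℓ
    have hodd : Odd ℓ := hp.odd_of_ne_two hℓ2
    obtain ⟨k, hk⟩ := hodd
    rw [hk] at h3
    push_cast at h3
    rw [h2, zero_mul, zero_add] at h3
    exact one_ne_zero h3
  have hcj : ∀ t ∈ Tg V γ, ∀ u, Rg V γ u → Rg V γ (t * u * t⁻¹) ∧
      ε (t * u * t⁻¹) = ε u ∧ ∀ χ ∈ Irr G, vv M b d (t * u * t⁻¹) χ = vv M b d u χ := by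
    intro t ht u hu
    have hV : t * u * t⁻¹ ∈ V := (Subgroup.mem_normalizer_iff.1 ht.1 u).1 hu.1
    have hR : Rg V γ (t * u * t⁻¹) := by
      refine ⟨hV, ?_, ?_⟩
      · intro h
        apply hu.2.1
        have : u = t⁻¹ * (t * u * t⁻¹) * t := by group
        rw [this, h]
        group
      · intro s hs
        have h1 : t⁻¹ * s * t ∈ Tg V γ ⊓ Cu u := by
          refine ⟨mul_mem (mul_mem ((Tg V γ).inv_mem ht) hs.1) ht, ?_⟩
          exact (T3.H49.cu_conj rfl s).2 hs.2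
        exact (cent_conj_iff ht.1).1 (hu.2.2 h1)
    have hlc := lc_cj hL.blk.1.1 ht rfl (hD.lc u hu)
    have hb : b (t * u * t⁻¹) = cj t (b u) :=
      (hLOC ℓ (FF M) hF G e V γ hL _ hV).2 _ _ (hD.lc _ hR) hlc
    have hbc : IsCl (fun s : Cu u => b u s) := (hD.lc u hu).blk.blk.1.1
    have hd : d (t * u * t⁻¹) = d u := by
      have h1 := hD.dg _ hR
      rw [hb] at h1
      have h2 := dg_cj (rfl : t * u * t⁻¹ = t * u * t⁻¹) hbc (hD.dg u hu)
      exact dg_unique (nonempty_of_blk hlc.blk.blk) h1 h2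
    refine ⟨hR, ?_, ?_⟩
    · apply hsgn _ _ (hD.sg _ hR) (hD.sg u hu)
      rw [← (hD.cg _ hR).2, ← (hD.cg u hu).2, hd,
        Nat.card_congr (T3.H62.cjE (rfl : t * u * t⁻¹ = t * u * t⁻¹)).toEquiv]
    · intro χ hχ
      unfold vv
      rw [hb, hd, gv_cj rfl hbc (fun x y => irr_conj hχ x y)]
  have hpw : ∀ u, Rg V γ u → ∀ j : ℕ, ¬ ℓ ∣ j → Rg V γ (u ^ j) ∧ b (u ^ j) = b u ∧
      d (u ^ j) = d u ∧ ε (u ^ j) = ε u := by
    intro u hu j hj
    obtain ⟨hC, hlc⟩ := hLPW ℓ (FF M) hF G e V γ hL u hu.1 (b u) (hD.lc u hu) j hj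
    have hV : u ^ j ∈ V := V.pow_mem hu.1 j
    have hR : Rg V γ (u ^ j) := by
      refine ⟨hV, ?_, ?_⟩
      · intro h
        apply hu.2.1
        obtain ⟨n, hn⟩ := hL.tp.pg ⟨u, hu.1⟩
        have hn' : u ^ ℓ ^ n = 1 := congrArg (fun v : V => (v : G)) hn
        have h1 : orderOf u ∣ Nat.gcd (ℓ ^ n) j :=
          Nat.dvd_gcd (orderOf_dvd_of_pow_eq_one hn') (orderOf_dvd_of_pow_eq_one h)
        have h2 : Nat.gcd (ℓ ^ n) j = 1 :=
          Nat.Coprime.pow_left n ((Nat.Prime.coprime_iff_not_dvd hp).2 hj)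
        rw [h2, Nat.dvd_one] at h1
        exact orderOf_eq_one_iff.1 h1
      · rw [hC]
        exact hu.2.2
    have hb : b (u ^ j) = b u :=
      (hLOC ℓ (FF M) hF G e V γ hL _ hV).2 _ _ (hD.lc _ hR) hlc
    have hd : d (u ^ j) = d u := by
      have h1 := hD.dg _ hR
      rw [hb] at h1
      have h2 : Dg M (fun s : Cu (u ^ j) => b u s) (d u) := by
        rw [hC]
        exact hD.dg u hu
      exact dg_unique (nonempty_of_blk hlc.blk.blk) h1 h2
    refine ⟨hR, hb, hd, ?_⟩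
    apply hsgn _ _ (hD.sg _ hR) (hD.sg u hu)
    rw [← (hD.cg _ hR).2, ← (hD.cg u hu).2, hd, hC]
  refine ⟨hcj, hpw, ?_⟩
  intro v hv j hj
  constructor
  · intro h
    refine ⟨hv, ?_, ?_⟩
    · rintro rfl
      exact h.2.1 (one_pow j)
    · intro s hs
      apply h.2.2
      refine ⟨hs.1, ?_⟩
      have h1 := Subgroup.mem_centralizer_singleton_iff.1 hs.2
      exact Subgroup.mem_centralizer_singleton_iff.2 (Commute.pow_right h1 j)
  · intro h
    exact (hpw v h j hj).1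

end Pool.Agent.PP.T8.H8
end
end -- Pool.Agent.Helper8_AT8.DPW

section -- Pool.Agent.Helper33_AT12.OAV

/-!
# Squad AT12, row OAV: orthogonality for the numbers `Av` at the powers of `y`
-/

open scoped BigOperators

noncomputable section

namespace Pool.Agent.PP.T12.H33

open Pool.Agent.Helper51_AWC Pool.Agent.Helper79_WRA Pool.Agent.PP Pool.Agent.PP.KF
open Pool.Agent.PP.K9 Pool.Agent.PP.K9.H97 Pool.Agent.PP.H75 Pool.Agent.PP.T3 Pool.Agent.PP.T2
open Pool.Agent.PP.T8 Pool.Agent.PP.T12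

attribute [local instance] Ideal.Quotient.field

section tools

variable {G H : Type} [Group G] [Finite G] [Group H] [Finite H]
  {M : Ideal (integralClosure ℤ ℂ)} [M.IsMaximal]

/-- the elements of a defect group are `ℓ`-elements -/
theorem el_mem {F : Type} [Field F] {ℓ : ℕ} {e : G → F} {V : Subgroup G} {γ : G → F}
    (hL : Ld ℓ e V γ) {v : G} (hv : v ∈ V) : El ℓ v := by
  obtain ⟨n, hn⟩ := hL.tp.pg ⟨v, hv⟩
  exact ⟨n, congrArg (fun v : V => (v : G)) hn⟩

/-- transport of the function `q` to an equal subgroup -/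
theorem trq {ℓ : ℕ} {C C' : Subgroup G} (h : C' = C) (β : G → FF M) (q : C → ℂ) (hr : Rc ℓ q)
    (hm : mulF q (eh M (fun t : C => β t)) = q) : ∃ q' : C' → ℂ, Rc ℓ q' ∧
    mulF q' (eh M (fun t : C' => β t)) = q' ∧ ∀ (x : G) (χ : G → ℂ),
      gbv C x q χ = gbv C' x q' χ := by
  subst h
  exact ⟨q, hr, hm, fun _ _ => rfl⟩

theorem ze_span {f : H → FF M} {p : H → ℂ} (hp : p ∈ ZE M f) :
    p ∈ Submodule.span ℂ (IrrE M f) := by
  have h : ZE M f ≤ (Submodule.span ℂ (IrrE M f)).toAddSubgroup := by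
    unfold ZE
    rw [AddSubgroup.closure_le]
    intro x hx
    exact Submodule.subset_span hx
  exact h hp

/-- the numbers `Av` at the powers of `y` -/
theorem avq (ha : QavStmt) (hl : T3.LpwStmt) {ℓ : ℕ} [Fact ℓ.Prime]
    (hM : (ℓ : integralClosure ℤ ℂ) ∈ M) {a : ℕ} {e : G → FF M} {V : Subgroup G}
    {γ : G → FF M} {y : G} {β : G → FF M} {π : Cu y →* H} {m K : ℕ} {g : Fin m → H → ℂ}
    (hS : Sy M ℓ a e V γ y β π m K g) {j : ℕ} (hj : ¬ ℓ ∣ j) {p : H → ℂ}
    (hp : p ∈ ZE M (push π (fun t : Cu y => β t))) (hr : Rc ℓ p) :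
    ∃ q : Cu (y ^ j) → ℂ, Rc ℓ q ∧ mulF q (eh M (fun t : Cu (y ^ j) => β t)) = q ∧
      ∀ χ : G → ℂ, Av ℓ π (y ^ j) p χ = gbv (Cu (y ^ j)) (y ^ j) q χ := by
  have hF : GoodF ℓ (FF M) := H50.fld ℓ Fact.out M hM
  obtain ⟨q, h1, h2, h3⟩ := ha ℓ M hM G H y (ℓ ^ a) π hS.qn β hS.lc.blk.ix p (ze_span hp) hr
  have hC := (hl ℓ (FF M) hF G e V γ hS.ld y hS.mem β hS.lc j hj).1
  obtain ⟨q', h4, h5, h6⟩ := trq (M := M) hC β q h1 h2
  exact ⟨q', h4, h5, fun χ => by rw [h3, h6]⟩

/-- orthogonality for two elements of `V` which are not conjugate in the inertial group -/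
theorem core (hq : QorStmt) (hs : T3.FusStmt) {ℓ : ℕ} [Fact ℓ.Prime]
    (hM : (ℓ : integralClosure ℤ ℂ) ∈ M) {e : G → FF M} {V : Subgroup G}
    {γ : G → FF M} (hL : Ld ℓ e V γ) {z v : G} (hz : z ∈ V) (hv : v ∈ V) {β b : G → FF M}
    (hβ : Lc e V γ z β) (hb : Lc e V γ v b) (hne : ∀ t ∈ Tg V γ, t * v * t⁻¹ ≠ z)
    {q : Cu z → ℂ} {q' : Cu v → ℂ} (h1 : Rc ℓ q) (h2 : Rc ℓ q')
    (h3 : mulF q (eh M (fun t : Cu z => β t)) = q)
    (h4 : mulF q' (eh M (fun t : Cu v => b t)) = q') :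
    ∑ᶠ χ ∈ Irr G, gbv (Cu z) z q χ * starRingEnd ℂ (gbv (Cu v) v q' χ) = 0 := by
  refine hq ℓ M hM G z v (el_mem hL hz) (el_mem hL hv) β b hβ.blk.ix hb.blk.ix ?_ q q' h1 h2 h3 h4
  intro x hx
  rcases hβ.blk.dich (T3.H49.bx_cj hx hb.blk) with h | h
  · exfalso
    obtain ⟨t, ht, htu⟩ := hs ℓ M hM G e V γ hL z hz v hv β b hβ hb x hx h.symm
    exact hne t ht htu
  · exact h

omit [Finite G] in
theorem irr_conj {χ : G → ℂ} (hχ : χ ∈ Irr G) (x y : G) : χ (y * x * y⁻¹) = χ x := by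
  obtain ⟨n, ρ, -, rfl⟩ := hχ
  exact ρ.char_conj x y

end tools

/-- row OAV -/
theorem oav (hq : QorStmt) (ha : QavStmt) (hf : QfvStmt) (hl : T3.LpwStmt) (hs : T3.FusStmt)
    (ho : T3.LocStmt) (h2 : C2.Sec2Stmt) : OavStmt := by
  intro ℓ _ M _ hM G H _ _ _ _ a e V γ y β π m K g hS j hj p hp hpr
  have hF : GoodF ℓ (FF M) := H50.fld ℓ Fact.out M hM
  have hL := hS.ld
  have hlz := (hl ℓ (FF M) hF G e V γ hL y hS.mem β hS.lc j hj).2
  have hz : y ^ j ∈ V := pow_mem hS.mem j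
  obtain ⟨q, hq1, hq2, hq3⟩ := avq ha hl hM hS hj hp hpr
  refine ⟨?_, ?_, ?_, ?_⟩
  · intro i hi v hv hne
    obtain ⟨b, hb⟩ := (ho ℓ (FF M) hF G e V γ hL v hv).1
    obtain ⟨q', h1, h3, h4⟩ := hf ℓ M hM G e V γ hL i hi v hv b hb
    rw [← core hq hs hM hL hz hv hlz hb hne hq1 h1 hq2 h3]
    refine finsum_mem_congr rfl fun χ hχ => ?_
    rw [hq3, h4 χ (irr_conj hχ)]
  · intro b d c ε hD u hu hne
    have hb := hD.lc u hu
    have := Fintype.ofFinite (Cu u)
    have h1 : Rc ℓ (eh M (fun t : Cu u => b u t)) :=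
      ⟨KF.H25.eh_cl _, fun x hx => H25.eh_sing T3.H62.wbo_ ℓ M hM _ hb.blk.ix.idem x hx⟩
    have h3 := (KF.H25.eh_idem (M := M) (fun t : Cu u => b u t)).2
    have key := core hq hs hM hL hz hu.1 hlz hb hne hq1 h1 hq2 h3
    have h5 : ∀ χ ∈ Irr G, Av ℓ π (y ^ j) p χ * starRingEnd ℂ (vv M b d u χ) =
        gbv (Cu (y ^ j)) (y ^ j) q χ *
          starRingEnd ℂ (gbv (Cu u) u (eh M (fun t : Cu u => b u t)) χ) * (d u : ℂ)⁻¹ := by
      intro χ _
      rw [hq3]
      unfold vv gv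
      rw [map_div₀, Complex.conj_natCast, div_eq_mul_inv, mul_assoc]
    rw [finsum_mem_congr rfl h5]
    have hfin : (Irr G).Finite := T3.H49.irr_fin G
    rw [finsum_mem_eq_finite_toFinset_sum _ hfin, ← Finset.sum_mul,
      ← finsum_mem_eq_finite_toFinset_sum _ hfin, key, zero_mul]
  · intro j' hj' hne p' hp' hpr'
    obtain ⟨q', h1, h3, h4⟩ := avq ha hl hM hS hj' hp' hpr'
    have hlz' := (hl ℓ (FF M) hF G e V γ hL y hS.mem β hS.lc j' hj').2
    rw [← core hq hs hM hL hz (pow_mem hS.mem j') hlz hlz' hne hq1 h1 hq2 h3]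
    refine finsum_mem_congr rfl fun χ _ => ?_
    rw [hq3, h4]
  · intro p' hp' hpr'
    have hc : j.Coprime ℓ := ((Nat.Prime.coprime_iff_not_dvd Fact.out).2 hj).symm
    exact (h2 ℓ a G H y π hS.qn p p' hpr hpr' j hc).1

end Pool.Agent.PP.T12.H33
end
end -- Pool.Agent.Helper33_AT12.OAV

section -- Pool.Agent.Helper45_AT12.QOR

/-!
# Squad AT12, row QOR: block orthogonality for elements of the blocks of the centralisers
-/

open scoped BigOperators

noncomputable section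

namespace Pool.Agent.PP.T12.H45

open Pool.Agent.Helper51_AWC Pool.Agent.Helper79_WRA Pool.Agent.PP Pool.Agent.PP.KF
open Pool.Agent.PP.K9 Pool.Agent.PP.K9.H97 Pool.Agent.PP.H75 Pool.Agent.PP.T3 Pool.Agent.PP.T2
open Pool.Agent.PP.T8 Pool.Agent.PP.T12

attribute [local instance] Ideal.Quotient.field

section tools

variable {M : Ideal (integralClosure ℤ ℂ)} [M.IsMaximal] {G : Type} [Group G] [Finite G]

/-- the sum over a subgroup -/
theorem sumext [Fintype G] (C : Subgroup G) (f : C → ℂ) (h : G → ℂ) :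
    ∑ᶠ c : C, f c * h c = ∑ g : G, H75.ext0 C f g * h g := by
  classical
  have := Fintype.ofFinite C
  rw [finsum_eq_sum_of_fintype]
  have h1 : ∀ g : G, H75.ext0 C f g * h g = ∑ c : C, if (c : G) = g then f c * h c else 0 := by
    intro g
    by_cases hg : g ∈ C
    · rw [Finset.sum_eq_single (⟨g, hg⟩ : C)]
      · rw [if_pos rfl, H75.ext0, dif_pos hg]
      · intro c _ hc
        rw [if_neg]
        intro h'
        exact hc (Subtype.ext h')
      · intro h'; exact absurd (Finset.mem_univ _) h'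
    · rw [H75.ext0, dif_neg hg, zero_mul, Finset.sum_eq_zero]
      intro c _
      rw [if_neg]
      intro h'
      exact hg (h' ▸ c.2)
  rw [Finset.sum_congr rfl (fun g _ => h1 g), Finset.sum_comm]
  refine Finset.sum_congr rfl fun c _ => ?_
  simp

/-- the adjoint of `q`, and the idempotent acts on it in the same way -/
theorem adj_eh {C : Type} [Group C] [Finite C] (b : C → FF M) {q : C → ℂ}
    (h : mulF q (eh M b) = q) :
    mulF (fun s => starRingEnd ℂ (q s⁻¹)) (eh M b) = fun s => starRingEnd ℂ (q s⁻¹) := by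
  have := Fintype.ofFinite C
  funext s
  show (∑ᶠ t, starRingEnd ℂ (q t⁻¹) * eh M b (t⁻¹ * s)) = starRingEnd ℂ (q s⁻¹)
  have h1 : q s⁻¹ = ∑ t, q t * eh M b (t⁻¹ * s⁻¹) := by
    conv_lhs => rw [← h]
    exact finsum_eq_sum_of_fintype _
  rw [h1, map_sum, finsum_eq_sum_of_fintype, ← Equiv.sum_comp (Equiv.inv C)]
  refine Finset.sum_congr rfl fun t _ => ?_
  show starRingEnd ℂ (q t⁻¹⁻¹) * eh M b (t⁻¹⁻¹ * s) = starRingEnd ℂ (q t * eh M b (t⁻¹ * s⁻¹))
  rw [map_mul, H10.eh_conj, inv_inv]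
  congr 1
  have h2 : (t⁻¹ * s⁻¹)⁻¹ = s * t := by group
  rw [h2]
  have h3 := KF.H25.eh_cl b (s * t) t
  rw [← h3]
  congr 1
  group

end tools

/-- Row QOR. -/
theorem qor : QorStmt := by
  intro ℓ hℓ M _ hM G _ _ u u' hu hu' b b' hb hb' hcon q q' hq hq' hqb hqb'
  classical
  have := Fintype.ofFinite G
  obtain ⟨E, hE⟩ : ∃ E : G → ℂ, E = H75.ext0 (Cu u) (eh M (fun t : Cu u => b t)) := ⟨_, rfl⟩
  obtain ⟨E', hE'⟩ : ∃ E' : G → ℂ, E' = H75.ext0 (Cu u') (eh M (fun t : Cu u' => b' t)) :=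
    ⟨_, rfl⟩
  obtain ⟨B, hB⟩ : ∃ B : G → ℂ, B = H75.ext0 (Cu u) q := ⟨_, rfl⟩
  obtain ⟨B', hB'⟩ : ∃ B' : G → ℂ, B' = H75.ext0 (Cu u')
    (fun s => starRingEnd ℂ (q' s⁻¹)) := ⟨_, rfl⟩
  -- regularity of the support
  have hreg : ∀ g, B g ≠ 0 → g ∈ Cu u ∧ Reg ℓ g := by
    intro g hg
    rw [hB] at hg
    by_cases h : g ∈ Cu u
    · refine ⟨h, ?_⟩
      by_contra hcon
      apply hg
      rw [H75.ext0, dif_pos h]
      exact hq.sg ⟨g, h⟩ (fun hr => hcon (T3.H62.reg_coe hr))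
    · exact absurd (H75.ext0_supp _ _ g h) hg
  have hreg' : ∀ g, B' g ≠ 0 → g ∈ Cu u' ∧ Reg ℓ g := by
    intro g hg
    rw [hB'] at hg
    by_cases h : g ∈ Cu u'
    · refine ⟨h, ?_⟩
      by_contra hcon
      apply hg
      rw [H75.ext0, dif_pos h]
      have h1 : q' (⟨g, h⟩ : Cu u')⁻¹ = 0 := by
        apply hq'.sg
        intro hr
        have h2 : Reg ℓ (⟨g, h⟩ : Cu u') := by
          unfold Reg at hr ⊢
          rwa [orderOf_inv] at hr
        exact hcon (T3.H62.reg_coe h2)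
      rw [h1, map_zero]
    · exact absurd (H75.ext0_supp _ _ g h) hg
  -- the values
  have e1 : ∀ χ : G → ℂ, gbv (Cu u) u q χ = chv (fun g => B (u⁻¹ * g)) χ := by
    intro χ
    change (∑ᶠ c : Cu u, q c * χ (u * c)) = ∑ᶠ g, B (u⁻¹ * g) * χ g
    rw [sumext (Cu u) q (fun g => χ (u * g)), finsum_eq_sum_of_fintype,
      ← Equiv.sum_comp (Equiv.mulLeft u) (fun g => B (u⁻¹ * g) * χ g), hB]
    refine Finset.sum_congr rfl fun g _ => ?_
    simp only [Equiv.coe_mulLeft, inv_mul_cancel_left]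
  have e2 : ∀ χ ∈ Irr G, starRingEnd ℂ (gbv (Cu u') u' q' χ) =
      chv (fun g => B' (u' * g)) χ := by
    intro χ hχ
    change starRingEnd ℂ (∑ᶠ c : Cu u', q' c * χ (u' * c)) = ∑ᶠ g, B' (u' * g) * χ g
    have := Fintype.ofFinite (Cu u')
    rw [finsum_eq_sum_of_fintype, map_sum, ← Equiv.sum_comp (Equiv.inv (Cu u'))]
    have e3 : ∀ c : Cu u', starRingEnd ℂ (q' ((Equiv.inv (Cu u')) c) *
        χ (u' * (((Equiv.inv (Cu u')) c : Cu u') : G))) =
        (fun s : Cu u' => starRingEnd ℂ (q' s⁻¹)) c * χ (u'⁻¹ * c) := by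
      intro c
      rw [map_mul, H94.irr_star hχ]
      have e4 : (u' * (((Equiv.inv (Cu u')) c : Cu u') : G))⁻¹ = u'⁻¹ * c := by
        have h1 : ((((Equiv.inv (Cu u')) c : Cu u') : G)) = (c : G)⁻¹ := rfl
        rw [h1, mul_inv_rev, inv_inv]
        exact ((T3.H62.comm_Cu c.2).inv_right).eq
      rw [e4]
      rfl
    rw [Finset.sum_congr rfl (fun c _ => e3 c), ← finsum_eq_sum_of_fintype,
      sumext (Cu u') (fun s => starRingEnd ℂ (q' s⁻¹)) (fun g => χ (u'⁻¹ * g)),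
      finsum_eq_sum_of_fintype,
      ← Equiv.sum_comp (Equiv.mulLeft u'⁻¹) (fun g => B' (u' * g) * χ g), hB']
    refine Finset.sum_congr rfl fun g _ => ?_
    simp only [Equiv.coe_mulLeft, mul_inv_cancel_left]
  have e6 : ∑ᶠ χ ∈ Irr G, gbv (Cu u) u q χ * starRingEnd ℂ (gbv (Cu u') u' q' χ) =
      ∑ᶠ χ ∈ Irr G, chv (fun g => B (u⁻¹ * g)) χ * chv (fun g => B' (u' * g)) χ := by
    refine finsum_mem_congr rfl fun χ hχ => ?_
    rw [e1, e2 χ hχ]
  rw [e6, Pool.Agent.PP.KF.trc]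
  -- the idempotents act trivially
  have hBE : mulF B E = B := by
    have hs1 : ∀ z, z ∉ Cu u → B z = 0 := by
      rw [hB]; exact H75.ext0_supp _ _
    have hs2 : ∀ z, z ∉ Cu u → E z = 0 := by
      rw [hE]; exact H75.ext0_supp _ _
    apply eq_of_res (mulF_supp (Cu u) hs1 hs2) hs1
    rw [mulF_res (Cu u) _ hs1]
    have h1 : (fun t : Cu u => B t) = q := by
      rw [hB]
      exact funext (H75.ext0_apply _ _)
    have h2 : (fun t : Cu u => E t) = eh M (fun t : Cu u => b t) := by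
      rw [hE]
      exact funext (H75.ext0_apply _ _)
    rw [h1, h2]
    exact hqb
  have hEB' : mulF E' B' = B' := by
    have hs1 : ∀ z, z ∉ Cu u' → B' z = 0 := by
      rw [hB']; exact H75.ext0_supp _ _
    have hs2 : ∀ z, z ∉ Cu u' → E' z = 0 := by
      rw [hE']; exact H75.ext0_supp _ _
    apply eq_of_res (mulF_supp (Cu u') hs2 hs1) hs1
    rw [mulF_res (Cu u') _ hs2]
    have h1 : (fun t : Cu u' => B' t) = fun s => starRingEnd ℂ (q' s⁻¹) := by
      rw [hB']
      exact funext (H75.ext0_apply _ _)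
    have h2 : (fun t : Cu u' => E' t) = eh M (fun t : Cu u' => b' t) := by
      rw [hE']
      exact funext (H75.ext0_apply _ _)
    rw [h1, h2]
    have h3 : IsCl (eh M (fun t : Cu u' => b' t)) := fun x y => KF.H25.eh_cl _ x y
    rw [mulF_comm_cl h3]
    exact adj_eh _ hqb'
  -- parts
  obtain ⟨N, -, hN⟩ := H27.prt ℓ G
  refine finsum_eq_zero_of_forall_eq_zero fun x => ?_
  by_cases hx : x * u' * x⁻¹ = u
  · -- the lift of the product
    have h0 := hcon x hx
    let φ := T3.H62.cjE hx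
    have hcx : ∀ z, z ∈ Cu u ↔ x⁻¹ * z * x ∈ Cu u' := by
      intro z
      constructor
      · intro hz
        exact (φ.symm ⟨z, hz⟩).2
      · intro hz
        have h1 := (φ ⟨x⁻¹ * z * x, hz⟩).2
        change x * (x⁻¹ * z * x) * x⁻¹ ∈ Cu u at h1
        have h2 : x * (x⁻¹ * z * x) * x⁻¹ = z := by group
        rwa [h2] at h1
    have hE0 : mulF E (H75.cj x E') = 0 := by
      have hs1 : ∀ z, z ∉ Cu u → E z = 0 := by
        rw [hE]; exact H75.ext0_supp _ _
      have hs2 : ∀ z, z ∉ Cu u → H75.cj x E' z = 0 := by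
        intro z hz
        change E' (x⁻¹ * z * x) = 0
        rw [hE']
        apply H75.ext0_supp
        intro h
        exact hz ((hcx z).2 h)
      apply eq_of_res (mulF_supp (Cu u) hs1 hs2) (fun _ _ => rfl)
      rw [mulF_res (Cu u) _ hs1]
      have h1 : (fun t : Cu u => E t) = eh M (fun t : Cu u => b t) := by
        rw [hE]
        exact funext (H75.ext0_apply _ _)
      have h2 : (fun t : Cu u => H75.cj x E' t) = eh M (fun t : Cu u => H75.cj x b' t) := by
        funext t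
        have h3 := T3.H62.eh_equiv (M := M) φ hb'.idem.1 (φ.symm t)
        rw [φ.apply_symm_apply] at h3
        have h4 : (fun y : Cu u => b' ((φ.symm y : Cu u') : G)) =
            fun t : Cu u => H75.cj x b' t := rfl
        rw [h4] at h3
        rw [h3]
        change E' (x⁻¹ * (t : G) * x) = _
        rw [hE']
        exact H75.ext0_apply (Cu u') _ (φ.symm t)
      rw [h1, h2]
      have h5 : IsIdem (fun t : Cu u => H75.cj x b' t) := by
        refine ⟨?_, ?_⟩
        · intro z y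
          change b' (x⁻¹ * ((y : G) * z * (y : G)⁻¹) * x) = b' (x⁻¹ * z * x)
          have h6 := hb'.idem.1 (φ.symm z) (φ.symm y)
          have h7 : ((φ.symm y * φ.symm z * (φ.symm y)⁻¹ : Cu u') : G) =
              x⁻¹ * ((y : G) * z * (y : G)⁻¹) * x := by
            rw [← map_inv, ← map_mul, ← map_mul]
            rfl
          change b' ((φ.symm y * φ.symm z * (φ.symm y)⁻¹ : Cu u') : G) = b' (x⁻¹ * z * x) at h6
          rw [h7] at h6
          exact h6
        · have hs3 : ∀ z, z ∉ Cu u → H75.cj x b' z = 0 := by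
            intro z hz
            change b' (x⁻¹ * z * x) = 0
            apply hb'.supp
            intro h
            exact hz ((hcx z).2 h)
          rw [← mulF_res (Cu u) (H75.cj x b') hs3, ← cj_mulF, hb'.mul]
      have h6 : mulF (fun t : Cu u => b t) (fun t : Cu u => H75.cj x b' t) = 0 := by
        rw [← mulF_res (Cu u) (H75.cj x b') hb.supp, h0]
        rfl
      exact T3.H62.eh_orth hb.idem h5 h6
    have hB0 : mulF B (H75.cj x B') = 0 := by
      have z1 : ∀ a : G → ℂ, mulF 0 a = 0 := by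
        intro a
        funext y
        show (∑ᶠ t, (0 : G → ℂ) t * a (t⁻¹ * y)) = 0
        simp
      have z2 : ∀ a : G → ℂ, mulF a 0 = 0 := by
        intro a
        funext y
        show (∑ᶠ t, a t * (0 : G → ℂ) (t⁻¹ * y)) = 0
        simp
      rw [← hBE, ← hEB', cj_mulF, Pool.Agent.PP.mulF_assoc, ← Pool.Agent.PP.mulF_assoc E, hE0,
        z1, z2]
    have h1 := congrFun hB0 1
    change (∑ᶠ t, B t * B' (x⁻¹ * (t⁻¹ * 1) * x)) = 0 at h1
    rw [finsum_eq_sum_of_fintype] at h1 ⊢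
    rw [← h1, ← Equiv.sum_comp (Equiv.mulLeft u)
      (fun g => B (u⁻¹ * g) * B' (u' * (x⁻¹ * g⁻¹ * x)))]
    refine Finset.sum_congr rfl fun g _ => ?_
    simp only [Equiv.coe_mulLeft, inv_mul_cancel_left, mul_one]
    by_cases hg : B g = 0
    · rw [hg, zero_mul, zero_mul]
    · congr 2
      have h2 : Commute g u := T3.H62.comm_Cu (hreg g hg).1
      have h3 : u' = x⁻¹ * u * x := by rw [← hx]; group
      rw [h3, h2.symm.eq, mul_inv_rev]
      group
  · refine finsum_eq_zero_of_forall_eq_zero fun g => ?_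
    by_contra hne
    have h1 : B (u⁻¹ * g) ≠ 0 := left_ne_zero_of_mul hne
    have h2 : B' (u' * (x⁻¹ * g⁻¹ * x)) ≠ 0 := right_ne_zero_of_mul hne
    obtain ⟨s, hs⟩ : ∃ s, s = u⁻¹ * g := ⟨_, rfl⟩
    obtain ⟨s', hs'⟩ : ∃ s', s' = u' * (x⁻¹ * g⁻¹ * x) := ⟨_, rfl⟩
    rw [← hs] at h1
    rw [← hs'] at h2
    obtain ⟨hsC, hsR⟩ := hreg s h1
    obtain ⟨hsC', hsR'⟩ := hreg' s' h2
    have hg : g = u * s := by rw [hs]; group
    have h3 : x⁻¹ * (s⁻¹ * u⁻¹) * x = s' * u'⁻¹ := by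
      have h4 : Commute s' u'⁻¹ := (T3.H62.comm_Cu hsC').inv_right
      rw [h4.eq, hs', hg, mul_inv_rev]
      group
    have hsi : Reg ℓ s⁻¹ := by
      unfold Reg at hsR ⊢
      rwa [orderOf_inv]
    have hinv : ∀ {y : G}, El ℓ y → ∃ n : ℕ, (y⁻¹) ^ ℓ ^ n = 1 := by
      rintro y ⟨n, hn⟩
      exact ⟨n, by rw [inv_pow, hn, inv_one]⟩
    have k1 : (s⁻¹ * u⁻¹) ^ N = s⁻¹ :=
      hN s⁻¹ u⁻¹ (T3.H62.comm_Cu hsC).inv_inv hsi (hinv hu)
    have k2 : (s' * u'⁻¹) ^ N = s' :=
      hN s' u'⁻¹ (T3.H62.comm_Cu hsC').inv_right hsR' (hinv hu')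
    have h5 : x⁻¹ * s⁻¹ * x = s' := by
      rw [← k2, ← h3]
      have h6 : x⁻¹ * (s⁻¹ * u⁻¹) * x = x⁻¹ * (s⁻¹ * u⁻¹) * (x⁻¹)⁻¹ := by group
      rw [h6, conj_pow, k1]
      group
    apply hx
    have h7 : x⁻¹ * (s⁻¹ * u⁻¹) * x = (x⁻¹ * s⁻¹ * x) * (x⁻¹ * u⁻¹ * x) := by group
    rw [h7, h5] at h3
    have h8 : x⁻¹ * u⁻¹ * x = u'⁻¹ := mul_left_cancel h3
    have h9 : u' = x⁻¹ * u * x := by
      have h10 := congrArg (·⁻¹) h8
      simp only [inv_inv, mul_inv_rev] at h10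
      rw [← h10]
      group
    rw [h9]
    group

end Pool.Agent.PP.T12.H45
end
end -- Pool.Agent.Helper45_AT12.QOR

section -- Pool.Agent.Helper84_AT12.FSY

/-!
# Squad AT12, row FSY: the sum over the conjugates
-/

open scoped BigOperators

noncomputable section

namespace Pool.Agent.PP.T12.H84

open Pool.Agent.Helper51_AWC Pool.Agent.Helper79_WRA Pool.Agent.PP Pool.Agent.PP.KF
open Pool.Agent.PP.K9 Pool.Agent.PP.K9.H97 Pool.Agent.PP.H75 Pool.Agent.PP.T3 Pool.Agent.PP.T2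
open Pool.Agent.PP.T8

attribute [local instance] Ideal.Quotient.field

section tools

variable {G : Type} [Group G]

/-- conjugation with an element of the normaliser, on the centraliser -/
def cE {V : Subgroup G} {s : G} (hs : s ∈ Subgroup.normalizer (V : Set G)) :
    Subgroup.centralizer (V : Set G) ≃* Subgroup.centralizer (V : Set G) where
  toFun x := ⟨s * x * s⁻¹, T8.H8.conj_cent hs x.2⟩
  invFun x := ⟨s⁻¹ * x * s, (T8.H8.cent_conj_iff hs).2 x.2⟩
  left_inv x := by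
    apply Subtype.ext
    change s⁻¹ * (s * (x : G) * s⁻¹) * s = x
    group
  right_inv x := by
    apply Subtype.ext
    change s * (s⁻¹ * (x : G) * s) * s⁻¹ = x
    group
  map_mul' x y := by
    apply Subtype.ext
    change s * ((x : G) * y) * s⁻¹ = s * (x : G) * s⁻¹ * (s * (y : G) * s⁻¹)
    group

variable [Finite G] {M : Ideal (integralClosure ℤ ℂ)} [M.IsMaximal]

theorem irrE_conj {V : Subgroup G} {γ : G → FF M} {s : G} (hs : s ∈ Tg V γ)
    (hcl : IsCl (fun t : Subgroup.centralizer (V : Set G) => γ t))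
    {κ : Subgroup.centralizer (V : Set G) → ℂ}
    (hκ : κ ∈ IrrE M (fun t : Subgroup.centralizer (V : Set G) => γ t)) :
    (fun c => κ (cE hs.1 c)) ∈ IrrE M (fun t : Subgroup.centralizer (V : Set G) => γ t) := by
  classical
  have h1 := (K9.H3.psi M _ _ ((cE hs.1 : Subgroup.centralizer (V : Set G) ≃*
    Subgroup.centralizer (V : Set G)) : Subgroup.centralizer (V : Set G) →*
    Subgroup.centralizer (V : Set G)) (cE hs.1).surjective
    (fun t : Subgroup.centralizer (V : Set G) => γ t) hcl).1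
  have hγ : cj s γ = γ := by
    rw [cj_eq_iff]
    exact hs.2
  have hp : H75.push ((cE hs.1 : Subgroup.centralizer (V : Set G) ≃*
      Subgroup.centralizer (V : Set G)) : Subgroup.centralizer (V : Set G) →*
      Subgroup.centralizer (V : Set G)) (fun t : Subgroup.centralizer (V : Set G) => γ t) =
      fun t : Subgroup.centralizer (V : Set G) => γ t := by
    funext y
    unfold H75.push
    rw [finsum_eq_single _ ((cE hs.1).symm y)]
    · rw [finsum_eq_if]
      have : ((cE hs.1 : Subgroup.centralizer (V : Set G) ≃*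
        Subgroup.centralizer (V : Set G)) : Subgroup.centralizer (V : Set G) →*
        Subgroup.centralizer (V : Set G)) ((cE hs.1).symm y) = y :=
        (cE hs.1).apply_symm_apply y
      rw [if_pos this]
      exact congrFun hγ y
    · intro x hx
      rw [finsum_eq_if, if_neg]
      intro h'
      apply hx
      rw [← h']
      exact ((cE hs.1).symm_apply_apply x).symm
  rw [hp] at h1
  rw [h1] at hκ
  exact hκ.2

theorem rs_cj {F : Type} [Field F] (z s : G) (a : G → F) :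
    rs (Cu z) (cj s a) = cj s (rs (Cu (s⁻¹ * z * s)) a) := by
  classical
  funext x
  change (if x ∈ Cu z then a (s⁻¹ * x * s) else 0) =
    if s⁻¹ * x * s ∈ Cu (s⁻¹ * z * s) then a (s⁻¹ * x * s) else 0
  have h : s⁻¹ * x * s ∈ Cu (s⁻¹ * z * s) ↔ x ∈ Cu z := by
    rw [Subgroup.mem_centralizer_singleton_iff, Subgroup.mem_centralizer_singleton_iff]
    constructor
    · intro h
      have h1 : s * (s⁻¹ * x * s * (s⁻¹ * z * s)) * s⁻¹ =
        s * (s⁻¹ * z * s * (s⁻¹ * x * s)) * s⁻¹ := by rw [h]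
      have e1 : s * (s⁻¹ * x * s * (s⁻¹ * z * s)) * s⁻¹ = x * z := by group
      have e2 : s * (s⁻¹ * z * s * (s⁻¹ * x * s)) * s⁻¹ = z * x := by group
      rwa [e1, e2] at h1
    · intro h
      have e1 : s⁻¹ * x * s * (s⁻¹ * z * s) = s⁻¹ * (x * z) * s := by group
      have e2 : s⁻¹ * z * s * (s⁻¹ * x * s) = s⁻¹ * (z * x) * s := by group
      rw [e1, e2, h]
  by_cases hx : x ∈ Cu z
  · rw [if_pos hx, if_pos (h.2 hx)]
  · rw [if_neg hx, if_neg (fun h' => hx (h.1 h'))]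

/-- the conjugates of a coherent idempotent with the inertial group -/
theorem ci_cj {e : G → FF M} (he : IsCl e) {V : Subgroup G} {γ : G → FF M}
    (hcl : IsCl (fun t : Subgroup.centralizer (V : Set G) => γ t)) {i : G → ℂ}
    (hi : Ci M e V γ i) {s : G} (hs : s ∈ Tg V γ) : Ci M e V γ (cj s i) := by
  have hγ : cj s γ = γ := by
    rw [cj_eq_iff]
    exact hs.2
  have hVn : ∀ v ∈ V, s⁻¹ * v * s ∈ V := by
    intro v hv
    have h2 := (Subgroup.mem_normalizer_iff.1 (inv_mem hs.1) v).1 hv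
    rwa [inv_inv] at h2
  refine ⟨⟨?_, ?_, ?_⟩, ?_, ?_, ?_⟩
  · intro g
    exact hi.ip.rm _
  · rw [← cj_mulF, hi.ip.id]
  · intro v hv x
    change i (s⁻¹ * (v * x * v⁻¹) * s) = i (s⁻¹ * x * s)
    rw [← hi.ip.iv _ (hVn v hv) (s⁻¹ * x * s)]
    congr 1
    group
  · change mulF (br V (cj s (rd M i))) γ = br V (cj s (rd M i))
    rw [T8.H8.br_cj_norm hs.1]
    conv_lhs => rw [← hγ]
    rw [← cj_mulF, hi.gm]
  · intro z hz b hb
    change mulF (rs (Cu z) (cj s (rd M i))) b = rs (Cu z) (cj s (rd M i))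
    have h1 : Lc e V γ (s⁻¹ * z * s) (cj s⁻¹ b) :=
      T8.H8.lc_cj he (inv_mem hs) (by rw [inv_inv]) hb
    have h2 := congrArg (cj s) (hi.lb _ (hVn z hz) _ h1)
    rw [cj_mulF, cj_cj_inv] at h2
    rw [rs_cj]
    exact h2
  · intro κ hκ
    have h1 := hi.nz _ (irrE_conj hs hcl hκ)
    have h2 : (∑ᶠ t : Subgroup.centralizer (V : Set G), cj s i t * κ t) =
        ∑ᶠ t : Subgroup.centralizer (V : Set G), i t * κ (cE hs.1 t) := by
      rw [← finsum_comp_equiv (cE hs.1).toEquiv]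
      refine finsum_congr fun c => ?_
      change i (s⁻¹ * (s * (c : G) * s⁻¹) * s) * κ (cE hs.1 c) = _
      congr 2
      group
    rw [h2]
    exact h1

omit [Finite G] in
theorem fv_cj {i χ : G → ℂ} (hχ : ∀ x y, χ (y * x * y⁻¹) = χ x) (t z : G) :
    fv i (t * z * t⁻¹) χ = fv (cj t⁻¹ i) z χ := by
  unfold fv
  rw [← finsum_comp_equiv (MulAut.conj t).toEquiv]
  refine finsum_congr fun h => ?_
  change i (t * h * t⁻¹) * χ (t * z * t⁻¹ * (t * h * t⁻¹)) =
    i (t⁻¹⁻¹ * h * t⁻¹) * χ (z * h)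
  have e : t * z * t⁻¹ * (t * h * t⁻¹) = t * (z * h) * t⁻¹ := by group
  rw [e, hχ, inv_inv]

end tools

/-- FSY -/
theorem fsy (avi : AviStmt) : FsyStmt := by
  intro ℓ _ M _ hM G H _ _ _ _ a e V γ y β π m K g hS i hi
  have he : IsCl e := hS.ld.blk.1.1
  have hcl : IsCl (fun t : Subgroup.centralizer (V : Set G) => γ t) := hS.ld.gam.blk.1.1
  have hex : ∀ q : Tg V γ ⧸ (Subgroup.centralizer (V : Set G)).subgroupOf (Tg V γ),
      ∃ n : Fin m → ℤ, (∀ s s', ((m * K + 1 : ℕ) : ℤ) ∣ n s - n s') ∧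
      ∀ j : ℕ, ¬ ℓ ∣ j → ∀ χ ∈ Irr G,
        fv (cj ((q.out : G))⁻¹ i) (y ^ j) χ = ∑ s, (n s : ℂ) * Av ℓ π (y ^ j) (g s) χ :=
    fun q => avi ℓ M hM G H a e V γ y β π m K g hS _ (ci_cj he hcl hi (inv_mem q.out.2))
  choose n hn1 hn2 using hex
  refine ⟨fun s => ∑ᶠ q, n q s, ?_, ?_⟩
  · intro s s'
    change ((m * K + 1 : ℕ) : ℤ) ∣ (∑ᶠ q, n q s) - ∑ᶠ q, n q s'
    let _ := Fintype.ofFinite (Tg V γ ⧸ (Subgroup.centralizer (V : Set G)).subgroupOf (Tg V γ))
    rw [finsum_eq_sum_of_fintype, finsum_eq_sum_of_fintype, ← Finset.sum_sub_distrib]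
    exact Finset.dvd_sum fun q _ => hn1 q s s'
  · intro j hj χ hχ
    let _ := Fintype.ofFinite (Tg V γ ⧸ (Subgroup.centralizer (V : Set G)).subgroupOf (Tg V γ))
    have hχc : ∀ x y, χ (y * x * y⁻¹) = χ x := fun x y => irr_conj hχ x y
    unfold fs
    rw [finsum_eq_sum_of_fintype]
    have h1 : ∀ q : Tg V γ ⧸ (Subgroup.centralizer (V : Set G)).subgroupOf (Tg V γ),
        fv i ((q.out : G) * y ^ j * (q.out : G)⁻¹) χ =
          ∑ s, (n q s : ℂ) * Av ℓ π (y ^ j) (g s) χ := by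
      intro q
      rw [fv_cj hχc, hn2 q j hj χ hχ]
    rw [Finset.sum_congr rfl (fun q _ => h1 q), Finset.sum_comm]
    refine Finset.sum_congr rfl fun s _ => ?_
    rw [← Finset.sum_mul]
    congr 1
    change _ = ((∑ᶠ q, n q s : ℤ) : ℂ)
    rw [finsum_eq_sum_of_fintype, Int.cast_sum]

end Pool.Agent.PP.T12.H84
end
end -- Pool.Agent.Helper84_AT12.FSY

section -- Pool.Agent.Helper91_AT12.CNB

/-!
# Squad AT12, row CNB: the count of the fixed characters
-/

open scoped BigOperators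

noncomputable section

namespace Pool.Agent.PP.T12.H91

theorem pairs {m : ℕ} (D : Fin m → Fin m → ℝ) (R : Fin m → Fin m → Prop) (P : ℝ) (hP : 0 ≤ P)
    (hD : ∀ s s', 0 ≤ D s s') (hR : ∀ s s', R s s' ∨ P ≤ D s s')
    (hs : ∀ s s', R s s' → R s' s) (ht : ∀ s t u, R s t → R t u → R s u) (hr : ∀ s, R s s)
    (s0 s1 : Fin m) (h01 : ¬ R s0 s1) : 2 * ((m : ℝ) - 1) * P ≤ ∑ s, ∑ s', D s s' := by
  classical
  set K : Finset (Fin m) := Finset.univ.filter (fun s => R s0 s) with hK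
  have hmem : ∀ s, s ∈ K ↔ R s0 s := fun s => by simp [hK]
  have h1 : ∀ s ∈ K, (Kᶜ.card : ℝ) * P ≤ ∑ s', D s s' := by
    intro s hs1
    calc (Kᶜ.card : ℝ) * P = ∑ _s' ∈ Kᶜ, P := by rw [Finset.sum_const, nsmul_eq_mul]
      _ ≤ ∑ s' ∈ Kᶜ, D s s' := by
          apply Finset.sum_le_sum
          intro s' hs'
          rcases hR s s' with h | h
          · exact absurd ((hmem s').2 (ht _ _ _ ((hmem s).1 hs1) h)) (Finset.mem_compl.1 hs')
          · exact h
      _ ≤ ∑ s', D s s' :=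
          Finset.sum_le_sum_of_subset_of_nonneg (Finset.subset_univ _) (fun _ _ _ => hD _ _)
  have h2 : ∀ s ∈ Kᶜ, (K.card : ℝ) * P ≤ ∑ s', D s s' := by
    intro s hs1
    calc (K.card : ℝ) * P = ∑ _s' ∈ K, P := by rw [Finset.sum_const, nsmul_eq_mul]
      _ ≤ ∑ s' ∈ K, D s s' := by
          apply Finset.sum_le_sum
          intro s' hs'
          rcases hR s s' with h | h
          · exact absurd ((hmem s).2 (ht _ _ _ ((hmem s').1 hs') (hs _ _ h)))
              (Finset.mem_compl.1 hs1)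
          · exact h
      _ ≤ ∑ s', D s s' :=
          Finset.sum_le_sum_of_subset_of_nonneg (Finset.subset_univ _) (fun _ _ _ => hD _ _)
  have hc : K.card + Kᶜ.card = m := by
    rw [Finset.card_add_card_compl, Fintype.card_fin]
  have hc1 : 1 ≤ K.card := Finset.card_pos.2 ⟨s0, (hmem s0).2 (hr s0)⟩
  have hc2 : 1 ≤ Kᶜ.card :=
    Finset.card_pos.2 ⟨s1, Finset.mem_compl.2 (fun h => h01 ((hmem s1).1 h))⟩
  have hc' : (K.card : ℝ) + Kᶜ.card = m := by exact_mod_cast hc
  have hc1' : (1 : ℝ) ≤ K.card := by exact_mod_cast hc1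
  have hc2' : (1 : ℝ) ≤ Kᶜ.card := by exact_mod_cast hc2
  rw [← Finset.sum_add_sum_compl K]
  have e1 : (K.card : ℝ) * (Kᶜ.card * P) ≤ ∑ s ∈ K, ∑ s', D s s' := by
    rw [← nsmul_eq_mul, ← Finset.sum_const]
    exact Finset.sum_le_sum h1
  have e2 : (Kᶜ.card : ℝ) * (K.card * P) ≤ ∑ s ∈ Kᶜ, ∑ s', D s s' := by
    rw [← nsmul_eq_mul, ← Finset.sum_const]
    exact Finset.sum_le_sum h2
  refine le_trans ?_ (add_le_add e1 e2)
  have e3 : 0 ≤ ((K.card : ℝ) - 1) * ((Kᶜ.card : ℝ) - 1) * P := by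
    apply mul_nonneg (mul_nonneg _ _) hP <;> linarith
  rw [← hc']
  nlinarith

theorem cnb : CnbStmt := by
  classical
  intro ℓ m J ρ _ _ X a v hodd hl3 hm hdvd hJ h1 h2 h3 h4 h5 h6 h7 h8
  set P : ℝ := (Fintype.card J : ℝ) with hPdef
  have hP : 0 < P := by rw [hPdef]; exact_mod_cast hJ
  have hl : (3 : ℝ) ≤ ℓ := by exact_mod_cast hl3
  have hm' : (2 : ℝ) ≤ m := by exact_mod_cast hm
  set Z : Finset ρ := Finset.univ.filter (fun r => ∀ j, a j r = 0) with hZ
  set Ac : Finset ρ := Finset.univ.filter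
    (fun r => (∃ j, a j r ≠ 0) ∧ ∀ j s s', X j r s = X j r s') with hAc
  set An : Finset ρ := Finset.univ.filter
    (fun r => (∃ j, a j r ≠ 0) ∧ ¬ ∀ j s s', X j r s = X j r s') with hAn
  have hcard : Fintype.card ρ ≤ Z.card + Ac.card + An.card := by
    have hu : (Finset.univ : Finset ρ) ⊆ (Z ∪ Ac) ∪ An := by
      intro r _
      simp only [hZ, hAc, hAn, Finset.mem_union, Finset.mem_filter, Finset.mem_univ, true_and]
      by_cases hz : ∀ j, a j r = 0
      · exact Or.inl (Or.inl hz)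
      · have hz' : ∃ j, a j r ≠ 0 := by
          by_contra hcon
          apply hz
          intro j
          by_contra hj
          exact hcon ⟨j, hj⟩
        by_cases hx : ∀ j s s', X j r s = X j r s'
        · exact Or.inl (Or.inr ⟨hz', hx⟩)
        · exact Or.inr ⟨hz', hx⟩
    calc Fintype.card ρ = (Finset.univ : Finset ρ).card := rfl
      _ ≤ ((Z ∪ Ac) ∪ An).card := Finset.card_le_card hu
      _ ≤ (Z ∪ Ac).card + An.card := Finset.card_union_le _ _
      _ ≤ Z.card + Ac.card + An.card := Nat.add_le_add_right (Finset.card_union_le _ _) _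
  -- (1)
  have s1 : (An.card : ℝ) ≤ m * ℓ := by
    have g1 : ∀ r ∈ An, 2 * ((m : ℝ) - 1) * P ≤
        ∑ s, ∑ s', ∑ j, Complex.normSq (X j r s - X j r s') := by
      intro r hr
      have hr' := (Finset.mem_filter.1 hr).2.2
      have hex : ∃ s0 s1, ¬ ∀ j, X j r s0 = X j r s1 := by
        by_contra hcon
        apply hr'
        intro j s s'
        by_contra hne
        exact hcon ⟨s, s', fun h => hne (h j)⟩
      obtain ⟨s0, s1, h01⟩ := hex
      refine pairs (fun s s' => ∑ j, Complex.normSq (X j r s - X j r s'))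
        (fun s s' => ∀ j, X j r s = X j r s') P hP.le
        (fun s s' => Finset.sum_nonneg fun j _ => Complex.normSq_nonneg _)
        (fun s s' => h5 r s s') (fun s s' h j => (h j).symm)
        (fun s t u h h' j => (h j).trans (h' j)) (fun s j => rfl) s0 s1 h01
    have g2 : (An.card : ℝ) * (2 * ((m : ℝ) - 1) * P) ≤
        ∑ r, ∑ s, ∑ s', ∑ j, Complex.normSq (X j r s - X j r s') := by
      calc (An.card : ℝ) * (2 * ((m : ℝ) - 1) * P)
          = ∑ _r ∈ An, (2 * ((m : ℝ) - 1) * P) := by rw [Finset.sum_const, nsmul_eq_mul]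
        _ ≤ ∑ r ∈ An, ∑ s, ∑ s', ∑ j, Complex.normSq (X j r s - X j r s') :=
            Finset.sum_le_sum g1
        _ ≤ _ := Finset.sum_le_sum_of_subset_of_nonneg (Finset.subset_univ _)
            (fun _ _ _ => Finset.sum_nonneg fun _ _ => Finset.sum_nonneg fun _ _ =>
              Finset.sum_nonneg fun _ _ => Complex.normSq_nonneg _)
    have g3 : ∑ r, ∑ s, ∑ s', ∑ j, Complex.normSq (X j r s - X j r s') =
        ∑ s, ∑ s', ∑ j, ∑ r, Complex.normSq (X j r s - X j r s') := by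
      rw [Finset.sum_comm]
      apply Finset.sum_congr rfl
      intro s _
      rw [Finset.sum_comm]
      apply Finset.sum_congr rfl
      intro s' _
      rw [Finset.sum_comm]
    have g4 : ∀ s s' : Fin m, ∑ j, ∑ r, Complex.normSq (X j r s - X j r s') ≤
        if s = s' then 0 else P * (2 * ℓ) := by
      intro s s'
      split_ifs with h
      · subst h
        simp
      · calc ∑ j, ∑ r, Complex.normSq (X j r s - X j r s') ≤ ∑ _j : J, (2 * (ℓ : ℝ)) :=
              Finset.sum_le_sum fun j _ => h1 j s s' h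
          _ = P * (2 * ℓ) := by
              rw [Finset.sum_const, nsmul_eq_mul, Finset.card_univ]
    have g5 : ∑ s, ∑ s', ∑ j, ∑ r, Complex.normSq (X j r s - X j r s') ≤
        m * ((m - 1) * (P * (2 * ℓ))) := by
      calc ∑ s, ∑ s', ∑ j, ∑ r, Complex.normSq (X j r s - X j r s')
          ≤ ∑ s : Fin m, ∑ s' : Fin m, if s = s' then 0 else P * (2 * ℓ) :=
            Finset.sum_le_sum fun s _ => Finset.sum_le_sum fun s' _ => g4 s s'
        _ = ∑ _s : Fin m, ((m : ℝ) - 1) * (P * (2 * ℓ)) := by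
            apply Finset.sum_congr rfl
            intro s _
            have e1 : ∀ s' : Fin m, (if s = s' then 0 else P * (2 * (ℓ : ℝ))) =
                P * (2 * ℓ) - if s = s' then P * (2 * ℓ) else 0 := by
              intro s'
              split_ifs <;> ring
            rw [Finset.sum_congr rfl (fun s' _ => e1 s'), Finset.sum_sub_distrib,
              Finset.sum_ite_eq, if_pos (Finset.mem_univ s), Finset.sum_const, nsmul_eq_mul,
              Finset.card_univ, Fintype.card_fin]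
            ring
        _ = m * ((m - 1) * (P * (2 * ℓ))) := by
            rw [Finset.sum_const, nsmul_eq_mul, Finset.card_univ, Fintype.card_fin]
    have g6 : (An.card : ℝ) * (2 * ((m : ℝ) - 1) * P) ≤ (m * ℓ) * (2 * ((m : ℝ) - 1) * P) := by
      refine g2.trans (g3.le.trans (g5.trans (le_of_eq ?_)))
      ring
    exact le_of_mul_le_mul_right g6 (by nlinarith)
  -- (2)
  have s2 : (m : ℝ) ^ 2 * Ac.card + An.card ≤ m * ℓ ^ 2 := by
    have g1 : ∑ r, ∑ j, Complex.normSq (a j r) ≤ P * (m * ℓ ^ 2) := by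
      rw [Finset.sum_comm]
      calc ∑ j, ∑ r, Complex.normSq (a j r) ≤ ∑ _j : J, ((m : ℝ) * ℓ ^ 2) :=
            Finset.sum_le_sum fun j _ => h2 j
        _ = P * (m * ℓ ^ 2) := by rw [Finset.sum_const, nsmul_eq_mul, Finset.card_univ]
    have g2 : (Ac.card : ℝ) * (m ^ 2 * P) ≤ ∑ r ∈ Ac, ∑ j, Complex.normSq (a j r) := by
      rw [← nsmul_eq_mul, ← Finset.sum_const]
      apply Finset.sum_le_sum
      intro r hr
      have hr' := (Finset.mem_filter.1 hr).2
      exact h7 r hr'.1 hr'.2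
    have g3 : (An.card : ℝ) * P ≤ ∑ r ∈ An, ∑ j, Complex.normSq (a j r) := by
      rw [← nsmul_eq_mul, ← Finset.sum_const]
      apply Finset.sum_le_sum
      intro r hr
      exact h6 r (Finset.mem_filter.1 hr).2.1
    have g4 : ∑ r ∈ Ac, ∑ j, Complex.normSq (a j r) + ∑ r ∈ An, ∑ j, Complex.normSq (a j r) ≤
        ∑ r, ∑ j, Complex.normSq (a j r) := by
      rw [← Finset.sum_union]
      · exact Finset.sum_le_sum_of_subset_of_nonneg (Finset.subset_univ _)
          (fun _ _ _ => Finset.sum_nonneg fun _ _ => Complex.normSq_nonneg _)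
      · rw [Finset.disjoint_left]
        intro r hr hr'
        exact (Finset.mem_filter.1 hr').2.2 (Finset.mem_filter.1 hr).2.2
    have g5 : ((m : ℝ) ^ 2 * Ac.card + An.card) * P ≤ (m * ℓ ^ 2) * P := by nlinarith
    exact le_of_mul_le_mul_right g5 hP
  have s3 : (m : ℝ) * (Ac.card + An.card) ≤ ℓ ^ 2 + (m ^ 2 - 1) * ℓ := by
    have e1 : (m : ℝ) * (m * (Ac.card + An.card)) ≤ m * (ℓ ^ 2 + (m ^ 2 - 1) * ℓ) := by
      have : ((m : ℝ) ^ 2 - 1) * An.card ≤ (m ^ 2 - 1) * (m * ℓ) :=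
        mul_le_mul_of_nonneg_left s1 (by nlinarith)
      nlinarith
    exact le_of_mul_le_mul_left e1 (by linarith)
  -- the elements of `Z`
  have hz : ∀ c : ℝ, ∀ w : J → ρ → ℂ, (∀ j, ∑ r, Complex.normSq (w j r) ≤ c) →
      (∀ r ∈ Z, (ℓ : ℝ) ^ 2 * P ≤ ∑ j, Complex.normSq (w j r)) → (Z.card : ℝ) * ℓ ^ 2 ≤ c := by
    intro c w hw1 hw2
    have g1 : ∑ r, ∑ j, Complex.normSq (w j r) ≤ P * c := by
      rw [Finset.sum_comm]
      calc ∑ j, ∑ r, Complex.normSq (w j r) ≤ ∑ _j : J, c :=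
            Finset.sum_le_sum fun j _ => hw1 j
        _ = P * c := by rw [Finset.sum_const, nsmul_eq_mul, Finset.card_univ]
    have g2 : (Z.card : ℝ) * (ℓ ^ 2 * P) ≤ ∑ r ∈ Z, ∑ j, Complex.normSq (w j r) := by
      rw [← nsmul_eq_mul, ← Finset.sum_const]
      exact Finset.sum_le_sum hw2
    have g4 : ∑ r ∈ Z, ∑ j, Complex.normSq (w j r) ≤ ∑ r, ∑ j, Complex.normSq (w j r) :=
      Finset.sum_le_sum_of_subset_of_nonneg (Finset.subset_univ _)
          (fun _ _ _ => Finset.sum_nonneg fun _ _ => Complex.normSq_nonneg _)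
    have g5 : ((Z.card : ℝ) * ℓ ^ 2) * P ≤ c * P := by nlinarith
    exact le_of_mul_le_mul_right g5 hP
  by_cases hml : m = ℓ - 1
  · -- (3)
    have hml' : (m : ℝ) = ℓ - 1 := by
      rw [hml, Nat.cast_sub (by omega)]
      simp
    have g1 : (Ac.card : ℝ) + An.card ≤ ℓ ^ 2 := by
      have : (m : ℝ) * (Ac.card + An.card) ≤ m * ℓ ^ 2 := by
        refine s3.trans (le_of_eq ?_)
        rw [hml']
        ring
      exact le_of_mul_le_mul_left this (by linarith)
    have g2 : (Z.card : ℝ) * ℓ ^ 2 ≤ ℓ ^ 2 := by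
      refine hz (ℓ ^ 2) (fun j r => a j r - v j r) (h4 hml) ?_
      intro r hr
      have hr' := (Finset.mem_filter.1 hr).2
      have e1 : ∑ j, Complex.normSq (a j r - v j r) = ∑ j, Complex.normSq (v j r) := by
        apply Finset.sum_congr rfl
        intro j _
        rw [hr' j, zero_sub, Complex.normSq_neg]
      rw [e1]
      exact h8 r hr'
    have g3 : (Z.card : ℝ) ≤ 1 := by
      have : (Z.card : ℝ) * ℓ ^ 2 ≤ 1 * ℓ ^ 2 := by rw [one_mul]; exact g2
      exact le_of_mul_le_mul_right this (by positivity)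
    have g4 : (Z.card + Ac.card + An.card : ℝ) ≤ ℓ ^ 2 + 1 := by linarith
    have g5 : Z.card + Ac.card + An.card ≤ ℓ ^ 2 + 1 := by exact_mod_cast g4
    omega
  · -- (4)
    obtain ⟨n, hn⟩ := hdvd
    have hn2 : 2 ≤ n := by
      by_contra hcon
      have : n = 0 ∨ n = 1 := by omega
      rcases this with rfl | rfl
      · omega
      · apply hml
        omega
    have h2m : 2 * m ≤ ℓ - 1 := by
      rw [hn]
      nlinarith
    have h2m' : 2 * (m : ℝ) ≤ ℓ - 1 := by
      have : 2 * m + 1 ≤ ℓ := by omega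
      have : (2 : ℝ) * m + 1 ≤ ℓ := by exact_mod_cast this
      linarith
    have g0 : ((m : ℝ) - 2) * (2 * m - (ℓ - 1)) ≤ 0 :=
      mul_nonpos_of_nonneg_of_nonpos (by linarith) (by linarith)
    have g1 : 2 * ((Ac.card : ℝ) + An.card) ≤ ℓ * (ℓ + 3) := by
      have : (m : ℝ) * (2 * (Ac.card + An.card)) ≤ m * (ℓ * (ℓ + 3)) := by nlinarith
      exact le_of_mul_le_mul_left this (by linarith)
    have g2 : (Z.card : ℝ) * ℓ ^ 2 ≤ ℓ ^ 3 :=
      hz (ℓ ^ 3) v h3 (fun r hr => h8 r (Finset.mem_filter.1 hr).2)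
    have g3 : (Z.card : ℝ) ≤ ℓ := by
      have : (Z.card : ℝ) * ℓ ^ 2 ≤ ℓ * ℓ ^ 2 := by
        refine g2.trans (le_of_eq ?_)
        ring
      exact le_of_mul_le_mul_right this (by positivity)
    have hl5 : (5 : ℝ) ≤ ℓ := by linarith
    have g4 : (Z.card + Ac.card + An.card : ℝ) ≤ ℓ ^ 2 + 1 := by nlinarith
    have g5 : Z.card + Ac.card + An.card ≤ ℓ ^ 2 + 1 := by exact_mod_cast g4
    omega

end Pool.Agent.PP.T12.H91
end
end -- Pool.Agent.Helper91_AT12.CNB

section -- Pool.Agent.Helper65_ATW.DPV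

/-! Squad ATW, row DPV: conjugation with the inertial group, and powers (all primes). -/

open scoped BigOperators

noncomputable section

namespace Pool.Agent.PP.TW.H65

open Pool.Agent.Helper51_AWC Pool.Agent.Helper79_WRA Pool.Agent.PP Pool.Agent.PP.KF
open Pool.Agent.PP.K9 Pool.Agent.PP.K9.H97 Pool.Agent.PP.H75 Pool.Agent.PP.T3 Pool.Agent.PP.T2
open Pool.Agent.PP.T5 Pool.Agent.PP.TB
open Pool.Agent.PP.T8 (rs pw fv rd Ip Rv vv Dat Fr)

attribute [local instance] Ideal.Quotient.field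

/-- row DPV -/
theorem dpv (hLOC : T3.LocStmt) (hLPW : T3.LpwStmt) : DpvStmt := by
  intro ℓ _ M _ hM G _ _ e V γ b d c ε hD
  have hp : ℓ.Prime := Fact.out
  have hF : GoodF ℓ (FF M) := H50.fld ℓ Fact.out M hM
  have hL := hD.ld
  refine ⟨?_, ?_⟩
  · intro t ht u hu
    have hV : t * u * t⁻¹ ∈ V := (Subgroup.mem_normalizer_iff.1 ht.1 u).1 hu.1
    have hR : Rg V γ (t * u * t⁻¹) := by
      refine ⟨hV, ?_, ?_⟩
      · intro h
        apply hu.2.1
        have : u = t⁻¹ * (t * u * t⁻¹) * t := by group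
        rw [this, h]
        group
      · intro s hs
        have h1 : t⁻¹ * s * t ∈ Tg V γ ⊓ Cu u := by
          refine ⟨mul_mem (mul_mem ((Tg V γ).inv_mem ht) hs.1) ht, ?_⟩
          exact (T3.H49.cu_conj rfl s).2 hs.2
        exact (T8.H8.cent_conj_iff ht.1).1 (hu.2.2 h1)
    have hlc := T8.H8.lc_cj hL.blk.1.1 ht rfl (hD.lc u hu)
    have hb : b (t * u * t⁻¹) = cj t (b u) :=
      (hLOC ℓ (FF M) hF G e V γ hL _ hV).2 _ _ (hD.lc _ hR) hlc
    have hbc : IsCl (fun s : Cu u => b u s) := (hD.lc u hu).blk.blk.1.1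
    have hd : d (t * u * t⁻¹) = d u := by
      have h1 := hD.dg _ hR
      rw [hb] at h1
      have h2 := T8.H8.dg_cj (rfl : t * u * t⁻¹ = t * u * t⁻¹) hbc (hD.dg u hu)
      exact T8.H8.dg_unique (T8.H8.nonempty_of_blk hlc.blk.blk) h1 h2
    refine ⟨hR, ?_⟩
    intro χ hχ
    unfold vv
    rw [hb, hd, T8.H8.gv_cj rfl hbc (fun x y => irr_conj hχ x y)]
  · intro u hu j hj
    obtain ⟨hC, hlc⟩ := hLPW ℓ (FF M) hF G e V γ hL u hu.1 (b u) (hD.lc u hu) j hj
    have hV : u ^ j ∈ V := V.pow_mem hu.1 j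
    have hR : Rg V γ (u ^ j) := by
      refine ⟨hV, ?_, ?_⟩
      · intro h
        apply hu.2.1
        obtain ⟨n, hn⟩ := hL.tp.pg ⟨u, hu.1⟩
        have hn' : u ^ ℓ ^ n = 1 := congrArg (fun v : V => (v : G)) hn
        have h1 : orderOf u ∣ Nat.gcd (ℓ ^ n) j :=
          Nat.dvd_gcd (orderOf_dvd_of_pow_eq_one hn') (orderOf_dvd_of_pow_eq_one h)
        have h2 : Nat.gcd (ℓ ^ n) j = 1 :=
          Nat.Coprime.pow_left n ((Nat.Prime.coprime_iff_not_dvd hp).2 hj)
        rw [h2, Nat.dvd_one] at h1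
        exact orderOf_eq_one_iff.1 h1
      · rw [hC]
        exact hu.2.2
    have hb : b (u ^ j) = b u :=
      (hLOC ℓ (FF M) hF G e V γ hL _ hV).2 _ _ (hD.lc _ hR) hlc
    have hd : d (u ^ j) = d u := by
      have h1 := hD.dg _ hR
      rw [hb] at h1
      have h2 : Dg M (fun s : Cu (u ^ j) => b u s) (d u) := by
        rw [hC]
        exact hD.dg u hu
      exact T8.H8.dg_unique (T8.H8.nonempty_of_blk hlc.blk.blk) h1 h2
    exact ⟨hR, hC, hb, hd⟩

end Pool.Agent.PP.TW.H65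
end
end -- Pool.Agent.Helper65_ATW.DPV

section -- Pool.Agent.Helper77_PFC.CFB

set_option autoImplicit false

/-!
PFC row CFB: the corner of `F C(V)` at the Brauer image of `j` is `F V`.
-/

open scoped BigOperators

noncomputable section

namespace Pool.Agent.PFC.H77

open Pool.Agent.Helper51_AWC Pool.Agent.Helper79_WRA Pool.Agent.PP Pool.Agent.PP.KF
open Pool.Agent.PP.K9 Pool.Agent.PP.K9.H97 Pool.Agent.PP.H75 Pool.Agent.PP.T3 Pool.Agent.PP.T2
open Pool.Agent.PP.T8 (Fr rs pw)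
open Pool.Agent.PFC

attribute [local instance] Ideal.Quotient.field

section gen

variable {F G : Type} [Field F] [Group G] [Finite G]

/-- the corner supported on the centraliser -/
def LL (C : Subgroup G) (j' : G → F) : Submodule F (G → F) where
  carrier := {x | (∀ g, g ∉ C → x g = 0) ∧ mulF j' x = x ∧ mulF x j' = x}
  add_mem' := by
    rintro a b ⟨h0, h1, h2⟩ ⟨h0', h3, h4⟩
    refine ⟨fun g hg => ?_, by rw [H20.mulF_add, h1, h3], by rw [H20.add_mulF, h2, h4]⟩
    show a g + b g = 0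
    rw [h0 g hg, h0' g hg, add_zero]
  zero_mem' := ⟨fun _ _ => rfl, H20.mulF_zero j', H20.zero_mulF j'⟩
  smul_mem' := by
    rintro c a ⟨h0, h1, h2⟩
    refine ⟨fun g hg => ?_, by rw [H20.mulF_smul, h1], by rw [H20.smul_mulF, h2]⟩
    show c * a g = 0
    rw [h0 g hg, mul_zero]

theorem dl_mem {C : Subgroup G} {j' : G → F} {v : G} (hv : v ∈ C)
    (hj : ∀ x, j' (v * x * v⁻¹) = j' x) {x : G → F} (hx : x ∈ LL C j') :
    mulF (dl F v) x ∈ LL C j' := by
  refine ⟨fun g hg => ?_, ?_, ?_⟩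
  · rw [mulF_dl_l]
    apply hx.1
    intro h
    apply hg
    have := C.mul_mem hv h
    rwa [mul_inv_cancel_left] at this
  · rw [← H20.mulF_assoc, ← dl_comm hj, H20.mulF_assoc, hx.2.1]
  · rw [H20.mulF_assoc, hx.2.2]

theorem dl_one_mul (x : G → F) : mulF (dl F (1 : G)) x = x := by
  rw [mulF_dl_l]
  funext y
  rw [inv_one, one_mul]

/-- left multiplication by the elements of `V` -/
theorem exρ (V C : Subgroup G) (j' : G → F) (hVC : V ≤ C)
    (hj : ∀ v ∈ V, ∀ x, j' (v * x * v⁻¹) = j' x) :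
    ∃ ρ : V →* (LL C j' →ₗ[F] LL C j'), ∀ (v : V) (x : LL C j'),
      ((ρ v x : LL C j') : G → F) = mulF (dl F (v : G)) x := by
  refine ⟨{ toFun := fun v =>
              { toFun := fun x => ⟨mulF (dl F (v : G)) x, dl_mem (hVC v.2) (hj v v.2) x.2⟩
                map_add' := fun x y => Subtype.ext (H20.mulF_add _ _ _)
                map_smul' := fun c x => Subtype.ext (H20.mulF_smul c _ _) }
            map_one' := ?_, map_mul' := ?_ }, fun v x => rfl⟩
  · apply LinearMap.ext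
    intro x
    exact Subtype.ext (dl_one_mul _)
  · intro v w
    apply LinearMap.ext
    intro x
    apply Subtype.ext
    show mulF (dl F ((v : G) * w)) x = mulF (dl F (v : G)) (mulF (dl F (w : G)) x)
    rw [← dl_mul, H20.mulF_assoc]

theorem part1 {ℓ : ℕ} [Fact ℓ.Prime] [CharP F ℓ] (hnka : NkaStmt) (V C : Subgroup G)
    (hab : ∀ a ∈ V, ∀ b ∈ V, a * b = b * a) (hpg : IsPGroup ℓ V) (hVC : V ≤ C) (j' : G → F)
    (hinv : ∀ v ∈ V, ∀ x, j' (v * x * v⁻¹) = j' x) (hjL : j' ∈ LL C j')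
    (hcfa : ∀ z ∈ LL C j', ∃ (c : F) (y : G → G → F), (∀ v, y v ∈ LL C j') ∧
      z = c • j' + ∑ᶠ v : V, (mulF (dl F (v : G)) (y v) - y v)) (x : G → F) (hx : x ∈ LL C j') :
    ∃ c : V → F, x = ∑ᶠ v : V, c v • mulF (dl F (v : G)) j' := by
  classical
  obtain ⟨ρ, hρ⟩ := exρ V C j' hVC hinv
  let iV : CommGroup V :=
    { (inferInstance : Group V) with
      mul_comm := fun a b => Subtype.ext (hab a a.2 b b.2) }
  have hfV : Fintype V := Fintype.ofFinite V
  set jL : LL C j' := ⟨j', hjL⟩ with hjLdef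
  set N : Submodule F (LL C j') := Submodule.span F (Set.range fun v : V => ρ v jL) with hN
  have hjN : jL ∈ N := by
    apply Submodule.subset_span
    refine ⟨1, ?_⟩
    show ρ 1 jL = jL
    rw [map_one]
    rfl
  have hst : ∀ w : V, ∀ y ∈ N, ρ w y ∈ N := by
    intro w y hy
    rw [hN] at hy
    induction hy using Submodule.span_induction with
    | mem y hy =>
      obtain ⟨v, rfl⟩ := hy
      apply Submodule.subset_span
      refine ⟨w * v, ?_⟩
      show ρ (w * v) jL = ρ w (ρ v jL)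
      rw [map_mul]
      rfl
    | zero =>
      rw [map_zero]
      exact Submodule.zero_mem _
    | add a b _ _ ha hb =>
      rw [map_add]
      exact Submodule.add_mem _ ha hb
    | smul c a _ ha =>
      rw [map_smul]
      exact Submodule.smul_mem _ _ ha
  have htop : N = ⊤ := by
    refine (hnka ℓ F V (LL C j') ρ hpg).1 N hst ?_
    intro z
    obtain ⟨c, y, hy, hz⟩ := hcfa z z.2
    refine ⟨c • jL, Submodule.smul_mem _ _ hjN, fun w => ⟨y w, hy w⟩, ?_⟩
    apply Subtype.ext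
    rw [hz, finsum_eq_sum_of_fintype, finsum_eq_sum_of_fintype, Submodule.coe_add,
      Submodule.coe_sum]
    congr 1
    apply Finset.sum_congr rfl
    intro w _
    rw [Submodule.coe_sub, hρ]
  have hxN : (⟨x, hx⟩ : LL C j') ∈ N := by
    rw [htop]
    exact Submodule.mem_top
  rw [hN, Submodule.mem_span_range_iff_exists_fun] at hxN
  obtain ⟨c, hc⟩ := hxN
  refine ⟨c, ?_⟩
  have h1 := congrArg Subtype.val hc
  rw [finsum_eq_sum_of_fintype]
  rw [Submodule.coe_sum] at h1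
  refine h1.symm.trans ?_
  apply Finset.sum_congr rfl
  intro v _
  rw [Submodule.coe_smul, hρ]

theorem mulF_sum {ι : Type} (a : G → F) (s : Finset ι) (f : ι → G → F) :
    mulF a (∑ v ∈ s, f v) = ∑ v ∈ s, mulF a (f v) := by
  classical
  induction s using Finset.induction_on with
  | empty => simp only [Finset.sum_empty, H20.mulF_zero]
  | insert b s hb ih => rw [Finset.sum_insert hb, Finset.sum_insert hb, H20.mulF_add, ih]

theorem part2 {ℓ : ℕ} [Fact ℓ.Prime] [CharP F ℓ] (hnka : NkaStmt) (V : Subgroup G)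
    (hab : ∀ a ∈ V, ∀ b ∈ V, a * b = b * a) (hpg : IsPGroup ℓ V) (j' : G → F)
    (hs : ∑ᶠ v : V, j' v ≠ 0) (c : V → F)
    (hc : ∑ᶠ v : V, c v • mulF (dl F (v : G)) j' = 0) : c = 0 := by
  classical
  let iV : CommGroup V :=
    { (inferInstance : Group V) with
      mul_comm := fun a b => Subtype.ext (hab a a.2 b b.2) }
  have hfV : Fintype V := Fintype.ofFinite V
  by_contra hne
  set Λ : (V → F) →ₗ[F] (G → F) :=
    Fintype.linearCombination F (fun v : V => mulF (dl F (v : G)) j') with hΛ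
  have hΛa : ∀ c : V → F, Λ c = ∑ v : V, c v • mulF (dl F (v : G)) j' :=
    fun c => Fintype.linearCombination_apply _ _ _
  have hcK : c ∈ LinearMap.ker Λ := by
    rw [LinearMap.mem_ker, hΛa, ← finsum_eq_sum_of_fintype]
    exact hc
  set ρ2 : V →* ((V → F) →ₗ[F] (V → F)) :=
    { toFun := fun w =>
        { toFun := fun c v => c (w⁻¹ * v)
          map_add' := fun _ _ => rfl
          map_smul' := fun _ _ => rfl }
      map_one' := by
        apply LinearMap.ext
        intro c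
        funext v
        show c (1⁻¹ * v) = c v
        rw [inv_one, one_mul]
      map_mul' := by
        intro w w'
        apply LinearMap.ext
        intro c
        funext v
        show c ((w * w')⁻¹ * v) = c (w'⁻¹ * (w⁻¹ * v))
        rw [mul_inv_rev, mul_assoc] } with hρ2
  have hst : ∀ w : V, ∀ y ∈ LinearMap.ker Λ, ρ2 w y ∈ LinearMap.ker Λ := by
    intro w y hy
    rw [LinearMap.mem_ker, hΛa] at hy ⊢
    show ∑ v : V, y (w⁻¹ * v) • mulF (dl F (v : G)) j' = 0
    rw [← Equiv.sum_comp (Equiv.mulLeft w)]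
    have h1 : ∀ v : V, y (w⁻¹ * (Equiv.mulLeft w v)) •
        mulF (dl F ((Equiv.mulLeft w v : V) : G)) j' =
        mulF (dl F (w : G)) (y v • mulF (dl F (v : G)) j') := by
      intro v
      rw [Equiv.coe_mulLeft, inv_mul_cancel_left, H20.mulF_smul, ← H20.mulF_assoc, dl_mul]
      rfl
    rw [Finset.sum_congr rfl fun v _ => h1 v, ← mulF_sum, hy, H20.mulF_zero]
  have hKne : LinearMap.ker Λ ≠ ⊥ := by
    intro h
    rw [h] at hcK
    exact hne ((Submodule.mem_bot _).1 hcK)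
  obtain ⟨y, hyK, hy0, hyf⟩ := (hnka ℓ F V (V → F) ρ2 hpg).2 (LinearMap.ker Λ) hst hKne
  have hconst : ∀ v, y v = y 1 := by
    intro v
    have h1 := congrFun (hyf v) v
    have h2 : y (v⁻¹ * v) = y v := h1
    rw [inv_mul_cancel] at h2
    exact h2.symm
  have hy1 : y 1 ≠ 0 := by
    intro h
    apply hy0
    funext v
    rw [hconst v, h]
    rfl
  rw [LinearMap.mem_ker, hΛa] at hyK
  have h4 := congrFun hyK 1
  rw [Finset.sum_apply] at h4
  have h5 : ∀ v : V, (y v • mulF (dl F (v : G)) j') 1 = y 1 * j' ((v⁻¹ : V) : G) := by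
    intro v
    rw [hconst v, mulF_dl_l]
    show y 1 * j' ((v : G)⁻¹ * 1) = _
    rw [mul_one]
    rfl
  rw [Finset.sum_congr rfl fun v _ => h5 v, ← Finset.mul_sum] at h4
  have h6 : ∑ v : V, j' ((v⁻¹ : V) : G) = ∑ v : V, j' (v : G) :=
    Equiv.sum_comp (Equiv.inv V) (fun v : V => j' (v : G))
  rw [h6, ← finsum_eq_sum_of_fintype] at h4
  have h7 : y 1 * ∑ᶠ v : V, j' v = 0 := h4
  rcases mul_eq_zero.1 h7 with h8 | h8
  · exact hy1 h8
  · exact hs h8

end gen

theorem cfb (hcfa : CfaStmt) (hnka : NkaStmt) (hlmb : LmbStmt) (hjun : JunStmt) : CfbStmt := by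
  intro ℓ _ M _ hM G _ _ e V γ hL j hj
  have hgood : GoodF ℓ (FF M) := H50.fld ℓ Fact.out M hM
  have hch : CharP (FF M) ℓ := hgood.char
  have hpg : IsPGroup ℓ V := hL.tp.pg
  have hVC : V ≤ Subgroup.centralizer (V : Set G) := by
    intro v hv
    rw [Subgroup.mem_centralizer_iff]
    intro w hw
    exact hL.ab w hw v hv
  have hbr_in : ∀ t, t ∈ Subgroup.centralizer (V : Set G) → br V j t = j t := by
    intro t ht
    unfold br
    rw [if_pos ht]
  have hbr_out : ∀ t, t ∉ Subgroup.centralizer (V : Set G) → br V j t = 0 := by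
    intro t ht
    unfold br
    rw [if_neg ht]
  have hjinv : ∀ v ∈ V, ∀ x, br V j (v * x * v⁻¹) = br V j x := by
    intro v hv x
    by_cases hx : x ∈ Subgroup.centralizer (V : Set G)
    · have h1 : v * x * v⁻¹ ∈ Subgroup.centralizer (V : Set G) :=
        (Subgroup.centralizer (V : Set G)).mul_mem ((Subgroup.centralizer (V : Set G)).mul_mem
          (hVC hv) hx) ((Subgroup.centralizer (V : Set G)).inv_mem (hVC hv))
      rw [hbr_in _ h1, hbr_in _ hx, hj.iv v hv x]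
    · rw [hbr_out x hx, hbr_out]
      intro h1
      apply hx
      have h2 := (Subgroup.centralizer (V : Set G)).mul_mem
        ((Subgroup.centralizer (V : Set G)).mul_mem
          ((Subgroup.centralizer (V : Set G)).inv_mem (hVC hv)) h1) (hVC hv)
      have h3 : v⁻¹ * (v * x * v⁻¹) * v = x := by group
      rwa [h3] at h2
  have hjj : mulF (br V j) (br V j) = br V j := by
    rw [← H20.br_mul_inv hgood V hpg hj.iv hj.iv, hj.id]
  have hbrs : ∑ᶠ v : V, br V j v = ∑ᶠ v : V, j v := by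
    apply finsum_congr
    intro v
    exact hbr_in v (hVC v.2)
  have part3 : ∑ᶠ v : V, j v ≠ 0 := by
    obtain ⟨q, hq, h1⟩ := hlmb ℓ M hM G e V γ hL
    obtain ⟨κ, hκ⟩ := T8.H8.nonempty_of_blk hL.gam.blk
    have h2 := h1 κ hκ (br V j) hbr_out (hjun ℓ M hM G e V γ hL j hj).2.2
    have h4 : ∑ᶠ t : Subgroup.centralizer (V : Set G), br V j t * rr M (κ t) =
        ∑ᶠ t : Subgroup.centralizer (V : Set G), j t * rr M (κ t) := by
      apply finsum_congr
      intro t
      rw [hbr_in t t.2]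
    rw [hbrs, h4] at h2
    rw [h2]
    exact mul_ne_zero hq (hj.nz κ hκ)
  refine ⟨?_, ?_, part3⟩
  · intro x hx0 hx1 hx2
    exact part1 (ℓ := ℓ) hnka V (Subgroup.centralizer (V : Set G)) hL.ab hpg hVC (br V j) hjinv
      ⟨hbr_out, hjj, hjj⟩ (fun z hz => hcfa ℓ M hM G e V γ hL j hj z hz.1 hz.2.1 hz.2.2) x
      ⟨hx0, hx1, hx2⟩
  · intro c hc
    refine part2 (ℓ := ℓ) hnka V hL.ab hpg (br V j) ?_ c hc
    rw [hbrs]
    exact part3

end Pool.Agent.PFC.H77
end
end -- Pool.Agent.Helper77_PFC.CFB
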