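import Pool.Agent.Helper12_AWB.B182

/-!
# Merged copies (generated) of the modules

* `Pool.Agent.Helper84_AT8.MIN`
* `Pool.Agent.Helper23_PFC.CFA`
* `Pool.Agent.Helper45_PFC.JEX`
-/

set_option autoImplicit false

section -- Pool.Agent.Helper84_AT8.MIN

/-!
# Squad AT8, row MIN: a minimal idempotent of the elements of the group ring which commute with `V`
-/

open scoped BigOperators

noncomputable section

namespace Pool.Agent.PP.T8.H84

open Pool.Agent.Helper51_AWC Pool.Agent.Helper79_WRA Pool.Agent.PP Pool.Agent.PP.KF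
open Pool.Agent.PP.K9 Pool.Agent.PP.K9.H97 Pool.Agent.PP.H75 Pool.Agent.PP.T3 Pool.Agent.PP.T2

attribute [local instance] Ideal.Quotient.field

section alg

variable {A : Type*} [Monoid A] {J W : A}

theorem idem_pow (hJ : J * J = J) {n : ℕ} (hn : 0 < n) : J ^ n = J := by
  obtain ⟨k, rfl⟩ := Nat.exists_eq_succ_of_ne_zero hn.ne'
  induction k with
  | zero => exact pow_one J
  | succ k ih => rw [pow_succ, ih (Nat.succ_pos k), hJ]

theorem key_pow (hJ : J * J = J) (hJW : J * W = W * J) {n : ℕ} (hn : 0 < n) :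
    (J * W * J) ^ n = J * W ^ n := by
  have h1 : J * W * J = J * W := by rw [mul_assoc, ← hJW, ← mul_assoc, hJ]
  have hc : Commute J W := hJW
  rw [h1, hc.mul_pow, idem_pow hJ hn]

theorem key_one (hJ : J * J = J) (hW : W * W = W) (hJW : J * W = W * J) {n : ℕ} (hn : 0 < n)
    (h : (J * W * J) ^ n = J) : J * W = J := by
  rw [key_pow hJ hJW hn, idem_pow hW hn] at h
  exact h

end alg

section pw

variable {F G : Type} [Field F] [Group G] [Finite G]

theorem ma_pw (x : G → F) (n : ℕ) : ma (pw x n) = ma x ^ n := by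
  induction n with
  | zero =>
    rw [pow_zero]
    exact (ma_dl (F := F) (1 : G)).trans MonoidAlgebra.one_def.symm
  | succ n ih =>
    change ma (mulF x (pw x n)) = _
    rw [ma_mul, ih, pow_succ']

theorem inv_dl (P : Subgroup G) : H66.Inv P (dl F (1 : G)) := by
  intro p _ t
  unfold dl
  by_cases h : t = 1
  · rw [if_pos h, if_pos]
    rw [h]
    group
  · rw [if_neg h, if_neg]
    intro h'
    apply h
    have e : t = p⁻¹ * (p * t * p⁻¹) * p := by group
    rw [e, h']
    group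

theorem inv_pw {P : Subgroup G} {x : G → F} (hx : H66.Inv P x) (n : ℕ) : H66.Inv P (pw x n) := by
  induction n with
  | zero => exact inv_dl P
  | succ n ih => exact hx.mulF ih

theorem br_dl (P : Subgroup G) : br P (dl F (1 : G)) = dl F (1 : G) := by
  funext t
  by_cases ht : t ∈ Subgroup.centralizer (P : Set G)
  · exact H66.br_of_mem ht
  · rw [H66.br_of_not_mem ht]
    unfold dl
    rw [if_neg]
    rintro rfl
    exact ht (one_mem _)

theorem br_pw {ℓ : ℕ} (hF : GoodF ℓ F) {P : Subgroup G} (hP : IsPGroup ℓ P) {x : G → F}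
    (hx : H66.Inv P x) (n : ℕ) : br P (pw x n) = pw (br P x) n := by
  induction n with
  | zero => exact br_dl P
  | succ n ih =>
    change br P (mulF x (pw x n)) = mulF (br P x) (pw (br P x) n)
    rw [H66.br_mulF hF hP hx (inv_pw hx n), ih]

/-- the restriction to the centraliser of `z` is a Brauer map -/
theorem rs_eq_br (z : G) (a : G → F) : rs (Cu z) a = br (Subgroup.zpowers z) a := by
  funext t
  have key : t ∈ Cu z ↔ t ∈ Subgroup.centralizer ((Subgroup.zpowers z : Subgroup G) : Set G) := by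
    rw [Subgroup.mem_centralizer_iff, Subgroup.mem_centralizer_iff]
    constructor
    · intro h x hx
      obtain ⟨k, rfl⟩ := Subgroup.mem_zpowers_iff.1 hx
      have h1 : Commute z t := h z rfl
      exact h1.zpow_left k
    · intro h x hx
      have h1 : x = z := hx
      rw [h1]
      exact h z (Subgroup.mem_zpowers z)
  unfold rs
  by_cases ht : t ∈ Cu z
  · rw [if_pos ht, H66.br_of_mem (key.1 ht)]
  · rw [if_neg ht, H66.br_of_not_mem (fun h => ht (key.2 h))]

/-- If `(j w j) ^ n = j` then `br (j) br (w) = br (j)`. -/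
theorem br_one {ℓ : ℕ} (hF : GoodF ℓ F) {P : Subgroup G} (hP : IsPGroup ℓ P) {j w : G → F}
    (hj : H66.Inv P j) (hw : H66.Inv P w) (hjj : mulF j j = j) (hww : mulF w w = w)
    (hc : mulF (br P j) (br P w) = mulF (br P w) (br P j)) {n : ℕ} (hn : 0 < n)
    (h : pw (mulF (mulF j w) j) n = j) : mulF (br P j) (br P w) = br P j := by
  apply ma_injective
  rw [ma_mul]
  refine key_one (n := n) ?_ ?_ ?_ hn ?_
  · rw [← ma_mul, ← H66.br_mulF hF hP hj hj, hjj]
  · rw [← ma_mul, ← H66.br_mulF hF hP hw hw, hww]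
  · rw [← ma_mul, ← ma_mul, hc]
  · rw [← ma_mul, ← ma_mul, ← ma_pw, ← H66.br_mulF hF hP hj hw,
      ← H66.br_mulF hF hP (hj.mulF hw) hj, ← br_pw hF hP ((hj.mulF hw).mulF hj), h]

/-- the rank of the left multiplication with `j` -/
def rkL (j : G → F) : ℕ := Module.finrank F (LinearMap.range (LinearMap.mulLeft F (ma j)))

theorem eq_of_rk {j j' : G → F} (hj : mulF j j = j) (hj' : mulF j' j' = j') (h1 : mulF j j' = j')
    (h2 : mulF j' j = j') (h : rkL j ≤ rkL j') : j' = j := by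
  have k1 : ma j * ma j = ma j := by rw [← ma_mul, hj]
  have k2 : ma j' * ma j' = ma j' := by rw [← ma_mul, hj']
  have k3 : ma j * ma j' = ma j' := by rw [← ma_mul, h1]
  have hle : LinearMap.range (LinearMap.mulLeft F (ma j')) ≤
      LinearMap.range (LinearMap.mulLeft F (ma j)) := by
    rintro x ⟨y, rfl⟩
    refine ⟨ma j' * y, ?_⟩
    rw [LinearMap.mulLeft_apply, LinearMap.mulLeft_apply, ← mul_assoc, k3]
  have heq := Submodule.eq_of_le_of_finrank_le hle h
  have h5 : ma j ∈ LinearMap.range (LinearMap.mulLeft F (ma j)) :=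
    ⟨ma j, by rw [LinearMap.mulLeft_apply, k1]⟩
  rw [← heq] at h5
  obtain ⟨y, hy⟩ := h5
  rw [LinearMap.mulLeft_apply] at hy
  apply ma_injective
  calc ma j' = ma j' * ma j := by rw [← ma_mul, h2]
    _ = ma j' * (ma j' * y) := by rw [hy]
    _ = ma j := by rw [← mul_assoc, k2, hy]

end pw

section phi

variable {M : Ideal (integralClosure ℤ ℂ)} [M.IsMaximal]

/-- the functional `a ↦ ∑ a(t) κ(t)` does not change under multiplication with the block -/
theorem phi_mul (idm : KF.IdmStmt) {H : Type} [Group H] [Finite H] {g : H → FF M}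
    (hg : IsIdem g) {κ : H → ℂ} (hκ : κ ∈ IrrE M g) (a : H → FF M) :
    ∑ᶠ t, mulF g a t * rr M (κ t) = ∑ᶠ t, a t * rr M (κ t) := by
  have := Fintype.ofFinite H
  choose a' ha' hra using fun t => rr_surj (a t)
  obtain ⟨h1, _, h3⟩ := idm M H g hg
  have h4 := (h3 κ hκ.1 a').1 hκ.2
  unfold chv at h4
  rw [finsum_eq_sum_of_fintype, finsum_eq_sum_of_fintype] at h4
  rw [finsum_eq_sum_of_fintype, finsum_eq_sum_of_fintype]
  have hκR : ∀ t, κ t ∈ RM M := fun t => RM_of_int (irr_integral hκ.1 t)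
  have hm : ∀ t, mulF (eh M g) a' t ∈ RM M ∧ rr M (mulF (eh M g) a' t) = mulF g a t := by
    intro t
    unfold mulF
    rw [finsum_eq_sum_of_fintype, finsum_eq_sum_of_fintype]
    have h5 : ∀ s ∈ Finset.univ, eh M g s * a' (s⁻¹ * t) ∈ RM M :=
      fun s _ => (RM M).mul_mem (h1 s).1 (ha' _)
    refine ⟨Subring.sum_mem _ h5, ?_⟩
    rw [rr_sum _ _ h5]
    refine Finset.sum_congr rfl fun s _ => ?_
    rw [rr_mul (h1 s).1 (ha' _), (h1 s).2, hra]
  have h6 := congrArg (rr M) h4
  rw [rr_sum _ _ (fun t _ => (RM M).mul_mem (hm t).1 (hκR t)),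
    rr_sum _ _ (fun t _ => (RM M).mul_mem (ha' t) (hκR t))] at h6
  calc ∑ t, mulF g a t * rr M (κ t) = ∑ t, rr M (mulF (eh M g) a' t * κ t) :=
        Finset.sum_congr rfl fun t _ => by rw [rr_mul (hm t).1 (hκR t), (hm t).2]
    _ = ∑ t, rr M (a' t * κ t) := h6
    _ = ∑ t, a t * rr M (κ t) :=
        Finset.sum_congr rfl fun t _ => by rw [rr_mul (ha' t) (hκR t), hra]

end phi

section main

variable {F G : Type} [Field F] [Group G] [Finite G]

/-- The claim: for a minimal `j`, some power of `j w j` is `j`. -/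
theorem claim {ℓ : ℕ} (hF : GoodF ℓ F) (idp : IdpStmt) {V : Subgroup G} (hV : IsPGroup ℓ V)
    {γ : G → F} (Φ : (G → F) → F) (hΦb : ∀ a, Φ (br V a) = Φ a)
    (hΦγ : ∀ a, Φ (mulF (br V a) γ) = Φ (br V a))
    {j : G → F} (hj : mulF j j = j) (hji : H66.Inv V j)
    (hjΦ : Φ j ≠ 0)
    (hmin : ∀ j' : G → F, mulF j' j' = j' → H66.Inv V j' → Φ j' ≠ 0 → rkL j ≤ rkL j')
    {w : G → F} (hw : H66.Inv V w) (hc : mulF (br V j) (br V w) = mulF (br V w) (br V j))
    (hwγ : mulF (br V w) γ = γ) :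
    ∃ n : ℕ, 0 < n ∧ pw (mulF (mulF j w) j) n = j := by
  obtain ⟨n, hn, hidem⟩ := idp ℓ F hF G (mulF (mulF j w) j)
  refine ⟨n, hn, ?_⟩
  have hx : H66.Inv V (mulF (mulF j w) j) := (hji.mulF hw).mulF hji
  have hJ : ma (br V j) * ma (br V j) = ma (br V j) := by
    rw [← ma_mul, ← H66.br_mulF hF hV hji hji, hj]
  have h1 : mulF j (pw (mulF (mulF j w) j) n) = pw (mulF (mulF j w) j) n := by
    apply ma_injective
    obtain ⟨k, rfl⟩ := Nat.exists_eq_succ_of_ne_zero hn.ne'
    rw [ma_mul, ma_pw, Nat.succ_eq_add_one, pow_succ', ← mul_assoc, ma_mul, ma_mul, ← mul_assoc,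
      ← mul_assoc, ← ma_mul, hj]
  have h2 : mulF (pw (mulF (mulF j w) j) n) j = pw (mulF (mulF j w) j) n := by
    apply ma_injective
    obtain ⟨k, rfl⟩ := Nat.exists_eq_succ_of_ne_zero hn.ne'
    have h0 : ma (mulF (mulF j w) j) * ma j = ma (mulF (mulF j w) j) := by
      rw [ma_mul (mulF j w) j, mul_assoc, ← ma_mul j j, hj]
    rw [ma_mul, ma_pw, Nat.succ_eq_add_one, pow_succ, mul_assoc, h0]
  have h3 : br V (pw (mulF (mulF j w) j) n) =
      pw (mulF (mulF (br V j) (br V w)) (br V j)) n := by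
    rw [br_pw hF hV hx, H66.br_mulF hF hV (hji.mulF hw) hji, H66.br_mulF hF hV hji hw]
  have h4 : mulF (br V (pw (mulF (mulF j w) j) n)) γ = mulF (br V j) γ := by
    apply ma_injective
    rw [h3, ma_mul, ma_pw, ma_mul, ma_mul, key_pow hJ (by rw [← ma_mul, hc, ma_mul]) hn, ma_mul,
      mul_assoc]
    congr 1
    have h5 : ma (br V w) * ma γ = ma γ := by rw [← ma_mul, hwγ]
    clear h1 h2 h3 hidem hn
    induction n with
    | zero => rw [pow_zero, one_mul]
    | succ k ih => rw [pow_succ, mul_assoc, h5, ih]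
  have h5 : Φ (pw (mulF (mulF j w) j) n) ≠ 0 := by
    rw [← hΦb, ← hΦγ, h4, hΦγ, hΦb]
    exact hjΦ
  exact eq_of_rk hj hidem h1 h2 (hmin _ hidem (inv_pw hx n) h5)

end main

theorem min (idp : IdpStmt) (rk1 : Rk1Stmt) (knz : KnzStmt) (dgc : DgcStmt)
    (idm : KF.IdmStmt) : MinStmt := by
  intro ℓ _ M _ hM G _ _ e V γ hL
  classical
  have hF : GoodF ℓ (FF M) := H50.fld ℓ Fact.out M hM
  have hVC : V ≤ Subgroup.centralizer (V : Set G) := by
    intro v hv
    rw [Subgroup.mem_centralizer_iff]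
    intro w hw
    exact hL.ab w hw v hv
  have hgi : IsIdem (fun t : Subgroup.centralizer (V : Set G) => γ t) := hL.gam.blk.1
  by_cases hemp : IrrE M (fun t : Subgroup.centralizer (V : Set G) => γ t) = ∅
  · refine ⟨0, H46.mulF_zero 0, fun _ _ _ => rfl, ?_, ?_, ?_⟩
    · rw [H66.br_zero]
      exact mulF_zero_left γ
    · intro z _ b _
      have h0 : rs (Cu z) (0 : G → FF M) = 0 := by
        funext t
        unfold rs
        split_ifs <;> rfl
      rw [h0]
      exact mulF_zero_left b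
    · intro κ hκ
      rw [hemp] at hκ
      exact absurd hκ (Set.notMem_empty κ)
  obtain ⟨κ, hκ⟩ := Set.nonempty_iff_ne_empty.2 hemp
  obtain ⟨c, hc⟩ := dgc ℓ M hM G e V γ hL
  obtain ⟨_, hk⟩ := knz ℓ M hM G e V γ hL c hc
  obtain ⟨⟨s, hs⟩, hkk⟩ := hk κ hκ
  obtain ⟨Φ, hΦ⟩ : ∃ Φ : (G → FF M) → FF M, ∀ a, Φ a =
      ∑ᶠ t : Subgroup.centralizer (V : Set G), a t * rr M (κ t) := ⟨_, fun _ => rfl⟩
  have hΦb : ∀ a, Φ (br V a) = Φ a := by
    intro a
    rw [hΦ, hΦ]
    exact finsum_congr fun t => by rw [H66.br_of_mem t.2]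
  have hΦγ : ∀ a, Φ (mulF (br V a) γ) = Φ (br V a) := by
    intro a
    rw [hΦ, hΦ]
    have h1 := mulF_res (Subgroup.centralizer (V : Set G)) (a := br V a) γ
      (fun x hx => H66.br_of_not_mem hx)
    have h2 := H46.mulF_comm hgi.1 (fun t : Subgroup.centralizer (V : Set G) => br V a t)
    have h3 := phi_mul idm hgi hκ (fun t : Subgroup.centralizer (V : Set G) => br V a t)
    rw [h2, ← h1] at h3
    exact h3
  -- the set of the idempotents is not empty
  obtain ⟨j₀, hj₀, hj₀Φ⟩ := rk1 ℓ M hM (Subgroup.centralizer (V : Set G)) κ hκ.1 (dl (FF M) s) (by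
    rw [finsum_eq_single _ s]
    · rw [dl, if_pos rfl, one_mul]
      exact hs
    · intro t ht
      rw [dl, if_neg ht, zero_mul])
  have hne : ∃ j : G → FF M, mulF j j = j ∧ H66.Inv V j ∧ Φ j ≠ 0 := by
    refine ⟨H75.ext0 (Subgroup.centralizer (V : Set G)) j₀, ?_, ?_, ?_⟩
    · have hs0 := ext0_supp (Subgroup.centralizer (V : Set G)) j₀
      have he : (fun t : Subgroup.centralizer (V : Set G) =>
          H75.ext0 (Subgroup.centralizer (V : Set G)) j₀ t) = j₀ := funext (ext0_apply _ j₀)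
      apply eq_of_res (mulF_supp _ hs0 hs0) hs0
      rw [mulF_res _ _ hs0, he, hj₀]
    · intro v hv x
      by_cases hx : x ∈ Subgroup.centralizer (V : Set G)
      · congr 1
        have h1 := Subgroup.mem_centralizer_iff.1 hx v hv
        rw [h1]
        group
      · rw [ext0_supp _ j₀ x hx, ext0_supp _ j₀]
        intro h
        apply hx
        have h2 := mul_mem (mul_mem (inv_mem (hVC hv)) h) (hVC hv)
        have e2 : v⁻¹ * (v * x * v⁻¹) * v = x := by group
        rwa [e2] at h2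
    · rw [hΦ]
      intro h
      apply hj₀Φ
      rw [← h]
      exact finsum_congr fun t => by rw [ext0_apply]
  -- a minimal one
  obtain ⟨j, ⟨hj, hji, hjΦ⟩, hmin⟩ : ∃ j : G → FF M, (mulF j j = j ∧ H66.Inv V j ∧ Φ j ≠ 0) ∧
      ∀ j' : G → FF M, mulF j' j' = j' → H66.Inv V j' → Φ j' ≠ 0 → rkL j ≤ rkL j' := by
    have h1 : (rkL '' {j : G → FF M | mulF j j = j ∧ H66.Inv V j ∧ Φ j ≠ 0}).Nonempty := by
      obtain ⟨j, hj⟩ := hne
      exact ⟨rkL j, j, hj, rfl⟩
    obtain ⟨j, hj, hjr⟩ := Nat.sInf_mem h1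
    refine ⟨j, hj, fun j' a b c => ?_⟩
    rw [hjr]
    exact Nat.sInf_le ⟨j', ⟨a, b, c⟩, rfl⟩
  have hV := hL.tp.pg
  have hcj : ∀ {w : G → FF M}, (∀ k ∈ Subgroup.centralizer (V : Set G), H75.cj k (br V w) = br V w) →
      mulF (br V j) (br V w) = mulF (br V w) (br V j) := fun {w} hw =>
    mulF_comm_of (K := Subgroup.centralizer (V : Set G)) (fun x hx => H66.br_of_not_mem hx) hw
  have hbγ : br V γ = γ := by
    funext t
    by_cases ht : t ∈ Subgroup.centralizer (V : Set G)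
    · exact H66.br_of_mem ht
    · rw [H66.br_of_not_mem ht, hL.gam.supp t ht]
  refine ⟨j, hj, hji, ?_, ?_, ?_⟩
  · -- the block of the centraliser
    have hinv : H66.Inv V γ := fun v hv => (cj_eq_iff v γ).1 (hL.gam.ix.inv (hVC hv))
    obtain ⟨n, hn, h⟩ := claim hF idp hV Φ hΦb hΦγ hj hji hjΦ hmin (w := γ) hinv
      (hcj (by rw [hbγ]; exact fun k hk => hL.gam.ix.inv hk)) (by rw [hbγ]; exact hL.gam.mul)
    have h2 := br_one hF hV hji hinv hj hL.gam.mul
      (hcj (by rw [hbγ]; exact fun k hk => hL.gam.ix.inv hk)) hn h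
    rw [hbγ] at h2
    exact h2
  · -- the local blocks
    intro z hz b hb
    have hVz : V ≤ Cu z := by
      intro v hv
      rw [Subgroup.mem_centralizer_iff]
      intro x hx
      have h1 : x = z := hx
      rw [h1]
      exact hL.ab z hz v hv
    have hCz : Subgroup.centralizer (V : Set G) ≤ Cu z := by
      intro v hv
      rw [Subgroup.mem_centralizer_iff]
      intro x hx
      have h1 : x = z := hx
      rw [h1]
      exact Subgroup.mem_centralizer_iff.1 hv z hz
    have hinv : H66.Inv V b := fun v hv => (cj_eq_iff v b).1 (hb.blk.ix.inv (hVz hv))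
    have hcb : ∀ k ∈ Subgroup.centralizer (V : Set G), H75.cj k (br V b) = br V b := by
      intro k hk
      rw [cj_eq_iff]
      intro x
      by_cases hx : x ∈ Subgroup.centralizer (V : Set G)
      · rw [H66.br_of_mem hx, H66.br_of_mem (mul_mem (mul_mem hk hx) (inv_mem hk))]
        exact (cj_eq_iff k b).1 (hb.blk.ix.inv (hCz hk)) x
      · rw [H66.br_of_not_mem hx, H66.br_of_not_mem]
        intro h
        apply hx
        have h2 := mul_mem (mul_mem (inv_mem hk) h) hk
        have e2 : k⁻¹ * (k * x * k⁻¹) * k = x := by group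
        rwa [e2] at h2
    obtain ⟨n, hn, h⟩ := claim hF idp hV Φ hΦb hΦγ hj hji hjΦ hmin (w := b) hinv (hcj hcb) hb.gam
    have hZV : Subgroup.zpowers z ≤ V := by
      rw [Subgroup.zpowers_le]
      exact hz
    have hZ : IsPGroup ℓ (Subgroup.zpowers z) := hV.to_le hZV
    have hbz : br (Subgroup.zpowers z) b = b := by
      rw [← rs_eq_br]
      funext t
      unfold rs
      by_cases ht : t ∈ Cu z
      · rw [if_pos ht]
      · rw [if_neg ht, hb.blk.supp t ht]
    have h2 := br_one hF hZ (fun p hp => hji p (hZV hp)) (fun p hp => hinv p (hZV hp)) hj hb.blk.mul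
      (by
        rw [hbz, ← rs_eq_br]
        refine mulF_comm_of (K := Cu z) (fun x hx => ?_) (fun k hk => hb.blk.ix.inv hk)
        unfold rs
        rw [if_neg hx]) hn h
    rw [hbz] at h2
    rw [rs_eq_br]
    exact h2
  · intro κ' hκ'
    have h1 : ∑ᶠ t : Subgroup.centralizer (V : Set G), j t * rr M (κ' t) = Φ j := by
      rw [hΦ]
      exact finsum_congr fun t => by rw [hkk κ' hκ' t]
    rw [h1]
    exact hjΦ

end Pool.Agent.PP.T8.H84
end
end -- Pool.Agent.Helper84_AT8.MIN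

section -- Pool.Agent.Helper23_PFC.CFA

set_option autoImplicit false

/-!
# CFA: `br_V(j) F C(V) br_V(j)` modulo the augmentation ideal of `F V`
-/

open scoped BigOperators

noncomputable section

namespace Pool.Agent.PFC.H23

open Pool.Agent.Helper51_AWC Pool.Agent.Helper79_WRA Pool.Agent.PP Pool.Agent.PP.KF
open Pool.Agent.PP.K9 Pool.Agent.PP.K9.H97 Pool.Agent.PP.H75 Pool.Agent.PP.T3 Pool.Agent.PP.T2
open Pool.Agent.PP.T8 (Fr rs pw)

attribute [local instance] Ideal.Quotient.field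

/-! ## Algebra -/

section alg

variable {F A : Type} [Field F] [Ring A] [Algebra F A]

/-- (2): the nilpotent elements form a right ideal. -/
theorem nil_mul {J : A} (hJ0 : J ≠ 0) {n y : A} (hnJ : n * J = n)
    (h1 : ∃ k : ℕ, 0 < k ∧ ((n * y) ^ k = J ∨ (n * y) ^ k = 0)) (hn : ∃ m : ℕ, n ^ m = 0) :
    ∃ k : ℕ, (n * y) ^ k = 0 := by
  obtain ⟨k, hk, h | h⟩ := h1
  · exfalso
    obtain ⟨k, rfl⟩ := Nat.exists_eq_succ_of_ne_zero hk.ne'
    rw [Nat.succ_eq_add_one, pow_succ', mul_assoc] at h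
    obtain ⟨m, hm⟩ := hn
    have key : ∀ m : ℕ, n ^ m = 0 → False := by
      intro m
      induction m with
      | zero =>
        intro h0
        rw [pow_zero] at h0
        exact hJ0 (by rw [← one_mul J, h0, zero_mul])
      | succ m ih =>
        intro h0
        have h2 : n ^ m * J = 0 := by
          rw [← h, ← mul_assoc, ← pow_succ, h0, zero_mul]
        cases m with
        | zero => exact hJ0 (by rw [← one_mul J, ← pow_zero n, h2])
        | succ m =>
          apply ih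
          rw [pow_succ, mul_assoc, hnJ, ← pow_succ] at h2
          exact h2
    exact key m hm
  · exact ⟨k, h⟩

/-- (3): every element is nilpotent modulo the scalars. -/
theorem scal [IsAlgClosed F] {J : A} {L : Submodule F A} [FiniteDimensional F L] (hJL : J ∈ L)
    (hJ0 : J ≠ 0) (hJl : ∀ x ∈ L, J * x = x) (hmul : ∀ x ∈ L, ∀ y ∈ L, x * y ∈ L)
    (h1 : ∀ x ∈ L, ∃ k : ℕ, 0 < k ∧ (x ^ k = J ∨ x ^ k = 0)) {x : A} (hx : x ∈ L) :
    ∃ c : F, ∃ k : ℕ, (x - c • J) ^ k = 0 := by
  have hnt : Nontrivial L := ⟨⟨⟨J, hJL⟩, 0, fun h => hJ0 (congrArg Subtype.val h)⟩⟩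
  let T : L →ₗ[F] L :=
    { toFun := fun y => ⟨x * y, hmul x hx y y.2⟩
      map_add' := fun y z => Subtype.ext (mul_add x (y : A) (z : A))
      map_smul' := fun c y => Subtype.ext (mul_smul_comm c x (y : A)) }
  obtain ⟨c, hc⟩ := Module.End.exists_eigenvalue T
  obtain ⟨y, hy⟩ := hc.exists_hasEigenvector
  have hy1 : x * (y : A) = c • (y : A) := congrArg Subtype.val hy.apply_eq_smul
  have hy0 : (y : A) ≠ 0 := fun h => hy.2 (Subtype.ext h)
  have hz : (x - c • J) * (y : A) = 0 := by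
    rw [sub_mul, hy1, smul_mul_assoc, hJl _ y.2, sub_self]
  refine ⟨c, ?_⟩
  obtain ⟨k, hk, h | h⟩ := h1 (x - c • J) (L.sub_mem hx (L.smul_mem c hJL))
  · exfalso
    obtain ⟨k, rfl⟩ := Nat.exists_eq_succ_of_ne_zero hk.ne'
    apply hy0
    rw [← hJl _ y.2, ← h, Nat.succ_eq_add_one, pow_succ, mul_assoc, hz, mul_zero]
  · exact ⟨k, h⟩

end alg

/-! ## Functions -/

section fn

variable {F G : Type} [Field F] [Group G]

theorem inv_of_supp {V : Subgroup G} (hVC : V ≤ Subgroup.centralizer (V : Set G)) {x : G → F}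
    (hx : ∀ g, g ∉ Subgroup.centralizer (V : Set G) → x g = 0) : H66.Inv V x := by
  intro v hv t
  by_cases ht : t ∈ Subgroup.centralizer (V : Set G)
  · congr 1
    have h1 := Subgroup.mem_centralizer_iff.1 ht v hv
    rw [h1]
    group
  · rw [hx t ht, hx]
    intro h
    apply ht
    have h2 := mul_mem (mul_mem (inv_mem (hVC hv)) h) (hVC hv)
    have e2 : v⁻¹ * (v * t * v⁻¹) * v = t := by group
    rwa [e2] at h2

theorem br_eq {V : Subgroup G} {x : G → F}
    (hx : ∀ g, g ∉ Subgroup.centralizer (V : Set G) → x g = 0) : br V x = x := by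
  funext t
  by_cases ht : t ∈ Subgroup.centralizer (V : Set G)
  · exact H66.br_of_mem ht
  · rw [H66.br_of_not_mem ht, hx t ht]

theorem br_supp (V : Subgroup G) (x : G → F) :
    ∀ g, g ∉ Subgroup.centralizer (V : Set G) → br V x g = 0 := fun _ hg => H66.br_of_not_mem hg

theorem dl_supp {K : Subgroup G} {h : G} (hh : h ∈ K) : ∀ g, g ∉ K → dl F h g = 0 := by
  intro g hg
  unfold dl
  rw [if_neg]
  rintro rfl
  exact hg hh

/-- the restriction to a subgroup is multiplicative on powers -/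
theorem pw_res [Finite G] (K : Subgroup G) {x : G → F} (hx : ∀ g, g ∉ K → x g = 0) (n : ℕ) :
    (fun t : K => pw x n t) = pw (fun t : K => x t) n := by
  induction n with
  | zero =>
    funext t
    change dl F (1 : G) (t : G) = dl F (1 : K) t
    unfold dl
    by_cases h : t = 1
    · rw [if_pos h, if_pos (by rw [h]; rfl)]
    · rw [if_neg h, if_neg (fun h' : (t : G) = 1 => h (Subtype.ext h'))]
  | succ n ih =>
    change (fun t : K => mulF x (pw x n) t) = mulF (fun t : K => x t) (pw (fun t : K => x t) n)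
    rw [mulF_res K _ hx, ih]

variable [Finite G]

/-- the submodule of the functions with support in `K` and with `j x = x = x j` -/
def LL (K : Subgroup G) (j : G → F) : Submodule F (MonoidAlgebra F G) where
  carrier := {X | ∃ x : G → F, ma x = X ∧ (∀ g, g ∉ K → x g = 0) ∧ mulF j x = x ∧ mulF x j = x}
  add_mem' := by
    rintro _ _ ⟨a, rfl, h1, h2, h3⟩ ⟨b, rfl, h4, h5, h6⟩
    refine ⟨a + b, ma_add a b, fun g hg => ?_, ?_, ?_⟩
    · rw [Pi.add_apply, h1 g hg, h4 g hg, add_zero]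
    · rw [H20.mulF_add, h2, h5]
    · rw [H20.add_mulF, h3, h6]
  zero_mem' := ⟨0, ma_zero, fun _ _ => rfl, H20.mulF_zero j, H20.zero_mulF j⟩
  smul_mem' := by
    rintro c _ ⟨a, rfl, h1, h2, h3⟩
    refine ⟨c • a, ma_smul c a, fun g hg => ?_, ?_, ?_⟩
    · rw [Pi.smul_apply, h1 g hg, smul_zero]
    · rw [H20.mulF_smul, h2]
    · rw [H20.smul_mulF, h3]

theorem mem_LL {K : Subgroup G} {j x : G → F} :
    ma x ∈ LL K j ↔ (∀ g, g ∉ K → x g = 0) ∧ mulF j x = x ∧ mulF x j = x := by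
  constructor
  · rintro ⟨y, h, h1⟩
    rwa [ma_injective h] at h1
  · exact fun h => ⟨x, rfl, h⟩

theorem LL_mul {K : Subgroup G} {j : G → F} {X Y : MonoidAlgebra F G} (hX : X ∈ LL K j)
    (hY : Y ∈ LL K j) : X * Y ∈ LL K j := by
  obtain ⟨x, rfl, h1, h2, h3⟩ := hX
  obtain ⟨y, rfl, h4, h5, h6⟩ := hY
  rw [← ma_mul, mem_LL]
  refine ⟨mulF_supp K h1 h4, ?_, ?_⟩
  · rw [← H20.mulF_assoc, h2]
  · rw [H20.mulF_assoc, h6]

end fn

/-! ## The decomposition -/

section dec

variable {F G : Type} [Field F] [Group G] [Finite G]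

/-- the representative of the coset `V g` -/
def rep (V : Subgroup G) (g : G) : G := (Quotient.mk (QuotientGroup.rightRel V) g).out

omit [Finite G] in
theorem rep_mem (V : Subgroup G) (g : G) : g * (rep V g)⁻¹ ∈ V := by
  have h : (Quotient.mk (QuotientGroup.rightRel V) (rep V g)) =
      Quotient.mk (QuotientGroup.rightRel V) g := Quotient.out_eq _
  exact QuotientGroup.rightRel_apply.1 (Quotient.exact h)

omit [Finite G] in
theorem rep_eq (V : Subgroup G) {g g' : G} (h : g' * g⁻¹ ∈ V) : rep V g = rep V g' := by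
  unfold rep
  congr 1
  exact Quotient.sound (QuotientGroup.rightRel_apply.2 h)

open Classical in
/-- the part of `n` at `v` -/
def zz (V C : Subgroup G) (n : G → F) (v : G) : G → F :=
  fun g => if g ∈ C ∧ rep V g = g then n (v * g) else 0

theorem zz_sum {V C : Subgroup G} (hVC : V ≤ C) {n : G → F} (hn : ∀ g, g ∉ C → n g = 0)
    (h0 : ∀ h, ∑ᶠ v : V, n (v * h) = 0) :
    ∑ᶠ v : V, (mulF (dl F (v : G)) (zz V C n v) - zz V C n v) = n := by
  classical
  have := Fintype.ofFinite V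
  rw [finsum_eq_sum_of_fintype, Finset.sum_sub_distrib]
  have h1 : ∑ v : V, zz V C n v = 0 := by
    funext g
    rw [Finset.sum_apply, Pi.zero_apply]
    by_cases hg : g ∈ C ∧ rep V g = g
    · have h2 := h0 g
      rw [finsum_eq_sum_of_fintype] at h2
      rw [← h2]
      refine Finset.sum_congr rfl fun v _ => ?_
      rw [zz, if_pos hg]
    · refine Finset.sum_eq_zero fun v _ => ?_
      rw [zz, if_neg hg]
  rw [h1, sub_zero]
  funext h
  rw [Finset.sum_apply]
  by_cases hh : h ∈ C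
  · have hv0 : h * (rep V h)⁻¹ ∈ V := rep_mem V h
    rw [Finset.sum_eq_single (⟨h * (rep V h)⁻¹, hv0⟩ : V)]
    · rw [mulF_dl_l]
      have e1 : (h * (rep V h)⁻¹)⁻¹ * h = rep V h := by group
      show zz V C n (h * (rep V h)⁻¹) ((h * (rep V h)⁻¹)⁻¹ * h) = n h
      rw [e1, zz, if_pos]
      · congr 1
        group
      · constructor
        · have h3 := mul_mem (inv_mem (hVC hv0)) hh
          rwa [e1] at h3
        · apply rep_eq
          exact hv0
    · intro v _ hv
      rw [mulF_dl_l]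
      show zz V C n v ((v : G)⁻¹ * h) = 0
      rw [zz, if_neg]
      rintro ⟨-, h4⟩
      apply hv
      have h5 : rep V ((v : G)⁻¹ * h) = rep V h := by
        apply rep_eq
        have e2 : h * ((v : G)⁻¹ * h)⁻¹ = v := by group
        rw [e2]
        exact v.2
      apply Subtype.ext
      show (v : G) = h * (rep V h)⁻¹
      rw [← h5, h4]
      group
    · intro h'
      exact absurd (Finset.mem_univ _) h'
  · rw [hn h hh]
    refine Finset.sum_eq_zero fun v _ => ?_
    rw [mulF_dl_l]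
    show zz V C n v ((v : G)⁻¹ * h) = 0
    rw [zz, if_neg]
    rintro ⟨h4, -⟩
    apply hh
    have h5 := mul_mem (hVC v.2) h4
    rwa [mul_inv_cancel_left] at h5

omit [Finite G] in
theorem zz_supp (V C : Subgroup G) (n : G → F) (v : G) : ∀ g, g ∉ C → zz V C n v g = 0 := by
  intro g hg
  rw [zz, if_neg fun h => hg h.1]

theorem mulF_finsum {X : Type} [Finite X] (a : G → F) (f : X → G → F) :
    mulF a (∑ᶠ x, f x) = ∑ᶠ x, mulF a (f x) := by
  have := Fintype.ofFinite X
  rw [finsum_eq_sum_of_fintype, finsum_eq_sum_of_fintype]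
  apply ma_injective
  rw [ma_mul, ma_sum, ma_sum, Finset.mul_sum]
  exact Finset.sum_congr rfl fun x _ => (ma_mul _ _).symm

theorem finsum_mulF {X : Type} [Finite X] (a : G → F) (f : X → G → F) :
    mulF (∑ᶠ x, f x) a = ∑ᶠ x, mulF (f x) a := by
  have := Fintype.ofFinite X
  rw [finsum_eq_sum_of_fintype, finsum_eq_sum_of_fintype]
  apply ma_injective
  rw [ma_mul, ma_sum, ma_sum, Finset.sum_mul]
  exact Finset.sum_congr rfl fun x _ => (ma_mul _ _).symm

end dec

/-! ## The local algebra -/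

section loc

variable {ℓ : ℕ} [Fact ℓ.Prime] {M : Ideal (integralClosure ℤ ℂ)} [M.IsMaximal]
  (hM : (ℓ : integralClosure ℤ ℂ) ∈ M) {G : Type} [Group G] [Finite G] {e : G → FF M}
  {V : Subgroup G} {γ : G → FF M} (hL : Ld ℓ e V γ) {j : G → FF M} (hJ : Jd M V γ j)

include hL in
theorem V_le : V ≤ Subgroup.centralizer (V : Set G) := by
  intro v hv
  rw [Subgroup.mem_centralizer_iff]
  intro w hw
  exact hL.ab w hw v hv

include hM hL hJ in
theorem jj : mulF (br V j) (br V j) = br V j := by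
  have hF : GoodF ℓ (FF M) := H50.fld ℓ Fact.out M hM
  rw [← H66.br_mulF hF hL.tp.pg hJ.iv hJ.iv, hJ.id]

include hM hL hJ in
/-- (1) -/
theorem pw_one {x : G → FF M} (hx : ∀ g, g ∉ Subgroup.centralizer (V : Set G) → x g = 0)
    (h1 : mulF (br V j) x = x) (h2 : mulF x (br V j) = x) :
    ∃ k : ℕ, 0 < k ∧ (pw x k = br V j ∨ pw x k = 0) := by
  have hF : GoodF ℓ (FF M) := H50.fld ℓ Fact.out M hM
  have hV := hL.tp.pg
  have hxi : H66.Inv V x := inv_of_supp (V_le hL) hx
  have hji : H66.Inv V j := hJ.iv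
  have hwi : H66.Inv V (mulF (mulF j x) j) := (hji.mulF hxi).mulF hji
  obtain ⟨k, hk, h⟩ := hJ.lo (mulF (mulF j x) j) hwi
    (by rw [H20.mulF_assoc, ← H20.mulF_assoc j j, hJ.id, ← H20.mulF_assoc])
    (by rw [H20.mulF_assoc, hJ.id])
  have h3 : br V (pw (mulF (mulF j x) j) k) = pw x k := by
    rw [T8.H84.br_pw hF hV hwi, H66.br_mulF hF hV (hji.mulF hxi) hji, H66.br_mulF hF hV hji hxi,
      br_eq hx, h1, h2]
  refine ⟨k, hk, ?_⟩
  rw [← h3]
  rcases h with h | h
  · left
    rw [h]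
  · right
    rw [h, H66.br_zero]

include hL in
theorem irr_ne : (IrrE M (fun t : Subgroup.centralizer (V : Set G) => γ t)).Nonempty := by
  by_contra hemp
  rw [Set.not_nonempty_iff_eq_empty] at hemp
  have hgi : IsIdem (fun t : Subgroup.centralizer (V : Set G) => γ t) := hL.gam.blk.1
  obtain ⟨h1, -, -⟩ := KF.H25.idm M _ _ hgi
  apply hL.gam.blk.2.1
  funext t
  rw [← (h1 t).2]
  have h2 : eh M (fun t : Subgroup.centralizer (V : Set G) => γ t) t = 0 := by
    unfold eh
    rw [hemp, finsum_mem_empty, mul_zero]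
  rw [h2]
  exact rr_zero

include hL hJ in
theorem j_ne : br V j ≠ 0 := by
  intro h0
  obtain ⟨κ, hκ⟩ := irr_ne hL
  apply hJ.nz κ hκ
  rw [finsum_eq_zero_of_forall_eq_zero]
  intro t
  have h1 : br V j (t : G) = j t := H66.br_of_mem t.2
  rw [← h1, h0, Pi.zero_apply, zero_mul]

include hM hL hJ in
/-- (4): the sums of the coefficients of a nilpotent element over the cosets of `V` -/
theorem sum_zero (jun : JunStmt) (nph : NphStmt) (lmb : LmbStmt) {n : G → FF M}
    (hn : ∀ g, g ∉ Subgroup.centralizer (V : Set G) → n g = 0)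
    (h1 : mulF (br V j) n = n) (h2 : mulF n (br V j) = n) (hnil : ∃ m : ℕ, pw n m = 0) (h : G) :
    ∑ᶠ v : V, n (v * h) = 0 := by
  have hVC := V_le hL
  by_cases hh : h ∈ Subgroup.centralizer (V : Set G)
  swap
  · rw [finsum_eq_zero_of_forall_eq_zero]
    intro v
    apply hn
    intro h'
    apply hh
    have h3 := mul_mem (inv_mem (hVC v.2)) h'
    rwa [inv_mul_cancel_left] at h3
  have hhi : h⁻¹ ∈ Subgroup.centralizer (V : Set G) := inv_mem hh
  obtain ⟨q, -, hq⟩ := lmb ℓ M hM G e V γ hL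
  obtain ⟨κ, hκ⟩ := irr_ne hL
  obtain ⟨-, -, hj3⟩ := jun ℓ M hM G e V γ hL j hJ
  have hnγ : mulF n γ = n := by
    conv_lhs => rw [← h2]
    rw [H20.mulF_assoc, hj3, h2]
  have hdγ : mulF (dl (FF M) h⁻¹) γ = mulF γ (dl (FF M) h⁻¹) :=
    dl_comm ((cj_eq_iff h⁻¹ γ).1 (hL.gam.ix.inv hhi))
  have hds := dl_supp (F := FF M) hhi
  have ha : ∀ g, g ∉ Subgroup.centralizer (V : Set G) → mulF n (dl (FF M) h⁻¹) g = 0 :=
    mulF_supp _ hn hds
  have h3 := hq κ hκ (mulF n (dl (FF M) h⁻¹)) ha (by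
    rw [H20.mulF_assoc, hdγ, ← H20.mulF_assoc, hnγ])
  have h4 : ∀ y, mulF n (dl (FF M) h⁻¹) y = n (y * h) := by
    intro y
    rw [mulF_dl_r, inv_inv]
  simp only [h4] at h3
  rw [h3]
  -- the value at `n (j' h⁻¹ j')`
  have hb : mulF (mulF n (dl (FF M) h⁻¹)) (br V j) =
      mulF n (mulF (mulF (br V j) (dl (FF M) h⁻¹)) (br V j)) := by
    rw [H20.mulF_assoc, ← H20.mulF_assoc n (mulF (br V j) (dl (FF M) h⁻¹)),
      ← H20.mulF_assoc n (br V j), h2, H20.mulF_assoc]
  have hjl : mulF (br V j) (mulF n (dl (FF M) h⁻¹)) = mulF n (dl (FF M) h⁻¹) := by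
    rw [← H20.mulF_assoc, h1]
  have hjs := br_supp V j
  obtain ⟨y, hy⟩ : ∃ y, y = mulF (mulF (br V j) (dl (FF M) h⁻¹)) (br V j) := ⟨_, rfl⟩
  have hys : ∀ g, g ∉ Subgroup.centralizer (V : Set G) → y g = 0 := by
    rw [hy]
    exact mulF_supp _ (mulF_supp _ hjs hds) hjs
  have hjj := jj hM hL hJ
  have hnys := mulF_supp (Subgroup.centralizer (V : Set G)) hn hys
  have hny1 : mulF (br V j) (mulF n y) = mulF n y := by rw [← H20.mulF_assoc, h1]
  have hny2 : mulF (mulF n y) (br V j) = mulF n y := by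
    rw [H20.mulF_assoc, hy, H20.mulF_assoc, hjj]
  have hnilp : ∃ k : ℕ, pw (mulF n y) k = 0 := by
    have h5 : ∃ k : ℕ, (ma n * ma y) ^ k = 0 := by
      refine nil_mul (J := ma (br V j)) ?_ ?_ ?_ ?_
      · intro h0
        exact j_ne hL hJ (ma_injective (h0.trans ma_zero.symm))
      · rw [← ma_mul, h2]
      · obtain ⟨k, hk, h6⟩ := pw_one hM hL hJ hnys hny1 hny2
        refine ⟨k, hk, ?_⟩
        rw [← ma_mul, ← T8.H84.ma_pw]
        rcases h6 with h6 | h6
        · left
          rw [h6]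
        · right
          rw [h6, ma_zero]
      · obtain ⟨m, hm⟩ := hnil
        exact ⟨m, by rw [← T8.H84.ma_pw, hm, ma_zero]⟩
    obtain ⟨k, hk⟩ := h5
    refine ⟨k, ma_injective ?_⟩
    rw [T8.H84.ma_pw, ma_mul, hk, ma_zero]
  obtain ⟨k, hk⟩ := hnilp
  obtain ⟨p1, p2⟩ := nph ℓ M hM (Subgroup.centralizer (V : Set G)) κ hκ.1
  have h7 : (fun t : Subgroup.centralizer (V : Set G) => mulF n (dl (FF M) h⁻¹) t) =
      mulF (fun t : Subgroup.centralizer (V : Set G) => br V j t)
        (fun t : Subgroup.centralizer (V : Set G) => mulF n (dl (FF M) h⁻¹) t) := by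
    rw [← mulF_res _ _ hjs, hjl]
  have h8 : mulF (fun t : Subgroup.centralizer (V : Set G) => mulF n (dl (FF M) h⁻¹) t)
      (fun t : Subgroup.centralizer (V : Set G) => br V j t) =
      fun t : Subgroup.centralizer (V : Set G) => mulF n y t := by
    rw [← mulF_res _ _ ha, hb, hy]
  have h9 := p2 (fun t : Subgroup.centralizer (V : Set G) => br V j t)
    (fun t : Subgroup.centralizer (V : Set G) => mulF n (dl (FF M) h⁻¹) t)
  rw [← h7, h8] at h9
  have h10 := p1 (fun t : Subgroup.centralizer (V : Set G) => mulF n y t) k (by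
    rw [← pw_res _ hnys, hk]
    rfl)
  rw [h10] at h9
  simp only [h4] at h9
  rw [h9, mul_zero]

end loc

/-- CFA -/
theorem cfa (jun : JunStmt) (nph : NphStmt) (lmb : LmbStmt) : CfaStmt := by
  intro ℓ _ M _ hM G _ _ e V γ hL j hJ x hx h1 h2
  classical
  have hF : GoodF ℓ (FF M) := H50.fld ℓ Fact.out M hM
  have hcl : IsAlgClosed (FF M) := hF.closed
  have hVC := V_le hL
  have hjs := br_supp V j
  have hjj := jj hM hL hJ
  obtain ⟨C, hC⟩ : ∃ C, C = Subgroup.centralizer (V : Set G) := ⟨_, rfl⟩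
  rw [← hC] at hx hjs hVC ⊢
  have hjn : ma (br V j) ≠ 0 := fun h0 => j_ne hL hJ (ma_injective (h0.trans ma_zero.symm))
  -- the scalar
  obtain ⟨c, k, hk⟩ := scal (F := FF M) (J := ma (br V j)) (L := LL C (br V j))
    (mem_LL.2 ⟨hjs, hjj, hjj⟩) hjn
    (by
      rintro _ ⟨y, rfl, -, h3, -⟩
      rw [← ma_mul, h3])
    (fun X hX Y hY => LL_mul hX hY)
    (by
      rintro _ ⟨y, rfl, h3, h4, h5⟩
      obtain ⟨m, hm, h6⟩ := pw_one hM hL hJ (by rw [← hC]; exact h3) h4 h5
      refine ⟨m, hm, ?_⟩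
      rw [← T8.H84.ma_pw]
      rcases h6 with h6 | h6
      · left
        rw [h6]
      · right
        rw [h6, ma_zero])
    (x := ma x) (mem_LL.2 ⟨hx, h1, h2⟩)
  obtain ⟨n, hn⟩ : ∃ n, n = x - c • br V j := ⟨_, rfl⟩
  have hns : ∀ g, g ∉ C → n g = 0 := by
    intro g hg
    rw [hn, Pi.sub_apply, Pi.smul_apply, hx g hg, hjs g hg, smul_zero, sub_zero]
  have hn1 : mulF (br V j) n = n := by
    rw [hn, H20.mulF_sub, H20.mulF_smul, h1, hjj]
  have hn2 : mulF n (br V j) = n := by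
    rw [hn, H20.sub_mulF, H20.smul_mulF, h2, hjj]
  have hnil : ∃ m : ℕ, pw n m = 0 := by
    refine ⟨k, ma_injective ?_⟩
    rw [T8.H84.ma_pw, hn, ma_sub, ma_smul, hk, ma_zero]
  have h0 : ∀ h, ∑ᶠ v : V, n (v * h) = 0 :=
    sum_zero hM hL hJ jun nph lmb (by rw [← hC]; exact hns) hn1 hn2 hnil
  have hz := zz_sum hVC hns h0
  refine ⟨c, fun v => mulF (mulF (br V j) (zz V C n v)) (br V j), fun v => ⟨?_, ?_, ?_⟩, ?_⟩
  · exact mulF_supp C (mulF_supp C hjs (zz_supp V C n v)) hjs
  · rw [← H20.mulF_assoc, ← H20.mulF_assoc, hjj]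
  · rw [H20.mulF_assoc, hjj]
  · have h3 : ∑ᶠ v : V, (mulF (dl (FF M) (v : G)) (mulF (mulF (br V j) (zz V C n v)) (br V j)) -
        mulF (mulF (br V j) (zz V C n v)) (br V j)) = n := by
      have h4 : ∀ v : V, mulF (dl (FF M) (v : G)) (mulF (mulF (br V j) (zz V C n v)) (br V j)) -
          mulF (mulF (br V j) (zz V C n v)) (br V j) =
          mulF (mulF (br V j) (mulF (dl (FF M) (v : G)) (zz V C n v) - zz V C n v)) (br V j) := by
        intro v
        have h5 : mulF (dl (FF M) (v : G)) (br V j) = mulF (br V j) (dl (FF M) (v : G)) := by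
          apply dl_comm
          exact inv_of_supp (V_le hL) (br_supp V j) v v.2
        rw [H20.mulF_sub, H20.sub_mulF, ← H20.mulF_assoc, ← H20.mulF_assoc, h5,
          H20.mulF_assoc (br V j) (dl (FF M) (v : G))]
      rw [finsum_congr h4, ← finsum_mulF, ← mulF_finsum, hz, hn1, hn2]
    rw [h3, hn]
    abel

end Pool.Agent.PFC.H23
end
end -- Pool.Agent.Helper23_PFC.CFA

section -- Pool.Agent.Helper45_PFC.JEX

/-!
# Squad PFC, row JEX: existence of the coherent local idempotent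
-/

open scoped BigOperators

noncomputable section

namespace Pool.Agent.PFC.H45

open Pool.Agent.Helper51_AWC Pool.Agent.Helper79_WRA Pool.Agent.PP Pool.Agent.PP.KF
open Pool.Agent.PP.K9 Pool.Agent.PP.K9.H97 Pool.Agent.PP.H75 Pool.Agent.PP.T3 Pool.Agent.PP.T2
open Pool.Agent.PP.T8 (Fr rs pw IdpStmt Rk1Stmt KnzStmt)
open Pool.Agent.PP.T8.H84 (rkL eq_of_rk ma_pw inv_pw br_one phi_mul claim)

attribute [local instance] Ideal.Quotient.field

section lo

variable {F G : Type} [Field F] [Group G] [Finite G]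

theorem jl {j w : G → F} (h : mulF j w = w) {n : ℕ} (hn : 0 < n) : mulF j (pw w n) = pw w n := by
  apply ma_injective
  obtain ⟨k, rfl⟩ := Nat.exists_eq_succ_of_ne_zero hn.ne'
  rw [ma_mul, ma_pw, Nat.succ_eq_add_one, pow_succ', ← mul_assoc, ← ma_mul, h]

theorem jr {j w : G → F} (h : mulF w j = w) {n : ℕ} (hn : 0 < n) : mulF (pw w n) j = pw w n := by
  apply ma_injective
  obtain ⟨k, rfl⟩ := Nat.exists_eq_succ_of_ne_zero hn.ne'
  rw [ma_mul, ma_pw, Nat.succ_eq_add_one, pow_succ, mul_assoc, ← ma_mul, h]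

theorem mulF_sub (a b c : G → F) : mulF a (b - c) = mulF a b - mulF a c := by
  have h : mulF a (b - c) + mulF a c = mulF a b := by
    rw [← H20.mulF_add, sub_add_cancel]
  rw [← h, add_sub_cancel_right]

theorem sub_mulF (a b c : G → F) : mulF (a - b) c = mulF a c - mulF b c := by
  have h : mulF (a - b) c + mulF b c = mulF a c := by
    rw [← H20.add_mulF, sub_add_cancel]
  rw [← h, add_sub_cancel_right]

/-- The dichotomy for a minimal idempotent. -/
theorem dich {ℓ : ℕ} (hF : GoodF ℓ F) (idp : IdpStmt) {V : Subgroup G}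
    (Φ : (G → F) → F) (hΦs : ∀ a b, Φ (a - b) = Φ a - Φ b)
    {j : G → F} (hj : mulF j j = j) (hji : H66.Inv V j) (hjΦ : Φ j ≠ 0)
    (hmin : ∀ j' : G → F, mulF j' j' = j' → H66.Inv V j' → Φ j' ≠ 0 → rkL j ≤ rkL j')
    {w : G → F} (hw : H66.Inv V w) (h1 : mulF j w = w) (h2 : mulF w j = w) :
    ∃ n : ℕ, 0 < n ∧ (pw w n = j ∨ pw w n = 0) := by
  obtain ⟨n, hn, hid⟩ := idp ℓ F hF G w
  refine ⟨n, hn, ?_⟩
  have k1 := jl h1 hn
  have k2 := jr h2 hn
  have ki : H66.Inv V (pw w n) := inv_pw hw n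
  generalize pw w n = j' at hid k1 k2 ki ⊢
  by_cases h0 : Φ j' = 0
  · right
    have s1 : mulF (j - j') (j - j') = j - j' := by
      rw [sub_mulF, mulF_sub, mulF_sub, hj, k1, k2, hid]
      abel
    have s2 : H66.Inv V (j - j') := by
      intro v hv x
      have e1 := hji v hv x
      have e2 := ki v hv x
      rw [Pi.sub_apply, Pi.sub_apply, e1, e2]
    have s3 : Φ (j - j') ≠ 0 := by
      rw [hΦs, h0, sub_zero]
      exact hjΦ
    have s4 : mulF j (j - j') = j - j' := by rw [mulF_sub, hj, k1]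
    have s5 : mulF (j - j') j = j - j' := by rw [sub_mulF, hj, k2]
    have s6 := eq_of_rk hj s1 s4 s5 (hmin _ s1 s2 s3)
    have s7 : j' = j - (j - j') := by abel
    rw [s7, s6, sub_self]
  · left
    exact eq_of_rk hj hid k1 k2 (hmin _ hid ki h0)

end lo

theorem jex (idp : IdpStmt) (rk1 : Rk1Stmt) (knz : KnzStmt) (dgc : DgcStmt)
    (idm : KF.IdmStmt) : JexStmt := by
  intro ℓ _ M _ hM G _ _ e V γ hL
  classical
  have hF : GoodF ℓ (FF M) := H50.fld ℓ Fact.out M hM
  have hVC : V ≤ Subgroup.centralizer (V : Set G) := by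
    intro v hv
    rw [Subgroup.mem_centralizer_iff]
    intro w hw
    exact hL.ab w hw v hv
  have hgi : IsIdem (fun t : Subgroup.centralizer (V : Set G) => γ t) := hL.gam.blk.1
  by_cases hemp : IrrE M (fun t : Subgroup.centralizer (V : Set G) => γ t) = ∅
  · refine ⟨0, H46.mulF_zero 0, fun _ _ _ => rfl, ?_, ?_, ?_⟩
    · intro W _ f _
      rw [H66.br_zero]
      exact mulF_zero_left f
    · intro κ hκ
      rw [hemp] at hκ
      exact absurd hκ (Set.notMem_empty κ)
    · intro w _ h1 _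
      refine ⟨1, Nat.one_pos, Or.inr ?_⟩
      have h0 : w = 0 := by
        rw [← h1]
        exact mulF_zero_left w
      rw [h0]
      exact mulF_zero_left _
  obtain ⟨κ, hκ⟩ := Set.nonempty_iff_ne_empty.2 hemp
  obtain ⟨c, hc⟩ := dgc ℓ M hM G e V γ hL
  obtain ⟨_, hk⟩ := knz ℓ M hM G e V γ hL c hc
  obtain ⟨⟨s, hs⟩, hkk⟩ := hk κ hκ
  obtain ⟨Φ, hΦ⟩ : ∃ Φ : (G → FF M) → FF M, ∀ a, Φ a =
      ∑ᶠ t : Subgroup.centralizer (V : Set G), a t * rr M (κ t) := ⟨_, fun _ => rfl⟩
  have hΦb : ∀ a, Φ (br V a) = Φ a := by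
    intro a
    rw [hΦ, hΦ]
    exact finsum_congr fun t => by rw [H66.br_of_mem t.2]
  have hΦγ : ∀ a, Φ (mulF (br V a) γ) = Φ (br V a) := by
    intro a
    rw [hΦ, hΦ]
    have h1 := mulF_res (Subgroup.centralizer (V : Set G)) (a := br V a) γ
      (fun x hx => H66.br_of_not_mem hx)
    have h2 := H46.mulF_comm hgi.1 (fun t : Subgroup.centralizer (V : Set G) => br V a t)
    have h3 := phi_mul idm hgi hκ (fun t : Subgroup.centralizer (V : Set G) => br V a t)
    rw [h2, ← h1] at h3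
    exact h3
  have hΦs : ∀ a b, Φ (a - b) = Φ a - Φ b := by
    intro a b
    have := Fintype.ofFinite (Subgroup.centralizer (V : Set G))
    rw [hΦ, hΦ, hΦ, finsum_eq_sum_of_fintype, finsum_eq_sum_of_fintype, finsum_eq_sum_of_fintype,
      ← Finset.sum_sub_distrib]
    exact Finset.sum_congr rfl fun t _ => by rw [Pi.sub_apply, sub_mul]
  -- the set of the idempotents is not empty
  obtain ⟨j₀, hj₀, hj₀Φ⟩ := rk1 ℓ M hM (Subgroup.centralizer (V : Set G)) κ hκ.1 (dl (FF M) s) (by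
    rw [finsum_eq_single _ s]
    · rw [dl, if_pos rfl, one_mul]
      exact hs
    · intro t ht
      rw [dl, if_neg ht, zero_mul])
  have hne : ∃ j : G → FF M, mulF j j = j ∧ H66.Inv V j ∧ Φ j ≠ 0 := by
    refine ⟨H75.ext0 (Subgroup.centralizer (V : Set G)) j₀, ?_, ?_, ?_⟩
    · have hs0 := ext0_supp (Subgroup.centralizer (V : Set G)) j₀
      have he : (fun t : Subgroup.centralizer (V : Set G) =>
          H75.ext0 (Subgroup.centralizer (V : Set G)) j₀ t) = j₀ := funext (ext0_apply _ j₀)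
      apply eq_of_res (mulF_supp _ hs0 hs0) hs0
      rw [mulF_res _ _ hs0, he, hj₀]
    · intro v hv x
      by_cases hx : x ∈ Subgroup.centralizer (V : Set G)
      · congr 1
        have h1 := Subgroup.mem_centralizer_iff.1 hx v hv
        rw [h1]
        group
      · rw [ext0_supp _ j₀ x hx, ext0_supp _ j₀]
        intro h
        apply hx
        have h2 := mul_mem (mul_mem (inv_mem (hVC hv)) h) (hVC hv)
        have e2 : v⁻¹ * (v * x * v⁻¹) * v = x := by group
        rwa [e2] at h2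
    · rw [hΦ]
      intro h
      apply hj₀Φ
      rw [← h]
      exact finsum_congr fun t => by rw [ext0_apply]
  -- a minimal one
  obtain ⟨j, ⟨hj, hji, hjΦ⟩, hmin⟩ : ∃ j : G → FF M, (mulF j j = j ∧ H66.Inv V j ∧ Φ j ≠ 0) ∧
      ∀ j' : G → FF M, mulF j' j' = j' → H66.Inv V j' → Φ j' ≠ 0 → rkL j ≤ rkL j' := by
    have h1 : (rkL '' {j : G → FF M | mulF j j = j ∧ H66.Inv V j ∧ Φ j ≠ 0}).Nonempty := by
      obtain ⟨j, hj⟩ := hne
      exact ⟨rkL j, j, hj, rfl⟩
    obtain ⟨j, hj, hjr⟩ := Nat.sInf_mem h1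
    refine ⟨j, hj, fun j' a b c => ?_⟩
    rw [hjr]
    exact Nat.sInf_le ⟨j', ⟨a, b, c⟩, rfl⟩
  have hV := hL.tp.pg
  have hcj : ∀ {w : G → FF M}, (∀ k ∈ Subgroup.centralizer (V : Set G), H75.cj k (br V w) = br V w) →
      mulF (br V j) (br V w) = mulF (br V w) (br V j) := fun {w} hw =>
    mulF_comm_of (K := Subgroup.centralizer (V : Set G)) (fun x hx => H66.br_of_not_mem hx) hw
  refine ⟨j, hj, hji, ?_, ?_, fun w hw h1 h2 => dich hF idp Φ hΦs hj hji hjΦ hmin hw h1 h2⟩
  · -- the local blocks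
    intro W hW b hb
    have hVW : V ≤ Subgroup.centralizer (W : Set G) := by
      intro v hv
      rw [Subgroup.mem_centralizer_iff]
      intro x hx
      exact hL.ab x (hW hx) v hv
    have hCW : Subgroup.centralizer (V : Set G) ≤ Subgroup.centralizer (W : Set G) := by
      intro v hv
      rw [Subgroup.mem_centralizer_iff]
      intro x hx
      exact Subgroup.mem_centralizer_iff.1 hv x (hW hx)
    have hinv : H66.Inv V b := fun v hv => (cj_eq_iff v b).1 (hb.blk.ix.inv (hVW hv))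
    have hcb : ∀ k ∈ Subgroup.centralizer (V : Set G), H75.cj k (br V b) = br V b := by
      intro k hk
      rw [cj_eq_iff]
      intro x
      by_cases hx : x ∈ Subgroup.centralizer (V : Set G)
      · rw [H66.br_of_mem hx, H66.br_of_mem (mul_mem (mul_mem hk hx) (inv_mem hk))]
        exact (cj_eq_iff k b).1 (hb.blk.ix.inv (hCW hk)) x
      · rw [H66.br_of_not_mem hx, H66.br_of_not_mem]
        intro h
        apply hx
        have h2 := mul_mem (mul_mem (inv_mem hk) h) hk
        have e2 : k⁻¹ * (k * x * k⁻¹) * k = x := by group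
        rwa [e2] at h2
    obtain ⟨n, hn, h⟩ := claim hF idp hV Φ hΦb hΦγ hj hji hjΦ hmin (w := b) hinv (hcj hcb) hb.gam
    have hWp : IsPGroup ℓ W := hV.to_le hW
    have hbW : br W b = b := by
      funext t
      by_cases ht : t ∈ Subgroup.centralizer (W : Set G)
      · exact H66.br_of_mem ht
      · rw [H66.br_of_not_mem ht, hb.blk.supp t ht]
    have h2 := br_one hF hWp (fun p hp => hji p (hW hp)) (fun p hp => hinv p (hW hp)) hj hb.blk.mul
      (by
        rw [hbW]
        exact mulF_comm_of (K := Subgroup.centralizer (W : Set G))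
          (fun x hx => H66.br_of_not_mem hx) (fun k hk => hb.blk.ix.inv hk)) hn h
    rw [hbW] at h2
    exact h2
  · intro κ' hκ'
    have h1 : ∑ᶠ t : Subgroup.centralizer (V : Set G), j t * rr M (κ' t) = Φ j := by
      rw [hΦ]
      exact finsum_congr fun t => by rw [hkk κ' hκ' t]
    rw [h1]
    exact hjΦ

end Pool.Agent.PFC.H45
end
end -- Pool.Agent.Helper45_PFC.JEX
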