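import Pool.Agent.Helper12_AWB.B030
import Pool.Agent.Helper12_AWB.B039
import Pool.Agent.Helper12_AWB.B040
import Pool.Agent.Helper12_AWB.B182

/-!
# Merged copies (generated) of the modules

* `Pool.Agent.Helper10_PFC.QCX`
* `Pool.Agent.Helper10_PFE.PTT`
* `Pool.Agent.Helper15_PFC.KWAa`
* `Pool.Agent.Helper17_PFC.LOC`
* `Pool.Agent.Helper17_PFE.TBN`
* `Pool.Agent.Helper19_PFC.QEXa`
* `Pool.Agent.Helper24_PFC.OMZ`
* `Pool.Agent.Helper76_PFC.LSE`
* `Pool.Agent.Helper91_PFC.LSF`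
* `Pool.Agent.Helper29_PFD.LSG`
* `Pool.Agent.Helper29_PFE.FLA`
* `Pool.Agent.Helper32_PFC.QTJ`
* `Pool.Agent.Helper32_PFE.FLZ`
* `Pool.Agent.Helper34_PFC.QSP`
* `Pool.Agent.Helper39_PFC.Qmt`
* `Pool.Agent.Helper3_PFC.QLR`
* `Pool.Agent.Helper56_PFE.TWL`
* `Pool.Agent.Helper64_PFE.SGC`
* `Pool.Agent.Helper72_PFE.ABQ`
* `Pool.Agent.Helper48_PFC.UNS`
* `Pool.Agent.Helper59_PFC.QLL`
* `Pool.Agent.Helper62_PFC.SPG`
* `Pool.Agent.Helper63_PFC.QLP`
* `Pool.Agent.Helper63_PFC.SEXa`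
* `Pool.Agent.Helper6_PFC.QLB`
* `Pool.Agent.Helper72_PFC.LFTa`
* `Pool.Agent.Helper43_PFC.AllB5`
* `Pool.Agent.Helper66_PFD.AsmPmz`
* `Pool.Agent.Helper79_PFE.Lon`
* `Pool.Agent.Helper79_PFE.Fan`
* `Pool.Agent.Helper79_PFE.Fun`
* `Pool.Agent.Helper79_PFE.AsmN`
* `Pool.Agent.Helper79_PFE.Qgn`
* `Pool.Agent.Helper79_PFE.PmzN`
* `Pool.Agent.Helper79_PFE.SznN`
* `Pool.Agent.Helper9_PFE.SGF`
* `Pool.Agent.Helper79_PFE.AllS`
-/

set_option autoImplicit false

section -- Pool.Agent.Helper10_PFC.QCX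

/-!
Squad PFC, row QCX of block B4b: the character of the fixed algebra if the Brauer quotient is the
group algebra, and its uniqueness.
-/

noncomputable section

namespace Pool.Agent.PFC.H10

/-- a functional which is invariant under the group kills the Brauer kernel -/
theorem kill_BK {ℓ : ℕ} [Fact ℓ.Prime] {F V M : Type} [Field F] [CharP F ℓ] [Group V] [Finite V]
    [AddCommGroup M] [Module F M] (ρ : V →* (M →ₗ[F] M)) (hV : IsPGroup ℓ V) (Q : Subgroup V)
    (b : M →ₗ[F] F) (hb : ∀ q ∈ Q, ∀ m, b (ρ q m) = b m) {m : M} (hm : m ∈ BK ρ Q) : b m = 0 := by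
  unfold BK at hm
  induction hm using Submodule.span_induction with
  | mem n hn =>
    obtain ⟨P', S, x, hlt, hS, hx, rfl⟩ := hn
    rw [map_sum, Finset.sum_congr rfl (fun y hy => hb y (hS.1 y hy) x), Finset.sum_const]
    have hP : IsPGroup ℓ Q := hV.to_subgroup Q
    have hdvd : ℓ ∣ S.card := by
      have hc := card_tv P' Q hlt.le S hS
      obtain ⟨k, hk⟩ := (IsPGroup.iff_card).1 hP
      have hdiv : S.card ∣ ℓ ^ k := ⟨_, by rw [← hk]; exact hc.symm⟩
      obtain ⟨j, -, hj⟩ := (Nat.dvd_prime_pow (Fact.out : ℓ.Prime)).1 hdiv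
      rcases Nat.eq_zero_or_pos j with h0 | h0
      · exfalso
        rw [h0, pow_zero] at hj
        rw [hj, one_mul] at hc
        exact hlt.ne (Subgroup.eq_of_le_of_card_ge hlt.le hc.ge)
      · rw [hj]
        exact dvd_pow_self ℓ h0.ne'
    obtain ⟨d, hd⟩ := hdvd
    rw [hd, mul_smul, nsmul_eq_mul, CharP.cast_eq_zero, zero_mul]
  | zero => exact map_zero _
  | add a c _ _ ha hc => rw [map_add, ha, hc, add_zero]
  | smul r a _ ha => rw [map_smul, ha, smul_zero]

/-- an element of `ℓ`-power order of a field of characteristic `ℓ` is one -/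
theorem eq_one_of_pow {ℓ : ℕ} [Fact ℓ.Prime] {F : Type} [Field F] [CharP F ℓ] (k : ℕ) (a : F)
    (h : a ^ ℓ ^ k = 1) : a = 1 := by
  have : ExpChar F ℓ := ExpChar.prime (Fact.out : ℓ.Prime)
  have h1 : (a - 1) ^ ℓ ^ k = 0 := by
    rw [sub_pow_expChar_pow, h, one_pow, sub_self]
  exact sub_eq_zero.1 (pow_eq_zero_iff (pow_pos (Fact.out : ℓ.Prime).pos k).ne' |>.1 h1)

theorem cj_apply {F V A : Type} [Field F] [Group V] [Ring A] [Algebra F A] (α : V →* A) (u : V)
    (a : A) : cj F α u a = α u * a * α u⁻¹ := by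
  change α u * (a * α u⁻¹) = _
  rw [mul_assoc]

theorem fx_mul {F V A : Type} [Field F] [Group V] [Ring A] [Algebra F A] (α : V →* A)
    {x y : A} (hx : x ∈ Fx (cj F α) ⊤) (hy : y ∈ Fx (cj F α) ⊤) : x * y ∈ Fx (cj F α) ⊤ := by
  intro u hu
  have h1 := hx u hu
  have h2 := hy u hu
  rw [cj_apply] at h1 h2 ⊢
  have h3 : α u⁻¹ * α u = 1 := by rw [← map_mul, inv_mul_cancel, map_one]
  calc α u * (x * y) * α u⁻¹ = (α u * x * (α u⁻¹ * α u)) * y * α u⁻¹ := by
        rw [h3]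
        simp only [mul_assoc, mul_one]
    _ = (α u * x * α u⁻¹) * (α u * y * α u⁻¹) := by simp only [mul_assoc]
    _ = x * y := by rw [h1, h2]

theorem qcx (hQ : QkeStmt) : QcxStmt := by
  classical
  intro ℓ _ F V _ _ _ _ X hV hB
  obtain ⟨β, s, hβ⟩ := hB
  let aug : MonoidAlgebra F V →ₐ[F] F := MonoidAlgebra.lift F F V 1
  have haug : ∀ v : V, aug (MonoidAlgebra.of F V v) = 1 := by
    intro v
    change MonoidAlgebra.lift F F V 1 (MonoidAlgebra.of F V v) = 1
    rw [MonoidAlgebra.lift_of]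
    rfl
  let aug' : (IA.gr F V).A →ₗ[F] F := aug.toLinearMap
  have haug1 : aug' 1 = 1 := map_one aug
  have haugm : ∀ x y : (IA.gr F V).A, aug' (x * y) = aug' x * aug' y := fun x y => map_mul aug x y
  have haugι : ∀ v : V, aug' ((IA.gr F V).ι v) = 1 := haug
  have hβ1 : β 1 = 1 := by
    have h := hβ.cov 1
    rw [X.ι.map_one, (IA.gr F V).ι.map_one] at h
    exact h
  constructor
  · refine ⟨aug' ∘ₗ β, ?_, ?_, ?_⟩
    · rw [LinearMap.comp_apply, hβ1, haug1]
    · intro x hx y hy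
      rw [LinearMap.comp_apply, LinearMap.comp_apply, LinearMap.comp_apply, hβ.mul x hx y hy, haugm]
    · intro v a
      rw [LinearMap.comp_apply, LinearMap.comp_apply, hβ.eb, cj_apply, haugm, haugm, haugι, haugι,
        one_mul, mul_one]
  · -- uniqueness
    obtain ⟨hs1, hs2, hs3⟩ := hQ ℓ F V X.A (IA.gr F V).A (cj F X.ι) (cj F (IA.gr F V).ι) ⊤ β s hV
      hβ.toBrS
    have key : ∀ b : X.A →ₗ[F] F, Chr X b → ∀ x ∈ Fx (cj F X.ι) ⊤, b x = aug' (β x) := by
      intro b hb x hx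
      have hk : ∀ m ∈ BK (cj F X.ι) ⊤, b m = 0 := fun m hm =>
        kill_BK (cj F X.ι) hV ⊤ b (fun q _ m => hb.inv q m) hm
      have h1 : b x = b (s (β x)) := by
        have := hk _ (hs3 x hx)
        rw [map_sub] at this
        exact sub_eq_zero.1 this
      have hmul : ∀ y y' : (IA.gr F V).A, b (s (y * y')) = b (s y) * b (s y') := by
        intro y y'
        have h2 : s y * s y' - s (y * y') ∈ BK (cj F X.ι) ⊤ := by
          have h3 : s y * s y' - s (y * y') ∈ Fx (cj F X.ι) ⊤ :=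
            Submodule.sub_mem _ (fx_mul X.ι (hs1 y) (hs1 y')) (hs1 _)
          refine (hs2 _ h3).1 ?_
          rw [map_sub, hβ.mul _ (hs1 y) _ (hs1 y'), hβ.bs, hβ.bs, hβ.bs, sub_self]
        have h4 := hk _ h2
        rw [map_sub, hb.mul _ (hs1 y) _ (hs1 y')] at h4
        exact (sub_eq_zero.1 h4).symm
      have hone : b (s 1) = 1 := by
        have h1F : (1 : X.A) ∈ Fx (cj F X.ι) ⊤ := by
          intro u _
          rw [cj_apply, mul_one, ← map_mul, mul_inv_cancel, map_one]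
        have h2 : (1 : X.A) - s 1 ∈ BK (cj F X.ι) ⊤ := by
          refine (hs2 _ (Submodule.sub_mem _ h1F (hs1 1))).1 ?_
          rw [map_sub, hβ1, hβ.bs, sub_self]
        have h3 := hk _ h2
        rw [map_sub, hb.one] at h3
        exact (sub_eq_zero.1 h3).symm
      have hv : ∀ v : V, b (s ((IA.gr F V).ι v)) = 1 := by
        intro v
        have hpow : ∀ n : ℕ, b (s ((IA.gr F V).ι (v ^ n))) = b (s ((IA.gr F V).ι v)) ^ n := by
          intro n
          induction n with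
          | zero => rw [pow_zero, pow_zero, map_one, hone]
          | succ n ih => rw [pow_succ, map_mul, hmul, ih, pow_succ]
        obtain ⟨k, hk'⟩ := hV v
        refine eq_one_of_pow (ℓ := ℓ) k _ ?_
        rw [← hpow, hk', map_one, hone]
      have hall : ∀ y : MonoidAlgebra F V, b (s y) = aug y := by
        intro y
        refine MonoidAlgebra.induction_on (motive := fun y : MonoidAlgebra F V => b (s y) = aug y) y
          ?_ ?_ ?_
        · intro v
          rw [haug]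
          exact hv v
        · intro x y hx hy
          have h5 : b (s (x + y)) = b (s x) + b (s y) := by
            rw [← map_add b]
            exact congrArg b (map_add s x y)
          rw [h5, hx, hy, map_add]
        · intro r x hx
          have h5 : b (s (r • x)) = r * b (s x) := by
            rw [← smul_eq_mul, ← map_smul b]
            exact congrArg b (map_smul s r x)
          rw [h5, hx, map_smul, smul_eq_mul]
      rw [h1]
      exact hall (β x)
    intro b b' hb hb' x hx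
    rw [key b hb x hx, key b' hb' x hx]

end Pool.Agent.PFC.H10
end
end -- Pool.Agent.Helper10_PFC.QCX

section -- Pool.Agent.Helper10_PFE.PTT

/-!
# Squad PFE, row PTT: relative traces for a subgroup of prime order
-/

open scoped BigOperators

namespace Pool.Agent.PFE.H10

open Pool.Agent.PFC Pool.Agent.PFE Pool.Agent.PFE.S

section

variable {V V1 : Type} [CommGroup V] [Finite V] [CommGroup V1] [Fintype V1] (i : V1 →* V)

theorem card_rng (hi : Function.Injective i) : Nat.card i.range = Nat.card V1 :=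
  (Nat.card_congr (MonoidHom.ofInjective hi).toEquiv).symm

/-- proper subgroups of a group of prime order are trivial -/
theorem bot_of_lt {ℓ : ℕ} [Fact ℓ.Prime] (hc : Nat.card V1 = ℓ) (hi : Function.Injective i)
    {K : Subgroup V} (hK : K < i.range) : K = ⊥ := by
  have h1 : Nat.card i.range = ℓ := by rw [← hc, card_rng i hi]
  have h2 : Nat.card K ∣ Nat.card i.range := Subgroup.card_dvd_of_le hK.le
  rw [h1] at h2
  rcases (Nat.dvd_prime Fact.out).1 h2 with h3 | h3
  · exact Subgroup.card_eq_one.1 h3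
  · exact absurd (Subgroup.eq_of_le_of_card_ge hK.le (by rw [h1, h3])) hK.ne

theorem tv_eq [DecidableEq V] {S : Finset V} (hS : IsTv ⊥ i.range S) :
    S = Finset.univ.image i := by
  ext x
  rw [Finset.mem_image]
  constructor
  · intro hx
    obtain ⟨v, hv⟩ := hS.1 x hx
    exact ⟨v, Finset.mem_univ _, hv⟩
  · rintro ⟨v, -, rfl⟩
    obtain ⟨s, ⟨hs, hs'⟩, -⟩ := hS.2 (i v) ⟨v, rfl⟩
    rw [Subgroup.mem_bot, inv_mul_eq_one] at hs'
    rwa [← hs']

theorem tv_sum {M : Type} [AddCommMonoid M] (hi : Function.Injective i) {S : Finset V}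
    (hS : IsTv ⊥ i.range S) (g : V → M) : ∑ x ∈ S, g x = ∑ v : V1, g (i v) := by
  classical
  rw [tv_eq i hS, Finset.sum_image fun x _ y _ h => hi h]

end

theorem ptt : PttStmt := by
  intro ℓ _ F V V1 M _ _ _ _ _ _ _ ρ i hc hi
  classical
  refine ⟨?_, ?_, ?_⟩
  · intro x hx
    unfold BK at hx
    induction hx using Submodule.span_induction with
    | mem x hx =>
      obtain ⟨P', S, m, hP, hS, -, rfl⟩ := hx
      obtain rfl := bot_of_lt i hc hi hP
      exact ⟨m, tv_sum i hi hS fun x => ρ x m⟩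
    | zero => exact ⟨0, by simp⟩
    | add x y _ _ h1 h2 =>
      obtain ⟨a, rfl⟩ := h1
      obtain ⟨b, rfl⟩ := h2
      refine ⟨a + b, ?_⟩
      rw [← Finset.sum_add_distrib]
      exact Finset.sum_congr rfl fun v _ => (map_add _ _ _).symm
    | smul c x _ h1 =>
      obtain ⟨a, rfl⟩ := h1
      refine ⟨c • a, ?_⟩
      rw [Finset.smul_sum]
      exact Finset.sum_congr rfl fun v _ => (map_smul _ _ _).symm
  · intro T hT
    unfold PT at hT
    induction hT using Submodule.span_induction with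
    | mem T hT =>
      obtain ⟨K, S, h, hK, hS, -, hT⟩ := hT
      obtain rfl := bot_of_lt i hc hi hK
      refine ⟨h, fun m => ?_⟩
      rw [hT m]
      exact tv_sum i hi hS fun x => ρ x (h (ρ x⁻¹ m))
    | zero => exact ⟨0, fun m => by simp⟩
    | add x y _ _ h1 h2 =>
      obtain ⟨a, ha⟩ := h1
      obtain ⟨b, hb⟩ := h2
      refine ⟨a + b, fun m => ?_⟩
      rw [LinearMap.add_apply, ha, hb, ← Finset.sum_add_distrib]
      exact Finset.sum_congr rfl fun v _ => by rw [LinearMap.add_apply, map_add]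
    | smul c x _ h1 =>
      obtain ⟨a, ha⟩ := h1
      refine ⟨c • a, fun m => ?_⟩
      rw [LinearMap.smul_apply, ha, Finset.smul_sum]
      exact Finset.sum_congr rfl fun v _ => by rw [LinearMap.smul_apply, map_smul]
  · intro m
    unfold BK
    refine Submodule.subset_span ⟨⊥, Finset.univ.image i, m, ?_, ⟨?_, ?_⟩, ?_, ?_⟩
    · rw [bot_lt_iff_ne_bot]
      intro h
      have h1 := card_rng i hi
      rw [h, hc, Subgroup.card_bot] at h1
      exact (Fact.out : ℓ.Prime).one_lt.ne h1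
    · intro s hs
      obtain ⟨v, -, rfl⟩ := Finset.mem_image.1 hs
      exact ⟨v, rfl⟩
    · rintro p ⟨v, rfl⟩
      refine ⟨i v, ⟨Finset.mem_image_of_mem _ (Finset.mem_univ _), ?_⟩, ?_⟩
      · rw [inv_mul_cancel]
        exact Subgroup.one_mem _
      · rintro s ⟨-, hs⟩
        rw [Subgroup.mem_bot, inv_mul_eq_one] at hs
        exact hs
    · intro h hh
      rw [Subgroup.mem_bot] at hh
      rw [hh, map_one]
      rfl
    · rw [Finset.sum_image fun x _ y _ h => hi h]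

end Pool.Agent.PFE.H10
end -- Pool.Agent.Helper10_PFE.PTT

section -- Pool.Agent.Helper15_PFC.KWAa

/-!
Squad PFC, block B5a, row KWA (helper15): the bimodule lift.
-/

set_option autoImplicit false

noncomputable section

namespace Pool.Agent.PFC.B5a.H15

open scoped BigOperators

section

variable {F V : Type} [Field F] [CommGroup V] {n : ℕ}

/-- the matrix `M ⊗ v` -/
private def tn (M : Matrix (Fin n) (Fin n) F) (v : V) :
    Matrix (Fin n) (Fin n) (MonoidAlgebra F V) :=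
  Matrix.of fun i j => MonoidAlgebra.single v (M i j)

private theorem tn_apply (M : Matrix (Fin n) (Fin n) F) (v : V) (i j : Fin n) :
    tn M v i j = MonoidAlgebra.single v (M i j) := rfl

private theorem tn_mul (M M' : Matrix (Fin n) (Fin n) F) (v v' : V) :
    tn M v * tn M' v' = tn (M * M') (v * v') := by
  ext1 i j
  rw [Matrix.mul_apply, tn_apply, Matrix.mul_apply]
  simp only [tn_apply, MonoidAlgebra.single_mul_single]
  exact (map_sum (MonoidAlgebra.singleAddHom (v * v')) (fun k => M i k * M' k j)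
    Finset.univ).symm

private theorem tn_add (M M' : Matrix (Fin n) (Fin n) F) (v : V) :
    tn (M + M') v = tn M v + tn M' v := by
  ext1 i j
  rw [Matrix.add_apply, tn_apply, tn_apply, tn_apply, Matrix.add_apply]
  exact MonoidAlgebra.single_add _ _ _

private theorem tn_smul (r : F) (M : Matrix (Fin n) (Fin n) F) (v : V) :
    tn (r • M) v = r • tn M v := by
  ext1 i j
  rw [Matrix.smul_apply, tn_apply, tn_apply, Matrix.smul_apply, MonoidAlgebra.smul_single]

private theorem au_single (v : V) (c : F) : au F V (MonoidAlgebra.single v c) = c := by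
  rw [au, MonoidAlgebra.lift_single]
  simp

private theorem au_tn (M : Matrix (Fin n) (Fin n) F) (v : V) :
    (au F V).mapMatrix (tn M v) = M := by
  ext1 i j
  rw [AlgHom.mapMatrix_apply, Matrix.map_apply, tn_apply, au_single]

end

/-- KWA. -/
theorem kwaa : KwaStmt := by
  intro nil ℓ _ F V B _ _ _ _ _ _ β n π μ hV hμ1 hμ2
  obtain ⟨N, hN⟩ := nil ℓ F V hV
  -- the map `f₀`
  let f0 : B →ₗ[F] Matrix (Fin n) (Fin n) (MonoidAlgebra F V) :=
    { toFun := fun b => ∑ v : V, tn (π (μ (b * β v⁻¹)) * π (β v)) v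
      map_add' := fun x y => by
        simp only [add_mul, map_add, tn_add, Finset.sum_add_distrib]
      map_smul' := fun r x => by
        simp only [smul_mul_assoc, map_smul, tn_smul, Finset.smul_sum, RingHom.id_apply] }
  have hf0 : ∀ b, f0 b = ∑ v : V, tn (π (μ (b * β v⁻¹)) * π (β v)) v := fun b => rfl
  -- augmentation
  have haug : ∀ b, (au F V).mapMatrix (f0 b) = π b := by
    intro b
    rw [hf0, map_sum]
    simp only [au_tn]
    have h1 := congrArg π (hμ2 b)
    rw [map_sum] at h1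
    rw [← h1]
    exact Finset.sum_congr rfl fun v _ => (map_mul π _ _).symm
  -- right
  have hr : ∀ b w, f0 (b * β w) = f0 b * tn (π (β w)) w := by
    intro b w
    rw [hf0, hf0, Finset.sum_mul, ← Equiv.sum_comp (Equiv.mulRight w)]
    refine Finset.sum_congr rfl fun v _ => ?_
    rw [Equiv.coe_mulRight, tn_mul, mul_inv_rev, mul_assoc, ← map_mul β, ← mul_assoc w,
      mul_inv_cancel, one_mul, map_mul β v w, map_mul π, mul_assoc]
  -- left
  have hl : ∀ b w, f0 (β w * b) = tn (π (β w)) w * f0 b := by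
    intro b w
    rw [hf0, hf0, Finset.mul_sum, ← Equiv.sum_comp (Equiv.mulLeft w)]
    refine Finset.sum_congr rfl fun v _ => ?_
    rw [Equiv.coe_mulLeft, tn_mul]
    have e1 : β w * b * β (w * v)⁻¹ = β w * (b * β v⁻¹) * β w⁻¹ := by
      rw [mul_inv_rev, map_mul β v⁻¹ w⁻¹, mul_assoc, mul_assoc, mul_assoc]
    have e2 : β w⁻¹ * β (w * v) = β v := by
      rw [← map_mul, inv_mul_cancel_left]
    rw [e1, hμ1, ← map_mul π, mul_assoc (β w * μ (b * β v⁻¹)), e2, mul_assoc, map_mul, map_mul]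
  -- the unit
  set e := f0 1 with he
  have hge : ∀ w, e * tn (π (β w)) w = tn (π (β w)) w * e := by
    intro w
    rw [he, ← hr, ← hl, one_mul, mul_one]
  have hdet : IsUnit e.det := by
    have h1 : au F V e.det = 1 := by
      have h2 := (au F V).map_det e
      rw [h2, haug, map_one, Matrix.det_one]
    have h3 : e.det - 1 ∈ RingHom.ker (au F V) := by
      rw [RingHom.mem_ker, map_sub, h1, map_one, sub_self]
    have h4 : IsNilpotent (e.det - 1) := by
      refine ⟨N, ?_⟩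
      have h5 := Ideal.pow_mem_pow h3 N
      rw [hN] at h5
      exact h5
    have h6 := h4.isUnit_one_add
    rwa [add_sub_cancel] at h6
  have hu : IsUnit e := (Matrix.isUnit_iff_isUnit_det e).2 hdet
  obtain ⟨U, hU⟩ := hu
  obtain ⟨d, hd⟩ : ∃ d : Matrix (Fin n) (Fin n) (MonoidAlgebra F V), d = ↑U⁻¹ := ⟨_, rfl⟩
  have hgU : ∀ w, d * tn (π (β w)) w = tn (π (β w)) w * d := by
    intro w
    rw [hd]
    have h1 : Commute (↑U : Matrix (Fin n) (Fin n) (MonoidAlgebra F V)) (tn (π (β w)) w) := by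
      rw [hU]; exact hge w
    exact h1.units_inv_left
  have hUe : e * d = 1 := by rw [← hU, hd]; exact U.mul_inv
  have hauU : (au F V).mapMatrix d = 1 := by
    have h1 := congrArg (au F V).mapMatrix hUe
    rw [map_mul, haug, map_one, map_one, one_mul] at h1
    exact h1
  let f : B →ₗ[F] Matrix (Fin n) (Fin n) (MonoidAlgebra F V) :=
    { toFun := fun b => f0 b * d
      map_add' := fun x y => by rw [map_add, add_mul]
      map_smul' := fun r x => by rw [map_smul, smul_mul_assoc, RingHom.id_apply] }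
  have hf : ∀ b, f b = f0 b * d := fun b => rfl
  have hf1 : f 1 = 1 := by rw [hf]; exact hUe
  have hfβ : ∀ u, f (β u) = tn (π (β u)) u := by
    intro u
    have h1 := hl 1 u
    rw [mul_one] at h1
    rw [hf, h1, mul_assoc, hUe, mul_one]
  refine ⟨f, ⟨?_, ?_⟩, hf1, ?_, ?_⟩
  · intro x i j
    have h1 : (au F V).mapMatrix (f x) = π x := by
      rw [hf, map_mul, haug, hauU, mul_one]
    have h2 := congrFun (congrFun h1 i) j
    exact h2
  · intro u i j
    rw [hfβ]
    rfl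
  · intro u x
    rw [hfβ, hf, hf, hl, mul_assoc]
  · intro u x
    rw [hfβ, hf, hf, hr, mul_assoc, mul_assoc, hgU]

end Pool.Agent.PFC.B5a.H15
end
end -- Pool.Agent.Helper15_PFC.KWAa

section -- Pool.Agent.Helper17_PFC.LOC

/-!
Squad PFC, block B5a, row LOC: the local structure (assembly of SPV, LFT, SUV, INJ).
-/

namespace Pool.Agent.PFC.B5a.H17

theorem loc : LocStmt := by
  intro fvt omz trs bki fdb cug cas uns qfr alv muv nil kwa kwb spv lft suv inj
  intro ℓ _ F V B _ _ _ _ _ _ _ β n π hV hB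
  have hsep : Sep F β := spv fvt omz trs bki fdb cug cas uns qfr alv ℓ F V B β n π hV hB
  obtain ⟨f, hf⟩ := lft omz muv nil kwa kwb ℓ F V B β n π hV hsep hB.ps
  exact ⟨f, hf, inj F V B β n π f hB.pos hsep hB.sur hB.nil hf,
    suv nil ℓ F V B β n π f hV hB.sur hB.cop hf⟩

end Pool.Agent.PFC.B5a.H17
end -- Pool.Agent.Helper17_PFC.LOC

section -- Pool.Agent.Helper17_PFE.TBN

open scoped BigOperators TensorProduct

noncomputable section

namespace Pool.Agent.PFE.H17

open Pool.Agent.PFC Pool.Agent.PFE Pool.Agent.PFE.S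

section loc

variable {F V V1 : Type} [Field F] [CommGroup V] [CommGroup V1] [Fintype V1]

lemma tj_ap {A : Type} [Ring A] [Algebra F A] (α : V →* A) (i : V1 →* V) (σ : MulAut V1)
    (v : V1) (a : A) : tj F α i σ v a = α (i v) * (a * α (i (σ v))⁻¹) := rfl

lemma cj_ap {A : Type} [Ring A] [Algebra F A] (α : V →* A) (v : V) (a : A) :
    cj F α v a = α v * (a * α v⁻¹) := rfl

lemma al_inv {A : Type} [Ring A] (α : V →* A) (v : V) : α v * α v⁻¹ = 1 := by
  rw [← map_mul, mul_inv_cancel, map_one]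

lemma al_inv' {A : Type} [Ring A] (α : V →* A) (v : V) : α v⁻¹ * α v = 1 := by
  rw [← map_mul, inv_mul_cancel, map_one]

lemma uv {A : Type} [Ring A] (α : V →* A) (i : V1 →* V) (σ : MulAut V1) (u : Aˣ)
    (hu : ∀ v : V1, α (i v) * u = u * α (i (σ v))) (v : V1) :
    α (i (σ v))⁻¹ * (u⁻¹ : Aˣ) = (u⁻¹ : Aˣ) * α (i v)⁻¹ := by
  have h1 : α (i (σ v)) * ((u⁻¹ : Aˣ) : A) = 0 + α (i (σ v)) * ((u⁻¹ : Aˣ) : A) := by simp
  have h2 : ((u⁻¹ : Aˣ) : A) * α (i v) = α (i (σ v)) * ((u⁻¹ : Aˣ) : A) := by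
    calc ((u⁻¹ : Aˣ) : A) * α (i v)
        = ((u⁻¹ : Aˣ) : A) * (α (i v) * u) * ((u⁻¹ : Aˣ) : A) := by
          rw [mul_assoc, mul_assoc, Units.mul_inv, mul_one]
      _ = ((u⁻¹ : Aˣ) : A) * (u * α (i (σ v))) * ((u⁻¹ : Aˣ) : A) := by rw [hu]
      _ = α (i (σ v)) * ((u⁻¹ : Aˣ) : A) := by
          rw [← mul_assoc ((u⁻¹ : Aˣ) : A), Units.inv_mul, one_mul]
  calc α (i (σ v))⁻¹ * ((u⁻¹ : Aˣ) : A)
      = α (i (σ v))⁻¹ * (((u⁻¹ : Aˣ) : A) * α (i v)) * α (i v)⁻¹ := by
        rw [mul_assoc, mul_assoc, al_inv, mul_one]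
    _ = α (i (σ v))⁻¹ * (α (i (σ v)) * ((u⁻¹ : Aˣ) : A)) * α (i v)⁻¹ := by rw [h2]
    _ = ((u⁻¹ : Aˣ) : A) * α (i v)⁻¹ := by
        rw [← mul_assoc (α (i (σ v))⁻¹), al_inv', one_mul]

lemma tr1 {A : Type} [Ring A] [Algebra F A] (α : V →* A) (i : V1 →* V) (σ : MulAut V1) (u : Aˣ)
    (hu : ∀ v : V1, α (i v) * u = u * α (i (σ v))) (v : V1) (a : A) :
    tj F α i σ v a * (u⁻¹ : Aˣ) = cj F α (i v) (a * (u⁻¹ : Aˣ)) := by
  rw [tj_ap, cj_ap, mul_assoc, mul_assoc, uv α i σ u hu, ← mul_assoc a]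

lemma tr2 {A : Type} [Ring A] [Algebra F A] (α : V →* A) (i : V1 →* V) (σ : MulAut V1) (u : Aˣ)
    (hu : ∀ v : V1, α (i v) * u = u * α (i (σ v))) (v : V1) (a : A) :
    tj F α i σ v a = cj F α (i v) (a * (u⁻¹ : Aˣ)) * u := by
  rw [← tr1 α i σ u hu, mul_assoc, Units.inv_mul, mul_one]

end loc

section mn

variable {F V V1 : Type} [Field F] [CommGroup V] [CommGroup V1] [Fintype V1] {N B : IA F V}
  {β : N.A →ₗ[F] B.A} {s : B.A →ₗ[F] N.A} {i : V1 →* V}

/-- `β (a u⁻¹) w'` -/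
def be (β : N.A →ₗ[F] B.A) (u : N.Aˣ) (w' : B.A) : N.A →ₗ[F] B.A :=
  (LinearMap.mulRight F w').comp (β.comp (LinearMap.mulRight F ((u⁻¹ : N.Aˣ) : N.A)))

/-- `s (b w) u` -/
def se (s : B.A →ₗ[F] N.A) (u : N.Aˣ) (w : B.A) : B.A →ₗ[F] N.A :=
  (LinearMap.mulRight F (u : N.A)).comp (s.comp (LinearMap.mulRight F w))

/-- `h (a u⁻¹) u` -/
def he (h : N.A →ₗ[F] N.A) (u : N.Aˣ) : N.A →ₗ[F] N.A :=
  (LinearMap.mulRight F (u : N.A)).comp (h.comp (LinearMap.mulRight F ((u⁻¹ : N.Aˣ) : N.A)))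

lemma be_ap (β : N.A →ₗ[F] B.A) (u : N.Aˣ) (w' : B.A) (a : N.A) :
    be β u w' a = β (a * (u⁻¹ : N.Aˣ)) * w' := rfl
lemma se_ap (s : B.A →ₗ[F] N.A) (u : N.Aˣ) (w : B.A) (b : B.A) :
    se s u w b = s (b * w) * u := rfl
lemma he_ap (h : N.A →ₗ[F] N.A) (u : N.Aˣ) (a : N.A) :
    he h u a = h (a * (u⁻¹ : N.Aˣ)) * u := rfl

lemma be_cj (hA : ABr N B i.range β s) (v : V1) (x : N.A) : β (cj F N.ι (i v) x) = β x := by
  rw [hA.eb, hA.tr (i v) ⟨v, rfl⟩]

lemma s_cj (hA : ABr N B i.range β s) (v : V1) (b : B.A) : cj F N.ι (i v) (s b) = s b := by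
  rw [← hA.es, hA.tr (i v) ⟨v, rfl⟩]

lemma bs' (hA : ABr N B i.range β s) (u : N.Aˣ) (w w' : B.A) (hw : w * w' = 1) (b : B.A) :
    be β u w' (se s u w b) = b := by
  rw [be_ap, se_ap, mul_assoc, Units.mul_inv, mul_one, hA.bs, mul_assoc, hw, mul_one]

lemma eb' (hA : ABr N B i.range β s) (u : N.Aˣ) (σ : MulAut V1)
    (hu : ∀ v : V1, N.ι (i v) * u = u * N.ι (i (σ v))) (w' : B.A) (v : V1) (a : N.A) :
    be β u w' (tj F N.ι i σ v a) = be β u w' a := by
  rw [be_ap, be_ap, tr1 N.ι i σ u hu, be_cj hA]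

lemma fs' (hA : ABr N B i.range β s) (u : N.Aˣ) (σ : MulAut V1)
    (hu : ∀ v : V1, N.ι (i v) * u = u * N.ι (i (σ v))) (w : B.A) (b : B.A) :
    se s u w b ∈ Nt F N.ι i σ := by
  intro v _
  rw [tr2 N.ι i σ u hu, se_ap, mul_assoc, Units.mul_inv, mul_one, s_cj hA]

lemma hg' (u : N.Aˣ) (σ : MulAut V1)
    (hu : ∀ v : V1, N.ι (i v) * u = u * N.ι (i (σ v))) (w w' : B.A) (hw : w' * w = 1)
    (h : N.A →ₗ[F] N.A)
    (hh : ∀ m, m - s (β m) = ∑ v : V1, cj F N.ι (i v) (h (cj F N.ι (i v)⁻¹ m))) (a : N.A) :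
    a - se s u w (be β u w' a) =
      ∑ v, tj F N.ι i σ v (he h u (tj F N.ι i σ v⁻¹ a)) := by
  have h1 : a - se s u w (be β u w' a) =
      (a * ((u⁻¹ : N.Aˣ) : N.A) - s (β (a * ((u⁻¹ : N.Aˣ) : N.A)))) * u := by
    rw [se_ap, be_ap, mul_assoc, hw, mul_one, sub_mul, mul_assoc, Units.inv_mul, mul_one]
  rw [h1, hh, Finset.sum_mul]
  refine Finset.sum_congr rfl fun v _ => ?_
  rw [tr2 N.ι i σ u hu, he_ap, tr1 N.ι i σ u hu, mul_assoc (h _), Units.mul_inv, mul_one,
    i.map_inv v]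

end mn

/-- central elements of a matrix algebra -/
lemma cen {F V : Type} [Field F] [CommGroup V] {B : IA F V} (hB : Mx B) (z : B.A)
    (hz : ∀ b, z * b = b * z) : ∃ r : F, z = algebraMap F B.A r := by
  obtain ⟨n, hn, ⟨e⟩⟩ := hB
  haveI : Nonempty (Fin n) := ⟨⟨0, hn⟩⟩
  have h1 : e z ∈ Subalgebra.center F (Matrix (Fin n) (Fin n) F) := by
    rw [Subalgebra.mem_center_iff]
    intro b
    have := congrArg e (hz (e.symm b))
    rw [map_mul, map_mul, AlgEquiv.apply_symm_apply] at this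
    exact this.symm
  rw [Algebra.IsCentral.center_eq_bot, Algebra.mem_bot] at h1
  obtain ⟨r, hr⟩ := h1
  refine ⟨r, ?_⟩
  apply e.injective
  rw [← hr, AlgEquiv.commutes]

theorem tbn : TbnStmt := by
  intro hT hP hQ hU ℓ _ F V V1 C _ _ _ _ _ _ _ _ _ _ N B i θ hV hc hi hB hBQ hσ
  obtain ⟨β, s, hA⟩ := hBQ
  obtain ⟨t1, t2, t3, t4, t5, t6, t7⟩ := hT.1 F V V1 N.A N.ι i
  -- the generator
  obtain ⟨c0, hc0⟩ := IsCyclic.exists_generator (α := C)
  have hm : 0 < Nat.card C := Nat.card_pos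
  have hcm : c0 ^ Nat.card C = 1 := pow_card_eq_one'
  obtain ⟨σ, hRz, hσi⟩ := hσ c0
  have hτm : (θ c0) ^ Nat.card C = 1 := by rw [← map_pow, hcm, map_one]
  obtain ⟨g, t, hg, ht, hcomm, htm, hunit⟩ :=
    hU hT hP hQ ℓ F V V1 N B i β s (θ c0) (Nat.card C) σ hV hc hi hB hA hm hτm hRz hσi
  obtain ⟨h, hh0⟩ := (hP ℓ F V V1 N.A (cj F N.ι) i hc hi).2.1 _ hA.hg
  have hh : ∀ m, m - s (β m) = ∑ v : V1, cj F N.ι (i v) (h (cj F N.ι (i v)⁻¹ m)) := by
    intro m
    rw [← hh0 m]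
    rfl
  -- powers of g
  have hgk : ∀ (k : ℕ) (v : V1), N.ι (i v) * ((g ^ k : N.Aˣ) : N.A) =
      ((g ^ k : N.Aˣ) : N.A) * N.ι (i (((θ c0) ^ k) v)) := by
    intro k
    induction k with
    | zero => intro v; simp
    | succ k ih =>
      intro v
      rw [pow_succ, Units.val_mul, ← mul_assoc, ih, mul_assoc, hg, hσi, ← mul_assoc, pow_succ']
      rfl
  -- powers of t
  have htk : ∀ k : ℕ, t ^ k ∈ Nt F N.ι i ((θ c0) ^ k) := by
    intro k
    induction k with
    | zero => rw [pow_zero, pow_zero]; exact t3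
    | succ k ih =>
      rw [pow_succ, pow_succ']
      exact t2 _ _ _ _ ht ih
  have hex : ∀ c : C, ∃ k : ℕ, c0 ^ k = c ∧ (c = 1 → k = 0) := by
    intro c
    by_cases hc1 : c = 1
    · exact ⟨0, by rw [pow_zero, hc1], fun _ => rfl⟩
    · obtain ⟨k, hk⟩ := (mem_powers_iff_mem_zpowers (x := c0) (y := c)).2 (hc0 c)
      exact ⟨k, hk, fun h => absurd h hc1⟩
  choose k hk hk1 using hex
  have hθk : ∀ c, (θ c0) ^ (k c) = θ c := by
    intro c
    rw [← map_pow, hk]
  -- the units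
  have hW : ∀ c : C, ∃ w' : B.A, β (t ^ (k c) * ((g⁻¹ : N.Aˣ) : N.A) ^ (k c)) * w' = 1 ∧
      w' * β (t ^ (k c) * ((g⁻¹ : N.Aˣ) : N.A) ^ (k c)) = 1 := by
    intro c
    obtain ⟨w, hw⟩ := hunit (k c)
    exact ⟨((w⁻¹ : B.Aˣ) : B.A), by rw [← hw, Units.mul_inv], by rw [← hw, Units.inv_mul]⟩
  choose w' hw1 hw2 using hW
  have hgi : ∀ n : ℕ, (((g ^ n)⁻¹ : N.Aˣ) : N.A) = ((g⁻¹ : N.Aˣ) : N.A) ^ n := by
    intro n
    rw [← inv_pow, Units.val_pow_eq_pow_val]
  set W : C → B.A := fun c => β (t ^ (k c) * ((g⁻¹ : N.Aˣ) : N.A) ^ (k c)) with hWdef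
  have hu : ∀ (c : C) (v : V1), N.ι (i v) * ((g ^ (k c) : N.Aˣ) : N.A) =
      ((g ^ (k c) : N.Aˣ) : N.A) * N.ι (i (θ c v)) := by
    intro c v
    rw [hgk, hθk]
  -- fixed points
  have hfix : ∀ x : N.A, x ∈ Nt F N.ι i 1 ↔ x ∈ Fx (cj F N.ι) i.range := by
    intro x
    constructor
    · rintro hx q ⟨v, rfl⟩
      exact hx v trivial
    · intro hx v _
      exact hx (i v) ⟨v, rfl⟩
  have hβ1 : β 1 = 1 := by
    have := hA.cov 1
    rwa [N.ι.map_one, B.ι.map_one] at this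
  -- traces are killed
  have hkill : ∀ (c : C) (m : N.A), be β (g ^ (k c)) (w' c) (Tr F N.ι i (θ c) m) = 0 := by
    intro c m
    have h1 : Tr F N.ι i (θ c) m = ∑ v : V1, tj F N.ι i (θ c) v m := by
      simp [Tr]
    rw [h1, map_sum, Finset.sum_congr rfl fun v _ => eb' hA (g ^ (k c)) (θ c) (hu c) (w' c) v m,
      Finset.sum_const, Finset.card_univ, ← Nat.card_eq_fintype_card, hc]
    have h2 : (ℓ : F) = 0 := CharP.cast_eq_zero F ℓ
    rw [← Nat.cast_smul_eq_nsmul F, h2, zero_smul]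
  -- kernel elements are traces, general twist
  have hker : ∀ (n : ℕ) (a : N.A), a ∈ Nt F N.ι i ((θ c0) ^ n) →
      β (a * ((g⁻¹ : N.Aˣ) : N.A) ^ n) = 0 → ∃ y, a = Tr F N.ι i ((θ c0) ^ n) y := by
    intro n a ha h0
    have h1 := hg' (s := s) (β := β) (g ^ n) ((θ c0) ^ n) (hgk n) 1 1 (one_mul 1) h hh a
    rw [be_ap, hgi, h0, zero_mul, map_zero, sub_zero] at h1
    refine ⟨he h (g ^ n) a, ?_⟩
    rw [h1]
    have h2 : Tr F N.ι i ((θ c0) ^ n) (he h (g ^ n) a) =
        ∑ v : V1, tj F N.ι i ((θ c0) ^ n) v (he h (g ^ n) a) := by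
      simp [Tr]
    conv_rhs => rw [← h1]
    rw [h2]
    refine Finset.sum_congr rfl fun v _ => ?_
    rw [ha v⁻¹ trivial]
  have hTr0 : ∀ σ : MulAut V1, Tr F N.ι i σ 0 = 0 := fun σ => map_zero _
  -- commutators
  have hcom : ∀ (n : ℕ) (x : N.A), x ∈ Nt F N.ι i 1 →
      ∃ y, t ^ n * x - x * t ^ n = Tr F N.ι i ((θ c0) ^ n) y := by
    intro n x hx
    induction n with
    | zero => exact ⟨0, by rw [hTr0]; simp⟩
    | succ n ih =>
      obtain ⟨y, hy⟩ := ih
      obtain ⟨y1, hy1⟩ : ∃ y1, t * x - x * t = Tr F N.ι i (θ c0) y1 := by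
        have := hker 1 (t * x - x * t) (by
          rw [pow_one]
          refine Submodule.sub_mem _ ?_ ?_
          · have := t2 _ _ _ _ ht hx
            rwa [one_mul] at this
          · have := t2 _ _ _ _ hx ht
            rwa [mul_one] at this) (by rw [pow_one]; exact hcomm x hx)
        rwa [pow_one] at this
      refine ⟨t * y + y1 * t ^ n, ?_⟩
      have e1 : t ^ (n + 1) * x - x * t ^ (n + 1) =
          t * (t ^ n * x - x * t ^ n) + (t * x - x * t) * t ^ n := by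
        rw [pow_succ']
        noncomm_ring
      rw [e1, hy, hy1, t6 _ _ _ _ ht, t7 _ _ _ _ (htk n), map_add, pow_succ]
  -- powers of t modulo the order
  have hper : ∀ (n j : ℕ), ∃ y, t ^ (n + Nat.card C * j) - t ^ n =
      Tr F N.ι i ((θ c0) ^ n) y := by
    intro n j
    have hb : β (t ^ Nat.card C - 1) = 0 := by rw [map_sub, htm, hβ1, sub_self]
    have hin : t ^ Nat.card C - 1 ∈ Nt F N.ι i ((θ c0) ^ 0) := by
      rw [pow_zero]
      refine Submodule.sub_mem _ ?_ t3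
      have := htk (Nat.card C)
      rwa [hτm] at this
    obtain ⟨z, hz⟩ := hker 0 _ hin (by rw [pow_zero, mul_one]; exact hb)
    rw [pow_zero] at hz
    induction j with
    | zero => exact ⟨0, by rw [hTr0]; simp⟩
    | succ j ih =>
      obtain ⟨y, hy⟩ := ih
      refine ⟨t ^ (n + Nat.card C * j) * z + y, ?_⟩
      have e1 : t ^ (n + Nat.card C * (j + 1)) - t ^ n =
          t ^ (n + Nat.card C * j) * (t ^ Nat.card C - 1) +
            (t ^ (n + Nat.card C * j) - t ^ n) := by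
        have : n + Nat.card C * (j + 1) = (n + Nat.card C * j) + Nat.card C := by ring
        rw [this, pow_add t (n + Nat.card C * j)]
        noncomm_ring
      have e2 : (θ c0) ^ (n + Nat.card C * j) = (θ c0) ^ n := by
        rw [pow_add, pow_mul, hτm, one_pow, mul_one]
      have e3 := htk (n + Nat.card C * j)
      rw [e2] at e3
      rw [e1, hy, hz, t6 _ _ _ _ e3, one_mul, map_add]
  have hmod : ∀ (a : ℕ), ∃ y, t ^ a - t ^ (a % Nat.card C) =
      Tr F N.ι i ((θ c0) ^ (a % Nat.card C)) y := by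
    intro a
    have := hper (a % Nat.card C) (a / Nat.card C)
    rwa [Nat.mod_add_div] at this
  have hord : orderOf c0 = Nat.card C := orderOf_eq_card_of_forall_mem_zpowers hc0
  have hmod2 : ∀ (a : ℕ) (c : C), c0 ^ a = c → ∃ y, t ^ a - t ^ (k c) =
      Tr F N.ι i (θ c) y := by
    intro a c hac
    have h1 : a % Nat.card C = k c % Nat.card C := by
      rw [← hord]
      exact pow_eq_pow_iff_modEq.1 (hac.trans (hk c).symm)
    have h2 : (θ c0) ^ (a % Nat.card C) = θ c := by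
      rw [← map_pow, ← hord, pow_mod_orderOf, hac]
    obtain ⟨y, hy⟩ := hmod a
    obtain ⟨z, hz⟩ := hmod (k c)
    rw [← h1] at hz
    rw [h2] at hy hz
    refine ⟨y - z, ?_⟩
    rw [map_sub, ← hy, ← hz]
    abel
  -- the value on `x t_c`
  have hval : ∀ (c : C) (x : N.A), x ∈ Nt F N.ι i 1 →
      be β (g ^ (k c)) (w' c) (x * t ^ (k c)) = β x := by
    intro c x hx
    have h1 : t ^ (k c) * ((g⁻¹ : N.Aˣ) : N.A) ^ (k c) ∈ Fx (cj F N.ι) i.range := by
      rintro q ⟨v, rfl⟩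
      have e1 := tr1 (F := F) N.ι i (θ c) (g ^ (k c)) (hu c) v (t ^ (k c))
      have e2 := htk (k c)
      rw [hθk] at e2
      rw [e2 v trivial, hgi] at e1
      exact e1.symm
    rw [be_ap, hgi, mul_assoc, hA.mul x ((hfix x).1 hx) _ h1, mul_assoc, hw1, mul_one]
  have hsf : ∀ b, s b ∈ Nt F N.ι i 1 := by
    intro b
    rw [hfix]
    rintro q ⟨v, rfl⟩
    exact s_cj hA v b
  -- decomposition
  have hdec : ∀ (c : C) (a : N.A), a ∈ Nt F N.ι i (θ c) →
      ∃ y, a = s (be β (g ^ (k c)) (w' c) a) * t ^ (k c) + Tr F N.ι i (θ c) y := by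
    intro c a ha
    have htc : t ^ (k c) ∈ Nt F N.ι i (θ c) := by
      have := htk (k c)
      rwa [hθk] at this
    have h1 : s (be β (g ^ (k c)) (w' c) a) * t ^ (k c) ∈ Nt F N.ι i (θ c) := by
      have := t2 _ _ _ _ (hsf (be β (g ^ (k c)) (w' c) a)) htc
      rwa [mul_one] at this
    have h2 : be β (g ^ (k c)) (w' c) (a - s (be β (g ^ (k c)) (w' c) a) * t ^ (k c)) = 0 := by
      rw [map_sub, hval c _ (hsf _), hA.bs, sub_self]
    have h3 : β ((a - s (be β (g ^ (k c)) (w' c) a) * t ^ (k c)) *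
        ((g⁻¹ : N.Aˣ) : N.A) ^ (k c)) = 0 := by
      rw [be_ap, hgi] at h2
      have := congrArg (fun z => z * W c) h2
      simp only [zero_mul] at this
      rw [mul_assoc, hw2, mul_one] at this
      exact this
    obtain ⟨y, hy⟩ := hker (k c) _ (by rw [hθk]; exact Submodule.sub_mem _ ha h1) h3
    rw [hθk] at hy
    exact ⟨y, by rw [← hy]; abel⟩
  refine ⟨fun c => be β (g ^ (k c)) (w' c), fun c => se s (g ^ (k c)) (W c),
    fun c => he h (g ^ (k c)), ?_, ?_, ?_, ?_, ?_, ?_, ?_⟩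
  · intro c b
    exact bs' hA _ _ _ (hw1 c) b
  · intro c v a
    exact eb' hA _ _ (hu c) _ v a
  · intro c b
    exact fs' hA _ _ (hu c) _ b
  · intro c a
    exact hg' _ _ (hu c) _ _ (hw2 c) h hh a
  · intro c d a ha b hb
    have htc : ∀ c : C, t ^ (k c) ∈ Nt F N.ι i (θ c) := by
      intro c
      have := htk (k c)
      rwa [hθk] at this
    obtain ⟨y, hy⟩ := hdec c a ha
    obtain ⟨z, hz⟩ := hdec d b hb
    set x := s (be β (g ^ (k c)) (w' c) a) with hx
    set x' := s (be β (g ^ (k d)) (w' d) b) with hx'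
    have hxf : x ∈ Nt F N.ι i 1 := hsf _
    have hxf' : x' ∈ Nt F N.ι i 1 := hsf _
    have hθ : θ d * θ c = θ (c * d) := by rw [← map_mul, mul_comm]
    obtain ⟨p, hp⟩ := hcom (k c) x' hxf'
    rw [hθk] at hp
    obtain ⟨q, hq⟩ := hmod2 (k c + k d) (c * d) (by rw [pow_add, hk, hk])
    have hxx : x * x' ∈ Nt F N.ι i 1 := by
      have := t2 _ _ _ _ hxf hxf'
      rwa [mul_one] at this
    have hxt : x * t ^ (k c) ∈ Nt F N.ι i (θ c) := by
      have := t2 _ _ _ _ hxf (htc c)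
      rwa [mul_one] at this
    -- the four pieces
    have e0 : a * b = x * x' * t ^ (k (c * d)) + (x * x') * (t ^ (k c + k d) - t ^ (k (c * d))) +
        x * (t ^ (k c) * x' - x' * t ^ (k c)) * t ^ (k d) +
        (x * t ^ (k c)) * Tr F N.ι i (θ d) z + Tr F N.ι i (θ c) y * b := by
      conv_lhs => rw [hy, add_mul, hz]
      rw [hz, pow_add]
      noncomm_ring
    have e1 : (x * x') * (t ^ (k c + k d) - t ^ (k (c * d))) =
        Tr F N.ι i (θ (c * d)) (x * x' * q) := by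
      rw [hq, t6 _ _ _ _ hxx, mul_one]
    have e2 : x * (t ^ (k c) * x' - x' * t ^ (k c)) * t ^ (k d) =
        Tr F N.ι i (θ (c * d)) (x * p * t ^ (k d)) := by
      rw [hp, t6 _ _ _ _ hxf, mul_one, t7 _ _ _ _ (htc d), hθ]
    have e3 : (x * t ^ (k c)) * Tr F N.ι i (θ d) z =
        Tr F N.ι i (θ (c * d)) (x * t ^ (k c) * z) := by
      rw [t6 _ _ _ _ hxt, hθ]
    have e4 : Tr F N.ι i (θ c) y * b = Tr F N.ι i (θ (c * d)) (y * b) := by
      rw [t7 _ _ _ _ hb, hθ]
    show be β (g ^ (k (c * d))) (w' (c * d)) (a * b) = _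
    rw [e0, e1, e2, e3, e4, map_add, map_add, map_add, map_add, hkill, hkill, hkill, hkill,
      hval _ _ hxx, hA.mul x ((hfix x).1 hxf) x' ((hfix x').1 hxf'), hx, hx', hA.bs, hA.bs]
    simp
  · show be β (g ^ (k 1)) (w' 1) 1 = 1
    have h1 := hw1 1
    rw [hk1 1 rfl, pow_zero, pow_zero, one_mul, hβ1, one_mul] at h1
    rw [be_ap, hgi, hk1 1 rfl, pow_zero, one_mul, hβ1, one_mul, h1]
  · intro v
    show be β (g ^ (k 1)) (w' 1) (N.ι (i v)) = 1
    have h1 := hw1 1
    rw [hk1 1 rfl, pow_zero, pow_zero, one_mul, hβ1, one_mul] at h1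
    rw [be_ap, hgi, hk1 1 rfl, pow_zero, mul_one, h1, mul_one, hA.cov]
    -- `B.ι (i v) = 1`
    obtain ⟨r, hr⟩ := cen hB (B.ι (i v)) (by
      intro b
      have h2 : cj F B.ι (i v) b = b := hA.tr (i v) ⟨v, rfl⟩ b
      rw [cj_ap] at h2
      calc B.ι (i v) * b = B.ι (i v) * (b * B.ι (i v)⁻¹) * B.ι (i v) := by
            rw [mul_assoc, mul_assoc, al_inv', mul_one]
        _ = b * B.ι (i v) := by rw [h2])
    have hv : v ^ ℓ = 1 := by
      rw [← hc]
      exact pow_card_eq_one'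
    have h3 : algebraMap F B.A (r ^ ℓ) = 1 := by
      rw [map_pow, ← hr, ← map_pow, ← map_pow, hv, map_one, map_one]
    obtain ⟨n, hn, ⟨e⟩⟩ := hB
    haveI : Nonempty (Fin n) := ⟨⟨0, hn⟩⟩
    haveI : Nontrivial B.A := e.toEquiv.nontrivial
    have h4 : r ^ ℓ = 1 := by
      apply (algebraMap F B.A).injective
      rw [h3, map_one]
    have h5 : (r - 1) ^ ℓ = 0 := by
      rw [sub_pow_char, h4, one_pow, sub_self]
    have h6 : r = 1 := sub_eq_zero.1 (pow_eq_zero_iff (Fact.out : ℓ.Prime).ne_zero |>.1 h5)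
    rw [hr, h6, map_one]

end Pool.Agent.PFE.H17
end
end -- Pool.Agent.Helper17_PFE.TBN

section -- Pool.Agent.Helper19_PFC.QEXa

/-!
# QEXa: the quotient algebra `A(Q)` exists.
-/

open scoped BigOperators TensorProduct

noncomputable section

namespace Pool.Agent.PFC.H19

open Pool.Agent.PFC.B5a

/-- QEX: the quotient algebra exists. -/
theorem qexa : QexStmt := by
  intro hBK F V A _ _ _ _ _ α Q
  obtain ⟨h1, h2, h3⟩ := hBK F V A α Q
  let I : Ideal (Cz F α Q) :=
    { carrier := {a | (a : A) ∈ BK (cj F α) Q}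
      add_mem' := by
        intro a b ha hb
        exact (BK (cj F α) Q).add_mem ha hb
      zero_mem' := (BK (cj F α) Q).zero_mem
      smul_mem' := by
        intro c a ha
        exact (h3 c.1 c.2 a.1 ha).1 }
  have : I.IsTwoSided := ⟨by
    intro a b ha
    exact (h3 b.1 b.2 a.1 ha).2⟩
  refine ⟨Cz F α Q ⧸ I, inferInstance, inferInstance, Ideal.Quotient.mkₐ F I, ?_, ?_⟩
  · exact Ideal.Quotient.mkₐ_surjective F I
  · intro a
    rw [Ideal.Quotient.mkₐ_eq_mk, Ideal.Quotient.eq_zero_iff_mem]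
    exact Iff.rfl

end Pool.Agent.PFC.H19
end
end -- Pool.Agent.Helper19_PFC.QEXa

section -- Pool.Agent.Helper24_PFC.OMZ

/-!
# Squad PFC, block B5a, row OMZ
-/

open scoped BigOperators

noncomputable section

namespace Pool.Agent.PFC.B5a.H24

open Pool.Agent.PFC Pool.Agent.PFC.B5a

theorem omz : OmzStmt := by
  classical
  intro V Ω _ _ _ _ hst
  -- the stabilisers are diagonal
  have hdiag : ∀ (ω : Ω) (a b : V), ((a, b) : V × V) • ω = ω → a = b := by
    intro ω a b h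
    obtain ⟨R, hR⟩ := hst ω
    have h1 : ((a, b) : V × V) ∈ MulAction.stabilizer (V × V) ω := h
    rw [hR, tw, Subgroup.mem_map] at h1
    obtain ⟨r, _, hr⟩ := h1
    have h2 : r = a := congrArg Prod.fst hr
    have h3 : r = b := congrArg Prod.snd hr
    rw [← h2, h3]
  -- representatives of the orbits
  let rep : Ω → Ω := fun ω => (Quotient.mk'' ω : MulAction.orbitRel.Quotient (V × V) Ω).out
  have hrep : ∀ ω, ∃ g : V × V, g • rep ω = ω := by
    intro ω
    have h : (MulAction.orbitRel (V × V) Ω) (rep ω) ω := Quotient.mk_out ω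
    obtain ⟨g, hg⟩ := h
    refine ⟨g⁻¹, ?_⟩
    rw [← hg, inv_smul_smul]
  have hreq : ∀ (g : V × V) (ω : Ω), rep (g • ω) = rep ω := by
    intro g ω
    have h : (Quotient.mk'' (g • ω) : MulAction.orbitRel.Quotient (V × V) Ω) = Quotient.mk'' ω :=
      Quotient.sound' ⟨g, rfl⟩
    change (Quotient.mk'' (g • ω) : MulAction.orbitRel.Quotient (V × V) Ω).out = _
    rw [h]
  refine ⟨Finset.univ.filter fun ω => ∃ a : V, ((a, a) : V × V) • rep ω = ω, ?_, ?_⟩
  · intro g ω hω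
    rw [Finset.mem_filter] at hω ⊢
    obtain ⟨_, a, ha⟩ := hω
    refine ⟨Finset.mem_univ _, g * a, ?_⟩
    rw [hreq]
    have : ((g * a, g * a) : V × V) = (g, g) * (a, a) := rfl
    rw [this, mul_smul, ha]
  · intro M _ f
    rw [← Finset.sum_product' (f := fun ω h => f (((1, h) : V × V) • ω))]
    symm
    refine Finset.sum_bij (fun x _ => ((1, x.2) : V × V) • x.1) (fun _ _ => Finset.mem_univ _)
      ?_ ?_ (fun _ _ => rfl)
    · rintro ⟨ω, h⟩ hx ⟨ω', h'⟩ hx' he
      rw [Finset.mem_product, Finset.mem_filter] at hx hx'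
      obtain ⟨⟨_, a, ha⟩, _⟩ := hx
      obtain ⟨⟨_, a', ha'⟩, _⟩ := hx'
      dsimp only at ha ha' he ⊢
      have hr : rep ω = rep ω' := by
        rw [← hreq (1, h) ω, he, hreq]
      have e1 : ((((1, h') : V × V) * (a', a'))⁻¹ * ((1, h) * (a, a))) • rep ω' = rep ω' := by
        rw [mul_smul, inv_smul_eq_iff, mul_smul, mul_smul, ha', ← hr, ha, he]
      have e2 := hdiag (rep ω') (a'⁻¹ * a) ((h' * a')⁻¹ * (h * a)) (by
        have : ((a'⁻¹ * a, (h' * a')⁻¹ * (h * a)) : V × V) =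
            (((1, h') : V × V) * (a', a'))⁻¹ * ((1, h) * (a, a)) := by
          simp only [Prod.mk_mul_mk, Prod.inv_mk, one_mul]
        rw [this]; exact e1)
      have hh : h = h' := by
        have e3 : a'⁻¹ * a = a'⁻¹ * (h'⁻¹ * (h * a)) := by
          rw [e2, mul_inv_rev, mul_assoc]
        have e4 := mul_left_cancel e3
        rw [← mul_assoc] at e4
        have e5 : (1 : V) = h'⁻¹ * h := by
          have := e4
          nth_rewrite 1 [← one_mul a] at this
          exact mul_right_cancel this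
        exact (inv_mul_eq_one.1 e5.symm).symm
      subst hh
      have hω : ω = ω' := smul_left_cancel _ he
      rw [hω]
    · intro ω' _
      obtain ⟨⟨a, b⟩, hg⟩ := hrep ω'
      refine ⟨(((a, a) : V × V) • rep ω', b * a⁻¹), ?_, ?_⟩
      · rw [Finset.mem_product, Finset.mem_filter]
        refine ⟨⟨Finset.mem_univ _, a, ?_⟩, Finset.mem_univ _⟩
        have h2 : rep (((a, a) : V × V) • rep ω') = rep ω' := by
          have : rep ω' = rep (rep ω') := by
            conv_lhs => rw [← hg]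
            rw [hreq]
          rw [hreq, ← this]
        rw [h2]
      · dsimp only
        rw [← mul_smul]
        have : ((1, b * a⁻¹) : V × V) * (a, a) = (a, b) := by
          simp only [Prod.mk_mul_mk, one_mul, inv_mul_cancel_right]
        rw [this, hg]

end Pool.Agent.PFC.B5a.H24
end
end -- Pool.Agent.Helper24_PFC.OMZ

section -- Pool.Agent.Helper76_PFC.LSE

/-! Row LSE of squad PFC: the number of simple modules of the corner `j (F G) j` is at most the number
of the modular characters under `e`. -/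

open scoped BigOperators

noncomputable section

namespace Pool.Agent.PFC.H76

open Pool.Agent.Helper51_AWC Pool.Agent.Helper79_WRA Pool.Agent.PP
open Pool.Agent.PFC

section abs

variable {F R A : Type} [Field F] [Ring R] [Algebra F R] [Ring A] [Algebra F A]

/-- a two-sided ideal of nilpotent elements is killed by an irreducible representation -/
theorem nil_ideal {m : ℕ} (hm : 0 < m) (ρ : A →ₐ[F] Matrix (Fin m) (Fin m) F)
    (hρ : Function.Surjective ρ) (N : A → Prop) (hN : ∀ a y z, N a → N (y * a * z))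
    (hnil : ∀ a, N a → IsNilpotent a) (a : A) (ha : N a) : ρ a = 0 := by
  by_contra h0
  obtain ⟨p, q, hpq⟩ : ∃ p q, ρ a p q ≠ 0 := by
    by_contra hc
    push Not at hc
    exact h0 (Matrix.ext fun p q => hc p q)
  obtain ⟨y, hy⟩ := hρ (Matrix.single ⟨0, hm⟩ p 1)
  obtain ⟨z, hz⟩ := hρ (Matrix.single q ⟨0, hm⟩ 1)
  have h1 : ρ (y * a * z) = Matrix.single ⟨0, hm⟩ ⟨0, hm⟩ (ρ a p q) := by
    rw [map_mul, map_mul, hy, hz, Matrix.single_mul_mul_single, one_mul, mul_one]
  obtain ⟨k, hk⟩ := hnil _ (hN a y z ha)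
  have h2 : ∀ k : ℕ, (Matrix.single ⟨0, hm⟩ ⟨0, hm⟩ (ρ a p q) : Matrix (Fin m) (Fin m) F) ^ (k + 1) =
      Matrix.single ⟨0, hm⟩ ⟨0, hm⟩ (ρ a p q ^ (k + 1)) := by
    intro k
    induction k with
    | zero => rw [zero_add, pow_one, pow_one]
    | succ k ih => rw [pow_succ, ih, Matrix.single_mul_single_same, ← pow_succ]
  have h3 : ρ ((y * a * z) ^ (k + 1)) = 0 := by
    rw [pow_succ, hk, zero_mul, map_zero]
  rw [map_pow, h1, h2] at h3
  have h4 := congrFun (congrFun h3 ⟨0, hm⟩) ⟨0, hm⟩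
  rw [Matrix.single_apply_same, Matrix.zero_apply] at h4
  exact pow_ne_zero _ hpq h4

/-- the irreducible representations of a corner -/
theorem corner_abs {n : ℕ} (d : Fin n → ℕ)
    (π : R →ₐ[F] Π i, Matrix (Fin (d i)) (Fin (d i)) F) (hπ : Function.Surjective π)
    (hnil : ∀ a, π a = 0 → IsNilpotent a) (θ : A →ₗ[F] R)
    (hθm : ∀ a b, θ (a * b) = θ a * θ b) (hθi : Function.Injective θ)
    (hθr : ∀ x, ∃ a, θ a = θ 1 * x * θ 1) {m : ℕ} (hm : 0 < m)
    (ρ : A →ₐ[F] Matrix (Fin m) (Fin m) F) (hρ : Function.Surjective ρ) :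
    ∃ i, (∀ a, ρ a = 0 ↔ π (θ a) i = 0) ∧ π (θ 1) i ≠ 0 := by
  -- the kernel
  have hker : ∀ a, π (θ a) = 0 → ρ a = 0 := by
    refine nil_ideal hm ρ hρ (fun a => π (θ a) = 0) ?_ ?_
    · intro a y z ha
      rw [hθm, hθm, map_mul, map_mul, ha, mul_zero, zero_mul]
    · intro a ha
      obtain ⟨k, hk⟩ := hnil _ ha
      refine ⟨k + 1, hθi ?_⟩
      have h1 : ∀ k : ℕ, θ (a ^ (k + 1)) = θ a ^ (k + 1) := by
        intro k
        induction k with
        | zero => rw [zero_add, pow_one, pow_one]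
        | succ k ih => rw [pow_succ, hθm, ih, ← pow_succ]
      rw [h1, pow_succ, hk, zero_mul, map_zero]
  have h11 : θ 1 * θ 1 = θ 1 := by rw [← hθm, one_mul]
  have hPP : ∀ i, π (θ 1) i * π (θ 1) i = π (θ 1) i := by
    intro i
    have h1 := congrArg π h11
    rw [map_mul] at h1
    exact congrFun h1 i
  choose x hx using fun i => hπ (Pi.single i 1)
  choose f hf using fun i => hθr (x i)
  have hfi : ∀ i, π (θ (f i)) i = π (θ 1) i := by
    intro i
    rw [hf, map_mul, map_mul, hx, Pi.mul_apply, Pi.mul_apply, Pi.single_eq_same, mul_one, hPP]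
  have hfk : ∀ i k, k ≠ i → π (θ (f i)) k = 0 := by
    intro i k hk
    rw [hf, map_mul, map_mul, hx, Pi.mul_apply, Pi.mul_apply, Pi.single_eq_of_ne hk, mul_zero,
      zero_mul]
  have hsum : ρ (∑ i, f i) = 1 := by
    have h1 : ρ (∑ i, f i - 1) = 0 := by
      apply hker
      funext k
      rw [map_sub, map_sub, Pi.sub_apply, map_sum, map_sum, Finset.sum_apply,
        Finset.sum_eq_single k, hfi, sub_self]
      · rfl
      · intro i _ hi
        exact hfk i k (Ne.symm hi)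
      · intro h
        exact absurd (Finset.mem_univ _) h
    rw [map_sub, map_one, sub_eq_zero] at h1
    exact h1
  obtain ⟨i, hi⟩ : ∃ i, ρ (f i) ≠ 0 := by
    by_contra hc
    push Not at hc
    rw [map_sum, Finset.sum_eq_zero fun i _ => hc i] at hsum
    have h1 := congrFun (congrFun hsum ⟨0, hm⟩) ⟨0, hm⟩
    rw [Matrix.one_apply_eq, Matrix.zero_apply] at h1
    exact zero_ne_one h1
  have hl : ∀ a, π (θ 1) i * π (θ a) i = π (θ a) i := by
    intro a
    rw [← Pi.mul_apply, ← map_mul, ← hθm, one_mul]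
  have hr : ∀ a, π (θ a) i * π (θ 1) i = π (θ a) i := by
    intro a
    rw [← Pi.mul_apply, ← map_mul, ← hθm, mul_one]
  have h1 : ρ (f i) = 1 := by
    obtain ⟨c, hc⟩ := PP.H20.comm_scalar (ρ (f i)) (by
      intro N
      obtain ⟨a, rfl⟩ := hρ N
      rw [← map_mul, ← map_mul, ← sub_eq_zero, ← map_sub]
      apply hker
      funext k
      rw [map_sub, map_sub, hθm, hθm, map_mul, map_mul, Pi.sub_apply, Pi.mul_apply, Pi.mul_apply]
      by_cases hk : k = i
      · subst hk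
        rw [hfi, hl, hr, sub_self]
        rfl
      · rw [hfk i k hk, mul_zero, zero_mul, sub_self]
        rfl)
    have h2 : ρ (f i) * ρ (f i) = ρ (f i) := by
      rw [← map_mul, ← sub_eq_zero, ← map_sub]
      apply hker
      funext k
      rw [map_sub, map_sub, hθm, map_mul, Pi.sub_apply, Pi.mul_apply]
      by_cases hk : k = i
      · subst hk
        rw [hfi, hPP, sub_self]
        rfl
      · rw [hfk i k hk, mul_zero, sub_self]
        rfl
    rw [hc, smul_mul_smul_comm, one_mul] at h2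
    have h3 : c * c = c := by
      have h4 := congrFun (congrFun h2 ⟨0, hm⟩) ⟨0, hm⟩
      rw [Matrix.smul_apply, Matrix.smul_apply, Matrix.one_apply_eq, smul_eq_mul, smul_eq_mul,
        mul_one, mul_one] at h4
      exact h4
    have h4 : c ≠ 0 := by
      rintro rfl
      rw [zero_smul] at hc
      exact hi hc
    rw [hc, mul_left_cancel₀ h4 (h3.trans (mul_one c).symm), one_smul]
  refine ⟨i, fun a => ⟨fun ha => ?_, fun ha => ?_⟩, fun h0 => ?_⟩
  · by_contra hX
    obtain ⟨p, q, hpq⟩ : ∃ p q, π (θ a) i p q ≠ 0 := by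
      by_contra hc
      push Not at hc
      exact hX (Matrix.ext fun p q => hc p q)
    choose Y hY using fun c : Fin (d i) => hπ (Pi.single i (Matrix.single c p 1))
    choose Z hZ using fun c : Fin (d i) => hπ (Pi.single i (Matrix.single q c 1))
    choose y hy using fun c => hθr (Y c)
    choose z hz using fun c => hθr (Z c)
    have h2 : ρ (∑ c, y c * a * z c - π (θ a) i p q • f i) = 0 := by
      apply hker
      funext k
      rw [map_sub, map_sub, map_sum, map_sum, map_smul, map_smul, Pi.sub_apply, Finset.sum_apply,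
        Pi.smul_apply]
      by_cases hk : k = i
      · subst hk
        have h3 : ∀ c, π (θ (y c * a * z c)) k =
            π (θ 1) k * Matrix.single c c (π (θ a) k p q) * π (θ 1) k := by
          intro c
          rw [hθm, hθm, hy, hz, map_mul, map_mul, map_mul, map_mul, map_mul, map_mul, hY, hZ]
          simp only [Pi.mul_apply, Pi.single_eq_same]
          calc π (θ 1) k * Matrix.single c p 1 * π (θ 1) k * π (θ a) k *
                (π (θ 1) k * Matrix.single q c 1 * π (θ 1) k)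
              = π (θ 1) k * Matrix.single c p 1 * (π (θ 1) k * π (θ a) k) *
                (π (θ 1) k * Matrix.single q c 1 * π (θ 1) k) := by
                simp only [mul_assoc]
            _ = π (θ 1) k * (Matrix.single c p 1 * (π (θ a) k * π (θ 1) k) *
                Matrix.single q c 1) * π (θ 1) k := by
                rw [hl]
                simp only [mul_assoc]
            _ = π (θ 1) k * Matrix.single c c (π (θ a) k p q) * π (θ 1) k := by
                rw [hr, Matrix.single_mul_mul_single, one_mul, mul_one]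
        rw [Finset.sum_congr rfl fun c _ => h3 c, ← Finset.sum_mul, ← Finset.mul_sum, hfi]
        have h4 : ∑ c, Matrix.single c c (π (θ a) k p q) =
            π (θ a) k p q • (1 : Matrix (Fin (d k)) (Fin (d k)) F) := by
          ext u v
          rw [Matrix.sum_apply, Matrix.smul_apply, Matrix.one_apply]
          by_cases huv : u = v
          · subst huv
            rw [Finset.sum_eq_single u, Matrix.single_apply_same, if_pos rfl, smul_eq_mul, mul_one]
            · intro c _ hc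
              rw [Matrix.single_apply_of_ne]
              rintro ⟨h, -⟩
              exact hc h
            · intro h
              exact absurd (Finset.mem_univ _) h
          · rw [if_neg huv, smul_zero]
            refine Finset.sum_eq_zero fun c _ => ?_
            rw [Matrix.single_apply_of_ne]
            rintro ⟨h5, h6⟩
            exact huv (h5.symm.trans h6)
        rw [h4, mul_smul_comm, mul_one, smul_mul_assoc, hPP, sub_self]
        rfl
      · rw [hfk i k hk, smul_zero, sub_zero]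
        refine Finset.sum_eq_zero fun c _ => ?_
        rw [hθm, hθm, hy, map_mul, map_mul, map_mul, map_mul, hY]
        simp only [Pi.mul_apply]
        rw [Pi.single_eq_of_ne hk]
        simp only [mul_zero, zero_mul]
    rw [map_sub, map_sum, Finset.sum_eq_zero, map_smul, h1, zero_sub, neg_eq_zero] at h2
    · have h3 := congrFun (congrFun h2 ⟨0, hm⟩) ⟨0, hm⟩
      rw [Matrix.smul_apply, Matrix.one_apply_eq, smul_eq_mul, mul_one, Matrix.zero_apply] at h3
      exact hpq h3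
    · intro c _
      rw [map_mul, map_mul, ha, mul_zero, zero_mul]
  · have h2 : ρ (a * f i) = 0 := by
      apply hker
      funext k
      rw [hθm, map_mul, Pi.mul_apply]
      by_cases hk : k = i
      · subst hk
        rw [ha, zero_mul]
        rfl
      · rw [hfk i k hk, mul_zero]
        rfl
    rw [map_mul, h1, mul_one] at h2
    exact h2
  · apply hi
    apply hker
    funext k
    by_cases hk : k = i
    · subst hk
      rw [hfi, h0]
      rfl
    · rw [hfk i k hk]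
      rfl

end abs

/-- the corner in the group algebra -/
def thc {F G : Type} [Field F] [Group G] [Finite G] {j : G → F} (hj : mulF j j = j) :
    Crn hj →ₗ[F] MonoidAlgebra F G where
  toFun a := PP.H20.toMA (cv a)
  map_add' a b := by rw [cv_add, PP.H20.toMA_add]
  map_smul' c a := by
    rw [cv_smul, PP.H20.toMA_smul]
    rfl

theorem thc_apply {F G : Type} [Field F] [Group G] [Finite G] {j : G → F} (hj : mulF j j = j)
    (a : Crn hj) : thc hj a = PP.H20.toMA (cv a) := rfl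

theorem lse : LseStmt := by
  intro ℓ F _ hF G _ _ e j he hej hj
  have := hF.closed
  obtain ⟨n, d, π, σ, hπ, hnil, hirr, hev, -, hinj⟩ := PP.H20.ibr_struct (F := F) (H := G)
  have key : ∀ K ∈ kers F (Crn hj), ∃ i, K = {a | π (thc hj a) i = 0} ∧ π (thc hj 1) i ≠ 0 := by
    rintro K ⟨m, ρ, hm, hρ, rfl⟩
    obtain ⟨i, h1, h2⟩ := corner_abs d π hπ hnil (thc hj)
      (fun a b => by rw [thc_apply, cv_mul, PP.H20.toMA_mulF]; rfl)
      (fun a b hab => cv_inj hj (PP.H20.toMA_injective hab))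
      (fun x => by
        obtain ⟨a, rfl⟩ := PP.H20.toMA_surjective x
        refine ⟨mkj hj a, ?_⟩
        rw [thc_apply, cv_mkj, PP.H20.toMA_mulF, PP.H20.toMA_mulF, ← mul_assoc]
        rfl) hm ρ hρ
    exact ⟨i, Set.ext fun a => h1 a, h2⟩
  unfold ls
  unfold Pool.Agent.PP.T3.ln
  rcases Set.eq_empty_or_nonempty (kers F (Crn hj)) with h0 | ⟨K0, hK0⟩
  · rw [h0, Set.ncard_empty]
    exact Nat.zero_le _
  have hne : Nonempty (Fin n) := ⟨(key K0 hK0).choose⟩
  choose! I hI1 hI2 using key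
  refine Set.ncard_le_ncard_of_injOn (fun K => tr (σ (I K))) ?_ ?_ ?_
  · intro K hK
    refine ⟨⟨_, σ (I K), hirr _, rfl⟩, ?_⟩
    obtain ⟨w, h1, h2, h3⟩ := PP.H20.eig F G _ (σ (I K)) (hirr _) e he.1
    rcases h3 he with h | h
    · exfalso
      apply hI2 K hK
      rw [thc_apply, cv_one, ← hev, ← hej, PP.H20.ev_mulF, h1, h, map_zero, zero_mul]
    · rw [h2, h, one_smul]
  · intro K hK K' hK' h
    have h1 : I K = I K' := hinj h
    rw [hI1 K hK, hI1 K' hK', h1]
  · exact (PP.H20.ibf ℓ F hF G).1.subset fun f hf => hf.1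

end Pool.Agent.PFC.H76
end
end -- Pool.Agent.Helper76_PFC.LSE

section -- Pool.Agent.Helper91_PFC.LSF

/-!
# Squad PFC, row LSF: the number of simple modules of a full corner
-/

set_option autoImplicit false

open scoped BigOperators

noncomputable section

namespace Pool.Agent.PFC.H91

section mat

variable {F : Type} [Field F]

theorem mat_prime {n : ℕ} {M N : Matrix (Fin n) (Fin n) F} (hM : M ≠ 0) (hN : N ≠ 0) :
    ∃ C : Matrix (Fin n) (Fin n) F, M * C * N ≠ 0 := by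
  obtain ⟨p, q, hp⟩ : ∃ p q, M p q ≠ 0 := by
    by_contra h
    push Not at h
    exact hM (by ext i j; exact h i j)
  obtain ⟨r, s, hr⟩ : ∃ r s, N r s ≠ 0 := by
    by_contra h
    push Not at h
    exact hN (by ext i j; exact h i j)
  refine ⟨Matrix.single q r 1, fun h => ?_⟩
  have h1 : Matrix.single p p (1 : F) * (M * Matrix.single q r 1 * N) * Matrix.single s s 1 =
      Matrix.single p s (M p q * N r s) := by
    have e1 : Matrix.single p p (1 : F) * (M * Matrix.single q r 1 * N) * Matrix.single s s 1 =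
        (Matrix.single p p (1 : F) * M * Matrix.single q q 1) *
          (Matrix.single q r 1 * N * Matrix.single s s 1) := by
      have e2 : Matrix.single q r (1 : F) = Matrix.single q q 1 * Matrix.single q r 1 := by
        rw [Matrix.single_mul_single_same, one_mul]
      conv_lhs => rw [e2]
      simp only [Matrix.mul_assoc]
    rw [e1, Matrix.single_mul_mul_single, Matrix.single_mul_mul_single,
      Matrix.single_mul_single_same]
    simp
  rw [h, Matrix.mul_zero, Matrix.zero_mul] at h1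
  have h2 := congrFun (congrFun h1 p) s
  rw [Matrix.zero_apply, Matrix.single_apply_same] at h2
  exact mul_ne_zero hp hr h2.symm

/-- an idempotent matrix factors through its rank -/
theorem idem_factor {n : ℕ} (P : Matrix (Fin n) (Fin n) F) (hP : P * P = P) (h0 : P ≠ 0) :
    ∃ (r : ℕ) (U : Matrix (Fin r) (Fin n) F) (V : Matrix (Fin n) (Fin r) F), 0 < r ∧
      V * U = P ∧ U * V = 1 := by
  let f : (Fin n → F) →ₗ[F] (Fin n → F) := Matrix.toLin' P
  have hf : ∀ x, f (f x) = f x := by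
    intro x
    have h1 : Matrix.toLin' (P * P) x = f (f x) := by
      rw [Matrix.toLin'_mul]
      rfl
    rw [← h1, hP]
  let W := LinearMap.range f
  let b := Module.finBasis F W
  let u : (Fin n → F) →ₗ[F] (Fin (Module.finrank F W) → F) :=
    b.equivFun.toLinearMap ∘ₗ f.rangeRestrict
  let v : (Fin (Module.finrank F W) → F) →ₗ[F] (Fin n → F) :=
    W.subtype ∘ₗ b.equivFun.symm.toLinearMap
  have hvu : v ∘ₗ u = f := by
    ext1 i
    refine LinearMap.ext fun x => ?_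
    simp only [u, v, LinearMap.comp_apply, LinearEquiv.coe_coe, LinearEquiv.symm_apply_apply]
    rfl
  have huv : u ∘ₗ v = LinearMap.id := by
    refine LinearMap.ext fun x => ?_
    have h1 : f.rangeRestrict (v x) = b.equivFun.symm x := by
      apply Subtype.ext
      obtain ⟨y, hy⟩ := (b.equivFun.symm x).2
      change f (v x) = _
      have h2 : v x = f y := hy.symm
      rw [h2, hf]
      exact hy
    simp only [u, LinearMap.comp_apply, LinearEquiv.coe_coe, h1, LinearEquiv.apply_symm_apply,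
      LinearMap.id_apply]
  refine ⟨Module.finrank F W, LinearMap.toMatrix' u, LinearMap.toMatrix' v, ?_, ?_, ?_⟩
  · rw [Nat.pos_iff_ne_zero]
    intro h
    have h1 : W = ⊥ := Submodule.finrank_eq_zero.1 h
    have h2 : f = 0 := LinearMap.range_eq_bot.1 h1
    apply h0
    have h3 := congrArg LinearMap.toMatrix' h2
    rw [LinearMap.toMatrix'_toLin', map_zero] at h3
    exact h3
  · rw [← LinearMap.toMatrix'_comp, hvu, LinearMap.toMatrix'_toLin']
  · rw [← LinearMap.toMatrix'_comp, huv, LinearMap.toMatrix'_id]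

end mat

section fin

variable {F Y : Type} [Field F] [Ring Y] [Algebra F Y]

/-- containment of kernels is equality -/
theorem ker_max {n k : ℕ} (ρ : Y →ₐ[F] Matrix (Fin n) (Fin n) F)
    (hρ : Function.Surjective ρ) (σ : Y →ₐ[F] Matrix (Fin k) (Fin k) F) (hk : 0 < k)
    (h : ∀ a, ρ a = 0 → σ a = 0) : ∀ a, σ a = 0 → ρ a = 0 := by
  intro a ha
  by_contra hna
  obtain ⟨p, q, hp⟩ : ∃ p q, (ρ a) p q ≠ 0 := by
    by_contra h
    push Not at h
    exact hna (by ext i j; exact h i j)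
  choose u hu using fun i : Fin n => hρ (Matrix.single i p 1)
  choose v hv using fun i : Fin n => hρ (Matrix.single q i 1)
  have h1 : ρ (∑ i, u i * a * v i - (ρ a p q) • 1) = 0 := by
    rw [map_sub, map_sum, map_smul, map_one, sub_eq_zero]
    have h2 : ∀ i, ρ (u i * a * v i) = Matrix.single i i (ρ a p q) := by
      intro i
      rw [map_mul, map_mul, hu, hv, Matrix.single_mul_mul_single, one_mul, mul_one]
    rw [Finset.sum_congr rfl fun i _ => h2 i]
    ext i j
    rw [Matrix.sum_apply, Matrix.smul_apply, Matrix.one_apply]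
    by_cases hij : i = j
    · subst hij
      rw [Finset.sum_eq_single i]
      · rw [Matrix.single_apply_same, if_pos rfl, smul_eq_mul, mul_one]
      · intro l _ hl
        rw [Matrix.single_apply_of_ne]
        exact fun h => hl h.1
      · intro hi
        exact absurd (Finset.mem_univ i) hi
    · rw [if_neg hij, smul_zero]
      refine Finset.sum_eq_zero fun l _ => ?_
      rw [Matrix.single_apply_of_ne]
      rintro ⟨h1, h2⟩
      exact hij (h1.symm.trans h2)
  have h3 := h _ h1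
  rw [map_sub, map_sum, map_smul, map_one] at h3
  have h4 : ∀ i, σ (u i * a * v i) = 0 := by
    intro i
    rw [map_mul, map_mul, ha, mul_zero, zero_mul]
  rw [Finset.sum_eq_zero fun i _ => h4 i, zero_sub, neg_eq_zero] at h3
  haveI : Nonempty (Fin k) := ⟨⟨0, hk⟩⟩
  rcases smul_eq_zero.1 h3 with h5 | h5
  · exact hp h5
  · exact one_ne_zero h5

/-- the number of kernels is finite -/
theorem kers_finite (F Y : Type) [Field F] [Ring Y] [Algebra F Y] [FiniteDimensional F Y] :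
    (kers F Y).Finite := by
  by_contra hinf
  let e := Set.Infinite.natEmbedding _ hinf
  choose n ρ hn hρ hK using fun i => (e i).2
  let Q : ℕ → Submodule F Y := fun i => LinearMap.ker (ρ i).toLinearMap
  let P : ℕ → Submodule F Y := fun N => ⨅ i ∈ Finset.range N, Q i
  have hP : Antitone P := by
    intro a b hab
    refine le_iInf₂ fun i hi => iInf₂_le i ?_
    exact Finset.mem_range.2 ((Finset.mem_range.1 hi).trans_le hab)
  obtain ⟨N, hN⟩ := IsArtinian.monotone_stabilizes (R := F) (M := Y)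
    ⟨fun N => OrderDual.toDual (P N), fun a b hab => hP hab⟩
  have h1 : P N = P (N + 1) := hN (N + 1) (Nat.le_succ N)
  have h2 : P N ≤ Q N := by
    rw [h1]
    exact iInf₂_le N (Finset.mem_range.2 (Nat.lt_succ_self N))
  -- prime avoidance
  have h3 : ∃ i, i < N ∧ ∀ a, ρ i a = 0 → ρ N a = 0 := by
    by_contra hcon
    push Not at hcon
    have h4 : ∀ s : Finset ℕ, (∀ i ∈ s, i < N) → ∃ x, ρ N x ≠ 0 ∧ ∀ i ∈ s, ρ i x = 0 := by
      intro s
      induction s using Finset.induction_on with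
      | empty =>
        intro _
        refine ⟨1, ?_, fun i hi => absurd hi (Finset.notMem_empty i)⟩
        haveI : Nonempty (Fin (n N)) := ⟨⟨0, hn N⟩⟩
        rw [map_one]
        exact one_ne_zero
      | insert j s hj ih =>
        intro hs
        obtain ⟨x, hx, hx2⟩ := ih fun i hi => hs i (Finset.mem_insert_of_mem hi)
        obtain ⟨a, ha, ha2⟩ := hcon j (hs j (Finset.mem_insert_self j s))
        obtain ⟨C, hC⟩ := mat_prime hx ha2
        obtain ⟨c, hc⟩ := hρ N C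
        refine ⟨x * c * a, ?_, fun i hi => ?_⟩
        · rw [map_mul, map_mul, hc]
          exact hC
        · rcases Finset.mem_insert.1 hi with h | h
          · rw [h, map_mul, ha, mul_zero]
          · rw [map_mul, map_mul, hx2 i h, zero_mul, zero_mul]
    obtain ⟨x, hx, hx2⟩ := h4 (Finset.range N) fun i hi => Finset.mem_range.1 hi
    apply hx
    have h5 : x ∈ P N := by
      refine (Submodule.mem_iInf _).2 fun i => (Submodule.mem_iInf _).2 fun hi => ?_
      exact hx2 i hi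
    exact h2 h5
  obtain ⟨i, hi, h4⟩ := h3
  have h5 := ker_max (ρ i) (hρ i) (ρ N) (hn N) h4
  have h6 : e i = e N := by
    apply Subtype.ext
    rw [hK i, hK N]
    ext a
    exact ⟨h4 a, h5 a⟩
  exact hi.ne (e.injective h6)

end fin

/-- row LSF -/
theorem lsf : LsfStmt := by
  intro F X Y _ _ _ _ _ _ _ j κ hc h1
  haveI : FiniteDimensional F Y := Module.Finite.of_injective κ hc.inj
  have hjj : j * j = j := by
    rw [← hc.one, ← hc.mul, mul_one]
  have hjl : ∀ y, j * κ y = κ y := by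
    intro y
    rw [← hc.one, ← hc.mul, one_mul]
  have hjr : ∀ y, κ y * j = κ y := by
    intro y
    rw [← hc.one, ← hc.mul, mul_one]
  have hran : ∀ a b x : X, ∃ y, κ y = j * a * x * b * j := by
    intro a b x
    refine hc.ran _ ?_ ?_
    · simp only [← mul_assoc, hjj]
    · simp only [mul_assoc, hjj]
  -- elements of the kernel
  have hker : ∀ {n : ℕ} (ρ : X →ₐ[F] Matrix (Fin n) (Fin n) F) (x : X),
      (∀ a b y, κ y = j * a * x * b * j → ρ (κ y) = 0) → ρ x = 0 := by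
    intro n ρ x hx
    have h0 : ∀ a b, ρ (j * a * x * b * j) = 0 := by
      intro a b
      obtain ⟨y, hy⟩ := hran a b x
      rw [← hy]
      exact hx a b y hy
    have h2 : ∀ z ∈ Submodule.span F {x | ∃ a b : X, x = a * j * b}, ∀ b, ρ (z * x * b * j) = 0 := by
      intro z hz
      induction hz using Submodule.span_induction with
      | mem z hz =>
        obtain ⟨a, b', rfl⟩ := hz
        intro b
        have e : a * j * b' * x * b * j = a * (j * b' * x * b * j) := by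
          simp only [mul_assoc]
        rw [e, map_mul, h0, mul_zero]
      | zero =>
        intro b
        simp
      | add z w _ _ hz hw =>
        intro b
        rw [add_mul, add_mul, add_mul, map_add, hz, hw, add_zero]
      | smul c z _ hz =>
        intro b
        rw [smul_mul_assoc, smul_mul_assoc, smul_mul_assoc, map_smul, hz, smul_zero]
    have h3 : ∀ b, ρ (x * b * j) = 0 := by
      intro b
      have := h2 1 h1 b
      rwa [one_mul] at this
    have h4 : ∀ z ∈ Submodule.span F {x | ∃ a b : X, x = a * j * b}, ρ (x * z) = 0 := by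
      intro z hz
      induction hz using Submodule.span_induction with
      | mem z hz =>
        obtain ⟨a, b', rfl⟩ := hz
        have e : x * (a * j * b') = (x * a * j) * b' := by
          simp only [mul_assoc]
        rw [e, map_mul, h3, zero_mul]
      | zero => simp
      | add z w _ _ hz hw => rw [mul_add, map_add, hz, hw, add_zero]
      | smul c z _ hz => rw [mul_smul_comm, map_smul, hz, smul_zero]
    have := h4 1 h1
    rwa [mul_one] at this
  refine Set.ncard_le_ncard_of_injOn (fun K => κ ⁻¹' K) ?_ ?_ (kers_finite F Y)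
  · rintro K ⟨n, ρ, hn, hρ, rfl⟩
    haveI : Nonempty (Fin n) := ⟨⟨0, hn⟩⟩
    have hP0 : ρ j ≠ 0 := by
      intro h
      have h2 : ρ 1 = 0 := by
        refine hker ρ 1 fun a b y hy => ?_
        rw [hy, map_mul, h, mul_zero]
      rw [map_one] at h2
      exact one_ne_zero h2
    obtain ⟨r, U, V, hr, hVU, hUV⟩ := idem_factor (ρ j) (by rw [← map_mul, hjj]) hP0
    have hsurj := hρ
    let g : Y →ₗ[F] Matrix (Fin r) (Fin r) F :=
      { toFun := fun y => U * ρ (κ y) * V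
        map_add' := fun y y' => by
          rw [map_add, map_add, Matrix.mul_add, Matrix.add_mul]
        map_smul' := fun c y => by
          rw [map_smul, map_smul, Matrix.mul_smul, Matrix.smul_mul, RingHom.id_apply] }
    have hg : ∀ y, g y = U * ρ (κ y) * V := fun _ => rfl
    have hg1 : g 1 = 1 := by
      rw [hg, hc.one, ← hVU, ← Matrix.mul_assoc, hUV, Matrix.one_mul, hUV]
    have hgm : ∀ y y', g (y * y') = g y * g y' := by
      intro y y'
      have e1 : ρ (κ (y * y')) = ρ (κ y) * (V * U) * ρ (κ y') := by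
        rw [hVU, ← map_mul, ← map_mul, hc.mul, hjr]
      rw [hg, hg, hg, e1]
      simp only [Matrix.mul_assoc]
    refine ⟨r, AlgHom.ofLinearMap g hg1 hgm, hr, ?_, ?_⟩
    · intro T
      obtain ⟨x, hx⟩ := hsurj (V * T * U)
      obtain ⟨y, hy⟩ := hran 1 1 x
      refine ⟨y, ?_⟩
      change g y = T
      rw [hg, hy, mul_one, mul_one, map_mul, map_mul, hx, ← hVU]
      have e1 : U * (V * U * (V * T * U) * (V * U)) * V =
          (U * V) * (U * V) * T * (U * V) * (U * V) := by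
        simp only [Matrix.mul_assoc]
      rw [e1, hUV]
      simp only [Matrix.one_mul, Matrix.mul_one]
    · ext y
      change ρ (κ y) = 0 ↔ g y = 0
      constructor
      · intro h
        rw [hg, h, Matrix.mul_zero, Matrix.zero_mul]
      · intro h
        have e1 : ρ (κ y) = V * g y * U := by
          have e2 : κ y = j * κ y * j := by
            rw [hjl, hjr]
          conv_lhs => rw [e2]
          rw [map_mul, map_mul, ← hVU, hg]
          simp only [Matrix.mul_assoc]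
        rw [e1, h, Matrix.mul_zero, Matrix.zero_mul]
  · rintro K ⟨n, ρ, hn, hρ, rfl⟩ K' ⟨n', ρ', hn', hρ', rfl⟩ h
    have hy : ∀ y, ρ (κ y) = 0 ↔ ρ' (κ y) = 0 := by
      intro y
      have := Set.ext_iff.1 h y
      exact this
    ext x
    constructor
    · intro hx
      refine hker ρ' x fun a b y he => (hy y).1 ?_
      rw [he]
      have hx' : ρ x = 0 := hx
      simp only [map_mul, hx', mul_zero, zero_mul]
    · intro hx
      refine hker ρ x fun a b y he => (hy y).2 ?_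
      rw [he]
      have hx' : ρ' x = 0 := hx
      simp only [map_mul, hx', mul_zero, zero_mul]

end Pool.Agent.PFC.H91
end
end -- Pool.Agent.Helper91_PFC.LSF

section -- Pool.Agent.Helper29_PFD.LSG

/-!
# Squad PFD, block D5, row LSG: the number of simple modules of a full corner
-/

open scoped BigOperators

noncomputable section

namespace Pool.Agent.PFD.H29

open Pool.Agent.Helper51_AWC Pool.Agent.Helper79_WRA Pool.Agent.PP
open Pool.Agent.PFC Pool.Agent.PFD

section rep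

variable {F G : Type} [Field F] [Group G] [Finite G]

theorem ev_add {n : ℕ} (σ : G →* Matrix (Fin n) (Fin n) F) (a b : G → F) :
    ev σ (a + b) = ev σ a + ev σ b := by
  rw [← PP.H20.lift_toMA, ← PP.H20.lift_toMA, ← PP.H20.lift_toMA, PP.H20.toMA_add, map_add]

theorem ev_smul {n : ℕ} (σ : G →* Matrix (Fin n) (Fin n) F) (c : F) (a : G → F) :
    ev σ (c • a) = c • ev σ a := by
  rw [← PP.H20.lift_toMA, ← PP.H20.lift_toMA, PP.H20.toMA_smul, map_smul]

theorem ev_zero {n : ℕ} (σ : G →* Matrix (Fin n) (Fin n) F) : ev σ (0 : G → F) = 0 := by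
  have h := ev_smul σ (0 : F) (0 : G → F)
  rw [zero_smul, zero_smul] at h
  exact h

/-- a representation which does not vanish at `j` gives a kernel -/
theorem ker_mem {n : ℕ} (σ : G →* Matrix (Fin n) (Fin n) F) (hσ : IsIrr σ) {j : G → F}
    (hj : mulF j j = j) (h0 : ev σ j ≠ 0) :
    {a : Crn hj | ev σ (cv a) = 0} ∈ kers F (Crn hj) := by
  obtain ⟨r, U, V, hr, hVU, hUV⟩ := PFC.H91.idem_factor (ev σ j)
    (by rw [← PP.H20.ev_mulF, hj]) h0
  have hl : ∀ a : Crn hj, V * U * ev σ (cv a) = ev σ (cv a) := by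
    intro a
    rw [hVU, ← PP.H20.ev_mulF, cv_l]
  have hr' : ∀ a : Crn hj, ev σ (cv a) * (V * U) = ev σ (cv a) := by
    intro a
    rw [hVU, ← PP.H20.ev_mulF, cv_r]
  let g : Crn hj →ₗ[F] Matrix (Fin r) (Fin r) F :=
    { toFun := fun y => U * ev σ (cv y) * V
      map_add' := fun y y' => by
        rw [cv_add, ev_add, Matrix.mul_add, Matrix.add_mul]
      map_smul' := fun c y => by
        rw [cv_smul, ev_smul, Matrix.mul_smul, Matrix.smul_mul, RingHom.id_apply] }
  have hg : ∀ y, g y = U * ev σ (cv y) * V := fun _ => rfl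
  have hg1 : g 1 = 1 := by
    rw [hg, cv_one, ← hVU, ← Matrix.mul_assoc, hUV, Matrix.one_mul, hUV]
  have hgm : ∀ y y', g (y * y') = g y * g y' := by
    intro y y'
    rw [hg, hg, hg, cv_mul, PP.H20.ev_mulF]
    calc U * (ev σ (cv y) * ev σ (cv y')) * V
        = U * ((ev σ (cv y) * (V * U)) * ev σ (cv y')) * V := by rw [hr']
      _ = U * ev σ (cv y) * V * (U * ev σ (cv y') * V) := by simp only [Matrix.mul_assoc]
  refine ⟨r, AlgHom.ofLinearMap g hg1 hgm, hr, ?_, ?_⟩
  · intro T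
    obtain ⟨x, hx⟩ := (PP.H20.lift_surjective σ).2 hσ.2 (V * T * U)
    obtain ⟨a, rfl⟩ := PP.H20.toMA_surjective x
    rw [PP.H20.lift_toMA] at hx
    refine ⟨mkj hj a, ?_⟩
    change g (mkj hj a) = T
    rw [hg, cv_mkj, PP.H20.ev_mulF, PP.H20.ev_mulF, hx, ← hVU]
    calc U * (V * U * (V * T * U * (V * U))) * V
        = (U * V) * (U * V) * T * (U * V) * (U * V) := by simp only [Matrix.mul_assoc]
      _ = T := by simp only [hUV, Matrix.one_mul, Matrix.mul_one]
  · ext a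
    change ev σ (cv a) = 0 ↔ g a = 0
    rw [hg]
    constructor
    · intro h
      rw [h, Matrix.mul_zero, Matrix.zero_mul]
    · intro h
      rw [← hl a, ← hr' a]
      calc V * U * (ev σ (cv a) * (V * U)) = V * (U * ev σ (cv a) * V) * U := by
            simp only [Matrix.mul_assoc]
        _ = 0 := by rw [h, Matrix.mul_zero, Matrix.zero_mul]

end rep

/-- LSG -/
theorem lsg : LsgStmt := by
  intro ℓ F _ hF G _ _ e j he hej hj hspan
  apply le_antisymm (PFC.H76.lse ℓ F hF G e j he hej hj)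
  have : FiniteDimensional F (Crn hj) := inferInstanceAs (FiniteDimensional F (CnS j))
  have hch : ∀ f : G → F, f ∈ IBr F G → ∃ (n : ℕ) (ρ : G →* Matrix (Fin n) (Fin n) F),
    IsIrr ρ ∧ f = tr ρ := fun f h => h
  choose! n ρ hirr htr using hch
  -- `e` acts as one
  have he1 : ∀ f ∈ IBr F G, actF e f = f → ev (ρ f) e = 1 := by
    intro f hf hact
    obtain ⟨w, h1, h2, h3⟩ := PP.H20.eig F G _ (ρ f) (hirr f hf) e he.1
    rcases h3 he with h | h
    · exfalso
      rw [← htr f hf, hact, h, zero_smul] at h2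
      exact (PP.H20.ibf ℓ F hF G).2.ne_zero (⟨f, hf⟩ : IBr F G) h2
    · rw [h1, h, map_one]
  have hj0 : ∀ f ∈ IBr F G, actF e f = f → ev (ρ f) j ≠ 0 := by
    intro f hf hact h0
    have h1 : ∀ x ∈ Submodule.span F {x : G → F | ∃ a b, x = mulF a (mulF j b)},
        ev (ρ f) x = 0 := by
      intro x hx
      induction hx using Submodule.span_induction with
      | mem x hx =>
        obtain ⟨a, b, rfl⟩ := hx
        rw [PP.H20.ev_mulF, PP.H20.ev_mulF, h0, zero_mul, mul_zero]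
      | zero => exact ev_zero _
      | add x y _ _ hx hy => rw [ev_add, hx, hy, add_zero]
      | smul c x _ hx => rw [ev_smul, hx, smul_zero]
    have h2 := h1 e hspan
    rw [he1 f hf hact] at h2
    have : Nonempty (Fin (n f)) := ⟨⟨0, (hirr f hf).1⟩⟩
    exact one_ne_zero h2
  unfold ls
  unfold Pool.Agent.PP.T3.ln
  refine Set.ncard_le_ncard_of_injOn (fun f => {a : Crn hj | ev (ρ f) (cv a) = 0}) ?_ ?_
    (PFC.H91.kers_finite F (Crn hj))
  · rintro f ⟨hf, hact⟩
    exact ker_mem (ρ f) (hirr f hf) hj (hj0 f hf hact)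
  · rintro f ⟨hf, hact⟩ f' ⟨hf', hact'⟩ hff
    by_contra hne
    have hff' : {a : Crn hj | ev (ρ f) (cv a) = 0} = {a : Crn hj | ev (ρ f') (cv a) = 0} := hff
    obtain ⟨a, ha⟩ := PP.H20.ibj ℓ F hF G Bool (fun b => n (bif b then f else f'))
      (fun b => ρ (bif b then f else f'))
      (fun b => by cases b; exacts [hirr f' hf', hirr f hf])
      (fun b b' hbb => by
        have h1 : tr (ρ f) = f := (htr f hf).symm
        have h2 : tr (ρ f') = f' := (htr f' hf').symm
        cases b <;> cases b'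
        · rfl
        · exact absurd (h2.symm.trans ((show tr (ρ f') = tr (ρ f) from hbb).trans h1)).symm hne
        · exact absurd (h1.symm.trans ((show tr (ρ f) = tr (ρ f') from hbb).trans h2)) hne
        · rfl)
      (fun b => if b then 1 else 0)
    have ha1 : ev (ρ f) a = 1 := ha true
    have ha2 : ev (ρ f') a = 0 := ha false
    have h3 : mkj hj a ∈ {a : Crn hj | ev (ρ f') (cv a) = 0} := by
      change ev (ρ f') (cv (mkj hj a)) = 0
      rw [cv_mkj, PP.H20.ev_mulF, PP.H20.ev_mulF, ha2, zero_mul, mul_zero]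
    rw [← hff'] at h3
    have h4 : ev (ρ f) (cv (mkj hj a)) = 0 := h3
    rw [cv_mkj, PP.H20.ev_mulF, PP.H20.ev_mulF, ha1, one_mul, ← PP.H20.ev_mulF, hj] at h4
    exact hj0 f hf hact h4

end Pool.Agent.PFD.H29
end
end -- Pool.Agent.Helper29_PFD.LSG

section -- Pool.Agent.Helper29_PFE.FLA

/-!
# Squad PFE, row FLA: the structure of `Y(Q)` for any subgroup `Q` (helper29)
-/

open scoped BigOperators TensorProduct

noncomputable section

namespace Pool.Agent.PFE.H29

open Pool.Agent.PFC Pool.Agent.PFE Pool.Agent.PFE.S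
open Pool.Agent.PFC.B5a (QA be zin)

/-- The stabilisers for `Y(Q)`. -/
theorem qpe (ℓ : ℕ) [Fact ℓ.Prime] (F V E A B : Type) [Field F]
    [CharP F ℓ] [CommGroup V] [Fintype V] [Group E] [Ring A] [Algebra F A] [Ring B] [Algebra F B]
    (φ : E →* MulAut V) (E1 : Subgroup E) (α : V →* A) (Q : Subgroup V)
    (q : Cz F α Q →ₐ[F] B) (hV : IsPGroup ℓ V) (hE1 : ∀ e : E, e ∈ E1 ↔ ∀ u ∈ Q, φ e u = u)
    (hqa : QA F α Q q)
    (hps : PS (fun K => ∃ (e : E) (R : Subgroup V), K = tw (φ e).toMonoidHom R) (bi F α)) :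
    PS (fun K => ∃ (e : E1) (R : Subgroup V), K = tw (φ.comp E1.subtype e).toMonoidHom R)
      (bi F (be F α Q q)) := by
  obtain ⟨Ω, _, _, b, c, hfr, hst⟩ := hps
  obtain ⟨Ω', i1, i2, j, b', c', hfr', hj, hj2, hj3, -, -⟩ :=
    Pool.Agent.PFC.B5a.H70.qfc H49d.bki ℓ F V A B α Q q Ω b c hV hqa hfr
  refine ⟨Ω', i1, i2, b', c', hfr', fun ω' => ?_⟩
  obtain ⟨e, R, hR⟩ := hst (j ω')
  have hs : MulAction.stabilizer (V × V) ω' = MulAction.stabilizer (V × V) (j ω') := by
    ext w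
    rw [MulAction.mem_stabilizer_iff, MulAction.mem_stabilizer_iff, ← hj3]
    exact ⟨fun h => by rw [h], fun h => hj h⟩
  have he : e ∈ E1 := by
    refine (hE1 e).2 fun u hu => ?_
    have h1 : ((u, u) : V × V) ∈ MulAction.stabilizer (V × V) (j ω') := by
      rw [MulAction.mem_stabilizer_iff]
      exact (hj2 (j ω')).1 ⟨ω', rfl⟩ u hu
    rw [hR] at h1
    obtain ⟨r, -, hr2⟩ := h1
    have h2 : φ e r = u := congrArg Prod.fst hr2
    have h3 : r = u := congrArg Prod.snd hr2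
    rw [h3] at h2
    exact h2
  exact ⟨⟨e, he⟩, R, by rw [hs, hR]; rfl⟩

theorem cj_apply {F V A : Type} [Field F] [CommGroup V] [Ring A] [Algebra F A] (α : V →* A)
    (v : V) (a : A) : cj F α v a = α v * (a * α v⁻¹) := rfl

/-- an element which commutes with `Q` is fixed by `Q` -/
theorem fx_of_com {F V A : Type} [Field F] [CommGroup V] [Ring A] [Algebra F A] {α : V →* A}
    {Q : Subgroup V} {a : A} (h : ∀ v ∈ Q, α v * a = a * α v) : a ∈ Fx (cj F α) Q := by
  intro v hv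
  rw [cj_apply, ← mul_assoc, h v hv, mul_assoc, ← map_mul, mul_inv_cancel, map_one, mul_one]

/-- an equivariant map maps relative traces to relative traces -/
theorem map_BK {F H M N : Type} [Field F] [Group H] [AddCommGroup M] [Module F M]
    [AddCommGroup N] [Module F N] (ρ : H →* (M →ₗ[F] M)) (ρ' : H →* (N →ₗ[F] N))
    (P : Subgroup H) (β : M →ₗ[F] N) (hβ : ∀ v m, β (ρ v m) = ρ' v (β m)) {x : M}
    (hx : x ∈ BK ρ P) : β x ∈ BK ρ' P := by
  have h1 : Submodule.map β (BK ρ P) ≤ BK ρ' P := by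
    unfold BK
    rw [Submodule.map_span, Submodule.span_le]
    rintro _ ⟨_, ⟨P', S, m, hP, hS, hm, rfl⟩, rfl⟩
    refine Submodule.subset_span ⟨P', S, β m, hP, hS, fun h hh => ?_, ?_⟩
    · rw [← hβ, hm h hh]
    · rw [map_sum]
      exact Finset.sum_congr rfl fun x _ => hβ x m
  exact h1 ⟨x, hx, rfl⟩

/-- FLA. -/
theorem fla : FlaStmt := by
  intro hQke hAbq hQtr ℓ _ F V E _ _ _ _ _ φ E1 Y B Q β s lam j hV hE1 hCP hABr hFrm hPS hBQ hRz
    hj hjj h1j
  obtain ⟨q, hqa, -, hbe⟩ := hAbq hQke ℓ F V Y B Q β s hV hABr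
  have hβ1 : β 1 = 1 := by
    rw [← map_one Y.ι, hABr.cov, map_one]
  have hVQ : ∀ v, Y.ι v ∈ Fx (cj F Y.ι) Q := fun v =>
    fx_of_com fun w _ => by rw [← map_mul, ← map_mul, mul_comm]
  have hjQ : j ∈ Fx (cj F Y.ι) Q := fun v _ => hj v (Subgroup.mem_top v)
  refine ⟨?_, ?_, ?_, fun e => ?_, ?_, ?_, ?_⟩
  · have h1 := H92.qfm H49d.bki ℓ F V Y.A B.A Y.ι Q q _ lam hV hqa hPS hFrm
    rwa [hbe] at h1
  · have h1 := qpe ℓ F V E Y.A B.A φ E1 Y.ι Q q hV hE1 hqa hPS
    rwa [hbe] at h1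
  · refine hQtr ℓ F V Y B (IA.gr F V) Q ⊤ hV hCP ⟨β, s, hABr⟩ ?_
    rw [sup_top_eq]
    exact hBQ
  · obtain ⟨y, hy⟩ := hRz e
    have hc1 : ∀ v ∈ Q, Y.ι v * (y : Y.A) = y * Y.ι v := by
      intro v hv
      rw [hy v, (hE1 e).1 e.2 v hv]
    have hc2 : ∀ v ∈ Q, Y.ι v * ((y⁻¹ : Y.Aˣ) : Y.A) = ((y⁻¹ : Y.Aˣ) : Y.A) * Y.ι v := by
      intro v hv
      have h1 : ((y⁻¹ : Y.Aˣ) : Y.A) * (Y.ι v * (y : Y.A)) * ((y⁻¹ : Y.Aˣ) : Y.A) =
          ((y⁻¹ : Y.Aˣ) : Y.A) * ((y : Y.A) * Y.ι v) * ((y⁻¹ : Y.Aˣ) : Y.A) := by rw [hc1 v hv]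
      rw [← mul_assoc, ← mul_assoc, Units.inv_mul, one_mul, mul_assoc, mul_assoc,
        Units.mul_inv, mul_one] at h1
      exact h1.symm
    have hf1 : (y : Y.A) ∈ Fx (cj F Y.ι) Q := fx_of_com hc1
    have hf2 : ((y⁻¹ : Y.Aˣ) : Y.A) ∈ Fx (cj F Y.ι) Q := fx_of_com hc2
    refine ⟨β y, β ((y⁻¹ : Y.Aˣ) : Y.A), ?_, ?_, fun u => ?_⟩
    · rw [← hABr.mul _ hf1 _ hf2, Units.mul_inv, hβ1]
    · rw [← hABr.mul _ hf2 _ hf1, Units.inv_mul, hβ1]
    · rw [← hABr.cov, ← hABr.mul _ hf1 _ (hVQ u), hy u, hABr.mul _ (hVQ _) _ hf1, hABr.cov]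
      rfl
  · intro v hv
    rw [← hABr.eb, hj v hv]
  · rw [← hABr.mul _ hjQ _ hjQ, hjj]
  · rw [← hβ1, ← map_sub]
    exact map_BK _ _ _ β hABr.eb h1j

end Pool.Agent.PFE.H29
end
end -- Pool.Agent.Helper29_PFE.FLA

section -- Pool.Agent.Helper32_PFC.QTJ

/-!
# PFC, block B4b, row QTJ: a unit which realises `σ` in the corner
-/

open scoped BigOperators TensorProduct

noncomputable section

namespace Pool.Agent.PFC.H32

section

variable {F V : Type} [Field F] [CommGroup V] {X : IA F V}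

theorem fx_iff (x : X.A) : x ∈ Fx (cj F X.ι) ⊤ ↔ ∀ v, X.ι v * x = x * X.ι v := by
  constructor
  · intro h v
    have h1 : X.ι v * (x * X.ι v⁻¹) = x := h v (Subgroup.mem_top v)
    calc X.ι v * x = X.ι v * (x * X.ι v⁻¹) * X.ι v := by
          rw [mul_assoc, mul_assoc, ← map_mul, inv_mul_cancel, map_one, mul_one]
      _ = x * X.ι v := by rw [h1]
  · intro h v _
    change X.ι v * (x * X.ι v⁻¹) = x
    rw [← mul_assoc, h, mul_assoc, ← map_mul, mul_inv_cancel, map_one, mul_one]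

/-- conjugation with a unit which realises an automorphism -/
theorem fx_conj {σ : MulAut V} {y : X.Aˣ} (hy : ∀ v, (y : X.A) * X.ι v = X.ι (σ v) * y)
    {x : X.A} (hx : x ∈ Fx (cj F X.ι) ⊤) : (y : X.A) * x * ↑y⁻¹ ∈ Fx (cj F X.ι) ⊤ := by
  rw [fx_iff] at hx ⊢
  intro v
  have h1 : X.ι v * (y : X.A) = y * X.ι (σ⁻¹ v) := by
    rw [hy, MulAut.apply_inv_self]
  have h2 : X.ι (σ⁻¹ v) * (↑y⁻¹ : X.A) = ↑y⁻¹ * X.ι v := by
    rw [Units.eq_inv_mul_iff_mul_eq, ← mul_assoc, Units.mul_inv_eq_iff_eq_mul, h1]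
  rw [← mul_assoc, ← mul_assoc, h1, mul_assoc (y : X.A), hx, ← mul_assoc, mul_assoc _ _ (↑y⁻¹ : X.A),
    h2, ← mul_assoc]

theorem inv_real {σ : MulAut V} {y : X.Aˣ} (hy : ∀ v, (y : X.A) * X.ι v = X.ι (σ v) * y) :
    ∀ v, ((y⁻¹ : X.Aˣ) : X.A) * X.ι v = X.ι (σ⁻¹ v) * ((y⁻¹ : X.Aˣ) : X.A) := by
  intro v
  have h1 : X.ι v * (y : X.A) = y * X.ι (σ⁻¹ v) := by
    rw [hy, MulAut.apply_inv_self]
  rw [Units.inv_mul_eq_iff_eq_mul, ← mul_assoc, ← h1, Units.mul_inv_cancel_right]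

end

/-- QTJ -/
theorem qtj (hQcx : QcxStmt) (hQlu : QluStmt) : QtjStmt := by
  intro ℓ _ F V _ _ _ _ X X' b j κ σ hp hbq hb hj hκ ⟨y, hy⟩
  have hyi := inv_real hy
  obtain ⟨b', hb'⟩ : ∃ b' : X.A →ₗ[F] F, ∀ a, b' a = b ((y : X.A) * a * ↑y⁻¹) :=
    ⟨b ∘ₗ (LinearMap.mulRight F (↑y⁻¹ : X.A)) ∘ₗ (LinearMap.mulLeft F (y : X.A)), fun a => rfl⟩
  have hcb' : Chr X b' := by
    refine ⟨?_, ?_, ?_⟩
    · rw [hb', mul_one, Units.mul_inv, hb.one]
    · intro x hx z hz
      rw [hb', hb', hb', ← hb.mul _ (fx_conj hy hx) _ (fx_conj hy hz)]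
      congr 1
      simp only [mul_assoc, Units.inv_mul_cancel_left]
    · intro v a
      rw [hb', hb', ← hb.inv (σ v) ((y : X.A) * a * ↑y⁻¹)]
      congr 1
      change (y : X.A) * (X.ι v * (a * X.ι v⁻¹)) * ↑y⁻¹ =
        X.ι (σ v) * ((y : X.A) * a * ↑y⁻¹ * X.ι (σ v)⁻¹)
      have h1 : (↑y⁻¹ : X.A) * X.ι (σ v)⁻¹ = X.ι v⁻¹ * ↑y⁻¹ := by
        rw [← map_inv, hyi, MulAut.inv_apply_self]
      rw [mul_assoc ((y : X.A) * a), h1, ← mul_assoc (y : X.A), hy]
      simp only [mul_assoc]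
  have hbb := (hQcx ℓ F V X hp hbq).2 b b' hb hcb'
  have hloc : Loc X b ((y : X.A) * j * ↑y⁻¹) := by
    refine ⟨fx_conj hy hj.fx, ?_, ?_, ?_⟩
    · rw [← mul_assoc, ← mul_assoc, Units.inv_mul_cancel_right, mul_assoc (y : X.A) j j, hj.id]
    · rw [← hb', ← hbb j hj.fx, hj.bj]
    · intro x hx h0
      have h1 : (y : X.A) * j * ↑y⁻¹ * x * ((y : X.A) * j * ↑y⁻¹) =
          y * (j * (↑y⁻¹ * x * y) * j) * ↑y⁻¹ := by
        simp only [mul_assoc]
      have h2 : (↑y⁻¹ : X.A) * x * y ∈ Fx (cj F X.ι) ⊤ := by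
        have h3 := fx_conj hyi hx
        rw [inv_inv] at h3
        exact h3
      have h3 : j * (↑y⁻¹ * x * y) * j ∈ Fx (cj F X.ι) ⊤ := by
        rw [fx_iff] at h2 ⊢
        have h4 := (fx_iff j).1 hj.fx
        intro v
        rw [← mul_assoc, ← mul_assoc, h4, mul_assoc j, h2, ← mul_assoc j, mul_assoc _ _ j, h4,
          ← mul_assoc]
      rw [h1, ← hb', ← hbb _ h3] at h0
      obtain ⟨n, hn⟩ := hj.nil _ h2 h0
      refine ⟨n, ?_⟩
      rw [h1, Units.conj_pow, hn, mul_zero, zero_mul]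
  obtain ⟨u, hu, huj⟩ := hQlu F V X b _ j hb hloc hj
  have hzj : ((u * y : X.Aˣ) : X.A) * j = j * ((u * y : X.Aˣ) : X.A) := by
    rw [Units.val_mul, ← mul_assoc, ← huj]
    simp only [mul_assoc, Units.inv_mul, mul_one]
  have hzv : ∀ v, ((u * y : X.Aˣ) : X.A) * X.ι v = X.ι (σ v) * ((u * y : X.Aˣ) : X.A) := by
    intro v
    rw [Units.val_mul, mul_assoc, hy, ← mul_assoc, hu, mul_assoc]
  obtain ⟨z, hz⟩ : ∃ z, z = u * y := ⟨_, rfl⟩
  rw [← hz] at hzj hzv
  have hzj' : ((z⁻¹ : X.Aˣ) : X.A) * j = j * ((z⁻¹ : X.Aˣ) : X.A) := by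
    rw [Units.inv_mul_eq_iff_eq_mul, ← mul_assoc, hzj, Units.mul_inv_cancel_right]
  obtain ⟨w, hw⟩ := hκ.ran (z * j) (by rw [← mul_assoc, ← hzj, mul_assoc, hj.id])
    (by rw [mul_assoc, hj.id])
  obtain ⟨w', hw'⟩ := hκ.ran (↑z⁻¹ * j) (by rw [← mul_assoc, ← hzj', mul_assoc, hj.id])
    (by rw [mul_assoc, hj.id])
  have h1 : w * w' = 1 := by
    apply hκ.inj
    rw [hκ.mul, hw, hw', hκ.one, hzj', ← mul_assoc, mul_assoc (z : X.A), hj.id, hzj,
      Units.mul_inv_cancel_right]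
  have h2 : w' * w = 1 := by
    apply hκ.inj
    rw [hκ.mul, hw, hw', hκ.one, hzj, ← mul_assoc, mul_assoc _ j j, hj.id, hzj',
      Units.inv_mul_cancel_right]
  refine ⟨⟨w, w', h1, h2⟩, fun v => ?_⟩
  change w * X'.ι v = X'.ι (σ v) * w
  apply hκ.inj
  rw [hκ.mul, hκ.mul, hκ.cov, hκ.cov, hw]
  calc (z : X.A) * j * (X.ι v * j) = z * X.ι v * j := by
        rw [hκ.com v, mul_assoc, ← mul_assoc j j, hj.id, ← hκ.com v, ← mul_assoc]
    _ = X.ι (σ v) * z * j := by rw [hzv]
    _ = X.ι (σ v) * j * (z * j) := by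
        rw [mul_assoc _ j, ← mul_assoc j, ← hzj, mul_assoc (z : X.A), hj.id, mul_assoc]

end Pool.Agent.PFC.H32
end
end -- Pool.Agent.Helper32_PFC.QTJ

section -- Pool.Agent.Helper32_PFE.FLZ

/-!
# Squad PFE, row FLZ (helper32): the centre of `B = Y(Q)`, `Y = N ⊗ X`
-/

set_option autoImplicit false

open scoped BigOperators TensorProduct

noncomputable section

namespace Pool.Agent.PFE.H32

open Pool.Agent.PFC Pool.Agent.PFC.B5a Pool.Agent.PFE Pool.Agent.PFE.S

theorem flz : FlzStmt := by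
  intro hqke habq hqal hqte hqun hzmx hlcn
  intro ℓ _ F V _ _ _ _ _ N N1 X B Q P hpg hcp hps htp hloc hmx hN hB z hz
  obtain ⟨βN, sN, hN⟩ := hN
  obtain ⟨βB, sB, hB⟩ := hB
  obtain ⟨X1, βX, sX, hX⟩ := hqal ℓ F V X hpg hcp Q
  have hT := hqte ℓ F V N N1 X X1 Q βN sN βX sX hpg hN hX
  obtain ⟨e0, -, -⟩ := hqun ℓ F V (N.tens X) B (N1.tens X1) Q βB sB _ _ hpg hB hT
  obtain ⟨e, -⟩ : ∃ _ : B.A ≃ₐ[F] N1.A ⊗[F] X1.A, True := ⟨e0, trivial⟩
  obtain ⟨n, hn, hmat⟩ := hmx
  -- `e z` is central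
  have hez : ∀ a : N1.A ⊗[F] X1.A, e z * a = a * e z := by
    intro a
    obtain ⟨b, hb⟩ := e.surjective a
    have h1 : e (z * b) = e (b * z) := by rw [hz b]
    rw [map_mul, map_mul] at h1
    rw [← hb]
    exact h1
  obtain ⟨c, hc, hec⟩ := (hzmx F N1.A X1.A n hn hmat).1 (e z) hez
  obtain ⟨q, hq, -, hbe⟩ := habq hqke ℓ F V X X1 Q βX sX hpg hX
  have hl := (H83.qtpa H49d.bki H70.qfc ℓ F V X.A X1.A X.ι Q q P hpg hq hps htp hloc).2
  rw [hbe] at hl
  have hcm : c ∈ Cz F X1.ι ⊤ := by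
    rw [Cz, Subalgebra.mem_centralizer_iff]
    intro g _
    exact (hc g).symm
  have key : IsUnit c ∨ IsNilpotent c := by
    rcases (hlcn F (Cz F X1.ι ⊤) hl).1 ⟨c, hcm⟩ with h | h
    · left
      exact h.map (Cz F X1.ι ⊤).val
    · right
      exact h.map (Cz F X1.ι ⊤).val
  have hz1 : z = e.symm (1 ⊗ₜ[F] c : N1.A ⊗[F] X1.A) := by
    rw [← hec]
    exact (e.symm_apply_apply z).symm
  have hz2 : z = e.symm ((Algebra.TensorProduct.includeRight : X1.A →ₐ[F] N1.A ⊗[F] X1.A) c) := by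
    rw [Algebra.TensorProduct.includeRight_apply]
    exact hz1
  rcases key with h | h
  · left
    rw [hz2]
    exact (h.map (Algebra.TensorProduct.includeRight : X1.A →ₐ[F] N1.A ⊗[F] X1.A)).map e.symm
  · right
    rw [hz2]
    exact (h.map (Algebra.TensorProduct.includeRight : X1.A →ₐ[F] N1.A ⊗[F] X1.A)).map e.symm

end Pool.Agent.PFE.H32
end
end -- Pool.Agent.Helper32_PFE.FLZ

section -- Pool.Agent.Helper34_PFC.QSP

/-!
Row QSP of squad PFC, block B4b: from BQ to the spanning form (helper34).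
-/

open scoped BigOperators TensorProduct

noncomputable section

namespace Pool.Agent.PFC.H34

open Pool.Agent.PFC

theorem gr_eval {F V : Type} [Field F] [CommGroup V] [Fintype V] (c : V → F) (w : V) :
    (∑ u, c u • (MonoidAlgebra.of F V u) : MonoidAlgebra F V).coeff w = c w := by
  classical
  rw [MonoidAlgebra.coeff_sum, Finsupp.finsetSum_apply, Finset.sum_eq_single w]
  · simp [MonoidAlgebra.of_apply]
  · intro b _ hb
    simp [MonoidAlgebra.of_apply, hb]
  · intro h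
    exact absurd (Finset.mem_univ w) h

theorem gr_sum {F V : Type} [Field F] [CommGroup V] [Fintype V] (y : MonoidAlgebra F V) :
    ∑ u, y.coeff u • (MonoidAlgebra.of F V u) = y := by
  classical
  apply MonoidAlgebra.coeff_injective
  ext w
  exact gr_eval _ w

theorem iota_fix {F V : Type} [Field F] [CommGroup V] (X : IA F V) (R : Subgroup V) (u : V) :
    X.ι u ∈ Fx (cj F X.ι) R := by
  intro w _
  have h1 : cj F X.ι w (X.ι u) = X.ι w * (X.ι u * X.ι w⁻¹) := rfl
  rw [h1, ← map_mul, ← map_mul]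
  congr 1
  rw [mul_comm u, mul_inv_cancel_left]

theorem qsp (hk : QkeStmt) : QspStmt := by
  classical
  intro ℓ _ F V _ _ _ _ X R hV hBQ
  obtain ⟨β, s, hA⟩ := hBQ
  obtain ⟨-, h2, -⟩ := hk ℓ F V X.A (IA.gr F V).A (cj F X.ι) (cj F (IA.gr F V).ι) R β s hV
    hA.toBrS
  have hsum : ∀ c : V → F, ∑ u, c u • X.ι u ∈ Fx (cj F X.ι) R := by
    intro c
    exact Submodule.sum_mem _ (fun u _ => Submodule.smul_mem _ _ (iota_fix X R u))
  have hb : ∀ c : V → F, β (∑ u, c u • X.ι u) = ∑ u, c u • (MonoidAlgebra.of F V u) := by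
    intro c
    rw [map_sum]
    refine Finset.sum_congr rfl ?_
    intro u _
    rw [map_smul, hA.cov]
    rfl
  refine ⟨?_, ?_⟩
  · intro a ha
    refine ⟨fun u => (β a : MonoidAlgebra F V).coeff u, ?_⟩
    refine (h2 _ (Submodule.sub_mem _ ha (hsum _))).1 ?_
    rw [map_sub, hb, sub_eq_zero]
    exact (gr_sum (β a : MonoidAlgebra F V)).symm
  · intro c hc
    have h3 := (h2 _ (hsum c)).2 hc
    rw [hb] at h3
    funext w
    rw [← gr_eval c w, h3]
    rfl

end Pool.Agent.PFC.H34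
end
end -- Pool.Agent.Helper34_PFC.QSP

section -- Pool.Agent.Helper39_PFC.Qmt

/-! Rows QMT and SPV of block B5a of squad PFC. -/

set_option autoImplicit false

open scoped BigOperators

noncomputable section

namespace Pool.Agent.PFC.B5a

theorem qmt : QmtStmt := by
  intro F V A B _ _ _ _ _ _ _ _ α Q q n π hq hl
  classical
  let s : B → Cz F α Q := Function.surjInv hq.sur
  have hs : ∀ b, q (s b) = b := fun b => Function.surjInv_eq hq.sur b
  have hker : ∀ a a' : Cz F α Q, q a = q a' → π a = π a' := by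
    intro a a' h
    have h0 : q (a - a') = 0 := by rw [map_sub, h, sub_self]
    have h1 := hl.bk (a - a') ((hq.ker _).1 h0)
    rw [map_sub] at h1
    exact sub_eq_zero.1 h1
  let π' : B →ₐ[F] Matrix (Fin n) (Fin n) F :=
    { toFun := fun b => π (s b)
      map_one' := by
        rw [hker (s 1) 1 (by rw [hs, map_one]), map_one]
      map_mul' := by
        intro x y
        rw [hker (s (x * y)) (s x * s y) (by rw [hs, map_mul, hs, hs]), map_mul]
      map_zero' := by
        rw [hker (s 0) 0 (by rw [hs, map_zero]), map_zero]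
      map_add' := by
        intro x y
        rw [hker (s (x + y)) (s x + s y) (by rw [hs, map_add, hs, hs]), map_add]
      commutes' := by
        intro r
        rw [hker (s (algebraMap F B r)) (algebraMap F _ r) (by rw [hs, AlgHom.commutes]),
          AlgHom.commutes] }
  have hπ : ∀ a, π' (q a) = π a := fun a => hker _ _ (hs (q a))
  refine ⟨π', hπ, ?_, ?_, ?_⟩
  · intro x
    obtain ⟨a, ha⟩ := hl.sur x
    exact ⟨q a, by rw [hπ, ha]⟩
  · exact Module.Finite.of_surjective q.toLinearMap hq.sur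
  · intro b hb
    obtain ⟨a, rfl⟩ := hq.sur b
    rw [hπ] at hb
    obtain ⟨N, hN⟩ := hl.nil a hb
    refine ⟨N, ?_⟩
    rw [← map_pow]
    apply (hq.ker _).2
    rw [SubmonoidClass.coe_pow]
    exact hN

theorem spv : SpvStmt := by
  intro hfvt homz htrs hbki hfdb hcug hcas huns hqfr halv ℓ _ F V B _ _ _ _ _ _ _ β n π hV hB
  classical
  have := hB.fin
  obtain ⟨lam, hlam⟩ := hB.frm
  have hsum : (∑ᶠ w : (⊤ : Subgroup V), β w) = ∑ u, β u := by
    rw [finsum_eq_sum_of_fintype]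
    exact (Subgroup.topEquiv (G := V)).toEquiv.sum_comp (fun u => β u)
  obtain ⟨c', hc'⟩ := hcug hfvt ℓ F V B β lam ⊤ hlam.sym inferInstance
    (by
      intro h
      obtain ⟨u, hu⟩ := exists_ne (1 : V)
      have h1 : u ∈ (⊤ : Subgroup V) := Subgroup.mem_top u
      rw [h, Subgroup.mem_bot] at h1
      exact hu h1)
    (hV.to_subgroup ⊤) (fun a _ b _ => mul_comm a b)
    (fun t ht => absurd (Subgroup.mem_top t) ht)
    (by rw [hsum]; exact hlam.nz)
  obtain ⟨q, hq1, hq2, Ω, _, _, b, c, hqf⟩ := hqfr ℓ F V B β lam c' hV hlam hc' hB.ps hB.top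
  obtain ⟨al, hal, hal2⟩ := halv homz htrs F V B β lam q Ω b c hlam hqf
  obtain ⟨m, d, d', hd, -⟩ := hfdb F B lam hlam.sym hlam.nd
  have hcsm := hcas F V B β lam c' al m d d' hlam.sym hlam.nd hc'
    (fun x => by rw [hal, hq1]) hd
  refine huns hbki F V V B β β (Option (Fin m)) _ _ c' (Ee F β lam 1) hcsm ?_ hc'.lin hc'.rin
    hc'.com hB.loc ?_
  · rw [Fintype.sum_option]
    simp only [Option.elim]
    rw [mul_one, add_sub_cancel_left]
    exact hal2 m d d' hd
  · intro h1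
    have h2 : ∑ u, (fun u : V => if u = 1 then (1 : F) else 0) u • β u = 1 := by
      rw [Finset.sum_eq_single (1 : V)]
      · simp
      · intro u _ hu
        simp [hu]
      · intro h
        exact absurd (Finset.mem_univ _) h
    have h3 := hB.top.free (fun u : V => if u = 1 then (1 : F) else 0) (by rw [h2]; exact h1)
    have h4 := congrFun h3 1
    simp at h4

end Pool.Agent.PFC.B5a
end
end -- Pool.Agent.Helper39_PFC.Qmt

section -- Pool.Agent.Helper3_PFC.QLR

/-!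
# Squad PFC, row QLR: a balanced product has the trivial summand
-/

open scoped BigOperators TensorProduct

noncomputable section

namespace Pool.Agent.PFC.H3

theorem qlr (hP : QlpStmt) (hI : QisStmt) (hE : QreStmt) (hT : QrtStmt) : QlrStmt := by
  intro F V ι _ _ _ _ S L
  obtain ⟨-, isym, itr, -, -, -, iret, -, -, -, iassoc, -⟩ := hI F V
  generalize hn : L.length = n
  induction n using Nat.strong_induction_on generalizing L with
  | _ n ih =>
  intro hL hb
  match L, hn with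
  | [], _ => exact (hT F V).2
  | (Q, ε) :: L₁, hn =>
    have hne : (Q, !ε) ≠ (Q, ε) := by
      intro h
      have h1 := congrArg Prod.snd h
      cases ε <;> simp at h1
    have hcount : ∀ (L' : List (ι × Bool)), (∀ Q, L'.count (Q, true) = L'.count (Q, false)) →
        ∀ Q b, L'.count (Q, !b) = L'.count (Q, b) := by
      intro L' h Q b
      cases b
      · exact h Q
      · exact (h Q).symm
    have hmem : (Q, !ε) ∈ L₁ := by
      have h1 : 0 < ((Q, ε) :: L₁).count (Q, !ε) := by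
        rw [hcount _ hb Q ε]
        simp
      rcases List.mem_cons.1 (List.count_pos_iff.1 h1) with h2 | h2
      · exact absurd h2 hne
      · exact h2
    have hp : ((Q, ε) :: L₁).Perm ((Q, true) :: (Q, false) :: L₁.erase (Q, !ε)) := by
      have h1 : L₁.Perm ((Q, !ε) :: L₁.erase (Q, !ε)) := List.perm_cons_erase hmem
      cases ε
      · exact (List.Perm.cons _ h1).trans (List.Perm.swap _ _ _)
      · exact List.Perm.cons _ h1
    have hb2 : ∀ Q', (L₁.erase (Q, !ε)).count (Q', true) = (L₁.erase (Q, !ε)).count (Q', false) := by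
      intro Q'
      have h1 := hb Q'
      rw [hp.count_eq, hp.count_eq] at h1
      by_cases hq : Q' = Q
      · subst hq
        simp [List.count_cons] at h1
        exact h1
      · have h2 : Q ≠ Q' := fun h => hq h.symm
        simp [List.count_cons, h2] at h1
        exact h1
    have hlen : (L₁.erase (Q, !ε)).length < n := by
      have h1 := hp.length_eq
      simp only [List.length_cons] at h1
      simp only [List.length_cons] at hn
      omega
    have hsub : ∀ p ∈ L₁.erase (Q, !ε), Mx (S p.1) ∧ (Module.finrank F (S p.1).A : F) ≠ 0 := by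
      intro p hp'
      exact hL p (List.mem_cons_of_mem _ (List.mem_of_mem_erase hp'))
    have r1 := ih _ hlen (L₁.erase (Q, !ε)) rfl hsub hb2
    have r2 := hL (Q, ε) (List.mem_cons_self ..)
    have r3 := (hT F V).1 _ _ (hE F V (S Q) r2.1 r2.2) r1
    have r4 := hP F V ι S _ _ hp
    refine iret _ _ (isym _ _ r4) ?_
    exact iret _ _ (iassoc (S Q) (S Q).op (prd S (L₁.erase (Q, !ε)))) r3

end Pool.Agent.PFC.H3
end
end -- Pool.Agent.Helper3_PFC.QLR

section -- Pool.Agent.Helper56_PFE.TWL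

/-!
# Squad PFE, row TWL: twisted fixed points and traces, formal rules
-/

set_option autoImplicit false

open scoped BigOperators TensorProduct

noncomputable section

namespace Pool.Agent.PFE.H56

open Pool.Agent.PFC Pool.Agent.PFE

section one

variable {F V V1 A : Type} [Field F] [CommGroup V] [CommGroup V1] [Fintype V1] [Ring A]
  [Algebra F A] (α : V →* A) (i : V1 →* V)

theorem tj_apply (σ : MulAut V1) (v : V1) (a : A) :
    tj F α i σ v a = α (i v) * (a * α (i (σ v))⁻¹) := rfl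

theorem mul_inv' (x : V) : α x * α x⁻¹ = 1 := by
  rw [← map_mul, mul_inv_cancel, map_one]

theorem inv_mul' (x : V) : α x⁻¹ * α x = 1 := by
  rw [← map_mul, inv_mul_cancel, map_one]

theorem mem_Nt (σ : MulAut V1) (a : A) :
    a ∈ Nt F α i σ ↔ ∀ v, α (i v) * a = a * α (i (σ v)) := by
  constructor
  · intro h v
    have h1 : α (i v) * (a * α (i (σ v))⁻¹) = a := h v trivial
    calc α (i v) * a = α (i v) * (a * (α (i (σ v))⁻¹ * α (i (σ v)))) := by
          rw [inv_mul', mul_one]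
      _ = α (i v) * (a * α (i (σ v))⁻¹) * α (i (σ v)) := by simp only [mul_assoc]
      _ = a * α (i (σ v)) := by rw [h1]
  · intro h v _
    change α (i v) * (a * α (i (σ v))⁻¹) = a
    rw [← mul_assoc, h v, mul_assoc, mul_inv', mul_one]

theorem Tr_apply (σ : MulAut V1) (a : A) : Tr F α i σ a = ∑ v, tj F α i σ v a := by
  unfold Tr
  rw [LinearMap.sum_apply]

theorem Tr_mem (σ : MulAut V1) (a : A) : Tr F α i σ a ∈ Nt F α i σ := by
  intro w _
  rw [Tr_apply, map_sum]
  have h : ∀ v, tj F α i σ w (tj F α i σ v a) = tj F α i σ (w * v) a := by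
    intro v
    rw [map_mul]
    rfl
  simp only [h]
  exact Equiv.sum_comp (Equiv.mulLeft w) fun v => tj F α i σ v a

theorem inv_left (τ : MulAut V1) (b : A) (hb : b ∈ Nt F α i τ) (v : V1) :
    α (i v)⁻¹ * b = b * α (i (τ v))⁻¹ := by
  have h := (mem_Nt α i τ b).1 hb v⁻¹
  rwa [map_inv i, map_inv τ, map_inv i] at h

theorem mul_Tr (σ τ : MulAut V1) (a m : A) (ha : a ∈ Nt F α i σ) :
    a * Tr F α i τ m = Tr F α i (τ * σ) (a * m) := by
  rw [Tr_apply, Tr_apply, Finset.mul_sum, ← Equiv.sum_comp σ.toEquiv]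
  refine Finset.sum_congr rfl fun v _ => ?_
  have h := (mem_Nt α i σ a).1 ha v
  change a * (α (i (σ v)) * (m * α (i (τ (σ v)))⁻¹)) = α (i v) * (a * m * α (i (τ (σ v)))⁻¹)
  rw [← mul_assoc, ← h, mul_assoc, mul_assoc]

theorem Tr_mul (σ τ : MulAut V1) (m b : A) (hb : b ∈ Nt F α i τ) :
    Tr F α i σ m * b = Tr F α i (τ * σ) (m * b) := by
  rw [Tr_apply, Tr_apply, Finset.sum_mul]
  refine Finset.sum_congr rfl fun v _ => ?_
  change α (i v) * (m * α (i (σ v))⁻¹) * b = α (i v) * (m * b * α (i (τ (σ v)))⁻¹)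
  have h := inv_left α i τ b hb (σ v)
  simp only [mul_assoc]
  rw [h]

end one

section two

variable {F V V1 : Type} [Field F] [CommGroup V] [CommGroup V1] [Fintype V1] (N X : IA F V)
  (i : V1 →* V) (σ : MulAut V1)

theorem tj_tens : tj F (N.tens X).ι i σ = tns (tj F N.ι i σ) (tj F X.ι i σ) := by
  refine MonoidHom.ext fun v => ?_
  refine TensorProduct.ext' fun a x => ?_
  change (N.ι (i v) ⊗ₜ[F] X.ι (i v)) *
    ((a ⊗ₜ[F] x) * (N.ι (i (σ v))⁻¹ ⊗ₜ[F] X.ι (i (σ v))⁻¹)) =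
    (N.ι (i v) * (a * N.ι (i (σ v))⁻¹)) ⊗ₜ[F] (X.ι (i v) * (x * X.ι (i (σ v))⁻¹))
  rw [Algebra.TensorProduct.tmul_mul_tmul, Algebra.TensorProduct.tmul_mul_tmul]

theorem tj_tens_apply (v : V1) (a : N.A) (x : X.A) :
    tj F (N.tens X).ι i σ v (a ⊗ₜ[F] x : N.A ⊗[F] X.A) =
      (tj F N.ι i σ v a ⊗ₜ[F] tj F X.ι i σ v x : N.A ⊗[F] X.A) := by
  rw [tj_tens]
  rfl

theorem mem_tens (a : N.A) (x : X.A) (ha : a ∈ Nt F N.ι i σ) (hx : x ∈ Nt F X.ι i σ) :
    (a ⊗ₜ[F] x : N.A ⊗[F] X.A) ∈ Nt F (N.tens X).ι i σ := by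
  intro v hv
  have h1 : tj F N.ι i σ v a = a := ha v hv
  have h2 : tj F X.ι i σ v x = x := hx v hv
  rw [tj_tens_apply, h1, h2]

theorem Tr_tens_left (a : N.A) (x : X.A) (ha : a ∈ Nt F N.ι i σ) :
    Tr F (N.tens X).ι i σ (a ⊗ₜ[F] x : N.A ⊗[F] X.A) =
      (a ⊗ₜ[F] Tr F X.ι i σ x : N.A ⊗[F] X.A) := by
  rw [Tr_apply, Tr_apply]
  refine Eq.trans (Finset.sum_congr rfl fun v _ => ?_) (TensorProduct.tmul_sum a _ _).symm
  have h1 : tj F N.ι i σ v a = a := ha v trivial
  rw [tj_tens_apply, h1]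

theorem Tr_tens_right (a : N.A) (x : X.A) (hx : x ∈ Nt F X.ι i σ) :
    Tr F (N.tens X).ι i σ (a ⊗ₜ[F] x : N.A ⊗[F] X.A) =
      (Tr F N.ι i σ a ⊗ₜ[F] x : N.A ⊗[F] X.A) := by
  rw [Tr_apply, Tr_apply]
  refine Eq.trans (Finset.sum_congr rfl fun v _ => ?_) (TensorProduct.sum_tmul _ _ x).symm
  have h1 : tj F X.ι i σ v x = x := hx v trivial
  rw [tj_tens_apply, h1]

end two

/-- TWL. -/
theorem twl : Pool.Agent.PFE.S.TwlStmt := by
  refine ⟨?_, ?_⟩
  · intro F V V1 A _ _ _ _ _ _ α i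
    refine ⟨mem_Nt α i, ?_, ?_, ?_, Tr_mem α i, ?_, ?_⟩
    · intro σ τ a b ha hb
      rw [mem_Nt] at ha hb ⊢
      intro v
      rw [← mul_assoc, ha v, mul_assoc, hb (σ v), mul_assoc]
      rfl
    · rw [mem_Nt]
      intro v
      rw [mul_one, one_mul]
      rfl
    · intro σ v a ha
      rw [mem_Nt] at ha
      constructor
      · rw [mem_Nt]
        intro w
        rw [← mul_assoc, ← map_mul, mul_comm, map_mul, mul_assoc, ha w, mul_assoc]
      · rw [mem_Nt]
        intro w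
        rw [← mul_assoc, ha w, mul_assoc, mul_assoc, ← map_mul, ← map_mul, mul_comm]
    · intro σ τ a m ha
      exact mul_Tr α i σ τ a m ha
    · intro σ τ m b hb
      exact Tr_mul α i σ τ m b hb
  · intro F V V1 _ _ _ _ N X i σ
    exact ⟨tj_tens N X i σ, fun a x ha hx => mem_tens N X i σ a x ha hx,
      fun a x ha => Tr_tens_left N X i σ a x ha, fun a x hx => Tr_tens_right N X i σ a x hx⟩

end Pool.Agent.PFE.H56
end
end -- Pool.Agent.Helper56_PFE.TWL

section -- Pool.Agent.Helper64_PFE.SGC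

/-!
# Squad PFE, block S, row SGC (helper64): the graded algebra of a corner
-/

set_option autoImplicit false

open scoped BigOperators TensorProduct

noncomputable section

namespace Pool.Agent.PFE.H64

open Pool.Agent.PFC Pool.Agent.PFE Pool.Agent.PFE.S

section corner

variable {F A : Type} [Field F] [Ring A] [Algebra F A]

/-- the corner `j A j` as a subspace -/
def crn (F : Type) {A : Type} [Field F] [Ring A] [Algebra F A] (j : A) : Submodule F A where
  carrier := {a | j * a = a ∧ a * j = a}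
  add_mem' := by
    rintro a b ⟨h1, h2⟩ ⟨h3, h4⟩
    exact ⟨by rw [mul_add, h1, h3], by rw [add_mul, h2, h4]⟩
  zero_mem' := ⟨mul_zero _, zero_mul _⟩
  smul_mem' := by
    rintro c a ⟨h1, h2⟩
    exact ⟨by rw [mul_smul_comm, h1], by rw [smul_mul_assoc, h2]⟩

theorem crn_mul {j a b : A} (ha : a ∈ crn F j) (hb : b ∈ crn F j) : a * b ∈ crn F j :=
  ⟨by rw [← mul_assoc, ha.1], by rw [mul_assoc, hb.2]⟩

/-- the ring structure of the corner -/
@[reducible] def crnRing (j : A) (hj : j * j = j) : Ring (crn F j) :=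
  { (inferInstance : AddCommGroup (crn F j)) with
    mul := fun a b => ⟨a.1 * b.1, crn_mul a.2 b.2⟩
    one := ⟨j, hj, hj⟩
    mul_assoc := fun a b c => Subtype.ext (mul_assoc a.1 b.1 c.1)
    one_mul := fun a => Subtype.ext a.2.1
    mul_one := fun a => Subtype.ext a.2.2
    left_distrib := fun a b c => Subtype.ext (mul_add a.1 b.1 c.1)
    right_distrib := fun a b c => Subtype.ext (add_mul a.1 b.1 c.1)
    zero_mul := fun a => Subtype.ext (zero_mul a.1)
    mul_zero := fun a => Subtype.ext (mul_zero a.1) }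

end corner

section gr

variable {F V V1 : Type} [Field F] [CommGroup V] [CommGroup V1] [Fintype V1]

theorem tj_ap {A : Type} [Ring A] [Algebra F A] (α : V →* A) (i : V1 →* V) (σ : MulAut V1)
    (v : V1) (a : A) : tj F α i σ v a = α (i v) * (a * α (i (σ v))⁻¹) := rfl

variable {Y Y' : IA F V} {i : V1 →* V} {j : Y.A} {κ : Y'.A →ₗ[F] Y.A}

theorem cor_jj (hC : Cor Y Y' j κ) : j * j = j := by
  rw [← hC.one, ← hC.mul, mul_one]

theorem cor_l (hC : Cor Y Y' j κ) (a : Y'.A) : j * κ a = κ a := by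
  rw [← hC.one, ← hC.mul, one_mul]

theorem cor_r (hC : Cor Y Y' j κ) (a : Y'.A) : κ a * j = κ a := by
  rw [← hC.one, ← hC.mul, mul_one]

theorem cor_il (hC : Cor Y Y' j κ) (v : V) (a : Y'.A) : κ (Y'.ι v * a) = Y.ι v * κ a := by
  rw [hC.mul, hC.cov, mul_assoc, cor_l hC]

theorem cor_ir (hC : Cor Y Y' j κ) (v : V) (a : Y'.A) : κ (a * Y'.ι v) = κ a * Y.ι v := by
  rw [hC.mul, hC.cov, hC.com, ← mul_assoc, cor_r hC]

theorem cor_tj (hC : Cor Y Y' j κ) (σ : MulAut V1) (v : V1) (a : Y'.A) :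
    κ (tj F Y'.ι i σ v a) = tj F Y.ι i σ v (κ a) := by
  rw [tj_ap, tj_ap, cor_il hC, cor_ir hC]

theorem cor_tr (hC : Cor Y Y' j κ) (σ : MulAut V1) (a : Y'.A) :
    κ (Tr F Y'.ι i σ a) = Tr F Y.ι i σ (κ a) := by
  unfold Tr
  rw [LinearMap.sum_apply, LinearMap.sum_apply, map_sum]
  exact Finset.sum_congr rfl (fun v _ => cor_tj hC σ v a)

theorem cor_nt (hC : Cor Y Y' j κ) (σ : MulAut V1) (a : Y'.A) :
    a ∈ Nt F Y'.ι i σ ↔ κ a ∈ Nt F Y.ι i σ := by
  constructor
  · intro h v hv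
    rw [← cor_tj hC, h v hv]
  · intro h v hv
    apply hC.inj
    rw [cor_tj hC, h v hv]

end gr

theorem sgc : SgcStmt := by
  intro hT F V V1 C S _ _ _ _ _ _ _ _ Y Y' i θ q j κ hC hS
  obtain ⟨t1, t2, -, -, -, t6, t7⟩ := hT.1 F V V1 Y.A Y.ι i
  have hjj := cor_jj hC
  have hj1 : j ∈ Nt F Y.ι i 1 := by
    rw [t1]
    intro v
    exact hC.com (i v)
  have hj1' : j ∈ Nt F Y.ι i (θ 1) := by rw [map_one]; exact hj1
  obtain ⟨J, hJ⟩ : ∃ J, J = q 1 j := ⟨_, rfl⟩
  have hJJ : J * J = J := by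
    rw [hJ, ← hS.mul 1 1 j hj1' j hj1', mul_one, hjj]
  have ql : ∀ c, ∀ a ∈ Nt F Y.ι i (θ c), q c (j * a) = J * q c a := by
    intro c a ha
    have := hS.mul 1 c j hj1' a ha
    rw [one_mul] at this
    rw [this, hJ]
  have qr : ∀ c, ∀ a ∈ Nt F Y.ι i (θ c), q c (a * j) = q c a * J := by
    intro c a ha
    have := hS.mul c 1 a ha j hj1'
    rw [mul_one] at this
    rw [this, hJ]
  have njl : ∀ σ, ∀ a ∈ Nt F Y.ι i σ, j * a ∈ Nt F Y.ι i σ := by
    intro σ a ha
    have := t2 1 σ j a hj1 ha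
    rwa [mul_one] at this
  have njr : ∀ σ, ∀ a ∈ Nt F Y.ι i σ, a * j ∈ Nt F Y.ι i σ := by
    intro σ a ha
    have := t2 σ 1 a j ha hj1
    rwa [one_mul] at this
  have qlr : ∀ c, ∀ a ∈ Nt F Y.ι i (θ c), q c (j * a * j) = J * q c a * J := by
    intro c a ha
    rw [qr c _ (njl _ a ha), ql c a ha]
  -- lifting of `j a j`
  have hlift : ∀ a : Y.A, ∃ b : Y'.A, κ b = j * a * j := by
    intro a
    apply hC.ran
    · rw [← mul_assoc, ← mul_assoc, hjj]
    · rw [mul_assoc, hjj]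
  have hliftN : ∀ σ, ∀ a ∈ Nt F Y.ι i σ, ∀ b : Y'.A, κ b = j * a * j → b ∈ Nt F Y'.ι i σ := by
    intro σ a ha b hb
    rw [cor_nt hC, hb]
    exact njr σ _ (njl σ a ha)
  -- the ideals
  have hI1 : ∀ σ, ∀ a ∈ It F Y'.ι i σ, κ a ∈ It F Y.ι i σ := by
    intro σ a ha
    have hle : It F Y'.ι i σ ≤ (It F Y.ι i σ).comap κ := by
      unfold It
      rw [Submodule.span_le]
      rintro x (⟨a, rfl⟩ | ⟨v, a, ha, rfl⟩)
      · refine Submodule.subset_span (Or.inl ⟨κ a, ?_⟩)
        exact cor_tr hC σ a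
      · refine Submodule.subset_span (Or.inr ⟨v, κ a, (cor_nt hC σ a).1 ha, ?_⟩)
        rw [map_sub, cor_il hC]
    exact hle ha
  have hI2 : ∀ σ, ∀ x ∈ It F Y.ι i σ, ∃ b ∈ It F Y'.ι i σ, κ b = j * x * j := by
    intro σ x hx
    have hle : It F Y.ι i σ ≤ ((It F Y'.ι i σ).map κ).comap
        ((LinearMap.mulRight F j).comp (LinearMap.mulLeft F j)) := by
      unfold It
      rw [Submodule.span_le]
      rintro x (⟨a, rfl⟩ | ⟨v, a, ha, rfl⟩)
      · obtain ⟨b, hb⟩ := hlift a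
        refine ⟨Tr F Y'.ι i σ b, Submodule.subset_span (Or.inl ⟨b, rfl⟩), ?_⟩
        change κ (Tr F Y'.ι i σ b) = j * Tr F Y.ι i σ a * j
        rw [cor_tr hC, hb, t6 1 σ j a hj1, mul_one, t7 σ 1 (j * a) j hj1, one_mul]
      · obtain ⟨b, hb⟩ := hlift a
        refine ⟨Y'.ι (i v) * b - b,
          Submodule.subset_span (Or.inr ⟨v, b, hliftN σ a ha b hb, rfl⟩), ?_⟩
        change κ (Y'.ι (i v) * b - b) = j * (Y.ι (i v) * a - a) * j
        rw [map_sub, cor_il hC, hb, mul_sub, sub_mul]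
        congr 1
        rw [← mul_assoc (Y.ι (i v)), ← mul_assoc (Y.ι (i v)), hC.com, mul_assoc j (Y.ι (i v)) a]
    obtain ⟨b, hb, hb2⟩ := hle hx
    exact ⟨b, hb, hb2⟩
  have hI : ∀ σ, ∀ a : Y'.A, κ a ∈ It F Y.ι i σ ↔ a ∈ It F Y'.ι i σ := by
    intro σ a
    refine ⟨fun h => ?_, hI1 σ a⟩
    obtain ⟨b, hb, hb2⟩ := hI2 σ _ h
    rw [cor_l hC, cor_r hC] at hb2
    rwa [← hC.inj hb2]
  -- the corner ring
  let _ : Ring (crn F J) := crnRing (F := F) J hJJ
  let _ : Algebra F (crn F J) := Algebra.ofModule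
    (fun r x y => Subtype.ext (smul_mul_assoc r x.1 y.1))
    (fun r x y => Subtype.ext (mul_smul_comm r x.1 y.1))
  let q' : C → (Y'.A →ₗ[F] crn F J) := fun c =>
    LinearMap.codRestrict (crn F J)
      (((LinearMap.mulRight F J).comp (LinearMap.mulLeft F J)).comp ((q c).comp κ))
      (fun a => ⟨by
        change J * (J * q c (κ a) * J) = J * q c (κ a) * J
        rw [← mul_assoc, ← mul_assoc, hJJ], by
        change (J * q c (κ a) * J) * J = J * q c (κ a) * J
        rw [mul_assoc, hJJ]⟩)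
  have q'v : ∀ c a, (q' c a).1 = J * q c (κ a) * J := fun c a => rfl
  have q'n : ∀ c, ∀ a ∈ Nt F Y'.ι i (θ c), (q' c a).1 = q c (κ a) := by
    intro c a ha
    rw [q'v, ← qlr c (κ a) ((cor_nt hC _ a).1 ha), cor_l hC, cor_r hC]
  have hnt : ∀ c d, ∀ a ∈ Nt F Y'.ι i (θ c), ∀ b ∈ Nt F Y'.ι i (θ d),
      a * b ∈ Nt F Y'.ι i (θ (c * d)) := by
    intro c d a ha b hb
    rw [cor_nt hC, hC.mul]
    have := t2 (θ c) (θ d) (κ a) (κ b) ((cor_nt hC _ a).1 ha) ((cor_nt hC _ b).1 hb)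
    rwa [← map_mul, mul_comm d c] at this
  have hsum : ∀ a : C → Y'.A, ((∑ c, q' c (a c) : crn F J)).1 = ∑ c, (q' c (a c)).1 := by
    intro a
    exact map_sum (crn F J).subtype (fun c => q' c (a c)) Finset.univ
  refine ⟨crn F J, inferInstance, inferInstance, (crn F J).subtype, q', ?_, ?_⟩
  · rw [← hJ]
    exact
      { inj := Subtype.coe_injective
        mul := fun a b => rfl
        one := rfl
        ran := fun a h1 h2 => ⟨⟨a, h1, h2⟩, rfl⟩ }
  · refine ⟨?_, ?_, ?_, ?_⟩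
    · rintro ⟨x, hx1, hx2⟩
      obtain ⟨a, ha, hax⟩ := hS.sur x
      choose b hb using fun c => hlift (a c)
      have hbN : ∀ c, b c ∈ Nt F Y'.ι i (θ c) := fun c => hliftN _ _ (ha c) _ (hb c)
      refine ⟨b, hbN, ?_⟩
      apply Subtype.ext
      rw [hsum]
      change ∑ c, (q' c (b c)).1 = x
      have h3 : ∀ c, (q' c (b c)).1 = J * q c (a c) * J := by
        intro c
        rw [q'n c _ (hbN c), hb, qlr c _ (ha c)]
      rw [Finset.sum_congr rfl (fun c _ => h3 c), ← Finset.sum_mul, ← Finset.mul_sum, hax, hx1,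
        hx2]
    · intro a ha
      have h4 : (∑ c, q' c (a c) : crn F J) = 0 ↔ ∑ c, q c (κ (a c)) = 0 := by
        have h5 : ((∑ c, q' c (a c) : crn F J)).1 = ∑ c, q c (κ (a c)) := by
          rw [hsum]
          exact Finset.sum_congr rfl (fun c _ => q'n c _ (ha c))
        rw [← h5]
        constructor
        · intro h
          rw [h]
          rfl
        · intro h
          exact Subtype.ext h
      rw [h4, hS.ker (fun c => κ (a c)) (fun c => (cor_nt hC _ _).1 (ha c))]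
      exact forall_congr' (fun c => hI (θ c) (a c))
    · intro c d a ha b hb
      apply Subtype.ext
      change (q' (c * d) (a * b)).1 = (q' c a).1 * (q' d b).1
      rw [q'n _ _ (hnt c d a ha b hb), q'n _ _ ha, q'n _ _ hb, hC.mul,
        hS.mul c d _ ((cor_nt hC _ a).1 ha) _ ((cor_nt hC _ b).1 hb)]
    · apply Subtype.ext
      change J * q 1 (κ 1) * J = J
      rw [hC.one, ← hJ, hJJ, hJJ]

end Pool.Agent.PFE.H64
end
end -- Pool.Agent.Helper64_PFE.SGC

section -- Pool.Agent.Helper72_PFE.ABQ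

/-!
# Squad PFE, ABQ: from a split Brauer quotient to the quotient map of the centraliser
-/

open scoped BigOperators TensorProduct

noncomputable section

namespace Pool.Agent.PFE.H72

open Pool.Agent.PFC Pool.Agent.PFE Pool.Agent.PFE.S
open Pool.Agent.PFC.B5a (QA be zin)

theorem cj_apply {F V A : Type} [Field F] [CommGroup V] [Ring A] [Algebra F A] (α : V →* A)
    (v : V) (a : A) : cj F α v a = α v * (a * α v⁻¹) := rfl

theorem mem_fx {F V A : Type} [Field F] [CommGroup V] [Ring A] [Algebra F A] (α : V →* A)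
    (Q : Subgroup V) (a : A) : a ∈ Fx (cj F α) Q ↔ a ∈ Cz F α Q := by
  rw [Cz, Subalgebra.mem_centralizer_iff]
  constructor
  · intro h
    rintro _ ⟨v, hv, rfl⟩
    have h1 : α v * (a * α v⁻¹) = a := h v hv
    calc α v * a = α v * (a * (α v⁻¹ * α v)) := by
          rw [← map_mul, inv_mul_cancel, map_one, mul_one]
      _ = α v * (a * α v⁻¹) * α v := by
          simp only [mul_assoc]
      _ = a * α v := by rw [h1]
  · intro h v hv
    have h1 := h (α v) ⟨v, hv, rfl⟩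
    show α v * (a * α v⁻¹) = a
    rw [← mul_assoc, h1, mul_assoc, ← map_mul, mul_inv_cancel, map_one, mul_one]

/-- ABQ -/
theorem abq : AbqStmt := by
  intro qke ℓ _ F V _ _ _ _ Y B Q β s hV hb
  obtain ⟨h1, h2, -⟩ := qke ℓ F V Y.A B.A (cj F Y.ι) (cj F B.ι) Q β s hV hb.toBrS
  have hf : ∀ a : Cz F Y.ι Q, (a : Y.A) ∈ Fx (cj F Y.ι) Q := fun a => (mem_fx Y.ι Q a).2 a.2
  have hone : β 1 = 1 := by
    have h3 := hb.cov 1
    have e1 : Y.ι 1 = 1 := map_one Y.ι
    have e2 : B.ι 1 = 1 := map_one B.ι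
    rw [e1, e2] at h3
    exact h3
  let q : Cz F Y.ι Q →ₐ[F] B.A := AlgHom.ofLinearMap (β ∘ₗ (Cz F Y.ι Q).val.toLinearMap) hone
    (fun a b => hb.mul _ (hf a) _ (hf b))
  have hq : ∀ a, q a = β a := fun _ => rfl
  refine ⟨q, ⟨?_, ?_⟩, hq, ?_⟩
  · intro b
    refine ⟨⟨s b, (mem_fx Y.ι Q (s b)).1 (h1 b)⟩, ?_⟩
    rw [hq]
    exact hb.bs b
  · intro a
    rw [hq]
    exact h2 a (hf a)
  · ext v
    show q (zin F Y.ι Q v) = B.ι v
    rw [hq]
    exact hb.cov v

end Pool.Agent.PFE.H72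
end
end -- Pool.Agent.Helper72_PFE.ABQ

section -- Pool.Agent.Helper48_PFC.UNS

/-!
# Squad PFC, row UNS (block B5a): from a Casimir element to separability
-/

set_option autoImplicit false

open scoped BigOperators TensorProduct

noncomputable section

namespace Pool.Agent.PFC.B5a.H48

theorem mem_Cz {F V B : Type} [Field F] [CommGroup V] [Ring B] [Algebra F B] {δ : V →* B}
    {a : B} : a ∈ Cz F δ ⊤ ↔ ∀ g, δ g * a = a * δ g := by
  unfold Cz
  rw [Subalgebra.mem_centralizer_iff]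
  constructor
  · intro h g
    exact h _ ⟨g, Subgroup.mem_top g, rfl⟩
  · rintro h _ ⟨g, -, rfl⟩
    exact h g

theorem uns : UnsStmt := by
  intro bki F Γ V B _ _ _ _ _ _ γ δ κ _ u v c' d hC hw hcd hdc hcδ hloc h1
  obtain ⟨z, hz⟩ : ∃ z : B, z = ∑ k, u k * v k := ⟨_, rfl⟩
  rw [← hz] at hw
  have hzc : ∀ c : B, c * z = z * c := by
    intro c
    have h := hC B (LinearMap.mul F B) (fun a b g => by
      show a * γ g * b = a * (γ g * b)
      exact mul_assoc _ _ _) c
    have h2 : ∑ k, (c * u k) * v k = ∑ k, u k * (v k * c) := h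
    rw [hz, Finset.mul_sum, Finset.sum_mul]
    calc ∑ k, c * (u k * v k) = ∑ k, (c * u k) * v k :=
          Finset.sum_congr rfl fun k _ => (mul_assoc _ _ _).symm
      _ = ∑ k, u k * (v k * c) := h2
      _ = ∑ k, u k * v k * c := Finset.sum_congr rfl fun k _ => (mul_assoc _ _ _).symm
  obtain ⟨-, hBC, hid⟩ := bki F V B δ ⊤
  have hc'm : c' ∈ Cz F δ ⊤ := mem_Cz.2 fun g => (hcδ g).symm
  have hdm : d ∈ Cz F δ ⊤ := mem_Cz.2 fun g => by
    calc δ g * d = (d * c') * δ g * d := by rw [hdc, one_mul]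
      _ = d * (c' * δ g) * d := by rw [mul_assoc d c']
      _ = d * (δ g * c') * d := by rw [hcδ]
      _ = d * δ g * (c' * d) := by simp only [mul_assoc]
      _ = d * δ g := by rw [hcd, mul_one]
  have hzm : z ∈ Cz F δ ⊤ := mem_Cz.2 fun g => hzc _
  have hsum : (⟨z, hzm⟩ * ⟨d, hdm⟩ + -((⟨z, hzm⟩ - ⟨c', hc'm⟩) * ⟨d, hdm⟩) : Cz F δ ⊤) = 1 := by
    apply Subtype.ext
    show z * d + -((z - c') * d) = 1
    rw [sub_mul, hcd]
    abel
  obtain ⟨z', hz1⟩ : ∃ z' : B, z * z' = 1 := by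
    rcases IsLocalRing.isUnit_or_isUnit_of_add_one hsum with hu | hu
    · obtain ⟨y, hy⟩ := hu.exists_right_inv
      have h := congrArg Subtype.val hy
      have h2 : z * d * (y : B) = 1 := h
      exact ⟨d * y, by rw [← mul_assoc]; exact h2⟩
    · exfalso
      obtain ⟨y, hy⟩ := hu.exists_right_inv
      have h := congrArg Subtype.val hy
      have h2 : -((z - c') * d) * (y : B) = 1 := h
      apply h1
      have h3 : (z - c') * (-(d * (y : B))) = 1 := by
        rw [← h2]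
        simp only [mul_neg, neg_mul, mul_assoc]
      rw [← h3]
      refine (hid _ ?_ _ hw).2
      exact Subalgebra.neg_mem _ (Subalgebra.mul_mem _ hdm y.2)
  have hz2 : z' * z = 1 := by rw [hzc, hz1]
  have hz'c : ∀ c : B, c * z' = z' * c := by
    intro c
    calc c * z' = (z' * z) * c * z' := by rw [hz2, one_mul]
      _ = z' * (z * c) * z' := by rw [mul_assoc z' z]
      _ = z' * (c * z) * z' := by rw [hzc]
      _ = z' * c * (z * z') := by simp only [mul_assoc]
      _ = z' * c := by rw [hz1, mul_one]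
  refine ⟨κ, inferInstance, u, fun k => v k * z', ?_, ?_⟩
  · calc ∑ k, u k * (v k * z') = ∑ k, u k * v k * z' :=
          Finset.sum_congr rfl fun k _ => (mul_assoc _ _ _).symm
      _ = z * z' := by rw [hz, Finset.sum_mul]
      _ = 1 := hz1
  · intro X _ _ T hT c
    have h := hC X (T.compl₂ (LinearMap.mulRight F z')) (fun a b g => by
      show T (a * γ g) (b * z') = T a (γ g * b * z')
      rw [hT, mul_assoc]) c
    have h2 : ∑ k, T (c * u k) (v k * z') = ∑ k, T (u k) (v k * c * z') := h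
    rw [h2]
    refine Finset.sum_congr rfl fun k _ => ?_
    rw [mul_assoc, mul_assoc, hz'c]

end Pool.Agent.PFC.B5a.H48
end
end -- Pool.Agent.Helper48_PFC.UNS

section -- Pool.Agent.Helper59_PFC.QLL

/-!
# Squad PFC, row QLL (helper59): the fixed algebra of the corner is local
-/

open scoped BigOperators TensorProduct

noncomputable section

namespace Pool.Agent.PFC.H59

/-- `x` is fixed by the conjugation iff it commutes -/
theorem fx_top_iff {F V A : Type} [Field F] [CommGroup V] [Ring A] [Algebra F A] (α : V →* A)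
    (x : A) : x ∈ Fx (cj F α) ⊤ ↔ ∀ v, α v * x = x * α v := by
  have hform : ∀ (v : V) (y : A), cj F α v y = α v * (y * α v⁻¹) := fun _ _ => rfl
  constructor
  · intro h v
    have h1 : cj F α v x = x := h v (Subgroup.mem_top v)
    rw [hform] at h1
    calc α v * x = α v * (x * (α v⁻¹ * α v)) := by
          rw [← map_mul, inv_mul_cancel, map_one, mul_one]
      _ = (α v * (x * α v⁻¹)) * α v := by noncomm_ring
      _ = x * α v := by rw [h1]
  · intro h v _
    change cj F α v x = x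
    rw [hform, ← mul_assoc, h v, mul_assoc, ← map_mul, mul_inv_cancel, map_one, mul_one]

theorem qll : QllStmt := by
  intro F V _ _ X X' b j κ hb hj hκ
  -- multiplicativity facts
  have hjl : ∀ a, j * κ a = κ a := by
    intro a
    rw [← hκ.one, ← hκ.mul, one_mul]
  have hjr : ∀ a, κ a * j = κ a := by
    intro a
    rw [← hκ.one, ← hκ.mul, mul_one]
  have hpow : ∀ (a : X'.A) (n : ℕ), 0 < n → κ (a ^ n) = κ a ^ n := by
    intro a n hn
    induction n with
    | zero => exact absurd hn (lt_irrefl 0)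
    | succ m ih =>
      rcases Nat.eq_zero_or_pos m with h | h
      · subst h
        rw [zero_add, pow_one, pow_one]
      · rw [pow_succ, hκ.mul, ih h, ← pow_succ]
  -- κ maps fixed elements to fixed elements
  have hfix : ∀ a ∈ Fx (cj F X'.ι) ⊤, κ a ∈ Fx (cj F X.ι) ⊤ := by
    intro a ha
    rw [fx_top_iff] at ha ⊢
    intro v
    calc X.ι v * κ a = (X.ι v * j) * κ a := by rw [mul_assoc, hjl]
      _ = κ (X'.ι v * a) := by rw [← hκ.cov, hκ.mul]
      _ = κ (a * X'.ι v) := by rw [ha v]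
      _ = κ a * (X.ι v * j) := by rw [hκ.mul, hκ.cov]
      _ = κ a * (j * X.ι v) := by rw [hκ.com]
      _ = κ a * X.ι v := by rw [← mul_assoc, hjr]
  have hkey : ∀ a ∈ Fx (cj F X'.ι) ⊤, IsNilpotent (a - algebraMap F X'.A (b (κ a))) := by
    intro a ha
    have hx : κ a - b (κ a) • j ∈ Fx (cj F X.ι) ⊤ :=
      Submodule.sub_mem _ (hfix a ha) (Submodule.smul_mem _ _ hj.fx)
    have hx2 : j * (κ a - b (κ a) • j) * j = κ a - b (κ a) • j := by
      rw [mul_sub, sub_mul, hjl, hjr, mul_smul_comm, smul_mul_assoc, hj.id, hj.id]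
    have hx3 : b (j * (κ a - b (κ a) • j) * j) = 0 := by
      rw [hx2, map_sub, map_smul, hj.bj, smul_eq_mul, mul_one, sub_self]
    obtain ⟨n, hn⟩ := hj.nil _ hx hx3
    rw [hx2] at hn
    refine ⟨n + 1, ?_⟩
    apply hκ.inj
    rw [map_zero, hpow _ _ (Nat.succ_pos n), map_sub, Algebra.algebraMap_eq_smul_one, map_smul,
      hκ.one, pow_succ, hn, zero_mul]
  have hne : (1 : X'.A) ≠ 0 := by
    intro h
    have h1 : j = 0 := by rw [← hκ.one, h, map_zero]
    have h2 := hj.bj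
    rw [h1, map_zero] at h2
    exact zero_ne_one h2
  have hCz : ∀ a : Cz F X'.ι ⊤, (a : X'.A) ∈ Fx (cj F X'.ι) ⊤ := by
    intro a
    rw [fx_top_iff]
    intro v
    exact (Subalgebra.mem_centralizer_iff F).1 a.2 _ ⟨v, Subgroup.mem_top v, rfl⟩
  refine ⟨fun a ha => ⟨_, hkey a ha⟩, ?_⟩
  have hnt : Nontrivial (Cz F X'.ι ⊤) := by
    refine ⟨⟨1, 0, ?_⟩⟩
    intro h
    apply hne
    have := congrArg (fun z : Cz F X'.ι ⊤ => (z : X'.A)) h
    simpa using this
  have hunit : ∀ a : Cz F X'.ι ⊤, b (κ (a : X'.A)) ≠ 0 → IsUnit a := by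
    intro a ha
    have h1 : IsNilpotent (a - algebraMap F (Cz F X'.ι ⊤) (b (κ (a : X'.A)))) := by
      obtain ⟨n, hn⟩ := hkey a (hCz a)
      refine ⟨n, ?_⟩
      apply Subtype.ext
      rw [SubmonoidClass.coe_pow]
      exact hn
    have h2 : IsUnit (algebraMap F (Cz F X'.ι ⊤) (b (κ (a : X'.A)))) :=
      (IsUnit.mk0 _ ha).map (algebraMap F (Cz F X'.ι ⊤))
    have h3 := h1.isUnit_add_left_of_commute h2 (Algebra.commute_algebraMap_right _ _)
    rwa [add_sub_cancel] at h3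
  refine IsLocalRing.of_is_unit_or_is_unit_of_add_one ?_
  intro a c hac
  by_cases h : b (κ (a : X'.A)) = 0
  · right
    apply hunit
    have h1 : b (κ ((a : X'.A) + (c : X'.A))) = 1 := by
      have h2 : (a : X'.A) + (c : X'.A) = 1 := by
        have := congrArg (fun z : Cz F X'.ι ⊤ => (z : X'.A)) hac
        simpa using this
      rw [h2, hκ.one, hj.bj]
    rw [map_add, map_add, h, zero_add] at h1
    rw [h1]
    exact one_ne_zero
  · left
    exact hunit a h

end Pool.Agent.PFC.H59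
end
end -- Pool.Agent.Helper59_PFC.QLL

section -- Pool.Agent.Helper62_PFC.SPG

/-!
# Row SPG (SPGa) of squad PFC, block B5a (MP_6a3f1a_al)
-/

set_option autoImplicit false

open scoped BigOperators TensorProduct

noncomputable section

namespace Pool.Agent.PFC.B5a.H62

/-- The element does not depend on the dual bases. -/
theorem move {F A : Type} [Field F] [Ring A] [Algebra F A] (mu : A →ₗ[F] F) (al : A →ₗ[F] A)
    {m : ℕ} (b b' : Fin m → A) (h1 : Du F mu b b') (h2 : ∀ x, ∑ k, mu (x * b k) • b' k = x)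
    (s : A) : ∑ k, al (s * b k) * b' k = (∑ k, al (b k) * b' k) * s := by
  have e1 : ∀ k, al (s * b k) * b' k = ∑ j, mu (b' j * s * b k) • (al (b j) * b' k) := by
    intro k
    conv_lhs => rw [← h1 (s * b k)]
    rw [map_sum, Finset.sum_mul]
    refine Finset.sum_congr rfl fun j _ => ?_
    rw [map_smul, smul_mul_assoc, mul_assoc]
  rw [Finset.sum_congr rfl fun k _ => e1 k, Finset.sum_comm, Finset.sum_mul]
  refine Finset.sum_congr rfl fun j _ => ?_
  rw [mul_assoc, ← h2 (b' j * s), Finset.mul_sum]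
  refine Finset.sum_congr rfl fun k _ => ?_
  rw [mul_smul_comm, h2 (b' j * s)]

/-- The map `y ↦ ∑ γ g * al (γ g⁻¹ * y)`. -/
def al1 {F A Γ : Type} [Field F] [Ring A] [Algebra F A] [Group Γ] [Fintype Γ] (γ : Γ →* A)
    (al : A →ₗ[F] A) : A →ₗ[F] A :=
  ∑ g, (LinearMap.mulLeft F (γ g)).comp (al.comp (LinearMap.mulLeft F (γ g⁻¹)))

theorem al1_apply {F A Γ : Type} [Field F] [Ring A] [Algebra F A] [Group Γ] [Fintype Γ]
    (γ : Γ →* A) (al : A →ₗ[F] A) (y : A) : al1 γ al y = ∑ g, γ g * al (γ g⁻¹ * y) := by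
  unfold al1
  rw [LinearMap.sum_apply]
  rfl

theorem spg : SpgStmt := by
  intro bki fdb cas uns F V E A _ _ _ _ _ _ _ _ _ φ _ γ mu lam c' al hsym hnd hci hE hal hloc h1
  obtain ⟨m, b, b', hb, hb'⟩ := fdb F A mu hsym hnd
  have hal1 : ∀ x, ∑ h, al1 γ al (x * γ h⁻¹) * γ h = x - Ee F γ mu x * c' := by
    intro x
    rw [hE, ← cpr, ← hal x, Finset.sum_comm]
    refine Finset.sum_congr rfl fun h _ => ?_
    rw [al1_apply, Finset.sum_mul]
    refine Finset.sum_congr rfl fun g _ => ?_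
    rw [← mul_assoc (γ g⁻¹)]
  have hcsm := cas F (V ⋊[φ] E) A γ mu c' (al1 γ al) m b b' hsym hnd hci hal1 hb
  set w₀ : A := ∑ k, al (b k) * b' k with hw₀
  set w₁ : A := ∑ e : E, γ (SemidirectProduct.inr e) * w₀ * γ (SemidirectProduct.inr e)⁻¹ with hw₁
  have hw : ∑ k, al1 γ al (b k) * b' k = ∑ g, γ g * w₀ * γ g⁻¹ := by
    have e1 : ∀ k, al1 γ al (b k) * b' k = ∑ g, γ g * (al (γ g⁻¹ * b k) * b' k) := by
      intro k
      rw [al1_apply, Finset.sum_mul]
      refine Finset.sum_congr rfl fun g _ => ?_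
      rw [mul_assoc]
    rw [Finset.sum_congr rfl fun k _ => e1 k, Finset.sum_comm]
    refine Finset.sum_congr rfl fun g _ => ?_
    rw [← Finset.mul_sum, move mu al b b' hb hb', mul_assoc]
  have hw2 : ∑ g, γ g * w₀ * γ g⁻¹ =
      ∑ v : V, cj F (γ.comp (SemidirectProduct.inl : V →* V ⋊[φ] E)) v w₁ := by
    rw [← (SemidirectProduct.equivProd (φ := φ)).symm.sum_comp, Fintype.sum_prod_type]
    refine Finset.sum_congr rfl fun v _ => ?_
    have e2 : cj F (γ.comp (SemidirectProduct.inl : V →* V ⋊[φ] E)) v w₁ =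
        γ (SemidirectProduct.inl v) * (w₁ * γ (SemidirectProduct.inl v⁻¹)) := rfl
    rw [e2, hw₁, Finset.sum_mul, Finset.mul_sum]
    refine Finset.sum_congr rfl fun e _ => ?_
    have e3 : (SemidirectProduct.equivProd (φ := φ)).symm (v, e) =
        SemidirectProduct.inl v * SemidirectProduct.inr e :=
      (SemidirectProduct.inl_left_mul_inr_right
        ((SemidirectProduct.equivProd (φ := φ)).symm (v, e))).symm
    rw [e3, map_mul, mul_inv_rev, map_mul, ← map_inv SemidirectProduct.inl]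
    simp only [mul_assoc]
  refine uns bki F (V ⋊[φ] E) V A γ (γ.comp (SemidirectProduct.inl : V →* V ⋊[φ] E)) _ _ _ c'
    (Ee F γ mu 1) hcsm ?_ hci.lin hci.rin (fun g => hci.com _) hloc h1
  rw [Fintype.sum_option]
  show c' * 1 + ∑ k, al1 γ al (b k) * b' k - c' ∈ _
  rw [mul_one, add_sub_cancel_left, hw, hw2]
  refine Submodule.subset_span ⟨⊥, Finset.univ, w₁, bot_lt_top, ?_, ?_, rfl⟩
  · refine ⟨fun s _ => Subgroup.mem_top s, fun p _ => ⟨p, ⟨Finset.mem_univ _, ?_⟩, ?_⟩⟩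
    · rw [inv_mul_cancel]
      exact Subgroup.one_mem _
    · rintro s ⟨_, hs⟩
      rw [Subgroup.mem_bot] at hs
      exact (inv_mul_eq_one.1 hs)
  · intro h hh
    rw [Subgroup.mem_bot.1 hh, map_one]
    rfl

end Pool.Agent.PFC.B5a.H62
end
end -- Pool.Agent.Helper62_PFC.SPG

section -- Pool.Agent.Helper63_PFC.QLP

/-!
# Squad PFC, row QLP: products over permuted lists
-/

noncomputable section

namespace Pool.Agent.PFC.H63

/-- the factor of a signed index -/
def fac {F V ι : Type} [Field F] [CommGroup V] (S : ι → IA F V) : ι × Bool → IA F V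
  | (Q, true) => S Q
  | (Q, false) => (S Q).op

theorem prd_cons {F V ι : Type} [Field F] [CommGroup V] (S : ι → IA F V) (p : ι × Bool)
    (L : List (ι × Bool)) : prd S (p :: L) = (fac S p).tens (prd S L) := by
  rcases p with ⟨Q, b⟩
  cases b <;> rfl

/-- Row QLP. -/
theorem qlp (qis : QisStmt) : QlpStmt := by
  intro F V ι _ _ _ S L L' h
  obtain ⟨hr, hs, ht, -, -, -, -, htens, -, hcomm, hass, -⟩ := qis F V
  induction h with
  | nil => exact hr _
  | cons x _ ih =>
    rw [prd_cons, prd_cons]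
    exact htens _ _ _ _ (hr _) ih
  | swap x y l =>
    rw [prd_cons, prd_cons, prd_cons, prd_cons]
    refine ht _ _ _ (hs _ _ (hass _ _ _)) (ht _ _ _ ?_ (hass _ _ _))
    exact htens _ _ _ _ (hcomm _ _) (hr _)
  | trans _ _ ih1 ih2 => exact ht _ _ _ ih1 ih2

end Pool.Agent.PFC.H63
end
end -- Pool.Agent.Helper63_PFC.QLP

section -- Pool.Agent.Helper63_PFC.SEXa

/-!
# Squad PFC, row SEXa: separability and the form of the final algebra
-/

namespace Pool.Agent.PFC.B5a.H63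

/-- Row SEXa. -/
theorem sexa : SexRow := by
  intro fvt bki fdb cug cas uns lam spg
  intro F V E A _ _ _ _ _ _ _ _ _ ℓ _ φ e0 _ γ mu hctx hfrm hloc hone hhig
  have hp : Fact ℓ.Prime := ⟨hctx.pr⟩
  have hnt : Nontrivial V := by
    obtain ⟨u, hu⟩ := hctx.nt
    exact ⟨u, 1, hu⟩
  obtain ⟨c', hci, lm, h1, h2, h3, h4, h5⟩ := lam fvt cug ℓ F V E A φ e0 γ mu hctx hfrm
  obtain ⟨al, hal⟩ := hhig lm h2 h3 h4
  exact ⟨inferInstance,
    spg bki fdb cas uns F V E A φ γ mu lm c' al hfrm.sym hfrm.nd hci h5 hal hloc hone,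
    ⟨mu, hfrm.sym, hfrm.nd⟩, ⟨lm, h2, h3, h4, al, hal⟩⟩

end Pool.Agent.PFC.B5a.H63
end -- Pool.Agent.Helper63_PFC.SEXa

section -- Pool.Agent.Helper6_PFC.QLB

/-!
Squad PFC, block B4b, row QLB: the image of a local idempotent in a Brauer quotient.
-/

open scoped BigOperators TensorProduct

noncomputable section

namespace Pool.Agent.PFC.H6

section kill

variable {F H M : Type} [Field F] [Group H] [AddCommGroup M] [Module F M]

/-- an invariant functional kills the Brauer kernel -/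
theorem kill_BK {ℓ : ℕ} [Fact ℓ.Prime] [CharP F ℓ] [Finite H]
    {ρ : H →* (M →ₗ[F] M)} (P : Subgroup H) (hP : IsPGroup ℓ P) (φ : M →ₗ[F] F)
    (hφ : ∀ h m, φ (ρ h m) = φ m) {m : M} (hm : m ∈ BK ρ P) : φ m = 0 := by
  classical
  unfold BK at hm
  induction hm using Submodule.span_induction with
  | mem n hn =>
    obtain ⟨P', S, x, hlt, hS, hx, rfl⟩ := hn
    have h1 : ∀ y ∈ S, φ (ρ y x) = φ x := fun y _ => hφ y x
    rw [map_sum, Finset.sum_congr rfl h1, Finset.sum_const]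
    have hdvd : ℓ ∣ S.card := by
      have hc := card_tv P' P hlt.le S hS
      obtain ⟨k, hk⟩ := (IsPGroup.iff_card).1 hP
      have hdiv : S.card ∣ ℓ ^ k := ⟨_, by rw [← hk]; exact hc.symm⟩
      obtain ⟨j, -, hj⟩ := (Nat.dvd_prime_pow (Fact.out : ℓ.Prime)).1 hdiv
      rcases Nat.eq_zero_or_pos j with h0 | h0
      · exfalso
        rw [h0, pow_zero] at hj
        rw [hj, one_mul] at hc
        exact hlt.ne (Subgroup.eq_of_le_of_card_ge hlt.le hc.ge)
      · rw [hj]
        exact dvd_pow_self ℓ h0.ne'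
    obtain ⟨d, hd⟩ := hdvd
    rw [hd, mul_smul, nsmul_eq_mul, CharP.cast_eq_zero, zero_mul]
  | zero => exact map_zero _
  | add a b _ _ ha hb => rw [map_add, ha, hb, add_zero]
  | smul r a _ ha => rw [map_smul, ha, smul_zero]

end kill

section alg

variable {F V A : Type} [Field F] [Group V] [Ring A] [Algebra F A]

theorem cj_app (α : V →* A) (v : V) (a : A) : cj F α v a = α v * (a * α v⁻¹) := rfl

theorem cj_mul (α : V →* A) (v : V) (a b : A) : cj F α v (a * b) = cj F α v a * cj F α v b := by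
  have h : α v⁻¹ * α v = 1 := by rw [← map_mul, inv_mul_cancel, map_one]
  rw [cj_app, cj_app, cj_app]
  calc α v * (a * b * α v⁻¹) = α v * (a * 1 * (b * α v⁻¹)) := by
        rw [mul_one, mul_assoc]
    _ = α v * (a * (α v⁻¹ * α v) * (b * α v⁻¹)) := by rw [h]
    _ = α v * (a * α v⁻¹) * (α v * (b * α v⁻¹)) := by simp only [mul_assoc]

theorem cj_one' (α : V →* A) (v : V) : cj F α v 1 = 1 := by
  rw [cj_app, one_mul, ← map_mul, mul_inv_cancel, map_one]

theorem fx_one (α : V →* A) (Q : Subgroup V) : (1 : A) ∈ Fx (cj F α) Q :=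
  fun v _ => cj_one' α v

theorem fx_mul (α : V →* A) (Q : Subgroup V) {a b : A} (ha : a ∈ Fx (cj F α) Q)
    (hb : b ∈ Fx (cj F α) Q) : a * b ∈ Fx (cj F α) Q := by
  intro v hv
  rw [cj_mul, ha v hv, hb v hv]

theorem fx_pow (α : V →* A) (Q : Subgroup V) {a : A} (ha : a ∈ Fx (cj F α) Q) (n : ℕ) :
    a ^ n ∈ Fx (cj F α) Q := by
  induction n with
  | zero =>
    rw [pow_zero]
    exact fx_one α Q
  | succ n ih =>
    rw [pow_succ]
    exact fx_mul α Q ih ha

theorem fx_top (α : V →* A) (Q : Subgroup V) {a : A} (ha : a ∈ Fx (cj F α) ⊤) :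
    a ∈ Fx (cj F α) Q := fun v _ => ha v (Subgroup.mem_top v)

end alg

theorem qlb (hQ : QkeStmt) (hC : CmpStmt) : QlbStmt := by
  intro ℓ _ F V _ _ _ _ X Y R b j β s hV hX hb hj hβ
  have hPT : IsPGroup ℓ (⊤ : Subgroup V) := hV.to_subgroup ⊤
  have hPR : IsPGroup ℓ R := hV.to_subgroup R
  obtain ⟨q1, q2, q3⟩ := hQ ℓ F V X.A Y.A (cj F X.ι) (cj F Y.ι) R β s hV hβ.toBrS
  -- the key identity
  have key : ∀ x ∈ Fx (cj F X.ι) ⊤, b (s (β x)) = b x := by
    intro x hx
    have h1 : x - s (β x) ∈ BK (cj F X.ι) R := q3 x (fx_top X.ι R hx)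
    have h2 : x - s (β x) ∈ Fx (cj F X.ι) ⊤ := by
      intro v hv
      rw [map_sub, hx v hv, ← hβ.es, ← hβ.eb, hx v hv]
    have h3 : x - s (β x) ∈ BK (cj F X.ι) ⊤ :=
      hC ℓ F V X.A (cj F X.ι) _ hX R ⊤ hPT le_top _ h2 h1
    have h4 := kill_BK ⊤ hPT b hb.inv h3
    rw [map_sub, sub_eq_zero] at h4
    exact h4.symm
  have sfx : ∀ y ∈ Fx (cj F Y.ι) ⊤, s y ∈ Fx (cj F X.ι) ⊤ := by
    intro y hy v hv
    rw [← hβ.es, hy v hv]
  have bfx : ∀ x ∈ Fx (cj F X.ι) ⊤, β x ∈ Fx (cj F Y.ι) ⊤ := by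
    intro x hx v hv
    rw [← hβ.eb, hx v hv]
  have b1 : β 1 = 1 := by
    have h := hβ.cov 1
    rw [X.ι.map_one, Y.ι.map_one] at h
    exact h
  have bmul : ∀ x ∈ Fx (cj F X.ι) ⊤, ∀ y ∈ Fx (cj F X.ι) ⊤, β (x * y) = β x * β y :=
    fun x hx y hy => hβ.mul x (fx_top X.ι R hx) y (fx_top X.ι R hy)
  have bpow : ∀ x ∈ Fx (cj F X.ι) ⊤, ∀ n : ℕ, β (x ^ n) = β x ^ n := by
    intro x hx n
    induction n with
    | zero => rw [pow_zero, pow_zero, b1]
    | succ n ih => rw [pow_succ, pow_succ, bmul _ (fx_pow X.ι ⊤ hx n) _ hx, ih]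
  refine ⟨b ∘ₗ s, ⟨?_, ?_, ?_⟩, ?_, ⟨?_, ?_, ?_, ?_⟩⟩
  · rw [LinearMap.comp_apply, ← b1, key 1 (fx_one X.ι ⊤), hb.one]
  · intro x hx y hy
    have h := key (s x * s y) (fx_mul X.ι ⊤ (sfx x hx) (sfx y hy))
    rw [bmul _ (sfx x hx) _ (sfx y hy), hβ.bs, hβ.bs, hb.mul _ (sfx x hx) _ (sfx y hy)] at h
    exact h
  · intro v a
    rw [LinearMap.comp_apply, LinearMap.comp_apply, hβ.es, hb.inv]
  · intro x hx
    exact key x hx
  · exact bfx j hj.fx
  · rw [← bmul _ hj.fx _ hj.fx, hj.id]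
  · rw [LinearMap.comp_apply, key j hj.fx, hj.bj]
  · intro y hy h0
    have hs := sfx y hy
    have e1 : β (j * s y * j) = β j * y * β j := by
      rw [bmul _ (fx_mul X.ι ⊤ hj.fx hs) _ hj.fx, bmul _ hj.fx _ hs, hβ.bs]
    have hz : j * s y * j ∈ Fx (cj F X.ι) ⊤ := fx_mul X.ι ⊤ (fx_mul X.ι ⊤ hj.fx hs) hj.fx
    have h1 : b (j * s y * j) = 0 := by
      rw [← key _ hz, e1]
      exact h0
    obtain ⟨n, hn⟩ := hj.nil (s y) hs h1
    refine ⟨n, ?_⟩
    rw [← e1, ← bpow _ hz, hn, map_zero]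

end Pool.Agent.PFC.H6
end
end -- Pool.Agent.Helper6_PFC.QLB

section -- Pool.Agent.Helper72_PFC.LFTa

/-! LFT: the lifting theorem. -/

set_option autoImplicit false

open scoped BigOperators TensorProduct

noncomputable section

namespace Pool.Agent.PFC.B5a.H72

open Pool.Agent.PFC Pool.Agent.PFC.B5a

theorem lft : LftStmt := by
  intro homz hmuv hnil hkwa hkwb ℓ _ F V B _ _ _ _ _ _ β n π hP hsep hps
  obtain ⟨μ, hμ1, hμ2⟩ := hmuv homz F V B β hps
  obtain ⟨f0, hL0, h10, hl0, hr0⟩ := hkwa hnil ℓ F V B β n π μ hP hμ1 hμ2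
  have key : ∀ k : ℕ, 1 ≤ k → ∃ f : B →ₗ[F] Matrix (Fin n) (Fin n) (MonoidAlgebra F V),
      Lf F β n π f ∧ f 1 = 1 ∧
      (∀ u x, f (β u * x) = f (β u) * f x) ∧ (∀ u x, f (x * β u) = f x * f (β u)) ∧
      ∀ x y i j, (f (x * y) - f x * f y) i j ∈ RingHom.ker (au F V) ^ k := by
    intro k hk
    induction k, hk using Nat.le_induction with
    | base =>
      refine ⟨f0, hL0, h10, hl0, hr0, fun x y i j => ?_⟩
      rw [pow_one, RingHom.mem_ker, Matrix.sub_apply, Matrix.mul_apply, map_sub, map_sum,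
        hL0.aug, map_mul, Matrix.mul_apply, sub_eq_zero]
      refine Finset.sum_congr rfl fun k _ => ?_
      rw [map_mul, hL0.aug, hL0.aug]
    | succ k hk ih =>
      obtain ⟨f, hL, h1, hl, hr, hd⟩ := ih
      exact hkwb F V B β n π k f hsep hk hL h1 hl hr hd
  obtain ⟨N, hN⟩ := hnil ℓ F V hP
  obtain ⟨f, hL, h1, -, -, hd⟩ := key (N + 1) (by omega)
  have hN1 : RingHom.ker (au F V) ^ (N + 1) = ⊥ := by
    rw [pow_succ, hN, Ideal.bot_mul]
  have hmul : ∀ x y, f (x * y) = f x * f y := by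
    intro x y
    ext1 i j
    have h := hd x y i j
    rw [hN1, Ideal.mem_bot, Matrix.sub_apply, sub_eq_zero] at h
    exact h
  refine ⟨AlgHom.ofLinearMap f h1 hmul, ?_⟩
  exact ⟨fun x i j => hL.aug x i j, fun u i j => hL.grp u i j⟩

end Pool.Agent.PFC.B5a.H72
end
end -- Pool.Agent.Helper72_PFC.LFTa

section -- Pool.Agent.Helper43_PFC.AllB5

/-!
# Squad PFC: the rows of part (0) put together
-/

open scoped BigOperators TensorProduct

noncomputable section

namespace Pool.Agent.PFC.B5c.H43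

open Pool.Agent.PFC

/-- The output of block B5a. -/
theorem loqOut (qfc : B5a.QfcStmt) : LoqOut :=
  B5a.H59.loq H49d.bki H19.qexa qfc H92.qfm H91.qpsa B5a.H83.qtpa B5a.qmt B5a.H72.cps
    (B5a.H17.loc B5a.H46.fvt B5a.H24.omz B5a.H77.trs H49d.bki B5a.H41.fdb H49d.cug B5a.H53.cas
      B5a.H48.uns H92.qfr B5a.H94.alv B5a.H75.muv H49d.nil B5a.H15.kwaa B5a.H24.kwb B5a.spv
      B5a.H72.lft H13.suv B5a.H31.inj)

theorem sex : SexStmt :=
  B5a.H63.sexa B5a.H46.fvt H49d.bki B5a.H41.fdb H49d.cug B5a.H53.cas B5a.H48.uns H52.lam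
    B5a.H62.spg

theorem midT : MidStmt :=
  H38.mid H49c.smd (H77.hgp (H92.prj H10.psx Hhelper1.UPW) H41.psm H41.hgx) sex

theorem rows (qfc : B5a.QfcStmt) (qtm : QtmStmt) (qmx : QmxStmt) (qlr : QlrStmt) (qsp : QspStmt) :
    Rows :=
  have qke : QkeStmt := H18.qke
  have qis : QisStmt := H85Q.qis
  have qal : QalStmt := H41.qal H77.qsb qke
  have qte : QteStmt := H65.qte qtm qke
  have qcp : QcpStmt := H20.qcp
  have qtr : QtrStmt := H81.qtr qal qke qcp qis
  have qlb : QlbStmt := H6.qlb qke H77.cmp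
  have qlu : QluStmt := H24.qlu
  have qcx : QcxStmt := H10.qcx qke
  { fam := H92.fam (loqOut qfc) H63.trb H65.itw H49b.psr
    cpx := H60.cpx
    cmr := H91.cmr qtr qal qte H13.qop (H39.qun qke) H48.qca qis qmx
    qgw := H32.qgw H46.qmw (H81.qlq qte H13.qop qmx qcp qis) (H63.qlp qis) qis H69.qsn qlr H44.qdi
    tpb := H30.tpb H49d.bki H63.trb
    qcp := qcp
    qte := qte
    qis := qis
    qcx := qcx
    qlx := H13.qlx
    qlb := qlb
    qke := qke
    qce := H46.qce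
    qzs := H41.qzs qlb (H81.qlw qke) qlu H19.qcb
    ndm := H33.ndm
    frt := H44.frt
    jbk := H41.jbk H15.brk
    frc := H92.frc
    qll := H59.qll
    qsp := qsp
    qvp := H9Q.qvp
    qsn := H69.qsn
    qtj := H32.qtj qcx qlu }

theorem pmdT (qfc : B5a.QfcStmt) (qtm : QtmStmt) (qmx : QmxStmt) (qlr : QlrStmt)
    (qsp : QspStmt) : PmdStmt :=
  pmd (rows qfc qtm qmx qlr qsp) (H49c.lsm H91.lsf) H63.lsc

theorem pmzT (qfc : B5a.QfcStmt) (qtm : QtmStmt) (qmx : QmxStmt) (qlr : QlrStmt)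
    (qsp : QspStmt) : PmzStmt :=
  pmz (rows qfc qtm qmx qlr qsp) (H49c.lsm H91.lsf) H63.lsc H91.lsf (H60.lsn H63.lsc)
    (H31.ful H15.brk) H76.zcn H52.zmx H65.lcn

theorem puiT (qfc : B5a.QfcStmt) (qtm : QtmStmt) (qmx : QmxStmt) (qlr : QlrStmt)
    (qsp : QspStmt) : PuiStmt :=
  pui (pmdT qfc qtm qmx qlr qsp) midT H81.qta H65.lcn

end Pool.Agent.PFC.B5c.H43
end
end -- Pool.Agent.Helper43_PFC.AllB5

section -- Pool.Agent.Helper66_PFD.AsmPmz

/-!
# Squad PFD: assembly of the Puig part (`PmzStmt`)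
-/

noncomputable section

namespace Pool.Agent.PFD.H66

open Pool.Agent.PFC

theorem pmz_ : PmzStmt :=
  B5c.H43.pmzT B5a.H70.qfc H67.qtm H62.qmx (H3.qlr (H63.qlp H85Q.qis) H85Q.qis H72.qre H6.qrt)
    (H34.qsp H18.qke)

end Pool.Agent.PFD.H66
end
end -- Pool.Agent.Helper66_PFD.AsmPmz

section -- Pool.Agent.Helper79_PFE.Lon

/-!
# Squad PFE: the local structure of `A(Q)` for a family `NN` (helper79)
-/

open scoped BigOperators TensorProduct

noncomputable section

namespace Pool.Agent.PFE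

open Pool.Agent.PFC Pool.Agent.PFC.B5a

/-- `LoqOut` (`PFC/StmtsB5c.lean`) for a family `NN`. -/
def LonStmt : Prop :=
  ∀ (F V E A : Type) [Field F] [CommGroup V] [Fintype V] [Group E] [Ring A] [Algebra F A]
    (ℓ : ℕ) [CharP F ℓ] (φ : E →* MulAut V) (NN : Subgroup V → Prop) (α : V →* A)
    (Q : Subgroup V) (n : ℕ) (π : Cz F α Q →ₐ[F] Matrix (Fin n) (Fin n) F),
    Ctn ℓ φ NN → PInN F φ NN α → NN Q → Lcq F α Q n π →
    PS (fun _ => True) (cj F ((π : Cz F α Q →* Matrix (Fin n) (Fin n) F).comp (zin F α Q))) ∧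
    ∃ q : Cz F α Q →ₐ[F] Matrix (Fin n) (Fin n) F ⊗[F] MonoidAlgebra F V,
      Function.Surjective q ∧ (∀ a : Cz F α Q, q a = 0 ↔ (a : A) ∈ BK (cj F α) Q) ∧
      ∀ u, q (zin F α Q u) = π (zin F α Q u) ⊗ₜ[F] MonoidAlgebra.of F V u

namespace H79

/-- The stabilisers for `A(Q)`, `Q` in the family. -/
theorem qpn (ℓ : ℕ) [Fact ℓ.Prime] (F V E A B : Type) [Field F]
    [CharP F ℓ] [CommGroup V] [Fintype V] [Group E] [Ring A] [Algebra F A] [Ring B] [Algebra F B]
    (φ : E →* MulAut V) (NN : Subgroup V → Prop) (α : V →* A) (Q : Subgroup V)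
    (q : Cz F α Q →ₐ[F] B) (hctx : Ctn ℓ φ NN) (hqa : QA F α Q q) (hQ : NN Q)
    (hps : PS (fun K => ∃ (e : E) (R : Subgroup V), K = tw (φ e).toMonoidHom R) (bi F α)) :
    PS (fun K => ∃ R : Subgroup V, K = tw (MonoidHom.id V) R) (bi F (be F α Q q)) := by
  obtain ⟨Ω, _, _, b, c, hfr, hst⟩ := hps
  obtain ⟨Ω', i1, i2, j, b', c', hfr', hj, hj2, hj3, -, -⟩ :=
    H70.qfc H49d.bki ℓ F V A B α Q q Ω b c hctx.pg hqa hfr
  refine ⟨Ω', i1, i2, b', c', hfr', fun ω' => ?_⟩
  obtain ⟨e, R, hR⟩ := hst (j ω')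
  have hs : MulAction.stabilizer (V × V) ω' = MulAction.stabilizer (V × V) (j ω') := by
    ext w
    rw [MulAction.mem_stabilizer_iff, MulAction.mem_stabilizer_iff, ← hj3]
    exact ⟨fun h => by rw [h], fun h => hj h⟩
  have he : e = 1 := by
    refine hctx.cf Q hQ e fun u hu => ?_
    have h1 : ((u, u) : V × V) ∈ MulAction.stabilizer (V × V) (j ω') := by
      rw [MulAction.mem_stabilizer_iff]
      exact (hj2 (j ω')).1 ⟨ω', rfl⟩ u hu
    rw [hR] at h1
    obtain ⟨r, -, hr2⟩ := h1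
    have h2 : φ e r = u := congrArg Prod.fst hr2
    have h3 : r = u := congrArg Prod.snd hr2
    rw [h3] at h2
    exact h2
  refine ⟨R, ?_⟩
  rw [hs, hR, he, map_one]
  rfl

/-- The local structure of `A(Q)`, `Q` in the family. -/
theorem lon : LonStmt := by
  intro F V E A _ _ _ _ _ _ ℓ _ φ NN α Q n π hctx hpin hQ hl
  have : Fact ℓ.Prime := ⟨hctx.pr⟩
  have := hpin.fin
  obtain ⟨B, _, _, q, hq⟩ := H19.qexa H49d.bki F V A α Q
  obtain ⟨π', h1, h2, h3, h4⟩ := qmt F V A B α Q q n π hq hl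
  obtain ⟨lam, hlam⟩ := hpin.frm
  obtain ⟨htp, hloc⟩ :=
    H83.qtpa H49d.bki H70.qfc ℓ F V A B α Q q _ hctx.pg hq hpin.ps hpin.top hpin.loc
  have hps := qpn ℓ F V E A B φ NN α Q q hctx hq hQ hpin.ps
  have hLB : LB F (be F α Q q) n π' :=
    { fin := h3
      frm := H92.qfm H49d.bki ℓ F V A B α Q q _ lam hctx.pg hq hpin.ps hlam
      loc := hloc
      ps := hps
      top := htp
      pos := hl.pos
      sur := h2
      nil := h4
      cop := hl.cop }
  have : Nontrivial V := by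
    obtain ⟨u, hu⟩ := hctx.nt
    exact ⟨⟨u, 1, hu⟩⟩
  obtain ⟨f, hf, hbij⟩ :=
    (H17.loc H46.fvt H24.omz H77.trs H49d.bki H41.fdb H49d.cug H53.cas
      H48.uns H92.qfr H94.alv H75.muv H49d.nil H15.kwaa H24.kwb spv
      H72.lft H13.suv H31.inj) ℓ F V B (be F α Q q) n π' hctx.pg hLB
  have hcomp : (π' : B →* Matrix (Fin n) (Fin n) F).comp (be F α Q q) =
      (π : Cz F α Q →* Matrix (Fin n) (Fin n) F).comp (zin F α Q) := by
    apply MonoidHom.ext
    intro u
    exact h1 (zin F α Q u)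
  constructor
  · rw [← hcomp]
    exact H72.cps F V B (be F α Q q) n π' f _ hf hbij hps
  · refine ⟨((H59.mte F V n : Matrix (Fin n) (Fin n) (MonoidAlgebra F V) →ₐ[F]
      Matrix (Fin n) (Fin n) F ⊗[F] MonoidAlgebra F V).comp f).comp q, ?_, ?_, ?_⟩
    · intro y
      obtain ⟨x, hx⟩ := (H59.mte F V n).surjective y
      obtain ⟨b, hb⟩ := hbij.2 x
      obtain ⟨a, ha⟩ := hq.sur b
      refine ⟨a, ?_⟩
      change H59.mte F V n (f (q a)) = y
      rw [ha, hb, hx]
    · intro a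
      rw [← hq.ker a]
      change H59.mte F V n (f (q a)) = 0 ↔ q a = 0
      constructor
      · intro h
        apply hbij.1
        rw [map_zero]
        apply (H59.mte F V n).injective
        rw [h, map_zero]
      · intro h
        rw [h, map_zero, map_zero]
    · intro u
      change H59.mte F V n (f (q (zin F α Q u))) = _
      rw [← (H59.mte F V n).apply_symm_apply (π (zin F α Q u) ⊗ₜ[F] MonoidAlgebra.of F V u),
        H59.mte_symm]
      have h5 : f (q (zin F α Q u)) =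
          Matrix.of fun i j => MonoidAlgebra.single u (π (zin F α Q u) i j) := by
        ext1 i j
        rw [Matrix.of_apply, ← h1]
        exact hf.grp u i j
      rw [h5]

end H79

end Pool.Agent.PFE
end
end -- Pool.Agent.Helper79_PFE.Lon

section -- Pool.Agent.Helper79_PFE.Fan

/-!
# Squad PFE: the family of the local matrix algebras for a family `NN` of subgroups (helper79)
-/

open scoped BigOperators TensorProduct

noncomputable section

namespace Pool.Agent.PFE

open Pool.Agent.PFC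
open Pool.Agent.PFC.B5c (bd sg)

/-- The family of the matrix algebras `S_Q`: `X(Q) = S_Q ⊗ F V` for `Q` in `NN`. -/
structure FamN {F V E : Type} [Field F] [CommGroup V] [Group E] [Finite V] (X : IA F V)
    (φ : E →* MulAut V) (NN : Subgroup V → Prop) (S : Subgroup V → IA F V) : Prop where
  mx : ∀ Q, NN Q → Mx (S Q)
  cp : ∀ Q, NN Q → CP (S Q)
  bq : ∀ Q, NN Q → BQ X ((S Q).tens (IA.gr F V)) Q
  tw : ∀ Q, NN Q → ∀ e, IsoT (φ e) (S Q) (S (Q.map (φ e).toMonoidHom))

/-- The family exists. -/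
def FanStmt : Prop :=
  ∀ (F V E A : Type) [Field F] [CommGroup V] [Fintype V] [Group E] [Ring A] [Algebra F A]
    [FiniteDimensional F A] (ℓ : ℕ) [CharP F ℓ] (φ : E →* MulAut V) (NN : Subgroup V → Prop)
    (α : V →* A), Ctn ℓ φ NN → PInN F φ NN α → ∃ S : Subgroup V → IA F V, FamN (bd F α) φ NN S

/-- Comparison of the local matrix algebras. -/
def CmnStmt : Prop :=
  ∀ (ℓ : ℕ) [Fact ℓ.Prime] (F V E : Type) [Field F] [CharP F ℓ] [CommGroup V] [Finite V]
    [Group E] (X : IA F V) (φ : E →* MulAut V) (NN : Subgroup V → Prop)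
    (S : Subgroup V → IA F V), IsPGroup ℓ V → NN ⊤ →
    (∀ Q T : Subgroup V, NN Q → Q ≤ T → NN T) → CP X → BQ X (IA.gr F V) ⊤ → FamN X φ NN S →
    (∀ Q, NN Q → ∀ R : Subgroup V, BQ (S Q) (S (Q ⊔ R)) R) ∧ Iso (S ⊤) (IA.one F V)

/-- Gluing over a family of subgroups which is closed upwards. -/
def QgnStmt : Prop :=
  ∀ (ℓ : ℕ) [Fact ℓ.Prime] (F V : Type) [Field F] [CharP F ℓ] [CommGroup V] [Finite V]
    (NN : Subgroup V → Prop) (Sg : Set (MulAut V)) (S : Subgroup V → IA F V), IsPGroup ℓ V →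
    NN ⊤ → (∀ Q T : Subgroup V, NN Q → Q ≤ T → NN T) →
    (∀ σ ∈ Sg, ∀ Q : Subgroup V, NN (Q.map σ.toMonoidHom) ↔ NN Q) →
    (∀ Q, NN Q → Mx (S Q) ∧ CP (S Q)) →
    (∀ Q, NN Q → ∀ R : Subgroup V, BQ (S Q) (S (Q ⊔ R)) R) → Iso (S ⊤) (IA.one F V) →
    (∀ σ ∈ Sg, ∀ Q, NN Q → IsoT σ (S Q) (S (Q.map σ.toMonoidHom))) →
    ∃ N : IA F V, Mx N ∧ CP N ∧ (∀ σ ∈ Sg, Rz N σ) ∧ BQ N (IA.one F V) ⊤ ∧
      (∀ R : Subgroup V, ∃ N' : IA F V, Mx N' ∧ BQ N N' R) ∧
      ∀ R : Subgroup V, NN R → ∃ N' : IA F V, BQ N N' R ∧ Ret (N'.tens (S R)) ∧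
        BQ (N'.tens (S R)) (IA.one F V) ⊤

namespace H79

theorem fan : FanStmt := by
  intro F V E A _ _ _ _ _ _ _ ℓ _ φ NN α hctn hin
  classical
  have hp : Fact ℓ.Prime := ⟨hctn.pr⟩
  choose n π hL using hin.lcq
  have hcp : CP (bd F α) := by
    have h1 := H49b.psr F (V × V) V A (bi F α) ((MonoidHom.id V).prod (MonoidHom.id V)) _ hin.ps
    obtain ⟨Ω, i1, i2, b, c, hfr, hst⟩ := h1
    exact ⟨Ω, i1, i2, b, c, hfr, fun _ => trivial⟩
  obtain ⟨S, hS⟩ : ∃ S : Subgroup V → IA F V, ∀ (Q : Subgroup V) (h : NN Q),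
      S Q = B5c.mx (sg F α Q (π Q h)) := by
    refine ⟨fun Q => if h : NN Q then B5c.mx (sg F α Q (π Q h)) else IA.one F V, fun Q h => ?_⟩
    exact dif_pos h
  refine ⟨S, ?_, ?_, ?_, ?_⟩
  · intro Q h
    rw [hS Q h]
    exact ⟨n Q h, (hL Q h).pos, ⟨AlgEquiv.refl⟩⟩
  · intro Q h
    rw [hS Q h]
    exact (lon F V E A ℓ φ NN α Q (n Q h) (π Q h) hctn hin h (hL Q h)).1
  · intro Q h
    rw [hS Q h]
    obtain ⟨-, q, hq1, hq2, hq3⟩ := lon F V E A ℓ φ NN α Q (n Q h) (π Q h) hctn hin h (hL Q h)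
    exact B5c.H63.trb ℓ F V (bd F α) ((B5c.mx (sg F α Q (π Q h))).tens (IA.gr F V)) Q q hctn.pg hcp
      hq1 hq2 hq3
  · intro Q h e
    have h' : NN (Q.map (φ e).toMonoidHom) := hctn.st e Q h
    rw [hS Q h, hS _ h']
    obtain ⟨y, y', hy, hy', hyu⟩ := hin.uni e
    exact B5c.H65.itw F V A α (φ e) y y' Q (n Q h) (n _ h') (π Q h) (π _ h') hy hy' hyu (hL Q h)
      (hL _ h')

theorem cmn (qtr : QtrStmt) (qal : QalStmt) (qte : QteStmt) (qop : QopStmt) (qun : QunStmt)
    (qca : QcaStmt) (qis : QisStmt) (qmx : QmxStmt) : CmnStmt := by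
  intro ℓ _ F V E _ _ _ _ _ X φ NN S hV htop hup hX hXV hS
  obtain ⟨hrefl, hsymm, htrans, hBQ, -, -, -, -, -, -, -, hone, -⟩ := qis F V
  obtain ⟨-, -, hgr⟩ := qop F V
  obtain ⟨-, -, hmx1⟩ := qmx F V
  have huni : ∀ (Z Y Y' : IA F V) (Q : Subgroup V), BQ Z Y Q → BQ Z Y' Q → Iso Y Y' := by
    rintro Z Y Y' Q ⟨β, s, h⟩ ⟨β', s', h'⟩
    obtain ⟨e, he, -⟩ := qun ℓ F V Z Y Y' Q β s β' s' hV h h'
    exact ⟨e, he⟩
  refine ⟨fun Q hQ R => ?_, ?_⟩
  · have hQR : NN (Q ⊔ R) := hup Q _ hQ le_sup_left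
    have h1 : BQ ((S Q).tens (IA.gr F V)) ((S (Q ⊔ R)).tens (IA.gr F V)) R :=
      qtr ℓ F V X _ _ Q R hV hX (hS.bq Q hQ) (hS.bq (Q ⊔ R) hQR)
    obtain ⟨T, hT⟩ := qal ℓ F V (S Q) hV (hS.cp Q hQ) R
    have h2 : BQ ((S Q).tens (IA.gr F V)) (T.tens (IA.gr F V)) R := by
      obtain ⟨β, s, h⟩ := hT
      obtain ⟨β', s', h'⟩ := hgr R
      exact ⟨_, _, qte ℓ F V _ _ _ _ R β s β' s' hV h h'⟩
    have h3 : Iso T (S (Q ⊔ R)) :=
      qca ℓ F V T (S (Q ⊔ R)) hV (hS.mx (Q ⊔ R) hQR) (huni _ _ _ R h2 h1)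
    exact hBQ (S Q) (S Q) T (S (Q ⊔ R)) R (hrefl _) h3 hT
  · have h1 : Iso ((S ⊤).tens (IA.gr F V)) (IA.gr F V) := huni X _ _ ⊤ (hS.bq ⊤ htop) hXV
    exact qca ℓ F V (S ⊤) (IA.one F V) hV hmx1 (htrans _ _ _ h1 (hsymm _ _ (hone (IA.gr F V))))

end H79

end Pool.Agent.PFE
end
end -- Pool.Agent.Helper79_PFE.Fan

section -- Pool.Agent.Helper79_PFE.Fun

/-!
# Squad PFE: an idempotent which is `1` modulo the Brauer kernel of `V` is full (helper79)

`FulStmt` (`PFC/StmtsB5c.lean`, helper31) with the hypotheses which its proof uses: `V` is an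
`ℓ`-group, `ℓ` does not divide the order of `E`, `E` acts faithfully on `V`.
-/

open scoped BigOperators TensorProduct

noncomputable section

namespace Pool.Agent.PFE

open Pool.Agent.PFC Pool.Agent.PFC.B5c

/-- An idempotent of the centraliser of `V` which is `1` modulo the Brauer kernel is full. -/
def FunStmt : Prop :=
  ∀ (ℓ : ℕ) [Fact ℓ.Prime] (F V E A : Type) [Field F] [CharP F ℓ] [CommGroup V] [Fintype V]
    [Group E] [Fintype E] [Ring A] [Algebra F A] [FiniteDimensional F A] (φ : E →* MulAut V)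
    (α : V →* A) (lam : A →ₗ[F] F) (j : A), IsPGroup ℓ V → ¬ ℓ ∣ Nat.card E →
    (∀ e : E, (∀ u, φ e u = u) → e = 1) → Frm F α lam →
    PS (fun K => ∃ (e : E) (R : Subgroup V), K = tw (φ e).toMonoidHom R) (bi F α) →
    BQ (bd F α) (IA.gr F V) ⊤ →
    (∀ e : E, ∃ y y' : A, y * y' = 1 ∧ y' * y = 1 ∧ ∀ u, y * α u = α (φ e u) * y) →
    (∀ z : A, (∀ a, z * a = a * z) → IsUnit z ∨ IsNilpotent z) →
    j ∈ Fx (cj F α) ⊤ → j * j = j → 1 - j ∈ BK (cj F α) ⊤ →
    (1 : A) ∈ Submodule.span F {x | ∃ a b : A, x = a * j * b}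

namespace H79

open Pool.Agent.PFC.B5c.H31

theorem Ft_unif {V E Ω : Type} [CommGroup V] [Group E] [MulAction (V × V) Ω]
    {φ : E →* MulAut V} (hfa : ∀ e : E, (∀ u, φ e u = u) → e = 1)
    (hst : ∀ ω : Ω, ∃ (e : E) (R : Subgroup V),
      MulAction.stabilizer (V × V) ω = tw (φ e).toMonoidHom R) (e e' : E) (ω : Ω)
    (h : Ft φ e ω) (h' : Ft φ e' ω) : e = e' := by
  obtain ⟨e1, R, hR⟩ := hst ω
  have h1 : ∀ u, φ e1 u = φ e u := by
    intro u
    have h2 : ((φ e u, u) : V × V) ∈ MulAction.stabilizer (V × V) ω := h u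
    rw [hR, mem_tw] at h2
    exact h2.2
  have h1' : ∀ u, φ e1 u = φ e' u := by
    intro u
    have h2 : ((φ e' u, u) : V × V) ∈ MulAction.stabilizer (V × V) ω := h' u
    rw [hR, mem_tw] at h2
    exact h2.2
  have h3 : ∀ u, φ (e'⁻¹ * e) u = u := by
    intro u
    rw [map_mul, MulAut.mul_apply, ← h1, h1', ← MulAut.mul_apply, ← map_mul, inv_mul_cancel,
      map_one, MulAut.one_apply]
  have h4 := hfa _ h3
  rw [inv_mul_eq_one] at h4
  exact h4.symm

/-- The statement without the bundles. -/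
theorem fun_main {F V E A : Type} [Field F] [CommGroup V] [Group E] [Ring A] [Algebra F A]
    [Fintype V] [Fintype E] [FiniteDimensional F A] {φ : E →* MulAut V} {α : V →* A}
    {lam : A →ₗ[F] F} {chi : A →ₗ[F] F} {ℓ : ℕ} [Fact ℓ.Prime] [CharP F ℓ]
    (hV : IsPGroup ℓ V) (hcop : ¬ ℓ ∣ Nat.card E)
    (hfa : ∀ e : E, (∀ u, φ e u = u) → e = 1) (hlam : Frm F α lam)
    (hps : PS (fun K => ∃ (e : E) (R : Subgroup V), K = tw (φ e).toMonoidHom R) (bi F α))
    (hc : Ch α chi)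
    (huni : ∀ e : E, ∃ y y' : A, y * y' = 1 ∧ y' * y = 1 ∧ ∀ u, y * α u = α (φ e u) * y)
    (hcen : ∀ z : A, (∀ a, z * a = a * z) → IsUnit z ∨ IsNilpotent z) (j : A)
    (hj : j ∈ Fx (cj F α) ⊤) (hj1 : 1 - j ∈ BK (cj F α) ⊤) :
    (1 : A) ∈ Submodule.span F {x | ∃ a b : A, x = a * j * b} := by
  classical
  obtain ⟨Ω, _, _, b, c, hfr, hst⟩ := hps
  obtain ⟨s, hcs, hf⟩ := ex_fr hlam.sym hlam.nd hfr
  have hfree := free_of hst
  obtain ⟨T, hT, hT2⟩ := Tm_split hf (one_C α)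
  have hchi1 : chi (Tm V b s 1) = ∑ z ∈ T, chi (fw b s 1 z) := by
    have h1 := hc.bk _ hT2
    rwa [map_sub, map_sum, sub_eq_zero] at h1
  have hcard : chi (Tm V b s 1) * lam (∑ v, α v) = (Fintype.card E : F) := by
    have h1 : ∑ z ∈ T, chi (fw b s 1 z) =
        ∑ e : E, ∑ z ∈ T.filter (fun z => Ft φ e (rp z)), chi (fw b s 1 z) := by
      simp only [Finset.sum_filter]
      rw [Finset.sum_comm]
      refine Finset.sum_congr rfl fun z hz => ?_
      obtain ⟨e, he⟩ := ex_Ft hst z ((hT z).1 hz)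
      rw [Finset.sum_eq_single e, if_pos he]
      · intro e' _ hne
        rw [if_neg]
        intro he'
        exact hne (Ft_unif hfa hst e' e _ he' he)
      · intro h
        exact absurd (Finset.mem_univ e) h
    rw [hchi1, h1, Finset.sum_mul]
    have h2 : ∀ e : E, (∑ z ∈ T.filter (fun z => Ft φ e (rp z)), chi (fw b s 1 z)) *
        lam (∑ v, α v) = 1 := by
      intro e
      obtain ⟨y, y', hy1, hy2, hy3⟩ := huni e
      refine claim hV hf hfr hcs hc hst e y y' hy1 hy2 hy3 _ fun z => ?_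
      rw [Finset.mem_filter, hT]
      exact ⟨fun h => h.2, fun h => ⟨fun u => Ft_fix e z h u, h⟩⟩
    rw [Finset.sum_congr rfl fun e _ => h2 e, Finset.sum_const, Finset.card_univ, nsmul_eq_mul,
      mul_one]
  have hne : (Fintype.card E : F) ≠ 0 := by
    intro h
    rw [CharP.cast_eq_zero_iff F ℓ, ← Nat.card_eq_fintype_card] at h
    exact hcop h
  have hadd : Tm V b s 1 = Tm V b s j + Tm V b s (1 - j) := by
    rw [Tm, Tm, Tm, ← Finset.sum_add_distrib]
    refine Finset.sum_congr rfl fun z _ => ?_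
    rw [← add_mul, ← mul_add, add_sub_cancel]
  have hchij : chi (Tm V b s j) = chi (Tm V b s 1) := by
    rw [hadd, map_add, hc.bk _ (Tm_BK hf hst hj1), add_zero]
  have hzc : ∀ a, Tm V b s j * a = a * Tm V b s j := fun a => (Tm_central hf hfree hj a).symm
  have hz0 : chi (Tm V b s j) ≠ 0 := by
    intro h
    rw [hchij] at h
    rw [h, zero_mul] at hcard
    exact hne hcard.symm
  rcases hcen _ hzc with hu | hn
  · obtain ⟨z', hz'⟩ := hu.exists_left_inv
    have h1 : ∑ z : Zq V Ω, z' * b (rp z) * j * s (rp z) = 1 := by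
      rw [← hz', Tm, Finset.mul_sum]
      simp only [mul_assoc]
    rw [← h1]
    exact Submodule.sum_mem _ fun z _ => Submodule.subset_span ⟨_, _, rfl⟩
  · exfalso
    obtain ⟨N, hN⟩ := hn
    have hCz : Tm V b s j ∈ Fx (cj F α) ⊤ := by
      rw [mem_C]
      intro u
      exact (hzc _).symm
    have hpow : ∀ k : ℕ, Tm V b s j ^ k ∈ Fx (cj F α) ⊤ ∧
        chi (Tm V b s j ^ k) = chi (Tm V b s j) ^ k := by
      intro k
      induction k with
      | zero =>
        rw [pow_zero, pow_zero]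
        exact ⟨one_C α, hc.one⟩
      | succ k ih =>
        rw [pow_succ, pow_succ, hc.mul _ ih.1 _ hCz, ih.2]
        exact ⟨C_mul α ih.1 hCz, rfl⟩
    have h1 := (hpow N).2
    rw [hN, map_zero] at h1
    exact pow_ne_zero N hz0 h1.symm

/-- An idempotent which is `1` modulo the Brauer kernel of `V` is full. -/
theorem funr : FunStmt := by
  classical
  intro ℓ _ F V E A _ _ _ _ _ _ _ _ _ φ α lam j hV hcop hfa hlam hps hbq huni hcen hj _ hj1
  obtain ⟨β, sg, h⟩ := hbq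
  let β' : A →ₗ[F] MonoidAlgebra F V := β
  have hβ : ∀ m ∈ Fx (cj F α) ⊤, β' m = 0 ↔ m ∈ BK (cj F α) ⊤ :=
    H15.brk ℓ F V A (MonoidAlgebra F V) (cj F α) (cj F (MonoidAlgebra.of F V)) ⊤ β' sg hV
      h.toBrS
  have hcov : ∀ v, β' (α v) = MonoidAlgebra.of F V v := h.cov
  have hmul : ∀ x ∈ Fx (cj F α) ⊤, ∀ y ∈ Fx (cj F α) ⊤, β' (x * y) = β' x * β' y := h.mul
  let chi : A →ₗ[F] F := (B5a.au F V).toLinearMap.comp β'
  have hchi : ∀ x, chi x = B5a.au F V (β' x) := fun x => rfl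
  have hc : Ch α chi := by
    refine ⟨?_, ?_, ?_, ?_⟩
    · intro m hm
      rw [hchi, (hβ m (BK_le_Fx _ _ hm)).2 hm, map_zero]
    · intro x hx y hy
      rw [hchi, hmul x hx y hy, map_mul]
      rfl
    · intro v
      rw [hchi, hcov, B5a.au, MonoidAlgebra.lift_of]
      rfl
    · intro x hx
      refine ⟨fun v => (β' x).coeff v, ?_⟩
      rw [← hβ]
      · rw [map_sub, map_sum, sub_eq_zero]
        ext w
        rw [MonoidAlgebra.coeff_sum, Finsupp.finsetSum_apply]
        simp only [map_smul, hcov, MonoidAlgebra.of_apply, MonoidAlgebra.coeff_smul,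
          MonoidAlgebra.coeff_single, Finsupp.smul_apply, Finsupp.single_apply, smul_eq_mul,
          mul_ite, mul_one, mul_zero, Finset.sum_ite_eq', Finset.mem_univ, if_true]
      · refine Submodule.sub_mem _ hx (Submodule.sum_mem _ fun v _ => ?_)
        exact Submodule.smul_mem _ _ (al_C α v)
  exact fun_main hV hcop hfa hlam hps hc huni hcen j hj hj1



end H79

end Pool.Agent.PFE
end
end -- Pool.Agent.Helper79_PFE.Fun

section -- Pool.Agent.Helper79_PFE.AsmN

/-!
# Squad PFE: part (0) for a family of subgroups, with the graded algebra `S(A)` (helper79)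
-/

open scoped BigOperators TensorProduct

noncomputable section

namespace Pool.Agent.PFE.H79

open Pool.Agent.PFC Pool.Agent.PFE
open Pool.Agent.PFC.B5c (bd)

/-- All rows of part (0). -/
theorem rowsU : B5c.H43.Rows :=
  B5c.H43.rows B5a.H70.qfc H67.qtm H62.qmx (H3.qlr (H63.qlp H85Q.qis) H85Q.qis H72.qre H6.qrt)
    (H34.qsp H18.qke)

theorem qke_ : QkeStmt := H18.qke
theorem qal_ : QalStmt := H41.qal H77.qsb H18.qke
theorem qte_ : QteStmt := H65.qte H67.qtm H18.qke
theorem qun_ : QunStmt := H39.qun H18.qke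
theorem qtr_ : QtrStmt := H81.qtr qal_ qke_ H20.qcp H85Q.qis

theorem cmn_ : CmnStmt :=
  cmn qtr_ qal_ qte_ H13.qop qun_ H48.qca H85Q.qis H62.qmx

/-- The result of the core for a family of subgroups: everything about `N`, `Y = N ⊗ A`, `j` and the
corner. -/
theorem coreN (hqgn : QgnStmt) (F V E A : Type) [Field F] [IsAlgClosed F] [CommGroup V]
    [Fintype V] [Group E] [Fintype E] [Ring A] [Algebra F A] [FiniteDimensional F A] (ℓ : ℕ)
    [CharP F ℓ] (φ : E →* MulAut V) (NN : Subgroup V → Prop) (α : V →* A) (hC : Ctn ℓ φ NN)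
    (hI : PInN F φ NN α) :
    ∃ (N Y' : IA F V) (j : (N.tens (bd F α)).A) (κ : Y'.A →ₗ[F] (N.tens (bd F α)).A) (n : ℕ),
      0 < n ∧ Nonempty (N.A ≃ₐ[F] Matrix (Fin n) (Fin n) F) ∧
      Cor (N.tens (bd F α)) Y' j κ ∧ j ∈ Fx (cj F (N.tens (bd F α)).ι) ⊤ ∧ j * j = j ∧
      1 - j ∈ BK (cj F (N.tens (bd F α)).ι) ⊤ ∧
      (∃ lam, Frm F (N.tens (bd F α)).ι lam) ∧
      PS (fun K => ∃ (e : E) (R : Subgroup V), K = tw (φ e).toMonoidHom R)
        (bi F (N.tens (bd F α)).ι) ∧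
      BQ (N.tens (bd F α)) (IA.gr F V) ⊤ ∧
      (∀ e : E, ∃ y y' : (N.tens (bd F α)).A, y * y' = 1 ∧ y' * y = 1 ∧
        ∀ u, y * (N.tens (bd F α)).ι u = (N.tens (bd F α)).ι (φ e u) * y) ∧
      CP (bd F α) ∧ CP (N.tens (bd F α)) ∧ (∀ e : E, Rz N (φ e)) ∧
      (∀ e : E, Rz (N.tens (bd F α)) (φ e)) ∧
      (∀ R : Subgroup V, ∃ N' : IA F V, Mx N' ∧ BQ N N' R) ∧
      PMidN F φ NN Y'.ι := by
  classical
  have H := rowsU
  have : Fact ℓ.Prime := ⟨hC.pr⟩
  have htop : NN ⊤ := hC.top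
  have hSt : ∀ (e : E) (Q : Subgroup V), NN (Q.map (φ e).toMonoidHom) ↔ NN Q := by
    intro e Q
    refine ⟨fun h => ?_, fun h => hC.st e Q h⟩
    have h1 := hC.st e⁻¹ _ h
    have h2 : (Q.map (φ e).toMonoidHom).map (φ e⁻¹).toMonoidHom = Q := by
      rw [Subgroup.map_map]
      have h3 : (φ e⁻¹).toMonoidHom.comp (φ e).toMonoidHom = MonoidHom.id V := by
        ext u
        change φ e⁻¹ (φ e u) = u
        rw [← MulAut.mul_apply, ← map_mul, inv_mul_cancel, map_one, MulAut.one_apply]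
      rw [h3, Subgroup.map_id]
    rwa [h2] at h1
  set X : IA F V := bd F α with hX
  have hCP : CP X := H.cpx F V A α _ hI.ps
  have hbt : BQ X (IA.gr F V) ⊤ := H.tpb ℓ F V X hC.pg hCP hI.top
  obtain ⟨S, hS⟩ := fan F V E A ℓ φ NN α hC hI
  obtain ⟨hcm, hst⟩ := cmn_ ℓ F V E X φ NN S hC.pg htop hC.up hCP hbt hS
  obtain ⟨N, hNm, hNc, hNr, hNt, hNa, hNR⟩ := hqgn ℓ F V NN (Set.range φ) S hC.pg htop hC.up
    (by rintro _ ⟨e, rfl⟩ Q; exact hSt e Q) (fun Q hQ => ⟨hS.mx Q hQ, hS.cp Q hQ⟩) hcm hst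
    (by rintro _ ⟨e, rfl⟩ Q hQ; exact hS.tw Q hQ e)
  obtain ⟨iRefl, iSymm, iTrans, iBQ, -, -, -, iTen, -, iComm, iAssoc, iOne, -⟩ := H.qis F V
  set Y : IA F V := N.tens X with hY
  have hCY : CP Y := (H.qcp F V).1 N X hNc hCP
  -- Y(V) = F V
  have hYt : BQ Y (IA.gr F V) ⊤ := by
    obtain ⟨β, s, h1⟩ := hNt
    obtain ⟨β', s', h2⟩ := hbt
    exact iBQ Y Y _ _ ⊤ (iRefl Y) (iOne (IA.gr F V)) ⟨_, _, H.qte ℓ F V _ _ _ _ ⊤ β s β' s' hC.pg h1 h2⟩
  obtain ⟨b, hb⟩ := (H.qcx ℓ F V Y hC.pg hYt).1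
  obtain ⟨j, hj⟩ := H.qlx F V Y b hb
  have hjc : ∀ v, Y.ι v * j = j * Y.ι v := by
    intro v
    have h := hj.fx v (Subgroup.mem_top v)
    have h2 : Y.ι v * (j * Y.ι v⁻¹) = j := h
    calc Y.ι v * j = Y.ι v * (j * Y.ι v⁻¹) * Y.ι v := by
          rw [mul_assoc, mul_assoc, ← map_mul, inv_mul_cancel, map_one, mul_one]
      _ = j * Y.ι v := by rw [h2]
  obtain ⟨Y', κ, hκ⟩ := H.qce F V Y j hj.id hjc
  -- the Brauer quotients of the corner
  have hR : ∀ R : Subgroup V, NN R → BQ Y' (IA.gr F V) R := by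
    intro R hRW
    obtain ⟨N', hN1, hN2, hN3⟩ := hNR R hRW
    apply H.qzs ℓ F V Y Y' (N'.tens (S R)) R b j κ hC.pg hCY hb hj hκ _ hN2 hN3
    obtain ⟨β, s, h1⟩ := hN1
    obtain ⟨β', s', h2⟩ := hS.bq R hRW
    exact iBQ Y Y _ _ R (iRefl Y) (iSymm _ _ (iAssoc N' (S R) (IA.gr F V)))
      ⟨_, _, H.qte ℓ F V _ _ _ _ R β s β' s' hC.pg h1 h2⟩
  -- j modulo the Brauer kernel
  have hjb : j ∉ BK (cj F Y.ι) ⊤ := by
    obtain ⟨β, s, h1⟩ := hYt
    obtain ⟨c, hc1, -, hc3⟩ := H.qlb ℓ F V Y (IA.gr F V) ⊤ b j β s hC.pg hCY hb hj h1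
    intro hbk
    have h0 := ((H.qke ℓ F V _ _ _ _ ⊤ β s hC.pg h1.toBrS).2.1 j hj.fx).2 hbk
    have h1 := hc3.bj
    rw [h0, map_zero] at h1
    exact zero_ne_one h1
  have hj1 : 1 - j ∈ BK (cj F Y.ι) ⊤ := H.jbk ℓ F V Y j hC.pg hYt hj.fx hj.id hjb
  obtain ⟨n, hn0, hnF, hNe⟩ := H.ndm ℓ F V N hC.pg hNm hNc hNt
  obtain ⟨lam, hlam⟩ := hI.frm
  obtain ⟨lam1, hlam1⟩ := H.frt ℓ F V N X n hC.pg hnF hNe lam hlam
  have hps : PS (fun K => ∃ (e : E) (R : Subgroup V), K = tw (φ e).toMonoidHom R) (bi F Y.ι) :=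
    H.qvp F V E φ N X hNc (fun e => hNr _ ⟨e, rfl⟩) hI.ps
  have hrz : ∀ e, Rz Y (φ e) := by
    intro e
    apply (H.qsn F V).2.2.2 N X (φ e) (hNr _ ⟨e, rfl⟩)
    obtain ⟨y, y', h1, h2, h3⟩ := hI.uni e
    exact ⟨⟨y, y', h1, h2⟩, h3⟩
  have hpm : PMidN F φ NN Y'.ι := by
    refine ⟨Y'.fi, ?_, ?_, ?_, ?_, ?_, ?_⟩
    · exact H.frc ℓ F V Y Y' j κ hC.pg hκ hj1 lam1 hlam1
    · exact (H.qll F V Y Y' b j κ hb hj hκ).2
    · intro h1
      have h2 := (H.qsp ℓ F V Y' ⊤ hC.pg (hR ⊤ htop)).2 (fun u => if u = 1 then 1 else 0) (by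
        have : ∑ u, (if u = 1 then (1 : F) else 0) • Y'.ι u = 1 := by
          rw [Finset.sum_eq_single (1 : V)]
          · simp
          · intro u _ hu
            simp [hu]
          · intro h
            exact absurd (Finset.mem_univ _) h
        rw [this]
        exact h1)
      have h3 := congrFun h2 1
      simp at h3
    · exact (H.qcp F V).2.2.2.2.1 _ Y Y' j κ hκ hps
    · intro R hRW a ha
      exact (H.qsp ℓ F V Y' R hC.pg (hR R hRW)).1 a ha
    · intro e
      obtain ⟨y, hy⟩ := H.qtj ℓ F V Y Y' b j κ (φ e) hC.pg hYt hb hj hκ (hrz e)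
      exact ⟨y, (y⁻¹ : Y'.Aˣ), y.mul_inv, y.inv_mul, hy⟩
  refine ⟨N, Y', j, κ, n, hn0, hNe, hκ, hj.fx, hj.id, hj1, ⟨lam1, hlam1⟩, hps, hYt, ?_, hCP,
    hCY, fun e => hNr _ ⟨e, rfl⟩, hrz, hNa, hpm⟩
  intro e
  obtain ⟨y, hy⟩ := hrz e
  exact ⟨y, (y⁻¹ : Y.Aˣ), y.mul_inv, y.inv_mul, hy⟩

end Pool.Agent.PFE.H79
end
end -- Pool.Agent.Helper79_PFE.AsmN

section -- Pool.Agent.Helper79_PFE.Qgn

/-!
# Squad PFE: gluing over a family `NN` of subgroups which is closed upwards (helper79)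

Edit of `PFC/B5/QMW.lean` (helper46) and of `Helper32_PFC/QGW.lean` (helper32), with `NN Q` instead of
`¬ Q ≤ W`.
-/

set_option autoImplicit false

open scoped BigOperators TensorProduct

noncomputable section

namespace Pool.Agent.PFE.H79

open Pool.Agent.PFC Pool.Agent.PFE
open Pool.Agent.PFC.B5c.H32 (ml mem_ml map_ml perm_ml count_ml cnt)

section poset

variable {V : Type} [CommGroup V] [Finite V]

/-- the finite type of the subgroups -/
@[reducible] def fts (V : Type) [CommGroup V] [Finite V] : Fintype (Subgroup V) :=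
  Fintype.ofFinite _

attribute [local instance] fts

open Classical in
/-- the function `c` with `∑_(Q ≤ S) c(Q) = 1` for `S` in the family -/
def cN (NN : Subgroup V → Prop) : Subgroup V → ℤ :=
  (wellFounded_lt (α := Subgroup V)).fix fun S c =>
    if NN S then 1 - ∑ Q : {Q : Subgroup V // Q < S}, c Q.1 Q.2 else 0

open Classical in
theorem cN_eq (NN : Subgroup V → Prop) (S : Subgroup V) :
    cN NN S = if NN S then 1 - ∑ Q : {Q : Subgroup V // Q < S}, cN NN Q.1 else 0 := by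
  unfold cN
  rw [WellFounded.fix_eq]

open Classical in
theorem sum_lt (g : Subgroup V → ℤ) (S : Subgroup V) :
    ∑ Q : {Q : Subgroup V // Q < S}, g Q.1 = ∑ Q with Q < S, g Q := by
  rw [← Finset.sum_subtype]
  intro x
  simp

theorem cN_zero {NN : Subgroup V → Prop} {S : Subgroup V} (h : ¬ NN S) : cN NN S = 0 := by
  rw [cN_eq, if_neg h]

open Classical in
theorem cN_lt {NN : Subgroup V → Prop} {S : Subgroup V} (h : NN S) :
    cN NN S = 1 - ∑ Q with Q < S, cN NN Q := by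
  rw [cN_eq, if_pos h, sum_lt]

open Classical in
theorem split_le (g : Subgroup V → ℤ) (S : Subgroup V) :
    ∑ Q with Q ≤ S, g Q = g S + ∑ Q with Q < S, g Q := by
  have h1 : (Finset.univ.filter fun Q : Subgroup V => Q ≤ S) =
      insert S (Finset.univ.filter fun Q : Subgroup V => Q < S) := by
    ext Q
    simp only [Finset.mem_filter, Finset.mem_univ, true_and, Finset.mem_insert]
    exact le_iff_eq_or_lt
  rw [h1, Finset.sum_insert]
  simp

open Classical in
theorem cN_le {NN : Subgroup V → Prop} {S : Subgroup V} (h : NN S) :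
    ∑ Q with Q ≤ S, cN NN Q = 1 := by
  rw [split_le, cN_lt h]
  ring

theorem cN_map (NN : Subgroup V → Prop) (σ : MulAut V)
    (hN : ∀ Q : Subgroup V, NN (Q.map σ.toMonoidHom) ↔ NN Q) (S : Subgroup V) :
    cN NN (S.map σ.toMonoidHom) = cN NN S := by
  classical
  have hinj : Function.Injective σ.toMonoidHom := σ.injective
  have hle : ∀ A B : Subgroup V, A.map σ.toMonoidHom ≤ B.map σ.toMonoidHom ↔ A ≤ B :=
    fun A B => Subgroup.map_le_map_iff_of_injective hinj
  have hsur : ∀ B : Subgroup V, ∃ A : Subgroup V, A.map σ.toMonoidHom = B := by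
    intro B
    refine ⟨B.comap σ.toMonoidHom, ?_⟩
    exact Subgroup.map_comap_eq_self_of_surjective σ.surjective B
  induction S using WellFoundedLT.induction with
  | ind S ih =>
    by_cases h : NN S
    · rw [cN_lt h, cN_lt ((hN S).2 h)]
      congr 1
      symm
      refine Finset.sum_bij (fun Q _ => Q.map σ.toMonoidHom) ?_ ?_ ?_ ?_
      · intro Q hQ
        simp only [Finset.mem_filter, Finset.mem_univ, true_and] at hQ ⊢
        rw [lt_iff_le_not_ge] at hQ ⊢
        exact ⟨(hle _ _).2 hQ.1, fun h' => hQ.2 ((hle _ _).1 h')⟩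
      · intro A _ B _ hAB
        exact Subgroup.map_injective hinj hAB
      · intro B hB
        obtain ⟨A, rfl⟩ := hsur B
        simp only [Finset.mem_filter, Finset.mem_univ, true_and] at hB
        refine ⟨A, ?_, rfl⟩
        simp only [Finset.mem_filter, Finset.mem_univ, true_and]
        rw [lt_iff_le_not_ge] at hB ⊢
        exact ⟨(hle _ _).1 hB.1, fun h' => hB.2 ((hle _ _).2 h')⟩
      · intro Q hQ
        simp only [Finset.mem_filter, Finset.mem_univ, true_and] at hQ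
        exact (ih Q hQ).symm
    · rw [cN_zero h, cN_zero (fun h' => h ((hN S).1 h'))]

open Classical in
/-- the function `f` -/
def fN (NN : Subgroup V → Prop) (R S : Subgroup V) : ℤ := ∑ Q with Q ⊔ R = S, cN NN Q

theorem fN_not {NN : Subgroup V → Prop} {R S : Subgroup V} (h : ¬ R ≤ S) : fN NN R S = 0 := by
  classical
  unfold fN
  rw [Finset.filter_eq_empty_iff.2, Finset.sum_empty]
  intro Q _ hQ
  exact h (hQ ▸ le_sup_right)

open Classical in
theorem fN_sum {NN : Subgroup V → Prop} (hup : ∀ Q T : Subgroup V, NN Q → Q ≤ T → NN T)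
    {R S : Subgroup V} (hR : NN R) (h : R ≤ S) : ∑ T with T ≤ S, fN NN R T = 1 := by
  have hS : NN S := hup R S hR h
  rw [← cN_le hS]
  unfold fN
  have hm : ∀ Q ∈ (Finset.univ.filter fun Q : Subgroup V => Q ≤ S),
      Q ⊔ R ∈ (Finset.univ.filter fun T : Subgroup V => T ≤ S) := by
    intro Q hQ
    simp only [Finset.mem_filter, Finset.mem_univ, true_and] at hQ ⊢
    exact sup_le hQ h
  rw [← Finset.sum_fiberwise_of_maps_to hm (cN NN)]
  refine Finset.sum_congr rfl fun T hT => ?_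
  refine Finset.sum_congr ?_ fun _ _ => rfl
  ext Q
  simp only [Finset.mem_filter, Finset.mem_univ, true_and] at hT ⊢
  constructor
  · intro hQ
    exact ⟨(le_sup_left.trans hQ.le).trans hT, hQ⟩
  · rintro ⟨_, hQ⟩
    exact hQ

open Classical in
theorem fN_val {NN : Subgroup V → Prop} (hup : ∀ Q T : Subgroup V, NN Q → Q ≤ T → NN T)
    {R : Subgroup V} (hR : NN R) (S : Subgroup V) : fN NN R S = if S = R then 1 else 0 := by
  induction S using WellFoundedLT.induction with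
  | ind S ih =>
    by_cases h : R ≤ S
    · have h1 := fN_sum (NN := NN) hup hR h
      rw [split_le] at h1
      have h2 : ∑ T with T < S, fN NN R T = ∑ T with T < S, (if T = R then (1 : ℤ) else 0) := by
        refine Finset.sum_congr rfl fun T hT => ih T ?_
        simpa using hT
      rw [h2, Finset.sum_ite_eq'] at h1
      by_cases h3 : S = R
      · rw [if_pos h3]
        rw [if_neg] at h1
        · linarith
        · rw [h3]
          simp
      · rw [if_neg h3]
        rw [if_pos] at h1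
        · linarith
        · simp only [Finset.mem_filter, Finset.mem_univ, true_and]
          exact lt_of_le_of_ne h (Ne.symm h3)
    · rw [fN_not h, if_neg]
      intro h'
      exact h h'.ge

theorem fin_eq (NN : Subgroup V → Prop) (R S : Subgroup V) :
    ∑ᶠ Q ∈ {Q : Subgroup V | NN Q ∧ Q ⊔ R = S}, - cN NN Q = - fN NN R S := by
  classical
  rw [finsum_mem_eq_finite_toFinset_sum _ (Set.toFinite _), Finset.sum_neg_distrib]
  congr 1
  unfold fN
  refine Finset.sum_subset ?_ ?_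
  · intro Q hQ
    simp only [Set.Finite.mem_toFinset, Set.mem_ofPred_eq] at hQ
    simp only [Finset.mem_filter, Finset.mem_univ, true_and]
    exact hQ.2
  · intro Q hQ hQ'
    simp only [Finset.mem_filter, Finset.mem_univ, true_and] at hQ
    simp only [Set.Finite.mem_toFinset, Set.mem_ofPred_eq] at hQ'
    refine cN_zero ?_
    intro h
    exact hQ' ⟨h, hQ⟩

end poset

/-- The Moebius function of a family of subgroups which is closed upwards. -/
theorem qmn (V : Type) [CommGroup V] [Finite V] (NN : Subgroup V → Prop)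
    (hup : ∀ Q T : Subgroup V, NN Q → Q ≤ T → NN T) : ∃ μ : Subgroup V → ℤ,
    (∀ σ : MulAut V, (∀ Q : Subgroup V, NN (Q.map σ.toMonoidHom) ↔ NN Q) → ∀ Q : Subgroup V,
      μ (Q.map σ.toMonoidHom) = μ Q) ∧
    ∀ R S : Subgroup V, NN R →
      (S = R → ∑ᶠ Q ∈ {Q : Subgroup V | NN Q ∧ Q ⊔ R = S}, μ Q = -1) ∧
      (S ≠ R → ∑ᶠ Q ∈ {Q : Subgroup V | NN Q ∧ Q ⊔ R = S}, μ Q = 0) := by
  refine ⟨fun Q => - cN NN Q, ?_, ?_⟩
  · intro σ hσ Q
    change - cN NN (Q.map σ.toMonoidHom) = - cN NN Q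
    rw [cN_map NN σ hσ Q]
  · intro R S hR
    constructor
    · intro h
      rw [fin_eq, fN_val hup hR, if_pos h]
    · intro h
      rw [fin_eq, fN_val hup hR, if_neg h, neg_zero]

/-- Gluing over a family. -/
theorem qgn (hQlq : QlqStmt) (hQlp : QlpStmt) (hQis : QisStmt)
    (hQsn : QsnStmt) (hQlr : QlrStmt) (hQdi : QdiStmt) : QgnStmt := by
  intro ℓ _ F V _ _ _ _ NN Sg S hp hNt hup hSg hS hBQ hone hiso
  classical
  have : Fintype (Subgroup V) := Fintype.ofFinite _
  obtain ⟨μ, hμ1, hμ2⟩ := qmn V NN hup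
  obtain ⟨i_rf, i_sy, -, i_BQ, -, -, i_Ret, -, -, i_cm, -, -, -, i_tr, i_one, -⟩ := hQis F V
  obtain ⟨U, hU⟩ : ∃ U : Finset (Subgroup V), ∀ Q, Q ∈ U ↔ NN Q :=
    ⟨Finset.univ.filter (fun Q => NN Q), fun Q => by simp⟩
  obtain ⟨L, hL⟩ : ∃ L : List (Subgroup V × Bool), (L : Multiset (Subgroup V × Bool)) = ml U μ :=
    ⟨(ml U μ).toList, Multiset.coe_toList _⟩
  have hLm : ∀ p ∈ L, NN p.1 := by
    intro p hp'
    have h1 : p ∈ (L : Multiset (Subgroup V × Bool)) := Multiset.mem_coe.2 hp'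
    rw [hL] at h1
    exact (hU _).1 (mem_ml h1)
  -- a product over any list with entries in the family has the trivial quotient at `⊤`
  have hTop : ∀ L' : List (Subgroup V × Bool), (∀ p ∈ L', NN p.1) →
      BQ (prd S L') (IA.one F V) ⊤ := by
    intro L' hL'
    have h1 := (hQlq ℓ F V (Subgroup V) (Subgroup V) S S (fun Q => Q ⊔ ⊤) L' hp).2.2.1 ⊤
      (fun p hp' => hBQ p.1 (hL' p hp') ⊤)
    have h2 := (hQlq ℓ F V (Subgroup V) (Subgroup V) S S (fun Q => Q ⊔ ⊤)
      (L'.map (fun p => (p.1 ⊔ ⊤, p.2))) hp).2.2.2.2 (by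
        intro p hp'
        obtain ⟨q, -, rfl⟩ := List.mem_map.1 hp'
        change Iso (S (q.1 ⊔ ⊤)) _
        rw [sup_top_eq]
        exact hone)
    exact i_BQ _ _ _ _ ⊤ (i_rf _) h2 h1
  -- the quotient at any subgroup
  have hAny : ∀ R : Subgroup V,
      BQ (prd S L) (prd S (L.map (fun p : Subgroup V × Bool => (p.1 ⊔ R, p.2)))) R := by
    intro R
    exact (hQlq ℓ F V (Subgroup V) (Subgroup V) S S (fun Q => Q ⊔ R) L hp).2.2.1 R
      (fun p hp' => hBQ p.1 (hLm p hp') R)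
  have hMx : Mx (prd S L) := (hQlq ℓ F V (Subgroup V) (Subgroup V) S S id L hp).1
    (fun p hp' => (hS p.1 (hLm p hp')).1)
  refine ⟨prd S L, hMx, (hQlq ℓ F V (Subgroup V) (Subgroup V) S S id L hp).2.1
    (fun p hp' => (hS p.1 (hLm p hp')).2), ?_, hTop L hLm, ?_, ?_⟩
  · intro σ hσ
    apply (hQsn F V).1 _ _ hMx
    have h1 := (hQlq ℓ F V (Subgroup V) (Subgroup V) S S (fun Q => Q.map σ.toMonoidHom) L
      hp).2.2.2.1 σ (fun p hp' => hiso σ hσ p.1 (hLm p hp'))
    have h2 : (L.map (fun p => (p.1.map σ.toMonoidHom, p.2))).Perm L := by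
      rw [← Multiset.coe_eq_coe, ← Multiset.map_coe, hL]
      refine perm_ml U μ (MulEquiv.mapSubgroup σ).toEquiv ?_ (fun Q => hμ1 σ (hSg σ hσ) Q)
      intro Q
      rw [hU, hU]
      exact (hSg σ hσ Q).symm
    have h4 := i_tr σ 1 _ _ _ h1 ((i_one _ _).2 (hQlp F V (Subgroup V) S _ _ h2))
    rw [one_mul] at h4
    exact h4
  · intro R
    refine ⟨_, ?_, hAny R⟩
    refine (hQlq ℓ F V (Subgroup V) (Subgroup V) S S id _ hp).1 ?_
    intro p hp'
    obtain ⟨q, hq, rfl⟩ := List.mem_map.1 hp'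
    exact (hS _ (hup _ _ (hLm q hq) le_sup_left)).1
  · intro R hR
    obtain ⟨LR, hLR⟩ : ∃ LR, LR = L.map (fun p : Subgroup V × Bool => (p.1 ⊔ R, p.2)) :=
      ⟨_, rfl⟩
    have hLRm : ∀ p ∈ (R, true) :: LR, NN p.1 := by
      intro p hp'
      rcases List.mem_cons.1 hp' with rfl | h
      · exact hR
      · rw [hLR] at h
        obtain ⟨q, -, rfl⟩ := List.mem_map.1 h
        exact hup R _ hR le_sup_right
    have hcm : Iso (prd S ((R, true) :: LR)) ((prd S LR).tens (S R)) := i_cm _ _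
    refine ⟨prd S LR, ?_, ?_, ?_⟩
    · rw [hLR]
      exact hAny R
    · apply i_Ret _ _ hcm
      apply hQlr F V (Subgroup V) S _ (fun p hp' => ⟨(hS p.1 (hLRm p hp')).1, ?_⟩)
      · intro T
        have h1 := count_ml U μ (fun Q => Q ⊔ R) T
        rw [← hL, Multiset.map_coe, ← hLR] at h1
        have h2 : ∑ Q ∈ U.filter (fun Q => Q ⊔ R = T), μ Q =
            ∑ᶠ Q ∈ {Q : Subgroup V | NN Q ∧ Q ⊔ R = T}, μ Q := by
          rw [finsum_mem_eq_finite_toFinset_sum _ (Set.toFinite _)]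
          refine Finset.sum_congr ?_ fun _ _ => rfl
          ext Q
          simp [hU]
        rw [h2] at h1
        rw [cnt, cnt, ← Multiset.cons_coe, Multiset.count_cons, Multiset.count_cons]
        by_cases h3 : T = R
        · rw [(hμ2 R T hR).1 h3] at h1
          subst h3
          rw [if_pos rfl, if_neg (by simp)]
          omega
        · rw [(hμ2 R T hR).2 h3] at h1
          rw [if_neg (fun h => h3 (congrArg Prod.fst h)),
            if_neg (fun h => h3 (congrArg Prod.fst h))]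
          omega
      · obtain ⟨β, s, hb⟩ := hBQ p.1 (hLRm p hp') ⊤
        have h1 := hQdi ℓ F V (S p.1).A (S (p.1 ⊔ ⊤)).A _ _ ⊤ β s hp hb.toBrS
        obtain ⟨e, -⟩ := hone
        rw [h1, sup_top_eq]
        have h2 : Module.finrank F (S ⊤).A = 1 := by
          rw [e.toLinearEquiv.finrank_eq]
          exact Module.finrank_self F
        rw [h2, Nat.cast_one]
        exact one_ne_zero
    · exact i_BQ _ _ _ _ ⊤ hcm (i_rf _) (hTop _ hLRm)

end Pool.Agent.PFE.H79
end
end -- Pool.Agent.Helper79_PFE.Qgn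

section -- Pool.Agent.Helper79_PFE.PmzN

/-!
# Squad PFE: part (0) for a family of subgroups (helper79), unconditional
-/

open scoped BigOperators TensorProduct

noncomputable section

namespace Pool.Agent.PFE.H79

open Pool.Agent.PFC Pool.Agent.PFE
open Pool.Agent.PFC.B5c (bd)

theorem qgn_ : QgnStmt :=
  qgn (H81.qlq qte_ H13.qop H62.qmx H20.qcp H85Q.qis) (H63.qlp H85Q.qis) H85Q.qis H69.qsn
    (H3.qlr (H63.qlp H85Q.qis) H85Q.qis H72.qre H6.qrt) H44.qdi

/-- Part (0) for a family of subgroups. -/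
theorem pmzN (hqgn : QgnStmt) : PmzNStmt := by
  intro F V E A _ _ _ _ _ _ _ _ ℓ _ φ NN α hC hI
  classical
  have := hI.fin
  have hp : Fact ℓ.Prime := ⟨hC.pr⟩
  obtain ⟨N, Y', j, κ, n, hn0, hNe, hκ, hjf, hjj, hj1, ⟨lam, hlam⟩, hps, hYt, hun, hCPX, hCPY,
    hRzN, hRzY, hNa, hpm⟩ := coreN hqgn F V E A ℓ φ NN α hC hI
  refine ⟨Y'.A, inferInstance, inferInstance, Y'.ι, hpm, ?_⟩
  have hcn : Cnr j κ := ⟨hκ.inj, hκ.mul, hκ.one, hκ.ran⟩
  have hzm := H52.zmx F N.A A n hn0 hNe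
  have hlcn : B5c.LcnStmt := B5c.H65.lcn
  have hce : ∀ z : (N.tens (bd F α)).A, (∀ a, z * a = a * z) → IsUnit z ∨ IsNilpotent z := by
    intro z hz
    obtain ⟨c, hc, rfl⟩ := hzm.1 z hz
    have hcz : c ∈ Cz F α ⊤ := by
      rw [Cz, Subalgebra.mem_centralizer_iff]
      intro g _
      exact (hc g).symm
    rcases (hlcn F (Cz F α ⊤) hI.loc).1 ⟨c, hcz⟩ with h | h
    · left
      have h2 : IsUnit c := by
        have := h.map (Cz F α ⊤).val
        exact this
      have := h2.map (Algebra.TensorProduct.includeRight : A →ₐ[F] N.A ⊗[F] A)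
      exact this
    · right
      have h2 : IsNilpotent c := by
        obtain ⟨k, hk⟩ := h
        exact ⟨k, by simpa using congrArg Subtype.val hk⟩
      exact h2.map (Algebra.TensorProduct.includeRight : A →ₐ[F] N.A ⊗[F] A)
  have hfull : (1 : (N.tens (bd F α)).A) ∈ Submodule.span F {x | ∃ a b, x = a * j * b} :=
    funr ℓ F V E (N.tens (bd F α)).A φ (N.tens (bd F α)).ι lam j hC.pg hC.cop hC.fa hlam hps hYt
      hun hce hjf hjj hj1
  refine ⟨?_, ?_⟩
  · apply le_antisymm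
    · exact (H63.lsc F _ Y'.A j κ hcn).trans (H49c.lsm H91.lsf F N.A A n hn0 hNe)
    · exact (B5c.H60.lsn H63.lsc F N.A A n hn0 hNe).trans (H91.lsf F _ Y'.A j κ hcn hfull)
  · exact (B5c.H76.zcn F _ Y'.A j κ hcn hfull).trans hzm.2

theorem pmzN_ : PmzNStmt := pmzN qgn_

end Pool.Agent.PFE.H79
end
end -- Pool.Agent.Helper79_PFE.PmzN

section -- Pool.Agent.Helper79_PFE.SznN

/-!
# Squad PFE: assembly of `SznStmt` (helper79)
-/

open scoped BigOperators TensorProduct

noncomputable section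

namespace Pool.Agent.PFE.H79

open Pool.Agent.PFC Pool.Agent.PFE Pool.Agent.PFE.S
open Pool.Agent.PFC.B5c (bd)

/-- The elements of `E` which centralise `Q`. -/
def cE {V E : Type} [CommGroup V] [Group E] (φ : E →* MulAut V) (Q : Subgroup V) :
    Subgroup E where
  carrier := {e | ∀ u ∈ Q, φ e u = u}
  one_mem' := by
    intro u _
    rw [map_one, MulAut.one_apply]
  mul_mem' := by
    intro a b ha hb u hu
    rw [map_mul, MulAut.mul_apply, hb u hu, ha u hu]
  inv_mem' := by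
    intro a ha u hu
    have h1 : φ a⁻¹ (φ a u) = u := by
      rw [← MulAut.mul_apply, ← map_mul, inv_mul_cancel, map_one, MulAut.one_apply]
    rwa [ha u hu] at h1

theorem szn (hqgn : QgnStmt) (twl : TwlStmt) (ptt : PttStmt) (sgt : SgtStmt) (tbu : TbuStmt)
    (tbn : TbnStmt) (sgc : SgcStmt) (sgf : SgfStmt) (abq : AbqStmt) (fla : FlaStmt)
    (flz : FlzStmt) : SznStmt := by
  intro F V E A _ _ _ _ _ _ _ _ ℓ _ φ NN α hC hI
  classical
  have := hI.fin
  have hp : Fact ℓ.Prime := ⟨hC.pr⟩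
  have qke := qke_
  have abq' : AbqStmt := abq
  obtain ⟨N, Y', j, κ, n, hn0, hNe, hκ, hjf, hjj, hj1, ⟨lam, hlam⟩, hps, hYt, hun, hCPX, hCPY,
    hRzN, hRzY, hNa, hpm⟩ := coreN hqgn F V E A ℓ φ NN α hC hI
  refine ⟨Y'.A, inferInstance, inferInstance, Y'.ι, hpm, ?_⟩
  have hcn : Cnr j κ := ⟨hκ.inj, hκ.mul, hκ.one, hκ.ran⟩
  have hzm := H52.zmx F N.A A n hn0 hNe
  have hlcn : B5c.LcnStmt := B5c.H65.lcn
  have hce : ∀ z : (N.tens (bd F α)).A, (∀ a, z * a = a * z) → IsUnit z ∨ IsNilpotent z := by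
    intro z hz
    obtain ⟨c, hc, rfl⟩ := hzm.1 z hz
    have hcz : c ∈ Cz F α ⊤ := by
      rw [Cz, Subalgebra.mem_centralizer_iff]
      intro g _
      exact (hc g).symm
    rcases (hlcn F (Cz F α ⊤) hI.loc).1 ⟨c, hcz⟩ with h | h
    · left
      have h2 : IsUnit c := by
        have := h.map (Cz F α ⊤).val
        exact this
      have := h2.map (Algebra.TensorProduct.includeRight : A →ₐ[F] N.A ⊗[F] A)
      exact this
    · right
      have h2 : IsNilpotent c := by
        obtain ⟨k, hk⟩ := h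
        exact ⟨k, by simpa using congrArg Subtype.val hk⟩
      exact h2.map (Algebra.TensorProduct.includeRight : A →ₐ[F] N.A ⊗[F] A)
  have hfull : (1 : (N.tens (bd F α)).A) ∈ Submodule.span F {x | ∃ a b, x = a * j * b} :=
    funr ℓ F V E (N.tens (bd F α)).A φ (N.tens (bd F α)).ι lam j hC.pg hC.cop hC.fa hlam hps hYt
      hun hce hjf hjj hj1
  refine ⟨?_, ?_, ?_⟩
  · apply le_antisymm
    · exact (H63.lsc F _ Y'.A j κ hcn).trans (H49c.lsm H91.lsf F N.A A n hn0 hNe)
    · exact (B5c.H60.lsn H63.lsc F N.A A n hn0 hNe).trans (H91.lsf F _ Y'.A j κ hcn hfull)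
  · exact (B5c.H76.zcn F _ Y'.A j κ hcn hfull).trans hzm.2
  intro V1 C _ _ _ _ _ i θ hV1 hi hθ S _ _ q hq
  -- the twisted Brauer maps of `N`
  obtain ⟨N1, hN1m, hN1⟩ := hNa i.range
  obtain ⟨β, s, h, hTB⟩ := tbn twl ptt qke tbu ℓ F V V1 C N N1 i θ hC.pg hV1 hi hN1m hN1 (by
    intro c
    obtain ⟨e, he⟩ := hθ c
    exact ⟨φ e, hRzN e, he⟩)
  -- the graded algebra of `Y`
  have hY := sgt twl F V V1 C N1.A S N (bd F α) i θ β s h q hTB hq
  -- the corner
  obtain ⟨S', iR, iA, κ', q', hk, hq'⟩ := sgc twl F V V1 C (N1.A ⊗[F] S) (N.tens (bd F α)) Y' i θ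
    _ j κ hκ hY
  refine ⟨S', iR, iA, q', hq', ?_⟩
  -- fullness
  obtain ⟨B, bβ, bs, hB⟩ := qal_ ℓ F V (N.tens (bd F α)) hC.pg hCPY i.range
  obtain ⟨⟨lam', hlam'⟩, hps', hBt, hun', hbj, hbjj, hbj1⟩ :=
    fla qke abq' qtr_ ℓ F V E φ (cE φ i.range) (N.tens (bd F α)) B i.range bβ bs lam j hC.pg
      (fun e => Iff.rfl) hCPY hB hlam hps hYt hRzY hjf hjj hj1
  have hcop1 : ¬ ℓ ∣ Nat.card (cE φ i.range) := fun hd =>
    hC.cop (hd.trans (Subgroup.card_subgroup_dvd_card _))
  have hfa1 : ∀ e : cE φ i.range, (∀ u, φ.comp (cE φ i.range).subtype e u = u) → e = 1 := by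
    intro e he
    apply Subtype.ext
    exact hC.fa _ he
  have hcz := flz qke abq' qal_ qte_ qun_ H52.zmx hlcn ℓ F V N N1 (bd F α) B i.range _
    hC.pg hCPX hI.ps hI.top hI.loc hN1m hN1 ⟨bβ, bs, hB⟩
  have hfB : Fl F (bβ j) :=
    funr ℓ F V (cE φ i.range) B.A (φ.comp (cE φ i.range).subtype) B.ι lam' (bβ j) hC.pg hcop1
      hfa1 hlam' hps' hBt hun' hcz hbj hbjj hbj1
  have hfS := sgf twl ptt qke ℓ F V V1 C (N1.A ⊗[F] S) (N.tens (bd F α)) B i θ _ j bβ bs hC.pg
    hV1 hi hB hY (fun v hv => hjf v (Subgroup.mem_top v)) hfB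
  obtain ⟨n1, hn1, hN1e⟩ := hN1m
  exact (B5c.H76.zcn F _ S' _ κ' hk hfS).trans (H52.zmx F N1.A S n1 hn1 hN1e).2

end Pool.Agent.PFE.H79
end
end -- Pool.Agent.Helper79_PFE.SznN

section -- Pool.Agent.Helper9_PFE.SGF

/-!
# Row SGF of squad PFE, block S: fullness goes from `Y(V1)` to `S(Y)`
-/

open scoped BigOperators TensorProduct

noncomputable section

namespace Pool.Agent.PFE.H9

open Pool.Agent.PFC Pool.Agent.PFE Pool.Agent.PFE.S

section aux

variable {F V V1 A : Type} [Field F] [CommGroup V] [CommGroup V1] [Fintype V1] [Ring A]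
  [Algebra F A]

theorem tj_one (α : V →* A) (i : V1 →* V) (v : V1) (a : A) :
    tj F α i 1 v a = cj F α (i v) a := rfl

theorem mem_Nt_one (α : V →* A) (i : V1 →* V) {a : A} (h : a ∈ Fx (cj F α) i.range) :
    a ∈ Nt F α i 1 := by
  intro v _
  rw [tj_one]
  exact h (i v) ⟨v, rfl⟩

theorem mem_Fx_iff (α : V →* A) (Q : Subgroup V) (a : A) :
    a ∈ Fx (cj F α) Q ↔ ∀ v ∈ Q, α v * a = a * α v := by
  constructor
  · intro h v hv
    have h1 : α v * (a * α v⁻¹) = a := h v hv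
    calc α v * a = α v * (a * (α v⁻¹ * α v)) := by rw [← map_mul, inv_mul_cancel, map_one, mul_one]
      _ = α v * (a * α v⁻¹) * α v := by simp only [mul_assoc]
      _ = a * α v := by rw [h1]
  · intro h v hv
    change α v * (a * α v⁻¹) = a
    rw [← mul_assoc, h v hv, mul_assoc, ← map_mul, mul_inv_cancel, map_one, mul_one]

theorem mul_mem_Fx (α : V →* A) (Q : Subgroup V) {a b : A} (ha : a ∈ Fx (cj F α) Q)
    (hb : b ∈ Fx (cj F α) Q) : a * b ∈ Fx (cj F α) Q := by
  rw [mem_Fx_iff] at ha hb ⊢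
  intro v hv
  rw [← mul_assoc, ha v hv, mul_assoc, hb v hv, mul_assoc]

end aux

theorem sgf : SgfStmt := by
  intro _ ptt qke ℓ _ F V V1 C S _ _ _ _ _ _ _ _ _ _ Y B i θ q j β s hV hc hi hB hS hj hf
  have hk := qke ℓ F V Y.A B.A (cj F Y.ι) (cj F B.ι) i.range β s hV hB.toBrS
  have hsf := hk.1
  have hθ : θ 1 = 1 := map_one θ
  have hN : ∀ a ∈ Fx (cj F Y.ι) i.range, a ∈ Nt F Y.ι i (θ 1) := fun a ha => by
    rw [hθ]
    exact mem_Nt_one Y.ι i ha
  have hmul : ∀ a ∈ Fx (cj F Y.ι) i.range, ∀ b ∈ Fx (cj F Y.ι) i.range,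
      q 1 (a * b) = q 1 a * q 1 b := fun a ha b hb => by
    have := hS.mul 1 1 a (hN a ha) b (hN b hb)
    rwa [mul_one] at this
  have key : ∀ x ∈ Submodule.span F {x | ∃ a b : B.A, x = a * β j * b},
      ∃ y ∈ Fx (cj F Y.ι) i.range, β y = x ∧
        q 1 y ∈ Submodule.span F {x | ∃ a b : S, x = a * q 1 j * b} := by
    intro x hx
    induction hx using Submodule.span_induction with
    | mem x hx =>
      obtain ⟨a, b, rfl⟩ := hx
      have h1 : s a * j ∈ Fx (cj F Y.ι) i.range := mul_mem_Fx _ _ (hsf a) hj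
      refine ⟨s a * j * s b, mul_mem_Fx _ _ h1 (hsf b), ?_, ?_⟩
      · rw [hB.mul _ h1 _ (hsf b), hB.mul _ (hsf a) _ hj, hB.bs, hB.bs]
      · refine Submodule.subset_span ⟨q 1 (s a), q 1 (s b), ?_⟩
        rw [hmul _ h1 _ (hsf b), hmul _ (hsf a) _ hj]
    | zero => exact ⟨0, Submodule.zero_mem _, map_zero _, by rw [map_zero]; exact Submodule.zero_mem _⟩
    | add x y _ _ hx hy =>
      obtain ⟨x', h1, h2, h3⟩ := hx
      obtain ⟨y', h4, h5, h6⟩ := hy
      exact ⟨x' + y', Submodule.add_mem _ h1 h4, by rw [map_add, h2, h5],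
        by rw [map_add]; exact Submodule.add_mem _ h3 h6⟩
    | smul r x _ hx =>
      obtain ⟨x', h1, h2, h3⟩ := hx
      exact ⟨r • x', Submodule.smul_mem _ _ h1, by rw [map_smul, h2],
        by rw [map_smul]; exact Submodule.smul_mem _ _ h3⟩
  obtain ⟨y, hy, hy1, hy2⟩ := key 1 hf
  have h1F : (1 : Y.A) ∈ Fx (cj F Y.ι) i.range := by
    rw [mem_Fx_iff]
    intro v _
    rw [mul_one, one_mul]
  have hβ1 : β 1 = 1 := by
    have := hB.cov 1
    rwa [Y.ι.map_one, B.ι.map_one] at this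
  have hmem : (1 : Y.A) - y ∈ Fx (cj F Y.ι) i.range := Submodule.sub_mem _ h1F hy
  have hbk : (1 : Y.A) - y ∈ BK (cj F Y.ι) i.range :=
    (hk.2.1 _ hmem).1 (by rw [map_sub, hβ1, hy1, sub_self])
  obtain ⟨m, hm⟩ := (ptt ℓ F V V1 Y.A (cj F Y.ι) i hc hi).1 _ hbk
  have hI : (1 : Y.A) - y ∈ It F Y.ι i (θ 1) := by
    refine Submodule.subset_span (Or.inl ⟨m, ?_⟩)
    rw [hm, hθ]
    unfold Tr
    rw [LinearMap.sum_apply]
    rfl
  classical
  have hq : q 1 ((1 : Y.A) - y) = 0 := by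
    have h2 := (hS.ker (Pi.single 1 ((1 : Y.A) - y)) ?_).2 ?_
    · rw [Finset.sum_eq_single (1 : C)] at h2
      · rwa [Pi.single_eq_same] at h2
      · intro c _ hc
        rw [Pi.single_eq_of_ne hc, map_zero]
      · intro h
        exact absurd (Finset.mem_univ _) h
    · intro c
      by_cases hc : c = 1
      · subst hc
        rw [Pi.single_eq_same]
        exact hN _ hmem
      · rw [Pi.single_eq_of_ne hc]
        exact Submodule.zero_mem _
    · intro c
      by_cases hc : c = 1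
      · subst hc
        rw [Pi.single_eq_same]
        exact hI
      · rw [Pi.single_eq_of_ne hc]
        exact Submodule.zero_mem _
  rw [map_sub, hS.one, sub_eq_zero] at hq
  unfold Fl
  rw [hq]
  exact hy2

end Pool.Agent.PFE.H9
end
end -- Pool.Agent.Helper9_PFE.SGF

section -- Pool.Agent.Helper79_PFE.AllS

/-!
# Squad PFE, block S: the top statement, without hypotheses (helper79)
-/

noncomputable section

namespace Pool.Agent.PFE.H79

open Pool.Agent.PFE Pool.Agent.PFE.S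

theorem szn_ : SznStmt :=
  szn qgn_ H56.twl H10.ptt H22.sgt H20.tbu H17.tbn H64.sgc H9.sgf H72.abq H29.fla H32.flz

end Pool.Agent.PFE.H79
end
end -- Pool.Agent.Helper79_PFE.AllS
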