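import Pool.Agent.Helper12_AWB.B034
import Pool.Agent.Helper12_AWB.B187
import Pool.Agent.Helper12_AWB.B188
import Pool.Agent.Helper12_AWB.B189
import Pool.Agent.Helper12_AWB.B197

/-!
# Merged copies (generated) of the modules

* `Pool.Agent.Helper10_PST.DET`
* `Pool.Agent.Helper13_PST.BKT`
* `Pool.Agent.Helper13_PST.CILET`
* `Pool.Agent.Helper15_PST.SCA`
* `Pool.Agent.Helper17_PST.RLI`
* `Pool.Agent.Helper19_PST.MLT`
* `Pool.Agent.Helper1_PST.WUN`
* `Pool.Agent.Helper20_PST.UPR`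
* `Pool.Agent.Helper23_PST.RFP`
* `Pool.Agent.Helper24_PST.FUN`
* `Pool.Agent.Helper29_PST.CSS`
* `Pool.Agent.Helper32_PST.EQC`
* `Pool.Agent.Helper37_PST.TAU`
* `Pool.Agent.Helper39_PST.LOC`
* `Pool.Agent.Helper47_PST.CSI`
* `Pool.Agent.Helper47_PST.NBK`
* `Pool.Agent.Helper51_PST.TOR`
* `Pool.Agent.Helper55_PST.CO2`
* `Pool.Agent.Helper58_PST.COB`
* `Pool.Agent.Helper69_PST.KRS`
* `Pool.Agent.Helper6_PST.GBS`
* `Pool.Agent.Helper70_PST.CFD`
* `Pool.Agent.Helper77_PST.DIF`
* `Pool.Agent.Helper84_PST.ZSU`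
* `Pool.Agent.Helper85_PST.FVP`
* `Pool.Agent.Helper87_PST.TSF`
* `Pool.Agent.Helper91_PST.UNS`
* `Pool.Agent.Helper92_PST.EPS`
* `Pool.Agent.Helper94_PST.GNS`
* `Pool.Agent.PST.AsmET`
-/

set_option autoImplicit false

section -- Pool.Agent.Helper10_PST.DET

/-!
# Squad PST, block ET, row DET (helper10): Cramer's rule
-/

open scoped BigOperators TensorProduct

noncomputable section

namespace Pool.Agent.PST.ET.H10

theorem det : DetStmt := by
  intro ℓ r _ T _ p d M hd
  have hl : 1 ≤ ℓ := (Fact.out : ℓ.Prime).one_lt.le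
  have hl2 : 1 ≤ ℓ - 1 := by
    have := (Fact.out : ℓ.Prime).two_le
    omega
  refine ⟨?_, ?_, ?_⟩
  · have hA : (Matrix.diagonal (fun j => d j ^ (ℓ - 1)) - p • M).mulVec d = 0 := by
      funext j
      rw [Matrix.sub_mulVec, Matrix.smul_mulVec]
      simp only [Pi.sub_apply, Pi.smul_apply, Pi.zero_apply, Matrix.mulVec_diagonal, smul_eq_mul]
      have h1 : d j ^ (ℓ - 1) * d j = d j ^ ℓ := by
        rw [← pow_succ, Nat.sub_add_cancel hl]
      rw [h1, hd j]
      simp [Matrix.mulVec, dotProduct]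
    intro i
    have h2 : (Matrix.diagonal (fun j => d j ^ (ℓ - 1)) - p • M).adjugate.mulVec
        ((Matrix.diagonal (fun j => d j ^ (ℓ - 1)) - p • M).mulVec d) = 0 := by
      rw [hA, Matrix.mulVec_zero]
    rw [Matrix.mulVec_mulVec, Matrix.adjugate_mul, Matrix.smul_mulVec, Matrix.one_mulVec] at h2
    have h3 := congrFun h2 i
    simpa using h3
  · intro S _ m hm
    rw [RingHom.map_det]
    have h1 : m.mapMatrix (Matrix.diagonal (fun j => d j ^ (ℓ - 1)) - p • M) =
        (-m p) • m.mapMatrix M := by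
      ext i j
      by_cases hij : i = j
      · subst hij
        simp [hm, zero_pow (by omega : ℓ - 1 ≠ 0)]
      · simp [Matrix.diagonal_apply_ne _ hij]
    rw [h1, Matrix.det_smul, Fintype.card_fin]
  · intro S _ h hp
    rw [RingHom.map_det]
    have h1 : h.mapMatrix (Matrix.diagonal (fun j => d j ^ (ℓ - 1)) - p • M) =
        Matrix.diagonal (fun j => h (d j) ^ (ℓ - 1)) := by
      ext i j
      by_cases hij : i = j
      · subst hij
        simp [hp]
      · simp [Matrix.diagonal_apply_ne _ hij, hp]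
    rw [h1, Matrix.det_diagonal]

end Pool.Agent.PST.ET.H10
end
end -- Pool.Agent.Helper10_PST.DET

section -- Pool.Agent.Helper13_PST.BKT

/-!
# Row BKT of squad PST: fixed vectors are combinations of `V` and traces from the trivial group
-/

set_option autoImplicit false

open scoped BigOperators

noncomputable section

namespace Pool.Agent.PST.H13

open Pool.Agent.PFC (Fx BK cj IsTv)

/-- summation over a subgroup in two stages -/
theorem tv_two {V M : Type} [CommGroup V] [Fintype V] [DecidableEq V] [AddCommMonoid M]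
    {P' P : Subgroup V} (hle : P' ≤ P) {S : Finset V} (hS : IsTv P' P S)
    [DecidablePred (· ∈ P)] [DecidablePred (· ∈ P')] (f : V → M) :
    ∑ x ∈ S, ∑ p ∈ Finset.univ.filter (· ∈ P'), f (x * p) =
      ∑ v ∈ Finset.univ.filter (· ∈ P), f v := by
  choose! i hi hiu using hS.2
  rw [← Finset.sum_product']
  refine Finset.sum_nbij' (fun z => z.1 * z.2) (fun v => (i v, (i v)⁻¹ * v)) ?_ ?_ ?_ ?_ ?_
  · rintro ⟨x, p⟩ hz
    rw [Finset.mem_product] at hz
    simp only [Finset.mem_filter, Finset.mem_univ, true_and] at hz ⊢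
    exact P.mul_mem (hS.1 x hz.1) (hle hz.2)
  · intro v hv
    simp only [Finset.mem_filter, Finset.mem_univ, true_and] at hv
    rw [Finset.mem_product]
    simp only [Finset.mem_filter, Finset.mem_univ, true_and]
    exact hi v hv
  · rintro ⟨x, p⟩ hz
    rw [Finset.mem_product] at hz
    simp only [Finset.mem_filter, Finset.mem_univ, true_and] at hz
    have h1 : x * p ∈ P := P.mul_mem (hS.1 x hz.1) (hle hz.2)
    have h2 : x = i (x * p) := by
      refine hiu (x * p) h1 x ⟨hz.1, ?_⟩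
      rw [inv_mul_cancel_left]
      exact hz.2
    simp only [Prod.mk.injEq]
    rw [← h2]
    exact ⟨rfl, inv_mul_cancel_left _ _⟩
  · intro v _
    exact mul_inv_cancel_left _ _
  · intro z _
    rfl

theorem bkt : ET.BktStmt := by
  intro ℓ _ F V H _ _ _ _ _ _ α hp hB
  classical
  have hF : (ℓ : F) = 0 := CharP.cast_eq_zero F ℓ
  have hcj : ∀ (v : V) (m : H), cj F α v m = α v * m * α v⁻¹ := by
    intro v m
    change α v * (m * α v⁻¹) = _
    rw [mul_assoc]
  have hcu : ∀ (v u : V), cj F α v (α u) = α u := by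
    intro v u
    rw [hcj, ← map_mul, ← map_mul, mul_comm v u, mul_inv_cancel_right]
  have hcc : ∀ (v : V) (c : V → F), cj F α v (∑ u, c u • α u) = ∑ u, c u • α u := by
    intro v c
    rw [map_sum]
    refine Finset.sum_congr rfl fun u _ => ?_
    rw [map_smul, hcu]
  -- the submodule of the elements of the form
  let G : Subgroup V → Submodule F H := fun R =>
    { carrier := {a | ∃ (c : V → F) (m : H),
        a = ∑ u, c u • α u + ∑ v ∈ Finset.univ.filter (· ∈ R), cj F α v m}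
      add_mem' := by
        rintro a b ⟨c, m, rfl⟩ ⟨c', m', rfl⟩
        refine ⟨c + c', m + m', ?_⟩
        simp only [Pi.add_apply, add_smul, map_add, Finset.sum_add_distrib]
        abel
      zero_mem' := by
        refine ⟨0, 0, ?_⟩
        simp
      smul_mem' := by
        rintro r a ⟨c, m, rfl⟩
        refine ⟨r • c, r • m, ?_⟩
        simp only [Pi.smul_apply, smul_add, map_smul, Finset.smul_sum, smul_eq_mul, mul_smul] }
  have key : ∀ n : ℕ, ∀ R : Subgroup V, Nat.card R = n → ∀ a ∈ Fx (cj F α) R, a ∈ G R := by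
    intro n
    induction n using Nat.strong_induction_on with
    | _ n ih =>
    intro R hn a ha
    by_cases hR : R ≤ ⊥
    · have hR' : R = ⊥ := le_bot_iff.1 hR
      refine ⟨0, a, ?_⟩
      have e : Finset.univ.filter (· ∈ R) = {(1 : V)} := by
        ext v
        simp only [Finset.mem_filter, Finset.mem_univ, true_and, Finset.mem_singleton]
        rw [hR', Subgroup.mem_bot]
      rw [e, Finset.sum_singleton, map_one]
      simp
    · obtain ⟨c, hc⟩ := hB R hR a ha
      have h1 : BK (cj F α) R ≤ G R := by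
        unfold BK
        rw [Submodule.span_le]
        rintro x ⟨P', S, m, hlt, hS, hm, rfl⟩
        have hcard : Nat.card P' < n := by
          rw [← hn]
          by_contra hcon
          exact hlt.ne (Subgroup.eq_of_le_of_card_ge hlt.le (not_lt.1 hcon))
        obtain ⟨c', m', hm'⟩ := ih _ hcard P' rfl m hm
        refine ⟨0, m', ?_⟩
        rw [hm']
        have e1 : ∀ x, cj F α x (∑ u, c' u • α u +
            ∑ v ∈ Finset.univ.filter (· ∈ P'), cj F α v m') = ∑ u, c' u • α u +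
            ∑ v ∈ Finset.univ.filter (· ∈ P'), cj F α (x * v) m' := by
          intro x
          rw [map_add, hcc, map_sum]
          congr 1
          refine Finset.sum_congr rfl fun v _ => ?_
          rw [map_mul]
          rfl
        simp only [e1]
        rw [Finset.sum_add_distrib, tv_two hlt.le hS (fun v => cj F α v m'), Finset.sum_const,
          ← Nat.cast_smul_eq_nsmul F,
          Pool.Agent.PSS.H52.card_tv_zero ℓ hF (hp.to_subgroup R) hlt hS, zero_smul]
        simp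
      have h2 : ∑ u, c u • α u ∈ G R := by
        refine ⟨c, 0, ?_⟩
        simp
      have h3 := (G R).add_mem (h1 hc) h2
      rwa [sub_add_cancel] at h3
  intro R _ a ha
  obtain ⟨c, m, hcm⟩ := key _ R rfl a ha
  refine ⟨c, m, ?_⟩
  rw [hcm]
  congr 1
  rw [Finset.sum_subtype (Finset.univ.filter (· ∈ R)) (p := fun x => x ∈ R) (by simp)]
  exact Finset.sum_congr rfl fun v _ => hcj _ _

end Pool.Agent.PST.H13
end
end -- Pool.Agent.Helper13_PST.BKT

section -- Pool.Agent.Helper13_PST.CILET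

/-!
# Row CIL_ET of squad PST: an idempotent which is central modulo `π` is central
-/

set_option autoImplicit false

open scoped BigOperators

noncomputable section

namespace Pool.Agent.PST.H13

open Pool.Agent.PFD.D2 (Cdv FibG)

theorem cil (hTor : ET.TorStmt) : ET.CilStmt := by
  intro R F D H _ _ c _ _ _ _ _ f b hb hc a
  obtain ⟨t1, t2⟩ := hTor R F D c
  have k1 : ∀ x : D, c.π • x = 0 → x = 0 := fun x hx => t1 1 x (by rw [pow_one]; exact hx)
  have h1 : ∀ x : D, b * x = x → x * b = 0 → x = 0 := by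
    intro x hx1 hx2
    apply t2
    have h : ∀ n : ℕ, ∃ y, (b * y = y ∧ y * b = 0) ∧ x = c.π ^ n • y := by
      intro n
      induction n with
      | zero => exact ⟨x, ⟨hx1, hx2⟩, by rw [pow_zero, one_smul]⟩
      | succ n ih =>
        obtain ⟨y, ⟨hy1, hy2⟩, hy⟩ := ih
        have hq : f.q y = 0 := by
          rw [← hy1, map_mul, hc, ← map_mul, hy2, map_zero]
        obtain ⟨z, hz⟩ := f.ker y hq
        refine ⟨z, ⟨?_, ?_⟩, ?_⟩
        · rw [← sub_eq_zero]
          apply k1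
          rw [smul_sub, ← mul_smul_comm, ← hz, hy1, sub_self]
        · apply k1
          rw [← smul_mul_assoc, ← hz, hy2]
        · rw [hy, hz, smul_smul, pow_succ]
    intro n
    obtain ⟨y, _, hy⟩ := h n
    exact ⟨y, hy⟩
  have h2 : ∀ x : D, x * b = x → b * x = 0 → x = 0 := by
    intro x hx1 hx2
    apply t2
    have h : ∀ n : ℕ, ∃ y, (y * b = y ∧ b * y = 0) ∧ x = c.π ^ n • y := by
      intro n
      induction n with
      | zero => exact ⟨x, ⟨hx1, hx2⟩, by rw [pow_zero, one_smul]⟩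
      | succ n ih =>
        obtain ⟨y, ⟨hy1, hy2⟩, hy⟩ := ih
        have hq : f.q y = 0 := by
          rw [← hy1, map_mul, ← hc, ← map_mul, hy2, map_zero]
        obtain ⟨z, hz⟩ := f.ker y hq
        refine ⟨z, ⟨?_, ?_⟩, ?_⟩
        · rw [← sub_eq_zero]
          apply k1
          rw [smul_sub, ← smul_mul_assoc, ← hz, hy1, sub_self]
        · apply k1
          rw [← mul_smul_comm, ← hz, hy2]
        · rw [hy, hz, smul_smul, pow_succ]
    intro n
    obtain ⟨y, _, hy⟩ := h n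
    exact ⟨y, hy⟩
  have e1 : b * a = b * a * b := by
    rw [← sub_eq_zero]
    apply h1
    · rw [mul_sub, ← mul_assoc, hb, ← mul_assoc, ← mul_assoc, hb]
    · rw [sub_mul, mul_assoc (b * a) b b, hb, sub_self]
  have e2 : a * b = b * a * b := by
    rw [← sub_eq_zero]
    apply h2
    · rw [sub_mul, mul_assoc a b b, hb, mul_assoc (b * a) b b, hb]
    · rw [mul_sub, ← mul_assoc, ← mul_assoc, ← mul_assoc, hb, sub_self]
  rw [e1, e2]

end Pool.Agent.PST.H13
end
end -- Pool.Agent.Helper13_PST.CILET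

section -- Pool.Agent.Helper15_PST.SCA

/-! SCA: the sum of the elements of `V` -/

set_option autoImplicit false

open scoped BigOperators

noncomputable section

namespace Pool.Agent.PST.ET.H15

open Pool.Agent.PST Pool.Agent.PST.ET

theorem geom_poly (ℓ : ℕ) [Fact ℓ.Prime] :
    (∑ k ∈ Finset.range ℓ, (Polynomial.X : Polynomial (ZMod ℓ)) ^ k) =
      (1 - Polynomial.X) ^ (ℓ - 1) := by
  have hℓ : 0 < ℓ := (Fact.out : ℓ.Prime).pos
  have h1 : (1 - Polynomial.X : Polynomial (ZMod ℓ)) ≠ 0 := by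
    intro h
    have h2 := congrArg (Polynomial.eval 0) h
    simp at h2
  apply mul_left_cancel₀ h1
  rw [← pow_succ', Nat.sub_add_cancel hℓ, sub_pow_char, one_pow, mul_neg_geom_sum]

theorem geom (ℓ : ℕ) [Fact ℓ.Prime] (K : Type) [CommRing K] [CharP K ℓ] (x : K) :
    ∑ k : Fin ℓ, x ^ (k : ℕ) = (1 - x) ^ (ℓ - 1) := by
  letI : Algebra (ZMod ℓ) K := ZMod.algebra K ℓ
  have h := congrArg (Polynomial.aeval x) (geom_poly ℓ)
  rw [map_sum, map_pow, map_sub, map_one, Polynomial.aeval_X] at h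
  rw [← h, Finset.sum_range]
  refine Finset.sum_congr rfl fun k _ => ?_
  rw [map_pow, Polynomial.aeval_X]

theorem sca : ScaStmt := by
  classical
  intro ℓ r _ V K _ _ _ _ β b hb
  rw [← hb.sum_comp (fun v => β v)]
  have h1 := Finset.prod_univ_sum (fun _ : Fin r => (Finset.univ : Finset (Fin ℓ)))
    (fun i k => β (b i) ^ (k : ℕ))
  rw [Fintype.piFinset_univ] at h1
  calc ∑ e : Fin r → Fin ℓ, β (∏ i, b i ^ (e i : ℕ))
      = ∑ e : Fin r → Fin ℓ, ∏ i, β (b i) ^ (e i : ℕ) := by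
        refine Finset.sum_congr rfl fun e _ => ?_
        rw [map_prod]
        refine Finset.prod_congr rfl fun i _ => ?_
        rw [map_pow]
    _ = ∏ i, ∑ k : Fin ℓ, β (b i) ^ (k : ℕ) := h1.symm
    _ = ∏ i, (1 - β (b i)) ^ (ℓ - 1) :=
        Finset.prod_congr rfl fun i _ => geom ℓ K _

end Pool.Agent.PST.ET.H15
end
end -- Pool.Agent.Helper15_PST.SCA

section -- Pool.Agent.Helper17_PST.RLI

/-!
# Squad PST, block ET, row RLI
-/

open scoped BigOperators TensorProduct

noncomputable section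

namespace Pool.Agent.PST.ET.H17

open Pool.Agent.PFD.D2 (Cdv FibG)
open Pool.Agent.PFC (Fx BK cj bi tw PS Frm PMid)
open Pool.Agent.PSS (RF)

theorem kpi {R F : Type} [CommRing R] [Field F] (c : Cdv R F) : c.κ c.π = 0 :=
  (c.ker c.π).2 ⟨1, (mul_one _).symm⟩

theorem q_smul {R F Hs H : Type} [CommRing R] [Field F] {c : Cdv R F} [Ring Hs] [Algebra R Hs]
    [Ring H] [Algebra F H] (f : FibG Hs H c) (r : R) (x : Hs) : f.q (r • x) = c.κ r • f.q x := by
  rw [Algebra.smul_def, map_mul, f.sc, ← Algebra.smul_def]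

theorem tor1 (hTOR : TorStmt) {R F D : Type} [CommRing R] [Field F] (c : Cdv R F)
    [AddCommGroup D] [Module R D] [Module.Free R D] (x : D) (hx : c.π • x = 0) : x = 0 := by
  refine (hTOR R F D c).1 1 x ?_
  rw [pow_one]; exact hx

section

variable {R F V H Hs : Type} [CommRing R] [Field F] [CommGroup V] [Fintype V] [DecidableEq V]
  [Ring H] [Algebra F H] [Ring Hs] [Algebra R Hs] [Module.Free R Hs] (c : Cdv R F)
  (f : FibG Hs H c) (α : V →* H) (lam : H →ₗ[F] F) (σ : V → Hs)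

omit [Module.Free R Hs] in
theorem coef (hP : Prj α lam) (hσ : ∀ v, f.q (σ v) = α v) (n : ℕ) (r : V → R) (h : Hs)
    (e : ∑ v, r v • σ v = c.π ^ (n + 1) • h) (u : V) : c.κ (r u) = 0 := by
  have h1 : ∑ v, c.κ (r v) • α v = 0 := by
    have h2 := congrArg f.q e
    rw [map_sum, q_smul, map_pow, kpi, zero_pow (Nat.succ_ne_zero n), zero_smul] at h2
    rw [← h2]
    refine Finset.sum_congr rfl fun v _ => ?_
    rw [q_smul, hσ]
  have h3 : lam (α u⁻¹ * ∑ v, c.κ (r v) • α v) = 0 := by rw [h1, mul_zero, map_zero]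
  rw [Finset.mul_sum, map_sum] at h3
  have h4 : ∀ v, lam (α u⁻¹ * (c.κ (r v) • α v)) = if v = u then c.κ (r v) else 0 := by
    intro v
    rw [mul_smul_comm, ← map_mul, map_smul, hP.del, smul_eq_mul]
    by_cases hv : v = u
    · subst hv; simp
    · have : ¬ (u⁻¹ * v = 1) := by
        intro h0
        exact hv (inv_mul_eq_one.1 h0).symm
      rw [if_neg this, if_neg hv, mul_zero]
  rw [Finset.sum_congr rfl fun v _ => h4 v, Finset.sum_ite_eq' Finset.univ u,
    if_pos (Finset.mem_univ u)] at h3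
  exact h3

theorem indep (hTOR : TorStmt) (hP : Prj α lam) (hσ : ∀ v, f.q (σ v) = α v) :
    ∀ (n : ℕ) (r : V → R) (h : Hs), ∑ v, r v • σ v = c.π ^ n • h →
      ∀ v, ∃ s, r v = c.π ^ n * s := by
  intro n
  induction n with
  | zero => intro r h _ v; exact ⟨r v, by rw [pow_zero, one_mul]⟩
  | succ n ih =>
    intro r h e
    have h1 : ∀ v, ∃ s, r v = c.π * s := fun v =>
      (c.ker (r v)).1 (coef c f α lam σ hP hσ n r h e v)
    choose s hs using h1
    have h2 : c.π • (∑ v, s v • σ v - c.π ^ n • h) = 0 := by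
      rw [smul_sub, Finset.smul_sum, smul_smul, ← pow_succ', ← e, sub_eq_zero]
      refine Finset.sum_congr rfl fun v _ => ?_
      rw [smul_smul, ← hs v]
    have h3 := sub_eq_zero.1 (tor1 hTOR c _ h2)
    intro v
    obtain ⟨t, ht⟩ := ih s h h3 v
    exact ⟨t, by rw [hs v, ht, ← mul_assoc, ← pow_succ']⟩

end

theorem rli (hTOR : TorStmt) : RliStmt := by
  intro R F V H Hs _ _ _ _ _ _ _ _ _ _ c f α lam σ hP hσ
  have h1 := indep c f α lam σ hTOR hP hσ
  refine ⟨h1, ?_, ?_⟩
  · intro r hr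
    funext v
    refine c.sep _ fun n => ?_
    exact h1 n r 0 (by rw [hr, smul_zero]) v
  · intro h hh
    obtain ⟨r, hr⟩ := (Submodule.mem_span_range_iff_exists_fun R).1 hh
    have h2 := h1 1 r h (by rw [hr, pow_one])
    choose s hs using h2
    have h3 : c.π • (∑ v, s v • σ v - h) = 0 := by
      rw [smul_sub, Finset.smul_sum, ← hr, sub_eq_zero]
      refine Finset.sum_congr rfl fun v _ => ?_
      rw [smul_smul, hs v, pow_one]
    have h4 := sub_eq_zero.1 (tor1 hTOR c _ h3)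
    exact (Submodule.mem_span_range_iff_exists_fun R).2 ⟨s, h4⟩

end Pool.Agent.PST.ET.H17
end
end -- Pool.Agent.Helper17_PST.RLI

section -- Pool.Agent.Helper19_PST.MLT

/-!
# Squad PST, block ET, row MLT: a block is a multiple of a local idempotent modulo the commutators
-/

open scoped BigOperators TensorProduct

noncomputable section

namespace Pool.Agent.PST.ET.H19.M

open Pool.Agent.PFC (BK cj)
open Pool.Agent.PSS (FxR BKR cw Cl RF Uni)
open Pool.Agent.PSS.S5 (Loi Pci BorStmt RbkStmt)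

theorem mem_fx {F V H : Type} [Field F] [CommGroup V] [Ring H] [Algebra F H] {α : V →* H}
    {m : H} (h : ∀ u, α u * m = m * α u) : m ∈ FxR (cw F α) ⊤ := by
  have hcw : ∀ u : V, cw F α u m = α u * (m * α u⁻¹) := fun u => rfl
  intro u _
  rw [hcw, ← mul_assoc, h u, mul_assoc, ← map_mul, mul_inv_cancel, map_one, mul_one]

theorem mlt (hD : DciStmt) (hE : EqcStmt) (hB : BcmStmt) (hBor : BorStmt) (hRbk : RbkStmt)
    (hBki : Pool.Agent.PSS.S0.BkiStmt) (hZrt : Pool.Agent.PSS.S0.ZrtStmt) : MltStmt := by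
  classical
  intro ℓ _ F V E H _ _ _ _ _ _ _ _ φ α hV hCl b j hb hj hbj
  have hfin := hCl.fin
  obtain ⟨lam, K, _, x, y, hRF, u, hu⟩ := hCl.rt
  have hbC : b ∈ FxR (cw F α) ⊤ := mem_fx fun v => (hb.cen (α v)).symm
  obtain ⟨n, f, hf, hor, hsum⟩ := hD F V H α b hbC hb.id
  have hbk : BKR (cw F α) ⊤ = BK (cj F α) ⊤ := rfl
  -- the local summands
  have hloc : ∀ i, Loi F α (f i) → j - f i ∈ cmt F H ∧
      ∑ k, x k * j * y k = ∑ k, x k * f i * y k := by
    intro i hi
    obtain ⟨e, he⟩ := hBor ℓ F V E H φ α hV hCl b j (f i) hb hj hi hbj (hf i).2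
    obtain ⟨y0, y0', h1, h2, h3⟩ := hCl.uni e
    exact hE F V H K α lam x y (φ e) j (f i) y0 y0' hRF h1 h2 h3 hj.fx hi.fx
      (he y0 y0' h1 h2 h3)
  set I : Finset (Fin n) := Finset.univ.filter fun i => Loi F α (f i) with hI
  have hsplit : ∀ g : Fin n → H, ∑ i, g i = ∑ i ∈ I, g i + ∑ i ∈ Iᶜ, g i := by
    intro g
    rw [Finset.sum_add_sum_compl]
  have hnot : ∀ i ∈ Iᶜ, f i ∈ BKR (cw F α) ⊤ := by
    intro i hi
    rw [Finset.mem_compl, hI, Finset.mem_filter, not_and] at hi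
    exact (hor i).resolve_left (hi (Finset.mem_univ i))
  have hin : ∀ i ∈ I, Loi F α (f i) := fun i hi => (Finset.mem_filter.1 hi).2
  refine ⟨I.card, ?_, ?_⟩
  · intro h0
    -- the relative trace of `b` is in the Brauer kernel
    have hrt : ∑ k, x k * b * y k ∈ BKR (cw F α) ⊤ := by
      have h1 : ∑ k, x k * b * y k = ∑ i, ∑ k, x k * f i * y k := by
        rw [Finset.sum_comm]
        refine Finset.sum_congr rfl fun k _ => ?_
        rw [← hsum, Finset.mul_sum, Finset.sum_mul]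
      rw [h1, hsplit]
      have h2 : ∑ i ∈ I, ∑ k, x k * f i * y k = 0 := by
        rw [Finset.sum_congr rfl fun i hi => (hloc i (hin i hi)).2.symm, Finset.sum_const,
          ← Nat.cast_smul_eq_nsmul F, h0, zero_smul]
      rw [h2, zero_add]
      exact Submodule.sum_mem _ fun i hi =>
        hRbk ℓ F V E H K φ α lam x y hV hCl.per hRF (f i) (hnot i hi)
    have hζ : ∀ a : H, a * ∑ k, x k * y k = (∑ k, x k * y k) * a := by
      have h1 := hZrt F V H K α lam x y hRF
      have h2 := h1 1 (mem_fx fun v => by rw [mul_one, one_mul])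
      intro a
      have h3 := h2 a
      simp only [mul_one] at h3
      exact h3
    have hζu : (∑ k, x k * y k) * u = 1 := by
      rw [← hζ u, hu]
    have huc : ∀ a : H, u * a = a * u := by
      intro a
      calc u * a = u * (a * ((∑ k, x k * y k) * u)) := by rw [hζu, mul_one]
        _ = u * (∑ k, x k * y k) * a * u := by rw [← mul_assoc a, hζ a]; simp only [mul_assoc]
        _ = a * u := by rw [hu, one_mul]
    have hbz : ∑ k, x k * b * y k = b * ∑ k, x k * y k := by
      rw [Finset.mul_sum]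
      refine Finset.sum_congr rfl fun k _ => ?_
      rw [← hb.cen (x k), mul_assoc]
    have hbu : b = u * ∑ k, x k * b * y k := by
      rw [hbz, ← mul_assoc, huc b, mul_assoc, hu, mul_one]
    have hbB : b ∈ BKR (cw F α) ⊤ := by
      rw [hbu]
      exact (hBki F V H α ⊤ u (mem_fx fun v => (huc (α v)).symm) _ hrt).1
    have hz : b ∈ BKR (cw F α) ⊥ := by
      refine hCl.blk ⊥ b hbC ?_ ?_ hbB
      · rw [hb.id, sub_self]
        exact Submodule.zero_mem _
      · intro a _
        rw [hb.cen a, sub_self]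
        exact Submodule.zero_mem _
    have hbot : BKR (cw F α) (⊥ : Subgroup V) = ⊥ := by
      rw [BKR, Submodule.span_eq_bot]
      rintro n ⟨P', S, m, hlt, -⟩
      exact absurd hlt not_lt_bot
    rw [hbot, Submodule.mem_bot] at hz
    exact hb.nz hz
  · have h1 : b - I.card • j = ∑ i ∈ I, (f i - j) + ∑ i ∈ Iᶜ, f i := by
      rw [Finset.sum_sub_distrib, Finset.sum_const, ← hsum, hsplit f]
      abel
    rw [h1]
    refine Submodule.add_mem _ (Submodule.sum_mem _ fun i hi => ?_)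
      (Submodule.sum_mem _ fun i hi => ?_)
    · have h2 := (hloc i (hin i hi)).1
      have h3 := Submodule.neg_mem _ h2
      rw [neg_sub] at h3
      exact h3
    · exact hB ℓ F V H α hV (f i) (hnot i hi)

end Pool.Agent.PST.ET.H19.M
end
end -- Pool.Agent.Helper19_PST.MLT

section -- Pool.Agent.Helper1_PST.WUN

/-!
# PST, block ET, row WUN (helper1): `w` is a unit
-/

open scoped BigOperators TensorProduct

noncomputable section

namespace Pool.Agent.PST.ET.H1

open Pool.Agent.PFD.D2 (Cdv FibG)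
open Pool.Agent.PST.ET

theorem wun (hEps : EpsStmt) (hUns : UnsStmt) (hSca : ScaStmt) : WunStmt := by
  intro ℓ r _ R F V S _ _ _ _ _ _ _ _ c σ cf b Δ hV hS hb hΔ
  obtain ⟨h1, ha, hm, hr, -, -, -, hσ, -⟩ :=
    hEps R F V S c σ cf (fun _ => 0) hS (by simp)
  have h0 : eps c cf 0 = 0 := by simp [eps]
  have hπ : c.κ c.π = 0 := (c.ker c.π).mpr ⟨1, (mul_one _).symm⟩
  let I : Ideal S := Ideal.span {algebraMap R S c.π}
  have hI : ∀ s, s ∈ I ↔ ∃ d, s = c.π • d := by
    intro s
    rw [Ideal.mem_span_singleton']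
    constructor
    · rintro ⟨a, rfl⟩
      exact ⟨a, by rw [Algebra.smul_def, mul_comm]⟩
    · rintro ⟨a, rfl⟩
      exact ⟨a, by rw [Algebra.smul_def, mul_comm]⟩
  let K : Type := S ⧸ I
  let mk : S →+* K := Ideal.Quotient.mk I
  have mk0 : ∀ d : S, mk (c.π • d) = 0 := fun d =>
    Ideal.Quotient.eq_zero_iff_mem.mpr ((hI _).mpr ⟨d, rfl⟩)
  -- nontrivial
  have hnt : (1 : K) ≠ 0 := by
    intro h
    have h' : mk 1 = 0 := by rw [map_one]; exact h
    obtain ⟨d, hd⟩ := (hI _).mp (Ideal.Quotient.eq_zero_iff_mem.mp h')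
    have h2 := congrArg (eps c cf) hd
    rw [h1, hr, hπ, zero_mul] at h2
    exact one_ne_zero h2
  haveI : Nontrivial K := ⟨1, 0, hnt⟩
  haveI hch : CharP K ℓ := by
    apply ringChar.of_eq
    apply CharP.ringChar_of_prime_eq_zero (Fact.out : ℓ.Prime)
    have h3 : ((ℓ : R)) = 0 := CharP.cast_eq_zero R ℓ
    have h4 : mk (algebraMap R S (ℓ : R)) = 0 := by rw [h3, map_zero, map_zero]
    rwa [map_natCast, map_natCast] at h4
  -- the homomorphism `β`
  let β : V →* K :=
    { toFun := fun v => mk (σ v)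
      map_one' := by rw [hS.one, map_one]
      map_mul' := fun u v => by
        obtain ⟨d, hd⟩ := hS.mul u v
        rw [← map_mul, hd, map_add, mk0, add_zero] }
  -- `F → K`
  let g0 : R →+* K := mk.comp (algebraMap R S)
  have hg0 : RingHom.ker c.κ ≤ RingHom.ker g0 := by
    intro a haa
    rw [RingHom.mem_ker] at haa ⊢
    obtain ⟨s, hs⟩ := (c.ker a).mp haa
    show mk (algebraMap R S a) = 0
    rw [hs, map_mul, ← Algebra.smul_def]
    exact mk0 _
  let iF : F →+* K :=
    c.κ.liftOfRightInverse _ (Function.rightInverse_surjInv c.surj) ⟨g0, hg0⟩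
  have iF_κ : ∀ a, iF (c.κ a) = mk (algebraMap R S a) := fun a =>
    RingHom.liftOfRightInverse_comp_apply c.κ _ (Function.rightInverse_surjInv c.surj)
      ⟨g0, hg0⟩ a
  -- the two maps
  let f1 : S →ₐ[R] K :=
    { toFun := fun x => iF (eps c cf x)
      map_one' := by rw [h1, map_one]
      map_mul' := fun x y => by rw [hm, map_mul]
      map_zero' := by rw [h0, map_zero]
      map_add' := fun x y => by rw [ha, map_add]
      commutes' := fun a => by
        rw [Algebra.algebraMap_eq_smul_one, hr, h1, mul_one, iF_κ]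
        rfl }
  let f2 : S →ₐ[R] K := Ideal.Quotient.mkₐ R I
  let Θ : S ⊗[R] S →ₐ[R] K := Algebra.TensorProduct.productMap f1 f2
  have Θt : ∀ x y : S, Θ (x ⊗ₜ[R] y) = iF (eps c cf x) * mk y := fun x y =>
    Algebra.TensorProduct.productMap_apply_tmul f1 f2 x y
  have hΘπ : Θ.toRingHom (algebraMap R (S ⊗[R] S) c.π) = 0 := by
    show Θ (algebraMap R (S ⊗[R] S) c.π) = 0
    rw [AlgHom.commutes]
    show mk (algebraMap R S c.π) = 0
    rw [Algebra.algebraMap_eq_smul_one]
    exact mk0 _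
  have hΘd : ∀ i, Θ.toRingHom (σ (b i) ⊗ₜ[R] (1 : S) - (1 : S) ⊗ₜ[R] σ (b i)) =
      1 - β (b i) := by
    intro i
    show Θ (σ (b i) ⊗ₜ[R] (1 : S) - (1 : S) ⊗ₜ[R] σ (b i)) = 1 - mk (σ (b i))
    rw [map_sub, Θt, Θt, hσ, h1, map_one, map_one]
    ring
  have hΘΔ : Θ Δ = mk (∑ v, σ v) := by
    have h5 := hΔ K Θ.toRingHom hΘπ
    rw [Finset.prod_congr rfl fun i _ => by rw [hΘd i], ← hSca ℓ r V K β b hb] at h5
    rw [map_sum]
    exact h5
  -- lifts
  have lift : ∀ D : S ⊗[R] S, ∃ z : S, mk z = Θ D ∧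
      c.κ (cf 1 z) =
        eps c cf (TensorProduct.lift ((LinearMap.lsmul R S).flip.compl₂ (cf 1)) D) := by
    intro D
    induction D using TensorProduct.induction_on with
    | zero => exact ⟨0, by simp, by simp [h0]⟩
    | add D D' h h' =>
      obtain ⟨z, hz, hz'⟩ := h
      obtain ⟨y, hy, hy'⟩ := h'
      exact ⟨z + y, by rw [map_add, map_add, hz, hy],
        by rw [map_add, map_add, map_add, ha, hz', hy']⟩
    | tmul x y =>
      obtain ⟨a, haa⟩ := c.surj (eps c cf x)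
      refine ⟨a • y, ?_, ?_⟩
      · rw [Θt, ← haa, iF_κ, Algebra.smul_def, map_mul]
      · rw [TensorProduct.lift.tmul]
        show c.κ (cf 1 (a • y)) = eps c cf (cf 1 y • x)
        rw [hr, map_smul, smul_eq_mul, map_mul, haa, mul_comm]
  obtain ⟨z, hz, hz'⟩ := lift Δ
  refine hUns ℓ R F V S c σ cf hV hS _ ?_
  rw [← hz']
  have h6 : z - ∑ v, σ v ∈ I := by
    rw [← Ideal.Quotient.eq_zero_iff_mem, map_sub]
    show mk z - mk (∑ v, σ v) = 0
    rw [hz, hΘΔ, sub_self]
  obtain ⟨d, hd⟩ := (hI _).mp h6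
  have h7 : z = ∑ v, σ v + c.π • d := by rw [← hd]; ring
  have h8 : c.κ (cf 1 z) = 1 := by
    rw [h7, map_add, map_smul, smul_eq_mul, map_add, map_mul, hπ, zero_mul, add_zero, map_sum]
    simp [hS.b2]
  rw [h8]
  exact one_ne_zero

end Pool.Agent.PST.ET.H1
end
end -- Pool.Agent.Helper1_PST.WUN

section -- Pool.Agent.Helper20_PST.UPR

/-!
# Squad PST, block ET, row UPR: an element which is invertible modulo `π` is invertible
-/

set_option autoImplicit false

noncomputable section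

namespace Pool.Agent.PST.ET.H20

open Pool.Agent.PFD.D2 (Cdv FibG)

/-- row UPR -/
theorem upr : UprStmt := by
  intro R F D iR iF c iD iA iM s y d d' h1 h2
  have hr : ∃ x : D, (s * y) * x = 1 := by
    refine (PFD.D2.H49.ung R F D c (LinearMap.mulLeft R (s * y)) fun x => ?_).surjective 1
    refine ⟨d * x, ?_⟩
    rw [LinearMap.mulLeft_apply, h1, add_mul, one_mul, add_sub_cancel_left, smul_mul_assoc]
  have hl : ∃ x : D, x * (y * s) = 1 := by
    refine (PFD.D2.H49.ung R F D c (LinearMap.mulRight R (y * s)) fun x => ?_).surjective 1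
    refine ⟨x * d', ?_⟩
    rw [LinearMap.mulRight_apply, h2, mul_add, mul_one, add_sub_cancel_left, mul_smul_comm]
  obtain ⟨a, ha⟩ := hr
  obtain ⟨b, hb⟩ := hl
  rw [mul_assoc] at ha
  rw [← mul_assoc] at hb
  have hab : b * y = y * a := by
    calc b * y = (b * y) * (s * (y * a)) := by rw [ha, mul_one]
      _ = (b * y * s) * (y * a) := by rw [← mul_assoc]
      _ = y * a := by rw [hb, one_mul]
  rw [hab] at hb
  exact ⟨⟨s, y * a, ha, hb⟩, rfl⟩

end Pool.Agent.PST.ET.H20
end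
end -- Pool.Agent.Helper20_PST.UPR

section -- Pool.Agent.Helper23_PST.RFP

/-!
# PST, block ET, row RFP: relative Frobenius families from the frame
-/

open scoped BigOperators TensorProduct

noncomputable section

namespace Pool.Agent.PST.ET.H23

open Pool.Agent.PFC (Fx BK cj bi tw PS Frm PMid IsFr)
open Pool.Agent.PSS (RF)

theorem rep {F H : Type} [Field F] [Ring H] [Algebra F H] [FiniteDimensional F H]
    (lam : H →ₗ[F] F) (hn : ∀ a, (∀ b, lam (a * b) = 0) → a = 0) (c : H →ₗ[F] F) :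
    ∃ s, ∀ a, c a = lam (s * a) := by
  let T : H →ₗ[F] (H →ₗ[F] F) := (LinearMap.mul F H).compr₂ lam
  have hinj : Function.Injective T := by
    rw [injective_iff_map_eq_zero]
    intro a ha
    refine hn a fun b => ?_
    have h1 : T a b = 0 := by rw [ha]; rfl
    exact h1
  have hdim : Module.finrank F H = Module.finrank F (H →ₗ[F] F) :=
    (Subspace.dual_finrank_eq (K := F) (V := H)).symm
  have hsur : Function.Surjective T :=
    (LinearMap.injective_iff_surjective_of_finrank_eq_finrank hdim).1 hinj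
  obtain ⟨s, hs⟩ := hsur c
  refine ⟨s, fun a => ?_⟩
  rw [← hs]
  rfl

theorem rfp : RfpStmt := by
  intro F V E H _ _ _ _ _ _ φ α lam hfin hsym hnd hps
  obtain ⟨Ω, hΩ, hact, b, c, ⟨hb, hc, hsum⟩, hst⟩ := hps
  have hs : ∀ ω, ∃ s, ∀ a, c ω a = lam (s * a) := fun ω => rep lam hnd (c ω)
  choose s hs using hs
  have hfree : ∀ (v : V) (ω : Ω), ((1, v) : V × V) • ω = ω → v = 1 := by
    intro v ω h
    obtain ⟨e, R, hR⟩ := hst ω
    have h1 : ((1, v) : V × V) ∈ MulAction.stabilizer (V × V) ω := h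
    rw [hR] at h1
    obtain ⟨u, hu, hu2⟩ := Subgroup.mem_map.1 h1
    have h2 : φ e u = 1 := congrArg Prod.fst hu2
    have h3 : u = v := congrArg Prod.snd hu2
    rw [← h3]
    exact (φ e).injective (by rw [h2, map_one])
  let r : Setoid Ω := {
    r := fun ω ω' => ∃ v : V, ((1, v) : V × V) • ω = ω'
    iseqv := {
      refl := fun ω => ⟨1, by
        have : ((1, 1) : V × V) = 1 := rfl
        rw [this, one_smul]⟩
      symm := by
        rintro ω ω' ⟨v, rfl⟩
        refine ⟨v⁻¹, ?_⟩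
        rw [smul_smul, Prod.mk_mul_mk, inv_mul_cancel, one_mul]
        exact one_smul _ _
      trans := by
        rintro ω ω' ω'' ⟨v, rfl⟩ ⟨v', rfl⟩
        refine ⟨v' * v, ?_⟩
        rw [smul_smul, Prod.mk_mul_mk, one_mul] } }
  let K := Quotient r
  have hK : Fintype K := Fintype.ofFinite K
  let f : K × V → Ω := fun p => ((1, p.2) : V × V) • p.1.out
  have hf : Function.Bijective f := by
    constructor
    · rintro ⟨κ, v⟩ ⟨κ', v'⟩ h
      change ((1, v) : V × V) • κ.out = ((1, v') : V × V) • κ'.out at h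
      have h1 : ((1, v'⁻¹ * v) : V × V) • κ.out = κ'.out := by
        have h2 : ((1, v'⁻¹ * v) : V × V) = (1, v'⁻¹) * (1, v) := by
          rw [Prod.mk_mul_mk, one_mul]
        rw [h2, mul_smul, h, smul_smul, Prod.mk_mul_mk, inv_mul_cancel, one_mul]
        exact one_smul _ _
      have h3 : κ = κ' := by
        rw [← Quotient.out_eq κ, ← Quotient.out_eq κ']
        exact Quotient.sound ⟨_, h1⟩
      subst h3
      have h4 : v'⁻¹ * v = 1 := hfree _ _ h1
      have h5 : v = v' := by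
        rw [inv_mul_eq_one] at h4
        exact h4.symm
      rw [h5]
    · intro ω
      have h1 : r (Quotient.mk r ω).out ω := Quotient.exact (Quotient.out_eq _)
      obtain ⟨v, hv⟩ := h1
      exact ⟨(Quotient.mk r ω, v), hv⟩
  refine ⟨K, hK, fun κ => b κ.out, fun κ => s κ.out,
    (Pool.Agent.PSS.H84.rfe F V H K α lam _ _ hsym fun a => ?_).1⟩
  have key : ∀ (κ : K) (v : V), c (f (κ, v)) a • b (f (κ, v)) =
      lam (α v * s κ.out * a) • (b κ.out * α v⁻¹) := by
    intro κ v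
    have h1 : c (f (κ, v)) a = lam (α v * s κ.out * a) := by
      have h2 := hc ((1, v) : V × V) κ.out (bi F α ((1, v)⁻¹) a)
      have h3 : bi F α (1, v) (bi F α ((1, v)⁻¹) a) = a := by
        rw [← Module.End.mul_apply, ← map_mul, mul_inv_cancel, map_one, Module.End.one_apply]
      rw [h3] at h2
      change c (((1, v) : V × V) • κ.out) a = _
      rw [h2, hs]
      have h4 : bi F α ((1, v)⁻¹) a = a * α v := by
        simp [bi]
      rw [h4, ← mul_assoc, hsym, mul_assoc]
    have h5 : b (f (κ, v)) = b κ.out * α v⁻¹ := by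
      change b (((1, v) : V × V) • κ.out) = _
      rw [hb]
      simp [bi]
    rw [h1, h5]
  calc ∑ κ : K, ∑ v : V, lam (α v⁻¹ * s κ.out * a) • (b κ.out * α v)
      = ∑ κ : K, ∑ v : V, lam (α v * s κ.out * a) • (b κ.out * α v⁻¹) := by
        refine Finset.sum_congr rfl fun κ _ => ?_
        exact Fintype.sum_equiv (Equiv.inv V) _ _ fun v => by
          simp only [Equiv.inv_apply, inv_inv]
    _ = ∑ κ : K, ∑ v : V, c (f (κ, v)) a • b (f (κ, v)) := by
        refine Finset.sum_congr rfl fun κ _ => Finset.sum_congr rfl fun v _ => ?_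
        rw [key]
    _ = ∑ p : K × V, c (f p) a • b (f p) :=
        (Fintype.sum_prod_type fun p : K × V => c (f p) a • b (f p)).symm
    _ = ∑ ω, c ω a • b ω := hf.sum_comp fun ω => c ω a • b ω
    _ = a := hsum a

end Pool.Agent.PST.ET.H23
end
end -- Pool.Agent.Helper23_PST.RFP

section -- Pool.Agent.Helper24_PST.FUN

/-!
# PST, row FUN (helper24): fullness lifts
-/

open scoped BigOperators TensorProduct

noncomputable section

namespace Pool.Agent.PST.H24

open Pool.Agent.PFD.D2 (Cdv FibG)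
open Pool.Agent.PST.ET

section aux

variable {R D : Type} [CommRing R] [Ring D] [Algebra R D]

/-- the two-sided ideal generated by `j` -/
def idl (R : Type) {D : Type} [CommRing R] [Ring D] [Algebra R D] (j : D) : Submodule R D :=
  Submodule.span R {x : D | ∃ s t : D, x = s * j * t}

theorem idl_l (j a : D) {x : D} (hx : x ∈ idl R j) : a * x ∈ idl R j := by
  unfold idl at hx
  induction hx using Submodule.span_induction with
  | mem x hx =>
    obtain ⟨s, t, rfl⟩ := hx
    exact Submodule.subset_span ⟨a * s, t, by simp only [mul_assoc]⟩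
  | zero => rw [mul_zero]; exact Submodule.zero_mem _
  | add x y _ _ hx hy => rw [mul_add]; exact Submodule.add_mem _ hx hy
  | smul r x _ hx => rw [mul_smul_comm]; exact Submodule.smul_mem _ r hx

theorem idl_r (j a : D) {x : D} (hx : x ∈ idl R j) : x * a ∈ idl R j := by
  unfold idl at hx
  induction hx using Submodule.span_induction with
  | mem x hx =>
    obtain ⟨s, t, rfl⟩ := hx
    exact Submodule.subset_span ⟨s, t * a, by simp only [mul_assoc]⟩
  | zero => rw [zero_mul]; exact Submodule.zero_mem _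
  | add x y _ _ hx hy => rw [add_mul]; exact Submodule.add_mem _ hx hy
  | smul r x _ hx => rw [smul_mul_assoc]; exact Submodule.smul_mem _ r hx

end aux

/-- row FUN (centrality of `b` is not needed) -/
theorem fun_ (krs : KrsStmt) : FunStmt := by
  intro R F D H _ _ _ _ c _ _ _ _ _ f b j hb _ hqb
  have hlift : ∀ h ∈ Submodule.span F {x : H | ∃ s t : H, x = s * f.q j * t},
      ∃ i ∈ idl R j, f.q i = h := by
    intro h hh
    induction hh using Submodule.span_induction with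
    | mem x hx =>
      obtain ⟨s, t, rfl⟩ := hx
      obtain ⟨s', rfl⟩ := f.surj s
      obtain ⟨t', rfl⟩ := f.surj t
      exact ⟨s' * j * t', Submodule.subset_span ⟨s', t', rfl⟩, by rw [map_mul, map_mul]⟩
    | zero => exact ⟨0, Submodule.zero_mem _, map_zero _⟩
    | add x y _ _ hx hy =>
      obtain ⟨i, hi, rfl⟩ := hx
      obtain ⟨i', hi', rfl⟩ := hy
      exact ⟨i + i', Submodule.add_mem _ hi hi', map_add _ _ _⟩
    | smul r x _ hx =>
      obtain ⟨i, hi, rfl⟩ := hx
      obtain ⟨r', rfl⟩ := c.surj r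
      refine ⟨r' • i, Submodule.smul_mem _ r' hi, ?_⟩
      rw [Algebra.smul_def, map_mul, f.sc, ← Algebra.smul_def]
  obtain ⟨i, hi, hqi⟩ := hlift _ hqb
  obtain ⟨d, hd⟩ := f.ker (b - i) (by rw [map_sub, hqi, sub_self])
  have hbd : b = i + c.π • d := by rw [← hd]; abel
  refine krs R F D c (idl R j) b fun n => ?_
  induction n with
  | zero => exact ⟨b, by rw [pow_zero, one_smul, sub_self]; exact Submodule.zero_mem _⟩
  | succ n ih =>
    obtain ⟨y, hy⟩ := ih
    refine ⟨d * y, ?_⟩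
    have h1 : b - c.π ^ (n + 1) • (d * y) = b * (b - c.π ^ n • y) + c.π ^ n • (i * y) := by
      have h2 : b * y = i * y + c.π • (d * y) := by
        conv_lhs => rw [hbd]
        rw [add_mul, smul_mul_assoc]
      rw [mul_sub, hb, mul_smul_comm, h2, smul_add, smul_smul, pow_succ]
      abel
    rw [h1]
    exact Submodule.add_mem _ (idl_l j b hy) (Submodule.smul_mem _ _ (idl_r j y hi))

end Pool.Agent.PST.H24
end
end -- Pool.Agent.Helper24_PST.FUN

section -- Pool.Agent.Helper29_PST.CSS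

/-! # PST block ET, row CSS: elements of `S ⊗ S` killed by the `s ⊗ 1 - 1 ⊗ s`. -/

open scoped TensorProduct

noncomputable section

namespace Pool.Agent.PST.ET.H29

theorem css : CssStmt := by
  intro R V S _ _ _ _ σ σ' t ht Δ hΔ
  set idt : S ⊗[R] S →ₗ[R] S :=
    TensorProduct.lift ((LinearMap.lsmul R S).flip.compl₂ t) with hidt
  have hpt : ∀ x y : S, idt (x ⊗ₜ[R] y) = t y • x := fun x y => rfl
  have h1 : ∀ Δ : S ⊗[R] S, ∑ v, (idt (((1 : S) ⊗ₜ[R] σ v) * Δ)) ⊗ₜ[R] σ' v = Δ := by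
    intro Δ
    induction Δ using TensorProduct.induction_on with
    | zero => simp
    | tmul x y =>
      have h2 : ∀ v, (idt (((1 : S) ⊗ₜ[R] σ v) * (x ⊗ₜ[R] y))) ⊗ₜ[R] σ' v
          = x ⊗ₜ[R] (t (σ v * y) • σ' v) := by
        intro v
        rw [Algebra.TensorProduct.tmul_mul_tmul, hpt, one_mul, TensorProduct.smul_tmul]
      rw [Finset.sum_congr rfl fun v _ => h2 v, ← TensorProduct.tmul_sum, ht]
    | add a b ha hb =>
      have h2 : ∀ v, (idt (((1 : S) ⊗ₜ[R] σ v) * (a + b))) ⊗ₜ[R] σ' v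
          = (idt (((1 : S) ⊗ₜ[R] σ v) * a)) ⊗ₜ[R] σ' v
            + (idt (((1 : S) ⊗ₜ[R] σ v) * b)) ⊗ₜ[R] σ' v := by
        intro v
        rw [mul_add, map_add, TensorProduct.add_tmul]
      rw [Finset.sum_congr rfl fun v _ => h2 v, Finset.sum_add_distrib, ha, hb]
  have h3 : ∀ (s : S) (Δ : S ⊗[R] S), idt ((s ⊗ₜ[R] (1 : S)) * Δ) = s * idt Δ := by
    intro s Δ
    induction Δ using TensorProduct.induction_on with
    | zero => simp
    | tmul x y =>
      rw [Algebra.TensorProduct.tmul_mul_tmul, hpt, hpt, one_mul, mul_smul_comm]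
    | add a b ha hb => rw [mul_add, map_add, ha, hb, map_add, mul_add]
  have h4 := h1 Δ
  have h5 : ∀ v, (idt (((1 : S) ⊗ₜ[R] σ v) * Δ)) = σ v * idt Δ := by
    intro v
    rw [← hΔ, h3]
  calc Algebra.TensorProduct.lmul' (S := S) R Δ
      = Algebra.TensorProduct.lmul' (S := S) R
          (∑ v, (idt (((1 : S) ⊗ₜ[R] σ v) * Δ)) ⊗ₜ[R] σ' v) := by rw [h4]
    _ = ∑ v, (σ v * idt Δ) * σ' v := by
        rw [map_sum]
        refine Finset.sum_congr rfl fun v _ => ?_
        rw [Algebra.TensorProduct.lmul'_apply_tmul, h5]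
    _ = idt Δ * ∑ v, σ v * σ' v := by
        rw [Finset.mul_sum]
        refine Finset.sum_congr rfl fun v _ => ?_
        ring

end Pool.Agent.PST.ET.H29
end
end -- Pool.Agent.Helper29_PST.CSS

section -- Pool.Agent.Helper32_PST.EQC

/-!
# EQC: equivalent and conjugate idempotents have the same class and the same relative trace
-/

set_option autoImplicit false

open scoped BigOperators TensorProduct

noncomputable section

namespace Pool.Agent.PST.ET.H32

open Pool.Agent.PSS (RF FxR cw)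
open Pool.Agent.PSS.S5 (Eqi)

theorem eqc_rf {F V H K : Type} [Field F] [CommGroup V] [Fintype V] [Ring H] [Algebra F H]
    [Fintype K] (α : V →* H) (lam : H →ₗ[F] F) (x y : K → H) (s : MulAut V) (y0 y0' : H)
    (hR : RF F α lam x y) (h1 : y0 * y0' = 1) (h2 : y0' * y0 = 1)
    (h3 : ∀ u, y0 * α u = α (s u) * y0) :
    RF F α lam (fun k => x k * y0) (fun k => y0' * y k) := by
  have h4 : ∀ u, α u * y0' = y0' * α (s u) := by
    intro u
    calc α u * y0' = y0' * y0 * α u * y0' := by rw [h2, one_mul]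
      _ = y0' * (y0 * α u) * y0' := by rw [mul_assoc y0' y0 (α u)]
      _ = y0' * (α (s u) * y0) * y0' := by rw [h3]
      _ = y0' * α (s u) * (y0 * y0') := by simp only [mul_assoc]
      _ = y0' * α (s u) := by rw [h1, mul_one]
  refine ⟨hR.sym, ?_, ?_⟩
  · intro a
    have e1 : ∀ k, ∑ v, lam (α v⁻¹ * (y0' * y k) * a) • (x k * y0 * α v) =
        (∑ v, lam (α v⁻¹ * y k * (a * y0')) • (x k * α v)) * y0 := by
      intro k
      rw [Finset.sum_mul]
      refine Fintype.sum_equiv s.toEquiv _ _ fun v => ?_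
      have e2 : lam (α v⁻¹ * (y0' * y k) * a) = lam (α (s v)⁻¹ * y k * (a * y0')) := by
        have e3 : α v⁻¹ * (y0' * y k) * a = y0' * (α (s v)⁻¹ * y k * a) := by
          rw [← mul_assoc (α v⁻¹), h4, map_inv s v]
          simp only [mul_assoc]
        rw [e3, hR.sym]
        congr 1
        simp only [mul_assoc]
      have e4 : x k * y0 * α v = x k * α (s v) * y0 := by
        rw [mul_assoc, h3, ← mul_assoc]
      rw [e2, e4]
      change _ = (lam (α (s v)⁻¹ * y k * (a * y0')) • (x k * α (s v))) * y0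
      rw [smul_mul_assoc]
    simp only [e1]
    rw [← Finset.sum_mul, hR.e1, mul_assoc, h2, mul_one]
  · intro a
    have e1 : ∀ k, ∑ v, lam (a * (x k * y0 * α v)) • (α v⁻¹ * (y0' * y k)) =
        y0' * (∑ v, lam (y0 * a * (x k * α v)) • (α v⁻¹ * y k)) := by
      intro k
      rw [Finset.mul_sum]
      refine Fintype.sum_equiv s.toEquiv _ _ fun v => ?_
      have e2 : lam (a * (x k * y0 * α v)) = lam (y0 * a * (x k * α (s v))) := by
        have e3 : a * (x k * y0 * α v) = a * (x k * α (s v)) * y0 := by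
          rw [mul_assoc (x k), h3]
          simp only [mul_assoc]
        rw [e3, hR.sym]
        congr 1
        simp only [mul_assoc]
      have e4 : α v⁻¹ * (y0' * y k) = y0' * (α (s v)⁻¹ * y k) := by
        rw [← mul_assoc (α v⁻¹), h4, map_inv s v]
        simp only [mul_assoc]
      rw [e2, e4]
      change _ = y0' * (lam (y0 * a * (x k * α (s v))) • (α (s v)⁻¹ * y k))
      rw [mul_smul_comm]
    simp only [e1]
    rw [← Finset.mul_sum, hR.e2, ← mul_assoc, h2, one_mul]

theorem eqc : EqcStmt := by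
  intro F V H K _ _ _ _ _ _ α lam x y s j j' y0 y0' hR h1 h2 h3 hj hj' hE
  obtain ⟨p, hp, q, hq, _, _, _, _, hpq, hqp⟩ := hE
  refine ⟨?_, ?_⟩
  · have e1 : j - j' = (y0' * (y0 * j) - (y0 * j) * y0') + (p * q - q * p) := by
      rw [hpq, hqp, ← mul_assoc, h2, one_mul]
      abel
    rw [e1]
    exact Submodule.add_mem _ (Submodule.subset_span ⟨y0', y0 * j, rfl⟩)
      (Submodule.subset_span ⟨p, q, rfl⟩)
  · have e1 := Pool.Agent.PSS.S0.H5.trs F V H K α lam x y hR p hp q hq
    rw [hpq, hqp] at e1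
    rw [← e1]
    have e2 := Pool.Agent.PSS.S0.H95.ind F V H K K α lam x y (fun k => x k * y0)
      (fun k => y0' * y k) hR (eqc_rf α lam x y s y0 y0' hR h1 h2 h3) j hj
    rw [e2]
    refine Finset.sum_congr rfl fun k _ => ?_
    simp only [mul_assoc]

end Pool.Agent.PST.ET.H32
end
end -- Pool.Agent.Helper32_PST.EQC

section -- Pool.Agent.Helper37_PST.TAU

/-!
# Squad PST, row TAU: the Casimir trace
-/

set_option autoImplicit false

open scoped BigOperators

noncomputable section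

namespace Pool.Agent.PST.ET.H37

open Pool.Agent.PST.ET

section
variable {R D K : Type} [CommRing R] [Ring D] [Algebra R D] [Fintype K] {T : D →ₗ[R] R}
  {x y : K → D}

/-- the Casimir trace is central -/
theorem central (h : SFr R T x y) (a d : D) :
    d * ∑ k, x k * a * y k = (∑ k, x k * a * y k) * d := by
  have h1 : ∀ k, d * (x k * a * y k) = ∑ l, T (y l * d * x k) • (x l * a * y k) := by
    intro k
    conv_lhs => rw [← mul_assoc, ← mul_assoc, ← h.e1 (d * x k)]
    rw [Finset.sum_mul, Finset.sum_mul]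
    refine Finset.sum_congr rfl fun l _ => ?_
    rw [smul_mul_assoc, smul_mul_assoc, mul_assoc (y l)]
  have h2 : ∀ l, x l * a * y l * d = ∑ k, T (y l * d * x k) • (x l * a * y k) := by
    intro l
    conv_lhs => rw [mul_assoc, ← h.e2 (y l * d)]
    rw [Finset.mul_sum]
    refine Finset.sum_congr rfl fun k _ => ?_
    rw [mul_smul_comm]
  rw [Finset.mul_sum, Finset.sum_mul, Finset.sum_congr rfl fun k _ => h1 k,
    Finset.sum_congr rfl fun l _ => h2 l, Finset.sum_comm]

/-- the opposite Casimir trace is central -/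
theorem central' (h : SFr R T x y) (z b : D) :
    b * ∑ k, y k * z * x k = (∑ k, y k * z * x k) * b := by
  have h1 : ∀ k, b * (y k * z * x k) = ∑ l, T (b * y k * x l) • (y l * z * x k) := by
    intro k
    conv_lhs => rw [← mul_assoc, ← mul_assoc, ← h.e2 (b * y k)]
    rw [Finset.sum_mul, Finset.sum_mul]
    refine Finset.sum_congr rfl fun l _ => ?_
    rw [smul_mul_assoc, smul_mul_assoc]
  have h2 : ∀ l, y l * z * x l * b = ∑ k, T (b * y k * x l) • (y l * z * x k) := by
    intro l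
    conv_lhs => rw [mul_assoc, ← h.e1 (x l * b)]
    rw [Finset.mul_sum]
    refine Finset.sum_congr rfl fun k _ => ?_
    rw [mul_smul_comm, mul_assoc b, h.sym b, mul_assoc (y k)]
  rw [Finset.mul_sum, Finset.sum_mul, Finset.sum_congr rfl fun k _ => h1 k,
    Finset.sum_congr rfl fun l _ => h2 l, Finset.sum_comm]

/-- the adjoint -/
theorem adj (h : SFr R T x y) (c z : D) :
    T ((∑ k, x k * c * y k) * z) = T (c * ∑ k, y k * z * x k) := by
  rw [Finset.sum_mul, Finset.mul_sum, map_sum, map_sum]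
  refine Finset.sum_congr rfl fun k _ => ?_
  have e1 : x k * c * y k * z = x k * (c * y k * z) := by noncomm_ring
  have e2 : c * (y k * z * x k) = c * y k * z * x k := by noncomm_ring
  rw [e1, e2, h.sym]

/-- the Casimir trace vanishes on the commutators -/
theorem comm (h : SFr R T x y) (a b : D) :
    ∑ k, x k * (a * b) * y k = ∑ k, x k * (b * a) * y k := by
  have h1 : ∀ z, T ((∑ k, x k * (a * b) * y k) * z) = T ((∑ k, x k * (b * a) * y k) * z) := by
    intro z
    rw [adj h, adj h, mul_assoc, central' h z b, ← mul_assoc, h.sym, ← mul_assoc]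
  rw [← h.e2 (∑ k, x k * (a * b) * y k), ← h.e2 (∑ k, x k * (b * a) * y k)]
  refine Finset.sum_congr rfl fun k _ => ?_
  rw [h1]

end

/-- TAU -/
theorem tau : TauStmt := by
  intro R D K _ _ _ _ T x y h
  refine ⟨fun a d => central h a d, fun a b => comm h a b, fun z hz => ?_⟩
  unfold cmt at hz
  induction hz using Submodule.span_induction with
  | mem z hz =>
    obtain ⟨a, b, rfl⟩ := hz
    have : ∀ k, x k * (a * b - b * a) * y k = x k * (a * b) * y k - x k * (b * a) * y k := by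
      intro k
      rw [mul_sub, sub_mul]
    rw [Finset.sum_congr rfl fun k _ => this k, Finset.sum_sub_distrib, comm h a b, sub_self]
  | zero => simp
  | add z w _ _ hz hw =>
    have : ∀ k, x k * (z + w) * y k = x k * z * y k + x k * w * y k := by
      intro k
      rw [mul_add, add_mul]
    rw [Finset.sum_congr rfl fun k _ => this k, Finset.sum_add_distrib, hz, hw, add_zero]
  | smul r z _ hz =>
    have : ∀ k, x k * (r • z) * y k = r • (x k * z * y k) := by
      intro k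
      rw [mul_smul_comm, smul_mul_assoc]
    rw [Finset.sum_congr rfl fun k _ => this k, ← Finset.smul_sum, hz, smul_zero]

end Pool.Agent.PST.ET.H37
end
end -- Pool.Agent.Helper37_PST.TAU

section -- Pool.Agent.Helper39_PST.LOC

/-!
# Squad PST, block ET, row LOC (helper39): the local case (assembly of part B)
-/

open scoped BigOperators TensorProduct

noncomputable section

namespace Pool.Agent.PST.ET.H39

open Pool.Agent.PFD.D2 (Cdv FibG)
open Pool.Agent.PFC (Fx BK cj bi tw PS Frm PMid)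
open Pool.Agent.PSS (RF)

theorem q_smul {R F D H : Type} [CommRing R] [Field F] [Ring D] [Algebra R D] [Ring H]
    [Algebra F H] {c : Cdv R F} (f : FibG D H c) (r : R) (a : D) :
    f.q (r • a) = c.κ r • f.q a := by
  rw [Algebra.smul_def, map_mul, f.sc, ← Algebra.smul_def]

theorem loc (hFvp : FvpStmt) (hCfd : CfdStmt) (hSub : SubStmt) (hTsf : TsfStmt)
    (hZsu : ZsuStmt) (hRdf : RdfStmt) (hRfp : RfpStmt) (hRfs : RfsStmt) (hCsi : CsiStmt)
    (hTau : TauStmt) (hTor : TorStmt) (hEps : EpsStmt) (hRtu : RtuStmt) (hUpr : UprStmt) :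
    LocStmt := by
  classical
  intro ℓ r _ R F V E H Hs K _ _ _ _ _ _ _ _ _ _ _ _ _ _ _ _ _ c f φ α lam xx t T x y hV hnt
    hvl hE hM hD hG hT
  obtain ⟨lamF, hlamF⟩ := hM.frm
  obtain ⟨lam', hlam'⟩ := hFvp ℓ F V H α lamF hV hlamF
  have hTrc : Trc α lam' := hCfd ℓ F V H α lam' _ hV hlam' hM.ps hM.spn
  obtain ⟨S, _, _, i, σ, cf, hi, hqi, hsv, hpw⟩ :=
    hSub ℓ r R F V H Hs c f α lam' lam xx t hvl hD hG hlam' hTrc
  obtain ⟨σ', hs1, hs2, hs3⟩ := hTsf R F V S c σ cf hsv
  obtain ⟨zS, hzS, hzSe⟩ := hZsu ℓ r R F V S c σ cf lam xx t σ' hvl hD hsv hpw hs2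
  obtain ⟨lam0, hl0, hSF0⟩ := hRdf R F Hs H K c f T x y hT
  have hnd0 : ∀ a, (∀ b, lam0 (a * b) = 0) → a = 0 := by
    intro a ha
    rw [← hSF0.e2 a]
    exact Finset.sum_eq_zero fun k _ => by rw [ha, zero_smul]
  obtain ⟨K0, _, x0, y0, hRF⟩ := hRfp F V E H φ α lam0 hM.fin hSF0.sym hnd0 hM.ps
  obtain ⟨x1, y1, hx1, hy1, hrel⟩ := hRfs R F V S H Hs K0 c f α i σ σ' cf T lam0 x0 y0 hsv hqi
    hs1 hs2 hs3 hT.sym hl0 hRF
  -- the Casimir trace
  have hcas := hCsi R Hs K (K0 × V) T x y (fun l => x1 l.1 * i (σ l.2))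
    (fun l => i (σ' l.2) * y1 l.1) hT (fun a => by
      rw [Fintype.sum_prod_type]
      exact hrel a)
  obtain ⟨z, hzdef⟩ : ∃ z, z = ∑ k, x1 k * i zS * y1 k := ⟨_, rfl⟩
  have hz : ∑ k, x k * y k = c.π ^ r • z := by
    calc ∑ k, x k * y k = ∑ k, x k * 1 * y k := by simp only [mul_one]
      _ = ∑ l : K0 × V, (x1 l.1 * i (σ l.2)) * 1 * (i (σ' l.2) * y1 l.1) := (hcas 1).symm
      _ = ∑ k, ∑ v, (x1 k * i (σ v)) * 1 * (i (σ' v) * y1 k) := by
        rw [Fintype.sum_prod_type]
      _ = ∑ k, x1 k * i (∑ v, σ v * σ' v) * y1 k := by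
        refine Finset.sum_congr rfl fun k _ => ?_
        rw [map_sum, Finset.mul_sum, Finset.sum_mul]
        refine Finset.sum_congr rfl fun v _ => ?_
        rw [map_mul, mul_one]
        simp only [mul_assoc]
      _ = c.π ^ r • z := by
        rw [hzSe, hzdef, Finset.smul_sum]
        refine Finset.sum_congr rfl fun k _ => ?_
        rw [map_smul, mul_smul_comm, smul_mul_assoc]
  -- central
  have hcen : ∀ a, z * a = a * z := by
    intro a
    have h1 := (hTau R Hs K T x y hT).1 1 a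
    simp only [mul_one] at h1
    rw [hz, mul_smul_comm, smul_mul_assoc] at h1
    have h2 : c.π ^ r • (z * a - a * z) = 0 := by
      rw [smul_sub, h1, sub_self]
    exact sub_eq_zero.1 ((hTor R F Hs c).1 r _ h2)
  -- unit
  obtain ⟨he1, -, hem, -⟩ := hEps R F V S c σ cf (fun _ => 0) hsv (fun _ _ => by simp)
  have hez : eps c cf zS ≠ 0 := by
    obtain ⟨w, hw, -⟩ := isUnit_iff_exists.1 hzS
    intro h0
    have h1 := hem zS w
    rw [hw, he1, h0, zero_mul] at h1
    exact one_ne_zero h1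
  have hqz : f.q z = ∑ k, x0 k * (∑ v, c.κ (cf v zS) • α v) * y0 k := by
    have h1 : f.q (i zS) = ∑ v, c.κ (cf v zS) • α v := by
      conv_lhs => rw [← hsv.b1 zS]
      rw [map_sum, map_sum]
      refine Finset.sum_congr rfl fun v _ => ?_
      rw [map_smul i, q_smul, hqi]
    rw [hzdef, map_sum]
    refine Finset.sum_congr rfl fun k _ => ?_
    rw [map_mul, map_mul, hx1, hy1, h1]
  have hu : IsUnit (f.q z) := by
    rw [hqz]
    exact hRtu ℓ F V E H K0 φ α lam0 x0 y0 hV hnt hE hM hRF _ hez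
  obtain ⟨w0, hw1, hw2⟩ := isUnit_iff_exists.1 hu
  obtain ⟨w, rfl⟩ := f.surj w0
  obtain ⟨d, hd⟩ := f.ker (z * w - 1) (by rw [map_sub, map_mul, map_one, hw1, sub_self])
  obtain ⟨d', hd'⟩ := f.ker (w * z - 1) (by rw [map_sub, map_mul, map_one, hw2, sub_self])
  refine ⟨z, hUpr R F Hs c z w d d' ?_ ?_, hcen, hz⟩
  · rw [← hd]; abel
  · rw [← hd']; abel

end Pool.Agent.PST.ET.H39
end
end -- Pool.Agent.Helper39_PST.LOC

section -- Pool.Agent.Helper47_PST.CSI

/-!
Squad PST, block ET, row CSI (helper47): the Casimir trace does not depend on the families.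
-/

set_option autoImplicit false

open scoped BigOperators

noncomputable section

namespace Pool.Agent.PST.ET.H47

theorem csi : CsiStmt := by
  intro R D K L _ _ _ _ _ T x y X Y hS hX a
  symm
  calc ∑ k, x k * a * y k = ∑ k, (∑ l, T (Y l * x k) • X l) * a * y k := by
        refine Finset.sum_congr rfl fun k _ => ?_
        rw [hX (x k)]
    _ = ∑ k, ∑ l, X l * a * (T (Y l * x k) • y k) := by
        refine Finset.sum_congr rfl fun k _ => ?_
        rw [Finset.sum_mul, Finset.sum_mul]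
        refine Finset.sum_congr rfl fun l _ => ?_
        rw [smul_mul_assoc, smul_mul_assoc, mul_smul_comm]
    _ = ∑ l, X l * a * ∑ k, T (Y l * x k) • y k := by
        rw [Finset.sum_comm]
        refine Finset.sum_congr rfl fun l _ => ?_
        rw [Finset.mul_sum]
    _ = ∑ l, X l * a * Y l := by
        refine Finset.sum_congr rfl fun l _ => ?_
        rw [hS.e2]

end Pool.Agent.PST.ET.H47
end
end -- Pool.Agent.Helper47_PST.CSI

section -- Pool.Agent.Helper47_PST.NBK

/-!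
Squad PST, block ET, row NBK (helper47): the elements of V are 1 modulo the Brauer kernel.
-/

set_option autoImplicit false

open scoped BigOperators

noncomputable section

namespace Pool.Agent.PST.ET.H47

open Pool.Agent.PFC (Fx BK cj bi IA BQ)

theorem cj_eq {F A V : Type} [Field F] [CommGroup V] [Ring A] [Algebra F A] (α : V →* A) (u : V)
    (a : A) : cj F α u a = α u * a * α u⁻¹ := by
  simp [cj, bi, mul_assoc]

theorem nbk : NbkStmt := by
  intro ℓ _ F V _ _ _ _ N hV hB v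
  obtain ⟨β, s, h⟩ := hB
  have hv : ∀ v, β (N.ι v) = (1 : F) := fun v => h.cov v
  have hone : β 1 = (1 : F) := by
    have h1 := hv 1
    rwa [N.ι.map_one] at h1
  have hfix : N.ι v - 1 ∈ Fx (cj F N.ι) ⊤ := by
    intro u _
    rw [cj_eq, mul_sub, sub_mul, ← map_mul, ← map_mul, mul_one, ← map_mul, mul_inv_cancel, map_one,
      mul_comm u v, mul_assoc, mul_inv_cancel, mul_one]
  refine ((Pool.Agent.PFC.H18.qke ℓ F V N.A (IA.one F V).A (cj F N.ι) (cj F (IA.one F V).ι) ⊤ β s hV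
    h.toBrS).2.1 (N.ι v - 1) hfix).1 ?_
  rw [map_sub]
  exact sub_eq_zero.2 ((hv v).trans hone.symm)

end Pool.Agent.PST.ET.H47
end
end -- Pool.Agent.Helper47_PST.NBK

section -- Pool.Agent.Helper51_PST.TOR

/-!
# Squad PST, block ET, row TOR
-/

namespace Pool.Agent.PST.ET.H51

open Pool.Agent.PFD.D2 (Cdv)

theorem tor : TorStmt := by
  intro R F D _ _ c _ _ _
  set b := Module.Free.chooseBasis R D with hb
  have h0 : ∀ (n : ℕ) (r : R), c.π ^ n * r = 0 → r = 0 := by
    intro n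
    induction n with
    | zero => intro r hr; simpa using hr
    | succ n ih =>
      intro r hr
      rw [pow_succ, mul_assoc] at hr
      exact c.reg _ (ih _ hr)
  refine ⟨?_, ?_⟩
  · intro n x hx
    apply b.repr.injective
    ext i
    rw [map_zero, Finsupp.zero_apply]
    apply h0 n
    have h1 : b.repr (c.π ^ n • x) i = 0 := by rw [hx, map_zero, Finsupp.zero_apply]
    rw [map_smul, Finsupp.smul_apply, smul_eq_mul] at h1
    exact h1
  · intro x hx
    apply b.repr.injective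
    ext i
    rw [map_zero, Finsupp.zero_apply]
    apply c.sep
    intro n
    obtain ⟨y, hy⟩ := hx n
    refine ⟨b.repr y i, ?_⟩
    rw [hy, map_smul, Finsupp.smul_apply, smul_eq_mul]

end Pool.Agent.PST.ET.H51
end -- Pool.Agent.Helper51_PST.TOR

section -- Pool.Agent.Helper55_PST.CO2

/-!
# Squad PST, row CO2: the core of part (0) with more output (helper55)

`core2` is the theorem `Pool.Agent.PFC.B5c.H43.core` (`Helper43_PFC/AsmB5.lean`) with more output.
-/

open scoped BigOperators TensorProduct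

noncomputable section

namespace Pool.Agent.PST.H55

open Pool.Agent.PFC Pool.Agent.PFC.B5c Pool.Agent.PFC.B5c.H43
open Pool.Agent.PST.ET (Co2Stmt)

/-- the rows of part (0) are proved -/
theorem rowsT : Rows :=
  rows B5a.H70.qfc H67.qtm H62.qmx (H3.qlr (H63.qlp H85Q.qis) H85Q.qis H72.qre H6.qrt)
    (H34.qsp H18.qke)

/-- The core of part (0) with more output: the degree of `N` is prime to `ℓ`, and `N(V) = F`. -/
theorem core2 (H : Rows) (F V E A : Type) [Field F] [IsAlgClosed F] [CommGroup V] [Fintype V]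
    [Group E] [Fintype E] [Ring A] [Algebra F A] [FiniteDimensional F A] (ℓ : ℕ) [CharP F ℓ]
    (φ : E →* MulAut V) (W : Subgroup V) (α : V →* A) (hC : Ctf ℓ φ W) (hI : PIn F φ W α) :
    ∃ (N Y' : IA F V) (j : (N.tens (bd F α)).A) (κ : Y'.A →ₗ[F] (N.tens (bd F α)).A) (n : ℕ),
      0 < n ∧ (n : F) ≠ 0 ∧ Nonempty (N.A ≃ₐ[F] Matrix (Fin n) (Fin n) F) ∧
      BQ N (IA.one F V) ⊤ ∧
      Cor (N.tens (bd F α)) Y' j κ ∧ j ∈ Fx (cj F (N.tens (bd F α)).ι) ⊤ ∧ j * j = j ∧
      1 - j ∈ BK (cj F (N.tens (bd F α)).ι) ⊤ ∧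
      (∃ lam, Frm F (N.tens (bd F α)).ι lam) ∧
      PS (fun K => ∃ (e : E) (R : Subgroup V), K = tw (φ e).toMonoidHom R)
        (bi F (N.tens (bd F α)).ι) ∧
      BQ (N.tens (bd F α)) (IA.gr F V) ⊤ ∧
      (∀ e : E, ∃ y y' : (N.tens (bd F α)).A, y * y' = 1 ∧ y' * y = 1 ∧
        ∀ u, y * (N.tens (bd F α)).ι u = (N.tens (bd F α)).ι (φ e u) * y) ∧
      PMid F φ W Y'.ι := by
  classical
  have : Fact ℓ.Prime := ⟨hC.pr⟩
  have htop : ¬ (⊤ : Subgroup V) ≤ W := by
    obtain ⟨u, hu⟩ := hC.nt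
    exact fun h => hu (h (Subgroup.mem_top u))
  have hWs : ∀ e : E, W.map (φ e).toMonoidHom = W := by
    intro e
    apply le_antisymm
    · rintro _ ⟨u, hu, rfl⟩
      exact hC.stab e u hu
    · intro u hu
      refine ⟨φ e⁻¹ u, hC.stab e⁻¹ u hu, ?_⟩
      show φ e (φ e⁻¹ u) = u
      rw [← MulAut.mul_apply, ← map_mul, mul_inv_cancel, map_one, MulAut.one_apply]
  set X : IA F V := bd F α with hX
  have hCP : CP X := H.cpx F V A α _ hI.ps
  have hbt : BQ X (IA.gr F V) ⊤ := H.tpb ℓ F V X hC.pg hCP hI.top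
  obtain ⟨S, hS⟩ := H.fam F V E A ℓ φ W α hC hI
  obtain ⟨hcm, hst⟩ := H.cmr ℓ F V E X φ W S hC.pg htop hCP hbt hS
  obtain ⟨N, hNm, hNc, hNr, hNt, hNR⟩ := H.qgw ℓ F V W (Set.range φ) S hC.pg htop
    (by rintro _ ⟨e, rfl⟩; exact hWs e) (fun Q hQ => ⟨hS.mx Q hQ, hS.cp Q hQ⟩) hcm hst
    (by rintro _ ⟨e, rfl⟩ Q hQ; exact hS.tw Q hQ e)
  obtain ⟨iRefl, iSymm, iTrans, iBQ, -, -, -, iTen, -, iComm, iAssoc, iOne, -⟩ := H.qis F V
  set Y : IA F V := N.tens X with hY
  have hCY : CP Y := (H.qcp F V).1 N X hNc hCP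
  -- Y(V) = F V
  have hYt : BQ Y (IA.gr F V) ⊤ := by
    obtain ⟨β, s, h1⟩ := hNt
    obtain ⟨β', s', h2⟩ := hbt
    exact iBQ Y Y _ _ ⊤ (iRefl Y) (iOne (IA.gr F V)) ⟨_, _, H.qte ℓ F V _ _ _ _ ⊤ β s β' s' hC.pg h1 h2⟩
  obtain ⟨b, hb⟩ := (H.qcx ℓ F V Y hC.pg hYt).1
  obtain ⟨j, hj⟩ := H.qlx F V Y b hb
  have hjc : ∀ v, Y.ι v * j = j * Y.ι v := by
    intro v
    have h := hj.fx v (Subgroup.mem_top v)
    have h2 : Y.ι v * (j * Y.ι v⁻¹) = j := h
    calc Y.ι v * j = Y.ι v * (j * Y.ι v⁻¹) * Y.ι v := by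
          rw [mul_assoc, mul_assoc, ← map_mul, inv_mul_cancel, map_one, mul_one]
      _ = j * Y.ι v := by rw [h2]
  obtain ⟨Y', κ, hκ⟩ := H.qce F V Y j hj.id hjc
  -- the Brauer quotients of the corner
  have hR : ∀ R : Subgroup V, ¬ R ≤ W → BQ Y' (IA.gr F V) R := by
    intro R hRW
    obtain ⟨N', hN1, hN2, hN3⟩ := hNR R hRW
    apply H.qzs ℓ F V Y Y' (N'.tens (S R)) R b j κ hC.pg hCY hb hj hκ _ hN2 hN3
    obtain ⟨β, s, h1⟩ := hN1
    obtain ⟨β', s', h2⟩ := hS.bq R hRW
    exact iBQ Y Y _ _ R (iRefl Y) (iSymm _ _ (iAssoc N' (S R) (IA.gr F V)))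
      ⟨_, _, H.qte ℓ F V _ _ _ _ R β s β' s' hC.pg h1 h2⟩
  -- j modulo the Brauer kernel
  have hjb : j ∉ BK (cj F Y.ι) ⊤ := by
    obtain ⟨β, s, h1⟩ := hYt
    obtain ⟨c, hc1, -, hc3⟩ := H.qlb ℓ F V Y (IA.gr F V) ⊤ b j β s hC.pg hCY hb hj h1
    intro hbk
    have h0 := ((H.qke ℓ F V _ _ _ _ ⊤ β s hC.pg h1.toBrS).2.1 j hj.fx).2 hbk
    have h1 := hc3.bj
    rw [h0, map_zero] at h1
    exact zero_ne_one h1
  have hj1 : 1 - j ∈ BK (cj F Y.ι) ⊤ := H.jbk ℓ F V Y j hC.pg hYt hj.fx hj.id hjb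
  obtain ⟨n, hn0, hnF, hNe⟩ := H.ndm ℓ F V N hC.pg hNm hNc hNt
  obtain ⟨lam, hlam⟩ := hI.frm
  obtain ⟨lam1, hlam1⟩ := H.frt ℓ F V N X n hC.pg hnF hNe lam hlam
  have hps : PS (fun K => ∃ (e : E) (R : Subgroup V), K = tw (φ e).toMonoidHom R) (bi F Y.ι) :=
    H.qvp F V E φ N X hNc (fun e => hNr _ ⟨e, rfl⟩) hI.ps
  have hrz : ∀ e, Rz Y (φ e) := by
    intro e
    apply (H.qsn F V).2.2.2 N X (φ e) (hNr _ ⟨e, rfl⟩)
    obtain ⟨y, y', h1, h2, h3⟩ := hI.uni e
    exact ⟨⟨y, y', h1, h2⟩, h3⟩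
  have hpm : PMid F φ W Y'.ι := by
    refine ⟨Y'.fi, ?_, ?_, ?_, ?_, ?_, ?_⟩
    · exact H.frc ℓ F V Y Y' j κ hC.pg hκ hj1 lam1 hlam1
    · exact (H.qll F V Y Y' b j κ hb hj hκ).2
    · intro h1
      have h2 := (H.qsp ℓ F V Y' ⊤ hC.pg (hR ⊤ htop)).2 (fun u => if u = 1 then 1 else 0) (by
        have : ∑ u, (if u = 1 then (1 : F) else 0) • Y'.ι u = 1 := by
          rw [Finset.sum_eq_single (1 : V)]
          · simp
          · intro u _ hu
            simp [hu]
          · intro h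
            exact absurd (Finset.mem_univ _) h
        rw [this]
        exact h1)
      have h3 := congrFun h2 1
      simp at h3
    · exact (H.qcp F V).2.2.2.2.1 _ Y Y' j κ hκ hps
    · intro R hRW a ha
      exact (H.qsp ℓ F V Y' R hC.pg (hR R hRW)).1 a ha
    · intro e
      obtain ⟨y, hy⟩ := H.qtj ℓ F V Y Y' b j κ (φ e) hC.pg hYt hb hj hκ (hrz e)
      exact ⟨y, (y⁻¹ : Y'.Aˣ), y.mul_inv, y.inv_mul, hy⟩
  refine ⟨N, Y', j, κ, n, hn0, hnF, hNe, hNt, hκ, hj.fx, hj.id, hj1, ⟨lam1, hlam1⟩, hps, hYt, ?_, hpm⟩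
  intro e
  obtain ⟨y, hy⟩ := hrz e
  exact ⟨y, (y⁻¹ : Y.Aˣ), y.mul_inv, y.inv_mul, hy⟩

theorem co2 : Co2Stmt := by
  intro ℓ _ F V E A _ _ _ _ _ _ _ _ _ _ φ α hC hI
  have hzmx : ZmxStmt := H52.zmx
  have hlcn : LcnStmt := H65.lcn
  have hful : FulStmt := H31.ful H15.brk
  obtain ⟨N, Y', j, κ, n, hn0, hnF, hNe, hNt, hκ, hjf, hjj, hj1, ⟨lam, hlam⟩, hps, hYt, hun, hpm⟩ :=
    core2 rowsT F V E A ℓ φ ⊥ α hC hI
  refine ⟨N, Y', j, κ, n, hn0, hnF, hNe, Pool.Agent.PST.ET.H47.nbk ℓ F V N hC.pg hNt, hκ, hjj, hj1,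
    hpm, ?_⟩
  have hzm := hzmx F N.A A n hn0 hNe
  have hce : ∀ z : (N.tens (bd F α)).A, (∀ a, z * a = a * z) → IsUnit z ∨ IsNilpotent z := by
    intro z hz
    obtain ⟨c, hc, rfl⟩ := hzm.1 z hz
    have hcz : c ∈ Cz F α ⊤ := by
      rw [Cz, Subalgebra.mem_centralizer_iff]
      intro g _
      exact (hc g).symm
    rcases (hlcn F (Cz F α ⊤) hI.loc).1 ⟨c, hcz⟩ with h | h
    · left
      have h2 : IsUnit c := by
        have := h.map (Cz F α ⊤).val
        exact this
      have := h2.map (Algebra.TensorProduct.includeRight : A →ₐ[F] N.A ⊗[F] A)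
      exact this
    · right
      have h2 : IsNilpotent c := by
        obtain ⟨k, hk⟩ := h
        exact ⟨k, by simpa using congrArg Subtype.val hk⟩
      exact h2.map (Algebra.TensorProduct.includeRight : A →ₐ[F] N.A ⊗[F] A)
  exact hful ℓ F V E (N.tens (bd F α)).A φ ⊥ (N.tens (bd F α)).ι lam j hC hlam hps hYt hun hce hjf
    hjj hj1

end Pool.Agent.PST.H55
end
end -- Pool.Agent.Helper55_PST.CO2

section -- Pool.Agent.Helper58_PST.COB

/-!
# Squad PST, block ET, row COB (helper58)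
-/

open scoped BigOperators TensorProduct

noncomputable section

namespace Pool.Agent.PST.ET.H58

variable {F V H : Type} [Field F] [CommGroup V] [Fintype V] [DecidableEq V] [Ring H] [Algebra F H]

/-- the projection is right linear -/
theorem prj_mul (α : V →* H) (lam : H →ₗ[F] F) (h : Prj α lam) (a : H) (w : V) :
    prj α lam (a * α w) = prj α lam a * α w := by
  unfold prj
  rw [Finset.sum_mul, ← Equiv.sum_comp (Equiv.mulRight w)]
  apply Finset.sum_congr rfl
  intro u _
  have e : lam (α (u * w)⁻¹ * (a * α w)) = lam (α u⁻¹ * a) := by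
    rw [← mul_assoc, ← h.inv w, ← mul_assoc, ← map_mul]
    congr 3
    rw [mul_inv_rev, ← mul_assoc, mul_inv_cancel, one_mul]
  simp only [Equiv.coe_mulRight]
  rw [e, map_mul α, smul_mul_assoc]

theorem cob : CobStmt := by
  intro F V H _ _ _ _ _ _ α lam hP hT C hC hcoc
  obtain ⟨th, hth⟩ := hT
  set c : V → V → H := fun u v => C u v * α (u * v)⁻¹ with hc
  set h : V → H := fun u => ∑ x : V, α x * th (c x⁻¹ u) * α x⁻¹ with hh
  have aa : ∀ x y : V, α x * α y = α (x * y) := fun x y => (map_mul α x y).symm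
  have key : ∀ u v, α u * h v * α u⁻¹ - h (u * v) + h u = c u v := by
    intro u v
    have e1 : α u * h v * α u⁻¹ = ∑ y : V, α y * th (c (y⁻¹ * u) v) * α y⁻¹ := by
      rw [hh]
      simp only
      rw [Finset.mul_sum, Finset.sum_mul, ← Equiv.sum_comp (Equiv.mulLeft u) (fun y : V => α y * th (c (y⁻¹ * u) v) * α y⁻¹)]
      apply Finset.sum_congr rfl
      intro x _
      simp only [Equiv.coe_mulLeft]
      rw [mul_inv_rev, mul_assoc x⁻¹ u⁻¹ u, inv_mul_cancel, mul_one, map_mul α u x, map_mul α x⁻¹ u⁻¹]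
      simp only [mul_assoc]
    rw [e1, hh]
    simp only
    rw [← Finset.sum_sub_distrib, ← Finset.sum_add_distrib]
    have e2 : ∀ y : V, α y * th (c (y⁻¹ * u) v) * α y⁻¹ - α y * th (c y⁻¹ (u * v)) * α y⁻¹
        + α y * th (c y⁻¹ u) * α y⁻¹ = α y * th (α y⁻¹ * c u v * α y) * α y⁻¹ := by
      intro y
      rw [← sub_mul, ← mul_sub, ← add_mul, ← mul_add, ← map_sub, ← map_add]
      congr 3
      have e3 := hcoc y⁻¹ u v
      have e4 := congrArg (fun z => z * α (y⁻¹ * u * v)⁻¹) e3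
      simp only [zero_mul, add_mul, sub_mul] at e4
      have f1 : α y⁻¹ * C u v * α (y⁻¹ * u * v)⁻¹ = α y⁻¹ * c u v * α y := by
        rw [hc]
        simp only
        rw [mul_assoc (α y⁻¹), mul_assoc (α y⁻¹), mul_assoc (C u v), aa]
        congr 4
        rw [mul_assoc, mul_inv_rev, inv_inv]
      have f2 : C (y⁻¹ * u) v * α (y⁻¹ * u * v)⁻¹ = c (y⁻¹ * u) v := rfl
      have f3 : C y⁻¹ (u * v) * α (y⁻¹ * u * v)⁻¹ = c y⁻¹ (u * v) := by
        rw [hc]
        simp only
        rw [mul_assoc]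
      have f4 : C y⁻¹ u * α v * α (y⁻¹ * u * v)⁻¹ = c y⁻¹ u := by
        rw [hc]
        simp only
        rw [mul_assoc, aa]
        congr 3
        rw [mul_inv_rev, ← mul_assoc, mul_inv_cancel, one_mul]
      rw [f1, f2, f3, f4] at e4
      have e5 : α y⁻¹ * c u v * α y = c (y⁻¹ * u) v - c y⁻¹ (u * v) + c y⁻¹ u := by
        have e6 : α y⁻¹ * c u v * α y - (c (y⁻¹ * u) v - c y⁻¹ (u * v) + c y⁻¹ u) = 0 := by
          rw [← e4]
          abel
        exact sub_eq_zero.mp e6
      exact e5.symm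
    rw [Finset.sum_congr rfl (fun y _ => e2 y), hth, hc]
    simp only
    rw [prj_mul α lam hP, hC, zero_mul, sub_zero]
  refine ⟨fun u => h u * α u, ?_⟩
  intro u v
  have e7 := congrArg (fun z => z * α (u * v)) (key u v)
  simp only [add_mul, sub_mul] at e7
  have g1 : α u * h v * α u⁻¹ * α (u * v) = α u * (h v * α v) := by
    rw [mul_assoc (α u * h v), aa, inv_mul_cancel_left, mul_assoc]
  have g2 : h u * α (u * v) = h u * α u * α v := by
    rw [map_mul, mul_assoc]
  have g3 : c u v * α (u * v) = C u v := by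
    rw [hc]
    simp only
    rw [mul_assoc, aa, inv_mul_cancel, map_one, mul_one]
  rw [g1, g2, g3] at e7
  exact e7

end Pool.Agent.PST.ET.H58
end
end -- Pool.Agent.Helper58_PST.COB

section -- Pool.Agent.Helper69_PST.KRS

open scoped BigOperators TensorProduct

noncomputable section

namespace Pool.Agent.PST.ET.H69

open Pool.Agent.PFD.D2 (Cdv FibG)
open Pool.Agent.PST.ET

theorem krs : KrsStmt := by
  intro R F D _ _ _ _ c _ _ _ N x hx
  have hnt : Nontrivial R := inferInstance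
  -- R is local
  have hloc : IsLocalRing R := by
    refine IsLocalRing.of_nonunits_add ?_
    intro a b ha hb
    have h0 : ∀ r, r ∈ nonunits R → c.κ r = 0 := by
      intro r hr
      by_contra h
      exact hr (c.loc r h)
    intro hu
    have h1 : c.κ (a + b) = 0 := by rw [map_add, h0 a ha, h0 b hb, add_zero]
    have h2 : IsUnit (c.κ (a + b)) := hu.map c.κ
    rw [h1] at h2
    exact not_isUnit_zero h2
  have hpi : c.κ c.π = 0 := (c.ker c.π).2 ⟨1, by simp⟩
  have hI : Ideal.span {c.π} ≠ (⊤ : Ideal R) := by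
    intro h
    rw [Ideal.span_singleton_eq_top] at h
    have h2 : IsUnit (c.κ c.π) := h.map c.κ
    rw [hpi] at h2
    exact not_isUnit_zero h2
  have hK := Ideal.iInf_pow_smul_eq_bot_of_isLocalRing (M := D ⧸ N) (Ideal.span {c.π}) hI
  rw [← Submodule.Quotient.mk_eq_zero N]
  have hmem : (Submodule.Quotient.mk x : D ⧸ N) ∈
      (⨅ i : ℕ, (Ideal.span {c.π}) ^ i • ⊤ : Submodule R (D ⧸ N)) := by
    rw [Submodule.mem_iInf]
    intro n
    obtain ⟨y, hy⟩ := hx n
    have h3 : (Submodule.Quotient.mk x : D ⧸ N) = c.π ^ n • (Submodule.Quotient.mk y : D ⧸ N) := by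
      rw [← Submodule.Quotient.mk_smul, Submodule.Quotient.eq]
      exact hy
    rw [h3]
    refine Submodule.smul_mem_smul ?_ trivial
    rw [Ideal.span_singleton_pow]
    exact Ideal.mem_span_singleton_self _
  rw [hK] at hmem
  exact hmem

end Pool.Agent.PST.ET.H69
end
end -- Pool.Agent.Helper69_PST.KRS

section -- Pool.Agent.Helper6_PST.GBS

/-!
# Squad PST, block ET, row GBS (helper6): a basis of the elementary abelian group `V`
-/

open scoped BigOperators

noncomputable section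

namespace Pool.Agent.PST.ET.H6

open Pool.Agent.PST.ET

theorem cast_bij (ℓ : ℕ) [Fact ℓ.Prime] :
    Function.Bijective (fun x : Fin ℓ => (((x : ℕ)) : ZMod ℓ)) := by
  have : NeZero ℓ := ⟨(Fact.out : ℓ.Prime).ne_zero⟩
  constructor
  · intro x y h
    have h1 : ((x : ℕ) : ZMod ℓ) = ((y : ℕ) : ZMod ℓ) := h
    rw [ZMod.natCast_eq_natCast_iff', Nat.mod_eq_of_lt x.2, Nat.mod_eq_of_lt y.2] at h1
    exact Fin.ext h1
  · intro z
    exact ⟨⟨z.val, z.val_lt⟩, ZMod.natCast_zmod_val z⟩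

/-- the additive version -/
theorem core (ℓ r : ℕ) [Fact ℓ.Prime] (F A : Type) [Field F] [CharP F ℓ] [AddCommGroup A] [Fintype A]
    [Module (ZMod ℓ) A] (lam xx : Fin r → A → F)
    (hadd : ∀ l u v, lam l (u + v) = lam l u + lam l v)
    (hsp : ∀ m : A → F, (∀ u v, m (u + v) = m u + m v) →
      ∃ k : Fin r → F, ∀ v, m v = ∑ l, k l * lam l v)
    (hx1 : ∀ l n, ∑ v, xx l v * lam n v = if l = n then 1 else 0) :
    ∃ (b : Fin r → A) (K : Matrix (Fin r) (Fin r) F),
      K * Matrix.of (fun l j => lam l (b j)) = 1 ∧ Matrix.of (fun l j => lam l (b j)) * K = 1 ∧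
      Function.Bijective (fun e : Fin r → Fin ℓ => ∑ i, (e i : ℕ) • b i) := by
  let _ : Algebra (ZMod ℓ) F := ZMod.algebra F ℓ
  have hfin : Module.Finite (ZMod ℓ) A := Module.Finite.of_finite
  obtain ⟨m, ⟨b0⟩⟩ : ∃ m, Nonempty (Module.Basis (Fin m) (ZMod ℓ) A) :=
    ⟨_, ⟨Module.finBasis (ZMod ℓ) A⟩⟩
  let μ : Fin m → A → F := fun i v => algebraMap (ZMod ℓ) F (b0.repr v i)
  have hμ : ∀ i u v, μ i (u + v) = μ i u + μ i v := by
    intro i u v
    change algebraMap (ZMod ℓ) F (b0.repr (u + v) i) = _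
    rw [map_add, Finsupp.add_apply, map_add]
  choose K0 hK0 using fun i => hsp (μ i) (hμ i)
  -- the additive functions are linear
  have hlin : ∀ n v, lam n v = ∑ j, μ j v * lam n (b0 j) := by
    intro n v
    have h1 : lam n 0 = 0 := by
      have h2 := hadd n 0 0
      rw [add_zero] at h2
      exact left_eq_add.1 h2
    let f : A →+ F :=
      { toFun := fun x => lam n x
        map_zero' := h1
        map_add' := fun x y => hadd n _ _ }
    let g : A →ₗ[ZMod ℓ] F := f.toZModLinearMap ℓ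
    have h3 : g v = ∑ j, b0.repr v j • g (b0 j) := by
      conv_lhs => rw [← b0.sum_repr v]
      rw [map_sum]
      refine Finset.sum_congr rfl fun j _ => ?_
      rw [map_smul]
    have h4 : lam n v = g v := rfl
    rw [h4, h3]
    refine Finset.sum_congr rfl fun j _ => ?_
    rw [Algebra.smul_def]
    rfl
  let L : Matrix (Fin r) (Fin m) F := Matrix.of fun l j => lam l (b0 j)
  have hKL : Matrix.of K0 * L = 1 := by
    ext i j
    rw [Matrix.mul_apply]
    have h1 := hK0 i (b0 j)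
    have h2 : μ i (b0 j) = (1 : Matrix (Fin m) (Fin m) F) i j := by
      change algebraMap (ZMod ℓ) F (b0.repr (b0 j) i) = _
      rw [b0.repr_self, Finsupp.single_apply, Matrix.one_apply]
      by_cases h : j = i
      · rw [if_pos h, if_pos h.symm, map_one]
      · rw [if_neg h, if_neg (Ne.symm h), map_zero]
    rw [← h2, h1]
    rfl
  have hXL : (Matrix.of fun l j => ∑ v, xx l v * μ j v : Matrix (Fin r) (Fin m) F) *
      Matrix.transpose L = 1 := by
    ext l n
    rw [Matrix.mul_apply, Matrix.one_apply, ← hx1 l n]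
    have h1 : ∑ v, xx l v * lam n v =
        ∑ v, ∑ j, xx l v * (μ j v * lam n (b0 j)) := by
      refine Finset.sum_congr rfl fun v _ => ?_
      rw [hlin n v, Finset.mul_sum]
    rw [h1, Finset.sum_comm]
    refine Finset.sum_congr rfl fun j _ => ?_
    change (∑ v, xx l v * μ j v) * lam n (b0 j) = _
    rw [Finset.sum_mul]
    refine Finset.sum_congr rfl fun v _ => ?_
    ring
  have h1 : m ≤ r := by
    have h2 := Matrix.rank_mul_le_left (Matrix.of K0) L
    rw [hKL, Matrix.rank_one, Fintype.card_fin] at h2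
    have h3 := Matrix.rank_le_width (Matrix.of K0)
    exact h2.trans h3
  have h2 : r ≤ m := by
    have h3 := Matrix.rank_mul_le_left
      (Matrix.of fun l j => ∑ v, xx l v * μ j v : Matrix (Fin r) (Fin m) F) (Matrix.transpose L)
    rw [hXL, Matrix.rank_one, Fintype.card_fin] at h3
    exact h3.trans (Matrix.rank_le_width _)
  obtain rfl : m = r := le_antisymm h1 h2
  refine ⟨b0, Matrix.of K0, hKL, mul_eq_one_comm.1 hKL, ?_⟩
  have h3 : (fun e : Fin m → Fin ℓ => ∑ i, (e i : ℕ) • b0 i) =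
      (fun x => b0.equivFun.symm x) ∘
        (Equiv.piCongrRight fun _ : Fin m => Equiv.ofBijective _ (cast_bij ℓ)) := by
    funext e
    rw [Function.comp_apply, b0.equivFun_symm_apply]
    refine Finset.sum_congr rfl fun i _ => ?_
    have h4 : (Equiv.piCongrRight fun _ : Fin m => Equiv.ofBijective _ (cast_bij ℓ)) e i =
        (((e i : ℕ)) : ZMod ℓ) := rfl
    rw [h4, Nat.cast_smul_eq_nsmul]
  rw [h3]
  exact b0.equivFun.symm.bijective.comp (Equiv.bijective _)

theorem gbs : GbsStmt := by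
  intro ℓ r _ F V _ _ _ iV lam xx t hV hE
  have hex : ∀ x : Additive V, ℓ • x = 0 := fun x => by
    have h := hV (Additive.toMul x)
    rw [← ofMul_toMul x, ← ofMul_pow, h]
    rfl
  let iA : Fintype (Additive V) := iV
  have hx1 : ∀ l n, ∑ x : Additive V, xx l (Additive.toMul x) * lam n (Additive.toMul x) =
      if l = n then 1 else 0 := fun l n => hE.x1 l n
  obtain ⟨b, K, h1, h2, h3⟩ := @core ℓ r _ F (Additive V) _ _ _ iA (AddCommGroup.zmodModule hex)
    (fun l x => lam l (Additive.toMul x)) (fun l x => xx l (Additive.toMul x))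
    (fun l u v => hE.add l _ _) (fun m hm => hE.sp (fun v => m (Additive.ofMul v))
      (fun u v => hm _ _)) hx1
  exact ⟨fun j => Additive.toMul (b j), K, h1, h2, h3⟩

end Pool.Agent.PST.ET.H6
end
end -- Pool.Agent.Helper6_PST.GBS

section -- Pool.Agent.Helper70_PST.CFD

/-!
# Squad PST, block ET, row CFD (helper70): `1 - prj` is a trace from the trivial subgroup
-/

open scoped BigOperators

noncomputable section

namespace Pool.Agent.PST.ET.H70

open Pool.Agent.PFC (Fx BK cj bi tw PS Frm PMid IsFr)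
open Finset

section prjs

variable {F V H : Type} [Field F] [CommGroup V] [Fintype V] [DecidableEq V] [Ring H] [Algebra F H]
  {α : V →* H} {lam : H →ₗ[F] F}

omit [DecidableEq V] in
theorem prj_add (a b : H) : prj α lam (a + b) = prj α lam a + prj α lam b := by
  simp only [prj]
  rw [← Finset.sum_add_distrib]
  refine Finset.sum_congr rfl fun u _ => ?_
  rw [mul_add, map_add, add_smul]

omit [DecidableEq V] in
theorem prj_smul (r : F) (a : H) : prj α lam (r • a) = r • prj α lam a := by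
  simp only [prj]
  rw [Finset.smul_sum]
  refine Finset.sum_congr rfl fun u _ => ?_
  rw [mul_smul_comm, map_smul, smul_eq_mul, mul_smul]

omit [DecidableEq V] in
theorem prj_zero : prj α lam (0 : H) = 0 := by
  have h := prj_smul (α := α) (lam := lam) (0 : F) (0 : H)
  rwa [zero_smul, zero_smul] at h

omit [DecidableEq V] in
theorem prj_sum {ι : Type} (s : Finset ι) (g : ι → H) :
    prj α lam (∑ i ∈ s, g i) = ∑ i ∈ s, prj α lam (g i) := by
  classical
  induction s using Finset.induction_on with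
  | empty => rw [Finset.sum_empty, Finset.sum_empty, prj_zero]
  | insert a s ha ih => rw [Finset.sum_insert ha, Finset.sum_insert ha, prj_add, ih]

theorem prj_om (h : Prj α lam) (v : V) : prj α lam (α v) = α v := by
  rw [prj]
  have h1 : ∀ u, lam (α u⁻¹ * α v) • α u = if u = v then α u else 0 := by
    intro u
    rw [← map_mul, h.del]
    by_cases huv : u = v
    · rw [if_pos (by rw [huv, inv_mul_cancel]), if_pos huv, one_smul]
    · rw [if_neg (fun h2 => huv (inv_mul_eq_one.1 h2)), if_neg huv, zero_smul]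
  rw [Finset.sum_congr rfl fun u _ => h1 u, Finset.sum_ite_eq', if_pos (Finset.mem_univ v)]

theorem prj_conj (h : Prj α lam) (v : V) (a : H) :
    prj α lam (α v * a * α v⁻¹) = prj α lam a := by
  simp only [prj]
  refine Finset.sum_congr rfl fun u _ => ?_
  congr 1
  have h1 : α u⁻¹ * (α v * a * α v⁻¹) = α u⁻¹ * α v * a * α v⁻¹ := by
    simp only [mul_assoc]
  rw [h1, ← h.inv v⁻¹, ← mul_assoc, ← map_mul, ← map_mul]
  congr 3
  rw [mul_comm u⁻¹ v, inv_mul_cancel_left]

omit [DecidableEq V] in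
theorem conj_prj (v : V) (a : H) : α v * prj α lam a * α v⁻¹ = prj α lam a := by
  simp only [prj]
  rw [Finset.mul_sum, Finset.sum_mul]
  refine Finset.sum_congr rfl fun u _ => ?_
  rw [mul_smul_comm, smul_mul_assoc, ← map_mul, ← map_mul]
  congr 2
  rw [mul_comm v u, mul_inv_cancel_right]

end prjs

theorem bi_apply {F V H : Type} [Field F] [CommGroup V] [Ring H] [Algebra F H] (α : V →* H)
    (v : V) (a : H) : bi F α (v, v) a = α v * a * α v⁻¹ := by
  show α v * (a * α v⁻¹) = α v * a * α v⁻¹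
  rw [mul_assoc]

/-- CFD -/
theorem cfd (bkt : BktStmt) : CfdStmt := by
  classical
  intro ℓ _ F V H _ _ _ _ _ _ _ α lam X hP hprj hPS hR
  obtain ⟨Ω, _, _, b, c, ⟨hb, hc, hfr⟩, -⟩ := hPS
  -- the stabilisers
  obtain ⟨R, hRmem⟩ : ∃ R : Ω → Subgroup V, ∀ ω v, v ∈ R ω ↔ ((v, v) : V × V) • ω = ω :=
    ⟨fun ω => (MulAction.stabilizer (V × V) ω).comap
      (MonoidHom.prod (MonoidHom.id V) (MonoidHom.id V)), fun ω v => Iff.rfl⟩
  have hbω : ∀ ω, ∃ m : H, b ω - prj α lam (b ω) =
      ∑ v ∈ Finset.univ.filter (fun v : V => ((v, v) : V × V) • ω = ω), α v * m * α v⁻¹ := by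
    intro ω
    have h1 : b ω ∈ Fx (cj F α) (R ω) := by
      intro v hv
      have h2 := hb (v, v) ω
      rw [(hRmem ω v).1 hv] at h2
      exact h2.symm
    obtain ⟨k, m, hk⟩ := bkt ℓ F V H α hP hR (R ω) (b ω) h1
    have h3 : b ω = ∑ u, k u • α u +
        ∑ v ∈ Finset.univ.filter (fun v : V => ((v, v) : V × V) • ω = ω), α v * m * α v⁻¹ := by
      rw [hk]
      congr 1
      symm
      refine Finset.sum_subtype _ (fun v => ?_) _
      rw [Finset.mem_filter, hRmem]
      exact ⟨fun h => h.2, fun h => ⟨Finset.mem_univ v, h⟩⟩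
    refine ⟨m - prj α lam m, ?_⟩
    have h4 : prj α lam (b ω) = ∑ u, k u • α u +
        ∑ v ∈ Finset.univ.filter (fun v : V => ((v, v) : V × V) • ω = ω), prj α lam m := by
      conv_lhs => rw [h3]
      rw [prj_add, prj_sum, prj_sum]
      congr 1
      · refine Finset.sum_congr rfl fun u _ => ?_
        rw [prj_smul, prj_om hprj]
      · exact Finset.sum_congr rfl fun v _ => prj_conj hprj v m
    rw [h4]
    conv_lhs => rw [h3]
    rw [add_sub_add_left_eq_sub, ← Finset.sum_sub_distrib]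
    refine Finset.sum_congr rfl fun v _ => ?_
    rw [mul_sub, sub_mul, conj_prj]
  choose m hm using hbω
  -- representatives of the orbits
  let st : Setoid Ω :=
    { r := fun ω η => ∃ v : V, ((v, v) : V × V) • ω = η
      iseqv :=
        ⟨fun ω => ⟨1, one_smul (V × V) ω⟩,
          fun {ω η} ⟨v, hv⟩ => ⟨v⁻¹, by
            rw [← hv, smul_smul, Prod.mk_mul_mk, inv_mul_cancel]
            exact one_smul (V × V) ω⟩,
          fun {ω η ζ} ⟨v, hv⟩ ⟨u, hu⟩ => ⟨u * v, by
            rw [← hu, ← hv, smul_smul, Prod.mk_mul_mk]⟩⟩ }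
  obtain ⟨rep, hrep1, hrep2⟩ : ∃ rep : Ω → Ω, (∀ ω, ∃ v : V, ((v, v) : V × V) • rep ω = ω) ∧
      ∀ ω η, (∃ v : V, ((v, v) : V × V) • ω = η) → rep ω = rep η := by
    refine ⟨fun ω => (Quotient.mk st ω).out, fun ω => ?_, fun ω η h => ?_⟩
    · exact Quotient.exact (s := st) (Quotient.out_eq (Quotient.mk st ω))
    · have h1 : Quotient.mk st ω = Quotient.mk st η := Quotient.sound (s := st) h
      show (Quotient.mk st ω).out = (Quotient.mk st η).out
      rw [h1]
  have hb' : ∀ (v : V) (ω : Ω), b (((v, v) : V × V) • ω) - prj α lam (b (((v, v) : V × V) • ω)) =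
      α v * (b ω - prj α lam (b ω)) * α v⁻¹ := by
    intro v ω
    rw [hb, bi_apply, prj_conj hprj, mul_sub, sub_mul, conj_prj]
  -- the sum over the fibre
  have hfib : ∀ η, ∑ v ∈ Finset.univ.filter (fun v : V => ((v, v) : V × V) • rep η = η),
      α v * m (rep η) * α v⁻¹ = b η - prj α lam (b η) := by
    intro η
    obtain ⟨v₀, hv₀⟩ := hrep1 η
    have h1 := hb' v₀ (rep η)
    rw [hv₀] at h1
    rw [h1, hm (rep η), Finset.mul_sum, Finset.sum_mul]
    symm
    refine Finset.sum_bij (fun p _ => v₀ * p) ?_ ?_ ?_ ?_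
    · intro p hp
      rw [Finset.mem_filter] at hp ⊢
      refine ⟨Finset.mem_univ _, ?_⟩
      rw [← Prod.mk_mul_mk, mul_smul, hp.2, hv₀]
    · intro p _ p' _ h
      exact mul_left_cancel h
    · intro v hv
      rw [Finset.mem_filter] at hv
      refine ⟨v₀⁻¹ * v, ?_, by rw [mul_inv_cancel_left]⟩
      rw [Finset.mem_filter]
      refine ⟨Finset.mem_univ _, ?_⟩
      rw [← Prod.mk_mul_mk, mul_smul, hv.2]
      conv_lhs => rw [← hv₀]
      rw [smul_smul, Prod.mk_mul_mk, inv_mul_cancel]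
      exact one_smul (V × V) (rep η)
    · intro p _
      rw [mul_inv_rev, map_mul, map_mul]
      simp only [mul_assoc]
  refine ⟨∑ ω ∈ Finset.univ.filter (fun ω => rep ω = ω), (c ω).smulRight (m ω), fun a => ?_⟩
  have hth : ∀ z : H, (∑ ω ∈ Finset.univ.filter (fun ω => rep ω = ω), (c ω).smulRight (m ω)) z =
      ∑ ω ∈ Finset.univ.filter (fun ω => rep ω = ω), c ω z • m ω := by
    intro z
    rw [LinearMap.sum_apply]
    rfl
  have hcv : ∀ (v : V) (ω : Ω), c ω (α v⁻¹ * a * α v) = c (((v, v) : V × V) • ω) a := by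
    intro v ω
    rw [← hc (v, v) ω, bi_apply]
    congr 1
    have h1 : α v * α v⁻¹ = 1 := by rw [← map_mul, mul_inv_cancel, map_one]
    calc α v * (α v⁻¹ * a * α v) * α v⁻¹ = (α v * α v⁻¹) * a * (α v * α v⁻¹) := by
          simp only [mul_assoc]
      _ = a := by rw [h1, one_mul, mul_one]
  have e1 : ∀ v : V, α v * (∑ ω ∈ Finset.univ.filter (fun ω => rep ω = ω),
      (c ω).smulRight (m ω)) (α v⁻¹ * a * α v) * α v⁻¹ =
      ∑ ω ∈ Finset.univ.filter (fun ω => rep ω = ω),
        c (((v, v) : V × V) • ω) a • (α v * m ω * α v⁻¹) := by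
    intro v
    rw [hth, Finset.mul_sum, Finset.sum_mul]
    refine Finset.sum_congr rfl fun ω _ => ?_
    rw [hcv, mul_smul_comm, smul_mul_assoc]
  rw [Finset.sum_congr rfl fun v _ => e1 v, Finset.sum_comm]
  have e2 : ∀ ω : Ω, ∑ v : V, c (((v, v) : V × V) • ω) a • (α v * m ω * α v⁻¹) =
      ∑ η, c η a • ∑ v ∈ Finset.univ.filter (fun v : V => ((v, v) : V × V) • ω = η),
        (α v * m ω * α v⁻¹) := by
    intro ω
    rw [← Finset.sum_fiberwise Finset.univ (fun v : V => ((v, v) : V × V) • ω)]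
    refine Finset.sum_congr rfl fun η _ => ?_
    rw [Finset.smul_sum]
    refine Finset.sum_congr rfl fun v hv => ?_
    rw [(Finset.mem_filter.1 hv).2]
  rw [Finset.sum_congr rfl fun ω _ => e2 ω, Finset.sum_comm]
  have e3 : ∀ η, ∑ ω ∈ Finset.univ.filter (fun ω => rep ω = ω), c η a •
      ∑ v ∈ Finset.univ.filter (fun v : V => ((v, v) : V × V) • ω = η), (α v * m ω * α v⁻¹) =
      c η a • (b η - prj α lam (b η)) := by
    intro η
    rw [← Finset.smul_sum]
    congr 1
    rw [Finset.sum_eq_single (rep η)]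
    · exact hfib η
    · intro ω hω hne
      refine Finset.sum_eq_zero fun v hv => ?_
      exfalso
      apply hne
      have h1 := hrep2 ω η ⟨v, (Finset.mem_filter.1 hv).2⟩
      rw [← h1]
      exact (Finset.mem_filter.1 hω).2.symm
    · intro h
      exfalso
      apply h
      rw [Finset.mem_filter]
      exact ⟨Finset.mem_univ _, hrep2 (rep η) η (hrep1 η)⟩
  rw [Finset.sum_congr rfl fun η _ => e3 η]
  have e4 : ∀ η, c η a • (b η - prj α lam (b η)) = c η a • b η - prj α lam (c η a • b η) := by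
    intro η
    rw [smul_sub, prj_smul]
  rw [Finset.sum_congr rfl fun η _ => e4 η, Finset.sum_sub_distrib, ← prj_sum, hfr a]

end Pool.Agent.PST.ET.H70
end
end -- Pool.Agent.Helper70_PST.CFD

section -- Pool.Agent.Helper77_PST.DIF

/-!
Row DIF of table pst (squad PST, block ET): the differences of the images under two homomorphisms.
-/

noncomputable section

namespace Pool.Agent.PST.ET.H77

/-- DIF. -/
theorem dif : DifStmt := by
  intro r R S T _ _ _ _ _ i1 i2 τ hτ y
  have hy : y ∈ Algebra.adjoin R (Set.range τ) := by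
    rw [hτ]
    exact Algebra.mem_top
  induction hy using Algebra.adjoin_induction with
  | mem x hx =>
    obtain ⟨i, rfl⟩ := hx
    exact Ideal.subset_span ⟨i, rfl⟩
  | algebraMap a =>
    rw [AlgHom.commutes, AlgHom.commutes, sub_self]
    exact Ideal.zero_mem _
  | add x y _ _ hx hy =>
    have h : i1 (x + y) - i2 (x + y) = (i1 x - i2 x) + (i1 y - i2 y) := by
      rw [map_add, map_add]
      ring
    rw [h]
    exact Ideal.add_mem _ hx hy
  | mul x y _ _ hx hy =>
    have h : i1 (x * y) - i2 (x * y) = i1 x * (i1 y - i2 y) + i2 y * (i1 x - i2 x) := by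
      rw [map_mul, map_mul]
      ring
    rw [h]
    exact Ideal.add_mem _ (Ideal.mul_mem_left _ _ hy) (Ideal.mul_mem_left _ _ hx)

end Pool.Agent.PST.ET.H77
end
end -- Pool.Agent.Helper77_PST.DIF

section -- Pool.Agent.Helper84_PST.ZSU

/-!
# Squad PST, block ET, row ZSU: the Casimir element of `S`
-/

open scoped BigOperators TensorProduct

noncomputable section

namespace Pool.Agent.PST.ET.H84

open Pool.Agent.PFD.D2 (Cdv FibG)

theorem sub_pow_l {T : Type} [CommRing T] (ℓ : ℕ) [hp : Fact ℓ.Prime] (h : (ℓ : T) = 0)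
    (x y : T) : (x - y) ^ ℓ = x ^ ℓ - y ^ ℓ := by
  rcases subsingleton_or_nontrivial T with hs | hs
  · exact Subsingleton.elim _ _
  · have hc : CharP T ℓ := by
      obtain ⟨p, hpp⟩ := CharP.exists T
      have h1 : p ∣ ℓ := (CharP.cast_eq_zero_iff T p ℓ).1 h
      rcases (Nat.dvd_prime hp.out).1 h1 with h2 | h2
      · exact absurd h2 (CharP.char_ne_one T p)
      · rw [← h2]
        exact hpp
    exact sub_pow_char x y

/-- row ZSU -/
theorem zsu (gbs : GbsStmt) (gns : GnsStmt) (dif : DifStmt) (det : DetStmt) (jcu : JcuStmt)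
    (wun : WunStmt) (css : CssStmt) : ZsuStmt := by
  intro ℓ r _ R F V S _ _ _ _ _ _ _ _ _ c σ cf lam xx t σ' hV hE hS hP hσ'
  obtain ⟨b, K, hK1, hK2, hbij⟩ := gbs ℓ r F V lam xx t hV hE
  choose G hG1 hG2 using hP
  let i1 : S →ₐ[R] S ⊗[R] S := Algebra.TensorProduct.includeLeft
  let i2 : S →ₐ[R] S ⊗[R] S := Algebra.TensorProduct.includeRight
  have hi1 : ∀ s, i1 s = s ⊗ₜ[R] (1 : S) := fun s => rfl
  have hi2 : ∀ s, i2 s = (1 : S) ⊗ₜ[R] s := fun s => rfl
  have hgen := gns ℓ r R F V S c σ cf b hS hbij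
  have hdif := dif r R S (S ⊗[R] S) i1 i2 (fun i => σ (b i)) hgen
  have hex : ∀ s : S, ∃ a : Fin r → S ⊗[R] S,
      ∑ i, a i * (i1 (σ (b i)) - i2 (σ (b i))) = i1 s - i2 s := fun s =>
    Ideal.mem_span_range_iff_exists_fun.1 (hdif s)
  choose a ha using hex
  have hM : ∀ j, G (b j) ⊗ₜ[R] (1 : S) - (1 : S) ⊗ₜ[R] G (b j) =
      ∑ i, Matrix.of (fun j i => a (G (b j)) i) j i *
        (σ (b i) ⊗ₜ[R] (1 : S) - (1 : S) ⊗ₜ[R] σ (b i)) := fun j => (ha (G (b j))).symm
  have hlT : ((ℓ : ℕ) : S ⊗[R] S) = 0 := by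
    rw [← map_natCast (algebraMap R (S ⊗[R] S)), CharP.cast_eq_zero R ℓ, map_zero]
  have hpow : ∀ j, (σ (b j) ⊗ₜ[R] (1 : S) - (1 : S) ⊗ₜ[R] σ (b j)) ^ ℓ =
      algebraMap R (S ⊗[R] S) c.π * ∑ i, Matrix.of (fun j i => a (G (b j)) i) j i *
        (σ (b i) ⊗ₜ[R] (1 : S) - (1 : S) ⊗ₜ[R] σ (b i)) := by
    intro j
    rw [← hM j, sub_pow_l ℓ hlT, ← hi1, ← hi2, ← map_pow, ← map_pow, hG1, map_add, map_add,
      map_one, map_one, map_smul, map_smul, hi1, hi2, add_sub_add_left_eq_sub, ← smul_sub,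
      Algebra.smul_def]
  obtain ⟨e1, e2, e3⟩ := det ℓ r (S ⊗[R] S) (algebraMap R (S ⊗[R] S) c.π)
    (fun i => σ (b i) ⊗ₜ[R] (1 : S) - (1 : S) ⊗ₜ[R] σ (b i))
    (Matrix.of (fun j i => a (G (b j)) i)) hpow
  let Δ : S ⊗[R] S := (Matrix.diagonal (fun j =>
    (σ (b j) ⊗ₜ[R] (1 : S) - (1 : S) ⊗ₜ[R] σ (b j)) ^ (ℓ - 1)) -
      algebraMap R (S ⊗[R] S) c.π • Matrix.of (fun j i => a (G (b j)) i)).det
  have hkill : ∀ s : S, (s ⊗ₜ[R] (1 : S)) * Δ = ((1 : S) ⊗ₜ[R] s) * Δ := by
    intro s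
    rw [← sub_eq_zero, ← sub_mul, ← hi1, ← hi2, ← ha s, Finset.sum_mul]
    refine Finset.sum_eq_zero fun i _ => ?_
    have h1 : Δ * (i1 (σ (b i)) - i2 (σ (b i))) = 0 := e1 i
    rw [mul_assoc, mul_comm _ Δ, h1, mul_zero]
  have hcss := css R V S σ σ' (cf 1) hσ' Δ hkill
  obtain ⟨w, hw⟩ := wun ℓ r R F V S c σ cf b Δ hV hS hbij e3
  obtain ⟨D, hD⟩ := jcu ℓ r R F V S c σ cf lam xx t b K (fun j => G (b j))
    (Matrix.of (fun j i => a (G (b j)) i)) hV hE hS hK2 (fun j u => hG2 (b j) u) hM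
  have h2 : (Algebra.TensorProduct.lmul' (S := S) R).toRingHom Δ =
      (-(Algebra.TensorProduct.lmul' (S := S) R).toRingHom (algebraMap R (S ⊗[R] S) c.π)) ^ r *
        ((Algebra.TensorProduct.lmul' (S := S) R).toRingHom.mapMatrix
          (Matrix.of (fun j i => a (G (b j)) i))).det := by
    refine e2 S (Algebra.TensorProduct.lmul' (S := S) R).toRingHom fun j => ?_
    show Algebra.TensorProduct.lmul' (S := S) R
      (σ (b j) ⊗ₜ[R] (1 : S) - (1 : S) ⊗ₜ[R] σ (b j)) = 0
    rw [map_sub, Algebra.TensorProduct.lmul'_apply_tmul, Algebra.TensorProduct.lmul'_apply_tmul,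
      mul_one, one_mul, sub_self]
  have h3 : (Algebra.TensorProduct.lmul' (S := S) R).toRingHom (algebraMap R (S ⊗[R] S) c.π) =
      algebraMap R S c.π := (Algebra.TensorProduct.lmul' (S := S) R).commutes c.π
  have h4 : (w : S) * ∑ v, σ v * σ' v = (-algebraMap R S c.π) ^ r * (D : S) := by
    rw [hw, hD, ← hcss, ← h3]
    exact h2
  refine ⟨((w⁻¹ : Sˣ) : S) * ((-1) ^ r * (D : S)), ?_, ?_⟩
  · exact (Units.isUnit _).mul (((isUnit_one.neg).pow r).mul (Units.isUnit _))
  · calc ∑ v, σ v * σ' v = ((w⁻¹ : Sˣ) : S) * ((w : S) * ∑ v, σ v * σ' v) := by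
          rw [← mul_assoc, Units.inv_mul, one_mul]
      _ = c.π ^ r • (((w⁻¹ : Sˣ) : S) * ((-1) ^ r * (D : S))) := by
          rw [h4, Algebra.smul_def, map_pow, neg_pow]
          ring

end Pool.Agent.PST.ET.H84
end
end -- Pool.Agent.Helper84_PST.ZSU

section -- Pool.Agent.Helper85_PST.FVP

/-! Squad PST, row FVP (helper85): the projection onto the span of V. -/

set_option autoImplicit false

open scoped BigOperators

noncomputable section

namespace Pool.Agent.PST.H85

open Pool.Agent.PST Pool.Agent.PST.ET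
open Pool.Agent.PFC (Fx BK cj bi tw PS Frm PMid)

theorem fvp : FvpStmt := by
  intro ℓ _ F V H _ _ _ _ _ _ _ α lam hV hF
  let S := MonoidAlgebra F V
  let a : V → F := fun u => lam (α u⁻¹)
  let p : S := ∑ u : V, MonoidAlgebra.single u (a u)
  let e : F := ∑ u, a u
  have he : e ≠ 0 := by
    have h : e = lam (∑ u, α u) := by
      rw [map_sum]
      exact Fintype.sum_equiv (Equiv.inv V) _ _ fun u => rfl
    rw [h]
    exact hF.nz
  have : CharP S ℓ := charP_of_injective_algebraMap (algebraMap F S).injective ℓ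
  obtain ⟨m, hm⟩ := IsPGroup.iff_card.1 hV
  have hpw : ∀ u : V, u ^ (ℓ ^ m) = 1 := by
    intro u
    rw [← hm]
    exact pow_card_eq_one'
  have hp : p ^ (ℓ ^ m) = algebraMap F S (e ^ (ℓ ^ m)) := by
    have h1 : p ^ (ℓ ^ m) = ∑ u : V, (MonoidAlgebra.single u (a u) : S) ^ (ℓ ^ m) :=
      sum_pow_char_pow ℓ m _ _
    have h2 : e ^ (ℓ ^ m) = ∑ u : V, (a u) ^ (ℓ ^ m) := sum_pow_char_pow ℓ m _ _
    rw [h1, h2, map_sum]
    refine Finset.sum_congr rfl fun u _ => ?_
    rw [MonoidAlgebra.single_pow, hpw]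
    rfl
  have hu : IsUnit p := by
    rw [← isUnit_pow_iff (n := ℓ ^ m) (pow_ne_zero _ (Fact.out : ℓ.Prime).ne_zero), hp]
    exact (IsUnit.mk0 _ (pow_ne_zero _ he)).map (algebraMap F S)
  obtain ⟨x, hx⟩ := hu.exists_left_inv
  have hpa : ∀ u, p.coeff u = a u := by
    intro u
    change (∑ u : V, (MonoidAlgebra.single u (a u) : MonoidAlgebra F V)).coeff u = a u
    rw [MonoidAlgebra.coeff_sum]
    simp only [MonoidAlgebra.coeff_single, Finsupp.finsetSum_apply,
      Finsupp.single_apply, Finset.sum_ite_eq', Finset.mem_univ, if_true]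
  refine ⟨∑ w : V, (x.coeff w) • lam.comp (LinearMap.mulLeft F (α w)), ?_, ?_⟩
  · intro v b
    simp only [LinearMap.sum_apply, LinearMap.smul_apply, LinearMap.comp_apply,
      LinearMap.mulLeft_apply]
    refine Finset.sum_congr rfl fun w _ => ?_
    congr 1
    rw [← mul_assoc, ← map_mul α, mul_comm w v, map_mul α, mul_assoc, hF.sym, mul_assoc]
  · intro v
    simp only [LinearMap.sum_apply, LinearMap.smul_apply, LinearMap.comp_apply,
      LinearMap.mulLeft_apply]
    have h : (x * p).coeff v⁻¹ = (1 : S).coeff v⁻¹ := by rw [hx]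
    rw [MonoidAlgebra.coeff_mul_apply_left, Finsupp.sum_fintype _ _ (by simp),
      MonoidAlgebra.one_def, MonoidAlgebra.coeff_single, Finsupp.single_apply] at h
    have h2 : (if (1 : V) = v⁻¹ then (1 : F) else 0) = if v = 1 then 1 else 0 := by
      by_cases hv : v = 1
      · rw [if_pos hv, if_pos (by rw [hv, inv_one])]
      · rw [if_neg hv, if_neg (fun h' => hv (inv_eq_one.1 h'.symm))]
    rw [h2] at h
    rw [← h]
    refine Finset.sum_congr rfl fun w _ => ?_
    rw [hpa, smul_eq_mul]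
    simp only [a]
    rw [mul_inv_rev, inv_inv, inv_inv, mul_comm v w, map_mul α]

end Pool.Agent.PST.H85
end
end -- Pool.Agent.Helper85_PST.FVP

section -- Pool.Agent.Helper87_PST.TSF

/-!
# Squad PST, block ET, row TSF: the form `cf 1` is a symmetrising form
-/

set_option autoImplicit false

open scoped BigOperators TensorProduct

noncomputable section

namespace Pool.Agent.PST.ET.H87

open Pool.Agent.PFD.D2 (Cdv FibG)

theorem tsf : TsfStmt := by
  intro R F V S _ _ _ _ _ _ _ c σ cf h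
  obtain ⟨hb1, hb2, hone, hmul⟩ := h
  set G : Matrix V V R := Matrix.of fun u v => cf 1 (σ u * σ v) with hG
  have hGs : ∀ u v, G u v = G v u := by
    intro u v
    show cf 1 (σ u * σ v) = cf 1 (σ v * σ u)
    rw [mul_comm]
  set P : Matrix V V F := Matrix.of fun u v => if u * v = 1 then 1 else 0 with hP
  have hκπ : c.κ c.π = 0 := (c.ker _).2 ⟨1, (mul_one _).symm⟩
  have hκG : c.κ.mapMatrix G = P := by
    ext u v
    show c.κ (cf 1 (σ u * σ v)) = if u * v = 1 then 1 else 0
    obtain ⟨d, hd⟩ := hmul u v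
    rw [hd, map_add, map_smul, hb2, map_add, smul_eq_mul, map_mul, hκπ, zero_mul, add_zero]
    by_cases h1 : u * v = 1
    · rw [if_pos h1, if_pos h1.symm, map_one]
    · rw [if_neg h1, if_neg fun h2 => h1 h2.symm, map_zero]
  have hPP : P * P = 1 := by
    ext u w
    rw [Matrix.mul_apply, Finset.sum_eq_single u⁻¹]
    · show (if u * u⁻¹ = 1 then (1 : F) else 0) * (if u⁻¹ * w = 1 then 1 else 0) = _
      rw [if_pos (mul_inv_cancel u), one_mul, Matrix.one_apply]
      by_cases h1 : u = w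
      · rw [if_pos h1, if_pos (by rw [h1, inv_mul_cancel])]
      · rw [if_neg h1, if_neg fun h2 => h1 (inv_mul_eq_one.1 h2)]
    · intro v _ hv
      show (if u * v = 1 then (1 : F) else 0) * _ = 0
      rw [if_neg fun h1 => hv (eq_inv_of_mul_eq_one_right h1), zero_mul]
    · intro h1
      exact absurd (Finset.mem_univ _) h1
  have hdet : IsUnit G.det := by
    refine c.loc _ ?_
    rw [RingHom.map_det, hκG]
    intro h1
    have h2 := congrArg Matrix.det hPP
    rw [Matrix.det_mul, h1, Matrix.det_one, zero_mul] at h2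
    exact zero_ne_one h2
  have hNG : G⁻¹ * G = 1 := Matrix.nonsing_inv_mul _ hdet
  have hGN : G * G⁻¹ = 1 := Matrix.mul_nonsing_inv _ hdet
  have hcf : ∀ (u : V) (k : V → R), cf u (∑ w, k w • σ w) = k u := by
    intro u k
    rw [map_sum, Finset.sum_eq_single u]
    · rw [map_smul, hb2, if_pos rfl, smul_eq_mul, mul_one]
    · intro w _ hw
      rw [map_smul, hb2, if_neg hw.symm, smul_zero]
    · intro h1
      exact absurd (Finset.mem_univ _) h1
  -- the pairing
  have hpair : ∀ (x : S) (s : S), cf 1 (x * s) = ∑ w, cf w s * cf 1 (x * σ w) := by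
    intro x s
    conv_lhs => rw [← hb1 s, Finset.mul_sum, map_sum]
    refine Finset.sum_congr rfl fun w _ => ?_
    rw [mul_smul_comm, map_smul, smul_eq_mul]
  have hdual : ∀ v w, cf 1 ((∑ u, G⁻¹ v u • σ u) * σ w) = if v = w then 1 else 0 := by
    intro v w
    have h1 := congrFun (congrFun hNG v) w
    rw [Matrix.mul_apply, Matrix.one_apply] at h1
    rw [← h1, Finset.sum_mul, map_sum]
    refine Finset.sum_congr rfl fun u _ => ?_
    rw [smul_mul_assoc, map_smul, smul_eq_mul]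
    rfl
  refine ⟨fun v => ∑ u, G⁻¹ v u • σ u, ?_, ?_, ?_⟩
  · intro s
    conv_rhs => rw [← hb1 s]
    refine Finset.sum_congr rfl fun v _ => ?_
    congr 1
    rw [hpair, Finset.sum_eq_single v]
    · rw [hdual, if_pos rfl, mul_one]
    · intro w _ hw
      rw [hdual, if_neg hw.symm, mul_zero]
    · intro h1
      exact absurd (Finset.mem_univ _) h1
  · intro s
    have h1 : ∑ v, cf 1 (σ v * s) • ∑ u, G⁻¹ v u • σ u =
        ∑ u, (∑ v, cf 1 (σ v * s) * G⁻¹ v u) • σ u := by
      have h2 : ∀ v, cf 1 (σ v * s) • ∑ u, G⁻¹ v u • σ u =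
          ∑ u, (cf 1 (σ v * s) * G⁻¹ v u) • σ u := by
        intro v
        rw [Finset.smul_sum]
        exact Finset.sum_congr rfl fun u _ => smul_smul _ _ _
      rw [Finset.sum_congr rfl fun v _ => h2 v, Finset.sum_comm]
      exact Finset.sum_congr rfl fun u _ => (Finset.sum_smul).symm
    rw [h1]
    conv_rhs => rw [← hb1 s]
    refine Finset.sum_congr rfl fun u _ => ?_
    congr 1
    have h3 : ∀ v, cf 1 (σ v * s) * G⁻¹ v u = ∑ w, cf w s * (G w v * G⁻¹ v u) := by
      intro v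
      rw [hpair, Finset.sum_mul]
      refine Finset.sum_congr rfl fun w _ => ?_
      rw [mul_assoc, hGs w v]
      rfl
    rw [Finset.sum_congr rfl fun v _ => h3 v, Finset.sum_comm]
    have h4 : ∀ w, ∑ v, cf w s * (G w v * G⁻¹ v u) = cf w s * (if w = u then 1 else 0) := by
      intro w
      rw [← Finset.mul_sum, ← Matrix.mul_apply, hGN, Matrix.one_apply]
    rw [Finset.sum_congr rfl fun w _ => h4 w, Finset.sum_eq_single u]
    · rw [if_pos rfl, mul_one]
    · intro w _ hw
      rw [if_neg hw, mul_zero]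
    · intro h5
      exact absurd (Finset.mem_univ _) h5
  · intro u v
    rw [hcf u (fun w => G⁻¹ v w)]
    have h1 : c.κ.mapMatrix G⁻¹ = P := by
      have h2 : c.κ.mapMatrix G⁻¹ * P = 1 := by
        rw [← hκG, ← map_mul, hNG, map_one]
      calc c.κ.mapMatrix G⁻¹ = c.κ.mapMatrix G⁻¹ * (P * P) := by rw [hPP, mul_one]
        _ = P := by rw [← mul_assoc, h2, one_mul]
    have h3 : c.κ (G⁻¹ v u) = P v u := by
      rw [← h1]
      rfl
    rw [h3]
    show (if v * u = 1 then (1 : F) else 0) = _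
    by_cases h4 : u = v⁻¹
    · rw [if_pos h4, if_pos (by rw [h4, mul_inv_cancel])]
    · rw [if_neg h4, if_neg fun h5 => h4 (eq_inv_of_mul_eq_one_right h5)]

end Pool.Agent.PST.ET.H87
end
end -- Pool.Agent.Helper87_PST.TSF

section -- Pool.Agent.Helper91_PST.UNS

/-!
# Squad PST, block ET, row UNS: units of `S`
-/

set_option autoImplicit false

open scoped BigOperators

noncomputable section

namespace Pool.Agent.PST.ET.H91

open Pool.Agent.PFD.D2 (Cdv FibG)

theorem sig_pow {R F V S : Type} [CommRing R] [Field F] [CommGroup V] [Fintype V] [DecidableEq V]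
    [CommRing S] [Algebra R S] {c : Cdv R F} {σ : V → S} {cf : V → (S →ₗ[R] R)}
    (h : SVd c σ cf) (v : V) : ∀ n : ℕ, ∃ d, σ v ^ n = σ (v ^ n) + c.π • d := by
  intro n
  induction n with
  | zero =>
    refine ⟨0, ?_⟩
    rw [pow_zero, pow_zero, h.one, smul_zero, add_zero]
  | succ n ih =>
    obtain ⟨d, hd⟩ := ih
    obtain ⟨d', hd'⟩ := h.mul (v ^ n) v
    refine ⟨d' + d * σ v, ?_⟩
    rw [pow_succ, hd, add_mul, hd', smul_mul_assoc, smul_add, ← pow_succ, add_assoc]

theorem uns (upr : UprStmt) : UnsStmt := by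
  intro ℓ hℓ R F V S _ _ _ _ _ _ _ _ c σ cf hv h s hs
  rcases subsingleton_or_nontrivial S with hS | hS
  · exact isUnit_of_subsingleton s
  have hSℓ : (ℓ : S) = 0 := by
    have h1 : ((ℓ : R) : R) = 0 := CharP.cast_eq_zero R ℓ
    have h2 : algebraMap R S (ℓ : R) = (ℓ : S) := map_natCast _ _
    rw [← h2, h1, map_zero]
  have hcS : CharP S ℓ := (CharP.charP_iff_prime_eq_zero hℓ.out).2 hSℓ
  have hfin : Module.Finite R S := by
    classical
    refine ⟨⟨Finset.univ.image σ, ?_⟩⟩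
    rw [eq_top_iff]
    intro x _
    rw [← h.b1 x]
    refine Submodule.sum_mem _ fun v _ => Submodule.smul_mem _ _ (Submodule.subset_span ?_)
    rw [Finset.coe_image]
    exact ⟨v, Finset.mem_coe.2 (Finset.mem_univ v), rfl⟩
  have hpow : ∀ v, ∃ d, σ v ^ ℓ = 1 + c.π • d := by
    intro v
    obtain ⟨d, hd⟩ := sig_pow h v ℓ
    refine ⟨d, ?_⟩
    rw [hd, hv, h.one]
  choose g hg using hpow
  have h1 : s ^ ℓ = (∑ v, cf v s) ^ ℓ • (1 : S) + c.π • ∑ v, cf v s ^ ℓ • g v := by
    have h2 : s ^ ℓ = (∑ v, cf v s • σ v) ^ ℓ := by rw [h.b1]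
    rw [h2, sum_pow_char ℓ, sum_pow_char ℓ, Finset.sum_smul, Finset.smul_sum,
      ← Finset.sum_add_distrib]
    refine Finset.sum_congr rfl fun v _ => ?_
    rw [smul_pow, hg, smul_add, smul_comm]
  have h3 : c.κ ((∑ v, cf v s) ^ ℓ) ≠ 0 := by
    rw [map_pow, map_sum]
    exact pow_ne_zero _ hs
  obtain ⟨ρ, hρ⟩ := c.loc _ h3
  have h4 : s * (((ρ⁻¹ : Rˣ) : R) • s ^ (ℓ - 1)) =
      1 + c.π • (((ρ⁻¹ : Rˣ) : R) • ∑ v, cf v s ^ ℓ • g v) := by
    have h5 : s * s ^ (ℓ - 1) = s ^ ℓ := by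
      rw [← pow_succ', Nat.sub_add_cancel hℓ.out.one_le]
    rw [mul_smul_comm, h5, h1, smul_add, smul_smul, ← hρ, Units.inv_mul, one_smul, smul_comm]
  exact upr R F S c s _ _ _ h4 (by rw [mul_comm, h4])

end Pool.Agent.PST.ET.H91
end
end -- Pool.Agent.Helper91_PST.UNS

section -- Pool.Agent.Helper92_PST.EPS

/-!
# Row EPS of squad PST, block ET: the augmentation and the functional of an additive function (helper92)
-/

set_option autoImplicit false

open scoped BigOperators

namespace Pool.Agent.PST.ET.H92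

open Pool.Agent.PST.ET
open Pool.Agent.PFD.D2 (Cdv FibG)

section

variable {R F V S : Type} [CommRing R] [Field F] [CommGroup V] [Fintype V] [DecidableEq V]
  [CommRing S] [Algebra R S]

private theorem kpi (c : Cdv R F) : c.κ c.π = 0 := (c.ker c.π).2 ⟨1, (mul_one _).symm⟩

private theorem eps_add (c : Cdv R F) (cf : V → (S →ₗ[R] R)) (a b : S) :
    eps c cf (a + b) = eps c cf a + eps c cf b := by
  unfold eps
  rw [← Finset.sum_add_distrib]
  exact Finset.sum_congr rfl fun v _ => by rw [map_add, map_add]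

private theorem eps_smul (c : Cdv R F) (cf : V → (S →ₗ[R] R)) (r : R) (a : S) :
    eps c cf (r • a) = c.κ r * eps c cf a := by
  unfold eps
  rw [Finset.mul_sum]
  exact Finset.sum_congr rfl fun v _ => by rw [map_smul, smul_eq_mul, map_mul]

private theorem dl_add (c : Cdv R F) (cf : V → (S →ₗ[R] R)) (m : V → F) (a b : S) :
    dl c cf m (a + b) = dl c cf m a + dl c cf m b := by
  unfold dl
  rw [← Finset.sum_add_distrib]
  exact Finset.sum_congr rfl fun v _ => by rw [map_add, map_add, add_mul]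

private theorem dl_smul (c : Cdv R F) (cf : V → (S →ₗ[R] R)) (m : V → F) (r : R) (a : S) :
    dl c cf m (r • a) = c.κ r * dl c cf m a := by
  unfold dl
  rw [Finset.mul_sum]
  exact Finset.sum_congr rfl fun v _ => by rw [map_smul, smul_eq_mul, map_mul, mul_assoc]

private theorem eps_sum (c : Cdv R F) (cf : V → (S →ₗ[R] R)) {ι : Type} (s : Finset ι)
    (f : ι → S) : eps c cf (∑ i ∈ s, f i) = ∑ i ∈ s, eps c cf (f i) := by
  classical
  induction s using Finset.induction_on with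
  | empty =>
    simp only [Finset.sum_empty]
    have h := eps_smul c cf 0 (0 : S)
    rw [zero_smul, map_zero, zero_mul] at h
    exact h
  | insert i s hi ih => rw [Finset.sum_insert hi, Finset.sum_insert hi, eps_add, ih]

private theorem dl_sum (c : Cdv R F) (cf : V → (S →ₗ[R] R)) (m : V → F) {ι : Type} (s : Finset ι)
    (f : ι → S) : dl c cf m (∑ i ∈ s, f i) = ∑ i ∈ s, dl c cf m (f i) := by
  classical
  induction s using Finset.induction_on with
  | empty =>
    simp only [Finset.sum_empty]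
    have h := dl_smul c cf m 0 (0 : S)
    rw [zero_smul, map_zero, zero_mul] at h
    exact h
  | insert i s hi ih => rw [Finset.sum_insert hi, Finset.sum_insert hi, dl_add, ih]

private theorem eps_sig {c : Cdv R F} {σ : V → S} {cf : V → (S →ₗ[R] R)} (h : SVd c σ cf)
    (v : V) : eps c cf (σ v) = 1 := by
  unfold eps
  rw [Finset.sum_eq_single v]
  · rw [h.b2, if_pos rfl, map_one]
  · intro u _ hu
    rw [h.b2, if_neg hu, map_zero]
  · intro hv
    exact absurd (Finset.mem_univ v) hv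

private theorem dl_sig {c : Cdv R F} {σ : V → S} {cf : V → (S →ₗ[R] R)} (h : SVd c σ cf)
    (m : V → F) (v : V) : dl c cf m (σ v) = m v := by
  unfold dl
  rw [Finset.sum_eq_single v]
  · rw [h.b2, if_pos rfl, map_one, one_mul]
  · intro u _ hu
    rw [h.b2, if_neg hu, map_zero, zero_mul]
  · intro hv
    exact absurd (Finset.mem_univ v) hv

end

theorem eps : EpsStmt := by
  intro R F V S _ _ _ _ _ _ _ c σ cf m h hm
  have hmul : ∀ u v, ET.eps c cf (σ u * σ v) = 1 := by
    intro u v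
    obtain ⟨d, hd⟩ := h.mul u v
    rw [hd, eps_add, eps_smul, kpi, zero_mul, add_zero, eps_sig h]
  have hdl : ∀ u v, dl c cf m (σ u * σ v) = m u + m v := by
    intro u v
    obtain ⟨d, hd⟩ := h.mul u v
    rw [hd, dl_add, dl_smul, kpi, zero_mul, add_zero, dl_sig h, hm]
  have hprod : ∀ a b : S, a * b = ∑ u, ∑ v, (cf u a * cf v b) • (σ u * σ v) := by
    intro a b
    calc a * b = (∑ u, cf u a • σ u) * ∑ v, cf v b • σ v := by rw [h.b1, h.b1]
      _ = _ := by
        rw [Finset.sum_mul_sum]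
        exact Finset.sum_congr rfl fun u _ => Finset.sum_congr rfl fun v _ =>
          smul_mul_smul_comm _ _ _ _
  refine ⟨?_, eps_add c cf, ?_, eps_smul c cf, dl_add c cf m, ?_, dl_smul c cf m, eps_sig h,
    dl_sig h m⟩
  · rw [← h.one]
    exact eps_sig h 1
  · intro a b
    rw [hprod a b, eps_sum]
    have h1 : ∀ u, ET.eps c cf (∑ v, (cf u a * cf v b) • (σ u * σ v)) =
        c.κ (cf u a) * ∑ v, c.κ (cf v b) := by
      intro u
      rw [eps_sum, Finset.mul_sum]
      exact Finset.sum_congr rfl fun v _ => by rw [eps_smul, hmul, mul_one, map_mul]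
    rw [Finset.sum_congr rfl fun u _ => h1 u, ← Finset.sum_mul]
    rfl
  · intro a b
    rw [hprod a b, dl_sum]
    have h1 : ∀ u, dl c cf m (∑ v, (cf u a * cf v b) • (σ u * σ v)) =
        (c.κ (cf u a) * m u) * (∑ v, c.κ (cf v b)) + c.κ (cf u a) * ∑ v, c.κ (cf v b) * m v := by
      intro u
      rw [dl_sum, Finset.mul_sum, Finset.mul_sum, ← Finset.sum_add_distrib]
      exact Finset.sum_congr rfl fun v _ => by
        rw [dl_smul, hdl, map_mul]
        ring
    rw [Finset.sum_congr rfl fun u _ => h1 u, Finset.sum_add_distrib, ← Finset.sum_mul,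
      ← Finset.sum_mul, add_comm]
    rfl

end Pool.Agent.PST.ET.H92
end -- Pool.Agent.Helper92_PST.EPS

section -- Pool.Agent.Helper94_PST.GNS

/-! Squad PST, block ET, row GNS (helper94). -/

open scoped BigOperators

noncomputable section

namespace Pool.Agent.PST.ET.H94

open Pool.Agent.PFD.D2 (Cdv FibG)

section
variable {R F V S : Type} [CommRing R] [Field F] [CommGroup V] [Fintype V] [DecidableEq V]
  [CommRing S] [Algebra R S] {c : Cdv R F} {σ : V → S} {cf : V → (S →ₗ[R] R)}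

theorem pw_mod (h : SVd c σ cf) (v : V) (n : ℕ) : ∃ d, σ v ^ n = σ (v ^ n) + c.π • d := by
  induction n with
  | zero => exact ⟨0, by rw [pow_zero, pow_zero, h.one, smul_zero, add_zero]⟩
  | succ n ih =>
    obtain ⟨d, hd⟩ := ih
    obtain ⟨d', hd'⟩ := h.mul (v ^ n) v
    refine ⟨d' + d * σ v, ?_⟩
    rw [pow_succ, hd, add_mul, hd', pow_succ, smul_add, smul_mul_assoc, add_assoc]

theorem prod_mod (h : SVd c σ cf) {r : ℕ} (b : Fin r → V) (e : Fin r → ℕ) (s : Finset (Fin r)) :
    ∃ d, ∏ i ∈ s, σ (b i) ^ e i = σ (∏ i ∈ s, b i ^ e i) + c.π • d := by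
  classical
  induction s using Finset.induction_on with
  | empty => exact ⟨0, by rw [Finset.prod_empty, Finset.prod_empty, h.one, smul_zero, add_zero]⟩
  | insert a s ha ih =>
    obtain ⟨d, hd⟩ := ih
    obtain ⟨d1, hd1⟩ := pw_mod h (b a) (e a)
    obtain ⟨d2, hd2⟩ := h.mul (b a ^ e a) (∏ i ∈ s, b i ^ e i)
    refine ⟨d2 + σ (b a ^ e a) * d + d1 * (σ (∏ i ∈ s, b i ^ e i) + c.π • d), ?_⟩
    rw [Finset.prod_insert ha, Finset.prod_insert ha, hd, hd1]
    generalize σ (∏ i ∈ s, b i ^ e i) = X at *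
    generalize σ (b a ^ e a) = Y at *
    have h1 : (Y + c.π • d1) * (X + c.π • d) = Y * X + c.π • (Y * d + d1 * (X + c.π • d)) := by
      rw [add_mul, mul_add, smul_add, mul_smul_comm, smul_mul_assoc, add_assoc]
    rw [h1, hd2, add_assoc, ← smul_add, add_assoc]

end

theorem gns0 (ung : Pool.Agent.PFD.D2.UngStmt) : GnsStmt := by
  intro ℓ r _ R F V S _ _ _ _ _ _ _ c σ cf b h hb
  haveI : Module.Finite R S := by
    refine Module.Finite.of_surjective (Fintype.linearCombination R σ) ?_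
    intro s
    refine ⟨fun v => cf v s, ?_⟩
    rw [Fintype.linearCombination_apply]
    exact h.b1 s
  choose e he using hb.2
  have hm : ∀ v, ∃ d, (∏ i, σ (b i) ^ ((e v) i : ℕ)) = σ v + c.π • d := by
    intro v
    obtain ⟨d, hd⟩ := prod_mod h b (fun i => ((e v) i : ℕ)) Finset.univ
    refine ⟨d, ?_⟩
    rw [hd]
    congr 2
    exact he v
  choose d hd using hm
  let u : S →ₗ[R] S := ∑ v, (cf v).smulRight (∏ i, σ (b i) ^ ((e v) i : ℕ))
  have hu : ∀ s, u s = ∑ v, cf v s • ∏ i, σ (b i) ^ ((e v) i : ℕ) := by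
    intro s
    simp only [u, LinearMap.sum_apply, LinearMap.smulRight_apply]
  have hbij := ung R F S c u (by
    intro s
    refine ⟨∑ v, cf v s • d v, ?_⟩
    have h1 : s = ∑ v, cf v s • σ v := (h.b1 s).symm
    have h2 : u s = ∑ v, cf v s • σ v + c.π • ∑ v, cf v s • d v := by
      rw [hu, Finset.smul_sum, ← Finset.sum_add_distrib]
      refine Finset.sum_congr rfl fun v _ => ?_
      rw [hd, smul_add, smul_comm (cf v s) c.π]
    rw [h2, ← h1, add_sub_cancel_left])
  rw [eq_top_iff]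
  intro s _
  obtain ⟨t, rfl⟩ := hbij.2 s
  rw [hu]
  refine Subalgebra.sum_mem _ fun v _ => Subalgebra.smul_mem _ ?_ _
  exact Subalgebra.prod_mem _ fun i _ => Subalgebra.pow_mem _ (Algebra.subset_adjoin (Set.mem_range_self i)) _

theorem gns : GnsStmt := gns0 Pool.Agent.PFD.D2.H49.ung

end Pool.Agent.PST.ET.H94
end
end -- Pool.Agent.Helper94_PST.GNS

section -- Pool.Agent.PST.AsmET

/-!
# Squad PST, block ET: assembly

`etc_of`: etaleness (`ET.EtcStmt`) from rows of the block S5 of squad PSS, which are proved in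
`Pool/Agent/Helper66_PSS/AsmS5.lean`.
-/

set_option autoImplicit false

namespace Pool.Agent.PST.ETA

theorem gbs_ : Pool.Agent.PST.ET.GbsStmt :=
  Pool.Agent.PST.ET.H6.gbs

theorem eps_ : Pool.Agent.PST.ET.EpsStmt :=
  Pool.Agent.PST.ET.H92.eps

theorem upr_ : Pool.Agent.PST.ET.UprStmt :=
  Pool.Agent.PST.ET.H20.upr

theorem uns_ : Pool.Agent.PST.ET.UnsStmt :=
  Pool.Agent.PST.ET.H91.uns Pool.Agent.PST.ET.H20.upr

theorem gns_ : Pool.Agent.PST.ET.GnsStmt :=
  Pool.Agent.PST.ET.H94.gns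

theorem dif_ : Pool.Agent.PST.ET.DifStmt :=
  Pool.Agent.PST.ET.H77.dif

theorem det_ : Pool.Agent.PST.ET.DetStmt :=
  Pool.Agent.PST.ET.H10.det

theorem jcu_ : Pool.Agent.PST.ET.JcuStmt :=
  Pool.Agent.PST.ET.H1.jcu Pool.Agent.PST.ET.H92.eps uns_

theorem sca_ : Pool.Agent.PST.ET.ScaStmt :=
  Pool.Agent.PST.ET.H15.sca

theorem tsf_ : Pool.Agent.PST.ET.TsfStmt :=
  Pool.Agent.PST.ET.H87.tsf

theorem css_ : Pool.Agent.PST.ET.CssStmt :=
  Pool.Agent.PST.ET.H29.css

theorem wun_ : Pool.Agent.PST.ET.WunStmt :=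
  Pool.Agent.PST.ET.H1.wun Pool.Agent.PST.ET.H92.eps uns_ Pool.Agent.PST.ET.H15.sca

theorem zsu_ : Pool.Agent.PST.ET.ZsuStmt :=
  Pool.Agent.PST.ET.H84.zsu Pool.Agent.PST.ET.H6.gbs Pool.Agent.PST.ET.H94.gns Pool.Agent.PST.ET.H77.dif Pool.Agent.PST.ET.H10.det jcu_ wun_ Pool.Agent.PST.ET.H29.css

theorem tor_ : Pool.Agent.PST.ET.TorStmt :=
  Pool.Agent.PST.ET.H51.tor

theorem krs_ : Pool.Agent.PST.ET.KrsStmt :=
  Pool.Agent.PST.ET.H69.krs

theorem pcm_ : Pool.Agent.PST.ET.PcmStmt :=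
  Pool.Agent.PST.ET.H65.pcm

theorem klf_ : Pool.Agent.PST.ET.KlfStmt :=
  Pool.Agent.PST.ET.H29.klf Pool.Agent.PST.ET.H65.pcm Pool.Agent.PST.ET.H69.krs

theorem tau_ : Pool.Agent.PST.ET.TauStmt :=
  Pool.Agent.PST.ET.H37.tau

theorem ilf_ : Pool.Agent.PST.ET.IlfStmt :=
  Pool.Agent.PST.ET.H2.ilf

theorem cil_et_ : Pool.Agent.PST.ET.CilStmt :=
  Pool.Agent.PST.H13.cil Pool.Agent.PST.ET.H51.tor

theorem fun_ : Pool.Agent.PST.ET.FunStmt :=
  Pool.Agent.PST.H24.fun_ Pool.Agent.PST.ET.H69.krs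

theorem fcz_ : Pool.Agent.PST.ET.FczStmt :=
  Pool.Agent.PST.ET.H41.fcz

theorem rdf_ : Pool.Agent.PST.ET.RdfStmt :=
  Pool.Agent.PST.ET.H41.rdf

theorem csi_ : Pool.Agent.PST.ET.CsiStmt :=
  Pool.Agent.PST.ET.H47.csi

theorem fvp_ : Pool.Agent.PST.ET.FvpStmt :=
  Pool.Agent.PST.H85.fvp

theorem bkt_ : Pool.Agent.PST.ET.BktStmt :=
  Pool.Agent.PST.H13.bkt

theorem cfd_ : Pool.Agent.PST.ET.CfdStmt :=
  Pool.Agent.PST.ET.H70.cfd Pool.Agent.PST.H13.bkt

theorem cob_ : Pool.Agent.PST.ET.CobStmt :=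
  Pool.Agent.PST.ET.H58.cob

theorem rli_ : Pool.Agent.PST.ET.RliStmt :=
  Pool.Agent.PST.ET.H17.rli Pool.Agent.PST.ET.H51.tor

theorem ste_ : Pool.Agent.PST.ET.SteStmt :=
  Pool.Agent.PST.ET.H27.ste Pool.Agent.PST.ET.H58.cob rli_ Pool.Agent.PST.ET.H51.tor

theorem sex_ : Pool.Agent.PST.ET.SexStmt :=
  Pool.Agent.PST.ET.H58.sex ste_ Pool.Agent.PST.ET.H69.krs rli_ Pool.Agent.PST.ET.H20.upr

theorem pws_ : Pool.Agent.PST.ET.PwsStmt :=
  Pool.Agent.PST.H13.pws rli_

theorem gen_ : Pool.Agent.PST.ET.GenStmt :=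
  Pool.Agent.PST.ET.H81.gen

theorem com_ : Pool.Agent.PST.ET.ComStmt :=
  Pool.Agent.PST.ET.H37.com Pool.Agent.PST.ET.H81.gen rli_ Pool.Agent.PST.ET.H51.tor

theorem sub_ : Pool.Agent.PST.ET.SubStmt :=
  Pool.Agent.PST.ET.H83.sub sex_ pws_ com_ rli_

theorem rel_et_ : Pool.Agent.PST.ET.RelStmt :=
  Pool.Agent.PST.H55.rel

theorem rfs_ : Pool.Agent.PST.ET.RfsStmt :=
  Pool.Agent.PST.ET.H81.rfs Pool.Agent.PST.H55.rel Pool.Agent.PFD.D2.H49.ung

theorem rfp_ : Pool.Agent.PST.ET.RfpStmt :=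
  Pool.Agent.PST.ET.H23.rfp

theorem rtu_et_ : Pool.Agent.PST.ET.RtuStmt :=
  Pool.Agent.PST.H40.rtu Pool.Agent.PSS.S0.H70.bqx Pool.Agent.PSS.All30.bpu Pool.Agent.PSS.All30.mck Pool.Agent.PSS.S0.H80.zrt

theorem loc_ : Pool.Agent.PST.ET.LocStmt :=
  Pool.Agent.PST.ET.H39.loc Pool.Agent.PST.H85.fvp cfd_ sub_ Pool.Agent.PST.ET.H87.tsf zsu_ Pool.Agent.PST.ET.H41.rdf Pool.Agent.PST.ET.H23.rfp rfs_ Pool.Agent.PST.ET.H47.csi Pool.Agent.PST.ET.H37.tau Pool.Agent.PST.ET.H51.tor Pool.Agent.PST.ET.H92.eps rtu_et_ Pool.Agent.PST.ET.H20.upr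

theorem cre_ : Pool.Agent.PST.ET.CreStmt :=
  Pool.Agent.PST.ET.H41.cre

theorem crs_ : Pool.Agent.PST.ET.CrsStmt :=
  Pool.Agent.PST.ET.H59.crs Pool.Agent.PST.ET.H37.tau

theorem crg_ : Pool.Agent.PST.ET.CrgStmt :=
  Pool.Agent.PST.ET.H83.crg Pool.Agent.PST.ET.H51.tor

theorem nbk_ : Pool.Agent.PST.ET.NbkStmt :=
  Pool.Agent.PST.ET.H47.nbk

theorem co2_ : Pool.Agent.PST.ET.Co2Stmt :=
  Pool.Agent.PST.H55.co2

theorem twf_ : Pool.Agent.PST.ET.TwfStmt :=
  Pool.Agent.PST.ET.H32.twf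

theorem twr_ : Pool.Agent.PST.ET.TwrStmt :=
  Pool.Agent.PST.ET.H41.twr

theorem twc_ : Pool.Agent.PST.ET.TwcStmt :=
  Pool.Agent.PST.ET.H47.twc

theorem twz_ : Pool.Agent.PST.ET.TwzStmt :=
  Pool.Agent.PST.ET.H39.twz

theorem bcm_ : Pool.Agent.PST.ET.BcmStmt :=
  Pool.Agent.PST.ET.H19.bcm

theorem eqc_ : Pool.Agent.PST.ET.EqcStmt :=
  Pool.Agent.PST.ET.H32.eqc

theorem vtr_ : Pool.Agent.PST.ET.VtrStmt :=
  Pool.Agent.PST.ET.H75.vtr Pool.Agent.PST.ET.H41.rdf Pool.Agent.PST.ET.H47.csi Pool.Agent.PST.ET.H20.upr Pool.Agent.PST.ET.H37.tau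

section
open Pool.Agent.PSS.S5

theorem lcl_of (lcp : LcpStmt) (lkc : LkcStmt) : Pool.Agent.PST.ET.LclStmt :=
  Pool.Agent.PST.ET.H4.lcl co2_ twf_ twr_ twc_ twz_ ilf_ cre_ crg_ crs_ loc_ bcm_ klf_ tau_ fun_ fcz_
    tor_ lcp lkc

theorem dci_of (fit : FitStmt) : Pool.Agent.PST.ET.DciStmt := Pool.Agent.PST.ET.H19.dci fit

theorem mlt_of (fit : FitStmt) (bor : BorStmt) (rbk : RbkStmt) : Pool.Agent.PST.ET.MltStmt :=
  Pool.Agent.PST.ET.H19.M.mlt (dci_of fit) eqc_ bcm_ bor rbk Pool.Agent.PSS.All30.bki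
    Pool.Agent.PSS.All30.zrt

theorem etb_of (coe : CoeStmt) (clj : CljStmt) (lcp : LcpStmt) (lkc : LkcStmt) :
    Pool.Agent.PST.ET.EtbStmt :=
  Pool.Agent.PST.ET.H69.etb coe clj ilf_ cre_ crg_ crs_ (lcl_of lcp lkc) cil_et_ fun_ fcz_ tor_ tau_

/-- the block ET -/
theorem etc_of (pcx : PcxStmt) (bpt : BptStmt) (fit : FitStmt) (bor : BorStmt) (rbk : RbkStmt)
    (coe : CoeStmt) (clj : CljStmt) (lcp : LcpStmt) (lkc : LkcStmt) : Pool.Agent.PST.ET.EtcStmt :=
  Pool.Agent.PST.ET.H31.etc pcx bpt upr_ klf_ tau_ (mlt_of fit bor rbk) vtr_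
    (etb_of coe clj lcp lkc)

end

end Pool.Agent.PST.ETA
end -- Pool.Agent.PST.AsmET
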