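import Pool.Agent.Helper12_AWB.B027
import Pool.Agent.Helper12_AWB.B043
import Pool.Agent.Helper12_AWB.B197

/-!
# Merged copies (generated) of the modules

* `Pool.Agent.Helper10_PFE.GUP`
* `Pool.Agent.Helper13_PFE.YDR`
* `Pool.Agent.Helper15_PFE.S1F`
* `Pool.Agent.Helper1_PFE.NXO`
* `Pool.Agent.Helper1_PFE.TPE`
* `Pool.Agent.Helper20_PFE.LBY`
* `Pool.Agent.Helper21_PFE.SFE`
* `Pool.Agent.Helper23_PFE.RTK`
* `Pool.Agent.Helper25_PFE.CFS`
* `Pool.Agent.Helper27_PFE.ZCB`
* `Pool.Agent.Helper28_PFE.AUG`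
* `Pool.Agent.Helper28_PFE.FRA`
* `Pool.Agent.Helper29_PFE.LSC`
* `Pool.Agent.Helper2_PFE.GEX`
* `Pool.Agent.Helper32_PFE.NWS`
* `Pool.Agent.Helper32_PFE.TSV`
* `Pool.Agent.Helper33_PFE.TXA`
* `Pool.Agent.Helper39_PFE.CLY`
* `Pool.Agent.Helper46_PFE.RTW`
* `Pool.Agent.Helper47_PFE.CUF`
* `Pool.Agent.Helper52_PFE.GFR`
* `Pool.Agent.Helper52_PFE.STF`
* `Pool.Agent.Helper53_PFE.FRS`
* `Pool.Agent.Helper53_PFE.ZSY`
* `Pool.Agent.Helper55_PFE.CZF`
* `Pool.Agent.Helper55_PFE.TWT`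
* `Pool.Agent.Helper56_PFE.LYE`
* `Pool.Agent.Helper58_PFE.RHO`
* `Pool.Agent.Helper58_PFE.SPC`
* `Pool.Agent.Helper62_PFE.FSY`
* `Pool.Agent.Helper62_PFE.LHY`
* `Pool.Agent.Helper63_PFE.SGR`
* `Pool.Agent.Helper67_PFE.KMX`
* `Pool.Agent.Helper68_PFE.IDF`
* `Pool.Agent.Helper68_PFE.JPR`
* `Pool.Agent.Helper77_PFE.NFR`
* `Pool.Agent.Helper77_PFE.SFR`
* `Pool.Agent.Helper7_PFE.KZT`
* `Pool.Agent.Helper80_PFE.YKY`
* `Pool.Agent.Helper82_PFE.TXR`
* `Pool.Agent.Helper84_PFE.ORY`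
* `Pool.Agent.Helper85_PFE.WSE`
* `Pool.Agent.Helper86_PFE.KNX`
* `Pool.Agent.Helper90_PFE.CCE`
* `Pool.Agent.Helper92_PFE.SPY`
* `Pool.Agent.Helper9_PFE.CFU`
* `Pool.Agent.Helper3_PFE.AllP`
* `Pool.Agent.Helper3_PFE.RIN`
* `Pool.Agent.Helper7_PFE.LFY`
* `Pool.Agent.Helper94_PFE.OPV`
* `Pool.Agent.Helper3_PFE.AllQ`
* `Pool.Agent.Helper3_PFE.AllR`
-/

set_option autoImplicit false

section -- Pool.Agent.Helper10_PFE.GUP

/-!
# PFE, block E2, row GUP: the universal property of `Γ`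
-/

set_option autoImplicit false

open scoped BigOperators

noncomputable section

namespace Pool.Agent.PFE.H10

open Pool.Agent.PFE

section gup

variable {R Γ W B : Type} [CommRing R] [CommRing Γ] [Algebra R Γ] [CommGroup W] [Fintype W]
  [Ring B] [Algebra R B] {l : ℕ}

theorem gup_ext (G : GY R Γ W l) (f g : Γ →ₗ[R] B)
    (h : ∀ k w, f (G.y ^ k * G.om w) = g (G.y ^ k * G.om w)) (γ : Γ) : f γ = g γ := by
  rw [← G.ex γ, map_sum, map_sum]
  refine Finset.sum_congr rfl fun k _ => ?_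
  rw [map_sum, map_sum]
  refine Finset.sum_congr rfl fun w _ => ?_
  rw [map_smul, map_smul, h]

/-- the linear map -/
def gupL (G : GY R Γ W l) (Y : B) (U : W →* B) : Γ →ₗ[R] B :=
  ∑ k ∈ Finset.range l, ∑ w, (G.co k w).smulRight (Y ^ k * U w)

theorem gupL_apply (G : GY R Γ W l) (Y : B) (U : W →* B) (γ : Γ) :
    gupL G Y U γ = ∑ k ∈ Finset.range l, ∑ w, G.co k w γ • (Y ^ k * U w) := by
  rw [gupL, LinearMap.sum_apply]
  refine Finset.sum_congr rfl fun k _ => ?_
  rw [LinearMap.sum_apply]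
  rfl

theorem gupL_mon (G : GY R Γ W l) (Y : B) (U : W →* B) (hY : Y ^ l = 0) (k : ℕ) (w : W) :
    gupL G Y U (G.y ^ k * G.om w) = Y ^ k * U w := by
  classical
  by_cases hk : k < l
  · have hsum : ∀ (C : Type) [AddCommGroup C] [Module R C] (f : ℕ → W → C),
        ∑ k' ∈ Finset.range l, ∑ w', (if k' = k ∧ w' = w then (1 : R) else 0) • f k' w' =
          f k w := by
      intro C _ _ f
      rw [Finset.sum_eq_single k]
      · rw [Finset.sum_eq_single w]
        · rw [if_pos ⟨rfl, rfl⟩, one_smul]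
        · intro w' _ hw'
          rw [if_neg (fun h => hw' h.2), zero_smul]
        · intro h
          exact absurd (Finset.mem_univ w) h
      · intro k' _ hk'
        apply Finset.sum_eq_zero
        intro w' _
        rw [if_neg (fun h => hk' h.1), zero_smul]
      · intro h
        exact absurd (Finset.mem_range.2 hk) h
    have h1 := hsum Γ (fun k w => G.y ^ k * G.om w)
    rw [gupL_apply]
    rw [← hsum B (fun k w => Y ^ k * U w)]
    refine Finset.sum_congr rfl fun k' hk' => Finset.sum_congr rfl fun w' _ => ?_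
    have h2 := G.un (fun k' w' => if k' = k ∧ w' = w then (1 : R) else 0) k' w'
      (Finset.mem_range.1 hk')
    rw [h1] at h2
    rw [h2]
  · have h1 : G.y ^ k = 0 := pow_eq_zero_of_le (not_lt.1 hk) G.yl
    have h2 : Y ^ k = 0 := pow_eq_zero_of_le (not_lt.1 hk) hY
    rw [h1, h2, zero_mul, zero_mul, map_zero]

theorem gup : GupStmt := by
  intro R Γ W B _ _ _ _ _ _ _ l G Y U hl hY hc
  have hcp : ∀ (j : ℕ) (w : W), U w * Y ^ j = Y ^ j * U w := by
    intro j w
    have h : Commute Y (U w) := hc w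
    exact (h.pow_left j).symm
  have hmul : ∀ γ δ, gupL G Y U (γ * δ) = gupL G Y U γ * gupL G Y U δ := by
    intro γ δ
    refine gup_ext G ((gupL G Y U).comp (LinearMap.mulLeft R γ))
      ((LinearMap.mulLeft R (gupL G Y U γ)).comp (gupL G Y U)) ?_ δ
    intro j v
    refine gup_ext G ((gupL G Y U).comp (LinearMap.mulRight R (G.y ^ j * G.om v)))
      ((LinearMap.mulRight R (gupL G Y U (G.y ^ j * G.om v))).comp (gupL G Y U)) ?_ γ
    intro k w
    show gupL G Y U (G.y ^ k * G.om w * (G.y ^ j * G.om v)) =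
      gupL G Y U (G.y ^ k * G.om w) * gupL G Y U (G.y ^ j * G.om v)
    have h1 : G.y ^ k * G.om w * (G.y ^ j * G.om v) = G.y ^ (k + j) * G.om (w * v) := by
      rw [pow_add, map_mul]
      ring
    rw [h1, gupL_mon G Y U hY, gupL_mon G Y U hY, gupL_mon G Y U hY, pow_add, map_mul]
    calc Y ^ k * Y ^ j * (U w * U v) = Y ^ k * (Y ^ j * U w) * U v := by
          simp only [mul_assoc]
      _ = Y ^ k * (U w * Y ^ j) * U v := by rw [hcp]
      _ = Y ^ k * U w * (Y ^ j * U v) := by simp only [mul_assoc]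
  have hone : gupL G Y U 1 = 1 := by
    have h1 := gupL_mon G Y U hY 0 1
    rw [pow_zero, pow_zero, map_one, map_one, one_mul, one_mul] at h1
    exact h1
  refine ⟨AlgHom.ofLinearMap (gupL G Y U) hone hmul, ?_, ?_⟩
  · have h1 := gupL_mon G Y U hY 1 1
    rw [pow_one, pow_one, map_one, map_one, mul_one, mul_one] at h1
    exact h1
  · intro w
    have h1 := gupL_mon G Y U hY 0 w
    rw [pow_zero, pow_zero, one_mul, one_mul] at h1
    exact h1

end gup

end Pool.Agent.PFE.H10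
end
end -- Pool.Agent.Helper10_PFE.GUP

section -- Pool.Agent.Helper13_PFE.YDR

/-! PFE, row YDR: the frame `Yd`. -/

set_option autoImplicit false

open scoped BigOperators

noncomputable section

namespace Pool.Agent.PFE.H13

open Pool.Agent.PFE Pool.Agent.PFD Pool.Agent.PFD.D2 Pool.Agent.PFD.D2b
open MulOpposite
open Pool.Agent.PFC.B1 (FS Split BiM Sep)

/-- the element which represents a linear form -/
def rep {R A J : Type} [CommRing R] [Ring A] [Algebra R A] [Fintype J] (d : FS R A J)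
    (φ : A →ₗ[R] R) : A := ∑ p, φ (d.b p) • d.b' p

theorem rep_lam {R A J : Type} [CommRing R] [Ring A] [Algebra R A] [Fintype J] (d : FS R A J)
    (φ : A →ₗ[R] R) (a : A) : d.lam (rep d φ * a) = φ a := by
  have h := congrArg φ (d.h1 a)
  rw [map_sum] at h
  unfold rep
  rw [Finset.sum_mul, map_sum, ← h]
  refine Finset.sum_congr rfl fun p _ => ?_
  rw [smul_mul_assoc, map_smul, map_smul, smul_eq_mul, smul_eq_mul, mul_comm]

theorem fs_nd {R A J : Type} [CommRing R] [Ring A] [Algebra R A] [Fintype J] (d : FS R A J)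
    (x z : A) (h : ∀ a, d.lam (x * a) = d.lam (z * a)) : x = z := by
  rw [← d.h2 x, ← d.h2 z]
  refine Finset.sum_congr rfl fun p _ => ?_
  rw [h]

theorem ydr : YdrStmt := by
  intro R F Γ Γ0 W A A1 X N J Ω Ω' _ _ c _ _ _ _ _ _ _ _ _ _ _ _ _ _ _ _ _ l G f χ j0 pr0 lz d
    hd hl hχ hun
  have hy : ∀ n : ℕ, lz.j (G.y ^ n) = lz.j G.y ^ n := fun n => map_pow _ _ _
  have hts : ∀ a b, d.lam (a * b) = d.lam (b * a) := by
    intro a b
    rw [hd]
    exact lz.ts a b
  refine ⟨{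
    hl := hl
    χl := hχ
    χu := hun
    yl := by rw [← hy, G.yl, map_zero]
    d := d
    ds := hts
    deg := lz.fr.deg
    g := lz.fr.g
    g' := fun o => rep d (lz.fr.c o)
    gy := fun o => lz.fr.gy o
    g'y := ?_
    h := lz.fr.h
    h' := fun o => rep d (lz.fr.d o)
    fr := ?_ }, rfl, rfl, rfl, rfl, ?_, ?_⟩
  · intro o
    apply fs_nd d
    intro a
    have h1 : lz.fr.c o (lz.j G.y * a) = χ (lz.fr.deg o) * lz.fr.c o (a * lz.j G.y) :=
      lz.fr.cy o a
    rw [mul_assoc, rep_lam, h1, smul_mul_assoc, map_smul, smul_eq_mul, mul_assoc (lz.j G.y),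
      hts (lz.j G.y), mul_assoc (rep d (lz.fr.c o)), rep_lam]
  · intro a
    have h := lz.fr.fr a
    have h1 : (LinearMap.id : A1 →ₗ[R] A1) a = a := rfl
    rw [h1] at h
    refine Eq.trans ?_ h
    refine congrArg₂ (· + ·) ?_ ?_
    · refine Finset.sum_congr rfl fun o _ => ?_
      refine Finset.sum_congr rfl fun i _ => ?_
      have e1 : (AB lz.j).lm (G.y ^ (l - 1 - i)) a = lz.j G.y ^ (l - 1 - i) * a := by
        rw [← hy]
        rfl
      have e2 : (AB lz.j).lm (G.y ^ i) (lz.fr.g o) = lz.j G.y ^ i * lz.fr.g o := by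
        rw [← hy]
        rfl
      rw [e1, e2, mul_assoc, rep_lam]
    · refine Finset.sum_congr rfl fun o _ => ?_
      refine Finset.sum_congr rfl fun i _ => ?_
      refine Finset.sum_congr rfl fun k _ => ?_
      have e1 : (AB lz.j).lm (G.y ^ (l - 1 - i)) ((AB lz.j).rm (op (G.y ^ (l - 1 - k))) a) =
          lz.j G.y ^ (l - 1 - i) * a * lz.j G.y ^ (l - 1 - k) := by
        rw [← hy, ← hy, mul_assoc]
        rfl
      have e2 : (AB lz.j).lm (G.y ^ i) ((AB lz.j).rm (op (G.y ^ k)) (lz.fr.h o)) =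
          lz.j G.y ^ i * lz.fr.h o * lz.j G.y ^ k := by
        rw [← hy, ← hy, mul_assoc]
        rfl
      rw [e1, e2, rep_lam]
  · intro o a
    exact rep_lam d (lz.fr.c o) a
  · intro o a
    exact rep_lam d (lz.fr.d o) a

end Pool.Agent.PFE.H13
end
end -- Pool.Agent.Helper13_PFE.YDR

section -- Pool.Agent.Helper15_PFE.S1F

/-! # S1F: the special fibre of the part of degree one -/

set_option autoImplicit false

open scoped BigOperators TensorProduct

noncomputable section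

namespace Pool.Agent.PFE.H15

open MulOpposite
open Pool.Agent.PFC.B1 (FS Split BiM Sep)
open Pool.Agent.PFD (RF)
open Pool.Agent.PFD.D2
open Pool.Agent.PFE

theorem s1f : S1fStmt := by
  intro R F S S0 X _ _ _ _ c _ _ _ _ _ _ _ _ G G0 fs hfs
  have hmem : ∀ s : G.S1, fs.q (s : S) ∈ G0.S1 := by
    intro s
    change G0.c 1 (fs.q (s : S)) = fs.q (s : S)
    rw [← hfs]
    exact congrArg fs.q s.2
  have hc1 : ∀ s : S, G.c 1 s ∈ G.S1 := fun s => G.ci 1 s
  refine ⟨?_, ?_, ?_⟩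
  · haveI : IsNoetherian R S := isNoetherian_of_isNoetherianRing_of_finite R S
    exact Module.Finite.of_injective G.S1.val.toLinearMap Subtype.val_injective
  · obtain ⟨n, ⟨b⟩⟩ := Submodule.nonempty_basis_of_pid (Module.Free.chooseBasis R S)
      (Subalgebra.toSubmodule G.S1)
    exact Module.Free.of_basis b
  · refine ⟨{ q := (fs.q.comp G.S1.val.toRingHom).codRestrict G0.S1 hmem
              sc := ?_
              surj := ?_
              ker := ?_ }, ?_⟩
    · intro r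
      exact Subtype.ext (fs.sc r)
    · intro t
      obtain ⟨s, hs⟩ := fs.surj (t : S0)
      refine ⟨⟨G.c 1 s, hc1 s⟩, Subtype.ext ?_⟩
      change fs.q (G.c 1 s) = (t : S0)
      rw [hfs, hs]
      exact t.2
    · intro x hx
      have h1 : fs.q (x : S) = 0 := congrArg (fun t : G0.S1 => (t : S0)) hx
      obtain ⟨y, hy⟩ := fs.ker _ h1
      refine ⟨⟨G.c 1 y, hc1 y⟩, Subtype.ext ?_⟩
      change (x : S) = c.π • G.c 1 y
      rw [← map_smul, ← hy]
      exact x.2.symm
    · intro s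
      rfl

end Pool.Agent.PFE.H15
end
end -- Pool.Agent.Helper15_PFE.S1F

section -- Pool.Agent.Helper1_PFE.NXO

/-!
# Squad PFE, block E2, row NXO: twisted elements lift
-/

set_option autoImplicit false

open scoped BigOperators

noncomputable section

namespace Pool.Agent.PFE.H1

open MulOpposite
open Pool.Agent.PFC.B1 (FS Split BiM Sep)
open Pool.Agent.PFC (tw)
open Pool.Agent.PFD (RF)
open Pool.Agent.PFD.D2
open Pool.Agent.PFD.D2b (wrp FPl FrR)

theorem nxo_smul {R F A1 A : Type} [CommRing R] [Field F] {c : Cdv R F} [Ring A1] [Algebra R A1]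
    [Ring A] [Algebra F A] (fb : FibG A1 A c) (r : R) (a : A1) :
    fb.q (r • a) = c.κ r • fb.q a := by
  rw [Algebra.smul_def, map_mul, fb.sc, ← Algebra.smul_def]

/-- NXO -/
theorem nxo (kex : KexStmt) : NxoStmt := by
  intro R F Γ Γ0 W A A1 X Ω Ω' _ _ c _ _ _ _ _ _ _ _ _ _ _ _ _ _ _ l G f χ χ0 j0 pr0 ly hl hχ hχl
    hχu x a0 ha0
  obtain ⟨a1, ha1⟩ := ly.fb.surj a0
  obtain ⟨κ, -, h2, h3⟩ := kex R Γ W A1 X Ω Ω' l G χ (AB ly.j) ly.fr hl hχl hχu x
  have h4 : ly.fb.q (ly.j G.y * a1 - χ x • (a1 * ly.j G.y)) = 0 := by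
    have h5 : ly.fb.q (ly.j G.y) * a0 = χ0 x • (a0 * ly.fb.q (ly.j G.y)) := ha0
    rw [map_sub, nxo_smul, map_mul, map_mul, ha1, hχ, h5, sub_self]
  obtain ⟨m, hm⟩ := ly.fb.ker _ h4
  obtain ⟨m', hm'⟩ := h3 c.π a1 ⟨m, hm⟩
  refine ⟨κ a1, h2 a1, ?_⟩
  have h6 : ly.fb.q (κ a1 - a1) = 0 := by
    have h7 : c.κ c.π = 0 := (c.ker _).2 ⟨1, (mul_one _).symm⟩
    rw [hm', nxo_smul, h7, zero_smul]
  rw [map_sub, sub_eq_zero] at h6
  rw [h6, ha1]

end Pool.Agent.PFE.H1
end
end -- Pool.Agent.Helper1_PFE.NXO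

section -- Pool.Agent.Helper1_PFE.TPE

/-!
# Squad PFE, part E1, row TPE: the assembly
-/

set_option autoImplicit false

open scoped BigOperators

noncomputable section

namespace Pool.Agent.PFE.H1

open Pool.Agent.PFC.B1 (FS Split)
open Pool.Agent.PFD (RF FotStmt)

/-- the embedding of the corner and the traces -/
theorem tpe_tx {K A A' : Type} [Field K] [Ring A] [Algebra K A] [Ring A'] [Algebra K A']
    (κ : A' →ₗ[K] A) (f y : A) (y' : A') (l : ℕ) (hff : f * f = f) (hyf : y * f = f * y)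
    (hκm : ∀ a b, κ (a * b) = κ a * κ b) (hκ1 : κ 1 = f) (hκy : κ y' = y * f) (a : A') :
    κ (Tx y' l (1 : K) a) = f * Tx y l (1 : K) (κ a) * f := by
  have hc : ∀ k, y ^ k * f = f * y ^ k := by
    intro k
    induction k with
    | zero => rw [pow_zero, one_mul, mul_one]
    | succ k ih => rw [pow_succ, mul_assoc, hyf, ← mul_assoc, ih, mul_assoc]
  have hp : ∀ k, κ (y' ^ k) = y ^ k * f := by
    intro k
    induction k with
    | zero => rw [pow_zero, hκ1, pow_zero, one_mul]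
    | succ k ih =>
      rw [pow_succ, hκm, ih, hκy, pow_succ, hyf, mul_assoc (y ^ k) f, ← mul_assoc f f y, hff,
        mul_assoc (y ^ k) y f, hyf]
  have h1 : f * κ a = κ a := by
    rw [← hκ1, ← hκm, one_mul]
  have h2 : κ a * f = κ a := by
    rw [← hκ1, ← hκm, mul_one]
  unfold Tx
  rw [map_sum, Finset.mul_sum, Finset.sum_mul]
  refine Finset.sum_congr rfl fun j _ => ?_
  rw [map_smul, hκm, hκm, hp, hp, mul_smul_comm, smul_mul_assoc]
  congr 1
  calc y ^ j * f * κ a * (y ^ (l - 1 - j) * f)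
      = y ^ j * f * κ a * y ^ (l - 1 - j) * f := by rw [mul_assoc (y ^ j * f * κ a)]
    _ = f * (y ^ j * κ a * y ^ (l - 1 - j)) * f := by
        rw [hc j]
        simp only [mul_assoc]

/-- the traces of the corner -/
theorem tpe_prod {K A A' : Type} [Field K] [Ring A] [Algebra K A] [Ring A'] [Algebra K A']
    (κ : A' →ₗ[K] A) (f : A) (hκm : ∀ a b, κ (a * b) = κ a * κ b) (hκ1 : κ 1 = f)
    (g : ℕ → A') (M : ℕ) :
    κ ((List.range M).map g).prod = f * ((List.range M).map fun i => κ (g i)).prod := by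
  induction M with
  | zero => simp [hκ1]
  | succ M ih =>
    rw [List.range_succ, List.map_append, List.prod_append, List.map_append, List.prod_append,
      hκm, ih]
    simp [mul_assoc]

/-- TPE: the top of E1 -/
theorem tpe (idf : IdfStmt) (crn : CrnStmt) (czf : CzfStmt) (nil : NilStmt) (sfe : SfeStmt)
    (rho : RhoStmt) (cce : CceStmt) (cfu : CfuStmt) (kmx : KmxStmt) (kkl : KklStmt)
    (zcb : ZcbStmt) (zcs : ZcsStmt) : TpeStmt := by
  intro K A X S J Ω Ω' _ _ _ _ _ _ _ _ _ _ _ _ _ y l χ D L hX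
  have hl : 1 ≤ l := le_trans (by norm_num) D.hl
  obtain ⟨f, hff, hyf, hfa, M, hM⟩ := idf K A y l hl D.yl
  obtain ⟨A', rA', aA', fA', κ, y', D', L', hκi, hκm, hκ1, hκs, hκy, hG⟩ :=
    crn K A X S J Ω Ω' y l χ D L f hff hyf hfa
  have hz := czf K A X J Ω Ω' A' y l χ D f κ hff hyf hfa hκi hκm hκ1 hκs
  have hN : ∃ M : ℕ, ∀ a : ℕ → A', ((List.range M).map fun i => Tx y' l (1 : K) (a i)).prod = 0 := by
    refine ⟨M, fun a => hκi ?_⟩
    rw [tpe_prod κ f hκm hκ1, map_zero]
    have h1 : (fun i => κ (Tx y' l (1 : K) (a i))) =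
        fun i => f * Tx y l (1 : K) (κ (a i)) * f := by
      funext i
      exact tpe_tx κ f y y' l hff hyf hκm hκ1 hκy (a i)
    rw [h1, hM, mul_zero]
  obtain ⟨M', hJP⟩ := nil K A' X y' l χ hl D'.yl D'.χl hN
  obtain ⟨F⟩ := sfe K A' X S J Ω Ω' y' l χ D' L'
  obtain ⟨ρ⟩ := rho K A' X S J Ω Ω' y' l χ D' L' F ⟨M', hJP⟩
  obtain ⟨C, rC, aC, fC, Q, j, hji, hjy, hjs⟩ := cce K A' X S J Ω Ω' y' l χ D' L' F ρ
  obtain ⟨E, -⟩ := cfu K A' X S J Ω Ω' C y' l χ D' L' F ρ Q j hji hjy hjs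
  obtain ⟨km⟩ := kmx K A' X S J Ω Ω' C y' l χ D' L' F E
  have h1 := kkl K C A' (Ω × Fin l) J (Ω ⊕ (Ω' × Fin l)) km
  obtain ⟨Z, hZ1, hZ2⟩ := zcb K S C X L'.toGS l χ Q D'.hl D'.χl D'.χu
  have hX' : ∀ x, ∃ g g' : S, L'.toGS.c x g = g ∧ g * g' = 1 ∧ g' * g = 1 := by
    rw [hG]
    exact hX
  have h2 := zcs K S X L'.toGS l χ D'.hl D'.χl D'.χu hX' Z hZ1
  rw [hz, h1, hZ2, h2, hG]

end Pool.Agent.PFE.H1
end
end -- Pool.Agent.Helper1_PFE.TPE

section -- Pool.Agent.Helper20_PFE.LBY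

/-! Squad PFE, row LBY: balanced maps modulo `p` lift. -/

set_option autoImplicit false

namespace Pool.Agent.PFE.H20

open MulOpposite
open Pool.Agent.PFC.B1 (BiM)
open Pool.Agent.PFD.D2
open Pool.Agent.PFD.D2b (wrp FPl)

theorem xa_one {W Ω Ω' : Type} [CommGroup W] [MulAction (W × W) Ω] [MulAction (W × W) Ω']
    (l : ℕ) (ξ : Ω ⊕ (Ω' × Fin l)) : xa l (1 : W × W) ξ = ξ := by
  unfold xa
  rcases ξ with o | ⟨o, k⟩ <;> simp

theorem xa_inv {W Ω Ω' : Type} [CommGroup W] [MulAction (W × W) Ω] [MulAction (W × W) Ω']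
    (l : ℕ) (w w' : W × W) (h : w * w' = 1) (ξ : Ω ⊕ (Ω' × Fin l)) :
    xa l w (xa l w' ξ) = ξ := by
  unfold xa
  rcases ξ with o | ⟨o, k⟩
  · show Sum.inl (w • w' • o) = _
    rw [← mul_smul, h, one_smul]
  · show Sum.inr (w • w' • o, k) = _
    rw [← mul_smul, h, one_smul]

theorem lby (hL : LrcStmt) (hB : BbyStmt) (hM : MfyStmt) : LbyStmt := by
  intro R Γ W M N X Ω Ω' Ω1 Ω1' _ _ _ _ _ _ _ _ _ _ _ _ _ _ _ _ _ _ l G χ BX BN FX FN p hl hχ hu
    β hβ
  obtain ⟨e1, e2, y1, y2, p1, p2, w1, w2, ad, sm⟩ :=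
    hL R Γ W M X Ω Ω' l G χ BX LinearMap.id FX (by omega)
  obtain ⟨μ, m1, m2, m3⟩ := hM R Γ W M N X Ω Ω' Ω1 Ω1' l G χ BX BN FX FN p β hl hχ hu hβ
  let L : M →ₗ[R] (Ω ⊕ (Ω' × Fin l) → Γ) :=
    { toFun := FX.L
      map_add' := fun a b => funext fun ξ => (ad a b ξ).1
      map_smul' := fun r a => funext fun ξ => (sm r a ξ).1 }
  let Rr : M →ₗ[R] (Ω ⊕ (Ω' × Fin l) → Γ) :=
    { toFun := FX.Rr
      map_add' := fun a b => funext fun ξ => (ad a b ξ).2
      map_smul' := fun r a => funext fun ξ => (sm r a ξ).2 }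
  obtain ⟨β', b1, b2⟩ := hB R Γ W M N (Ω ⊕ (Ω' × Fin l)) l G BX BN (xa l) L Rr
    (pP G χ FX.deg) (pQ G χ FX.deg) μ
    (fun w => Function.bijective_iff_has_inverse.2 ⟨xa l w⁻¹, xa_inv l _ _ (inv_mul_cancel w),
      xa_inv l _ _ (mul_inv_cancel w)⟩) (xa_one l) y1 y2 p1 p2 w1 w2 m1 m2
  refine ⟨β', b1, fun n n' => ?_⟩
  have hP : ∀ x : N, x ∈ LinearMap.range (LinearMap.lsmul R N p) ↔ ∃ y, x = p • y := by
    intro x
    rw [LinearMap.mem_range]
    constructor
    · rintro ⟨y, hy⟩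
      exact ⟨y, hy.symm⟩
    · rintro ⟨y, hy⟩
      exact ⟨y, hy.symm⟩
  rw [← hP, b2 n n']
  have hn : β n n' = ∑ ξ, ∑ ξ', β (BX.lm (FX.L n ξ) (FX.gl ξ))
      (BX.rm (op (FX.Rr n' ξ')) (FX.gr ξ')) := by
    have h1 := e1 n
    have h2 := e2 n'
    rw [LinearMap.id_apply] at h1 h2
    have h3 : β n = ∑ ξ, β (BX.lm (FX.L n ξ) (FX.gl ξ)) := by
      conv_lhs => rw [← h1]
      exact map_sum β _ _
    rw [h3, LinearMap.sum_apply]
    apply Finset.sum_congr rfl
    intro ξ _
    conv_lhs => rw [← h2]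
    exact map_sum _ _ _
  rw [hn, ← Finset.sum_sub_distrib]
  refine Submodule.sum_mem _ fun ξ _ => ?_
  rw [← Finset.sum_sub_distrib]
  refine Submodule.sum_mem _ fun ξ' _ => ?_
  rw [hP]
  obtain ⟨a, ha⟩ := m3 ξ ξ'
  obtain ⟨b, hb⟩ := hβ.1 (FX.L n ξ) (FX.gl ξ) (BX.rm (op (FX.Rr n' ξ')) (FX.gr ξ'))
  obtain ⟨c, hc⟩ := hβ.2.2 (op (FX.Rr n' ξ')) (FX.gl ξ) (FX.gr ξ')
  refine ⟨BN.lm (FX.L n ξ) (BN.rm (op (FX.Rr n' ξ')) a) - b - BN.lm (FX.L n ξ) c, ?_⟩
  rw [smul_sub, smul_sub, ← hb, ← map_smul, ← map_smul, ← map_smul, ← ha, ← hc, map_sub, map_sub,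
    map_sub]
  show BN.lm (FX.L n ξ) (BN.rm (op (FX.Rr n' ξ')) (μ ξ ξ')) - _ = _
  abel

end Pool.Agent.PFE.H20
end -- Pool.Agent.Helper20_PFE.LBY

section -- Pool.Agent.Helper21_PFE.SFE

/-!
# Row pfe:SFE, the Frobenius system with a separating element over a field
-/

open scoped BigOperators

noncomputable section

namespace Pool.Agent.PFE.H21

open Pool.Agent.PFC.B1 (FS Split)
open Pool.Agent.PFD (RF)

theorem p_tr {R A X S : Type} [CommRing R] [Ring A] [Algebra R A] [Group X] [Fintype X] [Ring S]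
    [Algebra R S] {y : A} {l : ℕ} {χ : X →* R} (L : LS R A X S y l χ) {x x' : X} (h : x = x')
    {a : A} (ha : a ∈ Nx y χ x) (ha' : a ∈ Nx y χ x') : L.p x ⟨a, ha⟩ = L.p x' ⟨a, ha'⟩ := by
  subst h
  rfl

theorem sfe (hF : StfStmt) : SfeStmt := by
  intro K A X S J Ω Ω' _ _ _ _ _ _ _ _ _ _ y l χ D L
  obtain ⟨f, hg', hsy, ht1, hb, hb', hel⟩ := hF K A X S J Ω Ω' y l χ D.toYd L
  have hw : D.w ∈ Nx y χ 1 := by
    show y * D.w = χ 1 • (D.w * y)
    rw [map_one, one_smul]
    exact D.wy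
  have hN : ∀ o, D.g o * D.w * D.g' o ∈ Nx y χ 1 := by
    intro o
    have h1 := Nx_mul (Nx_mul (show D.g o ∈ Nx y χ (D.deg o) from D.gy o) hw) (hg' o)
    rwa [mul_one, mul_inv_cancel] at h1
  have hsum : (∑ o, D.g o * D.w * D.g' o) + Tx y l (χ 1) (∑ o, D.h o * D.w * D.h' o) = 1 := by
    rw [← D.rw]
    unfold Yd.RT
    rw [Fintype.sum_sum_type]
    congr 1
    rw [Fintype.sum_prod_type, Finset.sum_comm, Tx, ← Fin.sum_univ_eq_sum_range
      (fun j => χ 1 ^ (l - 1 - j) • (y ^ j * (∑ o, D.h o * D.w * D.h' o) * y ^ (l - 1 - j)))]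
    refine Finset.sum_congr rfl fun i _ => ?_
    rw [map_one, one_pow, one_smul, Finset.mul_sum, Finset.sum_mul]
    refine Finset.sum_congr rfl fun o _ => ?_
    show y ^ (i : ℕ) * (D.h o * D.w * D.h' o) * y ^ (l - 1 - (i : ℕ)) =
      (y ^ (i : ℕ) * D.h o) * D.w * (D.h' o * y ^ (l - 1 - (i : ℕ)))
    simp only [mul_assoc]
  have hNs : (∑ o, D.g o * D.w * D.g' o) ∈ Nx y χ 1 := Submodule.sum_mem _ fun o _ => hN o
  have hT : Tx y l (χ 1) (∑ o, D.h o * D.w * D.h' o) ∈ Nx y χ 1 := by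
    have h1 : Tx y l (χ 1) (∑ o, D.h o * D.w * D.h' o) =
        1 - ∑ o, D.g o * D.w * D.g' o := by
      rw [← hsum]
      abel
    rw [h1]
    exact Submodule.sub_mem _ (Nx_one y χ) hNs
  have hsep : ∑ o, f.b o * L.p 1 ⟨D.w, hw⟩ * f.b' o = 1 := by
    have h1 : ∀ o, f.b o * L.p 1 ⟨D.w, hw⟩ * f.b' o =
        L.p 1 ⟨D.g o * D.w * D.g' o, hN o⟩ := by
      intro o
      rw [hb, hb', L.mul, L.mul]
      exact p_tr L (by rw [mul_one, mul_inv_cancel]) _ _
    have h2 : ∑ o, L.p 1 ⟨D.g o * D.w * D.g' o, hN o⟩ =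
        L.p 1 ⟨∑ o, D.g o * D.w * D.g' o, hNs⟩ := by
      rw [← map_sum]
      congr 1
      apply Subtype.ext
      simp
    have h3 : L.p 1 ⟨Tx y l (χ 1) (∑ o, D.h o * D.w * D.h' o), hT⟩ = 0 := by
      rw [L.ker]
      exact Submodule.subset_span (Or.inl ⟨_, rfl⟩)
    have h4 : L.p 1 ⟨∑ o, D.g o * D.w * D.g' o, hNs⟩ +
        L.p 1 ⟨Tx y l (χ 1) (∑ o, D.h o * D.w * D.h' o), hT⟩ = 1 := by
      rw [← map_add, ← L.one]
      congr 1
      apply Subtype.ext
      exact hsum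
    rw [h3, add_zero] at h4
    rw [← h4, ← h2]
    exact Finset.sum_congr rfl fun o _ => h1 o
  exact ⟨{
    f := f
    sy := hsy
    t1 := ht1
    deg := D.deg
    gb := fun o => by
      rw [hb]
      exact L.pc _ _
    gb' := fun o => by
      rw [hb']
      exact L.pc _ _
    w := L.p 1 ⟨D.w, hw⟩
    w1 := L.pc _ _
    sep := hsep
    ed := rfl
    eb := hb
    eb' := fun o h => hb' o
    el := hel
    ew := fun h => rfl }⟩

end Pool.Agent.PFE.H21
end
end -- Pool.Agent.Helper21_PFE.SFE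

section -- Pool.Agent.Helper23_PFE.RTK

/-! Squad PFE, row RTK: the relative Frobenius system over `R[y]` and the relative trace. -/

open scoped BigOperators

noncomputable section

namespace Pool.Agent.PFE.H23

open Pool.Agent.PFC.B1 (FS Split)

variable {R A X J Ω Ω' : Type} [CommRing R] [Ring A] [Algebra R A] [Group X] [Fintype J]
    [Fintype Ω] [Fintype Ω'] {y : A} {l : ℕ} {χ : X →* R}

theorem pow_mul_g (D : Yd R A X J Ω Ω' y l χ) (o : Ω) (i : ℕ) :
    y ^ i * D.g o = χ (D.deg o) ^ i • (D.g o * y ^ i) := by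
  induction i with
  | zero => simp
  | succ i ih =>
    rw [pow_succ, mul_assoc, D.gy, mul_smul_comm, ← mul_assoc, ih, smul_mul_assoc, smul_smul,
      mul_assoc, ← pow_succ, ← pow_succ']

theorem g'_mul_pow (D : Yd R A X J Ω Ω' y l χ) (o : Ω) (i : ℕ) :
    D.g' o * y ^ i = χ (D.deg o) ^ i • (y ^ i * D.g' o) := by
  induction i with
  | zero => simp
  | succ i ih =>
    rw [pow_succ, ← mul_assoc, ih, smul_mul_assoc, mul_assoc, D.g'y, mul_smul_comm, smul_smul,
      ← mul_assoc, ← pow_succ]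

theorem e_pi (D : Yd R A X J Ω Ω' y l χ) (a : A) : ∑ r, D.e r * D.pi (D.e' r * a) = a := by
  have hl := D.hl
  conv_rhs => rw [← D.fr a]
  rw [Fintype.sum_sum_type]
  congr 1
  · refine Finset.sum_congr rfl fun o _ => ?_
    show D.g o * (∑ i ∈ Finset.range l, D.d.lam (y ^ (l - 1 - i) * (D.g' o * a)) • y ^ i) = _
    rw [Finset.mul_sum]
    refine Finset.sum_congr rfl fun i hi => ?_
    have hi' : i < l := Finset.mem_range.1 hi
    rw [g'_mul_pow, pow_mul_g, smul_mul_assoc, map_smul, smul_smul, mul_smul_comm, smul_eq_mul,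
      mul_assoc (y ^ (l - 1 - i)), mul_right_comm, ← pow_add, show l - 1 - i + i = l - 1 by omega,
      D.χl, one_mul]
  · rw [Fintype.sum_prod_type]
    refine Finset.sum_congr rfl fun o _ => ?_
    rw [Finset.sum_range]
    refine Finset.sum_congr rfl fun i _ => ?_
    show y ^ (i : ℕ) * D.h o * (∑ k ∈ Finset.range l, D.d.lam (y ^ (l - 1 - k) *
      (D.h' o * y ^ (l - 1 - (i : ℕ)) * a)) • y ^ k) = _
    rw [Finset.mul_sum]
    refine Finset.sum_congr rfl fun k _ => ?_
    rw [mul_smul_comm, D.ds]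
    simp only [mul_assoc]

theorem lam_pi (D : Yd R A X J Ω Ω' y l χ) (u v : A) :
    D.d.lam (u * D.pi v) = D.d.lam (D.pi u * v) := by
  unfold Yd.pi
  rw [Finset.mul_sum, Finset.sum_mul, map_sum, map_sum]
  rw [← Finset.sum_range_reflect (fun i => D.d.lam
    (D.d.lam (y ^ (l - 1 - i) * u) • y ^ i * v))]
  refine Finset.sum_congr rfl fun i hi => ?_
  have hi' : i < l := Finset.mem_range.1 hi
  rw [mul_smul_comm, smul_mul_assoc, map_smul, map_smul, smul_eq_mul, smul_eq_mul,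
    show l - 1 - (l - 1 - i) = i by omega, D.ds u, mul_comm]

theorem nondeg (D : Yd R A X J Ω Ω' y l χ) (z w : A)
    (h : ∀ b, D.d.lam (b * z) = D.d.lam (b * w)) : z = w := by
  rw [← D.d.h1 z, ← D.d.h1 w]
  exact Finset.sum_congr rfl fun i _ => by rw [h]

theorem pi_e' (D : Yd R A X J Ω Ω' y l χ) (a : A) : ∑ r, D.pi (a * D.e r) * D.e' r = a := by
  refine nondeg D _ _ fun b => ?_
  rw [Finset.mul_sum, map_sum]
  have h1 : ∀ r, D.d.lam (b * (D.pi (a * D.e r) * D.e' r)) =
      D.d.lam (a * (D.e r * D.pi (D.e' r * b))) := by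
    intro r
    rw [← mul_assoc, D.ds, ← mul_assoc, lam_pi, D.ds, mul_assoc]
  rw [Finset.sum_congr rfl fun r _ => h1 r, ← map_sum, ← Finset.mul_sum, e_pi, D.ds]

theorem pi_comm (D : Yd R A X J Ω Ω' y l χ) (a a' : A) (h : y * a = a * y) :
    D.pi a' * a = a * D.pi a' := by
  have hc : Commute y a := h
  unfold Yd.pi
  rw [Finset.sum_mul, Finset.mul_sum]
  refine Finset.sum_congr rfl fun i _ => ?_
  rw [smul_mul_assoc, mul_smul_comm, (hc.pow_left i).eq]

theorem pi_y (D : Yd R A X J Ω Ω' y l χ) (a : A) : D.pi (y * a) = y * D.pi a := by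
  have hl := D.hl
  have yl := D.yl
  obtain ⟨m, rfl⟩ : ∃ m, l = m + 1 := ⟨l - 1, by omega⟩
  unfold Yd.pi
  rw [Finset.sum_range_succ', Finset.mul_sum, Finset.sum_range_succ]
  have h0 : D.d.lam (y ^ (m + 1 - 1 - 0) * (y * a)) • y ^ 0 = 0 := by
    rw [← mul_assoc, ← pow_succ, show m + 1 - 1 - 0 + 1 = m + 1 by omega, yl, zero_mul, map_zero,
      zero_smul]
  have h1 : y * (D.d.lam (y ^ (m + 1 - 1 - m) * a) • y ^ m) = 0 := by
    rw [mul_smul_comm, ← pow_succ', yl, smul_zero]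
  rw [h0, h1]
  congr 1
  refine Finset.sum_congr rfl fun i hi => ?_
  have hi' : i < m := Finset.mem_range.1 hi
  rw [mul_smul_comm, ← pow_succ', ← mul_assoc, ← pow_succ,
    show m + 1 - 1 - (i + 1) + 1 = m + 1 - 1 - i by omega]

theorem pi_ay (D : Yd R A X J Ω Ω' y l χ) (a : A) : D.pi (a * y) = D.pi (y * a) := by
  unfold Yd.pi
  refine Finset.sum_congr rfl fun i _ => ?_
  rw [← mul_assoc, D.ds, ← mul_assoc, ← pow_succ', ← mul_assoc, ← pow_succ]

theorem rtk : RtkStmt := by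
  intro R A X J Ω Ω' _ _ _ _ _ _ _ y l χ D
  have hcy : ∀ a, y * D.pi a = D.pi a * y := fun a => (pi_comm D y a rfl).symm
  refine ⟨e_pi D, pi_e' D, ?_, ?_, ?_, hcy, pi_y D, ?_⟩
  · intro a ha b
    unfold Yd.RT
    rw [Finset.mul_sum, Finset.sum_mul]
    calc ∑ r, b * (D.e r * a * D.e' r)
        = ∑ r, ∑ r', D.e r' * a * (D.pi (D.e' r' * b * D.e r) * D.e' r) := by
          refine Finset.sum_congr rfl fun r _ => ?_
          have h := e_pi D (b * D.e r)
          calc b * (D.e r * a * D.e' r) = b * D.e r * (a * D.e' r) := by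
                simp only [mul_assoc]
            _ = (∑ r', D.e r' * D.pi (D.e' r' * (b * D.e r))) * (a * D.e' r) := by rw [h]
            _ = _ := by
              rw [Finset.sum_mul]
              refine Finset.sum_congr rfl fun r' _ => ?_
              have h2 := pi_comm D a (D.e' r' * (b * D.e r)) ha
              rw [mul_assoc (D.e' r') b]
              calc D.e r' * D.pi (D.e' r' * (b * D.e r)) * (a * D.e' r)
                  = D.e r' * (D.pi (D.e' r' * (b * D.e r)) * a) * D.e' r := by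
                    simp only [mul_assoc]
                _ = _ := by rw [h2]; simp only [mul_assoc]
      _ = ∑ r', ∑ r, D.e r' * a * (D.pi (D.e' r' * b * D.e r) * D.e' r) := Finset.sum_comm
      _ = _ := by
          refine Finset.sum_congr rfl fun r' _ => ?_
          rw [← Finset.mul_sum, pi_e']
          simp only [mul_assoc]
  · intro z a hz
    unfold Yd.RT
    rw [Finset.mul_sum]
    refine Finset.sum_congr rfl fun r _ => ?_
    rw [← mul_assoc, ← hz (D.e r)]
    simp only [mul_assoc]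
  · intro a
    unfold Yd.RT Yd.TA Tx
    have h1 : ∀ c, ∑ r, ∑ i ∈ Finset.range l, D.d.lam (y ^ (l - 1 - i) * D.e' r * c) •
        (D.e r * y ^ i) = c := by
      intro c
      conv_rhs => rw [← e_pi D c]
      refine Finset.sum_congr rfl fun r _ => ?_
      unfold Yd.pi
      rw [Finset.mul_sum]
      refine Finset.sum_congr rfl fun i _ => ?_
      rw [mul_smul_comm, mul_assoc (y ^ (l - 1 - i))]
    calc ∑ r, D.e r * (∑ j ∈ Finset.range l, (1 : R) ^ (l - 1 - j) •
          (y ^ j * a * y ^ (l - 1 - j))) * D.e' r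
        = ∑ r, ∑ j ∈ Finset.range l, (D.e r * y ^ j) * a * (y ^ (l - 1 - j) * D.e' r) := by
          refine Finset.sum_congr rfl fun r _ => ?_
          rw [Finset.mul_sum, Finset.sum_mul]
          refine Finset.sum_congr rfl fun j _ => ?_
          rw [one_pow, one_smul]
          simp only [mul_assoc]
      _ = ∑ r, ∑ j ∈ Finset.range l, ∑ p, D.d.lam (y ^ (l - 1 - j) * D.e' r * D.d.b p) •
            ((D.e r * y ^ j) * a * D.d.b' p) := by
          refine Finset.sum_congr rfl fun r _ => Finset.sum_congr rfl fun j _ => ?_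
          conv_lhs => rw [← D.d.h2 (y ^ (l - 1 - j) * D.e' r)]
          rw [Finset.mul_sum]
          exact Finset.sum_congr rfl fun p _ => by rw [mul_smul_comm]
      _ = ∑ p, (∑ r, ∑ j ∈ Finset.range l, D.d.lam (y ^ (l - 1 - j) * D.e' r * D.d.b p) •
            (D.e r * y ^ j)) * a * D.d.b' p := by
          have h3 : ∀ r, ∑ j ∈ Finset.range l, ∑ p, D.d.lam (y ^ (l - 1 - j) * D.e' r * D.d.b p) •
              ((D.e r * y ^ j) * a * D.d.b' p) = ∑ p, ∑ j ∈ Finset.range l,
              D.d.lam (y ^ (l - 1 - j) * D.e' r * D.d.b p) •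
              ((D.e r * y ^ j) * a * D.d.b' p) := fun r => Finset.sum_comm
          rw [Finset.sum_congr rfl fun r _ => h3 r, Finset.sum_comm]
          refine Finset.sum_congr rfl fun p _ => ?_
          rw [Finset.sum_mul, Finset.sum_mul]
          refine Finset.sum_congr rfl fun r _ => ?_
          rw [Finset.sum_mul, Finset.sum_mul]
          refine Finset.sum_congr rfl fun j _ => ?_
          rw [smul_mul_assoc, smul_mul_assoc]
      _ = _ := Finset.sum_congr rfl fun p _ => by rw [h1]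
  · intro a
    rw [pi_ay, pi_y, hcy]

end Pool.Agent.PFE.H23
end
end -- Pool.Agent.Helper23_PFE.RTK

section -- Pool.Agent.Helper25_PFE.CFS

/-! Squad PFE, part E1, row CFS: the Frobenius form of the twisted truncated polynomial algebra and
its Euler derivation. -/

set_option autoImplicit false

open scoped BigOperators

noncomputable section

namespace Pool.Agent.PFE.H25

open Pool.Agent.PFE Pool.Agent.PFC.B1

section

variable {K S C X : Type} [Field K] [Ring S] [Algebra K S] [Ring C] [Algebra K C] [Group X]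
    [Fintype X] {G : GS K S X} {l : ℕ} {χ : X →* K} (Q : CC K S C X G l χ)

include Q in
theorem y_pow_zero {k : ℕ} (hk : l ≤ k) : Q.y ^ k = 0 := by
  obtain ⟨m, rfl⟩ := Nat.exists_eq_add_of_le hk
  rw [pow_add, Q.yl, zero_mul]

theorem y_pow_i (k : ℕ) (s : S) : Q.y ^ k * Q.i s = Q.i ((G.sg χ ^ k) s) * Q.y ^ k := by
  induction k with
  | zero => simp
  | succ k ih =>
    rw [pow_succ', mul_assoc, ih, ← mul_assoc, Q.ys, mul_assoc, pow_succ' (G.sg χ),
      Module.End.mul_apply]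

/-- linear maps which agree on the `i(s) y^k` are equal -/
theorem ext_gen {M : Type} [AddCommGroup M] [Module K M] {f g : C →ₗ[K] M}
    (h : ∀ s k, k < l → f (Q.i s * Q.y ^ k) = g (Q.i s * Q.y ^ k)) (a : C) : f a = g a := by
  rw [← Q.ex a, map_sum, map_sum]
  exact Finset.sum_congr rfl fun k hk => h _ k (Finset.mem_range.mp hk)

theorem co_gen {k j : ℕ} (hk : k < l) (hj : j < l) (s : S) :
    Q.co k (Q.i s * Q.y ^ j) = if k = j then s else 0 := by
  classical
  have h := Q.un (Pi.single j s) k hk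
  rw [Finset.sum_eq_single j] at h
  · rw [Pi.single_eq_same] at h
    rw [h, Pi.single_apply]
  · intro m _ hm
    rw [Pi.single_eq_of_ne hm, map_zero, zero_mul]
  · intro hj'
    exact absurd (Finset.mem_range.mpr hj) hj'

/-- the form -/
def t0 (Q : CC K S C X G l χ) (τ : S →ₗ[K] K) : C →ₗ[K] K := τ.comp (Q.co (l - 1))

theorem t0_gen (hl : 2 ≤ l) (τ : S →ₗ[K] K) (s : S) (j : ℕ) :
    t0 Q τ (Q.i s * Q.y ^ j) = if j = l - 1 then τ s else 0 := by
  by_cases hj : j < l
  · unfold t0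
    rw [LinearMap.comp_apply, co_gen Q (by omega) hj]
    by_cases h : j = l - 1
    · rw [if_pos h.symm, if_pos h]
    · rw [if_neg (fun h' => h h'.symm), if_neg h, map_zero]
  · rw [y_pow_zero Q (by omega), mul_zero, map_zero, if_neg (by omega)]

theorem mul_gen (hσ : ∀ a b, G.sg χ (a * b) = G.sg χ a * G.sg χ b) (s s' : S) (k k' : ℕ) :
    Q.i s * Q.y ^ k * (Q.i s' * Q.y ^ k') = Q.i (s * (G.sg χ ^ k) s') * Q.y ^ (k + k') := by
  rw [mul_assoc, ← mul_assoc (Q.y ^ k), y_pow_i, map_mul, pow_add]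
  simp only [mul_assoc]

/-- the Euler derivation -/
def eul (Q : CC K S C X G l χ) : C →ₗ[K] C :=
  ∑ k ∈ Finset.range l, (k : K) •
    ((LinearMap.mulRight K (Q.y ^ k)).comp (Q.i.toLinearMap.comp (Q.co k)))

theorem eul_apply (a : C) :
    eul Q a = ∑ k ∈ Finset.range l, (k : K) • (Q.i (Q.co k a) * Q.y ^ k) := by
  unfold eul
  rw [LinearMap.sum_apply]
  rfl

theorem eul_gen (s : S) (j : ℕ) : eul Q (Q.i s * Q.y ^ j) = (j : K) • (Q.i s * Q.y ^ j) := by
  by_cases hj : j < l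
  · rw [eul_apply, Finset.sum_eq_single j]
    · rw [co_gen Q hj hj, if_pos rfl]
    · intro k hk hkj
      rw [co_gen Q (Finset.mem_range.mp hk) hj, if_neg hkj, map_zero, zero_mul, smul_zero]
    · intro hj'
      exact absurd (Finset.mem_range.mpr hj) hj'
  · rw [y_pow_zero Q (by omega), mul_zero, map_zero, smul_zero]

theorem y_comm (w : C) : ∃ w' : C, Q.y * w = w' * Q.y := by
  refine ⟨∑ k ∈ Finset.range l, Q.i (G.sg χ (Q.co k w)) * Q.y ^ k, ?_⟩
  conv_lhs => rw [← Q.ex w]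
  rw [Finset.mul_sum, Finset.sum_mul]
  refine Finset.sum_congr rfl fun k _ => ?_
  rw [← mul_assoc, Q.ys, mul_assoc, mul_assoc, ← pow_succ', ← pow_succ]

theorem wy_pow (w : C) (n : ℕ) : ∃ W : C, (w * Q.y) ^ n = W * Q.y ^ n := by
  induction n with
  | zero => exact ⟨1, by simp⟩
  | succ n ih =>
    obtain ⟨W, hW⟩ := ih
    obtain ⟨W', hW'⟩ := y_comm Q W
    refine ⟨w * W', ?_⟩
    rw [pow_succ', hW, mul_assoc w, ← mul_assoc Q.y, hW', mul_assoc W', ← pow_succ', mul_assoc]

theorem eul_nil (a : C) : IsNilpotent (eul Q a) := by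
  have h : ∃ w : C, eul Q a = w * Q.y := by
    refine ⟨∑ k ∈ Finset.range l, (k : K) • (Q.i (Q.co k a) * Q.y ^ (k - 1)), ?_⟩
    rw [eul_apply, Finset.sum_mul]
    refine Finset.sum_congr rfl fun k _ => ?_
    rcases Nat.eq_zero_or_pos k with rfl | hk
    · simp
    · rw [smul_mul_assoc, mul_assoc, ← pow_succ, Nat.sub_add_cancel hk]
  obtain ⟨w, hw⟩ := h
  obtain ⟨W, hW⟩ := wy_pow Q w l
  exact ⟨l, by rw [hw, hW, Q.yl, mul_zero]⟩

end

/-- **CFS** -/
theorem cfs (hsgr : SgrStmt) : CfsStmt := by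
  intro K S C X Ω _ _ _ _ _ _ _ _ G F l χ Q hl hχ
  obtain ⟨hσm, hσ1, hσl, hτσ, -, hd1, hd2⟩ := hsgr K S X Ω G F l χ hχ
  have hτσk : ∀ k a, F.f.lam ((G.sg χ ^ k) a) = F.f.lam a := by
    intro k
    induction k with
    | zero => intro a; simp
    | succ k ih =>
      intro a
      rw [pow_succ', Module.End.mul_apply, hτσ, ih]
  have hσmk : ∀ k a b, (G.sg χ ^ k) (a * b) = (G.sg χ ^ k) a * (G.sg χ ^ k) b := by
    intro k
    induction k with
    | zero => intro a b; simp
    | succ k ih =>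
      intro a b
      rw [pow_succ', Module.End.mul_apply, Module.End.mul_apply, Module.End.mul_apply, ih, hσm]
  -- symmetry
  have hsym : ∀ a b, t0 Q F.f.lam (a * b) = t0 Q F.f.lam (b * a) := by
    intro a b
    have h1 : ∀ (s : S) (k : ℕ) (b : C), k < l → t0 Q F.f.lam (Q.i s * Q.y ^ k * b) =
        t0 Q F.f.lam (b * (Q.i s * Q.y ^ k)) := by
      intro s k b hk
      refine ext_gen Q (f := (t0 Q F.f.lam).comp (LinearMap.mulLeft K (Q.i s * Q.y ^ k)))
        (g := (t0 Q F.f.lam).comp (LinearMap.mulRight K (Q.i s * Q.y ^ k))) ?_ b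
      intro s' k' hk'
      show t0 Q F.f.lam (Q.i s * Q.y ^ k * (Q.i s' * Q.y ^ k')) =
        t0 Q F.f.lam (Q.i s' * Q.y ^ k' * (Q.i s * Q.y ^ k))
      rw [mul_gen Q hσm, mul_gen Q hσm, t0_gen Q hl, t0_gen Q hl, add_comm k' k]
      by_cases h : k + k' = l - 1
      · rw [if_pos h, if_pos h, F.sy, ← hτσk k', hσmk, ← Module.End.mul_apply, ← pow_add,
          add_comm k' k, h, hσl]
      · rw [if_neg h, if_neg h]
    refine ext_gen Q (f := (t0 Q F.f.lam).comp (LinearMap.mulRight K b))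
      (g := (t0 Q F.f.lam).comp (LinearMap.mulLeft K b)) ?_ a
    intro s k hk
    exact h1 s k b hk
  have hgen : ∀ (P : C → Prop), (∀ s k, k < l → P (Q.i s * Q.y ^ k)) →
      (∀ a b, P a → P b → P (a + b)) → P 0 → ∀ a, P a := by
    intro P h1 h2 h0 a
    rw [← Q.ex a]
    refine Finset.sum_induction _ P h2 h0 ?_
    intro k hk
    exact h1 _ k (Finset.mem_range.mp hk)
  refine ⟨{ lam := t0 Q F.f.lam
            b := fun p => Q.i (F.f.b p.1) * Q.y ^ (p.2 : ℕ)
            b' := fun p => Q.y ^ (l - 1 - (p.2 : ℕ)) * Q.i (F.f.b' p.1)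
            h1 := ?_
            h2 := ?_ }, eul Q, fun a => rfl, fun p => rfl, fun p => rfl, hsym, ?_, eul_nil Q, ?_⟩
  · refine hgen _ ?_ ?_ ?_
    · intro s m hm
      rw [Fintype.sum_prod_type]
      have h1 : ∀ (o : Ω) (j : Fin l), t0 Q F.f.lam (Q.y ^ (l - 1 - (j : ℕ)) * Q.i (F.f.b' o) *
          (Q.i s * Q.y ^ m)) • (Q.i (F.f.b o) * Q.y ^ (j : ℕ)) =
          if j = (⟨m, hm⟩ : Fin l) then
            F.f.lam (F.f.b' o * s) • (Q.i (F.f.b o) * Q.y ^ m) else 0 := by
        intro o j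
        have hj := j.2
        rw [mul_assoc, ← mul_assoc (Q.i (F.f.b' o)), ← map_mul, ← mul_assoc, y_pow_i, mul_assoc,
          ← pow_add, t0_gen Q hl, hτσk]
        by_cases h : j = (⟨m, hm⟩ : Fin l)
        · subst h
          rw [if_pos (by simp; omega), if_pos rfl]
        · have h' : (j : ℕ) ≠ m := fun h' => h (Fin.ext h')
          rw [if_neg (by omega), if_neg h, zero_smul]
      simp only [h1, Finset.sum_ite_eq', Finset.mem_univ, if_true]
      have h2 := congrArg (fun t => Q.i t * Q.y ^ m) (F.f.h1 s)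
      simp only [map_sum, map_smul, Finset.sum_mul, smul_mul_assoc] at h2
      exact h2
    · intro a b ha hb
      conv_rhs => rw [← ha, ← hb]
      rw [← Finset.sum_add_distrib]
      refine Finset.sum_congr rfl fun p _ => ?_
      rw [mul_add, map_add, add_smul]
    · simp
  · refine hgen _ ?_ ?_ ?_
    · intro s m hm
      rw [Fintype.sum_prod_type]
      have hm' : l - 1 - m < l := by omega
      have h1 : ∀ (o : Ω) (j : Fin l), t0 Q F.f.lam (Q.i s * Q.y ^ m *
          (Q.i (F.f.b o) * Q.y ^ (j : ℕ))) • (Q.y ^ (l - 1 - (j : ℕ)) * Q.i (F.f.b' o)) =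
          if j = (⟨l - 1 - m, hm'⟩ : Fin l) then
            F.f.lam (s * (G.sg χ ^ m) (F.f.b o)) • (Q.i ((G.sg χ ^ m) (F.f.b' o)) * Q.y ^ m)
          else 0 := by
        intro o j
        have hj := j.2
        rw [mul_gen Q hσm, t0_gen Q hl]
        by_cases h : j = (⟨l - 1 - m, hm'⟩ : Fin l)
        · subst h
          have e1 : l - 1 - (l - 1 - m) = m := by omega
          rw [if_pos (by simp; omega), if_pos rfl]
          simp only [e1]
          rw [y_pow_i]
        · have h' : (j : ℕ) ≠ l - 1 - m := fun h' => h (Fin.ext h')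
          rw [if_neg (by omega), if_neg h, zero_smul]
      simp only [h1, Finset.sum_ite_eq', Finset.mem_univ, if_true]
      have h2 := congrArg (fun t => Q.i t * Q.y ^ m) (hd2 m s)
      simp only [map_sum, map_smul, Finset.sum_mul, smul_mul_assoc] at h2
      exact h2
    · intro a b ha hb
      conv_rhs => rw [← ha, ← hb]
      rw [← Finset.sum_add_distrib]
      refine Finset.sum_congr rfl fun p _ => ?_
      rw [add_mul, map_add, add_smul]
    · simp
  · -- Leibniz
    intro a b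
    have h1 : ∀ (s : S) (k : ℕ) (b : C), k < l → eul Q (Q.i s * Q.y ^ k * b) =
        eul Q (Q.i s * Q.y ^ k) * b + Q.i s * Q.y ^ k * eul Q b := by
      intro s k b hk
      refine ext_gen Q (f := (eul Q).comp (LinearMap.mulLeft K (Q.i s * Q.y ^ k)))
        (g := LinearMap.mulLeft K (eul Q (Q.i s * Q.y ^ k)) +
          (LinearMap.mulLeft K (Q.i s * Q.y ^ k)).comp (eul Q)) ?_ b
      intro s' k' hk'
      show eul Q (Q.i s * Q.y ^ k * (Q.i s' * Q.y ^ k')) =
        eul Q (Q.i s * Q.y ^ k) * (Q.i s' * Q.y ^ k') +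
          Q.i s * Q.y ^ k * eul Q (Q.i s' * Q.y ^ k')
      rw [eul_gen, eul_gen, mul_gen Q hσm, eul_gen, smul_mul_assoc, mul_smul_comm,
        mul_gen Q hσm, ← add_smul, Nat.cast_add]
    refine ext_gen Q (f := (eul Q).comp (LinearMap.mulRight K b))
      (g := (LinearMap.mulRight K b).comp (eul Q) + LinearMap.mulRight K (eul Q b)) ?_ a
    intro s k hk
    exact h1 s k b hk
  · intro a
    refine ext_gen Q (f := (t0 Q F.f.lam).comp (eul Q))
      (g := ((l - 1 : ℕ) : K) • t0 Q F.f.lam) ?_ a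
    intro s k hk
    show t0 Q F.f.lam (eul Q (Q.i s * Q.y ^ k)) =
      ((l - 1 : ℕ) : K) * t0 Q F.f.lam (Q.i s * Q.y ^ k)
    rw [eul_gen, map_smul, t0_gen Q hl, smul_eq_mul]
    by_cases h : k = l - 1
    · rw [if_pos h, h]
    · rw [if_neg h, mul_zero, mul_zero]

end Pool.Agent.PFE.H25
end
end -- Pool.Agent.Helper25_PFE.CFS

section -- Pool.Agent.Helper27_PFE.ZCB

set_option autoImplicit false

open scoped BigOperators

noncomputable section

namespace Pool.Agent.PFE.H27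

open Pool.Agent.PFE

section

variable {K S C X : Type} [Field K] [Ring S] [Algebra K S] [Ring C] [Algebra K C] [Group X]
  [Fintype X] {G : GS K S X} {l : ℕ} {χ : X →* K}

theorem sgc (G : GS K S X) (χ : X →* K) (x : X) (s : S) :
    G.sg χ (G.c x s) = χ x • G.c x s := by
  unfold GS.sg
  rw [LinearMap.sum_apply]
  simp only [LinearMap.smul_apply]
  rw [Finset.sum_eq_single x]
  · rw [G.ci]
  · intro x' _ hx'
    rw [G.co x' x s hx', smul_zero]
  · intro h
    exact absurd (Finset.mem_univ x) h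

theorem sgck (G : GS K S X) (χ : X →* K) (x : X) (s : S) (k : ℕ) :
    (G.sg χ ^ k) (G.c x s) = χ x ^ k • G.c x s := by
  induction k with
  | zero => rw [pow_zero, pow_zero, one_smul, Module.End.one_apply]
  | succ k ih => rw [pow_succ, Module.End.mul_apply, sgc, map_smul, ih, smul_smul, pow_succ,
      mul_comm]

theorem sgk_id (G : GS K S X) (χ : X →* K) (k : ℕ) (h : ∀ x, χ x ^ k = 1) (s : S) :
    (G.sg χ ^ k) s = s := by
  conv_lhs => rw [← G.cs s]
  rw [map_sum]
  conv_rhs => rw [← G.cs s]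
  apply Finset.sum_congr rfl
  intro x _
  rw [sgck, h, one_smul]

theorem sg_fix (G : GS K S X) (χ : X →* K) (hu : ∀ x, x ≠ 1 → IsUnit (1 - χ x)) (s : S) :
    G.sg χ s = s ↔ G.c 1 s = s := by
  constructor
  · intro h
    have h0 : ∀ x, x ≠ 1 → G.c x s = 0 := by
      intro x hx
      have h1 : G.c x (G.sg χ s) = χ x • G.c x s := by
        unfold GS.sg
        rw [LinearMap.sum_apply, map_sum]
        simp only [LinearMap.smul_apply, map_smul]
        rw [Finset.sum_eq_single x]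
        · rw [G.ci]
        · intro x' _ hx'
          rw [G.co x x' s hx'.symm, smul_zero]
        · intro h
          exact absurd (Finset.mem_univ x) h
      rw [h] at h1
      have h2 : (1 - χ x) • G.c x s = 0 := by
        rw [sub_smul, one_smul, ← h1, sub_self]
      rcases smul_eq_zero.mp h2 with h3 | h3
      · exact absurd h3 (hu x hx).ne_zero
      · exact h3
    conv_rhs => rw [← G.cs s]
    rw [Finset.sum_eq_single 1]
    · intro x _ hx
      exact h0 x hx
    · intro h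
      exact absurd (Finset.mem_univ _) h
  · intro h
    rw [← h, sgc, map_one, one_smul]

theorem pw (Q : CC K S C X G l χ) (k : ℕ) (t : S) :
    Q.y ^ k * Q.i t = Q.i ((G.sg χ ^ k) t) * Q.y ^ k := by
  induction k generalizing t with
  | zero => rw [pow_zero, pow_zero, one_mul, mul_one, Module.End.one_apply]
  | succ k ih => rw [pow_succ, mul_assoc, Q.ys, ← mul_assoc, ih, mul_assoc, pow_succ,
      Module.End.mul_apply]

/-- the element with the given coefficients -/
def el (Q : CC K S C X G l χ) (s : ℕ → S) : C := ∑ k ∈ Finset.range l, Q.i (s k) * Q.y ^ k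

theorem co_el (Q : CC K S C X G l χ) (s : ℕ → S) (k : ℕ) (hk : k < l) : Q.co k (el Q s) = s k :=
  Q.un s k hk

theorem el_ext (Q : CC K S C X G l χ) (s t : ℕ → S) (h : ∀ k, k < l → s k = t k) :
    el Q s = el Q t := by
  unfold el
  apply Finset.sum_congr rfl
  intro k hk
  rw [h k (Finset.mem_range.mp hk)]

theorem i_mul (Q : CC K S C X G l χ) (t : S) (s : ℕ → S) :
    Q.i t * el Q s = el Q (fun k => t * s k) := by
  unfold el
  rw [Finset.mul_sum]
  apply Finset.sum_congr rfl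
  intro k _
  rw [← mul_assoc, ← map_mul]

theorem mul_i (Q : CC K S C X G l χ) (t : S) (s : ℕ → S) :
    el Q s * Q.i t = el Q (fun k => s k * (G.sg χ ^ k) t) := by
  unfold el
  rw [Finset.sum_mul]
  apply Finset.sum_congr rfl
  intro k _
  rw [mul_assoc, pw, ← mul_assoc, ← map_mul]

/-- shift of the coefficients -/
def sh (s : ℕ → S) : ℕ → S := fun k => Nat.casesOn k 0 s

theorem shift (Q : CC K S C X G l χ) (hl : 1 ≤ l) (s : ℕ → S) :
    ∑ k ∈ Finset.range l, Q.i (s k) * Q.y ^ (k + 1) = el Q (sh s) := by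
  unfold el
  have hyl := Q.yl
  obtain ⟨m, rfl⟩ : ∃ m, l = m + 1 := ⟨l - 1, by omega⟩
  rw [Finset.sum_range_succ, Finset.sum_range_succ' (fun k => Q.i (sh s k) * Q.y ^ k)]
  rw [hyl, mul_zero, add_zero]
  have h0 : Q.i (sh s 0) = 0 := by
    show Q.i (0 : S) = 0
    exact map_zero _
  rw [h0, zero_mul, add_zero]
  rfl

theorem y_mul (Q : CC K S C X G l χ) (hl : 1 ≤ l) (s : ℕ → S) :
    Q.y * el Q s = el Q (sh (fun k => G.sg χ (s k))) := by
  rw [← shift Q hl]
  unfold el
  rw [Finset.mul_sum]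
  apply Finset.sum_congr rfl
  intro k _
  rw [← mul_assoc, Q.ys, mul_assoc, ← pow_succ']

theorem mul_y (Q : CC K S C X G l χ) (hl : 1 ≤ l) (s : ℕ → S) :
    el Q s * Q.y = el Q (sh s) := by
  rw [← shift Q hl]
  unfold el
  rw [Finset.sum_mul]
  apply Finset.sum_congr rfl
  intro k _
  rw [mul_assoc, ← pow_succ]

theorem mem_cen (Q : CC K S C X G l χ) (hl : 1 ≤ l) (s : ℕ → S) :
    el Q s ∈ Subalgebra.center K C ↔
      (∀ k, k < l → ∀ t, t * s k = s k * (G.sg χ ^ k) t) ∧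
      ∀ k, k + 1 < l → G.sg χ (s k) = s k := by
  rw [Subalgebra.mem_center_iff]
  constructor
  · intro h
    refine ⟨?_, ?_⟩
    · intro k hk t
      have h1 := h (Q.i t)
      rw [i_mul, mul_i] at h1
      have h2 := congrArg (Q.co k) h1
      rw [co_el Q _ k hk, co_el Q _ k hk] at h2
      exact h2
    · intro k hk
      have h1 := h Q.y
      rw [y_mul Q hl, mul_y Q hl] at h1
      have h2 := congrArg (Q.co (k + 1)) h1
      rw [co_el Q _ _ hk, co_el Q _ _ hk] at h2
      exact h2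
  · rintro ⟨h1, h2⟩ b
    have hi : ∀ t, Commute (Q.i t) (el Q s) := by
      intro t
      show Q.i t * el Q s = el Q s * Q.i t
      rw [i_mul, mul_i]
      apply el_ext
      intro k hk
      exact h1 k hk t
    have hy : Commute Q.y (el Q s) := by
      show Q.y * el Q s = el Q s * Q.y
      rw [y_mul Q hl, mul_y Q hl]
      apply el_ext
      intro k hk
      cases k with
      | zero => rfl
      | succ k => exact h2 k hk
    have hb : Commute b (el Q s) := by
      rw [← Q.ex b]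
      apply Commute.sum_left
      intro k _
      exact (hi _).mul_left (hy.pow_left k)
    exact hb

/-- the spaces of the statement -/
def Zk (G : GS K S X) (χ : X →* K) (k : ℕ) : Submodule K S where
  carrier := {s | G.c 1 s = s ∧ ∀ x t, G.c x t * s = χ x ^ k • (s * G.c x t)}
  zero_mem' := by
    refine ⟨map_zero _, ?_⟩
    intro x t
    rw [mul_zero, zero_mul, smul_zero]
  add_mem' := by
    rintro a b ⟨ha, ha'⟩ ⟨hb, hb'⟩
    refine ⟨?_, ?_⟩
    · rw [map_add, ha, hb]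
    · intro x t
      rw [mul_add, add_mul, smul_add, ha', hb']
  smul_mem' := by
    rintro r a ⟨ha, ha'⟩
    refine ⟨?_, ?_⟩
    · rw [map_smul, ha]
    · intro x t
      rw [mul_smul_comm, smul_mul_assoc, ha', smul_comm]

theorem mem_Zk (G : GS K S X) (χ : X →* K) (k : ℕ) (s : S) :
    s ∈ Zk G χ k ↔ G.c 1 s = s ∧ ∀ x t, G.c x t * s = χ x ^ k • (s * G.c x t) := Iff.rfl

theorem mem_Zk' (G : GS K S X) (χ : X →* K) (k : ℕ) (s : S) :
    (∀ x t, G.c x t * s = χ x ^ k • (s * G.c x t)) ↔ ∀ t, t * s = s * (G.sg χ ^ k) t := by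
  constructor
  · intro h t
    conv_lhs => rw [← G.cs t]
    conv_rhs => rw [← G.cs t]
    rw [Finset.sum_mul, map_sum, Finset.mul_sum]
    apply Finset.sum_congr rfl
    intro x _
    rw [sgck, h x t, mul_smul_comm]
  · intro h x t
    rw [h, sgck, mul_smul_comm]

/-- the coefficient of degree `k` -/
def sq (G : GS K S X) (χ : X →* K) (l k : ℕ) :
    (↥(Subalgebra.toSubmodule (Subalgebra.center K S)) × (∀ j : Fin (l - 1), ↥(Zk G χ j))) →ₗ[K]
      S :=
  if h : k < l - 1 then (Zk G χ k).subtype ∘ₗ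
    (LinearMap.proj (R := K) (φ := fun j : Fin (l - 1) => ↥(Zk G χ j)) (⟨k, h⟩ : Fin (l - 1)) :
      (∀ j : Fin (l - 1), ↥(Zk G χ j)) →ₗ[K] ↥(Zk G χ k)) ∘ₗ LinearMap.snd K _ _
  else (Subalgebra.toSubmodule (Subalgebra.center K S)).subtype ∘ₗ LinearMap.fst K _ _

theorem sq_lt (G : GS K S X) (χ : X →* K) (l k : ℕ) (h : k < l - 1)
    (p : ↥(Subalgebra.toSubmodule (Subalgebra.center K S)) × (∀ j : Fin (l - 1), ↥(Zk G χ j))) :
    sq G χ l k p = ((p.2 ⟨k, h⟩ : ↥(Zk G χ k)) : S) := by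
  unfold sq
  rw [dif_pos h]
  rfl

theorem sq_ge (G : GS K S X) (χ : X →* K) (l k : ℕ) (h : ¬ k < l - 1)
    (p : ↥(Subalgebra.toSubmodule (Subalgebra.center K S)) × (∀ j : Fin (l - 1), ↥(Zk G χ j))) :
    sq G χ l k p = (p.1 : S) := by
  unfold sq
  rw [dif_neg h]
  rfl

/-- the parametrisation of the centre -/
def ph (Q : CC K S C X G l χ) :
    (↥(Subalgebra.toSubmodule (Subalgebra.center K S)) × (∀ j : Fin (l - 1), ↥(Zk G χ j))) →ₗ[K]
      C :=
  ∑ k ∈ Finset.range l, (LinearMap.mulRight K (Q.y ^ k)) ∘ₗ Q.i.toLinearMap ∘ₗ sq G χ l k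

theorem ph_apply (Q : CC K S C X G l χ)
    (p : ↥(Subalgebra.toSubmodule (Subalgebra.center K S)) × (∀ j : Fin (l - 1), ↥(Zk G χ j))) :
    ph Q p = el Q (fun k => sq G χ l k p) := by
  unfold ph el
  rw [LinearMap.sum_apply]
  rfl

theorem ph_inj (Q : CC K S C X G l χ) (hl : 2 ≤ l) : Function.Injective (ph Q) := by
  intro p p' h
  rw [ph_apply, ph_apply] at h
  have h1 : ∀ k, k < l → sq G χ l k p = sq G χ l k p' := by
    intro k hk
    have h2 := congrArg (Q.co k) h
    rw [co_el Q _ k hk, co_el Q _ k hk] at h2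
    exact h2
  apply Prod.ext
  · apply Subtype.ext
    have h2 := h1 (l - 1) (by omega)
    rw [sq_ge G χ l (l - 1) (lt_irrefl _), sq_ge G χ l (l - 1) (lt_irrefl _)] at h2
    exact h2
  · funext j
    apply Subtype.ext
    have h2 := h1 j (by have := j.2; omega)
    rw [sq_lt G χ l j j.2, sq_lt G χ l j j.2] at h2
    exact h2

theorem ph_range (Q : CC K S C X G l χ) (hl : 2 ≤ l) (hχ : ∀ x, χ x ^ (l - 1) = 1)
    (hu : ∀ x, x ≠ 1 → IsUnit (1 - χ x)) :
    LinearMap.range (ph Q) = Subalgebra.toSubmodule (Subalgebra.center K C) := by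
  ext c
  rw [LinearMap.mem_range, Subalgebra.mem_toSubmodule]
  constructor
  · rintro ⟨p, rfl⟩
    rw [ph_apply, mem_cen Q (by omega)]
    refine ⟨?_, ?_⟩
    · intro k hk t
      by_cases h : k < l - 1
      · show t * sq G χ l k p = sq G χ l k p * (G.sg χ ^ k) t
        rw [sq_lt G χ l k h]
        exact (mem_Zk' G χ k _).mp ((mem_Zk G χ k _).mp (p.2 ⟨k, h⟩).2).2 t
      · show t * sq G χ l k p = sq G χ l k p * (G.sg χ ^ k) t
        rw [sq_ge G χ l k h]
        have hk' : k = l - 1 := by omega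
        rw [hk', sgk_id G χ (l - 1) hχ]
        have h5 : (p.1 : S) ∈ Subalgebra.center K S := p.1.2
        exact (Subalgebra.mem_center_iff.mp h5) t
    · intro k hk
      have h : k < l - 1 := by omega
      show G.sg χ (sq G χ l k p) = sq G χ l k p
      rw [sq_lt G χ l k h]
      exact (sg_fix G χ hu _).mpr ((mem_Zk G χ k _).mp (p.2 ⟨k, h⟩).2).1
  · intro hc
    have he : el Q (fun k => Q.co k c) = c := Q.ex c
    rw [← he, mem_cen Q (by omega)] at hc
    obtain ⟨h1, h2⟩ := hc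
    have hz : Q.co (l - 1) c ∈ Subalgebra.toSubmodule (Subalgebra.center K S) := by
      rw [Subalgebra.mem_toSubmodule, Subalgebra.mem_center_iff]
      intro t
      have h3 := h1 (l - 1) (by omega) t
      rw [sgk_id G χ (l - 1) hχ] at h3
      exact h3
    have hf : ∀ j : Fin (l - 1), Q.co j c ∈ Zk G χ j := by
      intro j
      have hj := j.2
      rw [mem_Zk, mem_Zk']
      exact ⟨(sg_fix G χ hu _).mp (h2 j (by omega)), h1 j (by omega)⟩
    refine ⟨(⟨Q.co (l - 1) c, hz⟩, fun j => ⟨Q.co j c, hf j⟩), ?_⟩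
    rw [ph_apply]
    conv_rhs => rw [← he]
    apply el_ext
    intro k hk
    by_cases h : k < l - 1
    · rw [sq_lt G χ l k h]
    · rw [sq_ge G χ l k h]
      have hk' : k = l - 1 := by omega
      rw [hk']

end

theorem zcb : ZcbStmt := by
  intro K S C X _ _ _ _ _ _ _ _ G l χ Q hl hχ hu
  refine ⟨Zk G χ, fun k s => mem_Zk G χ k s, ?_⟩
  have h1 : Module.finrank K (Subalgebra.center K C) =
      Module.finrank K ↥(LinearMap.range (ph Q)) := by
    rw [ph_range Q hl hχ hu]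
    rfl
  rw [h1, LinearMap.finrank_range_of_inj (ph_inj Q hl), Module.finrank_prod,
    Module.finrank_pi_fintype]
  rw [Finset.sum_range (fun k => Module.finrank K ↥(Zk G χ k))]
  rfl

end Pool.Agent.PFE.H27
end
end -- Pool.Agent.Helper27_PFE.ZCB

section -- Pool.Agent.Helper28_PFE.AUG

/-!
# Squad PFE (theorem (R)), row AUG (helper28): the units of `F V`
-/

open scoped BigOperators

noncomputable section

namespace Pool.Agent.PFE.H28

theorem aug : AugStmt := by
  intro ℓ _ F V _ _ _ _ hP x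
  classical
  haveI : CharP (MonoidAlgebra F V) ℓ :=
    charP_of_injective_algebraMap (algebraMap F (MonoidAlgebra F V)).injective ℓ
  obtain ⟨n, hn⟩ := IsPGroup.iff_card.1 hP
  have hv : ∀ v : V, v ^ ℓ ^ n = 1 := fun v => by rw [← hn]; exact pow_card_eq_one'
  have hx : x = ∑ v, MonoidAlgebra.single v (x.coeff v) := by
    ext w
    simp [MonoidAlgebra.coeff_single, Finsupp.single_apply]
  have key : x ^ ℓ ^ n = MonoidAlgebra.single (1 : V) ((∑ v, x.coeff v) ^ ℓ ^ n) := by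
    conv_lhs => rw [hx]
    rw [sum_pow_char_pow, sum_pow_char_pow]
    simp only [MonoidAlgebra.single_pow, hv]
    ext w
    simp [MonoidAlgebra.coeff_single, Finsupp.single_apply]
  let ε : MonoidAlgebra F V →ₐ[F] F := MonoidAlgebra.lift F F V (1 : V →* F)
  have hε : ε x = ∑ v, x.coeff v := by
    conv_lhs => rw [hx]
    rw [map_sum]
    refine Finset.sum_congr rfl fun v _ => ?_
    simp [ε, MonoidAlgebra.lift_single]
  constructor
  · intro hu
    have := hu.map ε
    rw [hε] at this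
    exact this.ne_zero
  · intro h0
    have h1 : IsUnit (x ^ ℓ ^ n) := by
      rw [key]
      refine IsUnit.of_mul_eq_one (MonoidAlgebra.single (1 : V) (((∑ v, x.coeff v) ^ ℓ ^ n)⁻¹)) ?_
      rw [MonoidAlgebra.single_mul_single, one_mul, mul_inv_cancel₀ (pow_ne_zero _ h0)]
      rfl
    exact (isUnit_pow_iff (pow_ne_zero _ (Fact.out : ℓ.Prime).ne_zero)).1 h1

end Pool.Agent.PFE.H28
end
end -- Pool.Agent.Helper28_PFE.AUG

section -- Pool.Agent.Helper28_PFE.FRA

/-! Squad PFE, part E2: rows FRT (transport of a frame) and FRA (the deformation has a frame). -/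

set_option autoImplicit false

open scoped BigOperators

noncomputable section

namespace Pool.Agent.PFE.H28

open MulOpposite
open Pool.Agent.PFC.B1 (FS Split BiM Sep)
open Pool.Agent.PFD (RF)
open Pool.Agent.PFD.D2
open Pool.Agent.PFD.D2b (wrp FPl FrR WFS)

theorem wrp_hom {R Γ W N N' : Type} [CommRing R] [CommRing Γ] [Algebra R Γ] [CommGroup W]
    [AddCommGroup N] [Module R N] [AddCommGroup N'] [Module R N'] (om : W →* Γ)
    {B : BiM R Γ N} {B' : BiM R Γ N'} {i : N' →ₗ[R] N} (hi : BHom B' B i) (w : W × W) (n : N') :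
    i (wrp om B' w n) = wrp om B w (i n) := by
  change i (B'.lm _ (B'.rm _ n)) = B.lm _ (B.rm _ (i n))
  rw [hi.1, hi.2]

theorem frt : FrtStmt := by
  intro R Γ W N N' X Ω Ω' _ _ _ _ _ _ _ _ _ _ _ _ _ _ l G χ B B' q F i p hi hp
  refine ⟨{ deg := F.deg, dg := F.dg, fo := F.fo, fo' := F.fo', g := fun o => p (F.g o),
            gw := ?_, gy := ?_, c := fun o => (F.c o).comp i, cw := ?_, cy := ?_,
            h := fun o => p (F.h o), hw := ?_, d := fun o => (F.d o).comp i, dw := ?_,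
            fr := ?_ }⟩
  · intro w o
    rw [F.gw, wrp_hom G.om hp]
  · intro o
    rw [← hp.1, F.gy, map_smul, hp.2]
  · intro w o n
    change F.c (w • o) (i (wrp G.om B' w n)) = F.c o (i n)
    rw [wrp_hom G.om hi, F.cw]
  · intro o n
    change F.c o (i (B'.lm G.y n)) = χ (F.deg o) * F.c o (i (B'.rm (op G.y) n))
    rw [hi.1, hi.2, F.cy]
  · intro w o
    rw [F.hw, wrp_hom G.om hp]
  · intro w o n
    change F.d (w • o) (i (wrp G.om B' w n)) = F.d o (i n)
    rw [wrp_hom G.om hi, F.dw]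
  · intro n
    have h1 := congrArg p (F.fr (i n))
    simp only [map_add, map_sum, map_smul, hp.1, hp.2] at h1
    simp only [LinearMap.comp_apply, hi.1, hi.2]
    exact h1

theorem fra (hGFR : GfrStmt) (hFRT : FrtStmt) (hFRS : FrsStmt) : FraStmt := by
  intro R F Γ Γ0 W A A1 X M M0 Ω Ω' _ _ c _ _ _ _ _ _ _ _ _ _ _ _ _ _ _ _ _ _ _ l G χ f
    BX B0 sp0 FX df hl
  obtain ⟨Ω2, Ω2', _, _, _, _, ⟨F2⟩⟩ := hGFR R Γ W X l G χ hl
  have h1 : BHom (AB df.sp.j) (regB R Γ) df.sp.pr :=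
    ⟨fun γ x => df.sp.pr_l γ x, fun γ x => df.sp.pr_r x γ.unop⟩
  have h2 : BHom (regB R Γ) (AB df.sp.j) df.sp.j.toLinearMap :=
    ⟨fun γ x => map_mul df.sp.j γ x, fun γ x => map_mul df.sp.j x γ.unop⟩
  have h3 : BHom (AB df.sp.j) BX df.sp.i :=
    ⟨fun γ x => df.sp.i1 γ x, fun γ x => df.sp.i2 γ.unop x⟩
  have h4 : BHom BX (AB df.sp.j) df.sp.p :=
    ⟨fun γ x => df.sp.p1 γ x, fun γ x => df.sp.p2 γ.unop x⟩
  obtain ⟨G1⟩ := hFRT R Γ W Γ A1 X Ω2 Ω2' l G χ (regB R Γ) (AB df.sp.j) LinearMap.id F2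
    df.sp.pr df.sp.j.toLinearMap h1 h2
  obtain ⟨G2⟩ := hFRT R Γ W M A1 X Ω Ω' l G χ BX (AB df.sp.j) LinearMap.id FX
    df.sp.i df.sp.p h3 h4
  obtain ⟨Ω1, Ω1', i1, i2, i3, i4, ⟨G3⟩⟩ := hFRS R Γ W A1 X Ω2 Ω2' Ω Ω' l G χ (AB df.sp.j) _ _ G1 G2
  have h5 : df.sp.j.toLinearMap ∘ₗ LinearMap.id ∘ₗ df.sp.pr + df.sp.p ∘ₗ LinearMap.id ∘ₗ df.sp.i =
      (LinearMap.id : A1 →ₗ[R] A1) := by
    ext x
    change df.sp.j (df.sp.pr x) + df.sp.p (df.sp.i x) = x
    rw [df.sp.ip]
    exact add_sub_cancel _ _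
  rw [h5] at G3
  let ly : LY A1 Ω1 Ω1' G χ f sp0.j sp0.pr :=
    { fb := df.fb
      j := df.sp.j
      pr := df.sp.pr
      pr_j := df.sp.pr_j
      pr_l := df.sp.pr_l
      pr_r := df.sp.pr_r
      cj := df.cj
      cp := df.cp
      fr := G3 }
  exact ⟨Ω1, Ω1', i1, i2, i3, i4, ⟨ly⟩⟩

end Pool.Agent.PFE.H28
end
end -- Pool.Agent.Helper28_PFE.FRA

section -- Pool.Agent.Helper29_PFE.LSC

/-!
# Squad PFE, row LSC: a graded linear section with `1 ↦ 1` (helper29)
-/

open scoped BigOperators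

noncomputable section

namespace Pool.Agent.PFE.H29

open Pool.Agent.PFE

/-- a linear map has a section on its range -/
theorem exists_sec {K N S : Type} [Field K] [AddCommGroup N] [Module K N] [AddCommGroup S]
    [Module K S] (p : N →ₗ[K] S) : ∃ g : S →ₗ[K] N, ∀ a, p (g (p a)) = p a := by
  obtain ⟨g0, hg0⟩ := p.rangeRestrict.exists_rightInverse_of_surjective
    (LinearMap.range_eq_top.2 p.surjective_rangeRestrict)
  obtain ⟨g, hg⟩ := g0.exists_extend
  refine ⟨g, fun a => ?_⟩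
  have h1 : g (p a) = g0 (p.rangeRestrict a) := by
    rw [← hg]
    rfl
  have h2 := LinearMap.congr_fun hg0 (p.rangeRestrict a)
  rw [h1]
  exact congrArg Subtype.val h2

/-- LSC. -/
theorem lsc : LscStmt := by
  classical
  intro K A X S _ _ _ _ _ _ _ y l χ L _ _ _ hM
  by_cases h10 : (1 : S) = 0
  · have hS : Subsingleton S := subsingleton_of_zero_eq_one h10.symm
    have h1J : (1 : A) ∈ Jx y l χ 1 := (L.ker 1 ⟨1, Nx_one y χ⟩).1 (Subsingleton.elim _ _)
    obtain ⟨M, hM⟩ := hM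
    have h1M : (1 : A) ∈ JP y l χ M := by
      refine Submodule.subset_span ⟨fun _ => 1, fun _ => ⟨1, h1J⟩, ?_⟩
      simp
    rw [hM, Submodule.mem_bot] at h1M
    exact ⟨0, by rw [LinearMap.zero_apply, h1M], fun x s => Submodule.zero_mem _,
      fun x s => Subsingleton.elim _ _⟩
  · choose g hg using fun x => exists_sec (L.p x)
    -- the sections in every degree
    have hgc : ∀ x s, L.p x (g x (L.c x s)) = L.c x s := by
      intro x s
      obtain ⟨a, ha⟩ := L.ps x s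
      rw [← ha, hg]
    obtain ⟨φ, hφ⟩ := Module.Projective.exists_dual_eq_one K h10
    -- the sections, with the correction in degree `1`
    let τ : X → (S →ₗ[K] A) := fun x =>
      (Nx y χ x).subtype ∘ₗ g x ∘ₗ L.c x +
        if x = 1 then (φ ∘ₗ L.c 1).smulRight (1 - (g 1 (L.c 1 1) : A)) else 0
    have hτ1 : ∀ s, τ 1 s = (g 1 (L.c 1 s) : A) + φ (L.c 1 s) • (1 - (g 1 (L.c 1 1) : A)) := by
      intro s
      change ((g 1 (L.c 1 s) : A) + (if (1 : X) = 1 then
        (φ ∘ₗ L.c 1).smulRight (1 - (g 1 (L.c 1 1) : A)) else 0) s) = _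
      rw [if_pos rfl]
      rfl
    have hτx : ∀ x s, x ≠ 1 → τ x s = (g x (L.c x s) : A) := by
      intro x s hx
      change ((g x (L.c x s) : A) + (if x = 1 then
        (φ ∘ₗ L.c 1).smulRight (1 - (g 1 (L.c 1 1) : A)) else 0) s) = _
      rw [if_neg hx, LinearMap.zero_apply, add_zero]
    have hτc : ∀ x x' s, x' ≠ x → τ x' (L.c x s) = 0 := by
      intro x x' s hx
      by_cases h : x' = 1
      · subst h
        rw [hτ1, L.co _ _ _ hx, map_zero, map_zero, zero_smul, add_zero]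
        rfl
      · rw [hτx _ _ h, L.co _ _ _ hx, map_zero]
        rfl
    have hτm : ∀ x s, ∃ h : τ x s ∈ Nx y χ x, L.p x ⟨τ x s, h⟩ = L.c x s := by
      intro x s
      by_cases h : x = 1
      · subst h
        have h1 : τ 1 s = ((g 1 (L.c 1 s) + φ (L.c 1 s) •
            ((⟨1, Nx_one y χ⟩ : Nx y χ 1) - g 1 (L.c 1 1)) : Nx y χ 1) : A) := by
          rw [hτ1]
          rfl
        have h2 : τ 1 s ∈ Nx y χ 1 := by
          rw [h1]
          exact Subtype.property _
        refine ⟨h2, ?_⟩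
        have h3 : (⟨τ 1 s, h2⟩ : Nx y χ 1) = g 1 (L.c 1 s) + φ (L.c 1 s) •
            ((⟨1, Nx_one y χ⟩ : Nx y χ 1) - g 1 (L.c 1 1)) := Subtype.ext h1
        rw [h3, map_add, map_smul, map_sub, hgc, hgc, L.one, L.c1, sub_self, smul_zero, add_zero]
      · have h2 : τ x s ∈ Nx y χ x := by
          rw [hτx _ _ h]
          exact Subtype.property _
        refine ⟨h2, ?_⟩
        have h3 : (⟨τ x s, h2⟩ : Nx y χ x) = g x (L.c x s) := Subtype.ext (hτx _ _ h)
        rw [h3, hgc]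
    have hρ : ∀ x s, (∑ x', τ x') (L.c x s) = τ x (L.c x s) := by
      intro x s
      rw [LinearMap.sum_apply, Finset.sum_eq_single x]
      · intro x' _ hx'
        exact hτc x x' s hx'
      · intro h
        exact absurd (Finset.mem_univ _) h
    refine ⟨∑ x, τ x, ?_, fun x s => ?_, fun x s => ?_⟩
    · have h1 := hρ 1 1
      rw [L.c1] at h1
      rw [h1, hτ1, L.c1, hφ, one_smul, add_sub_cancel]
    · rw [hρ]
      exact (hτm x (L.c x s)).1
    · obtain ⟨h1, h2⟩ := hτm x (L.c x s)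
      rw [L.ci] at h2
      refine Eq.trans ?_ h2
      exact congrArg (L.p x) (Subtype.ext (hρ x s))

end Pool.Agent.PFE.H29
end
end -- Pool.Agent.Helper29_PFE.LSC

section -- Pool.Agent.Helper2_PFE.GEX

/-!
# Squad PFE, row GEX

The algebra `Γ = R[y]/y^l ⊗ R W` over `R`, with its special fibre: `Γ = S[X]/(X^l)`, `S = R W`.
-/

open scoped BigOperators

noncomputable section

namespace Pool.Agent.PFE.H2

open Pool.Agent.PFE Pool.Agent.PFD.D2

/-- `GY` from a basis -/
def gexG {R Γ W : Type} [CommRing R] [CommRing Γ] [Algebra R Γ] [CommGroup W] [Fintype W] {l : ℕ}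
    (om : W →* Γ) (y : Γ) (yl : y ^ l = 0) (b : Module.Basis (W × Fin l) R Γ)
    (hb : ∀ (w : W) (i : Fin l), b (w, i) = y ^ (i : ℕ) * om w) : GY R Γ W l where
  om := om
  y := y
  yl := yl
  co := fun k w => if h : k < l then b.coord (w, ⟨k, h⟩) else 0
  ex := by
    intro γ
    rw [Finset.sum_range]
    have h1 : ∑ i : Fin l, ∑ w, (if h : (i : ℕ) < l then b.coord (w, ⟨i, h⟩) else 0) γ •
        (y ^ (i : ℕ) * om w) = ∑ i : Fin l, ∑ w, b.repr γ (w, i) • b (w, i) := by
      refine Finset.sum_congr rfl ?_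
      intro i _
      refine Finset.sum_congr rfl ?_
      intro w _
      rw [dif_pos i.2, hb]
      rfl
    rw [h1, ← Fintype.sum_prod_type_right (f := fun p : W × Fin l => b.repr γ p • b p)]
    exact b.sum_repr γ
  un := by
    intro a k w hk
    have h1 : ∑ k ∈ Finset.range l, ∑ w, a k w • (y ^ k * om w) =
        ∑ p : W × Fin l, a p.2 p.1 • b p := by
      rw [Finset.sum_range, Fintype.sum_prod_type_right]
      refine Finset.sum_congr rfl ?_
      intro i _
      refine Finset.sum_congr rfl ?_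
      intro w _
      rw [hb]
    rw [h1, dif_pos hk]
    have h2 := b.repr_sum_self (fun p : W × Fin l => a p.2 p.1)
    exact congrFun h2 (w, ⟨k, hk⟩)

theorem gex_ring (R W : Type) [CommRing R] [Nontrivial R] [CommGroup W] [Fintype W] (l : ℕ) :
    ∃ (Γ : Type) (_ : CommRing Γ) (_ : Algebra R Γ) (_ : Module.Finite R Γ) (_ : Module.Free R Γ),
      Nonempty (GY R Γ W l) := by
  classical
  let S : Type := MonoidAlgebra R W
  let g : Polynomial (MonoidAlgebra R W) := Polynomial.X ^ l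
  have hg : g.Monic := Polynomial.monic_X_pow l
  have hdim : (AdjoinRoot.powerBasis' hg).dim = l := by
    rw [AdjoinRoot.powerBasis'_dim]
    exact Polynomial.natDegree_X_pow l
  let e : MonoidAlgebra R W ≃ₗ[R] (W →₀ R) :=
    { toFun := MonoidAlgebra.coeff
      invFun := MonoidAlgebra.ofCoeff
      left_inv := fun _ => rfl
      right_inv := fun _ => rfl
      map_add' := fun _ _ => rfl
      map_smul' := fun _ _ => rfl }
  let bs : Module.Basis W R (MonoidAlgebra R W) := Module.Basis.ofRepr e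
  let b0 := bs.smulTower (AdjoinRoot.powerBasis' hg).basis
  let b : Module.Basis (W × Fin l) R (AdjoinRoot g) :=
    b0.reindex (Equiv.prodCongr (Equiv.refl W) (finCongr hdim))
  refine ⟨AdjoinRoot g, inferInstance, inferInstance, Module.Finite.of_basis b,
    Module.Free.of_basis b, ⟨gexG ((algebraMap (MonoidAlgebra R W) (AdjoinRoot g)).toMonoidHom.comp
      (MonoidAlgebra.of R W)) (AdjoinRoot.root g) ?_ b ?_⟩⟩
  · have h1 : AdjoinRoot.mk g g = 0 := AdjoinRoot.mk_self
    have h2 : AdjoinRoot.mk g (Polynomial.X ^ l) = AdjoinRoot.root g ^ l := by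
      rw [map_pow, AdjoinRoot.mk_X]
    rw [← h2]
    exact h1
  · intro w i
    have h1 : b (w, i) = b0 (w, (finCongr hdim).symm i) := by
      rw [Module.Basis.reindex_apply]
      rfl
    have h2 : bs w = MonoidAlgebra.of R W w := rfl
    rw [h1, Module.Basis.smulTower_apply, h2, PowerBasis.basis_eq_pow, Algebra.smul_def, mul_comm]
    rfl

theorem gex (gup : GupStmt) : GexStmt := by
  classical
  intro R F Γ0 W _ _ c _ _ _ _ l G0 hl
  have hnt : Nontrivial R := c.κ.domain_nontrivial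
  obtain ⟨Γ, i1, i2, i3, i4, ⟨G⟩⟩ := gex_ring R W l
  letI ia : Algebra R Γ0 := RingHom.toAlgebra ((algebraMap F Γ0).comp c.κ)
  have hsm : ∀ (r : R) (x : Γ0), r • x = c.κ r • x := by
    intro r x
    rw [Algebra.smul_def, Algebra.smul_def]
    rfl
  obtain ⟨ρ, hρy, hρw⟩ := gup R Γ W Γ0 l G G0.y G0.om hl G0.yl (fun w => mul_comm _ _)
  have key : ∀ a : ℕ → W → R, ρ (∑ k ∈ Finset.range l, ∑ w, a k w • (G.y ^ k * G.om w)) =
      ∑ k ∈ Finset.range l, ∑ w, c.κ (a k w) • (G0.y ^ k * G0.om w) := by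
    intro a
    rw [map_sum]
    refine Finset.sum_congr rfl ?_
    intro k _
    rw [map_sum]
    refine Finset.sum_congr rfl ?_
    intro w _
    rw [map_smul, map_mul, map_pow, hρy, hρw, hsm]
  refine ⟨Γ, i1, i2, i3, i4, G, ⟨ρ.toRingHom, ?_, ?_, ?_⟩, hρy, hρw⟩
  · intro r
    exact ρ.commutes r
  · intro x
    choose s hs using c.surj
    refine ⟨∑ k ∈ Finset.range l, ∑ w, s (G0.co k w x) • (G.y ^ k * G.om w), ?_⟩
    have h1 := key (fun k w => s (G0.co k w x))
    refine Eq.trans h1 ?_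
    have h2 : ∀ (k : ℕ) (w : W), c.κ (s (G0.co k w x)) = G0.co k w x := fun k w => hs _
    simp only [h2]
    exact G0.ex x
  · intro γ hγ
    have h0 : ρ γ = 0 := hγ
    have h1 := key (fun k w => G.co k w γ)
    have h2 : ∑ k ∈ Finset.range l, ∑ w, G.co k w γ • (G.y ^ k * G.om w) = γ := G.ex γ
    rw [h2, h0] at h1
    have h3 : ∀ (k : ℕ) (w : W), k < l → c.κ (G.co k w γ) = 0 := by
      intro k w hk
      have h4 := G0.un (fun k w => c.κ (G.co k w γ)) k w hk
      rw [← h1, map_zero] at h4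
      exact h4.symm
    have h5 : ∀ (k : ℕ) (w : W), ∃ s : R, k < l → G.co k w γ = c.π * s := by
      intro k w
      by_cases hk : k < l
      · obtain ⟨s, hs⟩ := (c.ker _).1 (h3 k w hk)
        exact ⟨s, fun _ => hs⟩
      · exact ⟨0, fun h => absurd h hk⟩
    choose s hs using h5
    refine ⟨∑ k ∈ Finset.range l, ∑ w, s k w • (G.y ^ k * G.om w), ?_⟩
    refine Eq.trans h2.symm ?_
    rw [Finset.smul_sum]
    refine Finset.sum_congr rfl ?_
    intro k hk
    rw [Finset.smul_sum]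
    refine Finset.sum_congr rfl ?_
    intro w _
    rw [hs k w (Finset.mem_range.1 hk), mul_smul]

end Pool.Agent.PFE.H2
end
end -- Pool.Agent.Helper2_PFE.GEX

section -- Pool.Agent.Helper32_PFE.NWS

/-!
Squad PFE, row NWS (helper32): the Newton step for algebra homomorphisms.
-/

set_option autoImplicit false

open scoped BigOperators

noncomputable section

namespace Pool.Agent.PFE.H32

open Pool.Agent.PFE

theorem nws : NwsStmt := by
  intro K A S κ _ _ _ _ _ _ u v P Q ρ huv hB hρ1 hDP hρP hPQ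
  -- the correction term
  let θ : S →ₗ[K] A := ∑ k, (LinearMap.mulLeft K (ρ (u k))) ∘ₗ
    (ρ ∘ₗ LinearMap.mulLeft K (v k) - (LinearMap.mulLeft K (ρ (v k))) ∘ₗ ρ)
  have hθ : ∀ a, θ a = ∑ k, ρ (u k) * (ρ (v k * a) - ρ (v k) * ρ a) := by
    intro a
    simp [θ, LinearMap.sum_apply]
  have hψ : ∀ a, (ρ + θ) a = ρ a + θ a := fun a => LinearMap.add_apply _ _ _
  refine ⟨ρ + θ, fun a => by rw [hψ, hθ], ?_, ?_⟩
  · rw [hψ, hθ, hρ1]
    simp
  intro a b
  have hθP : ∀ c, θ c ∈ P := by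
    intro c
    rw [hθ]
    exact P.sum_mem fun k _ => hρP _ _ (hDP _ _)
  -- the bilinear map
  let Bm : S →ₗ[K] S →ₗ[K] A := LinearMap.mk₂ K (fun s t => ρ s * (ρ (t * b) - ρ t * ρ b))
    (fun s s' t => by simp only [map_add, add_mul])
    (fun c s t => by simp only [map_smul, smul_mul_assoc])
    (fun s t t' => by simp only [map_add, add_mul]; noncomm_ring)
    (fun c s t => by
      simp only [map_smul, smul_mul_assoc, mul_sub, mul_smul_comm, smul_sub])
  have hBm : ∀ s t, Bm s t = ρ s * (ρ (t * b) - ρ t * ρ b) := fun s t => rfl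
  have h1 : ∑ k, ρ (u k) * (ρ (v k * a * b) - ρ (v k * a) * ρ b) =
      ρ a * θ b + ∑ k, (ρ (a * u k) - ρ a * ρ (u k)) * (ρ (v k * b) - ρ (v k) * ρ b) := by
    have h2 := hB Bm a
    simp only [hBm] at h2
    rw [h2, hθ, Finset.mul_sum, ← Finset.sum_add_distrib]
    refine Finset.sum_congr rfl fun k _ => ?_
    noncomm_ring
  have h2 : ∑ k, ρ (u k) * ρ (v k) = 1 - ∑ k, (ρ (u k * v k) - ρ (u k) * ρ (v k)) := by
    rw [Finset.sum_sub_distrib, ← map_sum, huv, hρ1]
    abel
  have h3 : θ (a * b) - θ a * ρ b =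
      ∑ k, ρ (u k) * (ρ (v k * a * b) - ρ (v k * a) * ρ b) -
        (∑ k, ρ (u k) * ρ (v k)) * (ρ (a * b) - ρ a * ρ b) := by
    rw [hθ, hθ, Finset.sum_mul, Finset.sum_mul, ← Finset.sum_sub_distrib,
      ← Finset.sum_sub_distrib]
    refine Finset.sum_congr rfl fun k _ => ?_
    rw [mul_assoc (v k) a b]
    noncomm_ring
  have key : (ρ + θ) (a * b) - (ρ + θ) a * (ρ + θ) b =
      ∑ k, (ρ (a * u k) - ρ a * ρ (u k)) * (ρ (v k * b) - ρ (v k) * ρ b) +
        ∑ k, (ρ (u k * v k) - ρ (u k) * ρ (v k)) * (ρ (a * b) - ρ a * ρ b) - θ a * θ b := by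
    rw [← Finset.sum_mul]
    have h4 : (ρ + θ) (a * b) - (ρ + θ) a * (ρ + θ) b =
        (ρ (a * b) - ρ a * ρ b) + (θ (a * b) - θ a * ρ b) - ρ a * θ b - θ a * θ b := by
      rw [hψ, hψ, hψ]
      noncomm_ring
    rw [h4, h3, h1, h2]
    noncomm_ring
  rw [key]
  refine Q.sub_mem (Q.add_mem (Q.sum_mem fun k _ => ?_) (Q.sum_mem fun k _ => ?_)) ?_
  · exact hPQ _ _ (hDP _ _) (hDP _ _)
  · exact hPQ _ _ (hDP _ _) (hDP _ _)
  · exact hPQ _ _ (hθP _) (hθP _)

end Pool.Agent.PFE.H32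
end
end -- Pool.Agent.Helper32_PFE.NWS

section -- Pool.Agent.Helper32_PFE.TSV

/-!
# Squad PFE, row TSV (helper32): representatives of the orbits of a free action
-/

set_option autoImplicit false

open scoped BigOperators

noncomputable section

namespace Pool.Agent.PFE.H32

/-- the orbits of the right action -/
def ro (Ω W : Type) [CommGroup W] [MulAction (W × W) Ω] : Setoid Ω where
  r := fun a b => ∃ w : W, ((1, w) : W × W) • a = b
  iseqv := by
    refine ⟨fun a => ⟨1, one_smul _ a⟩, ?_, ?_⟩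
    · rintro a b ⟨w, rfl⟩
      refine ⟨w⁻¹, ?_⟩
      rw [smul_smul, Prod.mk_mul_mk, one_mul, inv_mul_cancel]
      exact one_smul _ a
    · rintro a b c ⟨w, rfl⟩ ⟨v, rfl⟩
      refine ⟨v * w, ?_⟩
      rw [smul_smul, Prod.mk_mul_mk, one_mul]

/-- TSV -/
theorem tsv : TsvStmt := by
  intro Ω W _ _ _ _ hfree
  classical
  refine ⟨Finset.univ.filter fun o => (Quotient.mk (ro Ω W) o).out = o, ?_⟩
  intro M _ H
  rw [← Finset.sum_product (f := fun p : Ω × W => H (((1, p.2) : W × W) • p.1))]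
  symm
  refine Finset.sum_bij (fun p _ => ((1, p.2) : W × W) • p.1) (fun _ _ => Finset.mem_univ _)
    ?_ ?_ (fun _ _ => rfl)
  · rintro ⟨t, w⟩ ht ⟨t', w'⟩ ht' h
    change ((1, w) : W × W) • t = ((1, w') : W × W) • t' at h
    have h1 := (Finset.mem_filter.1 (Finset.mem_product.1 ht).1).2
    have h1' := (Finset.mem_filter.1 (Finset.mem_product.1 ht').1).2
    change (Quotient.mk (ro Ω W) t).out = t at h1
    change (Quotient.mk (ro Ω W) t').out = t' at h1'
    have h2 : ((1, w'⁻¹ * w) : W × W) • t = t' := by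
      have h3 : ((1, w'⁻¹ * w) : W × W) = (1, w'⁻¹) * (1, w) := by
        rw [Prod.mk_mul_mk, one_mul]
      rw [h3, ← smul_smul, h, smul_smul, Prod.mk_mul_mk, one_mul, inv_mul_cancel]
      exact one_smul _ t'
    have h4 : Quotient.mk (ro Ω W) t = Quotient.mk (ro Ω W) t' := Quotient.sound ⟨_, h2⟩
    have h5 : t = t' := by rw [← h1, h4, h1']
    subst h5
    have h6 := hfree _ _ h2
    rw [inv_mul_eq_one.1 h6]
  · intro o _
    have h1 : (Quotient.mk (ro Ω W) (Quotient.mk (ro Ω W) o).out) = Quotient.mk (ro Ω W) o :=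
      Quotient.out_eq _
    obtain ⟨w, hw⟩ : ∃ w : W, ((1, w) : W × W) • (Quotient.mk (ro Ω W) o).out = o :=
      Quotient.exact h1
    refine ⟨((Quotient.mk (ro Ω W) o).out, w), ?_, hw⟩
    rw [Finset.mem_product]
    refine ⟨Finset.mem_filter.2 ⟨Finset.mem_univ _, ?_⟩, Finset.mem_univ _⟩
    change (Quotient.mk (ro Ω W) (Quotient.mk (ro Ω W) o).out).out =
      (Quotient.mk (ro Ω W) o).out
    rw [h1]

end Pool.Agent.PFE.H32
end
end -- Pool.Agent.Helper32_PFE.TSV

section -- Pool.Agent.Helper33_PFE.TXA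

/-!
Squad PFE, row TXA (helper33): `Tx` is linear, and `Jx` is an ideal.
-/

open scoped BigOperators

noncomputable section

namespace Pool.Agent.PFE.H33

section

variable {R A X : Type} [CommRing R] [Ring A] [Algebra R A] [Group X]

lemma tx_add (y : A) (l : ℕ) (c : R) (a b : A) :
    Tx y l c (a + b) = Tx y l c a + Tx y l c b := by
  unfold Tx
  rw [← Finset.sum_add_distrib]
  refine Finset.sum_congr rfl fun j _ => ?_
  rw [mul_add, add_mul, smul_add]

lemma tx_smul (y : A) (l : ℕ) (c r : R) (a : A) :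
    Tx y l c (r • a) = r • Tx y l c a := by
  unfold Tx
  rw [Finset.smul_sum]
  refine Finset.sum_congr rfl fun j _ => ?_
  rw [mul_smul_comm, smul_mul_assoc, smul_comm]

lemma mem_jx (y : A) (l : ℕ) (χ : X →* R) (x : X) (b : A) :
    b ∈ Jx y l χ x ↔ ∃ a, ∃ n ∈ Nx y χ x, b = Tx y l (χ x) a + y * n := by
  constructor
  · intro hb
    unfold Jx at hb
    induction hb using Submodule.span_induction with
    | mem b hb =>
      rcases hb with ⟨a, rfl⟩ | ⟨n, hn, rfl⟩
      · exact ⟨a, 0, Submodule.zero_mem _, by rw [mul_zero, add_zero]⟩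
      · refine ⟨0, n, hn, ?_⟩
        have h0 := tx_smul y l (χ x) 0 (0 : A)
        rw [zero_smul, zero_smul] at h0
        rw [h0, zero_add]
    | zero =>
      refine ⟨0, 0, Submodule.zero_mem _, ?_⟩
      have h0 := tx_smul y l (χ x) 0 (0 : A)
      rw [zero_smul, zero_smul] at h0
      rw [h0, mul_zero, add_zero]
    | add b b' _ _ h h' =>
      obtain ⟨a, n, hn, rfl⟩ := h
      obtain ⟨a', n', hn', rfl⟩ := h'
      refine ⟨a + a', n + n', Submodule.add_mem _ hn hn', ?_⟩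
      rw [tx_add, mul_add]
      abel
    | smul r b _ h =>
      obtain ⟨a, n, hn, rfl⟩ := h
      refine ⟨r • a, r • n, Submodule.smul_mem _ _ hn, ?_⟩
      rw [tx_smul, mul_smul_comm, smul_add]
  · rintro ⟨a, n, hn, rfl⟩
    exact Submodule.add_mem _ (Submodule.subset_span (Or.inl ⟨a, rfl⟩))
      (Submodule.subset_span (Or.inr ⟨n, hn, rfl⟩))

lemma mul_nx {y : A} {χ : X →* R} {x x' : X} {a b : A} (ha : a ∈ Nx y χ x)
    (hb : b ∈ Nx y χ x') : a * b ∈ Nx y χ (x * x') := by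
  have ha' : y * a = χ x • (a * y) := ha
  have hb' : y * b = χ x' • (b * y) := hb
  show y * (a * b) = χ (x * x') • (a * b * y)
  rw [← mul_assoc, ha', smul_mul_assoc, mul_assoc a y b, hb', mul_smul_comm, smul_smul, ← map_mul,
    mul_assoc]

lemma nx_y {y : A} {χ : X →* R} {x : X} {n : A} (hn : n ∈ Nx y χ x) :
    n * y = χ x⁻¹ • (y * n) := by
  have h : y * n = χ x • (n * y) := hn
  rw [h, smul_smul, ← map_mul, inv_mul_cancel, map_one, one_smul]

end

theorem txa (txr : TxrStmt) : TxaStmt := by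
  intro R A X _ _ _ _ y l χ hl hy hχ
  obtain ⟨t1, t2, t3, -, t5, -, -⟩ := txr R A X y l χ hl hy hχ
  refine ⟨fun c a b => tx_add y l c a b, fun c r a => tx_smul y l c r a,
    fun x b => mem_jx y l χ x b, fun x b hb => ?_, fun x x' n b hn hb => ?_⟩
  · obtain ⟨a, n, hn, rfl⟩ := (mem_jx y l χ x b).1 hb
    exact Submodule.add_mem _ (t1 x a) (t5 x n hn).1
  · obtain ⟨a, n', hn', rfl⟩ := (mem_jx y l χ x' b).1 hb
    constructor
    · refine (mem_jx y l χ (x * x') _).2 ⟨n * a, χ x⁻¹ • (n * n'),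
        Submodule.smul_mem _ _ (mul_nx hn hn'), ?_⟩
      rw [mul_add, t2 x x' n a hn, ← mul_assoc n y n', nx_y hn, smul_mul_assoc, mul_smul_comm,
        mul_assoc]
    · refine (mem_jx y l χ (x' * x) _).2 ⟨a * n, n' * n, mul_nx hn' hn, ?_⟩
      rw [add_mul, t3 x x' n a hn, mul_assoc]

end Pool.Agent.PFE.H33
end
end -- Pool.Agent.Helper33_PFE.TXA

section -- Pool.Agent.Helper39_PFE.CLY

/-!
# Row CLY of squad PFE: the centraliser of `Γ0` lifts (helper39)
-/

open scoped BigOperators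

noncomputable section

namespace Pool.Agent.PFE.H39

open MulOpposite
open Pool.Agent.PFE
open Pool.Agent.PFC.B1 (FS Split BiM Sep)
open Pool.Agent.PFD (RF)
open Pool.Agent.PFD.D2
open Pool.Agent.PFD.D2b (wrp FPl FrR WFS)

theorem q_pi {R F A1 A : Type} [CommRing R] [Field F] {c : Cdv R F} [Ring A1] [Algebra R A1]
    [Ring A] [Algebra F A] (fb : FibG A1 A c) (m : A1) : fb.q (c.π • m) = 0 := by
  have h : c.κ c.π = 0 := (c.ker c.π).2 ⟨1, (mul_one _).symm⟩
  rw [Algebra.smul_def, map_mul, fb.sc, h, map_zero, zero_mul]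

theorem wrp_AB {R Γ W A1 : Type} [CommRing R] [CommRing Γ] [Algebra R Γ] [CommGroup W] [Fintype W]
    [Ring A1] [Algebra R A1] (om : W →* Γ) (j : Γ →ₐ[R] A1) (w : W × W) (a : A1) :
    wrp om (AB j) w a = j (om w.1) * (a * j (om w.2⁻¹)) := rfl

theorem cly (hYfp : YfpStmt) (hKex : KexStmt) : ClyStmt := by
  intro R F Γ Γ0 W A A1 X Ω Ω' _ _ c _ _ _ _ _ _ _ _ _ _ _ _ _ _ _ l G f χ j0 pr0 ly hl hχ hu x0 hx0
  obtain ⟨a1, ha1⟩ := ly.fb.surj x0
  have hcom : ∀ γ, ∃ y, ly.j γ * a1 - a1 * ly.j γ = c.π • y := by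
    intro γ
    apply ly.fb.ker
    rw [map_sub, map_mul, map_mul, ly.cj, ha1, hx0, sub_self]
  -- the diagonal
  obtain ⟨a2, h2, x2, hx2⟩ := hYfp R Γ W A1 X Ω Ω' l G χ (AB ly.j) ly.fr c.π
    ((MonoidHom.id W).prod (MonoidHom.id W)).range a1 (by
      rintro s ⟨w, rfl⟩
      obtain ⟨y, hy⟩ := hcom (G.om w)
      refine ⟨y * ly.j (G.om w⁻¹), ?_⟩
      have h1 : ly.j (G.om w) * ly.j (G.om w⁻¹) = 1 := by
        rw [← map_mul, ← map_mul, mul_inv_cancel, map_one, map_one]
      have h3 : wrp G.om (AB ly.j) ((MonoidHom.id W).prod (MonoidHom.id W) w) a1 =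
          ly.j (G.om w) * (a1 * ly.j (G.om w⁻¹)) := rfl
      rw [h3]
      calc ly.j (G.om w) * (a1 * ly.j (G.om w⁻¹)) - a1
          = (ly.j (G.om w) * a1 - a1 * ly.j (G.om w)) * ly.j (G.om w⁻¹) := by
            rw [sub_mul, mul_assoc a1, h1, mul_one, mul_assoc]
        _ = c.π • (y * ly.j (G.om w⁻¹)) := by rw [hy, smul_mul_assoc])
  obtain ⟨κ, hκ1, hκ2, hκ3⟩ := hKex R Γ W A1 X Ω Ω' l G χ (AB ly.j) ly.fr hl hχ hu 1
  obtain ⟨m, hm⟩ := hκ3 c.π a2 (by
    obtain ⟨y, hy⟩ := hcom G.y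
    refine ⟨y + (ly.j G.y * x2 - x2 * ly.j G.y), ?_⟩
    have e1 : (AB ly.j).lm G.y a2 = ly.j G.y * a2 := rfl
    have e2 : (AB ly.j).rm (op G.y) a2 = a2 * ly.j G.y := rfl
    have e3 : a2 = a1 + c.π • x2 := by rw [← hx2]; abel
    rw [e1, e2, map_one, one_smul, e3, smul_add, ← hy, mul_add, add_mul, smul_sub,
      mul_smul_comm, smul_mul_assoc]
    abel)
  have hy' : ly.j G.y * κ a2 = κ a2 * ly.j G.y := by
    have := hκ2 a2
    rw [map_one, one_smul] at this
    exact this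
  have hw' : ∀ w, ly.j (G.om w) * κ a2 = κ a2 * ly.j (G.om w) := by
    intro w
    have h4 := hκ1 (w, w) a2
    rw [h2 (w, w) ⟨w, rfl⟩, wrp_AB] at h4
    have h1 : ly.j (G.om w⁻¹) * ly.j (G.om w) = 1 := by
      rw [← map_mul, ← map_mul, inv_mul_cancel, map_one, map_one]
    calc ly.j (G.om w) * κ a2 = ly.j (G.om w) * (κ a2 * ly.j (G.om w⁻¹)) * ly.j (G.om w) := by
          rw [mul_assoc, mul_assoc, h1, mul_one]
      _ = κ a2 * ly.j (G.om w) := by rw [← h4]
  refine ⟨κ a2, ?_, ?_⟩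
  · intro γ
    have hk : ∀ (k : ℕ) (w : W), Commute (ly.j (G.y ^ k * G.om w)) (κ a2) := by
      intro k w
      rw [map_mul, map_pow]
      exact Commute.mul_left (Commute.pow_left hy' k) (hw' w)
    have : Commute (ly.j γ) (κ a2) := by
      rw [← G.ex γ, map_sum]
      apply Commute.sum_left
      intro k _
      rw [map_sum]
      apply Commute.sum_left
      intro w _
      rw [map_smul]
      exact (hk k w).smul_left _
    exact this
  · have e3 : κ a2 = a1 + c.π • x2 + c.π • m := by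
      rw [← hx2, ← hm]; abel
    rw [e3, map_add, map_add, q_pi, q_pi, add_zero, add_zero, ha1]

end Pool.Agent.PFE.H39
end
end -- Pool.Agent.Helper39_PFE.CLY

section -- Pool.Agent.Helper46_PFE.RTW

/-!
# Squad PFE, row RTW (helper46): the relative trace of `1` from `R[y]` is divisible by `|W|`
-/

open scoped BigOperators TensorProduct

noncomputable section

namespace Pool.Agent.PFE.H46

open Pool.Agent.PFD Pool.Agent.PFD.D2 Pool.Agent.PFD.D2b
open MulOpposite

section

variable {R F Γ Γ0 W A A1 X N J Ω Ω' Ω1 Ω1' : Type} [CommRing R] [Field F] {c : Cdv R F}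
    [CommRing Γ] [Algebra R Γ] [CommRing Γ0] [Algebra F Γ0] [CommGroup W] [Fintype W] [Ring A]
    [Algebra F A] [Ring A1] [Algebra R A1] [Group X] [Fintype N] [Fintype J] [Fintype Ω]
    [Fintype Ω'] [MulAction (W × W) Ω] [MulAction (W × W) Ω'] [Fintype Ω1] [Fintype Ω1']
    {l : ℕ} {G : GY R Γ W l} {f : FibG Γ Γ0 c}
    {χ : X →* R} {j0 : Γ0 →ₐ[F] A} {pr0 : A →ₗ[F] Γ0}

theorem pi_w (hG : GwfStmt) (lz : LZ A1 N Ω Ω' G χ f j0 pr0)
    (D : Yd R A1 X J Ω1 Ω1' (lz.j G.y) l χ) (hd : D.d.lam = lz.tA) (a : A1) :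
    ∑ w, D.pi (lz.j (G.om w⁻¹ * lz.u') * a) * lz.j (G.om w) = lz.j (lz.pr a) := by
  obtain ⟨E, hE, hom, hcf, hcf'⟩ := hG R Γ W l G (le_trans one_le_two D.hl)
  have h1 := E.h1 (lz.pr a)
  rw [hE, hom] at h1
  conv_rhs => rw [← h1]
  rw [Finset.sum_comm, map_sum]
  refine Finset.sum_congr rfl fun w _ => ?_
  rw [map_sum]
  unfold Yd.pi
  rw [Finset.sum_mul, Finset.sum_range]
  refine Finset.sum_congr rfl fun i _ => ?_
  have h3 : lz.j (G.y ^ (i : ℕ) * G.om w) = lz.j G.y ^ (i : ℕ) * lz.j (G.om w) := by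
    rw [map_mul, map_pow]
  rw [map_smul, hcf, hcf', hd, lz.ort, smul_mul_assoc, h3]
  refine congrArg (fun r => r • (lz.j G.y ^ (i : ℕ) * lz.j (G.om w))) ?_
  refine congrArg (G.co (l - 1) 1) ?_
  rw [← map_pow, ← mul_assoc, ← map_mul, lz.pr_l]
  have h2 := lz.uu
  calc lz.u * (G.y ^ (l - 1 - (i : ℕ)) * (G.om w⁻¹ * lz.u') * lz.pr a)
      = (lz.u * lz.u') * (G.om w⁻¹ * G.y ^ (l - 1 - (i : ℕ)) * lz.pr a) := by ring
    _ = G.om w⁻¹ * G.y ^ (l - 1 - (i : ℕ)) * lz.pr a := by rw [h2, one_mul]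

theorem pi_comm (lz : LZ A1 N Ω Ω' G χ f j0 pr0)
    (D : Yd R A1 X J Ω1 Ω1' (lz.j G.y) l χ) (a : A1) (γ : Γ) :
    D.pi a * lz.j γ = lz.j γ * D.pi a := by
  unfold Yd.pi
  rw [Finset.sum_mul, Finset.mul_sum]
  refine Finset.sum_congr rfl fun i _ => ?_
  have h1 : lz.j G.y ^ i * lz.j γ = lz.j γ * lz.j G.y ^ i := by
    rw [← map_pow, ← map_mul, ← map_mul, mul_comm]
  rw [smul_mul_assoc, mul_smul_comm, h1]

end

theorem rtw (hG : GwfStmt) (hK : RtkStmt) : RtwStmt := by
  intro R F Γ Γ0 W A A1 X N J Ω Ω' Ω1 Ω1' _ _ c _ _ _ _ _ _ _ _ _ _ _ _ _ _ _ _ _ _ _ l G f χ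
    j0 pr0 lz D hd
  obtain ⟨-, h2, -⟩ := hK R A1 X J Ω1 Ω1' (lz.j G.y) l χ D
  have h3 : ∀ r, D.e r = ∑ k, ∑ w, lz.rf.x k * lz.j (G.om w) *
      D.pi (lz.j (G.om w⁻¹ * lz.u') * lz.rf.y k * D.e r) := by
    intro r
    conv_lhs => rw [← lz.rf.e1 (D.e r)]
    refine Finset.sum_congr rfl fun k _ => ?_
    rw [← pi_w hG lz D hd, Finset.mul_sum]
    refine Finset.sum_congr rfl fun w _ => ?_
    rw [pi_comm, mul_assoc (lz.rf.x k), mul_assoc (lz.j _) (lz.rf.y k)]
  have h4 : D.RT 1 = ∑ k, ∑ w : W, lz.rf.x k * lz.j lz.u' * lz.rf.y k := by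
    unfold Yd.RT
    have h5 : ∀ r, D.e r * 1 * D.e' r = ∑ k, ∑ w, lz.rf.x k * lz.j (G.om w) *
        (D.pi (lz.j (G.om w⁻¹ * lz.u') * lz.rf.y k * D.e r) * D.e' r) := by
      intro r
      rw [mul_one]
      conv_lhs => rw [h3 r]
      rw [Finset.sum_mul]
      refine Finset.sum_congr rfl fun k _ => ?_
      rw [Finset.sum_mul]
      refine Finset.sum_congr rfl fun w _ => ?_
      rw [mul_assoc (lz.rf.x k * lz.j (G.om w))]
    rw [Finset.sum_congr rfl fun r _ => h5 r, Finset.sum_comm]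
    refine Finset.sum_congr rfl fun k _ => ?_
    rw [Finset.sum_comm]
    refine Finset.sum_congr rfl fun w _ => ?_
    rw [← Finset.mul_sum, h2]
    have h6 : lz.j (G.om w) * lz.j (G.om w⁻¹ * lz.u') = lz.j lz.u' := by
      rw [← map_mul, ← mul_assoc, ← map_mul, mul_inv_cancel, map_one, one_mul]
    rw [← mul_assoc, mul_assoc (lz.rf.x k), h6]
  rw [h4]
  unfold RF.rt
  rw [Finset.smul_sum]
  refine Finset.sum_congr rfl fun k _ => ?_
  rw [Finset.sum_const, Finset.card_univ, Nat.cast_smul_eq_nsmul]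

end Pool.Agent.PFE.H46
end
end -- Pool.Agent.Helper46_PFE.RTW

section -- Pool.Agent.Helper47_PFE.CUF

/-! Squad PFE, row CUF: the Frobenius system of `C` for the form `λ ∘ j`. -/

open scoped BigOperators

noncomputable section

namespace Pool.Agent.PFE.H47

open Pool.Agent.PFC.B1 (FS Split)

theorem cuf (CFS : CfsStmt) : CufStmt := by
  intro K A X S J Ω Ω' C _ _ _ _ _ _ _ _ _ _ _ _ y l χ D L F E
  obtain ⟨c0, -, hlam, hb, hb', hsym, -⟩ :=
    CFS K S C X Ω L.toGS F.toSF l χ E.Q D.hl D.χl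
  have hu : E.u' * E.u = 1 := by rw [← E.uc, E.uu]
  have hc : ∀ c, E.u' * c = c * E.u' := by
    intro c
    calc E.u' * c = E.u' * c * (E.u * E.u') := by rw [E.uu, mul_one]
      _ = E.u' * (c * E.u) * E.u' := by simp only [mul_assoc]
      _ = E.u' * (E.u * c) * E.u' := by rw [E.uc]
      _ = (E.u' * E.u) * c * E.u' := by simp only [mul_assoc]
      _ = c * E.u' := by rw [hu, one_mul]
  have ht : ∀ a, D.d.lam (E.j a) = c0.lam (E.u * a) := by
    intro a
    rw [E.ut, E.t0e, hlam]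
  refine ⟨hc, hu, ?_⟩
  refine ⟨{ lam := D.d.lam ∘ₗ E.j.toLinearMap
            b := c0.b
            b' := fun p => E.u' * c0.b' p
            h1 := ?_
            h2 := ?_ }, fun a => rfl, hb, fun p => ?_, fun a b => ?_⟩
  · intro x
    have : ∀ p, (D.d.lam ∘ₗ E.j.toLinearMap) (E.u' * c0.b' p * x) = c0.lam (c0.b' p * x) := by
      intro p
      show D.d.lam (E.j (E.u' * c0.b' p * x)) = _
      rw [ht, ← mul_assoc, ← mul_assoc, E.uu, one_mul]
    simp only [this]
    exact c0.h1 x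
  · intro x
    have : ∀ p, (D.d.lam ∘ₗ E.j.toLinearMap) (x * c0.b p) = c0.lam (E.u * x * c0.b p) := by
      intro p
      show D.d.lam (E.j (x * c0.b p)) = _
      rw [ht, ← mul_assoc]
    simp only [this]
    have h2 := c0.h2 (E.u * x)
    calc ∑ p, c0.lam (E.u * x * c0.b p) • (E.u' * c0.b' p)
        = E.u' * ∑ p, c0.lam (E.u * x * c0.b p) • c0.b' p := by
          rw [Finset.mul_sum]
          refine Finset.sum_congr rfl fun p _ => ?_
          rw [mul_smul_comm]
      _ = x := by rw [h2, ← mul_assoc, hu, one_mul]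
  · show E.u' * c0.b' p = _
    rw [hb']
  · show D.d.lam (E.j (a * b)) = D.d.lam (E.j (b * a))
    rw [map_mul E.j, map_mul E.j, D.ds]

end Pool.Agent.PFE.H47
end
end -- Pool.Agent.Helper47_PFE.CUF

section -- Pool.Agent.Helper52_PFE.GFR

/-!
# Squad PFE, row GFR: the frame of `Γ`
-/

set_option autoImplicit false

open scoped BigOperators

noncomputable section

namespace Pool.Agent.PFE.H52

open MulOpposite
open Pool.Agent.PFE
open Pool.Agent.PFC.B1 (FS Split BiM Sep)
open Pool.Agent.PFC (tw)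
open Pool.Agent.PFD (RF)
open Pool.Agent.PFD.D2
open Pool.Agent.PFD.D2b (wrp FPl FrR)

section

variable {R Γ W : Type} [CommRing R] [CommRing Γ] [Algebra R Γ] [CommGroup W] [Fintype W] {l : ℕ}

/-- the two sided action of `W × W` on `W` -/
@[reducible] def gfrAct (W : Type) [CommGroup W] : MulAction (W × W) W where
  smul := fun p w => p.1 * w * p.2⁻¹
  one_smul := fun w => by
    change (1 : W) * w * (1 : W)⁻¹ = w
    rw [one_mul, inv_one, mul_one]
  mul_smul := fun p p' w => by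
    change (p.1 * p'.1) * w * (p.2 * p'.2)⁻¹ = p.1 * (p'.1 * w * p'.2⁻¹) * p.2⁻¹
    rw [mul_inv_rev]
    simp only [mul_assoc]

/-- the empty action -/
@[reducible] def gfrEmp (W : Type) [CommGroup W] : MulAction (W × W) Empty where
  smul := fun _ e => e
  one_smul := fun e => e.elim
  mul_smul := fun _ _ e => e.elim

theorem gfr_spl {M : Type} [AddCommMonoid M] (f : ℕ → M) {a b l : ℕ} (h : a + b = l) :
    ∑ x ∈ Finset.range l, f x = ∑ x ∈ Finset.range a, f x + ∑ x ∈ Finset.range b, f (a + x) := by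
  subst h
  exact Finset.sum_range_add f a b

theorem gfr_co (G : GY R Γ W l) (n : Γ) (w : W) (i : ℕ) (hi : i < l) :
    G.co (l - 1) w (G.y ^ (l - 1 - i) * n) = G.co i w n := by
  set m := l - 1 - i with hm
  have hlm : l - m = i + 1 := by omega
  have hml : m + (l - m) = l := by omega
  have hml' : (l - m) + m = l := by omega
  have h1 : G.y ^ m * n = ∑ k ∈ Finset.range l, ∑ v, (if m ≤ k then G.co (k - m) v n else 0) •
      (G.y ^ k * G.om v) := by
    conv_lhs => rw [← G.ex n]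
    rw [Finset.mul_sum]
    have e1 : ∑ k ∈ Finset.range l, G.y ^ m * ∑ v, G.co k v n • (G.y ^ k * G.om v) =
        ∑ k ∈ Finset.range (l - m), ∑ v, G.co k v n • (G.y ^ (m + k) * G.om v) := by
      rw [gfr_spl _ hml']
      have e2 : ∑ x ∈ Finset.range m, G.y ^ m * ∑ v, G.co (l - m + x) v n •
          (G.y ^ (l - m + x) * G.om v) = 0 := by
        refine Finset.sum_eq_zero fun x _ => ?_
        rw [Finset.mul_sum]
        refine Finset.sum_eq_zero fun v _ => ?_
        rw [mul_smul_comm, ← mul_assoc, ← pow_add]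
        have e3 : G.y ^ (m + (l - m + x)) = 0 := by
          have e4 : m + (l - m + x) = l + x := by omega
          rw [e4, pow_add, G.yl, zero_mul]
        rw [e3, zero_mul, smul_zero]
      rw [e2, add_zero]
      refine Finset.sum_congr rfl fun k _ => ?_
      rw [Finset.mul_sum]
      refine Finset.sum_congr rfl fun v _ => ?_
      rw [mul_smul_comm, ← mul_assoc, ← pow_add]
    have e5 : ∑ k ∈ Finset.range l, ∑ v, (if m ≤ k then G.co (k - m) v n else 0) •
        (G.y ^ k * G.om v) =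
        ∑ k ∈ Finset.range (l - m), ∑ v, G.co k v n • (G.y ^ (m + k) * G.om v) := by
      rw [gfr_spl _ hml]
      have e6 : ∑ k ∈ Finset.range m, ∑ v, (if m ≤ k then G.co (k - m) v n else 0) •
          (G.y ^ k * G.om v) = 0 := by
        refine Finset.sum_eq_zero fun k hk => Finset.sum_eq_zero fun v _ => ?_
        rw [if_neg (not_le.2 (Finset.mem_range.1 hk)), zero_smul]
      rw [e6, zero_add]
      refine Finset.sum_congr rfl fun k _ => Finset.sum_congr rfl fun v _ => ?_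
      rw [if_pos (Nat.le_add_right _ _), Nat.add_sub_cancel_left]
    rw [e1, e5]
  rw [h1]
  have h2 := G.un (fun k v => if m ≤ k then G.co (k - m) v n else 0) (l - 1) w (by omega)
  rw [h2, if_pos (by omega)]
  have h3 : l - 1 - m = i := by omega
  rw [h3]

theorem gfr_cw (G : GY R Γ W l) (hl : 1 ≤ l) (n : Γ) (u v w : W) :
    G.co (l - 1) (u * w * v⁻¹) (G.om u * (n * G.om v⁻¹)) = G.co (l - 1) w n := by
  have h1 : G.om u * (n * G.om v⁻¹) = ∑ k ∈ Finset.range l, ∑ x, G.co k (u⁻¹ * x * v) n •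
      (G.y ^ k * G.om x) := by
    conv_lhs => rw [← G.ex n]
    rw [Finset.sum_mul, Finset.mul_sum]
    refine Finset.sum_congr rfl fun k _ => ?_
    rw [Finset.sum_mul, Finset.mul_sum]
    refine Fintype.sum_equiv ((Equiv.mulLeft u).trans (Equiv.mulRight v⁻¹)) _ _ fun x => ?_
    change G.om u * (G.co k x n • (G.y ^ k * G.om x) * G.om v⁻¹) =
      G.co k (u⁻¹ * (u * x * v⁻¹) * v) n • (G.y ^ k * G.om (u * x * v⁻¹))
    have e1 : u⁻¹ * (u * x * v⁻¹) * v = x := by
      rw [mul_assoc u, inv_mul_cancel_left, inv_mul_cancel_right]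
    rw [e1, smul_mul_assoc, mul_smul_comm, map_mul G.om, map_mul G.om]
    congr 1
    ring
  rw [h1, G.un (fun k x => G.co k (u⁻¹ * x * v) n) (l - 1) _ (by omega)]
  have e2 : u⁻¹ * (u * w * v⁻¹) * v = w := by
    rw [mul_assoc u, inv_mul_cancel_left, inv_mul_cancel_right]
  rw [e2]

end

theorem gfr : GfrStmt := by
  intro R Γ W X _ _ _ _ _ _ l G χ hl
  refine ⟨W, Empty, inferInstance, inferInstance, gfrAct W, gfrEmp W, ⟨?_⟩⟩
  letI := gfrAct W
  letI := gfrEmp W
  exact
    { deg := fun _ => 1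
      dg := fun _ _ => rfl
      fo := by
        intro w o h
        change (1 : W) * o * w⁻¹ = o at h
        rw [one_mul, mul_eq_left, inv_eq_one] at h
        exact h
      fo' := fun _ o => o.elim
      g := G.om
      gw := by
        intro w o
        change G.om (w.1 * o * w.2⁻¹) = G.om w.1 * (G.om o * G.om w.2⁻¹)
        rw [map_mul G.om, map_mul G.om, mul_assoc]
      gy := by
        intro o
        change G.y * G.om o = χ 1 • (G.om o * G.y)
        rw [map_one χ, one_smul, mul_comm]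
      c := fun w => G.co (l - 1) w
      cw := by
        intro w o n
        exact gfr_cw G hl n w.1 w.2 o
      cy := by
        intro o n
        change G.co (l - 1) o (G.y * n) = χ 1 * G.co (l - 1) o (n * G.y)
        rw [map_one χ, one_mul, mul_comm]
      h := fun e => e.elim
      hw := fun _ e => e.elim
      d := fun e => e.elim
      dw := fun _ e => e.elim
      fr := by
        intro n
        rw [Finset.univ_eq_empty (α := Empty), Finset.sum_empty, add_zero]
        change ∑ o, ∑ i ∈ Finset.range l, G.co (l - 1) o (G.y ^ (l - 1 - i) * n) •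
          (G.y ^ i * G.om o) = n
        rw [Finset.sum_comm]
        conv_rhs => rw [← G.ex n]
        refine Finset.sum_congr rfl fun i hi => Finset.sum_congr rfl fun o _ => ?_
        rw [gfr_co G n o i (Finset.mem_range.1 hi)] }

end Pool.Agent.PFE.H52
end
end -- Pool.Agent.Helper52_PFE.GFR

section -- Pool.Agent.Helper52_PFE.STF

set_option autoImplicit false

open scoped BigOperators

noncomputable section

namespace Pool.Agent.PFE.H52

open Pool.Agent.PFE
open Pool.Agent.PFC.B1 (FS Split)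
open Pool.Agent.PFD (RF FotStmt)

section

variable {R A X : Type} [CommRing R] [Ring A] [Algebra R A] [Group X] {y : A} {χ : X →* R}

theorem pow_Nx {x : X} {n : A} (hn : n ∈ Nx y χ x) (j : ℕ) :
    y ^ j * n = χ x ^ j • (n * y ^ j) := by
  induction j with
  | zero => rw [pow_zero, pow_zero, one_smul, one_mul, mul_one]
  | succ j ih =>
    have hn' : y * n = χ x • (n * y) := hn
    rw [pow_succ, mul_assoc, hn', mul_smul_comm, ← mul_assoc, ih, smul_mul_assoc, smul_smul,
      mul_assoc, ← pow_succ']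

theorem pow_Nx' {l : ℕ} (hl : ∀ x, χ x ^ (l - 1) = 1) {x : X} {n : A} (hn : n ∈ Nx y χ x) :
    y ^ (l - 1) * n = n * y ^ (l - 1) := by
  rw [pow_Nx hn, hl, one_smul]

end

section

variable {R A X S J Ω Ω' : Type} [CommRing R] [Ring A] [Algebra R A] [Group X] [Fintype X]
    [Ring S] [Algebra R S] [Fintype J] [Fintype Ω] [Fintype Ω'] {y : A} {l : ℕ} {χ : X →* R}
    (D : Yd R A X J Ω Ω' y l χ) (L : LS R A X S y l χ)

include D in
theorem g'_mem (o : Ω) : D.g' o ∈ Nx y χ (D.deg o)⁻¹ := by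
  show y * D.g' o = χ (D.deg o)⁻¹ • (D.g' o * y)
  rw [D.g'y, smul_smul, ← map_mul, inv_mul_cancel, map_one, one_smul]

/-- the functional vanishes on the ideal -/
theorem lam_Jx {x : X} {a : A} (ha : a ∈ Jx y l χ x) : D.d.lam (y ^ (l - 1) * a) = 0 := by
  have hl := D.hl
  induction ha using Submodule.span_induction with
  | mem b h =>
    rcases h with ⟨a, rfl⟩ | ⟨n, _, rfl⟩
    · unfold Tx
      rw [Finset.mul_sum, map_sum]
      refine Finset.sum_eq_zero fun j hj => ?_
      have hj' : j < l := Finset.mem_range.mp hj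
      have h1 : y ^ (l - 1) * (y ^ j * a * y ^ (l - 1 - j)) =
          (y ^ (l - 1) * y ^ j) * (a * y ^ (l - 1 - j)) := by
        simp only [mul_assoc]
      have h2 : a * y ^ (l - 1 - j) * (y ^ (l - 1) * y ^ j) = a * y ^ (l + (l - 2)) := by
        rw [mul_assoc, ← pow_add, ← pow_add]
        congr 2
        omega
      rw [mul_smul_comm, map_smul, h1, D.ds, h2, pow_add, D.yl, zero_mul, mul_zero, map_zero,
        smul_zero]
    · rw [← mul_assoc, ← pow_succ]
      have h1 : l - 1 + 1 = l := by omega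
      rw [h1, D.yl, zero_mul, map_zero]
  | zero => rw [mul_zero, map_zero]
  | add a b _ _ h1 h2 => rw [mul_add, map_add, h1, h2, add_zero]
  | smul r a _ h1 => rw [mul_smul_comm, map_smul, h1, smul_zero]

/-- a lift of the part of degree `x` -/
def lft (x : X) (s : S) : Nx y χ x := Classical.choose (L.ps x s)

theorem lft_spec (x : X) (s : S) : L.p x (lft L x s) = L.c x s := Classical.choose_spec (L.ps x s)

theorem lam_wd {x : X} {a b : Nx y χ x} (h : L.p x a = L.p x b) :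
    D.d.lam (y ^ (l - 1) * (a : A)) = D.d.lam (y ^ (l - 1) * (b : A)) := by
  have h1 : L.p x (a - b) = 0 := by rw [map_sub, h, sub_self]
  have h2 := lam_Jx D ((L.ker x (a - b)).mp h1)
  rw [Submodule.coe_sub, mul_sub, map_sub, sub_eq_zero] at h2
  exact h2

/-- the form of `S` -/
def tau : S →ₗ[R] R where
  toFun := fun s => ∑ x, D.d.lam (y ^ (l - 1) * (lft L x s : A))
  map_add' := fun s t => by
    rw [← Finset.sum_add_distrib]
    refine Finset.sum_congr rfl fun x _ => ?_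
    rw [← map_add, ← mul_add, ← Submodule.coe_add]
    apply lam_wd D L
    rw [lft_spec, map_add, map_add, lft_spec, lft_spec]
  map_smul' := fun r s => by
    rw [RingHom.id_apply, Finset.smul_sum]
    refine Finset.sum_congr rfl fun x _ => ?_
    rw [← map_smul, ← mul_smul_comm, ← Submodule.coe_smul]
    apply lam_wd D L
    rw [lft_spec, map_smul, map_smul, lft_spec]

theorem tau_p (x : X) (a : Nx y χ x) : tau D L (L.p x a) = D.d.lam (y ^ (l - 1) * (a : A)) := by
  classical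
  change ∑ x', D.d.lam (y ^ (l - 1) * (lft L x' (L.p x a) : A)) = _
  rw [Finset.sum_eq_single x]
  · apply lam_wd D L
    rw [lft_spec, L.pc]
  · intro x' _ hx'
    have h1 : D.d.lam (y ^ (l - 1) * (lft L x' (L.p x a) : A)) =
        D.d.lam (y ^ (l - 1) * ((0 : Nx y χ x') : A)) := by
      apply lam_wd D L
      rw [lft_spec, ← L.pc x a, L.co x' x _ hx', map_zero]
    rw [h1, Submodule.coe_zero, mul_zero, map_zero]
  · intro h
    exact absurd (Finset.mem_univ _) h

theorem ind_S {P : S → Prop} (h0 : ∀ s t, P s → P t → P (s + t)) (hz : P 0)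
    (h1 : ∀ x a, P (L.p x a)) (s : S) : P s := by
  classical
  rw [← L.cs s]
  induction (Finset.univ : Finset X) using Finset.induction_on with
  | empty =>
    rw [Finset.sum_empty]
    exact hz
  | insert x T hx ih =>
    rw [Finset.sum_insert hx]
    refine h0 _ _ ?_ ih
    obtain ⟨a, ha⟩ := L.ps x s
    rw [← ha]
    exact h1 x a

theorem tau_c (x : X) (s : S) (hx : x ≠ 1) : tau D L (L.c x s) = 0 := by
  obtain ⟨a, ha⟩ := L.ps x s
  rw [← ha, tau_p]
  have hl := D.hl
  have h1 : D.d.lam (y ^ (l - 1) * (a : A)) = χ x * D.d.lam (y ^ (l - 1) * (a : A)) := by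
    have h2 : y ^ (l - 1) = y ^ (l - 2) * y := by
      rw [← pow_succ]
      congr 1
      omega
    have h2' : y ^ (l - 1) = y * y ^ (l - 2) := by
      rw [← pow_succ']
      congr 1
      omega
    have h3 : y * (a : A) = χ x • ((a : A) * y) := a.2
    conv_lhs => rw [h2, mul_assoc, h3, mul_smul_comm, map_smul, ← mul_assoc, D.ds, ← mul_assoc,
      ← h2', smul_eq_mul]
  have h4 : (1 - χ x) * D.d.lam (y ^ (l - 1) * (a : A)) = 0 := by
    rw [sub_mul, one_mul, ← h1, sub_self]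
  exact (D.χu x hx).mul_right_eq_zero.mp h4

theorem tau_sym (s t : S) : tau D L (s * t) = tau D L (t * s) := by
  induction s using ind_S L with
  | h0 s s' h h' => rw [add_mul, mul_add, map_add, map_add, h, h']
  | hz => rw [zero_mul, mul_zero]
  | h1 x a =>
    induction t using ind_S L with
    | h0 s s' h h' => rw [add_mul, mul_add, map_add, map_add, h, h']
    | hz => rw [zero_mul, mul_zero]
    | h1 x' b =>
      rw [L.mul, L.mul, tau_p, tau_p]
      change D.d.lam (y ^ (l - 1) * ((a : A) * b)) = D.d.lam (y ^ (l - 1) * ((b : A) * a))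
      rw [← mul_assoc, D.ds, ← mul_assoc, ← pow_Nx' D.χl b.2, mul_assoc]

theorem tau_g' (o : Ω) (x : X) (a : Nx y χ x) :
    tau D L (L.p (D.deg o)⁻¹ ⟨D.g' o, g'_mem D o⟩ * L.p x a) =
      D.d.lam (D.g' o * y ^ (l - 1) * a) := by
  rw [L.mul, tau_p]
  change D.d.lam (y ^ (l - 1) * (D.g' o * a)) = _
  rw [← mul_assoc, pow_Nx' D.χl (g'_mem D o)]

theorem h1' (nfr : NfrStmt) (s : S) :
    ∑ o, tau D L (L.p (D.deg o)⁻¹ ⟨D.g' o, g'_mem D o⟩ * s) • L.p (D.deg o) ⟨D.g o, D.gy o⟩ =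
      s := by
  classical
  have hl := D.hl
  induction s using ind_S L with
  | h0 s s' h h' =>
    conv_rhs => rw [← h, ← h']
    simp only [mul_add, map_add, add_smul, Finset.sum_add_distrib]
  | hz => simp only [mul_zero, map_zero, zero_smul, Finset.sum_const_zero]
  | h1 x a =>
    obtain ⟨n1, -, n3⟩ := nfr R A X J Ω Ω' y l χ D
    set m : Ω → Nx y χ x := fun o => if h : D.deg o = x then ⟨D.g o, h ▸ D.gy o⟩ else 0 with hm
    have h2 : ∀ o, tau D L (L.p (D.deg o)⁻¹ ⟨D.g' o, g'_mem D o⟩ * L.p x a) •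
        L.p (D.deg o) ⟨D.g o, D.gy o⟩ = D.d.lam (D.g' o * y ^ (l - 1) * a) • L.p x (m o) := by
      intro o
      rw [tau_g']
      by_cases h : D.deg o = x
      · subst h
        rw [hm]
        simp only
        rw [dif_pos trivial]
      · rw [n1 x a a.2 o (l - 1) h (by omega), zero_smul, zero_smul]
    rw [Finset.sum_congr rfl fun o _ => h2 o]
    simp only [← map_smul, ← map_sum]
    symm
    rw [← sub_eq_zero, ← map_sub, L.ker]
    have h3 := n3 x a a.2
    have h4 : ((a - ∑ o, D.d.lam (D.g' o * y ^ (l - 1) * (a : A)) • m o : Nx y χ x) : A) =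
        (a : A) - ∑ o, if D.deg o = x then
          D.d.lam (D.g' o * y ^ (l - 1) * (a : A)) • D.g o else 0 := by
      rw [Submodule.coe_sub, Submodule.coe_sum]
      congr 1
      refine Finset.sum_congr rfl fun o _ => ?_
      rw [Submodule.coe_smul, hm]
      simp only
      by_cases h : D.deg o = x
      · rw [dif_pos h, if_pos h]
      · rw [dif_neg h, if_neg h, Submodule.coe_zero, smul_zero]
    rw [h4]
    exact h3

end

theorem stf (nfr : NfrStmt) : StfStmt := by
  intro R A X S J Ω Ω' _ _ _ _ _ _ _ _ _ _ y l χ D L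
  have hh2 : ∀ s, ∑ o, tau D L (s * L.p (D.deg o) ⟨D.g o, D.gy o⟩) •
      L.p (D.deg o)⁻¹ ⟨D.g' o, g'_mem D o⟩ = s := by
    intro s
    rw [← sub_eq_zero]
    set z : S := ∑ o, tau D L (s * L.p (D.deg o) ⟨D.g o, D.gy o⟩) •
      L.p (D.deg o)⁻¹ ⟨D.g' o, g'_mem D o⟩ - s with hz
    have h1 : ∀ b, tau D L (z * b) = 0 := by
      intro b
      have h2 : tau D L (s * b) = ∑ o, tau D L (L.p (D.deg o)⁻¹ ⟨D.g' o, g'_mem D o⟩ * b) *
          tau D L (s * L.p (D.deg o) ⟨D.g o, D.gy o⟩) := by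
        conv_lhs => rw [← h1' D L nfr b]
        rw [Finset.mul_sum, map_sum]
        refine Finset.sum_congr rfl fun o _ => ?_
        rw [mul_smul_comm, map_smul, smul_eq_mul]
      rw [hz, sub_mul, map_sub, h2, Finset.sum_mul, map_sum, ← Finset.sum_sub_distrib]
      refine Finset.sum_eq_zero fun o _ => ?_
      rw [smul_mul_assoc, map_smul, smul_eq_mul, mul_comm, sub_self]
    rw [← h1' D L nfr z]
    refine Finset.sum_eq_zero fun o _ => ?_
    rw [tau_sym, h1, zero_smul]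
  exact ⟨{
    lam := tau D L
    b := fun o => L.p (D.deg o) ⟨D.g o, D.gy o⟩
    b' := fun o => L.p (D.deg o)⁻¹ ⟨D.g' o, g'_mem D o⟩
    h1 := h1' D L nfr
    h2 := hh2 }, g'_mem D, tau_sym D L, tau_c D L, fun o => rfl, fun o => rfl, tau_p D L⟩

end Pool.Agent.PFE.H52
end
end -- Pool.Agent.Helper52_PFE.STF

section -- Pool.Agent.Helper53_PFE.FRS

/-!
# Squad PFE, row FRS: the sum of two frames
-/

open scoped BigOperators

noncomputable section

namespace Pool.Agent.PFE.H53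

open MulOpposite

theorem frs : FrsStmt := by
  intro R Γ W N X Ω1 Ω1' Ω2 Ω2' _ _ _ _ _ _ _ _ _ _ _ _ _ _ _ _ l G χ B q1 q2 F1 F2
  refine ⟨Ω1 ⊕ Ω2, Ω1' ⊕ Ω2', inferInstance, inferInstance, inferInstance, inferInstance, ⟨{
    deg := Sum.elim F1.deg F2.deg
    dg := ?_
    fo := ?_
    fo' := ?_
    g := Sum.elim F1.g F2.g
    gw := ?_
    gy := ?_
    c := Sum.elim F1.c F2.c
    cw := ?_
    cy := ?_
    h := Sum.elim F1.h F2.h
    hw := ?_
    d := Sum.elim F1.d F2.d
    dw := ?_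
    fr := ?_ }⟩⟩
  · rintro w (o | o)
    · exact F1.dg w o
    · exact F2.dg w o
  · rintro w (o | o) h
    · exact F1.fo w o (Sum.inl.inj h)
    · exact F2.fo w o (Sum.inr.inj h)
  · rintro w (o | o) h
    · exact F1.fo' w o (Sum.inl.inj h)
    · exact F2.fo' w o (Sum.inr.inj h)
  · rintro w (o | o)
    · exact F1.gw w o
    · exact F2.gw w o
  · rintro (o | o)
    · exact F1.gy o
    · exact F2.gy o
  · rintro w (o | o) n
    · exact F1.cw w o n
    · exact F2.cw w o n
  · rintro (o | o) n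
    · exact F1.cy o n
    · exact F2.cy o n
  · rintro w (o | o)
    · exact F1.hw w o
    · exact F2.hw w o
  · rintro w (o | o) n
    · exact F1.dw w o n
    · exact F2.dw w o n
  · intro n
    rw [Fintype.sum_sum_type, Fintype.sum_sum_type, LinearMap.add_apply, ← F1.fr n, ← F2.fr n]
    simp only [Sum.elim_inl, Sum.elim_inr]
    exact add_add_add_comm _ _ _ _

end Pool.Agent.PFE.H53
end
end -- Pool.Agent.Helper53_PFE.FRS

section -- Pool.Agent.Helper53_PFE.ZSY

/-!
# Squad PFE, row ZSY: the centre of the local algebra lifts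
-/

open scoped BigOperators

noncomputable section

namespace Pool.Agent.PFE.H53

open MulOpposite
open Pool.Agent.PFC.B1 (FS)
open Pool.Agent.PFD.D2

/-- the trace of a Frobenius system is central -/
theorem fs_central {R S I : Type} [CommRing R] [Ring S] [Algebra R S] [Fintype I] (f : FS R S I)
    (s a : S) : a * ∑ o, f.b o * s * f.b' o = (∑ o, f.b o * s * f.b' o) * a := by
  have h1 : ∀ o, a * (f.b o * s * f.b' o) =
      ∑ o', f.lam (f.b' o' * a * f.b o) • (f.b o' * s * f.b' o) := by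
    intro o
    have h2 := f.h1 (a * f.b o)
    calc a * (f.b o * s * f.b' o) = (a * f.b o) * (s * f.b' o) := by simp only [mul_assoc]
      _ = (∑ o', f.lam (f.b' o' * (a * f.b o)) • f.b o') * (s * f.b' o) := by rw [h2]
      _ = _ := by
        rw [Finset.sum_mul]
        refine Finset.sum_congr rfl fun o' _ => ?_
        rw [smul_mul_assoc, mul_assoc (f.b' o'), mul_assoc (f.b o')]
  have h3 : ∀ o', f.b o' * s * f.b' o' * a =
      ∑ o, f.lam (f.b' o' * a * f.b o) • (f.b o' * s * f.b' o) := by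
    intro o'
    have h4 := f.h2 (f.b' o' * a)
    calc f.b o' * s * f.b' o' * a = (f.b o' * s) * (f.b' o' * a) := by simp only [mul_assoc]
      _ = (f.b o' * s) * (∑ o, f.lam (f.b' o' * a * f.b o) • f.b' o) := by rw [h4]
      _ = _ := by
        rw [Finset.mul_sum]
        refine Finset.sum_congr rfl fun o _ => ?_
        rw [mul_smul_comm]
  rw [Finset.mul_sum, Finset.sum_mul, Finset.sum_congr rfl fun o _ => h1 o,
    Finset.sum_congr rfl fun o _ => h3 o, Finset.sum_comm]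

theorem zsy (tsv : TsvStmt) (wfx : WfxStmt) : ZsyStmt := by
  classical
  intro R F S S0 X Ω W _ _ _ _ c _ _ _ _ _ _ _ _ _ _ _ _ G E fs z0 hz0
  obtain ⟨s1, hs1⟩ := fs.surj z0
  have hπ : c.κ c.π = 0 := (c.ker c.π).2 ⟨1, (mul_one _).symm⟩
  have hqπ : ∀ t : S, fs.q (c.π • t) = 0 := by
    intro t
    rw [Algebra.smul_def, map_mul, fs.sc, hπ, map_zero, zero_mul]
  have hk : ∀ w, ∃ t, E.om w * s1 - s1 * E.om w = c.π • t := by
    intro w
    refine fs.ker _ ?_
    rw [map_sub, map_mul, map_mul, hs1, hz0, sub_self]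
  obtain ⟨s2, hs2, t2, ht2⟩ := wfx R S X Ω W G E c.π s1 hk
  have hq2 : fs.q s2 = z0 := by
    have h1 : s2 = s1 + c.π • t2 := by rw [← ht2]; abel
    rw [h1, map_add, hqπ, add_zero, hs1]
  obtain ⟨T, hT⟩ := tsv Ω W E.fo
  have hW : ((Fintype.card W : ℕ) : R) ≠ 0 := by
    rw [Ne, Nat.cast_eq_zero]
    exact Fintype.card_ne_zero
  have hsum : ∀ s : S, (∀ w, E.om w * s = s * E.om w) →
      ∑ o, E.f.b o * s * E.f.b' o = (Fintype.card W : R) • ∑ t ∈ T, E.f.b t * s * E.f.b' t := by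
    intro s hs
    rw [hT S (fun o => E.f.b o * s * E.f.b' o), Finset.smul_sum]
    refine Finset.sum_congr rfl fun t _ => ?_
    have h1 : ∀ w : W, E.f.b (((1, w) : W × W) • t) * s * E.f.b' (((1, w) : W × W) • t) =
        E.f.b t * s * E.f.b' t := by
      intro w
      rw [E.bw, E.bw']
      simp only [inv_one, map_one, one_mul, mul_one]
      have h2 : E.om w⁻¹ * s * E.om w = s := by
        rw [hs w⁻¹, mul_assoc, ← map_mul, inv_mul_cancel, map_one, mul_one]
      calc E.f.b t * E.om w⁻¹ * s * (E.om w * E.f.b' t)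
          = E.f.b t * (E.om w⁻¹ * s * E.om w) * E.f.b' t := by simp only [mul_assoc]
        _ = E.f.b t * s * E.f.b' t := by rw [h2]
    rw [Finset.sum_congr rfl fun w _ => h1 w, Finset.sum_const, Finset.card_univ, Nat.cast_smul_eq_nsmul]
  have hcen : ∀ s : S, (∀ w, E.om w * s = s * E.om w) →
      ∀ a, a * ∑ t ∈ T, E.f.b t * s * E.f.b' t = (∑ t ∈ T, E.f.b t * s * E.f.b' t) * a := by
    intro s hs a
    have h1 := fs_central E.f s a
    rw [hsum s hs, mul_smul_comm, smul_mul_assoc] at h1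
    exact smul_right_injective S hW h1
  have hr1 : ∑ t ∈ T, E.f.b t * 1 * E.f.b' t = E.rho := by
    have h1 := hsum 1 (fun w => by rw [mul_one, one_mul])
    have h2 := E.rr
    simp only [mul_one] at h1 ⊢
    rw [h2] at h1
    exact (smul_right_injective S hW h1).symm
  obtain ⟨u, hu⟩ := E.ru
  refine ⟨(∑ t ∈ T, E.f.b t * s2 * E.f.b' t) * (u⁻¹ : Sˣ), ?_, ?_⟩
  · intro s
    have h1 : (u : S) * s = s * u := by
      rw [hu]
      exact E.rc s
    have h2 : ((u⁻¹ : Sˣ) : S) * s = s * ((u⁻¹ : Sˣ) : S) := by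
      rw [Units.inv_mul_eq_iff_eq_mul, ← mul_assoc, h1, mul_assoc, Units.mul_inv, mul_one]
    rw [mul_assoc, h2, ← mul_assoc, ← hcen s2 hs2 s, mul_assoc]
  · have h3 : fs.q (∑ t ∈ T, E.f.b t * s2 * E.f.b' t) = z0 * fs.q E.rho := by
      rw [← hr1, map_sum, map_sum, Finset.mul_sum]
      refine Finset.sum_congr rfl fun t _ => ?_
      rw [map_mul, map_mul, hq2, mul_one, map_mul, ← hz0, mul_assoc]
    rw [map_mul, h3, mul_assoc, ← map_mul, ← hu, Units.mul_inv, map_one, mul_one]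

end Pool.Agent.PFE.H53
end
end -- Pool.Agent.Helper53_PFE.ZSY

section -- Pool.Agent.Helper55_PFE.CZF

/-!
# Squad PFE, row CZF: the centre of the corner (helper55)
-/

open scoped BigOperators

namespace Pool.Agent.PFE.H55

open Pool.Agent.PFE

section

variable {K A : Type} [Field K] [Ring A] [Algebra K A]

theorem tx_mul_left {y n : A} (h : y * n = n * y) (l : ℕ) (a : A) :
    n * Tx y l (1 : K) a = Tx y l (1 : K) (n * a) := by
  have hc : Commute n y := h.symm
  unfold Tx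
  rw [Finset.mul_sum]
  refine Finset.sum_congr rfl fun j _ => ?_
  rw [mul_smul_comm]
  congr 1
  rw [← mul_assoc, ← mul_assoc, (hc.pow_right j).eq, ← mul_assoc]

theorem tx_mul_right {y n : A} (h : y * n = n * y) (l : ℕ) (a : A) :
    Tx y l (1 : K) a * n = Tx y l (1 : K) (a * n) := by
  have hc : Commute n y := h.symm
  unfold Tx
  rw [Finset.sum_mul]
  refine Finset.sum_congr rfl fun j _ => ?_
  rw [smul_mul_assoc]
  congr 1
  rw [mul_assoc, mul_assoc, ← (hc.pow_right (l - 1 - j)).eq, mul_assoc, mul_assoc]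

theorem tx_add (y : A) (l : ℕ) (c : K) (a b : A) :
    Tx y l c (a + b) = Tx y l c a + Tx y l c b := by
  unfold Tx
  rw [← Finset.sum_add_distrib]
  refine Finset.sum_congr rfl fun j _ => ?_
  rw [mul_add, add_mul, smul_add]

end

section corner

variable {K A A' N : Type} [Field K] [Ring A] [Algebra K A] [Ring A'] [Algebra K A'] [Fintype N]

/-- `z' ↦ ∑ a_k z' b_k` -/
noncomputable def psi (κ : A' →ₗ[K] A) (a b : N → A) : A' →ₗ[K] A where
  toFun z := ∑ k, a k * κ z * b k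
  map_add' x y := by
    rw [← Finset.sum_add_distrib]
    refine Finset.sum_congr rfl fun k _ => ?_
    rw [map_add, mul_add, add_mul]
  map_smul' r x := by
    rw [RingHom.id_apply, Finset.smul_sum]
    refine Finset.sum_congr rfl fun k _ => ?_
    rw [map_smul, mul_smul_comm, smul_mul_assoc]

theorem psi_apply (κ : A' →ₗ[K] A) (a b : N → A) (z : A') :
    psi κ a b z = ∑ k, a k * κ z * b k := rfl

theorem corner_center (f : A) (κ : A' →ₗ[K] A) (a b : N → A) (hff : f * f = f)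
    (hinj : Function.Injective κ) (hmul : ∀ a b, κ (a * b) = κ a * κ b) (hone : κ 1 = f)
    (him : ∀ a, f * a * f = a → ∃ b, κ b = a) (h1 : ∑ k, a k * f * b k = 1) :
    Module.finrank K (Subalgebra.center K A) = Module.finrank K (Subalgebra.center K A') := by
  have hfl : ∀ z, f * κ z = κ z := fun z => by rw [← hone, ← hmul, one_mul]
  have hfr : ∀ z, κ z * f = κ z := fun z => by rw [← hone, ← hmul, mul_one]
  have hcomm : ∀ z : A', z ∈ Subalgebra.center K A' → ∀ m, κ z * (f * m * f) = f * m * f * κ z := by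
    intro z hz m
    obtain ⟨b', hb'⟩ := him (f * m * f) (by
      rw [← mul_assoc, ← mul_assoc, hff, mul_assoc (f * m) f f, hff])
    rw [← hb', ← hmul, ← hmul, Subalgebra.mem_center_iff.mp hz b']
  have hcen : ∀ z : A', z ∈ Subalgebra.center K A' → psi κ a b z ∈ Subalgebra.center K A := by
    intro z hz
    rw [Subalgebra.mem_center_iff]
    intro x
    have e1 : x * psi κ a b z = ∑ i, ∑ k, a i * (f * (b i * x * a k) * f * κ z) * b k := by
      calc x * psi κ a b z = (∑ i, a i * f * b i) * (x * psi κ a b z) := by rw [h1, one_mul]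
        _ = ∑ i, ∑ k, a i * (f * (b i * x * a k) * f * κ z) * b k := by
            rw [psi_apply, Finset.sum_mul]
            refine Finset.sum_congr rfl fun i _ => ?_
            rw [Finset.mul_sum, Finset.mul_sum]
            refine Finset.sum_congr rfl fun k _ => ?_
            rw [mul_assoc (f * (b i * x * a k)) f (κ z), hfl]
            simp only [mul_assoc]
    have e2 : psi κ a b z * x = ∑ i, ∑ k, a i * (κ z * (f * (b i * x * a k) * f)) * b k := by
      calc psi κ a b z * x = psi κ a b z * x * (∑ k, a k * f * b k) := by rw [h1, mul_one]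
        _ = ∑ i, ∑ k, a i * (κ z * (f * (b i * x * a k) * f)) * b k := by
            rw [psi_apply, Finset.sum_mul, Finset.sum_mul]
            refine Finset.sum_congr rfl fun i _ => ?_
            rw [Finset.mul_sum]
            refine Finset.sum_congr rfl fun k _ => ?_
            rw [← mul_assoc (κ z) (f * (b i * x * a k)) f, ← mul_assoc (κ z) f, hfr]
            simp only [mul_assoc]
    rw [e1, e2]
    refine Finset.sum_congr rfl fun i _ => Finset.sum_congr rfl fun k _ => ?_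
    rw [hcomm z hz]
  have hres : ∀ z : A', z ∈ Subalgebra.center K A' → psi κ a b z * f = κ z := by
    intro z hz
    calc psi κ a b z * f = ∑ k, a k * f * b k * κ z := by
          rw [psi_apply, Finset.sum_mul]
          refine Finset.sum_congr rfl fun k _ => ?_
          calc a k * κ z * b k * f = a k * (κ z * f) * b k * f := by rw [hfr]
            _ = a k * (κ z * (f * b k * f)) := by simp only [mul_assoc]
            _ = a k * (f * b k * f * κ z) := by rw [hcomm z hz]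
            _ = a k * f * b k * (f * κ z) := by simp only [mul_assoc]
            _ = a k * f * b k * κ z := by rw [hfl]
      _ = κ z := by rw [← Finset.sum_mul, h1, one_mul]
  let Φ : Subalgebra.center K A' →ₗ[K] Subalgebra.center K A :=
    { toFun := fun z => ⟨psi κ a b z.1, hcen z.1 z.2⟩
      map_add' := by
        intro x y
        apply Subtype.ext
        show psi κ a b (x.1 + y.1) = psi κ a b x.1 + psi κ a b y.1
        rw [map_add]
      map_smul' := by
        intro r x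
        apply Subtype.ext
        show psi κ a b (r • x.1) = r • psi κ a b x.1
        rw [map_smul] }
  have hΦ : Function.Bijective Φ := by
    constructor
    · intro x y hxy
      apply Subtype.ext
      apply hinj
      have h' : psi κ a b x.1 = psi κ a b y.1 := congrArg Subtype.val hxy
      rw [← hres x.1 x.2, ← hres y.1 y.2, h']
    · intro z
      have hz : ∀ x, z.1 * x = x * z.1 := fun x => (Subalgebra.mem_center_iff.mp z.2 x).symm
      obtain ⟨z', hz'⟩ := him (z.1 * f) (by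
        rw [← mul_assoc f z.1 f, ← hz f, mul_assoc z.1 f f, hff, mul_assoc z.1 f f, hff])
      have hc' : z' ∈ Subalgebra.center K A' := by
        rw [Subalgebra.mem_center_iff]
        intro x
        apply hinj
        rw [hmul, hmul, hz', ← mul_assoc, ← hz (κ x), mul_assoc z.1 (κ x) f, hfr,
          mul_assoc z.1 f (κ x), hfl]
      refine ⟨⟨z', hc'⟩, ?_⟩
      apply Subtype.ext
      show psi κ a b z' = z.1
      rw [psi_apply]
      calc ∑ k, a k * κ z' * b k = ∑ k, z.1 * (a k * f * b k) := by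
            refine Finset.sum_congr rfl fun k _ => ?_
            rw [hz', ← mul_assoc (a k) z.1 f, ← hz (a k)]
            simp only [mul_assoc]
        _ = z.1 := by rw [← Finset.mul_sum, h1, mul_one]
  exact (LinearEquiv.ofBijective Φ hΦ).finrank_eq.symm

end corner

theorem czf (hRTK : RtkStmt) : CzfStmt := by
  intro K A X J Ω Ω' A' _ _ _ _ _ _ _ _ y l χ D f _ _ κ hff hyf ⟨a0, ha0⟩ hinj hmul hone him
  obtain ⟨-, -, h3, -, h5, -⟩ := hRTK K A X J Ω Ω' y l χ D.toYd
  have hRTadd : ∀ a b, D.RT (a + b) = D.RT a + D.RT b := by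
    intro a b
    unfold Yd.RT
    rw [← Finset.sum_add_distrib]
    refine Finset.sum_congr rfl fun r _ => ?_
    rw [mul_add, add_mul]
  have hwf : D.w = f * D.w * f + Tx y l (1 : K) (a0 * D.w + f * D.w * a0) := by
    have hfw : y * (f * D.w) = f * D.w * y := by
      rw [← mul_assoc, hyf, mul_assoc, D.wy, mul_assoc]
    rw [tx_add, ← tx_mul_right D.wy, ← tx_mul_left hfw, ← ha0, sub_mul, mul_sub, one_mul, mul_one]
    abel
  have hyw : y * (f * D.w * f) = f * D.w * f * y := by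
    have hfw : y * (f * D.w) = f * D.w * y := by
      rw [← mul_assoc, hyf, mul_assoc, D.wy, mul_assoc]
    rw [← mul_assoc, hfw, mul_assoc, hyf]
    simp only [mul_assoc]
  have hu : D.RT (f * D.w * f) = 1 - D.TA (a0 * D.w + f * D.w * a0) := by
    have h := hRTadd (f * D.w * f) (Tx y l (1 : K) (a0 * D.w + f * D.w * a0))
    rw [← hwf, D.rw, h5] at h
    rw [h, add_sub_cancel_right]
  have hunit : IsUnit (D.RT (f * D.w * f)) := by
    rw [hu]
    exact (D.np _).isUnit_one_sub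
  obtain ⟨U, hU⟩ := hunit
  have hcen : ∀ b, b * D.RT (f * D.w * f) = D.RT (f * D.w * f) * b := h3 _ hyw
  refine corner_center (N := Ω ⊕ (Ω' × Fin l)) f κ (fun r => (U⁻¹ : Aˣ) * D.e r)
    (fun r => D.w * f * D.e' r) hff hinj hmul hone him ?_
  calc ∑ r, (U⁻¹ : Aˣ) * D.e r * f * (D.w * f * D.e' r)
      = (U⁻¹ : Aˣ) * D.RT (f * D.w * f) := by
        unfold Yd.RT
        rw [Finset.mul_sum]
        refine Finset.sum_congr rfl fun r _ => ?_
        simp only [mul_assoc]
    _ = 1 := by rw [← hU, Units.inv_mul]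

end Pool.Agent.PFE.H55
end -- Pool.Agent.Helper55_PFE.CZF

section -- Pool.Agent.Helper55_PFE.TWT

/-!
# Squad PFE, row TWT: `1 - j pr` is a two-sided trace over `K[y]` (helper55)
-/

open scoped BigOperators

namespace Pool.Agent.PFE.H55

open Pool.Agent.PFE

section shift

variable {K M : Type} [Field K] [AddCommGroup M] [Module K M]

theorem sum_shift (l j : ℕ) (hj : j ≤ l) (F : ℕ → K) (G : ℕ → M) (hF : ∀ m, l ≤ m → F m = 0)
    (hG : ∀ m, l ≤ m → G m = 0) :
    ∑ i ∈ Finset.range l, F (l - 1 - i) • G (i + j) =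
      ∑ i ∈ Finset.range l, F (l - 1 - i + j) • G i := by
  rw [← Finset.sum_range_add_sum_Ico (fun i => F (l - 1 - i) • G (i + j)) (Nat.sub_le l j),
    ← Finset.sum_range_add_sum_Ico (fun i => F (l - 1 - i + j) • G i) hj,
    Finset.sum_Ico_eq_sum_range (fun i => F (l - 1 - i + j) • G i) j l]
  have h1 : ∑ i ∈ Finset.Ico (l - j) l, F (l - 1 - i) • G (i + j) = 0 := by
    refine Finset.sum_eq_zero fun i hi => ?_
    rw [hG (i + j) (by have := (Finset.mem_Ico.mp hi).1; omega), smul_zero]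
  have h2 : ∑ i ∈ Finset.range j, F (l - 1 - i + j) • G i = 0 := by
    refine Finset.sum_eq_zero fun i hi => ?_
    rw [hF (l - 1 - i + j) (by have := Finset.mem_range.mp hi; omega), zero_smul]
  rw [h1, h2, add_zero, zero_add]
  refine Finset.sum_congr rfl fun i hi => ?_
  have hi' := Finset.mem_range.mp hi
  rw [add_comm j i, show l - 1 - (i + j) + j = l - 1 - i by omega]

end shift

section pow

variable {K A : Type} [Field K] [Ring A] [Algebra K A]

/-- `g' y = c y g'` gives `y^m g' = c^(l-1-m) g' y^m` -/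
theorem pow_comm {y g' : A} {c : K} {l : ℕ} (hc : c ^ (l - 1) = 1) (h : g' * y = c • (y * g')) :
    ∀ m, m ≤ l - 1 → y ^ m * g' = c ^ (l - 1 - m) • (g' * y ^ m) := by
  have key : ∀ m, g' * y ^ m = c ^ m • (y ^ m * g') := by
    intro m
    induction m with
    | zero => rw [pow_zero, pow_zero, one_smul, mul_one, one_mul]
    | succ m ih =>
      rw [pow_succ, ← mul_assoc, ih, smul_mul_assoc, mul_assoc, h, mul_smul_comm, smul_smul,
        ← pow_succ, mul_assoc]
  intro m hm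
  rw [key m, smul_smul, ← pow_add, Nat.sub_add_cancel hm, hc, one_smul]

theorem twisted_part {y g' x a : A} {c : K} {l : ℕ} (lam : A →ₗ[K] K)
    (hs : ∀ a b, lam (a * b) = lam (b * a)) (hc : c ^ (l - 1) = 1) (hl : y ^ l = 0)
    (h : g' * y = c • (y * g')) :
    ∑ i ∈ Finset.range l, lam (g' * y ^ (l - 1 - i) * a) • (y ^ i * Tx y l c x) =
      ∑ i ∈ Finset.range l, ∑ k ∈ Finset.range l,
        lam (g' * (y ^ (l - 1 - i) * a * y ^ (l - 1 - k))) • (y ^ i * x * y ^ k) := by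
  have hz : ∀ m, l ≤ m → y ^ m = 0 := fun m hm => pow_eq_zero_of_le hm hl
  have e1 : ∀ i ∈ Finset.range l, ∀ k ∈ Finset.range l,
      lam (g' * (y ^ (l - 1 - i) * a * y ^ (l - 1 - k))) • (y ^ i * x * y ^ k) =
        c ^ k • (lam (g' * y ^ (l - 1 - i + (l - 1 - k)) * a) • (y ^ i * x * y ^ k)) := by
    intro i _ k hk
    have hk' := Finset.mem_range.mp hk
    have e : lam (g' * (y ^ (l - 1 - i) * a * y ^ (l - 1 - k))) =
        c ^ k * lam (g' * y ^ (l - 1 - i + (l - 1 - k)) * a) := by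
      rw [show g' * (y ^ (l - 1 - i) * a * y ^ (l - 1 - k)) =
        (g' * (y ^ (l - 1 - i) * a)) * y ^ (l - 1 - k) by simp only [mul_assoc], hs,
        ← mul_assoc, pow_comm hc h (l - 1 - k) (Nat.sub_le _ _), smul_mul_assoc, map_smul,
        smul_eq_mul, show l - 1 - (l - 1 - k) = k by omega, add_comm (l - 1 - i), pow_add]
      simp only [mul_assoc]
    rw [e, mul_smul]
  rw [Finset.sum_congr rfl fun i hi => Finset.sum_congr rfl (e1 i hi), Finset.sum_comm]
  have e2 : ∀ k ∈ Finset.range l,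
      ∑ i ∈ Finset.range l, c ^ k • (lam (g' * y ^ (l - 1 - i + (l - 1 - k)) * a) •
        (y ^ i * x * y ^ k)) =
      ∑ i ∈ Finset.range l, lam (g' * y ^ (l - 1 - i) * a) •
        (y ^ i * (c ^ k • (y ^ (l - 1 - k) * x * y ^ k))) := by
    intro k hk
    rw [← Finset.smul_sum,
      ← sum_shift l (l - 1 - k) (by omega) (fun m => lam (g' * y ^ m * a))
        (fun m => y ^ m * x * y ^ k) (fun m hm => by
          show lam (g' * y ^ m * a) = 0
          rw [hz m hm, mul_zero, zero_mul, map_zero]) (fun m hm => by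
          show y ^ m * x * y ^ k = 0
          rw [hz m hm, zero_mul, zero_mul]), Finset.smul_sum]
    refine Finset.sum_congr rfl fun i _ => ?_
    show c ^ k • (lam (g' * y ^ (l - 1 - i) * a) • (y ^ (i + (l - 1 - k)) * x * y ^ k)) = _
    rw [smul_comm, mul_smul_comm, pow_add]
    simp only [mul_assoc]
  rw [Finset.sum_congr rfl e2, Finset.sum_comm]
  refine Finset.sum_congr rfl fun i _ => ?_
  rw [← Finset.smul_sum, ← Finset.mul_sum]
  congr 2
  unfold Tx
  rw [← Finset.sum_range_reflect]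
  refine Finset.sum_congr rfl fun j hj => ?_
  have hj' := Finset.mem_range.mp hj
  rw [show l - 1 - (l - 1 - j) = j by omega]

end pow

theorem twt (hKNX : KnxStmt) : TwtStmt := by
  intro K A X S J Ω Ω' C _ _ _ _ _ _ _ _ _ _ _ _ y l χ D L F E pr hp1 hp2 hp3
  -- `q = 1 - j pr`
  let q : A →ₗ[K] A := LinearMap.id - E.j.toLinearMap ∘ₗ pr
  have hq : ∀ a, q a = a - E.j (pr a) := fun a => rfl
  have hjy : ∀ i, E.j (E.Q.y ^ i) = y ^ i := by
    intro i
    rw [map_pow, E.jy]
  have hql : ∀ i a, q (y ^ i * a) = y ^ i * q a := by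
    intro i a
    have h := hp2 (E.Q.y ^ i) a
    rw [hjy i] at h
    rw [hq, hq, h, map_mul, hjy i, mul_sub]
  have hqr : ∀ i a, q (a * y ^ i) = q a * y ^ i := by
    intro i a
    have h := hp3 a (E.Q.y ^ i)
    rw [hjy i] at h
    rw [hq, hq, h, map_mul, hjy i, sub_mul]
  have hknx : ∀ o, ∃ x, q (D.g o) = Tx y l (χ (D.deg o)) x := fun o =>
    hKNX K A X S J Ω Ω' C y l χ D L F E pr hp1 hp2 hp3 (D.deg o) (D.g o) (D.gy o)
  choose x hx using hknx
  let ψ : A →ₗ[K] A :=
    (∑ o, ((D.d.lam ∘ₗ LinearMap.mulLeft K (D.g' o)).smulRight (x o))) +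
      ∑ o, ((D.d.lam ∘ₗ LinearMap.mulLeft K (D.h' o)).smulRight (q (D.h o)))
  have hψ : ∀ z, ψ z = (∑ o, D.d.lam (D.g' o * z) • x o) +
      ∑ o, D.d.lam (D.h' o * z) • q (D.h o) := by
    intro z
    show ((∑ o, ((D.d.lam ∘ₗ LinearMap.mulLeft K (D.g' o)).smulRight (x o))) +
      ∑ o, ((D.d.lam ∘ₗ LinearMap.mulLeft K (D.h' o)).smulRight (q (D.h o)))) z = _
    rw [LinearMap.add_apply, LinearMap.sum_apply, LinearMap.sum_apply]
    rfl
  refine ⟨ψ, fun a => ?_⟩
  have e1 : q a = (∑ o, ∑ i ∈ Finset.range l, D.d.lam (D.g' o * y ^ (l - 1 - i) * a) •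
      (y ^ i * Tx y l (χ (D.deg o)) (x o))) +
    ∑ o, ∑ i ∈ Finset.range l, ∑ k ∈ Finset.range l,
      D.d.lam (D.h' o * (y ^ (l - 1 - i) * a * y ^ (l - 1 - k))) • (y ^ i * q (D.h o) * y ^ k) := by
    conv_lhs => rw [← D.fr a]
    rw [map_add, map_sum, map_sum]
    congr 1
    · refine Finset.sum_congr rfl fun o _ => ?_
      rw [map_sum]
      refine Finset.sum_congr rfl fun i _ => ?_
      rw [map_smul, hql, hx]
    · refine Finset.sum_congr rfl fun o _ => ?_
      rw [map_sum]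
      refine Finset.sum_congr rfl fun i _ => ?_
      rw [map_sum]
      refine Finset.sum_congr rfl fun k _ => ?_
      rw [map_smul, hqr, hql]
  have e2 : ∑ i ∈ Finset.range l, ∑ k ∈ Finset.range l,
      y ^ i * ψ (y ^ (l - 1 - i) * a * y ^ (l - 1 - k)) * y ^ k =
      (∑ o, ∑ i ∈ Finset.range l, ∑ k ∈ Finset.range l,
        D.d.lam (D.g' o * (y ^ (l - 1 - i) * a * y ^ (l - 1 - k))) • (y ^ i * x o * y ^ k)) +
      ∑ o, ∑ i ∈ Finset.range l, ∑ k ∈ Finset.range l,
        D.d.lam (D.h' o * (y ^ (l - 1 - i) * a * y ^ (l - 1 - k))) •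
          (y ^ i * q (D.h o) * y ^ k) := by
    rw [Finset.sum_comm (s := (Finset.univ : Finset Ω)), Finset.sum_comm
      (s := (Finset.univ : Finset Ω')), ← Finset.sum_add_distrib]
    refine Finset.sum_congr rfl fun i _ => ?_
    rw [Finset.sum_comm (s := (Finset.univ : Finset Ω)), Finset.sum_comm
      (s := (Finset.univ : Finset Ω')), ← Finset.sum_add_distrib]
    refine Finset.sum_congr rfl fun k _ => ?_
    rw [hψ, mul_add, add_mul, Finset.mul_sum, Finset.sum_mul, Finset.mul_sum, Finset.sum_mul]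
    congr 1
    · refine Finset.sum_congr rfl fun o _ => ?_
      rw [mul_smul_comm, smul_mul_assoc]
    · refine Finset.sum_congr rfl fun o _ => ?_
      rw [mul_smul_comm, smul_mul_assoc]
  rw [← hq a, e1, e2]
  congr 1
  refine Finset.sum_congr rfl fun o _ => ?_
  exact twisted_part D.d.lam D.ds (D.χl (D.deg o)) D.yl (D.g'y o)

end Pool.Agent.PFE.H55
end -- Pool.Agent.Helper55_PFE.TWT

section -- Pool.Agent.Helper56_PFE.LYE

/-! Squad PFE, row LYE: the lift exists (assembly). -/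

set_option autoImplicit false

namespace Pool.Agent.PFE.H56

open Pool.Agent.PFE Pool.Agent.PFD.D2
open Pool.Agent.PFC.B1 (Sep)

/-- LYE -/
theorem lye (xex : XexStmt) (xrd : XrdStmt) (lfy : LfyStmt) (spy : SpyStmt) (fra : FraStmt)
    (exx : ExxStmt) : LyeStmt := by
  intro R F Γ Γ0 W A X N K Ω Ω' _ _ _ _ c _ _ _ _ _ _ _ _ _ _ _ _ _ _ _ _ _ l G G0 f χ χ0 fl
    h2 hfy hfw hκ hχ hχ'
  have hl : 1 ≤ l := by omega
  obtain ⟨M, _, _, _, _, BX, FX, hdeg⟩ := xex R Γ W X Ω Ω' l G χ fl.fr.deg hl fl.fr.dg fl.fr.fo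
    fl.fr.fo'
  obtain ⟨M0, _, _, _, _, B0, F0, hdeg0⟩ := xex F Γ0 W X Ω Ω' l G0 χ0 fl.fr.deg hl fl.fr.dg
    fl.fr.fo fl.fr.fo'
  obtain ⟨fm⟩ := xrd R F Γ Γ0 W X Ω Ω' M M0 c l G G0 f χ χ0 BX B0 FX F0 hl hfy hfw hκ
    (hdeg.trans hdeg0.symm)
  have lft := lfy R Γ W M X Ω Ω' l G χ BX FX.toYFr c.π h2 hχ hχ'
  obtain ⟨sp0, hj, hpr⟩ := spy F Γ0 W A M0 X Ω Ω' l G0 χ0 fl.j fl.pr fl.fr B0 F0 hl fl.pr_j
    fl.pr_l fl.pr_r hdeg0.symm
  have sep : Sep Γ0 A K sp0.j.toRingHom := hj ▸ fl.sep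
  obtain ⟨A', _, _, _, _, ⟨df⟩⟩ := exx R F Γ Γ0 A M M0 K c f BX B0 fm lft sp0 sep
  obtain ⟨Ω1, Ω1', _, _, _, _, ly⟩ := fra R F Γ Γ0 W A A' X M M0 Ω Ω' c l G χ f BX B0 sp0
    FX.toYFr df hl
  rw [hj, hpr] at ly
  exact ⟨A', _, _, inferInstance, inferInstance, Ω1, Ω1', _, _, _, _, ly⟩

end Pool.Agent.PFE.H56
end -- Pool.Agent.Helper56_PFE.LYE

section -- Pool.Agent.Helper58_PFE.RHO

/-! Squad PFE, part E1, row RHO: the multiplicative section of the local algebra. -/

set_option autoImplicit false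

open scoped BigOperators

noncomputable section

namespace Pool.Agent.PFE.H58

open Pool.Agent.PFE Pool.Agent.PFC.B1

section sec

variable {K A X S : Type} [Field K] [Ring A] [Algebra K A] [Group X] [Fintype X] [Ring S]
    [Algebra K S] {y : A} {l : ℕ} {χ : X →* K} (L : LS K A X S y l χ)

/-- a graded linear section with `1 ↦ 1` -/
def Good (ρ : S →ₗ[K] A) : Prop :=
  ρ 1 = 1 ∧ ∃ h : ∀ x s, ρ (L.c x s) ∈ Nx y χ x,
    ∀ x s, L.p x ⟨ρ (L.c x s), h x s⟩ = L.c x s

variable {L}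

theorem Good.mem {ρ : S →ₗ[K] A} (hρ : Good L ρ) {x : X} {s : S} (hs : L.c x s = s) :
    ρ s ∈ Nx y χ x := by
  obtain ⟨_, h, _⟩ := hρ
  rw [← hs]
  exact h x s

theorem Good.p_eq {ρ : S →ₗ[K] A} (hρ : Good L ρ) {x : X} {s : S} (hs : L.c x s = s)
    (hm : ρ s ∈ Nx y χ x) : L.p x ⟨ρ s, hm⟩ = s := by
  obtain ⟨_, h, hp⟩ := hρ
  have h1 := hp x s
  have h2 : (⟨ρ s, hm⟩ : Nx y χ x) = ⟨ρ (L.c x s), h x s⟩ := Subtype.ext (by
    show ρ s = ρ (L.c x s)
    rw [hs])
  rw [h2, h1, hs]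

theorem Good.defect {ρ : S →ₗ[K] A} (hρ : Good L ρ) {x x' : X} {a b : S} (ha : L.c x a = a)
    (hb : L.c x' b = b) : ρ (a * b) - ρ a * ρ b ∈ Jx y l χ (x * x') := by
  have hab : L.c (x * x') (a * b) = a * b := by
    have h := L.cm x x' a b
    rw [ha, hb] at h
    exact h
  have h1 := hρ.mem hab
  have h2 := hρ.mem ha
  have h3 := hρ.mem hb
  have h4 : (⟨ρ (a * b) - ρ a * ρ b, Submodule.sub_mem _ h1 (Nx_mul h2 h3)⟩ : Nx y χ (x * x')) =
      ⟨ρ (a * b), h1⟩ - ⟨ρ a * ρ b, Nx_mul h2 h3⟩ := rfl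
  refine (L.ker (x * x') ⟨ρ (a * b) - ρ a * ρ b, Submodule.sub_mem _ h1 (Nx_mul h2 h3)⟩).1 ?_
  rw [h4, map_sub, hρ.p_eq hab h1]
  have h5 := L.mul x x' ⟨ρ a, h2⟩ ⟨ρ b, h3⟩
  rw [hρ.p_eq ha h2, hρ.p_eq hb h3] at h5
  rw [← h5, sub_self]

/-- a graded change by elements of the ideal keeps the section -/
theorem Good.change {ρ ψ : S →ₗ[K] A} (hρ : Good L ρ)
    (hJN : ∀ x b, b ∈ Jx y l χ x → b ∈ Nx y χ x) (h1 : ψ 1 = 1)
    (hψ : ∀ x s, L.c x s = s → ψ s - ρ s ∈ Jx y l χ x) : Good L ψ := by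
  have hm : ∀ x s, ψ (L.c x s) ∈ Nx y χ x := by
    intro x s
    have h2 := hJN _ _ (hψ x (L.c x s) (L.ci x s))
    have h3 := hρ.mem (L.ci x s)
    have h4 : ψ (L.c x s) = (ψ (L.c x s) - ρ (L.c x s)) + ρ (L.c x s) := by abel
    rw [h4]
    exact Submodule.add_mem _ h2 h3
  refine ⟨h1, hm, fun x s => ?_⟩
  have h2 := hψ x (L.c x s) (L.ci x s)
  have h3 := hρ.mem (L.ci x s)
  have h4 : (⟨ψ (L.c x s), hm x s⟩ : Nx y χ x) =
      ⟨ψ (L.c x s) - ρ (L.c x s), hJN _ _ h2⟩ + ⟨ρ (L.c x s), h3⟩ :=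
    Subtype.ext (by
      show ψ (L.c x s) = (ψ (L.c x s) - ρ (L.c x s)) + ρ (L.c x s)
      abel)
  rw [h4, map_add, (L.ker x ⟨ψ (L.c x s) - ρ (L.c x s), hJN _ _ h2⟩).2 h2, zero_add,
    hρ.p_eq (L.ci x s) h3]

end sec

/-- the Casimir element -/
theorem casimir {K S Ω A : Type} [Field K] [Ring S] [Algebra K S] [Fintype Ω] [AddCommGroup A]
    [Module K A] (f : FS K S Ω) (B : S →ₗ[K] S →ₗ[K] A) (a : S) :
    ∑ k, B (f.b k) (f.b' k * a) = ∑ k, B (a * f.b k) (f.b' k) := by
  have h1 : ∀ k, B (a * f.b k) (f.b' k) =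
      ∑ j, f.lam (f.b' j * (a * f.b k)) • B (f.b j) (f.b' k) := by
    intro k
    conv_lhs => rw [← f.h1 (a * f.b k)]
    rw [map_sum, LinearMap.sum_apply]
    refine Finset.sum_congr rfl fun j _ => ?_
    rw [map_smul, LinearMap.smul_apply]
  have h2 : ∀ j, B (f.b j) (f.b' j * a) =
      ∑ k, f.lam (f.b' j * (a * f.b k)) • B (f.b j) (f.b' k) := by
    intro j
    conv_lhs => rw [← f.h2 (f.b' j * a)]
    rw [map_sum]
    refine Finset.sum_congr rfl fun k _ => ?_
    rw [map_smul, mul_assoc]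
  simp only [h1, h2]
  exact Finset.sum_comm

theorem rho (hlsc : LscStmt) (hnws : NwsStmt) (hjpr : JprStmt) (htxa : TxaStmt) : RhoStmt := by
  intro K A X S J Ω Ω' _ _ _ _ _ _ _ _ _ _ y l χ D L F hM
  have hl : 1 ≤ l := le_trans (by norm_num) D.hl
  obtain ⟨hJ1, hJ2, hJ3, hJ4⟩ := hjpr K A X y l χ hl D.yl D.χl
  obtain ⟨_, _, _, hT4, hT5⟩ := htxa K A X y l χ hl D.yl D.χl
  obtain ⟨ρ0, hρ01, hρ0, hρ0p⟩ := hlsc K A X S y l χ L hl D.yl D.χl hM
  have hg0 : Good L ρ0 := ⟨hρ01, hρ0, hρ0p⟩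
  -- decomposition into homogeneous parts
  have hdec : ∀ (ρ : S →ₗ[K] A) (s : S), ρ s = ∑ x, ρ (L.c x s) := by
    intro ρ s
    rw [← map_sum, L.cs]
  have main : ∀ n : ℕ, ∃ ρ : S →ₗ[K] A, Good L ρ ∧ ∀ a b, ρ (a * b) - ρ a * ρ b ∈
      JP y l χ (2 ^ n) := by
    intro n
    induction n with
    | zero =>
      refine ⟨ρ0, hg0, fun a b => ?_⟩
      have h1 : ρ0 (a * b) - ρ0 a * ρ0 b = ∑ x, ∑ x', (ρ0 (L.c x a * L.c x' b) -
          ρ0 (L.c x a) * ρ0 (L.c x' b)) := by
        have h2 : a * b = ∑ x, ∑ x', L.c x a * L.c x' b := by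
          rw [← Finset.sum_mul_sum, L.cs, L.cs]
        rw [h2, hdec ρ0 a, hdec ρ0 b, Finset.sum_mul_sum, map_sum, ← Finset.sum_sub_distrib]
        refine Finset.sum_congr rfl fun x _ => ?_
        rw [map_sum, ← Finset.sum_sub_distrib]
      rw [h1, pow_zero]
      exact Submodule.sum_mem _ fun x _ => Submodule.sum_mem _ fun x' _ =>
        hJ1 _ _ (hg0.defect (L.ci x a) (L.ci x' b))
    | succ n ih =>
      obtain ⟨ρ, hg, hD⟩ := ih
      have hone : (1 : ℕ) ≤ 2 ^ n := Nat.one_le_two_pow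
      have hu : ∀ o, L.c (F.deg o) (F.f.b o * F.w) = F.f.b o * F.w := by
        intro o
        have h := L.cm (F.deg o) 1 (F.f.b o) F.w
        rw [mul_one, F.gb, F.w1] at h
        exact h
      obtain ⟨ψ, hψ, hψ1, hψm⟩ := hnws K A S Ω (fun o => F.f.b o * F.w) (fun o => F.f.b' o)
        (JP y l χ (2 ^ n)) (JP y l χ (2 ^ (n + 1))) ρ F.sep
        (by
          intro B a
          have h := casimir F.f (B.comp (LinearMap.mulRight K F.w)) a
          simp only [LinearMap.comp_apply, LinearMap.mulRight_apply] at h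
          rw [h]
          exact Finset.sum_congr rfl fun k _ => by rw [mul_assoc])
        hg.1 hD
        (by
          intro a p hp
          rw [hdec ρ a, Finset.sum_mul]
          exact Submodule.sum_mem _ fun x _ => hJ3 _ x _ _ hone (hg.mem (L.ci x a)) hp)
        (by
          intro p q hp hq
          have h := hJ2 _ _ _ _ hp hq
          rw [pow_succ, mul_two]
          exact h)
      refine ⟨ψ, hg.change hT4 hψ1 ?_, hψm⟩
      intro x s hs
      rw [hψ, add_sub_cancel_left]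
      refine Submodule.sum_mem _ fun o _ => ?_
      have h1 := hg.mem (hu o)
      have h2 := hg.defect (F.gb' o) hs
      have h3 := (hT5 _ _ _ _ h1 h2).1
      rw [mul_inv_cancel_left] at h3
      exact h3
  obtain ⟨M, hM⟩ := hM
  obtain ⟨n, hn⟩ : ∃ n : ℕ, M ≤ 2 ^ n := ⟨M, (Nat.lt_two_pow_self).le⟩
  obtain ⟨ρ, hg, hD⟩ := main n
  have hmul : ∀ a b, ρ (a * b) = ρ a * ρ b := by
    intro a b
    have h := hD a b
    rw [hJ4 M _ hn hM, Submodule.mem_bot] at h
    exact sub_eq_zero.1 h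
  obtain ⟨h1, hm, hp⟩ := hg
  exact ⟨⟨AlgHom.ofLinearMap ρ h1 hmul, hm, hp⟩⟩

end Pool.Agent.PFE.H58
end
end -- Pool.Agent.Helper58_PFE.RHO

section -- Pool.Agent.Helper58_PFE.SPC

/-! Squad PFE, part E1, row SPC: `A` splits over `C` with a projective complement. -/

set_option autoImplicit false

open scoped BigOperators

noncomputable section

namespace Pool.Agent.PFE.H58

open Pool.Agent.PFE Pool.Agent.PFC.B1

/-- `σ` is the identity in degree `1`. -/
theorem sg_deg_one {K S X : Type} [Field K] [Ring S] [Algebra K S] [Group X] [Fintype X]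
    (G : GS K S X) (χ : X →* K) (w : S) (hw : G.c 1 w = w) : G.sg χ w = w := by
  classical
  unfold GS.sg
  rw [LinearMap.sum_apply, Finset.sum_eq_single 1]
  · rw [LinearMap.smul_apply, map_one, one_smul, hw]
  · intro x _ hx
    rw [LinearMap.smul_apply, ← hw, G.co x 1 w hx, smul_zero]
  · intro h
    exact absurd (Finset.mem_univ _) h

theorem spc (hcuf : CufStmt) (hprj : PrjStmt) (htwt : TwtStmt) : SpcStmt := by
  intro K A X S J Ω Ω' C _ _ _ _ _ _ _ _ _ _ _ _ y l χ D L F E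
  obtain ⟨_, _, c, hc1, hc2, hc3, _⟩ := hcuf K A X S J Ω Ω' C y l χ D L F E
  obtain ⟨pr, hp1, hp2, hp3, hp4⟩ := hprj K A X S J Ω Ω' C y l χ D L F E
  obtain ⟨ψ, hψ⟩ := htwt K A X S J Ω Ω' C y l χ D L F E pr hp1 hp2 hp3
  have hjuu : E.j E.u * E.j E.u' = 1 := by rw [← map_mul, E.uu, map_one]
  set ρ : S → A := fun s => E.j (E.Q.i s) with hρ
  set W : A := ρ F.w with hW
  have hsep : ∑ o, ρ (F.f.b o) * W * ρ (F.f.b' o) = 1 := by
    have h := congrArg (fun s => E.j (E.Q.i s)) F.sep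
    simp only [map_sum, map_mul, map_one] at h
    exact h
  have hyW : ∀ k : ℕ, W * y ^ k = y ^ k * W := by
    have h1 : y * W = W * y := by
      have h := congrArg E.j (E.Q.ys F.w)
      rw [sg_deg_one L.toGS χ F.w F.w1, map_mul, map_mul, E.jy] at h
      exact h
    intro k
    have h2 : Commute W (y ^ k) := Commute.pow_right (Eq.symm h1) k
    exact h2
  have hB : ∀ p : Ω × Fin l, E.j (c.b p) = ρ (F.f.b p.1) * y ^ (p.2 : ℕ) := by
    intro p
    rw [hc2, map_mul, map_pow, E.jy]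
  have hB' : ∀ p : Ω × Fin l, E.j (c.b' p) = E.j E.u' * (y ^ (l - 1 - (p.2 : ℕ)) * ρ (F.f.b' p.1)) := by
    intro p
    rw [hc3, map_mul, map_mul, map_pow, E.jy]
  have hq : ∀ x, x - E.j (pr x) = ∑ o, ∑ o', ρ (F.f.b o) * W *
      (ρ (F.f.b' o) * x * ρ (F.f.b o') * W - E.j (pr (ρ (F.f.b' o) * x * ρ (F.f.b o') * W))) *
      ρ (F.f.b' o') := by
    intro x
    have h1 : ∀ o o', ρ (F.f.b o) * W *
      (ρ (F.f.b' o) * x * ρ (F.f.b o') * W - E.j (pr (ρ (F.f.b' o) * x * ρ (F.f.b o') * W))) *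
      ρ (F.f.b' o') = (ρ (F.f.b o) * W * ρ (F.f.b' o)) * (x - E.j (pr x)) *
        (ρ (F.f.b o') * W * ρ (F.f.b' o')) := by
      intro o o'
      have h2 : pr (ρ (F.f.b' o) * x * ρ (F.f.b o') * W) =
          E.Q.i (F.f.b' o) * pr x * E.Q.i (F.f.b o') * E.Q.i F.w := by
        rw [hW, hρ]
        simp only []
        rw [hp3, hp3, hp2]
      rw [h2]
      simp only [map_mul]
      show ρ (F.f.b o) * W * (ρ (F.f.b' o) * x * ρ (F.f.b o') * W - ρ (F.f.b' o) * E.j (pr x) *
        ρ (F.f.b o') * W) * ρ (F.f.b' o') = _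
      noncomm_ring
    calc x - E.j (pr x) = 1 * (x - E.j (pr x)) * 1 := by rw [one_mul, mul_one]
      _ = (∑ o, ρ (F.f.b o) * W * ρ (F.f.b' o)) * (x - E.j (pr x)) *
          (∑ o', ρ (F.f.b o') * W * ρ (F.f.b' o')) := by rw [hsep]
      _ = ∑ o, ∑ o', (ρ (F.f.b o) * W * ρ (F.f.b' o)) * (x - E.j (pr x)) *
          (ρ (F.f.b o') * W * ρ (F.f.b' o')) := by
        rw [Finset.sum_mul, Finset.sum_mul]
        exact Finset.sum_congr rfl fun o _ => Finset.mul_sum _ _ _
      _ = _ := Finset.sum_congr rfl fun o _ => Finset.sum_congr rfl fun o' _ => (h1 o o').symm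
  let a : A →ₗ[K] A := (LinearMap.mulRight K (E.j E.u)).comp ((LinearMap.mulLeft K W).comp
    (ψ.comp ((LinearMap.mulRight K W).comp (LinearMap.mulLeft K (E.j E.u)))))
  have ha : ∀ z, a z = W * ψ (E.j E.u * z * W) * E.j E.u := fun z => rfl
  have hterm : ∀ (x : A) (p p' : Ω × Fin l), E.j (c.b p) * a (E.j (c.b' p) * x * E.j (c.b p')) *
      E.j (c.b' p') = ρ (F.f.b p.1) * W * (y ^ (p.2 : ℕ) * ψ (y ^ (l - 1 - (p.2 : ℕ)) *
        (ρ (F.f.b' p.1) * x * ρ (F.f.b p'.1) * W) * y ^ (p'.2 : ℕ)) * y ^ (l - 1 - (p'.2 : ℕ))) *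
        ρ (F.f.b' p'.1) := by
    intro x p p'
    rw [ha, hB, hB', hB, hB']
    have h1 : E.j E.u * (E.j E.u' * (y ^ (l - 1 - (p.2 : ℕ)) * ρ (F.f.b' p.1)) * x *
        (ρ (F.f.b p'.1) * y ^ (p'.2 : ℕ))) * W = y ^ (l - 1 - (p.2 : ℕ)) *
        (ρ (F.f.b' p.1) * x * ρ (F.f.b p'.1) * W) * y ^ (p'.2 : ℕ) := by
      calc _ = (E.j E.u * E.j E.u') * (y ^ (l - 1 - (p.2 : ℕ)) * ρ (F.f.b' p.1) * x *
            ρ (F.f.b p'.1)) * (y ^ (p'.2 : ℕ) * W) := by noncomm_ring
        _ = _ := by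
          rw [hjuu, ← hyW]
          noncomm_ring
    rw [h1]
    calc _ = ρ (F.f.b p.1) * (y ^ (p.2 : ℕ) * W) * ψ (y ^ (l - 1 - (p.2 : ℕ)) *
        (ρ (F.f.b' p.1) * x * ρ (F.f.b p'.1) * W) * y ^ (p'.2 : ℕ)) * (E.j E.u * E.j E.u') *
        (y ^ (l - 1 - (p'.2 : ℕ)) * ρ (F.f.b' p'.1)) := by simp only [mul_assoc]
      _ = _ := by
        rw [hjuu, ← hyW]
        simp only [mul_assoc, one_mul]
  refine ⟨c, ⟨E.j, pr, hp1, hp2, hp3, a, ?_⟩, hc1, rfl, hp4⟩
  intro x
  have hl : 2 ≤ l := D.hl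
  have h3 : ∀ z : A, z - E.j (pr z) = ∑ i : Fin l, ∑ k : Fin l,
      y ^ (i : ℕ) * ψ (y ^ (l - 1 - (i : ℕ)) * z * y ^ (k : ℕ)) * y ^ (l - 1 - (k : ℕ)) := by
    intro z
    rw [hψ z, Finset.sum_range (fun i => ∑ k ∈ Finset.range l,
      y ^ i * ψ (y ^ (l - 1 - i) * z * y ^ (l - 1 - k)) * y ^ k)]
    refine Finset.sum_congr rfl fun i _ => ?_
    rw [← Finset.sum_range_reflect, Finset.sum_range]
    refine Finset.sum_congr rfl fun k _ => ?_
    have hk : l - 1 - (l - 1 - (k : ℕ)) = (k : ℕ) := by omega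
    rw [hk]
  rw [hq x, Fintype.sum_prod_type]
  refine Finset.sum_congr rfl fun o _ => ?_
  have h4 : ∀ o' : Ω, ρ (F.f.b o) * W *
      (ρ (F.f.b' o) * x * ρ (F.f.b o') * W - E.j (pr (ρ (F.f.b' o) * x * ρ (F.f.b o') * W))) *
      ρ (F.f.b' o') = ∑ i : Fin l, ∑ k : Fin l, ρ (F.f.b o) * W * (y ^ (i : ℕ) *
        ψ (y ^ (l - 1 - (i : ℕ)) * (ρ (F.f.b' o) * x * ρ (F.f.b o') * W) * y ^ (k : ℕ)) *
        y ^ (l - 1 - (k : ℕ))) * ρ (F.f.b' o') := by
    intro o'
    rw [h3, Finset.mul_sum, Finset.sum_mul]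
    refine Finset.sum_congr rfl fun i _ => ?_
    rw [Finset.mul_sum, Finset.sum_mul]
  simp only [h4]
  refine Eq.trans ?_ Finset.sum_comm
  refine Finset.sum_congr rfl fun i _ => ?_
  rw [Fintype.sum_prod_type]
  refine Finset.sum_congr rfl fun o' _ => ?_
  exact Finset.sum_congr rfl fun k _ => hterm x (o, i) (o', k)

end Pool.Agent.PFE.H58
end
end -- Pool.Agent.Helper58_PFE.SPC

section -- Pool.Agent.Helper62_PFE.FSY

/-!
# Squad PFE, part E2, row FSY: the Frobenius system of `A1`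
-/

set_option autoImplicit false

open scoped BigOperators

noncomputable section

namespace Pool.Agent.PFE.H62

open MulOpposite
open Pool.Agent.PFC.B1 (FS Split BiM Sep)
open Pool.Agent.PFD (RF)
open Pool.Agent.PFD.D2
open Pool.Agent.PFD.D2b (wrp FPl FrR WFS)
open Pool.Agent.PFE

theorem fsy (hG : GwfStmt) : FsyStmt := by
  intro R F Γ Γ0 W A A1 X N Ω Ω' _ _ c _ _ _ _ _ _ _ _ _ _ _ _ _ _ _ _ l G f χ j0 pr0 lz hl
  obtain ⟨D, hlam, -, -, -⟩ := hG R Γ W l G hl
  have hfl : D.fs.lam = G.co (l - 1) 1 := hlam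
  have hu : ∀ γ : Γ, lz.u * (lz.u' * γ) = γ := by
    intro γ; rw [← mul_assoc, lz.uu, one_mul]
  have hu' : ∀ γ : Γ, lz.u' * (lz.u * γ) = γ := by
    intro γ; rw [← mul_assoc, mul_comm lz.u' lz.u, lz.uu, one_mul]
  refine ⟨⟨lz.tA, fun p => lz.rf.x p.1 * lz.j (D.fs.b p.2),
    fun p => lz.j (lz.u' * D.fs.b' p.2) * lz.rf.y p.1, ?_, ?_⟩, rfl⟩
  · intro a
    have e : ∀ (k : N) (s : Fin l × W),
        lz.tA (lz.j (lz.u' * D.fs.b' s) * lz.rf.y k * a) • (lz.rf.x k * lz.j (D.fs.b s)) =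
          lz.rf.x k * lz.j (D.fs.lam (D.fs.b' s * lz.pr (lz.rf.y k * a)) • D.fs.b s) := by
      intro k s
      have e1 : lz.tA (lz.j (lz.u' * D.fs.b' s) * lz.rf.y k * a) =
          D.fs.lam (D.fs.b' s * lz.pr (lz.rf.y k * a)) := by
        rw [lz.ort, hfl, mul_assoc (lz.j (lz.u' * D.fs.b' s)), lz.pr_l, mul_assoc lz.u', hu]
      rw [e1, map_smul, mul_smul_comm]
    rw [Fintype.sum_prod_type]
    simp only [e]
    have e2 : ∀ k : N, ∑ s : Fin l × W,
        lz.rf.x k * lz.j (D.fs.lam (D.fs.b' s * lz.pr (lz.rf.y k * a)) • D.fs.b s) =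
          lz.rf.x k * lz.j (lz.pr (lz.rf.y k * a)) := by
      intro k
      rw [← Finset.mul_sum, ← map_sum, D.fs.h1]
    rw [Finset.sum_congr rfl (fun k _ => e2 k)]
    exact lz.rf.e1 a
  · intro a
    have e : ∀ (k : N) (s : Fin l × W),
        lz.tA (a * (lz.rf.x k * lz.j (D.fs.b s))) • (lz.j (lz.u' * D.fs.b' s) * lz.rf.y k) =
          lz.j (lz.u' * (D.fs.lam (lz.u * lz.pr (a * lz.rf.x k) * D.fs.b s) • D.fs.b' s)) *
            lz.rf.y k := by
      intro k s
      have e1 : lz.tA (a * (lz.rf.x k * lz.j (D.fs.b s))) =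
          D.fs.lam (lz.u * lz.pr (a * lz.rf.x k) * D.fs.b s) := by
        rw [lz.ort, hfl, ← mul_assoc a, lz.pr_r, mul_assoc lz.u]
      rw [e1, mul_smul_comm, map_smul, smul_mul_assoc]
    rw [Fintype.sum_prod_type]
    simp only [e]
    have e2 : ∀ k : N, ∑ s : Fin l × W,
        lz.j (lz.u' * (D.fs.lam (lz.u * lz.pr (a * lz.rf.x k) * D.fs.b s) • D.fs.b' s)) *
            lz.rf.y k = lz.j (lz.pr (a * lz.rf.x k)) * lz.rf.y k := by
      intro k
      rw [← Finset.sum_mul, ← map_sum, ← Finset.mul_sum, D.fs.h2, hu']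
    rw [Finset.sum_congr rfl (fun k _ => e2 k)]
    exact lz.rf.e2 a

end Pool.Agent.PFE.H62
end
end -- Pool.Agent.Helper62_PFE.FSY

section -- Pool.Agent.Helper62_PFE.LHY

/-!
# Squad PFE, part E2, row LHY: bimodule homomorphisms modulo `p` lift
-/

set_option autoImplicit false

open scoped BigOperators

noncomputable section

namespace Pool.Agent.PFE.H62

open MulOpposite
open Pool.Agent.PFC.B1 (FS Split BiM Sep)
open Pool.Agent.PFD (RF)
open Pool.Agent.PFD.D2
open Pool.Agent.PFD.D2b (wrp FPl FrR WFS)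
open Pool.Agent.PFE

theorem lhy (kef : KefStmt) (hoy : HoyStmt) : LhyStmt := by
  intro R Γ W M N X Ω Ω' Ω1 Ω1' _ _ _ _ _ _ _ _ _ _ _ _ _ _ _ _ _ _ l G χ BX BN FX FN p hl hχ
    hχu g hg
  obtain ⟨hg1, hg2⟩ := hg
  let S : Submodule R N := LinearMap.range (p • (LinearMap.id : N →ₗ[R] N))
  have hS : ∀ x, x ∈ S ↔ ∃ n, x = p • n := by
    intro x
    constructor
    · rintro ⟨n, rfl⟩
      exact ⟨n, rfl⟩
    · rintro ⟨n, rfl⟩
      exact ⟨n, rfl⟩
  have hlm : ∀ γ x, x ∈ S → BN.lm γ x ∈ S := by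
    intro γ x hx
    obtain ⟨n, rfl⟩ := (hS _).1 hx
    exact (hS _).2 ⟨BN.lm γ n, map_smul _ _ _⟩
  have h1 : ∀ γ x, g (BX.lm γ x) - BN.lm γ (g x) ∈ S := fun γ x => (hS _).2 (hg1 γ x)
  have h2 : ∀ γ x, g (BX.rm γ x) - BN.rm γ (g x) ∈ S := fun γ x => (hS _).2 (hg2 γ x)
  have hrm : ∀ γ x, x ∈ S → BN.rm γ x ∈ S := by
    intro γ x hx
    obtain ⟨n, rfl⟩ := (hS _).1 hx
    exact (hS _).2 ⟨BN.rm γ n, map_smul _ _ _⟩
  have h3 : ∀ γ δ x, g (BX.lm γ (BX.rm δ x)) - BN.lm γ (BN.rm δ (g x)) ∈ S := by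
    intro γ δ x
    have a := h1 γ (BX.rm δ x)
    have b := hlm γ _ (h2 δ x)
    rw [map_sub] at b
    have c := S.add_mem a b
    rwa [sub_add_sub_cancel] at c
  -- the lift of the twisted family
  obtain ⟨m, hm1, hm2, hm3⟩ := (kef R Γ W N X Ω1 Ω1' (W × W) Ω l G χ BN FN (MonoidHom.id _)
    FX.deg p (fun o => g (FX.g o)) hl hχ hχu FX.dg (fun w o => by
      rw [FX.gw]
      exact (hS _).1 (h3 _ _ _))).2 (fun o => by
      apply (hS _).1
      have a := h1 G.y (FX.g o)
      have b := S.smul_mem (χ (FX.deg o)) (h2 (op G.y) (FX.g o))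
      rw [FX.gy, map_smul] at a
      rw [smul_sub] at b
      have c := S.sub_mem b a
      rwa [sub_sub_sub_cancel_left] at c)
  obtain ⟨m', hm'1, hm'2⟩ := (kef R Γ W N X Ω1 Ω1' (W × W) Ω' l G χ BN FN (MonoidHom.id _)
    (fun _ => 1) p (fun o => g (FX.h o)) hl hχ hχu (fun _ _ => rfl) (fun w o => by
      rw [FX.hw]
      exact (hS _).1 (h3 _ _ _))).1
  obtain ⟨g', hg', hf⟩ := hoy R Γ W M N X Ω Ω' l G χ BX BN LinearMap.id FX m m'
    (one_le_two.trans hl) hm1 hm2 hm'1
  refine ⟨g', hg', fun n => (hS _).1 ?_⟩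
  have e : g n = ∑ o, ∑ i ∈ Finset.range l, FX.c o (BX.lm (G.y ^ (l - 1 - i)) n) •
        g (BX.lm (G.y ^ i) (FX.g o)) +
      ∑ o, ∑ i ∈ Finset.range l, ∑ k ∈ Finset.range l,
        FX.d o (BX.lm (G.y ^ (l - 1 - i)) (BX.rm (op (G.y ^ (l - 1 - k))) n)) •
          g (BX.lm (G.y ^ i) (BX.rm (op (G.y ^ k)) (FX.h o))) := by
    have e1 : g n = g (LinearMap.id (R := R) n) := rfl
    rw [e1, ← FX.fr n]
    simp only [map_add, map_sum, map_smul]
  have k1 : ∀ o i, BN.lm (G.y ^ i) (m o) - g (BX.lm (G.y ^ i) (FX.g o)) ∈ S := by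
    intro o i
    have a := hlm (G.y ^ i) _ ((hS _).2 (hm3 o))
    rw [map_sub] at a
    have b := S.sub_mem a (h1 (G.y ^ i) (FX.g o))
    have e2 : BN.lm (G.y ^ i) (m o) - BN.lm (G.y ^ i) (g (FX.g o)) -
        (g (BX.lm (G.y ^ i) (FX.g o)) - BN.lm (G.y ^ i) (g (FX.g o))) =
        BN.lm (G.y ^ i) (m o) - g (BX.lm (G.y ^ i) (FX.g o)) := by abel
    rwa [e2] at b
  have k2 : ∀ o i k, BN.lm (G.y ^ i) (BN.rm (op (G.y ^ k)) (m' o)) -
      g (BX.lm (G.y ^ i) (BX.rm (op (G.y ^ k)) (FX.h o))) ∈ S := by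
    intro o i k
    have a := hlm (G.y ^ i) _ (hrm (op (G.y ^ k)) _ ((hS _).2 (hm'2 o)))
    rw [map_sub, map_sub] at a
    have b := S.sub_mem a (h3 (G.y ^ i) (op (G.y ^ k)) (FX.h o))
    have e2 : BN.lm (G.y ^ i) (BN.rm (op (G.y ^ k)) (m' o)) -
        BN.lm (G.y ^ i) (BN.rm (op (G.y ^ k)) (g (FX.h o))) -
        (g (BX.lm (G.y ^ i) (BX.rm (op (G.y ^ k)) (FX.h o))) -
          BN.lm (G.y ^ i) (BN.rm (op (G.y ^ k)) (g (FX.h o)))) =
        BN.lm (G.y ^ i) (BN.rm (op (G.y ^ k)) (m' o)) -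
          g (BX.lm (G.y ^ i) (BX.rm (op (G.y ^ k)) (FX.h o))) := by abel
    rwa [e2] at b
  rw [hf, e, add_sub_add_comm]
  simp only [← Finset.sum_sub_distrib, ← smul_sub]
  refine S.add_mem ?_ ?_
  · exact S.sum_mem fun o _ => S.sum_mem fun i _ => S.smul_mem _ (k1 o i)
  · exact S.sum_mem fun o _ => S.sum_mem fun i _ => S.sum_mem fun k _ => S.smul_mem _ (k2 o i k)

end Pool.Agent.PFE.H62
end
end -- Pool.Agent.Helper62_PFE.LHY

section -- Pool.Agent.Helper63_PFE.SGR

/-!
# Squad PFE, row SGR: rules for `σ`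
-/

open scoped BigOperators

noncomputable section

namespace Pool.Agent.PFE.H63

open Pool.Agent.PFC.B1 (FS Split)

section basic

variable {K S X Ω : Type} [Field K] [Ring S] [Algebra K S] [Group X] [Fintype X] [Fintype Ω]

theorem sg_c (G : GS K S X) (χ : X →* K) (x : X) (s : S) : G.sg χ (G.c x s) = χ x • G.c x s := by
  show (∑ z, χ z • G.c z) (G.c x s) = χ x • G.c x s
  rw [LinearMap.sum_apply, Finset.sum_eq_single x]
  · rw [LinearMap.smul_apply, G.ci]
  · intro z _ hz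
    rw [LinearMap.smul_apply, G.co z x s hz, smul_zero]
  · intro h
    exact absurd (Finset.mem_univ x) h

theorem sg_apply (G : GS K S X) (χ : X →* K) (s : S) : G.sg χ s = ∑ x, χ x • G.c x s := by
  show (∑ z, χ z • G.c z) s = _
  rw [LinearMap.sum_apply]
  rfl

theorem sg_mul (G : GS K S X) (χ : X →* K) (a b : S) :
    G.sg χ (a * b) = G.sg χ a * G.sg χ b := by
  have h1 : G.sg χ (a * b) = ∑ x, ∑ x', G.sg χ (G.c x a * G.c x' b) := by
    conv_lhs => rw [← G.cs a, ← G.cs b, Finset.sum_mul_sum]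
    rw [map_sum]
    exact Finset.sum_congr rfl fun x _ => map_sum _ _ _
  have h2 : G.sg χ a * G.sg χ b = ∑ x, ∑ x', (χ x • G.c x a) * (χ x' • G.c x' b) := by
    rw [sg_apply, sg_apply, Finset.sum_mul_sum]
  rw [h1, h2]
  refine Finset.sum_congr rfl fun x _ => Finset.sum_congr rfl fun x' _ => ?_
  rw [← G.cm x x' a b, sg_c, map_mul, smul_mul_smul_comm, G.cm x x' a b]

theorem sg_one (G : GS K S X) (χ : X →* K) : G.sg χ 1 = 1 := by
  have h := sg_c G χ 1 1
  have h2 : χ 1 = 1 := map_one χ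
  rw [G.c1, h2, one_smul] at h
  exact h

theorem sgp_c (G : GS K S X) (χ : X →* K) (k : ℕ) (x : X) (s : S) :
    (G.sg χ ^ k) (G.c x s) = χ x ^ k • G.c x s := by
  induction k with
  | zero =>
    rw [pow_zero, pow_zero, one_smul]
    rfl
  | succ k ih =>
    rw [pow_succ', Module.End.mul_apply, ih, map_smul, sg_c, smul_smul, pow_succ]

theorem sgp_apply (G : GS K S X) (χ : X →* K) (k : ℕ) (s : S) :
    (G.sg χ ^ k) s = ∑ x, χ x ^ k • G.c x s := by
  conv_lhs => rw [← G.cs s, map_sum]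
  exact Finset.sum_congr rfl fun x _ => sgp_c G χ k x s

theorem sgp_mul (G : GS K S X) (χ : X →* K) (k : ℕ) (a b : S) :
    (G.sg χ ^ k) (a * b) = (G.sg χ ^ k) a * (G.sg χ ^ k) b := by
  induction k with
  | zero => rfl
  | succ k ih =>
    rw [pow_succ', Module.End.mul_apply, ih, sg_mul]
    rfl

theorem lam_sg (G : GS K S X) (F : SF K S X Ω G) (χ : X →* K) (a : S) :
    F.f.lam (G.sg χ a) = F.f.lam a := by
  have h1 : ∀ b : S, F.f.lam b = F.f.lam (G.c 1 b) := by
    intro b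
    conv_lhs => rw [← G.cs b, map_sum]
    rw [Finset.sum_eq_single 1]
    · intro x _ hx
      exact F.t1 x b hx
    · intro h
      exact absurd (Finset.mem_univ 1) h
  rw [sg_apply, map_sum, Finset.sum_eq_single 1]
  · rw [map_smul, map_one, one_smul, ← h1]
  · intro x _ hx
    rw [map_smul, F.t1 x a hx, smul_zero]
  · intro h
    exact absurd (Finset.mem_univ 1) h

theorem lam_sgp (G : GS K S X) (F : SF K S X Ω G) (χ : X →* K) (k : ℕ) (a : S) :
    F.f.lam ((G.sg χ ^ k) a) = F.f.lam a := by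
  induction k with
  | zero => rfl
  | succ k ih =>
    rw [pow_succ', Module.End.mul_apply, lam_sg, ih]

theorem sgp_surj (G : GS K S X) (χ : X →* K) (k : ℕ) (s : S) : ∃ s', (G.sg χ ^ k) s' = s := by
  refine ⟨∑ x, χ x⁻¹ ^ k • G.c x s, ?_⟩
  rw [map_sum]
  conv_rhs => rw [← G.cs s]
  refine Finset.sum_congr rfl fun x _ => ?_
  rw [map_smul, sgp_c, smul_smul, ← mul_pow, ← map_mul, inv_mul_cancel, map_one, one_pow, one_smul]

end basic

/-- SGR -/
theorem sgr : SgrStmt := by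
  intro K S X Ω _ _ _ _ _ _ G F l χ hχ
  refine ⟨sg_mul G χ, sg_one G χ, ?_, lam_sg G F χ, sg_c G χ, ?_, ?_⟩
  · intro a
    rw [sgp_apply]
    conv_rhs => rw [← G.cs a]
    refine Finset.sum_congr rfl fun x _ => ?_
    rw [hχ, one_smul]
  · intro k s
    obtain ⟨s', rfl⟩ := sgp_surj G χ k s
    have h1 : ∀ o, F.f.lam ((G.sg χ ^ k) (F.f.b' o) * (G.sg χ ^ k) s') • (G.sg χ ^ k) (F.f.b o) =
        (G.sg χ ^ k) (F.f.lam (F.f.b' o * s') • F.f.b o) := by
      intro o
      rw [← sgp_mul, lam_sgp, map_smul]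
    rw [Finset.sum_congr rfl fun o _ => h1 o, ← map_sum]
    congr 1
    exact F.f.h1 s'
  · intro k s
    obtain ⟨s', rfl⟩ := sgp_surj G χ k s
    have h1 : ∀ o, F.f.lam ((G.sg χ ^ k) s' * (G.sg χ ^ k) (F.f.b o)) • (G.sg χ ^ k) (F.f.b' o) =
        (G.sg χ ^ k) (F.f.lam (s' * F.f.b o) • F.f.b' o) := by
      intro o
      rw [← sgp_mul, lam_sgp, map_smul]
    rw [Finset.sum_congr rfl fun o _ => h1 o, ← map_sum]
    congr 1
    exact F.f.h2 s'

end Pool.Agent.PFE.H63
end
end -- Pool.Agent.Helper63_PFE.SGR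

section -- Pool.Agent.Helper67_PFE.KMX

/-!
# Squad PFE, row KMX (helper67): the data `KM`
-/

open scoped BigOperators

noncomputable section

namespace Pool.Agent.PFE.H67

open Pool.Agent.PFC.B1 (FS Split)
open Pool.Agent.PFD (RF)

theorem kmx (hSpc : SpcStmt) (hRfc : RfcStmt) (hCfs : CfsStmt) : KmxStmt := by
  intro K A X S J Ω Ω' C _ _ _ _ _ _ _ _ _ _ _ _ y l χ D L F E
  obtain ⟨c, sp, hlam, hj, hpr⟩ := hSpc K A X S J Ω Ω' C y l χ D L F E
  have h1 : ∀ c' : C, sp.pr (E.j c') = c' := by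
    intro c'
    rw [← hj]
    exact sp.pr_j c'
  have h2 : ∀ (c' : C) (a : A), sp.pr (E.j c' * a) = c' * sp.pr a := by
    intro c' a
    rw [← hj]
    exact sp.pr_l c' a
  have h3 : ∀ (a : A) (c' : C), sp.pr (a * E.j c') = sp.pr a * c' := by
    intro a c'
    rw [← hj]
    exact sp.pr_r a c'
  obtain ⟨s, w, hw, hs⟩ := hRfc K A X S J Ω Ω' C y l χ D L F E sp.pr h1 h2 h3 hpr
  obtain ⟨c0, v, h0, -, -, -, hv, hnil, hvt⟩ := hCfs K S C X Ω L.toGS F.toSF l χ E.Q D.hl D.χl
  have hc : ∀ a : C, c.lam a = c0.lam (E.u * a) := by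
    intro a
    rw [hlam, E.ut, E.t0e, h0]
  have hc' : ∀ a : C, c.lam (E.u' * a) = c0.lam a := by
    intro a
    rw [hc, ← mul_assoc, E.uu, one_mul]
  refine ⟨{
    c := c
    cs := ?_
    sp := sp
    d := D.d
    ds := D.ds
    ort := ?_
    s := ⟨s.x, s.y, ?_, ?_⟩
    u := E.u
    u' := E.u'
    uc := E.uc
    uu := E.uu
    v := v
    vm := hv
    wt := l - 1
    wp := ?_
    tv := ?_
    nil := hnil
    w := w
    wc := ?_
    rw := ?_
    np := ?_ }⟩
  · intro a b
    rw [hlam, hlam, map_mul E.j, map_mul E.j]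
    exact D.ds _ _
  · intro a
    rw [hlam]
    exact (hpr a).symm
  · intro a
    rw [hj]
    exact s.e1 a
  · intro a
    rw [hj]
    exact s.e2 a
  · have := D.hl
    omega
  · intro b
    rw [hc', hc']
    exact hvt b
  · intro b
    rw [hj]
    exact hw b
  · exact hs
  · intro a
    exact D.np a

end Pool.Agent.PFE.H67
end
end -- Pool.Agent.Helper67_PFE.KMX

section -- Pool.Agent.Helper68_PFE.IDF

/-!
# Squad PFE, row IDF: the idempotent `f`
-/

open scoped BigOperators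

namespace Pool.Agent.PFE.H68

/-- a multiplicatively closed subspace of nilpotent elements is nilpotent -/
theorem nil_subspace {K A : Type} [Field K] [Ring A] [Algebra K A] [Module.Finite K A]
    (J : Submodule K A) (hm : J * J ≤ J) (hn : ∀ x ∈ J, IsNilpotent x) :
    ∃ M : ℕ, J ^ M = ⊥ := by
  -- the powers stabilise
  have hle : ∀ n, J ^ (n + 2) ≤ J ^ (n + 1) := by
    intro n
    rw [pow_succ, pow_succ, mul_assoc]
    exact Submodule.mul_le.2 fun a ha b hb => Submodule.mul_mem_mul ha (hm hb)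
  have hanti : Antitone fun n : ℕ => J ^ (n + 1) := antitone_nat_of_succ_le hle
  obtain ⟨k, hk⟩ := IsArtinian.monotone_stabilizes
    (⟨fun n => OrderDual.toDual (J ^ (n + 1)), fun a b h => hanti h⟩ : ℕ →o (Submodule K A)ᵒᵈ)
  have hk' : ∀ m, k ≤ m → J ^ (k + 1) = J ^ (m + 1) := fun m hm => hk m hm
  obtain ⟨L, hL⟩ : ∃ L, L = J ^ (k + 1) := ⟨_, rfl⟩
  have hLL : L * L = L := by
    rw [hL, ← pow_add]
    have := hk' (k + 1 + k) (by omega)
    rw [show k + 1 + (k + 1) = k + 1 + k + 1 by ring, ← this]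
  have hLJ : L ≤ J := by
    rw [hL]
    have : J ^ (k + 1) ≤ J ^ (0 + 1) := hanti (Nat.zero_le k)
    simpa using this
  refine ⟨k + 1, ?_⟩
  rw [← hL]
  by_contra hne
  -- minimal subspace
  have hwf : WellFounded ((· < ·) : Submodule K A → Submodule K A → Prop) := wellFounded_lt
  obtain ⟨U, ⟨hU0, hUL⟩, hmin⟩ := hwf.has_min {U : Submodule K A | U ≠ ⊥ ∧ U * L = U}
    ⟨L, hne, hLL⟩
  obtain ⟨u, hu, hu'⟩ : ∃ u ∈ U, L.map (LinearMap.mulLeft K u) ≠ ⊥ := by
    by_contra hcon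
    push Not at hcon
    apply hU0
    rw [← hUL, eq_bot_iff, Submodule.mul_le]
    intro m hm n hn
    have h1 : m * n ∈ L.map (LinearMap.mulLeft K m) := ⟨n, hn, rfl⟩
    rw [hcon m hm] at h1
    exact h1
  have hmapL : L.map (LinearMap.mulLeft K u) * L = L.map (LinearMap.mulLeft K u) := by
    have h2 : ∀ V : Submodule K A, V.map (LinearMap.mulLeft K u) = Submodule.span K {u} * V := by
      intro V
      apply le_antisymm
      · rintro _ ⟨v, hv, rfl⟩
        exact Submodule.mul_mem_mul (Submodule.mem_span_singleton_self u) hv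
      · rw [Submodule.mul_le]
        intro m hm n hn
        obtain ⟨c, rfl⟩ := Submodule.mem_span_singleton.1 hm
        exact ⟨c • n, Submodule.smul_mem _ c hn, by simp⟩
    rw [h2, mul_assoc, hLL]
  have hle2 : L.map (LinearMap.mulLeft K u) ≤ U := by
    rintro _ ⟨v, hv, rfl⟩
    rw [← hUL]
    exact Submodule.mul_mem_mul hu hv
  have heq : L.map (LinearMap.mulLeft K u) = U := by
    by_contra hne2
    exact hmin _ ⟨hu', hmapL⟩ (lt_of_le_of_ne hle2 hne2)
  obtain ⟨x, hx, hxu⟩ : ∃ x ∈ L, u * x = u := by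
    have h3 : u ∈ L.map (LinearMap.mulLeft K u) := by rw [heq]; exact hu
    obtain ⟨x, hx, hxu⟩ := h3
    exact ⟨x, hx, hxu⟩
  have hpow : ∀ n : ℕ, u * x ^ n = u := by
    intro n
    induction n with
    | zero => simp
    | succ n ih => rw [pow_succ, ← mul_assoc, ih, hxu]
  obtain ⟨n, hn0⟩ := hn x (hLJ hx)
  have hu0 : u = 0 := by rw [← hpow n, hn0, mul_zero]
  apply hu'
  rw [eq_bot_iff]
  rintro _ ⟨v, _, rfl⟩
  simp [hu0]

/-- a non nilpotent algebraic element has a nonzero idempotent `x g(x)` -/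
theorem fitting {K A : Type} [Field K] [Ring A] [Algebra K A] [Module.Finite K A] (x : A)
    (hx : ¬ IsNilpotent x) : ∃ g : Polynomial K, x * Polynomial.aeval x g ≠ 0 ∧
      (x * Polynomial.aeval x g) * (x * Polynomial.aeval x g) = x * Polynomial.aeval x g := by
  have hint : IsIntegral K x := IsIntegral.of_finite K x
  have hp0 : minpoly K x ≠ 0 := minpoly.ne_zero hint
  obtain ⟨r, hr, hrd⟩ := Polynomial.exists_eq_pow_rootMultiplicity_mul_and_not_dvd
    (minpoly K x) hp0 0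
  rw [Polynomial.C_0, sub_zero] at hr hrd
  obtain ⟨m, hm⟩ : ∃ m, m = (minpoly K x).rootMultiplicity 0 := ⟨_, rfl⟩
  rw [← hm] at hr
  have hcop : IsCoprime (Polynomial.X ^ (m + 1) : Polynomial K) r :=
    IsCoprime.pow_left ((Polynomial.prime_X.irreducible.coprime_iff_not_dvd).2 hrd)
  obtain ⟨a, b, hab⟩ := hcop
  have h0 : Polynomial.aeval x (Polynomial.X ^ m * r) = 0 := by
    rw [← hr]; exact minpoly.aeval K x
  refine ⟨a * Polynomial.X ^ m, ?_⟩
  have he : x * Polynomial.aeval x (a * Polynomial.X ^ m) =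
      Polynomial.aeval x (a * Polynomial.X ^ (m + 1)) := by
    have : (a * Polynomial.X ^ (m + 1) : Polynomial K) =
        Polynomial.X * (a * Polynomial.X ^ m) := by ring
    rw [this, map_mul (Polynomial.aeval x) Polynomial.X, Polynomial.aeval_X]
  rw [he]
  have hab' : Polynomial.aeval x (a * Polynomial.X ^ (m + 1)) + Polynomial.aeval x (b * r) = 1 := by
    rw [← map_add, hab, map_one]
  constructor
  · intro hz
    rw [hz, zero_add] at hab'
    apply hx
    refine ⟨m, ?_⟩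
    have h1 : x ^ m * Polynomial.aeval x (b * r) = 0 := by
      have h2 : (Polynomial.X ^ m * (b * r) : Polynomial K) = b * (Polynomial.X ^ m * r) := by ring
      have h3 : x ^ m * Polynomial.aeval x (b * r) =
          Polynomial.aeval x (Polynomial.X ^ m * (b * r)) := by
        rw [map_mul (Polynomial.aeval x) (Polynomial.X ^ m), map_pow, Polynomial.aeval_X]
      rw [h3, h2, map_mul, h0, mul_zero]
    rw [hab', mul_one] at h1
    exact h1
  · have h4 : Polynomial.aeval x (a * Polynomial.X ^ (m + 1)) *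
        Polynomial.aeval x (b * r) = 0 := by
      have h5 : (a * Polynomial.X ^ (m + 1) * (b * r) : Polynomial K) =
          (a * b * Polynomial.X) * (Polynomial.X ^ m * r) := by ring
      rw [← map_mul, h5, map_mul, h0, mul_zero]
    calc Polynomial.aeval x (a * Polynomial.X ^ (m + 1)) *
        Polynomial.aeval x (a * Polynomial.X ^ (m + 1))
        = Polynomial.aeval x (a * Polynomial.X ^ (m + 1)) *
          (Polynomial.aeval x (a * Polynomial.X ^ (m + 1)) + Polynomial.aeval x (b * r)) := by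
          rw [mul_add, h4, add_zero]
      _ = _ := by rw [hab', mul_one]

theorem idf (h : TxrStmt) : IdfStmt := by
  intro K A _ _ _ _ y l hl hy
  obtain ⟨hN, hnT, hTn, -, -, -, -⟩ := h K A PUnit y l (1 : PUnit →* K) hl hy (by simp)
  have hNx : ∀ (p : PUnit) (a : A), a ∈ Nx y (1 : PUnit →* K) p ↔ y * a = a * y := by
    intro p a
    show y * a = (1 : PUnit →* K) p • (a * y) ↔ _
    rw [MonoidHom.one_apply, one_smul]
  have hN' : ∀ a, y * Tx y l (1 : K) a = Tx y l (1 : K) a * y := by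
    intro a
    have := hN PUnit.unit a
    rwa [hNx] at this
  have hnT' : ∀ n a, y * n = n * y → n * Tx y l (1 : K) a = Tx y l (1 : K) (n * a) := by
    intro n a hn
    have := hnT PUnit.unit PUnit.unit n a ((hNx _ _).2 hn)
    simpa using this
  have hTn' : ∀ n a, y * n = n * y → Tx y l (1 : K) a * n = Tx y l (1 : K) (a * n) := by
    intro n a hn
    have := hTn PUnit.unit PUnit.unit n a ((hNx _ _).2 hn)
    simpa using this
  let T : A →ₗ[K] A :=
    { toFun := Tx y l (1 : K)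
      map_add' := by
        intro a b
        simp only [Tx, mul_add, add_mul, smul_add, Finset.sum_add_distrib]
      map_smul' := by
        intro c a
        simp only [Tx, mul_smul_comm, smul_mul_assoc, Finset.smul_sum, RingHom.id_apply]
        refine Finset.sum_congr rfl fun j _ => ?_
        rw [smul_comm] }
  have hTT : ∀ a, T a = Tx y l (1 : K) a := fun a => rfl
  simp only [← hTT] at hN' hnT' hTn' ⊢
  -- the maximal idempotent
  let P : ℕ → Prop := fun n => ∃ a : A, T a * T a = T a ∧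
    Module.finrank K (LinearMap.range (LinearMap.mulLeft K (T a))) = n
  have hP0 : ∃ n, P n := ⟨_, 0, by simp, rfl⟩
  have hPb : ∀ n, P n → n ≤ Module.finrank K A := by
    rintro n ⟨a, -, rfl⟩
    exact Submodule.finrank_le _
  classical
  obtain ⟨n, hPn, hmax⟩ : ∃ n, P n ∧ ∀ m, P m → m ≤ n := by
    obtain ⟨n0, hn0⟩ := hP0
    refine ⟨Nat.findGreatest P (Module.finrank K A),
      Nat.findGreatest_spec (hPb n0 hn0) hn0, fun m hm => ?_⟩
    exact Nat.le_findGreatest (hPb m hm) hm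
  obtain ⟨a0, he, hen⟩ := hPn
  obtain ⟨e, heT⟩ : ∃ e, e = T a0 := ⟨_, rfl⟩
  rw [← heT] at he hen
  have hye : y * e = e * y := by rw [heT]; exact hN' a0
  obtain ⟨f, hf⟩ : ∃ f, f = 1 - e := ⟨_, rfl⟩
  have hff : f * f = f := by
    rw [hf, mul_sub, sub_mul, sub_mul, he, one_mul, one_mul, mul_one]
    abel
  have hyf : y * f = f * y := by rw [hf, mul_sub, sub_mul, hye, mul_one, one_mul]
  have hef : e * f = 0 := by rw [hf, mul_sub, he, mul_one, sub_self]
  have hfe : f * e = 0 := by rw [hf, sub_mul, he, one_mul, sub_self]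
  -- all elements `f t f` are nilpotent
  have hnil : ∀ a, IsNilpotent (f * T a * f) := by
    intro a
    by_contra hcon
    obtain ⟨g, hg0, hgi⟩ := fitting (K := K) _ hcon
    obtain ⟨x, hx⟩ : ∃ x, x = f * T a * f := ⟨_, rfl⟩
    rw [← hx] at hg0 hgi
    have hyx : y * x = x * y := by
      rw [hx, ← mul_assoc, ← mul_assoc, hyf, mul_assoc f y, hN', ← mul_assoc, mul_assoc (f * T a) y,
        hyf, ← mul_assoc]
    have hyg : y * Polynomial.aeval x g = Polynomial.aeval x g * y := by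
      have hc : Commute y x := hyx
      induction g using Polynomial.induction_on' with
      | add p q hp hq =>
        clear hg0 hgi
        rw [map_add, mul_add, add_mul]
        have hp' : y * Polynomial.aeval x p = Polynomial.aeval x p * y := by
          rw [Polynomial.aeval_eq_sum_range]
          exact (Commute.sum_right _ _ _ fun i _ => (hc.pow_right i).smul_right _)
        have hq' : y * Polynomial.aeval x q = Polynomial.aeval x q * y := by
          rw [Polynomial.aeval_eq_sum_range]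
          exact (Commute.sum_right _ _ _ fun i _ => (hc.pow_right i).smul_right _)
        rw [hp', hq']
      | monomial n c =>
        rw [Polynomial.aeval_monomial]
        have hcc : Commute y (algebraMap K A c) := (Algebra.commutes c y).symm
        exact hcc.mul_right (hc.pow_right n)
    obtain ⟨e', he'⟩ : ∃ e', e' = x * Polynomial.aeval x g := ⟨_, rfl⟩
    rw [← he'] at hg0 hgi
    have hfx : f * x = x := by rw [hx, ← mul_assoc, ← mul_assoc, hff]
    have hxf : x * f = x := by rw [hx, mul_assoc, hff]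
    have hgx : x * Polynomial.aeval x g = Polynomial.aeval x g * x := by
      have : Polynomial.aeval x (Polynomial.X * g) = Polynomial.aeval x (g * Polynomial.X) := by
        rw [mul_comm]
      rwa [map_mul, map_mul, Polynomial.aeval_X] at this
    have hfe' : f * e' = e' := by rw [he', ← mul_assoc, hfx]
    have he'f : e' * f = e' := by rw [he', hgx, mul_assoc, hxf]
    have hee' : e * e' = 0 := by rw [← hfe', ← mul_assoc, hef, zero_mul]
    have he'e : e' * e = 0 := by rw [← he'f, mul_assoc, hfe, mul_zero]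
    have he'T : e' = T (f * a * f * Polynomial.aeval x g) := by
      have hxT : x = T (f * a * f) := by rw [hx, hnT' f a hyf, hTn' f _ hyf]
      rw [he', ← hTn' _ _ hyg, ← hxT]
    have hsum : (e + e') * (e + e') = e + e' := by
      rw [mul_add, add_mul, add_mul, he, hee', he'e, hgi]
      abel
    have hsT : e + e' = T (a0 + f * a * f * Polynomial.aeval x g) := by
      rw [map_add, ← heT, ← he'T]
    have h1 := hmax _ ⟨_, by rw [← hsT]; exact hsum, rfl⟩
    rw [← hsT, ← hen] at h1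
    have hlt : LinearMap.range (LinearMap.mulLeft K e) <
        LinearMap.range (LinearMap.mulLeft K (e + e')) := by
      refine lt_of_le_of_ne ?_ ?_
      · rintro _ ⟨b, rfl⟩
        refine ⟨e * b, ?_⟩
        show (e + e') * (e * b) = e * b
        rw [← mul_assoc, add_mul, he, he'e, add_zero]
      · intro hcon2
        have h2 : e' ∈ LinearMap.range (LinearMap.mulLeft K (e + e')) := by
          refine ⟨e', ?_⟩
          show (e + e') * e' = e'
          rw [add_mul, hee', hgi, zero_add]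
        rw [← hcon2] at h2
        obtain ⟨b, hb⟩ := h2
        have hb' : e * b = e' := hb
        apply hg0
        rw [← hb', ← he, mul_assoc, hb', hee']
    exact absurd (Submodule.finrank_lt_finrank_of_lt hlt) (not_lt.2 h1)
  -- the nilpotent subspace
  let J : Submodule K A := LinearMap.range
    ((LinearMap.mulRight K f).comp ((LinearMap.mulLeft K f).comp T))
  have hJ : ∀ x, x ∈ J ↔ ∃ a, f * T a * f = x := fun x => Iff.rfl
  have hJJ : J * J ≤ J := by
    rw [Submodule.mul_le]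
    rintro m hm n hn
    obtain ⟨a, rfl⟩ := (hJ m).1 hm
    obtain ⟨b, rfl⟩ := (hJ n).1 hn
    refine (hJ _).2 ⟨a * f * T b, ?_⟩
    rw [← hTn' (T b) (a * f) (hN' b), ← hTn' f a hyf]
    calc f * (T a * f * T b) * f = f * T a * (f * f) * T b * f := by rw [hff]; simp only [mul_assoc]
      _ = f * T a * f * (f * T b * f) := by simp only [mul_assoc]
  obtain ⟨M, hM⟩ := nil_subspace J hJJ (by
    intro x hx
    obtain ⟨a, rfl⟩ := (hJ x).1 hx
    exact hnil a)
  refine ⟨f, hff, hyf, ⟨a0, by rw [hf, ← heT]; abel⟩, M, fun a => ?_⟩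
  have hmem : ∀ m, ((List.range m).map fun i => f * T (a i) * f).prod ∈ J ^ m := by
    intro m
    induction m with
    | zero =>
      simp only [List.range_zero, List.map_nil, List.prod_nil, pow_zero]
      exact Submodule.mem_one.2 ⟨1, map_one _⟩
    | succ m ih =>
      rw [List.range_succ, List.map_append, List.prod_append, pow_succ]
      refine Submodule.mul_mem_mul ih ?_
      simp only [List.map_cons, List.map_nil, List.prod_cons, List.prod_nil, mul_one]
      exact (hJ _).2 ⟨a m, rfl⟩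
  have := hmem M
  rw [hM, Submodule.mem_bot] at this
  exact this

end Pool.Agent.PFE.H68
end -- Pool.Agent.Helper68_PFE.IDF

section -- Pool.Agent.Helper68_PFE.JPR

/-!
# Squad PFE, row JPR: rules for `JP`
-/

open scoped BigOperators

namespace Pool.Agent.PFE.H68

theorem jpr (h : TxaStmt) : JprStmt := by
  intro K A X _ _ _ _ _ y l χ hl hy hχ
  obtain ⟨-, -, -, -, hid⟩ := h K A X y l χ hl hy hχ
  refine ⟨?_, ?_, ?_, ?_⟩
  · intro x b hb
    refine Submodule.subset_span ⟨fun _ => b, fun _ => ⟨x, hb⟩, ?_⟩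
    simp
  · intro m n a b ha hb
    have key : JP y l χ m * JP y l χ n ≤ JP y l χ (m + n) := by
      unfold JP
      rw [Submodule.span_mul_span, Submodule.span_le]
      rintro _ ⟨_, ⟨f, hf, rfl⟩, _, ⟨g, hg, rfl⟩, rfl⟩
      refine Submodule.subset_span ⟨fun i => if i < m then f i else g (i - m), ?_, ?_⟩
      · intro i
        by_cases hi : i < m
        · simp only [hi, if_true]
          exact hf i
        · simp only [hi, if_false]
          exact hg _
      · rw [List.range_add, List.map_append, List.prod_append, List.map_map]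
        congr 2
        · apply List.map_congr_left
          intro i hi
          have hi' : i < m := List.mem_range.1 hi
          simp only [hi', if_true]
        · apply List.map_congr_left
          intro i _
          simp
    exact key (Submodule.mul_mem_mul ha hb)
  · intro n x a b hn ha hb
    obtain ⟨k, rfl⟩ : ∃ k, n = k + 1 := ⟨n - 1, by omega⟩
    unfold JP at hb ⊢
    induction hb using Submodule.span_induction with
    | mem z hz =>
      obtain ⟨f, hf, rfl⟩ := hz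
      refine Submodule.subset_span ⟨fun i => if i = 0 then a * f 0 else f i, ?_, ?_⟩
      · intro i
        by_cases hi : i = 0
        · obtain ⟨x', hx'⟩ := hf 0
          simp only [hi, if_true]
          exact ⟨x * x', (hid x x' a (f 0) ha hx').1⟩
        · simp only [hi, if_false]
          exact hf i
      · rw [List.range_succ_eq_map, List.map_cons, List.map_cons, List.prod_cons,
          List.prod_cons, List.map_map, List.map_map, ← mul_assoc]
        congr 2
    | zero => rw [mul_zero]; exact Submodule.zero_mem _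
    | add u v _ _ hu hv => rw [mul_add]; exact Submodule.add_mem _ hu hv
    | smul r u _ hu => rw [mul_smul_comm]; exact Submodule.smul_mem _ r hu
  · intro m n hmn hm
    rw [eq_bot_iff]
    unfold JP
    rw [Submodule.span_le]
    rintro _ ⟨f, hf, rfl⟩
    obtain ⟨k, rfl⟩ := Nat.exists_eq_add_of_le hmn
    rw [List.range_add, List.map_append, List.prod_append]
    have h0 : ((List.range m).map f).prod ∈ JP y l χ m :=
      Submodule.subset_span ⟨f, hf, rfl⟩
    rw [hm, Submodule.mem_bot] at h0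
    rw [h0, zero_mul]
    exact Submodule.zero_mem _

end Pool.Agent.PFE.H68
end -- Pool.Agent.Helper68_PFE.JPR

section -- Pool.Agent.Helper77_PFE.NFR

/-!
# Squad PFE, row NFR (helper77): `N_x` in terms of the frame
-/

open scoped BigOperators

noncomputable section

namespace Pool.Agent.PFE.H77

open Pool.Agent.PFC.B1 (FS Split)
open Pool.Agent.PFD (RF FotStmt)

section

variable {R A X : Type} [CommRing R] [Ring A] [Algebra R A] [Group X] {y : A} {l : ℕ}
  {χ : X →* R}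

/-- `Tx` as a linear map -/
def TxL (y : A) (l : ℕ) (c : R) : A →ₗ[R] A where
  toFun := Tx y l c
  map_add' a b := by
    unfold Tx
    rw [← Finset.sum_add_distrib]
    refine Finset.sum_congr rfl fun j _ => ?_
    rw [mul_add, add_mul, smul_add]
  map_smul' r a := by
    unfold Tx
    rw [RingHom.id_apply, Finset.smul_sum]
    refine Finset.sum_congr rfl fun j _ => ?_
    rw [mul_smul_comm, smul_mul_assoc, smul_comm]

theorem TxL_apply (y : A) (l : ℕ) (c : R) (a : A) : TxL y l c a = Tx y l c a := rfl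

/-- commuting with the powers of `y` -/
theorem swap {c : R} {a : A} (hc : c ^ (l - 1) = 1) (ha : ∀ j, y ^ j * a = c ^ j • (a * y ^ j))
    {m : ℕ} (hm : m ≤ l - 1) : a * y ^ m = c ^ (l - 1 - m) • (y ^ m * a) := by
  rw [ha m, smul_smul, ← pow_add, Nat.sub_add_cancel hm, hc, one_smul]

theorem pow_zero_of_le (hy : y ^ l = 0) {n : ℕ} (hn : l ≤ n) : y ^ n = 0 :=
  pow_eq_zero_of_le hn hy

/-- the free part -/
theorem free_part (hy : y ^ l = 0) {c : R} (hc : c ^ (l - 1) = 1) {a : A}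
    (ha : ∀ j, y ^ j * a = c ^ j • (a * y ^ j)) (lam : A →ₗ[R] R) (h' h : A) :
    ∑ i ∈ Finset.range l, ∑ k ∈ Finset.range l,
      lam (h' * (y ^ (l - 1 - i) * a * y ^ (l - 1 - k))) • (y ^ i * h * y ^ k) =
    ∑ s ∈ Finset.range l, (c ^ s * lam (h' * y ^ (l - 1 - s) * a)) • Tx y l c (h * y ^ s) := by
  simp only [Tx, Finset.smul_sum]
  rw [Finset.sum_comm (s := Finset.range l) (t := Finset.range l)
    (f := fun s j => (c ^ s * lam (h' * y ^ (l - 1 - s) * a)) •
      c ^ (l - 1 - j) • (y ^ j * (h * y ^ s) * y ^ (l - 1 - j)))]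
  refine Finset.sum_congr rfl fun j hj => ?_
  have hj' : j < l := Finset.mem_range.1 hj
  have e1 : ∑ k ∈ Finset.range l,
      lam (h' * (y ^ (l - 1 - j) * a * y ^ (l - 1 - k))) • (y ^ j * h * y ^ k) =
      ∑ k ∈ Finset.Ico (l - 1 - j) l,
        lam (h' * (y ^ (l - 1 - j) * a * y ^ (l - 1 - k))) • (y ^ j * h * y ^ k) := by
    symm
    refine Finset.sum_subset ?_ ?_
    · intro k hk
      exact Finset.mem_range.2 (Finset.mem_Ico.1 hk).2
    · intro k hk hk2
      have hk' : k < l := Finset.mem_range.1 hk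
      have hk3 : k < l - 1 - j := by
        by_contra hcon
        exact hk2 (Finset.mem_Ico.2 ⟨not_lt.1 hcon, hk'⟩)
      have e2 : y ^ (l - 1 - j) * a * y ^ (l - 1 - k) = 0 := by
        rw [mul_assoc, swap hc ha (by omega : l - 1 - k ≤ l - 1), mul_smul_comm, ← mul_assoc,
          ← pow_add, pow_zero_of_le hy (by omega), zero_mul, smul_zero]
      rw [e2, mul_zero, map_zero, zero_smul]
  have e3 : ∑ s ∈ Finset.range l, (c ^ s * lam (h' * y ^ (l - 1 - s) * a)) •
      c ^ (l - 1 - j) • (y ^ j * (h * y ^ s) * y ^ (l - 1 - j)) =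
      ∑ s ∈ Finset.range (j + 1), (c ^ s * lam (h' * y ^ (l - 1 - s) * a)) •
      c ^ (l - 1 - j) • (y ^ j * (h * y ^ s) * y ^ (l - 1 - j)) := by
    symm
    refine Finset.sum_subset ?_ ?_
    · intro s hs
      have := Finset.mem_range.1 hs
      exact Finset.mem_range.2 (by omega)
    · intro s hs hs2
      have hs' : j < s := by
        by_contra hcon
        exact hs2 (Finset.mem_range.2 (by omega))
      have e4 : y ^ j * (h * y ^ s) * y ^ (l - 1 - j) = 0 := by
        rw [mul_assoc, mul_assoc h, ← pow_add,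
          pow_zero_of_le (n := s + (l - 1 - j)) hy (by omega), mul_zero, mul_zero]
      rw [e4, smul_zero, smul_zero]
  rw [e1, e3, Finset.sum_Ico_eq_sum_range, show l - (l - 1 - j) = j + 1 by omega]
  refine Finset.sum_congr rfl fun s hs => ?_
  have hs' : s < j + 1 := Finset.mem_range.1 hs
  have e5 : l - 1 - (l - 1 - j + s) = j - s := by omega
  have e6 : y ^ (l - 1 - j) * a * y ^ (j - s) = (c ^ s * c ^ (l - 1 - j)) •
      (y ^ (l - 1 - s) * a) := by
    rw [mul_assoc, swap hc ha (by omega : j - s ≤ l - 1), mul_smul_comm, ← mul_assoc,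
      ← pow_add, ← pow_add, show l - 1 - (j - s) = s + (l - 1 - j) by omega,
      show l - 1 - j + (j - s) = l - 1 - s by omega]
  have e7 : y ^ j * h * y ^ (l - 1 - j + s) = y ^ j * (h * y ^ s) * y ^ (l - 1 - j) := by
    rw [mul_assoc, mul_assoc, mul_assoc, ← pow_add, add_comm s]
  rw [e5, e6, e7, mul_smul_comm, map_smul, smul_eq_mul, smul_smul, mul_assoc h']
  congr 1
  ring

end

theorem nfr (txr : TxrStmt) : NfrStmt := by
  intro R A X J Ω Ω' _ _ _ _ _ _ _ _ y l χ D
  have hl1 : 1 ≤ l := le_trans (by norm_num) D.hl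
  obtain ⟨-, -, -, -, t5, t6, -⟩ := txr R A X y l χ hl1 D.yl D.χl
  have hone : ∀ x : X, χ x * χ x⁻¹ = 1 := fun x => by rw [← map_mul, mul_inv_cancel, map_one]
  have hne : ∀ (x : X) (o : Ω), D.deg o ≠ x → x * (D.deg o)⁻¹ ≠ 1 := fun x o h h2 =>
    h (mul_inv_eq_one.1 h2).symm
  -- (1)
  have h1 : ∀ x a, a ∈ Nx y χ x → ∀ o k, D.deg o ≠ x → 1 ≤ k →
      D.d.lam (D.g' o * y ^ k * a) = 0 := by
    intro x a ha o k ho hk
    obtain ⟨k, rfl⟩ : ∃ m, k = m + 1 := ⟨k - 1, by omega⟩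
    have ha' : y * a = χ x • (a * y) := ha
    set L := D.d.lam (y * D.g' o * y ^ k * a) with hL
    have e1 : D.d.lam (D.g' o * y ^ (k + 1) * a) = χ x * L := by
      have e2 : D.g' o * y ^ (k + 1) * a = χ x • ((D.g' o * y ^ k * a) * y) := by
        rw [pow_succ, mul_assoc, mul_assoc, ha', mul_smul_comm, mul_smul_comm]
        congr 1
        noncomm_ring
      rw [e2, map_smul, smul_eq_mul, D.ds, hL]
      congr 2
      noncomm_ring
    have e3 : D.d.lam (D.g' o * y ^ (k + 1) * a) = χ (D.deg o) * L := by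
      have e4 : D.g' o * y ^ (k + 1) * a = χ (D.deg o) • (y * D.g' o * y ^ k * a) := by
        rw [pow_succ', ← mul_assoc (D.g' o), D.g'y, smul_mul_assoc, smul_mul_assoc]
      rw [e4, map_smul, smul_eq_mul]
    have hu := D.χu _ (hne x o ho)
    have e5 : (1 - χ (x * (D.deg o)⁻¹)) * (χ (D.deg o) * L) = 0 := by
      have e6 : χ (x * (D.deg o)⁻¹) * χ (D.deg o) = χ x := by
        rw [← map_mul, inv_mul_cancel_right]
      calc (1 - χ (x * (D.deg o)⁻¹)) * (χ (D.deg o) * L)
          = χ (D.deg o) * L - χ (x * (D.deg o)⁻¹) * χ (D.deg o) * L := by ring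
        _ = 0 := by rw [e6, ← e1, ← e3, sub_self]
    rw [e3]
    exact (hu.mul_right_eq_zero).1 e5
  -- (2)
  have h2 : ∀ x a, a ∈ Nx y χ x → ∃ b, a = (∑ o, if D.deg o = x then ∑ i ∈ Finset.range l,
      D.d.lam (D.g' o * y ^ (l - 1 - i) * a) • (y ^ i * D.g o) else 0) + Tx y l (χ x) b := by
    intro x a ha
    have haj := (t5 x a ha).2.2
    refine ⟨(∑ o, if D.deg o = x then 0 else D.d.lam (D.g' o * a) • D.g o) +
      ∑ o, ∑ s ∈ Finset.range l, (χ x ^ s * D.d.lam (D.h' o * y ^ (l - 1 - s) * a)) •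
        (D.h o * y ^ s), ?_⟩
    have hT : ∀ b, Tx y l (χ x) b = TxL y l (χ x) b := fun b => rfl
    rw [hT, map_add, map_sum, map_sum]
    conv_lhs => rw [← D.fr a]
    rw [← add_assoc, ← Finset.sum_add_distrib]
    congr 1
    · refine Finset.sum_congr rfl fun o _ => ?_
      by_cases ho : D.deg o = x
      · rw [if_pos ho, if_pos ho, map_zero, add_zero]
      · rw [if_neg ho, if_neg ho, zero_add, map_smul, TxL_apply,
          t6 x (D.deg o) (D.g o) (D.χu _ (hne x o ho)) (D.gy o)]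
        rw [Finset.sum_eq_single (l - 1)]
        · rw [Nat.sub_self, pow_zero, mul_one]
        · intro i hi hi2
          have hi' := Finset.mem_range.1 hi
          rw [h1 x a ha o _ ho (by omega), zero_smul]
        · intro hcon
          exact absurd (Finset.mem_range.2 (by omega)) hcon
    · refine Finset.sum_congr rfl fun o _ => ?_
      rw [map_sum, free_part D.yl (D.χl x) haj]
      refine Finset.sum_congr rfl fun s _ => ?_
      rw [map_smul, TxL_apply]
  refine ⟨h1, h2, ?_⟩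
  -- (3)
  intro x a ha
  obtain ⟨b, hb⟩ := h2 x a ha
  have hpow : ∀ (n : A), n ∈ Nx y χ x → ∀ i, y ^ i * n ∈ Nx y χ x := by
    intro n hn i
    induction i with
    | zero => rw [pow_zero, one_mul]; exact hn
    | succ i ih =>
      rw [pow_succ', mul_assoc]
      exact (t5 x _ ih).1
  have e1 : a - (∑ o, if D.deg o = x then D.d.lam (D.g' o * y ^ (l - 1) * a) • D.g o else 0) =
      (∑ o, if D.deg o = x then ∑ i ∈ Finset.range (l - 1),
        D.d.lam (D.g' o * y ^ (l - 1 - (i + 1)) * a) • (y * (y ^ i * D.g o)) else 0) +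
        Tx y l (χ x) b := by
    conv_lhs => rw [hb]
    rw [sub_eq_iff_eq_add, add_right_comm, ← Finset.sum_add_distrib]
    congr 1
    refine Finset.sum_congr rfl fun o _ => ?_
    by_cases ho : D.deg o = x
    · rw [if_pos ho, if_pos ho, if_pos ho]
      conv_lhs => rw [show Finset.range l = Finset.range (l - 1 + 1) by
        rw [Nat.sub_add_cancel hl1]]
      rw [Finset.sum_range_succ', Nat.sub_zero, pow_zero, one_mul, ← hb]
      congr 1
      refine Finset.sum_congr rfl fun i _ => ?_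
      rw [pow_succ' y i, mul_assoc y]
    · rw [if_neg ho, if_neg ho, if_neg ho, add_zero]
  rw [e1]
  refine Submodule.add_mem _ (Submodule.sum_mem _ fun o _ => ?_)
    (Submodule.subset_span (Or.inl ⟨b, rfl⟩))
  by_cases ho : D.deg o = x
  · rw [if_pos ho]
    refine Submodule.sum_mem _ fun i _ => Submodule.smul_mem _ _ ?_
    refine Submodule.subset_span (Or.inr ⟨y ^ i * D.g o, hpow _ ?_ i, rfl⟩)
    rw [← ho]
    exact D.gy o
  · rw [if_neg ho]
    exact Submodule.zero_mem _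

end Pool.Agent.PFE.H77
end
end -- Pool.Agent.Helper77_PFE.NFR

section -- Pool.Agent.Helper77_PFE.SFR

/-!
# Squad PFE, row SFR (helper77): a Frobenius system over a principal ideal domain
-/

set_option autoImplicit false

open scoped BigOperators

noncomputable section

namespace Pool.Agent.PFE.H77

open Pool.Agent.PFC.B1 (FS)

/-- SFR -/
theorem sfr : SfrStmt := by
  intro R S I _ _ _ _ _ _ D
  have hfin : Module.Finite R S := by
    refine Module.Finite.of_surjective
      (∑ i, (LinearMap.proj i : (I → R) →ₗ[R] R).smulRight (D.b i)) ?_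
    intro x
    refine ⟨fun i => D.lam (D.b' i * x), ?_⟩
    rw [LinearMap.sum_apply]
    exact D.h1 x
  have htf : Module.IsTorsionFree R S := by
    apply Module.IsTorsionFree.of_smul_eq_zero
    intro r s h
    by_cases hr : r = 0
    · exact Or.inl hr
    · right
      rw [← D.h1 s]
      refine Finset.sum_eq_zero fun i _ => ?_
      have h1 : r * D.lam (D.b' i * s) = 0 := by
        rw [← smul_eq_mul, ← map_smul, ← mul_smul_comm, h, mul_zero, map_zero]
      rw [(mul_eq_zero.1 h1).resolve_left hr, zero_smul]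
  exact ⟨hfin, inferInstance⟩

end Pool.Agent.PFE.H77
end
end -- Pool.Agent.Helper77_PFE.SFR

section -- Pool.Agent.Helper7_PFE.KZT

/-!
# Squad PFE, row KZT: the divergence (helper7; after `Helper3_PFD/ZET.lean`)
-/

open scoped BigOperators

noncomputable section

namespace Pool.Agent.PFE.H7

open Pool.Agent.PFC.B1 (FS Split)
open Pool.Agent.PFD (RF)

theorem kzt (hKCR : KcrStmt) (hKTT : KttStmt) (hRTC : Pool.Agent.PFD.D4.RtcStmt) : KztStmt := by
  intro K B A I J N _ _ _ _ _ _ _ _ D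
  have huu : D.u' * D.u = 1 := by rw [← D.uc]; exact D.uu
  have hu' : ∀ b, D.u' * b = b * D.u' := by
    intro b
    calc D.u' * b = D.u' * b * (D.u * D.u') := by rw [D.uu, mul_one]
      _ = D.u' * (b * D.u) * D.u' := by noncomm_ring
      _ = D.u' * (D.u * b) * D.u' := by rw [D.uc]
      _ = (D.u' * D.u) * b * D.u' := by noncomm_ring
      _ = b * D.u' := by rw [huu, one_mul]
  have hvu : ∀ b, D.v D.u * b = b * D.v D.u := by
    intro b
    have h1 := congrArg D.v (D.uc b)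
    rw [D.vm, D.vm, D.uc (D.v b), add_comm (D.v b * D.u)] at h1
    exact add_right_cancel h1
  set ν : B := D.u' * D.v D.u with hν
  have hνc : ∀ b, ν * b = b * ν := by
    intro b
    rw [hν, mul_assoc, hvu, ← mul_assoc, hu', mul_assoc]
  have hνn : IsNilpotent ν := by
    obtain ⟨m, hm⟩ := D.nil D.u
    refine ⟨m, ?_⟩
    have hc : Commute D.u' (D.v D.u) := hu' _
    rw [hν, hc.mul_pow, hm, mul_zero]
  set De : B := ν - algebraMap K B (D.wt : K) with hDe
  have hDec : ∀ b, De * b = b * De := by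
    intro b
    rw [hDe, sub_mul, mul_sub, hνc, Algebra.commutes]
  obtain ⟨t0, ht0⟩ := hKCR K B A I J N D (D.sp.j De) (fun b => by
    rw [← map_mul, ← map_mul, hDec])
  obtain ⟨r1, r2, r3, -, -⟩ := hKTT K B A I J N D
  obtain ⟨s1, s2, -⟩ := hRTC K B A N D.sp.j D.sp.pr D.s
  have hrc : ∀ a, a * D.s.rt (D.sp.j De) = D.s.rt (D.sp.j De) * a := s1 (D.sp.j De) (fun γ => by
    rw [← map_mul, ← map_mul, hDec])
  refine ⟨De, ν, rfl, hνn, hνc, ?_, hrc, ?_⟩
  · intro a
    have h1 := D.tv (D.u * a)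
    rw [D.vm, mul_add, ← mul_assoc, ← mul_assoc, ← mul_assoc, huu, one_mul, one_mul, map_add] at h1
    rw [hDe, mul_sub, map_sub, ← hνc a, ← Algebra.commutes, ← Algebra.smul_def, map_smul,
      smul_eq_mul, ← h1, hν]
    ring
  · set ζ : A := D.s.rt (D.sp.j De) + algebraMap K A (D.wt : K) with hζ
    have hζ1 : ζ = D.sp.j ν + D.TB t0 := by
      rw [hζ, ht0, hDe, map_sub, AlgHom.commutes]
      abel
    have hζc : ∀ a, a * ζ = ζ * a := by
      intro a
      rw [hζ, mul_add, add_mul, hrc, Algebra.commutes]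
    have hTBadd : ∀ a b, D.TB (a + b) = D.TB a + D.TB b := by
      intro a b
      unfold KM.TB
      rw [← Finset.sum_add_distrib]
      refine Finset.sum_congr rfl fun i _ => ?_
      rw [mul_add, add_mul]
    have hjν : ∀ b, D.sp.j b * D.sp.j ν = D.sp.j ν * D.sp.j b := fun b => by
      rw [← map_mul, ← map_mul, hνc]
    have hpow : ∀ m : ℕ, ∃ t, ζ ^ m = D.sp.j ν ^ m + D.TB t := by
      intro m
      induction m with
      | zero =>
        refine ⟨0, ?_⟩
        have h0 : D.TB 0 = 0 := by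
          unfold KM.TB
          simp
        rw [pow_zero, pow_zero, h0, add_zero]
      | succ m ih =>
        obtain ⟨t, ht⟩ := ih
        have hm : ∀ b, D.sp.j b * D.sp.j ν ^ m = D.sp.j ν ^ m * D.sp.j b := fun b => by
          have h2 : Commute (D.sp.j b) (D.sp.j ν) := hjν b
          exact h2.pow_right m
        refine ⟨D.sp.j ν ^ m * t0 + (t * D.sp.j ν + t * D.TB t0), ?_⟩
        rw [hTBadd, hTBadd, ← (r3 t0 _ hm).1, ← (r3 t _ hjν).2, ← (r3 t _ (r2 t0)).2, pow_succ,
          ht, hζ1, pow_succ]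
        noncomm_ring
    obtain ⟨M, hM⟩ := hνn
    obtain ⟨t, ht⟩ := hpow M
    have ht' : ζ ^ M = D.TB t := by
      rw [ht, ← map_pow, hM, map_zero, zero_add]
    have hζMc : ∀ a, ζ ^ M * a = a * ζ ^ M := by
      intro a
      have h2 : Commute a ζ := hζc a
      exact (h2.pow_right M).symm
    have h4 : ζ ^ M = D.TA (t * D.w) := by
      calc ζ ^ M = ζ ^ M * D.s.rt D.w := by rw [D.rw, mul_one]
        _ = D.s.rt (ζ ^ M * D.w) := (s2 (ζ ^ M) D.w hζMc).symm
        _ = D.s.rt (D.TB (t * D.w)) := by rw [ht', (r3 t D.w D.wc).2]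
        _ = D.TA (t * D.w) := r1 _
    obtain ⟨k, hk⟩ := D.np (t * D.w)
    refine ⟨M * k, ?_⟩
    rw [pow_mul, h4]
    exact hk

end Pool.Agent.PFE.H7
end
end -- Pool.Agent.Helper7_PFE.KZT

section -- Pool.Agent.Helper80_PFE.YKY

/-!
# Row YKY of squad PFE: the data over the field
-/

open scoped BigOperators

namespace Pool.Agent.PFE.H80

open Pool.Agent.PFE

theorem yky (hR : RtkStmt) (hZ : ZpyStmt) (hH : HsyStmt) : YkyStmt := by
  intro K A X J Ω Ω' _ _ _ _ _ _ _ _ _ _ y l χ D hu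
  obtain ⟨-, -, h3, h4, -⟩ := hR K A X J Ω Ω' y l χ D
  have hc : ∀ b, b * D.RT 1 = D.RT 1 * b := h3 1 (by simp)
  obtain ⟨u, hu'⟩ := hu
  have hw : ∀ b : A, (↑u⁻¹ : A) * b = b * ↑u⁻¹ := by
    intro b
    have h : Commute (u : A) b := by
      rw [hu']
      exact (hc b).symm
    exact h.units_inv_left
  refine ⟨{ D with
    w := ↑u⁻¹
    wy := (hw y).symm
    rw := ?_
    np := ?_ }, rfl⟩
  · have h := h4 (↑u⁻¹ : A) 1 hw
    rw [mul_one] at h
    change D.RT (↑u⁻¹ : A) = 1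
    rw [h, ← hu', Units.inv_mul]
  · intro a
    exact hZ K A J D.d (D.RT 1) D.ds (fun a => (hc a).symm) ⟨u, hu'⟩
      (fun e he => hH K A X J Ω Ω' y l χ D e he) a

end Pool.Agent.PFE.H80
end -- Pool.Agent.Helper80_PFE.YKY

section -- Pool.Agent.Helper82_PFE.TXR

/-!
# Squad PFE, row TXR: rules for `N_x` and `T_c`
-/

set_option autoImplicit false

open scoped BigOperators

namespace Pool.Agent.PFE.H82

open Pool.Agent.PFE

variable {R A X : Type} [CommRing R] [Ring A] [Algebra R A] [Group X]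

theorem pow_n {y : A} {χ : X →* R} {x : X} {n : A} (hn : n ∈ Nx y χ x) (j : ℕ) :
    y ^ j * n = χ x ^ j • (n * y ^ j) := by
  have h : y * n = χ x • (n * y) := hn
  induction j with
  | zero => simp
  | succ j ih =>
    rw [pow_succ, mul_assoc, h, mul_smul_comm, ← mul_assoc, ih, smul_mul_assoc, smul_smul,
      mul_assoc, ← pow_succ, ← pow_succ']

theorem n_pow {y : A} {l : ℕ} {χ : X →* R} (hχ : ∀ x, χ x ^ (l - 1) = 1) {x : X} {n : A}
    (hn : n ∈ Nx y χ x) (j : ℕ) (hj : j < l) :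
    n * y ^ j = χ x ^ (l - 1 - j) • (y ^ j * n) := by
  rw [pow_n hn j, smul_smul, ← pow_add, show l - 1 - j + j = l - 1 by omega, hχ x, one_smul]

theorem tx_n {y : A} {l : ℕ} {χ : X →* R} (hl : 1 ≤ l) (x x' : X) (n : A)
    (hn : n ∈ Nx y χ x') :
    Tx y l (χ x) n = (∑ k ∈ Finset.range l, χ (x * x'⁻¹) ^ k) • (y ^ (l - 1) * n) := by
  unfold Tx
  rw [Finset.sum_smul, ← Finset.sum_range_reflect]
  refine Finset.sum_congr rfl fun k hk => ?_
  have hk' : k < l := Finset.mem_range.1 hk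
  have h1 : l - 1 - (l - 1 - k) = k := by omega
  rw [h1]
  have h2 : y ^ (l - 1) * n = y ^ (l - 1 - k) * (χ x' ^ k • (n * y ^ k)) := by
    rw [← pow_n hn k, ← mul_assoc, ← pow_add, show l - 1 - k + k = l - 1 by omega]
  have h3 : χ (x * x'⁻¹) ^ k * χ x' ^ k = χ x ^ k := by
    rw [← mul_pow, ← map_mul, inv_mul_cancel_right]
  rw [h2, mul_smul_comm, smul_smul, h3, mul_assoc]

theorem txr : TxrStmt := by
  intro R A X _ _ _ _ y l χ hl hy hχ
  refine ⟨?_, ?_, ?_, ?_, ?_, ?_, ?_⟩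
  · intro x a
    show y * Tx y l (χ x) a = χ x • (Tx y l (χ x) a * y)
    obtain ⟨F, hF⟩ : ∃ F : ℕ → A, F = fun j => χ x ^ (l - j) • (y ^ j * a * y ^ (l - j)) :=
      ⟨_, rfl⟩
    have h1 : y * Tx y l (χ x) a = ∑ j ∈ Finset.range l, F (j + 1) := by
      unfold Tx
      rw [Finset.mul_sum]
      refine Finset.sum_congr rfl fun j _ => ?_
      rw [hF]
      show y * (χ x ^ (l - 1 - j) • (y ^ j * a * y ^ (l - 1 - j))) =
        χ x ^ (l - (j + 1)) • (y ^ (j + 1) * a * y ^ (l - (j + 1)))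
      rw [show l - (j + 1) = l - 1 - j by omega, mul_smul_comm, pow_succ', mul_assoc, mul_assoc,
        mul_assoc]
    have h2 : χ x • (Tx y l (χ x) a * y) = ∑ j ∈ Finset.range l, F j := by
      unfold Tx
      rw [Finset.sum_mul, Finset.smul_sum]
      refine Finset.sum_congr rfl fun j hj => ?_
      rw [hF]
      have hj' : j < l := Finset.mem_range.1 hj
      show χ x • (χ x ^ (l - 1 - j) • (y ^ j * a * y ^ (l - 1 - j)) * y) =
        χ x ^ (l - j) • (y ^ j * a * y ^ (l - j))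
      rw [show l - j = l - 1 - j + 1 by omega, smul_mul_assoc, smul_smul, ← pow_succ', pow_succ y,
        mul_assoc (y ^ j * a)]
    have h3 : F l = 0 := by
      rw [hF]
      show χ x ^ (l - l) • (y ^ l * a * y ^ (l - l)) = 0
      rw [hy, zero_mul, zero_mul, smul_zero]
    have h4 : F 0 = 0 := by
      rw [hF]
      show χ x ^ (l - 0) • (y ^ 0 * a * y ^ (l - 0)) = 0
      rw [Nat.sub_zero, hy, mul_zero, smul_zero]
    have h5 := Finset.sum_range_succ F l
    have h6 := Finset.sum_range_succ' F l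
    rw [h3, add_zero] at h5
    rw [h4, add_zero] at h6
    rw [h1, h2, ← h6, h5]
  · intro x x' n a hn
    unfold Tx
    rw [Finset.mul_sum]
    refine Finset.sum_congr rfl fun j hj => ?_
    rw [mul_smul_comm, ← mul_assoc, ← mul_assoc, n_pow hχ hn j (Finset.mem_range.1 hj),
      smul_mul_assoc, smul_mul_assoc, smul_smul, map_mul, mul_pow, mul_comm (χ x' ^ _),
      mul_assoc (y ^ j) n a]
  · intro x x' n a hn
    unfold Tx
    rw [Finset.sum_mul]
    refine Finset.sum_congr rfl fun j hj => ?_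
    rw [smul_mul_assoc, mul_assoc, pow_n hn (l - 1 - j), mul_smul_comm, smul_smul, map_mul,
      mul_pow, ← mul_assoc, ← mul_assoc]
  · intro c a
    constructor
    · unfold Tx
      rw [Finset.mul_sum]
      refine Finset.sum_congr rfl fun j _ => ?_
      rw [mul_smul_comm, ← mul_assoc, ← mul_assoc, ← mul_assoc, ← pow_succ', pow_succ]
    · unfold Tx
      rw [Finset.sum_mul]
      refine Finset.sum_congr rfl fun j _ => ?_
      rw [smul_mul_assoc, mul_assoc (y ^ j * a), ← pow_succ, pow_succ', ← mul_assoc,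
        mul_assoc (y ^ j) a y]
  · intro x n hn
    have h : y * n = χ x • (n * y) := hn
    refine ⟨?_, ?_, pow_n hn⟩
    · show y * (y * n) = χ x • (y * n * y)
      rw [h, mul_smul_comm, ← mul_assoc, h]
    · show y * (n * y) = χ x • (n * y * y)
      rw [← mul_assoc, h, smul_mul_assoc]
  · intro x x' n hu hn
    rw [tx_n hl x x' n hn]
    have h1 : ∑ k ∈ Finset.range (l - 1), χ (x * x'⁻¹) ^ k = 0 := by
      have h2 := mul_neg_geom_sum (χ (x * x'⁻¹)) (l - 1)
      rw [hχ, sub_self] at h2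
      exact (hu.mul_right_eq_zero).1 h2
    have h2 : l = l - 1 + 1 := by omega
    rw [h2, Finset.sum_range_succ, h1, zero_add, hχ, one_smul]
  · intro x n hn
    rw [tx_n hl x x n hn]
    congr 1
    simp
end Pool.Agent.PFE.H82
end -- Pool.Agent.Helper82_PFE.TXR

section -- Pool.Agent.Helper84_PFE.ORY

/-! Squad PFE, row ORY: the orthogonal projection (edit of Helper52_PFD/ORT.lean). -/

set_option autoImplicit false

open scoped BigOperators TensorProduct

noncomputable section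

namespace Pool.Agent.PFE.H84

open Pool.Agent.PFC.B1 (BiM FS Sep Split)
open Pool.Agent.PFD.D2
open Pool.Agent.PFD.D2b
open Pool.Agent.PFD.D4 (UnmStmt)

/-- elements are determined by the values `lam (x γ)` -/
theorem lam_det {R Γ W I : Type} [CommRing R] [Ring Γ] [Algebra R Γ] [CommGroup W] [Fintype W]
    [Fintype I] (D : WFS R Γ W I) {x y : Γ} (h : ∀ γ, D.lam (x * γ) = D.lam (y * γ)) : x = y := by
  rw [← D.h2 x, ← D.h2 y]
  refine Finset.sum_congr rfl fun i _ => Finset.sum_congr rfl fun w _ => ?_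
  rw [h]

section ee

variable {R Γ A1 W I : Type} [CommRing R] [Ring Γ] [Algebra R Γ] [Ring A1] [Algebra R A1]
  [CommGroup W] [Fintype W] [Fintype I] (D : WFS R Γ W I) (j : Γ →ₐ[R] A1) (tA : A1 →ₗ[R] R)

/-- the map `e` -/
def emap : A1 →ₗ[R] Γ where
  toFun := fun a => ∑ s, tA (a * j (D.fs.b s)) • D.fs.b' s
  map_add' := fun a b => by
    simp only [add_mul, map_add, add_smul, Finset.sum_add_distrib]
  map_smul' := fun r a => by
    rw [RingHom.id_apply, Finset.smul_sum]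
    refine Finset.sum_congr rfl fun s _ => ?_
    rw [smul_mul_assoc, map_smul, smul_assoc]

theorem lam_emap (a : A1) (γ : Γ) : D.lam (emap D j tA a * γ) = tA (a * j γ) := by
  have h1 : γ = ∑ s, D.fs.lam (D.fs.b' s * γ) • D.fs.b s := (D.fs.h1 γ).symm
  conv_rhs => rw [h1]
  change D.lam ((∑ s, tA (a * j (D.fs.b s)) • D.fs.b' s) * γ) = _
  rw [Finset.sum_mul, map_sum, map_sum, Finset.mul_sum, map_sum]
  refine Finset.sum_congr rfl fun s _ => ?_
  rw [smul_mul_assoc, map_smul, map_smul, mul_smul_comm, map_smul, smul_eq_mul, smul_eq_mul,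
    mul_comm]
  rfl

variable {tA} (ts : ∀ a b, tA (a * b) = tA (b * a))

include ts

theorem emap_l (δ : Γ) (a : A1) : emap D j tA (j δ * a) = δ * emap D j tA a := by
  apply lam_det D
  intro γ
  rw [lam_emap, mul_assoc δ, D.sym δ, mul_assoc (emap D j tA a), lam_emap, mul_assoc (j δ), ts,
    mul_assoc a, ← map_mul j]

omit ts in
theorem emap_r (δ : Γ) (a : A1) : emap D j tA (a * j δ) = emap D j tA a * δ := by
  apply lam_det D
  intro γ
  rw [lam_emap, mul_assoc a, mul_assoc (emap D j tA a), lam_emap, map_mul j]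

end ee

theorem ory (gwf : GwfStmt) (lcu : LcuStmt) (rwf : RwfStmt) (unm : UnmStmt) : OryStmt := by
  intro R F Γ Γ0 W A A1 X Ω Ω' _ _ c _ _ _ _ _ _ _ _ _ _ _ _ _ _ _ _ _ _ l G f χ j0 pr0 mu la
    tA hl h1 h2 h3 ms mp mn ts tm
  obtain ⟨D, hDlam, -, -, -⟩ := gwf R Γ W l G hl
  obtain ⟨D0, hD0, -⟩ := rwf R F Γ Γ0 W (Fin l) c f D
  -- the element `u`
  obtain ⟨u, uc, hu⟩ := (lcu R Γ W (Fin l) D).1 (tA ∘ₗ la.j.toLinearMap) (by
    intro x y
    change tA (la.j (x * y)) = tA (la.j (y * x))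
    rw [map_mul la.j, map_mul la.j, ts])
  have hu' : ∀ γ, tA (la.j γ) = D.lam (u * γ) := fun γ => hu γ
  have hfu : ∀ γ0 : Γ0, D0.lam (f.q u * γ0) = mu (j0 γ0) := by
    intro γ0
    obtain ⟨γ, rfl⟩ := f.surj γ0
    rw [← map_mul, hD0, ← hu', tm, la.cj]
  have hfc : ∀ γ0 : Γ0, f.q u * γ0 = γ0 * f.q u := fun γ0 => mul_comm _ _
  have hinj : ∀ γ0 : Γ0, f.q u * γ0 = 0 → γ0 = 0 := by
    intro γ0 h0
    have h4 : ∀ a, mu (j0 γ0 * a) = 0 := by
      intro a
      rw [← mp, h2, ← hfu, ← mul_assoc, h0, zero_mul, map_zero]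
    have h5 := mn _ h4
    rw [← h1 γ0, h5, map_zero]
  have hunit : IsUnit (f.q u) := by
    have h4 : Function.Injective (LinearMap.mulLeft F (f.q u)) := by
      rw [injective_iff_map_eq_zero]
      intro x hx
      exact hinj x hx
    obtain ⟨v, hv⟩ := LinearMap.injective_iff_surjective.mp h4 1
    have hv' : f.q u * v = 1 := hv
    exact ⟨⟨f.q u, v, hv', by rw [← hfc, hv']⟩, rfl⟩
  obtain ⟨U, hU⟩ := unm R F Γ0 Γ c f u hunit
  obtain ⟨u', hu'def⟩ : ∃ u' : Γ, u' = ((U⁻¹ : Γˣ) : Γ) := ⟨_, rfl⟩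
  have huu : u * u' = 1 := by
    rw [hu'def, ← hU]
    exact U.mul_inv
  have huu' : u' * u = 1 := by
    rw [hu'def, ← hU]
    exact U.inv_mul
  have uc' : ∀ γ, u' * γ = γ * u' := fun γ => mul_comm _ _
  -- the projection
  obtain ⟨e, he⟩ : ∃ e : A1 →ₗ[R] Γ, e = emap D la.j tA := ⟨_, rfl⟩
  have elam : ∀ a γ, D.lam (e a * γ) = tA (a * la.j γ) := fun a γ => by rw [he, lam_emap]
  have el : ∀ δ a, e (la.j δ * a) = δ * e a := fun δ a => by rw [he, emap_l D la.j ts]
  have er : ∀ δ a, e (a * la.j δ) = e a * δ := fun δ a => by rw [he, emap_r D la.j]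
  obtain ⟨pr', hpr'⟩ : ∃ pr' : A1 →ₗ[R] Γ, ∀ a, pr' a = u' * e a :=
    ⟨(LinearMap.mulLeft R u') ∘ₗ e, fun a => rfl⟩
  have upr : ∀ a, u * pr' a = e a := fun a => by rw [hpr', ← mul_assoc, huu, one_mul]
  have prj : ∀ γ, pr' (la.j γ) = γ := by
    intro γ
    have h4 : e (la.j γ) = u * γ := by
      apply lam_det D
      intro δ
      rw [elam, ← map_mul la.j, hu', mul_assoc]
    rw [hpr', h4, ← mul_assoc, huu', one_mul]
  have prl : ∀ γ x, pr' (la.j γ * x) = γ * pr' x := by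
    intro γ x
    rw [hpr', hpr', el, ← mul_assoc, uc', mul_assoc]
  have prr : ∀ x γ, pr' (x * la.j γ) = pr' x * γ := by
    intro x γ
    rw [hpr', hpr', er, mul_assoc]
  have hcp : ∀ x, pr0 (la.fb.q x) = f.q (pr' x) := by
    intro x
    have h4 : f.q u * pr0 (la.fb.q x) = f.q u * f.q (pr' x) := by
      apply lam_det D0
      intro γ0
      obtain ⟨γ, rfl⟩ := f.surj γ0
      rw [mul_assoc, hfu, ← h3, mp, ← map_mul f.q, ← map_mul f.q, hD0, upr, elam, tm,
        map_mul la.fb.q, la.cj]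
    exact hunit.mul_left_cancel h4
  refine ⟨{
    fb := la.fb
    j := la.j
    pr := pr'
    pr_j := prj
    pr_l := prl
    pr_r := prr
    cj := la.cj
    cp := hcp
    fr := la.fr }, u, u', rfl, rfl, huu, ?_⟩
  intro a
  change tA a = G.co (l - 1) 1 (u * pr' a)
  rw [← hDlam, upr, ← mul_one (e a), elam, map_one, mul_one]

end Pool.Agent.PFE.H84
end
end -- Pool.Agent.Helper84_PFE.ORY

section -- Pool.Agent.Helper85_PFE.WSE

/-! Squad PFE, row WSE (234): the structure `WS` of the local algebra. -/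

set_option autoImplicit false

open scoped BigOperators

noncomputable section

namespace Pool.Agent.PFE.H85

open Pool.Agent.PFC.B1 (FS)

section

variable {R A X S J Ω Ω' W : Type} [CommRing R] [Ring A] [Algebra R A] [Group X] [Fintype X]
  [Ring S] [Algebra R S] {y : A} {l : ℕ} {χ : X →* R}

theorem p_congr (L : LS R A X S y l χ) {x x' : X} (a : Nx y χ x) (a' : Nx y χ x') (hx : x = x')
    (ha : (a : A) = a') : L.p x a = L.p x' a' := by
  subst hx
  congr 1
  exact Subtype.ext ha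

omit [Fintype X] in
theorem mem_one {a : A} (h : y * a = a * y) : a ∈ Nx y χ 1 := by
  show y * a = χ 1 • (a * y)
  rw [map_one, one_smul, h]

end

theorem wse (stf : StfStmt) : WseStmt := by
  intro R A X S J Ω Ω' W _ _ _ _ _ _ _ _ _ _ _ _ _ _ y l χ D Y L
  obtain ⟨f, hg', sy, t1, fb, fb', -⟩ := stf R A X S J Ω Ω' y l χ D L
  have hom : ∀ w, Y.om w ∈ Nx y χ 1 := fun w => mem_one (Y.omy w)
  have hrho : Y.rho ∈ Nx y χ 1 := mem_one (Y.rc y).symm
  have homm : ∀ w w', L.p 1 ⟨Y.om (w * w'), hom (w * w')⟩ =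
      L.p 1 ⟨Y.om w, hom w⟩ * L.p 1 ⟨Y.om w', hom w'⟩ := by
    intro w w'
    rw [L.mul]
    exact p_congr L _ _ (mul_one 1).symm (map_mul Y.om w w')
  have hom1 : L.p 1 ⟨Y.om 1, hom 1⟩ = 1 := by
    rw [← L.one]
    exact p_congr L _ _ rfl (map_one Y.om)
  obtain ⟨om, hOm⟩ : ∃ om : W →* S, ∀ w, om w = L.p 1 ⟨Y.om w, hom w⟩ :=
    ⟨{ toFun := fun w => L.p 1 ⟨Y.om w, hom w⟩, map_one' := hom1, map_mul' := homm },
      fun _ => rfl⟩
  have hcen : ∀ s, L.p 1 ⟨Y.rho, hrho⟩ * s = s * L.p 1 ⟨Y.rho, hrho⟩ := by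
    intro s
    rw [← L.cs s, Finset.mul_sum, Finset.sum_mul]
    refine Finset.sum_congr rfl fun x _ => ?_
    obtain ⟨a, ha⟩ := L.ps x s
    rw [← ha, L.mul, L.mul]
    exact p_congr L _ _ (by rw [one_mul, mul_one]) (Y.rc a)
  have hunit : IsUnit (L.p 1 ⟨Y.rho, hrho⟩) := by
    obtain ⟨u, hu⟩ := Y.ru
    have h1 : (Y.rho) * (↑u⁻¹ : A) = 1 := by rw [← hu, Units.mul_inv]
    have h2 : (↑u⁻¹ : A) * Y.rho = 1 := by rw [← hu, Units.inv_mul]
    have h3 : y * (↑u⁻¹ : A) = ↑u⁻¹ * y := by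
      calc y * (↑u⁻¹ : A) = ↑u⁻¹ * Y.rho * (y * ↑u⁻¹) := by rw [h2, one_mul]
        _ = ↑u⁻¹ * (Y.rho * y) * ↑u⁻¹ := by simp only [mul_assoc]
        _ = ↑u⁻¹ * (y * Y.rho) * ↑u⁻¹ := by rw [Y.rc]
        _ = ↑u⁻¹ * y * (Y.rho * ↑u⁻¹) := by simp only [mul_assoc]
        _ = ↑u⁻¹ * y := by rw [h1, mul_one]
    have h4 : L.p 1 ⟨Y.rho, hrho⟩ * L.p 1 ⟨(↑u⁻¹ : A), mem_one h3⟩ = 1 := by
      rw [L.mul, ← L.one]
      exact p_congr L _ _ (mul_one 1) h1
    have h5 : L.p 1 ⟨(↑u⁻¹ : A), mem_one h3⟩ * L.p 1 ⟨Y.rho, hrho⟩ = 1 := by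
      rw [L.mul, ← L.one]
      exact p_congr L _ _ (mul_one 1) h2
    exact ⟨⟨_, _, h4, h5⟩, rfl⟩
  have hgg : ∀ o, D.g o * D.g' o ∈ Nx y χ 1 := by
    intro o
    have h := Nx_mul (show D.g o ∈ Nx y χ (D.deg o) from D.gy o) (hg' o)
    rwa [mul_inv_cancel] at h
  have hrr : ∑ o, f.b o * f.b' o = (Fintype.card W : R) • L.p 1 ⟨Y.rho, hrho⟩ := by
    have h1 : ∀ o, f.b o * f.b' o = L.p 1 ⟨D.g o * D.g' o, hgg o⟩ := by
      intro o
      rw [fb, fb', L.mul]
      exact p_congr L _ _ (mul_inv_cancel _) rfl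
    simp_rw [h1]
    rw [← map_sum, ← map_smul, ← sub_eq_zero, ← map_sub, L.ker]
    have h2 : ((∑ o, (⟨D.g o * D.g' o, hgg o⟩ : Nx y χ 1) -
        (Fintype.card W : R) • (⟨Y.rho, hrho⟩ : Nx y χ 1) : Nx y χ 1) : A) =
        -∑ o, Tx y l (χ 1) (D.h o * D.h' o) := by
      rw [Submodule.coe_sub, Submodule.coe_sum, Submodule.coe_smul]
      change ∑ o, D.g o * D.g' o - (Fintype.card W : R) • Y.rho = _
      rw [← Y.rr, Yd.RT, Fintype.sum_sum_type]
      have h3 : ∀ o, D.e (Sum.inl o) * 1 * D.e' (Sum.inl o) = D.g o * D.g' o := by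
        intro o
        rw [mul_one]
        rfl
      have h4 : ∑ r : Ω' × Fin l, D.e (Sum.inr r) * 1 * D.e' (Sum.inr r) =
          ∑ o, Tx y l (χ 1) (D.h o * D.h' o) := by
        rw [Fintype.sum_prod_type]
        refine Finset.sum_congr rfl fun o _ => ?_
        rw [Tx, map_one, Finset.sum_range]
        refine Finset.sum_congr rfl fun i _ => ?_
        rw [one_pow, one_smul, mul_one]
        change y ^ (i : ℕ) * D.h o * (D.h' o * y ^ (l - 1 - (i : ℕ))) = _
        simp only [mul_assoc]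
      simp_rw [h3]
      rw [h4]
      abel
    rw [h2]
    refine Submodule.neg_mem _ (Submodule.sum_mem _ fun o _ => Submodule.subset_span ?_)
    exact Or.inl ⟨_, rfl⟩
  have hgb : ∀ o, L.c (D.deg o) (f.b o) = f.b o := by
    intro o
    rw [fb]
    exact L.pc _ _
  have hgb' : ∀ o, L.c (D.deg o)⁻¹ (f.b' o) = f.b' o := by
    intro o
    rw [fb']
    exact L.pc _ _
  have ho1 : ∀ w, L.c 1 (om w) = om w := by
    intro w
    rw [hOm]
    exact L.pc _ _
  have hbw : ∀ (w : W × W) (o : Ω), f.b (w • o) = om w.1 * f.b o * om w.2⁻¹ := by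
    intro w o
    rw [fb, fb, hOm, hOm, L.mul, L.mul]
    exact p_congr L _ _ (by rw [Y.dg, one_mul, mul_one]) (Y.gw w o)
  have hbw' : ∀ (w : W × W) (o : Ω), f.b' (w • o) = om w.2 * f.b' o * om w.1⁻¹ := by
    intro w o
    rw [fb', fb', hOm, hOm, L.mul, L.mul]
    exact p_congr L _ _ (by rw [Y.dg, one_mul, mul_one]) (Y.gw' w o)
  exact ⟨⟨f, sy, t1, D.deg, Y.dg, Y.fo, hgb, hgb', om, ho1, hbw, hbw', L.p 1 ⟨Y.rho, hrho⟩,
    hcen, hunit, hrr⟩, rfl, fb, fun o _ => fb' o, fun w _ => hOm w, fun _ => rfl⟩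

end Pool.Agent.PFE.H85
end
end -- Pool.Agent.Helper85_PFE.WSE

section -- Pool.Agent.Helper86_PFE.KNX

/-! # Squad PFE, row KNX (helper86): the kernel of the projection in `N_x` -/

open scoped BigOperators

noncomputable section

namespace Pool.Agent.PFE.H86

open Pool.Agent.PFE

theorem knx (hA : TxaStmt) (hR : TxrStmt) : KnxStmt := by
  intro K A X S J Ω Ω' C _ _ _ _ _ _ _ _ _ _ _ _ y l χ D L F E pr h1 h2 h3 x a ha
  have hl : 1 ≤ l := le_trans one_le_two D.hl
  obtain ⟨Tadd, _, JJ, _, _⟩ := hA K A X y l χ hl D.yl D.χl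
  obtain ⟨_, _, _, Ty, _, _, _⟩ := hR K A X y l χ hl D.yl D.χl
  obtain ⟨q, hq⟩ : ∃ q : A →ₗ[K] A, ∀ b, q b = b - E.j (pr b) :=
    ⟨LinearMap.id - E.j.toLinearMap.comp pr, fun b => rfl⟩
  have qy : ∀ b, q (y * b) = y * q b := by
    intro b
    rw [hq, hq, mul_sub]
    congr 1
    have e := h2 E.Q.y b
    rw [E.jy] at e
    rw [e, map_mul, E.jy]
  have qyr : ∀ b, q (b * y) = q b * y := by
    intro b
    rw [hq, hq, sub_mul]
    congr 1
    have e := h3 b E.Q.y
    rw [E.jy] at e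
    rw [e, map_mul, E.jy]
  have qyk : ∀ (k : ℕ) b, q (y ^ k * b) = y ^ k * q b := by
    intro k
    induction k with
    | zero => intro b; rw [pow_zero, one_mul, one_mul]
    | succ k ih => intro b; rw [pow_succ, mul_assoc, ih, qy, mul_assoc]
  have qykr : ∀ (k : ℕ) b, q (b * y ^ k) = q b * y ^ k := by
    intro k
    induction k with
    | zero => intro b; rw [pow_zero, mul_one, mul_one]
    | succ k ih => intro b; rw [pow_succ, ← mul_assoc, qyr, ih, mul_assoc]
  have qT : ∀ b, q (Tx y l (χ x) b) = Tx y l (χ x) (q b) := by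
    intro b
    show q (∑ j ∈ Finset.range l, χ x ^ (l - 1 - j) • (y ^ j * b * y ^ (l - 1 - j))) =
      ∑ j ∈ Finset.range l, χ x ^ (l - 1 - j) • (y ^ j * q b * y ^ (l - 1 - j))
    rw [map_sum]
    refine Finset.sum_congr rfl fun j _ => ?_
    rw [map_smul, qykr, qyk]
  have qj : ∀ c, q (E.j c) = 0 := by
    intro c
    rw [hq, h1, sub_self]
  -- the claim
  have main : ∀ (n : ℕ) (b : A), b ∈ Nx y χ x → ∃ n' ∈ Nx y χ x, ∃ d,
      q b = Tx y l (χ x) d + y ^ n * q n' := by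
    intro n
    induction n with
    | zero =>
      intro b hb
      refine ⟨b, hb, 0, ?_⟩
      have e : Tx y l (χ x) (0 : A) = 0 := by
        show ∑ j ∈ Finset.range l, χ x ^ (l - 1 - j) • (y ^ j * 0 * y ^ (l - 1 - j)) = 0
        refine Finset.sum_eq_zero fun j _ => ?_
        rw [mul_zero, zero_mul, smul_zero]
      rw [e, zero_add, pow_zero, one_mul]
    | succ n ih =>
      intro b hb
      -- one step
      have hstep : ∃ n' ∈ Nx y χ x, ∃ d, q b = Tx y l (χ x) d + y * q n' := by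
        have hr := E.jx x (L.p x ⟨b, hb⟩)
        have hrb : b - E.j (E.Q.i (L.c x (L.p x ⟨b, hb⟩))) ∈ Jx y l χ x := by
          have hk := (L.ker x (⟨b, hb⟩ - ⟨_, hr⟩)).1 (by
            rw [map_sub, E.jp, L.pc, sub_self])
          exact hk
        obtain ⟨d, n', hn', hd⟩ := (JJ x _).1 hrb
        refine ⟨n', hn', q d, ?_⟩
        have e : q b = q (b - E.j (E.Q.i (L.c x (L.p x ⟨b, hb⟩)))) := by
          rw [map_sub, qj, sub_zero]
        rw [e, hd, map_add, qT, qy]
      obtain ⟨n1, hn1, d1, e1⟩ := hstep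
      obtain ⟨n2, hn2, d2, e2⟩ := ih n1 hn1
      refine ⟨n2, hn2, d1 + y * d2, ?_⟩
      rw [e1, e2, Tadd, mul_add, (Ty (χ x) d2).1, pow_succ', mul_assoc, add_assoc]
  obtain ⟨n', _, d, e⟩ := main l a ha
  refine ⟨d, ?_⟩
  rw [← hq, e, D.yl, zero_mul, add_zero]

end Pool.Agent.PFE.H86
end
end -- Pool.Agent.Helper86_PFE.KNX

section -- Pool.Agent.Helper90_PFE.CCE

/-!
# Squad PFE, row CCE (helper90): the algebra `C = S[y; sigma] / y^l` inside of `A`
-/

open scoped BigOperators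

noncomputable section

namespace Pool.Agent.PFE.H90

open Pool.Agent.PFE

section

variable {K A X S : Type} [Field K] [Ring A] [Algebra K A] [Group X] [Fintype X]
  [Ring S] [Algebra K S] {y : A} {l : ℕ} {χ : X →* K} {L : LS K A X S y l χ} (ρ : Rho L)

include ρ in
theorem yr (s : S) : y * ρ.r s = ρ.r (L.toGS.sg χ s) * y := by
  have h1 : ρ.r s = ∑ x, ρ.r (L.c x s) := by
    rw [← map_sum, L.cs]
  have h2 : L.toGS.sg χ s = ∑ x, χ x • L.c x s := by
    simp [GS.sg, LinearMap.sum_apply]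
  rw [h1, Finset.mul_sum, h2, map_sum, Finset.sum_mul]
  refine Finset.sum_congr rfl fun x _ => ?_
  have h3 : y * ρ.r (L.c x s) = χ x • (ρ.r (L.c x s) * y) := ρ.rx x s
  rw [h3, map_smul, smul_mul_assoc]

theorem ykr (k : ℕ) (s : S) : y ^ k * ρ.r s = ρ.r ((L.toGS.sg χ ^ k) s) * y ^ k := by
  induction k generalizing s with
  | zero => simp
  | succ k ih =>
    rw [pow_succ y k, mul_assoc, yr ρ s, ← mul_assoc, ih, mul_assoc, pow_succ (L.toGS.sg χ) k]
    rfl

/-- the map from the coefficients to `A` -/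
def Ph : (Fin l → S) →ₗ[K] A :=
  ∑ k : Fin l, (LinearMap.mulRight K (y ^ (k : ℕ))) ∘ₗ ρ.r.toLinearMap ∘ₗ LinearMap.proj k

theorem Ph_apply (f : Fin l → S) : Ph ρ f = ∑ k : Fin l, ρ.r (f k) * y ^ (k : ℕ) := by
  simp [Ph, LinearMap.sum_apply]

theorem mem_pow (yl : y ^ l = 0) (n : ℕ) (s : S) : ρ.r s * y ^ n ∈ LinearMap.range (Ph ρ) := by
  by_cases h : n < l
  · refine ⟨Pi.single ⟨n, h⟩ s, ?_⟩
    rw [Ph_apply, Finset.sum_eq_single (⟨n, h⟩ : Fin l)]
    · simp
    · intro b _ hb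
      rw [Pi.single_eq_of_ne hb, map_zero, zero_mul]
    · intro h'
      exact absurd (Finset.mem_univ _) h'
  · have : y ^ n = 0 := by
      obtain ⟨m, rfl⟩ := Nat.exists_eq_add_of_le (Nat.le_of_not_lt h)
      rw [pow_add, yl, zero_mul]
    rw [this, mul_zero]
    exact Submodule.zero_mem _

theorem mul_mem' (yl : y ^ l = 0) {a b : A} (ha : a ∈ LinearMap.range (Ph ρ))
    (hb : b ∈ LinearMap.range (Ph ρ)) : a * b ∈ LinearMap.range (Ph ρ) := by
  obtain ⟨f, rfl⟩ := ha
  obtain ⟨g, rfl⟩ := hb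
  rw [Ph_apply, Ph_apply, Finset.sum_mul_sum]
  refine Submodule.sum_mem _ fun i _ => Submodule.sum_mem _ fun j _ => ?_
  have h : ρ.r (f i) * y ^ (i : ℕ) * (ρ.r (g j) * y ^ (j : ℕ)) =
      ρ.r (f i * (L.toGS.sg χ ^ (i : ℕ)) (g j)) * y ^ ((i : ℕ) + (j : ℕ)) := by
    rw [mul_assoc, ← mul_assoc (y ^ (i : ℕ)), ykr, map_mul, pow_add]
    simp only [mul_assoc]
  rw [h]
  exact mem_pow ρ yl _ _

/-- the subalgebra `C` of `A` -/
def Cs (yl : y ^ l = 0) : Subalgebra K A where
  carrier := LinearMap.range (Ph ρ)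
  mul_mem' := mul_mem' ρ yl
  add_mem' := fun ha hb => Submodule.add_mem _ ha hb
  algebraMap_mem' := by
    intro r
    have h := mem_pow ρ yl 0 (algebraMap K S r)
    rw [pow_zero, mul_one, AlgHom.commutes] at h
    exact h

end

theorem cce : CceStmt := by
  intro K A X S J Ω Ω' _ _ _ _ _ _ _ _ _ _ _ y l χ D L F ρ
  have yl : y ^ l = 0 := D.yl
  have hl : 2 ≤ l := D.hl
  -- the form
  have ht : ∀ t : S, F.f.lam t = D.d.lam (y ^ (l - 1) * ρ.r t) := by
    intro t
    have h1 : ρ.r t = ∑ x, ρ.r (L.c x t) := by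
      rw [← map_sum, L.cs]
    have h2 : F.f.lam t = ∑ x, F.f.lam (L.c x t) := by
      rw [← map_sum, L.cs]
    rw [h1, Finset.mul_sum, map_sum, h2]
    refine Finset.sum_congr rfl fun x _ => ?_
    have h3 := F.el x ⟨ρ.r (L.c x t), ρ.rx x t⟩
    rw [ρ.rp] at h3
    exact h3
  have hz : ∀ s : S, ρ.r s * y ^ (l - 1) = 0 → s = 0 := by
    intro s hs
    have h4 : ∀ t : S, F.f.lam (t * s) = 0 := by
      intro t
      rw [ht, map_mul ρ.r, ← mul_assoc, D.ds, ← mul_assoc, hs, zero_mul, map_zero]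
    have h5 := F.f.h1 s
    rw [← h5]
    refine Finset.sum_eq_zero fun i _ => ?_
    rw [h4, zero_smul]
  have hinj : ∀ f : Fin l → S, Ph ρ f = 0 → f = 0 := by
    intro f hf
    have h6 : ∀ n (hn : n < l), f ⟨n, hn⟩ = 0 := by
      intro n
      induction n using Nat.strong_induction_on with
      | _ n ih =>
        intro hn
        apply hz
        have h7 : Ph ρ f * y ^ (l - 1 - n) = ρ.r (f ⟨n, hn⟩) * y ^ (l - 1) := by
          rw [Ph_apply, Finset.sum_mul, Finset.sum_eq_single (⟨n, hn⟩ : Fin l)]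
          · rw [mul_assoc, ← pow_add]
            congr 2
            show n + (l - 1 - n) = l - 1
            omega
          · intro b _ hb
            by_cases hbn : (b : ℕ) < n
            · have h8 := ih b hbn b.2
              rw [show f b = 0 from h8, map_zero, zero_mul, zero_mul]
            · have h9 : n < (b : ℕ) := by
                rcases Nat.lt_or_ge n (b : ℕ) with h | h
                · exact h
                · exact absurd (Fin.ext (by show (b : ℕ) = n; omega)) hb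
              have h10 : y ^ (b : ℕ) * y ^ (l - 1 - n) = 0 := by
                rw [← pow_add]
                obtain ⟨m, hm⟩ := Nat.exists_eq_add_of_le (show l ≤ (b : ℕ) + (l - 1 - n) by omega)
                rw [hm, pow_add, yl, zero_mul]
              rw [mul_assoc, h10, mul_zero]
          · intro h'
            exact absurd (Finset.mem_univ _) h'
        rw [← h7, hf, zero_mul]
    funext k
    exact h6 k k.2
  have hinj' : Function.Injective (Ph ρ) := (injective_iff_map_eq_zero _).2 hinj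
  let C := Cs ρ yl
  -- coordinates
  let E : (Fin l → S) ≃ₗ[K] LinearMap.range (Ph ρ) := LinearEquiv.ofInjective (Ph ρ) hinj'
  let T : C →ₗ[K] LinearMap.range (Ph ρ) :=
    { toFun := fun c => ⟨c.1, c.2⟩, map_add' := fun _ _ => rfl, map_smul' := fun _ _ => rfl }
  let co : ℕ → (C →ₗ[K] S) := fun k =>
    if h : k < l then (LinearMap.proj (⟨k, h⟩ : Fin l)) ∘ₗ E.symm.toLinearMap ∘ₗ T else 0
  have hEs : ∀ c : C, Ph ρ (E.symm (T c)) = (c : A) := by
    intro c
    have h : (E (E.symm (T c)) : A) = (T c : A) := by rw [LinearEquiv.apply_symm_apply]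
    exact h
  have hTE : ∀ (c : C) (f : Fin l → S), (c : A) = Ph ρ f → E.symm (T c) = f := by
    intro c f hcf
    apply hinj'
    rw [hEs, hcf]
  have hmi : ∀ s : S, ρ.r s ∈ C := by
    intro s
    have h := mem_pow ρ yl 0 s
    rw [pow_zero, mul_one] at h
    exact h
  have hmy : y ∈ C := by
    have h := mem_pow ρ yl 1 1
    rw [pow_one, map_one, one_mul] at h
    exact h
  let i : S →ₐ[K] C := ρ.r.codRestrict C hmi
  let Y : C := ⟨y, hmy⟩
  have hsum : ∀ s : ℕ → S, ((∑ k ∈ Finset.range l, i (s k) * Y ^ k : C) : A) =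
      Ph ρ (fun k => s k) := by
    intro s
    rw [Ph_apply]
    rw [show ((∑ k ∈ Finset.range l, i (s k) * Y ^ k : C) : A) =
      ∑ k ∈ Finset.range l, ((i (s k) * Y ^ k : C) : A) from by
        exact map_sum C.val _ _]
    rw [Finset.sum_range]
    rfl
  refine ⟨C, inferInstance, inferInstance, inferInstance,
    { i := i, y := Y, yl := ?_, ys := ?_, co := co, ex := ?_, un := ?_ }, C.val, ?_, rfl, ?_⟩
  · apply Subtype.ext
    show y ^ l = 0
    exact yl
  · intro s
    apply Subtype.ext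
    show y * ρ.r s = ρ.r (L.toGS.sg χ s) * y
    exact yr ρ s
  · intro c
    apply Subtype.ext
    rw [hsum (fun k => co k c), ← hEs c]
    congr 1
    funext k
    show co (k : ℕ) c = E.symm (T c) k
    have : co (k : ℕ) = (LinearMap.proj (⟨(k : ℕ), k.2⟩ : Fin l)) ∘ₗ E.symm.toLinearMap ∘ₗ T :=
      dif_pos k.2
    rw [this]
    rfl
  · intro s k hk
    have : co k = (LinearMap.proj (⟨k, hk⟩ : Fin l)) ∘ₗ E.symm.toLinearMap ∘ₗ T :=
      dif_pos hk
    rw [this]
    have h := hTE (∑ j ∈ Finset.range l, i (s j) * Y ^ j) (fun k => s k) (hsum s)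
    show E.symm (T (∑ j ∈ Finset.range l, i (s j) * Y ^ j)) ⟨k, hk⟩ = s k
    rw [h]
  · exact Subtype.val_injective
  · intro s
    rfl

end Pool.Agent.PFE.H90
end
end -- Pool.Agent.Helper90_PFE.CCE

section -- Pool.Agent.Helper92_PFE.SPY

/-!
# Squad PFE, row SPY: a framed complement is a retract of the bimodule with the same basis
-/

set_option autoImplicit false

open scoped BigOperators

noncomputable section

namespace Pool.Agent.PFE.H92

open MulOpposite
open Pool.Agent.PFC.B1 (FS Split BiM Sep)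
open Pool.Agent.PFD (RF)
open Pool.Agent.PFD.D2
open Pool.Agent.PFD.D2b (wrp FPl FrR WFS)

theorem spy (hoy : HoyStmt) : SpyStmt := by
  intro R Γ W A M X Ω Ω' _ _ _ _ _ _ _ _ _ _ _ _ _ _ l G χ j pr F BX FX hl hpj hpl hpr hdeg
  obtain ⟨i, hi, hi2⟩ := hoy R Γ W A M X Ω Ω' l G χ (AB j) BX
    (LinearMap.id - j.toLinearMap ∘ₗ pr) F FX.g FX.h hl FX.gw
    (fun o => by rw [hdeg]; exact FX.gy o) FX.hw
  obtain ⟨p, hp, hp2⟩ := hoy R Γ W M A X Ω Ω' l G χ BX (AB j) LinearMap.id FX.toYFr F.g F.h hl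
    F.gw (fun o => by rw [← hdeg]; exact F.gy o) F.hw
  have hel : ∀ a, i a = FX.toYFr.el (fun o i => F.c o ((AB j).lm (G.y ^ (l - 1 - i)) a))
      (fun o i k => F.d o ((AB j).lm (G.y ^ (l - 1 - i))
        ((AB j).rm (op (G.y ^ (l - 1 - k))) a))) := hi2
  refine ⟨⟨j, pr, hpj, hpl, hpr, i, fun γ x => hi.1 γ x, fun γ x => hi.2 (op γ) x, p,
    fun γ x => hp.1 γ x, fun γ x => hp.2 (op γ) x, ?_⟩, rfl, rfl⟩
  intro a
  have h1 : ∀ o, ∀ k ∈ Finset.range l, FX.c o (BX.lm (G.y ^ (l - 1 - k)) (i a)) =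
      F.c o ((AB j).lm (G.y ^ (l - 1 - k)) a) := by
    intro o k hk
    rw [hel]
    exact FX.un1 _ _ o k (Finset.mem_range.mp hk)
  have h2 : ∀ o, ∀ k ∈ Finset.range l, ∀ k' ∈ Finset.range l,
      FX.d o (BX.lm (G.y ^ (l - 1 - k)) (BX.rm (op (G.y ^ (l - 1 - k'))) (i a))) =
      F.d o ((AB j).lm (G.y ^ (l - 1 - k)) ((AB j).rm (op (G.y ^ (l - 1 - k'))) a)) := by
    intro o k hk k' hk'
    rw [hel]
    exact FX.un2 _ _ o k k' (Finset.mem_range.mp hk) (Finset.mem_range.mp hk')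
  rw [hp2]
  have h3 := F.fr a
  have h4 : (LinearMap.id - j.toLinearMap ∘ₗ pr : A →ₗ[R] A) a = a - j (pr a) := rfl
  rw [← h4, ← h3]
  congr 1
  · refine Finset.sum_congr rfl fun o _ => Finset.sum_congr rfl fun k hk => ?_
    rw [h1 o k hk]
  · refine Finset.sum_congr rfl fun o _ => Finset.sum_congr rfl fun k hk =>
      Finset.sum_congr rfl fun k' hk' => ?_
    rw [h2 o k hk k' hk']

end Pool.Agent.PFE.H92
end
end -- Pool.Agent.Helper92_PFE.SPY

section -- Pool.Agent.Helper9_PFE.CFU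

/-!
# Row CFU of squad PFE, part E1: the unit `u`
-/

open scoped BigOperators

noncomputable section

namespace Pool.Agent.PFE.H9

open Pool.Agent.PFC.B1 (FS Split)
open Pool.Agent.PFD (RF FotStmt)

theorem fs_left {K C I : Type} [Field K] [Ring C] [Algebra K C] [Fintype I] (c : FS K C I) {z : C}
    (h : ∀ x, c.lam (z * x) = 0) : z = 0 := by
  rw [← c.h2 z]
  exact Finset.sum_eq_zero fun i _ => by rw [h, zero_smul]

theorem fs_right {K C I : Type} [Field K] [Ring C] [Algebra K C] [Fintype I] (c : FS K C I)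
    {z : C} (h : ∀ x, c.lam (x * z) = 0) : z = 0 := by
  rw [← c.h1 z]
  exact Finset.sum_eq_zero fun i _ => by rw [h, zero_smul]

theorem cfu (cfs : CfsStmt) : CfuStmt := by
  intro K A X S J Ω Ω' C _ _ _ _ _ _ _ _ _ _ _ _ _ y l χ D L F ρ Q j _ hy hr
  obtain ⟨c, v, hc, -, -, hsym, -, -, -⟩ := cfs K S C X Ω L.toGS F.toSF l χ Q D.hl D.χl
  -- the form of `S` through the section
  have hlam : ∀ s, F.f.lam s = D.d.lam (y ^ (l - 1) * ρ.r s) := by
    intro s
    have h1 : ∀ x, F.f.lam (L.c x s) = D.d.lam (y ^ (l - 1) * ρ.r (L.c x s)) := by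
      intro x
      have h2 := F.el x ⟨ρ.r (L.c x s), ρ.rx x s⟩
      rw [ρ.rp x s] at h2
      exact h2
    calc F.f.lam s = F.f.lam (∑ x, L.c x s) := by rw [L.cs s]
      _ = ∑ x, D.d.lam (y ^ (l - 1) * ρ.r (L.c x s)) := by
          rw [map_sum]
          exact Finset.sum_congr rfl fun x _ => h1 x
      _ = D.d.lam (y ^ (l - 1) * ρ.r s) := by
          rw [← map_sum, ← Finset.mul_sum, ← map_sum, L.cs s]
  have hl2 : 2 ≤ l := D.hl
  -- the form `t` is nondegenerate
  have hnd : ∀ c0 : C, (∀ b, D.d.lam (j (c0 * b)) = 0) → c0 = 0 := by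
    intro c0 h0
    have hs : ∀ k, k < l → Q.co k c0 = 0 := by
      intro k
      induction k using Nat.strong_induction_on with
      | _ k ih =>
        intro hk
        refine fs_right F.f fun s => ?_
        have h1 : c0 * (Q.y ^ (l - 1 - k) * Q.i s) = Q.i (Q.co k c0) * Q.y ^ (l - 1) * Q.i s := by
          conv_lhs => rw [← Q.ex c0]
          rw [Finset.sum_mul, Finset.sum_eq_single k]
          · rw [← mul_assoc, mul_assoc (Q.i (Q.co k c0)), ← pow_add]
            congr 3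
            omega
          · intro m hm hmk
            rw [Finset.mem_range] at hm
            rcases lt_or_gt_of_ne hmk with h | h
            · rw [ih m h hm, map_zero, zero_mul, zero_mul]
            · rw [← mul_assoc, mul_assoc (Q.i (Q.co m c0)), ← pow_add]
              have h3 : m + (l - 1 - k) = l + (m - k - 1) := by omega
              rw [h3, pow_add, Q.yl, zero_mul, mul_zero, zero_mul]
          · intro h
            exact absurd (Finset.mem_range.2 hk) h
        have h2 := h0 (Q.y ^ (l - 1 - k) * Q.i s)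
        rw [h1, map_mul j, map_mul j, map_pow j, hy, hr, hr, mul_assoc, D.ds, mul_assoc,
          ← map_mul ρ.r, ← hlam] at h2
        exact h2
    rw [← Q.ex c0]
    exact Finset.sum_eq_zero fun k hk => by
      rw [hs k (Finset.mem_range.1 hk), map_zero, zero_mul]
  -- the element `u`
  set u : C := ∑ p, D.d.lam (j (c.b p)) • c.b' p with hu
  have hut : ∀ x, c.lam (u * x) = D.d.lam (j x) := by
    intro x
    rw [hu, Finset.sum_mul, map_sum]
    conv_rhs => rw [← c.h1 x]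
    rw [map_sum, map_sum]
    refine Finset.sum_congr rfl fun p _ => ?_
    rw [smul_mul_assoc, map_smul, map_smul, map_smul, smul_eq_mul, smul_eq_mul, mul_comm]
  have huc : ∀ a, u * a = a * u := by
    intro a
    have h1 : u * a - a * u = 0 := by
      refine fs_left c fun x => ?_
      rw [sub_mul, map_sub, mul_assoc, hut, mul_assoc, hsym a, mul_assoc, hut, map_mul j,
        map_mul j, D.ds, sub_self]
    exact sub_eq_zero.1 h1
  have hinj : Function.Injective (LinearMap.mulLeft K u) := by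
    rw [← LinearMap.ker_eq_bot, LinearMap.ker_eq_bot']
    intro b hb
    rw [LinearMap.mulLeft_apply] at hb
    refine hnd b fun x => ?_
    rw [← hut, ← mul_assoc, hb, zero_mul, map_zero]
  obtain ⟨u', hu'⟩ := (LinearMap.injective_iff_surjective.1 hinj) 1
  rw [LinearMap.mulLeft_apply] at hu'
  have hjx : ∀ x s, j (Q.i (L.c x s)) ∈ Nx y χ x := fun x s => by
    rw [hr]
    exact ρ.rx x s
  refine ⟨{
    Q := Q
    j := j
    jy := hy
    jx := hjx
    jp := fun x s => ?_
    t0 := F.f.lam ∘ₗ Q.co (l - 1)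
    t0e := fun c => rfl
    u := u
    u' := u'
    uc := huc
    uu := hu'
    ut := fun x => ?_ }, rfl⟩
  · have h1 := ρ.rp x s
    have h2 : (⟨j (Q.i (L.c x s)), hjx x s⟩ : Nx y χ x) = ⟨ρ.r (L.c x s), ρ.rx x s⟩ :=
      Subtype.ext (hr _)
    rw [h2]
    exact h1
  · rw [← hut x, hc]
    rfl

end Pool.Agent.PFE.H9
end
end -- Pool.Agent.Helper9_PFE.CFU

section -- Pool.Agent.Helper3_PFE.AllP

/-!
# Squad PFE: the parts E1 and E2 assembled

`tpe_ : TpeStmt` without hypotheses; `tpr_ : LfyStmt → TprStmt`.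
-/

namespace Pool.Agent.PFE.H3

theorem txa_ : TxaStmt := H33.txa H82.txr

theorem stf_ : StfStmt := H52.stf (H77.nfr H82.txr)

theorem cfs_ : CfsStmt := H25.cfs H63.sgr

theorem cuf_ : CufStmt := H47.cuf cfs_

theorem kmx_ : KmxStmt :=
  H67.kmx (H58.spc cuf_ (H40.prj cuf_) (H55.twt (H86.knx txa_ H82.txr)))
    (H10.rfc H23.rtk H63.sgr) cfs_

theorem kkl_ : KklStmt :=
  H32.kkl (H7.kzt H41.kcr H70.ktt Pool.Agent.PFD.D4.H91.rtc) Pool.Agent.PFD.H78.fot

/-- part E1 -/
theorem tpe_ : TpeStmt :=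
  H1.tpe (H68.idf H82.txr) (H79.crn_ H82.txr txa_ H23.rtk) (H55.czf H23.rtk)
    (H47.nil H82.txr txa_) (H21.sfe stf_) (H58.rho H29.lsc H32.nws (H68.jpr txa_) txa_) H90.cce
    (H9.cfu cfs_) kmx_ kkl_ H27.zcb H81.zcs

theorem exx_ : Pool.Agent.PFD.D2.ExxStmt :=
  Pool.Agent.PFD.D2.H79.exx (Pool.Agent.PFD.D2.H94.plg (Pool.Agent.PFD.D2.H76.idg Pool.Agent.PFD.D2.H10.sug))
    Pool.Agent.PFD.D2.H17.lbg
    (Pool.Agent.PFD.D2.H72.alx Pool.Agent.PFD.D2.H10.sug Pool.Agent.Helper86_PFC.pen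
      (Pool.Agent.PFD.D2.H84.stg Pool.Agent.Helper86_PFC.pen))
    Pool.Agent.PFC.B1.H58.rng

theorem kef_ : KefStmt := H20.kef H23.yfp H70.Kex.kex

theorem fra_ : FraStmt := H28.fra H52.gfr H28.frt H53.frs

theorem ygr_ : YgrStmt := H41.ygr (H46.rtw H53.gwf H23.rtk)

theorem yky_ : YkyStmt := H80.yky H23.rtk H41.zpy (H91.hsy H23.rtk)

theorem lze_ : LzeStmt :=
  H20.lze H53.gwf (H84.ory H53.gwf Pool.Agent.PFD.D2b.H33.lcu Pool.Agent.PFD.D2b.H24.rwf
    (Pool.Agent.PFD.D4.H30.unm Pool.Agent.PFD.D2.H49.ung))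

theorem lye_ (lfy : LfyStmt) : LyeStmt :=
  H56.lye (H59.xex H10.gup) H21.xrd lfy (H92.spy H15.hoy) fra_ exx_

/-- part E2, over `F`, up to `LFY` -/
theorem tpr_ (lfy : LfyStmt) : TprStmt :=
  H40.tpr Pool.Agent.PFD.H52.wit (H2.gex H10.gup) (lye_ lfy) lze_
    (H13.zoy (H39.cly H23.yfp H70.Kex.kex)) Pool.Agent.PFD.D4.H68.cnr Pool.Agent.PFD.D4.H35.cnk
    (H62.fsy H53.gwf) H13.ydr ygr_ (H10.lse txa_) (H1.nxo H70.Kex.kex) (H17.lsf txa_) H77.sfr
    (H85.wse stf_) (H53.zsy H32.tsv H44.wfx) H32.tsv H70.K1n.k1n (H20.k1u H25.hul)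
    (H25.s1y H44.wfx) H15.s1f H32.bs1 H25.hul H41.byd yky_ H92.bls tpe_

end Pool.Agent.PFE.H3
end -- Pool.Agent.Helper3_PFE.AllP

section -- Pool.Agent.Helper3_PFE.RIN

set_option autoImplicit false

noncomputable section

namespace Pool.Agent.PFE.H3

open Pool.Agent.PFE

theorem rin (rat : RatStmt) (szn : S.SznStmt) : RinStmt := by
  intro ℓ F V E A V1 C S S0 _ _ _ _ _ _ _ _ _ _ _ _ _ _ _ _ _ _ φ NN α i W θ q q0 hC hI hcard
    hinj hdis hsup hW h1 h2 hθ hNN hq hq0
  obtain ⟨A', _, _, α', hM, _, hZ, hS⟩ := szn F V E A ℓ φ NN α hC hI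
  obtain ⟨S', _, _, q', hq', hz'⟩ := hS V1 C i θ hcard hinj h1 S q hq
  obtain ⟨S0', _, _, q0', hq0', hz0'⟩ := hS V1 Unit i 1 hcard hinj
    (fun _ => ⟨1, fun v => by simp⟩) S0 q0 hq0
  have h := rat ℓ F V E A' V1 C S' S0' φ NN α' i W θ q' q0' hC hM hcard hinj hdis hsup hW h1 h2
    hθ hNN hq' hq0'
  rw [← hZ, h, hz', hz0']

end Pool.Agent.PFE.H3
end
end -- Pool.Agent.Helper3_PFE.RIN

section -- Pool.Agent.Helper7_PFE.LFY

/-!
# Squad PFE, row LFY (helper7)
-/

noncomputable section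

namespace Pool.Agent.PFE.H7

open MulOpposite
open Pool.Agent.PFC.B1 (FS Split BiM Sep)
open Pool.Agent.PFD.D2

/-- LFY: a framed bimodule is liftable. -/
theorem lfy (hGFR : GfrStmt) (hLHY : LhyStmt) (hLBY : LbyStmt) : LfyStmt := by
  intro R Γ W M X Ω Ω' _ _ _ _ _ _ _ _ _ _ _ _ l G χ BX F p hl h1 h2
  obtain ⟨Ω1, Ω1', i1, i2, i3, i4, ⟨F1⟩⟩ := hGFR R Γ W X l G χ (by omega)
  exact ⟨hLHY R Γ W M M X Ω Ω' Ω Ω' l G χ BX BX F F p hl h1 h2,
    hLBY R Γ W M M X Ω Ω' Ω Ω' l G χ BX BX F F p hl h1 h2,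
    hLBY R Γ W M Γ X Ω Ω' Ω1 Ω1' l G χ BX (regB R Γ) F F1 p hl h1 h2⟩

end Pool.Agent.PFE.H7
end
end -- Pool.Agent.Helper7_PFE.LFY

section -- Pool.Agent.Helper94_PFE.OPV

/-! Row OPV of squad PFE (helper94). -/

open scoped BigOperators

noncomputable section

namespace Pool.Agent.PFE.H94

open MulOpposite
open Pool.Agent.PFC (tw)
open Pool.Agent.PFD
open Pool.Agent.PFD.D2

theorem opv (hb : OpbStmt) (hc : OpcStmt) : OpvStmt := by
  intro ℓ _ F V E A _ _ _ _ _ _ _ _ φ NN z T hV hE hf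
  obtain ⟨pv, N, fN, x, y, h1, h2, h3, h4, h5, h6, h7⟩ := hb ℓ F V E A φ NN z T hV hE hf
  obtain ⟨Om, fOm, aOm, b, d, g1, g2, g3, g4⟩ := hc F V E A φ NN z T pv h1 h2 h3
  letI := T.fK
  refine ⟨N, T.K × E, Om, fN, @instFintypeProd T.K E T.fK _, fOm, aOm,
    { j := T.j.comp (CP.iS (D0 φ z))
      pr := pv ∘ₗ T.pr
      pr_j := ?_
      pr_l := ?_
      pr_r := ?_
      mu := T.mu
      mus := T.mus
      mun := T.mun
      orth := ?_
      sep := T.sepV
      x := x
      y := y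
      e1 := h5
      e2 := h6
      unt := h7
      b := b
      d := d
      b_eq := g1
      d_eq := g2
      sum := g3
      st := g4 }, rfl⟩
  · intro γ
    show pv (T.pr (T.j (CP.iS (D0 φ z) γ))) = γ
    rw [T.pr_j, h1]
  · intro γ a
    show pv (T.pr (T.j (CP.iS (D0 φ z) γ) * a)) = γ * pv (T.pr a)
    rw [T.pr_l, h2]
  · intro a γ
    show pv (T.pr (a * T.j (CP.iS (D0 φ z) γ))) = pv (T.pr a) * γ
    rw [T.pr_r, h3]
  · intro a
    show T.mu (T.j (CP.iS (D0 φ z) (pv (T.pr a)))) = T.mu a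
    rw [h4, T.orth]

end Pool.Agent.PFE.H94
end
end -- Pool.Agent.Helper94_PFE.OPV

section -- Pool.Agent.Helper3_PFE.AllQ

/-!
# Squad PFE: assembly of theorem (R) for algebras, up to the row LRC

`rin_of : LrcStmt → RinStmt`.
-/

namespace Pool.Agent.PFE.H3

theorem lfy_of (lrc : LrcStmt) : LfyStmt :=
  H7.lfy H52.gfr (H62.lhy kef_ H15.hoy) (H20.lby lrc H70.bby (H28.mfy kef_))

theorem flt_ : FltStmt :=
  H58.flt (H94.opv (H41.opb (H32.opa H28.aug) H28.aug) H13.opc)
    (H13.yft (H80.yfa H2.orb H56.caz) (H17.yfb H2.orb H56.caz) H53.frs)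

theorem sgy_ : SgyStmt := H58.sgy H56.caz

theorem rat_of (lrc : LrcStmt) : RatStmt :=
  H15.rat H79.txn_top H39Y.y0e H27.gye flt_ sgy_ (tpr_ (lfy_of lrc)) (H84.sg1 sgy_)

theorem rin_of (lrc : LrcStmt) : RinStmt := rin (rat_of lrc) H79.szn_

end Pool.Agent.PFE.H3
end -- Pool.Agent.Helper3_PFE.AllQ

section -- Pool.Agent.Helper3_PFE.AllR

/-!
# Squad PFE: theorem (R) for algebras, without hypotheses
-/

namespace Pool.Agent.PFE.H3

theorem tpr_all : TprStmt := tpr_ (lfy_of H69.lrc)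

theorem rat_ : RatStmt := rat_of H69.lrc

theorem rin_ : RinStmt := rin_of H69.lrc

end Pool.Agent.PFE.H3
end -- Pool.Agent.Helper3_PFE.AllR
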