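import Pool.Agent.Helper12_AWB.B182

/-!
# Merged copies (generated) of the modules

* `Pool.Agent.Helper24_PFD.NCGa`
* `Pool.Agent.Helper24_PFD.NCG`
* `Pool.Agent.Helper63_PFD.LNT`
* `Pool.Agent.Helper65_PFD.SPE`
* `Pool.Agent.Helper91_PFD.ED`
* `Pool.Agent.Helper7_WAX.LXB`
-/

set_option autoImplicit false

section -- Pool.Agent.Helper24_PFD.NCGa

set_option autoImplicit false

/-!
# Squad PFD, row NCG, part 1: commuting pairs of a semidirect product `V : E`, `V` commutative,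
of coprime orders
-/

open scoped BigOperators

noncomputable section

namespace Pool.Agent.PFD.H24N

section
variable {V E : Type} [CommGroup V] [Group E] (φ : E →* MulAut V)

/-- `v ↦ v / φ_g v` -/
def dl (g : E) : V →* V := MonoidHom.id V / (φ g).toMonoidHom

theorem dl_apply (g : E) (v : V) : dl φ g v = v / φ g v := rfl

/-- `(v, w) ↦ (v / φ_f v) (w / φ_e w)⁻¹` -/
def DD (e f : E) : V × V →* V := (dl φ f).coprod (dl φ e)⁻¹

theorem DD_apply (e f : E) (x : V × V) : DD φ e f x = (x.1 / φ f x.1) * (x.2 / φ e x.2)⁻¹ := rfl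

/-- the average over the subgroup `H` -/
def PP (H : Subgroup E) [Fintype H] : V →* V := ∏ h : H, (φ h).toMonoidHom

theorem PP_apply (H : Subgroup E) [Fintype H] (v : V) : PP φ H v = ∏ h : H, φ h v := by
  unfold PP
  rw [MonoidHom.finsetProd_apply]
  rfl

theorem PP_right (H : Subgroup E) [Fintype H] (g : E) (hg : g ∈ H) (v : V) :
    PP φ H (φ g v) = PP φ H v := by
  rw [PP_apply, PP_apply]
  refine Fintype.prod_equiv (Equiv.mulRight (⟨g, hg⟩ : H)) _ _ fun h => ?_
  show φ h (φ g v) = φ ((h : E) * g) v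
  rw [map_mul, MulAut.mul_apply]

theorem PP_left (H : Subgroup E) [Fintype H] (g : E) (hg : g ∈ H) (v : V) :
    φ g (PP φ H v) = PP φ H v := by
  rw [PP_apply, map_prod]
  refine Fintype.prod_equiv (Equiv.mulLeft (⟨g, hg⟩ : H)) _ _ fun h => ?_
  show φ g (φ h v) = φ (g * (h : E)) v
  rw [map_mul, MulAut.mul_apply]

theorem count [Finite V] [Finite E] (hcop : (Nat.card V).Coprime (Nat.card E)) (e f : E) :
    Nat.card {x : V × V // x.1 * φ e x.2 = x.2 * φ f x.1} =
      Nat.card V * Nat.card {v : V // φ e v = v ∧ φ f v = v} := by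
  classical
  let H : Subgroup E := Subgroup.closure {e, f}
  have heH : e ∈ H := Subgroup.subset_closure (by simp)
  have hfH : f ∈ H := Subgroup.subset_closure (by simp)
  have : Fintype H := Fintype.ofFinite H
  have hroot : ∀ v : V, ∃ m : ℕ, (v ^ Fintype.card H) ^ m = v := by
    intro v
    apply exists_pow_eq_self_of_coprime
    rw [← Nat.card_eq_fintype_card]
    have h1 : (Nat.card H).Coprime (Nat.card V) :=
      (hcop.symm).coprime_dvd_left (Subgroup.card_subgroup_dvd_card H)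
    exact h1.coprime_dvd_right (orderOf_dvd_natCard v)
  -- the image of `DD` is the kernel of the average
  have hI : (DD φ e f).range = (PP φ H).ker := by
    apply le_antisymm
    · rintro _ ⟨x, rfl⟩
      rw [MonoidHom.mem_ker, DD_apply, map_mul, map_inv, map_div, map_div, PP_right φ H f hfH,
        PP_right φ H e heH, div_self', div_self', inv_one, mul_one]
    · intro v hv
      have key : ∀ h ∈ H, ∀ w : V, w / φ h w ∈ (DD φ e f).range := by
        intro h hh
        induction hh using Subgroup.closure_induction with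
        | mem x hx =>
          intro w
          rcases hx with rfl | hx
          · refine ⟨(1, w⁻¹), ?_⟩
            rw [DD_apply]
            simp only [map_one, one_mul, map_inv, div_eq_mul_inv, mul_inv_rev, inv_inv, inv_one,
              mul_one]
            rw [mul_comm]
          · rw [Set.mem_singleton_iff] at hx
            subst hx
            refine ⟨(w, 1), ?_⟩
            rw [DD_apply]
            simp
        | one => intro w; simp
        | mul x y _ _ hx hy =>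
          intro w
          have e1 : w / φ (x * y) w = (w / φ y w) * (φ y w / φ x (φ y w)) := by
            rw [map_mul, MulAut.mul_apply, div_mul_div_cancel]
          rw [e1]
          exact mul_mem (hy w) (hx _)
        | inv x _ hx =>
          intro w
          have e1 : w / φ x⁻¹ w = (φ x⁻¹ w / φ x (φ x⁻¹ w))⁻¹ := by
            rw [← MulAut.mul_apply, ← map_mul, mul_inv_cancel, map_one, MulAut.one_apply,
              inv_div]
          rw [e1]
          exact inv_mem (hx _)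
      have h1 : v ^ Fintype.card H / PP φ H v ∈ (DD φ e f).range := by
        rw [PP_apply]
        have e2 : v ^ Fintype.card H = ∏ _h : H, v := by
          rw [Finset.prod_const, Finset.card_univ]
        rw [e2, ← Finset.prod_div_distrib]
        exact Subgroup.prod_mem _ fun h _ => key h h.2 v
      rw [MonoidHom.mem_ker] at hv
      rw [hv, div_one] at h1
      obtain ⟨m, hm⟩ := hroot v
      rw [← hm]
      exact pow_mem h1 m
  -- the image of the average
  have hfix : ∀ v : V, φ e v = v → φ f v = v → PP φ H v = v ^ Fintype.card H := by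
    intro v h1 h2
    have h3 : ∀ h ∈ H, φ h v = v := by
      intro h hh
      induction hh using Subgroup.closure_induction with
      | mem x hx =>
        rcases hx with rfl | hx
        · exact h1
        · rw [Set.mem_singleton_iff] at hx
          subst hx
          exact h2
      | one => simp
      | mul x y _ _ hx hy => rw [map_mul, MulAut.mul_apply, hy, hx]
      | inv x _ hx =>
        have h4 : φ x⁻¹ (φ x v) = v := by
          rw [← MulAut.mul_apply, ← map_mul, inv_mul_cancel, map_one, MulAut.one_apply]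
        rwa [hx] at h4
    rw [PP_apply]
    refine (Finset.prod_congr rfl fun (h : H) _ => h3 h h.2).trans ?_
    rw [Finset.prod_const, Finset.card_univ]
  have hC : Nat.card (PP φ H).range = Nat.card {v : V // φ e v = v ∧ φ f v = v} := by
    refine Nat.card_congr (Equiv.subtypeEquivRight fun v => ?_)
    constructor
    · rintro ⟨w, rfl⟩
      exact ⟨PP_left φ H e heH w, PP_left φ H f hfH w⟩
    · rintro ⟨h1, h2⟩
      obtain ⟨m, hm⟩ := hroot v
      refine ⟨v ^ m, ?_⟩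
      rw [map_pow, hfix v h1 h2, hm]
  have hK : Nat.card {x : V × V // x.1 * φ e x.2 = x.2 * φ f x.1} = Nat.card (DD φ e f).ker := by
    refine Nat.card_congr (Equiv.subtypeEquivRight fun x => ?_)
    rw [MonoidHom.mem_ker, DD_apply, mul_inv_eq_one, div_eq_div_iff_mul_eq_mul]
  have c1 := Subgroup.card_mul_index (DD φ e f).ker
  have c2 := Subgroup.card_mul_index (PP φ H).ker
  rw [Subgroup.index_ker] at c1 c2
  rw [hI, Nat.card_prod, ← c2] at c1
  have hpos : 0 < Nat.card (PP φ H).ker := Nat.card_pos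
  rw [hK, ← hC, ← c2]
  have c3 : Nat.card (PP φ H).ker * Nat.card (DD φ e f).ker =
      Nat.card (PP φ H).ker * (Nat.card (PP φ H).ker * Nat.card (PP φ H).range *
        Nat.card (PP φ H).range) := by
    rw [mul_comm, c1]
    ring
  exact Nat.eq_of_mul_eq_mul_left hpos c3

/-- commuting pairs of the semidirect product -/
def eq1 : {p : (V ⋊[φ] E) × (V ⋊[φ] E) // Commute p.1 p.2} ≃
    Σ q : {q : E × E // Commute q.1 q.2},
      {x : V × V // x.1 * φ q.1.1 x.2 = x.2 * φ q.1.2 x.1} where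
  toFun := fun p => ⟨⟨(p.1.1.right, p.1.2.right), congrArg SemidirectProduct.right p.2.eq⟩,
    ⟨(p.1.1.left, p.1.2.left), congrArg SemidirectProduct.left p.2.eq⟩⟩
  invFun := fun q => ⟨(⟨q.2.1.1, q.1.1.1⟩, ⟨q.2.1.2, q.1.1.2⟩),
    SemidirectProduct.ext q.2.2 q.1.2.eq⟩
  left_inv := fun _ => rfl
  right_inv := fun _ => rfl

/-- the stabiliser of `v` -/
def Fx (v : V) : Subgroup E where
  carrier := {e | φ e v = v}
  one_mem' := by
    change φ 1 v = v
    rw [map_one]
    rfl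
  mul_mem' := by
    intro a b ha hb
    change φ a v = v at ha
    change φ b v = v at hb
    change φ (a * b) v = v
    rw [map_mul, MulAut.mul_apply, hb, ha]
  inv_mem' := by
    intro a ha
    change φ a v = v at ha
    change φ a⁻¹ v = v
    rw [map_inv]
    have h : (φ a)⁻¹ (φ a v) = v := MulAut.inv_apply_self V (φ a) v
    rwa [ha] at h

/-- commuting pairs with a fixed vector -/
def eq2 : (Σ q : {q : E × E // Commute q.1 q.2}, {v : V // φ q.1.1 v = v ∧ φ q.1.2 v = v}) ≃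
    Σ v : V, {p : Fx φ v × Fx φ v // Commute p.1 p.2} where
  toFun := fun q => ⟨q.2.1, ⟨(⟨q.1.1.1, q.2.2.1⟩, ⟨q.1.1.2, q.2.2.2⟩), Subtype.ext q.1.2.eq⟩⟩
  invFun := fun p => ⟨⟨(p.2.1.1.1, p.2.1.2.1), congrArg Subtype.val p.2.2.eq⟩,
    ⟨p.1, p.2.1.1.2, p.2.1.2.2⟩⟩
  left_inv := fun _ => rfl
  right_inv := fun _ => rfl

theorem main [Finite V] [Finite E] (hcop : (Nat.card V).Coprime (Nat.card E)) :
    Nat.card E * Nat.card (ConjClasses (V ⋊[φ] E)) =
      ∑ᶠ v : V, Nat.card (Fx φ v) * Nat.card (ConjClasses (Fx φ v)) := by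
  classical
  have : Fintype V := Fintype.ofFinite V
  have : Fintype E := Fintype.ofFinite E
  have : Finite (V ⋊[φ] E) := Finite.of_equiv _ SemidirectProduct.equivProd.symm
  have h1 := card_comm_eq_card_conjClasses_mul_card (V ⋊[φ] E)
  rw [Nat.card_congr (eq1 φ), Nat.card_sigma] at h1
  rw [Finset.sum_congr rfl fun q _ => count φ hcop q.1.1 q.1.2, ← Finset.mul_sum,
    ← Nat.card_sigma, Nat.card_congr (eq2 φ), Nat.card_sigma,
    Finset.sum_congr rfl fun v _ => card_comm_eq_card_conjClasses_mul_card (Fx φ v),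
    Nat.card_congr SemidirectProduct.equivProd, Nat.card_prod] at h1
  rw [finsum_eq_sum_of_fintype]
  have hV : 0 < Nat.card V := Nat.card_pos
  apply Nat.eq_of_mul_eq_mul_left hV
  rw [Finset.sum_congr rfl fun v _ => mul_comm (Nat.card (Fx φ v)) _, h1]
  ring

end

end Pool.Agent.PFD.H24N
end
end -- Pool.Agent.Helper24_PFD.NCGa

section -- Pool.Agent.Helper24_PFD.NCG

set_option autoImplicit false

/-!
# Squad PFD, row NCG: the conjugacy classes of `V : E`
-/

open scoped BigOperators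

namespace Pool.Agent.PFD.H24

/-- **NCG** -/
theorem ncg : NcgStmt := by
  intro V E gV _ _ _ φ hcomm hcop
  exact @Pool.Agent.PFD.H24N.main V E (@CommGroup.mk V gV hcomm) _ φ _ _ hcop

end Pool.Agent.PFD.H24
end -- Pool.Agent.Helper24_PFD.NCG

section -- Pool.Agent.Helper63_PFD.LNT

/-!
# Squad PFD, row LNT: the local block of a central element
-/

open scoped BigOperators

noncomputable section

namespace Pool.Agent.PFD.H63

open Pool.Agent.Helper51_AWC Pool.Agent.Helper79_WRA Pool.Agent.PP Pool.Agent.PP.KF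
open Pool.Agent.PP.K9 Pool.Agent.PP.K9.H97 Pool.Agent.PP.H75 Pool.Agent.PP.T3 Pool.Agent.PP.T2

/-- a block of the whole group under the block `e` -/
theorem ln_top {F G : Type} [Field F] [Group G] [Finite G] (e b : G → F) (he : IsBlk e)
    (X : Subgroup G) (hX : X = ⊤) (hb : Bx X b) (hu : mulF (fun t : X => e t) (fun t : X => b t) =
      fun t : X => b t) : ln (fun t : X => b t) = ln e := by
  subst hX
  have he' : IsBlk (fun t : (⊤ : Subgroup G) => e t) :=
    Pool.Agent.PP.H20.IsBlk_equiv Subgroup.topEquiv he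
  have h1 : (fun t : (⊤ : Subgroup G) => b t) = fun t : (⊤ : Subgroup G) => e t := by
    rcases he'.2.2 _ hb.blk.1 with h | h
    · exact hu.symm.trans h
    · exact absurd (hu.symm.trans h) hb.blk.2.1
  rw [h1]
  exact Pool.Agent.PP.H75.cnt_equiv Subgroup.topEquiv e

/-- Row LNT. -/
theorem lnt : LntStmt := by
  intro ℓ F _ hF G _ _ e V γ hL v hv hc b hb
  refine ln_top e b hL.blk (Cu v) ?_ hb.blk hb.und
  rw [eq_top_iff]
  intro x _
  exact Subgroup.mem_centralizer_singleton_iff.2 (Subgroup.mem_center_iff.1 hc x)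

end Pool.Agent.PFD.H63
end
end -- Pool.Agent.Helper63_PFD.LNT

section -- Pool.Agent.Helper65_PFD.SPE

/-! Squad PFD, block D5b, row SPE: splitting of a free part, for the inertial group. -/

set_option autoImplicit false

open scoped BigOperators

noncomputable section

namespace Pool.Agent.PFD.H65

open Pool.Agent.PFD
open Pool.Agent.Helper51_AWC Pool.Agent.Helper79_WRA Pool.Agent.PP Pool.Agent.PP.KF
open Pool.Agent.PP.K9 Pool.Agent.PP.K9.H97 Pool.Agent.PP.H75 Pool.Agent.PP.T3 Pool.Agent.PP.T2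
open Pool.Agent.PP.TB (Zd Star iz cz)

attribute [local instance] Ideal.Quotient.field

theorem spe (edf : EdfStmt) (lke : LkeStmt) (inx : K9.InxStmt) : SpeStmt := by
  intro ℓ hℓ M _ hM G _ _ e V γ hL U₀ hU1 hU2 hst hfr
  have hT : Tg V γ ≤ Subgroup.normalizer (V : Set G) := inf_le_left
  letI cg : CommGroup V :=
    { (inferInstance : Group V) with
      mul_comm := fun a b => Subtype.ext (hL.ab a a.2 b b.2) }
  haveI : Finite (MulAut V) := Finite.of_injective (fun f : MulAut V => (f : V → V))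
    (fun f g h => MulEquiv.ext (congrFun h))
  -- the automorphisms
  have hmem : ∀ t (ht : t ∈ Tg V γ), V.normalizerMonoidHom ⟨t, hT ht⟩ ∈ Ei V γ :=
    fun t ht => ⟨⟨t, hT ht⟩, Subgroup.mem_subgroupOf.2 ht, rfl⟩
  have happ : ∀ t (ht : t ∈ Subgroup.normalizer (V : Set G)) (v : V),
      ((V.normalizerMonoidHom ⟨t, ht⟩ v : V) : G) = t * v * t⁻¹ := fun t ht v => rfl
  -- the order of `Ei`
  have hcop : ¬ ℓ ∣ Nat.card (Ei V γ) := by
    have h1 := (lke ℓ (FF M) G e V γ hL).1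
    rw [← h1]
    have h2 := inx ℓ M hM G e hL.blk V hL.tp hL.ab γ hL.gam.supp hL.gam.blk hL.und
    have h3 : iz V V γ = (Subgroup.centralizer (V : Set G)).relIndex
        (Subgroup.normalizer (V : Set G) ⊓ stabF γ) := by
      unfold iz
      rw [Subgroup.inf_relIndex_right]
      rfl
    rw [h3]
    exact h2
  obtain ⟨U', W', h1, h2, h3, h4, h5⟩ := edf ℓ V (Ei V γ) (Ei V γ).subtype Fact.out hL.tp.1 hcop
    (U₀.subgroupOf V) (by
      intro h
      apply hU2
      rw [eq_bot_iff]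
      intro u hu
      have h6 : (⟨u, hU1 hu⟩ : V) ∈ U₀.subgroupOf V := Subgroup.mem_subgroupOf.2 hu
      rw [h, Subgroup.mem_bot] at h6
      rw [Subgroup.mem_bot]
      exact congrArg Subtype.val h6)
    (by
      rintro ⟨_, ⟨t, htn⟩, ht, rfl⟩ u hu
      rw [Subgroup.mem_subgroupOf]
      exact hst t (Subgroup.mem_subgroupOf.1 ht) u (Subgroup.mem_subgroupOf.1 hu))
    (by
      rintro ⟨_, ⟨t, htn⟩, ht, rfl⟩ u hu hfix
      have h7 : t * (u : G) * t⁻¹ = u := congrArg Subtype.val hfix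
      by_cases hu1 : u = 1
      · exact Or.inr hu1
      · left
        have h8 := hfr t (Subgroup.mem_subgroupOf.1 ht) u (Subgroup.mem_subgroupOf.1 hu)
          (fun h => hu1 (Subtype.ext h)) (mul_inv_eq_iff_eq_mul.1 h7)
        apply Subtype.ext
        apply MulEquiv.ext
        intro v
        apply Subtype.ext
        show t * (v : G) * t⁻¹ = v
        have h9 : (v : G) * t = t * v := (Subgroup.mem_centralizer_iff.1 h8) v v.2
        rw [← h9, mul_inv_cancel_right])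
  refine ⟨U'.map V.subtype, W'.map V.subtype, ?_⟩
  have hinj := V.subtype_injective
  refine
    { lu := Subgroup.map_subtype_le U'
      lw := Subgroup.map_subtype_le W'
      dj := ?_
      jn := ?_
      nt := ?_
      su := ?_
      sw := ?_
      fr := ?_ }
  · rw [← Subgroup.map_inf_eq _ _ _ hinj, h2.inf_eq_bot, Subgroup.map_bot]
  · rw [← Subgroup.map_sup, h2.sup_eq_top, ← MonoidHom.range_eq_map, V.range_subtype]
  · intro h
    exact h1 ((Subgroup.map_eq_bot_iff_of_injective _ hinj).1 h)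
  · rintro t ht _ ⟨u, hu, rfl⟩
    exact ⟨_, h3 ⟨_, hmem t ht⟩ u hu, rfl⟩
  · rintro t ht _ ⟨u, hu, rfl⟩
    exact ⟨_, h4 ⟨_, hmem t ht⟩ u hu, rfl⟩
  · rintro t ht _ ⟨u, hu, rfl⟩ hu1 hcomm
    have h6 : (⟨_, hmem t ht⟩ : Ei V γ) = 1 ∨ u = 1 := by
      apply h5 _ u hu
      apply Subtype.ext
      show t * (u : G) * t⁻¹ = u
      exact mul_inv_eq_iff_eq_mul.2 hcomm
    rcases h6 with h6 | h6
    · rw [Subgroup.mem_centralizer_iff]
      intro v hv
      have h7 := congrArg (fun f : Ei V γ => (((f : MulAut V) ⟨v, hv⟩ : V) : G)) h6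
      have h8 : t * v * t⁻¹ = v := h7
      exact (mul_inv_eq_iff_eq_mul.1 h8).symm
    · exact absurd (by rw [h6]; rfl) hu1

end Pool.Agent.PFD.H65
end
end -- Pool.Agent.Helper65_PFD.SPE

section -- Pool.Agent.Helper91_PFD.ED

/-!
# Squad PFD, rows EDC, EDV, EDA, EDF: splitting of a free part
-/

set_option autoImplicit false

open scoped BigOperators

noncomputable section

namespace Pool.Agent.PFD.H91

/-- a power of a nontrivial `ℓ`-element has order `ℓ` -/
theorem pow_ord {V : Type} [Group V] {ℓ : ℕ} {y : V} (hy : y ≠ 1) {k : ℕ} (hk : y ^ ℓ ^ k = 1) :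
    ∃ j, y ^ ℓ ^ j ≠ 1 ∧ (y ^ ℓ ^ j) ^ ℓ = 1 := by
  classical
  have hex : ∃ k, y ^ ℓ ^ k = 1 := ⟨k, hk⟩
  have h0 : Nat.find hex ≠ 0 := by
    intro h
    have h1 := Nat.find_spec hex
    rw [h, pow_zero, pow_one] at h1
    exact hy h1
  obtain ⟨j, hj⟩ := Nat.exists_eq_succ_of_ne_zero h0
  refine ⟨j, ?_, ?_⟩
  · exact Nat.find_min hex (by rw [hj]; exact Nat.lt_succ_self j)
  · have h1 := Nat.find_spec hex
    rw [hj] at h1
    rw [← pow_mul, ← pow_succ]
    exact h1

/-- row EDC -/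
theorem edc : EdcStmt := by
  intro ℓ n V _ _ hℓ hV A hA hA2
  classical
  let S : Set (Subgroup V) := {B | (powMonoidHom (ℓ ^ (n + 1)) : V →* V).range ≤ B ∧ Disjoint A B}
  have hS : (powMonoidHom (ℓ ^ (n + 1)) : V →* V).range ∈ S := by
    refine ⟨le_rfl, ?_⟩
    rw [Subgroup.disjoint_def]
    rintro x hx ⟨v, rfl⟩
    exact hA2 v hx
  obtain ⟨B, hB0, hB⟩ := (Set.toFinite S).exists_le_maximal hS
  refine ⟨B, hB.prop.2, ?_⟩
  rw [codisjoint_iff]
  by_contra hne
  obtain ⟨w0, -, hw0⟩ := SetLike.exists_of_lt (lt_top_iff_ne_top.2 hne)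
  -- an element of order `ℓ` modulo `A B`
  obtain ⟨v, hv, hvl⟩ : ∃ v, v ∉ A ⊔ B ∧ v ^ ℓ ∈ A ⊔ B := by
    obtain ⟨k, hk⟩ := hV w0
    have hex : ∃ k, w0 ^ ℓ ^ k ∈ A ⊔ B := ⟨k, by rw [hk]; exact Subgroup.one_mem _⟩
    have h0 : Nat.find hex ≠ 0 := by
      intro h
      have h1 := Nat.find_spec hex
      rw [h, pow_zero, pow_one] at h1
      exact hw0 h1
    obtain ⟨j, hj⟩ := Nat.exists_eq_succ_of_ne_zero h0
    refine ⟨w0 ^ ℓ ^ j, ?_, ?_⟩
    · exact Nat.find_min hex (by rw [hj]; exact Nat.lt_succ_self j)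
    · have h1 := Nat.find_spec hex
      rw [hj] at h1
      rw [← pow_mul, ← pow_succ]
      exact h1
  obtain ⟨a, ha, b, hb, hab⟩ := Subgroup.mem_sup.1 hvl
  have h1 : v ^ ℓ ^ (n + 1) = a ^ ℓ ^ n * b ^ ℓ ^ n := by
    rw [pow_succ', pow_mul, ← hab, mul_pow]
  have h2 : v ^ ℓ ^ (n + 1) ∈ B := hB.prop.1 ⟨v, rfl⟩
  have h3 : a ^ ℓ ^ n = 1 := by
    refine (Subgroup.disjoint_def.1 hB.prop.2) (Subgroup.pow_mem _ ha _) ?_
    have : a ^ ℓ ^ n = v ^ ℓ ^ (n + 1) * (b ^ ℓ ^ n)⁻¹ := by rw [h1, mul_inv_cancel_right]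
    rw [this]
    exact Subgroup.mul_mem _ h2 (Subgroup.inv_mem _ (Subgroup.pow_mem _ hb _))
  obtain ⟨c, hc, hac⟩ := hA a ha h3
  have hwn : v * c⁻¹ ∉ A ⊔ B := by
    intro h
    apply hv
    have : v = v * c⁻¹ * c := by rw [inv_mul_cancel_right]
    rw [this]
    exact Subgroup.mul_mem _ h (Subgroup.mem_sup_left hc)
  have hwl : (v * c⁻¹) ^ ℓ ∈ B := by
    rw [mul_pow, inv_pow, ← hac, ← hab, mul_comm a b, mul_inv_cancel_right]
    exact hb
  have hB' : B ⊔ Subgroup.zpowers (v * c⁻¹) ∈ S := by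
    refine ⟨hB.prop.1.trans le_sup_left, ?_⟩
    rw [Subgroup.disjoint_def]
    intro x hx hx'
    obtain ⟨b1, hb1, y, hy, hbx⟩ := Subgroup.mem_sup.1 hx'
    obtain ⟨k, rfl⟩ := Subgroup.mem_zpowers_iff.1 hy
    have h4 : (v * c⁻¹) ^ k ∈ A ⊔ B := by
      have : (v * c⁻¹) ^ k = b1⁻¹ * x := by rw [← hbx, inv_mul_cancel_left]
      rw [this]
      exact Subgroup.mul_mem _ (Subgroup.mem_sup_right (Subgroup.inv_mem _ hb1))
        (Subgroup.mem_sup_left hx)
    have h5 : (ℓ : ℤ) ∣ k := by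
      by_contra hnd
      have hco : IsCoprime (ℓ : ℤ) k := (Nat.prime_iff_prime_int.1 hℓ).coprime_iff_not_dvd.2 hnd
      obtain ⟨s, t, hst⟩ := hco
      apply hwn
      have : v * c⁻¹ = ((v * c⁻¹) ^ ℓ) ^ s * ((v * c⁻¹) ^ k) ^ t := by
        rw [← zpow_natCast, ← zpow_mul, ← zpow_mul, ← zpow_add, mul_comm (ℓ : ℤ), mul_comm k,
          hst, zpow_one]
      rw [this]
      exact Subgroup.mul_mem _ (Subgroup.mem_sup_right (Subgroup.zpow_mem _ hwl _))
        (Subgroup.zpow_mem _ h4 _)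
    obtain ⟨j, rfl⟩ := h5
    refine (Subgroup.disjoint_def.1 hB.prop.2) hx ?_
    rw [← hbx, zpow_mul, zpow_natCast]
    exact Subgroup.mul_mem _ hb1 (Subgroup.zpow_mem _ hwl _)
  have h6 := hB.le_of_ge hB' le_sup_left
  exact hwn (Subgroup.mem_sup_right (h6 (Subgroup.mem_sup_right (Subgroup.mem_zpowers _))))

/-- row EDV -/
theorem edv : EdvStmt := by
  intro V E _ _ _ _ φ hco A B hAB hA
  classical
  have := Fintype.ofFinite E
  -- the projection
  have hdec : ∀ v : V, ∃ a b, a ∈ A ∧ b ∈ B ∧ a * b = v := by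
    intro v
    have hv : v ∈ A ⊔ B := by rw [hAB.sup_eq_top]; exact Subgroup.mem_top v
    obtain ⟨a, ha, b, hb, h⟩ := Subgroup.mem_sup.1 hv
    exact ⟨a, b, ha, hb, h⟩
  choose pa pb hpa hpb hp using hdec
  have huniq : ∀ a b a' b', a ∈ A → b ∈ B → a' ∈ A → b' ∈ B → a * b = a' * b' → a = a' := by
    intro a b a' b' ha hb ha' hb' h
    have h1 : a'⁻¹ * a = b' * b⁻¹ := by
      rw [inv_mul_eq_iff_eq_mul, ← mul_assoc, ← h, mul_inv_cancel_right]
    have h2 : a'⁻¹ * a = 1 := (Subgroup.disjoint_def.1 hAB.disjoint)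
      (Subgroup.mul_mem _ (Subgroup.inv_mem _ ha') ha)
      (h1 ▸ Subgroup.mul_mem _ hb' (Subgroup.inv_mem _ hb))
    exact (inv_mul_eq_one.1 h2).symm
  let π : V →* V :=
    { toFun := pa
      map_one' := huniq _ (pb 1) 1 1 (hpa 1) (hpb 1) (Subgroup.one_mem _) (Subgroup.one_mem _)
        (by rw [hp, one_mul])
      map_mul' := fun v w => huniq _ (pb (v * w)) _ (pb v * pb w) (hpa _) (hpb _)
        (Subgroup.mul_mem _ (hpa v) (hpa w)) (Subgroup.mul_mem _ (hpb v) (hpb w))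
        (by rw [hp, mul_mul_mul_comm, hp, hp]) }
  have hπA : ∀ v, π v ∈ A := hpa
  have hπa : ∀ a ∈ A, π a = a := fun a ha =>
    huniq _ (pb a) a 1 (hpa a) (hpb a) ha (Subgroup.one_mem _) (by
      show pa a * pb a = a * 1
      rw [hp, mul_one])
  let σ : V →* V := ∏ e : E, (φ e).toMonoidHom.comp (π.comp (φ e⁻¹).toMonoidHom)
  have hσ : ∀ v, σ v = ∏ e : E, φ e (π (φ e⁻¹ v)) := by
    intro v
    show (∏ e : E, (φ e).toMonoidHom.comp (π.comp (φ e⁻¹).toMonoidHom)) v = _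
    rw [MonoidHom.finset_prod_apply]
    rfl
  have hinv : ∀ e v, φ e (φ e⁻¹ v) = v := by
    intro e v
    rw [← MulAut.mul_apply, ← map_mul, mul_inv_cancel, map_one]
    rfl
  have hσA : ∀ v, σ v ∈ A := by
    intro v
    rw [hσ]
    exact Subgroup.prod_mem _ fun e _ => hA e _ (hπA _)
  have hσa : ∀ a ∈ A, σ a = a ^ Nat.card E := by
    intro a ha
    rw [hσ, Finset.prod_congr rfl fun e _ => by rw [hπa _ (hA e⁻¹ a ha), hinv],
      Finset.prod_const, Finset.card_univ, Nat.card_eq_fintype_card]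
  have hσE : ∀ g v, σ (φ g v) = φ g (σ v) := by
    intro g v
    rw [hσ, hσ, map_prod, ← Equiv.prod_comp (Equiv.mulLeft g)
      (fun e => φ e (π (φ e⁻¹ (φ g v))))]
    refine Finset.prod_congr rfl fun e _ => ?_
    show φ (g * e) (π (φ (g * e)⁻¹ (φ g v))) = φ g (φ e (π (φ e⁻¹ v)))
    rw [map_mul, MulAut.mul_apply, mul_inv_rev, map_mul, MulAut.mul_apply]
    have h1 : φ g⁻¹ (φ g v) = v := by
      have := hinv g⁻¹ v
      rwa [inv_inv] at this
    rw [h1]
  -- a number `y` with `|E| y = 1` modulo `|V|`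
  have hbez : ∀ a : V, (a ^ Nat.card E) ^ (Nat.gcdB (Nat.card V) (Nat.card E)) = a := by
    intro a
    have h1 := Nat.gcd_eq_gcd_ab (Nat.card V) (Nat.card E)
    rw [hco.gcd_eq_one, Nat.cast_one] at h1
    rw [← zpow_natCast, ← zpow_mul]
    have h2 : a ^ ((Nat.card V : ℤ) * Nat.gcdA (Nat.card V) (Nat.card E)) = 1 := by
      rw [zpow_mul, zpow_natCast, pow_card_eq_one', one_zpow]
    calc a ^ ((Nat.card E : ℤ) * Nat.gcdB (Nat.card V) (Nat.card E))
        = a ^ ((Nat.card V : ℤ) * Nat.gcdA (Nat.card V) (Nat.card E)) *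
          a ^ ((Nat.card E : ℤ) * Nat.gcdB (Nat.card V) (Nat.card E)) := by rw [h2, one_mul]
      _ = a := by rw [← zpow_add, ← h1, zpow_one]
  set y := Nat.gcdB (Nat.card V) (Nat.card E) with hy
  let τ : V →* V := (zpowGroupHom y).comp σ
  have hτ : ∀ v, τ v = (σ v) ^ y := fun _ => rfl
  have hτA : ∀ v, τ v ∈ A := fun v => by rw [hτ]; exact Subgroup.zpow_mem _ (hσA v) _
  have hτa : ∀ a ∈ A, τ a = a := fun a ha => by rw [hτ, hσa a ha, hbez]
  have hτE : ∀ g v, τ (φ g v) = φ g (τ v) := fun g v => by rw [hτ, hτ, hσE, map_zpow]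
  refine ⟨τ.ker, ⟨?_, ?_⟩, ?_⟩
  · rw [Subgroup.disjoint_def]
    intro a ha hk
    rw [MonoidHom.mem_ker, hτa a ha] at hk
    exact hk
  · rw [codisjoint_iff, eq_top_iff]
    intro v _
    rw [Subgroup.mem_sup]
    refine ⟨τ v, hτA v, (τ v)⁻¹ * v, ?_, mul_inv_cancel_left _ _⟩
    rw [MonoidHom.mem_ker, map_mul, map_inv, hτa _ (hτA v), inv_mul_cancel]
  · intro e u hu
    rw [MonoidHom.mem_ker] at hu ⊢
    rw [hτE, hu, map_one]

/-- restriction of the action -/
theorem restr {V E : Type} [CommGroup V] [Group E] (φ : E →* MulAut V) (A : Subgroup V)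
    (hA : ∀ e, ∀ a ∈ A, φ e a ∈ A) : ∃ ψ : E →* MulAut A, ∀ e (a : A), (ψ e a : V) = φ e a := by
  have hinv : ∀ e v, φ e (φ e⁻¹ v) = v := by
    intro e v
    rw [← MulAut.mul_apply, ← map_mul, mul_inv_cancel, map_one]
    rfl
  have hinv' : ∀ e v, φ e⁻¹ (φ e v) = v := by
    intro e v
    have := hinv e⁻¹ v
    rwa [inv_inv] at this
  refine ⟨{ toFun := fun e =>
              { toFun := fun a => ⟨φ e a, hA e a a.2⟩
                invFun := fun a => ⟨φ e⁻¹ a, hA e⁻¹ a a.2⟩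
                left_inv := fun a => Subtype.ext (hinv' e a)
                right_inv := fun a => Subtype.ext (hinv e a)
                map_mul' := fun a b => Subtype.ext (by
                  show φ e ((a * b : A) : V) = φ e a * φ e b
                  rw [Subgroup.coe_mul, map_mul]) }
            map_one' := ?_
            map_mul' := ?_ }, fun e a => rfl⟩
  · apply MulEquiv.ext
    intro a
    apply Subtype.ext
    show φ 1 (a : V) = a
    rw [map_one]
    rfl
  · intro e g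
    apply MulEquiv.ext
    intro a
    apply Subtype.ext
    show φ (e * g) (a : V) = φ e (φ g a)
    rw [map_mul]
    rfl

/-- the action on a quotient -/
theorem quot {V E : Type} [CommGroup V] [Group E] (φ : E →* MulAut V) (N : Subgroup V)
    (hN : ∀ e, ∀ a ∈ N, φ e a ∈ N) :
    ∃ ψ : E →* MulAut (V ⧸ N), ∀ e (v : V), ψ e (QuotientGroup.mk v) = QuotientGroup.mk (φ e v) := by
  have hinv : ∀ e v, φ e (φ e⁻¹ v) = v := by
    intro e v
    rw [← MulAut.mul_apply, ← map_mul, mul_inv_cancel, map_one]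
    rfl
  have hmap : ∀ e, N.map ((φ e : V ≃* V) : V →* V) = N := by
    intro e
    apply le_antisymm
    · rintro _ ⟨a, ha, rfl⟩
      exact hN e a ha
    · intro a ha
      exact ⟨φ e⁻¹ a, hN e⁻¹ a ha, hinv e a⟩
  refine ⟨{ toFun := fun e => QuotientGroup.congr N N (φ e) (hmap e)
            map_one' := ?_
            map_mul' := ?_ }, fun e v => ?_⟩
  · apply MulEquiv.ext
    intro x
    obtain ⟨v, rfl⟩ := QuotientGroup.mk_surjective x
    rw [QuotientGroup.congr_mk, map_one]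
    rfl
  · intro e g
    apply MulEquiv.ext
    intro x
    obtain ⟨v, rfl⟩ := QuotientGroup.mk_surjective x
    rw [MulAut.mul_apply, QuotientGroup.congr_mk, QuotientGroup.congr_mk, QuotientGroup.congr_mk,
      map_mul]
    rfl
  · exact QuotientGroup.congr_mk N N (φ e) (hmap e) v

/-- row EDA -/
theorem eda (edc : EdcStmt) (edv : EdvStmt) : EdaStmt := by
  intro ℓ n V E _ _ _ _ φ hℓ hE U hU hUE hUl hUn
  classical
  have hfact : Fact ℓ.Prime := ⟨hℓ⟩
  let S : Set (Subgroup V) := {A | (∀ e, ∀ a ∈ A, φ e a ∈ A) ∧ (∀ a ∈ A, a ^ ℓ ^ n ∈ U) ∧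
    ∀ u ∈ U, ∃ a ∈ A, u = a ^ ℓ ^ n}
  have hS : U.comap (powMonoidHom (ℓ ^ n)) ∈ S := by
    refine ⟨?_, ?_, ?_⟩
    · intro e a ha
      show (φ e a) ^ ℓ ^ n ∈ U
      rw [← map_pow]
      exact hUE e _ ha
    · intro a ha
      exact ha
    · intro u hu
      obtain ⟨v, hv⟩ := hUn u hu
      refine ⟨v, ?_, hv⟩
      show v ^ ℓ ^ n ∈ U
      rw [← hv]
      exact hu
  obtain ⟨A, -, hA⟩ := (Set.toFinite S).exists_le_minimal hS
  obtain ⟨hAE, hAU, hUA⟩ := hA.prop
  -- the action on `A / A ^ ℓ`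
  obtain ⟨ψ, hψ⟩ := restr φ A hAE
  let N : Subgroup A := (powMonoidHom ℓ : A →* A).range
  have hNE : ∀ e, ∀ a ∈ N, ψ e a ∈ N := by
    rintro e _ ⟨a, rfl⟩
    exact ⟨ψ e a, (map_pow (ψ e) a ℓ).symm⟩
  obtain ⟨χ, hχ⟩ := quot ψ N hNE
  have hexp : ∀ x : A ⧸ N, x ^ ℓ = 1 := by
    intro x
    obtain ⟨v, rfl⟩ := QuotientGroup.mk_surjective x
    rw [← QuotientGroup.mk_pow, QuotientGroup.eq_one_iff]
    exact ⟨v, rfl⟩
  have hpg : IsPGroup ℓ (A ⧸ N) := fun x => ⟨1, by rw [pow_one]; exact hexp x⟩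
  have hcoQ : (Nat.card (A ⧸ N)).Coprime (Nat.card E) := by
    obtain ⟨k, hk⟩ := IsPGroup.iff_card.1 hpg
    rw [hk]
    exact Nat.Coprime.pow_left _ ((Nat.Prime.coprime_iff_not_dvd hℓ).2 hE)
  let K : Subgroup A := (powMonoidHom (ℓ ^ n) : A →* A).ker
  have hK : ∀ a : A, a ∈ K ↔ (a : V) ^ ℓ ^ n = 1 := by
    intro a
    rw [MonoidHom.mem_ker, powMonoidHom_apply]
    constructor
    · intro h
      have h1 := congrArg Subtype.val h
      exact h1
    · intro h
      exact Subtype.ext h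
  let Kb : Subgroup (A ⧸ N) := K.map (QuotientGroup.mk' N)
  obtain ⟨Bb, hBb⟩ := edc ℓ 0 (A ⧸ N) hℓ hpg Kb
    (fun a _ h1 => ⟨1, Subgroup.one_mem _, by
      rw [pow_zero, pow_one] at h1
      rw [h1, one_pow]⟩)
    (fun v _ => by rw [zero_add, pow_one]; exact hexp v)
  obtain ⟨Wb, hWb, hWbE⟩ := edv (A ⧸ N) E χ hcoQ Kb Bb hBb (by
    rintro e _ ⟨a, ha, rfl⟩
    refine ⟨ψ e a, ?_, (hχ e a).symm⟩
    show ψ e a ∈ K
    rw [hK, hψ, ← map_pow, (hK a).1 ha, map_one])
  let A' : Subgroup V := (Wb.comap (QuotientGroup.mk' N)).map A.subtype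
  have hA' : A' ∈ S := by
    refine ⟨?_, ?_, ?_⟩
    · rintro e _ ⟨a, ha, rfl⟩
      refine ⟨ψ e a, ?_, hψ e a⟩
      show (QuotientGroup.mk (ψ e a) : A ⧸ N) ∈ Wb
      rw [← hχ]
      exact hWbE e _ ha
    · rintro _ ⟨a, ha, rfl⟩
      exact hAU a a.2
    · intro u hu
      obtain ⟨a, ha, hau⟩ := hUA u hu
      have h1 : (QuotientGroup.mk (⟨a, ha⟩ : A) : A ⧸ N) ∈ Kb ⊔ Wb := by
        rw [hWb.sup_eq_top]
        exact Subgroup.mem_top _
      obtain ⟨_, ⟨k, hk, rfl⟩, w, hw, hkw⟩ := Subgroup.mem_sup.1 h1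
      refine ⟨((k⁻¹ * ⟨a, ha⟩ : A) : V), ⟨k⁻¹ * ⟨a, ha⟩, ?_, rfl⟩, ?_⟩
      · show (QuotientGroup.mk (k⁻¹ * ⟨a, ha⟩) : A ⧸ N) ∈ Wb
        have h2 : (QuotientGroup.mk (k⁻¹ * ⟨a, ha⟩) : A ⧸ N) = w := by
          rw [QuotientGroup.mk_mul, QuotientGroup.mk_inv, inv_mul_eq_iff_eq_mul]
          exact hkw.symm
        rw [h2]
        exact hw
      · rw [Subgroup.coe_mul, mul_pow, Subgroup.coe_inv, inv_pow, (hK k).1 hk, inv_one, one_mul]
        exact hau
  have hle : A ≤ A' := hA.le_of_le hA' (by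
    rintro _ ⟨a, -, rfl⟩
    exact a.2)
  have hKN : ∀ a ∈ A, a ^ ℓ ^ n = 1 → ∃ c ∈ A, a = c ^ ℓ := by
    intro a ha h1
    obtain ⟨a', ha', haa⟩ := hle ha
    have h2 : a' = ⟨a, ha⟩ := Subtype.ext haa
    have h3 : (QuotientGroup.mk a' : A ⧸ N) = 1 := by
      refine (Subgroup.disjoint_def.1 hWb.disjoint) ⟨a', ?_, rfl⟩ ha'
      show a' ∈ K
      rw [hK, h2]
      exact h1
    obtain ⟨c, hc⟩ := (QuotientGroup.eq_one_iff a').1 h3
    refine ⟨c, c.2, ?_⟩
    rw [h2] at hc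
    have h4 := congrArg Subtype.val hc
    exact h4.symm
  refine ⟨A, hAE, ?_, ?_, hKN⟩
  · intro u hu
    obtain ⟨a, ha, rfl⟩ := hUA u hu
    exact Subgroup.pow_mem _ ha _
  · intro a ha hal
    have h1 : ∀ j ≤ n, ∃ c ∈ A, a = c ^ ℓ ^ j := by
      intro j
      induction j with
      | zero => intro _; exact ⟨a, ha, by rw [pow_zero, pow_one]⟩
      | succ j ih =>
        intro hj
        obtain ⟨c, hc, hac⟩ := ih (by omega)
        have h2 : c ^ ℓ ^ n = 1 := by
          have h3 : c ^ ℓ ^ (j + 1) = 1 := by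
            rw [pow_succ, pow_mul, ← hac, hal]
          obtain ⟨i, rfl⟩ := Nat.exists_eq_add_of_le hj
          rw [pow_add, pow_mul, h3, one_pow]
        obtain ⟨d, hd, hcd⟩ := hKN c hc h2
        exact ⟨d, hd, by rw [hac, hcd, ← pow_mul, ← pow_succ']⟩
    obtain ⟨c, hc, hac⟩ := h1 n le_rfl
    rw [hac]
    exact hAU c hc

/-- row EDF -/
theorem edf (eda : EdaStmt) (edc : EdcStmt) (edv : EdvStmt) : EdfStmt := by
  intro ℓ V E _ _ _ _ φ hℓ hV hE U hU hUE hUf
  classical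
  have hfact : Fact ℓ.Prime := ⟨hℓ⟩
  let S : Set (Subgroup V) := {A | A ≠ ⊥ ∧ A ≤ U ∧ ∀ e, ∀ a ∈ A, φ e a ∈ A}
  obtain ⟨U1, -, hU1⟩ := (Set.toFinite S).exists_le_minimal (a := U) ⟨hU, le_rfl, hUE⟩
  obtain ⟨hne, hU1U, hU1E⟩ := hU1.prop
  have hordV : ∀ y : V, y ≠ 1 → ∃ j, y ^ ℓ ^ j ≠ 1 ∧ (y ^ ℓ ^ j) ^ ℓ = 1 := by
    intro y hy
    obtain ⟨k, hk⟩ := hV y
    exact pow_ord hy hk
  -- a nontrivial stable subgroup of `U1` is `U1`
  have hmin : ∀ T : Subgroup V, (∃ y ∈ T, y ∈ U1 ∧ y ≠ 1) → (∀ e, ∀ a ∈ T, φ e a ∈ T) →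
      U1 ≤ T := by
    rintro T ⟨y, hy1, hy2, hy3⟩ hT
    have h1 : U1 ⊓ T ∈ S := by
      refine ⟨?_, inf_le_left.trans hU1U, fun e a ha => ⟨hU1E e a ha.1, hT e a ha.2⟩⟩
      intro h
      exact hy3 ((Subgroup.eq_bot_iff_forall _).1 h y ⟨hy2, hy1⟩)
    exact (hU1.le_of_le h1 inf_le_left).trans inf_le_right
  have hU1l : ∀ u ∈ U1, u ^ ℓ = 1 := by
    obtain ⟨u, hu, hu1⟩ := (Subgroup.bot_or_exists_ne_one U1).resolve_left hne
    obtain ⟨j, hj1, hj2⟩ := hordV u hu1
    have h1 := hmin (powMonoidHom ℓ : V →* V).ker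
      ⟨u ^ ℓ ^ j, hj2, Subgroup.pow_mem _ hu _, hj1⟩
      (fun e a ha => by
        have h2 : a ^ ℓ = 1 := ha
        show (φ e a) ^ ℓ = 1
        rw [← map_pow, h2, map_one])
    intro u hu
    exact h1 hu
  have hex : ∃ m, ¬ ∀ u ∈ U1, ∃ v : V, u = v ^ ℓ ^ m := by
    obtain ⟨k, hk⟩ := IsPGroup.iff_card.1 hV
    refine ⟨k, fun h => ?_⟩
    obtain ⟨u, hu, hu1⟩ := (Subgroup.bot_or_exists_ne_one U1).resolve_left hne
    obtain ⟨v, hv⟩ := h u hu
    apply hu1
    rw [hv, ← hk, pow_card_eq_one']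
  have h0 : Nat.find hex ≠ 0 := by
    intro h
    apply Nat.find_spec hex
    rw [h]
    intro u _
    exact ⟨u, by rw [pow_zero, pow_one]⟩
  obtain ⟨n, hn⟩ := Nat.exists_eq_succ_of_ne_zero h0
  have hn1 : ∀ u ∈ U1, ∃ v : V, u = v ^ ℓ ^ n := by
    by_contra h
    exact Nat.find_min hex (by rw [hn]; exact Nat.lt_succ_self n) h
  have hn2 : ¬ ∀ u ∈ U1, ∃ v : V, u = v ^ ℓ ^ (n + 1) := by
    have := Nat.find_spec hex
    rw [hn] at this
    exact this
  obtain ⟨A, hAE, hUA, hA1, hA2⟩ := eda ℓ n V E φ hℓ hE U1 hne hU1E hU1l hn1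
  have hA3 : ∀ v : V, v ^ ℓ ^ (n + 1) ∈ A → v ^ ℓ ^ (n + 1) = 1 := by
    intro v hv
    by_contra hne1
    obtain ⟨j, hj1, hj2⟩ := hordV _ hne1
    apply hn2
    have h1 := hmin (powMonoidHom (ℓ ^ (n + 1)) : V →* V).range
      ⟨(v ^ ℓ ^ (n + 1)) ^ ℓ ^ j, ⟨v ^ ℓ ^ j, by
        show (v ^ ℓ ^ j) ^ ℓ ^ (n + 1) = _
        rw [← pow_mul, ← pow_mul, mul_comm]⟩, hA1 _ (Subgroup.pow_mem _ hv _) hj2, hj1⟩
      (by
        rintro e _ ⟨w, rfl⟩
        exact ⟨φ e w, (map_pow (φ e) w _).symm⟩)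
    intro u hu
    obtain ⟨w, hw⟩ := h1 hu
    exact ⟨w, hw.symm⟩
  obtain ⟨B, hB⟩ := edc ℓ n V hℓ hV A hA2 hA3
  have hco : (Nat.card V).Coprime (Nat.card E) := by
    obtain ⟨k, hk⟩ := IsPGroup.iff_card.1 hV
    rw [hk]
    exact Nat.Coprime.pow_left _ ((Nat.Prime.coprime_iff_not_dvd hℓ).2 hE)
  obtain ⟨W, hW, hWE⟩ := edv V E φ hco A B hB hAE
  refine ⟨A, W, ?_, hW, hAE, hWE, ?_⟩
  · intro h
    exact hne (le_bot_iff.1 (h ▸ hUA))
  · intro e a ha hea
    by_cases h1 : a = 1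
    · exact Or.inr h1
    · left
      obtain ⟨j, hj1, hj2⟩ := hordV a h1
      have h2 : a ^ ℓ ^ j ∈ U := hU1U (hA1 _ (Subgroup.pow_mem _ ha _) hj2)
      exact (hUf e _ h2 (by rw [map_pow, hea])).resolve_right hj1

end Pool.Agent.PFD.H91
end
end -- Pool.Agent.Helper91_PFD.ED

section -- Pool.Agent.Helper7_WAX.LXB

/-!
Squad WAX, row LXB: the bound for abelian inertial quotients.
-/

open scoped BigOperators

set_option autoImplicit false

noncomputable section

namespace Pool.Agent.PP.TX.H7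

open Pool.Agent.Helper51_AWC Pool.Agent.Helper79_WRA Pool.Agent.PP Pool.Agent.PP.KF
open Pool.Agent.PP.K9 Pool.Agent.PP.K9.H97 Pool.Agent.PP.H75 Pool.Agent.PP.T3 Pool.Agent.PP.T2
open Pool.Agent.PP.T5 Pool.Agent.PP.TB Pool.Agent.PP.TV
open Pool.Agent.PP.T8 (Rv Fq Fr Ei Hk Rk Fd In)

attribute [local instance] Ideal.Quotient.field

theorem exp_pow {G : Type} [Group G] [Finite G] {ℓ : ℕ} (hl : ℓ.Prime) {V : Subgroup G}
    (hp : IsPGroup ℓ V) : ∃ b : ℕ, Monoid.exponent V = ℓ ^ b := by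
  have : Fact ℓ.Prime := ⟨hl⟩
  obtain ⟨n, hn⟩ := IsPGroup.iff_card.1 hp
  have h1 : Monoid.exponent V ∣ Nat.card V := Group.exponent_dvd_nat_card
  rw [hn] at h1
  obtain ⟨b, -, hb⟩ := (Nat.dvd_prime_pow hl).1 h1
  exact ⟨b, hb⟩

theorem lxb (ln0 : Ln0Stmt) (bnk : BnkStmt) (krg : KrgStmt) (rtr : T8.RtrStmt)
    (uwa : TB.UwaStmt) : LxbStmt := by
  intro ℓ _ M _ hM hl2 G _ _ e V γ ld hAb r a hR hra
  have hF : GoodF ℓ (FF M) := H50.fld ℓ Fact.out M hM
  have hlp : ℓ.Prime := Fact.out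
  have hix : ¬ ℓ ∣ ix V γ :=
    K9.H34.inx ℓ M hM G e ld.blk V ld.tp ld.ab γ ld.gam.supp ld.gam.blk ld.und
  by_cases hV : V = ⊥
  · exact (ln0 ℓ M hM G e V γ ld hV).trans (Nat.one_le_pow _ _ hlp.pos)
  obtain ⟨b, hb⟩ := exp_pow hlp ld.tp.pg
  have hb0 : 0 < b := by
    rcases Nat.eq_zero_or_pos b with h | h
    · exfalso
      rw [h, pow_zero] at hb
      have := Monoid.exp_eq_one_iff.1 hb
      exact hV (Subgroup.eq_bot_of_subsingleton V)
    · exact h
  -- the powers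
  have hU : Uw (ℓ ^ b) V = ⊥ := by
    refine Subgroup.closure_eq_bot_iff.2 ?_
    rintro _ ⟨v, hv, rfl⟩
    have h1 := Monoid.pow_exponent_eq_one (⟨v, hv⟩ : V)
    rw [hb] at h1
    have := congrArg Subtype.val h1
    simpa using this
  have hab := (uwa G V ld.ab).2.1
  have hcard : Nat.card V ≤ ℓ ^ (r * b) := by
    have := hab ℓ r b hR
    rw [hU] at this
    simpa using this
  have hr : 0 < r := by
    rcases Nat.eq_zero_or_pos r with h | h
    · exfalso
      rw [h, zero_mul, pow_zero] at hcard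
      exact hV (Subgroup.eq_bot_of_card_le V hcard)
    · exact h
  set k := (r + 1) / 2 with hk
  have hk0 : 0 < k := by omega
  have hEi : Ei ℓ V γ := Or.inl hAb
  rcases le_or_gt k b with hkb | hkb
  · have hHk : Hk ℓ k V γ := by
      refine Or.inl (le_trans hR (Nat.mul_le_mul_right _ ?_))
      exact Nat.pow_le_pow_right hlp.pos (by omega)
    have h1 := bnk ℓ M hM hl2 G e V γ ld b k hk0 hkb hb hEi hHk
    have h2 := hab ℓ r k hR
    have h3 : 0 < Nat.card (Uw (ℓ ^ k) V) := Nat.card_pos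
    have h4 : ln e * ℓ ^ (k - 1) ≤ ℓ ^ (r * k) := Nat.le_of_mul_le_mul_right (h1.trans h2) h3
    have h5 : r * k ≤ a + (k - 1) := by
      rcases Nat.even_or_odd r with ⟨s, hs⟩ | ⟨s, hs⟩
      · have e1 : k = s := by omega
        subst hs
        rw [e1] at hk0 ⊢
        nlinarith
      · have e1 : k = s + 1 := by omega
        subst hs
        rw [e1]
        have : (s + 1 - 1) = s := rfl
        rw [this]
        nlinarith
    have h6 : ln e * ℓ ^ (k - 1) ≤ ℓ ^ a * ℓ ^ (k - 1) := by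
      rw [← pow_add]
      exact h4.trans (Nat.pow_le_pow_right hlp.pos h5)
    exact Nat.le_of_mul_le_mul_right h6 (pow_pos hlp.pos _)
  · obtain ⟨y, hy⟩ := (rtr ℓ (FF M) hF G e V γ ld hix b hb).1 hb0 hEi
    have hreg : Rg V γ y := by
      refine ⟨hy.mem, ?_, ?_⟩
      · rintro rfl
        have := hy.ord
        rw [orderOf_one] at this
        exact (Nat.one_lt_pow hb0.ne' hlp.one_lt).ne this
      · rintro t ⟨ht, htc⟩
        refine hy.reg t ht 1 V.one_mem ?_
        rw [one_pow, mul_one]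
        have h1 : t * y = y * t := Subgroup.mem_centralizer_singleton_iff.1 htc
        rw [h1]
        group
    have h1 := krg ℓ M hM G e V γ ld ⟨y, hreg⟩
    refine (h1.trans hcard).trans (Nat.pow_le_pow_right hlp.pos ?_)
    have h2 : r * b ≤ r * (k - 1) := Nat.mul_le_mul_left _ (by omega)
    refine h2.trans ?_
    rcases Nat.even_or_odd r with ⟨s, hs⟩ | ⟨s, hs⟩
    · have e1 : k = s := by omega
      subst hs
      rw [e1] at hk0 ⊢
      obtain ⟨s', rfl⟩ : ∃ s', s = s' + 1 := ⟨s - 1, by omega⟩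
      have : (s' + 1 - 1) = s' := rfl
      rw [this]
      nlinarith
    · have e1 : k = s + 1 := by omega
      subst hs
      rw [e1]
      have : (s + 1 - 1) = s := rfl
      rw [this]
      nlinarith

end Pool.Agent.PP.TX.H7
end
end -- Pool.Agent.Helper7_WAX.LXB
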