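import Pool.Agent.Helper12_AWB.B146
import Pool.Agent.Helper12_AWB.B173
import Pool.Agent.Helper12_AWB.B182

/-!
# Merged copies (generated) of the modules

* `Pool.Agent.Helper45_AT8.NRM`
* `Pool.Agent.Helper45_AT8.BN8`
* `Pool.Agent.Helper25_ATZ.NRZ`
* `Pool.Agent.Helper65_ATZ.BFZ`
* `Pool.Agent.Helper89_WAT.TVA`
-/

set_option autoImplicit false

section -- Pool.Agent.Helper45_AT8.NRM

/-!
# Squad AT8, row NRM
-/

open scoped BigOperators

noncomputable section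

namespace Pool.Agent.PP.T8.H45

open Pool.Agent.Helper51_AWC Pool.Agent.Helper79_WRA Pool.Agent.PP Pool.Agent.PP.KF

attribute [local instance] Ideal.Quotient.field

/-- the norm of an element of the cyclotomic ring -/
theorem prod_prim_aux (n : ℕ) [NeZero n] (K : Type) [Field K] [Algebra ℚ K]
    [IsCyclotomicExtension {n} ℚ K] (m : ℕ → ℤ) (N : ℕ) :
    ∃ z : ℤ, ∏ μ ∈ primitiveRoots n ℂ, ∑ i ∈ Finset.range N, (m i : ℂ) * μ ^ i = z ∧
      (∀ μ ∈ primitiveRoots n ℂ, ∑ i ∈ Finset.range N, (m i : ℂ) * μ ^ i ≠ 0 → z ≠ 0) := by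
  have hn : 0 < n := Nat.pos_of_ne_zero (NeZero.ne n)
  have hfd := IsCyclotomicExtension.finiteDimensional {n} ℚ K
  have hch : CharZero K := charZero_of_injective_algebraMap (algebraMap ℚ K).injective
  have hz := IsCyclotomicExtension.zeta_spec n ℚ K
  set z₀ : K := IsCyclotomicExtension.zeta n ℚ K with hz₀
  set x : K := ∑ i ∈ Finset.range N, (m i : K) * z₀ ^ i with hx
  have hirr := Polynomial.cyclotomic.irreducible_rat hn
  let E := hz.embeddingsEquivPrimitiveRoots ℂ hirr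
  have hE : ∀ σ : K →ₐ[ℚ] ℂ, ((E σ : primitiveRoots n ℂ) : ℂ) = σ z₀ := fun σ =>
    hz.embeddingsEquivPrimitiveRoots_apply_coe ℂ hirr σ
  have hσ : ∀ σ : K →ₐ[ℚ] ℂ, σ x = ∑ i ∈ Finset.range N, (m i : ℂ) * ((E σ : ℂ)) ^ i := by
    intro σ
    rw [hx, map_sum, hE]
    refine Finset.sum_congr rfl fun i _ => ?_
    rw [map_mul, map_pow, map_intCast]
  have hint : IsIntegral ℤ x := by
    rw [hx]
    refine IsIntegral.sum _ fun i _ => IsIntegral.mul ?_ ((hz.isIntegral hn).pow i)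
    have := isIntegral_algebraMap (R := ℤ) (A := K) (x := m i)
    simpa using this
  obtain ⟨k, hk⟩ := IsIntegrallyClosed.isIntegral_iff.1 (Algebra.isIntegral_norm ℚ hint)
  have hprod := Algebra.norm_eq_prod_embeddings ℚ ℂ x
  rw [← hk] at hprod
  have h1 : ∏ μ ∈ primitiveRoots n ℂ, ∑ i ∈ Finset.range N, (m i : ℂ) * μ ^ i =
      ∏ σ : K →ₐ[ℚ] ℂ, σ x := by
    rw [← Finset.prod_coe_sort (primitiveRoots n ℂ)
      (fun μ => ∑ i ∈ Finset.range N, (m i : ℂ) * μ ^ i)]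
    exact (Fintype.prod_equiv E _ _ fun σ => hσ σ).symm
  refine ⟨k, ?_, ?_⟩
  · rw [h1, ← hprod]
    simp
  · rintro μ hμ hne rfl
    apply hne
    have h2 : Algebra.norm ℚ x = 0 := by rw [← hk]; simp
    rw [Algebra.norm_eq_zero_iff] at h2
    have h3 := hσ (E.symm ⟨μ, hμ⟩)
    rw [Equiv.apply_symm_apply, h2, map_zero] at h3
    exact h3.symm

theorem prod_prim (n : ℕ) [NeZero n] (m : ℕ → ℤ) (N : ℕ) :
    ∃ z : ℤ, ∏ μ ∈ primitiveRoots n ℂ, ∑ i ∈ Finset.range N, (m i : ℂ) * μ ^ i = z ∧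
      (∀ μ ∈ primitiveRoots n ℂ, ∑ i ∈ Finset.range N, (m i : ℂ) * μ ^ i ≠ 0 → z ≠ 0) := by
  have : NeZero ((n : ℕ) : ℚ) := ⟨by exact_mod_cast NeZero.ne n⟩
  have h1 := CyclotomicField.isCyclotomicExtension n ℚ
  exact @prod_prim_aux n _ (CyclotomicField n ℚ) _ _ h1 m N

/-- divisibility in the local ring -/
theorem dvd_RM {ℓ : ℕ} (hℓ : ℓ.Prime) (M : Ideal (integralClosure ℤ ℂ)) [M.IsMaximal]
    (hM : (ℓ : integralClosure ℤ ℂ) ∈ M) (t : ℕ) :
    ∀ n : ℤ, (n : ℂ) / (ℓ : ℂ) ^ t ∈ RM M → (ℓ : ℤ) ^ t ∣ n := by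
  have hl0 : (ℓ : ℂ) ≠ 0 := by exact_mod_cast hℓ.ne_zero
  induction t with
  | zero => intro n _; simp
  | succ t ih =>
    intro n hn
    have h1 : (n : ℂ) / (ℓ : ℂ) ^ t ∈ RM M := by
      have h2 := (RM M).mul_mem (rr_nat (M := M) ℓ).1 hn
      have h3 : (ℓ : ℂ) * ((n : ℂ) / (ℓ : ℂ) ^ (t + 1)) = (n : ℂ) / (ℓ : ℂ) ^ t := by
        rw [pow_succ]
        field_simp
      rwa [h3] at h2
    obtain ⟨k, rfl⟩ := ih n h1
    have h4 : (k : ℂ) / ℓ ∈ RM M := by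
      have h5 : (((ℓ : ℤ) ^ t * k : ℤ) : ℂ) / (ℓ : ℂ) ^ (t + 1) = (k : ℂ) / ℓ := by
        push_cast
        rw [pow_succ]
        field_simp
      rwa [h5] at hn
    have h6 : rr M (k : ℂ) = 0 := by
      have h7 := rr_mul (rr_nat (M := M) ℓ).1 h4
      have h8 : (ℓ : ℂ) * ((k : ℂ) / ℓ) = k := by field_simp
      have h9 : rr M ((ℓ : ℤ) : ℂ) = 0 := (dvd_of_rr hℓ hM).2 (dvd_refl _)
      rw [Int.cast_natCast] at h9
      rw [h8, h9, zero_mul] at h7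
      exact h7
    obtain ⟨k', rfl⟩ := (dvd_of_rr hℓ hM).1 h6
    exact ⟨k', by ring⟩

/-- the inequality between the arithmetic and the geometric mean -/
theorem amgm {ι : Type*} (J : Finset ι) (y : ι → ℝ) (hy : ∀ j ∈ J, 0 < y j) (c : ℝ) (hc : 0 < c)
    (h : c ^ J.card ≤ ∏ j ∈ J, y j) : (J.card : ℝ) * c ≤ ∑ j ∈ J, y j := by
  have h1 : ∀ j ∈ J, Real.log (y j / c) ≤ y j / c - 1 := fun j hj =>
    Real.log_le_sub_one_of_pos (div_pos (hy j hj) hc)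
  have h2 : 0 ≤ ∑ j ∈ J, Real.log (y j / c) := by
    rw [← Real.log_prod fun j hj => (div_pos (hy j hj) hc).ne']
    apply Real.log_nonneg
    rw [Finset.prod_div_distrib, Finset.prod_const, one_le_div (pow_pos hc _)]
    exact h
  have h3 := h2.trans (Finset.sum_le_sum h1)
  rw [Finset.sum_sub_distrib, ← Finset.sum_div, Finset.sum_const, nsmul_eq_mul, mul_one,
    sub_nonneg, le_div_iff₀ hc] at h3
  exact h3

theorem nrm : NrmStmt := by
  intro ℓ hℓ M _ hM a s h ha ζ hζ m hR hne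
  have hp : ℓ.Prime := hℓ.out
  set J := (Finset.range (ℓ ^ a)).filter (fun j => ¬ ℓ ∣ j) with hJ
  have hq : 0 < ℓ ^ a := pow_pos hp.pos _
  have : NeZero (ℓ ^ a) := ⟨hq.ne'⟩
  have hcop : ∀ j : ℕ, j.Coprime (ℓ ^ a) ↔ ¬ ℓ ∣ j := by
    intro j
    rw [Nat.coprime_pow_right_iff ha, Nat.coprime_comm, Nat.Prime.coprime_iff_not_dvd hp]
  set P : ℕ → ℂ := fun j => ∑ i ∈ Finset.range (ℓ ^ a), (m i : ℂ) * ζ ^ (i * j) with hP
  have hcard : J.card = ℓ ^ (a - 1) * (ℓ - 1) := by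
    rw [← Nat.totient_prime_pow hp ha, Nat.totient, hJ]
    congr 1
    refine Finset.filter_congr fun j _ => ?_
    rw [Nat.coprime_comm, hcop]
  obtain ⟨z, hz, hz0⟩ := prod_prim (ℓ ^ a) m (ℓ ^ a)
  have hprod : ∏ j ∈ J, P j = z := by
    rw [← hz]
    refine Finset.prod_bij (fun j _ => ζ ^ j) ?_ ?_ ?_ ?_
    · intro j hj
      rw [hJ, Finset.mem_filter] at hj
      rw [mem_primitiveRoots hq]
      exact hζ.pow_of_coprime j ((hcop j).2 hj.2)
    · intro i hi j hj hij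
      rw [hJ, Finset.mem_filter, Finset.mem_range] at hi hj
      exact hζ.pow_inj hi.1 hj.1 hij
    · intro μ hμ
      rw [mem_primitiveRoots hq] at hμ
      obtain ⟨i, hi, hc, rfl⟩ := (hζ.isPrimitiveRoot_iff).1 hμ
      exact ⟨i, Finset.mem_filter.2 ⟨Finset.mem_range.2 hi, (hcop i).1 hc⟩, rfl⟩
    · intro j _
      refine Finset.sum_congr rfl fun i _ => ?_
      rw [← pow_mul, Nat.mul_comm j i]
  have hzne : z ≠ 0 := hz0 ζ ((mem_primitiveRoots hq).2 hζ) hne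
  have hl0 : (ℓ : ℂ) ≠ 0 := by exact_mod_cast hp.ne_zero
  have hdvd : (ℓ : ℤ) ^ ((s + h) * J.card) ∣ z := by
    apply dvd_RM hp M hM
    have h1 : ∏ j ∈ J, (P j / ℓ ^ s / ℓ ^ h) ∈ RM M := by
      refine Subring.prod_mem _ fun j hj => hR j ?_
      exact (Finset.mem_filter.1 hj).2
    have h2 : ∏ j ∈ J, (P j / ℓ ^ s / ℓ ^ h) = (z : ℂ) / (ℓ : ℂ) ^ ((s + h) * J.card) := by
      rw [Finset.prod_div_distrib, Finset.prod_div_distrib, hprod, Finset.prod_const,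
        Finset.prod_const, div_div]
      congr 1
      rw [← pow_mul, ← pow_mul, ← pow_add]
      ring
    rwa [h2] at h1
  have hPne : ∀ j ∈ J, P j ≠ 0 := by
    intro j hj h0
    apply hzne
    have h1 : ((z : ℤ) : ℂ) = 0 := by
      rw [← hprod]
      exact Finset.prod_eq_zero hj h0
    exact_mod_cast h1
  have habs : ((ℓ : ℝ) ^ ((s + h) * J.card)) ≤ |(z : ℝ)| := by
    obtain ⟨k, rfl⟩ := hdvd
    have hk : k ≠ 0 := by
      rintro rfl
      simp at hzne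
    have h1 : (1 : ℝ) ≤ |(k : ℝ)| := by exact_mod_cast Int.one_le_abs hk
    push_cast
    rw [abs_mul, abs_of_nonneg (by positivity)]
    exact le_mul_of_one_le_right (by positivity) h1
  have hmain : ((ℓ : ℝ) ^ (2 * h)) ^ J.card ≤ ∏ j ∈ J, Complex.normSq (P j / ℓ ^ s) := by
    rw [← map_prod, Finset.prod_div_distrib, hprod, Finset.prod_const, map_div₀, map_pow, map_pow,
      Complex.normSq_intCast, Complex.normSq_natCast]
    have hlp : (0 : ℝ) < (ℓ : ℝ) := by exact_mod_cast hp.pos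
    rw [le_div_iff₀ (by positivity)]
    have h1 : ((ℓ : ℝ) ^ (2 * h)) ^ J.card * (((ℓ : ℝ) * ℓ) ^ s) ^ J.card =
        (ℓ : ℝ) ^ ((s + h) * J.card) * (ℓ : ℝ) ^ ((s + h) * J.card) := by
      rw [← pow_two, ← pow_mul, ← pow_mul, ← pow_mul, ← pow_add, ← pow_add]
      congr 1
      ring
    rw [h1]
    calc _ ≤ |(z : ℝ)| * |(z : ℝ)| := mul_le_mul habs habs (by positivity) (abs_nonneg _)
      _ = (z : ℝ) * z := abs_mul_abs_self _
  have hfin := amgm J (fun j => Complex.normSq (P j / ℓ ^ s)) (fun j hj => by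
    apply Complex.normSq_pos.2
    exact div_ne_zero (hPne j hj) (pow_ne_zero _ hl0)) ((ℓ : ℝ) ^ (2 * h))
    (pow_pos (by exact_mod_cast hp.pos) _) hmain
  rw [hcard] at hfin
  push_cast at hfin ⊢
  exact hfin

end Pool.Agent.PP.T8.H45
end
end -- Pool.Agent.Helper45_AT8.NRM

section -- Pool.Agent.Helper45_AT8.BN8

/-!
# Squad AT8, row BN8
-/

open scoped BigOperators

noncomputable section

namespace Pool.Agent.PP.T8.H45

open Pool.Agent.Helper51_AWC Pool.Agent.Helper79_WRA Pool.Agent.PP Pool.Agent.PP.KF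
open Pool.Agent.PP.K9 Pool.Agent.PP.K9.H97 Pool.Agent.PP.H75 Pool.Agent.PP.T3 Pool.Agent.PP.T2

attribute [local instance] Ideal.Quotient.field

theorem bn8 (av1 : Av1Stmt) (av2 : Av2Stmt) (avo : AvoStmt) : Bn8Stmt := by
  intro ℓ hℓ M _ hM h2 G _ _ N hN e V γ b d c ε hD a k hk hka hexp y hy hh
  have hp : ℓ.Prime := hℓ.out
  have ha : 0 < a := by omega
  obtain ⟨hW, hWV, -⟩ := H32.pwu G (ℓ ^ k) V hD.ld.ab
  set W := Uw (ℓ ^ k) V with hWdef
  have hWs : ∃ s, Nat.card W = ℓ ^ s := by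
    have h3 : IsPGroup ℓ W := hD.ld.tp.pg.to_le hWV
    exact IsPGroup.iff_card.1 h3
  obtain ⟨s, hs⟩ := hWs
  have hq : 0 < ℓ ^ a := pow_pos hp.pos _
  obtain ⟨ζ, hζ⟩ : ∃ ζ : ℂ, IsPrimitiveRoot ζ (ℓ ^ a) :=
    ⟨_, Complex.isPrimitiveRoot_exp (ℓ ^ a) hq.ne'⟩
  have hζ' : IsPrimitiveRoot (ζ ^ ℓ ^ (a - 1)) (ℓ ^ 1) := by
    have h3 := hζ.pow hq (show ℓ ^ a = ℓ ^ (a - 1) * ℓ by rw [← pow_succ]; congr 1; omega)
    rwa [pow_one]
  set R : Set (G → ℂ) := {χ | χ ∈ IrrE M e ∧ ∀ g, χ (g ^ N) = χ g} with hR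
  have hfin : R.Finite := (T3.H49.irrE_fin M e).subset fun χ h => h.1
  set J := (Finset.range (ℓ ^ 1)).filter (fun j => ¬ ℓ ∣ j) with hJ
  have hJc : J.card = ℓ - 1 := by
    have h3 : J = (Finset.range ℓ).erase 0 := by
      rw [hJ, pow_one]
      ext j
      rw [Finset.mem_filter, Finset.mem_erase, Finset.mem_range, and_comm]
      refine and_congr_left fun hj => ?_
      constructor
      · rintro h rfl
        exact h (dvd_zero _)
      · intro h0 h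
        exact absurd (Nat.le_of_dvd (Nat.pos_of_ne_zero h0) h) (by omega)
    rw [h3, Finset.card_erase_of_mem (Finset.mem_range.2 hp.pos), Finset.card_range]
  set A : ℕ → (G → ℂ) → ℂ := fun j χ => av M b d ε W (y ^ j) χ with hA
  have hl0 : (ℓ : ℂ) ≠ 0 := by exact_mod_cast hp.ne_zero
  -- the lower bound
  have h1 : ∀ χ ∈ R, ((ℓ - 1 : ℕ) : ℝ) ≤ ∑ j ∈ J, Complex.normSq (A j χ) := by
    intro χ hχ
    obtain ⟨m, hm⟩ := av2 ℓ M hM h2 G N hN e V γ b d c ε hD a k hk hka hexp y hy χ hχ.1 hχ.2 ζ hζ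
    have hAV := av1 ℓ M hM h2 G N hN e V γ b d c ε hD a k hk hka hexp y hy χ hχ.1 hχ.2
    have e1 : ∀ j : ℕ, ¬ ℓ ∣ j →
        (∑ i ∈ Finset.range (ℓ ^ 1), (m i : ℂ) * (ζ ^ ℓ ^ (a - 1)) ^ (i * j)) / ℓ ^ s = A j χ := by
      intro j hj
      rw [pow_one ℓ, ← hm j hj, ← hWdef, hs, div_eq_iff (pow_ne_zero _ hl0)]
      push_cast
      rw [mul_comm]
    have h3 := nrm ℓ M hM 1 s 0 one_pos (ζ ^ ℓ ^ (a - 1)) hζ' m (fun j hj => by
      rw [e1 j hj, pow_zero, div_one]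
      exact (hAV j hj).2.1) (by
      intro h0
      have h1' : ¬ ℓ ∣ 1 := fun hd => hp.one_lt.ne' (Nat.dvd_one.1 hd)
      have h4 := e1 1 h1'
      simp only [mul_one] at h4
      rw [h0, zero_div] at h4
      exact (hAV 1 h1').2.2 (hh χ hχ.1) h4.symm)
    have h5 : ((ℓ ^ (1 - 1) * (ℓ - 1) * ℓ ^ (2 * 0) : ℕ) : ℝ) = ((ℓ - 1 : ℕ) : ℝ) := by
      congr 1
      simp
    rw [h5] at h3
    refine h3.trans (le_of_eq (Finset.sum_congr rfl fun j hj => ?_))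
    rw [e1 j (Finset.mem_filter.1 hj).2]
  -- the upper bound
  have h3 : ∀ j ∈ J, (ℓ : ℝ) ^ (k - 1) * Nat.card W *
      ∑ χ ∈ hfin.toFinset, Complex.normSq (A j χ) ≤ Nat.card V := by
    intro j hj
    have h4 := avo ℓ M hM h2 G N hN e V γ b d c ε hD a k hk hka hexp y hy j
      (Finset.mem_filter.1 hj).2
    rw [finsum_mem_eq_finite_toFinset_sum _ hfin] at h4
    exact h4
  have h4 : (R.ncard : ℝ) * ((ℓ - 1 : ℕ) : ℝ) ≤
      ∑ χ ∈ hfin.toFinset, ∑ j ∈ J, Complex.normSq (A j χ) := by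
    have h5 : (R.ncard : ℝ) * ((ℓ - 1 : ℕ) : ℝ) =
        ∑ χ ∈ hfin.toFinset, ((ℓ - 1 : ℕ) : ℝ) := by
      rw [Finset.sum_const, nsmul_eq_mul, Set.ncard_eq_toFinset_card R hfin]
    rw [h5]
    exact Finset.sum_le_sum fun χ hχ => h1 χ (hfin.mem_toFinset.1 hχ)
  rw [Finset.sum_comm] at h4
  have hX : (0 : ℝ) ≤ (ℓ : ℝ) ^ (k - 1) * Nat.card W := by positivity
  have h5 : (ℓ : ℝ) ^ (k - 1) * Nat.card W * ((R.ncard : ℝ) * ((ℓ - 1 : ℕ) : ℝ)) ≤
      ((ℓ - 1 : ℕ) : ℝ) * Nat.card V := by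
    calc (ℓ : ℝ) ^ (k - 1) * Nat.card W * ((R.ncard : ℝ) * ((ℓ - 1 : ℕ) : ℝ))
        ≤ (ℓ : ℝ) ^ (k - 1) * Nat.card W *
          ∑ j ∈ J, ∑ χ ∈ hfin.toFinset, Complex.normSq (A j χ) :=
          mul_le_mul_of_nonneg_left h4 hX
      _ = ∑ j ∈ J, (ℓ : ℝ) ^ (k - 1) * Nat.card W *
          ∑ χ ∈ hfin.toFinset, Complex.normSq (A j χ) := Finset.mul_sum _ _ _
      _ ≤ ∑ _j ∈ J, (Nat.card V : ℝ) := Finset.sum_le_sum h3
      _ = ((ℓ - 1 : ℕ) : ℝ) * Nat.card V := by rw [Finset.sum_const, hJc, nsmul_eq_mul]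
  have h6 : ℓ ^ (k - 1) * Nat.card W * (R.ncard * (ℓ - 1)) ≤ (ℓ - 1) * Nat.card V := by
    exact_mod_cast h5
  have h7 : 0 < ℓ - 1 := by have := hp.one_lt; omega
  refine Nat.le_of_mul_le_mul_left ?_ h7
  calc (ℓ - 1) * (R.ncard * ℓ ^ (k - 1) * Nat.card W) =
      ℓ ^ (k - 1) * Nat.card W * (R.ncard * (ℓ - 1)) := by ring
    _ ≤ _ := h6

end Pool.Agent.PP.T8.H45
end
end -- Pool.Agent.Helper45_AT8.BN8

section -- Pool.Agent.Helper25_ATZ.NRZ

/-!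
# Squad ATZ, row NRZ: the conjugates of an element divisible by a power of the prime
-/

open scoped BigOperators

noncomputable section

namespace Pool.Agent.PP.TB.H25

open Pool.Agent.Helper51_AWC Pool.Agent.Helper79_WRA Pool.Agent.PP Pool.Agent.PP.KF
open Pool.Agent.PP.T8.H45

attribute [local instance] Ideal.Quotient.field

theorem nrz : NrzStmt := by
  intro ℓ hℓ M _ hM a h ha ζ hζ m x hx hR
  have hp : ℓ.Prime := hℓ.out
  set J := (Finset.range (ℓ ^ a)).filter (fun j => ¬ ℓ ∣ j) with hJ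
  have hq : 0 < ℓ ^ a := pow_pos hp.pos _
  have : NeZero (ℓ ^ a) := ⟨hq.ne'⟩
  have hcop : ∀ j : ℕ, j.Coprime (ℓ ^ a) ↔ ¬ ℓ ∣ j := by
    intro j
    rw [Nat.coprime_pow_right_iff ha, Nat.coprime_comm, Nat.Prime.coprime_iff_not_dvd hp]
  have hcard : J.card = ℓ ^ (a - 1) * (ℓ - 1) := by
    rw [← Nat.totient_prime_pow hp ha, Nat.totient, hJ]
    congr 1
    refine Finset.filter_congr fun j _ => ?_
    rw [Nat.coprime_comm, hcop]
  have hmem : ∀ j ∈ J, ¬ ℓ ∣ j := fun j hj => (Finset.mem_filter.1 hj).2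
  obtain ⟨z, hz, -⟩ := prod_prim (ℓ ^ a) m (ℓ ^ a)
  have hprod : ∏ j ∈ J, (x j : ℂ) = z := by
    rw [← hz]
    refine Finset.prod_bij (fun j _ => ζ ^ j) ?_ ?_ ?_ ?_
    · intro j hj
      rw [hJ, Finset.mem_filter] at hj
      rw [mem_primitiveRoots hq]
      exact hζ.pow_of_coprime j ((hcop j).2 hj.2)
    · intro i hi j hj hij
      rw [hJ, Finset.mem_filter, Finset.mem_range] at hi hj
      exact hζ.pow_inj hi.1 hj.1 hij
    · intro μ hμ
      rw [mem_primitiveRoots hq] at hμ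
      obtain ⟨i, hi, hc, rfl⟩ := (hζ.isPrimitiveRoot_iff).1 hμ
      exact ⟨i, Finset.mem_filter.2 ⟨Finset.mem_range.2 hi, (hcop i).1 hc⟩, rfl⟩
    · intro j hj
      rw [(hx j (hmem j hj)).2]
      refine Finset.sum_congr rfl fun i _ => ?_
      rw [← pow_mul, Nat.mul_comm j i]
  have hprodR : ∏ j ∈ J, x j = (z : ℝ) := by
    have h1 : ((∏ j ∈ J, x j : ℝ) : ℂ) = ((z : ℝ) : ℂ) := by
      rw [Complex.ofReal_prod, hprod]
      simp
    exact Complex.ofReal_injective h1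
  have hpos : (0 : ℝ) < z := by
    rw [← hprodR]
    exact Finset.prod_pos fun j hj => (hx j (hmem j hj)).1
  have hl0 : (ℓ : ℂ) ≠ 0 := by exact_mod_cast hp.ne_zero
  have hdvd : (ℓ : ℤ) ^ (h * J.card) ∣ z := by
    apply dvd_RM hp M hM
    have h1 : ∏ j ∈ J, ((x j : ℂ) / ℓ ^ h) ∈ RM M := by
      refine Subring.prod_mem _ fun j hj => hR j (hmem j hj)
    have h2 : ∏ j ∈ J, ((x j : ℂ) / ℓ ^ h) = (z : ℂ) / (ℓ : ℂ) ^ (h * J.card) := by
      rw [Finset.prod_div_distrib, hprod, Finset.prod_const, ← pow_mul]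
    rwa [h2] at h1
  have hmain : ((ℓ : ℝ) ^ h) ^ J.card ≤ ∏ j ∈ J, x j := by
    rw [hprodR, ← pow_mul]
    have hz0 : 0 < z := by exact_mod_cast hpos
    have h1 := Int.le_of_dvd hz0 hdvd
    exact_mod_cast h1
  have hfin := amgm J x (fun j hj => (hx j (hmem j hj)).1) ((ℓ : ℝ) ^ h)
    (pow_pos (by exact_mod_cast hp.pos) _) hmain
  rw [hcard] at hfin
  push_cast at hfin ⊢
  exact hfin

end Pool.Agent.PP.TB.H25
end
end -- Pool.Agent.Helper25_ATZ.NRZ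

section -- Pool.Agent.Helper65_ATZ.BFZ

/-!
# Squad ATZ, row BFZ: the number of the fixed characters
-/

open scoped BigOperators

noncomputable section

namespace Pool.Agent.PP.TB.H65

open Pool.Agent.Helper51_AWC Pool.Agent.Helper79_WRA Pool.Agent.PP Pool.Agent.PP.KF
open Pool.Agent.PP.K9 Pool.Agent.PP.K9.H97 Pool.Agent.PP.H75 Pool.Agent.PP.T3 Pool.Agent.PP.T2
open Pool.Agent.PP.T5

attribute [local instance] Ideal.Quotient.field

theorem bfz (zcp : ZcpStmt) (one : OneStmt) (nzf : NzfStmt) (pjz : PjzStmt) (ivz : IvzStmt)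
    (avz : AvzStmt) (htz : HtzStmt) (giz : GizStmt) : BfzStmt := by
  intro ℓ hℓ M _ hM G _ _ e V Z γ b hZ hS N hN k hk
  have hp : ℓ.Prime := hℓ.out
  have hl0 : (ℓ : ℂ) ≠ 0 := by exact_mod_cast hp.ne_zero
  have hG0 : (Nat.card G : ℂ) ≠ 0 := by exact_mod_cast (Nat.card_pos (α := G)).ne'
  have hV0 : (Nat.card V : ℂ) ≠ 0 := by exact_mod_cast (Nat.card_pos (α := V)).ne'
  obtain ⟨-, -, -, hi0, hil, -, hc1⟩ := zcp ℓ M hM G e V Z γ b hZ
  have hiC : (iz V Z γ : ℂ) ≠ 0 := by exact_mod_cast hi0.ne'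
  have hiR : ((iz V Z γ : ℂ))⁻¹ ∈ RM M := by
    have h1 : rr M (((iz V Z γ : ℕ) : ℤ) : ℂ) ≠ 0 := fun h =>
      hil (by exact_mod_cast (dvd_of_rr hp hM).1 h)
    rw [Int.cast_natCast] at h1
    exact (inv_RM (rr_nat (M := M) _).1 h1).1
  obtain ⟨W, hWd⟩ : ∃ W, W = Uw (ℓ ^ k) Z := ⟨_, rfl⟩
  have hWZ : W ≤ Z := by
    rw [hWd]
    refine (Subgroup.closure_le _).mpr ?_
    rintro _ ⟨x, hx, rfl⟩
    exact Z.pow_mem hx _
  have hWT : ∀ t ∈ Tg V γ, ∀ w ∈ W, t * w * t⁻¹ ∈ W := by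
    intro t ht w hw
    rw [hWd] at hw ⊢
    refine Subgroup.closure_induction (p := fun w _ => t * w * t⁻¹ ∈ Uw (ℓ ^ k) Z) ?_ ?_ ?_ ?_ hw
    · rintro _ ⟨x, hx, rfl⟩
      exact Subgroup.subset_closure ⟨t * x * t⁻¹, hZ.nrm t ht x hx, conj_pow⟩
    · rw [mul_one, mul_inv_cancel]
      exact one_mem _
    · intro x y _ _ hx hy
      have h : t * (x * y) * t⁻¹ = (t * x * t⁻¹) * (t * y * t⁻¹) := by group
      rw [h]
      exact mul_mem hx hy
    · intro x _ hx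
      have h : t * x⁻¹ * t⁻¹ = (t * x * t⁻¹)⁻¹ := by group
      rw [h]
      exact inv_mem hx
  have hZp : IsPGroup ℓ Z := hZ.tp.pg.to_le hZ.le
  have hZc : ∀ x ∈ Z, ∀ y ∈ Z, x * y = y * x := fun x hx y hy =>
    (hZ.cen x hx y (hZ.le hy)).symm
  obtain ⟨s, hs⟩ : ∃ s, Nat.card W = ℓ ^ s := IsPGroup.iff_card.1 (hZp.to_le hWZ)
  have hW0 : (Nat.card W : ℂ) ≠ 0 := by exact_mod_cast (Nat.card_pos (α := W)).ne'
  obtain ⟨χ₀, hχ₀, hu⟩ := nzf ℓ M hM G N hN e hZ.blk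
  have hχ₀I : χ₀ ∈ Irr G := hχ₀.1.1
  obtain ⟨-, hsum⟩ := pjz ℓ M hM G e V Z γ b hZ W hWZ hWT χ₀ hχ₀I
  have hlow : ∀ χ ∈ Rf M N e, (Nat.card W : ℝ) ^ 2 * (iz V Z γ : ℝ) ^ 2 ≤
      (Nat.card V : ℝ) ^ 2 * Complex.normSq (Pw M ℓ V Z W γ b χ χ₀) := by
    intro χ hχ
    have hf := hS χ hχ.1 χ₀ hχ₀.1
    have hinv : ∀ v ∈ Z, Az M ℓ V Z γ b χ χ₀ (v ^ N) = Az M ℓ V Z γ b χ χ₀ v := fun v hv =>
      ivz ℓ M hM G e V Z γ b hZ N hN v hv χ hχ.1.1 hχ.2 χ₀ hχ₀I hχ₀.2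
    obtain ⟨hA1, hA2⟩ := avz ℓ M hM G N hN Z hZp hZc _ hf hinv k W hWd
    obtain ⟨n, hn⟩ := giz ℓ M hM G e V Z γ b hZ W hWZ hWT χ hχ.1.1 χ₀ hχ₀I
    have hsumA : ∑ᶠ w : W, Az M ℓ V Z γ b χ χ₀ w =
        (Nat.card V : ℂ) * Pw M ℓ V Z W γ b χ χ₀ := by
      unfold Pw
      rw [mul_finsum]
      refine finsum_congr fun w => ?_
      unfold Az
      ring
    rw [hsumA, hn] at hA1 hA2
    have hn0 : n ≠ 0 := by
      rintro rfl
      rw [Int.cast_zero, mul_zero, mul_zero, sub_zero] at hA2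
      have h1 : Az M ℓ V Z γ b χ χ₀ 1 =
          (Nat.card V : ℂ) * (iz V Z γ : ℂ) * rip ℓ χ χ₀ := by
        unfold Az
        rw [hc1, one ℓ M hM G e V Z γ b hZ χ hχ.1 χ₀ hχ₀.1]
      rw [h1] at hA2
      obtain ⟨hr, hr0⟩ := hu χ hχ.1
      obtain ⟨hri, hrn⟩ := inv_RM hr hr0
      have h2 := (RM M).mul_mem ((RM M).mul_mem hA2 hiR) hri
      have hχ1 : χ 1 ≠ 0 := by
        intro h
        rw [h, div_zero] at hrn
        exact hrn rfl
      have hrip : rip ℓ χ χ₀ ≠ 0 := by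
        intro h
        rw [h, mul_zero, zero_div] at hrn
        exact hrn rfl
      have h3 : (Nat.card V : ℂ) * (iz V Z γ : ℂ) * rip ℓ χ χ₀ / (ℓ : ℂ) ^ (k + 1 - ep ℓ) *
          (iz V Z γ : ℂ)⁻¹ * ((Nat.card G : ℂ) * rip ℓ χ χ₀ / χ 1)⁻¹ =
          (Nat.card V : ℂ) * χ 1 / (Nat.card G * (ℓ : ℂ) ^ (k + 1 - ep ℓ)) := by
        field_simp
      rw [h3] at h2
      exact absurd (htz ℓ M hM G e V Z γ b hZ χ hχ.1 _ h2) (not_le.mpr hk)
    have hWn : (Nat.card W : ℤ) ∣ n := by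
      have h1 := (RM M).mul_mem hA1 hiR
      have h2 : ((Nat.card W : ℂ)⁻¹ * ((iz V Z γ : ℂ) * n)) * (iz V Z γ : ℂ)⁻¹ =
          (n : ℂ) / (ℓ : ℂ) ^ s := by
        have h3 : (Nat.card W : ℂ) = (ℓ : ℂ) ^ s := by rw [hs]; push_cast; rfl
        rw [← h3]
        field_simp
      rw [h2] at h1
      rw [hs]
      push_cast
      exact T8.H45.dvd_RM hp M hM s n h1
    have hle : (Nat.card W : ℤ) ≤ |n| :=
      Int.le_of_dvd (abs_pos.mpr hn0) ((dvd_abs _ _).mpr hWn)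
    have hle2 : (Nat.card W : ℝ) ≤ |(n : ℝ)| := by exact_mod_cast hle
    have h4 : (Nat.card V : ℝ) ^ 2 * Complex.normSq (Pw M ℓ V Z W γ b χ χ₀) =
        (n : ℝ) ^ 2 * (iz V Z γ : ℝ) ^ 2 := by
      have h := congrArg Complex.normSq hn
      rw [Complex.normSq_mul, Complex.normSq_mul, Complex.normSq_natCast,
        Complex.normSq_natCast, Complex.normSq_intCast] at h
      rw [pow_two, h]
      ring
    rw [h4]
    have h5 : (Nat.card W : ℝ) ^ 2 ≤ (n : ℝ) ^ 2 := by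
      rw [← sq_abs (n : ℝ)]
      exact pow_le_pow_left₀ (Nat.cast_nonneg _) hle2 2
    exact mul_le_mul_of_nonneg_right h5 (sq_nonneg _)
  have hfin : (Rf M N e).Finite := (T3.H49.irrE_fin M e).subset fun χ h => h.1
  have hIf : (Irr G).Finite := T3.H49.irr_fin G
  rw [finsum_mem_eq_finite_toFinset_sum _ hIf] at hsum
  have h6 : ∑ χ ∈ hfin.toFinset, Complex.normSq (Pw M ℓ V Z W γ b χ χ₀) ≤
      ∑ χ ∈ hIf.toFinset, Complex.normSq (Pw M ℓ V Z W γ b χ χ₀) := by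
    refine Finset.sum_le_sum_of_subset_of_nonneg ?_ fun χ _ _ => Complex.normSq_nonneg _
    intro χ hχ
    exact hIf.mem_toFinset.2 (hfin.mem_toFinset.1 hχ).1.1
  have h7 : ((Rf M N e).ncard : ℝ) * ((Nat.card W : ℝ) ^ 2 * (iz V Z γ : ℝ) ^ 2) ≤
      (Nat.card V : ℝ) ^ 2 * (iz V Z γ : ℝ) ^ 2 := by
    calc ((Rf M N e).ncard : ℝ) * ((Nat.card W : ℝ) ^ 2 * (iz V Z γ : ℝ) ^ 2)
        = ∑ χ ∈ hfin.toFinset, ((Nat.card W : ℝ) ^ 2 * (iz V Z γ : ℝ) ^ 2) := by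
          rw [Finset.sum_const, nsmul_eq_mul, Set.ncard_eq_toFinset_card _ hfin]
      _ ≤ ∑ χ ∈ hfin.toFinset,
          (Nat.card V : ℝ) ^ 2 * Complex.normSq (Pw M ℓ V Z W γ b χ χ₀) :=
          Finset.sum_le_sum fun χ hχ => hlow χ (hfin.mem_toFinset.1 hχ)
      _ = (Nat.card V : ℝ) ^ 2 *
          ∑ χ ∈ hfin.toFinset, Complex.normSq (Pw M ℓ V Z W γ b χ χ₀) := by
          rw [Finset.mul_sum]
      _ ≤ (Nat.card V : ℝ) ^ 2 * (iz V Z γ : ℝ) ^ 2 :=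
          mul_le_mul_of_nonneg_left (h6.trans hsum) (sq_nonneg _)
  rw [← hWd]
  have hi2 : (0 : ℝ) < (iz V Z γ : ℝ) ^ 2 := by
    have : (0 : ℝ) < (iz V Z γ : ℝ) := by exact_mod_cast hi0
    positivity
  have h8 : ((Rf M N e).ncard : ℝ) * (Nat.card W : ℝ) ^ 2 ≤ (Nat.card V : ℝ) ^ 2 := by
    refine le_of_mul_le_mul_right ?_ hi2
    rw [mul_assoc]
    exact h7
  exact_mod_cast h8

end Pool.Agent.PP.TB.H65
end
end -- Pool.Agent.Helper65_ATZ.BFZ

section -- Pool.Agent.Helper89_WAT.TVA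

/-!
# Squad WAT, row TVA: the twisted sums vanish
-/

open scoped BigOperators

noncomputable section

namespace Pool.Agent.PP.TV.H89

open Pool.Agent.Helper51_AWC Pool.Agent.Helper79_WRA Pool.Agent.PP Pool.Agent.PP.KF
open Pool.Agent.PP.K9 Pool.Agent.PP.K9.H97 Pool.Agent.PP.H75 Pool.Agent.PP.T3 Pool.Agent.PP.T2
open Pool.Agent.PP.T5 Pool.Agent.PP.TB

attribute [local instance] Ideal.Quotient.field

theorem re_lt_one {z : ℂ} (h : ‖z‖ = 1) (h1 : z ≠ 1) : z.re < 1 := by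
  have hsq : z.re * z.re + z.im * z.im = 1 := by
    have h2 := Complex.normSq_apply z
    rw [Complex.normSq_eq_norm_sq, h] at h2
    linarith
  rcases lt_or_ge z.re 1 with h3 | h3
  · exact h3
  · exfalso
    have h4 : z.im = 0 := by nlinarith [mul_self_nonneg z.im]
    have h5 : z.re = 1 := by nlinarith [mul_self_nonneg z.im]
    exact h1 (Complex.ext (by rw [h5, Complex.one_re]) (by rw [h4, Complex.one_im]))

theorem tva (tgi : TgiStmt) (zcp : TB.ZcpStmt) (poz : TB.PozStmt) (pjz : TB.PjzStmt) :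
    TvaStmt := by
  intro ℓ hℓ M _ hM G _ _ e V γ b hZ hS lam hlam hne χ hχ
  classical
  have hp : ℓ.Prime := hℓ.out
  have hVf : Fintype V := Fintype.ofFinite V
  have hl0 : (ℓ : ℂ) ≠ 0 := by exact_mod_cast hp.ne_zero
  have hV0 : (Nat.card V : ℂ) ≠ 0 := by exact_mod_cast (Nat.card_pos (α := V)).ne'
  have hχI : χ ∈ Irr G := hχ.1
  obtain ⟨-, -, -, hi0, hil, hcz, hc1⟩ := zcp ℓ M hM G e V V γ b hZ
  have hiC : (iz V V γ : ℂ) ≠ 0 := by exact_mod_cast hi0.ne'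
  have hiR : ((iz V V γ : ℂ))⁻¹ ∈ RM M := by
    have h1 : rr M (((iz V V γ : ℕ) : ℤ) : ℂ) ≠ 0 := fun h =>
      hil (by exact_mod_cast (dvd_of_rr hp hM).1 h)
    rw [Int.cast_natCast] at h1
    exact (inv_RM (rr_nat (M := M) _).1 h1).1
  -- the sum
  obtain ⟨A, hA⟩ : ∃ A : ℂ, A = ∑ᶠ v : V, (cz V V γ (v : G) : ℂ) * lam v *
      mm M ℓ (Cu (v : G)) v (b v) χ χ := ⟨_, rfl⟩
  rw [← hA]
  -- step 1: `A` is in the local ring
  have hAR : A ∈ RM M := by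
    let mu : V →* ℂ :=
      { toFun := fun v => lam v⁻¹
        map_one' := by rw [inv_one, map_one]
        map_mul' := fun v w => by rw [mul_inv_rev, map_mul, mul_comm] }
    have h1 := hS χ hχ χ hχ mu
    have h2 : (Nat.card V : ℂ)⁻¹ * ∑ᶠ v : V, Az M ℓ V V γ b χ χ (v : G) * mu v⁻¹ = A := by
      rw [hA, mul_finsum]
      refine finsum_congr fun v => ?_
      have h3 : mu v⁻¹ = lam v := by
        change lam (v⁻¹)⁻¹ = lam v
        rw [inv_inv]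
      rw [h3]
      unfold Az
      field_simp
    rw [← h2]
    exact h1
  -- step 2: `A` is an integral multiple of `iz`
  obtain ⟨n, hn⟩ := tgi ℓ M hM G e V γ b hZ lam hlam χ hχI
  rw [← hA] at hn
  have hVp : IsPGroup ℓ V := hZ.tp.pg
  obtain ⟨s, hs⟩ : ∃ s, Nat.card V = ℓ ^ s := IsPGroup.iff_card.1 hVp
  have hsC : (Nat.card V : ℂ) = (ℓ : ℂ) ^ s := by rw [hs]; push_cast; rfl
  have hdv : (ℓ : ℤ) ^ s ∣ n := by
    have h1 := (RM M).mul_mem hAR hiR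
    have h2 : A * (iz V V γ : ℂ)⁻¹ = (n : ℂ) / (ℓ : ℂ) ^ s := by
      rw [← hsC]
      field_simp
      linear_combination hn
    rw [h2] at h1
    exact T8.H45.dvd_RM hp M hM s n h1
  obtain ⟨m, hm⟩ := hdv
  have hAm : A = (iz V V γ : ℂ) * m := by
    have h1 : (Nat.card V : ℂ) * A = (Nat.card V : ℂ) * ((iz V V γ : ℂ) * m) := by
      rw [hn, hm, hsC]
      push_cast
      ring
    exact mul_left_cancel₀ hV0 h1
  -- step 3: the size
  have hpos : ∀ v : V, ∃ x : ℝ, 0 < x ∧ mm M ℓ (Cu (v : G)) v (b v) χ χ = (x : ℂ) := fun v =>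
    (poz ℓ M hM G e V V γ b hZ v v.2).2 χ hχ
  choose x hx0 hx using hpos
  obtain ⟨⟨y, hy, hyle⟩, -⟩ := pjz ℓ M hM G e V V γ b hZ V le_rfl hZ.nrm χ hχI
  have hysum : y = ∑ v : V, (cz V V γ (v : G) : ℝ) * x v := by
    have h1 : (y : ℂ) = ((∑ v : V, (cz V V γ (v : G) : ℝ) * x v : ℝ) : ℂ) := by
      rw [← hy]
      unfold Pw
      rw [finsum_eq_sum_of_fintype]
      push_cast
      exact Finset.sum_congr rfl fun v _ => by rw [hx v]
    exact_mod_cast h1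
  have hre : A.re = ∑ v : V, (cz V V γ (v : G) : ℝ) * x v * (lam v).re := by
    rw [hA, finsum_eq_sum_of_fintype, Complex.re_sum]
    refine Finset.sum_congr rfl fun v _ => ?_
    rw [hx v]
    have h1 : (cz V V γ (v : G) : ℂ) * lam v * (x v : ℂ) =
        (((cz V V γ (v : G) : ℝ) * x v : ℝ) : ℂ) * lam v := by
      push_cast
      ring
    rw [h1, Complex.re_ofReal_mul]
  have hnorm : ∀ v : V, ‖lam v‖ = 1 := by
    intro v
    have h1 : (lam v) ^ Nat.card V = 1 := by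
      rw [← map_pow, pow_card_eq_one', map_one]
    exact Complex.norm_eq_one_of_pow_eq_one h1 (Nat.card_pos (α := V)).ne'
  have hapos : ∀ v : V, 0 < (cz V V γ (v : G) : ℝ) * x v := fun v =>
    mul_pos (by exact_mod_cast hcz v v.2) (hx0 v)
  have hup : A.re < y := by
    obtain ⟨v₀, hv₀⟩ := hne
    rw [hre, hysum]
    refine Finset.sum_lt_sum (fun v _ => ?_) ⟨v₀, Finset.mem_univ _, ?_⟩
    · have h1 : (lam v).re ≤ 1 := by
        have := Complex.re_le_norm (lam v)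
        rwa [hnorm v] at this
      nlinarith [hapos v]
    · have h1 := re_lt_one (hnorm v₀) hv₀
      nlinarith [hapos v₀]
  have hlo : -y < A.re := by
    rw [hre, hysum, ← Finset.sum_neg_distrib]
    refine Finset.sum_lt_sum (fun v _ => ?_) ⟨1, Finset.mem_univ _, ?_⟩
    · have h1 : -1 ≤ (lam v).re := by
        have h2 := Complex.abs_re_le_norm (lam v)
        rw [hnorm v] at h2
        exact (abs_le.1 h2).1
      nlinarith [hapos v]
    · rw [map_one, Complex.one_re]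
      nlinarith [hapos 1]
  have hAre : A.re = (iz V V γ : ℝ) * m := by
    have h1 : A = (((iz V V γ : ℝ) * (m : ℝ) : ℝ) : ℂ) := by
      rw [hAm]
      push_cast
      rfl
    rw [h1, Complex.ofReal_re]
  have hiR0 : (0 : ℝ) < (iz V V γ : ℝ) := by exact_mod_cast hi0
  have hm1 : (m : ℝ) < 1 := by
    by_contra h
    have h' := not_lt.1 h
    nlinarith
  have hm2 : (-1 : ℝ) < (m : ℝ) := by
    by_contra h
    have h' := not_lt.1 h
    nlinarith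
  have hm0 : m = 0 := by
    have h1 : m < 1 := by exact_mod_cast hm1
    have h2 : -1 < m := by exact_mod_cast hm2
    omega
  rw [hAm, hm0, Int.cast_zero, mul_zero]

end Pool.Agent.PP.TV.H89
end
end -- Pool.Agent.Helper89_WAT.TVA
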