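import Pool.Agent.Helper12_AWB.B122
import Pool.Agent.Helper12_AWB.B127
import Pool.Agent.Helper12_AWB.B146
import Pool.Agent.Helper12_AWB.B165
import Pool.Agent.Helper12_AWB.B182

/-!
# Merged copies (generated) of the modules

* `Pool.Agent.Helper3_AT6.APX`
* `Pool.Agent.Helper28_AT10.LCS`
* `Pool.Agent.Helper31_PFD.KSM`
* `Pool.Agent.Helper34_PFD.TRN`
* `Pool.Agent.Helper25_WAX.LXC`
* `Pool.Agent.Helper41_AT6.FBD0`
* `Pool.Agent.Helper41_AT6.FBD1`
* `Pool.Agent.Helper41_AT6.FBD`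
-/

set_option autoImplicit false

section -- Pool.Agent.Helper3_AT6.APX

/-!
# Squad AT6, row APX: the approximate theorem of Broué and Puig
-/

open scoped BigOperators

noncomputable section

namespace Pool.Agent.PP.T6.H3

open Pool.Agent.Helper51_AWC Pool.Agent.Helper79_WRA Pool.Agent.PP Pool.Agent.PP.KF
open Pool.Agent.PP.K9 Pool.Agent.PP.K9.H97 Pool.Agent.PP.H75 Pool.Agent.PP.T3 Pool.Agent.PP.T2

attribute [local instance] Ideal.Quotient.field

section dv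

variable {M : Ideal (integralClosure ℤ ℂ)} [M.IsMaximal]

theorem dv_add {m a b : ℂ} (ha : Dv M m a) (hb : Dv M m b) : Dv M m (a + b) := by
  obtain ⟨s, hs, rfl⟩ := ha
  obtain ⟨t, ht, rfl⟩ := hb
  exact ⟨s + t, (RM M).add_mem hs ht, by ring⟩

theorem dv_neg {m a : ℂ} (ha : Dv M m a) : Dv M m (-a) := by
  obtain ⟨s, hs, rfl⟩ := ha
  exact ⟨-s, (RM M).neg_mem hs, by ring⟩

theorem dv_sub {m a b : ℂ} (ha : Dv M m a) (hb : Dv M m b) : Dv M m (a - b) := by
  rw [sub_eq_add_neg]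
  exact dv_add ha (dv_neg hb)

theorem dv_mul {m a b : ℂ} (ha : a ∈ RM M) (hb : Dv M m b) : Dv M m (a * b) := by
  obtain ⟨t, ht, rfl⟩ := hb
  exact ⟨a * t, (RM M).mul_mem ha ht, by ring⟩

theorem dv_zero {m : ℂ} : Dv M m 0 := ⟨0, (RM M).zero_mem, by ring⟩

theorem dv_sum {ι : Type} {m : ℂ} (s : Finset ι) (f : ι → ℂ) (h : ∀ i ∈ s, Dv M m (f i)) :
    Dv M m (∑ i ∈ s, f i) := by
  classical
  induction s using Finset.induction_on with
  | empty => simpa using dv_zero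
  | insert a s ha ih =>
    rw [Finset.sum_insert ha]
    exact dv_add (h a (Finset.mem_insert_self a s))
      (ih fun i hi => h i (Finset.mem_insert_of_mem hi))

end dv

section grp

/-- a sum over a group of a function which is constant on the cosets of a subgroup -/
theorem sum_cosets {T : Type} [Group T] [Fintype T] (C : Subgroup T) (F : T → ℂ)
    (hF : ∀ t, ∀ c ∈ C, F (t * c) = F t) :
    ∑ t : T, F t = Nat.card C * ∑ᶠ q : T ⧸ C, F q.out := by
  classical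
  rw [finsum_eq_sum_of_fintype, Finset.mul_sum,
    ← Finset.sum_fiberwise_of_maps_to (s := Finset.univ) (t := (Finset.univ : Finset (T ⧸ C)))
      (g := fun t : T => (t : T ⧸ C)) (fun t _ => Finset.mem_univ _)]
  refine Finset.sum_congr rfl fun q _ => ?_
  have h1 : ∀ t ∈ Finset.univ.filter (fun t : T => (t : T ⧸ C) = q), F t = F q.out := by
    intro t ht
    have h2 := (Finset.mem_filter.1 ht).2
    have h3 : q.out⁻¹ * t ∈ C := by
      rw [← QuotientGroup.eq, QuotientGroup.out_eq']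
      exact h2.symm
    have h4 := hF q.out _ h3
    rwa [mul_inv_cancel_left] at h4
  rw [Finset.sum_congr rfl h1, Finset.sum_const, nsmul_eq_mul]
  congr 1
  norm_cast
  rw [Nat.card_eq_fintype_card]
  refine (Finset.card_bij (s := (Finset.univ : Finset C)) (fun c _ => q.out * (c : T)) ?_ ?_ ?_).symm
  · intro c _
    rw [Finset.mem_filter]
    refine ⟨Finset.mem_univ _, ?_⟩
    rw [QuotientGroup.mk_mul_of_mem _ c.2, QuotientGroup.out_eq']
  · intro a _ b _ h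
    exact Subtype.ext (mul_left_cancel h)
  · intro t ht
    have h2 := (Finset.mem_filter.1 ht).2
    have h3 : q.out⁻¹ * t ∈ C := by
      rw [← QuotientGroup.eq, QuotientGroup.out_eq']
      exact h2.symm
    exact ⟨⟨_, h3⟩, Finset.mem_univ _, mul_inv_cancel_left _ _⟩

/-- the sum over a group and the sum over an orbit -/
theorem sum_orbit {G : Type} [Group G] [Finite G] {H T : Subgroup G} [Fintype T] (v : G)
    (hH : ∀ t ∈ T, t * v * t⁻¹ ∈ H) (φ : H → ℂ) :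
    ∑ t : T, φ ⟨t * v * (t : G)⁻¹, hH t t.2⟩ =
      Nat.card (T ⊓ Cu v : Subgroup G) *
        ∑ᶠ (v' : H) (_ : ∃ t ∈ T, t * v * t⁻¹ = v'), φ v' := by
  classical
  have : Fintype H := Fintype.ofFinite H
  have e1 : (∑ᶠ (v' : H) (_ : ∃ t ∈ T, t * v * t⁻¹ = v'), φ v') =
      ∑ v' ∈ Finset.univ.filter (fun v' : H => ∃ t ∈ T, t * v * t⁻¹ = v'), φ v' := by
    refine (finsum_mem_eq_finite_toFinset_sum φ (s := {v' : H | ∃ t ∈ T, t * v * t⁻¹ = v'})
      (Set.toFinite _)).trans ?_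
    refine Finset.sum_congr ?_ fun _ _ => rfl
    ext x
    simp
  rw [e1, Finset.mul_sum]
  rw [← Finset.sum_fiberwise_of_maps_to (s := Finset.univ)
      (t := Finset.univ.filter (fun v' : H => ∃ t ∈ T, t * v * t⁻¹ = v'))
      (g := fun t : T => (⟨t * v * (t : G)⁻¹, hH t t.2⟩ : H)) (fun t _ => by
        rw [Finset.mem_filter]
        exact ⟨Finset.mem_univ _, t, t.2, rfl⟩)]
  refine Finset.sum_congr rfl fun v' hv' => ?_
  have h1 : ∀ t ∈ Finset.univ.filter
      (fun t : T => (⟨t * v * (t : G)⁻¹, hH t t.2⟩ : H) = v'),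
      φ ⟨t * v * (t : G)⁻¹, hH t t.2⟩ = φ v' := by
    intro t ht
    rw [(Finset.mem_filter.1 ht).2]
  rw [Finset.sum_congr rfl h1, Finset.sum_const, nsmul_eq_mul]
  congr 1
  norm_cast
  obtain ⟨t₀, ht₀, h0⟩ := (Finset.mem_filter.1 hv').2
  have : Fintype (T ⊓ Cu v : Subgroup G) := Fintype.ofFinite _
  rw [Nat.card_eq_fintype_card]
  refine (Finset.card_bij (s := (Finset.univ : Finset (T ⊓ Cu v : Subgroup G)))
    (fun c _ => (⟨t₀ * (c : G), T.mul_mem ht₀ c.2.1⟩ : T)) ?_ ?_ ?_).symm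
  · intro c _
    rw [Finset.mem_filter]
    refine ⟨Finset.mem_univ _, Subtype.ext ?_⟩
    have h2 : v * (c : G) = c * v := Subgroup.mem_centralizer_iff.1 c.2.2 v rfl
    change t₀ * (c : G) * v * (t₀ * (c : G))⁻¹ = v'
    rw [← h0, mul_assoc t₀, ← h2]
    group
  · intro a _ b _ h
    have h2 := congrArg Subtype.val h
    exact Subtype.ext (mul_left_cancel h2)
  · intro t ht
    have h2 : (t : G) * v * (t : G)⁻¹ = v' := congrArg Subtype.val (Finset.mem_filter.1 ht).2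
    have h3 : t₀⁻¹ * (t : G) ∈ (T ⊓ Cu v : Subgroup G) := by
      refine ⟨T.mul_mem (T.inv_mem ht₀) t.2, ?_⟩
      refine Subgroup.mem_centralizer_iff.2 fun x hx => ?_
      rw [Set.mem_singleton_iff.1 hx]
      rw [← h0] at h2
      have h4 : (t : G) * v = t₀ * v * t₀⁻¹ * t := by
        rw [← h2]
        group
      rw [mul_assoc t₀⁻¹, h4]
      group
    exact ⟨⟨_, h3⟩, Finset.mem_univ _, Subtype.ext (mul_inv_cancel_left _ _)⟩

/-- the index times the sum over an orbit is a sum over cosets -/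
theorem orbit_cosets {G : Type} [Group G] [Finite G] {H T C : Subgroup G} (v : G)
    (hC : C ≤ T ⊓ Cu v) (hH : ∀ t ∈ T, t * v * t⁻¹ ∈ H) (φ : H → ℂ) :
    (C.relIndex (T ⊓ Cu v) : ℂ) *
        ∑ᶠ (v' : H) (_ : ∃ t ∈ T, t * v * t⁻¹ = v'), φ v' =
      ∑ᶠ q : T ⧸ C.subgroupOf T,
        φ ⟨(q.out : T) * v * ((q.out : T) : G)⁻¹, hH _ (q.out : T).2⟩ := by
  classical
  have : Fintype T := Fintype.ofFinite T
  have h1 := sum_orbit v hH φ
  have h2 := sum_cosets (C.subgroupOf T) (fun t : T => φ ⟨t * v * (t : G)⁻¹, hH t t.2⟩) (by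
    intro t c hc
    have h3 : (c : G) ∈ C := hc
    have h4 : v * (c : G) = c * v := Subgroup.mem_centralizer_iff.1 (hC h3).2 v rfl
    congr 1
    refine Subtype.ext ?_
    change (t : G) * c * v * ((t : G) * c)⁻¹ = t * v * (t : G)⁻¹
    rw [mul_assoc (t : G), ← h4]
    group)
  have h3 : Nat.card (C.subgroupOf T) = Nat.card C :=
    Nat.card_congr (Subgroup.subgroupOfEquivOfLe (hC.trans inf_le_left)).toEquiv
  have h4 : (Nat.card C : ℂ) * (C.relIndex (T ⊓ Cu v) : ℂ) =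
      (Nat.card (T ⊓ Cu v : Subgroup G) : ℂ) := by
    rw [← Nat.cast_mul]
    congr 1
    have := Subgroup.card_mul_index (C.subgroupOf (T ⊓ Cu v))
    rw [Nat.card_congr (Subgroup.subgroupOfEquivOfLe hC).toEquiv] at this
    exact this
  have h5 : (Nat.card C : ℂ) ≠ 0 := Nat.cast_ne_zero.2 Nat.card_pos.ne'
  refine mul_left_cancel₀ h5 ?_
  rw [← mul_assoc, h4, ← h1, h2, h3]

theorem cen_le_Tg {G : Type} [Group G] [Finite G] {F : Type} [Field F] {V : Subgroup G} {γ : G → F}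
    (hγ : Bx (Subgroup.centralizer (V : Set G)) γ) :
    Subgroup.centralizer (V : Set G) ≤ Tg V γ := by
  intro c hc
  refine Subgroup.mem_inf.2 ⟨?_, ?_⟩
  · rw [Subgroup.mem_normalizer_iff]
    intro h
    constructor
    · intro hh
      have := (Subgroup.mem_centralizer_iff.1 hc) h hh
      rw [← this, mul_inv_cancel_right]
      exact hh
    · intro hh
      have := (Subgroup.mem_centralizer_iff.1 hc) _ hh
      have e : h = c * h * c⁻¹ := by
        have e2 : c * h * c⁻¹ * c = c * (c * h * c⁻¹) := this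
        have e3 : c * h = c * (c * h * c⁻¹) := by
          rw [← e2]
          group
        exact mul_left_cancel e3
      rw [e]
      exact hh
  · exact (cj_eq_iff _ _).1 (hγ.ix.inv hc)

theorem cen_le_Cu {G : Type} [Group G] {V : Subgroup G} {v : G} (hv : v ∈ V) :
    Subgroup.centralizer (V : Set G) ≤ Cu v :=
  Subgroup.centralizer_le (Set.singleton_subset_iff.2 hv)

end grp

section main

variable {M : Ideal (integralClosure ℤ ℂ)} [M.IsMaximal]

/-- restriction to a subgroup -/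
theorem cg_res {ℓ : ℕ} {G : Type} [Group G] {θ : G → ℂ} (h : Cg M ℓ θ) (H : Subgroup G) :
    Cg M ℓ (fun t : H => θ t) where
  cl := fun x y => h.cl x y
  rm := fun x => h.rm x
  cg := fun x w hw hc c => h.cg x w (by
    obtain ⟨n, hn⟩ := hw
    exact ⟨n, congrArg Subtype.val hn⟩) (congrArg Subtype.val hc) c

/-- the weights are in the local ring -/
theorem wt_RM {ℓ : ℕ} [hℓ : Fact ℓ.Prime] (hM : (ℓ : integralClosure ℤ ℂ) ∈ M)
    (hInx : K9.InxStmt) {G : Type} [Group G] [Finite G] {e : G → FF M} {V : Subgroup G}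
    {γ : G → FF M} (hLd : Ld ℓ e V γ) {v : G} (hv : v ∈ V) : wt V γ v ∈ RM M := by
  have hix : ¬ ℓ ∣ (Subgroup.centralizer (V : Set G)).relIndex (Tg V γ) :=
    hInx ℓ M hM G e hLd.blk V hLd.tp hLd.ab γ hLd.gam.supp hLd.gam.blk hLd.und
  have hCT := cen_le_Tg hLd.gam
  have h1 : ∀ X : Subgroup G, Subgroup.centralizer (V : Set G) ≤ X →
      (Nat.card X : ℂ) = Nat.card (Subgroup.centralizer (V : Set G)) *
        ((Subgroup.centralizer (V : Set G)).relIndex X : ℕ) := by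
    intro X hX
    rw [← Nat.cast_mul]
    congr 1
    have := Subgroup.card_mul_index ((Subgroup.centralizer (V : Set G)).subgroupOf X)
    rw [Nat.card_congr (Subgroup.subgroupOfEquivOfLe hX).toEquiv] at this
    exact this.symm
  have h2 : (Nat.card (Subgroup.centralizer (V : Set G)) : ℂ) ≠ 0 :=
    Nat.cast_ne_zero.2 Nat.card_pos.ne'
  unfold wt
  rw [h1 _ hCT, h1 _ (le_inf hCT (cen_le_Cu hv)), mul_div_mul_left _ _ h2, div_eq_mul_inv]
  exact (RM M).mul_mem (rr_nat _).1 (inv_nat_RM hℓ.out hM hix)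

theorem lc_of_cu {G : Type} [Group G] {F : Type} [Field F] {e : G → F} {V : Subgroup G}
    {γ : G → F} {u u' : G} {b : G → F} (h : Cu u' = Cu u) (hb : Lc e V γ u b) :
    Lc e V γ u' b where
  blk := by rw [h]; exact hb.blk
  und := by rw [h]; exact hb.und
  gam := hb.gam

theorem apx (hCna : CnaStmt) (hLwd : LwdStmt) (hYex : YexStmt) (hTrn : TrnStmt)
    (hAps : ApsStmt) (hLoc : T3.LocStmt) (hPwu : T2.PwuStmt) (hInx : K9.InxStmt) : ApxStmt := by
  intro ℓ hℓ M _ hM G _ _ N hN e V γ hLd c χ hχ χ' hχ' v hv z hz b b' hb hb'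
  have hF : GoodF ℓ (FF M) := H50.fld ℓ Fact.out M hM
  obtain ⟨V₁, hV₁⟩ : ∃ V₁, V₁ = Uw (ℓ ^ c) V := ⟨_, rfl⟩
  obtain ⟨W, hW⟩ : ∃ W, W = Uw (ℓ ^ (2 * c)) V := ⟨_, rfl⟩
  have hV₁V : V₁ ≤ V := hV₁ ▸ (hPwu G (ℓ ^ c) V hLd.ab).2.1
  have hWV : W ≤ V := hW ▸ (hPwu G (ℓ ^ (2 * c)) V hLd.ab).2.1
  obtain ⟨hZ1, hZV, hZN, -⟩ := hPwu G (ℓ ^ (3 * c + 1)) V hLd.ab
  obtain ⟨⟨f, hf⟩, hL⟩ := hLwd ℓ M hM G e V γ hLd W hWV
  obtain ⟨hLdf, -⟩ := hL f hf
  obtain ⟨y, hyR, hyV, hyf, hyω⟩ := hYex ℓ M hM G e V γ hLd W hWV f hf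
  have hω := hyω χ' hχ'.1
  have hVH : V ≤ Subgroup.centralizer (W : Set G) := by
    intro x hx
    exact Subgroup.mem_centralizer_iff.2 fun w hw => hLd.ab w (hWV hw) x hx
  have hCg := hCna ℓ M hM G N hN χ hχ.1.1 hχ.2
  have hCg' := hCna ℓ M hM G N hN χ' hχ'.1.1 hχ'.2
  have hex : ∀ v' : Subgroup.centralizer (W : Set G),
      ∃ g' : Subgroup.centralizer (W : Set G) → FF M, (v' : G) ∈ V →
      Lc (fun t : Subgroup.centralizer (W : Set G) => f t)
      (V.subgroupOf (Subgroup.centralizer (W : Set G)))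
      (fun t : Subgroup.centralizer (W : Set G) => γ t) v' g' := by
    intro v'
    by_cases h : (v' : G) ∈ V
    · obtain ⟨g', hg'⟩ := (hLoc ℓ (FF M) hF _ _ _ _ hLdf v' (Subgroup.mem_subgroupOf.2 h)).1
      exact ⟨g', fun _ => hg'⟩
    · exact ⟨0, fun h' => absurd h' h⟩
  choose g hg using hex
  have hS := hAps ℓ M hM G e V γ hLd c V₁ W hV₁ hW f hf g hg y hyR hyV hyf χ hχ.1.1 χ' hχ'.1.1
    v hv b hb
  have hvz : v * z ∈ V := V.mul_mem hv (hZV hz)
  have hSz := hAps ℓ M hM G e V γ hLd c V₁ W hV₁ hW f hf g hg y hyR hyV hyf χ hχ.1.1 χ'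
    hχ'.1.1 (v * z) hvz b' hb'
  -- the function on the orbit
  obtain ⟨NN, hNN⟩ : ∃ NN : Subgroup.centralizer (W : Set G) → ℂ, NN = fun v' =>
      ∑ᶠ (h : Subgroup.centralizer (W : Set G))
          (_ : (h : G) ∈ Subgroup.centralizer (V₁ : Set G)),
          sv M ℓ v' (g v') (fun t : Subgroup.centralizer (W : Set G) => χ t) h *
            T8.fv y h⁻¹ (fun t : Subgroup.centralizer (W : Set G) => χ' t) := ⟨_, rfl⟩
  obtain ⟨φ, hφ⟩ : ∃ φ : Subgroup.centralizer (W : Set G) → ℂ, φ = fun v' =>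
      wt (V.subgroupOf (Subgroup.centralizer (W : Set G)))
          (fun t : Subgroup.centralizer (W : Set G) => γ t) v' * NN v' := ⟨_, rfl⟩
  have hCT := cen_le_Tg hLd.gam
  have hTN : ∀ t ∈ Tg V γ, ∀ x ∈ V, t * x * t⁻¹ ∈ V := fun t ht x hx =>
    (Subgroup.mem_normalizer_iff.1 ht.1 x).1 hx
  -- the congruence for one element
  have key : ∀ u zz : Subgroup.centralizer (W : Set G), (u : G) ∈ V →
      (zz : G) ∈ Uw (ℓ ^ (3 * c + 1)) V → Dv M ((ℓ : ℂ) ^ c) (φ (u * zz) - φ u) := by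
    intro u zz hu hzz
    obtain ⟨x, hx, hxz⟩ := (hZ1 (zz : G)).1 hzz
    have hxW : x ^ ℓ ^ (2 * c) ∈ W := by
      rw [hW]
      exact ((hPwu G (ℓ ^ (2 * c)) V hLd.ab).1 _).2 ⟨x, hx, rfl⟩
    obtain ⟨w, hw⟩ : ∃ w : Subgroup.centralizer (W : Set G), (w : G) = x ^ ℓ ^ (2 * c) :=
      ⟨⟨_, hVH (hWV hxW)⟩, rfl⟩
    have hwz : w ^ ℓ ^ (c + 1) = zz := by
      refine Subtype.ext ?_
      rw [Subgroup.coe_pow, hw, hxz, ← pow_mul, ← pow_add]
      congr 2
      ring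
    have hwcen : w ∈ Subgroup.center (Subgroup.centralizer (W : Set G)) := by
      refine Subgroup.mem_center_iff.2 fun h => Subtype.ext ?_
      change (h : G) * (w : G) = w * h
      rw [hw]
      exact (Subgroup.mem_centralizer_iff.1 h.2 _ hxW).symm
    have hzc : zz ∈ Subgroup.center (Subgroup.centralizer (W : Set G)) := by
      rw [← hwz]
      exact Subgroup.pow_mem _ hwcen _
    have hCu : Cu (u * zz) = Cu u := by
      ext h
      have h1 := Subgroup.mem_center_iff.1 hzc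
      rw [Subgroup.mem_centralizer_iff, Subgroup.mem_centralizer_iff]
      constructor
      · intro h2 a ha
        rw [Set.mem_singleton_iff.1 ha]
        have h3 := h2 (u * zz) rfl
        rw [mul_assoc, ← h1 h, ← mul_assoc, ← mul_assoc] at h3
        exact mul_right_cancel h3
      · intro h2 a ha
        rw [Set.mem_singleton_iff.1 ha]
        have h3 := h2 u rfl
        rw [mul_assoc, ← h1 h, ← mul_assoc, ← mul_assoc, h3]
    have huz : ((u * zz : Subgroup.centralizer (W : Set G)) : G) ∈ V :=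
      V.mul_mem hu (hZV hzz)
    have hgu : g (u * zz) = g u :=
      (hLoc ℓ (FF M) hF _ _ _ _ hLdf (u * zz) (Subgroup.mem_subgroupOf.2 huz)).2 _ _
        (hg _ huz) (lc_of_cu hCu (hg u hu))
    have hwt : wt (V.subgroupOf (Subgroup.centralizer (W : Set G)))
          (fun t : Subgroup.centralizer (W : Set G) => γ t) (u * zz) =
        wt (V.subgroupOf (Subgroup.centralizer (W : Set G)))
          (fun t : Subgroup.centralizer (W : Set G) => γ t) u := by
      unfold wt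
      rw [hCu]
    have hEl : El ℓ w := by
      obtain ⟨n, hn⟩ : ∃ n : ℕ, (⟨x, hx⟩ : V) ^ ℓ ^ n = 1 := hLd.tp.1 ⟨x, hx⟩
      refine ⟨n, Subtype.ext ?_⟩
      have h1 : x ^ ℓ ^ n = 1 := congrArg Subtype.val hn
      rw [Subgroup.coe_pow, hw, ← pow_mul, mul_comm, pow_mul, h1, one_pow]
      rfl
    have hT := hTrn ℓ M hM (Subgroup.centralizer (W : Set G))
      (fun t : Subgroup.centralizer (W : Set G) => χ t)
      (fun t : Subgroup.centralizer (W : Set G) => χ' t) (cg_res hCg _) (cg_res hCg' _) w hEl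
      hwcen c u (g u) (hg u hu).blk.ix y hyR
      {h | (h : G) ∈ Subgroup.centralizer (V₁ : Set G)} (by
        intro h
        rw [hwz]
        have h1 : (zz : G) ∈ Subgroup.centralizer (V₁ : Set G) :=
          Subgroup.mem_centralizer_iff.2 fun a ha => hLd.ab a (hV₁V ha) _ (hZV hzz)
        exact ((Subgroup.centralizer (V₁ : Set G)).mul_mem_cancel_right h1).symm)
    rw [hwz] at hT
    have hdiff : φ (u * zz) - φ u =
        wt (V.subgroupOf (Subgroup.centralizer (W : Set G)))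
          (fun t : Subgroup.centralizer (W : Set G) => γ t) u * (NN (u * zz) - NN u) := by
      rw [hφ]
      simp only []
      rw [hwt]
      ring
    rw [hdiff]
    refine dv_mul (wt_RM hM hInx hLdf (Subgroup.mem_subgroupOf.2 hu)) ?_
    rw [hNN]
    simp only []
    rw [hgu]
    exact hT
  -- the sums over the orbits
  have hH : ∀ x ∈ V, ∀ t ∈ Tg V γ, t * x * t⁻¹ ∈ Subgroup.centralizer (W : Set G) :=
    fun x hx t ht => hVH (hTN t ht x hx)
  have ho := orbit_cosets v (le_inf hCT (cen_le_Cu hv)) (hH v hv) φ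
  have hoz := orbit_cosets (v * z) (le_inf hCT (cen_le_Cu hvz)) (hH _ hvz) φ
  have hD : Dv M ((ℓ : ℂ) ^ c)
      ((((Subgroup.centralizer (V : Set G)).relIndex (Tg V γ ⊓ Cu (v * z)) : ℕ) : ℂ) *
        ∑ᶠ (v' : Subgroup.centralizer (W : Set G)) (_ : ∃ t ∈ Tg V γ, t * (v * z) * t⁻¹ = v'),
          φ v' -
        (((Subgroup.centralizer (V : Set G)).relIndex (Tg V γ ⊓ Cu v) : ℕ) : ℂ) *
        ∑ᶠ (v' : Subgroup.centralizer (W : Set G)) (_ : ∃ t ∈ Tg V γ, t * v * t⁻¹ = v'),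
          φ v') := by
    classical
    have : Fintype (Tg V γ ⧸ (Subgroup.centralizer (V : Set G)).subgroupOf (Tg V γ)) :=
      Fintype.ofFinite _
    rw [ho, hoz, finsum_eq_sum_of_fintype, finsum_eq_sum_of_fintype, ← Finset.sum_sub_distrib]
    refine dv_sum _ _ fun q _ => ?_
    have hq := (q.out : Tg V γ).2
    have h1 := key ⟨_, hH v hv _ hq⟩ ⟨_, hH z (hZV hz) _ hq⟩ (hTN _ hq v hv)
      ((Subgroup.mem_normalizer_iff.1 (hZN hq.1) z).1 hz)
    have h2 : (⟨_, hH (v * z) hvz _ hq⟩ : Subgroup.centralizer (W : Set G)) =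
        ⟨_, hH v hv _ hq⟩ * ⟨_, hH z (hZV hz) _ hq⟩ := by
      refine Subtype.ext ?_
      change ((q.out : Tg V γ) : G) * (v * z) * ((q.out : Tg V γ) : G)⁻¹ =
        (((q.out : Tg V γ) : G) * v * ((q.out : Tg V γ) : G)⁻¹) *
          (((q.out : Tg V γ) : G) * z * ((q.out : Tg V γ) : G)⁻¹)
      group
    rw [h2]
    exact h1
  obtain ⟨ω, hωe⟩ : ∃ ω : ℂ, ω = (Nat.card G *
      (∑ᶠ x : Subgroup.centralizer (W : Set G), y x * χ' x) / (Nat.card V * χ' 1)) := ⟨_, rfl⟩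
  rw [← hωe] at hω hS hSz
  obtain ⟨hi, h0⟩ := inv_RM hω.1 hω.2
  rw [hφ, hNN] at hD
  have h3 := dv_mul hi (dv_add (dv_sub hSz hS) hD)
  have h4 : Mm M ℓ V γ (v * z) b' χ χ' - Mm M ℓ V γ v b χ χ' =
      ω⁻¹ * (ω * Mm M ℓ V γ (v * z) b' χ χ' - ω * Mm M ℓ V γ v b χ χ') := by
    field_simp
  rw [h4]
  refine (congrArg (Dv M ((ℓ : ℂ) ^ c)) (congrArg (ω⁻¹ * ·) ?_)).mp h3
  ring

end main

end Pool.Agent.PP.T6.H3
end
end -- Pool.Agent.Helper3_AT6.APX

section -- Pool.Agent.Helper28_AT10.LCS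

/-!
# Squad AT10, LCS: the local case
-/

open scoped BigOperators

noncomputable section

namespace Pool.Agent.PP.T10.H28

open Pool.Agent.Helper51_AWC Pool.Agent.Helper79_WRA Pool.Agent.PP Pool.Agent.PP.KF
open Pool.Agent.PP.K9 Pool.Agent.PP.K9.H97 Pool.Agent.PP.H75 Pool.Agent.PP.T3 Pool.Agent.PP.T2
open Pool.Agent.PP.T5 Pool.Agent.PP.TB
open Pool.Agent.PP.T8 (rs pw fv rd Ip Rv)

attribute [local instance] Ideal.Quotient.field

section grp

variable {G : Type} [Group G]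

theorem mem_conjS {g : G} {P : Subgroup G} {x : G} : x ∈ conjS g P ↔ g⁻¹ * x * g ∈ P := by
  rw [conjS, Subgroup.mem_map]
  constructor
  · rintro ⟨y, hy, rfl⟩
    have : g⁻¹ * ((MulAut.conj g).toMonoidHom y) * g = y := by
      simp [mul_assoc]
    rw [this]
    exact hy
  · intro h
    exact ⟨_, h, by simp [mul_assoc]⟩

theorem card_conjS (g : G) (P : Subgroup G) : Nat.card (conjS g P) = Nat.card P :=
  (Nat.card_congr (P.equivMapOfInjective (MulAut.conj g).toMonoidHom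
    (MulAut.conj g).injective).toEquiv).symm

/-- a subgroup `P` of `V`, a central subgroup `Z` of `V`: `|P : P ∩ Z|` divides `|V : Z|` -/
theorem card_dvd [Finite G] {V Z P : Subgroup G} (hZV : Z ≤ V) (hPV : P ≤ V)
    (cen : ∀ z ∈ Z, ∀ v ∈ V, v * z = z * v) :
    ∃ m : ℕ, Nat.card V * Nat.card (P ⊓ Z : Subgroup G) = m * (Nat.card Z * Nat.card P) := by
  have hn : (Z.subgroupOf V).Normal := by
    refine ⟨fun z hz v => ?_⟩
    rw [Subgroup.mem_subgroupOf] at hz ⊢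
    have h1 : ((v * z * v⁻¹ : V) : G) = z := by
      change (v : G) * z * (v : G)⁻¹ = z
      rw [cen z hz v v.2, mul_inv_cancel_right]
    rw [h1]
    exact hz
  have h1 : (Z.subgroupOf V).relIndex (P.subgroupOf V) ∣ (Z.subgroupOf V).index :=
    Subgroup.relIndex_dvd_index_of_normal _ _
  rw [Subgroup.relIndex_subgroupOf hPV] at h1
  obtain ⟨m, hm⟩ := h1
  have hm' : Z.relIndex V = Z.relIndex P * m := hm
  have c1 : Nat.card Z * Z.relIndex V = Nat.card V := by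
    have := Subgroup.relIndex_mul_relIndex (⊥ : Subgroup G) Z V bot_le hZV
    rwa [Subgroup.relIndex_bot_left, Subgroup.relIndex_bot_left] at this
  have c2 : Nat.card (P ⊓ Z : Subgroup G) * Z.relIndex P = Nat.card P := by
    have := Subgroup.relIndex_mul_relIndex (⊥ : Subgroup G) (P ⊓ Z) P bot_le inf_le_left
    rw [Subgroup.relIndex_bot_left, Subgroup.relIndex_bot_left, inf_comm,
      Subgroup.inf_relIndex_right] at this
    rw [inf_comm]
    exact this
  refine ⟨m, ?_⟩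
  rw [← c1, hm', ← c2]
  ring

/-- the linear character `u ↦ nu (a u a⁻¹)` -/
def lamq {Z P₀ : Subgroup G} (nu : Z →* ℂ) (a : G) (h : ∀ u : P₀, a * (u : G) * a⁻¹ ∈ Z) :
    P₀ →* ℂ where
  toFun u := nu ⟨a * u * a⁻¹, h u⟩
  map_one' := by
    have h1 : (⟨a * ((1 : P₀) : G) * a⁻¹, h 1⟩ : Z) = 1 := by
      apply Subtype.ext
      change a * 1 * a⁻¹ = 1
      group
    rw [h1, map_one]
  map_mul' u v := by
    rw [← map_mul]
    congr 1
    apply Subtype.ext
    change a * ((u : G) * (v : G)) * a⁻¹ = (a * u * a⁻¹) * (a * v * a⁻¹)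
    group

theorem finsum_prop {α : Type} [Fintype α] (p : α → Prop) [DecidablePred p] (f : α → ℂ) :
    (∑ᶠ (x : α) (_ : p x), f x) = ∑ x, if p x then f x else 0 := by
  rw [finsum_eq_sum_of_fintype]
  refine Finset.sum_congr rfl fun x _ => ?_
  by_cases h : p x
  · rw [if_pos h, finsum_eq_if, if_pos h]
  · rw [if_neg h, finsum_eq_if, if_neg h]

end grp

section blk

variable {M : Ideal (integralClosure ℤ ℂ)} [M.IsMaximal] {G : Type} [Group G] [Finite G]

omit [Finite G] in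
theorem rs_cl {F : Type} [Field F] {e : G → F} (he : IsCl e) (q z : G) :
    cj q (rs (Cu z) e) = rs (Cu (q * z * q⁻¹)) e := by
  funext x
  change rs (Cu z) e (q⁻¹ * x * q) = _
  have h1 : q⁻¹ * x * q ∈ Cu z ↔ x ∈ Cu (q * z * q⁻¹) := T3.H49.cu_conj rfl x
  unfold rs
  by_cases hx : x ∈ Cu (q * z * q⁻¹)
  · rw [if_pos hx, if_pos (h1.2 hx)]
    have := he x q⁻¹
    rwa [inv_inv] at this
  · rw [if_neg hx, if_neg fun h => hx (h1.1 h)]

/-- the local block is under the restriction of `e` -/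
theorem und_G {F : Type} [Field F] {e b : G → F} {z : G} (hs : ∀ x, x ∉ Cu z → b x = 0)
    (h : mulF (fun t : Cu z => e t) (fun t : Cu z => b t) = fun t : Cu z => b t) :
    mulF (rs (Cu z) e) b = b := by
  have hrs : ∀ x, x ∉ Cu z → rs (Cu z) e x = 0 := by
    intro x hx
    unfold rs
    rw [if_neg hx]
  apply eq_of_res (N := Cu z) (mulF_supp (Cu z) hrs hs) hs
  rw [mulF_res (Cu z) b hrs]
  have h1 : (fun t : Cu z => rs (Cu z) e t) = fun t : Cu z => e t := by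
    funext t
    unfold rs
    rw [if_pos t.2]
  rw [h1]
  exact h

end blk

theorem lcs (sbe : SbeStmt) (tvs : TvsStmt) (lca : LcaStmt) (lft : T8.LftStmt)
    (zcp : TB.ZcpStmt) : LcsStmt := by
  intro ℓ _ M _ hM G _ _ e V Z γ b hZ hLo nu χ hχ P hP i hi hbr
  classical
  have hF : GoodF ℓ (FF M) := H50.fld ℓ Fact.out M hM
  have hcl : ∀ x y, χ (y * x * y⁻¹) = χ x := fun x y => irr_conj hχ x y
  obtain ⟨-, hsb⟩ := sbe ℓ M hM G e V Z γ b hZ
  have zc1 := (zcp ℓ M hM G e V Z γ b hZ).1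
  have hEl : ∀ u ∈ P, El ℓ u := by
    intro u hu
    obtain ⟨n, hn⟩ := hP ⟨u, hu⟩
    exact ⟨n, congrArg Subtype.val hn⟩
  have hZp : ∀ u ∈ P, IsPGroup ℓ (Subgroup.zpowers u) := fun u hu =>
    hP.to_le (Subgroup.zpowers_le.2 hu)
  have hT0 : ∀ u ∈ P, tv M u 0 χ = 0 := fun u hu => (tvs ℓ M hM G u (hEl u hu)).2.2 χ hcl
  have hecl : IsCl e := hZ.blk.1.1
  have heid : mulF e e = e := hZ.blk.1.2
  have hsb0 : ∀ z u : G, (¬ ∃ q : G, q * z * q⁻¹ = u) → sb b z u = 0 := by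
    intro z u h
    unfold sb
    rw [dif_neg h]
  have hfi0 : ∀ u ∈ P, (∀ z ∈ Z, ∀ q : G, q * z * q⁻¹ = u →
      mulF (rs (Cu u) i) (cj q (b z)) = 0) →
      fi M (cn V Z γ nu) (fun (z : Z) (u : G) => sb b (z : G) u) i χ u = 0 := by
    intro u hu h
    unfold fi
    apply finsum_eq_zero_of_forall_eq_zero
    intro z
    have h1 : mulF (rs (Cu u) i) (sb b (z : G) u) = 0 := by
      by_cases hq : ∃ q : G, q * z * q⁻¹ = u
      · obtain ⟨q, hq⟩ := hq
        have h2 : sb b (z : G) u = cj q (b z) := by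
          rw [← hq]
          exact hsb z z.2 q
        rw [h2]
        exact h z z.2 q hq
      · rw [hsb0 _ _ hq, mulF_zero_right]
    rw [h1, hT0 u hu, mul_zero]
  have hc : mulF e i = mulF i e := mulF_comm_cl hecl i
  have hei : mulF e i = 0 ∨ mulF e i = i := by
    have h2 : mulF (mulF e i) i = mulF e i := by rw [mulF_assoc, hi.id]
    have h1 : mulF i (mulF e i) = mulF e i := by
      rw [← mulF_assoc, ← hc, h2]
    apply hi.pr
    · rw [mulF_assoc, h1, ← mulF_assoc, heid]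
    · intro v hv
      rw [← cj_eq_iff, cj_mulF, cj_isCl v hecl, (cj_eq_iff v i).2 (hi.iv v hv)]
    · exact h1
    · exact h2
  rcases hei with hei | hei
  · -- the idempotent is not under `e`
    intro κ hκ
    have h0 : ∑ᶠ u : P, fi M (cn V Z γ nu) (fun (z : Z) (u : G) => sb b (z : G) u) i χ (u : G) *
        κ u = 0 := by
      apply finsum_eq_zero_of_forall_eq_zero
      intro u
      rw [hfi0 u u.2, zero_mul]
      intro z hz q hq
      have h1 := und_G (hZ.lb z hz).1.bx.supp (hZ.lb z hz).1.und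
      have h2 := congrArg (cj q) h1
      rw [cj_mulF, rs_cl hecl q z, hq] at h2
      rw [← h2, ← mulF_assoc, ← T8.H28.rs_mulF hF (hZp u u.2) (hi.iv u u.2)
        (fun x => hecl x u), ← hc, hei]
      have h3 : rs (Cu (u : G)) (0 : G → FF M) = 0 := by
        funext x
        unfold rs
        split_ifs <;> rfl
      rw [h3, mulF_zero_left]
    rw [h0, mul_zero]
    exact (RM M).zero_mem
  · obtain ⟨g, hPg, hin, hout⟩ := hLo P hP i hi hei hbr
    obtain ⟨ih, hih, -, hihr⟩ := lft M G P ⊤ i hi.id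
      (fun g hg => absurd (Subgroup.mem_top g) hg) hi.iv
    have htv : ∀ u ∈ P, tv M u (rs (Cu u) i) χ = fv ih u χ := by
      intro u hu
      refine (tvs ℓ M hM G u (hEl u hu)).2.1 (rs (Cu u) i) ih
        ⟨hih.rm, hih.id, hih.iv u hu, ?_⟩ χ hcl
      rw [hihr]
    have hZf : Fintype Z := Fintype.ofFinite Z
    have hval : ∀ u ∈ P, ∀ hu : g⁻¹ * u * g ∈ Z,
        fi M (cn V Z γ nu) (fun (z : Z) (u : G) => sb b (z : G) u) i χ u =
          ((Nat.card V : ℂ) / Nat.card Z) *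
            (∑ᶠ q : Tg V γ ⧸ (Subgroup.centralizer (Z : Set G) ⊓ Tg V γ).subgroupOf (Tg V γ),
              nu ⟨((q.out : Tg V γ) : G) * (g⁻¹ * u * g) * ((q.out : Tg V γ) : G)⁻¹,
                hZ.nrm _ (q.out : Tg V γ).2 _ hu⟩) * fv ih u χ := by
      intro u hu hu0
      have hug : u ∈ conjS g Z := mem_conjS.2 hu0
      have hJ := hin u hu hug
      have hgu : g * (g⁻¹ * u * g) * g⁻¹ = u := by group
      have hbx : Bx (Cu u) (cj g (b (g⁻¹ * u * g))) := T3.H49.bx_cj hgu (hZ.lb _ hu0).1.bx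
      have hterm : ∀ z : Z, tv M u (mulF (rs (Cu u) i) (sb b (z : G) u)) χ =
          if ∃ t ∈ Tg V γ, t * (g⁻¹ * u * g) * t⁻¹ = z then fv ih u χ else 0 := by
        intro z
        by_cases hq : ∃ q : G, q * (z : G) * q⁻¹ = u
        · obtain ⟨q, hq⟩ := hq
          have h2 : sb b (z : G) u = cj q (b z) := by
            conv_lhs => rw [← hq]
            exact hsb z z.2 q
          have hbz : Bx (Cu u) (cj q (b z)) := T3.H49.bx_cj hq (hZ.lb z z.2).1.bx
          rcases hbx.dich hbz with h3 | h3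
          · rw [h2, ← h3, hJ, htv u hu, if_pos]
            have h4 : cj (g⁻¹ * q) (b z) = b (g⁻¹ * u * g) := by
              rw [← cj_cj, ← h3, cj_inv_cj]
            have h5 : (g⁻¹ * q) * z * (g⁻¹ * q)⁻¹ = g⁻¹ * u * g := by
              rw [← hq]
              group
            obtain ⟨t, ht, htz⟩ := hZ.fus _ hu0 z z.2 (g⁻¹ * q) h5 h4
            refine ⟨t⁻¹, inv_mem ht, ?_⟩
            rw [← htz]
            group
          · rw [h2, ← hJ, mulF_assoc, h3, mulF_zero_right, hT0 u hu, if_neg]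
            rintro ⟨t, ht, htz⟩
            have h4 : cj t (b (g⁻¹ * u * g)) = b z := by
              rw [← htz]
              exact (zc1 _ hu0 t ht).1
            have h5 : q * t * g⁻¹ ∈ Cu u := by
              rw [Subgroup.mem_centralizer_singleton_iff]
              calc q * t * g⁻¹ * u = q * (t * (g⁻¹ * u * g) * t⁻¹) * q⁻¹ * (q * t * g⁻¹) := by
                    group
                _ = u * (q * t * g⁻¹) := by rw [htz, hq]
            have h6 : cj q (b z) = cj g (b (g⁻¹ * u * g)) := by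
              have h7 := hbx.ix.inv h5
              rw [cj_cj] at h7
              rw [← h7, ← h4, cj_cj]
              congr 1
              group
            rw [h6, hbx.mul] at h3
            exact hbx.ne h3
        · rw [hsb0 _ _ hq, mulF_zero_right, hT0 u hu, if_neg]
          rintro ⟨t, ht, htz⟩
          apply hq
          refine ⟨g * t⁻¹, ?_⟩
          rw [← htz]
          group
      have hC : Subgroup.centralizer (Z : Set G) ⊓ Tg V γ ≤ Tg V γ ⊓ Cu (g⁻¹ * u * g) := by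
        intro x hx
        refine Subgroup.mem_inf.2 ⟨hx.2, ?_⟩
        rw [Subgroup.mem_centralizer_singleton_iff]
        exact (Subgroup.mem_centralizer_iff.1 hx.1 _ hu0).symm
      have horb := T6.H3.orbit_cosets (H := Z) (T := Tg V γ) (g⁻¹ * u * g) hC
        (fun t ht => hZ.nrm t ht _ hu0) nu
      rw [← horb, finsum_prop]
      unfold fi
      rw [finsum_eq_sum_of_fintype, Finset.mul_sum, Finset.mul_sum, Finset.sum_mul]
      refine Finset.sum_congr rfl fun z _ => ?_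
      rw [hterm z]
      by_cases hz : ∃ t ∈ Tg V γ, t * (g⁻¹ * u * g) * t⁻¹ = z
      · rw [if_pos hz, if_pos hz]
        have h8 : cz V Z γ (z : G) =
            (Subgroup.centralizer (Z : Set G) ⊓ Tg V γ).relIndex
              (Tg V γ ⊓ Cu (g⁻¹ * u * g)) := by
          obtain ⟨t, ht, htz⟩ := hz
          rw [← htz]
          exact (zc1 _ hu0 t ht).2.1
        unfold cn
        rw [h8]
        ring
      · rw [if_neg hz, if_neg hz]
        ring
    intro κ hκ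
    have hPf : Fintype P := Fintype.ofFinite P
    have hP0f : Fintype (P ⊓ conjS g Z : Subgroup G) := Fintype.ofFinite _
    have hQf : Fintype (Tg V γ ⧸
      (Subgroup.centralizer (Z : Set G) ⊓ Tg V γ).subgroupOf (Tg V γ)) := Fintype.ofFinite _
    have hmem : ∀ u : (P ⊓ conjS g Z : Subgroup G), g⁻¹ * (u : G) * g ∈ Z :=
      fun u => mem_conjS.1 u.2.2
    have hlam : ∀ (q : Tg V γ ⧸
        (Subgroup.centralizer (Z : Set G) ⊓ Tg V γ).subgroupOf (Tg V γ))
        (u : (P ⊓ conjS g Z : Subgroup G)),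
        (((q.out : Tg V γ) : G) * g⁻¹) * (u : G) * (((q.out : Tg V γ) : G) * g⁻¹)⁻¹ ∈ Z := by
      intro q u
      have h1 := hZ.nrm _ (q.out : Tg V γ).2 _ (hmem u)
      have h2 : (((q.out : Tg V γ) : G) * g⁻¹) * (u : G) * (((q.out : Tg V γ) : G) * g⁻¹)⁻¹ =
          ((q.out : Tg V γ) : G) * (g⁻¹ * (u : G) * g) * ((q.out : Tg V γ) : G)⁻¹ := by group
      rw [h2]
      exact h1
    choose n hn using fun q => lca M G P (P ⊓ conjS g Z) inf_le_left ih hih χ hχ
      (lamq nu (((q.out : Tg V γ) : G) * g⁻¹) (hlam q)) κ hκ (fun u => ⟨u, u.2.1⟩)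
      (fun u => rfl)
    obtain ⟨m, hm⟩ := card_dvd (V := conjS g V) (Z := conjS g Z) (P := P)
      (fun x hx => mem_conjS.2 (hZ.le (mem_conjS.1 hx))) hPg (by
        intro z hz v hv
        have h1 := hZ.cen _ (mem_conjS.1 hz) _ (mem_conjS.1 hv)
        calc v * z = g * ((g⁻¹ * v * g) * (g⁻¹ * z * g)) * g⁻¹ := by group
          _ = g * ((g⁻¹ * z * g) * (g⁻¹ * v * g)) * g⁻¹ := by rw [h1]
          _ = z * v := by group)
    rw [card_conjS, card_conjS] at hm
    have hm' : (Nat.card V : ℂ) * Nat.card (P ⊓ conjS g Z : Subgroup G) =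
        m * (Nat.card Z * Nat.card P) := by exact_mod_cast hm
    have hZ0 : (Nat.card Z : ℂ) ≠ 0 := Nat.cast_ne_zero.2 Nat.card_pos.ne'
    have hP00 : (Nat.card P : ℂ) ≠ 0 := Nat.cast_ne_zero.2 Nat.card_pos.ne'
    have hP000 : (Nat.card (P ⊓ conjS g Z : Subgroup G) : ℂ) ≠ 0 :=
      Nat.cast_ne_zero.2 Nat.card_pos.ne'
    have hsum : ∑ᶠ u : P, fi M (cn V Z γ nu) (fun (z : Z) (u : G) => sb b (z : G) u) i χ (u : G) *
        κ u = ((Nat.card V : ℂ) / Nat.card Z) *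
          ∑ q, (Nat.card (P ⊓ conjS g Z : Subgroup G) : ℂ) * n q := by
      rw [finsum_eq_sum_of_fintype]
      have h1 : ∑ u : P, fi M (cn V Z γ nu) (fun (z : Z) (u : G) => sb b (z : G) u) i χ (u : G) *
          κ u = ∑ v : (P ⊓ conjS g Z : Subgroup G),
            fi M (cn V Z γ nu) (fun (z : Z) (u : G) => sb b (z : G) u) i χ (v : G) *
              κ ⟨v, v.2.1⟩ := by
        refine (Finset.sum_of_injOn (fun v : (P ⊓ conjS g Z : Subgroup G) =>
          (⟨v, v.2.1⟩ : P)) ?_ ?_ ?_ ?_).symm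
        · intro a _ c _ h
          exact Subtype.ext (congrArg (fun w : P => (w : G)) h)
        · intro a _
          exact Finset.mem_coe.2 (Finset.mem_univ _)
        · intro u _ hu
          have h2 : (u : G) ∉ conjS g Z := fun h => hu ⟨⟨u, u.2, h⟩, Finset.mem_coe.2
            (Finset.mem_univ _), rfl⟩
          rw [hfi0 u u.2 (fun z hz q hq => hout u u.2 h2 z hz q hq), zero_mul]
        · intro v _
          rfl
      rw [h1, Finset.mul_sum]
      have h3 : ∀ v : (P ⊓ conjS g Z : Subgroup G),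
          fi M (cn V Z γ nu) (fun (z : Z) (u : G) => sb b (z : G) u) i χ (v : G) *
              κ ⟨v, v.2.1⟩ = ∑ q, ((Nat.card V : ℂ) / Nat.card Z) *
                (lamq nu (((q.out : Tg V γ) : G) * g⁻¹) (hlam q) v * fv ih (v : G) χ *
                  κ ⟨v, v.2.1⟩) := by
        intro v
        rw [hval v v.2.1 (hmem v), finsum_eq_sum_of_fintype, Finset.mul_sum, Finset.sum_mul,
          Finset.sum_mul]
        refine Finset.sum_congr rfl fun q _ => ?_
        have h4 : lamq nu (((q.out : Tg V γ) : G) * g⁻¹) (hlam q) v =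
            nu ⟨((q.out : Tg V γ) : G) * (g⁻¹ * v * g) * ((q.out : Tg V γ) : G)⁻¹,
                hZ.nrm _ (q.out : Tg V γ).2 _ (hmem v)⟩ := by
          change nu _ = nu _
          congr 1
          apply Subtype.ext
          change (((q.out : Tg V γ) : G) * g⁻¹) * (v : G) * (((q.out : Tg V γ) : G) * g⁻¹)⁻¹ =
            ((q.out : Tg V γ) : G) * (g⁻¹ * (v : G) * g) * ((q.out : Tg V γ) : G)⁻¹
          group
        rw [h4]
        ring
      rw [Finset.sum_congr rfl fun v _ => h3 v, Finset.sum_comm]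
      refine Finset.sum_congr rfl fun q _ => ?_
      rw [← Finset.mul_sum, ← hn q, finsum_eq_sum_of_fintype, mul_inv_cancel_left₀ hP000]
    rw [hsum]
    have hfin : (Nat.card P : ℂ)⁻¹ * (((Nat.card V : ℂ) / Nat.card Z) *
        ∑ q, (Nat.card (P ⊓ conjS g Z : Subgroup G) : ℂ) * n q) =
        ((m * ∑ q, n q : ℤ) : ℂ) := by
      rw [← Finset.mul_sum]
      push_cast
      have h5 : (Nat.card P : ℂ)⁻¹ * (((Nat.card V : ℂ) / Nat.card Z) *
          ((Nat.card (P ⊓ conjS g Z : Subgroup G) : ℂ) * ∑ q, (n q : ℂ))) =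
          ((Nat.card V : ℂ) * Nat.card (P ⊓ conjS g Z : Subgroup G)) /
            (Nat.card Z * Nat.card P) * ∑ q, (n q : ℂ) := by
        field_simp
      rw [h5, hm', mul_div_assoc, div_self (mul_ne_zero hZ0 hP00), mul_one]
    rw [hfin]
    exact intCast_mem (RM M) _

end Pool.Agent.PP.T10.H28
end
end -- Pool.Agent.Helper28_AT10.LCS

section -- Pool.Agent.Helper31_PFD.KSM

/-!
# Squad PFD, block D5b, row KSM (helper31): Brauer's formula for the number of characters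
-/

open scoped BigOperators

noncomputable section

namespace Pool.Agent.PFD.H31

open Pool.Agent.Helper51_AWC Pool.Agent.Helper79_WRA Pool.Agent.PP Pool.Agent.PP.KF
open Pool.Agent.PP.K9 Pool.Agent.PP.K9.H97 Pool.Agent.PP.H75 Pool.Agent.PP.T3 Pool.Agent.PP.T2
open Pool.Agent.PP.T5
open Pool.Agent.PP.TB (Zd Star iz cz mm Az Pw)

attribute [local instance] Ideal.Quotient.field

/-- divisibility in the local ring -/
theorem dvd_RM {ℓ : ℕ} (hℓ : ℓ.Prime) (M : Ideal (integralClosure ℤ ℂ)) [M.IsMaximal]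
    (hM : (ℓ : integralClosure ℤ ℂ) ∈ M) (t : ℕ) :
    ∀ n : ℤ, (n : ℂ) / (ℓ : ℂ) ^ t ∈ RM M → (ℓ : ℤ) ^ t ∣ n := by
  have hl0 : (ℓ : ℂ) ≠ 0 := by exact_mod_cast hℓ.ne_zero
  induction t with
  | zero => intro n _; simp
  | succ t ih =>
    intro n hn
    have h1 : (n : ℂ) / (ℓ : ℂ) ^ t ∈ RM M := by
      have h2 := (RM M).mul_mem (rr_nat (M := M) ℓ).1 hn
      have h3 : (ℓ : ℂ) * ((n : ℂ) / (ℓ : ℂ) ^ (t + 1)) = (n : ℂ) / (ℓ : ℂ) ^ t := by
        rw [pow_succ]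
        field_simp
      rwa [h3] at h2
    obtain ⟨k, rfl⟩ := ih n h1
    have h4 : (k : ℂ) / ℓ ∈ RM M := by
      have h5 : (((ℓ : ℤ) ^ t * k : ℤ) : ℂ) / (ℓ : ℂ) ^ (t + 1) = (k : ℂ) / ℓ := by
        push_cast
        rw [pow_succ]
        field_simp
      rwa [h5] at hn
    have h6 : rr M (k : ℂ) = 0 := by
      have h7 := rr_mul (rr_nat (M := M) ℓ).1 h4
      have h8 : (ℓ : ℂ) * ((k : ℂ) / ℓ) = k := by field_simp
      have h9 : rr M ((ℓ : ℤ) : ℂ) = 0 := (dvd_of_rr hℓ hM).2 (dvd_refl _)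
      rw [Int.cast_natCast] at h9
      rw [h8, h9, zero_mul] at h7
      exact h7
    obtain ⟨k', rfl⟩ := (dvd_of_rr hℓ hM).1 h6
    exact ⟨k', by ring⟩

/-- the weighted sum for one character is `iz` -/
theorem ksm_one (tgi : TV.TgiStmt) (zcp : TB.ZcpStmt) (poz : TB.PozStmt) (pjz : TB.PjzStmt)
    (ℓ : ℕ) [hℓ : Fact ℓ.Prime] (M : Ideal (integralClosure ℤ ℂ)) [M.IsMaximal]
    (hM : (ℓ : integralClosure ℤ ℂ) ∈ M) (G : Type) [Group G] [Finite G] (e : G → FF M)
    (V : Subgroup G) (γ : G → FF M) (b : G → G → FF M) (hZ : Zd ℓ e V V γ b)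
    (hS : Star M ℓ e V V γ b) (χ : G → ℂ) (hχ : χ ∈ IrrE M e) :
    ∑ᶠ v : V, (cz V V γ (v : G) : ℂ) * mm M ℓ (Cu (v : G)) v (b v) χ χ = (iz V V γ : ℂ) := by
  classical
  have hp : ℓ.Prime := hℓ.out
  have hVf : Fintype V := Fintype.ofFinite V
  have hl0 : (ℓ : ℂ) ≠ 0 := by exact_mod_cast hp.ne_zero
  have hV0 : (Nat.card V : ℂ) ≠ 0 := by exact_mod_cast (Nat.card_pos (α := V)).ne'
  have hχI : χ ∈ Irr G := hχ.1
  obtain ⟨-, -, -, hi0, hil, hcz, hc1⟩ := zcp ℓ M hM G e V V γ b hZ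
  have hiC : (iz V V γ : ℂ) ≠ 0 := by exact_mod_cast hi0.ne'
  have hiR : ((iz V V γ : ℂ))⁻¹ ∈ RM M := by
    have h1 : rr M (((iz V V γ : ℕ) : ℤ) : ℂ) ≠ 0 := fun h =>
      hil (by exact_mod_cast (dvd_of_rr hp hM).1 h)
    rw [Int.cast_natCast] at h1
    exact (inv_RM (rr_nat (M := M) _).1 h1).1
  -- the sum
  obtain ⟨A, hA⟩ : ∃ A : ℂ, A = ∑ᶠ v : V, (cz V V γ (v : G) : ℂ) *
      mm M ℓ (Cu (v : G)) v (b v) χ χ := ⟨_, rfl⟩
  rw [← hA]
  -- step 1: `A` is in the local ring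
  have hAR : A ∈ RM M := by
    have h1 := hS χ hχ χ hχ (1 : V →* ℂ)
    have h2 : (Nat.card V : ℂ)⁻¹ * ∑ᶠ v : V, Az M ℓ V V γ b χ χ (v : G) * (1 : V →* ℂ) v⁻¹ =
        A := by
      rw [hA, mul_finsum]
      refine finsum_congr fun v => ?_
      rw [MonoidHom.one_apply]
      unfold Az
      field_simp
    rw [← h2]
    exact h1
  -- step 2: `A` is an integral multiple of `iz`
  have hL : TV.Li V γ (1 : V →* ℂ) := fun t _ v w _ => rfl
  obtain ⟨n, hn⟩ := tgi ℓ M hM G e V γ b hZ 1 hL χ hχI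
  have hn1 : ∑ᶠ v : V, (cz V V γ (v : G) : ℂ) * (1 : V →* ℂ) v *
      mm M ℓ (Cu (v : G)) v (b v) χ χ = A := by
    rw [hA]
    refine finsum_congr fun v => ?_
    rw [MonoidHom.one_apply, mul_one]
  rw [hn1] at hn
  have hVp : IsPGroup ℓ V := hZ.tp.pg
  obtain ⟨s, hs⟩ : ∃ s, Nat.card V = ℓ ^ s := IsPGroup.iff_card.1 hVp
  have hsC : (Nat.card V : ℂ) = (ℓ : ℂ) ^ s := by rw [hs]; push_cast; rfl
  have hdv : (ℓ : ℤ) ^ s ∣ n := by
    have h1 := (RM M).mul_mem hAR hiR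
    have h2 : A * (iz V V γ : ℂ)⁻¹ = (n : ℂ) / (ℓ : ℂ) ^ s := by
      rw [← hsC]
      field_simp
      linear_combination hn
    rw [h2] at h1
    exact dvd_RM hp M hM s n h1
  obtain ⟨m, hm⟩ := hdv
  have hAm : A = (iz V V γ : ℂ) * m := by
    have h1 : (Nat.card V : ℂ) * A = (Nat.card V : ℂ) * ((iz V V γ : ℂ) * m) := by
      rw [hn, hm, hsC]
      push_cast
      ring
    exact mul_left_cancel₀ hV0 h1
  -- step 3: the size
  have hpos : ∀ v : V, ∃ x : ℝ, 0 < x ∧ mm M ℓ (Cu (v : G)) v (b v) χ χ = (x : ℂ) := fun v =>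
    (poz ℓ M hM G e V V γ b hZ v v.2).2 χ hχ
  choose x hx0 hx using hpos
  obtain ⟨⟨y, hy, hyle⟩, -⟩ := pjz ℓ M hM G e V V γ b hZ V le_rfl hZ.nrm χ hχI
  have hAy : A = (y : ℂ) := by
    rw [← hy, hA]
    rfl
  have hysum : y = ∑ v : V, (cz V V γ (v : G) : ℝ) * x v := by
    have h1 : (y : ℂ) = ((∑ v : V, (cz V V γ (v : G) : ℝ) * x v : ℝ) : ℂ) := by
      rw [← hy]
      unfold Pw
      rw [finsum_eq_sum_of_fintype]
      push_cast
      exact Finset.sum_congr rfl fun v _ => by rw [hx v]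
    exact_mod_cast h1
  have hapos : ∀ v : V, 0 < (cz V V γ (v : G) : ℝ) * x v := fun v =>
    mul_pos (by exact_mod_cast hcz v v.2) (hx0 v)
  have hy0 : 0 < y := by
    rw [hysum]
    exact Finset.sum_pos (fun v _ => hapos v) ⟨1, Finset.mem_univ _⟩
  have hym : y = (iz V V γ : ℝ) * m := by
    have h1 : (y : ℂ) = (((iz V V γ : ℝ) * (m : ℝ) : ℝ) : ℂ) := by
      rw [← hAy, hAm]
      push_cast
      rfl
    exact_mod_cast h1
  have hiR0 : (0 : ℝ) < (iz V V γ : ℝ) := by exact_mod_cast hi0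
  have hm1 : (m : ℝ) ≤ 1 := by
    by_contra h
    have h' := not_le.1 h
    nlinarith
  have hm2 : (0 : ℝ) < (m : ℝ) := by
    by_contra h
    have h' := not_lt.1 h
    nlinarith
  have hm3 : m = 1 := by
    have h1 : m ≤ 1 := by exact_mod_cast hm1
    have h2 : 0 < m := by exact_mod_cast hm2
    omega
  rw [hAm, hm3, Int.cast_one, mul_one]

/-- row KSM (the hypotheses are `TV.tgi_`, `TB.zcp_`, `TB.poz_`, `TB.pjz_`, `TV.smm_` of
`Helper66_WAT/Asm.lean`) -/
theorem ksm (tgi : TV.TgiStmt) (zcp : TB.ZcpStmt) (poz : TB.PozStmt) (pjz : TB.PjzStmt)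
    (smm : TV.SmmStmt) : KsmStmt := by
  intro ℓ _ M _ hM G _ _ e V γ b hZ hS
  classical
  have hVf : Fintype V := Fintype.ofFinite V
  have hGf : Fintype G := Fintype.ofFinite G
  have hfinG : (Irr G).Finite := irr_finite'
  have hfinE : (IrrE M e).Finite := hfinG.subset fun _ h => h.1
  have h1 : ∑ᶠ χ ∈ IrrE M e, ∑ᶠ v : V, (cz V V γ (v : G) : ℂ) *
      mm M ℓ (Cu (v : G)) v (b v) χ χ = (iz V V γ : ℂ) * ((IrrE M e).ncard : ℂ) := by
    rw [finsum_mem_congr rfl fun χ hχ => ksm_one tgi zcp poz pjz ℓ M hM G e V γ b hZ hS χ hχ,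
      finsum_mem_eq_finite_toFinset_sum _ hfinE, Finset.sum_const, nsmul_eq_mul,
      Set.ncard_eq_toFinset_card _ hfinE, mul_comm]
  have h2 : ∑ᶠ χ ∈ IrrE M e, ∑ᶠ v : V, (cz V V γ (v : G) : ℂ) *
      mm M ℓ (Cu (v : G)) v (b v) χ χ =
      ((∑ᶠ v : V, cz V V γ (v : G) * ln (fun t : Cu (v : G) => b v t) : ℕ) : ℂ) := by
    rw [finsum_mem_eq_finite_toFinset_sum _ hfinE, finsum_eq_sum_of_fintype, Nat.cast_sum]
    simp only [finsum_eq_sum_of_fintype]
    rw [Finset.sum_comm]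
    refine Finset.sum_congr rfl fun v _ => ?_
    rw [← Finset.mul_sum, ← finsum_mem_eq_finite_toFinset_sum _ hfinE, Nat.cast_mul,
      smm ℓ M hM G e V γ b hZ v v.2]
  rw [h1] at h2
  exact_mod_cast h2

end Pool.Agent.PFD.H31
end
end -- Pool.Agent.Helper31_PFD.KSM

section -- Pool.Agent.Helper34_PFD.TRN

/-!
Row TRN of squad PFD, block D5b: transport of V : E (helper34).
-/

open scoped BigOperators

noncomputable section

namespace Pool.Agent.PFD.H34

open Pool.Agent.PFD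
open Pool.Agent.Helper51_AWC Pool.Agent.Helper79_WRA Pool.Agent.PP Pool.Agent.PP.KF
open Pool.Agent.PP.K9 Pool.Agent.PP.K9.H97 Pool.Agent.PP.H75 Pool.Agent.PP.T3 Pool.Agent.PP.T2

theorem card_conj_congr {A B : Type} [Group A] [Group B] (e : A ≃* B) :
    Nat.card (ConjClasses A) = Nat.card (ConjClasses B) := by
  refine Nat.card_eq_of_bijective (ConjClasses.map e.toMonoidHom)
    ⟨?_, ConjClasses.map_surjective e.surjective⟩
  intro x y hxy
  obtain ⟨a, rfl⟩ := ConjClasses.exists_rep x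
  obtain ⟨b, rfl⟩ := ConjClasses.exists_rep y
  have h1 : ConjClasses.mk (e a) = ConjClasses.mk (e b) := hxy
  rw [ConjClasses.mk_eq_mk_iff_isConj, isConj_iff] at h1
  rw [ConjClasses.mk_eq_mk_iff_isConj, isConj_iff]
  obtain ⟨c, hc⟩ := h1
  refine ⟨e.symm c, ?_⟩
  apply e.injective
  rw [map_mul, map_mul, map_inv, e.apply_symm_apply, hc]

theorem trn : TrnStmt := by
  intro F G _ V γ V' E _ _ ι φ hι hr hφ h3 h4
  let a : V' ≃* V := (MonoidHom.ofInjective hι).trans (MulEquiv.subgroupCongr hr)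
  have ha : ∀ w, ((a w : V) : G) = ι w := by
    intro w
    rfl
  have hmem : ∀ w, ι w ∈ V := by
    intro w
    rw [← ha]
    exact (a w).2
  have hex : ∀ v ∈ V, ∃ w, ι w = v := by
    intro v hv
    rw [← hr] at hv
    exact hv
  have key : ∀ x : E, MulAut.congr a (φ x) ∈ Ei V γ := by
    intro x
    obtain ⟨t, ht, htw⟩ := h4 x
    have hn : t ∈ Subgroup.normalizer (V : Set G) := by
      rw [Subgroup.mem_normalizer_iff]
      intro v
      constructor
      · intro hv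
        obtain ⟨w, rfl⟩ := hex v hv
        change t * ι w * t⁻¹ ∈ V
        rw [← htw]
        exact hmem _
      · intro hv
        obtain ⟨w, hw⟩ := hex _ hv
        have h5 := htw ((φ x).symm w)
        rw [MulEquiv.apply_symm_apply, hw] at h5
        have h6 : v = ι ((φ x).symm w) := by
          have h7 := mul_right_cancel h5
          exact mul_left_cancel h7
        rw [h6]
        exact hmem _
    refine ⟨⟨t, hn⟩, ?_, ?_⟩
    · exact ht
    · apply MulEquiv.ext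
      intro v
      apply Subtype.ext
      change t * (v : G) * t⁻¹ = ((a (φ x (a.symm v)) : V) : G)
      rw [ha, htw]
      congr 2
      rw [← ha, a.apply_symm_apply]
  let b : E →* Ei V γ :=
    { toFun := fun x => ⟨MulAut.congr a (φ x), key x⟩
      map_one' := by
        apply Subtype.ext
        change MulAut.congr a (φ 1) = 1
        rw [map_one, map_one]
      map_mul' := by
        intro x y
        apply Subtype.ext
        change MulAut.congr a (φ (x * y)) = MulAut.congr a (φ x) * MulAut.congr a (φ y)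
        rw [map_mul, map_mul] }
  have hb : Function.Bijective b := by
    constructor
    · intro x y hxy
      have h5 : MulAut.congr a (φ x) = MulAut.congr a (φ y) := congrArg Subtype.val hxy
      exact hφ ((MulAut.congr a).injective h5)
    · rintro ⟨σ, hσ⟩
      obtain ⟨n, hn, hn2⟩ := hσ
      obtain ⟨x, hx⟩ := h3 (n : G) hn
      refine ⟨x, ?_⟩
      apply Subtype.ext
      change MulAut.congr a (φ x) = σ
      rw [← hn2]
      apply MulEquiv.ext
      intro v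
      apply Subtype.ext
      change ((a (φ x (a.symm v)) : V) : G) = (n : G) * (v : G) * (n : G)⁻¹
      rw [ha, hx]
      congr 2
      rw [← ha, a.apply_symm_apply]
  let bE : E ≃* Ei V γ := MulEquiv.ofBijective b hb
  unfold kv
  refine card_conj_congr (SemidirectProduct.congr a bE ?_)
  intro x
  apply MulEquiv.ext
  intro w
  change a (φ x w) = a (φ x (a.symm (a w)))
  rw [a.symm_apply_apply]

end Pool.Agent.PFD.H34
end
end -- Pool.Agent.Helper34_PFD.TRN

section -- Pool.Agent.Helper25_WAX.LXC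

/-! Squad WAX, row LXC: all inertial quotients, all primes. -/

open scoped BigOperators

noncomputable section

namespace Pool.Agent.PP.TX.H25

open Pool.Agent.Helper51_AWC Pool.Agent.Helper79_WRA Pool.Agent.PP Pool.Agent.PP.KF
open Pool.Agent.PP.K9 Pool.Agent.PP.K9.H97 Pool.Agent.PP.H75 Pool.Agent.PP.T3 Pool.Agent.PP.T2
open Pool.Agent.PP.T5 Pool.Agent.PP.TB

attribute [local instance] Ideal.Quotient.field

/-- LXC -/
theorem lxc (hBnd : TB.BndStmt) (hSta : TW.StaStmt) : LxcStmt := by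
  intro ℓ _ M _ hM G _ _ e V γ hL r hR
  have hZc : Zc V = V := by
    unfold Zc
    refine le_antisymm inf_le_left (le_inf le_rfl fun x hx => ?_)
    rw [Subgroup.mem_centralizer_iff]
    intro y hy
    exact hL.ab y hy x hx
  have hU : Uw (ℓ ^ 0) (Zc V) = V := by
    rw [hZc]
    unfold Uw
    have : (fun x : G => x ^ ℓ ^ 0) '' (V : Set G) = (V : Set G) := by
      simp
    rw [this]
    exact Subgroup.closure_eq V
  obtain ⟨b', hb, hlo⟩ := hSta ℓ M hM G e V γ hL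
  have h := hBnd ℓ M hM G e V r 0 hL.blk hL.tp ⟨V, hZc.ge, by rw [pow_zero, one_mul], hR⟩
    ⟨γ, b', by rw [hU]; exact ⟨hb, hlo⟩⟩
  refine h.trans (le_of_eq ?_)
  congr 1
  unfold cb
  ring

end Pool.Agent.PP.TX.H25
end
end -- Pool.Agent.Helper25_WAX.LXC

section -- Pool.Agent.Helper41_AT6.FBD0

/-!
# Squad AT6, module FBD, part 1: linear algebra and counting
-/

open scoped BigOperators

noncomputable section

namespace Pool.Agent.PP.T6.H41

/-- Parseval -/
theorem parseval {T : Type} [Fintype T] {n : ℕ} (Q : Fin n → T → ℂ) (c : ℂ)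
    (hQ : ∀ i k, c * ∑ s, Q i s * starRingEnd ℂ (Q k s) = if i = k then 1 else 0)
    (f f' : T → ℂ) (a a' : Fin n → ℂ) (hf : ∀ s, f s = ∑ i, a i * Q i s)
    (hf' : ∀ s, f' s = ∑ i, a' i * Q i s) :
    c * ∑ s, f s * starRingEnd ℂ (f' s) = ∑ i, a i * starRingEnd ℂ (a' i) := by
  classical
  have h1 : ∀ s, f s * starRingEnd ℂ (f' s) =
      ∑ i, ∑ k, a i * starRingEnd ℂ (a' k) * (Q i s * starRingEnd ℂ (Q k s)) := by
    intro s
    rw [hf, hf', map_sum, Finset.sum_mul_sum]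
    refine Finset.sum_congr rfl fun i _ => Finset.sum_congr rfl fun k _ => ?_
    rw [map_mul]
    ring
  calc c * ∑ s, f s * starRingEnd ℂ (f' s) =
      ∑ i, ∑ k, a i * starRingEnd ℂ (a' k) * (c * ∑ s, Q i s * starRingEnd ℂ (Q k s)) := by
        simp only [h1]
        rw [Finset.sum_comm, Finset.mul_sum]
        refine Finset.sum_congr rfl fun i _ => ?_
        rw [Finset.sum_comm, Finset.mul_sum]
        refine Finset.sum_congr rfl fun k _ => ?_
        rw [← Finset.mul_sum]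
        ring
    _ = ∑ i, ∑ k, a i * starRingEnd ℂ (a' k) * (if i = k then 1 else 0) := by
        refine Finset.sum_congr rfl fun i _ => Finset.sum_congr rfl fun k _ => ?_
        rw [hQ]
    _ = _ := by
        refine Finset.sum_congr rfl fun i _ => ?_
        simp

/-- the real form for one function -/
theorem parseval_real {T : Type} [Fintype T] {n : ℕ} (Q : Fin n → T → ℂ) (c : ℝ)
    (hQ : ∀ i k, (c : ℂ) * ∑ s, Q i s * starRingEnd ℂ (Q k s) = if i = k then 1 else 0)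
    (f : T → ℂ) (a : Fin n → ℂ) (hf : ∀ s, f s = ∑ i, a i * Q i s) :
    c * ∑ s, Complex.normSq (f s) = ∑ i, Complex.normSq (a i) := by
  have h := parseval Q c hQ f f a a hf hf
  have h1 : ((c * ∑ s, Complex.normSq (f s) : ℝ) : ℂ) = ((∑ i, Complex.normSq (a i) : ℝ) : ℂ) := by
    push_cast
    simp only [← Complex.mul_conj]
    exact h
  exact_mod_cast h1

/-- Markov's inequality: at least half of the elements are good. -/
theorem markov {X : Type} [Fintype X] (S : X → ℝ) (B : ℝ) (hB : 0 < B) (hS : ∀ x, 0 ≤ S x)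
    (h : ∑ x, S x ≤ Fintype.card X * B) :
    (Fintype.card X : ℝ) ≤ 2 * Nat.card {x : X // S x ≤ 2 * B} := by
  classical
  have h1 : (Nat.card {x : X // S x ≤ 2 * B}) = (Finset.univ.filter fun x => S x ≤ 2 * B).card := by
    rw [Nat.card_eq_fintype_card, Fintype.card_subtype]
  have h2 : (Finset.univ.filter fun x => S x ≤ 2 * B).card +
      (Finset.univ.filter fun x => ¬ S x ≤ 2 * B).card = Fintype.card X := by
    rw [Finset.card_filter_add_card_filter_not]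
    rfl
  have h3 : ((Finset.univ.filter fun x => ¬ S x ≤ 2 * B).card : ℝ) * (2 * B) ≤ ∑ x, S x := by
    rw [← nsmul_eq_mul]
    calc (Finset.univ.filter fun x => ¬ S x ≤ 2 * B).card • (2 * B) ≤
        ∑ x ∈ Finset.univ.filter (fun x => ¬ S x ≤ 2 * B), S x := by
          apply Finset.card_nsmul_le_sum
          intro x hx
          exact (not_le.1 (Finset.mem_filter.1 hx).2).le
      _ ≤ ∑ x, S x := Finset.sum_le_sum_of_subset_of_nonneg (Finset.filter_subset _ _)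
          (fun x _ _ => hS x)
  have h4 : ((Finset.univ.filter fun x => S x ≤ 2 * B).card : ℝ) +
      (Finset.univ.filter fun x => ¬ S x ≤ 2 * B).card = Fintype.card X := by exact_mod_cast h2
  rw [h1]
  have h5 : ((Finset.univ.filter fun x => ¬ S x ≤ 2 * B).card : ℝ) * 2 ≤ Fintype.card X := by
    have h6 := h3.trans h
    have h7 : ((Finset.univ.filter fun x => ¬ S x ≤ 2 * B).card : ℝ) * 2 * B ≤
        Fintype.card X * B := by linarith
    exact le_of_mul_le_mul_right h7 hB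
  linarith

end Pool.Agent.PP.T6.H41
end
end -- Pool.Agent.Helper41_AT6.FBD0

section -- Pool.Agent.Helper41_AT6.FBD1

/-!
# Squad AT6, module FBD, part 2: the vectors of a section
-/

open scoped BigOperators

noncomputable section

set_option linter.unusedSectionVars false

namespace Pool.Agent.PP.T6.H41

open Pool.Agent.Helper51_AWC Pool.Agent.Helper79_WRA Pool.Agent.PP Pool.Agent.PP.KF
open Pool.Agent.PP.K9 Pool.Agent.PP.K9.H97 Pool.Agent.PP.H75 Pool.Agent.PP.T3 Pool.Agent.PP.T2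

attribute [local instance] Ideal.Quotient.field

section sums

variable {G : Type} [Group G] {A : Type} [AddCommMonoid A]

theorem sum_cond {p : G → Prop} [Fintype {s : G // p s}] (f : G → A) :
    ∑ᶠ (s : G) (_ : p s), f s = ∑ s : {s : G // p s}, f s := by
  rw [← finsum_eq_sum_of_fintype]
  exact (finsum_subtype_eq_finsum_cond (f := f) p).symm

end sums

variable {G : Type} [Group G] [Finite G] (M : Ideal (integralClosure ℤ ℂ)) [M.IsMaximal]

/-- the coordinate of `s ↦ gv M (Cu v) (w s) b χ` -/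
def co (ℓ : ℕ) (v : G) (b : G → FF M) (w : G) (χ : G → ℂ) (q : G → ℂ) : ℂ :=
  (Nat.card (Cu v) : ℂ)⁻¹ *
    ∑ᶠ (s' : G) (_ : s' ∈ Cu v ∧ Reg ℓ s'), gv M (Cu v) (w * s') b χ * starRingEnd ℂ (q s')

/-- an orthonormal system in which the functions `s ↦ gv M (Cu v) (w s) b χ` can be expanded -/
structure Os (ℓ : ℕ) (v : G) (b : G → FF M) (n : ℕ) (Q : Fin n → G → ℂ) : Prop where
  orth : ∀ i k, (Nat.card (Cu v) : ℂ)⁻¹ * ∑ᶠ (s : G) (_ : s ∈ Cu v ∧ Reg ℓ s),
      Q i s * starRingEnd ℂ (Q k s) = if i = k then 1 else 0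
  ex : ∀ w : G, (∀ c ∈ Cu v, w * c = c * w) → ∀ χ ∈ Irr G, ∀ s ∈ Cu v, Reg ℓ s →
      gv M (Cu v) (w * s) b χ = ∑ i, co M ℓ v b w χ (Q i) * Q i s

variable {M} {ℓ : ℕ} {v : G} {b : G → FF M} {n : ℕ} {Q : Fin n → G → ℂ}

theorem Os.gram (h : Os M ℓ v b n Q) {w : G} (hw : ∀ c ∈ Cu v, w * c = c * w) {χ χ' : G → ℂ}
    (hχ : χ ∈ Irr G) (hχ' : χ' ∈ Irr G) :
    (Nat.card (Cu v) : ℂ)⁻¹ * ∑ᶠ (s : G) (_ : s ∈ Cu v ∧ Reg ℓ s),
      gv M (Cu v) (w * s) b χ * starRingEnd ℂ (gv M (Cu v) (w * s) b χ') =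
    ∑ i, co M ℓ v b w χ (Q i) * starRingEnd ℂ (co M ℓ v b w χ' (Q i)) := by
  classical
  have := Fintype.ofFinite {s : G // s ∈ Cu v ∧ Reg ℓ s}
  rw [sum_cond]
  refine parseval (fun i (s : {s : G // s ∈ Cu v ∧ Reg ℓ s}) => Q i s) _ ?_
    (fun s : {s : G // s ∈ Cu v ∧ Reg ℓ s} => gv M (Cu v) (w * s) b χ)
    (fun s : {s : G // s ∈ Cu v ∧ Reg ℓ s} => gv M (Cu v) (w * s) b χ') _ _ ?_ ?_
  · intro i k
    rw [← h.orth i k, sum_cond]
  · intro s
    exact h.ex w hw χ hχ s s.2.1 s.2.2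
  · intro s
    exact h.ex w hw χ' hχ' s s.2.1 s.2.2

/-- the inner product with a combination of the `Q i` -/
theorem Os.inner (χ : G → ℂ) (w : G) (y : Fin n → ℂ) :
    (Nat.card (Cu v) : ℂ)⁻¹ * ∑ᶠ (s : G) (_ : s ∈ Cu v ∧ Reg ℓ s),
      gv M (Cu v) (w * s) b χ * starRingEnd ℂ (∑ i, y i * Q i s) =
    ∑ i, co M ℓ v b w χ (Q i) * starRingEnd ℂ (y i) := by
  classical
  have := Fintype.ofFinite {s : G // s ∈ Cu v ∧ Reg ℓ s}
  unfold co
  simp only [sum_cond]
  simp only [map_sum, map_mul, Finset.mul_sum, Finset.sum_mul]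
  rw [Finset.sum_comm]
  refine Finset.sum_congr rfl fun i _ => Finset.sum_congr rfl fun s _ => ?_
  ring

/-- the norm of a combination of the `Q i` -/
theorem Os.norm (h : Os M ℓ v b n Q) (y : Fin n → ℂ) :
    (Nat.card (Cu v) : ℝ)⁻¹ * ∑ᶠ (s : G) (_ : s ∈ Cu v ∧ Reg ℓ s),
      Complex.normSq (∑ i, y i * Q i s) = ∑ i, Complex.normSq (y i) := by
  classical
  have := Fintype.ofFinite {s : G // s ∈ Cu v ∧ Reg ℓ s}
  rw [sum_cond]
  refine parseval_real (fun i (s : {s : G // s ∈ Cu v ∧ Reg ℓ s}) => Q i s) _ ?_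
    (fun s : {s : G // s ∈ Cu v ∧ Reg ℓ s} => ∑ i, y i * Q i s) y (fun s => rfl)
  intro i k
  rw [← h.orth i k, sum_cond]
  push_cast
  rfl

/-- extension by zero -/
def ez (n β : ℕ) (x : Fin n → ℂ) (k : Fin β) : ℂ := if h : (k : ℕ) < n then x ⟨k, h⟩ else 0

theorem ez_sum {n β : ℕ} (hn : n ≤ β) (x y : Fin n → ℂ) (f : ℂ → ℂ → ℂ) (hf : f 0 0 = 0) :
    ∑ k, f (ez n β x k) (ez n β y k) = ∑ i, f (x i) (y i) := by
  classical
  have h1 : ∀ k : Fin β, f (ez n β x k) (ez n β y k) =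
      if h : (k : ℕ) < n then f (x ⟨k, h⟩) (y ⟨k, h⟩) else 0 := by
    intro k
    unfold ez
    by_cases h : (k : ℕ) < n
    · rw [dif_pos h, dif_pos h, dif_pos h]
    · rw [dif_neg h, dif_neg h, dif_neg h, hf]
  rw [Finset.sum_congr rfl fun k _ => h1 k]
  symm
  apply Finset.sum_of_injOn (fun i : Fin n => (Fin.castLE hn i : Fin β))
  · intro i _ j _ hij
    exact Fin.castLE_injective hn hij
  · intro i _
    exact Finset.mem_univ _
  · intro k _ hk
    by_cases h : (k : ℕ) < n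
    · exact absurd ⟨⟨k, h⟩, by simp, Fin.ext rfl⟩ hk
    · rw [dif_neg h]
  · intro i _
    have h : ((Fin.castLE hn i : Fin β) : ℕ) < n := i.2
    show f (x i) (y i) = if h : ((Fin.castLE hn i : Fin β) : ℕ) < n then _ else _
    rw [dif_pos h]
    rfl

/-- pairing with the extension by zero -/
theorem ez_pair {n β : ℕ} (hn : n ≤ β) (x : Fin n → ℂ) (y : Fin β → ℂ) :
    ∑ k, ez n β x k * starRingEnd ℂ (y k) =
      ∑ i, x i * starRingEnd ℂ (y (Fin.castLE hn i)) := by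
  classical
  symm
  apply Finset.sum_of_injOn (fun i : Fin n => (Fin.castLE hn i : Fin β))
  · intro i _ j _ hij
    exact Fin.castLE_injective hn hij
  · intro i _
    exact Finset.mem_univ _
  · intro k _ hk
    unfold ez
    by_cases h : (k : ℕ) < n
    · exact absurd ⟨⟨k, h⟩, by simp, Fin.ext rfl⟩ hk
    · rw [dif_neg h, zero_mul]
  · intro i _
    show _ = ez n β x (Fin.castLE hn i) * _
    unfold ez
    have h : ((Fin.castLE hn i : Fin β) : ℕ) < n := i.2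
    rw [dif_pos h]
    rfl

theorem ez_le {n β : ℕ} (hn : n ≤ β) (y : Fin β → ℂ) :
    ∑ i : Fin n, Complex.normSq (y (Fin.castLE hn i)) ≤ ∑ k, Complex.normSq (y k) := by
  classical
  calc ∑ i : Fin n, Complex.normSq (y (Fin.castLE hn i)) =
      ∑ k ∈ Finset.univ.map (Fin.castLEEmb hn), Complex.normSq (y k) := by
        rw [Finset.sum_map]
        rfl
    _ ≤ _ := Finset.sum_le_sum_of_subset_of_nonneg (Finset.subset_univ _)
        (fun k _ _ => Complex.normSq_nonneg _)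

end Pool.Agent.PP.T6.H41
end
end -- Pool.Agent.Helper41_AT6.FBD1

section -- Pool.Agent.Helper41_AT6.FBD

/-!
# Squad AT6, module FBD: the bound for the number of the characters fixed by the power map
-/

open scoped BigOperators

noncomputable section

set_option linter.unusedSectionVars false

namespace Pool.Agent.PP.T6.H41

open Pool.Agent.Helper51_AWC Pool.Agent.Helper79_WRA Pool.Agent.PP Pool.Agent.PP.KF
open Pool.Agent.PP.K9 Pool.Agent.PP.K9.H97 Pool.Agent.PP.H75 Pool.Agent.PP.T3 Pool.Agent.PP.T2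

attribute [local instance] Ideal.Quotient.field

variable {G : Type} [Group G] [Finite G] {M : Ideal (integralClosure ℤ ℂ)} [M.IsMaximal]

/-- the number `|V| |T ∩ C(v) : C(V)|` -/
def am (V : Subgroup G) (γ : G → FF M) (v : G) : ℕ :=
  Nat.card V * (Subgroup.centralizer (V : Set G)).relIndex (Tg V γ ⊓ Cu v)

theorem am_pos (V : Subgroup G) (γ : G → FF M) (v : G) : 0 < am V γ v :=
  Nat.mul_pos Nat.card_pos (Nat.pos_of_ne_zero Subgroup.index_ne_zero_of_finite)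

/-- `Mm` for a power of `v`, in coordinates -/
theorem mm_eq {ℓ : ℕ} {V : Subgroup G} {γ : G → FF M} {v w : G} {b : G → FF M} {n : ℕ}
    {Q : Fin n → G → ℂ} (h : Os M ℓ v b n Q) (hC : Cu w = Cu v) {χ χ' : G → ℂ}
    (hχ : χ ∈ Irr G) (hχ' : χ' ∈ Irr G) :
    Mm M ℓ V γ w b χ χ' =
      (am V γ v : ℂ) * ∑ i, co M ℓ v b w χ (Q i) * starRingEnd ℂ (co M ℓ v b w χ' (Q i)) := by
  have hw : ∀ c ∈ Cu v, w * c = c * w := by
    intro c hc
    rw [← hC] at hc
    exact (Subgroup.mem_centralizer_singleton_iff.1 hc).symm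
  rw [← h.gram hw hχ hχ']
  unfold Mm Pm am
  rw [hC]
  push_cast
  rfl

/-- the coordinates of the section of `v`, multiplied with the weight and extended by zero -/
def vec (ℓ : ℕ) (V : Subgroup G) (γ : G → FF M) (v : G) (b : G → FF M) (n β : ℕ)
    (Q : Fin n → G → ℂ) (w : G) (χ : G → ℂ) : Fin β → ℂ :=
  ez n β fun i => ((Real.sqrt (am V γ v) : ℝ) : ℂ) * co M ℓ v b w χ (Q i)

theorem vec_gram {ℓ : ℕ} {V : Subgroup G} {γ : G → FF M} {v w : G} {b : G → FF M} {n β : ℕ}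
    {Q : Fin n → G → ℂ} (h : Os M ℓ v b n Q) (hn : n ≤ β) (hC : Cu w = Cu v) {χ χ' : G → ℂ}
    (hχ : χ ∈ Irr G) (hχ' : χ' ∈ Irr G) :
    ∑ k, vec ℓ V γ v b n β Q w χ k * starRingEnd ℂ (vec ℓ V γ v b n β Q w χ' k) =
      Mm M ℓ V γ w b χ χ' := by
  unfold vec
  rw [ez_sum hn _ _ (fun x y => x * starRingEnd ℂ y) (by simp), mm_eq h hC hχ hχ', Finset.mul_sum]
  refine Finset.sum_congr rfl fun i _ => ?_
  have hr : ((Real.sqrt (am V γ v) : ℝ) : ℂ) * ((Real.sqrt (am V γ v) : ℝ) : ℂ) = am V γ v := by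
    rw [← Complex.ofReal_mul, Real.mul_self_sqrt (Nat.cast_nonneg _)]
    push_cast
    rfl
  rw [← hr, map_mul, Complex.conj_ofReal]
  ring

theorem vec_norm {ℓ : ℕ} {V : Subgroup G} {γ : G → FF M} {v w : G} {b : G → FF M} {n β : ℕ}
    {Q : Fin n → G → ℂ} (h : Os M ℓ v b n Q) (hn : n ≤ β) (hC : Cu w = Cu v) {χ : G → ℂ}
    (hχ : χ ∈ Irr G) (hre : Mm M ℓ V γ w b χ χ = (‖Mm M ℓ V γ w b χ χ‖ : ℝ)) :
    ∑ k, Complex.normSq (vec ℓ V γ v b n β Q w χ k) = ‖Mm M ℓ V γ w b χ χ‖ := by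
  have h1 := vec_gram (V := V) (γ := γ) h hn hC hχ hχ
  rw [hre] at h1
  have h2 : ((∑ k, Complex.normSq (vec ℓ V γ v b n β Q w χ k) : ℝ) : ℂ) =
      ((‖Mm M ℓ V γ w b χ χ‖ : ℝ) : ℂ) := by
    rw [← h1]
    push_cast
    refine Finset.sum_congr rfl fun k _ => ?_
    rw [Complex.mul_conj]
  exact_mod_cast h2

/-- the left side of Bessel's inequality -/
theorem vec_pair {ℓ : ℕ} {V : Subgroup G} {γ : G → FF M} {v w : G} {b : G → FF M} {n β : ℕ}
    {Q : Fin n → G → ℂ} (hn : n ≤ β) (χ : G → ℂ) (y : Fin β → ℂ) :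
    ∑ k, vec ℓ V γ v b n β Q w χ k * starRingEnd ℂ (y k) =
      (Nat.card (Cu v) : ℂ)⁻¹ * ∑ᶠ (s : G) (_ : s ∈ Cu v ∧ Reg ℓ s),
        gv M (Cu v) (w * s) b χ * starRingEnd ℂ
          (∑ i, (((Real.sqrt (am V γ v) : ℝ) : ℂ) * y (Fin.castLE hn i)) * Q i s) := by
  rw [Os.inner χ w, vec, ez_pair hn]
  refine Finset.sum_congr rfl fun i _ => ?_
  rw [map_mul, Complex.conj_ofReal]
  ring

/-- the right side of Bessel's inequality -/
theorem vec_rhs {ℓ : ℕ} {V : Subgroup G} {γ : G → FF M} {v : G} {b : G → FF M} {n β : ℕ}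
    {Q : Fin n → G → ℂ} (h : Os M ℓ v b n Q) (hn : n ≤ β) (y : Fin β → ℂ) :
    (((Subgroup.centralizer (V : Set G)).relIndex (Tg V γ ⊓ Cu v) : ℕ) : ℝ)⁻¹ *
      ((Nat.card (Cu v) : ℝ)⁻¹ * ∑ᶠ (s : G) (_ : s ∈ Cu v ∧ Reg ℓ s), Complex.normSq
          (∑ i, (((Real.sqrt (am V γ v) : ℝ) : ℂ) * y (Fin.castLE hn i)) * Q i s)) ≤
      Nat.card V * ∑ k, Complex.normSq (y k) := by
  have hr : (0:ℝ) < (((Subgroup.centralizer (V : Set G)).relIndex (Tg V γ ⊓ Cu v) : ℕ) : ℝ) := by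
    exact_mod_cast Nat.pos_of_ne_zero Subgroup.index_ne_zero_of_finite
  rw [h.norm (fun i => ((Real.sqrt (am V γ v) : ℝ) : ℂ) * y (Fin.castLE hn i))]
  have h1 : ∑ i : Fin n, Complex.normSq (((Real.sqrt (am V γ v) : ℝ) : ℂ) *
      y (Fin.castLE hn i)) = (am V γ v : ℝ) * ∑ i : Fin n, Complex.normSq (y (Fin.castLE hn i)) := by
    rw [Finset.mul_sum]
    refine Finset.sum_congr rfl fun i _ => ?_
    rw [Complex.normSq_mul, Complex.normSq_ofReal, Real.mul_self_sqrt (Nat.cast_nonneg _)]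
  rw [h1]
  unfold am
  push_cast
  have h2 := ez_le hn y
  have h3 : (0:ℝ) ≤ Nat.card V := Nat.cast_nonneg _
  calc (((Subgroup.centralizer (V : Set G)).relIndex (Tg V γ ⊓ Cu v) : ℕ) : ℝ)⁻¹ *
      ((Nat.card V : ℝ) * ((Subgroup.centralizer (V : Set G)).relIndex (Tg V γ ⊓ Cu v) : ℝ) *
        ∑ i : Fin n, Complex.normSq (y (Fin.castLE hn i))) =
      (Nat.card V : ℝ) * ∑ i : Fin n, Complex.normSq (y (Fin.castLE hn i)) := by
        field_simp
    _ ≤ _ := mul_le_mul_of_nonneg_left h2 h3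

/-- FBD -/
theorem fbd (hCPL : CplStmt) (hPSV : PsvStmt) (hGEO : GeoStmt) (hEQM : EqmStmt) (hPGR : PgrStmt)
    (hBSL : BslStmt) (hAVG : AvgStmt) (hPIG : PigStmt) (hLOC : T3.LocStmt) (hLPW : T3.LpwStmt)
    (hPWU : T2.PwuStmt) : FbdStmt := by
  classical
  intro ℓ hfact M _ hM G _ _ N hN e V γ hL a ha hexp c hc β hβ
  have hℓ : ℓ.Prime := hfact.out
  have hF : GoodF ℓ (FF M) := H50.fld ℓ hℓ M hM
  -- the local blocks
  have hex : ∀ v : G, ∃ b : G → FF M, v ∈ V → Lc e V γ v b := by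
    intro v
    by_cases hv : v ∈ V
    · obtain ⟨b, hb⟩ := (hLOC ℓ (FF M) hF G e V γ hL v hv).1
      exact ⟨b, fun _ => hb⟩
    · exact ⟨fun _ => 0, fun h => absurd h hv⟩
  choose b hb using hex
  have hbp : ∀ v ∈ V, ∀ j : ℕ, ¬ ℓ ∣ j → Cu (v ^ j) = Cu v ∧ b (v ^ j) = b v := by
    intro v hv j hj
    obtain ⟨h1, h2⟩ := hLPW ℓ (FF M) hF G e V γ hL v hv (b v) (hb v hv) j hj
    exact ⟨h1, (hLOC ℓ (FF M) hF G e V γ hL (v ^ j) (V.pow_mem hv j)).2 _ _
      (hb _ (V.pow_mem hv j)) h2⟩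
  -- orders
  have hpow : ∀ v ∈ V, v ^ ℓ ^ a = 1 := by
    intro v hv
    have h1 : (⟨v, hv⟩ : V) ^ Monoid.exponent V = 1 := Monoid.pow_exponent_eq_one _
    rw [hexp] at h1
    exact congrArg Subtype.val h1
  let W : Subgroup G := Uw (ℓ ^ (3 * c + 1)) V
  obtain ⟨hWmem, hWV, -⟩ := hPWU G (ℓ ^ (3 * c + 1)) V hL.ab
  have hW1 : ∀ z ∈ W, z ^ ℓ ^ (a - 1) = 1 := by
    intro z hz
    obtain ⟨v, hv, rfl⟩ := (hWmem z).1 hz
    rw [← pow_mul, ← pow_add]
    have h1 : 3 * c + 1 + (a - 1) = a + 3 * c := by omega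
    rw [h1, pow_add, pow_mul, hpow v hv, one_pow]
  -- finiteness
  have := Fintype.ofFinite G
  have hRfin : (T5.Rf M N e).Finite := irr_finite'.subset fun χ hχ => hχ.1.1
  let R := {χ : G → ℂ // χ ∈ T5.Rf M N e}
  have : Finite R := hRfin.to_subtype
  have := Fintype.ofFinite R
  have := Fintype.ofFinite V
  have := Fintype.ofFinite W
  let J := {j : ℕ // j ∈ un ℓ a}
  have hJ : ∀ j : J, ¬ ℓ ∣ (j : ℕ) := fun j => (Finset.mem_filter.1 j.2).2
  have h1un : 1 ∈ un ℓ a := Finset.mem_filter.2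
    ⟨Finset.mem_range.2 (Nat.one_lt_pow ha.ne' hℓ.one_lt), hℓ.one_lt.ne' ∘ Nat.dvd_one.1⟩
  have : Nonempty J := ⟨⟨1, h1un⟩⟩
  have : Nonempty W := ⟨1⟩
  have hJcard : Fintype.card J = (un ℓ a).card := Fintype.card_coe _
  have hmpos : 0 < (un ℓ a).card := Finset.card_pos.2 ⟨1, h1un⟩
  have hixpos : 0 < ix V γ := Nat.pos_of_ne_zero Subgroup.index_ne_zero_of_finite
  have hVpos : 0 < Nat.card V := Nat.card_pos
  have hWpos : 0 < Nat.card W := Nat.card_pos
  -- the norms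
  let nn : G → (G → ℂ) → ℝ := fun v χ => ‖Mm M ℓ V γ v (b v) χ χ‖
  have hnn : ∀ v ∈ V, ∀ χ : G → ℂ, Mm M ℓ V γ v (b v) χ χ = (nn v χ : ℝ) := by
    intro v hv χ
    exact (hPSV ℓ M hM G e V γ hL v hv (b v) (hb v hv)).1 χ
  have htot : ∀ χ : R, ∑ v : V, nn v χ = Nat.card V * ix V γ := by
    intro χ
    have h1 := hCPL ℓ M hM G e V γ hL b hb χ χ.2.1
    rw [sum_cond] at h1
    have h2 : ((∑ v : V, nn v χ : ℝ) : ℂ) = ((Nat.card V * ix V γ : ℝ) : ℂ) := by
      push_cast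
      rw [← h1]
      exact Finset.sum_congr rfl fun v _ => (hnn v v.2 χ).symm
    exact_mod_cast h2
  have htotj : ∀ (χ : R) (j : J), ∑ v : V, nn ((v : G) ^ (j : ℕ)) χ = Nat.card V * ix V γ := by
    intro χ j
    rw [← htot χ]
    have hco : (Nat.card V).Coprime (j : ℕ) := by
      obtain ⟨n, hn⟩ := IsPGroup.iff_card.1 hL.tp.pg
      rw [hn]
      exact Nat.Coprime.pow_left n ((Nat.Prime.coprime_iff_not_dvd hℓ).2 (hJ j))
    exact Fintype.sum_equiv (powCoprime hco) _ _ fun v => rfl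
  -- the function of PIG
  let Fv : G → ℝ := fun v => ∑ χ : R, ∑ j : J, nn (v ^ (j : ℕ)) χ
  have hFv0 : ∀ v, 0 ≤ Fv v := fun v =>
    Finset.sum_nonneg fun χ _ => Finset.sum_nonneg fun j _ => norm_nonneg _
  have hFsum : ∑ᶠ (v : G) (_ : v ∈ V), Fv v =
      Fintype.card R * ((un ℓ a).card * (Nat.card V * ix V γ)) := by
    rw [sum_cond]
    show ∑ v : V, ∑ χ : R, ∑ j : J, nn ((v : G) ^ (j : ℕ)) χ = _
    rw [Finset.sum_comm]
    have h1 : ∀ χ : R, ∑ v : V, ∑ j : J, nn ((v : G) ^ (j : ℕ)) χ =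
        (un ℓ a).card * (Nat.card V * ix V γ) := by
      intro χ
      rw [Finset.sum_comm, Finset.sum_congr rfl fun j _ => htotj χ j, Finset.sum_const,
        Finset.card_univ, hJcard, nsmul_eq_mul]
    rw [Finset.sum_congr rfl fun χ _ => h1 χ, Finset.sum_const, Finset.card_univ, nsmul_eq_mul]
  obtain ⟨v₀, hv₀, hord, hpig⟩ := hPIG ℓ G V hL.ab a ha hexp W hWV hW1 Fv (fun v _ => hFv0 v)
  rw [hFsum, sum_cond] at hpig
  have hvz : ∀ z : W, v₀ * (z : G) ∈ V := fun z => V.mul_mem hv₀ (hWV z.2)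
  -- the good characters
  let S : R → ℝ := fun χ => ∑ z : W, ∑ j : J, nn ((v₀ * (z : G)) ^ (j : ℕ)) χ
  have hS0 : ∀ χ, 0 ≤ S χ := fun χ =>
    Finset.sum_nonneg fun z _ => Finset.sum_nonneg fun j _ => norm_nonneg _
  let B : ℝ := 2 * ix V γ * Nat.card W * (un ℓ a).card
  have hB : 0 < B := by
    show (0:ℝ) < 2 * ix V γ * Nat.card W * (un ℓ a).card
    have h1 : (0:ℝ) < ix V γ := by exact_mod_cast hixpos
    have h2 : (0:ℝ) < Nat.card W := by exact_mod_cast hWpos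
    have h3 : (0:ℝ) < (un ℓ a).card := by exact_mod_cast hmpos
    positivity
  have hSsum : ∑ χ, S χ ≤ Fintype.card R * B := by
    have h1 : ∑ χ : R, S χ = ∑ z : W, Fv (v₀ * z) := by
      show ∑ χ : R, ∑ z : W, ∑ j : J, nn ((v₀ * (z : G)) ^ (j : ℕ)) χ = _
      rw [Finset.sum_comm]
    rw [h1]
    have h2 : (0:ℝ) < Nat.card V := by exact_mod_cast hVpos
    apply le_of_mul_le_mul_right _ h2
    calc (∑ z : W, Fv (v₀ * z)) * (Nat.card V : ℝ) ≤ 2 * Nat.card W *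
          (Fintype.card R * ((un ℓ a).card * (Nat.card V * ix V γ))) := hpig
      _ = Fintype.card R * (2 * ix V γ * Nat.card W * (un ℓ a).card) * Nat.card V := by ring
  have hmk := markov S B hB hS0 hSsum
  let X := {χ : R // S χ ≤ 2 * B}
  -- the vectors
  have hQex : ∀ z : W, ∃ Q : Fin (ln (fun t : Cu (v₀ * (z : G)) => b (v₀ * z) t)) → G → ℂ,
      Os M ℓ (v₀ * z) (b (v₀ * z)) _ Q := by
    intro z
    obtain ⟨Q, h1, h2⟩ := hPGR ℓ M hM G (v₀ * z) (b (v₀ * z)) (hb _ (hvz z)).blk.ix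
    exact ⟨Q, h1, h2⟩
  choose Q hQ using hQex
  have hln : ∀ z : W, ln (fun t : Cu (v₀ * (z : G)) => b (v₀ * z) t) ≤ β := fun z =>
    hβ _ (hvz z) (hord z z.2) _ (hb _ (hvz z))
  let bb : J → W → X → Fin β → ℂ := fun j z χ =>
    vec ℓ V γ (v₀ * z) (b (v₀ * z)) _ β (Q z) ((v₀ * (z : G)) ^ (j : ℕ)) χ.1.1
  have hCj : ∀ (z : W) (j : J), Cu ((v₀ * (z : G)) ^ (j : ℕ)) = Cu (v₀ * (z : G)) := fun z j =>
    (hbp _ (hvz z) j (hJ j)).1
  have hbj : ∀ (z : W) (j : J), b ((v₀ * (z : G)) ^ (j : ℕ)) = b (v₀ * (z : G)) := fun z j =>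
    (hbp _ (hvz z) j (hJ j)).2
  have hgram : ∀ (j : J) (z : W) (χ χ' : X), ∑ k, bb j z χ k * starRingEnd ℂ (bb j z χ' k) =
      Mm M ℓ V γ ((v₀ * (z : G)) ^ (j : ℕ)) (b (v₀ * z)) χ.1.1 χ'.1.1 := by
    intro j z χ χ'
    exact vec_gram (hQ z) (hln z) (hCj z j) χ.1.2.1.1 χ'.1.2.1.1
  have hnorm : ∀ (j : J) (z : W) (χ : X), ∑ k, Complex.normSq (bb j z χ k) =
      ‖Mm M ℓ V γ ((v₀ * (z : G)) ^ (j : ℕ)) (b (v₀ * z)) χ.1.1 χ.1.1‖ := by
    intro j z χ
    apply vec_norm (hQ z) (hln z) (hCj z j) χ.1.2.1.1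
    have h1 := (hPSV ℓ M hM G e V γ hL ((v₀ * (z : G)) ^ (j : ℕ)) (V.pow_mem (hvz z) _)
      (b ((v₀ * (z : G)) ^ (j : ℕ))) (hb _ (V.pow_mem (hvz z) _))).1 χ.1.1
    rw [hbj z j] at h1
    exact h1
  -- the sum over J
  have hsumJ : ∀ f : ℕ → ℝ, ∑ j : J, f j = ∑ j ∈ un ℓ a, f j := fun f =>
    Finset.sum_coe_sort (un ℓ a) f
  have hinj : ∀ j : J, Function.Injective fun z : W => (v₀ * (z : G)) ^ (j : ℕ) := by
    intro j z z' hzz
    have hco : (Nat.card V).Coprime (j : ℕ) := by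
      obtain ⟨n, hn⟩ := IsPGroup.iff_card.1 hL.tp.pg
      rw [hn]
      exact Nat.Coprime.pow_left n ((Nat.Prime.coprime_iff_not_dvd hℓ).2 (hJ j))
    have h1 : (powCoprime hco) ⟨v₀ * z, hvz z⟩ = (powCoprime hco) ⟨v₀ * z', hvz z'⟩ :=
      Subtype.ext hzz
    have h2 := congrArg Subtype.val ((powCoprime hco).injective h1)
    exact Subtype.ext (mul_left_cancel h2)
  -- the first hypothesis of the averaging lemma
  have H1 : ∀ (j : J) (y : W → Fin β → ℂ),
      ∑ χ : X, Complex.normSq (∑ z, ∑ k, bb j z χ k * starRingEnd ℂ (y z k)) ≤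
        (ix V γ * Nat.card V : ℝ) * ∑ z, ∑ k, Complex.normSq (y z k) := by
    intro j y
    let pz : W → G := fun z => (v₀ * (z : G)) ^ (j : ℕ)
    let q : Finset G := Finset.univ.image pz
    let Yz : W → G → ℂ := fun z s =>
      ∑ i, (((Real.sqrt (am V γ (v₀ * z)) : ℝ) : ℂ) * y z (Fin.castLE (hln z) i)) * Q z i s
    let Y : G → G → ℂ := fun u s => ∑ z : W, if pz z = u then Yz z s else 0
    have hY : ∀ (z : W) s, Y ((v₀ * (z : G)) ^ (j : ℕ)) s = Yz z s := by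
      intro z s
      show ∑ z' : W, (if pz z' = pz z then Yz z' s else 0) = _
      rw [Finset.sum_eq_single z]
      · rw [if_pos rfl]
      · intro z' _ hz'
        exact if_neg fun h => hz' (hinj j h)
      · intro h
        exact absurd (Finset.mem_univ _) h
    have hqV : ∀ v ∈ q, v ∈ V := by
      intro v hv
      obtain ⟨z, -, rfl⟩ := Finset.mem_image.1 hv
      exact V.pow_mem (hvz z) _
    have hbsl := hBSL ℓ M hM G e V γ hL q hqV b (fun v hv => hb v (hqV v hv)) Y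
    let T : (G → ℂ) → ℝ := fun χ => Complex.normSq (∑ v ∈ q, (Nat.card (Cu v) : ℂ)⁻¹ *
      ∑ᶠ (s : G) (_ : s ∈ Cu v ∧ Reg ℓ s),
        gv M (Cu v) (v * s) (b v) χ * starRingEnd ℂ (Y v s))
    have hT : ∀ χ : X, T χ.1.1 =
        Complex.normSq (∑ z, ∑ k, bb j z χ k * starRingEnd ℂ (y z k)) := by
      intro χ
      show Complex.normSq _ = _
      congr 1
      rw [Finset.sum_image fun z _ z' _ h => hinj j h]
      refine Finset.sum_congr rfl fun z _ => ?_
      show _ = ∑ k, vec ℓ V γ (v₀ * z) (b (v₀ * z)) _ β (Q z) ((v₀ * (z : G)) ^ (j : ℕ)) χ.1.1 k *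
        starRingEnd ℂ (y z k)
      rw [vec_pair (hln z)]
      simp only [hY]
      show (Nat.card (Cu ((v₀ * (z : G)) ^ (j : ℕ))) : ℂ)⁻¹ *
        ∑ᶠ (s : G) (_ : s ∈ Cu ((v₀ * (z : G)) ^ (j : ℕ)) ∧ Reg ℓ s),
        gv M (Cu ((v₀ * (z : G)) ^ (j : ℕ))) ((v₀ * (z : G)) ^ (j : ℕ) * s)
          (b ((v₀ * (z : G)) ^ (j : ℕ))) χ.1.1 * starRingEnd ℂ (Yz z s) = _
      rw [hCj z j, hbj z j]
    have hTsum : ∑ χ : X, T χ.1.1 ≤ ∑ᶠ χ ∈ Irr G, T χ := by
      rw [finsum_mem_eq_finite_toFinset_sum T irr_finite']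
      have h1 : ∑ χ : X, T χ.1.1 = ∑ χ ∈ Finset.univ.image (fun χ : X => χ.1.1), T χ := by
        rw [Finset.sum_image]
        intro χ _ χ' _ h
        exact Subtype.ext (Subtype.ext h)
      rw [h1]
      apply Finset.sum_le_sum_of_subset_of_nonneg
      · intro χ hχ
        obtain ⟨χ', -, rfl⟩ := Finset.mem_image.1 hχ
        exact (Set.Finite.mem_toFinset _).2 χ'.1.2.1.1
      · intro χ _ _
        exact Complex.normSq_nonneg _
    have hR : ∑ v ∈ q, ((((Subgroup.centralizer (V : Set G)).relIndex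
          (Tg V γ ⊓ Cu v) : ℕ) : ℝ))⁻¹ * ((Nat.card (Cu v) : ℝ)⁻¹ *
          ∑ᶠ (s : G) (_ : s ∈ Cu v ∧ Reg ℓ s), Complex.normSq (Y v s)) ≤
        ∑ z, Nat.card V * ∑ k, Complex.normSq (y z k) := by
      rw [Finset.sum_image fun z _ z' _ h => hinj j h]
      refine Finset.sum_le_sum fun z _ => ?_
      have h1 := vec_rhs (V := V) (γ := γ) (hQ z) (hln z) (y z)
      simp only [hY]
      show ((((Subgroup.centralizer (V : Set G)).relIndex
          (Tg V γ ⊓ Cu ((v₀ * (z : G)) ^ (j : ℕ))) : ℕ) : ℝ))⁻¹ *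
          ((Nat.card (Cu ((v₀ * (z : G)) ^ (j : ℕ))) : ℝ)⁻¹ *
          ∑ᶠ (s : G) (_ : s ∈ Cu ((v₀ * (z : G)) ^ (j : ℕ)) ∧ Reg ℓ s),
            Complex.normSq (Yz z s)) ≤ _
      rw [hCj z j]
      exact h1
    rw [Finset.sum_congr rfl fun χ _ => (hT χ).symm]
    calc ∑ χ : X, T χ.1.1 ≤ ∑ᶠ χ ∈ Irr G, T χ := hTsum
      _ ≤ ix V γ * ∑ v ∈ q, ((((Subgroup.centralizer (V : Set G)).relIndex
          (Tg V γ ⊓ Cu v) : ℕ) : ℝ))⁻¹ * ((Nat.card (Cu v) : ℝ)⁻¹ *
          ∑ᶠ (s : G) (_ : s ∈ Cu v ∧ Reg ℓ s), Complex.normSq (Y v s)) := hbsl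
      _ ≤ ix V γ * ∑ z, Nat.card V * ∑ k, Complex.normSq (y z k) :=
          mul_le_mul_of_nonneg_left hR (Nat.cast_nonneg _)
      _ = _ := by rw [← Finset.mul_sum, mul_assoc]
  -- the second one
  have H2 : ∀ (z : W) (χ : X),
      (Fintype.card J : ℝ) ≤ ∑ j, Real.sqrt (∑ k, Complex.normSq (bb j z χ k)) := by
    intro z χ
    rw [Finset.sum_congr rfl fun j _ => by rw [hnorm j z χ], hJcard]
    rw [hsumJ fun j => Real.sqrt ‖Mm M ℓ V γ ((v₀ * (z : G)) ^ j) (b (v₀ * z)) χ.1.1 χ.1.1‖]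
    exact hGEO ℓ M hM G e V γ hL (v₀ * z) (hvz z) (b (v₀ * z)) (hb _ (hvz z)) a ha
      (hpow _ (hvz z)) χ.1.1 χ.1.2.1
  -- the third one
  have H3 : ∀ χ : X, ∑ z, ∑ j, ∑ k, Complex.normSq (bb j z χ k) ≤
      4 * (ix V γ : ℝ) * Fintype.card W * Fintype.card J := by
    intro χ
    have h1 : ∑ z, ∑ j, ∑ k, Complex.normSq (bb j z χ k) = S χ.1 := by
      refine Finset.sum_congr rfl fun z _ => Finset.sum_congr rfl fun j _ => ?_
      rw [hnorm j z χ]
      show _ = ‖Mm M ℓ V γ ((v₀ * (z : G)) ^ (j : ℕ)) (b ((v₀ * (z : G)) ^ (j : ℕ))) χ.1.1 χ.1.1‖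
      rw [hbj z j]
    rw [h1, hJcard]
    calc S χ.1 ≤ 2 * (2 * ix V γ * Nat.card W * (un ℓ a).card) := χ.2
      _ = 4 * (ix V γ : ℝ) * Fintype.card W * (un ℓ a).card := by
          rw [Nat.card_eq_fintype_card]; ring
  -- the fourth one
  have h2K : 2 * (256 * (ix V γ : ℝ) ^ 2) < (ℓ : ℝ) ^ c := by
    have h1 : ((512 * ix V γ ^ 2 : ℕ) : ℝ) < ((ℓ ^ c : ℕ) : ℝ) := by exact_mod_cast hc
    push_cast at h1
    linarith
  have H4 : ∀ (z z' : W) (χ χ' : X),
      ∑ j, ∑ k, Complex.normSq (bb j z χ k) ≤ 256 * (ix V γ : ℝ) ^ 2 * Fintype.card J →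
      ∑ j, ∑ k, Complex.normSq (bb j z χ' k) ≤ 256 * (ix V γ : ℝ) ^ 2 * Fintype.card J →
      ∑ j, ∑ k, Complex.normSq (bb j z' χ k) ≤ 256 * (ix V γ : ℝ) ^ 2 * Fintype.card J →
      ∑ j, ∑ k, Complex.normSq (bb j z' χ' k) ≤ 256 * (ix V γ : ℝ) ^ 2 * Fintype.card J →
      ∀ j, ∑ k, bb j z χ k * starRingEnd ℂ (bb j z χ' k) =
        ∑ k, bb j z' χ k * starRingEnd ℂ (bb j z' χ' k) := by
    intro z z' χ χ' k1 k2 k3 k4 j
    have hcv : ∀ (z : W) (χ : X),
        ∑ j, ∑ k, Complex.normSq (bb j z χ k) ≤ 256 * (ix V γ : ℝ) ^ 2 * Fintype.card J →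
        ∑ j ∈ un ℓ a, ‖Mm M ℓ V γ ((v₀ * (z : G)) ^ j) (b (v₀ * z)) χ.1.1 χ.1.1‖ ≤
          256 * (ix V γ : ℝ) ^ 2 * (un ℓ a).card := by
      intro z χ h
      rw [hJcard, Finset.sum_congr rfl fun j _ => hnorm j z χ,
        hsumJ fun j => ‖Mm M ℓ V γ ((v₀ * (z : G)) ^ j) (b (v₀ * z)) χ.1.1 χ.1.1‖] at h
      exact h
    have hzz : (z : G)⁻¹ * z' ∈ W := W.mul_mem (W.inv_mem z.2) z'.2
    have hvv : v₀ * (z : G) * ((z : G)⁻¹ * z') = v₀ * z' := by group
    have h := hEQM ℓ M hM G N hN e V γ hL c a ha (256 * (ix V γ : ℝ) ^ 2) h2K (v₀ * z) (hvz z)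
      (hpow _ (hvz z)) ((z : G)⁻¹ * z') hzz (hpow _ (hWV hzz))
    rw [hvv] at h
    have h' := h (b (v₀ * z)) (b (v₀ * z')) (hb _ (hvz z)) (hb _ (hvz z')) χ.1.1 χ.1.2 χ'.1.1
      χ'.1.2 (hcv z χ k1) (hcv z χ' k2) (hcv z' χ k3) (hcv z' χ' k4) j (hJ j)
    rw [hgram, hgram, h']
  have havg := hAVG X W J β bb (ix V γ : ℝ) (ix V γ * Nat.card V : ℝ)
    (by exact_mod_cast hixpos) (by positivity) H1 H2 H3 H4
  -- the conclusion
  have hRc : (T5.Rf M N e).ncard = Fintype.card R := by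
    rw [← Nat.card_coe_set_eq, Nat.card_eq_fintype_card]
  have hXc : (Nat.card {x : R // S x ≤ 2 * B} : ℝ) = Fintype.card X := by
    rw [Nat.card_eq_fintype_card]
  rw [hXc] at hmk
  rw [hRc]
  have hfin : ((Fintype.card R * Nat.card W : ℕ) : ℝ) ≤ ((8 * β * ix V γ * Nat.card V : ℕ) : ℝ) := by
    push_cast
    rw [Nat.card_eq_fintype_card (α := W)]
    calc (Fintype.card R : ℝ) * Fintype.card W ≤ (2 * Fintype.card X) * Fintype.card W :=
          mul_le_mul_of_nonneg_right hmk (Nat.cast_nonneg _)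
      _ = 2 * (Fintype.card X * Fintype.card W) := by ring
      _ ≤ 2 * (4 * β * (ix V γ * Nat.card V)) := by
          exact mul_le_mul_of_nonneg_left havg (by norm_num)
      _ = _ := by ring
  exact_mod_cast hfin

end Pool.Agent.PP.T6.H41
end
end -- Pool.Agent.Helper41_AT6.FBD
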