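import Pool.Agent.Helper12_AWB.B122
import Pool.Agent.Helper12_AWB.B146
import Pool.Agent.Helper12_AWB.B167
import Pool.Agent.Helper12_AWB.B181

/-!
# Merged copies (generated) of the modules

* `Pool.Agent.Helper37_AT8.FOR`
* `Pool.Agent.Helper6_AT8.CMB`
* `Pool.Agent.Helper6_AT8.LFR`
* `Pool.Agent.Helper76_AT8.Lin`
* `Pool.Agent.Helper76_AT8.FKL`
* `Pool.Agent.Helper56_AT12.LinA`
* `Pool.Agent.Helper56_AT12.ANN`
* `Pool.Agent.Helper56_AT12.STF1`
* `Pool.Agent.Helper56_AT12.STF2`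
* `Pool.Agent.Helper56_AT12.STF3`
* `Pool.Agent.Helper56_AT12.STF4`
* `Pool.Agent.Helper56_AT12.STF`
* `Pool.Agent.Helper77_AT12.CMS`
-/

set_option autoImplicit false

section -- Pool.Agent.Helper37_AT8.FOR

/-!
# Squad AT8, row FOR: representatives of the orbits
-/

open scoped BigOperators

noncomputable section

namespace Pool.Agent.PP.T8.H37

open Pool.Agent.Helper51_AWC Pool.Agent.Helper79_WRA Pool.Agent.PP Pool.Agent.PP.KF
open Pool.Agent.PP.K9 Pool.Agent.PP.K9.H97 Pool.Agent.PP.H75 Pool.Agent.PP.T3 Pool.Agent.PP.T2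

attribute [local instance] Ideal.Quotient.field

theorem for_cnt {T X : Type} [Group T] [Finite T] [Finite X] [MulAction T X] (K : Subgroup T)
    (h : ∀ x : X, MulAction.stabilizer T x = K) :
    Nat.card X = Nat.card (MulAction.orbitRel.Quotient T X) * K.index := by
  have e := MulAction.selfEquivSigmaOrbitsQuotientStabilizer T X
  have e' : X ≃ MulAction.orbitRel.Quotient T X × (T ⧸ K) :=
    e.trans ((Equiv.sigmaCongrRight fun ω => Quotient.congrRight (fun a b => by
      rw [h])).trans (Equiv.sigmaEquivProd _ _))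
  rw [Nat.card_congr e', Nat.card_prod]
  rfl

theorem for_dual (V : Type) [CommGroup V] [Finite V] :
    Finite (V →* ℂ) ∧ Nat.card (V →* ℂ) = Nat.card V := by
  have e : (V →* ℂˣ) ≃ (V →* ℂ) :=
    { toFun := fun f => (Units.coeHom ℂ).comp f
      invFun := fun g => g.toHomUnits
      left_inv := by
        intro f
        ext v
        rfl
      right_inv := by
        intro g
        ext v
        rfl }
  have h1 : Nat.card (V →* ℂˣ) = Nat.card V :=
    CommGroup.card_monoidHom_of_hasEnoughRootsOfUnity V ℂ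
  have h2 : Nat.card (V →* ℂ) = Nat.card V := by rw [← Nat.card_congr e, h1]
  refine ⟨?_, h2⟩
  apply Nat.finite_of_card_ne_zero
  rw [h2]
  exact Nat.card_pos.ne'

theorem for_abs {V T : Type} [CommGroup V] [Finite V] [Group T] [Finite T] (φ : T →* MulAut V)
    (hf : ∀ t v, v ≠ 1 → φ t v = v → φ t = 1) :
    ∃ (m : ℕ) (u : Fin m → V) (lam : Fin m → (V →* ℂ)),
      (∀ i, u i ≠ 1) ∧ (∀ i j, i ≠ j → ∀ t, φ t (u i) ≠ u j) ∧
      (∀ i, ∃ v, lam i v ≠ 1) ∧ (∀ i j, i ≠ j → ∀ t, ¬ ∀ v, lam j v = lam i (φ t v)) ∧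
      ∀ mu : V →* ℂ, (∃ v, mu v ≠ 1) → ∃ i, ∃ t, ∀ v, mu v = lam i (φ t v) := by
  obtain ⟨hfin, hcard⟩ := for_dual V
  -- the two sets
  let X1 := {v : V // v ≠ 1}
  let X2 := {l : V →* ℂ // l ≠ 1}
  have c1 : Nat.card X1 = Nat.card V - 1 := by
    classical
    have i1 : Fintype V := Fintype.ofFinite V
    rw [Nat.card_eq_fintype_card, Nat.card_eq_fintype_card]
    exact Set.card_ne_eq _
  have c2 : Nat.card X2 = Nat.card (V →* ℂ) - 1 := by
    classical
    have i1 : Fintype (V →* ℂ) := Fintype.ofFinite _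
    rw [Nat.card_eq_fintype_card, Nat.card_eq_fintype_card]
    exact Set.card_ne_eq _
  let a1 : MulAction T X1 :=
    { smul := fun t v => ⟨φ t v, fun h => v.2 ((φ t).injective (h.trans (map_one (φ t)).symm))⟩
      one_smul := by
        intro v
        apply Subtype.ext
        change φ 1 (v : V) = v
        rw [map_one]
        rfl
      mul_smul := by
        intro s t v
        apply Subtype.ext
        change φ (s * t) (v : V) = φ s (φ t v)
        rw [map_mul]
        rfl }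
  have hne : ∀ (t : T) (l : V →* ℂ), l ≠ 1 → l.comp (φ t⁻¹).toMonoidHom ≠ 1 := by
    intro t l hl h
    apply hl
    ext v
    have h1 := DFunLike.congr_fun h (φ t v)
    change l (φ t⁻¹ (φ t v)) = 1 at h1
    have h2 : φ t⁻¹ (φ t v) = v := by
      change (φ t⁻¹ * φ t) v = v
      rw [← map_mul, inv_mul_cancel, map_one]
      rfl
    rw [h2] at h1
    exact h1
  let a2 : MulAction T X2 :=
    { smul := fun t l => ⟨(l : V →* ℂ).comp (φ t⁻¹).toMonoidHom, hne t l l.2⟩
      one_smul := by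
        intro l
        apply Subtype.ext
        ext v
        change (l : V →* ℂ) (φ 1⁻¹ v) = (l : V →* ℂ) v
        rw [inv_one, map_one]
        rfl
      mul_smul := by
        intro s t l
        apply Subtype.ext
        ext v
        change (l : V →* ℂ) (φ (s * t)⁻¹ v) = (l : V →* ℂ) (φ t⁻¹ (φ s⁻¹ v))
        rw [mul_inv_rev, map_mul]
        rfl }
  have hs1 : ∀ (t : T) (v : X1), ((t • v : X1) : V) = φ t v := fun t v => rfl
  have hs2 : ∀ (t : T) (l : X2) (v : V), ((t • l : X2) : V →* ℂ) v = (l : V →* ℂ) (φ t⁻¹ v) :=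
    fun t l v => rfl
  have st1 : ∀ x : X1, MulAction.stabilizer T x = φ.ker := by
    intro x
    ext t
    rw [MulAction.mem_stabilizer_iff, MonoidHom.mem_ker]
    constructor
    · intro h
      exact hf t x x.2 (by rw [← hs1, h])
    · intro h
      apply Subtype.ext
      rw [hs1, h]
      rfl
  have st2 : ∀ x : X2, MulAction.stabilizer T x = φ.ker := by
    intro x
    ext t
    rw [MulAction.mem_stabilizer_iff, MonoidHom.mem_ker]
    constructor
    · intro h
      by_contra hc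
      apply x.2
      have hi : ∀ v, φ t⁻¹ v = v → v = 1 := by
        intro v hv
        by_contra hv1
        have h1 := hf t⁻¹ v hv1 hv
        apply hc
        rw [map_inv, inv_eq_one] at h1
        exact h1
      let f : V →* V :=
        { toFun := fun v => φ t⁻¹ v * v⁻¹
          map_one' := by simp
          map_mul' := by
            intro a b
            rw [map_mul, mul_inv]
            exact mul_mul_mul_comm _ _ _ _ }
      have hinj : Function.Injective f := by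
        rw [injective_iff_map_eq_one]
        intro v hv
        apply hi
        change φ t⁻¹ v * v⁻¹ = 1 at hv
        exact mul_inv_eq_one.1 hv
      have hsur : Function.Surjective f := Finite.injective_iff_surjective.1 hinj
      ext w
      obtain ⟨v, rfl⟩ := hsur w
      change (x : V →* ℂ) (φ t⁻¹ v * v⁻¹) = 1
      have h2 : (x : V →* ℂ) (φ t⁻¹ v) = (x : V →* ℂ) v := by rw [← hs2, h]
      rw [map_mul, h2, ← map_mul, mul_inv_cancel, map_one]
    · intro h
      apply Subtype.ext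
      ext v
      rw [hs2, map_inv, h, inv_one]
      rfl
  have hq : Nat.card (MulAction.orbitRel.Quotient T X1) =
      Nat.card (MulAction.orbitRel.Quotient T X2) := by
    have h1 := for_cnt φ.ker st1
    have h2 := for_cnt φ.ker st2
    rw [c1] at h1
    rw [c2, hcard] at h2
    rw [h1] at h2
    exact Nat.eq_of_mul_eq_mul_right (Nat.pos_of_ne_zero Subgroup.index_ne_zero_of_finite) h2
  let e1 := Finite.equivFin (MulAction.orbitRel.Quotient T X1)
  let e2 := (Finite.equivFin (MulAction.orbitRel.Quotient T X2)).trans (finCongr hq.symm)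
  have ho1 : ∀ i, Quotient.mk _ (e1.symm i).out = e1.symm i := fun i => Quotient.out_eq' _
  have ho2 : ∀ i, Quotient.mk _ (e2.symm i).out = e2.symm i := fun i => Quotient.out_eq' _
  refine ⟨Nat.card (MulAction.orbitRel.Quotient T X1), fun i => (e1.symm i).out.1,
    fun i => (e2.symm i).out.1, fun i => (e1.symm i).out.2, ?_, ?_, ?_, ?_⟩
  · intro i j hij t h
    apply hij
    apply e1.symm.injective
    rw [← ho1 i, ← ho1 j]
    symm
    apply Quotient.sound'
    exact ⟨t, Subtype.ext h⟩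
  · intro i
    by_contra hc
    apply (e2.symm i).out.2
    ext v
    by_contra hv
    exact hc ⟨v, hv⟩
  · intro i j hij t h
    apply hij
    apply e2.symm.injective
    rw [← ho2 i, ← ho2 j]
    symm
    apply Quotient.sound'
    refine ⟨t⁻¹, Subtype.ext ?_⟩
    ext v
    rw [h v]
    change (((t⁻¹ • (e2.symm i).out : X2)) : V →* ℂ) v = _
    rw [hs2, inv_inv]
  · rintro mu ⟨v0, hv0⟩
    have hm : mu ≠ 1 := by
      intro h
      apply hv0
      rw [h]
      rfl
    let x : X2 := ⟨mu, hm⟩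
    refine ⟨e2 (Quotient.mk _ x), ?_⟩
    have h1 : Quotient.mk _ (e2.symm (e2 (Quotient.mk _ x))).out = (Quotient.mk _ x :
      MulAction.orbitRel.Quotient T X2) := by rw [ho2, Equiv.symm_apply_apply]
    have h2 := Quotient.exact h1.symm
    obtain ⟨t, ht⟩ := h2
    refine ⟨t⁻¹, fun v => ?_⟩
    have h6 := congrArg (fun z : X2 => (z : V →* ℂ) v) ht
    exact h6.symm

theorem for_ : ForStmt := by
  intro ℓ _ F _ hF G _ _ e V γ h hfr
  let cV : CommGroup V :=
    { (inferInstance : Group V) with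
      mul_comm := fun a b => Subtype.ext (h.ab a a.2 b b.2) }
  have hc : ∀ t ∈ Tg V γ, ∀ v ∈ V, t * v * t⁻¹ ∈ V := fun t ht v hv =>
    (Subgroup.mem_normalizer_iff.1 (Subgroup.mem_inf.1 ht).1 v).1 hv
  let φ : Tg V γ →* MulAut V :=
    (Subgroup.normalizerMonoidHom V).comp (Subgroup.inclusion inf_le_left)
  have hφ : ∀ (t : Tg V γ) (v : V), ((φ t v : V) : G) = t * v * (t : G)⁻¹ := fun t v => rfl
  have hφ1 : ∀ t : Tg V γ, (t : G) ∈ Subgroup.centralizer (V : Set G) → φ t = 1 := by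
    intro t ht
    ext v
    rw [hφ]
    have h1 := Subgroup.mem_centralizer_iff.1 ht v v.2
    rw [← h1]
    change (v : G) * t * (t : G)⁻¹ = v
    group
  obtain ⟨m, u, lam, h1, h2, h3, h4, h5⟩ := for_abs φ (by
    intro t v hv htv
    apply hφ1
    have hv' : (v : G) ≠ 1 := fun h0 => hv (Subtype.ext h0)
    refine hfr t t.2 v v.2 hv' ?_
    have h0 := congrArg (fun w : V => (w : G)) htv
    change ((φ t v : V) : G) = v at h0
    rw [hφ] at h0
    exact mul_inv_eq_iff_eq_mul.1 h0)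
  refine ⟨m, fun i => (u i : G), lam, fun i => ⟨(u i).2, fun h0 => h1 i (Subtype.ext h0)⟩, ?_, h3,
    ?_, ?_⟩
  · intro i j hij t ht h0
    apply h2 i j hij ⟨t, ht⟩
    apply Subtype.ext
    rw [hφ]
    exact h0
  · intro i j hij t ht h0
    apply h4 i j hij ⟨t, ht⟩
    intro v
    exact h0 v (φ ⟨t, ht⟩ v) (hφ _ _)
  · intro mu hmu
    obtain ⟨i, t, hit⟩ := h5 mu hmu
    refine ⟨i, t, t.2, fun v w hvw => ?_⟩
    rw [hit v]
    congr 1
    apply Subtype.ext
    rw [hφ, hvw]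

end Pool.Agent.PP.T8.H37
end
end -- Pool.Agent.Helper37_AT8.FOR

section -- Pool.Agent.Helper6_AT8.CMB

/-! Squad AT8, row CMB: integral vectors with Gram matrix `1 + n J`.

For a nonzero integral vector `x` with `m` entries, `(m + 1) |x|² - (∑ x)² ≥ m` (Cauchy-Schwarz on the
support); add this over the columns. -/

open scoped BigOperators

namespace Pool.Agent.PP.T8.H6

theorem key {ι : Type} [Fintype ι] (x : ι → ℤ) (hx : ∃ i, x i ≠ 0) :
    (Fintype.card ι : ℤ) ≤ (Fintype.card ι + 1) * ∑ i, x i * x i - (∑ i, x i) ^ 2 := by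
  classical
  set A : Finset ι := Finset.univ.filter (fun i => x i ≠ 0) with hA
  have h1 : ∑ i, x i = ∑ i ∈ A, x i := (Finset.sum_filter_ne_zero _).symm
  have h2 : ∑ i, x i * x i = ∑ i ∈ A, x i ^ 2 := by
    rw [hA, Finset.sum_filter]
    refine Finset.sum_congr rfl fun i _ => ?_
    split_ifs with h
    · rw [sq]
    · have h0 : x i = 0 := not_not.1 h
      rw [h0, mul_zero]
  have h3 : (∑ i ∈ A, x i) ^ 2 ≤ A.card * ∑ i ∈ A, x i ^ 2 := sq_sum_le_card_mul_sum_sq
  have h4 : (A.card : ℤ) ≤ ∑ i ∈ A, x i ^ 2 := by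
    rw [Finset.card_eq_sum_ones]
    push_cast
    refine Finset.sum_le_sum fun i hi => ?_
    have h0 : x i ≠ 0 := (Finset.mem_filter.1 hi).2
    have : 0 < x i ^ 2 := by positivity
    linarith
  have h5 : 1 ≤ A.card := by
    obtain ⟨i, hi⟩ := hx
    exact Finset.card_pos.2 ⟨i, by simp [hA, hi]⟩
  have h6 : A.card ≤ Fintype.card ι := Finset.card_le_univ A
  have h5' : (1 : ℤ) ≤ A.card := by exact_mod_cast h5
  have h6' : (A.card : ℤ) ≤ Fintype.card ι := by exact_mod_cast h6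
  rw [h1, h2]
  nlinarith [mul_nonneg (sub_nonneg.2 h5') (sub_nonneg.2 h6'),
    mul_nonneg (sub_nonneg.2 h4) (by linarith : (0 : ℤ) ≤ Fintype.card ι + 1 - A.card)]

theorem cmb : CmbStmt := by
  intro ι κ _ _ c n h1 h2 h3
  classical
  rcases isEmpty_or_nonempty ι with hι | hι
  · have : IsEmpty κ := ⟨fun k => by obtain ⟨i, _⟩ := h3 k; exact hι.elim i⟩
    simp
  have hm : (0 : ℤ) < Fintype.card ι := by exact_mod_cast Fintype.card_pos
  have h4 : ∑ k : κ, (Fintype.card ι : ℤ) ≤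
      ∑ k, ((Fintype.card ι + 1) * ∑ i, c i k * c i k - (∑ i, c i k) ^ 2) :=
    Finset.sum_le_sum fun k _ => key (fun i => c i k) (h3 k)
  have h5 : ∑ k, ∑ i, c i k * c i k = (Fintype.card ι : ℤ) * (1 + n) := by
    rw [Finset.sum_comm, Finset.sum_congr rfl (fun i _ => h1 i)]
    simp
  have h6 : ∑ k, (∑ i, c i k) ^ 2 =
      (Fintype.card ι : ℤ) + n * (Fintype.card ι : ℤ) ^ 2 := by
    have h7 : ∀ k, (∑ i, c i k) ^ 2 = ∑ i, ∑ j, c i k * c j k := by
      intro k
      rw [sq, Finset.sum_mul_sum]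
    rw [Finset.sum_congr rfl (fun k _ => h7 k), Finset.sum_comm]
    have h8 : ∀ i, ∑ k, ∑ j, c i k * c j k = 1 + n * (Fintype.card ι : ℤ) := by
      intro i
      rw [Finset.sum_comm]
      have h9 : ∀ j, ∑ k, c i k * c j k = (if i = j then 1 else 0) + n := by
        intro j
        split_ifs with h
        · rw [← h]
          exact h1 i
        · rw [zero_add]
          exact h2 i j h
      rw [Finset.sum_congr rfl (fun j _ => h9 j), Finset.sum_add_distrib]
      simp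
      ring
    rw [Finset.sum_congr rfl (fun i _ => h8 i)]
    simp
    ring
  rw [Finset.sum_sub_distrib, ← Finset.mul_sum, h5, h6, Finset.sum_const, Finset.card_univ,
    nsmul_eq_mul] at h4
  have h10 : (Fintype.card κ : ℤ) * Fintype.card ι ≤
      ((Fintype.card ι : ℤ) + n) * Fintype.card ι := by
    refine h4.trans (le_of_eq ?_)
    ring
  have h11 := le_of_mul_le_mul_right h10 hm
  exact_mod_cast h11

end Pool.Agent.PP.T8.H6
end -- Pool.Agent.Helper6_AT8.CMB

section -- Pool.Agent.Helper6_AT8.LFR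

/-! Squad AT8, row LFR: the bound `l(e) ≤ |E|` for free inertial quotients. -/

open scoped BigOperators

noncomputable section

namespace Pool.Agent.PP.T8.H6

open Pool.Agent.Helper51_AWC Pool.Agent.Helper79_WRA Pool.Agent.PP Pool.Agent.PP.KF
open Pool.Agent.PP.K9 Pool.Agent.PP.K9.H97 Pool.Agent.PP.H75 Pool.Agent.PP.T3 Pool.Agent.PP.T2

attribute [local instance] Ideal.Quotient.field

theorem lfr (pr2 : T2.Pr2Stmt) (dat : DatStmt) (fni : FniStmt) (fnz : FnzStmt) (fgr : FgrStmt)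
    (fkl : FklStmt) (for_ : ForStmt) : LfrStmt := by
  intro ℓ hℓ M _ hM h2 G _ _ e V γ hL hV hF
  classical
  obtain ⟨N, hN⟩ := pr2 ℓ h2 G
  obtain ⟨b, d, c, ε, hD⟩ := dat ℓ M hM G e V γ hL
  have hGF : GoodF ℓ (FF M) := H50.fld ℓ Fact.out M hM
  obtain ⟨m, u, lam, hu, huo, hl, hlo, hall⟩ := for_ ℓ (FF M) hGF G e V γ hL hF
  obtain ⟨z1, z2, z3⟩ := fnz ℓ M hM h2 G e V γ b d c ε hD hF
  have hfin : (IrrE M e).Finite := T3.H49.irrE_fin M e
  have : Finite (IrrE M e) := hfin.to_subtype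
  have : Fintype (IrrE M e) := Fintype.ofFinite _
  have hint : ∀ (i : Fin m) (χ : IrrE M e), ∃ n : ℤ, cl M V b d ε (lam i) χ = n := fun i χ =>
    fni ℓ M hM h2 G N hN e V γ b d c ε hD hF χ χ.2.1 (lam i)
  choose C hC using hint
  have hsum : ∀ i j, ∑ᶠ χ ∈ Irr G, cl M V b d ε (lam i) χ *
      starRingEnd ℂ (cl M V b d ε (lam j) χ) = ((∑ χ : IrrE M e, C i χ * C j χ : ℤ) : ℂ) := by
    intro i j
    have h3 : ∑ᶠ χ ∈ Irr G, cl M V b d ε (lam i) χ *
        starRingEnd ℂ (cl M V b d ε (lam j) χ) = ∑ᶠ χ ∈ IrrE M e, cl M V b d ε (lam i) χ *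
        starRingEnd ℂ (cl M V b d ε (lam j) χ) := by
      refine finsum_congr fun χ => ?_
      rw [finsum_eq_if, finsum_eq_if]
      by_cases hχ : χ ∈ Irr G
      · by_cases hχe : χ ∈ IrrE M e
        · rw [if_pos hχ, if_pos hχe]
        · rw [if_pos hχ, if_neg hχe, z3 (lam i) χ hχ hχe, zero_mul]
      · rw [if_neg hχ, if_neg (fun h => hχ h.1)]
    rw [h3, T3.H49.finsum_mem_fintype]
    push_cast
    refine Finset.sum_congr rfl fun χ _ => ?_
    rw [hC, hC]
    simp
  have h4 := cmb (Fin m) (IrrE M e) C (ix V γ) ?_ ?_ ?_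
  · have h5 := fkl ℓ M hM G e V γ b d c ε hD (Fin m) u ?_ huo
    · rw [Fintype.card_fin] at h4 h5
      have h6 : (IrrE M e).ncard = Fintype.card (IrrE M e) := by
        rw [← Nat.card_coe_set_eq, Nat.card_eq_fintype_card]
      rw [h6] at h5
      omega
    · intro i
      refine ⟨(hu i).1, (hu i).2, ?_⟩
      intro t ht
      obtain ⟨ht1, ht2⟩ := Subgroup.mem_inf.1 ht
      exact hF t ht1 (u i) (hu i).1 (hu i).2 (Subgroup.mem_centralizer_singleton_iff.1 ht2)
  · intro i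
    have h6 := (fgr ℓ M hM h2 G e V γ b d c ε hD hF (lam i) (lam i) (hl i) (hl i)).1 rfl
    rw [hsum i i] at h6
    exact_mod_cast h6
  · intro i j hij
    have h6 := (fgr ℓ M hM h2 G e V γ b d c ε hD hF (lam i) (lam j) (hl i) (hl j)).2
      (hlo j i (Ne.symm hij))
    rw [hsum i j] at h6
    exact_mod_cast h6
  · intro χ
    obtain ⟨mu, hmu, hne⟩ := z2 hV χ χ.2
    obtain ⟨i, t, ht, htc⟩ := hall mu hmu
    refine ⟨i, ?_⟩
    intro h0
    apply hne
    rw [z1 t ht (lam i) mu htc χ χ.2.1, hC, h0, Int.cast_zero]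

end Pool.Agent.PP.T8.H6
end
end -- Pool.Agent.Helper6_AT8.LFR

section -- Pool.Agent.Helper76_AT8.Lin

/-!
# Squad AT8, row FKL: linear algebra
-/

open scoped BigOperators

noncomputable section

namespace Pool.Agent.PP.T8.H76

/-- an idempotent matrix of trace `n` and independent vectors in its kernel -/
theorem rank_ker {κ ι : Type} [Fintype κ] [DecidableEq κ] [Fintype ι] (R : Matrix κ κ ℂ)
    (hR : R * R = R) (n : ℕ) (htr : R.trace = n) (w : ι → κ → ℂ) (hw : ∀ i, R.mulVec (w i) = 0)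
    (hli : LinearIndependent ℂ w) : n + Fintype.card ι ≤ Fintype.card κ := by
  obtain ⟨f, hf⟩ : ∃ f : (κ → ℂ) →ₗ[ℂ] (κ → ℂ), f = Matrix.toLin' R := ⟨_, rfl⟩
  have h1 : IsIdempotentElem f := by
    unfold IsIdempotentElem
    rw [hf, Module.End.mul_eq_comp, ← Matrix.toLin'_mul, hR]
  have h2 := (LinearMap.isProj_range_iff_isIdempotentElem f).2 h1
  have h3 : LinearMap.trace ℂ (κ → ℂ) f = (Module.finrank ℂ (LinearMap.range f) : ℂ) := h2.trace
  have h4 : LinearMap.trace ℂ (κ → ℂ) f = R.trace := by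
    rw [hf, Matrix.trace_toLin'_eq]
  have h5 : n = Module.finrank ℂ (LinearMap.range f) := by
    have h6 : (n : ℂ) = (Module.finrank ℂ (LinearMap.range f) : ℂ) := by
      rw [← h3, h4, htr]
    exact_mod_cast h6
  have h6 := LinearMap.finrank_range_add_finrank_ker f
  rw [Module.finrank_fintype_fun_eq_card] at h6
  have h7 : ∀ i, w i ∈ LinearMap.ker f := by
    intro i
    rw [LinearMap.mem_ker, hf, Matrix.toLin'_apply, hw]
  have h8 : LinearIndependent ℂ (fun i => (⟨w i, h7 i⟩ : LinearMap.ker f)) := by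
    apply LinearIndependent.of_comp (LinearMap.ker f).subtype
    exact hli
  have h9 := h8.fintype_card_le_finrank
  omega

/-- orthogonal vectors which are not zero are independent -/
theorem li_of_orth {κ ι : Type} [Fintype κ] [Fintype ι] (w : ι → κ → ℂ) (N : ℂ) (hN : N ≠ 0)
    (h1 : ∀ i, ∑ k, w i k * starRingEnd ℂ (w i k) = N)
    (h2 : ∀ i j, i ≠ j → ∑ k, w i k * starRingEnd ℂ (w j k) = 0) : LinearIndependent ℂ w := by
  classical
  rw [Fintype.linearIndependent_iff]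
  intro a ha j
  have h3 : ∑ i, a i * ∑ k, w i k * starRingEnd ℂ (w j k) = 0 := by
    have h4 : ∑ i, a i * ∑ k, w i k * starRingEnd ℂ (w j k) =
        ∑ k, (∑ i, a i • w i) k * starRingEnd ℂ (w j k) := by
      simp only [Finset.mul_sum, Finset.sum_apply, Pi.smul_apply, smul_eq_mul, Finset.sum_mul]
      rw [Finset.sum_comm]
      exact Finset.sum_congr rfl fun k _ => Finset.sum_congr rfl fun i _ => by ring
    rw [h4, ha]
    simp
  rw [Finset.sum_eq_single j] at h3
  · rw [h1] at h3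
    exact (mul_eq_zero.1 h3).resolve_right hN
  · intro i _ hij
    rw [h2 i j hij, mul_zero]
  · intro h
    exact absurd (Finset.mem_univ _) h

end Pool.Agent.PP.T8.H76
end
end -- Pool.Agent.Helper76_AT8.Lin

section -- Pool.Agent.Helper76_AT8.FKL

/-!
# Squad AT8, row FKL: the number of ordinary and of modular characters
-/

open scoped BigOperators

noncomputable section

namespace Pool.Agent.PP.T8.H76

open Pool.Agent.Helper51_AWC Pool.Agent.Helper79_WRA Pool.Agent.PP Pool.Agent.PP.KF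
open Pool.Agent.PP.K9 Pool.Agent.PP.K9.H97 Pool.Agent.PP.H75 Pool.Agent.PP.T3 Pool.Agent.PP.T2

attribute [local instance] Ideal.Quotient.field

/-- an `ℓ`-element `≠ 1` times a commuting regular element is singular -/
theorem sing_mul {ℓ : ℕ} [Fact ℓ.Prime] {H : Type} [Group H] {u c : H} (h1 : u ≠ 1)
    (hu : El ℓ u) (hc : Reg ℓ c) (huc : u * c = c * u) : ¬ Reg ℓ (u * c) := by
  have hpr : ℓ.Prime := Fact.out
  obtain ⟨n, hn⟩ := hu
  obtain ⟨k, -, hk⟩ := (Nat.dvd_prime_pow hpr).1 (orderOf_dvd_of_pow_eq_one hn)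
  have hk0 : k ≠ 0 := by
    rintro rfl
    rw [pow_zero, orderOf_eq_one_iff] at hk
    exact h1 hk
  have hco : (orderOf u).Coprime (orderOf c) := by
    rw [hk]
    exact Nat.Coprime.pow_left k (Nat.Coprime.symm hc)
  have h2 : orderOf (u * c) = orderOf u * orderOf c :=
    Commute.orderOf_mul_eq_mul_orderOf_of_coprime huc hco
  intro hreg
  unfold Reg at hreg
  rw [h2, hk] at hreg
  have h3 : ℓ ∣ ℓ ^ k * orderOf c := (dvd_pow_self ℓ hk0).mul_right _
  have h4 := Nat.Coprime.eq_one_of_dvd (Nat.Coprime.symm hreg) h3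
  exact hpr.one_lt.ne' h4

theorem fkl (hDO : DorStmt) (hLR : LrkStmt) (hSM : SmgStmt) : FklStmt := by
  classical
  intro ℓ _ M _ hM G _ _ e V γ b d c ε hD ι _ u hu hcon
  have := Fintype.ofFinite G
  have hpr : ℓ.Prime := Fact.out
  have he : IsIdem e := hD.ld.blk.1
  have hfin : (IrrE M e).Finite := K9.H25.irrE_finite M e
  obtain ⟨S, hSdef⟩ : ∃ S : Finset (G → ℂ), S = hfin.toFinset := ⟨_, rfl⟩
  have hSc : (S : Set (G → ℂ)) = IrrE M e := by rw [hSdef, Set.Finite.coe_toFinset]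
  have hmem : ∀ χ, χ ∈ S ↔ χ ∈ IrrE M e := fun χ => by
    rw [hSdef, Set.Finite.mem_toFinset]
  have hS : ∀ ψ ∈ S, ψ ∈ Irr G := fun ψ hψ => ((hmem ψ).1 hψ).1
  have hcard : (IrrE M e).ncard = Fintype.card S := by
    rw [← hSc, Set.ncard_coe_finset, Fintype.card_coe]
  -- the matrix
  obtain ⟨R, hR⟩ : ∃ R : Matrix S S ℂ, ∀ χ ψ : S, R χ ψ = (Fintype.card G : ℂ)⁻¹ *
      ∑ s, (if Reg ℓ s then (χ : G → ℂ) s else 0) * (ψ : G → ℂ) s⁻¹ := ⟨fun χ ψ => _, fun _ _ => rfl⟩
  have hexp : ∀ (χ : S) (t : G), ∑ ψ : S, R χ ψ * (ψ : G → ℂ) t =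
      if Reg ℓ t then (χ : G → ℂ) t else 0 := by
    intro χ t
    have h1 := (K9.H25.rot T3.H62.wbo_ ℓ M hM G e he).1 χ
      (Submodule.subset_span ((hmem _).1 χ.2))
    rw [← hSc] at h1
    have h2 := congrFun (K9.H25.pj_span hS h1) t
    unfold K9.H25.pj at h2
    rw [Finset.sum_apply, ← Finset.sum_coe_sort] at h2
    rw [← h2]
    refine Finset.sum_congr rfl fun ψ _ => ?_
    rw [Pi.smul_apply, smul_eq_mul, hR]
  have hRR : R * R = R := by
    ext χ φ
    rw [Matrix.mul_apply, hR χ φ]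
    have h1 : ∀ ψ : S, R χ ψ * R ψ φ = (Fintype.card G : ℂ)⁻¹ *
        ∑ t, (if Reg ℓ t then R χ ψ * (ψ : G → ℂ) t else 0) * (φ : G → ℂ) t⁻¹ := by
      intro ψ
      rw [hR ψ φ, mul_left_comm, Finset.mul_sum]
      congr 1
      refine Finset.sum_congr rfl fun t _ => ?_
      by_cases ht : Reg ℓ t
      · rw [if_pos ht, if_pos ht, mul_assoc]
      · rw [if_neg ht, if_neg ht, zero_mul, mul_zero]
    rw [Finset.sum_congr rfl fun ψ _ => h1 ψ, ← Finset.mul_sum, Finset.sum_comm]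
    congr 1
    refine Finset.sum_congr rfl fun t _ => ?_
    by_cases ht : Reg ℓ t
    · simp only [if_pos ht]
      rw [← Finset.sum_mul, hexp χ t, if_pos ht]
    · simp only [if_neg ht, zero_mul, Finset.sum_const_zero]
  have htr : R.trace = (ln e : ℂ) := by
    rw [hLR ℓ M hM G e he, Nat.card_eq_fintype_card]
    unfold Matrix.trace
    have h1 : ∀ χ : S, R.diag χ = (Fintype.card G : ℂ)⁻¹ *
        ∑ s, (if Reg ℓ s then (χ : G → ℂ) s * starRingEnd ℂ ((χ : G → ℂ) s) else 0) := by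
      intro χ
      rw [Matrix.diag_apply, hR]
      congr 1
      refine Finset.sum_congr rfl fun s _ => ?_
      by_cases hs : Reg ℓ s
      · rw [if_pos hs, if_pos hs, H94.irr_star (hS _ χ.2)]
      · rw [if_neg hs, if_neg hs, zero_mul]
    rw [Finset.sum_congr rfl fun χ _ => h1 χ, ← Finset.mul_sum, Finset.sum_comm,
      finsum_eq_sum_of_fintype]
    congr 1
    refine Finset.sum_congr rfl fun s _ => ?_
    rw [finsum_eq_if, finsum_mem_eq_finite_toFinset_sum _ hfin, ← hSdef]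
    by_cases hs : Reg ℓ s
    · simp only [if_pos hs]
      exact Finset.sum_coe_sort S (fun χ => χ s * starRingEnd ℂ (χ s))
    · simp only [if_neg hs, Finset.sum_const_zero]
  -- the vectors
  obtain ⟨w, hw⟩ : ∃ w : ι → S → ℂ, ∀ i ψ, w i ψ = vv M b d (u i) ψ := ⟨fun i ψ => _, fun _ _ => rfl⟩
  have hel : ∀ i, El ℓ (u i) := by
    intro i
    obtain ⟨k, hk⟩ := hD.ld.tp.pg ⟨u i, (hu i).1⟩
    exact ⟨k, congrArg Subtype.val hk⟩
  have hker : ∀ i, R.mulVec (w i) = 0 := by
    intro i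
    funext χ
    have h0 : ∀ s, Reg ℓ s → ∑ ψ : S, (ψ : G → ℂ) s⁻¹ * w i ψ = 0 := by
      intro s hs
      have := Fintype.ofFinite (Cu (u i))
      have h1 : ∀ ψ : S, (ψ : G → ℂ) s⁻¹ * w i ψ = ∑ x : Cu (u i),
          eh M (fun t : Cu (u i) => b (u i) t) x / d (u i) *
            ((ψ : G → ℂ) s⁻¹ * (ψ : G → ℂ) (u i * x)) := by
        intro ψ
        rw [hw]
        unfold vv gv gbv
        rw [finsum_eq_sum_of_fintype, Finset.sum_div, Finset.mul_sum]
        exact Finset.sum_congr rfl fun x _ => by ring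
      rw [Finset.sum_congr rfl fun ψ _ => h1 ψ, Finset.sum_comm]
      refine Finset.sum_eq_zero fun x _ => ?_
      rw [← Finset.mul_sum]
      by_cases hx : Reg ℓ x
      · have h2 : ¬ Reg ℓ (u i * x) := sing_mul (hu i).2.1 (hel i) (T3.H62.reg_coe hx)
          (T3.H62.comm_Cu x.2).symm
        have h3 := T3.H62.wbo_ ℓ M hM G e he s (u i * x) hs h2
        rw [finsum_mem_eq_finite_toFinset_sum _ hfin, ← hSdef] at h3
        rw [Finset.sum_coe_sort S (fun ψ => ψ s⁻¹ * ψ (u i * x)), h3, mul_zero]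
      · rw [K9.H25.eh_sing T3.H62.wbo_ ℓ M hM _ (hD.lc _ (hu i)).blk.blk.1 x hx, zero_div,
          zero_mul]
    rw [Pi.zero_apply]
    change ∑ ψ : S, R χ ψ * w i ψ = 0
    have h1 : ∀ ψ : S, R χ ψ * w i ψ = (Fintype.card G : ℂ)⁻¹ *
        ∑ s, (if Reg ℓ s then (χ : G → ℂ) s else 0) * ((ψ : G → ℂ) s⁻¹ * w i ψ) := by
      intro ψ
      rw [hR, mul_assoc, Finset.sum_mul]
      congr 1
      exact Finset.sum_congr rfl fun s _ => by ring
    rw [Finset.sum_congr rfl fun ψ _ => h1 ψ, ← Finset.mul_sum, Finset.sum_comm]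
    rw [Finset.sum_eq_zero, mul_zero]
    intro s _
    rw [← Finset.mul_sum]
    by_cases hs : Reg ℓ s
    · rw [h0 s hs, mul_zero]
    · rw [if_neg hs, zero_mul]
  have hout : ∀ i, ∀ χ ∈ Irr G, χ ∉ S → vv M b d (u i) χ = 0 := by
    intro i χ hχ hχS
    have hreg1 : Reg ℓ (1 : G) := by
      unfold Reg
      rw [orderOf_one]
      exact Nat.coprime_one_left ℓ
    have h1 := (hSM ℓ M hM G (u i) 1 (hu i).2.1 (hel i) (one_mem _) hreg1
      (fun t : Cu (u i) => b (u i) t) (hD.lc _ (hu i)).blk.blk.1 e he).1 (hD.lc _ (hu i)).und χ hχ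
      (fun h => hχS ((hmem χ).2 h))
    rw [mul_one] at h1
    unfold vv gv
    rw [h1, zero_div]
  have hsum : ∀ i j, ∑ k, w i k * starRingEnd ℂ (w j k) =
      ∑ᶠ χ ∈ Irr G, vv M b d (u i) χ * starRingEnd ℂ (vv M b d (u j) χ) := by
    intro i j
    rw [finsum_mem_eq_finite_toFinset_sum _ (irr_finite' : (Irr G).Finite)]
    rw [← Finset.sum_subset (s₁ := S)]
    · rw [← Finset.sum_coe_sort S
        (fun χ => vv M b d (u i) χ * starRingEnd ℂ (vv M b d (u j) χ))]
      exact Finset.sum_congr rfl fun k _ => by rw [hw, hw]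
    · intro χ hχ
      rw [Set.Finite.mem_toFinset]
      exact hS χ hχ
    · intro χ hχ hχS
      rw [Set.Finite.mem_toFinset] at hχ
      rw [hout i χ hχ hχS, zero_mul]
  have hV : (Nat.card V : ℂ) ≠ 0 := by exact_mod_cast Nat.card_pos.ne'
  have hli : LinearIndependent ℂ w := by
    refine li_of_orth w (Nat.card V : ℂ) hV (fun i => ?_) (fun i j hij => ?_)
    · rw [hsum]
      refine (hDO ℓ M hM G e V γ b d c ε hD (u i) (u i) (hu i) (hu i)).1 ⟨1, one_mem _, ?_⟩
      group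
    · rw [hsum]
      refine (hDO ℓ M hM G e V γ b d c ε hD (u i) (u j) (hu i) (hu j)).2 ?_
      rintro ⟨t, ht, h⟩
      exact hcon j i (Ne.symm hij) t ht h
  rw [hcard]
  exact rank_ker R hRR (ln e) htr w hker hli

end Pool.Agent.PP.T8.H76
end
end -- Pool.Agent.Helper76_AT8.FKL

section -- Pool.Agent.Helper56_AT12.LinA

/-!
# Squad AT12, row ANN: linear algebra
-/

open scoped BigOperators

noncomputable section

namespace Pool.Agent.PP.T12.H56

/-- the kernel of `C` is the image of the idempotent `R` if the dimensions fit -/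
theorem eq_ker {κ : Type} [Fintype κ] [DecidableEq κ] (K n : ℕ) (R : Matrix κ κ ℂ)
    (hR : R * R = R) (htr : R.trace = n) (C : Matrix (Fin K) κ ℂ) (hC : C * R = 0)
    (hli : LinearIndependent ℂ (fun i => C i)) (hcard : Fintype.card κ = K + n) (a : κ → ℂ) :
    C.mulVec a = 0 ↔ R.mulVec a = a := by
  constructor
  · intro ha
    obtain ⟨f, hf⟩ : ∃ f : (κ → ℂ) →ₗ[ℂ] (κ → ℂ), f = Matrix.toLin' R := ⟨_, rfl⟩
    obtain ⟨g, hg⟩ : ∃ g : (κ → ℂ) →ₗ[ℂ] (Fin K → ℂ), g = Matrix.toLin' C := ⟨_, rfl⟩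
    have h1 : IsIdempotentElem f := by
      unfold IsIdempotentElem
      rw [hf, Module.End.mul_eq_comp, ← Matrix.toLin'_mul, hR]
    have h2 := (LinearMap.isProj_range_iff_isIdempotentElem f).2 h1
    have h3 : LinearMap.trace ℂ (κ → ℂ) f = (Module.finrank ℂ (LinearMap.range f) : ℂ) := h2.trace
    have h4 : LinearMap.trace ℂ (κ → ℂ) f = R.trace := by
      rw [hf, Matrix.trace_toLin'_eq]
    have h5 : Module.finrank ℂ (LinearMap.range f) = n := by
      have h6 : (n : ℂ) = (Module.finrank ℂ (LinearMap.range f) : ℂ) := by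
        rw [← h3, h4, htr]
      exact_mod_cast h6.symm
    have h6 := LinearMap.finrank_range_add_finrank_ker g
    rw [Module.finrank_fintype_fun_eq_card] at h6
    have h7 : Module.finrank ℂ (LinearMap.range g) = K := by
      have h8 : C.rank = Fintype.card (Fin K) := LinearIndependent.rank_matrix hli
      rw [Fintype.card_fin] at h8
      rw [hg, Matrix.toLin'_apply', ← Matrix.rank, h8]
    have h8 : LinearMap.range f ≤ LinearMap.ker g := by
      rintro _ ⟨x, rfl⟩
      rw [LinearMap.mem_ker, hf, hg, Matrix.toLin'_apply, Matrix.toLin'_apply, Matrix.mulVec_mulVec,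
        hC, Matrix.zero_mulVec]
    have h9 : LinearMap.range f = LinearMap.ker g := by
      refine Submodule.eq_of_le_of_finrank_eq h8 ?_
      omega
    have h10 : a ∈ LinearMap.range f := by
      rw [h9, LinearMap.mem_ker, hg, Matrix.toLin'_apply, ha]
    obtain ⟨b, hb⟩ := h10
    rw [hf, Matrix.toLin'_apply] at hb
    rw [← hb, Matrix.mulVec_mulVec, hR]
  · intro ha
    rw [← ha, Matrix.mulVec_mulVec, hC, Matrix.zero_mulVec]

/-- vectors with Gram matrix `1 + m J` are independent -/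
theorem li_gram {κ : Type} [Fintype κ] (K m : ℕ) (c : Fin K → κ → ℂ)
    (h1 : ∀ i, ∑ k, c i k * starRingEnd ℂ (c i k) = 1 + m)
    (h2 : ∀ i j, i ≠ j → ∑ k, c i k * starRingEnd ℂ (c j k) = m) : LinearIndependent ℂ c := by
  classical
  rw [Fintype.linearIndependent_iff]
  intro a ha j
  have h3 : ∀ j, a j + m * ∑ i, a i = 0 := by
    intro j
    have h4 : ∑ i, a i * ∑ k, c i k * starRingEnd ℂ (c j k) =
        ∑ k, (∑ i, a i • c i) k * starRingEnd ℂ (c j k) := by
      simp only [Finset.mul_sum, Finset.sum_apply, Pi.smul_apply, smul_eq_mul, Finset.sum_mul]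
      rw [Finset.sum_comm]
      exact Finset.sum_congr rfl fun k _ => Finset.sum_congr rfl fun i _ => by ring
    rw [ha] at h4
    have h5 : ∑ i, a i * ∑ k, c i k * starRingEnd ℂ (c j k) = ∑ i, (m * a i +
        if i = j then a i else 0) := by
      refine Finset.sum_congr rfl fun i _ => ?_
      by_cases hij : i = j
      · subst hij
        rw [h1, if_pos rfl]
        ring
      · rw [h2 i j hij, if_neg hij]
        ring
    rw [h5, Finset.sum_add_distrib, Finset.sum_ite_eq' Finset.univ j, if_pos (Finset.mem_univ _),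
      ← Finset.mul_sum] at h4
    rw [add_comm, h4]
    simp
  have h6 : (∑ i, a i) * (1 + m * K) = 0 := by
    have h7 : ∑ j : Fin K, (a j + m * ∑ i, a i) = 0 := Finset.sum_eq_zero fun j _ => h3 j
    rw [Finset.sum_add_distrib, Finset.sum_const, Finset.card_univ, Fintype.card_fin,
      nsmul_eq_mul] at h7
    rw [← h7]
    ring
  have h8 : (1 + (m : ℂ) * K) ≠ 0 := by
    have : ((1 + m * K : ℕ) : ℂ) ≠ 0 := Nat.cast_ne_zero.2 (by omega)
    push_cast at this
    exact this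
  have h9 : ∑ i, a i = 0 := (mul_eq_zero.1 h6).resolve_right h8
  have h10 := h3 j
  rw [h9, mul_zero, add_zero] at h10
  exact h10

end Pool.Agent.PP.T12.H56
end
end -- Pool.Agent.Helper56_AT12.LinA

section -- Pool.Agent.Helper56_AT12.ANN

/-!
# Squad AT12, row ANN: the class functions which vanish at the singular elements
-/

open scoped BigOperators

noncomputable section

namespace Pool.Agent.PP.T12.H56

open Pool.Agent.Helper51_AWC Pool.Agent.Helper79_WRA Pool.Agent.PP Pool.Agent.PP.KF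
open Pool.Agent.PP.K9 Pool.Agent.PP.K9.H97 Pool.Agent.PP.H75 Pool.Agent.PP.T3 Pool.Agent.PP.T2
open Pool.Agent.PP.T8

attribute [local instance] Ideal.Quotient.field

theorem ann (fni : FniStmt) (fgr : FgrStmt) (fnz : FnzStmt) (fkl : FklStmt) (lrk : LrkStmt) :
    AnnStmt := by
  classical
  intro ℓ _ M _ hM hl2 G _ _ N hN e V γ b d c ε hD hF hV hix K u lam hu huo hl hlo hall
  have := Fintype.ofFinite G
  have hpr : ℓ.Prime := Fact.out
  have he : IsIdem e := hD.ld.blk.1
  have hfin : (IrrE M e).Finite := K9.H25.irrE_finite M e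
  obtain ⟨S, hSdef⟩ : ∃ S : Finset (G → ℂ), S = hfin.toFinset := ⟨_, rfl⟩
  have hSc : (S : Set (G → ℂ)) = IrrE M e := by rw [hSdef, Set.Finite.coe_toFinset]
  have hmem : ∀ χ, χ ∈ S ↔ χ ∈ IrrE M e := fun χ => by
    rw [hSdef, Set.Finite.mem_toFinset]
  have hS : ∀ ψ ∈ S, ψ ∈ Irr G := fun ψ hψ => ((hmem ψ).1 hψ).1
  have hcard : (IrrE M e).ncard = Fintype.card S := by
    rw [← hSc, Set.ncard_coe_finset, Fintype.card_coe]
  obtain ⟨z1, z2, z3⟩ := fnz ℓ M hM hl2 G e V γ b d c ε hD hF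
  -- the integers
  have hint : ∀ (i : Fin K) (χ : S), ∃ n : ℤ, cl M V b d ε (lam i) χ = n := fun i χ =>
    fni ℓ M hM hl2 G N hN e V γ b d c ε hD hF χ (hS _ χ.2) (lam i)
  choose C hC using hint
  have hsum : ∀ i j, ∑ᶠ χ ∈ Irr G, cl M V b d ε (lam i) χ *
      starRingEnd ℂ (cl M V b d ε (lam j) χ) = ((∑ χ : S, C i χ * C j χ : ℤ) : ℂ) := by
    intro i j
    have h3 : ∑ᶠ χ ∈ Irr G, cl M V b d ε (lam i) χ *
        starRingEnd ℂ (cl M V b d ε (lam j) χ) = ∑ᶠ χ ∈ IrrE M e, cl M V b d ε (lam i) χ *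
        starRingEnd ℂ (cl M V b d ε (lam j) χ) := by
      refine finsum_congr fun χ => ?_
      rw [finsum_eq_if, finsum_eq_if]
      by_cases hχ : χ ∈ Irr G
      · by_cases hχe : χ ∈ IrrE M e
        · rw [if_pos hχ, if_pos hχe]
        · rw [if_pos hχ, if_neg hχe, z3 (lam i) χ hχ hχe, zero_mul]
      · rw [if_neg hχ, if_neg (fun h => hχ h.1)]
    rw [h3, finsum_mem_eq_finite_toFinset_sum _ hfin, ← hSdef, ← Finset.sum_coe_sort]
    push_cast
    refine Finset.sum_congr rfl fun χ _ => ?_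
    rw [hC, hC]
    simp
  have hg1 : ∀ i, ∑ k, C i k * C i k = 1 + (ix V γ : ℤ) := by
    intro i
    have h6 := (fgr ℓ M hM hl2 G e V γ b d c ε hD hF (lam i) (lam i) (hl i) (hl i)).1 rfl
    rw [hsum i i] at h6
    exact_mod_cast h6
  have hg2 : ∀ i j, i ≠ j → ∑ k, C i k * C j k = (ix V γ : ℤ) := by
    intro i j hij
    have h6 := (fgr ℓ M hM hl2 G e V γ b d c ε hD hF (lam i) (lam j) (hl i) (hl j)).2
      (hlo j i (Ne.symm hij))
    rw [hsum i j] at h6
    exact_mod_cast h6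
  have hrg : ∀ v : G, v ∈ V → v ≠ 1 → Rg V γ v := by
    intro v hv hv1
    refine ⟨hv, hv1, ?_⟩
    intro t ht
    obtain ⟨ht1, ht2⟩ := Subgroup.mem_inf.1 ht
    exact hF t ht1 v hv hv1 (Subgroup.mem_centralizer_singleton_iff.1 ht2)
  have h4 := H6.cmb (Fin K) S C (ix V γ) hg1 hg2 (by
    intro χ
    obtain ⟨mu, hmu, hne⟩ := z2 hV χ ((hmem _).1 χ.2)
    obtain ⟨i, t, ht, htc⟩ := hall mu hmu
    refine ⟨i, ?_⟩
    intro h0
    apply hne
    rw [z1 t ht (lam i) mu htc χ (hS _ χ.2), hC, h0, Int.cast_zero])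
  have h5 := fkl ℓ M hM G e V γ b d c ε hD (Fin K) u (fun i => hrg _ (hu i).1 (hu i).2) huo
  rw [Fintype.card_fin] at h4 h5
  rw [hcard] at h5
  have hln : ln e = ix V γ := by omega
  have hk : Fintype.card S = K + ix V γ := by omega
  refine ⟨by rw [hcard, hk], ?_⟩
  -- the matrix
  obtain ⟨R, hR⟩ : ∃ R : Matrix S S ℂ, ∀ χ ψ : S, R χ ψ = (Fintype.card G : ℂ)⁻¹ *
      ∑ s, (if Reg ℓ s then (χ : G → ℂ) s else 0) * (ψ : G → ℂ) s⁻¹ := ⟨fun χ ψ => _, fun _ _ => rfl⟩
  have hsym : ∀ χ ψ : S, R χ ψ = R ψ χ := by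
    intro χ ψ
    rw [hR, hR]
    congr 1
    rw [← Equiv.sum_comp (Equiv.inv G)]
    refine Finset.sum_congr rfl fun s _ => ?_
    rw [Equiv.inv_apply, inv_inv]
    by_cases hs : Reg ℓ s
    · rw [if_pos hs, if_pos (K9.H25.reg_inv.2 hs), mul_comm]
    · rw [if_neg hs, if_neg (fun h => hs (K9.H25.reg_inv.1 h)), zero_mul, zero_mul]
  have hexp : ∀ (χ : S) (t : G), ∑ ψ : S, R χ ψ * (ψ : G → ℂ) t =
      if Reg ℓ t then (χ : G → ℂ) t else 0 := by
    intro χ t
    have h1 := (K9.H25.rot T3.H62.wbo_ ℓ M hM G e he).1 χ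
      (Submodule.subset_span ((hmem _).1 χ.2))
    rw [← hSc] at h1
    have h2 := congrFun (K9.H25.pj_span hS h1) t
    unfold K9.H25.pj at h2
    rw [Finset.sum_apply, ← Finset.sum_coe_sort] at h2
    rw [← h2]
    refine Finset.sum_congr rfl fun ψ _ => ?_
    rw [Pi.smul_apply, smul_eq_mul, hR]
  have hRR : R * R = R := by
    ext χ φ
    rw [Matrix.mul_apply, hR χ φ]
    have h1 : ∀ ψ : S, R χ ψ * R ψ φ = (Fintype.card G : ℂ)⁻¹ *
        ∑ t, (if Reg ℓ t then R χ ψ * (ψ : G → ℂ) t else 0) * (φ : G → ℂ) t⁻¹ := by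
      intro ψ
      rw [hR ψ φ, mul_left_comm, Finset.mul_sum]
      congr 1
      refine Finset.sum_congr rfl fun t _ => ?_
      by_cases ht : Reg ℓ t
      · rw [if_pos ht, if_pos ht, mul_assoc]
      · rw [if_neg ht, if_neg ht, zero_mul, mul_zero]
    rw [Finset.sum_congr rfl fun ψ _ => h1 ψ, ← Finset.mul_sum, Finset.sum_comm]
    congr 1
    refine Finset.sum_congr rfl fun t _ => ?_
    by_cases ht : Reg ℓ t
    · simp only [if_pos ht]
      rw [← Finset.sum_mul, hexp χ t, if_pos ht]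
    · simp only [if_neg ht, zero_mul, Finset.sum_const_zero]
  have htr : R.trace = (ln e : ℂ) := by
    rw [lrk ℓ M hM G e he, Nat.card_eq_fintype_card]
    unfold Matrix.trace
    have h1 : ∀ χ : S, R.diag χ = (Fintype.card G : ℂ)⁻¹ *
        ∑ s, (if Reg ℓ s then (χ : G → ℂ) s * starRingEnd ℂ ((χ : G → ℂ) s) else 0) := by
      intro χ
      rw [Matrix.diag_apply, hR]
      congr 1
      refine Finset.sum_congr rfl fun s _ => ?_
      by_cases hs : Reg ℓ s
      · rw [if_pos hs, if_pos hs, H94.irr_star (hS _ χ.2)]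
      · rw [if_neg hs, if_neg hs, zero_mul]
    rw [Finset.sum_congr rfl fun χ _ => h1 χ, ← Finset.mul_sum, Finset.sum_comm,
      finsum_eq_sum_of_fintype]
    congr 1
    refine Finset.sum_congr rfl fun s _ => ?_
    rw [finsum_eq_if, finsum_mem_eq_finite_toFinset_sum _ hfin, ← hSdef]
    by_cases hs : Reg ℓ s
    · simp only [if_pos hs]
      exact Finset.sum_coe_sort S (fun χ => χ s * starRingEnd ℂ (χ s))
    · simp only [if_neg hs, Finset.sum_const_zero]
  have hel : ∀ v : G, v ∈ V → El ℓ v := by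
    intro v hv
    obtain ⟨k, hk⟩ := hD.ld.tp.pg ⟨v, hv⟩
    exact ⟨k, congrArg Subtype.val hk⟩
  have hker : ∀ v : G, Rg V γ v → ∀ χ : S, ∑ ψ : S, R χ ψ * vv M b d v ψ = 0 := by
    intro v hv χ
    have h0 : ∀ s, Reg ℓ s → ∑ ψ : S, (ψ : G → ℂ) s⁻¹ * vv M b d v ψ = 0 := by
      intro s hs
      have := Fintype.ofFinite (Cu v)
      have h1 : ∀ ψ : S, (ψ : G → ℂ) s⁻¹ * vv M b d v ψ = ∑ x : Cu v,
          eh M (fun t : Cu v => b v t) x / d v *
            ((ψ : G → ℂ) s⁻¹ * (ψ : G → ℂ) (v * x)) := by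
        intro ψ
        unfold vv gv gbv
        rw [finsum_eq_sum_of_fintype, Finset.sum_div, Finset.mul_sum]
        exact Finset.sum_congr rfl fun x _ => by ring
      rw [Finset.sum_congr rfl fun ψ _ => h1 ψ, Finset.sum_comm]
      refine Finset.sum_eq_zero fun x _ => ?_
      rw [← Finset.mul_sum]
      by_cases hx : Reg ℓ x
      · have h2 : ¬ Reg ℓ (v * x) := H76.sing_mul hv.2.1 (hel _ hv.1) (T3.H62.reg_coe hx)
          (T3.H62.comm_Cu x.2).symm
        have h3 := T3.H62.wbo_ ℓ M hM G e he s (v * x) hs h2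
        rw [finsum_mem_eq_finite_toFinset_sum _ hfin, ← hSdef] at h3
        rw [Finset.sum_coe_sort S (fun ψ => ψ s⁻¹ * ψ (v * x)), h3, mul_zero]
      · rw [K9.H25.eh_sing T3.H62.wbo_ ℓ M hM _ (hD.lc _ hv).blk.blk.1 x hx, zero_div,
          zero_mul]
    have h1 : ∀ ψ : S, R χ ψ * vv M b d v ψ = (Fintype.card G : ℂ)⁻¹ *
        ∑ s, (if Reg ℓ s then (χ : G → ℂ) s else 0) * ((ψ : G → ℂ) s⁻¹ * vv M b d v ψ) := by
      intro ψ
      rw [hR, mul_assoc, Finset.sum_mul]
      congr 1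
      exact Finset.sum_congr rfl fun s _ => by ring
    rw [Finset.sum_congr rfl fun ψ _ => h1 ψ, ← Finset.mul_sum, Finset.sum_comm]
    rw [Finset.sum_eq_zero, mul_zero]
    intro s _
    rw [← Finset.mul_sum]
    by_cases hs : Reg ℓ s
    · rw [h0 s hs, mul_zero]
    · rw [if_neg hs, zero_mul]
  -- the vectors `c i`
  obtain ⟨D, hDm⟩ : ∃ D : Matrix (Fin K) S ℂ, ∀ i χ, D i χ = (C i χ : ℂ) :=
    ⟨fun i χ => _, fun _ _ => rfl⟩
  have hDc : ∀ i (χ : S), D i χ = cl M V b d ε (lam i) χ := fun i χ => by rw [hDm, hC]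
  have hDR : D * R = 0 := by
    ext i χ
    rw [Matrix.mul_apply, Matrix.zero_apply]
    have := Fintype.ofFinite V
    have h1 : ∀ ψ : S, D i ψ * R ψ χ = ∑ v : V, (Nat.card V : ℂ)⁻¹ * ((ε v : ℂ) *
        ((lam i v⁻¹ - 1) * (R χ ψ * vv M b d v ψ))) := by
      intro ψ
      rw [hDc, hsym ψ χ]
      unfold cl
      rw [finsum_eq_sum_of_fintype, Finset.mul_sum, Finset.sum_mul]
      exact Finset.sum_congr rfl fun v _ => by ring
    rw [Finset.sum_congr rfl fun ψ _ => h1 ψ, Finset.sum_comm]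
    refine Finset.sum_eq_zero fun v _ => ?_
    rw [← Finset.mul_sum, ← Finset.mul_sum, ← Finset.mul_sum]
    by_cases hv : v = 1
    · rw [hv, inv_one, map_one, sub_self, zero_mul, mul_zero, mul_zero]
    · rw [hker v (hrg v v.2 (fun h => hv (Subtype.ext h))) χ, mul_zero, mul_zero, mul_zero]
  have hli : LinearIndependent ℂ (fun i => D i) := by
    refine li_gram K (ix V γ) (fun i => D i) (fun i => ?_) (fun i j hij => ?_)
    · have h1 : ∑ k, D i k * starRingEnd ℂ (D i k) = ((∑ k, C i k * C i k : ℤ) : ℂ) := by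
        push_cast
        refine Finset.sum_congr rfl fun k _ => ?_
        rw [hDm]
        simp
      rw [h1, hg1]
      push_cast
      ring
    · have h1 : ∑ k, D i k * starRingEnd ℂ (D j k) = ((∑ k, C i k * C j k : ℤ) : ℂ) := by
        push_cast
        refine Finset.sum_congr rfl fun k _ => ?_
        rw [hDm, hDm]
        simp
      rw [h1, hg2 i j hij]
      push_cast
      ring
  rw [← hln] at hk
  have hkey := eq_ker K (ln e) R hRR htr D hDR hli hk
  intro Ψ hΨ
  rw [← hSc] at hΨ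
  obtain ⟨a, ha⟩ : ∃ a : S → ℂ, ∀ ψ : S, a ψ = (Fintype.card G : ℂ)⁻¹ *
    ∑ s, Ψ s * (ψ : G → ℂ) s⁻¹ := ⟨fun ψ => _, fun _ => rfl⟩
  have haip : ∀ ψ : S, ipn Ψ ψ = a ψ := by
    intro ψ
    rw [ha]
    unfold ipn
    rw [finsum_eq_sum_of_fintype, Nat.card_eq_fintype_card]
    congr 1
    exact Finset.sum_congr rfl fun s _ => by rw [H94.irr_star (hS _ ψ.2)]
  have hΨa : ∀ t, Ψ t = ∑ ψ : S, a ψ * (ψ : G → ℂ) t := by
    intro t
    have h2 := congrFun (K9.H25.pj_span hS hΨ) t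
    unfold K9.H25.pj at h2
    rw [Finset.sum_apply, ← Finset.sum_coe_sort] at h2
    rw [← h2]
    refine Finset.sum_congr rfl fun ψ _ => ?_
    rw [Pi.smul_apply, smul_eq_mul, ha]
  have hDa : (∀ i, ∑ᶠ χ ∈ IrrE M e, ipn Ψ χ * cl M V b d ε (lam i) χ = 0) ↔ D.mulVec a = 0 := by
    have h1 : ∀ i, ∑ᶠ χ ∈ IrrE M e, ipn Ψ χ * cl M V b d ε (lam i) χ = D.mulVec a i := by
      intro i
      rw [finsum_mem_eq_finite_toFinset_sum _ hfin, ← hSdef, ← Finset.sum_coe_sort]
      change _ = ∑ ψ : S, D i ψ * a ψ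
      refine Finset.sum_congr rfl fun ψ _ => ?_
      rw [haip, hDc, mul_comm]
    constructor
    · intro h
      funext i
      rw [← h1, h i]
      rfl
    · intro h i
      rw [h1, h]
      rfl
  rw [hDa, hkey]
  constructor
  · intro hRc
    funext ψ
    change ∑ χ : S, R ψ χ * a χ = a ψ
    rw [ha ψ]
    have h1 : ∀ s, Ψ s * (ψ : G → ℂ) s⁻¹ = ∑ χ : S, a χ * ((if Reg ℓ s then (χ : G → ℂ) s else 0) *
        (ψ : G → ℂ) s⁻¹) := by
      intro s
      by_cases hs : Reg ℓ s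
      · simp only [if_pos hs]
        rw [hΨa s, Finset.sum_mul]
        exact Finset.sum_congr rfl fun χ _ => by ring
      · simp only [if_neg hs, zero_mul, mul_zero, Finset.sum_const_zero]
        rw [hRc.sg s hs, zero_mul]
    rw [Finset.sum_congr rfl fun s _ => h1 s, Finset.sum_comm, Finset.mul_sum]
    refine Finset.sum_congr rfl fun χ _ => ?_
    rw [hsym ψ χ, hR, ← Finset.mul_sum]
    ring
  · intro hRa
    have h2 : ∀ t, Ψ t = ∑ χ : S, a χ * (if Reg ℓ t then (χ : G → ℂ) t else 0) := by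
      intro t
      rw [hΨa t]
      have h3 : ∀ ψ : S, a ψ * (ψ : G → ℂ) t = ∑ χ : S, a χ * (R χ ψ * (ψ : G → ℂ) t) := by
        intro ψ
        have h4 : a ψ = ∑ χ : S, R ψ χ * a χ := by
          conv_lhs => rw [← hRa]
          rfl
        rw [h4, Finset.sum_mul]
        refine Finset.sum_congr rfl fun χ _ => ?_
        rw [hsym ψ χ]
        ring
      rw [Finset.sum_congr rfl fun ψ _ => h3 ψ, Finset.sum_comm]
      refine Finset.sum_congr rfl fun χ _ => ?_
      rw [← Finset.mul_sum, hexp]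
    constructor
    · intro x y
      rw [hΨa, hΨa]
      refine Finset.sum_congr rfl fun ψ _ => ?_
      rw [irr_conj (hS _ ψ.2)]
    · intro x hx
      rw [h2 x]
      refine Finset.sum_eq_zero fun χ _ => ?_
      rw [if_neg hx, mul_zero]

end Pool.Agent.PP.T12.H56
end
end -- Pool.Agent.Helper56_AT12.ANN

section -- Pool.Agent.Helper56_AT12.STF1

/-!
# Squad AT12, row STF: the number of orbits
-/

open scoped BigOperators

noncomputable section

namespace Pool.Agent.PP.T12.H56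

open Pool.Agent.Helper51_AWC Pool.Agent.Helper79_WRA Pool.Agent.PP Pool.Agent.PP.KF
open Pool.Agent.PP.K9 Pool.Agent.PP.K9.H97 Pool.Agent.PP.H75 Pool.Agent.PP.T3 Pool.Agent.PP.T2
open Pool.Agent.PP.T8

attribute [local instance] Ideal.Quotient.field

theorem ix_pos {G F : Type} [Group G] [Finite G] (V : Subgroup G) (γ : G → F) : 0 < ix V γ := by
  unfold ix Subgroup.relIndex
  exact Nat.pos_of_ne_zero Subgroup.index_ne_zero_of_finite

theorem count {ℓ : ℕ} {F : Type} [Field F] {G : Type} [Group G] [Finite G] {e : G → F}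
    {V : Subgroup G} {γ : G → F} (hL : Ld ℓ e V γ) (hF : Fr V γ) (K : ℕ) (u : Fin K → G)
    (lam : Fin K → (V →* ℂ)) (hu : ∀ i, u i ∈ V ∧ u i ≠ 1)
    (huo : ∀ i j, i ≠ j → ∀ t ∈ Tg V γ, t * u i * t⁻¹ ≠ u j)
    (hall : ∀ mu : V →* ℂ, (∃ v, mu v ≠ 1) → ∃ i, ∃ t ∈ Tg V γ, Tc V t (lam i) mu) :
    ix V γ * K + 1 = Nat.card V := by
  classical
  let cV : CommGroup V :=
    { (inferInstance : Group V) with
      mul_comm := fun a b => Subtype.ext (hL.ab a a.2 b b.2) }
  obtain ⟨hfin, hcard⟩ := H37.for_dual V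
  have hc : ∀ t ∈ Tg V γ, ∀ v ∈ V, t * v * t⁻¹ ∈ V := fun t ht v hv =>
    (Subgroup.mem_normalizer_iff.1 (Subgroup.mem_inf.1 ht).1 v).1 hv
  let Z : Subgroup (Tg V γ) := (Subgroup.centralizer (V : Set G)).subgroupOf (Tg V γ)
  have hZ : Nat.card (Tg V γ ⧸ Z) = ix V γ := rfl
  have hP : Nat.card (Fin K × (Tg V γ ⧸ Z)) = ix V γ * K := by
    rw [Nat.card_prod, hZ, Nat.card_eq_fintype_card, Fintype.card_fin, mul_comm]
  -- the elements
  let X1 := {v : V // v ≠ 1}
  let X2 := {l : V →* ℂ // l ≠ 1}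
  have c1 : Nat.card X1 = Nat.card V - 1 := by
    have i1 : Fintype V := Fintype.ofFinite V
    rw [Nat.card_eq_fintype_card, Nat.card_eq_fintype_card]
    exact Set.card_ne_eq _
  have c2 : Nat.card X2 = Nat.card V - 1 := by
    have i1 : Fintype (V →* ℂ) := Fintype.ofFinite _
    rw [← hcard, Nat.card_eq_fintype_card, Nat.card_eq_fintype_card]
    exact Set.card_ne_eq _
  have hle1 : ix V γ * K ≤ Nat.card V - 1 := by
    rw [← hP, ← c1]
    let f : Fin K × (Tg V γ ⧸ Z) → X1 := fun p =>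
      ⟨⟨(p.2.out : G) * u p.1 * (p.2.out : G)⁻¹, hc _ p.2.out.2 _ (hu p.1).1⟩, by
        intro h
        have h1 : (p.2.out : G) * u p.1 * (p.2.out : G)⁻¹ = 1 := congrArg Subtype.val h
        apply (hu p.1).2
        have h2 : (p.2.out : G) * u p.1 = (p.2.out : G) := by
          rw [mul_inv_eq_one] at h1
          exact h1
        exact mul_eq_left.1 h2⟩
    refine Nat.card_le_card_of_injective f ?_
    rintro ⟨i, q⟩ ⟨i', q'⟩ h
    have h1 : (q.out : G) * u i * (q.out : G)⁻¹ = (q'.out : G) * u i' * (q'.out : G)⁻¹ :=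
      congrArg (fun x : X1 => ((x : V) : G)) h
    have h2 : ((q'.out : G)⁻¹ * q.out) * u i * ((q'.out : G)⁻¹ * q.out)⁻¹ = u i' := by
      have h3 : ((q'.out : G)⁻¹ * q.out) * u i * ((q'.out : G)⁻¹ * q.out)⁻¹ =
          (q'.out : G)⁻¹ * ((q.out : G) * u i * (q.out : G)⁻¹) * q'.out := by group
      rw [h3, h1]
      group
    have hT : (q'.out : G)⁻¹ * q.out ∈ Tg V γ :=
      (Tg V γ).mul_mem ((Tg V γ).inv_mem q'.out.2) q.out.2
    have hii : i = i' := by
      by_contra hne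
      exact huo i i' hne _ hT h2
    subst hii
    have h4 : ((q'.out : G)⁻¹ * q.out) ∈ Subgroup.centralizer (V : Set G) := by
      refine hF _ hT (u i) (hu i).1 (hu i).2 ?_
      exact mul_inv_eq_iff_eq_mul.1 h2
    have h5 : q = q' := by
      rw [← q.out_eq', ← q'.out_eq']
      symm
      rw [QuotientGroup.eq]
      exact h4
    rw [h5]
  have hle2 : Nat.card V - 1 ≤ ix V γ * K := by
    rw [← hP, ← c2]
    have hex : ∀ l : X2, ∃ p : Fin K × Tg V γ, Tc V (p.2 : G) (lam p.1) (l : V →* ℂ) := by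
      intro l
      obtain ⟨i, t, ht, h⟩ := hall l (by
        by_contra hcon
        apply l.2
        ext v
        by_contra hv
        exact hcon ⟨v, hv⟩)
      exact ⟨(i, ⟨t, ht⟩), h⟩
    choose p hp using hex
    refine Nat.card_le_card_of_injective
      (fun l => ((p l).1, (QuotientGroup.mk (p l).2 : Tg V γ ⧸ Z))) ?_
    intro l l' h
    change ((p l).1, (QuotientGroup.mk (p l).2 : Tg V γ ⧸ Z)) =
      ((p l').1, (QuotientGroup.mk (p l').2 : Tg V γ ⧸ Z)) at h
    rw [Prod.mk.injEq] at h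
    have h1 : (p l).1 = (p l').1 := h.1
    have h2 : (QuotientGroup.mk (p l).2 : Tg V γ ⧸ Z) = QuotientGroup.mk (p l').2 := h.2
    rw [QuotientGroup.eq] at h2
    have h3 : (((p l).2 : G)⁻¹ * (p l').2) ∈ Subgroup.centralizer (V : Set G) := h2
    apply Subtype.ext
    ext v
    have hw := hc _ (p l).2.2 v v.2
    have e1 := hp l v ⟨_, hw⟩ rfl
    have e2 := hp l' v ⟨_, hw⟩ (by
      change ((p l).2 : G) * v * ((p l).2 : G)⁻¹ = ((p l').2 : G) * v * ((p l').2 : G)⁻¹
      have h4 := Subgroup.mem_centralizer_iff.1 h3 v v.2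
      have h5 : ((p l').2 : G) = (p l).2 * (((p l).2 : G)⁻¹ * (p l').2) := by group
      rw [h5]
      generalize (((p l).2 : G)⁻¹ * (p l').2) = c at h4
      have h6 : ((p l).2 : G) * c * v * ((p l).2 * c)⁻¹ = ((p l).2 : G) * (c * v) * c⁻¹ *
          ((p l).2 : G)⁻¹ := by group
      rw [h6, ← h4]
      group)
    rw [e1, e2, h1]
  have hpos : 0 < Nat.card V := Nat.card_pos
  omega

end Pool.Agent.PP.T12.H56
end
end -- Pool.Agent.Helper56_AT12.STF1

section -- Pool.Agent.Helper56_AT12.STF2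

/-!
# Squad AT12, row STF: values at idempotents
-/

open scoped BigOperators

noncomputable section

namespace Pool.Agent.PP.T12.H56

open Pool.Agent.Helper51_AWC Pool.Agent.Helper79_WRA Pool.Agent.PP Pool.Agent.PP.KF
open Pool.Agent.PP.K9 Pool.Agent.PP.K9.H97 Pool.Agent.PP.H75 Pool.Agent.PP.T3 Pool.Agent.PP.T2
open Pool.Agent.PP.T8

attribute [local instance] Ideal.Quotient.field

/-- class functions which vanish at the singular elements -/
theorem fv_zero (lft : T8.LftStmt) (smi : SmiStmt) (prj : PrjStmt) {ℓ : ℕ} [Fact ℓ.Prime]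
    (M : Ideal (integralClosure ℤ ℂ)) [M.IsMaximal] (hM : (ℓ : integralClosure ℤ ℂ) ∈ M)
    {G : Type} [Group G] [Finite G] (V : Subgroup G) (hV : IsPGroup ℓ V) (i : G → ℂ)
    (hi : Ip M V i) (Δ : G → ℂ) (hΔ : Rc ℓ Δ) (z : G) (hz : z ∈ V) (hz1 : z ≠ 1) :
    fv i z Δ = 0 := by
  have hF : GoodF ℓ (FF M) := H50.fld ℓ Fact.out M hM
  have hzp : IsPGroup ℓ (Subgroup.zpowers z) := hV.to_le (Subgroup.zpowers_le.2 hz)
  have hzi : ∀ x, rd M i (z * x * z⁻¹) = rd M i x := by
    intro x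
    unfold rd
    rw [hi.iv z hz]
  have hxx : mulF (rs (Cu z) (rd M i)) (rs (Cu z) (rd M i)) = rs (Cu z) (rd M i) := by
    rw [← H28.rs_mulF hF hzp hzi hzi, ← H28.rd_mulF hi.rm hi.rm, hi.id]
  have hxs : ∀ g, g ∉ Cu z → rs (Cu z) (rd M i) g = 0 := by
    intro g hg
    unfold rs
    rw [if_neg hg]
  have hxin : ∀ g, g ∈ Cu z → rs (Cu z) (rd M i) g = rd M i g := by
    intro g hg
    unfold rs
    rw [if_pos hg]
  obtain ⟨j, hj, hjs, hjx⟩ := lft M G ⊥ (Cu z) (rs (Cu z) (rd M i)) hxx hxs (by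
    intro v hv g
    rw [Subgroup.mem_bot] at hv
    rw [hv, one_mul, inv_one, mul_one])
  have hjr : ∀ g ∈ Cu z, rr M (j g) = rr M (i g) := by
    intro g hg
    have h1 := congrFun hjx g
    rw [hxin g hg] at h1
    exact h1
  have hel : El ℓ z := by
    obtain ⟨n, hn⟩ := hV ⟨z, hz⟩
    refine ⟨n, ?_⟩
    have := congrArg Subtype.val hn
    simpa using this
  have s1 := smi ℓ M hM G z hel i j hi.rm hi.id (hi.iv z hz) hj.rm hj.id hjs hjr
    Δ hΔ.cl
  rw [s1]
  have e1 : fv j z Δ = ∑ᶠ c : Cu z, j c * Δ (z * c) := by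
    unfold fv
    exact H60.fsum_supp (Cu z) (fun g => j g * Δ (z * g)) (fun g hg => by
      rw [hjs g hg, zero_mul])
  have hid : mulF (fun c : Cu z => j c) (fun c : Cu z => j c) = fun c : Cu z => j c := by
    funext c
    have h1 := congrFun hj.id (c : G)
    unfold mulF at h1 ⊢
    rw [H60.fsum_supp (Cu z) (fun t => j t * j (t⁻¹ * (c : G))) (fun g hg => by
      rw [hjs g hg, zero_mul])] at h1
    exact h1
  have hp := prj ℓ M hM (Cu z) (fun c => j c) (fun c => hj.rm c) hid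
    (fun c => Δ (z * c)) ?_ ?_
  · rw [e1]
    exact hp
  · intro x y
    have hyz : (y : G) * z = z * y := Subgroup.mem_centralizer_singleton_iff.1 y.2
    have h3 : z * ((y : G) * x * (y : G)⁻¹) = y * (z * x) * (y : G)⁻¹ := by
      rw [← mul_assoc (y : G) z, hyz]
      group
    show Δ (z * ((y : G) * x * (y : G)⁻¹)) = Δ (z * x)
    rw [h3, hΔ.cl]
  · intro x hx
    show Δ (z * x) = 0
    have hc : z * (x : G) = x * z := (Subgroup.mem_centralizer_singleton_iff.1 x.2).symm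
    exact hΔ.sg _ (H76.sing_mul hz1 hel (T3.H62.reg_coe hx) hc)

/-- characters which are not in `f` -/
theorem chv_out (idm : KF.IdmStmt) {M : Ideal (integralClosure ℤ ℂ)} [M.IsMaximal] {G : Type}
    [Group G] [Finite G] (f : G → FF M) (hf : IsIdem f) (j : G → ℂ) (hjr : ∀ g, j g ∈ RM M)
    (hjj : mulF j j = j) (hjf : mulF (rd M j) f = rd M j) (χ : G → ℂ) (hχ : χ ∈ Irr G)
    (hχf : χ ∉ IrrE M f) : chv j χ = 0 := by
  obtain ⟨hv, hi, ha⟩ := idm M G f hf
  have hfR : ∀ g, eh M f g ∈ RM M := fun g => (hv g).1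
  have hfr : rd M (eh M f) = f := by
    funext g
    exact (hv g).2
  have hcomm : mulF (eh M f) j = mulF j (eh M f) := mulF_comm_cl hi.1 j
  have hJ : ma j * ma j = ma j := by rw [← ma_mul, hjj]
  have hBB : ma (eh M f) * ma (eh M f) = ma (eh M f) := by rw [← ma_mul, hi.2]
  have hC : ma (eh M f) * ma j = ma j * ma (eh M f) := by rw [← ma_mul, ← ma_mul, hcomm]
  have hp0 : j - mulF j (eh M f) = 0 := by
    refine H28.idem_zero (M := M) (p := j - mulF j (eh M f)) ?_ ?_ ?_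
    · intro g
      exact (RM M).sub_mem (hjr g) (H28.mulF_RM hjr hfR g)
    · intro g
      change rr M (j g - mulF j (eh M f) g) = 0
      rw [rr_sub (hjr g) (H28.mulF_RM hjr hfR g)]
      have h1 : rr M (mulF j (eh M f) g) = mulF (rd M j) (rd M (eh M f)) g := by
        rw [← H28.rd_mulF hjr hfR]
        rfl
      have h2 : rr M (j g) = rd M j g := rfl
      rw [h1, h2, hfr, hjf, sub_self]
    · apply ma_injective
      rw [ma_mul, ma_sub, ma_mul]
      have e1 : ma j * ma (eh M f) * ma j = ma j * ma (eh M f) := by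
        rw [mul_assoc, hC, ← mul_assoc, hJ]
      have e2 : ma j * ma (eh M f) * (ma j * ma (eh M f)) = ma j * ma (eh M f) := by
        rw [← mul_assoc, e1, mul_assoc, hBB]
      rw [sub_mul, mul_sub, mul_sub, hJ, e1, e2, ← mul_assoc, hJ, sub_self, sub_zero]
  have h3 : j = mulF (eh M f) j := by
    rw [hcomm]
    exact sub_eq_zero.1 hp0
  rw [h3]
  exact (ha χ hχ j).2 (fun h => hχf ⟨hχ, h⟩)

/-- the values of the characters at an idempotent -/
theorem chv_nat (fch : FchStmt) {M : Ideal (integralClosure ℤ ℂ)} [M.IsMaximal] {G : Type}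
    [Group G] [Finite G] (V : Subgroup G) (j : G → ℂ) (hj : Ip M V j) (χ : G → ℂ)
    (hχ : χ ∈ Irr G) : ∃ m : ℕ, chv j χ = m := by
  obtain ⟨m, hm⟩ := fch M G ⊥ (by
    intro a ha b hb
    rw [Subgroup.mem_bot] at ha hb
    rw [ha, hb]) j ⟨hj.rm, hj.id, by
      intro v hv x
      rw [Subgroup.mem_bot] at hv
      rw [hv, one_mul, inv_one, mul_one]⟩ χ hχ 1
  refine ⟨m, ?_⟩
  rw [← hm, finsum_unique]
  have h1 : Nat.card (⊥ : Subgroup G) = 1 := Subgroup.card_bot
  rw [h1, Nat.cast_one, inv_one, one_mul, MonoidHom.one_apply, mul_one]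
  unfold chv fv
  refine finsum_congr fun g => ?_
  have h2 : (((default : (⊥ : Subgroup G)) : (⊥ : Subgroup G)) : G) = 1 := by
    have h3 := (default : (⊥ : Subgroup G)).2
    rw [Subgroup.mem_bot] at h3
    exact h3
  rw [h2, one_mul]

end Pool.Agent.PP.T12.H56
end
end -- Pool.Agent.Helper56_AT12.STF2

section -- Pool.Agent.Helper56_AT12.STF3

/-!
# Squad AT12, row STF: combinatorics
-/

open scoped BigOperators

noncomputable section

namespace Pool.Agent.PP.T12.H56

theorem stf_comb {κ : Type} [Fintype κ] [DecidableEq κ] (K m : ℕ)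
    (hcard : Fintype.card κ = K + m) (c : Fin K → κ → ℤ) (y : κ → ℤ) (s : Fin K → ℤ)
    (r : Fin K → κ) (hr : Function.Injective r) (hs : ∀ i, s i = 1 ∨ s i = -1)
    (hy0 : ∀ i, y (r i) = 0) (hy1 : ∀ k, (∀ i, r i ≠ k) → y k = 1 ∨ y k = -1)
    (hc : ∀ i k, c i k = y k - if k = r i then s i else 0) :
    ∃ (G : Fin m → κ → ℤ) (yy : Fin m → ℤ) (pt : Fin m → κ), Function.Injective pt ∧
      (∀ p, yy p = 1 ∨ yy p = -1) ∧ (∀ p i, ∑ χ, G p χ * c i χ = 0) ∧
      (∀ p q, ∑ χ, G p χ * G q χ = (if p = q then 1 else 0) + K) ∧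
      (∀ p q χ, G p χ - G q χ = (if χ = pt p then yy p else 0) - (if χ = pt q then yy q else 0)) ∧
      (∀ N : κ → ℤ, (∀ i, ∑ χ, N χ * c i χ = 0) → ∀ χ, N χ = ∑ p, yy p * N (pt p) * G p χ) := by
  classical
  have hcc : Fintype.card {k // k ∉ Set.range r} = m := by
    have h1 : Fintype.card {k // k ∈ Set.range r} = K := by
      have h2 : Fintype.card (Set.range r) = Fintype.card (Fin K) :=
        Set.card_range_of_injective hr
      rw [Fintype.card_fin] at h2
      exact h2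
    have h3 := Fintype.card_subtype_compl (fun k => k ∈ Set.range r)
    rw [h1, hcard] at h3
    omega
  obtain ⟨e0⟩ : Nonempty ({k // k ∉ Set.range r} ≃ Fin m) := by
    have h1 := Fintype.equivFin {k // k ∉ Set.range r}
    rw [hcc] at h1
    exact ⟨h1⟩
  obtain ⟨pt, hpt⟩ : ∃ pt : Fin m → κ, ∀ p, pt p = (e0.symm p).1 := ⟨_, fun _ => rfl⟩
  have hptr : ∀ p i, r i ≠ pt p := by
    intro p i h
    rw [hpt] at h
    exact (e0.symm p).2 ⟨i, h⟩
  have hptinj : Function.Injective pt := by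
    intro p q h
    rw [hpt, hpt] at h
    exact e0.symm.injective (Subtype.ext h)
  have hbij : Function.Bijective (Sum.elim pt r : Fin m ⊕ Fin K → κ) := by
    constructor
    · rintro (p | i) (q | j) h
      · exact congrArg Sum.inl (hptinj h)
      · exact absurd h.symm (hptr p j)
      · exact absurd h (hptr q i)
      · exact congrArg Sum.inr (hr h)
    · intro k
      by_cases hk : k ∈ Set.range r
      · obtain ⟨i, hi⟩ := hk
        exact ⟨Sum.inr i, hi⟩
      · refine ⟨Sum.inl (e0 ⟨k, hk⟩), ?_⟩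
        change pt (e0 ⟨k, hk⟩) = k
        rw [hpt, e0.symm_apply_apply]
  have hsplit : ∀ F : κ → ℤ, ∑ χ, F χ = ∑ p, F (pt p) + ∑ i, F (r i) := by
    intro F
    rw [← Equiv.sum_comp (Equiv.ofBijective _ hbij) F, Fintype.sum_sum_type]
    rfl
  obtain ⟨G, hG⟩ : ∃ G : Fin m → κ → ℤ, ∀ p χ, G p χ = (if χ = pt p then y (pt p) else 0) +
    ∑ i, if χ = r i then s i else 0 := ⟨fun p χ => _, fun _ _ => rfl⟩
  have hGp : ∀ p q, G p (pt q) = if p = q then y (pt q) else 0 := by
    intro p q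
    rw [hG, Finset.sum_eq_zero (fun i _ => if_neg (fun h => hptr q i h.symm)), add_zero]
    by_cases h : p = q
    · rw [h, if_pos rfl, if_pos rfl]
    · rw [if_neg h, if_neg (fun h1 => h (hptinj h1).symm)]
  have hGr : ∀ p i, G p (r i) = s i := by
    intro p i
    rw [hG, if_neg (hptr p i), zero_add, Finset.sum_eq_single i, if_pos rfl]
    · intro j _ hj
      rw [if_neg (fun h => hj (hr h).symm)]
    · intro h
      exact absurd (Finset.mem_univ i) h
  have hcp : ∀ i p, c i (pt p) = y (pt p) := by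
    intro i p
    rw [hc, if_neg (fun h => hptr p i h.symm), sub_zero]
  have hcr : ∀ i j, c i (r j) = - if i = j then s i else 0 := by
    intro i j
    rw [hc, hy0, zero_sub]
    by_cases h : i = j
    · rw [h, if_pos rfl, if_pos rfl]
    · rw [if_neg h, if_neg (fun h1 => h (hr h1).symm)]
  have hyp : ∀ p, y (pt p) = 1 ∨ y (pt p) = -1 := fun p => hy1 _ (hptr p)
  have hyy : ∀ p, y (pt p) * y (pt p) = 1 := by
    intro p
    rcases hyp p with h | h <;> rw [h] <;> norm_num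
  have hss : ∀ i, s i * s i = 1 := by
    intro p
    rcases hs p with h | h <;> rw [h] <;> norm_num
  refine ⟨G, fun p => y (pt p), pt, hptinj, hyp, ?_, ?_, ?_, ?_⟩
  · intro p i
    rw [hsplit]
    have h1 : ∑ q, G p (pt q) * c i (pt q) = 1 := by
      rw [Finset.sum_eq_single p]
      · rw [hGp, if_pos rfl, hcp, hyy]
      · intro q _ hq
        rw [hGp, if_neg (Ne.symm hq), zero_mul]
      · intro h
        exact absurd (Finset.mem_univ p) h
    have h2 : ∑ j, G p (r j) * c i (r j) = -1 := by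
      rw [Finset.sum_eq_single i]
      · rw [hGr, hcr, if_pos rfl, mul_neg, hss]
      · intro q _ hq
        rw [hcr, if_neg (Ne.symm hq), neg_zero, mul_zero]
      · intro h
        exact absurd (Finset.mem_univ i) h
    rw [h1, h2]
    norm_num
  · intro p q
    rw [hsplit]
    have h1 : ∑ t, G p (pt t) * G q (pt t) = if p = q then 1 else 0 := by
      rw [Finset.sum_eq_single p]
      · rw [hGp, if_pos rfl, hGp]
        by_cases h : p = q
        · rw [h, if_pos rfl, if_pos rfl, hyy]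
        · rw [if_neg h, if_neg (Ne.symm h), mul_zero]
      · intro t _ ht
        rw [hGp, if_neg (Ne.symm ht), zero_mul]
      · intro h
        exact absurd (Finset.mem_univ p) h
    have h2 : ∑ j, G p (r j) * G q (r j) = K := by
      rw [Finset.sum_congr rfl (fun j _ => by rw [hGr, hGr, hss]), Finset.sum_const,
        Finset.card_univ, Fintype.card_fin, nsmul_eq_mul, mul_one]
    rw [h1, h2]
  · intro p q χ
    rw [hG, hG]
    ring
  · intro N hN χ
    have hNr : ∀ i, N (r i) = s i * ∑ p, y (pt p) * N (pt p) := by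
      intro i
      have h1 := hN i
      rw [hsplit] at h1
      have h2 : ∑ j, N (r j) * c i (r j) = - (N (r i) * s i) := by
        rw [Finset.sum_eq_single i]
        · rw [hcr, if_pos rfl, mul_neg]
        · intro q _ hq
          rw [hcr, if_neg (Ne.symm hq), neg_zero, mul_zero]
        · intro h
          exact absurd (Finset.mem_univ i) h
      have h3 : ∑ p, N (pt p) * c i (pt p) = ∑ p, y (pt p) * N (pt p) :=
        Finset.sum_congr rfl fun p _ => by rw [hcp, mul_comm]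
      rw [h2, h3] at h1
      have h4 : ∑ p, y (pt p) * N (pt p) = N (r i) * s i := by linarith
      rw [h4, ← mul_assoc, mul_comm (s i), mul_assoc, hss, mul_one]
    obtain ⟨x, hx⟩ := hbij.2 χ
    rcases x with q | i
    · change pt q = χ at hx
      rw [← hx, Finset.sum_eq_single q]
      · rw [hGp, if_pos rfl]
        have h1 : y (pt q) * N (pt q) * y (pt q) = (y (pt q) * y (pt q)) * N (pt q) := by ring
        rw [h1, hyy, one_mul]
      · intro t _ ht
        rw [hGp, if_neg ht, mul_zero]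
      · intro h
        exact absurd (Finset.mem_univ q) h
    · change r i = χ at hx
      rw [← hx, hNr, Finset.mul_sum]
      refine Finset.sum_congr rfl fun p _ => ?_
      rw [hGr]
      ring

end Pool.Agent.PP.T12.H56
end
end -- Pool.Agent.Helper56_AT12.STF3

section -- Pool.Agent.Helper56_AT12.STF4

/-!
# Squad AT12, row STF: combinations of irreducible characters
-/

open scoped BigOperators

noncomputable section

namespace Pool.Agent.PP.T12.H56

open Pool.Agent.Helper51_AWC Pool.Agent.Helper79_WRA Pool.Agent.PP Pool.Agent.PP.KF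
open Pool.Agent.PP.K9 Pool.Agent.PP.K9.H97 Pool.Agent.PP.H75 Pool.Agent.PP.T3 Pool.Agent.PP.T2
open Pool.Agent.PP.T8

attribute [local instance] Ideal.Quotient.field

section

variable {G : Type} [Group G]

/-- a combination of characters -/
def Ph (S : Finset (G → ℂ)) (a : S → ℂ) : G → ℂ := fun x => ∑ χ : S, a χ * (χ : G → ℂ) x

theorem ph_span (S : Finset (G → ℂ)) (a : S → ℂ) :
    Ph S a ∈ Submodule.span ℂ (S : Set (G → ℂ)) := by
  have h : Ph S a = ∑ χ : S, a χ • (χ : G → ℂ) := by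
    funext x
    unfold Ph
    rw [Finset.sum_apply]
    rfl
  rw [h]
  exact Submodule.sum_mem _ fun χ _ => Submodule.smul_mem _ _ (Submodule.subset_span χ.2)

theorem ph_closure (S : Finset (G → ℂ)) (n : S → ℤ) :
    Ph S (fun χ => (n χ : ℂ)) ∈ AddSubgroup.closure (S : Set (G → ℂ)) := by
  have h : Ph S (fun χ => (n χ : ℂ)) = ∑ χ : S, n χ • (χ : G → ℂ) := by
    funext x
    unfold Ph
    rw [Finset.sum_apply]
    refine Finset.sum_congr rfl fun χ _ => ?_
    rw [Pi.smul_apply, zsmul_eq_mul]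
  rw [h]
  exact AddSubgroup.sum_mem _ fun χ _ =>
    AddSubgroup.zsmul_mem _ (AddSubgroup.subset_closure χ.2) _

theorem ph_cl (S : Finset (G → ℂ)) (hS : ∀ ψ ∈ S, ψ ∈ Irr G) (a : S → ℂ) (x y : G) :
    Ph S a (y * x * y⁻¹) = Ph S a x := by
  unfold Ph
  refine Finset.sum_congr rfl fun χ _ => ?_
  rw [irr_conj (hS _ χ.2)]

variable [Finite G]

theorem ipn_irr (χ ψ : G → ℂ) (hχ : χ ∈ Irr G) (hψ : ψ ∈ Irr G) [Decidable (χ = ψ)] :
    ipn χ ψ = if χ = ψ then 1 else 0 := by
  have := Fintype.ofFinite G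
  have hc : (Fintype.card G : ℂ) ≠ 0 := by exact_mod_cast Fintype.card_ne_zero
  unfold ipn
  rw [finsum_eq_sum_of_fintype, Nat.card_eq_fintype_card]
  have h1 : ∑ x, χ x * starRingEnd ℂ (ψ x) = ∑ x, χ x * ψ x⁻¹ :=
    Finset.sum_congr rfl fun x _ => by rw [H94.irr_star hψ]
  rw [h1]
  by_cases h : χ = ψ
  · subst h
    rw [if_pos rfl, irr_orth_self hχ, inv_mul_cancel₀ hc]
  · rw [if_neg h, irr_orth_ne hχ hψ h, mul_zero]

theorem ipn_ph_left (S : Finset (G → ℂ)) (a : S → ℂ) (ψ : G → ℂ) :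
    ipn (Ph S a) ψ = ∑ χ : S, a χ * ipn χ ψ := by
  have := Fintype.ofFinite G
  unfold ipn Ph
  simp only [finsum_eq_sum_of_fintype]
  rw [Finset.mul_sum]
  have h1 : ∀ χ : S, a χ * ((Nat.card G : ℂ)⁻¹ * ∑ x, (χ : G → ℂ) x * starRingEnd ℂ (ψ x)) =
      ∑ x, (Nat.card G : ℂ)⁻¹ * (a χ * (χ : G → ℂ) x * starRingEnd ℂ (ψ x)) := by
    intro χ
    rw [Finset.mul_sum, Finset.mul_sum]
    exact Finset.sum_congr rfl fun x _ => by ring
  rw [Finset.sum_congr rfl fun χ _ => h1 χ, Finset.sum_comm]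
  refine Finset.sum_congr rfl fun x _ => ?_
  rw [← Finset.mul_sum, Finset.sum_mul]

theorem ipn_ph_right (S : Finset (G → ℂ)) (a : S → ℂ) (ψ : G → ℂ) :
    ipn ψ (Ph S a) = ∑ χ : S, starRingEnd ℂ (a χ) * ipn ψ χ := by
  have := Fintype.ofFinite G
  unfold ipn Ph
  simp only [finsum_eq_sum_of_fintype]
  rw [Finset.mul_sum]
  have h1 : ∀ χ : S, starRingEnd ℂ (a χ) * ((Nat.card G : ℂ)⁻¹ *
      ∑ x, ψ x * starRingEnd ℂ ((χ : G → ℂ) x)) =
      ∑ x, (Nat.card G : ℂ)⁻¹ * (ψ x * (starRingEnd ℂ (a χ) * starRingEnd ℂ ((χ : G → ℂ) x))) := by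
    intro χ
    rw [Finset.mul_sum, Finset.mul_sum]
    exact Finset.sum_congr rfl fun x _ => by ring
  rw [Finset.sum_congr rfl fun χ _ => h1 χ, Finset.sum_comm]
  refine Finset.sum_congr rfl fun x _ => ?_
  rw [← Finset.mul_sum, ← Finset.mul_sum, map_sum]
  simp only [map_mul]

theorem ipn_ph_self (S : Finset (G → ℂ)) (hS : ∀ ψ ∈ S, ψ ∈ Irr G) (a : S → ℂ) (ψ : S) :
    ipn (Ph S a) ψ = a ψ := by
  classical
  rw [ipn_ph_left, Finset.sum_eq_single ψ]
  · rw [ipn_irr _ _ (hS _ ψ.2) (hS _ ψ.2), if_pos rfl, mul_one]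
  · intro χ _ hχ
    rw [ipn_irr _ _ (hS _ χ.2) (hS _ ψ.2), if_neg (fun h => hχ (Subtype.ext h)), mul_zero]
  · intro h
    exact absurd (Finset.mem_univ ψ) h

theorem ipn_ph_ph (S : Finset (G → ℂ)) (hS : ∀ ψ ∈ S, ψ ∈ Irr G) (a b : S → ℤ) :
    ipn (Ph S (fun χ => (a χ : ℂ))) (Ph S (fun χ => (b χ : ℂ))) =
      ((∑ χ, a χ * b χ : ℤ) : ℂ) := by
  rw [ipn_ph_right]
  push_cast
  refine Finset.sum_congr rfl fun χ _ => ?_
  rw [ipn_ph_self S hS]
  simp [mul_comm]

/-- the values of a class function at `j` -/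
theorem chv_sum (S : Finset (G → ℂ)) (hS : ∀ ψ ∈ S, ψ ∈ Irr G) (j : G → ℂ) (n : S → ℂ)
    (h1 : ∀ χ : S, chv j χ = n χ) (h0 : ∀ χ ∈ Irr G, χ ∉ S → chv j χ = 0) (th : G → ℂ)
    (hth : ∀ x y, th (y * x * y⁻¹) = th x) :
    ∑ᶠ h, j h * th h = ∑ χ : S, n χ * ipn th χ := by
  classical
  have := Fintype.ofFinite G
  obtain ⟨T, hT⟩ : ∃ T : Finset (G → ℂ), T = (irr_finite' (G := G)).toFinset := ⟨_, rfl⟩
  have hTm : ∀ χ, χ ∈ T ↔ χ ∈ Irr G := fun χ => by rw [hT, Set.Finite.mem_toFinset]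
  have hTc : (T : Set (G → ℂ)) = Irr G := by rw [hT, Set.Finite.coe_toFinset]
  have h2 := T3.H98.span_irr hth
  rw [← hTc] at h2
  have h3 := K9.H25.pj_span (fun ψ hψ => (hTm ψ).1 hψ) h2
  have h4 : ∀ x, th x = ∑ ψ ∈ T, ipn th ψ * ψ x := by
    intro x
    have h5 := congrFun h3 x
    unfold K9.H25.pj at h5
    rw [Finset.sum_apply] at h5
    rw [← h5]
    refine Finset.sum_congr rfl fun ψ hψ => ?_
    rw [Pi.smul_apply, smul_eq_mul]
    congr 1
    unfold ipn
    rw [finsum_eq_sum_of_fintype, Nat.card_eq_fintype_card]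
    congr 1
    refine Finset.sum_congr rfl fun s _ => ?_
    rw [H94.irr_star ((hTm ψ).1 hψ)]
  rw [finsum_eq_sum_of_fintype]
  have h5 : ∀ x, j x * th x = ∑ ψ ∈ T, ipn th ψ * (j x * ψ x) := by
    intro x
    conv_lhs => rw [h4 x]
    rw [Finset.mul_sum]
    exact Finset.sum_congr rfl fun ψ _ => by ring
  rw [Finset.sum_congr rfl fun x _ => h5 x, Finset.sum_comm]
  have h6 : ∀ ψ, ∑ x, ipn th ψ * (j x * ψ x) = ipn th ψ * chv j ψ := by
    intro ψ
    rw [← Finset.mul_sum]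
    unfold chv
    rw [finsum_eq_sum_of_fintype]
  rw [Finset.sum_congr rfl fun ψ _ => h6 ψ]
  have h7 : ∑ χ : S, n χ * ipn th χ = ∑ ψ ∈ S, ipn th ψ * chv j ψ := by
    rw [← Finset.sum_coe_sort S (fun ψ => ipn th ψ * chv j ψ)]
    refine Finset.sum_congr rfl fun χ _ => ?_
    rw [h1, mul_comm]
  rw [h7]
  symm
  refine Finset.sum_subset (fun ψ hψ => (hTm ψ).2 (hS ψ hψ)) ?_
  intro ψ hψ hψS
  rw [h0 ψ ((hTm ψ).1 hψ) hψS, mul_zero]

/-- a class function which is orthogonal to the class functions at the singular elements -/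
theorem sing_zero {ℓ : ℕ} (Ψ : G → ℂ) (hΨ : ∀ x y, Ψ (y * x * y⁻¹) = Ψ x)
    (h : ∀ th : G → ℂ, (∀ x y, th (y * x * y⁻¹) = th x) → (∀ x, Reg ℓ x → th x = 0) →
      ipn th Ψ = 0) (x : G) (hx : ¬ Reg ℓ x) : Ψ x = 0 := by
  classical
  have := Fintype.ofFinite G
  have hc : (Fintype.card G : ℂ) ≠ 0 := by exact_mod_cast Fintype.card_ne_zero
  have h1 := h (fun z => if Reg ℓ z then 0 else Ψ z) ?_ ?_
  · unfold ipn at h1
    rw [finsum_eq_sum_of_fintype, Nat.card_eq_fintype_card] at h1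
    have h2 := (mul_eq_zero.1 h1).resolve_left (inv_ne_zero hc)
    have h3 : ∀ z, (if Reg ℓ z then (0 : ℂ) else Ψ z) * starRingEnd ℂ (Ψ z) =
        ((if Reg ℓ z then 0 else Complex.normSq (Ψ z) : ℝ) : ℂ) := by
      intro z
      by_cases hz : Reg ℓ z
      · rw [if_pos hz, if_pos hz, zero_mul, Complex.ofReal_zero]
      · rw [if_neg hz, if_neg hz, Complex.mul_conj]
    rw [Finset.sum_congr rfl fun z _ => h3 z, ← Complex.ofReal_sum, Complex.ofReal_eq_zero] at h2
    rw [Finset.sum_eq_zero_iff_of_nonneg (fun z _ => by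
      by_cases hz : Reg ℓ z
      · rw [if_pos hz]
      · rw [if_neg hz]
        exact Complex.normSq_nonneg _)] at h2
    have h4 := h2 x (Finset.mem_univ x)
    rw [if_neg hx] at h4
    exact Complex.normSq_eq_zero.1 h4
  · intro a b
    have h2 : Reg ℓ (b * a * b⁻¹) ↔ Reg ℓ a := by
      have h3 : orderOf (b * a * b⁻¹) = orderOf a :=
        orderOf_injective (MulAut.conj b).toMonoidHom (MulAut.conj b).injective a
      unfold Reg
      rw [h3]
    by_cases ha : Reg ℓ a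
    · rw [if_pos ha, if_pos (h2.2 ha)]
    · rw [if_neg ha, if_neg (fun hh => ha (h2.1 hh)), hΨ]
  · intro a ha
    rw [if_pos ha]

end

end Pool.Agent.PP.T12.H56
end
end -- Pool.Agent.Helper56_AT12.STF4

section -- Pool.Agent.Helper56_AT12.STF

/-!
# Squad AT12, row STF: the structure of the block
-/

open scoped BigOperators

noncomputable section

namespace Pool.Agent.PP.T12.H56

open Pool.Agent.Helper51_AWC Pool.Agent.Helper79_WRA Pool.Agent.PP Pool.Agent.PP.KF
open Pool.Agent.PP.K9 Pool.Agent.PP.K9.H97 Pool.Agent.PP.H75 Pool.Agent.PP.T3 Pool.Agent.PP.T2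
open Pool.Agent.PP.T8

attribute [local instance] Ideal.Quotient.field

theorem fv_lin {G : Type} [Group G] [Finite G] (j : G → ℂ) (z : G) (a b : ℂ) (χ ψ Δ : G → ℂ)
    (h : ∀ x, Δ x = a * χ x - b * ψ x) : fv j z Δ = a * fv j z χ - b * fv j z ψ := by
  have := Fintype.ofFinite G
  unfold fv
  rw [finsum_eq_sum_of_fintype, finsum_eq_sum_of_fintype, finsum_eq_sum_of_fintype,
    Finset.mul_sum, Finset.mul_sum, ← Finset.sum_sub_distrib]
  refine Finset.sum_congr rfl fun x _ => ?_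
  rw [h]
  ring

theorem fv_one {G : Type} [Group G] (j χ : G → ℂ) : fv j 1 χ = chv j χ := by
  unfold fv chv
  exact finsum_congr fun g => by rw [one_mul]

theorem stf (ann' : AnnStmt) (cms : CmsStmt) (pr2 : T2.Pr2Stmt) (dat : DatStmt) (hfor : ForStmt)
    (fni : FniStmt) (fgr : FgrStmt) (fnz : FnzStmt) (prj : PrjStmt) (smi : SmiStmt)
    (fch : FchStmt) (lft : T8.LftStmt) (idm : KF.IdmStmt) : StfStmt := by
  classical
  intro ℓ _ M _ hM hl2 G _ _ e V γ hL hF hix h3
  have := Fintype.ofFinite G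
  have hpr : ℓ.Prime := Fact.out
  have he : IsIdem e := hL.blk.1
  obtain ⟨N, hN⟩ := pr2 ℓ hl2 G
  obtain ⟨b, d, c, ε, hD⟩ := dat ℓ M hM G e V γ hL
  have hG : GoodF ℓ (FF M) := H50.fld ℓ Fact.out M hM
  obtain ⟨K, u, lam, hu, huo, hl, hlo, hall⟩ := hfor ℓ (FF M) hG G e V γ hL hF
  have hcnt := count hL hF K u lam hu huo hall
  have hm := ix_pos V γ
  have hK3 : 3 ≤ K := by
    rw [← hcnt] at h3
    by_contra hcon
    have h4 : K ≤ 2 := by omega
    have h5 : ix V γ * K ≤ ix V γ * 2 := Nat.mul_le_mul_left _ h4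
    omega
  have hV : V ≠ ⊥ := by
    intro h
    rw [h] at h3
    have h1 : Nat.card (⊥ : Subgroup G) = 1 := Subgroup.card_bot
    rw [h1] at h3
    rw [h] at hm
    omega
  obtain ⟨hk, hann⟩ := ann' ℓ M hM hl2 G N hN e V γ b d c ε hD hF hV hix K u lam hu huo hl hlo hall
  have hfin : (IrrE M e).Finite := K9.H25.irrE_finite M e
  obtain ⟨S, hSdef⟩ : ∃ S : Finset (G → ℂ), S = hfin.toFinset := ⟨_, rfl⟩
  have hSc : (S : Set (G → ℂ)) = IrrE M e := by rw [hSdef, Set.Finite.coe_toFinset]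
  have hmem : ∀ χ, χ ∈ S ↔ χ ∈ IrrE M e := fun χ => by
    rw [hSdef, Set.Finite.mem_toFinset]
  have hS : ∀ ψ ∈ S, ψ ∈ Irr G := fun ψ hψ => ((hmem ψ).1 hψ).1
  have hcard : Fintype.card S = K + ix V γ := by
    rw [← hk, ← hSc, Set.ncard_coe_finset, Fintype.card_coe]
  obtain ⟨z1, z2, z3⟩ := fnz ℓ M hM hl2 G e V γ b d c ε hD hF
  -- the integers
  have hint : ∀ (i : Fin K) (χ : S), ∃ n : ℤ, cl M V b d ε (lam i) χ = n := fun i χ =>
    fni ℓ M hM hl2 G N hN e V γ b d c ε hD hF χ (hS _ χ.2) (lam i)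
  choose C hC using hint
  have hsum : ∀ i j, ∑ᶠ χ ∈ Irr G, cl M V b d ε (lam i) χ *
      starRingEnd ℂ (cl M V b d ε (lam j) χ) = ((∑ χ : S, C i χ * C j χ : ℤ) : ℂ) := by
    intro i j
    have h3 : ∑ᶠ χ ∈ Irr G, cl M V b d ε (lam i) χ *
        starRingEnd ℂ (cl M V b d ε (lam j) χ) = ∑ᶠ χ ∈ IrrE M e, cl M V b d ε (lam i) χ *
        starRingEnd ℂ (cl M V b d ε (lam j) χ) := by
      refine finsum_congr fun χ => ?_
      rw [finsum_eq_if, finsum_eq_if]
      by_cases hχ : χ ∈ Irr G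
      · by_cases hχe : χ ∈ IrrE M e
        · rw [if_pos hχ, if_pos hχe]
        · rw [if_pos hχ, if_neg hχe, z3 (lam i) χ hχ hχe, zero_mul]
      · rw [if_neg hχ, if_neg (fun h => hχ h.1)]
    rw [h3, finsum_mem_eq_finite_toFinset_sum _ hfin, ← hSdef, ← Finset.sum_coe_sort]
    push_cast
    refine Finset.sum_congr rfl fun χ _ => ?_
    rw [hC, hC]
    simp
  have hg1 : ∀ i, ∑ k, C i k * C i k = 1 + (ix V γ : ℤ) := by
    intro i
    have h6 := (fgr ℓ M hM hl2 G e V γ b d c ε hD hF (lam i) (lam i) (hl i) (hl i)).1 rfl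
    rw [hsum i i] at h6
    exact_mod_cast h6
  have hg2 : ∀ i j, i ≠ j → ∑ k, C i k * C j k = (ix V γ : ℤ) := by
    intro i j hij
    have h6 := (fgr ℓ M hM hl2 G e V γ b d c ε hD hF (lam i) (lam j) (hl i) (hl j)).2
      (hlo j i (Ne.symm hij))
    rw [hsum i j] at h6
    exact_mod_cast h6
  obtain ⟨y, s, r, hr, hs, hy0, hy1, hc⟩ := cms (Fin K) S C (ix V γ) hg1 hg2 (by
    intro χ
    obtain ⟨mu, hmu, hne⟩ := z2 hV χ ((hmem _).1 χ.2)
    obtain ⟨i, t, ht, htc⟩ := hall mu hmu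
    refine ⟨i, ?_⟩
    intro h0
    apply hne
    rw [z1 t ht (lam i) mu htc χ (hS _ χ.2), hC, h0, Int.cast_zero]) (by
    rw [Fintype.card_fin]
    exact hK3) (by
    rw [Fintype.card_fin, hcard])
  obtain ⟨Gm, yy, pt, hpt, hyy, c1, c2, c3, c4⟩ := stf_comb K (ix V γ) hcard C y s r hr hs hy0 hy1 hc
  obtain ⟨g, hg⟩ : ∃ g : Fin (ix V γ) → G → ℂ, ∀ p, g p = Ph S (fun χ => (Gm p χ : ℂ)) :=
    ⟨_, fun _ => rfl⟩
  have hgcl : ∀ p x y, g p (y * x * y⁻¹) = g p x := by
    intro p x y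
    rw [hg, ph_cl S hS]
  -- the criterion
  have hcrit : ∀ n : S → ℤ, Rc ℓ (Ph S (fun χ => (n χ : ℂ))) ↔ ∀ i, ∑ χ, n χ * C i χ = 0 := by
    intro n
    rw [hann (Ph S (fun χ => (n χ : ℂ))) (by rw [← hSc]; exact ph_span S _)]
    refine forall_congr' fun i => ?_
    have h1 : ∑ᶠ χ ∈ IrrE M e, ipn (Ph S (fun χ => (n χ : ℂ))) χ * cl M V b d ε (lam i) χ =
        ((∑ χ, n χ * C i χ : ℤ) : ℂ) := by
      rw [finsum_mem_eq_finite_toFinset_sum _ hfin, ← hSdef, ← Finset.sum_coe_sort]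
      push_cast
      refine Finset.sum_congr rfl fun χ _ => ?_
      rw [ipn_ph_self S hS, hC]
    rw [h1, Int.cast_eq_zero]
  have hgrc : ∀ p, Rc ℓ (g p) := by
    intro p
    rw [hg]
    exact (hcrit (Gm p)).2 (c1 p)
  refine ⟨K, g, hcnt, ?_, hgrc, ?_, ?_⟩
  · intro p
    rw [hg]
    unfold ZE
    rw [← hSc]
    exact ph_closure S (Gm p)
  · intro p q
    rw [hg, hg, ipn_ph_ph S hS, c2]
    push_cast
    rfl
  · intro j hj hjf
    have hchn : ∀ χ : S, ∃ n : ℕ, chv j χ = n := fun χ => chv_nat fch V j hj χ (hS _ χ.2)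
    choose n hn using hchn
    have hout : ∀ χ ∈ Irr G, χ ∉ S → chv j χ = 0 := fun χ hχ hχS =>
      chv_out idm e he j hj.rm hj.id hjf χ hχ (fun h => hχS ((hmem χ).2 h))
    have hval : ∀ th : G → ℂ, (∀ x y, th (y * x * y⁻¹) = th x) →
        ∑ᶠ h, j h * th h = ∑ χ : S, (n χ : ℂ) * ipn th χ := fun th hth =>
      chv_sum S hS j (fun χ => (n χ : ℂ)) hn hout th hth
    obtain ⟨Ψ, hΨ⟩ : ∃ Ψ : G → ℂ, Ψ = Ph S (fun χ => (((n χ : ℕ) : ℤ) : ℂ)) := ⟨_, rfl⟩
    have hΨip : ∀ th : G → ℂ, ipn th Ψ = ∑ χ : S, (n χ : ℂ) * ipn th χ := by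
      intro th
      rw [hΨ, ipn_ph_right]
      refine Finset.sum_congr rfl fun χ _ => ?_
      simp
    have hΨcl : ∀ x y, Ψ (y * x * y⁻¹) = Ψ x := by
      intro x y
      rw [hΨ, ph_cl S hS]
    have hΨrc : Rc ℓ Ψ := by
      refine ⟨hΨcl, ?_⟩
      intro x hx
      refine sing_zero (ℓ := ℓ) Ψ hΨcl ?_ x hx
      intro th hth hth0
      rw [hΨip, ← hval th hth]
      exact prj ℓ M hM G j hj.rm hj.id th hth hth0
    have hNz : ∀ i, ∑ χ, ((n χ : ℕ) : ℤ) * C i χ = 0 := by
      rw [hΨ] at hΨrc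
      exact (hcrit (fun χ => ((n χ : ℕ) : ℤ))).1 hΨrc
    have hc4 := c4 (fun χ => ((n χ : ℕ) : ℤ)) hNz
    refine ⟨fun p => yy p * ((n (pt p) : ℕ) : ℤ), ?_, ?_⟩
    · intro p q
      obtain ⟨mp, hmp⟩ := fch M G V hL.ab j hj (pt p) (hS _ (pt p).2) 1
      obtain ⟨mq, hmq⟩ := fch M G V hL.ab j hj (pt q) (hS _ (pt q).2) 1
      have i1 : Fintype V := Fintype.ofFinite V
      have hVc : (Nat.card V : ℂ) ≠ 0 := by exact_mod_cast Nat.card_pos.ne'
      rw [finsum_eq_sum_of_fintype] at hmp hmq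
      have hmp' : ∑ v : V, fv j v (pt p) = (Nat.card V : ℂ) * mp := by
        rw [← hmp, ← mul_assoc, mul_inv_cancel₀ hVc, one_mul]
        exact Finset.sum_congr rfl fun v _ => by rw [MonoidHom.one_apply, mul_one]
      have hmq' : ∑ v : V, fv j v (pt q) = (Nat.card V : ℂ) * mq := by
        rw [← hmq, ← mul_assoc, mul_inv_cancel₀ hVc, one_mul]
        exact Finset.sum_congr rfl fun v _ => by rw [MonoidHom.one_apply, mul_one]
      obtain ⟨Δ, hΔ⟩ : ∃ Δ : G → ℂ, ∀ x, Δ x = g p x - g q x := ⟨_, fun _ => rfl⟩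
      have hΔrc : Rc ℓ Δ := by
        refine ⟨?_, ?_⟩
        · intro x y
          rw [hΔ, hΔ, hgcl, hgcl]
        · intro x hx
          rw [hΔ, (hgrc p).sg x hx, (hgrc q).sg x hx, sub_zero]
      have hΔpt : ∀ x, Δ x = (yy p : ℂ) * (pt p : G → ℂ) x - (yy q : ℂ) * (pt q : G → ℂ) x := by
        intro x
        rw [hΔ, hg, hg]
        unfold Ph
        rw [← Finset.sum_sub_distrib]
        have h1 : ∀ χ : S, (Gm p χ : ℂ) * (χ : G → ℂ) x - (Gm q χ : ℂ) * (χ : G → ℂ) x =
            (if χ = pt p then (yy p : ℂ) * (χ : G → ℂ) x else 0) -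
            (if χ = pt q then (yy q : ℂ) * (χ : G → ℂ) x else 0) := by
          intro χ
          have h2 := c3 p q χ
          have h3' : (Gm p χ : ℂ) - (Gm q χ : ℂ) =
              (if χ = pt p then (yy p : ℂ) else 0) - (if χ = pt q then (yy q : ℂ) else 0) := by
            have h4 := congrArg (Int.cast : ℤ → ℂ) h2
            push_cast at h4
            exact h4
          rw [← sub_mul, h3', sub_mul, ite_mul, ite_mul, zero_mul]
        rw [Finset.sum_congr rfl fun χ _ => h1 χ, Finset.sum_sub_distrib,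
          Finset.sum_ite_eq' Finset.univ (pt p), if_pos (Finset.mem_univ _),
          Finset.sum_ite_eq' Finset.univ (pt q), if_pos (Finset.mem_univ _)]
      have hsumΔ : ∑ v : V, fv j v Δ = (yy p : ℂ) * ((Nat.card V : ℂ) * mp) -
          (yy q : ℂ) * ((Nat.card V : ℂ) * mq) := by
        rw [← hmp', ← hmq', Finset.mul_sum, Finset.mul_sum, ← Finset.sum_sub_distrib]
        exact Finset.sum_congr rfl fun v _ => fv_lin j v _ _ _ _ Δ hΔpt
      have hsumΔ' : ∑ v : V, fv j v Δ = fv j 1 Δ := by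
        rw [Finset.sum_eq_single (1 : V)]
        · rfl
        · intro v _ hv
          exact fv_zero lft smi prj M hM V hL.tp.pg j hj Δ hΔrc v v.2
            (fun h => hv (Subtype.ext h))
        · intro h
          exact absurd (Finset.mem_univ _) h
      have hfin2 : fv j 1 Δ = (yy p : ℂ) * (n (pt p) : ℂ) - (yy q : ℂ) * (n (pt q) : ℂ) := by
        rw [fv_lin j 1 _ _ _ _ Δ hΔpt, fv_one, fv_one, hn, hn]
      rw [hcnt]
      refine ⟨yy p * mp - yy q * mq, ?_⟩
      have h9 : (yy p : ℂ) * (n (pt p) : ℂ) - (yy q : ℂ) * (n (pt q) : ℂ) =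
          (Nat.card V : ℂ) * ((yy p : ℂ) * mp - (yy q : ℂ) * mq) := by
        rw [← hfin2, ← hsumΔ', hsumΔ]
        ring
      have h10 : ((yy p * ((n (pt p) : ℕ) : ℤ) - yy q * ((n (pt q) : ℕ) : ℤ) : ℤ) : ℂ) =
          ((((Nat.card V : ℕ) : ℤ) * (yy p * (mp : ℤ) - yy q * (mq : ℤ)) : ℤ) : ℂ) := by
        push_cast
        exact h9
      exact Int.cast_injective h10
    · intro th hth
      rw [hval th hth]
      have h1 : ∀ p, ipn th (g p) = ∑ χ : S, (Gm p χ : ℂ) * ipn th χ := by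
        intro p
        rw [hg, ipn_ph_right]
        refine Finset.sum_congr rfl fun χ _ => ?_
        simp
      have h2 : ∀ χ : S, (n χ : ℂ) = ∑ p, (yy p : ℂ) * (n (pt p) : ℂ) * (Gm p χ : ℂ) := by
        intro χ
        have h3' := congrArg (Int.cast : ℤ → ℂ) (hc4 χ)
        push_cast at h3'
        exact h3'
      have h3' : ∀ χ : S, (n χ : ℂ) * ipn th χ =
          ∑ p, (yy p : ℂ) * (n (pt p) : ℂ) * ((Gm p χ : ℂ) * ipn th χ) := by
        intro χ
        rw [h2 χ, Finset.sum_mul]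
        exact Finset.sum_congr rfl fun p _ => by ring
      rw [Finset.sum_congr rfl fun χ _ => h3' χ, Finset.sum_comm]
      refine Finset.sum_congr rfl fun p _ => ?_
      rw [h1, ← Finset.mul_sum]
      push_cast
      rfl

end Pool.Agent.PP.T12.H56
end
end -- Pool.Agent.Helper56_AT12.STF

section -- Pool.Agent.Helper77_AT12.CMS

/-!
# Squad AT12, row CMS: integral vectors with Gram matrix `1 + n J`, the extremal case

In the extremal case the inequality of `Helper6_AT8/CMB.lean` is an equality for every column, so a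
column is `± δ_i` or `± (1, .., 1)`.
-/

open scoped BigOperators

namespace Pool.Agent.PP.T12.H77

/-- the case of equality in `T8.H6.key` -/
theorem key_eq {ι : Type} [Fintype ι] (x : ι → ℤ) (hx : ∃ i, x i ≠ 0)
    (he : (Fintype.card ι + 1) * ∑ i, x i * x i - (∑ i, x i) ^ 2 = (Fintype.card ι : ℤ)) :
    ∃ ε : ℤ, (ε = 1 ∨ ε = -1) ∧
      ((∃ i₀, x i₀ = ε ∧ ∀ i, i ≠ i₀ → x i = 0) ∨ ∀ i, x i = ε) := by
  classical
  set A : Finset ι := Finset.univ.filter (fun i => x i ≠ 0) with hA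
  have h1 : ∑ i, x i = ∑ i ∈ A, x i := (Finset.sum_filter_ne_zero _).symm
  have h2 : ∑ i, x i * x i = ∑ i ∈ A, x i ^ 2 := by
    rw [hA, Finset.sum_filter]
    refine Finset.sum_congr rfl fun i _ => ?_
    split_ifs with h
    · rw [sq]
    · have h0 : x i = 0 := not_not.1 h
      rw [h0, mul_zero]
  have h3 : (∑ i ∈ A, x i) ^ 2 ≤ A.card * ∑ i ∈ A, x i ^ 2 := sq_sum_le_card_mul_sum_sq
  have hsq : ∀ i ∈ A, 1 ≤ x i ^ 2 := by
    intro i hi
    have h0 : x i ≠ 0 := (Finset.mem_filter.1 hi).2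
    have : 0 < x i ^ 2 := by positivity
    linarith
  have h4 : (A.card : ℤ) ≤ ∑ i ∈ A, x i ^ 2 := by
    rw [Finset.card_eq_sum_ones]
    push_cast
    exact Finset.sum_le_sum hsq
  have h5 : 1 ≤ A.card := by
    obtain ⟨i, hi⟩ := hx
    exact Finset.card_pos.2 ⟨i, by simp [hA, hi]⟩
  have h6 : A.card ≤ Fintype.card ι := Finset.card_le_univ A
  have h5' : (1 : ℤ) ≤ A.card := by exact_mod_cast h5
  have h6' : (A.card : ℤ) ≤ Fintype.card ι := by exact_mod_cast h6
  rw [h1, h2] at he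
  set Q : ℤ := ∑ i ∈ A, x i ^ 2 with hQ
  set S : ℤ := ∑ i ∈ A, x i with hS
  set a : ℤ := (A.card : ℤ) with ha
  set m : ℤ := (Fintype.card ι : ℤ) with hm
  have p1 : 0 ≤ (a - 1) * (m - a) := mul_nonneg (sub_nonneg.2 h5') (sub_nonneg.2 h6')
  have p2 : 0 ≤ (Q - a) * (m + 1 - a) :=
    mul_nonneg (sub_nonneg.2 h4) (by linarith)
  have e1 : (a - 1) * (m - a) = 0 := by nlinarith
  have e2 : (Q - a) * (m + 1 - a) = 0 := by nlinarith
  have e3 : Q = a := by
    rcases mul_eq_zero.1 e2 with h | h <;> linarith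
  have e4 : S ^ 2 = a ^ 2 := by
    rw [e3] at h3
    nlinarith
  -- the nonzero entries are `1` or `-1`
  have h7 : ∀ i ∈ A, x i ^ 2 = 1 := by
    have h8 : ∑ i ∈ A, (x i ^ 2 - 1) = 0 := by
      rw [Finset.sum_sub_distrib, ← hQ, e3, ha, Finset.sum_const, nsmul_eq_mul, mul_one, sub_self]
    intro i hi
    have h9 := (Finset.sum_eq_zero_iff_of_nonneg (fun i hi => by linarith [hsq i hi])).1 h8 i hi
    linarith
  have h8 : ∃ ε : ℤ, (ε = 1 ∨ ε = -1) ∧ ∀ i ∈ A, x i = ε := by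
    rcases sq_eq_sq_iff_eq_or_eq_neg.1 e4 with h | h
    · refine ⟨1, Or.inl rfl, fun i hi => ?_⟩
      have h10 : ∑ i ∈ A, (1 - x i) = 0 := by
        rw [Finset.sum_sub_distrib, ← hS, h, ha, Finset.sum_const, nsmul_eq_mul, mul_one, sub_self]
      have h9 := (Finset.sum_eq_zero_iff_of_nonneg (fun i hi => by
        nlinarith [h7 i hi])).1 h10 i hi
      linarith
    · refine ⟨-1, Or.inr rfl, fun i hi => ?_⟩
      have h10 : ∑ i ∈ A, (1 + x i) = 0 := by
        rw [Finset.sum_add_distrib, ← hS, h, ha, Finset.sum_const, nsmul_eq_mul, mul_one,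
          add_neg_cancel]
      have h9 := (Finset.sum_eq_zero_iff_of_nonneg (fun i hi => by
        nlinarith [h7 i hi])).1 h10 i hi
      linarith
  obtain ⟨ε, hε, h9⟩ := h8
  refine ⟨ε, hε, ?_⟩
  have hout : ∀ i, i ∉ A → x i = 0 := by
    intro i hi
    by_contra h
    exact hi (Finset.mem_filter.2 ⟨Finset.mem_univ i, h⟩)
  rcases mul_eq_zero.1 e1 with h | h
  · left
    have h10 : A.card = 1 := by
      have : (A.card : ℤ) = 1 := by linarith
      exact_mod_cast this
    obtain ⟨i₀, hi₀⟩ := Finset.card_eq_one.1 h10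
    refine ⟨i₀, h9 i₀ (by rw [hi₀]; exact Finset.mem_singleton_self i₀), fun i hi => hout i ?_⟩
    rw [hi₀, Finset.mem_singleton]
    exact hi
  · right
    have h10 : A.card = Fintype.card ι := by
      have : (A.card : ℤ) = Fintype.card ι := by linarith
      exact_mod_cast this
    intro i
    exact h9 i (by rw [(Finset.card_eq_iff_eq_univ A).1 h10]; exact Finset.mem_univ i)

theorem cms : CmsStmt := by
  intro ι κ _ _ _ c n h1 h2 h3 hι hκ
  classical
  have hne : Nonempty ι := Fintype.card_pos_iff.1 (by omega)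
  -- the columns
  have hcol : ∀ k, (Fintype.card ι + 1) * ∑ i, c i k * c i k - (∑ i, c i k) ^ 2 =
      (Fintype.card ι : ℤ) := by
    have h5 : ∑ k, ∑ i, c i k * c i k = (Fintype.card ι : ℤ) * (1 + n) := by
      rw [Finset.sum_comm, Finset.sum_congr rfl (fun i _ => h1 i)]
      simp
    have h6 : ∑ k, (∑ i, c i k) ^ 2 =
        (Fintype.card ι : ℤ) + n * (Fintype.card ι : ℤ) ^ 2 := by
      have h7 : ∀ k, (∑ i, c i k) ^ 2 = ∑ i, ∑ j, c i k * c j k := by
        intro k
        rw [sq, Finset.sum_mul_sum]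
      rw [Finset.sum_congr rfl (fun k _ => h7 k), Finset.sum_comm]
      have h8 : ∀ i, ∑ k, ∑ j, c i k * c j k = 1 + n * (Fintype.card ι : ℤ) := by
        intro i
        rw [Finset.sum_comm]
        have h9 : ∀ j, ∑ k, c i k * c j k = (if i = j then 1 else 0) + n := by
          intro j
          split_ifs with h
          · rw [← h]
            exact h1 i
          · rw [zero_add]
            exact h2 i j h
        rw [Finset.sum_congr rfl (fun j _ => h9 j), Finset.sum_add_distrib]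
        simp
        ring
      rw [Finset.sum_congr rfl (fun i _ => h8 i)]
      simp
      ring
    have h10 : ∑ k, (((Fintype.card ι + 1) * ∑ i, c i k * c i k - (∑ i, c i k) ^ 2) -
        (Fintype.card ι : ℤ)) = 0 := by
      rw [Finset.sum_sub_distrib, Finset.sum_sub_distrib, ← Finset.mul_sum, h5, h6,
        Finset.sum_const, Finset.card_univ, nsmul_eq_mul, hκ]
      push_cast
      ring
    intro k
    have h11 := (Finset.sum_eq_zero_iff_of_nonneg (fun k _ => by
      have := T8.H6.key (fun i => c i k) (h3 k)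
      linarith)).1 h10 k (Finset.mem_univ k)
    linarith
  have hk := fun k => key_eq (fun i => c i k) (h3 k) (hcol k)
  choose ε hε hc using hk
  set T : Finset κ := Finset.univ.filter (fun k => ∀ i, c i k = ε k) with hT
  have hmT : ∀ k, k ∈ T ↔ ∀ i, c i k = ε k := fun k => by simp [hT]
  have hεε : ∀ k, ε k * ε k = 1 := fun k => by
    rcases hε k with h | h <;> rw [h] <;> norm_num
  have hc0 : ∀ k, ∃ i₀, k ∉ T → c i₀ k = ε k ∧ ∀ i, i ≠ i₀ → c i k = 0 := by
    intro k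
    by_cases hkT : k ∈ T
    · exact ⟨hne.some, fun h => absurd hkT h⟩
    · rcases hc k with ⟨i₀, h⟩ | h
      · exact ⟨i₀, fun _ => h⟩
      · exact absurd ((hmT k).2 h) hkT
  choose i₀ hi₀ using hc0
  -- the number of the columns in `T`
  have hTn : (T.card : ℤ) = n := by
    obtain ⟨i, j, hij⟩ := Fintype.exists_pair_of_one_lt_card (α := ι) (by omega)
    rw [← h2 i j hij]
    have h4 : ∀ k, c i k * c j k = if k ∈ T then 1 else 0 := by
      intro k
      by_cases hkT : k ∈ T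
      · rw [if_pos hkT, (hmT k).1 hkT i, (hmT k).1 hkT j, hεε]
      · rw [if_neg hkT]
        by_cases hi : i = i₀ k
        · rw [(hi₀ k hkT).2 j (fun h => hij (hi.trans h.symm)), mul_zero]
        · rw [(hi₀ k hkT).2 i hi, zero_mul]
    rw [Finset.sum_congr rfl fun k _ => h4 k, ← Finset.sum_filter, Finset.filter_mem_eq_inter,
      Finset.univ_inter, Finset.sum_const, nsmul_eq_mul, mul_one]
  have hone : ∀ i, ∃ k, (Finset.univ.filter fun k => k ∉ T ∧ i₀ k = i) = {k} := by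
    intro i
    rw [← Finset.card_eq_one]
    have h4 : ∀ k, c i k * c i k = (if k ∈ T then 1 else 0) +
        if k ∉ T ∧ i₀ k = i then 1 else 0 := by
      intro k
      by_cases hkT : k ∈ T
      · rw [if_pos hkT, (hmT k).1 hkT i, hεε, if_neg (fun h => h.1 hkT), add_zero]
      · rw [if_neg hkT, zero_add]
        by_cases hi : i₀ k = i
        · rw [if_pos ⟨hkT, hi⟩, ← hi, (hi₀ k hkT).1, hεε]
        · rw [if_neg (fun h => hi h.2), (hi₀ k hkT).2 i (fun h => hi h.symm), zero_mul]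
    have h5 := h1 i
    rw [Finset.sum_congr rfl fun k _ => h4 k, Finset.sum_add_distrib, ← Finset.sum_filter,
      Finset.filter_mem_eq_inter, Finset.univ_inter, Finset.sum_const, nsmul_eq_mul, mul_one,
      hTn, ← Finset.sum_filter, Finset.sum_const, nsmul_eq_mul, mul_one] at h5
    have h6 : ((Finset.univ.filter fun k => k ∉ T ∧ i₀ k = i).card : ℤ) = 1 := by linarith
    exact_mod_cast h6
  choose r hr using hone
  have hr1 : ∀ i, r i ∉ T ∧ i₀ (r i) = i := by
    intro i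
    have h : r i ∈ (Finset.univ.filter fun k => k ∉ T ∧ i₀ k = i) := by
      rw [hr i]
      exact Finset.mem_singleton_self _
    exact (Finset.mem_filter.1 h).2
  have hr2 : ∀ k, k ∉ T → k = r (i₀ k) := by
    intro k hkT
    have h : k ∈ (Finset.univ.filter fun k' => k' ∉ T ∧ i₀ k' = i₀ k) :=
      Finset.mem_filter.2 ⟨Finset.mem_univ k, hkT, rfl⟩
    rw [hr (i₀ k)] at h
    exact Finset.mem_singleton.1 h
  refine ⟨fun k => if k ∈ T then ε k else 0, fun i => - ε (r i), r, ?_, ?_, ?_, ?_, ?_⟩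
  · intro i j hij
    rw [← (hr1 i).2, ← (hr1 j).2, hij]
  · intro i
    show - ε (r i) = 1 ∨ - ε (r i) = -1
    rcases hε (r i) with h | h
    · right
      rw [h]
    · left
      rw [h, neg_neg]
  · intro i
    exact if_neg (hr1 i).1
  · intro k hkr
    have hkT : k ∈ T := by
      by_contra hkT
      exact hkr (i₀ k) (hr2 k hkT).symm
    show (if k ∈ T then ε k else 0) = 1 ∨ (if k ∈ T then ε k else 0) = -1
    rw [if_pos hkT]
    exact hε k
  · intro i k
    show c i k = (if k ∈ T then ε k else 0) - if k = r i then - ε (r i) else 0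
    by_cases hkT : k ∈ T
    · have h : k ≠ r i := fun h => (hr1 i).1 (h ▸ hkT)
      rw [if_pos hkT, if_neg h, sub_zero, (hmT k).1 hkT i]
    · rw [if_neg hkT]
      by_cases hi : k = r i
      · rw [if_pos hi, zero_sub, neg_neg]
        have h4 : i₀ k = i := by rw [hi]; exact (hr1 i).2
        have h5 := (hi₀ k hkT).1
        rw [h4] at h5
        rw [h5, hi]
      · rw [if_neg hi, sub_zero]
        refine (hi₀ k hkT).2 i fun h => hi ?_
        rw [h]
        exact hr2 k hkT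

end Pool.Agent.PP.T12.H77
end -- Pool.Agent.Helper77_AT12.CMS
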