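import Pool.Agent.Helper12_AWB.B123
import Pool.Agent.Helper12_AWB.B142
import Pool.Agent.Helper12_AWB.B167
import Pool.Agent.Helper12_AWB.B181

/-!
# Merged copies (generated) of the modules

* `Pool.Agent.Helper67_AT2.FXS`
* `Pool.Agent.Helper13_AT12.FX1`
* `Pool.Agent.Helper23_AT5.NZM`
* `Pool.Agent.Helper46_AT5.FX5`
* `Pool.Agent.Helper90_ATZ.NZF`
* `Pool.Agent.Helper77_ATW.FX3`
-/

set_option autoImplicit false

section -- Pool.Agent.Helper67_AT2.FXS

/-!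
# Squad AT2, row FXS (helper67): a bound by the number of the fixed characters
-/

set_option autoImplicit false

open scoped BigOperators

noncomputable section

namespace Pool.Agent.PP.T2.H67

open Pool.Agent.Helper51_AWC Pool.Agent.Helper79_WRA Pool.Agent.PP Pool.Agent.PP.KF
open Pool.Agent.PP.K9 Pool.Agent.PP.K9.H97 Pool.Agent.PP.H75 Pool.Agent.PP.T3

attribute [local instance] Ideal.Quotient.field

/-- a sum over a predicate -/
theorem fs_filter {α : Type} [Fintype α] (P : α → Prop) [DecidablePred P] (f : α → ℂ) :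
    (∑ᶠ (s : α) (_ : P s), f s) = ∑ s ∈ Finset.univ.filter P, f s := by
  rw [finsum_eq_sum_of_fintype, Finset.sum_filter]
  exact Finset.sum_congr rfl fun s _ => finsum_eq_if

open Classical in
/-- a sum over the fibre of the map `g ↦` `ℓ`-part -/
theorem fibre {ℓ N₀ : ℕ} {G : Type} [Group G] [Fintype G]
    (h1 : ∀ g : G, Reg ℓ (g ^ N₀) ∧ ∃ n : ℕ, ((g ^ N₀)⁻¹ * g) ^ ℓ ^ n = 1)
    (h2 : ∀ x y : G, Commute x y → Reg ℓ x → (∃ n : ℕ, y ^ ℓ ^ n = 1) → (x * y) ^ N₀ = x)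
    (T : G → ℂ) (y : G) (hy : El ℓ y) :
    ∑ g ∈ Finset.univ.filter (fun g : G => (g ^ N₀)⁻¹ * g = y), T g =
      ∑ s ∈ Finset.univ.filter (fun s : G => s ∈ Cu y ∧ Reg ℓ s), T (y * s) := by
  symm
  refine Finset.sum_nbij' (fun s => y * s) (fun g => g ^ N₀) ?_ ?_ ?_ ?_ ?_
  · intro s hs
    rw [Finset.mem_filter] at hs ⊢
    have hc : Commute s y := Subgroup.mem_centralizer_singleton_iff.1 hs.2.1
    have h3 := h2 s y hc hs.2.2 hy
    refine ⟨Finset.mem_univ _, ?_⟩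
    rw [← hc.eq, h3, inv_mul_cancel_left]
  · intro g hg
    rw [Finset.mem_filter] at hg ⊢
    refine ⟨Finset.mem_univ _, ?_, (h1 g).1⟩
    rw [Subgroup.mem_centralizer_singleton_iff, ← hg.2]
    have hc : Commute (g ^ N₀) g := (Commute.refl g).pow_left N₀
    exact ((Commute.refl (g ^ N₀)).inv_right.mul_right hc).eq
  · intro s hs
    rw [Finset.mem_filter] at hs
    have hc : Commute s y := Subgroup.mem_centralizer_singleton_iff.1 hs.2.1
    have h3 := h2 s y hc hs.2.2 hy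
    rw [← hc.eq, h3]
  · intro g hg
    rw [Finset.mem_filter] at hg
    have hc : Commute (g ^ N₀) g := (Commute.refl g).pow_left N₀
    rw [← hg.2, mul_assoc, ← hc.eq, inv_mul_cancel_left]
  · intro s _
    rfl

theorem fxs_core (ada : AdaStmt) (wbo : WboStmt) (idm : KF.IdmStmt) (prt : PrtStmt)
    (fxy : FxyStmt) (lrk : LrkStmt) : FxsStmt := by
  intro ℓ _ M _ hM G _ _ N hN e he hyp
  classical
  have := Fintype.ofFinite G
  have hfi : (Irr G).Finite := irr_finite'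
  have hirr : IrrE M e ⊆ Irr G := fun _ h => h.1
  have := (hfi.subset hirr).fintype
  have hG0 : (Nat.card G : ℂ) ≠ 0 := by exact_mod_cast Nat.card_pos.ne'
  have hG1 : (0 : ℝ) < Nat.card G := by exact_mod_cast Nat.card_pos
  obtain ⟨N₀, hN1, hN2⟩ := prt ℓ G
  have hrt := T3.H23.rtc' ada wbo idm ℓ M hM G N hN.cop hN.reg e he
  -- the summands
  obtain ⟨T, hT⟩ : ∃ T : G → ℂ, ∀ g,
      T g = ∑ χ : IrrE M e, (χ : G → ℂ) (g ^ N) * starRingEnd ℂ ((χ : G → ℂ) g) :=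
    ⟨_, fun _ => rfl⟩
  have hfm : ∀ F : (G → ℂ) → ℂ, ∑ᶠ χ ∈ IrrE M e, F χ = ∑ χ : IrrE M e, F χ := fun F => by
    rw [← finsum_eq_sum_of_fintype, finsum_set_coe_eq_finsum_mem]
  -- the number of the fixed characters
  have hA : (Nat.card G : ℂ) * ({χ | χ ∈ IrrE M e ∧ ∀ g, χ (g ^ N) = χ g}.ncard : ℂ) =
      ∑ g, T g := by
    have h1 : ∀ χ : IrrE M e, ∑ g, (χ : G → ℂ) (g ^ N) * starRingEnd ℂ ((χ : G → ℂ) g) =
        (Nat.card G : ℂ) * if (∀ g, (χ : G → ℂ) (g ^ N) = (χ : G → ℂ) g) then 1 else 0 := by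
      intro χ
      by_cases h : ∀ g, (χ : G → ℂ) (g ^ N) = (χ : G → ℂ) g
      · rw [if_pos h]
        have h2 := K9.H11.ipn_self (hirr χ.2)
        rw [K9.H11.ipn_eq] at h2
        simp only [h]
        rw [← h2, mul_inv_cancel_left₀ hG0]
      · rw [if_neg h]
        have h2 := K9.H11.ipn_ne (hrt.1 χ (hirr χ.2)) (hirr χ.2) (fun h3 => h (congrFun h3))
        rw [K9.H11.ipn_eq] at h2
        rw [mul_zero]
        exact (mul_eq_zero.1 h2).resolve_left (inv_ne_zero hG0)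
    simp only [hT]
    rw [Finset.sum_comm]
    simp only [h1]
    rw [← Finset.mul_sum, Finset.sum_ite, Finset.sum_const_zero, add_zero, Finset.sum_const,
      nsmul_eq_mul, mul_one]
    congr 2
    have h3 : {χ | χ ∈ IrrE M e ∧ ∀ g, χ (g ^ N) = χ g} =
        Subtype.val '' ((Finset.univ.filter (fun χ : IrrE M e =>
          ∀ g, (χ : G → ℂ) (g ^ N) = (χ : G → ℂ) g) : Finset (IrrE M e)) : Set (IrrE M e)) := by
      ext χ
      constructor
      · rintro ⟨h4, h5⟩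
        exact ⟨⟨χ, h4⟩, by simpa using h5, rfl⟩
      · rintro ⟨χ', h4, rfl⟩
        exact ⟨χ'.2, by simpa using h4⟩
    rw [h3, Set.ncard_image_of_injective _ Subtype.val_injective, Set.ncard_coe_finset]
  -- the fibres
  have hfib : ∑ g, T g = ∑ y : G, ∑ g ∈ Finset.univ.filter (fun g : G => (g ^ N₀)⁻¹ * g = y), T g :=
    (Finset.sum_fiberwise Finset.univ (fun g : G => (g ^ N₀)⁻¹ * g) T).symm
  have hpow : ∀ y s : G, s ∈ Cu y ∧ Reg ℓ s → (y * s) ^ N = y ^ N * s := by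
    intro y s hs
    have hc : Commute s y := Subgroup.mem_centralizer_singleton_iff.1 hs.1
    rw [hc.symm.mul_pow, hN.reg s hs.2]
  have hnn : ∀ g, 0 ≤ (∑ χ : IrrE M e, (χ : G → ℂ) g * starRingEnd ℂ ((χ : G → ℂ) g)).re := by
    intro g
    rw [Complex.re_sum]
    refine Finset.sum_nonneg fun χ _ => ?_
    rw [Complex.mul_conj, Complex.ofReal_re]
    exact Complex.normSq_nonneg _
  have hy0 : ∀ y : G, 0 ≤ (∑ g ∈ Finset.univ.filter (fun g : G => (g ^ N₀)⁻¹ * g = y), T g).re := by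
    intro y
    by_cases hy : El ℓ y
    · rw [fibre hN1 hN2 T y hy]
      by_cases hyl : y ^ ℓ = 1
      · rw [Complex.re_sum]
        refine Finset.sum_nonneg fun s hs => ?_
        rw [Finset.mem_filter] at hs
        rw [hT, hpow y s hs.2, hN.pow y hy, pow_add, pow_one, hyl, mul_one]
        exact hnn _
      · have hy1 : y ≠ 1 := by
          rintro rfl
          exact hyl (one_pow _)
        have h3 := fxy ℓ M hM G N hN.cop e he y hy1 hy (hyp y hy hyl)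
        rw [fs_filter] at h3
        have h4 : ∑ s ∈ Finset.univ.filter (fun s : G => s ∈ Cu y ∧ Reg ℓ s), T (y * s) = 0 := by
          rw [← h3]
          refine Finset.sum_congr rfl fun s hs => ?_
          rw [Finset.mem_filter] at hs
          rw [hT, hfm, hpow y s hs.2]
        rw [h4, Complex.zero_re]
    · have h3 : Finset.univ.filter (fun g : G => (g ^ N₀)⁻¹ * g = y) = ∅ := by
        rw [Finset.filter_eq_empty_iff]
        intro g _ hg
        exact hy (hg ▸ (hN1 g).2)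
      rw [h3, Finset.sum_empty, Complex.zero_re]
  have h1 : ∑ g ∈ Finset.univ.filter (fun g : G => (g ^ N₀)⁻¹ * g = 1), T g =
      (Nat.card G : ℂ) * (ln e : ℂ) := by
    have hE1 : El ℓ (1 : G) := ⟨0, one_pow _⟩
    rw [fibre hN1 hN2 T 1 hE1, lrk ℓ M hM G e he, fs_filter, mul_inv_cancel_left₀ hG0]
    have h3 : Finset.univ.filter (fun s : G => s ∈ Cu (1 : G) ∧ Reg ℓ s) =
        Finset.univ.filter (fun s : G => Reg ℓ s) := by
      apply Finset.filter_congr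
      intro s _
      constructor
      · exact fun h => h.2
      · intro h
        refine ⟨?_, h⟩
        rw [Subgroup.mem_centralizer_singleton_iff, mul_one, one_mul]
    rw [h3]
    refine Finset.sum_congr rfl fun s hs => ?_
    rw [Finset.mem_filter] at hs
    rw [hT, hfm, one_mul, hN.reg s hs.2]
  have hmain : (Nat.card G : ℝ) * (ln e : ℝ) ≤
      (Nat.card G : ℝ) * ({χ | χ ∈ IrrE M e ∧ ∀ g, χ (g ^ N) = χ g}.ncard : ℝ) := by
    have h3 : ((Nat.card G : ℂ) * ({χ | χ ∈ IrrE M e ∧ ∀ g, χ (g ^ N) = χ g}.ncard : ℂ)).re =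
        (Nat.card G : ℝ) * ({χ | χ ∈ IrrE M e ∧ ∀ g, χ (g ^ N) = χ g}.ncard : ℝ) := by
      norm_cast
    have h4 : ((Nat.card G : ℂ) * (ln e : ℂ)).re = (Nat.card G : ℝ) * (ln e : ℝ) := by
      norm_cast
    rw [← h3, hA, hfib, Complex.re_sum, ← h4, ← h1]
    exact Finset.single_le_sum (f := fun y : G =>
      (∑ g ∈ Finset.univ.filter (fun g : G => (g ^ N₀)⁻¹ * g = y), T g).re)
      (fun y _ => hy0 y) (Finset.mem_univ 1)
  have h5 := le_of_mul_le_mul_left hmain hG1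
  exact_mod_cast h5

/-- FXS -/
theorem fxs (fxy : FxyStmt) (lrk : LrkStmt) : FxsStmt :=
  fxs_core (K9.H25.ada K9.H20.adp) (K9.H82W.wbo (K9.H82.trb K9.H53.tra)) KF.H25.idm K9.H27.prt
    fxy lrk

end Pool.Agent.PP.T2.H67
end
end -- Pool.Agent.Helper67_AT2.FXS

section -- Pool.Agent.Helper13_AT12.FX1

/-!
# Squad AT12, row FX1 (helper13): the number of the fixed characters is larger than `ln e`
(adapted from `Helper67_AT2/FXS.lean`)
-/

set_option autoImplicit false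

open scoped BigOperators

noncomputable section

namespace Pool.Agent.PP.T12.H13

open Pool.Agent.Helper51_AWC Pool.Agent.Helper79_WRA Pool.Agent.PP Pool.Agent.PP.KF
open Pool.Agent.PP.K9 Pool.Agent.PP.K9.H97 Pool.Agent.PP.H75 Pool.Agent.PP.T3 Pool.Agent.PP.T2
open Pool.Agent.PP.T8

attribute [local instance] Ideal.Quotient.field

theorem reg_coe' {ℓ : ℕ} {G : Type} [Group G] {C : Subgroup G} {s : C} (hs : Reg ℓ s) :
    Reg ℓ (s : G) := by
  unfold Reg at hs ⊢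
  rwa [Subgroup.orderOf_coe]

theorem fx1_core (ada : AdaStmt) (wbo : WboStmt) (idm : KF.IdmStmt) (prt : PrtStmt)
    (fxy : FxyStmt) (lrk : LrkStmt) (stg : StgStmt) (nz : K9.NzStmt) (loc : T3.LocStmt)
    (lsb : LsbStmt) : Fx1Stmt := by
  intro ℓ hℓ M _ hM G _ _ N hN e V γ hL hVne
  classical
  have hp : ℓ.Prime := hℓ.out
  have := Fintype.ofFinite G
  have he : IsIdem e := hL.blk.1
  have hF : GoodF ℓ (FF M) := H50.fld ℓ hp M hM
  have hyp := stg ℓ M hM G N hN e V γ hL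
  have hfi : (Irr G).Finite := irr_finite'
  have hirr : IrrE M e ⊆ Irr G := fun _ h => h.1
  have := (hfi.subset hirr).fintype
  have hG0 : (Nat.card G : ℂ) ≠ 0 := by exact_mod_cast Nat.card_pos.ne'
  have hG1 : (0 : ℝ) < Nat.card G := by exact_mod_cast Nat.card_pos
  obtain ⟨N₀, hN1, hN2⟩ := prt ℓ G
  have hrt := T3.H23.rtc' ada wbo idm ℓ M hM G N hN.cop hN.reg e he
  -- the summands
  obtain ⟨T, hT⟩ : ∃ T : G → ℂ, ∀ g,
      T g = ∑ χ : IrrE M e, (χ : G → ℂ) (g ^ N) * starRingEnd ℂ ((χ : G → ℂ) g) :=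
    ⟨_, fun _ => rfl⟩
  have hfm : ∀ F : (G → ℂ) → ℂ, ∑ᶠ χ ∈ IrrE M e, F χ = ∑ χ : IrrE M e, F χ := fun F => by
    rw [← finsum_eq_sum_of_fintype, finsum_set_coe_eq_finsum_mem]
  -- the number of the fixed characters
  have hA : (Nat.card G : ℂ) * ({χ | χ ∈ IrrE M e ∧ ∀ g, χ (g ^ N) = χ g}.ncard : ℂ) =
      ∑ g, T g := by
    have h1 : ∀ χ : IrrE M e, ∑ g, (χ : G → ℂ) (g ^ N) * starRingEnd ℂ ((χ : G → ℂ) g) =
        (Nat.card G : ℂ) * if (∀ g, (χ : G → ℂ) (g ^ N) = (χ : G → ℂ) g) then 1 else 0 := by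
      intro χ
      by_cases h : ∀ g, (χ : G → ℂ) (g ^ N) = (χ : G → ℂ) g
      · rw [if_pos h]
        have h2 := K9.H11.ipn_self (hirr χ.2)
        rw [K9.H11.ipn_eq] at h2
        simp only [h]
        rw [← h2, mul_inv_cancel_left₀ hG0]
      · rw [if_neg h]
        have h2 := K9.H11.ipn_ne (hrt.1 χ (hirr χ.2)) (hirr χ.2) (fun h3 => h (congrFun h3))
        rw [K9.H11.ipn_eq] at h2
        rw [mul_zero]
        exact (mul_eq_zero.1 h2).resolve_left (inv_ne_zero hG0)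
    simp only [hT]
    rw [Finset.sum_comm]
    simp only [h1]
    rw [← Finset.mul_sum, Finset.sum_ite, Finset.sum_const_zero, add_zero, Finset.sum_const,
      nsmul_eq_mul, mul_one]
    congr 2
    have h3 : {χ | χ ∈ IrrE M e ∧ ∀ g, χ (g ^ N) = χ g} =
        Subtype.val '' ((Finset.univ.filter (fun χ : IrrE M e =>
          ∀ g, (χ : G → ℂ) (g ^ N) = (χ : G → ℂ) g) : Finset (IrrE M e)) : Set (IrrE M e)) := by
      ext χ
      constructor
      · rintro ⟨h4, h5⟩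
        exact ⟨⟨χ, h4⟩, by simpa using h5, rfl⟩
      · rintro ⟨χ', h4, rfl⟩
        exact ⟨χ'.2, by simpa using h4⟩
    rw [h3, Set.ncard_image_of_injective _ Subtype.val_injective, Set.ncard_coe_finset]
  -- the fibres
  have hfib : ∑ g, T g = ∑ y : G, ∑ g ∈ Finset.univ.filter (fun g : G => (g ^ N₀)⁻¹ * g = y), T g :=
    (Finset.sum_fiberwise Finset.univ (fun g : G => (g ^ N₀)⁻¹ * g) T).symm
  have hpow : ∀ y s : G, s ∈ Cu y ∧ Reg ℓ s → (y * s) ^ N = y ^ N * s := by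
    intro y s hs
    have hc : Commute s y := Subgroup.mem_centralizer_singleton_iff.1 hs.1
    rw [hc.symm.mul_pow, hN.reg s hs.2]
  have hnt : ∀ g, (∑ χ : IrrE M e, (χ : G → ℂ) g * starRingEnd ℂ ((χ : G → ℂ) g)).re =
      ∑ χ : IrrE M e, Complex.normSq ((χ : G → ℂ) g) := by
    intro g
    rw [Complex.re_sum]
    refine Finset.sum_congr rfl fun χ _ => ?_
    rw [Complex.mul_conj, Complex.ofReal_re]
  have hnn : ∀ g, 0 ≤ (∑ χ : IrrE M e, (χ : G → ℂ) g * starRingEnd ℂ ((χ : G → ℂ) g)).re := by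
    intro g
    rw [hnt]
    exact Finset.sum_nonneg fun χ _ => Complex.normSq_nonneg _
  have hyT : ∀ y : G, El ℓ y → y ^ ℓ = 1 →
      ∀ s ∈ Finset.univ.filter (fun s : G => s ∈ Cu y ∧ Reg ℓ s), T (y * s) =
        ∑ χ : IrrE M e, (χ : G → ℂ) (y * s) * starRingEnd ℂ ((χ : G → ℂ) (y * s)) := by
    intro y hy hyl s hs
    rw [Finset.mem_filter] at hs
    rw [hT, hpow y s hs.2, hN.pow y hy, pow_add, pow_one, hyl, mul_one]
  have hy0 : ∀ y : G, 0 ≤ (∑ g ∈ Finset.univ.filter (fun g : G => (g ^ N₀)⁻¹ * g = y), T g).re := by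
    intro y
    by_cases hy : El ℓ y
    · rw [T2.H67.fibre hN1 hN2 T y hy]
      by_cases hyl : y ^ ℓ = 1
      · rw [Complex.re_sum]
        refine Finset.sum_nonneg fun s hs => ?_
        rw [hyT y hy hyl s hs]
        exact hnn _
      · have hy1 : y ≠ 1 := by
          rintro rfl
          exact hyl (one_pow _)
        have h3 := fxy ℓ M hM G N hN.cop e he y hy1 hy (hyp y hy hyl)
        rw [T2.H67.fs_filter] at h3
        have h4 : ∑ s ∈ Finset.univ.filter (fun s : G => s ∈ Cu y ∧ Reg ℓ s), T (y * s) = 0 := by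
          rw [← h3]
          refine Finset.sum_congr rfl fun s hs => ?_
          rw [Finset.mem_filter] at hs
          rw [hT, hfm, hpow y s hs.2]
        rw [h4, Complex.zero_re]
    · have h3 : Finset.univ.filter (fun g : G => (g ^ N₀)⁻¹ * g = y) = ∅ := by
        rw [Finset.filter_eq_empty_iff]
        intro g _ hg
        exact hy (hg ▸ (hN1 g).2)
      rw [h3, Finset.sum_empty, Complex.zero_re]
  have h1 : ∑ g ∈ Finset.univ.filter (fun g : G => (g ^ N₀)⁻¹ * g = 1), T g =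
      (Nat.card G : ℂ) * (ln e : ℂ) := by
    have hE1 : El ℓ (1 : G) := ⟨0, one_pow _⟩
    rw [T2.H67.fibre hN1 hN2 T 1 hE1, lrk ℓ M hM G e he, T2.H67.fs_filter,
      mul_inv_cancel_left₀ hG0]
    have h3 : Finset.univ.filter (fun s : G => s ∈ Cu (1 : G) ∧ Reg ℓ s) =
        Finset.univ.filter (fun s : G => Reg ℓ s) := by
      apply Finset.filter_congr
      intro s _
      constructor
      · exact fun h => h.2
      · intro h
        refine ⟨?_, h⟩
        rw [Subgroup.mem_centralizer_singleton_iff, mul_one, one_mul]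
    rw [h3]
    refine Finset.sum_congr rfl fun s hs => ?_
    rw [Finset.mem_filter] at hs
    rw [hT, hfm, one_mul, hN.reg s hs.2]
  -- an element of order `ℓ`
  obtain ⟨z, hzV, hz1, hzl⟩ : ∃ z ∈ V, z ≠ 1 ∧ z ^ ℓ = 1 := by
    obtain ⟨v, hv, hv1⟩ := (Subgroup.ne_bot_iff_exists_ne_one (H := V)).1 hVne |>.elim
      fun x hx => (⟨(x : G), x.2, fun h => hx (Subtype.ext h)⟩ : ∃ v : G, v ∈ V ∧ v ≠ 1)
    obtain ⟨n, hn⟩ := hL.tp.pg ⟨v, hv⟩
    have hn' : v ^ ℓ ^ n = 1 := congrArg Subtype.val hn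
    obtain ⟨k, hk⟩ := (Nat.dvd_prime_pow hp).1 (orderOf_dvd_of_pow_eq_one hn')
    have hk0 : k ≠ 0 := by
      rintro rfl
      exact hv1 (orderOf_eq_one_iff.1 (by rw [hk.2, pow_zero]))
    obtain ⟨k', rfl⟩ := Nat.exists_eq_succ_of_ne_zero hk0
    refine ⟨v ^ ℓ ^ k', V.pow_mem hv _, ?_, ?_⟩
    · intro h
      have h2 := orderOf_dvd_of_pow_eq_one h
      rw [hk.2] at h2
      have h3 := (Nat.pow_dvd_pow_iff_le_right hp.one_lt).1 h2
      omega
    · rw [← pow_mul, ← pow_succ, ← hk.2, pow_orderOf_eq_one]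
  have hzE : El ℓ z := ⟨1, by rw [pow_one]; exact hzl⟩
  obtain ⟨b, hb⟩ := (loc ℓ (FF M) hF G e V γ hL z hzV).1
  -- a character of the block
  obtain ⟨χ, hχ⟩ : (IrrE M e).Nonempty := by
    obtain ⟨h1, h2⟩ := H3.lbd ℓ M hM G e he hL.blk.2.1
    have h3 : 0 < (IrrE M e).ncard := lt_of_lt_of_le one_pos (h1.trans h2)
    exact (Set.ncard_pos (hfi.subset hirr)).1 h3
  have h2 := lsb ℓ M hM G e V γ hL z hzV b hb
  have h3 := nz ℓ M hM G e hL.blk V hL.tp hL.ab z hzV (fun t : Cu z => b t) hb.blk.blk hb.und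
    h2.1.tp.gd z (Subgroup.mem_zpowers z) χ hχ
  obtain ⟨s, hsr, hsχ⟩ : ∃ s : Cu z, Reg ℓ (s : G) ∧ χ (z * s) ≠ 0 := by
    by_contra hcon
    push Not at hcon
    apply h3
    unfold gbv
    rw [finsum_eq_sum_of_fintype]
    refine Finset.sum_eq_zero fun c _ => ?_
    by_cases hc : Reg ℓ (c : G)
    · rw [hcon c hc, mul_zero]
    · rw [K9.H25.eh_sing wbo ℓ M hM (fun t : Cu z => b t) hb.blk.blk.1 c
        (fun h => hc (reg_coe' h)), zero_mul]
  have hzpos : 0 < (∑ g ∈ Finset.univ.filter (fun g : G => (g ^ N₀)⁻¹ * g = z), T g).re := by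
    rw [T2.H67.fibre hN1 hN2 T z hzE, Complex.re_sum]
    refine Finset.sum_pos' (fun x hx => ?_) ⟨s, ?_, ?_⟩
    · rw [hyT z hzE hzl x hx]
      exact hnn _
    · rw [Finset.mem_filter]
      exact ⟨Finset.mem_univ _, s.2, hsr⟩
    · rw [hyT z hzE hzl s (by rw [Finset.mem_filter]; exact ⟨Finset.mem_univ _, s.2, hsr⟩), hnt]
      exact Finset.sum_pos' (fun _ _ => Complex.normSq_nonneg _)
        ⟨⟨χ, hχ⟩, Finset.mem_univ _, Complex.normSq_pos.2 hsχ⟩
  have hmain : (Nat.card G : ℝ) * (ln e : ℝ) <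
      (Nat.card G : ℝ) * ({χ | χ ∈ IrrE M e ∧ ∀ g, χ (g ^ N) = χ g}.ncard : ℝ) := by
    have h3 : ((Nat.card G : ℂ) * ({χ | χ ∈ IrrE M e ∧ ∀ g, χ (g ^ N) = χ g}.ncard : ℂ)).re =
        (Nat.card G : ℝ) * ({χ | χ ∈ IrrE M e ∧ ∀ g, χ (g ^ N) = χ g}.ncard : ℝ) := by
      norm_cast
    have h4 : ((Nat.card G : ℂ) * (ln e : ℂ)).re = (Nat.card G : ℝ) * (ln e : ℝ) := by
      norm_cast
    rw [← h3, hA, hfib, Complex.re_sum, ← h4, ← h1]
    exact Finset.single_lt_sum (f := fun y : G =>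
      (∑ g ∈ Finset.univ.filter (fun g : G => (g ^ N₀)⁻¹ * g = y), T g).re) (i := 1) (j := z)
      hz1 (Finset.mem_univ 1) (Finset.mem_univ z) hzpos (fun y _ _ => hy0 y)
  have h5 := lt_of_mul_lt_mul_left hmain hG1.le
  have h6 : ln e < {χ | χ ∈ IrrE M e ∧ ∀ g, χ (g ^ N) = χ g}.ncard := by exact_mod_cast h5
  exact h6

/-- FX1 -/
theorem fx1 (fxy : FxyStmt) (stg : StgStmt) (nz : K9.NzStmt) (lrk : LrkStmt) (loc : T3.LocStmt)
    (lsb : LsbStmt) : Fx1Stmt :=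
  fx1_core (K9.H25.ada K9.H20.adp) (K9.H82W.wbo (K9.H82.trb K9.H53.tra)) KF.H25.idm K9.H27.prt
    fxy lrk stg nz loc lsb

end Pool.Agent.PP.T12.H13
end
end -- Pool.Agent.Helper13_AT12.FX1

section -- Pool.Agent.Helper23_AT5.NZM

/-!
# Squad AT5, row NZM: a character of the block which is not orthogonal, on the regular elements, to
any character of the block
-/

open scoped BigOperators

noncomputable section

namespace Pool.Agent.PP.T5.H23

open Pool.Agent.Helper51_AWC Pool.Agent.Helper79_WRA Pool.Agent.PP Pool.Agent.PP.KF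
open Pool.Agent.PP.K9 Pool.Agent.PP.K9.H97 Pool.Agent.PP.H75 Pool.Agent.PP.T3 Pool.Agent.PP.T2
open Pool.Agent.PP.K9.H25

attribute [local instance] Ideal.Quotient.field

/-- natural numbers prime to `ℓ` are not in the maximal ideal -/
theorem cast_notMem {ℓ q : ℕ} (hq : ℓ.Coprime q) {M : Ideal (integralClosure ℤ ℂ)}
    [hM' : M.IsMaximal] (hM : (ℓ : integralClosure ℤ ℂ) ∈ M) : (q : integralClosure ℤ ℂ) ∉ M := by
  intro h
  obtain ⟨a, b, hab⟩ := Nat.isCoprime_iff_coprime.2 hq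
  apply hM'.ne_top
  rw [Ideal.eq_top_iff_one]
  have h1 : (1 : integralClosure ℤ ℂ) = (a : integralClosure ℤ ℂ) * (ℓ : integralClosure ℤ ℂ) +
      (b : integralClosure ℤ ℂ) * (q : integralClosure ℤ ℂ) := by
    exact_mod_cast hab.symm
  rw [h1]
  exact M.add_mem (M.mul_mem_left _ hM) (M.mul_mem_left _ h)

theorem el_inv {G : Type} [Group G] {ℓ : ℕ} {y : G} (h : El ℓ y) : El ℓ y⁻¹ := by
  obtain ⟨n, hn⟩ := h
  exact ⟨n, by rw [inv_pow, hn, inv_one]⟩

theorem el_reg {G : Type} [Group G] {ℓ : ℕ} [Fact ℓ.Prime] {y : G} (h : El ℓ y) (hr : Reg ℓ y) :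
    y = 1 := by
  obtain ⟨n, hn⟩ := h
  have h1 : orderOf y ∣ ℓ ^ n := orderOf_dvd_of_pow_eq_one hn
  have h2 : (orderOf y).Coprime (ℓ ^ n) := Nat.Coprime.pow_right n hr
  exact orderOf_eq_one_iff.1 (Nat.eq_one_of_dvd_coprimes h2 dvd_rfl h1)

theorem el_one {G : Type} [Group G] {ℓ : ℕ} : El ℓ (1 : G) := ⟨0, one_pow _⟩

theorem reg_conj {G : Type} [Group G] {ℓ : ℕ} (x y : G) : Reg ℓ (y * x * y⁻¹) ↔ Reg ℓ x := by
  unfold Reg
  have : orderOf (y * x * y⁻¹) = orderOf x :=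
    orderOf_injective (MulAut.conj y).toMonoidHom (MulAut.conj y).injective x
  rw [this]

open Classical in
theorem nzm (sei : SeiStmt) (wbo : K9.WboStmt) : NzmStmt := by
  intro ℓ _ M _ hM H _ _ b hb
  have := Fintype.ofFinite H
  have hℓ : ℓ.Prime := Fact.out
  have hc : (Fintype.card H : ℂ) ≠ 0 := by exact_mod_cast Fintype.card_ne_zero
  obtain ⟨P⟩ : Nonempty (Sylow ℓ H) := inferInstance
  have hs := (sei ℓ H P).2
  obtain ⟨q, hq⟩ : ∃ q, q = (P : Subgroup H).index := ⟨_, rfl⟩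
  rw [← hq] at hs
  have hq1 : ℓ.Coprime q := by
    rw [hq]
    exact (Nat.Prime.coprime_iff_not_dvd hℓ).2 P.not_dvd_index
  -- the indicator function of the `ℓ`-elements
  obtain ⟨pi, hpi⟩ : ∃ pi : H → ℂ, pi = fun h => if El ℓ h then 1 else 0 := ⟨_, rfl⟩
  obtain ⟨a, ha⟩ : ∃ a : (H → ℂ) → ℂ, a = fun ψ => ipn pi ψ := ⟨_, rfl⟩
  have haR : ∀ ψ ∈ Irr H, a ψ ∈ RM M := by
    intro ψ hψ
    obtain ⟨m, hm⟩ := zi_ipn hs (AddSubgroup.subset_closure hψ : ψ ∈ ZI H)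
    have h1 : (q : ℂ) * a ψ = m := by
      rw [← hm, ha, hpi]
      beta_reduce
      rw [ipn_eq, ipn_eq, mul_left_comm, Finset.mul_sum]
      congr 1
      refine Finset.sum_congr rfl fun x _ => ?_
      by_cases hx : El ℓ x
      · rw [if_pos hx, if_pos hx, one_mul]
      · rw [if_neg hx, if_neg hx, zero_mul, mul_zero]
    exact ⟨(q : integralClosure ℤ ℂ), (m : integralClosure ℤ ℂ), cast_notMem hq1 hM, by
      rw [← map_natCast (algebraMap (integralClosure ℤ ℂ) ℂ), ← map_intCast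
        (algebraMap (integralClosure ℤ ℂ) ℂ)] at h1
      exact h1⟩
  obtain ⟨S, hS⟩ : ∃ S : Finset (H → ℂ), S = (irrE_finite M b).toFinset := ⟨_, rfl⟩
  have hSm : ∀ ψ, ψ ∈ S ↔ ψ ∈ IrrE M b := fun ψ => by rw [hS, Set.Finite.mem_toFinset]
  -- the values at the regular elements
  have hval : ∀ x : H, Reg ℓ x → ∑ ψ ∈ S, a ψ * ψ x⁻¹ = eh M b x := by
    intro x hx
    have h1 : ∀ ψ ∈ S, a ψ * ψ x⁻¹ = ∑ c : H, (Fintype.card H : ℂ)⁻¹ *
        (if El ℓ c then ψ x⁻¹ * ψ c⁻¹ else 0) := by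
      intro ψ hψ
      rw [ha, hpi]
      simp only [ipn_eq]
      rw [mul_assoc, Finset.sum_mul, Finset.mul_sum]
      refine Finset.sum_congr rfl fun c _ => ?_
      congr 1
      by_cases hcl : El ℓ c
      · rw [if_pos hcl, if_pos hcl, one_mul, H94.irr_star ((hSm ψ).1 hψ).1, mul_comm]
      · rw [if_neg hcl, if_neg hcl, zero_mul, zero_mul]
    rw [Finset.sum_congr rfl h1, Finset.sum_comm, Finset.sum_eq_single_of_mem (1 : H)
      (Finset.mem_univ _)]
    · rw [eh_eq, ← hS, Finset.mul_sum]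
      refine Finset.sum_congr rfl fun ψ _ => ?_
      rw [if_pos el_one, inv_one, mul_comm (ψ 1)]
    · intro c _ hc1
      rw [← Finset.mul_sum]
      by_cases hcl : El ℓ c
      · have h2 : ¬ Reg ℓ c⁻¹ := fun h => hc1 (inv_eq_one.1 (el_reg (el_inv hcl) h))
        have h3 := wbo ℓ M hM H b hb.1 x c⁻¹ hx h2
        rw [finsum_mem_eq_finite_toFinset_sum _ (irrE_finite M b), ← hS] at h3
        have h4 : ∑ ψ ∈ S, (if El ℓ c then ψ x⁻¹ * ψ c⁻¹ else 0) = ∑ ψ ∈ S, ψ x⁻¹ * ψ c⁻¹ :=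
          Finset.sum_congr rfl fun ψ _ => if_pos hcl
        rw [h4, h3, mul_zero]
      · have h4 : ∑ ψ ∈ S, (if El ℓ c then ψ x⁻¹ * ψ c⁻¹ else 0) = 0 :=
          Finset.sum_eq_zero fun ψ _ => if_neg hcl
        rw [h4, mul_zero]
  -- the class functions
  obtain ⟨F, hF⟩ : ∃ F : (H → ℂ) → H → integralClosure ℤ ℂ, ∀ ψ ∈ Irr H, ∀ x,
      ((F ψ x : integralClosure ℤ ℂ) : ℂ) = if Reg ℓ x then ψ x⁻¹ else 0 := by
    refine ⟨fun ψ x => if h : ψ ∈ Irr H ∧ Reg ℓ x then ⟨ψ x⁻¹, irr_integral h.1 x⁻¹⟩ else 0, ?_⟩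
    intro ψ hψ x
    beta_reduce
    by_cases hx : Reg ℓ x
    · rw [dif_pos ⟨hψ, hx⟩, if_pos hx]
    · rw [dif_neg (fun h => hx h.2), if_neg hx]
      rfl
  have hFc : ∀ ψ ∈ Irr H, H50.Cl (F ψ) := by
    intro ψ hψ x y
    apply Subtype.ext
    rw [hF ψ hψ, hF ψ hψ]
    have h1 : (y * x * y⁻¹)⁻¹ = y * x⁻¹ * y⁻¹ := by group
    rw [h1, irr_conj hψ]
    simp only [reg_conj]
  obtain ⟨g, hg⟩ : ∃ g : (H → ℂ) → (H → ℂ) → ℂ, g = fun ψ κ =>
      H50.om (fun x => ((F ψ x : integralClosure ℤ ℂ) : ℂ)) κ := ⟨_, rfl⟩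
  have hgr : ∀ ψ ∈ Irr H, ∀ κ ∈ Irr H, κ 1 * g ψ κ = (Fintype.card H : ℂ) * rip ℓ κ ψ := by
    intro ψ hψ κ hκ
    have hκ1 : κ 1 ≠ 0 := by
      obtain ⟨d, hd0, hd⟩ := irr_one hκ
      rw [hd]
      exact_mod_cast hd0.ne'
    rw [hg, rip, ← mul_assoc, Nat.card_eq_fintype_card, mul_inv_cancel₀ hc, one_mul,
      finsum_eq_sum_of_fintype]
    simp only [H50.om]
    rw [mul_div_cancel₀ _ hκ1]
    refine Finset.sum_congr rfl fun x _ => ?_
    rw [hF ψ hψ, finsum_eq_if]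
    by_cases hx : Reg ℓ x
    · rw [if_pos hx, if_pos hx, H94.irr_star hψ, mul_comm]
    · rw [if_neg hx, if_neg hx, zero_mul]
  have hgred : ∀ ψ ∈ Irr H, ∀ κ ∈ Irr H,
      res M (fun t => Ideal.Quotient.mk M (F ψ t)) κ = rr M (g ψ κ) ∧ g ψ κ ∈ RM M := by
    intro ψ hψ κ hκ
    obtain ⟨h1, h2⟩ := H50.res_irr (M := M) (F ψ) (hFc ψ hψ) hκ
    refine ⟨?_, ?_⟩
    · rw [h1, hg, rr_of_int h2]
    · rw [hg]
      exact RM_of_int h2
  -- the sum is one
  have hone : ∀ κ ∈ IrrE M b, ∑ ψ ∈ S, a ψ * g ψ κ = 1 := by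
    intro κ hκ
    have hκ1 : κ 1 ≠ 0 := by
      obtain ⟨d, hd0, hd⟩ := irr_one hκ.1
      rw [hd]
      exact_mod_cast hd0.ne'
    have h1 := eh_chv M b hκ.1
    rw [if_pos hκ] at h1
    apply mul_left_cancel₀ hκ1
    rw [mul_one, Finset.mul_sum]
    have h2 : ∀ ψ ∈ S, κ 1 * (a ψ * g ψ κ) =
        ∑ x : H, if Reg ℓ x then a ψ * (ψ x⁻¹ * κ x) else 0 := by
      intro ψ hψ
      have hψ1 := ((hSm ψ).1 hψ).1
      rw [mul_left_comm, hgr ψ hψ1 κ hκ.1, rip, ← mul_assoc (Fintype.card H : ℂ),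
        Nat.card_eq_fintype_card, mul_inv_cancel₀ hc, one_mul, finsum_eq_sum_of_fintype,
        Finset.mul_sum]
      refine Finset.sum_congr rfl fun x _ => ?_
      rw [finsum_eq_if]
      by_cases hx : Reg ℓ x
      · rw [if_pos hx, if_pos hx, H94.irr_star hψ1, mul_comm (κ x)]
      · rw [if_neg hx, if_neg hx, mul_zero]
    rw [Finset.sum_congr rfl h2, Finset.sum_comm]
    refine Eq.trans (Finset.sum_congr rfl fun x _ => ?_) h1
    by_cases hx : Reg ℓ x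
    · rw [← hval x hx, Finset.sum_mul]
      refine Finset.sum_congr rfl fun ψ _ => ?_
      rw [if_pos hx]
      ring
    · rw [eh_sing wbo ℓ M hM b hb.1 x hx, zero_mul]
      exact Finset.sum_eq_zero fun ψ _ => if_neg hx
  -- the choice of the character
  obtain ⟨κ₁, hκ₁, hκ₂⟩ := H50.exists_irr_res hb.1 hb.2.1
  have hex : ∃ ψ ∈ S, res M (fun t => Ideal.Quotient.mk M (F ψ t)) κ₁ ≠ 0 := by
    by_contra hcon
    push Not at hcon
    have h1 := congrArg (rr M) (hone κ₁ ⟨hκ₁, hκ₂⟩)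
    rw [rr_one, rr_sum] at h1
    · have h2 : ∑ ψ ∈ S, rr M (a ψ * g ψ κ₁) = 0 := by
        refine Finset.sum_eq_zero fun ψ hψ => ?_
        have hψ1 := ((hSm ψ).1 hψ).1
        obtain ⟨h3, h4⟩ := hgred ψ hψ1 κ₁ hκ₁
        rw [rr_mul (haR ψ hψ1) h4, ← h3, hcon ψ hψ, mul_zero]
      rw [h2] at h1
      exact zero_ne_one h1
    · intro ψ hψ
      have hψ1 := ((hSm ψ).1 hψ).1
      exact (RM M).mul_mem (haR ψ hψ1) (hgred ψ hψ1 κ₁ hκ₁).2
  obtain ⟨ψ, hψ, hne⟩ := hex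
  have hψE := (hSm ψ).1 hψ
  refine ⟨ψ, hψE, fun κ hκ h0 => hne ?_⟩
  have hcl : IsCl (fun t => (Ideal.Quotient.mk M (F ψ t) : FF M)) := by
    intro x y
    exact congrArg (Ideal.Quotient.mk M) (hFc ψ hψE.1 x y)
  have h1 := H50.char_uniq hb (H50.isChar_res hκ₁) (H50.isChar_res hκ.1) hκ₂ hκ.2 hcl
  have hκ1 : κ 1 ≠ 0 := by
    obtain ⟨d, hd0, hd⟩ := irr_one hκ.1
    rw [hd]
    exact_mod_cast hd0.ne'
  have h2 : g ψ κ = 0 := by
    have h3 := hgr ψ hψE.1 κ hκ.1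
    rw [h0, mul_zero] at h3
    exact (mul_eq_zero.1 h3).resolve_left hκ1
  rw [h1]
  show res M (fun t => Ideal.Quotient.mk M (F ψ t)) κ = 0
  rw [(hgred ψ hψE.1 κ hκ.1).1, h2, rr_zero]

end Pool.Agent.PP.T5.H23
end
end -- Pool.Agent.Helper23_AT5.NZM

section -- Pool.Agent.Helper46_AT5.FX5

/-!
# Squad AT5, row FX5 (helper46): the number of modular characters is at most the number of the
characters fixed by the power map
-/

set_option autoImplicit false

open scoped BigOperators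

noncomputable section

namespace Pool.Agent.PP.T5.H46

open Pool.Agent.Helper51_AWC Pool.Agent.Helper79_WRA Pool.Agent.PP Pool.Agent.PP.KF
open Pool.Agent.PP.K9 Pool.Agent.PP.K9.H97 Pool.Agent.PP.H75 Pool.Agent.PP.T3 Pool.Agent.PP.T2

attribute [local instance] Ideal.Quotient.field

section pow

variable {G : Type} [Group G]

theorem pow_pow_add (g : G) (N a b : ℕ) : (g ^ N ^ a) ^ N ^ b = g ^ N ^ (a + b) := by
  rw [← pow_mul, ← pow_add]

theorem per_mul {N R : ℕ} (h : ∀ g : G, g ^ N ^ R = g) (k : ℕ) (g : G) : g ^ N ^ (R * k) = g := by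
  induction k with
  | zero => simp
  | succ k ih => rw [mul_add, mul_one, ← pow_pow_add, ih, h]

theorem reg_pow {ℓ N : ℕ} (h : ∀ g : G, Reg ℓ g → g ^ N = g) (j : ℕ) (g : G) (hg : Reg ℓ g) :
    g ^ N ^ j = g := by
  induction j with
  | zero => simp
  | succ j ih => rw [← pow_pow_add, ih, pow_one, h g hg]

theorem conj_pow_pow {g y : G} {n : ℕ} (h : g * y * g⁻¹ = y ^ n) (k : ℕ) :
    g ^ k * y * (g ^ k)⁻¹ = y ^ n ^ k := by
  induction k with
  | zero => simp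
  | succ k ih =>
    rw [pow_succ' g k, mul_inv_rev]
    have e : g * g ^ k * y * ((g ^ k)⁻¹ * g⁻¹) = g * (g ^ k * y * (g ^ k)⁻¹) * g⁻¹ := by group
    rw [e, ih]
    have e2 : g * y ^ n ^ k * g⁻¹ = (g * y * g⁻¹) ^ n ^ k := conj_pow.symm
    rw [e2, h, ← pow_mul, ← pow_succ']

/-- the inverse of `j` modulo the period -/
theorem exists_inv {ℓ : ℕ} [hℓ : Fact ℓ.Prime] {r j : ℕ} (hr : 0 < r) (hj : ¬ ℓ ∣ j) :
    ∃ m k : ℕ, j * m = 1 + ℓ ^ r * k := by
  have hc : Nat.Coprime j (ℓ ^ r) :=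
    Nat.Coprime.pow_right r ((hℓ.out.coprime_iff_not_dvd.2 hj).symm)
  have h1 : 1 < ℓ ^ r := Nat.one_lt_pow hr.ne' hℓ.out.one_lt
  obtain ⟨m, _, hm⟩ := Nat.exists_mul_mod_eq_one_of_coprime hc h1
  exact ⟨m, j * m / ℓ ^ r, by rw [← hm, Nat.mod_add_div]⟩

theorem pow_inv_eq {N R j m k : ℕ} (h : ∀ g : G, g ^ N ^ R = g) (hm : j * m = 1 + R * k) (g : G) :
    g ^ N ^ (j * m) = g ^ N := by
  rw [hm, add_comm, ← pow_pow_add, per_mul h, pow_one]

/-- fixed points of a power of the power map -/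
theorem fix_iff {ℓ : ℕ} [Fact ℓ.Prime] {N r j : ℕ} (hr : 0 < r) (hj : ¬ ℓ ∣ j)
    (h : ∀ g : G, g ^ N ^ ℓ ^ r = g) (χ : G → ℂ) :
    (∀ g, χ (g ^ N ^ j) = χ g) ↔ ∀ g, χ (g ^ N) = χ g := by
  constructor
  · intro h1
    obtain ⟨m, k, hm⟩ := exists_inv hr hj
    have h2 : ∀ (m : ℕ) (g : G), χ (g ^ N ^ (j * m)) = χ g := by
      intro m
      induction m with
      | zero => intro g; simp
      | succ m ih =>
        intro g
        rw [mul_add, mul_one, ← pow_pow_add, h1, ih]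
    intro g
    rw [← pow_inv_eq h hm g, h2]
  · intro h1
    induction j with
    | zero => simp
    | succ j _ =>
      have h2 : ∀ (m : ℕ) (g : G), χ (g ^ N ^ m) = χ g := by
        intro m
        induction m with
        | zero => intro g; simp
        | succ m ih =>
          intro g
          rw [← pow_pow_add, pow_one, h1, ih]
      exact h2 _

theorem not_conj {ℓ : ℕ} [Fact ℓ.Prime] {N r j : ℕ} (hr : 0 < r) (hj : ¬ ℓ ∣ j)
    (h : ∀ g : G, g ^ N ^ ℓ ^ r = g) {y : G} (hy : ¬ ∃ g : G, g * y * g⁻¹ = y ^ N) (g : G) :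
    g * y * g⁻¹ ≠ y ^ N ^ j := by
  intro h1
  obtain ⟨m, k, hm⟩ := exists_inv hr hj
  apply hy
  refine ⟨g ^ m, ?_⟩
  rw [conj_pow_pow h1 m, ← pow_mul, pow_inv_eq h hm]

end pow

section tww

variable {G : Type} [Group G] [Finite G] (M : Ideal (integralClosure ℤ ℂ)) [M.IsMaximal]

theorem tw_ext (ℓ : ℕ) (C : Subgroup G) (e : G → FF M) (h : G) :
    tw M ℓ C (H75.ext0 C (fun t : C => e t)) h = tw M ℓ C e h := by
  have e1 : (fun t : C => H75.ext0 C (fun t : C => e t) t) = fun t : C => e t :=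
    funext fun t => ext0_apply C (fun t : C => e t) t
  unfold tw kr
  rw [e1]

end tww

/-- the contribution of an `ℓ`-element `y ≠ 1` is a number `≥ 0` -/
theorem contr (fxy : T2.FxyStmt) (twy : TwyStmt) (cys : CysStmt) (ℓ : ℕ) [Fact ℓ.Prime]
    (M : Ideal (integralClosure ℤ ℂ)) [M.IsMaximal] (hM : (ℓ : integralClosure ℤ ℂ) ∈ M)
    (G : Type) [Group G] [Finite G] (N : ℕ) (hN : N.Coprime (Nat.card G)) (r : ℕ) (hr : 0 < r)
    (hper : ∀ g : G, g ^ N ^ ℓ ^ r = g) (e : G → FF M) (he : IsIdem e) (y : G) (hy1 : y ≠ 1)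
    (hy : El ℓ y) :
    ∃ x : ℝ, 0 ≤ x ∧ ∑ j ∈ (Finset.range (ℓ ^ r)).filter (fun j => ¬ ℓ ∣ j),
      ∑ᶠ (s : G) (_ : s ∈ Cu y ∧ Reg ℓ s), ∑ᶠ χ ∈ IrrE M e,
        χ (y ^ N ^ j * s) * starRingEnd ℂ (χ (y * s)) = (x : ℂ) := by
  classical
  by_cases hc : ∃ g : G, g * y * g⁻¹ = y ^ N
  · obtain ⟨g, hg⟩ := hc
    have hF : GoodF ℓ (FF M) := H50.fld ℓ Fact.out M hM
    have hid : IsIdem (fun t : Cu y => e t) := T3.H98.idem_cu hF he hy
    have hix : Ix (Cu y) (H75.ext0 (Cu y) (fun t : Cu y => e t)) := by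
      refine ⟨ext0_supp _ _, ?_⟩
      have e1 : (fun t : Cu y => H75.ext0 (Cu y) (fun t : Cu y => e t) t) = fun t : Cu y => e t :=
        funext fun t => ext0_apply _ _ t
      rw [e1]
      exact hid
    have hb : ∀ x : G, x * y = y * x ↔ x * y ^ N = y ^ N * x := by
      intro x
      constructor
      · intro h
        exact (show Commute x y from h).pow_right N
      · intro h
        have h1 : Commute x (y ^ N) := h
        have h2 := h1.pow_right (N ^ (ℓ ^ r - 1))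
        have h3 : (y ^ N) ^ N ^ (ℓ ^ r - 1) = y := by
          have h4 : 1 ≤ ℓ ^ r := Nat.one_le_pow _ _ (Fact.out : ℓ.Prime).pos
          have h5 := pow_pow_add y N 1 (ℓ ^ r - 1)
          rw [pow_one] at h5
          rw [h5, Nat.add_sub_cancel' h4, hper]
        rw [h3] at h2
        exact h2
    have hmem : ∀ x : G, x ∈ Cu y ↔ g * x * g⁻¹ ∈ Cu y := by
      intro x
      rw [Subgroup.mem_centralizer_singleton_iff, Subgroup.mem_centralizer_singleton_iff,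
        hb (g * x * g⁻¹), ← hg]
      constructor
      · intro h
        calc g * x * g⁻¹ * (g * y * g⁻¹) = g * (x * y) * g⁻¹ := by group
          _ = g * (y * x) * g⁻¹ := by rw [h]
          _ = _ := by group
      · intro h
        have h1 : g * (x * y) * g⁻¹ = g * (y * x) * g⁻¹ := by
          calc g * (x * y) * g⁻¹ = g * x * g⁻¹ * (g * y * g⁻¹) := by group
            _ = g * y * g⁻¹ * (g * x * g⁻¹) := h
            _ = _ := by group
        exact mul_left_cancel (mul_right_cancel h1)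
    have hnorm : g ∈ Subgroup.normalizer (Cu y : Set G) := by
      rw [Subgroup.mem_normalizer_iff]
      exact hmem
    have hcj : cj g (H75.ext0 (Cu y) (fun t : Cu y => e t)) =
        H75.ext0 (Cu y) (fun t : Cu y => e t) := by
      rw [cj_eq_iff]
      intro x
      by_cases hx : x ∈ Cu y
      · have hx' := (hmem x).1 hx
        have e1 := ext0_apply (Cu y) (fun t : Cu y => e t) ⟨x, hx⟩
        have e2 := ext0_apply (Cu y) (fun t : Cu y => e t) ⟨g * x * g⁻¹, hx'⟩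
        simp only at e1 e2
        rw [e1, e2]
        exact he.1 x g
      · have hx' : g * x * g⁻¹ ∉ Cu y := fun h => hx ((hmem x).2 h)
        rw [ext0_supp _ _ x hx, ext0_supp _ _ _ hx']
    have hgr : g ^ ℓ ^ r ∈ Cu y := by
      rw [Subgroup.mem_centralizer_singleton_iff]
      have h1 := conj_pow_pow hg (ℓ ^ r)
      rw [hper] at h1
      exact mul_inv_eq_iff_eq_mul.1 h1
    obtain ⟨x, hx0, hx⟩ := cys ℓ M hM G (Cu y) _ hix g hnorm hcj r hr hgr
    refine ⟨(Nat.card (Cu y) : ℝ) * x, by positivity, ?_⟩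
    push_cast
    rw [← hx, Finset.mul_sum]
    refine Finset.sum_congr rfl fun j _ => ?_
    rw [tw_ext]
    exact twy ℓ M hM G e he y hy1 hy (N ^ j) (g ^ j) (conj_pow_pow hg j)
  · refine ⟨0, le_rfl, ?_⟩
    rw [Complex.ofReal_zero]
    refine Finset.sum_eq_zero fun j hj => ?_
    rw [Finset.mem_filter] at hj
    refine fxy ℓ M hM G (N ^ j) (Nat.Coprime.pow_left j hN) e he y hy1 hy ?_
    intro b _ _ g hg
    exact absurd hg (not_conj hr hj.2 hper hc g)

theorem fx5_core (ada : AdaStmt) (wbo : WboStmt) (idm : KF.IdmStmt) (prt : PrtStmt)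
    (fxy : T2.FxyStmt) (lrk : LrkStmt) (twy : TwyStmt) (cys : CysStmt) : Fx5Stmt := by
  intro ℓ _ M _ hM G _ _ N hN e he
  classical
  have := Fintype.ofFinite G
  have hfi : (Irr G).Finite := irr_finite'
  have hirr : IrrE M e ⊆ Irr G := fun _ h => h.1
  have := (hfi.subset hirr).fintype
  have hG0 : (Nat.card G : ℂ) ≠ 0 := by exact_mod_cast Nat.card_pos.ne'
  have hG1 : (0 : ℝ) < Nat.card G := by exact_mod_cast Nat.card_pos
  obtain ⟨N₀, hN1, hN2⟩ := prt ℓ G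
  obtain ⟨r, hr, hper⟩ := hN.per
  obtain ⟨J, hJ⟩ : ∃ J : Finset ℕ, J = (Finset.range (ℓ ^ r)).filter (fun j => ¬ ℓ ∣ j) :=
    ⟨_, rfl⟩
  have hJpos : 0 < J.card := by
    rw [Finset.card_pos]
    refine ⟨1, ?_⟩
    rw [hJ, Finset.mem_filter, Finset.mem_range]
    exact ⟨Nat.one_lt_pow hr.ne' (Fact.out : ℓ.Prime).one_lt, (Fact.out : ℓ.Prime).one_lt.ne' ∘
      Nat.dvd_one.1⟩
  -- the summands
  obtain ⟨T, hT⟩ : ∃ T : ℕ → G → ℂ, ∀ j g,
      T j g = ∑ χ : IrrE M e, (χ : G → ℂ) (g ^ N ^ j) * starRingEnd ℂ ((χ : G → ℂ) g) :=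
    ⟨_, fun _ _ => rfl⟩
  have hfm : ∀ F : (G → ℂ) → ℂ, ∑ᶠ χ ∈ IrrE M e, F χ = ∑ χ : IrrE M e, F χ := fun F => by
    rw [← finsum_eq_sum_of_fintype, finsum_set_coe_eq_finsum_mem]
  -- the number of the fixed characters
  have hA : ∀ j ∈ J, (Nat.card G : ℂ) * ((Rf M N e).ncard : ℂ) = ∑ g, T j g := by
    intro j hj
    rw [hJ, Finset.mem_filter] at hj
    have hrt := T3.H23.rtc' ada wbo idm ℓ M hM G (N ^ j) (Nat.Coprime.pow_left j hN.cop)
      (fun g hg => reg_pow hN.reg j g hg) e he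
    have h1 : ∀ χ : IrrE M e, ∑ g, (χ : G → ℂ) (g ^ N ^ j) * starRingEnd ℂ ((χ : G → ℂ) g) =
        (Nat.card G : ℂ) * if (∀ g, (χ : G → ℂ) (g ^ N) = (χ : G → ℂ) g) then 1 else 0 := by
      intro χ
      by_cases h : ∀ g, (χ : G → ℂ) (g ^ N) = (χ : G → ℂ) g
      · rw [if_pos h]
        have h2 := K9.H11.ipn_self (hirr χ.2)
        rw [K9.H11.ipn_eq] at h2
        have h' := (fix_iff hr hj.2 hper (χ : G → ℂ)).2 h
        simp only [h']
        rw [← h2, mul_inv_cancel_left₀ hG0]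
      · rw [if_neg h]
        have h2 := K9.H11.ipn_ne (hrt.1 χ (hirr χ.2)) (hirr χ.2)
          (fun h3 => h ((fix_iff hr hj.2 hper (χ : G → ℂ)).1 (congrFun h3)))
        rw [K9.H11.ipn_eq] at h2
        rw [mul_zero]
        exact (mul_eq_zero.1 h2).resolve_left (inv_ne_zero hG0)
    simp only [hT]
    rw [Finset.sum_comm]
    simp only [h1]
    rw [← Finset.mul_sum, Finset.sum_ite, Finset.sum_const_zero, add_zero, Finset.sum_const,
      nsmul_eq_mul, mul_one]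
    congr 2
    have h3 : Rf M N e =
        Subtype.val '' ((Finset.univ.filter (fun χ : IrrE M e =>
          ∀ g, (χ : G → ℂ) (g ^ N) = (χ : G → ℂ) g) : Finset (IrrE M e)) : Set (IrrE M e)) := by
      ext χ
      constructor
      · rintro ⟨h4, h5⟩
        exact ⟨⟨χ, h4⟩, by simpa using h5, rfl⟩
      · rintro ⟨χ', h4, rfl⟩
        exact ⟨χ'.2, by simpa using h4⟩
    rw [h3, Set.ncard_image_of_injective _ Subtype.val_injective, Set.ncard_coe_finset]
  -- the contribution of the `ℓ`-element `y`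
  obtain ⟨P, hP⟩ : ∃ P : G → ℂ, ∀ y, P y = ∑ j ∈ J,
      ∑ g ∈ Finset.univ.filter (fun g : G => (g ^ N₀)⁻¹ * g = y), T j g := ⟨_, fun _ => rfl⟩
  have hfib : ∑ j ∈ J, ∑ g, T j g = ∑ y : G, P y := by
    have h0 : ∑ y : G, P y = ∑ j ∈ J, ∑ y : G,
        ∑ g ∈ Finset.univ.filter (fun g : G => (g ^ N₀)⁻¹ * g = y), T j g := by
      simp only [hP]
      exact Finset.sum_comm
    rw [h0]
    exact Finset.sum_congr rfl fun j _ =>
      (Finset.sum_fiberwise Finset.univ (fun g : G => (g ^ N₀)⁻¹ * g) (T j)).symm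
  have hpow : ∀ (j : ℕ) (y s : G), s ∈ Cu y ∧ Reg ℓ s → (y * s) ^ N ^ j = y ^ N ^ j * s := by
    intro j y s hs
    have hc : Commute s y := Subgroup.mem_centralizer_singleton_iff.1 hs.1
    rw [hc.symm.mul_pow, reg_pow hN.reg j s hs.2]
  have hy0 : ∀ y : G, y ≠ 1 → 0 ≤ (P y).re := by
    intro y hy1
    by_cases hy : El ℓ y
    · obtain ⟨x, hx0, hx⟩ := contr fxy twy cys ℓ M hM G N hN.cop r hr hper e he y hy1 hy
      have h4 : P y = (x : ℂ) := by
        rw [← hx, hP, ← hJ]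
        refine Finset.sum_congr rfl fun j _ => ?_
        rw [T2.H67.fibre hN1 hN2 (T j) y hy, T2.H67.fs_filter]
        refine Finset.sum_congr rfl fun s hs => ?_
        rw [Finset.mem_filter] at hs
        rw [hT, hfm, hpow j y s hs.2]
      rw [h4, Complex.ofReal_re]
      exact hx0
    · have h3 : Finset.univ.filter (fun g : G => (g ^ N₀)⁻¹ * g = y) = ∅ := by
        rw [Finset.filter_eq_empty_iff]
        intro g _ hg
        exact hy (hg ▸ (hN1 g).2)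
      rw [hP]
      simp [h3]
  have h1 : P 1 = (J.card : ℂ) * ((Nat.card G : ℂ) * (ln e : ℂ)) := by
    have hE1 : El ℓ (1 : G) := ⟨0, one_pow _⟩
    rw [hP, ← nsmul_eq_mul, ← Finset.sum_const]
    refine Finset.sum_congr rfl fun j _ => ?_
    rw [T2.H67.fibre hN1 hN2 (T j) 1 hE1, lrk ℓ M hM G e he, T2.H67.fs_filter,
      mul_inv_cancel_left₀ hG0]
    have h3 : Finset.univ.filter (fun s : G => s ∈ Cu (1 : G) ∧ Reg ℓ s) =
        Finset.univ.filter (fun s : G => Reg ℓ s) := by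
      apply Finset.filter_congr
      intro s _
      constructor
      · exact fun h => h.2
      · intro h
        refine ⟨?_, h⟩
        rw [Subgroup.mem_centralizer_singleton_iff, mul_one, one_mul]
    rw [h3]
    refine Finset.sum_congr rfl fun s hs => ?_
    rw [Finset.mem_filter] at hs
    rw [hT, hfm, one_mul, reg_pow hN.reg j s hs.2]
  have htot : (J.card : ℂ) * ((Nat.card G : ℂ) * ((Rf M N e).ncard : ℂ)) = ∑ y : G, P y := by
    rw [← hfib, ← nsmul_eq_mul, ← Finset.sum_const]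
    exact Finset.sum_congr rfl fun j hj => hA j hj
  have hmain : (J.card : ℝ) * ((Nat.card G : ℝ) * (ln e : ℝ)) ≤
      (J.card : ℝ) * ((Nat.card G : ℝ) * ((Rf M N e).ncard : ℝ)) := by
    have h3 : ((J.card : ℂ) * ((Nat.card G : ℂ) * ((Rf M N e).ncard : ℂ))).re =
        (J.card : ℝ) * ((Nat.card G : ℝ) * ((Rf M N e).ncard : ℝ)) := by
      norm_cast
    have h4 : ((J.card : ℂ) * ((Nat.card G : ℂ) * (ln e : ℂ))).re =
        (J.card : ℝ) * ((Nat.card G : ℝ) * (ln e : ℝ)) := by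
      norm_cast
    have h5 : 0 ≤ (P 1).re := by
      rw [h1, h4]
      positivity
    have hall : ∀ y : G, 0 ≤ (P y).re := by
      intro y
      by_cases hy : y = 1
      · rw [hy]; exact h5
      · exact hy0 y hy
    rw [← h3, htot, Complex.re_sum, ← h4, ← h1]
    exact Finset.single_le_sum (f := fun y : G => (P y).re) (fun y _ => hall y)
      (Finset.mem_univ 1)
  have h5 := le_of_mul_le_mul_left (le_of_mul_le_mul_left hmain (by exact_mod_cast hJpos)) hG1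
  exact_mod_cast h5

/-- FX5 -/
theorem fx5 (fxy : T2.FxyStmt) (lrk : LrkStmt) (twy : TwyStmt) (cys : CysStmt) : Fx5Stmt :=
  fx5_core (K9.H25.ada K9.H20.adp) (K9.H82W.wbo (K9.H82.trb K9.H53.tra)) KF.H25.idm K9.H27.prt
    fxy lrk twy cys

end Pool.Agent.PP.T5.H46
end
end -- Pool.Agent.Helper46_AT5.FX5

section -- Pool.Agent.Helper90_ATZ.NZF

/-!
# Squad ATZ, row NZF: a character fixed by the power map which is not orthogonal, on the regular
elements, to any character of the block, even modulo `M` (after `T5.H23.nzm` of helper23)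
-/

open scoped BigOperators

noncomputable section

namespace Pool.Agent.PP.TB.H90

open Pool.Agent.Helper51_AWC Pool.Agent.Helper79_WRA Pool.Agent.PP Pool.Agent.PP.KF
open Pool.Agent.PP.K9 Pool.Agent.PP.K9.H97 Pool.Agent.PP.H75 Pool.Agent.PP.T3 Pool.Agent.PP.T2
open Pool.Agent.PP.K9.H25 Pool.Agent.PP.T5 Pool.Agent.PP.T5.H23

attribute [local instance] Ideal.Quotient.field

theorem cast_of_modEq {F : Type*} [Field F] {ℓ a b : ℕ} (hc : (ℓ : F) = 0)
    (h : a ≡ b [MOD ℓ]) : (a : F) = b := by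
  have e : ∀ n : ℕ, (n : F) = ((n % ℓ : ℕ) : F) := by
    intro n
    conv_lhs => rw [← Nat.mod_add_div n ℓ]
    rw [Nat.cast_add, Nat.cast_mul, hc, zero_mul, add_zero]
  rw [e a, e b, h]

open Classical in
/-- the points which are not fixed do not contribute to the sum of an invariant function in
characteristic `ℓ` -/
theorem sum_fix {α F : Type*} [Fintype α] [Field F] {ℓ r : ℕ} [Fact ℓ.Prime]
    (hc : (ℓ : F) = 0) (σ : α → α) (hσ : ∀ a, σ^[ℓ ^ r] a = a) (f : α → F)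
    (hf : ∀ a, f (σ a) = f a) :
    ∑ a, f a = ∑ a ∈ Finset.univ.filter (fun a => σ a = a), f a := by
  have key : ∀ b : F, ((Finset.univ.filter (fun a => f a = b)).card : F) =
      (((Finset.univ.filter (fun a => σ a = a)).filter (fun a => f a = b)).card : F) := by
    intro b
    obtain ⟨τ, hτ⟩ : ∃ τ : Function.End {a // f a = b}, ∀ a, (τ a).1 = σ a.1 :=
      ⟨fun a => ⟨σ a.1, by rw [hf]; exact a.2⟩, fun _ => rfl⟩
    have hpow : ∀ (n : ℕ) (a : {a // f a = b}), ((τ ^ n) a).1 = σ^[n] a.1 := by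
      intro n
      induction n with
      | zero => intro a; rfl
      | succ n ih =>
        intro a
        rw [pow_succ, Function.iterate_succ_apply, ← hτ]
        exact ih (τ a)
    have h1 : τ ^ ℓ ^ r = 1 := by
      funext a
      apply Subtype.ext
      rw [hpow, hσ]
      rfl
    have h2 := cast_of_modEq hc (Equiv.Perm.card_fixedPoints_modEq h1)
    rw [Fintype.card_subtype] at h2
    rw [h2]
    congr 1
    rw [Finset.filter_filter, ← Fintype.card_subtype]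
    refine Fintype.card_congr ?_
    exact
      { toFun := fun a => ⟨a.1.1, by
          have h3 : τ a.1 = a.1 := a.2
          have h4 := hτ a.1
          rw [h3] at h4
          exact ⟨h4.symm, a.1.2⟩⟩
        invFun := fun a => ⟨⟨a.1, a.2.2⟩, by
          show τ ⟨a.1, a.2.2⟩ = ⟨a.1, a.2.2⟩
          apply Subtype.ext
          rw [hτ]
          exact a.2.1⟩
        left_inv := fun _ => rfl
        right_inv := fun _ => rfl }
  obtain ⟨T, hT⟩ : ∃ T : Finset F, T = Finset.univ.image f := ⟨_, rfl⟩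
  have hT1 : ∀ a, f a ∈ T := fun a => by
    rw [hT]
    exact Finset.mem_image_of_mem f (Finset.mem_univ a)
  rw [← Finset.sum_fiberwise_of_maps_to (s := Finset.univ) (t := T) (g := f)
    (fun a _ => hT1 a) f, ← Finset.sum_fiberwise_of_maps_to
    (s := Finset.univ.filter (fun a => σ a = a)) (t := T) (g := f) (fun a _ => hT1 a) f]
  refine Finset.sum_congr rfl fun b _ => ?_
  have h3 : ∀ s : Finset α, ∑ a ∈ s.filter (fun a => f a = b), f a =
      ((s.filter (fun a => f a = b)).card : F) * b := by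
    intro s
    rw [Finset.sum_congr rfl (fun a ha => (Finset.mem_filter.1 ha).2), Finset.sum_const,
      nsmul_eq_mul]
  rw [h3, h3, key b]

theorem el_pow {G : Type} [Group G] [Finite G] {ℓ N : ℕ} (hN : N.Coprime (Nat.card G)) (x : G) :
    El ℓ (x ^ N) ↔ El ℓ x := by
  constructor
  · rintro ⟨n, hn⟩
    refine ⟨n, (T3.H23.pow_bij hN).1 ?_⟩
    show (x ^ ℓ ^ n) ^ N = 1 ^ N
    rw [one_pow, ← pow_mul, mul_comm, pow_mul, hn]
  · rintro ⟨n, hn⟩
    refine ⟨n, ?_⟩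
    rw [← pow_mul, mul_comm, pow_mul, hn, one_pow]

open Classical in
/-- NZF -/
theorem nzf (sei : SeiStmt) (wbo : K9.WboStmt) (ada : K9.AdaStmt) (idm : KF.IdmStmt) :
    NzfStmt := by
  intro ℓ _ M _ hM H _ _ N hN b hb
  have := Fintype.ofFinite H
  have hℓ : ℓ.Prime := Fact.out
  have hc : (Fintype.card H : ℂ) ≠ 0 := by exact_mod_cast Fintype.card_ne_zero
  obtain ⟨P⟩ : Nonempty (Sylow ℓ H) := inferInstance
  have hs := (sei ℓ H P).2
  obtain ⟨q, hq⟩ : ∃ q, q = (P : Subgroup H).index := ⟨_, rfl⟩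
  rw [← hq] at hs
  have hq1 : ℓ.Coprime q := by
    rw [hq]
    exact (Nat.Prime.coprime_iff_not_dvd hℓ).2 P.not_dvd_index
  -- the indicator function of the `ℓ`-elements
  obtain ⟨pi, hpi⟩ : ∃ pi : H → ℂ, pi = fun h => if El ℓ h then 1 else 0 := ⟨_, rfl⟩
  obtain ⟨a, ha⟩ : ∃ a : (H → ℂ) → ℂ, a = fun ψ => ipn pi ψ := ⟨_, rfl⟩
  have haR : ∀ ψ ∈ Irr H, a ψ ∈ RM M := by
    intro ψ hψ
    obtain ⟨m, hm⟩ := zi_ipn hs (AddSubgroup.subset_closure hψ : ψ ∈ ZI H)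
    have h1 : (q : ℂ) * a ψ = m := by
      rw [← hm, ha, hpi]
      beta_reduce
      rw [ipn_eq, ipn_eq, mul_left_comm, Finset.mul_sum]
      congr 1
      refine Finset.sum_congr rfl fun x _ => ?_
      by_cases hx : El ℓ x
      · rw [if_pos hx, if_pos hx, one_mul]
      · rw [if_neg hx, if_neg hx, zero_mul, mul_zero]
    exact ⟨(q : integralClosure ℤ ℂ), (m : integralClosure ℤ ℂ), cast_notMem hq1 hM, by
      rw [← map_natCast (algebraMap (integralClosure ℤ ℂ) ℂ), ← map_intCast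
        (algebraMap (integralClosure ℤ ℂ) ℂ)] at h1
      exact h1⟩
  obtain ⟨S, hS⟩ : ∃ S : Finset (H → ℂ), S = (irrE_finite M b).toFinset := ⟨_, rfl⟩
  have hSm : ∀ ψ, ψ ∈ S ↔ ψ ∈ IrrE M b := fun ψ => by rw [hS, Set.Finite.mem_toFinset]
  -- the values at the regular elements
  have hval : ∀ x : H, Reg ℓ x → ∑ ψ ∈ S, a ψ * ψ x⁻¹ = eh M b x := by
    intro x hx
    have h1 : ∀ ψ ∈ S, a ψ * ψ x⁻¹ = ∑ c : H, (Fintype.card H : ℂ)⁻¹ *
        (if El ℓ c then ψ x⁻¹ * ψ c⁻¹ else 0) := by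
      intro ψ hψ
      rw [ha, hpi]
      simp only [ipn_eq]
      rw [mul_assoc, Finset.sum_mul, Finset.mul_sum]
      refine Finset.sum_congr rfl fun c _ => ?_
      congr 1
      by_cases hcl : El ℓ c
      · rw [if_pos hcl, if_pos hcl, one_mul, H94.irr_star ((hSm ψ).1 hψ).1, mul_comm]
      · rw [if_neg hcl, if_neg hcl, zero_mul, zero_mul]
    rw [Finset.sum_congr rfl h1, Finset.sum_comm, Finset.sum_eq_single_of_mem (1 : H)
      (Finset.mem_univ _)]
    · rw [eh_eq, ← hS, Finset.mul_sum]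
      refine Finset.sum_congr rfl fun ψ _ => ?_
      rw [if_pos el_one, inv_one, mul_comm (ψ 1)]
    · intro c _ hc1
      rw [← Finset.mul_sum]
      by_cases hcl : El ℓ c
      · have h2 : ¬ Reg ℓ c⁻¹ := fun h => hc1 (inv_eq_one.1 (el_reg (el_inv hcl) h))
        have h3 := wbo ℓ M hM H b hb.1 x c⁻¹ hx h2
        rw [finsum_mem_eq_finite_toFinset_sum _ (irrE_finite M b), ← hS] at h3
        have h4 : ∑ ψ ∈ S, (if El ℓ c then ψ x⁻¹ * ψ c⁻¹ else 0) = ∑ ψ ∈ S, ψ x⁻¹ * ψ c⁻¹ :=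
          Finset.sum_congr rfl fun ψ _ => if_pos hcl
        rw [h4, h3, mul_zero]
      · have h4 : ∑ ψ ∈ S, (if El ℓ c then ψ x⁻¹ * ψ c⁻¹ else 0) = 0 :=
          Finset.sum_eq_zero fun ψ _ => if_neg hcl
        rw [h4, mul_zero]
  -- the class functions
  obtain ⟨F, hF⟩ : ∃ F : (H → ℂ) → H → integralClosure ℤ ℂ, ∀ ψ ∈ Irr H, ∀ x,
      ((F ψ x : integralClosure ℤ ℂ) : ℂ) = if Reg ℓ x then ψ x⁻¹ else 0 := by
    refine ⟨fun ψ x => if h : ψ ∈ Irr H ∧ Reg ℓ x then ⟨ψ x⁻¹, irr_integral h.1 x⁻¹⟩ else 0, ?_⟩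
    intro ψ hψ x
    beta_reduce
    by_cases hx : Reg ℓ x
    · rw [dif_pos ⟨hψ, hx⟩, if_pos hx]
    · rw [dif_neg (fun h => hx h.2), if_neg hx]
      rfl
  have hFc : ∀ ψ ∈ Irr H, H50.Cl (F ψ) := by
    intro ψ hψ x y
    apply Subtype.ext
    rw [hF ψ hψ, hF ψ hψ]
    have h1 : (y * x * y⁻¹)⁻¹ = y * x⁻¹ * y⁻¹ := by group
    rw [h1, irr_conj hψ]
    simp only [reg_conj]
  obtain ⟨g, hg⟩ : ∃ g : (H → ℂ) → (H → ℂ) → ℂ, g = fun ψ κ =>
      H50.om (fun x => ((F ψ x : integralClosure ℤ ℂ) : ℂ)) κ := ⟨_, rfl⟩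
  have hgr : ∀ ψ ∈ Irr H, ∀ κ ∈ Irr H, κ 1 * g ψ κ = (Fintype.card H : ℂ) * rip ℓ κ ψ := by
    intro ψ hψ κ hκ
    have hκ1 : κ 1 ≠ 0 := by
      obtain ⟨d, hd0, hd⟩ := irr_one hκ
      rw [hd]
      exact_mod_cast hd0.ne'
    rw [hg, rip, ← mul_assoc, Nat.card_eq_fintype_card, mul_inv_cancel₀ hc, one_mul,
      finsum_eq_sum_of_fintype]
    simp only [H50.om]
    rw [mul_div_cancel₀ _ hκ1]
    refine Finset.sum_congr rfl fun x _ => ?_
    rw [hF ψ hψ, finsum_eq_if]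
    by_cases hx : Reg ℓ x
    · rw [if_pos hx, if_pos hx, H94.irr_star hψ, mul_comm]
    · rw [if_neg hx, if_neg hx, zero_mul]
  have hgred : ∀ ψ ∈ Irr H, ∀ κ ∈ Irr H,
      res M (fun t => Ideal.Quotient.mk M (F ψ t)) κ = rr M (g ψ κ) ∧ g ψ κ ∈ RM M := by
    intro ψ hψ κ hκ
    obtain ⟨h1, h2⟩ := H50.res_irr (M := M) (F ψ) (hFc ψ hψ) hκ
    refine ⟨?_, ?_⟩
    · rw [h1, hg, rr_of_int h2]
    · rw [hg]
      exact RM_of_int h2
  -- the sum is one
  have hone : ∀ κ ∈ IrrE M b, ∑ ψ ∈ S, a ψ * g ψ κ = 1 := by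
    intro κ hκ
    have hκ1 : κ 1 ≠ 0 := by
      obtain ⟨d, hd0, hd⟩ := irr_one hκ.1
      rw [hd]
      exact_mod_cast hd0.ne'
    have h1 := eh_chv M b hκ.1
    rw [if_pos hκ] at h1
    apply mul_left_cancel₀ hκ1
    rw [mul_one, Finset.mul_sum]
    have h2 : ∀ ψ ∈ S, κ 1 * (a ψ * g ψ κ) =
        ∑ x : H, if Reg ℓ x then a ψ * (ψ x⁻¹ * κ x) else 0 := by
      intro ψ hψ
      have hψ1 := ((hSm ψ).1 hψ).1
      rw [mul_left_comm, hgr ψ hψ1 κ hκ.1, rip, ← mul_assoc (Fintype.card H : ℂ),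
        Nat.card_eq_fintype_card, mul_inv_cancel₀ hc, one_mul, finsum_eq_sum_of_fintype,
        Finset.mul_sum]
      refine Finset.sum_congr rfl fun x _ => ?_
      rw [finsum_eq_if]
      by_cases hx : Reg ℓ x
      · rw [if_pos hx, if_pos hx, H94.irr_star hψ1, mul_comm (κ x)]
      · rw [if_neg hx, if_neg hx, mul_zero]
    rw [Finset.sum_congr rfl h2, Finset.sum_comm]
    refine Eq.trans (Finset.sum_congr rfl fun x _ => ?_) h1
    by_cases hx : Reg ℓ x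
    · rw [← hval x hx, Finset.sum_mul]
      refine Finset.sum_congr rfl fun ψ _ => ?_
      rw [if_pos hx]
      ring
    · rw [eh_sing wbo ℓ M hM b hb.1 x hx, zero_mul]
      exact Finset.sum_eq_zero fun ψ _ => if_neg hx
  -- the fixed characters
  obtain ⟨κ₁, hκ₁, hκ₂⟩ := H50.exists_irr_res hb.1 hb.2.1
  have hrt := (T3.H23.rtc' ada wbo idm ℓ M hM H N hN.cop hN.reg b hb.1).2
  obtain ⟨r, -, hper⟩ := hN.per
  have hgeq : ∀ ψ ∈ Irr H, ∀ κ ∈ Irr H, (Nat.card H : ℂ) * rip ℓ κ ψ / κ 1 = g ψ κ := by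
    intro ψ hψ κ hκ
    have hκ1 : κ 1 ≠ 0 := by
      obtain ⟨d, hd0, hd⟩ := irr_one hκ
      rw [hd]
      exact_mod_cast hd0.ne'
    rw [Nat.card_eq_fintype_card, ← hgr ψ hψ κ hκ, mul_div_cancel_left₀ _ hκ1]
  obtain ⟨σ, hσ⟩ : ∃ σ : {ψ // ψ ∈ S} → {ψ // ψ ∈ S}, ∀ ψ, (σ ψ).1 = fun h => ψ.1 (h ^ N) :=
    ⟨fun ψ => ⟨fun h => ψ.1 (h ^ N), (hSm _).2 (hrt ψ.1 ((hSm _).1 ψ.2))⟩, fun _ => rfl⟩
  have hσit : ∀ (n : ℕ) (ψ : {ψ // ψ ∈ S}), (σ^[n] ψ).1 = fun h => ψ.1 (h ^ N ^ n) := by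
    intro n
    induction n with
    | zero => intro ψ; funext h; simp
    | succ n ih =>
      intro ψ
      rw [Function.iterate_succ_apply', hσ, ih ψ]
      funext h
      show ψ.1 ((h ^ N) ^ N ^ n) = ψ.1 (h ^ N ^ (n + 1))
      rw [← pow_mul, ← pow_succ']
  have hσr : ∀ ψ : {ψ // ψ ∈ S}, σ^[ℓ ^ r] ψ = ψ := by
    intro ψ
    apply Subtype.ext
    rw [hσit]
    funext h
    rw [hper]
  have hasig : ∀ ψ : {ψ // ψ ∈ S}, a (σ ψ).1 = a ψ.1 := by
    intro ψ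
    rw [ha, hpi]
    beta_reduce
    rw [ipn_eq, ipn_eq, hσ]
    congr 1
    rw [← Function.Bijective.sum_comp (T3.H23.pow_bij hN.cop)
      (fun x => (if El ℓ x then (1 : ℂ) else 0) * starRingEnd ℂ (ψ.1 x))]
    refine Finset.sum_congr rfl fun x _ => ?_
    simp only [el_pow hN.cop]
  have hgsig : ∀ (ψ : {ψ // ψ ∈ S}) (κ : H → ℂ), κ ∈ Irr H → g (σ ψ).1 κ = g ψ.1 κ := by
    intro ψ κ hκ
    have h1 := ((hSm _).1 (σ ψ).2).1
    have h2 := ((hSm _).1 ψ.2).1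
    rw [← hgeq _ h1 κ hκ, ← hgeq _ h2 κ hκ]
    congr 2
    unfold rip
    congr 1
    refine finsum_congr fun s => finsum_congr fun hs => ?_
    rw [hσ]
    show κ s * starRingEnd ℂ (ψ.1 (s ^ N)) = κ s * starRingEnd ℂ (ψ.1 s)
    rw [hN.reg s hs]
  have hℓ0 : ((ℓ : ℕ) : FF M) = 0 := by
    have h1 : ((ℓ : ℕ) : FF M) = Ideal.Quotient.mk M (ℓ : integralClosure ℤ ℂ) := by
      rw [map_natCast]
    rw [h1]
    exact Ideal.Quotient.eq_zero_iff_mem.2 hM
  have hsum : ∑ ψ : {ψ // ψ ∈ S}, rr M (a ψ.1 * g ψ.1 κ₁) = 1 := by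
    have h1 := congrArg (rr M) (hone κ₁ ⟨hκ₁, hκ₂⟩)
    rw [rr_one, rr_sum] at h1
    · rw [← h1]
      exact Finset.sum_coe_sort S (fun ψ => rr M (a ψ * g ψ κ₁))
    · intro ψ hψ
      have hψ1 := ((hSm ψ).1 hψ).1
      exact (RM M).mul_mem (haR ψ hψ1) (hgred ψ hψ1 κ₁ hκ₁).2
  rw [sum_fix hℓ0 σ hσr (fun ψ => rr M (a ψ.1 * g ψ.1 κ₁)) (fun ψ => by
    rw [hasig ψ, hgsig ψ κ₁ hκ₁])] at hsum
  -- the choice of the character
  have hex : ∃ ψ : {ψ // ψ ∈ S}, σ ψ = ψ ∧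
      res M (fun t => Ideal.Quotient.mk M (F ψ.1 t)) κ₁ ≠ 0 := by
    by_contra hcon
    push Not at hcon
    apply zero_ne_one (α := FF M)
    rw [← hsum]
    symm
    refine Finset.sum_eq_zero fun ψ hψ => ?_
    have hψ1 := ((hSm ψ.1).1 ψ.2).1
    obtain ⟨h3, h4⟩ := hgred ψ.1 hψ1 κ₁ hκ₁
    have hψ2 : σ ψ = ψ := by simpa using hψ
    rw [rr_mul (haR ψ.1 hψ1) h4, ← h3, hcon ψ hψ2, mul_zero]
  obtain ⟨ψ, hfix, hne⟩ := hex
  have hψE := (hSm ψ.1).1 ψ.2
  refine ⟨ψ.1, ⟨hψE, fun h => ?_⟩, fun κ hκ => ?_⟩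
  · have h1 := congrFun (congrArg Subtype.val hfix) h
    rw [hσ] at h1
    exact h1
  · rw [hgeq ψ.1 hψE.1 κ hκ.1]
    refine ⟨(hgred ψ.1 hψE.1 κ hκ.1).2, ?_⟩
    rw [← (hgred ψ.1 hψE.1 κ hκ.1).1]
    have hcl : IsCl (fun t => (Ideal.Quotient.mk M (F ψ.1 t) : FF M)) := by
      intro x y
      exact congrArg (Ideal.Quotient.mk M) (hFc ψ.1 hψE.1 x y)
    have h1 := H50.char_uniq hb (H50.isChar_res hκ₁) (H50.isChar_res hκ.1) hκ₂ hκ.2 hcl
    intro h0
    apply hne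
    rw [h1]
    exact h0

end Pool.Agent.PP.TB.H90
end
end -- Pool.Agent.Helper90_ATZ.NZF

section -- Pool.Agent.Helper77_ATW.FX3

/-!
# Squad ATW, row FX3: a bound by the number of the fixed characters

Adaptation of `Helper67_AT2/FXS.lean`.
-/

set_option autoImplicit false

open scoped BigOperators

noncomputable section

namespace Pool.Agent.PP.TW.H77

open Pool.Agent.Helper51_AWC Pool.Agent.Helper79_WRA Pool.Agent.PP Pool.Agent.PP.KF
open Pool.Agent.PP.K9 Pool.Agent.PP.K9.H97 Pool.Agent.PP.H75 Pool.Agent.PP.T3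

attribute [local instance] Ideal.Quotient.field

theorem fx3_core (ada : AdaStmt) (wbo : WboStmt) (idm : KF.IdmStmt) (prt : PrtStmt)
    (fxy : T2.FxyStmt) (lrk : T3.LrkStmt) : Fx3Stmt := by
  intro M _ hM G _ _ N hN e he hyp
  classical
  show ln e ≤ {χ | χ ∈ IrrE M e ∧ ∀ g, χ (g ^ N) = χ g}.ncard
  have := Fintype.ofFinite G
  have hfi : (Irr G).Finite := irr_finite'
  have hirr : IrrE M e ⊆ Irr G := fun _ h => h.1
  have := (hfi.subset hirr).fintype
  have hG0 : (Nat.card G : ℂ) ≠ 0 := by exact_mod_cast Nat.card_pos.ne'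
  have hG1 : (0 : ℝ) < Nat.card G := by exact_mod_cast Nat.card_pos
  obtain ⟨N₀, hN1, hN2⟩ := prt 2 G
  have hrt := T3.H23.rtc' ada wbo idm 2 M hM G N hN.cop hN.reg e he
  -- the summands
  obtain ⟨T, hT⟩ : ∃ T : G → ℂ, ∀ g,
      T g = ∑ χ : IrrE M e, (χ : G → ℂ) (g ^ N) * starRingEnd ℂ ((χ : G → ℂ) g) :=
    ⟨_, fun _ => rfl⟩
  have hfm : ∀ F : (G → ℂ) → ℂ, ∑ᶠ χ ∈ IrrE M e, F χ = ∑ χ : IrrE M e, F χ := fun F => by
    rw [← finsum_eq_sum_of_fintype, finsum_set_coe_eq_finsum_mem]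
  -- the number of the fixed characters
  have hA : (Nat.card G : ℂ) * ({χ | χ ∈ IrrE M e ∧ ∀ g, χ (g ^ N) = χ g}.ncard : ℂ) =
      ∑ g, T g := by
    have h1 : ∀ χ : IrrE M e, ∑ g, (χ : G → ℂ) (g ^ N) * starRingEnd ℂ ((χ : G → ℂ) g) =
        (Nat.card G : ℂ) * if (∀ g, (χ : G → ℂ) (g ^ N) = (χ : G → ℂ) g) then 1 else 0 := by
      intro χ
      by_cases h : ∀ g, (χ : G → ℂ) (g ^ N) = (χ : G → ℂ) g
      · rw [if_pos h]
        have h2 := K9.H11.ipn_self (hirr χ.2)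
        rw [K9.H11.ipn_eq] at h2
        simp only [h]
        rw [← h2, mul_inv_cancel_left₀ hG0]
      · rw [if_neg h]
        have h2 := K9.H11.ipn_ne (hrt.1 χ (hirr χ.2)) (hirr χ.2) (fun h3 => h (congrFun h3))
        rw [K9.H11.ipn_eq] at h2
        rw [mul_zero]
        exact (mul_eq_zero.1 h2).resolve_left (inv_ne_zero hG0)
    simp only [hT]
    rw [Finset.sum_comm]
    simp only [h1]
    rw [← Finset.mul_sum, Finset.sum_ite, Finset.sum_const_zero, add_zero, Finset.sum_const,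
      nsmul_eq_mul, mul_one]
    congr 2
    have h3 : {χ | χ ∈ IrrE M e ∧ ∀ g, χ (g ^ N) = χ g} =
        Subtype.val '' ((Finset.univ.filter (fun χ : IrrE M e =>
          ∀ g, (χ : G → ℂ) (g ^ N) = (χ : G → ℂ) g) : Finset (IrrE M e)) : Set (IrrE M e)) := by
      ext χ
      constructor
      · rintro ⟨h4, h5⟩
        exact ⟨⟨χ, h4⟩, by simpa using h5, rfl⟩
      · rintro ⟨χ', h4, rfl⟩
        exact ⟨χ'.2, by simpa using h4⟩
    rw [h3, Set.ncard_image_of_injective _ Subtype.val_injective, Set.ncard_coe_finset]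
  -- the fibres
  have hfib : ∑ g, T g = ∑ y : G, ∑ g ∈ Finset.univ.filter (fun g : G => (g ^ N₀)⁻¹ * g = y), T g :=
    (Finset.sum_fiberwise Finset.univ (fun g : G => (g ^ N₀)⁻¹ * g) T).symm
  have hpow : ∀ y s : G, s ∈ Cu y ∧ Reg 2 s → (y * s) ^ N = y ^ N * s := by
    intro y s hs
    have hc : Commute s y := Subgroup.mem_centralizer_singleton_iff.1 hs.1
    rw [hc.symm.mul_pow, hN.reg s hs.2]
  have hnn : ∀ g, 0 ≤ (∑ χ : IrrE M e, (χ : G → ℂ) g * starRingEnd ℂ ((χ : G → ℂ) g)).re := by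
    intro g
    rw [Complex.re_sum]
    refine Finset.sum_nonneg fun χ _ => ?_
    rw [Complex.mul_conj, Complex.ofReal_re]
    exact Complex.normSq_nonneg _
  have hy0 : ∀ y : G, 0 ≤ (∑ g ∈ Finset.univ.filter (fun g : G => (g ^ N₀)⁻¹ * g = y), T g).re := by
    intro y
    by_cases hy : El 2 y
    · rw [T2.H67.fibre hN1 hN2 T y hy]
      by_cases hyl : y ^ 2 = 1
      · rw [Complex.re_sum]
        refine Finset.sum_nonneg fun s hs => ?_
        rw [Finset.mem_filter] at hs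
        rw [hT, hpow y s hs.2, hN.pow y hy, pow_succ, hyl, one_mul]
        exact hnn _
      · have hy1 : y ≠ 1 := by
          rintro rfl
          exact hyl (one_pow _)
        have h3 := fxy 2 M hM G N hN.cop e he y hy1 hy (hyp y hy hyl)
        rw [T2.H67.fs_filter] at h3
        have h4 : ∑ s ∈ Finset.univ.filter (fun s : G => s ∈ Cu y ∧ Reg 2 s), T (y * s) = 0 := by
          rw [← h3]
          refine Finset.sum_congr rfl fun s hs => ?_
          rw [Finset.mem_filter] at hs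
          rw [hT, hfm, hpow y s hs.2]
        rw [h4, Complex.zero_re]
    · have h3 : Finset.univ.filter (fun g : G => (g ^ N₀)⁻¹ * g = y) = ∅ := by
        rw [Finset.filter_eq_empty_iff]
        intro g _ hg
        exact hy (hg ▸ (hN1 g).2)
      rw [h3, Finset.sum_empty, Complex.zero_re]
  have h1 : ∑ g ∈ Finset.univ.filter (fun g : G => (g ^ N₀)⁻¹ * g = 1), T g =
      (Nat.card G : ℂ) * (ln e : ℂ) := by
    have hE1 : El 2 (1 : G) := ⟨0, one_pow _⟩
    rw [T2.H67.fibre hN1 hN2 T 1 hE1, lrk 2 M hM G e he, T2.H67.fs_filter, mul_inv_cancel_left₀ hG0]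
    have h3 : Finset.univ.filter (fun s : G => s ∈ Cu (1 : G) ∧ Reg 2 s) =
        Finset.univ.filter (fun s : G => Reg 2 s) := by
      apply Finset.filter_congr
      intro s _
      constructor
      · exact fun h => h.2
      · intro h
        refine ⟨?_, h⟩
        rw [Subgroup.mem_centralizer_singleton_iff, mul_one, one_mul]
    rw [h3]
    refine Finset.sum_congr rfl fun s hs => ?_
    rw [Finset.mem_filter] at hs
    rw [hT, hfm, one_mul, hN.reg s hs.2]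
  have hmain : (Nat.card G : ℝ) * (ln e : ℝ) ≤
      (Nat.card G : ℝ) * ({χ | χ ∈ IrrE M e ∧ ∀ g, χ (g ^ N) = χ g}.ncard : ℝ) := by
    have h3 : ((Nat.card G : ℂ) * ({χ | χ ∈ IrrE M e ∧ ∀ g, χ (g ^ N) = χ g}.ncard : ℂ)).re =
        (Nat.card G : ℝ) * ({χ | χ ∈ IrrE M e ∧ ∀ g, χ (g ^ N) = χ g}.ncard : ℝ) := by
      norm_cast
    have h4 : ((Nat.card G : ℂ) * (ln e : ℂ)).re = (Nat.card G : ℝ) * (ln e : ℝ) := by
      norm_cast
    rw [← h3, hA, hfib, Complex.re_sum, ← h4, ← h1]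
    exact Finset.single_le_sum (f := fun y : G =>
      (∑ g ∈ Finset.univ.filter (fun g : G => (g ^ N₀)⁻¹ * g = y), T g).re)
      (fun y _ => hy0 y) (Finset.mem_univ 1)
  have h5 := le_of_mul_le_mul_left hmain hG1
  exact_mod_cast h5

/-- FX3 -/
theorem fx3 (fxy : T2.FxyStmt) (lrk : T3.LrkStmt) : Fx3Stmt :=
  fx3_core (K9.H25.ada K9.H20.adp) (K9.H82W.wbo (K9.H82.trb K9.H53.tra)) KF.H25.idm K9.H27.prt
    fxy lrk

end Pool.Agent.PP.TW.H77
end
end -- Pool.Agent.Helper77_ATW.FX3
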