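import Pool.Agent.Helper12_AWB.B181

/-!
# Merged copies (generated) of the modules

* `Pool.Agent.Helper24_AT8.RGA`
* `Pool.Agent.Helper24_AT8.RGB`
* `Pool.Agent.Helper77_AT8.LT8`
* `Pool.Agent.Helper15_AT12.CPY`
* `Pool.Agent.Helper3_AT12.CCY`
* `Pool.Agent.Helper86_AT12.LBC`
* `Pool.Agent.Helper64_AT12.CST`
-/

set_option autoImplicit false

section -- Pool.Agent.Helper24_AT8.RGA

/-!
# Squad AT8, row RGA

An abelian group of automorphisms of order prime to `ℓ` has a regular vector on `V/V ^ ℓ`.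
-/

set_option autoImplicit false

namespace Pool.Agent.PP.T8

namespace H24

/-- the elements of `E` which fix `y` modulo the `n`-th powers -/
def sub {V : Type} [CommGroup V] (n : ℕ) (E : Subgroup (MulAut V)) (y : V) :
    Subgroup (MulAut V) where
  carrier := {s | s ∈ E ∧ ∃ v, s y = y * v ^ n}
  one_mem' := ⟨E.one_mem, 1, by simp⟩
  mul_mem' := by
    rintro s t ⟨hs, v, hv⟩ ⟨ht, w, hw⟩
    refine ⟨E.mul_mem hs ht, v * s w, ?_⟩
    rw [MulAut.mul_apply, hw, map_mul, hv, map_pow, mul_pow, mul_assoc]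
  inv_mem' := by
    rintro s ⟨hs, v, hv⟩
    refine ⟨E.inv_mem hs, (s⁻¹ v)⁻¹, ?_⟩
    have h : s⁻¹ (s y) = s⁻¹ (y * v ^ n) := by rw [hv]
    rw [MulAut.inv_apply_self, map_mul, map_pow] at h
    rw [inv_pow]
    exact eq_mul_inv_of_mul_eq h.symm

theorem sub_le {V : Type} [CommGroup V] (n : ℕ) (E : Subgroup (MulAut V)) (y : V) :
    sub n E y ≤ E := fun _ h => h.1

theorem mem_sub {V : Type} [CommGroup V] {n : ℕ} {E : Subgroup (MulAut V)} {y : V}
    {s : MulAut V} : s ∈ sub n E y ↔ s ∈ E ∧ ∃ v, s y = y * v ^ n := Iff.rfl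

theorem exists_order {V : Type} [CommGroup V] [Finite V] : ∃ y : V, orderOf y = Monoid.exponent V :=
  Monoid.exists_orderOf_eq_exponent Monoid.ExponentExists.of_finite

theorem pow_exp {V : Type} [CommGroup V] {m : ℕ} (h : Monoid.exponent V = m) (v : V) :
    v ^ m = 1 := by
  rw [← h]; exact Monoid.pow_exponent_eq_one v

/-- the step of the induction -/
theorem step (hC : CprStmt) (ℓ : ℕ) [hp : Fact ℓ.Prime] (V : Type) [CommGroup V] [Finite V] (b : ℕ)
    (hexp : Monoid.exponent V = ℓ ^ (b + 1)) (E : Subgroup (MulAut V)) (hE : ¬ ℓ ∣ Nat.card E)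
    (hcomm : ∀ s ∈ E, ∀ t ∈ E, s * t = t * s) (y : V) (hy : orderOf y = ℓ ^ (b + 1))
    (hS : sub ℓ E y ≠ ⊥) :
    ∃ y' : V, orderOf y' = ℓ ^ (b + 1) ∧
      Nat.card (sub ℓ E y') < Nat.card (sub ℓ E y) := by
  have hSE : ¬ ℓ ∣ Nat.card (sub ℓ E y) := fun h =>
    hE (h.trans (Subgroup.card_dvd_of_le (sub_le ℓ E y)))
  obtain ⟨⟨π, hπ1, hπ2, hπ3, hπ4⟩, hlast⟩ := hC ℓ V (b + 1) hexp (sub ℓ E y) hSE
  have hg : ∀ g ∈ E, ∀ v, g (π v) = π (g v) := by
    intro g hg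
    refine hπ3 g fun s hs => ?_
    rw [hcomm g hg s hs.1, mul_inv_cancel_right]
    exact hs
  obtain ⟨w₀, hw₀⟩ := hπ4 ℓ y fun s hs => hs.2
  have hy1 : (π y) ^ ℓ ^ b = y ^ ℓ ^ b := by
    rw [hw₀, mul_pow, ← pow_mul, ← pow_succ', pow_exp hexp, mul_one]
  have hyne : (π y) ^ ℓ ^ b ≠ 1 := by
    rw [hy1]
    intro h
    have h1 := orderOf_dvd_of_pow_eq_one h
    rw [hy, Nat.pow_dvd_pow_iff_le_right hp.out.one_lt] at h1
    omega
  have hex : ∃ s ∈ sub ℓ E y, ∃ v : V, ∀ w, s v ≠ v * w ^ ℓ := by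
    by_contra hcon
    push Not at hcon
    exact hS (hlast hcon)
  obtain ⟨s, hs, v, hv⟩ := hex
  have hππ : ∀ u, π (π u) = π u := fun u => hπ2 (π u) fun s hs => (hπ1 u s hs).1
  have hwne : ∀ x : V, v * (π v)⁻¹ ≠ x ^ ℓ := by
    intro x hx
    have h1 : v = π v * x ^ ℓ := by rw [← hx, mul_comm v, mul_inv_cancel_left]
    apply hv (x⁻¹ * s x)
    have h2 : s v = π v * (s x) ^ ℓ := by
      conv_lhs => rw [h1]
      rw [map_mul, (hπ1 v s hs).1, map_pow]
    rw [h2, mul_pow, ← mul_assoc]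
    congr 1
    conv_rhs => rw [h1]
    rw [inv_pow, mul_inv_cancel_right]
  have hπw : π (v * (π v)⁻¹) = 1 := by
    rw [map_mul, map_inv, hππ, mul_inv_cancel]
  generalize v * (π v)⁻¹ = w at hwne hπw
  refine ⟨π y * w, ?_, ?_⟩
  · apply orderOf_eq_prime_pow
    · intro h
      have h1 := congrArg π h
      rw [map_one, map_pow, map_mul, hππ, hπw, mul_one] at h1
      exact hyne h1
    · exact pow_exp hexp _
  · have hle : sub ℓ E (π y * w) ≤ sub ℓ E y := by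
      rintro g ⟨hgE, x, hx⟩
      refine ⟨hgE, w₀ * π x * (g w₀)⁻¹, ?_⟩
      have h1 : g (π y) = π y * (π x) ^ ℓ := by
        have h2 := congrArg π hx
        rw [← hg g hgE] at h2
        simp only [map_mul π, hππ, hπw, mul_one, map_pow π] at h2
        exact h2
      have h3 : y = π y * (w₀⁻¹) ^ ℓ := by rw [hw₀, inv_pow, mul_inv_cancel_right]
      have h4 : g y = π y * (π x) ^ ℓ * ((g w₀)⁻¹) ^ ℓ := by
        conv_lhs => rw [h3]
        rw [map_mul, h1, map_pow, map_inv]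
      rw [h4, hw₀, mul_pow, mul_pow]
      simp only [mul_assoc]
    by_contra hcon
    have heq := Subgroup.eq_of_le_of_card_ge hle (not_lt.1 hcon)
    obtain ⟨u, hu⟩ := hπ4 ℓ w fun g hg' => by
      have hg2 : g ∈ sub ℓ E (π y * w) := by rw [heq]; exact hg'
      obtain ⟨_, x, hx⟩ := hg2
      refine ⟨x, ?_⟩
      rw [map_mul, (hπ1 y g hg').1, mul_assoc] at hx
      exact mul_left_cancel hx
    rw [hπw] at hu
    apply hwne u⁻¹
    rw [inv_pow]
    exact eq_inv_of_mul_eq_one_left hu.symm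

theorem rga (hC : CprStmt) : RgaStmt := by
  intro ℓ hp V _ _ a ha hexp E hE hcomm
  obtain ⟨b, rfl⟩ : ∃ b, a = b + 1 := ⟨a - 1, by omega⟩
  have key : ∀ n : ℕ, ∀ y : V, orderOf y = ℓ ^ (b + 1) → Nat.card (sub ℓ E y) = n →
      ∃ y : V, orderOf y = ℓ ^ (b + 1) ∧ ∀ s ∈ E, ∀ v : V, s y = y * v ^ ℓ → s = 1 := by
    intro n
    induction n using Nat.strong_induction_on with
    | _ n ih =>
      intro y hy hn
      by_cases hS : sub ℓ E y = ⊥
      · refine ⟨y, hy, fun s hs v hv => ?_⟩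
        have : s ∈ sub ℓ E y := ⟨hs, v, hv⟩
        rw [hS] at this
        exact Subgroup.mem_bot.1 this
      · obtain ⟨y', hy', hlt⟩ := step hC ℓ V b hexp E hE hcomm y hy hS
        exact ih _ (hn ▸ hlt) y' hy' rfl
  obtain ⟨y, hy⟩ := exists_order (V := V)
  exact key _ y (hy.trans hexp) rfl

end H24

end Pool.Agent.PP.T8
end -- Pool.Agent.Helper24_AT8.RGA

section -- Pool.Agent.Helper24_AT8.RGB

/-!
# Squad AT8, row RGB

Two generators: regular vectors modulo `V ^ (ℓ ^ 2)`.  If the complement is killed by `ℓ`, the group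
`E` is abelian and row RGA applies.
-/

set_option autoImplicit false

namespace Pool.Agent.PP.T8

namespace H24

theorem r1 {V : Type} [CommGroup V] (A B X Y : V) : (A * B)⁻¹ * ((A * X) * (B * Y)) = X * Y := by
  rw [mul_mul_mul_comm, inv_mul_cancel_left]

theorem r2 {V : Type} [CommGroup V] (K A B : V) (n : ℕ) :
    K * B ^ n = K * A ^ n * (A⁻¹ * B) ^ n := by
  rw [mul_pow A⁻¹, inv_pow, mul_assoc, mul_inv_cancel_left]

/-- counting: two independent elements generate modulo the powers -/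
theorem gen2 {V : Type} [CommGroup V] [Finite V] (ℓ : ℕ) [hp : Fact ℓ.Prime]
    (hxy : ∃ x y : V, (⊤ : Subgroup V) = Subgroup.closure {x, y}) (u k : V)
    (h : ∀ (i j : ℤ) (v : V), u ^ i * k ^ j = v ^ ℓ → (ℓ : ℤ) ∣ i ∧ (ℓ : ℤ) ∣ j) (v : V) :
    ∃ (i j : ℤ) (w : V), v = u ^ i * k ^ j * w ^ ℓ := by
  obtain ⟨x, y, hxy⟩ := hxy
  have hpos : 0 < ℓ := hp.out.pos
  have : NeZero ℓ := ⟨hpos.ne'⟩
  let Φ : Subgroup V := (powMonoidHom ℓ : V →* V).range
  have hΦ : ∀ z : V, z ∈ Φ ↔ ∃ w, z = w ^ ℓ := by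
    intro z
    constructor
    · rintro ⟨w, rfl⟩; exact ⟨w, rfl⟩
    · rintro ⟨w, rfl⟩; exact ⟨w, rfl⟩
  let g : Fin ℓ × Fin ℓ → V ⧸ Φ := fun t => QuotientGroup.mk (x ^ (t.1 : ℕ) * y ^ (t.2 : ℕ))
  let f : Fin ℓ × Fin ℓ → V ⧸ Φ := fun t => QuotientGroup.mk (u ^ (t.1 : ℕ) * k ^ (t.2 : ℕ))
  have hmod : ∀ m : ℤ, ∃ (n : Fin ℓ) (d : ℤ), m = (n : ℕ) + ℓ * d := by
    intro m
    have h0 : (0 : ℤ) ≤ m % ℓ := Int.emod_nonneg _ (by exact_mod_cast hpos.ne')
    have h1 : m % ℓ < ℓ := Int.emod_lt_of_pos _ (by exact_mod_cast hpos)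
    refine ⟨⟨(m % ℓ).toNat, by omega⟩, m / ℓ, ?_⟩
    show m = ((m % ℓ).toNat : ℤ) + ℓ * (m / ℓ)
    rw [Int.toNat_of_nonneg h0]
    exact (Int.emod_add_mul_ediv m ℓ).symm
  have hg : Function.Surjective g := by
    intro t
    obtain ⟨z, rfl⟩ := QuotientGroup.mk_surjective t
    have hz : z ∈ Subgroup.closure {x, y} := by rw [← hxy]; trivial
    obtain ⟨m, n, hmn⟩ := Subgroup.mem_closure_pair.1 hz
    obtain ⟨m', d, hm⟩ := hmod m
    obtain ⟨n', d', hn⟩ := hmod n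
    refine ⟨(m', n'), ?_⟩
    show (QuotientGroup.mk (x ^ (m' : ℕ) * y ^ (n' : ℕ)) : V ⧸ Φ) = QuotientGroup.mk z
    rw [QuotientGroup.eq, hΦ]
    refine ⟨x ^ d * y ^ d', ?_⟩
    rw [← hmn, hm, hn, mul_pow, ← zpow_natCast (x ^ d), ← zpow_natCast (y ^ d'), ← zpow_mul,
      ← zpow_mul, zpow_add, zpow_add, zpow_natCast, zpow_natCast, mul_comm d, mul_comm d', r1]
  have hf : Function.Injective f := by
    rintro ⟨i, j⟩ ⟨i', j'⟩ hij
    have h1 : (QuotientGroup.mk (u ^ (i : ℕ) * k ^ (j : ℕ)) : V ⧸ Φ) =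
      QuotientGroup.mk (u ^ (i' : ℕ) * k ^ (j' : ℕ)) := hij
    rw [QuotientGroup.eq, hΦ] at h1
    obtain ⟨w, hw⟩ := h1
    have h2 : u ^ (((i' : ℕ) : ℤ) - (i : ℕ)) * k ^ (((j' : ℕ) : ℤ) - (j : ℕ)) = w ^ ℓ := by
      rw [← hw, zpow_sub, zpow_sub, zpow_natCast, zpow_natCast, zpow_natCast, zpow_natCast, mul_inv]
      simp only [mul_comm, mul_left_comm, mul_assoc]
    obtain ⟨⟨d, hd⟩, ⟨d', hd'⟩⟩ := h _ _ _ h2
    have hi := i.2
    have hi' := i'.2
    have hj := j.2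
    have hj' := j'.2
    have e1 : d = 0 := by
      by_contra hne
      rcases lt_or_gt_of_ne hne with h0 | h0 <;> nlinarith
    have e2 : d' = 0 := by
      by_contra hne
      rcases lt_or_gt_of_ne hne with h0 | h0 <;> nlinarith
    subst e1; subst e2
    simp only [mul_zero] at hd hd'
    have a1 : (i : ℕ) = i' := by omega
    have a2 : (j : ℕ) = j' := by omega
    rw [Fin.ext a1, Fin.ext a2]
  have hcard : Nat.card (V ⧸ Φ) ≤ Nat.card (Fin ℓ × Fin ℓ) := Nat.card_le_card_of_surjective g hg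
  have hbij : Function.Bijective f := hf.bijective_of_nat_card_le hcard
  obtain ⟨⟨i, j⟩, hij⟩ := hbij.2 (QuotientGroup.mk v)
  have h3 : (QuotientGroup.mk (u ^ (i : ℕ) * k ^ (j : ℕ)) : V ⧸ Φ) = QuotientGroup.mk v := hij
  rw [QuotientGroup.eq, hΦ] at h3
  obtain ⟨w, hw⟩ := h3
  refine ⟨(i : ℕ), (j : ℕ), w, ?_⟩
  rw [zpow_natCast, zpow_natCast, ← hw, mul_inv_cancel_left]

/-- two independent elements generate -/
theorem gen3 {V : Type} [CommGroup V] [Finite V] (ℓ a : ℕ) [hp : Fact ℓ.Prime]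
    (hexp : Monoid.exponent V = ℓ ^ a)
    (hxy : ∃ x y : V, (⊤ : Subgroup V) = Subgroup.closure {x, y}) (u k : V)
    (h : ∀ (i j : ℤ) (v : V), u ^ i * k ^ j = v ^ ℓ → (ℓ : ℤ) ∣ i ∧ (ℓ : ℤ) ∣ j) (v : V) :
    ∃ (i j : ℤ), v = u ^ i * k ^ j := by
  have key : ∀ n : ℕ, ∀ v : V, ∃ (i j : ℤ) (w : V), v = u ^ i * k ^ j * w ^ ℓ ^ n := by
    intro n
    induction n with
    | zero => intro v; exact ⟨0, 0, v, by simp⟩
    | succ n ih =>
      intro v
      obtain ⟨i, j, w, hw⟩ := ih v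
      obtain ⟨i', j', w', hw'⟩ := gen2 ℓ hxy u k h w
      refine ⟨i + i' * (ℓ ^ n : ℕ), j + j' * (ℓ ^ n : ℕ), w', ?_⟩
      conv_lhs => rw [hw, hw']
      rw [mul_pow, mul_pow, ← pow_mul, ← pow_succ', zpow_add, zpow_add, zpow_mul, zpow_mul,
        zpow_natCast, zpow_natCast]
      simp only [mul_comm, mul_left_comm, mul_assoc]
  obtain ⟨i, j, w, hw⟩ := key a v
  exact ⟨i, j, by rw [hw, pow_exp hexp, mul_one]⟩

/-- an element of `E` which is trivial modulo the powers is trivial -/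
theorem triv (hC : CprStmt) (ℓ : ℕ) [Fact ℓ.Prime] (V : Type) [CommGroup V] [Finite V] (a : ℕ)
    (hexp : Monoid.exponent V = ℓ ^ a) (E : Subgroup (MulAut V)) (hE : ¬ ℓ ∣ Nat.card E)
    (s : MulAut V) (hs : s ∈ E) (h : ∀ v : V, ∃ w, s v = v * w ^ ℓ) : s = 1 := by
  let T : Subgroup (MulAut V) :=
    { carrier := {s | s ∈ E ∧ ∀ v : V, ∃ w, s v = v * w ^ ℓ}
      one_mem' := ⟨E.one_mem, fun v => ⟨1, by simp⟩⟩
      mul_mem' := by
        rintro s t ⟨hs, h1⟩ ⟨ht, h2⟩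
        refine ⟨E.mul_mem hs ht, fun v => ?_⟩
        obtain ⟨w, hw⟩ := h2 v
        obtain ⟨z, hz⟩ := h1 v
        exact ⟨z * s w, by rw [MulAut.mul_apply, hw, map_mul, hz, map_pow, mul_pow, mul_assoc]⟩
      inv_mem' := by
        rintro s ⟨hs, h1⟩
        refine ⟨E.inv_mem hs, fun v => ?_⟩
        obtain ⟨w, hw⟩ := h1 v
        refine ⟨(s⁻¹ w)⁻¹, ?_⟩
        have h : s⁻¹ (s v) = s⁻¹ (v * w ^ ℓ) := by rw [hw]
        rw [MulAut.inv_apply_self, map_mul, map_pow] at h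
        rw [inv_pow]
        exact eq_mul_inv_of_mul_eq h.symm }
  have hTE : T ≤ E := fun _ h => h.1
  have hT : T = ⊥ := (hC ℓ V a hexp T fun h' =>
    hE (h'.trans (Subgroup.card_dvd_of_le hTE))).2 fun s hs => hs.2
  have : s ∈ T := ⟨hs, h⟩
  rw [hT] at this
  exact Subgroup.mem_bot.1 this

/-- trivial on two generators modulo the powers -/
theorem triv2 (hC : CprStmt) (ℓ : ℕ) [Fact ℓ.Prime] (V : Type) [CommGroup V] [Finite V] (a : ℕ)
    (hexp : Monoid.exponent V = ℓ ^ a) (E : Subgroup (MulAut V)) (hE : ¬ ℓ ∣ Nat.card E)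
    (u k : V) (hgen : ∀ v : V, ∃ i j : ℤ, v = u ^ i * k ^ j)
    (s : MulAut V) (hs : s ∈ E) (h1 : ∃ w, s u = u * w ^ ℓ) (h2 : ∃ w, s k = k * w ^ ℓ) :
    s = 1 := by
  refine triv hC ℓ V a hexp E hE s hs fun v => ?_
  obtain ⟨i, j, rfl⟩ := hgen v
  obtain ⟨w, hw⟩ := h1
  obtain ⟨w', hw'⟩ := h2
  refine ⟨w ^ i * w' ^ j, ?_⟩
  rw [map_mul, map_zpow, map_zpow, hw, hw', mul_zpow, mul_zpow, mul_pow, ← zpow_natCast w,
    ← zpow_natCast w', ← zpow_natCast (w ^ i), ← zpow_natCast (w' ^ j), ← zpow_mul, ← zpow_mul,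
    ← zpow_mul, ← zpow_mul, mul_comm (ℓ : ℤ), mul_comm (ℓ : ℤ)]
  simp only [mul_comm, mul_left_comm, mul_assoc]

/-- the unipotent part is trivial -/
theorem unip (hC : CprStmt) (ℓ : ℕ) [hp : Fact ℓ.Prime] (V : Type) [CommGroup V] [Finite V] (b : ℕ)
    (hexp : Monoid.exponent V = ℓ ^ (b + 1)) (E : Subgroup (MulAut V)) (hE : ¬ ℓ ∣ Nat.card E)
    (u k : V) (hu : orderOf u = ℓ ^ (b + 1)) (hkb : k ^ ℓ ^ b = 1)
    (hgen : ∀ v : V, ∃ i j : ℤ, v = u ^ i * k ^ j)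
    (c : MulAut V) (hc : c ∈ E) (h1 : c (u ^ ℓ ^ b) = u ^ ℓ ^ b) (h2 : ∃ w, c k = k * w ^ ℓ) :
    c = 1 := by
  obtain ⟨α, β, hαβ⟩ := hgen (c u)
  obtain ⟨z, hz⟩ := h2
  have hα : (ℓ : ℤ) ∣ α - 1 := by
    rw [map_pow, hαβ, mul_pow, ← zpow_natCast (k ^ β), ← zpow_mul, mul_comm β, zpow_mul,
      zpow_natCast, hkb, one_zpow, mul_one, ← zpow_natCast (u ^ α), ← zpow_mul,
      ← zpow_natCast u (ℓ ^ b)] at h1
    have h3 : u ^ ((α - 1) * ((ℓ ^ b : ℕ) : ℤ)) = 1 := by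
      rw [sub_mul, one_mul, zpow_sub, h1, mul_inv_cancel]
    have h4 := orderOf_dvd_iff_zpow_eq_one.2 h3
    rw [hu, pow_succ'] at h4
    push_cast at h4
    exact Int.dvd_of_mul_dvd_mul_right (by have := hp.out.pos; positivity) h4
  obtain ⟨d, hd⟩ := hα
  have hα' : α = 1 + ℓ * d := by linarith
  have hcu : c u = u * k ^ β * (u ^ d) ^ ℓ := by
    rw [hαβ, hα', zpow_add, zpow_one, ← zpow_natCast (u ^ d), ← zpow_mul, mul_comm d]
    simp only [mul_comm, mul_left_comm, mul_assoc]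
  have key : ∀ n : ℕ, (∃ x : V, (c ^ n) u = u * (k ^ β) ^ n * x ^ ℓ) ∧
      (∃ y : V, (c ^ n) k = k * y ^ ℓ) := by
    intro n
    induction n with
    | zero => exact ⟨⟨1, by simp⟩, ⟨1, by simp⟩⟩
    | succ n ih =>
      obtain ⟨⟨x, hx⟩, ⟨y, hy⟩⟩ := ih
      constructor
      · refine ⟨x * y ^ β * (c ^ n) (u ^ d), ?_⟩
        rw [pow_succ, MulAut.mul_apply, hcu, map_mul, map_mul, hx, map_zpow, hy, map_pow,
          mul_zpow, mul_pow, mul_pow, pow_succ, ← zpow_natCast y ℓ, ← zpow_mul,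
          ← zpow_natCast (y ^ β) ℓ, ← zpow_mul, mul_comm β]
        simp only [mul_comm, mul_left_comm, mul_assoc]
      · refine ⟨y * (c ^ n) z, ?_⟩
        rw [pow_succ, MulAut.mul_apply, hz, map_mul, hy, map_pow, mul_pow, mul_assoc]
  have hcl : c ^ ℓ = 1 := by
    obtain ⟨⟨x, hx⟩, h4⟩ := key ℓ
    refine triv2 hC ℓ V _ hexp E hE u k hgen (c ^ ℓ) (E.pow_mem hc ℓ) ⟨k ^ β * x, ?_⟩ h4
    rw [hx, mul_pow, mul_assoc]
  have ho : orderOf c ∣ ℓ := orderOf_dvd_of_pow_eq_one hcl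
  rcases (Nat.dvd_prime hp.out).1 ho with h5 | h5
  · exact orderOf_eq_one_iff.1 h5
  · exfalso
    apply hE
    have h6 : orderOf (⟨c, hc⟩ : E) = ℓ := by rw [← h5]; exact Subgroup.orderOf_mk c hc
    rw [← h6]
    exact orderOf_dvd_natCard _

theorem rgb (hC : CprStmt) : RgbStmt := by
  intro ℓ hp V _ _ a ha hexp hxy E hE
  obtain ⟨b, rfl⟩ : ∃ b, a = b + 1 := ⟨a - 1, by omega⟩
  obtain ⟨u, hu⟩ := exists_order (V := V)
  rw [hexp] at hu
  by_cases hS : sub ℓ E u = ⊥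
  · refine ⟨u, hu, fun s hs v hv => ?_⟩
    have : s ∈ sub ℓ E u := ⟨hs, v ^ ℓ, by rw [hv, ← pow_mul, sq]⟩
    rw [hS] at this
    exact Subgroup.mem_bot.1 this
  have hSE : ¬ ℓ ∣ Nat.card (sub ℓ E u) := fun h =>
    hE (h.trans (Subgroup.card_dvd_of_le (sub_le ℓ E u)))
  obtain ⟨⟨π, hπ1, hπ2, hπ3, hπ4⟩, hlast⟩ := hC ℓ V (b + 1) hexp (sub ℓ E u) hSE
  obtain ⟨w₀, hw₀⟩ := hπ4 ℓ u fun s hs => hs.2
  have hππ : ∀ u, π (π u) = π u := fun u => hπ2 (π u) fun s hs => (hπ1 u s hs).1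
  have hyne : (π u) ^ ℓ ^ b ≠ 1 := by
    have hy1 : (π u) ^ ℓ ^ b = u ^ ℓ ^ b := by
      rw [hw₀, mul_pow, ← pow_mul, ← pow_succ', pow_exp hexp, mul_one]
    rw [hy1]
    intro h
    have h1 := orderOf_dvd_of_pow_eq_one h
    rw [hu, Nat.pow_dvd_pow_iff_le_right hp.out.one_lt] at h1
    omega
  have hu' : orderOf (π u) = ℓ ^ (b + 1) := orderOf_eq_prime_pow hyne (pow_exp hexp _)
  have hex : ∃ s ∈ sub ℓ E u, ∃ v : V, ∀ w, s v ≠ v * w ^ ℓ := by
    by_contra hcon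
    push Not at hcon
    exact hS (hlast hcon)
  obtain ⟨s₁, hs₁, v, hv⟩ := hex
  have hwne : ∀ x : V, v * (π v)⁻¹ ≠ x ^ ℓ := by
    intro x hx
    have h1 : v = π v * x ^ ℓ := by rw [← hx, mul_comm v, mul_inv_cancel_left]
    apply hv (x⁻¹ * s₁ x)
    have h2 : s₁ v = π v * (s₁ x) ^ ℓ := by
      conv_lhs => rw [h1]
      rw [map_mul, (hπ1 v s₁ hs₁).1, map_pow]
    rw [h2, mul_pow, ← mul_assoc]
    congr 1
    conv_rhs => rw [h1]
    rw [inv_pow, mul_inv_cancel_right]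
  have hπk : π (v * (π v)⁻¹) = 1 := by
    rw [map_mul, map_inv, hππ, mul_inv_cancel]
  generalize v * (π v)⁻¹ = k at hwne hπk
  -- independence
  have hind : ∀ (i j : ℤ) (v : V), (π u) ^ i * k ^ j = v ^ ℓ → (ℓ : ℤ) ∣ i ∧ (ℓ : ℤ) ∣ j := by
    intro i j v hij
    have h1 : (π u) ^ i = (π v) ^ ℓ := by
      have h2 := congrArg π hij
      rw [map_mul, map_zpow, map_zpow, hππ, hπk, one_zpow, mul_one, map_pow] at h2
      exact h2
    have h3 : (ℓ : ℤ) ∣ i := by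
      have h4 : (π u) ^ (i * ((ℓ ^ b : ℕ) : ℤ)) = 1 := by
        rw [zpow_mul, h1, zpow_natCast, ← pow_mul, ← pow_succ', pow_exp hexp]
      have h5 := orderOf_dvd_iff_zpow_eq_one.2 h4
      rw [hu', pow_succ'] at h5
      push_cast at h5
      exact Int.dvd_of_mul_dvd_mul_right (by have := hp.out.pos; positivity) h5
    refine ⟨h3, ?_⟩
    obtain ⟨d, rfl⟩ := h3
    by_contra hj
    have hcop : IsCoprime (ℓ : ℤ) j :=
      (Int.prime_iff_natAbs_prime.2 (by simpa using hp.out)).coprime_iff_not_dvd.2 hj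
    obtain ⟨r, t, hrt⟩ := hcop
    apply hwne (k ^ r * (v * (π u) ^ (-d)) ^ t)
    have h6 : k ^ j = (v * (π u) ^ (-d)) ^ ℓ := by
      rw [mul_pow, ← hij, ← zpow_natCast ((π u) ^ (-d)), ← zpow_mul, mul_comm (ℓ : ℤ) d,
        neg_mul, zpow_neg]
      rw [mul_comm _ (k ^ j), mul_inv_cancel_right]
    generalize v * (π u) ^ (-d) = w at h6 ⊢
    calc k = k ^ (r * ℓ + t * j) := by rw [hrt, zpow_one]
      _ = (k ^ r) ^ ℓ * (k ^ j) ^ t := by
          rw [zpow_add, zpow_mul, zpow_natCast, mul_comm t j, zpow_mul]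
      _ = (k ^ r * w ^ t) ^ ℓ := by
          rw [h6, mul_pow, ← zpow_natCast (w ^ t), ← zpow_natCast w, ← zpow_mul, ← zpow_mul,
            mul_comm t]
  have hgen := gen3 ℓ (b + 1) hexp hxy (π u) k hind
  by_cases hkl : k ^ ℓ = 1
  · -- Case B: `E` is abelian
    have hkb : k ^ ℓ ^ b = 1 := by
      obtain ⟨b', rfl⟩ : ∃ b', b = b' + 1 := ⟨b - 1, by omega⟩
      rw [pow_succ', pow_mul, hkl, one_pow]
    have hA : ∀ g ∈ E, ∃ α : ℤ, g ((π u) ^ ℓ ^ b) = ((π u) ^ ℓ ^ b) ^ α := by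
      intro g _
      obtain ⟨α, β, hαβ⟩ := hgen (g (π u))
      refine ⟨α, ?_⟩
      rw [map_pow, hαβ, mul_pow, ← zpow_natCast (k ^ β), ← zpow_mul, mul_comm β, zpow_mul,
        zpow_natCast, hkb, one_zpow, mul_one, ← zpow_natCast ((π u) ^ α), ← zpow_mul,
        mul_comm α, zpow_mul, zpow_natCast]
    have hB : ∀ g ∈ E, ∃ (μ : ℤ) (z : V), g k = k ^ μ * z ^ ℓ := by
      intro g _
      obtain ⟨α, β, hαβ⟩ := hgen (g k)
      have h1 : (g k) ^ ℓ ^ b = 1 := by rw [← map_pow, hkb, map_one]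
      have h2 : (ℓ : ℤ) ∣ α := by
        have h4 : (π u) ^ (α * ((ℓ ^ b : ℕ) : ℤ)) = 1 := by
          rw [hαβ, mul_pow, ← zpow_natCast (k ^ β), ← zpow_mul, mul_comm β, zpow_mul,
            zpow_natCast, hkb, one_zpow, mul_one, ← zpow_natCast ((π u) ^ α), ← zpow_mul] at h1
          exact h1
        have h5 := orderOf_dvd_iff_zpow_eq_one.2 h4
        rw [hu', pow_succ'] at h5
        push_cast at h5
        exact Int.dvd_of_mul_dvd_mul_right (by have := hp.out.pos; positivity) h5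
      obtain ⟨d, rfl⟩ := h2
      refine ⟨β, (π u) ^ d, ?_⟩
      rw [hαβ, ← zpow_natCast ((π u) ^ d), ← zpow_mul, mul_comm d, mul_comm]
    have hab : ∀ s ∈ E, ∀ t ∈ E, s * t = t * s := by
      intro s hs t ht
      have h1 : (t * s)⁻¹ * (s * t) = 1 := by
        refine unip hC ℓ V b hexp E hE (π u) k hu' hkb hgen _
          (E.mul_mem (E.inv_mem (E.mul_mem ht hs)) (E.mul_mem hs ht)) ?_ ?_
        · obtain ⟨α, hα⟩ := hA s hs
          obtain ⟨α', hα'⟩ := hA t ht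
          rw [MulAut.mul_apply, MulAut.mul_apply, hα', map_zpow, hα]
          have h2 : (t * s) ((π u) ^ ℓ ^ b) = (((π u) ^ ℓ ^ b) ^ α) ^ α' := by
            rw [MulAut.mul_apply, hα, map_zpow, hα', ← zpow_mul, ← zpow_mul, mul_comm]
          rw [← h2, MulAut.inv_apply_self]
        · obtain ⟨μ, z, hz⟩ := hB s hs
          obtain ⟨μ', z', hz'⟩ := hB t ht
          have h2 : (s * t) k = k ^ (μ * μ') * (z ^ μ' * s z') ^ ℓ := by
            rw [MulAut.mul_apply, hz', map_mul, map_zpow, hz, map_pow, mul_zpow, mul_pow,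
              ← zpow_mul, ← zpow_natCast z ℓ, ← zpow_mul, ← zpow_natCast (z ^ μ') ℓ, ← zpow_mul,
              mul_comm (ℓ : ℤ), mul_assoc]
          have h3 : (t * s) k = k ^ (μ * μ') * (z' ^ μ * t z) ^ ℓ := by
            rw [MulAut.mul_apply, hz, map_mul, map_zpow, hz', map_pow, mul_zpow, mul_pow,
              ← zpow_mul, ← zpow_natCast z' ℓ, ← zpow_mul, ← zpow_natCast (z' ^ μ) ℓ, ← zpow_mul,
              mul_comm (ℓ : ℤ), mul_assoc, mul_comm μ' μ]
          have h4 : (s * t) k = (t * s) k * ((z' ^ μ * t z)⁻¹ * (z ^ μ' * s z')) ^ ℓ := by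
            rw [h2, h3]
            exact r2 _ _ _ _
          refine ⟨(t * s)⁻¹ ((z' ^ μ * t z)⁻¹ * (z ^ μ' * s z')), ?_⟩
          rw [MulAut.mul_apply, h4, map_mul, MulAut.inv_apply_self, map_pow]
      exact (inv_mul_eq_one.1 h1).symm
    obtain ⟨y, hy, hreg⟩ := rga hC ℓ V (b + 1) (by omega) hexp E hE hab
    refine ⟨y, hy, fun s hs v hv => hreg s hs (v ^ ℓ) ?_⟩
    rw [hv, ← pow_mul, sq]
  · -- Case A
    have hK : ∀ v : V, π v = 1 → ∃ j : ℤ, v = k ^ j := by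
      intro v hv
      obtain ⟨i, j, hij⟩ := hgen v
      refine ⟨j, ?_⟩
      have h1 := congrArg π hij
      rw [hv, map_mul, map_zpow, map_zpow, hππ, hπk, one_zpow, mul_one] at h1
      rw [hij, ← h1, one_mul]
    refine ⟨π u * k ^ ℓ, ?_, ?_⟩
    · apply orderOf_eq_prime_pow _ (pow_exp hexp _)
      rw [mul_pow, ← pow_mul, ← pow_succ', pow_exp hexp, mul_one]
      exact hyne
    · intro s hs v hv
      have hsS : s ∈ sub ℓ E u := by
        refine ⟨hs, w₀ * (k * v ^ ℓ * (s k)⁻¹) * (s w₀)⁻¹, ?_⟩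
        have h1 : s (π u) = π u * (k * v ^ ℓ * (s k)⁻¹) ^ ℓ := by
          have h2 : s (π u) * (s k) ^ ℓ = π u * k ^ ℓ * v ^ ℓ ^ 2 := by
            rw [← hv, map_mul, map_pow]
          rw [eq_mul_inv_of_mul_eq h2, mul_pow, mul_pow, inv_pow, ← pow_mul, sq]
          simp only [mul_assoc]
        have h3 : u = π u * (w₀⁻¹) ^ ℓ := by rw [hw₀, inv_pow, mul_inv_cancel_right]
        have h4 : s u = π u * (k * v ^ ℓ * (s k)⁻¹) ^ ℓ * ((s w₀)⁻¹) ^ ℓ := by
          conv_lhs => rw [h3]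
          rw [map_mul, h1, map_pow, map_inv]
        rw [h4, hw₀, mul_pow (w₀ * _), mul_pow w₀]
        simp only [mul_assoc]
      have hsu : s (π u) = π u := (hπ1 u s hsS).1
      have hsk : π (s k) = 1 := by rw [(hπ1 k s hsS).2, hπk]
      obtain ⟨μ, hμ⟩ := hK (s k) hsk
      obtain ⟨n, hn⟩ := hK (v * (π v)⁻¹) (by rw [map_mul, map_inv, hππ, mul_inv_cancel])
      have h1 : (s k) ^ ℓ = k ^ ℓ * v ^ ℓ ^ 2 := by
        rw [map_mul, hsu, map_pow, mul_assoc] at hv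
        exact mul_left_cancel hv
      have h2 : (π v) ^ ℓ ^ 2 = 1 := by
        have h3 := congrArg π h1
        rw [map_pow, hsk, one_pow, map_mul, map_pow, hπk, one_pow, one_mul, map_pow] at h3
        exact h3.symm
      have h4 : v ^ ℓ ^ 2 = k ^ (n * ((ℓ ^ 2 : ℕ) : ℤ)) := by
        rw [zpow_mul, ← hn, zpow_natCast, mul_pow, inv_pow, h2, inv_one, mul_one]
      have h5 : k ^ ((ℓ : ℤ) * (μ - 1 - ℓ * n)) = 1 := by
        have h6 : k ^ (μ * ℓ) = k ^ ((ℓ : ℤ) + n * ((ℓ ^ 2 : ℕ) : ℤ)) := by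
          rw [zpow_mul, ← hμ, zpow_natCast, h1, h4, zpow_add, zpow_natCast]
        have h7 : (ℓ : ℤ) * (μ - 1 - ℓ * n) = μ * ℓ - (ℓ + n * ((ℓ ^ 2 : ℕ) : ℤ)) := by
          push_cast; ring
        rw [h7, zpow_sub, h6, mul_inv_cancel]
      have h8 : (ℓ : ℤ) ∣ μ - 1 := by
        have h9 := orderOf_dvd_iff_zpow_eq_one.2 h5
        have h10 : orderOf k ∣ ℓ ^ (b + 1) := orderOf_dvd_of_pow_eq_one (pow_exp hexp _)
        obtain ⟨m, hm, hmk⟩ := (Nat.dvd_prime_pow hp.out).1 h10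
        have hm2 : 2 ≤ m := by
          by_contra hlt
          apply hkl
          have : orderOf k ∣ ℓ := by
            rw [hmk]
            calc ℓ ^ m ∣ ℓ ^ 1 := pow_dvd_pow _ (by omega)
              _ = ℓ := pow_one _
          exact orderOf_dvd_iff_pow_eq_one.1 this
        have h11 : ((ℓ * ℓ : ℕ) : ℤ) ∣ (ℓ : ℤ) * (μ - 1 - ℓ * n) := by
          refine dvd_trans ?_ h9
          rw [hmk, ← sq]
          exact_mod_cast pow_dvd_pow ℓ hm2
        push_cast at h11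
        have h12 := Int.dvd_of_mul_dvd_mul_left (by exact_mod_cast hp.out.ne_zero) h11
        have h13 : μ - 1 = (μ - 1 - ℓ * n) + ℓ * n := by ring
        rw [h13]
        exact dvd_add h12 (dvd_mul_right _ _)
      obtain ⟨d, hd⟩ := h8
      refine triv2 hC ℓ V _ hexp E hE (π u) k hgen s hs ⟨1, by rw [hsu, one_pow, mul_one]⟩
        ⟨k ^ d, ?_⟩
      rw [hμ, show μ = 1 + d * ℓ by linarith, zpow_add, zpow_one, zpow_mul, zpow_natCast]

end H24

end Pool.Agent.PP.T8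
end -- Pool.Agent.Helper24_AT8.RGB

section -- Pool.Agent.Helper77_AT8.LT8

/-!
Squad AT8, row LT8: the bound for the types of defect groups.
-/

open scoped BigOperators

set_option autoImplicit false

noncomputable section

namespace Pool.Agent.PP.T8.H77

open Pool.Agent.Helper51_AWC Pool.Agent.Helper79_WRA Pool.Agent.PP Pool.Agent.PP.KF
open Pool.Agent.PP.K9 Pool.Agent.PP.K9.H97 Pool.Agent.PP.H75 Pool.Agent.PP.T3 Pool.Agent.PP.T2

attribute [local instance] Ideal.Quotient.field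

section two

variable {G : Type} [Group G]

theorem mem_two {x y : G} (h : Commute x y) {v : G} (hv : v ∈ Subgroup.closure {x, y}) :
    ∃ m k : ℤ, v = x ^ m * y ^ k := by
  induction hv using Subgroup.closure_induction with
  | mem z hz =>
    rcases hz with rfl | hz
    · exact ⟨1, 0, by simp⟩
    · rw [Set.mem_singleton_iff] at hz
      exact ⟨0, 1, by rw [hz]; simp⟩
  | one => exact ⟨0, 0, by simp⟩
  | mul a b _ _ ha hb =>
    obtain ⟨m, k, rfl⟩ := ha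
    obtain ⟨m', k', rfl⟩ := hb
    refine ⟨m + m', k + k', ?_⟩
    have e : y ^ k * x ^ m' = x ^ m' * y ^ k := (h.symm.zpow_zpow k m').eq
    calc x ^ m * y ^ k * (x ^ m' * y ^ k') = x ^ m * (y ^ k * x ^ m') * y ^ k' := by group
      _ = x ^ m * (x ^ m' * y ^ k) * y ^ k' := by rw [e]
      _ = x ^ (m + m') * y ^ (k + k') := by rw [zpow_add, zpow_add]; group
  | inv a _ ha =>
    obtain ⟨m, k, rfl⟩ := ha
    refine ⟨-m, -k, ?_⟩
    rw [mul_inv_rev, ← zpow_neg, ← zpow_neg]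
    exact (h.symm.zpow_zpow (-k) (-m)).eq

theorem card_two [Finite G] {V : Subgroup G} (hab : ∀ a ∈ V, ∀ b ∈ V, a * b = b * a) {x y : G}
    (hV : V = Subgroup.closure {x, y}) {n : ℕ} (hn : 0 < n) :
    Nat.card V ≤ n * n * Nat.card (Uw n V) := by
  have hx : x ∈ V := by rw [hV]; exact Subgroup.subset_closure (Set.mem_insert _ _)
  have hy : y ∈ V := by
    rw [hV]; exact Subgroup.subset_closure (Set.mem_insert_of_mem _ (Set.mem_singleton _))
  have hc : Commute x y := hab x hx y hy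
  have hU : Uw n V ≤ V := by
    refine (Subgroup.closure_le V).2 ?_
    rintro _ ⟨v, hv, rfl⟩
    exact V.pow_mem hv n
  let f : Fin n × Fin n × Uw n V → V := fun p =>
    ⟨x ^ (p.1 : ℕ) * y ^ (p.2.1 : ℕ) * p.2.2,
      V.mul_mem (V.mul_mem (V.pow_mem hx _) (V.pow_mem hy _)) (hU p.2.2.2)⟩
  have hf : Function.Surjective f := by
    rintro ⟨v, hv⟩
    obtain ⟨m, k, rfl⟩ := mem_two hc (by rwa [← hV])
    have hn0 : (n : ℤ) ≠ 0 := by exact_mod_cast hn.ne'
    have hnp : (0 : ℤ) < n := by exact_mod_cast hn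
    have hm := Int.emod_nonneg m hn0
    have hk := Int.emod_nonneg k hn0
    have hm' := Int.emod_lt_of_pos m hnp
    have hk' := Int.emod_lt_of_pos k hnp
    refine ⟨(⟨(m % n).toNat, by omega⟩, ⟨(k % n).toNat, by omega⟩,
      ⟨(x ^ (m / n) * y ^ (k / n)) ^ n, Subgroup.subset_closure
        ⟨_, V.mul_mem (V.zpow_mem hx _) (V.zpow_mem hy _), rfl⟩⟩), ?_⟩
    apply Subtype.ext
    change x ^ (m % n).toNat * y ^ (k % n).toNat * (x ^ (m / n) * y ^ (k / n)) ^ n =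
      x ^ m * y ^ k
    have e1 : x ^ (m % n).toNat = x ^ (m % (n : ℤ)) := by
      rw [← zpow_natCast, Int.toNat_of_nonneg hm]
    have e2 : y ^ (k % n).toNat = y ^ (k % (n : ℤ)) := by
      rw [← zpow_natCast, Int.toNat_of_nonneg hk]
    have e3 : (x ^ (m / (n : ℤ)) * y ^ (k / (n : ℤ))) ^ n =
        x ^ ((n : ℤ) * (m / n)) * y ^ ((n : ℤ) * (k / n)) := by
      rw [(hc.zpow_zpow _ _).mul_pow, ← zpow_natCast, ← zpow_natCast, ← zpow_mul, ← zpow_mul,
        mul_comm (m / (n : ℤ)), mul_comm (k / (n : ℤ))]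
    rw [e1, e2, e3]
    have e4 : y ^ (k % (n : ℤ)) * x ^ ((n : ℤ) * (m / n)) =
        x ^ ((n : ℤ) * (m / n)) * y ^ (k % (n : ℤ)) := (hc.symm.zpow_zpow _ _).eq
    calc x ^ (m % (n : ℤ)) * y ^ (k % (n : ℤ)) *
          (x ^ ((n : ℤ) * (m / n)) * y ^ ((n : ℤ) * (k / n)))
        = x ^ (m % (n : ℤ)) * (y ^ (k % (n : ℤ)) * x ^ ((n : ℤ) * (m / n))) *
          y ^ ((n : ℤ) * (k / n)) := by group
      _ = x ^ (m % (n : ℤ)) * (x ^ ((n : ℤ) * (m / n)) * y ^ (k % (n : ℤ))) *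
          y ^ ((n : ℤ) * (k / n)) := by rw [e4]
      _ = x ^ (m % (n : ℤ) + (n : ℤ) * (m / n)) * y ^ (k % (n : ℤ) + (n : ℤ) * (k / n)) := by
          rw [zpow_add, zpow_add]; group
      _ = x ^ m * y ^ k := by rw [Int.emod_add_mul_ediv, Int.emod_add_mul_ediv]
  have h := Nat.card_le_card_of_surjective f hf
  rw [Nat.card_prod, Nat.card_prod, Nat.card_fin, ← mul_assoc] at h
  exact h

end two

theorem lt8 (rtr : RtrStmt) (hkx : HkxStmt) (lb8 : Lb8Stmt) (xct : XctStmt) (lfr : LfrStmt) :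
    Lt8Stmt := by
  intro ℓ _ M _ hM hl2 G _ _ e V γ ld a hty
  have hF : GoodF ℓ (FF M) := H50.fld ℓ Fact.out M hM
  have hlp : ℓ.Prime := Fact.out
  have hix : ¬ ℓ ∣ ix V γ :=
    K9.H34.inx ℓ M hM G e ld.blk V ld.tp ld.ab γ ld.gam.supp ld.gam.blk ld.und
  rcases hty with ⟨k, h⟩ | h | h
  · -- the first type
    have ha : 0 < a := h.pos.trans_le h.le
    obtain ⟨y, hy⟩ := (rtr ℓ (FF M) hF G e V γ ld hix a h.exp).1 ha h.ei
    have h1 := hkx ℓ (FF M) hF G e V γ ld hix a k h.pos ha h.exp ⟨y, hy⟩ h.hk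
    have hyk : Rk ℓ a k V γ y := by
      refine ⟨hy.mem, hy.ord, fun t ht v hv he => ?_⟩
      refine hy.reg t ht (v ^ ℓ ^ (k - 1)) (V.pow_mem hv _) ?_
      rw [he, ← pow_mul, ← pow_add]
      congr 3
      have := h.pos
      omega
    exact lb8 ℓ M hM hl2 G e V γ ld a k h.pos h.le h.exp ⟨y, hyk⟩ h1 h.sz
  · -- the second type
    have ha := h.le
    obtain ⟨x, z, hV⟩ := h.gen
    obtain ⟨y, hy⟩ := (rtr ℓ (FF M) hF G e V γ ld hix a h.exp).2 (by omega) ⟨x, z, hV⟩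
    have h2 := xct ℓ (FF M) hF G e V γ ld hix a 2 (by norm_num) (by omega) h.exp y hy
    have h3 := card_two ld.ab hV (pow_pos hlp.pos 2)
    have e4 : ℓ ^ 2 * ℓ ^ 2 = ℓ ^ 4 := by rw [← pow_add]
    rw [e4] at h3
    refine lb8 ℓ M hM hl2 G e V γ ld a 2 (by norm_num) (by omega) h.exp ⟨y, hy⟩ ?_ ?_
    · calc ix V γ * Nat.card V ≤ ix V γ * (ℓ ^ 4 * Nat.card (Uw (ℓ ^ 2) V)) :=
            Nat.mul_le_mul_left _ h3
        _ = ℓ ^ (2 * 2) * (ix V γ * Nat.card (Uw (ℓ ^ 2) V)) := by ring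
        _ ≤ ℓ ^ (2 * 2) * {u | Rg V γ u}.ncard := Nat.mul_le_mul_left _ h2
    · refine h3.trans (Nat.mul_le_mul_right _ (Nat.pow_le_pow_right hlp.pos ?_))
      omega
  · -- the third type
    have hne : V ≠ ⊥ := by
      rintro rfl
      have h1 := h.exp
      rw [Monoid.exp_eq_one_iff.2 inferInstance] at h1
      exact (Nat.one_lt_pow h.pos.ne' hlp.one_lt).ne h1
    exact (lfr ℓ M hM hl2 G e V γ ld hne h.fr).trans h.ix

end Pool.Agent.PP.T8.H77
end
end -- Pool.Agent.Helper77_AT8.LT8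

section -- Pool.Agent.Helper15_AT12.CPY

/-!
# Squad AT12, row CPY: automorphisms of `C_(ℓ ^ 2) × C_(ℓ ^ 2)`
-/

set_option autoImplicit false

namespace Pool.Agent.PP.T12.H15

open Pool.Agent.PP.T8 Pool.Agent.PP.T8.H24

/-- integral powers are natural powers in a finite group -/
theorem zpow_nat {V : Type} [Group V] [Finite V] (x : V) (i : ℤ) : ∃ n : ℕ, x ^ i = x ^ n := by
  have h : x ^ i ∈ Submonoid.powers x :=
    mem_powers_iff_mem_zpowers.2 ⟨i, rfl⟩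
  obtain ⟨n, hn⟩ := h
  exact ⟨n, hn.symm⟩

theorem cpy (hC : T8.CprStmt) : CpyStmt := by
  intro ℓ hp V _ _ hexp hcardV hxy E hE
  obtain ⟨u, hu⟩ := exists_order (V := V)
  rw [hexp] at hu
  by_cases hS : sub ℓ E u = ⊥
  · left
    refine ⟨u, hu, fun s hs v hv => ?_⟩
    have : s ∈ sub ℓ E u := ⟨hs, v, hv⟩
    rw [hS] at this
    exact Subgroup.mem_bot.1 this
  right
  have hℓ0 : 0 < ℓ := hp.out.pos
  have hexp' : Monoid.exponent V = ℓ ^ (1 + 1) := hexp
  have hSE : ¬ ℓ ∣ Nat.card (sub ℓ E u) := fun h =>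
    hE (h.trans (Subgroup.card_dvd_of_le (sub_le ℓ E u)))
  obtain ⟨⟨π, hπ1, hπ2, hπ3, hπ4⟩, hlast⟩ := hC ℓ V 2 hexp (sub ℓ E u) hSE
  obtain ⟨w₀, hw₀⟩ := hπ4 ℓ u fun s hs => hs.2
  have hππ : ∀ u, π (π u) = π u := fun u => hπ2 (π u) fun s hs => (hπ1 u s hs).1
  have hyne : (π u) ^ ℓ ^ 1 ≠ 1 := by
    have hy1 : (π u) ^ ℓ ^ 1 = u ^ ℓ ^ 1 := by
      rw [hw₀, mul_pow, ← pow_mul, ← pow_succ', pow_exp hexp', mul_one]
    rw [hy1]
    intro h
    have h1 := orderOf_dvd_of_pow_eq_one h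
    rw [hu, Nat.pow_dvd_pow_iff_le_right hp.out.one_lt] at h1
    omega
  have hu' : orderOf (π u) = ℓ ^ (1 + 1) := orderOf_eq_prime_pow hyne (pow_exp hexp' _)
  have hex : ∃ s ∈ sub ℓ E u, ∃ v : V, ∀ w, s v ≠ v * w ^ ℓ := by
    by_contra hcon
    push Not at hcon
    exact hS (hlast hcon)
  obtain ⟨s₁, hs₁, v, hv⟩ := hex
  have hwne : ∀ x : V, v * (π v)⁻¹ ≠ x ^ ℓ := by
    intro x hx
    have h1 : v = π v * x ^ ℓ := by rw [← hx, mul_comm v, mul_inv_cancel_left]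
    apply hv (x⁻¹ * s₁ x)
    have h2 : s₁ v = π v * (s₁ x) ^ ℓ := by
      conv_lhs => rw [h1]
      rw [map_mul, (hπ1 v s₁ hs₁).1, map_pow]
    rw [h2, mul_pow, ← mul_assoc]
    congr 1
    conv_rhs => rw [h1]
    rw [inv_pow, mul_inv_cancel_right]
  have hπk : π (v * (π v)⁻¹) = 1 := by
    rw [map_mul, map_inv, hππ, mul_inv_cancel]
  generalize v * (π v)⁻¹ = k at hwne hπk
  -- independence
  have hind : ∀ (i j : ℤ) (v : V), (π u) ^ i * k ^ j = v ^ ℓ → (ℓ : ℤ) ∣ i ∧ (ℓ : ℤ) ∣ j := by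
    intro i j v hij
    have h1 : (π u) ^ i = (π v) ^ ℓ := by
      have h2 := congrArg π hij
      rw [map_mul, map_zpow, map_zpow, hππ, hπk, one_zpow, mul_one, map_pow] at h2
      exact h2
    have h3 : (ℓ : ℤ) ∣ i := by
      have h4 : (π u) ^ (i * ((ℓ ^ 1 : ℕ) : ℤ)) = 1 := by
        rw [zpow_mul, h1, zpow_natCast, ← pow_mul, ← pow_succ', pow_exp hexp']
      have h5 := orderOf_dvd_iff_zpow_eq_one.2 h4
      rw [hu', pow_succ'] at h5
      push_cast at h5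
      exact Int.dvd_of_mul_dvd_mul_right (by have := hp.out.pos; positivity) h5
    refine ⟨h3, ?_⟩
    obtain ⟨d, rfl⟩ := h3
    by_contra hj
    have hcop : IsCoprime (ℓ : ℤ) j :=
      (Int.prime_iff_natAbs_prime.2 (by simpa using hp.out)).coprime_iff_not_dvd.2 hj
    obtain ⟨r, t, hrt⟩ := hcop
    apply hwne (k ^ r * (v * (π u) ^ (-d)) ^ t)
    have h6 : k ^ j = (v * (π u) ^ (-d)) ^ ℓ := by
      rw [mul_pow, ← hij, ← zpow_natCast ((π u) ^ (-d)), ← zpow_mul, mul_comm (ℓ : ℤ) d,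
        neg_mul, zpow_neg]
      rw [mul_comm _ (k ^ j), mul_inv_cancel_right]
    generalize v * (π u) ^ (-d) = w at h6 ⊢
    calc k = k ^ (r * ℓ + t * j) := by rw [hrt, zpow_one]
      _ = (k ^ r) ^ ℓ * (k ^ j) ^ t := by
          rw [zpow_add, zpow_mul, zpow_natCast, mul_comm t j, zpow_mul]
      _ = (k ^ r * w ^ t) ^ ℓ := by
          rw [h6, mul_pow, ← zpow_natCast (w ^ t), ← zpow_natCast w, ← zpow_mul, ← zpow_mul,
            mul_comm t]
  have hgen := gen3 ℓ 2 hexp hxy (π u) k hind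
  have hgenN : ∀ v : V, ∃ i j : ℕ, v = (π u) ^ i * k ^ j := by
    intro v
    obtain ⟨i, j, hij⟩ := hgen v
    obtain ⟨i', hi'⟩ := zpow_nat (π u) i
    obtain ⟨j', hj'⟩ := zpow_nat k j
    exact ⟨i', j', by rw [hij, hi', hj']⟩
  have hK : ∀ v : V, π v = 1 → ∃ j : ℕ, v = k ^ j := by
    intro v hv
    obtain ⟨i, j, hij⟩ := hgenN v
    refine ⟨j, ?_⟩
    have h1 := congrArg π hij
    rw [hv, map_mul, map_pow, map_pow, hππ, hπk, one_pow, mul_one] at h1
    rw [hij, ← h1, one_mul]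
  -- the order of `k`
  have hkdvd : orderOf k ∣ ℓ ^ 2 := orderOf_dvd_of_pow_eq_one (pow_exp hexp _)
  have hok : orderOf k = ℓ ^ 2 := by
    have hle : ℓ ^ 2 ≤ orderOf k := by
      have h1 : Nat.card V ≤ Nat.card (Fin (ℓ ^ 2) × Fin (orderOf k)) := by
        let f : Fin (ℓ ^ 2) × Fin (orderOf k) → V := fun t => (π u) ^ (t.1 : ℕ) * k ^ (t.2 : ℕ)
        refine Nat.card_le_card_of_surjective f ?_
        intro v
        obtain ⟨i, j, hij⟩ := hgenN v
        refine ⟨(⟨i % ℓ ^ 2, Nat.mod_lt _ (by positivity)⟩,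
          ⟨j % orderOf k, Nat.mod_lt _ (orderOf_pos k)⟩), ?_⟩
        show (π u) ^ (i % ℓ ^ 2) * k ^ (j % orderOf k) = v
        have e1 : (π u) ^ (i % ℓ ^ 2) = (π u) ^ i := by
          have := pow_mod_orderOf (π u) i
          rwa [hu'] at this
        rw [e1, pow_mod_orderOf, hij]
      rw [hcardV, Nat.card_prod, Nat.card_fin, Nat.card_fin] at h1
      have h2 : ℓ ^ 2 * ℓ ^ 2 ≤ ℓ ^ 2 * orderOf k := by
        calc ℓ ^ 2 * ℓ ^ 2 = ℓ ^ 4 := by ring
          _ ≤ _ := h1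
      exact Nat.le_of_mul_le_mul_left h2 (by positivity)
    exact le_antisymm (Nat.le_of_dvd (by positivity) hkdvd) hle
  -- the stabiliser
  have hstab : ∀ s ∈ E, ∀ v : V, s (π u) = π u * v ^ ℓ → s ∈ sub ℓ E u := by
    intro s hs v hv
    refine ⟨hs, w₀ * v * (s w₀)⁻¹, ?_⟩
    have h3 : u = π u * (w₀⁻¹) ^ ℓ := by rw [hw₀, inv_pow, mul_inv_cancel_right]
    have h4 : s u = π u * v ^ ℓ * ((s w₀)⁻¹) ^ ℓ := by
      conv_lhs => rw [h3]
      rw [map_mul, hv, map_pow, map_inv]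
    rw [h4, hw₀, mul_pow (w₀ * _), mul_pow w₀]
    simp only [mul_assoc]
  have hstab2 : ∀ s ∈ E, s (π u) = π u → s ∈ sub ℓ E u := fun s hs h =>
    hstab s hs 1 (by rw [h, one_pow, mul_one])
  have hact : ∀ s ∈ E, s (π u) = π u → ∃ μ : ℕ, s k = k ^ μ := by
    intro s hs h
    refine hK (s k) ?_
    rw [(hπ1 k s (hstab2 s hs h)).2, hπk]
  have hfree : ∀ s ∈ E, s (π u) = π u → ∀ μ : ℕ, s k = k ^ μ → (μ : ZMod ℓ) = 1 → s = 1 := by
    intro s hs h μ hμ h1
    have h2 : (ℓ : ℤ) ∣ (μ : ℤ) - 1 := by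
      rw [← ZMod.intCast_zmod_eq_zero_iff_dvd] 
      push_cast
      rw [h1, sub_self]
    obtain ⟨d, hd⟩ := h2
    refine triv2 hC ℓ V _ hexp E hE (π u) k hgen s hs ⟨1, by rw [h, one_pow, mul_one]⟩
      ⟨k ^ d, ?_⟩
    rw [hμ, ← zpow_natCast k μ, show (μ : ℤ) = 1 + d * ℓ by linarith, zpow_add, zpow_one, zpow_mul,
      zpow_natCast]
  -- the homomorphism
  let S' : Subgroup (MulAut V) :=
    { carrier := {s | s ∈ E ∧ s (π u) = π u}
      one_mem' := ⟨E.one_mem, rfl⟩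
      mul_mem' := by
        rintro s t ⟨hs, h1⟩ ⟨ht, h2⟩
        exact ⟨E.mul_mem hs ht, by rw [MulAut.mul_apply, h2, h1]⟩
      inv_mem' := by
        rintro s ⟨hs, h1⟩
        exact ⟨E.inv_mem hs, by rw [MulAut.inv_apply, MulEquiv.symm_apply_eq, h1]⟩ }
  have hmod : ∀ m n : ℕ, k ^ m = k ^ n → (m : ZMod ℓ) = (n : ZMod ℓ) := by
    intro m n h
    rw [pow_eq_pow_iff_modEq, hok] at h
    rw [ZMod.natCast_eq_natCast_iff]
    exact Nat.ModEq.of_dvd (dvd_pow_self ℓ two_ne_zero) h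
  choose μ hμ using fun s : S' => hact s.1 s.2.1 s.2.2
  let φ : S' →* ZMod ℓ :=
    { toFun := fun s => (μ s : ZMod ℓ)
      map_one' := by
        have h := hμ 1
        have h2 : k ^ μ 1 = k ^ 1 := by
          rw [← h, pow_one]
          rfl
        rw [hmod _ _ h2, Nat.cast_one]
      map_mul' := by
        intro s t
        have h : k ^ μ (s * t) = k ^ (μ s * μ t) := by
          rw [← hμ, pow_mul, ← hμ s, ← map_pow, ← hμ t]
          rfl
        rw [hmod _ _ h, Nat.cast_mul] }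
  have hφ : Function.Injective φ.toHomUnits := by
    rw [injective_iff_map_eq_one]
    intro s hs
    have h1 : φ s = 1 := by
      have := congrArg (fun x : (ZMod ℓ)ˣ => (x : ZMod ℓ)) hs
      simpa using this
    exact Subtype.ext (hfree s.1 s.2.1 s.2.2 (μ s) (hμ s) h1)
  refine ⟨π u, k, hu', hok, hgenN, ?_, ?_, hact, ?_, ?_, ?_, ?_⟩
  · intro i i' j j' h
    have h1 := congrArg π h
    rw [map_mul, map_mul, map_pow, map_pow, map_pow, map_pow, hππ, hπk, one_pow, one_pow, mul_one,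
      mul_one] at h1
    have h2 : k ^ j = k ^ j' := by
      rw [h1] at h
      exact mul_left_cancel h
    rw [pow_eq_pow_iff_modEq, hu'] at h1
    rw [pow_eq_pow_iff_modEq, hok] at h2
    exact ⟨h1, h2⟩
  · intro s hs v hv
    exact (hπ1 u s (hstab s hs v hv)).1
  · intro s hs h n hn hsn
    obtain ⟨m, hm⟩ := hact s hs h
    refine hfree s hs h m hm ?_
    have h1 : k ^ (m * n) = k ^ n := by
      rw [pow_mul, ← hm, ← map_pow, hsn]
    rw [pow_eq_pow_iff_modEq, hok] at h1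
    have h2 : ((ℓ ^ 2 : ℕ) : ℤ) ∣ ((m : ℤ) - 1) * n := by
      have h3 := (Nat.modEq_iff_dvd.1 h1.symm)
      have h4 : (((m * n : ℕ) : ℤ)) - (n : ℤ) = ((m : ℤ) - 1) * n := by
        push_cast
        ring
      rw [← h4]
      exact h3
    by_contra hne
    apply hn
    have h3 : ¬ (ℓ : ℤ) ∣ (m : ℤ) - 1 := by
      intro h4
      apply hne
      rw [← ZMod.intCast_zmod_eq_zero_iff_dvd] at h4
      push_cast at h4
      exact sub_eq_zero.1 h4
    have hcop : IsCoprime (((ℓ ^ 2 : ℕ) : ℤ)) ((m : ℤ) - 1) := by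
      have h4 : IsCoprime (ℓ : ℤ) ((m : ℤ) - 1) :=
        (Int.prime_iff_natAbs_prime.2 (by simpa using hp.out)).coprime_iff_not_dvd.2 h3
      push_cast
      exact h4.pow_left
    exact_mod_cast hcop.dvd_of_dvd_mul_left h2
  · obtain ⟨⟨s, hs⟩, hne⟩ := Subgroup.ne_bot_iff_exists_ne_one.1 hS
    have hne' : s ≠ 1 := fun h' => hne (Subtype.ext h')
    exact ⟨s, hs.1, hne', (hπ1 u _ hs).1⟩
  · have h1 : Nat.card S' ∣ Nat.card (ZMod ℓ)ˣ := Subgroup.card_dvd_of_injective _ hφ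
    have h2 : Nat.card (ZMod ℓ)ˣ = ℓ - 1 := by
      rw [Nat.card_eq_fintype_card, ZMod.card_units]
    rw [h2] at h1
    exact h1
  · have : IsCyclic S' := isCyclic_of_injective _ hφ
    obtain ⟨g, hg⟩ := IsCyclic.exists_generator (α := S')
    refine ⟨g.1, g.2.1, g.2.2, ?_⟩
    intro s hs h
    have h1 := hg (⟨s, hs, h⟩ : S')⁻¹
    rw [← mem_powers_iff_mem_zpowers] at h1
    obtain ⟨n, hn⟩ := h1
    refine ⟨n, ?_⟩
    have h2 := congrArg (fun x : S' => (x : MulAut V)) hn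
    simp only [Subgroup.coe_pow, Subgroup.coe_inv] at h2
    rw [h2, inv_mul_cancel]

end Pool.Agent.PP.T12.H15
end -- Pool.Agent.Helper15_AT12.CPY

section -- Pool.Agent.Helper3_AT12.CCY

/-! # AT12, row CCY -/

open scoped BigOperators

noncomputable section

namespace Pool.Agent.PP.T12.H3

open Pool.Agent.Helper51_AWC Pool.Agent.Helper79_WRA Pool.Agent.PP Pool.Agent.PP.KF
open Pool.Agent.PP.K9 Pool.Agent.PP.K9.H97 Pool.Agent.PP.H75 Pool.Agent.PP.T3 Pool.Agent.PP.T2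
open Pool.Agent.PP.T8 Pool.Agent.PP.T12

attribute [local instance] Ideal.Quotient.field

section gen

variable {G : Type} [Group G] [Finite G] {F : Type} [Field F] {V : Subgroup G} {γ : G → F}

theorem cen_le (hγ : Bx (Subgroup.centralizer (V : Set G)) γ) :
    Subgroup.centralizer (V : Set G) ≤ Tg V γ := by
  intro c hc
  refine Subgroup.mem_inf.2 ⟨?_, ?_⟩
  · rw [Subgroup.mem_normalizer_iff]
    intro h
    constructor
    · intro hh
      have := (Subgroup.mem_centralizer_iff.1 hc) h hh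
      rw [← this, mul_inv_cancel_right]
      exact hh
    · intro hh
      have := (Subgroup.mem_centralizer_iff.1 hc) _ hh
      have e : h = c * h * c⁻¹ := by
        have e2 : c * h * c⁻¹ * c = c * (c * h * c⁻¹) := this
        have e3 : c * h = c * (c * h * c⁻¹) := by
          rw [← e2]
          group
        exact mul_left_cancel e3
      rw [e]
      exact hh
  · exact (cj_eq_iff _ _).1 (hγ.ix.inv hc)

/-- the inertial group normalises `V` -/
theorem tg_conj {t : G} (ht : t ∈ Tg V γ) {v : G} (hv : v ∈ V) : t * v * t⁻¹ ∈ V :=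
  (Subgroup.mem_normalizer_iff.1 ht.1 v).1 hv

/-- the inertial group normalises the centraliser of `V` -/
theorem tg_cen {t : G} (ht : t ∈ Tg V γ) {c : G}
    (hc : t⁻¹ * c * t ∈ Subgroup.centralizer (V : Set G)) :
    c ∈ Subgroup.centralizer (V : Set G) := by
  rw [Subgroup.mem_centralizer_iff] at hc ⊢
  intro v hv
  have h1 : t⁻¹ * v * t ∈ V := by
    have := tg_conj ((Tg V γ).inv_mem ht) hv
    rw [inv_inv] at this
    exact this
  have h2 := hc _ h1
  have h3 : t⁻¹ * (v * c) * t = t⁻¹ * (c * v) * t := by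
    calc t⁻¹ * (v * c) * t = (t⁻¹ * v * t) * (t⁻¹ * c * t) := by group
      _ = (t⁻¹ * c * t) * (t⁻¹ * v * t) := h2
      _ = t⁻¹ * (c * v) * t := by group
  exact mul_left_cancel (mul_right_cancel h3)

/-- `fs` does not change under conjugation with elements of the inertial group -/
theorem fs_conj (i : G → ℂ) {t z : G} (ht : t ∈ Tg V γ) (hz : z ∈ V) (χ : G → ℂ) :
    fs V γ i (t * z * t⁻¹) χ = fs V γ i z χ := by
  classical
  let Q := Tg V γ ⧸ (Subgroup.centralizer (V : Set G)).subgroupOf (Tg V γ)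
  have hQf : Fintype Q := Fintype.ofFinite _
  have h1 : ∀ w, fs V γ i w χ = ∑ q : Q,
      fv i (((q.out : Tg V γ) : G) * w * ((q.out : Tg V γ) : G)⁻¹) χ := fun w =>
    finsum_eq_sum_of_fintype _
  rw [h1, h1]
  let φ : Q → Q := fun q => QuotientGroup.mk ((q.out : Tg V γ) * ⟨t, ht⟩)
  have hinj : Function.Injective φ := by
    intro q q' h
    have h2 := QuotientGroup.eq.1 h
    rw [Subgroup.mem_subgroupOf] at h2
    have h3 : t⁻¹ * (((q.out : Tg V γ) : G)⁻¹ * ((q'.out : Tg V γ) : G)) * t ∈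
        Subgroup.centralizer (V : Set G) := by
      have h4 : t⁻¹ * (((q.out : Tg V γ) : G)⁻¹ * ((q'.out : Tg V γ) : G)) * t =
          ((((q.out : Tg V γ) * ⟨t, ht⟩)⁻¹ * ((q'.out : Tg V γ) * ⟨t, ht⟩) : Tg V γ) : G) := by
        rw [Subgroup.coe_mul, Subgroup.coe_inv, Subgroup.coe_mul, Subgroup.coe_mul]
        group
      rw [h4]
      exact h2
    have h5 := tg_cen ht h3
    have h6 : (QuotientGroup.mk (q.out : Tg V γ) : Q) = QuotientGroup.mk (q'.out : Tg V γ) := by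
      refine QuotientGroup.eq.2 ?_
      rw [Subgroup.mem_subgroupOf, Subgroup.coe_mul, Subgroup.coe_inv]
      exact h5
    have h7 := q.out_eq'
    have h8 := q'.out_eq'
    exact h7.symm.trans (h6.trans h8)
  refine Fintype.sum_bijective φ (Finite.injective_iff_bijective.1 hinj) _ _ fun q => ?_
  have h2 : (QuotientGroup.mk ((φ q).out : Tg V γ) : Q) =
      QuotientGroup.mk ((q.out : Tg V γ) * ⟨t, ht⟩) := (φ q).out_eq'
  have h3 := QuotientGroup.eq.1 h2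
  rw [Subgroup.mem_subgroupOf, Subgroup.coe_mul, Subgroup.coe_inv, Subgroup.coe_mul,
    Subgroup.mem_centralizer_iff] at h3
  have h4 := h3 z hz
  have h5 : ((q.out : Tg V γ) : G) * (t * z * t⁻¹) * ((q.out : Tg V γ) : G)⁻¹ =
      (((φ q).out : Tg V γ) : G) * z * (((φ q).out : Tg V γ) : G)⁻¹ := by
    have h6 : (((φ q).out : Tg V γ) : G)⁻¹ * (((q.out : Tg V γ) : G) * t) * z =
        z * ((((φ q).out : Tg V γ) : G)⁻¹ * (((q.out : Tg V γ) : G) * t)) := h4.symm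
    calc ((q.out : Tg V γ) : G) * (t * z * t⁻¹) * ((q.out : Tg V γ) : G)⁻¹
        = (((φ q).out : Tg V γ) : G) * ((((φ q).out : Tg V γ) : G)⁻¹ *
            (((q.out : Tg V γ) : G) * t) * z) * (((q.out : Tg V γ) : G) * t)⁻¹ := by group
      _ = (((φ q).out : Tg V γ) : G) * (z * ((((φ q).out : Tg V γ) : G)⁻¹ *
            (((q.out : Tg V γ) : G) * t))) * (((q.out : Tg V γ) : G) * t)⁻¹ := by rw [h6]
      _ = _ := by group
  exact congrArg (fun w => fv i w χ) h5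

end gen

/-- the order of the defect group -/
theorem card_V {G H : Type} [Group G] [Finite G] [Group H] [Finite H] {V : Subgroup G} {y : G}
    {n : ℕ} {π : Cu y →* H} (hQ : C2.Qn n y π) (hVy : V ≤ Cu y) (hy : y ∈ V) :
    Nat.card V = n * Nat.card ((V.subgroupOf (Cu y)).map π) := by
  let V' := V.subgroupOf (Cu y)
  have h1 : Nat.card V' = Nat.card V := Nat.card_congr (Subgroup.subgroupOfEquivOfLe hVy).toEquiv
  let f : V' →* V'.map π := π.subgroupMap V'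
  have hf : Function.Surjective f := π.subgroupMap_surjective V'
  have h2 := Subgroup.card_eq_card_quotient_mul_card_subgroup f.ker
  have h3 : Nat.card (V' ⧸ f.ker) = Nat.card (V'.map π) :=
    Nat.card_congr (QuotientGroup.quotientKerEquivOfSurjective f hf).toEquiv
  have h4 : Nat.card f.ker = n := by
    rw [← hQ.ord, ← Nat.card_zpowers]
    have hker : ∀ c : V', c ∈ f.ker ↔ ((c : Cu y) : G) ∈ Subgroup.zpowers y := by
      intro c
      rw [MonoidHom.mem_ker, ← hQ.ker (c : Cu y)]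
      constructor
      · intro h
        have := congrArg Subtype.val h
        exact this
      · intro h
        exact Subtype.ext h
    have hzV : Subgroup.zpowers y ≤ V := by
      rw [Subgroup.zpowers_le]
      exact hy
    refine Nat.card_congr ⟨fun c => ⟨((c : V') : Cu y), (hker c).1 c.2⟩,
      fun w => ⟨⟨⟨w, hVy (hzV w.2)⟩, ?_⟩, ?_⟩, fun c => rfl, fun w => rfl⟩
    · exact hzV w.2
    · rw [hker]
      exact w.2
  rw [← h1, h2, h3, h4, mul_comm]

theorem ccy (hOav : OavStmt) (hFch : T8.FchStmt) : CcyStmt := by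
  classical
  intro ℓ hℓ M _ hM G H _ _ _ _ a e V γ y β π m K g hS i hi R hR j hj
  have hab := hS.ld.ab
  have hGf : Fintype G := Fintype.ofFinite _
  have hzV : y ^ j ∈ V := V.pow_mem hS.mem j
  -- the orthogonality relations
  have hO1 : ∀ s, ∀ v ∈ V, (∀ t ∈ Tg V γ, t * v * t⁻¹ ≠ y ^ j) →
      ∑ χ ∈ irr_finite'.toFinset, Av ℓ π (y ^ j) (g s) χ * starRingEnd ℂ (fv i v χ) = 0 := by
    intro s v hv h
    rw [← finsum_mem_eq_finite_toFinset_sum _ irr_finite']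
    exact (hOav ℓ M hM G H a e V γ y β π m K g hS j hj (g s) (hS.cd.ze s) (hS.cd.rc s)).1
      i hi v hv h
  have hO4 : ∀ s s', ∑ χ ∈ irr_finite'.toFinset, Av ℓ π (y ^ j) (g s) χ *
      starRingEnd ℂ (Av ℓ π (y ^ j) (g s') χ) =
      (ℓ : ℂ) ^ a * ((if s' = s then 1 else 0) + K) := by
    intro s s'
    rw [← finsum_mem_eq_finite_toFinset_sum _ irr_finite', ← hS.cd.gr s' s]
    exact (hOav ℓ M hM G H a e V γ y β π m K g hS j hj (g s) (hS.cd.ze s)
      (hS.cd.rc s)).2.2.2 (g s') (hS.cd.ze s') (hS.cd.rc s')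
  have hmem : ∀ χ, χ ∈ (irr_finite' (G := G)).toFinset ↔ χ ∈ Irr G := fun χ =>
    Set.Finite.mem_toFinset _
  -- cosets
  let Q := Tg V γ ⧸ (Subgroup.centralizer (V : Set G)).subgroupOf (Tg V γ)
  have hQf : Fintype Q := Fintype.ofFinite _
  have hix : (ix V γ : ℕ) = Fintype.card Q := by
    rw [← Nat.card_eq_fintype_card]
    rfl
  let cq : Q → G → G := fun q z => ((q.out : Tg V γ) : G) * z * ((q.out : Tg V γ) : G)⁻¹
  have hfs : ∀ z χ, fs V γ i z χ = ∑ q : Q, fv i (cq q z) χ := fun z χ =>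
    finsum_eq_sum_of_fintype _
  have hVf : Fintype V := Fintype.ofFinite _
  have hcV : ((Nat.card V : ℕ) : ℂ) ≠ 0 := Nat.cast_ne_zero.2 Nat.card_pos.ne'
  have hperm : ∀ (q : Q) (F : G → ℂ), ∑ v : V, F (cq q v) = ∑ v : V, F v := by
    intro q F
    let f : V → V := fun v => ⟨cq q v, tg_conj (q.out : Tg V γ).2 v.2⟩
    have hf : Function.Injective f := by
      intro v w h
      have h1 : cq q v = cq q w := congrArg Subtype.val h
      exact Subtype.ext (mul_left_cancel (mul_right_cancel h1))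
    exact Fintype.sum_bijective f (Finite.injective_iff_bijective.1 hf) _ _ fun v => rfl
  have hA : ∀ χ ∈ Irr G, ∃ mχ : ℕ, ∑ v : V, fv i v χ = Nat.card V * (mχ : ℂ) := by
    intro χ hχ
    obtain ⟨mχ, hm⟩ := hFch M G V hab i hi.ip χ hχ 1
    refine ⟨mχ, ?_⟩
    rw [← hm, mul_inv_cancel_left₀ hcV, finsum_eq_sum_of_fintype]
    exact Finset.sum_congr rfl fun v _ => by rw [MonoidHom.one_apply, mul_one]
  choose! mχ hm using hA
  have hF1 : ∀ χ ∈ Irr G, (Nat.card V : ℂ)⁻¹ * ∑ v : V, fs V γ i v χ = ix V γ * (mχ χ : ℂ) := by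
    intro χ hχ
    have h1 : ∑ v : V, fs V γ i v χ = ∑ q : Q, ∑ v : V, fv i (cq q v) χ := by
      rw [Finset.sum_comm]
      exact Finset.sum_congr rfl fun v _ => hfs _ _
    rw [h1]
    have h2 : ∀ q : Q, ∑ v : V, fv i (cq q v) χ = Nat.card V * (mχ χ : ℂ) := fun q => by
      rw [hperm q (fun z => fv i z χ)]
      exact hm χ hχ
    rw [Finset.sum_congr rfl fun q _ => h2 q, Finset.sum_const, Finset.card_univ, ← hix,
      nsmul_eq_mul]
    field_simp
  -- the sums for the elements of `V`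
  let T : G → ℂ := fun v => ∑ χ ∈ irr_finite'.toFinset,
    fs V γ i (y ^ j) χ * starRingEnd ℂ (fs V γ i v χ)
  have hcc : T8.cc V γ i (y ^ j) = (Nat.card V : ℂ)⁻¹ * ∑ v : V, T v := by
    unfold T8.cc
    rw [finsum_mem_eq_finite_toFinset_sum _ irr_finite']
    have h1 : ∑ v : V, T v = ∑ χ ∈ (irr_finite' (G := G)).toFinset,
        fs V γ i (y ^ j) χ * starRingEnd ℂ (∑ v : V, fs V γ i v χ) := by
      change ∑ v : V, ∑ χ ∈ irr_finite'.toFinset, _ = _
      rw [Finset.sum_comm]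
      refine Finset.sum_congr rfl fun χ _ => ?_
      rw [map_sum, Finset.mul_sum]
    rw [h1, Finset.mul_sum]
    refine Finset.sum_congr rfl fun χ hχ => ?_
    have h2 := hF1 χ ((hmem χ).1 hχ)
    have h3 : (Nat.card V : ℂ)⁻¹ * starRingEnd ℂ (∑ v : V, fs V γ i v χ) =
        ix V γ * (mχ χ : ℂ) := by
      have h4 := congrArg (starRingEnd ℂ) h2
      rw [map_mul, map_mul, map_inv₀, map_natCast, map_natCast, map_natCast] at h4
      exact h4
    rw [finsum_eq_sum_of_fintype, h2, mul_left_comm, h3]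
    ring
  -- off the orbit
  have hT0 : ∀ v ∈ V, (∀ t ∈ Tg V γ, t * v * t⁻¹ ≠ y ^ j) → T v = 0 := by
    intro v hv h
    have h1 : ∀ q : Q, ∀ s, ∑ χ ∈ (irr_finite' (G := G)).toFinset,
        Av ℓ π (y ^ j) (g s) χ * starRingEnd ℂ (fv i (cq q v) χ) = 0 := by
      intro q s
      refine hO1 s _ (tg_conj (q.out : Tg V γ).2 hv) fun t ht h2 => ?_
      refine h (t * ((q.out : Tg V γ) : G)) ((Tg V γ).mul_mem ht (q.out : Tg V γ).2) ?_
      rw [← h2]
      change _ = t * (((q.out : Tg V γ) : G) * v * ((q.out : Tg V γ) : G)⁻¹) * t⁻¹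
      group
    have h2 : T v = ∑ q : Q, ∑ s, (R s : ℂ) * ∑ χ ∈ (irr_finite' (G := G)).toFinset,
        Av ℓ π (y ^ j) (g s) χ * starRingEnd ℂ (fv i (cq q v) χ) := by
      change ∑ χ ∈ irr_finite'.toFinset, _ = _
      have h3 : ∀ χ ∈ (irr_finite' (G := G)).toFinset,
          fs V γ i (y ^ j) χ * starRingEnd ℂ (fs V γ i v χ) = ∑ q : Q, ∑ s,
            (R s : ℂ) * (Av ℓ π (y ^ j) (g s) χ * starRingEnd ℂ (fv i (cq q v) χ)) := by
        intro χ hχ
        rw [hR j hj χ ((hmem χ).1 hχ), hfs v χ, map_sum, Finset.mul_sum]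
        refine Finset.sum_congr rfl fun q _ => ?_
        rw [Finset.sum_mul]
        refine Finset.sum_congr rfl fun s _ => ?_
        ring
      rw [Finset.sum_congr rfl h3, Finset.sum_comm]
      refine Finset.sum_congr rfl fun q _ => ?_
      rw [Finset.sum_comm]
      refine Finset.sum_congr rfl fun s _ => ?_
      rw [Finset.mul_sum]
    rw [h2]
    refine Finset.sum_eq_zero fun q _ => Finset.sum_eq_zero fun s _ => ?_
    rw [h1 q s, mul_zero]
  -- on the orbit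
  have hT1 : ∀ t ∈ Tg V γ, T (t * y ^ j * t⁻¹) =
      (ℓ : ℂ) ^ a * (∑ s, (R s : ℂ) ^ 2 + K * (∑ s, (R s : ℂ)) ^ 2) := by
    intro t ht
    have h1 : T (t * y ^ j * t⁻¹) = ∑ s, ∑ s', (R s : ℂ) * R s' *
        ∑ χ ∈ (irr_finite' (G := G)).toFinset,
          Av ℓ π (y ^ j) (g s) χ * starRingEnd ℂ (Av ℓ π (y ^ j) (g s') χ) := by
      change ∑ χ ∈ irr_finite'.toFinset, _ = _
      have h3 : ∀ χ ∈ (irr_finite' (G := G)).toFinset,
          fs V γ i (y ^ j) χ * starRingEnd ℂ (fs V γ i (t * y ^ j * t⁻¹) χ) = ∑ s, ∑ s',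
            (R s : ℂ) * R s' * (Av ℓ π (y ^ j) (g s) χ *
              starRingEnd ℂ (Av ℓ π (y ^ j) (g s') χ)) := by
        intro χ hχ
        rw [fs_conj i ht hzV χ, hR j hj χ ((hmem χ).1 hχ), map_sum, Finset.sum_mul]
        refine Finset.sum_congr rfl fun s _ => ?_
        rw [Finset.mul_sum]
        refine Finset.sum_congr rfl fun s' _ => ?_
        rw [map_mul, map_intCast]
        ring
      rw [Finset.sum_congr rfl h3, Finset.sum_comm]
      refine Finset.sum_congr rfl fun s _ => ?_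
      rw [Finset.sum_comm]
      refine Finset.sum_congr rfl fun s' _ => ?_
      rw [Finset.mul_sum]
    rw [h1]
    have h2 : ∀ s, ∑ s', (R s : ℂ) * R s' * ∑ χ ∈ (irr_finite' (G := G)).toFinset,
          Av ℓ π (y ^ j) (g s) χ * starRingEnd ℂ (Av ℓ π (y ^ j) (g s') χ) =
        (ℓ : ℂ) ^ a * ((R s : ℂ) ^ 2 + K * (R s : ℂ) * ∑ s', (R s' : ℂ)) := by
      intro s
      have h3 : ∀ s', (R s : ℂ) * R s' * ∑ χ ∈ (irr_finite' (G := G)).toFinset,
          Av ℓ π (y ^ j) (g s) χ * starRingEnd ℂ (Av ℓ π (y ^ j) (g s') χ) =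
          (ℓ : ℂ) ^ a * ((if s' = s then (R s : ℂ) * R s' else 0) + K * R s * R s') := by
        intro s'
        rw [hO4 s s']
        split_ifs <;> ring
      rw [Finset.sum_congr rfl fun s' _ => h3 s', ← Finset.mul_sum, Finset.sum_add_distrib,
        Finset.sum_ite_eq', if_pos (Finset.mem_univ _), ← Finset.mul_sum, sq]
    rw [Finset.sum_congr rfl fun s _ => h2 s, ← Finset.mul_sum, Finset.sum_add_distrib,
      ← Finset.sum_mul, ← Finset.mul_sum]
    ring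
  -- the orbit
  have hcop : Nat.Coprime j (orderOf y) := by
    rw [hS.qn.ord]
    exact Nat.Coprime.pow_right _ ((Nat.coprime_comm).1
      (((Fact.out : ℓ.Prime).coprime_iff_not_dvd).2 hj))
  have hcy : ∀ t : G, t * y ^ j = y ^ j * t → t ∈ Cu y := by
    intro t ht
    obtain ⟨k, hk⟩ := exists_pow_eq_self_of_coprime hcop
    have h1 : Commute t ((y ^ j) ^ k) := Commute.pow_right ht k
    rw [hk] at h1
    refine Subgroup.mem_centralizer_iff.2 ?_
    rintro x hx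
    rw [Set.mem_singleton_iff.1 hx]
    exact h1.symm
  let Q' := Tg V γ ⧸ (Cu y).subgroupOf (Tg V γ)
  have hQf' : Fintype Q' := Fintype.ofFinite _
  let cq' : Q' → G := fun q => ((q.out : Tg V γ) : G) * y ^ j * ((q.out : Tg V γ) : G)⁻¹
  have hcq' : ∀ q, cq' q ∈ V := fun q => tg_conj (q.out : Tg V γ).2 hzV
  have hinj : Function.Injective cq' := by
    intro q q' h
    have h2 : ((q.out : Tg V γ) : G) * y ^ j * ((q.out : Tg V γ) : G)⁻¹ =
      ((q'.out : Tg V γ) : G) * y ^ j * ((q'.out : Tg V γ) : G)⁻¹ := h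
    have h1 : ((q'.out : Tg V γ) : G)⁻¹ * ((q.out : Tg V γ) : G) * y ^ j =
        y ^ j * (((q'.out : Tg V γ) : G)⁻¹ * ((q.out : Tg V γ) : G)) := by
      calc ((q'.out : Tg V γ) : G)⁻¹ * ((q.out : Tg V γ) : G) * y ^ j
          = ((q'.out : Tg V γ) : G)⁻¹ * (((q.out : Tg V γ) : G) * y ^ j *
              ((q.out : Tg V γ) : G)⁻¹) * ((q.out : Tg V γ) : G) := by group
        _ = _ := by rw [h2]; group
    have h3 := hcy _ h1
    have h4 : (QuotientGroup.mk (q'.out : Tg V γ) : Q') = QuotientGroup.mk (q.out : Tg V γ) := by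
      refine QuotientGroup.eq.2 ?_
      rw [Subgroup.mem_subgroupOf, Subgroup.coe_mul, Subgroup.coe_inv]
      exact h3
    have h5 := q.out_eq'
    have h6 := q'.out_eq'
    exact h5.symm.trans (h4.symm.trans h6)
  have hzero : ∀ v : V, (∀ q : Q', cq' q ≠ v) → T v = 0 := by
    intro v hv
    refine hT0 v v.2 fun t ht h => ?_
    let q : Q' := QuotientGroup.mk (⟨t, ht⟩⁻¹ : Tg V γ)
    refine hv q ?_
    have h1 : (QuotientGroup.mk (q.out : Tg V γ) : Q') =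
        QuotientGroup.mk (⟨t, ht⟩⁻¹ : Tg V γ) := q.out_eq'
    have h2 := QuotientGroup.eq.1 h1
    rw [Subgroup.mem_subgroupOf, Subgroup.coe_mul, Subgroup.coe_inv, Subgroup.coe_inv] at h2
    have h3 : y * (((q.out : Tg V γ) : G)⁻¹ * t⁻¹) = (((q.out : Tg V γ) : G)⁻¹ * t⁻¹) * y :=
      Subgroup.mem_centralizer_iff.1 h2 y (Set.mem_singleton _)
    have h4 : y ^ j * (((q.out : Tg V γ) : G)⁻¹ * t⁻¹) =
        (((q.out : Tg V γ) : G)⁻¹ * t⁻¹) * y ^ j := (Commute.pow_left h3 j).eq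
    have h5 : (v : G) = t⁻¹ * y ^ j * t := by
      rw [← h]
      group
    change ((q.out : Tg V γ) : G) * y ^ j * ((q.out : Tg V γ) : G)⁻¹ = v
    rw [h5]
    calc ((q.out : Tg V γ) : G) * y ^ j * ((q.out : Tg V γ) : G)⁻¹
        = ((q.out : Tg V γ) : G) * (y ^ j * (((q.out : Tg V γ) : G)⁻¹ * t⁻¹)) * t := by group
      _ = _ := by rw [h4]; group
  have hsum : ∑ v : V, T v = (Fintype.card Q' : ℂ) *
      ((ℓ : ℂ) ^ a * (∑ s, (R s : ℂ) ^ 2 + K * (∑ s, (R s : ℂ)) ^ 2)) := by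
    have h1 : ∑ v : V, T v = ∑ v ∈ Finset.univ.image (fun q : Q' => (⟨cq' q, hcq' q⟩ : V)),
        T v := by
      symm
      refine Finset.sum_subset (Finset.subset_univ _) fun v _ hv => hzero v fun q hq => hv ?_
      rw [Finset.mem_image]
      exact ⟨q, Finset.mem_univ _, Subtype.ext hq⟩
    rw [h1, Finset.sum_image fun q _ q' _ h => hinj (congrArg Subtype.val h)]
    have h2 : ∀ q : Q', T (cq' q) =
        (ℓ : ℂ) ^ a * (∑ s, (R s : ℂ) ^ 2 + K * (∑ s, (R s : ℂ)) ^ 2) := fun q =>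
      hT1 _ (q.out : Tg V γ).2
    rw [Finset.sum_congr rfl fun q _ => h2 q, Finset.sum_const, Finset.card_univ, nsmul_eq_mul]
  -- the indices
  have hcle : Subgroup.centralizer (V : Set G) ≤ Tg V γ ⊓ Cu y := by
    refine le_inf (cen_le hS.ld.gam) ?_
    intro c hc
    refine Subgroup.mem_centralizer_iff.2 ?_
    rintro x hx
    rw [Set.mem_singleton_iff.1 hx]
    exact Subgroup.mem_centralizer_iff.1 hc y hS.mem
  have hidx : m * Fintype.card Q' = ix V γ := by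
    have h1 := Subgroup.relIndex_mul_relIndex (Subgroup.centralizer (V : Set G))
      (Tg V γ ⊓ Cu y) (Tg V γ) hcle inf_le_left
    rw [hS.ind, Subgroup.inf_relIndex_left] at h1
    rw [← Nat.card_eq_fintype_card]
    exact h1
  have hVy : V ≤ Cu y := by
    intro v hv
    refine Subgroup.mem_centralizer_iff.2 ?_
    rintro x hx
    rw [Set.mem_singleton_iff.1 hx]
    exact hab y hS.mem v hv
  have hcard : Nat.card V = ℓ ^ a * (m * K + 1) := by
    rw [card_V hS.qn hVy hS.mem, hS.cd.mul]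
  have hLne : ((m * K + 1 : ℕ) : ℂ) ≠ 0 := Nat.cast_ne_zero.2 (Nat.succ_ne_zero _)
  have hlne : (ℓ : ℂ) ^ a ≠ 0 := pow_ne_zero _ (Nat.cast_ne_zero.2 (Fact.out : ℓ.Prime).ne_zero)
  rw [hcc, hsum, hcard, ← hidx, Nat.cast_mul, Nat.cast_pow, Nat.cast_mul]
  field_simp

end Pool.Agent.PP.T12.H3
end
end -- Pool.Agent.Helper3_AT12.CCY

section -- Pool.Agent.Helper86_AT12.LBC

/-!
# Squad AT12, row LBC: the bound for the number of modular characters
-/

open scoped BigOperators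

set_option autoImplicit false

noncomputable section

namespace Pool.Agent.PP.T12.H86

open Pool.Agent.Helper51_AWC Pool.Agent.Helper79_WRA Pool.Agent.PP Pool.Agent.PP.KF
open Pool.Agent.PP.K9 Pool.Agent.PP.K9.H97 Pool.Agent.PP.H75 Pool.Agent.PP.T3 Pool.Agent.PP.T2
open Pool.Agent.PP.T8 Pool.Agent.PP.T12

attribute [local instance] Ideal.Quotient.field

theorem lbc (cst : T12.CstStmt) (syx : T12.SyxStmt) (co2 : T12.Co2Stmt) (crg : T12.CrgStmt)
    (lbz : T12.LbzStmt) (fx1 : T12.Fx1Stmt) (lb8 : T8.Lb8Stmt) (xct : T8.XctStmt)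
    (dat : T8.DatStmt) (pr2 : T2.Pr2Stmt) : T12.LbcStmt := by
  intro ℓ _ M _ hM hl2 G _ _ e V γ ld hexp hcard hgen
  have hF : GoodF ℓ (FF M) := H50.fld ℓ Fact.out M hM
  have hlp : ℓ.Prime := Fact.out
  have hix : ¬ ℓ ∣ ix V γ :=
    K9.H34.inx ℓ M hM G e ld.blk V ld.tp ld.ab γ ld.gam.supp ld.gam.blk ld.und
  rcases cst ℓ (FF M) hF G e V γ ld hix hexp hcard hgen with ⟨y, hy⟩ | ⟨y, w, m, hcs⟩
  · obtain ⟨x0, y0, hV⟩ := hgen
    have h1 : Nat.card V ≤ ℓ * ℓ * Nat.card (Uw ℓ V) := T8.H77.card_two ld.ab hV hlp.pos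
    have h2 := xct ℓ (FF M) hF G e V γ ld hix 2 1 one_pos one_le_two hexp y hy
    rw [pow_one] at h2
    refine lb8 ℓ M hM hl2 G e V γ ld 2 1 one_pos one_le_two hexp ⟨y, hy⟩ ?_ ?_
    · calc ix V γ * Nat.card V ≤ ix V γ * (ℓ * ℓ * Nat.card (Uw ℓ V)) :=
            Nat.mul_le_mul_left _ h1
        _ = ℓ ^ (2 * 1) * (ix V γ * Nat.card (Uw ℓ V)) := by ring
        _ ≤ ℓ ^ (2 * 1) * {u | Rg V γ u}.ncard := Nat.mul_le_mul_left _ h2
    · rw [pow_one]
      calc Nat.card V ≤ ℓ * ℓ * Nat.card (Uw ℓ V) := h1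
        _ = ℓ ^ (2 + 1 - 1) * Nat.card (Uw ℓ V) := by norm_num [sq]
  · obtain ⟨N, hN⟩ := pr2 ℓ hl2 G
    obtain ⟨b, d, c, ε, hdat⟩ := dat ℓ M hM G e V γ ld
    obtain ⟨H, iH, fH, β, π, K, g, hsy⟩ := syx ℓ M hM hl2 G e V γ ld y w m hcs
    have hl1 : ¬ ℓ ∣ 1 := fun h => hlp.one_lt.ne' (Nat.dvd_one.1 h)
    have hreg := (crg ℓ (FF M) hF hl2 G e V γ ld y w m hcs).1 1 1 hl1 hl1
    obtain ⟨θ, hθ, hcoh⟩ := co2 ℓ M hM hl2 G H N hN e V γ b d c ε hdat ⟨_, hreg⟩ 2 y β π m K g hsy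
    have hsg : Sg M ℓ N e V γ b d c ε y w β π m K g θ :=
      { odd := hl2, exp := hexp, gs := hN, dat := hdat, cs := hcs, sy := hsy, sgn := hθ,
        coh := hcoh }
    have h1 := lbz ℓ M hM G H N e V γ b d c ε y w β π m K g θ hsg
    have hV : V ≠ ⊥ := by
      rintro rfl
      rw [Subgroup.card_bot] at hcard
      exact (Nat.one_lt_pow (by norm_num) hlp.one_lt).ne hcard
    have h2 := fx1 ℓ M hM G N hN e V γ ld hV
    omega

end Pool.Agent.PP.T12.H86
end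
end -- Pool.Agent.Helper86_AT12.LBC

section -- Pool.Agent.Helper64_AT12.CST

/-! Squad AT12, row CST (helper64): a regular coset, or the structure `Cs`. -/

open scoped BigOperators

noncomputable section

namespace Pool.Agent.PP.T12.H64

open Pool.Agent.Helper51_AWC Pool.Agent.Helper79_WRA Pool.Agent.PP Pool.Agent.PP.KF
open Pool.Agent.PP.K9 Pool.Agent.PP.K9.H97 Pool.Agent.PP.H75 Pool.Agent.PP.T3 Pool.Agent.PP.T2
open Pool.Agent.PP.T8

theorem cst (hC : CpyStmt) : CstStmt := by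
  intro ℓ hℓ F _ hF G _ _ e V γ hL hix hexp hcV hgen
  have hab : ∀ a b : V, a * b = b * a := fun a b => Subtype.ext (hL.ab a a.2 b b.2)
  let _ : CommGroup V := { (inferInstance : Group V) with mul_comm := hab }
  have hTN : Tg V γ ≤ Subgroup.normalizer (V : Set G) := inf_le_left
  let f : Tg V γ →* MulAut V := (V.normalizerMonoidHom).comp (Subgroup.inclusion hTN)
  have hfv : ∀ (t : Tg V γ) (v : V), ((f t v : V) : G) = t * v * (t : G)⁻¹ := fun t v => rfl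
  have hker : ∀ t : Tg V γ, f t = 1 ↔ (t : G) ∈ Subgroup.centralizer (V : Set G) := by
    intro t
    constructor
    · intro h
      rw [Subgroup.mem_centralizer_iff]
      intro v hv
      have h1 : f t ⟨v, hv⟩ = ⟨v, hv⟩ := by rw [h]; rfl
      have h2 := congrArg (fun z : V => (z : G)) h1
      have h3 : (t : G) * v * (t : G)⁻¹ = v := (hfv t ⟨v, hv⟩).symm.trans h2
      calc v * (t : G) = ((t : G) * v * (t : G)⁻¹) * t := by rw [h3]
        _ = t * v := by group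
    · intro h
      ext v
      rw [hfv]
      have h1 := (Subgroup.mem_centralizer_iff.1 h) v v.2
      change (t : G) * v * (t : G)⁻¹ = v
      rw [← h1]
      group
  have hkk : f.ker = (Subgroup.centralizer (V : Set G)).subgroupOf (Tg V γ) := by
    ext t
    rw [MonoidHom.mem_ker, hker, Subgroup.mem_subgroupOf]
  have hcard : Nat.card f.range = ix V γ := by
    rw [← Subgroup.index_ker, hkk]
    rfl
  have hgenV : ∃ x y : V, (⊤ : Subgroup V) = Subgroup.closure {x, y} := by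
    obtain ⟨x, z, hxz⟩ := hgen
    have hx : x ∈ V := by
      rw [hxz]; exact Subgroup.subset_closure (Set.mem_insert _ _)
    have hz : z ∈ V := by
      rw [hxz]; exact Subgroup.subset_closure (Set.mem_insert_of_mem _ rfl)
    refine ⟨⟨x, hx⟩, ⟨z, hz⟩, ?_⟩
    apply Subgroup.map_injective V.subtype_injective
    rw [← MonoidHom.range_eq_map, Subgroup.range_subtype, MonoidHom.map_closure, Set.image_pair]
    exact hxz
  -- conjugation and `f`
  have hfix : ∀ (t : Tg V γ) (v : V), f t v = v ↔ (t : G) * v = v * t := by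
    intro t v
    rw [← Subtype.coe_inj, hfv]
    constructor
    · intro h
      calc (t : G) * v = ((t : G) * v * (t : G)⁻¹) * t := by group
        _ = v * t := by rw [h]
    · intro h
      rw [h]
      group
  rcases hC ℓ V hexp hcV hgenV f.range (by rw [hcard]; exact hix) with
    ⟨y, hy, h⟩ | ⟨y, w, hy, hw, hg, hu, hs, ha, hf, ⟨s₁, hs₁, hs₁n, hs₁y⟩, hd, s₀, hs₀, hs₀y, hc⟩
  · left
    refine ⟨y, y.2, ?_, ?_⟩
    · rw [Subgroup.orderOf_coe]
      exact hy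
    · intro t ht v hv htv
      rw [pow_one] at htv
      exact (hker ⟨t, ht⟩).1 (h _ ⟨⟨t, ht⟩, rfl⟩ ⟨v, hv⟩ (Subtype.ext htv))
  · right
    refine ⟨y, w, (Subgroup.centralizer (V : Set G)).relIndex (Tg V γ ⊓ Cu (y : G)), ?_⟩
    -- the stabiliser of `y`
    have hCy : ∀ t : G, t ∈ Cu (y : G) ↔ t * y = y * t := by
      intro t
      rw [Subgroup.mem_centralizer_singleton_iff]
    have hfp : ∀ (t : Tg V γ) (v : V) (k : ℕ), f t (v ^ k) = v ^ k ↔
        (t : G) * (v : G) ^ k = (v : G) ^ k * t := by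
      intro t v k
      rw [hfix]
      simp only [SubmonoidClass.coe_pow]
    let g : (Tg V γ ⊓ Cu (y : G) : Subgroup G) →* MulAut V := f.comp (Subgroup.inclusion inf_le_left)
    have hgk : g.ker = (Subgroup.centralizer (V : Set G)).subgroupOf (Tg V γ ⊓ Cu (y : G)) := by
      ext t
      rw [MonoidHom.mem_ker, Subgroup.mem_subgroupOf]
      exact hker ⟨t, t.2.1⟩
    have hgr : ∀ s : MulAut V, s ∈ g.range ↔ s ∈ f.range ∧ s y = y := by
      intro s
      constructor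
      · rintro ⟨t, rfl⟩
        refine ⟨⟨⟨t, t.2.1⟩, rfl⟩, ?_⟩
        exact (hfix ⟨t, t.2.1⟩ y).2 ((hCy t).1 t.2.2)
      · rintro ⟨⟨t, rfl⟩, h⟩
        exact ⟨⟨t, t.2, (hCy t).2 ((hfix t y).1 h)⟩, rfl⟩
    have hgc : Nat.card g.range =
        (Subgroup.centralizer (V : Set G)).relIndex (Tg V γ ⊓ Cu (y : G)) := by
      rw [← Subgroup.index_ker, hgk]
      rfl
    have hgc' : Nat.card {s : MulAut V // s ∈ f.range ∧ s y = y} = Nat.card g.range :=
      Nat.card_congr (Equiv.subtypeEquivRight fun s => (hgr s).symm)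
    refine ⟨y.2, w.2, hcV, ?_, ?_, ?_, ?_, ?_, ?_, ?_, rfl, ?_, ?_, ?_⟩
    · rw [Subgroup.orderOf_coe]
      exact hy
    · rw [Subgroup.orderOf_coe]
      exact hw
    · intro v hv
      obtain ⟨i, k, h⟩ := hg ⟨v, hv⟩
      exact ⟨i, k, congrArg Subtype.val h⟩
    · intro i i' k k' h
      exact hu i i' k k' (Subtype.ext h)
    · intro t ht v hv htv
      exact (hfix ⟨t, ht⟩ y).1 (hs _ ⟨⟨t, ht⟩, rfl⟩ ⟨v, hv⟩ (Subtype.ext htv))
    · intro t ht hty
      obtain ⟨μ, hμ⟩ := ha _ ⟨⟨t, ht⟩, rfl⟩ ((hfix ⟨t, ht⟩ y).2 hty)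
      exact ⟨μ, congrArg Subtype.val hμ⟩
    · intro t ht hty k hk htk
      exact (hker ⟨t, ht⟩).1 (hf _ ⟨⟨t, ht⟩, rfl⟩ ((hfix ⟨t, ht⟩ y).2 hty) k hk
        ((hfp ⟨t, ht⟩ w k).2 htk))
    · rw [← hgc]
      have h1 : g.range ≠ ⊥ := by
        intro h
        have h2 : s₁ ∈ g.range := (hgr s₁).2 ⟨hs₁, hs₁y⟩
        rw [h] at h2
        exact hs₁n (Subgroup.mem_bot.1 h2)
      exact (Subgroup.one_lt_card_iff_ne_bot _).2 h1
    · rw [← hgc, ← hgc']
      exact hd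
    · obtain ⟨t₀, rfl⟩ := hs₀
      refine ⟨t₀, ⟨t₀.2, (hCy t₀).2 ((hfix t₀ y).1 hs₀y)⟩, ?_⟩
      intro t ht
      obtain ⟨k, hk⟩ := hc _ ⟨⟨t, ht.1⟩, rfl⟩ ((hfix ⟨t, ht.1⟩ y).2 ((hCy t).1 ht.2))
      refine ⟨k, ?_⟩
      rw [← map_pow, ← map_mul] at hk
      exact (hker _).1 hk

end Pool.Agent.PP.T12.H64
end
end -- Pool.Agent.Helper64_AT12.CST
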