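import Pool.Agent.Helper12_AWB.B123
import Pool.Agent.Helper12_AWB.B174
import Pool.Agent.Helper12_AWB.B181

/-!
# Merged copies (generated) of the modules

* `Pool.Agent.Helper21_AT8.RVA`
* `Pool.Agent.Helper21_AT8.RVC`
* `Pool.Agent.Helper21_AT8.SER`
* `Pool.Agent.Helper53_AT8.FCH`
* `Pool.Agent.Helper68_AT8.FNZ`
* `Pool.Agent.Helper95_AT8.AVB`
* `Pool.Agent.Helper32_AT12.SE2`
* `Pool.Agent.Helper77_ATZ.UWA`
* `Pool.Agent.Helper31_ATZ.AVZ`
* `Pool.Agent.Helper61_ATW.AVP`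
* `Pool.Agent.Helper56_AT6.CNA`
-/

set_option autoImplicit false

section -- Pool.Agent.Helper21_AT8.RVA

/-!
# RVA: the ring of the combinations of linear characters
-/

set_option autoImplicit false
set_option linter.unusedSectionVars false
set_option linter.style.haveILetI false

open scoped BigOperators

noncomputable section

namespace Pool.Agent.PP.T8.H21

open Pool.Agent.Helper51_AWC Pool.Agent.Helper79_WRA Pool.Agent.PP Pool.Agent.PP.KF
open Pool.Agent.PP.K9 Pool.Agent.PP.K9.H97 Pool.Agent.PP.H75 Pool.Agent.PP.T3 Pool.Agent.PP.T2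

attribute [local instance] Ideal.Quotient.field

section four

variable {V : Type} [Group V] [Finite V]

/-- the coefficient of `lam` -/
def cf (f : V → ℂ) (lam : V →* ℂ) : ℂ := (Nat.card V : ℂ)⁻¹ * ∑ᶠ v : V, f v * lam v⁻¹

theorem cardC_ne : (Nat.card V : ℂ) ≠ 0 := by
  have : 0 < Nat.card V := Nat.card_pos
  exact_mod_cast this.ne'

theorem lam_pow (lam : V →* ℂ) (v : V) : lam v ^ Nat.card V = 1 := by
  rw [← map_pow, pow_card_eq_one', map_one]

theorem lam_integral (lam : V →* ℂ) (v : V) : IsIntegral ℤ (lam v) := by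
  refine IsIntegral.of_pow (n := Nat.card V) Nat.card_pos ?_
  rw [lam_pow]
  exact isIntegral_one

theorem lam_inv (lam : V →* ℂ) (v : V) : lam v * lam v⁻¹ = 1 := by
  rw [← map_mul, mul_inv_cancel, map_one]

/-- the homomorphisms `V → ℂ` form a finite type -/
theorem finite_hom : Finite (V →* ℂ) := by
  classical
  haveI := Fintype.ofFinite V
  haveI : NeZero (Nat.card V) := ⟨Nat.card_pos.ne'⟩
  haveI : Finite (rootsOfUnity (Nat.card V) ℂ) := inferInstance
  refine Finite.of_injective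
    (fun (lam : V →* ℂ) (v : V) => (⟨Units.mk0 (lam v) (by
      intro h
      have := lam_inv lam v
      rw [h, zero_mul] at this
      exact zero_ne_one this), by
      rw [mem_rootsOfUnity]
      ext
      push_cast
      exact lam_pow lam v⟩ : rootsOfUnity (Nat.card V) ℂ)) ?_
  intro l l' h
  ext v
  have := congrFun h v
  have h2 := congrArg (fun x : rootsOfUnity (Nat.card V) ℂ => ((x : ℂˣ) : ℂ)) this
  exact h2

/-- column orthogonality -/
theorem sum_lam (hV : ∀ a b : V, a * b = b * a) (x : V) [Fintype (V →* ℂ)] [Decidable (x = 1)] :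
    ∑ lam : V →* ℂ, lam x = if x = 1 then (Nat.card V : ℂ) else 0 := by
  classical
  letI : CommGroup V := { (inferInstance : Group V) with mul_comm := hV }
  haveI : NeZero (Monoid.exponent V) := ⟨Monoid.exponent_ne_zero_of_finite⟩
  haveI : HasEnoughRootsOfUnity ℂ (Monoid.exponent V) := inferInstance
  have hcard : Fintype.card (V →* ℂ) = Nat.card V := by
    obtain ⟨e⟩ := CommGroup.monoidHom_mulEquiv_of_hasEnoughRootsOfUnity V ℂ
    have e2 : (V →* ℂ) ≃ (V →* ℂˣ) := (MonoidHom.toHomUnitsMulEquiv (G := V) (M := ℂ)).toEquiv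
    rw [← Nat.card_eq_fintype_card, Nat.card_congr e2, Nat.card_congr e.toEquiv]
  by_cases hx : x = 1
  · rw [if_pos hx, hx]
    simp only [map_one, Finset.sum_const, Finset.card_univ, nsmul_eq_mul, mul_one, hcard]
  · rw [if_neg hx]
    obtain ⟨phi, hphi⟩ := CommGroup.exists_apply_ne_one_of_hasEnoughRootsOfUnity V ℂ hx
    set mu : V →* ℂ := (Units.coeHom ℂ).comp phi with hmu
    have hmx : mu x ≠ 1 := by
      intro h
      apply hphi
      ext
      simpa [hmu] using h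
    have h1 : mu x * ∑ lam : V →* ℂ, lam x = ∑ lam : V →* ℂ, lam x := by
      rw [Finset.mul_sum]
      refine Fintype.sum_bijective (fun lam => mu * lam) ?_ _ _ fun lam => by
        rw [MonoidHom.mul_apply]
      refine Function.bijective_iff_has_inverse.2 ⟨fun lam => ((Units.coeHom ℂ).comp phi⁻¹) * lam,
        fun lam => ?_, fun lam => ?_⟩
      · ext v
        simp [hmu]
      · ext v
        simp [hmu]
    have h2 : (mu x - 1) * ∑ lam : V →* ℂ, lam x = 0 := by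
      rw [sub_mul, h1, one_mul, sub_self]
    exact (mul_eq_zero.1 h2).resolve_left (sub_ne_zero.2 hmx)

theorem cf_eq [Fintype V] (f : V → ℂ) (lam : V →* ℂ) :
    cf f lam = (Nat.card V : ℂ)⁻¹ * ∑ v : V, f v * lam v⁻¹ := by
  unfold cf
  rw [finsum_eq_sum_of_fintype]

/-- Fourier inversion -/
theorem inversion (hV : ∀ a b : V, a * b = b * a) [Fintype (V →* ℂ)] (f : V → ℂ) (v : V) :
    f v = ∑ lam : V →* ℂ, cf f lam * lam v := by
  classical
  haveI := Fintype.ofFinite V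
  have h1 : ∑ lam : V →* ℂ, cf f lam * lam v =
      (Nat.card V : ℂ)⁻¹ * ∑ w : V, f w * ∑ lam : V →* ℂ, lam (w⁻¹ * v) := by
    simp only [cf_eq, Finset.mul_sum, Finset.sum_mul]
    rw [Finset.sum_comm]
    refine Finset.sum_congr rfl fun w _ => Finset.sum_congr rfl fun lam _ => ?_
    rw [map_mul]
    ring
  rw [h1]
  simp only [sum_lam hV]
  have h2 : ∀ w : V, (f w * if w⁻¹ * v = 1 then (Nat.card V : ℂ) else 0) =
      if w = v then f w * (Nat.card V : ℂ) else 0 := by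
    intro w
    by_cases h : w = v
    · rw [if_pos h, if_pos (by rw [h, inv_mul_cancel])]
    · rw [if_neg h, if_neg (by
        intro h3
        exact h (inv_mul_eq_one.1 h3)), mul_zero]
  simp only [h2]
  rw [Finset.sum_ite_eq' Finset.univ v, if_pos (Finset.mem_univ v)]
  have := cardC_ne (V := V)
  field_simp

/-- row orthogonality -/
theorem cf_const (a : ℂ) (lam : V →* ℂ) : cf (fun _ => a) lam = a ∨ cf (fun _ => a) lam = 0 := by
  classical
  haveI := Fintype.ofFinite V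
  rw [cf_eq, ← Finset.mul_sum]
  by_cases h : ∃ w, lam w ≠ 1
  · right
    obtain ⟨w, hw⟩ := h
    have h1 : lam w * ∑ v : V, lam v⁻¹ = ∑ v : V, lam v⁻¹ := by
      rw [Finset.mul_sum]
      refine Fintype.sum_bijective (fun v => v * w⁻¹) (Group.mulRight_bijective w⁻¹) _ _
        fun v => ?_
      rw [← map_mul, mul_inv_rev, inv_inv]
    have h2 : (lam w - 1) * ∑ v : V, lam v⁻¹ = 0 := by
      rw [sub_mul, h1, one_mul, sub_self]
    rw [(mul_eq_zero.1 h2).resolve_left (sub_ne_zero.2 hw), mul_zero, mul_zero]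
  · left
    push Not at h
    simp only [h, Finset.sum_const, Finset.card_univ, nsmul_eq_mul, mul_one]
    rw [← Nat.card_eq_fintype_card]
    have := cardC_ne (V := V)
    field_simp

/-- the inverse of a linear character -/
def dv (mu : V →* ℂ) : V →* ℂ where
  toFun v := mu v⁻¹
  map_one' := by rw [inv_one, map_one]
  map_mul' a b := by rw [mul_inv_rev, map_mul, mul_comm]

theorem cf_mul (hV : ∀ a b : V, a * b = b * a) [Fintype (V →* ℂ)] (f g : V → ℂ) (lam : V →* ℂ) :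
    cf (fun v => f v * g v) lam = ∑ mu : V →* ℂ, cf f mu * cf g (lam * dv mu) := by
  classical
  haveI := Fintype.ofFinite V
  have h1 : ∀ mu : V →* ℂ, cf g (lam * dv mu) =
      (Nat.card V : ℂ)⁻¹ * ∑ v : V, g v * (lam v⁻¹ * mu v) := by
    intro mu
    rw [cf_eq]
    congr 1
    refine Finset.sum_congr rfl fun v _ => ?_
    rw [MonoidHom.mul_apply]
    congr 2
    show mu (v⁻¹)⁻¹ = mu v
    rw [inv_inv]
  simp only [h1]
  rw [cf_eq]
  have h2 : ∀ v : V, f v * g v * lam v⁻¹ =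
      ∑ mu : V →* ℂ, cf f mu * (g v * (lam v⁻¹ * mu v)) := by
    intro v
    conv_lhs => rw [inversion hV f v]
    rw [Finset.sum_mul, Finset.sum_mul]
    refine Finset.sum_congr rfl fun mu _ => ?_
    ring
  simp only [h2]
  rw [Finset.sum_comm, Finset.mul_sum]
  refine Finset.sum_congr rfl fun mu _ => ?_
  rw [Finset.mul_sum, Finset.mul_sum, Finset.mul_sum]
  refine Finset.sum_congr rfl fun v _ => ?_
  ring

theorem cf_add (f g : V → ℂ) (lam : V →* ℂ) :
    cf (fun v => f v + g v) lam = cf f lam + cf g lam := by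
  haveI := Fintype.ofFinite V
  simp only [cf_eq]
  rw [← mul_add, ← Finset.sum_add_distrib]
  congr 1
  refine Finset.sum_congr rfl fun v _ => ?_
  ring

end four

variable {M : Ideal (integralClosure ℤ ℂ)} [M.IsMaximal] {G : Type} [Group G] [Finite G]

theorem Rv_iff {V : Subgroup G} {f : G → ℂ} :
    Rv M V f ↔ ∀ lam : V →* ℂ, cf (fun v : V => f v) lam ∈ RM M := Iff.rfl

theorem comm_sub {V : Subgroup G} (hV : ∀ a ∈ V, ∀ b ∈ V, a * b = b * a) (a b : V) :
    a * b = b * a := Subtype.ext (hV a a.2 b b.2)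

theorem Rv_congr {V : Subgroup G} {f g : G → ℂ} (h : ∀ v ∈ V, f v = g v) (hf : Rv M V f) :
    Rv M V g := by
  intro lam
  have h1 := hf lam
  have e : (fun v : V => f v * lam v⁻¹) = fun v : V => g v * lam v⁻¹ := by
    funext v
    rw [h v v.2]
  rw [e] at h1
  exact h1

theorem Rv_val {V : Subgroup G} (hV : ∀ a ∈ V, ∀ b ∈ V, a * b = b * a) {f : G → ℂ}
    (hf : Rv M V f) {v : G} (hv : v ∈ V) : f v ∈ RM M := by
  haveI := finite_hom (V := V)
  haveI := Fintype.ofFinite (V →* ℂ)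
  have h := inversion (comm_sub hV) (fun v : V => f v) ⟨v, hv⟩
  simp only at h
  rw [h]
  exact Subring.sum_mem _ fun lam _ => (RM M).mul_mem (hf lam) (RM_of_int (lam_integral lam _))

/-- conjugation with an element of the normaliser -/
def cj {V : Subgroup G} {t : G} (ht : t ∈ Subgroup.normalizer (V : Set G)) : V ≃ V where
  toFun v := ⟨t * v * t⁻¹, (Subgroup.mem_normalizer_iff.1 ht v).1 v.2⟩
  invFun v := ⟨t⁻¹ * v * t, by
    have h := Subgroup.mem_normalizer_iff.1 (inv_mem ht) v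
    rw [inv_inv] at h
    exact h.1 v.2⟩
  left_inv v := by
    ext
    simp [mul_assoc]
  right_inv v := by
    ext
    simp [mul_assoc]

theorem rva : RvaStmt := by
  intro M _ G _ _ V hV
  haveI := finite_hom (V := V)
  haveI := Fintype.ofFinite (V →* ℂ)
  refine ⟨fun a ha lam => ?_, fun f g hf hg => ⟨fun lam => ?_, fun lam => ?_⟩, fun f hf lam => ?_,
    fun f hf v hv => Rv_val hV hf hv, fun f hf t ht lam => ?_, fun f g h hf => Rv_congr h hf⟩
  · rcases cf_const (V := V) a lam with h | h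
    · have h1 : cf (fun _ : V => a) lam ∈ RM M := by rw [h]; exact ha
      exact h1
    · have h1 : cf (fun _ : V => a) lam ∈ RM M := by rw [h]; exact (RM M).zero_mem
      exact h1
  · have h1 : cf (fun v : V => f v + g v) lam ∈ RM M := by
      rw [cf_add (fun v : V => f v) (fun v : V => g v)]
      exact (RM M).add_mem (hf lam) (hg lam)
    exact h1
  · have h1 : cf (fun v : V => f v * g v) lam ∈ RM M := by
      rw [cf_mul (comm_sub hV) (fun v : V => f v) (fun v : V => g v)]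
      exact Subring.sum_mem _ fun mu _ => (RM M).mul_mem (hf mu) (hg _)
    exact h1
  · have h1 : cf (fun v : V => (Nat.card V : ℂ) * f v) lam ∈ RM M := by
      haveI := Fintype.ofFinite V
      have e : cf (fun v : V => (Nat.card V : ℂ) * f v) lam = ∑ v : V, f v * lam v⁻¹ := by
        rw [cf_eq]
        have e1 : ∀ v : V, (Nat.card V : ℂ) * f v * lam v⁻¹ =
            (Nat.card V : ℂ) * (f v * lam v⁻¹) := fun v => by ring
        simp only [e1]
        rw [← Finset.mul_sum, ← mul_assoc, inv_mul_cancel₀ (cardC_ne (V := V)), one_mul]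
      rw [e]
      exact Subring.sum_mem _ fun v _ => (RM M).mul_mem (hf v v.2)
        (RM_of_int (lam_integral lam _))
    exact h1
  · set lam' : V →* ℂ :=
      { toFun := fun v => lam ((cj ht).symm v)
        map_one' := by
          have e : (cj ht).symm 1 = 1 := by
            ext
            simp [cj]
          rw [e, map_one]
        map_mul' := by
          intro a b
          have e : (cj ht).symm (a * b) = (cj ht).symm a * (cj ht).symm b := by
            ext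
            simp [cj, mul_assoc]
          rw [e, map_mul] } with hl
    have h1 := hf lam'
    haveI := Fintype.ofFinite V
    have e : cf (fun v : V => f (t * v * t⁻¹)) lam = cf (fun v : V => f v) lam' := by
      rw [cf_eq, cf_eq]
      congr 1
      refine Fintype.sum_equiv (cj ht) _ _ fun v => ?_
      have e2 : (cj ht).symm (cj ht v)⁻¹ = v⁻¹ := by
        ext
        simp [cj, mul_assoc]
      show f (t * v * t⁻¹) * lam v⁻¹ = f (cj ht v) * lam ((cj ht).symm (cj ht v)⁻¹)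
      rw [e2]
      rfl
    have h2 : cf (fun v : V => f (t * v * t⁻¹)) lam ∈ RM M := by
      rw [e]
      exact h1
    exact h2

end Pool.Agent.PP.T8.H21
end
end -- Pool.Agent.Helper21_AT8.RVA

section -- Pool.Agent.Helper21_AT8.RVC

/-!
# RVC: congruences between the values
-/

set_option autoImplicit false
set_option linter.unusedSectionVars false
set_option linter.style.haveILetI false

open scoped BigOperators

noncomputable section

namespace Pool.Agent.PP.T8.H21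

open Pool.Agent.Helper51_AWC Pool.Agent.Helper79_WRA Pool.Agent.PP Pool.Agent.PP.KF
open Pool.Agent.PP.K9 Pool.Agent.PP.K9.H97 Pool.Agent.PP.H75 Pool.Agent.PP.T3 Pool.Agent.PP.T2

attribute [local instance] Ideal.Quotient.field

theorem one_sub_pow' (z : ℂ) (k : ℕ) : 1 - z ^ k = (1 - z) * ∑ i ∈ Finset.range k, z ^ i :=
  (mul_neg_geom_sum z k).symm

theorem geom_integral {z : ℂ} (hz : IsIntegral ℤ z) (k : ℕ) :
    IsIntegral ℤ (∑ i ∈ Finset.range k, z ^ i) :=
  IsIntegral.sum _ fun i _ => hz.pow i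

theorem prod_primitive {ℓ : ℕ} [Fact ℓ.Prime] {A : ℕ} (hA : 0 < A) {ζ : ℂ}
    (hζ : IsPrimitiveRoot ζ (ℓ ^ A)) :
    ∏ μ ∈ primitiveRoots (ℓ ^ A) ℂ, (1 - μ) = (ℓ : ℂ) := by
  obtain ⟨k, rfl⟩ : ∃ k, A = k + 1 := ⟨A - 1, by omega⟩
  have h1 := Polynomial.eval_one_cyclotomic_prime_pow (R := ℂ) (p := ℓ) k
  rw [Polynomial.cyclotomic_eq_prod_X_sub_primitiveRoots hζ, Polynomial.eval_prod] at h1
  rw [← h1]
  refine Finset.prod_congr rfl fun μ _ => ?_
  simp

theorem pow_eq_l {ℓ : ℕ} [Fact ℓ.Prime] {A : ℕ} (hA : 0 < A) {ζ : ℂ}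
    (hζ : IsPrimitiveRoot ζ (ℓ ^ A)) :
    ∃ c : ℂ, IsIntegral ℤ c ∧ (1 - ζ) ^ (primitiveRoots (ℓ ^ A) ℂ).card = (ℓ : ℂ) * c := by
  classical
  have hpos : 0 < ℓ ^ A := pow_pos (Fact.out : ℓ.Prime).pos A
  haveI : NeZero (ℓ ^ A) := ⟨hpos.ne'⟩
  have key : ∀ μ ∈ primitiveRoots (ℓ ^ A) ℂ, ∃ c : ℂ, IsIntegral ℤ c ∧
      1 - ζ = (1 - μ) * c := by
    intro μ hμ
    have h1 : IsPrimitiveRoot μ (ℓ ^ A) := (mem_primitiveRoots hpos).1 hμ
    obtain ⟨j, -, hj⟩ := h1.eq_pow_of_pow_eq_one hζ.pow_eq_one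
    exact ⟨_, geom_integral (h1.isIntegral hpos) j, by rw [← hj, one_sub_pow']⟩
  choose! c hc1 hc2 using key
  refine ⟨∏ μ ∈ primitiveRoots (ℓ ^ A) ℂ, c μ, IsIntegral.prod _ hc1, ?_⟩
  rw [← prod_primitive hA hζ, ← Finset.prod_mul_distrib, ← Finset.prod_const]
  exact Finset.prod_congr rfl hc2

theorem rvc : RvcStmt := by
  intro ℓ hℓ M hM hlM A hA ζ hζ
  have hpos : 0 < ℓ ^ A := pow_pos (Fact.out : ℓ.Prime).pos A
  haveI : NeZero (ℓ ^ A) := ⟨hpos.ne'⟩
  have hζi : IsIntegral ℤ ζ := hζ.isIntegral hpos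
  have h1 : (1 - ζ) ∈ RM M := RM_of_int (isIntegral_one.sub hζi)
  obtain ⟨c, hc, hc2⟩ := pow_eq_l hA hζ
  set m := (primitiveRoots (ℓ ^ A) ℂ).card with hm
  have hm0 : m ≠ 0 := by
    rw [hm]
    exact (Finset.card_pos.2 ⟨ζ, (mem_primitiveRoots hpos).2 hζ⟩).ne'
  have hK : (1 - ζ) ^ (m * A) = (ℓ : ℂ) ^ A * c ^ A := by
    rw [pow_mul, hc2, mul_pow]
  refine ⟨h1, ?_, ⟨m * A, c ^ A, RM_of_int (hc.pow A), hK⟩, ?_⟩
  · have h2 : rr M ((1 - ζ) ^ m) = rr M (1 - ζ) ^ m :=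
      map_pow (rrHom M) ⟨1 - ζ, h1⟩ m
    have h3 : rr M (ℓ : ℂ) = 0 := by
      have := (dvd_of_rr (M := M) (Fact.out : ℓ.Prime) hlM (n := (ℓ : ℤ))).2 dvd_rfl
      exact_mod_cast this
    rw [hc2, rr_mul (rr_nat ℓ).1 (RM_of_int hc), h3, zero_mul] at h2
    exact (pow_eq_zero_iff hm0).1 h2.symm
  · intro G _ _ V hV hcard f hf v hv
    haveI := finite_hom (V := V)
    haveI := Fintype.ofFinite (V →* ℂ)
    have key : ∀ lam : V →* ℂ, ∃ c : ℂ, IsIntegral ℤ c ∧ lam ⟨v, hv⟩ - 1 = (1 - ζ) * c := by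
      intro lam
      have h2 := lam_pow lam ⟨v, hv⟩
      rw [hcard] at h2
      obtain ⟨j, -, hj⟩ := hζ.eq_pow_of_pow_eq_one h2
      refine ⟨-∑ i ∈ Finset.range j, ζ ^ i, (geom_integral hζi j).neg, ?_⟩
      rw [mul_neg, ← one_sub_pow', hj]
      ring
    choose d hd1 hd2 using key
    refine ⟨∑ lam : V →* ℂ, cf (fun v : V => f v) lam * d lam, Subring.sum_mem _ fun lam _ =>
      (RM M).mul_mem (hf lam) (RM_of_int (hd1 lam)), ?_⟩
    have h3 := inversion (comm_sub hV) (fun v : V => f v) ⟨v, hv⟩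
    have h4 := inversion (comm_sub hV) (fun v : V => f v) 1
    simp only at h3
    have h5 : f ((1 : V) : G) = f 1 := rfl
    simp only [map_one, mul_one] at h4
    rw [h5] at h4
    rw [h3, h4, ← Finset.sum_sub_distrib, Finset.mul_sum]
    refine Finset.sum_congr rfl fun lam _ => ?_
    rw [mul_left_comm, ← hd2]
    ring

end Pool.Agent.PP.T8.H21
end
end -- Pool.Agent.Helper21_AT8.RVC

section -- Pool.Agent.Helper21_AT8.SER

/-!
# SER: the square root
-/

set_option autoImplicit false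
set_option linter.unusedSectionVars false
set_option linter.style.haveILetI false

open scoped BigOperators

noncomputable section

namespace Pool.Agent.PP.T8.H21

open Pool.Agent.Helper51_AWC Pool.Agent.Helper79_WRA Pool.Agent.PP Pool.Agent.PP.KF
open Pool.Agent.PP.K9 Pool.Agent.PP.K9.H97 Pool.Agent.PP.H75 Pool.Agent.PP.T3 Pool.Agent.PP.T2

attribute [local instance] Ideal.Quotient.field

variable {M : Ideal (integralClosure ℤ ℂ)} [hM : M.IsMaximal] {G : Type} [Group G] [Finite G]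

variable (M) in
/-- the ring of the functions in `Rv` -/
def RvS (V : Subgroup G) (hV : ∀ a ∈ V, ∀ b ∈ V, a * b = b * a) : Subring (G → ℂ) where
  carrier := {f | Rv M V f}
  one_mem' := (rva M G V hV).1 1 (RM M).one_mem
  zero_mem' := (rva M G V hV).1 0 (RM M).zero_mem
  add_mem' := fun {f g} hf hg => ((rva M G V hV).2.1 f g hf hg).1
  mul_mem' := fun {f g} hf hg => ((rva M G V hV).2.1 f g hf hg).2
  neg_mem' := by
    intro f hf
    have h1 := (rva M G V hV).1 (-1) ((RM M).neg_mem (RM M).one_mem)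
    have h2 := ((rva M G V hV).2.1 _ f h1 hf).2
    have e : (fun x => -1 * f x) = -f := by
      funext x
      simp
    rw [e] at h2
    exact h2

theorem newton {V : Subgroup G} (hV : ∀ a ∈ V, ∀ b ∈ V, a * b = b * a) {h : G → ℂ}
    (hh : Rv M V h) {w : ℂ} (hw : w ∈ RM M) (hhw : ∀ v ∈ V, ∃ r ∈ RM M, h v = w * r)
    (h2 : (2 : ℂ)⁻¹ ∈ RM M) (j : ℕ) : ∃ P Q : G → ℂ, Rv M V P ∧ Rv M V Q ∧
      (∀ v ∈ V, P v ^ 2 * (1 + h v) = 1 + h v ^ (2 ^ j) * Q v) ∧
      (∀ v ∈ V, ∃ r ∈ RM M, P v = 1 + w * r) ∧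
      ∀ N : ℕ, (∀ v ∈ V, h (v ^ N) = h v) → ∀ v ∈ V, P (v ^ N) = P v ∧ Q (v ^ N) = Q v := by
  induction j with
  | zero =>
    refine ⟨fun _ => 1, fun _ => 1, (RvS M V hV).one_mem, (RvS M V hV).one_mem, fun v _ => ?_,
      fun v _ => ⟨0, (RM M).zero_mem, by ring⟩, fun N _ v _ => ⟨rfl, rfl⟩⟩
    simp
  | succ j ih =>
    obtain ⟨P, Q, hP, hQ, h3, h4, h5⟩ := ih
    have hc : (fun _ : G => (2 : ℂ)⁻¹) ∈ RvS M V hV := (rva M G V hV).1 _ h2
    have hP' : P ∈ RvS M V hV := hP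
    have hQ' : Q ∈ RvS M V hV := hQ
    have hh' : h ∈ RvS M V hV := hh
    set c : G → ℂ := fun _ : G => (2 : ℂ)⁻¹ with hcdef
    have hx : h ^ (2 ^ j) * Q ∈ RvS M V hV :=
      (RvS M V hV).mul_mem ((RvS M V hV).pow_mem hh' _) hQ'
    refine ⟨P * (1 - h ^ (2 ^ j) * Q * c), Q ^ 2 * (h ^ (2 ^ j) * Q - 3) * c * c, ?_, ?_,
      fun v hv => ?_, fun v hv => ?_, fun N hN v hv => ?_⟩
    · exact (RvS M V hV).mul_mem hP' ((RvS M V hV).sub_mem (RvS M V hV).one_mem
        ((RvS M V hV).mul_mem hx hc))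
    · refine (RvS M V hV).mul_mem ((RvS M V hV).mul_mem ((RvS M V hV).mul_mem
        ((RvS M V hV).pow_mem hQ' _) ((RvS M V hV).sub_mem hx ?_)) hc) hc
      exact natCast_mem (RvS M V hV) 3
    · have h6 := h3 v hv
      simp only [Pi.mul_apply, Pi.sub_apply, Pi.one_apply, Pi.pow_apply, hcdef]
      have e3 : (3 : G → ℂ) v = 3 := rfl
      rw [e3, pow_succ 2 j, pow_mul (h v)]
      set x := h v ^ 2 ^ j
      linear_combination (1 - x * Q v * (2 : ℂ)⁻¹) ^ 2 * h6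
    · obtain ⟨r, hr, hPr⟩ := h4 v hv
      obtain ⟨r', hr', hhr⟩ := hhw v hv
      have hhv : h v ∈ RM M := Rv_val hV hh hv
      have hQv : Q v ∈ RM M := Rv_val hV hQ hv
      have hPv : P v ∈ RM M := Rv_val hV hP hv
      have e1 : h v ^ (2 ^ j) = w * (r' * h v ^ (2 ^ j - 1)) := by
        have h7 : 2 ^ j = (2 ^ j - 1) + 1 := by
          have := Nat.one_le_two_pow (n := j)
          omega
        conv_lhs => rw [h7, pow_succ]
        rw [show h v ^ (2 ^ j - 1) * h v = h v ^ (2 ^ j - 1) * (w * r') by rw [← hhr]]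
        ring
      refine ⟨r - P v * (r' * h v ^ (2 ^ j - 1)) * Q v * (2 : ℂ)⁻¹, ?_, ?_⟩
      · refine (RM M).sub_mem hr ((RM M).mul_mem ((RM M).mul_mem ((RM M).mul_mem hPv
          ((RM M).mul_mem hr' ((RM M).pow_mem hhv _))) hQv) h2)
      · simp only [Pi.mul_apply, Pi.sub_apply, Pi.one_apply, Pi.pow_apply, hcdef]
        rw [e1]
        linear_combination hPr
    · have h6 := h5 N hN v hv
      simp only [Pi.mul_apply, Pi.sub_apply, Pi.one_apply, Pi.pow_apply, hcdef]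
      rw [h6.1, h6.2, hN v hv]
      exact ⟨rfl, rfl⟩

theorem int_unit {ℓ : ℕ} [Fact ℓ.Prime] (hlM : (ℓ : integralClosure ℤ ℂ) ∈ M) {n : ℤ}
    (hn : ¬ (ℓ : ℤ) ∣ n) : rr M (n : ℂ) ≠ 0 ∧ ((n : ℂ))⁻¹ ∈ RM M ∧ (n : ℂ) ≠ 0 := by
  have h1 : rr M (n : ℂ) ≠ 0 := fun h => hn ((dvd_of_rr (M := M) (Fact.out : ℓ.Prime) hlM).1 h)
  exact ⟨h1, inv_RM (rr_int n).1 h1⟩

theorem l_dvd {ℓ : ℕ} [Fact ℓ.Prime] {A : ℕ} (hA : 0 < A) {ζ : ℂ}
    (hζ : IsPrimitiveRoot ζ (ℓ ^ A)) : ∃ c ∈ RM M, (ℓ : ℂ) = (1 - ζ) * c := by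
  classical
  have hpos : 0 < ℓ ^ A := pow_pos (Fact.out : ℓ.Prime).pos A
  refine ⟨∏ μ ∈ (primitiveRoots (ℓ ^ A) ℂ).erase ζ, (1 - μ), ?_, ?_⟩
  · refine Subring.prod_mem _ fun μ hμ => RM_of_int (isIntegral_one.sub ?_)
    exact ((mem_primitiveRoots hpos).1 (Finset.mem_of_mem_erase hμ)).isIntegral hpos
  · rw [Finset.mul_prod_erase _ (fun μ => 1 - μ) ((mem_primitiveRoots hpos).2 hζ),
      prod_primitive hA hζ]

theorem ser : SerStmt := by
  classical
  intro ℓ hℓ M hM hlM hl2 G _ _ V hp hV g hg X R n hn hX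
  obtain ⟨A, hcard⟩ := IsPGroup.iff_card.1 hp
  have hnl := int_unit (M := M) hlM hn
  have hRl : ∀ y ∈ X, ¬ (ℓ : ℤ) ∣ R y := by
    intro y hy h
    have h1 := (hX y hy).2.2
    exact hn ((Int.dvd_iff_dvd_of_dvd_sub h1).1 h)
  have hR := fun y hy => int_unit (M := M) hlM (hRl y hy)
  -- the case of an empty set
  rcases X.eq_empty_or_nonempty with hXe | ⟨y₀, hy₀⟩
  · refine ⟨fun _ => 0, (RvS M V hV).zero_mem, fun y hy => ?_, fun N _ _ v _ => rfl⟩
    rw [hXe] at hy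
    exact absurd hy (Set.notMem_empty y)
  rcases Nat.eq_zero_or_pos A with hA | hA
  · rw [hA, pow_zero] at hcard
    have hone : ∀ v ∈ V, v = 1 := by
      intro v hv
      have h1 : V = ⊥ := Subgroup.card_eq_one.1 hcard
      rw [h1] at hv
      exact Subgroup.mem_bot.1 hv
    have hy1 := hone y₀ (hX y₀ hy₀).1
    subst hy1
    refine ⟨fun _ => (R 1 : ℂ)⁻¹, (rva M G V hV).1 _ (hR 1 hy₀).2.1, fun y hy => ?_,
      fun N _ _ v _ => rfl⟩
    rw [hone y (hX y hy).1]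
    exact inv_mul_cancel₀ (hR 1 hy₀).2.2
  have hpos : 0 < ℓ ^ A := pow_pos (Fact.out : ℓ.Prime).pos A
  obtain ⟨ζ, hζ⟩ : ∃ ζ : ℂ, IsPrimitiveRoot ζ (ℓ ^ A) :=
    ⟨_, Complex.isPrimitiveRoot_exp _ hpos.ne'⟩
  obtain ⟨hw, hw0, ⟨K, r₀, hr₀, hK⟩, hcong⟩ := rvc ℓ M hlM A hA ζ hζ
  have hcong' := hcong G V hV hcard
  obtain ⟨cl, hcl, hlc⟩ := l_dvd (M := M) hA hζ
  set w : ℂ := 1 - ζ with hwdef
  -- the function `h`
  set a : ℂ := (n : ℂ)⁻¹ with ha
  have haR : a ∈ RM M := hnl.2.1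
  have han : a * n = 1 := inv_mul_cancel₀ hnl.2.2
  set h : G → ℂ := fun v => g v * (a * a) + -1 with hh
  have hhR : Rv M V h := by
    have h1 := ((rva M G V hV).2.1 g (fun _ => a * a) hg
      ((rva M G V hV).1 _ ((RM M).mul_mem haR haR))).2
    exact ((rva M G V hV).2.1 _ (fun _ => -1) h1
      ((rva M G V hV).1 _ ((RM M).neg_mem (RM M).one_mem))).1
  have hhX : ∀ y ∈ X, ∃ r ∈ RM M, h y = w * r := by
    intro y hy
    obtain ⟨-, h1, k, hk⟩ := hX y hy
    have hk' : (R y : ℂ) = n + ℓ * k := by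
      have : (R y : ℤ) = n + ℓ * k := by linarith
      exact_mod_cast congrArg (Int.cast : ℤ → ℂ) this
    refine ⟨cl * k * (R y + n) * (a * a), (RM M).mul_mem ((RM M).mul_mem ((RM M).mul_mem hcl
      (rr_int k).1) ((RM M).add_mem (rr_int _).1 (rr_int _).1)) ((RM M).mul_mem haR haR), ?_⟩
    rw [hh]
    simp only
    rw [h1]
    have e1 : (R y : ℂ) - n = w * cl * k := by rw [← hlc, hk']; ring
    have e2 : (1 : ℂ) = (a * n) * (a * n) := by rw [han, one_mul]
    linear_combination (a * a) * (R y + n) * e1 - e2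
  have hhw : ∀ v ∈ V, ∃ r ∈ RM M, h v = w * r := by
    intro v hv
    obtain ⟨r1, hr1, e1⟩ := hcong' h hhR v hv
    obtain ⟨r2, hr2, e2⟩ := hcong' h hhR y₀ (hX y₀ hy₀).1
    obtain ⟨r3, hr3, e3⟩ := hhX y₀ hy₀
    refine ⟨r1 - r2 + r3, (RM M).add_mem ((RM M).sub_mem hr1 hr2) hr3, ?_⟩
    linear_combination e1 - e2 + e3
  have hl2' : ¬ (ℓ : ℤ) ∣ 2 := by
    intro h1
    have h2 : ℓ ∣ 2 := by exact_mod_cast h1
    exact hl2 ((Nat.prime_dvd_prime_iff_eq (Fact.out : ℓ.Prime) Nat.prime_two).1 h2)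
  have h2u := int_unit (M := M) hlM hl2'
  have h2R : (2 : ℂ)⁻¹ ∈ RM M := by exact_mod_cast h2u.2.1
  obtain ⟨P, Q, hP, hQ, h3, h4, h5⟩ := newton hV hhR hw hhw h2R K
  -- the approximate square root
  set s' : G → ℂ := fun v => P v * a with hs'
  have hs'R : Rv M V s' :=
    ((rva M G V hV).2.1 P (fun _ => a) hP ((rva M G V hV).1 _ haR)).2
  have hcC : (Nat.card V : ℂ) = (ℓ : ℂ) ^ A := by
    rw [hcard]
    push_cast
    ring
  have hclose : ∀ y ∈ X, ∃ r ∈ RM M, (R y : ℂ)⁻¹ - s' y = Nat.card V * r := by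
    intro y hy
    obtain ⟨hyV, hgy, hdy⟩ := hX y hy
    have hPv : P y ∈ RM M := Rv_val hV hP hyV
    have hQv : Q y ∈ RM M := Rv_val hV hQ hyV
    obtain ⟨r1, hr1, e1⟩ := hhw y hyV
    obtain ⟨r2, hr2, e2⟩ := h4 y hyV
    have hRy := hR y hy
    set z : ℂ := s' y * R y with hz
    have hzR : z ∈ RM M := (RM M).mul_mem ((RM M).mul_mem hPv haR) (rr_int _).1
    have hz2 : z ^ 2 = 1 + h y ^ (2 ^ K) * Q y := by
      rw [← h3 y hyV, hz, hs', hh]
      simp only
      rw [hgy]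
      ring
    have hK1 : K ≤ 2 ^ K := Nat.lt_two_pow_self.le
    obtain ⟨q, hq, hq2⟩ : ∃ q ∈ RM M, z ^ 2 - 1 = Nat.card V * q := by
      refine ⟨r₀ * w ^ (2 ^ K - K) * r1 ^ (2 ^ K) * Q y, (RM M).mul_mem ((RM M).mul_mem
        ((RM M).mul_mem hr₀ ((RM M).pow_mem hw _)) ((RM M).pow_mem hr1 _)) hQv, ?_⟩
      rw [hz2, e1, hcC, mul_pow]
      have e3 : w ^ (2 ^ K) = w ^ K * w ^ (2 ^ K - K) := by
        rw [← pow_add]
        congr 1
        omega
      rw [e3, hK]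
      ring
    have hrz : rr M z = 1 := by
      have h6 : rr M (P y) = 1 := by
        rw [e2, rr_add (RM M).one_mem ((RM M).mul_mem hw hr2), rr_mul hw hr2, hw0, zero_mul,
          add_zero, rr_one]
      have h7 : rr M (a * R y) = 1 := by
        rw [rr_mul haR (rr_int _).1, ha, rr_inv (rr_int _).1 hnl.1]
        have h8 : rr M (R y : ℂ) = rr M (n : ℂ) := by
          have h9 : rr M ((R y - n : ℤ) : ℂ) = 0 :=
            (dvd_of_rr (M := M) (Fact.out : ℓ.Prime) hlM).2 hdy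
          push_cast at h9
          rw [rr_sub (rr_int _).1 (rr_int _).1] at h9
          exact sub_eq_zero.1 h9
        rw [h8]
        exact inv_mul_cancel₀ hnl.1
      have h10 : z = P y * (a * R y) := by
        rw [hz, hs']
        simp only
        ring
      rw [h10, rr_mul hPv ((RM M).mul_mem haR (rr_int _).1), h6, h7, one_mul]
    have hz1 : rr M (z + 1) ≠ 0 := by
      rw [rr_add hzR (RM M).one_mem, hrz, rr_one]
      have h11 := h2u.1
      rw [(rr_int 2).2] at h11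
      push_cast at h11
      have h12 : (1 : FF M) + 1 = 2 := by norm_num
      rw [h12]
      exact h11
    obtain ⟨hzi, hzn⟩ := inv_RM ((RM M).add_mem hzR (RM M).one_mem) hz1
    refine ⟨-(q * (z + 1)⁻¹ * (R y : ℂ)⁻¹), (RM M).neg_mem ((RM M).mul_mem
      ((RM M).mul_mem hq hzi) hRy.2.1), ?_⟩
    have h13 : z - 1 = Nat.card V * q * (z + 1)⁻¹ := by
      rw [← hq2]
      field_simp
      ring
    have h14 : s' y = z * (R y : ℂ)⁻¹ := by
      rw [hz, mul_assoc, mul_inv_cancel₀ hRy.2.2, mul_one]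
    rw [h14]
    linear_combination -(R y : ℂ)⁻¹ * h13
  choose! D hD1 hD2 using hclose
  refine ⟨fun v => if v ∈ X then (R v : ℂ)⁻¹ else s' v, ?_, fun y hy => ?_,
    fun N hN hNX v hv => ?_⟩
  · have h1 := (rva M G V hV).2.2.1 (fun v => if v ∈ X then D v else 0) (by
      intro v _
      by_cases h : v ∈ X
      · simp only [h, if_true]
        exact hD1 v h
      · simp only [h, if_false]
        exact (RM M).zero_mem)
    have h2 := ((rva M G V hV).2.1 s' _ hs'R h1).1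
    refine Rv_congr (fun v _ => ?_) h2
    by_cases h : v ∈ X
    · simp only [h, if_true]
      linear_combination -(hD2 v h)
    · simp only [h, if_false]
      ring
  · simp only [hy, if_true]
    exact inv_mul_cancel₀ (hR y hy).2.2
  · by_cases h : v ∈ X
    · have h1 := (hNX v hv).2 h
      simp only [h, h1, if_true]
      have h2 : R (v ^ N) = R v := by
        obtain ⟨-, e1, k1, hk1⟩ := hX _ h1
        obtain ⟨-, e2, k2, hk2⟩ := hX _ h
        have h3 : (R (v ^ N) : ℂ) ^ 2 = (R v : ℂ) ^ 2 := by rw [← e1, ← e2, hN v hv]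
        have h4 : R (v ^ N) ^ 2 = R v ^ 2 := by exact_mod_cast h3
        rcases sq_eq_sq_iff_eq_or_eq_neg.1 h4 with h5 | h5
        · exact h5
        · exfalso
          have h6 : (ℓ : ℤ) ∣ 2 * n := ⟨-(k1 + k2), by linarith⟩
          rcases (Nat.prime_iff_prime_int.1 (Fact.out : ℓ.Prime)).dvd_or_dvd h6 with h7 | h7
          · exact hl2' h7
          · exact hn h7
      rw [h2]
    · have h1 : v ^ N ∉ X := fun h1 => h ((hNX v hv).1 h1)
      simp only [h, h1, if_false]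
      rw [hs']
      simp only
      rw [(h5 N (fun u hu => by rw [hh]; simp only; rw [hN u hu]) v hv).1]

end Pool.Agent.PP.T8.H21
end
end -- Pool.Agent.Helper21_AT8.SER

section -- Pool.Agent.Helper53_AT8.FCH

/-!
# Squad AT8, row FCH: `z ↦ χ(z i)` is a character of `V`
-/

set_option autoImplicit false

open scoped BigOperators

noncomputable section

namespace Pool.Agent.PP.T8.H53

open Pool.Agent.Helper51_AWC Pool.Agent.Helper79_WRA Pool.Agent.PP Pool.Agent.PP.KF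
open Pool.Agent.PP.K9 Pool.Agent.PP.K9.H97 Pool.Agent.PP.H75 Pool.Agent.PP.T3 Pool.Agent.PP.T2
open Pool.Agent.PP.T8

attribute [local instance] Ideal.Quotient.field

/-- the trace of an idempotent is a natural number -/
theorem trace_idem {n : ℕ} (f : Module.End ℂ (Fin n → ℂ)) (hf : f * f = f) :
    ∃ m : ℕ, LinearMap.trace ℂ (Fin n → ℂ) f = m :=
  ⟨_, LinearMap.IsProj.trace (LinearMap.IsIdempotentElem.isProj_range f hf)⟩

/-- FCH -/
theorem fch : FchStmt := by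
  intro M _ G _ _ V _ i hi χ hχ lam
  obtain ⟨n, ρ, _, hρ⟩ := hχ
  have hFG : Fintype G := Fintype.ofFinite G
  have hFV : Fintype V := Fintype.ofFinite V
  have hV0 : (Nat.card V : ℂ) ≠ 0 := Nat.cast_ne_zero.2 Nat.card_pos.ne'
  have hlam : ∀ v : V, lam v⁻¹ * lam v = 1 := by
    intro v
    rw [← map_mul, inv_mul_cancel, map_one]
  let p : Module.End ℂ (Fin n → ℂ) := ∑ g, i g • ρ g
  let q0 : Module.End ℂ (Fin n → ℂ) := ∑ v : V, lam v⁻¹ • ρ v
  have hp : p * p = p := by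
    have h1 : p * p = ∑ g, ∑ h, (i g * i h) • ρ (g * h) := by
      simp only [p, Finset.sum_mul, Finset.mul_sum]
      rw [Finset.sum_comm]
      refine Finset.sum_congr rfl fun h _ => Finset.sum_congr rfl fun g _ => ?_
      rw [map_mul, smul_mul_smul_comm]
    have h2 : ∀ x, i x = ∑ t, i t * i (t⁻¹ * x) := by
      intro x
      conv_lhs => rw [← hi.id]
      rw [mulF, finsum_eq_sum_of_fintype]
    rw [h1]
    have h3 : p = ∑ x, ∑ t, (i t * i (t⁻¹ * x)) • ρ x := by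
      simp only [p]
      refine Finset.sum_congr rfl fun x _ => ?_
      rw [← Finset.sum_smul, ← h2]
    refine Eq.trans ?_ (h3.trans Finset.sum_comm).symm
    refine Finset.sum_congr rfl fun t _ => ?_
    rw [← Equiv.sum_comp (Equiv.mulLeft t) (fun x => (i t * i (t⁻¹ * x)) • ρ x)]
    refine Finset.sum_congr rfl fun x _ => ?_
    rw [Equiv.coe_mulLeft, inv_mul_cancel_left]
  have hq : q0 * q0 = (Nat.card V : ℂ) • q0 := by
    have h1 : q0 * q0 = ∑ v : V, ∑ w : V, lam (v * w)⁻¹ • ρ ((v * w : V) : G) := by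
      simp only [q0, Finset.sum_mul, Finset.mul_sum]
      rw [Finset.sum_comm]
      refine Finset.sum_congr rfl fun v _ => Finset.sum_congr rfl fun w _ => ?_
      rw [smul_mul_smul_comm, mul_inv_rev, map_mul, Subgroup.coe_mul, map_mul,
        mul_comm (lam w⁻¹)]
    rw [h1]
    have h2 : ∀ v : V, ∑ w : V, lam (v * w)⁻¹ • ρ ((v * w : V) : G) = q0 := by
      intro v
      exact Equiv.sum_comp (Equiv.mulLeft v) (fun x : V => lam x⁻¹ • ρ (x : G))
    rw [Finset.sum_congr rfl fun v _ => h2 v, Finset.sum_const, Finset.card_univ,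
      ← Nat.card_eq_fintype_card, ← Nat.cast_smul_eq_nsmul ℂ]
  have hpv : ∀ v : V, ρ v * p = p * ρ v := by
    intro v
    simp only [p, Finset.sum_mul, Finset.mul_sum]
    rw [← Equiv.sum_comp (MulAut.conj (v : G)).toEquiv (fun x => i x • ρ x * ρ (v : G))]
    refine Finset.sum_congr rfl fun x _ => ?_
    have h1 : (MulAut.conj (v : G)).toEquiv x = v * x * (v : G)⁻¹ := rfl
    rw [h1, hi.iv v v.2, mul_smul_comm, smul_mul_assoc, ← map_mul, ← map_mul,
      inv_mul_cancel_right]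
  have hpq : p * q0 = q0 * p := by
    refine (Finset.mul_sum _ _ p).trans (Eq.trans ?_ (Finset.sum_mul _ _ p).symm)
    refine Finset.sum_congr rfl fun v _ => ?_
    rw [mul_smul_comm, smul_mul_assoc, hpv]
  obtain ⟨m, hm⟩ := trace_idem ((Nat.card V : ℂ)⁻¹ • (q0 * p)) (by
    have h1 : (q0 * p) * (q0 * p) = (Nat.card V : ℂ) • (q0 * p) := by
      rw [mul_assoc, ← mul_assoc p, hpq, mul_assoc q0 p p, hp, ← mul_assoc, hq, smul_mul_assoc]
    rw [smul_mul_smul_comm, h1, smul_smul, mul_assoc, inv_mul_cancel₀ hV0, mul_one])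
  refine ⟨m, ?_⟩
  rw [← hm, map_smul, smul_eq_mul]
  congr 1
  rw [finsum_eq_sum_of_fintype]
  simp only [q0, Finset.sum_mul, map_sum]
  refine Finset.sum_congr rfl fun v _ => ?_
  rw [smul_mul_assoc, map_smul, smul_eq_mul, mul_comm]
  congr 1
  simp only [p, Finset.mul_sum, map_sum]
  rw [fv, finsum_eq_sum_of_fintype]
  refine Finset.sum_congr rfl fun g _ => ?_
  rw [mul_smul_comm, map_smul, smul_eq_mul, ← map_mul]
  congr 1
  rw [← hρ]
  rfl

end Pool.Agent.PP.T8.H53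
end
end -- Pool.Agent.Helper53_AT8.FCH

section -- Pool.Agent.Helper68_AT8.FNZ

/-!
# Squad AT8, row FNZ: conjugation and non vanishing of the differences of the coefficients
-/

set_option autoImplicit false
set_option linter.unusedSectionVars false

open scoped BigOperators

noncomputable section

namespace Pool.Agent.PP.T8.H68

open Pool.Agent.Helper51_AWC Pool.Agent.Helper79_WRA Pool.Agent.PP Pool.Agent.PP.KF
open Pool.Agent.PP.K9 Pool.Agent.PP.K9.H97 Pool.Agent.PP.H75 Pool.Agent.PP.T3 Pool.Agent.PP.T2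

attribute [local instance] Ideal.Quotient.field

section basic

variable {G : Type} [Group G]

/-- if the inertial quotient acts freely, all the nontrivial elements of `V` are regular -/
theorem rg_of_fr {F : Type} {V : Subgroup G} {γ : G → F} (hfr : Fr V γ) {v : G} (hv : v ∈ V)
    (h1 : v ≠ 1) : Rg V γ v :=
  ⟨hv, h1, fun t ht => hfr t ht.1 v hv h1 (Subgroup.mem_centralizer_singleton_iff.1 ht.2)⟩

variable [Finite G] (M : Ideal (integralClosure ℤ ℂ)) [M.IsMaximal]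

/-- `cl` as a difference of coefficients -/
theorem cl_eq (V : Subgroup G) (b : G → G → FF M) (d : G → ℕ) (ε : G → ℤ) (lam : V →* ℂ)
    (χ : G → ℂ) : cl M V b d ε lam χ =
      H21.cf (fun v : V => (ε v : ℂ) * vv M b d v χ) lam -
        H21.cf (fun v : V => (ε v : ℂ) * vv M b d v χ) 1 := by
  classical
  have := Fintype.ofFinite V
  unfold cl
  rw [finsum_eq_sum_of_fintype, H21.cf_eq, H21.cf_eq, ← mul_sub, ← Finset.sum_sub_distrib]
  congr 1
  refine Finset.sum_congr rfl fun v _ => ?_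
  rw [MonoidHom.one_apply]
  ring

end basic

section main

variable {ℓ : ℕ} [Fact ℓ.Prime] {M : Ideal (integralClosure ℤ ℂ)} [M.IsMaximal]
  {G : Type} [Group G] [Finite G] {e : G → FF M} {V : Subgroup G} {γ : G → FF M}
  {b : G → G → FF M} {d : G → ℕ} {c : ℕ} {ε : G → ℤ}

theorem conj_part (dpw : DpwStmt) (hM : (ℓ : integralClosure ℤ ℂ) ∈ M) (hl2 : ℓ ≠ 2)
    (hd : Dat M ℓ e V γ b d c ε) (hfr : Fr V γ) (t : G) (ht : t ∈ Tg V γ) (lam mu : V →* ℂ)
    (htc : Tc V t lam mu) (χ : G → ℂ) (hχ : χ ∈ Irr G) :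
    cl M V b d ε mu χ = cl M V b d ε lam χ := by
  have hn : t ∈ Subgroup.normalizer (V : Set G) := ht.1
  have hmem : ∀ v : V, t * (v : G) * t⁻¹ ∈ V := fun v =>
    (Subgroup.mem_normalizer_iff.1 hn v).1 v.2
  unfold cl
  congr 1
  refine finsum_eq_of_bijective (fun v : V => (⟨t * (v : G) * t⁻¹, hmem v⟩ : V)) ?_ ?_
  · refine Finite.injective_iff_bijective.1 ?_
    intro v w h
    have h1 := congrArg Subtype.val h
    change t * (v : G) * t⁻¹ = t * (w : G) * t⁻¹ at h1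
    exact Subtype.ext (mul_left_cancel (mul_right_cancel h1))
  · intro v
    have h1 : mu v⁻¹ = lam (⟨t * (v : G) * t⁻¹, hmem v⟩ : V)⁻¹ := by
      apply htc
      change (t * (v : G) * t⁻¹)⁻¹ = t * ((v⁻¹ : V) : G) * t⁻¹
      push_cast
      group
    rw [h1]
    by_cases hv : (v : G) = 1
    · have h2 : (⟨t * (v : G) * t⁻¹, hmem v⟩ : V) = 1 := by
        apply Subtype.ext
        change t * (v : G) * t⁻¹ = 1
        rw [hv]
        group
      rw [h2, inv_one, map_one, sub_self, mul_zero, mul_zero]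
    · obtain ⟨-, h3, h4⟩ := (dpw ℓ M hM hl2 G e V γ b d c ε hd).1 t ht v (rg_of_fr hfr v.2 hv)
      change (ε v : ℂ) * vv M b d v χ * _ = (ε (t * v * t⁻¹) : ℂ) * vv M b d (t * v * t⁻¹) χ * _
      rw [h3, h4 χ hχ]

theorem vv_zero (smg : SmgStmt) (hM : (ℓ : integralClosure ℤ ℂ) ∈ M)
    (hd : Dat M ℓ e V γ b d c ε) (hfr : Fr V γ) {v : G} (hv : v ∈ V) (h1 : v ≠ 1) (χ : G → ℂ)
    (hχ : χ ∈ Irr G) (hχe : χ ∉ IrrE M e) : vv M b d v χ = 0 := by
  have hr := rg_of_fr hfr hv h1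
  have hlc := hd.lc v hr
  have hEl : El ℓ v := H88.el_of_mem hd.ld.tp.pg hv
  have h := (smg ℓ M hM G v 1 h1 hEl (Subgroup.one_mem _)
    (by unfold Reg; rw [orderOf_one]; exact Nat.coprime_one_left ℓ)
    (fun t : Cu v => b v t) hlc.blk.blk.1 e hd.ld.blk.1).1 hlc.und χ hχ hχe
  rw [mul_one] at h
  unfold vv gv
  rw [h, zero_div]

theorem vv_ne (dcg : DcgStmt) (inx : K9.InxStmt) (hM : (ℓ : integralClosure ℤ ℂ) ∈ M)
    (hd : Dat M ℓ e V γ b d c ε) {v : G} (hr : Rg V γ v) (χ : G → ℂ)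
    (hχe : χ ∈ IrrE M e) : vv M b d v χ ≠ 0 := by
  intro h0
  have hℓ : ℓ.Prime := Fact.out
  have h := (dcg ℓ M hM G e V γ b d c ε hd v hr χ hχe).2
  rw [h0, zero_mul, rr_zero, ← (rr_int (M := M) (ε v * ix V γ : ℤ)).2] at h
  have h2 := (dvd_of_rr (M := M) hℓ hM).1 h.symm
  have h3 : (ℓ : ℤ) ∣ (ix V γ : ℤ) := by
    rcases hd.sg v hr with h4 | h4
    · rwa [h4, one_mul] at h2
    · rwa [h4, neg_one_mul, dvd_neg] at h2
  have h5 : ℓ ∣ ix V γ := by exact_mod_cast h3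
  exact inx ℓ M hM G e hd.ld.blk V hd.ld.tp hd.ld.ab γ hd.ld.gam.supp hd.ld.gam.blk hd.ld.und h5

end main

/-- row FNZ -/
theorem fnz (dpw : DpwStmt) (dcg : DcgStmt) (smg : SmgStmt) (inx : K9.InxStmt) : FnzStmt := by
  intro ℓ _ M _ hM hl2 G _ _ e V γ b d c ε hd hfr
  refine ⟨conj_part dpw hM hl2 hd hfr, ?_, ?_⟩
  · intro hV χ hχ
    classical
    have := Fintype.ofFinite V
    have : Finite (V →* ℂ) := H21.finite_hom
    have := Fintype.ofFinite (V →* ℂ)
    have hab : ∀ x y : V, x * y = y * x := fun x y => Subtype.ext (hd.ld.ab x x.2 y y.2)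
    obtain ⟨v, hv⟩ := (Subgroup.ne_bot_iff_exists_ne_one).1 hV
    have hv1 : (v : G) ≠ 1 := fun h => hv (Subtype.ext h)
    have hr : Rg V γ v := rg_of_fr hfr v.2 hv1
    by_contra hcon
    have h0 : ∀ lam : V →* ℂ, cl M V b d ε lam χ = 0 := by
      intro lam
      by_cases hl : ∃ w, lam w ≠ 1
      · by_contra h
        exact hcon ⟨lam, hl, h⟩
      · have hl1 : ∀ w, lam w = 1 := fun w => by
          by_contra h
          exact hl ⟨w, h⟩
        have : lam = 1 := MonoidHom.ext hl1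
        rw [cl_eq, this, sub_self]
    have h1 := H21.inversion hab (fun v : V => (ε v : ℂ) * vv M b d v χ) v
    have h2 : ∀ lam : V →* ℂ, H21.cf (fun v : V => (ε v : ℂ) * vv M b d v χ) lam =
        H21.cf (fun v : V => (ε v : ℂ) * vv M b d v χ) 1 := fun lam => by
      have := h0 lam
      rw [cl_eq] at this
      exact sub_eq_zero.1 this
    simp only [h2] at h1
    rw [← Finset.mul_sum, H21.sum_lam hab, if_neg hv, mul_zero] at h1
    have h3 : (ε v : ℂ) ≠ 0 := by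
      rcases hd.sg v hr with h4 | h4 <;> rw [h4] <;> norm_num
    exact mul_ne_zero h3 (vv_ne dcg inx hM hd hr χ hχ) h1
  · intro lam χ hχ hχe
    unfold cl
    have : ∀ v : V, (ε v : ℂ) * vv M b d v χ * (lam v⁻¹ - 1) = 0 := by
      intro v
      by_cases hv : (v : G) = 1
      · have h2 : v = 1 := Subtype.ext hv
        rw [h2, inv_one, map_one, sub_self, mul_zero]
      · rw [vv_zero smg hM hd hfr v.2 hv χ hχ hχe, mul_zero, zero_mul]
    simp only [this]
    rw [finsum_zero, mul_zero]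

end Pool.Agent.PP.T8.H68
end
end -- Pool.Agent.Helper68_AT8.FNZ

section -- Pool.Agent.Helper95_AT8.AVB

/-!
# AVB: the average over a coset of `V ^ (ℓ ^ k)`
-/

set_option autoImplicit false
set_option linter.unusedSectionVars false
set_option linter.style.haveILetI false

open scoped BigOperators

noncomputable section

namespace Pool.Agent.PP.T8.H95

open Pool.Agent.Helper51_AWC Pool.Agent.Helper79_WRA Pool.Agent.PP Pool.Agent.PP.KF
open Pool.Agent.PP.K9 Pool.Agent.PP.K9.H97 Pool.Agent.PP.H75 Pool.Agent.PP.T3 Pool.Agent.PP.T2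

attribute [local instance] Ideal.Quotient.field

section orb

variable {X : Type} [CommGroup X] [Finite X] {ℓ : ℕ}

/-- `y` is a power of `x` with exponent `1` modulo `ℓ` -/
def Rl (ℓ : ℕ) (x y : X) : Prop := ∃ j, j ≡ 1 [MOD ℓ] ∧ y = x ^ j

theorem Rl_symm (hℓ : ℓ.Prime) {E : ℕ} (hE0 : 0 < E) (hE : ∀ x : X, x ^ ℓ ^ E = 1) {x y : X}
    (h : Rl ℓ x y) : Rl ℓ y x := by
  obtain ⟨j, hj, rfl⟩ := h
  have hc : Nat.Coprime j ℓ := by
    have h1 : Nat.gcd j ℓ = Nat.gcd 1 ℓ := by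
      have := Nat.ModEq.gcd_eq hj
      exact this
    rw [Nat.Coprime, h1, Nat.gcd_one_left]
  have hc2 : Nat.Coprime j (ℓ ^ E) := hc.pow_right E
  have h1 : 1 < ℓ ^ E := Nat.one_lt_pow hE0.ne' hℓ.one_lt
  obtain ⟨m, -, hm⟩ := Nat.exists_mul_mod_eq_one_of_coprime hc2 h1
  refine ⟨m, ?_, ?_⟩
  · have h2 : j * m ≡ 1 [MOD ℓ ^ E] := by
      rw [Nat.ModEq, hm, Nat.mod_eq_of_lt h1]
    have h3 : j * m ≡ 1 [MOD ℓ] := h2.of_dvd (dvd_pow_self ℓ hE0.ne')
    have h4 : j * m ≡ 1 * m [MOD ℓ] := hj.mul_right m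
    rw [one_mul] at h4
    exact h4.symm.trans h3
  · rw [← pow_mul, ← Nat.div_add_mod (j * m) (ℓ ^ E), hm, pow_add, pow_mul, hE, one_pow, one_mul,
      pow_one]

theorem Rl_trans {x y z : X} (h : Rl ℓ x y) (h' : Rl ℓ y z) : Rl ℓ x z := by
  obtain ⟨j, hj, rfl⟩ := h
  obtain ⟨j', hj', rfl⟩ := h'
  exact ⟨j * j', by simpa using hj.mul hj', by rw [pow_mul]⟩

/-- the number of the powers of `x` with exponents `1` modulo `ℓ` -/
theorem card_Rl [Fintype X] [DecidableEq X] (hℓ : ℓ.Prime) {x : X} {m : ℕ}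
    (hm : orderOf x = ℓ ^ (m + 1)) [DecidablePred (Rl ℓ x)] :
    (Finset.univ.filter (fun y : X => Rl ℓ x y)).card = ℓ ^ m := by
  have h1 : Finset.univ.filter (fun y : X => Rl ℓ x y) =
      (Finset.range (ℓ ^ m)).image (fun i => x ^ (1 + ℓ * i)) := by
    ext y
    simp only [Finset.mem_filter, Finset.mem_univ, true_and, Finset.mem_image, Finset.mem_range]
    constructor
    · rintro ⟨j, hj, rfl⟩
      refine ⟨(j / ℓ) % ℓ ^ m, Nat.mod_lt _ (pow_pos hℓ.pos m), ?_⟩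
      rw [pow_eq_pow_iff_modEq, hm]
      have h2 : j % ℓ = 1 := by
        rw [hj, Nat.mod_eq_of_lt hℓ.one_lt]
      have h3 : 1 + ℓ * (j / ℓ) = j := by
        have := Nat.div_add_mod j ℓ
        omega
      have h4 : ℓ * (j / ℓ % ℓ ^ m) ≡ ℓ * (j / ℓ) [MOD ℓ ^ (m + 1)] := by
        rw [pow_succ, mul_comm (ℓ ^ m) ℓ]
        exact Nat.ModEq.mul_left' ℓ (Nat.mod_modEq _ _)
      have h5 := h4.add_left 1
      rw [h3] at h5
      exact h5
    · rintro ⟨i, -, rfl⟩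
      exact ⟨1 + ℓ * i, by simp [Nat.ModEq], rfl⟩
  rw [h1, Finset.card_image_of_injOn, Finset.card_range]
  intro i hi i' hi' h
  simp only at h
  rw [pow_eq_pow_iff_modEq, hm] at h
  have h2 : ℓ * i ≡ ℓ * i' [MOD ℓ * ℓ ^ m] := by
    have := Nat.ModEq.add_left_cancel' 1 h
    rwa [pow_succ, mul_comm (ℓ ^ m) ℓ] at this
  have h3 : i ≡ i' [MOD ℓ ^ m] := Nat.ModEq.mul_left_cancel' hℓ.ne_zero h2
  rw [Nat.ModEq, Nat.mod_eq_of_lt (Finset.mem_range.1 hi), Nat.mod_eq_of_lt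
    (Finset.mem_range.1 hi')] at h3
  exact h3

/-- The sum over the elements which are not killed by `ℓ ^ k` is divisible by `ℓ ^ k`. -/
theorem orb [Fintype X] [DecidableEq X] (R : Subring ℂ) (hℓ : ℓ.Prime) {E : ℕ} (hE0 : 0 < E)
    (hE : ∀ x : X, x ^ ℓ ^ E = 1) (g : X → ℂ) (hg : ∀ x, g x ∈ R)
    (hj : ∀ x : X, ∀ j, j ≡ 1 [MOD ℓ] → g (x ^ j) = g x) (k : ℕ) :
    ∃ r ∈ R, ∑ x ∈ Finset.univ.filter (fun x : X => x ^ ℓ ^ k ≠ 1), g x = (ℓ : ℂ) ^ k * r := by
  classical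
  let S : Setoid X :=
    { r := Rl ℓ
      iseqv := ⟨fun x => ⟨1, rfl, (pow_one x).symm⟩, fun h => Rl_symm hℓ hE0 hE h,
        fun h h' => Rl_trans h h'⟩ }
  set s : Finset X := Finset.univ.filter (fun x : X => x ^ ℓ ^ k ≠ 1) with hs
  have key : ∀ x0 ∈ s, ∃ r ∈ R, ∑ y ∈ s.filter (fun y => Quotient.mk S y = Quotient.mk S x0), g y =
      (ℓ : ℂ) ^ k * r := by
    intro x0 hx0
    have hx1 : x0 ^ ℓ ^ k ≠ 1 := (Finset.mem_filter.1 hx0).2
    obtain ⟨m, hm1, hm2⟩ := (Nat.dvd_prime_pow hℓ).1 (orderOf_dvd_of_pow_eq_one (hE x0))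
    have hkm : k < m := by
      by_contra h
      push Not at h
      apply hx1
      rw [← orderOf_dvd_iff_pow_eq_one, hm2]
      exact pow_dvd_pow ℓ h
    obtain ⟨m', rfl⟩ : ∃ m', m = m' + 1 := ⟨m - 1, by omega⟩
    have h1 : s.filter (fun y => Quotient.mk S y = Quotient.mk S x0) =
        Finset.univ.filter (fun y : X => Rl ℓ x0 y) := by
      ext y
      simp only [hs, Finset.mem_filter, Finset.mem_univ, true_and]
      constructor
      · rintro ⟨-, h⟩
        exact Rl_symm hℓ hE0 hE (Quotient.exact h)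
      · intro h
        refine ⟨fun h0 => hx1 ?_, Quotient.sound (Rl_symm hℓ hE0 hE h)⟩
        obtain ⟨j, -, h2⟩ := Rl_symm hℓ hE0 hE h
        rw [h2, ← pow_mul, mul_comm, pow_mul, h0, one_pow]
    refine ⟨(ℓ : ℂ) ^ (m' - k) * g x0, R.mul_mem (R.pow_mem (natCast_mem R ℓ) _) (hg x0), ?_⟩
    rw [h1]
    have h2 : ∀ y ∈ Finset.univ.filter (fun y : X => Rl ℓ x0 y), g y = g x0 := by
      intro y hy
      obtain ⟨j, hj1, rfl⟩ := (Finset.mem_filter.1 hy).2
      exact hj x0 j hj1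
    rw [Finset.sum_congr rfl h2, Finset.sum_const, card_Rl hℓ hm2, nsmul_eq_mul, ← mul_assoc,
      ← pow_add, Nat.add_sub_of_le (by omega)]
    push_cast
    rfl
  have h0 := Finset.sum_partition S (s := s) (f := g)
  have key2 : ∀ q ∈ s.image (Quotient.mk S), ∃ r ∈ R,
      ∑ y ∈ s.filter (fun y => Quotient.mk S y = q), g y = (ℓ : ℂ) ^ k * r := by
    intro q hq
    obtain ⟨x0, hx0, rfl⟩ := Finset.mem_image.1 hq
    exact key x0 hx0
  choose! r hr1 hr2 using key2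
  refine ⟨∑ q ∈ s.image (Quotient.mk S), r q, Subring.sum_mem _ fun q hq => hr1 q hq, ?_⟩
  rw [Finset.mul_sum, h0]
  exact Finset.sum_congr rfl fun q hq => hr2 q hq

/-- the averages over the exponents `1` modulo `ℓ` -/
theorem avg [Fintype X] [DecidableEq X] (hℓ : ℓ.Prime) {E : ℕ}
    (hE : ∀ x : X, x ^ ℓ ^ (E + 1) = 1) (c : X → ℂ)
    (hc : ∀ x : X, ∀ j, j ≡ 1 [MOD ℓ] → c (x ^ j) = c x) (ev : X →* ℂ) (k : ℕ) :
    ∑ x ∈ Finset.univ.filter (fun x : X => x ^ ℓ ^ k ≠ 1), c x * ev x =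
    ∑ x ∈ Finset.univ.filter (fun x : X => x ^ ℓ ^ k ≠ 1), (if ev x ^ ℓ = 1 then c x * ev x else 0)
      := by
  classical
  set s : Finset X := Finset.univ.filter (fun x : X => x ^ ℓ ^ k ≠ 1) with hs
  have h1 : ∀ j, j ≡ 1 [MOD ℓ] → ∑ x ∈ s, c x * ev x = ∑ x ∈ s, c x * ev x ^ j := by
    intro j hj
    have hb : Function.Injective (fun x : X => x ^ j) := by
      intro x y hxy
      simp only at hxy
      obtain ⟨m, hm, h2⟩ := Rl_symm hℓ (Nat.succ_pos E) hE (x := x) (y := x ^ j) ⟨j, hj, rfl⟩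
      have h3 : Rl ℓ x (x ^ j) := ⟨j, hj, rfl⟩
      have h4 : (x * y⁻¹) ^ j = 1 := by
        rw [mul_pow, inv_pow, hxy, mul_inv_cancel]
      obtain ⟨m', -, h5⟩ := Rl_symm hℓ (Nat.succ_pos E) hE (x := x * y⁻¹) (y := (x * y⁻¹) ^ j)
        ⟨j, hj, rfl⟩
      rw [h4, one_pow] at h5
      exact mul_inv_eq_one.1 h5
    symm
    refine Finset.sum_bij (fun x _ => x ^ j) ?_ (fun x _ y _ h => hb h) ?_ ?_
    · intro x hx
      rw [hs, Finset.mem_filter] at hx ⊢
      refine ⟨Finset.mem_univ _, fun h => hx.2 ?_⟩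
      apply hb
      simp only
      rw [← pow_mul, mul_comm, pow_mul, h, one_pow]
    · intro y hy
      obtain ⟨m, hm, h2⟩ := Rl_symm hℓ (Nat.succ_pos E) hE (x := y) (y := y ^ j) ⟨j, hj, rfl⟩
      refine ⟨y ^ m, ?_, ?_⟩
      · rw [hs, Finset.mem_filter] at hy ⊢
        refine ⟨Finset.mem_univ _, fun h => hy.2 ?_⟩
        have h3 : y = (y ^ m) ^ j := by
          rw [← pow_mul, mul_comm, pow_mul, ← h2]
        rw [h3, ← pow_mul, mul_comm, pow_mul, h, one_pow]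
      · rw [← pow_mul, mul_comm, pow_mul, ← h2]
    · intro x _
      rw [hc x j hj, map_pow]
  have hL : (ℓ ^ E : ℂ) ≠ 0 := pow_ne_zero _ (Nat.cast_ne_zero.2 hℓ.ne_zero)
  have h2 : (ℓ ^ E : ℂ) * ∑ x ∈ s, c x * ev x =
      (ℓ ^ E : ℂ) * ∑ x ∈ s, (if ev x ^ ℓ = 1 then c x * ev x else 0) := by
    have h3 : (ℓ ^ E : ℂ) * ∑ x ∈ s, c x * ev x =
        ∑ i ∈ Finset.range (ℓ ^ E), ∑ x ∈ s, c x * ev x ^ (1 + ℓ * i) := by
      rw [← Finset.sum_congr rfl fun i _ => h1 (1 + ℓ * i) (by simp [Nat.ModEq]),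
        Finset.sum_const, Finset.card_range, nsmul_eq_mul]
      push_cast
      rfl
    rw [h3, Finset.sum_comm, Finset.mul_sum]
    refine Finset.sum_congr rfl fun x _ => ?_
    have h4 : ∀ i, c x * ev x ^ (1 + ℓ * i) = c x * ev x * (ev x ^ ℓ) ^ i := by
      intro i
      rw [pow_add, pow_one, pow_mul]
      ring
    rw [Finset.sum_congr rfl fun i _ => h4 i, ← Finset.mul_sum]
    by_cases h5 : ev x ^ ℓ = 1
    · rw [if_pos h5]
      simp only [h5, one_pow, Finset.sum_const, Finset.card_range, nsmul_eq_mul, mul_one]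
      push_cast
      ring
    · rw [if_neg h5, mul_zero]
      have h6 : (ev x ^ ℓ) ^ ℓ ^ E = 1 := by
        rw [← pow_mul, ← pow_succ', ← map_pow, hE, map_one]
      have h7 := geom_sum_mul (ev x ^ ℓ) (ℓ ^ E)
      rw [h6, sub_self] at h7
      rw [(mul_eq_zero.1 h7).resolve_right (sub_ne_zero.2 h5), mul_zero]
  exact mul_left_cancel₀ hL h2

theorem orb2 [Fintype X] [DecidableEq X] (R : Subring ℂ) (hℓ : ℓ.Prime) {E : ℕ}
    (hE : ∀ x : X, x ^ ℓ ^ (E + 1) = 1) (c : X → ℂ) (hcR : ∀ x, c x ∈ R)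
    (hc : ∀ x : X, ∀ j, j ≡ 1 [MOD ℓ] → c (x ^ j) = c x) (ev : X →* ℂ) (hev : ∀ x, ev x ∈ R)
    (k : ℕ) :
    ∃ r ∈ R, ∑ x ∈ Finset.univ.filter (fun x : X => x ^ ℓ ^ k ≠ 1),
      (if ev x ^ ℓ = 1 then c x * ev x else 0) = (ℓ : ℂ) ^ k * r := by
  classical
  have hg : ∀ x : X, (if ev x ^ ℓ = 1 then c x * ev x else 0) ∈ R := by
    intro x
    by_cases h : ev x ^ ℓ = 1
    · rw [if_pos h]
      exact R.mul_mem (hcR x) (hev x)
    · rw [if_neg h]
      exact R.zero_mem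
  have hj : ∀ x : X, ∀ j, j ≡ 1 [MOD ℓ] →
      (if ev (x ^ j) ^ ℓ = 1 then c (x ^ j) * ev (x ^ j) else 0) =
      (if ev x ^ ℓ = 1 then c x * ev x else 0) := by
    intro x j hj
    have h4 : ev (x ^ j) ^ ℓ = 1 ↔ ev x ^ ℓ = 1 := by
      constructor
      · intro h
        obtain ⟨m, -, h5⟩ := Rl_symm hℓ (Nat.succ_pos E) hE (x := x) (y := x ^ j)
          ⟨j, hj, rfl⟩
        have h6 : ev x = ev (x ^ j) ^ m := by
          rw [← map_pow]
          exact congrArg ev h5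
        rw [h6, ← pow_mul, mul_comm, pow_mul, h, one_pow]
      · intro h
        rw [map_pow, ← pow_mul, mul_comm, pow_mul, h, one_pow]
    by_cases h5 : ev x ^ ℓ = 1
    · rw [if_pos h5, if_pos (h4.2 h5), hc x j hj, map_pow]
      congr 1
      have h6 : j % ℓ = 1 := by
        rw [hj, Nat.mod_eq_of_lt hℓ.one_lt]
      rw [← Nat.div_add_mod j ℓ, h6, pow_add, pow_mul, h5, one_pow, one_mul, pow_one]
    · rw [if_neg h5, if_neg (fun h => h5 (h4.1 h))]
  exact orb R hℓ (Nat.succ_pos E) hE (fun x => if ev x ^ ℓ = 1 then c x * ev x else 0) hg hj k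

end orb

section main

variable {M : Ideal (integralClosure ℤ ℂ)} [M.IsMaximal] {G : Type} [Group G] [Finite G]

/-- the coefficients, for homomorphisms with values in the units -/
def cu (V : Subgroup G) (f : G → ℂ) (χ : V →* ℂˣ) : ℂ :=
  H21.cf (fun v : V => f v) ((Units.coeHom ℂ).comp χ)

theorem finite_units (V : Subgroup G) : Finite (V →* ℂˣ) := by
  haveI := H21.finite_hom (V := V)
  exact Finite.of_equiv _ (MonoidHom.toHomUnitsMulEquiv (G := V) (M := ℂ)).toEquiv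

theorem inv_units {V : Subgroup G} (hV : ∀ a ∈ V, ∀ b ∈ V, a * b = b * a) [Fintype (V →* ℂˣ)]
    (f : G → ℂ) (v : V) : f v = ∑ χ : V →* ℂˣ, cu V f χ * (χ v : ℂ) := by
  haveI := H21.finite_hom (V := V)
  haveI := Fintype.ofFinite (V →* ℂ)
  have h := H21.inversion (H21.comm_sub hV) (fun v : V => f v) v
  rw [h]
  refine Fintype.sum_equiv (MonoidHom.toHomUnitsMulEquiv (G := V) (M := ℂ)).toEquiv _ _
    fun lam => ?_
  have e : (Units.coeHom ℂ).comp ((MonoidHom.toHomUnitsMulEquiv (G := V) (M := ℂ)).toEquiv lam) =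
      lam := by
    ext v
    simp
  rw [cu, e]
  have e2 : (((MonoidHom.toHomUnitsMulEquiv (G := V) (M := ℂ)).toEquiv lam v : ℂˣ) : ℂ) = lam v :=
    DFunLike.congr_fun e v
  rw [e2]

theorem cu_pow {V : Subgroup G} {f : G → ℂ} {j : ℕ} (hc : (Nat.card V).Coprime j)
    (hf : ∀ v ∈ V, f (v ^ j) = f v) (χ : V →* ℂˣ) : cu V f (χ ^ j) = cu V f χ := by
  classical
  haveI := Fintype.ofFinite V
  rw [cu, cu, H21.cf_eq, H21.cf_eq]
  congr 1
  refine Fintype.sum_equiv (powCoprime hc) _ _ fun v => ?_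
  have h1 : f ((powCoprime hc v : V) : G) = f v := by
    rw [← hf v v.2]
    rfl
  rw [h1]
  congr 1
  have h2 : (powCoprime hc v)⁻¹ = (v⁻¹) ^ j := by
    rw [inv_pow]
    rfl
  rw [h2, map_pow]
  show ((χ ^ j) v⁻¹ : ℂ) = ((χ v⁻¹ : ℂˣ) : ℂ) ^ j
  rw [MonoidHom.pow_apply, Units.val_pow_eq_pow_val]

theorem avb (hPWU : PwuStmt) : AvbStmt := by
  intro ℓ hℓ M hM hlM G _ _ N hGS V hP hV f hf hfN k W hW y hy
  classical
  have hℓp : ℓ.Prime := hℓ.out
  haveI := finite_units V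
  letI := Fintype.ofFinite (V →* ℂˣ)
  haveI := Fintype.ofFinite V
  -- the exponent
  obtain ⟨E, hE⟩ := (IsPGroup.iff_card (p := ℓ) (G := V)).1 hP
  have hEV : ∀ v : V, v ^ ℓ ^ (E + 1) = 1 := by
    intro v
    rw [pow_succ, pow_mul, ← hE, pow_card_eq_one', one_pow]
  have hEX : ∀ χ : V →* ℂˣ, χ ^ ℓ ^ (E + 1) = 1 := by
    intro χ
    ext v
    rw [MonoidHom.pow_apply, ← map_pow, hEV, map_one, MonoidHom.one_apply]
  -- invariance of the coefficients
  have hfk : ∀ n : ℕ, ∀ v ∈ V, f (v ^ N ^ n) = f v := by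
    intro n
    induction n with
    | zero => intro v _; rw [pow_zero, pow_one]
    | succ n ih =>
      intro v hv
      rw [pow_succ, pow_mul, hfN _ (V.pow_mem hv _), ih v hv]
  have hc : ∀ χ : V →* ℂˣ, ∀ j, j ≡ 1 [MOD ℓ] → cu V f (χ ^ j) = cu V f χ := by
    intro χ j hj
    have hcop : Nat.Coprime ℓ j := by
      have h1 : Nat.gcd j ℓ = Nat.gcd 1 ℓ := Nat.ModEq.gcd_eq hj
      rw [Nat.coprime_comm, Nat.Coprime, h1, Nat.gcd_one_left]
    obtain ⟨n, hn⟩ := hGS.gen 1 j (by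
      intro h
      exact hℓp.one_lt.ne' (Nat.dvd_one.1 h)) hj.symm
    refine cu_pow (by rw [hE]; exact hcop.pow_left E) (fun v hv => ?_) χ
    have hEl : El ℓ v := by
      refine ⟨E + 1, ?_⟩
      have := hEV ⟨v, hv⟩
      exact congrArg (fun x : V => (x : G)) this
    have h2 := hn v hEl
    rw [pow_one] at h2
    rw [← h2, hfk n v hv]
  -- the evaluation
  let ev : (V →* ℂˣ) →* ℂ :=
    { toFun := fun χ => (χ ⟨y, hy⟩ : ℂ)
      map_one' := by simp
      map_mul' := by intro a b; simp }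
  have hev : ∀ χ, ev χ = (χ ⟨y, hy⟩ : ℂ) := fun χ => rfl
  have hevRM : ∀ χ, ev χ ∈ RM M := by
    intro χ
    exact RM_of_int (H21.lam_integral ((Units.coeHom ℂ).comp χ) ⟨y, hy⟩)
  have hcRM : ∀ χ, cu V f χ ∈ RM M := fun χ => hf _
  -- the average
  obtain ⟨hW1, hW2, -⟩ := hPWU G (ℓ ^ k) V hV
  rw [← hW] at hW1 hW2
  have hA : (Nat.card W : ℂ)⁻¹ * ∑ᶠ w : W, f (y * w) =
      ∑ χ ∈ Finset.univ.filter (fun χ : V →* ℂˣ => χ ^ ℓ ^ k = 1), cu V f χ * ev χ := by
    haveI := Fintype.ofFinite W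
    rw [finsum_eq_sum_of_fintype]
    have h1 : ∀ w : W, f (y * w) =
        ∑ χ : V →* ℂˣ, cu V f χ * ev χ * (χ ⟨w, hW2 w.2⟩ : ℂ) := by
      intro w
      have h2 := inv_units hV f (⟨y, hy⟩ * ⟨w, hW2 w.2⟩ : V)
      have h3 : ((⟨y, hy⟩ * ⟨w, hW2 w.2⟩ : V) : G) = y * w := rfl
      rw [h3] at h2
      rw [h2]
      refine Finset.sum_congr rfl fun χ _ => ?_
      rw [map_mul, Units.val_mul, hev, mul_assoc]
    rw [Finset.sum_congr rfl fun w _ => h1 w, Finset.sum_comm, Finset.mul_sum, Finset.sum_filter]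
    refine Finset.sum_congr rfl fun χ _ => ?_
    rw [← Finset.mul_sum]
    have hcard : (Nat.card W : ℂ) ≠ 0 := by
      have : 0 < Nat.card W := Nat.card_pos
      exact_mod_cast this.ne'
    let ψ : W →* ℂ := (Units.coeHom ℂ).comp (χ.comp (Subgroup.inclusion hW2))
    have h4 : ∑ w : W, (χ ⟨w, hW2 w.2⟩ : ℂ) = ∑ w : W, ψ w := rfl
    rw [h4, sum_hom_units ψ]
    have h5 : ψ = 1 ↔ χ ^ ℓ ^ k = 1 := by
      constructor
      · intro h
        ext v
        have h6 : (v : G) ^ ℓ ^ k ∈ W := (hW1 _).2 ⟨v, v.2, rfl⟩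
        have h7 := DFunLike.congr_fun h ⟨(v : G) ^ ℓ ^ k, h6⟩
        have h8 : ψ ⟨(v : G) ^ ℓ ^ k, h6⟩ = (χ (v ^ ℓ ^ k) : ℂ) := rfl
        rw [h8, map_pow] at h7
        rw [MonoidHom.pow_apply]
        exact h7
      · intro h
        ext w
        obtain ⟨v, hv, hwv⟩ := (hW1 w).1 w.2
        have h7 : Subgroup.inclusion hW2 w = (⟨v, hv⟩ : V) ^ ℓ ^ k := by
          ext
          exact hwv
        show ((χ (Subgroup.inclusion hW2 w) : ℂˣ) : ℂ) = 1
        rw [h7, map_pow, ← MonoidHom.pow_apply, h, MonoidHom.one_apply, Units.val_one]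
    by_cases h6 : χ ^ ℓ ^ k = 1
    · rw [if_pos h6, if_pos (h5.2 h6), ← Nat.card_eq_fintype_card]
      field_simp
    · rw [if_neg h6, if_neg (fun h => h6 (h5.1 h))]
      push_cast
      ring
  refine ⟨?_, ?_⟩
  · rw [hA]
    exact Subring.sum_mem _ fun χ _ => (RM M).mul_mem (hcRM χ) (hevRM χ)
  · have h1 : f y = ∑ χ : V →* ℂˣ, cu V f χ * ev χ := inv_units hV f ⟨y, hy⟩
    have h2 : f y - (Nat.card W : ℂ)⁻¹ * ∑ᶠ w : W, f (y * w) =
        ∑ χ ∈ Finset.univ.filter (fun χ : V →* ℂˣ => χ ^ ℓ ^ k ≠ 1), cu V f χ * ev χ := by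
      rw [hA, h1, ← Finset.sum_filter_add_sum_filter_not Finset.univ
        (fun χ : V →* ℂˣ => χ ^ ℓ ^ k = 1)]
      ring
    have hq1 := avg (X := V →* ℂˣ) hℓp hEX (cu V f)
    have hq2 := hq1 hc ev k
    rw [h2, hq2]
    have hq3 := orb2 (X := V →* ℂˣ) (RM M) hℓp hEX (cu V f)
    obtain ⟨r, hr, h3⟩ := hq3 hcRM hc ev hevRM k
    rw [h3, mul_comm, mul_div_assoc, div_self (pow_ne_zero _ (Nat.cast_ne_zero.2 hℓp.ne_zero)),
      mul_one]
    exact hr

end main

end Pool.Agent.PP.T8.H95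
end
end -- Pool.Agent.Helper95_AT8.AVB

section -- Pool.Agent.Helper32_AT12.SE2

/-!
# SE2: the square root, with the values at all elements
-/

set_option autoImplicit false
set_option linter.unusedSectionVars false
set_option linter.style.haveILetI false

open scoped BigOperators

noncomputable section

namespace Pool.Agent.PP.T12.H32

open Pool.Agent.Helper51_AWC Pool.Agent.Helper79_WRA Pool.Agent.PP Pool.Agent.PP.KF
open Pool.Agent.PP.K9 Pool.Agent.PP.K9.H97 Pool.Agent.PP.H75 Pool.Agent.PP.T3 Pool.Agent.PP.T2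
open Pool.Agent.PP.T8 Pool.Agent.PP.T8.H21 Pool.Agent.PP.T12

attribute [local instance] Ideal.Quotient.field

theorem se2 : Se2Stmt := by
  classical
  intro ℓ hℓ M hM hlM hl2 G _ _ V hp hV g hg X R n hn hXne hX
  obtain ⟨A, hcard⟩ := IsPGroup.iff_card.1 hp
  have hnl := int_unit (M := M) hlM hn
  have hRl : ∀ y ∈ X, ¬ (ℓ : ℤ) ∣ R y := by
    intro y hy h
    have h1 := (hX y hy).2.2
    exact hn ((Int.dvd_iff_dvd_of_dvd_sub h1).1 h)
  have hR := fun y hy => int_unit (M := M) hlM (hRl y hy)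
  obtain ⟨y₀, hy₀⟩ := hXne
  rcases Nat.eq_zero_or_pos A with hA | hA
  · rw [hA, pow_zero] at hcard
    have hone : ∀ v ∈ V, v = 1 := by
      intro v hv
      have h1 : V = ⊥ := Subgroup.card_eq_one.1 hcard
      rw [h1] at hv
      exact Subgroup.mem_bot.1 hv
    have hy1 := hone y₀ (hX y₀ hy₀).1
    subst hy1
    refine ⟨fun _ => (R 1 : ℂ)⁻¹, (rva M G V hV).1 _ (hR 1 hy₀).2.1, fun y hy => ?_,
      fun v hv => ⟨0, (RM M).zero_mem, ?_⟩, fun v hv => ⟨(hR 1 hy₀).2.1, rfl⟩,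
      fun N _ _ v _ => rfl⟩
    · rw [hone y (hX y hy).1]
      exact inv_mul_cancel₀ (hR 1 hy₀).2.2
    · rw [hone v hv, (hX 1 hy₀).2.1, mul_zero, add_zero, ← mul_pow,
        inv_mul_cancel₀ (hR 1 hy₀).2.2, one_pow]
  have hpos : 0 < ℓ ^ A := pow_pos (Fact.out : ℓ.Prime).pos A
  obtain ⟨ζ, hζ⟩ : ∃ ζ : ℂ, IsPrimitiveRoot ζ (ℓ ^ A) :=
    ⟨_, Complex.isPrimitiveRoot_exp _ hpos.ne'⟩
  obtain ⟨hw, hw0, ⟨K, r₀, hr₀, hK⟩, hcong⟩ := rvc ℓ M hlM A hA ζ hζ
  have hcong' := hcong G V hV hcard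
  obtain ⟨cl, hcl, hlc⟩ := l_dvd (M := M) hA hζ
  set w : ℂ := 1 - ζ with hwdef
  -- the function `h`
  set a : ℂ := (n : ℂ)⁻¹ with ha
  have haR : a ∈ RM M := hnl.2.1
  have han : a * n = 1 := inv_mul_cancel₀ hnl.2.2
  set h : G → ℂ := fun v => g v * (a * a) + -1 with hh
  have hhR : Rv M V h := by
    have h1 := ((rva M G V hV).2.1 g (fun _ => a * a) hg
      ((rva M G V hV).1 _ ((RM M).mul_mem haR haR))).2
    exact ((rva M G V hV).2.1 _ (fun _ => -1) h1
      ((rva M G V hV).1 _ ((RM M).neg_mem (RM M).one_mem))).1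
  have hhX : ∀ y ∈ X, ∃ r ∈ RM M, h y = w * r := by
    intro y hy
    obtain ⟨-, h1, k, hk⟩ := hX y hy
    have hk' : (R y : ℂ) = n + ℓ * k := by
      have : (R y : ℤ) = n + ℓ * k := by linarith
      exact_mod_cast congrArg (Int.cast : ℤ → ℂ) this
    refine ⟨cl * k * (R y + n) * (a * a), (RM M).mul_mem ((RM M).mul_mem ((RM M).mul_mem hcl
      (rr_int k).1) ((RM M).add_mem (rr_int _).1 (rr_int _).1)) ((RM M).mul_mem haR haR), ?_⟩
    rw [hh]
    simp only
    rw [h1]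
    have e1 : (R y : ℂ) - n = w * cl * k := by rw [← hlc, hk']; ring
    have e2 : (1 : ℂ) = (a * n) * (a * n) := by rw [han, one_mul]
    linear_combination (a * a) * (R y + n) * e1 - e2
  have hhw : ∀ v ∈ V, ∃ r ∈ RM M, h v = w * r := by
    intro v hv
    obtain ⟨r1, hr1, e1⟩ := hcong' h hhR v hv
    obtain ⟨r2, hr2, e2⟩ := hcong' h hhR y₀ (hX y₀ hy₀).1
    obtain ⟨r3, hr3, e3⟩ := hhX y₀ hy₀
    refine ⟨r1 - r2 + r3, (RM M).add_mem ((RM M).sub_mem hr1 hr2) hr3, ?_⟩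
    linear_combination e1 - e2 + e3
  have hl2' : ¬ (ℓ : ℤ) ∣ 2 := by
    intro h1
    have h2 : ℓ ∣ 2 := by exact_mod_cast h1
    exact hl2 ((Nat.prime_dvd_prime_iff_eq (Fact.out : ℓ.Prime) Nat.prime_two).1 h2)
  have h2u := int_unit (M := M) hlM hl2'
  have h2R : (2 : ℂ)⁻¹ ∈ RM M := by exact_mod_cast h2u.2.1
  obtain ⟨P, Q, hP, hQ, h3, h4, h5⟩ := newton hV hhR hw hhw h2R K
  -- the approximate square root
  set s' : G → ℂ := fun v => P v * a with hs'
  have hs'R : Rv M V s' :=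
    ((rva M G V hV).2.1 P (fun _ => a) hP ((rva M G V hV).1 _ haR)).2
  have hcC : (Nat.card V : ℂ) = (ℓ : ℂ) ^ A := by
    rw [hcard]
    push_cast
    ring
  have hall : ∀ v ∈ V, ∃ q ∈ RM M, s' v ^ 2 * g v = 1 + Nat.card V * q := by
    intro y hyV
    have hQv : Q y ∈ RM M := Rv_val hV hQ hyV
    obtain ⟨r1, hr1, e1⟩ := hhw y hyV
    have hK1 : K ≤ 2 ^ K := Nat.lt_two_pow_self.le
    refine ⟨r₀ * w ^ (2 ^ K - K) * r1 ^ (2 ^ K) * Q y, (RM M).mul_mem ((RM M).mul_mem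
        ((RM M).mul_mem hr₀ ((RM M).pow_mem hw _)) ((RM M).pow_mem hr1 _)) hQv, ?_⟩
    have hz2 : s' y ^ 2 * g y = 1 + h y ^ (2 ^ K) * Q y := by
      rw [← h3 y hyV, hs', hh]
      simp only
      ring
    rw [hz2, e1, hcC, mul_pow]
    have e3 : w ^ (2 ^ K) = w ^ K * w ^ (2 ^ K - K) := by
      rw [← pow_add]
      congr 1
      omega
    rw [e3, hK]
    ring
  have hclose : ∀ y ∈ X, ∃ r ∈ RM M, (R y : ℂ)⁻¹ - s' y = Nat.card V * r := by
    intro y hy
    obtain ⟨hyV, hgy, hdy⟩ := hX y hy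
    have hPv : P y ∈ RM M := Rv_val hV hP hyV
    have hQv : Q y ∈ RM M := Rv_val hV hQ hyV
    obtain ⟨r1, hr1, e1⟩ := hhw y hyV
    obtain ⟨r2, hr2, e2⟩ := h4 y hyV
    have hRy := hR y hy
    set z : ℂ := s' y * R y with hz
    have hzR : z ∈ RM M := (RM M).mul_mem ((RM M).mul_mem hPv haR) (rr_int _).1
    have hz2 : z ^ 2 = 1 + h y ^ (2 ^ K) * Q y := by
      rw [← h3 y hyV, hz, hs', hh]
      simp only
      rw [hgy]
      ring
    have hK1 : K ≤ 2 ^ K := Nat.lt_two_pow_self.le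
    obtain ⟨q, hq, hq2⟩ : ∃ q ∈ RM M, z ^ 2 - 1 = Nat.card V * q := by
      refine ⟨r₀ * w ^ (2 ^ K - K) * r1 ^ (2 ^ K) * Q y, (RM M).mul_mem ((RM M).mul_mem
        ((RM M).mul_mem hr₀ ((RM M).pow_mem hw _)) ((RM M).pow_mem hr1 _)) hQv, ?_⟩
      rw [hz2, e1, hcC, mul_pow]
      have e3 : w ^ (2 ^ K) = w ^ K * w ^ (2 ^ K - K) := by
        rw [← pow_add]
        congr 1
        omega
      rw [e3, hK]
      ring
    have hrz : rr M z = 1 := by
      have h6 : rr M (P y) = 1 := by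
        rw [e2, rr_add (RM M).one_mem ((RM M).mul_mem hw hr2), rr_mul hw hr2, hw0, zero_mul,
          add_zero, rr_one]
      have h7 : rr M (a * R y) = 1 := by
        rw [rr_mul haR (rr_int _).1, ha, rr_inv (rr_int _).1 hnl.1]
        have h8 : rr M (R y : ℂ) = rr M (n : ℂ) := by
          have h9 : rr M ((R y - n : ℤ) : ℂ) = 0 :=
            (dvd_of_rr (M := M) (Fact.out : ℓ.Prime) hlM).2 hdy
          push_cast at h9
          rw [rr_sub (rr_int _).1 (rr_int _).1] at h9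
          exact sub_eq_zero.1 h9
        rw [h8]
        exact inv_mul_cancel₀ hnl.1
      have h10 : z = P y * (a * R y) := by
        rw [hz, hs']
        simp only
        ring
      rw [h10, rr_mul hPv ((RM M).mul_mem haR (rr_int _).1), h6, h7, one_mul]
    have hz1 : rr M (z + 1) ≠ 0 := by
      rw [rr_add hzR (RM M).one_mem, hrz, rr_one]
      have h11 := h2u.1
      rw [(rr_int 2).2] at h11
      push_cast at h11
      have h12 : (1 : FF M) + 1 = 2 := by norm_num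
      rw [h12]
      exact h11
    obtain ⟨hzi, hzn⟩ := inv_RM ((RM M).add_mem hzR (RM M).one_mem) hz1
    refine ⟨-(q * (z + 1)⁻¹ * (R y : ℂ)⁻¹), (RM M).neg_mem ((RM M).mul_mem
      ((RM M).mul_mem hq hzi) hRy.2.1), ?_⟩
    have h13 : z - 1 = Nat.card V * q * (z + 1)⁻¹ := by
      rw [← hq2]
      field_simp
      ring
    have h14 : s' y = z * (R y : ℂ)⁻¹ := by
      rw [hz, mul_assoc, mul_inv_cancel₀ hRy.2.2, mul_one]
    rw [h14]
    linear_combination -(R y : ℂ)⁻¹ * h13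
  choose! D hD1 hD2 using hclose
  have hsR : Rv M V (fun v => if v ∈ X then (R v : ℂ)⁻¹ else s' v) := by
    have h1 := (rva M G V hV).2.2.1 (fun v => if v ∈ X then D v else 0) (by
      intro v _
      by_cases h : v ∈ X
      · simp only [h, if_true]
        exact hD1 v h
      · simp only [h, if_false]
        exact (RM M).zero_mem)
    have h2 := ((rva M G V hV).2.1 s' _ hs'R h1).1
    refine Rv_congr (fun v _ => ?_) h2
    by_cases h : v ∈ X
    · simp only [h, if_true]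
      linear_combination -(hD2 v h)
    · simp only [h, if_false]
      ring
  refine ⟨fun v => if v ∈ X then (R v : ℂ)⁻¹ else s' v, hsR, fun y hy => ?_,
    fun v hv => ?_, fun v hv => ⟨Rv_val hV hsR hv, ?_⟩, fun N hN hNX v hv => ?_⟩
  · simp only [hy, if_true]
    exact inv_mul_cancel₀ (hR y hy).2.2
  · by_cases h : v ∈ X
    · refine ⟨0, (RM M).zero_mem, ?_⟩
      simp only [h, if_true]
      rw [(hX v h).2.1, mul_zero, add_zero, ← mul_pow, inv_mul_cancel₀ (hR v h).2.2, one_pow]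
    · simp only [h, if_false]
      exact hall v hv
  · obtain ⟨r1, hr1, e1⟩ := hcong' _ hsR v hv
    have h1 := Rv_val hV hsR hv
    have h2 := Rv_val hV hsR (Subgroup.one_mem V)
    have h3 := congrArg (rr M) e1
    rw [rr_sub h1 h2, rr_mul hw hr1, hw0, zero_mul] at h3
    exact sub_eq_zero.1 h3
  · by_cases h : v ∈ X
    · have h1 := (hNX v hv).2 h
      simp only [h, h1, if_true]
      have h2 : R (v ^ N) = R v := by
        obtain ⟨-, e1, k1, hk1⟩ := hX _ h1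
        obtain ⟨-, e2, k2, hk2⟩ := hX _ h
        have h3 : (R (v ^ N) : ℂ) ^ 2 = (R v : ℂ) ^ 2 := by rw [← e1, ← e2, hN v hv]
        have h4 : R (v ^ N) ^ 2 = R v ^ 2 := by exact_mod_cast h3
        rcases sq_eq_sq_iff_eq_or_eq_neg.1 h4 with h5 | h5
        · exact h5
        · exfalso
          have h6 : (ℓ : ℤ) ∣ 2 * n := ⟨-(k1 + k2), by linarith⟩
          rcases (Nat.prime_iff_prime_int.1 (Fact.out : ℓ.Prime)).dvd_or_dvd h6 with h7 | h7
          · exact hl2' h7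
          · exact hn h7
      rw [h2]
    · have h1 : v ^ N ∉ X := fun h1 => h ((hNX v hv).1 h1)
      simp only [h, h1, if_false]
      rw [hs']
      simp only
      rw [(h5 N (fun u hu => by rw [hh]; simp only; rw [hN u hu]) v hv).1]

end Pool.Agent.PP.T12.H32
end
end -- Pool.Agent.Helper32_AT12.SE2

section -- Pool.Agent.Helper77_ATZ.UWA

/-!
Squad ATZ, row UWA: powers in abelian subgroups.
-/

set_option autoImplicit false

noncomputable section

namespace Pool.Agent.PP.TB.H77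

open Pool.Agent.PP.T2

section ab

variable {G : Type} [Group G]

/-- the power map on an abelian subgroup -/
def ph (A : Subgroup G) (h : ∀ x ∈ A, ∀ y ∈ A, x * y = y * x) (n : ℕ) : A →* G where
  toFun x := (x : G) ^ n
  map_one' := by simp
  map_mul' x y := by
    have hc : Commute (x : G) (y : G) := h x x.2 y y.2
    rw [Subgroup.coe_mul, hc.mul_pow]

theorem uw_eq (A : Subgroup G) (h : ∀ x ∈ A, ∀ y ∈ A, x * y = y * x) (n : ℕ) :
    Uw n A = (ph A h n).range := by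
  apply le_antisymm
  · refine (Subgroup.closure_le _).2 ?_
    rintro _ ⟨v, hv, rfl⟩
    exact ⟨⟨v, hv⟩, rfl⟩
  · rintro _ ⟨v, rfl⟩
    exact Subgroup.subset_closure ⟨v, v.2, rfl⟩

theorem mem_uw {A : Subgroup G} (h : ∀ x ∈ A, ∀ y ∈ A, x * y = y * x) {n : ℕ} {x : G} :
    x ∈ Uw n A ↔ ∃ v ∈ A, x = v ^ n := by
  rw [uw_eq A h n]
  constructor
  · rintro ⟨v, rfl⟩
    exact ⟨v, v.2, rfl⟩
  · rintro ⟨v, hv, rfl⟩
    exact ⟨⟨v, hv⟩, rfl⟩

theorem uw_le {A : Subgroup G} (h : ∀ x ∈ A, ∀ y ∈ A, x * y = y * x) (n : ℕ) : Uw n A ≤ A := by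
  intro x hx
  obtain ⟨v, hv, rfl⟩ := (mem_uw h).1 hx
  exact A.pow_mem hv n

theorem card_uw [Finite G] (A : Subgroup G) (h : ∀ x ∈ A, ∀ y ∈ A, x * y = y * x) (n : ℕ) :
    Nat.card (ph A h n).ker * Nat.card (Uw n A) = Nat.card A := by
  rw [uw_eq A h n, ← Subgroup.index_ker]
  exact Subgroup.card_mul_index _

theorem uw_mono {A B : Subgroup G} (h : B ≤ A) (n : ℕ) : Uw n B ≤ Uw n A :=
  Subgroup.closure_mono (Set.image_mono h)

theorem part1 [Finite G] {A : Subgroup G} (h : ∀ x ∈ A, ∀ y ∈ A, x * y = y * x)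
    {B : Subgroup G} (hB : B ≤ A) (n : ℕ) :
    Nat.card B * Nat.card (Uw n A) ≤ Nat.card A * Nat.card (Uw n B) := by
  have h' : ∀ x ∈ B, ∀ y ∈ B, x * y = y * x := fun x hx y hy => h x (hB hx) y (hB hy)
  have h1 := card_uw A h n
  have h2 := card_uw B h' n
  have h3 : Nat.card (ph B h' n).ker ≤ Nat.card (ph A h n).ker := by
    refine Nat.card_le_card_of_injective
      (fun x : (ph B h' n).ker => (⟨⟨(x : B), hB (x : B).2⟩, x.2⟩ : (ph A h n).ker)) ?_
    intro x y hxy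
    apply Subtype.ext
    apply Subtype.ext
    exact congrArg (fun z : (ph A h n).ker => ((z : A) : G)) hxy
  rw [← h1, ← h2]
  calc Nat.card (ph B h' n).ker * Nat.card (Uw n B) * Nat.card (Uw n A)
      ≤ Nat.card (ph A h n).ker * Nat.card (Uw n B) * Nat.card (Uw n A) :=
        Nat.mul_le_mul_right _ (Nat.mul_le_mul_right _ h3)
    _ = Nat.card (ph A h n).ker * Nat.card (Uw n A) * Nat.card (Uw n B) := by ring

theorem uw_uw {A : Subgroup G} (h : ∀ x ∈ A, ∀ y ∈ A, x * y = y * x) (m n : ℕ) :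
    Uw n (Uw m A) = Uw (m * n) A := by
  have h' : ∀ x ∈ Uw m A, ∀ y ∈ Uw m A, x * y = y * x := fun x hx y hy =>
    h x (uw_le h m hx) y (uw_le h m hy)
  ext x
  rw [mem_uw h', mem_uw h]
  constructor
  · rintro ⟨v, hv, rfl⟩
    obtain ⟨a, ha, rfl⟩ := (mem_uw h).1 hv
    exact ⟨a, ha, (pow_mul a m n).symm⟩
  · rintro ⟨a, ha, rfl⟩
    exact ⟨a ^ m, (mem_uw h).2 ⟨a, ha, rfl⟩, pow_mul a m n⟩

theorem uw_one {A : Subgroup G} (h : ∀ x ∈ A, ∀ y ∈ A, x * y = y * x) : Uw 1 A = A := by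
  ext x
  rw [mem_uw h]
  constructor
  · rintro ⟨a, ha, rfl⟩
    rw [pow_one]
    exact ha
  · intro hx
    exact ⟨x, hx, (pow_one x).symm⟩

theorem part2 [Finite G] {A : Subgroup G} (h : ∀ x ∈ A, ∀ y ∈ A, x * y = y * x) (l r k : ℕ)
    (hA : Nat.card A ≤ l ^ r * Nat.card (Uw l A)) :
    Nat.card A ≤ l ^ (r * k) * Nat.card (Uw (l ^ k) A) := by
  induction k with
  | zero => rw [mul_zero, pow_zero, one_mul, uw_one h]
  | succ k ih =>
    have h1 := part1 h (uw_le h (l ^ k)) l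
    rw [uw_uw h, ← pow_succ] at h1
    have h2 : Nat.card (Uw (l ^ k) A) * Nat.card (Uw l A) ≤
        l ^ r * Nat.card (Uw (l ^ (k + 1)) A) * Nat.card (Uw l A) := by
      refine h1.trans ((Nat.mul_le_mul_right _ hA).trans (le_of_eq ?_))
      ring
    have h3 := Nat.le_of_mul_le_mul_right h2 Nat.card_pos
    calc Nat.card A ≤ l ^ (r * k) * Nat.card (Uw (l ^ k) A) := ih
      _ ≤ l ^ (r * k) * (l ^ r * Nat.card (Uw (l ^ (k + 1)) A)) := Nat.mul_le_mul_left _ h3
      _ = l ^ (r * (k + 1)) * Nat.card (Uw (l ^ (k + 1)) A) := by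
          rw [← mul_assoc, ← pow_add, mul_add, mul_one]

end ab

theorem uwa : UwaStmt := by
  intro G _ _ A h
  exact ⟨fun B hB n => part1 h hB n, fun l r k hA => part2 h l r k hA,
    fun B hB n => uw_mono hB n⟩

end Pool.Agent.PP.TB.H77
end
end -- Pool.Agent.Helper77_ATZ.UWA

section -- Pool.Agent.Helper31_ATZ.AVZ

/-!
# Squad ATZ, row AVZ: the average over `W = Z ^ (ℓ ^ k)`
-/

set_option autoImplicit false
set_option linter.unusedSectionVars false
set_option linter.style.haveILetI false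

open scoped BigOperators

noncomputable section

namespace Pool.Agent.PP.TB.H31

open Pool.Agent.Helper51_AWC Pool.Agent.Helper79_WRA Pool.Agent.PP Pool.Agent.PP.KF
open Pool.Agent.PP.K9 Pool.Agent.PP.K9.H97 Pool.Agent.PP.H75 Pool.Agent.PP.T3 Pool.Agent.PP.T2
open Pool.Agent.PP.T5

attribute [local instance] Ideal.Quotient.field

section orb

variable {X : Type} [CommGroup X] [Finite X] {ℓ : ℕ}

/-- `y` is a power of `x` with exponent `1` modulo `ℓ ^ e` -/
def Rl (q : ℕ) (x y : X) : Prop := ∃ j, j ≡ 1 [MOD q] ∧ y = x ^ j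

theorem cop_of {e j : ℕ} (he : 0 < e) (hj : j ≡ 1 [MOD ℓ ^ e]) :
    Nat.Coprime j ℓ := by
  have h1 : j ≡ 1 [MOD ℓ] := hj.of_dvd (dvd_pow_self ℓ he.ne')
  have h2 : Nat.gcd j ℓ = Nat.gcd 1 ℓ := Nat.ModEq.gcd_eq h1
  rw [Nat.Coprime, h2, Nat.gcd_one_left]

theorem Rl_symm (hℓ : ℓ.Prime) {E e : ℕ} (he : 0 < e) (heE : e ≤ E)
    (hE : ∀ x : X, x ^ ℓ ^ E = 1) {x y : X} (h : Rl (ℓ ^ e) x y) : Rl (ℓ ^ e) y x := by
  obtain ⟨j, hj, rfl⟩ := h
  have hc : Nat.Coprime j ℓ := cop_of he hj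
  have hE0 : 0 < E := by omega
  have hc2 : Nat.Coprime j (ℓ ^ E) := hc.pow_right E
  have h1 : 1 < ℓ ^ E := Nat.one_lt_pow hE0.ne' hℓ.one_lt
  obtain ⟨m, -, hm⟩ := Nat.exists_mul_mod_eq_one_of_coprime hc2 h1
  refine ⟨m, ?_, ?_⟩
  · have h2 : j * m ≡ 1 [MOD ℓ ^ E] := by
      rw [Nat.ModEq, hm, Nat.mod_eq_of_lt h1]
    have h3 : j * m ≡ 1 [MOD ℓ ^ e] := h2.of_dvd (pow_dvd_pow ℓ heE)
    have h4 : j * m ≡ 1 * m [MOD ℓ ^ e] := hj.mul_right m
    rw [one_mul] at h4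
    exact h4.symm.trans h3
  · rw [← pow_mul, ← Nat.div_add_mod (j * m) (ℓ ^ E), hm, pow_add, pow_mul, hE, one_pow, one_mul,
      pow_one]

theorem Rl_trans {q : ℕ} {x y z : X} (h : Rl q x y) (h' : Rl q y z) : Rl q x z := by
  obtain ⟨j, hj, rfl⟩ := h
  obtain ⟨j', hj', rfl⟩ := h'
  exact ⟨j * j', by simpa using hj.mul hj', by rw [pow_mul]⟩

/-- the number of the powers of `x` with exponents `1` modulo `ℓ ^ e` -/
theorem card_Rl [Fintype X] [DecidableEq X] (hℓ : ℓ.Prime) {e : ℕ} (he : 0 < e) {x : X} {m : ℕ}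
    (hm : orderOf x = ℓ ^ m) [DecidablePred (Rl (ℓ ^ e) x)] :
    (Finset.univ.filter (fun y : X => Rl (ℓ ^ e) x y)).card = ℓ ^ (m - e) := by
  have hle1 : 1 < ℓ ^ e := Nat.one_lt_pow he.ne' hℓ.one_lt
  have h1 : Finset.univ.filter (fun y : X => Rl (ℓ ^ e) x y) =
      (Finset.range (ℓ ^ (m - e))).image (fun i => x ^ (1 + ℓ ^ e * i)) := by
    ext y
    simp only [Finset.mem_filter, Finset.mem_univ, true_and, Finset.mem_image, Finset.mem_range]
    constructor
    · rintro ⟨j, hj, rfl⟩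
      refine ⟨(j / ℓ ^ e) % ℓ ^ (m - e), Nat.mod_lt _ (pow_pos hℓ.pos _), ?_⟩
      rw [pow_eq_pow_iff_modEq, hm]
      have h2 : j % ℓ ^ e = 1 := by
        rw [hj, Nat.mod_eq_of_lt hle1]
      have h3 : 1 + ℓ ^ e * (j / ℓ ^ e) = j := by
        have := Nat.div_add_mod j (ℓ ^ e)
        omega
      have h4 : ℓ ^ e * (j / ℓ ^ e % ℓ ^ (m - e)) ≡ ℓ ^ e * (j / ℓ ^ e) [MOD ℓ ^ m] := by
        have h6 := Nat.ModEq.mul_left' (ℓ ^ e) (Nat.mod_modEq (j / ℓ ^ e) (ℓ ^ (m - e)))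
        rw [← pow_add] at h6
        exact h6.of_dvd (pow_dvd_pow ℓ (by omega))
      have h5 := h4.add_left 1
      rw [h3] at h5
      exact h5
    · rintro ⟨i, -, rfl⟩
      exact ⟨1 + ℓ ^ e * i, by simp [Nat.ModEq], rfl⟩
  rw [h1, Finset.card_image_of_injOn, Finset.card_range]
  intro i hi i' hi' h
  simp only at h
  rw [pow_eq_pow_iff_modEq, hm] at h
  have hi2 := Finset.mem_range.1 hi
  have hi2' := Finset.mem_range.1 hi'
  by_cases hme : m < e
  · have h0 : m - e = 0 := by omega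
    rw [h0, pow_zero] at hi2 hi2'
    omega
  · have h2 : ℓ ^ e * i ≡ ℓ ^ e * i' [MOD ℓ ^ e * ℓ ^ (m - e)] := by
      have h7 := Nat.ModEq.add_left_cancel' 1 h
      rw [← pow_add]
      have h8 : e + (m - e) = m := by omega
      rw [h8]
      exact h7
    have h3 : i ≡ i' [MOD ℓ ^ (m - e)] :=
      Nat.ModEq.mul_left_cancel' (pow_ne_zero _ hℓ.ne_zero) h2
    rw [Nat.ModEq, Nat.mod_eq_of_lt hi2, Nat.mod_eq_of_lt hi2'] at h3
    exact h3

/-- The sum over the elements which are not killed by `ℓ ^ k` is divisible by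
`ℓ ^ (k + 1 - e)`. -/
theorem orb [Fintype X] [DecidableEq X] (R : Subring ℂ) (hℓ : ℓ.Prime) {E e : ℕ} (he : 0 < e)
    (heE : e ≤ E) (hE : ∀ x : X, x ^ ℓ ^ E = 1) (g : X → ℂ) (hg : ∀ x, g x ∈ R)
    (hj : ∀ x : X, ∀ j, j ≡ 1 [MOD ℓ ^ e] → g (x ^ j) = g x) (k : ℕ) :
    ∃ r ∈ R, ∑ x ∈ Finset.univ.filter (fun x : X => x ^ ℓ ^ k ≠ 1), g x =
      (ℓ : ℂ) ^ (k + 1 - e) * r := by
  classical
  let S : Setoid X :=
    { r := Rl (ℓ ^ e)
      iseqv := ⟨fun x => ⟨1, rfl, (pow_one x).symm⟩, fun h => Rl_symm hℓ he heE hE h,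
        fun h h' => Rl_trans h h'⟩ }
  set s : Finset X := Finset.univ.filter (fun x : X => x ^ ℓ ^ k ≠ 1) with hs
  have key : ∀ x0 ∈ s, ∃ r ∈ R, ∑ y ∈ s.filter (fun y => Quotient.mk S y = Quotient.mk S x0), g y =
      (ℓ : ℂ) ^ (k + 1 - e) * r := by
    intro x0 hx0
    have hx1 : x0 ^ ℓ ^ k ≠ 1 := (Finset.mem_filter.1 hx0).2
    obtain ⟨m, hm1, hm2⟩ := (Nat.dvd_prime_pow hℓ).1 (orderOf_dvd_of_pow_eq_one (hE x0))
    have hkm : k < m := by
      by_contra h
      push Not at h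
      apply hx1
      rw [← orderOf_dvd_iff_pow_eq_one, hm2]
      exact pow_dvd_pow ℓ h
    have h1 : s.filter (fun y => Quotient.mk S y = Quotient.mk S x0) =
        Finset.univ.filter (fun y : X => Rl (ℓ ^ e) x0 y) := by
      ext y
      simp only [hs, Finset.mem_filter, Finset.mem_univ, true_and]
      constructor
      · rintro ⟨-, h⟩
        exact Rl_symm hℓ he heE hE (Quotient.exact h)
      · intro h
        refine ⟨fun h0 => hx1 ?_, Quotient.sound (Rl_symm hℓ he heE hE h)⟩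
        obtain ⟨j, -, h2⟩ := Rl_symm hℓ he heE hE h
        rw [h2, ← pow_mul, mul_comm, pow_mul, h0, one_pow]
    refine ⟨(ℓ : ℂ) ^ ((m - e) - (k + 1 - e)) * g x0,
      R.mul_mem (R.pow_mem (natCast_mem R ℓ) _) (hg x0), ?_⟩
    rw [h1]
    have h2 : ∀ y ∈ Finset.univ.filter (fun y : X => Rl (ℓ ^ e) x0 y), g y = g x0 := by
      intro y hy
      obtain ⟨j, hj1, rfl⟩ := (Finset.mem_filter.1 hy).2
      exact hj x0 j hj1
    rw [Finset.sum_congr rfl h2, Finset.sum_const, card_Rl hℓ he hm2, nsmul_eq_mul, ← mul_assoc,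
      ← pow_add, Nat.add_sub_of_le (by omega)]
    push_cast
    rfl
  have h0 := Finset.sum_partition S (s := s) (f := g)
  have key2 : ∀ q ∈ s.image (Quotient.mk S), ∃ r ∈ R,
      ∑ y ∈ s.filter (fun y => Quotient.mk S y = q), g y = (ℓ : ℂ) ^ (k + 1 - e) * r := by
    intro q hq
    obtain ⟨x0, hx0, rfl⟩ := Finset.mem_image.1 hq
    exact key x0 hx0
  choose! r hr1 hr2 using key2
  refine ⟨∑ q ∈ s.image (Quotient.mk S), r q, Subring.sum_mem _ fun q hq => hr1 q hq, ?_⟩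
  rw [Finset.mul_sum, h0]
  exact Finset.sum_congr rfl fun q hq => hr2 q hq

end orb

open Pool.Agent.PP.T8.H95 in
/-- AVZ -/
theorem avz : AvzStmt := by
  intro ℓ hℓ M hM hlM G _ _ N hGS V hP hV f hf hfN k W hW
  classical
  have hℓp : ℓ.Prime := hℓ.out
  haveI := finite_units V
  letI := Fintype.ofFinite (V →* ℂˣ)
  haveI := Fintype.ofFinite V
  have hep : 0 < ep ℓ := by
    unfold ep
    split_ifs <;> omega
  -- the exponent
  obtain ⟨E, hE⟩ := (IsPGroup.iff_card (p := ℓ) (G := V)).1 hP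
  have hEV : ∀ v : V, v ^ ℓ ^ (E + ep ℓ) = 1 := by
    intro v
    rw [pow_add, pow_mul, ← hE, pow_card_eq_one', one_pow]
  have hEX : ∀ χ : V →* ℂˣ, χ ^ ℓ ^ (E + ep ℓ) = 1 := by
    intro χ
    ext v
    rw [MonoidHom.pow_apply, ← map_pow, hEV, map_one, MonoidHom.one_apply]
  -- invariance of the coefficients
  have hfk : ∀ n : ℕ, ∀ v ∈ V, f (v ^ N ^ n) = f v := by
    intro n
    induction n with
    | zero => intro v _; rw [pow_zero, pow_one]
    | succ n ih =>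
      intro v hv
      rw [pow_succ, pow_mul, hfN _ (V.pow_mem hv _), ih v hv]
  have hc : ∀ χ : V →* ℂˣ, ∀ j, j ≡ 1 [MOD ℓ ^ ep ℓ] → cu V f (χ ^ j) = cu V f χ := by
    intro χ j hj
    have hcop : Nat.Coprime ℓ j := (cop_of hep hj).symm
    obtain ⟨n, hn⟩ := hGS.gen 1 j (by
      intro h
      exact hℓp.one_lt.ne' (Nat.dvd_one.1 h)) hj.symm
    refine cu_pow (by rw [hE]; exact hcop.pow_left E) (fun v hv => ?_) χ
    have hEl : El ℓ v := by
      refine ⟨E + ep ℓ, ?_⟩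
      have := hEV ⟨v, hv⟩
      exact congrArg (fun x : V => (x : G)) this
    have h2 := hn v hEl
    rw [pow_one] at h2
    rw [← h2, hfk n v hv]
  have hcRM : ∀ χ, cu V f χ ∈ RM M := fun χ => hf _
  -- the average
  have hW1 : ∀ x, x ∈ W ↔ ∃ v ∈ V, x = v ^ ℓ ^ k := by
    intro x
    rw [hW]
    exact H77.mem_uw hV
  have hW2 : W ≤ V := by
    rw [hW]
    exact H77.uw_le hV _
  have hA : (Nat.card W : ℂ)⁻¹ * ∑ᶠ w : W, f w =
      ∑ χ ∈ Finset.univ.filter (fun χ : V →* ℂˣ => χ ^ ℓ ^ k = 1), cu V f χ := by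
    haveI := Fintype.ofFinite W
    rw [finsum_eq_sum_of_fintype]
    have h1 : ∀ w : W, f w = ∑ χ : V →* ℂˣ, cu V f χ * (χ ⟨w, hW2 w.2⟩ : ℂ) := by
      intro w
      exact inv_units hV f (⟨w, hW2 w.2⟩ : V)
    rw [Finset.sum_congr rfl fun w _ => h1 w, Finset.sum_comm, Finset.mul_sum, Finset.sum_filter]
    refine Finset.sum_congr rfl fun χ _ => ?_
    rw [← Finset.mul_sum]
    have hcard : (Nat.card W : ℂ) ≠ 0 := by
      have : 0 < Nat.card W := Nat.card_pos
      exact_mod_cast this.ne'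
    let ψ : W →* ℂ := (Units.coeHom ℂ).comp (χ.comp (Subgroup.inclusion hW2))
    have h4 : ∑ w : W, (χ ⟨w, hW2 w.2⟩ : ℂ) = ∑ w : W, ψ w := rfl
    rw [h4, sum_hom_units ψ]
    have h5 : ψ = 1 ↔ χ ^ ℓ ^ k = 1 := by
      constructor
      · intro h
        ext v
        have h6 : (v : G) ^ ℓ ^ k ∈ W := (hW1 _).2 ⟨v, v.2, rfl⟩
        have h7 := DFunLike.congr_fun h ⟨(v : G) ^ ℓ ^ k, h6⟩
        have h8 : ψ ⟨(v : G) ^ ℓ ^ k, h6⟩ = (χ (v ^ ℓ ^ k) : ℂ) := rfl
        rw [h8, map_pow] at h7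
        rw [MonoidHom.pow_apply]
        exact h7
      · intro h
        ext w
        obtain ⟨v, hv, hwv⟩ := (hW1 w).1 w.2
        have h7 : Subgroup.inclusion hW2 w = (⟨v, hv⟩ : V) ^ ℓ ^ k := by
          ext
          exact hwv
        show ((χ (Subgroup.inclusion hW2 w) : ℂˣ) : ℂ) = 1
        rw [h7, map_pow, ← MonoidHom.pow_apply, h, MonoidHom.one_apply, Units.val_one]
    by_cases h6 : χ ^ ℓ ^ k = 1
    · rw [if_pos h6, if_pos (h5.2 h6), ← Nat.card_eq_fintype_card]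
      field_simp
    · rw [if_neg h6, if_neg (fun h => h6 (h5.1 h))]
      push_cast
      ring
  refine ⟨?_, ?_⟩
  · rw [hA]
    exact Subring.sum_mem _ fun χ _ => hcRM χ
  · have h1 : f 1 = ∑ χ : V →* ℂˣ, cu V f χ := by
      have h3 := inv_units hV f (1 : V)
      rw [Subgroup.coe_one] at h3
      rw [h3]
      refine Finset.sum_congr rfl fun χ _ => ?_
      rw [map_one, Units.val_one, mul_one]
    have h2 : f 1 - (Nat.card W : ℂ)⁻¹ * ∑ᶠ w : W, f w =
        ∑ χ ∈ Finset.univ.filter (fun χ : V →* ℂˣ => χ ^ ℓ ^ k ≠ 1), cu V f χ := by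
      rw [hA, h1, ← Finset.sum_filter_add_sum_filter_not Finset.univ
        (fun χ : V →* ℂˣ => χ ^ ℓ ^ k = 1)]
      ring
    have hq1 := orb (X := V →* ℂˣ) (RM M) (E := E + ep ℓ) (e := ep ℓ) hℓp hep
      (Nat.le_add_left (ep ℓ) E) hEX (cu V f)
    obtain ⟨r, hr, h3⟩ := hq1 hcRM hc k
    rw [h2, h3, mul_comm, mul_div_assoc,
      div_self (pow_ne_zero _ (Nat.cast_ne_zero.2 hℓp.ne_zero)), mul_one]
    exact hr

end Pool.Agent.PP.TB.H31
end
end -- Pool.Agent.Helper31_ATZ.AVZ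

section -- Pool.Agent.Helper61_ATW.AVP

/-!
# AVP: averages over cosets of a subgroup of `V ^ 2`
-/

set_option autoImplicit false
set_option linter.unusedSectionVars false
set_option linter.style.haveILetI false

open scoped BigOperators

noncomputable section

namespace Pool.Agent.PP.TW.H61

open Pool.Agent.Helper51_AWC Pool.Agent.Helper79_WRA Pool.Agent.PP Pool.Agent.PP.KF
open Pool.Agent.PP.K9 Pool.Agent.PP.K9.H97 Pool.Agent.PP.H75 Pool.Agent.PP.T3 Pool.Agent.PP.T2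
open Pool.Agent.PP.T5 Pool.Agent.PP.TB
open Pool.Agent.PP.T8 (rs pw fv rd Ip Rv vv Dat Fr)

attribute [local instance] Ideal.Quotient.field

/-- sums of invariant functions over sets without fixed points, characteristic two -/
theorem inv_sum {X R : Type*} [DecidableEq X] [CommRing R] (h2 : (2 : R) = 0) (s : X → X)
    (g : X → R) (hg : ∀ x, g (s x) = g x) : ∀ (k : ℕ) (S : Finset X), (∀ x ∈ S, s x ∈ S) →
    (∀ x ∈ S, s^[2 ^ k] x = x) → (∀ x ∈ S, s x ≠ x) → ∑ x ∈ S, g x = 0 := by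
  intro k
  induction k with
  | zero =>
    intro S _ h1 h3
    refine Finset.sum_eq_zero fun x hx => ?_
    exact absurd (h1 x hx) (h3 x hx)
  | succ k ih =>
    intro S hS h1 h3
    have hit : ∀ n : ℕ, ∀ x ∈ S, s^[n] x ∈ S := by
      intro n
      induction n with
      | zero => intro x hx; exact hx
      | succ n ihn =>
        intro x hx
        rw [Function.iterate_succ_apply']
        exact hS _ (ihn x hx)
    have hgi : ∀ n : ℕ, ∀ x, g (s^[n] x) = g x := by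
      intro n
      induction n with
      | zero => intro x; rfl
      | succ n ihn =>
        intro x
        rw [Function.iterate_succ_apply', hg, ihn]
    rw [← Finset.sum_filter_add_sum_filter_not S (fun x => s^[2 ^ k] x = x)]
    have e1 : ∑ x ∈ S.filter (fun x => s^[2 ^ k] x = x), g x = 0 := by
      refine ih _ ?_ ?_ ?_
      · intro x hx
        rw [Finset.mem_filter] at hx ⊢
        refine ⟨hS x hx.1, ?_⟩
        rw [← Function.iterate_succ_apply, Function.iterate_succ_apply', hx.2]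
      · intro x hx
        exact (Finset.mem_filter.1 hx).2
      · intro x hx
        exact h3 x (Finset.mem_filter.1 hx).1
    have hdd : ∀ x ∈ S, s^[2 ^ k] (s^[2 ^ k] x) = x := by
      intro x hx
      rw [← Function.iterate_add_apply, ← two_mul, ← pow_succ']
      exact h1 x hx
    have e2 : ∑ x ∈ S.filter (fun x => ¬ s^[2 ^ k] x = x), g x = 0 := by
      refine Finset.sum_involution (fun x _ => s^[2 ^ k] x) ?_ ?_ ?_ ?_
      · intro x _
        rw [hgi, ← two_mul, h2, zero_mul]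
      · intro x hx _
        exact (Finset.mem_filter.1 hx).2
      · intro x hx
        rw [Finset.mem_filter] at hx ⊢
        refine ⟨hit _ x hx.1, ?_⟩
        rw [hdd x hx.1]
        exact fun h => hx.2 h.symm
      · intro x hx
        exact hdd x (Finset.mem_filter.1 hx).1
    rw [e1, e2, add_zero]

theorem iter_pow {X : Type*} [Monoid X] (x : X) (n : ℕ) :
    (fun y : X => y ^ 3)^[n] x = x ^ 3 ^ n := by
  induction n with
  | zero => simp
  | succ n ih => rw [Function.iterate_succ_apply', ih, ← pow_mul, ← pow_succ]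

theorem three_pow (E : ℕ) : 3 ^ 2 ^ E ≡ 1 [MOD 2 ^ (E + 1)] := by
  have h : Nat.Coprime 3 (2 ^ (E + 1)) := Nat.Coprime.pow_right _ (by norm_num)
  have h2 := Nat.ModEq.pow_totient h
  rw [Nat.totient_prime_pow_succ Nat.prime_two] at h2
  simpa using h2

theorem three_pow_id {X : Type*} [Group X] (x : X) (E : ℕ) (h : x ^ 2 ^ (E + 1) = 1) :
    x ^ 3 ^ 2 ^ E = x := by
  have h5 : x ^ 3 ^ 2 ^ E = x ^ 1 := by
    rw [pow_eq_pow_iff_modEq]
    exact (three_pow E).of_dvd (orderOf_dvd_of_pow_eq_one h)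
  rw [h5, pow_one]

theorem sq_of_three {X : Type*} [Group X] (x : X) (h : x ^ 3 = x) : x ^ 2 = 1 := by
  have h5 : x ^ 2 * x = 1 * x := by
    rw [one_mul, ← pow_succ]
    exact h
  exact mul_right_cancel h5

theorem sq_one_of {X : Type*} [Group X] (x : X) (E : ℕ) (hE : x ^ 2 ^ (E + 1) = 1)
    (h : (x ^ 3) ^ 2 = 1) : x ^ 2 = 1 := by
  have h5 : (x ^ 2) ^ 3 = 1 := by rw [← pow_mul, mul_comm, pow_mul, h]
  have h6 : (x ^ 2) ^ 2 ^ (E + 1) = 1 := by rw [← pow_mul, mul_comm, pow_mul, hE, one_pow]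
  have h7 : orderOf (x ^ 2) ∣ Nat.gcd 3 (2 ^ (E + 1)) :=
    Nat.dvd_gcd (orderOf_dvd_of_pow_eq_one h5) (orderOf_dvd_of_pow_eq_one h6)
  have h8 : Nat.gcd 3 (2 ^ (E + 1)) = 1 := Nat.Coprime.pow_right _ (by norm_num)
  rw [h8, Nat.dvd_one] at h7
  exact orderOf_eq_one_iff.1 h7

theorem avp : AvpStmt := by
  intro M hM hlM G _ _ V hP hV f hf hf3 W hWV hW y hy
  classical
  haveI := T8.H95.finite_units V
  letI := Fintype.ofFinite (V →* ℂˣ)
  haveI := Fintype.ofFinite V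
  haveI : Fact (Nat.Prime 2) := ⟨Nat.prime_two⟩
  have h20 : (2 : FF M) = 0 := by
    have h := (Ideal.Quotient.eq_zero_iff_mem (I := M)).2 hlM
    rw [map_natCast] at h
    exact_mod_cast h
  obtain ⟨E, hE⟩ := (IsPGroup.iff_card (p := 2) (G := V)).1 hP
  have hEV : ∀ v : V, v ^ 2 ^ (E + 1) = 1 := by
    intro v
    rw [pow_succ, pow_mul, ← hE, pow_card_eq_one', one_pow]
  have hEX : ∀ χ : V →* ℂˣ, χ ^ 2 ^ (E + 1) = 1 := by
    intro χ
    ext v
    rw [MonoidHom.pow_apply, ← map_pow, hEV, map_one, MonoidHom.one_apply]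
  have hc : ∀ χ : V →* ℂˣ, T8.H95.cu V f (χ ^ 3) = T8.H95.cu V f χ := by
    intro χ
    refine T8.H95.cu_pow ?_ hf3 χ
    rw [hE]
    exact Nat.Coprime.pow_left E (by norm_num)
  let ev : (V →* ℂˣ) →* ℂ :=
    { toFun := fun χ => (χ ⟨y, hy⟩ : ℂ)
      map_one' := by simp
      map_mul' := by intro a b; simp }
  have hev : ∀ χ, ev χ = (χ ⟨y, hy⟩ : ℂ) := fun χ => rfl
  have hevRM : ∀ χ, ev χ ∈ RM M := by
    intro χ
    exact RM_of_int (T8.H21.lam_integral ((Units.coeHom ℂ).comp χ) ⟨y, hy⟩)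
  have hevr : ∀ χ, rr M (ev χ) = 1 := by
    intro χ
    refine (T3.H41.rr_root (ℓ := 2) hlM (k := E + 1) ?_).2
    rw [← map_pow, hEX, map_one]
  have hcRM : ∀ χ, T8.H95.cu V f χ ∈ RM M := fun χ => hf _
  -- the average
  have hA : (Nat.card W : ℂ)⁻¹ * ∑ᶠ w : W, f (y * w) =
      ∑ χ ∈ Finset.univ.filter (fun χ : V →* ℂˣ => ∀ w : W, χ ⟨w, hWV w.2⟩ = 1),
        T8.H95.cu V f χ * ev χ := by
    haveI := Fintype.ofFinite W
    rw [finsum_eq_sum_of_fintype]
    have h1 : ∀ w : W, f (y * w) =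
        ∑ χ : V →* ℂˣ, T8.H95.cu V f χ * ev χ * (χ ⟨w, hWV w.2⟩ : ℂ) := by
      intro w
      have h2 := T8.H95.inv_units hV f (⟨y, hy⟩ * ⟨w, hWV w.2⟩ : V)
      have h3 : ((⟨y, hy⟩ * ⟨w, hWV w.2⟩ : V) : G) = y * w := rfl
      rw [h3] at h2
      rw [h2]
      refine Finset.sum_congr rfl fun χ _ => ?_
      rw [map_mul, Units.val_mul, hev, mul_assoc]
    rw [Finset.sum_congr rfl fun w _ => h1 w, Finset.sum_comm, Finset.mul_sum, Finset.sum_filter]
    refine Finset.sum_congr rfl fun χ _ => ?_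
    rw [← Finset.mul_sum]
    have hcard : (Nat.card W : ℂ) ≠ 0 := by
      have : 0 < Nat.card W := Nat.card_pos
      exact_mod_cast this.ne'
    let ψ : W →* ℂ := (Units.coeHom ℂ).comp (χ.comp (Subgroup.inclusion hWV))
    have h4 : ∑ w : W, (χ ⟨w, hWV w.2⟩ : ℂ) = ∑ w : W, ψ w := rfl
    rw [h4, sum_hom_units ψ]
    have h5 : ψ = 1 ↔ ∀ w : W, χ ⟨w, hWV w.2⟩ = 1 := by
      constructor
      · intro h w
        have h7 := DFunLike.congr_fun h w
        ext
        exact h7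
      · intro h
        ext w
        show ((χ ⟨w, hWV w.2⟩ : ℂˣ) : ℂ) = 1
        rw [h w, Units.val_one]
    by_cases h6 : ∀ w : W, χ ⟨w, hWV w.2⟩ = 1
    · rw [if_pos h6, if_pos (h5.2 h6), ← Nat.card_eq_fintype_card]
      field_simp
    · rw [if_neg h6, if_neg (fun h => h6 (h5.1 h))]
      push_cast
      ring
  have hF : f y = ∑ χ : V →* ℂˣ, T8.H95.cu V f χ * ev χ := T8.H95.inv_units hV f ⟨y, hy⟩
  -- the residues
  have key : ∀ P : (V →* ℂˣ) → Prop, (∀ χ, P χ → P (χ ^ 3)) → (∀ χ, χ ^ 2 = 1 → P χ) →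
      rr M (∑ χ ∈ Finset.univ.filter P, T8.H95.cu V f χ * ev χ) =
      ∑ χ ∈ Finset.univ.filter (fun χ : V →* ℂˣ => χ ^ 2 = 1), rr M (T8.H95.cu V f χ) := by
    intro P hP3 hP2
    rw [rr_sum _ _ fun χ _ => (RM M).mul_mem (hcRM χ) (hevRM χ)]
    have e1 : ∀ χ ∈ Finset.univ.filter P, rr M (T8.H95.cu V f χ * ev χ) = rr M (T8.H95.cu V f χ) := by
      intro χ _
      rw [rr_mul (hcRM χ) (hevRM χ), hevr, mul_one]
    rw [Finset.sum_congr rfl e1, ← Finset.sum_filter_add_sum_filter_not (Finset.univ.filter P)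
      (fun χ : V →* ℂˣ => χ ^ 2 = 1)]
    have e2 : (Finset.univ.filter P).filter (fun χ : V →* ℂˣ => χ ^ 2 = 1) =
        Finset.univ.filter (fun χ : V →* ℂˣ => χ ^ 2 = 1) := by
      ext χ
      simp only [Finset.mem_filter, Finset.mem_univ, true_and]
      exact ⟨fun h => h.2, fun h => ⟨hP2 χ h, h⟩⟩
    have e3 : ∑ χ ∈ (Finset.univ.filter P).filter (fun χ : V →* ℂˣ => ¬ χ ^ 2 = 1),
        rr M (T8.H95.cu V f χ) = 0 := by
      refine inv_sum h20 (fun χ : V →* ℂˣ => χ ^ 3) (fun χ => rr M (T8.H95.cu V f χ))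
        (fun χ => by rw [hc]) E _ ?_ ?_ ?_
      · intro χ hχ
        simp only [Finset.mem_filter, Finset.mem_univ, true_and] at hχ ⊢
        refine ⟨hP3 χ hχ.1, fun h => hχ.2 ?_⟩
        exact sq_one_of χ E (hEX χ) h
      · intro χ _
        rw [iter_pow]
        exact three_pow_id χ E (hEX χ)
      · intro χ hχ h
        simp only [Finset.mem_filter, Finset.mem_univ, true_and] at hχ
        exact hχ.2 (sq_of_three χ h)
    rw [e2, e3, add_zero]
  refine ⟨?_, ?_, ?_⟩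
  · rw [hF]
    exact Subring.sum_mem _ fun χ _ => (RM M).mul_mem (hcRM χ) (hevRM χ)
  · rw [hA]
    exact Subring.sum_mem _ fun χ _ => (RM M).mul_mem (hcRM χ) (hevRM χ)
  · have k1 := key (fun χ : V →* ℂˣ => ∀ w : W, χ ⟨w, hWV w.2⟩ = 1) (by
      intro χ h w
      rw [MonoidHom.pow_apply, h w, one_pow]) (by
      intro χ h w
      obtain ⟨x, hx, hwx⟩ := hW w w.2
      have h1 : (⟨w, hWV w.2⟩ : V) = (⟨x, hx⟩ : V) ^ 2 := by
        ext
        exact hwx
      rw [h1, map_pow, ← MonoidHom.pow_apply, h, MonoidHom.one_apply])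
    have k2 := key (fun _ => True) (fun _ _ => trivial) (fun _ _ => trivial)
    rw [Finset.filter_true] at k2
    rw [hA, hF, k1, k2]

end Pool.Agent.PP.TW.H61
end
end -- Pool.Agent.Helper61_ATW.AVP

section -- Pool.Agent.Helper56_AT6.CNA

/-!
# Squad AT6, row CNA: congruences for the characters fixed by the power map
-/

open scoped BigOperators

noncomputable section

namespace Pool.Agent.PP.T6.H56

open Pool.Agent.Helper51_AWC Pool.Agent.Helper79_WRA Pool.Agent.PP Pool.Agent.PP.KF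
open Pool.Agent.PP.K9 Pool.Agent.PP.K9.H97 Pool.Agent.PP.H75 Pool.Agent.PP.T3 Pool.Agent.PP.T2

attribute [local instance] Ideal.Quotient.field

section arith

variable {G : Type} [Group G] [Finite G]

/-- the exponent which gives the `ℓ`-part -/
theorem exists_e (ℓ : ℕ) [hp : Fact ℓ.Prime] (N : ℕ) (h5 : T5.G5 G ℓ N) :
    ∃ e K : ℕ, (∀ g : G, El ℓ g → g ^ e = g) ∧ (∀ g : G, g ^ (e * ℓ ^ K) = 1) ∧
      ∀ i : ℕ, (1 + e * ℓ ^ T5.ep ℓ * i).Coprime (Nat.card G) ∧
        ∃ k : ℕ, ∀ g : G, g ^ N ^ k = g ^ (1 + e * ℓ ^ T5.ep ℓ * i) := by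
  have hℓ : ℓ.Prime := hp.out
  have hn : Nat.card G ≠ 0 := Nat.card_pos.ne'
  obtain ⟨K, n', hn', hcard⟩ := Nat.exists_eq_pow_mul_and_not_dvd hn ℓ hℓ.ne_one
  have hcop : (ℓ ^ K).Coprime n' := Nat.Coprime.pow_left K ((Nat.Prime.coprime_iff_not_dvd hℓ).2 hn')
  obtain ⟨e, he1, he2⟩ := Nat.chineseRemainder hcop 1 0
  obtain ⟨e', he1', he2'⟩ := Nat.chineseRemainder hcop 0 1
  have hen : n' ∣ e := (Nat.modEq_zero_iff_dvd).1 he2
  have heK' : ℓ ^ K ∣ e' := (Nat.modEq_zero_iff_dvd).1 he1'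
  have hall : ∀ (g : G) (m : ℕ), Nat.card G ∣ m → g ^ m = 1 := by
    intro g m hm
    rw [← orderOf_dvd_iff_pow_eq_one]
    exact (orderOf_dvd_natCard g).trans hm
  have hE2 : ∀ g : G, g ^ (e * ℓ ^ K) = 1 := by
    intro g
    apply hall
    rw [hcard, mul_comm]
    exact Nat.mul_dvd_mul hen (dvd_refl _)
  have hE1 : ∀ g : G, El ℓ g → g ^ e = g := by
    intro g hg
    obtain ⟨m, hm⟩ := hg
    obtain ⟨t, -, ht⟩ := (Nat.dvd_prime_pow hℓ).1 (orderOf_dvd_iff_pow_eq_one.2 hm)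
    have h1 : ℓ ^ t ∣ ℓ ^ K := by
      have h2 : ℓ ^ t ∣ ℓ ^ K * n' := by
        rw [← ht, ← hcard]
        exact orderOf_dvd_natCard g
      exact Nat.Coprime.dvd_of_dvd_mul_right
        (Nat.Coprime.pow_left t ((Nat.Prime.coprime_iff_not_dvd hℓ).2 hn')) h2
    have h3 : e ≡ 1 [MOD orderOf g] := by
      rw [ht]
      exact he1.of_dvd h1
    have h4 := pow_eq_pow_iff_modEq.2 h3
    rwa [pow_one] at h4
  have hEl : ∀ g : G, El ℓ (g ^ e) := fun g => ⟨K, by rw [← pow_mul, hE2]⟩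
  have hReg : ∀ g : G, Reg ℓ (g ^ e') := by
    intro g
    unfold Reg
    have h1 : orderOf (g ^ e') ∣ n' := by
      rw [orderOf_dvd_iff_pow_eq_one, ← pow_mul]
      apply hall
      rw [hcard]
      exact Nat.mul_dvd_mul heK' (dvd_refl _)
    exact Nat.Coprime.coprime_dvd_left h1
      (((Nat.Prime.coprime_iff_not_dvd hℓ).2 hn').symm)
  have hee : ∀ g : G, g ^ (e + e') = g := by
    intro g
    have h1 : e + e' ≡ 1 [MOD ℓ ^ K * n'] := by
      rw [← Nat.modEq_and_modEq_iff_modEq_mul hcop]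
      constructor
      · have := he1.add he1'
        rwa [add_zero] at this
      · have := he2.add he2'
        rwa [zero_add] at this
    rw [← hcard] at h1
    have h2 := pow_eq_pow_iff_modEq.2 (h1.of_dvd (orderOf_dvd_natCard g))
    rwa [pow_one] at h2
  refine ⟨e, K, hE1, hE2, fun i => ⟨?_, ?_⟩⟩
  · rw [hcard]
    apply Nat.Coprime.mul_right
    · apply Nat.Coprime.pow_right
      have h1 : ℓ ∣ e * ℓ ^ T5.ep ℓ * i := by
        have h2 : ℓ ∣ ℓ ^ T5.ep ℓ := by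
          apply dvd_pow_self
          unfold T5.ep
          split_ifs <;> norm_num
        exact Dvd.dvd.mul_right (Dvd.dvd.mul_left h2 e) i
      obtain ⟨s, hs⟩ := h1
      rw [hs]
      simp
    · obtain ⟨s, hs⟩ := hen
      rw [hs, mul_assoc, mul_assoc]
      simp
  · obtain ⟨k, hk⟩ := h5.gen 1 (1 + ℓ ^ T5.ep ℓ * i) (fun h => hℓ.one_lt.ne'
      (Nat.dvd_one.1 h)) (by
        have : (1 + ℓ ^ T5.ep ℓ * i) ≡ 1 [MOD ℓ ^ T5.ep ℓ] := by
          unfold Nat.ModEq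
          rw [Nat.add_mul_mod_self_left]
        exact this.symm)
    refine ⟨k, fun g => ?_⟩
    have hr : ∀ j : ℕ, (g ^ e') ^ N ^ j = g ^ e' := by
      intro j
      induction j with
      | zero => rw [pow_zero, pow_one]
      | succ j ih => rw [pow_succ, pow_mul, ih, h5.reg _ (hReg g)]
    have h1 := hk (g ^ e) (hEl g)
    rw [pow_one] at h1
    calc g ^ N ^ k = (g ^ (e + e')) ^ N ^ k := by rw [hee]
      _ = (g ^ e) ^ N ^ k * (g ^ e') ^ N ^ k := by
          rw [pow_add, Commute.mul_pow (Commute.pow_pow_self g e e')]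
      _ = g ^ (e * (1 + ℓ ^ T5.ep ℓ * i)) * g ^ e' := by rw [h1, hr, ← pow_mul]
      _ = g ^ (e + e') * g ^ (e * ℓ ^ T5.ep ℓ * i) := by
          rw [← pow_add, ← pow_add]
          congr 1
          ring
      _ = g ^ (1 + e * ℓ ^ T5.ep ℓ * i) := by rw [hee, pow_add, pow_one]

end arith

section chars

variable {A : Type} [Group A] [Finite A]

theorem lam_ne (lam : A →* ℂ) (v : A) : lam v ≠ 0 := by
  intro h
  have h1 := T8.H21.lam_inv lam v
  rw [h, zero_mul] at h1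
  exact zero_ne_one h1

theorem hom_pow_card (lam : A →* ℂ) : lam ^ Nat.card A = 1 := by
  ext v
  rw [MonoidHom.pow_apply, T8.H21.lam_pow, MonoidHom.one_apply]

theorem one_add_pow (E i t : ℕ) : ∃ i', (1 + E * i) ^ t = 1 + E * i' := by
  induction t with
  | zero => exact ⟨0, by simp⟩
  | succ t ih =>
    obtain ⟨i', hi'⟩ := ih
    exact ⟨i' + i + E * i * i', by rw [pow_succ, hi']; ring⟩

/-- the equivalence relation on the characters -/
def rel (A : Type) [Group A] [Finite A] (E : ℕ)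
    (hE : ∀ i : ℕ, (1 + E * i).Coprime (Nat.card A)) : Setoid (A →* ℂ) where
  r lam lam' := ∃ i, lam' = lam ^ (1 + E * i)
  iseqv := by
    refine ⟨fun lam => ⟨0, by simp⟩, ?_, ?_⟩
    · rintro lam lam' ⟨i, rfl⟩
      have h1 := Nat.ModEq.pow_totient (hE i)
      have hpos : 0 < (Nat.card A).totient := Nat.totient_pos.2 Nat.card_pos
      obtain ⟨i', hi'⟩ := one_add_pow E i ((Nat.card A).totient - 1)
      refine ⟨i', ?_⟩
      rw [← hi', ← pow_mul, ← pow_succ', Nat.sub_add_cancel hpos]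
      have h2 : ∀ m : ℕ, m ≡ 1 [MOD Nat.card A] → lam ^ m = lam := by
        intro m hm
        have h3 : lam ^ (m % Nat.card A) = lam ^ m := by
          conv_rhs => rw [← Nat.div_add_mod m (Nat.card A)]
          rw [pow_add, pow_mul, hom_pow_card, one_pow, one_mul]
        have h4 : lam ^ (1 % Nat.card A) = lam ^ 1 := by
          conv_rhs => rw [← Nat.div_add_mod 1 (Nat.card A)]
          rw [pow_add, pow_mul, hom_pow_card, one_pow, one_mul]
        rw [← h3, hm, h4, pow_one]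
      exact (h2 _ h1).symm
    · rintro lam _ _ ⟨i, rfl⟩ ⟨j, rfl⟩
      refine ⟨i + j + E * i * j, ?_⟩
      rw [← pow_mul]
      congr 1
      ring

/-- sums over a class -/
theorem class_sum [Fintype (A →* ℂ)] (E : ℕ) (hE : ∀ i : ℕ, (1 + E * i).Coprime (Nat.card A))
    (lam : A →* ℂ) [DecidablePred fun mu : A →* ℂ => ∃ i, mu = lam ^ (1 + E * i)]
    (h : (A →* ℂ) → ℂ) :
    ∑ mu ∈ Finset.univ.filter (fun mu : A →* ℂ => ∃ i, mu = lam ^ (1 + E * i)), h mu =
      ∑ i ∈ Finset.range (orderOf (lam ^ E)), h (lam * (lam ^ E) ^ i) := by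
  classical
  have hpos : 0 < orderOf (lam ^ E) := by
    rw [orderOf_pos_iff, isOfFinOrder_iff_pow_eq_one]
    refine ⟨Nat.card A, Nat.card_pos, ?_⟩
    rw [← pow_mul, mul_comm, pow_mul, hom_pow_card, one_pow]
  have h1 : Finset.univ.filter (fun mu : A →* ℂ => ∃ i, mu = lam ^ (1 + E * i)) =
      (Finset.range (orderOf (lam ^ E))).image fun i => lam * (lam ^ E) ^ i := by
    ext mu
    rw [Finset.mem_filter, Finset.mem_image]
    constructor
    · rintro ⟨-, i, rfl⟩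
      refine ⟨i % orderOf (lam ^ E), Finset.mem_range.2 (Nat.mod_lt _ hpos), ?_⟩
      rw [pow_mod_orderOf, ← pow_mul, pow_add, pow_one]
    · rintro ⟨i, -, rfl⟩
      exact ⟨Finset.mem_univ _, i, by rw [pow_add, pow_one, pow_mul]⟩
  rw [h1, Finset.sum_image]
  intro i hi j hj hij
  have h2 : (lam ^ E) ^ i = (lam ^ E) ^ j := by
    ext v
    have h3 := DFunLike.congr_fun hij v
    rw [MonoidHom.mul_apply, MonoidHom.mul_apply] at h3
    exact mul_left_cancel₀ (lam_ne lam v) h3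
  exact pow_injOn_Iio_orderOf (Set.mem_Iio.2 (Finset.mem_range.1 hi))
    (Set.mem_Iio.2 (Finset.mem_range.1 hj)) h2

/-- geometric sums of roots of unity -/
theorem geo_sum {M : Ideal (integralClosure ℤ ℂ)} [M.IsMaximal] (lam q : A →* ℂ) {d : ℕ}
    (hq : q ^ d = 1) (u : A) :
    ∃ t ∈ RM M, ∑ i ∈ Finset.range d, (lam * q ^ i) u = d * t := by
  have h1 : ∀ i ∈ Finset.range d, (lam * q ^ i) u = lam u * (q u) ^ i := fun i _ => by
    rw [MonoidHom.mul_apply, MonoidHom.pow_apply]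
  rw [Finset.sum_congr rfl h1, ← Finset.mul_sum]
  by_cases h : q u = 1
  · refine ⟨lam u, RM_of_int (T8.H21.lam_integral lam u), ?_⟩
    rw [h]
    simp [mul_comm]
  · refine ⟨0, (RM M).zero_mem, ?_⟩
    have h2 := geom_sum_mul (q u) d
    have h3 : (q u) ^ d = 1 := by
      have := DFunLike.congr_fun hq u
      rwa [MonoidHom.pow_apply, MonoidHom.one_apply] at this
    rw [h3, sub_self] at h2
    rw [(mul_eq_zero.1 h2).resolve_right (sub_ne_zero.2 h), mul_zero, mul_zero]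

end chars

/-- CNA -/
theorem cna : CnaStmt := by
  intro ℓ hp M _ hM G _ _ N h5 χ hχ hN
  have hℓ : ℓ.Prime := hp.out
  refine ⟨fun x y => irr_conj hχ x y, fun x => RM_of_int (irr_integral hχ x), ?_⟩
  intro x w hw hwx c
  obtain ⟨e, K, hE1, hE2, hE3⟩ := exists_e ℓ N h5
  obtain ⟨E, hE⟩ : ∃ E, E = e * ℓ ^ T5.ep ℓ := ⟨_, rfl⟩
  rw [← hE] at hE3
  -- the abelian group
  obtain ⟨A, hA⟩ : ∃ A : Subgroup G, A = Subgroup.closure {x, w} := ⟨_, rfl⟩
  have hcomm : ∀ a ∈ A, ∀ b ∈ A, a * b = b * a := by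
    have h1 : IsMulCommutative (Subgroup.closure ({x, w} : Set G)) := by
      apply Subgroup.isMulCommutative_closure
      rintro a (rfl | rfl) b (rfl | rfl)
      · rfl
      · exact hwx.symm
      · exact hwx
      · rfl
    rw [hA]
    intro a ha b hb
    have h2 := h1.is_comm.comm ⟨a, ha⟩ ⟨b, hb⟩
    exact congrArg Subtype.val h2
  have hcomm' : ∀ a b : A, a * b = b * a := fun a b => Subtype.ext (hcomm a a.2 b b.2)
  have hxA : x ∈ A := by
    rw [hA]
    exact Subgroup.subset_closure (Or.inl rfl)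
  have hwA : w ∈ A := by
    rw [hA]
    exact Subgroup.subset_closure (Or.inr rfl)
  have hcopA : ∀ i : ℕ, (1 + E * i).Coprime (Nat.card A) := fun i =>
    Nat.Coprime.coprime_dvd_right (Subgroup.card_subgroup_dvd_card A) (hE3 i).1
  have := Fintype.ofFinite A
  have := T8.H21.finite_hom (V := A)
  have := Fintype.ofFinite (A →* ℂ)
  classical
  -- the coefficients
  obtain ⟨f, hf⟩ : ∃ f : A → ℂ, f = fun v : A => χ v := ⟨_, rfl⟩
  have hinv := T8.H21.inversion hcomm' f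
  have hmR : ∀ lam : A →* ℂ, T8.H21.cf f lam ∈ RM M := by
    intro lam
    have hIp : T8.Ip M A (fun g : G => if g = 1 then (1 : ℂ) else 0) := by
      refine ⟨fun g => ?_, ?_, fun v _ t => ?_⟩
      · by_cases hg : g = 1
        · simp only [if_pos hg]
          exact (RM M).one_mem
        · simp only [if_neg hg]
          exact (RM M).zero_mem
      · funext g
        unfold mulF
        rw [finsum_eq_single _ (1 : G)]
        · simp
        · intro t ht
          simp [ht]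
      · have h1 : v * t * v⁻¹ = 1 ↔ t = 1 := by
          constructor
          · intro h
            have : t = v⁻¹ * (v * t * v⁻¹) * v := by group
            rw [this, h]
            group
          · rintro rfl
            group
        simp only [h1]
    obtain ⟨m, hm⟩ := T8.H53.fch M G A hcomm _ hIp χ hχ lam
    have h2 : T8.H21.cf f lam = m := by
      rw [← hm]
      unfold T8.H21.cf
      congr 1
      refine finsum_congr fun v => ?_
      congr 1
      unfold T8.fv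
      rw [finsum_eq_single _ (1 : G)]
      · simp [hf]
      · intro t ht
        simp [ht]
    rw [h2]
    exact natCast_mem (RM M) m
  have hχk : ∀ (k : ℕ) (g : G), χ (g ^ N ^ k) = χ g := by
    intro k g
    induction k with
    | zero => rw [pow_zero, pow_one]
    | succ k ih => rw [pow_succ, pow_mul, hN, ih]
  have hfa : ∀ (i : ℕ) (v : A), f (v ^ (1 + E * i)) = f v := by
    intro i v
    obtain ⟨k, hk⟩ := (hE3 i).2
    have h1 := hk v
    rw [hf]
    change χ (((v ^ (1 + E * i) : A)) : G) = χ v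
    rw [Subgroup.coe_pow, ← h1, hχk]
  have hminv : ∀ (lam : A →* ℂ) (i : ℕ),
      T8.H21.cf f (lam ^ (1 + E * i)) = T8.H21.cf f lam := by
    intro lam i
    rw [T8.H21.cf_eq, T8.H21.cf_eq]
    congr 1
    rw [← Equiv.sum_comp (powCoprime (hcopA i).symm) (fun v => f v * lam v⁻¹)]
    refine Finset.sum_congr rfl fun v _ => ?_
    change _ = f (v ^ (1 + E * i)) * lam (v ^ (1 + E * i))⁻¹
    rw [hfa, MonoidHom.pow_apply, ← map_pow, inv_pow]
  -- the difference
  obtain ⟨z, hz⟩ : ∃ z : G, z = w ^ ℓ ^ (c + 1) := ⟨_, rfl⟩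
  have hzA : z ∈ A := by
    rw [hz]
    exact A.pow_mem hwA _
  rw [← hz]
  have e1 : χ (x * z) = ∑ lam : A →* ℂ, T8.H21.cf f lam * lam (⟨x, hxA⟩ * ⟨z, hzA⟩) := by
    rw [← hinv, hf]
    rfl
  have e2 : χ x = ∑ lam : A →* ℂ, T8.H21.cf f lam * lam ⟨x, hxA⟩ := by
    rw [← hinv, hf]
  rw [e1, e2, ← Finset.sum_sub_distrib]
  have hpart := Finset.sum_partition (s := (Finset.univ : Finset (A →* ℂ)))
    (f := fun lam : A →* ℂ => T8.H21.cf f lam * lam (⟨x, hxA⟩ * ⟨z, hzA⟩) -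
      T8.H21.cf f lam * lam ⟨x, hxA⟩) (rel A E hcopA)
  rw [hpart]
  refine dv_sum _ _ fun cl hcl => ?_
  obtain ⟨lam, -, rfl⟩ := Finset.mem_image.1 hcl
  have hfil : Finset.univ.filter (fun mu : A →* ℂ =>
      (Quotient.mk (rel A E hcopA) mu) = Quotient.mk (rel A E hcopA) lam) =
      Finset.univ.filter (fun mu : A →* ℂ => ∃ i, mu = lam ^ (1 + E * i)) := by
    apply Finset.filter_congr
    intro mu _
    rw [Quotient.eq]
    constructor
    · intro h
      exact (rel A E hcopA).symm h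
    · intro h
      exact (rel A E hcopA).symm h
  rw [hfil, class_sum E hcopA lam]
  obtain ⟨q, hq⟩ : ∃ q, q = lam ^ E := ⟨_, rfl⟩
  obtain ⟨d, hd⟩ : ∃ d, d = orderOf q := ⟨_, rfl⟩
  rw [← hq, ← hd]
  have hqd : q ^ d = 1 := by
    rw [hd]
    exact pow_orderOf_eq_one q
  have hcoef : ∀ i, T8.H21.cf f (lam * q ^ i) = T8.H21.cf f lam := by
    intro i
    rw [← hminv lam i, pow_add, pow_one, pow_mul, ← hq]
  have hterm : ∀ i ∈ Finset.range d, T8.H21.cf f (lam * q ^ i) *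
      (lam * q ^ i) (⟨x, hxA⟩ * ⟨z, hzA⟩) - T8.H21.cf f (lam * q ^ i) * (lam * q ^ i) ⟨x, hxA⟩ =
      T8.H21.cf f lam * ((lam * q ^ i) (⟨x, hxA⟩ * ⟨z, hzA⟩) - (lam * q ^ i) ⟨x, hxA⟩) := by
    intro i _
    rw [hcoef]
    ring
  rw [Finset.sum_congr rfl hterm, ← Finset.mul_sum]
  apply dv_mul (hmR lam)
  -- the order of `q`
  have hdK : d ∣ ℓ ^ K := by
    rw [hd, orderOf_dvd_iff_pow_eq_one, hq]
    ext v
    rw [MonoidHom.pow_apply, MonoidHom.pow_apply, MonoidHom.one_apply, ← pow_mul, ← map_pow]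
    have h1 : v ^ (E * ℓ ^ K) = 1 := by
      apply Subtype.ext
      rw [Subgroup.coe_pow, hE, show e * ℓ ^ T5.ep ℓ * ℓ ^ K = e * ℓ ^ K * ℓ ^ T5.ep ℓ by ring,
        pow_mul, hE2, one_pow]
      rfl
    rw [h1, map_one]
  obtain ⟨t, -, ht⟩ := (Nat.dvd_prime_pow hℓ).1 hdK
  rcases Nat.lt_or_ge t c with hlt | hge
  · -- small order
    have hep : T5.ep ℓ ≤ 2 := by
      unfold T5.ep
      split_ifs <;> norm_num
    have hlz : lam ⟨z, hzA⟩ = 1 := by
      have h1 : (⟨z, hzA⟩ : A) = ⟨w, hwA⟩ ^ (E * ℓ ^ t * ℓ ^ (c + 1 - T5.ep ℓ - t)) := by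
        apply Subtype.ext
        rw [Subgroup.coe_pow]
        change z = w ^ _
        have h2 : E * ℓ ^ t * ℓ ^ (c + 1 - T5.ep ℓ - t) = e * ℓ ^ (c + 1) := by
          rw [hE, mul_assoc, mul_assoc, ← pow_add, ← pow_add]
          congr 2
          omega
        rw [h2, pow_mul, hE1 w hw, hz]
      rw [h1, pow_mul, pow_mul, map_pow, map_pow, map_pow]
      have h3 := DFunLike.congr_fun hqd ⟨w, hwA⟩
      rw [MonoidHom.pow_apply, MonoidHom.one_apply, hq, MonoidHom.pow_apply, ht] at h3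
      rw [h3, one_pow]
    have hqz : q ⟨z, hzA⟩ = 1 := by
      rw [hq, MonoidHom.pow_apply, hlz, one_pow]
    rw [Finset.sum_eq_zero fun i _ => ?_]
    · exact dv_zero
    · rw [map_mul (lam * q ^ i), MonoidHom.mul_apply lam (q ^ i) ⟨z, hzA⟩, MonoidHom.pow_apply,
        hlz, hqz, one_pow, mul_one, mul_one, sub_self]
  · rw [Finset.sum_sub_distrib]
    obtain ⟨t₁, ht₁, h₁⟩ := geo_sum (M := M) lam q hqd (⟨x, hxA⟩ * ⟨z, hzA⟩)
    obtain ⟨t₂, ht₂, h₂⟩ := geo_sum (M := M) lam q hqd ⟨x, hxA⟩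
    rw [h₁, h₂, ht]
    refine ⟨(ℓ : ℂ) ^ (t - c) * (t₁ - t₂), (RM M).mul_mem ?_ ((RM M).sub_mem ht₁ ht₂), ?_⟩
    · exact (RM M).pow_mem (natCast_mem (RM M) ℓ) _
    · have h3 : (ℓ : ℂ) ^ t = (ℓ : ℂ) ^ c * (ℓ : ℂ) ^ (t - c) := by
        rw [← pow_add]
        congr 1
        omega
      push_cast
      rw [h3]
      ring

end Pool.Agent.PP.T6.H56
end
end -- Pool.Agent.Helper56_AT6.CNA
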