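import Pool.Agent.Helper12_AWB.B122
import Pool.Agent.Helper12_AWB.B123
import Pool.Agent.Helper12_AWB.B166
import Pool.Agent.Helper12_AWB.B167
import Pool.Agent.Helper12_AWB.B181

/-!
# Merged copies (generated) of the modules

* `Pool.Agent.Helper18_AT8.HGT`
* `Pool.Agent.Helper13_AT12.BE2`
* `Pool.Agent.Helper13_AT12.LBZ`
* `Pool.Agent.Helper38_AT12.AVI`
* `Pool.Agent.Helper67_AT12.CRG`
* `Pool.Agent.Helper76_AT12.GAL`
* `Pool.Agent.Helper86_AT12.BSF`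
* `Pool.Agent.Helper87_AT12.CSM`
* `Pool.Agent.Helper23_ATW.HT2`
-/

set_option autoImplicit false

section -- Pool.Agent.Helper18_AT8.HGT

/-!
# Squad AT8, row HGT: the heights are smaller than `k`
-/

open scoped BigOperators

noncomputable section

namespace Pool.Agent.PP.T8.H18

open Pool.Agent.Helper51_AWC Pool.Agent.Helper79_WRA Pool.Agent.PP Pool.Agent.PP.KF
open Pool.Agent.PP.K9 Pool.Agent.PP.K9.H97 Pool.Agent.PP.H75 Pool.Agent.PP.T3 Pool.Agent.PP.T2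

attribute [local instance] Ideal.Quotient.field

/-- an inverse exponent modulo `ℓ ^ a` -/
theorem exists_inv {ℓ : ℕ} [hℓ : Fact ℓ.Prime] {a j : ℕ} (ha : 0 < a) (hj : ¬ ℓ ∣ j) :
    ∃ j' : ℕ, ¬ ℓ ∣ j' ∧ ∀ {G : Type} [Group G] (u : G), u ^ ℓ ^ a = 1 →
      (u ^ j) ^ j' = u ∧ (u ^ j') ^ j = u := by
  have hl : 1 < ℓ ^ a := Nat.one_lt_pow ha.ne' hℓ.out.one_lt
  have hc : Nat.Coprime j (ℓ ^ a) :=
    Nat.Coprime.pow_right a (((Nat.Prime.coprime_iff_not_dvd hℓ.out).2 hj).symm)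
  obtain ⟨j', -, hj'⟩ := Nat.exists_mul_mod_eq_one_of_coprime hc hl
  refine ⟨j', ?_, ?_⟩
  · intro hd
    have h1 : ℓ ∣ ℓ ^ a := dvd_pow_self ℓ ha.ne'
    have h2 : ℓ ∣ j * j' := hd.mul_left j
    have h3 : ℓ ∣ 1 := by
      rw [← hj']
      exact (Nat.dvd_mod_iff h1).2 h2
    exact hℓ.out.one_lt.ne' (Nat.dvd_one.1 h3)
  · intro G _ u hu
    have h1 : u ^ (j * j') = u := by
      have h2 : u ^ (j * j') = u ^ (j * j' % ℓ ^ a) := pow_eq_pow_mod _ hu
      rw [h2, hj', pow_one]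
    constructor
    · rw [← pow_mul, h1]
    · rw [← pow_mul, mul_comm j' j, h1]

theorem card_filter_ndvd {ℓ : ℕ} [hℓ : Fact ℓ.Prime] {a : ℕ} (ha : 0 < a) :
    ((Finset.range (ℓ ^ a)).filter (fun j => ¬ ℓ ∣ j)).card = ℓ ^ (a - 1) * (ℓ - 1) := by
  rw [← Nat.totient_prime_pow hℓ.out ha, Nat.totient_eq_card_coprime]
  congr 1
  apply Finset.filter_congr
  intro j _
  rw [Nat.coprime_pow_left_iff ha, Nat.Prime.coprime_iff_not_dvd hℓ.out]

/-- HGT: the heights are smaller than `k`. -/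
theorem hgt (dcg : DcgStmt) (dpw : DpwStmt) (inr : T3.InrStmt) (nrm : NrmStmt) (sbs : SbsStmt)
    (inx : K9.InxStmt) : HgtStmt := by
  classical
  intro ℓ hℓ M hMx hM hl2 G _ _ e V γ b d c ε D a k ha hexp hcount χ hχ u0 hu0 hcon
  have hχI : χ ∈ Irr G := hχ.1
  have hln0 : (ℓ : ℂ) ≠ 0 := by exact_mod_cast hℓ.out.ne_zero
  have hix : ¬ ℓ ∣ ix V γ :=
    inx ℓ M hM G e D.ld.blk V D.ld.tp D.ld.ab γ D.ld.gam.supp D.ld.gam.blk D.ld.und
  obtain ⟨hpT, hpP, hpR⟩ := dpw ℓ M hM hl2 G e V γ b d c ε D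
  -- the residues are units
  set ρ : ℂ := (Nat.card G * c : ℂ) / (Nat.card (Subgroup.centralizer (V : Set G)) * χ 1) with hρ
  have hX : ∀ u, Rg V γ u → vv M b d u χ * ρ ∈ RM M ∧ rr M (vv M b d u χ * ρ) ≠ 0 := by
    intro u hu
    obtain ⟨h1, h2⟩ := dcg ℓ M hM G e V γ b d c ε D u hu χ hχ
    refine ⟨h1, ?_⟩
    rw [h2, ← (rr_int (M := M) (ε u * ix V γ)).2]
    intro h3
    have h4 := (dvd_of_rr (M := M) hℓ.out hM).1 h3
    have h5 : (ℓ : ℤ) ∣ (ix V γ : ℤ) := by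
      rcases D.sg u hu with h | h
      · rwa [h, one_mul] at h4
      · rw [h, neg_one_mul] at h4
        exact (Int.dvd_neg.1 h4)
    exact hix (Int.natCast_dvd_natCast.1 h5)
  have hv0 : ∀ u, Rg V γ u → vv M b d u χ ≠ 0 := by
    intro u hu h0
    apply (hX u hu).2
    rw [h0, zero_mul, rr_zero]
  have hdiv : ∀ u, Rg V γ u → vv M b d u χ / ℓ ^ k ∈ RM M := by
    intro u hu
    obtain ⟨h1, h2⟩ := inv_RM (hX u0 hu0).1 (hX u0 hu0).2
    have h3 := (RM M).mul_mem ((RM M).mul_mem hcon (hX u hu).1) h1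
    have h4 : vv M b d u0 χ ≠ 0 := left_ne_zero_of_mul h2
    have h5 : ρ ≠ 0 := right_ne_zero_of_mul h2
    have h6 : vv M b d u0 χ / ℓ ^ k * (vv M b d u χ * ρ) * (vv M b d u0 χ * ρ)⁻¹ =
        vv M b d u χ / ℓ ^ k := by
      field_simp
    rwa [h6] at h3
  -- the elements of `V`
  have hpow : ∀ u ∈ V, u ^ ℓ ^ a = 1 := by
    intro u hu
    have h1 := Monoid.pow_exponent_eq_one (⟨u, hu⟩ : V)
    rw [hexp] at h1
    exact congrArg Subtype.val h1
  -- the inequality for one regular element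
  have hone : ∀ u, Rg V γ u → ((ℓ ^ (a - 1) * (ℓ - 1) * ℓ ^ (2 * k) : ℕ) : ℝ) ≤
      ∑ j ∈ (Finset.range (ℓ ^ a)).filter (fun j => ¬ ℓ ∣ j),
        Complex.normSq (vv M b d (u ^ j) χ) := by
    intro u hu
    have hq : ((ℓ ^ a : ℕ) : ℂ) ≠ 0 := by
      exact_mod_cast (pow_pos hℓ.out.pos a).ne'
    have hζ := Complex.isPrimitiveRoot_exp (ℓ ^ a) (pow_pos hℓ.out.pos a).ne'
    obtain ⟨m, hm⟩ := inr M G u (ℓ ^ a) (pow_pos hℓ.out.pos a) (hpow u hu.1) (b u)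
      (D.lc u hu).blk.ix (d u) (D.dg u hu) _ hζ χ hχI
    have hd : (d u : ℂ) ≠ 0 := by exact_mod_cast (D.dg u hu).1.ne'
    have hvj : ∀ j : ℕ, ¬ ℓ ∣ j → vv M b d (u ^ j) χ = ∑ i ∈ Finset.range (ℓ ^ a),
        (m i : ℂ) * Complex.exp (2 * Real.pi * Complex.I / ((ℓ ^ a : ℕ) : ℂ)) ^ (i * j) := by
      intro j hj
      obtain ⟨-, e2, e3, -⟩ := hpP u hu j hj
      have hC : Cu (u ^ j) = Cu u := by
        obtain ⟨j', -, hj'⟩ := exists_inv (ℓ := ℓ) ha hj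
        have h1 := (hj' u (hpow u hu.1)).1
        ext x
        rw [Subgroup.mem_centralizer_singleton_iff, Subgroup.mem_centralizer_singleton_iff]
        constructor
        · intro h
          have h2 : Commute x (u ^ j) := h
          have h3 := h2.pow_right j'
          rw [h1] at h3
          exact h3
        · intro h
          have h2 : Commute x u := h
          exact h2.pow_right j
      unfold vv
      rw [e2, e3, hC, hm j, mul_div_cancel_left₀ _ hd]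
    have h1 := nrm ℓ M hM a 0 k ha _ hζ m (by
      intro j hj
      rw [← hvj j hj, pow_zero, div_one]
      exact hdiv _ (hpP u hu j hj).1) (by
      have h2 := hvj 1 (fun h => hℓ.out.one_lt.ne' (Nat.dvd_one.1 h))
      rw [pow_one] at h2
      simp only [mul_one] at h2
      rw [← h2]
      exact hv0 u hu)
    refine h1.trans (le_of_eq ?_)
    apply Finset.sum_congr rfl
    intro j hj
    rw [hvj j (Finset.mem_filter.1 hj).2, pow_zero, div_one]
  -- the sum over all regular elements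
  have := Fintype.ofFinite G
  set R : Finset G := Finset.univ.filter (fun u => Rg V γ u) with hR
  have hRc : {u | Rg V γ u}.ncard = R.card := by
    rw [← Set.ncard_coe_finset]
    congr 1
    ext u
    simp [hR]
  set S : ℝ := ∑ u ∈ R, Complex.normSq (vv M b d u χ) with hS
  have hSf : ∑ᶠ (u : G) (_ : Rg V γ u), Complex.normSq (vv M b d u χ) = S := by
    rw [finsum_eq_sum_of_fintype, hS, hR, Finset.sum_filter]
    apply Finset.sum_congr rfl
    intro u _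
    rw [finsum_eq_if]
  have hperm : ∀ j : ℕ, ¬ ℓ ∣ j →
      ∑ u ∈ R, Complex.normSq (vv M b d (u ^ j) χ) = S := by
    intro j hj
    obtain ⟨j', hj1, hj'⟩ := exists_inv (ℓ := ℓ) ha hj
    refine Finset.sum_nbij' (fun u => u ^ j) (fun u => u ^ j') ?_ ?_ ?_ ?_ ?_
    · intro u hu
      exact Finset.mem_filter.2 ⟨Finset.mem_univ _, (hpP u (Finset.mem_filter.1 hu).2 j hj).1⟩
    · intro u hu
      exact Finset.mem_filter.2 ⟨Finset.mem_univ _, (hpP u (Finset.mem_filter.1 hu).2 j' hj1).1⟩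
    · intro u hu
      exact (hj' u (hpow u (Finset.mem_filter.1 hu).2.1)).1
    · intro u hu
      exact (hj' u (hpow u (Finset.mem_filter.1 hu).2.1)).2
    · intro u _
      rfl
  have hsum : (R.card : ℝ) * ((ℓ ^ (a - 1) * (ℓ - 1) * ℓ ^ (2 * k) : ℕ) : ℝ) ≤
      ((ℓ ^ (a - 1) * (ℓ - 1) : ℕ) : ℝ) * S := by
    calc (R.card : ℝ) * ((ℓ ^ (a - 1) * (ℓ - 1) * ℓ ^ (2 * k) : ℕ) : ℝ)
        = ∑ _u ∈ R, ((ℓ ^ (a - 1) * (ℓ - 1) * ℓ ^ (2 * k) : ℕ) : ℝ) := by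
          rw [Finset.sum_const, nsmul_eq_mul]
      _ ≤ ∑ u ∈ R, ∑ j ∈ (Finset.range (ℓ ^ a)).filter (fun j => ¬ ℓ ∣ j),
            Complex.normSq (vv M b d (u ^ j) χ) :=
          Finset.sum_le_sum fun u hu => hone u (Finset.mem_filter.1 hu).2
      _ = ∑ j ∈ (Finset.range (ℓ ^ a)).filter (fun j => ¬ ℓ ∣ j), S := by
          rw [Finset.sum_comm]
          exact Finset.sum_congr rfl fun j hj => hperm j (Finset.mem_filter.1 hj).2
      _ = ((ℓ ^ (a - 1) * (ℓ - 1) : ℕ) : ℝ) * S := by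
          rw [Finset.sum_const, nsmul_eq_mul, card_filter_ndvd ha]
  have hφ : (0 : ℝ) < ((ℓ ^ (a - 1) * (ℓ - 1) : ℕ) : ℝ) := by
    have h1 : 0 < ℓ ^ (a - 1) * (ℓ - 1) :=
      Nat.mul_pos (pow_pos hℓ.out.pos _) (Nat.sub_pos_of_lt hℓ.out.one_lt)
    exact_mod_cast h1
  have hfin : (R.card : ℝ) * ((ℓ ^ (2 * k) : ℕ) : ℝ) ≤ S := by
    rw [Nat.cast_mul (ℓ ^ (a - 1) * (ℓ - 1)) (ℓ ^ (2 * k))] at hsum
    have h1 : ((ℓ ^ (a - 1) * (ℓ - 1) : ℕ) : ℝ) * ((R.card : ℝ) * ((ℓ ^ (2 * k) : ℕ) : ℝ)) ≤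
        ((ℓ ^ (a - 1) * (ℓ - 1) : ℕ) : ℝ) * S := by
      refine le_trans (le_of_eq ?_) hsum
      ring
    exact le_of_mul_le_mul_left h1 hφ
  have hlt := sbs ℓ M hM hl2 G e V γ b d c ε D χ hχ
  rw [hSf] at hlt
  rw [hRc] at hcount
  have h1 : ((ix V γ * Nat.card V : ℕ) : ℝ) ≤ ((ℓ ^ (2 * k) * R.card : ℕ) : ℝ) := by
    exact_mod_cast hcount
  rw [Nat.cast_mul (ℓ ^ (2 * k))] at h1
  linarith [mul_comm (R.card : ℝ) ((ℓ ^ (2 * k) : ℕ) : ℝ)]

end Pool.Agent.PP.T8.H18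
end
end -- Pool.Agent.Helper18_AT8.HGT

section -- Pool.Agent.Helper13_AT12.BE2

/-!
# Squad AT12, row BE2 (helper13): Bessel's inequality for the fixed characters
-/

set_option autoImplicit false

open scoped BigOperators

noncomputable section

namespace Pool.Agent.PP.T12.H13

open Pool.Agent.Helper51_AWC Pool.Agent.Helper79_WRA Pool.Agent.PP Pool.Agent.PP.KF
open Pool.Agent.PP.K9 Pool.Agent.PP.K9.H97 Pool.Agent.PP.H75 Pool.Agent.PP.T3 Pool.Agent.PP.T2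
open Pool.Agent.PP.T8

attribute [local instance] Ideal.Quotient.field

section inner

variable {X : Type} (S : Finset X)

/-- the inner product -/
def P (f f' : X → ℂ) : ℂ := ∑ χ ∈ S, f χ * starRingEnd ℂ (f' χ)

theorem P_conj (f f' : X → ℂ) : starRingEnd ℂ (P S f f') = P S f' f := by
  unfold P
  rw [map_sum]
  refine Finset.sum_congr rfl fun χ _ => ?_
  rw [map_mul, Complex.conj_conj, mul_comm]

theorem P_symm0 {f f' : X → ℂ} (h : P S f f' = 0) : P S f' f = 0 := by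
  rw [← P_conj, h, map_zero]

theorem P_add (f₁ f₂ f' : X → ℂ) : P S (fun χ => f₁ χ + f₂ χ) f' = P S f₁ f' + P S f₂ f' := by
  unfold P
  rw [← Finset.sum_add_distrib]
  exact Finset.sum_congr rfl fun χ _ => by ring

theorem P_add' (f f₁ f₂ : X → ℂ) : P S f (fun χ => f₁ χ + f₂ χ) = P S f f₁ + P S f f₂ := by
  unfold P
  rw [← Finset.sum_add_distrib]
  exact Finset.sum_congr rfl fun χ _ => by rw [map_add]; ring

theorem P_sub (f₁ f₂ f' : X → ℂ) : P S (fun χ => f₁ χ - f₂ χ) f' = P S f₁ f' - P S f₂ f' := by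
  unfold P
  rw [← Finset.sum_sub_distrib]
  exact Finset.sum_congr rfl fun χ _ => by ring

theorem P_sub' (f f₁ f₂ : X → ℂ) : P S f (fun χ => f₁ χ - f₂ χ) = P S f f₁ - P S f f₂ := by
  unfold P
  rw [← Finset.sum_sub_distrib]
  exact Finset.sum_congr rfl fun χ _ => by rw [map_sub]; ring

theorem P_mul (a : ℂ) (f f' : X → ℂ) : P S (fun χ => a * f χ) f' = a * P S f f' := by
  unfold P
  rw [Finset.mul_sum]
  exact Finset.sum_congr rfl fun χ _ => by ring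

theorem P_mul' (a : ℂ) (f f' : X → ℂ) :
    P S f (fun χ => a * f' χ) = starRingEnd ℂ a * P S f f' := by
  unfold P
  rw [Finset.mul_sum]
  exact Finset.sum_congr rfl fun χ _ => by rw [map_mul]; ring

theorem P_sum {κ : Type} (T : Finset κ) (f : κ → X → ℂ) (f' : X → ℂ) :
    P S (fun χ => ∑ k ∈ T, f k χ) f' = ∑ k ∈ T, P S (f k) f' := by
  unfold P
  rw [Finset.sum_comm]
  exact Finset.sum_congr rfl fun χ _ => by rw [Finset.sum_mul]

theorem P_sum' {κ : Type} (T : Finset κ) (f : X → ℂ) (f' : κ → X → ℂ) :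
    P S f (fun χ => ∑ k ∈ T, f' k χ) = ∑ k ∈ T, P S f (f' k) := by
  unfold P
  rw [Finset.sum_comm]
  exact Finset.sum_congr rfl fun χ _ => by rw [map_sum, Finset.mul_sum]

end inner

/-- the order of the image of `V` -/
theorem card_W {ℓ : ℕ} [Fact ℓ.Prime] {G H : Type} [Group G] [Finite G] [Group H] [Finite H]
    {V : Subgroup G} (hab : ∀ a ∈ V, ∀ b ∈ V, a * b = b * a) {y : G} (hy : y ∈ V)
    {q : ℕ} {π : Cu y →* H} (hq : C2.Qn q y π) :
    Nat.card V = Nat.card ((V.subgroupOf (Cu y)).map π) * q := by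
  have hle : V ≤ Cu y := by
    intro v hv
    exact Subgroup.mem_centralizer_singleton_iff.2 (hab v hv y hy)
  have h1 : Nat.card (V.subgroupOf (Cu y)) = Nat.card V :=
    Nat.card_congr (Subgroup.subgroupOfEquivOfLe hle).toEquiv
  have h2 := Subgroup.card_eq_card_quotient_mul_card_subgroup
    (π.subgroupMap (V.subgroupOf (Cu y))).ker
  have h3 : Nat.card (V.subgroupOf (Cu y) ⧸ (π.subgroupMap (V.subgroupOf (Cu y))).ker) =
      Nat.card ((V.subgroupOf (Cu y)).map π) :=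
    Nat.card_congr (QuotientGroup.quotientKerEquivOfSurjective _
      (π.subgroupMap_surjective (V.subgroupOf (Cu y)))).toEquiv
  have h4 : Nat.card (π.subgroupMap (V.subgroupOf (Cu y))).ker = q := by
    rw [← hq.ord, ← Nat.card_zpowers]
    refine Nat.card_congr
      { toFun := fun x => ⟨((x : V.subgroupOf (Cu y)) : Cu y), ?_⟩
        invFun := fun x => ⟨⟨⟨x, hle ((Subgroup.zpowers_le.2 hy) x.2)⟩, ?_⟩, ?_⟩
        left_inv := fun x => ?_
        right_inv := fun x => ?_ }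
    · have h5 := x.2
      rw [MonoidHom.mem_ker] at h5
      exact (hq.ker _).1 (congrArg Subtype.val h5)
    · rw [Subgroup.mem_subgroupOf]
      exact (Subgroup.zpowers_le.2 hy) x.2
    · rw [MonoidHom.mem_ker]
      exact Subtype.ext ((hq.ker _).2 x.2)
    · rfl
    · rfl
  rw [← h1, h2, h3, h4]

theorem be2 (bsf : BsfStmt) (grm : GrmStmt) (avn : AvnStmt) (crg : CrgStmt) (dpw : T8.DpwStmt) :
    Be2Stmt := by
  intro ℓ hℓ M _ hM G H _ _ _ _ N e V γ b d c ε y w β π m K g θ hS j hj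
  classical
  have hp : ℓ.Prime := hℓ.out
  have hF : GoodF ℓ (FF M) := H50.fld ℓ hp M hM
  have := Fintype.ofFinite G
  have hI : (Irr G).Finite := irr_finite'
  obtain ⟨S, hSe⟩ : ∃ S : Finset (G → ℂ), S = hI.toFinset := ⟨_, rfl⟩
  have hℓ0 : (ℓ : ℂ) ≠ 0 := by exact_mod_cast hp.ne_zero
  have hℓp : (0 : ℝ) < ℓ := by exact_mod_cast hp.pos
  have hmK : (m : ℂ) * K + 1 = (ℓ : ℂ) ^ 2 := by
    have h1 := card_W (ℓ := ℓ) hS.dat.ld.ab hS.cs.yV hS.sy.qn
    rw [hS.cs.card, ← hS.sy.cd.mul] at h1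
    have h2 : m * K + 1 = ℓ ^ 2 := by
      have h3 : (m * K + 1) * ℓ ^ 2 = ℓ ^ 2 * ℓ ^ 2 := by rw [← h1]; ring
      exact Nat.eq_of_mul_eq_mul_right (pow_pos hp.pos 2) h3
    exact_mod_cast h2
  have hθ2 : (θ : ℂ) * θ = 1 := by
    rcases hS.sgn with h | h <;> rw [h] <;> norm_num
  have hθc : starRingEnd ℂ (θ : ℂ) = θ := map_intCast (starRingEnd ℂ) θ
  obtain ⟨hc1, hc2, hc3⟩ := crg ℓ (FF M) hF hS.odd G e V γ hS.dat.ld y w m hS.cs
  -- the vectors
  obtain ⟨A, hA⟩ : ∃ A : ℕ → Fin m → (G → ℂ) → ℂ, ∀ j s χ, A j s χ = Av ℓ π (y ^ j) (g s) χ :=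
    ⟨_, fun _ _ _ => rfl⟩
  obtain ⟨U, hU⟩ : ∃ U : ℕ → ℕ → (G → ℂ) → ℂ, ∀ j k χ, U j k χ = vk M ℓ b d ε y w j k χ :=
    ⟨_, fun _ _ _ => rfl⟩
  obtain ⟨B, hB⟩ : ∃ B : ℕ → (G → ℂ) → ℂ, ∀ j, B j = fun χ => ∑ s, A j s χ :=
    ⟨_, fun _ => rfl⟩
  obtain ⟨Q, hQ⟩ : ∃ Q : ℕ → (G → ℂ) → ℂ, ∀ j, Q j = fun χ => ∑ k ∈ Finset.Ico 1 ℓ, U j k χ :=
    ⟨_, fun _ => rfl⟩
  have hP : ∀ f f' : (G → ℂ) → ℂ, ∑ᶠ χ ∈ Irr G, f χ * starRingEnd ℂ (f' χ) = P S f f' := by
    intro f f'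
    rw [finsum_mem_eq_finite_toFinset_sum _ hI, hSe]
    rfl
  -- the Gram matrix
  have hmod : ∀ j j' : ℕ, ¬ ℓ ∣ j → j ≡ j' [MOD ℓ] → ¬ ℓ ∣ j' := by
    intro j j' h1 h2 h3
    exact h1 ((h2.dvd_iff dvd_rfl).2 h3)
  have gAA : ∀ j j' : ℕ, ¬ ℓ ∣ j → j ≡ j' [MOD ℓ] → ∀ s s', P S (A j s) (A j' s') =
      if j ≡ j' [MOD ℓ ^ 2] then (ℓ : ℂ) ^ 2 * ((if s = s' then 1 else 0) + K) else 0 := by
    intro j j' h1 h2 s s'
    rw [← hP]
    simp only [hA]
    have h3 := (grm ℓ M hM G H N e V γ b d c ε y w β π m K g θ hS j j' h1 h2).1 s s'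
    by_cases h4 : j ≡ j' [MOD ℓ ^ 2]
    · rw [if_pos h4]
      exact h3.1 h4
    · rw [if_neg h4]
      exact h3.2 h4
  have gAU : ∀ j j' : ℕ, ¬ ℓ ∣ j → j ≡ j' [MOD ℓ] → ∀ s k, ¬ ℓ ∣ k → P S (A j s) (U j' k) = 0 := by
    intro j j' h1 h2 s k hk
    rw [← hP]
    simp only [hA, hU]
    exact (grm ℓ M hM G H N e V γ b d c ε y w β π m K g θ hS j j' h1 h2).2.1 s k hk
  have gUU : ∀ j j' : ℕ, ¬ ℓ ∣ j → j ≡ j' [MOD ℓ] → ∀ k k', ¬ ℓ ∣ k → ¬ ℓ ∣ k' →
      P S (U j k) (U j' k') = if (j ≡ j' [MOD ℓ ^ 2] ∧ ∃ t ∈ Tg V γ,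
        t * (y ^ j * w ^ (ℓ * k)) * t⁻¹ = y ^ j * w ^ (ℓ * k')) then (ℓ : ℂ) ^ 4 else 0 := by
    intro j j' h1 h2 k k' hk hk'
    rw [← hP]
    simp only [hU]
    have h3 := (grm ℓ M hM G H N e V γ b d c ε y w β π m K g θ hS j j' h1 h2).2.2 k k' hk hk'
    by_cases h4 : (j ≡ j' [MOD ℓ ^ 2] ∧ ∃ t ∈ Tg V γ,
        t * (y ^ j * w ^ (ℓ * k)) * t⁻¹ = y ^ j * w ^ (ℓ * k'))
    · rw [if_pos h4]
      exact h3.1 h4
    · rw [if_neg h4]
      exact h3.2 h4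
  have gBU : ∀ j j' : ℕ, ¬ ℓ ∣ j → j ≡ j' [MOD ℓ] → ∀ k, ¬ ℓ ∣ k → P S (B j) (U j' k) = 0 := by
    intro j j' h1 h2 k hk
    rw [hB, P_sum]
    exact Finset.sum_eq_zero fun s _ => gAU j j' h1 h2 s k hk
  have hIco : ∀ k ∈ Finset.Ico 1 ℓ, ¬ ℓ ∣ k := by
    intro k hk hd
    rw [Finset.mem_Ico] at hk
    have := Nat.le_of_dvd (by omega) hd
    omega
  have gBQ : ∀ j j' : ℕ, ¬ ℓ ∣ j → j ≡ j' [MOD ℓ] → P S (B j) (Q j') = 0 := by
    intro j j' h1 h2
    rw [hQ, P_sum']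
    exact Finset.sum_eq_zero fun k hk => gBU j j' h1 h2 k (hIco k hk)
  have gBB : ∀ j j' : ℕ, ¬ ℓ ∣ j → j ≡ j' [MOD ℓ] → P S (B j) (B j') =
      if j ≡ j' [MOD ℓ ^ 2] then (m : ℂ) * (ℓ : ℂ) ^ 4 else 0 := by
    intro j j' h1 h2
    rw [hB, hB, P_sum]
    simp only [P_sum', gAA j j' h1 h2]
    by_cases h4 : j ≡ j' [MOD ℓ ^ 2]
    · simp only [if_pos h4]
      have h5 : ∀ s : Fin m, ∑ s' : Fin m, (ℓ : ℂ) ^ 2 * ((if s = s' then 1 else 0) + (K : ℂ)) =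
          (ℓ : ℂ) ^ 4 := by
        intro s
        rw [← Finset.mul_sum, Finset.sum_add_distrib, Finset.sum_ite_eq, if_pos (Finset.mem_univ s),
          Finset.sum_const, Finset.card_univ, Fintype.card_fin, nsmul_eq_mul, add_comm, hmK]
        ring
      rw [Finset.sum_congr rfl fun s _ => h5 s, Finset.sum_const, Finset.card_univ,
        Fintype.card_fin, nsmul_eq_mul]
    · simp only [if_neg h4, Finset.sum_const_zero]
  have gQQ : ∀ j j' : ℕ, ¬ ℓ ∣ j → j ≡ j' [MOD ℓ] → P S (Q j) (Q j') =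
      if j ≡ j' [MOD ℓ ^ 2] then ((ℓ : ℂ) - 1) * (m * (ℓ : ℂ) ^ 4) else 0 := by
    intro j j' h1 h2
    rw [hQ, hQ, P_sum]
    simp only [P_sum']
    by_cases h4 : j ≡ j' [MOD ℓ ^ 2]
    · rw [if_pos h4]
      have h5 : ∀ k ∈ Finset.Ico 1 ℓ, ∑ k' ∈ Finset.Ico 1 ℓ, P S (U j k) (U j' k') =
          m * (ℓ : ℂ) ^ 4 := by
        intro k hk
        have h6 : ∀ k' ∈ Finset.Ico 1 ℓ, P S (U j k) (U j' k') =
            if (∃ t ∈ Tg V γ, t * (y ^ j * w ^ (ℓ * k)) * t⁻¹ = y ^ j * w ^ (ℓ * k'))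
              then (ℓ : ℂ) ^ 4 else 0 := by
          intro k' hk'
          rw [gUU j j' h1 h2 k k' (hIco k hk) (hIco k' hk')]
          simp only [h4, true_and]
        rw [Finset.sum_congr rfl h6, ← Finset.sum_filter, Finset.sum_const, nsmul_eq_mul]
        congr 1
        have h7 := hc3 j k h1 (hIco k hk)
        rw [← h7]
        have h8 : {k' : ℕ | 1 ≤ k' ∧ k' < ℓ ∧ ∃ t ∈ Tg V γ,
            t * (y ^ j * w ^ (ℓ * k)) * t⁻¹ = y ^ j * w ^ (ℓ * k')} =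
            (((Finset.Ico 1 ℓ).filter fun k' => ∃ t ∈ Tg V γ,
              t * (y ^ j * w ^ (ℓ * k)) * t⁻¹ = y ^ j * w ^ (ℓ * k') : Finset ℕ) : Set ℕ) := by
          ext k'
          simp only [Set.mem_ofPred_eq, Finset.coe_filter, Finset.mem_Ico, and_assoc]
        rw [h8, Set.ncard_coe_finset]
      rw [Finset.sum_congr rfl h5, Finset.sum_const, Nat.card_Ico, nsmul_eq_mul,
        Nat.cast_sub hp.one_lt.le, Nat.cast_one]
    · rw [if_neg h4]
      refine Finset.sum_eq_zero fun k hk => Finset.sum_eq_zero fun k' hk' => ?_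
      rw [gUU j j' h1 h2 k k' (hIco k hk) (hIco k' hk'), if_neg (fun h => h4 h.1)]
  -- the numbers `j + ℓ i`
  have hji : ∀ i : ℕ, ¬ ℓ ∣ j + ℓ * i := fun i h =>
    hj ((Nat.dvd_add_left (Dvd.intro i rfl)).1 h)
  have hjj : ∀ i i' : ℕ, j + ℓ * i ≡ j + ℓ * i' [MOD ℓ] := by
    intro i i'
    refine Nat.ModEq.add_left j ?_
    exact ((Nat.modEq_zero_iff_dvd.2 (Dvd.intro i rfl)).trans
      (Nat.modEq_zero_iff_dvd.2 (Dvd.intro i' rfl)).symm)
  have hj0 : ∀ i : ℕ, j ≡ j + ℓ * i [MOD ℓ] := fun i => by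
    have := hjj 0 i
    simpa only [mul_zero, add_zero] using this
  have hne : ∀ i < ℓ, ∀ i' < ℓ, i ≠ i' → ¬ j + ℓ * i ≡ j + ℓ * i' [MOD ℓ ^ 2] := by
    intro i hi i' hi' hii h
    have h1 : ℓ * i ≡ ℓ * i' [MOD ℓ * ℓ] := by
      rw [← pow_two]
      exact Nat.ModEq.add_left_cancel' j h
    have h2 : i ≡ i' [MOD ℓ] := Nat.ModEq.mul_left_cancel' hp.ne_zero h1
    exact hii (Nat.ModEq.eq_of_lt_of_lt h2 hi hi')
  have hRI : Rf M N e ⊆ Irr G := fun χ hχ => hχ.1.1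
  have hRf : (Rf M N e).Finite := hI.subset hRI
  -- the values at the fixed characters
  have hfix := avn ℓ M hM G H N e V γ b d c ε y w β π m K g θ hS
  have fA : ∀ χ ∈ Rf M N e, ∀ i s, A (j + ℓ * i) s χ = A j s χ := by
    intro χ hχ i s
    rw [hA, hA]
    exact ((hfix χ hχ j (j + ℓ * i) hj (hj0 i)).1 (g s)).symm
  have fU : ∀ χ ∈ Rf M N e, ∀ i k, ¬ ℓ ∣ k → U (j + ℓ * i) k χ = U j k χ := by
    intro χ hχ i k hk
    rw [hU, hU]
    exact ((hfix χ hχ j (j + ℓ * i) hj (hj0 i)).2 k hk).symm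
  have fB : ∀ χ ∈ Rf M N e, ∀ i, B (j + ℓ * i) χ = B j χ := by
    intro χ hχ i
    rw [hB, hB]
    exact Finset.sum_congr rfl fun s _ => fA χ hχ i s
  have fQ : ∀ χ ∈ Rf M N e, ∀ i, Q (j + ℓ * i) χ = Q j χ := by
    intro χ hχ i
    rw [hQ, hQ]
    exact Finset.sum_congr rfl fun k hk => fU χ hχ i k (hIco k hk)
  -- Bessel
  have hbes : ∀ (v : ℕ → (G → ℂ) → ℂ) (c' : ℝ),
      (∀ i < ℓ, ∀ i' < ℓ, i ≠ i' → P S (v i) (v i') = 0) →
      (∀ i < ℓ, P S (v i) (v i) = ((ℓ * c' : ℝ) : ℂ)) →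
      (∀ i < ℓ, ∀ χ ∈ Rf M N e, v i χ = v 0 χ) →
      ∑ᶠ χ ∈ Rf M N e, Complex.normSq (v 0 χ) ≤ c' := by
    intro v c' h1 h2 h3
    have h4 := bsf G (Rf M N e) hRI ℓ v (ℓ * c') hp.pos
      (fun i hi i' hi' hii => by rw [hP]; exact h1 i hi i' hi' hii)
      (fun i hi => by rw [hP]; exact h2 i hi) h3
    exact le_of_mul_le_mul_left h4 hℓp
  refine ⟨?_, ?_, ?_, ?_⟩
  · intro s s' hss
    have h := hbes (fun i χ => A (j + ℓ * i) s χ - A (j + ℓ * i) s' χ) (2 * ℓ) ?_ ?_ ?_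
    · simp only [mul_zero, add_zero, hA] at h
      exact h
    · intro i hi i' hi' hii
      rw [P_sub, P_sub', P_sub']
      simp only [gAA _ _ (hji i) (hjj i i'), if_neg (hne i hi i' hi' hii)]
      ring
    · intro i hi
      rw [P_sub, P_sub', P_sub']
      simp only [gAA _ _ (hji i) (hjj i i), if_pos (Nat.ModEq.refl _), if_true, if_neg hss,
        if_neg (Ne.symm hss)]
      push_cast
      ring
    · intro i _ χ hχ
      simp only [mul_zero, add_zero]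
      rw [fA χ hχ, fA χ hχ]
  · have h := hbes (fun i χ => θ * B (j + ℓ * i) χ + Q (j + ℓ * i) χ) (m * ℓ ^ 4) ?_ ?_ ?_
    · simp only [mul_zero, add_zero] at h
      have h5 : ∀ χ, Complex.normSq (θ * B j χ + Q j χ) =
          (ℓ : ℝ) ^ 2 * Complex.normSq (aa M ℓ b d ε y w π g θ j χ) := by
        intro χ
        have h6 : θ * B j χ + Q j χ = (ℓ : ℂ) * aa M ℓ b d ε y w π g θ j χ := by
          unfold aa bq
          rw [mul_inv_cancel_left₀ hℓ0, hB, hQ]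
          simp only [hA, hU]
        rw [h6, map_mul, Complex.normSq_natCast]
        ring
      simp only [h5] at h
      rw [finsum_mem_eq_finite_toFinset_sum _ hRf, ← Finset.mul_sum] at h
      rw [finsum_mem_eq_finite_toFinset_sum _ hRf]
      have h7 : (0 : ℝ) < (ℓ : ℝ) ^ 2 := pow_pos hℓp 2
      refine le_of_mul_le_mul_left (h.trans (le_of_eq ?_)) h7
      ring
    · intro i hi i' hi' hii
      rw [P_add, P_add', P_add', P_mul, P_mul, P_mul', P_mul', gBB _ _ (hji i) (hjj i i'),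
        gQQ _ _ (hji i) (hjj i i'), gBQ _ _ (hji i) (hjj i i'),
        P_symm0 S (gBQ _ _ (hji i') (hjj i' i)), if_neg (hne i hi i' hi' hii),
        if_neg (hne i hi i' hi' hii)]
      ring
    · intro i hi
      rw [P_add, P_add', P_add', P_mul, P_mul, P_mul', P_mul', gBB _ _ (hji i) (hjj i i),
        gQQ _ _ (hji i) (hjj i i), gBQ _ _ (hji i) (hjj i i),
        P_symm0 S (gBQ _ _ (hji i) (hjj i i)), if_pos (Nat.ModEq.refl _),
        if_pos (Nat.ModEq.refl _), hθc, ← mul_assoc, hθ2]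
      push_cast
      ring
    · intro i _ χ hχ
      simp only [mul_zero, add_zero]
      rw [fB χ hχ, fQ χ hχ]
  · intro k hk
    have h := hbes (fun i χ => U (j + ℓ * i) k χ) (ℓ ^ 3) ?_ ?_ ?_
    · simp only [mul_zero, add_zero, hU] at h
      exact h
    · intro i hi i' hi' hii
      rw [gUU _ _ (hji i) (hjj i i') k k hk hk, if_neg (fun h => hne i hi i' hi' hii h.1)]
    · intro i hi
      rw [gUU _ _ (hji i) (hjj i i) k k hk hk, if_pos ⟨Nat.ModEq.refl _, 1, Subgroup.one_mem _,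
        by rw [one_mul, inv_one, mul_one]⟩]
      push_cast
      ring
    · intro i _ χ hχ
      simp only [mul_zero, add_zero]
      exact fU χ hχ i k hk
  · intro hm
    -- all the numbers `U j k χ` are equal
    have hconj : ∀ k ∈ Finset.Ico 1 ℓ, ∃ t ∈ Tg V γ,
        t * (y ^ j * w ^ (ℓ * j)) * t⁻¹ = y ^ j * w ^ (ℓ * k) := by
      intro k hk
      have h1 := hc3 j j hj hj
      have h2 : {k' : ℕ | 1 ≤ k' ∧ k' < ℓ ∧ ∃ t ∈ Tg V γ,
          t * (y ^ j * w ^ (ℓ * j)) * t⁻¹ = y ^ j * w ^ (ℓ * k')} ⊆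
          ((Finset.Ico 1 ℓ : Finset ℕ) : Set ℕ) := by
        intro k' hk'
        rw [Finset.mem_coe, Finset.mem_Ico]
        exact ⟨hk'.1, hk'.2.1⟩
      have h3 := Set.eq_of_subset_of_ncard_le h2 (by
        rw [h1, hm, Set.ncard_coe_finset, Nat.card_Ico]) (Finset.finite_toSet _)
      have h4 : k ∈ ((Finset.Ico 1 ℓ : Finset ℕ) : Set ℕ) := hk
      rw [← h3] at h4
      exact h4.2.2
    have hUk : ∀ χ ∈ Irr G, ∀ k ∈ Finset.Ico 1 ℓ, U j k χ = U j j χ := by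
      intro χ hχ k hk
      obtain ⟨t, ht, htk⟩ := hconj k hk
      have h1 := (dpw ℓ M hM hS.odd G e V γ b d c ε hS.dat).1 t ht _ (hc1 j j hj hj)
      rw [htk] at h1
      rw [hU, hU]
      unfold vk
      rw [h1.2.1, h1.2.2 χ hχ]
    have h := hbes (fun i χ => θ * B (j + ℓ * i) χ - U (j + ℓ * i) j χ) (ℓ ^ 4) ?_ ?_ ?_
    · simp only [mul_zero, add_zero] at h
      have h5 : ∀ χ ∈ Rf M N e, Complex.normSq (θ * B j χ - U j j χ) =
          (ℓ : ℝ) ^ 2 * Complex.normSq (aa M ℓ b d ε y w π g θ j χ - vk M ℓ b d ε y w j j χ) := by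
        intro χ hχ
        have h6 : θ * B j χ - U j j χ =
            (ℓ : ℂ) * (aa M ℓ b d ε y w π g θ j χ - vk M ℓ b d ε y w j j χ) := by
          have h7 : ∑ k ∈ Finset.Ico 1 ℓ, vk M ℓ b d ε y w j k χ =
              ((ℓ : ℂ) - 1) * vk M ℓ b d ε y w j j χ := by
            rw [Finset.sum_congr rfl (g := fun _ => vk M ℓ b d ε y w j j χ)
              (fun k hk => by rw [← hU, ← hU]; exact hUk χ (hRI hχ) k hk), Finset.sum_const,
              Nat.card_Ico, nsmul_eq_mul, Nat.cast_sub hp.one_lt.le, Nat.cast_one]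
          unfold aa bq
          rw [h7, mul_sub, mul_inv_cancel_left₀ hℓ0, hB, hU]
          simp only [hA]
          ring
        rw [h6, map_mul, Complex.normSq_natCast]
        ring
      rw [finsum_mem_eq_finite_toFinset_sum _ hRf] at h
      rw [Finset.sum_congr rfl (fun χ hχ => h5 χ (hRf.mem_toFinset.1 hχ)), ← Finset.mul_sum] at h
      rw [finsum_mem_eq_finite_toFinset_sum _ hRf]
      have h7 : (0 : ℝ) < (ℓ : ℝ) ^ 2 := pow_pos hℓp 2
      refine le_of_mul_le_mul_left (h.trans (le_of_eq ?_)) h7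
      ring
    · intro i hi i' hi' hii
      rw [P_sub, P_sub', P_sub', P_mul, P_mul, P_mul', gBB _ _ (hji i) (hjj i i'),
        gUU _ _ (hji i) (hjj i i') j j hj hj, gBU _ _ (hji i) (hjj i i') j hj,
        P_mul', P_symm0 S (gBU _ _ (hji i') (hjj i' i) j hj), if_neg (hne i hi i' hi' hii),
        if_neg (fun h => hne i hi i' hi' hii h.1)]
      ring
    · intro i hi
      have hm' : (m : ℂ) = (ℓ : ℂ) - 1 := by
        rw [hm, Nat.cast_sub hp.one_lt.le, Nat.cast_one]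
      rw [P_sub, P_sub', P_sub', P_mul, P_mul, P_mul', gBB _ _ (hji i) (hjj i i),
        gUU _ _ (hji i) (hjj i i) j j hj hj, gBU _ _ (hji i) (hjj i i) j hj,
        P_mul', P_symm0 S (gBU _ _ (hji i) (hjj i i) j hj), if_pos (Nat.ModEq.refl _),
        if_pos ⟨Nat.ModEq.refl _, 1, Subgroup.one_mem _, by rw [one_mul, inv_one, mul_one]⟩,
        hθc, ← mul_assoc, hθ2, hm']
      push_cast
      ring
    · intro i _ χ hχ
      simp only [mul_zero, add_zero]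
      rw [fB χ hχ, fU χ hχ i j hj]

end Pool.Agent.PP.T12.H13
end
end -- Pool.Agent.Helper13_AT12.BE2

section -- Pool.Agent.Helper13_AT12.LBZ

/-!
# Squad AT12, row LBZ (helper13): the bound for the number of the fixed characters
-/

set_option autoImplicit false

open scoped BigOperators

noncomputable section

namespace Pool.Agent.PP.T12.H13

open Pool.Agent.Helper51_AWC Pool.Agent.Helper79_WRA Pool.Agent.PP Pool.Agent.PP.KF
open Pool.Agent.PP.K9 Pool.Agent.PP.K9.H97 Pool.Agent.PP.H75 Pool.Agent.PP.T3 Pool.Agent.PP.T2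
open Pool.Agent.PP.T8

attribute [local instance] Ideal.Quotient.field

/-- NRM, if the sum is not zero for some `j₀` prime to `ℓ` -/
theorem nrmj (nrm : T8.NrmStmt) {ℓ : ℕ} [hℓ : Fact ℓ.Prime] {M : Ideal (integralClosure ℤ ℂ)}
    [M.IsMaximal] (hM : (ℓ : integralClosure ℤ ℂ) ∈ M) {a : ℕ} (ha : 0 < a) (s h : ℕ) {ζ : ℂ}
    (hζ : IsPrimitiveRoot ζ (ℓ ^ a)) (n : ℕ → ℤ)
    (hR : ∀ j : ℕ, ¬ ℓ ∣ j →
      (∑ i ∈ Finset.range (ℓ ^ a), (n i : ℂ) * ζ ^ (i * j)) / ℓ ^ s / ℓ ^ h ∈ RM M)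
    {j₀ : ℕ} (hj₀ : ¬ ℓ ∣ j₀) (hne : ∑ i ∈ Finset.range (ℓ ^ a), (n i : ℂ) * ζ ^ (i * j₀) ≠ 0) :
    ((ℓ ^ (a - 1) * (ℓ - 1) * ℓ ^ (2 * h) : ℕ) : ℝ) ≤
      ∑ j ∈ (Finset.range (ℓ ^ a)).filter (fun j => ¬ ℓ ∣ j),
        Complex.normSq ((∑ i ∈ Finset.range (ℓ ^ a), (n i : ℂ) * ζ ^ (i * j)) / ℓ ^ s) := by
  have hp : ℓ.Prime := hℓ.out
  have hl : 1 < ℓ ^ a := Nat.one_lt_pow ha.ne' hp.one_lt
  have hq : 0 < ℓ ^ a := by omega
  have hla : ℓ ∣ ℓ ^ a := dvd_pow_self ℓ ha.ne'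
  have hc : Nat.Coprime j₀ (ℓ ^ a) :=
    Nat.Coprime.pow_right a (((Nat.Prime.coprime_iff_not_dvd hp).2 hj₀).symm)
  obtain ⟨F, hF⟩ : ∃ F : ℕ → ℂ, ∀ j, F j =
      ∑ i ∈ Finset.range (ℓ ^ a), (n i : ℂ) * ζ ^ (i * j) := ⟨_, fun _ => rfl⟩
  have hF2 : ∀ j, ∑ i ∈ Finset.range (ℓ ^ a), (n i : ℂ) * (ζ ^ j₀) ^ (i * j) = F (j₀ * j) := by
    intro j
    rw [hF]
    refine Finset.sum_congr rfl fun i _ => ?_
    rw [← pow_mul]
    congr 2
    ring
  have hFmod : ∀ j, F (j % ℓ ^ a) = F j := by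
    intro j
    rw [hF, hF]
    refine Finset.sum_congr rfl fun i _ => ?_
    congr 1
    rw [mul_comm i, pow_mul, mul_comm i, pow_mul]
    congr 1
    exact (pow_eq_pow_mod j hζ.pow_eq_one).symm
  have h1 := nrm ℓ M hM a s h ha (ζ ^ j₀) (hζ.pow_of_coprime j₀ hc) n (fun j hj => by
    rw [hF2, hF]
    exact hR _ (fun hd => (hp.dvd_mul.1 hd).elim hj₀ hj)) (by
    have h2 := hF2 1
    simp only [mul_one] at h2
    rw [h2, hF]
    exact hne)
  refine h1.trans (le_of_eq ?_)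
  simp only [hF2]
  obtain ⟨j₁, -, hj₁⟩ := Nat.exists_mul_mod_eq_one_of_coprime hc hl
  have hj₁' : ¬ ℓ ∣ j₁ := by
    intro hd
    have h2 : ℓ ∣ j₀ * j₁ := hd.mul_left j₀
    have h3 : ℓ ∣ 1 := by
      rw [← hj₁]
      exact (Nat.dvd_mod_iff hla).2 h2
    exact hp.one_lt.ne' (Nat.dvd_one.1 h3)
  have hJ : ∀ x : ℕ, ¬ ℓ ∣ x → ∀ j ∈ (Finset.range (ℓ ^ a)).filter (fun j => ¬ ℓ ∣ j),
      x * j % ℓ ^ a ∈ (Finset.range (ℓ ^ a)).filter (fun j => ¬ ℓ ∣ j) := by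
    intro x hx j hj
    rw [Finset.mem_filter] at hj ⊢
    refine ⟨Finset.mem_range.2 (Nat.mod_lt _ hq), fun hd => ?_⟩
    exact (hp.dvd_mul.1 ((Nat.dvd_mod_iff hla).1 hd)).elim hx hj.2
  have hinv : ∀ x x' : ℕ, x * x' % ℓ ^ a = 1 →
      ∀ j ∈ (Finset.range (ℓ ^ a)).filter (fun j => ¬ ℓ ∣ j), x * (x' * j % ℓ ^ a) % ℓ ^ a = j := by
    intro x x' hx j hj
    rw [Finset.mem_filter, Finset.mem_range] at hj
    rw [Nat.mul_mod, Nat.mod_mod, ← Nat.mul_mod, ← mul_assoc, Nat.mul_mod, hx, one_mul, Nat.mod_mod,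
      Nat.mod_eq_of_lt hj.1]
  refine Finset.sum_nbij' (fun j => j₀ * j % ℓ ^ a) (fun j => j₁ * j % ℓ ^ a) (hJ j₀ hj₀)
    (hJ j₁ hj₁') (hinv j₁ j₀ (by rw [mul_comm]; exact hj₁)) (hinv j₀ j₁ hj₁) ?_
  intro j _
  rw [← hF, hFmod]

theorem lbz (cnb : CnbStmt) (be2 : Be2Stmt) (gal : GalStmt) (avl : AvlStmt) (crg : CrgStmt)
    (nrm : T8.NrmStmt) (dcg : T8.DcgStmt) (inx : K9.InxStmt) : LbzStmt := by
  intro ℓ hℓ M _ hM G H _ _ _ _ N e V γ b d c ε y w β π m K g θ hS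
  classical
  have hp : ℓ.Prime := hℓ.out
  have hF : GoodF ℓ (FF M) := H50.fld ℓ hp M hM
  have := Fintype.ofFinite G
  have hI : (Irr G).Finite := irr_finite'
  have hRI : Rf M N e ⊆ Irr G := fun χ hχ => hχ.1.1
  have hRf : (Rf M N e).Finite := hI.subset hRI
  have hRt := hRf.fintype
  have hℓ0 : (ℓ : ℂ) ≠ 0 := by exact_mod_cast hp.ne_zero
  have hm2 := hS.cs.two
  have hmd := hS.cs.dvd
  have hodd : Odd ℓ := hp.odd_of_ne_two hS.odd
  have hℓ3 : 3 ≤ ℓ := by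
    have h1 := hp.two_le
    have h2 := hS.odd
    omega
  have hl2 : 1 < ℓ ^ 2 := Nat.one_lt_pow two_ne_zero hp.one_lt
  have hn1 : ¬ ℓ ∣ 1 := fun hd => hp.one_lt.ne' (Nat.dvd_one.1 hd)
  have hζ := Complex.isPrimitiveRoot_exp (ℓ ^ 2) (by omega)
  obtain ⟨ζ, hζ⟩ : ∃ ζ : ℂ, IsPrimitiveRoot ζ (ℓ ^ 2) := ⟨_, hζ⟩
  obtain ⟨J, hJ⟩ : ∃ J : Finset ℕ, J = (Finset.range (ℓ ^ 2)).filter (fun j => ¬ ℓ ∣ j) :=
    ⟨_, rfl⟩
  have hJm : ∀ j : J, ¬ ℓ ∣ (j : ℕ) := by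
    rintro ⟨j, h1⟩
    rw [hJ, Finset.mem_filter] at h1
    exact h1.2
  have h1J : 1 ∈ J := by
    rw [hJ, Finset.mem_filter, Finset.mem_range]
    exact ⟨hl2, hn1⟩
  have hJc : Fintype.card J = ℓ ^ (2 - 1) * (ℓ - 1) := by
    rw [Fintype.card_coe, hJ]
    exact T8.H18.card_filter_ndvd two_pos
  have hcard : (Rf M N e).ncard = Fintype.card (Rf M N e) := by
    rw [← Nat.card_coe_set_eq, Nat.card_eq_fintype_card]
  have hsR : ∀ f : (G → ℂ) → ℝ, ∑ᶠ χ ∈ Rf M N e, f χ = ∑ χ : Rf M N e, f χ := fun f => by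
    rw [← finsum_eq_sum_of_fintype, finsum_set_coe_eq_finsum_mem]
  have hsJ : ∀ f : ℕ → ℝ, ∑ j : J, f j = ∑ j ∈ (Finset.range (ℓ ^ 2)).filter (fun j => ¬ ℓ ∣ j),
      f j := fun f => by
    rw [Finset.sum_coe_sort J f, hJ]
  have hint : ∀ (n : ℕ → ℤ) (j : ℕ), ∑ i ∈ Finset.range (ℓ ^ 2), (n i : ℂ) * ζ ^ (i * j) ∈ RM M := by
    intro n j
    refine sum_mem fun i _ => (RM M).mul_mem (rr_int (n i)).1 ?_
    exact RM_of_int ((hζ.isIntegral (by omega)).pow _)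
  have hbes := be2 ℓ M hM G H N e V γ b d c ε y w β π m K g θ hS
  have hgal := gal ℓ M hM G H N e V γ b d c ε y w β π m K g θ hS ζ hζ
  have havl := avl ℓ M hM G H N e V γ b d c ε y w β π m K g θ hS
  obtain ⟨hc1, -, -⟩ := crg ℓ (FF M) hF hS.odd G e V γ hS.dat.ld y w m hS.cs
  have hmℓ : ¬ ℓ ∣ m := by
    intro hd
    have h1 := Nat.le_of_dvd (by omega) (hd.trans hmd)
    omega
  have hmR : ((m : ℂ))⁻¹ ∈ RM M := by
    refine (inv_RM (rr_nat m).1 ?_).1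
    intro h0
    have h1 : rr M ((m : ℤ) : ℂ) = 0 := by rw [Int.cast_natCast]; exact h0
    exact hmℓ (Int.natCast_dvd_natCast.1 ((dvd_of_rr hp hM).1 h1))
  have hm0 : (m : ℂ) ≠ 0 := by
    have : m ≠ 0 := by omega
    exact_mod_cast this
  rw [hcard]
  refine cnb ℓ m J (Rf M N e) (fun j χ s => Av ℓ π (y ^ (j : ℕ)) (g s) χ)
    (fun j χ => aa M ℓ b d ε y w π g θ j χ) (fun j χ => vk M ℓ b d ε y w j j χ) hodd hℓ3 hm2 hmd
    ?_ ?_ ?_ ?_ ?_ ?_ ?_ ?_ ?_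
  · exact Fintype.card_pos_iff.2 ⟨⟨1, h1J⟩⟩
  · intro j s s' hss
    have h := (hbes j (hJm j)).1 s s' hss
    rw [hsR] at h
    exact h
  · intro j
    have h := (hbes j (hJm j)).2.1
    rw [hsR] at h
    exact h
  · intro j
    have h := (hbes j (hJm j)).2.2.1 j (hJm j)
    rw [hsR] at h
    exact h
  · intro hm j
    have h := (hbes j (hJm j)).2.2.2 hm
    rw [hsR] at h
    exact h
  · intro χ s s'
    obtain ⟨n, hn⟩ := (hgal χ (hRI χ.2)).1 s s'
    by_cases h0 : ∀ j : J, Av ℓ π (y ^ (j : ℕ)) (g s) χ = Av ℓ π (y ^ (j : ℕ)) (g s') χ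
    · exact Or.inl h0
    · right
      push Not at h0
      obtain ⟨j₀, hj₀⟩ := h0
      have h1 := nrmj nrm hM two_pos 0 0 hζ n (fun j _ => by
        rw [pow_zero, div_one, div_one]
        exact hint n j) (hJm j₀) (by
        rw [← hn]
        exact sub_ne_zero.2 hj₀)
      rw [mul_zero, pow_zero, mul_one, ← hJc] at h1
      refine h1.trans (le_of_eq ?_)
      rw [hsJ (fun j => Complex.normSq (Av ℓ π (y ^ j) (g s) χ - Av ℓ π (y ^ j) (g s') χ))]
      refine Finset.sum_congr rfl fun j _ => ?_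
      rw [pow_zero, div_one, hn]
  · rintro χ ⟨j₀, hj₀⟩
    obtain ⟨n, hn⟩ := (hgal χ (hRI χ.2)).2.1
    have hq : ∀ j : ℕ, ¬ ℓ ∣ j → (∑ i ∈ Finset.range (ℓ ^ 2), (n i : ℂ) * ζ ^ (i * j)) / ℓ ^ 1 =
        aa M ℓ b d ε y w π g θ j χ := by
      intro j hj
      rw [← hn j hj, pow_one, mul_div_cancel_left₀ _ hℓ0]
    have h1 := nrmj nrm hM two_pos 1 0 hζ n (fun j hj => by
      rw [hq j hj, pow_zero, div_one]
      exact (havl χ χ.2 j hj).1) (hJm j₀) (by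
      rw [← hn j₀ (hJm j₀)]
      exact mul_ne_zero hℓ0 hj₀)
    rw [mul_zero, pow_zero, mul_one, ← hJc] at h1
    refine h1.trans (le_of_eq ?_)
    rw [hsJ (fun j => Complex.normSq (aa M ℓ b d ε y w π g θ j χ))]
    refine Finset.sum_congr rfl fun j hj => ?_
    rw [hq j (Finset.mem_filter.1 hj).2]
  · rintro χ ⟨j₀, hj₀⟩ hX
    obtain ⟨n, hn⟩ := (hgal χ (hRI χ.2)).2.2.1 (fun s s' => by
      have h1 := hX ⟨1, h1J⟩ s s'
      simp only [pow_one] at h1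
      exact h1)
    have hq : ∀ j : ℕ, ¬ ℓ ∣ j → (∑ i ∈ Finset.range (ℓ ^ 2), (n i : ℂ) * ζ ^ (i * j)) / ℓ ^ 1 =
        (m : ℂ)⁻¹ * aa M ℓ b d ε y w π g θ j χ := by
      intro j hj
      have h1 := hn j hj
      rw [pow_one, div_eq_iff hℓ0, mul_assoc, mul_comm (aa M ℓ b d ε y w π g θ j χ), h1,
        inv_mul_cancel_left₀ hm0]
    have h1 := nrmj nrm hM two_pos 1 0 hζ n (fun j hj => by
      rw [hq j hj, pow_zero, div_one]
      exact (RM M).mul_mem hmR (havl χ χ.2 j hj).1) (hJm j₀) (by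
      intro h0
      have h2 := hn j₀ (hJm j₀)
      rw [h0, mul_zero] at h2
      exact mul_ne_zero hℓ0 hj₀ h2)
    rw [mul_zero, pow_zero, mul_one, ← hJc] at h1
    have hmr : (0 : ℝ) < (m : ℝ) ^ 2 := by
      have : 0 < m := by omega
      positivity
    have h2 := mul_le_mul_of_nonneg_left h1 hmr.le
    refine h2.trans (le_of_eq ?_)
    rw [hsJ (fun j => Complex.normSq (aa M ℓ b d ε y w π g θ j χ)), Finset.mul_sum]
    refine Finset.sum_congr rfl fun j hj => ?_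
    rw [hq j (Finset.mem_filter.1 hj).2, map_mul, map_inv₀, Complex.normSq_natCast, ← mul_assoc,
      ← pow_two, mul_inv_cancel₀ hmr.ne', one_mul]
  · intro χ h0
    have hχe : (χ : G → ℂ) ∈ IrrE M e := χ.2.1
    -- a regular element
    obtain ⟨u₀, hu₀, hcon⟩ : ∃ u, Rg V γ u ∧ vv M b d u χ / ℓ ∈ RM M := by
      by_contra hcon
      push Not at hcon
      have h1 := (havl χ χ.2 1 hn1).2 hcon
      have h2 := h0 ⟨1, h1J⟩
      rw [h2, zero_div] at h1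
      exact h1 (RM M).zero_mem
    have D := hS.dat
    have hix : ¬ ℓ ∣ ix V γ :=
      inx ℓ M hM G e D.ld.blk V D.ld.tp D.ld.ab γ D.ld.gam.supp D.ld.gam.blk D.ld.und
    obtain ⟨ρ, hρ⟩ : ∃ ρ : ℂ, ρ = (Nat.card G * c : ℂ) /
        (Nat.card (Subgroup.centralizer (V : Set G)) * (χ : G → ℂ) 1) := ⟨_, rfl⟩
    have hXu : ∀ u, Rg V γ u → vv M b d u χ * ρ ∈ RM M ∧ rr M (vv M b d u χ * ρ) ≠ 0 := by
      intro u hu
      obtain ⟨h1, h2⟩ := dcg ℓ M hM G e V γ b d c ε D u hu χ hχe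
      rw [hρ]
      refine ⟨h1, ?_⟩
      rw [h2, ← (rr_int (M := M) (ε u * ix V γ)).2]
      intro h3
      have h4 := (dvd_of_rr (M := M) hp hM).1 h3
      have h5 : (ℓ : ℤ) ∣ (ix V γ : ℤ) := by
        rcases D.sg u hu with h | h
        · rwa [h, one_mul] at h4
        · rw [h, neg_one_mul] at h4
          exact (Int.dvd_neg.1 h4)
      exact hix (Int.natCast_dvd_natCast.1 h5)
    have hv0 : ∀ u, Rg V γ u → vv M b d u χ ≠ 0 := by
      intro u hu h0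
      apply (hXu u hu).2
      rw [h0, zero_mul, rr_zero]
    have hdiv : ∀ u, Rg V γ u → vv M b d u χ / ℓ ∈ RM M := by
      intro u hu
      obtain ⟨h1, h2⟩ := inv_RM (hXu u₀ hu₀).1 (hXu u₀ hu₀).2
      have h3 := (RM M).mul_mem ((RM M).mul_mem hcon (hXu u hu).1) h1
      have h4 : vv M b d u₀ χ ≠ 0 := left_ne_zero_of_mul h2
      have h5 : ρ ≠ 0 := right_ne_zero_of_mul h2
      have h6 : vv M b d u₀ χ / ℓ * (vv M b d u χ * ρ) * (vv M b d u₀ χ * ρ)⁻¹ =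
          vv M b d u χ / ℓ := by
        field_simp
      rwa [h6] at h3
    obtain ⟨n, hn⟩ := (hgal χ (hRI χ.2)).2.2.2
    have hεne : ∀ u, Rg V γ u → (ε u : ℂ) ≠ 0 := by
      intro u hu
      rcases D.sg u hu with h | h <;> rw [h] <;> norm_num
    have h1 := nrmj nrm hM two_pos 0 1 hζ n (fun j hj => by
      rw [← hn j hj, pow_zero, div_one, pow_one]
      unfold vk
      rw [mul_div_assoc]
      exact (RM M).mul_mem (rr_int _).1 (hdiv _ (hc1 j j hj hj))) hn1 (by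
      rw [← hn 1 hn1]
      unfold vk
      exact mul_ne_zero (hεne _ (hc1 1 1 hn1 hn1)) (hv0 _ (hc1 1 1 hn1 hn1)))
    rw [← hJc, mul_one] at h1
    have h2 : (ℓ : ℝ) ^ 2 * (Fintype.card J : ℝ) = ((Fintype.card J * ℓ ^ 2 : ℕ) : ℝ) := by
      push_cast
      ring
    rw [h2]
    refine h1.trans (le_of_eq ?_)
    rw [hsJ (fun j => Complex.normSq (vk M ℓ b d ε y w j j χ))]
    refine Finset.sum_congr rfl fun j hj => ?_
    rw [pow_zero, div_one, ← hn j (Finset.mem_filter.1 hj).2]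

end Pool.Agent.PP.T12.H13
end
end -- Pool.Agent.Helper13_AT12.LBZ

section -- Pool.Agent.Helper38_AT12.AVI

/-!
# Squad AT12, row AVI: the values of a coherent idempotent at the powers of `y`
-/

open scoped BigOperators

set_option linter.unusedSectionVars false

noncomputable section

namespace Pool.Agent.PP.T12.H38

open Pool.Agent.Helper51_AWC Pool.Agent.Helper79_WRA Pool.Agent.PP Pool.Agent.PP.KF
open Pool.Agent.PP.K9 Pool.Agent.PP.K9.H97 Pool.Agent.PP.H75 Pool.Agent.PP.T3 Pool.Agent.PP.T2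
open Pool.Agent.PP.T8

attribute [local instance] Ideal.Quotient.field

/-- the centraliser of a power of an `ℓ`-element -/
theorem cu_pow' {G : Type} [Group G] {ℓ : ℕ} [Fact ℓ.Prime] {z : G} (hz : El ℓ z) {j : ℕ}
    (hj : ¬ ℓ ∣ j) : Cu (z ^ j) = Cu z := by
  obtain ⟨n, hn⟩ := hz
  have hc : j.Coprime (orderOf z) := by
    have h1 : orderOf z ∣ ℓ ^ n := orderOf_dvd_of_pow_eq_one hn
    have h2 : (ℓ ^ n).Coprime j :=
      Nat.Coprime.pow_left n (((Fact.out : ℓ.Prime).coprime_iff_not_dvd).2 hj)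
    exact (h2.coprime_dvd_left h1).symm
  ext g
  rw [Subgroup.mem_centralizer_singleton_iff, Subgroup.mem_centralizer_singleton_iff]
  constructor
  · intro h
    obtain ⟨k, hk⟩ := exists_pow_eq_self_of_coprime hc
    have h1 : Commute g (z ^ j) := h
    have h2 := h1.pow_right k
    rw [hk] at h2
    exact h2
  · intro h
    have h1 : Commute g z := h
    exact (h1.pow_right j).eq

/-- products of functions supported on a subgroup -/
theorem mulF_restr {F G : Type} [Field F] [Group G] [Finite G] (C : Subgroup G) {a b : G → F}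
    (ha : ∀ g, g ∉ C → a g = 0) :
    mulF (fun c : C => a c) (fun c : C => b c) = fun c : C => mulF a b c := by
  funext c
  unfold mulF
  exact (H60.fsum_supp C (fun t => a t * b (t⁻¹ * (c : G))) (fun g hg => by
    rw [ha g hg, zero_mul])).symm

/-- an element of a group with two commuting descriptions -/
theorem reg_el_one {G : Type} [Group G] {ℓ : ℕ} {z : G} (hr : Reg ℓ z) (hz : El ℓ z) : z = 1 := by
  obtain ⟨n, hn⟩ := hz
  have h1 : orderOf z ∣ ℓ ^ n := orderOf_dvd_of_pow_eq_one hn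
  have h2 : (orderOf z).Coprime (ℓ ^ n) := Nat.Coprime.pow_right n hr
  exact orderOf_eq_one_iff.1 (Nat.Coprime.eq_one_of_dvd h2 h1)

theorem reg_mul {G : Type} [Group G] {ℓ : ℕ} {x y : G} (hx : Reg ℓ x) (hy : Reg ℓ y)
    (h : Commute x y) : Reg ℓ (x * y) := by
  unfold Reg at hx hy ⊢
  exact Nat.Coprime.coprime_dvd_left h.orderOf_mul_dvd_mul_orderOf (Nat.Coprime.mul_left hx hy)

theorem reg_inv {G : Type} [Group G] {ℓ : ℕ} {x : G} (hx : Reg ℓ x) : Reg ℓ x⁻¹ := by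
  unfold Reg at hx ⊢
  rwa [orderOf_inv]

theorem avi (lcl : LclStmt) (smi : SmiStmt) (prj : PrjStmt) : AviStmt := by
  classical
  intro ℓ _ M _ hM G H _ _ _ _ a e V γ y β π m K g hS i hi
  have := Fintype.ofFinite (Cu y)
  have := Fintype.ofFinite H
  obtain ⟨j₀, hj, hjs, hjr, -, -⟩ := lcl ℓ M hM G e V γ hS.ld i hi y hS.mem β hS.lc
  have hEy : El ℓ y := ⟨a, by rw [← hS.qn.ord]; exact pow_orderOf_eq_one y⟩
  -- the residue of `j₀`
  have hrs : rd M j₀ = rs (Cu y) (rd M i) := by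
    funext x
    unfold rd rs
    by_cases hx : x ∈ Cu y
    · rw [if_pos hx]
      exact hjr x hx
    · rw [if_neg hx, hjs x hx]
      exact rr_zero
  have hrb : mulF (rd M j₀) β = rd M j₀ := by
    rw [hrs]
    exact hi.lb y hS.mem β hS.lc
  have hrs0 : ∀ x, x ∉ Cu y → rd M j₀ x = 0 := by
    intro x hx
    rw [hrs]
    unfold rs
    rw [if_neg hx]
  set jc : Cu y → ℂ := fun c => j₀ c with hjc
  have hid : mulF jc jc = jc := by
    rw [hjc, mulF_restr (Cu y) hjs, hj.id]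
  set J : H → ℂ := push π jc with hJ
  have hJrm : ∀ h, J h ∈ RM M := by
    intro h
    rw [hJ, push_eq]
    refine Subring.sum_mem _ fun x _ => ?_
    split_ifs
    · exact hj.rm _
    · exact (RM M).zero_mem
  have hrdJ : rd M J = push π (fun c : Cu y => rd M j₀ c) := by
    funext h
    rw [push_eq]
    unfold rd
    rw [hJ, push_eq, rr_sum _ _ (fun x _ => by
      split_ifs
      · exact hj.rm _
      · exact (RM M).zero_mem)]
    refine Finset.sum_congr rfl fun x _ => ?_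
    split_ifs
    · rfl
    · exact rr_zero
  have hVC : ∀ v ∈ V, v ∈ Cu y := by
    intro v hv
    rw [Subgroup.mem_centralizer_singleton_iff]
    exact hS.ld.ab v hv y hS.mem
  have hIp : Ip M ((V.subgroupOf (Cu y)).map π) J := by
    refine ⟨hJrm, ?_, ?_⟩
    · rw [hJ, ← push_mulF, hid]
    · rintro w ⟨v, hv, rfl⟩ x
      have h1 : cj v⁻¹ jc = jc := by
        funext c
        show j₀ (((v⁻¹)⁻¹ * c * v⁻¹ : Cu y) : G) = j₀ c
        have h2 := hj.iv (v : G) (Subgroup.mem_subgroupOf.1 hv) (c : G)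
        rw [← h2]
        congr 1
        push_cast
        rw [inv_inv]
      have h3 := T3.H43.push_cj π v⁻¹ jc
      rw [h1] at h3
      have h4 := congrFun h3 x
      rw [hJ, h4]
      show push π jc (π v * x * (π v)⁻¹) = push π jc ((π v⁻¹)⁻¹ * x * π v⁻¹)
      rw [map_inv, inv_inv]
  have hJf : mulF (rd M J) (push π (fun t : Cu y => β t)) = rd M J := by
    rw [hrdJ, ← push_mulF, mulF_restr (Cu y) hrs0, hrb]
  obtain ⟨n, hn, hsum⟩ := hS.cd.idm J hIp hJf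
  refine ⟨n, hn, fun j hℓj χ hχ => ?_⟩
  have hcu := cu_pow' hEy hℓj
  have hcl : ∀ x y, χ (y * x * y⁻¹) = χ x := fun x y => irr_conj hχ x y
  have hEj : El ℓ (y ^ j) := by
    obtain ⟨k, hk⟩ := hEy
    exact ⟨k, by rw [← pow_mul, mul_comm, pow_mul, hk, one_pow]⟩
  have hyjV : y ^ j ∈ V := V.pow_mem hS.mem j
  have s1 := smi ℓ M hM G (y ^ j) hEj i j₀ hi.ip.rm hi.ip.id (hi.ip.iv _ hyjV) hj.rm hj.id
    (by rw [hcu]; exact hjs) (by rw [hcu]; exact hjr) χ hcl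
  rw [s1]
  have e1 : fv j₀ (y ^ j) χ = ∑ c : Cu y, jc c * χ (y ^ j * c) := by
    unfold fv
    rw [H60.fsum_supp (Cu y) (fun g => j₀ g * χ (y ^ j * g)) (fun g hg => by
      rw [hjs g hg, zero_mul]), finsum_eq_sum_of_fintype]
  -- the class function of `H`
  set r : Cu y → ℂ := fun c => if Reg ℓ c then χ (y ^ j * c) else 0 with hr
  set th : H → ℂ := push π r with hth
  have hyc : ∀ x : Cu y, (x : G) * y ^ j = y ^ j * x := by
    intro x
    have h1 : Commute (x : G) y := Subgroup.mem_centralizer_singleton_iff.1 x.2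
    exact (h1.pow_right j).eq
  have hcc : ∀ x c : Cu y, χ (y ^ j * ((x * c * x⁻¹ : Cu y) : G)) = χ (y ^ j * c) := by
    intro x c
    have h1 : y ^ j * ((x * c * x⁻¹ : Cu y) : G) = x * (y ^ j * c) * (x : G)⁻¹ := by
      push_cast
      rw [← mul_assoc (x : G) (y ^ j), hyc]
      group
    rw [h1, hcl]
  have hrcj : ∀ x : Cu y, cj x r = r := by
    intro x
    funext c
    show r (x⁻¹ * c * x) = r c
    have h1 : Reg ℓ (x⁻¹ * c * x) ↔ Reg ℓ c := by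
      unfold Reg
      have h2 : orderOf (x⁻¹ * c * x) = orderOf c := by
        have h3 : x⁻¹ * c * x = x⁻¹ * c * (x⁻¹)⁻¹ := by rw [inv_inv]
        rw [h3]
        exact MulEquiv.orderOf_eq (MulAut.conj x⁻¹) c
      rw [h2]
    have h4 := hcc x⁻¹ c
    rw [inv_inv] at h4
    simp only [hr]
    by_cases hc : Reg ℓ c
    · rw [if_pos hc, if_pos (h1.2 hc), h4]
    · rw [if_neg hc, if_neg (fun h => hc (h1.1 h))]
  have hthc : ∀ x z : H, th (z * x * z⁻¹) = th x := by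
    intro x z
    obtain ⟨k, rfl⟩ := hS.qn.sur z
    have h3 := T3.H43.push_cj π k⁻¹ r
    rw [hrcj] at h3
    have h4 := congrFun h3 x
    rw [hth, h4]
    show push π r (π k * x * (π k)⁻¹) = push π r ((π k⁻¹)⁻¹ * x * π k⁻¹)
    rw [map_inv, inv_inv]
  have hthr : ∀ c : Cu y, Reg ℓ c → th (π c) = χ (y ^ j * c) := by
    intro c hc
    rw [hth, push_eq, Finset.sum_eq_single c]
    · rw [if_pos rfl]
      simp only [hr]
      rw [if_pos hc]
    · intro x _ hxc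
      by_cases hx : π x = π c
      · rw [if_pos hx]
        simp only [hr]
        by_cases hxr : Reg ℓ x
        · exfalso
          apply hxc
          have h1 : π (x⁻¹ * c) = 1 := by rw [map_mul, map_inv, hx, inv_mul_cancel]
          have h2 := (hS.qn.ker _).1 h1
          obtain ⟨k, hk⟩ := Subgroup.mem_zpowers_iff.1 h2
          have hcomm : Commute x c := by
            have h3 : (c : G) = x * y ^ k := by
              rw [hk]
              push_cast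
              group
            have h4 : Commute (x : G) (c : G) := by
              rw [h3]
              have h5 : Commute (x : G) y := Subgroup.mem_centralizer_singleton_iff.1 x.2
              exact (Commute.refl _).mul_right (h5.zpow_right k)
            exact Subtype.ext h4
          have h6 : Reg ℓ (x⁻¹ * c) := reg_mul (reg_inv hxr) hc hcomm.inv_left
          have h7 : El ℓ (x⁻¹ * c) := by
            obtain ⟨q, hq⟩ := hEy
            refine ⟨q, Subtype.ext ?_⟩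
            push_cast
            have h8 : ((x : G)⁻¹ * c) = y ^ k := by
              rw [hk]
              push_cast
              rfl
            rw [h8, ← zpow_natCast, ← zpow_mul, mul_comm, zpow_mul, zpow_natCast, hq, one_zpow]
          have h9 := reg_el_one h6 h7
          exact (inv_mul_eq_one.1 h9)
        · rw [if_neg hxr]
      · rw [if_neg hx]
    · intro h
      exact absurd (Finset.mem_univ c) h
  have hp := prj ℓ M hM (Cu y) jc (fun c => hj.rm c) hid (fun c => χ (y ^ j * c) - th (π c))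
    (fun x z => by
      show χ (y ^ j * ((z * x * z⁻¹ : Cu y) : G)) - th (π (z * x * z⁻¹)) = _
      rw [hcc, map_mul, map_mul, map_inv, hthc])
    (fun c hc => by
      show χ (y ^ j * c) - th (π c) = 0
      rw [hthr c hc, sub_self])
  rw [finsum_eq_sum_of_fintype] at hp
  have e2 : ∑ c : Cu y, jc c * χ (y ^ j * c) = ∑ c : Cu y, jc c * th (π c) := by
    rw [← sub_eq_zero, ← Finset.sum_sub_distrib, ← hp]
    exact Finset.sum_congr rfl fun c _ => (mul_sub _ _ _).symm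
  rw [e1, e2, ← sum_push π jc th, ← hJ, ← finsum_eq_sum_of_fintype, hsum th hthc]
  refine Finset.sum_congr rfl fun s _ => ?_
  congr 1
  unfold ipn Av
  congr 1
  rw [finsum_eq_sum_of_fintype, hth, sum_push π r (fun x => starRingEnd ℂ (g s x)),
    finsum_eq_sum_of_fintype]
  refine Finset.sum_congr rfl fun c _ => ?_
  rw [finsum_eq_if]
  simp only [hr]
  split_ifs
  · rfl
  · rw [zero_mul]

end Pool.Agent.PP.T12.H38
end
end -- Pool.Agent.Helper38_AT12.AVI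

section -- Pool.Agent.Helper67_AT12.CRG

/-!
# AT12 row CRG: the elements of the cosets `y ^ j V ^ ℓ`
-/

open scoped BigOperators

noncomputable section

namespace Pool.Agent.PP.T12.H67

open Pool.Agent.Helper51_AWC Pool.Agent.Helper79_WRA Pool.Agent.PP Pool.Agent.PP.KF
open Pool.Agent.PP.K9 Pool.Agent.PP.K9.H97 Pool.Agent.PP.H75 Pool.Agent.PP.T3 Pool.Agent.PP.T2
open Pool.Agent.PP.T8 Pool.Agent.PP.T12

attribute [local instance] Ideal.Quotient.field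

theorem pow_modEq {G : Type} [Group G] {x : G} {n a b : ℕ} (hx : orderOf x = n)
    (h : a ≡ b [MOD n]) : x ^ a = x ^ b := by
  rw [pow_eq_pow_iff_modEq, hx]
  exact h

theorem modEq_pow {G : Type} [Group G] {x : G} {n a b : ℕ} (hx : orderOf x = n)
    (h : x ^ a = x ^ b) : a ≡ b [MOD n] := by
  rw [pow_eq_pow_iff_modEq, hx] at h
  exact h

theorem part2 {ℓ : ℕ} [Fact ℓ.Prime] {F : Type} [Field F] {G : Type} [Group G] {V : Subgroup G}
    {γ : G → F} (hab : ∀ a ∈ V, ∀ b ∈ V, a * b = b * a) {y w : G} {m : ℕ}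
    (hC : Cs ℓ V γ y w m) (j j' k k' : ℕ) (hj : ¬ ℓ ∣ j) (hjj : j ≡ j' [MOD ℓ]) (t : G)
    (ht : t ∈ Tg V γ)
    (he : t * (y ^ j * w ^ (ℓ * k)) * t⁻¹ = y ^ j' * w ^ (ℓ * k')) :
    t * y = y * t ∧ j ≡ j' [MOD ℓ ^ 2] ∧ (ℓ ∣ k ↔ ℓ ∣ k') := by
  have hp : ℓ.Prime := Fact.out
  have hN : t ∈ Subgroup.normalizer (V : Set G) := ht.1
  have hcop : Nat.Coprime j (ℓ ^ 2) :=
    Nat.Coprime.pow_right 2 (Nat.Coprime.symm ((Nat.Prime.coprime_iff_not_dvd hp).2 hj))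
  obtain ⟨c, -, hc⟩ := Nat.exists_mul_mod_eq_one_of_coprime hcop (by
    have := hp.two_le
    nlinarith [this])
  have h1lt : 1 < ℓ ^ 2 := by
    have := hp.two_le
    nlinarith [this]
  have hc1 : j * c ≡ 1 [MOD ℓ ^ 2] := by
    unfold Nat.ModEq
    rw [hc, Nat.mod_eq_of_lt h1lt]
  have hc2 : j' * c ≡ 1 [MOD ℓ] := by
    have a1 : j * c ≡ 1 [MOD ℓ] := hc1.of_dvd (dvd_pow_self ℓ (by norm_num))
    exact (hjj.symm.mul_right c).trans a1
  have hpos : 1 ≤ j' * c := by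
    rcases Nat.eq_zero_or_pos (j' * c) with h0 | h0
    · rw [h0] at hc2
      have := hc2.symm
      have h3 : ℓ ∣ 1 := (Nat.modEq_zero_iff_dvd).1 this
      exact absurd (Nat.dvd_one.1 h3) hp.one_lt.ne'
    · exact h0
  obtain ⟨i, hi⟩ : ∃ i, j' * c = 1 + ℓ * i := by
    have : ℓ ∣ j' * c - 1 := (Nat.modEq_iff_dvd' hpos).1 hc2.symm
    obtain ⟨i, hi⟩ := this
    exact ⟨i, by omega⟩
  have hyw : Commute y w := hab y hC.yV w hC.wV
  -- the conjugate of a power of `w`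
  have hwV : t * w ^ (k * c) * t⁻¹ ∈ V := by
    have := (Subgroup.mem_normalizer_iff.1 hN (w ^ (k * c))).1 (V.pow_mem hC.wV _)
    exact this
  have hu : (y ^ j * w ^ (ℓ * k)) ^ c = y * (w ^ (k * c)) ^ ℓ := by
    rw [(hyw.pow_pow j (ℓ * k)).mul_pow, ← pow_mul, ← pow_mul, ← pow_mul,
      pow_modEq hC.oy hc1, pow_one]
    congr 2
    ring
  have hu' : (y ^ j' * w ^ (ℓ * k')) ^ c = y * (y ^ i) ^ ℓ * (w ^ (k' * c)) ^ ℓ := by
    rw [(hyw.pow_pow j' (ℓ * k')).mul_pow, ← pow_mul, ← pow_mul, ← pow_mul, ← pow_mul, hi, pow_add,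
      pow_one]
    congr 2
    · congr 1
      ring
    · ring
  have key : t * (y * (w ^ (k * c)) ^ ℓ) * t⁻¹ = y * (y ^ i) ^ ℓ * (w ^ (k' * c)) ^ ℓ := by
    rw [← hu, ← hu', ← he]
    exact (conj_pow).symm
  have key2 : t * y * t⁻¹ = y * ((y ^ i) * (w ^ (k' * c)) * (t * w ^ (k * c) * t⁻¹)⁻¹) ^ ℓ := by
    have e1 : t * (y * (w ^ (k * c)) ^ ℓ) * t⁻¹ = (t * y * t⁻¹) * (t * w ^ (k * c) * t⁻¹) ^ ℓ := by
      rw [conj_pow]
      group
    rw [e1] at key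
    have c1 : Commute ((y ^ i) * (w ^ (k' * c))) (t * w ^ (k * c) * t⁻¹)⁻¹ :=
      hab _ (V.mul_mem (V.pow_mem hC.yV _) (V.pow_mem hC.wV _)) _ (V.inv_mem hwV)
    have c2 : Commute (y ^ i) (w ^ (k' * c)) := hyw.pow_pow _ _
    rw [c1.mul_pow, c2.mul_pow, inv_pow, ← mul_assoc, ← mul_assoc, ← key]
    group
  have hty : t * y = y * t := hC.stb t ht _
    (V.mul_mem (V.mul_mem (V.pow_mem hC.yV _) (V.pow_mem hC.wV _)) (V.inv_mem hwV)) key2
  obtain ⟨μ, hμ⟩ := hC.act t ht hty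
  have e2 : t * (y ^ j * w ^ (ℓ * k)) * t⁻¹ = y ^ j * w ^ (μ * (ℓ * k)) := by
    have a1 : t * y ^ j * t⁻¹ = y ^ j := by
      have : Commute t (y ^ j) := Commute.pow_right hty j
      rw [this.eq]
      group
    have a2 : t * w ^ (ℓ * k) * t⁻¹ = w ^ (μ * (ℓ * k)) := by
      rw [← conj_pow, hμ, ← pow_mul]
    calc t * (y ^ j * w ^ (ℓ * k)) * t⁻¹ = (t * y ^ j * t⁻¹) * (t * w ^ (ℓ * k) * t⁻¹) := by group
      _ = _ := by rw [a1, a2]
  rw [e2] at he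
  obtain ⟨h1, h2⟩ := hC.uni _ _ _ _ he
  refine ⟨hty, h1, ?_, ?_⟩
  · intro hk
    have a1 : ℓ ^ 2 ∣ μ * (ℓ * k) := by
      obtain ⟨q, rfl⟩ := hk
      exact ⟨μ * q, by ring⟩
    have a2 : ℓ ^ 2 ∣ ℓ * k' := ((Nat.ModEq.dvd_iff h2 (dvd_refl _)).1 a1)
    rw [pow_two] at a2
    exact Nat.dvd_of_mul_dvd_mul_left hp.pos a2
  · intro hk
    have a1 : ℓ ^ 2 ∣ ℓ * k' := by
      obtain ⟨q, rfl⟩ := hk
      exact ⟨q, by ring⟩
    have a2 : ℓ ^ 2 ∣ μ * (ℓ * k) := ((Nat.ModEq.dvd_iff h2 (dvd_refl _)).2 a1)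
    have a3 : t * w ^ (ℓ * k) * t⁻¹ = 1 := by
      rw [← conj_pow, hμ, ← pow_mul]
      rw [← hC.ow] at a2
      exact orderOf_dvd_iff_pow_eq_one.1 a2
    have a4 : w ^ (ℓ * k) = 1 := by
      have : w ^ (ℓ * k) = t⁻¹ * (t * w ^ (ℓ * k) * t⁻¹) * t := by group
      rw [this, a3]
      group
    have a5 : ℓ ^ 2 ∣ ℓ * k := by
      rw [← hC.ow]
      exact orderOf_dvd_iff_pow_eq_one.2 a4
    rw [pow_two] at a5
    exact Nat.dvd_of_mul_dvd_mul_left hp.pos a5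

theorem part1 {ℓ : ℕ} [Fact ℓ.Prime] {F : Type} [Field F] {G : Type} [Group G] {V : Subgroup G}
    {γ : G → F} (hab : ∀ a ∈ V, ∀ b ∈ V, a * b = b * a) {y w : G} {m : ℕ}
    (hC : Cs ℓ V γ y w m) (j k : ℕ) (hj : ¬ ℓ ∣ j) (hk : ¬ ℓ ∣ k) :
    Rg V γ (y ^ j * w ^ (ℓ * k)) := by
  have hp : ℓ.Prime := Fact.out
  refine ⟨V.mul_mem (V.pow_mem hC.yV _) (V.pow_mem hC.wV _), ?_, ?_⟩
  · intro h
    have := (hC.uni j 0 (ℓ * k) 0 (by rw [h]; simp)).1
    have h2 : ℓ ^ 2 ∣ j := (Nat.modEq_zero_iff_dvd).1 this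
    exact hj ((dvd_pow_self ℓ (by norm_num)).trans h2)
  · rintro t ⟨ht, htu⟩
    have hcomm : (y ^ j * w ^ (ℓ * k)) * t = t * (y ^ j * w ^ (ℓ * k)) :=
      Subgroup.mem_centralizer_iff.1 htu _ rfl
    have he : t * (y ^ j * w ^ (ℓ * k)) * t⁻¹ = y ^ j * w ^ (ℓ * k) := by
      rw [← hcomm]
      group
    have hty := (part2 hab hC j j k k hj rfl t ht he).1
    refine hC.fre t ht hty (ℓ * k) ?_ ?_
    · intro h
      rw [pow_two] at h
      exact hk (Nat.dvd_of_mul_dvd_mul_left hp.pos h)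
    · have a1 : t * y ^ j = y ^ j * t := (Commute.pow_right (show Commute t y from hty) j).eq
      have a2 : y ^ j * (t * w ^ (ℓ * k)) = y ^ j * (w ^ (ℓ * k) * t) := by
        rw [← mul_assoc, ← a1, mul_assoc, ← mul_assoc (y ^ j), hcomm]
      exact mul_left_cancel a2

theorem part3 {ℓ : ℕ} [Fact ℓ.Prime] {F : Type} [Field F] {G : Type} [Group G] {V : Subgroup G}
    {γ : G → F} (hab : ∀ a ∈ V, ∀ b ∈ V, a * b = b * a) {y w : G} {m : ℕ}
    (hC : Cs ℓ V γ y w m) (j k : ℕ) (hj : ¬ ℓ ∣ j) (hk : ¬ ℓ ∣ k) :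
    {k' : ℕ | 1 ≤ k' ∧ k' < ℓ ∧ ∃ t ∈ Tg V γ,
      t * (y ^ j * w ^ (ℓ * k)) * t⁻¹ = y ^ j * w ^ (ℓ * k')}.ncard = m := by
  classical
  have hp : ℓ.Prime := Fact.out
  set u : G := y ^ j * w ^ (ℓ * k) with hu
  have huV : u ∈ V := V.mul_mem (V.pow_mem hC.yV _) (V.pow_mem hC.wV _)
  have hreg := part1 hab hC j k hj hk
  set S : Set ℕ := {k' : ℕ | 1 ≤ k' ∧ k' < ℓ ∧ ∃ t ∈ Tg V γ,
      t * u * t⁻¹ = y ^ j * w ^ (ℓ * k')} with hS
  set H : Subgroup G := Tg V γ ⊓ Cu y with hH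
  set K : Subgroup G := Subgroup.centralizer (V : Set G) with hK
  have hmemCu : ∀ t : G, t ∈ Cu y ↔ t * y = y * t := by
    intro t
    rw [Subgroup.mem_centralizer_iff]
    constructor
    · intro h
      exact (h y rfl).symm
    · intro h z hz
      rw [Set.mem_singleton_iff] at hz
      subst hz
      exact h.symm
  have hex : ∀ t : H, ∃ k' : ℕ, 1 ≤ k' ∧ k' < ℓ ∧ (t : G) * u * (t : G)⁻¹ = y ^ j * w ^ (ℓ * k') := by
    rintro ⟨t, ht, hty'⟩
    have hty : t * y = y * t := (hmemCu t).1 hty'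
    obtain ⟨μ, hμ⟩ := hC.act t ht hty
    have a1 : t * y ^ j * t⁻¹ = y ^ j := by
      have : Commute t (y ^ j) := Commute.pow_right hty j
      rw [this.eq]
      group
    have a2 : t * w ^ (ℓ * k) * t⁻¹ = w ^ (ℓ * (μ * k)) := by
      rw [← conj_pow, hμ, ← pow_mul]
      congr 1
      ring
    have a3 : w ^ (ℓ * (μ * k)) = w ^ (ℓ * ((μ * k) % ℓ)) := by
      refine pow_modEq hC.ow ?_
      rw [pow_two]
      exact (Nat.ModEq.mul_left' ℓ (Nat.mod_modEq _ _).symm)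
    have a4 : t * u * t⁻¹ = y ^ j * w ^ (ℓ * ((μ * k) % ℓ)) := by
      calc t * u * t⁻¹ = (t * y ^ j * t⁻¹) * (t * w ^ (ℓ * k) * t⁻¹) := by rw [hu]; group
        _ = _ := by rw [a1, a2, a3]
    refine ⟨(μ * k) % ℓ, ?_, Nat.mod_lt _ hp.pos, a4⟩
    rcases Nat.eq_zero_or_pos ((μ * k) % ℓ) with h0 | h0
    · exfalso
      have := (part2 hab hC j j k ((μ * k) % ℓ) hj rfl t ht a4).2.2.2 (by rw [h0]; exact dvd_zero _)
      exact hk this
    · exact h0
  choose κ hκ1 hκ2 hκ3 using hex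
  have hcard : Nat.card (H ⧸ K.subgroupOf H) = m := hC.ind
  let f : (H ⧸ K.subgroupOf H) → S := fun q =>
    ⟨κ q.out, hκ1 _, hκ2 _, (q.out : G), q.out.2.1, hκ3 _⟩
  have hfb : Function.Bijective f := by
    constructor
    · intro q q' hqq
      have e1 : κ q.out = κ q'.out := congrArg Subtype.val hqq
      have e2 : (q.out : G) * u * (q.out : G)⁻¹ = (q'.out : G) * u * (q'.out : G)⁻¹ := by
        rw [hκ3, hκ3, e1]
      have e3 : (q.out : G)⁻¹ * (q'.out : G) ∈ K := by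
        refine hreg.2.2 ⟨?_, ?_⟩
        · exact (Tg V γ).mul_mem ((Tg V γ).inv_mem q.out.2.1) q'.out.2.1
        · refine Subgroup.mem_centralizer_iff.2 ?_
          intro z hz
          have hz' : z = u := hz
          subst hz'
          have e4 : u = (q.out : G)⁻¹ * ((q.out : G) * u * (q.out : G)⁻¹) * (q.out : G) := by group
          calc u * ((q.out : G)⁻¹ * (q'.out : G))
              = (q.out : G)⁻¹ * ((q.out : G) * u * (q.out : G)⁻¹) * (q'.out : G) := by group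
            _ = (q.out : G)⁻¹ * ((q'.out : G) * u * (q'.out : G)⁻¹) * (q'.out : G) := by rw [e2]
            _ = ((q.out : G)⁻¹ * (q'.out : G)) * u := by group
      rw [← QuotientGroup.out_eq' q, ← QuotientGroup.out_eq' q']
      rw [QuotientGroup.eq]
      exact e3
    · rintro ⟨k', h1, h2, t, ht, hte⟩
      have hty := (part2 hab hC j j k k' hj rfl t ht hte).1
      let tH : H := ⟨t, ht, (hmemCu t).2 hty⟩
      refine ⟨(tH : H ⧸ K.subgroupOf H), ?_⟩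
      apply Subtype.ext
      show κ (Quotient.out (tH : H ⧸ K.subgroupOf H)) = k'
      obtain ⟨c, hc⟩ := QuotientGroup.mk_out_eq_mul (K.subgroupOf H) tH
      have hcK : ((c : H) : G) ∈ K := c.2
      have e1 := hκ3 (Quotient.out (tH : H ⧸ K.subgroupOf H))
      rw [hc] at e1
      have e5 : ((tH * (c : H) : H) : G) = t * ((c : H) : G) := rfl
      rw [e5] at e1
      have e6 : u * ((c : H) : G) = ((c : H) : G) * u := Subgroup.mem_centralizer_iff.1 hcK u huV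
      have e7 : t * ((c : H) : G) * u * (t * ((c : H) : G))⁻¹ = t * u * t⁻¹ := by
        rw [mul_assoc t, ← e6]
        group
      rw [e7, hte] at e1
      have e8 := (hC.uni _ _ _ _ e1).2
      rw [pow_two] at e8
      have e9 : k' ≡ κ (tH * (c : H)) [MOD ℓ] := Nat.ModEq.mul_left_cancel' hp.pos.ne' e8
      rw [hc]
      have e10 := hκ2 (tH * (c : H))
      unfold Nat.ModEq at e9
      rw [Nat.mod_eq_of_lt h2, Nat.mod_eq_of_lt e10] at e9
      exact e9.symm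
  have := Nat.card_congr (Equiv.ofBijective f hfb)
  rw [hcard] at this
  rw [this]
  rfl

theorem crg : CrgStmt := by
  intro ℓ _ F _ _ _ G _ _ e V γ hL y w m hC
  refine ⟨fun j k hj hk => part1 hL.ab hC j k hj hk, ?_, fun j k hj hk => part3 hL.ab hC j k hj hk⟩
  intro j j' k k' hj hjj t ht he
  exact part2 hL.ab hC j j' k k' hj hjj t ht he

end Pool.Agent.PP.T12.H67
end
end -- Pool.Agent.Helper67_AT12.CRG

section -- Pool.Agent.Helper76_AT12.GAL

/-!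
# AT12, row GAL: the Galois conjugates
-/

open scoped BigOperators

set_option autoImplicit false

noncomputable section

namespace Pool.Agent.PP.T12.H76

open Pool.Agent.Helper51_AWC Pool.Agent.Helper79_WRA Pool.Agent.PP Pool.Agent.PP.KF
open Pool.Agent.PP.K9 Pool.Agent.PP.K9.H97 Pool.Agent.PP.H75 Pool.Agent.PP.T3 Pool.Agent.PP.T2
open Pool.Agent.PP.T8

attribute [local instance] Ideal.Quotient.field

section pz

/-- polynomial values at the powers of `ζ` -/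
def PZ (q : ℕ) (ζ : ℂ) (v : ℕ → ℂ) : Prop :=
  ∃ n : ℕ → ℤ, ∀ j : ℕ, v j = ∑ i ∈ Finset.range q, (n i : ℂ) * ζ ^ (i * j)

theorem PZ.zero {q : ℕ} {ζ : ℂ} : PZ q ζ (fun _ => 0) := ⟨fun _ => 0, fun j => by simp⟩

theorem PZ.add {q : ℕ} {ζ : ℂ} {v w : ℕ → ℂ} (hv : PZ q ζ v) (hw : PZ q ζ w) :
    PZ q ζ (fun j => v j + w j) := by
  obtain ⟨n, hn⟩ := hv
  obtain ⟨m, hm⟩ := hw
  refine ⟨fun i => n i + m i, fun j => ?_⟩
  show v j + w j = _
  rw [hn, hm, ← Finset.sum_add_distrib]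
  exact Finset.sum_congr rfl fun i _ => by push_cast; ring

theorem PZ.zmul {q : ℕ} {ζ : ℂ} {v : ℕ → ℂ} (c : ℤ) (hv : PZ q ζ v) :
    PZ q ζ (fun j => c * v j) := by
  obtain ⟨n, hn⟩ := hv
  refine ⟨fun i => c * n i, fun j => ?_⟩
  show (c : ℂ) * v j = _
  rw [hn, Finset.mul_sum]
  exact Finset.sum_congr rfl fun i _ => by push_cast; ring

theorem PZ.sub {q : ℕ} {ζ : ℂ} {v w : ℕ → ℂ} (hv : PZ q ζ v) (hw : PZ q ζ w) :
    PZ q ζ (fun j => v j - w j) := by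
  have h := hv.add (PZ.zmul (-1) hw)
  obtain ⟨n, hn⟩ := h
  refine ⟨n, fun j => ?_⟩
  rw [← hn j]
  push_cast
  ring

theorem PZ.sum {q : ℕ} {ζ : ℂ} {ι : Type} (s : Finset ι) {v : ι → ℕ → ℂ}
    (hv : ∀ i ∈ s, PZ q ζ (v i)) : PZ q ζ (fun j => ∑ i ∈ s, v i j) := by
  classical
  induction s using Finset.induction_on with
  | empty => simpa using PZ.zero
  | insert a s ha ih =>
    have h := (hv a (Finset.mem_insert_self a s)).add
      (ih fun i hi => hv i (Finset.mem_insert_of_mem hi))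
    obtain ⟨n, hn⟩ := h
    refine ⟨n, fun j => ?_⟩
    rw [← hn j]
    exact Finset.sum_insert ha

/-- a polynomial which vanishes at `ζ` vanishes at the conjugates -/
theorem PZ.conj {q : ℕ} {ζ : ℂ} (hζ : IsPrimitiveRoot ζ q) (hq : 0 < q) {v : ℕ → ℂ}
    (hv : PZ q ζ v) (h1 : v 1 = 0) {j : ℕ} (hj : j.Coprime q) : v j = 0 := by
  obtain ⟨n, hn⟩ := hv
  obtain ⟨P, hP⟩ : ∃ P : Polynomial ℤ, P = ∑ i ∈ Finset.range q,
    Polynomial.C (n i) * Polynomial.X ^ i := ⟨_, rfl⟩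
  have hev : ∀ z : ℂ, Polynomial.aeval z P = ∑ i ∈ Finset.range q, (n i : ℂ) * z ^ i := by
    intro z
    rw [hP, map_sum]
    exact Finset.sum_congr rfl fun i _ => by simp
  have hj1 : ∀ j, v j = Polynomial.aeval (ζ ^ j) P := by
    intro j
    rw [hn, hev]
    exact Finset.sum_congr rfl fun i _ => by rw [mul_comm i j, pow_mul]
  have hint : IsIntegral ℤ ζ := hζ.isIntegral hq
  have h2 : Polynomial.aeval ζ P = 0 := by
    have := hj1 1
    rw [pow_one, h1] at this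
    exact this.symm
  have h3 : minpoly ℤ ζ ∣ P := minpoly.isIntegrallyClosed_dvd hint h2
  rw [hζ.minpoly_eq_pow_coprime hj] at h3
  rw [hj1]
  obtain ⟨Q, hQ⟩ := h3
  rw [hQ, map_mul, minpoly.aeval, zero_mul]

end pz

section arith

/-- reindexing the nonzero residues -/
theorem sum_reindex {ℓ : ℕ} (hℓ : ℓ.Prime) {j : ℕ} (hj : ¬ ℓ ∣ j) (F : ℕ → ℂ)
    (hF : ∀ k, F (k % ℓ) = F k) :
    ∑ k ∈ Finset.Ico 1 ℓ, F k = ∑ k ∈ Finset.Ico 1 ℓ, F (j * k) := by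
  classical
  have hcop : Nat.Coprime ℓ j := (Nat.Prime.coprime_iff_not_dvd hℓ).2 hj
  have hmaps : ∀ k ∈ Finset.Ico 1 ℓ, (j * k) % ℓ ∈ Finset.Ico 1 ℓ := by
    intro k hk
    rw [Finset.mem_Ico] at hk ⊢
    refine ⟨?_, Nat.mod_lt _ hℓ.pos⟩
    rw [Nat.one_le_iff_ne_zero]
    intro h0
    have h1 : ℓ ∣ j * k := Nat.dvd_of_mod_eq_zero h0
    have h2 : ℓ ∣ k := hcop.dvd_of_dvd_mul_left h1
    exact absurd (Nat.le_of_dvd (by omega) h2) (by omega)
  have hinj : Set.InjOn (fun k => (j * k) % ℓ) (Finset.Ico 1 ℓ : Finset ℕ) := by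
    intro a ha b hb hab
    rw [Finset.coe_Ico, Set.mem_Ico] at ha hb
    have h1 : j * a ≡ j * b [MOD ℓ] := hab
    have h2 : a ≡ b [MOD ℓ] := Nat.ModEq.cancel_left_of_coprime hcop h1
    exact Nat.ModEq.eq_of_lt_of_lt h2 ha.2 hb.2
  have himg : (Finset.Ico 1 ℓ).image (fun k => (j * k) % ℓ) = Finset.Ico 1 ℓ := by
    refine Finset.eq_of_subset_of_card_le (Finset.image_subset_iff.2 hmaps) ?_
    rw [Finset.card_image_of_injOn hinj]
  calc ∑ k ∈ Finset.Ico 1 ℓ, F k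
      = ∑ k ∈ (Finset.Ico 1 ℓ).image (fun k => (j * k) % ℓ), F k := by rw [himg]
    _ = ∑ k ∈ Finset.Ico 1 ℓ, F ((j * k) % ℓ) := Finset.sum_image hinj
    _ = ∑ k ∈ Finset.Ico 1 ℓ, F (j * k) := Finset.sum_congr rfl fun k _ => hF _

end arith

section grp

variable {G : Type} [Group G]

theorem cu_pow {u : G} {q j : ℕ} (hu : u ^ q = 1) (hj : j.Coprime q) (hq : 1 < q) :
    Cu (u ^ j) = Cu u := by
  obtain ⟨c, -, hc⟩ := Nat.exists_mul_mod_eq_one_of_coprime hj hq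
  have hu1 : (u ^ j) ^ c = u := by
    rw [← pow_mul, ← Nat.div_add_mod (j * c) q, pow_add, pow_mul, hu, one_pow, one_mul, hc,
      pow_one]
  refine le_antisymm ?_ ?_
  · intro x hx
    rw [Subgroup.mem_centralizer_singleton_iff] at hx ⊢
    have h1 : Commute x (u ^ j) := hx
    have h2 := h1.pow_right c
    rw [hu1] at h2
    exact h2
  · intro x hx
    rw [Subgroup.mem_centralizer_singleton_iff] at hx ⊢
    have h1 : Commute x u := hx
    exact h1.pow_right j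

end grp

section main

theorem gal (hC : CrgStmt) (hI : C2.Int2Stmt) (hR : InrStmt) (hD : DpwStmt) : GalStmt := by
  classical
  intro ℓ _ M _ hℓM G H _ _ _ _ N e V γ b d c ε y w β π m K g θ hSg ζ hζ χ hχ
  have hℓ : ℓ.Prime := Fact.out
  have hF : GoodF ℓ (FF M) := H50.fld ℓ hℓ M hℓM
  have hq : 1 < ℓ ^ 2 := Nat.one_lt_pow (by norm_num) hℓ.one_lt
  have hq0 : 0 < ℓ ^ 2 := by omega
  obtain ⟨crg1, crg2, crg3⟩ := hC ℓ (FF M) hF hSg.odd G e V γ hSg.dat.ld y w m hSg.cs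
  obtain ⟨dp1, dp2, -⟩ := hD ℓ M hℓM hSg.odd G e V γ b d c ε hSg.dat
  have hyw : Commute y w := hSg.dat.ld.ab y hSg.cs.yV w hSg.cs.wV
  have hyq : y ^ ℓ ^ 2 = 1 := by
    rw [← hSg.cs.oy]
    exact pow_orderOf_eq_one y
  have hwq : w ^ ℓ ^ 2 = 1 := by
    rw [← hSg.cs.ow]
    exact pow_orderOf_eq_one w
  have h1n : ¬ ℓ ∣ 1 := fun h => hℓ.one_lt.ne' (Nat.dvd_one.1 h)
  have hcop : ∀ j, ¬ ℓ ∣ j → j.Coprime (ℓ ^ 2) := fun j hj =>
    ((Nat.Prime.coprime_iff_not_dvd hℓ).2 hj).symm.pow_right 2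
  obtain ⟨u, hu⟩ : ∃ u : ℕ → G, u = fun k => y * w ^ (ℓ * k) := ⟨_, rfl⟩
  have huk : ∀ k, u k = y * w ^ (ℓ * k) := fun k => by rw [hu]
  have huj : ∀ k j, u k ^ j = y ^ j * w ^ (ℓ * (j * k)) := by
    intro k j
    rw [huk, (hyw.pow_right (ℓ * k)).mul_pow, ← pow_mul]
    congr 2
    ring
  have huq : ∀ k, u k ^ ℓ ^ 2 = 1 := by
    intro k
    rw [huj, hyq, one_mul]
    have : ℓ * (ℓ ^ 2 * k) = ℓ ^ 2 * (ℓ * k) := by ring
    rw [this, pow_mul, hwq, one_pow]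
  have hreg : ∀ k, ¬ ℓ ∣ k → Rg V γ (u k) := by
    intro k hk
    have := crg1 1 k h1n hk
    rwa [pow_one, ← huk] at this
  obtain ⟨W, hWd⟩ : ∃ W : ℕ → ℕ → ℂ, W = fun k j =>
    (ε (u k) : ℂ) * (gv M (Cu (u k)) (u k ^ j) (b (u k)) χ / d (u k)) := ⟨_, rfl⟩
  have hW : ∀ k, ¬ ℓ ∣ k → PZ (ℓ ^ 2) ζ (W k) := by
    intro k hk
    have hr := hreg k hk
    have hlc := hSg.dat.lc (u k) hr
    obtain ⟨n, hn⟩ := hR M G (u k) (ℓ ^ 2) hq0 (huq k) (b (u k))
      ⟨hlc.blk.supp, hlc.blk.blk.1⟩ (d (u k)) (hSg.dat.dg (u k) hr) ζ hζ χ hχ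
    have hd : (d (u k) : ℂ) ≠ 0 := Nat.cast_ne_zero.2 (hSg.dat.dg (u k) hr).1.ne'
    have h1 : PZ (ℓ ^ 2) ζ (fun j => gv M (Cu (u k)) (u k ^ j) (b (u k)) χ / d (u k)) := by
      refine ⟨n, fun j => ?_⟩
      show gv M (Cu (u k)) (u k ^ j) (b (u k)) χ / d (u k) = _
      rw [hn, mul_div_cancel_left₀ _ hd]
    have h2 := PZ.zmul (ε (u k)) h1
    rw [hWd]
    exact h2
  have hWv : ∀ k j, ¬ ℓ ∣ k → ¬ ℓ ∣ j →
      (ε (u k ^ j) : ℂ) * vv M b d (u k ^ j) χ = W k j := by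
    intro k j hk hj
    obtain ⟨-, e1, e2, e3⟩ := dp2 (u k) (hreg k hk) j hj
    rw [hWd]
    show _ = (ε (u k) : ℂ) * (gv M (Cu (u k)) (u k ^ j) (b (u k)) χ / d (u k))
    rw [vv, e1, e2, e3, cu_pow (huq k) (hcop j hj) hq]
  have hvk : ∀ k j, ¬ ℓ ∣ k → ¬ ℓ ∣ j → vk M ℓ b d ε y w j (j * k) χ = W k j := by
    intro k j hk hj
    rw [← hWv k j hk hj, vk, huj]
  have hper : ∀ j k, vk M ℓ b d ε y w j (k % ℓ) χ = vk M ℓ b d ε y w j k χ := by
    intro j k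
    have h1 : w ^ (ℓ * (k % ℓ)) = w ^ (ℓ * k) := by
      conv_rhs => rw [← Nat.mod_add_div k ℓ]
      have : ℓ * (k % ℓ + ℓ * (k / ℓ)) = ℓ * (k % ℓ) + ℓ ^ 2 * (k / ℓ) := by ring
      rw [this, pow_add, pow_mul w (ℓ ^ 2), hwq, one_pow, mul_one]
    rw [vk, vk, h1]
  have hIco : ∀ k ∈ Finset.Ico 1 ℓ, ¬ ℓ ∣ k := by
    intro k hk hd
    rw [Finset.mem_Ico] at hk
    exact absurd (Nat.le_of_dvd (by omega) hd) (by omega)
  have hsum : ∀ j, ¬ ℓ ∣ j → ∑ k ∈ Finset.Ico 1 ℓ, vk M ℓ b d ε y w j k χ =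
      ∑ k ∈ Finset.Ico 1 ℓ, W k j := by
    intro j hj
    rw [sum_reindex hℓ hj (fun k => vk M ℓ b d ε y w j k χ) (hper j)]
    exact Finset.sum_congr rfl fun k hk => hvk k j (hIco k hk) hj
  -- the numbers of the singular part
  have hAv : ∀ s : Fin m, PZ (ℓ ^ 2) ζ (fun j => Av ℓ π (y ^ j) (g s) χ) := fun s =>
    hI ℓ 2 G H y π hSg.sy.qn (g s) (H11.ze_zi M _ (hSg.sy.cd.ze s)) (hSg.sy.cd.rc s) χ hχ ζ hζ
  have hbq : PZ (ℓ ^ 2) ζ (fun j => bq ℓ π g (y ^ j) χ) :=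
    PZ.sum Finset.univ fun s _ => hAv s
  have hℓ0 : (ℓ : ℂ) ≠ 0 := Nat.cast_ne_zero.2 hℓ.pos.ne'
  have haa : ∀ j, ¬ ℓ ∣ j → ℓ * aa M ℓ b d ε y w π g θ j χ =
      (θ : ℂ) * bq ℓ π g (y ^ j) χ + ∑ k ∈ Finset.Ico 1 ℓ, W k j := by
    intro j hj
    rw [aa, ← mul_assoc, mul_inv_cancel₀ hℓ0, one_mul, hsum j hj]
  refine ⟨fun s s' => (hAv s).sub (hAv s'), ?_, ?_, ?_⟩
  · obtain ⟨n, hn⟩ := (PZ.zmul θ hbq).add (PZ.sum (Finset.Ico 1 ℓ) fun k hk => hW k (hIco k hk))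
    exact ⟨n, fun j hj => (haa j hj).trans (hn j)⟩
  · intro heq
    have hm : 0 < m := lt_of_lt_of_le (by norm_num) hSg.cs.two
    obtain ⟨s₀, -⟩ : ∃ s : Fin m, True := ⟨⟨0, hm⟩, trivial⟩
    have hconst : ∀ j, ¬ ℓ ∣ j → ∀ s, Av ℓ π (y ^ j) (g s) χ = Av ℓ π (y ^ j) (g s₀) χ := by
      intro j hj s
      have h1 := PZ.conj hζ hq0 ((hAv s).sub (hAv s₀)) (by
        show Av ℓ π (y ^ 1) (g s) χ - Av ℓ π (y ^ 1) (g s₀) χ = 0
        rw [pow_one, heq s s₀, sub_self]) (hcop j hj)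
      exact sub_eq_zero.1 h1
    have hbq2 : ∀ j, ¬ ℓ ∣ j → bq ℓ π g (y ^ j) χ = m * Av ℓ π (y ^ j) (g s₀) χ := by
      intro j hj
      rw [bq, Finset.sum_congr rfl fun s _ => hconst j hj s, Finset.sum_const, Finset.card_univ,
        Fintype.card_fin, nsmul_eq_mul]
    -- the classes
    obtain ⟨R, hRd⟩ : ∃ R : ℕ → ℕ → Prop, R = fun k k' => ∃ t ∈ Tg V γ,
      t * u k * t⁻¹ = u k' := ⟨_, rfl⟩
    have hRk : ∀ k k', R k k' ↔ ∃ t ∈ Tg V γ, t * u k * t⁻¹ = u k' := fun k k' => by rw [hRd]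
    have hRe : Equivalence R := by
      refine ⟨fun k => (hRk k k).2 ⟨1, one_mem _, by simp⟩, fun {k k'} h => ?_,
        fun {k k' k''} h h' => ?_⟩
      · obtain ⟨t, ht, h1⟩ := (hRk _ _).1 h
        refine (hRk _ _).2 ⟨t⁻¹, inv_mem ht, ?_⟩
        rw [← h1]
        group
      · obtain ⟨t, ht, h1⟩ := (hRk _ _).1 h
        obtain ⟨t', ht', h2⟩ := (hRk _ _).1 h'
        refine (hRk _ _).2 ⟨t' * t, mul_mem ht' ht, ?_⟩
        rw [← h2, ← h1]
        group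
    obtain ⟨st, hst⟩ : ∃ st : Setoid ℕ, st = ⟨R, hRe⟩ := ⟨_, rfl⟩
    have hmk : ∀ k k', (Quotient.mk st k = Quotient.mk st k') ↔ R k k' := by
      intro k k'
      subst hst
      exact Quotient.eq
    have hRdvd : ∀ k k', R k k' → (ℓ ∣ k ↔ ℓ ∣ k') := by
      intro k k' h
      obtain ⟨t, ht, h1⟩ := (hRk _ _).1 h
      have h2 := crg2 1 1 k k' h1n (Nat.ModEq.refl _) t ht
      rw [pow_one, ← huk, ← huk] at h2
      exact (h2 h1).2.2
    have hRW : ∀ k k', R k k' → ¬ ℓ ∣ k → ∀ j, ¬ ℓ ∣ j → W k j = W k' j := by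
      intro k k' h hk j hj
      obtain ⟨t, ht, h1⟩ := (hRk _ _).1 h
      have hk' : ¬ ℓ ∣ k' := fun h' => hk ((hRdvd k k' h).2 h')
      have h2 : u k' ^ j = t * u k ^ j * t⁻¹ := by
        rw [← h1, conj_pow]
      obtain ⟨-, e1, e2⟩ := dp1 t ht (u k ^ j) (dp2 (u k) (hreg k hk) j hj).1
      rw [← hWv k j hk hj, ← hWv k' j hk' hj, h2, e1, e2 χ hχ]
    have hout : ∀ k, R (Quotient.mk st k).out k := by
      intro k
      rw [← hmk, Quotient.out_eq]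
    have hcard : ∀ a ∈ (Finset.Ico 1 ℓ).image (Quotient.mk st),
        ((Finset.Ico 1 ℓ).filter (fun k => Quotient.mk st k = a)).card = m := by
      intro a ha
      obtain ⟨k₀, hk₀, rfl⟩ := Finset.mem_image.1 ha
      have h1 := crg3 1 k₀ h1n (hIco k₀ hk₀)
      rw [← h1, ← Set.ncard_coe_finset]
      congr 1
      ext k
      rw [Finset.mem_coe, Finset.mem_filter, Finset.mem_Ico, hmk, Set.mem_ofPred_eq]
      constructor
      · rintro ⟨⟨h2, h3⟩, h4⟩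
        obtain ⟨t, ht, h5⟩ := (hRk _ _).1 (hRe.symm h4)
        refine ⟨h2, h3, t, ht, ?_⟩
        rw [pow_one, ← huk, ← huk]
        exact h5
      · rintro ⟨h2, h3, t, ht, h5⟩
        rw [pow_one, ← huk, ← huk] at h5
        exact ⟨⟨h2, h3⟩, hRe.symm ((hRk _ _).2 ⟨t, ht, h5⟩)⟩
    have hsum2 : ∀ j, ¬ ℓ ∣ j → ∑ k ∈ Finset.Ico 1 ℓ, W k j =
        m * ∑ a ∈ (Finset.Ico 1 ℓ).image (Quotient.mk st), W a.out j := by
      intro j hj
      have h1 : ∀ k ∈ Finset.Ico 1 ℓ, W k j = (fun a : Quotient st => W a.out j)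
          (Quotient.mk st k) := by
        intro k hk
        have hk' : ¬ ℓ ∣ (Quotient.mk st k).out := fun h =>
          hIco k hk ((hRdvd _ _ (hout k)).1 h)
        exact (hRW _ _ (hout k) hk' j hj).symm
      rw [Finset.sum_congr rfl h1, Finset.sum_comp (fun a : Quotient st => W a.out j)
        (Quotient.mk st), Finset.mul_sum]
      exact Finset.sum_congr rfl fun a ha => by rw [hcard a ha, nsmul_eq_mul]
    have hPZ : PZ (ℓ ^ 2) ζ (fun j => ∑ a ∈ (Finset.Ico 1 ℓ).image (Quotient.mk st),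
        W a.out j) := by
      refine PZ.sum _ fun a ha => hW _ ?_
      obtain ⟨k₀, hk₀, rfl⟩ := Finset.mem_image.1 ha
      exact fun h => hIco k₀ hk₀ ((hRdvd _ _ (hout k₀)).1 h)
    obtain ⟨n, hn⟩ := (PZ.zmul θ (hAv s₀)).add hPZ
    refine ⟨n, fun j hj => ?_⟩
    rw [haa j hj, hbq2 j hj, hsum2 j hj, ← hn j]
    ring
  · obtain ⟨n, hn⟩ := hW 1 h1n
    refine ⟨n, fun j hj => ?_⟩
    rw [← hn j, ← hvk 1 j h1n hj, mul_one]

end main

end Pool.Agent.PP.T12.H76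
end
end -- Pool.Agent.Helper76_AT12.GAL

section -- Pool.Agent.Helper86_AT12.BSF

/-!
# Squad AT12, row BSF: Bessel's inequality for orthogonal vectors which agree on a set
-/

open scoped BigOperators

set_option autoImplicit false

noncomputable section

namespace Pool.Agent.PP.T12.H86

open Pool.Agent.Helper51_AWC Pool.Agent.Helper79_WRA Pool.Agent.PP Pool.Agent.PP.KF
open Pool.Agent.PP.K9 Pool.Agent.PP.K9.H97 Pool.Agent.PP.H75 Pool.Agent.PP.T3 Pool.Agent.PP.T2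
open Pool.Agent.PP.T8 Pool.Agent.PP.T12

theorem bsf : BsfStmt := by
  classical
  intro G _ _ R hR n v c hn h0 hc hag
  have _i : Fintype G := Fintype.ofFinite G
  have hA : (Irr G).Finite := irr_finite'
  have hB : R.Finite := hA.subset hR
  have hsub : hB.toFinset ⊆ hA.toFinset := by
    intro χ hχ
    rw [Set.Finite.mem_toFinset] at hχ ⊢
    exact hR hχ
  have conv : ∀ f : (G → ℂ) → ℂ, ∑ᶠ χ ∈ Irr G, f χ = ∑ χ ∈ hA.toFinset, f χ := fun f =>
    finsum_mem_eq_finite_toFinset_sum f hA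
  rw [finsum_mem_eq_finite_toFinset_sum _ hB]
  set W : (G → ℂ) → ℂ := fun χ => ∑ i ∈ Finset.range n, v i χ with hW
  have h1 : ∑ χ ∈ hA.toFinset, W χ * starRingEnd ℂ (W χ) = (n : ℂ) * c := by
    have e1 : ∀ χ, W χ * starRingEnd ℂ (W χ) =
        ∑ i ∈ Finset.range n, ∑ j ∈ Finset.range n, v i χ * starRingEnd ℂ (v j χ) := by
      intro χ
      rw [hW]
      simp only [map_sum]
      rw [Finset.sum_mul_sum]
    rw [Finset.sum_congr rfl fun χ _ => e1 χ, Finset.sum_comm]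
    have e2 : ∀ i ∈ Finset.range n, ∑ χ ∈ hA.toFinset, ∑ j ∈ Finset.range n,
        v i χ * starRingEnd ℂ (v j χ) = (c : ℂ) := by
      intro i hi
      rw [Finset.sum_comm, Finset.sum_eq_single i]
      · rw [← conv]
        exact hc i (Finset.mem_range.1 hi)
      · intro j hj hji
        rw [← conv]
        exact h0 i (Finset.mem_range.1 hi) j (Finset.mem_range.1 hj) (Ne.symm hji)
      · intro h
        exact absurd hi h
    rw [Finset.sum_congr rfl e2, Finset.sum_const, Finset.card_range, nsmul_eq_mul]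
  have h2 : ∑ χ ∈ hA.toFinset, Complex.normSq (W χ) = n * c := by
    have : ((∑ χ ∈ hA.toFinset, Complex.normSq (W χ) : ℝ) : ℂ) = ((n * c : ℝ) : ℂ) := by
      rw [Complex.ofReal_sum, Complex.ofReal_mul, Complex.ofReal_natCast, ← h1]
      exact Finset.sum_congr rfl fun χ _ => (Complex.mul_conj (W χ)).symm
    exact_mod_cast this
  have h3 : ∑ χ ∈ hB.toFinset, Complex.normSq (W χ) ≤ n * c := by
    rw [← h2]
    exact Finset.sum_le_sum_of_subset_of_nonneg hsub fun χ _ _ => Complex.normSq_nonneg _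
  have h4 : ∀ χ ∈ hB.toFinset, Complex.normSq (W χ) = (n : ℝ) ^ 2 * Complex.normSq (v 0 χ) := by
    intro χ hχ
    rw [Set.Finite.mem_toFinset] at hχ
    have e : W χ = n * v 0 χ := by
      rw [hW]
      simp only []
      rw [Finset.sum_congr rfl fun i hi => hag i (Finset.mem_range.1 hi) χ hχ, Finset.sum_const,
        Finset.card_range, nsmul_eq_mul]
    rw [e, Complex.normSq_mul, Complex.normSq_natCast, sq]
  rw [Finset.sum_congr rfl h4, ← Finset.mul_sum] at h3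
  have hn' : (0 : ℝ) < n := by exact_mod_cast hn
  have h5 : (n : ℝ) * (n * ∑ χ ∈ hB.toFinset, Complex.normSq (v 0 χ)) ≤ n * c := by
    calc (n : ℝ) * (n * ∑ χ ∈ hB.toFinset, Complex.normSq (v 0 χ))
        = (n : ℝ) ^ 2 * ∑ χ ∈ hB.toFinset, Complex.normSq (v 0 χ) := by ring
      _ ≤ n * c := h3
  exact le_of_mul_le_mul_left h5 hn'

end Pool.Agent.PP.T12.H86
end
end -- Pool.Agent.Helper86_AT12.BSF

section -- Pool.Agent.Helper87_AT12.CSM

/-!
# Squad AT12, row CSM: the average of an invariant function over the coset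
-/

open scoped BigOperators

set_option autoImplicit false

noncomputable section

namespace Pool.Agent.PP.T12.H87

open Pool.Agent.Helper51_AWC Pool.Agent.Helper79_WRA Pool.Agent.PP Pool.Agent.PP.KF
open Pool.Agent.PP.K9 Pool.Agent.PP.K9.H97 Pool.Agent.PP.H75 Pool.Agent.PP.T3 Pool.Agent.PP.T2
open Pool.Agent.PP.T8

attribute [local instance] Ideal.Quotient.field

/-- CSM -/
theorem csm (pwu : T2.PwuStmt) : CsmStmt := by
  intro ℓ _ F _ hF h2 G _ _ N hN e V γ hL y w m hC f hf j hj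
  have hℓ : ℓ.Prime := Fact.out
  have hℓ0 : ℓ ≠ 0 := hℓ.ne_zero
  have hcomm : Commute y w := hL.ab y hC.yV w hC.wV
  have hfr : ∀ (r : ℕ), ∀ v ∈ V, f (v ^ N ^ r) = f v := by
    intro r
    induction r with
    | zero => intro v _; rw [pow_zero, pow_one]
    | succ r ih =>
      intro v hv
      rw [pow_succ, pow_mul, hf _ (V.pow_mem hv _), ih v hv]
  have hEl : ∀ v ∈ V, El ℓ v := by
    intro v hv
    obtain ⟨n, hn⟩ := hL.tp.pg ⟨v, hv⟩
    refine ⟨n, ?_⟩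
    have := congrArg Subtype.val hn
    simpa using this
  have part1 : ∀ j' k : ℕ, j ≡ j' [MOD ℓ] →
      f (y ^ j' * w ^ (ℓ * k)) = f (y ^ j * w ^ (ℓ * k)) := by
    intro j' k hjj
    have hcop : Nat.Coprime j (ℓ ^ 2) := by
      apply Nat.Coprime.pow_right
      exact ((Nat.Prime.coprime_iff_not_dvd hℓ).2 hj).symm
    obtain ⟨u, -, hu⟩ := Nat.exists_mul_mod_eq_one_of_coprime hcop
      (by nlinarith [hℓ.two_le] : 1 < ℓ ^ 2)
    have hu1 : j * u ≡ 1 [MOD ℓ ^ 2] := by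
      unfold Nat.ModEq
      rw [hu, Nat.mod_eq_of_lt]
      nlinarith [hℓ.two_le]
    have hc : j * (u * j') ≡ j' [MOD ℓ ^ 2] := by
      have := hu1.mul_right j'
      rwa [one_mul, mul_assoc] at this
    have hc1 : 1 ≡ u * j' [MOD ℓ] := by
      have h1 : j * (u * j') ≡ j' [MOD ℓ] := hc.of_dvd (dvd_pow_self ℓ two_ne_zero)
      have h3 : j * 1 ≡ j * (u * j') [MOD ℓ] := by
        rw [mul_one]
        exact hjj.trans h1.symm
      exact Nat.ModEq.cancel_left_of_coprime ((Nat.Prime.coprime_iff_not_dvd hℓ).2 hj) h3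
    obtain ⟨r, hr⟩ := hN.gen 1 (u * j') (by
      rw [Nat.dvd_one]; exact hℓ.one_lt.ne') hc1
    have hmem : y ^ j * w ^ (ℓ * k) ∈ V := V.mul_mem (V.pow_mem hC.yV _) (V.pow_mem hC.wV _)
    have h4 := hr _ (hEl _ hmem)
    rw [pow_one] at h4
    have h5 : (y ^ j * w ^ (ℓ * k)) ^ (u * j') = y ^ j' * w ^ (ℓ * k) := by
      rw [(hcomm.pow_pow _ _).mul_pow, ← pow_mul, ← pow_mul]
      congr 1
      · rw [pow_eq_pow_iff_modEq, hC.oy]
        exact hc
      · rw [pow_eq_pow_iff_modEq, hC.ow]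
        have h6 : ℓ * (k * (u * j')) ≡ ℓ * (k * 1) [MOD ℓ * ℓ] :=
          (hc1.symm.mul_left k).mul_left' ℓ
        rw [mul_one] at h6
        rw [mul_assoc, pow_two]
        exact h6
    rw [← h5, ← h4, hfr r _ hmem]
  refine ⟨part1, ?_⟩
  obtain ⟨hU, -⟩ := pwu G (ℓ ^ 1) V hL.ab
  have hmemU : ∀ i k : ℕ, y ^ (ℓ * i) * w ^ (ℓ * k) ∈ Uw (ℓ ^ 1) V := by
    intro i k
    rw [hU]
    refine ⟨y ^ i * w ^ k, V.mul_mem (V.pow_mem hC.yV _) (V.pow_mem hC.wV _), ?_⟩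
    rw [pow_one, (hcomm.pow_pow _ _).mul_pow, ← pow_mul, ← pow_mul, mul_comm i, mul_comm k]
  have hmod : ∀ (x : G), orderOf x = ℓ ^ 2 → ∀ i : ℕ, x ^ (ℓ * (i % ℓ)) = x ^ (ℓ * i) := by
    intro x hx i
    rw [pow_eq_pow_iff_modEq, hx, pow_two]
    exact (Nat.mod_modEq i ℓ).mul_left' ℓ
  let φ : Fin ℓ × Fin ℓ → Uw (ℓ ^ 1) V := fun p =>
    ⟨y ^ (ℓ * (p.1 : ℕ)) * w ^ (ℓ * (p.2 : ℕ)), hmemU p.1 p.2⟩
  have hφ : Function.Bijective φ := by
    constructor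
    · intro p q hpq
      have h1 := congrArg Subtype.val hpq
      obtain ⟨h3, h4⟩ := hC.uni _ _ _ _ h1
      rw [pow_two] at h3 h4
      have h5 := Nat.ModEq.mul_left_cancel' hℓ0 h3
      have h6 := Nat.ModEq.mul_left_cancel' hℓ0 h4
      have h7 := Nat.ModEq.eq_of_lt_of_lt h5 p.1.2 q.1.2
      have h8 := Nat.ModEq.eq_of_lt_of_lt h6 p.2.2 q.2.2
      exact Prod.ext (Fin.ext h7) (Fin.ext h8)
    · rintro ⟨x, hx⟩
      obtain ⟨v, hv, hxv⟩ := (hU x).1 hx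
      obtain ⟨i, k, rfl⟩ := hC.gen v hv
      refine ⟨(⟨i % ℓ, Nat.mod_lt _ hℓ.pos⟩, ⟨k % ℓ, Nat.mod_lt _ hℓ.pos⟩), ?_⟩
      apply Subtype.ext
      change y ^ (ℓ * (i % ℓ)) * w ^ (ℓ * (k % ℓ)) = x
      rw [hmod y hC.oy, hmod w hC.ow, hxv, pow_one, (hcomm.pow_pow _ _).mul_pow, ← pow_mul,
        ← pow_mul, mul_comm i, mul_comm k]
  have hcard : Nat.card (Uw (ℓ ^ 1) V) = ℓ * ℓ := by
    rw [← Nat.card_eq_of_bijective φ hφ, Nat.card_prod, Nat.card_fin]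
  have hsum : ∑ᶠ v : Uw (ℓ ^ 1) V, f (y ^ j * v) =
      (ℓ : ℂ) * ∑ k ∈ Finset.range ℓ, f (y ^ j * w ^ (ℓ * k)) := by
    rw [← finsum_comp_equiv (Equiv.ofBijective φ hφ), finsum_eq_sum_of_fintype,
      Fintype.sum_prod_type]
    have h1 : ∀ a b : Fin ℓ, f (y ^ j * ((Equiv.ofBijective φ hφ) (a, b) : Uw (ℓ ^ 1) V)) =
        f (y ^ j * w ^ (ℓ * (b : ℕ))) := by
      intro a b
      change f (y ^ j * (y ^ (ℓ * (a : ℕ)) * w ^ (ℓ * (b : ℕ)))) = _
      rw [← mul_assoc, ← pow_add]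
      apply part1
      unfold Nat.ModEq
      rw [Nat.add_mul_mod_self_left]
    rw [Finset.sum_congr rfl (fun a _ => Finset.sum_congr rfl (fun b _ => h1 a b)),
      Finset.sum_const, Finset.card_univ, Fintype.card_fin, nsmul_eq_mul,
      Finset.sum_range (fun k => f (y ^ j * w ^ (ℓ * k)))]
  rw [hcard, hsum]
  have hne : (ℓ : ℂ) ≠ 0 := Nat.cast_ne_zero.2 hℓ0
  push_cast
  rw [← mul_assoc]
  congr 1
  field_simp

end Pool.Agent.PP.T12.H87
end
end -- Pool.Agent.Helper87_AT12.CSM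

section -- Pool.Agent.Helper23_ATW.HT2

/-!
# Squad ATW, row HT2: all heights are zero
-/

open scoped BigOperators

noncomputable section

namespace Pool.Agent.PP.TW.H23

open Pool.Agent.Helper51_AWC Pool.Agent.Helper79_WRA Pool.Agent.PP Pool.Agent.PP.KF
open Pool.Agent.PP.K9 Pool.Agent.PP.K9.H97 Pool.Agent.PP.H75 Pool.Agent.PP.T3 Pool.Agent.PP.T2
open Pool.Agent.PP.T5 Pool.Agent.PP.TB
open Pool.Agent.PP.T8 (rs pw fv rd Ip Rv vv Dat Fr)

attribute [local instance] Ideal.Quotient.field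

/-- a rational number in the maximal ideal of the local ring is `2` times an element of it -/
theorem half_RM {M : Ideal (integralClosure ℤ ℂ)} [M.IsMaximal]
    (hM : ((2 : ℕ) : integralClosure ℤ ℂ) ∈ M) {z : ℂ} (q : ℚ) (hq : z = (q : ℂ))
    (hz : z ∈ RM M) (h0 : rr M z = 0) : z / 2 ∈ RM M := by
  have hden : (q.den : ℂ) ≠ 0 := by exact_mod_cast q.den_nz
  have h1 : z * (q.den : ℂ) = ((q.num : ℤ) : ℂ) := by
    rw [hq]
    have h2 : q * (q.den : ℚ) = (q.num : ℚ) := Rat.mul_den_eq_num q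
    exact_mod_cast congrArg (fun x : ℚ => (x : ℂ)) h2
  have h3 : rr M ((q.num : ℤ) : ℂ) = 0 := by
    rw [← h1, rr_mul hz (rr_nat q.den).1, h0, zero_mul]
  have h4 : ((2 : ℕ) : ℤ) ∣ q.num := (dvd_of_rr (M := M) Nat.prime_two hM).1 h3
  have h5 : ¬ 2 ∣ q.den := by
    intro h6
    have h7 : 2 ∣ q.num.natAbs := Int.natCast_dvd.1 h4
    have h8 : 2 ∣ Nat.gcd q.num.natAbs q.den := Nat.dvd_gcd h7 h6
    have h9 : Nat.gcd q.num.natAbs q.den = 1 := q.reduced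
    rw [h9] at h8
    exact absurd h8 (by norm_num)
  obtain ⟨n, hn⟩ := h4
  have h6 := (RM M).mul_mem (rr_int (M := M) n).1 (inv_nat_RM (M := M) Nat.prime_two hM h5)
  have h7 : z / 2 = ((n : ℤ) : ℂ) * ((q.den : ℂ))⁻¹ := by
    rw [hn] at h1
    push_cast at h1
    field_simp
    linear_combination h1
  rw [h7]
  exact h6

/-- HT2: all heights are zero. -/
theorem ht2 (zab : TB.ZabStmt) (pjz : TB.PjzStmt) (poz : TB.PozStmt) (zcp : TB.ZcpStmt)
    (mmv : MmvStmt) (inr : T3.InrStmt) (dcg : T8.DcgStmt) (nrm : T8.NrmStmt) (inx : K9.InxStmt)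
    (dpv : DpvStmt) (loc : T3.LocStmt) : Ht2Stmt := by
  classical
  intro M _ hM G _ _ a e V γ b d c ε y w S χ hχ u0 hu0
  have hℓ : Fact (Nat.Prime 2) := ⟨Nat.prime_two⟩
  have D := S.dat
  have hχI : χ ∈ Irr G := hχ.1
  have hF : GoodF 2 (FF M) := H50.fld 2 Nat.prime_two M hM
  have ha : 0 < a := lt_of_lt_of_le (by norm_num) S.le
  have hix : ¬ 2 ∣ ix V γ :=
    inx 2 M hM G e D.ld.blk V D.ld.tp D.ld.ab γ D.ld.gam.supp D.ld.gam.blk D.ld.und
  obtain ⟨-, hpP⟩ := dpv 2 M hM G e V γ b d c ε D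
  -- the elements of `V`
  have hpow : ∀ u ∈ V, u ^ 2 ^ a = 1 := by
    intro u hu
    have h1 := Monoid.pow_exponent_eq_one (⟨u, hu⟩ : V)
    rw [S.exp] at h1
    exact congrArg Subtype.val h1
  have hreg : ∀ v ∈ V, v ≠ 1 → Rg V γ v := by
    intro v hv hv1
    refine ⟨hv, hv1, ?_⟩
    intro t ht
    exact S.fr t ht.1 v hv hv1 (Subgroup.mem_centralizer_singleton_iff.1 ht.2)
  -- the values as sums of roots of unity
  have hζ := Complex.isPrimitiveRoot_exp (2 ^ a) (pow_pos hℓ.out.pos a).ne'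
  have hval : ∀ u, Rg V γ u → ∃ m : ℕ → ℤ, ∀ j : ℕ, ¬ 2 ∣ j →
      vv M b d (u ^ j) χ = ∑ i ∈ Finset.range (2 ^ a),
        (m i : ℂ) * Complex.exp (2 * Real.pi * Complex.I / ((2 ^ a : ℕ) : ℂ)) ^ (i * j) := by
    intro u hu
    obtain ⟨m, hm⟩ := inr M G u (2 ^ a) (pow_pos hℓ.out.pos a) (hpow u hu.1) (b u)
      (D.lc u hu).blk.ix (d u) (D.dg u hu) _ hζ χ hχI
    have hd : (d u : ℂ) ≠ 0 := by exact_mod_cast (D.dg u hu).1.ne'
    refine ⟨m, fun j hj => ?_⟩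
    obtain ⟨-, hC, e2, e3⟩ := hpP u hu j hj
    unfold vv
    rw [e2, e3, hC, hm j, mul_div_cancel_left₀ _ hd]
  have hint : ∀ u, Rg V γ u → IsIntegral ℤ (vv M b d u χ) := by
    intro u hu
    obtain ⟨m, hm⟩ := hval u hu
    have h1 := hm 1 (by norm_num)
    rw [pow_one] at h1
    rw [h1]
    refine IsIntegral.sum _ fun i _ => IsIntegral.mul ?_ ?_
    · exact isIntegral_algebraMap (R := ℤ) (A := ℂ) (x := m i)
    · exact (hζ.isIntegral (pow_pos hℓ.out.pos a)).pow _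
  refine ⟨RM_of_int (hint u0 hu0), fun hcon => ?_⟩
  -- the residues are units
  set ρ : ℂ := (Nat.card G * c : ℂ) / (Nat.card (Subgroup.centralizer (V : Set G)) * χ 1) with hρ
  have hX : ∀ u, Rg V γ u → vv M b d u χ * ρ ∈ RM M ∧ rr M (vv M b d u χ * ρ) ≠ 0 := by
    intro u hu
    obtain ⟨h1, h2⟩ := dcg 2 M hM G e V γ b d c ε D u hu χ hχ
    refine ⟨h1, ?_⟩
    rw [h2, ← (rr_int (M := M) (ε u * ix V γ)).2]
    intro h3
    have h4 := (dvd_of_rr (M := M) hℓ.out hM).1 h3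
    have h5 : ((2 : ℕ) : ℤ) ∣ (ix V γ : ℤ) := by
      rcases D.sg u hu with h | h
      · rwa [h, one_mul] at h4
      · rw [h, neg_one_mul] at h4
        exact (Int.dvd_neg.1 h4)
    exact hix (Int.natCast_dvd_natCast.1 h5)
  have hv0 : ∀ u, Rg V γ u → vv M b d u χ ≠ 0 := by
    intro u hu h0
    apply (hX u hu).2
    rw [h0, zero_mul, rr_zero]
  obtain ⟨hi1, hi2⟩ := inv_RM (hX u0 hu0).1 (hX u0 hu0).2
  have hρ0 : ρ ≠ 0 := right_ne_zero_of_mul hi2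
  have hρi : ρ⁻¹ = vv M b d u0 χ * (vv M b d u0 χ * ρ)⁻¹ := by
    have h4 : vv M b d u0 χ ≠ 0 := hv0 u0 hu0
    field_simp
  have hρR : ρ⁻¹ ∈ RM M := by
    rw [hρi]
    exact (RM M).mul_mem (RM_of_int (hint u0 hu0)) hi1
  have hρr : rr M ρ⁻¹ = 0 := by
    rw [hρi, rr_mul (RM_of_int (hint u0 hu0)) hi1, hcon, zero_mul]
  obtain ⟨dχ, -, hdχ⟩ := irr_one hχI
  have hρQ : ρ⁻¹ = ((((Nat.card (Subgroup.centralizer (V : Set G)) : ℚ) * dχ) /
      ((Nat.card G : ℚ) * c) : ℚ) : ℂ) := by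
    rw [hρ, hdχ, inv_div]
    push_cast
    rfl
  have hhalf : ρ⁻¹ / 2 ∈ RM M := half_RM hM _ hρQ hρR hρr
  have hdiv : ∀ u, Rg V γ u → vv M b d u χ / 2 ^ 1 ∈ RM M := by
    intro u hu
    have h3 := (RM M).mul_mem (hX u hu).1 hhalf
    have h6 : vv M b d u χ * ρ * (ρ⁻¹ / 2) = vv M b d u χ / 2 ^ 1 := by
      field_simp
    rwa [h6] at h3
  -- the inequality for one regular element
  have hone : ∀ u, Rg V γ u → ((2 ^ (a - 1) * (2 - 1) * 2 ^ (2 * 1) : ℕ) : ℝ) ≤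
      ∑ j ∈ (Finset.range (2 ^ a)).filter (fun j => ¬ 2 ∣ j),
        Complex.normSq (vv M b d (u ^ j) χ) := by
    intro u hu
    obtain ⟨m, hvj⟩ := hval u hu
    have h1 := nrm 2 M hM a 0 1 ha _ hζ m (by
      intro j hj
      rw [← hvj j hj, pow_zero, div_one]
      exact_mod_cast hdiv _ (hpP u hu j hj).1) (by
      have h2 := hvj 1 (by norm_num)
      rw [pow_one] at h2
      simp only [mul_one] at h2
      rw [← h2]
      exact hv0 u hu)
    refine h1.trans (le_of_eq ?_)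
    apply Finset.sum_congr rfl
    intro j hj
    rw [hvj j (Finset.mem_filter.1 hj).2, pow_zero, div_one]
  -- the sum over all regular elements
  have := Fintype.ofFinite G
  set R : Finset G := Finset.univ.filter (fun u => Rg V γ u) with hR
  set T : ℝ := ∑ u ∈ R, Complex.normSq (vv M b d u χ) with hT
  have hperm : ∀ j : ℕ, ¬ 2 ∣ j →
      ∑ u ∈ R, Complex.normSq (vv M b d (u ^ j) χ) = T := by
    intro j hj
    obtain ⟨j', hj1, hj'⟩ := T8.H18.exists_inv (ℓ := 2) ha hj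
    refine Finset.sum_nbij' (fun u => u ^ j) (fun u => u ^ j') ?_ ?_ ?_ ?_ ?_
    · intro u hu
      exact Finset.mem_filter.2 ⟨Finset.mem_univ _, (hpP u (Finset.mem_filter.1 hu).2 j hj).1⟩
    · intro u hu
      exact Finset.mem_filter.2 ⟨Finset.mem_univ _, (hpP u (Finset.mem_filter.1 hu).2 j' hj1).1⟩
    · intro u hu
      exact (hj' u (hpow u (Finset.mem_filter.1 hu).2.1)).1
    · intro u hu
      exact (hj' u (hpow u (Finset.mem_filter.1 hu).2.1)).2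
    · intro u _
      rfl
  have hsum : (R.card : ℝ) * ((2 ^ (a - 1) * (2 - 1) * 2 ^ (2 * 1) : ℕ) : ℝ) ≤
      ((2 ^ (a - 1) * (2 - 1) : ℕ) : ℝ) * T := by
    calc (R.card : ℝ) * ((2 ^ (a - 1) * (2 - 1) * 2 ^ (2 * 1) : ℕ) : ℝ)
        = ∑ _u ∈ R, ((2 ^ (a - 1) * (2 - 1) * 2 ^ (2 * 1) : ℕ) : ℝ) := by
          rw [Finset.sum_const, nsmul_eq_mul]
      _ ≤ ∑ u ∈ R, ∑ j ∈ (Finset.range (2 ^ a)).filter (fun j => ¬ 2 ∣ j),
            Complex.normSq (vv M b d (u ^ j) χ) :=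
          Finset.sum_le_sum fun u hu => hone u (Finset.mem_filter.1 hu).2
      _ = ∑ j ∈ (Finset.range (2 ^ a)).filter (fun j => ¬ 2 ∣ j), T := by
          rw [Finset.sum_comm]
          exact Finset.sum_congr rfl fun j hj => hperm j (Finset.mem_filter.1 hj).2
      _ = ((2 ^ (a - 1) * (2 - 1) : ℕ) : ℝ) * T := by
          rw [Finset.sum_const, nsmul_eq_mul, T8.H18.card_filter_ndvd ha]
  have hφ : (0 : ℝ) < ((2 ^ (a - 1) * (2 - 1) : ℕ) : ℝ) := by
    have h1 : 0 < 2 ^ (a - 1) * (2 - 1) :=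
      Nat.mul_pos (pow_pos hℓ.out.pos _) (by norm_num)
    exact_mod_cast h1
  have hfin : (R.card : ℝ) * 4 ≤ T := by
    rw [Nat.cast_mul (2 ^ (a - 1) * (2 - 1)) (2 ^ (2 * 1))] at hsum
    have h1 : ((2 ^ (a - 1) * (2 - 1) : ℕ) : ℝ) * ((R.card : ℝ) * ((2 ^ (2 * 1) : ℕ) : ℝ)) ≤
        ((2 ^ (a - 1) * (2 - 1) : ℕ) : ℝ) * T := by
      refine le_trans (le_of_eq ?_) hsum
      ring
    have h2 := le_of_mul_le_mul_left h1 hφ
    norm_num at h2
    exact h2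
  -- the regular elements are the elements `≠ 1` of `V`
  have hR1 : R = Finset.univ.filter (fun u => u ∈ V ∧ u ≠ 1) := by
    rw [hR]
    apply Finset.filter_congr
    intro u _
    exact ⟨fun h => ⟨h.1, h.2.1⟩, fun h => hreg u h.1 h.2⟩
  -- the upper bound
  obtain ⟨⟨b', Z⟩, hiz⟩ := zab 2 M hM G e V γ D.ld
  have hbb : ∀ v, Rg V γ v → b' v = b v := by
    intro v hv
    obtain ⟨h1, h2⟩ := Z.lb v hv.1
    exact (loc 2 (FF M) hF G e V γ D.ld v hv.1).2 _ _ ⟨h1.bx, h1.und, h2⟩ (D.lc v hv)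
  have hcz : ∀ v, Rg V γ v → cz V V γ v = 1 := by
    intro v hv
    unfold cz
    rw [Subgroup.relIndex_eq_one]
    exact le_inf hv.2.2 inf_le_left
  obtain ⟨-, -, -, -, -, hczpos, -⟩ := zcp 2 M hM G e V V γ b' Z
  obtain ⟨⟨x, hx, hxle⟩, -⟩ := pjz 2 M hM G e V V γ b' Z V le_rfl Z.nrm χ hχI
  obtain ⟨-, hpz⟩ := poz 2 M hM G e V V γ b' Z 1 V.one_mem
  obtain ⟨p, hp, hpe⟩ := hpz χ hχ
  have hterm : ∀ v, Rg V γ v → (Nat.card V : ℂ) * ((cz V V γ v : ℂ) *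
      mm M 2 (Cu v) v (b' v) χ χ) = ((Complex.normSq (vv M b d v χ) : ℝ) : ℂ) := by
    intro v hv
    rw [hcz v hv, hbb v hv, Nat.cast_one, one_mul, mmv 2 M hM G e V γ b d c ε D v hv χ hχI χ hχI,
      Complex.mul_conj]
  have hVpos : (0 : ℝ) < Nat.card V := by exact_mod_cast Nat.card_pos
  have hPw : (Nat.card V : ℂ) * Pw M 2 V V V γ b' χ χ =
      (((Nat.card V : ℝ) * (cz V V γ (1 : G) : ℝ) * p + T : ℝ) : ℂ) := by
    unfold Pw
    have e1 : ∑ᶠ w : V, (cz V V γ (w : G) : ℂ) * mm M 2 (Cu (w : G)) w (b' w) χ χ =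
        ∑ u ∈ Finset.univ.filter (fun u : G => u ∈ V),
          (cz V V γ u : ℂ) * mm M 2 (Cu u) u (b' u) χ χ := by
      rw [finsum_eq_sum_of_fintype]
      rw [Finset.sum_subtype (Finset.univ.filter (fun u : G => u ∈ V)) (p := fun u => u ∈ V)
        (fun u => by simp) (fun u => (cz V V γ u : ℂ) * mm M 2 (Cu u) u (b' u) χ χ)]
    have e2 : Finset.univ.filter (fun u : G => u ∈ V) = insert 1 R := by
      ext u
      rw [hR1]
      simp only [Finset.mem_filter, Finset.mem_univ, true_and, Finset.mem_insert]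
      constructor
      · intro h
        by_cases h1 : u = 1
        · exact Or.inl h1
        · exact Or.inr ⟨h, h1⟩
      · rintro (h | h)
        · rw [h]
          exact V.one_mem
        · exact h.1
    have e3 : (1 : G) ∉ R := by
      rw [hR1]
      simp
    rw [e1, e2, Finset.sum_insert e3, mul_add, Finset.mul_sum]
    have e4 : ∑ u ∈ R, (Nat.card V : ℂ) * ((cz V V γ u : ℂ) * mm M 2 (Cu u) u (b' u) χ χ) =
        ((T : ℝ) : ℂ) := by
      rw [hT, Complex.ofReal_sum]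
      exact Finset.sum_congr rfl fun u hu => hterm u (Finset.mem_filter.1 hu).2
    rw [e4, hpe]
    push_cast
    ring
  rw [hx] at hPw
  have hPw' : (Nat.card V : ℝ) * x = (Nat.card V : ℝ) * (cz V V γ (1 : G) : ℝ) * p + T := by
    exact_mod_cast hPw
  have hc1 : (0 : ℝ) < (cz V V γ (1 : G) : ℝ) := by exact_mod_cast hczpos 1 V.one_mem
  have hx3 : x ≤ 3 := by
    rw [hiz] at hxle
    exact hxle.trans (by exact_mod_cast S.i3)
  have hTlt : T < 3 * (Nat.card V : ℝ) := by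
    have h1 : 0 < (Nat.card V : ℝ) * (cz V V γ (1 : G) : ℝ) * p := by positivity
    have h2 : (Nat.card V : ℝ) * x ≤ (Nat.card V : ℝ) * 3 :=
      mul_le_mul_of_nonneg_left hx3 hVpos.le
    linarith
  -- the cardinality
  have hRc : R.card + 1 = Nat.card V := by
    have e2 : Finset.univ.filter (fun u : G => u ∈ V) = insert 1 R := by
      ext u
      rw [hR1]
      simp only [Finset.mem_filter, Finset.mem_univ, true_and, Finset.mem_insert]
      constructor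
      · intro h
        by_cases h1 : u = 1
        · exact Or.inl h1
        · exact Or.inr ⟨h, h1⟩
      · rintro (h | h)
        · rw [h]
          exact V.one_mem
        · exact h.1
    have e3 : (1 : G) ∉ R := by
      rw [hR1]
      simp
    rw [← Finset.card_insert_of_notMem e3, ← e2, Nat.card_eq_fintype_card]
    exact (Fintype.card_subtype _).symm
  have hV4 : 4 ≤ Nat.card V := by
    have h1 : orderOf (⟨y, S.yV⟩ : V) = 2 ^ a := by
      rw [← S.oy]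
      exact Subgroup.orderOf_mk y S.yV
    have h2 : orderOf (⟨y, S.yV⟩ : V) ≤ Nat.card V :=
      Nat.le_of_dvd Nat.card_pos (orderOf_dvd_natCard _)
    rw [h1] at h2
    have h3 : 2 ^ 2 ≤ 2 ^ a := Nat.pow_le_pow_right (by norm_num) S.le
    omega
  have h1 : (R.card : ℝ) + 1 = Nat.card V := by exact_mod_cast hRc
  have h2 : (4 : ℝ) ≤ Nat.card V := by exact_mod_cast hV4
  linarith

end Pool.Agent.PP.TW.H23
end
end -- Pool.Agent.Helper23_ATW.HT2
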