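import Pool.Agent.Helper12_AWB.B179

/-!
# Merged copies (generated) of the modules

* `Pool.Agent.ASO.Stmts7`
* `Pool.Agent.Helper15_ASO.CMB`
* `Pool.Agent.Helper3_ASO.INF`
* `Pool.Agent.Helper47_ASO.CMOgen`
* `Pool.Agent.Helper47_ASO.CMO`
* `Pool.Agent.Helper65_ASO.CMP`
* `Pool.Agent.Helper7_ASO.K2B`
-/

set_option autoImplicit false

section -- Pool.Agent.ASO.Stmts7

/-!
# Squad ASO, statements 7: the comparison group

`V₀` elementary abelian of order `ℓ ^ 2`, `E₀` a group of automorphisms of `V₀` of order prime to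
`ℓ`, `U W` given numbers `1` modulo `ℓ`.  The comparison group is `K : (V₀ : E₀)` with an elementary
abelian `p`-group `K`, `p = 1 + ℓ` modulo `ℓ ^ 2`, such that `|C_K(W)| = U W` modulo `ℓ ^ k` for `W` of
order `ℓ` and `C_K(V₀) = 1`.  Complete proofs in the docstrings.
-/

open scoped BigOperators

noncomputable section

namespace Pool.Agent.PP.SO

open Pool.Agent.Helper51_AWC Pool.Agent.Helper79_WRA Pool.Agent.PP Pool.Agent.PP.KF
open Pool.Agent.PP.K9 Pool.Agent.PP.K9.H97 Pool.Agent.PP.H75 Pool.Agent.PP.T3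

attribute [local instance] Ideal.Quotient.field

/-- the inflation of a function of `B` along `π : A → B` -/
def infl {F A B : Type} [Field F] [Group A] [Group B] (π : A →* B) (a : B → F) : A → F :=
  fun x => (Nat.card π.ker : F)⁻¹ * a (π x)

/-- the identity of the group ring -/
def one1 {F A : Type} [Field F] [Group A] : A → F := fun x => open scoped Classical in
  if x = 1 then 1 else 0

/-- INF: inflation along a homomorphism whose kernel `K` has order prime to `ℓ`.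

Proof.  (1) `(infl a · infl b)(x) = |K|⁻² ∑_t a(π t) b(π(t⁻¹ x))`, and every `s ∈ B` is `π t` for
`|K|` elements `t`.  (2) `infl a · g = infl (a · push π g)` for every function `g` of `A` (the same
computation).  `infl a` is a class function, idempotent by (1), not zero (`|K| ≠ 0` in `F`, `π`
surjective).  For an idempotent `g` of `A`, `push π g` is an idempotent of `B` (`push_isIdem`), so
`a · push π g` is `a` or `0`.  (3) `push π (infl a) = a`, so by `K9.PsiStmt` (`Helper.._K9/PSI`)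
`κ ∈ IrrE M a` if and only if `κ ∈ Irr B` and `κ ∘ π ∈ IrrE M (infl a)`.  It remains to see that a
`χ ∈ IrrE M (infl a)` is `κ ∘ π`: let `ε = infl one1` (`|K|⁻¹` on `K`, `0` elsewhere);
`infl a · ε = infl a`, so `res M ε χ = 1` (`res M` is multiplicative on class functions).  The residue
of `(1/|K|) ∑_{k ∈ K} χ(k)/χ(1)` is `1`; this number is `0` or `1` (`∑_{k ∈ K} χ(k)` is `|K|` times the
dimension of the fixed points of the normal subgroup `K`, which is `0` or `χ(1)`), so it is `1`, `K` is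
in the kernel of `χ` and `χ = κ ∘ π` with `κ ∈ Irr B`. -/
def InfStmt : Prop := ∀ (ℓ : ℕ) [Fact ℓ.Prime] (M : Ideal (integralClosure ℤ ℂ)) [M.IsMaximal],
  (ℓ : integralClosure ℤ ℂ) ∈ M → ∀ (A B : Type) [Group A] [Finite A] [Group B] [Finite B]
  (π : A →* B), Function.Surjective π → ¬ ℓ ∣ Nat.card π.ker →
  (∀ a b : B → FF M, mulF (infl π a) (infl π b) = infl π (mulF a b)) ∧
  (∀ a : B → FF M, IsIdem a → IsIdem (infl π a)) ∧
  (∀ a : B → FF M, IsBlk a → IsBlk (infl π a)) ∧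
  ∀ a : B → FF M, IsIdem a → IrrE M (infl π a) = {χ | ∃ κ ∈ IrrE M a, χ = fun x => κ (π x)}

/-- ONB: a group with a normal `ℓ`-subgroup `P` which contains its centraliser has one block.

Proof.  `one1` is an idempotent, not zero.  Let `g` be an idempotent; `br P g` is `g` restricted to
`C(P) ≤ P` (`g` is supported there: `T2.H32.supp_cent` with `U = P`, `X = ⊤`, or `H95`; and `g`
vanishes at the elements which are not regular, `g` lifts to `eh M g`, `K9.H25.eh_sing`).  `P` is an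
`ℓ`-group, so the only regular element of `P` is `1`.  So `g` is a multiple of `one1`, and idempotent:
`g = 0` or `g = one1`.  So `one1 · g = g` is `0` or `one1`.  `IrrE`: `res M one1 χ = 1`. -/
def OnbStmt : Prop := ∀ (ℓ : ℕ) [Fact ℓ.Prime] (M : Ideal (integralClosure ℤ ℂ)) [M.IsMaximal],
  (ℓ : integralClosure ℤ ℂ) ∈ M → ∀ (A : Type) [Group A] [Finite A] (P : Subgroup A), P.Normal →
  IsPGroup ℓ P → Subgroup.centralizer (P : Set A) ≤ P →
  IsBlk (one1 : A → FF M) ∧ IrrE M (one1 : A → FF M) = Irr A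

/-- CMG: the comparison group.

Proof.  (0) If `g = 1` modulo `ℓ` and not modulo `ℓ ^ 2` then every `U = 1` modulo `ℓ` is a power of `g`
modulo `ℓ ^ k` (induction on `k`, `g ^ (ℓ ^ (k - 1)) = 1 + ℓ ^ k s` with `ℓ ∤ s`).
(1) Let `p` be a prime with `p = 1 + ℓ` modulo `ℓ ^ 2` (Dirichlet), `X` the group of the
homomorphisms `V₀ → (ℤ/p)ˣ`, of order `ℓ ^ 2` (`ℓ` divides `p - 1`).  By (0) for `g = p ^ (ℓ - 1)` there
are `a(W)` with `p ^ ((ℓ - 1) a(W)) = U W` modulo `ℓ ^ k`, chosen as a function of `U W`, so that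
`a(φ W) = a(W)` for `φ ∈ E₀`.  Let `J` be the set of the pairs `(λ, i)`, `λ ∈ X`, `λ ≠ 1`,
`i < a(ker λ)`, and `K` the additive group of the functions `f : J → ℤ/p`.  `(u, φ) ∈ V₀ : E₀` acts as
`((u, φ) f)(λ, i) = λ(u) f(λ ∘ φ, i)`; this is an action: `((u, φ)(u', φ')) f` at `λ` is
`λ(u φ(u')) f(λ φ φ')`, and `(u, φ)((u', φ') f)` at `λ` is `λ(u) (λ ∘ φ)(u') f(λ φ φ')`.
`G = K ⋊ (V₀ ⋊ E₀)`, `π` the projection, `ι`, `ε` the inclusions.
(2) `f` is fixed by `W` if and only if `f(λ, ·) = 0` for all `λ` which are not trivial on `W`.  The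
`λ ≠ 1` which are trivial on `W` (`W` of order `ℓ`) are the `ℓ - 1` homomorphisms with kernel `W`
(`CommGroup.card_domRestrictHom_ker`), so `|C_K(W)| = p ^ ((ℓ - 1) a(W))`.  `f` is fixed by all of
`V₀` only if `f = 0`.  So `x = k u φ` centralises `ι(V₀)` only if `φ = 1` (`φ` acts trivially on
`V₀`), and then `k` centralises it, `k = 1`. -/
def CmgStmt : Prop := ∀ (ℓ : ℕ) [Fact ℓ.Prime], ℓ ≠ 2 → ∀ (V₀ : Type) [CommGroup V₀] [Finite V₀],
  (∀ v : V₀, v ^ ℓ = 1) → Nat.card V₀ = ℓ ^ 2 → ∀ (E₀ : Subgroup (MulAut V₀)) (k : ℕ)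
  (U : Subgroup V₀ → ℤ), (∀ W, (ℓ : ℤ) ∣ U W - 1) →
  (∀ W : Subgroup V₀, ∀ φ ∈ E₀, U (W.map (φ : V₀ ≃* V₀).toMonoidHom) = U W) →
  ∃ (G : Type) (_ : Group G) (_ : Finite G) (π : G →* V₀ ⋊[E₀.subtype] E₀) (ι : V₀ →* G)
    (ε : E₀ →* G), Function.Surjective π ∧ ¬ ℓ ∣ Nat.card π.ker ∧
    (∀ v, π (ι v) = SemidirectProduct.inl v) ∧ (∀ φ, π (ε φ) = SemidirectProduct.inr φ) ∧
    (∀ (φ : E₀) (v : V₀), ε φ * ι v * (ε φ)⁻¹ = ι ((φ : MulAut V₀) v)) ∧
    Subgroup.centralizer (ι.range : Set G) ≤ ι.range ∧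
    ∀ W : Subgroup V₀, W ≠ ⊥ → W ≠ ⊤ →
      ((ℓ ^ k : ℕ) : ℤ) ∣
        (Nat.card (π.ker ⊓ Subgroup.centralizer (W.map ι : Set G) : Subgroup G) : ℤ) - U W

/-- CMI: the comparison block, basic part (for a group `G` as in CMG).

Proof.  `A = V₀ ⋊ E₀` has the normal subgroup `inl(V₀)`, which contains its centraliser (`E₀` is a
group of automorphisms).  `e = infl π one1`, `g = one1`, `V = ι(V₀)`, `K = ker π`.  ONB and INF: `e` is a
block and `IrrE M e` is the set of the `κ ∘ π`, `κ ∈ Irr A`; `π` is surjective, so the number is that of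
`A`.  *The numbers.*  An `ℓ`-group `P` acting on `K` has `|C_K(P)| = |K|` modulo `ℓ`
(`IsPGroup.card_modEq_card_fixedPoints`); `C_K(V) = 1` (`C(V) ≤ V`, `π` injective on `V`), so `|K| = 1`
and `|C_K(P)| = 1` modulo `ℓ` for `P ≤ V`.
*Defect group.*  `e` is a class function, and `e 1 ≠ 0`, so `V` is good for `e` (`Gd`: the restriction of `e`
to `C(V)` is not `0`).  If `Q` is an `ℓ`-subgroup of `G` then `Q ∩ K = 1`, so `Q` is isomorphic to its image
in `A`, of order at most `ℓ ^ 2` (`ℓ` does not divide `|E₀|`).  So `Tp ℓ e V`.  `C(V) = V` (`V` is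
abelian), and `br_V(e)` is `|K|⁻¹ = 1` at `1` and `0` at the other elements (`π` is injective on `V`), so
`br_V(e) = one1 = g`; `g` is a block of `C(V) = V` (ONB for `V`).
*Inertial group.*  `g` is invariant under all of `G`, so `Tg V g = N(V)`; for `t ∈ N(V)`, `π t = (u, φ)`:
`t ι(v) t⁻¹ ∈ V` has the image `inl(φ v)`, so it is `ι(φ v)`; conversely `ε φ ∈ N(V)`.
*Local blocks:* `b W = ` the function which is `|K ∩ C(ι W)|⁻¹` on `K ∩ C(ι W)` and `0` elsewhere, that is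
`infl` of `one1` along `C(ι W) → π(C(ι W))`, extended by zero.  `π(C(ι W)) = V₀ ⋊ C_{E₀}(W)`: `⊆` is clear
(`(u, φ) w (u, φ)⁻¹ = φ(w)`) and `ι(V₀)`, `ε(C_{E₀}(W)) ≤ C(ι W)`; this group has the normal subgroup
`V₀` which contains its centraliser, so by ONB, INF `b W` is a block of `C(ι W)`.  `e b W = b W` on
`C(ι W)`: `e` is `|K|⁻¹ = 1 = |K ∩ C(ι W)|⁻¹` on `K ∩ C(ι W)` and `0` on the other elements of `C(ι W)`, so
`e = b W` on `C(ι W)`.  `br_V(b W) = one1 = g`.  `D W = 1`, `S W = 1`. -/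
def CmiStmt : Prop := ∀ (ℓ : ℕ) [Fact ℓ.Prime] (M : Ideal (integralClosure ℤ ℂ)) [M.IsMaximal],
  (ℓ : integralClosure ℤ ℂ) ∈ M → ∀ (V₀ : Type) [CommGroup V₀] [Finite V₀],
  (∀ v : V₀, v ^ ℓ = 1) → Nat.card V₀ = ℓ ^ 2 → ∀ E₀ : Subgroup (MulAut V₀),
  ¬ ℓ ∣ Nat.card E₀ → ∀ (G : Type) [Group G] [Finite G] (π : G →* V₀ ⋊[E₀.subtype] E₀) (ι : V₀ →* G)
    (ε : E₀ →* G), Function.Surjective π → ¬ ℓ ∣ Nat.card π.ker →
    (∀ v, π (ι v) = SemidirectProduct.inl v) → (∀ φ, π (ε φ) = SemidirectProduct.inr φ) →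
    (∀ (φ : E₀) (v : V₀), ε φ * ι v * (ε φ)⁻¹ = ι ((φ : MulAut V₀) v)) →
    Subgroup.centralizer (ι.range : Set G) ≤ ι.range →
  ∃ B : Bk (FF M) V₀ G, B.i = ι ∧ Sb ℓ M E₀ B ∧ (∀ W, B.D W = 1) ∧ (∀ W, B.S W = 1) ∧
    (IrrE M B.e).ncard = (Irr (V₀ ⋊[E₀.subtype] E₀)).ncard ∧
    (∀ x : G, El ℓ x → x ^ ℓ = 1) ∧
    ∀ (W : Subgroup V₀), (∀ σ ∈ E₀, (∀ w ∈ W, σ w = w) → σ = 1) →
      Dg M (fun t : B.C W => B.b W t) 1

/-- CMO: the orders of the centralisers in the comparison group.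

Proof.  `π` maps `C(ι W)` into the centraliser of `inl(W)`, which is `inl(V₀)` if only `1 ∈ E₀` fixes `W`
(`(u, φ) w (u, φ)⁻¹ = φ(w)`), so `C(ι W) = (K ∩ C(ι W)) ι(V₀)`, `|C(ι W)| = |K ∩ C(ι W)| ℓ ^ 2`.
`C(ι V₀) = ι(V₀)`.  `K ∩ ι(V₀) = 1`.  `|K ∩ C(ι W)| = 1` modulo `ℓ`: see CMI. -/
def CmoStmt : Prop := ∀ (ℓ : ℕ) [Fact ℓ.Prime] (V₀ : Type) [CommGroup V₀] [Finite V₀],
  (∀ v : V₀, v ^ ℓ = 1) → Nat.card V₀ = ℓ ^ 2 → ∀ E₀ : Subgroup (MulAut V₀),
  ∀ (G : Type) [Group G] [Finite G] (π : G →* V₀ ⋊[E₀.subtype] E₀) (ι : V₀ →* G),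
    Function.Surjective π → ¬ ℓ ∣ Nat.card π.ker → (∀ v, π (ι v) = SemidirectProduct.inl v) →
    Subgroup.centralizer (ι.range : Set G) ≤ ι.range →
    Nat.card (Subgroup.centralizer (((⊤ : Subgroup V₀).map ι : Subgroup G) : Set G)) = ℓ ^ 2 ∧
    ∀ (W : Subgroup V₀), (∀ σ ∈ E₀, (∀ w ∈ W, σ w = w) → σ = 1) →
      Nat.card (Subgroup.centralizer ((W.map ι : Subgroup G) : Set G)) =
        Nat.card (π.ker ⊓ Subgroup.centralizer (W.map ι : Set G) : Subgroup G) * ℓ ^ 2 ∧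
      (ℓ : ℤ) ∣
        (Nat.card (π.ker ⊓ Subgroup.centralizer (W.map ι : Set G) : Subgroup G) : ℤ) - 1

/-- CMB: the comparison block.

Proof.  Choose integers `U' W` with `U W - U' W = ℓ ^ (k + 1) q`, `q ∈ Rl ℓ`, as a function of the number
`U W` (for a rational number `a/b` with `b` prime to `ℓ` take the inverse of `b` modulo
`ℓ ^ (k + 1)`); `U' W = 1` modulo `ℓ`; for the other `W` (`W = ⊥`) take `1` (CMG needs all `W`: put
`U' W = 1` if `U W` is not in `1 + ℓ Rl ℓ`; this is a function of `U W`, so it is invariant).  CMG for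
`k + 1` and `U'`, CMI.  `B.U W = |C W|/|C ⊤| = |K ∩ C(ι W)|` by CMO.  For `W = ⊤` it is `1 = U ⊤`.  (The
relation `U (W.map σ) = U W` is needed for `W ≠ ⊥` only; put `U' ⊥ = 1`.) -/
def CmbStmt : Prop := ∀ (ℓ : ℕ) [Fact ℓ.Prime] (M : Ideal (integralClosure ℤ ℂ)) [M.IsMaximal],
  (ℓ : integralClosure ℤ ℂ) ∈ M → ℓ ≠ 2 → ∀ (V₀ : Type) [CommGroup V₀] [Finite V₀],
  (∀ v : V₀, v ^ ℓ = 1) → Nat.card V₀ = ℓ ^ 2 → ∀ E₀ : Subgroup (MulAut V₀),
  ¬ ℓ ∣ Nat.card E₀ → ∀ (k : ℕ) (U : Subgroup V₀ → ℚ), U ⊤ = 1 →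
  (∀ W, W ≠ ⊥ → ∃ q ∈ SOR.Rl ℓ, U W = 1 + ℓ * q) →
  (∀ W, W ≠ ⊥ → ∀ σ ∈ E₀, U (W.map (σ : V₀ ≃* V₀).toMonoidHom) = U W) →
  ∃ (G : Type) (_ : Group G) (_ : Finite G) (B : Bk (FF M) V₀ G), Sb ℓ M E₀ B ∧
    (IrrE M B.e).ncard = (Irr (V₀ ⋊[E₀.subtype] E₀)).ncard ∧
    (∀ x : G, El ℓ x → x ^ ℓ = 1) ∧ (∀ W, B.D W = 1) ∧ (∀ W, B.S W = 1) ∧
    ∀ W : Subgroup V₀, W ≠ ⊥ → (∀ σ ∈ E₀, (∀ w ∈ W, σ w = w) → σ = 1) →
      Dg M (fun t : B.C W => B.b W t) 1 ∧ (∃ q ∈ SOR.Rl ℓ, B.U W = 1 + ℓ * q) ∧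
      ∃ q ∈ SOR.Rl ℓ, B.U W - U W = ℓ ^ k * q

/-- CMP: the comparison block for a free action.

Proof.  CMB for `k`; `|E₀|` is prime to `ℓ` (`E₀` acts freely on the `ℓ ^ 2 - 1` elements of
`V₀ - 1`); if `σ ∈ E₀` fixes `W ≠ ⊥` then `σ = 1`.  `PE`: `m` is `1` modulo `ℓ ^ r` and modulo the `ℓ`-part of
`|G|`, and `0` modulo the prime to `ℓ` part of `|G|`; the `ℓ`-elements have order dividing `ℓ`. -/
def CmpStmt : Prop := ∀ (ℓ : ℕ) [Fact ℓ.Prime] (M : Ideal (integralClosure ℤ ℂ)) [M.IsMaximal],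
  (ℓ : integralClosure ℤ ℂ) ∈ M → ℓ ≠ 2 → ∀ (V₀ : Type) [CommGroup V₀] [Finite V₀]
  (E₀ : Subgroup (MulAut V₀)), Fr ℓ V₀ E₀ → ∀ (k : ℕ) (U : Subgroup V₀ → ℚ), U ⊤ = 1 →
  (∀ W, W ≠ ⊥ → ∃ q ∈ SOR.Rl ℓ, U W = 1 + ℓ * q) →
  (∀ W, W ≠ ⊥ → ∀ σ ∈ E₀, U (W.map (σ : V₀ ≃* V₀).toMonoidHom) = U W) → ∀ r : ℕ, 0 < r →
  ∃ (G : Type) (_ : Group G) (_ : Finite G) (B : Bk (FF M) V₀ G) (m : ℕ), Sy ℓ M E₀ B ∧
    PE ℓ (ℓ ^ r) m G ∧ (IrrE M B.e).ncard = (Irr (V₀ ⋊[E₀.subtype] E₀)).ncard ∧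
    ∀ W, W ≠ ⊥ → ∃ q ∈ SOR.Rl ℓ, B.U W - U W = ℓ ^ k * q

end Pool.Agent.PP.SO
end
end -- Pool.Agent.ASO.Stmts7

section -- Pool.Agent.Helper15_ASO.CMB

/-!
# Squad ASO, row CMB: the comparison block with prescribed numbers `U` modulo `ℓ ^ k`
-/

open scoped BigOperators

noncomputable section

namespace Pool.Agent.PP.SO.H15

open Pool.Agent.Helper51_AWC Pool.Agent.Helper79_WRA Pool.Agent.PP Pool.Agent.PP.KF
open Pool.Agent.PP.K9 Pool.Agent.PP.K9.H97 Pool.Agent.PP.H75 Pool.Agent.PP.T3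

attribute [local instance] Ideal.Quotient.field

theorem int_Rl (ℓ : ℕ) [Fact ℓ.Prime] (z : ℤ) : (z : ℚ) ∈ SOR.Rl ℓ := intCast_mem _ z

/-- an element of `Rl ℓ` is an integer modulo `ℓ ^ N` -/
theorem approx (ℓ : ℕ) [hℓ : Fact ℓ.Prime] (N : ℕ) (q₀ : ℚ) (hq : q₀ ∈ SOR.Rl ℓ) :
    ∃ a : ℤ, ∃ q ∈ SOR.Rl ℓ, q₀ - a = ℓ ^ N * q := by
  have hnd : ¬ ℓ ∣ q₀.den := hq
  have hcop : IsCoprime (q₀.den : ℤ) ((ℓ : ℤ) ^ N) := by
    apply IsCoprime.pow_right
    rw [Nat.isCoprime_iff_coprime]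
    exact ((Nat.Prime.coprime_iff_not_dvd hℓ.out).2 hnd).symm
  obtain ⟨u, v, huv⟩ := hcop
  refine ⟨q₀.num * u, q₀ * v, (SOR.Rl ℓ).mul_mem hq (int_Rl ℓ v), ?_⟩
  have h1 : q₀ * q₀.den = q₀.num := Rat.mul_den_eq_num q₀
  have h2 : (u : ℚ) * q₀.den + v * ℓ ^ N = 1 := by exact_mod_cast huv
  have h3 : ((q₀.num * u : ℤ) : ℚ) = q₀ * (1 - v * ℓ ^ N) := by
    push_cast
    rw [← h1, ← h2]
    ring
  rw [h3]
  ring

open Classical in
/-- the integer which approximates `x` -/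
def nn (ℓ k : ℕ) [Fact ℓ.Prime] (x : ℚ) : ℤ :=
  if h : ∃ n : ℤ, (ℓ : ℤ) ∣ n - 1 ∧ ∃ q ∈ SOR.Rl ℓ, x - n = ℓ ^ (k + 1) * q then h.choose else 1

theorem nn_dvd (ℓ k : ℕ) [Fact ℓ.Prime] (x : ℚ) : (ℓ : ℤ) ∣ nn ℓ k x - 1 := by
  unfold nn
  split_ifs with h
  · exact h.choose_spec.1
  · rw [sub_self]
    exact dvd_zero _

theorem nn_spec (ℓ k : ℕ) [Fact ℓ.Prime] (x : ℚ) (hx : ∃ q ∈ SOR.Rl ℓ, x = 1 + ℓ * q) :
    ∃ q ∈ SOR.Rl ℓ, x - nn ℓ k x = ℓ ^ (k + 1) * q := by
  have h : ∃ n : ℤ, (ℓ : ℤ) ∣ n - 1 ∧ ∃ q ∈ SOR.Rl ℓ, x - n = ℓ ^ (k + 1) * q := by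
    obtain ⟨q₀, hq₀, rfl⟩ := hx
    obtain ⟨a, q, hq, hqa⟩ := approx ℓ k q₀ hq₀
    refine ⟨1 + ℓ * a, ⟨a, by ring⟩, q, hq, ?_⟩
    push_cast
    have : q₀ = a + ℓ ^ k * q := by rw [← hqa]; ring
    rw [this]
    ring
  unfold nn
  rw [dif_pos h]
  exact h.choose_spec.2

theorem cmb (cmg : CmgStmt) (cmi : CmiStmt) (cmo : CmoStmt) : CmbStmt := by
  intro ℓ hℓ M _ hM hl2 V₀ _ _ hv hc E₀ hE k U hUt hU hUi
  classical
  obtain ⟨G, iG, iF, π, ι, ε, hπ, hk, h1, h2, h3, h4, h5⟩ := cmg ℓ hl2 V₀ hv hc E₀ (k + 1)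
    (fun W => if W = ⊥ then 1 else nn ℓ k (U W)) (by
      intro W
      by_cases hW : W = ⊥
      · rw [if_pos hW, sub_self]
        exact dvd_zero _
      · rw [if_neg hW]
        exact nn_dvd ℓ k (U W)) (by
      intro W φ hφ
      by_cases hW : W = ⊥
      · subst hW
        rw [Subgroup.map_bot]
      · have hW2 : ¬ W.map (φ : V₀ ≃* V₀).toMonoidHom = ⊥ := by
          intro h
          apply hW
          rw [Subgroup.map_eq_bot_iff] at h
          rw [eq_bot_iff]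
          refine h.trans ?_
          intro x hx
          have hx1 : (φ : V₀ ≃* V₀) x = 1 := hx
          rw [Subgroup.mem_bot]
          exact (MulEquiv.map_eq_one_iff (φ : V₀ ≃* V₀)).1 hx1
        rw [if_neg hW, if_neg hW2, hUi W hW φ hφ])
  obtain ⟨B, hBi, hSb, hD, hS, hn, hEl, hDg⟩ := cmi ℓ M hM V₀ hv hc E₀ hE G π ι ε hπ hk h1 h2 h3 h4
  obtain ⟨h6, h7⟩ := cmo ℓ V₀ hv hc E₀ G π ι hπ hk h1 h4
  refine ⟨G, iG, iF, B, hSb, hn, hEl, hD, hS, ?_⟩
  intro W hW hst
  obtain ⟨h8, h9⟩ := h7 W hst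
  subst hBi
  have hl0 : (ℓ : ℚ) ≠ 0 := Nat.cast_ne_zero.2 hℓ.out.ne_zero
  have hT : (Nat.card (B.C ⊤) : ℚ) = (ℓ : ℚ) ^ 2 := by
    have : Nat.card (B.C ⊤) = ℓ ^ 2 := h6
    rw [this]
    push_cast
    rfl
  have hC : (Nat.card (B.C W) : ℚ) =
      (Nat.card (π.ker ⊓ Subgroup.centralizer (W.map B.i : Set G) : Subgroup G) : ℚ) *
        (ℓ : ℚ) ^ 2 := by
    have : Nat.card (B.C W) =
      Nat.card (π.ker ⊓ Subgroup.centralizer (W.map B.i : Set G) : Subgroup G) * ℓ ^ 2 := h8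
    rw [this]
    push_cast
    rfl
  have hUW : B.U W =
      (Nat.card (π.ker ⊓ Subgroup.centralizer (W.map B.i : Set G) : Subgroup G) : ℚ) := by
    unfold Bk.U
    rw [hS, hD, hD, hT, hC]
    field_simp
    push_cast
    ring
  refine ⟨hDg W hst, ?_, ?_⟩
  · obtain ⟨z, hz⟩ := h9
    refine ⟨z, int_Rl ℓ z, ?_⟩
    rw [hUW]
    have : ((Nat.card (π.ker ⊓ Subgroup.centralizer (W.map B.i : Set G) : Subgroup G) : ℤ) : ℚ) -
        1 = ((ℓ * z : ℤ) : ℚ) := by rw [← hz]; push_cast; rfl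
    push_cast at this
    rw [← this]
    ring
  · by_cases hWt : W = ⊤
    · subst hWt
      refine ⟨0, (SOR.Rl ℓ).zero_mem, ?_⟩
      have : B.U ⊤ = 1 := by
        unfold Bk.U
        rw [hS, hD, hT]
        field_simp
        push_cast
        ring
      rw [this, hUt, sub_self, mul_zero]
    · obtain ⟨z, hz⟩ := h5 W hW hWt
      rw [if_neg hW] at hz
      obtain ⟨q, hq, hq2⟩ := nn_spec ℓ k (U W) (hU W hW)
      refine ⟨ℓ * (z - q), (SOR.Rl ℓ).mul_mem (natCast_mem _ ℓ)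
        ((SOR.Rl ℓ).sub_mem (int_Rl ℓ z) hq), ?_⟩
      rw [hUW]
      have hz2 : ((Nat.card (π.ker ⊓ Subgroup.centralizer (W.map B.i : Set G) : Subgroup G) : ℤ) :
          ℚ) - (nn ℓ k (U W) : ℚ) = (((ℓ ^ (k + 1) : ℕ) : ℤ) * z : ℤ) := by
        rw [← hz]
        push_cast
        rfl
      push_cast at hz2
      have e : (Nat.card (π.ker ⊓ Subgroup.centralizer (W.map B.i : Set G) : Subgroup G) : ℚ) -
          U W = ((Nat.card (π.ker ⊓ Subgroup.centralizer (W.map B.i : Set G) : Subgroup G) : ℚ) -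
            (nn ℓ k (U W) : ℚ)) - (U W - nn ℓ k (U W)) := by ring
      rw [e, hz2, hq2]
      ring

end Pool.Agent.PP.SO.H15
end
end -- Pool.Agent.Helper15_ASO.CMB

section -- Pool.Agent.Helper3_ASO.INF

/-!
# Squad ASO, row INF: inflation of idempotents
-/

open scoped BigOperators

noncomputable section

namespace Pool.Agent.PP.SO.H3

open Pool.Agent.Helper51_AWC Pool.Agent.Helper79_WRA Pool.Agent.PP Pool.Agent.PP.KF
open Pool.Agent.PP.K9 Pool.Agent.PP.K9.H97 Pool.Agent.PP.H75 Pool.Agent.PP.T3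

attribute [local instance] Ideal.Quotient.field

section inflate

variable {F A B : Type} [Field F] [Group A] [Group B] [Finite A] [Finite B]

open Classical in
theorem card_fibre [Fintype A] {π : A →* B} (hπ : Function.Surjective π) (y : B) :
    ∑ x : A, (if π x = y then (1 : F) else 0) = Nat.card π.ker := by
  obtain ⟨x0, rfl⟩ := hπ y
  rw [← Equiv.sum_comp (Equiv.mulLeft x0)]
  have h1 : ∀ k : A, (if π (Equiv.mulLeft x0 k) = π x0 then (1 : F) else 0) =
      if k ∈ π.ker then 1 else 0 := by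
    intro k
    have h2 : π (Equiv.mulLeft x0 k) = π x0 ↔ k ∈ π.ker := by
      rw [Equiv.coe_mulLeft, map_mul, MonoidHom.mem_ker]
      exact mul_eq_left
    by_cases h : k ∈ π.ker
    · rw [if_pos (h2.2 h), if_pos h]
    · rw [if_neg (fun h' => h (h2.1 h')), if_neg h]
  rw [Finset.sum_congr rfl fun k _ => h1 k, Finset.sum_ite, Finset.sum_const_zero, add_zero,
    Finset.sum_const, nsmul_eq_mul, mul_one, Nat.card_eq_fintype_card, Fintype.card_subtype]

theorem push_infl {π : A →* B} (hπ : Function.Surjective π) (hK : (Nat.card π.ker : F) ≠ 0)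
    (b : B → F) : H75.push π (infl π b) = b := by
  classical
  have := Fintype.ofFinite A
  funext y
  rw [push_eq]
  have h1 : ∀ x : A, (if π x = y then infl π b x else 0) =
      (Nat.card π.ker : F)⁻¹ * b y * (if π x = y then 1 else 0) := by
    intro x
    split_ifs with h
    · unfold infl
      rw [h, mul_one]
    · rw [mul_zero]
  rw [Finset.sum_congr rfl fun x _ => h1 x, ← Finset.mul_sum, card_fibre hπ]
  field_simp

theorem infl_mulF (π : A →* B) (a : B → F) (g : A → F) :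
    mulF (infl π a) g = infl π (mulF a (H75.push π g)) := by
  have := Fintype.ofFinite A
  have := Fintype.ofFinite B
  funext x
  unfold infl mulF
  rw [finsum_eq_sum_of_fintype, finsum_eq_sum_of_fintype]
  -- the left side
  have h1 : ∑ t, (Nat.card π.ker : F)⁻¹ * a (π t) * g (t⁻¹ * x) =
      ∑ u, (Nat.card π.ker : F)⁻¹ * (g u * a (π x * (π u)⁻¹)) := by
    rw [← Equiv.sum_comp ((Equiv.inv A).trans (Equiv.mulLeft x))]
    refine Finset.sum_congr rfl fun u _ => ?_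
    have e1 : ((Equiv.inv A).trans (Equiv.mulLeft x)) u = x * u⁻¹ := rfl
    rw [e1, map_mul, map_inv, mul_inv_rev, inv_inv, inv_mul_cancel_right]
    ring
  have h2 : ∑ s, a s * H75.push π g (s⁻¹ * π x) = ∑ u, g u * a (π x * (π u)⁻¹) := by
    rw [← sum_push π g fun y => a (π x * y⁻¹),
      ← Equiv.sum_comp ((Equiv.inv B).trans (Equiv.mulLeft (π x)))]
    refine Finset.sum_congr rfl fun y _ => ?_
    have e1 : ((Equiv.inv B).trans (Equiv.mulLeft (π x))) y = π x * y⁻¹ := rfl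
    rw [e1, mul_inv_rev, inv_inv, inv_mul_cancel_right]
    ring
  rw [h1, h2, Finset.mul_sum]

theorem infl_isCl (π : A →* B) {a : B → F} (ha : IsCl a) : IsCl (infl π a) := by
  intro x y
  unfold infl
  rw [map_mul, map_mul, map_inv, ha]

end inflate

theorem card_ne {ℓ : ℕ} [hp : Fact ℓ.Prime] {M : Ideal (integralClosure ℤ ℂ)} [M.IsMaximal]
    (hM : (ℓ : integralClosure ℤ ℂ) ∈ M) {n : ℕ} (hn : ¬ ℓ ∣ n) : (n : FF M) ≠ 0 := by
  intro h
  have h0 : (ℓ : FF M) = 0 := by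
    have h1 := Ideal.Quotient.eq_zero_iff_mem.2 hM
    rw [map_natCast] at h1
    exact h1
  have hc : IsCoprime (n : ℤ) (ℓ : ℤ) :=
    Nat.isCoprime_iff_coprime.2 ((Nat.Prime.coprime_iff_not_dvd hp.out).2 hn).symm
  obtain ⟨u, v, huv⟩ := hc
  have h2 := congrArg (fun z : ℤ => (z : FF M)) huv
  simp only [Int.cast_add, Int.cast_mul, Int.cast_natCast, h, h0, mul_zero, add_zero,
    Int.cast_one] at h2
  exact zero_ne_one h2

open Classical in
/-- a character on whose kernel the mean over `K` is not zero comes from the quotient -/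
theorem factor {A B : Type} [Group A] [Group B] [Finite A] [Finite B] {π : A →* B}
    (hπ : Function.Surjective π) {χ : A → ℂ} (hχ : χ ∈ Irr A) [Fintype A]
    (hw : H50.om (fun t => if t ∈ π.ker then (1 : ℂ) else 0) χ = Nat.card π.ker) :
    ∃ κ ∈ Irr B, χ = fun x => κ (π x) := by
  obtain ⟨n, ρ, hρ, rfl⟩ := hχ
  have hcl : ∀ x y : A, (fun t => if t ∈ π.ker then (1 : ℂ) else 0) (y * x * y⁻¹) =
      (fun t => if t ∈ π.ker then (1 : ℂ) else 0) x := by
    intro x y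
    have h1 : y * x * y⁻¹ ∈ π.ker ↔ x ∈ π.ker := by
      rw [MonoidHom.mem_ker, MonoidHom.mem_ker, map_mul, map_mul, map_inv]
      constructor
      · intro h
        have h2 : π x = (π y)⁻¹ * (π y * π x * (π y)⁻¹) * π y := by group
        rw [h2, h]
        group
      · intro h
        rw [h]
        group
    simp only [h1]
  have hact := H50.act_om ρ (a := fun t => if t ∈ π.ker then (1 : ℂ) else 0) hcl
  rw [hw] at hact
  have hK : (Nat.card π.ker : ℂ) ≠ 0 := by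
    have : 0 < Nat.card π.ker := Nat.card_pos
    exact_mod_cast this.ne'
  -- the kernel acts trivially
  have hk : ∀ k ∈ π.ker, ρ k = 1 := by
    intro k hk
    have h1 : ρ k * act ρ (fun t => if t ∈ π.ker then (1 : ℂ) else 0) =
        act ρ (fun t => if t ∈ π.ker then (1 : ℂ) else 0) := by
      unfold act
      rw [Finset.mul_sum, ← Equiv.sum_comp (Equiv.mulLeft k)
        (fun t => (if t ∈ π.ker then (1 : ℂ) else 0) • ρ t)]
      refine Finset.sum_congr rfl fun t _ => ?_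
      have e1 : Equiv.mulLeft k t = k * t := rfl
      have h2 : k * t ∈ π.ker ↔ t ∈ π.ker := Subgroup.mul_mem_cancel_left _ hk
      rw [e1, map_mul]
      change ρ k * ((if t ∈ π.ker then (1 : ℂ) else 0) • ρ t) = _
      by_cases h : t ∈ π.ker
      · rw [if_pos h, if_pos (h2.2 h), one_smul, one_smul]
      · rw [if_neg h, if_neg (fun h' => h (h2.1 h')), zero_smul, zero_smul, mul_zero]
    rw [hact, mul_smul_comm] at h1
    have h3 := smul_right_injective _ hK h1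
    have h4 : ρ k * LinearMap.id = ρ k := mul_one (ρ k)
    rw [h4] at h3
    exact h3
  have hkey : ∀ x x', π x = π x' → ρ x = ρ x' := by
    intro x x' h
    have h1 : x'⁻¹ * x ∈ π.ker := by
      rw [MonoidHom.mem_ker, map_mul, map_inv, h, inv_mul_cancel]
    have h2 := hk _ h1
    calc ρ x = ρ (x' * (x'⁻¹ * x)) := by rw [mul_inv_cancel_left]
      _ = ρ x' := by rw [map_mul, h2, mul_one]
  let s : B → A := Function.surjInv hπ
  have hs : ∀ y, π (s y) = y := Function.surjInv_eq hπ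
  let σ : Representation ℂ B (Fin n → ℂ) :=
    { toFun := fun y => ρ (s y)
      map_one' := by
        change ρ (s 1) = 1
        rw [← map_one ρ]
        apply hkey
        rw [hs, map_one]
      map_mul' := fun y z => by
        change ρ (s (y * z)) = ρ (s y) * ρ (s z)
        rw [← map_mul]
        apply hkey
        rw [hs, map_mul, hs, hs] }
  have hσ : ∀ x, σ (π x) = ρ x := fun x => hkey _ _ (hs _)
  refine ⟨σ.character, ⟨n, σ, ?_, rfl⟩, ?_⟩
  · have f : Subrepresentation σ ≃o Subrepresentation ρ :=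
      { toFun := fun S => ⟨S.toSubmodule, fun g v hv => by
          rw [← hσ]
          exact S.apply_mem_toSubmodule (π g) hv⟩
        invFun := fun S => ⟨S.toSubmodule, fun h v hv => by
          obtain ⟨g, rfl⟩ := hπ h
          rw [hσ]
          exact S.apply_mem_toSubmodule g hv⟩
        left_inv := fun S => rfl
        right_inv := fun S => rfl
        map_rel_iff' := Iff.rfl }
    exact (OrderIso.isSimpleOrder_iff f).2 hρ
  · funext x
    change LinearMap.trace ℂ _ (ρ x) = LinearMap.trace ℂ _ (σ (π x))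
    rw [hσ]

open Classical in
theorem om_ker {A B : Type} [Group A] [Group B] [Finite A] [Finite B] {π : A →* B}
    (hπ : Function.Surjective π) {χ : A → ℂ} (hχ : χ ∈ Irr A) [Fintype A] :
    H50.om (fun t => if t ∈ π.ker then (1 : ℂ) else 0) χ = 0 ∨
      H50.om (fun t => if t ∈ π.ker then (1 : ℂ) else 0) χ = Nat.card π.ker := by
  have hcl : ∀ x y : A, (fun t => if t ∈ π.ker then (1 : ℂ) else 0) (y * x * y⁻¹) =
      (fun t => if t ∈ π.ker then (1 : ℂ) else 0) x := by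
    intro x y
    have h1 : y * x * y⁻¹ ∈ π.ker ↔ x ∈ π.ker := by
      rw [MonoidHom.mem_ker, MonoidHom.mem_ker, map_mul, map_mul, map_inv]
      constructor
      · intro h
        have h2 : π x = (π y)⁻¹ * (π y * π x * (π y)⁻¹) * π y := by group
        rw [h2, h]
        group
      · intro h
        rw [h]
        group
    simp only [h1]
  have h1 := H50.om_mul (a := fun t => if t ∈ π.ker then (1 : ℂ) else 0)
    (b := fun t => if t ∈ π.ker then (1 : ℂ) else 0) hcl hχ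
  have h2 : (fun y : A => ∑ h, (fun t => if t ∈ π.ker then (1 : ℂ) else 0) h *
      (fun t => if t ∈ π.ker then (1 : ℂ) else 0) (h⁻¹ * y)) =
      fun y => (Nat.card π.ker : ℂ) * (if y ∈ π.ker then (1 : ℂ) else 0) := by
    funext y
    have h3 : ∀ h : A, (if h ∈ π.ker then (1 : ℂ) else 0) *
        (if h⁻¹ * y ∈ π.ker then (1 : ℂ) else 0) =
        (if y ∈ π.ker then (1 : ℂ) else 0) * (if h ∈ π.ker then 1 else 0) := by
      intro h
      by_cases hh : h ∈ π.ker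
      · have h4 : h⁻¹ * y ∈ π.ker ↔ y ∈ π.ker :=
          Subgroup.mul_mem_cancel_left _ (π.ker.inv_mem hh)
        simp only [h4, if_pos hh, one_mul, mul_one]
      · rw [if_neg hh, zero_mul, mul_zero]
    change ∑ h, (if h ∈ π.ker then (1 : ℂ) else 0) * (if h⁻¹ * y ∈ π.ker then (1 : ℂ) else 0) = _
    rw [Finset.sum_congr rfl fun h _ => h3 h, ← Finset.mul_sum, Finset.sum_ite,
      Finset.sum_const_zero, add_zero, Finset.sum_const, nsmul_eq_mul, mul_one,
      Nat.card_eq_fintype_card, Fintype.card_subtype, mul_comm]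
  rw [h2] at h1
  have h5 : H50.om (fun y => (Nat.card π.ker : ℂ) * (if y ∈ π.ker then (1 : ℂ) else 0)) χ =
      Nat.card π.ker * H50.om (fun t => if t ∈ π.ker then (1 : ℂ) else 0) χ := by
    unfold H50.om
    rw [← mul_div_assoc, Finset.mul_sum]
    congr 1
    refine Finset.sum_congr rfl fun t _ => ?_
    rw [mul_assoc]
  rw [h5] at h1
  by_cases h0 : H50.om (fun t => if t ∈ π.ker then (1 : ℂ) else 0) χ = 0
  · exact Or.inl h0
  · exact Or.inr (mul_right_cancel₀ h0 h1).symm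

/-- row INF -/
theorem inf : InfStmt := by
  intro ℓ _ M _ hM A B _ _ _ _ π hπ hℓ
  classical
  have hFA := Fintype.ofFinite A
  have hK : (Nat.card π.ker : FF M) ≠ 0 := card_ne hM hℓ
  have h1 : ∀ a b : B → FF M, mulF (infl π a) (infl π b) = infl π (mulF a b) := by
    intro a b
    rw [infl_mulF, push_infl hπ hK]
  have h2 : ∀ a : B → FF M, IsIdem a → IsIdem (infl π a) := fun a ha =>
    ⟨infl_isCl π ha.1, by rw [h1, ha.2]⟩
  have hpsi := (Pool.Agent.PP.K9.H3.psi M A B π hπ)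
  refine ⟨h1, h2, ?_, ?_⟩
  · rintro a ⟨ha, ha0, hab⟩
    refine ⟨h2 a ha, ?_, ?_⟩
    · intro h0
      apply ha0
      rw [← push_infl hπ hK a, h0, push_zero]
    · intro g hg
      rw [infl_mulF]
      rcases hab _ (push_isIdem hπ hg) with h | h
      · left
        rw [h]
      · right
        rw [h]
        funext x
        unfold infl
        rw [Pi.zero_apply, mul_zero]
        rfl
  · intro a ha
    have hp := (hpsi (infl π a) (h2 a ha).1).1
    rw [push_infl hπ hK] at hp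
    ext χ
    constructor
    · rintro ⟨hχ, hχ1⟩
      -- the mean over the kernel
      have hε : mulF (infl π a) (infl π (one1 : B → FF M)) = infl π a := by
        rw [h1]
        congr 1
        funext x
        have hFB := Fintype.ofFinite B
        unfold mulF one1
        rw [finsum_eq_sum_of_fintype, Finset.sum_eq_single x]
        · rw [inv_mul_cancel, if_pos rfl, mul_one]
        · intro t _ ht
          rw [if_neg, mul_zero]
          intro h
          exact ht (inv_mul_eq_one.1 h)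
        · intro h
          exact absurd (Finset.mem_univ x) h
      have hone : IsCl (one1 : B → FF M) := by
        intro x y
        unfold one1
        have : y * x * y⁻¹ = 1 ↔ x = 1 := by
          constructor
          · intro h
            have h3 : x = y⁻¹ * (y * x * y⁻¹) * y := by group
            rw [h3, h]
            group
          · rintro rfl
            group
        simp only [this]
      have h3 := H50.res_mul (M := M) (h2 a ha).1 (infl_isCl π hone) hχ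
      rw [hε, hχ1, one_mul] at h3
      -- compute
      have hcl : H50.Cl (fun t : A => if t ∈ π.ker then (1 : integralClosure ℤ ℂ) else 0) := by
        intro x y
        have h4 : y * x * y⁻¹ ∈ π.ker ↔ x ∈ π.ker := by
          rw [MonoidHom.mem_ker, MonoidHom.mem_ker, map_mul, map_mul, map_inv]
          constructor
          · intro h
            have h5 : π x = (π y)⁻¹ * (π y * π x * (π y)⁻¹) * π y := by group
            rw [h5, h]
            group
          · intro h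
            rw [h]
            group
        simp only [h4]
      have h5 := (H50.res_irr (M := M) _ hcl hχ).1
      have h6 : infl π (one1 : B → FF M) = (Nat.card π.ker : FF M)⁻¹ •
          fun t : A => Ideal.Quotient.mk M (if t ∈ π.ker then (1 : integralClosure ℤ ℂ) else 0) := by
        funext t
        rw [Pi.smul_apply, smul_eq_mul]
        unfold infl one1
        congr 1
        by_cases ht : t ∈ π.ker
        · rw [if_pos ht, if_pos (MonoidHom.mem_ker.1 ht), map_one]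
        · rw [if_neg ht, if_neg (fun h => ht (MonoidHom.mem_ker.2 h)), map_zero]
      rw [h6, H50.res_smul, h5] at h3
      have h7 : (fun t : A => ((if t ∈ π.ker then (1 : integralClosure ℤ ℂ) else 0 :
          integralClosure ℤ ℂ) : ℂ)) = fun t => if t ∈ π.ker then (1 : ℂ) else 0 := by
        funext t
        split_ifs
        · rfl
        · rfl
      rw [h7] at h3
      rcases om_ker hπ hχ with h | h
      · exfalso
        rw [h, red_zero, mul_zero] at h3
        exact one_ne_zero h3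
      · obtain ⟨κ, hκ, hκχ⟩ := factor hπ hχ h
        refine ⟨κ, ?_, hκχ⟩
        rw [hp]
        refine ⟨hκ, ?_⟩
        rw [← hκχ]
        exact ⟨hχ, hχ1⟩
    · rintro ⟨κ, hκ, rfl⟩
      rw [hp] at hκ
      exact hκ.2

end Pool.Agent.PP.SO.H3
end
end -- Pool.Agent.Helper3_ASO.INF

section -- Pool.Agent.Helper47_ASO.CMOgen

/-!
# Squad ASO, row CMO: orders of centralisers, pure group theory
-/

namespace Pool.Agent.PP.SO.H47

section

variable {V₀ G Q : Type} [CommGroup V₀] [Group G] [Group Q]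

/-- the conjugation action of `V₀` on a subgroup which is normalised by `ι(V₀)` -/
def conjAct (ι : V₀ →* G) (N : Subgroup G) (hN : ∀ v, ∀ x ∈ N, ι v * x * (ι v)⁻¹ ∈ N) :
    MulAction V₀ N where
  smul v x := ⟨ι v * x * (ι v)⁻¹, hN v x x.2⟩
  one_smul x := by
    apply Subtype.ext
    change ι 1 * (x : G) * (ι 1)⁻¹ = x
    simp
  mul_smul v w x := by
    apply Subtype.ext
    change ι (v * w) * (x : G) * (ι (v * w))⁻¹ = ι v * (ι w * (x : G) * (ι w)⁻¹) * (ι v)⁻¹
    rw [map_mul]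
    group

theorem fix_mod (ℓ : ℕ) [Fact ℓ.Prime] [Finite V₀] [Finite G] (hc : Nat.card V₀ = ℓ ^ 2)
    (ι : V₀ →* G) (N : Subgroup G) (hN : ∀ v, ∀ x ∈ N, ι v * x * (ι v)⁻¹ ∈ N)
    (h1 : ∀ x ∈ N, (∀ v, ι v * x * (ι v)⁻¹ = x) → x = 1) : (ℓ : ℤ) ∣ (Nat.card N : ℤ) - 1 := by
  have hp : IsPGroup ℓ V₀ := IsPGroup.of_card hc
  letI := conjAct ι N hN
  have hm := hp.card_modEq_card_fixedPoints (α := N)
  have hu : Nat.card (MulAction.fixedPoints V₀ N) = 1 := by
    rw [Nat.card_eq_one_iff_unique]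
    refine ⟨⟨fun x y => ?_⟩, ⟨⟨1, fun v => ?_⟩⟩⟩
    · have hx : ∀ z : MulAction.fixedPoints V₀ N, (z : N) = 1 := by
        intro z
        apply Subtype.ext
        refine h1 _ z.1.2 fun v => ?_
        exact congrArg Subtype.val (z.2 v)
      apply Subtype.ext
      rw [hx x, hx y]
    · apply Subtype.ext
      change ι v * ((1 : N) : G) * (ι v)⁻¹ = ((1 : N) : G)
      simp
  rw [hu] at hm
  have := (Nat.modEq_iff_dvd.1 hm.symm)
  simpa using this

end

/-- CMO without the surrounding definitions. -/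
theorem cmo_gen (ℓ : ℕ) [Fact ℓ.Prime] (V₀ : Type) [CommGroup V₀] [Finite V₀]
    (hc : Nat.card V₀ = ℓ ^ 2) (E₀ : Subgroup (MulAut V₀)) (G : Type) [Group G] [Finite G]
    (π : G →* V₀ ⋊[E₀.subtype] E₀) (ι : V₀ →* G) (hι : ∀ v, π (ι v) = SemidirectProduct.inl v)
    (hC : Subgroup.centralizer (ι.range : Set G) ≤ ι.range) :
    Nat.card (Subgroup.centralizer (((⊤ : Subgroup V₀).map ι : Subgroup G) : Set G)) = ℓ ^ 2 ∧
    ∀ (W : Subgroup V₀), (∀ σ ∈ E₀, (∀ w ∈ W, σ w = w) → σ = 1) →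
      Nat.card (Subgroup.centralizer ((W.map ι : Subgroup G) : Set G)) =
        Nat.card (π.ker ⊓ Subgroup.centralizer (W.map ι : Set G) : Subgroup G) * ℓ ^ 2 ∧
      (ℓ : ℤ) ∣
        (Nat.card (π.ker ⊓ Subgroup.centralizer (W.map ι : Set G) : Subgroup G) : ℤ) - 1 := by
  have hinj : Function.Injective ι := by
    intro v w h
    have h' := congrArg π h
    rw [hι, hι] at h'
    exact SemidirectProduct.inl_injective h'
  have hcomm : ∀ v w, ι v * ι w = ι w * ι v := by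
    intro v w
    rw [← map_mul, ← map_mul, mul_comm]
  refine ⟨?_, ?_⟩
  · have h1 : Subgroup.centralizer (((⊤ : Subgroup V₀).map ι : Subgroup G) : Set G) = ι.range := by
      rw [← MonoidHom.range_eq_map]
      refine le_antisymm hC ?_
      rintro _ ⟨v, rfl⟩
      rw [Subgroup.mem_centralizer_iff]
      rintro _ ⟨w, rfl⟩
      exact hcomm w v
    rw [h1, ← hc]
    exact (Nat.card_congr (ι.ofInjective hinj).toEquiv).symm
  · intro W hW
    have hVC : ∀ v, ι v ∈ Subgroup.centralizer ((W.map ι : Subgroup G) : Set G) := by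
      intro v
      rw [Subgroup.mem_centralizer_iff]
      rintro _ ⟨w, -, rfl⟩
      exact hcomm w v
    have hker : ∀ x ∈ Subgroup.centralizer ((W.map ι : Subgroup G) : Set G),
        ∃ u, π x = SemidirectProduct.inl u := by
      intro x hx
      rw [Subgroup.mem_centralizer_iff] at hx
      have hφ : ∀ w ∈ W, ((π x).right : MulAut V₀) w = w := by
        intro w hw
        have h1 : ι w * x = x * ι w := hx _ ⟨w, hw, rfl⟩
        have h2 := congrArg π h1
        rw [map_mul, map_mul, hι] at h2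
        have h3 := congrArg SemidirectProduct.left h2
        rw [SemidirectProduct.mul_left, SemidirectProduct.mul_left] at h3
        simp only [SemidirectProduct.left_inl, SemidirectProduct.right_inl, map_one,
          MulAut.one_apply] at h3
        rw [mul_comm] at h3
        exact (mul_left_cancel h3).symm
      have h1 := hW _ (π x).right.2 hφ
      refine ⟨(π x).left, ?_⟩
      apply SemidirectProduct.ext
      · simp
      · apply Subtype.ext
        simpa using h1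
    refine ⟨?_, ?_⟩
    · set C := Subgroup.centralizer ((W.map ι : Subgroup G) : Set G) with hCdef
      have hi : (π.comp C.subtype).ker.index = Nat.card (π.comp C.subtype).range :=
        Subgroup.index_ker _
      have hr : (π.comp C.subtype).range =
          (SemidirectProduct.inl : V₀ →* V₀ ⋊[E₀.subtype] E₀).range := by
        apply le_antisymm
        · rintro _ ⟨x, rfl⟩
          obtain ⟨u, hu⟩ := hker x x.2
          exact ⟨u, hu.symm⟩
        · rintro _ ⟨v, rfl⟩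
          exact ⟨⟨ι v, hVC v⟩, hι v⟩
      have hcr : Nat.card (π.comp C.subtype).range = ℓ ^ 2 := by
        rw [hr, ← hc]
        exact (Nat.card_congr (MonoidHom.ofInjective
          (SemidirectProduct.inl_injective (φ := E₀.subtype))).toEquiv).symm
      have hk : Nat.card (π.comp C.subtype).ker = Nat.card (π.ker ⊓ C : Subgroup G) := by
        refine Nat.card_congr ⟨fun x => ⟨x.1.1, x.2, x.1.2⟩, fun x => ⟨⟨x.1, x.2.2⟩, x.2.1⟩, ?_, ?_⟩
        · intro x
          rfl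
        · intro x
          rfl
      have hm := (π.comp C.subtype).ker.card_mul_index
      rw [hi, hcr, hk] at hm
      exact hm.symm
    · refine fix_mod ℓ hc ι _ ?_ ?_
      · rintro v x ⟨hx1, hx2⟩
        refine ⟨?_, ?_⟩
        · have hx1' : π x = 1 := hx1
          change π (ι v * x * (ι v)⁻¹) = 1
          rw [map_mul, map_mul, hx1', map_inv]
          simp
        · exact Subgroup.mul_mem _ (Subgroup.mul_mem _ (hVC v) hx2)
            (Subgroup.inv_mem _ (hVC v))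
      · rintro x ⟨hx1, -⟩ hx
        have hx1' : π x = 1 := hx1
        have hxC : x ∈ Subgroup.centralizer (ι.range : Set G) := by
          rw [Subgroup.mem_centralizer_iff]
          rintro _ ⟨v, rfl⟩
          have := hx v
          rw [mul_inv_eq_iff_eq_mul] at this
          exact this
        obtain ⟨u, hu⟩ := hC hxC
        rw [← hu, hι] at hx1'
        have : u = 1 := by
          have h2 : (SemidirectProduct.inl u : V₀ ⋊[E₀.subtype] E₀) = SemidirectProduct.inl 1 := by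
            rw [hx1', map_one]
          exact SemidirectProduct.inl_injective h2
        rw [← hu, this, map_one]

end Pool.Agent.PP.SO.H47
end -- Pool.Agent.Helper47_ASO.CMOgen

section -- Pool.Agent.Helper47_ASO.CMO

/-!
# Squad ASO, row CMO
-/

namespace Pool.Agent.PP.SO.H47

/-- **CMO**. -/
theorem cmo : CmoStmt := by
  intro ℓ _ V₀ _ _ _ hc E₀ G _ _ π ι _ _ hι hC
  exact cmo_gen ℓ V₀ hc E₀ G π ι hι hC

end Pool.Agent.PP.SO.H47
end -- Pool.Agent.Helper47_ASO.CMO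

section -- Pool.Agent.Helper65_ASO.CMP

/-!
# ASO, row CMP: the comparison block for a free action
-/

open scoped BigOperators

noncomputable section

namespace Pool.Agent.PP.SO.H65

open Pool.Agent.Helper51_AWC Pool.Agent.Helper79_WRA Pool.Agent.PP Pool.Agent.PP.KF
open Pool.Agent.PP.K9 Pool.Agent.PP.K9.H97 Pool.Agent.PP.H75 Pool.Agent.PP.T3

attribute [local instance] Ideal.Quotient.field

/-- a group of automorphisms which acts freely has order prime to `ℓ` -/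
theorem not_dvd_of_fr {ℓ : ℕ} [Fact ℓ.Prime] {V₀ : Type} [CommGroup V₀] [Finite V₀]
    {E₀ : Subgroup (MulAut V₀)} (hFr : Fr ℓ V₀ E₀) : ¬ ℓ ∣ Nat.card E₀ := by
  intro hdvd
  have hfin : Finite (MulAut V₀) := Finite.of_injective (fun σ : MulAut V₀ => (σ : V₀ → V₀))
    (fun σ τ h => MulEquiv.ext fun x => congrFun h x)
  obtain ⟨σ, hσ⟩ := exists_prime_orderOf_dvd_card' (G := E₀) ℓ hdvd
  have hσ1 : (σ : MulAut V₀) ≠ 1 := by
    intro h
    have h1 : σ = 1 := Subtype.ext h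
    rw [h1, orderOf_one] at hσ
    exact (Fact.out : ℓ.Prime).one_lt.ne hσ
  have hpow : (σ : MulAut V₀) ^ ℓ = 1 := by
    rw [← hσ]
    have h1 := pow_orderOf_eq_one σ
    have h2 := congrArg (Subtype.val) h1
    exact h2
  have hP : IsPGroup ℓ (Subgroup.zpowers (σ : MulAut V₀)) := by
    rintro ⟨x, hx⟩
    obtain ⟨k, rfl⟩ := Subgroup.mem_zpowers_iff.1 hx
    refine ⟨1, Subtype.ext ?_⟩
    change ((σ : MulAut V₀) ^ k) ^ ℓ ^ 1 = 1
    rw [pow_one, ← zpow_natCast, ← zpow_mul, mul_comm, zpow_mul, zpow_natCast, hpow, one_zpow]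
  have h1 : (1 : V₀) ∈ MulAction.fixedPoints (Subgroup.zpowers (σ : MulAut V₀)) V₀ := by
    intro g
    exact smul_one g
  obtain ⟨b, hb, hne⟩ := hP.exists_fixed_point_of_prime_dvd_card_of_fixed_point V₀
    (by rw [hFr.cd]; exact dvd_pow_self ℓ two_ne_zero) h1
  have h2 := hb ⟨(σ : MulAut V₀), Subgroup.mem_zpowers _⟩
  exact hne (hFr.fr σ σ.2 hσ1 b h2).symm

/-- row CMP -/
theorem cmp (cmb : CmbStmt) : CmpStmt := by
  intro ℓ _ M _ hM hℓ2 V₀ _ _ E₀ hFr k U hU1 hU2 hU3 r hr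
  have hℓ : ℓ.Prime := Fact.out
  obtain ⟨G, _, _, B, hSb, hn, hEl, hD, hS, hW⟩ := cmb ℓ M hM hℓ2 V₀ hFr.ex hFr.cd E₀
    (not_dvd_of_fr hFr) k U hU1 hU2 hU3
  have hfree : ∀ W : Subgroup V₀, W ≠ ⊥ → ∀ σ ∈ E₀, (∀ w ∈ W, σ w = w) → σ = 1 := by
    intro W hW0 σ hσ hfix
    by_contra h1
    apply hW0
    rw [Subgroup.eq_bot_iff_forall]
    intro w hw
    exact hFr.fr σ hσ h1 w (hfix w hw)
  -- the exponent
  obtain ⟨a, c, hc, hcard⟩ := Nat.exists_eq_pow_mul_and_not_dvd (n := Nat.card G)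
    Nat.card_pos.ne' ℓ hℓ.ne_one
  have hco : Nat.Coprime ℓ c := (Nat.Prime.coprime_iff_not_dvd hℓ).2 hc
  obtain ⟨m, hm1, hm2⟩ := Nat.chineseRemainder hco 1 0
  have hmc : c ∣ m := (Nat.modEq_zero_iff_dvd).1 hm2
  refine ⟨G, inferInstance, inferInstance, B, m, ⟨hSb, ?_, ?_, ?_⟩, ⟨⟨r, hr, rfl⟩, ?_, ?_, ?_⟩, hn,
    ?_⟩
  · intro W hW0
    rw [hD W]
    exact (hW W hW0 (hfree W hW0)).1
  · intro W _
    exact Or.inl (hS W)
  · intro W hW0
    exact (hW W hW0 (hfree W hW0)).2.1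
  · have h1 : m % ℓ = 1 % ℓ := hm1
    rw [h1]
    exact Nat.mod_eq_of_lt hℓ.one_lt
  · intro g hg
    have h1 := hEl g hg
    refine ⟨?_, ?_⟩
    · have h2 : g ^ m = g ^ 1 := by
        rw [pow_eq_pow_iff_modEq]
        exact hm1.of_dvd (orderOf_dvd_of_pow_eq_one h1)
      rw [h2, pow_one]
    · obtain ⟨s, rfl⟩ : ∃ s, r = s + 1 := ⟨r - 1, by omega⟩
      rw [pow_succ', pow_mul, h1, one_pow]
  · intro g hg
    have h1 : orderOf g ∣ ℓ ^ a * c := by
      rw [← hcard]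
      exact orderOf_dvd_natCard g
    have h2 : orderOf g ∣ c := by
      refine Nat.Coprime.dvd_of_dvd_mul_left ?_ h1
      exact Nat.Coprime.pow_right a hg
    exact orderOf_dvd_iff_pow_eq_one.1 (h2.trans hmc)
  · intro W hW0
    exact (hW W hW0 (hfree W hW0)).2.2

end Pool.Agent.PP.SO.H65
end
end -- Pool.Agent.Helper65_ASO.CMP

section -- Pool.Agent.Helper7_ASO.K2B

/-!
# ASO, row K2B (helper7)
-/

open scoped BigOperators

noncomputable section

namespace Pool.Agent.PP.SO.H7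

open Pool.Agent.Helper51_AWC Pool.Agent.Helper79_WRA Pool.Agent.PP Pool.Agent.PP.KF
open Pool.Agent.PP.K9 Pool.Agent.PP.K9.H97 Pool.Agent.PP.H75 Pool.Agent.PP.T3

attribute [local instance] Ideal.Quotient.field

theorem int_dvd {ℓ : ℕ} [Fact ℓ.Prime] {a : ℤ} {q : ℚ} (hq : q ∈ SOR.Rl ℓ)
    (h : (a : ℚ) = 1 + ℓ * q) : (ℓ : ℤ) ∣ a - 1 := by
  have hp : Prime (ℓ : ℤ) := Nat.prime_iff_prime_int.1 Fact.out
  have hd : ¬ ℓ ∣ q.den := hq
  have h1 : (q.num : ℚ) = q * q.den := (Rat.mul_den_eq_num q).symm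
  have h2 : ((a - 1) * q.den : ℚ) = ℓ * q.num := by
    rw [h1, h]
    ring
  have h3 : (a - 1) * (q.den : ℤ) = ℓ * q.num := by exact_mod_cast h2
  have h4 : (ℓ : ℤ) ∣ (a - 1) * (q.den : ℤ) := ⟨_, h3⟩
  rcases hp.dvd_or_dvd h4 with h5 | h5
  · exact h5
  · exact absurd (Int.natCast_dvd_natCast.1 h5) hd

theorem k2b (hK : KcmStmt) (hC : CmpStmt) (hP : PexStmt) (hJ : CjtStmt) : K2bStmt := by
  intro ℓ _ M _ hM h5 V₀ G _ _ _ _ E₀ hFr B hB
  have h2 : ℓ ≠ 2 := by omega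
  have htop : (⊤ : Subgroup V₀) ≠ ⊥ := by
    intro h
    have h1 : Nat.card (⊤ : Subgroup V₀) = 1 := by rw [h]; exact Subgroup.card_bot
    rw [Subgroup.card_top, hFr.cd] at h1
    have : 5 ^ 2 ≤ ℓ ^ 2 := Nat.pow_le_pow_left h5 2
    omega
  have hUtop : B.U ⊤ = 1 := by
    obtain ⟨q, hq, hU⟩ := hB.un ⊤ htop
    have key : ∀ a : ℤ, (a = 0 ∨ a = 1 ∨ a = -1) → B.U ⊤ = (a : ℚ) → B.U ⊤ = 1 := by
      intro a ha hUa
      rw [hUa] at hU
      have h3 := int_dvd hq hU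
      rcases ha with rfl | rfl | rfl
      · exfalso
        have h4 := Int.le_of_dvd (by norm_num) ((dvd_neg (a := (ℓ : ℤ))).2 h3)
        omega
      · rw [hUa]
        norm_num
      · exfalso
        have h4 := Int.le_of_dvd (by norm_num) ((dvd_neg (a := (ℓ : ℤ))).2 h3)
        omega
    by_cases hx : ((Nat.card (B.C ⊤) : ℚ) * B.D ⊤) = 0
    · refine key 0 (Or.inl rfl) ?_
      unfold Bk.U
      rw [hx, div_zero]
      simp
    · refine key (B.S ⊤) ?_ ?_
      · rcases hB.sg ⊤ htop with h | h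
        · exact Or.inr (Or.inl h)
        · exact Or.inr (Or.inr h)
      · unfold Bk.U
        rw [mul_assoc, mul_div_assoc, div_self hx, mul_one]
  have hinv : ∀ W, W ≠ ⊥ → ∀ σ ∈ E₀, B.U (W.map (σ : V₀ ≃* V₀).toMonoidHom) = B.U W := by
    intro W hW σ hσ
    obtain ⟨t, ht, ht2⟩ := hB.sur σ hσ
    exact ((hJ ℓ M hM h2 V₀ G E₀ hFr B hB σ hσ t ht ht2 W).2.2.2.2.2 hW).2.2
  obtain ⟨r, m, hr, hm⟩ := hP ℓ G
  obtain ⟨K, hKK⟩ := hK ℓ M hM h5 V₀ E₀ hFr (ℓ ^ r)
  obtain ⟨G', _, _, B', m', hB', hm', hcard, hcong⟩ := hC ℓ M hM h2 V₀ E₀ hFr K B.U hUtop hB.un hinv r hr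
  have h6 := hKK G G' B B' m m' hB hB' hm hm' (fun W hW => by
    obtain ⟨q, hq, hq2⟩ := hcong W hW
    refine ⟨-q, (SOR.Rl ℓ).neg_mem hq, ?_⟩
    rw [mul_neg, ← hq2]
    ring)
  rw [hcard] at h6
  exact h6

end Pool.Agent.PP.SO.H7
end
end -- Pool.Agent.Helper7_ASO.K2B
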