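import Pool.Agent.Helper12_AWB.B129
import Pool.Agent.Helper12_AWB.B131
import Pool.Agent.Helper12_AWB.B179

/-!
# Merged copies (generated) of the modules

* `Pool.Agent.ASE.StmtsX`
* `Pool.Agent.ASE.Stmts7`
-/

set_option autoImplicit false

section -- Pool.Agent.ASE.StmtsX

/-!
# Squad ASE: the interfaces of the blocks of statements

Text: `Pool/Agent/ASE/AWC_SOE.md`.  The statements of this file are the outputs of the blocks; they are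
proved from the rows of `Stmts2`, `Stmts3`, `Stmts5`, `Stmts6`, `Stmts7`, `Stmts8`.
-/

open scoped BigOperators

noncomputable section

namespace Pool.Agent.PP.SE

open Pool.Agent.Helper51_AWC Pool.Agent.Helper79_WRA Pool.Agent.PP Pool.Agent.PP.KF
open Pool.Agent.PP.K9 Pool.Agent.PP.K9.H97 Pool.Agent.PP.H75 Pool.Agent.PP.T3 Pool.Agent.PP.SO
open Pool.Agent.PP.SD

attribute [local instance] Ideal.Quotient.field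

section defs

variable {V₀ G : Type} [CommGroup V₀] [Group G] {M : Ideal (integralClosure ℤ ℂ)} [M.IsMaximal]

/-- The main part of the relation (section 5.5 of the text). -/
def MNE (ℓ : ℕ) (E₀ : Subgroup (MulAut V₀)) (B : Bk (FF M) V₀ G) (D : Rd V₀ G) (x₁ x₂ : V₀ → ℤ)
    (c d : V₀) : ℂ :=
  ((x₁ c⁻¹ * x₂ d⁻¹ : ℤ) : ℂ) / (ℓ : ℂ) ^ 2 * NN B (mnl E₀ B c ⊥) (mnl E₀ B d ⊥) -
  (∑ᶠ a ∈ {a : Subgroup V₀ | a ∈ RL ℓ E₀ ∧ c ∉ a},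
    ((x₁ (pr ℓ E₀ a c)⁻¹ * x₂ d⁻¹ : ℤ) : ℂ) / (ℓ : ℂ) ^ 2 *
      NN B (etl B D a (pr ℓ E₀ a c) ⊥) (mnl E₀ B d ⊥)) -
  (∑ᶠ b ∈ {b : Subgroup V₀ | b ∈ RL ℓ E₀ ∧ d ∉ b},
    ((x₁ c⁻¹ * x₂ (pr ℓ E₀ b d)⁻¹ : ℤ) : ℂ) / (ℓ : ℂ) ^ 2 *
      NN B (mnl E₀ B c ⊥) (etl B D b (pr ℓ E₀ b d) ⊥)) -
  ∑ᶠ σ ∈ {σ : MulAut V₀ | σ ∈ E₀ ∧ c * σ d ≠ 1},
    (((cS D.U c d σ (Subgroup.zpowers (c * σ d)) : ℚ) : ℂ) *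
      (((x₁ (c * σ d)⁻¹ * x₂ (σ⁻¹ (c * σ d))⁻¹ : ℤ) : ℂ) / (ℓ : ℂ) ^ 2) *
        LL B (mnl E₀ B (c * σ d) ⊥) -
      ∑ᶠ a ∈ {a : Subgroup V₀ | a ∈ RL ℓ E₀ ∧ c * σ d ∉ a}, ((cS D.U c d σ a : ℚ) : ℂ) *
        (((x₁ (pr ℓ E₀ a (c * σ d))⁻¹ * x₂ (σ⁻¹ (pr ℓ E₀ a (c * σ d)))⁻¹ : ℤ) : ℂ) /
          (ℓ : ℂ) ^ 2) * LL B (etl B D a (pr ℓ E₀ a (c * σ d)) ⊥))

/-- the value of `χ` at the section of `i(x)` and `g`, divided by the degree -/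
def Vx (B : Bk (FF M) V₀ G) (χ : G → ℂ) (x : V₀) : ℂ :=
  (B.D ⊤ : ℂ)⁻¹ * ∑ᶠ s, bh B ⊤ s * χ (B.i x * s)

/-- An equivariant choice of characters with trivial central character on `i(W)`; only used for the
`W ∈ R` with `|St E₀ W| = ℓ - 1`. -/
structure Xc (ℓ : ℕ) (E₀ : Subgroup (MulAut V₀)) (B : Bk (FF M) V₀ G)
    (xc : Subgroup V₀ → G → ℂ) : Prop where
  m : ∀ W ∈ RL ℓ E₀, nS E₀ W = ℓ - 1 → xc W ∈ Ch B W ∧ ∀ w ∈ W, nu B (xc W) w = 1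
  e : ∀ W ∈ RL ℓ E₀, nS E₀ W = ℓ - 1 → ∀ σ ∈ E₀, ∀ t ∈ Tg B.i.range B.g,
    (∀ v, t * B.i v * t⁻¹ = B.i (σ v)) → xc (mp σ W) = fun g => xc W (t⁻¹ * g * t)

/-- `χ ∈ Ch B W` is exceptional. -/
def Exc (ℓ : ℕ) (E₀ : Subgroup (MulAut V₀)) (B : Bk (FF M) V₀ G) (xc : Subgroup V₀ → G → ℂ)
    (W : Subgroup V₀) (χ : G → ℂ) : Prop :=
  χ ∈ Ch B W ∧ ((nS E₀ W = ℓ - 1 ∧ χ = xc W) ∨ ∃ x y, x ∉ W ∧ y ∉ W ∧ pr ℓ E₀ W x = 1 ∧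
    pr ℓ E₀ W y = 1 ∧ Vx B χ x ≠ Vx B χ y)

/-- The number of the orbits of `St E₀ W` on the set of the nontrivial linear characters of `V₀` which are
trivial on `W`, mapped to themselves by `g`. -/
def oW (E₀ : Subgroup (MulAut V₀)) (W : Subgroup V₀) (g : MulAut V₀) : ℕ :=
  {O : Set (V₀ → ℂ) | ∃ s ∈ lin V₀, (∃ x, s x ≠ 1) ∧ (∀ w ∈ W, s w = 1) ∧
    O = {s' | ∃ τ ∈ St E₀ W, s' = fun x => s (τ x)} ∧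
    {s' | ∃ s ∈ O, s' = fun x => s (g x)} = O}.ncard

/-- the subgroup of the inertial group which belongs to `E₁` -/
def TE (B : Bk (FF M) V₀ G) (E₁ : Subgroup (MulAut V₀)) : Subgroup G where
  carrier := {t | t ∈ Tg B.i.range B.g ∧ ∃ σ ∈ E₁, ∀ v, t * B.i v * t⁻¹ = B.i (σ v)}
  one_mem' := ⟨Subgroup.one_mem _, 1, E₁.one_mem, fun v => by simp⟩
  mul_mem' := by
    rintro a b ⟨ha, σ, hσ, h⟩ ⟨hb, τ, hτ, h'⟩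
    refine ⟨Subgroup.mul_mem _ ha hb, σ * τ, E₁.mul_mem hσ hτ, fun v => ?_⟩
    rw [MulAut.mul_apply, ← h, ← h']
    group
  inv_mem' := by
    rintro a ⟨ha, σ, hσ, h⟩
    refine ⟨Subgroup.inv_mem _ ha, σ⁻¹, E₁.inv_mem hσ, fun v => ?_⟩
    have h1 := h (σ⁻¹ v)
    rw [MulAut.apply_inv_self] at h1
    rw [← h1]
    group

/-- the number of the irreducible modular characters of the group `TE B E₁` in `g` -/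
def Lam (B : Bk (FF M) V₀ G) (E₁ : Subgroup (MulAut V₀)) : ℕ := ln (fun t : TE B E₁ => B.g t)

end defs

/-! ## Block R (helper66, helper32): universal functions, sums over the block -/

/-- RTE: the relation with universal functions for all labels (section 4).

Proof.  The functions of `Helper32_SOR/UNI.lean`: as RTY (`Helper66_SOR/StmtX.lean`), with the explicit
functions; `Psi'` is affine in `r₁ p₀`, `r₂ p₀`, and its branch does not depend on `p₀`. -/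
def RteStmt : Prop := ∀ (ℓ : ℕ) [Fact ℓ.Prime] (V₀ : Type) [CommGroup V₀] [Finite V₀],
  (∀ v : V₀, v ^ ℓ = 1) → ∀ (n : ℕ) (ρ₁ ρ₂ : V₀ → ZMod ℓ), (∃ r, 0 < r ∧ n = ℓ ^ r) → Hm ρ₁ →
  Hm ρ₂ → ∀ (x₁ x₂ : V₀ → ℤ), Lf ρ₁ x₁ → Lf ρ₂ x₂ →
  ∃ (F₁₃ Ψ M₁ M₂ : Set (SO.SS n V₀) → ℚ) (K : Set (Fin n × V₀ × V₀) → ℚ),
    FE ℓ n ρ₁ ρ₂ x₁ x₂ F₁₃ Ψ M₁ M₂ K ∧
    ∀ (kc kd : V₀) (G : Type) [Group G] [Finite G] (m : ℕ) (ι : V₀ →* G), Function.Injective ι →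
      PE ℓ n m G → Rel ℓ n m ι kc kd F₁₃ (F12 ℓ x₁ x₂ Ψ M₁ M₂ K kc kd)

/-- HSE: the sums over the block (section 6), for every datum with `Rs` (no regular element needed).

(1) (6.2) the values are in `RM M`, the sums of the values over the block are rational and in `Rl ℓ`,
invariant under `c ↦ c ^ j`, `ℓ ∤ j`; (2) (6.4), (6.5) the same for the labels `et`, their values are in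
`ℓ RM M`; (3) (6.6) the two relations modulo `ℓ ^ 2`; (4) (6.5) the relations modulo `ℓ ^ 2` for `et`.
`D c = LL (mn c)`, `N c d = NN (mn c) (mn d)`, `Z a κ = LL (et a κ)`, `Y a κ d = NN (et a κ) (mn d)`. -/
def HseStmt : Prop := ∀ (ℓ : ℕ) [Fact ℓ.Prime] (M : Ideal (integralClosure ℤ ℂ)) [M.IsMaximal],
  (ℓ : integralClosure ℤ ℂ) ∈ M → ℓ ≠ 2 → ∀ (V₀ G : Type) [CommGroup V₀] [Finite V₀] [Group G]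
  [Finite G] (E₀ : Subgroup (MulAut V₀)), Fq ℓ V₀ E₀ → ∀ B : Bk (FF M) V₀ G, Sd ℓ M E₀ B →
  ∀ D : Rd V₀ G, Rs ℓ E₀ B D → ∃ (d₁ : V₀ → ℚ) (n₁ : V₀ → V₀ → ℚ) (z₁ : Subgroup V₀ → V₀ → ℚ)
    (y₁ : Subgroup V₀ → V₀ → V₀ → ℚ),
    ((∀ c, c ≠ 1 → LL B (mnl E₀ B c ⊥) = (d₁ c : ℂ) ∧ d₁ c ∈ SOR.Rl ℓ) ∧
      (∀ c d, c ≠ 1 → d ≠ 1 → NN B (mnl E₀ B c ⊥) (mnl E₀ B d ⊥) = (n₁ c d : ℂ) ∧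
        NN B (mnl E₀ B d ⊥) (mnl E₀ B c ⊥) = (n₁ c d : ℂ) ∧ n₁ c d ∈ SOR.Rl ℓ) ∧
      ∀ c, ∀ j : ℕ, ¬ ℓ ∣ j → d₁ (c ^ j) = d₁ c) ∧
    (∀ a ∈ RL ℓ E₀, ∀ κ ∈ a, LL B (etl B D a κ ⊥) = (z₁ a κ : ℂ) ∧
      (∃ q ∈ SOR.Rl ℓ, z₁ a κ = ℓ * q) ∧ (∃ q ∈ SOR.Rl ℓ, z₁ a κ - z₁ a 1 = ℓ ^ 2 * q) ∧
      ∀ d, d ≠ 1 → NN B (etl B D a κ ⊥) (mnl E₀ B d ⊥) = (y₁ a κ d : ℂ) ∧
        NN B (mnl E₀ B d ⊥) (etl B D a κ ⊥) = (y₁ a κ d : ℂ) ∧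
        ∃ q ∈ SOR.Rl ℓ, y₁ a κ d = ℓ * q) ∧
    (∀ a ∈ RL ℓ E₀, ∀ κ ∈ a, ∀ d, d ≠ 1 → ∃ q ∈ SOR.Rl ℓ,
      ∑ t ∈ Finset.Icc 1 (ℓ - 1), ∑ s ∈ Finset.Icc 1 (ℓ - 1), y₁ a (κ ^ t) (d ^ s) -
        Nat.card E₀ * z₁ a 1 = ℓ ^ 2 * q) ∧
    (∀ c d, c ≠ 1 → d ≠ 1 → ∃ q ∈ SOR.Rl ℓ,
      ∑ t ∈ Finset.Icc 1 (ℓ - 1), ∑ s ∈ Finset.Icc 1 (ℓ - 1), n₁ (c ^ t) (d ^ s) +
        Nat.card E₀ * (ℓ - 1) * (d₁ c + d₁ d) +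
        (Nat.card E₀ : ℚ) ^ 2 * (IrrE M B.e).ncard = ℓ ^ 2 * q) ∧
    ∃ q ∈ SOR.Rl ℓ, ∑ᶠ c ∈ {c : V₀ | c ≠ 1}, d₁ c + Nat.card E₀ * (IrrE M B.e).ncard = ℓ ^ 2 * q

/-! ## Block W (helper71): the relation -/

/-- FIE: the relation (5.5). -/
def FieStmt : Prop := ∀ (ℓ : ℕ) [Fact ℓ.Prime] (M : Ideal (integralClosure ℤ ℂ)) [M.IsMaximal],
  (ℓ : integralClosure ℤ ℂ) ∈ M → ℓ ≠ 2 → ∀ (V₀ G : Type) [CommGroup V₀] [Finite V₀] [Group G]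
  [Finite G] (E₀ : Subgroup (MulAut V₀)), Fq ℓ V₀ E₀ → ∀ B : Bk (FF M) V₀ G, Sd ℓ M E₀ B →
  ∀ D : Rd V₀ G, Rs ℓ E₀ B D → ∀ n m : ℕ, PE ℓ n m G →
  ∀ (ρ₁ ρ₂ : V₀ → ZMod ℓ) (x₁ x₂ : V₀ → ℤ), Hm ρ₁ → Hm ρ₂ → Lf ρ₁ x₁ → Lf ρ₂ x₂ →
  ∀ (F₁₃ Ψ M₁ M₂ : Set (SO.SS n V₀) → ℚ) (K : Set (Fin n × V₀ × V₀) → ℚ),
  FE ℓ n ρ₁ ρ₂ x₁ x₂ F₁₃ Ψ M₁ M₂ K →
  (∀ kc kd, Rel ℓ n m B.i kc kd F₁₃ (F12 ℓ x₁ x₂ Ψ M₁ M₂ K kc kd)) → ∀ c d : V₀, c ≠ 1 → d ≠ 1 →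
  MNE ℓ E₀ B D x₁ x₂ c d +
    ((PPE ℓ E₀ D.U D.fx c d F₁₃ (F12 ℓ x₁ x₂ Ψ M₁ M₂ K c d) : ℚ) : ℂ) ∈ RM M

/-- PPC: continuity of the exact local part. -/
def PpcStmt : Prop := ∀ (ℓ : ℕ) [Fact ℓ.Prime] (V₀ : Type) [CommGroup V₀] [Finite V₀]
  (E₀ : Subgroup (MulAut V₀)) (n : ℕ) (c d : V₀) (fx : Subgroup V₀ → MulAut V₀ → ℚ)
  (F₁₃ F₁₂ : Set (SO.SS n V₀) → ℚ), ∃ K₀ : ℕ, ∀ K, K₀ ≤ K → ∀ U U' : Subgroup V₀ → ℚ,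
  (∀ W, W ≠ ⊥ → ∃ q ∈ SOR.Rl ℓ, U W = 1 + ℓ * q) →
  (∀ W, W ≠ ⊥ → ∃ q ∈ SOR.Rl ℓ, U' W = 1 + ℓ * q) →
  (∀ W, W ≠ ⊥ → ∃ q ∈ SOR.Rl ℓ, U W - U' W = ℓ ^ K * q) →
  ∀ fx' : Subgroup V₀ → MulAut V₀ → ℚ,
  (∀ W, W ≠ ⊥ → ∀ g ∈ E₀, mp g W = W → fx' W g = fx W g) →
  PPE ℓ E₀ U fx c d F₁₃ F₁₂ - PPE ℓ E₀ U' fx' c d F₁₃ F₁₂ ∈ SOR.Rl ℓ

/-! ## Block S (helper98): existence of `Rs` -/

/-- RSX: existence of the local data (section 2). -/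
def RsxStmt : Prop := ∀ (ℓ : ℕ) [Fact ℓ.Prime] (M : Ideal (integralClosure ℤ ℂ)) [M.IsMaximal],
  (ℓ : integralClosure ℤ ℂ) ∈ M → ℓ ≠ 2 → ∀ (V₀ G : Type) [CommGroup V₀] [Finite V₀] [Group G]
  [Finite G] (E₀ : Subgroup (MulAut V₀)), Fq ℓ V₀ E₀ → ∀ B : Bk (FF M) V₀ G, Sd ℓ M E₀ B →
  ∀ xc : Subgroup V₀ → G → ℂ, Xc ℓ E₀ B xc → ∃ D : Rd V₀ G, Rs ℓ E₀ B D ∧
    (∀ W, Rw E₀ W → D.U W = B.U W) ∧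
    (∀ W ∈ RL ℓ E₀, ∀ χ, Exc ℓ E₀ B xc W χ →
      (D.U W : ℂ) = Nat.card (B.C W) * B.D ⊤ / (Nat.card (B.C ⊤) * χ 1) ∨
      (D.U W : ℂ) = -(Nat.card (B.C W) * B.D ⊤ / (Nat.card (B.C ⊤) * χ 1))) ∧
    (∀ W ∈ RL ℓ E₀, ∀ g ∈ St E₀ W, D.fx W g = nS E₀ W) ∧
    ∀ W ∈ RL ℓ E₀, ∀ g ∈ E₀, mp g W = W → g ∉ St E₀ W →
      ({χ | χ ∈ Ch B W ∧ ac B g χ = χ}.ncard : ℚ) = D.fx W g + oW E₀ W g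

/-! ## Block L (helper57): comparison of two data, linear algebra -/

/-- CME: comparison of two data (section 7). -/
def CmeStmt : Prop := ∀ (ℓ : ℕ) [Fact ℓ.Prime] (M : Ideal (integralClosure ℤ ℂ)) [M.IsMaximal],
  (ℓ : integralClosure ℤ ℂ) ∈ M → 5 ≤ ℓ → ∀ (V₀ G : Type) [CommGroup V₀] [Finite V₀] [Group G]
  [Finite G] (E₀ : Subgroup (MulAut V₀)), Fq ℓ V₀ E₀ → ∀ B : Bk (FF M) V₀ G, Sd ℓ M E₀ B →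
  ∀ D : Rd V₀ G, Rs ℓ E₀ B D → ∀ r : ℕ, 0 < r → (∃ m, PE ℓ (ℓ ^ r) m G) → ∃ K : ℕ,
  ∀ (G' : Type) [Group G'] [Finite G'] (B' : Bk (FF M) V₀ G') (D' : Rd V₀ G'), Sd ℓ M E₀ B' →
  Rs ℓ E₀ B' D' → (∃ m, PE ℓ (ℓ ^ r) m G') →
  (∀ W, W ≠ ⊥ → ∃ q ∈ SOR.Rl ℓ, D.U W - D'.U W = ℓ ^ K * q) →
  (∀ W, W ≠ ⊥ → ∀ g ∈ E₀, mp g W = W → D'.fx W g = D.fx W g) →
  ((ℓ ^ 2 : ℕ) : ℤ) ∣ ((IrrE M B.e).ncard : ℤ) - (IrrE M B'.e).ncard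

/-! ## Block C (helper43): fixed characters, comparison group, final deduction -/

/-- LME: the numbers of modular characters of the local blocks (8.1). -/
def LmeStmt : Prop := ∀ (ℓ : ℕ) [Fact ℓ.Prime] (M : Ideal (integralClosure ℤ ℂ)) [M.IsMaximal],
  (ℓ : integralClosure ℤ ℂ) ∈ M → ℓ ≠ 2 → ∀ (V₀ G : Type) [CommGroup V₀] [Finite V₀] [Group G]
  [Finite G] (E₀ : Subgroup (MulAut V₀)), Fq ℓ V₀ E₀ → ∀ B : Bk (FF M) V₀ G, Sb ℓ M E₀ B →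
  (∀ v, v ≠ 1 → ln (fun t : B.C (Subgroup.zpowers v) => B.b (Subgroup.zpowers v) t) =
    Lam B (Es E₀ v)) ∧ Lam B E₀ = lT B ∧
  ∀ E₁ ≤ E₀, IsCyclic E₁ → Lam B E₁ = Nat.card E₁

/-- FXE: equal numbers of modular characters imply equal numbers of fixed characters (8.3). -/
def FxeStmt : Prop := ∀ (ℓ : ℕ) [Fact ℓ.Prime] (M : Ideal (integralClosure ℤ ℂ)) [M.IsMaximal],
  (ℓ : integralClosure ℤ ℂ) ∈ M → ℓ ≠ 2 → ∀ (V₀ G G' : Type) [CommGroup V₀] [Finite V₀] [Group G]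
  [Finite G] [Group G'] [Finite G'] (E₀ : Subgroup (MulAut V₀)), Fq ℓ V₀ E₀ →
  ∀ (B : Bk (FF M) V₀ G) (B' : Bk (FF M) V₀ G'), Sb ℓ M E₀ B → Sb ℓ M E₀ B' →
  (∀ E₁ ≤ E₀, Lam B E₁ = Lam B' E₁) → ∀ W : Subgroup V₀, Nat.card W = ℓ → ∀ g ∈ E₀, mp g W = W →
  {χ | χ ∈ Ch B W ∧ ac B g χ = χ}.ncard = {χ | χ ∈ Ch B' W ∧ ac B' g χ = χ}.ncard

/-- CGE: the comparison datum (8.4). -/
def CgeStmt : Prop := ∀ (ℓ : ℕ) [Fact ℓ.Prime] (M : Ideal (integralClosure ℤ ℂ)) [M.IsMaximal],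
  (ℓ : integralClosure ℤ ℂ) ∈ M → ℓ ≠ 2 → ∀ (V₀ G : Type) [CommGroup V₀] [Finite V₀] [Group G]
  [Finite G] (E₀ : Subgroup (MulAut V₀)), Fq ℓ V₀ E₀ → ∀ B : Bk (FF M) V₀ G, Sd ℓ M E₀ B →
  ∀ (K : ℕ) (U : Subgroup V₀ → ℚ), U ⊤ = 1 →
  (∀ W, W ≠ ⊥ → ∃ q ∈ SOR.Rl ℓ, U W = 1 + ℓ * q) →
  (∀ W, W ≠ ⊥ → ∀ σ ∈ E₀, U (mp σ W) = U W) →
  ∃ (G' : Type) (_ : Group G') (_ : Finite G') (B' : Bk (FF M) V₀ G') (xc : Subgroup V₀ → G' → ℂ)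
    (κ : Subgroup V₀ → ℕ), Sd ℓ M E₀ B' ∧
    (∀ r, 0 < r → (∃ m, PE ℓ (ℓ ^ r) m G) → ∃ m, PE ℓ (ℓ ^ r) m G') ∧
    (∀ E₁ ≤ E₀, Lam B E₁ = Lam B' E₁) ∧ ln B'.e = lT B' ∧ Xc ℓ E₀ B' xc ∧
    (∀ W, Rw E₀ W → B'.U W = κ W) ∧
    (∀ W ∈ RL ℓ E₀, ∃ χ, Exc ℓ E₀ B' xc W χ ∧
      Nat.card (B'.C W) * B'.D ⊤ / (Nat.card (B'.C ⊤) * χ 1) = (κ W : ℂ)) ∧
    ∀ W, W ≠ ⊥ → ∃ q ∈ SOR.Rl ℓ, U W - κ W = ℓ ^ K * q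

/-- XCE: the choice of the characters (8.5), from CGE for `U = 1` and FXE. -/
def XceStmt : Prop := ∀ (ℓ : ℕ) [Fact ℓ.Prime] (M : Ideal (integralClosure ℤ ℂ)) [M.IsMaximal],
  (ℓ : integralClosure ℤ ℂ) ∈ M → ℓ ≠ 2 → ∀ (V₀ G : Type) [CommGroup V₀] [Finite V₀] [Group G]
  [Finite G] (E₀ : Subgroup (MulAut V₀)), Fq ℓ V₀ E₀ → ∀ B : Bk (FF M) V₀ G, Sd ℓ M E₀ B →
  ∃ xc : Subgroup V₀ → G → ℂ, Xc ℓ E₀ B xc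

/-- KAE: the number of modular characters modulo `ℓ ^ 2`, from RSX, CME, LME, FXE, CGE, XCE and KLD. -/
def KaeStmt : Prop := ∀ (ℓ : ℕ) [Fact ℓ.Prime] (M : Ideal (integralClosure ℤ ℂ)) [M.IsMaximal],
  (ℓ : integralClosure ℤ ℂ) ∈ M → 5 ≤ ℓ → ∀ (V₀ G : Type) [CommGroup V₀] [Finite V₀] [Group G]
  [Finite G] (E₀ : Subgroup (MulAut V₀)), Fq ℓ V₀ E₀ → ∀ B : Bk (FF M) V₀ G, Sd ℓ M E₀ B →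
  ((ℓ ^ 2 : ℕ) : ℤ) ∣ (ln B.e : ℤ) - lT B

/-- S2F: the theorem for block idempotents. -/
def S2fStmt : Prop := ∀ (ℓ : ℕ) [Fact ℓ.Prime] (M : Ideal (integralClosure ℤ ℂ)) [M.IsMaximal],
  (ℓ : integralClosure ℤ ℂ) ∈ M → 5 ≤ ℓ → ∀ (G : Type) [Group G] [Finite G] (e : G → FF M)
  (V : Subgroup G) (γ : G → FF M), Ld ℓ e V γ → (∀ v ∈ V, v ^ ℓ = 1) → Nat.card V = ℓ ^ 2 →
  YY ℓ ⊤ e = 0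

/-- FNA: the final theorem.  `D` need not be abelian (`D/O_ℓ(G)` is). -/
def FnaStmt : Prop := ∀ (ℓ : ℕ) [Fact ℓ.Prime] (M : Ideal (integralClosure ℤ ℂ)) [M.IsMaximal],
  (ℓ : integralClosure ℤ ℂ) ∈ M → 5 ≤ ℓ → ∀ (G : Type) [Group G] [Finite G],
  opCore ℓ G ≤ Subgroup.center G → ∀ χ ∈ Irr G, ∀ D : Subgroup G, ML.IsDef ℓ M χ D →
  Nat.card D = ℓ ^ 2 * Nat.card (opCore ℓ G) → altSum ℓ M χ = 0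

end Pool.Agent.PP.SE
end
end -- Pool.Agent.ASE.StmtsX

section -- Pool.Agent.ASE.Stmts7

/-!
# Squad ASE, statements 7: comparison of two data, linear algebra

Section 7 of `Pool/Agent/ASE/AWC_SOE.md`.  The output is `CmeStmt` (`StmtsX.lean`).
Rows: GXA GID GSC GDP GDI GCO (linear algebra of a plane `V` over `ZMod ℓ`, projections `P a` on lines, numbers `Z a`;
on top of `ASO/StmtsL.lean`), KE1 KE2 KLP KRE (arithmetic), EIV HEX CSB MQC MQA MQB HMX CPX CME (comparison).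

All sums over `Γ`, `V`, `I` and `ZMod ℓ` are sums over finite types.
-/

open scoped BigOperators

noncomputable section

namespace Pool.Agent.PP.SE

open Pool.Agent.Helper51_AWC Pool.Agent.Helper79_WRA Pool.Agent.PP Pool.Agent.PP.KF
open Pool.Agent.PP.K9 Pool.Agent.PP.K9.H97 Pool.Agent.PP.H75 Pool.Agent.PP.T3 Pool.Agent.PP.SO
open Pool.Agent.PP.SD

attribute [local instance] Ideal.Quotient.field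

/-! ## 1. Linear algebra -/

section lin

variable {ℓ : ℕ} [Fact ℓ.Prime] {V Γ I : Type} [AddCommGroup V] [Module (ZMod ℓ) V] [Fintype V]
  [Group Γ] [Fintype Γ] [Fintype I]

/-- The `P a` are projections on lines, each of them belongs to a reflection, they commute with every
operator which commutes with `Γ`, and `∑ Z a P a` commutes with `Γ`. -/
structure LP (ρ : Γ →* Module.End (ZMod ℓ) V) (P : I → Module.End (ZMod ℓ) V)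
    (Z : I → ZMod ℓ) : Prop where
  pp : ∀ a, P a * P a = P a
  tr : ∀ a, LinearMap.trace (ZMod ℓ) V (P a) = 1
  rf : ∀ a, ∃ e, ρ e * P a = P a ∧ ρ e ≠ 1
  cm : ∀ θ : Module.End (ZMod ℓ) V, (∀ e, θ * ρ e = ρ e * θ) → ∀ a, θ * P a = P a * θ
  qc : ∀ e, ρ e * (∑ a, Z a • P a) = (∑ a, Z a • P a) * ρ e

open Classical in
/-- the relation (R) modulo `ℓ` -/
structure LX (ρ : Γ →* Module.End (ZMod ℓ) V) (P : I → Module.End (ZMod ℓ) V) (Z : I → ZMod ℓ)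
    (F : V → ZMod ℓ) (N : V → V → ZMod ℓ) (Y : I → V → V → ZMod ℓ) (s₀ : ZMod ℓ) : Prop where
  n1 : ∀ (φ ψ : V →ₗ[ZMod ℓ] ZMod ℓ) (c d : V), c ≠ 0 → d ≠ 0 →
    N c d * (φ c * ψ d) -
      (∑ a, if P a c = c then 0 else Y a (P a c) d * (φ (P a c) * ψ d)) -
      (∑ a, if P a d = d then 0 else Y a (P a d) c * (φ c * ψ (P a d))) =
    ∑ e : Γ, (F (c + ρ e d) * (φ (c + ρ e d) * ψ (ρ e⁻¹ c + d)) -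
      ∑ a, if P a (c + ρ e d) = c + ρ e d then 0 else
        Z a * (φ (P a (c + ρ e d)) * ψ (ρ e⁻¹ (P a (c + ρ e d)))))
  n2 : ∀ c d : V, c ≠ 0 → d ≠ 0 → ∑ t : (ZMod ℓ)ˣ, ∑ s : (ZMod ℓ)ˣ, N (t • c) (s • d) =
    Fintype.card Γ * (F c + F d) - (Fintype.card Γ : ZMod ℓ) ^ 2 * s₀
  n3 : ∀ a, ∀ κ d : V, P a κ = κ → d ≠ 0 →
    ∑ t : (ZMod ℓ)ˣ, ∑ s : (ZMod ℓ)ˣ, Y a (t • κ) (s • d) = Fintype.card Γ * Z a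

open Classical in
/-- the function `FF` -/
def FFd (P : I → Module.End (ZMod ℓ) V) (Z : I → ZMod ℓ) (F FF : V → ZMod ℓ) : Prop :=
  FF 0 = 0 ∧ ∀ v, v ≠ 0 → FF v = F v + ∑ a, if P a v = v then Z a else 0

/-- the identity (G); `f` is the sum of `FF` over the lines -/
def GG (ρ : Γ →* Module.End (ZMod ℓ) V) (P : I → Module.End (ZMod ℓ) V) (Z : I → ZMod ℓ)
    (FF : V → ZMod ℓ) (f : ZMod ℓ) (h : V → V →ₗ[ZMod ℓ] ZMod ℓ) : Prop :=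
  ∀ c d : V, c ≠ 0 → d ≠ 0 → ∀ φ ψ : V →ₗ[ZMod ℓ] ZMod ℓ,
    (Fintype.card Γ : ZMod ℓ) * ((∑ a, Z a) * (φ c * ψ d) - φ (∑ a, Z a • P a c) * ψ d -
      φ c * ψ (∑ a, Z a • P a d)) +
    ∑ e : Γ, ((f - FF c - FF d) * φ (ρ e d) * ψ (ρ e⁻¹ c) + h c (ρ e d) * φ c * ψ (ρ e⁻¹ c) +
      h d (ρ e⁻¹ c) * φ (ρ e d) * ψ d) +
    ∑ e : Γ, ∑ a, Z a * (φ (P a c) * ψ (ρ e⁻¹ (P a (ρ e d))) +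
      φ (P a (ρ e d)) * ψ (ρ e⁻¹ (P a c))) = 0

end lin

/-- GXA: the sum over the multiples, for one element `e` (part of the `P a`).

Proof.  Expand: the term of `a` is `s⁻¹ Z a φ(P c + s P e d) ψ(e⁻¹ P c + s e⁻¹ P e d)`, for `s ≠ 0`
`= Z a (s⁻¹ φ(P c) ψ(e⁻¹ P c) + [φ(P c) ψ(e⁻¹ P e d) + φ(P e d) ψ(e⁻¹ P c)] + s φ(P e d) ψ(e⁻¹ P e d))`, and `0` for `s = 0`.
`∑ s ≠ 0, s⁻¹ = ∑ s ≠ 0, s = 0` (`ℓ ≠ 2`), and the number of the `s ≠ 0` is `ℓ - 1`, i.e. `- 1`. -/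
def GxaStmt : Prop := ∀ (ℓ : ℕ) [Fact ℓ.Prime] (V Γ I : Type) [AddCommGroup V]
  [Module (ZMod ℓ) V] [Fintype V] [Group Γ] [Fintype Γ] [Fintype I]
  (ρ : Γ →* Module.End (ZMod ℓ) V) (P : I → Module.End (ZMod ℓ) V) (Z : I → ZMod ℓ), ℓ ≠ 2 →
  ∀ (e : Γ) (c d : V) (φ ψ : V →ₗ[ZMod ℓ] ZMod ℓ),
  ∑ s : ZMod ℓ, s⁻¹ * ∑ a, Z a * (φ (P a (c + s • ρ e d)) * ψ (ρ e⁻¹ (P a (c + s • ρ e d)))) =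
    - ∑ a, Z a * (φ (P a c) * ψ (ρ e⁻¹ (P a (ρ e d))) + φ (P a (ρ e d)) * ψ (ρ e⁻¹ (P a c)))

/-- GID: the identity (G).

Proof.  `n = |Γ|`, `Z = ∑ Z a`, `f = n s₀ + Z`, `Q v = ∑ Z a P a v`.  Take `n1` for `t • c`, `s • d` (`t`, `s` units), multiply with
`(t s)⁻¹` and add.  Left side: (i) `n2`: `(n (F c + F d) - n² s₀) φ c ψ d`.  (ii) `P a (t c) = t P a c`, so the condition
`P a (t c) = t c` is `P a c = c`, and `(t s)⁻¹ Y a (t P a c) (s d) t s φ(P a c) ψ d` has the sum `n Z a φ(P a c) ψ d` (`n3` for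
`κ = P a c`, `pp`); the sum over the `a` with `P a c ≠ c` is `n φ(Q c) ψ d - n (∑_(P a c = c) Z a) φ c ψ d`.  (iii) the same for `d`.  By
`FFd` the left side is `(n (FF c + FF d) - n² s₀) φ c ψ d - n φ(Q c) ψ d - n φ c ψ(Q d)`.
Right side: for `κ = c + e d` the term of `e` is `FF κ φ κ ψ(e⁻¹ c + d) - ∑ a, Z a φ(P a κ) ψ(e⁻¹ P a κ)`: if `κ ≠ 0` by `FFd`
(`e⁻¹ κ = e⁻¹ c + d`; the missing terms `P a κ = κ` are `Z a φ κ ψ(e⁻¹ κ)`), if `κ = 0` everything is `0`.  For `(t c, s d)`, `s = t s'`, and the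
factor `(t s)⁻¹ = t⁻² s'⁻¹` this is `s'⁻¹` times the same expression for `c + s' e d` (`LF.fs` for `FF`); so the sum over `t`, `s'` is
`- ∑_(s') s'⁻¹ (..)` (the term `s' = 0` is `0`).  `LT1Stmt` for `FF` and GXA: the right side is
`- ∑ e, ((f - FF c - FF d) (φ(e d) ψ(e⁻¹ c) + φ c ψ d) + h c (e d) φ c ψ(e⁻¹ c) + h d (e⁻¹ c) φ(e d) ψ d) - ∑ e, ∑ a, Z a (..)`.
The terms with `φ c ψ d` add up to `n (FF c + FF d) - n² s₀ + n (f - FF c - FF d) = n Z`. -/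
def GidStmt : Prop := ∀ (ℓ : ℕ) [Fact ℓ.Prime] (V Γ I : Type) [AddCommGroup V]
  [Module (ZMod ℓ) V] [Fintype V] [Group Γ] [Fintype Γ] [Fintype I]
  (ρ : Γ →* Module.End (ZMod ℓ) V) (P : I → Module.End (ZMod ℓ) V) (Z : I → ZMod ℓ)
  (F FF : V → ZMod ℓ) (N : V → V → ZMod ℓ) (Y : I → V → V → ZMod ℓ) (s₀ : ZMod ℓ)
  (h : V → V →ₗ[ZMod ℓ] ZMod ℓ), LP ρ P Z → FFd P Z F FF →
  LF ρ FF (Fintype.card Γ * s₀ + ∑ a, Z a) → HH FF (Fintype.card Γ * s₀ + ∑ a, Z a) h →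
  LX ρ P Z F N Y s₀ → GG ρ P Z FF (Fintype.card Γ * s₀ + ∑ a, Z a) h

/-- GSC: the absolutely irreducible case.

Proof.  `n = |Γ| ≠ 0`, `Z = ∑ Z a`, `f = n s₀ + Z`.  By LAV (`LAvStmt`), for functionals `lam`, `mu` and `c`, `d`:
`2 ∑ e, lam (ρ e⁻¹ c) mu (ρ e d) = n lam d mu c`.  Let `c ≠ 0`, `φ c = 1` (`finrank = 2`, LTB).  (G) for `c = d`, `φ = ψ`.
(1) `Q = ∑ Z a P a` commutes with `Γ` (`qc`), so `n Q = ∑ ρ e Q ρ e⁻¹` is a scalar; the trace of `Q` is `Z` (`tr`), the trace of `1` is `2`: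
`2 Q = Z`.  So `2 (Z - φ(Q c) - φ(Q c)) = 2 Z - 2 Z = 0`: the first term is `0`.
(2) twice the second sum is `n (f - 2 FF c) + 2 n (h c c) = n (f - 2 FF c) + 2 n (FF c - f) = - n f` (`(lam, mu)` = `(φ, φ)`, `(φ, h c)`,
`(h c, φ)`; `HH`: `h c c = FF c - f`).
(3) `∑ e, ρ e⁻¹ P a ρ e` is a scalar `x` (substitution `e ↦ e⁻¹`), `2 x = n` (trace), so twice the first part of the third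
sum is `∑ a, Z a n φ(P a c) = n φ(Q c)`.  Second part: LAV for `lam = φ`, `P a c`, `mu = φ ∘ P a`, `d = c`:
`2 ∑ e, φ(ρ e⁻¹ (P a c)) φ(P a (ρ e c)) = n φ c φ(P a (P a c)) = n φ(P a c)`.  So twice the third sum is `2 n φ(Q c) = n Z`.
Together: `- n f + n Z = 0`, `f = Z`, `n s₀ = 0`, `s₀ = 0`. -/
def GscStmt : Prop := ∀ (ℓ : ℕ) [Fact ℓ.Prime] (V Γ I : Type) [AddCommGroup V]
  [Module (ZMod ℓ) V] [Fintype V] [Group Γ] [Fintype Γ] [Fintype I]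
  (ρ : Γ →* Module.End (ZMod ℓ) V) (P : I → Module.End (ZMod ℓ) V) (Z : I → ZMod ℓ)
  (FF : V → ZMod ℓ) (s₀ : ZMod ℓ) (h : V → V →ₗ[ZMod ℓ] ZMod ℓ), LP ρ P Z →
  LF ρ FF (Fintype.card Γ * s₀ + ∑ a, Z a) → HH FF (Fintype.card Γ * s₀ + ∑ a, Z a) h →
  GG ρ P Z FF (Fintype.card Γ * s₀ + ∑ a, Z a) h →
  (∀ A : Module.End (ZMod ℓ) V, ∃ a : ZMod ℓ, ∑ e : Γ, ρ e * A * ρ e⁻¹ = a • 1) → s₀ = 0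

/-- GDP: an operator `θ` which is not scalar commutes with `Γ`, and there is a reflection.

Proof.  `P = P a₀`.  `P` is not a scalar `x`: `x² = x` and `2 x = 1` (trace) are impossible (`ℓ ≠ 2`).  `θ P = P θ` (`cm`).  By LCM
(`LCmStmt`, `g₀ = P`) every operator which commutes with `θ` is `x + y P`.  (1) `g = ρ e`: put `β e = x`, `α e = x + y`.
`P ≠ 0`, `P ≠ 1` (trace `1`; `0`, `2`), so `α`, `β` are uniquely determined (apply to a vector `P v ≠ 0` and to a vector `v - P v ≠ 0`), and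
`ρ (e e') = ρ e ρ e'`, `ρ 1 = 1` give `α (e e') = α e α e'`, `α 1 = 1`, the same for `β`; so they are not `0`, `α e⁻¹ = (α e)⁻¹`.
(2) `e₀` from `rf`: `ρ e₀ P = P` gives `α e₀ = 1`, `ρ e₀ ≠ 1` gives `β e₀ ≠ 1`.  `S = ∑ e, β e (α e)⁻¹` satisfies `S = β e₀ (α e₀)⁻¹ S`, so
`S = 0`; the same for `α e (β e)⁻¹`.  (3) `g = P b` (`cm` and LCM): `P b = x + y P`; `pp` at the two kinds of vectors: `x² = x`, `(x + y)² = x + y`;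
trace: `2 x + y = 1`, so exactly one of `x`, `x + y` is `1`, the other is `0`: `P b = P` or `P b = 1 - P`. -/
def GdpStmt : Prop := ∀ (ℓ : ℕ) [Fact ℓ.Prime] (V Γ I : Type) [AddCommGroup V]
  [Module (ZMod ℓ) V] [Fintype V] [Group Γ] [Fintype Γ] [Fintype I]
  (ρ : Γ →* Module.End (ZMod ℓ) V) (P : I → Module.End (ZMod ℓ) V) (Z : I → ZMod ℓ), ℓ ≠ 2 →
  Module.finrank (ZMod ℓ) V = 2 → LP ρ P Z → ∀ (a₀ : I) (θ : Module.End (ZMod ℓ) V),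
  (∀ a : ZMod ℓ, θ ≠ a • 1) → (∀ e, θ * ρ e = ρ e * θ) → ∃ (α β : Γ → ZMod ℓ) (v₁ v₂ : V),
  v₁ ≠ 0 ∧ v₂ ≠ 0 ∧ P a₀ v₁ = v₁ ∧ P a₀ v₂ = 0 ∧
  (∀ e, ρ e v₁ = α e • v₁ ∧ ρ e v₂ = β e • v₂ ∧ α e ≠ 0 ∧ β e ≠ 0 ∧ α e⁻¹ = (α e)⁻¹ ∧
    β e⁻¹ = (β e)⁻¹) ∧
  ∑ e, β e * (α e)⁻¹ = 0 ∧ ∑ e, α e * (β e)⁻¹ = 0 ∧
  ∀ b, (P b v₁ = v₁ ∧ P b v₂ = 0) ∨ (P b v₁ = 0 ∧ P b v₂ = v₂)

/-- GDI: the diagonal case.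

Proof.  `α`, `β`, `v₁`, `v₂` of GDP; `v₁`, `v₂` are linearly independent (a multiple of `v₁` is fixed by `P`), `c = v₁ + v₂`, functionals `φ₁`, `φ₂`
with `φ_i v_j = [i = j]` (LTB).  `n = |Γ|`, `Z₁` (`Z₂`) = the sum of the `Z b` of the first (second) kind, `Z = Z₁ + Z₂`, `f = n s₀ + Z`, `h = h c`,
`h_i = h v_i`, `h₁ + h₂ = h c = FF c - f` (`HH`).  `ρ e c = α v₁ + β v₂`, `ρ e⁻¹ c = α⁻¹ v₁ + β⁻¹ v₂`, `∑ Z b P b c = Z₁ v₁ + Z₂ v₂`.  (G) for `c = d`: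
(11) `φ = ψ = φ₁`: `n (Z - 2 Z₁) + n (f - 2 FF c) + 2 n h₁ + 2 n Z₁ = 0`: `∑ e, (α h₁ + β h₂) α⁻¹ = n h₁` (GDP), `∑ e, (α⁻¹ h₁ + β⁻¹ h₂) α = n h₁`; the third
sum: for `b` of the first kind both products are `1` (`P b ρ e c = α v₁`, `ρ e⁻¹ α v₁ = v₁`; `P b c = v₁`, `ρ e⁻¹ v₁ = α⁻¹ v₁`), for the second kind `0`.
So `Z + f - 2 FF c + 2 h₁ = 0`.  (22) `Z + f - 2 FF c + 2 h₂ = 0` in the same way.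
(12) `φ = φ₁`, `ψ = φ₂`: the first term is `n (Z - Z₁ - Z₂) = 0`, the third sum is `0`, and the second is
`∑ e, ((f - 2 FF c) α β⁻¹ + (α h₁ + β h₂) β⁻¹ + (α⁻¹ h₁ + β⁻¹ h₂) α) = n h₂ + n h₁`.  So `h₁ + h₂ = 0`, `FF c = f`.
(11) + (22): `2 (Z - f) + 2 (h₁ + h₂) = 0`, `f = Z`, `n s₀ = 0`. -/
def GdiStmt : Prop := ∀ (ℓ : ℕ) [Fact ℓ.Prime] (V Γ I : Type) [AddCommGroup V]
  [Module (ZMod ℓ) V] [Fintype V] [Group Γ] [Fintype Γ] [Fintype I]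
  (ρ : Γ →* Module.End (ZMod ℓ) V) (P : I → Module.End (ZMod ℓ) V) (Z : I → ZMod ℓ)
  (FF : V → ZMod ℓ) (s₀ : ZMod ℓ) (h : V → V →ₗ[ZMod ℓ] ZMod ℓ), LP ρ P Z →
  LF ρ FF (Fintype.card Γ * s₀ + ∑ a, Z a) → HH FF (Fintype.card Γ * s₀ + ∑ a, Z a) h →
  GG ρ P Z FF (Fintype.card Γ * s₀ + ∑ a, Z a) h → ∀ (_ : I) (θ : Module.End (ZMod ℓ) V),
  (∀ a : ZMod ℓ, θ ≠ a • 1) → (∀ e, θ * ρ e = ρ e * θ) → s₀ = 0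

/-- GCO: the conclusion of the linear algebra.

Proof.  If `I` is empty: `LX` is `LN`, all sums over `I` are `0`, `LF ρ F (|Γ| s₀)`: `FF = F` (`F 0 = 0`: hypothesis), LIA
(`LIaStmt`).  Otherwise: `h` from LHF (`LHfStmt`) for `FF`, (G) from GID; GSC if all averages are scalar.  Otherwise some average
`θ = ∑ ρ e A ρ e⁻¹` is not scalar, it commutes with all `ρ e`: GDI. -/
def GcoStmt : Prop := ∀ (ℓ : ℕ) [Fact ℓ.Prime] (V Γ I : Type) [AddCommGroup V]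
  [Module (ZMod ℓ) V] [Fintype V] [Group Γ] [Fintype Γ] [Fintype I]
  (ρ : Γ →* Module.End (ZMod ℓ) V) (P : I → Module.End (ZMod ℓ) V) (Z : I → ZMod ℓ)
  (F FF : V → ZMod ℓ) (N : V → V → ZMod ℓ) (Y : I → V → V → ZMod ℓ) (s₀ : ZMod ℓ),
  LP ρ P Z → F 0 = 0 → FFd P Z F FF → LF ρ FF (Fintype.card Γ * s₀ + ∑ a, Z a) →
  LX ρ P Z F N Y s₀ → s₀ = 0

/-! ## 2. Arithmetic -/

section arith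

variable {V₀ : Type} [CommGroup V₀]

/-- the expression of the relation (R); `x₁`, `x₂` integers -/
def RNE (ℓ : ℕ) (E₀ : Subgroup (MulAut V₀)) (D : V₀ → ℚ) (N : V₀ → V₀ → ℚ)
    (z : Subgroup V₀ → ℚ) (y : Subgroup V₀ → V₀ → V₀ → ℚ) (x₁ x₂ : V₀ → ℤ) (c d : V₀) : ℚ :=
  (x₁ c * x₂ d : ℤ) * N c d -
    (∑ᶠ a ∈ {a : Subgroup V₀ | a ∈ RL ℓ E₀ ∧ c ∉ a},
      ((x₁ (pr ℓ E₀ a c) * x₂ d : ℤ) : ℚ) * y a (pr ℓ E₀ a c) d) -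
    (∑ᶠ b ∈ {b : Subgroup V₀ | b ∈ RL ℓ E₀ ∧ d ∉ b},
      ((x₁ c * x₂ (pr ℓ E₀ b d) : ℤ) : ℚ) * y b (pr ℓ E₀ b d) c) -
    ∑ᶠ σ ∈ {σ : MulAut V₀ | σ ∈ E₀ ∧ c * σ d ≠ 1},
      (((x₁ (c * σ d) * x₂ (σ⁻¹ (c * σ d)) : ℤ) : ℚ) * D (c * σ d) -
        ∑ᶠ a ∈ {a : Subgroup V₀ | a ∈ RL ℓ E₀ ∧ c * σ d ∉ a},
          ((x₁ (pr ℓ E₀ a (c * σ d)) * x₂ (σ⁻¹ (pr ℓ E₀ a (c * σ d))) : ℤ) : ℚ) * z a)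

/-- the data of the arithmetic part -/
structure KZ (ℓ : ℕ) [Fact ℓ.Prime] (E₀ : Subgroup (MulAut V₀)) (D : V₀ → ℚ)
    (N : V₀ → V₀ → ℚ) (z : Subgroup V₀ → ℚ) (y : Subgroup V₀ → V₀ → V₀ → ℚ) (k : ℤ) : Prop where
  dr : ∀ c, D c ∈ SOR.Rl ℓ
  nr : ∀ c d, c ≠ 1 → d ≠ 1 → N c d ∈ SOR.Rl ℓ
  dp : ∀ (c : V₀) (j : ℕ), ¬ ℓ ∣ j → D (c ^ j) = D c
  de : ∀ σ ∈ E₀, ∀ c, D (σ c) = D c
  zr : ∀ a ∈ RL ℓ E₀, ∃ q ∈ SOR.Rl ℓ, z a = ℓ * q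
  ze : ∀ a ∈ RL ℓ E₀, ∀ σ ∈ E₀, z (mp σ a) = z a
  yr : ∀ a ∈ RL ℓ E₀, ∀ κ ∈ a, ∀ d, d ≠ 1 → ∃ q ∈ SOR.Rl ℓ, y a κ d = ℓ * q
  n1 : ∀ c d : V₀, c ≠ 1 → d ≠ 1 → ∃ q ∈ SOR.Rl ℓ, N c d = ℓ * q
  n2 : (∀ c : V₀, c ≠ 1 → ∃ q ∈ SOR.Rl ℓ, D c = ℓ * q) → ∀ (ρ₁ ρ₂ : V₀ → ZMod ℓ), Hm ρ₁ → Hm ρ₂ →
    ∀ c d : V₀, c ≠ 1 → d ≠ 1 → ∃ q ∈ SOR.Rl ℓ,
      RNE ℓ E₀ D N z y (fun v => ((ρ₁ v).val : ℤ)) (fun v => ((ρ₂ v).val : ℤ)) c d = ℓ ^ 2 * q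
  sf : ∀ c d : V₀, c ≠ 1 → d ≠ 1 → ∃ q ∈ SOR.Rl ℓ,
    ∑ t ∈ Finset.Icc 1 (ℓ - 1), ∑ s ∈ Finset.Icc 1 (ℓ - 1), N (c ^ t) (d ^ s) +
      (Nat.card E₀ : ℚ) * (ℓ - 1) * (D c + D d) + (Nat.card E₀ : ℚ) ^ 2 * k = ℓ ^ 2 * q
  sy : ∀ a ∈ RL ℓ E₀, ∀ κ ∈ a, ∀ d, d ≠ 1 → ∃ q ∈ SOR.Rl ℓ,
    ∑ t ∈ Finset.Icc 1 (ℓ - 1), ∑ s ∈ Finset.Icc 1 (ℓ - 1), y a (κ ^ t) (d ^ s) -
      (Nat.card E₀ : ℚ) * z a = ℓ ^ 2 * q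
  hh : ∃ q ∈ SOR.Rl ℓ, (Nat.card E₀ : ℚ) * k + ∑ᶠ c ∈ {c : V₀ | c ≠ 1}, D c = ℓ ^ 2 * q

end arith

/-- KE1: the part modulo `ℓ`.

Proof.  Everything modulo `ℓ` (RSL), `n = |E₀|` is prime to `ℓ` (`Fq.cp`).  Let `c, d ≠ 1`.  `c ^ t, d ^ s ≠ 1` for
`1 ≤ t, s ≤ ℓ - 1` (`Fq.ex`), so by `n1` the relation `sf` is `- n (D c + D d) + n ^ 2 k = 0`, `D c + D d = n k`; `d = c`:
`2 D c = n k`.  There are `ℓ ^ 2 - 1` elements `c ≠ 1` (`Fq.cd`), so `2 hh`: `2 n k + (ℓ ^ 2 - 1) n k = n k = 0`.  So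
`k = 0` and `D c = 0`.  Compare `Helper65_ASO/KM1.lean`. -/
def Ke1Stmt : Prop := ∀ (ℓ : ℕ) [Fact ℓ.Prime], ℓ ≠ 2 → ∀ (V₀ : Type) [CommGroup V₀] [Finite V₀]
  (E₀ : Subgroup (MulAut V₀)), Fq ℓ V₀ E₀ → ∀ (D : V₀ → ℚ) (N : V₀ → V₀ → ℚ)
  (z : Subgroup V₀ → ℚ) (y : Subgroup V₀ → V₀ → V₀ → ℚ) (k : ℤ), KZ ℓ E₀ D N z y k →
  (∃ k' : ℤ, k = ℓ * k') ∧ ∀ c : V₀, c ≠ 1 → ∃ q ∈ SOR.Rl ℓ, D c = ℓ * q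

/-- KE2: division by `ℓ`, functions with values in `ZMod ℓ`.

Proof.  `k = ℓ k'` and `D c = ℓ D' c`, `N c d = ℓ N₁ c d` for `c, d ≠ 1` (KE1 and `n1`), `z a = ℓ z' a`, `y a κ d = ℓ y' a κ d`
(`a ∈ RL`, `κ ∈ a`, `d ≠ 1`).  `F c` is the residue of `D' c` for `c ≠ 1`, `F 1 = 0`, `N'`, `Z'`, `Y'` the residues of `N₁`, `z'`, `y'`.  Divide
`n2`, `sf`, `sy`, `hh` by `ℓ` and take residues (RSL; `(ρ x).val` has the residue `ρ x`; the terms with `c * σ d = 1` are `0`; `pr a c ∈ a` for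
`a ∈ RL`: PRB (5); the sums over `a` are finite).  For `sf`: `n (ℓ - 1) (D' c + D' d)` has the residue `- n (F c + F d)`.  The double sums: `c ^ t ≠ 1`,
`κ ^ t ∈ a`.  Compare `Helper13_ASO/KM2.lean`. -/
def Ke2Stmt : Prop := ∀ (ℓ : ℕ) [Fact ℓ.Prime], ℓ ≠ 2 → ∀ (V₀ : Type) [CommGroup V₀] [Finite V₀]
  (E₀ : Subgroup (MulAut V₀)), Fq ℓ V₀ E₀ → ∀ (D : V₀ → ℚ) (N : V₀ → V₀ → ℚ)
  (z : Subgroup V₀ → ℚ) (y : Subgroup V₀ → V₀ → V₀ → ℚ) (k : ℤ), KZ ℓ E₀ D N z y k →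
  ∃ (F : V₀ → ZMod ℓ) (N' : V₀ → V₀ → ZMod ℓ) (Z' : Subgroup V₀ → ZMod ℓ)
    (Y' : Subgroup V₀ → V₀ → V₀ → ZMod ℓ) (k' : ℤ), k = ℓ * k' ∧
  F 1 = 0 ∧ (∀ (c : V₀) (j : ℕ), ¬ ℓ ∣ j → F (c ^ j) = F c) ∧ (∀ σ ∈ E₀, ∀ c, F (σ c) = F c) ∧
  (∀ a ∈ RL ℓ E₀, ∀ σ ∈ E₀, Z' (mp σ a) = Z' a) ∧
  (∑ᶠ c : V₀, F c) = - ((Nat.card E₀ : ZMod ℓ) * k') ∧
  (∀ (ρ₁ ρ₂ : V₀ → ZMod ℓ), Hm ρ₁ → Hm ρ₂ → ∀ c d : V₀, c ≠ 1 → d ≠ 1 →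
    N' c d * (ρ₁ c * ρ₂ d) -
      (∑ᶠ a ∈ {a : Subgroup V₀ | a ∈ RL ℓ E₀ ∧ c ∉ a},
        Y' a (pr ℓ E₀ a c) d * (ρ₁ (pr ℓ E₀ a c) * ρ₂ d)) -
      (∑ᶠ b ∈ {b : Subgroup V₀ | b ∈ RL ℓ E₀ ∧ d ∉ b},
        Y' b (pr ℓ E₀ b d) c * (ρ₁ c * ρ₂ (pr ℓ E₀ b d))) =
    ∑ᶠ σ : E₀, (F (c * σ.1 d) * (ρ₁ (c * σ.1 d) * ρ₂ (σ.1⁻¹ c * d)) -
      ∑ᶠ a ∈ {a : Subgroup V₀ | a ∈ RL ℓ E₀ ∧ c * σ.1 d ∉ a},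
        Z' a * (ρ₁ (pr ℓ E₀ a (c * σ.1 d)) * ρ₂ (σ.1⁻¹ (pr ℓ E₀ a (c * σ.1 d)))))) ∧
  (∀ c d : V₀, c ≠ 1 → d ≠ 1 →
    ∑ t ∈ Finset.Icc 1 (ℓ - 1), ∑ s ∈ Finset.Icc 1 (ℓ - 1), N' (c ^ t) (d ^ s) =
      (Nat.card E₀ : ZMod ℓ) * (F c + F d) - (Nat.card E₀ : ZMod ℓ) ^ 2 * k') ∧
  ∀ a ∈ RL ℓ E₀, ∀ κ ∈ a, ∀ d, d ≠ 1 →
    ∑ t ∈ Finset.Icc 1 (ℓ - 1), ∑ s ∈ Finset.Icc 1 (ℓ - 1), Y' a (κ ^ t) (d ^ s) =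
      (Nat.card E₀ : ZMod ℓ) * Z' a

/-- KLP: the projections of the lines of `RL` satisfy `LP`.

Proof.  `a ∈ RL`, `N = St E₀ a ≠ 1`, `n = |N|` prime to `ℓ`.  `pp`: PRB (5), (1).  `tr`: `P a` is a projection on the subspace `a`
(`LinearMap.IsProj`: PRB (5), (1)) of dimension one (`|a| = ℓ`, `Module.card_eq_pow_finrank`), `LinearMap.IsProj.trace`.
`rf`: `τ ≠ 1` in `N`: `ρ τ P a = P a` (PRB (3)), `ρ τ ≠ 1` (`τ` is an automorphism different from `1`).  `cm`: `∏ τ v = (pr v) ^ n` (PRB (10)), i.e.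
`∑ τ ∈ N, ρ τ = n • P a`, and `n` is a unit.  `qc`: `ρ σ P a = P (mp σ a) ρ σ` (PRB (4)), `mp σ a ∈ RL` (PRB (4), `|mp σ a| = |a|`), `Z (mp σ a) = Z a`, and
`a ↦ mp σ a` is a permutation of `RL` (MPB). -/
def KlpStmt : Prop := ∀ (ℓ : ℕ) [Fact ℓ.Prime] (V₀ : Type) [CommGroup V₀] [Finite V₀]
  (E₀ : Subgroup (MulAut V₀)), Fq ℓ V₀ E₀ → ∀ [Module (ZMod ℓ) (Additive V₀)] [Fintype (Additive V₀)]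
  [Fintype {a : Subgroup V₀ // a ∈ RL ℓ E₀}] (ρ : E₀ →* Module.End (ZMod ℓ) (Additive V₀))
  (P : {a : Subgroup V₀ // a ∈ RL ℓ E₀} → Module.End (ZMod ℓ) (Additive V₀))
  (Z : Subgroup V₀ → ZMod ℓ),
  (∀ (σ : E₀) (v : V₀), ρ σ (Additive.ofMul v) = Additive.ofMul (σ.1 v)) →
  (∀ (a : {a : Subgroup V₀ // a ∈ RL ℓ E₀}) (v : V₀),
    P a (Additive.ofMul v) = Additive.ofMul (pr ℓ E₀ a.1 v)) →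
  (∀ a ∈ RL ℓ E₀, ∀ σ ∈ E₀, Z (mp σ a) = Z a) →
  LP ρ P (fun a => Z a.1)

/-- KRE: the arithmetic part.

Proof.  KE2.  `V = Additive V₀` is a vector space over `ZMod ℓ` (`AddCommGroup.zmodModule`) of dimension two
(`Fq.cd`), `Γ = E₀`, `ρ σ = σ` and `P a = pr a` as linear maps (PRB (2), `AddMonoidHom.toZModLinearMap`), `I` = the type of the `a ∈ RL`.
A linear functional is a function with `Hm`.  `j • v` for `j : ZMod ℓ` is `v ^ j.val`; a sum over `(ZMod ℓ)ˣ` is a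
sum over `Icc 1 (ℓ - 1)`.  KLP: `LP`.  `P a v = v` iff `v ∈ a` (PRB (1), (5)).  `FF v = F v + ∑ (a ∋ v) Z' a` for `v ≠ 0`, `FF 0 = 0`; invariant
under `E₀` (`v ∈ a` iff `σ v ∈ mp σ a`, `Z' (mp σ a) = Z' a`) and homogeneous; its sum is `- n k' + ∑ a, (ℓ - 1) Z' a = - (n k' + ∑ Z' a)`, so `LF ρ FF f`
(`cp`: `Fq.cp`).  `LX` with `s₀ = k'`: KE2 (a sum over `a ∈ RL` with a condition is a sum over `I` with `if`).  GCO: `ℓ ∣ k'`.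
Compare `Helper84_ASO/KAR.lean`. -/
def KreStmt : Prop := ∀ (ℓ : ℕ) [Fact ℓ.Prime], ℓ ≠ 2 → ∀ (V₀ : Type) [CommGroup V₀] [Finite V₀]
  (E₀ : Subgroup (MulAut V₀)), Fq ℓ V₀ E₀ → ∀ (D : V₀ → ℚ) (N : V₀ → V₀ → ℚ)
  (z : Subgroup V₀ → ℚ) (y : Subgroup V₀ → V₀ → V₀ → ℚ) (k : ℤ), KZ ℓ E₀ D N z y k →
  ((ℓ ^ 2 : ℕ) : ℤ) ∣ k

/-! ## 3. Comparison of two data -/

section cmp

variable {V₀ G : Type} [CommGroup V₀] [Group G] {M : Ideal (integralClosure ℤ ℂ)} [M.IsMaximal]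

/-- the sums over the block of one datum -/
structure HE (ℓ : ℕ) [Fact ℓ.Prime] (E₀ : Subgroup (MulAut V₀)) (B : Bk (FF M) V₀ G)
    (D : Rd V₀ G) (d₁ : V₀ → ℚ) (n₁ : V₀ → V₀ → ℚ) (z₁ : Subgroup V₀ → V₀ → ℚ)
    (y₁ : Subgroup V₀ → V₀ → V₀ → ℚ) : Prop where
  d : ∀ c, c ≠ 1 → LL B (mnl E₀ B c ⊥) = (d₁ c : ℂ)
  d0 : d₁ 1 = 0
  dr : ∀ c, d₁ c ∈ SOR.Rl ℓ
  dp : ∀ (c : V₀) (j : ℕ), ¬ ℓ ∣ j → d₁ (c ^ j) = d₁ c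
  de : ∀ σ ∈ E₀, ∀ c, d₁ (σ c) = d₁ c
  n : ∀ c d, c ≠ 1 → d ≠ 1 → NN B (mnl E₀ B c ⊥) (mnl E₀ B d ⊥) = (n₁ c d : ℂ)
  nr : ∀ c d, c ≠ 1 → d ≠ 1 → n₁ c d ∈ SOR.Rl ℓ
  z : ∀ a ∈ RL ℓ E₀, ∀ κ ∈ a, LL B (etl B D a κ ⊥) = (z₁ a κ : ℂ)
  zr : ∀ a ∈ RL ℓ E₀, ∀ κ ∈ a, ∃ q ∈ SOR.Rl ℓ, z₁ a κ = ℓ * q
  zz : ∀ a ∈ RL ℓ E₀, ∀ κ ∈ a, ∃ q ∈ SOR.Rl ℓ, z₁ a κ - z₁ a 1 = ℓ ^ 2 * q
  ze : ∀ a ∈ RL ℓ E₀, ∀ σ ∈ E₀, z₁ (mp σ a) 1 = z₁ a 1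
  y : ∀ a ∈ RL ℓ E₀, ∀ κ ∈ a, ∀ d, d ≠ 1 →
    NN B (etl B D a κ ⊥) (mnl E₀ B d ⊥) = (y₁ a κ d : ℂ) ∧
    NN B (mnl E₀ B d ⊥) (etl B D a κ ⊥) = (y₁ a κ d : ℂ)
  yr : ∀ a ∈ RL ℓ E₀, ∀ κ ∈ a, ∀ d, d ≠ 1 → ∃ q ∈ SOR.Rl ℓ, y₁ a κ d = ℓ * q
  sy : ∀ a ∈ RL ℓ E₀, ∀ κ ∈ a, ∀ d, d ≠ 1 → ∃ q ∈ SOR.Rl ℓ,
    ∑ t ∈ Finset.Icc 1 (ℓ - 1), ∑ s ∈ Finset.Icc 1 (ℓ - 1), y₁ a (κ ^ t) (d ^ s) -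
      Nat.card E₀ * z₁ a 1 = ℓ ^ 2 * q
  sf : ∀ c d, c ≠ 1 → d ≠ 1 → ∃ q ∈ SOR.Rl ℓ,
    ∑ t ∈ Finset.Icc 1 (ℓ - 1), ∑ s ∈ Finset.Icc 1 (ℓ - 1), n₁ (c ^ t) (d ^ s) +
      Nat.card E₀ * (ℓ - 1) * (d₁ c + d₁ d) +
      (Nat.card E₀ : ℚ) ^ 2 * (IrrE M B.e).ncard = ℓ ^ 2 * q
  hh : ∃ q ∈ SOR.Rl ℓ, ∑ᶠ c ∈ {c : V₀ | c ≠ 1}, d₁ c + Nat.card E₀ * (IrrE M B.e).ncard = ℓ ^ 2 * q

/-- the rational value of `MNE` -/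
def MQ (ℓ : ℕ) (E₀ : Subgroup (MulAut V₀)) (U : Subgroup V₀ → ℚ) (d₁ : V₀ → ℚ)
    (n₁ : V₀ → V₀ → ℚ) (z₁ : Subgroup V₀ → V₀ → ℚ) (y₁ : Subgroup V₀ → V₀ → V₀ → ℚ)
    (x₁ x₂ : V₀ → ℤ) (c d : V₀) : ℚ :=
  ((x₁ c⁻¹ * x₂ d⁻¹ : ℤ) : ℚ) / (ℓ : ℚ) ^ 2 * n₁ c d -
  (∑ᶠ a ∈ {a : Subgroup V₀ | a ∈ RL ℓ E₀ ∧ c ∉ a},
    ((x₁ (pr ℓ E₀ a c)⁻¹ * x₂ d⁻¹ : ℤ) : ℚ) / (ℓ : ℚ) ^ 2 * y₁ a (pr ℓ E₀ a c) d) -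
  (∑ᶠ b ∈ {b : Subgroup V₀ | b ∈ RL ℓ E₀ ∧ d ∉ b},
    ((x₁ c⁻¹ * x₂ (pr ℓ E₀ b d)⁻¹ : ℤ) : ℚ) / (ℓ : ℚ) ^ 2 * y₁ b (pr ℓ E₀ b d) c) -
  ∑ᶠ σ ∈ {σ : MulAut V₀ | σ ∈ E₀ ∧ c * σ d ≠ 1},
    (cS U c d σ (Subgroup.zpowers (c * σ d)) *
      (((x₁ (c * σ d)⁻¹ * x₂ (σ⁻¹ (c * σ d))⁻¹ : ℤ) : ℚ) / (ℓ : ℚ) ^ 2) * d₁ (c * σ d) -
      ∑ᶠ a ∈ {a : Subgroup V₀ | a ∈ RL ℓ E₀ ∧ c * σ d ∉ a}, cS U c d σ a *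
        (((x₁ (pr ℓ E₀ a (c * σ d))⁻¹ * x₂ (σ⁻¹ (pr ℓ E₀ a (c * σ d)))⁻¹ : ℤ) : ℚ) /
          (ℓ : ℚ) ^ 2) * z₁ a (pr ℓ E₀ a (c * σ d)))

end cmp

/-- EIV: invariance of the sums over the block under `E₀`.

Proof.  `W = ⊥`: `C ⊥ = ⊤`, `mp σ ⊥ = ⊥`.  (1) `mnl E₀ B c ⊥ = kE E₀ c · fc B ⊥ c` (`⊥ ≤ ⟨c⟩`), `kE E₀ (σ c) = kE E₀ c` (conjugation with `σ`), and
`fc B ⊥ (σ c) = ac B σ (fc B ⊥ c)` (ACB), which is `x ↦ fc B ⊥ c (t⁻¹ x t)`, `t = tt B σ`, and this is `fc B ⊥ c`, a class function of `G` (CZB: `Cz`).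
(2) `f = tk B κ (D.et a)`, `f' = tk B (σ κ) (D.et (mp σ a)) = ac B σ f` (FMB (4)), i.e. `f' x = f (t⁻¹ x t)`.  `a ≠ ⊥`, `mp σ a ≠ ⊥`, so the labels at `⊥` are
`|C a|⁻¹ ∑_z f(z⁻¹ g z)` and `|C (mp σ a)|⁻¹ ∑_z f(t⁻¹ z⁻¹ g z t)`: equal (`z ↦ z t⁻¹`; the orders: ACB). -/
def EivStmt : Prop := ∀ (ℓ : ℕ) [Fact ℓ.Prime] (M : Ideal (integralClosure ℤ ℂ)) [M.IsMaximal],
  (ℓ : integralClosure ℤ ℂ) ∈ M → ℓ ≠ 2 → ∀ (V₀ G : Type) [CommGroup V₀] [Finite V₀] [Group G]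
  [Finite G] (E₀ : Subgroup (MulAut V₀)), Fq ℓ V₀ E₀ → ∀ B : Bk (FF M) V₀ G, Sb ℓ M E₀ B →
  ∀ D : Rd V₀ G, Rs ℓ E₀ B D → ∀ σ ∈ E₀,
  (∀ c, mnl E₀ B (σ c) ⊥ = mnl E₀ B c ⊥) ∧
  ∀ a ∈ RL ℓ E₀, ∀ κ ∈ a, etl B D (mp σ a) (σ κ) ⊥ = etl B D a κ ⊥

/-- HEX: the numbers exist.

Proof.  HSE, with `d₁ 1` changed to `0` (`c ^ j = 1` iff `c = 1` for `ℓ ∤ j`: `Fq.ex`; in `hh` and `sf` only `c ≠ 1` occur, `c ^ t ≠ 1` for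
`1 ≤ t ≤ ℓ - 1`).  `de`: EIV (1) and `d` (the casts are injective; `σ c ≠ 1` iff `c ≠ 1`).  `ze`: EIV (2) for `κ = 1` and `z` (`mp σ a ∈ RL`: PRB (4) and
`|mp σ a| = |a|`, `σ 1 = 1`). -/
def HexStmt : Prop := ∀ (ℓ : ℕ) [Fact ℓ.Prime] (M : Ideal (integralClosure ℤ ℂ)) [M.IsMaximal],
  (ℓ : integralClosure ℤ ℂ) ∈ M → ℓ ≠ 2 → ∀ (V₀ G : Type) [CommGroup V₀] [Finite V₀] [Group G]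
  [Finite G] (E₀ : Subgroup (MulAut V₀)), Fq ℓ V₀ E₀ → ∀ B : Bk (FF M) V₀ G, Sd ℓ M E₀ B →
  ∀ D : Rd V₀ G, Rs ℓ E₀ B D → ∃ (d₁ : V₀ → ℚ) (n₁ : V₀ → V₀ → ℚ) (z₁ : Subgroup V₀ → V₀ → ℚ)
    (y₁ : Subgroup V₀ → V₀ → V₀ → ℚ), HE ℓ E₀ B D d₁ n₁ z₁ y₁

/-- CSB: the coefficients `cS`.

Proof.  `ux U W x` is `1` or `U W = 1 + ℓ q`; such numbers and their inverses are in `1 + ℓ Rl ℓ` (the numerator of `1 + ℓ q` is prime to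
`ℓ`), so products and quotients too.  For (2) the numbers `ux U W x`, `ux U' W x` are congruent modulo `ℓ ^ K`, products and
quotients of units of `Rl ℓ` too: `u/v - u'/v' = (u v' - u' v)/(v v')`. -/
def CsbStmt : Prop := ∀ (ℓ : ℕ) [Fact ℓ.Prime] (V₀ : Type) [CommGroup V₀]
  (U U' : Subgroup V₀ → ℚ) (W : Subgroup V₀) (K : ℕ), (∃ q ∈ SOR.Rl ℓ, U W = 1 + ℓ * q) →
  (∃ q ∈ SOR.Rl ℓ, U' W = 1 + ℓ * q) → (∃ q ∈ SOR.Rl ℓ, U W - U' W = ℓ ^ K * q) →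
  ∀ (c d : V₀) (σ : MulAut V₀), (∃ q ∈ SOR.Rl ℓ, cS U c d σ W = 1 + ℓ * q) ∧
    ∃ q ∈ SOR.Rl ℓ, cS U c d σ W - cS U' c d σ W = ℓ ^ K * q

/-- MQC: `MNE` is the rational number `MQ`.

Proof.  Insert `HE.d`, `n`, `z`, `y` in `MNE` (`pr ℓ E₀ a x ∈ a` for `a ∈ RL`: PRB (5)), and the cast commutes with the finite sums
(finitely many subgroups and automorphisms). -/
def MqcStmt : Prop := ∀ (ℓ : ℕ) [Fact ℓ.Prime] (M : Ideal (integralClosure ℤ ℂ)) [M.IsMaximal]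
  (V₀ G : Type) [CommGroup V₀] [Finite V₀] [Group G] [Finite G] (E₀ : Subgroup (MulAut V₀)),
  Fq ℓ V₀ E₀ → ∀ (B : Bk (FF M) V₀ G) (D : Rd V₀ G) (d₁ : V₀ → ℚ) (n₁ : V₀ → V₀ → ℚ)
  (z₁ : Subgroup V₀ → V₀ → ℚ) (y₁ : Subgroup V₀ → V₀ → V₀ → ℚ), HE ℓ E₀ B D d₁ n₁ z₁ y₁ →
  ∀ (x₁ x₂ : V₀ → ℤ) (c d : V₀), c ≠ 1 → d ≠ 1 →
  MNE ℓ E₀ B D x₁ x₂ c d = ((MQ ℓ E₀ D.U d₁ n₁ z₁ y₁ x₁ x₂ c d : ℚ) : ℂ)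

/-- MQA: a change of the lift at `c⁻¹`.

Proof.  `x₁ = lf ρ₁ 1`, `x₁' = lf ρ₁ c⁻¹`, `x₂ = lf ρ₂ 1` (`SD.lf`; `ρ 1 = 0`).  `x₁' v = x₁ v` for `v ≠ c⁻¹`, `x₁' c⁻¹ = x₁ c⁻¹ + ℓ` (`ρ₁ c⁻¹ ≠ 0`).
`MQ` for `x₁'` minus `MQ` for `x₁`: the first term gives `ℓ x₂(d⁻¹)/ℓ² n₁ c d`; in the second sum `pr a c ≠ c` (`c ∉ a`, PRB (5)): `0`; the
third sum: `- x₂((pr b d)⁻¹)/ℓ y₁ b (pr b d) c ∈ Rl ℓ` (`HE.yr`); in the last sum `c * σ d ≠ c`, so the first part gives `0`, and the second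
part gives the terms with `pr a (c σ d) = c`: `cS x₂(..)/ℓ z₁ a c ∈ Rl ℓ` (`HE.zr`, `c = pr a .. ∈ a`; CSB, `Rs.u1`, `a ≠ ⊥`). -/
def MqaStmt : Prop := ∀ (ℓ : ℕ) [Fact ℓ.Prime] (M : Ideal (integralClosure ℤ ℂ)) [M.IsMaximal]
  (V₀ G : Type) [CommGroup V₀] [Finite V₀] [Group G] [Finite G] (E₀ : Subgroup (MulAut V₀)),
  Fq ℓ V₀ E₀ → ∀ (B : Bk (FF M) V₀ G) (D : Rd V₀ G), Rs ℓ E₀ B D → ∀ (d₁ : V₀ → ℚ)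
  (n₁ : V₀ → V₀ → ℚ) (z₁ : Subgroup V₀ → V₀ → ℚ) (y₁ : Subgroup V₀ → V₀ → V₀ → ℚ),
  HE ℓ E₀ B D d₁ n₁ z₁ y₁ → ∀ ρ₁ ρ₂ : V₀ → ZMod ℓ, Hm ρ₁ → Hm ρ₂ → ∀ c d : V₀, c ≠ 1 → d ≠ 1 →
  ρ₁ c⁻¹ ≠ 0 →
  MQ ℓ E₀ D.U d₁ n₁ z₁ y₁ (lf ρ₁ c⁻¹) (lf ρ₂ 1) c d -
    MQ ℓ E₀ D.U d₁ n₁ z₁ y₁ (lf ρ₁ 1) (lf ρ₂ 1) c d -
      ((lf ρ₂ 1 d⁻¹ : ℤ) : ℚ) / ℓ * n₁ c d ∈ SOR.Rl ℓ

/-- MQB: the relation modulo `ℓ ^ 2`.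

Proof.  `ρ⁻(v) = ρ(v⁻¹)`, `lf ρ⁻ 1 v⁻¹ = (ρ v).val` (`(1 : V₀)` is the only `v` with `v⁻¹ = 1`, and `ρ 1 = 0`).  Multiply the difference of the two `MQ` with `ℓ²`:
modulo `ℓ² Rl ℓ` it is `0`.  The first three sums are the ones of `RNE` for the differences (`RNE` has `y₁ - y₁'` at `pr a c`).  The last sum: for
`κ = c σ d ≠ 1`, `x = (ρ₁ κ).val (ρ₂ (σ⁻¹ κ)).val`, `u = cS D.U .. ⟨κ⟩`, `u' = cS D'.U .. ⟨κ⟩`: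
`u d₁ κ - u' d₁' κ = (d₁ κ - d₁' κ) + (u - 1)(d₁ κ - d₁' κ) + (u - u') d₁' κ`, `u - 1 ∈ ℓ Rl ℓ`, `u - u' ∈ ℓ² Rl ℓ` (CSB for `K = 2`), `d₁ κ - d₁' κ ∈ ℓ Rl ℓ`: congruent to
`d₁ κ - d₁' κ`.  For `a ∈ RL`, `κ_a = pr a κ ∈ a`: `u z₁ a κ_a - u' z₁' a κ_a` is congruent to `z₁ a κ_a - z₁' a κ_a` (`zr`) and to `z₁ a 1 - z₁' a 1` (`zz`). -/
def MqbStmt : Prop := ∀ (ℓ : ℕ) [Fact ℓ.Prime] (M : Ideal (integralClosure ℤ ℂ)) [M.IsMaximal]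
  (V₀ G G' : Type) [CommGroup V₀] [Finite V₀] [Group G] [Finite G] [Group G'] [Finite G']
  (E₀ : Subgroup (MulAut V₀)), Fq ℓ V₀ E₀ → ∀ (B : Bk (FF M) V₀ G) (D : Rd V₀ G)
  (B' : Bk (FF M) V₀ G') (D' : Rd V₀ G'), Rs ℓ E₀ B D → Rs ℓ E₀ B' D' →
  (∀ W, W ≠ ⊥ → ∃ q ∈ SOR.Rl ℓ, D.U W - D'.U W = ℓ ^ 2 * q) →
  ∀ (d₁ d₁' : V₀ → ℚ) (n₁ n₁' : V₀ → V₀ → ℚ) (z₁ z₁' : Subgroup V₀ → V₀ → ℚ)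
  (y₁ y₁' : Subgroup V₀ → V₀ → V₀ → ℚ), HE ℓ E₀ B D d₁ n₁ z₁ y₁ →
  HE ℓ E₀ B' D' d₁' n₁' z₁' y₁' → (∀ c, c ≠ 1 → ∃ q ∈ SOR.Rl ℓ, d₁ c - d₁' c = ℓ * q) →
  ∀ ρ₁ ρ₂ : V₀ → ZMod ℓ, Hm ρ₁ → Hm ρ₂ → ∀ c d : V₀, c ≠ 1 → d ≠ 1 →
  MQ ℓ E₀ D.U d₁ n₁ z₁ y₁ (lf (fun v => ρ₁ v⁻¹) 1) (lf (fun v => ρ₂ v⁻¹) 1) c d -
    MQ ℓ E₀ D'.U d₁' n₁' z₁' y₁' (lf (fun v => ρ₁ v⁻¹) 1) (lf (fun v => ρ₂ v⁻¹) 1) c d ∈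
      SOR.Rl ℓ →
  ∃ q ∈ SOR.Rl ℓ, RNE ℓ E₀ (fun c => d₁ c - d₁' c) (fun c d => n₁ c d - n₁' c d)
    (fun a => z₁ a 1 - z₁' a 1) (fun a κ d => y₁ a κ d - y₁' a κ d)
    (fun v => ((ρ₁ v).val : ℤ)) (fun v => ((ρ₂ v).val : ℤ)) c d = ℓ ^ 2 * q

/-- HMX: homomorphisms to `ZMod ℓ`; rational numbers in `RM M`.

Proof.  (1) `Additive V₀` is a vector space over `ZMod ℓ`; there is a linear functional which is not `0` at `c`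
(`Module.exists_dual_forall_apply_eq_zero_iff`, or a basis containing `c`).  Compare `SD.DixStmt` (5), `Helper90_ASO/CPG.lean`.
(2) `Helper13_ASO/KCM.lean`: `kcm_rat`, `kcm_mem`. -/
def HmxStmt : Prop := ∀ (ℓ : ℕ) [Fact ℓ.Prime],
  (∀ (V₀ : Type) [CommGroup V₀] [Finite V₀], (∀ v : V₀, v ^ ℓ = 1) → ∀ c : V₀, c ≠ 1 →
    ∃ ρ : V₀ → ZMod ℓ, Hm ρ ∧ ρ c ≠ 0) ∧
  ∀ (M : Ideal (integralClosure ℤ ℂ)) [M.IsMaximal], (ℓ : integralClosure ℤ ℂ) ∈ M →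
    ∀ q : ℚ, ((q : ℂ) ∈ RM M ↔ q ∈ SOR.Rl ℓ)

/-- CPX: the difference of the main parts.

Proof.  `n = ℓ ^ r`.  The set of the triples `(ρ₁, ρ₂, v₀)` is finite.  `lf ρ₁ v₀`, `lf ρ₂ 1` satisfy `Lf`.  RTE gives the functions
`F₁₃, Ψ, M₁, M₂, K` for every triple, PPC (with `fx = D.fx`) a number `K₀` for every triple and all `c`, `d`; `K` = the maximum of `2` and
of all these numbers.  FIE for `B` and for `B'` (RTE gives the relations in `G` and in `G'`; `B.i` is injective), subtract: the difference of the `PPE`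
is in `Rl ℓ` (PPC, `Rs.u1`), so its cast is in `RM M`. -/
def CpxStmt : Prop := ∀ (ℓ : ℕ) [Fact ℓ.Prime] (M : Ideal (integralClosure ℤ ℂ)) [M.IsMaximal],
  (ℓ : integralClosure ℤ ℂ) ∈ M → ℓ ≠ 2 → ∀ (V₀ G : Type) [CommGroup V₀] [Finite V₀] [Group G]
  [Finite G] (E₀ : Subgroup (MulAut V₀)), Fq ℓ V₀ E₀ → ∀ B : Bk (FF M) V₀ G, Sd ℓ M E₀ B →
  ∀ D : Rd V₀ G, Rs ℓ E₀ B D → ∀ r : ℕ, 0 < r → (∃ m, PE ℓ (ℓ ^ r) m G) → ∃ K : ℕ, 2 ≤ K ∧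
  ∀ (G' : Type) [Group G'] [Finite G'] (B' : Bk (FF M) V₀ G') (D' : Rd V₀ G'), Sd ℓ M E₀ B' →
  Rs ℓ E₀ B' D' → (∃ m, PE ℓ (ℓ ^ r) m G') →
  (∀ W, W ≠ ⊥ → ∃ q ∈ SOR.Rl ℓ, D.U W - D'.U W = ℓ ^ K * q) →
  (∀ W, W ≠ ⊥ → ∀ g ∈ E₀, mp g W = W → D'.fx W g = D.fx W g) →
  ∀ ρ₁ ρ₂ : V₀ → ZMod ℓ, Hm ρ₁ → Hm ρ₂ → ∀ v₀ c d : V₀, c ≠ 1 → d ≠ 1 →
  MNE ℓ E₀ B D (lf ρ₁ v₀) (lf ρ₂ 1) c d - MNE ℓ E₀ B' D' (lf ρ₁ v₀) (lf ρ₂ 1) c d ∈ RM M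

/-!
CME (`CmeStmt`, `StmtsX.lean`), from CPX HEX MQC MQA MQB HMX KRE.

Proof.  `K` from CPX.  Let `G'`, `B'`, `D'` be given.  HEX for both data.  `D c = d₁ c - d₁' c`, `N c d = n₁ c d - n₁' c d`, `z a = z₁ a 1 - z₁' a 1`,
`y a κ d = y₁ a κ d - y₁' a κ d`, `k = k(B) - k(B')`.  The fields of `KZ`: `dr`, `nr`, `dp`, `de`, `zr`, `ze`, `yr` from `HE`; `sf`, `sy`, `hh`: the
differences of the fields of `HE`.  `n1`: HMX gives `ρ₁`, `ρ₂` with `ρ₁ c ≠ 0`, `ρ₂ d ≠ 0` (so `ρ₁ c⁻¹ ≠ 0`).  CPX for `v₀ = c⁻¹` and for `v₀ = 1`, MQC, HMX (2): the differences of the `MQ`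
are in `Rl ℓ`; MQA for both data: `lf ρ₂ 1 d⁻¹/ℓ · (n₁ c d - n₁' c d) ∈ Rl ℓ`, and `lf ρ₂ 1 d⁻¹` has the residue `ρ₂ d⁻¹ ≠ 0`.
`n2`: CPX for `ρ⁻` and `v₀ = 1`, MQC, HMX (2), MQB (`2 ≤ K`).  KRE: `ℓ ^ 2 ∣ k`.
-/

end Pool.Agent.PP.SE
end
end -- Pool.Agent.ASE.Stmts7
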