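import Pool.Agent.Helper12_AWB.B144
import Pool.Agent.Helper12_AWB.B173
import Pool.Agent.Helper12_AWB.B209

/-!
# Merged copies (generated) of the modules

* `Pool.Agent.ASD.Stmts6`
* `Pool.Agent.ASE.Stmts8`
* `Pool.Agent.Helper25_ASD.LBD`
* `Pool.Agent.Helper89_ASO.LBU`
* `Pool.Agent.Helper49_ASD.RDA`
* `Pool.Agent.Helper89_ASD.INA`
* `Pool.Agent.Helper60_ASE.FXE`
* `Pool.Agent.Helper91_ASE.LME`
-/

set_option autoImplicit false

section -- Pool.Agent.ASD.Stmts6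

/-!
# Squad ASD, statements 6: the blocks of the normalisers of the axes

Complete proofs in the docstrings.  For an `E₀`-invariant subgroup `A ≠ ⊥` of `V₀` the stabiliser `H` of the
subpair `(A, b A)` is `T C(A)`, `b A` is a block of `H`, and its local structure at `A` is the one of the
given block.  For two invariant subgroups `A₁`, `A₂` the stabiliser of `(A₁, ..)` in `H₂` is `H₁ ⊓ H₂`.
-/

open scoped BigOperators

noncomputable section

namespace Pool.Agent.PP.SD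

open Pool.Agent.Helper51_AWC Pool.Agent.Helper79_WRA Pool.Agent.PP Pool.Agent.PP.KF
open Pool.Agent.PP.K9 Pool.Agent.PP.K9.H97 Pool.Agent.PP.H75 Pool.Agent.PP.T3 Pool.Agent.PP.SO

attribute [local instance] Ideal.Quotient.field

section defs

variable {F V₀ G : Type} [CommGroup V₀] [Group G]

/-- the stabiliser of the subpair `(A, b A)` -/
def HA (B : Bk F V₀ G) (A : Subgroup V₀) : Subgroup G :=
  Subgroup.normalizer ((A.map B.i : Subgroup G) : Set G) ⊓ stabF (B.b A)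

end defs

/-- HAT: the stabiliser of `(A, b A)` is `T C(A)`.

Proof.  `x ∈ HA`: let `x i(v) x⁻¹ = i(f v)` for `v ∈ A` (`f v ∈ A`, `f` maps `A` onto `A`), `cj x (b A) = b A` (`stabF`); FUD with
`W = W' = A`: `t ∈ T` with `t⁻¹ x ∈ C A`.  Conversely: `t ∈ T` acts on `V` by `σ ∈ E₀` (`act`), `σ A = A`, so
`t` normalises `i(A)` and `cj t (b A) = b A` (CJD (1)); `c ∈ C A` centralises `i(A)`, and `cj c (b A) = b A` because
`b A` is a class function of `C A`.  The last claim: `T ≤ HA` (`t = x`), `C A ≤ HA` (`t = 1`), `i(V₀) ≤ C(V) ≤ C A`. -/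
def HatStmt : Prop := ∀ (ℓ : ℕ) [Fact ℓ.Prime] (M : Ideal (integralClosure ℤ ℂ)) [M.IsMaximal],
  (ℓ : integralClosure ℤ ℂ) ∈ M → ℓ ≠ 2 → ∀ (V₀ G : Type) [CommGroup V₀] [Finite V₀] [Group G]
  [Finite G] (E₀ : Subgroup (MulAut V₀)), Fq ℓ V₀ E₀ → ∀ B : Bk (FF M) V₀ G, Sb ℓ M E₀ B →
  ∀ A : Subgroup V₀, (∀ σ ∈ E₀, ∀ v ∈ A, σ v ∈ A) →
  (∀ x, x ∈ HA B A ↔ ∃ t ∈ Tg B.i.range B.g, t⁻¹ * x ∈ B.C A) ∧
  Tg B.i.range B.g ≤ HA B A ∧ B.C A ≤ HA B A ∧ B.C ⊤ ≤ HA B A ∧ B.i.range ≤ HA B A ∧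
  B.C ⊤ ≤ Tg B.i.range B.g

/-- UNE: the block of `H` is determined by `(V, g)`.

Proof.  `br_V(e) g = g`, `br_V(e') g = g`.  `br_V` is multiplicative on the class functions (`V` is an `ℓ`-subgroup),
so `br_V(e e') g = br_V(e) br_V(e') g = g ≠ 0`, hence `e e' ≠ 0`; two different blocks have the product `0`. -/
def UneStmt : Prop := ∀ (ℓ : ℕ) [Fact ℓ.Prime] (M : Ideal (integralClosure ℤ ℂ)) [M.IsMaximal],
  (ℓ : integralClosure ℤ ℂ) ∈ M → ∀ (H : Type) [Group H] [Finite H] (V : Subgroup H)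
  (g e e' : H → FF M), Ld ℓ e V g → Ld ℓ e' V g → e = e'

/-- INA: the block of the stabiliser of `(A, b A)`.

Proof.  `C A ≤ HA B A = j(H)`, `T ≤ j(H)` (HAT).  `e' = b A ∘ j`, `g' = g ∘ j`, `i'` with `j i' = i`.
(1) `e'` is a block of `H`.  It is a central idempotent of `F H` (`b A` is supported in `C A`, an idempotent, and
invariant under `j(H)`: `stabF`).  Let `f ≠ 0` be a central idempotent of `F H` with `e' f = f`.  `A' = i'(A)` is a normal
`ℓ`-subgroup of `H`, so `f` is supported in `C_H(A') = j⁻¹(C A)` (`supp_cent` in `Helper32_AT2/FST.lean`); so `f ∘ j⁻¹`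
(extended by zero) is a central idempotent of `F (C A)` under the block `b A`, so it is `b A`, `f = e'`.
(2) `Ld ℓ e' i'.range g'`.  `V` is good for `e'`: `br_V(b A) g = g ≠ 0` (`lb`), the centraliser of `i'(V₀)` in `H` is
`j⁻¹(C(V))`, `C(V) ≤ C A`.  Let `Q ≤ H` be an `ℓ`-subgroup, good for `e'`: `b A (x) ≠ 0` for some
`x ∈ C(j Q) ∩ C A`.  `Q' = j(Q) i(A)` is an `ℓ`-subgroup (`i(A)` is normal in `j(H)`), `C(Q') = C(j Q) ∩ C A`.  `e b A = b A`
in `F (C A)` (`lb.und`); `j(Q)` acts on `C A` and fixes `e` restricted to `C A` and `b A`; the restriction to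
`C(j Q) ∩ C A` is multiplicative on the elements fixed by `j(Q)` (Brauer homomorphism for the `ℓ`-group `j(Q)`
acting on `C A`), so the restriction of `e` is not `0`: `Q'` is good for `e`, `|Q| ≤ |Q'| ≤ |V|`.  `und`: `lb.gam`.
(3) The inertial group of `(i'.range, g')` is `j⁻¹(T)`, `T ≤ j(H)`: the conditions of SYD with the same `E₀`.
SYD: `B'` with `B'.e = e'`, `B'.g = g'`, `B'.i = i'`, `Sd ℓ M E₀ B'`.
(4) `Pr`: let `W ≥ A`.  `C W ≤ C A ≤ j(H)`, the centraliser of `i'(W)` in `H` is `j⁻¹(C W)`; `b W ∘ j` is a block of it,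
over `g'`, and under `e'`: `b W` is under `b A` (as in RDA: `e` restricted to `C W` is the sum of the
restrictions of the blocks of `C A` under `e`, one of them, `β`, has `β b W = b W` on `C W`, so `br_V(β) g = g`,
`β = b A` by LBU (2)).  So `B'.b W = b W ∘ j` by LBU (2) for `H`. -/
def InaStmt : Prop := ∀ (ℓ : ℕ) [Fact ℓ.Prime] (M : Ideal (integralClosure ℤ ℂ)) [M.IsMaximal],
  (ℓ : integralClosure ℤ ℂ) ∈ M → ℓ ≠ 2 → ∀ (V₀ G H : Type) [CommGroup V₀] [Finite V₀] [Group G]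
  [Finite G] [Group H] [Finite H] (E₀ : Subgroup (MulAut V₀)), Fq ℓ V₀ E₀ →
  ∀ B : Bk (FF M) V₀ G, Sb ℓ M E₀ B → ∀ A : Subgroup V₀, A ≠ ⊥ →
  (∀ σ ∈ E₀, ∀ v ∈ A, σ v ∈ A) → ∀ j : H →* G, Function.Injective j → j.range = HA B A →
  ∃ B' : Bk (FF M) V₀ H, Sd ℓ M E₀ B' ∧ Pr A B B' j ∧ (∀ h, B'.e h = B.b A (j h)) ∧
    (B'.i.range.map j = B.i.range) ∧ (∀ h, j h ∈ Tg B.i.range B.g ↔ h ∈ Tg B'.i.range B'.g) ∧
    (A.map B'.i).Normal

/-- INB: the three blocks.

Proof.  `H₁ = HA B A₁`, `H₂ = HA B A₂`.  INA for `B`, `A₁`, `H₁` gives `B₁`, INA for `B`, `A₂`, `H₂` gives `B₂`.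
(1) `HA B₂ A₁ = H₁ ⊓ H₂` (as subgroups of `H₂`).  By HAT for `B₂`, `x ∈ H₂` is in `HA B₂ A₁` iff `t⁻¹ x` centralises
`i(A₁)` for some `t ∈ T` (the inertial group of `B₂` is `T`, INA).  If so, `x ∈ H₁` (HAT for `B`).  Conversely let
`x ∈ H₁ ⊓ H₂`: `t⁻¹ x ∈ C(A₁)` with `t ∈ T ≤ H₂` (HAT for `B`).  In the same way `HA B₁ A₂ = H₁ ⊓ H₂`.
(2) INA for `B₂`, `A₁` and the inclusion of `H₁ ⊓ H₂` in `H₂` gives `B₃` with `Pr A₁ B₂ B₃`; INA for `B₁`, `A₂` and the
inclusion in `H₁` gives `B₃'` with `Pr A₂ B₁ B₃'`.  `B₃.i = B₃'.i`, `B₃.g = B₃'.g` (both are the restrictions of `i`, `g`), so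
`B₃.e = B₃'.e` (UNE; `Sb.ld`), and `B₃.b W = B₃'.b W` for all `W` (LBU (2)).  So `Pr A₂ B₁ B₃`.
(3) The last claims: INA for `B`, `A₁`; `B`, `A₂`; `B₃`: `i(A₁)`, `i(A₂)` are normal in `H₁ ⊓ H₂`. -/
def InbStmt : Prop := ∀ (ℓ : ℕ) [Fact ℓ.Prime] (M : Ideal (integralClosure ℤ ℂ)) [M.IsMaximal],
  (ℓ : integralClosure ℤ ℂ) ∈ M → ℓ ≠ 2 → ∀ (V₀ G : Type) [CommGroup V₀] [Finite V₀] [Group G]
  [Finite G] (E₀ : Subgroup (MulAut V₀)), Fq ℓ V₀ E₀ → ∀ A₁ A₂ : Subgroup V₀, A₁ ≠ ⊥ → A₂ ≠ ⊥ →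
  (∀ σ ∈ E₀, ∀ v ∈ A₁, σ v ∈ A₁) → (∀ σ ∈ E₀, ∀ v ∈ A₂, σ v ∈ A₂) →
  ∀ B : Bk (FF M) V₀ G, Sb ℓ M E₀ B → ∀ H₁ H₂ H₃ : Subgroup G, H₁ = HA B A₁ → H₂ = HA B A₂ →
  H₃ = H₁ ⊓ H₂ → ∀ (h₁ : H₃ ≤ H₁) (h₂ : H₃ ≤ H₂),
  ∃ (B₁ : Bk (FF M) V₀ H₁) (B₂ : Bk (FF M) V₀ H₂) (B₃ : Bk (FF M) V₀ H₃),
    Sd ℓ M E₀ B₁ ∧ Sd ℓ M E₀ B₂ ∧ Sd ℓ M E₀ B₃ ∧
    Pr A₁ B B₁ H₁.subtype ∧ Pr A₂ B B₂ H₂.subtype ∧
    Pr A₁ B₂ B₃ (Subgroup.inclusion h₂) ∧ Pr A₂ B₁ B₃ (Subgroup.inclusion h₁) ∧
    B.i.range ≤ H₃ ∧ Tg B.i.range B.g ≤ H₃ ∧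
    (∀ x : H₁, x ∈ Tg B₁.i.range B₁.g ↔ (x : G) ∈ Tg B.i.range B.g) ∧
    (∀ x : H₂, x ∈ Tg B₂.i.range B₂.g ↔ (x : G) ∈ Tg B.i.range B.g) ∧
    (∀ x : H₃, x ∈ Tg B₃.i.range B₃.g ↔ (x : G) ∈ Tg B.i.range B.g) ∧
    (A₁.map B₁.i).Normal ∧ (A₂.map B₂.i).Normal ∧ (A₁.map B₃.i).Normal ∧ (A₂.map B₃.i).Normal

end Pool.Agent.PP.SD
end
end -- Pool.Agent.ASD.Stmts6

section -- Pool.Agent.ASE.Stmts8

/-!
# Squad ASE, statements 8: the inertial group, fixed characters, the final deduction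

Sections 8 and 9 of `Pool/Agent/ASE/AWC_SOE.md`, the part without the comparison group (`Stmts9.lean`).
Complete proofs in the docstrings.  `TE B E'` is the preimage of `E' ≤ E₀` in the inertial group,
`Lam B E'` the number of its irreducible modular characters in `g`.
-/

open scoped BigOperators

noncomputable section

namespace Pool.Agent.PP.SE

open Pool.Agent.Helper51_AWC Pool.Agent.Helper79_WRA Pool.Agent.PP Pool.Agent.PP.KF
open Pool.Agent.PP.K9 Pool.Agent.PP.K9.H97 Pool.Agent.PP.H75 Pool.Agent.PP.T3 Pool.Agent.PP.SO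
open Pool.Agent.PP.SD

attribute [local instance] Ideal.Quotient.field

/-! ## 0. Definitions (`TE`, `Lam` are in `StmtsX.lean`) -/

section fix

variable {V₀ G : Type} [CommGroup V₀] [Group G] {M : Ideal (integralClosure ℤ ℂ)} [M.IsMaximal]

/-- the number of the characters of the block `b W` which are fixed by `σ` -/
def FixC (B : Bk (FF M) V₀ G) (W : Subgroup V₀) (σ : MulAut V₀) : ℕ :=
  {χ | χ ∈ Ch B W ∧ ac B σ χ = χ}.ncard

end fix

/-! ## 1. The inertial group and the local blocks -/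

/-- XWD: the block `b W` of the group `T_(E₁) C(W)`.

Proof.  As INA (`ASD/Stmts6.lean`), where `T_(E₁) C(W)` is the whole stabiliser of the subpair.  `E₁` maps `W` onto
itself, so `TE B E₁` normalises `C W` and fixes `b W` (CJD (1)); `X = TE B E₁ ⊔ C W = j(H)` consists of the products
`t c`.  `e' = b W ∘ j`, `g' = g ∘ j`, `i'` with `j i' = i` (`i(V₀) ≤ C W`).  (1) `e'` is a block of `H`: `i'(W)` is a normal
`ℓ`-subgroup of `H` with centraliser `j⁻¹(C W)`, see INA (1).  (2) `Ld ℓ e' i'.range g'`: see INA (2).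
(3) The inertial group of `(i'.range, g')` is `j⁻¹(T ∩ X)`, and `T ∩ X = TE B E₁`: if `t c ∈ T`, `t ∈ TE B E₁`, `c ∈ C W`,
then `c ∈ T ∩ C W = TE B (St E₀ W) ≤ TE B E₁`.  It induces exactly the `σ ∈ E₁`: SYD (`Fq ℓ V₀ E₁` since
`|E₁|` divides `|E₀|`).  (4) `Pr W B B' j`: see INA (4).  (5) `Lam`: `j` maps `TE B' E''` onto `TE B E''`, and
`B'.g = B.g ∘ j`; transport `ln`. -/
def XwdStmt : Prop := ∀ (ℓ : ℕ) [Fact ℓ.Prime] (M : Ideal (integralClosure ℤ ℂ)) [M.IsMaximal],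
  (ℓ : integralClosure ℤ ℂ) ∈ M → ℓ ≠ 2 → ∀ (V₀ G H : Type) [CommGroup V₀] [Finite V₀] [Group G]
  [Finite G] [Group H] [Finite H] (E₀ : Subgroup (MulAut V₀)), Fq ℓ V₀ E₀ →
  ∀ B : Bk (FF M) V₀ G, Sb ℓ M E₀ B → ∀ W : Subgroup V₀, W ≠ ⊥ → ∀ E₁ : Subgroup (MulAut V₀),
  E₁ ≤ E₀ → St E₀ W ≤ E₁ → (∀ σ ∈ E₁, ∀ w ∈ W, σ w ∈ W) → ∀ j : H →* G, Function.Injective j →
  j.range = TE B E₁ ⊔ B.C W →
  Fq ℓ V₀ E₁ ∧ ∃ B' : Bk (FF M) V₀ H, Sd ℓ M E₁ B' ∧ Pr W B B' j ∧
    (∀ h, B'.e h = B.b W (j h)) ∧ (W.map B'.i).Normal ∧ (∀ h, j h ∈ TE B E₁ ↔ h ∈ TE B' E₁) ∧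
    ∀ E₂ ≤ E₁, Lam B' E₂ = Lam B E₂

/-- LMB: the numbers of modular characters of the local blocks.

Proof.  `TE B E₀ = Tg B.i.range B.g` (`act`), so `Lam B E₀ = lT B` and (2), (3) are LNH, LNN.  (1): RDA gives the datum `B_W` of
`C W` with `St E₀ W`; `i(W)` is central in `C W`, so LNH gives `ln (b W) = lT B_W`, and the inertial group of `B_W` is
`T ∩ C W = TE B (St E₀ W)` (an element of `T` acts on `V` by some `σ ∈ E₀`, it is in `C W` iff `σ ∈ St E₀ W`); transport `ln`.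
(4): KLD; the term of `v = 1` is `|E₀| ln e` (`Es E₀ 1 = E₀`, `b ⊥ = e`: `C ⊥ = ⊤`, a block of `G` under `e`), the others are given
by (1) (`St E₀ ⟨v⟩ = Es E₀ v`).  (5): `K9.LbdStmt`; `g` restricted to `TE B E'` is an idempotent, not `0`
(`TE B E' ≤ T` stabilises `g`, `C(V) ≤ TE B E'`). -/
def LmbStmt : Prop := ∀ (ℓ : ℕ) [Fact ℓ.Prime] (M : Ideal (integralClosure ℤ ℂ)) [M.IsMaximal],
  (ℓ : integralClosure ℤ ℂ) ∈ M → ℓ ≠ 2 → ∀ (V₀ G : Type) [CommGroup V₀] [Finite V₀] [Group G]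
  [Finite G] (E₀ : Subgroup (MulAut V₀)), Fq ℓ V₀ E₀ → ∀ B : Bk (FF M) V₀ G, Sb ℓ M E₀ B →
  (∀ W, W ≠ ⊥ → ln (fun t : B.C W => B.b W t) = Lam B (St E₀ W)) ∧
  (∀ W : Subgroup V₀, W ≠ ⊥ → (W.map B.i).Normal → ln B.e = Lam B E₀) ∧
  ln (fun t : Subgroup.normalizer (B.i.range : Set G) => br B.i.range B.e t) = Lam B E₀ ∧
  Nat.card E₀ * (IrrE M B.e).ncard = Nat.card E₀ * ln B.e +
    ∑ᶠ v ∈ {v : V₀ | v ≠ 1}, Nat.card (Es E₀ v) * Lam B (Es E₀ v) ∧
  ∀ E' ≤ E₀, 1 ≤ Lam B E'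

/-! ## 2. Fixed characters -/

/-- F1S: the number of the characters of a group with a cyclic quotient.

Proof.  `b^` = the lift of `b` (`eh M b`, the same for `X` and for `N`, extended by zero), a class function of `X`.
(1) `|X| k = ∑_(x, y ∈ X) b^([x, y])`, `k = |IrrE M b|`: `b^(z) = ∑_(χ ∈ b) (χ 1/|X|) χ(z⁻¹)`, `∑_(x, y) χ([x, y]) = |X|²/χ 1`.
(2) Let `X/N` be generated by the image of `t`, `m = |X/N|`, `S(i, j)` the sum over `x ∈ t^i N`, `y ∈ t^j N`.  The
substitutions `(x, y) ↦ (x y, y)` (`[x y, y] = [x, y]`) and `(x, y) ↦ (x, x y)` (`[x, x y] = x [x, y] x⁻¹`) show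
`S(i, j) = S(i + j, j) = S(i, i + j)`, so by Euclid's algorithm `S(i, j) = S(d, 0)`, `d` = gcd of `i`, `j`, `m`
(first make `i, j ≥ 0` and reduce; `S` depends on `i`, `j` modulo `m`).
(3) `S(i, 0) = |N| #{χ ∈ IrrE M (b|N) : χ fixed by t^i}`: let `τ(n) = t^i n t^(-i)`; with `x = t^i n`:
`∑_(n, y ∈ N) b^(τ(n y n⁻¹) y⁻¹)`, `b^ = ∑_χ (χ 1/|N|) χ(·⁻¹)`, and for every `χ ∈ IrrE M (b|N)`
`∑_(n, y) χ(y τ(n y⁻¹ n⁻¹)) = ∑_y |N| χ(y) χ(τ y⁻¹)/χ 1 = (|N|²/χ 1) [χ ∘ τ = χ]`.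
(4) A character is fixed by `t^i` and `t^j` iff it is fixed by `t^d` (`N` acts trivially); so
`|X| k = ∑_(i, j < m) |N| #Fix(t^i, t^j)`, and `∑_(x, y ∈ X) #Fix(x, y) = |N|² ∑_(i, j) #Fix(t^i, t^j)`. -/
def F1sStmt : Prop := ∀ (ℓ : ℕ) [Fact ℓ.Prime] (M : Ideal (integralClosure ℤ ℂ)) [M.IsMaximal],
  (ℓ : integralClosure ℤ ℂ) ∈ M → ∀ (X : Type) [Group X] [Finite X] (N : Subgroup X), N.Normal →
  (∃ t : X, ∀ x : X, ∃ i : ℕ, (t ^ i)⁻¹ * x ∈ N) → ∀ b : X → FF M, (∀ x, x ∉ N → b x = 0) →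
  (∀ x y, b (x * y * x⁻¹) = b y) → IsIdem (fun t : N => b t) →
  Nat.card X * Nat.card N * (IrrE M b).ncard = ∑ᶠ w : X × X,
    {χ : X → ℂ | (∀ x, x ∉ N → χ x = 0) ∧ (fun t : N => χ t) ∈ IrrE M (fun t : N => b t) ∧
      (∀ y, χ (w.1 * y * w.1⁻¹) = χ y) ∧ ∀ y, χ (w.2 * y * w.2⁻¹) = χ y}.ncard

/-- CHG: the characters of `g` which are fixed by two elements of the inertial group.

Proof.  NSD for `W = ⊤` (`Rw E₀ ⊤`, RWD; a datum with `Sd` and the same `e`, `g`, `i`: SYD, `b ⊤ = g`): `lam` is a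
bijection of `Ch B ⊤` onto `lin V₀`, `cv (fc B ⊤ x) χ = lam χ x` (`ux ⊤ = 1`), i.e. `χ(i x) = χ 1 · lam χ x`
(`fc B ⊤ x = i(x) g^`).  So `lam (t.χ) = lam χ ∘ σ⁻¹` if `t` induces `σ`, and `χ` is fixed by `t` iff `lam χ ∘ σ = lam χ`.
The `λ ∈ lin V₀` fixed by `σ` and `τ` are the ones which are trivial on the subgroup `Y` generated by
the `σ(v) v⁻¹`, `τ(v) v⁻¹`; their number is `|V₀ : Y|`, and `V₀ = Y × C(σ, τ)` since the group generated by `σ`, `τ` has
order prime to `ℓ` (averages), so it is the number of the `v` fixed by `σ` and `τ`. -/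
def ChgStmt : Prop := ∀ (ℓ : ℕ) [Fact ℓ.Prime] (M : Ideal (integralClosure ℤ ℂ)) [M.IsMaximal],
  (ℓ : integralClosure ℤ ℂ) ∈ M → ℓ ≠ 2 → ∀ (V₀ G : Type) [CommGroup V₀] [Finite V₀] [Group G]
  [Finite G] (E₀ : Subgroup (MulAut V₀)), Fq ℓ V₀ E₀ → ∀ B : Bk (FF M) V₀ G, Sb ℓ M E₀ B →
  ∀ σ ∈ E₀, ∀ τ ∈ E₀, ∀ t ∈ Tg B.i.range B.g, ∀ u ∈ Tg B.i.range B.g,
  (∀ v, t * B.i v * t⁻¹ = B.i (σ v)) → (∀ v, u * B.i v * u⁻¹ = B.i (τ v)) →
  {χ | χ ∈ Ch B ⊤ ∧ (∀ y, χ (t * y * t⁻¹) = χ y) ∧ ∀ y, χ (u * y * u⁻¹) = χ y}.ncard =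
    {v : V₀ | σ v = v ∧ τ v = v}.ncard

/-- LMC: `Lam` for cyclic groups.

Proof.  Induction on `|E'|`.  Let `X = TE B E'`, `N = C(V) = C ⊤` (normal in `X`, `X/N ≅ E'` cyclic).  XWD (`W = ⊤`, `E₁ = E'`,
`H = X`; `St E₀ ⊤` is trivial): a datum `B'` of `X` with `e' = g` (`b ⊤ = g`: `br_V(b ⊤) = b ⊤`), `Fq ℓ V₀ E'`.
F1S for `X`, `N`, `b = g` and CHG: `|X| |N| k = ∑_(x, y ∈ X) #{v : v fixed by x, y} = |N|² ∑_(σ, τ ∈ E') #{v : σ v = v, τ v = v}`,
i.e. `|E'| k = ∑_v |Es E' v|²`, `k = |IrrE M (g|X)|`.  LMB (4), (2) for `B'`: `|E'| k = |E'| Lam B E' + ∑_(v ≠ 1) |Es E' v| Lam (Es E' v)`, i.e.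
`∑_v |Es E' v| Lam (Es E' v) = ∑_v |Es E' v|²` (`Es E' 1 = E'`).  If `Es E' v ≠ E'` then `Lam = |Es E' v|` by induction.  The number
of the other `v` is not `0` (`v = 1`), so `Lam B E' = |E'|`. -/
def LmcStmt : Prop := ∀ (ℓ : ℕ) [Fact ℓ.Prime] (M : Ideal (integralClosure ℤ ℂ)) [M.IsMaximal],
  (ℓ : integralClosure ℤ ℂ) ∈ M → ℓ ≠ 2 → ∀ (V₀ G : Type) [CommGroup V₀] [Finite V₀] [Group G]
  [Finite G] (E₀ : Subgroup (MulAut V₀)), Fq ℓ V₀ E₀ → ∀ B : Bk (FF M) V₀ G, Sb ℓ M E₀ B →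
  ∀ ρ ∈ E₀, Lam B (Subgroup.zpowers ρ) = Nat.card (Subgroup.zpowers ρ)

/-- FXS: the sum of the numbers of fixed characters of `b W`.

Proof.  `X = TE B E₁ ⊔ C W`, `N = C W`, normal in `X` (`E₁` fixes `W`).  `X/N ≅ E₁/St E₀ W`, of order `|E₁|/n`, `n = nS E₀ W`
(`T ∩ C W = TE B (St E₀ W)`, `|TE B E'| = |E'| |C ⊤|`), cyclic: it acts faithfully on the cyclic group `W` of prime
order.  XWD gives the datum `B'` of `X` with `e' = b W`, `E₁`; LMB (4), (2) for `B'` (`i(W)` is normal):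
`|E₁| k = |E₁| Lam B E₁ + ∑_(v ≠ 1) .. = ∑_v |Es E₁ v| Lam B (Es E₁ v)`, `k = |IrrE M e'|`.  F1S for `X`, `N`, `b W`:
`|X| |N| k = ∑_(x, y ∈ X) #Fix(x, y)`; an element `x = t c` acts on `Ch B W` as `t` (`c ∈ C W`), and if `t` induces `σ` as
`ac B σ` or its inverse (two elements of `T` which induce `σ` differ by an element of `C(V) ≤ C W`), so the sum is
`(|N|/n)² ∑_(σ, τ ∈ E₁) #Fix(σ, τ)` (every `x N` belongs to `n` elements `σ`).  `|X| = |N| |E₁|/n`.  So
`∑_(σ, τ ∈ E₁) #Fix(σ, τ) = n |E₁| k`. -/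
def FxsStmt : Prop := ∀ (ℓ : ℕ) [Fact ℓ.Prime] (M : Ideal (integralClosure ℤ ℂ)) [M.IsMaximal],
  (ℓ : integralClosure ℤ ℂ) ∈ M → ℓ ≠ 2 → ∀ (V₀ G : Type) [CommGroup V₀] [Finite V₀] [Group G]
  [Finite G] (E₀ : Subgroup (MulAut V₀)), Fq ℓ V₀ E₀ → ∀ B : Bk (FF M) V₀ G, Sb ℓ M E₀ B →
  ∀ W : Subgroup V₀, Nat.card W = ℓ → ∀ E₁ : Subgroup (MulAut V₀), E₁ ≤ E₀ → St E₀ W ≤ E₁ →
  (∀ σ ∈ E₁, ∀ w ∈ W, σ w ∈ W) →
  ∑ᶠ w : E₁ × E₁, {χ | χ ∈ Ch B W ∧ ac B w.1 χ = χ ∧ ac B w.2 χ = χ}.ncard =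
    nS E₀ W * ∑ᶠ v : V₀, Nat.card (Es E₁ v) * Lam B (Es E₁ v)

/-- FXL: the numbers of fixed characters are determined by `Lam`.

Proof.  Let `N_W` be the group of the `σ ∈ E₀` with `σ W = W`; `N_W/St E₀ W` is cyclic.  Strong induction on the order of
`E₁ = ⟨σ⟩ St E₀ W`.  The elements of `St E₀ W` act trivially on `Ch B W` (`T ∩ C W ≤ C W`; class functions), and
`ac B (σ τ) = ac B σ ∘ ac B τ` on `Ch B W` for `σ`, `τ ∈ N_W` (up to elements of `C(V)`).  So for `ρ`, `τ ∈ E₁` the number of the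
characters fixed by `ρ` and `τ` is `FixC B W δ` for `δ` with `⟨δ⟩ St E₀ W = ⟨ρ, τ⟩ St E₀ W` (cyclic quotient).  FXS for `E₁`
and both data: the right sides are equal.  In the difference of the left sides the pairs `(ρ, τ)` which
generate a proper subgroup modulo `St E₀ W` cancel by induction, the others (for example `(σ, σ)`) all give
`FixC B W σ - FixC B' W σ`; so it is `0`. -/
def FxlStmt : Prop := ∀ (ℓ : ℕ) [Fact ℓ.Prime] (M : Ideal (integralClosure ℤ ℂ)) [M.IsMaximal],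
  (ℓ : integralClosure ℤ ℂ) ∈ M → ℓ ≠ 2 → ∀ (V₀ G G' : Type) [CommGroup V₀] [Finite V₀] [Group G]
  [Finite G] [Group G'] [Finite G'] (E₀ : Subgroup (MulAut V₀)), Fq ℓ V₀ E₀ →
  ∀ (B : Bk (FF M) V₀ G) (B' : Bk (FF M) V₀ G'), Sb ℓ M E₀ B → Sb ℓ M E₀ B' →
  (∀ E' ≤ E₀, Lam B' E' = Lam B E') → ∀ W : Subgroup V₀, Nat.card W = ℓ → ∀ σ ∈ E₀,
  mp σ W = W → FixC B' W σ = FixC B W σ

/-! ## 3. The final deduction -/

/-- KCE: NOT NEEDED (replaced by `KaeStmt` of `StmtsX.lean`). -/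
def KceStmt : Prop := ∀ (ℓ : ℕ) [Fact ℓ.Prime] (M : Ideal (integralClosure ℤ ℂ)) [M.IsMaximal],
  (ℓ : integralClosure ℤ ℂ) ∈ M → 5 ≤ ℓ → ∀ (V₀ G : Type) [CommGroup V₀] [Finite V₀] [Group G]
  [Finite G] (E₀ : Subgroup (MulAut V₀)), Fq ℓ V₀ E₀ → ∀ B : Bk (FF M) V₀ G, Sd ℓ M E₀ B →
  ∃ (G' : Type) (_ : Group G') (_ : Finite G') (B' : Bk (FF M) V₀ G'), Sb ℓ M E₀ B' ∧
    (∀ E' ≤ E₀, Lam B' E' = Lam B E') ∧ ln B'.e = Lam B' E₀ ∧
    ((ℓ ^ 2 : ℕ) : ℤ) ∣ ((IrrE M B.e).ncard : ℤ) - (IrrE M B'.e).ncard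

/-- YYE: the theorem for the datum of a block.

Proof (hypothesis `KaeStmt` of `StmtsX.lean`, which helper4 proves; `KceStmt` is not needed).  KAE: `ℓ ^ 2 ∣ ln e - lT B`.
`lT B = Lam B E₀ = ln (br V e | N(V))` (`TE B E₀ = Tg B.i.range B.g`; LMB (3), or LNN).  `1 ≤ ln ≤ k ≤ ℓ ^ 2` for both
(`K9.LbdStmt`, `K9.KlStmt`; `br V e` is a block of `N(V)` with the defect group `V`, `T3.NvtStmt`), so the difference is
less than `ℓ ^ 2`: they are equal.  `K9.ChvStmt`. -/
def YyeStmt : Prop := ∀ (ℓ : ℕ) [Fact ℓ.Prime] (M : Ideal (integralClosure ℤ ℂ)) [M.IsMaximal],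
  (ℓ : integralClosure ℤ ℂ) ∈ M → 5 ≤ ℓ → ∀ (V₀ G : Type) [CommGroup V₀] [Finite V₀] [Group G]
  [Finite G] (E₀ : Subgroup (MulAut V₀)), Fq ℓ V₀ E₀ → ∀ B : Bk (FF M) V₀ G, Sd ℓ M E₀ B →
  YY ℓ ⊤ B.e = 0

/-- YYF: the theorem for block idempotents with defect groups of order `ℓ ^ 2`.

Proof.  `V` is commutative (order `ℓ ^ 2`).  There is a block `γ` of `C(V)` with `br_V(e) γ = γ` (`br_V(e) ≠ 0`), so `Ld`
(compare `T2.DzaStmt`, `K9`).  If all `v ∈ V` satisfy `v ^ ℓ = 1`: `S2fStmt` (`StmtsX.lean`; or `SD.EsdStmt`, `SD.SydStmt`, YYE).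
Otherwise `V` is cyclic of order `ℓ ^ 2`: `T5.t5a_` (`Helper11_AT5/Asm5.lean`), see the end of `Helper43_ASO/FRD.lean`. -/
def YyfStmt : Prop := ∀ (ℓ : ℕ) [Fact ℓ.Prime] (M : Ideal (integralClosure ℤ ℂ)) [M.IsMaximal],
  (ℓ : integralClosure ℤ ℂ) ∈ M → 5 ≤ ℓ → ∀ (G : Type) [Group G] [Finite G] (e : G → FF M),
  IsBlk e → ∀ V : Subgroup G, Tp ℓ e V → Nat.card V = ℓ ^ 2 → YY ℓ ⊤ e = 0

/-- FAE: the final theorem: all blocks whose defect group has order `ℓ ^ 2` modulo the central subgroup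
`O_ℓ(G)`.

Proof.  The beginning of `Helper43_ASO/FRD.lean`: `e` the block of `χ`, `p : G → A = G/O_ℓ(G)`,
`|G| altSum χ = |Z|² YY ℓ ⊤ (push p e)` (`H75.altSum_central`).  `Z = opCore ℓ G ≤ D`: see the proof of `T2.DzaStmt`
(`Helper24_AT2/DZA.lean`, `hZD`; it needs no hypothesis on `D`).  So `D/Z` has order `ℓ ^ 2`, it is commutative, and
the commutators of elements of `D` are in `Z`.  `T2.DzaStmt`: `push p e` is a block, `|D.map p| = ℓ ^ 2`, and
`Ld.tp`: `Tp ℓ (push p e) (D.map p)`.  YYF. -/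
def FaeStmt : Prop := ∀ (ℓ : ℕ) [Fact ℓ.Prime] (M : Ideal (integralClosure ℤ ℂ)) [M.IsMaximal],
  (ℓ : integralClosure ℤ ℂ) ∈ M → 5 ≤ ℓ → ∀ (G : Type) [Group G] [Finite G],
  opCore ℓ G ≤ Subgroup.center G → ∀ χ ∈ Irr G, ∀ D : Subgroup G, ML.IsDef ℓ M χ D →
  Nat.card D = ℓ ^ 2 * Nat.card (opCore ℓ G) → altSum ℓ M χ = 0

end Pool.Agent.PP.SE
end
end -- Pool.Agent.ASE.Stmts8

section -- Pool.Agent.Helper25_ASD.LBD

/-!
# Squad ASD, row LBD: the local block of `W` has the defect group `V`; its inertial index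
-/

open scoped BigOperators

noncomputable section

namespace Pool.Agent.PP.SD.H25

open Pool.Agent.Helper51_AWC Pool.Agent.Helper79_WRA Pool.Agent.PP Pool.Agent.PP.KF
open Pool.Agent.PP.K9 Pool.Agent.PP.K9.H97 Pool.Agent.PP.H75 Pool.Agent.PP.T3
open Pool.Agent.PP.T3.H85 Pool.Agent.PP.SO Pool.Agent.PP.SD

attribute [local instance] Ideal.Quotient.field

/-- the index of the centraliser of `V` in a group which acts on `V₀`. -/
theorem relIndex_act {V₀ G : Type} [CommGroup V₀] [Group G] (i : V₀ →* G)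
    (hi : Function.Injective i) (T C : Subgroup G) (E₀ S : Subgroup (MulAut V₀))
    (hS : S ≤ E₀)
    (act : ∀ t ∈ T, ∃ σ ∈ E₀, ∀ v, t * i v * t⁻¹ = i (σ v))
    (sur : ∀ σ ∈ E₀, ∃ t ∈ T, ∀ v, t * i v * t⁻¹ = i (σ v))
    (hC : ∀ t ∈ T, ∀ σ ∈ E₀, (∀ v, t * i v * t⁻¹ = i (σ v)) → (t ∈ C ↔ σ ∈ S)) :
    (Subgroup.centralizer (i.range : Set G)).relIndex (T ⊓ C) = Nat.card S := by
  have hch : ∀ t : (T ⊓ C : Subgroup G), ∃ σ : MulAut V₀, σ ∈ E₀ ∧
      ∀ v, (t : G) * i v * (t : G)⁻¹ = i (σ v) := fun t => by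
    obtain ⟨σ, h1, h2⟩ := act t t.2.1
    exact ⟨σ, h1, h2⟩
  choose f hfE hf using hch
  let φ : (T ⊓ C : Subgroup G) →* MulAut V₀ := MonoidHom.mk' f (by
    intro a b
    apply MulEquiv.ext
    intro v
    apply hi
    rw [MulAut.mul_apply, ← hf (a * b) v, ← hf a, ← hf b v]
    push_cast
    group)
  have hker : φ.ker = (Subgroup.centralizer (i.range : Set G)).subgroupOf (T ⊓ C) := by
    ext t
    rw [MonoidHom.mem_ker, Subgroup.mem_subgroupOf, Subgroup.mem_centralizer_iff]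
    constructor
    · intro h
      rintro _ ⟨v, rfl⟩
      have h1 := hf t v
      have h2 : f t = 1 := h
      rw [h2, MulAut.one_apply] at h1
      calc i v * (t : G) = (t : G) * i v * (t : G)⁻¹ * t := by rw [h1]
        _ = (t : G) * i v := by group
    · intro h
      change f t = 1
      apply MulEquiv.ext
      intro v
      apply hi
      rw [← hf t v, MulAut.one_apply, ← h (i v) ⟨v, rfl⟩, mul_inv_cancel_right]
  have hrange : φ.range = S := by
    ext σ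
    constructor
    · rintro ⟨t, rfl⟩
      exact (hC t t.2.1 (f t) (hfE t) (hf t)).1 t.2.2
    · intro hσ
      obtain ⟨t, ht, h1⟩ := sur σ (hS hσ)
      have htC : t ∈ C := (hC t ht σ (hS hσ) h1).2 hσ
      refine ⟨⟨t, ht, htC⟩, ?_⟩
      change f ⟨t, ht, htC⟩ = σ
      apply MulEquiv.ext
      intro v
      apply hi
      rw [← hf ⟨t, ht, htC⟩ v, ← h1 v]
  rw [Subgroup.relIndex, ← hker, Subgroup.index_ker, hrange]

/-- LBD -/
theorem lbd : LbdStmt := by
  intro ℓ _ M _ hM V₀ G _ _ _ _ E₀ hFr B hB W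
  have hF : GoodF ℓ (FF M) := H50.fld ℓ Fact.out M hM
  have hL := hB.ld
  have hLc := hB.lb W
  have hVX : B.i.range ≤ B.C W := by
    rintro _ ⟨v, rfl⟩
    refine Subgroup.mem_centralizer_iff.2 ?_
    rintro _ ⟨w, _, rfl⟩
    rw [← map_mul, ← map_mul, mul_comm]
  have hCX : Subgroup.centralizer (B.i.range : Set G) ≤ B.C W := by
    refine Subgroup.centralizer_le ?_
    rintro _ ⟨w, _, rfl⟩
    exact ⟨w, rfl⟩
  have heC : IsCl (fun t : B.C W => B.e t) := fun x y => hL.blk.1.1 x y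
  have hVcard : Nat.card (B.i.range.subgroupOf (B.C W)) = Nat.card B.i.range :=
    Nat.card_congr (Subgroup.subgroupOfEquivOfLe hVX).toEquiv
  have hVp : IsPGroup ℓ (B.i.range.subgroupOf (B.C W)) :=
    hL.tp.pg.of_equiv (Subgroup.subgroupOfEquivOfLe hVX).symm
  have hTb : Tp ℓ (fun t : B.C W => B.b W t) (B.i.range.subgroupOf (B.C W)) := by
    refine ⟨hVp, gd_of_gam hVX hCX hL.gam hLc.gam, ?_⟩
    intro Q hQ hQb
    have h1 := gd_map (gd_of_mul hF heC hLc.blk.blk.1.1 hLc.und hQ hQb)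
    have hcard : Nat.card (Q.map (B.C W).subtype) = Nat.card Q :=
      (Nat.card_congr (Q.equivMapOfInjective (B.C W).subtype
        (B.C W).subtype_injective).toEquiv).symm
    have h2 := hL.tp.mx _ (hQ.map (B.C W).subtype) h1
    rw [hcard] at h2
    rw [hVcard]
    exact h2
  have hix : ix (B.i.range.subgroupOf (B.C W)) (fun t : B.C W => B.g t) =
      Nat.card (St E₀ W) := by
    rw [ix_eq hVX hCX hL.gam.supp]
    refine relIndex_act B.i hB.inj (Tg B.i.range B.g) (B.C W) E₀ (St E₀ W)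
      (fun σ hσ => hσ.1) hB.act hB.sur ?_
    intro t _ σ hσ h1
    constructor
    · intro htC
      refine ⟨hσ, fun w hw => ?_⟩
      have hcw : B.i w * t = t * B.i w :=
        Subgroup.mem_centralizer_iff.1 htC (B.i w) ⟨w, hw, rfl⟩
      apply hB.inj
      rw [← h1 w, ← hcw, mul_inv_cancel_right]
    · intro hσW
      refine Subgroup.mem_centralizer_iff.2 ?_
      rintro _ ⟨w, hw, rfl⟩
      have h2 := h1 w
      rw [hσW.2 w hw] at h2
      calc B.i w * t = t * B.i w * t⁻¹ * t := by rw [h2]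
        _ = t * B.i w := by group
  refine ⟨ld_of hVX hCX hL.ab hLc.blk.blk hL.gam hLc.gam hTb, hix, fun hRw => ?_⟩
  rw [hix]
  have hbot : St E₀ W = ⊥ := by
    rw [eq_bot_iff]
    intro σ hσ
    exact Subgroup.mem_bot.2 (hRw.2 σ hσ.1 hσ.2)
  rw [hbot]
  exact Subgroup.card_bot

end Pool.Agent.PP.SD.H25
end
end -- Pool.Agent.Helper25_ASD.LBD

section -- Pool.Agent.Helper89_ASO.LBU

/-!
# Squad ASO, row LBU: existence and uniqueness of the local blocks

The proof of LOC (`Helper88_AT3/Loc.lean`) for a subgroup of the defect group.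
-/

open scoped BigOperators

set_option autoImplicit false

noncomputable section

namespace Pool.Agent.PP.SO.H89

open Pool.Agent.Helper51_AWC Pool.Agent.Helper79_WRA Pool.Agent.PP Pool.Agent.PP.KF
open Pool.Agent.PP.K9 Pool.Agent.PP.K9.H97 Pool.Agent.PP.H75 Pool.Agent.PP.T3
open Pool.Agent.PP.T3.H88

attribute [local instance] Ideal.Quotient.field

section tools

variable {F G : Type} [Field F] [Group G] [Finite G] {ℓ : ℕ} [Fact ℓ.Prime]

omit [Fact ℓ.Prime] in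
/-- the restriction to the centraliser of an `ℓ`-subgroup -/
theorem idem_cent (hF : GoodF ℓ F) {e : G → F} (he : IsIdem e) {Q : Subgroup G}
    (hQ : IsPGroup ℓ Q) : IsIdem (fun t : Subgroup.centralizer (Q : Set G) => e t) := by
  have hn : Subgroup.centralizer (Q : Set G) ≤ Subgroup.normalizer (Q : Set G) :=
    Subgroup.centralizer_le_normalizer _
  have h := (H20.brm ℓ F hF G Q (Subgroup.centralizer (Q : Set G)) hQ le_rfl hn).2.2 e he
  have h2 : (fun t : Subgroup.centralizer (Q : Set G) => br Q e t) =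
      fun t : Subgroup.centralizer (Q : Set G) => e t := by
    funext t
    exact H66.br_of_mem t.2
  rwa [h2] at h

omit [Fact ℓ.Prime] in
/-- `br_V` is multiplicative on the idempotents of a subgroup which contains `V` -/
theorem br_mul' (hF : GoodF ℓ F) {V H : Subgroup G} (hV : IsPGroup ℓ V)
    (hVC : V ≤ H) {b c : G → F} (hb : Ix H b) (hc : Ix H c) :
    br V (mulF b c) = mulF (br V b) (br V c) :=
  H66.br_mulF hF hV (fun p hp => (cj_eq_iff p b).1 (hb.inv (hVC hp)))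
    (fun p hp => (cj_eq_iff p c).1 (hc.inv (hVC hp)))

omit [Fact ℓ.Prime] in
/-- the image of an idempotent under `br_V` -/
theorem ix_br' (hF : GoodF ℓ F) {V H : Subgroup G} (hV : IsPGroup ℓ V)
    (hVC : V ≤ H) (hXC : Subgroup.centralizer (V : Set G) ≤ H) {b : G → F}
    (hb : Ix H b) : Ix (Subgroup.centralizer (V : Set G)) (br V b) := by
  refine ⟨fun x hx => H66.br_of_not_mem hx, ?_, ?_⟩
  · intro x y
    change br V b (y * x * (y : G)⁻¹) = br V b x
    have hmem : (y : G) * x * (y : G)⁻¹ ∈ Subgroup.centralizer (V : Set G) :=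
      Subgroup.mul_mem _ (Subgroup.mul_mem _ y.2 x.2) (Subgroup.inv_mem _ y.2)
    rw [H66.br_of_mem hmem, H66.br_of_mem x.2]
    exact (cj_eq_iff (y : G) b).1 (hb.inv (hXC y.2)) x
  · rw [← mulF_res (Subgroup.centralizer (V : Set G)) _ (fun x hx => H66.br_of_not_mem hx),
      ← br_mul' hF hV hVC hb hb, hb.mul]

/-- the conditions for the local block, for a subgroup `H` -/
structure Lh (e g : G → F) (V H : Subgroup G) (b : G → F) : Prop where
  blk : Bx H b
  und : mulF (fun t : H => e t) (fun t : H => b t) = fun t : H => b t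
  gam : mulF (br V b) g = g

theorem lh_unique (hF : GoodF ℓ F) {e g : G → F} {V H : Subgroup G} (hV : IsPGroup ℓ V)
    (hVC : V ≤ H) (hg : g ≠ 0) {b b' : G → F}
    (hb : Lh e g V H b) (hb' : Lh e g V H b') : b = b' := by
  rcases hb.blk.dich hb'.blk with h | h
  · exact h
  · exfalso
    apply hg
    have h1 := br_mul' hF hV hVC hb.blk.ix hb'.blk.ix
    rw [h, br_zero] at h1
    calc g = mulF (br V b) (mulF (br V b') g) := by rw [hb'.gam, hb.gam]
      _ = mulF (mulF (br V b) (br V b')) g := (mulF_assoc _ _ _).symm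
      _ = 0 := by rw [← h1, mulF_zero_left]

theorem lh_exists (hF : GoodF ℓ F) {e g : G → F} {V H : Subgroup G} (hL : Ld ℓ e V g)
    (hVC : V ≤ H) (hXC : Subgroup.centralizer (V : Set G) ≤ H)
    (heI : IsIdem (fun t : H => e t)) : ∃ b, Lh e g V H b := by
  set E : G → F := PP.ext0 H (fun t : H => e t) with hE
  have hbrE : br V E = br V e := by
    funext x
    by_cases hx : x ∈ Subgroup.centralizer (V : Set G)
    · rw [H66.br_of_mem hx, H66.br_of_mem hx, hE, H46.ext0_of_mem _ (hXC hx)]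
    · rw [H66.br_of_not_mem hx, H66.br_of_not_mem hx]
  have hext_add : ∀ a b : H → F, PP.ext0 H (a + b) = PP.ext0 H a + PP.ext0 H b := by
    intro a b
    funext x
    by_cases hx : x ∈ H
    · rw [H46.ext0_of_mem _ hx, Pi.add_apply, Pi.add_apply, H46.ext0_of_mem _ hx,
        H46.ext0_of_mem _ hx]
    · rw [H46.ext0_of_not_mem _ hx, Pi.add_apply, H46.ext0_of_not_mem _ hx,
        H46.ext0_of_not_mem _ hx, add_zero]
  have hext_zero : PP.ext0 H (0 : H → F) = 0 := by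
    funext x
    by_cases hx : x ∈ H
    · rw [H46.ext0_of_mem _ hx]
      rfl
    · rw [H46.ext0_of_not_mem _ hx]
      rfl
  obtain ⟨b₀, hb₀, heb₀, hL₀⟩ := H24.exists_blk
    (fun a : H → F => mulF (br V (PP.ext0 H a)) g)
    (by
      show mulF (br V (PP.ext0 H 0)) g = 0
      rw [hext_zero, br_zero, mulF_zero_left])
    (by
      intro a b
      show mulF (br V (PP.ext0 H (a + b))) g =
        mulF (br V (PP.ext0 H a)) g + mulF (br V (PP.ext0 H b)) g
      rw [hext_add, br_add, H24.mulF_add_l])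
    heI
    (by
      show mulF (br V E) g ≠ 0
      rw [hbrE, hL.und]
      exact hL.gam.ne)
  have hrestr : (fun t : H => PP.ext0 H b₀ t) = b₀ := H46.restr_ext0 _
  have hbx : Bx H (PP.ext0 H b₀) := by
    refine ⟨fun x hx => H46.ext0_of_not_mem _ hx, ?_⟩
    rw [hrestr]
    exact hb₀
  refine ⟨PP.ext0 H b₀, hbx, ?_, ?_⟩
  · rw [hrestr]
    exact heb₀
  · have hix := ix_br' hF hL.tp.pg hVC hXC hbx.ix
    rw [hix.comm hL.gam.ix]
    rcases hL.gam.dich' hix with h | h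
    · exact h
    · exfalso
      apply hL₀
      show mulF (br V (PP.ext0 H b₀)) g = 0
      rw [hix.comm hL.gam.ix, h]

end tools

/-- LBU -/
theorem lbu : LbuStmt := by
  intro ℓ _ F _ hF V₀ G _ _ _ _ e g i hi hL
  have hpV := hL.tp.pg
  have hlh : ∀ (W : Subgroup V₀) (b : G → F), Lb e g i W b ↔
      Lh e g i.range (Subgroup.centralizer ((W.map i : Subgroup G) : Set G)) b := fun W b =>
    ⟨fun h => ⟨h.blk, h.und, h.gam⟩, fun h => ⟨h.blk, h.und, h.gam⟩⟩
  have hWle : ∀ W : Subgroup V₀, W.map i ≤ i.range := by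
    rintro W _ ⟨v, _, rfl⟩
    exact ⟨v, rfl⟩
  have hpW : ∀ W : Subgroup V₀, IsPGroup ℓ (W.map i) := fun W => hpV.to_le (hWle W)
  have hVC : ∀ W : Subgroup V₀,
      i.range ≤ Subgroup.centralizer ((W.map i : Subgroup G) : Set G) := by
    intro W x hx
    rw [Subgroup.mem_centralizer_iff]
    intro y hy
    exact hL.ab y (hWle W hy) x hx
  have hXC : ∀ W : Subgroup V₀, Subgroup.centralizer (i.range : Set G) ≤
      Subgroup.centralizer ((W.map i : Subgroup G) : Set G) := fun W =>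
    Subgroup.centralizer_le (fun x hx => hWle W hx)
  refine ⟨?_, ?_, ?_, ?_, ?_⟩
  · intro W
    obtain ⟨b, hb⟩ := lh_exists hF hL (hVC W) (hXC W) (idem_cent hF hL.blk.1 (hpW W))
    exact ⟨b, (hlh W b).2 hb⟩
  · intro W b b' hb hb'
    exact lh_unique hF hpV (hVC W) hL.gam.ne ((hlh W b).1 hb) ((hlh W b').1 hb')
  · rw [hlh, ← MonoidHom.range_eq_map]
    have hbr : br i.range g = g := by
      funext x
      by_cases hx : x ∈ Subgroup.centralizer (i.range : Set G)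
      · rw [H66.br_of_mem hx]
      · rw [H66.br_of_not_mem hx, hL.gam.supp x hx]
    refine ⟨hL.gam, ?_, ?_⟩
    · have h1 := hL.und
      have h2 : (fun t : Subgroup.centralizer (i.range : Set G) => e t) =
          fun t : Subgroup.centralizer (i.range : Set G) => br i.range e t := by
        funext t
        exact (H66.br_of_mem t.2).symm
      have h3 := mulF_res (a := br i.range e) (Subgroup.centralizer (i.range : Set G)) g
        (fun x hx => H66.br_of_not_mem hx)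
      rw [h1] at h3
      rw [h2]
      exact h3.symm
    · rw [hbr]
      exact hL.gam.ix.mul
  · rw [hlh, Subgroup.map_bot]
    have htop : Subgroup.centralizer (((⊥ : Subgroup G) : Subgroup G) : Set G) = ⊤ := by
      rw [eq_top_iff]
      intro x _
      rw [Subgroup.mem_centralizer_iff]
      intro y hy
      have hy1 : y = 1 := hy
      rw [hy1, one_mul, mul_one]
    rw [htop]
    refine ⟨⟨fun x hx => absurd (Subgroup.mem_top x) hx, ?_⟩, ?_, hL.und⟩
    · exact H20.IsBlk_equiv (Subgroup.topEquiv : (⊤ : Subgroup G) ≃* G) hL.blk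
    · exact (H20.IsBlk_equiv (Subgroup.topEquiv : (⊤ : Subgroup G) ≃* G) hL.blk).1.2
  · intro v b
    have h1 : (Subgroup.zpowers v).map i = Subgroup.zpowers (i v) := MonoidHom.map_zpowers i v
    rw [hlh, h1, cu_eq]
    exact ⟨fun h => ⟨h.blk, h.und, h.gam⟩, fun h => ⟨h.blk, h.und, h.gam⟩⟩

end Pool.Agent.PP.SO.H89
end
end -- Pool.Agent.Helper89_ASO.LBU

section -- Pool.Agent.Helper49_ASD.RDA

/-!
# Squad ASD, row RDA: the datum of the local block of `W`
-/

open scoped BigOperators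

set_option autoImplicit false

noncomputable section

namespace Pool.Agent.PP.SD.H49

open Pool.Agent.Helper51_AWC Pool.Agent.Helper79_WRA Pool.Agent.PP Pool.Agent.PP.KF
open Pool.Agent.PP.K9 Pool.Agent.PP.K9.H97 Pool.Agent.PP.H75 Pool.Agent.PP.T3 Pool.Agent.PP.SO
open Pool.Agent.PP.T3.H85 Pool.Agent.PP.T3.H88

attribute [local instance] Ideal.Quotient.field

section tools

variable {F V₀ G : Type} [Field F] [CommGroup V₀] [Group G]

/-- uniqueness of the block over `g` -/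
theorem uniq1 [Finite G] {ℓ : ℕ} [Fact ℓ.Prime] (hF : GoodF ℓ F) {g : G → F} {V H : Subgroup G}
    (hV : IsPGroup ℓ V) (hVC : V ≤ H) (hg : g ≠ 0) {b b' : G → F} (hb : Bx H b) (hb' : Bx H b')
    (h1 : mulF (br V b) g = g) (h2 : mulF (br V b') g = g) : b = b' := by
  rcases hb.dich hb' with h | h
  · exact h
  · exfalso
    apply hg
    have h3 := SO.H89.br_mul' hF hV hVC hb.ix hb'.ix
    rw [h, br_zero] at h3
    calc g = mulF (br V b) (mulF (br V b') g) := by rw [h2, h1]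
      _ = mulF (mulF (br V b) (br V b')) g := (mulF_assoc _ _ _).symm
      _ = 0 := by rw [← h3, mulF_zero_left]

theorem mem_C (B : Bk F V₀ G) (W : Subgroup V₀) (x : G) :
    x ∈ B.C W ↔ ∀ w ∈ W, B.i w * x = x * B.i w := by
  constructor
  · intro h w hw
    exact Subgroup.mem_centralizer_iff.1 h (B.i w) ⟨w, hw, rfl⟩
  · intro h
    refine Subgroup.mem_centralizer_iff.2 ?_
    rintro _ ⟨w, hw, rfl⟩
    exact h w hw

theorem C_sup (B : Bk F V₀ G) (W W' : Subgroup V₀) (x : G) :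
    x ∈ B.C (W ⊔ W') ↔ x ∈ B.C W ∧ x ∈ B.C W' := by
  constructor
  · intro h
    rw [mem_C] at h
    constructor
    · rw [mem_C]
      exact fun w hw => h w (Subgroup.mem_sup_left hw)
    · rw [mem_C]
      exact fun w hw => h w (Subgroup.mem_sup_right hw)
  · rintro ⟨h1, h2⟩
    rw [mem_C] at h1 h2 ⊢
    have h3 : W ⊔ W' ≤ (Subgroup.centralizer ({x} : Set G)).comap B.i := by
      rw [sup_le_iff]
      constructor
      · intro w hw
        rw [Subgroup.mem_comap, Subgroup.mem_centralizer_singleton_iff]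
        exact h1 w hw
      · intro w hw
        rw [Subgroup.mem_comap, Subgroup.mem_centralizer_singleton_iff]
        exact h2 w hw
    intro w hw
    exact Subgroup.mem_centralizer_singleton_iff.1 (Subgroup.mem_comap.1 (h3 hw))

theorem i_mem (B : Bk F V₀ G) (W : Subgroup V₀) (v : V₀) : B.i v ∈ B.C W := by
  rw [mem_C]
  intro w _
  rw [← map_mul, ← map_mul, mul_comm]

/-- the embedding of the defect group in the centraliser of `W` -/
def iW (B : Bk F V₀ G) (W : Subgroup V₀) : V₀ →* B.C W := B.i.codRestrict (B.C W) (i_mem B W)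

/-- the datum of the local block of `W` -/
def loc (B : Bk F V₀ G) (W : Subgroup V₀) : Bk F V₀ (B.C W) where
  e := fun t => B.b W t
  g := fun t => B.g t
  i := iW B W
  b := fun W' t => B.b (W ⊔ W') t
  D := fun _ => 0
  S := fun _ => 0

theorem iW_coe (B : Bk F V₀ G) (W : Subgroup V₀) (v : V₀) : (iW B W v : G) = B.i v := rfl

theorem mem_cen (B : Bk F V₀ G) (W W' : Subgroup V₀) (t : B.C W) :
    t ∈ Subgroup.centralizer ((W'.map (iW B W) : Subgroup (B.C W)) : Set (B.C W)) ↔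
      (t : G) ∈ B.C (W ⊔ W') := by
  rw [C_sup, Subgroup.mem_centralizer_iff, mem_C B W']
  constructor
  · intro h
    refine ⟨t.2, fun w hw => ?_⟩
    exact congrArg Subtype.val (h (iW B W w) ⟨w, hw, rfl⟩)
  · rintro ⟨_, h⟩ _ ⟨w, hw, rfl⟩
    exact Subtype.ext (h w hw)

/-- the centralisers of `W'` in `C W` and of `W ⊔ W'` in `G` -/
def cenE (B : Bk F V₀ G) (W W' : Subgroup V₀) :
    Subgroup.centralizer ((W'.map (iW B W) : Subgroup (B.C W)) : Set (B.C W)) ≃*
      B.C (W ⊔ W') where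
  toFun t := ⟨((t : B.C W) : G), (mem_cen B W W' t).1 t.2⟩
  invFun t := ⟨⟨(t : G), ((C_sup B W W' t).1 t.2).1⟩, (mem_cen B W W' _).2 t.2⟩
  left_inv _ := rfl
  right_inv _ := rfl
  map_mul' _ _ := rfl

theorem range_iW (B : Bk F V₀ G) (W : Subgroup V₀) :
    (iW B W).range = B.i.range.subgroupOf (B.C W) := by
  ext t
  rw [Subgroup.mem_subgroupOf]
  constructor
  · rintro ⟨v, rfl⟩
    exact ⟨v, rfl⟩
  · rintro ⟨v, hv⟩
    exact ⟨v, Subtype.ext hv⟩

theorem sum_res {K : Type} [Field K] [Finite G] (X : Subgroup G) (f : G → K)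
    (hf : ∀ x, x ∉ X → f x = 0) : ∑ᶠ x, f x = ∑ᶠ t : X, f t := by
  have h1 : ∑ᶠ x, f x = ∑ᶠ x ∈ (X : Set G), f x := by
    rw [finsum_mem_def]
    apply finsum_congr
    intro x
    by_cases hx : x ∈ X
    · rw [Set.indicator_of_mem (show x ∈ (X : Set G) from hx)]
    · rw [Set.indicator_of_notMem (show x ∉ (X : Set G) from hx), hf x hx]
  rw [h1, ← finsum_set_coe_eq_finsum_mem]
  rfl

end tools

/-- RDA -/
theorem rda_ (lbd : LbdStmt) (lbu : LbuStmt) : RdaStmt := by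
  intro ℓ _ M _ hM hℓ2 V₀ G _ _ _ _ E₀ hFq B hB W
  have hF : GoodF ℓ (FF M) := H50.fld ℓ Fact.out M hM
  have hL := hB.ld
  have hVX : B.i.range ≤ B.C W := by
    rintro _ ⟨v, rfl⟩
    exact i_mem B W v
  have hCX : Subgroup.centralizer (B.i.range : Set G) ≤ B.C W := by
    refine Subgroup.centralizer_le ?_
    rintro _ ⟨w, _, rfl⟩
    exact ⟨w, rfl⟩
  have hTg : Tg (iW B W).range (fun t : B.C W => B.g t) =
      (Tg B.i.range B.g ⊓ B.C W).subgroupOf (B.C W) := by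
    rw [range_iW]
    exact Tg_eq hVX hCX hL.gam.supp
  have hFq' : Fq ℓ V₀ (St E₀ W) := by
    refine ⟨hFq.ex, hFq.cd, fun h => hFq.cp (h.trans ?_)⟩
    exact Subgroup.card_dvd_of_le (fun σ hσ => hσ.1)
  have hinj : Function.Injective (iW B W) := by
    intro v v' h
    exact hB.inj (congrArg Subtype.val h)
  have hld : Ld ℓ (fun t : B.C W => B.b W t) (iW B W).range (fun t : B.C W => B.g t) := by
    rw [range_iW]
    exact (lbd ℓ M hM V₀ G E₀ hFq B hB W).1
  -- the local blocks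
  have hlb : ∀ W', Lb (fun t : B.C W => B.b W t) (fun t : B.C W => B.g t) (iW B W) W'
      (fun t : B.C W => B.b (W ⊔ W') t) := by
    intro W'
    obtain ⟨b', hb'⟩ := (lbu ℓ (FF M) hF V₀ (B.C W) (fun t : B.C W => B.b W t)
      (fun t : B.C W => B.g t) (iW B W) hinj hld).1 W'
    have hlbG := hB.lb (W ⊔ W')
    obtain ⟨β, hβ⟩ : ∃ β, β = H75.ext0 (B.C W) b' := ⟨_, rfl⟩
    have hβt : ∀ t : B.C W, β t = b' t := by
      intro t
      rw [hβ]
      exact H75.ext0_apply _ _ _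
    have hbx : Bx (B.C (W ⊔ W')) β := by
      constructor
      · intro x hx
        by_cases hxW : x ∈ B.C W
        · have h1 := hβt ⟨x, hxW⟩
          change β x = _ at h1
          rw [h1]
          apply hb'.blk.supp
          intro h
          exact hx ((mem_cen B W W' _).1 h)
        · rw [hβ]
          exact H75.ext0_supp _ _ x hxW
      · have h1 := H20.IsBlk_equiv (cenE B W W').symm hb'.blk.blk
        have h2 : (fun t : B.C (W ⊔ W') => β t) = fun t : B.C (W ⊔ W') =>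
            b' ((cenE B W W').symm t) := by
          funext t
          exact hβt ⟨t, _⟩
        rw [h2]
        exact h1
    have hgam : mulF (br B.i.range β) B.g = B.g := by
      have h0 := hb'.gam
      have h1 : br (iW B W).range b' = fun t : B.C W => br B.i.range β t := by
        rw [range_iW]
        funext t
        by_cases ht : (t : G) ∈ Subgroup.centralizer (B.i.range : Set G)
        · rw [H66.br_of_mem ht, H66.br_of_mem ((cent_sub hVX t).2 ht), hβt]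
        · rw [H66.br_of_not_mem ht, H66.br_of_not_mem (fun h => ht ((cent_sub hVX t).1 h))]
      rw [h1, ← mulF_res (B.C W) B.g (fun x hx => H66.br_of_not_mem (fun h => hx (hCX h)))] at h0
      exact eq_of_res (mulF_supp (B.C W) (fun x hx => H66.br_of_not_mem (fun h => hx (hCX h)))
        (fun x hx => hL.gam.supp x (fun h => hx (hCX h)))) (fun x hx => hL.gam.supp x
          (fun h => hx (hCX h))) h0
    have hVle : B.i.range ≤ B.C (W ⊔ W') := by
      rintro _ ⟨v, rfl⟩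
      exact i_mem B _ v
    have hfin : β = B.b (W ⊔ W') :=
      uniq1 hF hL.tp.pg hVle hL.gam.ne hbx hlbG.blk hgam hlbG.gam
    have h3 : (fun t : B.C W => B.b (W ⊔ W') t) = b' := by
      funext t
      rw [← hfin]
      exact hβt t
    rw [h3]
    exact hb'
  have hSb : Sb ℓ M (St E₀ W) (loc B W) := by
    refine ⟨hinj, hld, ?_, ?_, hlb⟩
    · intro t ht
      change t ∈ Tg (iW B W).range (fun t : B.C W => B.g t) at ht
      rw [hTg, Subgroup.mem_subgroupOf] at ht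
      obtain ⟨σ, hσ, h1⟩ := hB.act t ht.1
      refine ⟨σ, ⟨hσ, fun w hw => ?_⟩, fun v => Subtype.ext (h1 v)⟩
      apply hB.inj
      have h2 := (mem_C B W t).1 t.2 w hw
      rw [← h1 w, ← h2, mul_inv_cancel_right]
    · intro σ hσ
      obtain ⟨t, ht, h1⟩ := hB.sur σ hσ.1
      have htC : t ∈ B.C W := by
        rw [mem_C]
        intro w hw
        have h2 := h1 w
        rw [hσ.2 w hw] at h2
        calc B.i w * t = t * B.i w * t⁻¹ * t := by rw [h2]
          _ = t * B.i w := by group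
      refine ⟨⟨t, htC⟩, ?_, fun v => Subtype.ext (h1 v)⟩
      change (⟨t, htC⟩ : B.C W) ∈ Tg (iW B W).range (fun t : B.C W => B.g t)
      rw [hTg, Subgroup.mem_subgroupOf]
      exact ⟨ht, htC⟩
  have hcard : ∀ W', Nat.card ((loc B W).C W') = Nat.card (B.C (W ⊔ W')) := fun W' =>
    Nat.card_congr (cenE B W W').toEquiv
  -- the lifts
  have hbh : ∀ (W' : Subgroup V₀) (t : B.C W), bh (loc B W) W' t = bh B (W ⊔ W') t := by
    intro W' t
    by_cases ht : (t : G) ∈ B.C (W ⊔ W')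
    · have ht' : t ∈ (loc B W).C W' := (mem_cen B W W' t).2 ht
      have h1 := H62.eh_equiv (M := M) (cenE B W W') (b := fun a => B.b (W ⊔ W') ((a : B.C W) : G))
        (hlb W').blk.blk.1.1 ⟨t, ht'⟩
      have h2 : bh (loc B W) W' t = eh M (fun a : (loc B W).C W' => (loc B W).b W' a)
          ⟨t, ht'⟩ := by
        unfold bh PP.ext0
        rw [dif_pos ht']
      have h3 : bh B (W ⊔ W') t = eh M (fun a : B.C (W ⊔ W') => B.b (W ⊔ W') a) ⟨t, ht⟩ := by
        unfold bh PP.ext0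
        rw [dif_pos ht]
      rw [h2, h3]
      exact h1.symm
    · have ht' : t ∉ (loc B W).C W' := fun h => ht ((mem_cen B W W' t).1 h)
      unfold bh PP.ext0
      rw [dif_neg ht, dif_neg ht']
  have hfc : ∀ (x : V₀) (t : B.C W), fc (loc B W) ⊥ x t = fc B W x t := by
    intro x t
    unfold fc
    rw [hcard]
    have h1 : W ⊔ (⊥ ⊔ Subgroup.zpowers x) = W ⊔ Subgroup.zpowers x := by rw [bot_sup_eq]
    rw [h1]
    congr 1
    have htop : ∀ z : B.C W, z ∈ (loc B W).C ⊥ := by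
      intro z
      refine (mem_cen B W ⊥ z).2 ?_
      rw [sup_bot_eq]
      exact z.2
    rw [← finsum_comp_equiv (⟨fun z => ⟨z, htop z⟩, fun z => (z : B.C W), fun _ => rfl,
      fun _ => rfl⟩ : B.C W ≃ (loc B W).C ⊥)]
    apply finsum_congr
    intro z
    rw [hbh, h1]
    rfl
  have hcv : ∀ χ : G → ℂ, (∀ t, t ∉ B.C W → χ t = 0) → ∀ x,
      SO.cv (fc (loc B W) ⊥ x) (fun t : B.C W => χ t) = SO.cv (fc B W x) χ := by
    intro χ hχ x
    unfold SO.cv
    congr 1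
    rw [sum_res (B.C W) (fun g => fc B W x g * χ g) (fun g hg => by rw [hχ g hg, mul_zero])]
    apply finsum_congr
    intro t
    rw [hfc]
  refine ⟨hFq', loc B W, hSb, fun _ => rfl, fun _ => rfl, fun _ => rfl, fun _ _ => rfl,
    fun W' t => mem_cen B W W' t, hcard, hfc, fun χ hχ => ⟨?_, hcv χ hχ⟩, fun κ => ?_⟩
  · exact ⟨fun h => h.2, fun h => ⟨hχ, h⟩⟩
  · unfold L1 L1A
    symm
    refine finsum_mem_eq_of_bijOn (fun (χ : G → ℂ) => fun t : B.C W => χ t) ⟨?_, ?_, ?_⟩ ?_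
    · intro χ hχ
      exact hχ.2
    · intro χ hχ χ' hχ' h
      funext x
      by_cases hx : x ∈ B.C W
      · exact congrFun h ⟨x, hx⟩
      · rw [hχ.1 x hx, hχ'.1 x hx]
    · intro κ' hκ'
      refine ⟨H75.ext0 (B.C W) κ', ⟨H75.ext0_supp _ _, ?_⟩, ?_⟩
      · have h1 : (fun t : B.C W => H75.ext0 (B.C W) κ' t) = κ' := by
          funext t
          exact H75.ext0_apply _ _ _
        rw [h1]
        exact hκ'
      · funext t
        exact H75.ext0_apply _ _ _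
    · intro χ hχ
      exact (hcv χ hχ.1 κ).symm

/-- RDA -/
theorem rda : RdaStmt := rda_ SD.H25.lbd SO.H89.lbu

end Pool.Agent.PP.SD.H49
end
end -- Pool.Agent.Helper49_ASD.RDA

section -- Pool.Agent.Helper89_ASD.INA

/-!
# Squad ASD, row INA: the block of the stabiliser of `(A, b A)`
-/

open scoped BigOperators

set_option autoImplicit false

noncomputable section

namespace Pool.Agent.PP.SD.H89

open Pool.Agent.Helper51_AWC Pool.Agent.Helper79_WRA Pool.Agent.PP Pool.Agent.PP.KF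
open Pool.Agent.PP.K9 Pool.Agent.PP.K9.H97 Pool.Agent.PP.H75 Pool.Agent.PP.T3 Pool.Agent.PP.SO
open Pool.Agent.PP.SD

attribute [local instance] Ideal.Quotient.field

section up

variable {F G : Type} [Field F] [Group G] [Finite G] {ℓ : ℕ} [Fact ℓ.Prime]

/-- A block of the centraliser of `U` which is invariant under `X ≤ N(U)` is a block of `X`. -/
theorem bx_up (hF : GoodF ℓ F) {U X : Subgroup G} (hU : IsPGroup ℓ U) (hUX : U ≤ X)
    (hCX : Subgroup.centralizer (U : Set G) ≤ X)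
    (hX : X ≤ Subgroup.normalizer (U : Set G)) {β : G → F}
    (hβ : Bx (Subgroup.centralizer (U : Set G)) β) (hst : X ≤ stabF β) : Bx X β := by
  have hs : ∀ x, x ∉ X → β x = 0 := fun x hx => hβ.supp x (fun h => hx (hCX h))
  refine ⟨hs, ⟨fun x y => hst y.2 x, ?_⟩, ?_, ?_⟩
  · rw [← mulF_res X β hs, hβ.mul]
  · intro h0
    exact hβ.ne (eq_of_res (N := X) hs (fun _ _ => rfl) h0)
  · intro f hf
    have hfe : (fun t : X => H75.ext0 X f t) = f := funext (ext0_apply X f)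
    have hft : Ix X (H75.ext0 X f) := ⟨ext0_supp X f, by rw [hfe]; exact hf⟩
    have hbr := Pool.Agent.PP.T2.H32.supp_cent hF hU hUX hCX hX hft
    have hs2 : ∀ x, x ∉ Subgroup.centralizer (U : Set G) → H75.ext0 X f x = 0 := by
      intro x hx
      rw [← hbr, H66.br_of_not_mem hx]
    have hix : Ix (Subgroup.centralizer (U : Set G)) (H75.ext0 X f) := by
      refine ⟨hs2, ?_, ?_⟩
      · intro x y
        exact hft.idem.1 ⟨x, hCX x.2⟩ ⟨y, hCX y.2⟩
      · rw [← mulF_res _ (H75.ext0 X f) hs2, hft.mul]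
    have h2 : mulF (fun t : X => β t) f = fun t : X => mulF β (H75.ext0 X f) t := by
      rw [mulF_res X _ hs, hfe]
    rw [h2]
    rcases hβ.dich' hix with h | h
    · left
      rw [h]
    · right
      rw [h]
      rfl

end up

section iso

variable {F P R : Type} [Field F] [Group P] [Group R]

theorem cen_iff (φ : P ≃* R) {V : Subgroup R} {V' : Subgroup P} (hV : ∀ a, a ∈ V' ↔ φ a ∈ V)
    (a : P) : a ∈ Subgroup.centralizer (V' : Set P) ↔ φ a ∈ Subgroup.centralizer (V : Set R) := by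
  rw [Subgroup.mem_centralizer_iff, Subgroup.mem_centralizer_iff]
  constructor
  · intro h v hv
    have h1 : φ.symm v ∈ V' := (hV _).2 (by rw [φ.apply_symm_apply]; exact hv)
    have h2 := congrArg φ (h _ h1)
    rw [map_mul, map_mul, φ.apply_symm_apply] at h2
    exact h2
  · intro h v hv
    apply φ.injective
    rw [map_mul, map_mul]
    exact h _ ((hV v).1 hv)

/-- the isomorphism of two subgroups -/
def subE (φ : P ≃* R) {C' : Subgroup P} {C : Subgroup R} (h : ∀ a, a ∈ C' ↔ φ a ∈ C) :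
    C' ≃* C where
  toFun t := ⟨φ t, (h t).1 t.2⟩
  invFun t := ⟨φ.symm t, (h _).2 (by rw [φ.apply_symm_apply]; exact t.2)⟩
  left_inv t := Subtype.ext (φ.symm_apply_apply t)
  right_inv t := Subtype.ext (φ.apply_symm_apply t)
  map_mul' a b := Subtype.ext (map_mul φ (a : P) (b : P))

theorem br_iso (φ : P ≃* R) {V : Subgroup R} {V' : Subgroup P} (hV : ∀ a, a ∈ V' ↔ φ a ∈ V)
    (e : R → F) : br V' (fun a => e (φ a)) = fun a => br V e (φ a) := by
  funext a
  by_cases ha : a ∈ Subgroup.centralizer (V' : Set P)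
  · rw [H66.br_of_mem ha, H66.br_of_mem ((cen_iff φ hV a).1 ha)]
  · rw [H66.br_of_not_mem ha, H66.br_of_not_mem (fun h => ha ((cen_iff φ hV a).2 h))]

theorem bx_iso (φ : P ≃* R) {C' : Subgroup P} {C : Subgroup R} (h : ∀ a, a ∈ C' ↔ φ a ∈ C)
    {g : R → F} (hg : Bx C g) : Bx C' (fun a => g (φ a)) := by
  refine ⟨fun x hx => hg.supp _ (fun h' => hx ((h x).2 h')), ?_⟩
  exact H20.IsBlk_equiv (subE φ h) hg.blk

theorem pg_iso {ℓ : ℕ} (φ : P ≃* R) {V : Subgroup R} {V' : Subgroup P}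
    (hV : ∀ a, a ∈ V' ↔ φ a ∈ V) (h : IsPGroup ℓ V) : IsPGroup ℓ V' :=
  h.of_equiv (subE φ hV).symm

theorem gd_iso (φ : P ≃* R) {V : Subgroup R} {V' : Subgroup P}
    (hV : ∀ a, a ∈ V' ↔ φ a ∈ V) (e : R → F) : Gd (fun a => e (φ a)) V' ↔ Gd e V := by
  constructor
  · rintro ⟨x, hx, hne⟩
    exact ⟨φ x, (cen_iff φ hV x).1 hx, hne⟩
  · rintro ⟨x, hx, hne⟩
    refine ⟨φ.symm x, (cen_iff φ hV _).2 (by rw [φ.apply_symm_apply]; exact hx), ?_⟩
    change e (φ (φ.symm x)) ≠ 0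
    rw [φ.apply_symm_apply]
    exact hne

/-- transport of the local data under an isomorphism -/
theorem ld_iso {ℓ : ℕ} (φ : P ≃* R) {V : Subgroup R} {V' : Subgroup P}
    (hV : ∀ a, a ∈ V' ↔ φ a ∈ V) {e g : R → F} (h : Ld ℓ e V g) :
    Ld ℓ (fun a => e (φ a)) V' (fun a => g (φ a)) := by
  refine ⟨H20.IsBlk_equiv φ h.blk, ⟨pg_iso φ hV h.tp.pg, (gd_iso φ hV e).2 h.tp.gd, ?_⟩, ?_,
    bx_iso φ (cen_iff φ hV) h.gam, ?_⟩
  · intro Q hQ hQe
    have h1 : ∀ a, a ∈ Q ↔ φ a ∈ Q.map (φ : P →* R) := by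
      intro a
      constructor
      · intro ha
        exact ⟨a, ha, rfl⟩
      · rintro ⟨b, hb, hab⟩
        have h2 : b = a := φ.injective hab
        rwa [h2] at hb
    have h2 := h.tp.mx (Q.map (φ : P →* R)) (hQ.map _) ((gd_iso φ h1 e).1 hQe)
    rw [Nat.card_congr (subE φ h1).toEquiv, Nat.card_congr (subE φ hV).toEquiv]
    exact h2
  · intro a ha b hb
    apply φ.injective
    rw [map_mul, map_mul]
    exact h.ab _ ((hV a).1 ha) _ ((hV b).1 hb)
  · rw [br_iso φ hV e, H20.mulF_equiv φ, h.und]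

end iso

/-- INA -/
theorem ina (hat : HatStmt) (syd : SydStmt) (_lbu : LbuStmt) : InaStmt := by
  intro ℓ _ M _ hM hℓ2 V₀ G H _ _ _ _ _ _ E₀ hFq B hB A hA0 hA j hj hr
  have hF : GoodF ℓ (FF M) := H50.fld ℓ Fact.out M hM
  obtain ⟨-, hTX, hCAX, -, hVX, -⟩ := hat ℓ M hM hℓ2 V₀ G E₀ hFq B hB A hA
  rw [← hr] at hTX hCAX hVX
  have hL := hB.ld
  have hlb := hB.lb A
  obtain ⟨X, hXdef⟩ : ∃ X, X = j.range := ⟨_, rfl⟩
  rw [← hXdef] at hTX hCAX hVX hr
  -- the isomorphism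
  obtain ⟨φ, hφ⟩ : ∃ φ : H ≃* X, ∀ h, ((φ h : X) : G) = j h := by
    subst hXdef
    exact ⟨MonoidHom.ofInjective hj, fun h => rfl⟩
  have hXN : X ≤ Subgroup.normalizer ((A.map B.i : Subgroup G) : Set G) := by
    rw [hr]
    exact inf_le_left
  have hXst : X ≤ stabF (B.b A) := by
    rw [hr]
    exact inf_le_right
  have hUV : A.map B.i ≤ B.i.range := by
    rintro _ ⟨v, _, rfl⟩
    exact ⟨v, rfl⟩
  have hUp : IsPGroup ℓ (A.map B.i : Subgroup G) := hL.tp.pg.to_le hUV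
  have hCX : Subgroup.centralizer (B.i.range : Set G) ≤ X := by
    refine le_trans (Subgroup.centralizer_le ?_) hCAX
    rintro _ ⟨w, _, rfl⟩
    exact ⟨w, rfl⟩
  -- the block of `X`
  have hbX : Bx X (B.b A) := bx_up hF hUp (hUV.trans hVX) hCAX hXN hlb.blk hXst
  have hE : Ix X (br (A.map B.i : Subgroup G) B.e) := by
    refine ⟨fun x hx => H66.br_of_not_mem (fun h => hx (hCAX h)), ?_⟩
    exact (H20.brm ℓ (FF M) hF G (A.map B.i : Subgroup G) X hUp hCAX hXN).2.2 B.e hL.blk.1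
  have hund : mulF (br (A.map B.i : Subgroup G) B.e) (B.b A) = B.b A := by
    have hs : ∀ x, x ∉ B.C A → br (A.map B.i : Subgroup G) B.e x = 0 := fun x hx =>
      H66.br_of_not_mem hx
    apply eq_of_res (mulF_supp (B.C A) hs hlb.blk.supp) hlb.blk.supp
    rw [mulF_res (B.C A) _ hs]
    have h1 : (fun t : B.C A => br (A.map B.i : Subgroup G) B.e t) = fun t : B.C A => B.e t := by
      funext t
      exact H66.br_of_mem t.2
    rw [h1]
    exact hlb.und
  have hVcard : Nat.card (B.i.range.subgroupOf X) = Nat.card B.i.range :=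
    Nat.card_congr (Subgroup.subgroupOfEquivOfLe hVX).toEquiv
  have hVp : IsPGroup ℓ (B.i.range.subgroupOf X) :=
    hL.tp.pg.of_equiv (Subgroup.subgroupOfEquivOfLe hVX).symm
  have hTf : Tp ℓ (fun t : X => B.b A t) (B.i.range.subgroupOf X) := by
    refine ⟨hVp, T3.H85.gd_of_gam hVX hCX hL.gam hlb.gam, ?_⟩
    intro Q hQ hQf
    have hmul : mulF (fun t : X => br (A.map B.i : Subgroup G) B.e t) (fun t : X => B.b A t) =
        fun t : X => B.b A t := by
      rw [← mulF_res X _ hE.supp, hund]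
    have h1 := gd_map (gd_of_mul hF hE.idem.1 hbX.blk.1.1 hmul hQ hQf)
    have h1' : Gd B.e (Q.map X.subtype) := by
      obtain ⟨g, hg1, hg2⟩ := h1
      refine ⟨g, hg1, ?_⟩
      intro h0
      apply hg2
      by_cases hg : g ∈ Subgroup.centralizer ((A.map B.i : Subgroup G) : Set G)
      · rw [H66.br_of_mem hg, h0]
      · rw [H66.br_of_not_mem hg]
    have hcard : Nat.card (Q.map X.subtype) = Nat.card Q :=
      (Nat.card_congr (Q.equivMapOfInjective X.subtype X.subtype_injective).toEquiv).symm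
    have h2 := hL.tp.mx _ (hQ.map X.subtype) h1'
    rw [hcard] at h2
    rw [hVcard]
    exact h2
  have hLX : Ld ℓ (fun t : X => B.b A t) (B.i.range.subgroupOf X) (fun t : X => B.g t) :=
    T3.H85.ld_of hVX hCX hL.ab hbX.blk hL.gam hlb.gam hTf
  -- the embedding of the defect group
  let i' : V₀ →* H := (φ.symm : X →* H).comp (B.i.codRestrict X (fun v => hVX ⟨v, rfl⟩))
  have hi' : ∀ v, j (i' v) = B.i v := by
    intro v
    rw [← hφ]
    change ((φ (φ.symm (B.i.codRestrict X (fun v => hVX ⟨v, rfl⟩) v)) : X) : G) = B.i v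
    rw [φ.apply_symm_apply]
    rfl
  have hi'inj : Function.Injective i' := by
    intro v w h
    apply hB.inj
    rw [← hi', ← hi', h]
  have hVi : ∀ a, a ∈ i'.range ↔ φ a ∈ B.i.range.subgroupOf X := by
    intro a
    rw [Subgroup.mem_subgroupOf, hφ]
    constructor
    · rintro ⟨v, rfl⟩
      exact ⟨v, (hi' v).symm⟩
    · rintro ⟨v, hv⟩
      refine ⟨v, hj ?_⟩
      rw [hi', hv]
  have hVi2 : ∀ a, a ∈ i'.range ↔ j a ∈ B.i.range := by
    intro a
    rw [hVi, Subgroup.mem_subgroupOf, hφ]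
  have hLH : Ld ℓ (fun h => B.b A (j h)) i'.range (fun h => B.g (j h)) := by
    have h1 := ld_iso φ hVi hLX
    have h2 : (fun a => B.b A ((φ a : X) : G)) = fun h => B.b A (j h) := by
      funext a
      rw [hφ]
    have h3 : (fun a => B.g ((φ a : X) : G)) = fun h => B.g (j h) := by
      funext a
      rw [hφ]
    rw [h2, h3] at h1
    exact h1
  have hXr : ∀ x ∈ X, ∃ h, j h = x := by
    intro x hx
    refine ⟨φ.symm ⟨x, hx⟩, ?_⟩
    rw [← hφ, φ.apply_symm_apply]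
  -- the inertial group
  have hTg : ∀ h, j h ∈ Tg B.i.range B.g ↔ h ∈ Tg i'.range (fun h => B.g (j h)) := by
    intro h
    have h1 : h ∈ Subgroup.normalizer (i'.range : Set H) ↔
        j h ∈ Subgroup.normalizer (B.i.range : Set G) := by
      rw [Subgroup.mem_normalizer_iff, Subgroup.mem_normalizer_iff]
      constructor
      · intro hn x
        constructor
        · intro hx
          obtain ⟨a, rfl⟩ := hXr x (hVX hx)
          have h2 := (hn a).1 ((hVi2 a).2 hx)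
          rw [hVi2, map_mul, map_mul, map_inv] at h2
          exact h2
        · intro hx
          obtain ⟨a, ha⟩ := hXr _ (hVX hx)
          have h2 : x = j (h⁻¹ * a * h) := by
            rw [map_mul, map_mul, map_inv, ha]
            group
          rw [h2, ← hVi2]
          apply (hn _).2
          rw [hVi2, map_mul, map_mul, map_mul, map_mul, map_inv, ha]
          have h3 : j h * ((j h)⁻¹ * (j h * x * (j h)⁻¹) * j h) * (j h)⁻¹ =
              j h * x * (j h)⁻¹ := by group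
          rw [h3]
          exact hx
      · intro hn a
        rw [hVi2, hVi2, map_mul, map_mul, map_inv]
        exact hn (j a)
    have h2 : h ∈ stabF (fun h => B.g (j h)) ↔ j h ∈ stabF B.g := by
      constructor
      · intro hs x
        by_cases hx : x ∈ X
        · obtain ⟨a, rfl⟩ := hXr x hx
          have h3 := hs a
          change B.g (j (h * a * h⁻¹)) = B.g (j a) at h3
          rw [map_mul, map_mul, map_inv] at h3
          exact h3
        · have h4 : j h ∈ X := by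
            rw [hXdef]
            exact ⟨h, rfl⟩
          rw [hL.gam.supp x (fun h' => hx (hCX h')), hL.gam.supp]
          intro h'
          apply hx
          have h3 := X.mul_mem (X.mul_mem (X.inv_mem h4) (hCX h')) h4
          have e : (j h)⁻¹ * (j h * x * (j h)⁻¹) * j h = x := by group
          rwa [e] at h3
      · intro hs a
        change B.g (j (h * a * h⁻¹)) = B.g (j a)
        rw [map_mul, map_mul, map_inv]
        exact hs (j a)
    constructor
    · rintro ⟨ha, hb⟩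
      exact ⟨h1.2 ha, h2.2 hb⟩
    · rintro ⟨ha, hb⟩
      exact ⟨h1.1 ha, h2.1 hb⟩
  have hact : ∀ t ∈ Tg i'.range (fun h => B.g (j h)), ∃ σ ∈ E₀, ∀ v, t * i' v * t⁻¹ = i' (σ v) := by
    intro t ht
    obtain ⟨σ, hσ, h1⟩ := hB.act (j t) ((hTg t).2 ht)
    refine ⟨σ, hσ, fun v => hj ?_⟩
    rw [map_mul, map_mul, map_inv, hi', hi']
    exact h1 v
  have hsur : ∀ σ ∈ E₀, ∃ t ∈ Tg i'.range (fun h => B.g (j h)), ∀ v,
      t * i' v * t⁻¹ = i' (σ v) := by
    intro σ hσ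
    obtain ⟨t, ht, h1⟩ := hB.sur σ hσ
    obtain ⟨h, rfl⟩ := hXr t (hTX ht)
    refine ⟨h, (hTg h).1 ht, fun v => hj ?_⟩
    rw [map_mul, map_mul, map_inv, hi', hi']
    exact h1 v
  obtain ⟨B', he, hg, hi, hSd⟩ := syd ℓ M hM V₀ H E₀ hFq (fun h => B.b A (j h))
    (fun h => B.g (j h)) i' hi'inj hLH hact hsur
  have hi2 : ∀ v, j (B'.i v) = B.i v := by
    rw [hi]
    exact hi'
  have hVi3 : ∀ a, a ∈ B'.i.range ↔ j a ∈ B.i.range := by
    rw [hi]
    exact hVi2
  refine ⟨B', hSd, ⟨hj, hi2, fun x hx => hXr x (hCAX hx), fun h => by rw [hg], ?_⟩,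
    fun h => by rw [he], ?_, ?_, ?_⟩
  · -- the local blocks
    intro W hAW h
    have hb' := hSd.lb W
    have hlbG := hB.lb W
    have hCWA : B.C W ≤ B.C A := by
      refine Subgroup.centralizer_le ?_
      rintro _ ⟨w, hw, rfl⟩
      exact ⟨w, hAW hw, rfl⟩
    have hCWX : B.C W ≤ X := hCWA.trans hCAX
    have hmem : ∀ a, a ∈ Subgroup.centralizer ((W.map B'.i : Subgroup H) : Set H) ↔
        j a ∈ B.C W := by
      intro a
      rw [H49.mem_C, Subgroup.mem_centralizer_iff]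
      constructor
      · intro h1 w hw
        have h2 := congrArg j (h1 (B'.i w) ⟨w, hw, rfl⟩)
        rw [map_mul, map_mul, hi2] at h2
        exact h2
      · rintro h1 _ ⟨w, hw, rfl⟩
        apply hj
        rw [map_mul, map_mul, hi2]
        exact h1 w hw
    obtain ⟨β, hβdef⟩ : ∃ β, β = H75.ext0 X (fun t : X => B'.b W (φ.symm t)) := ⟨_, rfl⟩
    have hβX : ∀ x, x ∉ X → β x = 0 := by
      rw [hβdef]
      exact ext0_supp X _
    have hβt : ∀ t : X, β t = B'.b W (φ.symm t) := by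
      intro t
      rw [hβdef]
      exact ext0_apply X _ t
    have hβj : ∀ a, β (j a) = B'.b W a := by
      intro a
      have h1 := hβt (φ a)
      rw [φ.symm_apply_apply, hφ] at h1
      exact h1
    have hbx : Bx (B.C W) β := by
      constructor
      · intro x hx
        by_cases hxX : x ∈ X
        · obtain ⟨a, rfl⟩ := hXr x hxX
          rw [hβj]
          apply hb'.blk.supp
          intro h'
          exact hx ((hmem a).1 h')
        · exact hβX x hxX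
      · -- the centraliser in `X`
        have h1 : ∀ t : X, φ.symm t ∈ Subgroup.centralizer ((W.map B'.i : Subgroup H) : Set H) ↔
            (t : G) ∈ B.C W := by
          intro t
          rw [hmem, ← hφ, φ.apply_symm_apply]
        let ψ : B.C W ≃* Subgroup.centralizer ((W.map B'.i : Subgroup H) : Set H) :=
          { toFun := fun t => ⟨φ.symm ⟨t, hCWX t.2⟩, (h1 _).2 t.2⟩
            invFun := fun t => ⟨((φ (t : H) : X) : G), by rw [hφ]; exact (hmem t).1 t.2⟩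
            left_inv := fun t => Subtype.ext (by
              change ((φ (φ.symm ⟨t, hCWX t.2⟩) : X) : G) = t
              rw [φ.apply_symm_apply])
            right_inv := fun t => Subtype.ext (by
              change φ.symm ⟨((φ (t : H) : X) : G), _⟩ = (t : H)
              exact φ.symm_apply_apply (t : H))
            map_mul' := fun a b => Subtype.ext (by
              change φ.symm ⟨((a * b : B.C W) : G), _⟩ =
                φ.symm ⟨(a : G), _⟩ * φ.symm ⟨(b : G), _⟩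
              rw [← map_mul]
              rfl) }
        have h2 : (fun t : B.C W => β t) = fun t : B.C W => B'.b W (ψ t) := by
          funext t
          exact hβt ⟨t, hCWX t.2⟩
        rw [h2]
        exact H20.IsBlk_equiv ψ hb'.blk.blk
    have hgam : mulF (br B.i.range β) B.g = B.g := by
      have hs : ∀ x, x ∉ X → br B.i.range β x = 0 := fun x hx =>
        H66.br_of_not_mem (fun h' => hx (hCX h'))
      have hgs : ∀ x, x ∉ X → B.g x = 0 := fun x hx => hL.gam.supp x (fun h' => hx (hCX h'))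
      apply eq_of_res (mulF_supp X hs hgs) hgs
      rw [mulF_res X _ hs]
      have h0 := hb'.gam
      have hcen : ∀ a, a ∈ Subgroup.centralizer (B'.i.range : Set H) ↔
          j a ∈ Subgroup.centralizer (B.i.range : Set G) := by
        intro a
        rw [Subgroup.mem_centralizer_iff, Subgroup.mem_centralizer_iff]
        constructor
        · rintro h1 _ ⟨v, rfl⟩
          have h2 := congrArg j (h1 (B'.i v) ⟨v, rfl⟩)
          rw [map_mul, map_mul, hi2] at h2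
          exact h2
        · rintro h1 _ ⟨v, rfl⟩
          apply hj
          rw [map_mul, map_mul, hi2]
          exact h1 _ ⟨v, rfl⟩
      have h1 : (fun t : X => br B.i.range β t) =
          fun t : X => br B'.i.range (B'.b W) (φ.symm t) := by
        funext t
        have ht : (t : G) = j (φ.symm t) := by rw [← hφ, φ.apply_symm_apply]
        by_cases htc : (t : G) ∈ Subgroup.centralizer (B.i.range : Set G)
        · have htc' : φ.symm t ∈ Subgroup.centralizer (B'.i.range : Set H) := by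
            rw [hcen, ← ht]
            exact htc
          rw [H66.br_of_mem htc, H66.br_of_mem htc', hβt]
        · have htc' : φ.symm t ∉ Subgroup.centralizer (B'.i.range : Set H) := by
            rw [hcen, ← ht]
            exact htc
          rw [H66.br_of_not_mem htc, H66.br_of_not_mem htc']
      have h2 : (fun t : X => B.g t) = fun t : X => B'.g (φ.symm t) := by
        funext t
        rw [hg]
        change B.g t = B.g (j (φ.symm t))
        rw [← hφ, φ.apply_symm_apply]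
      rw [h1, h2, H20.mulF_equiv φ.symm, h0]
    have hVle : B.i.range ≤ B.C W := by
      rintro _ ⟨v, rfl⟩
      exact H49.i_mem B _ v
    have hfin : β = B.b W :=
      H49.uniq1 hF hL.tp.pg hVle hL.gam.ne hbx hlbG.blk hgam hlbG.gam
    rw [← hfin, hβj]
  · -- the image of the defect group
    ext x
    constructor
    · rintro ⟨a, ha, rfl⟩
      exact (hVi3 a).1 ha
    · intro hx
      obtain ⟨a, rfl⟩ := hXr x (hVX hx)
      exact ⟨a, (hVi3 a).2 hx, rfl⟩
  · intro h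
    rw [hg, hi]
    exact hTg h
  · -- `A` is normal
    refine ⟨?_⟩
    rintro _ ⟨v, hv, rfl⟩ h
    have h4 : j h ∈ X := by
      rw [hXdef]
      exact ⟨h, rfl⟩
    have h1 := (Subgroup.mem_normalizer_iff.1 (hXN h4) (B.i v)).1 ⟨v, hv, rfl⟩
    obtain ⟨w, hw, hw2⟩ := h1
    refine ⟨w, hw, hj ?_⟩
    rw [map_mul, map_mul, map_inv, hi2, hi2]
    exact hw2

end Pool.Agent.PP.SD.H89
end
end -- Pool.Agent.Helper89_ASD.INA

section -- Pool.Agent.Helper60_ASE.FXE

/-!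
# Squad ASE, row FXE: equal numbers of modular characters imply equal numbers of fixed characters
-/

open scoped BigOperators

noncomputable section

namespace Pool.Agent.PP.SE.H60

open Pool.Agent.Helper51_AWC Pool.Agent.Helper79_WRA Pool.Agent.PP Pool.Agent.PP.KF
open Pool.Agent.PP.K9 Pool.Agent.PP.K9.H97 Pool.Agent.PP.H75 Pool.Agent.PP.T3 Pool.Agent.PP.SO
open Pool.Agent.PP.SD

attribute [local instance] Ideal.Quotient.field

theorem fxe (fxl : FxlStmt) : FxeStmt := by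
  intro ℓ _ M _ hM h2 V₀ G G' _ _ _ _ _ _ E₀ hFq B B' hB hB' hLam W hW g hg hgW
  have h := fxl ℓ M hM h2 V₀ G G' E₀ hFq B B' hB hB' (fun E' hE' => (hLam E' hE').symm) W hW g hg hgW
  exact h.symm

end Pool.Agent.PP.SE.H60
end
end -- Pool.Agent.Helper60_ASE.FXE

section -- Pool.Agent.Helper91_ASE.LME

/-!
# Squad ASE, row LME: the numbers of modular characters of the local blocks
-/

open scoped BigOperators

noncomputable section

namespace Pool.Agent.PP.SE.H91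

open Pool.Agent.Helper51_AWC Pool.Agent.Helper79_WRA Pool.Agent.PP Pool.Agent.PP.KF
open Pool.Agent.PP.K9 Pool.Agent.PP.K9.H97 Pool.Agent.PP.H75 Pool.Agent.PP.T3 Pool.Agent.PP.SO
open Pool.Agent.PP.SD

attribute [local instance] Ideal.Quotient.field

theorem ln_eq {F G : Type} [Field F] [Group G] {X Y : Subgroup G} (h : X = Y) (g : G → F) :
    ln (fun t : X => g t) = ln (fun t : Y => g t) := by
  subst h
  rfl

theorem st_zpowers {V₀ : Type} [CommGroup V₀] (E₀ : Subgroup (MulAut V₀)) (v : V₀) :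
    St E₀ (Subgroup.zpowers v) = Es E₀ v := by
  ext σ
  constructor
  · rintro ⟨h1, h2⟩
    exact ⟨h1, h2 v (Subgroup.mem_zpowers v)⟩
  · rintro ⟨h1, h2⟩
    refine ⟨h1, ?_⟩
    intro w hw
    obtain ⟨k, rfl⟩ := Subgroup.mem_zpowers_iff.1 hw
    have h3 : σ v = v := h2
    rw [map_zpow, h3]

theorem lme (lmb : LmbStmt) (lmc : LmcStmt) : LmeStmt := by
  intro ℓ _ M _ hM h2 V₀ G _ _ _ _ E₀ hF B hB
  obtain ⟨l1, -⟩ := lmb ℓ M hM h2 V₀ G E₀ hF B hB
  refine ⟨?_, ?_, ?_⟩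
  · intro v hv
    have h := l1 (Subgroup.zpowers v) (fun h => hv (Subgroup.zpowers_eq_bot.1 h))
    rw [st_zpowers] at h
    exact h
  · unfold Lam lT
    apply ln_eq
    ext t
    constructor
    · intro h
      exact h.1
    · intro h
      exact ⟨h, hB.act t h⟩
  · intro E₁ hE₁ hc
    obtain ⟨ρ, hρ⟩ := hc.exists_generator
    have h3 : E₁ = Subgroup.zpowers (ρ : MulAut V₀) := by
      ext x
      constructor
      · intro hx
        obtain ⟨k, hk⟩ := Subgroup.mem_zpowers_iff.1 (hρ ⟨x, hx⟩)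
        exact Subgroup.mem_zpowers_iff.2 ⟨k, congrArg Subtype.val hk⟩
      · intro hx
        obtain ⟨k, hk⟩ := Subgroup.mem_zpowers_iff.1 hx
        rw [← hk]
        exact E₁.zpow_mem ρ.2 k
    rw [h3]
    exact lmc ℓ M hM h2 V₀ G E₀ hF B hB ρ (hE₁ ρ.2)

end Pool.Agent.PP.SE.H91
end
end -- Pool.Agent.Helper91_ASE.LME
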