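import Pool.Agent.Helper12_AWB.B172
import Pool.Agent.Helper12_AWB.B210

/-!
# Merged copies (generated) of the modules

* `Pool.Agent.Helper48_AT5.TWT`
* `Pool.Agent.Helper31_ASE.LMC`
* `Pool.Agent.Helper35_ASE.FXL`
* `Pool.Agent.Helper65_ASE.F1S`
-/

set_option autoImplicit false

section -- Pool.Agent.Helper48_AT5.TWT

/-!
# Squad AT5, row TWT: the sum of the twisted traces over `A/C`
-/

open scoped BigOperators

set_option linter.unusedSectionVars false

noncomputable section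

namespace Pool.Agent.PP.T5.H48

open Pool.Agent.Helper51_AWC Pool.Agent.Helper79_WRA Pool.Agent.PP Pool.Agent.PP.KF
open Pool.Agent.PP.K9 Pool.Agent.PP.K9.H97 Pool.Agent.PP.H75 Pool.Agent.PP.T3 Pool.Agent.PP.T2

attribute [local instance] Ideal.Quotient.field

section lifts

variable {M : Ideal (integralClosure ℤ ℂ)} [M.IsMaximal]

/-- the lift of an idempotent is unique -/
theorem eh_uniq {H : Type} [Group H] [Finite H] {A : H → ℂ} (hA : IsIdem A)
    (hR : ∀ g, A g ∈ RM M) {e : H → FF M} (he : ∀ g, rr M (A g) = e g) : eh M e = A := by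
  classical
  have := Fintype.ofFinite H
  have hee : (fun g => rr M (A g)) = e := funext he
  apply KF.H25.ext_om (KF.H25.eh_cl e) hA.1
  intro χ hχ
  have h1 := (KF.H65.om_RM (M := M) (a := A) hA.1 hR hχ).2
  rw [hee] at h1
  have h2 : H50.om A χ = 0 ∨ H50.om A χ = 1 := by
    have h3 := H50.om_mul (a := A) hA.1 hχ
    rw [← KF.H25.mulF_eq, hA.2] at h3
    have h4 : H50.om A χ * (H50.om A χ - 1) = 0 := by
      linear_combination -h3
    rcases mul_eq_zero.1 h4 with h | h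
    · exact Or.inl h
    · exact Or.inr (sub_eq_zero.1 h)
  by_cases hc : χ ∈ IrrE M e
  · rw [(KF.H25.eh_om e hχ).1 hc]
    rcases h2 with h | h
    · rw [h, rr_zero, hc.2] at h1
      exact absurd h1 zero_ne_one
    · exact h.symm
  · rw [(KF.H25.eh_om e hχ).2 hc]
    rcases h2 with h | h
    · exact h.symm
    · rw [h, rr_one] at h1
      exact absurd ⟨hχ, h1.symm⟩ hc

/-- the kernel in terms of the lift -/
theorem kern_lift {H : Type} [Group H] [Fintype H] (e : H → FF M) (s s' : H) :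
    ∑ᶠ χ ∈ IrrE M e, χ s * starRingEnd ℂ (χ s') = ∑ x, eh M e (x * s⁻¹ * x⁻¹ * s') := by
  classical
  have h0 := KF.trc H (mulF (eh M e) (dl ℂ s)) (dl ℂ s'⁻¹)
  have h1 : ∑ᶠ χ ∈ Irr H, chv (mulF (eh M e) (dl ℂ s)) χ * chv (dl ℂ s'⁻¹) χ =
      ∑ᶠ χ ∈ IrrE M e, χ s * starRingEnd ℂ (χ s') := by
    have hdl : ∀ (t : H) (χ : H → ℂ), chv (dl ℂ t) χ = χ t := by
      intro t χ
      rw [chv_eq, Finset.sum_eq_single t]
      · unfold dl
        rw [if_pos rfl, one_mul]
      · intro x _ hx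
        unfold dl
        rw [if_neg hx, zero_mul]
      · intro h
        exact absurd (Finset.mem_univ _) h
    rw [finsum_mem_eq_finite_toFinset_sum _ (ife_fin e),
      finsum_mem_eq_finite_toFinset_sum _ (irr_finite' (G := H))]
    symm
    refine (Finset.sum_congr rfl fun χ hχ => ?_).trans
      (Finset.sum_subset (s₁ := (ife_fin e).toFinset) (fun χ hχ => ?_) fun χ hχ hne => ?_)
    · have hχ' := (Set.Finite.mem_toFinset _).1 hχ
      rw [KF.H25.chv_eh e hχ'.1, (KF.H25.eh_om e hχ'.1).1 hχ', one_mul, hdl, hdl,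
        H94.irr_star hχ'.1]
    · exact (Set.Finite.mem_toFinset _).2 ((Set.Finite.mem_toFinset _).1 hχ).1
    · have hχ' := (Set.Finite.mem_toFinset _).1 hχ
      rw [KF.H25.chv_eh e hχ', (KF.H25.eh_om e hχ').2 (fun h => hne
        ((Set.Finite.mem_toFinset _).2 h)), zero_mul, zero_mul]
  rw [← h1, h0, finsum_eq_sum_of_fintype,
    ← Equiv.sum_comp (Equiv.inv H) (fun x => eh M e (x * s⁻¹ * x⁻¹ * s'))]
  refine Finset.sum_congr rfl fun x _ => ?_
  simp only [Equiv.inv_apply, inv_inv]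
  rw [finsum_eq_sum_of_fintype, Finset.sum_eq_single (x * s' * x⁻¹)]
  · have h2 : dl ℂ s'⁻¹ (x⁻¹ * (x * s' * x⁻¹)⁻¹ * x) = 1 := by
      unfold dl
      rw [if_pos]
      group
    have h3 : mulF (eh M e) (dl ℂ s) (x * s' * x⁻¹) = eh M e (x * s' * x⁻¹ * s⁻¹) := by
      rw [KF.H25.mulF_eq]
      change ∑ h, eh M e h * dl ℂ s (h⁻¹ * (x * s' * x⁻¹)) = _
      rw [Finset.sum_eq_single (x * s' * x⁻¹ * s⁻¹)]
      · unfold dl
        rw [if_pos, mul_one]
        group
      · intro h _ hh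
        unfold dl
        rw [if_neg, mul_zero]
        intro h4
        apply hh
        rw [← h4]
        group
      · intro h
        exact absurd (Finset.mem_univ _) h
    rw [h2, mul_one, h3, ← KF.H25.eh_cl e (x⁻¹ * s⁻¹ * x * s') (x * s')]
    congr 1
    group
  · intro g _ hg
    have : dl ℂ s'⁻¹ (x⁻¹ * g⁻¹ * x) = 0 := by
      unfold dl
      rw [if_neg]
      intro h
      apply hg
      have h2 : x⁻¹ * g * x = s' := by
        have := congrArg (·⁻¹) h
        simp only [inv_inv, mul_inv_rev] at this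
        rw [← this]
        group
      rw [← h2]
      group
    rw [this, mul_zero]
  · intro h
    exact absurd (Finset.mem_univ _) h

end lifts

section main

variable {G : Type} [Group G] [Finite G] {M : Ideal (integralClosure ℤ ℂ)} [M.IsMaximal]

/-- conjugation on a normalised subgroup -/
def cjA {C : Subgroup G} {a : G} (ha : a ∈ Subgroup.normalizer (C : Set G)) : C ≃* C where
  toFun c := ⟨a * c * a⁻¹, (Subgroup.mem_normalizer_iff.1 ha c).1 c.2⟩
  invFun c := ⟨a⁻¹ * c * a, by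
    have h1 := (Subgroup.mem_normalizer_iff.1 (Subgroup.inv_mem _ ha) (c : G)).1 c.2
    rwa [inv_inv] at h1⟩
  left_inv c := Subtype.ext (by
    change a⁻¹ * (a * (c : G) * a⁻¹) * a = c
    group)
  right_inv c := Subtype.ext (by
    change a * (a⁻¹ * (c : G) * a) * a⁻¹ = c
    group)
  map_mul' c d := Subtype.ext (by
    change a * ((c : G) * d) * a⁻¹ = a * c * a⁻¹ * (a * d * a⁻¹)
    group)

/-- the lift for the subgroup `C`, extended by zero, is the lift for `A` -/
theorem lift_sub {C A : Subgroup G} (hCA : C ≤ A) (hA : A ≤ Subgroup.normalizer (C : Set G))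
    {E : G → FF M} (hE : Ix A E) (hs : ∀ x, x ∉ C → E x = 0) :
    (∀ a ∈ A, ∀ x, H75.ext0 C (eh M (fun t : C => E t)) (a * x * a⁻¹) =
      H75.ext0 C (eh M (fun t : C => E t)) x) ∧
    eh M (fun t : A => E t) = fun t : A => H75.ext0 C (eh M (fun t : C => E t)) t := by
  have hEc : ∀ a ∈ A, ∀ x, E (a * x * a⁻¹) = E x := by
    intro a ha x
    by_cases hx : x ∈ A
    · exact hE.idem.1 ⟨x, hx⟩ ⟨a, ha⟩
    · rw [hE.supp x hx, hE.supp]
      intro h
      apply hx
      have h1 := A.mul_mem (A.mul_mem (A.inv_mem ha) h) ha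
      have h2 : a⁻¹ * (a * x * a⁻¹) * a = x := by group
      rwa [h2] at h1
  have hCid : IsIdem (fun t : C => E t) := by
    refine ⟨fun x y => hEc y (hCA y.2) x, ?_⟩
    have h1 : mulF E E = E := by
      have h2 := mulF_res A E hE.supp
      rw [hE.idem.2] at h2
      funext x
      by_cases hx : x ∈ A
      · exact congrFun h2 ⟨x, hx⟩
      · rw [hE.supp x hx, mulF_supp A hE.supp hE.supp x hx]
    rw [← mulF_res C E hs, h1]
  obtain ⟨k1, k2, -⟩ := KF.H25.idm M C (fun t : C => E t) hCid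
  have hinv : ∀ a ∈ A, ∀ x, H75.ext0 C (eh M (fun t : C => E t)) (a * x * a⁻¹) =
      H75.ext0 C (eh M (fun t : C => E t)) x := by
    intro a ha x
    have hn := hA ha
    by_cases hx : x ∈ C
    · have h1 := T3.H62.eh_equiv (M := M) (cjA hn) hCid.1 ⟨x, hx⟩
      have h2 : (fun y : C => E ((cjA hn).symm y : C)) = fun t : C => E t := by
        funext y
        change E (a⁻¹ * y * a) = E y
        have h3 := hEc a⁻¹ (A.inv_mem ha) y
        rwa [inv_inv] at h3
      rw [h2] at h1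
      have h4 := H75.ext0_apply C (eh M (fun t : C => E t)) (cjA hn ⟨x, hx⟩)
      have h5 := H75.ext0_apply C (eh M (fun t : C => E t)) ⟨x, hx⟩
      exact h4.trans (h1.trans h5.symm)
    · rw [H75.ext0_supp C _ x hx, H75.ext0_supp]
      intro h
      exact hx ((Subgroup.mem_normalizer_iff.1 hn x).2 h)
  refine ⟨hinv, ?_⟩
  apply eh_uniq
  · refine ⟨fun x y => hinv y y.2 x, ?_⟩
    have h1 := mulF_res A (H75.ext0 C (eh M (fun t : C => E t)))
      (a := H75.ext0 C (eh M (fun t : C => E t)))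
      (fun x hx => H75.ext0_supp _ _ x (fun h => hx (hCA h)))
    rw [← h1, ← H75.ext0_mulF, k2.2]
  · intro g
    by_cases hg : (g : G) ∈ C
    · have h1 := H75.ext0_apply C (eh M (fun t : C => E t)) ⟨(g : G), hg⟩
      exact (show H75.ext0 C (eh M (fun t : C => E t)) (g : G) ∈ RM M from by
        rw [show H75.ext0 C (eh M (fun t : C => E t)) (g : G) = _ from h1]
        exact (k1 _).1)
    · rw [H75.ext0_supp _ _ _ hg]
      exact Subring.zero_mem _
  · intro g
    by_cases hg : (g : G) ∈ C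
    · have h1 := H75.ext0_apply C (eh M (fun t : C => E t)) ⟨(g : G), hg⟩
      rw [show H75.ext0 C (eh M (fun t : C => E t)) (g : G) = _ from h1]
      exact (k1 _).2
    · rw [H75.ext0_supp _ _ _ hg, rr_zero, hs _ hg]

/-- the sum over a group as a sum over the cosets -/
theorem sum_cosets {H : Type} [Group H] [Fintype H] (K : Subgroup H) [Fintype (H ⧸ K)]
    [Fintype K] (F : H → ℂ) : ∑ a, F a = ∑ q : H ⧸ K, ∑ x : K, F (q.out * x) := by
  classical
  rw [← Finset.sum_fiberwise Finset.univ (fun a : H => (QuotientGroup.mk a : H ⧸ K)) F]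
  refine Finset.sum_congr rfl fun q _ => ?_
  refine (Finset.sum_bij (fun (x : K) _ => q.out * (x : H)) (fun x _ => ?_)
    (fun x _ y _ h => Subtype.ext (mul_left_cancel h)) (fun a ha => ?_) (fun x _ => rfl)).symm
  · refine Finset.mem_filter.2 ⟨Finset.mem_univ _, ?_⟩
    rw [QuotientGroup.mk_mul_of_mem _ x.2, QuotientGroup.out_eq']
  · have h1 := (Finset.mem_filter.1 ha).2
    refine ⟨⟨q.out⁻¹ * a, ?_⟩, Finset.mem_univ _, ?_⟩
    · rw [← QuotientGroup.eq, QuotientGroup.out_eq']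
      exact h1.symm
    · change q.out * (q.out⁻¹ * a) = a
      group

/-- the twisted kernel -/
theorem kr_twist {C : Subgroup G} {E : G → FF M} {h : G}
    (hh : h ∈ Subgroup.normalizer (C : Set G)) {s : G} (hs : s ∈ C) [Fintype C] :
    kr M C E (h * s * h⁻¹) s = ∑ x : C, H75.ext0 C (eh M (fun t : C => E t))
      ((h * x) * s⁻¹ * (h * x)⁻¹ * s) := by
  have h1 : kr M C E (h * s * h⁻¹) s = ∑ᶠ κ ∈ IrrE M (fun t : C => E t),
      κ (cjA hh ⟨s, hs⟩) * starRingEnd ℂ (κ ⟨s, hs⟩) := by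
    unfold kr
    refine finsum_mem_congr rfl fun κ _ => ?_
    have e1 := H75.ext0_apply C κ (cjA hh ⟨s, hs⟩)
    have e2 := H75.ext0_apply C κ ⟨s, hs⟩
    rw [← e1, ← e2]
    rfl
  rw [h1, kern_lift, ← Equiv.sum_comp (cjA hh).toEquiv]
  refine Finset.sum_congr rfl fun x _ => ?_
  rw [← H75.ext0_apply C (eh M (fun t : C => E t))]
  congr 1
  change (h * (x : G) * h⁻¹) * (h * s * h⁻¹)⁻¹ * (h * (x : G) * h⁻¹)⁻¹ * s = _
  group

theorem twt (lrk : T3.LrkStmt) : TwtStmt := by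
  intro ℓ _ M _ hM G _ _ C A hCA hA hn E hE hs
  classical
  have := Fintype.ofFinite G
  have := Fintype.ofFinite A
  have := Fintype.ofFinite C
  have := Fintype.ofFinite (C.subgroupOf A)
  have := Fintype.ofFinite (A ⧸ C.subgroupOf A)
  obtain ⟨n, hn⟩ := hn
  obtain ⟨hinv, hlift⟩ := lift_sub hCA hA hE hs
  have hnorm : (C.subgroupOf A).Normal := by
    refine ⟨fun x hx g => ?_⟩
    rw [Subgroup.mem_subgroupOf] at hx ⊢
    exact (Subgroup.mem_normalizer_iff.1 (hA g.2) x).1 hx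
  have hregC : ∀ s ∈ A, Reg ℓ s → s ∈ C := by
    intro s hsA hsr
    have h1 : (⟨s, hsA⟩ : A) ^ (C.subgroupOf A).index ∈ C.subgroupOf A :=
      Subgroup.pow_index_mem _ _
    have h2 : (C.subgroupOf A).index = ℓ ^ n := hn
    rw [h2, Subgroup.mem_subgroupOf] at h1
    have h3 : s ^ ℓ ^ n ∈ C := h1
    have h4 : (ℓ ^ n).Coprime (orderOf s) := Nat.Coprime.pow_left n (Nat.Coprime.symm hsr)
    obtain ⟨m, hm⟩ := exists_pow_eq_self_of_coprime h4
    rw [← hm]
    exact C.pow_mem h3 m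
  have hS : ∀ f : G → ℂ, ∑ᶠ (s : G) (_ : s ∈ C ∧ Reg ℓ s), f s =
      ∑ s : A, if Reg ℓ (s : G) then f s else 0 := by
    intro f
    rw [finsum_eq_sum_of_fintype]
    have h1 : ∑ s : A, (if Reg ℓ (s : G) then f s else 0) =
        ∑ s ∈ Finset.univ.filter (fun s : G => s ∈ A), if Reg ℓ s then f s else 0 := by
      refine Finset.sum_bij (fun (c : A) _ => (c : G)) (fun c _ => ?_)
        (fun c _ d _ h => Subtype.ext h)
        (fun g hg => ⟨⟨g, (Finset.mem_filter.1 hg).2⟩, Finset.mem_univ _, rfl⟩) (fun c _ => rfl)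
      exact Finset.mem_filter.2 ⟨Finset.mem_univ _, c.2⟩
    rw [h1, Finset.sum_filter]
    refine Finset.sum_congr rfl fun s _ => ?_
    rw [finsum_eq_if]
    by_cases hr : Reg ℓ s
    · by_cases hsA : s ∈ A
      · rw [if_pos ⟨hregC s hsA hr, hr⟩, if_pos hsA, if_pos hr]
      · rw [if_neg (fun h => hsA (hCA h.1)), if_neg hsA]
    · rw [if_neg (fun h => hr h.2)]
      by_cases hsA : s ∈ A
      · rw [if_pos hsA, if_neg hr]
      · rw [if_neg hsA]
  set B : G → ℂ := H75.ext0 C (eh M (fun t : C => E t)) with hB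
  -- the left side
  have hcard : (Nat.card A : ℂ) = (C.relIndex A : ℕ) * Nat.card C := by
    have h1 := Subgroup.card_mul_index (C.subgroupOf A)
    have h2 : Nat.card (C.subgroupOf A) = Nat.card C :=
      Nat.card_congr (Subgroup.subgroupOfEquivOfLe hCA).toEquiv
    rw [h2] at h1
    rw [← h1]
    push_cast
    rw [mul_comm]
    rfl
  have hC0 : (Nat.card C : ℂ) ≠ 0 := Nat.cast_ne_zero.2 Nat.card_pos.ne'
  have hI0 : ((C.relIndex A : ℕ) : ℂ) ≠ 0 := by
    intro h
    rw [h, zero_mul] at hcard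
    exact (Nat.cast_ne_zero (R := ℂ)).2 (Nat.card_pos (α := A)).ne' hcard
  have hL : ((C.relIndex A : ℕ) : ℂ) * (ln (fun t : A => E t) : ℂ) =
      (Nat.card C : ℂ)⁻¹ * ∑ s : A, if Reg ℓ (s : G) then
        ∑ a : A, B ((a : G) * (s : G)⁻¹ * (a : G)⁻¹ * s) else 0 := by
    rw [lrk ℓ M hM A (fun t : A => E t) hE.idem, hcard, mul_inv, ← mul_assoc, ← mul_assoc,
      mul_inv_cancel₀ hI0, one_mul, finsum_eq_sum_of_fintype]
    congr 1
    refine Finset.sum_congr rfl fun s _ => ?_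
    rw [finsum_eq_if]
    by_cases hr : Reg ℓ s
    · rw [if_pos hr, if_pos (reg_coe'.2 hr), kern_lift, hlift]
      rfl
    · rw [if_neg hr, if_neg (fun h => hr (reg_coe'.1 h))]
  have hR : ∀ q : A ⧸ C.subgroupOf A, tw M ℓ C E ((q.out : A) : G) =
      (Nat.card C : ℂ)⁻¹ * ∑ s : A, if Reg ℓ (s : G) then
        ∑ x : C.subgroupOf A, B (((q.out * x : A) : G) * (s : G)⁻¹ *
          ((q.out * x : A) : G)⁻¹ * s) else 0 := by
    intro q
    rw [tw, hS (fun s => kr M C E (((q.out : A) : G) * s * ((q.out : A) : G)⁻¹) s)]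
    congr 1
    refine Finset.sum_congr rfl fun s _ => ?_
    by_cases hr : Reg ℓ (s : G)
    · rw [if_pos hr, if_pos hr, kr_twist (hA (q.out : A).2) (hregC s s.2 hr),
        ← Equiv.sum_comp (Subgroup.subgroupOfEquivOfLe hCA).toEquiv]
      rfl
    · rw [if_neg hr, if_neg hr]
  rw [hL, finsum_eq_sum_of_fintype, Finset.sum_congr rfl fun q _ => hR q, ← Finset.mul_sum,
    Finset.sum_comm]
  congr 1
  refine Finset.sum_congr rfl fun s _ => ?_
  by_cases hr : Reg ℓ (s : G)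
  · simp only [if_pos hr]
    exact sum_cosets (C.subgroupOf A) (fun a : A => B ((a : G) * (s : G)⁻¹ * (a : G)⁻¹ * s))
  · simp only [if_neg hr]
    rw [Finset.sum_const_zero]

end main

end Pool.Agent.PP.T5.H48
end
end -- Pool.Agent.Helper48_AT5.TWT

section -- Pool.Agent.Helper31_ASE.LMC

/-!
# Squad ASE, row LMC: the numbers of modular characters for cyclic groups
-/

open scoped BigOperators

set_option autoImplicit false

noncomputable section

namespace Pool.Agent.PP.SE.H31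

open Pool.Agent.Helper51_AWC Pool.Agent.Helper79_WRA Pool.Agent.PP Pool.Agent.PP.KF
open Pool.Agent.PP.K9 Pool.Agent.PP.K9.H97 Pool.Agent.PP.H75 Pool.Agent.PP.T3 Pool.Agent.PP.SO
open Pool.Agent.PP.SD

attribute [local instance] Ideal.Quotient.field

section gen

/-- the sum of a function of the image of a surjective homomorphism -/
theorem sum_hom {X E : Type} [Group X] [Group E] [Fintype X] [Fintype E] (s : X →* E)
    (hs : Function.Surjective s) (f : E → ℕ) : ∑ x, f (s x) = Nat.card s.ker * ∑ σ, f σ := by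
  classical
  rw [← Finset.sum_fiberwise Finset.univ (fun x => s x) (fun x => f (s x)), Finset.mul_sum]
  refine Finset.sum_congr rfl fun σ _ => ?_
  have h1 : ∑ x ∈ Finset.univ.filter (fun x => s x = σ), f (s x) =
      (Finset.univ.filter (fun x => s x = σ)).card * f σ := by
    rw [← smul_eq_mul, ← Finset.sum_const]
    refine Finset.sum_congr rfl fun x hx => ?_
    rw [(Finset.mem_filter.1 hx).2]
  rw [h1]
  congr 1
  have h2 := MonoidHom.card_fiber_eq_of_mem_range s (x := σ) (y := 1) (hs σ) ⟨1, map_one s⟩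
  rw [h2, ← Fintype.card_subtype, ← Nat.card_eq_fintype_card]
  rfl

variable {V₀ : Type} [CommGroup V₀]

theorem card_es [Finite V₀] (E' : Subgroup (MulAut V₀)) [Fintype E'] (v : V₀) :
    Nat.card (Es E' v) = ∑ σ : E', open Classical in (if (σ : MulAut V₀) v = v then 1 else 0) := by
  classical
  rw [Finset.sum_ite, Finset.sum_const_zero, add_zero, Finset.sum_const, smul_eq_mul, mul_one,
    ← Fintype.card_subtype, ← Nat.card_eq_fintype_card]
  refine Nat.card_congr ⟨fun σ => ⟨⟨σ.1, σ.2.1⟩, σ.2.2⟩, fun σ => ⟨σ.1.1, σ.1.2, σ.2⟩,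
    fun _ => rfl, fun _ => rfl⟩

theorem dbl [Fintype V₀] (E' : Subgroup (MulAut V₀)) [Fintype E'] :
    ∑ σ : E', ∑ τ : E', {v : V₀ | (σ : MulAut V₀) v = v ∧ (τ : MulAut V₀) v = v}.ncard =
      ∑ v : V₀, Nat.card (Es E' v) ^ 2 := by
  classical
  have h1 : ∀ σ τ : E', {v : V₀ | (σ : MulAut V₀) v = v ∧ (τ : MulAut V₀) v = v}.ncard =
      ∑ v : V₀, (if (σ : MulAut V₀) v = v then 1 else 0) *
        (if (τ : MulAut V₀) v = v then 1 else 0) := by
    intro σ τ
    have h2 : ∀ v : V₀, (if (σ : MulAut V₀) v = v then 1 else 0) *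
        (if (τ : MulAut V₀) v = v then 1 else 0) =
        if (σ : MulAut V₀) v = v ∧ (τ : MulAut V₀) v = v then 1 else 0 := by
      intro v
      by_cases a : (σ : MulAut V₀) v = v <;> by_cases b : (τ : MulAut V₀) v = v <;> simp [a, b]
    simp only [h2]
    rw [Finset.sum_ite, Finset.sum_const_zero, add_zero, Finset.sum_const, smul_eq_mul, mul_one,
      Set.ncard_eq_toFinset_card']
    congr 1
    ext v
    simp
  simp only [h1]
  have h3 : ∀ v : V₀, Nat.card (Es E' v) ^ 2 = ∑ σ : E', ∑ τ : E',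
      (if (σ : MulAut V₀) v = v then 1 else 0) * (if (τ : MulAut V₀) v = v then 1 else 0) := by
    intro v
    rw [card_es E' v, sq, Finset.sum_mul_sum]
  simp only [h3]
  exact (Finset.sum_congr rfl fun σ _ => Finset.sum_comm).trans Finset.sum_comm

/-- the centraliser of `V` is contained in the inertial group of `γ` -/
theorem cent_le_Tg {ℓ : ℕ} {F : Type} [Field F] {G : Type} [Group G] [Finite G] {e : G → F}
    {V : Subgroup G} {γ : G → F} (h : Ld ℓ e V γ) :
    Subgroup.centralizer (V : Set G) ≤ Tg V γ := by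
  intro c hc
  refine Subgroup.mem_inf.2 ⟨?_, ?_⟩
  · rw [Subgroup.mem_normalizer_iff]
    intro x
    rw [Subgroup.mem_centralizer_iff] at hc
    constructor
    · intro hx
      have h1 := hc x hx
      rw [← h1, mul_inv_cancel_right]
      exact hx
    · intro hx
      have h1 := hc _ hx
      have h2 : x = c⁻¹ * (c * x * c⁻¹) * c := by group
      have h3 : c⁻¹ * (c * x * c⁻¹) * c = c * x * c⁻¹ := by
        rw [mul_assoc, h1, inv_mul_cancel_left]
      rw [h2, h3]
      exact hx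
  · exact (cj_eq_iff _ _).1 (h.gam.ix.inv hc)

theorem memC {F G : Type} [Group G] (B : Bk F V₀ G) (W : Subgroup V₀) (x : G) :
    x ∈ B.C W ↔ ∀ v ∈ W, B.i v * x = x * B.i v := by
  unfold Bk.C
  rw [Subgroup.mem_centralizer_iff]
  constructor
  · intro h v hv
    exact h _ ⟨v, hv, rfl⟩
  · rintro h _ ⟨v, hv, rfl⟩
    exact h v hv

/-- the map of `X` to the automorphisms, if all the elements of `X` act by automorphisms in `E'` -/
theorem exists_hom {F X : Type} [Group X] (B : Bk F V₀ X) (hi : Function.Injective B.i)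
    (E' : Subgroup (MulAut V₀)) (h : ∀ x : X, ∃ σ ∈ E', ∀ v, x * B.i v * x⁻¹ = B.i (σ v)) :
    ∃ s : X →* E', (∀ x v, x * B.i v * x⁻¹ = B.i ((s x : MulAut V₀) v)) := by
  choose f hf1 hf2 using h
  have hm : ∀ x y, f (x * y) = f x * f y := by
    intro x y
    ext v
    apply hi
    rw [← hf2, MulAut.mul_apply, ← hf2, ← hf2]
    group
  refine ⟨MonoidHom.mk' (fun x => (⟨f x, hf1 x⟩ : E')) fun x y => Subtype.ext (hm x y), ?_⟩
  intro x v
  exact hf2 x v

end gen

section cnt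

variable {V₀ X : Type} [CommGroup V₀] [Finite V₀] [Group X] [Finite X] {ℓ : ℕ} [Fact ℓ.Prime]
  {M : Ideal (integralClosure ℤ ℂ)} [M.IsMaximal]

/-- the number of ordinary characters of the group `X` -/
theorem count (f1s : F1sStmt) (chg : ChgStmt) (hM : (ℓ : integralClosure ℤ ℂ) ∈ M) (hl2 : ℓ ≠ 2)
    (ρ : MulAut V₀) (hF : Fq ℓ V₀ (Subgroup.zpowers ρ)) (B : Bk (FF M) V₀ X)
    (hB : Sb ℓ M (Subgroup.zpowers ρ) B) (hT : ∀ x : X, x ∈ TE B (Subgroup.zpowers ρ))
    (he : ∀ x, B.e x = B.b ⊤ x) :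
    Nat.card (Subgroup.zpowers ρ) * (IrrE M B.e).ncard =
      ∑ᶠ v : V₀, Nat.card (Es (Subgroup.zpowers ρ) v) ^ 2 := by
  classical
  obtain ⟨E', hE'⟩ : ∃ E' : Subgroup (MulAut V₀), E' = Subgroup.zpowers ρ := ⟨_, rfl⟩
  have hρ : ρ ∈ E' := by rw [hE']; exact Subgroup.mem_zpowers ρ
  have hgen : ∀ σ ∈ E', ∃ n : ℕ, σ = ρ ^ n := by
    intro σ hσ
    rw [hE', ← mem_powers_iff_mem_zpowers] at hσ
    obtain ⟨n, hn⟩ := hσ
    exact ⟨n, hn.symm⟩
  rw [← hE'] at hF hB hT ⊢
  have : Fintype V₀ := Fintype.ofFinite V₀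
  have : Fintype X := Fintype.ofFinite X
  have : Fintype E' := Fintype.ofFinite E'
  obtain ⟨s, hs⟩ := exists_hom B hB.inj E' fun x => (hT x).2
  have hsur : Function.Surjective s := by
    rintro ⟨σ, hσ⟩
    obtain ⟨t, -, ht⟩ := hB.sur σ hσ
    refine ⟨t, Subtype.ext ?_⟩
    ext v
    apply hB.inj
    rw [← hs, ht]
  have hker : s.ker = B.C ⊤ := by
    ext x
    rw [MonoidHom.mem_ker, memC]
    constructor
    · intro h v _
      have h1 := hs x v
      rw [h, OneMemClass.coe_one, MulAut.one_apply] at h1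
      rw [mul_inv_eq_iff_eq_mul] at h1
      exact h1.symm
    · intro h
      apply Subtype.ext
      ext v
      apply hB.inj
      rw [← hs, OneMemClass.coe_one, MulAut.one_apply, ← h v (Subgroup.mem_top v),
        mul_inv_cancel_right]
  have heb : B.e = B.b ⊤ := funext he
  have hblk : Bx (B.C ⊤) (B.b ⊤) := (hB.lb ⊤).blk
  have hcl : ∀ x y, B.b ⊤ (x * y * x⁻¹) = B.b ⊤ y := by
    intro x y
    rw [← he, ← he]
    exact hB.ld.blk.1.1 y x
  have hN : (B.C ⊤).Normal := by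
    rw [← hker]
    infer_instance
  obtain ⟨t, ht⟩ := hsur ⟨ρ, hρ⟩
  have h1 := f1s ℓ M hM X (B.C ⊤) hN ⟨t, fun x => by
    obtain ⟨n, hn⟩ := hgen (s x : MulAut V₀) (s x).2
    refine ⟨n, ?_⟩
    rw [← hker, MonoidHom.mem_ker, map_mul, map_inv, map_pow, ht]
    apply Subtype.ext
    push_cast
    rw [hn, inv_mul_cancel]⟩ (B.b ⊤) hblk.supp hcl hblk.blk.1
  have h2 : ∀ w : X × X, {χ : X → ℂ | (∀ x, x ∉ B.C ⊤ → χ x = 0) ∧
      (fun t : B.C ⊤ => χ t) ∈ IrrE M (fun t : B.C ⊤ => B.b ⊤ t) ∧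
      (∀ y, χ (w.1 * y * w.1⁻¹) = χ y) ∧ ∀ y, χ (w.2 * y * w.2⁻¹) = χ y}.ncard =
      {v : V₀ | (s w.1 : MulAut V₀) v = v ∧ (s w.2 : MulAut V₀) v = v}.ncard := by
    intro w
    rw [← chg ℓ M hM hl2 V₀ X E' hF B hB (s w.1) (s w.1).2 (s w.2) (s w.2).2 w.1 (hT w.1).1 w.2
      (hT w.2).1 (hs w.1) (hs w.2)]
    congr 1
    ext χ
    constructor
    · rintro ⟨a, b, c⟩
      exact ⟨⟨a, b⟩, c⟩
    · rintro ⟨⟨a, b⟩, c⟩
      exact ⟨a, b, c⟩
  rw [finsum_congr h2, finsum_eq_sum_of_fintype, Fintype.sum_prod_type] at h1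
  have h3 : ∑ x : X, ∑ y : X, {v : V₀ | (s x : MulAut V₀) v = v ∧ (s y : MulAut V₀) v = v}.ncard =
      Nat.card s.ker * (Nat.card s.ker * ∑ v : V₀, Nat.card (Es E' v) ^ 2) := by
    rw [← dbl E']
    have h4 : ∀ x : X, ∑ y : X,
        {v : V₀ | (s x : MulAut V₀) v = v ∧ (s y : MulAut V₀) v = v}.ncard =
        Nat.card s.ker * ∑ τ : E',
          {v : V₀ | (s x : MulAut V₀) v = v ∧ (τ : MulAut V₀) v = v}.ncard := fun x =>
      sum_hom s hsur fun τ => {v : V₀ | (s x : MulAut V₀) v = v ∧ (τ : MulAut V₀) v = v}.ncard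
    simp only [h4]
    rw [← Finset.mul_sum]
    congr 1
    exact sum_hom s hsur fun σ => ∑ τ : E',
      {v : V₀ | (σ : MulAut V₀) v = v ∧ (τ : MulAut V₀) v = v}.ncard
  have h5 : Nat.card X = Nat.card s.ker * Nat.card E' := by
    have h6 := sum_hom s hsur fun _ => 1
    simpa [Nat.card_eq_fintype_card] using h6
  rw [h3, h5, ← hker, ← heb] at h1
  rw [finsum_eq_sum_of_fintype]
  have hpos : 0 < Nat.card s.ker := Nat.card_pos
  have h7 : (Nat.card s.ker * Nat.card s.ker) * (Nat.card E' * (IrrE M B.e).ncard) =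
      (Nat.card s.ker * Nat.card s.ker) * ∑ v : V₀, Nat.card (Es E' v) ^ 2 := by
    calc (Nat.card s.ker * Nat.card s.ker) * (Nat.card E' * (IrrE M B.e).ncard) =
        Nat.card s.ker * Nat.card E' * Nat.card s.ker * (IrrE M B.e).ncard := by ring
      _ = _ := by rw [h1]; ring
  exact Nat.eq_of_mul_eq_mul_left (Nat.mul_pos hpos hpos) h7

end cnt

theorem es_le {V₀ : Type} [CommGroup V₀] (E' : Subgroup (MulAut V₀)) (v : V₀) : Es E' v ≤ E' :=
  fun _ h => h.1

theorem es_one {V₀ : Type} [CommGroup V₀] (E' : Subgroup (MulAut V₀)) :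
    Es E' (1 : V₀) = E' := by
  ext σ
  exact ⟨fun h => h.1, fun h => ⟨h, map_one σ⟩⟩

/-- the last step -/
theorem last {ι : Type} [Fintype ι] (a b : ι → ℕ) (m L : ℕ) (hm : 0 < m) (i₀ : ι)
    (h0 : a i₀ = m ∧ b i₀ = L) (h : ∀ i, (a i = m ∧ b i = L) ∨ b i = a i)
    (hs : ∑ i, a i * b i = ∑ i, a i ^ 2) : L = m := by
  have h1 : ∑ i, (a i : ℤ) * ((b i : ℤ) - a i) = 0 := by
    have h2 : ((∑ i, a i * b i : ℕ) : ℤ) = ((∑ i, a i ^ 2 : ℕ) : ℤ) := by rw [hs]
    push_cast at h2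
    simp only [mul_sub, Finset.sum_sub_distrib]
    rw [h2, ← Finset.sum_sub_distrib]
    refine Finset.sum_eq_zero fun i _ => ?_
    ring
  by_contra hne
  have hm' : (0 : ℤ) < m := by exact_mod_cast hm
  rcases lt_or_gt_of_ne hne with hlt | hgt
  · have h3 : ∑ i, (a i : ℤ) * ((b i : ℤ) - a i) < 0 := by
      have h4 : ∀ i ∈ Finset.univ, (a i : ℤ) * ((b i : ℤ) - a i) ≤ 0 := by
        intro i _
        rcases h i with ⟨h5, h6⟩ | h5
        · rw [h5, h6]
          have : (L : ℤ) < m := by exact_mod_cast hlt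
          nlinarith
        · rw [h5, sub_self, mul_zero]
      refine Finset.sum_neg' h4 ⟨i₀, Finset.mem_univ _, ?_⟩
      rw [h0.1, h0.2]
      have : (L : ℤ) < m := by exact_mod_cast hlt
      nlinarith
    exact absurd h1 h3.ne
  · have h3 : 0 < ∑ i, (a i : ℤ) * ((b i : ℤ) - a i) := by
      have h4 : ∀ i ∈ Finset.univ, 0 ≤ (a i : ℤ) * ((b i : ℤ) - a i) := by
        intro i _
        rcases h i with ⟨h5, h6⟩ | h5
        · rw [h5, h6]
          have : (m : ℤ) < L := by exact_mod_cast hgt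
          nlinarith
        · rw [h5, sub_self, mul_zero]
      refine Finset.sum_pos' h4 ⟨i₀, Finset.mem_univ _, ?_⟩
      rw [h0.1, h0.2]
      have : (m : ℤ) < L := by exact_mod_cast hgt
      nlinarith
    exact absurd h1 h3.ne'

/-- LMC -/
theorem lmc (xwd : XwdStmt) (lmb : LmbStmt) (f1s : F1sStmt) (chg : ChgStmt) : LmcStmt := by
  intro ℓ hℓ M _ hM hl2 V₀ G _ _ _ _ E₀ hF B hB
  have hp := hℓ.out
  have key : ∀ (n : ℕ) (ρ : MulAut V₀), ρ ∈ E₀ → Nat.card (Subgroup.zpowers ρ) = n →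
      Lam B (Subgroup.zpowers ρ) = n := by
    intro n
    induction n using Nat.strong_induction_on with
    | _ n ih =>
    intro ρ hρ hn
    have hle : Subgroup.zpowers ρ ≤ E₀ := Subgroup.zpowers_le.2 hρ
    have htop : (⊤ : Subgroup V₀) ≠ ⊥ := by
      intro h
      have h1 : Nat.card (⊤ : Subgroup V₀) = ℓ ^ 2 := by rw [Subgroup.card_top, hF.cd]
      rw [h, Subgroup.card_bot] at h1
      have : 1 < ℓ ^ 2 := Nat.one_lt_pow two_ne_zero hp.one_lt
      omega
    have hst : St E₀ (⊤ : Subgroup V₀) ≤ Subgroup.zpowers ρ := by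
      intro σ hσ
      have : σ = 1 := by
        ext v
        exact hσ.2 v (Subgroup.mem_top v)
      rw [this]
      exact Subgroup.one_mem _
    have hC : B.C ⊤ ≤ TE B (Subgroup.zpowers ρ) := by
      intro c hc
      have hc' := (memC B ⊤ c).1 hc
      refine ⟨cent_le_Tg hB.ld ?_, 1, Subgroup.one_mem _, fun v => ?_⟩
      · rw [Subgroup.mem_centralizer_iff]
        rintro _ ⟨v, rfl⟩
        exact hc' v (Subgroup.mem_top v)
      · rw [MulAut.one_apply, ← hc' v (Subgroup.mem_top v), mul_inv_cancel_right]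
    obtain ⟨hF', B', hB', hP, he, hnor, hTE, hLam⟩ := xwd ℓ M hM hl2 V₀ G
      (TE B (Subgroup.zpowers ρ)) E₀ hF B hB ⊤ htop (Subgroup.zpowers ρ) hle hst
      (fun σ _ w _ => Subgroup.mem_top _) (TE B (Subgroup.zpowers ρ)).subtype
      (Subgroup.subtype_injective _) (by
        rw [Subgroup.range_subtype, sup_eq_left.2 hC])
    have hTE' : ∀ x : TE B (Subgroup.zpowers ρ), x ∈ TE B' (Subgroup.zpowers ρ) :=
      fun x => (hTE x).1 x.2
    have he' : ∀ x, B'.e x = B'.b ⊤ x := by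
      intro x
      rw [he, hP.b ⊤ le_rfl]
    have c1 := count f1s chg hM hl2 ρ hF' B' hB'.toSb hTE' he'
    obtain ⟨-, l2, -, l4, -⟩ := lmb ℓ M hM hl2 V₀ (TE B (Subgroup.zpowers ρ))
      (Subgroup.zpowers ρ) hF' B' hB'.toSb
    have l2' := l2 ⊤ htop hnor
    have : Fintype V₀ := Fintype.ofFinite V₀
    classical
    have l5 : ∑ᶠ v ∈ {v : V₀ | v ≠ 1}, Nat.card (Es (Subgroup.zpowers ρ) v) *
        Lam B' (Es (Subgroup.zpowers ρ) v) = ∑ v ∈ Finset.univ.erase (1 : V₀),
        Nat.card (Es (Subgroup.zpowers ρ) v) * Lam B' (Es (Subgroup.zpowers ρ) v) := by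
      have hset : ({v : V₀ | v ≠ 1} : Set V₀) = ((Finset.univ.erase (1 : V₀) : Finset V₀) :
          Set V₀) := by
        ext v
        simp
      rw [hset, finsum_mem_coe_finset]
    rw [l5, l2'] at l4
    have l6 : Nat.card (Subgroup.zpowers ρ) * (IrrE M B'.e).ncard =
        ∑ v : V₀, Nat.card (Es (Subgroup.zpowers ρ) v) * Lam B' (Es (Subgroup.zpowers ρ) v) := by
      rw [l4, ← Finset.add_sum_erase Finset.univ _ (Finset.mem_univ (1 : V₀)), es_one]
    rw [l6, finsum_eq_sum_of_fintype] at c1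
    have hm : 0 < Nat.card (Subgroup.zpowers ρ) := Nat.card_pos
    have h1 := last (fun v : V₀ => Nat.card (Es (Subgroup.zpowers ρ) v))
      (fun v : V₀ => Lam B' (Es (Subgroup.zpowers ρ) v)) (Nat.card (Subgroup.zpowers ρ))
      (Lam B' (Subgroup.zpowers ρ)) hm 1 ⟨by rw [es_one], by rw [es_one]⟩ (fun v => by
        by_cases hv : Es (Subgroup.zpowers ρ) v = Subgroup.zpowers ρ
        · left
          simp only [hv]
          exact ⟨trivial, trivial⟩
        · right
          have hlt : Es (Subgroup.zpowers ρ) v < Subgroup.zpowers ρ :=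
            lt_of_le_of_ne (es_le _ v) hv
          obtain ⟨ρ', hρ'⟩ : ∃ ρ', Es (Subgroup.zpowers ρ) v = Subgroup.zpowers ρ' := by
            obtain ⟨g, hg⟩ := (Subgroup.isCyclic_iff_exists_zpowers_eq_top
              ((Es (Subgroup.zpowers ρ) v).subgroupOf (Subgroup.zpowers ρ))).1 inferInstance
            refine ⟨g, ?_⟩
            have h8 := congrArg (Subgroup.map (Subgroup.zpowers ρ).subtype) hg
            rw [Subgroup.subgroupOf_map_subtype, inf_eq_left.2 (es_le _ v),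
              MonoidHom.map_zpowers] at h8
            exact h8.symm
          rw [hLam _ (es_le _ v), hρ']
          refine ih _ ?_ ρ' ?_ rfl
          · rw [← hρ', ← hn]
            by_contra h8
            exact hv (Subgroup.eq_of_le_of_card_ge (es_le _ v) (not_lt.1 h8))
          · have : ρ' ∈ Es (Subgroup.zpowers ρ) v := by
              rw [hρ']
              exact Subgroup.mem_zpowers ρ'
            exact hle this.1) c1
    rw [← hLam _ le_rfl, h1, hn]
  intro ρ hρ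
  exact key _ ρ hρ rfl

end Pool.Agent.PP.SE.H31
end
end -- Pool.Agent.Helper31_ASE.LMC

section -- Pool.Agent.Helper35_ASE.FXL

/-!
# Squad ASE, row FXL: the numbers of fixed characters are determined by `Lam`
-/

open scoped BigOperators

noncomputable section

namespace Pool.Agent.PP.SE.H35

open Pool.Agent.Helper51_AWC Pool.Agent.Helper79_WRA Pool.Agent.PP Pool.Agent.PP.KF
open Pool.Agent.PP.K9 Pool.Agent.PP.K9.H97 Pool.Agent.PP.H75 Pool.Agent.PP.T3 Pool.Agent.PP.SO
open Pool.Agent.PP.SD Pool.Agent.PP.SE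

attribute [local instance] Ideal.Quotient.field

theorem irr_conj35 {G : Type} [Group G] {χ : G → ℂ} (hχ : χ ∈ Irr G) (x y : G) :
    χ (y * x * y⁻¹) = χ x := by
  obtain ⟨n, ρ, -, rfl⟩ := hχ
  exact ρ.char_conj x y

section blk

variable {V₀ G : Type} [CommGroup V₀] [Group G] {ℓ : ℕ}
  {M : Ideal (integralClosure ℤ ℂ)} [M.IsMaximal] {E₀ : Subgroup (MulAut V₀)}
  {B : Bk (FF M) V₀ G} {χ : G → ℂ} {W : Subgroup V₀}

theorem ch_conj35 (hχ : χ ∈ Ch B W) {h : G} (hh : h ∈ B.C W) (y : G) :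
    χ (h * y * h⁻¹) = χ y := by
  by_cases hy : y ∈ B.C W
  · exact irr_conj35 hχ.2.1 (⟨y, hy⟩ : B.C W) ⟨h, hh⟩
  · have hy' : h * y * h⁻¹ ∉ B.C W := by
      intro h'
      apply hy
      have h2 := (B.C W).mul_mem ((B.C W).mul_mem ((B.C W).inv_mem hh) h') hh
      have e : h⁻¹ * (h * y * h⁻¹) * h = y := by group
      rwa [e] at h2
    rw [hχ.1 y hy, hχ.1 _ hy']

theorem tt_spec (hSb : Sb ℓ M E₀ B) {σ : MulAut V₀} (hσ : σ ∈ E₀) (v : V₀) :
    tt B σ * B.i v * (tt B σ)⁻¹ = B.i (σ v) := by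
  have h := hSb.sur σ hσ
  unfold tt
  rw [dif_pos h]
  exact h.choose_spec.2 v

theorem ac_eq (hSb : Sb ℓ M E₀ B) (hχ : χ ∈ Ch B W) {σ : MulAut V₀} (hσ : σ ∈ E₀) {t : G}
    (ht : ∀ w ∈ W, t * B.i w * t⁻¹ = B.i (σ w)) (x : G) : ac B σ χ x = χ (t⁻¹ * x * t) := by
  have hc : t⁻¹ * tt B σ ∈ B.C W := by
    unfold Bk.C
    rw [Subgroup.mem_centralizer_iff]
    rintro _ ⟨w, hw, rfl⟩
    have h1 := tt_spec hSb hσ w
    rw [← ht w hw] at h1
    have h2 : tt B σ * B.i w = t * B.i w * t⁻¹ * tt B σ := by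
      rw [← h1]
      group
    rw [mul_assoc, h2]
    group
  have h3 := ch_conj35 hχ ((B.C W).inv_mem hc) (t⁻¹ * x * t)
  unfold ac
  rw [← h3]
  congr 1
  group

theorem fix_sub (hSb : Sb ℓ M E₀ B) (hχ : χ ∈ Ch B W) :
    ∃ S : Subgroup (MulAut V₀), ∀ σ, σ ∈ S ↔ σ ∈ E₀ ∧ ac B σ χ = χ := by
  refine ⟨{
    carrier := {σ | σ ∈ E₀ ∧ ac B σ χ = χ}
    one_mem' := ?_
    mul_mem' := ?_
    inv_mem' := ?_ }, fun σ => Iff.rfl⟩
  · rintro a b ⟨ha, ea⟩ ⟨hb, eb⟩
    refine ⟨E₀.mul_mem ha hb, funext fun x => ?_⟩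
    rw [ac_eq hSb hχ (E₀.mul_mem ha hb) (t := tt B a * tt B b) (fun w _ => by
      rw [MulAut.mul_apply, ← tt_spec hSb ha (b w), ← tt_spec hSb hb w]
      group)]
    have h1 := congrFun eb ((tt B a)⁻¹ * x * tt B a)
    have h2 := congrFun ea x
    unfold ac at h1 h2
    rw [h2] at h1
    rw [← h1]
    congr 1
    group
  · refine ⟨E₀.one_mem, funext fun x => ?_⟩
    rw [ac_eq hSb hχ E₀.one_mem (t := 1) (fun w _ => by simp)]
    simp
  · rintro a ⟨ha, ea⟩
    refine ⟨E₀.inv_mem ha, funext fun x => ?_⟩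
    rw [ac_eq hSb hχ (E₀.inv_mem ha) (t := (tt B a)⁻¹) (fun w _ => by
      have h1 := tt_spec hSb ha (a⁻¹ w)
      rw [MulAut.apply_inv_self] at h1
      rw [← h1]
      group)]
    have h1 := congrFun ea (tt B a * x * (tt B a)⁻¹)
    unfold ac at h1
    rw [inv_inv, ← h1]
    congr 1
    group

theorem ac_St (hSb : Sb ℓ M E₀ B) (hχ : χ ∈ Ch B W) {σ : MulAut V₀} (hσ : σ ∈ St E₀ W) :
    ac B σ χ = χ := by
  funext x
  rw [ac_eq hSb hχ hσ.1 (t := 1) (fun w hw => by rw [hσ.2 w hw]; simp)]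
  simp

/-- the number of the characters fixed by `H` -/
def FN (B : Bk (FF M) V₀ G) (W : Subgroup V₀) (H : Subgroup (MulAut V₀)) : ℕ :=
  {χ | χ ∈ Ch B W ∧ ∀ σ ∈ H, ac B σ χ = χ}.ncard

theorem fn_pair (hSb : Sb ℓ M E₀ B) {ρ τ : MulAut V₀} (hρ : ρ ∈ E₀) (hτ : τ ∈ E₀) :
    {χ | χ ∈ Ch B W ∧ ac B ρ χ = χ ∧ ac B τ χ = χ}.ncard =
      FN B W (Subgroup.closure {ρ, τ} ⊔ St E₀ W) := by
  unfold FN
  congr 1
  ext χ
  constructor
  · rintro ⟨hχ, h1, h2⟩
    refine ⟨hχ, ?_⟩
    obtain ⟨S, hS⟩ := fix_sub hSb hχ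
    have h3 : Subgroup.closure {ρ, τ} ⊔ St E₀ W ≤ S := by
      refine sup_le ((Subgroup.closure_le _).2 ?_) ?_
      · intro x hx
        rcases hx with rfl | hx
        · exact (hS x).2 ⟨hρ, h1⟩
        · rw [Set.mem_singleton_iff] at hx
          rw [hx]
          exact (hS τ).2 ⟨hτ, h2⟩
      · intro x hx
        exact (hS x).2 ⟨hx.1, ac_St hSb hχ hx⟩
    exact fun σ hσ => ((hS σ).1 (h3 hσ)).2
  · rintro ⟨hχ, h⟩
    refine ⟨hχ, h ρ ?_, h τ ?_⟩
    · exact Subgroup.mem_sup_left (Subgroup.subset_closure (Set.mem_insert _ _))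
    · exact Subgroup.mem_sup_left (Subgroup.subset_closure (Set.mem_insert_of_mem _ rfl))

end blk

section grp

variable {V₀ : Type} [CommGroup V₀]

theorem mp_one (W : Subgroup V₀) : mp 1 W = W := Subgroup.map_id W

theorem mp_mul (σ τ : MulAut V₀) (W : Subgroup V₀) : mp (σ * τ) W = mp σ (mp τ W) := by
  unfold mp
  rw [Subgroup.map_map]
  rfl

/-- the stabiliser of `W` in `E₀` -/
def NW (E₀ : Subgroup (MulAut V₀)) (W : Subgroup V₀) : Subgroup (MulAut V₀) where
  carrier := {σ | σ ∈ E₀ ∧ mp σ W = W}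
  one_mem' := ⟨E₀.one_mem, mp_one W⟩
  mul_mem' := by
    rintro a b ⟨ha, ea⟩ ⟨hb, eb⟩
    exact ⟨E₀.mul_mem ha hb, by rw [mp_mul, eb, ea]⟩
  inv_mem' := by
    rintro a ⟨ha, ea⟩
    refine ⟨E₀.inv_mem ha, ?_⟩
    conv_lhs => rw [← ea]
    rw [← mp_mul, inv_mul_cancel, mp_one]

theorem St_le_NW (E₀ : Subgroup (MulAut V₀)) (W : Subgroup V₀) : St E₀ W ≤ NW E₀ W := by
  rintro σ ⟨h1, h2⟩
  refine ⟨h1, ?_⟩
  ext x
  unfold mp
  rw [Subgroup.mem_map]
  constructor
  · rintro ⟨w, hw, rfl⟩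
    have h3 : (σ : V₀ ≃* V₀).toMonoidHom w = w := h2 w hw
    rw [h3]
    exact hw
  · intro hx
    exact ⟨x, hx, h2 x hx⟩

end grp

open Classical in
/-- Row FXL. -/
theorem fxl (fxs : FxsStmt) : FxlStmt := by
  intro ℓ hℓ M _ hM h2 V₀ G G' _ _ _ _ _ _ E₀ hFq B B' hB hB' hLam W hW σ hσ hmp
  have key : ∀ n : ℕ, ∀ H : Subgroup (MulAut V₀), Nat.card H = n → ∀ ρ ∈ NW E₀ W,
      ∀ τ ∈ NW E₀ W, H = Subgroup.closure {ρ, τ} ⊔ St E₀ W → FN B W H = FN B' W H := by
    intro n
    induction n using Nat.strong_induction_on with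
    | _ n ih =>
      intro H hn ρ hρ τ hτ hH
      have hHN : H ≤ NW E₀ W := by
        rw [hH]
        refine sup_le ((Subgroup.closure_le _).2 ?_) (St_le_NW E₀ W)
        intro x hx
        rcases hx with rfl | hx
        · exact hρ
        · rw [Set.mem_singleton_iff] at hx
          rw [hx]
          exact hτ
      have hHE : H ≤ E₀ := fun x hx => (hHN hx).1
      have hSt : St E₀ W ≤ H := by
        rw [hH]
        exact le_sup_right
      have hinv : ∀ x ∈ H, ∀ w ∈ W, x w ∈ W := by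
        intro x hx w hw
        have h3 : x w ∈ mp x W := ⟨w, hw, rfl⟩
        rwa [(hHN hx).2] at h3
      have e1 := fxs ℓ M hM h2 V₀ G E₀ hFq B hB W hW H hHE hSt hinv
      have e2 := fxs ℓ M hM h2 V₀ G' E₀ hFq B' hB' W hW H hHE hSt hinv
      have e3 : ∑ᶠ v : V₀, Nat.card (Es H v) * Lam B' (Es H v) =
          ∑ᶠ v : V₀, Nat.card (Es H v) * Lam B (Es H v) := by
        refine finsum_congr fun v => ?_
        rw [hLam (Es H v) fun x hx => hHE hx.1]
      rw [e3, ← e1] at e2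
      let _ : Fintype (H × H) := Fintype.ofFinite _
      rw [finsum_eq_sum_of_fintype, finsum_eq_sum_of_fintype,
        Finset.sum_congr rfl fun w _ => fn_pair hB' (hHE w.1.2) (hHE w.2.2),
        Finset.sum_congr rfl fun w _ => fn_pair hB (hHE w.1.2) (hHE w.2.2)] at e2
      obtain ⟨D, hD⟩ : ∃ D : ℤ, D = (FN B W H : ℤ) - FN B' W H := ⟨_, rfl⟩
      have e4 : ∀ w : H × H,
          (FN B W (Subgroup.closure {(w.1 : MulAut V₀), (w.2 : MulAut V₀)} ⊔ St E₀ W) : ℤ) -
          FN B' W (Subgroup.closure {(w.1 : MulAut V₀), (w.2 : MulAut V₀)} ⊔ St E₀ W) =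
          if Subgroup.closure {(w.1 : MulAut V₀), (w.2 : MulAut V₀)} ⊔ St E₀ W = H then D
            else 0 := by
        intro w
        by_cases hw : Subgroup.closure {(w.1 : MulAut V₀), (w.2 : MulAut V₀)} ⊔ St E₀ W = H
        · rw [if_pos hw, hw, hD]
        · rw [if_neg hw]
          have hle : Subgroup.closure {(w.1 : MulAut V₀), (w.2 : MulAut V₀)} ⊔ St E₀ W ≤ H := by
            refine sup_le ((Subgroup.closure_le _).2 ?_) hSt
            intro x hx
            rcases hx with rfl | hx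
            · exact w.1.2
            · rw [Set.mem_singleton_iff] at hx
              rw [hx]
              exact w.2.2
          have hlt : Nat.card (Subgroup.closure {(w.1 : MulAut V₀), (w.2 : MulAut V₀)} ⊔ St E₀ W :
              Subgroup (MulAut V₀)) < n := by
            rw [← hn]
            by_contra hcon
            exact hw (Subgroup.eq_of_le_of_card_ge hle (not_lt.1 hcon))
          rw [ih _ hlt _ rfl w.1 (hHN w.1.2) w.2 (hHN w.2.2) rfl, sub_self]
      have e5 : ∑ w : H × H,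
          (if Subgroup.closure {(w.1 : MulAut V₀), (w.2 : MulAut V₀)} ⊔ St E₀ W = H then D
            else 0) = 0 := by
        rw [← Finset.sum_congr rfl fun w _ => e4 w, Finset.sum_sub_distrib, sub_eq_zero]
        exact_mod_cast e2.symm
      rw [← Finset.sum_filter, Finset.sum_const, nsmul_eq_mul] at e5
      rcases mul_eq_zero.1 e5 with h3 | h3
      · exfalso
        rw [Nat.cast_eq_zero, Finset.card_eq_zero] at h3
        have hρH : ρ ∈ H := by
          rw [hH]
          exact Subgroup.mem_sup_left (Subgroup.subset_closure (Set.mem_insert _ _))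
        have hτH : τ ∈ H := by
          rw [hH]
          exact Subgroup.mem_sup_left
            (Subgroup.subset_closure (Set.mem_insert_of_mem _ rfl))
        have h4 : ((⟨ρ, hρH⟩, ⟨τ, hτH⟩) : H × H) ∈ Finset.univ.filter (fun w : H × H =>
            Subgroup.closure {(w.1 : MulAut V₀), (w.2 : MulAut V₀)} ⊔ St E₀ W = H) := by
          rw [Finset.mem_filter]
          exact ⟨Finset.mem_univ _, hH.symm⟩
        rw [h3] at h4
        exact absurd h4 (Finset.notMem_empty _)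
      · rw [h3] at hD
        exact_mod_cast (sub_eq_zero.1 hD.symm)
  have hfix : ∀ {G₁ : Type} [Group G₁] (B₁ : Bk (FF M) V₀ G₁), Sb ℓ M E₀ B₁ →
      FixC B₁ W σ = FN B₁ W (Subgroup.closure {σ, σ} ⊔ St E₀ W) := by
    intro G₁ _ B₁ hB₁
    rw [← fn_pair hB₁ hσ hσ]
    unfold FixC
    congr 1
    ext χ
    exact ⟨fun h => ⟨h.1, h.2, h.2⟩, fun h => ⟨h.1, h.2.1⟩⟩
  rw [hfix B hB, hfix B' hB']
  exact (key _ _ rfl σ ⟨hσ, hmp⟩ σ ⟨hσ, hmp⟩ rfl).symm

end Pool.Agent.PP.SE.H35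
end
end -- Pool.Agent.Helper35_ASE.FXL

section -- Pool.Agent.Helper65_ASE.F1S

/-!
# Squad ASE, row F1S: the number of the characters of a group with a cyclic quotient
-/

set_option autoImplicit false

open scoped BigOperators

set_option linter.unusedSectionVars false

noncomputable section

namespace Pool.Agent.PP.SE.H65

open Pool.Agent.Helper51_AWC Pool.Agent.Helper79_WRA Pool.Agent.PP Pool.Agent.PP.KF
open Pool.Agent.PP.K9 Pool.Agent.PP.K9.H97 Pool.Agent.PP.H75 Pool.Agent.PP.T3 Pool.Agent.PP.SO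
open Pool.Agent.PP.SD Pool.Agent.PP.SE

attribute [local instance] Ideal.Quotient.field

section general

variable {M : Ideal (integralClosure ℤ ℂ)} [M.IsMaximal]

/-- the twisted commutator sum -/
theorem tw_sum {H : Type} [Group H] [Fintype H] (e : H → FF M) (τ : H ≃* H) :
    ∑ n : H, ∑ n' : H, eh M e (τ n * τ n' * (τ n)⁻¹ * n'⁻¹) =
      (Nat.card H : ℂ) * ({κ | κ ∈ IrrE M e ∧ ∀ x, κ (τ x) = κ x}.ncard : ℂ) := by
  classical
  have h1 : ∀ n' : H, ∑ n : H, eh M e (τ n * τ n' * (τ n)⁻¹ * n'⁻¹) =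
      ∑ χ ∈ (T5.H48.ife_fin e).toFinset, χ (τ n'⁻¹) * χ n' := by
    intro n'
    have h2 := T5.H48.kern_lift e (τ n')⁻¹ n'⁻¹
    rw [inv_inv, ← Equiv.sum_comp τ.toEquiv] at h2
    change ∑ᶠ χ ∈ IrrE M e, _ = ∑ n : H, eh M e (τ n * τ n' * (τ n)⁻¹ * n'⁻¹) at h2
    rw [← h2, finsum_mem_eq_finite_toFinset_sum _ (T5.H48.ife_fin e)]
    refine Finset.sum_congr rfl fun χ hχ => ?_
    have hχ' := ((Set.Finite.mem_toFinset _).1 hχ).1
    rw [H94.irr_star hχ', inv_inv, map_inv]
  rw [Finset.sum_comm, Finset.sum_congr rfl fun n' _ => h1 n', Finset.sum_comm]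
  have h3 : ∀ χ ∈ (T5.H48.ife_fin e).toFinset, ∑ n' : H, χ (τ n'⁻¹) * χ n' =
      if ∀ x, χ (τ x) = χ x then (Nat.card H : ℂ) else 0 := by
    intro χ hχ
    have hχ' := ((Set.Finite.mem_toFinset _).1 hχ).1
    have h4 : (fun x => χ (τ x)) ∈ Irr H := irr_comp_equiv τ hχ'
    have h5 : ∑ n' : H, χ (τ n'⁻¹) * χ n' = ∑ n' : H, χ n' * (fun x => χ (τ x)) n'⁻¹ :=
      Finset.sum_congr rfl fun n' _ => mul_comm _ _
    rw [h5]
    split_ifs with h
    · have h6 : (fun x => χ (τ x)) = χ := funext h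
      rw [h6, irr_orth_self hχ', Nat.card_eq_fintype_card]
    · exact irr_orth_ne hχ' h4 fun h6 => h fun x => (congrFun h6 x).symm
  rw [Finset.sum_congr rfl h3, ← Finset.sum_filter, Finset.sum_const, nsmul_eq_mul, mul_comm]
  congr 2
  rw [← Set.ncard_coe_finset]
  congr 1
  ext χ
  simp only [Finset.coe_filter, Set.Finite.mem_toFinset, Set.mem_ofPred_eq]

/-- the number of characters -/
theorem cm_sum {H : Type} [Group H] [Fintype H] (e : H → FF M) :
    ∑ n : H, ∑ n' : H, eh M e (n * n' * n⁻¹ * n'⁻¹) =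
      (Nat.card H : ℂ) * ((IrrE M e).ncard : ℂ) := by
  have h1 := tw_sum e (MulEquiv.refl H)
  simp only [MulEquiv.refl_apply, implies_true, and_true, Set.ofPred_mem_eq] at h1
  exact h1

/-- the lift of an idempotent of a normal subgroup -/
theorem eh_ext {X : Type} [Group X] [Finite X] (N : Subgroup X) [N.Normal] (b : X → FF M)
    (hs : ∀ x, x ∉ N → b x = 0) (hc : ∀ x y, b (x * y * x⁻¹) = b y)
    (hi : IsIdem (fun t : N => b t)) :
    eh M b = H75.ext0 N (eh M (fun t : N => b t)) := by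
  classical
  have := Fintype.ofFinite X
  have := Fintype.ofFinite N
  have hA0 : IsIdem (eh M (fun t : N => b t)) := KF.H25.eh_idem _
  have hinv : ∀ (y : X) (x : N), eh M (fun t : N => b t) (MulAut.conjNormal y x) =
      eh M (fun t : N => b t) x := by
    intro y x
    have h1 := T3.H62.eh_equiv (M := M) (MulAut.conjNormal y : N ≃* N) (b := fun t : N => b t)
      hi.1 x
    rw [← h1]
    refine congrFun (congrArg (eh M) ?_) _
    funext t
    have h2 : ((MulAut.conjNormal y : N ≃* N).symm t : X) = y⁻¹ * t * y := by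
      rw [MulAut.conjNormal_symm_apply]
    simp only [h2]
    have h3 := hc y⁻¹ (t : X)
    rw [inv_inv] at h3
    exact h3.symm
  apply T5.H48.eh_uniq
  · refine ⟨?_, ?_⟩
    · intro x y
      by_cases hx : x ∈ N
      · have hx' : y * x * y⁻¹ ∈ N := Subgroup.Normal.conj_mem inferInstance x hx y
        rw [H75.ext0, H75.ext0, dif_pos hx, dif_pos hx']
        exact hinv y ⟨x, hx⟩
      · have hx' : y * x * y⁻¹ ∉ N := by
          intro h
          apply hx
          have h2 := Subgroup.Normal.conj_mem (inferInstance : N.Normal) _ h y⁻¹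
          have h3 : y⁻¹ * (y * x * y⁻¹) * y⁻¹⁻¹ = x := by group
          rwa [h3] at h2
        rw [H75.ext0, H75.ext0, dif_neg hx, dif_neg hx']
    · rw [← H75.ext0_mulF, hA0.2]
  · intro g
    by_cases hg : g ∈ N
    · rw [H75.ext0, dif_pos hg]
      exact ((KF.H25.idm M N _ hi).1 _).1
    · rw [H75.ext0, dif_neg hg]
      exact Subring.zero_mem _
  · intro g
    by_cases hg : g ∈ N
    · rw [H75.ext0, dif_pos hg]
      exact ((KF.H25.idm M N _ hi).1 _).2
    · rw [H75.ext0, dif_neg hg, rr_zero, hs g hg]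

end general

section sums

variable {X : Type} [Group X] [Fintype X] (N : Subgroup X) [hN : N.Normal] [Fintype N]
  (E : X → ℂ)

/-- the commutator sum over two cosets -/
def Sx (x y : X) : ℂ :=
  ∑ n : N, ∑ n' : N, E ((x * n) * (y * n') * (x * n)⁻¹ * (y * n')⁻¹)

variable {E} (hE : ∀ x y, E (y * x * y⁻¹) = E x)

theorem sx_left (x y : X) : Sx N E (x * y) y = Sx N E x y := by
  unfold Sx
  rw [Finset.sum_comm, Finset.sum_comm (s := (Finset.univ : Finset N))
    (f := fun n n' : N => E ((x * n) * (y * n') * (x * n)⁻¹ * (y * n')⁻¹))]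
  refine Finset.sum_congr rfl fun n' _ => ?_
  rw [← Equiv.sum_comp ((MulAut.conjNormal y⁻¹ : N ≃* N).toEquiv.trans (Equiv.mulRight n'))]
  refine Finset.sum_congr rfl fun n _ => ?_
  congr 1
  simp only [Equiv.trans_apply, Equiv.coe_mulRight, MulEquiv.toEquiv_eq_coe, MulEquiv.coe_toEquiv,
    Subgroup.coe_mul, MulAut.conjNormal_apply]
  group

include hE in
theorem sx_right (x y : X) : Sx N E x (x * y) = Sx N E x y := by
  unfold Sx
  refine Finset.sum_congr rfl fun n _ => ?_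
  rw [← Equiv.sum_comp (Equiv.mulLeft (MulAut.conjNormal y⁻¹ n : N))]
  refine Finset.sum_congr rfl fun n' _ => ?_
  rw [← hE ((x * n) * (y * n') * (x * n)⁻¹ * (y * n')⁻¹) (x * n)]
  congr 1
  simp only [Equiv.coe_mulLeft, Subgroup.coe_mul, MulAut.conjNormal_apply]
  group

theorem sx_cl (x y : X) (ν : N) : Sx N E (x * ν) y = Sx N E x y := by
  unfold Sx
  rw [← Equiv.sum_comp (Equiv.mulLeft ν)
    (fun n : N => ∑ n' : N, E ((x * n) * (y * n') * (x * n)⁻¹ * (y * n')⁻¹))]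
  refine Finset.sum_congr rfl fun n _ => Finset.sum_congr rfl fun n' _ => ?_
  simp only [Equiv.coe_mulLeft, Subgroup.coe_mul, mul_assoc]

theorem sx_cr (x y : X) (ν : N) : Sx N E x (y * ν) = Sx N E x y := by
  unfold Sx
  refine Finset.sum_congr rfl fun n _ => ?_
  rw [← Equiv.sum_comp (Equiv.mulLeft ν)
    (fun n' : N => E ((x * n) * (y * n') * (x * n)⁻¹ * (y * n')⁻¹))]
  refine Finset.sum_congr rfl fun n' _ => ?_
  simp only [Equiv.coe_mulLeft, Subgroup.coe_mul, mul_assoc]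

theorem sx_tot : ∑ x : X, ∑ y : X, Sx N E x y =
    (Nat.card N : ℂ) ^ 2 * ∑ x : X, ∑ y : X, E (x * y * x⁻¹ * y⁻¹) := by
  unfold Sx
  have h1 : ∀ n n' : N, ∑ x : X, ∑ y : X, E ((x * n) * (y * n') * (x * n)⁻¹ * (y * n')⁻¹) =
      ∑ x : X, ∑ y : X, E (x * y * x⁻¹ * y⁻¹) := by
    intro n n'
    rw [← Equiv.sum_comp (Equiv.mulRight (n : X)) (fun x => ∑ y : X, E (x * y * x⁻¹ * y⁻¹))]
    refine Finset.sum_congr rfl fun x _ => ?_
    exact Equiv.sum_comp (Equiv.mulRight (n' : X))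
      (fun y => E ((x * n) * y * (x * n)⁻¹ * y⁻¹))
  have h2 : ∑ x : X, ∑ y : X, ∑ n : N, ∑ n' : N,
      E ((x * n) * (y * n') * (x * n)⁻¹ * (y * n')⁻¹) =
      ∑ n : N, ∑ n' : N, ∑ x : X, ∑ y : X,
        E ((x * n) * (y * n') * (x * n)⁻¹ * (y * n')⁻¹) := by
    have e1 : ∀ x : X, ∑ y : X, ∑ n : N, ∑ n' : N,
        E ((x * n) * (y * n') * (x * n)⁻¹ * (y * n')⁻¹) =
        ∑ n : N, ∑ n' : N, ∑ y : X, E ((x * n) * (y * n') * (x * n)⁻¹ * (y * n')⁻¹) := by
      intro x
      rw [Finset.sum_comm]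
      exact Finset.sum_congr rfl fun n _ => Finset.sum_comm
    rw [Finset.sum_congr rfl fun x _ => e1 x, Finset.sum_comm]
    exact Finset.sum_congr rfl fun n _ => Finset.sum_comm
  rw [h2, Finset.sum_congr rfl fun n _ => Finset.sum_congr rfl fun n' _ => h1 n n']
  rw [Finset.sum_const, Finset.sum_const, nsmul_eq_mul, nsmul_eq_mul, Finset.card_univ,
    Nat.card_eq_fintype_card]
  ring

end sums

/-- Euclid's algorithm -/
theorem euclid {X : Type} [Group X] (D : X → X → ℂ) (hl : ∀ x y, D (x * y) y = D x y)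
    (hr : ∀ x y, D x (x * y) = D x y) (h1 : ∀ x, D x 1 = 0) (t : X) :
    ∀ n i j : ℕ, i + j = n → D (t ^ i) (t ^ j) = 0 := by
  intro n
  induction n using Nat.strong_induction_on with
  | _ n ih =>
    intro i j hij
    rcases Nat.eq_zero_or_pos j with hj | hj
    · rw [hj, pow_zero, h1]
    rcases Nat.eq_zero_or_pos i with hi | hi
    · rw [hi, pow_zero]
      have h2 := hl 1 (t ^ j)
      have h3 := hr (t ^ j) 1
      rw [one_mul] at h2
      rw [mul_one] at h3
      rw [← h2, h3, h1]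
    rcases le_or_gt j i with h | h
    · have h2 : t ^ i = t ^ (i - j) * t ^ j := by rw [← pow_add, Nat.sub_add_cancel h]
      rw [h2, hl]
      exact ih (i - j + j) (by omega) _ _ rfl
    · have h2 : t ^ j = t ^ i * t ^ (j - i) := by rw [← pow_add, Nat.add_sub_cancel' h.le]
      rw [h2, hr]
      exact ih (i + (j - i)) (by omega) _ _ rfl

section count

variable {M : Ideal (integralClosure ℤ ℂ)} [M.IsMaximal] {X : Type} [Group X] [Finite X]
  (N : Subgroup X) [hN : N.Normal] (b : N → FF M)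

/-- the fixed characters -/
def Tx (x y : X) : Set (N → ℂ) :=
  {κ | κ ∈ IrrE M b ∧ (∀ n : N, κ (MulAut.conjNormal x n) = κ n) ∧
    ∀ n : N, κ (MulAut.conjNormal y n) = κ n}

theorem fix_mul {κ : N → ℂ} {x y : X} (hy : ∀ n : N, κ (MulAut.conjNormal y n) = κ n) :
    (∀ n : N, κ (MulAut.conjNormal (x * y) n) = κ n) ↔
      ∀ n : N, κ (MulAut.conjNormal x n) = κ n := by
  constructor
  · intro h n
    have h1 := h ((MulAut.conjNormal y : N ≃* N).symm n)
    rw [map_mul, MulAut.mul_apply, MulEquiv.apply_symm_apply] at h1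
    rw [h1]
    have h2 := hy ((MulAut.conjNormal y : N ≃* N).symm n)
    rw [MulEquiv.apply_symm_apply] at h2
    exact h2.symm
  · intro h n
    rw [map_mul, MulAut.mul_apply, h, hy]

theorem fix_mul' {κ : N → ℂ} {x y : X} (hx : ∀ n : N, κ (MulAut.conjNormal x n) = κ n) :
    (∀ n : N, κ (MulAut.conjNormal (x * y) n) = κ n) ↔
      ∀ n : N, κ (MulAut.conjNormal y n) = κ n := by
  constructor
  · intro h n
    have h1 := h n
    rw [map_mul, MulAut.mul_apply, hx] at h1
    exact h1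
  · intro h n
    rw [map_mul, MulAut.mul_apply, hx, h]

theorem fix_N {κ : N → ℂ} (hκ : κ ∈ Irr N) (ν : N) (n : N) :
    κ (MulAut.conjNormal (ν : X) n) = κ n := by
  have h1 : (MulAut.conjNormal (ν : X) n : N) = ν * n * ν⁻¹ := by
    apply Subtype.ext
    rw [MulAut.conjNormal_apply]
    rfl
  rw [h1, irr_conj hκ]

theorem tx_left (x y : X) : Tx N b (x * y) y = Tx N b x y := by
  ext κ
  constructor
  · rintro ⟨h1, h2, h3⟩
    exact ⟨h1, (fix_mul N h3).1 h2, h3⟩
  · rintro ⟨h1, h2, h3⟩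
    exact ⟨h1, (fix_mul N h3).2 h2, h3⟩

theorem tx_right (x y : X) : Tx N b x (x * y) = Tx N b x y := by
  ext κ
  constructor
  · rintro ⟨h1, h2, h3⟩
    exact ⟨h1, h2, (fix_mul' N h2).1 h3⟩
  · rintro ⟨h1, h2, h3⟩
    exact ⟨h1, h2, (fix_mul' N h2).2 h3⟩

theorem tx_cl (x y : X) (ν : N) : Tx N b (x * ν) y = Tx N b x y := by
  ext κ
  constructor
  · rintro ⟨h1, h2, h3⟩
    exact ⟨h1, (fix_mul N (fix_N N h1.1 ν)).1 h2, h3⟩
  · rintro ⟨h1, h2, h3⟩
    exact ⟨h1, (fix_mul N (fix_N N h1.1 ν)).2 h2, h3⟩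

theorem tx_cr (x y : X) (ν : N) : Tx N b x (y * ν) = Tx N b x y := by
  ext κ
  constructor
  · rintro ⟨h1, h2, h3⟩
    exact ⟨h1, h2, (fix_mul N (fix_N N h1.1 ν)).1 h3⟩
  · rintro ⟨h1, h2, h3⟩
    exact ⟨h1, h2, (fix_mul N (fix_N N h1.1 ν)).2 h3⟩

/-- the set of the statement -/
theorem tx_set (x y : X) : {χ : X → ℂ | (∀ x, x ∉ N → χ x = 0) ∧
    (fun t : N => χ t) ∈ IrrE M b ∧ (∀ z, χ (x * z * x⁻¹) = χ z) ∧
      ∀ z, χ (y * z * y⁻¹) = χ z}.ncard = (Tx N b x y).ncard := by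
  have h1 : {χ : X → ℂ | (∀ x, x ∉ N → χ x = 0) ∧
    (fun t : N => χ t) ∈ IrrE M b ∧ (∀ z, χ (x * z * x⁻¹) = χ z) ∧
      ∀ z, χ (y * z * y⁻¹) = χ z} = H75.ext0 N '' Tx N b x y := by
    ext χ
    constructor
    · rintro ⟨h1, h2, h3, h4⟩
      refine ⟨fun t : N => χ t, ⟨h2, ?_, ?_⟩, H75.ext0_res N h1⟩
      · intro n
        change χ (MulAut.conjNormal x n : N) = χ n
        rw [MulAut.conjNormal_apply, h3]
      · intro n
        change χ (MulAut.conjNormal y n : N) = χ n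
        rw [MulAut.conjNormal_apply, h4]
    · rintro ⟨κ, ⟨h2, h3, h4⟩, rfl⟩
      have key : ∀ w : X, (∀ n : N, κ (MulAut.conjNormal w n) = κ n) →
          ∀ z, H75.ext0 N κ (w * z * w⁻¹) = H75.ext0 N κ z := by
        intro w hw z
        by_cases hz : z ∈ N
        · have hz' : w * z * w⁻¹ ∈ N := hN.conj_mem z hz w
          rw [H75.ext0, H75.ext0, dif_pos hz, dif_pos hz']
          exact hw ⟨z, hz⟩
        · have hz' : w * z * w⁻¹ ∉ N := by
            intro h
            apply hz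
            have h5 := hN.conj_mem _ h w⁻¹
            have h6 : w⁻¹ * (w * z * w⁻¹) * w⁻¹⁻¹ = z := by group
            rwa [h6] at h5
          rw [H75.ext0, H75.ext0, dif_neg hz, dif_neg hz']
      refine ⟨H75.ext0_supp N κ, ?_, key x h3, key y h4⟩
      have h5 : (fun t : N => H75.ext0 N κ t) = κ := funext (H75.ext0_apply N κ)
      rw [h5]
      exact h2
  rw [h1]
  refine Set.ncard_image_of_injective _ ?_
  intro κ κ' h
  funext t
  have h2 := congrFun h (t : X)
  rwa [H75.ext0_apply, H75.ext0_apply] at h2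

end count

theorem f1s : F1sStmt := by
  intro ℓ _ M _ hM X _ _ N hN ht b hs hc hi
  classical
  have := Fintype.ofFinite X
  have := Fintype.ofFinite N
  obtain ⟨t, ht⟩ := ht
  have hE := eh_ext N b hs hc hi
  have hEc : ∀ x y, eh M b (y * x * y⁻¹) = eh M b x := KF.H25.eh_cl b
  have hcN : (Nat.card N : ℂ) ≠ 0 := by
    exact_mod_cast Nat.card_pos.ne'
  -- the base
  have hbase : ∀ z : X, Sx N (eh M b) z 1 =
      (Nat.card N : ℂ) * ((Tx N (fun t : N => b t) z 1).ncard : ℂ) := by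
    intro z
    have h1 := tw_sum (M := M) (fun t : N => b t) (MulAut.conjNormal z : N ≃* N)
    have h2 : {κ | κ ∈ IrrE M (fun t : N => b t) ∧ ∀ x, κ ((MulAut.conjNormal z : N ≃* N) x) = κ x} =
        Tx N (fun t : N => b t) z 1 := by
      ext κ
      constructor
      · rintro ⟨h3, h4⟩
        refine ⟨h3, h4, fun n => ?_⟩
        rw [map_one, MulAut.one_apply]
      · rintro ⟨h3, h4, -⟩
        exact ⟨h3, h4⟩
    rw [h2] at h1
    rw [← h1]
    unfold Sx
    refine Finset.sum_congr rfl fun n _ => Finset.sum_congr rfl fun n' _ => ?_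
    rw [hE]
    have h3 : z * (n : X) * (1 * (n' : X)) * (z * (n : X))⁻¹ * (1 * (n' : X))⁻¹ =
        ((MulAut.conjNormal z n * MulAut.conjNormal z n' * (MulAut.conjNormal z n)⁻¹ * n'⁻¹ : N) :
          X) := by
      simp only [Subgroup.coe_mul, Subgroup.coe_inv, MulAut.conjNormal_apply]
      group
    rw [h3, H75.ext0_apply]
  -- all pairs
  have hall : ∀ x y : X, Sx N (eh M b) x y =
      (Nat.card N : ℂ) * ((Tx N (fun t : N => b t) x y).ncard : ℂ) := by
    intro x y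
    obtain ⟨i, hi'⟩ := ht x
    obtain ⟨j, hj'⟩ := ht y
    have hx : x = t ^ i * (⟨_, hi'⟩ : N) := by
      change x = t ^ i * ((t ^ i)⁻¹ * x)
      group
    have hy : y = t ^ j * (⟨_, hj'⟩ : N) := by
      change y = t ^ j * ((t ^ j)⁻¹ * y)
      group
    have h1 := euclid (fun x y => Sx N (eh M b) x y -
      (Nat.card N : ℂ) * ((Tx N (fun t : N => b t) x y).ncard : ℂ))
      (fun x y => by rw [sx_left, tx_left]) (fun x y => by rw [sx_right N hEc, tx_right])
      (fun x => by rw [hbase, sub_self]) t (i + j) i j rfl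
    rw [hx, hy, sx_cl, sx_cr, tx_cl, tx_cr]
    exact sub_eq_zero.1 h1
  -- the total
  have htot := sx_tot N (E := eh M b)
  rw [cm_sum] at htot
  have h2 : ∑ x : X, ∑ y : X, Sx N (eh M b) x y = (Nat.card N : ℂ) *
      ∑ x : X, ∑ y : X, ((Tx N (fun t : N => b t) x y).ncard : ℂ) := by
    rw [Finset.mul_sum]
    refine Finset.sum_congr rfl fun x _ => ?_
    rw [Finset.mul_sum]
    exact Finset.sum_congr rfl fun y _ => hall x y
  rw [h2] at htot
  have h3 : (∑ x : X, ∑ y : X, ((Tx N (fun t : N => b t) x y).ncard : ℂ)) =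
      (Nat.card X : ℂ) * Nat.card N * (IrrE M b).ncard := by
    apply mul_left_cancel₀ hcN
    rw [htot]
    ring
  rw [finsum_eq_sum_of_fintype, Fintype.sum_prod_type]
  apply Nat.cast_injective (R := ℂ)
  push_cast
  rw [← h3]
  refine Finset.sum_congr rfl fun x _ => Finset.sum_congr rfl fun y _ => ?_
  rw [← tx_set N (fun t : N => b t) x y]

end Pool.Agent.PP.SE.H65
end
end -- Pool.Agent.Helper65_ASE.F1S
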