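import Pool.Agent.Helper12_AWB.B167
import Pool.Agent.Helper12_AWB.B174
import Pool.Agent.Helper12_AWB.B210

/-!
# Merged copies (generated) of the modules

* `Pool.Agent.Helper13_ASO.PrA`
* `Pool.Agent.Helper13_ASO.PrB`
* `Pool.Agent.Helper92_ASD.PSC`
* `Pool.Agent.Helper13_ASO.HFPR`
-/

set_option autoImplicit false

section -- Pool.Agent.Helper13_ASO.PrA

/-!
# Squad ASO, row HFPR, part 1: the pairs `(u, b)`

Author: helper13.
-/

open scoped BigOperators

noncomputable section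

namespace Pool.Agent.PP.SO.H13

open Pool.Agent.Helper51_AWC Pool.Agent.Helper79_WRA Pool.Agent.PP Pool.Agent.PP.KF
open Pool.Agent.PP.K9 Pool.Agent.PP.K9.H97 Pool.Agent.PP.H75 Pool.Agent.PP.T3

attribute [local instance] Ideal.Quotient.field

/-! ## 1. The sum over the blocks -/

section blk

variable {M : Ideal (integralClosure ℤ ℂ)} [M.IsMaximal]

/-- the blocks under an idempotent, and the sum of their lifts -/
theorem blk_sum {H : Type} [Group H] [Finite H] : ∀ f : H → FF M, IsIdem f →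
    {b : H → FF M | IsBlk b ∧ mulF f b = b}.Finite ∧
    eh M f = ∑ᶠ b ∈ {b : H → FF M | IsBlk b ∧ mulF f b = b}, eh M b := by
  refine H46.idem_induction _ ?_ ?_ ?_
  · have : {b : H → FF M | IsBlk b ∧ mulF 0 b = b} = ∅ := by
      ext b
      constructor
      · rintro ⟨hb, h⟩
        apply hb.2.1
        rw [← h, H75.mulF_zero_left]
      · intro h
        exact absurd h (Set.notMem_empty b)
    rw [this]
    exact ⟨Set.finite_empty, by rw [finsum_mem_empty, H98.eh_zero]⟩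
  · intro b hb
    have : {b' : H → FF M | IsBlk b' ∧ mulF b b' = b'} = {b} := by
      ext b'
      constructor
      · rintro ⟨hb', h⟩
        exact (H17.blk_eq hb hb' (by rw [h]; exact hb'.2.1)).symm
      · intro h
        rw [Set.mem_singleton_iff] at h
        rw [h]
        exact ⟨hb, hb.1.2⟩
    rw [this]
    exact ⟨Set.finite_singleton _, by rw [finsum_mem_singleton]⟩
  · intro f₁ f₂ h1 h2 h12 ih1 ih2
    have h21 : mulF f₂ f₁ = 0 := by rw [H75.mulF_comm_cl h2.1 f₁, h12]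
    have key : ∀ b : H → FF M, mulF (f₁ + f₂) b = mulF f₁ b + mulF f₂ b := by
      intro b
      apply ma_injective
      rw [ma_mul, ma_add, ma_add, ma_mul, ma_mul, add_mul]
    have hset : {b : H → FF M | IsBlk b ∧ mulF (f₁ + f₂) b = b} =
        {b : H → FF M | IsBlk b ∧ mulF f₁ b = b} ∪ {b : H → FF M | IsBlk b ∧ mulF f₂ b = b} := by
      ext b
      constructor
      · rintro ⟨hb, h⟩
        rcases hb.2.2 _ h1 with h3 | h3
        · left
          exact ⟨hb, by rw [H46.mulF_comm h1.1, h3]⟩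
        · right
          refine ⟨hb, ?_⟩
          have h4 : mulF f₁ b = 0 := by rw [H46.mulF_comm h1.1, h3]
          rw [key, h4, zero_add] at h
          exact h
      · rintro (⟨hb, h⟩ | ⟨hb, h⟩)
        · refine ⟨hb, ?_⟩
          have h4 : mulF f₂ b = 0 := by
            rw [← h, ← H20.mulF_assoc, h21, H75.mulF_zero_left]
          rw [key, h, h4, add_zero]
        · refine ⟨hb, ?_⟩
          have h4 : mulF f₁ b = 0 := by
            rw [← h, ← H20.mulF_assoc, h12, H75.mulF_zero_left]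
          rw [key, h, h4, zero_add]
    have hdis : Disjoint {b : H → FF M | IsBlk b ∧ mulF f₁ b = b}
        {b : H → FF M | IsBlk b ∧ mulF f₂ b = b} := by
      rw [Set.disjoint_left]
      rintro b ⟨hb, h⟩ ⟨_, h'⟩
      apply hb.2.1
      rw [← h, ← h', ← H20.mulF_assoc, h12, H75.mulF_zero_left]
    rw [hset]
    refine ⟨ih1.1.union ih2.1, ?_⟩
    rw [finsum_mem_union hdis ih1.1 ih2.1, ← ih1.2, ← ih2.2, H98.eh_add h1 h2 h12]

theorem gbv_sum {G : Type} [Group G] [Finite G] (C : Subgroup G) (w : G) (χ : G → ℂ)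
    {S : Set (C → FF M)} (hS : S.Finite) :
    gbv C w (∑ᶠ b ∈ S, eh M b) χ = ∑ᶠ b ∈ S, gbv C w (eh M b) χ := by
  classical
  have := Fintype.ofFinite C
  rw [finsum_mem_eq_finite_toFinset_sum _ hS, finsum_mem_eq_finite_toFinset_sum _ hS, gbv,
    finsum_eq_sum_of_fintype]
  have h1 : ∀ b : C → FF M, gbv C w (eh M b) χ = ∑ c : C, eh M b c * χ (w * c) := fun b => by
    rw [gbv, finsum_eq_sum_of_fintype]
  simp only [h1]
  rw [Finset.sum_comm]
  refine Finset.sum_congr rfl fun c _ => ?_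
  rw [Finset.sum_apply, Finset.sum_mul]

theorem gbv_one {G : Type} [Group G] [Finite G] (C : Subgroup G) (w : G) (χ : G → ℂ) :
    gbv C w (eh M (dl (FF M) (1 : C))) χ = χ w := by
  classical
  have := Fintype.ofFinite C
  rw [gbv, finsum_eq_sum_of_fintype, H98.eh_one, Finset.sum_eq_single (1 : C)]
  · unfold dl
    rw [if_pos rfl, one_mul, Subgroup.coe_one, mul_one]
  · intro t _ ht
    unfold dl
    rw [if_neg ht, zero_mul]
  · intro h
    exact absurd (Finset.mem_univ _) h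

/-- the centraliser of `1` -/
def eqOne (G : Type) [Group G] : G ≃* Cu (1 : G) where
  toFun g := ⟨g, by rw [Subgroup.mem_centralizer_singleton_iff, mul_one, one_mul]⟩
  invFun c := c
  left_inv _ := rfl
  right_inv _ := rfl
  map_mul' _ _ := rfl

/-- the value at an `ℓ`-element -/
theorem val_eq (smg : T3.SmgStmt) {ℓ : ℕ} [Fact ℓ.Prime] (hM : (ℓ : integralClosure ℤ ℂ) ∈ M)
    {G : Type} [Group G] [Finite G] {e : G → FF M} (he : IsIdem e) {χ : G → ℂ}
    (hχ : χ ∈ IrrE M e) {u : G} (hu : El ℓ u) :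
    χ u = gbv (Cu u) u (eh M (fun t : Cu u => e t)) χ := by
  classical
  by_cases hu1 : u = 1
  · subst hu1
    have := Fintype.ofFinite G
    have h1 : gbv (Cu (1 : G)) 1 (eh M (fun t : Cu (1 : G) => e t)) χ =
        ∑ a : G, eh M e a * χ a := by
      rw [gbv, ← finsum_comp_equiv (eqOne G).toEquiv, finsum_eq_sum_of_fintype]
      refine Finset.sum_congr rfl fun a _ => ?_
      have h2 := H62.eh_equiv (M := M) (eqOne G) he.1 a
      have h3 : eh M (fun t : Cu (1 : G) => e t) ((eqOne G).toEquiv a) = eh M e a := h2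
      rw [h3, one_mul]
      rfl
    have h4 := (KF.H25.eh_om e hχ.1).1 hχ
    unfold H50.om at h4
    rw [h1]
    rw [div_eq_one_iff_eq (irr_one_ne hχ.1)] at h4
    exact h4.symm
  · have hF : GoodF ℓ (FF M) := H50.fld ℓ Fact.out M hM
    have heC : IsIdem (fun t : Cu u => e t) := H98.idem_cu hF he hu
    obtain ⟨h1, h2⟩ := H46.isIdem_sub (H46.isIdem_one (F := FF M) (H := Cu u)) heC
      (H46.one_mulF _)
    have h3 := H98.eh_add (M := M) heC h1 h2
    have h4 : (fun t : Cu u => e t) + (dl (FF M) (1 : Cu u) - fun t : Cu u => e t) =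
        dl (FF M) (1 : Cu u) := by
      rw [add_sub_cancel]
    rw [h4] at h3
    have h5 := gbv_one (M := M) (Cu u) u χ
    rw [h3] at h5
    have := Fintype.ofFinite (Cu u)
    have h6 : gbv (Cu u) u (eh M (fun t : Cu u => e t) +
        eh M (dl (FF M) (1 : Cu u) - fun t : Cu u => e t)) χ =
        gbv (Cu u) u (eh M (fun t : Cu u => e t)) χ +
        gbv (Cu u) u (eh M (dl (FF M) (1 : Cu u) - fun t : Cu u => e t)) χ := by
      rw [gbv, gbv, gbv, finsum_eq_sum_of_fintype, finsum_eq_sum_of_fintype,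
        finsum_eq_sum_of_fintype, ← Finset.sum_add_distrib]
      refine Finset.sum_congr rfl fun c _ => ?_
      rw [Pi.add_apply, add_mul]
    have h7 := (smg ℓ M hM G u 1 hu1 hu (one_mem _) (by
      unfold Reg
      rw [orderOf_one]
      exact Nat.coprime_one_left ℓ) (dl (FF M) (1 : Cu u) - fun t : Cu u => e t) h1 e he).2 h2 χ hχ
    rw [mul_one] at h7
    rw [h6, h7, add_zero] at h5
    exact h5.symm

end blk

/-! ## 2. The pairs `(u, b)` -/

section pairs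

variable {F G : Type} [Field F] [Group G] [Finite G]

/-- the pairs of an `ℓ`-element and a block of its centraliser under `e` -/
def Om (ℓ : ℕ) (e : G → F) : Set (G × (G → F)) :=
  {p | El ℓ p.1 ∧ Bx (Cu p.1) p.2 ∧
    mulF (fun t : Cu p.1 => e t) (fun t : Cu p.1 => p.2 t) = fun t : Cu p.1 => p.2 t}

open Classical in
/-- the restriction to a subgroup -/
def rs (X : Subgroup G) (e : G → F) : G → F := fun x => if x ∈ X then e x else 0

omit [Finite G] in
theorem rs_supp (X : Subgroup G) (e : G → F) : ∀ x, x ∉ X → rs X e x = 0 := fun _ hx => if_neg hx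

omit [Finite G] in
theorem rs_res (X : Subgroup G) (e : G → F) : (fun t : X => rs X e t) = fun t : X => e t :=
  funext fun t => if_pos t.2

theorem und_iff {X : Subgroup G} {e b : G → F} (hb : ∀ x, x ∉ X → b x = 0) :
    (mulF (fun t : X => e t) (fun t : X => b t) = fun t : X => b t) ↔ mulF (rs X e) b = b := by
  rw [← rs_res X e, ← mulF_res X b (rs_supp X e)]
  constructor
  · intro h
    exact eq_of_res (mulF_supp X (rs_supp X e) hb) hb h
  · intro h
    rw [h]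

omit [Finite G] in
theorem mem_Cu_conj {u g : G} (x : G) : x ∈ Cu (g * u * g⁻¹) ↔ g⁻¹ * x * g ∈ Cu u := by
  rw [Subgroup.mem_centralizer_singleton_iff, Subgroup.mem_centralizer_singleton_iff]
  constructor
  · intro h
    have h1 : g⁻¹ * (x * (g * u * g⁻¹)) * g = g⁻¹ * (g * u * g⁻¹ * x) * g := by rw [h]
    have e1 : g⁻¹ * (x * (g * u * g⁻¹)) * g = g⁻¹ * x * g * u := by group
    have e2 : g⁻¹ * (g * u * g⁻¹ * x) * g = u * (g⁻¹ * x * g) := by group
    rw [e1, e2] at h1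
    exact h1
  · intro h
    have h1 : g * (g⁻¹ * x * g * u) * g⁻¹ = g * (u * (g⁻¹ * x * g)) * g⁻¹ := by rw [h]
    have e1 : g * (g⁻¹ * x * g * u) * g⁻¹ = x * (g * u * g⁻¹) := by group
    have e2 : g * (u * (g⁻¹ * x * g)) * g⁻¹ = g * u * g⁻¹ * x := by group
    rw [e1, e2] at h1
    exact h1

theorem und_conj {e : G → F} (he : IsCl e) {u g : G} {b : G → F} (hb : Bx (Cu u) b)
    (h : mulF (fun t : Cu u => e t) (fun t : Cu u => b t) = fun t : Cu u => b t) :
    Bx (Cu (g * u * g⁻¹)) (cj g b) ∧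
    mulF (fun t : Cu (g * u * g⁻¹) => e t) (fun t : Cu (g * u * g⁻¹) => cj g b t) =
      fun t : Cu (g * u * g⁻¹) => cj g b t := by
  have h1 : Bx (Cu (g * u * g⁻¹)) (cj g b) := H62.bx_cj mem_Cu_conj hb
  refine ⟨h1, ?_⟩
  rw [und_iff h1.supp]
  rw [und_iff hb.supp] at h
  have h2 : rs (Cu (g * u * g⁻¹)) e = cj g (rs (Cu u) e) := by
    classical
    funext x
    show (if x ∈ Cu (g * u * g⁻¹) then e x else 0) =
      if g⁻¹ * x * g ∈ Cu u then e (g⁻¹ * x * g) else 0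
    by_cases hx : x ∈ Cu (g * u * g⁻¹)
    · rw [if_pos hx, if_pos ((mem_Cu_conj x).1 hx)]
      have := he x g⁻¹
      rw [inv_inv] at this
      exact this.symm
    · rw [if_neg hx, if_neg fun h' => hx ((mem_Cu_conj x).2 h')]
  rw [h2, ← cj_mulF, h]

omit [Finite G] in
theorem el_conj {ℓ : ℕ} {u : G} (h : El ℓ u) (g : G) : El ℓ (g * u * g⁻¹) := by
  obtain ⟨n, hn⟩ := h
  refine ⟨n, ?_⟩
  rw [conj_pow, hn, mul_one, mul_inv_cancel]

theorem om_conj {ℓ : ℕ} {e : G → F} (he : IsCl e) {u : G} {b : G → F} (h : (u, b) ∈ Om ℓ e)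
    (g : G) : (g * u * g⁻¹, cj g b) ∈ Om ℓ e :=
  ⟨el_conj h.1 g, und_conj he h.2.1 h.2.2⟩

omit [Finite G] in
theorem br_cj' (g : G) (V : Subgroup G) (b : G → F) :
    br (conjS g V) (cj g b) = cj g (br V b) := by
  classical
  funext x
  change _ = br V b (g⁻¹ * x * g)
  unfold br
  by_cases h : x ∈ Subgroup.centralizer (conjS g V : Set G)
  · rw [if_pos h, if_pos ((H62.mem_cent_conjS x).1 h)]
    rfl
  · rw [if_neg h, if_neg (fun h' => h ((H62.mem_cent_conjS x).2 h'))]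

theorem lc_conj {e : G → F} (he : IsCl e) {V : Subgroup G} {γ : G → F} {u : G} {b : G → F}
    (h : Lc e V γ u b) (g : G) : Lc e (conjS g V) (cj g γ) (g * u * g⁻¹) (cj g b) := by
  obtain ⟨h1, h2⟩ := und_conj he (g := g) h.blk h.und
  refine ⟨h1, h2, ?_⟩
  rw [br_cj', ← cj_mulF, h.gam]

end pairs

end Pool.Agent.PP.SO.H13
end
end -- Pool.Agent.Helper13_ASO.PrA

section -- Pool.Agent.Helper13_ASO.PrB

/-!
# Squad ASO, row HFPR, part 2: every pair is conjugate to a standard one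

Author: helper13.
-/

open scoped BigOperators

noncomputable section

namespace Pool.Agent.PP.SO.H13

open Pool.Agent.Helper51_AWC Pool.Agent.Helper79_WRA Pool.Agent.PP Pool.Agent.PP.KF
open Pool.Agent.PP.K9 Pool.Agent.PP.K9.H97 Pool.Agent.PP.H75 Pool.Agent.PP.T3

attribute [local instance] Ideal.Quotient.field

section norm

variable {G : Type} [Group G]

theorem norm_cent (V : Subgroup G) : Subgroup.normalizer (V : Set G) ≤
    Subgroup.normalizer ((Subgroup.centralizer (V : Set G) : Subgroup G) : Set G) := by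
  intro n hn
  have key : ∀ m : G, m ∈ Subgroup.normalizer (V : Set G) → ∀ c,
      c ∈ Subgroup.centralizer (V : Set G) → m * c * m⁻¹ ∈ Subgroup.centralizer (V : Set G) := by
    intro m hm c hc
    rw [Subgroup.mem_centralizer_iff]
    intro v hv
    have h1 : m⁻¹ * v * m ∈ V := by
      have := (Subgroup.mem_normalizer_iff.1 (Subgroup.inv_mem _ hm) v).1 hv
      rwa [inv_inv] at this
    have h2 := Subgroup.mem_centralizer_iff.1 hc _ h1
    have h3 : m * (m⁻¹ * v * m * c) * m⁻¹ = m * (c * (m⁻¹ * v * m)) * m⁻¹ := by rw [h2]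
    have h4 : m * (m⁻¹ * v * m * c) * m⁻¹ = v * (m * c * m⁻¹) := by group
    have h5 : m * (c * (m⁻¹ * v * m)) * m⁻¹ = m * c * m⁻¹ * v := by group
    rw [h4, h5] at h3
    exact h3
  rw [Subgroup.mem_normalizer_iff]
  intro c
  refine ⟨key n hn c, fun hc => ?_⟩
  have h1 := key n⁻¹ (Subgroup.inv_mem _ hn) _ hc
  have h2 : n⁻¹ * (n * c * n⁻¹) * n⁻¹⁻¹ = c := by group
  rwa [h2] at h1

theorem conjS_conjS (g h : G) (V : Subgroup G) : conjS g (conjS h V) = conjS (g * h) V := by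
  ext x
  rw [H62.mem_conjS, H62.mem_conjS, H62.mem_conjS]
  have : h⁻¹ * (g⁻¹ * x * g) * h = (g * h)⁻¹ * x * (g * h) := by group
  rw [this]

end norm

/-- Every pair under `e` is conjugate to a pair of an element of `V` and a block under `γ`. -/
theorem pair_conj (dug : T3.DugStmt) {ℓ : ℕ} [hfact : Fact ℓ.Prime]
    {M : Ideal (integralClosure ℤ ℂ)} [M.IsMaximal] (hM : (ℓ : integralClosure ℤ ℂ) ∈ M)
    {G : Type} [Group G] [Finite G] {e : G → FF M} {V : Subgroup G} {γ : G → FF M}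
    (hL : Ld ℓ e V γ) {y : G} (hyl : El ℓ y) {b : G → FF M} (hb : Bx (Cu y) b)
    (heb : mulF (fun t : Cu y => e t) (fun t : Cu y => b t) = (fun t : Cu y => b t)) :
    ∃ z : G, z⁻¹ * y * z ∈ V ∧ Lc e V γ (z⁻¹ * y * z) (cj z⁻¹ b) := by
  have hF : GoodF ℓ (FF M) := H50.fld ℓ hfact.out M hM
  have hC : Subgroup.centralizer ((Subgroup.zpowers y : Subgroup G) : Set G) = Cu y := by
    ext x
    rw [Subgroup.mem_centralizer_iff, Subgroup.mem_centralizer_singleton_iff]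
    constructor
    · intro h
      exact (h y (Subgroup.mem_zpowers y)).symm
    · intro h z hz
      obtain ⟨k, rfl⟩ := Subgroup.mem_zpowers_iff.1 hz
      exact ((show Commute x y from h).zpow_right k).eq.symm
  have hQ : IsPGroup ℓ (Subgroup.zpowers y) := by
    obtain ⟨n, hn⟩ := hyl
    rintro ⟨z, hz⟩
    obtain ⟨k, rfl⟩ := Subgroup.mem_zpowers_iff.1 hz
    refine ⟨n, Subtype.ext ?_⟩
    show (y ^ k) ^ ℓ ^ n = 1
    rw [← zpow_natCast, ← zpow_mul, mul_comm, zpow_mul, zpow_natCast, hn, one_zpow]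
  obtain ⟨P, hQP, hPC, hP, hPV, hgP⟩ := dug ℓ M hM G e hL.blk V hL.tp hL.ab (Subgroup.zpowers y) hQ
    b (by rw [hC]; exact hb) (by rw [hC]; exact heb)
  have hyP : y ∈ P := hQP (Subgroup.mem_zpowers y)
  rw [hC] at hPC
  have hbQ : Bx (Subgroup.centralizer ((Subgroup.zpowers y : Subgroup G) : Set G)) b := by
    rw [hC]
    exact hb
  have hunQ : mulF (br (Subgroup.zpowers y) e) b = b :=
    T3.H3.under_iff hbQ (by rw [hC]; exact heb)
  -- `P` is good for `e`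
  have hCC : Subgroup.centralizer (P : Set G) ≤ Cu y := by
    rw [← hC]
    exact Subgroup.centralizer_le (show ((Subgroup.zpowers y : Subgroup G) : Set G) ⊆ P from hQP)
  have hinvP : H66.Inv P b := fun p hp t => C2.H3.ix_inv hb.ix (hPC hp) t
  have hIb : Ix (Subgroup.centralizer (P : Set G)) (br P b) :=
    C2.H3.ix_br hF hP (fun z hz x => C2.H3.ix_inv hb.ix (hCC hz) x) hinvP hb.mul
  have hIQ : Ix (Subgroup.centralizer ((Subgroup.zpowers y : Subgroup G) : Set G))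
      (br (Subgroup.zpowers y) e) :=
    C2.H3.ix_br hF hQ (fun z _ x => hL.blk.1.1 x z) (H66.IsCl.inv hL.blk.1.1 _) hL.blk.1.2
  have hinvQ : H66.Inv P (br (Subgroup.zpowers y) e) := fun p hp t =>
    C2.H3.ix_inv hIQ (by rw [hC]; exact hPC hp) t
  have hPe : mulF (br P e) (br P b) = br P b := by
    have h1 := congrArg (br P) hunQ
    rwa [H66.br_mulF hF hP hinvQ hinvP, C2.H3.br_br hQP] at h1
  have hbrb : br P b ≠ 0 := C2.H3.br_ne_of_gd hgP
  have hGe : Gd e P := by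
    apply C2.H3.gd_of_br'
    intro h0
    apply hbrb
    rw [← hPe, h0, H75.mulF_zero_left]
  -- the conjugate
  obtain ⟨hfm, ⟨hNb, _⟩, _⟩ := K9.H69.fmg ℓ M hM G e hL.blk V hL.tp
  obtain ⟨k, hk⟩ := hfm P hP hGe
  have hPk : P = conjS k V := by
    refine Subgroup.eq_of_le_of_card_ge hk ?_
    rw [H62.card_conjS', hPV]
  obtain ⟨hL1, -⟩ := H62.lcj ℓ (FF M) hF G e V γ hL k
  rw [← hPk] at hL1
  -- the block of `C(P)`
  obtain ⟨γ₀, hγ₀, hgγ, -⟩ := K9.H24.exists_blk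
    (L := fun a : Subgroup.centralizer (P : Set G) → FF M => a) rfl
    (fun a b => rfl) hIb.idem (by
      intro h
      apply hbrb
      exact H75.eq_of_res hIb.supp (fun _ _ => rfl) h)
  obtain ⟨γ₁, hγ₁⟩ : ∃ γ₁ : G → FF M,
      γ₁ = H75.ext0 (Subgroup.centralizer (P : Set G)) γ₀ := ⟨_, rfl⟩
  have hγs : ∀ x, x ∉ Subgroup.centralizer (P : Set G) → γ₁ x = 0 := by
    rw [hγ₁]
    exact H75.ext0_supp _ γ₀
  have hγC : (fun t : Subgroup.centralizer (P : Set G) => γ₁ t) = γ₀ := by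
    rw [hγ₁]
    exact funext (H75.ext0_apply _ γ₀)
  have hBγ : Bx (Subgroup.centralizer (P : Set G)) γ₁ := ⟨hγs, by rw [hγC]; exact hγ₀⟩
  have hbγ : mulF (br P b) γ₁ = γ₁ := by
    apply H75.eq_of_res (H75.mulF_supp _ hIb.supp hγs) hγs
    rw [H75.mulF_res _ γ₁ hIb.supp, hγC, hgγ]
  have heγ : mulF (br P e) γ₁ = γ₁ := by
    rw [← hbγ, ← H20.mulF_assoc, hPe]
  have hLc : Lc e P γ₁ y b := ⟨hb, heb, hbγ⟩
  -- the blocks of `C(P)` under `e` are conjugate in `N(P)`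
  obtain ⟨-, ⟨hNb1, _⟩, _⟩ := K9.H69.fmg ℓ M hM G e hL.blk P hL1.tp
  have hXN : Subgroup.centralizer (P : Set G) ≤ Subgroup.normalizer (P : Set G) :=
    Subgroup.centralizer_le_normalizer _
  obtain ⟨n, hn, hγn⟩ := orb_main hXN (norm_cent P) (f := br P e)
    ⟨fun x hx => H66.br_of_not_mem fun h2 => hx (hXN h2), hNb1⟩ hL1.gam hBγ hL1.und heγ
  have hconj : conjS n P = P := mem_normalizer_iff_conjS.1 hn
  obtain ⟨z, hz⟩ : ∃ z, z = n * k := ⟨_, rfl⟩
  have hPz : P = conjS z V := by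
    rw [hz, ← conjS_conjS, ← hPk, hconj]
  have hγz : γ₁ = cj z γ := by
    rw [hγn, hz, ← cj_cj]
  have h1 := lc_conj hL.blk.1.1 hLc z⁻¹
  rw [inv_inv] at h1
  have h2 : conjS z⁻¹ P = V := by
    rw [hPz, conjS_conjS, inv_mul_cancel]
    ext x
    rw [H62.mem_conjS, inv_one, one_mul, mul_one]
  rw [h2, hγz, cj_inv_cj] at h1
  refine ⟨z, ?_, h1⟩
  rw [hPz, H62.mem_conjS] at hyP
  exact hyP

end Pool.Agent.PP.SO.H13
end
end -- Pool.Agent.Helper13_ASO.PrB

section -- Pool.Agent.Helper92_ASD.PSC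

/-! Squad ASD, row PSC: the sections of the local blocks. -/

open scoped BigOperators

noncomputable section

namespace Pool.Agent.PP.SD.H92

open Pool.Agent.Helper51_AWC Pool.Agent.Helper79_WRA Pool.Agent.PP Pool.Agent.PP.KF
open Pool.Agent.PP.K9 Pool.Agent.PP.K9.H97 Pool.Agent.PP.H75 Pool.Agent.PP.T3
open Pool.Agent.PP.SO Pool.Agent.PP.SD Pool.Agent.PP.T3.H88

attribute [local instance] Ideal.Quotient.field

section tools

variable {F G : Type} [Field F] [Group G]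

/-- uniqueness of the block over `g` -/
theorem uniq [Finite G] {ℓ : ℕ} [Fact ℓ.Prime] (hF : GoodF ℓ F) {g : G → F} {V H : Subgroup G}
    (hV : IsPGroup ℓ V) (hVC : V ≤ H) (hg : g ≠ 0) {b b' : G → F} (hb : Bx H b) (hb' : Bx H b')
    (h1 : mulF (br V b) g = g) (h2 : mulF (br V b') g = g) : b = b' := by
  rcases hb.dich hb' with h | h
  · exact h
  · exfalso
    apply hg
    have h3 := SO.H89.br_mul' hF hV hVC hb.ix hb'.ix
    rw [h, br_zero] at h3
    calc g = mulF (br V b) (mulF (br V b') g) := by rw [h2, h1]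
      _ = mulF (mulF (br V b) (br V b')) g := (mulF_assoc _ _ _).symm
      _ = 0 := by rw [← h3, mulF_zero_left]

/-- the centraliser of `z ∈ X` in `X` -/
def cuE {X : Subgroup G} (z : X) : Cu z ≃* (X ⊓ Cu (z : G) : Subgroup G) where
  toFun t := ⟨((t : X) : G), t.1.2, Subgroup.mem_centralizer_singleton_iff.2
    (congrArg Subtype.val (Subgroup.mem_centralizer_singleton_iff.1 t.2))⟩
  invFun t := ⟨⟨(t : G), t.2.1⟩, Subgroup.mem_centralizer_singleton_iff.2
    (Subtype.ext (Subgroup.mem_centralizer_singleton_iff.1 t.2.2))⟩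
  left_inv _ := rfl
  right_inv _ := rfl
  map_mul' _ _ := rfl

end tools

/-- PSC -/
theorem psc : PscStmt := by
  intro ℓ _ M _ hM _ V₀ G _ _ _ _ E₀ hFq B hB W z hz hzl β hβ hund
  have hF : GoodF ℓ (FF M) := H50.fld ℓ Fact.out M hM
  have hL := hB.ld
  have hVX : B.i.range ≤ B.C W := by
    rintro _ ⟨v, rfl⟩
    refine Subgroup.mem_centralizer_iff.2 ?_
    rintro _ ⟨w, _, rfl⟩
    rw [← map_mul, ← map_mul, mul_comm]
  have hCX : Subgroup.centralizer (B.i.range : Set G) ≤ B.C W := by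
    refine Subgroup.centralizer_le ?_
    rintro _ ⟨w, _, rfl⟩
    exact ⟨w, rfl⟩
  obtain ⟨hL', -, -⟩ := SD.H25.lbd ℓ M hM V₀ G E₀ hFq B hB W
  have hyl : El ℓ (⟨z, hz⟩ : B.C W) := by
    obtain ⟨n, hn⟩ := hzl
    exact ⟨n, Subtype.ext hn⟩
  have hb : Bx (Cu (⟨z, hz⟩ : B.C W)) (fun t : B.C W => β t) := by
    refine ⟨?_, H20.IsBlk_equiv (cuE (⟨z, hz⟩ : B.C W)) hβ.blk⟩
    intro x hx
    apply hβ.supp
    intro h
    apply hx
    rw [Subgroup.mem_centralizer_singleton_iff]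
    exact Subtype.ext (Subgroup.mem_centralizer_singleton_iff.1 h.2)
  have heb : mulF (fun t : Cu (⟨z, hz⟩ : B.C W) => B.b W t) (fun t : Cu (⟨z, hz⟩ : B.C W) => β t) =
      fun t : Cu (⟨z, hz⟩ : B.C W) => β t := by
    have h1 := H20.mulF_equiv (cuE (⟨z, hz⟩ : B.C W))
      (fun t : (B.C W ⊓ Cu z : Subgroup G) => B.b W t)
      (fun t : (B.C W ⊓ Cu z : Subgroup G) => β t)
    rw [hund] at h1
    exact h1
  obtain ⟨z', hz'V, hz'L⟩ := SO.H13.pair_conj T3.H3.dug hM hL' hyl hb heb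
  obtain ⟨v, hv⟩ := hz'V
  have hv' : B.i v = (z' : G)⁻¹ * z * z' := hv
  have hzz : z = (z' : G) * B.i v * (z' : G)⁻¹ := by
    rw [hv']
    group
  refine ⟨z', z'.2, v, hzz, ?_⟩
  -- the local block
  obtain ⟨b', hb'⟩ : ∃ b', b' = cj (z' : G)⁻¹ β := ⟨_, rfl⟩
  have hlb := hB.lb (W ⊔ Subgroup.zpowers v)
  have hmem : ∀ x, x ∈ Subgroup.centralizer (((W ⊔ Subgroup.zpowers v).map B.i : Subgroup G) :
      Set G) ↔ (z' : G)⁻¹⁻¹ * x * (z' : G)⁻¹ ∈ B.C W ⊓ Cu z := by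
    intro x
    have h1 : x ∈ Subgroup.centralizer (((W ⊔ Subgroup.zpowers v).map B.i : Subgroup G) :
        Set G) ↔ x ∈ B.C W ∧ x ∈ Cu (B.i v) := by
      constructor
      · intro h
        rw [Subgroup.mem_centralizer_iff] at h
        constructor
        · refine Subgroup.mem_centralizer_iff.2 ?_
          rintro _ ⟨w, hw, rfl⟩
          exact h _ ⟨w, Subgroup.mem_sup_left hw, rfl⟩
        · rw [Subgroup.mem_centralizer_singleton_iff]
          exact (h _ ⟨v, Subgroup.mem_sup_right (Subgroup.mem_zpowers v), rfl⟩).symm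
      · rintro ⟨h1, h2⟩
        have h3 : W ⊔ Subgroup.zpowers v ≤ (Cu x).comap B.i := by
          rw [sup_le_iff]
          constructor
          · intro w hw
            rw [Subgroup.mem_comap, Subgroup.mem_centralizer_singleton_iff]
            exact Subgroup.mem_centralizer_iff.1 h1 _ ⟨w, hw, rfl⟩
          · rw [Subgroup.zpowers_le, Subgroup.mem_comap, Subgroup.mem_centralizer_singleton_iff]
            exact (Subgroup.mem_centralizer_singleton_iff.1 h2).symm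
        refine Subgroup.mem_centralizer_iff.2 ?_
        rintro _ ⟨w, hw, rfl⟩
        exact Subgroup.mem_centralizer_singleton_iff.1 (Subgroup.mem_comap.1 (h3 hw))
    rw [h1, inv_inv, Subgroup.mem_inf]
    have h2 : (z' : G) * x * (z' : G)⁻¹ ∈ B.C W ↔ x ∈ B.C W := by
      constructor
      · intro h
        have h3 := (B.C W).mul_mem ((B.C W).mul_mem ((B.C W).inv_mem z'.2) h) z'.2
        have e : (z' : G)⁻¹ * ((z' : G) * x * (z' : G)⁻¹) * z' = x := by group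
        rwa [e] at h3
      · intro h
        exact (B.C W).mul_mem ((B.C W).mul_mem z'.2 h) ((B.C W).inv_mem z'.2)
    have h3 : (z' : G) * x * (z' : G)⁻¹ ∈ Cu z ↔ x ∈ Cu (B.i v) := by
      rw [hzz, SO.H13.mem_Cu_conj]
      have e : (z' : G)⁻¹ * ((z' : G) * x * (z' : G)⁻¹) * z' = x := by group
      rw [e]
    rw [h2, h3]
  have hbx : Bx (Subgroup.centralizer (((W ⊔ Subgroup.zpowers v).map B.i : Subgroup G) :
      Set G)) b' := by
    rw [hb']
    exact H62.bx_cj hmem hβ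
  have hVle : B.i.range ≤ Subgroup.centralizer
      (((W ⊔ Subgroup.zpowers v).map B.i : Subgroup G) : Set G) := by
    rintro _ ⟨w, rfl⟩
    refine Subgroup.mem_centralizer_iff.2 ?_
    rintro _ ⟨w', _, rfl⟩
    rw [← map_mul, ← map_mul, mul_comm]
  have hgam : mulF (br B.i.range b') B.g = B.g := by
    have h0 := hz'L.gam
    have h1 : br (B.i.range.subgroupOf (B.C W)) (cj z'⁻¹ (fun t : B.C W => β t)) =
        fun t : B.C W => br B.i.range b' t := by
      funext t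
      by_cases ht : (t : G) ∈ Subgroup.centralizer (B.i.range : Set G)
      · rw [H66.br_of_mem ht, H66.br_of_mem ((cent_sub hVX t).2 ht), hb']
        rfl
      · rw [H66.br_of_not_mem ht, H66.br_of_not_mem (fun h => ht ((cent_sub hVX t).1 h))]
    rw [h1, ← mulF_res (B.C W) B.g (fun x hx => H66.br_of_not_mem (fun h => hx (hCX h)))] at h0
    exact eq_of_res (mulF_supp (B.C W) (fun x hx => H66.br_of_not_mem (fun h => hx (hCX h)))
      (fun x hx => hL.gam.supp x (fun h => hx (hCX h)))) (fun x hx => hL.gam.supp x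
        (fun h => hx (hCX h))) h0
  have hfin : b' = B.b (W ⊔ Subgroup.zpowers v) :=
    uniq hF hL.tp.pg hVle hL.gam.ne hbx hlb.blk hgam hlb.gam
  rw [← hfin, hb']
  exact (cj_cj_inv _ _).symm

end Pool.Agent.PP.SD.H92
end
end -- Pool.Agent.Helper92_ASD.PSC

section -- Pool.Agent.Helper13_ASO.HFPR

/-!
# Squad ASO, row HFPR: the sum over the `ℓ`-elements

Author: helper13.
-/

open scoped BigOperators

set_option linter.unusedSectionVars false

noncomputable section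

namespace Pool.Agent.PP.SO.H13

open Pool.Agent.Helper51_AWC Pool.Agent.Helper79_WRA Pool.Agent.PP Pool.Agent.PP.KF
open Pool.Agent.PP.K9 Pool.Agent.PP.K9.H97 Pool.Agent.PP.H75 Pool.Agent.PP.T3

attribute [local instance] Ideal.Quotient.field

/-! ## 1. Orbits -/

section orb

variable {V₀ : Type} [CommGroup V₀]

/-- the orbit -/
def Ob (E₀ : Subgroup (MulAut V₀)) (c : V₀) : Set V₀ := {c' | ∃ σ ∈ E₀, σ c = c'}

theorem ob_card [Finite V₀] (E₀ : Subgroup (MulAut V₀)) (c : V₀) :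
    (Ob E₀ c).ncard * Nat.card (Es E₀ c) = Nat.card E₀ := by
  have h1 := Subgroup.card_mul_index (MulAction.stabilizer E₀ c)
  rw [MulAction.index_stabilizer] at h1
  have h2 : MulAction.orbit E₀ c = Ob E₀ c := by
    ext x
    rw [MulAction.mem_orbit_iff]
    constructor
    · rintro ⟨σ, hσ⟩
      exact ⟨σ, σ.2, hσ⟩
    · rintro ⟨σ, hσ, h⟩
      exact ⟨⟨σ, hσ⟩, h⟩
  have h3 : Nat.card (MulAction.stabilizer E₀ c) = Nat.card (Es E₀ c) := by
    refine Nat.card_congr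
      { toFun := fun σ => ⟨σ.1.1, σ.1.2, σ.2⟩
        invFun := fun σ => ⟨⟨σ.1, σ.2.1⟩, σ.2.2⟩
        left_inv := fun _ => rfl
        right_inv := fun _ => rfl }
  rw [h2, h3, mul_comm] at h1
  exact h1

theorem ob_self (E₀ : Subgroup (MulAut V₀)) (c : V₀) : c ∈ Ob E₀ c := ⟨1, E₀.one_mem, rfl⟩

theorem ob_symm {E₀ : Subgroup (MulAut V₀)} {c c' : V₀} (h : c' ∈ Ob E₀ c) : c ∈ Ob E₀ c' := by
  obtain ⟨σ, hσ, h⟩ := h
  refine ⟨σ⁻¹, E₀.inv_mem hσ, ?_⟩
  rw [← h]
  exact σ.symm_apply_apply c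

theorem ob_trans {E₀ : Subgroup (MulAut V₀)} {c c' c'' : V₀} (h : c' ∈ Ob E₀ c)
    (h' : c'' ∈ Ob E₀ c') : c'' ∈ Ob E₀ c := by
  obtain ⟨σ, hσ, h⟩ := h
  obtain ⟨τ, hτ, h'⟩ := h'
  refine ⟨τ * σ, E₀.mul_mem hτ hσ, ?_⟩
  rw [← h', ← h]
  rfl

theorem ob_eq {E₀ : Subgroup (MulAut V₀)} {c c' : V₀} (h : c' ∈ Ob E₀ c) : Ob E₀ c' = Ob E₀ c := by
  ext x
  exact ⟨fun hx => ob_trans h hx, fun hx => ob_trans (ob_symm h) hx⟩

open Classical in
/-- the weighted sum over an orbit -/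
theorem ob_sum [Fintype V₀] (E₀ : Subgroup (MulAut V₀)) (n : V₀ → ℕ)
    (hn : ∀ c, n c = (Ob E₀ c).ncard) (c₀ : V₀) :
    ∑ c : V₀, (if c₀ ∈ Ob E₀ c then ((n c : ℕ) : ℂ)⁻¹ else 0) = 1 := by
  have h1 : ∀ c : V₀, (if c₀ ∈ Ob E₀ c then ((n c : ℕ) : ℂ)⁻¹ else 0) =
      if c ∈ Ob E₀ c₀ then (((Ob E₀ c₀).ncard : ℕ) : ℂ)⁻¹ else 0 := by
    intro c
    by_cases h : c₀ ∈ Ob E₀ c
    · rw [if_pos h, if_pos (ob_symm h), hn, ob_eq h]
    · rw [if_neg h, if_neg fun h' => h (ob_symm h')]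
  rw [Finset.sum_congr rfl fun c _ => h1 c, ← Finset.sum_filter, Finset.sum_const, nsmul_eq_mul]
  have h2 : (Finset.univ.filter fun c => c ∈ Ob E₀ c₀).card = (Ob E₀ c₀).ncard := by
    rw [← Set.ncard_coe_finset]
    congr 1
    ext x
    simp
  rw [h2]
  refine mul_inv_cancel₀ ?_
  have h3 : 0 < (Ob E₀ c₀).ncard := by
    rw [Set.ncard_pos (Set.toFinite _)]
    exact ⟨c₀, ob_self E₀ c₀⟩
  exact_mod_cast h3.ne'

end orb

/-! ## 2. The value of `gv` on conjugate pairs -/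

theorem gv_conj {M : Ideal (integralClosure ℤ ℂ)} [M.IsMaximal] {G : Type} [Group G] [Finite G]
    {u : G} {b : G → FF M} (hb : IsCl (fun t : Cu u => b t)) {χ : G → ℂ} (hχ : χ ∈ Irr G) (z : G) :
    gv M (Cu (z * u * z⁻¹)) (z * u * z⁻¹) (cj z b) χ = gv M (Cu u) u b χ := by
  unfold gv gbv
  rw [← finsum_comp_equiv (H62.cjE (u := z * u * z⁻¹) (u' := u) (x := z) rfl).toEquiv]
  refine finsum_congr fun c => ?_
  have h1 := H62.eh_equiv (M := M) (H62.cjE (u := z * u * z⁻¹) (u' := u) (x := z) rfl) hb c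
  have h2 : eh M (fun t : Cu (z * u * z⁻¹) => cj z b t)
      ((H62.cjE (u := z * u * z⁻¹) (u' := u) (x := z) rfl).toEquiv c) =
      eh M (fun t : Cu u => b t) c := h1
  rw [h2]
  congr 1
  have h3 : (((H62.cjE (u := z * u * z⁻¹) (u' := u) (x := z) rfl).toEquiv c : Cu (z * u * z⁻¹)) : G)
      = z * c * z⁻¹ := rfl
  rw [h3]
  have h4 : z * u * z⁻¹ * (z * (c : G) * z⁻¹) = z * (u * c) * z⁻¹ := by group
  rw [h4, irr_conj hχ]

/-! ## 3. The local pairs -/

section main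

variable {ℓ : ℕ} [hfact : Fact ℓ.Prime] {M : Ideal (integralClosure ℤ ℂ)} [M.IsMaximal]
  {V₀ : Type} [CommGroup V₀] [Finite V₀] {E₀ : Subgroup (MulAut V₀)} {G : Type} [Group G]
  [Finite G] {B : Bk (FF M) V₀ G}

theorem st_one (loc : T3.LocStmt) (hM : (ℓ : integralClosure ℤ ℂ) ∈ M) (hB : Sb ℓ M E₀ B)
    (hLc : ∀ c : V₀, Lc B.e B.i.range B.g (B.i c) (B.b (Subgroup.zpowers c))) {c c₀ : V₀}
    (h : c₀ ∈ Ob E₀ c) : ∃ t : G, t * B.i c * t⁻¹ = B.i c₀ ∧
      cj t (B.b (Subgroup.zpowers c)) = B.b (Subgroup.zpowers c₀) := by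
  obtain ⟨σ, hσ, h⟩ := h
  have hF : GoodF ℓ (FF M) := H50.fld ℓ hfact.out M hM
  obtain ⟨t, ht, ht2⟩ := hB.sur σ hσ
  have h1 := lc_conj hB.ld.blk.1.1 (hLc c) t
  obtain ⟨hn, hs⟩ := Subgroup.mem_inf.1 ht
  have h2 : conjS t B.i.range = B.i.range := mem_normalizer_iff_conjS.1 hn
  have h3 : cj t B.g = B.g := (cj_eq_iff _ _).2 hs
  rw [h2, h3, ht2 c, h] at h1
  refine ⟨t, by rw [ht2 c, h], ?_⟩
  exact (loc ℓ (FF M) hF G B.e B.i.range B.g hB.ld (B.i c₀) ⟨c₀, rfl⟩).2 _ _ h1 (hLc c₀)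

theorem st_two (fus : T3.FusStmt) (hM : (ℓ : integralClosure ℤ ℂ) ∈ M) (hB : Sb ℓ M E₀ B)
    (hLc : ∀ c : V₀, Lc B.e B.i.range B.g (B.i c) (B.b (Subgroup.zpowers c))) {c c₀ : V₀} {y : G}
    (h1 : y * B.i c * y⁻¹ = B.i c₀)
    (h2 : cj y (B.b (Subgroup.zpowers c)) = B.b (Subgroup.zpowers c₀)) : c₀ ∈ Ob E₀ c := by
  obtain ⟨t, ht, h3⟩ := fus ℓ M hM G B.e B.i.range B.g hB.ld (B.i c₀) ⟨c₀, rfl⟩ (B.i c) ⟨c, rfl⟩
    _ _ (hLc c₀) (hLc c) y h1 h2
  obtain ⟨σ, hσ, h4⟩ := hB.act t ht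
  refine ⟨σ, hσ, hB.inj ?_⟩
  rw [← h4, h3]

open Classical in
/-- the number of the conjugations of one pair into the other -/
theorem cnt [Fintype G] (loc : T3.LocStmt) (fus : T3.FusStmt)
    (hM : (ℓ : integralClosure ℤ ℂ) ∈ M) (hB : Sb ℓ M E₀ B)
    (hLc : ∀ c : V₀, Lc B.e B.i.range B.g (B.i c) (B.b (Subgroup.zpowers c))) (c c₀ : V₀) (z₀ : G) :
    ((Finset.univ.filter fun z : G => z * B.i c * z⁻¹ = z₀ * B.i c₀ * z₀⁻¹ ∧
      cj z (B.b (Subgroup.zpowers c)) = cj z₀ (B.b (Subgroup.zpowers c₀))).card : ℂ) =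
      if c₀ ∈ Ob E₀ c then (Nat.card (Cu (B.i c)) : ℂ) else 0 := by
  split_ifs with h
  · obtain ⟨t, ht1, ht2⟩ := st_one loc hM hB hLc h
    have hset : ((Finset.univ.filter fun z : G => z * B.i c * z⁻¹ = z₀ * B.i c₀ * z₀⁻¹ ∧
        cj z (B.b (Subgroup.zpowers c)) = cj z₀ (B.b (Subgroup.zpowers c₀)) : Finset G) : Set G) =
        (fun x => z₀ * t * x) '' (Cu (B.i c) : Set G) := by
      ext z
      rw [Finset.coe_filter, Set.mem_ofPred_eq, Set.mem_image]
      constructor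
      · rintro ⟨-, h1, h2⟩
        refine ⟨(z₀ * t)⁻¹ * z, ?_, by group⟩
        show (z₀ * t)⁻¹ * z ∈ Cu (B.i c)
        rw [Subgroup.mem_centralizer_singleton_iff]
        have h3 : (z₀ * t)⁻¹ * (z * B.i c * z⁻¹) * z = (z₀ * t)⁻¹ * (z₀ * B.i c₀ * z₀⁻¹) * z := by
          rw [h1]
        have e1 : (z₀ * t)⁻¹ * (z * B.i c * z⁻¹) * z = (z₀ * t)⁻¹ * z * B.i c := by group
        have e2 : (z₀ * t)⁻¹ * (z₀ * B.i c₀ * z₀⁻¹) * z =
            t⁻¹ * B.i c₀ * t * ((z₀ * t)⁻¹ * z) := by group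
        have e3 : t⁻¹ * B.i c₀ * t = B.i c := by
          rw [← ht1]
          group
        rw [e1, e2, e3] at h3
        exact h3
      · rintro ⟨x, hx, rfl⟩
        have hx' : x * B.i c = B.i c * x := Subgroup.mem_centralizer_singleton_iff.1 hx
        refine ⟨Finset.mem_univ _, ?_, ?_⟩
        · have e1 : z₀ * t * x * B.i c * (z₀ * t * x)⁻¹ =
              z₀ * (t * (x * B.i c * x⁻¹) * t⁻¹) * z₀⁻¹ := by group
          have e2 : x * B.i c * x⁻¹ = B.i c := by rw [hx', mul_inv_cancel_right]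
          rw [e1, e2, ht1]
        · show cj (z₀ * t * x) (B.b (Subgroup.zpowers c)) = cj z₀ (B.b (Subgroup.zpowers c₀))
          rw [← cj_cj, ← cj_cj, (hLc c).blk.ix.inv hx, ht2]
    rw [← Set.ncard_coe_finset, hset, Set.ncard_image_of_injective _ (mul_right_injective _)]
    rfl
  · have : (Finset.univ.filter fun z : G => z * B.i c * z⁻¹ = z₀ * B.i c₀ * z₀⁻¹ ∧
        cj z (B.b (Subgroup.zpowers c)) = cj z₀ (B.b (Subgroup.zpowers c₀))) = ∅ := by
      rw [Finset.filter_eq_empty_iff]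
      rintro z - ⟨h1, h2⟩
      apply h
      refine st_two fus hM hB hLc (y := z₀⁻¹ * z) ?_ ?_
      · have e1 : z₀⁻¹ * z * B.i c * (z₀⁻¹ * z)⁻¹ = z₀⁻¹ * (z * B.i c * z⁻¹) * z₀ := by group
        rw [e1, h1]
        group
      · rw [← cj_cj, h2, cj_inv_cj]
    rw [this, Finset.card_empty, Nat.cast_zero]

end main

/-- HFPR -/
theorem hfpr (hlnk : HLnkStmt) (hixe : HIxeStmt) (smg : T3.SmgStmt) (dug : T3.DugStmt)
    (fus : T3.FusStmt) (loc : T3.LocStmt) : HFprStmt := by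
  intro ℓ hfact M _ hM V₀ _ _ E₀ G _ _ B hB χ hχ
  classical
  have := Fintype.ofFinite G
  have := Fintype.ofFinite V₀
  have hF : GoodF ℓ (FF M) := H50.fld ℓ hfact.out M hM
  have hL := hB.ld
  have hLc : ∀ c : V₀, Lc B.e B.i.range B.g (B.i c) (B.b (Subgroup.zpowers c)) := fun c =>
    (hlnk ℓ M hM V₀ E₀ G B hB c).2.1
  have hCu : ∀ c : V₀, Cu (B.i c) = B.C (Subgroup.zpowers c) := fun c =>
    (hlnk ℓ M hM V₀ E₀ G B hB c).1
  have hEl : ∀ c : V₀, El ℓ (B.i c) := by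
    intro c
    obtain ⟨n, hn⟩ := hL.tp.pg ⟨B.i c, c, rfl⟩
    exact ⟨n, congrArg Subtype.val hn⟩
  have hχI : χ ∈ Irr G := hχ.1
  have hχ1 : χ 1 ≠ 0 := irr_one_ne hχI
  have hnE : ∀ c, nE E₀ c = (Ob E₀ c).ncard := by
    intro c
    have h1 := ((hixe ℓ M hM V₀ E₀ G B hB).2.2.2 c).2.1
    rw [← ob_card E₀ c] at h1
    have h2 : 0 < Nat.card (Es E₀ c) := Nat.card_pos
    exact Nat.eq_of_mul_eq_mul_right h2 h1
  -- the map
  obtain ⟨Φ, hΦ⟩ : ∃ Φ : G × V₀ → G × (G → FF M), ∀ q, Φ q =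
      (q.1 * B.i q.2 * q.1⁻¹, cj q.1 (B.b (Subgroup.zpowers q.2))) := ⟨_, fun _ => rfl⟩
  obtain ⟨f, hf⟩ : ∃ f : G × (G → FF M) → ℂ, ∀ p, f p = gv M (Cu p.1) p.1 p.2 χ :=
    ⟨_, fun _ => rfl⟩
  obtain ⟨w, hw⟩ : ∃ w : V₀ → ℂ, ∀ c, w c = (Nat.card (Cu (B.i c)) : ℂ)⁻¹ * (nE E₀ c : ℂ)⁻¹ :=
    ⟨_, fun _ => rfl⟩
  have hΦO : ∀ q, Φ q ∈ Om ℓ B.e := by
    intro q
    rw [hΦ]
    exact om_conj hL.blk.1.1 ⟨hEl q.2, (hLc q.2).blk, (hLc q.2).und⟩ q.1
  have hΦS : ∀ p ∈ Om ℓ B.e, ∃ q, Φ q = p := by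
    rintro ⟨y, b⟩ ⟨h1, h2, h3⟩
    obtain ⟨z, ⟨c, hc⟩, hz⟩ := pair_conj dug hM hL h1 h2 h3
    have hc' : B.i c = z⁻¹ * y * z := hc
    rw [← hc'] at hz
    have h4 : cj z⁻¹ b = B.b (Subgroup.zpowers c) :=
      (loc ℓ (FF M) hF G B.e B.i.range B.g hL (B.i c) ⟨c, rfl⟩).2 _ _ hz (hLc c)
    refine ⟨(z, c), ?_⟩
    rw [hΦ]
    refine Prod.ext ?_ ?_
    · show z * B.i c * z⁻¹ = y
      rw [hc']
      group
    · show cj z (B.b (Subgroup.zpowers c)) = b
      rw [← h4, cj_cj_inv]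
  obtain ⟨S, hS⟩ : ∃ S, S = Finset.univ.image Φ := ⟨_, rfl⟩
  have hSO : (S : Set (G × (G → FF M))) = Om ℓ B.e := by
    ext p
    rw [hS, Finset.coe_image, Finset.coe_univ, Set.image_univ, Set.mem_range]
    constructor
    · rintro ⟨q, rfl⟩
      exact hΦO q
    · intro h
      exact hΦS p h
  -- the fibres
  have hfib : ∀ q₀, ∑ q ∈ Finset.univ.filter (fun q => Φ q = Φ q₀), w q.2 = 1 := by
    rintro ⟨z₀, c₀⟩
    rw [Finset.sum_filter, Fintype.sum_prod_type, Finset.sum_comm, ← ob_sum E₀ _ hnE c₀]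
    refine Finset.sum_congr rfl fun c _ => ?_
    have h1 : ∀ z : G, (Φ (z, c) = Φ (z₀, c₀)) ↔ (z * B.i c * z⁻¹ = z₀ * B.i c₀ * z₀⁻¹ ∧
        cj z (B.b (Subgroup.zpowers c)) = cj z₀ (B.b (Subgroup.zpowers c₀))) := by
      intro z
      rw [hΦ, hΦ]
      exact Prod.mk_inj
    rw [← Finset.sum_filter]
    show ∑ a ∈ Finset.univ.filter (fun a => Φ (a, c) = Φ (z₀, c₀)), w c = _
    rw [Finset.sum_const, nsmul_eq_mul]
    have h2 : (Finset.univ.filter fun z : G => Φ (z, c) = Φ (z₀, c₀)) =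
        Finset.univ.filter fun z : G => z * B.i c * z⁻¹ = z₀ * B.i c₀ * z₀⁻¹ ∧
        cj z (B.b (Subgroup.zpowers c)) = cj z₀ (B.b (Subgroup.zpowers c₀)) :=
      Finset.filter_congr fun z _ => h1 z
    rw [h2, cnt loc fus hM hB hLc c c₀ z₀, hw]
    split_ifs with h
    · have h3 : (Nat.card (Cu (B.i c)) : ℂ) ≠ 0 := by exact_mod_cast Nat.card_pos.ne'
      rw [mul_inv_cancel_left₀ h3]
    · rw [zero_mul]
  -- the sum over the pairs
  have hsum : ∑ p ∈ S, f p = ∑ q : G × V₀, f (Φ q) * w q.2 := by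
    have h1 : ∀ q ∈ (Finset.univ : Finset (G × V₀)), Φ q ∈ S := fun q _ => by
      rw [hS]
      exact Finset.mem_image_of_mem _ (Finset.mem_univ q)
    rw [← Finset.sum_fiberwise_of_maps_to h1]
    refine Finset.sum_congr rfl fun p hp => ?_
    rw [hS, Finset.mem_image] at hp
    obtain ⟨q₀, -, rfl⟩ := hp
    have h2 : ∑ q ∈ Finset.univ.filter (fun q => Φ q = Φ q₀), f (Φ q) * w q.2 =
        ∑ q ∈ Finset.univ.filter (fun q => Φ q = Φ q₀), f (Φ q₀) * w q.2 := by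
      refine Finset.sum_congr rfl fun q hq => ?_
      rw [(Finset.mem_filter.1 hq).2]
    rw [h2, ← Finset.mul_sum, hfib, mul_one]
  have hsum2 : ∑ q : G × V₀, f (Φ q) * w q.2 = χ 1 * ∑ c : V₀, cv (fc B ⊥ c) χ / nE E₀ c := by
    rw [Fintype.sum_prod_type, Finset.sum_comm, Finset.mul_sum]
    refine Finset.sum_congr rfl fun c _ => ?_
    have h1 : ∀ z : G, f (Φ (z, c)) * w c =
        gv M (Cu (B.i c)) (B.i c) (B.b (Subgroup.zpowers c)) χ * w c := by
      intro z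
      rw [hf, hΦ]
      show gv M (Cu (z * B.i c * z⁻¹)) (z * B.i c * z⁻¹) (cj z (B.b (Subgroup.zpowers c))) χ * w c
        = _
      rw [gv_conj (hLc c).blk.blk.1.1 hχI z]
    show ∑ z : G, f (Φ (z, c)) * w c = _
    rw [Finset.sum_congr rfl fun z _ => h1 z, Finset.sum_const, nsmul_eq_mul,
      (hlnk ℓ M hM V₀ E₀ G B hB c).2.2 χ hχI, hw, ← hCu c, Finset.card_univ,
      Nat.card_eq_fintype_card (α := G)]
    have h3 : (Nat.card (Cu (B.i c)) : ℂ) ≠ 0 := by exact_mod_cast Nat.card_pos.ne'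
    have h4 : (nE E₀ c : ℂ) ≠ 0 := by
      rw [hnE c]
      have h3 : 0 < (Ob E₀ c).ncard := by
        rw [Set.ncard_pos (Set.toFinite _)]
        exact ⟨c, ob_self E₀ c⟩
      exact_mod_cast h3.ne'
    field_simp
  -- the left side
  have hleft : ∑ᶠ (u : G) (_ : El ℓ u), χ u = ∑ p ∈ S, f p := by
    rw [← Finset.sum_fiberwise S (fun p => p.1) f, finsum_eq_sum_of_fintype]
    refine Finset.sum_congr rfl fun u _ => ?_
    rw [finsum_eq_if]
    split_ifs with hu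
    · have heC : IsIdem (fun t : Cu u => B.e t) := H98.idem_cu hF hL.blk.1 hu
      obtain ⟨h1, h2⟩ := blk_sum (M := M) _ heC
      rw [val_eq smg hM hL.blk.1 hχ hu, h2, gbv_sum _ _ _ h1, ← finsum_mem_coe_finset]
      refine finsum_mem_eq_of_bijOn (fun b : Cu u → FF M => (u, H75.ext0 (Cu u) b)) ⟨?_, ?_, ?_⟩ ?_
      · rintro b ⟨hb, hb2⟩
        have h3 : (fun t : Cu u => H75.ext0 (Cu u) b t) = b := funext (H75.ext0_apply (Cu u) b)
        rw [Finset.coe_filter]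
        refine ⟨?_, rfl⟩
        rw [← Finset.mem_coe, hSO]
        refine ⟨hu, ⟨H75.ext0_supp (Cu u) b, ?_⟩, ?_⟩
        · show IsBlk (fun t : Cu u => H75.ext0 (Cu u) b t)
          rw [h3]
          exact hb
        · show mulF (fun t : Cu u => B.e t) (fun t : Cu u => H75.ext0 (Cu u) b t) =
            fun t : Cu u => H75.ext0 (Cu u) b t
          rw [h3]
          exact hb2
      · rintro b - b' - h
        have h3 := (Prod.mk_inj.1 h).2
        funext t
        rw [← H75.ext0_apply (Cu u) b t, ← H75.ext0_apply (Cu u) b' t, h3]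
      · rintro ⟨y, b⟩ hp
        rw [Finset.coe_filter] at hp
        obtain ⟨hp1, hp2⟩ := hp
        rw [← Finset.mem_coe, hSO] at hp1
        have hy : y = u := hp2
        subst hy
        obtain ⟨h3, h4, h5⟩ := hp1
        refine ⟨fun t : Cu y => b t, ⟨h4.blk, h5⟩, ?_⟩
        refine Prod.ext rfl ?_
        exact H75.ext0_res (Cu y) h4.supp
      · rintro b ⟨hb, hb2⟩
        rw [hf]
        have h3 : (fun t : Cu u => H75.ext0 (Cu u) b t) = b := funext (H75.ext0_apply (Cu u) b)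
        show gbv (Cu u) u (eh M b) χ = gbv (Cu u) u (eh M fun t : Cu u => H75.ext0 (Cu u) b t) χ
        rw [h3]
    · symm
      apply Finset.sum_eq_zero
      intro p hp
      exfalso
      apply hu
      obtain ⟨h1, h2⟩ := Finset.mem_filter.1 hp
      rw [← Finset.mem_coe, hSO] at h1
      rw [← h2]
      exact h1.1
  rw [hleft, hsum, hsum2, finsum_eq_sum_of_fintype]

end Pool.Agent.PP.SO.H13
end
end -- Pool.Agent.Helper13_ASO.HFPR
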