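import Pool.Agent.Helper12_AWB.B062
import Pool.Agent.Helper12_AWB.B132
import Pool.Agent.Helper12_AWB.B208
import Pool.Agent.Helper12_AWB.B210

/-!
# Merged copies (generated) of the modules

* `Pool.Agent.ASE.Stmts9`
* `Pool.Agent.Helper3_C2.PSN`
* `Pool.Agent.Helper53_AT3.PSG`
* `Pool.Agent.Helper16_ASE.LNG`
* `Pool.Agent.Helper2_ASE.CEN`
* `Pool.Agent.Helper43_ASE.FXC`
* `Pool.Agent.Helper79_ASO.DGV`
* `Pool.Agent.Helper47_ASE.SXB`
* `Pool.Agent.Helper52_ASE.SXL`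
* `Pool.Agent.Helper62_ASE.TPG`
* `Pool.Agent.Helper63_ASE.SXA`
* `Pool.Agent.Helper67_ASE.XCG`
* `Pool.Agent.Helper74_ASE.CGF`
* `Pool.Agent.Helper8_ASE.CHZ`
* `Pool.Agent.Helper8_ASE.EXG`
* `Pool.Agent.Helper8_ASE.PEG`
* `Pool.Agent.Helper86_ASD.DGD`
-/

set_option autoImplicit false

section -- Pool.Agent.ASE.Stmts9

/-!
# Squad ASE, statements 9: the comparison datum

Section 8.4, 8.5 of `Pool/Agent/ASE/AWC_SOE.md`.  `S` is a finite group acting on `V₀` (`φ`), `θ` an `S`-invariant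
block of defect zero of `ker φ` with the character `κ` of degree `d`.  The comparison group is
`G = K ⋊ (V₀ ⋊ S)`, `K` of order prime to `ℓ` with `C_K(V₀) = 1`; `π : G → V₀ ⋊ S`, `j` the section.  The comparison datum is
`BG φ θ d π j`: `e(x) = [(π x).left = 1] θ((π x).right)`.  Complete proofs in the docstrings.
-/

open scoped BigOperators

noncomputable section

namespace Pool.Agent.PP.SE

open Pool.Agent.Helper51_AWC Pool.Agent.Helper79_WRA Pool.Agent.PP Pool.Agent.PP.KF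
open Pool.Agent.PP.K9 Pool.Agent.PP.K9.H97 Pool.Agent.PP.H75 Pool.Agent.PP.T3 Pool.Agent.PP.SO
open Pool.Agent.PP.SD

attribute [local instance] Ideal.Quotient.field

/-! ## 0. Definitions -/

section defs

variable {F V₀ S G : Type} [CommGroup V₀] [Group S] [Group G]

/-- the subgroup `V₀ ⋊ S₁` -/
def RS (φ : S →* MulAut V₀) (S₁ : Subgroup S) : Subgroup (V₀ ⋊[φ] S) :=
  S₁.comap SemidirectProduct.rightHom

/-- the embedding of `V₀` -/
def iG {φ : S →* MulAut V₀} (j : V₀ ⋊[φ] S →* G) : V₀ →* G := j.comp SemidirectProduct.inl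

/-- the centraliser of `i(W)` -/
def CG {φ : S →* MulAut V₀} (j : V₀ ⋊[φ] S →* G) (W : Subgroup V₀) : Subgroup G :=
  Subgroup.centralizer ((W.map (iG j) : Subgroup G) : Set G)

/-- the order of `C_K(W)` -/
def KW {φ : S →* MulAut V₀} (π : G →* V₀ ⋊[φ] S) (j : V₀ ⋊[φ] S →* G) (W : Subgroup V₀) : ℕ :=
  Nat.card (π.ker ⊓ CG j W : Subgroup G)

open Classical in
/-- the function `1 × θ` on `V₀ ⋊ S` -/
def eR [Field F] (φ : S →* MulAut V₀) (θ : S → F) (y : V₀ ⋊[φ] S) : F :=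
  if y.left = 1 then θ y.right else 0

open Classical in
/-- the comparison datum -/
def BG [Field F] (φ : S →* MulAut V₀) (θ : S → F) (d : ℕ) (π : G →* V₀ ⋊[φ] S)
    (j : V₀ ⋊[φ] S →* G) : Bk F V₀ G where
  e x := eR φ θ (π x)
  g x := if x ∈ CG j ⊤ then eR φ θ (π x) else 0
  i := iG j
  b W x := if x ∈ CG j W then eR φ θ (π x) else 0
  D _ := d
  S _ := 1

/-- `G = K ⋊ (V₀ ⋊ S)`, the order of `K` is prime to `ℓ`, `C_K(V₀) = 1`. -/
structure Cg (ℓ : ℕ) (φ : S →* MulAut V₀) (π : G →* V₀ ⋊[φ] S) (j : V₀ ⋊[φ] S →* G) : Prop where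
  sec : ∀ y, π (j y) = y
  ck : ¬ ℓ ∣ Nat.card π.ker
  fix : ∀ k, π k = 1 → (∀ v, j (SemidirectProduct.inl v) * k = k * j (SemidirectProduct.inl v)) →
    k = 1

/-- the character of `V₀ ⋊ S₁` induced from the character `lam × κ` of `V₀ × ker φ` -/
def xiL (φ : S →* MulAut V₀) (κ : S → ℂ) (S₁ : Subgroup S) (lam : V₀ → ℂ) (y : V₀ ⋊[φ] S) : ℂ :=
  κ y.right * ∑ᶠ τ : S₁.map φ, lam ((τ : MulAut V₀) y.left)

open Classical in
/-- the characters `xc` of the comparison datum -/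
def xcG {φ : S →* MulAut V₀} (ℓ : ℕ) (κ : S → ℂ) (π : G →* V₀ ⋊[φ] S) (j : V₀ ⋊[φ] S →* G)
    (W : Subgroup V₀) (x : G) : ℂ :=
  if x ∈ CG j W then κ (π x).right * (if (π x).left ∈ W then (ℓ : ℂ) - 1 else -1) else 0

/-- `q : T → S` is surjective with the kernel `i(V₀)`, `φ` is the action on `V₀`. -/
structure Sx (B : Bk F V₀ G) (q : Tg B.i.range B.g →* S) (φ : S →* MulAut V₀) : Prop where
  sur : Function.Surjective q
  ker : ∀ t, q t = 1 ↔ (t : G) ∈ B.i.range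
  act : ∀ (t : Tg B.i.range B.g) (v : V₀), (t : G) * B.i v * (t : G)⁻¹ = B.i (φ (q t) v)

end defs

section th

variable {V₀ S : Type} [CommGroup V₀] [Group S]

/-- `θ` is an `S`-invariant block of defect zero of `ker φ`, `κ` its character, of degree `d`. -/
structure Th (ℓ : ℕ) (M : Ideal (integralClosure ℤ ℂ)) [M.IsMaximal] (φ : S →* MulAut V₀)
    (θ : S → FF M) (κ : S → ℂ) (d : ℕ) : Prop where
  bx : Bx φ.ker θ
  cl : IsCl θ
  tp : Tp ℓ (fun t : φ.ker => θ t) ⊥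
  kz : ∀ x, x ∉ φ.ker → κ x = 0
  ki : IrrE M (fun t : φ.ker => θ t) = {fun t : φ.ker => κ t}
  kc : ∀ x y, κ (y * x * y⁻¹) = κ x
  kd : κ 1 = d
  dp : 0 < d

end th

/-! ## 1. The group `T/V` and the block `θ` -/

/-- SXA: the group `S = T/V`.

Proof.  `V = i(V₀)` is normal in `T = Tg V g` (`Tg ≤ normalizer`), `S = T ⧸ V.subgroupOf T`, `q` the projection.  For `t ∈ T` the `σ` with
`t i(v) t⁻¹ = i(σ v)` (`act`) is unique (`inj`), so it is a homomorphism `T → MulAut V₀`, with the image `E₀` (`act`, `sur`); `V` is in the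
kernel (`ld.ab`), so it factors over `q` (`QuotientGroup.lift`). -/
def SxaStmt : Prop := ∀ (ℓ : ℕ) [Fact ℓ.Prime] (M : Ideal (integralClosure ℤ ℂ)) [M.IsMaximal],
  (ℓ : integralClosure ℤ ℂ) ∈ M → ∀ (V₀ G : Type) [CommGroup V₀] [Finite V₀] [Group G]
  [Finite G] (E₀ : Subgroup (MulAut V₀)), Fq ℓ V₀ E₀ → ∀ B : Bk (FF M) V₀ G, Sb ℓ M E₀ B →
  ∃ (S : Type) (_ : Group S) (_ : Finite S) (q : Tg B.i.range B.g →* S) (φ : S →* MulAut V₀),
    Sx B q φ ∧ φ.range = E₀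

/-- SXL: the numbers `Lam`, the exponent.

Proof.  `θ = push q (g|T)`.  Let `E₁ ≤ E₀`, `X = TE B E₁ ≤ T`.  `q` maps `X` onto `E₁.comap φ` (`Sx.act`, `i` injective: `t` induces `φ (q t)`), with
the kernel `V`, an `ℓ`-group (`Fq.ex`).  `H75.cnt_push` (`Helper75_PP/Quo.lean`, `H20.nls`; `ln = cnt` by definition, see `Helper18_AT5/LNB.lean`):
`ln (g|X) = ln (push (g|X))`, and the push of `g|X` is `θ` restricted to `E₁.comap φ` (all `t` with `q t ∈ E₁.comap φ` are in `X`).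
`E₁ = E₀` gives `TE B E₀ = T`.  Exponent: let `s = q t` be an `ℓ`-element; with `m` from `PE ℓ (ℓ ^ r) m G`: `t ^ m` is the `ℓ`-part of `t`
(write `t = t₁ t₂`, `t₁` an `ℓ`-element, `t₂` regular, commuting powers of `t`), `q t₂` is a regular element and a power of the `ℓ`-element `s`, so
`q t₂ = 1`, `s = q t₁`, `t₁ ^ (ℓ ^ r) = 1`. -/
def SxlStmt : Prop := ∀ (ℓ : ℕ) [Fact ℓ.Prime] (M : Ideal (integralClosure ℤ ℂ)) [M.IsMaximal],
  (ℓ : integralClosure ℤ ℂ) ∈ M → ∀ (V₀ G S : Type) [CommGroup V₀] [Finite V₀] [Group G]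
  [Finite G] [Group S] [Finite S] (E₀ : Subgroup (MulAut V₀)), Fq ℓ V₀ E₀ →
  ∀ B : Bk (FF M) V₀ G, Sb ℓ M E₀ B → ∀ (q : Tg B.i.range B.g →* S) (φ : S →* MulAut V₀),
  Sx B q φ → φ.range = E₀ →
  (∀ E₁ ≤ E₀, Lam B E₁ = ln (fun t : E₁.comap φ => push q (fun t => B.g t) t)) ∧
  ∀ r, 0 < r → (∃ m, PE ℓ (ℓ ^ r) m G) → ∀ s : S, El ℓ s → s ^ ℓ ^ r = 1

/-- SXB: the block `θ`.

Proof.  `θ = push q (g|T)`.  `ker φ = q(C(V))`: `C(V) ≤ T` (`g` is a class function of `C(V)`; HAT, last claim), and `t ∈ T` with `φ (q t) = 1`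
centralises `V`.  `g` vanishes outside of `C(V)`, so `θ` vanishes outside of `ker φ`; `push_isCl`.  `θ` restricted to `ker φ` is the push of
`g|C(V)` along `C(V) → ker φ`, whose kernel `V` is a central `ℓ`-subgroup: `bx` by `psg` (see `Helper18_AT5/LNB.lean`).  `tp`: `g` has the defect group
`V` (LBD of squad ASO for `W = ⊤`, `b ⊤ = g`), `pug` (see LNB.lean): a subgroup `Q` of `ker φ`, `θ` not zero on `C(Q)`, is `Q'/V`, `g` not zero on `C(Q')`, so
`|Q'| ≤ |V|`, `Q = 1`.  `κ`: `K9.PsiStmt`: the characters of `θ|ker φ` are the `κ` such that `κ ∘ q` is a character of `g`; these are the characters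
`χ` of `g` which are trivial on `V`.  By NSD for `W = ⊤` (`lam` is a bijection of `Ch B ⊤` onto `lin V₀`, and `χ(i x) = χ 1 lam χ x`, see CHG)
there is exactly one, and its degree is `B.D ⊤` (`Sd.dg`, `Rw E₀ ⊤`).  `kc`: the conjugates of `κ` under `S` are characters of `θ` (`cl`), so equal to
`κ`. -/
def SxbStmt : Prop := ∀ (ℓ : ℕ) [Fact ℓ.Prime] (M : Ideal (integralClosure ℤ ℂ)) [M.IsMaximal],
  (ℓ : integralClosure ℤ ℂ) ∈ M → ℓ ≠ 2 → ∀ (V₀ G S : Type) [CommGroup V₀] [Finite V₀] [Group G]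
  [Finite G] [Group S] [Finite S] (E₀ : Subgroup (MulAut V₀)), Fq ℓ V₀ E₀ →
  ∀ B : Bk (FF M) V₀ G, Sd ℓ M E₀ B → ∀ (q : Tg B.i.range B.g →* S) (φ : S →* MulAut V₀),
  Sx B q φ → φ.range = E₀ → ∃ κ : S → ℂ, Th ℓ M φ (push q (fun t => B.g t)) κ (B.D ⊤)

/-! ## 2. The comparison group -/

/-- CGS: the comparison group.

Proof.  `E₀ = φ.range`.  `SD.H43.cgx` (`Helper43_ASD/CGX.lean`; a theorem, with `P = fun _ => False`) gives `Γ`, `π₀ : Γ → V₀ ⋊ E₀`, `j₀`.  Let `G` be the subgroup of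
the `(x, s) ∈ Γ × S` with `(π₀ x).right = φ s`, `π (x, s) = ⟨(π₀ x).left, s⟩`, `j ⟨v, s⟩ = (j₀ ⟨v, φ s⟩, s)`.  `π` is a homomorphism (`(π₀ x).right` acts on `V₀`
as `φ s`), `π (j y) = y`.  The kernel of `π` is `{(x, 1) : π₀ x = 1}`, isomorphic to the kernel of `π₀`, and `i(v) = (j₀ (inl v), 1)`; so `ck`, and
`KW π j W` is the number of `cgx`.  `fix`: `(x, 1)` with `π₀ x = 1` which centralises `V` is in `i(V₀)` (third claim of `cgx`), and `π₀ x = 1`: `x = 1`. -/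
def CgsStmt : Prop := ∀ (ℓ : ℕ) [Fact ℓ.Prime], ℓ ≠ 2 → ∀ (V₀ S : Type) [CommGroup V₀] [Finite V₀]
  [Group S] [Finite S] (φ : S →* MulAut V₀), Fq ℓ V₀ φ.range → ∀ (k : ℕ) (U : Subgroup V₀ → ℤ),
  (∀ W, (ℓ : ℤ) ∣ U W - 1) → (∀ (W : Subgroup V₀) (s : S), U (mp (φ s) W) = U W) →
  ∃ (G : Type) (_ : Group G) (_ : Finite G) (π : G →* V₀ ⋊[φ] S) (j : V₀ ⋊[φ] S →* G),
    Cg ℓ φ π j ∧ ∀ W, W ≠ ⊥ → W ≠ ⊤ → ((ℓ ^ k : ℕ) : ℤ) ∣ (KW π j W : ℤ) - U W

/-- CEN: the centralisers in the comparison group.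

Proof.  `y (inl v) y⁻¹ = inl (φ y.right v)` in `V₀ ⋊ S` (`V₀` is commutative), so `j y` centralises `i(W)` iff `φ y.right` fixes `W` pointwise
(`j` is injective).  If `x ∈ C(W)` then `π x` centralises `inl(W)` and `j (π x) ∈ C(W)`, `x (j (π x))⁻¹ ∈ K ∩ C(W)`.  So `C(W)` has the order
`|RS φ (comap φ (St W))| KW W`, `|RS φ S₁| = ℓ ^ 2 |S₁|`.  `|comap φ E₁| = |ker φ| |E₁|` for `E₁ ≤ φ.range`.  The `ℓ`-group `V₀` acts by conjugation on
`K ∩ C(W)` (`K` is normal, `i(V₀)` centralises `i(W)`) and `1` is the only fixed point (`fix`), so `KW W = 1` modulo `ℓ`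
(`CM.card_one` in `Helper76_ASO/CMI.lean`, or `IsPGroup.card_modEq_card_fixedPoints`); `q` is an integer divided by ... `KW W - 1 = ℓ q`. -/
def CenStmt : Prop := ∀ (ℓ : ℕ) [Fact ℓ.Prime] (V₀ S G : Type) [CommGroup V₀] [Finite V₀]
  [Group S] [Finite S] [Group G] [Finite G] (φ : S →* MulAut V₀) (π : G →* V₀ ⋊[φ] S)
  (j : V₀ ⋊[φ] S →* G), Fq ℓ V₀ φ.range → Cg ℓ φ π j →
  Function.Injective (iG j) ∧ KW π j ⊤ = 1 ∧
  (∀ y v, j y * iG j v * (j y)⁻¹ = iG j (φ y.right v)) ∧ ∀ W : Subgroup V₀,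
    (∀ y, j y ∈ CG j W ↔ φ y.right ∈ St φ.range W) ∧
    (∀ x ∈ CG j W, j (π x) ∈ CG j W ∧ x * (j (π x))⁻¹ ∈ (π.ker ⊓ CG j W : Subgroup G)) ∧
    (CG j W).map π = RS φ ((St φ.range W).comap φ) ∧ (iG j).range ≤ CG j W ∧
    Nat.card (CG j W) = ℓ ^ 2 * Nat.card ((St φ.range W).comap φ) * KW π j W ∧
    Nat.card ((St φ.range W).comap φ) = Nat.card φ.ker * nS φ.range W ∧
    φ.ker ≤ (St φ.range W).comap φ ∧ (St φ.range (⊤ : Subgroup V₀)).comap φ = φ.ker ∧
    (W = ⊥ → (St φ.range W).comap φ = ⊤) ∧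
    ∃ q ∈ SOR.Rl ℓ, (KW π j W : ℚ) = 1 + ℓ * q

/-- PEG: the exponent of the comparison group.

Proof.  Let `x` be an `ℓ`-element, `π x = ⟨v, s⟩`.  `φ s` has `ℓ`-power order in `φ.range`, whose order is prime to `ℓ`: `φ s = 1`.  So
`⟨v, s⟩ ^ n = ⟨v ^ n, s ^ n⟩`; `s` is an `ℓ`-element, so `s ^ (ℓ ^ r) = 1`, `v ^ ℓ = 1`: `π (x ^ (ℓ ^ r)) = 1`, and `x ^ (ℓ ^ r)` is an `ℓ`-element of the kernel,
whose order is prime to `ℓ`, so it is `1`.  `m` by the Chinese remainder theorem (`1` modulo `ℓ ^ r`, `0` modulo the prime to `ℓ` part of `|G|`), as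
`SD.H43.pe_of` in `Helper43_ASD/CBG.lean` (there with `ℓ` instead of `ℓ ^ r`). -/
def PegStmt : Prop := ∀ (ℓ : ℕ) [Fact ℓ.Prime] (V₀ S G : Type) [CommGroup V₀] [Finite V₀]
  [Group S] [Finite S] [Group G] [Finite G] (φ : S →* MulAut V₀) (π : G →* V₀ ⋊[φ] S)
  (j : V₀ ⋊[φ] S →* G), Fq ℓ V₀ φ.range → Cg ℓ φ π j → ∀ r, 0 < r →
  (∀ s : S, El ℓ s → s ^ ℓ ^ r = 1) → ∃ m, PE ℓ (ℓ ^ r) m G

/-! ## 3. Blocks -/

/-- BRE: the block of `V₀ ⋊ S₁`.

Proof.  (1) For `s ∈ ker φ` and `y = ⟨u, t⟩`: `y ⟨v, s⟩ y⁻¹ = ⟨φ t v, t s t⁻¹⟩` (`φ (t s t⁻¹) = 1`); `θ` is a class function and vanishes outside of `ker φ`: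
`IsCl (eR φ θ)`.  `(eR * eR)(y)`: only `⟨1, t⟩` contribute, `= [y.left = 1] (θ * θ)(y.right)` and `θ * θ = θ` (`Bx.mul`).  In the same way for the restriction to
`R₁ = RS φ S₁`.  It is not zero (`θ ≠ 0`, `ker φ ≤ S₁`).
(2) Let `f` be an idempotent of `F R₁` (`IsIdem`), `f' = eR f`, an idempotent with `eR f' = f'`.  `P = inl(V₀)` is a normal `ℓ`-subgroup of `R₁`, so `f'`
vanishes outside of `C(P) = V₀ × ker φ` (`T2.H32.supp_cent` in `Helper32_AT2/FST.lean`), and outside of the regular elements (`K9.H25.eh_sing`; see ONB, SO.Stmts7,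
and its proof).  `⟨v, s⟩` with `s ∈ ker φ` is regular only if `v = 1`.  So `f' = [y.left = 1] h(y.right)`, `h(s) = f' ⟨1, s⟩`, and `h` restricted to `ker φ` is an
idempotent (class function of `ker φ`, `h * h = h` as in (1)) with `θ h = h`.  `θ|ker φ` is a block: `h = 0` or `h = θ` on `ker φ`, so `f' = 0` or `f' = eR`. -/
def BreStmt : Prop := ∀ (ℓ : ℕ) [Fact ℓ.Prime] (M : Ideal (integralClosure ℤ ℂ)) [M.IsMaximal],
  (ℓ : integralClosure ℤ ℂ) ∈ M → ∀ (V₀ S : Type) [CommGroup V₀] [Finite V₀] [Group S]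
  [Finite S] (φ : S →* MulAut V₀) (θ : S → FF M) (κ : S → ℂ) (d : ℕ), Fq ℓ V₀ φ.range →
  Th ℓ M φ θ κ d → IsCl (eR φ θ) ∧ IsBlk (eR φ θ) ∧
  ∀ S₁ : Subgroup S, φ.ker ≤ S₁ → IsBlk (fun y : RS φ S₁ => eR φ θ y)

/-- BLG: the blocks of the comparison group (hypotheses BRE, `SO.InfStmt`).

Proof.  Let `C` be a subgroup of `G` with `i(V₀) ≤ C`, `π(C) = RS φ S₁`.  The kernel of `C → RS φ S₁` is `K ∩ C`, its number of elements is `1` in `FF M`
(`i(V₀)` acts on it, only `1` is fixed: `CM.card_one` in `Helper76_ASO/CMI.lean`).  So `infl (eR|RS φ S₁) = eR ∘ π|C`, and InfStmt (blocks, characters) and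
BRE give the claims.  A function on `RS φ S₁` is extended by zero.  The first claims are the case `C = ⊤` (use InfStmt for `π` itself, `π` is
surjective by `sec`).  Equal numbers: `ψ ↦ ψ ∘ π` is injective (`C → RS φ S₁` is surjective). -/
def BlgStmt : Prop := ∀ (ℓ : ℕ) [Fact ℓ.Prime] (M : Ideal (integralClosure ℤ ℂ)) [M.IsMaximal],
  (ℓ : integralClosure ℤ ℂ) ∈ M → ∀ (V₀ S G : Type) [CommGroup V₀] [Finite V₀] [Group S]
  [Finite S] [Group G] [Finite G] (φ : S →* MulAut V₀) (θ : S → FF M) (κ : S → ℂ) (d : ℕ)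
  (π : G →* V₀ ⋊[φ] S) (j : V₀ ⋊[φ] S →* G), Fq ℓ V₀ φ.range → Th ℓ M φ θ κ d → Cg ℓ φ π j →
  IsBlk (fun x : G => eR φ θ (π x)) ∧
  (IrrE M (fun x : G => eR φ θ (π x))).ncard = (IrrE M (eR φ θ)).ncard ∧
  ∀ C : Subgroup G, (iG j).range ≤ C → ∀ S₁ : Subgroup S, φ.ker ≤ S₁ → C.map π = RS φ S₁ →
    IsBlk (fun t : C => eR φ θ (π t)) ∧
    (∀ ψ : V₀ ⋊[φ] S → ℂ, (fun y : RS φ S₁ => ψ y) ∈ IrrE M (fun y : RS φ S₁ => eR φ θ y) →
      (fun t : C => ψ (π t)) ∈ IrrE M (fun t : C => eR φ θ (π t))) ∧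
    ∀ χ ∈ IrrE M (fun t : C => eR φ θ (π t)), ∃ ψ : V₀ ⋊[φ] S → ℂ, (∀ y, y ∉ RS φ S₁ → ψ y = 0) ∧
      (fun y : RS φ S₁ => ψ y) ∈ IrrE M (fun y : RS φ S₁ => eR φ θ y) ∧ χ = fun t : C => ψ (π t)

/-- TPG: the defect group of the comparison block.

Proof.  `pg`: `i(V₀)` is an `ℓ`-group.  `gd`: `θ s ≠ 0` for some `s ∈ ker φ` (`bx.blk`), `x = j (inr s)` centralises `i(V₀)` and `e x = θ s`.  `mx`: let `Q` be an
`ℓ`-subgroup, `x ∈ C(Q)`, `e x ≠ 0`.  Let `Q'` be the image of `Q` in `S` (`z ↦ (π z).right`), an `ℓ`-group.  `φ(Q')` is an `ℓ`-subgroup of `φ.range`, whose order is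
prime to `ℓ`: `Q' ≤ ker φ`.  `s = (π x).right`: `θ s = e x ≠ 0`, so `s ∈ ker φ`, and `s` centralises `Q'`.  So `θ|ker φ` is good for `Q'` and
`|Q'| ≤ 1` (`Th.tp`).  So `(π z).right = 1` for `z ∈ Q`, and `z ↦ (π z).left` is an injective homomorphism `Q → V₀` (`Q ∩ ker π = 1`: orders), `|Q| ≤ ℓ ^ 2 = |i(V₀)|`. -/
def TpgStmt : Prop := ∀ (ℓ : ℕ) [Fact ℓ.Prime] (M : Ideal (integralClosure ℤ ℂ)) [M.IsMaximal],
  (ℓ : integralClosure ℤ ℂ) ∈ M → ∀ (V₀ S G : Type) [CommGroup V₀] [Finite V₀] [Group S]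
  [Finite S] [Group G] [Finite G] (φ : S →* MulAut V₀) (θ : S → FF M) (κ : S → ℂ) (d : ℕ)
  (π : G →* V₀ ⋊[φ] S) (j : V₀ ⋊[φ] S →* G), Fq ℓ V₀ φ.range → Th ℓ M φ θ κ d → Cg ℓ φ π j →
  Tp ℓ (fun x : G => eR φ θ (π x)) (iG j).range

/-- SBG: the comparison datum, basic conditions (hypotheses CEN, BLG, TPG).

Proof.  As `cmx` in `Helper43_ASD/CBG.lean`.  `inj`: CEN.  `ld`: `blk` BLG; `tp` TPG; `ab` clear; `gam`: BLG for `C = CG j ⊤ = C(i(V₀))`, `S₁ = ker φ` (CEN; `(⊤ : Subgroup V₀).map i = i.range`);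
`und`: `br V e = g`, and `g * g = g` (`Bx.mul`).  `act`: let `t ∈ N(V)`, `t i(v) t⁻¹ = i(v')`; apply `π`: `inl v' = (π t) (inl v) (π t)⁻¹ = inl (φ (π t).right v)`.
`sur`: `σ = φ s`: `t = j (inr s)` (CEN (3)) normalises `V`, and `g (t x t⁻¹) = g x` (`e` is a class function, BRE or `blk`).
`lb`: `blk` BLG for `C = CG j W`, `S₁ = comap φ (St φ.range W)` (CEN); `und`: `e = b W` on `C W`, an idempotent; `gam`: `br V (b W) = g` (`C(V) ≤ C W`). -/
def SbgStmt : Prop := ∀ (ℓ : ℕ) [Fact ℓ.Prime] (M : Ideal (integralClosure ℤ ℂ)) [M.IsMaximal],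
  (ℓ : integralClosure ℤ ℂ) ∈ M → ∀ (V₀ S G : Type) [CommGroup V₀] [Finite V₀] [Group S]
  [Finite S] [Group G] [Finite G] (φ : S →* MulAut V₀) (θ : S → FF M) (κ : S → ℂ) (d : ℕ)
  (π : G →* V₀ ⋊[φ] S) (j : V₀ ⋊[φ] S →* G), Fq ℓ V₀ φ.range → Th ℓ M φ θ κ d → Cg ℓ φ π j →
  Sb ℓ M φ.range (BG φ θ d π j)

/-- TGG: the inertial group of the comparison datum (hypothesis CEN).

Proof.  (1) Let `x ∈ N(V)`; `k = x (j (π x))⁻¹ ∈ ker π`, and `j (π x) ∈ N(V)` (CEN (3)), so `k i(v) k⁻¹ ∈ V`, and its image under `π` is `inl v`: `k` centralises `V`,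
`k = 1` (`fix`).  Conversely `j y` normalises `V` and stabilises `g` (`eR φ θ` is a class function: BRE, or directly from `Th.cl`, `Th.bx`).
(2) `j y` acts on `V` as `φ y.right` (`i` is injective).  (3) `j` is an isomorphism of `RS φ (comap φ E₁)` onto `TE B E₁`, and `g (j y) = eR φ θ y`
(`θ` vanishes outside of `ker φ`; if `y.right ∈ ker φ` then `j y ∈ CG j ⊤`).  So `Lam B E₁ = ln (eR|RS φ (comap φ E₁))` (transport), and the push of
`eR|RS φ S₁` along `RS φ S₁ → S₁` (surjective, its kernel is the `ℓ`-group `inl(V₀)`) is `θ|S₁`: `H75.cnt_push`. -/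
def TggStmt : Prop := ∀ (ℓ : ℕ) [Fact ℓ.Prime] (M : Ideal (integralClosure ℤ ℂ)) [M.IsMaximal],
  (ℓ : integralClosure ℤ ℂ) ∈ M → ∀ (V₀ S G : Type) [CommGroup V₀] [Finite V₀] [Group S]
  [Finite S] [Group G] [Finite G] (φ : S →* MulAut V₀) (θ : S → FF M) (κ : S → ℂ) (d : ℕ)
  (π : G →* V₀ ⋊[φ] S) (j : V₀ ⋊[φ] S →* G), Fq ℓ V₀ φ.range → Th ℓ M φ θ κ d → Cg ℓ φ π j →
  (∀ x, x ∈ Tg (BG φ θ d π j).i.range (BG φ θ d π j).g ↔ ∃ y, j y = x) ∧
  ∀ E₁ ≤ φ.range, (∀ x, x ∈ TE (BG φ θ d π j) E₁ ↔ ∃ y, j y = x ∧ φ y.right ∈ E₁) ∧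
    Lam (BG φ θ d π j) E₁ = ln (fun t : E₁.comap φ => θ t)

/-! ## 4. Characters -/

/-- IND: induced characters.

Proof.  `R₁ = RS φ S₁`, `N = RS φ (ker φ)`, normal in `R₁`.  `ψ ⟨v, s⟩ = lam v · κ s` is an irreducible character of `N`: `⟨v, s⟩ ↦ s` and `⟨v, s⟩ ↦ v` are
homomorphisms on `N`, `κ|ker φ` is irreducible (`ki`), `lam` is linear.  The induced function is `(1/|N|) ∑_(x ∈ R₁) ψ(x⁻¹ y x)`; for `x = ⟨u, t⟩`, `y = ⟨v, s⟩`, `s ∈ ker φ`:
`x⁻¹ y x = ⟨φ t⁻¹ v, t⁻¹ s t⟩`, `κ (t⁻¹ s t) = κ s` (`kc`), so it is `xiL` (every `τ ∈ φ(S₁)` is `φ t⁻¹` for `|ker φ|` elements `t ∈ S₁`); it vanishes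
outside of `N`.  Its inner product with every irreducible character `η` of `R₁` is the one of `ψ` and `η|N`, a natural number.  Its norm is
`|R₁|⁻¹ ∑_(s ∈ ker φ) |κ s|² ∑_v |∑_τ lam (τ v)|² = |R₁|⁻¹ |ker φ| |V₀| #{(τ, τ') : lam ∘ τ = lam ∘ τ'} = 1`, since `lam ∘ τ = lam ∘ τ'` only for
`τ = τ'` (hypothesis).  A class function with inner products in `ℕ` and norm `1` is an irreducible character.  The block: `res M (eR) xiL = 1`:
`∑_y eR(y) xiL(y)/xiL(1) = ∑_(s ∈ ker φ) θ(s) κ(s)/κ(1)` (lifts; compare with `res M θ κ = 1`, `xiL ⟨1, s⟩ = |S₁.map φ| κ s`; `|S₁.map φ|` is prime to `ℓ`). -/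
def IndStmt : Prop := ∀ (ℓ : ℕ) [Fact ℓ.Prime] (M : Ideal (integralClosure ℤ ℂ)) [M.IsMaximal],
  (ℓ : integralClosure ℤ ℂ) ∈ M → ∀ (V₀ S : Type) [CommGroup V₀] [Finite V₀] [Group S]
  [Finite S] (φ : S →* MulAut V₀) (θ : S → FF M) (κ : S → ℂ) (d : ℕ), Fq ℓ V₀ φ.range →
  Th ℓ M φ θ κ d → ∀ S₁ : Subgroup S, φ.ker ≤ S₁ → ∀ lam ∈ lin V₀,
  (∀ s ∈ S₁, (∀ v, lam (φ s v) = lam v) → φ s = 1) →
  (fun y : RS φ S₁ => xiL φ κ S₁ lam y) ∈ IrrE M (fun y : RS φ S₁ => eR φ θ y)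

/-- CHZ: the characters of `V₀ × ker φ`, the facts for `κ`.

Proof.  (1) `κ|ker φ` is irreducible (`ki`): orthogonality; `κ(s⁻¹)` is the complex conjugate.  (2) `inl v` is central in `N = RS φ (ker φ)`, so
`ψ (inl v * y) = lam v * ψ y`, `lam ∈ lin V₀`.  `η(s) = ψ (inr s)`, `s ∈ ker φ`, is a character of `ker φ`, and `∑_(y ∈ N) |ψ y|² = |V₀| ∑_s |η s|²`, so its norm is
`1`: irreducible.  `res M θ η = res M eR ψ = 1`, so `η = κ`.  (3) distinct `lam` give distinct `ψ` (`κ 1 ≠ 0`), and all of them occur (`inl(V₀) × ker φ`: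
product of a linear and an irreducible character; the block as in (2)). -/
def ChzStmt : Prop := ∀ (ℓ : ℕ) [Fact ℓ.Prime] (M : Ideal (integralClosure ℤ ℂ)) [M.IsMaximal],
  (ℓ : integralClosure ℤ ℂ) ∈ M → ∀ (V₀ S : Type) [CommGroup V₀] [Finite V₀] [Group S]
  [Finite S] (φ : S →* MulAut V₀) (θ : S → FF M) (κ : S → ℂ) (d : ℕ), Fq ℓ V₀ φ.range →
  Th ℓ M φ θ κ d → ∑ᶠ s : φ.ker, κ (s : S)⁻¹ * κ s = Nat.card φ.ker ∧
  IrrE M (fun y : RS φ φ.ker => eR φ θ y) =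
    {ψ | ∃ lam ∈ lin V₀, ψ = fun y : RS φ φ.ker => lam (y : V₀ ⋊[φ] S).left * κ (y : V₀ ⋊[φ] S).right}

/-- SDG: the comparison datum (hypotheses SBG, CEN, BLG, CHZ).

Proof.  `Rw φ.range W`: `St φ.range W = ⊥`, `comap φ (St W) = ker φ`.  `dg`: BLG for `C = CG j W` and CHZ: all characters are `ψ ∘ π`, `ψ 1 = lam 1 · κ 1 = d`.  `sg` clear.
`U W = |C W| d/(|C ⊤| d) = KW W` (CEN for `W`, `⊤`, `KW ⊤ = 1`), `un`: CEN. -/
def SdgStmt : Prop := ∀ (ℓ : ℕ) [Fact ℓ.Prime] (M : Ideal (integralClosure ℤ ℂ)) [M.IsMaximal],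
  (ℓ : integralClosure ℤ ℂ) ∈ M → ∀ (V₀ S G : Type) [CommGroup V₀] [Finite V₀] [Group S]
  [Finite S] [Group G] [Finite G] (φ : S →* MulAut V₀) (θ : S → FF M) (κ : S → ℂ) (d : ℕ)
  (π : G →* V₀ ⋊[φ] S) (j : V₀ ⋊[φ] S →* G), Fq ℓ V₀ φ.range → Th ℓ M φ θ κ d → Cg ℓ φ π j →
  Sd ℓ M φ.range (BG φ θ d π j) ∧ ∀ W, Rw φ.range W → (BG φ θ d π j).U W = KW π j W

/-- LNG: the number of modular characters of the comparison block (hypotheses SBG, BLG, TGG, LMB).

Proof.  `B = BG φ θ d π j` and `B' = BG φ θ d id id` for the group `V₀ ⋊ S` (`Cg ℓ φ id id`).  TGG: `Lam B = Lam B'` on the `E₁ ≤ φ.range`.  BLG: `k(B) = k(B')`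
(the second claim for both).  LMB (4) for both: `|E₀| ln B.e = |E₀| ln B'.e`.  `inl(V₀)` is normal in `V₀ ⋊ S`: LMB (2), `ln B'.e = Lam B' E₀`.
`Lam B E₀ = lT B` (`TE B E₀ = Tg`, see TGG (1), (2)). -/
def LngStmt : Prop := ∀ (ℓ : ℕ) [Fact ℓ.Prime] (M : Ideal (integralClosure ℤ ℂ)) [M.IsMaximal],
  (ℓ : integralClosure ℤ ℂ) ∈ M → ℓ ≠ 2 → ∀ (V₀ S G : Type) [CommGroup V₀] [Finite V₀] [Group S]
  [Finite S] [Group G] [Finite G] (φ : S →* MulAut V₀) (θ : S → FF M) (κ : S → ℂ) (d : ℕ)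
  (π : G →* V₀ ⋊[φ] S) (j : V₀ ⋊[φ] S →* G), Fq ℓ V₀ φ.range → Th ℓ M φ θ κ d → Cg ℓ φ π j →
  ln (BG φ θ d π j).e = lT (BG φ θ d π j)

/-- VNU: the numbers `Vx`, `nu` (hypotheses CEN, BLG, CHZ).

Proof.  `B = BG φ θ d π j`.  `C ⊤ = {j ⟨v, s⟩ : s ∈ ker φ}` (CEN: `x ∈ C ⊤`, `x (j (π x))⁻¹ ∈ K ∩ C ⊤`, `KW ⊤ = 1`).  By BLG for `C ⊤`, `S₁ = ker φ`, and CHZ the characters
of `b ⊤|C ⊤` are `j ⟨v, s⟩ ↦ lam v · κ s`, so `bh B ⊤ (j ⟨v, s⟩) = |C ⊤|⁻¹ ∑_lam d lam(v⁻¹) κ(s⁻¹)` (definitions of `bh`, `eh`), `= [v = 1] d |ker φ|⁻¹ κ(s⁻¹)`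
(`|lin V₀| = ℓ ^ 2 = |V₀|`, orthogonality; `|C ⊤| = ℓ ^ 2 |ker φ|`), and `bh B ⊤` is zero outside of `C ⊤`.  So
`Vx B χ x = d⁻¹ ∑_(s ∈ ker φ) d |ker φ|⁻¹ κ(s⁻¹) χ(i x · j ⟨1, s⟩) = |ker φ|⁻¹ ∑_s κ(s⁻¹) κ(s) f x = f x` (CHZ).  `nu B χ w = κ(1) f w/(κ(1) f 1)`. -/
def VnuStmt : Prop := ∀ (ℓ : ℕ) [Fact ℓ.Prime] (M : Ideal (integralClosure ℤ ℂ)) [M.IsMaximal],
  (ℓ : integralClosure ℤ ℂ) ∈ M → ∀ (V₀ S G : Type) [CommGroup V₀] [Finite V₀] [Group S]
  [Finite S] [Group G] [Finite G] (φ : S →* MulAut V₀) (θ : S → FF M) (κ : S → ℂ) (d : ℕ)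
  (π : G →* V₀ ⋊[φ] S) (j : V₀ ⋊[φ] S →* G), Fq ℓ V₀ φ.range → Th ℓ M φ θ κ d → Cg ℓ φ π j →
  ∀ (χ : G → ℂ) (f : V₀ → ℂ), (∀ v s, φ s = 1 → χ (j ⟨v, s⟩) = κ s * f v) →
  (∀ x, Vx (BG φ θ d π j) χ x = f x) ∧
  (f 1 ≠ 0 → ∀ w, nu (BG φ θ d π j) χ w = f w / f 1)

/-- LLW: linear characters of `V₀` which are trivial on a line `W ∈ R` (hypothesis PRB of `Stmts3.lean`).

Proof.  `n = nS E₀ W`, `A` = the kernel of `pr ℓ E₀ W`.  `pr` maps `V₀` onto `W` (PRB (1), (5)), so `|A| = ℓ`, `A ∩ W = 1`, `V₀ = W × A`; `St E₀ W` maps `A` to itself (PRB (3))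
and a `τ ∈ St E₀ W` which fixes an `a ∈ A`, `a ≠ 1`, is `1` (PRB (9)).  (1) There is `lam ∈ lin V₀`, trivial on `W`, with `lam x ≠ 1` for some `x`
(characters of `V₀/W`, or `lam' ∘ (v ↦ v (pr v)⁻¹)`).  (2) `lam x = lam (x (pr x)⁻¹)`, so `lam` is not trivial on `A`, of prime order: `lam a ≠ 1` for `a ∈ A`, `a ≠ 1`.
(3) If `lam (τ v) = lam v` for all `v`: `τ a a⁻¹ ∈ A`, `lam (τ a a⁻¹) = 1`, so `τ a = a`, `τ = 1`.  (4) `n = ℓ - 1`: for `v ∈ W` all terms are `1`.  `v = w a`, `a ≠ 1`: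
`lam (τ v) = lam (τ a)`, `τ ↦ τ a` is injective, so a bijection of `St E₀ W` onto `A - 1`, and `∑_(a' ∈ A - 1) lam a' = -1`.
(5) `n ≠ ℓ - 1`: let `f x = ∑_τ lam (τ x)`.  If `f` were a constant `c` on `A - 1`: `0 = ∑_(a ∈ A) f a = n + (ℓ - 1) c` (`∑_a lam (τ a) = 0`), and
`∑_(a ∈ A) |f a|² = n² + (ℓ - 1) |c|² = ℓ n` (the `lam ∘ τ` are distinct on `A` by (3), orthogonality).  So `n² + n²/(ℓ - 1) = ℓ n`, `n = ℓ - 1`.  The elements of `A - 1` are
not in `W`. -/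
def LlwStmt : Prop := ∀ (ℓ : ℕ) [Fact ℓ.Prime] (V₀ : Type) [CommGroup V₀] [Finite V₀]
  (E₀ : Subgroup (MulAut V₀)), Fq ℓ V₀ E₀ → ∀ W ∈ RL ℓ E₀,
  (∃ lam ∈ lin V₀, (∀ w ∈ W, lam w = 1) ∧ ∃ x, lam x ≠ 1) ∧
  ∀ lam ∈ lin V₀, (∀ w ∈ W, lam w = 1) → (∃ x, lam x ≠ 1) →
    (∀ x, pr ℓ E₀ W x = 1 → x ≠ 1 → lam x ≠ 1) ∧
    (∀ τ ∈ St E₀ W, (∀ v, lam (τ v) = lam v) → τ = 1) ∧
    (nS E₀ W = ℓ - 1 → ((∀ v ∈ W, ∑ᶠ τ : St E₀ W, lam ((τ : MulAut V₀) v) = (ℓ : ℂ) - 1) ∧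
      ∀ v, v ∉ W → ∑ᶠ τ : St E₀ W, lam ((τ : MulAut V₀) v) = -1)) ∧
    (nS E₀ W ≠ ℓ - 1 → ∃ x y, x ∉ W ∧ y ∉ W ∧ pr ℓ E₀ W x = 1 ∧ pr ℓ E₀ W y = 1 ∧
      ∑ᶠ τ : St E₀ W, lam ((τ : MulAut V₀) x) ≠ ∑ᶠ τ : St E₀ W, lam ((τ : MulAut V₀) y))

/-- XCG: the characters `xc` of the comparison datum (hypotheses CEN, BLG, TGG, IND, VNU, LLW).

Proof.  `E₀ = φ.range`, `S₁ = comap φ (St E₀ W)`, `S₁.map φ = St E₀ W`.  (m) Let `lam` be as in LLW.  By LLW (4) `xcG W x = xiL φ κ S₁ lam (π x)` for `x ∈ C W` (if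
`(π x).right ∉ ker φ` both are `0`).  IND (its hypothesis is LLW (3)), BLG: `xcG W ∈ Ch B W`.  VNU with `f v = ∑_τ lam (τ v)`: `nu = f w/f 1 = 1` for
`w ∈ W`.  (e) Let `t ∈ Tg`, `t = j ⟨u, s⟩` (TGG), `φ s = σ` (CEN (3), `i` injective).  `x ∈ C(σ W)` iff `t⁻¹ x t ∈ C(W)`.  `π (t⁻¹ x t) = ⟨u, s⟩⁻¹ (π x) ⟨u, s⟩`, its right component
is conjugate to the one of `π x` (`kc`); if that is in `ker φ` the left component is `φ s⁻¹ ((π x).left)`, which is in `W` iff `(π x).left ∈ σ W`; otherwise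
`κ` vanishes.  Degree: `xcG W 1 = κ 1 (ℓ - 1)`. -/
def XcgStmt : Prop := ∀ (ℓ : ℕ) [Fact ℓ.Prime] (M : Ideal (integralClosure ℤ ℂ)) [M.IsMaximal],
  (ℓ : integralClosure ℤ ℂ) ∈ M → ∀ (V₀ S G : Type) [CommGroup V₀] [Finite V₀] [Group S]
  [Finite S] [Group G] [Finite G] (φ : S →* MulAut V₀) (θ : S → FF M) (κ : S → ℂ) (d : ℕ)
  (π : G →* V₀ ⋊[φ] S) (j : V₀ ⋊[φ] S →* G), Fq ℓ V₀ φ.range → Th ℓ M φ θ κ d → Cg ℓ φ π j →
  Xc ℓ φ.range (BG φ θ d π j) (xcG ℓ κ π j) ∧ ∀ W, xcG ℓ κ π j W 1 = ((ℓ : ℂ) - 1) * d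

/-- EXG: exceptional characters of the comparison datum (hypotheses CEN, BLG, IND, VNU, LLW, XCG).

Proof.  `n = nS φ.range W`.  If `n = ℓ - 1`: `χ = xcG W` (XCG: `m`, degree).  Otherwise let `lam` be as in LLW, `χ x = xiL φ κ S₁ lam (π x)` for `x ∈ C W` and `0` elsewhere,
`S₁ = comap φ (St W)`.  IND, BLG: `χ ∈ Ch B W`.  VNU with `f v = ∑_(τ ∈ St W) lam (τ v)` (`j ⟨v, s⟩ ∈ C W` for `s ∈ ker φ`): `Vx B χ x = f x`, and LLW (5).  Degree:
`κ 1 · |St W| · lam 1 = n d`. -/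
def ExgStmt : Prop := ∀ (ℓ : ℕ) [Fact ℓ.Prime] (M : Ideal (integralClosure ℤ ℂ)) [M.IsMaximal],
  (ℓ : integralClosure ℤ ℂ) ∈ M → ∀ (V₀ S G : Type) [CommGroup V₀] [Finite V₀] [Group S]
  [Finite S] [Group G] [Finite G] (φ : S →* MulAut V₀) (θ : S → FF M) (κ : S → ℂ) (d : ℕ)
  (π : G →* V₀ ⋊[φ] S) (j : V₀ ⋊[φ] S →* G), Fq ℓ V₀ φ.range → Th ℓ M φ θ κ d → Cg ℓ φ π j →
  ∀ W ∈ RL ℓ φ.range, ∃ χ, Exc ℓ φ.range (BG φ θ d π j) (xcG ℓ κ π j) W χ ∧
    χ 1 = (nS φ.range W : ℂ) * d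

/-! ## 5. The outputs -/

/-- CGE (`CgeStmt` of `StmtsX.lean`): from SXA, SXL, SXB, CGS, CEN, PEG, SDG, TGG, LNG, XCG, EXG.

Proof.  SXA, SXB: `S`, `q`, `φ`, `θ`, `κ`, `d = B.D ⊤`, `φ.range = E₀`.  `U` is replaced by integers as in the proof of `cbg` (`Helper43_ASD/CBG.lean`, `SO.H15.nn`), `k = K + 1`.  CGS.
`B' = BG φ θ d π j`, `κ W = KW π j W`.  `PE`: SXL, PEG.  `Lam`: SXL, TGG.  `ln`: LNG.  The number: `|C W| d/(|C ⊤| n d) = KW W` (CEN).  `KW ⊤ = 1 = U ⊤`. -/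
def CgfStmt : Prop := CgeStmt

/-- FXC: a fixed character with trivial central character (hypotheses `CgeStmt`, `FxeStmt`).

Proof.  `N = {σ ∈ E₀ : mp σ W = W}` maps to the automorphism group of the cyclic group `W` of order `ℓ`, with the kernel `St E₀ W`; so `N = ⟨g⟩ St E₀ W`.  An element of `T` which
induces `τ ∈ St E₀ W` is in `C W`, so it fixes all `χ ∈ Ch B W` (class functions of `C W`, zero elsewhere; `t` normalises `C W`).  So a `χ` fixed by `g` (by one `t` inducing `g`,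
or by all of them: two of them differ by an element of `C(V)`) is fixed by all `σ ∈ N`.
(1) `g` acts trivially on `W`, `N = St E₀ W`: it remains to find a `χ ∈ Ch B W` with `nu = 1`: `i(W)` is a central `ℓ`-subgroup of `C W`, `p : C W → C W/i(W)`;
`push p (b W)` is an idempotent (`push_isIdem`), not zero (`psg`: a block), so it has a character `η`, and `η ∘ p` is a character of `b W` (`K9.PsiStmt`), trivial on `i(W)`.
(2) Otherwise `CgeStmt` with `K = 0`, `U = 1`: `B'`, `xc'`.  `xc' W` is fixed by `g` (`Xc.e`, `t = tt B' g`), `FxeStmt`: the number of the `χ ∈ Ch B W` with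
`ac B g χ = χ` is not `0`.  `nu B (ac B g χ) w = nu B χ (g⁻¹ w)` (`t⁻¹ i(w) t = i(g⁻¹ w)`), so `nu B χ (g⁻¹ w) = nu B χ w`; `nu B χ` is multiplicative on `W` (`i(W)` is central in `C W`), so it
is `1` on the elements `g⁻¹ w w⁻¹`, which generate `W` (`g` acts non trivially, `|W| = ℓ`). -/
def FxcStmt : Prop := ∀ (ℓ : ℕ) [Fact ℓ.Prime] (M : Ideal (integralClosure ℤ ℂ)) [M.IsMaximal],
  (ℓ : integralClosure ℤ ℂ) ∈ M → ℓ ≠ 2 → ∀ (V₀ G : Type) [CommGroup V₀] [Finite V₀] [Group G]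
  [Finite G] (E₀ : Subgroup (MulAut V₀)), Fq ℓ V₀ E₀ → ∀ B : Bk (FF M) V₀ G, Sd ℓ M E₀ B →
  ∀ W ∈ RL ℓ E₀, nS E₀ W = ℓ - 1 → ∃ χ ∈ Ch B W, (∀ w ∈ W, nu B χ w = 1) ∧
    ∀ σ ∈ E₀, mp σ W = W → ∀ t ∈ Tg B.i.range B.g, (∀ v, t * B.i v * t⁻¹ = B.i (σ v)) →
      (fun g => χ (t⁻¹ * g * t)) = χ

/-- XCH: `XceStmt` of `StmtsX.lean` (hypothesis FXC, and MPB of `Stmts3.lean`, CJD).

Proof.  For the `W ∈ RL ℓ E₀` with `nS E₀ W = ℓ - 1` (a set invariant under `E₀`, PRB (4)) choose a representative `r(W)` of the orbit of `W` (`r (mp σ W) = r W`), `s(W) ∈ E₀` with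
`mp (s W) (r W) = W` and `t(W) ∈ Tg` inducing `s(W)` (`sur`), `χ_r` for `r = r(W)` by FXC, and `xc W = fun g => χ_r (t(W)⁻¹ g t(W))`.  (m) `t` maps `Ch B r` onto `Ch B (mp s r)` (CJD:
`b (mp s r) = t b r t⁻¹`; see ACB in `Stmts3.lean`), `nu B (xc W) w = nu B χ_r (s⁻¹ w) = 1` for `w ∈ W = mp s r`.  (e) `t' = t(mp σ W)` and `t t(W)` both map `r` to `mp σ W`; `u = t'⁻¹ t t(W) ∈ Tg`
induces an element of `E₀` which maps `r` to `r`, so `χ_r (u⁻¹ y u) = χ_r y`; with `y = t'⁻¹ g t'`: `xc W (t⁻¹ g t) = χ_r ((t t(W))⁻¹ g (t t(W))) = χ_r (u⁻¹ y u) = xc (mp σ W) g`. -/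
def XchStmt : Prop := XceStmt

end Pool.Agent.PP.SE
end
end -- Pool.Agent.ASE.Stmts9

section -- Pool.Agent.Helper3_C2.PSN

/-!
# C2, module PSN: the image of a block modulo a central `ℓ`-subgroup is a block
-/

open scoped BigOperators

noncomputable section

namespace Pool.Agent.PP.C2.H3

open Pool.Agent.Helper51_AWC Pool.Agent.Helper79_WRA Pool.Agent.PP

section

variable {F A B : Type} [Field F] [Group A] [Group B] [Finite A] [Finite B]

theorem push_comp {C : Type} [Group C] [Finite C] (q : A →* C) (r : C →* B) (e : A → F) :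
    H75.push (r.comp q) e = H75.push r (H75.push q e) := by
  classical
  have := Fintype.ofFinite A
  have := Fintype.ofFinite C
  funext y
  have h1 : H75.push r (H75.push q e) y = ∑ c, H75.push q e c * (if r c = y then 1 else 0) := by
    rw [H75.push_eq]
    refine Finset.sum_congr rfl fun c _ => ?_
    split_ifs
    · rw [mul_one]
    · rw [mul_zero]
  rw [h1, H75.sum_push q e (fun c => if r c = y then 1 else 0), H75.push_eq]
  refine Finset.sum_congr rfl fun x _ => ?_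
  change (if r (q x) = y then e x else 0) = _
  split_ifs
  · rw [mul_one]
  · rw [mul_zero]

theorem blk_push_inj {p : A →* B} (hp : Function.Surjective p) (hk : p.ker = ⊥) {e : A → F}
    (he : IsBlk e) : IsBlk (H75.push p e) := by
  classical
  have := Fintype.ofFinite A
  have hinj : Function.Injective p := (MonoidHom.ker_eq_bot_iff p).1 hk
  let c : A ≃* B := MulEquiv.ofBijective p ⟨hinj, hp⟩
  have h1 : H75.push p e = fun b => e (c.symm b) := by
    funext b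
    rw [H75.push_eq, Finset.sum_eq_single (c.symm b)]
    · rw [if_pos]
      exact c.apply_symm_apply b
    · intro x _ hx
      rw [if_neg]
      intro h
      apply hx
      rw [← h]
      exact (c.symm_apply_apply x).symm
    · intro h
      exact absurd (Finset.mem_univ _) h
  rw [h1]
  exact H9.blk_tr c.symm he

end

theorem psn : PsnStmt := by
  intro ℓ _ F _ hF
  have key : ∀ n : ℕ, ∀ (A B : Type) [Group A] [Finite A] [Group B] [Finite B] (p : A →* B),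
      Function.Surjective p → IsPGroup ℓ p.ker → p.ker ≤ Subgroup.center A →
      Nat.card A = n → ∀ e : A → F, IsBlk e → IsBlk (H75.push p e) := by
    intro n
    induction n using Nat.strong_induction_on with
    | _ n ih =>
      intro A B _ _ _ _ p hp hl hc hn e he
      by_cases hk : p.ker = ⊥
      · exact blk_push_inj hp hk he
      · have hnt : Nontrivial p.ker := (Subgroup.nontrivial_iff_ne_bot _).2 hk
        have hdvd : ℓ ∣ Nat.card p.ker := by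
          obtain ⟨k, hk'⟩ := (IsPGroup.iff_card).1 hl
          rcases Nat.eq_zero_or_pos k with h0 | h0
          · exfalso
            rw [h0, pow_zero] at hk'
            have := Finite.one_lt_card (α := p.ker)
            omega
          · rw [hk']
            exact dvd_pow_self _ h0.ne'
        obtain ⟨z, hz⟩ := exists_prime_orderOf_dvd_card' ℓ hdvd
        have hz' : orderOf (z : A) = ℓ := by rw [Subgroup.orderOf_coe, hz]
        have hzc : (z : A) ∈ Subgroup.center A := hc z.2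
        have hZc : Subgroup.zpowers (z : A) ≤ Subgroup.center A :=
          Subgroup.zpowers_le.2 hzc
        have hZn : (Subgroup.zpowers (z : A)).Normal := by
          refine ⟨fun x hx g => ?_⟩
          rw [Subgroup.mem_center_iff.1 (hZc hx) g, mul_inv_cancel_right]
          exact hx
        have hZk : Subgroup.zpowers (z : A) ≤ p.ker := Subgroup.zpowers_le.2 z.2
        let q : A →* A ⧸ Subgroup.zpowers (z : A) := QuotientGroup.mk' _
        have hq : Function.Surjective q := QuotientGroup.mk'_surjective _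
        let r : A ⧸ Subgroup.zpowers (z : A) →* B :=
          QuotientGroup.lift _ p (fun x hx => hZk hx)
        have hrq : r.comp q = p := by
          ext x
          rfl
        have hr : Function.Surjective r := by
          intro b
          obtain ⟨a, ha⟩ := hp b
          exact ⟨q a, ha⟩
        have hqb : IsBlk (H75.push q e) :=
          CD2.H24.psb ℓ F hF A _ q hq (z : A) hz' hzc (QuotientGroup.ker_mk' _) e he
        have hrk : r.ker = p.ker.map q := by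
          ext y
          obtain ⟨x, rfl⟩ := hq y
          constructor
          · intro hy
            exact ⟨x, hy, rfl⟩
          · rintro ⟨x', hx', hxx⟩
            have h1 : r (q x') = 1 := hx'
            rw [hxx] at h1
            exact h1
        have hcard : Nat.card (A ⧸ Subgroup.zpowers (z : A)) < n := by
          rw [← hn, Subgroup.card_eq_card_quotient_mul_card_subgroup (Subgroup.zpowers (z : A)),
            Nat.card_zpowers, hz']
          have h2 : 2 ≤ ℓ := (Fact.out : ℓ.Prime).two_le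
          have h3 : 0 < Nat.card (A ⧸ Subgroup.zpowers (z : A)) := Nat.card_pos
          nlinarith
        have := ih _ hcard (A ⧸ Subgroup.zpowers (z : A)) B r hr (by rw [hrk]; exact hl.map q)
          (by
            rw [hrk]
            rintro y ⟨x, hx, rfl⟩
            rw [Subgroup.mem_center_iff]
            intro w
            obtain ⟨w', rfl⟩ := hq w
            rw [← map_mul, ← map_mul, Subgroup.mem_center_iff.1 (hc hx) w']) rfl
          (H75.push q e) hqb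
        rw [← push_comp, hrq] at this
        exact this
  intro A B _ _ _ _ p hp hl hc e he
  exact key _ A B p hp hl hc rfl e he

end Pool.Agent.PP.C2.H3
end
end -- Pool.Agent.Helper3_C2.PSN

section -- Pool.Agent.Helper53_AT3.PSG

/-!
# Squad AT3, module PSG: quotients of a block by a central `ℓ`-subgroup
-/

open scoped BigOperators

noncomputable section

namespace Pool.Agent.PP.T3.H53

theorem psg : PsgStmt := by
  intro ℓ _ F _ hF G H _ _ _ _ p hp hc hl e he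
  exact Pool.Agent.PP.C2.H3.psn ℓ F hF G H p hp hl hc e he

end Pool.Agent.PP.T3.H53
end
end -- Pool.Agent.Helper53_AT3.PSG

section -- Pool.Agent.Helper16_ASE.LNG

/-!
# Squad ASE, row LNG: the number of modular characters of the comparison block
-/

open scoped BigOperators

noncomputable section

namespace Pool.Agent.PP.SE.H16

open Pool.Agent.Helper51_AWC Pool.Agent.Helper79_WRA Pool.Agent.PP Pool.Agent.PP.KF
open Pool.Agent.PP.K9 Pool.Agent.PP.K9.H97 Pool.Agent.PP.H75 Pool.Agent.PP.T3 Pool.Agent.PP.SO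
open Pool.Agent.PP.SD

attribute [local instance] Ideal.Quotient.field

/-- the comparison group `V₀ ⋊ S` itself -/
theorem cg_id (ℓ : ℕ) [Fact ℓ.Prime] {V₀ S : Type} [CommGroup V₀] [Group S]
    (φ : S →* MulAut V₀) : Cg ℓ φ (MonoidHom.id (V₀ ⋊[φ] S)) (MonoidHom.id (V₀ ⋊[φ] S)) where
  sec _ := rfl
  ck := by
    have h1 : (MonoidHom.id (V₀ ⋊[φ] S)).ker = ⊥ := by
      rw [MonoidHom.ker_eq_bot_iff]
      exact fun a b h => h
    rw [h1, Subgroup.card_bot]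
    intro h
    exact (Fact.out : ℓ.Prime).one_lt.ne' (Nat.dvd_one.1 h)
  fix k hk _ := hk

/-- LNG -/
theorem lng (sbg : SbgStmt) (blg : BlgStmt) (tgg : TggStmt) (lmb : LmbStmt) : LngStmt := by
  intro ℓ hfact M _ hM hℓ V₀ S G _ _ _ _ _ _ φ θ κ d π j hF hT hC
  have hC' : Cg ℓ φ (MonoidHom.id (V₀ ⋊[φ] S)) (MonoidHom.id (V₀ ⋊[φ] S)) := cg_id ℓ φ
  have hfin : Finite (V₀ ⋊[φ] S) :=
    Finite.of_equiv (V₀ × S) (SemidirectProduct.equivProd (φ := φ)).symm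
  obtain ⟨B, hB⟩ : ∃ B, B = BG φ θ d π j := ⟨_, rfl⟩
  obtain ⟨B', hB'⟩ : ∃ B', B' = BG φ θ d (MonoidHom.id (V₀ ⋊[φ] S)) (MonoidHom.id (V₀ ⋊[φ] S)) :=
    ⟨_, rfl⟩
  have hS : Sb ℓ M φ.range B := by
    rw [hB]
    exact sbg ℓ M hM V₀ S G φ θ κ d π j hF hT hC
  have hS' : Sb ℓ M φ.range B' := by
    rw [hB']
    exact sbg ℓ M hM V₀ S _ φ θ κ d _ _ hF hT hC'
  obtain ⟨hTg, hTE⟩ := tgg ℓ M hM V₀ S G φ θ κ d π j hF hT hC
  obtain ⟨-, hTE'⟩ := tgg ℓ M hM V₀ S _ φ θ κ d _ _ hF hT hC'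
  rw [← hB] at hTg
  have hLam : ∀ E₁ ≤ φ.range, Lam B E₁ = Lam B' E₁ := by
    intro E₁ h1
    rw [hB, hB', (hTE E₁ h1).2, (hTE' E₁ h1).2]
  have hk : (IrrE M B.e).ncard = (IrrE M B'.e).ncard := by
    have h1 := (blg ℓ M hM V₀ S G φ θ κ d π j hF hT hC).2.1
    have h2 := (blg ℓ M hM V₀ S _ φ θ κ d _ _ hF hT hC').2.1
    rw [hB, hB']
    exact h1.trans h2.symm
  have hl := (lmb ℓ M hM hℓ V₀ G φ.range hF B hS).2.2.2.1
  obtain ⟨-, hln, -, hl', -⟩ := lmb ℓ M hM hℓ V₀ _ φ.range hF B' hS'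
  have hsum : ∑ᶠ v ∈ {v : V₀ | v ≠ 1}, Nat.card (Es φ.range v) * Lam B (Es φ.range v) =
      ∑ᶠ v ∈ {v : V₀ | v ≠ 1}, Nat.card (Es φ.range v) * Lam B' (Es φ.range v) := by
    refine finsum_congr fun v => finsum_congr fun _ => ?_
    rw [hLam (Es φ.range v) fun σ hσ => hσ.1]
  have hcard : 0 < Nat.card φ.range := Nat.card_pos
  have h3 : ln B.e = ln B'.e := by
    rw [hk, hl', hsum] at hl
    have h4 := Nat.add_right_cancel hl
    exact (Nat.eq_of_mul_eq_mul_left hcard h4).symm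
  -- `inl(V₀)` is normal
  have hnor : ((⊤ : Subgroup V₀).map B'.i).Normal := by
    constructor
    rintro _ ⟨v, -, rfl⟩ g
    rw [hB']
    refine ⟨φ g.right v, Subgroup.mem_top _, ?_⟩
    show SemidirectProduct.inl (φ g.right v) = g * SemidirectProduct.inl v * g⁻¹
    refine SemidirectProduct.ext ?_ ?_
    · rw [SemidirectProduct.mul_left, SemidirectProduct.mul_left, SemidirectProduct.mul_right,
        SemidirectProduct.left_inl, SemidirectProduct.right_inl, mul_one,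
        SemidirectProduct.inv_left, map_inv, map_inv, map_inv,
        MulAut.apply_inv_self]
      rw [mul_comm g.left, mul_inv_cancel_right]
      rfl
    · rw [SemidirectProduct.mul_right, SemidirectProduct.mul_right, SemidirectProduct.inv_right,
        SemidirectProduct.right_inl, SemidirectProduct.right_inl, mul_one, mul_inv_cancel]
  have htop : (⊤ : Subgroup V₀) ≠ ⊥ := by
    intro h
    have h1 : Nat.card (⊤ : Subgroup V₀) = 1 := by rw [h, Subgroup.card_bot]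
    rw [Subgroup.card_top, hF.cd] at h1
    have h2 := (Fact.out : ℓ.Prime).one_lt
    nlinarith
  have h5 : ln B'.e = Lam B' φ.range := hln ⊤ htop hnor
  have h6 : TE B φ.range = Tg B.i.range B.g := by
    ext x
    rw [hTg x, hB, (hTE φ.range le_rfl).1 x]
    constructor
    · rintro ⟨y, hy, -⟩
      exact ⟨y, hy⟩
    · rintro ⟨y, hy⟩
      exact ⟨y, hy, ⟨y.right, rfl⟩⟩
  have h7 : Lam B φ.range = lT B := by
    unfold Lam lT
    rw [h6]
  rw [← hB, h3, h5, ← hLam φ.range le_rfl, h7]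

end Pool.Agent.PP.SE.H16
end
end -- Pool.Agent.Helper16_ASE.LNG

section -- Pool.Agent.Helper2_ASE.CEN

/-!
# Row CEN: the centralisers in the comparison group
-/

open scoped BigOperators

noncomputable section

namespace Pool.Agent.PP.SE.H2

open Pool.Agent.Helper51_AWC Pool.Agent.Helper79_WRA Pool.Agent.PP Pool.Agent.PP.KF
open Pool.Agent.PP.K9 Pool.Agent.PP.K9.H97 Pool.Agent.PP.H75 Pool.Agent.PP.T3 Pool.Agent.PP.SO
open Pool.Agent.PP.SD Pool.Agent.PP.SE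

/-- the order of the preimage of a subgroup of the range -/
theorem card_comap {S T : Type} [Group S] [Group T] [Finite S] (φ : S →* T) (H : Subgroup T)
    (hH : H ≤ φ.range) : Nat.card (H.comap φ) = Nat.card φ.ker * Nat.card H := by
  let f : H.comap φ →* H := (φ.comp (H.comap φ).subtype).codRestrict H fun x => x.2
  have hf : Function.Surjective f := by
    rintro ⟨y, hy⟩
    obtain ⟨x, rfl⟩ := hH hy
    exact ⟨⟨x, hy⟩, rfl⟩
  have h1 := Subgroup.card_mul_index f.ker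
  rw [Subgroup.index_ker, MonoidHom.range_eq_top.2 hf, Subgroup.card_top] at h1
  rw [← h1]
  congr 1
  refine Nat.card_congr ⟨fun x => ⟨(x : H.comap φ), ?_⟩, fun x => ⟨⟨x, ?_⟩, ?_⟩, ?_, ?_⟩
  · have h2 := x.2
    rw [MonoidHom.mem_ker] at h2 ⊢
    exact congrArg Subtype.val h2
  · rw [Subgroup.mem_comap, MonoidHom.mem_ker.1 x.2]
    exact H.one_mem
  · rw [MonoidHom.mem_ker]
    exact Subtype.ext (MonoidHom.mem_ker.1 x.2)
  · intro x
    rfl
  · intro x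
    rfl

/-- a group with an `ℓ`-group acting by conjugation and with the only fixed point `1` -/
theorem card_mod {G : Type} [Group G] [Finite G] {ℓ : ℕ} [Fact ℓ.Prime] {V N : Subgroup G}
    (hV : IsPGroup ℓ V) (hN : ∀ v ∈ V, ∀ x ∈ N, v * x * v⁻¹ ∈ N)
    (hfix : ∀ x ∈ N, (∀ v ∈ V, v * x = x * v) → x = 1) : Nat.card N ≡ 1 [MOD ℓ] := by
  let act : MulAction V N :=
    { smul := fun v x => ⟨v * x * (v : G)⁻¹, hN v v.2 x x.2⟩
      one_smul := fun x => Subtype.ext (by change ((1 : V) : G) * x * ((1 : V) : G)⁻¹ = x; simp)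
      mul_smul := fun v w x => Subtype.ext (by
        change ((v * w : V) : G) * x * ((v * w : V) : G)⁻¹ = v * (w * x * (w : G)⁻¹) * (v : G)⁻¹
        push_cast
        group) }
  have h1 := hV.card_modEq_card_fixedPoints N
  have h2 : Nat.card (MulAction.fixedPoints V N) = 1 := by
    rw [Nat.card_eq_one_iff_unique]
    refine ⟨⟨?_⟩, ⟨⟨1, ?_⟩⟩⟩
    · have hone : ∀ a : MulAction.fixedPoints V N, ((a : N) : G) = 1 := by
        intro a
        refine hfix a a.1.2 fun v hv => ?_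
        have h3 := congrArg (fun y : N => (y : G)) (a.2 ⟨v, hv⟩)
        change v * ((a : N) : G) * v⁻¹ = ((a : N) : G) at h3
        rw [← mul_inv_eq_iff_eq_mul]
        exact h3
      intro a b
      exact Subtype.ext (Subtype.ext ((hone a).trans (hone b).symm))
    · intro v
      apply Subtype.ext
      change (v : G) * ((1 : N) : G) * (v : G)⁻¹ = ((1 : N) : G)
      simp
  rw [h2] at h1
  exact h1

theorem conj_inl {V₀ S : Type} [CommGroup V₀] [Group S] (φ : S →* MulAut V₀) (y : V₀ ⋊[φ] S)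
    (v : V₀) : y * SemidirectProduct.inl v * y⁻¹ = SemidirectProduct.inl (φ y.right v) := by
  rw [mul_inv_eq_iff_eq_mul]
  ext
  · simp only [SemidirectProduct.mul_left, SemidirectProduct.left_inl,
      SemidirectProduct.right_inl, map_one, MulAut.one_apply]
    exact mul_comm _ _
  · simp only [SemidirectProduct.mul_right, SemidirectProduct.right_inl, mul_one, one_mul]

theorem cen : CenStmt := by
  classical
  intro ℓ hl V₀ S G _ _ _ _ _ _ φ π j hq hc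
  have hl0 : 0 < ℓ := hl.out.pos
  have hjinj : Function.Injective j := fun a b h => by rw [← hc.sec a, h, hc.sec]
  have hi : ∀ v, iG j v = j (SemidirectProduct.inl v) := fun _ => rfl
  have hiinj : Function.Injective (iG j) := fun a b h =>
    SemidirectProduct.inl_injective (hjinj h)
  have hconj : ∀ y v, j y * iG j v * (j y)⁻¹ = iG j (φ y.right v) := by
    intro y v
    rw [hi, hi, ← map_mul, ← map_inv, ← map_mul, conj_inl]
  have hmem : ∀ (W : Subgroup V₀) (x : G), x ∈ CG j W ↔ ∀ w ∈ W, x * iG j w * x⁻¹ = iG j w := by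
    intro W x
    unfold CG
    rw [Subgroup.mem_centralizer_iff]
    constructor
    · intro h w hw
      rw [mul_inv_eq_iff_eq_mul]
      exact (h _ ⟨w, hw, rfl⟩).symm
    · rintro h _ ⟨w, hw, rfl⟩
      exact (mul_inv_eq_iff_eq_mul.1 (h w hw)).symm
  have hbot : ∀ k, π k = 1 → k ∈ CG j ⊤ → k = 1 := by
    intro k hk hkc
    refine hc.fix k hk fun v => ?_
    have := (hmem ⊤ k).1 hkc v (Subgroup.mem_top v)
    rw [mul_inv_eq_iff_eq_mul] at this
    exact this.symm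
  have hjC : ∀ (W : Subgroup V₀) y, j y ∈ CG j W ↔ φ y.right ∈ St φ.range W := by
    intro W y
    rw [hmem]
    constructor
    · intro h
      refine ⟨⟨_, rfl⟩, fun w hw => hiinj ?_⟩
      rw [← hconj]
      exact h w hw
    · intro h w hw
      rw [hconj, h.2 w hw]
  have hx : ∀ (W : Subgroup V₀), ∀ x ∈ CG j W, j (π x) ∈ CG j W ∧
      x * (j (π x))⁻¹ ∈ (π.ker ⊓ CG j W : Subgroup G) := by
    intro W x hxW
    have h1 : j (π x) ∈ CG j W := by
      rw [hmem]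
      intro w hw
      have h2 := congrArg (fun z => j (π z)) ((hmem W x).1 hxW w hw)
      simp only [map_mul, map_inv] at h2
      rw [hi, hc.sec] at h2
      exact h2
    refine ⟨h1, ⟨?_, (CG j W).mul_mem hxW ((CG j W).inv_mem h1)⟩⟩
    change x * (j (π x))⁻¹ ∈ π.ker
    rw [MonoidHom.mem_ker, map_mul, map_inv, hc.sec, mul_inv_cancel]
  have hmap : ∀ W : Subgroup V₀, (CG j W).map π = RS φ ((St φ.range W).comap φ) := by
    intro W
    ext y
    constructor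
    · rintro ⟨x, hxW, rfl⟩
      exact (hjC W (π x)).1 (hx W x hxW).1
    · intro hy
      exact ⟨j y, (hjC W y).2 hy, hc.sec y⟩
  have hrg : ∀ W : Subgroup V₀, (iG j).range ≤ CG j W := by
    rintro W _ ⟨v, rfl⟩
    rw [hmem]
    intro w _
    rw [← map_mul, ← map_inv, ← map_mul, mul_inv_cancel_comm]
  have hnorm : ∀ (W : Subgroup V₀), ∀ v ∈ (iG j).range, ∀ x ∈ (π.ker ⊓ CG j W : Subgroup G),
      v * x * v⁻¹ ∈ (π.ker ⊓ CG j W : Subgroup G) := by
    intro W v hv x hx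
    exact ⟨(MonoidHom.normal_ker π).conj_mem x hx.1 v,
      (CG j W).mul_mem ((CG j W).mul_mem (hrg W hv) hx.2) ((CG j W).inv_mem (hrg W hv))⟩
  have hpg : IsPGroup ℓ (iG j).range := by
    rintro ⟨_, v, rfl⟩
    refine ⟨1, Subtype.ext ?_⟩
    change (iG j v) ^ ℓ ^ 1 = 1
    rw [pow_one, ← map_pow, hq.ex, map_one]
  have hKW : ∀ W : Subgroup V₀, KW π j W ≡ 1 [MOD ℓ] := by
    intro W
    refine card_mod hpg (hnorm W) fun x hx h => ?_
    refine hc.fix x hx.1 fun v => ?_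
    exact h _ ⟨v, rfl⟩
  have hKT : KW π j ⊤ = 1 := by
    unfold KW
    have : (π.ker ⊓ CG j ⊤ : Subgroup G) = ⊥ := by
      rw [eq_bot_iff]
      intro k hk
      exact hbot k hk.1 hk.2
    rw [this, Subgroup.card_bot]
  have hcard : ∀ W : Subgroup V₀, Nat.card (CG j W) =
      ℓ ^ 2 * Nat.card ((St φ.range W).comap φ) * KW π j W := by
    intro W
    have e : CG j W ≃ (V₀ × (St φ.range W).comap φ) × (π.ker ⊓ CG j W : Subgroup G) :=
      { toFun := fun x => ((((π (x : G)).left, ⟨(π (x : G)).right,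
          (hjC W (π x)).1 (hx W x x.2).1⟩)), ⟨x * (j (π (x : G)))⁻¹, (hx W x x.2).2⟩)
        invFun := fun t => ⟨(t.2 : G) * j ⟨t.1.1, t.1.2⟩,
          (CG j W).mul_mem t.2.2.2 ((hjC W ⟨t.1.1, t.1.2⟩).2 t.1.2.2)⟩
        left_inv := fun x => by
          apply Subtype.ext
          change (x : G) * (j (π (x : G)))⁻¹ * j ⟨(π (x : G)).left, (π (x : G)).right⟩ = x
          have : (⟨(π (x : G)).left, (π (x : G)).right⟩ : V₀ ⋊[φ] S) = π (x : G) := rfl
          rw [this, inv_mul_cancel_right]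
        right_inv := fun t => by
          have h1 : π ((t.2 : G) * j ⟨t.1.1, t.1.2⟩) = ⟨t.1.1, t.1.2⟩ := by
            rw [map_mul, hc.sec, (MonoidHom.mem_ker).1 t.2.2.1, one_mul]
          refine Prod.ext (Prod.ext ?_ (Subtype.ext ?_)) (Subtype.ext ?_)
          · change (π ((t.2 : G) * j ⟨t.1.1, t.1.2⟩)).left = t.1.1
            rw [h1]
          · change (π ((t.2 : G) * j ⟨t.1.1, t.1.2⟩)).right = t.1.2
            rw [h1]
          · change (t.2 : G) * j ⟨t.1.1, t.1.2⟩ * (j (π ((t.2 : G) * j ⟨t.1.1, t.1.2⟩)))⁻¹ = t.2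
            rw [h1, mul_inv_cancel_right] }
    rw [Nat.card_congr e, Nat.card_prod, Nat.card_prod, hq.cd]
    rfl
  refine ⟨hiinj, hKT, hconj, fun W => ⟨hjC W, hx W, hmap W, hrg W, hcard W, ?_, ?_, ?_, ?_, ?_⟩⟩
  · exact card_comap φ (St φ.range W) fun x hx => hx.1
  · intro s hs
    rw [Subgroup.mem_comap, MonoidHom.mem_ker.1 hs]
    exact (St φ.range W).one_mem
  · ext s
    rw [Subgroup.mem_comap, MonoidHom.mem_ker]
    constructor
    · intro h
      exact MulEquiv.ext fun v => h.2 v (Subgroup.mem_top v)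
    · intro h
      rw [h]
      exact Subgroup.one_mem _
  · rintro rfl
    rw [Subgroup.eq_top_iff']
    intro s
    rw [Subgroup.mem_comap]
    refine ⟨⟨s, rfl⟩, fun w hw => ?_⟩
    rw [Subgroup.mem_bot.1 hw, map_one]
  · have h1 : 1 ≤ KW π j W := Nat.one_le_iff_ne_zero.2 (Nat.card_pos).ne'
    obtain ⟨q, hq'⟩ := (Nat.modEq_iff_dvd' h1).1 (hKW W).symm
    refine ⟨(q : ℚ), ?_, ?_⟩
    · change ¬ ℓ ∣ ((q : ℚ)).den
      rw [Rat.den_natCast]
      intro h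
      exact hl.out.one_lt.ne' (Nat.dvd_one.1 h)
    · have : KW π j W = 1 + ℓ * q := by omega
      rw [this]
      push_cast
      ring

end Pool.Agent.PP.SE.H2
end
end -- Pool.Agent.Helper2_ASE.CEN

section -- Pool.Agent.Helper43_ASE.FXC

/-!
# Squad ASE, row FXC: a fixed character with trivial central character
-/

open scoped BigOperators

noncomputable section

namespace Pool.Agent.PP.SE.H43

open Pool.Agent.Helper51_AWC Pool.Agent.Helper79_WRA Pool.Agent.PP Pool.Agent.PP.KF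
open Pool.Agent.PP.K9 Pool.Agent.PP.K9.H97 Pool.Agent.PP.H75 Pool.Agent.PP.T3 Pool.Agent.PP.SO
open Pool.Agent.PP.SD

attribute [local instance] Ideal.Quotient.field

/-- a character of `b W` which is trivial on `i(W)` -/
theorem triv_ex {ℓ : ℕ} [Fact ℓ.Prime] {M : Ideal (integralClosure ℤ ℂ)} [M.IsMaximal]
    (hM : (ℓ : integralClosure ℤ ℂ) ∈ M) {V₀ G : Type} [CommGroup V₀] [Finite V₀] [Group G]
    [Finite G] (hex : ∀ v : V₀, v ^ ℓ = 1) {E₀ : Subgroup (MulAut V₀)} {B : Bk (FF M) V₀ G}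
    (hB : Sb ℓ M E₀ B) (W : Subgroup V₀) : ∃ χ ∈ Ch B W, ∀ w ∈ W, nu B χ w = 1 := by
  classical
  have hF : GoodF ℓ (FF M) := H50.fld ℓ Fact.out M hM
  have hC : B.C W = Subgroup.centralizer ((W.map B.i : Subgroup G) : Set G) := rfl
  have hZC : W.map B.i ≤ B.C W := by
    rintro _ ⟨w, hw, rfl⟩
    rw [hC, Subgroup.mem_centralizer_iff]
    rintro _ ⟨w', hw', rfl⟩
    rw [← map_mul, ← map_mul, mul_comm]
  let Z : Subgroup (B.C W) := (W.map B.i).subgroupOf (B.C W)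
  have hZc : Z ≤ Subgroup.center (B.C W) := by
    rintro ⟨z, hz⟩ hz'
    have hz2 : z ∈ W.map B.i := hz'
    rw [Subgroup.mem_center_iff]
    rintro ⟨x, hx⟩
    apply Subtype.ext
    change x * z = z * x
    rw [hC, Subgroup.mem_centralizer_iff] at hx
    exact (hx z hz2).symm
  have hZn : Z.Normal := by
    refine ⟨fun x hx g => ?_⟩
    have h1 := Subgroup.mem_center_iff.1 (hZc hx) g
    rw [h1, mul_inv_cancel_right]
    exact hx
  have hZp : IsPGroup ℓ Z := by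
    rintro ⟨⟨z, hz⟩, hz'⟩
    obtain ⟨w, hw, hwz⟩ := (show z ∈ W.map B.i from hz')
    refine ⟨1, Subtype.ext (Subtype.ext ?_)⟩
    change z ^ ℓ ^ 1 = 1
    rw [pow_one, ← hwz, ← map_pow, hex, map_one]
  let p : B.C W →* B.C W ⧸ Z := QuotientGroup.mk' Z
  have hp : Function.Surjective p := QuotientGroup.mk'_surjective Z
  have hker : p.ker = Z := QuotientGroup.ker_mk' Z
  have hblk : IsBlk (fun t : B.C W => B.b W t) := (hB.lb W).blk.blk
  have h1 : IsBlk (push p (fun t : B.C W => B.b W t)) :=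
    T3.H53.psg ℓ (FF M) hF (B.C W) (B.C W ⧸ Z) p hp (hker.le.trans hZc)
      (by rw [hker]; exact hZp) _ hblk
  have h2 := K9.H3.lbd ℓ M hM (B.C W ⧸ Z) _ h1.1 h1.2.1
  have h3 : (IrrE M (push p (fun t : B.C W => B.b W t))).ncard ≠ 0 := by
    have := h2.1.trans h2.2
    omega
  obtain ⟨θ, hθ⟩ := Set.nonempty_of_ncard_ne_zero h3
  have h4 := (K9.H3.psi M (B.C W) (B.C W ⧸ Z) p hp (fun t : B.C W => B.b W t) hblk.1.1).1
  rw [h4] at hθ
  obtain ⟨hθ1, hθ2⟩ := hθ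
  obtain ⟨χ, hχ⟩ : ∃ χ : G → ℂ, χ = fun x => if h : x ∈ B.C W then θ (p ⟨x, h⟩) else 0 :=
    ⟨_, rfl⟩
  have hχ1 : ∀ (x : G) (h : x ∈ B.C W), χ x = θ (p ⟨x, h⟩) := by
    intro x h
    rw [hχ]
    exact dif_pos h
  have hχ0 : ∀ x : G, x ∉ B.C W → χ x = 0 := by
    intro x h
    rw [hχ]
    exact dif_neg h
  have hχr : (fun t : B.C W => χ t) = fun t => θ (p t) := by
    funext t
    exact hχ1 t t.2
  refine ⟨χ, ⟨hχ0, ?_⟩, ?_⟩
  · rw [hχr]
    exact hθ2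
  · intro w hw
    have hw1 : B.i w ∈ B.C W := hZC ⟨w, hw, rfl⟩
    have h5 : p ⟨B.i w, hw1⟩ = 1 := by
      rw [← MonoidHom.mem_ker, hker]
      exact ⟨w, hw, rfl⟩
    have h6 : p ⟨1, (B.C W).one_mem⟩ = 1 := map_one p
    unfold nu
    rw [hχ1 _ hw1, hχ1 1 (B.C W).one_mem, h5, h6]
    have h7 : (fun a => θ (p a)) ∈ Irr (B.C W) := hθ2.1
    have h8 : θ (p 1) ≠ 0 := irr_one_ne h7
    rw [map_one] at h8
    exact div_self h8

/-- the group of the automorphisms of a cyclic group of prime order is cyclic; restriction to `W` -/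
theorem gen_ex {ℓ : ℕ} [hℓ : Fact ℓ.Prime] {V₀ : Type} [CommGroup V₀] [Finite V₀]
    (E₀ : Subgroup (MulAut V₀)) (W : Subgroup V₀) (hW : Nat.card W = ℓ) :
    ∃ g ∈ E₀, mp g W = W ∧ ∀ σ ∈ E₀, mp σ W = W → ∃ k : ℕ, (g ^ k)⁻¹ * σ ∈ St E₀ W := by
  classical
  have hfA : Finite (MulAut V₀) := Finite.of_injective (fun σ : MulAut V₀ => (σ : V₀ → V₀))
    DFunLike.coe_injective
  have hmem : ∀ σ : MulAut V₀, mp σ W = W → ∀ w ∈ W, σ w ∈ W := by
    intro σ h w hw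
    rw [← h]
    exact ⟨w, hw, rfl⟩
  -- the stabiliser
  let N : Subgroup (MulAut V₀) :=
    { carrier := {σ | σ ∈ E₀ ∧ ∀ w, σ w ∈ W ↔ w ∈ W}
      one_mem' := ⟨E₀.one_mem, fun w => Iff.rfl⟩
      mul_mem' := fun {a b} ha hb => ⟨E₀.mul_mem ha.1 hb.1, fun w => by
        rw [MulAut.mul_apply, ha.2, hb.2]⟩
      inv_mem' := fun {a} ha => ⟨E₀.inv_mem ha.1, fun w => by
        have h1 := ha.2 (a⁻¹ w)
        rw [MulAut.apply_inv_self] at h1
        exact h1.symm⟩ }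
  have hN : ∀ σ : MulAut V₀, σ ∈ E₀ → mp σ W = W → σ ∈ N := by
    intro σ hσ h
    refine ⟨hσ, fun w => ⟨fun hw => ?_, hmem σ h w⟩⟩
    rw [← h] at hw
    obtain ⟨w', hw', h1⟩ := hw
    have h2 : w' = w := σ.injective h1
    rwa [← h2]
  have hN2 : ∀ σ ∈ N, mp σ W = W := by
    intro σ hσ
    ext x
    constructor
    · rintro ⟨w, hw, rfl⟩
      exact (hσ.2 w).2 hw
    · intro hx
      refine ⟨σ⁻¹ x, ?_, MulAut.apply_inv_self _ _ _⟩
      exact ((N.inv_mem hσ).2 x).2 hx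
  let r : N →* MulAut W :=
    { toFun := fun σ =>
        { toFun := fun w => ⟨(σ : MulAut V₀) w, (σ.2.2 w).2 w.2⟩
          invFun := fun w => ⟨(σ : MulAut V₀)⁻¹ w, ((N.inv_mem σ.2).2 w).2 w.2⟩
          left_inv := fun w => Subtype.ext (MulAut.inv_apply_self _ _ _)
          right_inv := fun w => Subtype.ext (MulAut.apply_inv_self _ _ _)
          map_mul' := fun w w' => Subtype.ext (map_mul _ _ _) }
      map_one' := MulEquiv.ext fun w => rfl
      map_mul' := fun σ τ => MulEquiv.ext fun w => rfl }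
  have hcW : IsCyclic W := isCyclic_of_prime_card (p := ℓ) hW
  have hcA : IsCyclic (MulAut W) := by
    have h1 : IsCyclic (ZMod (Nat.card W))ˣ := by
      rw [hW]
      exact ZMod.isCyclic_units_prime hℓ.out
    exact isCyclic_of_injective (IsCyclic.mulAutMulEquiv W).toMonoidHom
      (IsCyclic.mulAutMulEquiv W).injective
  have hcr : IsCyclic r.range := Subgroup.isCyclic r.range
  obtain ⟨⟨y, g, hg⟩, hy⟩ := hcr.exists_generator
  refine ⟨g, g.2.1, hN2 g g.2, fun σ hσ hσW => ?_⟩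
  have h1 := hy ⟨r ⟨σ, hN σ hσ hσW⟩, ⟨_, rfl⟩⟩
  rw [← mem_powers_iff_mem_zpowers] at h1
  obtain ⟨k, hk⟩ := h1
  refine ⟨k, ?_, ?_⟩
  · exact E₀.mul_mem (E₀.inv_mem (E₀.pow_mem g.2.1 k)) hσ
  · intro w hw
    have h2 : (y ^ k : MulAut W) = r ⟨σ, hN σ hσ hσW⟩ := congrArg Subtype.val hk
    rw [← hg, ← map_pow] at h2
    have h3 := congrArg (fun f : MulAut W => ((f ⟨w, hw⟩ : W) : V₀)) h2
    change ((g ^ k : N) : MulAut V₀) w = σ w at h3
    rw [Subgroup.coe_pow] at h3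
    rw [MulAut.mul_apply, ← h3, MulAut.inv_apply_self]

/-- row FXC -/
theorem fxc (cge : CgeStmt) (fxe : FxeStmt) (czb : CzbStmt) (acb : AcbStmt) : FxcStmt := by
  intro ℓ _ M _ hM hℓ2 V₀ G _ _ _ _ E₀ hq B hB W hWR hnS
  have hℓ : ℓ.Prime := Fact.out
  have hWc : Nat.card W = ℓ := hWR.1
  have hsb : Sb ℓ M E₀ B := hB.toSb
  obtain ⟨g, hg, hgW, hgen⟩ := gen_ex (ℓ := ℓ) E₀ W hWc
  obtain ⟨-, -, -, -, -, -, hz7, hz8⟩ := czb ℓ M hM hℓ2 V₀ G E₀ hq B hsb W
  obtain ⟨ha0, ha⟩ := acb ℓ M hM hℓ2 V₀ G E₀ hq B hsb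
  -- the elements of `St E₀ W` act trivially
  have hst : ∀ χ ∈ Ch B W, ∀ τ ∈ St E₀ W, ac B τ χ = χ := by
    intro χ hχ τ hτ
    have h1 := ha0 τ hτ.1
    have h2 : tt B τ ∈ B.C W := by
      change tt B τ ∈ Subgroup.centralizer ((W.map B.i : Subgroup G) : Set G)
      rw [Subgroup.mem_centralizer_iff]
      rintro _ ⟨w, hw, rfl⟩
      have h3 := h1.2 w
      rw [hτ.2 w hw, mul_inv_eq_iff_eq_mul] at h3
      exact h3.symm
    funext x
    have h3 := (hz7 χ hχ).2.2.2.2 (tt B τ)⁻¹ ((B.C W).inv_mem h2) x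
    rw [inv_inv] at h3
    exact h3
  -- a character fixed by `g` is fixed by the stabiliser of `W`
  have hfix : ∀ χ ∈ Ch B W, ac B g χ = χ → ∀ σ ∈ E₀, mp σ W = W →
      ∀ t ∈ Tg B.i.range B.g, (∀ v, t * B.i v * t⁻¹ = B.i (σ v)) →
        (fun x => χ (t⁻¹ * x * t)) = χ := by
    intro χ hχ hgχ σ hσ hσW t ht hts
    have hmul : ∀ a ∈ E₀, ∀ b ∈ E₀, ac B (a * b) χ = ac B a (ac B b χ) :=
      fun a ha1 b hb1 => ((ha W b hb1).2.2.1 χ hχ).2.2.1 a ha1
    have hpow : ∀ k : ℕ, ac B (g ^ k) χ = χ := by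
      intro k
      induction k with
      | zero =>
        rw [pow_zero]
        exact ((ha W 1 E₀.one_mem).2.2.1 χ hχ).2.1
      | succ k ih =>
        rw [pow_succ, hmul _ (E₀.pow_mem hg k) _ hg, hgχ, ih]
    obtain ⟨k, hk⟩ := hgen σ hσ hσW
    have h1 : ac B σ χ = χ := by
      have h2 : σ = g ^ k * ((g ^ k)⁻¹ * σ) := by rw [mul_inv_cancel_left]
      rw [h2, hmul _ (E₀.pow_mem hg k) _ hk.1, hst χ hχ _ hk, hpow]
    funext x
    have h2 := (ha W σ hσ).1 t ht hts χ hχ.1 (fun z hz y => (hz7 χ hχ).2.2.2.2 z hz y) x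
    rw [h1] at h2
    exact h2.symm
  by_cases htr : ∀ w ∈ W, g w = w
  · -- all of the stabiliser acts trivially
    obtain ⟨χ, hχ, hnu⟩ := triv_ex hM hq.ex hsb W
    exact ⟨χ, hχ, hnu, hfix χ hχ (hst χ hχ g ⟨hg, htr⟩)⟩
  · push Not at htr
    obtain ⟨w₀, hw₀, hne⟩ := htr
    obtain ⟨G', iG', iF', B', xc', κ', hB', -, hLam, -, hxc, -, -, -⟩ :=
      cge ℓ M hM hℓ2 V₀ G E₀ hq B hB 0 (fun _ => 1) rfl
        (fun _ _ => ⟨0, (SOR.Rl ℓ).zero_mem, by ring⟩) (fun _ _ _ _ => rfl)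
    have hsb' : Sb ℓ M E₀ B' := hB'.toSb
    have hcard := fxe ℓ M hM hℓ2 V₀ G G' E₀ hq B B' hsb hsb' hLam W hWc g hg hgW
    have hfin' : {χ | χ ∈ Ch B' W ∧ ac B' g χ = χ}.Finite :=
      (czb ℓ M hM hℓ2 V₀ G' E₀ hq B' hsb' W).2.2.2.2.2.2.2.subset fun χ h => h.1
    have hmem' : xc' W ∈ {χ | χ ∈ Ch B' W ∧ ac B' g χ = χ} := by
      refine ⟨(hxc.m W hWR hnS).1, ?_⟩
      obtain ⟨ha0', -⟩ := acb ℓ M hM hℓ2 V₀ G' E₀ hq B' hsb'
      have h1 := ha0' g hg
      have h2 := hxc.e W hWR hnS g hg (tt B' g) h1.1 h1.2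
      rw [hgW] at h2
      exact h2.symm
    have hne' : {χ | χ ∈ Ch B' W ∧ ac B' g χ = χ}.ncard ≠ 0 := by
      intro h0
      rw [Set.ncard_eq_zero hfin'] at h0
      rw [h0] at hmem'
      exact hmem'
    rw [← hcard] at hne'
    obtain ⟨χ, hχ, hgχ⟩ := Set.nonempty_of_ncard_ne_zero hne'
    refine ⟨χ, hχ, ?_, hfix χ hχ hgχ⟩
    obtain ⟨hz71, hz72, hz73, -, -⟩ := hz7 χ hχ
    have hnug : ∀ w, nu B χ (g w) = nu B χ w := by
      intro w
      have h1 := ((ha W g hg).2.2.1 χ hχ).2.2.2.1 w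
      rwa [hgχ] at h1
    have hgw : g w₀ ∈ W := by
      have h1 : g w₀ ∈ mp g W := ⟨w₀, hw₀, rfl⟩
      rwa [hgW] at h1
    -- the kernel of the central character
    let Kn : Subgroup V₀ :=
      { carrier := {w | w ∈ W ∧ nu B χ w = 1}
        one_mem' := ⟨W.one_mem, hz72⟩
        mul_mem' := fun {a b} ha1 hb1 => ⟨W.mul_mem ha1.1 hb1.1, by
          rw [(hz73 a ha1.1).2.2 b hb1.1, ha1.2, hb1.2, mul_one]⟩
        inv_mem' := fun {a} ha1 => ⟨W.inv_mem ha1.1, by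
          have h1 := (hz73 a ha1.1).2.2 a⁻¹ (W.inv_mem ha1.1)
          rw [mul_inv_cancel, hz72, ha1.2, one_mul] at h1
          exact h1.symm⟩ }
    have hy : g w₀ * w₀⁻¹ ∈ Kn := by
      refine ⟨W.mul_mem hgw (W.inv_mem hw₀), ?_⟩
      rw [(hz73 _ hgw).2.2 _ (W.inv_mem hw₀), hnug, ← (hz73 _ hw₀).2.2 _ (W.inv_mem hw₀),
        mul_inv_cancel, hz72]
    have hy1 : g w₀ * w₀⁻¹ ≠ 1 := by
      intro h
      exact hne (mul_inv_eq_one.1 h)
    have hKW : Kn ≤ W := fun w hw => hw.1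
    have hKe : Kn = W := by
      have h1 : Nat.card Kn ∣ ℓ := hWc ▸ Subgroup.card_dvd_of_le hKW
      rcases (Nat.dvd_prime hℓ).1 h1 with h2 | h2
      · exfalso
        rw [Subgroup.card_eq_one] at h2
        rw [h2, Subgroup.mem_bot] at hy
        exact hy1 hy
      · exact Subgroup.eq_of_le_of_card_ge hKW (by rw [h2, hWc])
    intro w hw
    rw [← hKe] at hw
    exact hw.2

end Pool.Agent.PP.SE.H43
end
end -- Pool.Agent.Helper43_ASE.FXC

section -- Pool.Agent.Helper79_ASO.DGV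

/-!
# Squad ASO, row DGV: the `ℓ`-parts of the degrees
-/

open scoped BigOperators

set_option autoImplicit false

noncomputable section

namespace Pool.Agent.PP.SO.H79

open Pool.Agent.Helper51_AWC Pool.Agent.Helper79_WRA Pool.Agent.PP Pool.Agent.PP.KF
open Pool.Agent.PP.K9 Pool.Agent.PP.K9.H97 Pool.Agent.PP.H75 Pool.Agent.PP.T3

attribute [local instance] Ideal.Quotient.field

/-- natural numbers prime to `ℓ` are units of the local ring -/
theorem inv_mem {M : Ideal (integralClosure ℤ ℂ)} [M.IsMaximal] {ℓ : ℕ} (hℓ : ℓ.Prime)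
    (hM : (ℓ : integralClosure ℤ ℂ) ∈ M) {n : ℕ} (hn : ¬ ℓ ∣ n) : ((n : ℂ))⁻¹ ∈ RM M := by
  have h1 : rr M ((n : ℤ) : ℂ) ≠ 0 := by
    intro h
    exact hn (by exact_mod_cast (dvd_of_rr hℓ hM).1 h)
  have h2 := (inv_RM (rr_int (M := M) (n : ℤ)).1 h1).1
  simpa using h2

/-- rational numbers with denominator prime to `ℓ` are in the local ring -/
theorem rl_mem {M : Ideal (integralClosure ℤ ℂ)} [M.IsMaximal] {ℓ : ℕ} [Fact ℓ.Prime]
    (hM : (ℓ : integralClosure ℤ ℂ) ∈ M) {q : ℚ} (hq : q ∈ SOR.Rl ℓ) : (q : ℂ) ∈ RM M := by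
  have h1 : ¬ ℓ ∣ q.den := hq
  rw [Rat.cast_def, div_eq_mul_inv]
  exact Subring.mul_mem _ (intCast_mem (RM M) _) (inv_mem Fact.out hM h1)

/-- `(1 + ℓ q)⁻¹` is in the local ring -/
theorem rl_inv {M : Ideal (integralClosure ℤ ℂ)} [M.IsMaximal] {ℓ : ℕ} [Fact ℓ.Prime]
    (hM : (ℓ : integralClosure ℤ ℂ) ∈ M) {q : ℚ} (hq : q ∈ SOR.Rl ℓ) :
    (((1 + ℓ * q : ℚ) : ℂ))⁻¹ ∈ RM M := by
  have hℓ : ℓ.Prime := Fact.out
  have h1 : ¬ ℓ ∣ q.den := hq
  have hd : (q.den : ℂ) ≠ 0 := by exact_mod_cast q.den_nz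
  have hn : ¬ (ℓ : ℤ) ∣ ((q.den : ℤ) + ℓ * q.num) := by
    intro h
    have h2 : (ℓ : ℤ) ∣ (q.den : ℤ) := (Int.dvd_add_left (Dvd.intro _ rfl)).1 h
    exact h1 (by exact_mod_cast h2)
  have h3 : (((1 + ℓ * q : ℚ) : ℂ))⁻¹ = (q.den : ℂ) * (((q.den : ℤ) + ℓ * q.num : ℤ) : ℂ)⁻¹ := by
    have h4 : (((1 + ℓ * q : ℚ) : ℂ)) = (((q.den : ℤ) + ℓ * q.num : ℤ) : ℂ) * (q.den : ℂ)⁻¹ := by
      push_cast
      rw [show (q : ℂ) = (q.num : ℂ) / (q.den : ℂ) from Rat.cast_def q]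
      field_simp
    rw [h4, mul_inv, inv_inv, mul_comm]
  rw [h3]
  refine Subring.mul_mem _ (natCast_mem (RM M) _) ?_
  have h5 : rr M (((q.den : ℤ) + ℓ * q.num : ℤ) : ℂ) ≠ 0 := by
    intro h
    exact hn ((dvd_of_rr hℓ hM).1 h)
  exact (inv_RM (rr_int (M := M) _).1 h5).1

theorem top_ne {ℓ : ℕ} [Fact ℓ.Prime] {V₀ : Type} [CommGroup V₀] [Finite V₀]
    {E₀ : Subgroup (MulAut V₀)} (hF : Fr ℓ V₀ E₀) : (⊤ : Subgroup V₀) ≠ ⊥ := by
  intro h
  have hℓ : ℓ.Prime := Fact.out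
  have h1 : Nat.card (⊤ : Subgroup V₀) = 1 := by rw [h]; simp
  rw [Subgroup.card_top, hF.cd] at h1
  have := hℓ.one_lt
  nlinarith

theorem C_top {F V₀ G : Type} [CommGroup V₀] [Group G] (B : Bk F V₀ G) :
    B.C ⊤ = Subgroup.centralizer (B.i.range : Set G) := by
  unfold Bk.C
  rw [← MonoidHom.range_eq_map]

/-- the local block of the whole group is `g` -/
theorem b_top {ℓ : ℕ} {M : Ideal (integralClosure ℤ ℂ)} [M.IsMaximal] {V₀ G : Type}
    [CommGroup V₀] [Finite V₀] [Group G] [Finite G] {E₀ : Subgroup (MulAut V₀)}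
    {B : Bk (FF M) V₀ G} (hB : Sb ℓ M E₀ B) : B.b ⊤ = B.g := by
  have h1 := hB.lb ⊤
  have hC : Subgroup.centralizer (((⊤ : Subgroup V₀).map B.i : Subgroup G) : Set G) =
      Subgroup.centralizer (B.i.range : Set G) := by
    rw [← MonoidHom.range_eq_map]
  have h2 : Bx (Subgroup.centralizer (B.i.range : Set G)) (B.b ⊤) := by
    rw [← hC]
    exact h1.blk
  have h3 : br B.i.range (B.b ⊤) = B.b ⊤ := by
    funext x
    by_cases hx : x ∈ Subgroup.centralizer (B.i.range : Set G)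
    · unfold br
      rw [if_pos hx]
    · rw [h2.supp x hx]
      unfold br
      rw [if_neg hx]
  rcases h2.dich hB.ld.gam with h | h
  · exact h
  · exfalso
    apply hB.ld.gam.ne
    have h4 := h1.gam
    rw [h3, h] at h4
    exact h4.symm

theorem dgv (hta : HTaStmt) : DgvStmt := by
  intro ℓ _ M _ hM V₀ G _ _ _ _ E₀ hF B hB W hW
  have hℓ : ℓ.Prime := Fact.out
  have hsb := hB.toSb
  have hb := b_top hsb
  have hD := hB.dg ⊤ (top_ne hF)
  have hDW := hB.dg W hW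
  rw [hb, C_top B] at hD
  obtain ⟨m, hm, hc⟩ := hta ℓ M hM G B.e B.i.range B.g hsb.ld (B.D ⊤) hD
  rw [← C_top B] at hc
  have hV : Nat.card B.i.range = ℓ ^ 2 := by
    rw [← hF.cd]
    exact (Nat.card_congr (MonoidHom.ofInjective hsb.inj).toEquiv).symm
  rw [hV] at hc
  obtain ⟨q, hq, hU⟩ := hB.un W hW
  have hs := hB.sg W hW
  have hS2 : (B.S W : ℚ) * B.S W = 1 := by
    rcases hs with h | h <;> rw [h] <;> norm_num
  have hS3 : (B.S W : ℂ) * B.S W = 1 := by exact_mod_cast hS2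
  have hℓ0 : (ℓ : ℂ) ≠ 0 := by exact_mod_cast hℓ.ne_zero
  have hm0 : (m : ℂ) ≠ 0 := by
    intro h
    have : m = 0 := by exact_mod_cast h
    exact hm (this ▸ dvd_zero ℓ)
  have hD0 : (B.D ⊤ : ℂ) ≠ 0 := by exact_mod_cast hD.1.ne'
  have hDW0 : (B.D W : ℂ) ≠ 0 := by exact_mod_cast hDW.1.ne'
  have hcW : (Nat.card (B.C W) : ℂ) ≠ 0 := by exact_mod_cast Nat.card_pos.ne'
  have hcc : (Nat.card (B.C ⊤) : ℂ) = ℓ ^ 2 * B.D ⊤ * m := by exact_mod_cast hc
  have hUc : ((1 + ℓ * q : ℚ) : ℂ) =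
      B.S W * Nat.card (B.C W) * B.D ⊤ / (Nat.card (B.C ⊤) * B.D W) := by
    rw [← hU]
    unfold Bk.U
    push_cast
    rfl
  have hU0 : ((1 + ℓ * q : ℚ) : ℂ) = B.S W * (Nat.card (B.C W) / (ℓ ^ 2 * B.D W)) * (m : ℂ)⁻¹ := by
    rw [hUc, hcc]
    field_simp
  have hS0 : (B.S W : ℂ) ≠ 0 := by
    intro h
    rw [h] at hS3
    norm_num at hS3
  have e1 : (Nat.card (B.C W) / (ℓ ^ 2 * B.D W) : ℂ) = B.S W * ((1 + ℓ * q : ℚ) : ℂ) * m := by
    rw [hU0]
    have : (B.S W : ℂ) * (B.S W * (Nat.card (B.C W) / (ℓ ^ 2 * B.D W)) * (m : ℂ)⁻¹) * m =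
        (B.S W * B.S W) * (Nat.card (B.C W) / (ℓ ^ 2 * B.D W)) * ((m : ℂ)⁻¹ * m) := by ring
    rw [this, hS3, inv_mul_cancel₀ hm0, one_mul, mul_one]
  have e2 : ((ℓ ^ 2 * B.D W / Nat.card (B.C W) : ℂ)) =
      B.S W * (((1 + ℓ * q : ℚ) : ℂ))⁻¹ * (m : ℂ)⁻¹ := by
    have h1 : ((ℓ ^ 2 * B.D W / Nat.card (B.C W) : ℂ)) =
        (Nat.card (B.C W) / (ℓ ^ 2 * B.D W) : ℂ)⁻¹ := by rw [inv_div]
    have h2 : (B.S W : ℂ)⁻¹ = B.S W := by
      rw [inv_eq_iff_eq_inv]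
      exact (inv_eq_of_mul_eq_one_left hS3).symm
    rw [h1, e1, mul_inv, mul_inv, h2]
  refine ⟨?_, ?_⟩
  · rw [e2]
    exact Subring.mul_mem _ (Subring.mul_mem _ (intCast_mem (RM M) _) (rl_inv hM hq))
      (inv_mem hℓ hM hm)
  · rw [e1]
    refine Subring.mul_mem _ (Subring.mul_mem _ (intCast_mem (RM M) _) ?_)
      (natCast_mem (RM M) _)
    push_cast
    exact Subring.add_mem _ (Subring.one_mem _) (Subring.mul_mem _ (natCast_mem (RM M) _)
      (rl_mem hM hq))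

end Pool.Agent.PP.SO.H79
end
end -- Pool.Agent.Helper79_ASO.DGV

section -- Pool.Agent.Helper47_ASE.SXB

/-!
# Squad ASE, row SXB: the block `θ` of defect zero
-/

open scoped BigOperators

set_option linter.unusedSectionVars false

noncomputable section

namespace Pool.Agent.PP.SE.H47

open Pool.Agent.Helper51_AWC Pool.Agent.Helper79_WRA Pool.Agent.PP Pool.Agent.PP.KF
open Pool.Agent.PP.K9 Pool.Agent.PP.K9.H97 Pool.Agent.PP.H75 Pool.Agent.PP.T3 Pool.Agent.PP.SO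
open Pool.Agent.PP.SD

attribute [local instance] Ideal.Quotient.field

section gen

/-- the sum over a subgroup -/
theorem sum_sub {F G : Type} [Field F] [Group G] [Fintype G] (H : Subgroup G) [Fintype H]
    (f : G → F) (hf : ∀ g, g ∉ H → f g = 0) : ∑ g : H, f g = ∑ g : G, f g := by
  classical
  have h1 : ∑ g : H, f g = ∑ g ∈ Finset.univ.filter (fun g : G => g ∈ H), f g := by
    rw [← Finset.sum_subtype (Finset.univ.filter (fun g : G => g ∈ H)) (fun x => by simp) f]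
  rw [h1]
  refine Finset.sum_subset (Finset.filter_subset _ _) fun g _ hg => ?_
  exact hf g (fun h' => hg (Finset.mem_filter.2 ⟨Finset.mem_univ _, h'⟩))

/-- the restriction of the image to the kernel -/
theorem push_res {F G S Q : Type} [Field F] [Group G] [Finite G] [Group S] [Finite S] [Group Q]
    {T C : Subgroup G} (hCT : C ≤ T) (q : T →* S) (φ : S →* Q) (p : C →* φ.ker)
    (hp : ∀ c : C, (p c : S) = q ⟨c, hCT c.2⟩) (g : G → F) (hg : ∀ x, x ∉ C → g x = 0) :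
    (fun t : φ.ker => push q (fun t : T => g t) t) = push p (fun c : C => g c) := by
  classical
  have : Fintype G := Fintype.ofFinite G
  have : Fintype T := Fintype.ofFinite T
  have : Fintype C := Fintype.ofFinite C
  funext y
  rw [push_eq, push_eq]
  let f : G → F := fun x => if h : x ∈ T then (if q ⟨x, h⟩ = y then g x else 0) else 0
  have h1 : ∀ x : T, (if q x = y then g x else 0) = f x := by
    intro x
    show _ = dite _ _ _
    rw [dif_pos x.2]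
  have hf : ∀ x, x ∉ C → f x = 0 := by
    intro x hx
    show dite _ _ _ = _
    by_cases h : x ∈ T
    · rw [dif_pos h, hg x hx]
      split_ifs <;> rfl
    · rw [dif_neg h]
  rw [Finset.sum_congr rfl fun x _ => h1 x,
    sum_sub T f (fun x hx => hf x (fun h => hx (hCT h))), ← sum_sub C f hf]
  refine Finset.sum_congr rfl fun x _ => ?_
  show dite _ _ _ = _
  rw [dif_pos (hCT x.2)]
  have h3 : p x = y ↔ q ⟨x, hCT x.2⟩ = y := by
    rw [← hp x]
    exact Subtype.ext_iff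
  by_cases h4 : p x = y
  · rw [if_pos h4, if_pos (h3.1 h4)]
  · rw [if_neg h4, if_neg (fun h => h4 (h3.2 h))]

/-- the image under an automorphism which fixes the function -/
theorem push_aut {F H : Type} [Field F] [Group H] [Finite H] (α : MulAut H) (b : H → F)
    (hb : ∀ x, b (α x) = b x) : push (α : H ≃* H).toMonoidHom b = b := by
  classical
  have : Fintype H := Fintype.ofFinite H
  funext y
  rw [push_eq]
  have h1 : ∀ x : H, (if (α : H ≃* H).toMonoidHom x = y then b x else 0) =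
      if x = α⁻¹ y then b x else 0 := by
    intro x
    refine if_congr ?_ rfl rfl
    show α x = y ↔ x = α⁻¹ y
    rw [MulAut.inv_apply, MulEquiv.eq_symm_apply]
  rw [Finset.sum_congr rfl fun x _ => h1 x, Finset.sum_ite_eq' Finset.univ (α⁻¹ y) b,
    if_pos (Finset.mem_univ _)]
  have h2 := hb (α⁻¹ y)
  rw [MulAut.apply_inv_self] at h2
  exact h2.symm

end gen

/-- Row SXB. -/
theorem sxb : SxbStmt := by
  intro ℓ _ M _ hM _ V₀ G S _ _ _ _ _ _ E₀ hq B hB q φ hx _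
  have hF : GoodF ℓ (FF M) := H50.fld ℓ Fact.out M hM
  have hℓ : ℓ.Prime := Fact.out
  have wbo : WboStmt := K9.H82W.wbo (K9.H82.trb K9.H53.tra)
  have hbt : B.b ⊤ = B.g := SO.H79.b_top hB.toSb
  have hC : B.C ⊤ = Subgroup.centralizer (B.i.range : Set G) := SO.H79.C_top B
  have hgs : ∀ x, x ∉ B.C ⊤ → B.g x = 0 := by
    intro x hx'
    apply hB.ld.gam.supp
    rwa [← hC]
  have hgb : IsBlk (fun t : B.C ⊤ => B.g t) := by
    have h1 := (hB.lb ⊤).blk.blk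
    rw [hbt] at h1
    exact h1
  -- `C ≤ T`
  have hCT : B.C ⊤ ≤ Tg B.i.range B.g := by
    intro n hn
    rw [hC] at hn
    refine ⟨Subgroup.centralizer_le_normalizer _ hn, ?_⟩
    show ∀ x, B.g (n * x * n⁻¹) = B.g x
    exact (cj_eq_iff n B.g).1 (hB.ld.gam.ix.inv hn)
  have hker : ∀ t : Tg B.i.range B.g, φ (q t) = 1 ↔ (t : G) ∈ B.C ⊤ := by
    intro t
    rw [hC, Subgroup.mem_centralizer_iff]
    constructor
    · rintro h _ ⟨v, rfl⟩
      have h1 := hx.act t v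
      rw [h, MulAut.one_apply] at h1
      calc B.i v * (t : G) = (t : G) * B.i v * (t : G)⁻¹ * t := by rw [h1]
        _ = (t : G) * B.i v := by group
    · intro h
      apply MulEquiv.ext
      intro v
      apply hB.inj
      rw [← hx.act t v, MulAut.one_apply, ← h (B.i v) ⟨v, rfl⟩, mul_inv_cancel_right]
  let p : B.C ⊤ →* φ.ker := (q.comp (Subgroup.inclusion hCT)).codRestrict φ.ker (fun c => by
    rw [MonoidHom.mem_ker]
    exact (hker ⟨c, hCT c.2⟩).2 c.2)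
  have hpc : ∀ c : B.C ⊤, (p c : S) = q ⟨c, hCT c.2⟩ := fun c => rfl
  have hp : Function.Surjective p := by
    rintro ⟨s, hs⟩
    obtain ⟨t, rfl⟩ := hx.sur s
    exact ⟨⟨t, (hker t).1 hs⟩, Subtype.ext rfl⟩
  have hpk : p.ker = B.i.range.subgroupOf (B.C ⊤) := by
    ext c
    rw [MonoidHom.mem_ker, Subgroup.mem_subgroupOf, ← hx.ker ⟨c, hCT c.2⟩, ← hpc c]
    constructor
    · intro h
      rw [h]
      rfl
    · intro h
      exact Subtype.ext h
  have hres : (fun t : φ.ker => push q (fun t => B.g t) t) = push p (fun c : B.C ⊤ => B.g c) :=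
    push_res hCT q φ p hpc B.g hgs
  -- the defect group
  have hT : Tp ℓ (fun t : B.C ⊤ => B.g t) (B.i.range.subgroupOf (B.C ⊤)) := by
    have h1 := (SD.H25.lbd ℓ M hM V₀ G E₀ hq B hB.toSb ⊤).1.tp
    rw [hbt] at h1
    exact h1
  have hpp : IsPGroup ℓ p.ker := by
    rw [hpk]
    exact hT.pg
  have hpz : p.ker ≤ Subgroup.center (B.C ⊤) := by
    intro c hc
    rw [hpk, Subgroup.mem_subgroupOf] at hc
    rw [Subgroup.mem_center_iff]
    intro z
    have hz : (z : G) ∈ Subgroup.centralizer (B.i.range : Set G) := by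
      rw [← hC]
      exact z.2
    exact Subtype.ext (Subgroup.mem_centralizer_iff.1 hz _ hc).symm
  have hblk : IsBlk (fun t : φ.ker => push q (fun t => B.g t) t) := by
    rw [hres]
    exact T3.H53.psg ℓ (FF M) hF _ _ p hp hpz hpp _ hgb
  have hpush : ∀ Q : Subgroup φ.ker, IsPGroup ℓ Q →
      Gd (fun t : φ.ker => push q (fun t => B.g t) t) Q → Q = ⊥ := by
    intro Q hQ hgd
    rw [hres] at hgd
    have h1 : IsPGroup ℓ (Q.comap p) := (isPGroup_comap_iff hp hpp Q).2 hQ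
    have h2 : (Q.comap p).map p = Q := Subgroup.map_comap_eq_self_of_surjective hp Q
    have h3 : Gd (fun t : B.C ⊤ => B.g t) (Q.comap p) := by
      refine (K9.H02.pug ℓ (FF M) hF _ _ p hp hpp _ hgb.1 _ (Subgroup.ker_le_comap p Q) h1).2 ?_
      rw [h2]
      exact hgd
    have h4 := hT.mx _ h1 h3
    rw [card_comap hp, ← hpk] at h4
    have h5 : 0 < Nat.card p.ker := Nat.card_pos
    have h6 : Nat.card Q ≤ 1 := by
      have h7 : Nat.card p.ker * Nat.card Q ≤ Nat.card p.ker * 1 := by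
        rw [mul_one]
        exact h4
      exact Nat.le_of_mul_le_mul_left h7 h5
    have h8 : Nat.card Q = 1 := le_antisymm h6 Nat.card_pos
    exact Subgroup.card_eq_one.1 h8
  obtain ⟨κ₀, hκ, -⟩ := K9.H1.dzo wbo ℓ M hM φ.ker _ hblk hpush
  have hcl : IsCl (push q (fun t => B.g t)) := by
    refine push_isCl hx.sur ?_
    intro x y
    exact y.2.2 x
  have hθz : ∀ x, x ∉ φ.ker → push q (fun t => B.g t) x = 0 := by
    intro x hx'
    classical
    have : Fintype (Tg B.i.range B.g) := Fintype.ofFinite _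
    rw [push_eq]
    refine Finset.sum_eq_zero fun t _ => ?_
    by_cases h : q t = x
    · rw [if_pos h]
      apply hgs
      intro h'
      apply hx'
      rw [← h]
      exact (hker t).2 h'
    · rw [if_neg h]
  have hRw : Rw E₀ (⊤ : Subgroup V₀) := by
    refine ⟨?_, ?_⟩
    · intro h
      have h1 := Subgroup.card_top (G := V₀)
      rw [h, Subgroup.card_bot, hq.cd] at h1
      have h2 : 1 < ℓ ^ 2 := Nat.one_lt_pow (by norm_num) hℓ.one_lt
      omega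
    · intro σ _ h
      apply MulEquiv.ext
      intro v
      exact h v (Subgroup.mem_top v)
  have hdg := hB.dg ⊤ hRw
  rw [hbt] at hdg
  have hκ0 : κ₀ ∈ IrrE M (fun t : φ.ker => push q (fun t => B.g t) t) := by
    rw [hκ]
    rfl
  have hext : (fun t : φ.ker => PP.ext0 φ.ker κ₀ t) = κ₀ := by
    funext t
    unfold PP.ext0
    rw [dif_pos t.2]
  have hez : ∀ x, x ∉ φ.ker → PP.ext0 φ.ker κ₀ x = 0 := by
    intro x hx'
    unfold PP.ext0
    rw [dif_neg hx']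
  refine ⟨PP.ext0 φ.ker κ₀, ⟨⟨hθz, hblk⟩, hcl, ⟨?_, ?_, ?_⟩, hez, ?_, ?_, ?_, hdg.1⟩⟩
  · exact IsPGroup.of_bot
  · obtain ⟨x, hx'⟩ : ∃ x, (fun t : φ.ker => push q (fun t => B.g t) t) x ≠ 0 := by
      by_contra h
      push Not at h
      exact hblk.2.1 (funext h)
    refine ⟨x, ?_, hx'⟩
    rw [Subgroup.mem_centralizer_iff]
    intro y hy
    have hy' : y = 1 := hy
    rw [hy', one_mul, mul_one]
  · intro Q hQ hgd
    rw [hpush Q hQ hgd]
  · rw [hκ, hext]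
  · -- `kc`
    intro x y
    by_cases h : x ∈ φ.ker
    · let α : MulAut φ.ker := MulAut.conjNormal y
      have hα : ∀ t : φ.ker, ((α t : φ.ker) : S) = y * t * y⁻¹ := fun t =>
        MulAut.conjNormal_apply y t
      have h1 := (K9.H3.psi M φ.ker φ.ker (α : φ.ker ≃* φ.ker).toMonoidHom
        (MulEquiv.surjective α) _ hblk.1.1).1
      rw [push_aut α _ (fun t => by
        show push q (fun t => B.g t) (α t) = push q (fun t => B.g t) t
        rw [hα]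
        exact hcl _ _)] at h1
      have h2 := hκ0
      rw [h1] at h2
      have h3 := h2.2
      rw [hκ] at h3
      have h4 : (fun a => κ₀ ((α : φ.ker ≃* φ.ker).toMonoidHom a)) = κ₀ := h3
      have h5 := congrFun h4 ⟨x, h⟩
      have h6 : κ₀ (α ⟨x, h⟩) = κ₀ ⟨x, h⟩ := h5
      have e1 : PP.ext0 φ.ker κ₀ x = κ₀ ⟨x, h⟩ := congrFun hext ⟨x, h⟩
      have e2 : PP.ext0 φ.ker κ₀ (y * x * y⁻¹) = κ₀ (α ⟨x, h⟩) := by
        have h7 := congrFun hext (α ⟨x, h⟩)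
        rw [← h7]
        rfl
      rw [e1, e2, h6]
    · rw [hez x h, hez]
      intro h'
      apply h
      have h8 : φ.ker.Normal := inferInstance
      have h9 := h8.conj_mem _ h' y⁻¹
      have e : y⁻¹ * (y * x * y⁻¹) * y⁻¹⁻¹ = x := by group
      rwa [e] at h9
  · -- `kd`
    have h1 := (K9.H3.psi M _ _ p hp _ hgb.1.1).1
    have h2 := hκ0
    rw [hres, h1] at h2
    have h3 := hdg.2 _ h2.2
    have h4 : κ₀ (p 1) = B.D ⊤ := h3
    rw [map_one] at h4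
    rw [← h4]
    have h5 := congrFun hext 1
    exact h5

end Pool.Agent.PP.SE.H47
end
end -- Pool.Agent.Helper47_ASE.SXB

section -- Pool.Agent.Helper52_ASE.SXL

/-!
# Squad ASE, row SXL: the numbers `Lam`, the exponent
-/

open scoped BigOperators

noncomputable section

namespace Pool.Agent.PP.SE.H52

open Pool.Agent.Helper51_AWC Pool.Agent.Helper79_WRA Pool.Agent.PP Pool.Agent.PP.KF
open Pool.Agent.PP.K9 Pool.Agent.PP.K9.H97 Pool.Agent.PP.H75 Pool.Agent.PP.T3 Pool.Agent.PP.SO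
open Pool.Agent.PP.SD Pool.Agent.PP.SE

attribute [local instance] Ideal.Quotient.field

theorem sxl : SxlStmt := by
  intro ℓ hℓ M hMx hM V₀ G S _ _ _ _ _ _ E₀ hFq B hSb q φ hSx hφ
  have hF : GoodF ℓ (FF M) := H50.fld ℓ hℓ.out M hM
  refine ⟨?_, ?_⟩
  · intro E₁ hE
    have hφt : ∀ t : Tg B.i.range B.g, (t : G) ∈ TE B E₁ ↔ q t ∈ E₁.comap φ := by
      intro t
      rw [Subgroup.mem_comap]
      constructor
      · rintro ⟨_, σ, hσ, h⟩
        have : φ (q t) = σ := by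
          apply MulEquiv.ext
          intro v
          apply hSb.inj
          rw [← hSx.act t v, h v]
        rw [this]
        exact hσ
      · intro h
        exact ⟨t.2, φ (q t), h, hSx.act t⟩
    let p : TE B E₁ →* E₁.comap φ :=
      { toFun := fun t => ⟨q ⟨t.1, t.2.1⟩, (hφt ⟨t.1, t.2.1⟩).mp t.2⟩
        map_one' := Subtype.ext (map_one q)
        map_mul' := fun a b => Subtype.ext (map_mul q ⟨a.1, a.2.1⟩ ⟨b.1, b.2.1⟩) }
    have hp : Function.Surjective p := by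
      rintro ⟨s, hs⟩
      obtain ⟨t, rfl⟩ := hSx.sur s
      exact ⟨⟨t.1, (hφt t).mpr hs⟩, rfl⟩
    have hk : IsPGroup ℓ p.ker := by
      rintro ⟨t, ht⟩
      refine ⟨1, ?_⟩
      have h1 : q ⟨t.1, t.2.1⟩ = 1 := congrArg Subtype.val (MonoidHom.mem_ker.mp ht)
      obtain ⟨v, hv⟩ := (hSx.ker _).mp h1
      apply Subtype.ext
      apply Subtype.ext
      show (t : G) ^ ℓ ^ 1 = 1
      have hv' : B.i v = (t : G) := hv
      rw [pow_one, ← hv', ← map_pow, hFq.ex, map_one]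
    have h1 : ln (fun t : TE B E₁ => B.g t) = ln (push p (fun t : TE B E₁ => B.g t)) :=
      cnt_push H20.nls hF hp hk _
    have h2 : push p (fun t : TE B E₁ => B.g t) =
        fun t : E₁.comap φ => push q (fun t => B.g t) t := by
      funext y
      unfold push
      refine finsum_mem_eq_of_bijOn (s := {x : TE B E₁ | p x = y})
        (t := {x : Tg B.i.range B.g | q x = y}) (fun x => ⟨x.1, x.2.1⟩) ⟨?_, ?_, ?_⟩ ?_
      · intro x hx
        exact congrArg Subtype.val hx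
      · intro x _ x' _ h
        exact Subtype.ext (congrArg (fun z : Tg B.i.range B.g => (z : G)) h)
      · intro t ht
        have ht' : q t = y := ht
        refine ⟨⟨t.1, (hφt t).mpr (by rw [ht']; exact y.2)⟩, ?_, rfl⟩
        exact Subtype.ext ht'
      · intro x _
        rfl
    unfold Lam
    rw [h1, h2]
  · rintro r hr ⟨m, hPE⟩ s ⟨n, hs⟩
    obtain ⟨t, rfl⟩ := hSx.sur s
    have ho : orderOf (t : G) ≠ 0 := (orderOf_pos _).ne'
    obtain ⟨a, b, hb, hab⟩ := Nat.exists_eq_pow_mul_and_not_dvd ho ℓ hℓ.out.one_lt.ne'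
    have hb0 : 0 < b := Nat.pos_of_ne_zero fun h => hb (h ▸ dvd_zero _)
    have h1 : ((t : G) ^ b) ^ ℓ ^ r = 1 := by
      refine (hPE.el _ ⟨a, ?_⟩).2
      rw [← pow_mul, mul_comm, ← hab, pow_orderOf_eq_one]
    have h2 : ℓ ^ a ∣ ℓ ^ r := by
      rw [← pow_mul] at h1
      have h3 := orderOf_dvd_of_pow_eq_one h1
      rw [hab, mul_comm (ℓ ^ a) b] at h3
      exact Nat.dvd_of_mul_dvd_mul_left hb0 h3
    obtain ⟨c, -, hc⟩ := (Nat.dvd_prime_pow hℓ.out).mp (orderOf_dvd_of_pow_eq_one hs)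
    have h4 : orderOf (q t) ∣ ℓ ^ a * b := by
      rw [← hab, Subgroup.orderOf_coe]
      exact orderOf_map_dvd q t
    rw [hc] at h4
    have h5 : Nat.Coprime (ℓ ^ c) b := Nat.Coprime.pow_left c ((Nat.Prime.coprime_iff_not_dvd hℓ.out).mpr hb)
    have h6 : ℓ ^ c ∣ ℓ ^ a := h5.dvd_of_dvd_mul_right h4
    apply orderOf_dvd_iff_pow_eq_one.mp
    rw [hc]
    exact h6.trans h2

end Pool.Agent.PP.SE.H52
end
end -- Pool.Agent.Helper52_ASE.SXL

section -- Pool.Agent.Helper62_ASE.TPG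

/-!
# Squad ASE, row TPG: the defect group of the comparison block
-/

open scoped BigOperators

noncomputable section

namespace Pool.Agent.PP.SE.H62

open Pool.Agent.Helper51_AWC Pool.Agent.Helper79_WRA Pool.Agent.PP Pool.Agent.PP.KF
open Pool.Agent.PP.K9 Pool.Agent.PP.K9.H97 Pool.Agent.PP.H75 Pool.Agent.PP.T3 Pool.Agent.PP.SO
open Pool.Agent.PP.SD

attribute [local instance] Ideal.Quotient.field

theorem iG_apply {V₀ S G : Type} [CommGroup V₀] [Group S] [Group G] {φ : S →* MulAut V₀}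
    (j : V₀ ⋊[φ] S →* G) (v : V₀) : iG j v = j (SemidirectProduct.inl v) := rfl

theorem eq_one_of {A : Type} [Group A] {ℓ : ℕ} [Fact ℓ.Prime] {E : Subgroup A} [Finite E]
    (hE : ¬ ℓ ∣ Nat.card E) {a : A} {n : ℕ} (ha : a ∈ E) (h : a ^ ℓ ^ n = 1) : a = 1 := by
  have h1 : a ^ Nat.card E = 1 := by
    have h2 : (⟨a, ha⟩ : E) ^ Nat.card E = 1 := pow_card_eq_one'
    exact congrArg Subtype.val h2
  have h2 : (ℓ ^ n).Coprime (Nat.card E) :=
    Nat.Coprime.pow_left n ((Nat.Prime.coprime_iff_not_dvd Fact.out).2 hE)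
  have h3 : orderOf a ∣ Nat.gcd (ℓ ^ n) (Nat.card E) :=
    Nat.dvd_gcd (orderOf_dvd_of_pow_eq_one h) (orderOf_dvd_of_pow_eq_one h1)
  rw [h2.gcd_eq_one, Nat.dvd_one] at h3
  exact orderOf_eq_one_iff.1 h3

theorem right_pow {V₀ S : Type} [CommGroup V₀] [Group S] {φ : S →* MulAut V₀} (y : V₀ ⋊[φ] S)
    (n : ℕ) : (y ^ n).right = y.right ^ n := map_pow SemidirectProduct.rightHom y n

theorem tpg : TpgStmt := by
  intro ℓ hℓ M _ hM V₀ S G _ _ _ _ _ _ φ θ κ d π j hF hT hC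
  have hji : Function.Injective j := fun a b h => by rw [← hC.sec a, ← hC.sec b, h]
  have hii : Function.Injective (iG j) := fun a b h =>
    SemidirectProduct.inl_injective (hji h)
  have hcard : Nat.card (iG j).range = ℓ ^ 2 := by
    rw [← hF.cd]
    exact (Nat.card_congr (MonoidHom.ofInjective hii).toEquiv).symm
  refine ⟨?_, ?_, ?_⟩
  · rintro ⟨x, v, rfl⟩
    refine ⟨1, Subtype.ext ?_⟩
    change (iG j v) ^ ℓ ^ 1 = 1
    rw [pow_one, ← map_pow, hF.ex, map_one]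
  · -- a nonzero value of `θ`
    obtain ⟨s, hs, hθ⟩ : ∃ s ∈ φ.ker, θ s ≠ 0 := by
      by_contra hcon
      push Not at hcon
      exact hT.tp.gd.elim fun s hs => hs.2 (hcon s s.2)
    refine ⟨j (SemidirectProduct.inr s), ?_, ?_⟩
    · rw [Subgroup.mem_centralizer_iff]
      rintro _ ⟨v, rfl⟩
      rw [iG_apply, ← map_mul, ← map_mul]
      congr 1
      ext
      · simp only [SemidirectProduct.mul_left, SemidirectProduct.left_inl,
          SemidirectProduct.right_inl, SemidirectProduct.left_inr, SemidirectProduct.right_inr,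
          map_one, mul_one, one_mul, MulAut.one_apply]
        rw [MonoidHom.mem_ker.1 hs]
        rfl
      · simp
    · change eR φ θ (π (j (SemidirectProduct.inr s))) ≠ 0
      rw [hC.sec]
      unfold eR
      rw [if_pos (by simp)]
      simpa using hθ
  · intro Q hQ hg
    obtain ⟨x, hx, hex⟩ := hg
    rw [hcard]
    change eR φ θ (π x) ≠ 0 at hex
    unfold eR at hex
    by_cases hxl : (π x).left = 1
    swap
    · rw [if_neg hxl] at hex
      exact absurd rfl hex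
    rw [if_pos hxl] at hex
    have hs : (π x).right ∈ φ.ker := by
      by_contra hcon
      exact hex (hT.bx.supp _ hcon)
    -- the image of `Q` in `S` acts trivially
    have h1 : ∀ z ∈ Q, (π z).right ∈ φ.ker := by
      intro z hz
      obtain ⟨n, hn⟩ := hQ ⟨z, hz⟩
      have hn' : z ^ ℓ ^ n = 1 := congrArg Subtype.val hn
      rw [MonoidHom.mem_ker]
      refine eq_one_of hF.cp (n := n) ⟨(π z).right, rfl⟩ ?_
      rw [← map_pow, ← right_pow, ← map_pow, hn', map_one]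
      simp
    obtain ⟨Q', hQ'⟩ : ∃ Q' : Subgroup φ.ker,
        Q' = (Q.map (SemidirectProduct.rightHom.comp π)).subgroupOf φ.ker := ⟨_, rfl⟩
    have h2 : Nat.card Q' ≤ Nat.card (⊥ : Subgroup φ.ker) := by
      refine hT.tp.mx Q' ?_ ⟨⟨(π x).right, hs⟩, ?_, hex⟩
      · rintro ⟨⟨q, hq⟩, hq'⟩
        rw [hQ', Subgroup.mem_subgroupOf] at hq'
        obtain ⟨z, hz, hzq⟩ := hq'
        obtain ⟨n, hn⟩ := hQ ⟨z, hz⟩
        have hn' : z ^ ℓ ^ n = 1 := congrArg Subtype.val hn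
        refine ⟨n, Subtype.ext (Subtype.ext ?_)⟩
        change q ^ ℓ ^ n = 1
        change (SemidirectProduct.rightHom.comp π) z = q at hzq
        rw [← hzq, ← map_pow, hn', map_one]
      · rw [Subgroup.mem_centralizer_iff]
        rintro ⟨q, hq⟩ hq'
        rw [SetLike.mem_coe, hQ', Subgroup.mem_subgroupOf] at hq'
        obtain ⟨z, hz, hzq⟩ := hq'
        change (SemidirectProduct.rightHom.comp π) z = q at hzq
        apply Subtype.ext
        change q * (SemidirectProduct.rightHom.comp π) x =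
          (SemidirectProduct.rightHom.comp π) x * q
        rw [← hzq, ← map_mul, ← map_mul, Subgroup.mem_centralizer_iff.1 hx z hz]
    rw [Subgroup.card_bot] at h2
    have h3 : ∀ z ∈ Q, (π z).right = 1 := by
      intro z hz
      have h4 : Q' = ⊥ := Subgroup.card_eq_one.1 (le_antisymm h2 Nat.card_pos)
      have h5 : (⟨(π z).right, h1 z hz⟩ : φ.ker) ∈ Q' := by
        rw [hQ', Subgroup.mem_subgroupOf]
        exact ⟨z, hz, rfl⟩
      rw [h4, Subgroup.mem_bot] at h5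
      exact congrArg Subtype.val h5
    rw [← hF.cd]
    refine Nat.card_le_card_of_injective (fun z : Q => (π z).left) ?_
    rintro ⟨z, hz⟩ ⟨w, hw⟩ hzw
    change (π z).left = (π w).left at hzw
    have h4 : π z = π w := SemidirectProduct.ext hzw ((h3 z hz).trans (h3 w hw).symm)
    have h5 : z⁻¹ * w ∈ π.ker := by
      rw [MonoidHom.mem_ker, map_mul, map_inv, h4, inv_mul_cancel]
    obtain ⟨n, hn⟩ := hQ ⟨z⁻¹ * w, Q.mul_mem (Q.inv_mem hz) hw⟩
    have hn' : (z⁻¹ * w) ^ ℓ ^ n = 1 := congrArg Subtype.val hn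
    have h6 := eq_one_of hC.ck h5 hn'
    exact Subtype.ext (inv_mul_eq_one.1 h6)

end Pool.Agent.PP.SE.H62
end
end -- Pool.Agent.Helper62_ASE.TPG

section -- Pool.Agent.Helper63_ASE.SXA

open scoped BigOperators

noncomputable section

namespace Pool.Agent.PP.SE.H63

open Pool.Agent.Helper51_AWC Pool.Agent.Helper79_WRA Pool.Agent.PP Pool.Agent.PP.KF
open Pool.Agent.PP.K9 Pool.Agent.PP.K9.H97 Pool.Agent.PP.H75 Pool.Agent.PP.T3 Pool.Agent.PP.SO
open Pool.Agent.PP.SD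

attribute [local instance] Ideal.Quotient.field

theorem sxa : SxaStmt := by
  intro ℓ _ M _ _ V₀ G _ _ _ _ E₀ _ B hB
  set T : Subgroup G := Tg B.i.range B.g with hT
  have hle : T ≤ Subgroup.normalizer (B.i.range : Set G) := inf_le_left
  have hact : ∀ t : T, ∃ σ : MulAut V₀, σ ∈ E₀ ∧ ∀ v, (t : G) * B.i v * (t : G)⁻¹ = B.i (σ v) := by
    intro t
    obtain ⟨σ, h1, h2⟩ := hB.act t t.2
    exact ⟨σ, h1, h2⟩
  choose f hf1 hf2 using hact
  have huniq : ∀ (t : T) (σ : MulAut V₀), (∀ v, (t : G) * B.i v * (t : G)⁻¹ = B.i (σ v)) →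
      f t = σ := by
    intro t σ h
    ext v
    refine hB.inj ?_
    rw [← hf2 t v, h v]
  have hmul : ∀ s t : T, f (s * t) = f s * f t := by
    intro s t
    refine huniq _ _ fun v => ?_
    rw [MulAut.mul_apply, ← hf2 s, ← hf2 t, Subgroup.coe_mul]
    group
  let ψ : T →* MulAut V₀ := MonoidHom.mk' f hmul
  have hψ : ∀ t, ψ t = f t := fun t => rfl
  set N : Subgroup T := B.i.range.subgroupOf T with hN
  haveI : N.Normal := Subgroup.normal_subgroupOf_of_le_normalizer hle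
  have hker : N ≤ ψ.ker := by
    intro t ht
    rw [MonoidHom.mem_ker, hψ]
    refine huniq _ _ fun v => ?_
    have h1 : (t : G) ∈ B.i.range := Subgroup.mem_subgroupOf.mp ht
    rw [hB.ld.ab (t : G) h1 (B.i v) ⟨v, rfl⟩, mul_inv_cancel_right, MulAut.one_apply]
  refine ⟨T ⧸ N, inferInstance, inferInstance, QuotientGroup.mk' N, QuotientGroup.lift N ψ hker,
    ⟨QuotientGroup.mk'_surjective N, fun t => ?_, fun t v => ?_⟩, ?_⟩
  · rw [← MonoidHom.mem_ker, QuotientGroup.ker_mk']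
    exact Subgroup.mem_subgroupOf
  · rw [QuotientGroup.mk'_apply, QuotientGroup.lift_mk, hψ]
    exact hf2 t v
  · ext σ
    constructor
    · rintro ⟨x, rfl⟩
      obtain ⟨t, rfl⟩ := QuotientGroup.mk'_surjective N x
      rw [QuotientGroup.mk'_apply, QuotientGroup.lift_mk, hψ]
      exact hf1 t
    · intro hσ
      obtain ⟨t, ht, h1⟩ := hB.sur σ hσ
      refine ⟨QuotientGroup.mk' N ⟨t, ht⟩, ?_⟩
      rw [QuotientGroup.mk'_apply, QuotientGroup.lift_mk, hψ]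
      exact huniq ⟨t, ht⟩ σ h1

end Pool.Agent.PP.SE.H63
end
end -- Pool.Agent.Helper63_ASE.SXA

section -- Pool.Agent.Helper67_ASE.XCG

/-!
# ASE row XCG: the characters `xc` of the comparison datum
-/

open scoped BigOperators

noncomputable section

namespace Pool.Agent.PP.SE.H67

open Pool.Agent.Helper51_AWC Pool.Agent.Helper79_WRA Pool.Agent.PP Pool.Agent.PP.KF
open Pool.Agent.PP.K9 Pool.Agent.PP.K9.H97 Pool.Agent.PP.H75 Pool.Agent.PP.T3 Pool.Agent.PP.SO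
open Pool.Agent.PP.SD Pool.Agent.PP.SE

attribute [local instance] Ideal.Quotient.field

section aux

variable {V₀ S G : Type} [CommGroup V₀] [Group S] [Group G]

theorem mem_CG {φ : S →* MulAut V₀} {j : V₀ ⋊[φ] S →* G} {W : Subgroup V₀} {x : G} :
    x ∈ CG j W ↔ ∀ w ∈ W, iG j w * x = x * iG j w := by
  constructor
  · intro h w hw
    exact Subgroup.mem_centralizer_iff.1 h _ (Subgroup.mem_map_of_mem _ hw)
  · intro h
    refine Subgroup.mem_centralizer_iff.2 ?_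
    rintro z ⟨w, hw, rfl⟩
    exact h w hw

theorem map_comap_St {φ : S →* MulAut V₀} (W : Subgroup V₀) :
    ((St φ.range W).comap φ).map φ = St φ.range W := by
  rw [Subgroup.map_comap_eq, inf_eq_right]
  intro σ hσ
  exact hσ.1

theorem mem_mp {σ : MulAut V₀} {W : Subgroup V₀} {a : V₀} : a ∈ mp σ W ↔ σ⁻¹ a ∈ W := by
  constructor
  · rintro ⟨w, hw, rfl⟩
    show σ⁻¹ (σ w) ∈ W
    rw [MulAut.inv_apply_self]
    exact hw
  · intro h
    refine ⟨σ⁻¹ a, h, ?_⟩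
    show σ (σ⁻¹ a) = a
    rw [MulAut.apply_inv_self]

theorem left_conj {φ : S →* MulAut V₀} (y z : V₀ ⋊[φ] S) (hz : φ z.right = 1) :
    (y⁻¹ * z * y).left = (φ y.right)⁻¹ z.left := by
  rw [SemidirectProduct.mul_left, SemidirectProduct.mul_left, SemidirectProduct.mul_right,
    SemidirectProduct.inv_left, SemidirectProduct.inv_right, map_mul, hz, mul_one, map_inv,
    inv_mul_cancel_comm, map_inv]

theorem right_conj {φ : S →* MulAut V₀} (y z : V₀ ⋊[φ] S) :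
    (y⁻¹ * z * y).right = y.right⁻¹ * z.right * y.right⁻¹⁻¹ := by
  rw [SemidirectProduct.mul_right, SemidirectProduct.mul_right, SemidirectProduct.inv_right,
    inv_inv]

end aux

theorem xcg (hCEN : CenStmt) (hBLG : BlgStmt) (hTGG : TggStmt) (hIND : IndStmt) (hVXG : VnuStmt)
    (hLLW : LlwStmt) : XcgStmt := by
  classical
  intro ℓ _ M _ hM V₀ S G _ _ _ _ _ _ φ θ κ d π j hF hT hC
  have hp : ℓ.Prime := Fact.out
  obtain ⟨hinj, -, hconj, hcen⟩ := hCEN ℓ V₀ S G φ π j hF hC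
  obtain ⟨-, -, hblg⟩ := hBLG ℓ M hM V₀ S G φ θ κ d π j hF hT hC
  have hl1 : ((ℓ : ℂ) - 1) ≠ 0 := by
    have h1 : ℓ ≠ 1 := hp.one_lt.ne'
    intro h
    apply h1
    have : (ℓ : ℂ) = 1 := by linear_combination h
    exact_mod_cast this
  refine ⟨⟨?_, ?_⟩, ?_⟩
  · intro W hW hn
    obtain ⟨hmem, hdec, hmap, hile, -, -, hker, -, -, -⟩ := hcen W
    obtain ⟨⟨lam, hlam, hlW, hlx⟩, hl⟩ := hLLW ℓ V₀ φ.range hF W hW
    obtain ⟨-, hl3, hl4, -⟩ := hl lam hlam hlW hlx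
    obtain ⟨hl4a, hl4b⟩ := hl4 hn
    set S₁ : Subgroup S := (St φ.range W).comap φ with hS₁
    have hxi : ∀ x ∈ CG j W, xcG ℓ κ π j W x = xiL φ κ S₁ lam (π x) := by
      intro x hx
      unfold xcG xiL
      rw [if_pos hx, hS₁, map_comap_St]
      by_cases hx2 : (π x).left ∈ W
      · rw [if_pos hx2, hl4a _ hx2]
      · rw [if_neg hx2, hl4b _ hx2]
    refine ⟨⟨?_, ?_⟩, ?_⟩
    · intro g hg
      exact if_neg hg
    · have h1 := hIND ℓ M hM V₀ S φ θ κ d hF hT S₁ hker lam hlam (by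
        intro s hs hv
        exact hl3 (φ s) hs hv)
      obtain ⟨-, h3, -⟩ := hblg (CG j W) hile S₁ hker hmap
      have h4 := h3 _ h1
      have e1 : (fun t : CG j W => xiL φ κ S₁ lam (π t)) =
          fun t : (BG φ θ d π j).C W => xcG ℓ κ π j W t := by
        funext t
        exact (hxi t t.2).symm
      have e2 : (fun t : CG j W => eR φ θ (π t)) =
          fun t : (BG φ θ d π j).C W => (BG φ θ d π j).b W t := by
        funext t
        exact (if_pos t.2).symm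
      rw [e1, e2] at h4
      exact h4
    · intro w hw
      have h1 := (hVXG ℓ M hM V₀ S G φ θ κ d π j hF hT hC (xcG ℓ κ π j W)
        (fun v => if v ∈ W then (ℓ : ℂ) - 1 else -1) (by
          intro v s hs
          unfold xcG
          rw [hC.sec, if_pos]
          rw [hmem]
          show φ s ∈ _
          rw [hs]
          exact Subgroup.one_mem _)).2 (by
          show (if (1 : V₀) ∈ W then (ℓ : ℂ) - 1 else -1) ≠ 0
          rw [if_pos W.one_mem]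
          exact hl1) w
      rw [h1]
      show (if w ∈ W then (ℓ : ℂ) - 1 else -1) / (if (1 : V₀) ∈ W then (ℓ : ℂ) - 1 else -1) = 1
      rw [if_pos hw, if_pos W.one_mem, div_self hl1]
  · intro W hW hn σ hσ t ht hact
    obtain ⟨y, rfl⟩ := ((hTGG ℓ M hM V₀ S G φ θ κ d π j hF hT hC).1 t).1 ht
    have hσ' : ∀ v, σ v = φ y.right v := by
      intro v
      apply hinj
      rw [← hconj]
      exact (hact v).symm
    have hσe : σ = φ y.right := MulEquiv.ext hσ'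
    have hmemc : ∀ g, g ∈ CG j (mp σ W) ↔ (j y)⁻¹ * g * j y ∈ CG j W := by
      intro g
      rw [mem_CG, mem_CG]
      have key : ∀ v, iG j (σ v) * g = g * iG j (σ v) ↔
          iG j v * ((j y)⁻¹ * g * j y) = (j y)⁻¹ * g * j y * iG j v := by
        intro v
        have h1 : iG j (σ v) = j y * iG j v * (j y)⁻¹ := (hact v).symm
        rw [h1]
        constructor
        · intro h
          calc iG j v * ((j y)⁻¹ * g * j y)
              = (j y)⁻¹ * (j y * iG j v * (j y)⁻¹ * g) * j y := by group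
            _ = (j y)⁻¹ * (g * (j y * iG j v * (j y)⁻¹)) * j y := by rw [h]
            _ = (j y)⁻¹ * g * j y * iG j v := by group
        · intro h
          calc j y * iG j v * (j y)⁻¹ * g
              = j y * (iG j v * ((j y)⁻¹ * g * j y)) * (j y)⁻¹ := by group
            _ = j y * ((j y)⁻¹ * g * j y * iG j v) * (j y)⁻¹ := by rw [h]
            _ = g * (j y * iG j v * (j y)⁻¹) := by group
      constructor
      · intro h w hw
        refine (key w).1 (h (σ w) ?_)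
        exact ⟨w, hw, rfl⟩
      · rintro h w' ⟨w, hw, rfl⟩
        exact (key w).2 (h w hw)
    funext g
    show xcG ℓ κ π j (mp σ W) g = xcG ℓ κ π j W ((j y)⁻¹ * g * j y)
    unfold xcG
    by_cases hg : g ∈ CG j (mp σ W)
    · rw [if_pos hg, if_pos ((hmemc g).1 hg)]
      have e1 : π ((j y)⁻¹ * g * j y) = y⁻¹ * π g * y := by
        rw [map_mul, map_mul, map_inv, hC.sec]
      rw [e1, right_conj, hT.kc]
      by_cases hr : φ (π g).right = 1
      · rw [left_conj _ _ hr]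
        congr 1
        have e2 : (π g).left ∈ mp σ W ↔ (φ y.right)⁻¹ (π g).left ∈ W := by
          rw [mem_mp, hσe]
        by_cases h5 : (π g).left ∈ mp σ W
        · rw [if_pos h5, if_pos (e2.1 h5)]
        · rw [if_neg h5, if_neg (fun h6 => h5 (e2.2 h6))]
      · rw [hT.kz _ (fun h => hr h), zero_mul, zero_mul]
    · rw [if_neg hg, if_neg (fun h => hg ((hmemc g).2 h))]
  · intro W
    unfold xcG
    rw [if_pos (Subgroup.one_mem _), map_one, SemidirectProduct.one_left,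
      SemidirectProduct.one_right, if_pos W.one_mem, hT.kd]
    ring

end Pool.Agent.PP.SE.H67
end
end -- Pool.Agent.Helper67_ASE.XCG

section -- Pool.Agent.Helper74_ASE.CGF

/-!
# Squad ASE, row CGF: the comparison datum
-/

open scoped BigOperators

noncomputable section

namespace Pool.Agent.PP.SE.H74

open Pool.Agent.Helper51_AWC Pool.Agent.Helper79_WRA Pool.Agent.PP Pool.Agent.PP.KF
open Pool.Agent.PP.K9 Pool.Agent.PP.K9.H97 Pool.Agent.PP.H75 Pool.Agent.PP.T3 Pool.Agent.PP.SO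
open Pool.Agent.PP.SD

attribute [local instance] Ideal.Quotient.field

theorem mp_bot {V₀ : Type} [CommGroup V₀] (σ : MulAut V₀) (W : Subgroup V₀) :
    mp σ W = ⊥ ↔ W = ⊥ := by
  unfold mp
  constructor
  · intro h
    rw [Subgroup.map_eq_bot_iff] at h
    rw [eq_bot_iff]
    refine h.trans ?_
    intro x hx
    have hx1 : (σ : V₀ ≃* V₀) x = 1 := hx
    rw [Subgroup.mem_bot]
    exact (MulEquiv.map_eq_one_iff (σ : V₀ ≃* V₀)).1 hx1
  · rintro rfl
    rw [Subgroup.map_bot]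

/-- row CGF -/
theorem cgf (sxa : SxaStmt) (sxl : SxlStmt) (sxb : SxbStmt) (cgs : CgsStmt) (cen : CenStmt)
    (peg : PegStmt) (sdg : SdgStmt) (tgg : TggStmt) (lng : LngStmt) (xcg : XcgStmt)
    (exg : ExgStmt) : CgfStmt := by
  intro ℓ _ M _ hM hℓ2 V₀ G _ _ _ _ E₀ hq B hB K U hU1 hU2 hU3
  classical
  have hℓ : ℓ.Prime := Fact.out
  obtain ⟨S, iS, fS, q, φ, hSx, hφ⟩ := sxa ℓ M hM V₀ G E₀ hq B hB.toSb
  obtain ⟨κ, hTh⟩ := sxb ℓ M hM hℓ2 V₀ G S E₀ hq B hB q φ hSx hφ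
  obtain ⟨hL1, hL2⟩ := sxl ℓ M hM V₀ G S E₀ hq B hB.toSb q φ hSx hφ
  subst hφ
  obtain ⟨G', iG', fG', π, j, hCg, hap⟩ := cgs ℓ hℓ2 V₀ S φ hq (K + 1)
    (fun W => if W = ⊥ then 1 else SO.H15.nn ℓ K (U W)) (by
      intro W
      by_cases hW : W = ⊥
      · rw [if_pos hW, sub_self]
        exact dvd_zero _
      · rw [if_neg hW]
        exact SO.H15.nn_dvd ℓ K (U W)) (by
      intro W s
      by_cases hW : W = ⊥
      · rw [if_pos hW, if_pos ((mp_bot _ _).2 hW)]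
      · rw [if_neg hW, if_neg fun h => hW ((mp_bot _ _).1 h)]
        exact congrArg (SO.H15.nn ℓ K) (hU3 W hW (φ s) ⟨s, rfl⟩))
  obtain ⟨-, hKT, -, hcen⟩ := cen ℓ V₀ S G' φ π j hq hCg
  obtain ⟨hSd, hU'⟩ := sdg ℓ M hM V₀ S G' φ _ κ _ π j hq hTh hCg
  obtain ⟨-, htgg⟩ := tgg ℓ M hM V₀ S G' φ _ κ _ π j hq hTh hCg
  have hln := lng ℓ M hM hℓ2 V₀ S G' φ _ κ _ π j hq hTh hCg
  obtain ⟨hXc, -⟩ := xcg ℓ M hM V₀ S G' φ _ κ _ π j hq hTh hCg
  have hEx := exg ℓ M hM V₀ S G' φ _ κ _ π j hq hTh hCg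
  refine ⟨G', iG', fG', BG φ (push q (fun t => B.g t)) (B.D ⊤) π j, xcG ℓ κ π j,
    fun W => KW π j W, hSd, ?_, ?_, hln, hXc, hU', ?_, ?_⟩
  · intro r hr hm
    exact peg ℓ V₀ S G' φ π j hq hCg r hr (hL2 r hr hm)
  · intro E₁ hE₁
    rw [hL1 E₁ hE₁, (htgg E₁ hE₁).2]
  · intro W hW
    obtain ⟨χ, hχ, hχ1⟩ := hEx W hW
    refine ⟨χ, hχ, ?_⟩
    obtain ⟨-, -, -, -, hc1, hc2, -, -, -, -⟩ := hcen W
    obtain ⟨-, -, -, -, hd1, hd2, -, hd3, -, -⟩ := hcen (⊤ : Subgroup V₀)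
    have e1 : Nat.card ((BG φ (push q (fun t => B.g t)) (B.D ⊤) π j).C W) =
        ℓ ^ 2 * (Nat.card φ.ker * nS φ.range W) * KW π j W := by
      rw [← hc2]
      exact hc1
    have e2 : Nat.card ((BG φ (push q (fun t => B.g t)) (B.D ⊤) π j).C ⊤) =
        ℓ ^ 2 * Nat.card φ.ker := by
      have e3 := hd1
      rw [hd3, hKT, mul_one] at e3
      exact e3
    rw [e1, e2, hχ1]
    change (((ℓ ^ 2 * (Nat.card φ.ker * nS φ.range W) * KW π j W : ℕ) : ℂ) * ((B.D ⊤ : ℕ) : ℂ)) /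
      (((ℓ ^ 2 * Nat.card φ.ker : ℕ) : ℂ) * ((nS φ.range W : ℂ) * ((B.D ⊤ : ℕ) : ℂ))) =
      ((KW π j W : ℕ) : ℂ)
    have h1 : (ℓ : ℂ) ≠ 0 := Nat.cast_ne_zero.2 hℓ.ne_zero
    have h2 : (Nat.card φ.ker : ℂ) ≠ 0 := Nat.cast_ne_zero.2 Nat.card_pos.ne'
    have h3 : (nS φ.range W : ℂ) ≠ 0 := by
      have h4 : 1 < nS φ.range W := hW.2
      exact Nat.cast_ne_zero.2 (by omega)
    have h5 : ((B.D ⊤ : ℕ) : ℂ) ≠ 0 := Nat.cast_ne_zero.2 hTh.dp.ne'
    push_cast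
    field_simp
  · intro W hW
    change ∃ q ∈ SOR.Rl ℓ, U W - (KW π j W : ℚ) = ℓ ^ K * q
    by_cases hT : W = ⊤
    · refine ⟨0, (SOR.Rl ℓ).zero_mem, ?_⟩
      rw [hT, hKT, hU1]
      push_cast
      ring
    · obtain ⟨z, hz⟩ := hap W hW hT
      rw [if_neg hW] at hz
      obtain ⟨q', hq1, hq2⟩ := SO.H15.nn_spec ℓ K (U W) (hU2 W hW)
      refine ⟨ℓ * (q' - z), (SOR.Rl ℓ).mul_mem (natCast_mem _ ℓ)
        ((SOR.Rl ℓ).sub_mem hq1 (SO.H15.int_Rl ℓ z)), ?_⟩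
      have hz2 : ((KW π j W : ℤ) : ℚ) - (SO.H15.nn ℓ K (U W) : ℚ) =
          (((ℓ ^ (K + 1) : ℕ) : ℤ) * z : ℤ) := by
        rw [← hz]
        push_cast
        rfl
      push_cast at hz2
      have e : U W - (KW π j W : ℚ) = (U W - SO.H15.nn ℓ K (U W)) -
          ((KW π j W : ℚ) - (SO.H15.nn ℓ K (U W) : ℚ)) := by ring
      rw [e, hz2, hq2]
      ring

end Pool.Agent.PP.SE.H74
end
end -- Pool.Agent.Helper74_ASE.CGF

section -- Pool.Agent.Helper8_ASE.CHZ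

/-!
# Squad ASE, row CHZ: the characters of `V₀ × ker φ`
-/

open scoped BigOperators

set_option autoImplicit false

noncomputable section

namespace Pool.Agent.PP.SE.H8

open Pool.Agent.Helper51_AWC Pool.Agent.Helper79_WRA Pool.Agent.PP Pool.Agent.PP.KF
open Pool.Agent.PP.K9 Pool.Agent.PP.K9.H97 Pool.Agent.PP.H75 Pool.Agent.PP.T3 Pool.Agent.PP.SO
open Pool.Agent.PP.SD

attribute [local instance] Ideal.Quotient.field

section iso

variable {V₀ S : Type} [CommGroup V₀] [Group S] (φ : S →* MulAut V₀)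

/-- `V₀ ⋊ ker φ` is a direct product -/
def eRS : RS φ φ.ker ≃* V₀ × φ.ker where
  toFun y := (y.1.left, ⟨y.1.right, y.2⟩)
  invFun z := ⟨⟨z.1, z.2.1⟩, z.2.2⟩
  left_inv y := rfl
  right_inv z := rfl
  map_mul' x y := by
    have h : φ x.1.right = 1 := x.2
    apply Prod.ext
    · show x.1.left * (φ x.1.right) y.1.left = x.1.left * y.1.left
      rw [h]
      rfl
    · rfl

end iso

section riso

variable {H K : Type} [Group H] [Group K] [Finite H] [Finite K]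
  {M : Ideal (integralClosure ℤ ℂ)} [hM : M.IsMaximal]

omit hM in
/-- transport of the residue along an isomorphism -/
theorem res_iso (α : H ≃* K) {b : K → FF M} (hb : IsCl b) {θ : K → ℂ} (hθ : θ ∈ Irr K) :
    res M (fun x => b (α x)) (fun x => θ (α x)) = res M b θ := by
  classical
  have := Fintype.ofFinite H
  have := Fintype.ofFinite K
  obtain ⟨a, ha, ea⟩ := H50.exists_lift (M := M) hb
  have hθ' : (fun x => θ (α x)) ∈ Irr H :=
    K9.H3.irr_infl (p := α.toMonoidHom) α.surjective hθ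
  have h1 : (fun t => Ideal.Quotient.mk M (a t)) = b := funext ea
  have h2 : (fun t => Ideal.Quotient.mk M (a (α t))) = fun x => b (α x) := by
    funext t
    exact ea (α t)
  have ha' : H50.Cl (fun t => a (α t)) := by
    intro x y
    show a (α (y * x * y⁻¹)) = a (α x)
    rw [map_mul, map_mul, map_inv]
    exact ha _ _
  rw [← h2, ← h1]
  rw [(H50.res_irr a ha hθ).1, (H50.res_irr (fun t => a (α t)) ha' hθ').1]
  congr 1
  unfold H50.om
  congr 1
  · exact Equiv.sum_comp α.toEquiv (fun t => (a t : ℂ) * θ t)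
  · show θ (α 1) = θ 1
    rw [map_one]

end riso

section prod

variable {M : Ideal (integralClosure ℤ ℂ)} [hM : M.IsMaximal] {V K : Type} [Group V] [Finite V]
  [Group K] [Finite K]

omit hM in
open Classical in
/-- the residue of a product -/
theorem res_prod {b : K → FF M} (hb : IsCl b) {ψ : V → ℂ} (hψ : ψ ∈ Irr V) (h1 : ψ 1 = 1)
    {η : K → ℂ} (hη : η ∈ Irr K) :
    res M (fun z : V × K => if z.1 = 1 then b z.2 else 0) (prodChar ψ η) = res M b η := by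
  have := Fintype.ofFinite V
  have := Fintype.ofFinite K
  obtain ⟨a, ha, ea⟩ := H50.exists_lift (M := M) hb
  have e1 : (fun t => Ideal.Quotient.mk M (a t)) = b := funext ea
  have e2 : (fun z : V × K => Ideal.Quotient.mk M (if z.1 = 1 then a z.2 else 0)) =
      fun z : V × K => if z.1 = 1 then b z.2 else 0 := by
    funext z
    by_cases h : z.1 = 1
    · rw [if_pos h, if_pos h]
      exact ea z.2
    · rw [if_neg h, if_neg h, map_zero]
  have ha' : H50.Cl (fun z : V × K => if z.1 = 1 then a z.2 else 0) := by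
    intro x y
    show (if y.1 * x.1 * y.1⁻¹ = 1 then a (y.2 * x.2 * y.2⁻¹) else 0) = if x.1 = 1 then a x.2 else 0
    have h2 : y.1 * x.1 * y.1⁻¹ = 1 ↔ x.1 = 1 := conj_eq_one_iff
    by_cases h : x.1 = 1
    · rw [if_pos h, if_pos (h2.2 h)]
      exact ha _ _
    · rw [if_neg h, if_neg (fun h' => h (h2.1 h'))]
  rw [← e2, (H50.res_irr _ ha' (prodChar_mem hψ hη)).1]
  conv_rhs => rw [← e1, (H50.res_irr a ha hη).1]
  congr 1
  unfold H50.om
  have e3 : prodChar ψ η 1 = η 1 := by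
    show ψ 1 * η 1 = η 1
    rw [h1, one_mul]
  rw [e3]
  congr 1
  rw [Fintype.sum_prod_type, Finset.sum_eq_single_of_mem (1 : V) (Finset.mem_univ _)]
  · refine Finset.sum_congr rfl fun t _ => ?_
    show ((if (1 : V) = 1 then a t else 0 : integralClosure ℤ ℂ) : ℂ) * (ψ 1 * η t) = _
    rw [if_pos rfl, h1, one_mul]
  · intro v _ hv
    refine Finset.sum_eq_zero fun t _ => ?_
    show ((if v = 1 then a t else 0 : integralClosure ℤ ℂ) : ℂ) * (ψ v * η t) = _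
    rw [if_neg hv]
    simp

end prod

section th

variable {ℓ : ℕ} {M : Ideal (integralClosure ℤ ℂ)} [hM : M.IsMaximal] {V₀ S : Type}
  [CommGroup V₀] [Finite V₀] [Group S] [Finite S] {φ : S →* MulAut V₀} {θ : S → FF M} {κ : S → ℂ}
  {d : ℕ}

omit [Finite V₀] [Finite S] in
theorem th_mem (h : Th ℓ M φ θ κ d) :
    (fun t : φ.ker => κ t) ∈ IrrE M (fun t : φ.ker => θ t) := by
  rw [h.ki]
  rfl

omit [Finite V₀] in
theorem th_norm (h : Th ℓ M φ θ κ d) :
    ∑ᶠ s : φ.ker, κ (s : S)⁻¹ * κ s = Nat.card φ.ker := by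
  have := Fintype.ofFinite φ.ker
  rw [finsum_eq_sum_of_fintype, Nat.card_eq_fintype_card, ← irr_orth_self (th_mem h).1]
  refine Finset.sum_congr rfl fun s _ => ?_
  rw [mul_comm]
  rfl

omit [Finite V₀] [Finite S] in
open Classical in
/-- the block `1 × θ` of `V₀ × ker φ` -/
theorem eR_eq (θ : S → FF M) : (fun y : RS φ φ.ker => eR φ θ y) = fun y => (fun z : V₀ × φ.ker =>
    if z.1 = 1 then (fun t : φ.ker => θ t) z.2 else 0) (eRS φ y) := by
  funext y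
  rfl

end th

/-- CHZ -/
theorem chz : ChzStmt := by
  classical
  intro ℓ _ M hM hℓ V₀ S _ _ _ _ φ θ κ d hF h
  refine ⟨th_norm h, ?_⟩
  have hcl : IsCl (fun t : φ.ker => θ t) := fun x y => h.cl x y
  have hcl' : IsCl (fun z : V₀ × φ.ker => if z.1 = 1 then (fun t : φ.ker => θ t) z.2 else 0) := by
    intro x y
    show (if y.1 * x.1 * y.1⁻¹ = 1 then (fun t : φ.ker => θ t) (y.2 * x.2 * y.2⁻¹) else 0) =
      if x.1 = 1 then (fun t : φ.ker => θ t) x.2 else 0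
    have h2 : y.1 * x.1 * y.1⁻¹ = 1 ↔ x.1 = 1 := conj_eq_one_iff
    by_cases h' : x.1 = 1
    · rw [if_pos h', if_pos (h2.2 h')]
      exact hcl _ _
    · rw [if_neg h', if_neg (fun h'' => h' (h2.1 h''))]
  have := Fintype.ofFinite V₀
  have := Fintype.ofFinite φ.ker
  have hfin : Finite (RS φ φ.ker) := Finite.of_equiv _ (eRS φ).symm.toEquiv
  ext ψ
  constructor
  · rintro ⟨hψ, hres⟩
    have h1 : (fun z => ψ ((eRS φ).symm z)) ∈ Irr (V₀ × φ.ker) := irr_comp_equiv (eRS φ).symm hψ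
    obtain ⟨χ, hχ, η, hη, h2⟩ := exists_prodChar h1
    obtain ⟨μ, rfl⟩ := H46.irr_comm (fun x y : V₀ => mul_comm x y) hχ
    have h3 : ψ = fun y => prodChar (fun g => ((μ g : ℂˣ) : ℂ)) η (eRS φ y) := by
      funext y
      rw [← h2]
      show ψ y = ψ ((eRS φ).symm (eRS φ y))
      rw [MulEquiv.symm_apply_apply]
    have h4 : res M (fun t : φ.ker => θ t) η = 1 := by
      rw [← res_prod hcl hχ (by simp) hη, ← res_iso (eRS φ) hcl' (prodChar_mem hχ hη), ← hres,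
        h3]
      rfl
    have h5 : η ∈ IrrE M (fun t : φ.ker => θ t) := ⟨hη, h4⟩
    rw [h.ki, Set.mem_singleton_iff] at h5
    refine ⟨fun g => ((μ g : ℂˣ) : ℂ), ⟨by simp, fun v w => by simp⟩, ?_⟩
    rw [h3, h5]
    rfl
  · rintro ⟨lam, hlam, rfl⟩
    let μ : V₀ →* ℂˣ := MonoidHom.toHomUnits ⟨⟨lam, hlam.1⟩, hlam.2⟩
    have hμ : (fun g => ((μ g : ℂˣ) : ℂ)) = lam := rfl
    have h1 : lam ∈ Irr V₀ := by
      rw [← hμ]
      exact linear_mem_Irr μ
    have h2 := th_mem h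
    have h3 : (fun y : RS φ φ.ker => lam (y : V₀ ⋊[φ] S).left * κ (y : V₀ ⋊[φ] S).right) =
        fun y => prodChar lam (fun t : φ.ker => κ t) (eRS φ y) := rfl
    have h4 := prodChar_mem h1 h2.1
    refine ⟨?_, ?_⟩
    · rw [h3]
      exact irr_comp_equiv (eRS φ) h4
    · rw [h3, eR_eq, res_iso (eRS φ) hcl' h4, res_prod hcl h1 hlam.1 h2.1]
      exact h2.2

end Pool.Agent.PP.SE.H8
end
end -- Pool.Agent.Helper8_ASE.CHZ

section -- Pool.Agent.Helper8_ASE.EXG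

/-!
# Squad ASE, row EXG: exceptional characters of the comparison datum
-/

open scoped BigOperators

set_option autoImplicit false

noncomputable section

namespace Pool.Agent.PP.SE.H8

open Pool.Agent.Helper51_AWC Pool.Agent.Helper79_WRA Pool.Agent.PP Pool.Agent.PP.KF
open Pool.Agent.PP.K9 Pool.Agent.PP.K9.H97 Pool.Agent.PP.H75 Pool.Agent.PP.T3 Pool.Agent.PP.SO
open Pool.Agent.PP.SD

attribute [local instance] Ideal.Quotient.field

theorem fs_congr {V₀ : Type} [CommGroup V₀] {f : MulAut V₀ → ℂ} {A B : Subgroup (MulAut V₀)}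
    (h : A = B) : ∑ᶠ τ : A, f τ = ∑ᶠ τ : B, f τ := by
  subst h
  rfl

/-- EXG -/
theorem exg (cen : CenStmt) (blg : BlgStmt) (ind : IndStmt) (vnu : VnuStmt) (llw : LlwStmt)
    (xcg : XcgStmt) : ExgStmt := by
  classical
  intro ℓ _ M _ hℓ V₀ S G _ _ _ _ _ _ φ θ κ d π j hF hT hC W hW
  have hp : ℓ.Prime := Fact.out
  by_cases hn : nS φ.range W = ℓ - 1
  · obtain ⟨h1, h2⟩ := xcg ℓ M hℓ V₀ S G φ θ κ d π j hF hT hC
    refine ⟨xcG ℓ κ π j W, ⟨(h1.m W hW hn).1, Or.inl ⟨hn, rfl⟩⟩, ?_⟩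
    rw [h2, hn, Nat.cast_sub hp.one_le]
    push_cast
    ring
  · obtain ⟨-, -, -, c1⟩ := cen ℓ V₀ S G φ π j hF hC
    obtain ⟨c2, -, c3, c4, -, -, c5, -⟩ := c1 W
    obtain ⟨⟨lam, hl, hlW, hl1⟩, h1⟩ := llw ℓ V₀ φ.range hF W hW
    obtain ⟨-, h2, -, h3⟩ := h1 lam hl hlW hl1
    obtain ⟨x, y, hx, hy, hpx, hpy, hxy⟩ := h3 hn
    obtain ⟨S₁, hS₁⟩ : ∃ S₁ : Subgroup S, S₁ = (St φ.range W).comap φ := ⟨_, rfl⟩
    rw [← hS₁] at c3 c5
    have hle : St φ.range W ≤ φ.range := fun τ hτ => hτ.1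
    have hmap : S₁.map φ = St φ.range W := by
      rw [hS₁, Subgroup.map_comap_eq]
      exact inf_eq_right.2 hle
    have h4 := ind ℓ M hℓ V₀ S φ θ κ d hF hT S₁ c5 lam hl (fun s hs h => by
      refine h2 (φ s) ?_ h
      rw [hS₁] at hs
      exact hs)
    obtain ⟨-, h5, -⟩ := (blg ℓ M hℓ V₀ S G φ θ κ d π j hF hT hC).2.2 (CG j W) c4 S₁ c5 c3
    have h6 := h5 (xiL φ κ S₁ lam) h4
    obtain ⟨χ, hχ⟩ : ∃ χ : G → ℂ, χ = fun x => if x ∈ CG j W then xiL φ κ S₁ lam (π x) else 0 :=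
      ⟨_, rfl⟩
    have hCh : χ ∈ Ch (BG φ θ d π j) W := by
      refine ⟨?_, ?_⟩
      · intro g hg
        rw [hχ]
        exact if_neg hg
      · have e1 : (fun t : (BG φ θ d π j).C W => χ t) =
            fun t : CG j W => xiL φ κ S₁ lam (π t) := by
          funext t
          rw [hχ]
          exact if_pos t.2
        have e2 : (fun t : (BG φ θ d π j).C W => (BG φ θ d π j).b W t) =
            fun t : CG j W => eR φ θ (π t) := by
          funext t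
          exact if_pos t.2
        rw [e1, e2]
        exact h6
    obtain ⟨h7, -⟩ := vnu ℓ M hℓ V₀ S G φ θ κ d π j hF hT hC χ
      (fun v => ∑ᶠ τ : St φ.range W, lam ((τ : MulAut V₀) v)) (fun v s hs => by
        have h8 : j ⟨v, s⟩ ∈ CG j W := by
          rw [c2]
          show φ s ∈ St φ.range W
          rw [hs]
          exact Subgroup.one_mem _
        rw [hχ]
        show (if j ⟨v, s⟩ ∈ CG j W then xiL φ κ S₁ lam (π (j ⟨v, s⟩)) else 0) = _
        rw [if_pos h8, hC.sec]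
        show κ s * ∑ᶠ τ : S₁.map φ, lam ((τ : MulAut V₀) v) = _
        rw [fs_congr (f := fun τ => lam (τ v)) hmap])
    refine ⟨χ, ⟨hCh, Or.inr ⟨x, y, hx, hy, hpx, hpy, ?_⟩⟩, ?_⟩
    · rw [h7, h7]
      exact hxy
    · have h8 : (1 : G) ∈ CG j W := Subgroup.one_mem _
      rw [hχ]
      show (if (1 : G) ∈ CG j W then xiL φ κ S₁ lam (π 1) else 0) = _
      rw [if_pos h8, map_one]
      show κ (1 : S) * ∑ᶠ τ : S₁.map φ, lam ((τ : MulAut V₀) 1) = _
      rw [fs_congr (f := fun τ => lam (τ 1)) hmap, hT.kd]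
      have h9 : ∀ τ : St φ.range W, lam ((τ : MulAut V₀) 1) = 1 := by
        intro τ
        rw [map_one]
        exact hl.1
      have := Fintype.ofFinite (St φ.range W)
      rw [finsum_eq_sum_of_fintype, Finset.sum_congr rfl (fun τ _ => h9 τ)]
      simp only [Finset.sum_const, Finset.card_univ, nsmul_eq_mul, mul_one]
      rw [nS, Nat.card_eq_fintype_card]
      ring

end Pool.Agent.PP.SE.H8
end
end -- Pool.Agent.Helper8_ASE.EXG

section -- Pool.Agent.Helper8_ASE.PEG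

/-!
# Squad ASE, row PEG: the exponent of the comparison group
-/

noncomputable section

namespace Pool.Agent.PP.SE.H8

open Pool.Agent.Helper51_AWC Pool.Agent.Helper79_WRA Pool.Agent.PP Pool.Agent.PP.KF
open Pool.Agent.PP.K9 Pool.Agent.PP.K9.H97 Pool.Agent.PP.H75 Pool.Agent.PP.T3 Pool.Agent.PP.SO
open Pool.Agent.PP.SD

/-- the exponents -/
theorem pe_of (ℓ : ℕ) [Fact ℓ.Prime] (G : Type) [Group G] [Finite G] (r : ℕ) (hr : 0 < r)
    (hEl : ∀ x : G, El ℓ x → x ^ ℓ ^ r = 1) : ∃ m, PE ℓ (ℓ ^ r) m G := by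
  have hℓ : ℓ.Prime := Fact.out
  obtain ⟨a, c, hc, hcard⟩ := Nat.exists_eq_pow_mul_and_not_dvd (n := Nat.card G)
    Nat.card_pos.ne' ℓ hℓ.ne_one
  have hco : Nat.Coprime ℓ c := (Nat.Prime.coprime_iff_not_dvd hℓ).2 hc
  have hco' : Nat.Coprime (ℓ ^ r) c := Nat.Coprime.pow_left r hco
  obtain ⟨m, hm1, hm2⟩ := Nat.chineseRemainder hco' 1 0
  have hmc : c ∣ m := (Nat.modEq_zero_iff_dvd).1 hm2
  refine ⟨m, ⟨r, hr, rfl⟩, ?_, ?_, ?_⟩
  · have h0 : m ≡ 1 [MOD ℓ] := hm1.of_dvd (dvd_pow_self ℓ hr.ne')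
    have h1 : m % ℓ = 1 % ℓ := h0
    rw [h1]
    exact Nat.mod_eq_of_lt hℓ.one_lt
  · intro g hg
    have h1 := hEl g hg
    refine ⟨?_, h1⟩
    have h2 : g ^ m = g ^ 1 := by
      rw [pow_eq_pow_iff_modEq]
      exact hm1.of_dvd (orderOf_dvd_of_pow_eq_one h1)
    rw [h2, pow_one]
  · intro g hg
    have h1 : orderOf g ∣ ℓ ^ a * c := by
      rw [← hcard]
      exact orderOf_dvd_natCard g
    have h2 : orderOf g ∣ c := by
      refine Nat.Coprime.dvd_of_dvd_mul_left ?_ h1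
      exact Nat.Coprime.pow_right a hg
    exact orderOf_dvd_iff_pow_eq_one.1 (h2.trans hmc)

/-- an element whose order divides a power of `ℓ` in a subgroup of order prime to `ℓ` -/
theorem one_of {A : Type} [Group A] [Finite A] {ℓ : ℕ} (hℓ : ℓ.Prime) (H : Subgroup A)
    (hH : ¬ ℓ ∣ Nat.card H) (x : A) (hx : x ∈ H) (n : ℕ) (h : x ^ ℓ ^ n = 1) : x = 1 := by
  have h1 : orderOf x ∣ ℓ ^ n := orderOf_dvd_of_pow_eq_one h
  have h2 : orderOf x ∣ Nat.card H := by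
    have := orderOf_dvd_natCard (⟨x, hx⟩ : H)
    rwa [← Subgroup.orderOf_coe] at this
  have h3 : Nat.Coprime (ℓ ^ n) (Nat.card H) :=
    Nat.Coprime.pow_left n ((Nat.Prime.coprime_iff_not_dvd hℓ).2 hH)
  have h4 : orderOf x = 1 := Nat.dvd_one.1 (by rw [← h3]; exact Nat.dvd_gcd h1 h2)
  exact orderOf_eq_one_iff.1 h4

theorem pow_sd {V₀ S : Type} [CommGroup V₀] [Group S] (φ : S →* MulAut V₀) (y : V₀ ⋊[φ] S)
    (h : φ y.right = 1) (k : ℕ) : y ^ k = ⟨y.left ^ k, y.right ^ k⟩ := by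
  induction k with
  | zero => simp only [pow_zero]; rfl
  | succ k ih =>
    rw [pow_succ, ih]
    ext
    · rw [SemidirectProduct.mul_left]
      simp only [map_pow, h, one_pow]
      rw [pow_succ]
      rfl
    · rw [SemidirectProduct.mul_right]
      simp only
      rw [pow_succ]

/-- row PEG -/
theorem peg : PegStmt := by
  intro ℓ _ V₀ S G _ _ _ _ _ _ φ π j hq hc r hr hS
  have hℓ : ℓ.Prime := Fact.out
  have hfA : Finite (MulAut V₀) := Finite.of_injective (fun σ : MulAut V₀ => (σ : V₀ → V₀))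
    DFunLike.coe_injective
  refine pe_of ℓ G r hr ?_
  rintro x ⟨n, hn⟩
  have h1 : (π x) ^ ℓ ^ n = 1 := by rw [← map_pow, hn, map_one]
  have h2 : (π x).right ^ ℓ ^ n = 1 := by
    have h3 := congrArg (SemidirectProduct.rightHom (φ := φ)) h1
    rw [map_pow, map_one] at h3
    exact h3
  have h3 : φ (π x).right = 1 := by
    refine one_of hℓ φ.range hq.cp _ ⟨_, rfl⟩ n ?_
    rw [← map_pow, h2, map_one]
  have h4 : π (x ^ ℓ ^ r) = 1 := by
    rw [map_pow, pow_sd φ (π x) h3]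
    have h5 : (π x).right ^ ℓ ^ r = 1 := hS _ ⟨n, h2⟩
    have h6 : (π x).left ^ ℓ ^ r = 1 := by
      obtain ⟨t, rfl⟩ : ∃ t, r = t + 1 := ⟨r - 1, by omega⟩
      rw [pow_succ', pow_mul, hq.ex, one_pow]
    rw [h5, h6]
    rfl
  refine one_of hℓ π.ker hc.ck _ h4 n ?_
  rw [← pow_mul, mul_comm, pow_mul, hn, one_pow]

end Pool.Agent.PP.SE.H8

end
end -- Pool.Agent.Helper8_ASE.PEG

section -- Pool.Agent.Helper86_ASD.DGD

/-!
# Squad ASD, row DGD: the `ℓ`-parts of the degrees for `Rw`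
-/

open scoped BigOperators

set_option autoImplicit false

noncomputable section

namespace Pool.Agent.PP.SD.H86

open Pool.Agent.Helper51_AWC Pool.Agent.Helper79_WRA Pool.Agent.PP Pool.Agent.PP.KF
open Pool.Agent.PP.K9 Pool.Agent.PP.K9.H97 Pool.Agent.PP.H75 Pool.Agent.PP.T3 Pool.Agent.PP.SO
open Pool.Agent.PP.SD

attribute [local instance] Ideal.Quotient.field

theorem rw_top {ℓ : ℕ} [Fact ℓ.Prime] {V₀ : Type} [CommGroup V₀] [Finite V₀]
    {E₀ : Subgroup (MulAut V₀)} (hF : Fq ℓ V₀ E₀) : Rw E₀ (⊤ : Subgroup V₀) := by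
  constructor
  · intro h
    have hℓ : ℓ.Prime := Fact.out
    have h1 : Nat.card (⊤ : Subgroup V₀) = 1 := by rw [h]; simp
    rw [Subgroup.card_top, hF.cd] at h1
    have := hℓ.one_lt
    nlinarith
  · intro σ _ h
    ext v
    exact h v (Subgroup.mem_top v)

theorem dgd (hta : SO.HTaStmt) : DgdStmt := by
  intro ℓ _ M _ hM V₀ G _ _ _ _ E₀ hF B hB W hW
  have hℓ : ℓ.Prime := Fact.out
  have hsb := hB.toSb
  have hb := SO.H79.b_top hsb
  have hD := hB.dg ⊤ (rw_top hF)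
  have hDW := hB.dg W hW
  rw [hb, SO.H79.C_top B] at hD
  obtain ⟨m, hm, hc⟩ := hta ℓ M hM G B.e B.i.range B.g hsb.ld (B.D ⊤) hD
  rw [← SO.H79.C_top B] at hc
  have hV : Nat.card B.i.range = ℓ ^ 2 := by
    rw [← hF.cd]
    exact (Nat.card_congr (MonoidHom.ofInjective hsb.inj).toEquiv).symm
  rw [hV] at hc
  obtain ⟨q, hq, hU⟩ := hB.un W hW
  have hs := hB.sg W hW
  have hS2 : (B.S W : ℚ) * B.S W = 1 := by
    rcases hs with h | h <;> rw [h] <;> norm_num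
  have hS3 : (B.S W : ℂ) * B.S W = 1 := by exact_mod_cast hS2
  have hℓ0 : (ℓ : ℂ) ≠ 0 := by exact_mod_cast hℓ.ne_zero
  have hm0 : (m : ℂ) ≠ 0 := by
    intro h
    have : m = 0 := by exact_mod_cast h
    exact hm (this ▸ dvd_zero ℓ)
  have hD0 : (B.D ⊤ : ℂ) ≠ 0 := by exact_mod_cast hD.1.ne'
  have hDW0 : (B.D W : ℂ) ≠ 0 := by exact_mod_cast hDW.1.ne'
  have hcW : (Nat.card (B.C W) : ℂ) ≠ 0 := by exact_mod_cast Nat.card_pos.ne'
  have hcc : (Nat.card (B.C ⊤) : ℂ) = ℓ ^ 2 * B.D ⊤ * m := by exact_mod_cast hc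
  have hUc : ((1 + ℓ * q : ℚ) : ℂ) =
      B.S W * Nat.card (B.C W) * B.D ⊤ / (Nat.card (B.C ⊤) * B.D W) := by
    rw [← hU]
    unfold Bk.U
    push_cast
    rfl
  have hU0 : ((1 + ℓ * q : ℚ) : ℂ) = B.S W * (Nat.card (B.C W) / (ℓ ^ 2 * B.D W)) * (m : ℂ)⁻¹ := by
    rw [hUc, hcc]
    field_simp
  have hS0 : (B.S W : ℂ) ≠ 0 := by
    intro h
    rw [h] at hS3
    norm_num at hS3
  have e1 : (Nat.card (B.C W) / (ℓ ^ 2 * B.D W) : ℂ) = B.S W * ((1 + ℓ * q : ℚ) : ℂ) * m := by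
    rw [hU0]
    have : (B.S W : ℂ) * (B.S W * (Nat.card (B.C W) / (ℓ ^ 2 * B.D W)) * (m : ℂ)⁻¹) * m =
        (B.S W * B.S W) * (Nat.card (B.C W) / (ℓ ^ 2 * B.D W)) * ((m : ℂ)⁻¹ * m) := by ring
    rw [this, hS3, inv_mul_cancel₀ hm0, one_mul, mul_one]
  have e2 : ((ℓ ^ 2 * B.D W / Nat.card (B.C W) : ℂ)) =
      B.S W * (((1 + ℓ * q : ℚ) : ℂ))⁻¹ * (m : ℂ)⁻¹ := by
    have h1 : ((ℓ ^ 2 * B.D W / Nat.card (B.C W) : ℂ)) =
        (Nat.card (B.C W) / (ℓ ^ 2 * B.D W) : ℂ)⁻¹ := by rw [inv_div]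
    have h2 : (B.S W : ℂ)⁻¹ = B.S W := by
      rw [inv_eq_iff_eq_inv]
      exact (inv_eq_of_mul_eq_one_left hS3).symm
    rw [h1, e1, mul_inv, mul_inv, h2]
  refine ⟨?_, ?_⟩
  · rw [e2]
    exact Subring.mul_mem _ (Subring.mul_mem _ (intCast_mem (RM M) _) (SO.H79.rl_inv hM hq))
      (SO.H79.inv_mem hℓ hM hm)
  · rw [e1]
    refine Subring.mul_mem _ (Subring.mul_mem _ (intCast_mem (RM M) _) ?_)
      (natCast_mem (RM M) _)
    push_cast
    exact Subring.add_mem _ (Subring.one_mem _) (Subring.mul_mem _ (natCast_mem (RM M) _)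
      (SO.H79.rl_mem hM hq))

end Pool.Agent.PP.SD.H86
end
end -- Pool.Agent.Helper86_ASD.DGD
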