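import Pool.Agent.Helper12_AWB.B170
import Pool.Agent.Helper12_AWB.B213

/-!
# Merged copies (generated) of the modules

* `Pool.Agent.ASD.Stmts7`
* `Pool.Agent.Helper76_ASO.FUW`
* `Pool.Agent.Helper87_ASD.FUD`
* `Pool.Agent.Helper43_ASO.CMG`
* `Pool.Agent.Helper43_ASD.CGX`
* `Pool.Agent.Helper2_ASE.CGS`
* `Pool.Agent.Helper76_ASO.CMI`
* `Pool.Agent.Helper43_ASD.CBG`
* `Pool.Agent.Helper97_ASE.SBG`
-/

set_option autoImplicit false

section -- Pool.Agent.ASD.Stmts7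

/-!
# Squad ASD, statements 7: the comparison group with exact axes

`V₀` elementary abelian of order `ℓ ^ 2`, `E₀` a group of automorphisms of `V₀` of order prime to `ℓ`,
`R = V₀ : E₀`.  The comparison group is `G = K : R` with an elementary abelian `p`-group `K` (squad ASO,
`Stmts7.lean`), such that `|C_K(W)| = U W` modulo `ℓ ^ k` for the given numbers `U W`, and `C_K(W) = 1`
for the `W` with `P W` (a given property, invariant under `E₀`).  For these `W` the centraliser of `W`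
in `G` is contained in `R`.  Complete proofs in the docstrings.
-/

open scoped BigOperators

noncomputable section

namespace Pool.Agent.PP.SD

open Pool.Agent.Helper51_AWC Pool.Agent.Helper79_WRA Pool.Agent.PP Pool.Agent.PP.KF
open Pool.Agent.PP.K9 Pool.Agent.PP.K9.H97 Pool.Agent.PP.H75 Pool.Agent.PP.T3 Pool.Agent.PP.SO

attribute [local instance] Ideal.Quotient.field

/-- CBG: the comparison blocks, general form.

Proof.  The group is the one of `SO.CmgStmt` (`Helper43_ASO/CMG.lean`) with `a(W) = 0` if `P W`; in the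
other cases `a(W)` is a function of `U W`.  Then the set of the `(λ, i)` with `W ≤ ker λ` is empty if `P W`
(`W` of order `ℓ`: `ker λ = W`; `W = ⊤`: always), so `C_K(W) = 1`.  The blocks are the ones of `SO.CmiStmt`
(`Helper76_ASO/CMI.lean`): `e` is `1` on `K` and `0` elsewhere, `g = one1`, `b W` is `1` on `K ∩ C(W)` and `0`
elsewhere, `D W = 1`, `S W = 1`; `BR` is the same for the group `R` (`K = 1`), `j : R → G` the inclusion.
`C(W) = (K ∩ C(W)) (V₀ : St E₀ W)`.  If `C_K(W) = 1` then `C(W) ≤ R`, and `b W'`, `W ≤ W'`, is `one1` on `C(W')`. -/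
def CbgStmt : Prop := ∀ (ℓ : ℕ) [Fact ℓ.Prime] (M : Ideal (integralClosure ℤ ℂ)) [M.IsMaximal],
  (ℓ : integralClosure ℤ ℂ) ∈ M → ℓ ≠ 2 → ∀ (V₀ : Type) [CommGroup V₀] [Finite V₀]
  (E₀ : Subgroup (MulAut V₀)), Fq ℓ V₀ E₀ → ∀ P : Subgroup V₀ → Prop,
  (∀ W, P W → W ≠ ⊥ ∧ ∀ σ ∈ E₀, P (W.map σ.toMonoidHom)) →
  ∃ (H : Type) (_ : Group H) (_ : Finite H) (BR : Bk (FF M) V₀ H), Sd ℓ M E₀ BR ∧
    (∀ r, 0 < r → ∃ m, PE ℓ (ℓ ^ r) m H) ∧
    ∀ (k : ℕ) (U : Subgroup V₀ → ℚ), U ⊤ = 1 →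
    (∀ W, W ≠ ⊥ → ¬ P W → ∃ q ∈ SOR.Rl ℓ, U W = 1 + ℓ * q) →
    (∀ W, W ≠ ⊥ → ¬ P W → ∀ σ ∈ E₀, U (W.map σ.toMonoidHom) = U W) →
    ∃ (G : Type) (_ : Group G) (_ : Finite G) (B : Bk (FF M) V₀ G) (j : H →* G) (κ : Subgroup V₀ → ℕ),
      Sd ℓ M E₀ B ∧ (∀ A, P A → Pr A B BR j) ∧ (∀ r, 0 < r → ∃ m, PE ℓ (ℓ ^ r) m G) ∧
      (IrrE M B.e).ncard = (Irr (V₀ ⋊[E₀.subtype] E₀)).ncard ∧ (∀ W, B.D W = 1) ∧ (∀ W, B.S W = 1) ∧
      κ ⊤ = 1 ∧ ∀ W, W ≠ ⊥ → Nat.card (B.C W) = ℓ ^ 2 * Nat.card (St E₀ W) * κ W ∧ (P W → κ W = 1) ∧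
        (¬ P W → ∃ q ∈ SOR.Rl ℓ, (κ W : ℚ) - U W = ℓ ^ k * q)

/-- CBX: the comparison blocks for `Dx`.

Proof.  CBG for `P W := W = A₁ ∨ W = A₂` (`Dx.s1`, `Dx.s2`: `A₁`, `A₂` are mapped to themselves; `A₁`, `A₂ ≠ ⊥`) and
`U = B.U`.  `Of A₁ A₂ W` means `W ≠ ⊥`, not `P W`; then `Rw E₀ W` (DIX (1)), `|St E₀ W| = 1`.  `B.U ⊤ = B.S ⊤ = ±1`, and
`B.U ⊤ = 1 + ℓ q` (`Sd.un`), `ℓ ≠ 2`, so `B.U ⊤ = 1`.  `B.U` is invariant (CJD (6)).  `B'.U W = |C W|/|C ⊤| = κ W`. -/
def CbxStmt : Prop := ∀ (ℓ : ℕ) [Fact ℓ.Prime] (M : Ideal (integralClosure ℤ ℂ)) [M.IsMaximal],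
  (ℓ : integralClosure ℤ ℂ) ∈ M → ℓ ≠ 2 → ∀ (V₀ : Type) [CommGroup V₀] [Finite V₀]
  (E₀ : Subgroup (MulAut V₀)) (A₁ A₂ : Subgroup V₀), Dx ℓ E₀ A₁ A₂ →
  ∃ (H : Type) (_ : Group H) (_ : Finite H) (BR : Bk (FF M) V₀ H) (kR : ℕ), Sd ℓ M E₀ BR ∧
    (∀ r, 0 < r → ∃ m, PE ℓ (ℓ ^ r) m H) ∧
    ∀ (G : Type) [Group G] [Finite G] (B : Bk (FF M) V₀ G), Sd ℓ M E₀ B → ∀ r k : ℕ, 0 < r →
    ∃ (G' : Type) (_ : Group G') (_ : Finite G') (B' : Bk (FF M) V₀ G') (j : H →* G'),
      Sd ℓ M E₀ B' ∧ (∃ m, PE ℓ (ℓ ^ r) m G') ∧ Pr A₁ B' BR j ∧ Pr A₂ B' BR j ∧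
      (∀ W, Of A₁ A₂ W → ∃ q ∈ SOR.Rl ℓ, B.U W - B'.U W = ℓ ^ k * q) ∧ (IrrE M B'.e).ncard = kR

end Pool.Agent.PP.SD
end
end -- Pool.Agent.ASD.Stmts7

section -- Pool.Agent.Helper76_ASO.FUW

/-!
# Squad ASO, row FUW: fusion of the subpairs
-/

open scoped BigOperators

set_option autoImplicit false

noncomputable section

namespace Pool.Agent.PP.SO.H76

open Pool.Agent.Helper51_AWC Pool.Agent.Helper79_WRA Pool.Agent.PP Pool.Agent.PP.KF
open Pool.Agent.PP.K9 Pool.Agent.PP.K9.H97 Pool.Agent.PP.H75 Pool.Agent.PP.T3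

attribute [local instance] Ideal.Quotient.field

theorem card_sub {G : Type} [Group G] {V C : Subgroup G} (h : V ≤ C) :
    Nat.card (V.subgroupOf C) = Nat.card V :=
  Nat.card_congr (Subgroup.subgroupOfEquivOfLe h).toEquiv

section tools

variable {F G : Type} [Field F] [Group G] [Finite G] {ℓ : ℕ}

/-- `b` does not vanish on the centraliser of `V` if `br_V(b) g = g ≠ 0` -/
theorem gd_of_gam {V : Subgroup G} {b g : G → F}
    (hg : Bx (Subgroup.centralizer (V : Set G)) g) (h : mulF (br V b) g = g) : Gd b V := by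
  by_contra hcon
  apply hg.ne
  have h0 : br V b = 0 := by
    funext x
    by_cases hx : x ∈ Subgroup.centralizer (V : Set G)
    · rw [H66.br_of_mem hx]
      by_contra h1
      exact hcon ⟨x, hx, h1⟩
    · rw [H66.br_of_not_mem hx]
      rfl
  rw [← h, h0, mulF_zero_left]

theorem gd_cj {b : G → F} {V : Subgroup G} (h : Gd b V) (q : G) : Gd (H75.cj q b) (conjS q V) := by
  obtain ⟨x, hx, hb⟩ := h
  have e : q⁻¹ * (q * x * q⁻¹) * q = x := by group
  refine ⟨q * x * q⁻¹, ?_, ?_⟩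
  · rw [T3.H62.mem_cent_conjS, e]
    exact hx
  · change b (q⁻¹ * (q * x * q⁻¹) * q) ≠ 0
    rw [e]
    exact hb

theorem gd_sub {b : G → F} {V C : Subgroup G} (hVC : Subgroup.centralizer (V : Set G) ≤ C)
    (h : Gd b V) : Gd (fun t : C => b t) (V.subgroupOf C) := by
  obtain ⟨x, hx, hb⟩ := h
  refine ⟨⟨x, hVC hx⟩, ?_, hb⟩
  rw [Subgroup.mem_centralizer_iff]
  intro v hv
  exact Subtype.ext (Subgroup.mem_centralizer_iff.1 hx v (Subgroup.mem_subgroupOf.1 hv))

end tools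

/-- FUW -/
theorem fuw : FuwStmt := by
  intro ℓ _ M _ hM V₀ G _ _ _ _ E₀ _ B hB W W' w f hw hfW hfs hcj
  have hF : GoodF ℓ (FF M) := H50.fld ℓ Fact.out M hM
  obtain ⟨V, hV⟩ : ∃ V, V = B.i.range := ⟨_, rfl⟩
  obtain ⟨C, hC⟩ : ∃ C, C = B.C W := ⟨_, rfl⟩
  have hld := hB.ld
  rw [← hV] at hld
  have memC : ∀ (W : Subgroup V₀) (x : G), x ∈ B.C W ↔ ∀ v ∈ W, B.i v * x = x * B.i v := by
    intro W x
    unfold Bk.C
    rw [Subgroup.mem_centralizer_iff]
    constructor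
    · intro h v hv
      exact h _ ⟨v, hv, rfl⟩
    · rintro h _ ⟨v, hv, rfl⟩
      exact h v hv
  have hiV : ∀ v, B.i v ∈ V := fun v => by rw [hV]; exact ⟨v, rfl⟩
  have hVC : V ≤ C := by
    intro x hx
    rw [hC, memC]
    intro v _
    exact hld.ab _ (hiV v) _ hx
  have hXC : Subgroup.centralizer (V : Set G) ≤ C := by
    intro x hx
    rw [hC, memC]
    intro v _
    exact Subgroup.mem_centralizer_iff.1 hx _ (hiV v)
  have hXN : Subgroup.centralizer (V : Set G) ≤ Subgroup.normalizer (V : Set G) :=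
    Subgroup.centralizer_le_normalizer _
  have hb := hB.lb W
  have hb' := hB.lb W'
  have hbx0 : Bx C (B.b W) := by rw [hC]; exact hb.blk
  have hgam : mulF (br V (B.b W)) B.g = B.g := by rw [hV]; exact hb.gam
  have hgam' : mulF (br V (B.b W')) B.g = B.g := by rw [hV]; exact hb'.gam
  have hund : mulF (fun t : C => B.e t) (fun t : C => B.b W t) = fun t : C => B.b W t := by
    subst hC
    exact hb.und
  have hcl : IsCl (fun t : C => B.e t) := fun x y => hld.blk.1.1 x y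
  -- the defect group
  have htp : Tp ℓ (fun t : C => B.b W t) (V.subgroupOf C) := by
    refine ⟨hld.tp.pg.comap_of_injective C.subtype C.subtype_injective,
      gd_sub hXC (gd_of_gam hld.gam hgam), fun Q hQ hgd => ?_⟩
    have h1 : Gd (fun t : C => B.e t) Q := gd_of_mul hF hcl hbx0.blk.1.1 hund hQ hgd
    have h2 := gd_map h1
    have h3 := hld.tp.mx (Q.map C.subtype) (hQ.map _) h2
    rw [card_sub hVC]
    rwa [Subgroup.card_map_of_injective C.subtype_injective] at h3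
  obtain ⟨hf1, ⟨hf2, -⟩, -⟩ := H69.fmg ℓ M hM C _ hbx0.blk _ htp
  have hext : PP.ext0 C (fun t : C => B.b W t) = B.b W := by
    funext x
    by_cases hx : x ∈ C
    · rw [H46.ext0_of_mem _ hx]
    · rw [H46.ext0_of_not_mem _ hx, hbx0.supp x hx]
  have hbx := bx_of hVC hXC hXN hf2
  rw [hext] at hbx
  -- the conjugate of `V`
  have hcomm : ∀ x, w⁻¹ * x * w ∈ V → x ∈ C := by
    intro x hx
    rw [hC, memC]
    intro v hv
    obtain ⟨v', hv', rfl⟩ := hfs v hv
    rw [← hw v' hv']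
    have h1 := hld.ab _ (hiV v') _ hx
    have h2 : w * B.i v' * w⁻¹ * x = w * (B.i v' * (w⁻¹ * x * w)) * w⁻¹ := by group
    rw [h2, h1]
    group
  have hQC : conjS w V ≤ C := by
    intro x hx
    rw [T3.H62.mem_conjS] at hx
    exact hcomm x hx
  have hcQ : Subgroup.centralizer (conjS w V : Set G) ≤ C := by
    intro x hx
    rw [hC, memC]
    intro v hv
    obtain ⟨v', hv', rfl⟩ := hfs v hv
    rw [← hw v' hv']
    exact Subgroup.mem_centralizer_iff.1 hx _ ((T3.H62.conjS_mem_iff _).2 (hiV v'))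
  have hQp : IsPGroup ℓ ((conjS w V).subgroupOf C) :=
    (hld.tp.pg.map _).comap_of_injective C.subtype C.subtype_injective
  have hQg : Gd (fun t : C => B.b W t) ((conjS w V).subgroupOf C) := by
    refine gd_sub hcQ ?_
    rw [← hcj]
    exact gd_cj (gd_of_gam hld.gam hgam') w
  obtain ⟨c, hc⟩ := hf1 _ hQp hQg
  have hcC : ∀ v ∈ W, B.i v * (c : G) = (c : G) * B.i v := by
    have h1 : (c : G) ∈ B.C W := by
      rw [← hC]
      exact c.2
    exact (memC W c).1 h1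
  obtain ⟨n, hn⟩ : ∃ n : G, n = (c : G)⁻¹ * w := ⟨_, rfl⟩
  have h4 : ∀ v ∈ V, n * v * n⁻¹ ∈ V := by
    intro v hv
    have h5 : w * v * w⁻¹ ∈ conjS w V := (T3.H62.conjS_mem_iff v).2 hv
    have h6 : (⟨w * v * w⁻¹, hQC h5⟩ : C) ∈ (conjS w V).subgroupOf C := h5
    have h7 := hc h6
    rw [T3.H62.mem_conjS] at h7
    have h8 : (c : G)⁻¹ * (w * v * w⁻¹) * c ∈ V := h7
    rwa [show n * v * n⁻¹ = (c : G)⁻¹ * (w * v * w⁻¹) * c by rw [hn]; group]
  have hnN : n ∈ Subgroup.normalizer (V : Set G) := by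
    have h9 : conjS n V = V := by
      apply Subgroup.eq_of_le_of_card_ge
      · intro y hy
        rw [T3.H62.mem_conjS] at hy
        have := h4 _ hy
        rwa [show n * (n⁻¹ * y * n) * n⁻¹ = y by group] at this
      · rw [T3.H62.card_conjS']
    rw [Subgroup.mem_normalizer_iff]
    intro v
    conv_rhs => rw [← h9]
    rw [T3.H62.mem_conjS, show n⁻¹ * (n * v * n⁻¹) * n = v by group]
  have hnv : ∀ v ∈ W', n * B.i v * n⁻¹ = B.i (f v) := by
    intro v hv
    have h1 : n * B.i v * n⁻¹ = (c : G)⁻¹ * (w * B.i v * w⁻¹) * c := by rw [hn]; group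
    rw [h1, hw v hv, mul_assoc, hcC _ (hfW v hv), inv_mul_cancel_left]
  have hnb : H75.cj n (B.b W') = B.b W := by
    rw [hn, ← cj_cj, hcj]
    exact hbx0.ix.inv (inv_mem c.2)
  have hnγ : Bx (Subgroup.centralizer (V : Set G)) (H75.cj n B.g) :=
    hld.gam.cj (T3.H79.norm_cent V hnN)
  have hbn : mulF (br V (B.b W)) (H75.cj n B.g) = H75.cj n B.g := by
    have h1 := congrArg (H75.cj n) hgam'
    rw [cj_mulF, T3.H79.cj_br hnN, hnb] at h1
    exact h1
  obtain ⟨m, hm, hmn⟩ := H97.orb_main (N := Subgroup.normalizer (V : Set G) ⊓ C)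
    (X := Subgroup.centralizer (V : Set G)) (le_inf hXN hXC)
    (inf_le_left.trans (T3.H79.norm_cent V)) hbx hld.gam hnγ hgam hbn
  have hmC : ∀ v ∈ W, B.i v * m = m * B.i v := by
    have h1 : m ∈ B.C W := by
      rw [← hC]
      exact hm.2
    exact (memC W m).1 h1
  have ht : m⁻¹ * n ∈ Tg B.i.range B.g := by
    rw [← hV]
    refine ⟨Subgroup.mul_mem _ (inv_mem hm.1) hnN, ?_⟩
    have h1 : H75.cj (m⁻¹ * n) B.g = B.g := by
      rw [← cj_cj, hmn, cj_inv_cj]
    exact (cj_eq_iff _ _).1 h1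
  obtain ⟨t, ht0⟩ : ∃ t : G, t = m⁻¹ * n := ⟨_, rfl⟩
  rw [← ht0] at ht
  have htv : ∀ v ∈ W', t * B.i v * t⁻¹ = B.i (f v) := by
    intro v hv
    have h1 : t * B.i v * t⁻¹ = m⁻¹ * (n * B.i v * n⁻¹) * m := by rw [ht0]; group
    rw [h1, hnv v hv, mul_assoc, hmC _ (hfW v hv), inv_mul_cancel_left]
  obtain ⟨σ, hσ, hσt⟩ := hB.act t ht
  refine ⟨σ, hσ, fun v hv => ?_, t, ht, hσt, ?_⟩
  · apply hB.inj
    rw [← htv v hv, hσt]
  · rw [memC]
    intro v hv
    have h1 : w * B.i v = B.i (f v) * w := by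
      rw [← hw v hv]
      group
    have h2 : t * B.i v = B.i (f v) * t := by
      rw [← htv v hv]
      group
    have h3 : B.i v * t⁻¹ = t⁻¹ * B.i (f v) := by
      have h4 : t⁻¹ * (t * B.i v) * t⁻¹ = t⁻¹ * (B.i (f v) * t) * t⁻¹ := by rw [h2]
      have e1 : t⁻¹ * (t * B.i v) * t⁻¹ = B.i v * t⁻¹ := by group
      have e2 : t⁻¹ * (B.i (f v) * t) * t⁻¹ = t⁻¹ * B.i (f v) := by group
      rw [e1, e2] at h4
      exact h4
    rw [← mul_assoc, h3, mul_assoc, ← h1, mul_assoc]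

end Pool.Agent.PP.SO.H76
end
end -- Pool.Agent.Helper76_ASO.FUW

section -- Pool.Agent.Helper87_ASD.FUD

/-!
# Squad ASD, row FUD: fusion of the subpairs (copy of the proof of row FUW of squad ASO by helper76)
-/

open scoped BigOperators

set_option autoImplicit false

noncomputable section

namespace Pool.Agent.PP.SD.H87

open Pool.Agent.Helper51_AWC Pool.Agent.Helper79_WRA Pool.Agent.PP Pool.Agent.PP.KF
open Pool.Agent.PP.K9 Pool.Agent.PP.K9.H97 Pool.Agent.PP.H75 Pool.Agent.PP.T3 Pool.Agent.PP.SO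
open Pool.Agent.PP.SO.H76

attribute [local instance] Ideal.Quotient.field

/-- FUD -/
theorem fud : FudStmt := by
  intro ℓ _ M _ hM V₀ G _ _ _ _ E₀ _ B hB W W' w f hw hfW hfs hcj
  have hF : GoodF ℓ (FF M) := H50.fld ℓ Fact.out M hM
  obtain ⟨V, hV⟩ : ∃ V, V = B.i.range := ⟨_, rfl⟩
  obtain ⟨C, hC⟩ : ∃ C, C = B.C W := ⟨_, rfl⟩
  have hld := hB.ld
  rw [← hV] at hld
  have memC : ∀ (W : Subgroup V₀) (x : G), x ∈ B.C W ↔ ∀ v ∈ W, B.i v * x = x * B.i v := by
    intro W x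
    unfold Bk.C
    rw [Subgroup.mem_centralizer_iff]
    constructor
    · intro h v hv
      exact h _ ⟨v, hv, rfl⟩
    · rintro h _ ⟨v, hv, rfl⟩
      exact h v hv
  have hiV : ∀ v, B.i v ∈ V := fun v => by rw [hV]; exact ⟨v, rfl⟩
  have hVC : V ≤ C := by
    intro x hx
    rw [hC, memC]
    intro v _
    exact hld.ab _ (hiV v) _ hx
  have hXC : Subgroup.centralizer (V : Set G) ≤ C := by
    intro x hx
    rw [hC, memC]
    intro v _
    exact Subgroup.mem_centralizer_iff.1 hx _ (hiV v)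
  have hXN : Subgroup.centralizer (V : Set G) ≤ Subgroup.normalizer (V : Set G) :=
    Subgroup.centralizer_le_normalizer _
  have hb := hB.lb W
  have hb' := hB.lb W'
  have hbx0 : Bx C (B.b W) := by rw [hC]; exact hb.blk
  have hgam : mulF (br V (B.b W)) B.g = B.g := by rw [hV]; exact hb.gam
  have hgam' : mulF (br V (B.b W')) B.g = B.g := by rw [hV]; exact hb'.gam
  have hund : mulF (fun t : C => B.e t) (fun t : C => B.b W t) = fun t : C => B.b W t := by
    subst hC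
    exact hb.und
  have hcl : IsCl (fun t : C => B.e t) := fun x y => hld.blk.1.1 x y
  -- the defect group
  have htp : Tp ℓ (fun t : C => B.b W t) (V.subgroupOf C) := by
    refine ⟨hld.tp.pg.comap_of_injective C.subtype C.subtype_injective,
      gd_sub hXC (gd_of_gam hld.gam hgam), fun Q hQ hgd => ?_⟩
    have h1 : Gd (fun t : C => B.e t) Q := gd_of_mul hF hcl hbx0.blk.1.1 hund hQ hgd
    have h2 := gd_map h1
    have h3 := hld.tp.mx (Q.map C.subtype) (hQ.map _) h2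
    rw [card_sub hVC]
    rwa [Subgroup.card_map_of_injective C.subtype_injective] at h3
  obtain ⟨hf1, ⟨hf2, -⟩, -⟩ := H69.fmg ℓ M hM C _ hbx0.blk _ htp
  have hext : PP.ext0 C (fun t : C => B.b W t) = B.b W := by
    funext x
    by_cases hx : x ∈ C
    · rw [H46.ext0_of_mem _ hx]
    · rw [H46.ext0_of_not_mem _ hx, hbx0.supp x hx]
  have hbx := bx_of hVC hXC hXN hf2
  rw [hext] at hbx
  -- the conjugate of `V`
  have hcomm : ∀ x, w⁻¹ * x * w ∈ V → x ∈ C := by
    intro x hx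
    rw [hC, memC]
    intro v hv
    obtain ⟨v', hv', rfl⟩ := hfs v hv
    rw [← hw v' hv']
    have h1 := hld.ab _ (hiV v') _ hx
    have h2 : w * B.i v' * w⁻¹ * x = w * (B.i v' * (w⁻¹ * x * w)) * w⁻¹ := by group
    rw [h2, h1]
    group
  have hQC : conjS w V ≤ C := by
    intro x hx
    rw [T3.H62.mem_conjS] at hx
    exact hcomm x hx
  have hcQ : Subgroup.centralizer (conjS w V : Set G) ≤ C := by
    intro x hx
    rw [hC, memC]
    intro v hv
    obtain ⟨v', hv', rfl⟩ := hfs v hv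
    rw [← hw v' hv']
    exact Subgroup.mem_centralizer_iff.1 hx _ ((T3.H62.conjS_mem_iff _).2 (hiV v'))
  have hQp : IsPGroup ℓ ((conjS w V).subgroupOf C) :=
    (hld.tp.pg.map _).comap_of_injective C.subtype C.subtype_injective
  have hQg : Gd (fun t : C => B.b W t) ((conjS w V).subgroupOf C) := by
    refine gd_sub hcQ ?_
    rw [← hcj]
    exact gd_cj (gd_of_gam hld.gam hgam') w
  obtain ⟨c, hc⟩ := hf1 _ hQp hQg
  have hcC : ∀ v ∈ W, B.i v * (c : G) = (c : G) * B.i v := by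
    have h1 : (c : G) ∈ B.C W := by
      rw [← hC]
      exact c.2
    exact (memC W c).1 h1
  obtain ⟨n, hn⟩ : ∃ n : G, n = (c : G)⁻¹ * w := ⟨_, rfl⟩
  have h4 : ∀ v ∈ V, n * v * n⁻¹ ∈ V := by
    intro v hv
    have h5 : w * v * w⁻¹ ∈ conjS w V := (T3.H62.conjS_mem_iff v).2 hv
    have h6 : (⟨w * v * w⁻¹, hQC h5⟩ : C) ∈ (conjS w V).subgroupOf C := h5
    have h7 := hc h6
    rw [T3.H62.mem_conjS] at h7
    have h8 : (c : G)⁻¹ * (w * v * w⁻¹) * c ∈ V := h7
    rwa [show n * v * n⁻¹ = (c : G)⁻¹ * (w * v * w⁻¹) * c by rw [hn]; group]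
  have hnN : n ∈ Subgroup.normalizer (V : Set G) := by
    have h9 : conjS n V = V := by
      apply Subgroup.eq_of_le_of_card_ge
      · intro y hy
        rw [T3.H62.mem_conjS] at hy
        have := h4 _ hy
        rwa [show n * (n⁻¹ * y * n) * n⁻¹ = y by group] at this
      · rw [T3.H62.card_conjS']
    rw [Subgroup.mem_normalizer_iff]
    intro v
    conv_rhs => rw [← h9]
    rw [T3.H62.mem_conjS, show n⁻¹ * (n * v * n⁻¹) * n = v by group]
  have hnv : ∀ v ∈ W', n * B.i v * n⁻¹ = B.i (f v) := by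
    intro v hv
    have h1 : n * B.i v * n⁻¹ = (c : G)⁻¹ * (w * B.i v * w⁻¹) * c := by rw [hn]; group
    rw [h1, hw v hv, mul_assoc, hcC _ (hfW v hv), inv_mul_cancel_left]
  have hnb : H75.cj n (B.b W') = B.b W := by
    rw [hn, ← cj_cj, hcj]
    exact hbx0.ix.inv (inv_mem c.2)
  have hnγ : Bx (Subgroup.centralizer (V : Set G)) (H75.cj n B.g) :=
    hld.gam.cj (T3.H79.norm_cent V hnN)
  have hbn : mulF (br V (B.b W)) (H75.cj n B.g) = H75.cj n B.g := by
    have h1 := congrArg (H75.cj n) hgam'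
    rw [cj_mulF, T3.H79.cj_br hnN, hnb] at h1
    exact h1
  obtain ⟨m, hm, hmn⟩ := H97.orb_main (N := Subgroup.normalizer (V : Set G) ⊓ C)
    (X := Subgroup.centralizer (V : Set G)) (le_inf hXN hXC)
    (inf_le_left.trans (T3.H79.norm_cent V)) hbx hld.gam hnγ hgam hbn
  have hmC : ∀ v ∈ W, B.i v * m = m * B.i v := by
    have h1 : m ∈ B.C W := by
      rw [← hC]
      exact hm.2
    exact (memC W m).1 h1
  have ht : m⁻¹ * n ∈ Tg B.i.range B.g := by
    rw [← hV]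
    refine ⟨Subgroup.mul_mem _ (inv_mem hm.1) hnN, ?_⟩
    have h1 : H75.cj (m⁻¹ * n) B.g = B.g := by
      rw [← cj_cj, hmn, cj_inv_cj]
    exact (cj_eq_iff _ _).1 h1
  obtain ⟨t, ht0⟩ : ∃ t : G, t = m⁻¹ * n := ⟨_, rfl⟩
  rw [← ht0] at ht
  have htv : ∀ v ∈ W', t * B.i v * t⁻¹ = B.i (f v) := by
    intro v hv
    have h1 : t * B.i v * t⁻¹ = m⁻¹ * (n * B.i v * n⁻¹) * m := by rw [ht0]; group
    rw [h1, hnv v hv, mul_assoc, hmC _ (hfW v hv), inv_mul_cancel_left]
  obtain ⟨σ, hσ, hσt⟩ := hB.act t ht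
  refine ⟨σ, hσ, fun v hv => ?_, t, ht, hσt, ?_⟩
  · apply hB.inj
    rw [← htv v hv, hσt]
  · rw [memC]
    intro v hv
    have h1 : w * B.i v = B.i (f v) * w := by
      rw [← hw v hv]
      group
    have h2 : t * B.i v = B.i (f v) * t := by
      rw [← htv v hv]
      group
    have h3 : B.i v * t⁻¹ = t⁻¹ * B.i (f v) := by
      have h4 : t⁻¹ * (t * B.i v) * t⁻¹ = t⁻¹ * (B.i (f v) * t) * t⁻¹ := by rw [h2]
      have e1 : t⁻¹ * (t * B.i v) * t⁻¹ = B.i v * t⁻¹ := by group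
      have e2 : t⁻¹ * (B.i (f v) * t) * t⁻¹ = t⁻¹ * B.i (f v) := by group
      rw [e1, e2] at h4
      exact h4
    rw [← mul_assoc, h3, mul_assoc, ← h1, mul_assoc]

end Pool.Agent.PP.SD.H87
end
end -- Pool.Agent.Helper87_ASD.FUD

section -- Pool.Agent.Helper43_ASO.CMG

/-!
# Squad ASO, row CMG: the comparison group
-/

open scoped BigOperators

noncomputable section

namespace Pool.Agent.PP.SO.H43

/-- `(1 + x) ^ t` modulo `x ^ 2` -/
theorem pow_one_add (x : ℤ) (t : ℕ) : ∃ c : ℤ, (1 + x) ^ t = 1 + t * x + x ^ 2 * c := by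
  induction t with
  | zero => exact ⟨0, by simp⟩
  | succ t ih =>
    obtain ⟨c, hc⟩ := ih
    refine ⟨c + t + x * c, ?_⟩
    rw [pow_succ, hc]
    push_cast
    ring

/-- every number `1` modulo `ℓ` is a power of `g` modulo `ℓ ^ k` -/
theorem exn (ℓ : ℕ) [hp : Fact ℓ.Prime] (hl : ℓ ≠ 2) (g : ℤ) (hg : (ℓ : ℤ) ∣ g - 1)
    (hg2 : ¬ (ℓ : ℤ) ^ 2 ∣ g - 1) (k : ℕ) : ∀ U : ℤ, (ℓ : ℤ) ∣ U - 1 →
    ∃ n : ℕ, (ℓ : ℤ) ^ k ∣ g ^ n - U := by
  induction k with
  | zero => exact fun U _ => ⟨0, by simp⟩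
  | succ k ih =>
    intro U hU
    rcases Nat.eq_zero_or_pos k with hk | hk
    · subst hk
      refine ⟨0, ?_⟩
      simpa [← Int.dvd_neg (b := U - 1)] using hU
    obtain ⟨n, hn⟩ := ih U hU
    obtain ⟨q, hq⟩ := hn
    have hpr : Prime (ℓ : ℤ) := Nat.prime_iff_prime_int.1 hp.out
    have hodd : Odd ℓ := hp.out.odd_of_ne_two hl
    have hgl : ¬ (ℓ : ℤ) ∣ g := by
      intro h
      have h1 := dvd_sub h hg
      rw [sub_sub_cancel] at h1
      exact hpr.not_isUnit (isUnit_of_dvd_one h1)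
    have he : emultiplicity (ℓ : ℤ) (g ^ (ℓ ^ (k - 1)) - 1) = k := by
      have h1 := Int.emultiplicity_pow_sub_pow hp.out hodd (x := g) (y := 1) hg hgl (ℓ ^ (k - 1))
      rw [one_pow] at h1
      rw [h1]
      have h2 : emultiplicity (ℓ : ℤ) (g - 1) = 1 := by
        have := emultiplicity_eq_coe (a := (ℓ : ℤ)) (b := g - 1) (n := 1)
        rw [Nat.cast_one] at this
        exact this.2 ⟨by simpa using hg, by simpa using hg2⟩
      have h3 : emultiplicity ℓ (ℓ ^ (k - 1)) = ((k - 1 : ℕ) : ℕ∞) :=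
        Nat.Prime.emultiplicity_pow_self hp.out
      rw [h2, h3]
      have : k = 1 + (k - 1) := by omega
      conv_rhs => rw [this]
      push_cast
      rfl
    obtain ⟨h1, h2⟩ := emultiplicity_eq_coe.1 he
    obtain ⟨s, hs⟩ := h1
    have hsl : ¬ (ℓ : ℤ) ∣ s := by
      rintro ⟨s', hs'⟩
      exact h2 ⟨s', by rw [hs, hs', pow_succ]; ring⟩
    -- choose `t` with `t s = - q` modulo `ℓ`
    have hcop : IsCoprime (ℓ : ℤ) s := (Prime.coprime_iff_not_dvd hpr).2 hsl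
    obtain ⟨x, y, hxy⟩ := hcop
    -- `y s = 1` modulo `ℓ`
    set t : ℕ := ((-q * y) % (ℓ : ℤ)).toNat with ht
    have ht1 : ((t : ℕ) : ℤ) = (-q * y) % (ℓ : ℤ) := by
      rw [ht, Int.toNat_of_nonneg]
      exact Int.emod_nonneg _ (by exact_mod_cast hp.out.ne_zero)
    have ht2 : (ℓ : ℤ) ∣ q + t * s := by
      have h3 : (ℓ : ℤ) ∣ (-q * y) - t := by
        rw [ht1]
        exact Int.dvd_self_sub_emod
      have h4 : q + t * s = q * x * ℓ - ((-q * y) - t) * s := by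
        have : q = q * (x * ℓ + y * s) := by rw [hxy, mul_one]
        linear_combination this
      rw [h4]
      exact dvd_sub (Dvd.intro_left _ rfl) (h3.mul_right _)
    refine ⟨n + ℓ ^ (k - 1) * t, ?_⟩
    obtain ⟨c, hc⟩ := pow_one_add ((ℓ : ℤ) ^ k * s) t
    have h5 : g ^ (ℓ ^ (k - 1)) = 1 + (ℓ : ℤ) ^ k * s := by rw [← hs]; ring
    have h6 : (ℓ : ℤ) ∣ g ^ n - 1 := by
      have h7 := sub_dvd_pow_sub_pow g 1 n
      rw [one_pow] at h7
      exact hg.trans h7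
    obtain ⟨w, hw⟩ := h6
    obtain ⟨z, hz⟩ := ht2
    obtain ⟨k', rfl⟩ : ∃ k', k = k' + 1 := ⟨k - 1, by omega⟩
    have h12 : g ^ (n + ℓ ^ (k' + 1 - 1) * t) = g ^ n * (1 + t * ((ℓ : ℤ) ^ (k' + 1) * s) +
        ((ℓ : ℤ) ^ (k' + 1) * s) ^ 2 * c) := by
      rw [pow_add g, pow_mul g, h5, hc]
    rw [h12]
    have h8 : g ^ n = U + (ℓ : ℤ) ^ (k' + 1) * q := by rw [← hq]; ring
    refine ⟨z + w * t * s + g ^ n * (ℓ : ℤ) ^ k' * s ^ 2 * c, ?_⟩
    have h9 : g ^ n = 1 + ℓ * w := by rw [← hw]; ring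
    have h10 : g ^ n * (1 + t * ((ℓ : ℤ) ^ (k' + 1) * s) + ((ℓ : ℤ) ^ (k' + 1) * s) ^ 2 * c) - U =
        (g ^ n - U) + g ^ n * t * ((ℓ : ℤ) ^ (k' + 1) * s) +
        g ^ n * ((ℓ : ℤ) ^ (k' + 1) * s) ^ 2 * c := by ring
    rw [h10, hq]
    have h11 : (ℓ : ℤ) ^ (k' + 1) * q + g ^ n * t * ((ℓ : ℤ) ^ (k' + 1) * s) =
        (ℓ : ℤ) ^ (k' + 1) * (q + t * s) + (g ^ n - 1) * t * ((ℓ : ℤ) ^ (k' + 1) * s) := by ring
    rw [h11, hz, hw]
    ring

/-! ## the group -/

section grp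

variable {V₀ : Type} [CommGroup V₀] (E₀ : Subgroup (MulAut V₀)) (p : ℕ) (a : Subgroup V₀ → ℕ)

/-- the index set: `(λ, i)` with `λ ≠ 1`, `i < a (ker λ)` -/
abbrev JJ : Type := {x : (V₀ →* (ZMod p)ˣ) × ℕ // x.1 ≠ 1 ∧ x.2 < a x.1.ker}

variable {E₀ p a}

/-- `(λ, i) ↦ (λ ∘ φ, i)` -/
def sg (ha : ∀ (W : Subgroup V₀), ∀ φ ∈ E₀, a (W.map (φ : V₀ ≃* V₀).toMonoidHom) = a W)
    (φ : E₀) (j : JJ p a) : JJ p a :=
  ⟨(j.1.1.comp ((φ : MulAut V₀) : V₀ ≃* V₀).toMonoidHom, j.1.2), by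
    have h1 : (j.1.1.comp ((φ : MulAut V₀) : V₀ ≃* V₀).toMonoidHom).ker.map
        ((φ : MulAut V₀) : V₀ ≃* V₀).toMonoidHom = j.1.1.ker := by
      ext x
      simp only [Subgroup.mem_map, MonoidHom.mem_ker, MonoidHom.comp_apply]
      constructor
      · rintro ⟨y, hy, rfl⟩
        exact hy
      · intro hx
        exact ⟨((φ : MulAut V₀) : V₀ ≃* V₀).symm x, by simpa using hx, by simp⟩
    refine ⟨?_, ?_⟩
    · intro h
      apply j.2.1
      ext x
      have := DFunLike.congr_fun h (((φ : MulAut V₀) : V₀ ≃* V₀).symm x)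
      simpa using this
    · have h2 := j.2.2
      rw [← h1, ha _ _ φ.2] at h2
      exact h2⟩

variable (ha : ∀ (W : Subgroup V₀), ∀ φ ∈ E₀, a (W.map (φ : V₀ ≃* V₀).toMonoidHom) = a W)

theorem sg_one (j : JJ p a) : sg ha (1 : E₀) j = j := by
  apply Subtype.ext
  apply Prod.ext
  · ext x
    rfl
  · rfl

theorem sg_mul (φ ψ : E₀) (j : JJ p a) : sg ha (φ * ψ) j = sg ha ψ (sg ha φ j) := by
  apply Subtype.ext
  apply Prod.ext
  · ext x
    rfl
  · rfl

/-- the action on the functions -/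
@[reducible] def act : MulDistribMulAction (V₀ ⋊[E₀.subtype] E₀) (Multiplicative (JJ p a → ZMod p)) where
  smul x f := Multiplicative.ofAdd
    (fun j => (j.1.1 x.left : ZMod p) * Multiplicative.toAdd f (sg ha x.right j))
  one_smul f := by
    change Multiplicative.ofAdd (fun j : JJ p a => (j.1.1 (1 : V₀) : ZMod p) *
      Multiplicative.toAdd f (sg ha (1 : E₀) j)) = f
    simp only [sg_one, map_one, Units.val_one, one_mul]
    rfl
  mul_smul x y f := by
    change Multiplicative.ofAdd (fun j : JJ p a => (j.1.1 (x.left * (E₀.subtype x.right) y.left) : ZMod p) *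
      Multiplicative.toAdd f (sg ha (x.right * y.right) j)) = Multiplicative.ofAdd (fun j : JJ p a =>
        (j.1.1 x.left : ZMod p) * (((sg ha x.right j).1.1 y.left : ZMod p) *
        Multiplicative.toAdd f (sg ha y.right (sg ha x.right j))))
    congr 1
    funext j
    rw [sg_mul, map_mul, Units.val_mul, mul_assoc]
    rfl
  smul_mul x f g := by
    change Multiplicative.ofAdd (fun j : JJ p a => (j.1.1 x.left : ZMod p) *
      (Multiplicative.toAdd f (sg ha x.right j) + Multiplicative.toAdd g (sg ha x.right j))) =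
      Multiplicative.ofAdd ((fun j : JJ p a => (j.1.1 x.left : ZMod p) *
        Multiplicative.toAdd f (sg ha x.right j)) + (fun j : JJ p a => (j.1.1 x.left : ZMod p) *
        Multiplicative.toAdd g (sg ha x.right j)))
    congr 1
    funext j
    exact mul_add _ _ _
  smul_one x := by
    change Multiplicative.ofAdd (fun j : JJ p a => (j.1.1 x.left : ZMod p) * 0) = 1
    simp only [mul_zero]
    rfl

/-- the action as a homomorphism -/
def th : V₀ ⋊[E₀.subtype] E₀ →* MulAut (Multiplicative (JJ p a → ZMod p)) :=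
  @MulDistribMulAction.toMulAut _ _ _ _ (act ha)

theorem th_apply (x : V₀ ⋊[E₀.subtype] E₀) (f : Multiplicative (JJ p a → ZMod p)) (j : JJ p a) :
    Multiplicative.toAdd (th ha x f) j =
      (j.1.1 x.left : ZMod p) * Multiplicative.toAdd f (sg ha x.right j) := rfl

/-- the comparison group -/
abbrev GC : Type := Multiplicative (JJ p a → ZMod p) ⋊[th ha] (V₀ ⋊[E₀.subtype] E₀)

theorem finJ [Finite V₀] [Fact p.Prime] : Finite (JJ p a) := by
  have h1 : Finite (V₀ →* (ZMod p)ˣ) := Finite.of_injective (fun f : V₀ →* (ZMod p)ˣ => (f : V₀ → (ZMod p)ˣ))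
    DFunLike.coe_injective
  let F : JJ p a → Σ x : V₀ →* (ZMod p)ˣ, Fin (a x.ker) := fun j => ⟨j.1.1, ⟨j.1.2, j.2.2⟩⟩
  refine Finite.of_injective F ?_
  rintro ⟨⟨x, i⟩, hx⟩ ⟨⟨y, j⟩, hy⟩ h
  simp only [F, Sigma.mk.injEq] at h
  obtain ⟨h2, h3⟩ := h
  subst h2
  simp only [heq_eq_eq, Fin.mk.injEq] at h3
  subst h3
  rfl

theorem finG [Finite V₀] [Fact p.Prime] : Finite (GC (p := p) ha) := by
  have := finJ (p := p) (a := a)
  have h2 : Finite (JJ p a → ZMod p) := inferInstance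
  have h3 : Finite (Multiplicative (JJ p a → ZMod p)) := h2
  have h4 : Finite (MulAut V₀) := Finite.of_injective (fun f : MulAut V₀ => (f : V₀ → V₀))
    DFunLike.coe_injective
  have h5 : Finite (V₀ ⋊[E₀.subtype] E₀) := Finite.of_injective (fun x => (x.left, x.right))
    (fun x y h => SemidirectProduct.ext (Prod.ext_iff.1 h).1 (Prod.ext_iff.1 h).2)
  exact Finite.of_injective (fun x => (x.left, x.right))
    (fun x y h => SemidirectProduct.ext (Prod.ext_iff.1 h).1 (Prod.ext_iff.1 h).2)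

/-- the inclusion of `V₀` -/
def io : V₀ →* GC ha (p := p) := SemidirectProduct.inr.comp SemidirectProduct.inl

/-- the inclusion of `E₀` -/
def ep : E₀ →* GC ha (p := p) := SemidirectProduct.inr.comp SemidirectProduct.inr

/-- the projection -/
def pr : GC ha (p := p) →* V₀ ⋊[E₀.subtype] E₀ := SemidirectProduct.rightHom

theorem conj_inl (v : V₀) (f : Multiplicative (JJ p a → ZMod p)) :
    io ha v * SemidirectProduct.inl f * (io ha v)⁻¹ =
      SemidirectProduct.inl (th ha (SemidirectProduct.inl v) f) := by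
  rw [SemidirectProduct.inl_aut, ← map_inv]
  rfl

theorem mem_ker_iff (x : GC ha (p := p)) : x ∈ (pr ha).ker ↔ ∃ f, x = SemidirectProduct.inl f := by
  rw [MonoidHom.mem_ker]
  constructor
  · intro h
    exact ⟨x.left, SemidirectProduct.ext rfl h⟩
  · rintro ⟨f, rfl⟩
    rfl

theorem comm_iff (v : V₀) (f : Multiplicative (JJ p a → ZMod p)) :
    io ha v * SemidirectProduct.inl f = SemidirectProduct.inl f * io ha v ↔
      ∀ j : JJ p a, (j.1.1 v : ZMod p) * Multiplicative.toAdd f j = Multiplicative.toAdd f j := by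
  rw [← mul_inv_eq_iff_eq_mul, conj_inl, SemidirectProduct.inl_inj]
  constructor
  · intro h j
    have := congrArg (fun g : Multiplicative (JJ p a → ZMod p) => Multiplicative.toAdd g j) h
    rw [th_apply] at this
    simpa [sg_one] using this
  · intro h
    apply Multiplicative.toAdd.injective
    funext j
    rw [th_apply]
    simpa [sg_one] using h j

/-- the fixed points of `W` in the kernel -/
theorem card_fix [Finite V₀] [Fact p.Prime] (W : Subgroup V₀) :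
    Nat.card ((pr (p := p) ha).ker ⊓ Subgroup.centralizer ((W.map (io (p := p) ha) : Subgroup (GC (p := p) ha)) :
        Set (GC (p := p) ha)) :
      Subgroup (GC (p := p) ha)) = p ^ Nat.card {j : JJ p a // W ≤ j.1.1.ker} := by
  classical
  have hJ := finJ (V₀ := V₀) (p := p) (a := a)
  have hmem : ∀ f : Multiplicative (JJ p a → ZMod p),
      (SemidirectProduct.inl f : GC (p := p) ha) ∈ (pr (p := p) ha).ker ⊓
        Subgroup.centralizer ((W.map (io (p := p) ha) : Subgroup (GC (p := p) ha)) :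
        Set (GC (p := p) ha)) ↔
      ∀ j : JJ p a, ¬ W ≤ j.1.1.ker → Multiplicative.toAdd f j = 0 := by
    intro f
    rw [Subgroup.mem_inf, and_iff_right ((mem_ker_iff ha _).2 ⟨f, rfl⟩), Subgroup.mem_centralizer_iff]
    constructor
    · intro h j hj
      obtain ⟨v, hv, hv'⟩ := Set.not_subset.1 hj
      have h1 := (comm_iff ha v f).1 (h _ (Subgroup.mem_map_of_mem _ hv)) j
      have h2 : ((j.1.1 v : ZMod p) - 1) * Multiplicative.toAdd f j = 0 := by
        rw [sub_mul, one_mul, h1, sub_self]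
      rcases mul_eq_zero.1 h2 with h3 | h3
      · exact absurd (MonoidHom.mem_ker.2 (Units.ext (sub_eq_zero.1 h3))) hv'
      · exact h3
    · rintro h _ ⟨v, hv, rfl⟩
      refine (comm_iff ha v f).2 fun j => ?_
      by_cases hj : W ≤ j.1.1.ker
      · rw [MonoidHom.mem_ker.1 (hj hv), Units.val_one, one_mul]
      · rw [h j hj, mul_zero]
  let F : ({j : JJ p a // W ≤ j.1.1.ker} → ZMod p) → ((pr (p := p) ha).ker ⊓
      Subgroup.centralizer ((W.map (io (p := p) ha) : Subgroup (GC (p := p) ha))         : Set (GC (p := p) ha)) : Subgroup (GC (p := p) ha)) := fun g =>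
    ⟨SemidirectProduct.inl (Multiplicative.ofAdd (fun j => if h : W ≤ j.1.1.ker then g ⟨j, h⟩ else 0)),
      (hmem _).2 fun j hj => dif_neg hj⟩
  have hF : Function.Bijective F := by
    constructor
    · intro g g' h
      have h1 := SemidirectProduct.inl_injective (congrArg Subtype.val h)
      funext j
      have h2 := congrFun (Multiplicative.ofAdd.injective h1) j.1
      simpa [j.2] using h2
    · rintro ⟨x, hx⟩
      obtain ⟨f, rfl⟩ := (mem_ker_iff ha x).1 hx.1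
      refine ⟨fun j => Multiplicative.toAdd f j.1, ?_⟩
      apply Subtype.ext
      change SemidirectProduct.inl _ = SemidirectProduct.inl _
      congr 1
      apply Multiplicative.toAdd.injective
      funext j
      by_cases hj : W ≤ j.1.1.ker
      · exact dif_pos hj
      · exact (dif_neg hj).trans ((hmem f).1 hx j hj).symm
  rw [← Nat.card_congr (Equiv.ofBijective F hF), Nat.card_fun, Nat.card_zmod]

end grp

/-- `ℤ/p` has the `ℓ`-th roots of unity -/
theorem enough (ℓ p : ℕ) [hl : Fact ℓ.Prime] [hp : Fact p.Prime] (h : ℓ ∣ p - 1) :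
    HasEnoughRootsOfUnity (ZMod p) ℓ := by
  have hn : NeZero ℓ := ⟨hl.out.ne_zero⟩
  obtain ⟨g, hg⟩ := IsCyclic.exists_generator (α := (ZMod p)ˣ)
  have h1 : orderOf g = p - 1 := by
    rw [orderOf_eq_card_of_forall_mem_zpowers hg, Nat.card_eq_fintype_card, ZMod.card_units]
  obtain ⟨m, hm⟩ := h
  have h2 : IsPrimitiveRoot g (p - 1) := by
    rw [← h1]
    exact IsPrimitiveRoot.orderOf g
  have h3 : IsPrimitiveRoot (g ^ m) ℓ := h2.pow (by
    have := hp.out.two_le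
    omega) (by rw [hm, mul_comm])
  exact ⟨⟨((g ^ m : (ZMod p)ˣ) : ZMod p), IsPrimitiveRoot.coe_units_iff.2 h3⟩,
    rootsOfUnity.isCyclic _ _⟩

/-- the number of the `λ ≠ 1` which are trivial on `W` -/
theorem card_lam (ℓ p : ℕ) [hl : Fact ℓ.Prime] [hp : Fact p.Prime] (h : ℓ ∣ p - 1)
    (V₀ : Type) [CommGroup V₀] [Finite V₀] (hV : ∀ v : V₀, v ^ ℓ = 1) (W : Subgroup V₀) :
    Nat.card {x : V₀ →* (ZMod p)ˣ // x ≠ 1 ∧ W ≤ x.ker} = Nat.card (V₀ ⧸ W) - 1 := by
  classical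
  have hn : NeZero ℓ := ⟨hl.out.ne_zero⟩
  have hE := enough ℓ p h
  have hX : HasEnoughRootsOfUnity (ZMod p) (Monoid.exponent V₀) :=
    HasEnoughRootsOfUnity.of_dvd (n := ℓ) (ZMod p) (Monoid.exponent_dvd_of_forall_pow_eq_one hV)
  have h1 : Finite (V₀ →* (ZMod p)ˣ) := Finite.of_injective (fun f : V₀ →* (ZMod p)ˣ => (f : V₀ → (ZMod p)ˣ))
    DFunLike.coe_injective
  rw [← CommGroup.card_domRestrictHom_ker (ZMod p) W]
  have h2 : ∀ x : V₀ →* (ZMod p)ˣ, x ∈ (MonoidHom.domRestrictHom W (ZMod p)ˣ).ker ↔ W ≤ x.ker := by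
    intro x
    rw [MonoidHom.mem_ker]
    constructor
    · intro h v hv
      exact DFunLike.congr_fun h ⟨v, hv⟩
    · intro h
      ext v
      have := h v.2
      rw [MonoidHom.mem_ker] at this
      exact congrArg Units.val this
  have h3 : Nat.card {x : V₀ →* (ZMod p)ˣ // x ≠ 1 ∧ W ≤ x.ker} =
      (((MonoidHom.domRestrictHom W (ZMod p)ˣ).ker : Set (V₀ →* (ZMod p)ˣ)) \ {1}).ncard := by
    rw [← Nat.card_coe_set_eq]
    apply Nat.card_congr
    apply Equiv.subtypeEquivRight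
    intro x
    rw [Set.mem_sdiff, SetLike.mem_coe, h2, Set.mem_singleton_iff, and_comm]
  rw [h3, Set.ncard_sdiff_singleton_of_mem (one_mem _), ← Nat.card_coe_set_eq]
  rfl

theorem card_J (ℓ p : ℕ) [hl : Fact ℓ.Prime] [hp : Fact p.Prime] (h : ℓ ∣ p - 1)
    (V₀ : Type) [CommGroup V₀] [Finite V₀] (hV : ∀ v : V₀, v ^ ℓ = 1) (hc : Nat.card V₀ = ℓ ^ 2)
    (a : Subgroup V₀ → ℕ) (W : Subgroup V₀) (hW : W ≠ ⊥) (hW' : W ≠ ⊤) :
    Nat.card {j : JJ p a // W ≤ j.1.1.ker} = (ℓ - 1) * a W := by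
  classical
  have hord : ∀ Y : Subgroup V₀, Y ≠ ⊥ → Y ≠ ⊤ → Nat.card Y = ℓ := by
    intro Y hY hY'
    have h1 : Nat.card Y ∣ ℓ ^ 2 := hc ▸ Y.card_subgroup_dvd_card
    obtain ⟨i, hi, hi'⟩ := (Nat.dvd_prime_pow hl.out).1 h1
    have h2 : i ≠ 0 := by
      rintro rfl
      exact hY (Subgroup.card_eq_one.1 (by simpa using hi'))
    have h3 : i ≠ 2 := by
      rintro rfl
      exact hY' (Subgroup.eq_top_of_card_eq Y (hi'.trans hc.symm))
    have h4 : i = 1 := by omega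
    rw [hi', h4, pow_one]
  have h0 : ∀ x : V₀ →* (ZMod p)ˣ, x ≠ 1 → W ≤ x.ker → x.ker = W := by
    intro x hx hx'
    have h2 : x.ker ≠ ⊤ := fun h => hx (MonoidHom.ker_eq_top_iff.1 h)
    have h3 : x.ker ≠ ⊥ := fun h => hW (le_bot_iff.1 (h ▸ hx'))
    refine (Subgroup.eq_of_le_of_card_ge hx' ?_).symm
    rw [hord _ h3 h2, hord _ hW hW']
  have hcW : Nat.card (V₀ ⧸ W) = ℓ := by
    have h1 := W.card_eq_card_quotient_mul_card_subgroup
    rw [hc, hord W hW hW', pow_two] at h1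
    exact (Nat.eq_of_mul_eq_mul_right hl.out.pos h1).symm
  have h1 := card_lam ℓ p h V₀ hV W
  rw [hcW] at h1
  rw [← h1]
  conv_rhs => rw [← Nat.card_fin (a W)]
  rw [← Nat.card_prod]
  refine Nat.card_congr (Equiv.ofBijective (fun j => (⟨j.1.1.1, j.1.2.1, j.2⟩,
    ⟨j.1.1.2, lt_of_lt_of_eq j.1.2.2 (congrArg a (h0 j.1.1.1 j.1.2.1 j.2))⟩)) ⟨?_, ?_⟩)
  · intro j j' h
    simp only [Prod.mk.injEq, Subtype.mk.injEq, Fin.mk.injEq] at h
    exact Subtype.ext (Subtype.ext (Prod.ext h.1 h.2))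
  · rintro ⟨⟨x, hx, hx'⟩, i⟩
    exact ⟨⟨⟨(x, i), hx, by rw [h0 x hx hx']; exact i.2⟩, hx'⟩, rfl⟩

/-- Row CMG. -/
theorem cmg : CmgStmt := by
  intro ℓ hl hl2 V₀ _ _ hV hc E₀ k U hU hUE
  -- the prime `p`
  have hlp : IsCoprime ((1 + ℓ : ℕ) : ℤ) (ℓ ^ 2 : ℕ) := by
    rw [Nat.isCoprime_iff_coprime]
    apply Nat.Coprime.pow_right
    simp
  obtain ⟨p, hp0, hpp, hpm⟩ := Nat.forall_exists_prime_gt_and_zmodEq ℓ
    (pow_ne_zero 2 hl.out.ne_zero) hlp
  have hpF : Fact p.Prime := ⟨hpp⟩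
  have hl1 : 1 < ℓ := hl.out.one_lt
  have hd2 : ((ℓ : ℤ)) ^ 2 ∣ (p : ℤ) - (1 + ℓ) := by
    have := Int.modEq_iff_dvd.1 hpm.symm
    push_cast at this ⊢
    exact this
  have hd1 : (ℓ : ℤ) ∣ (p : ℤ) - 1 := by
    have h1 : (ℓ : ℤ) ∣ (p : ℤ) - (1 + ℓ) := (Dvd.intro _ (by ring : (ℓ : ℤ) * ℓ = (ℓ : ℤ) ^ 2)).trans hd2
    have h2 := dvd_add h1 (dvd_refl (ℓ : ℤ))
    have h3 : (p : ℤ) - (1 + ℓ) + ℓ = p - 1 := by ring
    rwa [h3] at h2
  have hdn : ℓ ∣ p - 1 := by
    have : ((p - 1 : ℕ) : ℤ) = (p : ℤ) - 1 := by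
      rw [Nat.cast_sub hpp.one_lt.le, Nat.cast_one]
    exact Int.natCast_dvd_natCast.1 (this ▸ hd1)
  -- `g = p ^ (ℓ - 1)`
  have hg1 : (ℓ : ℤ) ∣ (p : ℤ) ^ (ℓ - 1) - 1 := by
    have := sub_dvd_pow_sub_pow (p : ℤ) 1 (ℓ - 1)
    rw [one_pow] at this
    exact hd1.trans this
  have hg2 : ¬ (ℓ : ℤ) ^ 2 ∣ (p : ℤ) ^ (ℓ - 1) - 1 := by
    intro h
    have h1 : (ℓ : ℤ) ^ 2 ∣ (p : ℤ) ^ (ℓ - 1) - (1 + ℓ) ^ (ℓ - 1) :=
      hd2.trans (sub_dvd_pow_sub_pow _ _ _)
    obtain ⟨c, hc'⟩ := pow_one_add (ℓ : ℤ) (ℓ - 1)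
    have h2 := dvd_sub h h1
    have h3 : (p : ℤ) ^ (ℓ - 1) - 1 - ((p : ℤ) ^ (ℓ - 1) - (1 + ℓ) ^ (ℓ - 1)) =
        ((ℓ - 1 : ℕ) : ℤ) * ℓ + (ℓ : ℤ) ^ 2 * c := by
      rw [hc']
      ring
    rw [h3] at h2
    have h4 : (ℓ : ℤ) ^ 2 ∣ ((ℓ - 1 : ℕ) : ℤ) * ℓ := (dvd_add_left (Dvd.intro _ rfl)).1 h2
    have h5 : (ℓ : ℤ) ∣ ((ℓ - 1 : ℕ) : ℤ) := by
      rw [pow_two] at h4
      exact Int.dvd_of_mul_dvd_mul_right (by exact_mod_cast hl.out.ne_zero) h4
    have h6 := Nat.le_of_dvd (by omega) (Int.natCast_dvd_natCast.1 h5)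
    omega
  have hex := exn ℓ hl2 ((p : ℤ) ^ (ℓ - 1)) hg1 hg2 k
  let n : ℤ → ℕ := fun u => if h : (ℓ : ℤ) ∣ u - 1 then (hex u h).choose else 0
  let a : Subgroup V₀ → ℕ := fun W => n (U W)
  have ha : ∀ (W : Subgroup V₀), ∀ φ ∈ E₀, a (W.map (φ : V₀ ≃* V₀).toMonoidHom) = a W :=
    fun W φ hφ => congrArg n (hUE W φ hφ)
  have haU : ∀ W, (ℓ : ℤ) ^ k ∣ ((p : ℤ) ^ (ℓ - 1)) ^ a W - U W := by
    intro W
    have h1 : a W = (hex (U W) (hU W)).choose := dif_pos (hU W)
    rw [h1]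
    exact (hex (U W) (hU W)).choose_spec
  have hJ := finJ (V₀ := V₀) (p := p) (a := a)
  refine ⟨GC (p := p) ha, inferInstance, finG ha, pr ha, io ha, ep ha, ?_, ?_, fun v => rfl,
    fun φ => rfl, ?_, ?_, ?_⟩
  · exact SemidirectProduct.rightHom_surjective
  · have h1 := card_fix (p := p) ha ⊥
    rw [Subgroup.map_bot, Subgroup.coe_bot] at h1
    have h2 : (pr (p := p) ha).ker ⊓ Subgroup.centralizer ({1} : Set (GC (p := p) ha)) =
        (pr (p := p) ha).ker := by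
      rw [inf_eq_left]
      intro x _
      rw [Subgroup.mem_centralizer_iff]
      rintro y rfl
      rw [one_mul, mul_one]
    rw [h2] at h1
    rw [h1]
    intro h3
    have h4 := (Nat.prime_dvd_prime_iff_eq hl.out hpp).1 (hl.out.dvd_of_dvd_pow h3)
    exact absurd h4 hp0.ne
  · intro φ v
    have h1 : (SemidirectProduct.inr φ * SemidirectProduct.inl v * (SemidirectProduct.inr φ)⁻¹ :
        V₀ ⋊[E₀.subtype] E₀) = SemidirectProduct.inl ((φ : MulAut V₀) v) := by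
      rw [← map_inv, ← SemidirectProduct.inl_aut]
      rfl
    change SemidirectProduct.inr (SemidirectProduct.inr φ) * SemidirectProduct.inr
      (SemidirectProduct.inl v) * (SemidirectProduct.inr (SemidirectProduct.inr φ))⁻¹ =
      SemidirectProduct.inr (SemidirectProduct.inl ((φ : MulAut V₀) v))
    rw [← h1, map_mul, map_mul, map_inv]
  · intro x hx
    rw [Subgroup.mem_centralizer_iff] at hx
    have h1 : ∀ v : V₀, io ha v * x = x * io ha v := fun v => hx _ ⟨v, rfl⟩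
    -- the component in `E₀` is trivial
    have h2 : x.right.right = 1 := by
      apply Subtype.ext
      apply MulEquiv.ext
      intro v
      have h3 := congrArg (fun y : GC (p := p) ha => y.right.left) (h1 v)
      change v * (1 : MulAut V₀) x.right.left = x.right.left * (x.right.right : MulAut V₀) v at h3
      have h4 : v * x.right.left = x.right.left * (x.right.right : MulAut V₀) v := h3
      rw [mul_comm v] at h4
      exact (mul_left_cancel h4).symm
    have h3 : x = SemidirectProduct.inl x.left * io ha x.right.left := by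
      apply SemidirectProduct.ext
      · simp [io]
      · apply SemidirectProduct.ext
        · simp [io]
        · simp [io, h2]
    have h4 : ∀ v : V₀, io ha v * SemidirectProduct.inl x.left = SemidirectProduct.inl x.left * io ha v := by
      intro v
      have h5 := h1 v
      rw [h3] at h5
      have h6 : io ha x.right.left * io ha v = io (p := p) ha v * io ha x.right.left := by
        rw [← map_mul, ← map_mul, mul_comm]
      rw [mul_assoc, h6, ← mul_assoc, ← mul_assoc] at h5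
      exact mul_right_cancel h5
    have h5 : x.left = 1 := by
      apply Multiplicative.toAdd.injective
      funext j
      by_contra h6
      apply j.2.1
      ext v
      have h7 := (comm_iff ha v x.left).1 (h4 v) j
      exact mul_right_cancel₀ h6 (h7.trans (one_mul _).symm)
    rw [h3, h5, map_one, one_mul]
    exact ⟨_, rfl⟩
  · intro W hW hW'
    rw [card_fix, card_J ℓ p hdn V₀ hV hc a W hW hW', pow_mul]
    have := haU W
    push_cast
    exact this

end Pool.Agent.PP.SO.H43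
end
end -- Pool.Agent.Helper43_ASO.CMG

section -- Pool.Agent.Helper43_ASD.CGX

/-!
# Squad ASD, row CBG, part 1: the comparison group with exact subgroups
-/

open scoped BigOperators

noncomputable section

namespace Pool.Agent.PP.SD.H43

open Pool.Agent.PP.SO.H43

/-- the comparison group with exact subgroups -/
theorem cgx (ℓ : ℕ) [hl : Fact ℓ.Prime] (hl2 : ℓ ≠ 2) (V₀ : Type) [CommGroup V₀] [Finite V₀]
    (hV : ∀ v : V₀, v ^ ℓ = 1) (hc : Nat.card V₀ = ℓ ^ 2) (E₀ : Subgroup (MulAut V₀)) (k : ℕ)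
    (P : Subgroup V₀ → Prop)
    (hP : ∀ W : Subgroup V₀, ∀ φ ∈ E₀, P (W.map (φ : V₀ ≃* V₀).toMonoidHom) ↔ P W)
    (U : Subgroup V₀ → ℤ) (hU : ∀ W, (ℓ : ℤ) ∣ U W - 1)
    (hUE : ∀ W : Subgroup V₀, ¬ P W → ∀ φ ∈ E₀, U (W.map (φ : V₀ ≃* V₀).toMonoidHom) = U W) :
    ∃ (G : Type) (_ : Group G) (_ : Finite G) (π : G →* V₀ ⋊[E₀.subtype] E₀)
      (j : V₀ ⋊[E₀.subtype] E₀ →* G), (∀ y, π (j y) = y) ∧ ¬ ℓ ∣ Nat.card π.ker ∧
      Subgroup.centralizer ((j.comp SemidirectProduct.inl).range : Set G) ≤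
        (j.comp SemidirectProduct.inl).range ∧
      (∀ W : Subgroup V₀, W ≠ ⊥ → (W = ⊤ ∨ P W) → Nat.card (π.ker ⊓
        Subgroup.centralizer (W.map (j.comp SemidirectProduct.inl) : Set G) : Subgroup G) = 1) ∧
      ∀ W : Subgroup V₀, W ≠ ⊥ → W ≠ ⊤ → ¬ P W → ((ℓ ^ k : ℕ) : ℤ) ∣ (Nat.card (π.ker ⊓
        Subgroup.centralizer (W.map (j.comp SemidirectProduct.inl) : Set G) : Subgroup G) : ℤ) -
          U W := by
  classical
  -- the prime `p`
  have hlp : IsCoprime ((1 + ℓ : ℕ) : ℤ) (ℓ ^ 2 : ℕ) := by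
    rw [Nat.isCoprime_iff_coprime]
    apply Nat.Coprime.pow_right
    simp
  obtain ⟨p, hp0, hpp, hpm⟩ := Nat.forall_exists_prime_gt_and_zmodEq ℓ
    (pow_ne_zero 2 hl.out.ne_zero) hlp
  have hpF : Fact p.Prime := ⟨hpp⟩
  have hl1 : 1 < ℓ := hl.out.one_lt
  have hd2 : ((ℓ : ℤ)) ^ 2 ∣ (p : ℤ) - (1 + ℓ) := by
    have := Int.modEq_iff_dvd.1 hpm.symm
    push_cast at this ⊢
    exact this
  have hd1 : (ℓ : ℤ) ∣ (p : ℤ) - 1 := by
    have h1 : (ℓ : ℤ) ∣ (p : ℤ) - (1 + ℓ) :=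
      (Dvd.intro _ (by ring : (ℓ : ℤ) * ℓ = (ℓ : ℤ) ^ 2)).trans hd2
    have h2 := dvd_add h1 (dvd_refl (ℓ : ℤ))
    have h3 : (p : ℤ) - (1 + ℓ) + ℓ = p - 1 := by ring
    rwa [h3] at h2
  have hdn : ℓ ∣ p - 1 := by
    have : ((p - 1 : ℕ) : ℤ) = (p : ℤ) - 1 := by
      rw [Nat.cast_sub hpp.one_lt.le, Nat.cast_one]
    exact Int.natCast_dvd_natCast.1 (this ▸ hd1)
  -- `g = p ^ (ℓ - 1)`
  have hg1 : (ℓ : ℤ) ∣ (p : ℤ) ^ (ℓ - 1) - 1 := by
    have := sub_dvd_pow_sub_pow (p : ℤ) 1 (ℓ - 1)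
    rw [one_pow] at this
    exact hd1.trans this
  have hg2 : ¬ (ℓ : ℤ) ^ 2 ∣ (p : ℤ) ^ (ℓ - 1) - 1 := by
    intro h
    have h1 : (ℓ : ℤ) ^ 2 ∣ (p : ℤ) ^ (ℓ - 1) - (1 + ℓ) ^ (ℓ - 1) :=
      hd2.trans (sub_dvd_pow_sub_pow _ _ _)
    obtain ⟨c, hc'⟩ := pow_one_add (ℓ : ℤ) (ℓ - 1)
    have h2 := dvd_sub h h1
    have h3 : (p : ℤ) ^ (ℓ - 1) - 1 - ((p : ℤ) ^ (ℓ - 1) - (1 + ℓ) ^ (ℓ - 1)) =
        ((ℓ - 1 : ℕ) : ℤ) * ℓ + (ℓ : ℤ) ^ 2 * c := by
      rw [hc']
      ring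
    rw [h3] at h2
    have h4 : (ℓ : ℤ) ^ 2 ∣ ((ℓ - 1 : ℕ) : ℤ) * ℓ := (dvd_add_left (Dvd.intro _ rfl)).1 h2
    have h5 : (ℓ : ℤ) ∣ ((ℓ - 1 : ℕ) : ℤ) := by
      rw [pow_two] at h4
      exact Int.dvd_of_mul_dvd_mul_right (by exact_mod_cast hl.out.ne_zero) h4
    have h6 := Nat.le_of_dvd (by omega) (Int.natCast_dvd_natCast.1 h5)
    omega
  have hex := exn ℓ hl2 ((p : ℤ) ^ (ℓ - 1)) hg1 hg2 k
  let n : ℤ → ℕ := fun u => if h : (ℓ : ℤ) ∣ u - 1 then (hex u h).choose else 0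
  let a : Subgroup V₀ → ℕ := fun W => if P W then 0 else n (U W)
  have ha : ∀ (W : Subgroup V₀), ∀ φ ∈ E₀, a (W.map (φ : V₀ ≃* V₀).toMonoidHom) = a W := by
    intro W φ hφ
    by_cases h1 : P W
    · have h2 := (hP W φ hφ).2 h1
      exact (if_pos h2).trans (if_pos h1).symm
    · have h2 : ¬ P (W.map (φ : V₀ ≃* V₀).toMonoidHom) := fun h => h1 ((hP W φ hφ).1 h)
      exact (if_neg h2).trans ((congrArg n (hUE W h1 φ hφ)).trans (if_neg h1).symm)
  have haU : ∀ W, ¬ P W → (ℓ : ℤ) ^ k ∣ ((p : ℤ) ^ (ℓ - 1)) ^ a W - U W := by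
    intro W hW
    have h1 : a W = (hex (U W) (hU W)).choose := (if_neg hW).trans (dif_pos (hU W))
    rw [h1]
    exact (hex (U W) (hU W)).choose_spec
  have hJ := finJ (V₀ := V₀) (p := p) (a := a)
  have hio : (SemidirectProduct.inr : V₀ ⋊[E₀.subtype] E₀ →* GC (p := p) ha).comp
      SemidirectProduct.inl = io ha := rfl
  refine ⟨GC (p := p) ha, inferInstance, finG ha, pr ha, SemidirectProduct.inr, fun _ => rfl,
    ?_, ?_, ?_, ?_⟩
  · have h1 := card_fix (p := p) ha ⊥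
    rw [Subgroup.map_bot, Subgroup.coe_bot] at h1
    have h2 : (pr (p := p) ha).ker ⊓ Subgroup.centralizer ({1} : Set (GC (p := p) ha)) =
        (pr (p := p) ha).ker := by
      rw [inf_eq_left]
      intro x _
      rw [Subgroup.mem_centralizer_iff]
      rintro y rfl
      rw [one_mul, mul_one]
    rw [h2] at h1
    rw [h1]
    intro h3
    have h4 := (Nat.prime_dvd_prime_iff_eq hl.out hpp).1 (hl.out.dvd_of_dvd_pow h3)
    exact absurd h4 hp0.ne
  · rw [hio]
    intro x hx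
    rw [Subgroup.mem_centralizer_iff] at hx
    have h1 : ∀ v : V₀, io ha v * x = x * io ha v := fun v => hx _ ⟨v, rfl⟩
    -- the component in `E₀` is trivial
    have h2 : x.right.right = 1 := by
      apply Subtype.ext
      apply MulEquiv.ext
      intro v
      have h3 := congrArg (fun y : GC (p := p) ha => y.right.left) (h1 v)
      change v * (1 : MulAut V₀) x.right.left = x.right.left * (x.right.right : MulAut V₀) v at h3
      have h4 : v * x.right.left = x.right.left * (x.right.right : MulAut V₀) v := h3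
      rw [mul_comm v] at h4
      exact (mul_left_cancel h4).symm
    have h3 : x = SemidirectProduct.inl x.left * io ha x.right.left := by
      apply SemidirectProduct.ext
      · simp [io]
      · apply SemidirectProduct.ext
        · simp [io]
        · simp [io, h2]
    have h4 : ∀ v : V₀,
        io ha v * SemidirectProduct.inl x.left = SemidirectProduct.inl x.left * io ha v := by
      intro v
      have h5 := h1 v
      rw [h3] at h5
      have h6 : io ha x.right.left * io ha v = io (p := p) ha v * io ha x.right.left := by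
        rw [← map_mul, ← map_mul, mul_comm]
      rw [mul_assoc, h6, ← mul_assoc, ← mul_assoc] at h5
      exact mul_right_cancel h5
    have h5 : x.left = 1 := by
      apply Multiplicative.toAdd.injective
      funext j
      by_contra h6
      apply j.2.1
      ext v
      have h7 := (comm_iff ha v x.left).1 (h4 v) j
      exact mul_right_cancel₀ h6 (h7.trans (one_mul _).symm)
    rw [h3, h5, map_one, one_mul]
    exact ⟨_, rfl⟩
  · intro W hW hWP
    rw [hio, card_fix]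
    have h0 : Nat.card {j : JJ p a // W ≤ j.1.1.ker} = 0 := by
      rcases eq_or_ne W ⊤ with hT | hT
      · rw [Nat.card_eq_zero]
        left
        constructor
        rintro ⟨j, hj⟩
        rw [hT, top_le_iff] at hj
        exact j.2.1 (MonoidHom.ker_eq_top_iff.1 hj)
      · rw [card_J ℓ p hdn V₀ hV hc a W hW hT]
        have h1 : a W = 0 := if_pos (hWP.resolve_left hT)
        rw [h1, mul_zero]
    rw [h0, pow_zero]
  · intro W hW hW' hWP
    rw [hio, card_fix, card_J ℓ p hdn V₀ hV hc a W hW hW', pow_mul]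
    have := haU W hWP
    push_cast
    exact this

end Pool.Agent.PP.SD.H43
end
end -- Pool.Agent.Helper43_ASD.CGX

section -- Pool.Agent.Helper2_ASE.CGS

/-!
# Row CGS: the comparison group as a pull back
-/

open scoped BigOperators

noncomputable section

namespace Pool.Agent.PP.SE.H2

open Pool.Agent.Helper51_AWC Pool.Agent.Helper79_WRA Pool.Agent.PP Pool.Agent.PP.KF
open Pool.Agent.PP.K9 Pool.Agent.PP.K9.H97 Pool.Agent.PP.H75 Pool.Agent.PP.T3 Pool.Agent.PP.SO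
open Pool.Agent.PP.SD Pool.Agent.PP.SE

section

variable {V₀ S Γ : Type} [CommGroup V₀] [Group S] [Group Γ] (φ : S →* MulAut V₀)
  (π₀ : Γ →* V₀ ⋊[φ.range.subtype] φ.range) (j₀ : V₀ ⋊[φ.range.subtype] φ.range →* Γ)

/-- the pull back -/
def Pb : Subgroup (Γ × S) :=
  MonoidHom.eqLocus ((SemidirectProduct.rightHom.comp π₀).comp (MonoidHom.fst Γ S))
    (φ.rangeRestrict.comp (MonoidHom.snd Γ S))

theorem mem_Pb (x : Γ × S) : x ∈ Pb φ π₀ ↔ (π₀ x.1).right = φ.rangeRestrict x.2 := Iff.rfl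

/-- the map of the semidirect products -/
def mS : V₀ ⋊[φ] S →* V₀ ⋊[φ.range.subtype] φ.range where
  toFun y := ⟨y.left, φ.rangeRestrict y.right⟩
  map_one' := by
    ext
    · rfl
    · rw [SemidirectProduct.one_right, map_one]
      rfl
  map_mul' x y := by
    refine SemidirectProduct.ext ?_ ?_
    · rw [SemidirectProduct.mul_left, SemidirectProduct.mul_left]
      rfl
    · rw [SemidirectProduct.mul_right, SemidirectProduct.mul_right, map_mul]

/-- the projection -/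
def pG : Pb φ π₀ →* V₀ ⋊[φ] S where
  toFun x := ⟨(π₀ (x : Γ × S).1).left, (x : Γ × S).2⟩
  map_one' := by
    refine SemidirectProduct.ext ?_ ?_
    · change (π₀ (1 : Γ)).left = 1
      rw [map_one]
      rfl
    · rfl
  map_mul' x y := by
    refine SemidirectProduct.ext ?_ ?_
    · change (π₀ ((x : Γ × S).1 * (y : Γ × S).1)).left = _
      rw [map_mul, SemidirectProduct.mul_left, SemidirectProduct.mul_left]
      have h := (mem_Pb φ π₀ x).1 x.2
      rw [h]
      rfl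
    · rfl

/-- the section -/
def sG (hs : ∀ y, π₀ (j₀ y) = y) : V₀ ⋊[φ] S →* Pb φ π₀ where
  toFun y := ⟨(j₀ (mS φ y), y.right), by
    rw [mem_Pb, hs]
    rfl⟩
  map_one' := by
    refine Subtype.ext (Prod.ext ?_ ?_)
    · change j₀ (mS φ 1) = 1
      rw [map_one, map_one]
    · rfl
  map_mul' x y := by
    refine Subtype.ext (Prod.ext ?_ ?_)
    · change j₀ (mS φ (x * y)) = j₀ (mS φ x) * j₀ (mS φ y)
      rw [map_mul, map_mul]
    · rfl

theorem pG_one {x : Pb φ π₀} (h : pG φ π₀ x = 1) :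
    π₀ (x : Γ × S).1 = 1 ∧ (x : Γ × S).2 = 1 := by
  have h1 : (π₀ (x : Γ × S).1).left = 1 := congrArg SemidirectProduct.left h
  have h2 : (x : Γ × S).2 = 1 := congrArg SemidirectProduct.right h
  refine ⟨SemidirectProduct.ext h1 ?_, h2⟩
  rw [(mem_Pb φ π₀ x).1 x.2, h2, map_one]
  rfl

theorem mem_of_one {g : Γ} (h : π₀ g = 1) : ((g, 1) : Γ × S) ∈ Pb φ π₀ := by
  rw [mem_Pb]
  change (π₀ g).right = φ.rangeRestrict 1
  rw [h, map_one]
  rfl

theorem pG_mk {g : Γ} (h : π₀ g = 1) :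
    pG φ π₀ ⟨((g, 1) : Γ × S), mem_of_one φ π₀ h⟩ = 1 := by
  refine SemidirectProduct.ext ?_ rfl
  change (π₀ g).left = 1
  rw [h]
  rfl

theorem sG_inl (hs : ∀ y, π₀ (j₀ y) = y) (v : V₀) :
    ((sG φ π₀ j₀ hs (SemidirectProduct.inl v) : Pb φ π₀) : Γ × S) =
      (j₀ (SemidirectProduct.inl v), 1) := by
  refine Prod.ext ?_ rfl
  change j₀ (mS φ (SemidirectProduct.inl v)) = j₀ (SemidirectProduct.inl v)
  congr 1
  refine SemidirectProduct.ext rfl ?_
  change φ.rangeRestrict (SemidirectProduct.inl v : V₀ ⋊[φ] S).right = 1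
  rw [SemidirectProduct.right_inl, map_one]

end

theorem cgs : CgsStmt := by
  classical
  intro ℓ hl hl2 V₀ S _ _ _ _ φ hq k U hU hUE
  obtain ⟨Γ, _, _, π₀, j₀, hs, hck, hcen, -, hU'⟩ := SD.H43.cgx ℓ hl2 V₀ hq.ex hq.cd φ.range k
    (fun _ => False) (fun _ _ _ => Iff.rfl) U hU (fun W _ σ hσ => by
      obtain ⟨s, rfl⟩ := hσ
      exact hUE W s)
  have hfG : Finite (Pb φ π₀) := inferInstance
  have hsec : ∀ y, pG φ π₀ (sG φ π₀ j₀ hs y) = y := by
    intro y
    refine SemidirectProduct.ext ?_ rfl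
    change (π₀ (j₀ (mS φ y))).left = y.left
    rw [hs]
    rfl
  have hker : Nat.card (pG φ π₀).ker = Nat.card π₀.ker := by
    refine Nat.card_congr ⟨fun x => ⟨((x : Pb φ π₀) : Γ × S).1, ?_⟩,
      fun g => ⟨⟨((g : Γ), 1), mem_of_one φ π₀ (MonoidHom.mem_ker.1 g.2)⟩, ?_⟩, ?_, ?_⟩
    · exact MonoidHom.mem_ker.2 (pG_one φ π₀ (MonoidHom.mem_ker.1 x.2)).1
    · exact MonoidHom.mem_ker.2 (pG_mk φ π₀ (MonoidHom.mem_ker.1 g.2))
    · intro x
      refine Subtype.ext (Subtype.ext (Prod.ext rfl ?_))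
      exact (pG_one φ π₀ (MonoidHom.mem_ker.1 x.2)).2.symm
    · intro g
      rfl
  refine ⟨Pb φ π₀, inferInstance, hfG, pG φ π₀, sG φ π₀ j₀ hs, ⟨hsec, ?_, ?_⟩, ?_⟩
  · rw [hker]
    exact hck
  · intro x hx hc
    obtain ⟨h1, h2⟩ := pG_one φ π₀ hx
    have h3 : ((x : Pb φ π₀) : Γ × S).1 ∈ (j₀.comp SemidirectProduct.inl).range := by
      apply hcen
      rw [Subgroup.mem_centralizer_iff]
      rintro _ ⟨v, rfl⟩
      have h4 := congrArg (fun z : Pb φ π₀ => (z : Γ × S).1) (hc v)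
      simp only [Subgroup.coe_mul, sG_inl, Prod.fst_mul] at h4
      exact h4
    obtain ⟨v, hv⟩ := h3
    have h4 : v = 1 := by
      have h5 := congrArg π₀ hv
      rw [h1, MonoidHom.comp_apply, hs] at h5
      exact congrArg SemidirectProduct.left h5
    refine Subtype.ext (Prod.ext ?_ h2)
    rw [← hv, h4, map_one]
    rfl
  · intro W hW1 hW2
    have h1 := hU' W hW1 hW2 (fun h => h)
    have h2 : KW (pG φ π₀) (sG φ π₀ j₀ hs) W = Nat.card (π₀.ker ⊓
        Subgroup.centralizer (W.map (j₀.comp SemidirectProduct.inl) : Set Γ) : Subgroup Γ) := by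
      unfold KW
      refine Nat.card_congr ⟨fun x => ⟨((x : Pb φ π₀) : Γ × S).1, ?_, ?_⟩,
        fun g => ⟨⟨((g : Γ), 1), mem_of_one φ π₀ (MonoidHom.mem_ker.1 g.2.1)⟩, ?_, ?_⟩, ?_, ?_⟩
      · exact MonoidHom.mem_ker.2 (pG_one φ π₀ (MonoidHom.mem_ker.1 x.2.1)).1
      · change ((x : Pb φ π₀) : Γ × S).1 ∈
          Subgroup.centralizer (W.map (j₀.comp SemidirectProduct.inl) : Set Γ)
        rw [Subgroup.mem_centralizer_iff]
        rintro _ ⟨v, hv, rfl⟩
        have h3 := Subgroup.mem_centralizer_iff.1 x.2.2 _ ⟨v, hv, rfl⟩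
        have h4 := congrArg (fun z : Pb φ π₀ => (z : Γ × S).1) h3
        simp only [Subgroup.coe_mul, iG, MonoidHom.comp_apply, sG_inl, Prod.fst_mul] at h4
        exact h4
      · exact MonoidHom.mem_ker.2 (pG_mk φ π₀ (MonoidHom.mem_ker.1 g.2.1))
      · change _ ∈ CG (sG φ π₀ j₀ hs) W
        unfold CG
        rw [Subgroup.mem_centralizer_iff]
        rintro _ ⟨v, hv, rfl⟩
        have h3 := Subgroup.mem_centralizer_iff.1 g.2.2 _ ⟨v, hv, rfl⟩
        refine Subtype.ext (Prod.ext ?_ ?_)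
        · simp only [Subgroup.coe_mul, iG, MonoidHom.comp_apply, sG_inl, Prod.fst_mul]
          exact h3
        · simp only [Subgroup.coe_mul, iG, MonoidHom.comp_apply, sG_inl, Prod.snd_mul]
      · intro x
        refine Subtype.ext (Subtype.ext (Prod.ext rfl ?_))
        exact (pG_one φ π₀ (MonoidHom.mem_ker.1 x.2.1)).2.symm
      · intro g
        rfl
    rw [h2]
    exact h1

end Pool.Agent.PP.SE.H2
end
end -- Pool.Agent.Helper2_ASE.CGS

section -- Pool.Agent.Helper76_ASO.CMI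

/-!
# Squad ASO, row CMI: the comparison block, basic part
-/

open scoped BigOperators

set_option autoImplicit false

noncomputable section

namespace Pool.Agent.PP.SO.H76

open Pool.Agent.Helper51_AWC Pool.Agent.Helper79_WRA Pool.Agent.PP Pool.Agent.PP.KF
open Pool.Agent.PP.K9 Pool.Agent.PP.K9.H97 Pool.Agent.PP.H75 Pool.Agent.PP.T3

attribute [local instance] Ideal.Quotient.field

namespace CM

section grp

open SemidirectProduct

variable {V₀ : Type} [CommGroup V₀] {E₀ : Subgroup (MulAut V₀)}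

/-- conjugation in the semidirect product -/
theorem mul_inl (y : V₀ ⋊[E₀.subtype] E₀) (v : V₀) :
    y * inl v = inl ((y.right : MulAut V₀) v) * y := by
  apply SemidirectProduct.ext
  · simp only [mul_left, left_inl, right_inl, map_one, MulAut.one_apply, Subgroup.coe_subtype]
    exact mul_comm _ _
  · simp only [mul_right, right_inl, mul_one, one_mul]

theorem right_fix {y : V₀ ⋊[E₀.subtype] E₀} {v : V₀} (h : y * inl v = inl v * y) :
    (y.right : MulAut V₀) v = v := by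
  rw [mul_inl] at h
  exact inl_injective (mul_right_cancel h)

theorem eq_inl {y : V₀ ⋊[E₀.subtype] E₀} (h : y.right = 1) : y = inl y.left := by
  apply SemidirectProduct.ext
  · simp
  · simp [h]

end grp

section gen

variable {G : Type} [Group G] [Finite G] {ℓ : ℕ} [Fact ℓ.Prime]

omit [Finite G] in
/-- an `ℓ`-element of a subgroup of order prime to `ℓ` is trivial -/
theorem cop {K : Subgroup G} (hK : ¬ ℓ ∣ Nat.card K) {x : G} (hx : x ∈ K) {n : ℕ}
    (h : x ^ ℓ ^ n = 1) : x = 1 := by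
  have h1 : orderOf x ∣ ℓ ^ n := orderOf_dvd_of_pow_eq_one h
  have h2 : orderOf x ∣ Nat.card K := by
    have h3 := orderOf_dvd_natCard (⟨x, hx⟩ : K)
    rwa [Subgroup.orderOf_mk] at h3
  have h3 : (ℓ ^ n).Coprime (Nat.card K) :=
    Nat.Coprime.pow_left n ((Nat.Prime.coprime_iff_not_dvd Fact.out).2 hK)
  have h4 : orderOf x = 1 := Nat.dvd_one.1 (h3 ▸ Nat.dvd_gcd h1 h2)
  exact orderOf_eq_one_iff.1 h4

/-- the number of elements of `N` is `1` in `F` if `1` is the only fixed point of `V` -/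
theorem card_one {F : Type} [Field F] [CharP F ℓ] {V N : Subgroup G} (hV : IsPGroup ℓ V)
    (hN : ∀ v ∈ V, ∀ x ∈ N, v * x * v⁻¹ ∈ N)
    (hfix : ∀ x ∈ N, (∀ v ∈ V, v * x = x * v) → x = 1) : (Nat.card N : F) = 1 := by
  let act : MulAction V N :=
    { smul := fun v x => ⟨v * x * (v : G)⁻¹, hN v v.2 x x.2⟩
      one_smul := fun x => Subtype.ext (by change ((1 : V) : G) * x * ((1 : V) : G)⁻¹ = x; simp)
      mul_smul := fun v w x => Subtype.ext (by
        change ((v * w : V) : G) * x * ((v * w : V) : G)⁻¹ = v * (w * x * (w : G)⁻¹) * (v : G)⁻¹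
        push_cast
        group) }
  have h1 := hV.card_modEq_card_fixedPoints N
  have h2 : Nat.card (MulAction.fixedPoints V N) = 1 := by
    rw [Nat.card_eq_one_iff_unique]
    refine ⟨⟨?_⟩, ⟨⟨1, ?_⟩⟩⟩
    · have hone : ∀ a : MulAction.fixedPoints V N, ((a : N) : G) = 1 := by
        intro a
        refine hfix a a.1.2 fun v hv => ?_
        have h3 := congrArg (fun y : N => (y : G)) (a.2 ⟨v, hv⟩)
        change v * ((a : N) : G) * v⁻¹ = ((a : N) : G) at h3
        rw [← mul_inv_eq_iff_eq_mul]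
        exact h3
      intro a b
      exact Subtype.ext (Subtype.ext ((hone a).trans (hone b).symm))
    · intro v
      apply Subtype.ext
      change (v : G) * ((1 : N) : G) * (v : G)⁻¹ = ((1 : N) : G)
      simp
  rw [h2] at h1
  have h3 := (CharP.natCast_eq_natCast F ℓ).2 h1
  rw [h3, Nat.cast_one]

theorem not_dvd {F : Type} [Field F] [CharP F ℓ] {n : ℕ} (h : (n : F) = 1) : ¬ ℓ ∣ n := by
  intro h1
  rw [(CharP.cast_eq_zero_iff F ℓ n).2 h1] at h
  exact zero_ne_one h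

end gen

/-- the indicator of the kernel -/
def kf (F : Type) [Field F] {A B : Type} [Group A] [Group B] (π : A →* B) : A → F :=
  fun x => open scoped Classical in if π x = 1 then 1 else 0

theorem infl_one1 {F A B : Type} [Field F] [Group A] [Group B] (π : A →* B)
    (h : (Nat.card π.ker : F) = 1) : infl π (one1 : B → F) = kf F π := by
  funext x
  unfold infl one1 kf
  rw [h, inv_one, one_mul]

variable {ℓ : ℕ} [Fact ℓ.Prime] (M : Ideal (integralClosure ℤ ℂ)) [M.IsMaximal]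

/-- the block of the indicator of the kernel -/
theorem blk_gen (inf : InfStmt) (onb : OnbStmt) (hM : (ℓ : integralClosure ℤ ℂ) ∈ M)
    [CharP (FF M) ℓ] {A B : Type} [Group A] [Finite A] [Group B] [Finite B] (π : A →* B)
    (hs : Function.Surjective π) (hk : (Nat.card π.ker : FF M) = 1) (P : Subgroup B)
    (hPn : P.Normal) (hP : IsPGroup ℓ P) (hc : Subgroup.centralizer (P : Set B) ≤ P) :
    IsBlk (kf (FF M) π) ∧ IrrE M (kf (FF M) π) = {χ | ∃ κ ∈ Irr B, χ = fun x => κ (π x)} := by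
  obtain ⟨h1, h2, h3, h4⟩ := inf ℓ M hM A B π hs (not_dvd hk)
  obtain ⟨h5, h6⟩ := onb ℓ M hM B P hPn hP hc
  rw [← infl_one1 π hk]
  refine ⟨h3 _ h5, ?_⟩
  rw [h4 _ h5.1, h6]


/-- the conditions on the group -/
structure Cx (ℓ : ℕ) {V₀ : Type} [CommGroup V₀] (E₀ : Subgroup (MulAut V₀)) {G : Type} [Group G]
    (π : G →* V₀ ⋊[E₀.subtype] E₀) (ι : V₀ →* G) : Prop where
  ex : ∀ v : V₀, v ^ ℓ = 1
  cd : Nat.card V₀ = ℓ ^ 2
  ce : ¬ ℓ ∣ Nat.card E₀
  sur : Function.Surjective π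
  ck : ¬ ℓ ∣ Nat.card π.ker
  pi : ∀ v, π (ι v) = SemidirectProduct.inl v
  cen : Subgroup.centralizer (ι.range : Set G) ≤ ι.range

section cx

variable {V₀ : Type} [CommGroup V₀] {E₀ : Subgroup (MulAut V₀)} {G : Type} [Group G]
  {π : G →* V₀ ⋊[E₀.subtype] E₀} {ι : V₀ →* G} (h : Cx ℓ E₀ π ι)

include h

omit [Fact ℓ.Prime]

theorem Cx.inj : Function.Injective ι := by
  intro v w e
  have e1 := congrArg π e
  rw [h.pi, h.pi] at e1
  exact SemidirectProduct.inl_injective e1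

theorem Cx.mem1 {x : G} (hx : x ∈ ι.range) (e : π x = 1) : x = 1 := by
  obtain ⟨v, rfl⟩ := hx
  rw [h.pi] at e
  have e1 : v = 1 := SemidirectProduct.inl_injective (e.trans (map_one _).symm)
  rw [e1, map_one]

theorem Cx.pg : IsPGroup ℓ ι.range := by
  rintro ⟨x, v, rfl⟩
  refine ⟨1, Subtype.ext ?_⟩
  change ι v ^ ℓ ^ 1 = 1
  rw [pow_one, ← map_pow, h.ex, map_one]

omit h in
theorem comm_range {a b : G} (ha : a ∈ ι.range) (hb : b ∈ ι.range) : a * b = b * a := by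
  obtain ⟨v, rfl⟩ := ha
  obtain ⟨w, rfl⟩ := hb
  rw [← map_mul, ← map_mul, mul_comm]

theorem Cx.card : Nat.card ι.range = ℓ ^ 2 := by
  rw [← h.cd]
  exact (Nat.card_congr (MonoidHom.ofInjective h.inj).toEquiv).symm

theorem Cx.fix {x : G} (hx : π x = 1) (hc : ∀ v ∈ ι.range, v * x = x * v) : x = 1 :=
  h.mem1 (h.cen (Subgroup.mem_centralizer_iff.2 hc)) hx

variable [Finite G] [Fact ℓ.Prime]

theorem Cx.one' (F : Type) [Field F] [CharP F ℓ] : (Nat.card π.ker : F) = 1 := by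
  refine card_one h.pg (fun v _ x hx => ?_) fun x hx hc => h.fix hx hc
  exact (MonoidHom.normal_ker π).conj_mem x hx v

theorem Cx.one (F : Type) [Field F] [CharP F ℓ] {C : Subgroup G} (hC : ι.range ≤ C) :
    (Nat.card (π.subgroupMap C).ker : F) = 1 := by
  rw [Subgroup.ker_subgroupMap, ← Subgroup.inf_subgroupOf_right, card_sub inf_le_right]
  refine card_one h.pg (fun v hv x hx => ⟨?_, ?_⟩) fun x hx hc => h.fix hx.1 hc
  · exact (MonoidHom.normal_ker π).conj_mem x hx.1 v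
  · exact C.mul_mem (C.mul_mem (hC hv) hx.2) (C.inv_mem (hC hv))

omit [Fact ℓ.Prime] [Finite G] in
theorem Cx.pgB (B : Subgroup (V₀ ⋊[E₀.subtype] E₀)) :
    IsPGroup ℓ ((SemidirectProduct.inl : V₀ →* V₀ ⋊[E₀.subtype] E₀).range.subgroupOf B) := by
  rintro ⟨x, hx⟩
  obtain ⟨v, hv⟩ := Subgroup.mem_subgroupOf.1 hx
  refine ⟨1, Subtype.ext (Subtype.ext ?_)⟩
  change (x : V₀ ⋊[E₀.subtype] E₀) ^ ℓ ^ 1 = 1
  rw [← hv, pow_one, ← map_pow, h.ex, map_one]

/-- the local block -/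
theorem Cx.blkC (inf : InfStmt) (onb : OnbStmt) (hM : (ℓ : integralClosure ℤ ℂ) ∈ M)
    [CharP (FF M) ℓ] {C : Subgroup G} (hC : ι.range ≤ C) :
    IsBlk (kf (FF M) (π.subgroupMap C)) ∧ IrrE M (kf (FF M) (π.subgroupMap C)) =
      {χ | ∃ κ ∈ Irr (C.map π), χ = fun x => κ (π.subgroupMap C x)} := by
  have hf : Finite (V₀ ⋊[E₀.subtype] E₀) := Finite.of_surjective π h.sur
  refine blk_gen M inf onb hM (π.subgroupMap C) (MonoidHom.subgroupMap_surjective π C)
    (h.one (FF M) hC)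
    ((SemidirectProduct.inl : V₀ →* V₀ ⋊[E₀.subtype] E₀).range.subgroupOf (C.map π)) ?_
    (h.pgB _) ?_
  · have hn : (SemidirectProduct.inl : V₀ →* V₀ ⋊[E₀.subtype] E₀).range.Normal := by
      rw [SemidirectProduct.range_inl_eq_ker_rightHom]
      exact MonoidHom.normal_ker _
    exact hn.subgroupOf _
  · intro x hx
    rw [Subgroup.mem_centralizer_iff] at hx
    rw [Subgroup.mem_subgroupOf]
    have h1 : (x : V₀ ⋊[E₀.subtype] E₀).right = 1 := by
      apply Subtype.ext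
      apply MulEquiv.ext
      intro v
      have hv : SemidirectProduct.inl v ∈ C.map π := ⟨ι v, hC ⟨v, rfl⟩, h.pi v⟩
      have h2 := hx ⟨SemidirectProduct.inl v, hv⟩ (Subgroup.mem_subgroupOf.2 ⟨v, rfl⟩)
      exact right_fix (congrArg Subtype.val h2).symm
    exact ⟨_, (eq_inl h1).symm⟩

/-- the block -/
theorem Cx.blk (inf : InfStmt) (onb : OnbStmt) (hM : (ℓ : integralClosure ℤ ℂ) ∈ M)
    [CharP (FF M) ℓ] : IsBlk (kf (FF M) π) ∧ IrrE M (kf (FF M) π) =
      {χ | ∃ κ ∈ Irr (V₀ ⋊[E₀.subtype] E₀), χ = fun x => κ (π x)} := by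
  have hf : Finite (V₀ ⋊[E₀.subtype] E₀) := Finite.of_surjective π h.sur
  refine blk_gen M inf onb hM π h.sur (h.one' (FF M))
    (SemidirectProduct.inl : V₀ →* V₀ ⋊[E₀.subtype] E₀).range ?_ ?_ ?_
  · rw [SemidirectProduct.range_inl_eq_ker_rightHom]
    exact MonoidHom.normal_ker _
  · rintro ⟨x, v, rfl⟩
    refine ⟨1, Subtype.ext ?_⟩
    change (SemidirectProduct.inl v : V₀ ⋊[E₀.subtype] E₀) ^ ℓ ^ 1 = 1
    rw [pow_one, ← map_pow, h.ex, map_one]
  · intro x hx
    rw [Subgroup.mem_centralizer_iff] at hx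
    have h1 : x.right = 1 := by
      apply Subtype.ext
      apply MulEquiv.ext
      intro v
      exact right_fix (hx (SemidirectProduct.inl v) ⟨v, rfl⟩).symm
    exact ⟨_, (eq_inl h1).symm⟩

/-- the block of the centraliser of `V` -/
theorem Cx.bxg (onb : OnbStmt) (hM : (ℓ : integralClosure ℤ ℂ) ∈ M) :
    Bx (Subgroup.centralizer (ι.range : Set G)) (one1 : G → FF M) := by
  refine ⟨fun x hx => ?_, ?_⟩
  · unfold one1
    rw [if_neg]
    rintro rfl
    exact hx (Subgroup.one_mem _)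
  · have h1 := (onb ℓ M hM (Subgroup.centralizer (ι.range : Set G)) ⊤ inferInstance ?_ le_top).1
    · have e : (fun t : Subgroup.centralizer (ι.range : Set G) => (one1 : G → FF M) t) =
          (one1 : Subgroup.centralizer (ι.range : Set G) → FF M) := by
        funext t
        unfold one1
        by_cases ht : t = 1
        · rw [if_pos ht, if_pos (by rw [ht, Subgroup.coe_one])]
        · rw [if_neg ht, if_neg]
          exact fun h' => ht (Subtype.ext h')
      rw [e]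
      exact h1
    · rintro ⟨⟨x, hx⟩, -⟩
      obtain ⟨v, hv⟩ := h.cen hx
      refine ⟨1, Subtype.ext (Subtype.ext ?_)⟩
      change x ^ ℓ ^ 1 = 1
      rw [← hv, pow_one, ← map_pow, h.ex, map_one]

omit [Finite G] [Fact ℓ.Prime] in
theorem Cx.br {F : Type} [Field F] {f : G → F} (hf : ∀ x ∈ ι.range, f x = kf F π x) :
    br ι.range f = one1 := by
  funext x
  by_cases hx : x ∈ Subgroup.centralizer (ι.range : Set G)
  · rw [H66.br_of_mem hx, hf x (h.cen hx)]
    unfold kf one1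
    by_cases h1 : x = 1
    · rw [if_pos h1, h1, if_pos (map_one π)]
    · rw [if_neg h1, if_neg]
      exact fun h2 => h1 (h.mem1 (h.cen hx) h2)
  · rw [H66.br_of_not_mem hx]
    unfold one1
    rw [if_neg]
    rintro rfl
    exact hx (Subgroup.one_mem _)

/-- `V` is a defect group -/
theorem Cx.tp {F : Type} [Field F] : Tp ℓ (kf F π) ι.range := by
  refine ⟨h.pg, ⟨1, Subgroup.one_mem _, ?_⟩, fun Q hQ _ => ?_⟩
  · unfold kf
    rw [if_pos (map_one π)]
    exact one_ne_zero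
  · have hfA : Finite (V₀ ⋊[E₀.subtype] E₀) := Finite.of_surjective π h.sur
    have hinj : Function.Injective (π.comp Q.subtype) := by
      rw [injective_iff_map_eq_one]
      intro x hx
      obtain ⟨n, hn⟩ := hQ x
      apply Subtype.ext
      exact cop h.ck (x := (x : G)) hx (n := n) (by
        rw [← Subgroup.coe_pow, hn, Subgroup.coe_one])
    have hdvd : Nat.card Q ∣ ℓ ^ 2 * Nat.card E₀ := by
      rw [← h.cd, ← SemidirectProduct.card]
      exact Subgroup.card_dvd_of_injective _ hinj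
    obtain ⟨n, hn⟩ := IsPGroup.iff_card.1 hQ
    have hcop : (Nat.card Q).Coprime (Nat.card E₀) := by
      rw [hn]
      exact Nat.Coprime.pow_left n ((Nat.Prime.coprime_iff_not_dvd Fact.out).2 h.ce)
    rw [h.card]
    exact Nat.le_of_dvd (pow_pos (Nat.Prime.pos Fact.out) 2) (hcop.dvd_of_dvd_mul_right hdvd)

/-- the basic data of the block -/
theorem Cx.ld (inf : InfStmt) (onb : OnbStmt) (hM : (ℓ : integralClosure ℤ ℂ) ∈ M)
    [CharP (FF M) ℓ] : Ld ℓ (kf (FF M) π) ι.range one1 := by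
  refine ⟨(h.blk M inf onb hM).1, h.tp, fun a ha b hb => comm_range ha hb, h.bxg M onb hM, ?_⟩
  rw [h.br fun _ _ => rfl]
  exact (h.bxg M onb hM).mul

omit [Finite G] [Fact ℓ.Prime] in
theorem Cx.conj {t : G} (ht : t ∈ Subgroup.normalizer (ι.range : Set G)) (v : V₀) :
    t * ι v * t⁻¹ = ι (((π t).right : MulAut V₀) v) := by
  have h1 : t * ι v * t⁻¹ ∈ ι.range := (Subgroup.mem_normalizer_iff.1 ht (ι v)).1 ⟨v, rfl⟩
  obtain ⟨w, hw⟩ := h1
  rw [← hw]
  congr 1
  have h2 : π (ι w) * π t = π t * π (ι v) := by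
    rw [hw, ← map_mul, ← map_mul]
    congr 1
    group
  rw [h.pi, h.pi, mul_inl] at h2
  exact SemidirectProduct.inl_injective (mul_right_cancel h2)

omit h [Finite G] [Fact ℓ.Prime] in
theorem range_le (W : Subgroup V₀) :
    ι.range ≤ Subgroup.centralizer ((W.map ι : Subgroup G) : Set G) := by
  intro x hx
  rw [Subgroup.mem_centralizer_iff]
  rintro _ ⟨w, -, rfl⟩
  exact comm_range ⟨w, rfl⟩ hx

/-- the degrees -/
theorem Cx.dg (inf : InfStmt) (onb : OnbStmt) (hM : (ℓ : integralClosure ℤ ℂ) ∈ M)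
    [CharP (FF M) ℓ] (W : Subgroup V₀) (hW : ∀ σ ∈ E₀, (∀ w ∈ W, σ w = w) → σ = 1) :
    Dg M (kf (FF M) (π.subgroupMap (Subgroup.centralizer ((W.map ι : Subgroup G) : Set G)))) 1 := by
  have hfA : Finite (V₀ ⋊[E₀.subtype] E₀) := Finite.of_surjective π h.sur
  obtain ⟨C, hC⟩ : ∃ C, C = Subgroup.centralizer ((W.map ι : Subgroup G) : Set G) := ⟨_, rfl⟩
  rw [← hC]
  have hVC : ι.range ≤ C := by
    rw [hC]
    exact range_le W
  refine ⟨one_pos, fun κ hκ => ?_⟩
  rw [(h.blkC M inf onb hM hVC).2] at hκ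
  obtain ⟨κ', hκ', rfl⟩ := hκ
  have hr : ∀ x ∈ C.map π, ∃ v, x = SemidirectProduct.inl v := by
    rintro _ ⟨t, ht, rfl⟩
    refine ⟨_, eq_inl ?_⟩
    apply Subtype.ext
    refine hW _ (π t).right.2 fun w hw => ?_
    apply right_fix
    rw [← h.pi, ← map_mul, ← map_mul]
    congr 1
    rw [hC, SetLike.mem_coe, Subgroup.mem_centralizer_iff] at ht
    exact (ht (ι w) ⟨w, hw, rfl⟩).symm
  have hcomm : ∀ x y : C.map π, x * y = y * x := by
    intro x y
    obtain ⟨v, hv⟩ := hr x x.2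
    obtain ⟨w, hw⟩ := hr y y.2
    apply Subtype.ext
    rw [Subgroup.coe_mul, Subgroup.coe_mul, hv, hw, ← map_mul, ← map_mul, mul_comm]
  obtain ⟨ψ, hψ⟩ := Helper79_WRA.H46.irr_comm hcomm hκ'
  rw [hψ]
  simp

end cx

end CM

/-- CMI -/
theorem cmi (inf : InfStmt) (onb : OnbStmt) : CmiStmt := by
  intro ℓ _ M _ hM V₀ _ _ hex hcd E₀ hE G _ _ π ι ε hs hK hι hε hconj hcent
  have hF : GoodF ℓ (FF M) := H50.fld ℓ Fact.out M hM
  have hch : CharP (FF M) ℓ := hF.char
  have h : CM.Cx ℓ E₀ π ι := ⟨hex, hcd, hE, hs, hK, hι, hcent⟩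
  classical
  obtain ⟨b, hb⟩ : ∃ b : Subgroup V₀ → G → FF M, b = fun W x =>
    if x ∈ Subgroup.centralizer ((W.map ι : Subgroup G) : Set G) then CM.kf (FF M) π x else 0 :=
      ⟨_, rfl⟩
  have hb1 : ∀ (W : Subgroup V₀) (x : G),
      x ∈ Subgroup.centralizer ((W.map ι : Subgroup G) : Set G) →
        b W x = CM.kf (FF M) π x := by
    intro W x hx
    rw [hb]
    exact if_pos hx
  have hb0 : ∀ (W : Subgroup V₀) (x : G),
      x ∉ Subgroup.centralizer ((W.map ι : Subgroup G) : Set G) → b W x = 0 := by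
    intro W x hx
    rw [hb]
    exact if_neg hx
  have hb2 : ∀ W : Subgroup V₀,
      (fun t : Subgroup.centralizer ((W.map ι : Subgroup G) : Set G) => b W t) =
        CM.kf (FF M) (π.subgroupMap
          (Subgroup.centralizer ((W.map ι : Subgroup G) : Set G))) := by
    intro W
    funext t
    rw [hb1 W t t.2]
    unfold CM.kf
    by_cases ht : π t = 1
    · rw [if_pos ht, if_pos (Subtype.ext ht)]
    · rw [if_neg ht, if_neg]
      exact fun h' => ht (congrArg Subtype.val h')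
  refine ⟨⟨CM.kf (FF M) π, one1, ι, b, fun _ => 1, fun _ => 1⟩, rfl, ⟨h.inj, h.ld M inf onb hM,
    ?_, ?_, ?_⟩, fun _ => rfl, fun _ => rfl, ?_, ?_, ?_⟩
  · intro t ht
    exact ⟨_, (π t).right.2, fun v => h.conj ht.1 v⟩
  · intro σ hσ
    have hc : ∀ v, ε ⟨σ, hσ⟩ * ι v * (ε ⟨σ, hσ⟩)⁻¹ = ι (σ v) := fun v => hconj ⟨σ, hσ⟩ v
    refine ⟨ε ⟨σ, hσ⟩, ⟨?_, ?_⟩, hc⟩
    · change ε ⟨σ, hσ⟩ ∈ Subgroup.normalizer (ι.range : Set G)
      rw [Subgroup.mem_normalizer_iff]
      intro x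
      constructor
      · rintro ⟨v, rfl⟩
        rw [hc]
        exact ⟨_, rfl⟩
      · rintro ⟨w, hw⟩
        refine ⟨σ⁻¹ w, ?_⟩
        have h1 := hc (σ⁻¹ w)
        have h2 : σ (σ⁻¹ w) = w := σ.apply_symm_apply w
        rw [h2, hw] at h1
        have h3 := mul_left_cancel (mul_right_cancel h1)
        exact h3
    · intro x
      change (one1 (ε ⟨σ, hσ⟩ * x * (ε ⟨σ, hσ⟩)⁻¹) : FF M) = one1 x
      unfold one1
      by_cases hx : x = 1
      · rw [if_pos hx, if_pos (by rw [hx]; group)]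
      · rw [if_neg hx, if_neg]
        intro h'
        exact hx (conj_eq_one_iff.1 h')
  · intro W
    refine ⟨⟨fun x hx => hb0 W x hx, ?_⟩, ?_, ?_⟩
    · change IsBlk (fun t : Subgroup.centralizer ((W.map ι : Subgroup G) : Set G) => b W t)
      rw [hb2]
      exact (h.blkC M inf onb hM (CM.range_le W)).1
    · have e : (fun t : Subgroup.centralizer ((W.map ι : Subgroup G) : Set G) =>
          CM.kf (FF M) π t) =
          fun t : Subgroup.centralizer ((W.map ι : Subgroup G) : Set G) => b W t := by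
        funext t
        exact (hb1 W t t.2).symm
      change mulF (fun t : Subgroup.centralizer ((W.map ι : Subgroup G) : Set G) =>
          CM.kf (FF M) π t)
        (fun t : Subgroup.centralizer ((W.map ι : Subgroup G) : Set G) => b W t) =
        fun t : Subgroup.centralizer ((W.map ι : Subgroup G) : Set G) => b W t
      rw [e, hb2]
      exact (h.blkC M inf onb hM (CM.range_le W)).1.1.2
    · change mulF (br ι.range (b W)) one1 = one1
      rw [h.br fun x hx => hb1 W x (CM.range_le W hx)]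
      exact (h.bxg M onb hM).mul
  · change (IrrE M (CM.kf (FF M) π)).ncard = _
    rw [(h.blk M inf onb hM).2]
    have e : {χ : G → ℂ | ∃ κ ∈ Irr (V₀ ⋊[E₀.subtype] E₀), χ = fun x => κ (π x)} =
        (fun κ : V₀ ⋊[E₀.subtype] E₀ → ℂ => fun x : G => κ (π x)) ''
          Irr (V₀ ⋊[E₀.subtype] E₀) := by
      ext χ
      constructor
      · rintro ⟨κ, hκ, rfl⟩
        exact ⟨κ, hκ, rfl⟩
      · rintro ⟨κ, hκ, rfl⟩
        exact ⟨κ, hκ, rfl⟩
    rw [e]
    refine Set.ncard_image_of_injective _ fun κ κ' hκ => ?_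
    funext y
    obtain ⟨x, rfl⟩ := hs y
    exact congrFun hκ x
  · rintro x ⟨n, hn⟩
    have h1 : (π x).right = 1 := by
      have h2 : (π x).right ^ ℓ ^ n = 1 := by
        have h3 := congrArg (fun y => SemidirectProduct.rightHom (π y)) hn
        simp only [map_pow, map_one] at h3
        exact h3
      have h4 := CM.cop (ℓ := ℓ) (K := (⊤ : Subgroup E₀)) (x := (π x).right) (by
        rw [Subgroup.card_top]
        exact hE) (Subgroup.mem_top _) (n := n) h2
      exact h4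
    have h2 : π (x ^ ℓ) = 1 := by
      rw [map_pow, CM.eq_inl h1, ← map_pow, hex, map_one]
    refine CM.cop hK (x := x ^ ℓ) h2 (n := n) ?_
    rw [← pow_mul, mul_comm, pow_mul, hn, one_pow]
  · intro W hW
    change Dg M (fun t : Subgroup.centralizer ((W.map ι : Subgroup G) : Set G) => b W t) 1
    rw [hb2]
    exact h.dg M inf onb hM W hW

end Pool.Agent.PP.SO.H76
end
end -- Pool.Agent.Helper76_ASO.CMI

section -- Pool.Agent.Helper43_ASD.CBG

/-!
# Squad ASD, row CBG: the comparison blocks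
-/

open scoped BigOperators

noncomputable section

namespace Pool.Agent.PP.SD.H43

open Pool.Agent.Helper51_AWC Pool.Agent.Helper79_WRA Pool.Agent.PP Pool.Agent.PP.KF
open Pool.Agent.PP.K9 Pool.Agent.PP.K9.H97 Pool.Agent.PP.H75 Pool.Agent.PP.T3 Pool.Agent.PP.SO
open Pool.Agent.PP.SO.H76

attribute [local instance] Ideal.Quotient.field

section datum

variable {V₀ : Type} [CommGroup V₀] {E₀ : Subgroup (MulAut V₀)} {G : Type} [Group G]

open Classical in
/-- the datum of the comparison group -/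
def BC (F : Type) [Field F] (π : G →* V₀ ⋊[E₀.subtype] E₀) (ι : V₀ →* G) : Bk F V₀ G where
  e := CM.kf F π
  g := one1
  i := ι
  b W x := if x ∈ Subgroup.centralizer ((W.map ι : Subgroup G) : Set G) then CM.kf F π x else 0
  D _ := 1
  S _ := 1

end datum

/-- the properties of the datum -/
theorem cmx (inf : InfStmt) (onb : OnbStmt) (ℓ : ℕ) [Fact ℓ.Prime]
    (M : Ideal (integralClosure ℤ ℂ)) [M.IsMaximal] (hM : (ℓ : integralClosure ℤ ℂ) ∈ M)
    (V₀ : Type) [CommGroup V₀] [Finite V₀] (hex : ∀ v : V₀, v ^ ℓ = 1)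
    (hcd : Nat.card V₀ = ℓ ^ 2) (E₀ : Subgroup (MulAut V₀)) (hE : ¬ ℓ ∣ Nat.card E₀)
    (G : Type) [Group G] [Finite G] (π : G →* V₀ ⋊[E₀.subtype] E₀) (ι : V₀ →* G)
    (ε : E₀ →* G) (hs : Function.Surjective π) (hK : ¬ ℓ ∣ Nat.card π.ker)
    (hι : ∀ v, π (ι v) = SemidirectProduct.inl v)
    (hconj : ∀ (φ : E₀) (v : V₀), ε φ * ι v * (ε φ)⁻¹ = ι ((φ : MulAut V₀) v))
    (hcent : Subgroup.centralizer (ι.range : Set G) ≤ ι.range) :
    Sb ℓ M E₀ (BC (FF M) π ι) ∧
    (IrrE M (BC (FF M) π ι).e).ncard = (Irr (V₀ ⋊[E₀.subtype] E₀)).ncard ∧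
    (∀ x : G, El ℓ x → x ^ ℓ = 1) ∧
    ∀ (W : Subgroup V₀), (∀ σ ∈ E₀, (∀ w ∈ W, σ w = w) → σ = 1) →
      Dg M (fun t : (BC (FF M) π ι).C W => (BC (FF M) π ι).b W t) 1 := by
  have hF : GoodF ℓ (FF M) := H50.fld ℓ Fact.out M hM
  have hch : CharP (FF M) ℓ := hF.char
  have h : CM.Cx ℓ E₀ π ι := ⟨hex, hcd, hE, hs, hK, hι, hcent⟩
  have hb1 : ∀ (W : Subgroup V₀) (x : G),
      x ∈ Subgroup.centralizer ((W.map ι : Subgroup G) : Set G) →
        (BC (FF M) π ι).b W x = CM.kf (FF M) π x := fun W x hx => if_pos hx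
  have hb0 : ∀ (W : Subgroup V₀) (x : G),
      x ∉ Subgroup.centralizer ((W.map ι : Subgroup G) : Set G) →
        (BC (FF M) π ι).b W x = 0 := fun W x hx => if_neg hx
  have hb2 : ∀ W : Subgroup V₀,
      (fun t : Subgroup.centralizer ((W.map ι : Subgroup G) : Set G) =>
        (BC (FF M) π ι).b W t) =
        CM.kf (FF M) (π.subgroupMap
          (Subgroup.centralizer ((W.map ι : Subgroup G) : Set G))) := by
    intro W
    funext t
    rw [hb1 W t t.2]
    unfold CM.kf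
    by_cases ht : π t = 1
    · rw [if_pos ht, if_pos (Subtype.ext ht)]
    · rw [if_neg ht, if_neg]
      exact fun h' => ht (congrArg Subtype.val h')
  refine ⟨⟨h.inj, h.ld M inf onb hM, ?_, ?_, ?_⟩, ?_, ?_, ?_⟩
  · intro t ht
    exact ⟨_, (π t).right.2, fun v => h.conj ht.1 v⟩
  · intro σ hσ
    have hc : ∀ v, ε ⟨σ, hσ⟩ * ι v * (ε ⟨σ, hσ⟩)⁻¹ = ι (σ v) := fun v => hconj ⟨σ, hσ⟩ v
    refine ⟨ε ⟨σ, hσ⟩, ⟨?_, ?_⟩, hc⟩
    · change ε ⟨σ, hσ⟩ ∈ Subgroup.normalizer (ι.range : Set G)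
      rw [Subgroup.mem_normalizer_iff]
      intro x
      constructor
      · rintro ⟨v, rfl⟩
        rw [hc]
        exact ⟨_, rfl⟩
      · rintro ⟨w, hw⟩
        refine ⟨σ⁻¹ w, ?_⟩
        have h1 := hc (σ⁻¹ w)
        have h2 : σ (σ⁻¹ w) = w := σ.apply_symm_apply w
        rw [h2, hw] at h1
        have h3 := mul_left_cancel (mul_right_cancel h1)
        exact h3
    · intro x
      change (one1 (ε ⟨σ, hσ⟩ * x * (ε ⟨σ, hσ⟩)⁻¹) : FF M) = one1 x
      unfold one1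
      by_cases hx : x = 1
      · rw [if_pos hx, if_pos (by rw [hx]; group)]
      · rw [if_neg hx, if_neg]
        intro h'
        exact hx (conj_eq_one_iff.1 h')
  · intro W
    refine ⟨⟨fun x hx => hb0 W x hx, ?_⟩, ?_, ?_⟩
    · change IsBlk (fun t : Subgroup.centralizer ((W.map ι : Subgroup G) : Set G) =>
        (BC (FF M) π ι).b W t)
      rw [hb2]
      exact (h.blkC M inf onb hM (CM.range_le W)).1
    · have e : (fun t : Subgroup.centralizer ((W.map ι : Subgroup G) : Set G) =>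
          CM.kf (FF M) π t) =
          fun t : Subgroup.centralizer ((W.map ι : Subgroup G) : Set G) =>
            (BC (FF M) π ι).b W t := by
        funext t
        exact (hb1 W t t.2).symm
      change mulF (fun t : Subgroup.centralizer ((W.map ι : Subgroup G) : Set G) =>
          CM.kf (FF M) π t)
        (fun t : Subgroup.centralizer ((W.map ι : Subgroup G) : Set G) =>
          (BC (FF M) π ι).b W t) =
        fun t : Subgroup.centralizer ((W.map ι : Subgroup G) : Set G) =>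
          (BC (FF M) π ι).b W t
      rw [e, hb2]
      exact (h.blkC M inf onb hM (CM.range_le W)).1.1.2
    · change mulF (br ι.range ((BC (FF M) π ι).b W)) one1 = one1
      rw [h.br fun x hx => hb1 W x (CM.range_le W hx)]
      exact (h.bxg M onb hM).mul
  · change (IrrE M (CM.kf (FF M) π)).ncard = _
    rw [(h.blk M inf onb hM).2]
    have e : {χ : G → ℂ | ∃ κ ∈ Irr (V₀ ⋊[E₀.subtype] E₀), χ = fun x => κ (π x)} =
        (fun κ : V₀ ⋊[E₀.subtype] E₀ → ℂ => fun x : G => κ (π x)) ''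
          Irr (V₀ ⋊[E₀.subtype] E₀) := by
      ext χ
      constructor
      · rintro ⟨κ, hκ, rfl⟩
        exact ⟨κ, hκ, rfl⟩
      · rintro ⟨κ, hκ, rfl⟩
        exact ⟨κ, hκ, rfl⟩
    rw [e]
    refine Set.ncard_image_of_injective _ fun κ κ' hκ => ?_
    funext y
    obtain ⟨x, rfl⟩ := hs y
    exact congrFun hκ x
  · rintro x ⟨n, hn⟩
    have h1 : (π x).right = 1 := by
      have h2 : (π x).right ^ ℓ ^ n = 1 := by
        have h3 := congrArg (fun y => SemidirectProduct.rightHom (π y)) hn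
        simp only [map_pow, map_one] at h3
        exact h3
      have h4 := CM.cop (ℓ := ℓ) (K := (⊤ : Subgroup E₀)) (x := (π x).right) (by
        rw [Subgroup.card_top]
        exact hE) (Subgroup.mem_top _) (n := n) h2
      exact h4
    have h2 : π (x ^ ℓ) = 1 := by
      rw [map_pow, CM.eq_inl h1, ← map_pow, hex, map_one]
    refine CM.cop hK (x := x ^ ℓ) h2 (n := n) ?_
    rw [← pow_mul, mul_comm, pow_mul, hn, one_pow]
  · intro W hW
    change Dg M (fun t : Subgroup.centralizer ((W.map ι : Subgroup G) : Set G) =>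
      (BC (FF M) π ι).b W t) 1
    rw [hb2]
    exact h.dg M inf onb hM W hW

section pair

variable {V₀ : Type} [CommGroup V₀] {E₀ : Subgroup (MulAut V₀)} {G : Type} [Group G]
  {π : G →* V₀ ⋊[E₀.subtype] E₀} {j : V₀ ⋊[E₀.subtype] E₀ →* G}

theorem j_inj (hj : ∀ y, π (j y) = y) : Function.Injective j :=
  Function.LeftInverse.injective hj

/-- the elements of the image of `j` which centralise `W` -/
theorem mem_cen (hj : ∀ y, π (j y) = y) (W : Subgroup V₀) (y : V₀ ⋊[E₀.subtype] E₀) :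
    j y ∈ Subgroup.centralizer
        ((W.map (j.comp SemidirectProduct.inl) : Subgroup G) : Set G) ↔
      y ∈ Subgroup.centralizer ((W.map (SemidirectProduct.inl : V₀ →* V₀ ⋊[E₀.subtype] E₀) :
        Subgroup (V₀ ⋊[E₀.subtype] E₀)) : Set (V₀ ⋊[E₀.subtype] E₀)) := by
  rw [Subgroup.mem_centralizer_iff, Subgroup.mem_centralizer_iff]
  constructor
  · rintro h _ ⟨w, hw, rfl⟩
    have h1 := h (j (SemidirectProduct.inl w)) ⟨w, hw, rfl⟩
    rw [← map_mul, ← map_mul] at h1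
    exact j_inj hj h1
  · rintro h _ ⟨w, hw, rfl⟩
    change j (SemidirectProduct.inl w) * j y = j y * j (SemidirectProduct.inl w)
    rw [← map_mul, ← map_mul, h _ ⟨w, hw, rfl⟩]

/-- `π` maps the centraliser of `W` to the centraliser of `W` -/
theorem pi_cen (hj : ∀ y, π (j y) = y) (W : Subgroup V₀) {x : G}
    (hx : x ∈ Subgroup.centralizer
      ((W.map (j.comp SemidirectProduct.inl) : Subgroup G) : Set G)) :
    π x ∈ Subgroup.centralizer ((W.map (SemidirectProduct.inl : V₀ →* V₀ ⋊[E₀.subtype] E₀) :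
        Subgroup (V₀ ⋊[E₀.subtype] E₀)) : Set (V₀ ⋊[E₀.subtype] E₀)) := by
  rw [Subgroup.mem_centralizer_iff] at hx ⊢
  rintro _ ⟨w, hw, rfl⟩
  have h1 := congrArg π (hx (j (SemidirectProduct.inl w)) ⟨w, hw, rfl⟩)
  rwa [map_mul, map_mul, hj] at h1

/-- the pair -/
theorem pr_of (F : Type) [Field F] (hj : ∀ y, π (j y) = y) (A : Subgroup V₀)
    (hA : Nat.card (π.ker ⊓ Subgroup.centralizer
      (A.map (j.comp SemidirectProduct.inl) : Set G) : Subgroup G) = 1) :
    Pr A (BC F π (j.comp SemidirectProduct.inl))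
      (BC F (MonoidHom.id (V₀ ⋊[E₀.subtype] E₀)) SemidirectProduct.inl) j := by
  refine ⟨j_inj hj, fun _ => rfl, ?_, ?_, ?_⟩
  · intro x hx
    refine ⟨π x, ?_⟩
    have h1 : j (π x) ∈ Subgroup.centralizer
        ((A.map (j.comp SemidirectProduct.inl) : Subgroup G) : Set G) :=
      (mem_cen hj A _).2 (pi_cen hj A hx)
    have h2 : x * (j (π x))⁻¹ ∈ (π.ker ⊓ Subgroup.centralizer
        (A.map (j.comp SemidirectProduct.inl) : Set G) : Subgroup G) := by
      refine ⟨?_, Subgroup.mul_mem _ hx (Subgroup.inv_mem _ h1)⟩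
      change π (x * (j (π x))⁻¹) = 1
      rw [map_mul, map_inv, hj, mul_inv_cancel]
    rw [Subgroup.card_eq_one.1 hA, Subgroup.mem_bot] at h2
    exact (mul_inv_eq_one.1 h2).symm
  · intro h
    change (one1 h : F) = one1 (j h)
    unfold one1
    by_cases h1 : h = 1
    · rw [if_pos h1, if_pos (by rw [h1, map_one])]
    · rw [if_neg h1, if_neg]
      intro h2
      exact h1 (j_inj hj (h2.trans (map_one j).symm))
  · intro W _ h
    have e1 : (CM.kf F (MonoidHom.id (V₀ ⋊[E₀.subtype] E₀)) h : F) = CM.kf F π (j h) := by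
      unfold CM.kf
      rw [hj]
      rfl
    by_cases h1 : h ∈ Subgroup.centralizer ((W.map (SemidirectProduct.inl :
        V₀ →* V₀ ⋊[E₀.subtype] E₀) : Subgroup (V₀ ⋊[E₀.subtype] E₀)) :
          Set (V₀ ⋊[E₀.subtype] E₀))
    · exact (if_pos h1).trans (e1.trans (if_pos ((mem_cen hj W h).2 h1)).symm)
    · exact (if_neg h1).trans (if_neg fun h2 => h1 ((mem_cen hj W h).1 h2)).symm

/-- the order of the centraliser -/
theorem card_cen [Finite G] [Finite V₀] (hj : ∀ y, π (j y) = y) (W : Subgroup V₀) :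
    Nat.card (Subgroup.centralizer
        ((W.map (j.comp SemidirectProduct.inl) : Subgroup G) : Set G)) =
      Nat.card V₀ * Nat.card (St E₀ W) * Nat.card (π.ker ⊓ Subgroup.centralizer
        (W.map (j.comp SemidirectProduct.inl) : Set G) : Subgroup G) := by
  set C := Subgroup.centralizer
    ((W.map (j.comp SemidirectProduct.inl) : Subgroup G) : Set G) with hC
  set C' := Subgroup.centralizer ((W.map (SemidirectProduct.inl : V₀ →* V₀ ⋊[E₀.subtype] E₀) :
        Subgroup (V₀ ⋊[E₀.subtype] E₀)) : Set (V₀ ⋊[E₀.subtype] E₀)) with hC'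
  have h1 : C.map π = C' := by
    apply le_antisymm
    · rintro _ ⟨x, hx, rfl⟩
      exact pi_cen hj W hx
    · intro y hy
      exact ⟨j y, (mem_cen hj W y).2 hy, hj y⟩
  have h2 : Nat.card C = Nat.card C' * Nat.card (π.ker ⊓ C : Subgroup G) := by
    rw [← h1]
    have h3 := Subgroup.card_eq_card_quotient_mul_card_subgroup (π.subgroupMap C).ker
    rw [h3]
    congr 1
    · exact Nat.card_congr (QuotientGroup.quotientKerEquivOfSurjective _
        (MonoidHom.subgroupMap_surjective π C)).toEquiv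
    · rw [Subgroup.ker_subgroupMap, ← Subgroup.inf_subgroupOf_right]
      exact Nat.card_congr (Subgroup.subgroupOfEquivOfLe inf_le_right).toEquiv
  have h3 : Nat.card C' = Nat.card V₀ * Nat.card (St E₀ W) := by
    rw [← Nat.card_prod]
    refine (Nat.card_congr (Equiv.ofBijective (fun x : V₀ × St E₀ W =>
      (⟨⟨x.1, ⟨x.2, x.2.2.1⟩⟩, ?_⟩ : C')) ⟨?_, ?_⟩)).symm
    · rw [hC', Subgroup.mem_centralizer_iff]
      rintro _ ⟨w, hw, rfl⟩
      rw [CM.mul_inl]
      congr 2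
      exact (x.2.2.2 w hw).symm
    · rintro ⟨v, σ⟩ ⟨v', σ'⟩ h
      have h4 := congrArg (fun y : C' => (y : V₀ ⋊[E₀.subtype] E₀)) h
      have h5 := (SemidirectProduct.ext_iff.1 h4).1
      have h6 := congrArg Subtype.val (SemidirectProduct.ext_iff.1 h4).2
      exact Prod.ext h5 (Subtype.ext h6)
    · rintro ⟨y, hy⟩
      have h4 : (y.right : MulAut V₀) ∈ St E₀ W := by
        refine ⟨y.right.2, fun w hw => ?_⟩
        rw [hC', Subgroup.mem_centralizer_iff] at hy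
        exact CM.right_fix (hy _ ⟨w, hw, rfl⟩).symm
      exact ⟨(y.left, ⟨_, h4⟩), rfl⟩
  rw [h2, h3]

end pair

/-- the exponents -/
theorem pe_of (ℓ : ℕ) [Fact ℓ.Prime] (G : Type) [Group G] [Finite G]
    (hEl : ∀ x : G, El ℓ x → x ^ ℓ = 1) (r : ℕ) (hr : 0 < r) : ∃ m, PE ℓ (ℓ ^ r) m G := by
  have hℓ : ℓ.Prime := Fact.out
  obtain ⟨a, c, hc, hcard⟩ := Nat.exists_eq_pow_mul_and_not_dvd (n := Nat.card G)
    Nat.card_pos.ne' ℓ hℓ.ne_one
  have hco : Nat.Coprime ℓ c := (Nat.Prime.coprime_iff_not_dvd hℓ).2 hc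
  obtain ⟨m, hm1, hm2⟩ := Nat.chineseRemainder hco 1 0
  have hmc : c ∣ m := (Nat.modEq_zero_iff_dvd).1 hm2
  refine ⟨m, ⟨r, hr, rfl⟩, ?_, ?_, ?_⟩
  · have h1 : m % ℓ = 1 % ℓ := hm1
    rw [h1]
    exact Nat.mod_eq_of_lt hℓ.one_lt
  · intro g hg
    have h1 := hEl g hg
    refine ⟨?_, ?_⟩
    · have h2 : g ^ m = g ^ 1 := by
        rw [pow_eq_pow_iff_modEq]
        exact hm1.of_dvd (orderOf_dvd_of_pow_eq_one h1)
      rw [h2, pow_one]
    · obtain ⟨s, rfl⟩ : ∃ s, r = s + 1 := ⟨r - 1, by omega⟩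
      rw [pow_succ', pow_mul, h1, one_pow]
  · intro g hg
    have h1 : orderOf g ∣ ℓ ^ a * c := by
      rw [← hcard]
      exact orderOf_dvd_natCard g
    have h2 : orderOf g ∣ c := by
      refine Nat.Coprime.dvd_of_dvd_mul_left ?_ h1
      exact Nat.Coprime.pow_right a hg
    exact orderOf_dvd_iff_pow_eq_one.1 (h2.trans hmc)

theorem map_inv_map {V₀ : Type} [CommGroup V₀] (σ : MulAut V₀) (W : Subgroup V₀) :
    (W.map σ.toMonoidHom).map (σ⁻¹ : MulAut V₀).toMonoidHom = W := by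
  ext x
  constructor
  · rintro ⟨_, ⟨y, hy, rfl⟩, rfl⟩
    change (σ⁻¹ : MulAut V₀) (σ y) ∈ W
    rw [MulAut.inv_apply_self]
    exact hy
  · intro hx
    refine ⟨σ x, ⟨x, hx, rfl⟩, ?_⟩
    change (σ⁻¹ : MulAut V₀) (σ x) = x
    rw [MulAut.inv_apply_self]

theorem st_of_rw {V₀ : Type} [CommGroup V₀] {E₀ : Subgroup (MulAut V₀)} {W : Subgroup V₀}
    (h : ∀ σ ∈ E₀, (∀ w ∈ W, σ w = w) → σ = 1) : Nat.card (St E₀ W) = 1 := by
  rw [Subgroup.card_eq_one, Subgroup.eq_bot_iff_forall]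
  rintro σ ⟨h1, h2⟩
  exact h σ h1 h2

/-- the numbers `U` and the structure `Sd` -/
theorem sd_of (inf : InfStmt) (onb : OnbStmt) (ℓ : ℕ) [Fact ℓ.Prime]
    (M : Ideal (integralClosure ℤ ℂ)) [M.IsMaximal] (hM : (ℓ : integralClosure ℤ ℂ) ∈ M)
    (V₀ : Type) [CommGroup V₀] [Finite V₀] (E₀ : Subgroup (MulAut V₀)) (hq : Fq ℓ V₀ E₀)
    (G : Type) [Group G] [Finite G] (π : G →* V₀ ⋊[E₀.subtype] E₀)
    (j : V₀ ⋊[E₀.subtype] E₀ →* G) (hj : ∀ y, π (j y) = y) (hK : ¬ ℓ ∣ Nat.card π.ker)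
    (hcent : Subgroup.centralizer ((j.comp SemidirectProduct.inl).range : Set G) ≤
      (j.comp SemidirectProduct.inl).range)
    (hT : Nat.card (π.ker ⊓ Subgroup.centralizer
        ((⊤ : Subgroup V₀).map (j.comp SemidirectProduct.inl) : Set G) : Subgroup G) = 1)
    (hW : ∀ W : Subgroup V₀, W ≠ ⊥ → ∃ q ∈ SOR.Rl ℓ, (Nat.card (π.ker ⊓ Subgroup.centralizer
        (W.map (j.comp SemidirectProduct.inl) : Set G) : Subgroup G) : ℚ) = 1 + ℓ * q) :
    Sd ℓ M E₀ (BC (FF M) π (j.comp SemidirectProduct.inl)) ∧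
    (IrrE M (BC (FF M) π (j.comp SemidirectProduct.inl)).e).ncard =
      (Irr (V₀ ⋊[E₀.subtype] E₀)).ncard ∧ ∀ r, 0 < r → ∃ m, PE ℓ (ℓ ^ r) m G := by
  have hℓ : ℓ.Prime := Fact.out
  obtain ⟨h1, h2, h3, h4⟩ := cmx inf onb ℓ M hM V₀ hq.ex hq.cd E₀ hq.cp G π
    (j.comp SemidirectProduct.inl) (j.comp SemidirectProduct.inr) (fun y => ⟨j y, hj y⟩) hK
    (fun v => hj _) (fun φ v => by
      have h5 : (SemidirectProduct.inr φ * SemidirectProduct.inl v *
          (SemidirectProduct.inr φ)⁻¹ : V₀ ⋊[E₀.subtype] E₀) =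
          SemidirectProduct.inl ((φ : MulAut V₀) v) := by
        rw [← map_inv, ← SemidirectProduct.inl_aut]
        rfl
      change j (SemidirectProduct.inr φ) * j (SemidirectProduct.inl v) *
        (j (SemidirectProduct.inr φ))⁻¹ = j (SemidirectProduct.inl ((φ : MulAut V₀) v))
      rw [← h5, map_mul, map_mul, map_inv]) hcent
  refine ⟨⟨h1, fun W hr => h4 W hr.2, fun W _ => Or.inl rfl, fun W hr => ?_⟩, h2,
    pe_of ℓ G h3⟩
  obtain ⟨q, hq1, hq2⟩ := hW W hr.1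
  refine ⟨q, hq1, ?_⟩
  rw [← hq2]
  have e1 : Nat.card ((BC (FF M) π (j.comp SemidirectProduct.inl)).C ⊤) = ℓ ^ 2 := by
    have := card_cen (π := π) hj (⊤ : Subgroup V₀)
    rw [hT, hq.cd, st_of_rw (fun σ _ h5 => MulEquiv.ext fun v => h5 v (Subgroup.mem_top v)),
      mul_one, mul_one] at this
    exact this
  have e2 : Nat.card ((BC (FF M) π (j.comp SemidirectProduct.inl)).C W) =
      ℓ ^ 2 * Nat.card (π.ker ⊓ Subgroup.centralizer
        (W.map (j.comp SemidirectProduct.inl) : Set G) : Subgroup G) := by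
    have := card_cen (π := π) hj W
    rw [hq.cd, st_of_rw hr.2, mul_one] at this
    exact this
  have hl0 : (ℓ : ℚ) ≠ 0 := Nat.cast_ne_zero.2 hℓ.ne_zero
  unfold Bk.U
  rw [e1, e2]
  change (((1 : ℤ) : ℚ) * ((ℓ ^ 2 * _ : ℕ) : ℚ) * ((1 : ℕ) : ℚ)) /
    (((ℓ ^ 2 : ℕ) : ℚ) * ((1 : ℕ) : ℚ)) = _
  push_cast
  field_simp

/-- row CBG -/
theorem cbg (inf : InfStmt) (onb : OnbStmt) : CbgStmt := by
  intro ℓ _ M _ hM hℓ2 V₀ _ _ E₀ hq P hP
  have hℓ : ℓ.Prime := Fact.out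
  have hfA : Finite (MulAut V₀) := Finite.of_injective (fun σ : MulAut V₀ => (σ : V₀ → V₀))
    DFunLike.coe_injective
  have hfR : Finite (V₀ ⋊[E₀.subtype] E₀) := Finite.of_injective (fun x => (x.left, x.right))
    (fun x y h => SemidirectProduct.ext (Prod.ext_iff.1 h).1 (Prod.ext_iff.1 h).2)
  have hid : ∀ (C : Subgroup (V₀ ⋊[E₀.subtype] E₀)),
      Nat.card ((MonoidHom.id (V₀ ⋊[E₀.subtype] E₀)).ker ⊓ C : Subgroup _) = 1 := by
    intro C
    rw [Subgroup.card_eq_one, Subgroup.eq_bot_iff_forall]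
    rintro x ⟨h1, -⟩
    exact h1
  obtain ⟨hR1, hR2, hR3⟩ := sd_of inf onb ℓ M hM V₀ E₀ hq (V₀ ⋊[E₀.subtype] E₀)
    (MonoidHom.id _) (MonoidHom.id _) (fun _ => rfl) (by
      have h1 := hid ⊤
      rw [inf_top_eq] at h1
      rw [h1]
      exact hℓ.one_lt.ne' ∘ Nat.dvd_one.1) (by
      intro x hx
      rw [Subgroup.mem_centralizer_iff] at hx
      have h1 : x.right = 1 := by
        apply Subtype.ext
        apply MulEquiv.ext
        intro v
        exact CM.right_fix (hx (SemidirectProduct.inl v) ⟨v, rfl⟩).symm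
      exact ⟨_, (CM.eq_inl h1).symm⟩) (hid _) (fun W _ => ⟨0, (SOR.Rl ℓ).zero_mem, by
        rw [hid]
        push_cast
        ring⟩)
  refine ⟨V₀ ⋊[E₀.subtype] E₀, inferInstance, hfR,
    BC (FF M) (MonoidHom.id _) SemidirectProduct.inl, hR1, hR3, ?_⟩
  intro k U hU1 hU2 hU3
  classical
  have hPi : ∀ W : Subgroup V₀, ∀ φ ∈ E₀, P (W.map (φ : V₀ ≃* V₀).toMonoidHom) ↔ P W := by
    intro W φ hφ
    constructor
    · intro h
      have h1 := (hP _ h).2 φ⁻¹ (E₀.inv_mem hφ)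
      have h2 := map_inv_map φ W
      rw [← h2]
      exact h1
    · intro h
      exact (hP _ h).2 φ hφ
  obtain ⟨G, iG, iF, π, j, hj, hk, hcent, hex, hap⟩ := cgx ℓ hℓ2 V₀ hq.ex hq.cd E₀ (k + 1) P hPi
    (fun W => if W = ⊥ then 1 else SO.H15.nn ℓ k (U W)) (by
      intro W
      by_cases hW : W = ⊥
      · rw [if_pos hW, sub_self]
        exact dvd_zero _
      · rw [if_neg hW]
        exact SO.H15.nn_dvd ℓ k (U W)) (by
      intro W hPW φ hφ
      by_cases hW : W = ⊥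
      · subst hW
        rw [Subgroup.map_bot]
      · have hW2 : ¬ W.map (φ : V₀ ≃* V₀).toMonoidHom = ⊥ := by
          intro h
          apply hW
          rw [Subgroup.map_eq_bot_iff] at h
          rw [eq_bot_iff]
          refine h.trans ?_
          intro x hx
          have hx1 : (φ : V₀ ≃* V₀) x = 1 := hx
          rw [Subgroup.mem_bot]
          exact (MulEquiv.map_eq_one_iff (φ : V₀ ≃* V₀)).1 hx1
        rw [if_neg hW, if_neg hW2]
        exact congrArg (SO.H15.nn ℓ k) (hU3 W hW hPW φ hφ))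
  have hV1 : (⊤ : Subgroup V₀) ≠ ⊥ := by
    intro h
    have h1 := Subgroup.card_top (G := V₀)
    rw [h, Subgroup.card_bot, hq.cd] at h1
    have h2 := Nat.one_lt_pow two_ne_zero hℓ.one_lt
    omega
  obtain ⟨κ, hκ⟩ : ∃ κ : Subgroup V₀ → ℕ, κ = fun W => Nat.card (π.ker ⊓ Subgroup.centralizer
      (W.map (j.comp SemidirectProduct.inl) : Set G) : Subgroup G) := ⟨_, rfl⟩
  have hκ' : ∀ W, κ W = Nat.card (π.ker ⊓ Subgroup.centralizer
      (W.map (j.comp SemidirectProduct.inl) : Set G) : Subgroup G) := fun W => congrFun hκ W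
  have hκT : κ ⊤ = 1 := by
    rw [hκ']
    exact hex ⊤ hV1 (Or.inl rfl)
  have hκP : ∀ W, W ≠ ⊥ → P W → κ W = 1 := by
    intro W hW hPW
    rw [hκ']
    exact hex W hW (Or.inr hPW)
  have hκU : ∀ W, W ≠ ⊥ → ¬ P W → ∃ q ∈ SOR.Rl ℓ, (κ W : ℚ) - U W = ℓ ^ (k + 1) * q := by
    intro W hW hPW
    by_cases hT : W = ⊤
    · refine ⟨0, (SOR.Rl ℓ).zero_mem, ?_⟩
      rw [hT, hκT, hU1]
      push_cast
      ring
    · obtain ⟨z, hz⟩ := hap W hW hT hPW
      rw [if_neg hW, ← hκ'] at hz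
      obtain ⟨q, hq1, hq2⟩ := SO.H15.nn_spec ℓ k (U W) (hU2 W hW hPW)
      refine ⟨z - q, (SOR.Rl ℓ).sub_mem (SO.H15.int_Rl ℓ z) hq1, ?_⟩
      have hz2 : ((κ W : ℤ) : ℚ) - (SO.H15.nn ℓ k (U W) : ℚ) =
          (((ℓ ^ (k + 1) : ℕ) : ℤ) * z : ℤ) := by
        rw [← hz]
        push_cast
        rfl
      push_cast at hz2
      have e : (κ W : ℚ) - U W = ((κ W : ℚ) - (SO.H15.nn ℓ k (U W) : ℚ)) -
          (U W - SO.H15.nn ℓ k (U W)) := by ring
      rw [e, hz2, hq2]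
      ring
  obtain ⟨hB1, hB2, hB3⟩ := sd_of inf onb ℓ M hM V₀ E₀ hq G π j hj hk hcent
    (by rw [← hκ']; exact hκT) (by
      intro W hW
      rw [← hκ']
      by_cases hPW : P W
      · refine ⟨0, (SOR.Rl ℓ).zero_mem, ?_⟩
        rw [hκP W hW hPW]
        push_cast
        ring
      · obtain ⟨q, hq1, hq2⟩ := hκU W hW hPW
        obtain ⟨q', hq1', hq2'⟩ := hU2 W hW hPW
        refine ⟨ℓ ^ k * q + q', (SOR.Rl ℓ).add_mem ((SOR.Rl ℓ).mul_mem
          (pow_mem (natCast_mem _ ℓ) k) hq1) hq1', ?_⟩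
        have e : (κ W : ℚ) = ((κ W : ℚ) - U W) + U W := by ring
        rw [e, hq2, hq2', pow_succ]
        ring)
  refine ⟨G, iG, iF, BC (FF M) π (j.comp SemidirectProduct.inl), j, κ, hB1, ?_, hB3, hB2,
    fun _ => rfl, fun _ => rfl, hκT, ?_⟩
  · intro A hA
    exact pr_of (FF M) hj A (by rw [← hκ']; exact hκP A (hP A hA).1 hA)
  · intro W hW
    refine ⟨?_, hκP W hW, ?_⟩
    · have h1 := card_cen (π := π) hj W
      rw [hq.cd, ← hκ'] at h1
      exact h1
    · intro hPW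
      obtain ⟨q, hq1, hq2⟩ := hκU W hW hPW
      refine ⟨ℓ * q, (SOR.Rl ℓ).mul_mem (natCast_mem _ ℓ) hq1, ?_⟩
      rw [hq2, pow_succ]
      ring

end Pool.Agent.PP.SD.H43
end
end -- Pool.Agent.Helper43_ASD.CBG

section -- Pool.Agent.Helper97_ASE.SBG

/-!
# Squad ASE, row SBG: the basic conditions for the comparison datum (helper97)
-/

open scoped BigOperators

noncomputable section

namespace Pool.Agent.PP.SE.H97

open Pool.Agent.Helper51_AWC Pool.Agent.Helper79_WRA Pool.Agent.PP Pool.Agent.PP.KF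
open Pool.Agent.PP.K9 Pool.Agent.PP.K9.H97 Pool.Agent.PP.H75 Pool.Agent.PP.T3 Pool.Agent.PP.SO
open Pool.Agent.PP.SD

attribute [local instance] Ideal.Quotient.field

section

variable {F V₀ S G : Type} [CommGroup V₀] [Group S] [Group G] [Field F] {φ : S →* MulAut V₀}
  {θ : S → F} {d : ℕ} {π : G →* V₀ ⋊[φ] S} {j : V₀ ⋊[φ] S →* G}

theorem CG_top : CG j ⊤ = Subgroup.centralizer ((iG j).range : Set G) := by
  unfold CG
  rw [← MonoidHom.range_eq_map]

theorem CG_anti {W W' : Subgroup V₀} (h : W ≤ W') : CG j W' ≤ CG j W := by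
  intro x hx
  unfold CG at hx ⊢
  rw [Subgroup.mem_centralizer_iff] at hx ⊢
  rintro y ⟨w, hw, rfl⟩
  exact hx _ ⟨w, h hw, rfl⟩

theorem b_pos (W : Subgroup V₀) {x : G} (hx : x ∈ CG j W) :
    (BG φ θ d π j).b W x = eR φ θ (π x) := if_pos hx

theorem b_neg (W : Subgroup V₀) {x : G} (hx : x ∉ CG j W) : (BG φ θ d π j).b W x = 0 := if_neg hx

theorem g_eq : (BG φ θ d π j).g = (BG φ θ d π j).b ⊤ := rfl

theorem b_res (W : Subgroup V₀) :
    (fun t : CG j W => (BG φ θ d π j).b W t) = fun t : CG j W => eR φ θ (π t) :=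
  funext fun t => b_pos W t.2

/-- the Brauer construction of the local idempotents -/
theorem br_b (W : Subgroup V₀) : br (iG j).range ((BG φ θ d π j).b W) = (BG φ θ d π j).g := by
  funext x
  rw [g_eq]
  by_cases hx : x ∈ Subgroup.centralizer ((iG j).range : Set G)
  · have h1 : x ∈ CG j ⊤ := by rw [CG_top]; exact hx
    rw [H66.br_of_mem hx, b_pos W (CG_anti le_top h1), b_pos ⊤ h1]
  · have h1 : x ∉ CG j ⊤ := by rw [CG_top]; exact hx
    rw [H66.br_of_not_mem hx, b_neg ⊤ h1]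

theorem br_e : br (iG j).range (BG φ θ d π j).e = (BG φ θ d π j).g := by
  funext x
  rw [g_eq]
  by_cases hx : x ∈ Subgroup.centralizer ((iG j).range : Set G)
  · have h1 : x ∈ CG j ⊤ := by rw [CG_top]; exact hx
    rw [H66.br_of_mem hx, b_pos ⊤ h1]
    rfl
  · have h1 : x ∉ CG j ⊤ := by rw [CG_top]; exact hx
    rw [H66.br_of_not_mem hx, b_neg ⊤ h1]

end

/-- SBG -/
theorem sbg (cen : CenStmt) (blg : BlgStmt) (tpg : TpgStmt) : SbgStmt := by
  intro ℓ _ M _ hM V₀ S G _ _ _ _ _ _ φ θ κ d π j hq hT hC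
  obtain ⟨hinj, -, hconj, hW⟩ := cen ℓ V₀ S G φ π j hq hC
  obtain ⟨hblk, -, hloc⟩ := blg ℓ M hM V₀ S G φ θ κ d π j hq hT hC
  have htp := tpg ℓ M hM V₀ S G φ θ κ d π j hq hT hC
  have hb : ∀ W : Subgroup V₀, Bx (CG j W) ((BG φ θ d π j).b W) := by
    intro W
    obtain ⟨-, -, h3, h4, -, -, h7, -⟩ := hW W
    refine ⟨fun x hx => b_neg W hx, ?_⟩
    rw [b_res]
    exact (hloc (CG j W) h4 _ h7 h3).1
  have hg : Bx (Subgroup.centralizer ((iG j).range : Set G)) (BG φ θ d π j).g := by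
    have h1 := hb ⊤
    rw [CG_top] at h1
    exact h1
  have hgg : mulF (BG φ θ d π j).g (BG φ θ d π j).g = (BG φ θ d π j).g := hg.ix.mul
  refine ⟨hinj, ⟨hblk, htp, ?_, hg, ?_⟩, ?_, ?_, ?_⟩
  · rintro _ ⟨v, rfl⟩ _ ⟨w, rfl⟩
    rw [← map_mul, mul_comm, map_mul]
  · change mulF (br (iG j).range (BG φ θ d π j).e) (BG φ θ d π j).g = (BG φ θ d π j).g
    rw [br_e, hgg]
  · intro t ht
    refine ⟨φ (π t).right, ⟨_, rfl⟩, fun v => ?_⟩
    have h1 : t ∈ Subgroup.normalizer ((iG j).range : Set G) := ht.1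
    rw [Subgroup.mem_normalizer_iff] at h1
    obtain ⟨v', hv'⟩ := (h1 (iG j v)).1 ⟨v, rfl⟩
    change t * iG j v * t⁻¹ = iG j (φ (π t).right v)
    rw [← hv']
    congr 1
    have h2 := congrArg π hv'
    rw [map_mul, map_mul, map_inv] at h2
    have h3 : ∀ w, π (iG j w) = SemidirectProduct.inl w := fun w => hC.sec _
    rw [h3, h3] at h2
    have h4 := congrArg SemidirectProduct.left h2
    rw [SemidirectProduct.left_inl] at h4
    rw [h4]
    simp [SemidirectProduct.mul_left, SemidirectProduct.inv_left]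
  · rintro σ ⟨s, rfl⟩
    have hc : ∀ v, j (SemidirectProduct.inr s) * iG j v * (j (SemidirectProduct.inr s))⁻¹ =
        iG j (φ s v) := fun v => hconj (SemidirectProduct.inr s) v
    have hn : j (SemidirectProduct.inr s) ∈ Subgroup.normalizer ((iG j).range : Set G) := by
      rw [Subgroup.mem_normalizer_iff]
      intro x
      constructor
      · rintro ⟨v, rfl⟩
        rw [hc]
        exact ⟨_, rfl⟩
      · rintro ⟨w, hw⟩
        refine ⟨(φ s)⁻¹ w, ?_⟩
        have h1 := hc ((φ s)⁻¹ w)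
        have h2 : φ s ((φ s)⁻¹ w) = w := (φ s).apply_symm_apply w
        rw [h2, hw] at h1
        exact mul_left_cancel (mul_right_cancel h1)
    refine ⟨j (SemidirectProduct.inr s), ⟨hn, ?_⟩, hc⟩
    intro x
    have hcn : ∀ t ∈ Subgroup.normalizer ((iG j).range : Set G), ∀ x ∈ CG j ⊤,
        t * x * t⁻¹ ∈ CG j ⊤ := by
      intro t ht x hx
      rw [CG_top, Subgroup.mem_centralizer_iff] at hx ⊢
      intro y hy
      have h1 := (Subgroup.mem_normalizer_iff.1 (Subgroup.inv_mem _ ht) y).1 hy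
      rw [inv_inv] at h1
      have h2 := hx _ h1
      have h3 : t * (t⁻¹ * y * t * x) * t⁻¹ = t * (x * (t⁻¹ * y * t)) * t⁻¹ := by rw [h2]
      calc y * (t * x * t⁻¹) = t * (t⁻¹ * y * t * x) * t⁻¹ := by group
        _ = t * (x * (t⁻¹ * y * t)) * t⁻¹ := h3
        _ = t * x * t⁻¹ * y := by group
    change (BG φ θ d π j).b ⊤ _ = (BG φ θ d π j).b ⊤ _
    by_cases hx : x ∈ CG j ⊤
    · rw [b_pos ⊤ hx, b_pos ⊤ (hcn _ hn x hx)]
      exact hblk.1.1 _ _
    · rw [b_neg ⊤ hx, b_neg ⊤]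
      intro h
      apply hx
      have h1 := hcn _ (Subgroup.inv_mem _ hn) _ h
      have e : (j (SemidirectProduct.inr s))⁻¹ * (j (SemidirectProduct.inr s) * x *
          (j (SemidirectProduct.inr s))⁻¹) * (j (SemidirectProduct.inr s))⁻¹⁻¹ = x := by group
      rwa [e] at h1
  · intro W
    have h1 : (fun t : CG j W => (BG φ θ d π j).e t) =
        fun t : CG j W => (BG φ θ d π j).b W t := (b_res W).symm
    refine ⟨hb W, ?_, ?_⟩
    · change mulF (fun t : CG j W => (BG φ θ d π j).e t)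
        (fun t : CG j W => (BG φ θ d π j).b W t) = fun t : CG j W => (BG φ θ d π j).b W t
      rw [h1]
      exact (hb W).blk.1.2
    · change mulF (br (iG j).range ((BG φ θ d π j).b W)) (BG φ θ d π j).g = (BG φ θ d π j).g
      rw [br_b, hgg]

end Pool.Agent.PP.SE.H97
end
end -- Pool.Agent.Helper97_ASE.SBG
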