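import Pool.Agent.Helper12_AWB.B209

/-!
# Merged copies (generated) of the modules

* `Pool.Agent.Helper17_ASE.KE2`
* `Pool.Agent.Helper33_ASE.GDP`
* `Pool.Agent.Helper46_ASE.KRE`
* `Pool.Agent.Helper72_ASE.GID`
* `Pool.Agent.Helper83_ASE.GDI`
-/

set_option autoImplicit false

section -- Pool.Agent.Helper17_ASE.KE2

/-!
# Squad ASE, row KE2: division by `ℓ`, residues
-/

open scoped BigOperators

noncomputable section

namespace Pool.Agent.PP.SE.H17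

open Pool.Agent.PP Pool.Agent.PP.SO Pool.Agent.PP.SD Pool.Agent.PP.SE

open Classical in
theorem fsum {α M : Type} [Fintype α] [AddCommMonoid M] (P : α → Prop) (f : α → M) :
    ∑ᶠ a ∈ {a : α | P a}, f a = ∑ a, if P a then f a else 0 := by
  rw [finsum_eq_sum_of_fintype]
  exact Finset.sum_congr rfl fun c _ => finsum_eq_if

/-- **KE2**. -/
theorem ke2 (Rsl : SO.RslStmt) (Prb : PrbStmt) (Ke1 : Ke1Stmt) : Ke2Stmt := by
  classical
  intro ℓ _ h2' V₀ _ _ E₀ hFr D N z y k K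
  obtain ⟨⟨k', hk⟩, hD⟩ := Ke1 ℓ h2' V₀ E₀ hFr D N z y k K
  obtain ⟨hR1, -, -⟩ := Rsl ℓ
  have hℓ0 : (ℓ : ℚ) ≠ 0 := by
    have := (Fact.out : ℓ.Prime).pos
    positivity
  let r : SOR.Rl ℓ →+* ZMod ℓ :=
    { toFun := fun x => ((x : ℚ) : ZMod ℓ)
      map_one' := by simp
      map_zero' := by simp
      map_add' := fun x y => (hR1 x x.2 y y.2).1
      map_mul' := fun x y => (hR1 x x.2 y y.2).2 }
  have hrℓ : r (ℓ : SOR.Rl ℓ) = 0 := by
    rw [map_natCast]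
    exact ZMod.natCast_self ℓ
  have hD' : ∀ c, ∃ q : SOR.Rl ℓ, (c = 1 → q = 0) ∧ (c ≠ 1 → D c = ℓ * (q : ℚ)) := by
    intro c
    by_cases hc : c = 1
    · exact ⟨0, fun _ => rfl, fun h => absurd hc h⟩
    · obtain ⟨q, hq, h⟩ := hD c hc
      exact ⟨⟨q, hq⟩, fun h => absurd h hc, fun _ => h⟩
  have hN' : ∀ c d, ∃ q : SOR.Rl ℓ, c ≠ 1 → d ≠ 1 → N c d = ℓ * (q : ℚ) := by
    intro c d
    by_cases hc : c ≠ 1 ∧ d ≠ 1
    · obtain ⟨q, hq, h⟩ := K.n1 c d hc.1 hc.2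
      exact ⟨⟨q, hq⟩, fun _ _ => h⟩
    · exact ⟨0, fun h1 h2 => absurd ⟨h1, h2⟩ hc⟩
  have hz' : ∀ a, ∃ q : SOR.Rl ℓ, a ∈ RL ℓ E₀ → z a = ℓ * (q : ℚ) := by
    intro a
    by_cases ha : a ∈ RL ℓ E₀
    · obtain ⟨q, hq, h⟩ := K.zr a ha
      exact ⟨⟨q, hq⟩, fun _ => h⟩
    · exact ⟨0, fun h => absurd h ha⟩
  have hy' : ∀ (a : Subgroup V₀) (κ d : V₀), ∃ q : SOR.Rl ℓ, a ∈ RL ℓ E₀ → κ ∈ a → d ≠ 1 →
      y a κ d = ℓ * (q : ℚ) := by
    intro a κ d
    by_cases ha : a ∈ RL ℓ E₀ ∧ κ ∈ a ∧ d ≠ 1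
    · obtain ⟨q, hq, h⟩ := K.yr a ha.1 κ ha.2.1 d ha.2.2
      exact ⟨⟨q, hq⟩, fun _ _ _ => h⟩
    · exact ⟨0, fun h1 h2 h3 => absurd ⟨h1, h2, h3⟩ ha⟩
  choose D' hD0 hD1 using hD'
  choose N' hN1 using hN'
  choose z' hz1 using hz'
  choose y' hy1 using hy'
  have hpow : ∀ (c : V₀) (j : ℕ), c ≠ 1 → ¬ ℓ ∣ j → c ^ j ≠ 1 := by
    intro c j hc hj h
    have h1 : orderOf c = ℓ := orderOf_eq_prime (hFr.ex c) hc
    exact hj (h1 ▸ orderOf_dvd_of_pow_eq_one h)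
  have hnd : ∀ t ∈ Finset.Icc 1 (ℓ - 1), ¬ ℓ ∣ t := by
    intro t ht hdvd
    rw [Finset.mem_Icc] at ht
    have := Nat.le_of_dvd (by omega) hdvd
    omega
  have huniq : ∀ a b : V₀, a ≠ 1 → b ≠ 1 → D a = D b → D' a = D' b := by
    intro a b ha hb h
    rw [hD1 a ha, hD1 b hb] at h
    exact Subtype.ext (mul_left_cancel₀ hℓ0 h)
  have hpr : ∀ a ∈ RL ℓ E₀, ∀ c, pr ℓ E₀ a c ∈ a := fun a ha =>
    (Prb ℓ V₀ E₀ hFr a).2.2.2.2.1 ha
  refine ⟨fun c => r (D' c), fun c d => r (N' c d), fun a => r (z' a),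
    fun a κ d => r (y' a κ d), k', hk, ?_, ?_, ?_, ?_, ?_, ?_, ?_, ?_⟩
  · simp only
    rw [hD0 1 rfl, map_zero]
  · intro c j hj
    simp only
    by_cases hc : c = 1
    · rw [hc, one_pow]
    · rw [huniq (c ^ j) c (hpow c j hc hj) hc (K.dp c j hj)]
  · intro σ hσ c
    simp only
    by_cases hc : c = 1
    · rw [hc, map_one]
    · rw [huniq (σ c) c (by simpa using hc) hc (K.de σ hσ c)]
  · intro a ha σ hσ
    simp only
    have hmp : mp σ a ∈ RL ℓ E₀ := by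
      refine ⟨?_, ?_⟩
      · have h1 : Nat.card (mp σ a) = Nat.card a :=
          (Nat.card_congr (a.equivMapOfInjective (σ : V₀ ≃* V₀).toMonoidHom
            (σ : V₀ ≃* V₀).injective).toEquiv).symm
        rw [h1]
        exact ha.1
      · rw [((Prb ℓ V₀ E₀ hFr a).2.2.2.1 σ hσ).1]
        exact ha.2
    have h1 := K.ze a ha σ hσ
    rw [hz1 a ha, hz1 _ hmp] at h1
    rw [Subtype.ext (mul_left_cancel₀ hℓ0 h1)]
  · obtain ⟨q, hq, h⟩ := K.hh
    let _ : Fintype V₀ := Fintype.ofFinite V₀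
    have hsum : ∑ᶠ c ∈ {c : V₀ | c ≠ 1}, D c = ℓ * ∑ c, (D' c : ℚ) := by
      rw [Finset.mul_sum, ← finsum_eq_sum_of_fintype]
      refine finsum_congr fun c => ?_
      by_cases hc : c = 1
      · simp [hc, hD0 1 rfl]
      · rw [finsum_eq_if, if_pos (show c ∈ {c : V₀ | c ≠ 1} from hc), hD1 c hc]
    rw [hsum, hk] at h
    have h2 : (Nat.card E₀ : SOR.Rl ℓ) * (k' : SOR.Rl ℓ) + ∑ c, D' c = ℓ * ⟨q, hq⟩ := by
      apply Subtype.ext
      push_cast at h ⊢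
      apply mul_left_cancel₀ hℓ0
      linear_combination h
    have h3 := congrArg r h2
    rw [map_add, map_mul, map_mul, map_sum, hrℓ, zero_mul, map_natCast, map_intCast] at h3
    rw [finsum_eq_sum_of_fintype]
    linear_combination h3
  · intro ρ₁ ρ₂ h1 h2 c d hc hd
    obtain ⟨q, hq, h⟩ := K.n2 hD ρ₁ ρ₂ h1 h2 c d hc hd
    let _ : Fintype E₀ := Fintype.ofFinite E₀
    let _ : Fintype (Subgroup V₀) := Fintype.ofFinite (Subgroup V₀)
    -- the functions in the ring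
    let x₁ : V₀ → SOR.Rl ℓ := fun v => ((ρ₁ v).val : SOR.Rl ℓ)
    let x₂ : V₀ → SOR.Rl ℓ := fun v => ((ρ₂ v).val : SOR.Rl ℓ)
    have hx₁ : ∀ v, r (x₁ v) = ρ₁ v := fun v => by
      simp only [x₁, map_natCast, ZMod.natCast_zmod_val]
    have hx₂ : ∀ v, r (x₂ v) = ρ₂ v := fun v => by
      simp only [x₂, map_natCast, ZMod.natCast_zmod_val]
    let S₁ : SOR.Rl ℓ := ∑ a : Subgroup V₀, if a ∈ RL ℓ E₀ ∧ c ∉ a then
      x₁ (pr ℓ E₀ a c) * x₂ d * y' a (pr ℓ E₀ a c) d else 0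
    let S₂ : SOR.Rl ℓ := ∑ b : Subgroup V₀, if b ∈ RL ℓ E₀ ∧ d ∉ b then
      x₁ c * x₂ (pr ℓ E₀ b d) * y' b (pr ℓ E₀ b d) c else 0
    let T₀ : MulAut V₀ → SOR.Rl ℓ := fun σ => ∑ a : Subgroup V₀,
      if a ∈ RL ℓ E₀ ∧ c * σ d ∉ a then
        x₁ (pr ℓ E₀ a (c * σ d)) * x₂ (σ⁻¹ (pr ℓ E₀ a (c * σ d))) * z' a else 0
    let T : MulAut V₀ → SOR.Rl ℓ := fun σ =>
      x₁ (c * σ d) * x₂ (σ⁻¹ (c * σ d)) * D' (c * σ d) - T₀ σ
    have e1 : (∑ᶠ a ∈ {a : Subgroup V₀ | a ∈ RL ℓ E₀ ∧ c ∉ a},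
        ((((ρ₁ (pr ℓ E₀ a c)).val : ℤ) * ((ρ₂ d).val : ℤ) : ℤ) : ℚ) * y a (pr ℓ E₀ a c) d) =
        ℓ * (S₁ : ℚ) := by
      rw [fsum (fun a : Subgroup V₀ => a ∈ RL ℓ E₀ ∧ c ∉ a)]
      simp only [S₁]
      rw [AddSubmonoidClass.coe_finset_sum, Finset.mul_sum]
      refine Finset.sum_congr rfl fun a _ => ?_
      by_cases ha : a ∈ RL ℓ E₀ ∧ c ∉ a
      · rw [if_pos ha, if_pos ha, hy1 a _ d ha.1 (hpr a ha.1 c) hd]
        simp only [x₁, x₂]
        push_cast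
        ring
      · rw [if_neg ha, if_neg ha]
        simp
    have e2 : (∑ᶠ b ∈ {b : Subgroup V₀ | b ∈ RL ℓ E₀ ∧ d ∉ b},
        ((((ρ₁ c).val : ℤ) * ((ρ₂ (pr ℓ E₀ b d)).val : ℤ) : ℤ) : ℚ) * y b (pr ℓ E₀ b d) c) =
        ℓ * (S₂ : ℚ) := by
      rw [fsum (fun b : Subgroup V₀ => b ∈ RL ℓ E₀ ∧ d ∉ b)]
      simp only [S₂]
      rw [AddSubmonoidClass.coe_finset_sum, Finset.mul_sum]
      refine Finset.sum_congr rfl fun a _ => ?_
      by_cases ha : a ∈ RL ℓ E₀ ∧ d ∉ a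
      · rw [if_pos ha, if_pos ha, hy1 a _ c ha.1 (hpr a ha.1 d) hc]
        simp only [x₁, x₂]
        push_cast
        ring
      · rw [if_neg ha, if_neg ha]
        simp
    have e3 : ∀ σ : MulAut V₀, (∑ᶠ a ∈ {a : Subgroup V₀ | a ∈ RL ℓ E₀ ∧ c * σ d ∉ a},
        ((((ρ₁ (pr ℓ E₀ a (c * σ d))).val : ℤ) *
          ((ρ₂ (σ⁻¹ (pr ℓ E₀ a (c * σ d)))).val : ℤ) : ℤ) : ℚ) * z a) = ℓ * (T₀ σ : ℚ) := by
      intro σ
      rw [fsum (fun a : Subgroup V₀ => a ∈ RL ℓ E₀ ∧ c * σ d ∉ a)]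
      simp only [T₀]
      rw [AddSubmonoidClass.coe_finset_sum, Finset.mul_sum]
      refine Finset.sum_congr rfl fun a _ => ?_
      by_cases ha : a ∈ RL ℓ E₀ ∧ c * σ d ∉ a
      · rw [if_pos ha, if_pos ha, hz1 a ha.1]
        simp only [x₁, x₂]
        push_cast
        ring
      · rw [if_neg ha, if_neg ha]
        simp
    have hT1 : ∀ σ : MulAut V₀, c * σ d = 1 → T σ = 0 := by
      intro σ hσ
      simp only [T, T₀]
      rw [hσ, hD0 1 rfl, mul_zero, zero_sub, neg_eq_zero]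
      refine Finset.sum_eq_zero fun a _ => ?_
      rw [if_neg fun h => h.2 a.one_mem]
    have e4 : (∑ᶠ σ ∈ {σ : MulAut V₀ | σ ∈ E₀ ∧ c * σ d ≠ 1},
        (((((ρ₁ (c * σ d)).val : ℤ) * ((ρ₂ (σ⁻¹ (c * σ d))).val : ℤ) : ℤ) : ℚ) * D (c * σ d) -
          ∑ᶠ a ∈ {a : Subgroup V₀ | a ∈ RL ℓ E₀ ∧ c * σ d ∉ a},
          ((((ρ₁ (pr ℓ E₀ a (c * σ d))).val : ℤ) *
            ((ρ₂ (σ⁻¹ (pr ℓ E₀ a (c * σ d)))).val : ℤ) : ℤ) : ℚ) * z a)) =
        ℓ * ((∑ σ : E₀, T σ.1 : SOR.Rl ℓ) : ℚ) := by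
      rw [AddSubmonoidClass.coe_finset_sum, Finset.mul_sum, ← finsum_eq_sum_of_fintype,
        finsum_subtype_eq_finsum_cond (fun σ => σ ∈ E₀)
          (f := fun σ : MulAut V₀ => (ℓ : ℚ) * (T σ : ℚ))]
      refine finsum_congr fun σ => ?_
      rw [finsum_eq_if, finsum_eq_if]
      by_cases hσ : σ ∈ E₀
      · by_cases hcd : c * σ d = 1
        · rw [if_neg (fun h => h.2 hcd), if_pos hσ, hT1 σ hcd]
          simp
        · rw [if_pos (show σ ∈ {σ : MulAut V₀ | σ ∈ E₀ ∧ c * σ d ≠ 1} from ⟨hσ, hcd⟩),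
            if_pos hσ, hD1 _ hcd, e3 σ]
          simp only [T, x₁, x₂]
          push_cast
          ring
      · rw [if_neg (fun h => hσ h.1), if_neg hσ]
    unfold RNE at h
    rw [e1, e2, e4, hN1 c d hc hd] at h
    have h2 : x₁ c * x₂ d * N' c d - S₁ - S₂ - ∑ σ : E₀, T σ.1 = ℓ * ⟨q, hq⟩ := by
      apply Subtype.ext
      simp only [x₁, x₂]
      push_cast at h ⊢
      apply mul_left_cancel₀ hℓ0
      linear_combination h
    have h3 := congrArg r h2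
    have f5 : r (∑ σ : E₀, T σ.1) = ∑ σ : E₀, r (T σ.1) := map_sum r _ _
    rw [map_sub, map_sub, map_sub, map_mul, map_mul, hx₁, hx₂, map_mul, hrℓ, zero_mul,
      f5] at h3
    have f1 : r S₁ = ∑ᶠ a ∈ {a : Subgroup V₀ | a ∈ RL ℓ E₀ ∧ c ∉ a},
        r (y' a (pr ℓ E₀ a c) d) * (ρ₁ (pr ℓ E₀ a c) * ρ₂ d) := by
      rw [fsum (fun a : Subgroup V₀ => a ∈ RL ℓ E₀ ∧ c ∉ a)]
      simp only [S₁]
      rw [map_sum]
      refine Finset.sum_congr rfl fun a _ => ?_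
      by_cases ha : a ∈ RL ℓ E₀ ∧ c ∉ a
      · rw [if_pos ha, if_pos ha, map_mul, map_mul, hx₁, hx₂]
        ring
      · rw [if_neg ha, if_neg ha, map_zero]
    have f2 : r S₂ = ∑ᶠ b ∈ {b : Subgroup V₀ | b ∈ RL ℓ E₀ ∧ d ∉ b},
        r (y' b (pr ℓ E₀ b d) c) * (ρ₁ c * ρ₂ (pr ℓ E₀ b d)) := by
      rw [fsum (fun b : Subgroup V₀ => b ∈ RL ℓ E₀ ∧ d ∉ b)]
      simp only [S₂]
      rw [map_sum]
      refine Finset.sum_congr rfl fun a _ => ?_
      by_cases ha : a ∈ RL ℓ E₀ ∧ d ∉ a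
      · rw [if_pos ha, if_pos ha, map_mul, map_mul, hx₁, hx₂]
        ring
      · rw [if_neg ha, if_neg ha, map_zero]
    have f3 : ∀ σ : E₀, r (T σ.1) = r (D' (c * σ.1 d)) *
        (ρ₁ (c * σ.1 d) * ρ₂ (σ.1⁻¹ c * d)) -
        ∑ᶠ a ∈ {a : Subgroup V₀ | a ∈ RL ℓ E₀ ∧ c * σ.1 d ∉ a},
        r (z' a) * (ρ₁ (pr ℓ E₀ a (c * σ.1 d)) * ρ₂ (σ.1⁻¹ (pr ℓ E₀ a (c * σ.1 d)))) := by
      intro σ
      have h4 : σ.1⁻¹ (c * σ.1 d) = σ.1⁻¹ c * d := by
        rw [map_mul]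
        congr 1
        exact MulAut.inv_apply_self V₀ σ.1 d
      rw [fsum (fun a : Subgroup V₀ => a ∈ RL ℓ E₀ ∧ c * σ.1 d ∉ a)]
      simp only [T, T₀]
      rw [map_sub, map_mul, map_mul, hx₁, hx₂, h4, map_sum]
      congr 1
      · ring
      · refine Finset.sum_congr rfl fun a _ => ?_
        by_cases ha : a ∈ RL ℓ E₀ ∧ c * σ.1 d ∉ a
        · rw [if_pos ha, if_pos ha, map_mul, map_mul, hx₁, hx₂]
          ring
        · rw [if_neg ha, if_neg ha, map_zero]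
    have f4 : (∑ᶠ σ : E₀, (r (D' (c * σ.1 d)) *
        (ρ₁ (c * σ.1 d) * ρ₂ (σ.1⁻¹ c * d)) -
        ∑ᶠ a ∈ {a : Subgroup V₀ | a ∈ RL ℓ E₀ ∧ c * σ.1 d ∉ a},
        r (z' a) * (ρ₁ (pr ℓ E₀ a (c * σ.1 d)) * ρ₂ (σ.1⁻¹ (pr ℓ E₀ a (c * σ.1 d)))))) =
        ∑ σ : E₀, r (T σ.1) := by
      rw [finsum_eq_sum_of_fintype]
      exact Finset.sum_congr rfl fun σ _ => (f3 σ).symm
    beta_reduce
    rw [← f1, ← f2, f4]
    linear_combination h3
  · intro c d hc hd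
    obtain ⟨q, hq, h⟩ := K.sf c d hc hd
    have hsum : ∑ t ∈ Finset.Icc 1 (ℓ - 1), ∑ s ∈ Finset.Icc 1 (ℓ - 1), N (c ^ t) (d ^ s) =
        ℓ * ∑ t ∈ Finset.Icc 1 (ℓ - 1), ∑ s ∈ Finset.Icc 1 (ℓ - 1), (N' (c ^ t) (d ^ s) : ℚ) := by
      rw [Finset.mul_sum]
      refine Finset.sum_congr rfl fun t ht => ?_
      rw [Finset.mul_sum]
      refine Finset.sum_congr rfl fun s hs => ?_
      exact hN1 _ _ (hpow c t hc (hnd t ht)) (hpow d s hd (hnd s hs))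
    rw [hsum, hD1 c hc, hD1 d hd, hk] at h
    have h2 : (∑ t ∈ Finset.Icc 1 (ℓ - 1), ∑ s ∈ Finset.Icc 1 (ℓ - 1), N' (c ^ t) (d ^ s)) +
        (Nat.card E₀ : SOR.Rl ℓ) * ((ℓ : SOR.Rl ℓ) - 1) * (D' c + D' d) +
        (Nat.card E₀ : SOR.Rl ℓ) ^ 2 * (k' : SOR.Rl ℓ) = ℓ * ⟨q, hq⟩ := by
      apply Subtype.ext
      push_cast at h ⊢
      apply mul_left_cancel₀ hℓ0
      linear_combination h
    have h3 := congrArg r h2
    simp only [map_sub, map_add, map_mul, map_sum, map_natCast, map_intCast, map_one, map_pow,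
      ZMod.natCast_self, zero_mul] at h3
    linear_combination h3
  · intro a ha κ hκ d hd
    obtain ⟨q, hq, h⟩ := K.sy a ha κ hκ d hd
    have hsum : ∑ t ∈ Finset.Icc 1 (ℓ - 1), ∑ s ∈ Finset.Icc 1 (ℓ - 1), y a (κ ^ t) (d ^ s) =
        ℓ * ∑ t ∈ Finset.Icc 1 (ℓ - 1), ∑ s ∈ Finset.Icc 1 (ℓ - 1),
          (y' a (κ ^ t) (d ^ s) : ℚ) := by
      rw [Finset.mul_sum]
      refine Finset.sum_congr rfl fun t ht => ?_
      rw [Finset.mul_sum]
      refine Finset.sum_congr rfl fun s hs => ?_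
      exact hy1 a _ _ ha (a.pow_mem hκ t) (hpow d s hd (hnd s hs))
    rw [hsum, hz1 a ha] at h
    have h2 : (∑ t ∈ Finset.Icc 1 (ℓ - 1), ∑ s ∈ Finset.Icc 1 (ℓ - 1), y' a (κ ^ t) (d ^ s)) -
        (Nat.card E₀ : SOR.Rl ℓ) * z' a = ℓ * ⟨q, hq⟩ := by
      apply Subtype.ext
      push_cast at h ⊢
      apply mul_left_cancel₀ hℓ0
      linear_combination h
    have h3 := congrArg r h2
    simp only [map_sub, map_mul, map_sum, map_natCast, ZMod.natCast_self, zero_mul] at h3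
    exact sub_eq_zero.1 h3

end Pool.Agent.PP.SE.H17
end
end -- Pool.Agent.Helper17_ASE.KE2

section -- Pool.Agent.Helper33_ASE.GDP

/-!
# Squad ASE: row GDP (operators commuting with `θ` and a projection)
-/

open scoped BigOperators

noncomputable section

namespace Pool.Agent.PP.SE.H33

open Pool.Agent.Helper51_AWC Pool.Agent.Helper79_WRA Pool.Agent.PP Pool.Agent.PP.KF
open Pool.Agent.PP.K9 Pool.Agent.PP.K9.H97 Pool.Agent.PP.H75 Pool.Agent.PP.T3 Pool.Agent.PP.SO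
open Pool.Agent.PP.SD Pool.Agent.PP.SE

/-- a multiplicative function with a non trivial value has the sum `0` -/
theorem sum_zero {ℓ : ℕ} [Fact ℓ.Prime] {Γ : Type} [Group Γ] [Fintype Γ] (χ : Γ → ZMod ℓ)
    (hm : ∀ e e', χ (e * e') = χ e * χ e') (e₀ : Γ) (h0 : χ e₀ ≠ 1) : ∑ e, χ e = 0 := by
  have h1 : ∑ e, χ e = χ e₀ * ∑ e, χ e := by
    rw [Finset.mul_sum]
    calc ∑ e, χ e = ∑ e, χ (e₀ * e) := (Equiv.sum_comp (Equiv.mulLeft e₀) χ).symm
      _ = ∑ e, χ e₀ * χ e := Finset.sum_congr rfl fun e _ => hm e₀ e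
  have h2 : (1 - χ e₀) * ∑ e, χ e = 0 := by
    rw [sub_mul, one_mul, ← h1, sub_self]
  rcases mul_eq_zero.1 h2 with h3 | h3
  · exact absurd (sub_eq_zero.1 h3).symm h0
  · exact h3

/-- GDP -/
theorem gdp (hLcm : SO.LCmStmt) : GdpStmt := by
  intro ℓ hℓ V Γ I _ _ _ _ _ _ ρ P Z hl2 hrk hLP a₀ θ hθ hcom
  have : Nontrivial V := Module.nontrivial_of_finrank_pos (R := ZMod ℓ) (by rw [hrk]; norm_num)
  have htr1 : LinearMap.trace (ZMod ℓ) V 1 = 2 := by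
    rw [LinearMap.trace_one, hrk]
    norm_num
  -- `P a₀` is not a scalar
  have hP0 : ∀ a : ZMod ℓ, P a₀ ≠ a • 1 := by
    intro x hx
    have h1 := hLP.pp a₀
    have h2 := hLP.tr a₀
    rw [hx, map_smul, htr1, smul_eq_mul] at h2
    obtain ⟨v, hv⟩ := exists_ne (0 : V)
    have h3 : (x * x) • v = x • v := by
      have h4 := congrArg (fun f : Module.End (ZMod ℓ) V => f v) h1
      simp only [hx] at h4
      change x • x • v = x • v at h4
      rw [← mul_smul] at h4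
      exact h4
    have h5 : x * x = x := smul_left_injective (ZMod ℓ) hv h3
    have h6 : x * (x - 1) = 0 := by rw [mul_sub, mul_one, h5, sub_self]
    rcases mul_eq_zero.1 h6 with h7 | h7
    · rw [h7, zero_mul] at h2
      exact zero_ne_one h2
    · rw [sub_eq_zero.1 h7, one_mul] at h2
      have h8 : (1 : ZMod ℓ) = 0 := by linear_combination h2
      exact one_ne_zero h8
  obtain ⟨-, hLc, -⟩ := hLcm ℓ V hrk (P a₀) hP0
  have hcomP : ∀ a, θ * P a = P a * θ := hLP.cm θ hcom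
  -- every operator which commutes with `θ` is a combination of `1` and `P a₀`
  have hdec : ∀ g : Module.End (ZMod ℓ) V, θ * g = g * θ →
      ∃ a b : ZMod ℓ, g = a • 1 + b • P a₀ := fun g hg => hLc θ g hθ (hcomP a₀) hg
  have hpp : ∀ v, P a₀ (P a₀ v) = P a₀ v := fun v =>
    congrArg (fun f : Module.End (ZMod ℓ) V => f v) (hLP.pp a₀)
  -- the vectors
  obtain ⟨v₁, hv₁, hPv₁⟩ : ∃ v₁ : V, v₁ ≠ 0 ∧ P a₀ v₁ = v₁ := by
    have h1 : P a₀ ≠ 0 := fun h => hP0 0 (by rw [h, zero_smul])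
    obtain ⟨v, hv⟩ : ∃ v, P a₀ v ≠ 0 := by
      by_contra hno
      push Not at hno
      exact h1 (LinearMap.ext fun v => hno v)
    exact ⟨P a₀ v, hv, hpp v⟩
  obtain ⟨v₂, hv₂, hPv₂⟩ : ∃ v₂ : V, v₂ ≠ 0 ∧ P a₀ v₂ = 0 := by
    have h1 : P a₀ ≠ 1 := fun h => hP0 1 (by rw [h, one_smul])
    obtain ⟨v, hv⟩ : ∃ v, P a₀ v ≠ v := by
      by_contra hno
      push Not at hno
      exact h1 (LinearMap.ext fun v => hno v)
    refine ⟨v - P a₀ v, fun h => hv (sub_eq_zero.1 h).symm, ?_⟩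
    rw [map_sub, hpp v, sub_self]
  have hval1 : ∀ (g : Module.End (ZMod ℓ) V) (x y : ZMod ℓ), g = x • 1 + y • P a₀ →
      g v₁ = (x + y) • v₁ := by
    intro g x y h
    rw [h, add_smul]
    change x • v₁ + y • P a₀ v₁ = x • v₁ + y • v₁
    rw [hPv₁]
  have hval2 : ∀ (g : Module.End (ZMod ℓ) V) (x y : ZMod ℓ), g = x • 1 + y • P a₀ →
      g v₂ = x • v₂ := by
    intro g x y h
    rw [h]
    change x • v₂ + y • P a₀ v₂ = x • v₂
    rw [hPv₂, smul_zero, add_zero]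
  choose x y hxy using fun e : Γ => hdec (ρ e) (hcom e)
  obtain ⟨α, hα⟩ : ∃ α : Γ → ZMod ℓ, ∀ e, α e = x e + y e := ⟨fun e => x e + y e, fun _ => rfl⟩
  have hα1 : ∀ e, ρ e v₁ = α e • v₁ := fun e => by rw [hα e]; exact hval1 _ _ _ (hxy e)
  have hβ1 : ∀ e, ρ e v₂ = x e • v₂ := fun e => hval2 _ _ _ (hxy e)
  have hmulα : ∀ e e', α (e * e') = α e * α e' := by
    intro e e'
    apply smul_left_injective (ZMod ℓ) hv₁
    change α (e * e') • v₁ = (α e * α e') • v₁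
    rw [← hα1, map_mul]
    change ρ e (ρ e' v₁) = _
    rw [hα1 e', map_smul, hα1 e, ← mul_smul, mul_comm]
  have hmulβ : ∀ e e', x (e * e') = x e * x e' := by
    intro e e'
    apply smul_left_injective (ZMod ℓ) hv₂
    change x (e * e') • v₂ = (x e * x e') • v₂
    rw [← hβ1, map_mul]
    change ρ e (ρ e' v₂) = _
    rw [hβ1 e', map_smul, hβ1 e, ← mul_smul, mul_comm]
  have honeα : α 1 = 1 := by
    apply smul_left_injective (ZMod ℓ) hv₁
    change α 1 • v₁ = (1 : ZMod ℓ) • v₁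
    rw [← hα1, map_one, one_smul]
    rfl
  have honeβ : x 1 = 1 := by
    apply smul_left_injective (ZMod ℓ) hv₂
    change x 1 • v₂ = (1 : ZMod ℓ) • v₂
    rw [← hβ1, map_one, one_smul]
    rfl
  have hinvα : ∀ e, α e * α e⁻¹ = 1 := fun e => by rw [← hmulα, mul_inv_cancel, honeα]
  have hinvβ : ∀ e, x e * x e⁻¹ = 1 := fun e => by rw [← hmulβ, mul_inv_cancel, honeβ]
  have hα0 : ∀ e, α e ≠ 0 := fun e h => by
    have := hinvα e
    rw [h, zero_mul] at this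
    exact zero_ne_one this
  have hβ0 : ∀ e, x e ≠ 0 := fun e h => by
    have := hinvβ e
    rw [h, zero_mul] at this
    exact zero_ne_one this
  have hα2 : ∀ e, α e⁻¹ = (α e)⁻¹ := fun e => eq_inv_of_mul_eq_one_right (hinvα e)
  have hβ2 : ∀ e, x e⁻¹ = (x e)⁻¹ := fun e => eq_inv_of_mul_eq_one_right (hinvβ e)
  -- the reflection
  obtain ⟨e₀, he₀, he₁⟩ := hLP.rf a₀
  have hαe : α e₀ = 1 := by
    apply smul_left_injective (ZMod ℓ) hv₁
    change α e₀ • v₁ = (1 : ZMod ℓ) • v₁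
    have h1 := congrArg (fun f : Module.End (ZMod ℓ) V => f v₁) he₀
    change ρ e₀ (P a₀ v₁) = P a₀ v₁ at h1
    rw [hPv₁] at h1
    rw [← hα1, h1, one_smul]
  have hβe : x e₀ ≠ 1 := by
    intro h
    apply he₁
    have h1 := hα e₀
    rw [hαe, h] at h1
    have h2 : y e₀ = 0 := by linear_combination -h1
    rw [hxy e₀, h, h2, zero_smul, add_zero, one_smul]
  refine ⟨α, x, v₁, v₂, hv₁, hv₂, hPv₁, hPv₂, ?_, ?_, ?_, ?_⟩
  · intro e
    exact ⟨hα1 e, hβ1 e, hα0 e, hβ0 e, hα2 e, hβ2 e⟩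
  · apply sum_zero (fun e => x e * (α e)⁻¹) _ e₀
    · rw [hαe, inv_one, mul_one]
      exact hβe
    · intro e e'
      rw [hmulα, hmulβ, mul_inv]
      ring
  · apply sum_zero (fun e => α e * (x e)⁻¹) _ e₀
    · rw [hαe, one_mul]
      intro h
      exact hβe (inv_eq_one.1 h)
    · intro e e'
      rw [hmulα, hmulβ, mul_inv]
      ring
  · intro b
    obtain ⟨s, t, hst⟩ := hdec (P b) (hcomP b)
    have h1 := hval1 _ _ _ hst
    have h2 := hval2 _ _ _ hst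
    have htr := hLP.tr b
    rw [hst, map_add, map_smul, map_smul, htr1, hLP.tr a₀, smul_eq_mul, smul_eq_mul, mul_one] at htr
    have h3 : s * s = s := by
      apply smul_left_injective (ZMod ℓ) hv₂
      change (s * s) • v₂ = s • v₂
      have h4 := congrArg (fun f : Module.End (ZMod ℓ) V => f v₂) (hLP.pp b)
      change P b (P b v₂) = P b v₂ at h4
      rw [h2, map_smul, h2, ← mul_smul] at h4
      exact h4
    have h5 : s * (s - 1) = 0 := by rw [mul_sub, mul_one, h3, sub_self]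
    rcases mul_eq_zero.1 h5 with h6 | h6
    · left
      have h7 : s + t = 1 := by linear_combination htr - h6
      rw [h1, h2, h7, h6]
      exact ⟨one_smul _ _, zero_smul _ _⟩
    · right
      have h7 : s + t = 0 := by linear_combination htr - h6
      rw [h1, h2, h7, sub_eq_zero.1 h6]
      exact ⟨zero_smul _ _, one_smul _ _⟩

end Pool.Agent.PP.SE.H33
end
end -- Pool.Agent.Helper33_ASE.GDP

section -- Pool.Agent.Helper46_ASE.KRE

/-!
# Squad ASE, row KRE (the arithmetic part, transport to linear algebra), helper46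
-/

open scoped BigOperators

noncomputable section

namespace Pool.Agent.PP.SE.H46

open Pool.Agent.PP.SO Pool.Agent.PP.SD Pool.Agent.PP.SE

theorem sum_sub {T R : Type} [AddCommMonoid R] {S : Set T} [Fintype {a // a ∈ S}] (Q : T → Prop)
    (Q' : {a // a ∈ S} → Prop) [DecidablePred Q'] (f : T → R) (h : ∀ a, Q' a ↔ ¬ Q a.1) :
    ∑ᶠ a ∈ {a | a ∈ S ∧ Q a}, f a = ∑ a : {a // a ∈ S}, if Q' a then 0 else f a.1 := by
  classical
  have h1 := finsum_set_coe_eq_finsum_mem (s := S) (f := fun a => if Q a then f a else 0)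
  rw [finsum_eq_sum_of_fintype] at h1
  have h2 : ∑ᶠ a ∈ {a | a ∈ S ∧ Q a}, f a = ∑ᶠ a ∈ S, (if Q a then f a else 0) := by
    refine finsum_congr fun a => ?_
    by_cases ha : a ∈ S
    · by_cases hq : Q a
      · simp [ha, hq]
      · simp [ha, hq]
    · simp [ha]
  rw [h2, ← h1]
  refine Finset.sum_congr rfl fun a _ => ?_
  by_cases hq : Q a.1
  · rw [if_pos hq, if_neg (by rw [h]; exact not_not.2 hq)]
  · rw [if_neg hq, if_pos ((h a).2 hq)]

/-- a sum over the units is a sum over `Icc 1 (ℓ - 1)` -/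
theorem sum_units (ℓ : ℕ) [Fact ℓ.Prime] {R : Type} [AddCommMonoid R] (f : ℕ → R) :
    ∑ t : (ZMod ℓ)ˣ, f (t : ZMod ℓ).val = ∑ t ∈ Finset.Icc 1 (ℓ - 1), f t := by
  have hp : ℓ.Prime := Fact.out
  refine Finset.sum_bij' (i := fun t _ => (t : ZMod ℓ).val)
    (j := fun t ht => Units.mk0 ((t : ℕ) : ZMod ℓ) ?_) ?_ ?_ ?_ ?_ ?_
  · rw [Finset.mem_Icc] at ht
    intro h0
    rw [ZMod.natCast_eq_zero_iff] at h0
    have := Nat.le_of_dvd (by omega) h0
    have := hp.one_lt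
    omega
  · intro t _
    rw [Finset.mem_Icc]
    have h1 := ZMod.val_lt (t : ZMod ℓ)
    have h2 : (t : ZMod ℓ).val ≠ 0 := by
      rw [Ne, ZMod.val_eq_zero]
      exact t.ne_zero
    omega
  · intro t ht
    exact Finset.mem_univ _
  · intro t _
    ext
    simp
  · intro t ht
    rw [Finset.mem_Icc] at ht
    have := hp.one_lt
    simp only [Units.val_mk0]
    exact ZMod.val_cast_of_lt (by omega)
  · intro t _
    rfl

section core

variable {ℓ : ℕ} {V₀ : Type} [CommGroup V₀] [Module (ZMod ℓ) (Additive V₀)]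

/-- the automorphisms as linear maps -/
def lr (E₀ : Subgroup (MulAut V₀)) : E₀ →* Module.End (ZMod ℓ) (Additive V₀) where
  toFun σ := AddMonoidHom.toZModLinearMap ℓ
    (MonoidHom.toAdditive (MulEquiv.toMonoidHom (σ.1 : MulAut V₀)))
  map_one' := rfl
  map_mul' _ _ := rfl

/-- the projections as linear maps -/
def lp {E₀ : Subgroup (MulAut V₀)} {W : Subgroup V₀}
    (h : ∀ c d, pr ℓ E₀ W (c * d) = pr ℓ E₀ W c * pr ℓ E₀ W d) :
    Module.End (ZMod ℓ) (Additive V₀) :=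
  AddMonoidHom.toZModLinearMap ℓ (MonoidHom.toAdditive (MonoidHom.mk' (pr ℓ E₀ W) h))

theorem toMul_smul' [Fact ℓ.Prime] (j : ZMod ℓ) (v : Additive V₀) :
    Additive.toMul (j • v) = Additive.toMul v ^ j.val := by
  conv_lhs => rw [← ZMod.natCast_zmod_val j]
  rw [Nat.cast_smul_eq_nsmul, toMul_nsmul]

theorem core (hGCO : GcoStmt) (hKLP : KlpStmt) (hPRB : PrbStmt) (hMPB : MpbStmt) [Fact ℓ.Prime]
    (hl : ℓ ≠ 2) [Finite V₀] [Fintype (Additive V₀)] (E₀ : Subgroup (MulAut V₀)) [Fintype E₀]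
    [Fintype {a : Subgroup V₀ // a ∈ RL ℓ E₀}] (hFq : Fq ℓ V₀ E₀)
    (F : V₀ → ZMod ℓ) (N' : V₀ → V₀ → ZMod ℓ) (Z' : Subgroup V₀ → ZMod ℓ)
    (Y' : Subgroup V₀ → V₀ → V₀ → ZMod ℓ) (k' : ℤ)
    (hF1 : F 1 = 0) (hFp : ∀ (c : V₀) (j : ℕ), ¬ ℓ ∣ j → F (c ^ j) = F c)
    (hFe : ∀ σ ∈ E₀, ∀ c, F (σ c) = F c)
    (hZe : ∀ a ∈ RL ℓ E₀, ∀ σ ∈ E₀, Z' (mp σ a) = Z' a)
    (hFs : (∑ᶠ c : V₀, F c) = - ((Nat.card E₀ : ZMod ℓ) * k'))
    (hN1 : ∀ (ρ₁ ρ₂ : V₀ → ZMod ℓ), Hm ρ₁ → Hm ρ₂ → ∀ c d : V₀, c ≠ 1 → d ≠ 1 →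
      N' c d * (ρ₁ c * ρ₂ d) -
        (∑ᶠ a ∈ {a : Subgroup V₀ | a ∈ RL ℓ E₀ ∧ c ∉ a},
          Y' a (pr ℓ E₀ a c) d * (ρ₁ (pr ℓ E₀ a c) * ρ₂ d)) -
        (∑ᶠ b ∈ {b : Subgroup V₀ | b ∈ RL ℓ E₀ ∧ d ∉ b},
          Y' b (pr ℓ E₀ b d) c * (ρ₁ c * ρ₂ (pr ℓ E₀ b d))) =
      ∑ᶠ σ : E₀, (F (c * σ.1 d) * (ρ₁ (c * σ.1 d) * ρ₂ (σ.1⁻¹ c * d)) -
        ∑ᶠ a ∈ {a : Subgroup V₀ | a ∈ RL ℓ E₀ ∧ c * σ.1 d ∉ a},
          Z' a * (ρ₁ (pr ℓ E₀ a (c * σ.1 d)) * ρ₂ (σ.1⁻¹ (pr ℓ E₀ a (c * σ.1 d))))))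
    (hN2 : ∀ c d : V₀, c ≠ 1 → d ≠ 1 →
      ∑ t ∈ Finset.Icc 1 (ℓ - 1), ∑ s ∈ Finset.Icc 1 (ℓ - 1), N' (c ^ t) (d ^ s) =
        (Nat.card E₀ : ZMod ℓ) * (F c + F d) - (Nat.card E₀ : ZMod ℓ) ^ 2 * k')
    (hN3 : ∀ a ∈ RL ℓ E₀, ∀ κ ∈ a, ∀ d, d ≠ 1 →
      ∑ t ∈ Finset.Icc 1 (ℓ - 1), ∑ s ∈ Finset.Icc 1 (ℓ - 1), Y' a (κ ^ t) (d ^ s) =
        (Nat.card E₀ : ZMod ℓ) * Z' a) :
    (k' : ZMod ℓ) = 0 := by
  classical
  have hp : ℓ.Prime := Fact.out
  have hcard : Fintype.card E₀ = Nat.card E₀ := (Nat.card_eq_fintype_card).symm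
  let V := Additive V₀
  let I := {a : Subgroup V₀ // a ∈ RL ℓ E₀}
  let ρ : E₀ →* Module.End (ZMod ℓ) V := lr E₀
  let P : I → Module.End (ZMod ℓ) V := fun a => lp (hPRB ℓ V₀ E₀ hFq a.1).2.1.2.1
  let Z : I → ZMod ℓ := fun a => Z' a.1
  let FV : V → ZMod ℓ := fun v => F (Additive.toMul v)
  let NV : V → V → ZMod ℓ := fun v w => N' (Additive.toMul v) (Additive.toMul w)
  let YV : I → V → V → ZMod ℓ := fun a v w => Y' a.1 (Additive.toMul v) (Additive.toMul w)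
  let FF : V → ZMod ℓ := fun v => if v = 0 then 0 else FV v + ∑ a, if P a v = v then Z a else 0
  have hρ : ∀ (σ : E₀) (v : V₀), ρ σ (Additive.ofMul v) = Additive.ofMul (σ.1 v) :=
    fun _ _ => rfl
  have hP : ∀ (a : I) (v : V₀), P a (Additive.ofMul v) = Additive.ofMul (pr ℓ E₀ a.1 v) :=
    fun _ _ => rfl
  have hne : ∀ c : V, c ≠ 0 → Additive.toMul c ≠ 1 := fun c hc h0 => hc h0
  have hfix : ∀ (a : I) (v : V), P a v = v ↔ Additive.toMul v ∈ a.1 := by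
    intro a v
    constructor
    · intro h
      have h1 := (hPRB ℓ V₀ E₀ hFq a.1).2.2.2.2.1 a.2 (Additive.toMul v)
      have h2 : pr ℓ E₀ a.1 (Additive.toMul v) = Additive.toMul v := congrArg Additive.toMul h
      rw [h2] at h1
      exact h1
    · intro h
      exact congrArg Additive.ofMul ((hPRB ℓ V₀ E₀ hFq a.1).1 (Additive.toMul v) h)
  have hLP : LP ρ P Z := hKLP ℓ V₀ E₀ hFq ρ P Z' hρ hP hZe
  have hFFd : FFd P Z FV FF := by
    refine ⟨if_pos rfl, fun v hv => ?_⟩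
    exact if_neg hv
  have hFF : ∀ v, v ≠ 0 → FF v = FV v + ∑ a, if P a v = v then Z a else 0 := fun v hv =>
    if_neg hv
  have hLF : LF ρ FF (Fintype.card E₀ * (k' : ZMod ℓ) + ∑ a, Z a) := by
    refine ⟨hl, ?_, ?_, hFFd.1, ?_, ?_, ?_⟩
    · have h1 := Module.natCard_eq_pow_finrank (K := ZMod ℓ) (V := V)
      have h2 : Nat.card V = ℓ ^ 2 := hFq.cd
      rw [h2, Nat.card_zmod] at h1
      exact (Nat.pow_right_injective hp.two_le h1).symm
    · rw [hcard, Ne, ZMod.natCast_eq_zero_iff]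
      exact hFq.cp
    · intro j v hj
      by_cases hv : v = 0
      · rw [hv, smul_zero]
      · have hjv : j • v ≠ 0 := smul_ne_zero hj hv
        rw [hFF _ hjv, hFF _ hv]
        refine congrArg₂ (· + ·) ?_ (Finset.sum_congr rfl fun a _ => ?_)
        · change F (Additive.toMul (j • v)) = F (Additive.toMul v)
          rw [toMul_smul']
          apply hFp
          intro hd
          apply hj
          have h1 := ZMod.val_lt j
          rw [← ZMod.val_eq_zero]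
          exact Nat.eq_zero_of_dvd_of_lt hd h1
        · have h1 : P a (j • v) = j • v ↔ P a v = v := by
            rw [map_smul]
            exact ⟨fun h => smul_right_injective _ hj h, fun h => by rw [h]⟩
          simp only [h1]
    · intro e v
      have he : ∀ v : V, ρ e⁻¹ (ρ e v) = v := by
        intro v
        rw [← Module.End.mul_apply, ← map_mul, inv_mul_cancel, map_one]
        rfl
      by_cases hv : v = 0
      · rw [hv, map_zero]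
      · have hev : ρ e v ≠ 0 := by
          intro h
          apply hv
          rw [← he v, h, map_zero]
        rw [hFF _ hev, hFF _ hv]
        refine congrArg₂ (· + ·) (hFe e.1 e.2 _) ?_
        have hmem : ∀ (σ : E₀) (a : I), mp σ.1 a.1 ∈ RL ℓ E₀ := by
          intro σ a
          refine ⟨?_, ?_⟩
          · rw [(hMPB V₀ σ.1 σ.1 a.1 a.1).2.2.1]
            exact a.2.1
          · rw [((hPRB ℓ V₀ E₀ hFq a.1).2.2.2.1 σ.1 σ.2).1]
            exact a.2.2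
        let ep : I ≃ I :=
          { toFun := fun a => ⟨mp e.1 a.1, hmem e a⟩
            invFun := fun a => ⟨mp (e⁻¹ : E₀).1 a.1, hmem e⁻¹ a⟩
            left_inv := fun a => by
              apply Subtype.ext
              change mp (e.1)⁻¹ (mp e.1 a.1) = a.1
              rw [← (hMPB V₀ (e.1)⁻¹ e.1 a.1 a.1).2.1, inv_mul_cancel]
              exact (hMPB V₀ e.1 e.1 a.1 a.1).1
            right_inv := fun a => by
              apply Subtype.ext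
              change mp e.1 (mp (e.1)⁻¹ a.1) = a.1
              rw [← (hMPB V₀ e.1 (e.1)⁻¹ a.1 a.1).2.1, mul_inv_cancel]
              exact (hMPB V₀ e.1 e.1 a.1 a.1).1 }
        refine (Fintype.sum_equiv ep _ _ fun a => ?_).symm
        have h1 : P (ep a) (ρ e v) = ρ e v ↔ P a v = v := by
          rw [hfix, hfix]
          exact (hMPB V₀ e.1 e.1 a.1 a.1).2.2.2.2.1 (Additive.toMul v)
        have h2 : Z (ep a) = Z a := hZe a.1 a.2 e.1 e.2
        simp only [h1, h2]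
    · have h1 : ∀ v : V, FF v = FV v + ∑ a, if P a v = v ∧ v ≠ 0 then Z a else 0 := by
        intro v
        by_cases hv : v = 0
        · have h2 : FF v = 0 := if_pos hv
          have h3 : FV v = 0 := by
            rw [hv]
            exact hF1
          rw [h2, h3, zero_add]
          symm
          refine Finset.sum_eq_zero fun a _ => if_neg fun h => h.2 hv
        · rw [hFF v hv]
          refine congrArg₂ (· + ·) rfl (Finset.sum_congr rfl fun a _ => ?_)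
          simp only [hv, ne_eq, not_false_eq_true, and_true]
      rw [Finset.sum_congr rfl fun v _ => h1 v, Finset.sum_add_distrib, Finset.sum_comm]
      have h2 : ∑ v : V, FV v = - ((Nat.card E₀ : ZMod ℓ) * k') := by
        rw [← hFs]
        let : Fintype V₀ := Fintype.ofFinite V₀
        rw [finsum_eq_sum_of_fintype]
        exact Fintype.sum_equiv Additive.toMul _ _ (fun _ => rfl)
      have h3 : ∀ a : I, ∑ v : V, (if P a v = v ∧ v ≠ 0 then Z a else 0) = - Z a := by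
        intro a
        have h4 : ∑ v : V, (if P a v = v then Z a else 0) = 0 := by
          rw [← Finset.sum_filter, Finset.sum_const, nsmul_eq_mul]
          have h5 : (Finset.univ.filter fun v : V => P a v = v).card = ℓ := by
            refine Eq.trans ?_ a.2.1
            rw [← Fintype.card_subtype, ← Nat.card_eq_fintype_card]
            exact Nat.card_congr
              { toFun := fun v => (⟨Additive.toMul v.1, (hfix a v.1).1 v.2⟩ : a.1)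
                invFun := fun w => ⟨Additive.ofMul w.1, (hfix a _).2 w.2⟩
                left_inv := fun _ => rfl
                right_inv := fun _ => rfl }
          rw [h5, ZMod.natCast_self, zero_mul]
        have h6 : ∀ v : V, (if P a v = v ∧ v ≠ 0 then Z a else 0) =
            (if P a v = v then Z a else 0) - (if v = 0 then Z a else 0) := by
          intro v
          by_cases hv : v = 0
          · rw [hv]
            simp
          · simp [hv]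
        rw [Finset.sum_congr rfl fun v _ => h6 v, Finset.sum_sub_distrib, h4,
          Finset.sum_ite_eq' Finset.univ (0 : V), if_pos (Finset.mem_univ _), zero_sub]
      rw [h2, Finset.sum_congr rfl fun a _ => h3 a, Finset.sum_neg_distrib, hcard]
      ring
  have hLX : LX ρ P Z FV NV YV (k' : ZMod ℓ) := by
    refine ⟨?_, ?_, ?_⟩
    · intro φ ψ c d hc hd
      have h1 := hN1 (fun v => φ (Additive.ofMul v)) (fun v => ψ (Additive.ofMul v))
        (fun v w => by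
          change φ (Additive.ofMul (v * w)) = _
          rw [ofMul_mul, map_add]) (fun v w => by
          change ψ (Additive.ofMul (v * w)) = _
          rw [ofMul_mul, map_add])
        (Additive.toMul c) (Additive.toMul d) (hne c hc) (hne d hd)
      have hq : ∀ (c : V) (a : I), P a c = c ↔ ¬ Additive.toMul c ∉ a.1 := fun c a => by
        rw [hfix, not_not]
      have e1 := @sum_sub _ _ _ _ _ (fun a => Additive.toMul c ∉ a) (fun a : I => P a c = c)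
        (fun _ => Classical.propDecidable _) (fun a => Y' a (pr ℓ E₀ a (Additive.toMul c))
          (Additive.toMul d) * (φ (Additive.ofMul (pr ℓ E₀ a (Additive.toMul c))) * ψ d)) (hq c)
      have e2 := @sum_sub _ _ _ _ _ (fun a => Additive.toMul d ∉ a) (fun a : I => P a d = d)
        (fun _ => Classical.propDecidable _) (fun a => Y' a (pr ℓ E₀ a (Additive.toMul d))
          (Additive.toMul c) * (φ c * ψ (Additive.ofMul (pr ℓ E₀ a (Additive.toMul d))))) (hq d)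
      refine Eq.trans (congrArg₂ (· - ·) (congrArg₂ (· - ·) rfl e1.symm) e2.symm) (h1.trans ?_)
      refine (finsum_eq_sum_of_fintype _).trans ?_
      refine Finset.sum_congr rfl fun e _ => ?_
      refine congrArg₂ (· - ·) rfl ?_
      exact sum_sub _ (fun a : I => P a (c + ρ e d) = c + ρ e d) _ (hq (c + ρ e d))
    · intro c d hc hd
      have h1 := hN2 _ _ (hne c hc) (hne d hd)
      rw [hcard]
      refine Eq.trans ?_ h1
      rw [← sum_units ℓ]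
      refine Finset.sum_congr rfl fun t _ => ?_
      rw [← sum_units ℓ]
      refine Finset.sum_congr rfl fun s _ => ?_
      change N' (Additive.toMul ((t : ZMod ℓ) • c)) (Additive.toMul ((s : ZMod ℓ) • d)) = _
      rw [toMul_smul', toMul_smul']
    · intro a κ d hκ hd
      have h1 := hN3 a.1 a.2 (Additive.toMul κ) ((hfix a κ).1 hκ) _ (hne d hd)
      rw [hcard]
      refine Eq.trans ?_ h1
      rw [← sum_units ℓ]
      refine Finset.sum_congr rfl fun t _ => ?_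
      rw [← sum_units ℓ]
      refine Finset.sum_congr rfl fun s _ => ?_
      change Y' a.1 (Additive.toMul ((t : ZMod ℓ) • κ)) (Additive.toMul ((s : ZMod ℓ) • d)) = _
      rw [toMul_smul', toMul_smul']
  exact hGCO ℓ V E₀ I ρ P Z FV FF NV YV k' hLP hF1 hFFd hLF hLX

end core

theorem kre (hKE2 : Ke2Stmt) (hKLP : KlpStmt) (hGCO : GcoStmt) (hPRB : PrbStmt)
    (hMPB : MpbStmt) : KreStmt := by
  intro ℓ _ hl V₀ _ _ E₀ hFq D N z y k hKZ
  obtain ⟨F, N', Z', Y', k', hk, hF1, hFp, hFe, hZe, hFs, hN1, hN2, hN3⟩ :=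
    hKE2 ℓ hl V₀ E₀ hFq D N z y k hKZ
  have hex : ∀ x : Additive V₀, ℓ • x = 0 := fun x => by
    have := hFq.ex (Additive.toMul x)
    apply Additive.toMul.injective
    rw [toMul_nsmul, this]
    rfl
  have hfin : Finite (MulAut V₀) := by
    apply Finite.of_injective (fun σ : MulAut V₀ => (σ : V₀ → V₀))
    exact DFunLike.coe_injective
  have h0 := @core ℓ V₀ _ (AddCommGroup.zmodModule hex) hGCO hKLP hPRB hMPB _ hl _
    (Fintype.ofFinite _) E₀ (Fintype.ofFinite _) (Fintype.ofFinite _) hFq F N' Z' Y' k' hF1 hFp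
    hFe hZe hFs hN1 hN2 hN3
  rw [ZMod.intCast_zmod_eq_zero_iff_dvd] at h0
  obtain ⟨m, rfl⟩ := h0
  rw [hk]
  refine ⟨m, ?_⟩
  push_cast
  ring

end Pool.Agent.PP.SE.H46
end
end -- Pool.Agent.Helper46_ASE.KRE

section -- Pool.Agent.Helper72_ASE.GID

/-!
# Squad ASE, row GID: the identity (G)
-/

open scoped BigOperators

noncomputable section

namespace Pool.Agent.PP.SE.H72

open Pool.Agent.PP Pool.Agent.PP.SO Pool.Agent.PP.SE

theorem sum_units' {ℓ : ℕ} [Fact ℓ.Prime] (g : ZMod ℓ → ZMod ℓ) (h0 : g 0 = 0) :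
    ∑ u : (ZMod ℓ)ˣ, g u = ∑ a, g a := by
  classical
  rw [← Finset.sum_image (s := Finset.univ) (g := fun u : (ZMod ℓ)ˣ => (u : ZMod ℓ)) (f := g)]
  · refine Finset.sum_subset (Finset.subset_univ _) ?_
    intro x _ hx
    by_cases h : x = 0
    · rw [h, h0]
    · exact absurd (Finset.mem_image.2 ⟨Units.mk0 x h, Finset.mem_univ _, rfl⟩) hx
  · intro u _ v _ huv
    exact Units.ext huv

open Classical in
theorem gid (lt1 : SO.LT1Stmt) (gxa : GxaStmt) : GidStmt := by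
  intro ℓ _ V Γ I _ _ _ _ _ _ ρ P Z F FF N Y s₀ h hP hFF hF hH hX c d hc hd φ ψ
  have hT := fun e => lt1 ℓ V Γ ρ FF _ h hF hH e c d hc hd φ ψ
  have hG := fun e => gxa ℓ V Γ I ρ P Z hF.od e c d φ ψ
  obtain ⟨n, hn⟩ : ∃ n : ZMod ℓ, n = Fintype.card Γ := ⟨_, rfl⟩
  obtain ⟨f₀, hf₀⟩ : ∃ f₀ : ZMod ℓ, f₀ = Fintype.card Γ * s₀ + ∑ a, Z a := ⟨_, rfl⟩
  rw [← hf₀] at hF hH ⊢
  simp only [← hf₀] at hT
  rw [← hn] at hf₀
  rw [← hn]
  -- the function `T`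
  obtain ⟨T, hTd⟩ : ∃ T : Γ → V → ZMod ℓ, T = fun e κ => FF κ * (φ κ * ψ (ρ e⁻¹ κ)) -
      ∑ a, Z a * (φ (P a κ) * ψ (ρ e⁻¹ (P a κ))) := ⟨_, rfl⟩
  have hTF : ∀ (e : Γ) (κ : V), F κ * (φ κ * ψ (ρ e⁻¹ κ)) -
      (∑ a, if P a κ = κ then 0 else Z a * (φ (P a κ) * ψ (ρ e⁻¹ (P a κ)))) = T e κ := by
    intro e κ
    rw [hTd]
    by_cases hκ : κ = 0
    · subst hκ
      simp
    · have e1 := hFF.2 κ hκ
      have e2 : ∑ a, Z a * (φ (P a κ) * ψ (ρ e⁻¹ (P a κ))) =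
          (∑ a, if P a κ = κ then 0 else Z a * (φ (P a κ) * ψ (ρ e⁻¹ (P a κ)))) +
          (∑ a, if P a κ = κ then Z a else 0) * (φ κ * ψ (ρ e⁻¹ κ)) := by
        rw [Finset.sum_mul, ← Finset.sum_add_distrib]
        refine Finset.sum_congr rfl fun a _ => ?_
        by_cases ha : P a κ = κ
        · rw [if_pos ha, if_pos ha, ha]
          ring
        · rw [if_neg ha, if_neg ha]
          ring
      show _ = FF κ * (φ κ * ψ (ρ e⁻¹ κ)) - ∑ a, Z a * (φ (P a κ) * ψ (ρ e⁻¹ (P a κ)))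
      rw [e2, e1]
      ring
  have hTs : ∀ (e : Γ) (t : ZMod ℓ) (κ : V), t ≠ 0 → T e (t • κ) = t ^ 2 * T e κ := by
    intro e t κ ht
    rw [hTd]
    show FF (t • κ) * (φ (t • κ) * ψ (ρ e⁻¹ (t • κ))) -
      ∑ a, Z a * (φ (P a (t • κ)) * ψ (ρ e⁻¹ (P a (t • κ)))) = t ^ 2 * (FF κ *
      (φ κ * ψ (ρ e⁻¹ κ)) - ∑ a, Z a * (φ (P a κ) * ψ (ρ e⁻¹ (P a κ))))
    rw [hF.fs t κ ht, mul_sub, Finset.mul_sum, map_smul, map_smul, map_smul, smul_eq_mul,
      smul_eq_mul]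
    congr 1
    · ring
    · refine Finset.sum_congr rfl fun a _ => ?_
      rw [map_smul, map_smul, map_smul, map_smul, smul_eq_mul, smul_eq_mul]
      ring
  -- one pair of units
  have hPs : ∀ (a : I) (t : ZMod ℓ) (v : V), t ≠ 0 → (P a (t • v) = t • v ↔ P a v = v) := by
    intro a t v ht
    rw [map_smul]
    constructor
    · intro h1
      exact smul_right_injective V ht h1
    · intro h1
      rw [h1]
  have key : ∀ t s' : (ZMod ℓ)ˣ, N (t • c) ((t * s') • d) * (φ c * ψ d) -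
      (∑ a, if P a c = c then 0 else Y a (t • P a c) ((t * s') • d) * (φ (P a c) * ψ d)) -
      (∑ a, if P a d = d then 0 else Y a ((t * s') • P a d) (t • c) * (φ c * ψ (P a d))) =
      ∑ e : Γ, (s' : ZMod ℓ)⁻¹ * T e (c + (s' : ZMod ℓ) • ρ e d) := by
    intro t s'
    have ht : (t : ZMod ℓ) ≠ 0 := t.ne_zero
    have hs' : (s' : ZMod ℓ) ≠ 0 := s'.ne_zero
    have hts : (t : ZMod ℓ) * s' ≠ 0 := mul_ne_zero ht hs'
    have e1 := hX.n1 φ ψ ((t : ZMod ℓ) • c) (((t : ZMod ℓ) * s') • d) (smul_ne_zero ht hc)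
      (smul_ne_zero hts hd)
    have e2 : ∀ e : Γ, (F ((t : ZMod ℓ) • c + ρ e (((t : ZMod ℓ) * s') • d)) *
        (φ ((t : ZMod ℓ) • c + ρ e (((t : ZMod ℓ) * s') • d)) *
          ψ (ρ e⁻¹ ((t : ZMod ℓ) • c) + ((t : ZMod ℓ) * s') • d)) -
        ∑ a, if P a ((t : ZMod ℓ) • c + ρ e (((t : ZMod ℓ) * s') • d)) =
          (t : ZMod ℓ) • c + ρ e (((t : ZMod ℓ) * s') • d) then 0 else
          Z a * (φ (P a ((t : ZMod ℓ) • c + ρ e (((t : ZMod ℓ) * s') • d))) *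
            ψ (ρ e⁻¹ (P a ((t : ZMod ℓ) • c + ρ e (((t : ZMod ℓ) * s') • d)))))) =
        (t : ZMod ℓ) ^ 2 * T e (c + (s' : ZMod ℓ) • ρ e d) := by
      intro e
      have e3 : ρ e⁻¹ ((t : ZMod ℓ) • c) + ((t : ZMod ℓ) * s') • d =
          ρ e⁻¹ ((t : ZMod ℓ) • c + ρ e (((t : ZMod ℓ) * s') • d)) := by
        rw [map_add]
        congr 1
        have : ρ e⁻¹ (ρ e (((t : ZMod ℓ) * s') • d)) = (ρ e⁻¹ * ρ e) (((t : ZMod ℓ) * s') • d) :=
          rfl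
        rw [this, ← map_mul, inv_mul_cancel, map_one]
        rfl
      have e4 : (t : ZMod ℓ) • c + ρ e (((t : ZMod ℓ) * s') • d) =
          (t : ZMod ℓ) • (c + (s' : ZMod ℓ) • ρ e d) := by
        rw [map_smul, smul_add, mul_smul]
      rw [e3, hTF, e4, hTs e _ _ ht]
    rw [Finset.sum_congr rfl fun e _ => e2 e, ← Finset.mul_sum] at e1
    have e5 : (∑ a, if P a ((t : ZMod ℓ) • c) = (t : ZMod ℓ) • c then 0 else
        Y a (P a ((t : ZMod ℓ) • c)) (((t : ZMod ℓ) * s') • d) * (φ (P a ((t : ZMod ℓ) • c)) *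
          ψ (((t : ZMod ℓ) * s') • d))) = ((t : ZMod ℓ) ^ 2 * s') *
        (∑ a, if P a c = c then 0 else Y a (t • P a c) ((t * s') • d) * (φ (P a c) * ψ d)) := by
      rw [Finset.mul_sum]
      refine Finset.sum_congr rfl fun a _ => ?_
      by_cases ha : P a c = c
      · rw [if_pos ha, if_pos ((hPs a _ c ht).2 ha), mul_zero]
      · rw [if_neg ha, if_neg (fun h1 => ha ((hPs a _ c ht).1 h1)), map_smul, map_smul, map_smul,
          smul_eq_mul, smul_eq_mul, Units.smul_def t, Units.smul_def (t * s'), Units.val_mul]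
        ring
    have e6 : (∑ a, if P a (((t : ZMod ℓ) * s') • d) = ((t : ZMod ℓ) * s') • d then 0 else
        Y a (P a (((t : ZMod ℓ) * s') • d)) ((t : ZMod ℓ) • c) * (φ ((t : ZMod ℓ) • c) *
          ψ (P a (((t : ZMod ℓ) * s') • d)))) = ((t : ZMod ℓ) ^ 2 * s') *
        (∑ a, if P a d = d then 0 else Y a ((t * s') • P a d) (t • c) * (φ c * ψ (P a d))) := by
      rw [Finset.mul_sum]
      refine Finset.sum_congr rfl fun a _ => ?_
      by_cases ha : P a d = d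
      · rw [if_pos ha, if_pos ((hPs a _ d hts).2 ha), mul_zero]
      · rw [if_neg ha, if_neg (fun h1 => ha ((hPs a _ d hts).1 h1)), map_smul, map_smul, map_smul,
          smul_eq_mul, smul_eq_mul, Units.smul_def t, Units.smul_def (t * s'), Units.val_mul]
        ring
    rw [e5, e6, map_smul, map_smul, smul_eq_mul, smul_eq_mul] at e1
    rw [← Finset.mul_sum, Units.smul_def t c, Units.smul_def (t * s') d, Units.val_mul]
    rw [eq_inv_mul_iff_mul_eq₀ hs']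
    have e7 : (t : ZMod ℓ) ^ 2 ≠ 0 := pow_ne_zero _ ht
    apply mul_left_cancel₀ e7
    rw [← e1]
    simp only [Units.smul_def, Units.val_mul]
    ring
  -- the left side
  have h1 : ∑ t : (ZMod ℓ)ˣ, ∑ s' : (ZMod ℓ)ˣ, N (t • c) ((t * s') • d) * (φ c * ψ d) =
      (n * (F c + F d) - n ^ 2 * s₀) * (φ c * ψ d) := by
    rw [hn, ← hX.n2 c d hc hd, Finset.sum_mul]
    refine Finset.sum_congr rfl fun t _ => ?_
    rw [Finset.sum_mul]
    exact Equiv.sum_comp (Equiv.mulLeft t) (fun s => N (t • c) (s • d) * (φ c * ψ d))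
  have hpp : ∀ (a : I) (v : V), P a (P a v) = P a v := by
    intro a v
    have := congrArg (fun A : Module.End (ZMod ℓ) V => A v) (hP.pp a)
    exact this
  have h2 : ∑ t : (ZMod ℓ)ˣ, ∑ s' : (ZMod ℓ)ˣ,
      (∑ a, if P a c = c then 0 else Y a (t • P a c) ((t * s') • d) * (φ (P a c) * ψ d)) =
      n * (φ (∑ a, Z a • P a c) * ψ d) - n * ((∑ a, if P a c = c then Z a else 0) *
        (φ c * ψ d)) := by
    have e1 : ∑ t : (ZMod ℓ)ˣ, ∑ s' : (ZMod ℓ)ˣ,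
        (∑ a, if P a c = c then 0 else Y a (t • P a c) ((t * s') • d) * (φ (P a c) * ψ d)) =
        ∑ a, ∑ t : (ZMod ℓ)ˣ, ∑ s' : (ZMod ℓ)ˣ, (if P a c = c then 0 else
          Y a (t • P a c) ((t * s') • d) * (φ (P a c) * ψ d)) := by
      rw [Finset.sum_comm' (s := (Finset.univ : Finset I)) (t := fun _ => Finset.univ)
        (t' := Finset.univ) (s' := fun _ => Finset.univ) (by simp)]
      refine Finset.sum_congr rfl fun t _ => ?_
      rw [Finset.sum_comm]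
    rw [e1, map_sum, Finset.sum_mul, Finset.sum_mul, Finset.mul_sum, Finset.mul_sum,
      ← Finset.sum_sub_distrib]
    refine Finset.sum_congr rfl fun a _ => ?_
    by_cases ha : P a c = c
    · simp only [if_pos ha, Finset.sum_const_zero]
      rw [map_smul, ha, smul_eq_mul]
      ring
    · simp only [if_neg ha]
      have e2 : ∑ t : (ZMod ℓ)ˣ, ∑ s' : (ZMod ℓ)ˣ, Y a (t • P a c) ((t * s') • d) *
          (φ (P a c) * ψ d) = (n * Z a) * (φ (P a c) * ψ d) := by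
        rw [hn, ← hX.n3 a (P a c) d (hpp a c) hd, Finset.sum_mul]
        refine Finset.sum_congr rfl fun t _ => ?_
        rw [Finset.sum_mul]
        exact Equiv.sum_comp (Equiv.mulLeft t)
          (fun s => Y a (t • P a c) (s • d) * (φ (P a c) * ψ d))
      rw [e2, map_smul, smul_eq_mul]
      ring
  have h3 : ∑ t : (ZMod ℓ)ˣ, ∑ s' : (ZMod ℓ)ˣ,
      (∑ a, if P a d = d then 0 else Y a ((t * s') • P a d) (t • c) * (φ c * ψ (P a d))) =
      n * (φ c * ψ (∑ a, Z a • P a d)) - n * ((∑ a, if P a d = d then Z a else 0) *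
        (φ c * ψ d)) := by
    have e1 : ∑ t : (ZMod ℓ)ˣ, ∑ s' : (ZMod ℓ)ˣ,
        (∑ a, if P a d = d then 0 else Y a ((t * s') • P a d) (t • c) * (φ c * ψ (P a d))) =
        ∑ a, ∑ t : (ZMod ℓ)ˣ, ∑ s' : (ZMod ℓ)ˣ, (if P a d = d then 0 else
          Y a ((t * s') • P a d) (t • c) * (φ c * ψ (P a d))) := by
      rw [Finset.sum_comm' (s := (Finset.univ : Finset I)) (t := fun _ => Finset.univ)
        (t' := Finset.univ) (s' := fun _ => Finset.univ) (by simp)]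
      refine Finset.sum_congr rfl fun t _ => ?_
      rw [Finset.sum_comm]
    rw [e1, map_sum, Finset.mul_sum, Finset.sum_mul, Finset.mul_sum, Finset.mul_sum,
      ← Finset.sum_sub_distrib]
    refine Finset.sum_congr rfl fun a _ => ?_
    by_cases ha : P a d = d
    · simp only [if_pos ha, Finset.sum_const_zero]
      rw [map_smul, ha, smul_eq_mul]
      ring
    · simp only [if_neg ha]
      have e2 : ∑ t : (ZMod ℓ)ˣ, ∑ s' : (ZMod ℓ)ˣ, Y a ((t * s') • P a d) (t • c) *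
          (φ c * ψ (P a d)) = (n * Z a) * (φ c * ψ (P a d)) := by
        rw [hn, ← hX.n3 a (P a d) c (hpp a d) hc, Finset.sum_mul]
        have e3 : ∀ t : (ZMod ℓ)ˣ, ∑ s' : (ZMod ℓ)ˣ, Y a ((t * s') • P a d) (t • c) *
            (φ c * ψ (P a d)) = ∑ s : (ZMod ℓ)ˣ, Y a (s • P a d) (t • c) *
            (φ c * ψ (P a d)) := fun t => Equiv.sum_comp (Equiv.mulLeft t)
          (fun s => Y a (s • P a d) (t • c) * (φ c * ψ (P a d)))
        rw [Finset.sum_congr rfl fun t _ => e3 t, Finset.sum_comm]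
        refine Finset.sum_congr rfl fun t _ => ?_
        rw [Finset.sum_mul]
      rw [e2, map_smul, smul_eq_mul]
      ring
  -- the right side
  have h4 : ∑ t : (ZMod ℓ)ˣ, ∑ s' : (ZMod ℓ)ˣ,
      ∑ e : Γ, (s' : ZMod ℓ)⁻¹ * T e (c + (s' : ZMod ℓ) • ρ e d) =
      - ∑ e : Γ, ((f₀ - FF c - FF d) * (φ (ρ e d) * ψ (ρ e⁻¹ c) + φ c * ψ d) +
        h c (ρ e d) * φ c * ψ (ρ e⁻¹ c) + h d (ρ e⁻¹ c) * φ (ρ e d) * ψ d +
        ∑ a, Z a * (φ (P a c) * ψ (ρ e⁻¹ (P a (ρ e d))) +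
          φ (P a (ρ e d)) * ψ (ρ e⁻¹ (P a c)))) := by
    have e1 : ∑ s' : (ZMod ℓ)ˣ, ∑ e : Γ, (s' : ZMod ℓ)⁻¹ * T e (c + (s' : ZMod ℓ) • ρ e d) =
        ∑ e : Γ, ((f₀ - FF c - FF d) * (φ (ρ e d) * ψ (ρ e⁻¹ c) + φ c * ψ d) +
        h c (ρ e d) * φ c * ψ (ρ e⁻¹ c) + h d (ρ e⁻¹ c) * φ (ρ e d) * ψ d +
        ∑ a, Z a * (φ (P a c) * ψ (ρ e⁻¹ (P a (ρ e d))) +
          φ (P a (ρ e d)) * ψ (ρ e⁻¹ (P a c)))) := by
      rw [Finset.sum_comm]
      refine Finset.sum_congr rfl fun e _ => ?_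
      rw [sum_units' (fun s => s⁻¹ * T e (c + s • ρ e d)) (by rw [inv_zero, zero_mul])]
      have e2 : ∀ s : ZMod ℓ, s⁻¹ * T e (c + s • ρ e d) =
          s⁻¹ * (FF (c + s • ρ e d) * (φ (c + s • ρ e d) * ψ (ρ e⁻¹ c + s • d))) -
          s⁻¹ * ∑ a, Z a * (φ (P a (c + s • ρ e d)) * ψ (ρ e⁻¹ (P a (c + s • ρ e d)))) := by
        intro s
        rw [hTd]
        have e3 : ρ e⁻¹ c + s • d = ρ e⁻¹ (c + s • ρ e d) := by
          rw [map_add, map_smul]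
          congr 2
          have : ρ e⁻¹ (ρ e d) = (ρ e⁻¹ * ρ e) d := rfl
          rw [this, ← map_mul, inv_mul_cancel, map_one]
          rfl
        rw [e3]
        ring
      rw [Finset.sum_congr rfl fun s _ => e2 s, Finset.sum_sub_distrib, hT e, hG e]
      ring
    rw [Finset.sum_congr rfl fun t _ => e1, Finset.sum_const, Finset.card_univ,
      ZMod.card_units, nsmul_eq_mul, Nat.cast_sub (Fact.out : ℓ.Prime).one_le,
      CharP.cast_eq_zero, Nat.cast_one, zero_sub, neg_one_mul]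
  have h5 : ∑ t : (ZMod ℓ)ˣ, ∑ s' : (ZMod ℓ)ˣ, (N (t • c) ((t * s') • d) * (φ c * ψ d) -
      (∑ a, if P a c = c then 0 else Y a (t • P a c) ((t * s') • d) * (φ (P a c) * ψ d)) -
      (∑ a, if P a d = d then 0 else Y a ((t * s') • P a d) (t • c) * (φ c * ψ (P a d)))) =
      ∑ t : (ZMod ℓ)ˣ, ∑ s' : (ZMod ℓ)ˣ,
        ∑ e : Γ, (s' : ZMod ℓ)⁻¹ * T e (c + (s' : ZMod ℓ) • ρ e d) :=
    Finset.sum_congr rfl fun t _ => Finset.sum_congr rfl fun s' _ => key t s'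
  simp only [Finset.sum_sub_distrib] at h5
  rw [h1, h2, h3, h4] at h5
  have h6 : ∑ e : Γ, ((f₀ - FF c - FF d) * (φ (ρ e d) * ψ (ρ e⁻¹ c) + φ c * ψ d) +
        h c (ρ e d) * φ c * ψ (ρ e⁻¹ c) + h d (ρ e⁻¹ c) * φ (ρ e d) * ψ d +
        ∑ a, Z a * (φ (P a c) * ψ (ρ e⁻¹ (P a (ρ e d))) +
          φ (P a (ρ e d)) * ψ (ρ e⁻¹ (P a c)))) =
      ∑ e : Γ, ((f₀ - FF c - FF d) * φ (ρ e d) * ψ (ρ e⁻¹ c) + h c (ρ e d) * φ c * ψ (ρ e⁻¹ c) +
      h d (ρ e⁻¹ c) * φ (ρ e d) * ψ d) + n * ((f₀ - FF c - FF d) * (φ c * ψ d)) +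
      ∑ e : Γ, ∑ a, Z a * (φ (P a c) * ψ (ρ e⁻¹ (P a (ρ e d))) +
          φ (P a (ρ e d)) * ψ (ρ e⁻¹ (P a c))) := by
    have e1 : n * ((f₀ - FF c - FF d) * (φ c * ψ d)) =
        ∑ _e : Γ, (f₀ - FF c - FF d) * (φ c * ψ d) := by
      rw [Finset.sum_const, Finset.card_univ, nsmul_eq_mul, hn]
    rw [e1, ← Finset.sum_add_distrib, ← Finset.sum_add_distrib]
    refine Finset.sum_congr rfl fun e _ => ?_
    ring
  rw [h6] at h5
  have h7 := hFF.2 c hc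
  have h8 := hFF.2 d hd
  rw [h7, h8] at h5 ⊢
  linear_combination h5 - n * (φ c * ψ d) * hf₀

end Pool.Agent.PP.SE.H72
end
end -- Pool.Agent.Helper72_ASE.GID

section -- Pool.Agent.Helper83_ASE.GDI

/-!
# Squad ASE, row GDI: the diagonal case
-/

open scoped BigOperators

set_option linter.unusedSectionVars false

noncomputable section

namespace Pool.Agent.PP.SE.H83

open Pool.Agent.Helper51_AWC Pool.Agent.Helper79_WRA Pool.Agent.PP Pool.Agent.PP.KF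
open Pool.Agent.PP.K9 Pool.Agent.PP.K9.H97 Pool.Agent.PP.H75 Pool.Agent.PP.T3 Pool.Agent.PP.SO
open Pool.Agent.PP.SD

theorem two_ne {ℓ : ℕ} [hℓ : Fact ℓ.Prime] (h : ℓ ≠ 2) : (2 : ZMod ℓ) ≠ 0 := by
  intro h0
  have h1 : ((2 : ℕ) : ZMod ℓ) = 0 := by exact_mod_cast h0
  rw [ZMod.natCast_eq_zero_iff] at h1
  exact h ((Nat.prime_dvd_prime_iff_eq hℓ.out Nat.prime_two).1 h1)

theorem gdi (gdp : GdpStmt) (ltb : SO.LTbStmt) : GdiStmt := by
  intro ℓ _ V Γ I _ _ _ _ _ _ ρ P Z FF s₀ h hLP hLF hHH hGG a₀ θ hθ hθc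
  obtain ⟨α, β, v₁, v₂, hv₁, hv₂, hP1, hP2, hρ, hs1, hs2, hb⟩ :=
    gdp ℓ V Γ I ρ P Z hLF.od hLF.rk hLP a₀ θ hθ hθc
  obtain ⟨f, hf⟩ : ∃ f : ZMod ℓ, f = Fintype.card Γ * s₀ + ∑ a, Z a := ⟨_, rfl⟩
  rw [← hf] at hLF hHH hGG
  have hind : ∀ a : ZMod ℓ, v₂ ≠ a • v₁ := by
    intro a ha
    apply hv₂
    have h1 : P a₀ v₂ = v₂ := by rw [ha, map_smul, hP1]
    rw [← h1, hP2]
  obtain ⟨-, -, hfun⟩ := ltb ℓ V hLF.rk v₁ v₂ hv₁ hind
  obtain ⟨φ₁, h12, h11⟩ := hfun 0 1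
  obtain ⟨φ₂, h22, h21⟩ := hfun 1 0
  obtain ⟨p, hpd⟩ : ∃ p : I → ZMod ℓ, p = fun a => φ₁ (P a v₁) := ⟨_, rfl⟩
  have hp : ∀ a, (p a = 1 ∨ p a = 0) ∧ P a v₁ = p a • v₁ ∧ P a v₂ = (1 - p a) • v₂ := by
    intro a
    rcases hb a with ⟨h1, h2⟩ | ⟨h1, h2⟩
    · have h3 : p a = 1 := by rw [hpd]; show φ₁ (P a v₁) = 1; rw [h1, h11]
      rw [h3, h1, h2]
      exact ⟨Or.inl rfl, by rw [one_smul], by rw [sub_self, zero_smul]⟩
    · have h3 : p a = 0 := by rw [hpd]; show φ₁ (P a v₁) = 0; rw [h1, map_zero]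
      rw [h3, h1, h2]
      exact ⟨Or.inr rfl, by rw [zero_smul], by rw [sub_zero, one_smul]⟩
  obtain ⟨c, hcd⟩ : ∃ c, c = v₁ + v₂ := ⟨_, rfl⟩
  have hc : c ≠ 0 := by
    intro h0
    apply hind (-1)
    rw [neg_smul, one_smul]
    rw [hcd] at h0
    exact (neg_eq_of_add_eq_zero_right h0).symm
  obtain ⟨Z₁, hZ₁⟩ : ∃ Z₁, Z₁ = ∑ a, Z a * p a := ⟨_, rfl⟩
  obtain ⟨Z₂, hZ₂⟩ : ∃ Z₂, Z₂ = ∑ a, Z a * (1 - p a) := ⟨_, rfl⟩
  have hZ : ∑ a, Z a = Z₁ + Z₂ := by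
    rw [hZ₁, hZ₂, ← Finset.sum_add_distrib]
    refine Finset.sum_congr rfl fun a _ => ?_
    ring
  obtain ⟨n, hn⟩ : ∃ n : ZMod ℓ, n = (Fintype.card Γ : ZMod ℓ) := ⟨_, rfl⟩
  have hn0 : n ≠ 0 := by rw [hn]; exact hLF.cp
  -- the vectors
  have e1 : ∀ e, ρ e c = α e • v₁ + β e • v₂ := by
    intro e
    rw [hcd, map_add, (hρ e).1, (hρ e).2.1]
  have hα : ∀ e, α e * (α e)⁻¹ = 1 := fun e => mul_inv_cancel₀ (hρ e).2.2.1
  have hβ : ∀ e, β e * (β e)⁻¹ = 1 := fun e => mul_inv_cancel₀ (hρ e).2.2.2.1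
  have r1 : ∀ e, ρ e⁻¹ v₁ = (α e)⁻¹ • v₁ := by
    intro e
    rw [(hρ e⁻¹).1, (hρ e).2.2.2.2.1]
  have r2 : ∀ e, ρ e⁻¹ v₂ = (β e)⁻¹ • v₂ := by
    intro e
    rw [(hρ e⁻¹).2.1, (hρ e).2.2.2.2.2]
  have e2 : ∀ e, ρ e⁻¹ c = (α e)⁻¹ • v₁ + (β e)⁻¹ • v₂ := by
    intro e
    rw [hcd, map_add, r1, r2]
  have e3 : ∀ a, P a c = p a • v₁ + (1 - p a) • v₂ := by
    intro a
    rw [hcd, map_add, (hp a).2.1, (hp a).2.2]
  have e4 : ∀ e a, P a (ρ e c) = (α e * p a) • v₁ + (β e * (1 - p a)) • v₂ := by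
    intro e a
    rw [e1, map_add, map_smul, map_smul, (hp a).2.1, (hp a).2.2, smul_smul, smul_smul]
  have e5 : ∀ e a, ρ e⁻¹ (P a (ρ e c)) = p a • v₁ + (1 - p a) • v₂ := by
    intro e a
    rw [e4, map_add, map_smul, map_smul, r1, r2, smul_smul, smul_smul]
    congr 2
    · linear_combination (p a) * hα e
    · linear_combination (1 - p a) * hβ e
  have e6 : ∀ e a, ρ e⁻¹ (P a c) = ((α e)⁻¹ * p a) • v₁ + ((β e)⁻¹ * (1 - p a)) • v₂ := by
    intro e a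
    rw [e3, map_add, map_smul, map_smul, r1, r2, smul_smul, smul_smul, mul_comm (p a),
      mul_comm (1 - p a)]
  have e7 : ∑ a, Z a • P a c = Z₁ • v₁ + Z₂ • v₂ := by
    rw [hZ₁, hZ₂, Finset.sum_smul, Finset.sum_smul, ← Finset.sum_add_distrib]
    refine Finset.sum_congr rfl fun a _ => ?_
    rw [e3, smul_add, smul_smul, smul_smul]
  -- the identity
  have key : ∀ φ ψ : V →ₗ[ZMod ℓ] ZMod ℓ,
      (Z₁ + Z₂) * ((φ v₁ + φ v₂) * (ψ v₁ + ψ v₂)) -
        (Z₁ * φ v₁ + Z₂ * φ v₂) * (ψ v₁ + ψ v₂) -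
        (φ v₁ + φ v₂) * (Z₁ * ψ v₁ + Z₂ * ψ v₂) +
      ((f - FF c - FF c) * (φ v₁ * ψ v₁ + φ v₂ * ψ v₂) +
        (φ v₁ + φ v₂) * (h c v₁ * ψ v₁ + h c v₂ * ψ v₂) +
        (ψ v₁ + ψ v₂) * (h c v₁ * φ v₁ + h c v₂ * φ v₂)) +
      (2 * Z₁ * (φ v₁ * ψ v₁) + 2 * Z₂ * (φ v₂ * ψ v₂)) = 0 := by
    intro φ ψ
    have hG := hGG c c hc hc φ ψ
    have hφc : φ c = φ v₁ + φ v₂ := by rw [hcd, map_add]
    have hψc : ψ c = ψ v₁ + ψ v₂ := by rw [hcd, map_add]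
    rw [e7, hZ, hφc, hψc] at hG
    simp only [e5, e6] at hG
    simp only [e4] at hG
    simp only [e3, e2, e1] at hG
    simp only [map_add, map_smul, smul_eq_mul] at hG
    obtain ⟨x, hx⟩ : ∃ x, x = φ v₁ := ⟨_, rfl⟩
    obtain ⟨y, hy⟩ : ∃ y, y = φ v₂ := ⟨_, rfl⟩
    obtain ⟨x', hx'⟩ : ∃ x', x' = ψ v₁ := ⟨_, rfl⟩
    obtain ⟨y', hy'⟩ : ∃ y', y' = ψ v₂ := ⟨_, rfl⟩
    obtain ⟨g, hg⟩ : ∃ g, g = f - FF c - FF c := ⟨_, rfl⟩
    obtain ⟨h₁, hh₁⟩ : ∃ h₁, h₁ = h c v₁ := ⟨_, rfl⟩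
    obtain ⟨h₂, hh₂⟩ : ∃ h₂, h₂ = h c v₂ := ⟨_, rfl⟩
    rw [← hx, ← hy, ← hx', ← hy', ← hg, ← hh₁, ← hh₂, ← hn] at hG
    rw [← hx, ← hy, ← hx', ← hy', ← hg, ← hh₁, ← hh₂]
    have s2 : ∑ e : Γ, (g * (α e * x + β e * y) * ((α e)⁻¹ * x' + (β e)⁻¹ * y') +
        (α e * h₁ + β e * h₂) * (x + y) * ((α e)⁻¹ * x' + (β e)⁻¹ * y') +
        ((α e)⁻¹ * h₁ + (β e)⁻¹ * h₂) * (α e * x + β e * y) * (x' + y')) =
        n * (g * (x * x' + y * y') + (x + y) * (h₁ * x' + h₂ * y') +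
          (x' + y') * (h₁ * x + h₂ * y)) := by
      obtain ⟨K, hK⟩ : ∃ K, K = g * (x * x' + y * y') + (x + y) * (h₁ * x' + h₂ * y') +
          (x' + y') * (h₁ * x + h₂ * y) := ⟨_, rfl⟩
      obtain ⟨A, hA⟩ : ∃ A, A = g * (x * y') + (x + y) * h₁ * y' + (x' + y') * x * h₂ := ⟨_, rfl⟩
      obtain ⟨B, hB⟩ : ∃ B, B = g * (y * x') + (x + y) * h₂ * x' + (x' + y') * y * h₁ := ⟨_, rfl⟩
      have t1 : ∀ e : Γ, (g * (α e * x + β e * y) * ((α e)⁻¹ * x' + (β e)⁻¹ * y') +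
        (α e * h₁ + β e * h₂) * (x + y) * ((α e)⁻¹ * x' + (β e)⁻¹ * y') +
        ((α e)⁻¹ * h₁ + (β e)⁻¹ * h₂) * (α e * x + β e * y) * (x' + y')) =
        K + (A * (α e * (β e)⁻¹) + B * (β e * (α e)⁻¹)) := by
        intro e
        rw [hK, hA, hB]
        linear_combination (g * x * x' + (x + y) * h₁ * x' + (x' + y') * h₁ * x) * hα e +
          (g * y * y' + (x + y) * h₂ * y' + (x' + y') * h₂ * y) * hβ e
      rw [Finset.sum_congr rfl fun e _ => t1 e, Finset.sum_add_distrib, Finset.sum_add_distrib,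
        ← Finset.mul_sum, ← Finset.mul_sum, hs1, hs2, Finset.sum_const, Finset.card_univ,
        nsmul_eq_mul, ← hn, ← hK]
      ring
    have s3 : ∑ e : Γ, ∑ a, Z a * ((p a * x + (1 - p a) * y) * (p a * x' + (1 - p a) * y') +
        (α e * p a * x + β e * (1 - p a) * y) *
          ((α e)⁻¹ * p a * x' + (β e)⁻¹ * (1 - p a) * y')) =
        n * (2 * Z₁ * (x * x') + 2 * Z₂ * (y * y')) := by
      have t1 : ∀ (e : Γ) (a : I), Z a * ((p a * x + (1 - p a) * y) *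
          (p a * x' + (1 - p a) * y') + (α e * p a * x + β e * (1 - p a) * y) *
          ((α e)⁻¹ * p a * x' + (β e)⁻¹ * (1 - p a) * y')) =
          (Z a * p a) * (2 * (x * x')) + (Z a * (1 - p a)) * (2 * (y * y')) := by
        intro e a
        rcases (hp a).1 with h0 | h0
        · rw [h0]
          linear_combination (Z a * x * x') * hα e
        · rw [h0]
          linear_combination (Z a * y * y') * hβ e
      have t2 : ∀ e : Γ, ∑ a, Z a * ((p a * x + (1 - p a) * y) *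
          (p a * x' + (1 - p a) * y') + (α e * p a * x + β e * (1 - p a) * y) *
          ((α e)⁻¹ * p a * x' + (β e)⁻¹ * (1 - p a) * y')) =
          Z₁ * (2 * (x * x')) + Z₂ * (2 * (y * y')) := by
        intro e
        rw [Finset.sum_congr rfl fun a _ => t1 e a, Finset.sum_add_distrib, ← Finset.sum_mul,
          ← Finset.sum_mul, ← hZ₁, ← hZ₂]
      rw [Finset.sum_congr rfl fun e _ => t2 e, Finset.sum_const, Finset.card_univ,
        nsmul_eq_mul, ← hn]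
      ring
    rw [s2, s3] at hG
    have hG' : n * ((Z₁ + Z₂) * ((x + y) * (x' + y')) -
        (Z₁ * x + Z₂ * y) * (x' + y') - (x + y) * (Z₁ * x' + Z₂ * y') +
      (g * (x * x' + y * y') + (x + y) * (h₁ * x' + h₂ * y') +
        (x' + y') * (h₁ * x + h₂ * y)) +
      (2 * Z₁ * (x * x') + 2 * Z₂ * (y * y'))) = 0 := by
      rw [← hG]
      ring
    exact (mul_eq_zero.1 hG').resolve_left hn0
  have k11 := key φ₁ φ₁
  have k22 := key φ₂ φ₂
  have k12 := key φ₁ φ₂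
  rw [h11, h12] at k11
  rw [h21, h22] at k22
  rw [h11, h12, h21, h22] at k12
  have hcc : h c v₁ + h c v₂ = FF c - f := by
    rw [← (hHH c hc).1, ← map_add, ← hcd]
  have hsum0 : h c v₁ + h c v₂ = 0 := by linear_combination k12
  have hFf : FF c = f := by
    have := hcc
    rw [hsum0] at this
    exact (sub_eq_zero.1 this.symm)
  have h2 := two_ne hLF.od
  have hfin : 2 * (n * s₀) = 0 := by
    have hf' : f = n * s₀ + (Z₁ + Z₂) := by rw [hf, hn, hZ]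
    have hs : 2 * ((Z₁ + Z₂) - f) = 0 := by
      linear_combination k11 + k22 - 2 * hsum0 + 4 * hFf
    rw [hf'] at hs
    linear_combination -hs
  rcases mul_eq_zero.1 hfin with h0 | h0
  · exact absurd h0 h2
  · exact (mul_eq_zero.1 h0).resolve_left hn0

end Pool.Agent.PP.SE.H83
end
end -- Pool.Agent.Helper83_ASE.GDI
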