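import Pool.Agent.Helper12_AWB.B001
import Pool.Agent.Helper12_AWB.B209

/-!
# Merged copies (generated) of the modules

* `Pool.Agent.ASD.Stmts2`
* `Pool.Agent.Helper70_ASO.RTYA`
* `Pool.Agent.Helper70_ASO.RTYB`
* `Pool.Agent.Helper70_ASO.RTY`
* `Pool.Agent.Helper32_ASD.RTZ`
* `Pool.Agent.Helper66_ASE.UNX`
* `Pool.Agent.Helper66_ASE.RTE`
* `Pool.Agent.Helper66_ASE.RTS`
-/

set_option autoImplicit false

section -- Pool.Agent.ASD.Stmts2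

/-!
# Squad ASD, statements 2: the relation with the values at one more kind of types
-/

open scoped BigOperators

noncomputable section

namespace Pool.Agent.PP.SD

open Pool.Agent.Helper51_AWC Pool.Agent.Helper79_WRA Pool.Agent.PP Pool.Agent.PP.KF
open Pool.Agent.PP.K9 Pool.Agent.PP.K9.H97 Pool.Agent.PP.H75 Pool.Agent.PP.T3 Pool.Agent.PP.SO

open Classical in
/-- UNJ: the universal form of the second order relation (`SOR.UniStmt`) with one more property of `Ψ`.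

Proof.  The functions of the proof of `SOR.UniStmt` (`Helper32_SOR/UNI.lean`).  If `r₁`, `r₂` are in `Rl ℓ` on
the two slices, then `mu = 0` for the two slices and `r₁`, `r₂`, so `Ψ Λ = al * bf`. -/
def UnjStmt : Prop := ∀ (ℓ : ℕ) [Fact ℓ.Prime] (e : ℕ) (P : Type) [CommGroup P] [Finite P],
  IsPGroup ℓ P → ∀ (r₁ r₂ : P → ℚ) (p₀ : P), (∀ p p', r₁ (p * p') - r₁ p - r₁ p' ∈ SOR.Rl ℓ) →
  (∀ p p', r₂ (p * p') - r₂ p - r₂ p' ∈ SOR.Rl ℓ) → (∀ p, (ℓ : ℚ) ^ e * r₁ p ∈ SOR.Rl ℓ) →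
  (∀ p, (ℓ : ℚ) ^ e * r₂ p ∈ SOR.Rl ℓ) → (∀ p, r₁ p ∈ SOR.Rl ℓ → r₁ p = 0) →
  (∀ p, r₂ p ∈ SOR.Rl ℓ → r₂ p = 0) →
  ∃ (Φ Ψ : Set (SOR.L2 (ℓ ^ e) P) → ℚ) (K : Set (SOR.L1 (ℓ ^ e) P) → ℚ),
    (∀ Λ, (∀ g ∈ Λ, r₁ g.2.2 ∈ SOR.Rl ℓ) → Φ Λ = 0) ∧
    (∀ Λ, (∀ g ∈ Λ, r₂ g.2.2 ∈ SOR.Rl ℓ) → Φ Λ = 0) ∧
    (∀ Λ, (∀ g ∈ Λ, r₁ g.2.2 ∈ SOR.Rl ℓ) → (∀ g ∈ Λ, r₂ g.2.2 ∈ SOR.Rl ℓ) → Ψ Λ = 0) ∧
    (∀ Λ, (∀ g ∈ Λ, ((1 : Multiplicative (ZMod (ℓ ^ e))), g.2.1, g.2.2) ∈ Λ) →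
      (∀ g ∈ Λ, g.2.1 = 1 → r₁ g.2.2 ∈ SOR.Rl ℓ ∧ r₂ g.2.2 ∈ SOR.Rl ℓ) → Ψ Λ = 0) ∧
    (∀ U, (∀ g ∈ U, r₁ g.2 ∈ SOR.Rl ℓ) → K U = 0) ∧ (∀ U, (∀ g ∈ U, r₂ g.2 ∈ SOR.Rl ℓ) → K U = 0) ∧
    (∀ U p, (∀ p', (Multiplicative.ofAdd (1 : ZMod (ℓ ^ e)), p') ∈ U ↔ p' = p) →
      K U = r₁ p * r₂ p) ∧
    (∀ Λ, (∀ g ∈ Λ, g.1 = 1 ∨ g.2.1 = 1 → r₁ g.2.2 ∈ SOR.Rl ℓ ∧ r₂ g.2.2 ∈ SOR.Rl ℓ) →
      (∃ α : ℚ, ∀ (k l : ℤ) (p : P), (Multiplicative.ofAdd (k : ZMod (ℓ ^ e)),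
        Multiplicative.ofAdd (l : ZMod (ℓ ^ e)), p) ∈ Λ → r₂ p - k * α ∈ SOR.Rl ℓ) →
      (∃ β : ℚ, ∀ (k l : ℤ) (p : P), (Multiplicative.ofAdd (k : ZMod (ℓ ^ e)),
        Multiplicative.ofAdd (l : ZMod (ℓ ^ e)), p) ∈ Λ → r₁ p - l * β ∈ SOR.Rl ℓ) →
      ∃ α β : ℚ, Ψ Λ = α * β ∧ ∀ (k l : ℤ) (p : P), (Multiplicative.ofAdd (k : ZMod (ℓ ^ e)),
        Multiplicative.ofAdd (l : ZMod (ℓ ^ e)), p) ∈ Λ →
        r₂ p - k * α ∈ SOR.Rl ℓ ∧ r₁ p - l * β ∈ SOR.Rl ℓ) ∧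
    ∀ (Γ X : Type) [Group Γ] [Fintype X] (D : SOR.Bd Γ) (Q : Subgroup P) (q₀ : Q),
      (q₀ : P) = p₀ →
      ∀ (i : Γ →* Equiv.Perm X) (q : Q →* Equiv.Perm X) (σ : Equiv.Perm X),
      SOR.Xa ℓ D Q q₀ i q σ → ∀ M : ℕ, (M : ZMod (ℓ ^ e)) = 1 → i ((D.a ^ M) ^ ℓ ^ e) = 1 →
      i ((D.a3 ^ M) ^ ℓ ^ e) = 1 → i ((D.T ^ M) ^ ℓ ^ e) = 1 →
      (∑ x ∈ Finset.univ.filter (· ∈ SOR.Gd q), (r₁ p₀ * r₂ p₀ -
        K (SOR.ty1 (ℓ ^ e) i q (D.T ^ M) x) -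
        12 * Φ (SOR.ty2 (ℓ ^ e) i q (D.a ^ M) (D.a3 ^ M) x) -
        12 * Ψ (SOR.ty2 (ℓ ^ e) i q (D.a ^ M) (D.T ^ M) x))) / Nat.card Q ∈ SOR.Rl ℓ

/-- RTZ: the relation for the triples (`SO.RtyStmt`) with `FY` instead of `FX`.

Proof.  The proof of `SO.RtyStmt` (`Helper70_ASO/RTY.lean`) with `UnjStmt` instead of `SOR.UniStmt`.  The
new property `np`: `τ = {(i, k, p ^ k, q ^ k) : i ≡ i₀ k modulo ℓ}` is free (`k = 0` gives `(1, 1)`); the set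
`{(k, p, q) : (0, k, p, q) ∈ τ}` consists of `(k, 1, 1)` with `ℓ ∣ k`, so `K = 0` there (`x₁ 1 = 0`).  On the
slices `i = 0` and `k = 0` one has `ℓ ∣ k` (`ℓ ∤ i₀`, `n` is divisible by `ℓ`), so `p ^ k = q ^ k = 1`.
`α = x₂(q)/(ℓ i₀)`, `β = x₁(p)/ℓ` show the existence (`x₂(q ^ k) - k x₂(q)` is divisible by `ℓ`, and
`k/(ℓ) - i/(ℓ i₀) = (i₀ k - i)/(ℓ i₀) ∈ Rl ℓ`).  For the numbers `α`, `β` of UNJ: the element `k = 1`, `i = i₀`
gives `β = x₁(p)/ℓ + z₁`, `i₀ α = x₂(q)/ℓ + z₂`, `z₁, z₂ ∈ Rl ℓ`, so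
`α β = x₁(p) x₂(q)/(ℓ ^ 2 i₀) + z/ℓ`, `z ∈ Rl ℓ`. -/
def RtzStmt : Prop := ∀ (ℓ : ℕ) [Fact ℓ.Prime] (V₀ : Type) [CommGroup V₀] [Finite V₀],
  (∀ v : V₀, v ^ ℓ = 1) → ∀ (n : ℕ) (ρ₁ ρ₂ : V₀ → ZMod ℓ), (∃ r, 0 < r ∧ n = ℓ ^ r) → Hm ρ₁ →
  Hm ρ₂ → ∀ (x₁ x₂ : V₀ → ℤ), Lf ρ₁ x₁ → Lf ρ₂ x₂ → ∀ (c d : V₀),
  ∃ (F₁₃ F₁₂ : Set (SO.SS n V₀) → ℚ) (K : Set (Fin n × V₀ × V₀) → ℚ),
    FY ℓ n ρ₁ ρ₂ x₁ x₂ c d F₁₃ F₁₂ K ∧
    ∀ (G : Type) [Group G] [Finite G] (m : ℕ) (ι : V₀ →* G), Function.Injective ι →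
      PE ℓ n m G → Rel ℓ n m ι c d F₁₃ F₁₂

end Pool.Agent.PP.SD
end
end -- Pool.Agent.ASD.Stmts2

section -- Pool.Agent.Helper70_ASO.RTYA

/-! MP_6a3f1a_al, squad ASO, row RTY (helper70), part A: preparations. -/

open scoped BigOperators

noncomputable section

namespace Pool.Agent.PP.SO.H70

open Pool.Agent.Helper51_AWC Pool.Agent.Helper79_WRA Pool.Agent.PP Pool.Agent.PP.KF
open Pool.Agent.PP.K9 Pool.Agent.PP.K9.H97 Pool.Agent.PP.H75 Pool.Agent.PP.T3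
open Pool.Agent.PP.SO

section maps

variable {n : ℕ} {V₀ : Type}

/-- the type as a subset of `L2` -/
def tr2 (s : SS n V₀) : SOR.L2 n (V₀ × V₀) :=
  (Multiplicative.ofAdd ((s.1 : ℕ) : ZMod n), Multiplicative.ofAdd ((s.2.1 : ℕ) : ZMod n), s.2.2)

/-- the type as a subset of `L1` -/
def tr1 (u : Fin n × V₀ × V₀) : SOR.L1 n (V₀ × V₀) :=
  (Multiplicative.ofAdd ((u.1 : ℕ) : ZMod n), u.2)

/-- the `T`-type of an `(a, T)`-type -/
def tT (τ : Set (SS n V₀)) : Set (Fin n × V₀ × V₀) := {u | ∃ s ∈ τ, (s.1 : ℕ) = 0 ∧ s.2 = u}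

theorem fin_zero (i : Fin n) : ((i : ℕ) : ZMod n) = 0 ↔ (i : ℕ) = 0 := by
  rw [ZMod.natCast_eq_zero_iff]
  constructor
  · intro h
    exact Nat.eq_zero_of_dvd_of_lt h i.2
  · intro h
    rw [h]
    exact dvd_zero _

theorem fin_one (hn : 1 < n) (i : Fin n) : ((i : ℕ) : ZMod n) = 1 ↔ (i : ℕ) = 1 := by
  have h1 : (1 : ZMod n) = ((1 : ℕ) : ZMod n) := by rw [Nat.cast_one]
  rw [h1, ZMod.natCast_eq_natCast_iff', Nat.mod_eq_of_lt i.2, Nat.mod_eq_of_lt hn]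

theorem exists_fin (hn : 0 < n) (k : ℤ) : ∃ i : Fin n, ((i : ℕ) : ZMod n) = (k : ZMod n) ∧
    ∀ (G : Type) [Group G] (g : G), g ^ n = 1 → g ^ k = g ^ (i : ℕ) := by
  have hn' : (0 : ℤ) < n := by exact_mod_cast hn
  have h0 : 0 ≤ k % n := Int.emod_nonneg _ hn'.ne'
  have h1 : k % n < n := Int.emod_lt_of_pos _ hn'
  have h2 : ((k % n).toNat : ℤ) = k % n := Int.toNat_of_nonneg h0
  refine ⟨⟨(k % n).toNat, by omega⟩, ?_, ?_⟩
  · change (((k % n).toNat : ℕ) : ZMod n) = (k : ZMod n)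
    rw [← Int.cast_natCast, h2, ZMod.intCast_mod]
  · intro G _ g hg
    change g ^ k = g ^ ((k % n).toNat)
    rw [← zpow_natCast, h2]
    conv_lhs => rw [← Int.emod_add_mul_ediv k n]
    rw [zpow_add, zpow_mul, zpow_natCast g n, hg, one_zpow, mul_one]

end maps

section pe

variable {ℓ n m : ℕ} {G : Type} [Group G] [Finite G]

/-- `x ^ m` is an `ℓ`-element -/
theorem el_pow [Fact ℓ.Prime] (h : PE ℓ n m G) (x : G) : El ℓ (x ^ m) := by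
  have hp : ℓ.Prime := Fact.out
  obtain ⟨b, f, hf, hbf⟩ := Nat.exists_eq_pow_mul_and_not_dvd (orderOf_pos x).ne' ℓ hp.ne_one
  refine ⟨b, ?_⟩
  have h1 : Reg ℓ (x ^ ℓ ^ b) := by
    unfold Reg
    have h2 : orderOf (x ^ ℓ ^ b) ∣ f := by
      rw [orderOf_dvd_iff_pow_eq_one, ← pow_mul, ← hbf]
      exact pow_orderOf_eq_one x
    exact Nat.Coprime.coprime_dvd_left h2 ((Nat.coprime_comm).1 ((hp.coprime_iff_not_dvd).2 hf))
  rw [← pow_mul, mul_comm, pow_mul]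
  exact h.rg _ h1

/-- a number `M = 1` modulo `n` with `x ^ M = x ^ m` -/
theorem exists_M [Fact ℓ.Prime] (h : PE ℓ n m G) : ∃ M : ℕ, (M : ZMod n) = 1 ∧
    (∀ x : G, x ^ M = x ^ m) ∧ ∀ x : G, (x ^ m) ^ n = 1 := by
  have hp : ℓ.Prime := Fact.out
  obtain ⟨r, hr, hn⟩ := h.pw
  have h1 : ∀ k : ℕ, 1 ≤ k → ∀ x : G, x ^ m ^ k = x ^ m := by
    intro k hk
    induction k, hk using Nat.le_induction with
    | base =>
      intro x
      rw [pow_one]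
    | succ k hk ih =>
      intro x
      rw [pow_succ, pow_mul, ih x]
      exact (h.el _ (el_pow h x)).1
  refine ⟨m ^ ℓ ^ (r - 1), ?_, ?_, ?_⟩
  · have h2 : ((ℓ : ℤ)) ∣ (m : ℤ) - 1 := by
      have h3 : (m : ℤ) = (ℓ : ℤ) * ((m / ℓ : ℕ) : ℤ) + ((m % ℓ : ℕ) : ℤ) := by
        exact_mod_cast (Nat.div_add_mod m ℓ).symm
      rw [h3, h.md]
      exact ⟨((m / ℓ : ℕ) : ℤ), by push_cast; ring⟩
    have h3 := dvd_sub_pow_of_dvd_sub h2 (r - 1)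
    rw [one_pow, Nat.sub_add_cancel hr] at h3
    have h4 : (((m : ℤ) ^ ℓ ^ (r - 1) - 1 : ℤ) : ZMod n) = 0 := by
      rw [ZMod.intCast_zmod_eq_zero_iff_dvd, hn]
      exact_mod_cast h3
    push_cast at h4
    push_cast
    exact sub_eq_zero.1 h4
  · exact h1 _ (Nat.one_le_pow _ _ hp.pos)
  · intro x
    exact (h.el _ (el_pow h x)).2

end pe

section uni

variable {V₀ : Type} [CommGroup V₀] {ℓ : ℕ} [Fact ℓ.Prime]

theorem int_mem (z : ℤ) : (z : ℚ) ∈ SOR.Rl ℓ := intCast_mem (SOR.Rl ℓ) z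

theorem div_mem_iff (z : ℤ) : (z : ℚ) / ℓ ∈ SOR.Rl ℓ ↔ (z : ZMod ℓ) = 0 := by
  have hp : ℓ.Prime := Fact.out
  have hp0 : (ℓ : ℚ) ≠ 0 := by exact_mod_cast hp.ne_zero
  rw [ZMod.intCast_zmod_eq_zero_iff_dvd]
  constructor
  · intro h
    have h1 : ¬ ℓ ∣ ((z : ℚ) / ℓ).den := h
    have h2 : ((z : ℚ) / ℓ).den * z = ((z : ℚ) / ℓ).num * ℓ := by
      have h3 := Rat.mul_den_eq_num ((z : ℚ) / ℓ)
      have h4 : (((z : ℚ) / ℓ).den : ℚ) * z = ((z : ℚ) / ℓ).num * ℓ := by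
        rw [← h3]
        field_simp
      exact_mod_cast h4
    have h5 : (ℓ : ℤ) ∣ ((z : ℚ) / ℓ).den * z := by
      rw [h2]
      exact dvd_mul_left _ _
    have hp' : Prime (ℓ : ℤ) := Nat.prime_iff_prime_int.1 hp
    rcases hp'.dvd_or_dvd h5 with h6 | h6
    · exact absurd (by exact_mod_cast h6) h1
    · exact h6
  · rintro ⟨w, hw⟩
    have h1 : (z : ℚ) / ℓ = (w : ℤ) := by
      rw [hw]
      push_cast
      field_simp
    rw [h1]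
    exact int_mem w

variable {ρ : V₀ → ZMod ℓ} {x : V₀ → ℤ}

theorem lf_add (hρ : Hm ρ) (hx : Lf ρ x) (v w : V₀) :
    (x (v * w) : ℚ) / ℓ - x v / ℓ - x w / ℓ ∈ SOR.Rl ℓ := by
  have h1 : (x (v * w) : ℚ) / ℓ - x v / ℓ - x w / ℓ =
      ((x (v * w) - x v - x w : ℤ) : ℚ) / ℓ := by
    push_cast
    ring
  rw [h1, div_mem_iff]
  push_cast
  rw [(hx _).1, (hx _).1, (hx _).1, hρ]
  ring

theorem lf_pow {r : ℕ} (hr : 0 < r) (v : V₀) : (ℓ : ℚ) ^ r * ((x v : ℚ) / ℓ) ∈ SOR.Rl ℓ := by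
  have hp : ℓ.Prime := Fact.out
  have hp0 : (ℓ : ℚ) ≠ 0 := by exact_mod_cast hp.ne_zero
  have h1 : (ℓ : ℚ) ^ r * ((x v : ℚ) / ℓ) = (((ℓ : ℤ) ^ (r - 1) * x v : ℤ) : ℚ) := by
    obtain ⟨k, rfl⟩ : ∃ k, r = k + 1 := ⟨r - 1, by omega⟩
    rw [Nat.add_sub_cancel]
    push_cast
    rw [pow_succ]
    field_simp
  rw [h1]
  exact int_mem _

theorem lf_mem (hx : Lf ρ x) (v : V₀) : (x v : ℚ) / ℓ ∈ SOR.Rl ℓ ↔ ρ v = 0 := by
  rw [div_mem_iff, (hx v).1]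

theorem lf_zero (hx : Lf ρ x) (v : V₀) (h : (x v : ℚ) / ℓ ∈ SOR.Rl ℓ) : (x v : ℚ) / ℓ = 0 := by
  rw [lf_mem hx] at h
  rw [(hx v).2 h]
  simp

end uni

end Pool.Agent.PP.SO.H70
end
end -- Pool.Agent.Helper70_ASO.RTYA

section -- Pool.Agent.Helper70_ASO.RTYB

/-! MP_6a3f1a_al, squad ASO, row RTY (helper70), part B: the types of the triples. -/

open scoped BigOperators

noncomputable section

namespace Pool.Agent.PP.SO.H70

open Pool.Agent.Helper51_AWC Pool.Agent.Helper79_WRA Pool.Agent.PP Pool.Agent.PP.KF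
open Pool.Agent.PP.K9 Pool.Agent.PP.K9.H97 Pool.Agent.PP.H75 Pool.Agent.PP.T3
open Pool.Agent.PP.SO

/-- restriction of the data to a subgroup -/
def rst {Γ : Type} [Group Γ] (D : SOR.Bd Γ) (H : Subgroup Γ) (ha : D.a ∈ H) (hb : D.b ∈ H)
    (hA : D.A ∈ H) (hB : D.B ∈ H) (hT : D.Ts ∈ H) : SOR.Bd H where
  a := ⟨D.a, ha⟩
  b := ⟨D.b, hb⟩
  A := ⟨D.A, hA⟩
  B := ⟨D.B, hB⟩
  Ts := ⟨D.Ts, hT⟩
  r1 := Subtype.ext D.r1
  r2 := Subtype.ext D.r2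
  r3 := Subtype.ext D.r3
  r4 := Subtype.ext D.r4
  r5 := Subtype.ext D.r5
  r6 := Subtype.ext D.r6
  r7 := Subtype.ext D.r7
  r8 := Subtype.ext D.r8
  r9 := Subtype.ext D.r9
  r10 := Subtype.ext D.r10

/-- the two forms of the set of triples -/
def eX {G : Type} [Group G] (g h : G) : XX g h ≃ SOR.Tr G g h where
  toFun w := ⟨w.1, by
    have h1 := w.2
    rw [h1]
    group⟩
  invFun z := ⟨z.1, by
    have h1 := z.2
    rw [h1]
    group⟩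
  left_inv w := rfl
  right_inv z := rfl

section form

variable {G : Type} [Group G] {g₁ g₂ : G} {V₀ : Type} [CommGroup V₀]
  {D : SOR.Bd (Equiv.Perm (SOR.Tr G g₁ g₂))} {m n M : ℕ}

theorem form13 (ha : ∀ z (k : ℤ), ((D.a ^ k) z).1 = (z.1.1, z.1.2.1 * z.1.1 ^ k, z.1.2.2))
    (ha3 : ∀ z (k : ℤ), ((D.a3 ^ k) z).1 =
      (z.1.1, (g₁⁻¹ * z.1.1) ^ k * z.1.2.1, (g₁⁻¹ * z.1.1) ^ k * z.1.2.2))
    (hM : ∀ x : G, x ^ M = x ^ m) (k l : ℤ) (z : SOR.Tr G g₁ g₂) :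
    (((D.a ^ M) ^ k * (D.a3 ^ M) ^ l) z).1 =
      (z.1.1, ((g₁⁻¹ * z.1.1) ^ m) ^ l * z.1.2.1 * (z.1.1 ^ m) ^ k,
        ((g₁⁻¹ * z.1.1) ^ m) ^ l * z.1.2.2) := by
  have e1 : (D.a ^ M) ^ k = D.a ^ ((M : ℤ) * k) := by rw [zpow_mul, zpow_natCast]
  have e2 : (D.a3 ^ M) ^ l = D.a3 ^ ((M : ℤ) * l) := by rw [zpow_mul, zpow_natCast]
  have e3 : ∀ (x : G) (k : ℤ), x ^ ((M : ℤ) * k) = (x ^ m) ^ k := fun x k => by
    rw [zpow_mul, zpow_natCast, hM]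
  rw [Equiv.Perm.mul_apply, e1, ha, e2, ha3, e3, e3]

theorem form12 (ha : ∀ z (k : ℤ), ((D.a ^ k) z).1 = (z.1.1, z.1.2.1 * z.1.1 ^ k, z.1.2.2))
    (hT : ∀ z (k : ℤ), ((D.T ^ k) z).1 = ((z.1.1 * z.1.2.1 * z.1.1⁻¹ * z.1.2.1⁻¹) ^ (-k) * z.1.1 *
        (z.1.1 * z.1.2.1 * z.1.1⁻¹ * z.1.2.1⁻¹) ^ k,
      (z.1.1 * z.1.2.1 * z.1.1⁻¹ * z.1.2.1⁻¹) ^ (-k) * z.1.2.1 *
        (z.1.1 * z.1.2.1 * z.1.1⁻¹ * z.1.2.1⁻¹) ^ k, z.1.2.2))
    (hM : ∀ x : G, x ^ M = x ^ m) (k l : ℤ) (z : SOR.Tr G g₁ g₂) :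
    (((D.a ^ M) ^ k * (D.T ^ M) ^ l) z).1 =
      (((kap z.1.1 z.1.2.1 ^ m) ^ l)⁻¹ * z.1.1 * (kap z.1.1 z.1.2.1 ^ m) ^ l,
        ((kap z.1.1 z.1.2.1 ^ m) ^ l)⁻¹ * (z.1.2.1 * (z.1.1 ^ m) ^ k) *
          (kap z.1.1 z.1.2.1 ^ m) ^ l, z.1.2.2) := by
  have e1 : (D.a ^ M) ^ k = D.a ^ ((M : ℤ) * k) := by rw [zpow_mul, zpow_natCast]
  have e2 : (D.T ^ M) ^ l = D.T ^ ((M : ℤ) * l) := by rw [zpow_mul, zpow_natCast]
  have e3 : ∀ (x : G) (k : ℤ), x ^ ((M : ℤ) * k) = (x ^ m) ^ k := fun x k => by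
    rw [zpow_mul, zpow_natCast, hM]
  have e4 : ∀ (x : G) (k : ℤ), x ^ (-((M : ℤ) * k)) = ((x ^ m) ^ k)⁻¹ := fun x k => by
    rw [zpow_neg, e3]
  rw [Equiv.Perm.mul_apply, e1, ha, e2, hT]
  simp only [e3, e4]
  have e5 : z.1.1 * z.1.2.1 * z.1.1⁻¹ * z.1.2.1⁻¹ = kap z.1.1 z.1.2.1 := rfl
  rw [e5]
  generalize (kap z.1.1 z.1.2.1 ^ m) ^ l = w
  generalize z.1.1 = x
  generalize z.1.2.1 = y
  have e6 : ((w⁻¹ * x * w) ^ m) ^ k = w⁻¹ * (x ^ m) ^ k * w := by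
    have e7 : w⁻¹ * x * w = w⁻¹ * x * (w⁻¹)⁻¹ := by rw [inv_inv]
    rw [e7, conj_pow, conj_zpow, inv_inv]
  rw [e6]
  refine Prod.ext rfl (Prod.ext ?_ rfl)
  change w⁻¹ * y * w * (w⁻¹ * (x ^ m) ^ k * w) = w⁻¹ * (y * (x ^ m) ^ k) * w
  group

variable {P Q : Subgroup V₀} {ι : V₀ →* G}
  {q : P.prod Q →* Equiv.Perm (SOR.Tr G g₁ g₂)}
  {Γ : Type} [Group Γ] {i : Γ →* Equiv.Perm (SOR.Tr G g₁ g₂)} {D' : SOR.Bd Γ}

theorem act_iff (hq : ∀ p z, (q p z).1 = (ι p.1.1 * z.1.1 * (ι p.1.1)⁻¹,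
      ι p.1.1 * z.1.2.1 * (ι p.1.1)⁻¹, ι p.1.1 * z.1.2.2 * (ι p.1.2)⁻¹))
    (z z' : SOR.Tr G g₁ g₂) (p : P.prod Q) (a b c : G) (h : z'.1 = (a, b, c)) :
    z' = q p z ↔ a = ι p.1.1 * z.1.1 * (ι p.1.1)⁻¹ ∧ b = ι p.1.1 * z.1.2.1 * (ι p.1.1)⁻¹ ∧
      c = ι p.1.1 * z.1.2.2 * (ι p.1.2)⁻¹ := by
  constructor
  · intro h1
    rw [h1, hq] at h
    have h2 := Prod.ext_iff.1 h
    have h3 := Prod.ext_iff.1 h2.2
    exact ⟨h2.1.symm, h3.1.symm, h3.2.symm⟩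
  · rintro ⟨h1, h2, h3⟩
    refine Subtype.ext ?_
    rw [h, hq, h1, h2, h3]

theorem img13 (hn : 0 < n) (hq : ∀ p z, (q p z).1 = (ι p.1.1 * z.1.1 * (ι p.1.1)⁻¹,
      ι p.1.1 * z.1.2.1 * (ι p.1.1)⁻¹, ι p.1.1 * z.1.2.2 * (ι p.1.2)⁻¹))
    (hia : i D'.a = D.a) (hia3 : i D'.a3 = D.a3)
    (ha : ∀ z (k : ℤ), ((D.a ^ k) z).1 = (z.1.1, z.1.2.1 * z.1.1 ^ k, z.1.2.2))
    (ha3 : ∀ z (k : ℤ), ((D.a3 ^ k) z).1 =
      (z.1.1, (g₁⁻¹ * z.1.1) ^ k * z.1.2.1, (g₁⁻¹ * z.1.1) ^ k * z.1.2.2))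
    (hM : ∀ x : G, x ^ M = x ^ m) (hmn : ∀ x : G, (x ^ m) ^ n = 1) (z : SOR.Tr G g₁ g₂) :
    tr2 '' (t13 n m ι P Q g₁ z.1.1 z.1.2.1 z.1.2.2) =
      SOR.ty2 n i q (D'.a ^ M) (D'.a3 ^ M) z := by
  have hi : ∀ k l : ℤ, i ((D'.a ^ M) ^ k * (D'.a3 ^ M) ^ l) =
      (D.a ^ M) ^ k * (D.a3 ^ M) ^ l := by
    intro k l
    rw [map_mul, map_zpow, map_zpow, map_pow, map_pow, hia, hia3]
  ext g
  constructor
  · rintro ⟨⟨i', j, p, q'⟩, ⟨hp, hq', h1, h2, h3⟩, rfl⟩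
    refine ⟨(i' : ℕ), (j : ℕ), ⟨(p, q'), ⟨hp, hq'⟩⟩, ?_, ?_⟩
    · unfold tr2
      simp
    · rw [hi, act_iff hq _ _ _ _ _ _ (form13 ha ha3 hM _ _ z)]
      refine ⟨h1, ?_, ?_⟩
      · rw [zpow_natCast, zpow_natCast]
        exact h2
      · rw [zpow_natCast]
        exact h3
  · rintro ⟨k, l, p, rfl, h⟩
    rw [hi, act_iff hq _ _ _ _ _ _ (form13 ha ha3 hM _ _ z)] at h
    obtain ⟨i', hi1, hi2⟩ := exists_fin hn k
    obtain ⟨j, hj1, hj2⟩ := exists_fin hn l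
    refine ⟨(i', j, p.1.1, p.1.2), ⟨p.2.1, p.2.2, h.1, ?_, ?_⟩, ?_⟩
    · rw [← hj2 G _ (hmn _), ← hi2 G _ (hmn _)]
      exact h.2.1
    · rw [← hj2 G _ (hmn _)]
      exact h.2.2
    · unfold tr2
      rw [hi1, hj1]

theorem img12 (hn : 0 < n) (hq : ∀ p z, (q p z).1 = (ι p.1.1 * z.1.1 * (ι p.1.1)⁻¹,
      ι p.1.1 * z.1.2.1 * (ι p.1.1)⁻¹, ι p.1.1 * z.1.2.2 * (ι p.1.2)⁻¹))
    (hia : i D'.a = D.a) (hiT : i D'.T = D.T)
    (ha : ∀ z (k : ℤ), ((D.a ^ k) z).1 = (z.1.1, z.1.2.1 * z.1.1 ^ k, z.1.2.2))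
    (hT : ∀ z (k : ℤ), ((D.T ^ k) z).1 = ((z.1.1 * z.1.2.1 * z.1.1⁻¹ * z.1.2.1⁻¹) ^ (-k) * z.1.1 *
        (z.1.1 * z.1.2.1 * z.1.1⁻¹ * z.1.2.1⁻¹) ^ k,
      (z.1.1 * z.1.2.1 * z.1.1⁻¹ * z.1.2.1⁻¹) ^ (-k) * z.1.2.1 *
        (z.1.1 * z.1.2.1 * z.1.1⁻¹ * z.1.2.1⁻¹) ^ k, z.1.2.2))
    (hM : ∀ x : G, x ^ M = x ^ m) (hmn : ∀ x : G, (x ^ m) ^ n = 1) (z : SOR.Tr G g₁ g₂) :
    tr2 '' (t12 n m ι P Q z.1.1 z.1.2.1 z.1.2.2) =
      SOR.ty2 n i q (D'.a ^ M) (D'.T ^ M) z := by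
  have hi : ∀ k l : ℤ, i ((D'.a ^ M) ^ k * (D'.T ^ M) ^ l) =
      (D.a ^ M) ^ k * (D.T ^ M) ^ l := by
    intro k l
    rw [map_mul, map_zpow, map_zpow, map_pow, map_pow, hia, hiT]
  ext g
  constructor
  · rintro ⟨⟨i', j, p, q'⟩, ⟨hp, hq', h1, h2, h3⟩, rfl⟩
    refine ⟨(i' : ℕ), (j : ℕ), ⟨(p, q'), ⟨hp, hq'⟩⟩, ?_, ?_⟩
    · unfold tr2
      simp
    · rw [hi, act_iff hq _ _ _ _ _ _ (form12 ha hT hM _ _ z), zpow_natCast, zpow_natCast]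
      exact ⟨h1, h2, h3⟩
  · rintro ⟨k, l, p, rfl, h⟩
    rw [hi, act_iff hq _ _ _ _ _ _ (form12 ha hT hM _ _ z)] at h
    obtain ⟨i', hi1, hi2⟩ := exists_fin hn k
    obtain ⟨j, hj1, hj2⟩ := exists_fin hn l
    rw [hj2 G _ (hmn _), hi2 G _ (hmn _)] at h
    refine ⟨(i', j, p.1.1, p.1.2), ⟨p.2.1, p.2.2, h.1, h.2.1, h.2.2⟩, ?_⟩
    unfold tr2
    rw [hi1, hj1]

theorem imgT (hn : 0 < n) (hq : ∀ p z, (q p z).1 = (ι p.1.1 * z.1.1 * (ι p.1.1)⁻¹,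
      ι p.1.1 * z.1.2.1 * (ι p.1.1)⁻¹, ι p.1.1 * z.1.2.2 * (ι p.1.2)⁻¹))
    (hia : i D'.a = D.a) (hiT : i D'.T = D.T)
    (ha : ∀ z (k : ℤ), ((D.a ^ k) z).1 = (z.1.1, z.1.2.1 * z.1.1 ^ k, z.1.2.2))
    (hT : ∀ z (k : ℤ), ((D.T ^ k) z).1 = ((z.1.1 * z.1.2.1 * z.1.1⁻¹ * z.1.2.1⁻¹) ^ (-k) * z.1.1 *
        (z.1.1 * z.1.2.1 * z.1.1⁻¹ * z.1.2.1⁻¹) ^ k,
      (z.1.1 * z.1.2.1 * z.1.1⁻¹ * z.1.2.1⁻¹) ^ (-k) * z.1.2.1 *
        (z.1.1 * z.1.2.1 * z.1.1⁻¹ * z.1.2.1⁻¹) ^ k, z.1.2.2))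
    (hM : ∀ x : G, x ^ M = x ^ m) (hmn : ∀ x : G, (x ^ m) ^ n = 1) (z : SOR.Tr G g₁ g₂) :
    tr1 '' (tT (t12 n m ι P Q z.1.1 z.1.2.1 z.1.2.2)) =
      SOR.ty1 n i q (D'.T ^ M) z := by
  have h2 := img12 hn hq hia hiT ha hT hM hmn z (P := P) (Q := Q) (i := i) (D' := D')
  ext g
  constructor
  · rintro ⟨u, ⟨s, hs, hs0, rfl⟩, rfl⟩
    have h3 : tr2 s ∈ SOR.ty2 n i q (D'.a ^ M) (D'.T ^ M) z := by
      rw [← h2]
      exact ⟨s, hs, rfl⟩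
    obtain ⟨k, l, p, he, h4⟩ := h3
    have h5 := Prod.ext_iff.1 he
    have h6 := Prod.ext_iff.1 h5.2
    have hk : (k : ZMod n) = 0 := by
      have h7 : Multiplicative.ofAdd ((s.1 : ℕ) : ZMod n) = Multiplicative.ofAdd (k : ZMod n) :=
        h5.1
      rw [hs0] at h7
      have h8 := Multiplicative.ofAdd.injective h7
      rw [← h8, Nat.cast_zero]
    refine ⟨l, p, ?_, ?_⟩
    · exact Prod.ext h6.1 h6.2
    · rw [map_mul] at h4
      have h9 : i ((D'.a ^ M) ^ k) = 1 := by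
        obtain ⟨w, hw⟩ := (ZMod.intCast_zmod_eq_zero_iff_dvd k n).1 hk
        rw [hw, map_zpow, map_pow, hia]
        refine Equiv.ext fun z' => Subtype.ext ?_
        have e1 : (D.a ^ M) ^ ((n : ℤ) * w) = D.a ^ ((M : ℤ) * ((n : ℤ) * w)) := by
          rw [zpow_mul D.a, zpow_natCast]
        rw [e1, ha, zpow_mul, zpow_natCast, hM, zpow_mul, zpow_natCast, hmn, one_zpow, mul_one]
        rfl
      rw [h9, one_mul] at h4
      exact h4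
  · rintro ⟨l, p, rfl, h⟩
    have h3 : ((Multiplicative.ofAdd ((0 : ℤ) : ZMod n), Multiplicative.ofAdd (l : ZMod n),
        (p : V₀ × V₀)) : SOR.L2 n (V₀ × V₀)) ∈ SOR.ty2 n i q (D'.a ^ M) (D'.T ^ M) z :=
      ⟨0, l, p, rfl, by rw [zpow_zero, one_mul]; exact h⟩
    rw [← h2] at h3
    obtain ⟨s, hs, hse⟩ := h3
    have h5 := Prod.ext_iff.1 hse
    have h6 := Prod.ext_iff.1 h5.2
    refine ⟨s.2, ⟨s, hs, ?_, rfl⟩, ?_⟩
    · rw [← fin_zero]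
      have h7 : Multiplicative.ofAdd ((s.1 : ℕ) : ZMod n) =
        Multiplicative.ofAdd ((0 : ℤ) : ZMod n) := h5.1
      have h8 := Multiplicative.ofAdd.injective h7
      rw [h8, Int.cast_zero]
    · exact Prod.ext h6.1 h6.2

theorem free13 (hn : 0 < n) (hq : ∀ p z, (q p z).1 = (ι p.1.1 * z.1.1 * (ι p.1.1)⁻¹,
      ι p.1.1 * z.1.2.1 * (ι p.1.1)⁻¹, ι p.1.1 * z.1.2.2 * (ι p.1.2)⁻¹))
    (z : SOR.Tr G g₁ g₂) :
    Fre (t13 n m ι P Q g₁ z.1.1 z.1.2.1 z.1.2.2) ↔ z ∈ SOR.Gd q := by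
  constructor
  · intro h p hp
    have h1 := (act_iff hq z z p _ _ _ rfl).1 hp.symm
    have h2 := h (⟨0, hn⟩, ⟨0, hn⟩, p.1.1, p.1.2) ⟨p.2.1, p.2.2, h1.1, by
      change ((g₁⁻¹ * z.1.1) ^ m) ^ 0 * z.1.2.1 * (z.1.1 ^ m) ^ 0 = _
      rw [pow_zero, pow_zero, one_mul, mul_one]
      exact h1.2.1, by
      change ((g₁⁻¹ * z.1.1) ^ m) ^ 0 * z.1.2.2 = _
      rw [pow_zero, one_mul]
      exact h1.2.2⟩ rfl rfl
    exact Subtype.ext (Prod.ext h2.1 h2.2)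
  · rintro h ⟨i', j, p, q'⟩ ⟨hp, hq', h1, h2, h3⟩ hi0 hj0
    simp only at hi0 hj0 h1 h2 h3 hp hq'
    rw [hi0, hj0, pow_zero, pow_zero, one_mul, mul_one] at h2
    rw [hj0, pow_zero, one_mul] at h3
    have h4 := h ⟨(p, q'), ⟨hp, hq'⟩⟩ ((act_iff hq z z ⟨(p, q'), ⟨hp, hq'⟩⟩ _ _ _ rfl).2
      ⟨h1, h2, h3⟩).symm
    have h5 := congrArg Subtype.val h4
    have h6 := Prod.ext_iff.1 h5
    exact ⟨h6.1, h6.2⟩

theorem free12 (hn : 0 < n) (hq : ∀ p z, (q p z).1 = (ι p.1.1 * z.1.1 * (ι p.1.1)⁻¹,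
      ι p.1.1 * z.1.2.1 * (ι p.1.1)⁻¹, ι p.1.1 * z.1.2.2 * (ι p.1.2)⁻¹))
    (z : SOR.Tr G g₁ g₂) :
    Fre (t12 n m ι P Q z.1.1 z.1.2.1 z.1.2.2) ↔ z ∈ SOR.Gd q := by
  constructor
  · intro h p hp
    have h1 := (act_iff hq z z p _ _ _ rfl).1 hp.symm
    have h2 := h (⟨0, hn⟩, ⟨0, hn⟩, p.1.1, p.1.2) ⟨p.2.1, p.2.2, by
      change ((kap z.1.1 z.1.2.1 ^ m) ^ 0)⁻¹ * z.1.1 * (kap z.1.1 z.1.2.1 ^ m) ^ 0 = _
      rw [pow_zero, inv_one, one_mul, mul_one]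
      exact h1.1, by
      change ((kap z.1.1 z.1.2.1 ^ m) ^ 0)⁻¹ * (z.1.2.1 * (z.1.1 ^ m) ^ 0) *
        (kap z.1.1 z.1.2.1 ^ m) ^ 0 = _
      rw [pow_zero, pow_zero, inv_one, one_mul, mul_one, mul_one]
      exact h1.2.1, h1.2.2⟩ rfl rfl
    exact Subtype.ext (Prod.ext h2.1 h2.2)
  · rintro h ⟨i', j, p, q'⟩ ⟨hp, hq', h1, h2, h3⟩ hi0 hj0
    simp only at hi0 hj0 h1 h2 h3 hp hq'
    rw [hj0, pow_zero, inv_one, one_mul, mul_one] at h1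
    rw [hi0, hj0, pow_zero, pow_zero, inv_one, one_mul, mul_one, mul_one] at h2
    have h4 := h ⟨(p, q'), ⟨hp, hq'⟩⟩ ((act_iff hq z z ⟨(p, q'), ⟨hp, hq'⟩⟩ _ _ _ rfl).2
      ⟨h1, h2, h3⟩).symm
    have h5 := congrArg Subtype.val h4
    have h6 := Prod.ext_iff.1 h5
    exact ⟨h6.1, h6.2⟩

end form

end Pool.Agent.PP.SO.H70
end
end -- Pool.Agent.Helper70_ASO.RTYB

section -- Pool.Agent.Helper70_ASO.RTY

/-! MP_6a3f1a_al, squad ASO, row RTY (helper70): the relation for the triples. -/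

open scoped BigOperators

noncomputable section

namespace Pool.Agent.PP.SO.H70

open Pool.Agent.Helper51_AWC Pool.Agent.Helper79_WRA Pool.Agent.PP Pool.Agent.PP.KF
open Pool.Agent.PP.K9 Pool.Agent.PP.K9.H97 Pool.Agent.PP.H75 Pool.Agent.PP.T3
open Pool.Agent.PP.SO

theorem rty (hUni : SOR.UniStmt) (hBrx : SOR.BrxStmt) : RtyStmt := by
  classical
  intro ℓ _ V₀ _ _ hexp n ρ₁ ρ₂ hn hρ₁ hρ₂ x₁ x₂ hx₁ hx₂ c d
  obtain ⟨r, hr, hnr⟩ := hn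
  have hp : ℓ.Prime := Fact.out
  have hp0 : (ℓ : ℚ) ≠ 0 := by exact_mod_cast hp.ne_zero
  have hn1 : 1 < n := by
    rw [hnr]
    exact Nat.one_lt_pow hr.ne' hp.one_lt
  have hpg : IsPGroup ℓ (V₀ × V₀) := fun v => ⟨1, by
    rw [pow_one]
    exact Prod.ext (hexp _) (hexp _)⟩
  have hU := hUni ℓ r (V₀ × V₀) hpg
    (fun p => (x₁ p.1 : ℚ) / ℓ) (fun p => (x₂ p.2 : ℚ) / ℓ) (c⁻¹, d⁻¹)
    (fun p p' => lf_add hρ₁ hx₁ _ _) (fun p p' => lf_add hρ₂ hx₂ _ _)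
    (fun p => lf_pow hr _) (fun p => lf_pow hr _) (fun p h => lf_zero hx₁ _ h)
    (fun p h => lf_zero hx₂ _ h)
  rw [← hnr] at hU
  obtain ⟨Φ, Ψ, K', hΦ1, hΦ2, hΨ1, hΨ2, hK1, hK2, hK3, hrel⟩ := hU
  have hz : ∀ v, ρ₁ v = 0 → (x₁ v : ℚ) / ℓ ∈ SOR.Rl ℓ := fun v h => (lf_mem hx₁ v).2 h
  have hz' : ∀ v, ρ₂ v = 0 → (x₂ v : ℚ) / ℓ ∈ SOR.Rl ℓ := fun v h => (lf_mem hx₂ v).2 h
  refine ⟨fun τ => if Fre τ then -12 * Φ (tr2 '' τ) else 0,
    fun τ => if Fre τ then (x₁ c⁻¹ * x₂ d⁻¹ : ℤ) / (ℓ : ℚ) ^ 2 - K' (tr1 '' (tT τ)) -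
      12 * Ψ (tr2 '' τ) else 0,
    fun U => K' (tr1 '' U), ?_, ?_⟩
  · refine ⟨?_, ?_, ?_, ?_, ?_, ?_⟩
    · intro τ h
      exact ⟨if_neg h, if_neg h⟩
    · intro τ h
      change (if Fre τ then -12 * Φ (tr2 '' τ) else 0) = 0
      have h1 : Φ (tr2 '' τ) = 0 := by
        rcases h with h | h
        · refine hΦ1 _ ?_
          rintro _ ⟨s, hs, rfl⟩
          exact hz _ (h s hs)
        · refine hΦ2 _ ?_
          rintro _ ⟨s, hs, rfl⟩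
          exact hz' _ (h s hs)
      rw [h1, mul_zero, ite_self]
    · intro τ hf h
      change (if Fre τ then (x₁ c⁻¹ * x₂ d⁻¹ : ℤ) / (ℓ : ℚ) ^ 2 - K' (tr1 '' (tT τ)) -
        12 * Ψ (tr2 '' τ) else 0) = _
      have h1 : Ψ (tr2 '' τ) = 0 := by
        refine hΨ1 _ ?_ ?_
        · rintro _ ⟨s, hs, rfl⟩
          exact hz _ (h s hs).1
        · rintro _ ⟨s, hs, rfl⟩
          exact hz' _ (h s hs).2
      have h2 : K' (tr1 '' (tT τ)) = 0 := by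
        refine hK1 _ ?_
        rintro _ ⟨u, ⟨s, hs, _, rfl⟩, rfl⟩
        exact hz _ (h s hs).1
      rw [if_pos hf, h1, h2]
      ring
    · intro τ hf h1 h2
      change (if Fre τ then (x₁ c⁻¹ * x₂ d⁻¹ : ℤ) / (ℓ : ℚ) ^ 2 - K' (tr1 '' (tT τ)) -
        12 * Ψ (tr2 '' τ) else 0) = _
      have h3 : Ψ (tr2 '' τ) = 0 := by
        refine hΨ2 _ ?_ ?_
        · rintro _ ⟨s, hs, rfl⟩
          obtain ⟨s', hs', h0, he⟩ := h1 s hs
          refine ⟨s', hs', ?_⟩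
          unfold tr2
          rw [h0, he, Nat.cast_zero]
          rfl
        · rintro _ ⟨s, hs, rfl⟩ h0
          have h4 : ((s.2.1 : ℕ) : ZMod n) = 0 := Multiplicative.ofAdd.injective h0
          have h5 := h2 s hs ((fin_zero _).1 h4)
          exact ⟨hz _ h5.1, hz' _ h5.2⟩
      have h4 : tT τ = {u | ∃ s ∈ τ, s.2 = u} := by
        ext u
        constructor
        · rintro ⟨s, hs, _, he⟩
          exact ⟨s, hs, he⟩
        · rintro ⟨s, hs, he⟩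
          obtain ⟨s', hs', h0, he'⟩ := h1 s hs
          exact ⟨s', hs', h0, by rw [he', he]⟩
      rw [if_pos hf, h3, h4]
      ring
    · intro U h
      change K' (tr1 '' U) = 0
      rcases h with h | h
      · refine hK1 _ ?_
        rintro _ ⟨u, hu, rfl⟩
        exact hz _ (h u hu)
      · refine hK2 _ ?_
        rintro _ ⟨u, hu, rfl⟩
        exact hz' _ (h u hu)
    · intro U κ₁ κ₂ h1 h2
      change K' (tr1 '' U) = _
      rw [hK3 (tr1 '' U) (κ₁, κ₂) ?_]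
      · push_cast
        field_simp
      · intro p'
        constructor
        · rintro ⟨u, hu, he⟩
          have h3 := Prod.ext_iff.1 he
          have h4 : ((u.1 : ℕ) : ZMod n) = 1 := Multiplicative.ofAdd.injective h3.1
          have h5 := h2 u hu ((fin_one hn1 _).1 h4)
          have h6 : u.2 = p' := h3.2
          rw [← h6, h5]
        · rintro rfl
          obtain ⟨u, hu, hu1⟩ := h1
          refine ⟨u, hu, ?_⟩
          unfold tr1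
          rw [h2 u hu hu1, (fin_one hn1 _).2 hu1]
  · intro G _ _ m ι hι hPE P Q hc hd s t hs ht hPs hQt
    obtain ⟨D, _, _, _, _, hTs, ha, ha3, hT, hV⟩ := hBrx G (ι c * s) (ι d * t)
    have hn0 : 0 < n := by omega
    obtain ⟨M, hM1, hM, hMn⟩ := exists_M hPE
    -- centralisers
    have hcomm : ∀ v w : V₀, ι v * ι w = ι w * ι v := fun v w => by
      rw [← map_mul, ← map_mul, mul_comm]
    have hP1 : ∀ p ∈ P, ι p ∈ Subgroup.centralizer ({ι c * s} : Set G) := by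
      intro p hp
      rw [Subgroup.mem_centralizer_iff]
      intro h hh
      rw [Set.mem_singleton_iff] at hh
      rw [hh, mul_assoc, ← hPs p hp, ← mul_assoc, hcomm c p, mul_assoc]
    have hQ1 : ∀ p ∈ Q, ι p ∈ Subgroup.centralizer ({ι d * t} : Set G) := by
      intro p hp
      rw [Subgroup.mem_centralizer_iff]
      intro h hh
      rw [Set.mem_singleton_iff] at hh
      rw [hh, mul_assoc, ← hQt p hp, ← mul_assoc, hcomm d p, mul_assoc]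
    have hs1 : s⁻¹ ∈ Subgroup.centralizer ({ι c * s} : Set G) := by
      refine Subgroup.inv_mem _ ?_
      rw [Subgroup.mem_centralizer_iff]
      intro h hh
      rw [Set.mem_singleton_iff] at hh
      rw [hh, ← mul_assoc, ← hPs c hc]
    have ht1 : t⁻¹ ∈ Subgroup.centralizer ({ι d * t} : Set G) := by
      refine Subgroup.inv_mem _ ?_
      rw [Subgroup.mem_centralizer_iff]
      intro h hh
      rw [Set.mem_singleton_iff] at hh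
      rw [hh, ← mul_assoc, ← hQt d hd]
    obtain ⟨q', hq', hqa, hqb, hqA, hqB, hqT⟩ :=
      hV (Subgroup.centralizer ({ι c * s} : Set G)) (Subgroup.centralizer ({ι d * t} : Set G))
        (fun v hv => (Subgroup.mem_centralizer_iff.1 hv _ rfl).symm)
        (fun v hv => (Subgroup.mem_centralizer_iff.1 hv _ rfl).symm)
    obtain ⟨θ, hθ⟩ : ∃ θ : P.prod Q →* (Subgroup.centralizer ({ι c * s} : Set G)) ×
        (Subgroup.centralizer ({ι d * t} : Set G)),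
        ∀ p, θ p = (⟨ι p.1.1, hP1 _ p.2.1⟩, ⟨ι p.1.2, hQ1 _ p.2.2⟩) :=
      ⟨{ toFun := fun p => (⟨ι p.1.1, hP1 _ p.2.1⟩, ⟨ι p.1.2, hQ1 _ p.2.2⟩)
         map_one' := by
          refine Prod.ext (Subtype.ext ?_) (Subtype.ext ?_)
          · exact map_one ι
          · exact map_one ι
         map_mul' := fun a b => by
          refine Prod.ext (Subtype.ext ?_) (Subtype.ext ?_)
          · exact map_mul ι _ _
          · exact map_mul ι _ _ }, fun p => rfl⟩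
    obtain ⟨σ, hσ⟩ : ∃ σ : Equiv.Perm (SOR.Tr G (ι c * s) (ι d * t)),
      σ = q' (⟨s⁻¹, hs1⟩, ⟨t⁻¹, ht1⟩) := ⟨_, rfl⟩
    have hq : ∀ (p : P.prod Q) z, ((q'.comp θ) p z).1 = (ι p.1.1 * z.1.1 * (ι p.1.1)⁻¹,
        ι p.1.1 * z.1.2.1 * (ι p.1.1)⁻¹, ι p.1.1 * z.1.2.2 * (ι p.1.2)⁻¹) := by
      intro p z
      rw [MonoidHom.comp_apply, hq', hθ]
    have hmem : ∀ g : Equiv.Perm (SOR.Tr G (ι c * s) (ι d * t)),
        (∀ p z, g (q' p z) = q' p (g z)) →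
        g ∈ Subgroup.centralizer (Set.range q' : Set (Equiv.Perm _)) := by
      intro g hg
      rw [Subgroup.mem_centralizer_iff]
      rintro _ ⟨p, rfl⟩
      refine Equiv.ext fun z => ?_
      exact (hg p z).symm
    obtain ⟨D', hD'⟩ : ∃ D' : SOR.Bd (Subgroup.centralizer (Set.range q' : Set (Equiv.Perm _))),
        D' = rst D _ (hmem _ hqa) (hmem _ hqb) (hmem _ hqA) (hmem _ hqB) (hmem _ hqT) :=
      ⟨_, rfl⟩
    obtain ⟨i, hi⟩ : ∃ i : Subgroup.centralizer (Set.range q' : Set (Equiv.Perm _)) →*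
        Equiv.Perm (SOR.Tr G (ι c * s) (ι d * t)), i = Subgroup.subtype _ := ⟨_, rfl⟩
    have hia : i D'.a = D.a := by rw [hi, hD']; rfl
    have hia3 : i D'.a3 = D.a3 := by
      rw [hi, hD']
      rfl
    have hiT : i D'.T = D.T := by
      rw [hi, hD']
      unfold SOR.Bd.T
      rw [map_pow, map_mul]
      rfl
    have hiTs : i D'.Ts = D.Ts := by rw [hi, hD']; rfl
    have hicomm : ∀ g v x, i g (q' v x) = q' v (i g x) := by
      intro g v x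
      have h1 := Subgroup.mem_centralizer_iff.1 g.2 (q' v) ⟨v, rfl⟩
      have h2 := Equiv.ext_iff.1 h1 x
      rw [hi]
      exact h2.symm
    have hXa : SOR.Xa ℓ D' (P.prod Q) ⟨(c⁻¹, d⁻¹), ⟨P.inv_mem hc, Q.inv_mem hd⟩⟩ i
        (q'.comp θ) σ := by
      refine ⟨?_, ?_, ?_, ?_, ?_⟩
      · intro g p x
        exact hicomm g (θ p) x
      · intro g x
        rw [hσ]
        exact hicomm g _ x
      · intro p x
        rw [hσ, MonoidHom.comp_apply, ← Equiv.Perm.mul_apply, ← Equiv.Perm.mul_apply, ← map_mul,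
          ← map_mul]
        congr 2
        rw [hθ]
        have e1 : Commute (ι p.1.1) s⁻¹ := Commute.inv_right (hPs _ p.2.1)
        have e2 : Commute (ι p.1.2) t⁻¹ := Commute.inv_right (hQt _ p.2.2)
        refine Prod.ext (Subtype.ext ?_) (Subtype.ext ?_)
        · exact e1
        · exact e2
      · have h1 : orderOf σ ∣ orderOf s * orderOf t := by
          rw [orderOf_dvd_iff_pow_eq_one, hσ, ← map_pow]
          have h2 : ((⟨s⁻¹, hs1⟩, ⟨t⁻¹, ht1⟩) : (Subgroup.centralizer ({ι c * s} : Set G)) ×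
              (Subgroup.centralizer ({ι d * t} : Set G))) ^ (orderOf s * orderOf t) = 1 := by
            refine Prod.ext (Subtype.ext ?_) (Subtype.ext ?_)
            · change (s⁻¹) ^ (orderOf s * orderOf t) = 1
              rw [inv_pow, pow_mul, pow_orderOf_eq_one, one_pow, inv_one]
            · change (t⁻¹) ^ (orderOf s * orderOf t) = 1
              rw [inv_pow, mul_comm, pow_mul, pow_orderOf_eq_one, one_pow, inv_one]
          rw [h2, map_one]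
        exact Nat.Coprime.coprime_dvd_left h1 (Nat.Coprime.mul_left hs ht)
      · rw [hiTs, hσ]
        refine Equiv.ext fun z => Subtype.ext ?_
        rw [hTs, Equiv.Perm.mul_apply, hq, hq']
        have e1 : ι c * s = s * ι c := hPs c hc
        have e2 : ι d * t = t * ι d := hQt d hd
        have e3 : ι c⁻¹ = (ι c)⁻¹ := map_inv ι c
        have e4 : ι d⁻¹ = (ι d)⁻¹ := map_inv ι d
        simp only [e1, e2, e3, e4]
        refine Prod.ext ?_ (Prod.ext ?_ ?_)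
        · simp only
          group
        · simp only
          group
        · simp only
          group
    have hone : ∀ (x : G) (k : ℤ), x ^ ((M : ℤ) * ((n : ℤ) * k)) = 1 := by
      intro x k
      rw [zpow_mul, zpow_natCast, hM, zpow_mul, zpow_natCast, hMn, one_zpow]
    have h1a : i ((D'.a ^ M) ^ n) = 1 := by
      rw [map_pow, map_pow, hia]
      refine Equiv.ext fun z => Subtype.ext ?_
      have e : (D.a ^ M) ^ n = D.a ^ ((M : ℤ) * ((n : ℤ) * 1)) := by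
        rw [mul_one, zpow_mul, zpow_natCast, zpow_natCast]
      rw [e, ha, hone, mul_one]
      rfl
    have h1a3 : i ((D'.a3 ^ M) ^ n) = 1 := by
      rw [map_pow, map_pow, hia3]
      refine Equiv.ext fun z => Subtype.ext ?_
      have e : (D.a3 ^ M) ^ n = D.a3 ^ ((M : ℤ) * ((n : ℤ) * 1)) := by
        rw [mul_one, zpow_mul, zpow_natCast, zpow_natCast]
      rw [e, ha3, hone, one_mul, one_mul]
      rfl
    have h1T : i ((D'.T ^ M) ^ n) = 1 := by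
      rw [map_pow, map_pow, hiT]
      refine Equiv.ext fun z => Subtype.ext ?_
      have e : (D.T ^ M) ^ n = D.T ^ ((M : ℤ) * ((n : ℤ) * 1)) := by
        rw [mul_one, zpow_mul, zpow_natCast, zpow_natCast]
      have e2 : -((M : ℤ) * ((n : ℤ) * 1)) = (M : ℤ) * ((n : ℤ) * (-1)) := by ring
      rw [e, hT, e2, hone, hone, one_mul, one_mul, mul_one, mul_one]
      rfl
    haveI hfin : Finite (SOR.Tr G (ι c * s) (ι d * t)) :=
      Finite.of_injective (fun z => z.1) Subtype.val_injective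
    haveI : Fintype (SOR.Tr G (ι c * s) (ι d * t)) := Fintype.ofFinite _
    haveI hfin' : Finite (XX (ι c * s) (ι d * t)) :=
      Finite.of_equiv _ (eX (ι c * s) (ι d * t)).symm
    haveI : Fintype (XX (ι c * s) (ι d * t)) := Fintype.ofFinite _
    have hR := hrel (Subgroup.centralizer (Set.range q' : Set (Equiv.Perm _)))
      (SOR.Tr G (ι c * s) (ι d * t)) D' (P.prod Q) ⟨(c⁻¹, d⁻¹), ⟨P.inv_mem hc, Q.inv_mem hd⟩⟩ rfl i
      (q'.comp θ) σ hXa M hM1 h1a h1a3 h1T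
    refine ⟨_, hR, ?_⟩
    have hcard : (Nat.card (P.prod Q) : ℚ) = Nat.card P * Nat.card Q := by
      rw [Nat.card_congr (Subgroup.prodEquiv P Q).toEquiv, Nat.card_prod]
      push_cast
      ring
    have hcard0 : (Nat.card (P.prod Q) : ℚ) ≠ 0 := by
      exact_mod_cast Nat.card_pos.ne'
    rw [← hcard, mul_div_cancel₀ _ hcard0, finsum_eq_sum_of_fintype, Finset.sum_filter]
    refine Fintype.sum_equiv (eX (ι c * s) (ι d * t)) _ _ ?_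
    intro w
    obtain ⟨z, hz⟩ : ∃ z, z = eX (ι c * s) (ι d * t) w := ⟨_, rfl⟩
    have hzw : z.1 = w.1 := by rw [hz]; rfl
    rw [← hz, ← hzw]
    have i13 := img13 (P := P) (Q := Q) hn0 hq hia hia3 ha ha3 hM hMn z
    have i12 := img12 (P := P) (Q := Q) hn0 hq hia hiT ha hT hM hMn z
    have iT := imgT (P := P) (Q := Q) hn0 hq hia hiT ha hT hM hMn z
    have f13 := free13 (P := P) (Q := Q) (m := m) hn0 hq z
    have f12 := free12 (P := P) (Q := Q) (m := m) hn0 hq z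
    change (if Fre (t13 n m ι P Q (ι c * s) z.1.1 z.1.2.1 z.1.2.2) then
        -12 * Φ (tr2 '' (t13 n m ι P Q (ι c * s) z.1.1 z.1.2.1 z.1.2.2)) else 0) +
      (if Fre (t12 n m ι P Q z.1.1 z.1.2.1 z.1.2.2) then
        (x₁ c⁻¹ * x₂ d⁻¹ : ℤ) / (ℓ : ℚ) ^ 2 -
          K' (tr1 '' (tT (t12 n m ι P Q z.1.1 z.1.2.1 z.1.2.2))) -
          12 * Ψ (tr2 '' (t12 n m ι P Q z.1.1 z.1.2.1 z.1.2.2)) else 0) = _
    rw [i13, i12, iT]
    by_cases hg : z ∈ SOR.Gd (q'.comp θ)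
    · rw [if_pos (f13.2 hg), if_pos (f12.2 hg), if_pos hg]
      push_cast
      field_simp
      ring
    · rw [if_neg (fun h => hg (f13.1 h)), if_neg (fun h => hg (f12.1 h)), if_neg hg, add_zero]

end Pool.Agent.PP.SO.H70
end
end -- Pool.Agent.Helper70_ASO.RTY

section -- Pool.Agent.Helper32_ASD.RTZ

/-!
# Squad ASD, row RTZ: the relation for the triples, with the values at the types which are not products
-/

set_option linter.unusedSectionVars false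

open scoped BigOperators

noncomputable section

namespace Pool.Agent.PP.SD.H32

open Pool.Agent.Helper51_AWC Pool.Agent.Helper79_WRA Pool.Agent.PP Pool.Agent.PP.KF
open Pool.Agent.PP.K9 Pool.Agent.PP.K9.H97 Pool.Agent.PP.H75 Pool.Agent.PP.T3
open Pool.Agent.PP.SO Pool.Agent.PP.SO.H70

theorem inv_mem_Rl {ℓ : ℕ} [Fact ℓ.Prime] {i : ℕ} (hi : ¬ ℓ ∣ i) : (i : ℚ)⁻¹ ∈ SOR.Rl ℓ := by
  have h0 : i ≠ 0 := by
    rintro rfl
    exact hi (dvd_zero _)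
  show ¬ ℓ ∣ ((i : ℚ)⁻¹).den
  rw [Rat.inv_natCast_den, if_neg h0]
  exact hi

section np

variable {V₀ : Type} [CommGroup V₀] {ℓ : ℕ} [Fact ℓ.Prime] {ρ : V₀ → ZMod ℓ} {x : V₀ → ℤ}

theorem hm_pow (hρ : Hm ρ) (v : V₀) (j : ℕ) : ρ (v ^ j) = j * ρ v := by
  induction j with
  | zero =>
    have h1 := hρ 1 1
    rw [mul_one] at h1
    have h2 : ρ 1 = 0 := by
      have h3 : ρ 1 + 0 = ρ 1 + ρ 1 := by rw [add_zero]; exact h1
      exact (add_left_cancel h3).symm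
    rw [pow_zero, h2, Nat.cast_zero, zero_mul]
  | succ j ih =>
    rw [pow_succ, hρ, ih, Nat.cast_succ]
    ring

/-- the type -/
def tN (n ℓ : ℕ) (p q : V₀) (i₀ : ℕ) : Set (SO.SS n V₀) :=
  {s | s.2.2.1 = p ^ (s.2.1 : ℕ) ∧ s.2.2.2 = q ^ (s.2.1 : ℕ) ∧
      (s.1 : ℕ) ≡ i₀ * (s.2.1 : ℕ) [MOD ℓ]}

theorem tN_one {n : ℕ} (hexp : ∀ v : V₀, v ^ ℓ = 1) {p q : V₀} {i₀ : ℕ} (hi : ¬ ℓ ∣ i₀)
    {s : SO.SS n V₀} (hs : s ∈ tN n ℓ p q i₀) (h : (s.1 : ℕ) = 0 ∨ (s.2.1 : ℕ) = 0) :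
    s.2.2.1 = 1 ∧ s.2.2.2 = 1 := by
  have hp : ℓ.Prime := Fact.out
  obtain ⟨h1, h2, h3⟩ := hs
  have h4 : ℓ ∣ (s.2.1 : ℕ) := by
    rcases h with h | h
    · rw [h] at h3
      have h5 : ℓ ∣ i₀ * (s.2.1 : ℕ) := (Nat.modEq_zero_iff_dvd).1 h3.symm
      exact (hp.dvd_mul.1 h5).resolve_left hi
    · rw [h]
      exact dvd_zero _
  obtain ⟨w, hw⟩ := h4
  rw [h1, h2, hw, pow_mul, pow_mul, hexp, hexp, one_pow]
  exact ⟨rfl, rfl⟩

theorem cast_dvd {n : ℕ} (hn : ℓ ∣ n) {a b : ℤ} (h : (a : ZMod n) = b) : (a : ZMod ℓ) = b := by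
  rw [ZMod.intCast_eq_intCast_iff] at h ⊢
  exact h.of_dvd (by exact_mod_cast hn)

theorem tN_cong {n : ℕ} (hn : ℓ ∣ n) {ρ₁ ρ₂ : V₀ → ZMod ℓ} {x₁ x₂ : V₀ → ℤ} (hρ₁ : Hm ρ₁)
    (hρ₂ : Hm ρ₂) (hx₁ : Lf ρ₁ x₁) (hx₂ : Lf ρ₂ x₂) {p q : V₀} {i₀ : ℕ} (hi : ¬ ℓ ∣ i₀)
    {s : SO.SS n V₀} (hs : s ∈ tN n ℓ p q i₀) {k l : ℤ} (hk : ((s.1 : ℕ) : ZMod n) = k)
    (hl : ((s.2.1 : ℕ) : ZMod n) = l) :
    (x₂ s.2.2.2 : ℚ) / ℓ - k * ((x₂ q : ℚ) / (ℓ * i₀)) ∈ SOR.Rl ℓ ∧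
      (x₁ s.2.2.1 : ℚ) / ℓ - l * ((x₁ p : ℚ) / ℓ) ∈ SOR.Rl ℓ := by
  have hp : ℓ.Prime := Fact.out
  have hp0 : (ℓ : ℚ) ≠ 0 := by exact_mod_cast hp.ne_zero
  have hi0 : (i₀ : ℚ) ≠ 0 := by
    intro h
    apply hi
    have h1 : i₀ = 0 := by exact_mod_cast h
    rw [h1]
    exact dvd_zero _
  obtain ⟨h1, h2, h3⟩ := hs
  have hk' : ((s.1 : ℕ) : ZMod ℓ) = (k : ZMod ℓ) := by
    have h := cast_dvd (a := ((s.1 : ℕ) : ℤ)) (b := k) hn (by rw [Int.cast_natCast]; exact hk)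
    rwa [Int.cast_natCast] at h
  have hl' : ((s.2.1 : ℕ) : ZMod ℓ) = (l : ZMod ℓ) := by
    have h := cast_dvd (a := ((s.2.1 : ℕ) : ℤ)) (b := l) hn (by rw [Int.cast_natCast]; exact hl)
    rwa [Int.cast_natCast] at h
  have h3' : ((s.1 : ℕ) : ZMod ℓ) = (i₀ : ZMod ℓ) * ((s.2.1 : ℕ) : ZMod ℓ) := by
    rw [← Nat.cast_mul, ZMod.natCast_eq_natCast_iff]
    exact h3
  constructor
  · have e : (x₂ s.2.2.2 : ℚ) / ℓ - k * ((x₂ q : ℚ) / (ℓ * i₀)) =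
        (((x₂ s.2.2.2 * i₀ - k * x₂ q : ℤ) : ℚ) / ℓ) * (i₀ : ℚ)⁻¹ := by
      push_cast
      field_simp
    rw [e]
    refine Subring.mul_mem _ ?_ (inv_mem_Rl hi)
    rw [div_mem_iff]
    push_cast
    rw [(hx₂ _).1, (hx₂ _).1, h2, hm_pow hρ₂, hl', ← hk', h3', hl']
    ring
  · have e : (x₁ s.2.2.1 : ℚ) / ℓ - l * ((x₁ p : ℚ) / ℓ) =
        ((x₁ s.2.2.1 - l * x₁ p : ℤ) : ℚ) / ℓ := by
      push_cast
      field_simp
    rw [e, div_mem_iff]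
    push_cast
    rw [(hx₁ _).1, (hx₁ _).1, h1, hm_pow hρ₁, hl']
    ring

theorem tN_pt {n : ℕ} (hn : ℓ ∣ n) (hn1 : 1 < n) (p q : V₀) (i₀ : ℕ) :
    (Multiplicative.ofAdd (((i₀ : ℕ) : ℤ) : ZMod n), Multiplicative.ofAdd ((1 : ℤ) : ZMod n),
      (p, q)) ∈ (tr2 '' (tN n ℓ p q i₀) : Set (SOR.L2 n (V₀ × V₀))) := by
  have hlt : i₀ % n < n := Nat.mod_lt _ (by omega)
  refine ⟨(⟨i₀ % n, hlt⟩, ⟨1, hn1⟩, p, q), ⟨?_, ?_, ?_⟩, ?_⟩
  · show p = p ^ 1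
    rw [pow_one]
  · show q = q ^ 1
    rw [pow_one]
  · show i₀ % n ≡ i₀ * 1 [MOD ℓ]
    rw [mul_one]
    exact (Nat.mod_modEq i₀ n).of_dvd hn
  · unfold tr2
    show (Multiplicative.ofAdd ((i₀ % n : ℕ) : ZMod n), Multiplicative.ofAdd ((1 : ℕ) : ZMod n),
      (p, q)) = _
    rw [ZMod.natCast_mod, Nat.cast_one, Int.cast_natCast, Int.cast_one]

/-- the value of a product of two numbers -/
theorem tN_val {a b α β : ℚ} {i₀ : ℕ} (hi : ¬ ℓ ∣ i₀) {u v : ℤ}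
    (h1 : (v : ℚ) / ℓ - i₀ * α ∈ SOR.Rl ℓ) (h2 : (u : ℚ) / ℓ - 1 * β ∈ SOR.Rl ℓ) :
    ∃ z ∈ SOR.Rl ℓ, a - b - 12 * (α * β) = a - b - 12 * (u * v) / ((ℓ : ℚ) ^ 2 * i₀) + z / ℓ := by
  have hp : ℓ.Prime := Fact.out
  have hp0 : (ℓ : ℚ) ≠ 0 := by exact_mod_cast hp.ne_zero
  have hi0 : (i₀ : ℚ) ≠ 0 := by
    intro h
    apply hi
    have h1 : i₀ = 0 := by exact_mod_cast h
    rw [h1]
    exact dvd_zero _
  obtain ⟨s, hs⟩ : ∃ s, s = (v : ℚ) / ℓ - i₀ * α := ⟨_, rfl⟩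
  obtain ⟨t, ht⟩ : ∃ t, t = (u : ℚ) / ℓ - 1 * β := ⟨_, rfl⟩
  rw [← hs] at h1
  rw [← ht] at h2
  have e1 : α = ((v : ℚ) / ℓ - s) * (i₀ : ℚ)⁻¹ := by
    rw [hs]
    field_simp
    ring
  have e2 : β = (u : ℚ) / ℓ - t := by
    rw [ht]
    ring
  have h12 : (12 : ℚ) ∈ SOR.Rl ℓ := by
    have h := int_mem (ℓ := ℓ) 12
    rwa [Int.cast_ofNat] at h
  have hℓ : (ℓ : ℚ) ∈ SOR.Rl ℓ := by
    have h := int_mem (ℓ := ℓ) (ℓ : ℤ)
    rwa [Int.cast_natCast] at h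
  refine ⟨12 * (v * t + s * u - ℓ * (s * t)) * (i₀ : ℚ)⁻¹, ?_, ?_⟩
  · exact (SOR.Rl ℓ).mul_mem ((SOR.Rl ℓ).mul_mem h12 ((SOR.Rl ℓ).sub_mem ((SOR.Rl ℓ).add_mem
      ((SOR.Rl ℓ).mul_mem (int_mem v) h2) ((SOR.Rl ℓ).mul_mem h1 (int_mem u)))
      ((SOR.Rl ℓ).mul_mem hℓ ((SOR.Rl ℓ).mul_mem h1 h2)))) (inv_mem_Rl hi)
  · rw [e1, e2]
    field_simp
    ring

end np

/-- RTZ -/
theorem rtz (hUni : UnjStmt) (hBrx : SOR.BrxStmt) : RtzStmt := by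
  classical
  intro ℓ _ V₀ _ _ hexp n ρ₁ ρ₂ hn hρ₁ hρ₂ x₁ x₂ hx₁ hx₂ c d
  obtain ⟨r, hr, hnr⟩ := hn
  have hp : ℓ.Prime := Fact.out
  have hp0 : (ℓ : ℚ) ≠ 0 := by exact_mod_cast hp.ne_zero
  have hn1 : 1 < n := by
    rw [hnr]
    exact Nat.one_lt_pow hr.ne' hp.one_lt
  have hpg : IsPGroup ℓ (V₀ × V₀) := fun v => ⟨1, by
    rw [pow_one]
    exact Prod.ext (hexp _) (hexp _)⟩
  have hU := hUni ℓ r (V₀ × V₀) hpg
    (fun p => (x₁ p.1 : ℚ) / ℓ) (fun p => (x₂ p.2 : ℚ) / ℓ) (c⁻¹, d⁻¹)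
    (fun p p' => lf_add hρ₁ hx₁ _ _) (fun p p' => lf_add hρ₂ hx₂ _ _)
    (fun p => lf_pow hr _) (fun p => lf_pow hr _) (fun p h => lf_zero hx₁ _ h)
    (fun p h => lf_zero hx₂ _ h)
  rw [← hnr] at hU
  obtain ⟨Φ, Ψ, K', hΦ1, hΦ2, hΨ1, hΨ2, hK1, hK2, hK3, hnp, hrel⟩ := hU
  have hz : ∀ v, ρ₁ v = 0 → (x₁ v : ℚ) / ℓ ∈ SOR.Rl ℓ := fun v h => (lf_mem hx₁ v).2 h
  have hz' : ∀ v, ρ₂ v = 0 → (x₂ v : ℚ) / ℓ ∈ SOR.Rl ℓ := fun v h => (lf_mem hx₂ v).2 h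
  refine ⟨fun τ => if Fre τ then -12 * Φ (tr2 '' τ) else 0,
    fun τ => if Fre τ then (x₁ c⁻¹ * x₂ d⁻¹ : ℤ) / (ℓ : ℚ) ^ 2 - K' (tr1 '' (tT τ)) -
      12 * Ψ (tr2 '' τ) else 0,
    fun U => K' (tr1 '' U), ?_, ?_⟩
  · refine ⟨⟨?_, ?_, ?_, ?_, ?_, ?_⟩, ?_⟩
    · intro τ h
      exact ⟨if_neg h, if_neg h⟩
    · intro τ h
      change (if Fre τ then -12 * Φ (tr2 '' τ) else 0) = 0
      have h1 : Φ (tr2 '' τ) = 0 := by
        rcases h with h | h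
        · refine hΦ1 _ ?_
          rintro _ ⟨s, hs, rfl⟩
          exact hz _ (h s hs)
        · refine hΦ2 _ ?_
          rintro _ ⟨s, hs, rfl⟩
          exact hz' _ (h s hs)
      rw [h1, mul_zero, ite_self]
    · intro τ hf h
      change (if Fre τ then (x₁ c⁻¹ * x₂ d⁻¹ : ℤ) / (ℓ : ℚ) ^ 2 - K' (tr1 '' (tT τ)) -
        12 * Ψ (tr2 '' τ) else 0) = _
      have h1 : Ψ (tr2 '' τ) = 0 := by
        refine hΨ1 _ ?_ ?_
        · rintro _ ⟨s, hs, rfl⟩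
          exact hz _ (h s hs).1
        · rintro _ ⟨s, hs, rfl⟩
          exact hz' _ (h s hs).2
      have h2 : K' (tr1 '' (tT τ)) = 0 := by
        refine hK1 _ ?_
        rintro _ ⟨u, ⟨s, hs, _, rfl⟩, rfl⟩
        exact hz _ (h s hs).1
      rw [if_pos hf, h1, h2]
      ring
    · intro τ hf h1 h2
      change (if Fre τ then (x₁ c⁻¹ * x₂ d⁻¹ : ℤ) / (ℓ : ℚ) ^ 2 - K' (tr1 '' (tT τ)) -
        12 * Ψ (tr2 '' τ) else 0) = _
      have h3 : Ψ (tr2 '' τ) = 0 := by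
        refine hΨ2 _ ?_ ?_
        · rintro _ ⟨s, hs, rfl⟩
          obtain ⟨s', hs', h0, he⟩ := h1 s hs
          refine ⟨s', hs', ?_⟩
          unfold tr2
          rw [h0, he, Nat.cast_zero]
          rfl
        · rintro _ ⟨s, hs, rfl⟩ h0
          have h4 : ((s.2.1 : ℕ) : ZMod n) = 0 := Multiplicative.ofAdd.injective h0
          have h5 := h2 s hs ((fin_zero _).1 h4)
          exact ⟨hz _ h5.1, hz' _ h5.2⟩
      have h4 : tT τ = {u | ∃ s ∈ τ, s.2 = u} := by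
        ext u
        constructor
        · rintro ⟨s, hs, _, he⟩
          exact ⟨s, hs, he⟩
        · rintro ⟨s, hs, he⟩
          obtain ⟨s', hs', h0, he'⟩ := h1 s hs
          exact ⟨s', hs', h0, by rw [he', he]⟩
      rw [if_pos hf, h3, h4]
      ring
    · intro U h
      change K' (tr1 '' U) = 0
      rcases h with h | h
      · refine hK1 _ ?_
        rintro _ ⟨u, hu, rfl⟩
        exact hz _ (h u hu)
      · refine hK2 _ ?_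
        rintro _ ⟨u, hu, rfl⟩
        exact hz' _ (h u hu)
    · intro U κ₁ κ₂ h1 h2
      change K' (tr1 '' U) = _
      rw [hK3 (tr1 '' U) (κ₁, κ₂) ?_]
      · push_cast
        field_simp
      · intro p'
        constructor
        · rintro ⟨u, hu, he⟩
          have h3 := Prod.ext_iff.1 he
          have h4 : ((u.1 : ℕ) : ZMod n) = 1 := Multiplicative.ofAdd.injective h3.1
          have h5 := h2 u hu ((fin_one hn1 _).1 h4)
          have h6 : u.2 = p' := h3.2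
          rw [← h6, h5]
        · rintro rfl
          obtain ⟨u, hu, hu1⟩ := h1
          refine ⟨u, hu, ?_⟩
          unfold tr1
          rw [h2 u hu hu1, (fin_one hn1 _).2 hu1]
    · intro p q i₀ hi
      have hln : ℓ ∣ n := by
        rw [hnr]
        exact dvd_pow_self _ hr.ne'
      change ∃ z ∈ SOR.Rl ℓ, (if Fre (tN n ℓ p q i₀) then (x₁ c⁻¹ * x₂ d⁻¹ : ℤ) / (ℓ : ℚ) ^ 2 -
        K' (tr1 '' (tT (tN n ℓ p q i₀))) - 12 * Ψ (tr2 '' (tN n ℓ p q i₀)) else 0) = _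
      have hρ1 : ∀ {ρ : V₀ → ZMod ℓ}, Hm ρ → ρ 1 = 0 := by
        intro ρ h
        have h2 := hm_pow h 1 0
        rwa [pow_zero, Nat.cast_zero, zero_mul] at h2
      have hf : Fre (tN n ℓ p q i₀) := by
        intro s hs h1 _
        exact tN_one hexp hi hs (Or.inl h1)
      have hK : K' (tr1 '' (tT (tN n ℓ p q i₀))) = 0 := by
        refine hK1 _ ?_
        rintro _ ⟨u, ⟨s, hs, h0, rfl⟩, rfl⟩
        refine hz _ ?_
        show ρ₁ s.2.2.1 = 0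
        rw [(tN_one hexp hi hs (Or.inl h0)).1]
        exact hρ1 hρ₁
      have hcg : ∀ (k l : ℤ) (v : V₀ × V₀), (Multiplicative.ofAdd (k : ZMod n),
          Multiplicative.ofAdd (l : ZMod n), v) ∈ (tr2 '' (tN n ℓ p q i₀) : Set _) →
          (x₂ v.2 : ℚ) / ℓ - k * ((x₂ q : ℚ) / (ℓ * i₀)) ∈ SOR.Rl ℓ ∧
            (x₁ v.1 : ℚ) / ℓ - l * ((x₁ p : ℚ) / ℓ) ∈ SOR.Rl ℓ := by
        rintro k l v ⟨s, hs, he⟩
        have h3 := Prod.ext_iff.1 he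
        have h4 := Prod.ext_iff.1 h3.2
        have h5 : s.2.2 = v := h4.2
        rw [← h5]
        exact tN_cong hln hρ₁ hρ₂ hx₁ hx₂ hi hs (Multiplicative.ofAdd.injective h3.1)
          (Multiplicative.ofAdd.injective h4.1)
      obtain ⟨α, β, hΨ, hαβ⟩ := hnp (tr2 '' (tN n ℓ p q i₀)) (by
          rintro _ ⟨s, hs, rfl⟩ h
          have h1 : s.2.2.1 = 1 ∧ s.2.2.2 = 1 := by
            refine tN_one hexp hi hs ?_
            rcases h with h | h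
            · exact Or.inl ((fin_zero _).1 (Multiplicative.ofAdd.injective h))
            · exact Or.inr ((fin_zero _).1 (Multiplicative.ofAdd.injective h))
          refine ⟨hz _ ?_, hz' _ ?_⟩
          · show ρ₁ s.2.2.1 = 0
            rw [h1.1]
            exact hρ1 hρ₁
          · show ρ₂ s.2.2.2 = 0
            rw [h1.2]
            exact hρ1 hρ₂) ⟨(x₂ q : ℚ) / (ℓ * i₀), fun k l v hv => (hcg k l v hv).1⟩
        ⟨(x₁ p : ℚ) / ℓ, fun k l v hv => (hcg k l v hv).2⟩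
      have h1 := hαβ _ _ _ (tN_pt hln hn1 p q i₀)
      rw [if_pos hf, hK, hΨ]
      obtain ⟨z, hz1, hz2⟩ := tN_val (a := (x₁ c⁻¹ * x₂ d⁻¹ : ℤ) / (ℓ : ℚ) ^ 2) (b := 0) (α := α)
        (β := β) hi (u := x₁ p) (v := x₂ q) (by
          have h2 := h1.1
          rwa [Int.cast_natCast] at h2) (by
          have h2 := h1.2
          rwa [Int.cast_one] at h2)
      refine ⟨z, hz1, ?_⟩
      rw [mul_comm α β] at hz2 ⊢
      rw [hz2, sub_zero]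
      push_cast
      rfl
  · intro G _ _ m ι hι hPE P Q hc hd s t hs ht hPs hQt
    obtain ⟨D, _, _, _, _, hTs, ha, ha3, hT, hV⟩ := hBrx G (ι c * s) (ι d * t)
    have hn0 : 0 < n := by omega
    obtain ⟨M, hM1, hM, hMn⟩ := exists_M hPE
    -- centralisers
    have hcomm : ∀ v w : V₀, ι v * ι w = ι w * ι v := fun v w => by
      rw [← map_mul, ← map_mul, mul_comm]
    have hP1 : ∀ p ∈ P, ι p ∈ Subgroup.centralizer ({ι c * s} : Set G) := by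
      intro p hp
      rw [Subgroup.mem_centralizer_iff]
      intro h hh
      rw [Set.mem_singleton_iff] at hh
      rw [hh, mul_assoc, ← hPs p hp, ← mul_assoc, hcomm c p, mul_assoc]
    have hQ1 : ∀ p ∈ Q, ι p ∈ Subgroup.centralizer ({ι d * t} : Set G) := by
      intro p hp
      rw [Subgroup.mem_centralizer_iff]
      intro h hh
      rw [Set.mem_singleton_iff] at hh
      rw [hh, mul_assoc, ← hQt p hp, ← mul_assoc, hcomm d p, mul_assoc]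
    have hs1 : s⁻¹ ∈ Subgroup.centralizer ({ι c * s} : Set G) := by
      refine Subgroup.inv_mem _ ?_
      rw [Subgroup.mem_centralizer_iff]
      intro h hh
      rw [Set.mem_singleton_iff] at hh
      rw [hh, ← mul_assoc, ← hPs c hc]
    have ht1 : t⁻¹ ∈ Subgroup.centralizer ({ι d * t} : Set G) := by
      refine Subgroup.inv_mem _ ?_
      rw [Subgroup.mem_centralizer_iff]
      intro h hh
      rw [Set.mem_singleton_iff] at hh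
      rw [hh, ← mul_assoc, ← hQt d hd]
    obtain ⟨q', hq', hqa, hqb, hqA, hqB, hqT⟩ :=
      hV (Subgroup.centralizer ({ι c * s} : Set G)) (Subgroup.centralizer ({ι d * t} : Set G))
        (fun v hv => (Subgroup.mem_centralizer_iff.1 hv _ rfl).symm)
        (fun v hv => (Subgroup.mem_centralizer_iff.1 hv _ rfl).symm)
    obtain ⟨θ, hθ⟩ : ∃ θ : P.prod Q →* (Subgroup.centralizer ({ι c * s} : Set G)) ×
        (Subgroup.centralizer ({ι d * t} : Set G)),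
        ∀ p, θ p = (⟨ι p.1.1, hP1 _ p.2.1⟩, ⟨ι p.1.2, hQ1 _ p.2.2⟩) :=
      ⟨{ toFun := fun p => (⟨ι p.1.1, hP1 _ p.2.1⟩, ⟨ι p.1.2, hQ1 _ p.2.2⟩)
         map_one' := by
          refine Prod.ext (Subtype.ext ?_) (Subtype.ext ?_)
          · exact map_one ι
          · exact map_one ι
         map_mul' := fun a b => by
          refine Prod.ext (Subtype.ext ?_) (Subtype.ext ?_)
          · exact map_mul ι _ _
          · exact map_mul ι _ _ }, fun p => rfl⟩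
    obtain ⟨σ, hσ⟩ : ∃ σ : Equiv.Perm (SOR.Tr G (ι c * s) (ι d * t)),
      σ = q' (⟨s⁻¹, hs1⟩, ⟨t⁻¹, ht1⟩) := ⟨_, rfl⟩
    have hq : ∀ (p : P.prod Q) z, ((q'.comp θ) p z).1 = (ι p.1.1 * z.1.1 * (ι p.1.1)⁻¹,
        ι p.1.1 * z.1.2.1 * (ι p.1.1)⁻¹, ι p.1.1 * z.1.2.2 * (ι p.1.2)⁻¹) := by
      intro p z
      rw [MonoidHom.comp_apply, hq', hθ]
    have hmem : ∀ g : Equiv.Perm (SOR.Tr G (ι c * s) (ι d * t)),
        (∀ p z, g (q' p z) = q' p (g z)) →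
        g ∈ Subgroup.centralizer (Set.range q' : Set (Equiv.Perm _)) := by
      intro g hg
      rw [Subgroup.mem_centralizer_iff]
      rintro _ ⟨p, rfl⟩
      refine Equiv.ext fun z => ?_
      exact (hg p z).symm
    obtain ⟨D', hD'⟩ : ∃ D' : SOR.Bd (Subgroup.centralizer (Set.range q' : Set (Equiv.Perm _))),
        D' = rst D _ (hmem _ hqa) (hmem _ hqb) (hmem _ hqA) (hmem _ hqB) (hmem _ hqT) :=
      ⟨_, rfl⟩
    obtain ⟨i, hi⟩ : ∃ i : Subgroup.centralizer (Set.range q' : Set (Equiv.Perm _)) →*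
        Equiv.Perm (SOR.Tr G (ι c * s) (ι d * t)), i = Subgroup.subtype _ := ⟨_, rfl⟩
    have hia : i D'.a = D.a := by rw [hi, hD']; rfl
    have hia3 : i D'.a3 = D.a3 := by
      rw [hi, hD']
      rfl
    have hiT : i D'.T = D.T := by
      rw [hi, hD']
      unfold SOR.Bd.T
      rw [map_pow, map_mul]
      rfl
    have hiTs : i D'.Ts = D.Ts := by rw [hi, hD']; rfl
    have hicomm : ∀ g v x, i g (q' v x) = q' v (i g x) := by
      intro g v x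
      have h1 := Subgroup.mem_centralizer_iff.1 g.2 (q' v) ⟨v, rfl⟩
      have h2 := Equiv.ext_iff.1 h1 x
      rw [hi]
      exact h2.symm
    have hXa : SOR.Xa ℓ D' (P.prod Q) ⟨(c⁻¹, d⁻¹), ⟨P.inv_mem hc, Q.inv_mem hd⟩⟩ i
        (q'.comp θ) σ := by
      refine ⟨?_, ?_, ?_, ?_, ?_⟩
      · intro g p x
        exact hicomm g (θ p) x
      · intro g x
        rw [hσ]
        exact hicomm g _ x
      · intro p x
        rw [hσ, MonoidHom.comp_apply, ← Equiv.Perm.mul_apply, ← Equiv.Perm.mul_apply, ← map_mul,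
          ← map_mul]
        congr 2
        rw [hθ]
        have e1 : Commute (ι p.1.1) s⁻¹ := Commute.inv_right (hPs _ p.2.1)
        have e2 : Commute (ι p.1.2) t⁻¹ := Commute.inv_right (hQt _ p.2.2)
        refine Prod.ext (Subtype.ext ?_) (Subtype.ext ?_)
        · exact e1
        · exact e2
      · have h1 : orderOf σ ∣ orderOf s * orderOf t := by
          rw [orderOf_dvd_iff_pow_eq_one, hσ, ← map_pow]
          have h2 : ((⟨s⁻¹, hs1⟩, ⟨t⁻¹, ht1⟩) : (Subgroup.centralizer ({ι c * s} : Set G)) ×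
              (Subgroup.centralizer ({ι d * t} : Set G))) ^ (orderOf s * orderOf t) = 1 := by
            refine Prod.ext (Subtype.ext ?_) (Subtype.ext ?_)
            · change (s⁻¹) ^ (orderOf s * orderOf t) = 1
              rw [inv_pow, pow_mul, pow_orderOf_eq_one, one_pow, inv_one]
            · change (t⁻¹) ^ (orderOf s * orderOf t) = 1
              rw [inv_pow, mul_comm, pow_mul, pow_orderOf_eq_one, one_pow, inv_one]
          rw [h2, map_one]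
        exact Nat.Coprime.coprime_dvd_left h1 (Nat.Coprime.mul_left hs ht)
      · rw [hiTs, hσ]
        refine Equiv.ext fun z => Subtype.ext ?_
        rw [hTs, Equiv.Perm.mul_apply, hq, hq']
        have e1 : ι c * s = s * ι c := hPs c hc
        have e2 : ι d * t = t * ι d := hQt d hd
        have e3 : ι c⁻¹ = (ι c)⁻¹ := map_inv ι c
        have e4 : ι d⁻¹ = (ι d)⁻¹ := map_inv ι d
        simp only [e1, e2, e3, e4]
        refine Prod.ext ?_ (Prod.ext ?_ ?_)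
        · simp only
          group
        · simp only
          group
        · simp only
          group
    have hone : ∀ (x : G) (k : ℤ), x ^ ((M : ℤ) * ((n : ℤ) * k)) = 1 := by
      intro x k
      rw [zpow_mul, zpow_natCast, hM, zpow_mul, zpow_natCast, hMn, one_zpow]
    have h1a : i ((D'.a ^ M) ^ n) = 1 := by
      rw [map_pow, map_pow, hia]
      refine Equiv.ext fun z => Subtype.ext ?_
      have e : (D.a ^ M) ^ n = D.a ^ ((M : ℤ) * ((n : ℤ) * 1)) := by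
        rw [mul_one, zpow_mul, zpow_natCast, zpow_natCast]
      rw [e, ha, hone, mul_one]
      rfl
    have h1a3 : i ((D'.a3 ^ M) ^ n) = 1 := by
      rw [map_pow, map_pow, hia3]
      refine Equiv.ext fun z => Subtype.ext ?_
      have e : (D.a3 ^ M) ^ n = D.a3 ^ ((M : ℤ) * ((n : ℤ) * 1)) := by
        rw [mul_one, zpow_mul, zpow_natCast, zpow_natCast]
      rw [e, ha3, hone, one_mul, one_mul]
      rfl
    have h1T : i ((D'.T ^ M) ^ n) = 1 := by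
      rw [map_pow, map_pow, hiT]
      refine Equiv.ext fun z => Subtype.ext ?_
      have e : (D.T ^ M) ^ n = D.T ^ ((M : ℤ) * ((n : ℤ) * 1)) := by
        rw [mul_one, zpow_mul, zpow_natCast, zpow_natCast]
      have e2 : -((M : ℤ) * ((n : ℤ) * 1)) = (M : ℤ) * ((n : ℤ) * (-1)) := by ring
      rw [e, hT, e2, hone, hone, one_mul, one_mul, mul_one, mul_one]
      rfl
    have hfin : Finite (SOR.Tr G (ι c * s) (ι d * t)) :=
      Finite.of_injective (fun z => z.1) Subtype.val_injective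
    have : Fintype (SOR.Tr G (ι c * s) (ι d * t)) := Fintype.ofFinite _
    have hfin' : Finite (XX (ι c * s) (ι d * t)) :=
      Finite.of_equiv _ (eX (ι c * s) (ι d * t)).symm
    have : Fintype (XX (ι c * s) (ι d * t)) := Fintype.ofFinite _
    have hR := hrel (Subgroup.centralizer (Set.range q' : Set (Equiv.Perm _)))
      (SOR.Tr G (ι c * s) (ι d * t)) D' (P.prod Q) ⟨(c⁻¹, d⁻¹), ⟨P.inv_mem hc, Q.inv_mem hd⟩⟩ rfl i
      (q'.comp θ) σ hXa M hM1 h1a h1a3 h1T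
    refine ⟨_, hR, ?_⟩
    have hcard : (Nat.card (P.prod Q) : ℚ) = Nat.card P * Nat.card Q := by
      rw [Nat.card_congr (Subgroup.prodEquiv P Q).toEquiv, Nat.card_prod]
      push_cast
      ring
    have hcard0 : (Nat.card (P.prod Q) : ℚ) ≠ 0 := by
      exact_mod_cast Nat.card_pos.ne'
    rw [← hcard, mul_div_cancel₀ _ hcard0, finsum_eq_sum_of_fintype, Finset.sum_filter]
    refine Fintype.sum_equiv (eX (ι c * s) (ι d * t)) _ _ ?_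
    intro w
    obtain ⟨z, hz⟩ : ∃ z, z = eX (ι c * s) (ι d * t) w := ⟨_, rfl⟩
    have hzw : z.1 = w.1 := by rw [hz]; rfl
    rw [← hz, ← hzw]
    have i13 := img13 (P := P) (Q := Q) hn0 hq hia hia3 ha ha3 hM hMn z
    have i12 := img12 (P := P) (Q := Q) hn0 hq hia hiT ha hT hM hMn z
    have iT := imgT (P := P) (Q := Q) hn0 hq hia hiT ha hT hM hMn z
    have f13 := free13 (P := P) (Q := Q) (m := m) hn0 hq z
    have f12 := free12 (P := P) (Q := Q) (m := m) hn0 hq z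
    change (if Fre (t13 n m ι P Q (ι c * s) z.1.1 z.1.2.1 z.1.2.2) then
        -12 * Φ (tr2 '' (t13 n m ι P Q (ι c * s) z.1.1 z.1.2.1 z.1.2.2)) else 0) +
      (if Fre (t12 n m ι P Q z.1.1 z.1.2.1 z.1.2.2) then
        (x₁ c⁻¹ * x₂ d⁻¹ : ℤ) / (ℓ : ℚ) ^ 2 -
          K' (tr1 '' (tT (t12 n m ι P Q z.1.1 z.1.2.1 z.1.2.2))) -
          12 * Ψ (tr2 '' (t12 n m ι P Q z.1.1 z.1.2.1 z.1.2.2)) else 0) = _
    rw [i13, i12, iT]
    by_cases hg : z ∈ SOR.Gd (q'.comp θ)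
    · rw [if_pos (f13.2 hg), if_pos (f12.2 hg), if_pos hg]
      push_cast
      field_simp
      ring
    · rw [if_neg (fun h => hg (f13.1 h)), if_neg (fun h => hg (f12.1 h)), if_neg hg, add_zero]

end Pool.Agent.PP.SD.H32
end
end -- Pool.Agent.Helper32_ASD.RTZ

section -- Pool.Agent.Helper66_ASE.UNX

/-!
# Squad ASE, block R: the universal functions of the types, for all labels at the same time
-/

set_option autoImplicit false
set_option linter.unusedSectionVars false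

open scoped BigOperators

noncomputable section

namespace Pool.Agent.SOR.H66E

open Pool.Agent.SOR.H32

section fn

variable {P : Type} [CommGroup P]

/-- the condition for the main case -/
def Cd (R : Subring ℚ) (n : ℕ) (r₁ : P → ℚ) (Λ : Set (L2 n P)) : Prop :=
  ∀ (l : ℤ) (p : P), (Multiplicative.ofAdd (l : ZMod n), p) ∈ Lt n Λ →
    r₁ p - l * mu R n r₁ (Lt n Λ) ∈ R

open Classical in
/-- the part of `Psi` without `p₀` -/
def Ps0 (R : Subring ℚ) (n : ℕ) (r₁ r₂ : P → ℚ) (Λ : Set (L2 n P)) : ℚ :=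
  if Cd R n r₁ Λ then
    -((mu R n r₂ (Ls n Λ) - al R n r₂ (mu R n r₂ (Lt n Λ)) Λ) *
      (bf R n r₁ (mu R n r₁ (Ls n Λ)) (mu R n r₁ (Lt n Λ)) Λ - mu R n r₁ (Lt n Λ))) -
      mu R n r₁ (Lt n Λ) * mu R n r₂ (Ls n Λ) - mu R n r₁ (Ls n Λ) * mu R n r₂ (Lt n Λ)
  else 0

open Classical in
/-- the coefficients of the values at `p₀` -/
def Mf (R : Subring ℚ) (n : ℕ) (r₁ r : P → ℚ) (Λ : Set (L2 n P)) : ℚ :=
  if Cd R n r₁ Λ then mu R n r (Ls n Λ) else 0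

theorem psi_eq (R : Subring ℚ) (n : ℕ) (r₁ r₂ : P → ℚ) (p₀ : P) (Λ : Set (L2 n P)) :
    Psi R n r₁ r₂ p₀ Λ = Ps0 R n r₁ r₂ Λ + r₁ p₀ * Mf R n r₁ r₂ Λ + r₂ p₀ * Mf R n r₁ r₁ Λ := by
  unfold Psi Ps0 Mf Cd
  split_ifs with h
  · unfold Psi'
    ring
  · ring

end fn

open Classical in
/-- the relation for the explicit functions -/
theorem rel (hlex : LexStmt) (hxsg : XsgStmt) (ℓ : ℕ) [Fact ℓ.Prime] (e : ℕ) (P : Type)
    [CommGroup P] [Finite P] (hP : IsPGroup ℓ P) (r₁ r₂ : P → ℚ)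
    (hr₁ : ∀ p p', r₁ (p * p') - r₁ p - r₁ p' ∈ Rl ℓ)
    (hr₂ : ∀ p p', r₂ (p * p') - r₂ p - r₂ p' ∈ Rl ℓ)
    (he₁ : ∀ p, (ℓ : ℚ) ^ e * r₁ p ∈ Rl ℓ) (he₂ : ∀ p, (ℓ : ℚ) ^ e * r₂ p ∈ Rl ℓ)
    (h0₁ : ∀ p, r₁ p ∈ Rl ℓ → r₁ p = 0) (h0₂ : ∀ p, r₂ p ∈ Rl ℓ → r₂ p = 0) (p₀ : P) :
    ∀ (Γ X : Type) [Group Γ] [Fintype X] (D : Bd Γ) (Q : Subgroup P) (q₀ : Q),
      (q₀ : P) = p₀ →
      ∀ (i : Γ →* Equiv.Perm X) (q : Q →* Equiv.Perm X) (σ : Equiv.Perm X),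
      Xa ℓ D Q q₀ i q σ → ∀ M : ℕ, (M : ZMod (ℓ ^ e)) = 1 → i ((D.a ^ M) ^ ℓ ^ e) = 1 →
      i ((D.a3 ^ M) ^ ℓ ^ e) = 1 → i ((D.T ^ M) ^ ℓ ^ e) = 1 →
      (∑ x ∈ Finset.univ.filter (· ∈ Gd q), (r₁ p₀ * r₂ p₀ -
        mu (Rl ℓ) (ℓ ^ e) r₁ (ty1 (ℓ ^ e) i q (D.T ^ M) x) *
          mu (Rl ℓ) (ℓ ^ e) r₂ (ty1 (ℓ ^ e) i q (D.T ^ M) x) -
        12 * Phi (Rl ℓ) (ℓ ^ e) r₁ r₂ (ty2 (ℓ ^ e) i q (D.a ^ M) (D.a3 ^ M) x) -
        12 * Psi (Rl ℓ) (ℓ ^ e) r₁ r₂ p₀ (ty2 (ℓ ^ e) i q (D.a ^ M) (D.T ^ M) x))) /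
          Nat.card Q ∈ Rl ℓ := by
  have hℓ : ℓ.Prime := Fact.out
  obtain ⟨n, hn⟩ : ∃ n, n = ℓ ^ e := ⟨_, rfl⟩
  have hn0 : 0 < n := by
    rw [hn]
    exact pow_pos hℓ.pos e
  rw [← hn]
  obtain ⟨R, hR⟩ : ∃ R, R = Rl ℓ := ⟨_, rfl⟩
  rw [← hR] at hr₁ hr₂ he₁ he₂ h0₁ h0₂ ⊢
  intro Γ X _ _ D Q q₀ hq₀ i q σ hXa M hM has ha3 hTs
  have hc := hXa.comm
  obtain ⟨s, hs⟩ : ∃ s, s = D.a ^ M := ⟨_, rfl⟩
  obtain ⟨t, ht⟩ : ∃ t, t = D.a3 ^ M := ⟨_, rfl⟩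
  obtain ⟨τ, hτ⟩ : ∃ τ, τ = D.T ^ M := ⟨_, rfl⟩
  rw [← hs, ← ht, ← hτ]
  rw [← hs] at has
  rw [← ht] at ha3
  rw [← hτ] at hTs
  -- commuting elements
  have c_as : Commute D.a s := by
    rw [hs]
    exact (Commute.refl _).pow_right M
  have c_at : Commute D.a t := by
    rw [ht]
    exact (comm_a_a3 D).pow_right M
  have c_aτ : Commute D.a τ := by
    rw [hτ]
    exact (comm_a_T D).pow_right M
  have c_bτ : Commute D.b τ := by
    rw [hτ]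
    exact (comm_b_T D).pow_right M
  have c_As : Commute D.A s := by
    rw [hs]
    exact (comm_a_A D).symm.pow_right M
  have c_At : Commute D.A t := by
    rw [ht]
    exact (comm_A_a3 D).pow_right M
  have c_A's : Commute D.A' s := by
    rw [hs]
    exact (comm_a_A' D).symm.pow_right M
  have c_Ts : Commute D.T s := by
    rw [hs]
    exact (comm_a_T D).symm.pow_right M
  have c_Tτ : Commute D.T τ := by
    rw [hτ]
    exact (Commute.refl _).pow_right M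
  have c_st : s * t = t * s := by
    rw [hs, ht]
    exact ((comm_a_a3 D).pow_pow M M).eq
  have c_sτ : s * τ = τ * s := by
    rw [hs, hτ]
    exact ((comm_a_T D).pow_pow M M).eq
  have hBs : D.B * s * D.B⁻¹ = t := by
    rw [hs, ht, ← conj_B D, conj_pow]
  -- the invariant subset
  have hqq : ∀ p p' x, q p (q p' x) = q p' (q p x) := by
    intro p p' x
    have h1 : q p (q p' x) = q (p * p') x := by
      rw [map_mul]
      rfl
    have h2 : q p' (q p x) = q (p' * p) x := by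
      rw [map_mul]
      rfl
    rw [h1, h2, mul_comm]
  have hgd : ∀ w : Equiv.Perm X, (∀ p x, w (q p x) = q p (w x)) → ∀ x ∈ Gd q, w x ∈ Gd q := by
    intro w hw x hx p hp
    rw [← hw] at hp
    exact hx p (w.injective hp)
  have hgi : ∀ g, ∀ x ∈ Gd q, i g x ∈ Gd q := fun g => hgd _ fun p x => hc g p x
  have hgq : ∀ p, ∀ x ∈ Gd q, q p x ∈ Gd q := fun p => hgd _ fun p' x => hqq p p' x
  have hσq : ∀ p x, σ (q p x) = q p (σ x) := fun p x => (hXa.sq p x).symm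
  have hσq' : ∀ p x, σ⁻¹ (q p x) = q p (σ⁻¹ x) := by
    intro p x
    apply σ.injective
    rw [hσq]
    have h1 : ∀ y, σ (σ⁻¹ y) = y := by
      intro y
      have h2 := perm_inv σ⁻¹ y
      rw [inv_inv] at h2
      exact h2
    rw [h1, h1]
  have hgσ : ∀ x ∈ Gd q, σ x ∈ Gd q := hgd _ hσq
  have hgσ' : ∀ x ∈ Gd q, σ⁻¹ x ∈ Gd q := hgd _ hσq'
  obtain ⟨i', hi'⟩ : ∃ i' : Γ →* Equiv.Perm (Gd q), i' = rsth i (Gd q) hgi := ⟨_, rfl⟩
  obtain ⟨q', hq'⟩ : ∃ q' : Q →* Equiv.Perm (Gd q), q' = rsth q (Gd q) hgq := ⟨_, rfl⟩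
  obtain ⟨σ', hσ'⟩ : ∃ σ' : Equiv.Perm (Gd q), σ' = rst σ (Gd q) hgσ hgσ' := ⟨_, rfl⟩
  have ic : ∀ g (x : Gd q), ((i' g x : Gd q) : X) = i g x := by
    intro g x
    rw [hi', rsth_coe]
  have qc : ∀ p (x : Gd q), ((q' p x : Gd q) : X) = q p x := by
    intro p x
    rw [hq', rsth_coe]
  have σc : ∀ (x : Gd q), ((σ' x : Gd q) : X) = σ x := by
    intro x
    rw [hσ', rst_coe]
  have hcop : (orderOf σ').Coprime ℓ := by
    apply Nat.Coprime.coprime_dvd_left _ hXa.cop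
    apply orderOf_dvd_of_pow_eq_one
    ext x
    rw [hσ', rst_pow, pow_orderOf_eq_one]
    rfl
  -- the functions
  obtain ⟨κ₁, hκ₁⟩ : ∃ κ₁ : Gd q → ℚ, ∀ x, κ₁ x = mu R n r₁ (ty1 n i q τ x) := ⟨_, fun _ => rfl⟩
  obtain ⟨κ₂, hκ₂⟩ : ∃ κ₂ : Gd q → ℚ, ∀ x, κ₂ x = mu R n r₂ (ty1 n i q τ x) := ⟨_, fun _ => rfl⟩
  obtain ⟨μ₁, hμ₁⟩ : ∃ μ₁ : Gd q → ℚ, ∀ x, μ₁ x = mu R n r₁ (ty1 n i q s x) := ⟨_, fun _ => rfl⟩
  obtain ⟨μ₂, hμ₂⟩ : ∃ μ₂ : Gd q → ℚ, ∀ x, μ₂ x = mu R n r₂ (ty1 n i q s x) := ⟨_, fun _ => rfl⟩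
  obtain ⟨η, hη⟩ : ∃ η : Gd q → ℚ, ∀ x, η x = mu R n r₁ (ty1 n i q s x) -
      al R n r₁ (mu R n r₁ (ty1 n i q t x)) (ty2 n i q s t x) := ⟨_, fun _ => rfl⟩
  obtain ⟨ζ, hζ⟩ : ∃ ζ : Gd q → ℚ, ∀ x, ζ x = mu R n r₂ (ty1 n i q t x) -
      be R n r₂ (mu R n r₂ (ty1 n i q s x)) (ty2 n i q s t x) := ⟨_, fun _ => rfl⟩
  obtain ⟨δ, hδ⟩ : ∃ δ : Gd q → ℚ, ∀ x, δ x =
      bf R n r₁ (mu R n r₁ (ty1 n i q s x)) (mu R n r₁ (ty1 n i q τ x)) (ty2 n i q s τ x) -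
        mu R n r₁ (ty1 n i q τ x) :=
    ⟨_, fun _ => rfl⟩
  obtain ⟨m, hm⟩ : ∃ m : Gd q → ℚ, ∀ x, m x =
      al R n r₂ (mu R n r₂ (ty1 n i q τ x)) (ty2 n i q s τ x) := ⟨_, fun _ => rfl⟩
  -- invariance
  have hall : ∀ x y : Gd q, ty1 n i q s x = ty1 n i q s y → ty1 n i q t x = ty1 n i q t y →
      ty1 n i q τ x = ty1 n i q τ y → ty2 n i q s t x = ty2 n i q s t y →
      ty2 n i q s τ x = ty2 n i q s τ y →
      ∀ F ∈ ({κ₁, κ₂, μ₁, μ₂, η, ζ, δ, m} : Set (Gd q → ℚ)), F x = F y := by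
    intro x y e1 e2 e3 e4 e5 F hF
    simp only [Set.mem_insert_iff, Set.mem_singleton_iff] at hF
    rcases hF with h | h | h | h | h | h | h | h
    · rw [h, hκ₁, hκ₁, e3]
    · rw [h, hκ₂, hκ₂, e3]
    · rw [h, hμ₁, hμ₁, e1]
    · rw [h, hμ₂, hμ₂, e1]
    · rw [h, hη, hη, e1, e2, e4]
    · rw [h, hζ, hζ, e1, e2, e4]
    · rw [h, hδ, hδ, e1, e3, e5]
    · rw [h, hm, hm, e3, e5]
  have hνB : ∀ x : X, ty1 n i q s (i D.B⁻¹ x) = ty1 n i q t x := by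
    intro x
    rw [ty1_conj hc, inv_inv, hBs]
  have hμB₁ : ∀ x : Gd q, μ₁ (i' D.B⁻¹ x) = mu R n r₁ (ty1 n i q t x) := by
    intro x
    rw [hμ₁, ic, hνB]
  have hμB₂ : ∀ x : Gd q, μ₂ (i' D.B⁻¹ x) = mu R n r₂ (ty1 n i q t x) := by
    intro x
    rw [hμ₂, ic, hνB]
  -- from the elements to the `M`-th powers
  have hMr₁ : ∀ p, r₁ (p ^ M) - r₁ p ∈ R := by
    intro p
    rw [hR]
    rw [hR] at hr₁ he₁
    exact r_pow_M hr₁ he₁ hn hM p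
  have hMr₂ : ∀ p, r₂ (p ^ M) - r₂ p ∈ R := by
    intro p
    rw [hR]
    rw [hR] at hr₂ he₂
    exact r_pow_M hr₂ he₂ hn hM p
  have hto : ∀ {r : P → ℚ}, (∀ p, r (p ^ M) - r p ∈ R) → ∀ (p : Q) (c : ℚ),
      r (((p ^ M : Q)) : P) - c ∈ R → r (p : P) - c ∈ R := by
    intro r hr p c h
    rw [Subgroup.coe_pow] at h
    have h1 := R.sub_mem h (hr p)
    have e1 : r ((p : P) ^ M) - c - (r ((p : P) ^ M) - r p) = r (p : P) - c := by ring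
    rwa [e1] at h1
  have hm1 : ∀ (g : Γ) (x : Gd q) (k : ℤ) (p : Q), i' (g ^ k) x = q' p x →
      i ((g ^ M) ^ k) x = q (p ^ M) x := by
    intro g x k p h
    have h1 : i (g ^ k) x = q p x := by
      rw [← ic, ← qc, h]
    have h2 := pow_rel hc h1 M
    have e1 : (g ^ M) ^ k = (g ^ k) ^ M := by
      rw [← zpow_natCast, ← zpow_natCast, ← zpow_mul, ← zpow_mul, mul_comm]
    rw [e1]
    exact h2
  have hm2 : ∀ (g g' : Γ), Commute g g' → ∀ (x : Gd q) (k l : ℤ) (p : Q),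
      i' (g ^ k * g' ^ l) x = q' p x → i ((g ^ M) ^ k * (g' ^ M) ^ l) x = q (p ^ M) x := by
    intro g g' hg x k l p h
    have h1 : i (g ^ k * g' ^ l) x = q p x := by
      rw [← ic, ← qc, h]
    have h2 := pow_rel hc h1 M
    have e1 : ∀ (w : Γ) (k : ℤ), (w ^ M) ^ k = (w ^ k) ^ M := by
      intro w k
      rw [← zpow_natCast, ← zpow_natCast, ← zpow_mul, ← zpow_mul, mul_comm]
    rw [e1, e1, ← ((hg.zpow_left k).zpow_right l).mul_pow]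
    exact h2
  have hFm : Fm R D i' q' (fun p : Q => r₁ p) (fun p : Q => r₂ p) κ₁ κ₂ μ₁ μ₂ η ζ δ m := by
    constructor
    · intro F hF p x
      have hw1 : ∀ g x, q p (i g x) = i g (q p x) := fun g x => (hc g p x).symm
      have hw2 : ∀ p' x, q p (q p' x) = q p' (q p x) := fun p' x => hqq p p' x
      apply hall _ _ _ _ _ _ _ F hF
      · rw [qc, ty1_perm hw1 hw2]
      · rw [qc, ty1_perm hw1 hw2]
      · rw [qc, ty1_perm hw1 hw2]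
      · rw [qc, ty2_perm hw1 hw2]
      · rw [qc, ty2_perm hw1 hw2]
    · intro F hF x
      apply hall _ _ _ _ _ _ _ F hF
      · rw [ic, ty1_inv hc c_as]
      · rw [ic, ty1_inv hc c_at]
      · rw [ic, ty1_inv hc c_aτ]
      · rw [ic, ty2_inv hc c_as c_at]
      · rw [ic, ty2_inv hc c_as c_aτ]
    · intro F hF x
      simp only [Set.mem_insert_iff, Set.mem_singleton_iff] at hF
      rcases hF with h | h
      · rw [h, hκ₁, hκ₁, ic, ty1_inv hc c_bτ]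
      · rw [h, hκ₂, hκ₂, ic, ty1_inv hc c_bτ]
    · intro F hF x
      simp only [Set.mem_insert_iff, Set.mem_singleton_iff] at hF
      rcases hF with h | h | h | h
      · rw [h, hμ₁, hμ₁, ic, ty1_inv hc c_As]
      · rw [h, hμ₂, hμ₂, ic, ty1_inv hc c_As]
      · rw [h, hη, hη, ic, ty1_inv hc c_As, ty1_inv hc c_At, ty2_inv hc c_As c_At]
      · rw [h, hζ, hζ, ic, ty1_inv hc c_As, ty1_inv hc c_At, ty2_inv hc c_As c_At]
    · intro F hF x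
      simp only [Set.mem_insert_iff, Set.mem_singleton_iff] at hF
      rcases hF with h | h
      · rw [h, hμ₁, hμ₁, ic, ty1_inv hc c_A's]
      · rw [h, hμ₂, hμ₂, ic, ty1_inv hc c_A's]
    · intro F hF x
      simp only [Set.mem_insert_iff, Set.mem_singleton_iff] at hF
      rcases hF with h | h
      · rw [h, hδ, hδ, ic, ty1_inv hc c_Ts, ty1_inv hc c_Tτ, ty2_inv hc c_Ts c_Tτ]
      · rw [h, hm, hm, ic, ty1_inv hc c_Tτ, ty2_inv hc c_Ts c_Tτ]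
    · intro x k p h
      have h1 := hm1 _ _ _ _ h
      rw [← hτ] at h1
      have h2 := (mem_ty1 (n := n) hTs (p ^ M) k).2 h1
      rw [hκ₁]
      exact hto hMr₁ p _ (pt_mu hlex hn0 hc hTs x.2 hr₁ k _ h2)
    · intro x k p h
      have h1 := hm1 _ _ _ _ h
      rw [← hτ] at h1
      have h2 := (mem_ty1 (n := n) hTs (p ^ M) k).2 h1
      rw [hκ₂]
      exact hto hMr₂ p _ (pt_mu hlex hn0 hc hTs x.2 hr₂ k _ h2)
    · intro x k p h
      have h1 := hm1 _ _ _ _ h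
      rw [← hs] at h1
      have h2 := (mem_ty1 (n := n) has (p ^ M) k).2 h1
      rw [hμ₁]
      exact hto hMr₁ p _ (pt_mu hlex hn0 hc has x.2 hr₁ k _ h2)
    · intro x k p h
      have h1 := hm1 _ _ _ _ h
      rw [← hs] at h1
      have h2 := (mem_ty1 (n := n) has (p ^ M) k).2 h1
      rw [hμ₂]
      exact hto hMr₂ p _ (pt_mu hlex hn0 hc has x.2 hr₂ k _ h2)
    · intro x k l p h
      have h1 := hm2 _ _ (comm_a_a3 D) _ _ _ _ h
      rw [← hs, ← ht] at h1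
      have h2 := (mem_ty2 (n := n) has ha3 (p ^ M) k l).2 h1
      have h3 := pt_al hlex hn0 hc c_st has ha3 x.2 hr₁ h0₁ k l _ h2
      rw [hμB₁, hμ₁, hη, sub_sub_cancel, sub_sub]
      rw [sub_sub] at h3
      exact hto hMr₁ p _ h3
    · intro x k l p h
      have h1 := hm2 _ _ (comm_a_a3 D) _ _ _ _ h
      rw [← hs, ← ht] at h1
      have h2 := (mem_ty2 (n := n) has ha3 (p ^ M) k l).2 h1
      have h3 := pt_be hlex hn0 hc c_st has ha3 x.2 hr₂ h0₂ k l _ h2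
      rw [hμB₂, hμ₂, hζ, sub_sub_cancel, sub_sub]
      rw [sub_sub] at h3
      exact hto hMr₂ p _ h3
    · intro x k l p h
      have h1 := hm2 _ _ (comm_a_T D) _ _ _ _ h
      rw [← hs, ← hτ] at h1
      have h2 := (mem_ty2 (n := n) has hTs (p ^ M) k l).2 h1
      have h3 := pt_bf hlex hn0 hc c_sτ has hTs x.2 hr₁ h0₁ (mu R n r₁ (ty1 n i q τ x)) k l _ h2
      rw [hμ₁, hδ, hκ₁, add_sub_cancel, sub_sub]
      rw [sub_sub] at h3
      exact hto hMr₁ p _ h3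
    · intro x k l p h
      have h1 := hm2 _ _ (comm_a_T D) _ _ _ _ h
      rw [← hs, ← hτ] at h1
      have h2 := (mem_ty2 (n := n) has hTs (p ^ M) k l).2 h1
      have h3 := pt_al hlex hn0 hc c_sτ has hTs x.2 hr₂ h0₂ k l _ h2
      rw [hm, hκ₂, sub_sub]
      rw [sub_sub] at h3
      exact hto hMr₂ p _ h3
  have hσall : ∀ F ∈ ({κ₁, κ₂, μ₁, μ₂, η, ζ, δ, m} : Set (Gd q → ℚ)), ∀ x, F (σ' x) = F x := by
    intro F hF x
    have hw1 : ∀ g x, σ (i g x) = i g (σ x) := fun g x => (hXa.sg g x).symm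
    apply hall _ _ _ _ _ _ _ F hF
    · rw [σc, ty1_perm hw1 hσq]
    · rw [σc, ty1_perm hw1 hσq]
    · rw [σc, ty1_perm hw1 hσq]
    · rw [σc, ty2_perm hw1 hσq]
    · rw [σc, ty2_perm hw1 hσq]
  classical
  rw [hR] at hr₁ hr₂ hFm
  have hfin := hxsg ℓ Γ Q (Gd q) D i' q' q₀ σ' (hP.to_subgroup Q)
    (by
      intro g p x
      apply Subtype.ext
      rw [ic, qc, qc, ic, hc])
    (by
      intro g x
      apply Subtype.ext
      rw [ic, σc, σc, ic, hXa.sg])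
    (by
      intro p x
      apply Subtype.ext
      rw [qc, σc, σc, qc, hXa.sq])
    hcop
    (by
      ext x
      rw [ic, hXa.ts, Equiv.Perm.mul_apply, Equiv.Perm.mul_apply, qc, σc])
    (by
      intro p x h
      apply x.2
      rw [← qc, h])
    (fun p => r₁ p) (fun p => r₂ p)
    (by
      intro p p'
      show r₁ ((p * p' : Q) : P) - r₁ p - r₁ p' ∈ _
      rw [Subgroup.coe_mul]
      exact hr₁ _ _)
    (by
      intro p p'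
      show r₂ ((p * p' : Q) : P) - r₂ p - r₂ p' ∈ _
      rw [Subgroup.coe_mul]
      exact hr₂ _ _)
    κ₁ κ₂ μ₁ μ₂ η ζ δ m hFm hσall
  rw [hR]
  refine (congrArg (· ∈ Rl ℓ) ?_).mp hfin
  congr 1
  rw [Finset.sum_subtype (Finset.univ.filter (· ∈ Gd q)) (p := fun x => x ∈ Gd q) (by
    intro x
    simp)]
  apply Finset.sum_congr rfl
  intro x _
  have hPsi : Psi R n r₁ r₂ p₀ (ty2 n i q s τ (x : X)) =
      Psi' R n r₁ r₂ p₀ (ty2 n i q s τ (x : X)) := by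
    unfold Psi
    rw [if_pos]
    intro l p hp
    rw [Lt_ty2 has hTs] at hp ⊢
    rw [← hR] at hr₁
    exact pt_mu hlex hn0 hc hTs x.2 hr₁ l p hp
  rw [hR] at hPsi
  rw [hPsi]
  unfold Phi Psi'
  rw [Ls_ty2 has ha3, Lt_ty2 has ha3, Ls_ty2 has hTs, Lt_ty2 has hTs, hμB₁, hμB₂, hκ₁, hκ₂,
    hμ₁, hμ₂, hη, hζ, hδ, hm, hq₀, hR]
  ring

end Pool.Agent.SOR.H66E
end
end -- Pool.Agent.Helper66_ASE.UNX

section -- Pool.Agent.Helper66_ASE.RTE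

/-!
# Squad ASE, block R: the relation for the triples, for all labels at the same time
-/

set_option autoImplicit false
set_option linter.unusedSectionVars false

open scoped BigOperators

noncomputable section

namespace Pool.Agent.PP.SE.H66

open Pool.Agent.Helper51_AWC Pool.Agent.Helper79_WRA Pool.Agent.PP Pool.Agent.PP.KF
open Pool.Agent.PP.K9 Pool.Agent.PP.K9.H97 Pool.Agent.PP.H75 Pool.Agent.PP.T3
open Pool.Agent.PP.SO Pool.Agent.PP.SO.H70 Pool.Agent.PP.SD.H32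
open Pool.Agent.SOR.H32 (Phi Psi al be bf Ls Lt mu_one mu_zero mu_Ls mu_Lt al_zero be_zero
  al_spec bf_spec bf_nu)
open Pool.Agent.SOR.H66E (Ps0 Mf Cd psi_eq)

/-- the number of a set of elements of `Z × P` -/
abbrev mu {P : Type} [CommGroup P] (R : Subring ℚ) (n : ℕ) (r : P → ℚ)
    (U : Set (SOR.L1 n P)) : ℚ := SOR.H32.mu R n r U

section vals

variable {P : Type} [CommGroup P] {R : Subring ℚ} {n : ℕ} {r₁ r₂ : P → ℚ}

theorem ps0_pos {Λ : Set (SOR.L2 n P)} (h : Cd R n r₁ Λ) : Ps0 R n r₁ r₂ Λ =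
    -((mu R n r₂ (Ls n Λ) - al R n r₂ (mu R n r₂ (Lt n Λ)) Λ) *
      (bf R n r₁ (mu R n r₁ (Ls n Λ)) (mu R n r₁ (Lt n Λ)) Λ - mu R n r₁ (Lt n Λ))) -
      mu R n r₁ (Lt n Λ) * mu R n r₂ (Ls n Λ) - mu R n r₁ (Ls n Λ) * mu R n r₂ (Lt n Λ) := by
  unfold Ps0
  rw [if_pos h]

theorem mf_pos {r : P → ℚ} {Λ : Set (SOR.L2 n P)} (h : Cd R n r₁ Λ) :
    Mf R n r₁ r Λ = mu R n r (Ls n Λ) := by
  unfold Mf
  rw [if_pos h]

theorem mf_zero {r : P → ℚ} {Λ : Set (SOR.L2 n P)} (h : mu R n r (Ls n Λ) = 0) :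
    Mf R n r₁ r Λ = 0 := by
  unfold Mf
  split_ifs
  · exact h
  · rfl

/-- the value of `Ps0` if `bf` is the second number -/
theorem ps0_bf {Λ : Set (SOR.L2 n P)} (h : Cd R n r₁ Λ) (h0 : ∀ p, r₁ p ∈ R → r₁ p = 0)
    (hb : ∀ (k l : ℤ) (p : P), (Multiplicative.ofAdd (k : ZMod n),
      Multiplicative.ofAdd (l : ZMod n), p) ∈ Λ →
      r₁ p - k * mu R n r₁ (Ls n Λ) - l * mu R n r₁ (Lt n Λ) ∈ R) :
    Ps0 R n r₁ r₂ Λ =
      - (mu R n r₁ (Lt n Λ) * mu R n r₂ (Ls n Λ) + mu R n r₁ (Ls n Λ) * mu R n r₂ (Lt n Λ)) := by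
  have e : bf R n r₁ (mu R n r₁ (Ls n Λ)) (mu R n r₁ (Lt n Λ)) Λ = mu R n r₁ (Lt n Λ) :=
    bf_nu (fun h1 => mu_Lt h0 h1) hb
  rw [ps0_pos h, e]
  ring

end vals

/-- RTE -/
theorem rte (hlex : SOR.LexStmt) (hxsg : SOR.XsgStmt) (hBrx : SOR.BrxStmt)
    (ℓ : ℕ) [Fact ℓ.Prime] (V₀ : Type) [CommGroup V₀] [Finite V₀]
    (hexp : ∀ v : V₀, v ^ ℓ = 1) (n : ℕ) (ρ₁ ρ₂ : V₀ → ZMod ℓ) (hn : ∃ r, 0 < r ∧ n = ℓ ^ r)
    (hρ₁ : Hm ρ₁) (hρ₂ : Hm ρ₂) (x₁ x₂ : V₀ → ℤ) (hx₁ : Lf ρ₁ x₁) (hx₂ : Lf ρ₂ x₂) :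
    ∃ (F₁₃ Ψ M₁ M₂ : Set (SO.SS n V₀) → ℚ) (K : Set (Fin n × V₀ × V₀) → ℚ),
      FE ℓ n ρ₁ ρ₂ x₁ x₂ F₁₃ Ψ M₁ M₂ K ∧
      ∀ (kc kd : V₀) (G : Type) [Group G] [Finite G] (m : ℕ) (ι : V₀ →* G),
        Function.Injective ι → PE ℓ n m G →
        Rel ℓ n m ι kc kd F₁₃ (F12 ℓ x₁ x₂ Ψ M₁ M₂ K kc kd) := by
  classical
  obtain ⟨r, hr, hnr⟩ := hn
  have hp : ℓ.Prime := Fact.out
  have hp0 : (ℓ : ℚ) ≠ 0 := by exact_mod_cast hp.ne_zero
  have hn1 : 1 < n := by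
    rw [hnr]
    exact Nat.one_lt_pow hr.ne' hp.one_lt
  have hln : ℓ ∣ n := by
    rw [hnr]
    exact dvd_pow_self _ hr.ne'
  have hpg : IsPGroup ℓ (V₀ × V₀) := fun v => ⟨1, by
    rw [pow_one]
    exact Prod.ext (hexp _) (hexp _)⟩
  obtain ⟨r₁, hr₁⟩ : ∃ r₁ : V₀ × V₀ → ℚ, r₁ = fun p => (x₁ p.1 : ℚ) / ℓ := ⟨_, rfl⟩
  obtain ⟨r₂, hr₂⟩ : ∃ r₂ : V₀ × V₀ → ℚ, r₂ = fun p => (x₂ p.2 : ℚ) / ℓ := ⟨_, rfl⟩
  have hrel := SOR.H66E.rel hlex hxsg ℓ r (V₀ × V₀) hpg r₁ r₂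
    (fun p p' => by rw [hr₁]; exact lf_add hρ₁ hx₁ _ _)
    (fun p p' => by rw [hr₂]; exact lf_add hρ₂ hx₂ _ _)
    (fun p => by rw [hr₁]; exact lf_pow hr _) (fun p => by rw [hr₂]; exact lf_pow hr _)
    (fun p h => by rw [hr₁] at h ⊢; exact lf_zero hx₁ _ h)
    (fun p h => by rw [hr₂] at h ⊢; exact lf_zero hx₂ _ h)
  have h0₁ : ∀ p, r₁ p ∈ SOR.Rl ℓ → r₁ p = 0 := fun p h => by
    rw [hr₁] at h ⊢
    exact lf_zero hx₁ _ h
  have h0₂ : ∀ p, r₂ p ∈ SOR.Rl ℓ → r₂ p = 0 := fun p h => by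
    rw [hr₂] at h ⊢
    exact lf_zero hx₂ _ h
  rw [← hnr] at hrel
  have hz : ∀ v : V₀ × V₀, ρ₁ v.1 = 0 → r₁ v ∈ SOR.Rl ℓ := fun v h => by
    rw [hr₁]
    exact (lf_mem hx₁ v.1).2 h
  have hz' : ∀ v : V₀ × V₀, ρ₂ v.2 = 0 → r₂ v ∈ SOR.Rl ℓ := fun v h => by
    rw [hr₂]
    exact (lf_mem hx₂ v.2).2 h
  have hone1 : ρ₁ 1 = 0 := by
    have h2 := hm_pow hρ₁ 1 0
    rwa [pow_zero, Nat.cast_zero, zero_mul] at h2
  have hone2 : ρ₂ 1 = 0 := by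
    have h2 := hm_pow hρ₂ 1 0
    rwa [pow_zero, Nat.cast_zero, zero_mul] at h2
  refine ⟨fun τ => if Fre τ then -12 * Phi (SOR.Rl ℓ) n r₁ r₂ (tr2 '' τ) else 0,
    fun τ => Ps0 (SOR.Rl ℓ) n r₁ r₂ (tr2 '' τ), fun τ => Mf (SOR.Rl ℓ) n r₁ r₁ (tr2 '' τ),
    fun τ => Mf (SOR.Rl ℓ) n r₁ r₂ (tr2 '' τ),
    fun U => mu (SOR.Rl ℓ) n r₁ (tr1 '' U) * mu (SOR.Rl ℓ) n r₂ (tr1 '' U), ?_, ?_⟩
  · constructor
    · intro τ h
      change (if Fre τ then -12 * Phi (SOR.Rl ℓ) n r₁ r₂ (tr2 '' τ) else 0) = 0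
      have h1 : Phi (SOR.Rl ℓ) n r₁ r₂ (tr2 '' τ) = 0 := by
        unfold Phi
        rcases h with h | h
        · have h2 : ∀ g ∈ (tr2 '' τ : Set (SOR.L2 n (V₀ × V₀))), r₁ g.2.2 ∈ SOR.Rl ℓ := by
            rintro _ ⟨s, hs, rfl⟩
            exact hz _ (h s hs)
          rw [mu_Ls h0₁ h2, mu_Lt h0₁ h2, al_zero h2]
          ring
        · have h2 : ∀ g ∈ (tr2 '' τ : Set (SOR.L2 n (V₀ × V₀))), r₂ g.2.2 ∈ SOR.Rl ℓ := by
            rintro _ ⟨s, hs, rfl⟩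
            exact hz' _ (h s hs)
          rw [mu_Ls h0₂ h2, mu_Lt h0₂ h2, be_zero h2]
          ring
      rw [h1, mul_zero, ite_self]
    · intro U h
      change mu (SOR.Rl ℓ) n r₁ (tr1 '' U) * mu (SOR.Rl ℓ) n r₂ (tr1 '' U) = 0
      rcases h with h | h
      · have h2 : mu (SOR.Rl ℓ) n r₁ (tr1 '' U) = 0 := by
          refine mu_zero h0₁ ?_
          rintro _ ⟨u, hu, rfl⟩
          exact hz _ (h u hu)
        rw [h2, zero_mul]
      · have h2 : mu (SOR.Rl ℓ) n r₂ (tr1 '' U) = 0 := by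
          refine mu_zero h0₂ ?_
          rintro _ ⟨u, hu, rfl⟩
          exact hz' _ (h u hu)
        rw [h2, mul_zero]
    · intro U κ₁ κ₂ h1 h2
      change mu (SOR.Rl ℓ) n r₁ (tr1 '' U) * mu (SOR.Rl ℓ) n r₂ (tr1 '' U) = _
      have h3 : ∀ p', (Multiplicative.ofAdd (1 : ZMod n), p') ∈
          (tr1 '' U : Set (SOR.L1 n (V₀ × V₀))) ↔ p' = (κ₁, κ₂) := by
        intro p'
        constructor
        · rintro ⟨u, hu, he⟩
          have h3 := Prod.ext_iff.1 he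
          have h4 : ((u.1 : ℕ) : ZMod n) = 1 := Multiplicative.ofAdd.injective h3.1
          have h5 := h2 u hu ((fin_one hn1 _).1 h4)
          have h6 : u.2 = p' := h3.2
          rw [← h6, h5]
        · rintro rfl
          obtain ⟨u, hu, hu1⟩ := h1
          refine ⟨u, hu, ?_⟩
          unfold tr1
          rw [h2 u hu hu1, (fin_one hn1 _).2 hu1]
      rw [mu, mu, mu_one h3, mu_one h3, hr₁, hr₂]
      push_cast
      field_simp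
    · intro τ _ h
      change Ps0 (SOR.Rl ℓ) n r₁ r₂ (tr2 '' τ) = 0 ∧ Mf (SOR.Rl ℓ) n r₁ r₁ (tr2 '' τ) = 0 ∧
        Mf (SOR.Rl ℓ) n r₁ r₂ (tr2 '' τ) = 0
      have h1 : ∀ g ∈ (tr2 '' τ : Set (SOR.L2 n (V₀ × V₀))), r₁ g.2.2 ∈ SOR.Rl ℓ := by
        rintro _ ⟨s, hs, rfl⟩
        exact hz _ (h s hs).1
      have h2 : ∀ g ∈ (tr2 '' τ : Set (SOR.L2 n (V₀ × V₀))), r₂ g.2.2 ∈ SOR.Rl ℓ := by
        rintro _ ⟨s, hs, rfl⟩
        exact hz' _ (h s hs).2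
      refine ⟨?_, mf_zero (mu_Ls h0₁ h1), mf_zero (mu_Ls h0₂ h2)⟩
      unfold Ps0
      split_ifs
      · rw [mu_Ls h0₂ h2, mu_Lt h0₂ h2, al_zero h2, mu_Ls h0₁ h1]
        ring
      · rfl
    · intro τ _ h h'
      change Ps0 (SOR.Rl ℓ) n r₁ r₂ (tr2 '' τ) = 0 ∧ Mf (SOR.Rl ℓ) n r₁ r₁ (tr2 '' τ) = 0 ∧
        Mf (SOR.Rl ℓ) n r₁ r₂ (tr2 '' τ) = 0
      have hs1 : ∀ g ∈ Ls n (tr2 '' τ : Set (SOR.L2 n (V₀ × V₀))),
          r₁ g.2 ∈ SOR.Rl ℓ ∧ r₂ g.2 ∈ SOR.Rl ℓ := by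
        rintro g ⟨s, hs, he⟩
        have h3 := Prod.ext_iff.1 he
        have h4 := Prod.ext_iff.1 h3.2
        have h5 : ((s.2.1 : ℕ) : ZMod n) = 0 := Multiplicative.ofAdd.injective h4.1
        have h6 := h' s hs ((fin_zero _).1 h5)
        have h7 : s.2.2 = g.2 := h4.2
        rw [← h7]
        exact ⟨hz _ h6.1, hz' _ h6.2⟩
      have e1 : mu (SOR.Rl ℓ) n r₁ (Ls n (tr2 '' τ)) = 0 := mu_zero h0₁ fun g hg => (hs1 g hg).1
      have e2 : mu (SOR.Rl ℓ) n r₂ (Ls n (tr2 '' τ)) = 0 := mu_zero h0₂ fun g hg => (hs1 g hg).2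
      refine ⟨?_, mf_zero e1, mf_zero e2⟩
      by_cases hL : Cd (SOR.Rl ℓ) n r₁ (tr2 '' τ : Set (SOR.L2 n (V₀ × V₀)))
      · rw [ps0_bf hL h0₁, e1, e2]
        · ring
        · rintro k l p ⟨s, hs, he⟩
          obtain ⟨s', hs', h0, he'⟩ := h s hs
          rw [e1, mul_zero, sub_zero]
          refine hL l p ⟨s', hs', ?_⟩
          have h3 := Prod.ext_iff.1 he
          unfold tr2
          rw [h0, he', Nat.cast_zero]
          exact Prod.ext rfl h3.2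
      · unfold Ps0
        rw [if_neg hL]
    · intro p₁ q₁ p₂ q₂
      obtain ⟨τ, hτ⟩ : ∃ τ : Set (SO.SS n V₀), τ = {s | s.2.2.1 = p₁ ^ (s.1 : ℕ) *
        p₂ ^ (s.2.1 : ℕ) ∧ s.2.2.2 = q₁ ^ (s.1 : ℕ) * q₂ ^ (s.2.1 : ℕ)} := ⟨_, rfl⟩
      rw [← hτ]
      change Ps0 (SOR.Rl ℓ) n r₁ r₂ (tr2 '' τ) = _ ∧ Mf (SOR.Rl ℓ) n r₁ r₁ (tr2 '' τ) = _ ∧
        Mf (SOR.Rl ℓ) n r₁ r₂ (tr2 '' τ) = _
      have hs1 : ∀ p', (Multiplicative.ofAdd (1 : ZMod n), p') ∈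
          Ls n (tr2 '' τ : Set (SOR.L2 n (V₀ × V₀))) ↔ p' = (p₁, q₁) := by
        intro p'
        constructor
        · rintro ⟨s, hs, he⟩
          have h3 := Prod.ext_iff.1 he
          have h4 := Prod.ext_iff.1 h3.2
          have h5 : ((s.1 : ℕ) : ZMod n) = 1 := Multiplicative.ofAdd.injective h3.1
          have h6 : ((s.2.1 : ℕ) : ZMod n) = 0 := Multiplicative.ofAdd.injective h4.1
          have h7 : s.2.2 = p' := h4.2
          rw [hτ] at hs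
          obtain ⟨h8, h9⟩ := hs
          rw [(fin_one hn1 _).1 h5, (fin_zero _).1 h6, pow_one, pow_zero, mul_one] at h8 h9
          rw [← h7]
          exact Prod.ext h8 h9
        · rintro rfl
          refine ⟨(⟨1, hn1⟩, ⟨0, by omega⟩, p₁, q₁), ?_, ?_⟩
          · rw [hτ]
            constructor
            · show p₁ = p₁ ^ 1 * p₂ ^ 0
              rw [pow_one, pow_zero, mul_one]
            · show q₁ = q₁ ^ 1 * q₂ ^ 0
              rw [pow_one, pow_zero, mul_one]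
          · unfold tr2
            show (Multiplicative.ofAdd ((1 : ℕ) : ZMod n), Multiplicative.ofAdd ((0 : ℕ) : ZMod n),
              (p₁, q₁)) = _
            rw [Nat.cast_one, Nat.cast_zero]
            rfl
      have ht1 : ∀ p', (Multiplicative.ofAdd (1 : ZMod n), p') ∈
          Lt n (tr2 '' τ : Set (SOR.L2 n (V₀ × V₀))) ↔ p' = (p₂, q₂) := by
        intro p'
        constructor
        · rintro ⟨s, hs, he⟩
          have h3 := Prod.ext_iff.1 he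
          have h4 := Prod.ext_iff.1 h3.2
          have h5 : ((s.1 : ℕ) : ZMod n) = 0 := Multiplicative.ofAdd.injective h3.1
          have h6 : ((s.2.1 : ℕ) : ZMod n) = 1 := Multiplicative.ofAdd.injective h4.1
          have h7 : s.2.2 = p' := h4.2
          rw [hτ] at hs
          obtain ⟨h8, h9⟩ := hs
          rw [(fin_zero _).1 h5, (fin_one hn1 _).1 h6, pow_one, pow_zero, one_mul] at h8 h9
          rw [← h7]
          exact Prod.ext h8 h9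
        · rintro rfl
          refine ⟨(⟨0, by omega⟩, ⟨1, hn1⟩, p₂, q₂), ?_, ?_⟩
          · rw [hτ]
            constructor
            · show p₂ = p₁ ^ 0 * p₂ ^ 1
              rw [pow_one, pow_zero, one_mul]
            · show q₂ = q₁ ^ 0 * q₂ ^ 1
              rw [pow_one, pow_zero, one_mul]
          · unfold tr2
            show (Multiplicative.ofAdd ((0 : ℕ) : ZMod n), Multiplicative.ofAdd ((1 : ℕ) : ZMod n),
              (p₂, q₂)) = _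
            rw [Nat.cast_one, Nat.cast_zero]
            rfl
      have m1 : mu (SOR.Rl ℓ) n r₁ (Ls n (tr2 '' τ)) = (x₁ p₁ : ℚ) / ℓ := by
        rw [mu, mu_one hs1, hr₁]
      have m2 : mu (SOR.Rl ℓ) n r₂ (Ls n (tr2 '' τ)) = (x₂ q₁ : ℚ) / ℓ := by
        rw [mu, mu_one hs1, hr₂]
      have m3 : mu (SOR.Rl ℓ) n r₁ (Lt n (tr2 '' τ)) = (x₁ p₂ : ℚ) / ℓ := by
        rw [mu, mu_one ht1, hr₁]
      have m4 : mu (SOR.Rl ℓ) n r₂ (Lt n (tr2 '' τ)) = (x₂ q₂ : ℚ) / ℓ := by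
        rw [mu, mu_one ht1, hr₂]
      have hcg : ∀ (k l : ℤ) (p : V₀ × V₀), (Multiplicative.ofAdd (k : ZMod n),
          Multiplicative.ofAdd (l : ZMod n), p) ∈ (tr2 '' τ : Set (SOR.L2 n (V₀ × V₀))) →
          r₁ p - k * ((x₁ p₁ : ℚ) / ℓ) - l * ((x₁ p₂ : ℚ) / ℓ) ∈ SOR.Rl ℓ := by
        rintro k l p ⟨s, hs, he⟩
        have h3 := Prod.ext_iff.1 he
        have h4 := Prod.ext_iff.1 h3.2
        have h5 : ((s.1 : ℕ) : ZMod n) = k := Multiplicative.ofAdd.injective h3.1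
        have h6 : ((s.2.1 : ℕ) : ZMod n) = l := Multiplicative.ofAdd.injective h4.1
        have h7 : s.2.2 = p := h4.2
        have hk' : ((s.1 : ℕ) : ZMod ℓ) = (k : ZMod ℓ) := by
          have h := cast_dvd (a := ((s.1 : ℕ) : ℤ)) (b := k) hln (by
            rw [Int.cast_natCast]
            exact h5)
          rwa [Int.cast_natCast] at h
        have hl' : ((s.2.1 : ℕ) : ZMod ℓ) = (l : ZMod ℓ) := by
          have h := cast_dvd (a := ((s.2.1 : ℕ) : ℤ)) (b := l) hln (by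
            rw [Int.cast_natCast]
            exact h6)
          rwa [Int.cast_natCast] at h
        rw [hτ] at hs
        rw [← h7, hr₁]
        have e : (x₁ s.2.2.1 : ℚ) / ℓ - k * ((x₁ p₁ : ℚ) / ℓ) - l * ((x₁ p₂ : ℚ) / ℓ) =
            ((x₁ s.2.2.1 - k * x₁ p₁ - l * x₁ p₂ : ℤ) : ℚ) / ℓ := by
          push_cast
          ring
        show (x₁ s.2.2.1 : ℚ) / ℓ - k * ((x₁ p₁ : ℚ) / ℓ) - l * ((x₁ p₂ : ℚ) / ℓ) ∈ SOR.Rl ℓ
        rw [e, div_mem_iff]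
        push_cast
        rw [(hx₁ _).1, (hx₁ _).1, (hx₁ _).1, hs.1, hρ₁, hm_pow hρ₁, hm_pow hρ₁, hk', hl']
        ring
      have hL : Cd (SOR.Rl ℓ) n r₁ (tr2 '' τ : Set (SOR.L2 n (V₀ × V₀))) := by
        intro l p hlp
        have h := hcg 0 l p (by
          rw [Int.cast_zero]
          exact hlp)
        rw [Int.cast_zero, zero_mul, sub_zero] at h
        rw [show SOR.H32.mu (SOR.Rl ℓ) n r₁ (Lt n (tr2 '' τ)) = (x₁ p₂ : ℚ) / ℓ from m3]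
        exact h
      rw [ps0_bf hL h0₁ (by rw [m1, m3]; exact hcg), mf_pos hL, mf_pos hL, m1, m2, m3, m4]
      refine ⟨?_, rfl, rfl⟩
      push_cast
      field_simp
    · intro p₁ q₁
      obtain ⟨τ, hτ⟩ : ∃ τ : Set (SO.SS n V₀), τ = {s | ℓ ∣ (s.2.1 : ℕ) ∧
        s.2.2.1 = p₁ ^ (s.1 : ℕ) ∧ s.2.2.2 = q₁ ^ (s.1 : ℕ)} := ⟨_, rfl⟩
      rw [← hτ]
      change Ps0 (SOR.Rl ℓ) n r₁ r₂ (tr2 '' τ) = _ ∧ Mf (SOR.Rl ℓ) n r₁ r₁ (tr2 '' τ) = _ ∧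
        Mf (SOR.Rl ℓ) n r₁ r₂ (tr2 '' τ) = _
      have hs1 : ∀ p', (Multiplicative.ofAdd (1 : ZMod n), p') ∈
          Ls n (tr2 '' τ : Set (SOR.L2 n (V₀ × V₀))) ↔ p' = (p₁, q₁) := by
        intro p'
        constructor
        · rintro ⟨s, hs, he⟩
          have h3 := Prod.ext_iff.1 he
          have h4 := Prod.ext_iff.1 h3.2
          have h5 : ((s.1 : ℕ) : ZMod n) = 1 := Multiplicative.ofAdd.injective h3.1
          have h7 : s.2.2 = p' := h4.2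
          rw [hτ] at hs
          obtain ⟨_, h8, h9⟩ := hs
          rw [(fin_one hn1 _).1 h5, pow_one] at h8 h9
          rw [← h7]
          exact Prod.ext h8 h9
        · rintro rfl
          refine ⟨(⟨1, hn1⟩, ⟨0, by omega⟩, p₁, q₁), ?_, ?_⟩
          · rw [hτ]
            refine ⟨dvd_zero _, ?_, ?_⟩
            · show p₁ = p₁ ^ 1
              rw [pow_one]
            · show q₁ = q₁ ^ 1
              rw [pow_one]
          · unfold tr2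
            show (Multiplicative.ofAdd ((1 : ℕ) : ZMod n), Multiplicative.ofAdd ((0 : ℕ) : ZMod n),
              (p₁, q₁)) = _
            rw [Nat.cast_one, Nat.cast_zero]
            rfl
      have ht1 : ∀ g ∈ Lt n (tr2 '' τ : Set (SOR.L2 n (V₀ × V₀))), g.2 = 1 := by
        rintro g ⟨s, hs, he⟩
        have h3 := Prod.ext_iff.1 he
        have h4 := Prod.ext_iff.1 h3.2
        have h5 : ((s.1 : ℕ) : ZMod n) = 0 := Multiplicative.ofAdd.injective h3.1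
        have h7 : s.2.2 = g.2 := h4.2
        rw [hτ] at hs
        obtain ⟨_, h8, h9⟩ := hs
        rw [(fin_zero _).1 h5, pow_zero] at h8 h9
        rw [← h7]
        exact Prod.ext h8 h9
      have m1 : mu (SOR.Rl ℓ) n r₁ (Ls n (tr2 '' τ)) = (x₁ p₁ : ℚ) / ℓ := by
        rw [mu, mu_one hs1, hr₁]
      have m2 : mu (SOR.Rl ℓ) n r₂ (Ls n (tr2 '' τ)) = (x₂ q₁ : ℚ) / ℓ := by
        rw [mu, mu_one hs1, hr₂]
      have m3 : mu (SOR.Rl ℓ) n r₁ (Lt n (tr2 '' τ)) = 0 := mu_zero h0₁ fun g hg => by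
        rw [ht1 g hg]
        exact hz 1 hone1
      have m4 : mu (SOR.Rl ℓ) n r₂ (Lt n (tr2 '' τ)) = 0 := mu_zero h0₂ fun g hg => by
        rw [ht1 g hg]
        exact hz' 1 hone2
      have hcg : ∀ (k l : ℤ) (p : V₀ × V₀), (Multiplicative.ofAdd (k : ZMod n),
          Multiplicative.ofAdd (l : ZMod n), p) ∈ (tr2 '' τ : Set (SOR.L2 n (V₀ × V₀))) →
          r₁ p - k * ((x₁ p₁ : ℚ) / ℓ) - l * 0 ∈ SOR.Rl ℓ := by
        rintro k l p ⟨s, hs, he⟩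
        have h3 := Prod.ext_iff.1 he
        have h4 := Prod.ext_iff.1 h3.2
        have h5 : ((s.1 : ℕ) : ZMod n) = k := Multiplicative.ofAdd.injective h3.1
        have h7 : s.2.2 = p := h4.2
        have hk' : ((s.1 : ℕ) : ZMod ℓ) = (k : ZMod ℓ) := by
          have h := cast_dvd (a := ((s.1 : ℕ) : ℤ)) (b := k) hln (by
            rw [Int.cast_natCast]
            exact h5)
          rwa [Int.cast_natCast] at h
        rw [hτ] at hs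
        rw [← h7, hr₁]
        have e : (x₁ s.2.2.1 : ℚ) / ℓ - k * ((x₁ p₁ : ℚ) / ℓ) - l * 0 =
            ((x₁ s.2.2.1 - k * x₁ p₁ : ℤ) : ℚ) / ℓ := by
          push_cast
          ring
        show (x₁ s.2.2.1 : ℚ) / ℓ - k * ((x₁ p₁ : ℚ) / ℓ) - l * 0 ∈ SOR.Rl ℓ
        rw [e, div_mem_iff]
        push_cast
        rw [(hx₁ _).1, (hx₁ _).1, hs.2.1, hm_pow hρ₁, hk']
        ring
      have hL : Cd (SOR.Rl ℓ) n r₁ (tr2 '' τ : Set (SOR.L2 n (V₀ × V₀))) := by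
        intro l p hlp
        rw [show SOR.H32.mu (SOR.Rl ℓ) n r₁ (Lt n (tr2 '' τ)) = 0 from m3, mul_zero, sub_zero]
        have h := ht1 _ hlp
        have h' : p = 1 := h
        rw [h']
        exact hz 1 hone1
      rw [ps0_bf hL h0₁ (by rw [m1, m3]; exact hcg), mf_pos hL, mf_pos hL, m1, m2, m3, m4]
      refine ⟨?_, rfl, rfl⟩
      ring
    · intro p q i₀ hi
      change (ℓ : ℚ) ^ 2 * Ps0 (SOR.Rl ℓ) n r₁ r₂ (tr2 '' (tN n ℓ p q i₀)) ∈ SOR.Rl ℓ ∧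
        Mf (SOR.Rl ℓ) n r₁ r₁ (tr2 '' (tN n ℓ p q i₀)) = 0 ∧
        Mf (SOR.Rl ℓ) n r₁ r₂ (tr2 '' (tN n ℓ p q i₀)) = 0
      have hsl : ∀ g ∈ (tr2 '' (tN n ℓ p q i₀) : Set (SOR.L2 n (V₀ × V₀))),
          g.1 = 1 ∨ g.2.1 = 1 → g.2.2 = 1 := by
        rintro _ ⟨s, hs, rfl⟩ h
        have h1 : s.2.2.1 = 1 ∧ s.2.2.2 = 1 := by
          refine tN_one hexp hi hs ?_
          rcases h with h | h
          · exact Or.inl ((fin_zero _).1 (Multiplicative.ofAdd.injective h))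
          · exact Or.inr ((fin_zero _).1 (Multiplicative.ofAdd.injective h))
        exact Prod.ext h1.1 h1.2
      have hls : ∀ g ∈ Ls n (tr2 '' (tN n ℓ p q i₀) : Set (SOR.L2 n (V₀ × V₀))), g.2 = 1 :=
        fun g hg => hsl (g.1, 1, g.2) hg (Or.inr rfl)
      have hlt : ∀ g ∈ Lt n (tr2 '' (tN n ℓ p q i₀) : Set (SOR.L2 n (V₀ × V₀))), g.2 = 1 :=
        fun g hg => hsl (1, g.1, g.2) hg (Or.inl rfl)
      have hmu : ∀ (U : Set (SOR.L1 n (V₀ × V₀))), (∀ g ∈ U, g.2 = 1) →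
          mu (SOR.Rl ℓ) n r₁ U = 0 ∧ mu (SOR.Rl ℓ) n r₂ U = 0 := fun U h =>
        ⟨mu_zero h0₁ fun g hg => by rw [h g hg]; exact hz 1 hone1,
          mu_zero h0₂ fun g hg => by rw [h g hg]; exact hz' 1 hone2⟩
      obtain ⟨m1, m2⟩ := hmu _ hls
      obtain ⟨m3, m4⟩ := hmu _ hlt
      refine ⟨?_, mf_zero m1, mf_zero m2⟩
      have hL : Cd (SOR.Rl ℓ) n r₁ (tr2 '' (tN n ℓ p q i₀) : Set (SOR.L2 n (V₀ × V₀))) := by
        intro l p' hlp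
        rw [show SOR.H32.mu (SOR.Rl ℓ) n r₁ (Lt n (tr2 '' (tN n ℓ p q i₀))) = 0 from m3, mul_zero,
          sub_zero]
        have h' : p' = 1 := hlt _ hlp
        rw [h']
        exact hz 1 hone1
      rw [ps0_pos hL, m1, m2, m3, m4]
      have hcg : ∀ (k l : ℤ) (v : V₀ × V₀), (Multiplicative.ofAdd (k : ZMod n),
          Multiplicative.ofAdd (l : ZMod n), v) ∈ (tr2 '' (tN n ℓ p q i₀) : Set _) →
          r₂ v - k * ((x₂ q : ℚ) / (ℓ * i₀)) ∈ SOR.Rl ℓ ∧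
            r₁ v - l * ((x₁ p : ℚ) / ℓ) ∈ SOR.Rl ℓ := by
        rintro k l v ⟨s, hs, he⟩
        have h3 := Prod.ext_iff.1 he
        have h4 := Prod.ext_iff.1 h3.2
        have h5 : s.2.2 = v := h4.2
        rw [← h5, hr₁, hr₂]
        exact tN_cong hln hρ₁ hρ₂ hx₁ hx₂ hi hs (Multiplicative.ofAdd.injective h3.1)
          (Multiplicative.ofAdd.injective h4.1)
      have ha := al_spec (R := SOR.Rl ℓ) (n := n) (r := r₂) (ν := 0)
        (Λ := (tr2 '' (tN n ℓ p q i₀) : Set (SOR.L2 n (V₀ × V₀)))) (fun _ => rfl)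
        ⟨(x₂ q : ℚ) / (ℓ * i₀), fun k l v hv => by
          rw [mul_zero, sub_zero]
          exact (hcg k l v hv).1⟩ _ _ _ (tN_pt hln hn1 p q i₀)
      have hb := bf_spec (R := SOR.Rl ℓ) (n := n) (r := r₁) (μ := 0) (ν := 0)
        (Λ := (tr2 '' (tN n ℓ p q i₀) : Set (SOR.L2 n (V₀ × V₀)))) (fun _ => rfl)
        ⟨(x₁ p : ℚ) / ℓ, fun k l v hv => by
          rw [mul_zero, sub_zero]
          exact (hcg k l v hv).2⟩ _ _ _ (tN_pt hln hn1 p q i₀)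
      obtain ⟨α, hα⟩ : ∃ α, α = al (SOR.Rl ℓ) n r₂ 0
        (tr2 '' (tN n ℓ p q i₀) : Set (SOR.L2 n (V₀ × V₀))) := ⟨_, rfl⟩
      obtain ⟨β, hβ⟩ : ∃ β, β = bf (SOR.Rl ℓ) n r₁ 0 0
        (tr2 '' (tN n ℓ p q i₀) : Set (SOR.L2 n (V₀ × V₀))) := ⟨_, rfl⟩
      rw [← hα] at ha ⊢
      rw [← hβ] at hb ⊢
      rw [mul_zero, sub_zero, hr₂] at ha
      rw [mul_zero, sub_zero, hr₁] at hb
      have ha' : (x₂ q : ℚ) / ℓ - ((i₀ : ℤ) : ℚ) * α ∈ SOR.Rl ℓ := ha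
      have hb' : (x₁ p : ℚ) / ℓ - ((1 : ℤ) : ℚ) * β ∈ SOR.Rl ℓ := hb
      rw [Int.cast_natCast] at ha'
      rw [Int.cast_one, one_mul] at hb'
      have hi0 : (i₀ : ℚ) ≠ 0 := by
        intro h
        apply hi
        have h1 : i₀ = 0 := by exact_mod_cast h
        rw [h1]
        exact dvd_zero _
      have hℓ : (ℓ : ℚ) ∈ SOR.Rl ℓ := by
        have h := int_mem (ℓ := ℓ) (ℓ : ℤ)
        rwa [Int.cast_natCast] at h
      have h1 : (ℓ : ℚ) * α ∈ SOR.Rl ℓ := by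
        have e : (ℓ : ℚ) * α = (x₂ q - ℓ * ((x₂ q : ℚ) / ℓ - i₀ * α)) * (i₀ : ℚ)⁻¹ := by
          field_simp
          ring
        rw [e]
        exact (SOR.Rl ℓ).mul_mem ((SOR.Rl ℓ).sub_mem (int_mem _) ((SOR.Rl ℓ).mul_mem hℓ ha'))
          (inv_mem_Rl hi)
      have h2 : (ℓ : ℚ) * β ∈ SOR.Rl ℓ := by
        have e : (ℓ : ℚ) * β = x₁ p - ℓ * ((x₁ p : ℚ) / ℓ - β) := by
          field_simp
          ring
        rw [e]
        exact (SOR.Rl ℓ).sub_mem (int_mem _) ((SOR.Rl ℓ).mul_mem hℓ hb')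
      have e : (ℓ : ℚ) ^ 2 * (-((0 - α) * (β - 0)) - 0 * 0 - 0 * 0) = ℓ * α * (ℓ * β) := by ring
      rw [e]
      exact (SOR.Rl ℓ).mul_mem h1 h2
  · intro c d G _ _ m ι hι hPE P Q hc hd s t hs ht hPs hQt
    obtain ⟨D, _, _, _, _, hTs, ha, ha3, hT, hV⟩ := hBrx G (ι c * s) (ι d * t)
    have hn0 : 0 < n := by omega
    obtain ⟨M, hM1, hM, hMn⟩ := exists_M hPE
    -- centralisers
    have hcomm : ∀ v w : V₀, ι v * ι w = ι w * ι v := fun v w => by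
      rw [← map_mul, ← map_mul, mul_comm]
    have hP1 : ∀ p ∈ P, ι p ∈ Subgroup.centralizer ({ι c * s} : Set G) := by
      intro p hp
      rw [Subgroup.mem_centralizer_iff]
      intro h hh
      rw [Set.mem_singleton_iff] at hh
      rw [hh, mul_assoc, ← hPs p hp, ← mul_assoc, hcomm c p, mul_assoc]
    have hQ1 : ∀ p ∈ Q, ι p ∈ Subgroup.centralizer ({ι d * t} : Set G) := by
      intro p hp
      rw [Subgroup.mem_centralizer_iff]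
      intro h hh
      rw [Set.mem_singleton_iff] at hh
      rw [hh, mul_assoc, ← hQt p hp, ← mul_assoc, hcomm d p, mul_assoc]
    have hs1 : s⁻¹ ∈ Subgroup.centralizer ({ι c * s} : Set G) := by
      refine Subgroup.inv_mem _ ?_
      rw [Subgroup.mem_centralizer_iff]
      intro h hh
      rw [Set.mem_singleton_iff] at hh
      rw [hh, ← mul_assoc, ← hPs c hc]
    have ht1 : t⁻¹ ∈ Subgroup.centralizer ({ι d * t} : Set G) := by
      refine Subgroup.inv_mem _ ?_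
      rw [Subgroup.mem_centralizer_iff]
      intro h hh
      rw [Set.mem_singleton_iff] at hh
      rw [hh, ← mul_assoc, ← hQt d hd]
    obtain ⟨q', hq', hqa, hqb, hqA, hqB, hqT⟩ :=
      hV (Subgroup.centralizer ({ι c * s} : Set G)) (Subgroup.centralizer ({ι d * t} : Set G))
        (fun v hv => (Subgroup.mem_centralizer_iff.1 hv _ rfl).symm)
        (fun v hv => (Subgroup.mem_centralizer_iff.1 hv _ rfl).symm)
    obtain ⟨θ, hθ⟩ : ∃ θ : P.prod Q →* (Subgroup.centralizer ({ι c * s} : Set G)) ×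
        (Subgroup.centralizer ({ι d * t} : Set G)),
        ∀ p, θ p = (⟨ι p.1.1, hP1 _ p.2.1⟩, ⟨ι p.1.2, hQ1 _ p.2.2⟩) :=
      ⟨{ toFun := fun p => (⟨ι p.1.1, hP1 _ p.2.1⟩, ⟨ι p.1.2, hQ1 _ p.2.2⟩)
         map_one' := by
          refine Prod.ext (Subtype.ext ?_) (Subtype.ext ?_)
          · exact map_one ι
          · exact map_one ι
         map_mul' := fun a b => by
          refine Prod.ext (Subtype.ext ?_) (Subtype.ext ?_)
          · exact map_mul ι _ _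
          · exact map_mul ι _ _ }, fun p => rfl⟩
    obtain ⟨σ, hσ⟩ : ∃ σ : Equiv.Perm (SOR.Tr G (ι c * s) (ι d * t)),
      σ = q' (⟨s⁻¹, hs1⟩, ⟨t⁻¹, ht1⟩) := ⟨_, rfl⟩
    have hq : ∀ (p : P.prod Q) z, ((q'.comp θ) p z).1 = (ι p.1.1 * z.1.1 * (ι p.1.1)⁻¹,
        ι p.1.1 * z.1.2.1 * (ι p.1.1)⁻¹, ι p.1.1 * z.1.2.2 * (ι p.1.2)⁻¹) := by
      intro p z
      rw [MonoidHom.comp_apply, hq', hθ]
    have hmem : ∀ g : Equiv.Perm (SOR.Tr G (ι c * s) (ι d * t)),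
        (∀ p z, g (q' p z) = q' p (g z)) →
        g ∈ Subgroup.centralizer (Set.range q' : Set (Equiv.Perm _)) := by
      intro g hg
      rw [Subgroup.mem_centralizer_iff]
      rintro _ ⟨p, rfl⟩
      refine Equiv.ext fun z => ?_
      exact (hg p z).symm
    obtain ⟨D', hD'⟩ : ∃ D' : SOR.Bd (Subgroup.centralizer (Set.range q' : Set (Equiv.Perm _))),
        D' = rst D _ (hmem _ hqa) (hmem _ hqb) (hmem _ hqA) (hmem _ hqB) (hmem _ hqT) :=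
      ⟨_, rfl⟩
    obtain ⟨i, hi⟩ : ∃ i : Subgroup.centralizer (Set.range q' : Set (Equiv.Perm _)) →*
        Equiv.Perm (SOR.Tr G (ι c * s) (ι d * t)), i = Subgroup.subtype _ := ⟨_, rfl⟩
    have hia : i D'.a = D.a := by rw [hi, hD']; rfl
    have hia3 : i D'.a3 = D.a3 := by
      rw [hi, hD']
      rfl
    have hiT : i D'.T = D.T := by
      rw [hi, hD']
      unfold SOR.Bd.T
      rw [map_pow, map_mul]
      rfl
    have hiTs : i D'.Ts = D.Ts := by rw [hi, hD']; rfl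
    have hicomm : ∀ g v x, i g (q' v x) = q' v (i g x) := by
      intro g v x
      have h1 := Subgroup.mem_centralizer_iff.1 g.2 (q' v) ⟨v, rfl⟩
      have h2 := Equiv.ext_iff.1 h1 x
      rw [hi]
      exact h2.symm
    have hXa : SOR.Xa ℓ D' (P.prod Q) ⟨(c⁻¹, d⁻¹), ⟨P.inv_mem hc, Q.inv_mem hd⟩⟩ i
        (q'.comp θ) σ := by
      refine ⟨?_, ?_, ?_, ?_, ?_⟩
      · intro g p x
        exact hicomm g (θ p) x
      · intro g x
        rw [hσ]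
        exact hicomm g _ x
      · intro p x
        rw [hσ, MonoidHom.comp_apply, ← Equiv.Perm.mul_apply, ← Equiv.Perm.mul_apply, ← map_mul,
          ← map_mul]
        congr 2
        rw [hθ]
        have e1 : Commute (ι p.1.1) s⁻¹ := Commute.inv_right (hPs _ p.2.1)
        have e2 : Commute (ι p.1.2) t⁻¹ := Commute.inv_right (hQt _ p.2.2)
        refine Prod.ext (Subtype.ext ?_) (Subtype.ext ?_)
        · exact e1
        · exact e2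
      · have h1 : orderOf σ ∣ orderOf s * orderOf t := by
          rw [orderOf_dvd_iff_pow_eq_one, hσ, ← map_pow]
          have h2 : ((⟨s⁻¹, hs1⟩, ⟨t⁻¹, ht1⟩) : (Subgroup.centralizer ({ι c * s} : Set G)) ×
              (Subgroup.centralizer ({ι d * t} : Set G))) ^ (orderOf s * orderOf t) = 1 := by
            refine Prod.ext (Subtype.ext ?_) (Subtype.ext ?_)
            · change (s⁻¹) ^ (orderOf s * orderOf t) = 1
              rw [inv_pow, pow_mul, pow_orderOf_eq_one, one_pow, inv_one]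
            · change (t⁻¹) ^ (orderOf s * orderOf t) = 1
              rw [inv_pow, mul_comm, pow_mul, pow_orderOf_eq_one, one_pow, inv_one]
          rw [h2, map_one]
        exact Nat.Coprime.coprime_dvd_left h1 (Nat.Coprime.mul_left hs ht)
      · rw [hiTs, hσ]
        refine Equiv.ext fun z => Subtype.ext ?_
        rw [hTs, Equiv.Perm.mul_apply, hq, hq']
        have e1 : ι c * s = s * ι c := hPs c hc
        have e2 : ι d * t = t * ι d := hQt d hd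
        have e3 : ι c⁻¹ = (ι c)⁻¹ := map_inv ι c
        have e4 : ι d⁻¹ = (ι d)⁻¹ := map_inv ι d
        simp only [e1, e2, e3, e4]
        refine Prod.ext ?_ (Prod.ext ?_ ?_)
        · simp only
          group
        · simp only
          group
        · simp only
          group
    have hone : ∀ (x : G) (k : ℤ), x ^ ((M : ℤ) * ((n : ℤ) * k)) = 1 := by
      intro x k
      rw [zpow_mul, zpow_natCast, hM, zpow_mul, zpow_natCast, hMn, one_zpow]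
    have h1a : i ((D'.a ^ M) ^ n) = 1 := by
      rw [map_pow, map_pow, hia]
      refine Equiv.ext fun z => Subtype.ext ?_
      have e : (D.a ^ M) ^ n = D.a ^ ((M : ℤ) * ((n : ℤ) * 1)) := by
        rw [mul_one, zpow_mul, zpow_natCast, zpow_natCast]
      rw [e, ha, hone, mul_one]
      rfl
    have h1a3 : i ((D'.a3 ^ M) ^ n) = 1 := by
      rw [map_pow, map_pow, hia3]
      refine Equiv.ext fun z => Subtype.ext ?_
      have e : (D.a3 ^ M) ^ n = D.a3 ^ ((M : ℤ) * ((n : ℤ) * 1)) := by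
        rw [mul_one, zpow_mul, zpow_natCast, zpow_natCast]
      rw [e, ha3, hone, one_mul, one_mul]
      rfl
    have h1T : i ((D'.T ^ M) ^ n) = 1 := by
      rw [map_pow, map_pow, hiT]
      refine Equiv.ext fun z => Subtype.ext ?_
      have e : (D.T ^ M) ^ n = D.T ^ ((M : ℤ) * ((n : ℤ) * 1)) := by
        rw [mul_one, zpow_mul, zpow_natCast, zpow_natCast]
      have e2 : -((M : ℤ) * ((n : ℤ) * 1)) = (M : ℤ) * ((n : ℤ) * (-1)) := by ring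
      rw [e, hT, e2, hone, hone, one_mul, one_mul, mul_one, mul_one]
      rfl
    have hfin : Finite (SOR.Tr G (ι c * s) (ι d * t)) :=
      Finite.of_injective (fun z => z.1) Subtype.val_injective
    have : Fintype (SOR.Tr G (ι c * s) (ι d * t)) := Fintype.ofFinite _
    have hfin' : Finite (XX (ι c * s) (ι d * t)) :=
      Finite.of_equiv _ (eX (ι c * s) (ι d * t)).symm
    have : Fintype (XX (ι c * s) (ι d * t)) := Fintype.ofFinite _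
    have hR := hrel (c⁻¹, d⁻¹) (Subgroup.centralizer (Set.range q' : Set (Equiv.Perm _)))
      (SOR.Tr G (ι c * s) (ι d * t)) D' (P.prod Q) ⟨(c⁻¹, d⁻¹), ⟨P.inv_mem hc, Q.inv_mem hd⟩⟩ rfl i
      (q'.comp θ) σ hXa M hM1 h1a h1a3 h1T
    refine ⟨_, hR, ?_⟩
    have hcard : (Nat.card (P.prod Q) : ℚ) = Nat.card P * Nat.card Q := by
      rw [Nat.card_congr (Subgroup.prodEquiv P Q).toEquiv, Nat.card_prod]
      push_cast
      ring
    have hcard0 : (Nat.card (P.prod Q) : ℚ) ≠ 0 := by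
      exact_mod_cast Nat.card_pos.ne'
    rw [← hcard, mul_div_cancel₀ _ hcard0, finsum_eq_sum_of_fintype, Finset.sum_filter]
    refine Fintype.sum_equiv (eX (ι c * s) (ι d * t)) _ _ ?_
    intro w
    obtain ⟨z, hz⟩ : ∃ z, z = eX (ι c * s) (ι d * t) w := ⟨_, rfl⟩
    have hzw : z.1 = w.1 := by rw [hz]; rfl
    rw [← hz, ← hzw]
    have i13 := img13 (P := P) (Q := Q) hn0 hq hia hia3 ha ha3 hM hMn z
    have i12 := img12 (P := P) (Q := Q) hn0 hq hia hiT ha hT hM hMn z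
    have iT := imgT (P := P) (Q := Q) hn0 hq hia hiT ha hT hM hMn z
    have f13 := free13 (P := P) (Q := Q) (m := m) hn0 hq z
    have f12 := free12 (P := P) (Q := Q) (m := m) hn0 hq z
    change (if Fre (t13 n m ι P Q (ι c * s) z.1.1 z.1.2.1 z.1.2.2) then
        -12 * Phi (SOR.Rl ℓ) n r₁ r₂ (tr2 '' (t13 n m ι P Q (ι c * s) z.1.1 z.1.2.1 z.1.2.2))
        else 0) +
      (if Fre (t12 n m ι P Q z.1.1 z.1.2.1 z.1.2.2) then
        (x₁ c⁻¹ : ℚ) / ℓ * ((x₂ d⁻¹ : ℚ) / ℓ) -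
          mu (SOR.Rl ℓ) n r₁ (tr1 '' (tT (t12 n m ι P Q z.1.1 z.1.2.1 z.1.2.2))) *
          mu (SOR.Rl ℓ) n r₂ (tr1 '' (tT (t12 n m ι P Q z.1.1 z.1.2.1 z.1.2.2))) -
          12 * (Ps0 (SOR.Rl ℓ) n r₁ r₂ (tr2 '' (t12 n m ι P Q z.1.1 z.1.2.1 z.1.2.2)) +
            (x₁ c⁻¹ : ℚ) / ℓ *
              Mf (SOR.Rl ℓ) n r₁ r₂ (tr2 '' (t12 n m ι P Q z.1.1 z.1.2.1 z.1.2.2)) +
            (x₂ d⁻¹ : ℚ) / ℓ *
              Mf (SOR.Rl ℓ) n r₁ r₁ (tr2 '' (t12 n m ι P Q z.1.1 z.1.2.1 z.1.2.2))) else 0) = _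
    rw [i13, i12, iT]
    have e1 : r₁ (c⁻¹, d⁻¹) = (x₁ c⁻¹ : ℚ) / ℓ := by rw [hr₁]
    have e2 : r₂ (c⁻¹, d⁻¹) = (x₂ d⁻¹ : ℚ) / ℓ := by rw [hr₂]
    by_cases hg : z ∈ SOR.Gd (q'.comp θ)
    · rw [if_pos (f13.2 hg), if_pos (f12.2 hg), if_pos hg, psi_eq, e1, e2]
      ring
    · rw [if_neg (fun h => hg (f13.1 h)), if_neg (fun h => hg (f12.1 h)), if_neg hg, add_zero]


end Pool.Agent.PP.SE.H66
end
end -- Pool.Agent.Helper66_ASE.RTE

section -- Pool.Agent.Helper66_ASE.RTS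

/-!
# Squad ASE, block R: row RTE

The relation with universal functions for all labels, without hypotheses.
-/

set_option autoImplicit false

namespace Pool.Agent.PP.SE.H66

/-- RTE from the three statements of squad SOR -/
theorem rteS (hlex : SOR.LexStmt) (hxsg : SOR.XsgStmt) (hBrx : SOR.BrxStmt) : RteStmt :=
  rte hlex hxsg hBrx

/-- RTE without hypotheses -/
theorem rte_ : RteStmt := rteS SOR.lex_ SOR.xsg_ SOR.brx_

end Pool.Agent.PP.SE.H66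
end -- Pool.Agent.Helper66_ASE.RTS
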