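import Pool.Agent.Helper12_AWB.B209

/-!
# Merged copies (generated) of the modules

* `Pool.Agent.ASE.Stmts5`
* `Pool.Agent.Helper18_ASE.FWA`
* `Pool.Agent.Helper33_ASE.BRV`
* `Pool.Agent.Helper61_ASE.LET`
* `Pool.Agent.Helper61_ASE.LFM`
* `Pool.Agent.Helper82_ASE.TYA`
* `Pool.Agent.Helper86_ASE.FVA`
-/

set_option autoImplicit false

section -- Pool.Agent.ASE.Stmts5

/-!
# Squad ASE, statements 5: labels, frames, types, deviations, the relation (section 5 of `AWC_SOE.md`)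

Complete proofs in the docstrings.  `n = nS E₀ a`, `κ = c σ(d)`, `κ_a = pr a κ`, `F = F12 ℓ x₁ x₂ Ψ M₁ M₂ K kc kd`.
Notation in the docstrings: `R = RL ℓ E₀`; an identity or a number modulo `RM` means modulo `RM M`.
-/

open scoped BigOperators

noncomputable section

namespace Pool.Agent.PP.SE

open Pool.Agent.Helper51_AWC Pool.Agent.Helper79_WRA Pool.Agent.PP Pool.Agent.PP.KF
open Pool.Agent.PP.K9 Pool.Agent.PP.K9.H97 Pool.Agent.PP.H75 Pool.Agent.PP.T3 Pool.Agent.PP.SO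
open Pool.Agent.PP.SD

attribute [local instance] Ideal.Quotient.field

/-! ## 0. Definitions -/

section defs

variable {V₀ G : Type} [CommGroup V₀] [Group G] {M : Ideal (integralClosure ℤ ℂ)} [M.IsMaximal]

/-- the sum over all `L` of the two kinds of weighted numbers, for two labels -/
def T2 {n : ℕ} (B : Bk (FF M) V₀ G) (m : ℕ) (α β : Subgroup V₀ → G → ℂ)
    (F₁₃ F₁₂ : Set (SO.SS n V₀) → ℚ) : ℂ :=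
  ∑ᶠ L : Set (SO.SS n V₀), (((mob F₁₃ L : ℚ) : ℂ) * X13 B m α β L +
    ((mob F₁₂ L : ℚ) : ℂ) * X12 B m α β L)

/-- the sum over the `L` with `pL ≠ ⊥`, `qL ≠ ⊥` -/
def X2N {n : ℕ} (B : Bk (FF M) V₀ G) (m : ℕ) (α β : Subgroup V₀ → G → ℂ)
    (F : Set (SO.SS n V₀) → ℚ) : ℂ :=
  ∑ᶠ L ∈ {L : Set (SO.SS n V₀) | pL L ≠ ⊥ ∧ qL L ≠ ⊥}, ((mob F L : ℚ) : ℂ) * X12 B m α β L

/-- a frame: `w` is a function on the regular elements of the centraliser of `P ∋ κ` -/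
structure Frm (ℓ : ℕ) (B : Bk (FF M) V₀ G) (P : Subgroup V₀) (κ : V₀) (w : G → ℂ) : Prop where
  mem : κ ∈ P
  sup : ∀ s, s ∉ B.C P → w s = 0
  reg : ∀ s, ¬ Reg ℓ s → w s = 0
  cls : ∀ z ∈ B.C P, ∀ s, w (z * s * z⁻¹) = w s
  int : ∀ s ∈ B.C P, (Nat.card P : ℂ) * (Nat.card (B.C P) * w s) /
    Nat.card (B.C P ⊓ Cu s : Subgroup G) ∈ RM M

/-- the total sum for two frames -/
def SFr {n : ℕ} (B : Bk (FF M) V₀ G) (m : ℕ) (P : Subgroup V₀) (κ : V₀) (w : G → ℂ)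
    (P' : Subgroup V₀) (κ' : V₀) (w' : G → ℂ) (F₁₃ F₁₂ : Set (SO.SS n V₀) → ℚ) : ℂ :=
  ∑ᶠ s : G × G, w s.1 * w' s.2 * ((∑ᶠ z : XX (B.i κ * s.1) (B.i κ' * s.2),
    (F₁₃ (t13 n m B.i P P' (B.i κ * s.1) z.1.1 z.1.2.1 z.1.2.2) +
      F₁₂ (t12 n m B.i P P' z.1.1 z.1.2.1 z.1.2.2)) : ℚ) : ℂ)

open Classical in
/-- `α` is a label with the `ℓ`-part `κ`: a finite sum of frames. -/
def Lab (ℓ : ℕ) (B : Bk (FF M) V₀ G) (κ : V₀) (α : Subgroup V₀ → G → ℂ) : Prop :=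
  ∃ (k : ℕ) (P : Fin k → Subgroup V₀) (w : Fin k → G → ℂ), (∀ j, Frm ℓ B (P j) κ (w j)) ∧
    ∀ (W : Subgroup V₀) (N : G → ℂ), (∀ z ∈ B.C W, ∀ g, N (z * g * z⁻¹) = N g) →
      ∑ j, (if W ≤ P j then ∑ᶠ s : G, w j s * N (B.i κ * s) else 0) =
        (Nat.card (B.C W) : ℂ)⁻¹ * ∑ᶠ g : G, α W g * N g

/-- the sum over the `L` with `pL L = a` and `σ q = p` -/
def FWS {n : ℕ} (B : Bk (FF M) V₀ G) (m : ℕ) (σ : MulAut V₀) (a : Subgroup V₀)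
    (F : Set (SO.SS n V₀) → ℚ) (z : G → ℂ) : ℂ :=
  ∑ᶠ L ∈ {L : Set (SO.SS n V₀) | pL L = a ∧ ∀ s ∈ L, σ s.2.2.2 = s.2.2.1},
    ((mob F L : ℚ) : ℂ) * HX B m a z L

/-- the term of `σ` for the elements `fm` -/
def T0S {n : ℕ} (ℓ : ℕ) (E₀ : Subgroup (MulAut V₀)) (B : Bk (FF M) V₀ G) (D : Rd V₀ G) (m : ℕ)
    (c d : V₀) (σ : MulAut V₀) (F : Set (SO.SS n V₀) → ℚ) : ℂ :=
  ∑ᶠ L ∈ {L : Set (SO.SS n V₀) | pL L ≠ ⊥ ∧ ∀ s ∈ L, σ s.2.2.2 = s.2.2.1},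
    ((cS D.U c d σ (pL L) * mob F L : ℚ) : ℂ) *
      HX B m (pL L) (fm ℓ E₀ B D (pL L) (c * σ d)) L

/-- the exact local part for `σ` -/
def P12S {n : ℕ} (ℓ : ℕ) (E₀ : Subgroup (MulAut V₀)) (U : Subgroup V₀ → ℚ)
    (fx : Subgroup V₀ → MulAut V₀ → ℚ) (c d : V₀) (σ : MulAut V₀)
    (F : Set (SO.SS n V₀) → ℚ) : ℚ :=
  ∑ᶠ L ∈ {L : Set (SO.SS n V₀) | pL L ≠ ⊥ ∧ (∀ s ∈ L, σ s.2.2.2 = s.2.2.1) ∧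
      aL (c * σ d) L ≠ ⊥},
    mob F L * (cS U c d σ (pL L) * (ux U (aL (c * σ d) L) (c * σ d) *
      (N12 E₀ (c * σ d) L + M12 ℓ E₀ fx (c * σ d) L)))

/-- the deviation of `HK` at `a` -/
def DAS {n : ℕ} (ℓ : ℕ) (E₀ : Subgroup (MulAut V₀)) (B : Bk (FF M) V₀ G) (D : Rd V₀ G)
    (c d : V₀) (σ : MulAut V₀) (a : Subgroup V₀) (F : Set (SO.SS n V₀) → ℚ) : ℂ :=
  ∑ᶠ L ∈ {L : Set (SO.SS n V₀) | aL (c * σ d) L = a ∧ ∀ s ∈ L, σ s.2.2.2 = s.2.2.1},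
    ((cS D.U c d σ (pL L) * mob F L : ℚ) : ℂ) * ∑ᶠ w ∈ QL E₀ (LT (TL (c * σ d) L)),
      wtE ℓ E₀ B D a (pr ℓ E₀ a (c * σ d)) w.1 w.2

/-- `Λ_a(κ; ζ)` -/
def LW (ℓ : ℕ) (E₀ : Subgroup (MulAut V₀)) (B : Bk (FF M) V₀ G) (D : Rd V₀ G)
    (a : Subgroup V₀) (κ ζ : V₀) : ℂ :=
  ∑ᶠ τ ∈ {τ : MulAut V₀ | τ ∈ E₀ ∧ τ ∉ St E₀ a}, wtE ℓ E₀ B D a κ τ (τ⁻¹ ζ * ζ⁻¹)

/-- the sum of the weights of the pairs `(τ, y)` with `τ ∈ St E₀ a` -/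
def SE1 (B : Bk (FF M) V₀ G) (D : Rd V₀ G) (a : Subgroup V₀) (κ : V₀) : ℂ :=
  ∑ᶠ χ ∈ Ch B a, nu B χ κ * cv (D.et a) χ

end defs

section vals

variable {V₀ : Type} [CommGroup V₀] {n : ℕ}

/-- the value of the alternating sum of `F` for `(τ, τ⁻¹ ζ ζ⁻¹)` -/
def BrF (ℓ : ℕ) (x₁ x₂ : V₀ → ℤ) (kc kd κ : V₀) (σ : MulAut V₀) (ζ : V₀) : ℚ :=
  -(12 / (ℓ : ℚ) ^ 2) * (((x₁ kc⁻¹ - x₁ κ⁻¹) * x₂ (σ⁻¹ ζ) +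
    (x₂ kd⁻¹ - x₂ (σ⁻¹ κ)⁻¹) * x₁ ζ : ℤ) : ℚ)

/-- the type for `(τ, y)` at `a` and `κ ∈ a`, `p ∈ a` -/
def TA (σ : MulAut V₀) (a : Subgroup V₀) (κ : V₀) (τ : MulAut V₀) (y : V₀) :
    Set (SO.SS n V₀) :=
  {s | s.2.2.1 ∈ a ∧ σ s.2.2.2 = s.2.2.1 ∧
    τ (κ ^ (s.2.1 : ℕ) * s.2.2.1 * y ^ (s.1 : ℕ)) = κ ^ (s.2.1 : ℕ) * s.2.2.1}

/-- the type for `(τ, y)` at `a`, `κ ^ k p ∈ a` -/
def TD (σ : MulAut V₀) (a : Subgroup V₀) (κ : V₀) (τ : MulAut V₀) (y : V₀) :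
    Set (SO.SS n V₀) :=
  {s | κ ^ (s.2.1 : ℕ) * s.2.2.1 ∈ a ∧ σ s.2.2.2 = s.2.2.1 ∧
    τ (κ ^ (s.2.1 : ℕ) * s.2.2.1 * y ^ (s.1 : ℕ)) = κ ^ (s.2.1 : ℕ) * s.2.2.1}

/-- the part with `p = 1` -/
def P1 (T : Set (SO.SS n V₀)) : Set (SO.SS n V₀) := {s | s ∈ T ∧ s.2.2.1 = 1}

/-- the part with `κ ^ k p = 1` -/
def A1 (κ : V₀) (T : Set (SO.SS n V₀)) : Set (SO.SS n V₀) :=
  {s | s ∈ T ∧ κ ^ (s.2.1 : ℕ) * s.2.2.1 = 1}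

/-- the alternating sum -/
def Br (F : Set (SO.SS n V₀) → ℚ) (κ : V₀) (T : Set (SO.SS n V₀)) : ℚ :=
  F T - F (P1 T) - F (A1 κ T) + F (P1 (A1 κ T))

/-- the sum over the `L ⊆ T` with `aL = a`, with the coefficients `cS` -/
def GD (U : Subgroup V₀ → ℚ) (c d : V₀) (σ : MulAut V₀) (a : Subgroup V₀)
    (F : Set (SO.SS n V₀) → ℚ) (T : Set (SO.SS n V₀)) : ℚ :=
  ∑ᶠ L ∈ {L : Set (SO.SS n V₀) | L ⊆ T ∧ aL (c * σ d) L = a}, cS U c d σ (pL L) * mob F L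

end vals

/-! ## 1. Labels -/

/-- FRI: integrality for two frames.

Proof.  As `LAC` (`Helper10_ASO/LAC.lean`) / `LAD`.  For `s ∈ C P`, `t ∈ C P'` regular the inner sum is `|P| |P'| z(s, t)`, `z ∈ Rl ℓ` (`Rel`), and
`z(v s v⁻¹, v' t v'⁻¹) = z(s, t)` for `v ∈ C P`, `v' ∈ C P'` (the bijection `(x, y, u) ↦ (v x v⁻¹, v y v⁻¹, v u v'⁻¹)` of the sets `XX` does not change the types).  So
`SFr = ∑_s ∑_t w(s) w'(t) |P| |P'| z(s, t)` is the sum over the classes of `C P`, `C P'` of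
`(|P| |C P| w(s)/|C P ∩ Cu s|) (|P'| |C P'| w'(t)/|C P' ∩ Cu t|) z(s, t) ∈ RM M`. -/
def FriStmt : Prop := ∀ (ℓ : ℕ) [Fact ℓ.Prime] (M : Ideal (integralClosure ℤ ℂ)) [M.IsMaximal],
  (ℓ : integralClosure ℤ ℂ) ∈ M → ∀ (V₀ G : Type) [CommGroup V₀] [Finite V₀] [Group G]
  [Finite G] (B : Bk (FF M) V₀ G) (n m : ℕ) (P P' : Subgroup V₀) (κ κ' : V₀) (w w' : G → ℂ),
  Frm ℓ B P κ w → Frm ℓ B P' κ' w' → ∀ F₁₃ F₁₂ : Set (SO.SS n V₀) → ℚ,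
  Rel ℓ n m B.i κ κ' F₁₃ F₁₂ → SFr B m P κ w P' κ' w' F₁₃ F₁₂ ∈ RM M

open Classical in
/-- MBS: Möbius inversion for two frames.

Proof.  As in `LBS` (`Helper62_ASO/LBS.lean`): `F(τ) = ∑_(L ⊆ τ) mob F L` (MBI), and `L ⊆ t13 ..` iff `pL L ≤ P`, `qL L ≤ P'` and all the conditions `c13` hold;
in the same way for `t12`. -/
def MbsStmt : Prop := ∀ (M : Ideal (integralClosure ℤ ℂ)) [M.IsMaximal]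
  (V₀ G : Type) [CommGroup V₀] [Finite V₀] [Group G]
  [Finite G] (B : Bk (FF M) V₀ G) (n m : ℕ) (P P' : Subgroup V₀) (κ κ' : V₀) (w w' : G → ℂ)
  (F₁₃ F₁₂ : Set (SO.SS n V₀) → ℚ),
  SFr B m P κ w P' κ' w' F₁₃ F₁₂ = ∑ᶠ L : Set (SO.SS n V₀), if pL L ≤ P ∧ qL L ≤ P' then
    (((mob F₁₃ L : ℚ) : ℂ) * ∑ᶠ s : G × G, w s.1 * w' s.2 *
        {z : XX (B.i κ * s.1) (B.i κ' * s.2) | ∀ t ∈ L, c13 m B.i (B.i κ * s.1) z.1.1 z.1.2.1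
          z.1.2.2 t.1 t.2.1 t.2.2.1 t.2.2.2}.ncard +
      ((mob F₁₂ L : ℚ) : ℂ) * ∑ᶠ s : G × G, w s.1 * w' s.2 *
        {z : XX (B.i κ * s.1) (B.i κ' * s.2) | ∀ t ∈ L, c12 m B.i z.1.1 z.1.2.1
          z.1.2.2 t.1 t.2.1 t.2.2.1 t.2.2.2}.ncard) else 0

/-- LT2: the total sum for two labels is integral.

Proof.  Let `(P_j, w_j)`, `(P'_j, w'_j)` be the frames.  By MBS the sum over `j`, `j'` of the `SFr` is the sum over `L` (`W = pL L`, `W' = qL L`) of `mob F₁₃ L` times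
`∑_(j : W ≤ P_j) ∑_(j' : W' ≤ P'_j') ∑_(s, t) w_j s w'_j' t N(i(κ) s, i(κ') t)`, `N(g, h)` the number of the `z ∈ XX g h` with the conditions `c13`.  For fixed `h`
`g ↦ N(g, h)` is not invariant, but `N(v g v⁻¹, v' h v'⁻¹) = N(g, h)` for `v ∈ C W`, `v' ∈ C W'` (`v` commutes with `i(p)`; `v = 1` or `v' = 1` is allowed:
`(x, y, u) ↦ (v x v⁻¹, v y v⁻¹, v u v'⁻¹)`), so `Lab` can be applied for `g` with `h` fixed, and then for `h`: the result is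
`(|C W| |C W'|)⁻¹ ∑ α W g β W' h N(g, h) = X13 B m α β L`.  The same for `c12`.  FRI. -/
def Lt2Stmt : Prop := ∀ (ℓ : ℕ) [Fact ℓ.Prime] (M : Ideal (integralClosure ℤ ℂ)) [M.IsMaximal],
  (ℓ : integralClosure ℤ ℂ) ∈ M → ∀ (V₀ G : Type) [CommGroup V₀] [Finite V₀] [Group G]
  [Finite G] (B : Bk (FF M) V₀ G) (n m : ℕ) (κ κ' : V₀) (α β : Subgroup V₀ → G → ℂ),
  Lab ℓ B κ α → Lab ℓ B κ' β → ∀ F₁₃ F₁₂ : Set (SO.SS n V₀) → ℚ,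
  Rel ℓ n m B.i κ κ' F₁₃ F₁₂ → T2 B m α β F₁₃ F₁₂ ∈ RM M

/-- LMN: the labels `mn`.

Proof.  Two frames: `(⊤, |C ⊤|⁻¹ bh ⊤)` and `(⟨c⟩, w)`, `w s = |C ⟨c⟩|⁻¹ (k bh ⟨c⟩ s - |C ⊤|⁻¹ ∑_(z ∈ C ⟨c⟩) bh ⊤ (z⁻¹ s z))`, `k = kE E₀ c`: these are `k` times the functions
`wtD`; `int` is `SD.CndStmt`.  The sum for `W`, `N` (as in `LBS`): if `W ≤ ⟨c⟩` both frames occur, `N` is invariant under `C ⟨c⟩ ≤ C W`, so the terms with `bh ⊤` cancel and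
`k |C ⟨c⟩|⁻¹ ∑_s bh ⟨c⟩ s N(i(c) s)` remains; if not, only the first one, `W ⊔ ⟨c⟩ = ⊤` (`W ≠ ⊥`).  In both cases it is `(k or 1) |C(W ⊔ ⟨c⟩)|⁻¹ ∑_s bh (W ⊔ ⟨c⟩) s N(i(c) s)`, and
this is `|C W|⁻¹ ∑_g mnl c W g N(g)` (definition of `fc`, invariance of `N`). -/
def LmnStmt : Prop := ∀ (ℓ : ℕ) [Fact ℓ.Prime] (M : Ideal (integralClosure ℤ ℂ)) [M.IsMaximal],
  (ℓ : integralClosure ℤ ℂ) ∈ M → ℓ ≠ 2 → ∀ (V₀ G : Type) [CommGroup V₀] [Finite V₀] [Group G]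
  [Finite G] (E₀ : Subgroup (MulAut V₀)), Fq ℓ V₀ E₀ → ∀ B : Bk (FF M) V₀ G, Sd ℓ M E₀ B →
  ∀ c : V₀, c ≠ 1 → Lab ℓ B c (mnl E₀ B c)

/-- LET: the labels `et`.

Proof.  One frame `(a, |C a|⁻¹ et a)`: `Rs.e1`, `e2`, `e5` (`|a| = ℓ`).  `W = a`: clear (`g = i(κ) s`).  `W = ⊥`: `N` is a class function of `G = C ⊥`:
`|G|⁻¹ ∑_g |C a|⁻¹ ∑_z tk κ et (z⁻¹ g z) N(g) = |C a|⁻¹ ∑_g tk κ et (g) N(g)`.  If `W` is not contained in `a` (`|a| = ℓ`: `W ≤ a` iff `W = ⊥` or `W = a`)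
both sides are `0`. -/
def LetStmt : Prop := ∀ (ℓ : ℕ) [Fact ℓ.Prime] (M : Ideal (integralClosure ℤ ℂ)) [M.IsMaximal],
  (ℓ : integralClosure ℤ ℂ) ∈ M → ℓ ≠ 2 → ∀ (V₀ G : Type) [CommGroup V₀] [Finite V₀] [Group G]
  [Finite G] (E₀ : Subgroup (MulAut V₀)), Fq ℓ V₀ E₀ → ∀ B : Bk (FF M) V₀ G, Sb ℓ M E₀ B →
  ∀ D : Rd V₀ G, Rs ℓ E₀ B D → ∀ a ∈ RL ℓ E₀, ∀ κ ∈ a, Lab ℓ B κ (etl B D a κ)

/-- LFM: the labels at `W ≠ ⊥`.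

Proof.  (1) `W ≠ ⊥`, `c ≠ 1`: `W ≤ ⟨c⟩` iff `W = ⟨c⟩` (order `ℓ`).  `c ∈ W`: `W = ⟨c⟩` (`kE E₀ c = nS E₀ ⟨c⟩`: an element of `E₀` fixes `c` iff it fixes `⟨c⟩` pointwise) or
`W = ⊤` (`nS = 1`).  `c ∉ W`: `fm W c = fc W c - tk (pr c) (et W)`, and `et W = 0` if `W ∉ R` (PRB (7), `f1`).  (2) the definition of `etl`. -/
def LfmStmt : Prop := ∀ (ℓ : ℕ) [Fact ℓ.Prime] (M : Ideal (integralClosure ℤ ℂ)) [M.IsMaximal],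
  (ℓ : integralClosure ℤ ℂ) ∈ M → ∀ (V₀ G : Type) [CommGroup V₀] [Finite V₀] [Group G]
  [Finite G] (E₀ : Subgroup (MulAut V₀)), Fq ℓ V₀ E₀ → ∀ B : Bk (FF M) V₀ G, Sb ℓ M E₀ B →
  ∀ D : Rd V₀ G, Rs ℓ E₀ B D → ∀ c : V₀, c ≠ 1 → ∀ W : Subgroup V₀, W ≠ ⊥ →
  (W ∈ RL ℓ E₀ ∧ c ∉ W → ∀ g, mnl E₀ B c W g =
    fm ℓ E₀ B D W c g + tk B (pr ℓ E₀ W c) (D.et W) g) ∧
  (¬ (W ∈ RL ℓ E₀ ∧ c ∉ W) → ∀ g, mnl E₀ B c W g = fm ℓ E₀ B D W c g) ∧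
  (∀ a κ g, (W = a → etl B D a κ W g = tk B κ (D.et a) g) ∧ (W ≠ a → etl B D a κ W g = 0))

/-! ## 2. Sums without conditions -/

/-- XEM: the sums without conditions.

Proof.  As WZE (`ASO/Stmts4`): Frobenius, the number of the `(x, y)` with `[x, y] = g` is `∑_(χ ∈ Irr G) (|G|/χ(1)) χ(g)`.  (1) `|G|⁻¹ ∑_g z(g) #{..} = ∑_χ cv z χ`.
(2) `pL ∅ = ⊥`, `C ⊥ = G`: `|G|⁻² ∑ α(g) β(h) #{(x, y, u) : [x, y] = g u h u⁻¹}`, substitute `h ↦ u⁻¹ h u`, the convolution of two class functions has the central character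
`cv α cv β`.  (3) `f` a function on `C a`: `|C a|⁻¹ ∑_g f(g) N(g) = |G|⁻¹ ∑_g (|C a|⁻¹ ∑_z f(z⁻¹ g z)) N(g)` for a class function `N`, and (1).
(4) `χ ∈ Irr G` not in the block: `cv (mnl c ⊥) χ = k cv (fc ⊥ c) χ = 0` (WZE (a)).  (5) `κ ≠ 1`: `∑_s et(s) χ(i(κ) s)`, `C a = Cu (i κ)`, `a = ⟨κ⟩`; `et` is in the ideal of `b a`
(`Cz`): `et(s) = ∑_r et(s r⁻¹) b^(r)`.., and `∑_r b^(r) χ(i(κ) s r) = 0` for regular `s` (`T3.SmgStmt`, as in `HLNK`, `WZE (a)`, for all regular `s`, not only `s = 1`: the class function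
`s ↦ χ(i(κ) s)` on the regular elements of `C a` is orthogonal to the block `b a`: `K9` second main theorem). -/
def XemStmt : Prop := ∀ (ℓ : ℕ) [Fact ℓ.Prime] (M : Ideal (integralClosure ℤ ℂ)) [M.IsMaximal],
  (ℓ : integralClosure ℤ ℂ) ∈ M → ℓ ≠ 2 → ∀ (V₀ G : Type) [CommGroup V₀] [Finite V₀] [Group G]
  [Finite G] (E₀ : Subgroup (MulAut V₀)), Fq ℓ V₀ E₀ → ∀ B : Bk (FF M) V₀ G, Sb ℓ M E₀ B →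
  ∀ D : Rd V₀ G, Rs ℓ E₀ B D →
  (∀ z : G → ℂ, (∀ x g, z (x * g * x⁻¹) = z g) →
    (Nat.card G : ℂ)⁻¹ * ∑ᶠ g, z g * {w : G × G | SO.kap w.1 w.2 = g}.ncard =
      ∑ᶠ χ ∈ Irr G, cv z χ) ∧
  (∀ (n m : ℕ) (α β : Subgroup V₀ → G → ℂ), (∀ x g, α ⊥ (x * g * x⁻¹) = α ⊥ g) →
    (∀ x g, β ⊥ (x * g * x⁻¹) = β ⊥ g) →
    X12 B m α β (∅ : Set (SO.SS n V₀)) = ∑ᶠ χ ∈ Irr G, cv (α ⊥) χ * cv (β ⊥) χ) ∧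
  (∀ a ∈ RL ℓ E₀, ∀ κ ∈ a, (∀ x g, etl B D a κ ⊥ (x * g * x⁻¹) = etl B D a κ ⊥ g) ∧
    (Nat.card (B.C a) : ℂ)⁻¹ * ∑ᶠ g, tk B κ (D.et a) g * {w : G × G | SO.kap w.1 w.2 = g}.ncard =
      ∑ᶠ χ ∈ Irr G, cv (etl B D a κ ⊥) χ) ∧
  (∀ c : V₀, c ≠ 1 → (∀ x g, mnl E₀ B c ⊥ (x * g * x⁻¹) = mnl E₀ B c ⊥ g) ∧
    ∀ χ ∈ Irr G, χ ∉ IrrE M B.e → cv (mnl E₀ B c ⊥) χ = 0) ∧
  ∀ a ∈ RL ℓ E₀, ∀ κ ∈ a, κ ≠ 1 → ∀ χ ∈ Irr G, χ ∉ IrrE M B.e → cv (etl B D a κ ⊥) χ = 0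

/-- ETV: the values of `et` at `⊥` (formula (6.4)).

Proof.  `cv (etl a κ ⊥) χ = (|G|/(|C a| χ(1))) ∑_g tk κ et (g) χ(g)`, and with CZB (2) and the multiplicities `m_ψ` of the `ψ ∈ Ch B a` in `χ` restricted to `C a`:
`∑_g tk κ et (g) χ(g) = ∑_ψ m_ψ nu ψ κ cv et ψ ψ(1)`.  `|G|/(ℓ² χ(1)) ∈ RM M` (heights, section 6.1, block R), `ℓ² ψ(1)/|C a| ∈ RM M` (`h1`), `cv et ψ/ℓ ∈ RM M` (`e4`),
`nu ψ κ` is an algebraic integer. -/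
def EtvStmt : Prop := ∀ (ℓ : ℕ) [Fact ℓ.Prime] (M : Ideal (integralClosure ℤ ℂ)) [M.IsMaximal],
  (ℓ : integralClosure ℤ ℂ) ∈ M → ℓ ≠ 2 → ∀ (V₀ G : Type) [CommGroup V₀] [Finite V₀] [Group G]
  [Finite G] (E₀ : Subgroup (MulAut V₀)), Fq ℓ V₀ E₀ → ∀ B : Bk (FF M) V₀ G, Sb ℓ M E₀ B →
  ∀ D : Rd V₀ G, Rs ℓ E₀ B D → ∀ a ∈ RL ℓ E₀, ∀ κ ∈ a, ∀ χ ∈ IrrE M B.e,
  cv (etl B D a κ ⊥) χ / ℓ ∈ RM M

/-! ## 3. The values of `F12` -/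

/-- FVA: the values of `F12`.

Proof.  The definition of `F12`, `FE`; `x₁ 1 = x₂ 1 = 0` (`Lf`, `ρ 1 = 0`), `n > 1`, `v ^ ℓ = 1`.  (1) is clear.  (2) e0, K0.  (3) e1; the set of the `(k, p, q)` with
`(0, k, p, q)` in the type is `{(k, κ₁^k, κ₂^k)}` (K1; there is an element with `k = 1`, as `n > 1`).  (4) e2, the set is `{(k, p₂^k, q₂^k)}` (K1).  (5) e2', K0 (`ℓ ∣ k`, `i = 0`: `p = 1`).
(6) e3: for `i = 0` one has `ℓ ∣ i₀ k`, `ℓ ∣ k`, `p^k = 1` (K0); `ℓ²` times `v`, `12 Ψ` is in `Rl ℓ`.  All these types are free (`i = k = 0` gives `p = q = 1`). -/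
def FvaStmt : Prop := ∀ (ℓ : ℕ) [Fact ℓ.Prime] (V₀ : Type) [CommGroup V₀] [Finite V₀],
  (∀ v : V₀, v ^ ℓ = 1) → ∀ (n : ℕ) (ρ₁ ρ₂ : V₀ → ZMod ℓ), (∃ r, 0 < r ∧ n = ℓ ^ r) → Hm ρ₁ →
  Hm ρ₂ → ∀ (x₁ x₂ : V₀ → ℤ), Lf ρ₁ x₁ → Lf ρ₂ x₂ →
  ∀ (F₁₃ Ψ M₁ M₂ : Set (SO.SS n V₀) → ℚ) (K : Set (Fin n × V₀ × V₀) → ℚ),
  FE ℓ n ρ₁ ρ₂ x₁ x₂ F₁₃ Ψ M₁ M₂ K → ∀ kc kd : V₀,
  (∀ τ, ¬ Fre τ → F12 ℓ x₁ x₂ Ψ M₁ M₂ K kc kd τ = 0) ∧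
  (∀ τ, Fre τ → (∀ s ∈ τ, ρ₁ s.2.2.1 = 0 ∧ ρ₂ s.2.2.2 = 0) →
    F12 ℓ x₁ x₂ Ψ M₁ M₂ K kc kd τ = (x₁ kc⁻¹ * x₂ kd⁻¹ : ℤ) / (ℓ : ℚ) ^ 2) ∧
  (∀ (κ₁ κ₂ : V₀) (I : Set (Fin n)), (∃ i ∈ I, (i : ℕ) = 0) →
    F12 ℓ x₁ x₂ Ψ M₁ M₂ K kc kd {s | s.1 ∈ I ∧ s.2.2.1 = κ₁ ^ (s.2.1 : ℕ) ∧
      s.2.2.2 = κ₂ ^ (s.2.1 : ℕ)} = (x₁ kc⁻¹ * x₂ kd⁻¹ - x₁ κ₁ * x₂ κ₂ : ℤ) / (ℓ : ℚ) ^ 2) ∧
  (∀ p₁ q₁ p₂ q₂ : V₀, F12 ℓ x₁ x₂ Ψ M₁ M₂ K kc kd {s | s.2.2.1 = p₁ ^ (s.1 : ℕ) *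
      p₂ ^ (s.2.1 : ℕ) ∧ s.2.2.2 = q₁ ^ (s.1 : ℕ) * q₂ ^ (s.2.1 : ℕ)} =
    (x₁ kc⁻¹ * x₂ kd⁻¹ - x₁ p₂ * x₂ q₂ - 12 * ((x₁ kc⁻¹ - x₁ p₂) * x₂ q₁ +
      (x₂ kd⁻¹ - x₂ q₂) * x₁ p₁) : ℤ) / (ℓ : ℚ) ^ 2) ∧
  (∀ p₁ q₁ : V₀, F12 ℓ x₁ x₂ Ψ M₁ M₂ K kc kd {s | ℓ ∣ (s.2.1 : ℕ) ∧ s.2.2.1 = p₁ ^ (s.1 : ℕ) ∧
      s.2.2.2 = q₁ ^ (s.1 : ℕ)} =
    (x₁ kc⁻¹ * x₂ kd⁻¹ - 12 * (x₁ kc⁻¹ * x₂ q₁ + x₂ kd⁻¹ * x₁ p₁) : ℤ) / (ℓ : ℚ) ^ 2) ∧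
  (∀ (p q : V₀) (i₀ : ℕ), ¬ ℓ ∣ i₀ → (ℓ : ℚ) ^ 2 * F12 ℓ x₁ x₂ Ψ M₁ M₂ K kc kd
    {s | s.2.2.1 = p ^ (s.2.1 : ℕ) ∧ s.2.2.2 = q ^ (s.2.1 : ℕ) ∧
      (s.1 : ℕ) ≡ i₀ * (s.2.1 : ℕ) [MOD ℓ]} ∈ SOR.Rl ℓ)

/-- WTA: the sum of the weights with `τ ∈ St E₀ a`.

Proof.  HYE with `T = {(α, 0) : α ∈ a}`: `QL E₀ (LT T)` is the set of the `(τ, y)` with `τ ∈ St E₀ a`, and `HY B m a (tk κ et) T = |C a|⁻¹ ∑_g tk κ et (g) #{(x, y) : x, y ∈ C a, [x, y] = g}`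
is `∑_(χ ∈ Ch B a) cv (tk κ et) χ` (Frobenius in `C a`, CZB).  (`PE ℓ n m G` for some `n`, `m`: `SO.PexStmt`.)  The last claim is `e6`, and the finite sum. -/
def WtaStmt : Prop := ∀ (ℓ : ℕ) [Fact ℓ.Prime] (M : Ideal (integralClosure ℤ ℂ)) [M.IsMaximal],
  (ℓ : integralClosure ℤ ℂ) ∈ M → ℓ ≠ 2 → ∀ (V₀ G : Type) [CommGroup V₀] [Finite V₀] [Group G]
  [Finite G] (E₀ : Subgroup (MulAut V₀)), Fq ℓ V₀ E₀ → ∀ B : Bk (FF M) V₀ G, Sd ℓ M E₀ B →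
  ∀ D : Rd V₀ G, Rs ℓ E₀ B D → ∀ a ∈ RL ℓ E₀, ∀ κ ∈ a,
  ∑ᶠ w ∈ {w : MulAut V₀ × V₀ | w.1 ∈ St E₀ a}, wtE ℓ E₀ B D a κ w.1 w.2 = SE1 B D a κ ∧
  SE1 B D a κ / (ℓ : ℂ) ^ 2 ∈ RM M ∧ ∀ ζ, LW ℓ E₀ B D a κ ζ / ℓ ∈ RM M

/-- TYA: the types `TA`, `TD`.

Proof.  `a` of order `ℓ`, `τ ∈ E₀`; `τ (α y^i) = α` means `y^i = τ⁻¹ α α⁻¹`.
(1) `τ ∈ St E₀ a`, `α ∈ a`: the condition is `y^i = 1`.  `TA` and `TD` contain `(0, 0, p, σ⁻¹ p)` for `p ∈ a`.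
(2) `τ ∉ St E₀ a`: `α ↦ τ⁻¹ α α⁻¹` is injective on `a`, a homomorphism to `V₀`.  If `ζ ∈ a`, `ζ ≠ 1`, `y = τ⁻¹ ζ ζ⁻¹` then the condition is `α = ζ^i`, i.e. `p = ζ^i κ^(-k)`, `q = σ⁻¹ p`.
(3) if `y` is not of this form (`ζ ∈ a - 1`) then all `α = 1` in `TA`, `TD`: otherwise `y^i = τ⁻¹ α α⁻¹ ≠ 1`, so `ℓ ∤ i`, and `ζ = α^(i')`, `i i' ≡ 1` modulo `ℓ`, would have `y = τ⁻¹ ζ ζ⁻¹`. -/
def TyaStmt : Prop := ∀ (ℓ : ℕ) [Fact ℓ.Prime] (V₀ : Type) [CommGroup V₀] [Finite V₀]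
  (E₀ : Subgroup (MulAut V₀)), Fq ℓ V₀ E₀ → ∀ (n : ℕ) (σ τ : MulAut V₀) (a : Subgroup V₀)
  (κ y : V₀), Nat.card a = ℓ → σ ∈ E₀ → τ ∈ E₀ →
  (τ ∈ St E₀ a →
    (κ ∈ a → (TA σ a κ τ y : Set (SO.SS n V₀)) = {s | s.2.2.1 ∈ a ∧ s.2.2.2 = σ⁻¹ s.2.2.1 ∧
      y ^ (s.1 : ℕ) = 1}) ∧
    (TD σ a κ τ y : Set (SO.SS n V₀)) = {s | κ ^ (s.2.1 : ℕ) * s.2.2.1 ∈ a ∧
      s.2.2.2 = σ⁻¹ s.2.2.1 ∧ y ^ (s.1 : ℕ) = 1}) ∧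
  (τ ∉ St E₀ a → ∀ ζ ∈ a, ζ ≠ 1 → y = τ⁻¹ ζ * ζ⁻¹ →
    (κ ∈ a → (TA σ a κ τ y : Set (SO.SS n V₀)) = {s | s.2.2.1 = ζ ^ (s.1 : ℕ) *
      κ⁻¹ ^ (s.2.1 : ℕ) ∧ s.2.2.2 = (σ⁻¹ ζ) ^ (s.1 : ℕ) * (σ⁻¹ κ)⁻¹ ^ (s.2.1 : ℕ)}) ∧
    (TD σ a κ τ y : Set (SO.SS n V₀)) = {s | s.2.2.1 = ζ ^ (s.1 : ℕ) *
      κ⁻¹ ^ (s.2.1 : ℕ) ∧ s.2.2.2 = (σ⁻¹ ζ) ^ (s.1 : ℕ) * (σ⁻¹ κ)⁻¹ ^ (s.2.1 : ℕ)}) ∧
  (τ ∉ St E₀ a → (∀ ζ ∈ a, ζ ≠ 1 → y ≠ τ⁻¹ ζ * ζ⁻¹) →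
    (κ ∈ a → ∀ s ∈ (TA σ a κ τ y : Set (SO.SS n V₀)), κ ^ (s.2.1 : ℕ) * s.2.2.1 = 1) ∧
    ∀ s ∈ (TD σ a κ τ y : Set (SO.SS n V₀)), κ ^ (s.2.1 : ℕ) * s.2.2.1 = 1)

/-- BRV: the alternating sums `Br` at the types `TA`.

Proof.  `F = F12 .. kc kd`, `v = x₁(kc⁻¹) x₂(kd⁻¹)/ℓ²`, `h = v - x₁(κ⁻¹) x₂((σ⁻¹ κ)⁻¹)/ℓ²`, `T = TA σ a κ τ y`, `κ ∈ a`.  TYA, FVA.
(1) `τ ∈ St E₀ a`: `T = {p ∈ a, q = σ⁻¹ p, y^i = 1}` is not free (`i = k = 0`, `p ∈ a` arbitrary): `F T = 0`.  `P1 T` and `P1 (A1 T)` are free and all `p = q = 1`: `F = v`.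
`A1 T = {y^i = 1, p = κ^(-k), q = (σ⁻¹ κ)^(-k)}`: `F = h` (FVA (3)).  Sum `- h`.
(2) `y = τ⁻¹ ζ ζ⁻¹`: `F T` is FVA (4) with `p₁ = ζ`, `p₂ = κ⁻¹`: `h` plus `BrF`.  `P1 T`, `P1 (A1 T)`: `v`.  `A1 T = {ℓ ∣ i, p = κ^(-k), ..}` (`ζ^i = 1` iff `ℓ ∣ i`): `h`.  Sum: `BrF`.
(3) `A1 T = T`: `0`. -/
def BrvStmt : Prop := ∀ (ℓ : ℕ) [Fact ℓ.Prime] (V₀ : Type) [CommGroup V₀] [Finite V₀]
  (E₀ : Subgroup (MulAut V₀)), Fq ℓ V₀ E₀ → ∀ (n : ℕ) (ρ₁ ρ₂ : V₀ → ZMod ℓ),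
  (∃ r, 0 < r ∧ n = ℓ ^ r) → Hm ρ₁ → Hm ρ₂ → ∀ (x₁ x₂ : V₀ → ℤ), Lf ρ₁ x₁ → Lf ρ₂ x₂ →
  ∀ (F₁₃ Ψ M₁ M₂ : Set (SO.SS n V₀) → ℚ) (K : Set (Fin n × V₀ × V₀) → ℚ),
  FE ℓ n ρ₁ ρ₂ x₁ x₂ F₁₃ Ψ M₁ M₂ K → ∀ (kc kd : V₀) (σ τ : MulAut V₀) (a : Subgroup V₀)
  (κ y : V₀), Nat.card a = ℓ → σ ∈ E₀ → τ ∈ E₀ → κ ∈ a →
  (τ ∈ St E₀ a → Br (F12 ℓ x₁ x₂ Ψ M₁ M₂ K kc kd) κ (TA σ a κ τ y) =
    -((x₁ kc⁻¹ * x₂ kd⁻¹ - x₁ κ⁻¹ * x₂ (σ⁻¹ κ)⁻¹ : ℤ) / (ℓ : ℚ) ^ 2)) ∧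
  (τ ∉ St E₀ a → ∀ ζ ∈ a, ζ ≠ 1 → y = τ⁻¹ ζ * ζ⁻¹ →
    Br (F12 ℓ x₁ x₂ Ψ M₁ M₂ K kc kd) κ (TA σ a κ τ y) = BrF ℓ x₁ x₂ kc kd κ σ ζ) ∧
  (τ ∉ St E₀ a → (∀ ζ ∈ a, ζ ≠ 1 → y ≠ τ⁻¹ ζ * ζ⁻¹) →
    Br (F12 ℓ x₁ x₂ Ψ M₁ M₂ K kc kd) κ (TA σ a κ τ y) = 0)

/-! ## 4. The sums `FWS` -/

/-- FWA: the sums `FWS` at `κ et`.

Proof.  Let `pL L = a`, `σ q = p`, `κ ∈ a`: `aL κ L ≤ a` is `a` or `⊥`.  `HX B m a (tk κ et) L = HY B m a (tk κ et) (TL κ L)` (HXY (3), `e1`, `e2`).  `aL κ L = a`: HYE, the sum over the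
`(τ, y) ∈ QL E₀ (LT (TL κ L))` of `wtE`.  Exchange the sums: for `(τ, y)`, `τ ∈ E₀`, the `L` are the `L ⊆ T = TA σ a κ τ y` with `pL L ≠ ⊥`, `aL κ L ≠ ⊥` (then both are `a`), and by MBI
the sum of `mob F L` over these is `F T - F (P1 T) - F (A1 T) + F (P1 (A1 T))` (`pL L = ⊥` iff `L ⊆ P1 T`, `aL κ L = ⊥` iff `L ⊆ A1 κ T`).  The `L` with `aL κ L = ⊥` remain. -/
def FwaStmt : Prop := ∀ (ℓ : ℕ) [Fact ℓ.Prime] (M : Ideal (integralClosure ℤ ℂ)) [M.IsMaximal],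
  (ℓ : integralClosure ℤ ℂ) ∈ M → ℓ ≠ 2 → ∀ (V₀ G : Type) [CommGroup V₀] [Finite V₀] [Group G]
  [Finite G] (E₀ : Subgroup (MulAut V₀)), Fq ℓ V₀ E₀ → ∀ B : Bk (FF M) V₀ G, Sd ℓ M E₀ B →
  ∀ D : Rd V₀ G, Rs ℓ E₀ B D → ∀ n m : ℕ, PE ℓ n m G → ∀ a ∈ RL ℓ E₀, ∀ κ ∈ a, ∀ σ ∈ E₀,
  ∀ F : Set (SO.SS n V₀) → ℚ, FWS B m σ a F (tk B κ (D.et a)) =
    ∑ᶠ w ∈ {w : MulAut V₀ × V₀ | w.1 ∈ E₀}, wtE ℓ E₀ B D a κ w.1 w.2 *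
      ((Br F κ (TA σ a κ w.1 w.2) : ℚ) : ℂ) +
    ∑ᶠ L ∈ {L : Set (SO.SS n V₀) | pL L = a ∧ (∀ s ∈ L, σ s.2.2.2 = s.2.2.1) ∧
      ∀ s ∈ L, κ ^ (s.2.1 : ℕ) * s.2.2.1 = 1}, ((mob F L : ℚ) : ℂ) * HX B m a (tk B κ (D.et a)) L

/-- FWB: the part with `aL = ⊥`.

Proof.  As M12 (`ASO/Stmts4`).  `κ = 1`: all `p = 1`, so `pL L = ⊥ ≠ a`, there is no `L`.  `κ ≠ 1`: the conditions in `HX` are `(x^m)^i = 1` (`α = 1`: `g^m = i(κ)` for the `g` with `tk κ et g ≠ 0`), so the sum is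
`|C a|⁻¹ ∑_g tk κ et (g) ∑_([x, y] = g) (F(τ(x)) - F(P1 τ(x)))`, `τ(x) = {(i, k, κ^(-k), (σ⁻¹ κ)^(-k)) : (x^m)^i = 1}` (MBI; `pL L = ⊥` or `a`); `P1 τ(x)`: `ℓ ∣ k`.  The bracket is `v' - v`, and
`|C a|⁻¹ ∑_g tk κ et (g) #{[x, y] = g} = ∑_(χ ∈ Irr G) cv (etl a κ ⊥) χ = LL B (etl a κ ⊥)` (XEM (3), (5)). -/
def FwbStmt : Prop := ∀ (ℓ : ℕ) [Fact ℓ.Prime] (M : Ideal (integralClosure ℤ ℂ)) [M.IsMaximal],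
  (ℓ : integralClosure ℤ ℂ) ∈ M → ℓ ≠ 2 → ∀ (V₀ G : Type) [CommGroup V₀] [Finite V₀] [Group G]
  [Finite G] (E₀ : Subgroup (MulAut V₀)), Fq ℓ V₀ E₀ → ∀ B : Bk (FF M) V₀ G, Sd ℓ M E₀ B →
  ∀ D : Rd V₀ G, Rs ℓ E₀ B D → ∀ n m : ℕ, 0 < n → PE ℓ n m G → ∀ a ∈ RL ℓ E₀, ∀ κ ∈ a,
  ∀ σ ∈ E₀, ∀ (F : Set (SO.SS n V₀) → ℚ) (v v' : ℚ),
  (∀ τ, Fre τ → (∀ s ∈ τ, s.2.2.1 = 1 ∧ s.2.2.2 = 1) → F τ = v) →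
  (∀ I : Set (Fin n), (∃ i ∈ I, (i : ℕ) = 0) → F {s | s.1 ∈ I ∧ s.2.2.1 = κ⁻¹ ^ (s.2.1 : ℕ) ∧
    s.2.2.2 = (σ⁻¹ κ)⁻¹ ^ (s.2.1 : ℕ)} = v') →
  (κ = 1 → ∑ᶠ L ∈ {L : Set (SO.SS n V₀) | pL L = a ∧ (∀ s ∈ L, σ s.2.2.2 = s.2.2.1) ∧
      ∀ s ∈ L, κ ^ (s.2.1 : ℕ) * s.2.2.1 = 1},
      ((mob F L : ℚ) : ℂ) * HX B m a (tk B κ (D.et a)) L = 0) ∧
  (κ ≠ 1 → ∑ᶠ L ∈ {L : Set (SO.SS n V₀) | pL L = a ∧ (∀ s ∈ L, σ s.2.2.2 = s.2.2.1) ∧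
      ∀ s ∈ L, κ ^ (s.2.1 : ℕ) * s.2.2.1 = 1},
      ((mob F L : ℚ) : ℂ) * HX B m a (tk B κ (D.et a)) L =
    ((v' - v : ℚ) : ℂ) * LL B (etl B D a κ ⊥))

/-- FWD: the values of `FWS`.

Proof.  FWA; the bracket: BRV.  The pairs with `τ ∈ St E₀ a`: WTA, the value `- (x₁(kc⁻¹) x₂(kd⁻¹) - x₁(κ⁻¹) x₂((σ⁻¹ κ)⁻¹))/ℓ²` does not depend on `(τ, y)`.  The pairs with `τ ∉ St E₀ a`,
`y = τ⁻¹ ζ ζ⁻¹`, `ζ ∈ a - 1` (`ζ` is determined by `y`: TYA): the sum of `LW`.  FWB with `v = x₁(kc⁻¹) x₂(kd⁻¹)/ℓ²`, `v' = v - x₁(κ⁻¹) x₂((σ⁻¹ κ)⁻¹)/ℓ²` (FVA (2), (3)); for `κ = 1` `x₁ 1 = 0`. -/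
def FwdStmt : Prop := ∀ (ℓ : ℕ) [Fact ℓ.Prime] (M : Ideal (integralClosure ℤ ℂ)) [M.IsMaximal],
  (ℓ : integralClosure ℤ ℂ) ∈ M → ℓ ≠ 2 → ∀ (V₀ G : Type) [CommGroup V₀] [Finite V₀] [Group G]
  [Finite G] (E₀ : Subgroup (MulAut V₀)), Fq ℓ V₀ E₀ → ∀ B : Bk (FF M) V₀ G, Sd ℓ M E₀ B →
  ∀ D : Rd V₀ G, Rs ℓ E₀ B D → ∀ n m : ℕ, PE ℓ n m G →
  ∀ (ρ₁ ρ₂ : V₀ → ZMod ℓ) (x₁ x₂ : V₀ → ℤ), Hm ρ₁ → Hm ρ₂ → Lf ρ₁ x₁ → Lf ρ₂ x₂ →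
  ∀ (F₁₃ Ψ M₁ M₂ : Set (SO.SS n V₀) → ℚ) (K : Set (Fin n × V₀ × V₀) → ℚ),
  FE ℓ n ρ₁ ρ₂ x₁ x₂ F₁₃ Ψ M₁ M₂ K → ∀ (kc kd : V₀), ∀ a ∈ RL ℓ E₀, ∀ κ ∈ a, ∀ σ ∈ E₀,
  FWS B m σ a (F12 ℓ x₁ x₂ Ψ M₁ M₂ K kc kd) (tk B κ (D.et a)) =
    -(((x₁ κ⁻¹ * x₂ (σ⁻¹ κ)⁻¹ : ℤ) : ℂ) / (ℓ : ℂ) ^ 2) * LL B (etl B D a κ ⊥) +
    ∑ᶠ ζ ∈ {ζ : V₀ | ζ ∈ a ∧ ζ ≠ 1}, LW ℓ E₀ B D a κ ζ *
      ((BrF ℓ x₁ x₂ kc kd κ σ ζ : ℚ) : ℂ) -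
    ((x₁ kc⁻¹ * x₂ kd⁻¹ - x₁ κ⁻¹ * x₂ (σ⁻¹ κ)⁻¹ : ℤ) : ℂ) / (ℓ : ℂ) ^ 2 * SE1 B D a κ

open Classical in
/-- FT3: the sums `FWS` for a multiple of the indicator function of the free types.

Proof.  `|C a|⁻¹ ∑_g z(g) ∑_([x, y] = g) ∑_(L ⊆ τ, pL L = a) mob F L`, `τ = {(i, k, p, σ⁻¹ p) : p ∈ a, α = (g^m)^k i(p), α x = x α, y⁻¹ α y = α (x^m)^i}`; by MBI the inner sum is
`F(τ) - F(P1 τ)`, `P1 τ` is free, and `τ` is not free iff some `i(p)`, `p ∈ a`, `p ≠ 1`, commutes with `x` and `y`, i.e. iff `x, y ∈ C a`.  So it is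
`- δ |C a|⁻¹ ∑_g z(g) #{(x, y) : x, y ∈ C a, [x, y] = g} = - δ ∑_(χ ∈ Ch B a) cv z χ` (Frobenius in `C a`, `Cz`). -/
def Ft3Stmt : Prop := ∀ (ℓ : ℕ) [Fact ℓ.Prime] (M : Ideal (integralClosure ℤ ℂ)) [M.IsMaximal],
  (ℓ : integralClosure ℤ ℂ) ∈ M → ℓ ≠ 2 → ∀ (V₀ G : Type) [CommGroup V₀] [Finite V₀] [Group G]
  [Finite G] (E₀ : Subgroup (MulAut V₀)), Fq ℓ V₀ E₀ → ∀ B : Bk (FF M) V₀ G, Sb ℓ M E₀ B →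
  ∀ n m : ℕ, PE ℓ n m G → ∀ (a : Subgroup V₀), Nat.card a = ℓ → ∀ σ ∈ E₀, ∀ (δ : ℚ) (z : G → ℂ),
  Cz B a z → FWS B m σ a (fun τ : Set (SO.SS n V₀) => if Fre τ then δ else 0) z =
    -(δ : ℂ) * ∑ᶠ χ ∈ Ch B a, cv z χ

/-! ## 5. The deviation at `a = aL` -/

/-- GDH: the sums `GD`.

Proof.  `κ = c σ d ∉ a`, `T ⊆ {κ^k p ∈ a}`.  For `W` a line or `⊤` the `L ⊆ T` with `pL L ≤ W`, `aL κ L = a` are the `L ⊆ T_W = {s ∈ T : p ∈ W}` which are not contained in `A1 κ T_W`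
(`aL κ L ≤ a`, `|a| = ℓ`); MBI: the sum of `mob F L` is `H(W) = F(T_W) - F(A1 κ T_W)`.  If `pL L = ⊥` then `κ^k ∈ a`, so `κ^k = 1`, `aL κ L = ⊥`.  So the sum over `pL L = W` (a line) is
`H(W)`, the sum over `pL L = ⊤` is `H(⊤) - ∑_(W line) H(W)`; `cS ⊤ = 1` (`ux U ⊤ c = 1`: `c ∈ ⊤`). -/
def GdhStmt : Prop := ∀ (ℓ : ℕ) [Fact ℓ.Prime] (V₀ : Type) [CommGroup V₀] [Finite V₀]
  (E₀ : Subgroup (MulAut V₀)), Fq ℓ V₀ E₀ → ∀ (n : ℕ) (U : Subgroup V₀ → ℚ) (c d : V₀)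
  (σ : MulAut V₀) (a : Subgroup V₀), Nat.card a = ℓ → c * σ d ∉ a →
  ∀ (F : Set (SO.SS n V₀) → ℚ) (T : Set (SO.SS n V₀)),
  (∀ s ∈ T, (c * σ d) ^ (s.2.1 : ℕ) * s.2.2.1 ∈ a) →
  GD U c d σ a F T = F T - F (A1 (c * σ d) T) +
    ∑ᶠ W ∈ {W : Subgroup V₀ | Nat.card W = ℓ}, (cS U c d σ W - 1) *
      (F {s | s ∈ T ∧ s.2.2.1 ∈ W} - F (A1 (c * σ d) {s | s ∈ T ∧ s.2.2.1 ∈ W}))

/-- GDV: the values of `GD`.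

Proof.  `F = F12 .. c d`, `κ = c σ d ∉ a`, `T = TD σ a κ τ y`, `v`, `h` as in BRV.  `cS W - 1 ∈ ℓ Rl ℓ` (hypothesis on `U`; `ux = 1` or `U W`).  GDH, TYA (2)-(4) and FVA.
(1) `τ ∈ St E₀ a`: `T = {κ^k p ∈ a, q = σ⁻¹ p, y^i = 1}` is not free (`i = k = 0`, `p ∈ a`), `A1 T`: `h`.  `H(⊤) = - h`.  For a line `W`: `W = a`: `T_W` is not free, `A1 T_W` has `p = 1`
(`κ^k ∈ a`): `H = - v`.  `κ ∈ W`: `κ^k p ∈ a ∩ W = 1`: `A1 T_W = T_W`, `H = 0`.  Otherwise `κ = α₀ w₀`, `α₀ ∈ a`, `w₀ ∈ W`, and `κ^k p ∈ a`, `p ∈ W` means `p = w₀^(-k)`: FVA (3), and `A1 T_W` has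
`α₀^k = 1`, `ℓ ∣ k`, `p = 1`: `v`.  So `ℓ² H(W) ∈ Rl ℓ` (integers).
(2) `y = τ⁻¹ ζ ζ⁻¹`: `T = {p = ζ^i κ^(-k), ..}`; `F T`: FVA (4); `A1 T = {ℓ ∣ i, p = κ^(-k)}`: `h`.  `H(⊤) = BrF`.  `W = a`: `κ^k ∈ a`, `ℓ ∣ k`, FVA (5); `A1`: `p = 1`: `v`.  `κ ∈ W`: `ζ^i ∈ W`, `ℓ ∣ i`: `H = 0`.
Otherwise there is `i₀`, `ℓ ∤ i₀`, with `ζ^(i₀) κ⁻¹ ∈ W` (the elements `ζ^j κ⁻¹` generate the lines different from `a`), and `ζ^i κ^(-k) ∈ W` iff `i ≡ i₀ k` modulo `ℓ` (`ζ^(i - i₀ k) ∈ W ∩ a = 1`), `p = (ζ^(i₀) κ⁻¹)^k`: FVA (6);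
`A1`: `ℓ ∣ i`, so `ℓ ∣ k`, `p = 1`: `v`.
(3) all `α = 1`: no `L` with `aL κ L = a`: `0`. -/
def GdvStmt : Prop := ∀ (ℓ : ℕ) [Fact ℓ.Prime] (V₀ : Type) [CommGroup V₀] [Finite V₀]
  (E₀ : Subgroup (MulAut V₀)), Fq ℓ V₀ E₀ → ∀ (n : ℕ) (ρ₁ ρ₂ : V₀ → ZMod ℓ),
  (∃ r, 0 < r ∧ n = ℓ ^ r) → Hm ρ₁ → Hm ρ₂ → ∀ (x₁ x₂ : V₀ → ℤ), Lf ρ₁ x₁ → Lf ρ₂ x₂ →
  ∀ (F₁₃ Ψ M₁ M₂ : Set (SO.SS n V₀) → ℚ) (K : Set (Fin n × V₀ × V₀) → ℚ),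
  FE ℓ n ρ₁ ρ₂ x₁ x₂ F₁₃ Ψ M₁ M₂ K → ∀ U : Subgroup V₀ → ℚ,
  (∀ W, W ≠ ⊥ → ∃ q ∈ SOR.Rl ℓ, U W = 1 + ℓ * q) → ∀ (c d : V₀) (σ τ : MulAut V₀)
  (a : Subgroup V₀) (y : V₀), Nat.card a = ℓ → σ ∈ E₀ → τ ∈ E₀ → c * σ d ∉ a →
  (τ ∈ St E₀ a → ∃ q ∈ SOR.Rl ℓ,
    GD U c d σ a (F12 ℓ x₁ x₂ Ψ M₁ M₂ K c d) (TD σ a (c * σ d) τ y) =
    -((x₁ c⁻¹ * x₂ d⁻¹ - x₁ (c * σ d)⁻¹ * x₂ (σ⁻¹ (c * σ d))⁻¹ : ℤ) / (ℓ : ℚ) ^ 2) + q / ℓ) ∧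
  (τ ∉ St E₀ a → ∀ ζ ∈ a, ζ ≠ 1 → y = τ⁻¹ ζ * ζ⁻¹ → ∃ q ∈ SOR.Rl ℓ,
    GD U c d σ a (F12 ℓ x₁ x₂ Ψ M₁ M₂ K c d) (TD σ a (c * σ d) τ y) =
      BrF ℓ x₁ x₂ c d (c * σ d) σ ζ + q / ℓ) ∧
  (τ ∉ St E₀ a → (∀ ζ ∈ a, ζ ≠ 1 → y ≠ τ⁻¹ ζ * ζ⁻¹) →
    GD U c d σ a (F12 ℓ x₁ x₂ Ψ M₁ M₂ K c d) (TD σ a (c * σ d) τ y) = 0)

/-- DAV: the deviation `DAS` modulo `RM`.

Proof.  `κ = c σ d ∉ a`.  Exchange the sums: `(τ, y) ∈ QL E₀ (LT (TL κ L))`, `aL κ L = a`, `σ q = p` for all of `L` iff `τ ∈ E₀`, `L ⊆ TD σ a κ τ y`, `aL κ L = a`.  So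
`DAS = ∑_((τ, y), τ ∈ E₀) wtE a κ_a τ y GD(TD σ a κ τ y)`.  GDV: the terms `q/ℓ` give elements of `RM M` (`e6`: `wtE/ℓ ∈ RM M`); the pairs with `τ ∈ St E₀ a` have the constant value
`- h`, and the sum of the weights is `SE1 ∈ ℓ² RM M` (WTA); the others give the sum of `LW`, as in FWD.  `κ_a ∈ a` (PRB (5)). -/
def DavStmt : Prop := ∀ (ℓ : ℕ) [Fact ℓ.Prime] (M : Ideal (integralClosure ℤ ℂ)) [M.IsMaximal],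
  (ℓ : integralClosure ℤ ℂ) ∈ M → ℓ ≠ 2 → ∀ (V₀ G : Type) [CommGroup V₀] [Finite V₀] [Group G]
  [Finite G] (E₀ : Subgroup (MulAut V₀)), Fq ℓ V₀ E₀ → ∀ B : Bk (FF M) V₀ G, Sd ℓ M E₀ B →
  ∀ D : Rd V₀ G, Rs ℓ E₀ B D → ∀ n m : ℕ, PE ℓ n m G →
  ∀ (ρ₁ ρ₂ : V₀ → ZMod ℓ) (x₁ x₂ : V₀ → ℤ), Hm ρ₁ → Hm ρ₂ → Lf ρ₁ x₁ → Lf ρ₂ x₂ →
  ∀ (F₁₃ Ψ M₁ M₂ : Set (SO.SS n V₀) → ℚ) (K : Set (Fin n × V₀ × V₀) → ℚ),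
  FE ℓ n ρ₁ ρ₂ x₁ x₂ F₁₃ Ψ M₁ M₂ K → ∀ (c d : V₀), ∀ a ∈ RL ℓ E₀, ∀ σ ∈ E₀, c * σ d ∉ a →
  DAS ℓ E₀ B D c d σ a (F12 ℓ x₁ x₂ Ψ M₁ M₂ K c d) -
    ∑ᶠ ζ ∈ {ζ : V₀ | ζ ∈ a ∧ ζ ≠ 1}, LW ℓ E₀ B D a (pr ℓ E₀ a (c * σ d)) ζ *
      ((BrF ℓ x₁ x₂ c d (c * σ d) σ ζ : ℚ) : ℂ) ∈ RM M

/-- DVS: the deviations cancel.

Proof.  `Λ = Λ a κ_a ζ ∈ ℓ RM M`, `ℓ² BrF ∈ ℤ`, the factors `cS`, `ux` are in `1 + ℓ Rl ℓ`, so they may be replaced by `1` modulo `RM M`, and the integers `ℓ² BrF/(-12)` by integers congruent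
modulo `ℓ`.  `κ = c σ d`, `κ_a = pr c pr (σ d)`, `Q v = v (pr v)⁻¹`; `x ≡ ρ` modulo `ℓ`.  For `a ∈ R`, `ζ ∈ a - 1`, the sum of the terms of `(σ, a, ζ)` is, modulo `RM M`,
`(12/ℓ²) Λ z`, with `z` congruent modulo `ℓ` to: (i) `κ ∉ a`:
`ρ₂(σ⁻¹ ζ) [- ρ₁(σ d) + (- ρ₁ c + ρ₁ κ_a) + ρ₁(Q c)] + ρ₁(ζ) [- ρ₂(σ⁻¹ c) + (- ρ₂ d + ρ₂(σ⁻¹ κ_a)) + ρ₂(σ⁻¹ Q(σ d))]`
(for `c ∈ a` the second sum has no term of `a`, and `ρ₁(Q c) = 0`; the same for `σ d ∈ a`; `σ⁻¹ (σ d (pr (σ d))⁻¹) = d (pr_b d)⁻¹`, `b = σ⁻¹ a`), which is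
`- (ρ₁(Q σ d) ρ₂(σ⁻¹ ζ) + ρ₂(σ⁻¹ Q c) ρ₁(ζ))`; (ii) `κ ∈ a`: `ρ₂(σ⁻¹ ζ) ρ₁(Q c) + ρ₁(ζ) ρ₂(σ⁻¹ Q(σ d))`, `Q c Q(σ d) = Q κ = 1`: the same number.  So the sum is
`- (12/ℓ²) ∑_a ∑_ζ ∑_σ Λ a (pr c pr (σ d)) ζ z'(σ)`, `z'(σ) ≡ ρ₁(Q σ d) ρ₂(σ⁻¹ ζ) + ρ₂(σ⁻¹ Q c) ρ₁(ζ)`.  For fixed `a`, `ζ` group the `σ` into the cosets `(St E₀ a) σ`: `pr (π σ d) = pr (σ d)`,
`(π σ)⁻¹ ζ = σ⁻¹ ζ` for `π ∈ St E₀ a`, `Q(π v) = π (Q v)`, and the products of the `π (Q v)` and of the `π⁻¹ (Q v)` over `π ∈ St E₀ a` are `1` (PRB (10), `pr (Q v) = 1`).  So the sum of the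
`z'` over a coset is divisible by `ℓ`, and the sum of the terms of the coset is in `ℓ⁻² ℓ ℓ RM M`. -/
def DvsStmt : Prop := ∀ (ℓ : ℕ) [Fact ℓ.Prime] (M : Ideal (integralClosure ℤ ℂ)) [M.IsMaximal],
  (ℓ : integralClosure ℤ ℂ) ∈ M → ∀ (V₀ : Type) [CommGroup V₀] [Finite V₀]
  (E₀ : Subgroup (MulAut V₀)), Fq ℓ V₀ E₀ → ∀ U : Subgroup V₀ → ℚ,
  (∀ W, W ≠ ⊥ → ∃ q ∈ SOR.Rl ℓ, U W = 1 + ℓ * q) →
  ∀ (ρ₁ ρ₂ : V₀ → ZMod ℓ) (x₁ x₂ : V₀ → ℤ), Hm ρ₁ → Hm ρ₂ → Lf ρ₁ x₁ → Lf ρ₂ x₂ →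
  ∀ Λ : Subgroup V₀ → V₀ → V₀ → ℂ, (∀ a ∈ RL ℓ E₀, ∀ κ ∈ a, ∀ ζ, Λ a κ ζ / ℓ ∈ RM M) →
  ∀ c d : V₀, ∑ᶠ σ ∈ {σ : MulAut V₀ | σ ∈ E₀},
    ((∑ᶠ a ∈ {a : Subgroup V₀ | a ∈ RL ℓ E₀ ∧ c * σ d ∉ a}, ∑ᶠ ζ ∈ {ζ : V₀ | ζ ∈ a ∧ ζ ≠ 1},
      Λ a (pr ℓ E₀ a (c * σ d)) ζ * ((BrF ℓ x₁ x₂ c d (c * σ d) σ ζ -
        cS U c d σ a * BrF ℓ x₁ x₂ c d (pr ℓ E₀ a (c * σ d)) σ ζ : ℚ) : ℂ)) +
    (∑ᶠ a ∈ {a : Subgroup V₀ | a ∈ RL ℓ E₀ ∧ c ∉ a}, ∑ᶠ ζ ∈ {ζ : V₀ | ζ ∈ a ∧ ζ ≠ 1},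
      Λ a (pr ℓ E₀ a (c * σ d)) ζ * ((ux U a (σ d) *
        (BrF ℓ x₁ x₂ c d (pr ℓ E₀ a (c * σ d)) σ ζ -
          BrF ℓ x₁ x₂ (pr ℓ E₀ a c) d (pr ℓ E₀ a (c * σ d)) σ ζ) : ℚ) : ℂ)) +
    ∑ᶠ a ∈ {a : Subgroup V₀ | a ∈ RL ℓ E₀ ∧ σ d ∉ a}, ∑ᶠ ζ ∈ {ζ : V₀ | ζ ∈ a ∧ ζ ≠ 1},
      Λ a (pr ℓ E₀ a (c * σ d)) ζ * ((ux U a c *
        (BrF ℓ x₁ x₂ c d (pr ℓ E₀ a (c * σ d)) σ ζ -
          BrF ℓ x₁ x₂ c (σ⁻¹ (pr ℓ E₀ a (σ d))) (pr ℓ E₀ a (c * σ d)) σ ζ) : ℚ) : ℂ)) ∈ RM M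

/-! ## 6. The sum over the labels -/

/-- TS1: the part of `F₁₃`.

Proof.  `mob F₁₃ L = 0` if `pL L = ⊥` or `qL L = ⊥` (MBI, `z13`, `ρ 1 = 0`).  Otherwise, with `W = pL L`, `W' = qL L`, `X13` is bilinear in the labels at `W`, `W'`, and by LFM the sum over the labels
of `c` at `W` is `fm W c` (only `a = W` counts), the same for `d` at `W'`; X3R. -/
def Ts1Stmt : Prop := ∀ (ℓ : ℕ) [Fact ℓ.Prime] (M : Ideal (integralClosure ℤ ℂ)) [M.IsMaximal],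
  (ℓ : integralClosure ℤ ℂ) ∈ M → ℓ ≠ 2 → ∀ (V₀ G : Type) [CommGroup V₀] [Finite V₀] [Group G]
  [Finite G] (E₀ : Subgroup (MulAut V₀)), Fq ℓ V₀ E₀ → ∀ B : Bk (FF M) V₀ G, Sd ℓ M E₀ B →
  ∀ D : Rd V₀ G, Rs ℓ E₀ B D → ∀ n m : ℕ, PE ℓ n m G → ∀ (ρ₁ ρ₂ : V₀ → ZMod ℓ), Hm ρ₁ → Hm ρ₂ →
  ∀ (F₁₃ : Set (SO.SS n V₀) → ℚ),
  (∀ τ : Set (SO.SS n V₀), (∀ s ∈ τ, ρ₁ s.2.2.1 = 0) ∨ (∀ s ∈ τ, ρ₂ s.2.2.2 = 0) → F₁₃ τ = 0) →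
  ∀ c d : V₀, c ≠ 1 → d ≠ 1 → ∑ᶠ L : Set (SO.SS n V₀), ((mob F₁₃ L : ℚ) : ℂ) *
    (X13 B m (mnl E₀ B c) (mnl E₀ B d) L -
      (∑ᶠ a ∈ {a : Subgroup V₀ | a ∈ RL ℓ E₀ ∧ c ∉ a},
        X13 B m (etl B D a (pr ℓ E₀ a c)) (mnl E₀ B d) L) -
      (∑ᶠ b ∈ {b : Subgroup V₀ | b ∈ RL ℓ E₀ ∧ d ∉ b},
        X13 B m (mnl E₀ B c) (etl B D b (pr ℓ E₀ b d)) L) +
      ∑ᶠ a ∈ {a : Subgroup V₀ | a ∈ RL ℓ E₀ ∧ c ∉ a},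
        ∑ᶠ b ∈ {b : Subgroup V₀ | b ∈ RL ℓ E₀ ∧ d ∉ b},
          X13 B m (etl B D a (pr ℓ E₀ a c)) (etl B D b (pr ℓ E₀ b d)) L) =
  ((∑ᶠ L ∈ {L : Set (SO.SS n V₀) | pL L ≠ ⊥ ∧ qL L ≠ ⊥},
    mob F₁₃ L * P13 ℓ E₀ D.U D.fx c d L : ℚ) : ℂ)

/-- TS2: the part of `F₁₂` with `pL = ⊥` or `qL = ⊥`.

Proof.  `F = F12 .. kc kd`.  Exactly one of `pL L`, `qL L` is `⊥`: `X12 = 0` (X2C (1)).  Both are `⊥`, `L ≠ ∅`: all `p = q = 1` in `L`, so `F` has the value `v` on all subsets of `L`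
(FVA (2); a type with all `p = q = 1` is free), `mob F L = 0` (MBI).  `L = ∅`: `mob F ∅ = F ∅ = v`, and XEM (2): `X12 = ∑_(χ ∈ Irr G) cv (α ⊥) χ cv (β ⊥) χ`. -/
def Ts2Stmt : Prop := ∀ (ℓ : ℕ) [Fact ℓ.Prime] (M : Ideal (integralClosure ℤ ℂ)) [M.IsMaximal],
  (ℓ : integralClosure ℤ ℂ) ∈ M → ℓ ≠ 2 → ∀ (V₀ G : Type) [CommGroup V₀] [Finite V₀] [Group G]
  [Finite G] (E₀ : Subgroup (MulAut V₀)), Fq ℓ V₀ E₀ → ∀ B : Bk (FF M) V₀ G, Sb ℓ M E₀ B →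
  ∀ D : Rd V₀ G, Rs ℓ E₀ B D → ∀ n m : ℕ, PE ℓ n m G →
  ∀ (ρ₁ ρ₂ : V₀ → ZMod ℓ) (x₁ x₂ : V₀ → ℤ), Hm ρ₁ → Hm ρ₂ → Lf ρ₁ x₁ → Lf ρ₂ x₂ →
  ∀ (F₁₃ Ψ M₁ M₂ : Set (SO.SS n V₀) → ℚ) (K : Set (Fin n × V₀ × V₀) → ℚ),
  FE ℓ n ρ₁ ρ₂ x₁ x₂ F₁₃ Ψ M₁ M₂ K → ∀ (kc kd : V₀) (α β : Subgroup V₀ → G → ℂ),
  (∀ x g, α ⊥ (x * g * x⁻¹) = α ⊥ g) → (∀ x g, β ⊥ (x * g * x⁻¹) = β ⊥ g) →
  ∑ᶠ L : Set (SO.SS n V₀), ((mob (F12 ℓ x₁ x₂ Ψ M₁ M₂ K kc kd) L : ℚ) : ℂ) * X12 B m α β L =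
    ((x₁ kc⁻¹ * x₂ kd⁻¹ : ℤ) : ℂ) / (ℓ : ℂ) ^ 2 * ∑ᶠ χ ∈ Irr G, cv (α ⊥) χ * cv (β ⊥) χ +
      X2N B m α β (F12 ℓ x₁ x₂ Ψ M₁ M₂ K kc kd)

/-- TS3: the part of `F₁₂` with `pL ≠ ⊥`, `qL ≠ ⊥`.

Proof.  Let `pL L = W ≠ ⊥`, `qL L = W' ≠ ⊥`.  If `EL E₀ L = ∅` all `X12` are `0` (X2C (2); `Cz` for the labels: CZB, LFM, FMB).  Otherwise `W' = σ⁻¹ W` for `σ ∈ EL`, `W' ∈ R` iff `W ∈ R`.  LFM: with
`e = [W ∈ R, c ∉ W]`, `e' = [W' ∈ R, d ∉ W']` (`d ∉ W'` iff `σ d ∉ W`) the labels are `mn(c) = fm c + e et_c`, `et_c` (only `a = W`), `et_c = tk (pr c) (et W)`; so the sum of the terms of `L` is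
`mob F^{cd} X(fm, fm) + e (mob F^{cd} - mob F^{c_a d}) X(et_c, fm) + e' (mob F^{cd} - mob F^{c d_b}) X(fm, et_d) +
e e' (mob F^{cd} - mob F^{c_a d} - mob F^{c d_b} + mob F^{c_a d_b}) X(et_c, et_d)`.  X2R; exchange the sums over `L` and `σ` (`σ ∈ E₀`, `σ q = p` for all of `L`, `pL L = a`; `mob` is linear);
`b = σ⁻¹ a`, `pr b d = σ⁻¹ (pr a (σ d))` (PRB (4)), `et_c et_d` gives `tk κ_a (et * et)`, `κ_a = pr c pr(σ d)`. -/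
def Ts3Stmt : Prop := ∀ (ℓ : ℕ) [Fact ℓ.Prime] (M : Ideal (integralClosure ℤ ℂ)) [M.IsMaximal],
  (ℓ : integralClosure ℤ ℂ) ∈ M → ℓ ≠ 2 → ∀ (V₀ G : Type) [CommGroup V₀] [Finite V₀] [Group G]
  [Finite G] (E₀ : Subgroup (MulAut V₀)), Fq ℓ V₀ E₀ → ∀ B : Bk (FF M) V₀ G, Sb ℓ M E₀ B →
  ∀ D : Rd V₀ G, Rs ℓ E₀ B D → ∀ n m : ℕ, PE ℓ n m G →
  ∀ F : V₀ → V₀ → Set (SO.SS n V₀) → ℚ, ∀ c d : V₀, c ≠ 1 → d ≠ 1 →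
  X2N B m (mnl E₀ B c) (mnl E₀ B d) (F c d) -
    (∑ᶠ a ∈ {a : Subgroup V₀ | a ∈ RL ℓ E₀ ∧ c ∉ a},
      X2N B m (etl B D a (pr ℓ E₀ a c)) (mnl E₀ B d) (F (pr ℓ E₀ a c) d)) -
    (∑ᶠ b ∈ {b : Subgroup V₀ | b ∈ RL ℓ E₀ ∧ d ∉ b},
      X2N B m (mnl E₀ B c) (etl B D b (pr ℓ E₀ b d)) (F c (pr ℓ E₀ b d))) +
    (∑ᶠ a ∈ {a : Subgroup V₀ | a ∈ RL ℓ E₀ ∧ c ∉ a},
      ∑ᶠ b ∈ {b : Subgroup V₀ | b ∈ RL ℓ E₀ ∧ d ∉ b},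
        X2N B m (etl B D a (pr ℓ E₀ a c)) (etl B D b (pr ℓ E₀ b d))
          (F (pr ℓ E₀ a c) (pr ℓ E₀ b d))) =
  ∑ᶠ σ ∈ {σ : MulAut V₀ | σ ∈ E₀}, (T0S ℓ E₀ B D m c d σ (F c d) +
    (∑ᶠ a ∈ {a : Subgroup V₀ | a ∈ RL ℓ E₀ ∧ c ∉ a}, (ux D.U a (σ d) : ℚ) *
      FWS B m σ a (fun τ => F c d τ - F (pr ℓ E₀ a c) d τ)
        (tk B (pr ℓ E₀ a (c * σ d)) (D.et a))) +
    (∑ᶠ a ∈ {a : Subgroup V₀ | a ∈ RL ℓ E₀ ∧ σ d ∉ a}, (ux D.U a c : ℚ) *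
      FWS B m σ a (fun τ => F c d τ - F c (σ⁻¹ (pr ℓ E₀ a (σ d))) τ)
        (tk B (pr ℓ E₀ a (c * σ d)) (D.et a))) +
    ∑ᶠ a ∈ {a : Subgroup V₀ | a ∈ RL ℓ E₀ ∧ c ∉ a ∧ σ d ∉ a}, (nS E₀ a : ℂ)⁻¹ *
      FWS B m σ a (fun τ => F c d τ - F (pr ℓ E₀ a c) d τ - F c (σ⁻¹ (pr ℓ E₀ a (σ d))) τ +
        F (pr ℓ E₀ a c) (σ⁻¹ (pr ℓ E₀ a (σ d))) τ)
        (tk B (pr ℓ E₀ a (c * σ d)) (fun g => mulF (D.et a) (D.et a) g)))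

open Classical in
/-- TS4: the term of `σ` for the elements `fm`.

Proof.  `κ = c σ d`, `W = pL L ≠ ⊥`, `σ q = p` for all of `L`, `A = aL κ L`.  `κ ∈ W`: `HX (fm W κ) = nS W HX (fc W κ) = nS W HK κ L` (HXY (1)).  `κ ∉ W`: `HX (fm W κ) = HK κ L - HX (tk (pr W κ) (et W))`, the last
term is `0` if `W ∉ R` (`et W = 0`); the sum of these terms over `L` with `pL L = a` is `- cS a FWS σ a F (tk κ_a et_a)`.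
`A ≠ ⊥`: `(if κ ∈ W then nS W else 1) = (if κ ∈ A then nS A else 1)`: if `κ ∈ W` and `W` is of order `ℓ` then `A ≤ W`, `A = W`; if `W = ⊤` then `nS W = 1`, and if `A` is of order `ℓ` then `κ ∉ A` (otherwise all
`p ∈ A`, `W ≤ A`), if `A = ⊤` then `nS A = 1`; if `κ ∉ W` and `κ ∈ A ≠ ⊤` then `A = ⟨κ⟩` (`κ ≠ 1`), all `p ∈ ⟨κ⟩ ∩ W = 1`, `W = ⊥`, a contradiction.  HKF gives `P12S`, and for `A = a ∈ R`, `κ ∉ a`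
the sum of the weights: `DAS` (if `aL κ L = a` and `κ ∉ a` then `pL L ≠ ⊥`: otherwise `κ^k ∈ a`, so `κ^k = 1`).
`A = ⊥`: all `p = κ^(-k)`, so `κ ≠ 1`, `W = ⟨κ⟩ ∋ κ`, the coefficient is `cS ⟨κ⟩ kE E₀ κ` (`kE E₀ κ = nS E₀ ⟨κ⟩`); M12 for `F` (`κ₂ = σ⁻¹ κ`): the sum over all `L ⊆ τ₀` of `mob F L HK` is `v' L1 B κ`; the `L ⊆ τ₀` with
`pL L = ⊥` have all `p = q = 1`: `mob F L = 0` for `L ≠ ∅`, `mob F ∅ = v`, `HK κ ∅ = L1 B κ` (WZE (b)).  So the part is `(v' - v) cS ⟨κ⟩ kE κ L1 B κ`, and `LL B (mnl E₀ B κ ⊥) = kE κ L1 B κ`. -/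
def Ts4Stmt : Prop := ∀ (ℓ : ℕ) [Fact ℓ.Prime] (M : Ideal (integralClosure ℤ ℂ)) [M.IsMaximal],
  (ℓ : integralClosure ℤ ℂ) ∈ M → ℓ ≠ 2 → ∀ (V₀ G : Type) [CommGroup V₀] [Finite V₀] [Group G]
  [Finite G] (E₀ : Subgroup (MulAut V₀)), Fq ℓ V₀ E₀ → ∀ B : Bk (FF M) V₀ G, Sd ℓ M E₀ B →
  ∀ D : Rd V₀ G, Rs ℓ E₀ B D → ∀ n m : ℕ, 0 < n → PE ℓ n m G →
  ∀ (F : Set (SO.SS n V₀) → ℚ) (v : ℚ) (v' : V₀ → V₀ → ℚ),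
  (∀ τ, Fre τ → (∀ s ∈ τ, s.2.2.1 = 1 ∧ s.2.2.2 = 1) → F τ = v) →
  (∀ (κ₁ κ₂ : V₀) (I : Set (Fin n)), (∃ i ∈ I, (i : ℕ) = 0) → F {s | s.1 ∈ I ∧
    s.2.2.1 = κ₁ ^ (s.2.1 : ℕ) ∧ s.2.2.2 = κ₂ ^ (s.2.1 : ℕ)} = v - v' κ₁ κ₂) →
  ∀ c d : V₀, ∀ σ ∈ E₀, T0S ℓ E₀ B D m c d σ F =
    ((P12S ℓ E₀ D.U D.fx c d σ F : ℚ) : ℂ) +
    (∑ᶠ a ∈ {a : Subgroup V₀ | a ∈ RL ℓ E₀ ∧ c * σ d ∉ a}, DAS ℓ E₀ B D c d σ a F) -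
    (if c * σ d ≠ 1 then ((cS D.U c d σ (Subgroup.zpowers (c * σ d)) *
      v' (c * σ d)⁻¹ (σ⁻¹ (c * σ d))⁻¹ : ℚ) : ℂ) * LL B (mnl E₀ B (c * σ d) ⊥) else 0) -
    ∑ᶠ a ∈ {a : Subgroup V₀ | a ∈ RL ℓ E₀ ∧ c * σ d ∉ a}, (cS D.U c d σ a : ℚ) *
      FWS B m σ a F (tk B (pr ℓ E₀ a (c * σ d)) (D.et a))

/-- TS5: the relation, without the evaluation of the deviations.

Proof.  `F kc kd = F12 .. kc kd`.  LT2 for the label pairs `(mn c, mn d)`, `(et_a, mn d)`, `(mn c, et_b)`, `(et_a, et_b)` (LMN, LET, `Rel` for the pairs `(c, d)`, `(pr a c, d)`, ..; `pr a c ∈ a`, PRB (5)) with the signs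
`+ - - +`: the sum is in `RM M`.  The part of `F₁₃`: TS1.  The part of `F₁₂`: TS2 for every pair (XEM: the class functions; `χ ∉ e`: the product with `mn` is `0`, so the sums over `Irr G` are `NN`;
for `(et_a, et_b)`: if `pr a c = 1` or `pr b d = 1` the coefficient `x₁(..) x₂(..)` is `0`, otherwise the sum over `Irr G` is the one over the block (XEM (5)), and every term is in `ℓ² RM M` (ETV): the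
contribution is in `RM M`).  The rest: TS3, TS4 (FVA (2), (3): `v = x₁ c⁻¹ x₂ d⁻¹/ℓ²`, `v' κ₁ κ₂ = x₁ κ₁ x₂ κ₂/ℓ²`).  The last sum of TS3: the function is
`if Fre τ then δ else 0`, `δ = (x₁ c⁻¹ - x₁ (pr a c)⁻¹)(x₂ d⁻¹ - x₂ (pr b d)⁻¹)/ℓ²` (the terms with `K`, `Ψ`, `M₁`, `M₂` cancel), FT3: `- δ ∑_χ nu χ κ_a (cv et χ)²` is in `RM M` by `e7`.
The sum over `σ` of `P12S` plus the part of `F₁₃` is `PPE` (`pL L ≠ ⊥` and `σ ∈ EL E₀ L` imply `qL L ≠ ⊥`). -/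
def Ts5Stmt : Prop := ∀ (ℓ : ℕ) [Fact ℓ.Prime] (M : Ideal (integralClosure ℤ ℂ)) [M.IsMaximal],
  (ℓ : integralClosure ℤ ℂ) ∈ M → ℓ ≠ 2 → ∀ (V₀ G : Type) [CommGroup V₀] [Finite V₀] [Group G]
  [Finite G] (E₀ : Subgroup (MulAut V₀)), Fq ℓ V₀ E₀ → ∀ B : Bk (FF M) V₀ G, Sd ℓ M E₀ B →
  ∀ D : Rd V₀ G, Rs ℓ E₀ B D → ∀ n m : ℕ, PE ℓ n m G →
  ∀ (ρ₁ ρ₂ : V₀ → ZMod ℓ) (x₁ x₂ : V₀ → ℤ), Hm ρ₁ → Hm ρ₂ → Lf ρ₁ x₁ → Lf ρ₂ x₂ →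
  ∀ (F₁₃ Ψ M₁ M₂ : Set (SO.SS n V₀) → ℚ) (K : Set (Fin n × V₀ × V₀) → ℚ),
  FE ℓ n ρ₁ ρ₂ x₁ x₂ F₁₃ Ψ M₁ M₂ K →
  (∀ kc kd, Rel ℓ n m B.i kc kd F₁₃ (F12 ℓ x₁ x₂ Ψ M₁ M₂ K kc kd)) → ∀ c d : V₀, c ≠ 1 → d ≠ 1 →
  ((x₁ c⁻¹ * x₂ d⁻¹ : ℤ) : ℂ) / (ℓ : ℂ) ^ 2 * NN B (mnl E₀ B c ⊥) (mnl E₀ B d ⊥) -
  (∑ᶠ a ∈ {a : Subgroup V₀ | a ∈ RL ℓ E₀ ∧ c ∉ a},
    ((x₁ (pr ℓ E₀ a c)⁻¹ * x₂ d⁻¹ : ℤ) : ℂ) / (ℓ : ℂ) ^ 2 *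
      NN B (etl B D a (pr ℓ E₀ a c) ⊥) (mnl E₀ B d ⊥)) -
  (∑ᶠ b ∈ {b : Subgroup V₀ | b ∈ RL ℓ E₀ ∧ d ∉ b},
    ((x₁ c⁻¹ * x₂ (pr ℓ E₀ b d)⁻¹ : ℤ) : ℂ) / (ℓ : ℂ) ^ 2 *
      NN B (mnl E₀ B c ⊥) (etl B D b (pr ℓ E₀ b d) ⊥)) +
  ((PPE ℓ E₀ D.U D.fx c d F₁₃ (F12 ℓ x₁ x₂ Ψ M₁ M₂ K c d) : ℚ) : ℂ) -
  (∑ᶠ σ ∈ {σ : MulAut V₀ | σ ∈ E₀ ∧ c * σ d ≠ 1},
    ((cS D.U c d σ (Subgroup.zpowers (c * σ d)) : ℚ) : ℂ) *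
      (((x₁ (c * σ d)⁻¹ * x₂ (σ⁻¹ (c * σ d))⁻¹ : ℤ) : ℂ) / (ℓ : ℂ) ^ 2) *
        LL B (mnl E₀ B (c * σ d) ⊥)) +
  ∑ᶠ σ ∈ {σ : MulAut V₀ | σ ∈ E₀},
    ((∑ᶠ a ∈ {a : Subgroup V₀ | a ∈ RL ℓ E₀ ∧ c * σ d ∉ a},
      (DAS ℓ E₀ B D c d σ a (F12 ℓ x₁ x₂ Ψ M₁ M₂ K c d) - (cS D.U c d σ a : ℚ) *
        FWS B m σ a (F12 ℓ x₁ x₂ Ψ M₁ M₂ K c d) (tk B (pr ℓ E₀ a (c * σ d)) (D.et a)))) +
    (∑ᶠ a ∈ {a : Subgroup V₀ | a ∈ RL ℓ E₀ ∧ c ∉ a}, (ux D.U a (σ d) : ℚ) *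
      FWS B m σ a (fun τ => F12 ℓ x₁ x₂ Ψ M₁ M₂ K c d τ -
        F12 ℓ x₁ x₂ Ψ M₁ M₂ K (pr ℓ E₀ a c) d τ) (tk B (pr ℓ E₀ a (c * σ d)) (D.et a))) +
    ∑ᶠ a ∈ {a : Subgroup V₀ | a ∈ RL ℓ E₀ ∧ σ d ∉ a}, (ux D.U a c : ℚ) *
      FWS B m σ a (fun τ => F12 ℓ x₁ x₂ Ψ M₁ M₂ K c d τ -
        F12 ℓ x₁ x₂ Ψ M₁ M₂ K c (σ⁻¹ (pr ℓ E₀ a (σ d))) τ)
        (tk B (pr ℓ E₀ a (c * σ d)) (D.et a))) ∈ RM M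

/-! The output rows (statements in `StmtsX.lean`).

FIE.  Proof.  TS5.  FWD for all the sums `FWS` (linear in `F`, because `mob` is; `κ_a = pr a (c σ d) ∈ a`, PRB (5)).  The terms with `LL B (etl ..)`: for the differences `F^{cd} - F^{c_a d}` they cancel; for
`- cS a FWS σ a F^{cd}` they give `+ cS a x₁(κ_a⁻¹) x₂((σ⁻¹ κ_a)⁻¹)/ℓ² LL B (etl a κ_a ⊥)`, the last sum of `MNE`, where only the `σ` with `c σ d ≠ 1` occur: if `c σ d = 1` then `c σ d ∈ a`, there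
is no such `a`.  The terms with `SE1` are in `RM M` (WTA, the coefficients are in `ℓ⁻² Rl ℓ`).  The terms with `LW`, and DAV for `DAS`: the sum is the one of DVS for `Λ = LW`
(WTA (3)), in `RM M`.  `n = ℓ ^ r`, `0 < r`, from `PE.pw`.

PPC.  Proof.  As `SO.PpcStmt` (`Helper79_ASO` or the file of row PPC in squad ASO): choose `K₀` with `ℓ^K₀ mob F₁₃ L`, `ℓ^K₀ mob F₁₂ L ∈ Rl ℓ` for all `L`; `ux U W x`, `cS` (for `W ≠ ⊥`) are in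
`1 + ℓ Rl ℓ`, they and their inverses are congruent modulo `ℓ^K` for `U`, `U'`; `N13`, `N12` are integers; `M13`, `M12` for `fx`, `fx'` are EQUAL (only the values `fx W g` with `g ∈ E₀`, `mp g W = W`, `|W| = ℓ` occur:
`M13`: `g = w.1⁻¹ w.2.1`, `mp g (pL L) = pL L`), but they need not be in `Rl ℓ`: choose `K₀` such that `ℓ^K₀ mob F L M12 κ L`, `ℓ^K₀ mob F L M13 L` are in `Rl ℓ`, too (finitely many rational numbers, `fx` is given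
before `K₀`). -/

end Pool.Agent.PP.SE
end
end -- Pool.Agent.ASE.Stmts5

section -- Pool.Agent.Helper18_ASE.FWA

/-!
# Squad ASE, row FWA: the sums `FWS` at `κ et`
-/

open scoped BigOperators

noncomputable section

namespace Pool.Agent.PP.SE.H18

open Pool.Agent.Helper51_AWC Pool.Agent.Helper79_WRA Pool.Agent.PP Pool.Agent.PP.KF
open Pool.Agent.PP.K9 Pool.Agent.PP.K9.H97 Pool.Agent.PP.H75 Pool.Agent.PP.T3 Pool.Agent.PP.SO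
open Pool.Agent.PP.SD

attribute [local instance] Ideal.Quotient.field

section gen

open Classical

theorem fif {α β : Type} [AddCommMonoid β] [Fintype α] (S : Set α) (f : α → β) :
    ∑ᶠ s ∈ S, f s = ∑ s, if s ∈ S then f s else 0 := by
  rw [finsum_eq_sum_of_fintype]
  exact Finset.sum_congr rfl fun s _ => finsum_eq_if

/-- a generated subgroup of a group of prime order -/
theorem clo {V₀ : Type} [CommGroup V₀] {ℓ : ℕ} [Fact ℓ.Prime] (a : Subgroup V₀)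
    (ha : Nat.card a = ℓ) (S : Set V₀) (hS : ∀ x ∈ S, x ∈ a) :
    (Subgroup.closure S = a ↔ ¬ ∀ x ∈ S, x = 1) := by
  have hp : ℓ.Prime := Fact.out
  have : Fact (Nat.card a).Prime := ⟨ha ▸ hp⟩
  have hle : Subgroup.closure S ≤ a := (Subgroup.closure_le a).2 hS
  have hab : a ≠ ⊥ := by
    intro h
    rw [h, Subgroup.card_bot] at ha
    exact hp.one_lt.ne ha
  constructor
  · intro h h1
    apply hab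
    rw [← h, eq_bot_iff]
    refine (Subgroup.closure_le _).2 fun x hx => ?_
    rw [h1 x hx]
    exact Subgroup.one_mem _
  · intro h
    have h2 := Subgroup.eq_bot_or_eq_top_of_prime_card ((Subgroup.closure S).subgroupOf a)
    rcases h2 with h2 | h2
    · exfalso
      apply h
      intro x hx
      have h3 : (⟨x, hS x hx⟩ : a) ∈ (Subgroup.closure S).subgroupOf a :=
        Subgroup.mem_subgroupOf.2 (Subgroup.subset_closure hx)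
      rw [h2] at h3
      exact congrArg Subtype.val (Subgroup.mem_bot.1 h3)
    · exact le_antisymm hle (Subgroup.subgroupOf_eq_top.1 h2)

variable {V₀ : Type} [CommGroup V₀] {n : ℕ}

/-- Möbius inversion with two exceptional subsets -/
theorem mb2 (mbi : MbiStmt) {A : Type} [Fintype A] (F : Set A → ℚ) (T P Q : Set A) (hP : P ⊆ T)
    (hQ : Q ⊆ T) :
    ∑ L, (if L ⊆ T ∧ ¬ L ⊆ P ∧ ¬ L ⊆ Q then mob F L else 0) = F T - F P - F Q + F (P ∩ Q) := by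
  have h := (mbi A F).1
  rw [← h T, ← h P, ← h Q, ← h (P ∩ Q), fif, fif, fif, fif, ← Finset.sum_sub_distrib,
    ← Finset.sum_sub_distrib, ← Finset.sum_add_distrib]
  refine Finset.sum_congr rfl fun L _ => ?_
  simp only [Set.mem_ofPred_eq, Set.subset_inter_iff]
  by_cases h1 : L ⊆ P
  · have h2 : L ⊆ T := h1.trans hP
    by_cases h3 : L ⊆ Q
    · rw [if_neg (by tauto), if_pos h2, if_pos h1, if_pos h3, if_pos ⟨h1, h3⟩]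
      ring
    · rw [if_neg (by tauto), if_pos h2, if_pos h1, if_neg h3, if_neg (by tauto)]
      ring
  · by_cases h3 : L ⊆ Q
    · have h2 : L ⊆ T := h3.trans hQ
      rw [if_neg (by tauto), if_pos h2, if_neg h1, if_pos h3, if_neg (by tauto)]
      ring
    · by_cases h2 : L ⊆ T
      · rw [if_pos ⟨h2, h1, h3⟩, if_pos h2, if_neg h1, if_neg h3, if_neg (by tauto)]
        ring
      · rw [if_neg (by tauto), if_neg h2, if_neg h1, if_neg h3, if_neg (by tauto)]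
        ring

theorem pL_iff {ℓ : ℕ} [Fact ℓ.Prime] (a : Subgroup V₀) (ha : Nat.card a = ℓ)
    (L : Set (SO.SS n V₀)) (hL : ∀ s ∈ L, s.2.2.1 ∈ a) :
    pL L = a ↔ ¬ ∀ s ∈ L, s.2.2.1 = 1 := by
  have h := clo (ℓ := ℓ) a ha {p | ∃ s ∈ L, s.2.2.1 = p} (by
    rintro x ⟨s, hs, rfl⟩
    exact hL s hs)
  refine h.trans (not_congr ⟨fun h1 s hs => h1 _ ⟨s, hs, rfl⟩, ?_⟩)
  rintro h1 x ⟨s, hs, rfl⟩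
  exact h1 s hs

theorem aL_iff {ℓ : ℕ} [Fact ℓ.Prime] (a : Subgroup V₀) (ha : Nat.card a = ℓ) (κ : V₀)
    (L : Set (SO.SS n V₀)) (hL : ∀ s ∈ L, κ ^ (s.2.1 : ℕ) * s.2.2.1 ∈ a) :
    aL κ L = a ↔ ¬ ∀ s ∈ L, κ ^ (s.2.1 : ℕ) * s.2.2.1 = 1 := by
  have h := clo (ℓ := ℓ) a ha {p | ∃ s ∈ L, κ ^ (s.2.1 : ℕ) * s.2.2.1 = p} (by
    rintro x ⟨s, hs, rfl⟩
    exact hL s hs)
  refine h.trans (not_congr ⟨fun h1 s hs => h1 _ ⟨s, hs, rfl⟩, ?_⟩)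
  rintro h1 x ⟨s, hs, rfl⟩
  exact h1 s hs

theorem mem_pL (L : Set (SO.SS n V₀)) (s : SO.SS n V₀) (hs : s ∈ L) : s.2.2.1 ∈ pL L :=
  Subgroup.subset_closure ⟨s, hs, rfl⟩

theorem ql_iff (E₀ : Subgroup (MulAut V₀)) (κ : V₀) (L : Set (SO.SS n V₀))
    (w : MulAut V₀ × V₀) : w ∈ QL E₀ (LT (TL κ L)) ↔ w.1 ∈ E₀ ∧ ∀ s ∈ L,
      w.1 (κ ^ (s.2.1 : ℕ) * s.2.2.1 * w.2 ^ (s.1 : ℕ)) = κ ^ (s.2.1 : ℕ) * s.2.2.1 := by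
  constructor
  · rintro ⟨h1, h2⟩
    refine ⟨h1, fun s hs => ?_⟩
    have h3 := h2 (κ ^ (s.2.1 : ℕ) * s.2.2.1, κ ^ (s.2.1 : ℕ) * s.2.2.1, ((s.1 : ℕ) : ℤ))
      ⟨(κ ^ (s.2.1 : ℕ) * s.2.2.1, (s.1 : ℕ)), ⟨s, hs, rfl⟩, rfl⟩
    simpa only [zpow_natCast] using h3
  · rintro ⟨h1, h2⟩
    refine ⟨h1, ?_⟩
    rintro t ⟨u, ⟨s, hs, rfl⟩, rfl⟩
    have h3 := h2 s hs
    simpa only [zpow_natCast] using h3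

/-- the sets `L` for a pair `(τ, y)` -/
theorem set_iff {ℓ : ℕ} [Fact ℓ.Prime] (E₀ : Subgroup (MulAut V₀)) (σ : MulAut V₀)
    (a : Subgroup V₀) (ha : Nat.card a = ℓ) (κ : V₀) (hκ : κ ∈ a) (w : MulAut V₀ × V₀)
    (hw : w.1 ∈ E₀) (L : Set (SO.SS n V₀)) :
    ((pL L = a ∧ (∀ s ∈ L, σ s.2.2.2 = s.2.2.1) ∧ aL κ L = a) ∧ w ∈ QL E₀ (LT (TL κ L))) ↔
      (L ⊆ TA σ a κ w.1 w.2 ∧ ¬ L ⊆ P1 (TA σ a κ w.1 w.2) ∧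
        ¬ L ⊆ A1 κ (TA σ a κ w.1 w.2)) := by
  have hk : ∀ s : SO.SS n V₀, s.2.2.1 ∈ a → κ ^ (s.2.1 : ℕ) * s.2.2.1 ∈ a := fun s hs =>
    a.mul_mem (a.pow_mem hκ _) hs
  rw [ql_iff]
  constructor
  · rintro ⟨⟨h1, h2, h3⟩, -, h4⟩
    have h5 : ∀ s ∈ L, s.2.2.1 ∈ a := fun s hs => h1 ▸ mem_pL L s hs
    have h6 : L ⊆ TA σ a κ w.1 w.2 := fun s hs => ⟨h5 s hs, h2 s hs, h4 s hs⟩
    refine ⟨h6, fun h => ?_, fun h => ?_⟩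
    · exact (pL_iff (ℓ := ℓ) a ha L h5).1 h1 fun s hs => (h hs).2
    · exact (aL_iff (ℓ := ℓ) a ha κ L fun s hs => hk s (h5 s hs)).1 h3 fun s hs => (h hs).2
  · rintro ⟨h1, h2, h3⟩
    have h5 : ∀ s ∈ L, s.2.2.1 ∈ a := fun s hs => (h1 hs).1
    refine ⟨⟨?_, fun s hs => (h1 hs).2.1, ?_⟩, hw, fun s hs => (h1 hs).2.2⟩
    · exact (pL_iff (ℓ := ℓ) a ha L h5).2 fun h => h2 fun s hs => ⟨h1 hs, h s hs⟩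
    · exact (aL_iff (ℓ := ℓ) a ha κ L fun s hs => hk s (h5 s hs)).2 fun h =>
        h3 fun s hs => ⟨h1 hs, h s hs⟩

end gen

open Classical in
theorem fwa (hxy : HxyStmt) (hye : HyeStmt) (mbi : MbiStmt) : FwaStmt := by
  intro ℓ _ M _ hM hl V₀ G _ _ _ _ E₀ hF B hB D hD n m hP a ha κ hκ σ hσ F
  have : Fintype (SO.SS n V₀) := Fintype.ofFinite _
  have : Fintype (MulAut V₀ × V₀) := Fintype.ofFinite _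
  have hp : ℓ.Prime := Fact.out
  have hac : Nat.card a = ℓ := ha.1
  have hab : a ≠ ⊥ := by
    intro h
    rw [h, Subgroup.card_bot] at hac
    exact hp.one_lt.ne hac
  have e1 := hD.e1 a hab
  have e2 := hD.e2 a hab
  have hX : ∀ L : Set (SO.SS n V₀), aL κ L = a → HX B m a (tk B κ (D.et a)) L =
      ∑ w, if w ∈ QL E₀ (LT (TL κ L)) then wtE ℓ E₀ B D a κ w.1 w.2 else 0 := by
    intro L hL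
    rw [((hxy ℓ M hM V₀ G E₀ hF B hB.toSb n m hP L κ).2.2 a (D.et a) hκ e1.sup e2),
      hye ℓ M hM hl V₀ G E₀ hF B hB D hD n m hP a ha κ hκ (TL κ L) ?_, fif]
    rw [← hL]
    unfold aL
    congr 1
    ext x
    constructor
    · rintro ⟨t, ⟨s, hs, rfl⟩, rfl⟩
      exact ⟨s, hs, rfl⟩
    · rintro ⟨s, hs, rfl⟩
      exact ⟨_, ⟨s, hs, rfl⟩, rfl⟩
  have hBr : ∀ w : MulAut V₀ × V₀, w.1 ∈ E₀ → Br F κ (TA σ a κ w.1 w.2) =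
      ∑ L : Set (SO.SS n V₀), if ((pL L = a ∧ (∀ s ∈ L, σ s.2.2.2 = s.2.2.1) ∧ aL κ L = a) ∧
        w ∈ QL E₀ (LT (TL κ L))) then mob F L else 0 := by
    intro w hw
    have h1 : P1 (A1 κ (TA σ a κ w.1 w.2)) =
        (P1 (TA σ a κ w.1 w.2) ∩ A1 κ (TA σ a κ w.1 w.2) : Set (SO.SS n V₀)) := by
      ext s
      constructor
      · rintro ⟨⟨h1, h2⟩, h3⟩
        exact ⟨⟨h1, h3⟩, h1, h2⟩
      · rintro ⟨⟨h1, h2⟩, h3, h4⟩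
        exact ⟨⟨h1, h4⟩, h2⟩
    unfold Br
    rw [h1, ← mb2 mbi F (TA σ a κ w.1 w.2) _ _ (fun s hs => hs.1) (fun s hs => hs.1)]
    refine Finset.sum_congr rfl fun L _ => ?_
    exact if_congr (set_iff (ℓ := ℓ) E₀ σ a hac κ hκ w hw L).symm rfl rfl
  have hA : (∑ᶠ w ∈ {w : MulAut V₀ × V₀ | w.1 ∈ E₀}, wtE ℓ E₀ B D a κ w.1 w.2 *
      ((Br F κ (TA σ a κ w.1 w.2) : ℚ) : ℂ)) = ∑ L : Set (SO.SS n V₀),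
        if (pL L = a ∧ (∀ s ∈ L, σ s.2.2.2 = s.2.2.1) ∧ aL κ L = a) then
          ((mob F L : ℚ) : ℂ) * HX B m a (tk B κ (D.et a)) L else 0 := by
    rw [fif]
    have h1 : ∀ w : MulAut V₀ × V₀, (if w ∈ {w : MulAut V₀ × V₀ | w.1 ∈ E₀} then
        wtE ℓ E₀ B D a κ w.1 w.2 * ((Br F κ (TA σ a κ w.1 w.2) : ℚ) : ℂ) else 0) =
        ∑ L : Set (SO.SS n V₀), if ((pL L = a ∧ (∀ s ∈ L, σ s.2.2.2 = s.2.2.1) ∧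
          aL κ L = a) ∧ w ∈ QL E₀ (LT (TL κ L))) then
          wtE ℓ E₀ B D a κ w.1 w.2 * ((mob F L : ℚ) : ℂ) else 0 := by
      intro w
      by_cases hw : w.1 ∈ E₀
      · have hw' : w ∈ {w : MulAut V₀ × V₀ | w.1 ∈ E₀} := hw
        rw [if_pos hw', hBr w hw, Rat.cast_sum, Finset.mul_sum]
        refine Finset.sum_congr rfl fun L _ => ?_
        by_cases h : ((pL L = a ∧ (∀ s ∈ L, σ s.2.2.2 = s.2.2.1) ∧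
          aL κ L = a) ∧ w ∈ QL E₀ (LT (TL κ L)))
        · rw [if_pos h, if_pos h]
        · rw [if_neg h, if_neg h, Rat.cast_zero, mul_zero]
      · have hw' : w ∉ {w : MulAut V₀ × V₀ | w.1 ∈ E₀} := hw
        rw [if_neg hw']
        symm
        refine Finset.sum_eq_zero fun L _ => ?_
        exact if_neg fun h => hw ((ql_iff E₀ κ L w).1 h.2).1
    rw [Finset.sum_congr rfl fun w _ => h1 w, Finset.sum_comm]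
    refine Finset.sum_congr rfl fun L _ => ?_
    by_cases h : (pL L = a ∧ (∀ s ∈ L, σ s.2.2.2 = s.2.2.1) ∧ aL κ L = a)
    · rw [if_pos h, hX L h.2.2, Finset.mul_sum]
      refine Finset.sum_congr rfl fun w _ => ?_
      by_cases h2 : w ∈ QL E₀ (LT (TL κ L))
      · rw [if_pos ⟨h, h2⟩, if_pos h2, mul_comm]
      · rw [if_neg (fun h3 => h2 h3.2), if_neg h2, mul_zero]
    · rw [if_neg h]
      exact Finset.sum_eq_zero fun w _ => if_neg fun h3 => h h3.1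
  rw [hA]
  unfold FWS
  rw [fif, fif, ← Finset.sum_add_distrib]
  refine Finset.sum_congr rfl fun L _ => ?_
  by_cases h1 : pL L = a ∧ ∀ s ∈ L, σ s.2.2.2 = s.2.2.1
  · have h5 : ∀ s ∈ L, κ ^ (s.2.1 : ℕ) * s.2.2.1 ∈ a := fun s hs =>
      a.mul_mem (a.pow_mem hκ _) (h1.1 ▸ mem_pL L s hs)
    have h6 := aL_iff (ℓ := ℓ) a hac κ L h5
    have h1' : L ∈ {L : Set (SO.SS n V₀) | pL L = a ∧ ∀ s ∈ L, σ s.2.2.2 = s.2.2.1} := h1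
    rw [if_pos h1']
    by_cases h7 : ∀ s ∈ L, κ ^ (s.2.1 : ℕ) * s.2.2.1 = 1
    · have h8 : L ∈ {L : Set (SO.SS n V₀) | pL L = a ∧ (∀ s ∈ L, σ s.2.2.2 = s.2.2.1) ∧
        ∀ s ∈ L, κ ^ (s.2.1 : ℕ) * s.2.2.1 = 1} := ⟨h1.1, h1.2, h7⟩
      rw [if_pos h8, if_neg (fun h9 => h6.1 h9.2.2 h7), zero_add]
    · have h8 : L ∉ {L : Set (SO.SS n V₀) | pL L = a ∧ (∀ s ∈ L, σ s.2.2.2 = s.2.2.1) ∧
        ∀ s ∈ L, κ ^ (s.2.1 : ℕ) * s.2.2.1 = 1} := fun h => h7 h.2.2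
      rw [if_neg h8, if_pos ⟨h1.1, h1.2, h6.2 h7⟩, add_zero]
  · have h1' : L ∉ {L : Set (SO.SS n V₀) | pL L = a ∧ ∀ s ∈ L, σ s.2.2.2 = s.2.2.1} := h1
    have h8 : L ∉ {L : Set (SO.SS n V₀) | pL L = a ∧ (∀ s ∈ L, σ s.2.2.2 = s.2.2.1) ∧
        ∀ s ∈ L, κ ^ (s.2.1 : ℕ) * s.2.2.1 = 1} := fun h => h1 ⟨h.1, h.2.1⟩
    rw [if_neg h1', if_neg h8, if_neg (fun h => h1 ⟨h.1, h.2.1⟩), zero_add]

end Pool.Agent.PP.SE.H18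
end
end -- Pool.Agent.Helper18_ASE.FWA

section -- Pool.Agent.Helper33_ASE.BRV

/-!
# Squad ASE: row BRV (the alternating sums `Br` at the types `TA`)
-/

open scoped BigOperators

noncomputable section

namespace Pool.Agent.PP.SE.H33

open Pool.Agent.Helper51_AWC Pool.Agent.Helper79_WRA Pool.Agent.PP Pool.Agent.PP.KF
open Pool.Agent.PP.K9 Pool.Agent.PP.K9.H97 Pool.Agent.PP.H75 Pool.Agent.PP.T3 Pool.Agent.PP.SO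
open Pool.Agent.PP.SD Pool.Agent.PP.SE

theorem hm_one {V₀ : Type} [CommGroup V₀] {ℓ : ℕ} {ρ : V₀ → ZMod ℓ} (h : Hm ρ) : ρ 1 = 0 := by
  have h1 := h 1 1
  rw [mul_one] at h1
  have h2 : ρ 1 + 0 = ρ 1 + ρ 1 := by
    rw [add_zero]
    exact h1
  exact (add_left_cancel h2).symm

/-- BRV -/
theorem brv (hTya : TyaStmt) (hFva : FvaStmt) : BrvStmt := by
  intro ℓ hℓ V₀ _ _ E₀ hq n ρ₁ ρ₂ hn hρ₁ hρ₂ x₁ x₂ hx₁ hx₂ F₁₃ Ψ M₁ M₂ K hFE kc kd σ τ a κ y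
    ha hσ hτ hκ
  obtain ⟨hf1, hf2, hf3, hf4, hf5, hf6⟩ := hFva ℓ V₀ hq.ex n ρ₁ ρ₂ hn hρ₁ hρ₂ x₁ x₂ hx₁ hx₂
    F₁₃ Ψ M₁ M₂ K hFE kc kd
  obtain ⟨ht1, ht2, ht3⟩ := hTya ℓ V₀ E₀ hq n σ τ a κ y ha hσ hτ
  have hn0 : 0 < n := by
    obtain ⟨r, -, rfl⟩ := hn
    exact pow_pos hℓ.out.pos r
  obtain ⟨F, hF⟩ : ∃ F : Set (SO.SS n V₀) → ℚ, F = F12 ℓ x₁ x₂ Ψ M₁ M₂ K kc kd := ⟨_, rfl⟩
  rw [← hF] at hf1 hf2 hf3 hf4 ⊢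
  -- types with all `p = q = 1`
  have hone : ∀ S : Set (SO.SS n V₀), (∀ s ∈ S, s.2.2.1 = 1 ∧ s.2.2.2 = 1) →
      F S = (x₁ kc⁻¹ * x₂ kd⁻¹ : ℤ) / (ℓ : ℚ) ^ 2 := by
    intro S hS
    apply hf2
    · intro s hs _ _
      exact hS s hs
    · intro s hs
      rw [(hS s hs).1, (hS s hs).2]
      exact ⟨hm_one hρ₁, hm_one hρ₂⟩
  obtain ⟨T, hT⟩ : ∃ T : Set (SO.SS n V₀), T = TA σ a κ τ y := ⟨_, rfl⟩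
  rw [← hT] at ht1 ht2 ht3 ⊢
  have hTσ : ∀ s ∈ T, σ s.2.2.2 = s.2.2.1 := by
    intro s hs
    rw [hT] at hs
    exact hs.2.1
  have hTq : ∀ s ∈ T, s.2.2.2 = σ⁻¹ s.2.2.1 := by
    intro s hs
    rw [← hTσ s hs, MulAut.inv_apply_self]
  have hP1 : F (P1 T) = (x₁ kc⁻¹ * x₂ kd⁻¹ : ℤ) / (ℓ : ℚ) ^ 2 := by
    apply hone
    intro s hs
    refine ⟨hs.2, ?_⟩
    rw [hTq s hs.1, hs.2, map_one]
  have hPA : F (P1 (A1 κ T)) = (x₁ kc⁻¹ * x₂ kd⁻¹ : ℤ) / (ℓ : ℚ) ^ 2 := by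
    apply hone
    intro s hs
    refine ⟨hs.2, ?_⟩
    rw [hTq s hs.1.1, hs.2, map_one]
  have hinv : (σ⁻¹ κ)⁻¹ = σ⁻¹ κ⁻¹ := (map_inv _ _).symm
  -- the part `A1`
  have hA : ∀ I : Set (Fin n), (∃ i ∈ I, (i : ℕ) = 0) →
      (∀ s : SO.SS n V₀, s.2.2.1 = κ⁻¹ ^ (s.2.1 : ℕ) → s.2.2.2 = σ⁻¹ s.2.2.1 →
        (s ∈ T ↔ s.1 ∈ I)) →
      F (A1 κ T) = (x₁ kc⁻¹ * x₂ kd⁻¹ - x₁ κ⁻¹ * x₂ (σ⁻¹ κ)⁻¹ : ℤ) / (ℓ : ℚ) ^ 2 := by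
    intro I hI hI2
    rw [← hf3 κ⁻¹ (σ⁻¹ κ)⁻¹ I hI]
    congr 1
    ext s
    simp only [A1, Set.mem_ofPred_eq]
    constructor
    · rintro ⟨hs, hs2⟩
      have h1 : s.2.2.1 = κ⁻¹ ^ (s.2.1 : ℕ) := by
        rw [inv_pow]
        exact eq_inv_of_mul_eq_one_right hs2
      have h2 := hTq s hs
      refine ⟨(hI2 s h1 h2).1 hs, h1, ?_⟩
      rw [h2, h1, hinv, map_pow]
    · rintro ⟨hs, h1, h2⟩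
      have h3 : s.2.2.2 = σ⁻¹ s.2.2.1 := by
        rw [h2, h1, hinv, map_pow]
      refine ⟨(hI2 s h1 h3).2 hs, ?_⟩
      rw [h1, inv_pow, mul_inv_cancel]
  refine ⟨?_, ?_, ?_⟩
  · -- `τ ∈ St E₀ a`
    intro hst
    have hT1 := (ht1 hst).1 hκ
    have hFT : F T = 0 := by
      apply hf1
      intro hfre
      have hne : ∃ p ∈ a, p ≠ 1 := by
        by_contra hno
        push Not at hno
        have hbot : a = ⊥ := by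
          rw [Subgroup.eq_bot_iff_forall]
          exact hno
        rw [hbot, Subgroup.card_bot] at ha
        exact hℓ.out.one_lt.ne ha
      obtain ⟨p, hp, hp1⟩ := hne
      have hs : ((⟨0, hn0⟩, ⟨0, hn0⟩, p, σ⁻¹ p) : SO.SS n V₀) ∈ T := by
        rw [hT1]
        exact ⟨hp, rfl, pow_zero y⟩
      exact hp1 (hfre _ hs rfl rfl).1
    have hFA := hA {i | y ^ (i : ℕ) = 1} ⟨⟨0, hn0⟩, pow_zero y, rfl⟩ (by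
      intro s h1 h2
      rw [hT1]
      constructor
      · intro hs
        exact hs.2.2
      · intro hs
        refine ⟨?_, h2, hs⟩
        rw [h1]
        exact a.pow_mem (a.inv_mem hκ) _)
    unfold Br
    rw [hFT, hP1, hPA, hFA]
    ring
  · -- `y = τ⁻¹ ζ ζ⁻¹`
    intro hst ζ hζ hζ1 hy
    have hT2 := (ht2 hst ζ hζ hζ1 hy).1 hκ
    have hFT : F T = (x₁ kc⁻¹ * x₂ kd⁻¹ - x₁ κ⁻¹ * x₂ (σ⁻¹ κ)⁻¹ - 12 * ((x₁ kc⁻¹ - x₁ κ⁻¹) *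
        x₂ (σ⁻¹ ζ) + (x₂ kd⁻¹ - x₂ (σ⁻¹ κ)⁻¹) * x₁ ζ) : ℤ) / (ℓ : ℚ) ^ 2 := by
      rw [hT2]
      exact hf4 ζ (σ⁻¹ ζ) κ⁻¹ (σ⁻¹ κ)⁻¹
    have hFA := hA {i | ζ ^ (i : ℕ) = 1} ⟨⟨0, hn0⟩, pow_zero ζ, rfl⟩ (by
      intro s h1 h2
      rw [hT2]
      constructor
      · intro hs
        have h3 : s.2.2.1 = ζ ^ (s.1 : ℕ) * κ⁻¹ ^ (s.2.1 : ℕ) := hs.1
        rw [h1] at h3
        change ζ ^ (s.1 : ℕ) = 1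
        exact (mul_eq_right.1 h3.symm)
      · intro hs
        have h4 : ζ ^ (s.1 : ℕ) = 1 := hs
        refine ⟨?_, ?_⟩
        · rw [h4, one_mul]
          exact h1
        · have h5 : (σ⁻¹ ζ) ^ (s.1 : ℕ) = 1 := by
            rw [← map_pow, h4, map_one]
          rw [h5, one_mul, h2, h1, hinv, map_pow])
    unfold Br BrF
    rw [hFT, hP1, hPA, hFA]
    push_cast
    ring
  · -- all `α = 1`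
    intro hst hy
    have hT3 := (ht3 hst hy).1 hκ
    have hAT : A1 κ T = T := by
      ext s
      constructor
      · intro hs
        exact hs.1
      · intro hs
        exact ⟨hs, hT3 s hs⟩
    unfold Br
    rw [hAT]
    ring

end Pool.Agent.PP.SE.H33
end
end -- Pool.Agent.Helper33_ASE.BRV

section -- Pool.Agent.Helper61_ASE.LET

/-!
# LET: the labels `et`
-/

set_option autoImplicit false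
set_option linter.unusedSectionVars false

open scoped BigOperators

noncomputable section

namespace Pool.Agent.PP.SE.H61

open Pool.Agent.Helper51_AWC Pool.Agent.Helper79_WRA Pool.Agent.PP Pool.Agent.PP.KF
open Pool.Agent.PP.K9 Pool.Agent.PP.K9.H97 Pool.Agent.PP.H75 Pool.Agent.PP.T3 Pool.Agent.PP.SO
open Pool.Agent.PP.SD

attribute [local instance] Ideal.Quotient.field

theorem let_ : LetStmt := by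
  intro ℓ hℓ M hM hlM hl2 V₀ G _ _ _ _ E₀ hFq B hSb D hRs a ha κ hκ
  classical
  haveI := Fintype.ofFinite G
  have hca : Nat.card a = ℓ := ha.1
  have hab : a ≠ ⊥ := by
    intro h
    rw [h, Subgroup.card_bot] at hca
    exact hℓ.out.one_lt.ne hca
  have hCz := hRs.e1 a hab
  refine ⟨1, fun _ => a, fun _ s => (Nat.card (B.C a) : ℂ)⁻¹ * D.et a s, fun _ => ?_, ?_⟩
  · refine ⟨hκ, ?_, ?_, ?_, ?_⟩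
    · intro s hs
      simp only
      rw [hCz.sup s hs, mul_zero]
    · intro s hs
      simp only
      rw [hRs.e2 a hab s hs, mul_zero]
    · intro z hz s
      simp only
      rw [hCz.cls z hz s]
    · intro s hs
      have h := hRs.e5 a hab s hs
      have hc : (Nat.card (B.C a) : ℂ) ≠ 0 := by
        have : 0 < Nat.card (B.C a) := Nat.card_pos
        exact_mod_cast this.ne'
      simp only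
      rw [hca]
      have e : (ℓ : ℂ) * ((Nat.card (B.C a) : ℂ) * ((Nat.card (B.C a) : ℂ)⁻¹ * D.et a s)) =
          (ℓ : ℂ) * D.et a s := by
        rw [← mul_assoc (Nat.card (B.C a) : ℂ), mul_inv_cancel₀ hc, one_mul]
      rw [e]
      exact h
  · intro W N hN
    rw [Fin.sum_univ_one]
    have hkey : ∀ c : ℂ, ∑ᶠ s : G, c * D.et a s * N (B.i κ * s) =
        c * ∑ᶠ g : G, tk B κ (D.et a) g * N g := by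
      intro c
      rw [finsum_eq_sum_of_fintype, finsum_eq_sum_of_fintype, Finset.mul_sum]
      refine Fintype.sum_equiv (Equiv.mulLeft (B.i κ)) _ _ fun s => ?_
      simp only [Equiv.coe_mulLeft, tk, inv_mul_cancel_left]
      ring
    by_cases hWa : W = a
    · rw [if_pos hWa.le, hkey]
      subst hWa
      congr 1
      refine finsum_congr fun g => ?_
      rw [etl, if_pos rfl]
    · by_cases hWb : W = ⊥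
      · have hle : W ≤ a := hWb ▸ bot_le
        rw [if_pos hle, hkey]
        have hC : ∀ g : G, g ∈ B.C W := by
          intro g
          rw [hWb, Bk.C, Subgroup.map_bot]
          rw [Subgroup.mem_centralizer_iff]
          intro x hx
          rw [Subgroup.coe_bot, Set.mem_singleton_iff] at hx
          rw [hx, one_mul, mul_one]
        have hcard : Nat.card (B.C W) = Nat.card G := by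
          have : B.C W = ⊤ := by
            rw [eq_top_iff]
            exact fun g _ => hC g
          rw [this, Subgroup.card_top]
        have hG : (Nat.card G : ℂ) ≠ 0 := by
          have : 0 < Nat.card G := Nat.card_pos
          exact_mod_cast this.ne'
        have e1 : ∀ g, etl B D a κ W g = (Nat.card (B.C a) : ℂ)⁻¹ *
            ∑ z : G, tk B κ (D.et a) (z⁻¹ * g * z) := by
          intro g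
          rw [etl, if_neg hWa, if_pos hWb, finsum_eq_sum_of_fintype]
        have e2 : ∑ᶠ g : G, etl B D a κ W g * N g = (Nat.card (B.C a) : ℂ)⁻¹ *
            (Nat.card G * ∑ g : G, tk B κ (D.et a) g * N g) := by
          rw [finsum_eq_sum_of_fintype]
          have e3 : ∀ z : G, ∑ g : G, tk B κ (D.et a) (z⁻¹ * g * z) * N g =
              ∑ g : G, tk B κ (D.et a) g * N g := by
            intro z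
            refine Fintype.sum_equiv (MulAut.conj z⁻¹).toEquiv _ _ fun g => ?_
            have h1 : (MulAut.conj z⁻¹).toEquiv g = z⁻¹ * g * z := by
              simp [MulAut.conj_apply]
            rw [h1]
            congr 1
            have h2 := hN z⁻¹ (hC _) g
            rw [inv_inv] at h2
            exact h2.symm
          have e4 : ∑ g : G, etl B D a κ W g * N g = (Nat.card (B.C a) : ℂ)⁻¹ *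
              ∑ z : G, ∑ g : G, tk B κ (D.et a) (z⁻¹ * g * z) * N g := by
            rw [Finset.sum_comm, Finset.mul_sum]
            refine Finset.sum_congr rfl fun g _ => ?_
            rw [e1, mul_assoc, Finset.sum_mul]
          rw [e4, Finset.sum_congr rfl fun z _ => e3 z, Finset.sum_const, Finset.card_univ,
            nsmul_eq_mul, Nat.card_eq_fintype_card (α := G)]
        rw [e2, hcard, finsum_eq_sum_of_fintype]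
        field_simp
      · have hle : ¬ W ≤ a := by
          intro h
          have h1 : Nat.card W ∣ ℓ := hca ▸ Subgroup.card_dvd_of_le h
          rcases (Nat.dvd_prime hℓ.out).1 h1 with h2 | h2
          · exact hWb (Subgroup.card_eq_one.1 h2)
          · exact hWa (Subgroup.eq_of_le_of_card_ge h (by rw [h2, hca]))
        rw [if_neg hle]
        have e0 : ∀ g, etl B D a κ W g = 0 := by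
          intro g
          rw [etl, if_neg hWa, if_neg hWb]
        have e1 : ∑ᶠ g : G, etl B D a κ W g * N g = 0 := by
          rw [← finsum_zero (α := G) (M := ℂ)]
          refine finsum_congr fun g => ?_
          rw [e0, zero_mul]
        rw [e1, mul_zero]

end Pool.Agent.PP.SE.H61
end
end -- Pool.Agent.Helper61_ASE.LET

section -- Pool.Agent.Helper61_ASE.LFM

/-!
# LFM: the labels at `W ≠ ⊥`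
-/

set_option autoImplicit false
set_option linter.unusedSectionVars false

open scoped BigOperators

noncomputable section

namespace Pool.Agent.PP.SE.H61

open Pool.Agent.Helper51_AWC Pool.Agent.Helper79_WRA Pool.Agent.PP Pool.Agent.PP.KF
open Pool.Agent.PP.K9 Pool.Agent.PP.K9.H97 Pool.Agent.PP.H75 Pool.Agent.PP.T3 Pool.Agent.PP.SO
open Pool.Agent.PP.SD

attribute [local instance] Ideal.Quotient.field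

theorem card_zp {ℓ : ℕ} [hℓ : Fact ℓ.Prime] {V₀ : Type} [CommGroup V₀] [Finite V₀] {c : V₀}
    (hc : c ≠ 1) (h : c ^ ℓ = 1) : Nat.card (Subgroup.zpowers c) = ℓ := by
  rw [Nat.card_zpowers]
  exact orderOf_eq_prime h hc

theorem kE_eq {ℓ : ℕ} {V₀ : Type} [CommGroup V₀] [Finite V₀] (E₀ : Subgroup (MulAut V₀)) (c : V₀) :
    kE E₀ c = nS E₀ (Subgroup.zpowers c) := by
  have h : Es E₀ c = St E₀ (Subgroup.zpowers c) := by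
    ext σ
    constructor
    · intro hσ
      refine ⟨hσ.1, fun w hw => ?_⟩
      obtain ⟨k, rfl⟩ := Subgroup.mem_zpowers_iff.1 hw
      rw [map_zpow, hσ.2]
    · intro hσ
      exact ⟨hσ.1, hσ.2 c (Subgroup.mem_zpowers c)⟩
  rw [kE, nS, h]

theorem lfm (hPRB : PrbStmt) : LfmStmt := by
  intro ℓ hℓ M hM hlM V₀ G _ _ _ _ E₀ hFq B hSb D hRs c hc W hW
  classical
  obtain ⟨-, -, -, -, -, -, h7, ⟨h8, -, -⟩, -, -⟩ := hPRB ℓ V₀ E₀ hFq W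
  obtain ⟨h71, h72⟩ := h7 hW
  have hzc : Nat.card (Subgroup.zpowers c) = ℓ := card_zp hc (hFq.ex c)
  have hle : W ≤ Subgroup.zpowers c → W = Subgroup.zpowers c := by
    intro h
    refine Subgroup.eq_of_le_of_card_ge h ?_
    rw [hzc]
    have h1 : Nat.card W ∣ ℓ := hzc ▸ Subgroup.card_dvd_of_le h
    rcases (Nat.dvd_prime hℓ.out).1 h1 with h2 | h2
    · exact absurd (Subgroup.card_eq_one.1 h2) hW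
    · exact h2.ge
  refine ⟨?_, ?_, ?_⟩
  · rintro ⟨-, hcW⟩ g
    have hn : ¬ W ≤ Subgroup.zpowers c := by
      intro h
      rw [hle h] at hcW
      exact hcW (Subgroup.mem_zpowers c)
    rw [mnl, fm, if_neg hn, if_neg hcW, if_neg hcW]
    ring
  · intro hno g
    by_cases hcW : c ∈ W
    · rcases h72 with h | h
      · have hn : ¬ W ≤ Subgroup.zpowers c := by
          intro h1
          have h2 := hle h1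
          have h3 : Nat.card V₀ = ℓ := by
            rw [← hzc, ← h2, h, Subgroup.card_top]
          rw [hFq.cd] at h3
          have h4 : ℓ ^ 1 < ℓ ^ 2 := Nat.pow_lt_pow_right hℓ.out.one_lt (by norm_num)
          rw [pow_one, h3] at h4
          exact lt_irrefl _ h4
        rw [mnl, fm, if_neg hn, if_pos hcW, if_pos hcW, h, h8]
        push_cast
        ring
      · have hWc : Subgroup.zpowers c = W := by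
          refine Subgroup.eq_of_le_of_card_ge ?_ ?_
          · rw [Subgroup.zpowers_le]
            exact hcW
          · rw [h, hzc]
        have hn : W ≤ Subgroup.zpowers c := hWc.ge
        rw [mnl, fm, if_pos hn, if_pos hcW, if_pos hcW, kE_eq (ℓ := ℓ), hWc]
        ring
    · have hnR : W ∉ RL ℓ E₀ := fun h => hno ⟨h, hcW⟩
      have h1 := hRs.f1 W hW (h71.resolve_right hnR)
      have hn : ¬ W ≤ Subgroup.zpowers c := by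
        intro h
        rw [hle h] at hcW
        exact hcW (Subgroup.mem_zpowers c)
      rw [mnl, fm, if_neg hn, if_neg hcW, if_neg hcW, tk, h1.1]
      simp
  · intro a κ g
    refine ⟨fun h => ?_, fun h => ?_⟩
    · rw [etl, if_pos h]
    · rw [etl, if_neg h, if_neg hW]

end Pool.Agent.PP.SE.H61
end
end -- Pool.Agent.Helper61_ASE.LFM

section -- Pool.Agent.Helper82_ASE.TYA

/-!
# Squad ASE, row TYA: the types `TA`, `TD`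
-/

open scoped BigOperators

noncomputable section

namespace Pool.Agent.PP.SE.H82

open Pool.Agent.Helper51_AWC Pool.Agent.Helper79_WRA Pool.Agent.PP Pool.Agent.PP.KF
open Pool.Agent.PP.K9 Pool.Agent.PP.K9.H97 Pool.Agent.PP.H75 Pool.Agent.PP.T3 Pool.Agent.PP.SO
open Pool.Agent.PP.SD

section

variable {V₀ : Type} [CommGroup V₀]

/-- an element which is fixed in a group of prime order -/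
theorem st_of_fix {ℓ : ℕ} [Fact ℓ.Prime] {E₀ : Subgroup (MulAut V₀)} {a : Subgroup V₀}
    {τ : MulAut V₀} (hc : Nat.card a = ℓ) (hτ : τ ∈ E₀) {β : V₀} (hβ : β ∈ a) (h1 : β ≠ 1)
    (hf : τ β = β) : τ ∈ St E₀ a := by
  refine ⟨hτ, fun w hw => ?_⟩
  have hpr : (Nat.card a).Prime := by rw [hc]; exact Fact.out
  have : Fact (Nat.card a).Prime := ⟨hpr⟩
  have hgen : (⟨w, hw⟩ : a) ∈ Subgroup.zpowers (⟨β, hβ⟩ : a) := by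
    have htop : Subgroup.zpowers (⟨β, hβ⟩ : a) = ⊤ :=
      zpowers_eq_top_of_prime_card (p := Nat.card a) rfl (fun h => h1 (congrArg Subtype.val h))
    rw [htop]
    exact Subgroup.mem_top _
  obtain ⟨k, hk⟩ := Subgroup.mem_zpowers_iff.1 hgen
  have hk' : β ^ k = w := by
    have := congrArg Subtype.val hk
    simpa using this
  rw [← hk', map_zpow, hf]

theorem inv_iff (σ : MulAut V₀) (p q : V₀) : σ q = p ↔ q = σ⁻¹ p := by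
  constructor
  · rintro rfl
    rw [MulAut.inv_apply_self]
  · rintro rfl
    rw [MulAut.apply_inv_self]

theorem fix_iff {τ : MulAut V₀} {α y : V₀} (hf : τ α = α) (i : ℕ) :
    τ (α * y ^ i) = α ↔ y ^ i = 1 := by
  rw [map_mul, hf]
  constructor
  · intro h
    have h2 : τ (y ^ i) = 1 := by
      have := mul_left_cancel (a := α) (b := τ (y ^ i)) (c := 1) (by rw [mul_one]; exact h)
      exact this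
    exact τ.injective (by rw [h2, map_one])
  · intro h
    rw [h, map_one, mul_one]

theorem two_iff {ℓ : ℕ} [Fact ℓ.Prime] {E₀ : Subgroup (MulAut V₀)} {a : Subgroup V₀}
    {τ : MulAut V₀} (hc : Nat.card a = ℓ) (hτ : τ ∈ E₀) (hS : τ ∉ St E₀ a) {ζ α : V₀}
    (hζ : ζ ∈ a) (hα : α ∈ a) (i : ℕ) :
    τ (α * (τ⁻¹ ζ * ζ⁻¹) ^ i) = α ↔ α = ζ ^ i := by
  have e1 : τ (α * (τ⁻¹ ζ * ζ⁻¹) ^ i) = τ (α * (ζ ^ i)⁻¹) * ζ ^ i := by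
    rw [mul_pow, inv_pow, ← map_pow (τ⁻¹) ζ i, map_mul τ α, map_mul τ (τ⁻¹ (ζ ^ i)),
      MulAut.apply_inv_self, map_mul τ α, mul_comm (ζ ^ i), mul_assoc]
  rw [e1]
  constructor
  · intro h
    by_contra hne
    apply hS
    refine st_of_fix hc hτ (β := α * (ζ ^ i)⁻¹) (a.mul_mem hα (a.inv_mem (a.pow_mem hζ i))) ?_ ?_
    · intro h1
      exact hne (mul_inv_eq_one.1 h1)
    · exact eq_mul_inv_of_mul_eq h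
  · intro h
    rw [h, mul_inv_cancel, map_one, one_mul]

theorem three {ℓ : ℕ} [Fact ℓ.Prime] {E₀ : Subgroup (MulAut V₀)} {a : Subgroup V₀}
    (hex : ∀ v : V₀, v ^ ℓ = 1)
    {τ : MulAut V₀} (hc : Nat.card a = ℓ) (hτ : τ ∈ E₀) (hS : τ ∉ St E₀ a) {α y : V₀}
    (hα : α ∈ a) (hy : ∀ ζ ∈ a, ζ ≠ 1 → y ≠ τ⁻¹ ζ * ζ⁻¹) (i : ℕ)
    (h : τ (α * y ^ i) = α) : α = 1 := by
  by_contra hne
  have hyi : y ^ i = τ⁻¹ α * α⁻¹ := by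
    have h2 : α * y ^ i = τ⁻¹ α := (inv_iff τ α _).1 h
    rw [← h2]
    exact (mul_inv_eq_of_eq_mul (mul_comm _ _)).symm
  by_cases hi : ℓ ∣ i
  · obtain ⟨j, rfl⟩ := hi
    rw [pow_mul, hex, one_pow] at hyi
    apply hS
    refine st_of_fix hc hτ hα hne ?_
    exact (inv_iff τ α α).2 (mul_inv_eq_one.1 hyi.symm).symm
  · have hcop : Nat.Coprime i ℓ :=
      ((Nat.Prime.coprime_iff_not_dvd Fact.out).2 hi).symm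
    obtain ⟨i', -, hi'⟩ := Nat.exists_mul_mod_eq_one_of_coprime hcop (Nat.Prime.one_lt Fact.out)
    have hpow : ∀ v : V₀, (v ^ i) ^ i' = v := by
      intro v
      rw [← pow_mul]
      have h3 : i * i' = ℓ * (i * i' / ℓ) + 1 := by
        have := Nat.div_add_mod (i * i') ℓ
        rw [hi'] at this
        exact this.symm
      rw [h3, pow_add, pow_mul, hex, one_pow, one_mul, pow_one]
    refine hy (α ^ i') (a.pow_mem hα i') ?_ ?_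
    · intro h1
      apply hne
      have := hpow α
      rw [← pow_mul, mul_comm, pow_mul, h1, one_pow] at this
      exact this.symm
    · have := hpow y
      rw [hyi, mul_pow] at this
      rw [← this, ← map_pow, inv_pow]

end

theorem tya : TyaStmt := by
  intro ℓ _ V₀ _ _ E₀ hF n σ τ a κ y hc hσ hτ
  refine ⟨?_, ?_, ?_⟩
  · intro hS
    have hfix : ∀ α ∈ a, τ α = α := hS.2
    refine ⟨fun hκ => ?_, ?_⟩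
    · ext s
      constructor
      · rintro ⟨h1, h2, h3⟩
        exact ⟨h1, (inv_iff _ _ _).1 h2,
          (fix_iff (hfix _ (a.mul_mem (a.pow_mem hκ _) h1)) _).1 h3⟩
      · rintro ⟨h1, h2, h3⟩
        exact ⟨h1, (inv_iff _ _ _).2 h2,
          (fix_iff (hfix _ (a.mul_mem (a.pow_mem hκ _) h1)) _).2 h3⟩
    · ext s
      constructor
      · rintro ⟨h1, h2, h3⟩
        exact ⟨h1, (inv_iff _ _ _).1 h2, (fix_iff (hfix _ h1) _).1 h3⟩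
      · rintro ⟨h1, h2, h3⟩
        exact ⟨h1, (inv_iff _ _ _).2 h2, (fix_iff (hfix _ h1) _).2 h3⟩
  · intro hS ζ hζ hζ1 hy
    subst hy
    have hp : ∀ (p : V₀) (i k : ℕ), κ ^ k * p = ζ ^ i ↔ p = ζ ^ i * κ⁻¹ ^ k := by
      intro p i k
      constructor
      · intro h
        rw [← h, inv_pow]
        exact (mul_inv_eq_of_eq_mul (mul_comm _ _)).symm
      · rintro rfl
        rw [inv_pow, mul_comm]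
        exact inv_mul_cancel_right _ _
    have hq : ∀ (i k : ℕ), σ⁻¹ (ζ ^ i * κ⁻¹ ^ k) = (σ⁻¹ ζ) ^ i * (σ⁻¹ κ)⁻¹ ^ k := by
      intro i k
      rw [map_mul, map_pow, map_pow, map_inv]
    refine ⟨fun hκ => ?_, ?_⟩
    · ext s
      constructor
      · rintro ⟨h1, h2, h3⟩
        have h4 := (two_iff hc hτ hS hζ (a.mul_mem (a.pow_mem hκ _) h1) _).1 h3
        have h5 := (hp _ _ _).1 h4
        refine ⟨h5, ?_⟩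
        rw [← hq, ← h5]
        exact (inv_iff _ _ _).1 h2
      · rintro ⟨h1, h2⟩
        have h4 := (hp _ _ _).2 h1
        have h0 : s.2.2.1 ∈ a := by
          rw [h1]
          exact a.mul_mem (a.pow_mem hζ _) (a.pow_mem (a.inv_mem hκ) _)
        refine ⟨h0, ?_, ?_⟩
        · rw [inv_iff, h1, hq]
          exact h2
        · exact (two_iff hc hτ hS hζ (a.mul_mem (a.pow_mem hκ _) h0) _).2 h4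
    · ext s
      constructor
      · rintro ⟨h1, h2, h3⟩
        have h4 := (two_iff hc hτ hS hζ h1 _).1 h3
        have h5 := (hp _ _ _).1 h4
        refine ⟨h5, ?_⟩
        rw [← hq, ← h5]
        exact (inv_iff _ _ _).1 h2
      · rintro ⟨h1, h2⟩
        have h4 := (hp _ _ _).2 h1
        have h0 : κ ^ (s.2.1 : ℕ) * s.2.2.1 ∈ a := by
          rw [h4]
          exact a.pow_mem hζ _
        refine ⟨h0, ?_, ?_⟩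
        · rw [inv_iff, h1, hq]
          exact h2
        · exact (two_iff hc hτ hS hζ h0 _).2 h4
  · intro hS hy
    refine ⟨fun hκ s hs => ?_, fun s hs => ?_⟩
    · obtain ⟨h1, h2, h3⟩ := hs
      exact three hF.ex hc hτ hS (a.mul_mem (a.pow_mem hκ _) h1) hy _ h3
    · obtain ⟨h1, h2, h3⟩ := hs
      exact three hF.ex hc hτ hS h1 hy _ h3

end Pool.Agent.PP.SE.H82
end
end -- Pool.Agent.Helper82_ASE.TYA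

section -- Pool.Agent.Helper86_ASE.FVA

/-!
# Squad ASE, row FVA: the values of `F12`
-/

open scoped BigOperators

set_option autoImplicit false

noncomputable section

namespace Pool.Agent.PP.SE.H86

open Pool.Agent.Helper51_AWC Pool.Agent.Helper79_WRA Pool.Agent.PP Pool.Agent.PP.KF
open Pool.Agent.PP.K9 Pool.Agent.PP.K9.H97 Pool.Agent.PP.H75 Pool.Agent.PP.T3 Pool.Agent.PP.SO
open Pool.Agent.PP.SD Pool.Agent.PP.SE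

attribute [local instance] Ideal.Quotient.field

theorem hm_one {V₀ : Type} [CommGroup V₀] {ℓ : ℕ} {ρ : V₀ → ZMod ℓ} (h : Hm ρ) : ρ 1 = 0 := by
  have h1 := h 1 1
  rw [mul_one] at h1
  exact left_eq_add.1 h1

theorem fva : FvaStmt := by
  classical
  intro ℓ _ V₀ _ _ hexp n ρ₁ ρ₂ hn hm₁ hm₂ x₁ x₂ hx₁ hx₂ F₁₃ Ψ M₁ M₂ K hF kc kd
  have hlp : ℓ.Prime := Fact.out
  have hl0 : (ℓ : ℚ) ≠ 0 := Nat.cast_ne_zero.2 hlp.ne_zero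
  obtain ⟨r, hr, hnr⟩ := hn
  have hn1 : 1 < n := by
    rw [hnr]
    exact Nat.one_lt_pow hr.ne' hlp.one_lt
  have h1 : ρ₁ 1 = 0 := hm_one hm₁
  have h2 : ρ₂ 1 = 0 := hm_one hm₂
  have hfr : ∀ τ : Set (SO.SS n V₀), Fre τ → F12 ℓ x₁ x₂ Ψ M₁ M₂ K kc kd τ =
      (x₁ kc⁻¹ : ℚ) / ℓ * ((x₂ kd⁻¹ : ℚ) / ℓ) -
      K {u | ∃ s ∈ τ, (s.1 : ℕ) = 0 ∧ s.2 = u} -
      12 * (Ψ τ + (x₁ kc⁻¹ : ℚ) / ℓ * M₂ τ + (x₂ kd⁻¹ : ℚ) / ℓ * M₁ τ) := by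
    intro τ hτ
    unfold F12
    rw [if_pos hτ]
  refine ⟨?_, ?_, ?_, ?_, ?_, ?_⟩
  · intro τ hτ
    unfold F12
    rw [if_neg hτ]
  · intro τ hτ hs
    obtain ⟨e1, e2, e3⟩ := hF.e0 τ hτ hs
    have hK : K {u | ∃ s ∈ τ, (s.1 : ℕ) = 0 ∧ s.2 = u} = 0 := by
      apply hF.K0
      left
      rintro u ⟨s, hsτ, -, rfl⟩
      exact (hs s hsτ).1
    rw [hfr τ hτ, e1, e2, e3, hK]
    push_cast
    field_simp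
    ring
  · rintro κ₁ κ₂ I ⟨i, hiI, hi0⟩
    have hT : Fre ({s | s.1 ∈ I ∧ s.2.2.1 = κ₁ ^ (s.2.1 : ℕ) ∧
        s.2.2.2 = κ₂ ^ (s.2.1 : ℕ)} : Set (SO.SS n V₀)) := by
      rintro s ⟨-, ha, hb⟩ - hk
      rw [ha, hb, hk, pow_zero, pow_zero]
      exact ⟨rfl, rfl⟩
    obtain ⟨e1, e2, e3⟩ := hF.e1 _ hT (by
      rintro s ⟨-, ha, hb⟩
      exact ⟨(i, s.2), ⟨hiI, ha, hb⟩, hi0, rfl⟩) (by
      rintro s ⟨-, ha, hb⟩ hk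
      rw [ha, hb, hk, pow_zero, pow_zero]
      exact ⟨h1, h2⟩)
    have hK := hF.K1 {u | ∃ s ∈ ({s | s.1 ∈ I ∧ s.2.2.1 = κ₁ ^ (s.2.1 : ℕ) ∧
        s.2.2.2 = κ₂ ^ (s.2.1 : ℕ)} : Set (SO.SS n V₀)), (s.1 : ℕ) = 0 ∧ s.2 = u} κ₁ κ₂
      ⟨(⟨1, hn1⟩, κ₁, κ₂), ⟨(i, ⟨1, hn1⟩, κ₁, κ₂), ⟨hiI, (pow_one κ₁).symm, (pow_one κ₂).symm⟩,
        hi0, rfl⟩, rfl⟩ (by
      rintro u ⟨s, ⟨-, ha, hb⟩, -, rfl⟩ hk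
      refine Prod.ext ?_ ?_
      · change s.2.2.1 = κ₁
        rw [ha, hk, pow_one]
      · change s.2.2.2 = κ₂
        rw [hb, hk, pow_one])
    rw [hfr _ hT, e1, e2, e3, hK]
    push_cast
    field_simp
    ring
  · intro p₁ q₁ p₂ q₂
    have hT : Fre ({s | s.2.2.1 = p₁ ^ (s.1 : ℕ) * p₂ ^ (s.2.1 : ℕ) ∧
        s.2.2.2 = q₁ ^ (s.1 : ℕ) * q₂ ^ (s.2.1 : ℕ)} : Set (SO.SS n V₀)) := by
      rintro s ⟨ha, hb⟩ hi hk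
      rw [ha, hb, hk, hi]
      simp only [pow_zero, mul_one, and_self]
    obtain ⟨e1, e2, e3⟩ := hF.e2 p₁ q₁ p₂ q₂
    have hK := hF.K1 {u | ∃ s ∈ ({s | s.2.2.1 = p₁ ^ (s.1 : ℕ) * p₂ ^ (s.2.1 : ℕ) ∧
        s.2.2.2 = q₁ ^ (s.1 : ℕ) * q₂ ^ (s.2.1 : ℕ)} : Set (SO.SS n V₀)),
          (s.1 : ℕ) = 0 ∧ s.2 = u} p₂ q₂
      ⟨(⟨1, hn1⟩, p₂, q₂), ⟨(⟨0, by omega⟩, ⟨1, hn1⟩, p₂, q₂), ⟨by simp, by simp⟩,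
        rfl, rfl⟩, rfl⟩ (by
      rintro u ⟨s, ⟨ha, hb⟩, hi, rfl⟩ hk
      refine Prod.ext ?_ ?_
      · change s.2.2.1 = p₂
        rw [ha, hk, hi, pow_one, pow_zero, one_mul]
      · change s.2.2.2 = q₂
        rw [hb, hk, hi, pow_one, pow_zero, one_mul])
    rw [hfr _ hT, e1, e2, e3, hK]
    push_cast
    field_simp
    ring
  · intro p₁ q₁
    have hT : Fre ({s | ℓ ∣ (s.2.1 : ℕ) ∧ s.2.2.1 = p₁ ^ (s.1 : ℕ) ∧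
        s.2.2.2 = q₁ ^ (s.1 : ℕ)} : Set (SO.SS n V₀)) := by
      rintro s ⟨-, ha, hb⟩ hi hk
      rw [ha, hb, hi, pow_zero, pow_zero]
      exact ⟨rfl, rfl⟩
    obtain ⟨e1, e2, e3⟩ := hF.e2' p₁ q₁
    have hK : K {u | ∃ s ∈ ({s | ℓ ∣ (s.2.1 : ℕ) ∧ s.2.2.1 = p₁ ^ (s.1 : ℕ) ∧
        s.2.2.2 = q₁ ^ (s.1 : ℕ)} : Set (SO.SS n V₀)), (s.1 : ℕ) = 0 ∧ s.2 = u} = 0 := by
      apply hF.K0
      left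
      rintro u ⟨s, ⟨-, ha, hb⟩, hi, rfl⟩
      rw [ha, hi, pow_zero]
      exact h1
    rw [hfr _ hT, e1, e2, e3, hK]
    push_cast
    field_simp
    ring
  · intro p q i₀ hi₀
    have hT : Fre ({s | s.2.2.1 = p ^ (s.2.1 : ℕ) ∧ s.2.2.2 = q ^ (s.2.1 : ℕ) ∧
        (s.1 : ℕ) ≡ i₀ * (s.2.1 : ℕ) [MOD ℓ]} : Set (SO.SS n V₀)) := by
      rintro s ⟨ha, hb, -⟩ - hk
      rw [ha, hb, hk, pow_zero, pow_zero]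
      exact ⟨rfl, rfl⟩
    obtain ⟨e1, e2, e3⟩ := hF.e3 p q i₀ hi₀
    have hK : K {u | ∃ s ∈ ({s | s.2.2.1 = p ^ (s.2.1 : ℕ) ∧ s.2.2.2 = q ^ (s.2.1 : ℕ) ∧
        (s.1 : ℕ) ≡ i₀ * (s.2.1 : ℕ) [MOD ℓ]} : Set (SO.SS n V₀)),
          (s.1 : ℕ) = 0 ∧ s.2 = u} = 0 := by
      apply hF.K0
      left
      rintro u ⟨s, ⟨ha, -, hc⟩, hi, rfl⟩
      rw [hi] at hc
      have hd : ℓ ∣ i₀ * (s.2.1 : ℕ) := (Nat.modEq_zero_iff_dvd.1 hc.symm)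
      obtain ⟨k, hk⟩ := (hlp.dvd_mul.1 hd).resolve_left hi₀
      rw [ha, hk, pow_mul, hexp, one_pow]
      exact h1
    rw [hfr _ hT, e2, e3, hK]
    have hform : (ℓ : ℚ) ^ 2 * ((x₁ kc⁻¹ : ℚ) / ℓ * ((x₂ kd⁻¹ : ℚ) / ℓ) - 0 -
        12 * (Ψ ({s | s.2.2.1 = p ^ (s.2.1 : ℕ) ∧ s.2.2.2 = q ^ (s.2.1 : ℕ) ∧
        (s.1 : ℕ) ≡ i₀ * (s.2.1 : ℕ) [MOD ℓ]} : Set (SO.SS n V₀)) +
          (x₁ kc⁻¹ : ℚ) / ℓ * 0 + (x₂ kd⁻¹ : ℚ) / ℓ * 0)) =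
        ((x₁ kc⁻¹ * x₂ kd⁻¹ : ℤ) : ℚ) - ((12 : ℤ) : ℚ) * ((ℓ : ℚ) ^ 2 *
          Ψ ({s | s.2.2.1 = p ^ (s.2.1 : ℕ) ∧ s.2.2.2 = q ^ (s.2.1 : ℕ) ∧
        (s.1 : ℕ) ≡ i₀ * (s.2.1 : ℕ) [MOD ℓ]} : Set (SO.SS n V₀))) := by
      push_cast
      field_simp
      ring
    rw [hform]
    exact (SOR.Rl ℓ).sub_mem (intCast_mem (SOR.Rl ℓ) _)
      ((SOR.Rl ℓ).mul_mem (intCast_mem (SOR.Rl ℓ) _) e1)

end Pool.Agent.PP.SE.H86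
end
end -- Pool.Agent.Helper86_ASE.FVA
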