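import Pool.Agent.Helper12_AWB.B217

/-!
# Merged copies (generated) of the modules

* `Pool.Agent.Helper59_ASO.SSL`
* `Pool.Agent.Helper13_ASO.KCM`
* `Pool.Agent.Helper90_ASO.CPG`
* `Pool.Agent.Helper9_ASO.PPC`
* `Pool.Agent.Helper13_ASE.CME`
* `Pool.Agent.Helper1_ASE.DVS`
* `Pool.Agent.Helper48_ASE.HMX`
* `Pool.Agent.Helper62_ASE.PPC`
* `Pool.Agent.Helper71_ASE.FIE`
* `Pool.Agent.Helper81_ASE.CPX`
* `Pool.Agent.Helper94_ASE.DAV`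
-/

set_option autoImplicit false

section -- Pool.Agent.Helper59_ASO.SSL

open scoped BigOperators

set_option linter.unusedSectionVars false

noncomputable section

namespace Pool.Agent.PP.SO.H59

open Pool.Agent.Helper51_AWC Pool.Agent.Helper79_WRA Pool.Agent.PP Pool.Agent.PP.KF
open Pool.Agent.PP.K9 Pool.Agent.PP.K9.H97 Pool.Agent.PP.H75 Pool.Agent.PP.T3 Pool.Agent.PP.SO

theorem finsum_mem_ite {α : Type} [Fintype α] (p : α → Prop) [DecidablePred p] (f : α → ℂ) :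
    ∑ᶠ w ∈ {w | p w}, f w = ∑ w, if p w then f w else 0 := by
  rw [finsum_mem_def, finsum_eq_sum_of_fintype]
  refine Finset.sum_congr rfl fun w _ => ?_
  by_cases h : p w
  · rw [if_pos h]
    exact Set.indicator_of_mem (s := {w | p w}) h f
  · rw [if_neg h]
    exact Set.indicator_of_notMem (s := {w | p w}) h f

section lin

variable {V₀ : Type} [CommGroup V₀] [Finite V₀]

theorem lin_pow {f : V₀ → ℂ} (hf : f ∈ lin V₀) (v : V₀) (n : ℕ) : f (v ^ n) = f v ^ n := by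
  induction n with
  | zero => rw [pow_zero, pow_zero, hf.1]
  | succ n ih => rw [pow_succ, hf.2, ih, pow_succ]

/-- the conjugate of a value of a linear character -/
theorem lin_conj {f : V₀ → ℂ} (hf : f ∈ lin V₀) (v : V₀) : starRingEnd ℂ (f v⁻¹) = f v := by
  have h1 : f v * f v⁻¹ = 1 := by rw [← hf.2, mul_inv_cancel, hf.1]
  have h2 : f v⁻¹ ^ Nat.card V₀ = 1 := by
    rw [← lin_pow hf, pow_card_eq_one', hf.1]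
  have h3 : ‖f v⁻¹‖ = 1 := Complex.norm_eq_one_of_pow_eq_one h2 Nat.card_pos.ne'
  have h4 : starRingEnd ℂ (f v⁻¹) * f v⁻¹ = 1 := by
    rw [mul_comm, Complex.mul_conj, Complex.normSq_eq_norm_sq, h3]
    norm_num
  have h5 : f v⁻¹ ≠ 0 := by
    intro h
    rw [h, norm_zero] at h3
    exact zero_ne_one h3
  exact mul_right_cancel₀ h5 (h4.trans h1.symm)

end lin

section grp

variable {ℓ : ℕ} [Fact ℓ.Prime] {V₀ : Type} [CommGroup V₀] [Finite V₀]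

/-- two different subgroups -/
theorem sup_top (hc : Nat.card V₀ = ℓ ^ 2) {W : Subgroup V₀} (hW : W ≠ ⊥) {y : V₀} (hy : y ∉ W) :
    W ⊔ Subgroup.zpowers y = ⊤ := by
  have hp : ℓ.Prime := Fact.out
  have h1 : Nat.card W ∣ ℓ ^ 2 := hc ▸ Subgroup.card_subgroup_dvd_card W
  have h2 : Nat.card (W ⊔ Subgroup.zpowers y : Subgroup V₀) ∣ ℓ ^ 2 :=
    hc ▸ Subgroup.card_subgroup_dvd_card _
  have h3 : W < W ⊔ Subgroup.zpowers y := by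
    refine lt_of_le_of_ne le_sup_left fun h => hy ?_
    rw [h]
    exact (le_sup_right : Subgroup.zpowers y ≤ _) (Subgroup.mem_zpowers y)
  have h4 : Nat.card W < Nat.card (W ⊔ Subgroup.zpowers y : Subgroup V₀) := by
    have h5 := Set.ncard_lt_ncard (s := (W : Set V₀)) (t := (W ⊔ Subgroup.zpowers y : Subgroup V₀))
      (SetLike.coe_ssubset_coe.2 h3)
    rw [← Nat.card_coe_set_eq, ← Nat.card_coe_set_eq] at h5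
    exact h5
  have h6 : 1 < Nat.card W := by
    rw [Subgroup.one_lt_card_iff_ne_bot]
    exact hW
  obtain ⟨i, hi, hi'⟩ := (Nat.dvd_prime_pow hp).1 h1
  obtain ⟨j, hj, hj'⟩ := (Nat.dvd_prime_pow hp).1 h2
  rw [hi', hj'] at h4
  rw [hi'] at h6
  have h7 : i < j := (Nat.pow_lt_pow_iff_right hp.one_lt).1 h4
  have h8 : i ≠ 0 := by
    rintro rfl
    simp at h6
  have h9 : j = 2 := by omega
  rw [h9, ← hc] at hj'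
  exact Subgroup.eq_top_of_card_eq _ hj'

end grp

section blk

variable {ℓ : ℕ} [Fact ℓ.Prime] {M : Ideal (integralClosure ℤ ℂ)} [M.IsMaximal]
  {V₀ G : Type} [CommGroup V₀] [Finite V₀] [Group G] [Finite G] {E₀ : Subgroup (MulAut V₀)}
  {B : Bk (FF M) V₀ G}

theorem C_mono {W W' : Subgroup V₀} (h : W ≤ W') : B.C W' ≤ B.C W := by
  unfold Bk.C
  exact Subgroup.centralizer_le (Subgroup.map_mono h)

theorem i_mem_C (c : V₀) (W : Subgroup V₀) : B.i c ∈ B.C W := by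
  unfold Bk.C
  rw [Subgroup.mem_centralizer_iff]
  rintro _ ⟨w, -, rfl⟩
  rw [← map_mul, ← map_mul, mul_comm]

theorem fc_out (W : Subgroup V₀) (c : V₀) {g : G} (hg : g ∉ B.C W) : fc B W c g = 0 := by
  unfold fc
  rw [finsum_eq_zero_of_forall_eq_zero, mul_zero]
  intro z
  unfold bh PP.ext0
  rw [dif_neg]
  intro h
  have h1 := C_mono (B := B) (le_sup_left : W ≤ W ⊔ Subgroup.zpowers c) h
  apply hg
  have h2 : g = (z : G) * (B.i c * ((B.i c)⁻¹ * ((z : G)⁻¹ * g * z))) * (z : G)⁻¹ := by group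
  rw [h2]
  exact (B.C W).mul_mem ((B.C W).mul_mem z.2 ((B.C W).mul_mem (i_mem_C c W) h1))
    ((B.C W).inv_mem z.2)

theorem D_pos (hB : Sy ℓ M E₀ B) {W : Subgroup V₀} (hW : W ≠ ⊥) : (0 : ℚ) < B.D W := by
  exact_mod_cast (hB.dg W hW).1

theorem S_sq (hB : Sy ℓ M E₀ B) {W : Subgroup V₀} (hW : W ≠ ⊥) : (B.S W : ℚ) * B.S W = 1 := by
  rcases hB.sg W hW with h | h <;> rw [h] <;> norm_num

theorem C_pos (W : Subgroup V₀) : (0 : ℚ) < Nat.card (B.C W) := by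
  exact_mod_cast Nat.card_pos

theorem S_top (hB : Sy ℓ M E₀ B) (h2 : ℓ ≠ 2) (ht : (⊤ : Subgroup V₀) ≠ ⊥) : B.S ⊤ = 1 := by
  rcases hB.sg ⊤ ht with h | h
  · exact h
  · exfalso
    obtain ⟨q, hq, hU⟩ := hB.un ⊤ ht
    have hD := (D_pos hB ht).ne'
    have hC := (C_pos (B := B) ⊤).ne'
    have h3 : B.U ⊤ = -1 := by
      unfold Bk.U
      rw [h]
      push_cast
      field_simp
    rw [h3] at hU
    have hp : ℓ.Prime := Fact.out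
    have hl0 : (ℓ : ℚ) ≠ 0 := by exact_mod_cast hp.ne_zero
    have h4 : q = ((-2 : ℤ) : ℚ) / ((ℓ : ℤ) : ℚ) := by
      push_cast
      rw [eq_div_iff hl0]
      linarith
    have h5 : ¬ ℓ ∣ q.den := hq
    apply h5
    have hcop : Nat.Coprime (Int.natAbs (-2)) (Int.natAbs (ℓ : ℤ)) := by
      change Nat.Coprime 2 ℓ
      exact (Nat.coprime_primes Nat.prime_two hp).2 (Ne.symm h2)
    have h6 := Rat.den_div_eq_of_coprime (a := -2) (b := (ℓ : ℤ)) (by exact_mod_cast hp.pos) hcop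
    rw [h4]
    have h7 : ((((-2 : ℤ) : ℚ) / ((ℓ : ℤ) : ℚ)).den : ℤ) = ℓ := h6
    have h8 : (((-2 : ℤ) : ℚ) / ((ℓ : ℤ) : ℚ)).den = ℓ := by exact_mod_cast h7
    rw [h8]

open Classical in
/-- the sign -/
def ep (B : Bk (FF M) V₀ G) (W : Subgroup V₀) (x : V₀) : ℚ := if x ∈ W then 1 else B.S W

/-- the quotient of the degrees -/
theorem deg_quot (hc : Nat.card V₀ = ℓ ^ 2) (hB : Sy ℓ M E₀ B) {W : Subgroup V₀} (hW : W ≠ ⊥)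
    (x : V₀) : (B.D (W ⊔ Subgroup.zpowers x) : ℚ) * Nat.card (B.C W) =
      ep B W x * ux B.U W x * (Nat.card (B.C (W ⊔ Subgroup.zpowers x)) * B.D W) := by
  unfold ep ux
  by_cases hx : x ∈ W
  · have h1 : W ⊔ Subgroup.zpowers x = W := sup_eq_left.2 ((Subgroup.zpowers_le).2 hx)
    rw [if_pos hx, if_pos hx, h1]
    ring
  · rw [if_neg hx, if_neg hx, sup_top hc hW hx]
    have hD := (D_pos hB hW).ne'
    have hC := (C_pos (B := B) ⊤).ne'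
    unfold Bk.U
    have h2 : (B.S W : ℚ) * ((B.S W : ℚ) * Nat.card (B.C W) * B.D ⊤ /
        (Nat.card (B.C ⊤) * B.D W)) * (Nat.card (B.C ⊤) * B.D W) =
        ((B.S W : ℚ) * B.S W) * (Nat.card (B.C W) * B.D ⊤) := by
      field_simp
    rw [h2, S_sq hB hW]
    ring

theorem ux_ne (hB : Sy ℓ M E₀ B) {W : Subgroup V₀} (hW : W ≠ ⊥) (x : V₀) :
    ux B.U W x ≠ 0 := by
  unfold ux
  split_ifs with h
  · exact one_ne_zero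
  · have hS : (B.S W : ℚ) ≠ 0 := by
      intro h0
      have := S_sq hB hW
      rw [h0, mul_zero] at this
      exact zero_ne_one this
    have hT : (⊤ : Subgroup V₀) ≠ ⊥ := fun h0 => h (by
      have : W = ⊥ := le_bot_iff.1 (h0 ▸ le_top)
      exact absurd this hW)
    unfold Bk.U
    have h1 := (D_pos hB hW).ne'
    have h2 := (D_pos hB hT).ne'
    have h3 := (C_pos (B := B) W).ne'
    have h4 := (C_pos (B := B) ⊤).ne'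
    exact div_ne_zero (mul_ne_zero (mul_ne_zero hS h3) h2) (mul_ne_zero h4 h1)

end blk

theorem ncard_ite {α : Type} [Fintype α] (p : α → Prop) [DecidablePred p] :
    ({w | p w}.ncard : ℂ) = ∑ w, if p w then (1 : ℂ) else 0 := by
  have h1 : ({w | p w} : Set α) = ((Finset.univ.filter p : Finset α) : Set α) := by
    ext w
    simp
  rw [h1, Set.ncard_coe_finset, Finset.sum_boole]

section blk2

variable {ℓ : ℕ} [Fact ℓ.Prime] {M : Ideal (integralClosure ℤ ℂ)} [M.IsMaximal]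
  {V₀ G : Type} [CommGroup V₀] [Finite V₀] [Group G] [Finite G] {E₀ : Subgroup (MulAut V₀)}
  {B : Bk (FF M) V₀ G}

theorem map_eq (L : Set (V₀ × V₀ × ℤ)) (τ : MulAut V₀) (y : V₀)
    (h : ∀ s ∈ L, τ (s.1 * y ^ s.2.2) = s.2.1) :
    (p1 L ⊔ Subgroup.zpowers y).map τ.toMonoidHom = p2 L ⊔ Subgroup.zpowers (τ y) := by
  have hz : (Subgroup.zpowers y).map τ.toMonoidHom = Subgroup.zpowers (τ y) :=
    MonoidHom.map_zpowers _ _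
  rw [Subgroup.map_sup, hz]
  apply le_antisymm
  · apply sup_le _ le_sup_right
    unfold p1
    rw [Subgroup.map_le_iff_le_comap, Subgroup.closure_le]
    rintro _ ⟨s, hs, rfl⟩
    change τ s.1 ∈ p2 L ⊔ Subgroup.zpowers (τ y)
    have h1 : τ s.1 = s.2.1 * ((τ y) ^ s.2.2)⁻¹ := by
      rw [← h s hs, map_mul, map_zpow, mul_inv_cancel_right]
    rw [h1]
    apply Subgroup.mul_mem
    · exact (le_sup_left : p2 L ≤ _) (Subgroup.subset_closure ⟨s, hs, rfl⟩)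
    · exact (le_sup_right : Subgroup.zpowers (τ y) ≤ p2 L ⊔ Subgroup.zpowers (τ y))
        (Subgroup.inv_mem _ (Subgroup.zpow_mem _ (Subgroup.mem_zpowers _) _))
  · apply sup_le _ le_sup_right
    unfold p2
    rw [Subgroup.closure_le]
    rintro _ ⟨s, hs, rfl⟩
    have h1 : s.2.1 = τ s.1 * (τ y) ^ s.2.2 := by
      rw [← h s hs, map_mul, map_zpow]
    rw [h1]
    apply Subgroup.mul_mem
    · exact (le_sup_left : (p1 L).map τ.toMonoidHom ≤ _)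
        ⟨s.1, Subgroup.subset_closure ⟨s, hs, rfl⟩, rfl⟩
    · exact (le_sup_right : Subgroup.zpowers (τ y) ≤ (p1 L).map τ.toMonoidHom ⊔ _)
        (Subgroup.zpow_mem _ (Subgroup.mem_zpowers _) _)

/-- the signs -/
theorem eps_eq (hCJT : CjtStmt) (hM : (ℓ : integralClosure ℤ ℂ) ∈ M) (h2 : ℓ ≠ 2)
    (hFr : Fr ℓ V₀ E₀) (hB : Sy ℓ M E₀ B) {W₁ W₂ : Subgroup V₀} (h1 : W₁ ≠ ⊥) (h2' : W₂ ≠ ⊥)
    {τ : MulAut V₀} (hτ : τ ∈ E₀) {y : V₀}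
    (hmap : (W₁ ⊔ Subgroup.zpowers y).map τ.toMonoidHom = W₂ ⊔ Subgroup.zpowers (τ y)) :
    ep B W₁ y * ep B W₂ (τ y) = B.S W₁ * B.S W₂ := by
  have hT : (⊤ : Subgroup V₀) ≠ ⊥ := fun h0 => h1 (le_bot_iff.1 (h0 ▸ le_top))
  have hmt : (⊤ : Subgroup V₀).map τ.toMonoidHom = ⊤ := by
    rw [← MonoidHom.range_eq_map]
    exact MonoidHom.range_eq_top.2 τ.surjective
  obtain ⟨t, ht, hti⟩ := hB.sur τ hτ
  have hcj := hCJT ℓ M hM h2 V₀ G E₀ hFr B hB τ hτ t ht hti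
  unfold ep
  by_cases hy : y ∈ W₁
  · rw [if_pos hy, one_mul]
    have hw : W₁ ⊔ Subgroup.zpowers y = W₁ := sup_eq_left.2 ((Subgroup.zpowers_le).2 hy)
    rw [hw] at hmap
    by_cases hy' : τ y ∈ W₂
    · rw [if_pos hy']
      have hw' : W₂ ⊔ Subgroup.zpowers (τ y) = W₂ := sup_eq_left.2 ((Subgroup.zpowers_le).2 hy')
      rw [hw'] at hmap
      have h3 := ((hcj W₁).2.2.2.2.2 h1).2.1
      rw [hmap] at h3
      rw [h3]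
      exact (S_sq hB h1).symm
    · rw [if_neg hy']
      rw [sup_top hFr.cd h2' hy', ← hmt] at hmap
      have h3 : W₁ = ⊤ := Subgroup.map_injective τ.injective hmap
      rw [h3, S_top hB h2 hT, Int.cast_one, one_mul]
  · rw [if_neg hy]
    rw [sup_top hFr.cd h1 hy, hmt] at hmap
    by_cases hy' : τ y ∈ W₂
    · rw [if_pos hy']
      have hw' : W₂ ⊔ Subgroup.zpowers (τ y) = W₂ := sup_eq_left.2 ((Subgroup.zpowers_le).2 hy')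
      rw [hw'] at hmap
      rw [← hmap, S_top hB h2 hT, Int.cast_one]
    · rw [if_neg hy']

end blk2

theorem ux_inv {V₀ : Type} [CommGroup V₀] (U : Subgroup V₀ → ℚ) (W : Subgroup V₀) (y : V₀) :
    ux U W y⁻¹ = ux U W y := by
  unfold ux
  rw [inv_mem_iff]

theorem ssl (hGPR : GprStmt) (hNSV : NsvStmt) (hCJT : CjtStmt) : SslStmt := by
  intro ℓ _ M _ hM h2 V₀ G _ _ _ _ E₀ hFr B hB n m hPE L h1 h2' χ hχ χ' hχ'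
  classical
  have iG := Fintype.ofFinite G
  have iV := Fintype.ofFinite V₀
  have iA := Fintype.ofFinite (MulAut V₀)
  obtain ⟨bij1, -, -, inv1, -⟩ := hNSV ℓ M hM h2 V₀ G E₀ hFr B hB (p1 L) h1
  obtain ⟨bij2, -, -, inv2, -⟩ := hNSV ℓ M hM h2 V₀ G E₀ hFr B hB (p2 L) h2'
  have hl1 : lam B (p1 L) χ ∈ lin V₀ := bij1.mapsTo hχ
  have hl2 : lam B (p2 L) χ' ∈ lin V₀ := bij2.mapsTo hχ'
  have hp : ℓ.Prime := Fact.out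
  have hl0 : (ℓ : ℂ) ≠ 0 := by exact_mod_cast hp.ne_zero
  obtain ⟨c₁, hc₁⟩ : ∃ c : ℂ, c = (Nat.card (B.C (p1 L)) : ℂ) := ⟨_, rfl⟩
  obtain ⟨c₂, hc₂⟩ : ∃ c : ℂ, c = (Nat.card (B.C (p2 L)) : ℂ) := ⟨_, rfl⟩
  obtain ⟨K₁, hK₁⟩ : ∃ c : ℂ, c = c₁ / (ℓ ^ 2 * B.D (p1 L)) := ⟨_, rfl⟩
  obtain ⟨K₂, hK₂⟩ : ∃ c : ℂ, c = c₂ / (ℓ ^ 2 * B.D (p2 L)) := ⟨_, rfl⟩
  obtain ⟨a, ha⟩ : ∃ a : V₀ → ℂ, a = fun x =>
    starRingEnd ℂ (lam B (p1 L) χ x) / ((ux B.U (p1 L) x : ℚ) : ℂ) := ⟨_, rfl⟩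
  obtain ⟨b, hb⟩ : ∃ a : V₀ → ℂ, a = fun x =>
    starRingEnd ℂ (lam B (p2 L) χ' x) / ((ux B.U (p2 L) x : ℚ) : ℂ) := ⟨_, rfl⟩
  have hX : ∀ h : G, χ h = K₁ * ∑ x, a x * fc B (p1 L) x h⁻¹ := by
    intro h
    by_cases hh : h ∈ B.C (p1 L)
    · rw [inv1 χ hχ h hh, finsum_eq_sum_of_fintype, hK₁, hc₁, ha]
    · rw [hχ.1 h hh, Finset.sum_eq_zero, mul_zero]
      intro x _
      rw [fc_out _ _ (fun h0 => hh (by simpa using (B.C (p1 L)).inv_mem h0)), mul_zero]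
  have hX' : ∀ h : G, χ' h = K₂ * ∑ x, b x * fc B (p2 L) x h⁻¹ := by
    intro h
    by_cases hh : h ∈ B.C (p2 L)
    · rw [inv2 χ' hχ' h hh, finsum_eq_sum_of_fintype, hK₂, hc₂, hb]
    · rw [hχ'.1 h hh, Finset.sum_eq_zero, mul_zero]
      intro x _
      rw [fc_out _ _ (fun h0 => hh (by simpa using (B.C (p2 L)).inv_mem h0)), mul_zero]
  -- the set of conditions with opposite exponents
  obtain ⟨Lm, hLm⟩ : ∃ Lm : Set (V₀ × V₀ × ℤ), Lm = {s | (s.1, s.2.1, -s.2.2) ∈ L} := ⟨_, rfl⟩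
  have hp1 : p1 Lm = p1 L := by
    unfold p1
    congr 1
    ext p
    constructor
    · rintro ⟨s, hs, rfl⟩
      rw [hLm] at hs
      exact ⟨_, hs, rfl⟩
    · rintro ⟨s, hs, rfl⟩
      refine ⟨(s.1, s.2.1, -s.2.2), ?_, rfl⟩
      rw [hLm]
      change (s.1, s.2.1, - -s.2.2) ∈ L
      rw [neg_neg]
      exact hs
  have hp2 : p2 Lm = p2 L := by
    unfold p2
    congr 1
    ext p
    constructor
    · rintro ⟨s, hs, rfl⟩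
      rw [hLm] at hs
      exact ⟨_, hs, rfl⟩
    · rintro ⟨s, hs, rfl⟩
      refine ⟨(s.1, s.2.1, -s.2.2), ?_, rfl⟩
      rw [hLm]
      change (s.1, s.2.1, - -s.2.2) ∈ L
      rw [neg_neg]
      exact hs
  obtain ⟨E, hE⟩ : ∃ E : V₀ → ℂ, E = fun x =>
    ℓ ^ 2 * B.D (p1 L ⊔ Subgroup.zpowers x) ^ 2 /
      (Nat.card (B.C (p1 L ⊔ Subgroup.zpowers x)) : ℂ) ^ 2 := ⟨_, rfl⟩
  -- the inner sum
  have hT : ∀ x x' : V₀, (∑ w : G × G, if (∀ s ∈ L, w.2 * B.i s.2.1 * w.2⁻¹ =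
      B.i s.1 * (w.1 ^ m) ^ s.2.2) then fc B (p1 L) x w.1⁻¹ * fc B (p2 L) x' (w.2⁻¹ * w.1 * w.2)
      else 0) = c₁ * c₂ * E x * ∑ τ : MulAut V₀,
        if (τ ∈ E₀ ∧ τ x = x'⁻¹ ∧ ∀ s ∈ Lm, τ (s.1 * x ^ s.2.2) = s.2.1) then (1 : ℂ) else 0 := by
    intro x x'
    have h3 := hGPR ℓ M hM h2 V₀ G E₀ hFr B hB n m hPE Lm (hp1 ▸ h1) (hp2 ▸ h2') x x'⁻¹
    rw [finsum_mem_ite, hp1, hp2, inv_inv, ncard_ite, ← hc₁, ← hc₂] at h3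
    have hEx : E x = ℓ ^ 2 * B.D (p1 L ⊔ Subgroup.zpowers x) ^ 2 /
      (Nat.card (B.C (p1 L ⊔ Subgroup.zpowers x)) : ℂ) ^ 2 := by rw [hE]
    rw [hEx]
    rw [← h3]
    rw [← Equiv.sum_comp (Equiv.prodCongr (Equiv.inv G) (Equiv.refl G))]
    refine Finset.sum_congr rfl fun w _ => ?_
    change (if (∀ s ∈ L, w.2 * B.i s.2.1 * w.2⁻¹ = B.i s.1 * (w.1⁻¹ ^ m) ^ s.2.2) then
      fc B (p1 L) x (w.1⁻¹)⁻¹ * fc B (p2 L) x' (w.2⁻¹ * w.1⁻¹ * w.2) else 0) = _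
    rw [inv_inv]
    refine if_congr ?_ rfl rfl
    constructor
    · intro h s hs
      rw [hLm] at hs
      have := h _ hs
      simp only at this
      rw [this, inv_pow, zpow_neg, inv_zpow, inv_inv]
    · intro h s hs
      have h4 : (s.1, s.2.1, -s.2.2) ∈ Lm := by
        rw [hLm]
        change (s.1, s.2.1, - -s.2.2) ∈ L
        rw [neg_neg]
        exact hs
      have := h _ h4
      simp only at this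
      rw [this, inv_pow, inv_zpow, zpow_neg]
  -- the expansion
  have hS : SL B m L χ χ' = K₁ * K₂ * ∑ x, ∑ x', a x * b x' * (∑ w : G × G,
      if (∀ s ∈ L, w.2 * B.i s.2.1 * w.2⁻¹ = B.i s.1 * (w.1 ^ m) ^ s.2.2) then
        fc B (p1 L) x w.1⁻¹ * fc B (p2 L) x' (w.2⁻¹ * w.1 * w.2) else 0) := by
    unfold SL
    rw [finsum_mem_ite]
    have h3 : ∀ w : G × G, (if (∀ s ∈ L, w.2 * B.i s.2.1 * w.2⁻¹ = B.i s.1 * (w.1 ^ m) ^ s.2.2) then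
        χ w.1 * χ' (w.2⁻¹ * w.1⁻¹ * w.2) else 0) = ∑ x, ∑ x', K₁ * K₂ * (a x * b x' *
        (if (∀ s ∈ L, w.2 * B.i s.2.1 * w.2⁻¹ = B.i s.1 * (w.1 ^ m) ^ s.2.2) then
        fc B (p1 L) x w.1⁻¹ * fc B (p2 L) x' (w.2⁻¹ * w.1 * w.2) else 0)) := by
      intro w
      by_cases hw : ∀ s ∈ L, w.2 * B.i s.2.1 * w.2⁻¹ = B.i s.1 * (w.1 ^ m) ^ s.2.2
      · rw [if_pos hw, hX, hX']
        simp only [if_pos hw]
        have e1 : (w.2⁻¹ * w.1⁻¹ * w.2)⁻¹ = w.2⁻¹ * w.1 * w.2 := by group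
        rw [e1, mul_mul_mul_comm, Finset.sum_mul_sum, Finset.mul_sum]
        refine Finset.sum_congr rfl fun x _ => ?_
        rw [Finset.mul_sum]
        refine Finset.sum_congr rfl fun x' _ => ?_
        ring
      · rw [if_neg hw]
        simp only [if_neg hw, mul_zero, Finset.sum_const_zero]
    rw [Finset.sum_congr rfl fun w _ => h3 w, Finset.sum_comm, Finset.mul_sum]
    refine Finset.sum_congr rfl fun x _ => ?_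
    rw [Finset.sum_comm, Finset.mul_sum]
    refine Finset.sum_congr rfl fun x' _ => ?_
    rw [Finset.mul_sum, Finset.mul_sum]
  -- the pointwise identity
  have key : ∀ τ ∈ E₀, ∀ y : V₀, (∀ s ∈ L, τ (s.1 * y ^ s.2.2) = s.2.1) →
      K₁ * K₂ * (a y⁻¹ * b (τ y⁻¹)⁻¹ * (c₁ * c₂ * E y⁻¹)) =
        c₁ * c₂ / ℓ ^ 2 * (B.S (p1 L) * B.S (p2 L)) *
          (lam B (p1 L) χ y * starRingEnd ℂ (lam B (p2 L) χ' (τ y))) := by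
    intro τ hτ y hy
    have hmap := map_eq L τ y hy
    have hW : p1 L ⊔ Subgroup.zpowers y ≠ ⊥ := fun h0 => h1 (le_bot_iff.1 (h0 ▸ le_sup_left))
    obtain ⟨t, ht, hti⟩ := hB.sur τ hτ
    have hcj := hCJT ℓ M hM h2 V₀ G E₀ hFr B hB τ hτ t ht hti (p1 L ⊔ Subgroup.zpowers y)
    have hcc := hcj.2.2.1
    have hdd := (hcj.2.2.2.2.2 hW).1
    rw [hmap] at hcc hdd
    have hep := eps_eq hCJT hM h2 hFr hB h1 h2' hτ hmap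
    have q1 := deg_quot hFr.cd hB h1 y
    have q2 := deg_quot hFr.cd hB h2' (τ y)
    rw [hcc, hdd] at q2
    have u1 := ux_ne hB h1 y
    have u2 := ux_ne hB h2' (τ y)
    have d1 := (D_pos hB h1).ne'
    have d2 := (D_pos hB h2').ne'
    have cw := (C_pos (B := B) (p1 L ⊔ Subgroup.zpowers y)).ne'
    have e1 : (ep B (p1 L) y : ℚ) = (B.D (p1 L ⊔ Subgroup.zpowers y) : ℚ) *
        Nat.card (B.C (p1 L)) / (ux B.U (p1 L) y *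
          (Nat.card (B.C (p1 L ⊔ Subgroup.zpowers y)) * B.D (p1 L))) := by
      rw [eq_div_iff (mul_ne_zero u1 (mul_ne_zero cw d1)), q1]
      ring
    have e2 : (ep B (p2 L) (τ y) : ℚ) = (B.D (p1 L ⊔ Subgroup.zpowers y) : ℚ) *
        Nat.card (B.C (p2 L)) / (ux B.U (p2 L) (τ y) *
          (Nat.card (B.C (p1 L ⊔ Subgroup.zpowers y)) * B.D (p2 L))) := by
      rw [eq_div_iff (mul_ne_zero u2 (mul_ne_zero cw d2)), q2]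
      ring
    have hepC : ((ep B (p1 L) y : ℚ) : ℂ) * ((ep B (p2 L) (τ y) : ℚ) : ℂ) =
        B.S (p1 L) * B.S (p2 L) := by
      exact_mod_cast congrArg (fun z : ℚ => (z : ℂ)) hep
    rw [← hepC, e1, e2]
    push_cast
    rw [← hc₁, ← hc₂]
    have ei : (τ y⁻¹)⁻¹ = τ y := by rw [map_inv, inv_inv]
    rw [ei, ha, hb, hE, hK₁, hK₂]
    simp only
    rw [lin_conj hl1, ux_inv, Subgroup.zpowers_inv]
    have u1' : ((ux B.U (p1 L) y : ℚ) : ℂ) ≠ 0 := by exact_mod_cast u1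
    have u2' : ((ux B.U (p2 L) (τ y) : ℚ) : ℂ) ≠ 0 := by exact_mod_cast u2
    have d1' : (B.D (p1 L) : ℂ) ≠ 0 := by exact_mod_cast d1
    have d2' : (B.D (p2 L) : ℂ) ≠ 0 := by exact_mod_cast d2
    have cw' : (Nat.card (B.C (p1 L ⊔ Subgroup.zpowers y)) : ℂ) ≠ 0 := by exact_mod_cast cw
    field_simp
  -- assembly
  have hR : (∑ᶠ w ∈ {w : MulAut V₀ × V₀ | w.1 ∈ E₀ ∧ ∀ s ∈ L, w.1 (s.1 * w.2 ^ s.2.2) = s.2.1},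
      lam B (p1 L) χ w.2 * starRingEnd ℂ (lam B (p2 L) χ' (w.1 w.2))) =
      ∑ y : V₀, ∑ τ : MulAut V₀, if (τ ∈ E₀ ∧ ∀ s ∈ L, τ (s.1 * y ^ s.2.2) = s.2.1) then
      lam B (p1 L) χ y * starRingEnd ℂ (lam B (p2 L) χ' (τ y)) else 0 := by
    rw [finsum_mem_ite, Fintype.sum_prod_type, Finset.sum_comm]
  rw [hS]
  simp only [hT]
  rw [hR, ← hc₁, ← hc₂, Finset.mul_sum, Finset.mul_sum, ← Equiv.sum_comp (Equiv.inv V₀)]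
  refine Finset.sum_congr rfl fun y _ => ?_
  change K₁ * K₂ * ∑ x', a y⁻¹ * b x' * (c₁ * c₂ * E y⁻¹ * ∑ τ : MulAut V₀,
        if (τ ∈ E₀ ∧ τ y⁻¹ = x'⁻¹ ∧ ∀ s ∈ Lm, τ (s.1 * y⁻¹ ^ s.2.2) = s.2.1) then (1 : ℂ) else 0) = _
  have h5 : ∀ x' : V₀, a y⁻¹ * b x' * (c₁ * c₂ * E y⁻¹ * ∑ τ : MulAut V₀,
        if (τ ∈ E₀ ∧ τ y⁻¹ = x'⁻¹ ∧ ∀ s ∈ Lm, τ (s.1 * y⁻¹ ^ s.2.2) = s.2.1) then (1 : ℂ) else 0) =
      ∑ τ : MulAut V₀, if x' = (τ y⁻¹)⁻¹ then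
        (if (τ ∈ E₀ ∧ ∀ s ∈ Lm, τ (s.1 * y⁻¹ ^ s.2.2) = s.2.1) then
          a y⁻¹ * b x' * (c₁ * c₂ * E y⁻¹) else 0) else 0 := by
    intro x'
    rw [Finset.mul_sum, Finset.mul_sum]
    refine Finset.sum_congr rfl fun τ _ => ?_
    by_cases hx : x' = (τ y⁻¹)⁻¹
    · have hx' : τ y⁻¹ = x'⁻¹ := by rw [hx, inv_inv]
      rw [if_pos hx]
      by_cases hc : τ ∈ E₀ ∧ ∀ s ∈ Lm, τ (s.1 * y⁻¹ ^ s.2.2) = s.2.1
      · rw [if_pos hc, if_pos ⟨hc.1, hx', hc.2⟩, mul_one]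
      · rw [if_neg hc, if_neg (fun h0 => hc ⟨h0.1, h0.2.2⟩), mul_zero, mul_zero]
    · rw [if_neg hx, if_neg (fun h0 => hx (by rw [h0.2.1, inv_inv])), mul_zero, mul_zero]
  rw [Finset.sum_congr rfl fun x' _ => h5 x', Finset.sum_comm, Finset.mul_sum, Finset.mul_sum]
  refine Finset.sum_congr rfl fun τ _ => ?_
  rw [Finset.sum_ite_eq' Finset.univ, if_pos (Finset.mem_univ _)]
  have h6 : (∀ s ∈ Lm, τ (s.1 * y⁻¹ ^ s.2.2) = s.2.1) ↔ ∀ s ∈ L, τ (s.1 * y ^ s.2.2) = s.2.1 := by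
    constructor
    · intro h s hs
      have h4 : (s.1, s.2.1, -s.2.2) ∈ Lm := by
        rw [hLm]
        change (s.1, s.2.1, - -s.2.2) ∈ L
        rw [neg_neg]
        exact hs
      have := h _ h4
      simp only at this
      rw [inv_zpow, zpow_neg, inv_inv] at this
      exact this
    · intro h s hs
      rw [hLm] at hs
      have := h _ hs
      simp only at this
      rw [zpow_neg] at this
      rw [inv_zpow]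
      exact this
  by_cases hc : τ ∈ E₀ ∧ ∀ s ∈ L, τ (s.1 * y ^ s.2.2) = s.2.1
  · rw [if_pos hc, if_pos ⟨hc.1, h6.2 hc.2⟩]
    exact key τ hc.1 y hc.2
  · rw [if_neg hc, if_neg (fun h0 => hc ⟨h0.1, h6.1 h0.2⟩), mul_zero, mul_zero]

end Pool.Agent.PP.SO.H59
end
end -- Pool.Agent.Helper59_ASO.SSL

section -- Pool.Agent.Helper13_ASO.KCM

/-!
# ASO row KCM: two systems with congruent numbers `U` have the same number of characters modulo `ℓ ^ 2`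
-/

open scoped BigOperators

noncomputable section

namespace Pool.Agent.PP.SO.H13

open Pool.Agent.Helper51_AWC Pool.Agent.Helper79_WRA Pool.Agent.PP Pool.Agent.PP.KF
open Pool.Agent.PP.K9 Pool.Agent.PP.K9.H97 Pool.Agent.PP.H75 Pool.Agent.PP.T3
open Pool.Agent.PP.SO

attribute [local instance] Ideal.Quotient.field

section rat

variable {M : Ideal (integralClosure ℤ ℂ)} [M.IsMaximal]

/-- a rational number in the local ring has a denominator prime to `ℓ` -/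
theorem kcm_rat {ℓ : ℕ} [hℓ : Fact ℓ.Prime] (hM : (ℓ : integralClosure ℤ ℂ) ∈ M) {q : ℚ}
    (h : (q : ℂ) ∈ RM M) : q ∈ SOR.Rl ℓ := by
  intro hd
  have e1 : (q.num : ℂ) = (q : ℂ) * ((q.den : ℤ) : ℂ) := by
    have h1 : (q : ℚ) * q.den = q.num := Rat.mul_den_eq_num q
    have h2 := congrArg (fun r : ℚ => (r : ℂ)) h1
    push_cast at h2 ⊢
    exact h2.symm
  have e2 : rr M ((q.den : ℤ) : ℂ) = 0 := by
    rw [dvd_of_rr hℓ.out hM]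
    exact_mod_cast hd
  have e3 : rr M (q.num : ℂ) = 0 := by
    rw [e1, rr_mul h (rr_int _).1, e2, mul_zero]
  rw [dvd_of_rr hℓ.out hM] at e3
  have h3 : ℓ ∣ q.num.natAbs := Int.natCast_dvd.1 e3
  have h4 := Nat.Coprime.eq_one_of_dvd
    (Nat.Coprime.coprime_dvd_left h3 q.reduced) hd
  exact hℓ.out.one_lt.ne' h4

/-- a rational number with denominator prime to `ℓ` is in the local ring -/
theorem kcm_mem {ℓ : ℕ} [hℓ : Fact ℓ.Prime] (hM : (ℓ : integralClosure ℤ ℂ) ∈ M) {q : ℚ}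
    (h : q ∈ SOR.Rl ℓ) : (q : ℂ) ∈ RM M := by
  have hd : ¬ ℓ ∣ q.den := h
  have e : (q : ℂ) = (q.num : ℂ) * ((q.den : ℂ))⁻¹ := by
    rw [← div_eq_mul_inv]
    exact_mod_cast congrArg (fun r : ℚ => (r : ℂ)) (Rat.num_div_den q).symm
  rw [e]
  exact (RM M).mul_mem (rr_int _).1 (inv_nat_RM hℓ.out hM hd)

end rat

/-- casts of sums over finite sets -/
theorem kcm_cast {X : Type} (S : Set X) (hS : S.Finite) (f : X → ℚ) :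
    (((∑ᶠ x ∈ S, f x : ℚ)) : ℂ) = ∑ᶠ x ∈ S, ((f x : ℚ) : ℂ) :=
  AddMonoidHom.map_finsum_mem f (Rat.castHom ℂ).toAddMonoidHom hS

/-- KCM -/
theorem kcm (Cpg : CpgStmt) (HCo : HCoStmt) (Kar : KarStmt) : KcmStmt := by
  classical
  intro ℓ _ M _ hM h5 V₀ _ _ E₀ hFr n
  obtain ⟨K, hK⟩ := Cpg ℓ M hM (by omega) V₀ E₀ hFr n
  refine ⟨K, ?_⟩
  intro G G' _ _ _ _ B B' m m' hB hB' hp hp' hU
  obtain ⟨hA, hBB⟩ := hK G G' B B' m m' hB hB' hp hp' hU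
  obtain ⟨-, -, -, hl1, hl2, hj1, -, he, -, -, hs, hsf⟩ := HCo ℓ M hM V₀ E₀ hFr G B hB.toSb
  obtain ⟨-, -, -, hl1', hl2', hj1', -, he', -, -, hs', hsf'⟩ :=
    HCo ℓ M hM V₀ E₀ hFr G' B' hB'.toSb
  have hℓ0 : (ℓ : ℚ) ≠ 0 := by
    have := (Fact.out : ℓ.Prime).pos
    positivity
  choose a ha ea using hl1
  choose b hb eb using hl2
  choose a' ha' ea' using hl1'
  choose b' hb' eb' using hl2'
  refine Kar ℓ h5 V₀ E₀ hFr (fun c => a c - a' c) (fun c d => b c d - b' c d) _ ?_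
  have hcast : ∀ x y : ℚ, (x : ℂ) = (y : ℂ) → x = y := fun x y h => by exact_mod_cast h
  refine ⟨fun c => sub_mem (ha c) (ha' c), fun c d => sub_mem (hb c d) (hb' c d), ?_, ?_, ?_, ?_,
    ?_, ?_⟩
  · intro c j hj
    have h1 := hj1 c j hj
    have h2 := hj1' c j hj
    rw [ea, ea] at h1
    rw [ea', ea'] at h2
    rw [hcast _ _ h1, hcast _ _ h2]
  · intro σ hσ c
    have h1 := (he c c σ hσ 1 (one_mem _)).1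
    have h2 := (he' c c σ hσ 1 (one_mem _)).1
    rw [ea, ea] at h1
    rw [ea', ea'] at h2
    rw [hcast _ _ h1, hcast _ _ h2]
  · intro c d hc hd
    have h1 := hA c d hc hd
    rw [eb, eb'] at h1
    refine ⟨(b c d - b' c d) / ℓ, kcm_rat hM ?_, by field_simp⟩
    push_cast
    exact h1
  · intro hD ρ₁ ρ₂ h1 h2 c d hc hd
    have h3 := hBB (fun c hc => by
      obtain ⟨q, hq, e⟩ := hD c hc
      rw [ea, ea']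
      have e2 : ((a c : ℂ) - (a' c : ℂ)) / ℓ = (q : ℂ) := by
        have e3 : (a c - a' c) / ℓ = q := by
          rw [e]
          field_simp
        exact_mod_cast congrArg (fun r : ℚ => (r : ℂ)) e3
      rw [e2]
      exact kcm_mem hM hq) ρ₁ ρ₂ h1 h2 c d hc hd
    simp only [eb, eb', ea, ea'] at h3
    refine ⟨((b c d - b' c d) * ((ρ₁ c).val * (ρ₂ d).val) -
      ∑ᶠ σ ∈ {σ : MulAut V₀ | σ ∈ E₀ ∧ c * σ d ≠ 1},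
        ((ρ₁ (c * σ d)).val : ℚ) * (ρ₂ (σ⁻¹ (c * σ d))).val *
          (a (c * σ d) - a' (c * σ d))) / ℓ ^ 2, kcm_rat hM ?_, by field_simp⟩
    have e4 := kcm_cast {σ : MulAut V₀ | σ ∈ E₀ ∧ c * σ d ≠ 1} (Set.toFinite _)
      (fun σ => ((ρ₁ (c * σ d)).val : ℚ) * (ρ₂ (σ⁻¹ (c * σ d))).val *
          (a (c * σ d) - a' (c * σ d)))
    rw [Rat.cast_div, Rat.cast_sub, e4]
    push_cast
    exact h3
  · intro c d hc hd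
    obtain ⟨-, q, hq, e⟩ := hsf c d hc hd
    obtain ⟨-, q', hq', e'⟩ := hsf' c d hc hd
    simp only [ea, eb] at e
    simp only [ea', eb'] at e'
    refine ⟨q - q', sub_mem hq hq', ?_⟩
    have e1 : ∑ t ∈ Finset.Icc 1 (ℓ - 1), ∑ s ∈ Finset.Icc 1 (ℓ - 1), b (c ^ t) (d ^ s) +
        (Nat.card E₀ : ℚ) * (ℓ - 1) * (a c + a d) +
        (Nat.card E₀ : ℚ) ^ 2 * (IrrE M B.e).ncard = ℓ ^ 2 * q := by
      apply hcast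
      push_cast
      push_cast at e
      exact e
    have e2 : ∑ t ∈ Finset.Icc 1 (ℓ - 1), ∑ s ∈ Finset.Icc 1 (ℓ - 1), b' (c ^ t) (d ^ s) +
        (Nat.card E₀ : ℚ) * (ℓ - 1) * (a' c + a' d) +
        (Nat.card E₀ : ℚ) ^ 2 * (IrrE M B'.e).ncard = ℓ ^ 2 * q' := by
      apply hcast
      push_cast
      push_cast at e'
      exact e'
    simp only [Finset.sum_sub_distrib]
    push_cast
    linear_combination e1 - e2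
  · obtain ⟨q, hq, e⟩ := hs
    obtain ⟨q', hq', e'⟩ := hs'
    simp only [ea] at e
    simp only [ea'] at e'
    refine ⟨q - q', sub_mem hq hq', ?_⟩
    have e1 : (Nat.card E₀ : ℚ) * (IrrE M B.e).ncard + ∑ᶠ c ∈ {c : V₀ | c ≠ 1}, a c =
        ℓ ^ 2 * q := by
      apply hcast
      rw [Rat.cast_add, kcm_cast _ (Set.toFinite _)]
      push_cast
      push_cast at e
      exact e
    have e2 : (Nat.card E₀ : ℚ) * (IrrE M B'.e).ncard + ∑ᶠ c ∈ {c : V₀ | c ≠ 1}, a' c =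
        ℓ ^ 2 * q' := by
      apply hcast
      rw [Rat.cast_add, kcm_cast _ (Set.toFinite _)]
      push_cast
      push_cast at e'
      exact e'
    rw [finsum_mem_sub_distrib _ _ (Set.toFinite _)]
    push_cast
    linear_combination e1 - e2

end Pool.Agent.PP.SO.H13
end
end -- Pool.Agent.Helper13_ASO.KCM

section -- Pool.Agent.Helper90_ASO.CPG

/-! Squad ASO, row CPG: comparison of two groups. -/

open scoped BigOperators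

noncomputable section

namespace Pool.Agent.PP.SO.H90

open Pool.Agent.Helper51_AWC Pool.Agent.Helper79_WRA Pool.Agent.PP Pool.Agent.PP.KF
open Pool.Agent.PP.K9 Pool.Agent.PP.K9.H97 Pool.Agent.PP.H75 Pool.Agent.PP.T3

attribute [local instance] Ideal.Quotient.field

variable {ℓ : ℕ} [Fact ℓ.Prime] {M : Ideal (integralClosure ℤ ℂ)} [M.IsMaximal]

theorem rl_rm (hM : (ℓ : integralClosure ℤ ℂ) ∈ M) {q : ℚ} (h : q ∈ SOR.Rl ℓ) :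
    ((q : ℚ) : ℂ) ∈ RM M := by
  have h1 : ¬ ℓ ∣ q.den := h
  have h2 := inv_nat_RM Fact.out hM h1
  have h3 : ((q : ℚ) : ℂ) = (q.num : ℂ) * (q.den : ℂ)⁻¹ := by
    rw [← div_eq_mul_inv]
    exact Rat.cast_def q
  rw [h3]
  exact mul_mem (rr_int (M := M) q.num).1 h2

theorem exists_add {A : Type} [AddCommGroup A] (h : ∀ a : A, ℓ • a = 0) (a : A) (ha : a ≠ 0) :
    ∃ φ : A → ZMod ℓ, (∀ x y, φ (x + y) = φ x + φ y) ∧ φ a ≠ 0 := by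
  let _ : Module (ZMod ℓ) A := AddCommGroup.zmodModule (n := ℓ) h
  obtain ⟨φ, hφ⟩ := Module.Projective.exists_dual_ne_zero (ZMod ℓ) ha
  exact ⟨fun v => φ v, fun v w => map_add φ v w, hφ⟩

/-- homomorphisms which do not vanish at a given element -/
theorem exists_hm {V₀ : Type} [CommGroup V₀] (hex : ∀ v : V₀, v ^ ℓ = 1) (c : V₀) (hc : c ≠ 1) :
    ∃ ρ : V₀ → ZMod ℓ, Hm ρ ∧ ρ c ≠ 0 := by
  obtain ⟨φ, h1, h2⟩ := exists_add (ℓ := ℓ) (A := Additive V₀)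
    (fun a => by
      show Additive.ofMul (a.toMul ^ ℓ) = 0
      rw [hex]
      rfl) (Additive.ofMul c) (fun h => hc (Additive.ofMul.injective h))
  exact ⟨fun v => φ (Additive.ofMul v), fun v w => h1 _ _, h2⟩

theorem finsum_mem_RM {ι : Type} {s : Set ι} {f : ι → ℂ} (h : ∀ i ∈ s, f i ∈ RM M) :
    ∑ᶠ i ∈ s, f i ∈ RM M :=
  finsum_mem_induction (· ∈ RM M) (zero_mem _) (fun _ _ => add_mem) h

section main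

variable {V₀ : Type} [CommGroup V₀]

/-- The index set of the automorphisms. -/
def ss (E₀ : Subgroup (MulAut V₀)) (c d : V₀) : Set (MulAut V₀) := {σ | σ ∈ E₀ ∧ c * σ d ≠ 1}

/-- The relation for a pair of systems. -/
def Qs (ℓ : ℕ) [Fact ℓ.Prime] (M : Ideal (integralClosure ℤ ℂ)) [M.IsMaximal]
    (E₀ : Subgroup (MulAut V₀)) (n K : ℕ) (ρ₁ ρ₂ : V₀ → ZMod ℓ) (c d : V₀) (r₁ r₂ : ℤ) : Prop :=
  ∀ (G G' : Type) [Group G] [Finite G] [Group G'] [Finite G'] (B : Bk (FF M) V₀ G)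
    (B' : Bk (FF M) V₀ G') (m m' : ℕ), Sy ℓ M E₀ B → Sy ℓ M E₀ B' → PE ℓ n m G → PE ℓ n m' G' →
    (∀ W, W ≠ ⊥ → ∃ q ∈ SOR.Rl ℓ, B.U W - B'.U W = ℓ ^ K * q) →
    (r₁ * r₂ : ℂ) / ℓ ^ 2 * (L2 B c d - L2 B' c d) -
      ((∑ᶠ σ ∈ ss E₀ c d, ((cfL B.U ρ₁ ρ₂ c d σ : ℚ) : ℂ) / ℓ ^ 2 * L1 B (c * σ d)) -
        (∑ᶠ σ ∈ ss E₀ c d, ((cfL B'.U ρ₁ ρ₂ c d σ : ℚ) : ℂ) / ℓ ^ 2 * L1 B' (c * σ d))) ∈ RM M

theorem key [Finite V₀] {E₀ : Subgroup (MulAut V₀)} (hfin : FinStmt) (hrtx : RtxStmt)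
    (hppc : PpcStmt) (hM : (ℓ : integralClosure ℤ ℂ) ∈ M) (h2 : ℓ ≠ 2) (hFr : Fr ℓ V₀ E₀) (n : ℕ)
    (hn : ∃ r, 0 < r ∧ n = ℓ ^ r) (ρ₁ ρ₂ : V₀ → ZMod ℓ) (h1 : Hm ρ₁) (h2' : Hm ρ₂) (c d : V₀)
    (hc : c ≠ 1) (hd : d ≠ 1) (r₁ r₂ : ℤ) (e1 : (r₁ : ZMod ℓ) = - ρ₁ c)
    (e2 : (r₂ : ZMod ℓ) = - ρ₂ d) (z1 : ρ₁ c = 0 → r₁ = 0) (z2 : ρ₂ d = 0 → r₂ = 0) :
    ∃ K₀ : ℕ, ∀ K, K₀ ≤ K → Qs ℓ M E₀ n K ρ₁ ρ₂ c d r₁ r₂ := by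
  obtain ⟨F₁₃, F₁₂, hFT, hRel⟩ := hrtx ℓ V₀ hFr.ex n ρ₁ ρ₂ hn h1 h2' c d r₁ r₂ e1 e2 z1 z2
  obtain ⟨K₀, hK₀⟩ := hppc ℓ V₀ E₀ n c d F₁₃ F₁₂
  refine ⟨K₀, fun K hK G G' _ _ _ _ B B' m m' hB hB' hm hm' hU => ?_⟩
  have a := hfin ℓ M hM h2 V₀ G E₀ hFr B hB n m hm ρ₁ ρ₂ c d r₁ r₂ F₁₃ F₁₂ hc hd hFT
    (hRel G m B.i hB.inj hm)
  have a' := hfin ℓ M hM h2 V₀ G' E₀ hFr B' hB' n m' hm' ρ₁ ρ₂ c d r₁ r₂ F₁₃ F₁₂ hc hd hFT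
    (hRel G' m' B'.i hB'.inj hm')
  have p := rl_rm hM (hK₀ K hK B.U B'.U hB.un hB'.un hU)
  have e := sub_mem (sub_mem a a') p
  have e' : (r₁ * r₂ : ℂ) / ℓ ^ 2 * (L2 B c d - L2 B' c d) -
      ((∑ᶠ σ ∈ ss E₀ c d, ((cfL B.U ρ₁ ρ₂ c d σ : ℚ) : ℂ) / ℓ ^ 2 * L1 B (c * σ d)) -
        (∑ᶠ σ ∈ ss E₀ c d, ((cfL B'.U ρ₁ ρ₂ c d σ : ℚ) : ℂ) / ℓ ^ 2 * L1 B' (c * σ d))) =
      (r₁ * r₂ : ℂ) / ℓ ^ 2 * L2 B c d -
        (∑ᶠ σ ∈ ss E₀ c d, ((cfL B.U ρ₁ ρ₂ c d σ : ℚ) : ℂ) / ℓ ^ 2 * L1 B (c * σ d)) +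
        ((PPd E₀ B.U c d F₁₃ F₁₂ : ℚ) : ℂ) -
      ((r₁ * r₂ : ℂ) / ℓ ^ 2 * L2 B' c d -
        (∑ᶠ σ ∈ ss E₀ c d, ((cfL B'.U ρ₁ ρ₂ c d σ : ℚ) : ℂ) / ℓ ^ 2 * L1 B' (c * σ d)) +
        ((PPd E₀ B'.U c d F₁₃ F₁₂ : ℚ) : ℂ)) -
      ((PPd E₀ B.U c d F₁₃ F₁₂ - PPd E₀ B'.U c d F₁₃ F₁₂ : ℚ) : ℂ) := by
    push_cast
    ring
  rw [e']
  exact e

theorem all [Finite V₀] {E₀ : Subgroup (MulAut V₀)} (hfin : FinStmt) (hrtx : RtxStmt)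
    (hppc : PpcStmt) (hM : (ℓ : integralClosure ℤ ℂ) ∈ M) (h2 : ℓ ≠ 2) (hFr : Fr ℓ V₀ E₀) (n : ℕ)
    (hn : ∃ r, 0 < r ∧ n = ℓ ^ r) : ∃ K : ℕ, 2 ≤ K ∧ ∀ (ρ₁ ρ₂ : V₀ → ZMod ℓ) (c d : V₀) (b : Bool),
      Hm ρ₁ → Hm ρ₂ → c ≠ 1 → d ≠ 1 → (b = true → ρ₁ c ≠ 0) →
      Qs ℓ M E₀ n K ρ₁ ρ₂ c d (((-ρ₁ c).val : ℤ) + if b then (ℓ : ℤ) else 0) ((-ρ₂ d).val : ℤ) := by
  have h : ∀ i : (V₀ → ZMod ℓ) × (V₀ → ZMod ℓ) × V₀ × V₀ × Bool, ∃ K₀ : ℕ, ∀ K, K₀ ≤ K →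
      Hm i.1 → Hm i.2.1 → i.2.2.1 ≠ 1 → i.2.2.2.1 ≠ 1 → (i.2.2.2.2 = true → i.1 i.2.2.1 ≠ 0) →
      Qs ℓ M E₀ n K i.1 i.2.1 i.2.2.1 i.2.2.2.1
        (((-i.1 i.2.2.1).val : ℤ) + if i.2.2.2.2 then (ℓ : ℤ) else 0)
        ((-i.2.1 i.2.2.2.1).val : ℤ) := by
    rintro ⟨ρ₁, ρ₂, c, d, b⟩
    by_cases hh : Hm ρ₁ ∧ Hm ρ₂ ∧ c ≠ 1 ∧ d ≠ 1 ∧ (b = true → ρ₁ c ≠ 0)
    · obtain ⟨h1, h2', hc, hd, hb⟩ := hh
      obtain ⟨K₀, hK₀⟩ := key (M := M) hfin hrtx hppc hM h2 hFr n hn ρ₁ ρ₂ h1 h2' c d hc hd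
        (((-ρ₁ c).val : ℤ) + if b then (ℓ : ℤ) else 0) ((-ρ₂ d).val : ℤ)
        (by cases b <;> simp) (by simp)
        (fun h0 => by
          cases b with
          | false => simp [h0]
          | true => exact absurd h0 (hb rfl))
        (fun h0 => by simp [h0])
      exact ⟨K₀, fun K hK _ _ _ _ _ => hK₀ K hK⟩
    · exact ⟨0, fun K _ a1 a2 a3 a4 a5 => absurd ⟨a1, a2, a3, a4, a5⟩ hh⟩
  choose f hf using h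
  obtain ⟨N, hN⟩ := (Set.finite_range f).bddAbove
  refine ⟨N + 2, by omega, fun ρ₁ ρ₂ c d b h1 h2' hc hd hb => ?_⟩
  have := hN ⟨(ρ₁, ρ₂, c, d, b), rfl⟩
  exact hf (ρ₁, ρ₂, c, d, b) (N + 2) (by omega) h1 h2' hc hd hb

theorem ux_un {U : Subgroup V₀ → ℚ} (hU : ∀ W, W ≠ ⊥ → ∃ q ∈ SOR.Rl ℓ, U W = 1 + ℓ * q)
    {W : Subgroup V₀} (hW : W ≠ ⊥) (x : V₀) : ∃ q ∈ SOR.Rl ℓ, ux U W x = 1 + ℓ * q := by
  unfold ux
  split_ifs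
  · exact ⟨0, zero_mem _, by ring⟩
  · exact hU W hW

theorem ux_df {U U' : Subgroup V₀ → ℚ} {K : ℕ}
    (hU : ∀ W, W ≠ ⊥ → ∃ q ∈ SOR.Rl ℓ, U W - U' W = ℓ ^ K * q)
    {W : Subgroup V₀} (hW : W ≠ ⊥) (x : V₀) :
    ∃ q ∈ SOR.Rl ℓ, ux U W x - ux U' W x = ℓ ^ K * q := by
  unfold ux
  split_ifs
  · exact ⟨0, zero_mem _, by ring⟩
  · exact hU W hW

theorem nat_rl (n : ℕ) : (n : ℚ) ∈ SOR.Rl ℓ := natCast_mem (SOR.Rl ℓ) n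

theorem prod_un {u v : ℚ} (hu : ∃ q ∈ SOR.Rl ℓ, u = 1 + ℓ * q)
    (hv : ∃ q ∈ SOR.Rl ℓ, v = 1 + ℓ * q) : ∃ q ∈ SOR.Rl ℓ, u * v = 1 + ℓ * q := by
  obtain ⟨q, hq, rfl⟩ := hu
  obtain ⟨r, hr, rfl⟩ := hv
  refine ⟨q + r + ℓ * (q * r), add_mem (add_mem hq hr) (mul_mem (nat_rl ℓ) (mul_mem hq hr)), ?_⟩
  ring

theorem prod_df {u v u' v' : ℚ} {K : ℕ} (hv : ∃ q ∈ SOR.Rl ℓ, v = 1 + ℓ * q)
    (hu' : ∃ q ∈ SOR.Rl ℓ, u' = 1 + ℓ * q) (h1 : ∃ q ∈ SOR.Rl ℓ, u - u' = ℓ ^ K * q)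
    (h2 : ∃ q ∈ SOR.Rl ℓ, v - v' = ℓ ^ K * q) : ∃ q ∈ SOR.Rl ℓ, u * v - u' * v' = ℓ ^ K * q := by
  obtain ⟨q, hq, rfl⟩ := hv
  obtain ⟨r, hr, rfl⟩ := hu'
  obtain ⟨s, hs, h1⟩ := h1
  obtain ⟨t, ht, h2⟩ := h2
  have hq1 : 1 + ℓ * q ∈ SOR.Rl ℓ := add_mem (one_mem _) (mul_mem (nat_rl ℓ) hq)
  have hr1 : 1 + ℓ * r ∈ SOR.Rl ℓ := add_mem (one_mem _) (mul_mem (nat_rl ℓ) hr)
  refine ⟨s * (1 + ℓ * q) + (1 + ℓ * r) * t, add_mem (mul_mem hs hq1) (mul_mem hr1 ht), ?_⟩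
  calc u * (1 + ℓ * q) - (1 + ℓ * r) * v'
      = (u - (1 + ℓ * r)) * (1 + ℓ * q) + (1 + ℓ * r) * ((1 + ℓ * q) - v') := by ring
    _ = _ := by rw [h1, h2]; ring

theorem term (hM : (ℓ : integralClosure ℤ ℂ) ∈ M) {a : ℂ} (ha : a ∈ RM M) {u u' : ℚ} {K : ℕ}
    (hK : 2 ≤ K) (hu : ∃ q ∈ SOR.Rl ℓ, u = 1 + ℓ * q)
    (hd : ∃ q ∈ SOR.Rl ℓ, u - u' = ℓ ^ K * q) {L L' : ℂ} (hL : (L - L') / ℓ ∈ RM M)
    (hL' : L' ∈ RM M) :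
    a * (u : ℂ) / ℓ ^ 2 * L - a * (u' : ℂ) / ℓ ^ 2 * L' - a * (L - L') / ℓ ^ 2 ∈ RM M := by
  obtain ⟨q, hq, hu⟩ := hu
  obtain ⟨r, hr, hd⟩ := hd
  obtain ⟨k, rfl⟩ : ∃ k, K = 2 + k := ⟨K - 2, by omega⟩
  have hl : (ℓ : ℂ) ≠ 0 := by exact_mod_cast (Fact.out : ℓ.Prime).ne_zero
  have hu1 : (u : ℂ) = 1 + ℓ * q := by rw [hu]; push_cast; ring
  have hu2 : (u' : ℂ) = (u : ℂ) - ℓ ^ (2 + k) * r := by
    have : u' = u - ℓ ^ (2 + k) * r := by rw [← hd]; ring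
    rw [this]; push_cast; ring
  have e : a * (u : ℂ) / ℓ ^ 2 * L - a * (u' : ℂ) / ℓ ^ 2 * L' - a * (L - L') / ℓ ^ 2 =
      a * ((q : ℂ) * ((L - L') / ℓ) + ℓ ^ k * ((r : ℂ) * L')) := by
    rw [hu2, hu1, pow_add]
    field_simp
    ring
  rw [e]
  exact mul_mem ha (add_mem (mul_mem (rl_rm hM hq) hL)
    (mul_mem (pow_mem (rr_nat (M := M) ℓ).1 k) (mul_mem (rl_rm hM hr) hL')))

theorem L1_RM [Finite V₀] {E₀ : Subgroup (MulAut V₀)} (homr : HOmrStmt)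
    (hM : (ℓ : integralClosure ℤ ℂ) ∈ M) {G : Type} [Group G] [Finite G] {B : Bk (FF M) V₀ G}
    (hB : Sy ℓ M E₀ B) (c : V₀) : L1 B c ∈ RM M :=
  finsum_mem_RM fun χ hχ => (homr ℓ M hM V₀ E₀ G B hB.toSb c χ hχ).1

theorem hm_inv {ρ : V₀ → ZMod ℓ} (h : Hm ρ) (v : V₀) : -ρ v⁻¹ = ρ v := by
  have h1 : ρ 1 = 0 := by
    have := h 1 1
    rw [mul_one] at this
    simpa using this
  have h2 := h v v⁻¹
  rw [mul_inv_cancel, h1] at h2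
  exact neg_eq_of_add_eq_zero_left h2.symm

theorem hm_neg {ρ : V₀ → ZMod ℓ} (h : Hm ρ) : Hm fun v => -ρ v := fun v w => by
  show -ρ (v * w) = -ρ v + -ρ w
  rw [h v w]
  ring

theorem cfL_neg {ρ₁ ρ₂ : V₀ → ZMod ℓ} (h1 : Hm ρ₁) (h2 : Hm ρ₂) (U : Subgroup V₀ → ℚ) (c d : V₀)
    (σ : MulAut V₀) : cfL U (fun v => -ρ₁ v) (fun v => -ρ₂ v) c d σ =
      (ρ₁ (c * σ d)).val * (ρ₂ (σ⁻¹ (c * σ d))).val *
        (ux U (Subgroup.zpowers (c * σ d)) c * ux U (Subgroup.zpowers (c * σ d)) (σ d)) := by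
  unfold cfL
  simp only [hm_inv h1, hm_inv h2]

theorem cpg (hfin : FinStmt) (hrtx : RtxStmt) (hppc : PpcStmt) (homr : HOmrStmt) : CpgStmt := by
  intro ℓ _ M _ hM h2 V₀ _ _ E₀ hFr n
  by_cases hn : ∃ r, 0 < r ∧ n = ℓ ^ r
  swap
  · exact ⟨0, fun G G' _ _ _ _ B B' m m' _ _ hm _ => absurd hm.pw hn⟩
  obtain ⟨K, hK2, hK⟩ := all (M := M) hfin hrtx hppc hM h2 hFr n hn
  refine ⟨K, fun G G' _ _ _ _ B B' m m' hB hB' hm hm' hU => ⟨fun c d hc hd => ?_,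
    fun hL1 ρ₁ ρ₂ h1 h2' c d hc hd => ?_⟩⟩
  · obtain ⟨ρ₁, h1, h1c⟩ := exists_hm hFr.ex c hc
    obtain ⟨ρ₂, h2', h2d⟩ := exists_hm hFr.ex d hd
    have a := hK ρ₁ ρ₂ c d true h1 h2' hc hd (fun _ => h1c) G G' B B' m m' hB hB' hm hm' hU
    have b := hK ρ₁ ρ₂ c d false h1 h2' hc hd (fun h => absurd h (by simp)) G G' B B' m m'
      hB hB' hm hm' hU
    have hl : (ℓ : ℂ) ≠ 0 := by exact_mod_cast (Fact.out : ℓ.Prime).ne_zero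
    have hr : ¬ ℓ ∣ (-ρ₂ d).val := by
      intro h
      have h3 : ((-ρ₂ d).val : ZMod ℓ) = 0 := (ZMod.natCast_eq_zero_iff _ _).2 h
      rw [ZMod.natCast_zmod_val] at h3
      exact h2d (neg_eq_zero.1 h3)
    have hr0 : ((-ρ₂ d).val : ℂ) ≠ 0 := by
      intro h
      apply hr
      have : (-ρ₂ d).val = 0 := by exact_mod_cast h
      rw [this]
      exact dvd_zero _
    have e := mul_mem (inv_nat_RM (M := M) Fact.out hM hr) (sub_mem a b)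
    have e' : (L2 B c d - L2 B' c d) / ℓ = ((-ρ₂ d).val : ℂ)⁻¹ *
        ((((((-ρ₁ c).val : ℤ) + if true = true then (ℓ : ℤ) else 0 : ℤ) : ℂ) *
          (((-ρ₂ d).val : ℤ) : ℂ)) / ℓ ^ 2 * (L2 B c d - L2 B' c d) -
        ((∑ᶠ σ ∈ ss E₀ c d, ((cfL B.U ρ₁ ρ₂ c d σ : ℚ) : ℂ) / ℓ ^ 2 * L1 B (c * σ d)) -
        (∑ᶠ σ ∈ ss E₀ c d, ((cfL B'.U ρ₁ ρ₂ c d σ : ℚ) : ℂ) / ℓ ^ 2 * L1 B' (c * σ d))) -
        ((((((-ρ₁ c).val : ℤ) + if false = true then (ℓ : ℤ) else 0 : ℤ) : ℂ) *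
          (((-ρ₂ d).val : ℤ) : ℂ)) / ℓ ^ 2 * (L2 B c d - L2 B' c d) -
        ((∑ᶠ σ ∈ ss E₀ c d, ((cfL B.U ρ₁ ρ₂ c d σ : ℚ) : ℂ) / ℓ ^ 2 * L1 B (c * σ d)) -
        (∑ᶠ σ ∈ ss E₀ c d, ((cfL B'.U ρ₁ ρ₂ c d σ : ℚ) : ℂ) / ℓ ^ 2 * L1 B' (c * σ d))))) := by
      simp only [if_true, if_neg Bool.false_ne_true, add_zero]
      push_cast
      field_simp
      ring
    rw [e']
    exact e
  · have a := hK (fun v => -ρ₁ v) (fun v => -ρ₂ v) c d false (hm_neg h1) (hm_neg h2') hc hd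
      (fun h => absurd h (by simp)) G G' B B' m m' hB hB' hm hm' hU
    have hfinA : Finite (MulAut V₀) :=
      Finite.of_injective (fun σ : MulAut V₀ => (σ : V₀ → V₀)) DFunLike.coe_injective
    have hS : (ss E₀ c d).Finite := Set.toFinite _
    simp only [cfL_neg h1 h2', neg_neg, if_neg Bool.false_ne_true, add_zero] at a
    rw [finsum_mem_eq_finite_toFinset_sum _ hS, finsum_mem_eq_finite_toFinset_sum _ hS] at a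
    have hb : ∑ σ ∈ hS.toFinset,
        ((((ρ₁ (c * σ d)).val : ℂ) * (ρ₂ (σ⁻¹ (c * σ d))).val) *
            ((ux B.U (Subgroup.zpowers (c * σ d)) c * ux B.U (Subgroup.zpowers (c * σ d)) (σ d) :
              ℚ) : ℂ) / ℓ ^ 2 * L1 B (c * σ d) -
          (((ρ₁ (c * σ d)).val : ℂ) * (ρ₂ (σ⁻¹ (c * σ d))).val) *
            ((ux B'.U (Subgroup.zpowers (c * σ d)) c * ux B'.U (Subgroup.zpowers (c * σ d)) (σ d) :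
              ℚ) : ℂ) / ℓ ^ 2 * L1 B' (c * σ d) -
          (((ρ₁ (c * σ d)).val : ℂ) * (ρ₂ (σ⁻¹ (c * σ d))).val) *
            (L1 B (c * σ d) - L1 B' (c * σ d)) / ℓ ^ 2) ∈ RM M := by
      refine sum_mem fun σ hσ => ?_
      have hκ : c * σ d ≠ 1 := ((Set.Finite.mem_toFinset hS).1 hσ).2
      have hW : Subgroup.zpowers (c * σ d) ≠ ⊥ := by
        rw [Ne, Subgroup.zpowers_eq_bot]
        exact hκ
      exact term hM (mul_mem (rr_nat (M := M) _).1 (rr_nat (M := M) _).1) hK2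
        (prod_un (ux_un hB.un hW _) (ux_un hB.un hW _))
        (prod_df (ux_un hB.un hW _) (ux_un hB'.un hW _) (ux_df hU hW _) (ux_df hU hW _))
        (hL1 _ hκ) (L1_RM homr hM hB' _)
    have e := add_mem a hb
    have hg : ∑ᶠ σ ∈ {σ : MulAut V₀ | σ ∈ E₀ ∧ c * σ d ≠ 1},
        ((ρ₁ (c * σ d)).val : ℂ) * (ρ₂ (σ⁻¹ (c * σ d))).val * (L1 B (c * σ d) - L1 B' (c * σ d)) =
        ∑ σ ∈ hS.toFinset, ((ρ₁ (c * σ d)).val : ℂ) * (ρ₂ (σ⁻¹ (c * σ d))).val *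
          (L1 B (c * σ d) - L1 B' (c * σ d)) := finsum_mem_eq_finite_toFinset_sum _ hS
    rw [hg]
    rw [Finset.sum_sub_distrib, Finset.sum_sub_distrib, ← Finset.sum_div] at e
    push_cast at e
    have e3 : ∀ X S S' Y : ℂ, X - (S - S') + (S - S' - Y) = X - Y := fun X S S' Y => by ring
    rw [e3] at e
    have e4 : ∀ X Y Z W : ℂ, (X * (Y * Z) - W) / (ℓ : ℂ) ^ 2 = Y * Z / (ℓ : ℂ) ^ 2 * X -
        W / (ℓ : ℂ) ^ 2 := fun X Y Z W => by ring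
    rw [e4]
    exact e

end main

end Pool.Agent.PP.SO.H90
end
end -- Pool.Agent.Helper90_ASO.CPG

section -- Pool.Agent.Helper9_ASO.PPC

/-!
# Squad ASO, row PPC: continuity of the local part
-/

open scoped BigOperators

noncomputable section

namespace Pool.Agent.PP.SO.H9P

theorem fin_P {α β : Type} [AddCommMonoid β] [Fintype α] (P : α → Prop) [DecidablePred P]
    (f : α → β) : ∑ᶠ (s : α) (_ : P s), f s = ∑ s ∈ Finset.univ.filter P, f s := by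
  rw [finsum_eq_sum_of_fintype, Finset.sum_filter]
  exact Finset.sum_congr rfl fun s _ => finsum_eq_if

section rl

variable (ℓ : ℕ) [Fact ℓ.Prime]

theorem l_mem : (ℓ : ℚ) ∈ SOR.Rl ℓ := natCast_mem (SOR.Rl ℓ) ℓ

theorem lp_mem (K : ℕ) : (ℓ : ℚ) ^ K ∈ SOR.Rl ℓ := pow_mem (l_mem ℓ) K

theorem inv_l : ¬ (ℓ : ℚ)⁻¹ ∈ SOR.Rl ℓ := by
  have hp : Nat.Prime ℓ := Fact.out
  intro h
  have h1 : ¬ ℓ ∣ ((ℓ : ℚ)⁻¹).den := h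
  apply h1
  rw [Rat.inv_natCast_den_of_pos hp.pos]

theorem unit_of {a q : ℚ} (hq : q ∈ SOR.Rl ℓ) (ha : a = 1 + ℓ * q) : a ≠ 0 ∧ a⁻¹ ∈ SOR.Rl ℓ := by
  have hp : Nat.Prime ℓ := Fact.out
  have hl0 : (ℓ : ℚ) ≠ 0 := by exact_mod_cast hp.ne_zero
  -- `a / ℓ` is not in the ring
  have h1 : ∀ b ∈ SOR.Rl ℓ, a ≠ ℓ * b := by
    intro b hb h
    apply inv_l ℓ
    have h2 : (ℓ : ℚ)⁻¹ = b - q := by
      rw [h] at ha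
      field_simp
      linear_combination -ha
    rw [h2]
    exact sub_mem hb hq
  have ha0 : a ≠ 0 := by
    intro h
    exact h1 0 (zero_mem _) (by rw [h, mul_zero])
  refine ⟨ha0, ?_⟩
  have hnum : ¬ (ℓ : ℤ) ∣ a.num := by
    rintro ⟨c, hc⟩
    have h2 : a * a.den = a.num := Rat.mul_den_eq_num a
    have ham : a ∈ SOR.Rl ℓ := by
      rw [ha]
      exact add_mem (one_mem _) (mul_mem (l_mem ℓ) hq)
    have hden : ¬ ℓ ∣ a.den := ham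
    refine h1 (a / ℓ) (SOR.H3.rl_of_mul ℓ (a := c) hden ?_) (by field_simp)
    have h3 : a * a.den = ℓ * c := by
      rw [h2, hc]
      push_cast
      rfl
    field_simp
    linear_combination h3
  refine SOR.H3.rl_of_mul ℓ (m := a.num.natAbs) (a := a.den * a.num.sign) ?_ ?_
  · intro h
    apply hnum
    exact Int.natCast_dvd.2 h
  · have h2 : a * a.den = a.num := Rat.mul_den_eq_num a
    have h3 : ((a.num.natAbs : ℕ) : ℚ) = (a.num : ℚ) * (a.num.sign : ℚ) := by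
      have h4 : ((a.num.natAbs : ℕ) : ℤ) = a.num * a.num.sign := by
        rw [mul_comm, Int.sign_mul_self_eq_natAbs]
      have h5 := congrArg (fun z : ℤ => (z : ℚ)) h4
      simp only [Int.cast_natCast, Int.cast_mul] at h5
      exact h5
    rw [h3, ← h2]
    push_cast
    field_simp

/-- two elements of the ring which are congruent modulo `ℓ ^ K` -/
def Go (K : ℕ) (a b : ℚ) : Prop :=
  a ∈ SOR.Rl ℓ ∧ b ∈ SOR.Rl ℓ ∧ ∃ q ∈ SOR.Rl ℓ, a - b = ℓ ^ K * q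

variable {ℓ} {K : ℕ}

theorem Go.refl {a : ℚ} (ha : a ∈ SOR.Rl ℓ) : Go ℓ K a a :=
  ⟨ha, ha, 0, zero_mem _, by ring⟩

theorem Go.nat (n : ℕ) : Go ℓ K (n : ℚ) n := Go.refl (natCast_mem _ n)

theorem Go.mul {a b c d : ℚ} (h : Go ℓ K a b) (h' : Go ℓ K c d) : Go ℓ K (a * c) (b * d) := by
  obtain ⟨ha, hb, q, hq, e⟩ := h
  obtain ⟨hc, hd, q', hq', e'⟩ := h'
  refine ⟨mul_mem ha hc, mul_mem hb hd, a * q' + q * d, add_mem (mul_mem ha hq') (mul_mem hq hd), ?_⟩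
  linear_combination a * e' + d * e

theorem Go.add {a b c d : ℚ} (h : Go ℓ K a b) (h' : Go ℓ K c d) : Go ℓ K (a + c) (b + d) := by
  obtain ⟨ha, hb, q, hq, e⟩ := h
  obtain ⟨hc, hd, q', hq', e'⟩ := h'
  refine ⟨add_mem ha hc, add_mem hb hd, q + q', add_mem hq hq', ?_⟩
  linear_combination e + e'

theorem Go.sum {α : Type} (S : Finset α) (f g : α → ℚ) (h : ∀ x ∈ S, Go ℓ K (f x) (g x)) :
    Go ℓ K (∑ x ∈ S, f x) (∑ x ∈ S, g x) := by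
  classical
  induction S using Finset.induction_on with
  | empty => exact Go.refl (by simp [zero_mem])
  | insert a S ha ih =>
    rw [Finset.sum_insert ha, Finset.sum_insert ha]
    exact (h a (Finset.mem_insert_self _ _)).add (ih fun x hx => h x (Finset.mem_insert_of_mem hx))

theorem Go.inv {a b : ℚ} (h : Go ℓ K a b) (ha : a ≠ 0) (hb : b ≠ 0) (ha' : a⁻¹ ∈ SOR.Rl ℓ)
    (hb' : b⁻¹ ∈ SOR.Rl ℓ) : Go ℓ K a⁻¹ b⁻¹ := by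
  obtain ⟨-, -, q, hq, e⟩ := h
  refine ⟨ha', hb', -(q * a⁻¹ * b⁻¹), neg_mem (mul_mem (mul_mem hq ha') hb'), ?_⟩
  have h1 : a⁻¹ - b⁻¹ = -(a - b) * a⁻¹ * b⁻¹ := by
    field_simp
    ring
  rw [h1, e]
  ring

/-- the difference, multiplied with a number with denominator `ℓ ^ K` -/
theorem Go.diff {a b r : ℚ} (h : Go ℓ K a b) (hr : (ℓ : ℚ) ^ K * r ∈ SOR.Rl ℓ) :
    r * a - r * b ∈ SOR.Rl ℓ := by
  obtain ⟨-, -, q, hq, e⟩ := h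
  have h1 : r * a - r * b = ((ℓ : ℚ) ^ K * r) * q := by
    linear_combination r * e
  rw [h1]
  exact mul_mem hr hq

end rl

section ux

variable {ℓ : ℕ} [Fact ℓ.Prime] {K : ℕ} {V₀ : Type} [CommGroup V₀]

/-- the hypotheses on `U`, `U'` -/
structure HU (ℓ : ℕ) [Fact ℓ.Prime] (K : ℕ) (U U' : Subgroup V₀ → ℚ) : Prop where
  a : ∀ W, W ≠ ⊥ → ∃ q ∈ SOR.Rl ℓ, U W = 1 + ℓ * q
  b : ∀ W, W ≠ ⊥ → ∃ q ∈ SOR.Rl ℓ, U' W = 1 + ℓ * q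
  c : ∀ W, W ≠ ⊥ → ∃ q ∈ SOR.Rl ℓ, U W - U' W = ℓ ^ K * q

theorem ux_go {U U' : Subgroup V₀ → ℚ} (h : HU ℓ K U U') {W : Subgroup V₀} (hW : W ≠ ⊥) (x : V₀) :
    Go ℓ K (ux U W x) (ux U' W x) ∧ Go ℓ K (ux U W x)⁻¹ (ux U' W x)⁻¹ := by
  unfold ux
  by_cases hx : x ∈ W
  · rw [if_pos hx, if_pos hx, inv_one]
    exact ⟨Go.refl (one_mem _), Go.refl (one_mem _)⟩
  · rw [if_neg hx, if_neg hx]
    obtain ⟨q, hq, e⟩ := h.a W hW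
    obtain ⟨q', hq', e'⟩ := h.b W hW
    obtain ⟨h1, h2⟩ := unit_of ℓ hq e
    obtain ⟨h3, h4⟩ := unit_of ℓ hq' e'
    have h5 : Go ℓ K (U W) (U' W) := by
      refine ⟨?_, ?_, h.c W hW⟩
      · rw [e]
        exact add_mem (one_mem _) (mul_mem (l_mem ℓ) hq)
      · rw [e']
        exact add_mem (one_mem _) (mul_mem (l_mem ℓ) hq')
    exact ⟨h5, h5.inv h1 h3 h2 h4⟩

end ux

theorem ppc : PpcStmt := by
  intro ℓ _ V₀ _ _ E₀ n c d F₁₃ F₁₂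
  classical
  have := Fintype.ofFinite V₀
  have : Finite (MulAut V₀) := inferInstance
  have := Fintype.ofFinite (MulAut V₀)
  obtain ⟨K₀, hK₀⟩ := SOR.H3.exists_pow_fin ℓ
    ((Finset.univ : Finset (Set (SS n V₀))).image (fun L => mob F₁₃ L) ∪
      (Finset.univ : Finset (Set (SS n V₀))).image (fun L => mob F₁₂ L))
  refine ⟨K₀, fun K hK U U' hU hU' hUU => ?_⟩
  have H : HU ℓ K U U' := ⟨hU, hU', hUU⟩
  have hpow : ∀ v : ℚ, (ℓ : ℚ) ^ K₀ * v ∈ SOR.Rl ℓ → (ℓ : ℚ) ^ K * v ∈ SOR.Rl ℓ := by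
    intro v hv
    obtain ⟨j, rfl⟩ := Nat.exists_eq_add_of_le hK
    rw [add_comm, pow_add, mul_assoc]
    exact mul_mem (lp_mem ℓ j) hv
  have h13 : ∀ L, (ℓ : ℚ) ^ K * mob F₁₃ L ∈ SOR.Rl ℓ := fun L => hpow _ (hK₀ _
    (Finset.mem_union_left _ (Finset.mem_image_of_mem _ (Finset.mem_univ L))))
  have h12 : ∀ L, (ℓ : ℚ) ^ K * mob F₁₂ L ∈ SOR.Rl ℓ := fun L => hpow _ (hK₀ _
    (Finset.mem_union_right _ (Finset.mem_image_of_mem _ (Finset.mem_univ L))))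
  have hP : ∀ U : Subgroup V₀ → ℚ, PPd E₀ U c d F₁₃ F₁₂ =
      ∑ L ∈ Finset.univ.filter (fun L : Set (SS n V₀) => pL L ≠ ⊥ ∧ qL L ≠ ⊥),
        (mob F₁₃ L * P13 E₀ U c d L + mob F₁₂ L * P12 E₀ U c d L) := fun U =>
    fin_P (fun L : Set (SS n V₀) => pL L ≠ ⊥ ∧ qL L ≠ ⊥) _
  rw [hP, hP, ← Finset.sum_sub_distrib]
  refine sum_mem fun L hL => ?_
  obtain ⟨hp, hq⟩ := (Finset.mem_filter.1 hL).2
  have g13 : Go ℓ K (P13 E₀ U c d L) (P13 E₀ U' c d L) := by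
    unfold P13
    exact ((ux_go H hp c).1.mul (ux_go H hq d).1).mul (Go.nat _)
  have g12 : Go ℓ K (P12 E₀ U c d L) (P12 E₀ U' c d L) := by
    have hS : ∀ U : Subgroup V₀ → ℚ, P12 E₀ U c d L =
        ∑ σ ∈ Finset.univ.filter (fun σ : MulAut V₀ => σ ∈ EL E₀ L ∧ aL (c * σ d) L ≠ ⊥),
          ux U (pL L) c * ux U (pL L) (σ d) / ux U (pL L) (c * σ d) *
            (ux U (aL (c * σ d) L) (c * σ d) * N12 E₀ (c * σ d) L) := fun U =>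
      fin_P (fun σ : MulAut V₀ => σ ∈ EL E₀ L ∧ aL (c * σ d) L ≠ ⊥) _
    rw [hS, hS]
    refine Go.sum _ _ _ fun σ hσ => ?_
    have ha := (Finset.mem_filter.1 hσ).2.2
    rw [div_eq_mul_inv, div_eq_mul_inv]
    exact (((ux_go H hp c).1.mul (ux_go H hp (σ d)).1).mul (ux_go H hp (c * σ d)).2).mul
      ((ux_go H ha (c * σ d)).1.mul (Go.nat _))
  have h1 : mob F₁₃ L * P13 E₀ U c d L + mob F₁₂ L * P12 E₀ U c d L -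
      (mob F₁₃ L * P13 E₀ U' c d L + mob F₁₂ L * P12 E₀ U' c d L) =
      (mob F₁₃ L * P13 E₀ U c d L - mob F₁₃ L * P13 E₀ U' c d L) +
      (mob F₁₂ L * P12 E₀ U c d L - mob F₁₂ L * P12 E₀ U' c d L) := by ring
  rw [h1]
  exact add_mem (g13.diff (h13 L)) (g12.diff (h12 L))

end Pool.Agent.PP.SO.H9P
end
end -- Pool.Agent.Helper9_ASO.PPC

section -- Pool.Agent.Helper13_ASE.CME

/-!
# Squad ASE, row CME (helper13): comparison of two data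
-/

set_option autoImplicit false

open scoped BigOperators

noncomputable section

namespace Pool.Agent.PP.SE.H13

open Pool.Agent.Helper51_AWC Pool.Agent.Helper79_WRA Pool.Agent.PP Pool.Agent.PP.KF
open Pool.Agent.PP.K9 Pool.Agent.PP.K9.H97 Pool.Agent.PP.H75 Pool.Agent.PP.T3 Pool.Agent.PP.SO
open Pool.Agent.PP.SD

attribute [local instance] Ideal.Quotient.field

/-- the inverse of a number prime to `ℓ` -/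
theorem cme_inv {ℓ : ℕ} [hℓ : Fact ℓ.Prime] {x : ℕ} (hx0 : 0 < x) (hx : x < ℓ) :
    ((x : ℚ))⁻¹ ∈ SOR.Rl ℓ := by
  change ¬ ℓ ∣ ((x : ℚ)⁻¹).den
  rw [Rat.inv_natCast_den_of_pos hx0]
  exact Nat.not_dvd_of_pos_of_lt hx0 hx

/-- CME -/
theorem cme (Cpx : CpxStmt) (Hex : HexStmt) (Mqc : MqcStmt) (Mqa : MqaStmt) (Mqb : MqbStmt)
    (Hmx : HmxStmt) (Kre : KreStmt) : CmeStmt := by
  classical
  intro ℓ hℓ M _ hM h5 V₀ G _ _ _ _ E₀ hFq B hB D hD r hr hPE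
  obtain ⟨K, hK2, hK⟩ := Cpx ℓ M hM (by omega) V₀ G E₀ hFq B hB D hD r hr hPE
  refine ⟨K, ?_⟩
  intro G' _ _ B' D' hB' hD' hPE' hU hfx
  obtain ⟨d₁, n₁, z₁, y₁, h1⟩ := Hex ℓ M hM (by omega) V₀ G E₀ hFq B hB D hD
  obtain ⟨d₂, n₂, z₂, y₂, h2⟩ := Hex ℓ M hM (by omega) V₀ G' E₀ hFq B' hB' D' hD'
  have hℓ0 : (ℓ : ℚ) ≠ 0 := by
    have := hℓ.out.pos
    positivity
  have hmq : ∀ ρ₁ ρ₂ : V₀ → ZMod ℓ, Hm ρ₁ → Hm ρ₂ → ∀ v₀ c d : V₀, c ≠ 1 → d ≠ 1 →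
      MQ ℓ E₀ D.U d₁ n₁ z₁ y₁ (lf ρ₁ v₀) (lf ρ₂ 1) c d -
        MQ ℓ E₀ D'.U d₂ n₂ z₂ y₂ (lf ρ₁ v₀) (lf ρ₂ 1) c d ∈ SOR.Rl ℓ := by
    intro ρ₁ ρ₂ hρ₁ hρ₂ v₀ c d hc hd
    have h3 := hK G' B' D' hB' hD' hPE' hU hfx ρ₁ ρ₂ hρ₁ hρ₂ v₀ c d hc hd
    rw [Mqc ℓ M V₀ G E₀ hFq B D d₁ n₁ z₁ y₁ h1 _ _ c d hc hd,
      Mqc ℓ M V₀ G' E₀ hFq B' D' d₂ n₂ z₂ y₂ h2 _ _ c d hc hd] at h3
    refine SO.H13.kcm_rat hM ?_
    rw [Rat.cast_sub]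
    exact h3
  have hU2 : ∀ W : Subgroup V₀, W ≠ ⊥ → ∃ q ∈ SOR.Rl ℓ, D.U W - D'.U W = ℓ ^ 2 * q := by
    intro W hW
    obtain ⟨q, hq, e⟩ := hU W hW
    refine ⟨(ℓ : ℚ) ^ (K - 2) * q, (SOR.Rl ℓ).mul_mem ((SOR.Rl ℓ).pow_mem (natCast_mem _ _) _) hq,
      ?_⟩
    rw [e, ← mul_assoc, ← pow_add]
    congr 2
    omega
  refine Kre ℓ (by omega) V₀ E₀ hFq (fun c => d₁ c - d₂ c) (fun c d => n₁ c d - n₂ c d)
    (fun a => z₁ a 1 - z₂ a 1) (fun a κ d => y₁ a κ d - y₂ a κ d) _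
    ⟨fun c => sub_mem (h1.dr c) (h2.dr c), fun c d hc hd => sub_mem (h1.nr c d hc hd)
      (h2.nr c d hc hd), fun c j hj => ?_, fun σ hσ c => ?_, fun a ha => ?_, fun a ha σ hσ => ?_,
      fun a ha κ hκ d hd => ?_, fun c d hc hd => ?_, fun hDD ρ₁ ρ₂ hρ₁ hρ₂ c d hc hd => ?_,
      fun c d hc hd => ?_, fun a ha κ hκ d hd => ?_, ?_⟩
  · show d₁ (c ^ j) - d₂ (c ^ j) = d₁ c - d₂ c
    rw [h1.dp c j hj, h2.dp c j hj]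
  · show d₁ (σ c) - d₂ (σ c) = d₁ c - d₂ c
    rw [h1.de σ hσ c, h2.de σ hσ c]
  · obtain ⟨q, hq, e⟩ := h1.zr a ha 1 a.one_mem
    obtain ⟨q', hq', e'⟩ := h2.zr a ha 1 a.one_mem
    refine ⟨q - q', sub_mem hq hq', ?_⟩
    show z₁ a 1 - z₂ a 1 = _
    rw [e, e', mul_sub]
  · show z₁ (mp σ a) 1 - z₂ (mp σ a) 1 = z₁ a 1 - z₂ a 1
    rw [h1.ze a ha σ hσ, h2.ze a ha σ hσ]
  · obtain ⟨q, hq, e⟩ := h1.yr a ha κ hκ d hd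
    obtain ⟨q', hq', e'⟩ := h2.yr a ha κ hκ d hd
    refine ⟨q - q', sub_mem hq hq', ?_⟩
    show y₁ a κ d - y₂ a κ d = _
    rw [e, e', mul_sub]
  · -- n1
    obtain ⟨ρ₁, hρ₁, hc1⟩ := (Hmx ℓ).1 V₀ hFq.ex c hc
    obtain ⟨ρ₂, hρ₂, hd1⟩ := (Hmx ℓ).1 V₀ hFq.ex d hd
    have inv0 : ∀ ρ : V₀ → ZMod ℓ, Hm ρ → ∀ v, ρ v ≠ 0 → ρ v⁻¹ ≠ 0 := by
      intro ρ hρ v hv h0
      have e1 := hρ 1 1
      rw [mul_one] at e1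
      have e2 := hρ v v⁻¹
      rw [mul_inv_cancel, h0, add_zero] at e2
      apply hv
      rw [← e2]
      linear_combination -e1
    have hc2 := inv0 ρ₁ hρ₁ c hc1
    have hd2 := inv0 ρ₂ hρ₂ d hd1
    have a1 := hmq ρ₁ ρ₂ hρ₁ hρ₂ c⁻¹ c d hc hd
    have a2 := hmq ρ₁ ρ₂ hρ₁ hρ₂ 1 c d hc hd
    have a3 := Mqa ℓ M V₀ G E₀ hFq B D hD d₁ n₁ z₁ y₁ h1 ρ₁ ρ₂ hρ₁ hρ₂ c d hc hd hc2
    have a4 := Mqa ℓ M V₀ G' E₀ hFq B' D' hD' d₂ n₂ z₂ y₂ h2 ρ₁ ρ₂ hρ₁ hρ₂ c d hc hd hc2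
    have a5 : ((lf ρ₂ 1 d⁻¹ : ℤ) : ℚ) / ℓ * (n₁ c d - n₂ c d) ∈ SOR.Rl ℓ := by
      have a6 := sub_mem (sub_mem a1 a2) (sub_mem a3 a4)
      have a7 : ((lf ρ₂ 1 d⁻¹ : ℤ) : ℚ) / ℓ * (n₁ c d - n₂ c d) =
          MQ ℓ E₀ D.U d₁ n₁ z₁ y₁ (lf ρ₁ c⁻¹) (lf ρ₂ 1) c d -
            MQ ℓ E₀ D'.U d₂ n₂ z₂ y₂ (lf ρ₁ c⁻¹) (lf ρ₂ 1) c d -
          (MQ ℓ E₀ D.U d₁ n₁ z₁ y₁ (lf ρ₁ 1) (lf ρ₂ 1) c d -
            MQ ℓ E₀ D'.U d₂ n₂ z₂ y₂ (lf ρ₁ 1) (lf ρ₂ 1) c d) -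
          (MQ ℓ E₀ D.U d₁ n₁ z₁ y₁ (lf ρ₁ c⁻¹) (lf ρ₂ 1) c d -
            MQ ℓ E₀ D.U d₁ n₁ z₁ y₁ (lf ρ₁ 1) (lf ρ₂ 1) c d -
              ((lf ρ₂ 1 d⁻¹ : ℤ) : ℚ) / ℓ * n₁ c d -
            (MQ ℓ E₀ D'.U d₂ n₂ z₂ y₂ (lf ρ₁ c⁻¹) (lf ρ₂ 1) c d -
              MQ ℓ E₀ D'.U d₂ n₂ z₂ y₂ (lf ρ₁ 1) (lf ρ₂ 1) c d -
              ((lf ρ₂ 1 d⁻¹ : ℤ) : ℚ) / ℓ * n₂ c d)) := by
        ring
      rw [a7]
      exact a6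
    have hlf : lf ρ₂ 1 d⁻¹ = ((ρ₂ d⁻¹).val : ℤ) := by
      unfold lf
      rw [if_neg (fun h => hd (inv_eq_one.1 h.1)), add_zero]
    rw [hlf] at a5
    have hv0 : 0 < (ρ₂ d⁻¹).val := Nat.pos_of_ne_zero (fun h => hd2 ((ZMod.val_eq_zero _).1 h))
    have hv1 : (ρ₂ d⁻¹).val < ℓ := ZMod.val_lt _
    have a8 := (SOR.Rl ℓ).mul_mem (cme_inv hv0 hv1) a5
    refine ⟨_, a8, ?_⟩
    show n₁ c d - n₂ c d = _
    have hv2 : (((ρ₂ d⁻¹).val : ℕ) : ℚ) ≠ 0 := by exact_mod_cast hv0.ne'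
    push_cast
    field_simp
  · -- n2
    have inv1 : ∀ ρ : V₀ → ZMod ℓ, Hm ρ → Hm (fun v : V₀ => ρ v⁻¹) := by
      intro ρ hρ v w
      show ρ (v * w)⁻¹ = ρ v⁻¹ + ρ w⁻¹
      rw [mul_inv, hρ]
    exact Mqb ℓ M V₀ G G' E₀ hFq B D B' D' hD hD' hU2 d₁ d₂ n₁ n₂ z₁ z₂ y₁ y₂ h1 h2 hDD
      ρ₁ ρ₂ hρ₁ hρ₂ c d hc hd
      (hmq (fun v => ρ₁ v⁻¹) (fun v => ρ₂ v⁻¹) (inv1 ρ₁ hρ₁) (inv1 ρ₂ hρ₂) 1 c d hc hd)
  · -- sf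
    obtain ⟨q, hq, e⟩ := h1.sf c d hc hd
    obtain ⟨q', hq', e'⟩ := h2.sf c d hc hd
    refine ⟨q - q', sub_mem hq hq', ?_⟩
    simp only [Finset.sum_sub_distrib]
    push_cast
    linear_combination e - e'
  · -- sy
    obtain ⟨q, hq, e⟩ := h1.sy a ha κ hκ d hd
    obtain ⟨q', hq', e'⟩ := h2.sy a ha κ hκ d hd
    refine ⟨q - q', sub_mem hq hq', ?_⟩
    simp only [Finset.sum_sub_distrib]
    linear_combination e - e'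
  · -- hh
    obtain ⟨q, hq, e⟩ := h1.hh
    obtain ⟨q', hq', e'⟩ := h2.hh
    refine ⟨q - q', sub_mem hq hq', ?_⟩
    rw [finsum_mem_sub_distrib _ _ (Set.toFinite _)]
    push_cast
    linear_combination e - e'

end Pool.Agent.PP.SE.H13
end
end -- Pool.Agent.Helper13_ASE.CME

section -- Pool.Agent.Helper1_ASE.DVS

/-!
# Squad ASE, row DVS: the deviations cancel
-/

set_option autoImplicit false

open scoped BigOperators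

noncomputable section

namespace Pool.Agent.PP.SE.H1

open Pool.Agent.Helper51_AWC Pool.Agent.Helper79_WRA Pool.Agent.PP Pool.Agent.PP.KF
open Pool.Agent.PP.K9 Pool.Agent.PP.K9.H97 Pool.Agent.PP.H75 Pool.Agent.PP.T3 Pool.Agent.PP.SO
open Pool.Agent.PP.SD

attribute [local instance] Ideal.Quotient.field

section ring

variable {ℓ : ℕ} [hℓ : Fact ℓ.Prime] {M : Ideal (integralClosure ℤ ℂ)} [M.IsMaximal]

theorem nat_inv_RM (hM : (ℓ : integralClosure ℤ ℂ) ∈ M) {n : ℕ} (hn : ¬ ℓ ∣ n) :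
    (n : ℂ)⁻¹ ∈ RM M := by
  have hch : CharP (FF M) ℓ := (H50.fld ℓ Fact.out M hM).char
  have h2 : rr M (n : ℂ) ≠ 0 := by
    rw [(rr_nat n).2]
    intro h
    exact hn ((CharP.cast_eq_zero_iff (FF M) ℓ n).1 h)
  exact (inv_RM (rr_nat n).1 h2).1

/-- rational numbers with denominator prime to `ℓ` are in the local ring -/
theorem rl_RM (hM : (ℓ : integralClosure ℤ ℂ) ∈ M) {q : ℚ} (hq : q ∈ SOR.Rl ℓ) :
    (q : ℂ) ∈ RM M := by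
  have h1 : ¬ ℓ ∣ q.den := hq
  have h4 : (q : ℂ) = (q.num : ℂ) * (q.den : ℂ)⁻¹ := by
    rw [← div_eq_mul_inv]
    exact Rat.cast_def q
  rw [h4]
  exact (RM M).mul_mem (rr_int q.num).1 (nat_inv_RM hM h1)

/-- a product of `Λ`, a number of `ℓ Rl` and a number of `12 ℓ⁻² ℤ` -/
theorem term_RM (hM : (ℓ : integralClosure ℤ ℂ) ∈ M) {L : ℂ} (hL : L / ℓ ∈ RM M) {q : ℚ}
    (hq : q ∈ SOR.Rl ℓ) (z : ℤ) :
    L * (((ℓ * q) * (-(12 / (ℓ : ℚ) ^ 2) * (z : ℚ)) : ℚ) : ℂ) ∈ RM M := by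
  have h0 : (ℓ : ℂ) ≠ 0 := Nat.cast_ne_zero.2 hℓ.out.ne_zero
  have h1 : L * (((ℓ * q) * (-(12 / (ℓ : ℚ) ^ 2) * (z : ℚ)) : ℚ) : ℂ) =
      L / ℓ * ((q : ℂ) * (((-12 * z : ℤ)) : ℂ)) := by
    push_cast
    field_simp
  rw [h1]
  exact (RM M).mul_mem hL ((RM M).mul_mem (rl_RM hM hq) (rr_int _).1)

theorem term_RM' (hM : (ℓ : integralClosure ℤ ℂ) ∈ M) {L : ℂ} (hL : L / ℓ ∈ RM M) {z : ℤ}
    (hz : (ℓ : ℤ) ∣ z) :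
    L * ((-(12 / (ℓ : ℚ) ^ 2) * (z : ℚ) : ℚ) : ℂ) ∈ RM M := by
  obtain ⟨k, rfl⟩ := hz
  have h1 := term_RM hM hL (SOR.Rl ℓ).one_mem k
  have h2 : ((ℓ * 1) * (-(12 / (ℓ : ℚ) ^ 2) * (k : ℚ)) : ℚ) =
      -(12 / (ℓ : ℚ) ^ 2) * (((ℓ : ℤ) * k : ℤ) : ℚ) := by
    push_cast
    ring
  rwa [h2] at h1

end ring

section vals

variable {V₀ : Type} [CommGroup V₀] {ℓ : ℕ} {ρ₁ ρ₂ : V₀ → ZMod ℓ} {x₁ x₂ : V₀ → ℤ}

/-- the integer in `BrF` -/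
def zF (x₁ x₂ : V₀ → ℤ) (kc kd κ : V₀) (σ : MulAut V₀) (ζ : V₀) : ℤ :=
  (x₁ kc⁻¹ - x₁ κ⁻¹) * x₂ (σ⁻¹ ζ) + (x₂ kd⁻¹ - x₂ (σ⁻¹ κ)⁻¹) * x₁ ζ

theorem brF_eq (kc kd κ : V₀) (σ : MulAut V₀) (ζ : V₀) :
    BrF ℓ x₁ x₂ kc kd κ σ ζ = -(12 / (ℓ : ℚ) ^ 2) * (zF x₁ x₂ kc kd κ σ ζ : ℚ) := rfl

theorem hm_one (h : Hm ρ₁) : ρ₁ 1 = 0 := by
  have h1 := h 1 1
  rw [mul_one] at h1
  exact left_eq_add.1 h1

theorem hm_inv (h : Hm ρ₁) (v : V₀) : ρ₁ v⁻¹ = -ρ₁ v := by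
  have h1 := h v v⁻¹
  rw [mul_inv_cancel, hm_one h] at h1
  exact eq_neg_of_add_eq_zero_right h1.symm

theorem zF_mod (h₁ : Hm ρ₁) (h₂ : Hm ρ₂) (hx₁ : Lf ρ₁ x₁) (hx₂ : Lf ρ₂ x₂) (kc kd κ : V₀)
    (σ : MulAut V₀) (ζ : V₀) : (zF x₁ x₂ kc kd κ σ ζ : ZMod ℓ) =
      (ρ₁ κ - ρ₁ kc) * ρ₂ (σ⁻¹ ζ) + (ρ₂ (σ⁻¹ κ) - ρ₂ kd) * ρ₁ ζ := by
  unfold zF
  push_cast
  rw [(hx₁ kc⁻¹).1, (hx₁ κ⁻¹).1, (hx₂ (σ⁻¹ ζ)).1, (hx₂ kd⁻¹).1, (hx₂ (σ⁻¹ κ)⁻¹).1, (hx₁ ζ).1,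
    hm_inv h₁, hm_inv h₁, hm_inv h₂, hm_inv h₂]
  ring

/-- the sum of the four integers -/
def zT (x₁ x₂ : V₀ → ℤ) (P : V₀ → V₀) (c d : V₀) (ζ : V₀) (σ : MulAut V₀) : ℤ :=
  zF x₁ x₂ c d (c * σ d) σ ζ + zF x₁ x₂ c d (P (c * σ d)) σ ζ
    - zF x₁ x₂ (P c) d (P (c * σ d)) σ ζ - zF x₁ x₂ c (σ⁻¹ (P (σ d))) (P (c * σ d)) σ ζ

theorem zT_mod (h₁ : Hm ρ₁) (h₂ : Hm ρ₂) (hx₁ : Lf ρ₁ x₁) (hx₂ : Lf ρ₂ x₂) {P : V₀ → V₀}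
    (hP : ∀ v w, P (v * w) = P v * P w) (c d ζ : V₀) (σ : MulAut V₀) :
    (zT x₁ x₂ P c d ζ σ : ZMod ℓ) =
      ρ₁ (σ d * (P (σ d))⁻¹) * ρ₂ (σ⁻¹ ζ) + ρ₂ (σ⁻¹ (c * (P c)⁻¹)) * ρ₁ ζ := by
  unfold zT
  rw [Int.cast_sub, Int.cast_sub, Int.cast_add, zF_mod h₁ h₂ hx₁ hx₂, zF_mod h₁ h₂ hx₁ hx₂,
    zF_mod h₁ h₂ hx₁ hx₂, zF_mod h₁ h₂ hx₁ hx₂, hP, h₁ c, h₁ (P c), h₁ (σ d), map_mul, map_mul,
    map_mul, h₂ (σ⁻¹ c), h₂ (σ⁻¹ (P c)), h₂ (σ⁻¹ c), hm_inv h₁, map_inv, hm_inv h₂]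
  have h3 : σ⁻¹ (σ d) = d := σ.symm_apply_apply d
  rw [h3]
  ring

theorem hm_prod (h : Hm ρ₁) {ι : Type} (s : Finset ι) (f : ι → V₀) :
    ρ₁ (∏ i ∈ s, f i) = ∑ i ∈ s, ρ₁ (f i) := by
  classical
  induction s using Finset.induction_on with
  | empty => rw [Finset.prod_empty, Finset.sum_empty, hm_one h]
  | insert a s ha ih => rw [Finset.prod_insert ha, Finset.sum_insert ha, h, ih]

end vals

section avg

variable {V₀ : Type} [CommGroup V₀]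

/-- averaging over a subgroup -/
theorem avg_RM {ℓ : ℕ} [hℓ : Fact ℓ.Prime] {M : Ideal (integralClosure ℤ ℂ)} [M.IsMaximal]
    (hM : (ℓ : integralClosure ℤ ℂ) ∈ M) {E N : Subgroup (MulAut V₀)} (hN : N ≤ E)
    [Fintype E] [Fintype N] (hn : ¬ ℓ ∣ Nat.card N) (f : MulAut V₀ → ℂ)
    (h : ∀ σ : E, ∑ π : N, f ((π : MulAut V₀) * σ) ∈ RM M) :
    ∑ σ : E, f σ ∈ RM M := by
  have h1 : ∑ π : N, ∑ σ : E, f ((π : MulAut V₀) * σ) = (Nat.card N : ℂ) * ∑ σ : E, f σ := by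
    have h2 : ∀ π : N, ∑ σ : E, f ((π : MulAut V₀) * σ) = ∑ σ : E, f σ := by
      intro π
      exact Fintype.sum_equiv (Equiv.mulLeft (⟨π, hN π.2⟩ : E)) _ _ (fun σ => rfl)
    rw [Finset.sum_congr rfl (fun π _ => h2 π), Finset.sum_const, Finset.card_univ,
      nsmul_eq_mul, Nat.card_eq_fintype_card]
  rw [Finset.sum_comm] at h1
  have h3 : (Nat.card N : ℂ) ≠ 0 := by
    intro h4
    rw [Nat.cast_eq_zero] at h4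
    exact hn (h4 ▸ dvd_zero ℓ)
  have h5 : ∑ σ : E, f σ = (Nat.card N : ℂ)⁻¹ * ∑ σ : E, ∑ π : N, f ((π : MulAut V₀) * σ) := by
    rw [h1, ← mul_assoc, inv_mul_cancel₀ h3, one_mul]
  rw [h5]
  exact (RM M).mul_mem (nat_inv_RM hM hn) (sum_mem fun σ _ => h σ)

end avg

/-- the sum over a coset is divisible by `ℓ` -/
theorem coset_dvd {ℓ : ℕ} [hℓ : Fact ℓ.Prime] {V₀ : Type} [CommGroup V₀] [Finite V₀]
    {ρ₁ ρ₂ : V₀ → ZMod ℓ} {x₁ x₂ : V₀ → ℤ} (h₁ : Hm ρ₁) (h₂ : Hm ρ₂) (hx₁ : Lf ρ₁ x₁)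
    (hx₂ : Lf ρ₂ x₂) {P : V₀ → V₀} (hP : ∀ v w, P (v * w) = P v * P w)
    (N : Subgroup (MulAut V₀)) [Fintype N] (a : Subgroup V₀) (hPa : ∀ v, P v ∈ a)
    (hPN : ∀ π ∈ N, ∀ v, P (π v) = P v) (hNa : ∀ π ∈ N, ∀ v ∈ a, π v = v)
    (hprod : ∀ v, ∏ π : N, (π : MulAut V₀) (v * (P v)⁻¹) = 1)
    (c d ζ : V₀) (hζ : ζ ∈ a) (σ : MulAut V₀) :
    (ℓ : ℤ) ∣ ∑ π : N, zT x₁ x₂ P c d ζ ((π : MulAut V₀) * σ) := by
  rw [← ZMod.intCast_zmod_eq_zero_iff_dvd]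
  rw [Int.cast_sum]
  have key : ∀ π : N, ((zT x₁ x₂ P c d ζ ((π : MulAut V₀) * σ) : ℤ) : ZMod ℓ) =
      ρ₁ ((π : MulAut V₀) (σ d * (P (σ d))⁻¹)) * ρ₂ (σ⁻¹ ζ) +
      ρ₂ (σ⁻¹ (((π⁻¹ : N) : MulAut V₀) (c * (P c)⁻¹))) * ρ₁ ζ := by
    intro π
    rw [zT_mod h₁ h₂ hx₁ hx₂ hP]
    have e1 : ((π : MulAut V₀) * σ) d = (π : MulAut V₀) (σ d) := rfl
    have e2 : ((π : MulAut V₀) * σ)⁻¹ ζ = σ⁻¹ ζ := by
      rw [mul_inv_rev, MulAut.mul_apply]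
      have : (π : MulAut V₀)⁻¹ ζ = ζ := hNa _ (inv_mem π.2) ζ hζ
      rw [this]
    have e3 : ((π : MulAut V₀) * σ)⁻¹ (c * (P c)⁻¹) =
        σ⁻¹ (((π⁻¹ : N) : MulAut V₀) (c * (P c)⁻¹)) := by
      rw [mul_inv_rev, MulAut.mul_apply]
      rfl
    have e4 : (π : MulAut V₀) (σ d) * (P ((π : MulAut V₀) (σ d)))⁻¹ =
        (π : MulAut V₀) (σ d * (P (σ d))⁻¹) := by
      rw [hPN π π.2, map_mul, map_inv, hNa π π.2 _ (hPa _)]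
    rw [e1, e2, e3, e4]
  rw [Finset.sum_congr rfl (fun π _ => key π), Finset.sum_add_distrib, ← Finset.sum_mul,
    ← Finset.sum_mul]
  have k1 : ∑ π : N, ρ₁ ((π : MulAut V₀) (σ d * (P (σ d))⁻¹)) = 0 := by
    rw [← hm_prod h₁, hprod, hm_one h₁]
  have k2 : ∑ π : N, ρ₂ (σ⁻¹ (((π⁻¹ : N) : MulAut V₀) (c * (P c)⁻¹))) = 0 := by
    rw [← hm_prod h₂, ← map_prod]
    have : ∏ π : N, ((π⁻¹ : N) : MulAut V₀) (c * (P c)⁻¹) =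
        ∏ π : N, (π : MulAut V₀) (c * (P c)⁻¹) :=
      Fintype.prod_equiv (Equiv.inv N) _ _ (fun π => rfl)
    rw [this, hprod, map_one, hm_one h₂]
  rw [k1, k2, zero_mul, zero_mul, add_zero]

section cs

variable {ℓ : ℕ} [hℓ : Fact ℓ.Prime] {V₀ : Type} [CommGroup V₀]

/-- `1 + ℓ Rl` -/
def On (ℓ : ℕ) [Fact ℓ.Prime] (u : ℚ) : Prop := ∃ q ∈ SOR.Rl ℓ, u = 1 + ℓ * q

theorem On.one : On ℓ 1 := ⟨0, (SOR.Rl ℓ).zero_mem, by ring⟩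

theorem On.mul {u v : ℚ} (hu : On ℓ u) (hv : On ℓ v) : On ℓ (u * v) := by
  obtain ⟨q, hq, rfl⟩ := hu
  obtain ⟨r, hr, rfl⟩ := hv
  refine ⟨q + r + ℓ * (q * r), ?_, by ring⟩
  exact add_mem (add_mem hq hr) (mul_mem (SO.H9P.l_mem ℓ) (mul_mem hq hr))

theorem On.inv {u : ℚ} (hu : On ℓ u) : On ℓ u⁻¹ := by
  obtain ⟨q, hq, rfl⟩ := hu
  obtain ⟨h1, h2⟩ := SO.H9P.unit_of ℓ hq rfl
  refine ⟨-(q * (1 + ℓ * q)⁻¹), neg_mem (mul_mem hq h2), ?_⟩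
  field_simp
  ring

theorem On.div {u v : ℚ} (hu : On ℓ u) (hv : On ℓ v) : On ℓ (u / v) := by
  rw [div_eq_mul_inv]
  exact hu.mul hv.inv

theorem ux_on {U : Subgroup V₀ → ℚ} {a : Subgroup V₀} (h : On ℓ (U a)) (c : V₀) :
    On ℓ (ux U a c) := by
  unfold ux
  split_ifs
  · exact On.one
  · exact h

theorem cS_on {U : Subgroup V₀ → ℚ} {a : Subgroup V₀} (h : On ℓ (U a)) (c d : V₀)
    (σ : MulAut V₀) : On ℓ (cS U c d σ a) :=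
  ((ux_on h _).mul (ux_on h _)).div (ux_on h _)

variable {M : Ideal (integralClosure ℤ ℂ)} [M.IsMaximal]

theorem on_RM (hM : (ℓ : integralClosure ℤ ℂ) ∈ M) {L : ℂ} (hL : L / ℓ ∈ RM M) {u : ℚ}
    (hu : On ℓ u) (z : ℤ) :
    L * (((u - 1) * (-(12 / (ℓ : ℚ) ^ 2) * (z : ℚ)) : ℚ) : ℂ) ∈ RM M := by
  obtain ⟨q, hq, rfl⟩ := hu
  have h := term_RM hM hL hq z
  have h2 : (1 + ℓ * q : ℚ) - 1 = ℓ * q := by ring
  rw [h2]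
  exact h

end cs

section core

variable {ℓ : ℕ} [hℓ : Fact ℓ.Prime] {V₀ : Type} [CommGroup V₀]
  {M : Ideal (integralClosure ℤ ℂ)} [M.IsMaximal]

open Classical in
/-- the sum of the terms of `(σ, a, ζ)` -/
def tm (Λ : Subgroup V₀ → V₀ → V₀ → ℂ) (U : Subgroup V₀ → ℚ) (x₁ x₂ : V₀ → ℤ) (ℓ : ℕ)
    (E₀ : Subgroup (MulAut V₀)) (c d : V₀) (σ : MulAut V₀) (a : Subgroup V₀) (ζ : V₀) : ℂ :=
  (if c * σ d ∉ a then Λ a (pr ℓ E₀ a (c * σ d)) ζ * ((BrF ℓ x₁ x₂ c d (c * σ d) σ ζ -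
        cS U c d σ a * BrF ℓ x₁ x₂ c d (pr ℓ E₀ a (c * σ d)) σ ζ : ℚ) : ℂ) else 0) +
  (if c ∉ a then Λ a (pr ℓ E₀ a (c * σ d)) ζ * ((ux U a (σ d) *
        (BrF ℓ x₁ x₂ c d (pr ℓ E₀ a (c * σ d)) σ ζ -
          BrF ℓ x₁ x₂ (pr ℓ E₀ a c) d (pr ℓ E₀ a (c * σ d)) σ ζ) : ℚ) : ℂ) else 0) +
  (if σ d ∉ a then Λ a (pr ℓ E₀ a (c * σ d)) ζ * ((ux U a c *
        (BrF ℓ x₁ x₂ c d (pr ℓ E₀ a (c * σ d)) σ ζ -
          BrF ℓ x₁ x₂ c (σ⁻¹ (pr ℓ E₀ a (σ d))) (pr ℓ E₀ a (c * σ d)) σ ζ) : ℚ) : ℂ) else 0)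

open Classical in
theorem tm_mod (hM : (ℓ : integralClosure ℤ ℂ) ∈ M) (Λ : Subgroup V₀ → V₀ → V₀ → ℂ)
    (U : Subgroup V₀ → ℚ) (x₁ x₂ : V₀ → ℤ) (E₀ : Subgroup (MulAut V₀)) (c d : V₀)
    (σ : MulAut V₀) (a : Subgroup V₀) (ζ : V₀) (hU : On ℓ (U a))
    (hP1 : ∀ v ∈ a, pr ℓ E₀ a v = v) (hΛ : Λ a (pr ℓ E₀ a (c * σ d)) ζ / ℓ ∈ RM M) :
    tm Λ U x₁ x₂ ℓ E₀ c d σ a ζ - Λ a (pr ℓ E₀ a (c * σ d)) ζ *
      ((-(12 / (ℓ : ℚ) ^ 2) * (zT x₁ x₂ (pr ℓ E₀ a) c d ζ σ : ℚ) : ℚ) : ℂ) ∈ RM M := by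
  obtain ⟨L, hL⟩ : ∃ L : ℂ, L = Λ a (pr ℓ E₀ a (c * σ d)) ζ := ⟨_, rfl⟩
  rw [← hL] at hΛ
  obtain ⟨u₁, hu₁⟩ : ∃ u : ℚ, u = cS U c d σ a := ⟨_, rfl⟩
  obtain ⟨u₂, hu₂⟩ : ∃ u : ℚ, u = ux U a (σ d) := ⟨_, rfl⟩
  obtain ⟨u₃, hu₃⟩ : ∃ u : ℚ, u = ux U a c := ⟨_, rfl⟩
  have ho₁ : On ℓ u₁ := by rw [hu₁]; exact cS_on hU c d σ
  have ho₂ : On ℓ u₂ := by rw [hu₂]; exact ux_on hU _
  have ho₃ : On ℓ u₃ := by rw [hu₃]; exact ux_on hU _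
  obtain ⟨z₁, hz₁⟩ : ∃ z : ℤ, z = zF x₁ x₂ c d (c * σ d) σ ζ := ⟨_, rfl⟩
  obtain ⟨z₂, hz₂⟩ : ∃ z : ℤ, z = zF x₁ x₂ c d (pr ℓ E₀ a (c * σ d)) σ ζ := ⟨_, rfl⟩
  obtain ⟨z₃, hz₃⟩ : ∃ z : ℤ, z = zF x₁ x₂ (pr ℓ E₀ a c) d (pr ℓ E₀ a (c * σ d)) σ ζ :=
    ⟨_, rfl⟩
  obtain ⟨z₄, hz₄⟩ : ∃ z : ℤ, z = zF x₁ x₂ c (σ⁻¹ (pr ℓ E₀ a (σ d)))
    (pr ℓ E₀ a (c * σ d)) σ ζ := ⟨_, rfl⟩
  have h1 : (if c * σ d ∉ a then L * (((-(12 / (ℓ : ℚ) ^ 2) * (z₁ : ℚ)) -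
      u₁ * (-(12 / (ℓ : ℚ) ^ 2) * (z₂ : ℚ)) : ℚ) : ℂ) else 0) -
      L * ((-(12 / (ℓ : ℚ) ^ 2) * ((z₁ - z₂ : ℤ) : ℚ) : ℚ) : ℂ) ∈ RM M := by
    by_cases h : c * σ d ∉ a
    · rw [if_pos h]
      have h2 := on_RM hM hΛ ho₁ (-z₂)
      have h3 : L * (((-(12 / (ℓ : ℚ) ^ 2) * (z₁ : ℚ)) -
          u₁ * (-(12 / (ℓ : ℚ) ^ 2) * (z₂ : ℚ)) : ℚ) : ℂ) -
          L * ((-(12 / (ℓ : ℚ) ^ 2) * ((z₁ - z₂ : ℤ) : ℚ) : ℚ) : ℂ) =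
          L * (((u₁ - 1) * (-(12 / (ℓ : ℚ) ^ 2) * ((-z₂ : ℤ) : ℚ)) : ℚ) : ℂ) := by
        rw [← mul_sub, ← Rat.cast_sub]
        congr 2
        push_cast
        ring
      rw [h3]
      exact h2
    · rw [if_neg h]
      have h2 : z₁ = z₂ := by
        rw [hz₁, hz₂, hP1 _ (not_not.1 h)]
      rw [h2]
      simp
  have h2 : (if c ∉ a then L * ((u₂ * ((-(12 / (ℓ : ℚ) ^ 2) * (z₂ : ℚ)) -
      (-(12 / (ℓ : ℚ) ^ 2) * (z₃ : ℚ))) : ℚ) : ℂ) else 0) -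
      L * ((-(12 / (ℓ : ℚ) ^ 2) * ((z₂ - z₃ : ℤ) : ℚ) : ℚ) : ℂ) ∈ RM M := by
    by_cases h : c ∉ a
    · rw [if_pos h]
      have h2 := on_RM hM hΛ ho₂ (z₂ - z₃)
      have h3 : L * ((u₂ * ((-(12 / (ℓ : ℚ) ^ 2) * (z₂ : ℚ)) -
          (-(12 / (ℓ : ℚ) ^ 2) * (z₃ : ℚ))) : ℚ) : ℂ) -
          L * ((-(12 / (ℓ : ℚ) ^ 2) * ((z₂ - z₃ : ℤ) : ℚ) : ℚ) : ℂ) =
          L * (((u₂ - 1) * (-(12 / (ℓ : ℚ) ^ 2) * ((z₂ - z₃ : ℤ) : ℚ)) : ℚ) : ℂ) := by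
        rw [← mul_sub, ← Rat.cast_sub]
        congr 2
        push_cast
        ring
      rw [h3]
      exact h2
    · rw [if_neg h]
      have h2 : z₂ = z₃ := by
        rw [hz₂, hz₃, hP1 _ (not_not.1 h)]
      rw [h2]
      simp
  have h3 : (if σ d ∉ a then L * ((u₃ * ((-(12 / (ℓ : ℚ) ^ 2) * (z₂ : ℚ)) -
      (-(12 / (ℓ : ℚ) ^ 2) * (z₄ : ℚ))) : ℚ) : ℂ) else 0) -
      L * ((-(12 / (ℓ : ℚ) ^ 2) * ((z₂ - z₄ : ℤ) : ℚ) : ℚ) : ℂ) ∈ RM M := by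
    by_cases h : σ d ∉ a
    · rw [if_pos h]
      have h2 := on_RM hM hΛ ho₃ (z₂ - z₄)
      have h3 : L * ((u₃ * ((-(12 / (ℓ : ℚ) ^ 2) * (z₂ : ℚ)) -
          (-(12 / (ℓ : ℚ) ^ 2) * (z₄ : ℚ))) : ℚ) : ℂ) -
          L * ((-(12 / (ℓ : ℚ) ^ 2) * ((z₂ - z₄ : ℤ) : ℚ) : ℚ) : ℂ) =
          L * (((u₃ - 1) * (-(12 / (ℓ : ℚ) ^ 2) * ((z₂ - z₄ : ℤ) : ℚ)) : ℚ) : ℂ) := by
        rw [← mul_sub, ← Rat.cast_sub]
        congr 2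
        push_cast
        ring
      rw [h3]
      exact h2
    · rw [if_neg h]
      have h2 : z₂ = z₄ := by
        rw [hz₂, hz₄, hP1 _ (not_not.1 h)]
        have h3 : σ⁻¹ (σ d) = d := σ.symm_apply_apply d
        rw [h3]
      rw [h2]
      simp
  have h4 := (RM M).add_mem ((RM M).add_mem h1 h2) h3
  have h5 : ((-(12 / (ℓ : ℚ) ^ 2) * (zT x₁ x₂ (pr ℓ E₀ a) c d ζ σ : ℚ) : ℚ)) =
      (-(12 / (ℓ : ℚ) ^ 2) * ((z₁ - z₂ : ℤ) : ℚ)) + (-(12 / (ℓ : ℚ) ^ 2) * ((z₂ - z₃ : ℤ) : ℚ)) +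
      (-(12 / (ℓ : ℚ) ^ 2) * ((z₂ - z₄ : ℤ) : ℚ)) := by
    unfold zT
    rw [← hz₁, ← hz₂, ← hz₃, ← hz₄]
    push_cast
    ring
  have h6 : tm Λ U x₁ x₂ ℓ E₀ c d σ a ζ =
      (if c * σ d ∉ a then L * (((-(12 / (ℓ : ℚ) ^ 2) * (z₁ : ℚ)) -
      u₁ * (-(12 / (ℓ : ℚ) ^ 2) * (z₂ : ℚ)) : ℚ) : ℂ) else 0) +
      (if c ∉ a then L * ((u₂ * ((-(12 / (ℓ : ℚ) ^ 2) * (z₂ : ℚ)) -
      (-(12 / (ℓ : ℚ) ^ 2) * (z₃ : ℚ))) : ℚ) : ℂ) else 0) +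
      (if σ d ∉ a then L * ((u₃ * ((-(12 / (ℓ : ℚ) ^ 2) * (z₂ : ℚ)) -
      (-(12 / (ℓ : ℚ) ^ 2) * (z₄ : ℚ))) : ℚ) : ℂ) else 0) := by
    unfold tm
    rw [brF_eq, brF_eq, brF_eq, brF_eq, ← hz₁, ← hz₂, ← hz₃, ← hz₄, ← hu₁, ← hu₂, ← hu₃, ← hL]
  rw [h5, h6, ← hL]
  have h7 : ∀ x y z x' y' z' : ℂ, x + y + z - (x' + y' + z') = x - x' + (y - y') + (z - z') := by
    intros
    ring
  rw [Rat.cast_add, Rat.cast_add, mul_add, mul_add, h7]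
  exact h4

/-- the sum over `σ` of the terms of `a`, `ζ` -/
theorem core (prb : PrbStmt) (hM : (ℓ : integralClosure ℤ ℂ) ∈ M) [Finite V₀]
    {E₀ : Subgroup (MulAut V₀)} (hE : Fq ℓ V₀ E₀) {U : Subgroup V₀ → ℚ} {ρ₁ ρ₂ : V₀ → ZMod ℓ}
    {x₁ x₂ : V₀ → ℤ} (h₁ : Hm ρ₁) (h₂ : Hm ρ₂) (hx₁ : Lf ρ₁ x₁) (hx₂ : Lf ρ₂ x₂)
    {Λ : Subgroup V₀ → V₀ → V₀ → ℂ} (c d : V₀) {a : Subgroup V₀} (ha : a ∈ RL ℓ E₀)
    (hU : On ℓ (U a)) (hΛ : ∀ κ ∈ a, ∀ ζ, Λ a κ ζ / ℓ ∈ RM M) {ζ : V₀} (hζ : ζ ∈ a)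
    [Fintype E₀] : ∑ σ : E₀, tm Λ U x₁ x₂ ℓ E₀ c d σ a ζ ∈ RM M := by
  classical
  obtain ⟨p1, ⟨-, p2, -⟩, p3, -, p5, -, -, ⟨-, -, p8⟩, -, p10⟩ := prb ℓ V₀ E₀ hE a
  have p5 := p5 ha
  have hfN : Finite (St E₀ a) := inferInstance
  have : Fintype (St E₀ a) := Fintype.ofFinite _
  have hP : ∀ v w, pr ℓ E₀ a (v * w) = pr ℓ E₀ a v * pr ℓ E₀ a w := p2
  have hPinv : ∀ v, pr ℓ E₀ a v⁻¹ = (pr ℓ E₀ a v)⁻¹ := by
    intro v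
    apply eq_inv_of_mul_eq_one_left
    rw [← hP, inv_mul_cancel, p1 1 a.one_mem]
  have hprod : ∀ v, ∏ π : St E₀ a, (π : MulAut V₀) (v * (pr ℓ E₀ a v)⁻¹) = 1 := by
    intro v
    rw [← finprod_eq_prod_of_fintype, p10, hP, hPinv, p1 _ (p5 v), mul_inv_cancel, one_pow]
  have key : ∑ σ : E₀, Λ a (pr ℓ E₀ a (c * (σ : MulAut V₀) d)) ζ *
      ((-(12 / (ℓ : ℚ) ^ 2) * (zT x₁ x₂ (pr ℓ E₀ a) c d ζ σ : ℚ) : ℚ) : ℂ) ∈ RM M := by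
    refine avg_RM hM (N := St E₀ a) (fun σ hσ => hσ.1) p8
      (fun σ => Λ a (pr ℓ E₀ a (c * σ d)) ζ *
        ((-(12 / (ℓ : ℚ) ^ 2) * (zT x₁ x₂ (pr ℓ E₀ a) c d ζ σ : ℚ) : ℚ) : ℂ)) ?_
    intro σ
    have e1 : ∀ π : St E₀ a, pr ℓ E₀ a (c * ((π : MulAut V₀) * (σ : MulAut V₀)) d) =
        pr ℓ E₀ a (c * (σ : MulAut V₀) d) := by
      intro π
      rw [hP, hP, MulAut.mul_apply, (p3 π π.2 _).1]
    have e2 : ∑ π : St E₀ a, Λ a (pr ℓ E₀ a (c * ((π : MulAut V₀) * (σ : MulAut V₀)) d)) ζ *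
        ((-(12 / (ℓ : ℚ) ^ 2) *
          (zT x₁ x₂ (pr ℓ E₀ a) c d ζ ((π : MulAut V₀) * (σ : MulAut V₀)) : ℚ) : ℚ) : ℂ) =
        Λ a (pr ℓ E₀ a (c * (σ : MulAut V₀) d)) ζ *
        ((-(12 / (ℓ : ℚ) ^ 2) * ((∑ π : St E₀ a,
          zT x₁ x₂ (pr ℓ E₀ a) c d ζ ((π : MulAut V₀) * (σ : MulAut V₀)) : ℤ) : ℚ) : ℚ) : ℂ) := by
      rw [Finset.sum_congr rfl (fun π _ => by rw [e1 π]), ← Finset.mul_sum]
      congr 1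
      push_cast
      rw [Finset.mul_sum]
    rw [e2]
    refine term_RM' hM (hΛ _ (p5 _) _) ?_
    exact coset_dvd h₁ h₂ hx₁ hx₂ hP (St E₀ a) a p5 (fun π hπ v => (p3 π hπ v).1)
      (fun π hπ v hv => hπ.2 v hv) hprod c d ζ hζ σ
  have h3 : ∑ σ : E₀, (tm Λ U x₁ x₂ ℓ E₀ c d σ a ζ -
      Λ a (pr ℓ E₀ a (c * (σ : MulAut V₀) d)) ζ *
      ((-(12 / (ℓ : ℚ) ^ 2) * (zT x₁ x₂ (pr ℓ E₀ a) c d ζ σ : ℚ) : ℚ) : ℂ)) ∈ RM M :=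
    sum_mem fun σ _ => tm_mod hM Λ U x₁ x₂ E₀ c d σ a ζ hU p1 (hΛ _ (p5 _) _)
  rw [Finset.sum_sub_distrib] at h3
  have h4 := (RM M).add_mem h3 key
  rwa [sub_add_cancel] at h4

end core

open Classical in
/-- DVS -/
theorem dvs (prb : PrbStmt) : DvsStmt := by
  intro ℓ _ M _ hM V₀ _ _ E₀ hE U hU ρ₁ ρ₂ x₁ x₂ h₁ h₂ hx₁ hx₂ Λ hΛ c d
  have hℓ : ℓ.Prime := Fact.out
  have : Finite (MulAut V₀) := inferInstance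
  have : Fintype V₀ := Fintype.ofFinite _
  have : Fintype (MulAut V₀) := Fintype.ofFinite _
  have : Fintype (Subgroup V₀) := Fintype.ofFinite _
  have : Fintype E₀ := Fintype.ofFinite _
  have hsum : ∀ (α : Type) [Fintype α] (p : α → Prop) [DecidablePred p] (f : α → ℂ),
      ∑ᶠ x ∈ {x | p x}, f x = ∑ x, if p x then f x else 0 := by
    intro α _ p _ f
    rw [finsum_eq_sum_of_fintype]
    exact Finset.sum_congr rfl fun x _ => finsum_eq_if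
  have hE' : ∀ f : MulAut V₀ → ℂ, ∑ᶠ σ ∈ {σ : MulAut V₀ | σ ∈ E₀}, f σ = ∑ σ : E₀, f σ := by
    intro f
    rw [hsum, ← Finset.sum_filter]
    refine (Finset.sum_subtype _ (fun x => ?_) f)
    rw [Finset.mem_filter]
    exact ⟨fun h => h.2, fun h => ⟨Finset.mem_univ _, h⟩⟩
  have hterm : ∀ σ : MulAut V₀,
    ((∑ᶠ a ∈ {a : Subgroup V₀ | a ∈ RL ℓ E₀ ∧ c * σ d ∉ a}, ∑ᶠ ζ ∈ {ζ : V₀ | ζ ∈ a ∧ ζ ≠ 1},
      Λ a (pr ℓ E₀ a (c * σ d)) ζ * ((BrF ℓ x₁ x₂ c d (c * σ d) σ ζ -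
        cS U c d σ a * BrF ℓ x₁ x₂ c d (pr ℓ E₀ a (c * σ d)) σ ζ : ℚ) : ℂ)) +
    (∑ᶠ a ∈ {a : Subgroup V₀ | a ∈ RL ℓ E₀ ∧ c ∉ a}, ∑ᶠ ζ ∈ {ζ : V₀ | ζ ∈ a ∧ ζ ≠ 1},
      Λ a (pr ℓ E₀ a (c * σ d)) ζ * ((ux U a (σ d) *
        (BrF ℓ x₁ x₂ c d (pr ℓ E₀ a (c * σ d)) σ ζ -
          BrF ℓ x₁ x₂ (pr ℓ E₀ a c) d (pr ℓ E₀ a (c * σ d)) σ ζ) : ℚ) : ℂ)) +
    ∑ᶠ a ∈ {a : Subgroup V₀ | a ∈ RL ℓ E₀ ∧ σ d ∉ a}, ∑ᶠ ζ ∈ {ζ : V₀ | ζ ∈ a ∧ ζ ≠ 1},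
      Λ a (pr ℓ E₀ a (c * σ d)) ζ * ((ux U a c *
        (BrF ℓ x₁ x₂ c d (pr ℓ E₀ a (c * σ d)) σ ζ -
          BrF ℓ x₁ x₂ c (σ⁻¹ (pr ℓ E₀ a (σ d))) (pr ℓ E₀ a (c * σ d)) σ ζ) : ℚ) : ℂ)) =
    ∑ a : Subgroup V₀, ∑ ζ : V₀, if a ∈ RL ℓ E₀ ∧ ζ ∈ a ∧ ζ ≠ 1 then
      tm Λ U x₁ x₂ ℓ E₀ c d σ a ζ else 0 := by
    intro σ
    rw [hsum, hsum, hsum, ← Finset.sum_add_distrib, ← Finset.sum_add_distrib]
    refine Finset.sum_congr rfl fun a _ => ?_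
    by_cases ha : a ∈ RL ℓ E₀
    · have e : ∀ (p : Prop) [Decidable p] (f : V₀ → ℂ),
          (if a ∈ RL ℓ E₀ ∧ p then ∑ᶠ ζ ∈ {ζ : V₀ | ζ ∈ a ∧ ζ ≠ 1}, f ζ else 0) =
          ∑ ζ : V₀, if ζ ∈ a ∧ ζ ≠ 1 then (if p then f ζ else 0) else 0 := by
        intro p _ f
        rw [hsum]
        by_cases hp : p
        · rw [if_pos ⟨ha, hp⟩]
          exact Finset.sum_congr rfl fun ζ _ => by rw [if_pos hp]
        · rw [if_neg fun h => hp h.2]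
          symm
          apply Finset.sum_eq_zero
          intro ζ _
          rw [if_neg hp, ite_self]
      rw [e, e, e, ← Finset.sum_add_distrib, ← Finset.sum_add_distrib]
      refine Finset.sum_congr rfl fun ζ _ => ?_
      by_cases hζ : ζ ∈ a ∧ ζ ≠ 1
      · rw [if_pos hζ, if_pos hζ, if_pos hζ,
          if_pos (show a ∈ RL ℓ E₀ ∧ ζ ∈ a ∧ ζ ≠ 1 from ⟨ha, hζ⟩)]
        rfl
      · rw [if_neg hζ, if_neg hζ, if_neg hζ,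
          if_neg (show ¬ (a ∈ RL ℓ E₀ ∧ ζ ∈ a ∧ ζ ≠ 1) from fun h => hζ h.2)]
        ring
    · rw [if_neg (show ¬ (a ∈ RL ℓ E₀ ∧ c * σ d ∉ a) from fun h => ha h.1),
        if_neg (show ¬ (a ∈ RL ℓ E₀ ∧ c ∉ a) from fun h => ha h.1),
        if_neg (show ¬ (a ∈ RL ℓ E₀ ∧ σ d ∉ a) from fun h => ha h.1),
        Finset.sum_eq_zero fun ζ _ => if_neg fun h => ha h.1]
      ring
  rw [hE', Finset.sum_congr rfl fun (σ : E₀) _ => hterm σ, Finset.sum_comm]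
  refine sum_mem fun a _ => ?_
  rw [Finset.sum_comm]
  refine sum_mem fun ζ _ => ?_
  by_cases h : a ∈ RL ℓ E₀ ∧ ζ ∈ a ∧ ζ ≠ 1
  · rw [Finset.sum_congr rfl fun (σ : E₀) _ => if_pos h]
    have hne : a ≠ ⊥ := by
      rintro rfl
      have h3 : Nat.card (⊥ : Subgroup V₀) = ℓ := h.1.1
      rw [Subgroup.card_bot] at h3
      exact hℓ.one_lt.ne h3
    exact core prb hM hE h₁ h₂ hx₁ hx₂ c d h.1 (hU a hne) (hΛ a h.1) h.2.1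
  · rw [Finset.sum_eq_zero fun (σ : E₀) _ => if_neg h]
    exact (RM M).zero_mem

end Pool.Agent.PP.SE.H1
end
end -- Pool.Agent.Helper1_ASE.DVS

section -- Pool.Agent.Helper48_ASE.HMX

/-!
# Row HMX of squad ASE
-/

set_option autoImplicit false

noncomputable section

namespace Pool.Agent.PP.SE.H48

open Pool.Agent.Helper51_AWC Pool.Agent.Helper79_WRA Pool.Agent.PP Pool.Agent.PP.KF
open Pool.Agent.PP.K9 Pool.Agent.PP.K9.H97 Pool.Agent.PP.H75 Pool.Agent.PP.T3 Pool.Agent.PP.SO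
open Pool.Agent.PP.SD

attribute [local instance] Ideal.Quotient.field

/-- row HMX -/
theorem hmx : HmxStmt := by
  intro ℓ _
  refine ⟨fun V₀ _ _ hex c hc => ?_, fun M _ hM q => ⟨fun h => ?_, fun h => ?_⟩⟩
  · exact SO.H90.exists_hm hex c hc
  · exact SO.H13.kcm_rat hM h
  · exact SO.H13.kcm_mem hM h

end Pool.Agent.PP.SE.H48
end
end -- Pool.Agent.Helper48_ASE.HMX

section -- Pool.Agent.Helper62_ASE.PPC

/-!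
# Squad ASE, row PPC: continuity of the exact local part
-/

open scoped BigOperators

noncomputable section

namespace Pool.Agent.PP.SE.H62P

open Pool.Agent.Helper51_AWC Pool.Agent.Helper79_WRA Pool.Agent.PP Pool.Agent.PP.KF
open Pool.Agent.PP.K9 Pool.Agent.PP.K9.H97 Pool.Agent.PP.H75 Pool.Agent.PP.T3 Pool.Agent.PP.SO
open Pool.Agent.PP.SD Pool.Agent.PP.SO.H9P

attribute [local instance] Ideal.Quotient.field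

section mp

variable {V₀ : Type} [CommGroup V₀]

theorem mp_inv_mul {σ τ : MulAut V₀} {W W' : Subgroup V₀} (h1 : mp σ W = W') (h2 : mp τ W = W') :
    mp (σ⁻¹ * τ) W = W := by
  unfold mp at *
  have h3 : ∀ x : V₀, τ x ∈ W' ↔ x ∈ W := by
    intro x
    rw [← h2]
    constructor
    · rintro ⟨y, hy, e⟩
      have e' : τ y = τ x := e
      rw [← τ.injective e']
      exact hy
    · intro hx
      exact ⟨x, hx, rfl⟩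
  have h4 : ∀ x : V₀, σ x ∈ W' ↔ x ∈ W := by
    intro x
    rw [← h1]
    constructor
    · rintro ⟨y, hy, e⟩
      have e' : σ y = σ x := e
      rw [← σ.injective e']
      exact hy
    · intro hx
      exact ⟨x, hx, rfl⟩
  have h5 : ∀ x : V₀, σ ((σ⁻¹ * τ : MulAut V₀) x) = τ x := by
    intro x
    rw [MulAut.mul_apply, MulAut.apply_inv_self]
  have h6 : ∀ x : V₀, (σ⁻¹ * τ : MulAut V₀) x ∈ W ↔ x ∈ W := by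
    intro x
    rw [← h4, h5, h3]
  ext x
  constructor
  · rintro ⟨y, hy, rfl⟩
    exact (h6 y).2 hy
  · intro hx
    refine ⟨(σ⁻¹ * τ : MulAut V₀)⁻¹ x, ?_, ?_⟩
    · have h7 := h6 ((σ⁻¹ * τ : MulAut V₀)⁻¹ x)
      rw [MulAut.apply_inv_self] at h7
      exact h7.1 hx
    · change (σ⁻¹ * τ : MulAut V₀) ((σ⁻¹ * τ : MulAut V₀)⁻¹ x) = x
      rw [MulAut.apply_inv_self]

end mp

section eqs

variable {ℓ : ℕ} [Fact ℓ.Prime] {V₀ : Type} [CommGroup V₀] {n : ℕ} {E₀ : Subgroup (MulAut V₀)}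
  {fx fx' : Subgroup V₀ → MulAut V₀ → ℚ}

theorem ne_bot {W : Subgroup V₀} (h : Nat.card W = ℓ) : W ≠ ⊥ := by
  rintro rfl
  rw [Subgroup.card_bot] at h
  exact (Fact.out : ℓ.Prime).one_lt.ne h

theorem m13_eq (h : ∀ W, W ≠ ⊥ → ∀ g ∈ E₀, mp g W = W → fx' W g = fx W g) (c d : V₀)
    (L : Set (SO.SS n V₀)) : M13 ℓ E₀ fx' c d L = M13 ℓ E₀ fx c d L := by
  unfold M13
  refine finsum_congr fun w => finsum_congr fun hw => ?_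
  obtain ⟨h1, h2, h3, -⟩ := hw
  rw [h (pL L) (ne_bot h1) _ (E₀.mul_mem (E₀.inv_mem w.1.2) w.2.1.2) (mp_inv_mul h2 h3)]

theorem m12_eq (h : ∀ W, W ≠ ⊥ → ∀ g ∈ E₀, mp g W = W → fx' W g = fx W g) (κ : V₀)
    (L : Set (SO.SS n V₀)) : M12 ℓ E₀ fx' κ L = M12 ℓ E₀ fx κ L := by
  unfold M12
  refine finsum_congr fun w => finsum_congr fun hw => ?_
  obtain ⟨h1, h2, -⟩ := hw
  rw [h (aL κ L) (ne_bot h1) _ w.1.2 h2]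

end eqs

theorem ppc : PpcStmt := by
  intro ℓ _ V₀ _ _ E₀ n c d fx F₁₃ F₁₂
  classical
  have := Fintype.ofFinite V₀
  have : Finite (MulAut V₀) := inferInstance
  have := Fintype.ofFinite (MulAut V₀)
  obtain ⟨r13, hr13⟩ : ∃ r : Set (SO.SS n V₀) → ℚ, ∀ L,
      r L = mob F₁₃ L * (N13 E₀ c d L + M13 ℓ E₀ fx c d L) := ⟨_, fun _ => rfl⟩
  obtain ⟨r12, hr12⟩ : ∃ r : Set (SO.SS n V₀) × MulAut V₀ → ℚ, ∀ p,
      r p = mob F₁₂ p.1 * (N12 E₀ (c * p.2 d) p.1 + M12 ℓ E₀ fx (c * p.2 d) p.1) :=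
    ⟨_, fun _ => rfl⟩
  obtain ⟨K₀, hK₀⟩ := SOR.H3.exists_pow_fin ℓ
    ((Finset.univ : Finset (Set (SO.SS n V₀))).image r13 ∪
      (Finset.univ : Finset (Set (SO.SS n V₀) × MulAut V₀)).image r12)
  refine ⟨K₀, fun K hK U U' hU hU' hUU fx' hfx => ?_⟩
  have H : HU ℓ K U U' := ⟨hU, hU', hUU⟩
  have hpow : ∀ v : ℚ, (ℓ : ℚ) ^ K₀ * v ∈ SOR.Rl ℓ → (ℓ : ℚ) ^ K * v ∈ SOR.Rl ℓ := by
    intro v hv
    obtain ⟨j, rfl⟩ := Nat.exists_eq_add_of_le hK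
    rw [add_comm, pow_add, mul_assoc]
    exact mul_mem (lp_mem ℓ j) hv
  have h13 : ∀ L, (ℓ : ℚ) ^ K * r13 L ∈ SOR.Rl ℓ := fun L => hpow _ (hK₀ _
    (Finset.mem_union_left _ (Finset.mem_image_of_mem _ (Finset.mem_univ L))))
  have h12 : ∀ p, (ℓ : ℚ) ^ K * r12 p ∈ SOR.Rl ℓ := fun p => hpow _ (hK₀ _
    (Finset.mem_union_right _ (Finset.mem_image_of_mem _ (Finset.mem_univ p))))
  have hP : ∀ (U : Subgroup V₀ → ℚ) (fx : Subgroup V₀ → MulAut V₀ → ℚ),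
      PPE ℓ E₀ U fx c d F₁₃ F₁₂ =
      ∑ L ∈ Finset.univ.filter (fun L : Set (SO.SS n V₀) => pL L ≠ ⊥ ∧ qL L ≠ ⊥),
        (mob F₁₃ L * P13 ℓ E₀ U fx c d L + mob F₁₂ L * P12 ℓ E₀ U fx c d L) := fun U fx =>
    fin_P (fun L : Set (SO.SS n V₀) => pL L ≠ ⊥ ∧ qL L ≠ ⊥) _
  rw [hP, hP, ← Finset.sum_sub_distrib]
  refine sum_mem fun L hL => ?_
  obtain ⟨hp, hq⟩ := (Finset.mem_filter.1 hL).2
  -- the `13`-sums
  have e13 : ∀ U : Subgroup V₀ → ℚ, mob F₁₃ L * P13 ℓ E₀ U fx c d L =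
      r13 L * (ux U (pL L) c * ux U (qL L) d) := by
    intro U
    rw [hr13]
    unfold P13
    ring
  have e13' : P13 ℓ E₀ U' fx' c d L = P13 ℓ E₀ U' fx c d L := by
    unfold P13
    rw [m13_eq hfx]
  have g13 : r13 L * (ux U (pL L) c * ux U (qL L) d) -
      r13 L * (ux U' (pL L) c * ux U' (qL L) d) ∈ SOR.Rl ℓ :=
    ((ux_go H hp c).1.mul (ux_go H hq d).1).diff (h13 L)
  -- the `12`-sums
  have e12' : P12 ℓ E₀ U' fx' c d L = P12 ℓ E₀ U' fx c d L := by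
    unfold P12
    refine finsum_congr fun σ => finsum_congr fun _ => ?_
    rw [m12_eq hfx]
  have e12 : ∀ U : Subgroup V₀ → ℚ, mob F₁₂ L * P12 ℓ E₀ U fx c d L =
      ∑ σ ∈ Finset.univ.filter (fun σ : MulAut V₀ => σ ∈ EL E₀ L ∧ aL (c * σ d) L ≠ ⊥),
        r12 (L, σ) * (ux U (pL L) c * ux U (pL L) (σ d) * (ux U (pL L) (c * σ d))⁻¹ *
          ux U (aL (c * σ d) L) (c * σ d)) := by
    intro U
    have h1 : P12 ℓ E₀ U fx c d L =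
        ∑ σ ∈ Finset.univ.filter (fun σ : MulAut V₀ => σ ∈ EL E₀ L ∧ aL (c * σ d) L ≠ ⊥),
          cS U c d σ (pL L) * (ux U (aL (c * σ d) L) (c * σ d) *
            (N12 E₀ (c * σ d) L + M12 ℓ E₀ fx (c * σ d) L)) :=
      fin_P (fun σ : MulAut V₀ => σ ∈ EL E₀ L ∧ aL (c * σ d) L ≠ ⊥) _
    rw [h1, Finset.mul_sum]
    refine Finset.sum_congr rfl fun σ _ => ?_
    rw [hr12]
    unfold cS
    rw [div_eq_mul_inv]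
    ring
  have g12 : (∑ σ ∈ Finset.univ.filter (fun σ : MulAut V₀ => σ ∈ EL E₀ L ∧ aL (c * σ d) L ≠ ⊥),
        r12 (L, σ) * (ux U (pL L) c * ux U (pL L) (σ d) * (ux U (pL L) (c * σ d))⁻¹ *
          ux U (aL (c * σ d) L) (c * σ d))) -
      (∑ σ ∈ Finset.univ.filter (fun σ : MulAut V₀ => σ ∈ EL E₀ L ∧ aL (c * σ d) L ≠ ⊥),
        r12 (L, σ) * (ux U' (pL L) c * ux U' (pL L) (σ d) * (ux U' (pL L) (c * σ d))⁻¹ *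
          ux U' (aL (c * σ d) L) (c * σ d))) ∈ SOR.Rl ℓ := by
    rw [← Finset.sum_sub_distrib]
    refine sum_mem fun σ hσ => ?_
    have ha := (Finset.mem_filter.1 hσ).2.2
    exact ((((ux_go H hp c).1.mul (ux_go H hp (σ d)).1).mul (ux_go H hp (c * σ d)).2).mul
      (ux_go H ha (c * σ d)).1).diff (h12 (L, σ))
  rw [e13', e12', e13, e13, e12, e12]
  have h1 : ∀ a b a' b' : ℚ, a + b - (a' + b') = (a - a') + (b - b') := fun a b a' b' => by ring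
  rw [h1]
  exact add_mem g13 g12

end Pool.Agent.PP.SE.H62P
end
end -- Pool.Agent.Helper62_ASE.PPC

section -- Pool.Agent.Helper71_ASE.FIE

/-! Squad ASE, row FIE: the relation (5.5), from TS5, FWD, DAV, DVS, WTA, PRB. -/

open scoped BigOperators

noncomputable section

namespace Pool.Agent.PP.SE.H71

open Pool.Agent.Helper51_AWC Pool.Agent.Helper79_WRA Pool.Agent.PP Pool.Agent.PP.KF
open Pool.Agent.PP.K9 Pool.Agent.PP.K9.H97 Pool.Agent.PP.H75 Pool.Agent.PP.T3 Pool.Agent.PP.SO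
open Pool.Agent.PP.SD Pool.Agent.PP.SO.H90

attribute [local instance] Ideal.Quotient.field

section gen

variable {M : Ideal (integralClosure ℤ ℂ)} [M.IsMaximal]

/-- a sum of terms in `RM` -/
theorem fm_RM {ι : Type} {s : Set ι} {f : ι → ℂ} (h : ∀ i ∈ s, f i ∈ RM M) :
    ∑ᶠ i ∈ s, f i ∈ RM M := finsum_mem_RM h

/-- termwise comparison of two sums modulo `RM` -/
theorem fm_sub_RM {ι : Type} [Finite ι] {s : Set ι} {f g : ι → ℂ}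
    (h : ∀ i ∈ s, f i - g i ∈ RM M) : ∑ᶠ i ∈ s, f i - ∑ᶠ i ∈ s, g i ∈ RM M := by
  rw [← finsum_mem_sub_distrib _ _ (Set.toFinite s)]
  exact finsum_mem_RM h

/-- a finite sum with a constant factor -/
theorem fm_mul {ι : Type} [Finite ι] {s : Set ι} (f : ι → ℂ) (z : ℂ) :
    z * ∑ᶠ i ∈ s, f i = ∑ᶠ i ∈ s, z * f i := by
  exact mul_finsum_mem f z

/-- linear combinations in sums -/
theorem fm_lin {ι : Type} [Finite ι] {s : Set ι} (L : ι → ℂ) (b b' : ι → ℚ) (u : ℚ) :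
    ∑ᶠ i ∈ s, L i * ((b i - u * b' i : ℚ) : ℂ) =
      ∑ᶠ i ∈ s, L i * ((b i : ℚ) : ℂ) - (u : ℂ) * ∑ᶠ i ∈ s, L i * ((b' i : ℚ) : ℂ) := by
  rw [fm_mul, ← finsum_mem_sub_distrib _ _ (Set.toFinite s)]
  refine finsum_mem_congr rfl fun i _ => ?_
  push_cast
  ring

/-- linear combinations in sums -/
theorem fm_lin' {ι : Type} [Finite ι] {s : Set ι} (L : ι → ℂ) (b b' : ι → ℚ) (u : ℚ) :
    ∑ᶠ i ∈ s, L i * ((u * (b i - b' i) : ℚ) : ℂ) =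
      (u : ℂ) * (∑ᶠ i ∈ s, L i * ((b i : ℚ) : ℂ) - ∑ᶠ i ∈ s, L i * ((b' i : ℚ) : ℂ)) := by
  rw [← finsum_mem_sub_distrib _ _ (Set.toFinite s), fm_mul]
  refine finsum_mem_congr rfl fun i _ => ?_
  push_cast
  ring

/-- terms which vanish can be left out -/
theorem fm_part {ι : Type} {p q : ι → Prop} {f : ι → ℂ} (h : ∀ i, p i → ¬ q i → f i = 0) :
    ∑ᶠ i ∈ {i : ι | p i ∧ q i}, f i = ∑ᶠ i ∈ {i : ι | p i}, f i := by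
  refine finsum_congr fun i => ?_
  by_cases hq : q i
  · exact finsum_congr_Prop (propext ⟨fun h => h.1, fun h => ⟨h, hq⟩⟩) fun _ => rfl
  · have e1 : ∑ᶠ _ : i ∈ {i : ι | p i ∧ q i}, f i = 0 := by
      have h0 : ¬ i ∈ {i : ι | p i ∧ q i} := fun hi => hq hi.2
      simp only [h0, finsum_false]
    have e2 : ∑ᶠ _ : i ∈ {i : ι | p i}, f i = 0 := by
      by_cases hp : p i
      · rw [h i hp hq]
        simp only [finsum_zero]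
      · have h0 : ¬ i ∈ {i : ι | p i} := hp
        simp only [h0, finsum_false]
    rw [e1, e2]

/-- the assembly -/
theorem asm {ι : Type} [Finite ι] (S : Set ι) {T1 T2 T3 D1 D1' D2 D3 Z : ι → ℂ} {x : ℂ}
    (h1 : ∀ i ∈ S, T1 i - D1' i ∈ RM M) (h1' : ∀ i ∈ S, D1' i = D1 i + Z i)
    (h2 : ∀ i ∈ S, T2 i - D2 i ∈ RM M) (h3 : ∀ i ∈ S, T3 i - D3 i ∈ RM M)
    (hT : x + ∑ᶠ i ∈ S, (T1 i + T2 i + T3 i) ∈ RM M)
    (hV : ∑ᶠ i ∈ S, (D1 i + D2 i + D3 i) ∈ RM M) : x + ∑ᶠ i ∈ S, Z i ∈ RM M := by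
  have k : ∑ᶠ i ∈ S, (T1 i + T2 i + T3 i) - ∑ᶠ i ∈ S, ((D1 i + D2 i + D3 i) + Z i) ∈ RM M := by
    refine fm_sub_RM fun i hi => ?_
    refine (congrArg (· ∈ RM M) ?_).mp (add_mem (add_mem (h1 i hi) (h2 i hi)) (h3 i hi))
    rw [h1' i hi]
    ring
  have e := finsum_mem_add_distrib (f := fun i => D1 i + D2 i + D3 i) (g := Z) (Set.toFinite S)
  rw [e] at k
  refine (congrArg (· ∈ RM M) ?_).mp (sub_mem (sub_mem hT k) hV)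
  ring

/-- `mob` is linear -/
theorem mob_sub {A : Type} [Finite A] (F F' : Set A → ℚ) (L : Set A) :
    mob (fun τ => F τ - F' τ) L = mob F L - mob F' L := by
  unfold mob
  rw [← finsum_mem_sub_distrib _ _ (Set.toFinite _)]
  refine finsum_mem_congr rfl fun T _ => ?_
  ring

end gen

section fws

variable {V₀ G : Type} [CommGroup V₀] [Finite V₀] [Group G] {M : Ideal (integralClosure ℤ ℂ)}
  [M.IsMaximal]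

/-- `FWS` is linear in `F` -/
theorem fws_sub {n : ℕ} (B : Bk (FF M) V₀ G) (m : ℕ) (σ : MulAut V₀) (a : Subgroup V₀)
    (F F' : Set (SO.SS n V₀) → ℚ) (z : G → ℂ) :
    FWS B m σ a (fun τ => F τ - F' τ) z = FWS B m σ a F z - FWS B m σ a F' z := by
  unfold FWS
  rw [← finsum_mem_sub_distrib _ _ (Set.toFinite _)]
  refine finsum_mem_congr rfl fun L _ => ?_
  rw [mob_sub]
  push_cast
  ring

end fws

section units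

variable {ℓ : ℕ} [Fact ℓ.Prime] {V₀ : Type} [CommGroup V₀]

/-- the numbers `ux` are in `Rl` with their inverses -/
theorem ux_rl {U : Subgroup V₀ → ℚ} {W : Subgroup V₀}
    (h : ∃ q ∈ SOR.Rl ℓ, U W = 1 + ℓ * q) (c : V₀) :
    ux U W c ∈ SOR.Rl ℓ ∧ (ux U W c)⁻¹ ∈ SOR.Rl ℓ := by
  obtain ⟨q, hq, e⟩ := h
  unfold ux
  split_ifs with hc
  · exact ⟨one_mem _, by rw [inv_one]; exact one_mem _⟩
  · refine ⟨?_, (H9P.unit_of ℓ hq e).2⟩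
    rw [e]
    exact add_mem (one_mem _) (mul_mem (H9P.l_mem ℓ) hq)

/-- the numbers `cS` are in `Rl` -/
theorem cS_rl {U : Subgroup V₀ → ℚ} {W : Subgroup V₀}
    (h : ∃ q ∈ SOR.Rl ℓ, U W = 1 + ℓ * q) (c d : V₀) (σ : MulAut V₀) :
    cS U c d σ W ∈ SOR.Rl ℓ := by
  unfold cS
  rw [div_eq_mul_inv]
  exact mul_mem (mul_mem (ux_rl h c).1 (ux_rl h _).1) (ux_rl h _).2

end units

section term

variable {ℓ : ℕ} [Fact ℓ.Prime] {V₀ G : Type} [CommGroup V₀] [Finite V₀] [Group G] [Finite G]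
  {M : Ideal (integralClosure ℤ ℂ)} [M.IsMaximal] {E₀ : Subgroup (MulAut V₀)} {B : Bk (FF M) V₀ G}
  {D : Rd V₀ G}

/-- an integer multiple of `SE1 / ℓ ^ 2` -/
theorem se_RM {x : ℂ} (h : x / (ℓ : ℂ) ^ 2 ∈ RM M) (k : ℤ) : (k : ℂ) / (ℓ : ℂ) ^ 2 * x ∈ RM M := by
  have e : (k : ℂ) / (ℓ : ℂ) ^ 2 * x = (k : ℂ) * (x / (ℓ : ℂ) ^ 2) := by ring
  rw [e]
  exact mul_mem (rr_int (M := M) k).1 h

end term

/-- Row FIE: the relation (5.5). -/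
theorem fie (hTs5 : Ts5Stmt) (hFwd : FwdStmt) (hDav : DavStmt) (hDvs : DvsStmt) (hWta : WtaStmt)
    (hPrb : PrbStmt) : FieStmt := by
  intro ℓ _ M _ hM h2 V₀ G _ _ _ _ E₀ hq B hB D hD n m hPE ρ₁ ρ₂ x₁ x₂ h1 h2' l1 l2 F₁₃ Ψ M₁ M₂ K
    hFE hRel c d hc hd
  have hF : ∀ (kc kd : V₀) (a : Subgroup V₀), a ∈ RL ℓ E₀ → ∀ κ ∈ a, ∀ σ ∈ E₀,
      FWS B m σ a (F12 ℓ x₁ x₂ Ψ M₁ M₂ K kc kd) (tk B κ (D.et a)) =
      -(((x₁ κ⁻¹ * x₂ (σ⁻¹ κ)⁻¹ : ℤ) : ℂ) / (ℓ : ℂ) ^ 2) * LL B (etl B D a κ ⊥) +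
      ∑ᶠ ζ ∈ {ζ : V₀ | ζ ∈ a ∧ ζ ≠ 1}, LW ℓ E₀ B D a κ ζ *
        ((BrF ℓ x₁ x₂ kc kd κ σ ζ : ℚ) : ℂ) -
      ((x₁ kc⁻¹ * x₂ kd⁻¹ - x₁ κ⁻¹ * x₂ (σ⁻¹ κ)⁻¹ : ℤ) : ℂ) / (ℓ : ℂ) ^ 2 * SE1 B D a κ :=
    fun kc kd a ha κ hκ σ hσ => hFwd ℓ M hM h2 V₀ G E₀ hq B hB D hD n m hPE ρ₁ ρ₂ x₁ x₂ h1 h2' l1 l2
      F₁₃ Ψ M₁ M₂ K hFE kc kd a ha κ hκ σ hσ
  have hT := hTs5 ℓ M hM h2 V₀ G E₀ hq B hB D hD n m hPE ρ₁ ρ₂ x₁ x₂ h1 h2' l1 l2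
      F₁₃ Ψ M₁ M₂ K hFE hRel c d hc hd
  have hA := fun (a : Subgroup V₀) (ha : a ∈ RL ℓ E₀) (σ : MulAut V₀) (hσ : σ ∈ E₀)
      (hn : c * σ d ∉ a) => hDav ℓ M hM h2 V₀ G E₀ hq B hB D hD n m hPE ρ₁ ρ₂ x₁ x₂ h1 h2' l1 l2
      F₁₃ Ψ M₁ M₂ K hFE c d a ha σ hσ hn
  have hW := fun (a : Subgroup V₀) (ha : a ∈ RL ℓ E₀) (κ : V₀) (hκ : κ ∈ a) =>
    hWta ℓ M hM h2 V₀ G E₀ hq B hB D hD a ha κ hκ
  have hP : ∀ a ∈ RL ℓ E₀, ∀ v, pr ℓ E₀ a v ∈ a := fun a ha => (hPrb ℓ V₀ E₀ hq a).2.2.2.2.1 ha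
  have hV := hDvs ℓ M hM V₀ E₀ hq D.U hD.u1 ρ₁ ρ₂ x₁ x₂ h1 h2' l1 l2
    (fun a κ ζ => LW ℓ E₀ B D a κ ζ) (fun a ha κ hκ ζ => (hW a ha κ hκ).2.2 ζ) c d
  have hb : ∀ a ∈ RL ℓ E₀, a ≠ ⊥ := by
    rintro a ⟨ha, -⟩ rfl
    rw [Subgroup.card_bot] at ha
    exact (Fact.out : ℓ.Prime).one_lt.ne ha
  have hu : ∀ a ∈ RL ℓ E₀, ∀ v, ((ux D.U a v : ℚ) : ℂ) ∈ RM M := fun a ha v =>
    rl_rm hM (ux_rl (hD.u1 a (hb a ha)) v).1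
  have hcS : ∀ a ∈ RL ℓ E₀, ∀ σ : MulAut V₀, ((cS D.U c d σ a : ℚ) : ℂ) ∈ RM M :=
    fun a ha σ => rl_rm hM (cS_rl (hD.u1 a (hb a ha)) c d σ)
  -- the part of the lines not containing `c * σ d`
  have k1 : ∀ σ ∈ E₀, (∑ᶠ a ∈ {a : Subgroup V₀ | a ∈ RL ℓ E₀ ∧ c * σ d ∉ a},
      (DAS ℓ E₀ B D c d σ a (F12 ℓ x₁ x₂ Ψ M₁ M₂ K c d) - (cS D.U c d σ a : ℚ) *
        FWS B m σ a (F12 ℓ x₁ x₂ Ψ M₁ M₂ K c d) (tk B (pr ℓ E₀ a (c * σ d)) (D.et a)))) -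
      (∑ᶠ a ∈ {a : Subgroup V₀ | a ∈ RL ℓ E₀ ∧ c * σ d ∉ a},
        ((∑ᶠ ζ ∈ {ζ : V₀ | ζ ∈ a ∧ ζ ≠ 1},
          LW ℓ E₀ B D a (pr ℓ E₀ a (c * σ d)) ζ * ((BrF ℓ x₁ x₂ c d (c * σ d) σ ζ -
            cS D.U c d σ a * BrF ℓ x₁ x₂ c d (pr ℓ E₀ a (c * σ d)) σ ζ : ℚ) : ℂ)) +
        ((cS D.U c d σ a : ℚ) : ℂ) *
        (((x₁ (pr ℓ E₀ a (c * σ d))⁻¹ * x₂ (σ⁻¹ (pr ℓ E₀ a (c * σ d)))⁻¹ : ℤ) : ℂ) /
          (ℓ : ℂ) ^ 2) * LL B (etl B D a (pr ℓ E₀ a (c * σ d)) ⊥))) ∈ RM M := by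
    intro σ hσ
    refine fm_sub_RM fun a ha => ?_
    have e := hF c d a ha.1 _ (hP a ha.1 (c * σ d)) σ hσ
    rw [e, fm_lin]
    have e1 := hA a ha.1 σ hσ ha.2
    have e2 := mul_mem (hcS a ha.1 σ) (se_RM (hW a ha.1 _ (hP a ha.1 (c * σ d))).2.1
      (x₁ c⁻¹ * x₂ d⁻¹ - x₁ (pr ℓ E₀ a (c * σ d))⁻¹ * x₂ (σ⁻¹ (pr ℓ E₀ a (c * σ d)))⁻¹))
    have e3 := add_mem e1 e2
    refine (congrArg (· ∈ RM M) ?_).mp e3
    ring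
  -- the differences for `c`
  have k2 : ∀ σ ∈ E₀, (∑ᶠ a ∈ {a : Subgroup V₀ | a ∈ RL ℓ E₀ ∧ c ∉ a}, (ux D.U a (σ d) : ℚ) *
      FWS B m σ a (fun τ => F12 ℓ x₁ x₂ Ψ M₁ M₂ K c d τ -
        F12 ℓ x₁ x₂ Ψ M₁ M₂ K (pr ℓ E₀ a c) d τ) (tk B (pr ℓ E₀ a (c * σ d)) (D.et a))) -
      (∑ᶠ a ∈ {a : Subgroup V₀ | a ∈ RL ℓ E₀ ∧ c ∉ a}, ∑ᶠ ζ ∈ {ζ : V₀ | ζ ∈ a ∧ ζ ≠ 1},
        LW ℓ E₀ B D a (pr ℓ E₀ a (c * σ d)) ζ * ((ux D.U a (σ d) *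
          (BrF ℓ x₁ x₂ c d (pr ℓ E₀ a (c * σ d)) σ ζ -
            BrF ℓ x₁ x₂ (pr ℓ E₀ a c) d (pr ℓ E₀ a (c * σ d)) σ ζ) : ℚ) : ℂ)) ∈ RM M := by
    intro σ hσ
    refine fm_sub_RM fun a ha => ?_
    have e := hF c d a ha.1 _ (hP a ha.1 (c * σ d)) σ hσ
    have e' := hF (pr ℓ E₀ a c) d a ha.1 _ (hP a ha.1 (c * σ d)) σ hσ
    rw [fws_sub, e, e', fm_lin']
    have e1 := mul_mem (hu a ha.1 (σ d)) (se_RM (hW a ha.1 _ (hP a ha.1 (c * σ d))).2.1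
      (x₁ (pr ℓ E₀ a c)⁻¹ * x₂ d⁻¹ - x₁ c⁻¹ * x₂ d⁻¹))
    refine (congrArg (· ∈ RM M) ?_).mp e1
    push_cast
    ring
  -- the differences for `d`
  have k3 : ∀ σ ∈ E₀, (∑ᶠ a ∈ {a : Subgroup V₀ | a ∈ RL ℓ E₀ ∧ σ d ∉ a}, (ux D.U a c : ℚ) *
      FWS B m σ a (fun τ => F12 ℓ x₁ x₂ Ψ M₁ M₂ K c d τ -
        F12 ℓ x₁ x₂ Ψ M₁ M₂ K c (σ⁻¹ (pr ℓ E₀ a (σ d))) τ)
        (tk B (pr ℓ E₀ a (c * σ d)) (D.et a))) -
      (∑ᶠ a ∈ {a : Subgroup V₀ | a ∈ RL ℓ E₀ ∧ σ d ∉ a}, ∑ᶠ ζ ∈ {ζ : V₀ | ζ ∈ a ∧ ζ ≠ 1},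
        LW ℓ E₀ B D a (pr ℓ E₀ a (c * σ d)) ζ * ((ux D.U a c *
          (BrF ℓ x₁ x₂ c d (pr ℓ E₀ a (c * σ d)) σ ζ -
            BrF ℓ x₁ x₂ c (σ⁻¹ (pr ℓ E₀ a (σ d))) (pr ℓ E₀ a (c * σ d)) σ ζ) : ℚ) : ℂ)) ∈
        RM M := by
    intro σ hσ
    refine fm_sub_RM fun a ha => ?_
    have e := hF c d a ha.1 _ (hP a ha.1 (c * σ d)) σ hσ
    have e' := hF c (σ⁻¹ (pr ℓ E₀ a (σ d))) a ha.1 _ (hP a ha.1 (c * σ d)) σ hσ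
    rw [fws_sub, e, e', fm_lin']
    have e1 := mul_mem (hu a ha.1 c) (se_RM (hW a ha.1 _ (hP a ha.1 (c * σ d))).2.1
      (x₁ c⁻¹ * x₂ (σ⁻¹ (pr ℓ E₀ a (σ d)))⁻¹ - x₁ c⁻¹ * x₂ d⁻¹))
    refine (congrArg (· ∈ RM M) ?_).mp e1
    push_cast
    ring
  -- the terms with `LL` of the labels `et`
  have k4 : ∑ᶠ σ ∈ {σ : MulAut V₀ | σ ∈ E₀ ∧ c * σ d ≠ 1},
      (∑ᶠ a ∈ {a : Subgroup V₀ | a ∈ RL ℓ E₀ ∧ c * σ d ∉ a}, ((cS D.U c d σ a : ℚ) : ℂ) *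
        (((x₁ (pr ℓ E₀ a (c * σ d))⁻¹ * x₂ (σ⁻¹ (pr ℓ E₀ a (c * σ d)))⁻¹ : ℤ) : ℂ) /
          (ℓ : ℂ) ^ 2) * LL B (etl B D a (pr ℓ E₀ a (c * σ d)) ⊥)) =
      ∑ᶠ σ ∈ {σ : MulAut V₀ | σ ∈ E₀},
      (∑ᶠ a ∈ {a : Subgroup V₀ | a ∈ RL ℓ E₀ ∧ c * σ d ∉ a}, ((cS D.U c d σ a : ℚ) : ℂ) *
        (((x₁ (pr ℓ E₀ a (c * σ d))⁻¹ * x₂ (σ⁻¹ (pr ℓ E₀ a (c * σ d)))⁻¹ : ℤ) : ℂ) /
          (ℓ : ℂ) ^ 2) * LL B (etl B D a (pr ℓ E₀ a (c * σ d)) ⊥)) := by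
    refine fm_part fun σ _ h => ?_
    have h' : c * σ d = 1 := by
      by_contra h''
      exact h h''
    have hs : {a : Subgroup V₀ | a ∈ RL ℓ E₀ ∧ c * σ d ∉ a} = ∅ := by
      ext a
      simp [h', one_mem]
    rw [hs, finsum_mem_empty]
  -- the sum over `σ`
  have k5 := asm (M := M) {σ : MulAut V₀ | σ ∈ E₀} k1
    (fun σ _ => finsum_mem_add_distrib (Set.toFinite _)) k2 k3 hT hV
  rw [← k4] at k5
  unfold MNE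
  rw [finsum_mem_sub_distrib _ _ (Set.toFinite _)]
  refine (congrArg (· ∈ RM M) ?_).mp k5
  ring

end Pool.Agent.PP.SE.H71
end
end -- Pool.Agent.Helper71_ASE.FIE

section -- Pool.Agent.Helper81_ASE.CPX

/-!
# Row CPX of squad ASE: the difference of the main parts
-/

set_option autoImplicit false

open scoped BigOperators

noncomputable section

namespace Pool.Agent.PP.SE.H81

open Pool.Agent.Helper51_AWC Pool.Agent.Helper79_WRA Pool.Agent.PP Pool.Agent.PP.KF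
open Pool.Agent.PP.K9 Pool.Agent.PP.K9.H97 Pool.Agent.PP.H75 Pool.Agent.PP.T3 Pool.Agent.PP.SO
open Pool.Agent.PP.SD Pool.Agent.PP.SE

attribute [local instance] Ideal.Quotient.field

theorem lf_lift {V₀ : Type} [CommGroup V₀] {ℓ : ℕ} [Fact ℓ.Prime] (ρ : V₀ → ZMod ℓ) (v₀ : V₀) :
    Lf ρ (lf ρ v₀) := by
  intro v
  refine ⟨?_, fun h => ?_⟩
  · unfold lf
    split_ifs
    · push_cast
      rw [ZMod.natCast_zmod_val, ZMod.natCast_self, add_zero]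
    · push_cast
      rw [ZMod.natCast_zmod_val, add_zero]
  · unfold lf
    rw [h, if_neg (fun h' => h'.2 rfl)]
    simp

theorem cpx (hRte : RteStmt) (hFie : FieStmt) (hPpc : SE.PpcStmt) : CpxStmt := by
  intro ℓ _ M _ hM h2 V₀ G _ _ _ _ E₀ hFq B hSd D hRs r hr hPE
  obtain ⟨n, hn⟩ : ∃ n, n = ℓ ^ r := ⟨_, rfl⟩
  have hnr : ∃ r, 0 < r ∧ n = ℓ ^ r := ⟨r, hr, hn⟩
  rw [← hn] at hPE
  obtain ⟨m, hm⟩ := hPE
  have key : ∀ t : (V₀ → ZMod ℓ) × (V₀ → ZMod ℓ) × V₀ × V₀ × V₀, ∃ K₀ : ℕ,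
      Hm t.1 → Hm t.2.1 → t.2.2.2.1 ≠ 1 → t.2.2.2.2 ≠ 1 → ∀ K, K₀ ≤ K →
      ∀ (G' : Type) [Group G'] [Finite G'] (B' : Bk (FF M) V₀ G') (D' : Rd V₀ G'),
      Sd ℓ M E₀ B' → Rs ℓ E₀ B' D' → (∃ m, PE ℓ n m G') →
      (∀ W, W ≠ ⊥ → ∃ q ∈ SOR.Rl ℓ, D.U W - D'.U W = ℓ ^ K * q) →
      (∀ W, W ≠ ⊥ → ∀ g ∈ E₀, mp g W = W → D'.fx W g = D.fx W g) →
      MNE ℓ E₀ B D (lf t.1 t.2.2.1) (lf t.2.1 1) t.2.2.2.1 t.2.2.2.2 -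
        MNE ℓ E₀ B' D' (lf t.1 t.2.2.1) (lf t.2.1 1) t.2.2.2.1 t.2.2.2.2 ∈ RM M := by
    rintro ⟨ρ₁, ρ₂, v₀, c, d⟩
    dsimp only
    by_cases h1 : Hm ρ₁
    swap
    · exact ⟨0, fun h => absurd h h1⟩
    by_cases h3 : Hm ρ₂
    swap
    · exact ⟨0, fun _ h => absurd h h3⟩
    have l1 := lf_lift ρ₁ v₀
    have l2 := lf_lift ρ₂ (1 : V₀)
    obtain ⟨F₁₃, Ψ, M₁, M₂, Kf, hFE, hRel⟩ := hRte ℓ V₀ hFq.ex n ρ₁ ρ₂ hnr h1 h3 _ _ l1 l2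
    obtain ⟨K₀, hK₀⟩ := hPpc ℓ V₀ E₀ n c d D.fx F₁₃
      (F12 ℓ (lf ρ₁ v₀) (lf ρ₂ 1) Ψ M₁ M₂ Kf c d)
    refine ⟨K₀, fun _ _ hc hd K hK G' _ _ B' D' hSd' hRs' hPE' hU hfx => ?_⟩
    obtain ⟨m', hm'⟩ := hPE'
    have e1 := hFie ℓ M hM h2 V₀ G E₀ hFq B hSd D hRs n m hm ρ₁ ρ₂ _ _ h1 h3 l1 l2 F₁₃ Ψ M₁ M₂ Kf
      hFE (fun kc kd => hRel kc kd G m B.i hSd.inj hm) c d hc hd
    have e2 := hFie ℓ M hM h2 V₀ G' E₀ hFq B' hSd' D' hRs' n m' hm' ρ₁ ρ₂ _ _ h1 h3 l1 l2 F₁₃ Ψ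
      M₁ M₂ Kf hFE (fun kc kd => hRel kc kd G' m' B'.i hSd'.inj hm') c d hc hd
    have e3 := SO.H90.rl_rm (M := M) hM (hK₀ K hK D.U D'.U hRs.u1 hRs'.u1 hU D'.fx hfx)
    have e4 := sub_mem (sub_mem e1 e2) e3
    have e5 : ∀ a b c' d' : ℂ, ∀ p q : ℚ, c' = (p : ℂ) → d' = (q : ℂ) →
        a + c' - (b + d') - ((p - q : ℚ) : ℂ) = a - b := by
      intro a b c' d' p q hp hq
      rw [hp, hq]
      push_cast
      ring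
    rw [e5 _ _ _ _ _ _ rfl rfl] at e4
    exact e4
  choose K₀ hK₀ using key
  obtain ⟨K, hK⟩ := Finite.exists_le K₀
  refine ⟨max 2 K, le_max_left _ _, ?_⟩
  intro G' _ _ B' D' hSd' hRs' hPE' hU hfx ρ₁ ρ₂ h1 h3 v₀ c d hc hd
  rw [← hn] at hPE'
  exact hK₀ (ρ₁, ρ₂, v₀, c, d) h1 h3 hc hd (max 2 K)
    ((hK _).trans (le_max_right _ _)) G' B' D' hSd' hRs' hPE' hU hfx

end Pool.Agent.PP.SE.H81
end
end -- Pool.Agent.Helper81_ASE.CPX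

section -- Pool.Agent.Helper94_ASE.DAV

/-!
# ASE row DAV: the deviation `DAS` modulo `RM`
-/

open scoped BigOperators

set_option autoImplicit false
set_option linter.unusedSectionVars false

noncomputable section

namespace Pool.Agent.PP.SE.H94

open Pool.Agent.Helper51_AWC Pool.Agent.Helper79_WRA Pool.Agent.PP Pool.Agent.PP.KF
open Pool.Agent.PP.K9 Pool.Agent.PP.K9.H97 Pool.Agent.PP.H75 Pool.Agent.PP.T3 Pool.Agent.PP.SO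
open Pool.Agent.PP.SD
open Pool.Agent.PP.SO.H59 (finsum_mem_ite)
open Pool.Agent.PP.SO.H90 (rl_rm)

attribute [local instance] Ideal.Quotient.field

theorem finsum_mem_iteQ {α : Type} [Fintype α] (p : α → Prop) [DecidablePred p] (f : α → ℚ) :
    ∑ᶠ w ∈ {w | p w}, f w = ∑ w, if p w then f w else 0 := by
  rw [finsum_mem_def, finsum_eq_sum_of_fintype]
  refine Finset.sum_congr rfl fun w _ => ?_
  by_cases h : p w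
  · rw [if_pos h]
    exact Set.indicator_of_mem (s := {w | p w}) h f
  · rw [if_neg h]
    exact Set.indicator_of_notMem (s := {w | p w}) h f

section comb

variable {V₀ : Type} [CommGroup V₀] {n : ℕ}

/-- exchange of the conditions -/
theorem das_iff {E₀ : Subgroup (MulAut V₀)} {σ : MulAut V₀} {a : Subgroup V₀} {κ : V₀}
    {L : Set (SO.SS n V₀)} {w : MulAut V₀ × V₀} :
    ((aL κ L = a ∧ ∀ s ∈ L, σ s.2.2.2 = s.2.2.1) ∧ w ∈ QL E₀ (LT (TL κ L))) ↔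
      w.1 ∈ E₀ ∧ (L ⊆ TD σ a κ w.1 w.2 ∧ aL κ L = a) := by
  constructor
  · rintro ⟨⟨h1, h2⟩, h3, h4⟩
    refine ⟨h3, fun s hs => ⟨?_, h2 s hs, ?_⟩, h1⟩
    · rw [← h1]
      exact Subgroup.subset_closure ⟨s, hs, rfl⟩
    · have := h4 (κ ^ (s.2.1 : ℕ) * s.2.2.1, κ ^ (s.2.1 : ℕ) * s.2.2.1, ((s.1 : ℕ) : ℤ))
        ⟨(κ ^ (s.2.1 : ℕ) * s.2.2.1, (s.1 : ℕ)), ⟨s, hs, rfl⟩, rfl⟩
      rwa [zpow_natCast] at this
  · rintro ⟨h1, h2, h3⟩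
    refine ⟨⟨h3, fun s hs => (h2 hs).2.1⟩, h1, ?_⟩
    rintro _ ⟨_, ⟨s, hs, rfl⟩, rfl⟩
    have := (h2 hs).2.2
    rwa [← zpow_natCast w.2] at this

/-- `ζ ↦ τ⁻¹ ζ ζ⁻¹` is injective on a line which is not fixed -/
theorem tz_inj {ℓ : ℕ} [Fact ℓ.Prime] {E₀ : Subgroup (MulAut V₀)} {a : Subgroup V₀}
    (ha : Nat.card a = ℓ) {τ : MulAut V₀} (hτ : τ ∈ E₀) (hτa : τ ∉ St E₀ a) {ζ ζ' : V₀}
    (hζ : ζ ∈ a) (hζ' : ζ' ∈ a) (h : τ⁻¹ ζ * ζ⁻¹ = τ⁻¹ ζ' * ζ'⁻¹) : ζ = ζ' := by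
  by_contra hne
  apply hτa
  have h1 : τ⁻¹ (ζ * ζ'⁻¹) = ζ * ζ'⁻¹ := by
    rw [map_mul, map_inv]
    have e1 : τ⁻¹ ζ = τ⁻¹ ζ' * ζ'⁻¹ * ζ := by rw [← h]; group
    rw [e1]
    have : τ⁻¹ ζ' * ζ'⁻¹ * ζ * (τ⁻¹ ζ')⁻¹ = ζ * ζ'⁻¹ := by
      rw [mul_comm (τ⁻¹ ζ') ζ'⁻¹, mul_assoc ζ'⁻¹, mul_comm (τ⁻¹ ζ') ζ, ← mul_assoc,
        mul_inv_cancel_right, mul_comm]
    exact this
  have h2 : τ (ζ * ζ'⁻¹) = ζ * ζ'⁻¹ := by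
    conv_lhs => rw [← h1]
    exact MulEquiv.apply_symm_apply _ _
  refine ⟨hτ, ?_⟩
  have hp : (Nat.card a).Prime := by rw [ha]; exact Fact.out
  have : Fact (Nat.card a).Prime := ⟨hp⟩
  have hm : ζ * ζ'⁻¹ ∈ a := a.mul_mem hζ (a.inv_mem hζ')
  have hgen : ∀ w : a, w ∈ Subgroup.zpowers (⟨ζ * ζ'⁻¹, hm⟩ : a) := by
    intro w
    have h3 : (⟨ζ * ζ'⁻¹, hm⟩ : a) ≠ 1 := by
      intro h4
      apply hne
      have h5 : ζ * ζ'⁻¹ = 1 := congrArg Subtype.val h4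
      exact mul_inv_eq_one.1 h5
    exact mem_zpowers_of_prime_card (h := rfl) h3
  intro w hw
  obtain ⟨k, hk⟩ := hgen ⟨w, hw⟩
  have h6 : (ζ * ζ'⁻¹) ^ k = w := congrArg Subtype.val hk
  rw [← h6, map_zpow, h2]

end comb

theorem dav (gdv : GdvStmt) (wta : WtaStmt) (prb : PrbStmt) : DavStmt := by
  classical
  intro ℓ _ M _ hM hℓ2 V₀ G _ _ _ _ E₀ hF B hB D hD n m hPE ρ₁ ρ₂ x₁ x₂ hρ₁ hρ₂ hx₁ hx₂ F₁₃ Ψ
    M₁ M₂ K hFE c d a ha σ hσ hκ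
  have := Fintype.ofFinite V₀
  have : Finite (MulAut V₀) := inferInstance
  have := Fintype.ofFinite (MulAut V₀)
  have := Fintype.ofFinite (Set (SO.SS n V₀))
  obtain ⟨κ, hκd⟩ : ∃ κ, κ = c * σ d := ⟨_, rfl⟩
  obtain ⟨F, hFd⟩ : ∃ F : Set (SO.SS n V₀) → ℚ, F = F12 ℓ x₁ x₂ Ψ M₁ M₂ K c d := ⟨_, rfl⟩
  obtain ⟨κa, hκad⟩ : ∃ κa, κa = pr ℓ E₀ a κ := ⟨_, rfl⟩
  have hac : Nat.card a = ℓ := ha.1
  have hκa : κa ∈ a := by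
    rw [hκad]
    exact (prb ℓ V₀ E₀ hF a).2.2.2.2.1 ha κ
  obtain ⟨wt, hwt⟩ : ∃ wt : MulAut V₀ → V₀ → ℂ, wt = fun τ y => wtE ℓ E₀ B D a κa τ y := ⟨_, rfl⟩
  have hwtR : ∀ τ ∈ E₀, ∀ y, wt τ y / ℓ ∈ RM M := by
    intro τ hτ y
    rw [hwt]
    exact hD.e6 a ha κa hκa τ hτ y
  obtain ⟨gd, hgd⟩ : ∃ gd : MulAut V₀ → V₀ → ℚ,
      gd = fun τ y => GD D.U c d σ a F (TD σ a κ τ y) := ⟨_, rfl⟩
  obtain ⟨h, hhd⟩ : ∃ h : ℤ, h = x₁ c⁻¹ * x₂ d⁻¹ - x₁ κ⁻¹ * x₂ (σ⁻¹ κ)⁻¹ := ⟨_, rfl⟩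
  obtain ⟨br, hbr⟩ : ∃ br : V₀ → ℚ, br = fun ζ => BrF ℓ x₁ x₂ c d κ σ ζ := ⟨_, rfl⟩
  have hU : ∀ W : Subgroup V₀, W ≠ ⊥ → ∃ q ∈ SOR.Rl ℓ, D.U W = 1 + ℓ * q := hD.u1
  have hval := fun (τ : MulAut V₀) (hτ : τ ∈ E₀) (y : V₀) =>
    gdv ℓ V₀ E₀ hF n ρ₁ ρ₂ hPE.pw hρ₁ hρ₂ x₁ x₂ hx₁ hx₂ F₁₃ Ψ M₁ M₂ K hFE D.U hU c d σ τ a y hac
      hσ hτ hκ
  rw [← hκd, ← hFd] at hval
  rw [← hκd, ← hFd, ← hκad]
  have v1 : ∀ τ ∈ St E₀ a, ∀ y, ∃ q ∈ SOR.Rl ℓ, gd τ y = -((h : ℚ) / (ℓ : ℚ) ^ 2) + q / ℓ := by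
    intro τ hτ y
    rw [hgd, hhd]
    exact (hval τ hτ.1 y).1 hτ
  have v2 : ∀ τ ∈ E₀, τ ∉ St E₀ a → ∀ ζ ∈ a, ζ ≠ 1 → ∃ q ∈ SOR.Rl ℓ,
      gd τ (τ⁻¹ ζ * ζ⁻¹) = br ζ + q / ℓ := by
    intro τ hτ hτa ζ hζ hζ1
    rw [hgd, hbr]
    exact (hval τ hτ _).2.1 hτa ζ hζ hζ1 rfl
  have v3 : ∀ τ ∈ E₀, τ ∉ St E₀ a → ∀ y, (∀ ζ ∈ a, ζ ≠ 1 → y ≠ τ⁻¹ ζ * ζ⁻¹) → gd τ y = 0 := by
    intro τ hτ hτa y hy
    rw [hgd]
    exact (hval τ hτ y).2.2 hτa hy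
  clear hval
  -- exchange of the sums
  have hDAS : DAS ℓ E₀ B D c d σ a F = ∑ τ : MulAut V₀, if τ ∈ E₀ then
      ∑ y, wt τ y * ((gd τ y : ℚ) : ℂ) else 0 := by
    unfold DAS
    rw [← hκd, ← hκad]
    rw [finsum_mem_ite]
    have e1 : ∀ L : Set (SO.SS n V₀),
        (if aL κ L = a ∧ ∀ s ∈ L, σ s.2.2.2 = s.2.2.1 then
          ((cS D.U c d σ (pL L) * mob F L : ℚ) : ℂ) * ∑ᶠ w ∈ QL E₀ (LT (TL κ L)),
            wtE ℓ E₀ B D a κa w.1 w.2 else 0) =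
        ∑ w : MulAut V₀ × V₀, if w.1 ∈ E₀ then wt w.1 w.2 *
          (if L ⊆ TD σ a κ w.1 w.2 ∧ aL κ L = a then
            ((cS D.U c d σ (pL L) * mob F L : ℚ) : ℂ) else 0) else 0 := by
      intro L
      have e2 : ∑ᶠ w ∈ QL E₀ (LT (TL κ L)), wtE ℓ E₀ B D a κa w.1 w.2 =
          ∑ w : MulAut V₀ × V₀, if w ∈ QL E₀ (LT (TL κ L)) then wt w.1 w.2 else 0 := by
        rw [hwt]
        exact finsum_mem_ite (fun w => w ∈ QL E₀ (LT (TL κ L))) _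
      rw [e2, Finset.mul_sum]
      by_cases hL : aL κ L = a ∧ ∀ s ∈ L, σ s.2.2.2 = s.2.2.1
      · rw [if_pos hL]
        refine Finset.sum_congr rfl fun w _ => ?_
        by_cases hw : w ∈ QL E₀ (LT (TL κ L))
        · obtain ⟨h1, h2⟩ := das_iff.1 ⟨hL, hw⟩
          rw [if_pos hw, if_pos h1, if_pos h2, mul_comm]
        · rw [if_neg hw, mul_zero]
          by_cases h1 : w.1 ∈ E₀
          · rw [if_pos h1, if_neg (fun h2 => hw (das_iff.2 ⟨h1, h2⟩).2), mul_zero]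
          · rw [if_neg h1]
      · rw [if_neg hL]
        symm
        refine Finset.sum_eq_zero fun w _ => ?_
        by_cases h1 : w.1 ∈ E₀
        · rw [if_pos h1, if_neg (fun h2 => hL (das_iff.2 ⟨h1, h2⟩).1), mul_zero]
        · rw [if_neg h1]
    rw [Finset.sum_congr rfl (fun L _ => e1 L), Finset.sum_comm, Fintype.sum_prod_type]
    refine Finset.sum_congr rfl fun τ _ => ?_
    by_cases hτ : τ ∈ E₀
    · rw [if_pos hτ]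
      refine Finset.sum_congr rfl fun y _ => ?_
      show (∑ L : Set (SO.SS n V₀), if τ ∈ E₀ then wt τ y *
          (if L ⊆ TD σ a κ τ y ∧ aL κ L = a then
            ((cS D.U c d σ (pL L) * mob F L : ℚ) : ℂ) else 0) else 0) = _
      rw [Finset.sum_congr rfl (fun L _ => if_pos hτ), ← Finset.mul_sum]
      congr 1
      rw [hgd]
      show _ = ((GD D.U c d σ a F (TD σ a κ τ y) : ℚ) : ℂ)
      unfold GD
      rw [← hκd, finsum_mem_iteQ, Rat.cast_sum]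
      refine Finset.sum_congr rfl fun L _ => ?_
      by_cases h2 : L ⊆ TD σ a κ τ y ∧ aL κ L = a
      · rw [if_pos h2, if_pos h2]
      · rw [if_neg h2, if_neg h2, Rat.cast_zero]
    · rw [if_neg hτ]
      refine Finset.sum_eq_zero fun y _ => Finset.sum_eq_zero fun L _ => ?_
      exact if_neg hτ
  -- the main term
  have hLW : ∑ᶠ ζ ∈ {ζ : V₀ | ζ ∈ a ∧ ζ ≠ 1}, LW ℓ E₀ B D a κa ζ *
      ((BrF ℓ x₁ x₂ c d κ σ ζ : ℚ) : ℂ) = ∑ τ : MulAut V₀, if τ ∈ E₀ ∧ τ ∉ St E₀ a then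
        ∑ ζ : V₀, (if ζ ∈ a ∧ ζ ≠ 1 then wt τ (τ⁻¹ ζ * ζ⁻¹) * ((br ζ : ℚ) : ℂ) else 0) else 0 := by
    rw [finsum_mem_ite]
    have e1 : ∀ ζ : V₀, (if ζ ∈ a ∧ ζ ≠ 1 then LW ℓ E₀ B D a κa ζ *
        ((BrF ℓ x₁ x₂ c d κ σ ζ : ℚ) : ℂ) else 0) = ∑ τ : MulAut V₀,
          if τ ∈ E₀ ∧ τ ∉ St E₀ a then (if ζ ∈ a ∧ ζ ≠ 1 then
            wt τ (τ⁻¹ ζ * ζ⁻¹) * ((br ζ : ℚ) : ℂ) else 0) else 0 := by
      intro ζ
      by_cases hζ : ζ ∈ a ∧ ζ ≠ 1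
      · rw [if_pos hζ]
        unfold LW
        rw [finsum_mem_ite, Finset.sum_mul]
        refine Finset.sum_congr rfl fun τ _ => ?_
        by_cases hτ : τ ∈ E₀ ∧ τ ∉ St E₀ a
        · rw [if_pos hτ, if_pos hτ, if_pos hζ, hwt, hbr]
        · rw [if_neg hτ, if_neg hτ, zero_mul]
      · rw [if_neg hζ]
        symm
        refine Finset.sum_eq_zero fun τ _ => ?_
        rw [if_neg hζ, ite_self]
    rw [Finset.sum_congr rfl (fun ζ _ => e1 ζ), Finset.sum_comm]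
    refine Finset.sum_congr rfl fun τ _ => ?_
    by_cases hτ : τ ∈ E₀ ∧ τ ∉ St E₀ a
    · rw [if_pos hτ]
      exact Finset.sum_congr rfl fun ζ _ => if_pos hτ
    · rw [if_neg hτ]
      exact Finset.sum_eq_zero fun ζ _ => if_neg hτ
  have hdiv : ∀ (z : ℂ) (q : ℚ), z / ℓ ∈ RM M → q ∈ SOR.Rl ℓ →
      z * (((q / ℓ : ℚ)) : ℂ) ∈ RM M := by
    intro z q hz hq
    have e : z * (((q / ℓ : ℚ)) : ℂ) = (z / ℓ) * ((q : ℚ) : ℂ) := by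
      push_cast
      ring
    rw [e]
    exact mul_mem hz (rl_rm hM hq)
  -- the part of the stabiliser
  have hSt : (∑ τ : MulAut V₀, if τ ∈ St E₀ a then ∑ y, wt τ y * ((gd τ y : ℚ) : ℂ) else 0) ∈
      RM M := by
    obtain ⟨w1, w2, -⟩ := wta ℓ M hM hℓ2 V₀ G E₀ hF B hB D hD a ha κa hκa
    have e1 : ∑ᶠ w ∈ {w : MulAut V₀ × V₀ | w.1 ∈ St E₀ a}, wtE ℓ E₀ B D a κa w.1 w.2 =
        ∑ τ : MulAut V₀, if τ ∈ St E₀ a then ∑ y, wt τ y else 0 := by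
      rw [finsum_mem_ite, Fintype.sum_prod_type]
      refine Finset.sum_congr rfl fun τ _ => ?_
      by_cases hτ : τ ∈ St E₀ a
      · rw [if_pos hτ, hwt]
        exact Finset.sum_congr rfl fun y _ => if_pos hτ
      · rw [if_neg hτ]
        exact Finset.sum_eq_zero fun y _ => if_neg hτ
    have e2 : (∑ τ : MulAut V₀, if τ ∈ St E₀ a then ∑ y, wt τ y * ((gd τ y : ℚ) : ℂ) else 0) =
        (∑ τ : MulAut V₀, if τ ∈ St E₀ a then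
          ∑ y, wt τ y * (((gd τ y + (h : ℚ) / (ℓ : ℚ) ^ 2 : ℚ)) : ℂ) else 0) -
        (h : ℂ) * (SE1 B D a κa / (ℓ : ℂ) ^ 2) := by
      rw [← w1, e1, Finset.sum_div, Finset.mul_sum, ← Finset.sum_sub_distrib]
      refine Finset.sum_congr rfl fun τ _ => ?_
      by_cases hτ : τ ∈ St E₀ a
      · rw [if_pos hτ, if_pos hτ, if_pos hτ, Finset.sum_div, Finset.mul_sum,
          ← Finset.sum_sub_distrib]
        refine Finset.sum_congr rfl fun y _ => ?_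
        push_cast
        ring
      · rw [if_neg hτ, if_neg hτ, if_neg hτ]
        ring
    rw [e2]
    refine sub_mem (sum_mem fun τ _ => ?_) (mul_mem (intCast_mem _ _) w2)
    by_cases hτ : τ ∈ St E₀ a
    · rw [if_pos hτ]
      refine sum_mem fun y _ => ?_
      obtain ⟨q, hq, hqe⟩ := v1 τ hτ y
      have e3 : gd τ y + (h : ℚ) / (ℓ : ℚ) ^ 2 = q / ℓ := by
        rw [hqe]; ring
      rw [e3]
      exact hdiv _ q (hwtR τ hτ.1 y) hq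
    · rw [if_neg hτ]
      exact zero_mem _
  -- the other part
  have hOt : ∀ τ : MulAut V₀, τ ∈ E₀ → τ ∉ St E₀ a → ∑ y, wt τ y * ((gd τ y : ℚ) : ℂ) -
      ∑ ζ : V₀, (if ζ ∈ a ∧ ζ ≠ 1 then wt τ (τ⁻¹ ζ * ζ⁻¹) * ((br ζ : ℚ) : ℂ) else 0) ∈
        RM M := by
    intro τ hτ hτa
    have e1 : ∑ y, wt τ y * ((gd τ y : ℚ) : ℂ) = ∑ ζ ∈ Finset.univ.filter
        (fun ζ : V₀ => ζ ∈ a ∧ ζ ≠ 1), wt τ (τ⁻¹ ζ * ζ⁻¹) *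
          ((gd τ (τ⁻¹ ζ * ζ⁻¹) : ℚ) : ℂ) := by
      rw [← Finset.sum_image (s := Finset.univ.filter (fun ζ : V₀ => ζ ∈ a ∧ ζ ≠ 1))
        (g := fun ζ => τ⁻¹ ζ * ζ⁻¹) (f := fun y => wt τ y * ((gd τ y : ℚ) : ℂ))]
      · symm
        refine Finset.sum_subset (Finset.subset_univ _) fun y _ hy => ?_
        have h0 : gd τ y = 0 := by
          apply v3 τ hτ hτa
          intro ζ hζ hζ1 hyz
          apply hy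
          rw [Finset.mem_image]
          exact ⟨ζ, Finset.mem_filter.2 ⟨Finset.mem_univ _, hζ, hζ1⟩, hyz.symm⟩
        rw [h0, Rat.cast_zero, mul_zero]
      · intro ζ hζ ζ' hζ' he
        have h1 := (Finset.mem_filter.1 hζ).2
        have h2 := (Finset.mem_filter.1 hζ').2
        exact tz_inj hac hτ hτa h1.1 h2.1 he
    rw [e1, ← Finset.sum_filter, ← Finset.sum_sub_distrib]
    refine sum_mem fun ζ hζ => ?_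
    have h1 := (Finset.mem_filter.1 hζ).2
    obtain ⟨q, hq, hqe⟩ := v2 τ hτ hτa ζ h1.1 h1.2
    have e2 : wt τ (τ⁻¹ ζ * ζ⁻¹) * ((gd τ (τ⁻¹ ζ * ζ⁻¹) : ℚ) : ℂ) -
        wt τ (τ⁻¹ ζ * ζ⁻¹) * ((br ζ : ℚ) : ℂ) =
        wt τ (τ⁻¹ ζ * ζ⁻¹) * (((q / ℓ : ℚ)) : ℂ) := by
      rw [hqe]
      push_cast
      ring
    rw [e2]
    exact hdiv _ q (hwtR τ hτ _) hq
  rw [hDAS, hLW, ← Finset.sum_sub_distrib]
  have e3 : ∀ τ : MulAut V₀, (if τ ∈ E₀ then ∑ y, wt τ y * ((gd τ y : ℚ) : ℂ) else 0) -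
      (if τ ∈ E₀ ∧ τ ∉ St E₀ a then ∑ ζ : V₀, (if ζ ∈ a ∧ ζ ≠ 1 then
        wt τ (τ⁻¹ ζ * ζ⁻¹) * ((br ζ : ℚ) : ℂ) else 0) else 0) =
      (if τ ∈ St E₀ a then ∑ y, wt τ y * ((gd τ y : ℚ) : ℂ) else 0) +
      (if τ ∈ E₀ ∧ τ ∉ St E₀ a then (∑ y, wt τ y * ((gd τ y : ℚ) : ℂ) -
        ∑ ζ : V₀, (if ζ ∈ a ∧ ζ ≠ 1 then
          wt τ (τ⁻¹ ζ * ζ⁻¹) * ((br ζ : ℚ) : ℂ) else 0)) else 0) := by
    intro τ
    by_cases hτ : τ ∈ St E₀ a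
    · rw [if_pos hτ.1, if_pos hτ, if_neg (fun h => h.2 hτ), if_neg (fun h => h.2 hτ)]
      ring
    · by_cases hτ' : τ ∈ E₀
      · rw [if_pos hτ', if_neg hτ, if_pos ⟨hτ', hτ⟩, if_pos ⟨hτ', hτ⟩]
        ring
      · rw [if_neg hτ', if_neg hτ, if_neg (fun h => hτ' h.1), if_neg (fun h => hτ' h.1)]
        ring
  rw [Finset.sum_congr rfl (fun τ _ => e3 τ), Finset.sum_add_distrib]
  refine add_mem hSt (sum_mem fun τ _ => ?_)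
  by_cases hτ : τ ∈ E₀ ∧ τ ∉ St E₀ a
  · rw [if_pos hτ]
    exact hOt τ hτ.1 hτ.2
  · rw [if_neg hτ]
    exact zero_mem _

end Pool.Agent.PP.SE.H94
end
end -- Pool.Agent.Helper94_ASE.DAV
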