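import Pool.Agent.Helper12_AWB.B101
import Pool.Agent.Helper12_AWB.B168
import Pool.Agent.Helper12_AWB.B217

/-!
# Merged copies (generated) of the modules

* `Pool.Agent.Helper48_ASO.FIN`
* `Pool.Agent.Helper32_ASO.HLNK`
* `Pool.Agent.Helper65_ASO.WZE`
* `Pool.Agent.Helper77_ASD.KLD`
* `Pool.Agent.Helper13_ASE.WTA`
* `Pool.Agent.Helper60_ASE.TS2`
* `Pool.Agent.Helper60_ASE.TS4`
-/

set_option autoImplicit false

section -- Pool.Agent.Helper48_ASO.FIN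

/-! Row FIN of table aso: the relation between `L2` and `L1` -/

open scoped BigOperators

noncomputable section

namespace Pool.Agent.PP.SO.H48

open Pool.Agent.Helper51_AWC Pool.Agent.Helper79_WRA Pool.Agent.PP Pool.Agent.PP.KF
open Pool.Agent.PP.K9 Pool.Agent.PP.K9.H97 Pool.Agent.PP.H75 Pool.Agent.PP.T3 Pool.Agent.PP.SO

attribute [local instance] Ideal.Quotient.field

open Classical in
theorem fsum {A X : Type} [Fintype A] [AddCommMonoid X] (s : Set A) (f : A → X) :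
    ∑ᶠ i ∈ s, f i = ∑ i, if i ∈ s then f i else 0 := by
  rw [finsum_mem_def, finsum_eq_sum_of_fintype]
  rfl

section gen

variable {n : ℕ} {V₀ : Type} [CommGroup V₀]

theorem pL_bot (L : Set (SS n V₀)) : pL L = ⊥ ↔ ∀ s ∈ L, s.2.2.1 = 1 := by
  unfold pL
  rw [Subgroup.closure_eq_bot_iff]
  constructor
  · intro h s hs
    exact h ⟨s, hs, rfl⟩
  · rintro h p ⟨s, hs, rfl⟩
    exact h s hs

theorem qL_bot (L : Set (SS n V₀)) : qL L = ⊥ ↔ ∀ s ∈ L, s.2.2.2 = 1 := by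
  unfold qL
  rw [Subgroup.closure_eq_bot_iff]
  constructor
  · intro h s hs
    exact h ⟨s, hs, rfl⟩
  · rintro h p ⟨s, hs, rfl⟩
    exact h s hs

theorem aL_bot (κ : V₀) (L : Set (SS n V₀)) :
    aL κ L = ⊥ ↔ ∀ s ∈ L, κ ^ (s.2.1 : ℕ) * s.2.2.1 = 1 := by
  unfold aL
  rw [Subgroup.closure_eq_bot_iff]
  constructor
  · intro h s hs
    exact h ⟨s, hs, rfl⟩
  · rintro h p ⟨s, hs, rfl⟩
    exact h s hs

/-- the conditions of the set `τ₀` -/
def tz (κ κ₂ : V₀) : Set (Set (SS n V₀)) :=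
  {L | ∀ s ∈ L, s.2.2.1 = κ⁻¹ ^ (s.2.1 : ℕ) ∧ s.2.2.2 = κ₂⁻¹ ^ (s.2.1 : ℕ)}

theorem tz_iff (E₀ : Subgroup (MulAut V₀)) (σ : MulAut V₀) (hσ : σ ∈ E₀) (κ : V₀)
    (L : Set (SS n V₀)) : L ∈ tz κ (σ⁻¹ κ) ↔ σ ∈ EL E₀ L ∧ aL κ L = ⊥ := by
  have e1 : ∀ (k : ℕ), (σ⁻¹ κ)⁻¹ ^ k = σ⁻¹ (κ⁻¹ ^ k) := fun k => by
    rw [map_pow, map_inv]
  constructor
  · intro h
    refine ⟨⟨hσ, fun s hs => ?_⟩, (aL_bot κ L).2 fun s hs => ?_⟩
    · rw [(h s hs).2, (h s hs).1, e1, MulAut.apply_inv_self]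
    · rw [(h s hs).1, inv_pow, mul_inv_cancel]
  · rintro ⟨⟨-, h1⟩, h2⟩ s hs
    have h3 := (aL_bot κ L).1 h2 s hs
    have h4 : s.2.2.1 = κ⁻¹ ^ (s.2.1 : ℕ) := by
      rw [inv_pow]
      exact (inv_eq_of_mul_eq_one_right h3).symm
    refine ⟨h4, ?_⟩
    have h5 := h1 s hs
    rw [e1, ← h4, ← h5, MulAut.inv_apply_self]

theorem pL_zp {ℓ : ℕ} [hℓ : Fact ℓ.Prime] (hV : ∀ v : V₀, v ^ ℓ = 1) {κ : V₀} (hκ : κ ≠ 1)
    (L : Set (SS n V₀)) (h : ∀ s ∈ L, s.2.2.1 = κ⁻¹ ^ (s.2.1 : ℕ)) (hL : pL L ≠ ⊥) :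
    pL L = Subgroup.zpowers κ := by
  have hle : pL L ≤ Subgroup.zpowers κ := by
    unfold pL
    rw [Subgroup.closure_le]
    rintro p ⟨s, hs, rfl⟩
    rw [h s hs]
    exact Subgroup.pow_mem _ (Subgroup.inv_mem _ (Subgroup.mem_zpowers κ)) _
  have ho : orderOf κ = ℓ := orderOf_eq_prime (hV κ) hκ
  have hcard : Nat.card (Subgroup.zpowers κ) = ℓ := by
    rw [Nat.card_zpowers, ho]
  have hf : Finite (Subgroup.zpowers κ) := by
    apply Nat.finite_of_card_ne_zero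
    rw [hcard]
    exact hℓ.out.ne_zero
  have hdvd := Subgroup.card_dvd_of_le hle
  rw [hcard] at hdvd
  rcases (Nat.dvd_prime hℓ.out).1 hdvd with h1 | h1
  · exact absurd (Subgroup.card_eq_one.1 h1) hL
  · exact Subgroup.eq_of_le_of_card_ge hle (by rw [hcard, h1])

end gen

/-- the coefficient in `W12` -/
def co {V₀ : Type} [CommGroup V₀] {n : ℕ} (U : Subgroup V₀ → ℚ) (c d : V₀) (L : Set (SS n V₀))
    (σ : MulAut V₀) : ℚ :=
  ux U (pL L) c * ux U (pL L) (σ d) / ux U (pL L) (c * σ d)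

open Classical in
theorem fin (hLAC : LacStmt) (hLBS : LbsStmt) (hMBI : MbiStmt) (hWTH : WthStmt) (hWA : W12AStmt)
    (hWB : W12BStmt) (hM12 : M12Stmt) (hWZE : WzeStmt) : FinStmt := by
  intro ℓ hℓ M _ hM h2 V₀ G _ _ _ _ E₀ hFr B hSy n m hPE ρ₁ ρ₂ c d r₁ r₂ F₁₃ F₁₂ hc hd hFT hRel
  have hSb : Sb ℓ M E₀ B := hSy.toSb
  have hTS := hLAC ℓ M hM h2 V₀ G E₀ hFr B hSy n m c d hc hd F₁₃ F₁₂ hRel
  rw [hLBS ℓ M hM V₀ G E₀ hFr B hSb n m c d hc hd F₁₃ F₁₂] at hTS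
  obtain ⟨-, hMB2, hMB3, -⟩ := hMBI (SS n V₀) F₁₃
  obtain ⟨-, hMA2, hMA3, -⟩ := hMBI (SS n V₀) F₁₂
  have hEm1 : mob F₁₃ (∅ : Set (SS n V₀)) = 0 := by
    rw [(hMBI (SS n V₀) F₁₃).2.2.2]
    exact hFT.z13 ∅ (Or.inl fun s hs => absurd hs (Set.notMem_empty s))
  set q0 : ℚ := r₁ * r₂ / ℓ ^ 2 with hq0
  have hEm2 : mob F₁₂ (∅ : Set (SS n V₀)) = q0 := by
    rw [(hMBI (SS n V₀) F₁₂).2.2.2]
    exact hFT.z12 ∅ fun s hs => absurd hs (Set.notMem_empty s)
  set F : Set (SS n V₀) → ℚ := fun T => F₁₂ T - q0 with hF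
  have hFmob : ∀ L : Set (SS n V₀), L.Nonempty → mob F₁₂ L = mob F L := fun L hL =>
    (hMA3 L q0 hL).symm
  have hF0 : ∀ L : Set (SS n V₀), pL L = ⊥ → qL L = ⊥ → mob F L = 0 := by
    intro L h1 h2
    refine (hMBI (SS n V₀) F).2.1 L fun T hT => ?_
    have h3 := hFT.z12 T fun s hs => ⟨(pL_bot L).1 h1 s (hT hs), (qL_bot L).1 h2 s (hT hs)⟩
    simp only [hF]
    rw [h3, hq0, sub_self]
  have h13 : ∀ L : Set (SS n V₀), pL L = ⊥ ∨ qL L = ⊥ → mob F₁₃ L = 0 := by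
    intro L h
    refine hMB2 L fun T hT => hFT.z13 T ?_
    rcases h with h | h
    · exact Or.inl fun s hs => (pL_bot L).1 h s (hT hs)
    · exact Or.inr fun s hs => (qL_bot L).1 h s (hT hs)
  have hELe : ∀ L : Set (SS n V₀), pL L ≠ ⊥ → qL L = ⊥ → EL E₀ L = ∅ := by
    intro L h1 h2
    ext σ
    simp only [Set.mem_empty_iff_false, iff_false]
    rintro ⟨-, h3⟩
    apply h1
    rw [pL_bot]
    intro s hs
    rw [← h3 s hs, (qL_bot L).1 h2 s hs, map_one]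
  let _ : Fintype (MulAut V₀) := Fintype.ofFinite _
  let _ : Fintype (Set (SS n V₀)) := Fintype.ofFinite _
  -- the part of `W12` with `aL = ⊥`
  set X : MulAut V₀ → Set (SS n V₀) → ℂ := fun σ L =>
    if pL L ≠ ⊥ ∧ σ ∈ EL E₀ L ∧ aL (c * σ d) L = ⊥ then
      (mob F L : ℂ) * ((co B.U c d L σ : ℚ) : ℂ) * HK B m (c * σ d) L else 0 with hX
  have hW12 : ∀ L : Set (SS n V₀), pL L ≠ ⊥ → (mob F L : ℂ) * W12 B m c d L
      = (mob F L : ℂ) * ((P12 E₀ B.U c d L : ℚ) : ℂ) + ∑ σ, X σ L := by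
    intro L hL
    rw [(hWA ℓ M hM h2 V₀ G E₀ hFr B hSy n m hPE c d L).2 hL, fsum]
    unfold P12
    rw [fsum]
    push_cast
    rw [Finset.mul_sum, Finset.mul_sum, ← Finset.sum_add_distrib]
    refine Finset.sum_congr rfl fun σ _ => ?_
    simp only [hX]
    by_cases h1 : σ ∈ EL E₀ L
    · by_cases h3 : aL (c * σ d) L = ⊥
      · rw [if_pos h1, if_neg (fun h => h.2 h3), if_pos ⟨hL, h1, h3⟩]
        unfold co
        push_cast
        ring
      · rw [if_pos h1, if_pos (show σ ∈ {σ | σ ∈ EL E₀ L ∧ aL (c * σ d) L ≠ ⊥} from ⟨h1, h3⟩),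
          if_neg (fun h => h3 h.2.2), hWB ℓ M hM h2 V₀ G E₀ hFr B hSy n m hPE (c * σ d) L h3]
        push_cast
        ring
    · rw [if_neg h1, if_neg (fun h => h1 h.1), if_neg (fun h => h1 h.2.1)]
      simp
  -- the terms
  have hterm : ∀ L : Set (SS n V₀),
      ((mob F₁₃ L : ℚ) : ℂ) * W13 B m c d L + ((mob F₁₂ L : ℚ) : ℂ) * W12 B m c d L
      = (if L = ∅ then (q0 : ℂ) * L2 B c d else 0)
        + (if pL L ≠ ⊥ ∧ qL L ≠ ⊥ then
            ((mob F₁₃ L * P13 E₀ B.U c d L + mob F₁₂ L * P12 E₀ B.U c d L : ℚ) : ℂ) else 0)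
        + ∑ σ, X σ L := by
    intro L
    by_cases hL : L = ∅
    · subst hL
      have hp : pL (∅ : Set (SS n V₀)) = ⊥ :=
        (pL_bot _).2 fun s hs => absurd hs (Set.notMem_empty s)
      have hX0 : ∑ σ, X σ (∅ : Set (SS n V₀)) = 0 := by
        refine Finset.sum_eq_zero fun σ _ => ?_
        simp only [hX]
        rw [if_neg (fun h => h.1 hp)]
      rw [if_pos rfl, if_neg (fun h => h.1 hp), hX0, hEm1, hEm2,
        ((hWZE ℓ M hM V₀ G E₀ hFr.ex B hSb).2.2 n m c d hc hd).2]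
      push_cast
      ring
    · have hLn : L.Nonempty := Set.nonempty_iff_ne_empty.2 hL
      rw [if_neg hL, zero_add]
      by_cases hp : pL L = ⊥
      · have hX0 : ∑ σ, X σ L = 0 := by
          refine Finset.sum_eq_zero fun σ _ => ?_
          simp only [hX]
          rw [if_neg (fun h => h.1 hp)]
        rw [if_neg (fun h => h.1 hp), hX0, h13 L (Or.inl hp)]
        by_cases hq : qL L = ⊥
        · rw [hFmob L hLn, hF0 L hp hq]
          simp
        · rw [(hWA ℓ M hM h2 V₀ G E₀ hFr B hSy n m hPE c d L).1 hp hq]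
          simp
      · have h1 : ((mob F₁₂ L : ℚ) : ℂ) * W12 B m c d L
            = (mob F₁₂ L : ℂ) * ((P12 E₀ B.U c d L : ℚ) : ℂ) + ∑ σ, X σ L := by
          rw [hFmob L hLn]
          exact hW12 L hp
        by_cases hq : qL L = ⊥
        · have hP : P12 E₀ B.U c d L = 0 := by
            unfold P12
            rw [fsum]
            refine Finset.sum_eq_zero fun σ _ => ?_
            rw [if_neg]
            rintro ⟨h3, -⟩
            rw [hELe L hp hq] at h3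
            exact h3
          rw [if_neg (fun h => h.2 hq), h1, h13 L (Or.inr hq), hP]
          simp
        · rw [if_pos ⟨hp, hq⟩, h1, hWTH ℓ M hM h2 V₀ G E₀ hFr B hSy n m hPE c d L hp hq]
          push_cast
          ring
  -- the sum over `L` of `X σ L`
  have hn0 : 0 < n := by
    obtain ⟨r, -, hr⟩ := hPE.pw
    rw [hr]
    exact pow_pos hℓ.out.pos r
  have hXs : ∀ σ : MulAut V₀, ∑ L, X σ L = if σ ∈ {σ : MulAut V₀ | σ ∈ E₀ ∧ c * σ d ≠ 1} then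
      -(((cfL B.U ρ₁ ρ₂ c d σ : ℚ) : ℂ) / ℓ ^ 2 * L1 B (c * σ d)) else 0 := by
    intro σ
    by_cases hσ : σ ∈ {σ : MulAut V₀ | σ ∈ E₀ ∧ c * σ d ≠ 1}
    · rw [if_pos hσ]
      obtain ⟨hσE, hκ⟩ := hσ
      set κ : V₀ := c * σ d with hκd
      set cf : ℚ := ux B.U (Subgroup.zpowers κ) c * ux B.U (Subgroup.zpowers κ) (σ d) with hcf
      have hval : ∀ L : Set (SS n V₀), X σ L = (cf : ℂ) * (if L ∈ tz κ (σ⁻¹ κ) then
          (mob F L : ℂ) * HK B m κ L else 0) := by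
        intro L
        by_cases hL : L ∈ tz κ (σ⁻¹ κ)
        · obtain ⟨h1, h3⟩ := (tz_iff E₀ σ hσE κ L).1 hL
          rw [if_pos hL]
          by_cases hp : pL L = ⊥
          · have hq : qL L = ⊥ := by
              rw [qL_bot]
              intro s hs
              have h4 := h1.2 s hs
              rw [(pL_bot L).1 hp s hs] at h4
              exact (map_eq_one_iff σ σ.injective).1 h4
            simp only [hX]
            rw [if_neg (fun h => h.1 hp), hF0 L hp hq]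
            simp
          · have hz := pL_zp (ℓ := ℓ) hFr.ex hκ L (fun s hs => (hL s hs).1) hp
            have hco : co B.U c d L σ = cf := by
              unfold co
              rw [hz]
              have h5 : ux B.U (Subgroup.zpowers κ) κ = 1 :=
                if_pos (Subgroup.mem_zpowers κ)
              rw [← hκd, h5, div_one]
            simp only [hX]
            rw [if_pos ⟨hp, h1, h3⟩, hco]
            ring
        · rw [if_neg hL, mul_zero]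
          simp only [hX]
          rw [if_neg]
          rintro ⟨-, h1, h3⟩
          exact hL ((tz_iff E₀ σ hσE κ L).2 ⟨h1, h3⟩)
      have hv := hM12 ℓ M hM V₀ G E₀ hFr.ex B hSb n m κ (σ⁻¹ κ) hκ F
        (-((ρ₁ κ⁻¹).val * (ρ₂ (σ⁻¹ κ)⁻¹).val) / ℓ ^ 2) hn0 (by
          intro I hI
          have h6 : κ⁻¹ ≠ c⁻¹ := by
            intro h
            have h7 : κ = c := inv_injective h
            rw [hκd, mul_eq_left] at h7
            exact hd ((map_eq_one_iff σ σ.injective).1 h7)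
          have h8 : (σ⁻¹ κ)⁻¹ ≠ d⁻¹ := by
            intro h
            have h9 : σ⁻¹ κ = d := inv_injective h
            have h10 : κ = σ d := by
              rw [← h9, MulAut.apply_inv_self]
            rw [hκd, mul_eq_right] at h10
            exact hc h10
          have h11 := hFT.main κ⁻¹ (σ⁻¹ κ)⁻¹ I hI h6 h8
          simp only [hF]
          rw [h11, hq0]
          ring)
      have hv' : ∑ L, (if L ∈ tz κ (σ⁻¹ κ) then (mob F L : ℂ) * HK B m κ L else 0)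
          = ((-((ρ₁ κ⁻¹).val * (ρ₂ (σ⁻¹ κ)⁻¹).val) / ℓ ^ 2 : ℚ) : ℂ) * L1 B κ := by
        rw [← hv, fsum]
        rfl
      rw [Finset.sum_congr rfl fun L _ => hval L, ← Finset.mul_sum, hv']
      unfold cfL
      rw [← hκd]
      simp only [hcf]
      push_cast
      ring
    · rw [if_neg hσ]
      refine Finset.sum_eq_zero fun L _ => ?_
      simp only [hX]
      rw [if_neg]
      rintro ⟨hp, h1, h3⟩
      apply hσ
      refine ⟨h1.1, fun hκ => hp ?_⟩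
      rw [pL_bot]
      intro s hs
      have h4 := (aL_bot _ L).1 h3 s hs
      rwa [hκ, one_pow, one_mul] at h4
  -- assembly
  have htot : ∑ᶠ L : Set (SS n V₀), (((mob F₁₃ L : ℚ) : ℂ) * W13 B m c d L +
      ((mob F₁₂ L : ℚ) : ℂ) * W12 B m c d L)
      = (r₁ * r₂ : ℂ) / ℓ ^ 2 * L2 B c d -
      ∑ᶠ σ ∈ {σ : MulAut V₀ | σ ∈ E₀ ∧ c * σ d ≠ 1},
        ((cfL B.U ρ₁ ρ₂ c d σ : ℚ) : ℂ) / ℓ ^ 2 * L1 B (c * σ d) +
      ((PPd E₀ B.U c d F₁₃ F₁₂ : ℚ) : ℂ) := by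
    rw [finsum_eq_sum_of_fintype, Finset.sum_congr rfl fun L _ => hterm L,
      Finset.sum_add_distrib, Finset.sum_add_distrib, Finset.sum_comm,
      Finset.sum_congr rfl fun σ _ => hXs σ, Finset.sum_ite_eq' Finset.univ ∅,
      if_pos (Finset.mem_univ _)]
    have e1 : (∑ σ : MulAut V₀, if σ ∈ {σ : MulAut V₀ | σ ∈ E₀ ∧ c * σ d ≠ 1} then
        -(((cfL B.U ρ₁ ρ₂ c d σ : ℚ) : ℂ) / ℓ ^ 2 * L1 B (c * σ d)) else 0)
        = -∑ᶠ σ ∈ {σ : MulAut V₀ | σ ∈ E₀ ∧ c * σ d ≠ 1},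
        ((cfL B.U ρ₁ ρ₂ c d σ : ℚ) : ℂ) / ℓ ^ 2 * L1 B (c * σ d) := by
      rw [fsum, ← Finset.sum_neg_distrib]
      refine Finset.sum_congr rfl fun σ _ => ?_
      split_ifs
      · rfl
      · simp
    have e2 : (∑ L : Set (SS n V₀), if pL L ≠ ⊥ ∧ qL L ≠ ⊥ then
        ((mob F₁₃ L * P13 E₀ B.U c d L + mob F₁₂ L * P12 E₀ B.U c d L : ℚ) : ℂ) else 0)
        = ((PPd E₀ B.U c d F₁₃ F₁₂ : ℚ) : ℂ) := by
      unfold PPd
      rw [fsum, Rat.cast_sum]
      refine Finset.sum_congr rfl fun L _ => ?_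
      by_cases h : pL L ≠ ⊥ ∧ qL L ≠ ⊥
      · rw [if_pos h, if_pos (show L ∈ {L : Set (SS n V₀) | pL L ≠ ⊥ ∧ qL L ≠ ⊥} from h)]
      · rw [if_neg h, if_neg (show L ∉ {L : Set (SS n V₀) | pL L ≠ ⊥ ∧ qL L ≠ ⊥} from h)]
        simp
    rw [e1, e2, hq0]
    push_cast
    ring
  rw [htot] at hTS
  exact hTS

end Pool.Agent.PP.SO.H48
end
end -- Pool.Agent.Helper48_ASO.FIN

section -- Pool.Agent.Helper32_ASO.HLNK

/-!
# Squad ASO, row HLNK: the central character at `f_c` and the number `gv`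

Author: helper32.
-/

open scoped BigOperators

noncomputable section

namespace Pool.Agent.PP.SO.H32

open Pool.Agent.Helper51_AWC Pool.Agent.Helper79_WRA Pool.Agent.PP Pool.Agent.PP.KF
open Pool.Agent.PP.K9 Pool.Agent.PP.K9.H97 Pool.Agent.PP.H75 Pool.Agent.PP.T3

attribute [local instance] Ideal.Quotient.field

section gen

variable {G : Type} [Group G]

theorem cent_zpowers (u : G) :
    Subgroup.centralizer ((Subgroup.zpowers u : Subgroup G) : Set G) = Cu u := by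
  rw [Subgroup.zpowers_eq_closure, Subgroup.centralizer_closure]

theorem cent_bot : Subgroup.centralizer (((⊥ : Subgroup G)) : Set G) = ⊤ := by
  rw [eq_top_iff]
  intro x _
  rw [Subgroup.mem_centralizer_iff]
  intro y hy
  have hy1 : y = 1 := hy
  rw [hy1, one_mul, mul_one]

theorem sum_ext0 (C : Subgroup G) (f : C → ℂ) (φ : G → ℂ) :
    ∑ᶠ g, PP.ext0 C f g * φ g = ∑ᶠ c : C, f c * φ c := by
  have h1 : ∑ᶠ c : C, f c * φ c = ∑ᶠ c : (C : Set G), PP.ext0 C f c * φ c := by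
    refine finsum_congr fun c => ?_
    have h2 : PP.ext0 C f (c : G) = f c := by
      unfold PP.ext0
      exact dif_pos c.2
    rw [h2]
  rw [h1, finsum_set_coe_eq_finsum_mem (s := (C : Set G)) (f := fun g => PP.ext0 C f g * φ g),
    finsum_mem_def]
  refine finsum_congr fun g => ?_
  by_cases hg : g ∈ (C : Set G)
  · rw [Set.indicator_of_mem hg]
  · rw [Set.indicator_of_notMem hg]
    have h2 : PP.ext0 C f g = 0 := by
      unfold PP.ext0
      exact dif_neg hg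
    rw [h2, zero_mul]

/-- the sum over the conjugates -/
theorem sum_conj (φ χ : G → ℂ) (hχ : ∀ g h : G, χ (h * g * h⁻¹) = χ g) (u z : G) :
    ∑ᶠ g, φ (u⁻¹ * (z⁻¹ * g * z)) * χ g = ∑ᶠ h, φ h * χ (u * h) := by
  let E : G ≃ G :=
    { toFun := fun h => z * (u * h) * z⁻¹
      invFun := fun g => u⁻¹ * (z⁻¹ * g * z)
      left_inv := fun h => by group
      right_inv := fun g => by group }
  rw [← finsum_comp_equiv E]
  refine finsum_congr fun h => ?_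
  have h1 : u⁻¹ * (z⁻¹ * (E h) * z) = h := E.left_inv h
  rw [h1]
  have h2 : E h = z * (u * h) * z⁻¹ := rfl
  rw [h2, hχ]

theorem sum_avg [Finite G] (K : Subgroup G) (hK : K = ⊤) (k : ℂ) (φ χ : G → ℂ)
    (hχ : ∀ g h : G, χ (h * g * h⁻¹) = χ g) (u : G) :
    ∑ᶠ g, (k * ∑ᶠ z : K, φ (u⁻¹ * ((z : G)⁻¹ * g * z))) * χ g =
      k * (Nat.card G * ∑ᶠ h, φ h * χ (u * h)) := by
  classical
  have := Fintype.ofFinite G
  have := Fintype.ofFinite K
  have h0 : ∀ g, (k * ∑ᶠ z : K, φ (u⁻¹ * ((z : G)⁻¹ * g * z))) * χ g =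
      ∑ z : K, k * (φ (u⁻¹ * ((z : G)⁻¹ * g * z)) * χ g) := by
    intro g
    rw [finsum_eq_sum_of_fintype, Finset.mul_sum, Finset.sum_mul]
    exact Finset.sum_congr rfl fun z _ => by ring
  rw [finsum_congr h0, finsum_eq_sum_of_fintype, Finset.sum_comm]
  have h1 : ∀ z : K, ∑ g : G, k * (φ (u⁻¹ * ((z : G)⁻¹ * g * z)) * χ g) =
      k * ∑ᶠ h, φ h * χ (u * h) := by
    intro z
    rw [← Finset.mul_sum, ← finsum_eq_sum_of_fintype, sum_conj φ χ hχ u z]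
  rw [Finset.sum_congr rfl fun z _ => h1 z, Finset.sum_const, Finset.card_univ,
    ← Nat.card_eq_fintype_card, nsmul_eq_mul]
  have h2 : Nat.card K = Nat.card G := by
    rw [hK, Subgroup.card_top]
  rw [h2]
  ring

end gen

section blk

variable {V₀ G : Type} [CommGroup V₀] [Group G] {M : Ideal (integralClosure ℤ ℂ)} [M.IsMaximal]

theorem C_zpowers (B : Bk (FF M) V₀ G) (c : V₀) :
    B.C (Subgroup.zpowers c) = Cu (B.i c) := by
  unfold Bk.C
  rw [MonoidHom.map_zpowers, cent_zpowers]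

theorem C_bot (B : Bk (FF M) V₀ G) : B.C ⊥ = ⊤ := by
  unfold Bk.C
  rw [Subgroup.map_bot, cent_bot]

theorem lc_of {F : Type} [Field F] {e g b : G → F} {V X : Subgroup G} {u : G} (hX : X = Cu u)
    (h1 : Bx X b) (h2 : mulF (fun t : X => e t) (fun t : X => b t) = fun t : X => b t)
    (h3 : mulF (br V b) g = g) : Lc e V g u b := by
  subst hX
  exact ⟨h1, h2, h3⟩

end blk

theorem hlnk : HLnkStmt := by
  intro ℓ _ M _ hℓ V₀ _ _ E₀ G _ _ B hB c
  have hC : B.C (Subgroup.zpowers c) = Cu (B.i c) := C_zpowers B c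
  refine ⟨hC.symm, ?_, fun χ hχ => ?_⟩
  · exact lc_of hC (hB.lb _).blk (hB.lb _).und (hB.lb _).gam
  · have hcl : ∀ g h : G, χ (h * g * h⁻¹) = χ g := fun g h => irr_conj hχ g h
    have h1 : ∑ᶠ g, fc B ⊥ c g * χ g = (Nat.card (B.C (Subgroup.zpowers c)) : ℂ)⁻¹ *
        (Nat.card G * ∑ᶠ h, bh B (Subgroup.zpowers c) h * χ (B.i c * h)) := by
      have h2 := sum_avg (B.C ⊥) (C_bot B) (Nat.card (B.C (Subgroup.zpowers c)) : ℂ)⁻¹
        (bh B (Subgroup.zpowers c)) χ hcl (B.i c)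
      rw [← h2]
      refine finsum_congr fun g => ?_
      unfold fc
      rw [bot_sup_eq]
    have h3 : ∑ᶠ h, bh B (Subgroup.zpowers c) h * χ (B.i c * h) =
        gv M (Cu (B.i c)) (B.i c) (B.b (Subgroup.zpowers c)) χ := by
      rw [← hC]
      exact sum_ext0 _ _ _
    unfold cv
    rw [h1, h3]
    by_cases h0 : (Nat.card (B.C (Subgroup.zpowers c)) : ℂ) = 0
    · rw [h0]; simp
    · by_cases h4 : χ 1 = 0
      · rw [h4]; simp
      · field_simp

end Pool.Agent.PP.SO.H32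
end
end -- Pool.Agent.Helper32_ASO.HLNK

section -- Pool.Agent.Helper65_ASO.WZE

/-!
# Squad ASO, row WZE: the sums without conditions

Author: helper65.
-/

open scoped BigOperators

noncomputable section

namespace Pool.Agent.PP.SO.H65

open Pool.Agent.Helper51_AWC Pool.Agent.Helper79_WRA Pool.Agent.PP Pool.Agent.PP.KF
open Pool.Agent.PP.K9 Pool.Agent.PP.K9.H97 Pool.Agent.PP.H75 Pool.Agent.PP.T3

attribute [local instance] Ideal.Quotient.field

section gen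

variable {G : Type} [Group G]

theorem ncard_all {α : Type} (P : α → Prop) (h : ∀ z, P z) : {z | P z}.ncard = Nat.card α := by
  have h1 : {z | P z} = Set.univ := Set.eq_univ_of_forall h
  rw [h1, Set.ncard_univ]

/-- Frobenius -/
theorem frobS [Fintype G] [Fintype (Irr G)] (g : G) :
    ((Nat.card {p : G × G // p.1 * p.2 * p.1⁻¹ * p.2⁻¹ = g} : ℕ) : ℂ) =
      ∑ θ : Irr G, (Nat.card G : ℂ) * ((θ : G → ℂ) g / (θ : G → ℂ) 1) := by
  rw [Pool.Agent.Helper13_CC.frob G g, ← Finset.mul_sum]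
  rw [← finsum_set_coe_eq_finsum_mem (s := Irr G) (f := fun θ : G → ℂ => θ g / θ 1),
    finsum_eq_sum_of_fintype]

theorem kap_ncard (g : G) : {w : G × G | kap w.1 w.2 = g}.ncard =
    Nat.card {p : G × G // p.1 * p.2 * p.1⁻¹ * p.2⁻¹ = g} := by
  rw [← Nat.card_coe_set_eq]
  rfl

/-- the triples, sorted by the last component -/
def xxEquiv (g h : G) : XX g h ≃
    Σ u : G, {p : G × G // p.1 * p.2 * p.1⁻¹ * p.2⁻¹ = g * (u * h * u⁻¹)} where
  toFun w := ⟨w.1.2.2, ⟨(w.1.1, w.1.2.1), w.2⟩⟩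
  invFun s := ⟨(s.2.1.1, s.2.1.2, s.1), s.2.2⟩
  left_inv _ := rfl
  right_inv _ := rfl

theorem xx_card [Fintype G] [Fintype (Irr G)] (g h : G) : ((Nat.card (XX g h) : ℕ) : ℂ) =
    ∑ θ : Irr G, (Nat.card G : ℂ) ^ 2 * ((θ : G → ℂ) g / (θ : G → ℂ) 1) *
      ((θ : G → ℂ) h / (θ : G → ℂ) 1) := by
  classical
  rw [Nat.card_congr (xxEquiv g h), Nat.card_sigma, Nat.cast_sum]
  rw [Finset.sum_congr rfl fun u _ => frobS (g * (u * h * u⁻¹)), Finset.sum_comm]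
  refine Finset.sum_congr rfl fun θ _ => ?_
  have h1 : ∑ u : G, (θ : G → ℂ) (g * (u * h * u⁻¹)) =
      (Fintype.card G : ℂ) * (θ : G → ℂ) h * (θ : G → ℂ) g / (θ : G → ℂ) 1 := by
    rw [← Pool.Agent.Helper13_CC.sum_conj θ.2]
    exact Finset.sum_congr rfl fun u _ => irr_mul_comm θ.2 _ _
  rw [← Finset.mul_sum, ← Finset.sum_div, h1, Nat.card_eq_fintype_card]
  ring

end gen

section blk

variable {V₀ G : Type} [CommGroup V₀] [Group G] {M : Ideal (integralClosure ℤ ℂ)} [M.IsMaximal]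

theorem cv_fc [Fintype G] (B : Bk (FF M) V₀ G) (c : V₀) {χ : G → ℂ} (hχ : χ ∈ Irr G) :
    cv (fc B ⊥ c) χ = (Nat.card (B.C (Subgroup.zpowers c)) : ℂ)⁻¹ *
      ((Nat.card G : ℂ) * ∑ h : G, bh B (Subgroup.zpowers c) h * χ (B.i c * h)) / χ 1 := by
  have hcl : ∀ g h : G, χ (h * g * h⁻¹) = χ g := fun g h => irr_conj hχ g h
  have h2 := H32.sum_avg (B.C ⊥) (H32.C_bot B) (Nat.card (B.C (Subgroup.zpowers c)) : ℂ)⁻¹
    (bh B (Subgroup.zpowers c)) χ hcl (B.i c)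
  unfold cv
  rw [finsum_eq_sum_of_fintype (fun h => bh B (Subgroup.zpowers c) h * χ (B.i c * h))] at h2
  rw [← h2]
  congr 1
  refine finsum_congr fun g => ?_
  unfold fc
  rw [bot_sup_eq]

theorem irrE_sub {e : G → FF M} {f : (G → ℂ) → ℂ} [Fintype (Irr G)]
    (h0 : ∀ χ ∈ Irr G, χ ∉ IrrE M e → f χ = 0) :
    ∑ θ : Irr G, f (θ : G → ℂ) = ∑ᶠ χ ∈ IrrE M e, f χ := by
  rw [← finsum_eq_sum_of_fintype (fun θ : Irr G => f (θ : G → ℂ)),
    finsum_set_coe_eq_finsum_mem (s := Irr G) (f := f), finsum_mem_def, finsum_mem_def]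
  refine finsum_congr fun χ => ?_
  by_cases h1 : χ ∈ IrrE M e
  · have h2 : χ ∈ Irr G := h1.1
    rw [Set.indicator_of_mem h1, Set.indicator_of_mem h2]
  · rw [Set.indicator_of_notMem h1]
    by_cases h2 : χ ∈ Irr G
    · rw [Set.indicator_of_mem h2]
      exact h0 χ h2 h1
    · rw [Set.indicator_of_notMem h2]

/-- the double sum -/
theorem dbl [Fintype G] (B : Bk (FF M) V₀ G) (c d : V₀) (N : G → G → ℂ)
    [Fintype (Irr G)] (hN : ∀ g h, N g h = ∑ θ : Irr G, (Nat.card G : ℂ) ^ 2 *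
      ((θ : G → ℂ) g / (θ : G → ℂ) 1) * ((θ : G → ℂ) h / (θ : G → ℂ) 1)) :
    ((Nat.card (B.C (Subgroup.zpowers c)) : ℂ) * Nat.card (B.C (Subgroup.zpowers d)))⁻¹ *
      ∑ᶠ w : G × G, bh B (Subgroup.zpowers c) w.1 * bh B (Subgroup.zpowers d) w.2 *
        N (B.i c * w.1) (B.i d * w.2) =
    ∑ θ : Irr G, cv (fc B ⊥ c) (θ : G → ℂ) * cv (fc B ⊥ d) (θ : G → ℂ) := by
  rw [finsum_eq_sum_of_fintype]
  have h1 : ∀ w : G × G, bh B (Subgroup.zpowers c) w.1 * bh B (Subgroup.zpowers d) w.2 *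
      N (B.i c * w.1) (B.i d * w.2) = ∑ θ : Irr G, (Nat.card G : ℂ) ^ 2 *
        ((bh B (Subgroup.zpowers c) w.1 * (θ : G → ℂ) (B.i c * w.1)) *
          (bh B (Subgroup.zpowers d) w.2 * (θ : G → ℂ) (B.i d * w.2))) / (θ : G → ℂ) 1 ^ 2 := by
    intro w
    rw [hN, Finset.mul_sum]
    refine Finset.sum_congr rfl fun θ _ => ?_
    ring
  rw [Finset.sum_congr rfl fun w _ => h1 w, Finset.sum_comm, Finset.mul_sum]
  refine Finset.sum_congr rfl fun θ _ => ?_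
  rw [cv_fc B c θ.2, cv_fc B d θ.2]
  have h2 : ∑ w : G × G, (Nat.card G : ℂ) ^ 2 *
        ((bh B (Subgroup.zpowers c) w.1 * (θ : G → ℂ) (B.i c * w.1)) *
          (bh B (Subgroup.zpowers d) w.2 * (θ : G → ℂ) (B.i d * w.2))) / (θ : G → ℂ) 1 ^ 2 =
      (Nat.card G : ℂ) ^ 2 * ((∑ s : G, bh B (Subgroup.zpowers c) s * (θ : G → ℂ) (B.i c * s)) *
        ∑ t : G, bh B (Subgroup.zpowers d) t * (θ : G → ℂ) (B.i d * t)) / (θ : G → ℂ) 1 ^ 2 := by
    rw [← Finset.sum_div, ← Finset.mul_sum, Finset.sum_mul_sum, Fintype.sum_prod_type]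
  rw [h2, mul_inv]
  ring

theorem wze (smg : T3.SmgStmt) : WzeStmt := by
  intro ℓ _ M _ hℓ V₀ G _ _ _ _ E₀ hV B hB
  classical
  have := Fintype.ofFinite G
  have : Fintype (Irr G) := Fintype.ofFinite _
  -- (a)
  have hA : ∀ c : V₀, c ≠ 1 → ∀ χ ∈ Irr G, χ ∉ IrrE M B.e → cv (fc B ⊥ c) χ = 0 := by
    intro c hc χ hχ hn
    obtain ⟨-, hlc, h3⟩ := H32.hlnk ℓ M hℓ V₀ E₀ G B hB c
    have h1 : B.i c ≠ 1 := fun h => hc (hB.inj (by rw [h, map_one]))
    have h2 : El ℓ (B.i c) := ⟨1, by rw [pow_one, ← map_pow, hV c, map_one]⟩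
    have h4 := (smg ℓ M hℓ G (B.i c) 1 h1 h2 (Cu (B.i c)).one_mem K9.H25.reg_one
      (fun t : Cu (B.i c) => B.b (Subgroup.zpowers c) t) hlc.blk.blk.1 B.e hB.ld.blk.1).1
      hlc.und χ hχ hn
    rw [mul_one] at h4
    have h5 : gv M (Cu (B.i c)) (B.i c) (B.b (Subgroup.zpowers c)) χ = 0 := h4
    rw [h3 χ hχ, h5, mul_zero, zero_div]
  refine ⟨hA, ?_, ?_⟩
  · -- (b)
    intro κ hκ
    unfold L1
    rw [← irrE_sub (e := B.e) (f := fun χ => cv (fc B ⊥ κ) χ) (hA κ hκ),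
      finsum_eq_sum_of_fintype]
    have h1 : ∀ t : G, bh B (Subgroup.zpowers κ) t *
        ({w : G × G | kap w.1 w.2 = B.i κ * t}.ncard : ℂ) = ∑ θ : Irr G, (Nat.card G : ℂ) *
          (bh B (Subgroup.zpowers κ) t * (θ : G → ℂ) (B.i κ * t)) / (θ : G → ℂ) 1 := by
      intro t
      rw [kap_ncard, frobS, Finset.mul_sum]
      refine Finset.sum_congr rfl fun θ _ => ?_
      ring
    rw [Finset.sum_congr rfl fun t _ => h1 t, Finset.sum_comm, Finset.mul_sum]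
    refine Finset.sum_congr rfl fun θ _ => ?_
    rw [cv_fc B κ θ.2, ← Finset.sum_div, ← Finset.mul_sum]
    ring
  · -- (c)
    intro n m c d hc hd
    have hp : pL (∅ : Set (SS n V₀)) = ⊥ := by
      unfold pL
      have h1 : {p : V₀ | ∃ s ∈ (∅ : Set (SS n V₀)), s.2.2.1 = p} = ∅ := by
        ext p
        constructor
        · rintro ⟨s, hs, -⟩
          exact hs
        · intro h
          exact h.elim
      rw [h1, Subgroup.closure_empty]
    have hq : qL (∅ : Set (SS n V₀)) = ⊥ := by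
      unfold qL
      have h1 : {p : V₀ | ∃ s ∈ (∅ : Set (SS n V₀)), s.2.2.2 = p} = ∅ := by
        ext p
        constructor
        · rintro ⟨s, hs, -⟩
          exact hs
        · intro h
          exact h.elim
      rw [h1, Subgroup.closure_empty]
    have hL : L2 B c d = ∑ θ : Irr G, cv (fc B ⊥ c) (θ : G → ℂ) * cv (fc B ⊥ d) (θ : G → ℂ) := by
      unfold L2
      rw [← irrE_sub (e := B.e) (f := fun χ => cv (fc B ⊥ c) χ * cv (fc B ⊥ d) χ)
        (fun χ h1 h2 => by rw [hA c hc χ h1 h2, zero_mul])]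
    have hD := dbl B c d (fun g h => ((Nat.card (XX g h) : ℕ) : ℂ)) xx_card
    constructor
    · rw [hL, ← hD]
      unfold W13
      rw [hp, hq, bot_sup_eq, bot_sup_eq]
      congr 1
      refine finsum_congr fun w => ?_
      congr 2
      refine ncard_all _ fun z s hs => ?_
      exact absurd hs (Set.notMem_empty s)
    · rw [hL, ← hD]
      unfold W12
      rw [hp, hq, bot_sup_eq, bot_sup_eq]
      congr 1
      refine finsum_congr fun w => ?_
      congr 2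
      refine ncard_all _ fun z s hs => ?_
      exact absurd hs (Set.notMem_empty s)

end blk

end Pool.Agent.PP.SO.H65
end
end -- Pool.Agent.Helper65_ASO.WZE

section -- Pool.Agent.Helper77_ASD.KLD

/-!
# Squad ASD, row KLD: the number of ordinary characters
-/

open scoped BigOperators

noncomputable section

namespace Pool.Agent.PP.SD.H77

open Pool.Agent.Helper51_AWC Pool.Agent.Helper79_WRA Pool.Agent.PP Pool.Agent.PP.KF
open Pool.Agent.PP.K9 Pool.Agent.PP.K9.H97 Pool.Agent.PP.H75 Pool.Agent.PP.T3 Pool.Agent.PP.SO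

attribute [local instance] Ideal.Quotient.field

section tr

variable {G F : Type} [Group G]

theorem ix_tr {X Y : Subgroup G} (h : X = Y) (V : Subgroup G) (g : G → F) :
    ix (V.subgroupOf X) (fun t : X => g t) = ix (V.subgroupOf Y) (fun t : Y => g t) := by
  subst h
  rfl

theorem ln_tr [Field F] {X Y : Subgroup G} (h : X = Y) (b : G → F) :
    ln (fun t : X => b t) = ln (fun t : Y => b t) := by
  subst h
  rfl

theorem cu_one : Cu (1 : G) = ⊤ := by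
  rw [eq_top_iff]
  intro x _
  rw [Subgroup.mem_centralizer_singleton_iff]
  simp

end tr

theorem kld (pml : PmlStmt) (lbd : SD.LbdStmt) (cpl : T6.CplStmt) (smg : T3.SmgStmt)
    (loc : T3.LocStmt) (lsb : T3.LsbStmt) (lfr : T8.LfrStmt) (k9 : K9.LbdStmt) : KldStmt := by
  classical
  intro ℓ hℓ M _ hM hl2 V₀ G _ _ _ _ E₀ hE B hB
  have hL : Ld ℓ B.e B.i.range B.g := hB.ld
  have hcV : Nat.card B.i.range = ℓ ^ 2 := by
    rw [← hE.cd]
    exact (Nat.card_congr (MonoidHom.ofInjective hB.inj).toEquiv).symm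
  have hVle : ∀ W : Subgroup V₀, B.i.range ≤ B.C W := by
    intro W x hx
    unfold Bk.C
    rw [Subgroup.mem_centralizer_iff]
    rintro y ⟨w, -, rfl⟩
    obtain ⟨v, rfl⟩ := hx
    rw [← map_mul, ← map_mul, mul_comm]
  refine ⟨?_, ?_⟩
  · have hF : GoodF ℓ (FF M) := H50.fld ℓ Fact.out M hM
    have := Fintype.ofFinite G
    have := Fintype.ofFinite V₀
    have hfin : (IrrE M B.e).Finite := K9.H25.irrE_finite M B.e
    have hfI : (Irr G).Finite := T3.H41.irrF G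
    -- local blocks
    have hLc : ∀ v : V₀, Lc B.e B.i.range B.g (B.i v) (B.b (Subgroup.zpowers v)) := fun v =>
      SO.H32.lc_of (SO.H32.C_zpowers B v) (hB.lb _).blk (hB.lb _).und (hB.lb _).gam
    have hb0 : ∀ v : G, ∃ b : G → FF M, v ∈ B.i.range → Lc B.e B.i.range B.g v b := by
      intro v
      by_cases hv : v ∈ B.i.range
      · obtain ⟨w, rfl⟩ := hv
        exact ⟨_, fun _ => hLc w⟩
      · exact ⟨0, fun h => absurd h hv⟩
    choose b hb using hb0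
    have hbi : ∀ v : V₀, b (B.i v) = B.b (Subgroup.zpowers v) := fun v =>
      (loc ℓ (FF M) hF G B.e B.i.range B.g hL _ ⟨v, rfl⟩).2 _ _ (hb _ ⟨v, rfl⟩) (hLc v)
    have hcpl := cpl ℓ M hM G B.e B.i.range B.g hL b hb
    -- the index
    have hrel : ∀ v : V₀, (Subgroup.centralizer (B.i.range : Set G)).relIndex
        (Tg B.i.range B.g ⊓ Cu (B.i v)) = Nat.card (Es E₀ v) := by
      intro v
      obtain ⟨-, h1, -⟩ := lsb ℓ M hM G B.e B.i.range B.g hL _ ⟨v, rfl⟩ _ (hLc v)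
      have h2 := (lbd ℓ M hM V₀ G E₀ hE B hB (Subgroup.zpowers v)).2.1
      rw [ix_tr (SO.H32.C_zpowers B v), h1] at h2
      rw [h2]
      have h3 : St E₀ (Subgroup.zpowers v) = Es E₀ v := by
        ext σ
        constructor
        · rintro ⟨h4, h5⟩
          exact ⟨h4, h5 v (Subgroup.mem_zpowers v)⟩
        · rintro ⟨h4, h5⟩
          refine ⟨h4, ?_⟩
          rintro w ⟨k, rfl⟩
          show σ (v ^ k) = v ^ k
          rw [map_zpow, h5]
      rw [h3]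
    have hix : ix B.i.range B.g = Nat.card E₀ := by
      have h1 := hrel 1
      rw [map_one, cu_one, inf_top_eq] at h1
      have h3 : Es E₀ (1 : V₀) = E₀ := by
        ext σ
        constructor
        · rintro ⟨h4, -⟩
          exact h4
        · intro h4
          exact ⟨h4, map_one σ⟩
      rw [h3] at h1
      exact h1
    -- the diagonal entries
    have hPm : ∀ v : V₀, ∑ χ ∈ hfin.toFinset, T6.Pm M ℓ (B.i v) (b (B.i v)) χ χ =
        (ln (fun t : B.C (Subgroup.zpowers v) => B.b (Subgroup.zpowers v) t) : ℂ) := by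
      intro v
      have hel : El ℓ (B.i v) := by
        obtain ⟨k, hk⟩ := hL.tp.pg ⟨B.i v, ⟨v, rfl⟩⟩
        exact ⟨k, by simpa using congrArg Subtype.val hk⟩
      have hLv := hLc v
      have h1 := pml ℓ M hM G (B.i v) hel _ hLv.blk.ix
      rw [ln_tr (SO.H32.C_zpowers B v), ← h1, finsum_mem_eq_finite_toFinset_sum _ hfI, hbi]
      refine Finset.sum_subset ?_ ?_
      · intro χ hχ
        rw [Set.Finite.mem_toFinset] at hχ ⊢
        exact hχ.1
      · intro χ hχ1 hχ2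
        rw [Set.Finite.mem_toFinset] at hχ1 hχ2
        unfold T6.Pm
        rw [finsum_eq_zero_of_forall_eq_zero, mul_zero]
        intro s
        by_cases hs : s ∈ Cu (B.i v) ∧ Reg ℓ s
        · have h2 : gv M (Cu (B.i v)) (B.i v * s) (B.b (Subgroup.zpowers v)) χ = 0 := by
            by_cases hv : v = 1
            · have hbe : B.b (Subgroup.zpowers v) = B.e := by
                subst hv
                have hsupp : ∀ x, x ∉ Cu (1 : G) → B.e x = 0 := by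
                  intro x hx
                  exact absurd (by rw [cu_one]; exact Subgroup.mem_top x) hx
                obtain ⟨φ, hφ⟩ : ∃ φ : Cu (1 : G) ≃* G, ∀ t : Cu (1 : G), φ t = (t : G) :=
                  ⟨(MulEquiv.subgroupCongr cu_one).trans Subgroup.topEquiv, fun t => rfl⟩
                have hblk : IsBlk (fun t : Cu (1 : G) => B.e t) := by
                  have h1 := H9.blk_tr φ hL.blk
                  have h2 : (fun x : Cu (1 : G) => B.e (φ x)) =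
                      fun t : Cu (1 : G) => B.e t := by
                    funext x
                    rw [hφ]
                  rw [h2] at h1
                  exact h1
                have hLe : Lc B.e B.i.range B.g 1 B.e := ⟨⟨hsupp, hblk⟩, hblk.1.2, hL.und⟩
                have hL1 := hLc 1
                rw [map_one] at hL1
                exact (loc ℓ (FF M) hF G B.e B.i.range B.g hL 1 B.i.range.one_mem).2 _ _ hL1 hLe
              rw [hbe, hv, map_one, one_mul, T6.H16.gv_one B.e hL.blk.1.1]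
              exact (T6.H16.fv_eh B.e hχ1 s).2 hχ2
            · have hv' : B.i v ≠ 1 := fun h => hv (hB.inj (by rw [h, map_one]))
              exact (smg ℓ M hM G (B.i v) s hv' hel hs.1 hs.2
                (fun t : Cu (B.i v) => B.b (Subgroup.zpowers v) t) hLv.blk.ix.idem B.e
                hL.blk.1).1 hLv.und χ hχ1 hχ2
          rw [finsum_eq_if, h2, zero_mul]
          exact if_pos hs
        · rw [finsum_eq_if]
          exact if_neg hs
    -- the sum over the characters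
    have h1 : ∑ χ ∈ hfin.toFinset, ∑ᶠ (v : G) (_ : v ∈ B.i.range),
        T6.Mm M ℓ B.i.range B.g v (b v) χ χ =
        (IrrE M B.e).ncard * ((Nat.card B.i.range : ℂ) * ix B.i.range B.g) := by
      rw [Finset.sum_congr rfl fun χ hχ => hcpl χ (hfin.mem_toFinset.1 hχ), Finset.sum_const,
        nsmul_eq_mul, ← Set.ncard_eq_toFinset_card _ hfin]
    have h2 : ∀ χ : G → ℂ, ∑ᶠ (v : G) (_ : v ∈ B.i.range),
        T6.Mm M ℓ B.i.range B.g v (b v) χ χ =
        ∑ v : V₀, T6.Mm M ℓ B.i.range B.g (B.i v) (b (B.i v)) χ χ := by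
      intro χ
      rw [← finsum_eq_sum_of_fintype]
      exact finsum_mem_range (f := fun v : G => T6.Mm M ℓ B.i.range B.g v (b v) χ χ) hB.inj
    have h3 : ∑ χ ∈ hfin.toFinset, ∑ᶠ (v : G) (_ : v ∈ B.i.range),
        T6.Mm M ℓ B.i.range B.g v (b v) χ χ =
        ∑ v : V₀, (Nat.card B.i.range : ℂ) * (Nat.card (Es E₀ v) *
          ln (fun t : B.C (Subgroup.zpowers v) => B.b (Subgroup.zpowers v) t)) := by
      rw [Finset.sum_congr rfl fun χ _ => h2 χ, Finset.sum_comm]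
      refine Finset.sum_congr rfl fun v _ => ?_
      unfold T6.Mm
      rw [← Finset.mul_sum, hPm v, hrel v, mul_assoc]
    rw [h1, ← Finset.mul_sum, hix] at h3
    have hV0 : (Nat.card B.i.range : ℂ) ≠ 0 := by exact_mod_cast Nat.card_pos.ne'
    have h4 : (Nat.card B.i.range : ℂ) * (Nat.card E₀ * (IrrE M B.e).ncard) =
        (Nat.card B.i.range : ℂ) * ∑ v : V₀, ((Nat.card (Es E₀ v) : ℂ) *
          ln (fun t : B.C (Subgroup.zpowers v) => B.b (Subgroup.zpowers v) t)) := by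
      rw [← h3]
      ring
    have h5 := mul_left_cancel₀ hV0 h4
    rw [finsum_eq_sum_of_fintype]
    exact_mod_cast h5
  · intro W hW
    obtain ⟨hLC, -, hix⟩ := lbd ℓ M hM V₀ G E₀ hE B hB W
    have hix1 := hix hW
    apply le_antisymm
    · rw [← hix1]
      refine lfr ℓ M hM hl2 (B.C W) _ _ _ hLC ?_ ?_
      · intro h
        have h1 : B.i.range = ⊥ := by
          rw [Subgroup.subgroupOf_eq_bot, disjoint_iff, inf_eq_left.2 (hVle W)] at h
          exact h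
        rw [h1, Subgroup.card_bot] at hcV
        have h2 : 1 < ℓ := (Fact.out : ℓ.Prime).one_lt
        nlinarith
      · intro t ht w _ _ _
        exact Subgroup.relIndex_eq_one.1 hix1 ht
    · exact (k9 ℓ M hM (B.C W) _ hLC.blk.1 hLC.blk.2.1).1

end Pool.Agent.PP.SD.H77
end
end -- Pool.Agent.Helper77_ASD.KLD

section -- Pool.Agent.Helper13_ASE.WTA

/-!
# Squad ASE, row WTA (helper13): the sum of the weights with `τ ∈ St E₀ a`
-/

set_option autoImplicit false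

open scoped BigOperators

noncomputable section

namespace Pool.Agent.PP.SE.H13

open Pool.Agent.Helper51_AWC Pool.Agent.Helper79_WRA Pool.Agent.PP Pool.Agent.PP.KF
open Pool.Agent.PP.K9 Pool.Agent.PP.K9.H97 Pool.Agent.PP.H75 Pool.Agent.PP.T3 Pool.Agent.PP.SO
open Pool.Agent.PP.SD

attribute [local instance] Ideal.Quotient.field

/-- the number of the pairs in a subgroup with a given commutator, weighted -/
theorem frob_sub {G : Type} [Group G] [Finite G] (C : Subgroup G) (a : G → ℂ)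
    (ha : ∀ g, g ∉ C → a g = 0) (S : Set (G → ℂ))
    (hS : ∀ ψ ∈ S, (∀ g, g ∉ C → ψ g = 0) ∧ (fun t : C => ψ t) ∈ Irr C)
    (hz : ∀ ψ : G → ℂ, (∀ g, g ∉ C → ψ g = 0) → (fun t : C => ψ t) ∈ Irr C → ψ ∉ S →
      cv a ψ = 0) :
    (Nat.card C : ℂ)⁻¹ * ∑ᶠ g : G, a g * {w : G × G | SO.kap w.1 w.2 = g ∧
      (w.1 ∈ C ∧ w.2 ∈ C)}.ncard = ∑ᶠ χ ∈ S, cv a χ := by
  classical
  have := Fintype.ofFinite G
  have := Fintype.ofFinite C
  have hIf : (Irr C).Finite := irr_finite'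
  have := hIf.fintype
  have hC0 : (Nat.card C : ℂ) ≠ 0 := by exact_mod_cast Nat.card_pos.ne'
  -- the number of the pairs
  have hcard : ∀ g : C, {w : G × G | SO.kap w.1 w.2 = (g : G) ∧ (w.1 ∈ C ∧ w.2 ∈ C)}.ncard =
      {w : C × C | SO.kap w.1 w.2 = g}.ncard := by
    intro g
    have h1 : {w : G × G | SO.kap w.1 w.2 = (g : G) ∧ (w.1 ∈ C ∧ w.2 ∈ C)} =
        (fun w : C × C => ((w.1 : G), (w.2 : G))) '' {w : C × C | SO.kap w.1 w.2 = g} := by
      ext ⟨x, y⟩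
      constructor
      · rintro ⟨h1, h2, h3⟩
        exact ⟨(⟨x, h2⟩, ⟨y, h3⟩), Subtype.ext h1, rfl⟩
      · rintro ⟨⟨x', y'⟩, h1, h2⟩
        obtain ⟨rfl, rfl⟩ := Prod.mk.inj h2
        exact ⟨congrArg Subtype.val h1, x'.2, y'.2⟩
    rw [h1, Set.ncard_image_of_injective]
    rintro ⟨x, y⟩ ⟨x', y'⟩ h
    obtain ⟨h2, h3⟩ := Prod.mk.inj h
    exact Prod.ext (Subtype.ext h2) (Subtype.ext h3)
  rw [H75.sum_sub C _ (fun g hg => by rw [ha g hg, zero_mul]), finsum_eq_sum_of_fintype]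
  have h1 : ∀ g : C, a g * ({w : G × G | SO.kap w.1 w.2 = (g : G) ∧
      (w.1 ∈ C ∧ w.2 ∈ C)}.ncard : ℂ) =
      ∑ θ : Irr C, (Nat.card C : ℂ) * ((a g * (θ : C → ℂ) g) / (θ : C → ℂ) 1) := by
    intro g
    rw [hcard, SO.H65.kap_ncard, SO.H65.frobS, Finset.mul_sum]
    refine Finset.sum_congr rfl fun θ _ => ?_
    ring
  rw [Finset.sum_congr rfl fun g _ => h1 g, Finset.sum_comm]
  -- extension by zero
  obtain ⟨E, hE⟩ : ∃ E : (C → ℂ) → G → ℂ, ∀ θ g, E θ g = if h : g ∈ C then θ ⟨g, h⟩ else 0 :=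
    ⟨_, fun _ _ => rfl⟩
  have hE1 : ∀ (θ : C → ℂ) (g : C), E θ g = θ g := by
    intro θ g
    rw [hE, dif_pos g.2]
  have hE0 : ∀ (θ : C → ℂ) (g : G), g ∉ C → E θ g = 0 := by
    intro θ g hg
    rw [hE, dif_neg hg]
  have hcv : ∀ θ : C → ℂ, cv a (E θ) = ∑ g : C, (a g * θ g) / θ 1 := by
    intro θ
    unfold cv
    rw [H75.sum_sub C _ (fun g hg => by rw [ha g hg, zero_mul]), finsum_eq_sum_of_fintype,
      Finset.sum_div]
    refine Finset.sum_congr rfl fun g _ => ?_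
    rw [hE1]
    have h2 := hE1 θ 1
    rw [OneMemClass.coe_one] at h2
    rw [h2]
  have h3 : ∀ θ : Irr C, ∑ g : C, (Nat.card C : ℂ) * ((a g * (θ : C → ℂ) g) / (θ : C → ℂ) 1) =
      (Nat.card C : ℂ) * cv a (E (θ : C → ℂ)) := by
    intro θ
    rw [hcv, Finset.mul_sum]
  rw [Finset.sum_congr rfl fun θ _ => h3 θ, ← Finset.mul_sum, inv_mul_cancel_left₀ hC0]
  have hinj : Set.InjOn E (Irr C) := by
    intro θ _ θ' _ h
    funext g
    rw [← hE1 θ g, h, hE1]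
  have h4 : ∑ θ : Irr C, cv a (E (θ : C → ℂ)) = ∑ᶠ χ ∈ E '' Irr C, cv a χ := by
    rw [finsum_mem_image hinj, ← finsum_set_coe_eq_finsum_mem (s := Irr C)
      (f := fun θ : C → ℂ => cv a (E θ)), finsum_eq_sum_of_fintype]
  rw [h4]
  refine finsum_mem_inter_support_eq _ _ _ ?_
  ext χ
  constructor
  · rintro ⟨⟨θ, hθ, rfl⟩, hχ⟩
    refine ⟨?_, hχ⟩
    by_contra hn
    refine hχ (hz _ (hE0 θ) ?_ hn)
    have h5 : (fun t : C => E θ t) = θ := funext (hE1 θ)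
    rw [h5]
    exact hθ
  · rintro ⟨h5, hχ⟩
    refine ⟨⟨_, (hS χ h5).2, ?_⟩, hχ⟩
    funext g
    by_cases hg : g ∈ C
    · exact hE1 _ ⟨g, hg⟩
    · rw [hE0 _ g hg, (hS χ h5).1 g hg]

theorem wta (hye : HyeStmt) (czb : CzbStmt) (pex : SO.PexStmt) : WtaStmt := by
  intro ℓ hℓ M _ hM h2 V₀ G _ _ _ _ E₀ hq B hB D hD a ha κ hκ
  classical
  have ha0 : a ≠ ⊥ := by
    rintro rfl
    have h := ha.1
    rw [Subgroup.card_bot] at h
    exact hℓ.out.one_lt.ne h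
  have hcz := czb ℓ M hM h2 V₀ G E₀ hq B hB.toSb a
  have hczk := hcz.2.2.1 (D.et a) (hD.e1 a ha0) κ hκ
  refine ⟨?_, (hD.e7 a ha κ hκ).1, ?_⟩
  · obtain ⟨r, m, -, hpe⟩ := pex ℓ G
    obtain ⟨T, hT⟩ : ∃ T : Set (V₀ × ℕ), T = {t | t.1 ∈ a ∧ t.2 = 0} := ⟨_, rfl⟩
    have hcl : Subgroup.closure {α | ∃ t ∈ T, t.1 = α} = a := by
      have h1 : {α | ∃ t ∈ T, t.1 = α} = (a : Set V₀) := by
        ext α
        constructor
        · rintro ⟨t, ht, rfl⟩
          rw [hT] at ht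
          exact ht.1
        · intro hα
          refine ⟨(α, 0), ?_, rfl⟩
          rw [hT]
          exact ⟨hα, rfl⟩
      rw [h1, Subgroup.closure_eq]
    have h3 := hye ℓ M hM h2 V₀ G E₀ hq B hB D hD (ℓ ^ r) m hpe a ha κ hκ T hcl
    have hQL : QL E₀ (LT T) = {w : MulAut V₀ × V₀ | w.1 ∈ St E₀ a} := by
      ext w
      constructor
      · rintro ⟨h4, h5⟩
        refine ⟨h4, fun α hα => ?_⟩
        have h6 := h5 (α, α, 0) ⟨(α, 0), by rw [hT]; exact ⟨hα, rfl⟩, rfl⟩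
        change w.1 (α * w.2 ^ (0 : ℤ)) = α at h6
        rwa [zpow_zero, mul_one] at h6
      · rintro ⟨h4, h5⟩
        refine ⟨h4, ?_⟩
        rintro _ ⟨⟨α, i⟩, ht, rfl⟩
        rw [hT] at ht
        obtain ⟨hα, hi⟩ := ht
        change i = 0 at hi
        subst hi
        change w.1 (α * w.2 ^ ((0 : ℕ) : ℤ)) = α
        rw [Nat.cast_zero, zpow_zero, mul_one]
        exact h5 α hα
    rw [← hQL, ← h3]
    unfold HY SE1
    have hset : ∀ g : G, {w : G × G | SO.kap w.1 w.2 = g ∧ ∀ t ∈ T,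
        B.i t.1 * w.1 = w.1 * B.i t.1 ∧ w.2⁻¹ * B.i t.1 * w.2 = B.i t.1 * (w.1 ^ m) ^ t.2} =
        {w : G × G | SO.kap w.1 w.2 = g ∧ (w.1 ∈ B.C a ∧ w.2 ∈ B.C a)} := by
      intro g
      ext w
      refine and_congr_right fun _ => ?_
      unfold Bk.C
      rw [Subgroup.mem_centralizer_iff, Subgroup.mem_centralizer_iff]
      constructor
      · intro h4
        constructor
        · rintro _ ⟨α, hα, rfl⟩
          exact (h4 (α, 0) (by rw [hT]; exact ⟨hα, rfl⟩)).1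
        · rintro _ ⟨α, hα, rfl⟩
          have h5 := (h4 (α, 0) (by rw [hT]; exact ⟨hα, rfl⟩)).2
          change w.2⁻¹ * B.i α * w.2 = B.i α * (w.1 ^ m) ^ 0 at h5
          rw [pow_zero, mul_one, mul_assoc, inv_mul_eq_iff_eq_mul] at h5
          exact h5
      · rintro ⟨h4, h5⟩ ⟨α, i⟩ ht
        rw [hT] at ht
        obtain ⟨hα, hi⟩ := ht
        change i = 0 at hi
        subst hi
        refine ⟨h4 _ ⟨α, hα, rfl⟩, ?_⟩
        change w.2⁻¹ * B.i α * w.2 = B.i α * (w.1 ^ m) ^ 0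
        rw [pow_zero, mul_one, mul_assoc, inv_mul_eq_iff_eq_mul]
        exact h5 _ ⟨α, hα, rfl⟩
    simp only [hset]
    rw [frob_sub (B.C a) (tk B κ (D.et a)) hczk.1.sup (Ch B a)
      (fun ψ hψ => ⟨hψ.1, hψ.2.1⟩) (fun ψ h4 h5 h6 => hczk.1.blk ψ h4 h5 h6)]
    exact finsum_mem_congr rfl fun χ hχ => hczk.2 χ hχ
  · intro ζ
    unfold LW
    have hfa : Finite (MulAut V₀) :=
      Finite.of_injective (fun σ : MulAut V₀ => (σ : V₀ → V₀)) DFunLike.coe_injective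
    have hfin : {τ : MulAut V₀ | τ ∈ E₀ ∧ τ ∉ St E₀ a}.Finite := Set.toFinite _
    rw [finsum_mem_eq_finite_toFinset_sum _ hfin, Finset.sum_div]
    refine sum_mem fun τ hτ => ?_
    exact hD.e6 a ha κ hκ τ (hfin.mem_toFinset.1 hτ).1 _

end Pool.Agent.PP.SE.H13
end
end -- Pool.Agent.Helper13_ASE.WTA

section -- Pool.Agent.Helper60_ASE.TS2

/-!
# Squad ASE, row TS2: the part of `F₁₂` with `pL = ⊥` or `qL = ⊥`
-/

open scoped BigOperators

noncomputable section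

namespace Pool.Agent.PP.SE.H60

open Pool.Agent.Helper51_AWC Pool.Agent.Helper79_WRA Pool.Agent.PP Pool.Agent.PP.KF
open Pool.Agent.PP.K9 Pool.Agent.PP.K9.H97 Pool.Agent.PP.H75 Pool.Agent.PP.T3 Pool.Agent.PP.SO
open Pool.Agent.PP.SD Pool.Agent.PP.SO.H48

attribute [local instance] Ideal.Quotient.field

open Classical in
theorem ts2 (hX2C : X2cStmt) (hXEM : XemStmt) (hFVA : FvaStmt) (hMBI : SO.MbiStmt) :
    Ts2Stmt := by
  intro ℓ hℓ M _ hM h2 V₀ G _ _ _ _ E₀ hFq B hSb D hRs n m hPE ρ₁ ρ₂ x₁ x₂ hρ₁ hρ₂ hx₁ hx₂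
    F₁₃ Ψ M₁ M₂ K hFE kc kd α β hα hβ
  let _ : Fintype (Set (SO.SS n V₀)) := Fintype.ofFinite _
  obtain ⟨-, hv, -⟩ := hFVA ℓ V₀ hFq.ex n ρ₁ ρ₂ hPE.pw hρ₁ hρ₂ x₁ x₂ hx₁ hx₂ F₁₃ Ψ M₁ M₂ K
    hFE kc kd
  set F : Set (SO.SS n V₀) → ℚ := F12 ℓ x₁ x₂ Ψ M₁ M₂ K kc kd with hF
  set v : ℚ := (x₁ kc⁻¹ * x₂ kd⁻¹ : ℤ) / (ℓ : ℚ) ^ 2 with hvd
  have hρ1 : ρ₁ 1 = 0 := by
    have h := hρ₁ 1 1
    rw [mul_one] at h
    exact left_eq_add.1 h
  have hρ2 : ρ₂ 1 = 0 := by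
    have h := hρ₂ 1 1
    rw [mul_one] at h
    exact left_eq_add.1 h
  have hvv : ∀ τ : Set (SO.SS n V₀), (∀ s ∈ τ, s.2.2.1 = 1 ∧ s.2.2.2 = 1) → F τ = v := by
    intro τ hτ
    refine hv τ (fun s hs _ _ => hτ s hs) fun s hs => ?_
    rw [(hτ s hs).1, (hτ s hs).2]
    exact ⟨hρ1, hρ2⟩
  set T : ℂ := ∑ᶠ χ ∈ Irr G, cv (α ⊥) χ * cv (β ⊥) χ with hT
  have hterm : ∀ L : Set (SO.SS n V₀), ((mob F L : ℚ) : ℂ) * X12 B m α β L =
      (if L = ∅ then (v : ℂ) * T else 0) +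
      if L ∈ {L : Set (SO.SS n V₀) | pL L ≠ ⊥ ∧ qL L ≠ ⊥} then
        ((mob F L : ℚ) : ℂ) * X12 B m α β L else 0 := by
    intro L
    by_cases hL : L = ∅
    · subst hL
      have hp : pL (∅ : Set (SO.SS n V₀)) = ⊥ :=
        (pL_bot _).2 fun s hs => absurd hs (Set.notMem_empty s)
      rw [if_pos rfl, if_neg (fun h => h.1 hp), (hMBI (SO.SS n V₀) F).2.2.2,
        hvv ∅ fun s hs => absurd hs (Set.notMem_empty s),
        (hXEM ℓ M hM h2 V₀ G E₀ hFq B hSb D hRs).2.1 n m α β hα hβ, add_zero]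
    · have hLn : L.Nonempty := Set.nonempty_iff_ne_empty.2 hL
      rw [if_neg hL, zero_add]
      by_cases hp : pL L = ⊥
      · rw [if_neg (fun h => h.1 hp)]
        by_cases hq : qL L = ⊥
        · have h3 : mob F L = 0 := by
            rw [← (hMBI (SO.SS n V₀) F).2.2.1 L v hLn]
            refine (hMBI (SO.SS n V₀) _).2.1 L fun T hT => ?_
            rw [hvv T fun s hs => ⟨(pL_bot L).1 hp s (hT hs), (qL_bot L).1 hq s (hT hs)⟩, sub_self]
          rw [h3]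
          simp
        · rw [(hX2C ℓ M hM h2 V₀ G E₀ hFq B hSb n m hPE L α β).1 (Or.inl ⟨hp, hq⟩), mul_zero]
      · by_cases hq : qL L = ⊥
        · rw [if_neg (fun h => h.2 hq),
            (hX2C ℓ M hM h2 V₀ G E₀ hFq B hSb n m hPE L α β).1 (Or.inr ⟨hp, hq⟩), mul_zero]
        · rw [if_pos (show L ∈ {L : Set (SO.SS n V₀) | pL L ≠ ⊥ ∧ qL L ≠ ⊥} from ⟨hp, hq⟩)]
  unfold X2N
  rw [fsum, finsum_eq_sum_of_fintype, Finset.sum_congr rfl fun L _ => hterm L,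
    Finset.sum_add_distrib, Finset.sum_ite_eq' Finset.univ ∅, if_pos (Finset.mem_univ _), hvd]
  push_cast
  refine congrArg _ (Finset.sum_congr rfl fun L _ => ?_)
  split_ifs <;> rfl

end Pool.Agent.PP.SE.H60
end
end -- Pool.Agent.Helper60_ASE.TS2

section -- Pool.Agent.Helper60_ASE.TS4

/-!
# Squad ASE, row TS4: the term of `σ` for the elements `fm`
-/

open scoped BigOperators

noncomputable section

namespace Pool.Agent.PP.SE.H60

open Pool.Agent.Helper51_AWC Pool.Agent.Helper79_WRA Pool.Agent.PP Pool.Agent.PP.KF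
open Pool.Agent.PP.K9 Pool.Agent.PP.K9.H97 Pool.Agent.PP.H75 Pool.Agent.PP.T3 Pool.Agent.PP.SO
open Pool.Agent.PP.SD Pool.Agent.PP.SO.H48

attribute [local instance] Ideal.Quotient.field

section gen

variable {V₀ : Type} [CommGroup V₀]

theorem nS_zp (E₀ : Subgroup (MulAut V₀)) (κ : V₀) :
    nS E₀ (Subgroup.zpowers κ) = kE E₀ κ := by
  have h : St E₀ (Subgroup.zpowers κ) = Es E₀ κ := by
    ext σ
    constructor
    · rintro ⟨h1, h2⟩
      exact ⟨h1, h2 κ (Subgroup.mem_zpowers κ)⟩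
    · rintro ⟨h1, h2⟩
      refine ⟨h1, ?_⟩
      intro w hw
      obtain ⟨k, rfl⟩ := Subgroup.mem_zpowers_iff.1 hw
      rw [map_zpow, h2]
  unfold nS kE
  rw [h]

theorem le_eq {ℓ : ℕ} [hℓ : Fact ℓ.Prime] {X Y : Subgroup V₀} (h : X ≤ Y) (hX : X ≠ ⊥)
    (hY : Nat.card Y = ℓ) : X = Y := by
  have hf : Finite Y := by
    apply Nat.finite_of_card_ne_zero
    rw [hY]
    exact hℓ.out.ne_zero
  have hdvd := Subgroup.card_dvd_of_le h
  rw [hY] at hdvd
  rcases (Nat.dvd_prime hℓ.out).1 hdvd with h1 | h1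
  · exact absurd (Subgroup.card_eq_one.1 h1) hX
  · exact Subgroup.eq_of_le_of_card_ge h (by rw [hY, h1])

open Classical in
theorem swp {A X : Type} [Fintype A] [Fintype X] (P : Set A) (π : X → A) (S : X → Prop)
    (g : A → X → ℂ) :
    ∑ᶠ a ∈ P, ∑ᶠ L ∈ {L | π L = a ∧ S L}, g a L =
      ∑ L, if π L ∈ P ∧ S L then g (π L) L else 0 := by
  rw [fsum]
  have h : ∀ a : A, (if a ∈ P then ∑ᶠ L ∈ {L | π L = a ∧ S L}, g a L else 0) =
      ∑ L, if π L = a then (if π L ∈ P ∧ S L then g (π L) L else 0) else 0 := by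
    intro a
    by_cases ha : a ∈ P
    · rw [if_pos ha, fsum]
      refine Finset.sum_congr rfl fun L _ => ?_
      by_cases h1 : π L = a
      · by_cases h2 : S L
        · rw [if_pos (show L ∈ {L | π L = a ∧ S L} from ⟨h1, h2⟩), if_pos h1,
            if_pos ⟨by rw [h1]; exact ha, h2⟩, h1]
        · rw [if_neg (show L ∉ {L | π L = a ∧ S L} from fun h => h2 h.2), if_pos h1,
            if_neg (fun h => h2 h.2)]
      · rw [if_neg (show L ∉ {L | π L = a ∧ S L} from fun h => h1 h.1), if_neg h1]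
    · rw [if_neg ha]
      symm
      refine Finset.sum_eq_zero fun L _ => ?_
      by_cases h1 : π L = a
      · rw [if_pos h1, if_neg (fun h => ha (h1 ▸ h.1))]
      · rw [if_neg h1]
  rw [Finset.sum_congr rfl fun a _ => h a, Finset.sum_comm]
  refine Finset.sum_congr rfl fun L _ => ?_
  rw [Finset.sum_ite_eq, if_pos (Finset.mem_univ _)]

variable {n : ℕ}

theorem aL_le (κ : V₀) (L : Set (SO.SS n V₀)) (h : κ ∈ pL L) : aL κ L ≤ pL L := by
  unfold aL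
  rw [Subgroup.closure_le]
  rintro a ⟨s, hs, rfl⟩
  exact Subgroup.mul_mem _ (Subgroup.pow_mem _ h _) (Subgroup.subset_closure ⟨s, hs, rfl⟩)

theorem pL_le (κ : V₀) (L : Set (SO.SS n V₀)) (h : κ ∈ aL κ L) : pL L ≤ aL κ L := by
  unfold pL
  rw [Subgroup.closure_le]
  rintro p ⟨s, hs, rfl⟩
  have h1 : κ ^ (s.2.1 : ℕ) * s.2.2.1 ∈ aL κ L := Subgroup.subset_closure ⟨s, hs, rfl⟩
  have h2 := Subgroup.mul_mem _ (Subgroup.inv_mem _ (Subgroup.pow_mem _ h (s.2.1 : ℕ))) h1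
  rwa [inv_mul_cancel_left] at h2

open Classical in
/-- the coefficients for `pL` and `aL` are the same -/
theorem ewa (hPRB : PrbStmt) {ℓ : ℕ} [hℓ : Fact ℓ.Prime] [Finite V₀]
    (E₀ : Subgroup (MulAut V₀)) (hFq : Fq ℓ V₀ E₀) (κ : V₀) (L : Set (SO.SS n V₀))
    (hp : pL L ≠ ⊥) (ha : aL κ L ≠ ⊥) :
    (if κ ∈ pL L then (nS E₀ (pL L) : ℂ) else 1) =
      if κ ∈ aL κ L then (nS E₀ (aL κ L) : ℂ) else 1 := by
  have hp7 := (hPRB ℓ V₀ E₀ hFq (pL L)).2.2.2.2.2.2.1 hp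
  have ha7 := (hPRB ℓ V₀ E₀ hFq (aL κ L)).2.2.2.2.2.2.1 ha
  have ht := (hPRB ℓ V₀ E₀ hFq (pL L)).2.2.2.2.2.2.2.1.1
  by_cases h1 : κ ∈ pL L
  · by_cases h2 : κ ∈ aL κ L
    · rw [if_pos h1, if_pos h2, le_antisymm (aL_le κ L h1) (pL_le κ L h2)]
    · rw [if_pos h1, if_neg h2]
      rcases hp7.2 with h3 | h3
      · rw [h3, ht]
        simp
      · exact absurd (by rw [le_eq (aL_le κ L h1) ha h3]; exact h1) h2
  · by_cases h2 : κ ∈ aL κ L
    · rw [if_neg h1, if_pos h2]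
      rcases ha7.2 with h3 | h3
      · rw [h3, ht]
        simp
      · exact absurd (by rw [le_eq (pL_le κ L h2) hp h3]; exact h2) h1
    · rw [if_neg h1, if_neg h2]

theorem zp_mem {ℓ : ℕ} [hℓ : Fact ℓ.Prime] (hV : ∀ v : V₀, v ^ ℓ = 1) (κ : V₀) (k : ℕ)
    (a : Subgroup V₀) (hk : κ ^ k ≠ 1) (h : κ ^ k ∈ a) : κ ∈ a := by
  have h1 : κ ≠ 1 := fun h1 => hk (by rw [h1, one_pow])
  have h2 : Nat.card (Subgroup.zpowers κ) = ℓ := by
    rw [Nat.card_zpowers, orderOf_eq_prime (hV κ) h1]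
  have h3 : Subgroup.zpowers (κ ^ k) = Subgroup.zpowers κ :=
    le_eq (by
      rw [Subgroup.zpowers_le]
      exact Subgroup.pow_mem _ (Subgroup.mem_zpowers κ) _)
      (fun h => hk (Subgroup.zpowers_eq_bot.1 h)) h2
  have h4 : Subgroup.zpowers (κ ^ k) ≤ a := by
    rw [Subgroup.zpowers_le]
    exact h
  rw [h3] at h4
  exact h4 (Subgroup.mem_zpowers κ)

end gen

section blk

variable {V₀ G : Type} [CommGroup V₀] [Group G] [Finite G] {M : Ideal (integralClosure ℤ ℂ)}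
  [M.IsMaximal] {n : ℕ}

omit [M.IsMaximal] in
theorem hx_lin (B : Bk (FF M) V₀ G) (m : ℕ) (W : Subgroup V₀) (z : ℂ) (a b : G → ℂ)
    (L : Set (SO.SS n V₀)) :
    HX B m W (fun g => z * a g - b g) L = z * HX B m W a L - HX B m W b L := by
  let _ : Fintype G := Fintype.ofFinite G
  unfold HX
  rw [finsum_eq_sum_of_fintype, finsum_eq_sum_of_fintype, finsum_eq_sum_of_fintype,
    mul_left_comm z, ← mul_sub]
  congr 1
  rw [Finset.mul_sum, ← Finset.sum_sub_distrib]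
  refine Finset.sum_congr rfl fun g _ => ?_
  ring

omit [M.IsMaximal] in
theorem hx_zero (B : Bk (FF M) V₀ G) (m : ℕ) (W : Subgroup V₀) (b : G → ℂ) (hb : ∀ g, b g = 0)
    (L : Set (SO.SS n V₀)) : HX B m W b L = 0 := by
  let _ : Fintype G := Fintype.ofFinite G
  unfold HX
  rw [finsum_eq_sum_of_fintype, Finset.sum_eq_zero fun g _ => by rw [hb, zero_mul], mul_zero]

open Classical in
/-- the value at `fm` -/
theorem hx_fm (hHXY : HxyStmt) (hPRB : PrbStmt) {ℓ : ℕ} [hℓ : Fact ℓ.Prime] [Finite V₀]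
    (hM : (ℓ : integralClosure ℤ ℂ) ∈ M)
    (E₀ : Subgroup (MulAut V₀)) (hFq : Fq ℓ V₀ E₀) (B : Bk (FF M) V₀ G) (hSb : Sb ℓ M E₀ B)
    (D : Rd V₀ G) (hRs : Rs ℓ E₀ B D) (m : ℕ) (hPE : PE ℓ n m G) (κ : V₀)
    (L : Set (SO.SS n V₀)) (hp : pL L ≠ ⊥) :
    HX B m (pL L) (fm ℓ E₀ B D (pL L) κ) L =
      (if κ ∈ pL L then (nS E₀ (pL L) : ℂ) else 1) * HK B m κ L -
      if pL L ∈ RL ℓ E₀ ∧ κ ∉ pL L then
        HX B m (pL L) (tk B (pr ℓ E₀ (pL L) κ) (D.et (pL L))) L else 0 := by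
  have h1 : fm ℓ E₀ B D (pL L) κ = fun g =>
      (if κ ∈ pL L then (nS E₀ (pL L) : ℂ) else 1) * fc B (pL L) κ g -
        (fun g => if κ ∈ pL L then 0 else tk B (pr ℓ E₀ (pL L) κ) (D.et (pL L)) g) g := rfl
  rw [h1, hx_lin, (hHXY ℓ M hM V₀ G E₀ hFq B hSb n m hPE L κ).1]
  congr 1
  by_cases h2 : κ ∈ pL L
  · rw [if_neg (fun h => h.2 h2)]
    exact hx_zero _ _ _ _ (fun g => if_pos h2) _
  · by_cases h3 : pL L ∈ RL ℓ E₀
    · rw [if_pos ⟨h3, h2⟩]
      congr 1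
      funext g
      exact if_neg h2
    · rw [if_neg (fun h => h3 h.1)]
      have h4 := ((hPRB ℓ V₀ E₀ hFq (pL L)).2.2.2.2.2.2.1 hp).1.resolve_right h3
      have h5 := (hRs.f1 (pL L) hp h4).1
      refine hx_zero _ _ _ _ (fun g => ?_) _
      rw [if_neg h2, h5]
      rfl

omit [M.IsMaximal] in
/-- the sum `LL` at the label of `κ` -/
theorem ll_mnl (E₀ : Subgroup (MulAut V₀)) (B : Bk (FF M) V₀ G) (κ : V₀) :
    LL B (mnl E₀ B κ ⊥) = (kE E₀ κ : ℂ) * L1 B κ := by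
  have h1 : mnl E₀ B κ ⊥ = fun g => (kE E₀ κ : ℂ) * fc B ⊥ κ g := by
    funext g
    unfold mnl
    rw [if_pos bot_le]
  have h2 : ∀ χ : G → ℂ, cv (mnl E₀ B κ ⊥) χ = (kE E₀ κ : ℂ) * cv (fc B ⊥ κ) χ := by
    intro χ
    let _ : Fintype G := Fintype.ofFinite G
    rw [h1]
    unfold cv
    rw [finsum_eq_sum_of_fintype, finsum_eq_sum_of_fintype, ← mul_div_assoc, Finset.mul_sum]
    congr 1
    refine Finset.sum_congr rfl fun g _ => ?_
    ring
  unfold LL L1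
  rw [finsum_mem_congr rfl fun χ _ => h2 χ, finsum_mem_def, finsum_mem_def, ← smul_eq_mul,
    smul_finsum]
  refine finsum_congr fun χ => ?_
  by_cases hχ : χ ∈ IrrE M B.e
  · rw [Set.indicator_of_mem hχ, Set.indicator_of_mem hχ, smul_eq_mul]
  · rw [Set.indicator_of_notMem hχ, Set.indicator_of_notMem hχ, smul_zero]

end blk

open Classical in
/-- Row TS4. -/
theorem ts4 (hHXY : HxyStmt) (hHKF : HkfStmt) (hM12 : SO.M12Stmt) (hPRB : PrbStmt)
    (hMBI : SO.MbiStmt) : Ts4Stmt := by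
  intro ℓ hℓ M _ hM h2 V₀ G _ _ _ _ E₀ hFq B hSd D hRs n m hn hPE F v v' hv hg c d σ hσ
  have hSb : Sb ℓ M E₀ B := hSd.toSb
  let _ : Fintype (Set (SO.SS n V₀)) := Fintype.ofFinite _
  let _ : Fintype (Subgroup V₀) := Fintype.ofFinite _
  have hMB3 := (hMBI (SO.SS n V₀) F).2.2.1
  set F' : Set (SO.SS n V₀) → ℚ := fun T => F T - v with hF'
  have hFmob : ∀ L : Set (SO.SS n V₀), L.Nonempty → mob F L = mob F' L := fun L hL =>
    (hMB3 L v hL).symm
  have hvv : ∀ τ : Set (SO.SS n V₀), (∀ s ∈ τ, s.2.2.1 = 1 ∧ s.2.2.2 = 1) → F τ = v :=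
    fun τ hτ => hv τ (fun s hs _ _ => hτ s hs) hτ
  have hF0 : ∀ L : Set (SO.SS n V₀), pL L = ⊥ → qL L = ⊥ → mob F' L = 0 := by
    intro L h1 h2
    refine (hMBI (SO.SS n V₀) F').2.1 L fun T hT => ?_
    have h3 := hvv T fun s hs => ⟨(pL_bot L).1 h1 s (hT hs), (qL_bot L).1 h2 s (hT hs)⟩
    simp only [hF']
    rw [h3, sub_self]
  have hRb : ∀ W : Subgroup V₀, W ∈ RL ℓ E₀ → W ≠ ⊥ := by
    rintro W ⟨h1, -⟩ rfl
    rw [Subgroup.card_bot] at h1
    exact hℓ.out.one_lt.ne h1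
  set κ : V₀ := c * σ d with hκd
  set S : Set (SO.SS n V₀) → Prop := fun L => ∀ s ∈ L, σ s.2.2.2 = s.2.2.1 with hS
  -- the four parts
  set Pt : Set (SO.SS n V₀) → ℂ := fun L => if pL L ≠ ⊥ ∧ S L ∧ aL κ L ≠ ⊥ then
    ((mob F L * (cS D.U c d σ (pL L) * (ux D.U (aL κ L) κ *
      (N12 E₀ κ L + M12 ℓ E₀ D.fx κ L))) : ℚ) : ℂ) else 0 with hPt
  set Dt : Set (SO.SS n V₀) → ℂ := fun L =>
    if aL κ L ∈ {a : Subgroup V₀ | a ∈ RL ℓ E₀ ∧ κ ∉ a} ∧ S L then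
      ((cS D.U c d σ (pL L) * mob F L : ℚ) : ℂ) * ∑ᶠ w ∈ QL E₀ (LT (TL κ L)),
        wtE ℓ E₀ B D (aL κ L) (pr ℓ E₀ (aL κ L) κ) w.1 w.2 else 0 with hDt
  set Wt : Set (SO.SS n V₀) → ℂ := fun L =>
    if pL L ∈ {a : Subgroup V₀ | a ∈ RL ℓ E₀ ∧ κ ∉ a} ∧ S L then
      ((cS D.U c d σ (pL L) : ℚ) : ℂ) * (((mob F L : ℚ) : ℂ) *
        HX B m (pL L) (tk B (pr ℓ E₀ (pL L) κ) (D.et (pL L))) L) else 0 with hWt
  set Xt : Set (SO.SS n V₀) → ℂ := fun L => if pL L ≠ ⊥ ∧ S L ∧ aL κ L = ⊥ then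
    ((cS D.U c d σ (Subgroup.zpowers κ) : ℚ) : ℂ) * ((kE E₀ κ : ℂ) *
      (((mob F' L : ℚ) : ℂ) * HK B m κ L)) else 0 with hXt
  have hP1 : ∀ L, pL L ≠ ⊥ ∧ S L ∧ aL κ L ≠ ⊥ → Pt L =
      ((mob F L * (cS D.U c d σ (pL L) * (ux D.U (aL κ L) κ *
        (N12 E₀ κ L + M12 ℓ E₀ D.fx κ L))) : ℚ) : ℂ) := fun L h => if_pos h
  have hP0 : ∀ L, ¬ (pL L ≠ ⊥ ∧ S L ∧ aL κ L ≠ ⊥) → Pt L = 0 := fun L h => if_neg h
  have hD1 : ∀ L, aL κ L ∈ {a : Subgroup V₀ | a ∈ RL ℓ E₀ ∧ κ ∉ a} ∧ S L → Dt L =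
      ((cS D.U c d σ (pL L) * mob F L : ℚ) : ℂ) * ∑ᶠ w ∈ QL E₀ (LT (TL κ L)),
        wtE ℓ E₀ B D (aL κ L) (pr ℓ E₀ (aL κ L) κ) w.1 w.2 := fun L h => if_pos h
  have hD0 : ∀ L, ¬ (aL κ L ∈ {a : Subgroup V₀ | a ∈ RL ℓ E₀ ∧ κ ∉ a} ∧ S L) → Dt L = 0 :=
    fun L h => if_neg h
  have hW1 : ∀ L, pL L ∈ {a : Subgroup V₀ | a ∈ RL ℓ E₀ ∧ κ ∉ a} ∧ S L → Wt L =
      ((cS D.U c d σ (pL L) : ℚ) : ℂ) * (((mob F L : ℚ) : ℂ) *
        HX B m (pL L) (tk B (pr ℓ E₀ (pL L) κ) (D.et (pL L))) L) := fun L h => if_pos h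
  have hW0 : ∀ L, ¬ (pL L ∈ {a : Subgroup V₀ | a ∈ RL ℓ E₀ ∧ κ ∉ a} ∧ S L) → Wt L = 0 :=
    fun L h => if_neg h
  have hX1 : ∀ L, pL L ≠ ⊥ ∧ S L ∧ aL κ L = ⊥ → Xt L =
      ((cS D.U c d σ (Subgroup.zpowers κ) : ℚ) : ℂ) * ((kE E₀ κ : ℂ) *
        (((mob F' L : ℚ) : ℂ) * HK B m κ L)) := fun L h => if_pos h
  have hX0 : ∀ L, ¬ (pL L ≠ ⊥ ∧ S L ∧ aL κ L = ⊥) → Xt L = 0 := fun L h => if_neg h
  have hterm : ∀ L : Set (SO.SS n V₀),
      (if L ∈ {L : Set (SO.SS n V₀) | pL L ≠ ⊥ ∧ ∀ s ∈ L, σ s.2.2.2 = s.2.2.1} then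
        ((cS D.U c d σ (pL L) * mob F L : ℚ) : ℂ) *
          HX B m (pL L) (fm ℓ E₀ B D (pL L) κ) L else 0) = Pt L + Dt L - Wt L + Xt L := by
    intro L
    by_cases hSL : S L
    · by_cases hp : pL L = ⊥
      · have hD2 : ¬ (aL κ L ∈ {a : Subgroup V₀ | a ∈ RL ℓ E₀ ∧ κ ∉ a} ∧ S L) := by
          rintro ⟨⟨h3, h4⟩, -⟩
          apply hRb _ h3
          rw [aL_bot]
          intro s hs
          have h5 := (pL_bot L).1 hp s hs
          rw [h5, mul_one]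
          by_contra h6
          refine h4 (zp_mem (ℓ := ℓ) hFq.ex κ _ _ h6 ?_)
          have h7 : κ ^ (s.2.1 : ℕ) * s.2.2.1 ∈ aL κ L := Subgroup.subset_closure ⟨s, hs, rfl⟩
          rwa [h5, mul_one] at h7
        rw [if_neg (fun h => h.1 hp), hP0 L (fun h => h.1 hp), hD0 L hD2,
          hW0 L (fun h => hRb _ h.1.1 hp), hX0 L (fun h => h.1 hp)]
        simp
      · rw [if_pos (show L ∈ {L : Set (SO.SS n V₀) | pL L ≠ ⊥ ∧ ∀ s ∈ L, σ s.2.2.2 = s.2.2.1}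
          from ⟨hp, hSL⟩), hx_fm hHXY hPRB hM E₀ hFq B hSb D hRs m hPE κ L hp]
        have hWv : Wt L = ((cS D.U c d σ (pL L) : ℚ) : ℂ) * (((mob F L : ℚ) : ℂ) *
            if pL L ∈ RL ℓ E₀ ∧ κ ∉ pL L then
              HX B m (pL L) (tk B (pr ℓ E₀ (pL L) κ) (D.et (pL L))) L else 0) := by
          by_cases h3 : pL L ∈ RL ℓ E₀ ∧ κ ∉ pL L
          · rw [if_pos h3, hW1 L ⟨h3, hSL⟩]
          · rw [if_neg h3, hW0 L (fun h => h3 h.1)]
            simp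
        rw [hWv]
        by_cases ha : aL κ L = ⊥
        · have hκ : κ ≠ 1 := by
            intro hκ
            apply hp
            rw [pL_bot]
            intro s hs
            have h4 := (aL_bot _ L).1 ha s hs
            rwa [hκ, one_pow, one_mul] at h4
          have hz : pL L = Subgroup.zpowers κ := by
            refine pL_zp (ℓ := ℓ) hFq.ex hκ L (fun s hs => ?_) hp
            have h4 := (aL_bot _ L).1 ha s hs
            rw [inv_pow]
            exact (inv_eq_of_mul_eq_one_right h4).symm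
          have hLn : L.Nonempty := by
            rw [Set.nonempty_iff_ne_empty]
            rintro rfl
            exact hp ((pL_bot _).2 fun s hs => absurd hs (Set.notMem_empty s))
          rw [hP0 L (fun h => h.2.2 ha), hD0 L (fun h => hRb _ h.1.1 ha),
            hX1 L ⟨hp, hSL, ha⟩, ← hFmob L hLn, hz,
            if_pos (Subgroup.mem_zpowers κ), nS_zp]
          push_cast
          ring
        · have hH := hHKF ℓ M hM h2 V₀ G E₀ hFq B hSd D hRs n m hPE κ L ha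
          rw [ewa hPRB E₀ hFq κ L hp ha, hH]
          have hDv : Dt L = ((cS D.U c d σ (pL L) * mob F L : ℚ) : ℂ) *
              if κ ∉ aL κ L ∧ aL κ L ∈ RL ℓ E₀ then ∑ᶠ w ∈ QL E₀ (LT (TL κ L)),
                wtE ℓ E₀ B D (aL κ L) (pr ℓ E₀ (aL κ L) κ) w.1 w.2 else 0 := by
            by_cases h3 : κ ∉ aL κ L ∧ aL κ L ∈ RL ℓ E₀
            · rw [if_pos h3, hD1 L ⟨⟨h3.2, h3.1⟩, hSL⟩]
            · rw [if_neg h3, hD0 L (fun h => h3 ⟨h.1.2, h.1.1⟩)]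
              simp
          rw [hDv, hP1 L ⟨hp, hSL, ha⟩, hX0 L (fun h => ha h.2.2)]
          push_cast
          ring
    · rw [if_neg (fun h => hSL h.2), hP0 L (fun h => hSL h.2.1), hD0 L (fun h => hSL h.2),
        hW0 L (fun h => hSL h.2), hX0 L (fun h => hSL h.2.1)]
      simp
  -- the four sums
  have hPs : ((P12S ℓ E₀ D.U D.fx c d σ F : ℚ) : ℂ) = ∑ L, Pt L := by
    unfold P12S
    rw [fsum, Rat.cast_sum]
    refine Finset.sum_congr rfl fun L _ => ?_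
    by_cases h3 : pL L ≠ ⊥ ∧ S L ∧ aL κ L ≠ ⊥
    · rw [hP1 L h3, if_pos (show L ∈ {L : Set (SO.SS n V₀) | pL L ≠ ⊥ ∧
        (∀ s ∈ L, σ s.2.2.2 = s.2.2.1) ∧ aL (c * σ d) L ≠ ⊥} from h3)]
    · rw [hP0 L h3, if_neg (show L ∉ {L : Set (SO.SS n V₀) | pL L ≠ ⊥ ∧
        (∀ s ∈ L, σ s.2.2.2 = s.2.2.1) ∧ aL (c * σ d) L ≠ ⊥} from h3), Rat.cast_zero]
  have hDs : (∑ᶠ a ∈ {a : Subgroup V₀ | a ∈ RL ℓ E₀ ∧ κ ∉ a}, DAS ℓ E₀ B D c d σ a F) =
      ∑ L, Dt L := by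
    have h3 := swp {a : Subgroup V₀ | a ∈ RL ℓ E₀ ∧ κ ∉ a} (fun L : Set (SO.SS n V₀) => aL κ L) S
      (fun a L => ((cS D.U c d σ (pL L) * mob F L : ℚ) : ℂ) * ∑ᶠ w ∈ QL E₀ (LT (TL κ L)),
        wtE ℓ E₀ B D a (pr ℓ E₀ a κ) w.1 w.2)
    refine Eq.trans h3 (Finset.sum_congr rfl fun L _ => ?_)
    by_cases h4 : aL κ L ∈ {a : Subgroup V₀ | a ∈ RL ℓ E₀ ∧ κ ∉ a} ∧ S L
    · rw [hD1 L h4, if_pos h4]
    · rw [hD0 L h4, if_neg h4]
  have hWs : (∑ᶠ a ∈ {a : Subgroup V₀ | a ∈ RL ℓ E₀ ∧ κ ∉ a}, ((cS D.U c d σ a : ℚ) : ℂ) *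
      FWS B m σ a F (tk B (pr ℓ E₀ a κ) (D.et a))) = ∑ L, Wt L := by
    have h3 := swp {a : Subgroup V₀ | a ∈ RL ℓ E₀ ∧ κ ∉ a} (fun L : Set (SO.SS n V₀) => pL L) S
      (fun a L => ((cS D.U c d σ a : ℚ) : ℂ) * (((mob F L : ℚ) : ℂ) *
        HX B m a (tk B (pr ℓ E₀ a κ) (D.et a)) L))
    refine Eq.trans (finsum_mem_congr rfl fun a _ => ?_)
      (Eq.trans h3 (Finset.sum_congr rfl fun L _ => ?_))
    swap
    · by_cases h4 : pL L ∈ {a : Subgroup V₀ | a ∈ RL ℓ E₀ ∧ κ ∉ a} ∧ S L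
      · rw [hW1 L h4, if_pos h4]
      · rw [hW0 L h4, if_neg h4]
    unfold FWS
    rw [fsum, fsum, Finset.mul_sum]
    refine Finset.sum_congr rfl fun L _ => ?_
    by_cases h4 : pL L = a ∧ S L
    · rw [if_pos (show L ∈ {L : Set (SO.SS n V₀) | pL L = a ∧ ∀ s ∈ L, σ s.2.2.2 = s.2.2.1}
        from h4), if_pos (show L ∈ {L : Set (SO.SS n V₀) | pL L = a ∧ S L} from h4)]
    · rw [if_neg (show L ∉ {L : Set (SO.SS n V₀) | pL L = a ∧ ∀ s ∈ L, σ s.2.2.2 = s.2.2.1}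
        from h4), if_neg (show L ∉ {L : Set (SO.SS n V₀) | pL L = a ∧ S L} from h4), mul_zero]
  have hXs : ∑ L, Xt L = -(if κ ≠ 1 then ((cS D.U c d σ (Subgroup.zpowers κ) *
      v' κ⁻¹ (σ⁻¹ κ)⁻¹ : ℚ) : ℂ) * LL B (mnl E₀ B κ ⊥) else 0) := by
    by_cases hκ : κ = 1
    · rw [if_neg (fun h => h hκ), neg_zero]
      refine Finset.sum_eq_zero fun L _ => ?_
      refine hX0 L ?_
      rintro ⟨hp, -, ha⟩
      apply hp
      rw [pL_bot]
      intro s hs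
      have h4 := (aL_bot _ L).1 ha s hs
      rwa [hκ, one_pow, one_mul] at h4
    · rw [if_pos hκ, ll_mnl]
      have hval : ∀ L : Set (SO.SS n V₀), Xt L =
          ((cS D.U c d σ (Subgroup.zpowers κ) : ℚ) : ℂ) * ((kE E₀ κ : ℂ) *
            if L ∈ tz κ (σ⁻¹ κ) then (mob F' L : ℂ) * HK B m κ L else 0) := by
        intro L
        by_cases hL : L ∈ tz κ (σ⁻¹ κ)
        · obtain ⟨h1, h3⟩ := (tz_iff E₀ σ hσ κ L).1 hL
          rw [if_pos hL]
          by_cases hp : pL L = ⊥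
          · have hq : qL L = ⊥ := by
              rw [qL_bot]
              intro s hs
              have h4 := h1.2 s hs
              rw [(pL_bot L).1 hp s hs] at h4
              exact (map_eq_one_iff σ σ.injective).1 h4
            rw [hX0 L (fun h => h.1 hp), hF0 L hp hq]
            simp
          · rw [hX1 L ⟨hp, h1.2, h3⟩]
        · rw [if_neg hL, hX0 L]
          · simp
          · rintro ⟨-, h1, h3⟩
            exact hL ((tz_iff E₀ σ hσ κ L).2 ⟨⟨hσ, h1⟩, h3⟩)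
      have hv' := hM12 ℓ M hM V₀ G E₀ hFq.ex B hSb n m κ (σ⁻¹ κ) hκ F'
        (-(v' κ⁻¹ (σ⁻¹ κ)⁻¹)) hn (by
          intro I hI
          have h11 := hg κ⁻¹ (σ⁻¹ κ)⁻¹ I hI
          simp only [hF']
          rw [h11]
          ring)
      rw [Finset.sum_congr rfl fun L _ => hval L, ← Finset.mul_sum, ← Finset.mul_sum]
      have hv2 : ∑ L, (if L ∈ tz κ (σ⁻¹ κ) then (mob F' L : ℂ) * HK B m κ L else 0)
          = ((-(v' κ⁻¹ (σ⁻¹ κ)⁻¹) : ℚ) : ℂ) * L1 B κ := by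
        rw [← hv', fsum]
        rfl
      rw [hv2]
      push_cast
      ring
  have hT : T0S ℓ E₀ B D m c d σ F = ∑ L, (Pt L + Dt L - Wt L + Xt L) := by
    unfold T0S
    rw [fsum]
    refine Finset.sum_congr rfl fun L _ => Eq.trans ?_ (hterm L)
    by_cases h4 : L ∈ {L : Set (SO.SS n V₀) | pL L ≠ ⊥ ∧ ∀ s ∈ L, σ s.2.2.2 = s.2.2.1}
    · rw [if_pos h4, if_pos h4]
    · rw [if_neg h4, if_neg h4]
  rw [hT, Finset.sum_add_distrib, Finset.sum_sub_distrib, Finset.sum_add_distrib, hXs, ← hPs,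
    ← hDs, ← hWs]
  ring

end Pool.Agent.PP.SE.H60
end
end -- Pool.Agent.Helper60_ASE.TS4
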