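import Pool.Agent.Helper12_AWB.B217

/-!
# Merged copies (generated) of the modules

* `Pool.Agent.Helper83_ASE.GCO`
* `Pool.Agent.Helper16_ASE.MQA`
* `Pool.Agent.Helper20_ASE.EIV`
* `Pool.Agent.Helper30_ASE.TS5`
* `Pool.Agent.Helper44_ASE.MQC`
* `Pool.Agent.Helper56_ASE.GXA`
* `Pool.Agent.Helper56_ASE.TS3`
* `Pool.Agent.Helper59_ASE.TS1`
* `Pool.Agent.Helper72_ASE.GSC`
* `Pool.Agent.Helper84_ASE.GDH`
* `Pool.Agent.Helper96_ASE.KLP`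
* `Pool.Agent.Helper97_ASE.MQB`
-/

set_option autoImplicit false

section -- Pool.Agent.Helper83_ASE.GCO

/-!
# Squad ASE, row GCO: the conclusion of the linear algebra
-/

open scoped BigOperators

set_option linter.unusedSectionVars false

noncomputable section

namespace Pool.Agent.PP.SE.H83

open Pool.Agent.Helper51_AWC Pool.Agent.Helper79_WRA Pool.Agent.PP Pool.Agent.PP.KF
open Pool.Agent.PP.K9 Pool.Agent.PP.K9.H97 Pool.Agent.PP.H75 Pool.Agent.PP.T3 Pool.Agent.PP.SO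
open Pool.Agent.PP.SD

theorem gco (gid : GidStmt) (gsc : GscStmt) (gdi : GdiStmt) (lhf : SO.LHfStmt)
    (lia : SO.LIaStmt) : GcoStmt := by
  intro ℓ _ V Γ I _ _ _ _ _ _ ρ P Z F FF N Y s₀ hLP hF0 hFFd hLF hLX
  rcases isEmpty_or_nonempty I with hI | hI
  · have hFF : FF = F := by
      funext v
      by_cases hv : v = 0
      · rw [hv, hFFd.1, hF0]
      · rw [hFFd.2 v hv, Finset.univ_eq_empty, Finset.sum_empty, add_zero]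
    have hLF' : LF ρ F (Fintype.card Γ * s₀) := by
      have h1 := hLF
      rw [hFF, Finset.univ_eq_empty, Finset.sum_empty, add_zero] at h1
      exact h1
    refine lia ℓ V Γ ρ F N s₀ hLF' ⟨?_, hLX.n2⟩
    intro φ ψ c d hc hd
    have h1 := hLX.n1 φ ψ c d hc hd
    simp only [Finset.univ_eq_empty, Finset.sum_empty, sub_zero] at h1
    exact h1
  · obtain ⟨h, hh⟩ := lhf ℓ V Γ ρ FF _ hLF
    have hG := gid ℓ V Γ I ρ P Z F FF N Y s₀ h hLP hFFd hLF hh hLX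
    by_cases hA : ∀ A : Module.End (ZMod ℓ) V, ∃ a : ZMod ℓ, ∑ e : Γ, ρ e * A * ρ e⁻¹ = a • 1
    · exact gsc ℓ V Γ I ρ P Z FF s₀ h hLP hLF hh hG hA
    · push Not at hA
      obtain ⟨A, hA⟩ := hA
      obtain ⟨a₀⟩ := hI
      refine gdi ℓ V Γ I ρ P Z FF s₀ h hLP hLF hh hG a₀ (∑ e : Γ, ρ e * A * ρ e⁻¹) hA ?_
      intro e
      rw [Finset.sum_mul, Finset.mul_sum]
      refine Fintype.sum_equiv (Equiv.mulLeft e⁻¹) _ _ fun x => ?_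
      show ρ x * A * ρ x⁻¹ * ρ e = ρ e * (ρ (e⁻¹ * x) * A * ρ (e⁻¹ * x)⁻¹)
      rw [mul_inv_rev, inv_inv, map_mul, map_mul, ← mul_assoc, ← mul_assoc, ← mul_assoc,
        ← mul_assoc, ← map_mul ρ e, mul_inv_cancel, map_one, one_mul]

end Pool.Agent.PP.SE.H83
end
end -- Pool.Agent.Helper83_ASE.GCO

section -- Pool.Agent.Helper16_ASE.MQA

/-!
# Squad ASE, row MQA: a change of the lift at `c⁻¹`
-/

open scoped BigOperators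

noncomputable section

namespace Pool.Agent.PP.SE.H16

open Pool.Agent.Helper51_AWC Pool.Agent.Helper79_WRA Pool.Agent.PP Pool.Agent.PP.KF
open Pool.Agent.PP.K9 Pool.Agent.PP.K9.H97 Pool.Agent.PP.H75 Pool.Agent.PP.T3 Pool.Agent.PP.SO
open Pool.Agent.PP.SD

attribute [local instance] Ideal.Quotient.field

theorem mem_fin (R : Subring ℚ) {ι : Type} (s : Set ι) (f : ι → ℚ) (h : ∀ i ∈ s, f i ∈ R) :
    ∑ᶠ i ∈ s, f i ∈ R :=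
  finsum_mem_induction (fun x => x ∈ R) R.zero_mem (fun _ _ => R.add_mem) h

theorem sub_fin (R : Subring ℚ) {ι : Type} [Finite ι] (s : Set ι) (f g : ι → ℚ)
    (h : ∀ i ∈ s, f i - g i ∈ R) : ∑ᶠ i ∈ s, f i - ∑ᶠ i ∈ s, g i ∈ R := by
  rw [← finsum_mem_sub_distrib _ _ s.toFinite]
  exact mem_fin R s _ h

/-- MQA -/
theorem mqa (prb : PrbStmt) (csb : CsbStmt) : MqaStmt := by
  intro ℓ hfact M _ V₀ G _ _ _ _ E₀ hF B D hRs d₁ n₁ z₁ y₁ hE ρ₁ ρ₂ hρ₁ hρ₂ c d hc hd hρc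
  have hℓ : ℓ.Prime := hfact.out
  have hℓ0 : (ℓ : ℚ) ≠ 0 := by exact_mod_cast hℓ.ne_zero
  have hρ1 : ρ₁ 1 = 0 := by
    have := hρ₁ 1 1
    rw [mul_one] at this
    exact left_eq_add.1 this
  -- the difference of the lifts
  have hx1 : ∀ v, v ≠ c⁻¹ → lf ρ₁ c⁻¹ v = lf ρ₁ 1 v := by
    intro v hv
    unfold lf
    rw [if_neg (fun h => hv h.1), if_neg]
    rintro ⟨h1, h2⟩
    rw [h1] at h2
    exact h2 hρ1
  have hx2 : lf ρ₁ c⁻¹ c⁻¹ = lf ρ₁ 1 c⁻¹ + ℓ := by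
    unfold lf
    rw [if_pos ⟨rfl, hρc⟩, if_neg, add_zero]
    rintro ⟨h1, -⟩
    exact hc (inv_eq_one.1 h1)
  obtain ⟨x, hx⟩ : ∃ x : V₀ → ℤ, x = lf ρ₁ 1 := ⟨_, rfl⟩
  obtain ⟨x', hx'⟩ : ∃ x : V₀ → ℤ, x = lf ρ₁ c⁻¹ := ⟨_, rfl⟩
  obtain ⟨x₂, hx₂⟩ : ∃ x : V₀ → ℤ, x = lf ρ₂ 1 := ⟨_, rfl⟩
  rw [← hx, ← hx'] at hx1 hx2
  rw [← hx, ← hx', ← hx₂]
  have hprm : ∀ a ∈ RL ℓ E₀, ∀ v, pr ℓ E₀ a v ∈ a := fun a ha => (prb ℓ V₀ E₀ hF a).2.2.2.2.1 ha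
  have hbot : ∀ a ∈ RL ℓ E₀, a ≠ ⊥ := by
    rintro a ⟨ha, -⟩ h
    rw [h, Subgroup.card_bot] at ha
    exact hℓ.one_lt.ne ha
  have hcS : ∀ a ∈ RL ℓ E₀, ∀ σ, cS D.U c d σ a ∈ SOR.Rl ℓ := by
    intro a ha σ
    obtain ⟨q, hq, hq'⟩ := (csb ℓ V₀ D.U D.U a 0 (hRs.u1 a (hbot a ha)) (hRs.u1 a (hbot a ha))
      ⟨0, Subring.zero_mem _, by rw [sub_self, mul_zero]⟩ c d σ).1
    rw [hq']
    exact Subring.add_mem _ (Subring.one_mem _) (Subring.mul_mem _ (natCast_mem _ ℓ) hq)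
  have hint : ∀ k : ℤ, (k : ℚ) ∈ SOR.Rl ℓ := fun k => intCast_mem _ k
  -- the second sum
  have h2 : ∑ᶠ a ∈ {a : Subgroup V₀ | a ∈ RL ℓ E₀ ∧ c ∉ a},
        ((x' (pr ℓ E₀ a c)⁻¹ * x₂ d⁻¹ : ℤ) : ℚ) / (ℓ : ℚ) ^ 2 * y₁ a (pr ℓ E₀ a c) d =
      ∑ᶠ a ∈ {a : Subgroup V₀ | a ∈ RL ℓ E₀ ∧ c ∉ a},
        ((x (pr ℓ E₀ a c)⁻¹ * x₂ d⁻¹ : ℤ) : ℚ) / (ℓ : ℚ) ^ 2 * y₁ a (pr ℓ E₀ a c) d := by
    refine finsum_mem_congr rfl fun a ha => ?_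
    rw [hx1]
    intro h
    apply ha.2
    have h3 := hprm a ha.1 c
    rwa [inv_injective h] at h3
  -- the third sum
  have h3 : ∑ᶠ b ∈ {b : Subgroup V₀ | b ∈ RL ℓ E₀ ∧ d ∉ b},
        ((x' c⁻¹ * x₂ (pr ℓ E₀ b d)⁻¹ : ℤ) : ℚ) / (ℓ : ℚ) ^ 2 * y₁ b (pr ℓ E₀ b d) c -
      ∑ᶠ b ∈ {b : Subgroup V₀ | b ∈ RL ℓ E₀ ∧ d ∉ b},
        ((x c⁻¹ * x₂ (pr ℓ E₀ b d)⁻¹ : ℤ) : ℚ) / (ℓ : ℚ) ^ 2 * y₁ b (pr ℓ E₀ b d) c ∈
      SOR.Rl ℓ := by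
    apply sub_fin
    intro b hb
    obtain ⟨q, hq, hq'⟩ := hE.yr b hb.1 (pr ℓ E₀ b d) (hprm b hb.1 d) c hc
    have e1 : ((x' c⁻¹ * x₂ (pr ℓ E₀ b d)⁻¹ : ℤ) : ℚ) / (ℓ : ℚ) ^ 2 * y₁ b (pr ℓ E₀ b d) c -
        ((x c⁻¹ * x₂ (pr ℓ E₀ b d)⁻¹ : ℤ) : ℚ) / (ℓ : ℚ) ^ 2 * y₁ b (pr ℓ E₀ b d) c =
        ((x₂ (pr ℓ E₀ b d)⁻¹ : ℤ) : ℚ) * q := by
      rw [hq', hx2]
      push_cast
      field_simp
      ring
    rw [e1]
    exact Subring.mul_mem _ (hint _) hq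
  -- the last sum
  have h4 : ∑ᶠ σ ∈ {σ : MulAut V₀ | σ ∈ E₀ ∧ c * σ d ≠ 1},
      (cS D.U c d σ (Subgroup.zpowers (c * σ d)) *
        (((x' (c * σ d)⁻¹ * x₂ (σ⁻¹ (c * σ d))⁻¹ : ℤ) : ℚ) / (ℓ : ℚ) ^ 2) * d₁ (c * σ d) -
        ∑ᶠ a ∈ {a : Subgroup V₀ | a ∈ RL ℓ E₀ ∧ c * σ d ∉ a}, cS D.U c d σ a *
          (((x' (pr ℓ E₀ a (c * σ d))⁻¹ * x₂ (σ⁻¹ (pr ℓ E₀ a (c * σ d)))⁻¹ : ℤ) : ℚ) /
            (ℓ : ℚ) ^ 2) * z₁ a (pr ℓ E₀ a (c * σ d))) -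
      ∑ᶠ σ ∈ {σ : MulAut V₀ | σ ∈ E₀ ∧ c * σ d ≠ 1},
      (cS D.U c d σ (Subgroup.zpowers (c * σ d)) *
        (((x (c * σ d)⁻¹ * x₂ (σ⁻¹ (c * σ d))⁻¹ : ℤ) : ℚ) / (ℓ : ℚ) ^ 2) * d₁ (c * σ d) -
        ∑ᶠ a ∈ {a : Subgroup V₀ | a ∈ RL ℓ E₀ ∧ c * σ d ∉ a}, cS D.U c d σ a *
          (((x (pr ℓ E₀ a (c * σ d))⁻¹ * x₂ (σ⁻¹ (pr ℓ E₀ a (c * σ d)))⁻¹ : ℤ) : ℚ) /
            (ℓ : ℚ) ^ 2) * z₁ a (pr ℓ E₀ a (c * σ d))) ∈ SOR.Rl ℓ := by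
    apply sub_fin
    intro σ hσ
    have e1 : x' (c * σ d)⁻¹ = x (c * σ d)⁻¹ := by
      apply hx1
      intro h
      have h5 : c * σ d = c := inv_injective h
      have h6 : σ d = 1 := mul_eq_left.1 h5
      exact hd ((map_eq_one_iff σ σ.injective).1 h6)
    rw [e1]
    have e2 : ∀ A S' S : ℚ, (A - S') - (A - S) = S - S' := fun A S' S => by ring
    rw [e2]
    apply sub_fin
    intro a ha
    by_cases h7 : pr ℓ E₀ a (c * σ d) = c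
    · have h8 := hprm a ha.1 (c * σ d)
      rw [h7] at h8
      obtain ⟨q, hq, hq'⟩ := hE.zr a ha.1 c h8
      have e3 : cS D.U c d σ a *
          (((x (pr ℓ E₀ a (c * σ d))⁻¹ * x₂ (σ⁻¹ (pr ℓ E₀ a (c * σ d)))⁻¹ : ℤ) : ℚ) /
            (ℓ : ℚ) ^ 2) * z₁ a (pr ℓ E₀ a (c * σ d)) -
          cS D.U c d σ a *
          (((x' (pr ℓ E₀ a (c * σ d))⁻¹ * x₂ (σ⁻¹ (pr ℓ E₀ a (c * σ d)))⁻¹ : ℤ) : ℚ) /
            (ℓ : ℚ) ^ 2) * z₁ a (pr ℓ E₀ a (c * σ d)) =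
          -(cS D.U c d σ a * ((x₂ (σ⁻¹ c)⁻¹ : ℤ) : ℚ) * q) := by
        rw [h7, hq', hx2]
        push_cast
        field_simp
        ring
      rw [e3]
      exact Subring.neg_mem _ (Subring.mul_mem _ (Subring.mul_mem _ (hcS a ha.1 σ) (hint _)) hq)
    · rw [hx1 _ (fun h => h7 (inv_injective h)), sub_self]
      exact Subring.zero_mem _
  unfold MQ
  rw [h2]
  have h5 := Subring.neg_mem _ (Subring.add_mem _ h3 h4)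
  have e5 : ∀ t' t s p' p u' u w : ℚ, t' - t = w → -(p' - p + (u' - u)) =
      t' - s - p' - u' - (t - s - p - u) - w := by
    intro t' t s p' p u' u w h
    rw [← h]
    ring
  rw [e5 (((x' c⁻¹ * x₂ d⁻¹ : ℤ) : ℚ) / (ℓ : ℚ) ^ 2 * n₁ c d)
    (((x c⁻¹ * x₂ d⁻¹ : ℤ) : ℚ) / (ℓ : ℚ) ^ 2 * n₁ c d) _ _ _ _ _
    (((x₂ d⁻¹ : ℤ) : ℚ) / ℓ * n₁ c d) (by
      rw [hx2]
      push_cast
      field_simp
      ring)] at h5
  exact h5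

end Pool.Agent.PP.SE.H16
end
end -- Pool.Agent.Helper16_ASE.MQA

section -- Pool.Agent.Helper20_ASE.EIV

/-!
# Squad ASE, row EIV: invariance of the sums over the block under `E₀`
-/

open scoped BigOperators

set_option autoImplicit false

noncomputable section

namespace Pool.Agent.PP.SE.H20

open Pool.Agent.Helper51_AWC Pool.Agent.Helper79_WRA Pool.Agent.PP Pool.Agent.PP.KF
open Pool.Agent.PP.K9 Pool.Agent.PP.K9.H97 Pool.Agent.PP.H75 Pool.Agent.PP.T3 Pool.Agent.PP.SO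
open Pool.Agent.PP.SD Pool.Agent.PP.SE

attribute [local instance] Ideal.Quotient.field

/-- the stabilisers of `c` and `σ c` have the same order -/
theorem kE_apply {V₀ : Type} [CommGroup V₀] (E₀ : Subgroup (MulAut V₀)) (σ : MulAut V₀)
    (hσ : σ ∈ E₀) (c : V₀) : kE E₀ (σ c) = kE E₀ c := by
  unfold kE
  have h1 : Es E₀ (σ c) = (Es E₀ c).map (MulAut.conj σ).toMonoidHom := by
    ext τ
    rw [Subgroup.mem_map]
    constructor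
    · rintro ⟨h1, h2⟩
      refine ⟨σ⁻¹ * τ * σ, ⟨E₀.mul_mem (E₀.mul_mem (E₀.inv_mem hσ) h1) hσ, ?_⟩, ?_⟩
      · rw [MulAut.mul_apply, MulAut.mul_apply, h2, MulAut.inv_apply_self]
      · show σ * (σ⁻¹ * τ * σ) * σ⁻¹ = τ
        group
    · rintro ⟨ρ, ⟨h1, h2⟩, rfl⟩
      refine ⟨E₀.mul_mem (E₀.mul_mem hσ h1) (E₀.inv_mem hσ), ?_⟩
      show (σ * ρ * σ⁻¹) (σ c) = σ c
      rw [MulAut.mul_apply, MulAut.mul_apply, MulAut.inv_apply_self, h2]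
  rw [h1]
  exact Nat.card_congr (Subgroup.equivMapOfInjective _ _ (MulAut.conj σ).injective).symm.toEquiv

theorem eiv (hACB : AcbStmt) (hCZB : CzbStmt) (hFMB : FmbStmt) (hMPB : MpbStmt) : EivStmt := by
  intro ℓ _ M _ hM hℓ V₀ G _ _ _ _ E₀ hF B hB D hD σ hσ
  obtain ⟨-, hac⟩ := hACB ℓ M hM hℓ V₀ G E₀ hF B hB
  have hbot : mp σ (⊥ : Subgroup V₀) = ⊥ := (hMPB V₀ σ σ ⊥ ⊥).2.2.2.2.2.2.2.2.1
  constructor
  · intro c
    obtain ⟨hcz, -⟩ := hCZB ℓ M hM hℓ V₀ G E₀ hF B hB ⊥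
    obtain ⟨-, -, -, -, hfc, -⟩ := hac ⊥ σ hσ
    have h1 := hfc c
    rw [hbot] at h1
    have ht : ∀ t : G, t ∈ B.C ⊥ := by
      intro t
      unfold Bk.C
      rw [Subgroup.map_bot, Subgroup.mem_centralizer_iff]
      intro h hh
      have : h = 1 := by
        rw [SetLike.mem_coe, Subgroup.mem_bot] at hh
        exact hh
      rw [this, one_mul, mul_one]
    have h2 : fc B ⊥ (σ c) = fc B ⊥ c := by
      rw [← h1]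
      funext g
      show fc B ⊥ c ((tt B σ)⁻¹ * g * tt B σ) = fc B ⊥ c g
      have h3 := (hcz c).cls (tt B σ)⁻¹ (ht _) g
      rwa [inv_inv] at h3
    funext g
    unfold mnl
    rw [if_pos bot_le, if_pos bot_le, kE_apply E₀ σ hσ c, h2]
  · intro a ha κ hκ
    have hl1 : ℓ ≠ 1 := (Fact.out : ℓ.Prime).one_lt.ne'
    have ha0 : a ≠ ⊥ := by
      intro h
      have h1 := ha.1
      rw [h, Subgroup.card_bot] at h1
      exact hl1 h1.symm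
    have hma0 : mp σ a ≠ ⊥ := by
      intro h
      have h1 := (hMPB V₀ σ σ a a).2.2.1
      rw [h, Subgroup.card_bot, ha.1] at h1
      exact hl1 h1.symm
    obtain ⟨-, -, -, h4, -⟩ := hFMB ℓ M hM hℓ V₀ G E₀ hF B hB D hD a ha0
    have h5 := (h4 σ hσ).2 κ hκ
    obtain ⟨-, -, -, -, -, -, hcard, -⟩ := hac a σ hσ
    funext g
    unfold etl
    rw [if_neg (Ne.symm hma0), if_neg (Ne.symm ha0), if_pos rfl, if_pos rfl, hcard]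
    congr 1
    rw [← h5]
    have _i : Fintype G := Fintype.ofFinite G
    rw [finsum_eq_sum_of_fintype, finsum_eq_sum_of_fintype]
    refine Fintype.sum_equiv (Equiv.mulRight (tt B σ)) _ _ fun z => ?_
    show tk B κ (D.et a) ((tt B σ)⁻¹ * (z⁻¹ * g * z) * tt B σ) =
      tk B κ (D.et a) ((z * tt B σ)⁻¹ * g * (z * tt B σ))
    congr 1
    group

end Pool.Agent.PP.SE.H20
end
end -- Pool.Agent.Helper20_ASE.EIV

section -- Pool.Agent.Helper30_ASE.TS5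

/-!
# Squad ASE, row TS5: the relation, without the evaluation of the deviations
-/

open scoped BigOperators

set_option autoImplicit false

noncomputable section

namespace Pool.Agent.PP.SE.H30

open Pool.Agent.Helper51_AWC Pool.Agent.Helper79_WRA Pool.Agent.PP Pool.Agent.PP.KF
open Pool.Agent.PP.K9 Pool.Agent.PP.K9.H97 Pool.Agent.PP.H75 Pool.Agent.PP.T3 Pool.Agent.PP.SO
open Pool.Agent.PP.SD

attribute [local instance] Ideal.Quotient.field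

namespace TS5

section gen

/-- the alternating sum over the labels -/
def Al {α : Type} (A Bs : Set α) (f0 : ℂ) (f1 f2 : α → ℂ) (f3 : α → α → ℂ) : ℂ :=
  f0 - (∑ᶠ a ∈ A, f1 a) - (∑ᶠ b ∈ Bs, f2 b) + ∑ᶠ a ∈ A, ∑ᶠ b ∈ Bs, f3 a b

variable {α : Type} [Finite α]

theorem al_add (A Bs : Set α) (f0 g0 : ℂ) (f1 f2 g1 g2 : α → ℂ) (f3 g3 : α → α → ℂ) :
    Al A Bs (f0 + g0) (fun a => f1 a + g1 a) (fun b => f2 b + g2 b)
      (fun a b => f3 a b + g3 a b) = Al A Bs f0 f1 f2 f3 + Al A Bs g0 g1 g2 g3 := by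
  unfold Al
  simp only [finsum_mem_add_distrib (Set.toFinite A), finsum_mem_add_distrib (Set.toFinite Bs)]
  ring

omit [Finite α] in
theorem al_congr (A Bs : Set α) (f0 g0 : ℂ) (f1 f2 g1 g2 : α → ℂ) (f3 g3 : α → α → ℂ)
    (h0 : f0 = g0) (h1 : ∀ a ∈ A, f1 a = g1 a) (h2 : ∀ b ∈ Bs, f2 b = g2 b)
    (h3 : ∀ a ∈ A, ∀ b ∈ Bs, f3 a b = g3 a b) :
    Al A Bs f0 f1 f2 f3 = Al A Bs g0 g1 g2 g3 := by
  unfold Al
  rw [h0, finsum_mem_congr rfl h1, finsum_mem_congr rfl h2,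
    finsum_mem_congr rfl fun a ha => finsum_mem_congr rfl (h3 a ha)]

theorem al_sum {ι : Type} [Finite ι] (A Bs : Set α) (w : ι → ℂ) (f0 : ι → ℂ)
    (f1 f2 : ι → α → ℂ) (f3 : ι → α → α → ℂ) :
    ∑ᶠ i, w i * Al A Bs (f0 i) (f1 i) (f2 i) (f3 i) =
      Al A Bs (∑ᶠ i, w i * f0 i) (fun a => ∑ᶠ i, w i * f1 i a) (fun a => ∑ᶠ i, w i * f2 i a)
        (fun a b => ∑ᶠ i, w i * f3 i a b) := by
  classical
  cases nonempty_fintype ι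
  have e : ∀ (s : Set α) (f : α → ℂ), ∑ᶠ a ∈ s, f a = ∑ a ∈ (Set.toFinite s).toFinset, f a :=
    fun s f => finsum_mem_eq_finite_toFinset_sum f _
  unfold Al
  simp only [e, finsum_eq_sum_of_fintype, mul_add, mul_sub, Finset.mul_sum,
    Finset.sum_add_distrib, Finset.sum_sub_distrib]
  rw [Finset.sum_comm (s := Finset.univ) (t := (Set.toFinite A).toFinset)
      (f := fun i a => w i * f1 i a),
    Finset.sum_comm (s := Finset.univ) (t := (Set.toFinite Bs).toFinset)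
      (f := fun i a => w i * f2 i a),
    Finset.sum_comm (s := Finset.univ) (t := (Set.toFinite A).toFinset)
      (f := fun i a => ∑ b ∈ (Set.toFinite Bs).toFinset, w i * f3 i a b)]
  congr 1
  refine Finset.sum_congr rfl fun a _ => ?_
  rw [Finset.sum_comm]

/-- sums over a set with a condition -/
theorem fsum_ite {A M : Type} [AddCommMonoid M] (s : Set A) (p : A → Prop) [DecidablePred p]
    (f : A → M) : ∑ᶠ i ∈ s, (if p i then f i else 0) = ∑ᶠ i ∈ {i | i ∈ s ∧ p i}, f i := by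
  classical
  refine finsum_congr fun i => ?_
  rw [finsum_eq_if, finsum_eq_if]
  by_cases h1 : i ∈ s
  · by_cases h2 : p i
    · rw [if_pos h1, if_pos h2, if_pos (show i ∈ {i | i ∈ s ∧ p i} from ⟨h1, h2⟩)]
    · rw [if_pos h1, if_neg h2, if_neg (fun h : i ∈ {i | i ∈ s ∧ p i} => h2 h.2)]
  · rw [if_neg h1, if_neg (fun h : i ∈ {i | i ∈ s ∧ p i} => h1 h.1)]

/-- sums over a set of a finite type -/
theorem fsum_univ {A M : Type} [Fintype A] [AddCommMonoid M] (s : Set A)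
    [DecidablePred (· ∈ s)] (f : A → M) :
    ∑ᶠ i ∈ s, f i = ∑ i, if i ∈ s then f i else 0 := by
  rw [finsum_eq_sum_of_fintype]
  exact Finset.sum_congr rfl fun i _ => finsum_eq_if

theorem cast_fsum {A : Type} [Finite A] (s : Set A) (f : A → ℚ) :
    ((∑ᶠ i ∈ s, f i : ℚ) : ℂ) = ∑ᶠ i ∈ s, (f i : ℂ) := by
  have h := (Rat.castHom ℂ).toAddMonoidHom.map_finsum_mem f (Set.toFinite s)
  exact h

theorem rm_fsum {M : Ideal (integralClosure ℤ ℂ)} [M.IsMaximal] {A : Type} {s : Set A}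
    {f : A → ℂ} (h : ∀ i ∈ s, f i ∈ RM M) : ∑ᶠ i ∈ s, f i ∈ RM M :=
  finsum_mem_induction (· ∈ RM M) (zero_mem _) (fun _ _ => add_mem) h

end gen

section loc

variable {V₀ : Type} [CommGroup V₀] {n : ℕ}

theorem q_ne {L : Set (SO.SS n V₀)} {σ : MulAut V₀} (h : ∀ s ∈ L, σ s.2.2.2 = s.2.2.1)
    (hp : pL L ≠ ⊥) : qL L ≠ ⊥ := by
  intro hq
  apply hp
  rw [eq_bot_iff, pL, Subgroup.closure_le]
  rintro p ⟨s, hs, rfl⟩
  have h1 : s.2.2.2 ∈ qL L := Subgroup.subset_closure ⟨s, hs, rfl⟩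
  rw [hq, Subgroup.mem_bot] at h1
  have h2 := h s hs
  rw [h1, map_one] at h2
  exact h2.symm

/-- the sum over `σ` of the exact local parts -/
theorem sum_p12 [Finite V₀] (ℓ : ℕ) (E₀ : Subgroup (MulAut V₀)) (U : Subgroup V₀ → ℚ)
    (fx : Subgroup V₀ → MulAut V₀ → ℚ) (c d : V₀) (F : Set (SO.SS n V₀) → ℚ) :
    ∑ᶠ σ ∈ {σ : MulAut V₀ | σ ∈ E₀}, P12S ℓ E₀ U fx c d σ F =
      ∑ᶠ L ∈ {L : Set (SO.SS n V₀) | pL L ≠ ⊥ ∧ qL L ≠ ⊥}, mob F L * P12 ℓ E₀ U fx c d L := by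
  classical
  have hfin : Finite (MulAut V₀) := inferInstance
  cases nonempty_fintype (MulAut V₀)
  cases nonempty_fintype (Set (SO.SS n V₀))
  unfold P12S P12
  simp only [fsum_univ]
  have e1 : ∀ σ : MulAut V₀, (if σ ∈ {σ : MulAut V₀ | σ ∈ E₀} then
      (∑ L : Set (SO.SS n V₀), if L ∈ {L : Set (SO.SS n V₀) | pL L ≠ ⊥ ∧
        (∀ s ∈ L, σ s.2.2.2 = s.2.2.1) ∧ aL (c * σ d) L ≠ ⊥} then
        mob F L * (cS U c d σ (pL L) * (ux U (aL (c * σ d) L) (c * σ d) *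
          (N12 E₀ (c * σ d) L + M12 ℓ E₀ fx (c * σ d) L))) else 0) else 0) =
      ∑ L : Set (SO.SS n V₀), if σ ∈ E₀ ∧ pL L ≠ ⊥ ∧ (∀ s ∈ L, σ s.2.2.2 = s.2.2.1) ∧
        aL (c * σ d) L ≠ ⊥ then
        mob F L * (cS U c d σ (pL L) * (ux U (aL (c * σ d) L) (c * σ d) *
          (N12 E₀ (c * σ d) L + M12 ℓ E₀ fx (c * σ d) L))) else 0 := by
    intro σ
    by_cases h : σ ∈ E₀
    · rw [if_pos (show σ ∈ {σ : MulAut V₀ | σ ∈ E₀} from h)]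
      refine Finset.sum_congr rfl fun L _ => ?_
      by_cases h' : pL L ≠ ⊥ ∧ (∀ s ∈ L, σ s.2.2.2 = s.2.2.1) ∧ aL (c * σ d) L ≠ ⊥
      · rw [if_pos (show L ∈ {L : Set (SO.SS n V₀) | pL L ≠ ⊥ ∧
          (∀ s ∈ L, σ s.2.2.2 = s.2.2.1) ∧ aL (c * σ d) L ≠ ⊥} from h'), if_pos ⟨h, h'⟩]
      · rw [if_neg (fun hh : L ∈ {L : Set (SO.SS n V₀) | pL L ≠ ⊥ ∧
          (∀ s ∈ L, σ s.2.2.2 = s.2.2.1) ∧ aL (c * σ d) L ≠ ⊥} => h' hh),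
          if_neg (fun hh => h' hh.2)]
    · rw [if_neg (fun hh : σ ∈ {σ : MulAut V₀ | σ ∈ E₀} => h hh)]
      symm
      refine Finset.sum_eq_zero fun L _ => ?_
      rw [if_neg (fun hh => h hh.1)]
  have e2 : ∀ L : Set (SO.SS n V₀), (if L ∈ {L : Set (SO.SS n V₀) | pL L ≠ ⊥ ∧ qL L ≠ ⊥} then
      mob F L * (∑ σ : MulAut V₀, if σ ∈ {σ | σ ∈ EL E₀ L ∧ aL (c * σ d) L ≠ ⊥} then
        cS U c d σ (pL L) * (ux U (aL (c * σ d) L) (c * σ d) *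
          (N12 E₀ (c * σ d) L + M12 ℓ E₀ fx (c * σ d) L)) else 0) else 0) =
      ∑ σ : MulAut V₀, if σ ∈ E₀ ∧ pL L ≠ ⊥ ∧ (∀ s ∈ L, σ s.2.2.2 = s.2.2.1) ∧
        aL (c * σ d) L ≠ ⊥ then
        mob F L * (cS U c d σ (pL L) * (ux U (aL (c * σ d) L) (c * σ d) *
          (N12 E₀ (c * σ d) L + M12 ℓ E₀ fx (c * σ d) L))) else 0 := by
    intro L
    by_cases h : pL L ≠ ⊥ ∧ qL L ≠ ⊥
    · rw [if_pos (show L ∈ {L : Set (SO.SS n V₀) | pL L ≠ ⊥ ∧ qL L ≠ ⊥} from h), Finset.mul_sum]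
      refine Finset.sum_congr rfl fun σ _ => ?_
      by_cases h' : σ ∈ EL E₀ L ∧ aL (c * σ d) L ≠ ⊥
      · rw [if_pos (show σ ∈ {σ | σ ∈ EL E₀ L ∧ aL (c * σ d) L ≠ ⊥} from h'),
          if_pos ⟨h'.1.1, h.1, h'.1.2, h'.2⟩]
      · rw [if_neg (fun hh : σ ∈ {σ | σ ∈ EL E₀ L ∧ aL (c * σ d) L ≠ ⊥} => h' hh), mul_zero,
          if_neg (fun hh => h' ⟨⟨hh.1, hh.2.2.1⟩, hh.2.2.2⟩)]
    · rw [if_neg (fun hh : L ∈ {L : Set (SO.SS n V₀) | pL L ≠ ⊥ ∧ qL L ≠ ⊥} => h hh)]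
      symm
      refine Finset.sum_eq_zero fun σ _ => ?_
      rw [if_neg (fun hh => h ⟨hh.2.1, q_ne hh.2.2.1 hh.2.1⟩)]
  rw [Finset.sum_congr rfl fun σ _ => e1 σ, Finset.sum_congr rfl fun L _ => e2 L,
    Finset.sum_comm]

theorem hm_one {ℓ : ℕ} {ρ : V₀ → ZMod ℓ} (h : Hm ρ) : ρ 1 = 0 := by
  have h1 := h 1 1
  rw [mul_one] at h1
  exact (left_eq_add.1 h1)

theorem lf_one {ℓ : ℕ} {ρ : V₀ → ZMod ℓ} (h : Hm ρ) {x : V₀ → ℤ} (hx : Lf ρ x) : x 1 = 0 :=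
  (hx 1).2 (hm_one h)

/-- the alternating sum of the functions `F12` -/
theorem f12_alt {ℓ : ℕ} (x₁ x₂ : V₀ → ℤ) (Ψ M₁ M₂ : Set (SO.SS n V₀) → ℚ)
    (K : Set (Fin n × V₀ × V₀) → ℚ) (c d c' d' : V₀) (τ : Set (SO.SS n V₀)) (δ : ℚ)
    (hδ : δ = (((x₁ c⁻¹ - x₁ c'⁻¹) * (x₂ d⁻¹ - x₂ d'⁻¹) : ℤ) : ℚ) / (ℓ : ℚ) ^ 2)
    {i : Decidable (Fre τ)} :
    F12 ℓ x₁ x₂ Ψ M₁ M₂ K c d τ - F12 ℓ x₁ x₂ Ψ M₁ M₂ K c' d τ -
      F12 ℓ x₁ x₂ Ψ M₁ M₂ K c d' τ + F12 ℓ x₁ x₂ Ψ M₁ M₂ K c' d' τ =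
      if Fre τ then δ else 0 := by
  unfold F12
  by_cases h : Fre τ
  · rw [if_pos h, if_pos h, if_pos h, if_pos h, if_pos h, hδ]
    push_cast
    ring
  · rw [if_neg h, if_neg h, if_neg h, if_neg h, if_neg h]
    ring

end loc

section blk

variable {V₀ G : Type} [CommGroup V₀] [Group G] {M : Ideal (integralClosure ℤ ℂ)} [M.IsMaximal]

omit [M.IsMaximal] in
theorem nn_irr (e : G → FF M) (f : (G → ℂ) → ℂ)
    (h : ∀ χ ∈ Irr G, χ ∉ IrrE M e → f χ = 0) :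
    ∑ᶠ χ ∈ Irr G, f χ = ∑ᶠ χ ∈ IrrE M e, f χ := by
  classical
  refine finsum_congr fun χ => ?_
  rw [finsum_eq_if, finsum_eq_if]
  by_cases h1 : χ ∈ IrrE M e
  · rw [if_pos h1.1, if_pos h1]
  · by_cases h2 : χ ∈ Irr G
    · rw [if_pos h2, if_neg h1, h χ h2 h1]
    · rw [if_neg h2, if_neg h1]

/-- an integer times a sum of products of elements of `ℓ RM` divided by `ℓ ^ 2` -/
theorem rm_prod {ℓ : ℕ} (z : ℤ) {A : Type} {s : Set A} {f g : A → ℂ} [Finite s]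
    (hf : ∀ i ∈ s, f i / ℓ ∈ RM M) (hg : ∀ i ∈ s, g i / ℓ ∈ RM M) :
    ((z : ℤ) : ℂ) / (ℓ : ℂ) ^ 2 * ∑ᶠ i ∈ s, f i * g i ∈ RM M := by
  have h1 : ((z : ℤ) : ℂ) / (ℓ : ℂ) ^ 2 * ∑ᶠ i ∈ s, f i * g i =
      (z : ℂ) * ∑ᶠ i ∈ s, (f i / ℓ) * (g i / ℓ) := by
    rw [div_mul_eq_mul_div, mul_div_assoc]
    congr 1
    rw [div_eq_mul_inv, mul_comm, mul_finsum_mem]
    refine finsum_mem_congr rfl fun i _ => ?_
    ring
  rw [h1]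
  exact mul_mem (intCast_mem _ _) (rm_fsum fun i hi => mul_mem (hf i hi) (hg i hi))

end blk

end TS5

open TS5 in
open Classical in
/-- TS5 -/
theorem ts5 (hLT2 : Lt2Stmt) (hLMN : LmnStmt) (hLET : LetStmt) (hTS1 : Ts1Stmt) (hTS2 : Ts2Stmt)
    (hTS3 : Ts3Stmt) (hTS4 : Ts4Stmt) (hXEM : XemStmt) (hETV : EtvStmt) (hFVA : FvaStmt)
    (hFT3 : Ft3Stmt) (hPRB : PrbStmt) (hCZB : CzbStmt) : Ts5Stmt := by
  intro ℓ hℓ M _ hM hℓ2 V₀ G _ _ _ _ E₀ hFq B hSd D hRs n m hPE ρ₁ ρ₂ x₁ x₂ h1 h2 hx1 hx2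
    F₁₃ Ψ M₁ M₂ K hFE hRel c d hc hd
  have hSb : Sb ℓ M E₀ B := hSd.toSb
  have hprb := fun a : Subgroup V₀ => hPRB ℓ V₀ E₀ hFq a
  have hpr : ∀ a ∈ RL ℓ E₀, ∀ v, pr ℓ E₀ a v ∈ a := fun a ha => (hprb a).2.2.2.2.1 ha
  set A : Set (Subgroup V₀) := {a : Subgroup V₀ | a ∈ RL ℓ E₀ ∧ c ∉ a} with hA
  set Bs : Set (Subgroup V₀) := {b : Subgroup V₀ | b ∈ RL ℓ E₀ ∧ d ∉ b} with hBs
  -- the sum over the labels is integral
  have hS : Al A Bs (T2 B m (mnl E₀ B c) (mnl E₀ B d) F₁₃ (F12 ℓ x₁ x₂ Ψ M₁ M₂ K c d))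
      (fun a => T2 B m (etl B D a (pr ℓ E₀ a c)) (mnl E₀ B d) F₁₃
        (F12 ℓ x₁ x₂ Ψ M₁ M₂ K (pr ℓ E₀ a c) d))
      (fun b => T2 B m (mnl E₀ B c) (etl B D b (pr ℓ E₀ b d)) F₁₃
        (F12 ℓ x₁ x₂ Ψ M₁ M₂ K c (pr ℓ E₀ b d)))
      (fun a b => T2 B m (etl B D a (pr ℓ E₀ a c)) (etl B D b (pr ℓ E₀ b d)) F₁₃
        (F12 ℓ x₁ x₂ Ψ M₁ M₂ K (pr ℓ E₀ a c) (pr ℓ E₀ b d))) ∈ RM M := by
    have lc := hLMN ℓ M hM hℓ2 V₀ G E₀ hFq B hSd c hc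
    have ld := hLMN ℓ M hM hℓ2 V₀ G E₀ hFq B hSd d hd
    have le : ∀ a ∈ RL ℓ E₀, ∀ v, Lab ℓ B (pr ℓ E₀ a v) (etl B D a (pr ℓ E₀ a v)) :=
      fun a ha v => hLET ℓ M hM hℓ2 V₀ G E₀ hFq B hSb D hRs a ha _ (hpr a ha v)
    refine add_mem (sub_mem (sub_mem ?_ (rm_fsum fun a ha => ?_)) (rm_fsum fun b hb => ?_))
      (rm_fsum fun a ha => rm_fsum fun b hb => ?_)
    · exact hLT2 ℓ M hM V₀ G B n m c d _ _ lc ld F₁₃ _ (hRel _ _)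
    · exact hLT2 ℓ M hM V₀ G B n m _ d _ _ (le a ha.1 c) ld F₁₃ _ (hRel _ _)
    · exact hLT2 ℓ M hM V₀ G B n m c _ _ _ lc (le b hb.1 d) F₁₃ _ (hRel _ _)
    · exact hLT2 ℓ M hM V₀ G B n m _ _ _ _ (le a ha.1 c) (le b hb.1 d) F₁₃ _ (hRel _ _)
  -- the decomposition of the sums `T2`
  have hY : ∀ (kc kd : V₀) (α β : Subgroup V₀ → G → ℂ), (∀ x g, α ⊥ (x * g * x⁻¹) = α ⊥ g) →
      (∀ x g, β ⊥ (x * g * x⁻¹) = β ⊥ g) →
      T2 B m α β F₁₃ (F12 ℓ x₁ x₂ Ψ M₁ M₂ K kc kd) =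
        (∑ᶠ L : Set (SO.SS n V₀), ((mob F₁₃ L : ℚ) : ℂ) * X13 B m α β L) +
        (((x₁ kc⁻¹ * x₂ kd⁻¹ : ℤ) : ℂ) / (ℓ : ℂ) ^ 2 *
          (∑ᶠ χ ∈ Irr G, cv (α ⊥) χ * cv (β ⊥) χ) +
          X2N B m α β (F12 ℓ x₁ x₂ Ψ M₁ M₂ K kc kd)) := by
    intro kc kd α β hα hβ
    rw [← hTS2 ℓ M hM hℓ2 V₀ G E₀ hFq B hSb D hRs n m hPE ρ₁ ρ₂ x₁ x₂ h1 h2 hx1 hx2 F₁₃ Ψ M₁ M₂ K
      hFE kc kd α β hα hβ]
    exact finsum_add_distrib (Set.toFinite _) (Set.toFinite _)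
  obtain ⟨-, -, xe3, xe4, xe5⟩ := hXEM ℓ M hM hℓ2 V₀ G E₀ hFq B hSb D hRs
  have e1 := hS
  rw [al_congr A Bs _ _ _ _ _ _ _ _ (hY c d _ _ (xe4 c hc).1 (xe4 d hd).1)
    (fun a ha => hY (pr ℓ E₀ a c) d _ _ (xe3 a ha.1 _ (hpr a ha.1 c)).1 (xe4 d hd).1)
    (fun b hb => hY c (pr ℓ E₀ b d) _ _ (xe4 c hc).1 (xe3 b hb.1 _ (hpr b hb.1 d)).1)
    (fun a ha b hb => hY (pr ℓ E₀ a c) (pr ℓ E₀ b d) _ _ (xe3 a ha.1 _ (hpr a ha.1 c)).1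
      (xe3 b hb.1 _ (hpr b hb.1 d)).1), al_add, al_add] at e1
  have e2 := (al_sum A Bs _ _ _ _ _).symm.trans
    (hTS1 ℓ M hM hℓ2 V₀ G E₀ hFq B hSd D hRs n m hPE ρ₁ ρ₂ h1 h2 F₁₃ hFE.z13 c d hc hd)
  have e3 : Al A Bs (X2N B m (mnl E₀ B c) (mnl E₀ B d) (F12 ℓ x₁ x₂ Ψ M₁ M₂ K c d))
      (fun a => X2N B m (etl B D a (pr ℓ E₀ a c)) (mnl E₀ B d)
        (F12 ℓ x₁ x₂ Ψ M₁ M₂ K (pr ℓ E₀ a c) d))
      (fun b => X2N B m (mnl E₀ B c) (etl B D b (pr ℓ E₀ b d))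
        (F12 ℓ x₁ x₂ Ψ M₁ M₂ K c (pr ℓ E₀ b d)))
      (fun a b => X2N B m (etl B D a (pr ℓ E₀ a c)) (etl B D b (pr ℓ E₀ b d))
        (F12 ℓ x₁ x₂ Ψ M₁ M₂ K (pr ℓ E₀ a c) (pr ℓ E₀ b d))) = _ :=
    hTS3 ℓ M hM hℓ2 V₀ G E₀ hFq B hSb D hRs n m hPE
      (fun kc kd => F12 ℓ x₁ x₂ Ψ M₁ M₂ K kc kd) c d hc hd
  -- the terms `T0S`
  obtain ⟨r, hr0, hnr⟩ := hPE.pw
  have hn : 0 < n := by
    rw [hnr]
    exact pow_pos hℓ.out.pos r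
  have hF := hFVA ℓ V₀ hFq.ex n ρ₁ ρ₂ ⟨r, hr0, hnr⟩ h1 h2 x₁ x₂ hx1 hx2 F₁₃ Ψ M₁ M₂ K hFE c d
  have e4 := fun σ (hσ : σ ∈ E₀) => hTS4 ℓ M hM hℓ2 V₀ G E₀ hFq B hSd D hRs n m hn hPE
    (F12 ℓ x₁ x₂ Ψ M₁ M₂ K c d) (((x₁ c⁻¹ * x₂ d⁻¹ : ℤ) : ℚ) / (ℓ : ℚ) ^ 2)
    (fun κ₁ κ₂ => ((x₁ κ₁ * x₂ κ₂ : ℤ) : ℚ) / (ℓ : ℚ) ^ 2)
    (fun τ hτ h => hF.2.1 τ hτ fun s hs => by
      rw [(h s hs).1, (h s hs).2]
      exact ⟨hm_one h1, hm_one h2⟩)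
    (fun κ₁ κ₂ I hI => by
      rw [hF.2.2.1 κ₁ κ₂ I hI]
      push_cast
      ring) c d σ hσ
  -- the sums over the block
  have e5 : Al A Bs
      (((x₁ c⁻¹ * x₂ d⁻¹ : ℤ) : ℂ) / (ℓ : ℂ) ^ 2 *
        (∑ᶠ χ ∈ Irr G, cv (mnl E₀ B c ⊥) χ * cv (mnl E₀ B d ⊥) χ))
      (fun a => ((x₁ (pr ℓ E₀ a c)⁻¹ * x₂ d⁻¹ : ℤ) : ℂ) / (ℓ : ℂ) ^ 2 *
        (∑ᶠ χ ∈ Irr G, cv (etl B D a (pr ℓ E₀ a c) ⊥) χ * cv (mnl E₀ B d ⊥) χ))
      (fun b => ((x₁ c⁻¹ * x₂ (pr ℓ E₀ b d)⁻¹ : ℤ) : ℂ) / (ℓ : ℂ) ^ 2 *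
        (∑ᶠ χ ∈ Irr G, cv (mnl E₀ B c ⊥) χ * cv (etl B D b (pr ℓ E₀ b d) ⊥) χ))
      (fun a b => ((x₁ (pr ℓ E₀ a c)⁻¹ * x₂ (pr ℓ E₀ b d)⁻¹ : ℤ) : ℂ) / (ℓ : ℂ) ^ 2 *
        (∑ᶠ χ ∈ Irr G, cv (etl B D a (pr ℓ E₀ a c) ⊥) χ *
          cv (etl B D b (pr ℓ E₀ b d) ⊥) χ)) =
      ((x₁ c⁻¹ * x₂ d⁻¹ : ℤ) : ℂ) / (ℓ : ℂ) ^ 2 * NN B (mnl E₀ B c ⊥) (mnl E₀ B d ⊥) -
      (∑ᶠ a ∈ A, ((x₁ (pr ℓ E₀ a c)⁻¹ * x₂ d⁻¹ : ℤ) : ℂ) / (ℓ : ℂ) ^ 2 *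
        NN B (etl B D a (pr ℓ E₀ a c) ⊥) (mnl E₀ B d ⊥)) -
      (∑ᶠ b ∈ Bs, ((x₁ c⁻¹ * x₂ (pr ℓ E₀ b d)⁻¹ : ℤ) : ℂ) / (ℓ : ℂ) ^ 2 *
        NN B (mnl E₀ B c ⊥) (etl B D b (pr ℓ E₀ b d) ⊥)) +
      ∑ᶠ a ∈ A, ∑ᶠ b ∈ Bs,
        ((x₁ (pr ℓ E₀ a c)⁻¹ * x₂ (pr ℓ E₀ b d)⁻¹ : ℤ) : ℂ) / (ℓ : ℂ) ^ 2 *
        (∑ᶠ χ ∈ Irr G, cv (etl B D a (pr ℓ E₀ a c) ⊥) χ *
          cv (etl B D b (pr ℓ E₀ b d) ⊥) χ) := by
    refine al_congr A Bs _ _ _ _ _ _ _ _ ?_ (fun a ha => ?_) (fun b hb => ?_)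
      (fun a ha b hb => rfl)
    · rw [nn_irr B.e _ fun χ hχ h => by rw [(xe4 c hc).2 χ hχ h, zero_mul]]
      rfl
    · rw [nn_irr B.e _ fun χ hχ h => by rw [(xe4 d hd).2 χ hχ h, mul_zero]]
      rfl
    · rw [nn_irr B.e _ fun χ hχ h => by rw [(xe4 c hc).2 χ hχ h, zero_mul]]
      rfl
  have hEfin : (IrrE M B.e).Finite := by
    cases nonempty_fintype G
    exact irr_finite'.subset fun χ h => h.1
  have e6 : (∑ᶠ a ∈ A, ∑ᶠ b ∈ Bs,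
        ((x₁ (pr ℓ E₀ a c)⁻¹ * x₂ (pr ℓ E₀ b d)⁻¹ : ℤ) : ℂ) / (ℓ : ℂ) ^ 2 *
        (∑ᶠ χ ∈ Irr G, cv (etl B D a (pr ℓ E₀ a c) ⊥) χ *
          cv (etl B D b (pr ℓ E₀ b d) ⊥) χ)) ∈ RM M := by
    refine rm_fsum fun a ha => rm_fsum fun b hb => ?_
    by_cases ca : pr ℓ E₀ a c = 1
    · rw [ca, inv_one, lf_one h1 hx1, zero_mul, Int.cast_zero, zero_div, zero_mul]
      exact zero_mem _
    rw [nn_irr B.e _ fun χ hχ h => by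
      rw [xe5 a ha.1 _ (hpr a ha.1 c) ca χ hχ h, zero_mul]]
    have : Finite (IrrE M B.e) := hEfin
    exact rm_prod _ (fun χ h => hETV ℓ M hM hℓ2 V₀ G E₀ hFq B hSb D hRs a ha.1 _
      (hpr a ha.1 c) χ h) (fun χ h => hETV ℓ M hM hℓ2 V₀ G E₀ hFq B hSb D hRs b hb.1 _
      (hpr b hb.1 d) χ h)
  -- the last sum of TS3
  have e7 : ∀ σ ∈ E₀, (∑ᶠ a ∈ {a : Subgroup V₀ | a ∈ RL ℓ E₀ ∧ c ∉ a ∧ σ d ∉ a},
      (nS E₀ a : ℂ)⁻¹ * FWS B m σ a (fun τ => F12 ℓ x₁ x₂ Ψ M₁ M₂ K c d τ -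
        F12 ℓ x₁ x₂ Ψ M₁ M₂ K (pr ℓ E₀ a c) d τ -
        F12 ℓ x₁ x₂ Ψ M₁ M₂ K c (σ⁻¹ (pr ℓ E₀ a (σ d))) τ +
        F12 ℓ x₁ x₂ Ψ M₁ M₂ K (pr ℓ E₀ a c) (σ⁻¹ (pr ℓ E₀ a (σ d))) τ)
        (tk B (pr ℓ E₀ a (c * σ d)) (fun g => mulF (D.et a) (D.et a) g))) ∈ RM M := by
    intro σ hσ
    refine rm_fsum fun a ha => ?_
    have hab : a ≠ ⊥ := by
      rintro rfl
      have h3 := ha.1.1
      rw [Subgroup.card_bot] at h3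
      exact hℓ.out.one_lt.ne h3
    have hκ := hpr a ha.1 (c * σ d)
    obtain ⟨-, -, cz3, cz4, -⟩ := hCZB ℓ M hM hℓ2 V₀ G E₀ hFq B hSb a
    have k1 := hRs.e1 a hab
    have k2 := cz4 _ _ k1 k1
    have k3 := cz3 _ k2.1 _ hκ
    have hfun : (fun τ => F12 ℓ x₁ x₂ Ψ M₁ M₂ K c d τ -
        F12 ℓ x₁ x₂ Ψ M₁ M₂ K (pr ℓ E₀ a c) d τ -
        F12 ℓ x₁ x₂ Ψ M₁ M₂ K c (σ⁻¹ (pr ℓ E₀ a (σ d))) τ +
        F12 ℓ x₁ x₂ Ψ M₁ M₂ K (pr ℓ E₀ a c) (σ⁻¹ (pr ℓ E₀ a (σ d))) τ) =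
        fun τ : Set (SO.SS n V₀) => if Fre τ then
          ((((x₁ c⁻¹ - x₁ (pr ℓ E₀ a c)⁻¹) *
            (x₂ d⁻¹ - x₂ (σ⁻¹ (pr ℓ E₀ a (σ d)))⁻¹) : ℤ) : ℚ) / (ℓ : ℚ) ^ 2) else 0 :=
      funext fun τ => f12_alt x₁ x₂ Ψ M₁ M₂ K c d _ _ τ _ rfl
    rw [hfun, hFT3 ℓ M hM hℓ2 V₀ G E₀ hFq B hSb n m hPE a ha.1.1 σ hσ _ _ k3.1,
      finsum_mem_congr rfl fun χ hχ => by rw [k3.2 χ hχ, k2.2 χ hχ, ← sq]]
    have k4 := (hRs.e7 a ha.1 _ hκ).2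
    have k5 : ((nS E₀ a : ℂ))⁻¹ ∈ RM M := inv_nat_RM hℓ.out hM (hprb a).2.2.2.2.2.2.2.1.2.2
    have k6 : (nS E₀ a : ℂ)⁻¹ * (-(((((x₁ c⁻¹ - x₁ (pr ℓ E₀ a c)⁻¹) *
            (x₂ d⁻¹ - x₂ (σ⁻¹ (pr ℓ E₀ a (σ d)))⁻¹) : ℤ) : ℚ) / (ℓ : ℚ) ^ 2 : ℚ) : ℂ) *
        ∑ᶠ χ ∈ Ch B a, nu B χ (pr ℓ E₀ a (c * σ d)) * cv (D.et a) χ ^ 2) =
        -((nS E₀ a : ℂ)⁻¹ * ((((x₁ c⁻¹ - x₁ (pr ℓ E₀ a c)⁻¹) *
            (x₂ d⁻¹ - x₂ (σ⁻¹ (pr ℓ E₀ a (σ d)))⁻¹) : ℤ) : ℂ) *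
        ((∑ᶠ χ ∈ Ch B a, nu B χ (pr ℓ E₀ a (c * σ d)) * cv (D.et a) χ ^ 2) /
          (ℓ : ℂ) ^ 2))) := by
      push_cast
      ring
    rw [k6]
    exact neg_mem (mul_mem k5 (mul_mem (intCast_mem _ _) k4))
  have e8 : (∑ᶠ σ ∈ {σ : MulAut V₀ | σ ∈ E₀},
      ∑ᶠ a ∈ {a : Subgroup V₀ | a ∈ RL ℓ E₀ ∧ c ∉ a ∧ σ d ∉ a},
      (nS E₀ a : ℂ)⁻¹ * FWS B m σ a (fun τ => F12 ℓ x₁ x₂ Ψ M₁ M₂ K c d τ -
        F12 ℓ x₁ x₂ Ψ M₁ M₂ K (pr ℓ E₀ a c) d τ -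
        F12 ℓ x₁ x₂ Ψ M₁ M₂ K c (σ⁻¹ (pr ℓ E₀ a (σ d))) τ +
        F12 ℓ x₁ x₂ Ψ M₁ M₂ K (pr ℓ E₀ a c) (σ⁻¹ (pr ℓ E₀ a (σ d))) τ)
        (tk B (pr ℓ E₀ a (c * σ d)) (fun g => mulF (D.et a) (D.et a) g))) ∈ RM M :=
    rm_fsum fun σ hσ => e7 σ hσ
  -- the sum over `σ`
  have e9 : ∀ σ ∈ {σ : MulAut V₀ | σ ∈ E₀}, (T0S ℓ E₀ B D m c d σ (F12 ℓ x₁ x₂ Ψ M₁ M₂ K c d) +
      (∑ᶠ a ∈ A, (ux D.U a (σ d) : ℚ) * FWS B m σ a (fun τ => F12 ℓ x₁ x₂ Ψ M₁ M₂ K c d τ -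
        F12 ℓ x₁ x₂ Ψ M₁ M₂ K (pr ℓ E₀ a c) d τ) (tk B (pr ℓ E₀ a (c * σ d)) (D.et a))) +
      (∑ᶠ a ∈ {a : Subgroup V₀ | a ∈ RL ℓ E₀ ∧ σ d ∉ a}, (ux D.U a c : ℚ) *
        FWS B m σ a (fun τ => F12 ℓ x₁ x₂ Ψ M₁ M₂ K c d τ -
          F12 ℓ x₁ x₂ Ψ M₁ M₂ K c (σ⁻¹ (pr ℓ E₀ a (σ d))) τ)
          (tk B (pr ℓ E₀ a (c * σ d)) (D.et a))) +
      ∑ᶠ a ∈ {a : Subgroup V₀ | a ∈ RL ℓ E₀ ∧ c ∉ a ∧ σ d ∉ a}, (nS E₀ a : ℂ)⁻¹ *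
        FWS B m σ a (fun τ => F12 ℓ x₁ x₂ Ψ M₁ M₂ K c d τ -
        F12 ℓ x₁ x₂ Ψ M₁ M₂ K (pr ℓ E₀ a c) d τ -
        F12 ℓ x₁ x₂ Ψ M₁ M₂ K c (σ⁻¹ (pr ℓ E₀ a (σ d))) τ +
        F12 ℓ x₁ x₂ Ψ M₁ M₂ K (pr ℓ E₀ a c) (σ⁻¹ (pr ℓ E₀ a (σ d))) τ)
        (tk B (pr ℓ E₀ a (c * σ d)) (fun g => mulF (D.et a) (D.et a) g))) =
      (((P12S ℓ E₀ D.U D.fx c d σ (F12 ℓ x₁ x₂ Ψ M₁ M₂ K c d) : ℚ) : ℂ) -
        (if c * σ d ≠ 1 then ((cS D.U c d σ (Subgroup.zpowers (c * σ d)) : ℚ) : ℂ) *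
          (((x₁ (c * σ d)⁻¹ * x₂ (σ⁻¹ (c * σ d))⁻¹ : ℤ) : ℂ) / (ℓ : ℂ) ^ 2) *
            LL B (mnl E₀ B (c * σ d) ⊥) else 0)) +
      ((∑ᶠ a ∈ {a : Subgroup V₀ | a ∈ RL ℓ E₀ ∧ c * σ d ∉ a},
        (DAS ℓ E₀ B D c d σ a (F12 ℓ x₁ x₂ Ψ M₁ M₂ K c d) - (cS D.U c d σ a : ℚ) *
          FWS B m σ a (F12 ℓ x₁ x₂ Ψ M₁ M₂ K c d) (tk B (pr ℓ E₀ a (c * σ d)) (D.et a)))) +
      (∑ᶠ a ∈ A, (ux D.U a (σ d) : ℚ) * FWS B m σ a (fun τ => F12 ℓ x₁ x₂ Ψ M₁ M₂ K c d τ -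
        F12 ℓ x₁ x₂ Ψ M₁ M₂ K (pr ℓ E₀ a c) d τ) (tk B (pr ℓ E₀ a (c * σ d)) (D.et a))) +
      (∑ᶠ a ∈ {a : Subgroup V₀ | a ∈ RL ℓ E₀ ∧ σ d ∉ a}, (ux D.U a c : ℚ) *
        FWS B m σ a (fun τ => F12 ℓ x₁ x₂ Ψ M₁ M₂ K c d τ -
          F12 ℓ x₁ x₂ Ψ M₁ M₂ K c (σ⁻¹ (pr ℓ E₀ a (σ d))) τ)
          (tk B (pr ℓ E₀ a (c * σ d)) (D.et a)))) +
      ∑ᶠ a ∈ {a : Subgroup V₀ | a ∈ RL ℓ E₀ ∧ c ∉ a ∧ σ d ∉ a}, (nS E₀ a : ℂ)⁻¹ *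
        FWS B m σ a (fun τ => F12 ℓ x₁ x₂ Ψ M₁ M₂ K c d τ -
        F12 ℓ x₁ x₂ Ψ M₁ M₂ K (pr ℓ E₀ a c) d τ -
        F12 ℓ x₁ x₂ Ψ M₁ M₂ K c (σ⁻¹ (pr ℓ E₀ a (σ d))) τ +
        F12 ℓ x₁ x₂ Ψ M₁ M₂ K (pr ℓ E₀ a c) (σ⁻¹ (pr ℓ E₀ a (σ d))) τ)
        (tk B (pr ℓ E₀ a (c * σ d)) (fun g => mulF (D.et a) (D.et a) g)) := by
    intro σ hσ
    rw [e4 σ hσ, finsum_mem_sub_distrib _ _ (Set.toFinite _)]
    have k : (if c * σ d ≠ 1 then ((cS D.U c d σ (Subgroup.zpowers (c * σ d)) *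
        (((x₁ (c * σ d)⁻¹ * x₂ (σ⁻¹ (c * σ d))⁻¹ : ℤ) : ℚ) / (ℓ : ℚ) ^ 2) : ℚ) : ℂ) *
          LL B (mnl E₀ B (c * σ d) ⊥) else 0) =
        (if c * σ d ≠ 1 then ((cS D.U c d σ (Subgroup.zpowers (c * σ d)) : ℚ) : ℂ) *
          (((x₁ (c * σ d)⁻¹ * x₂ (σ⁻¹ (c * σ d))⁻¹ : ℤ) : ℂ) / (ℓ : ℂ) ^ 2) *
            LL B (mnl E₀ B (c * σ d) ⊥) else 0) := by
      split_ifs
      · push_cast
        ring
      · rfl
    rw [k]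
    ring
  have hEf : {σ : MulAut V₀ | σ ∈ E₀}.Finite := Set.toFinite _
  rw [e3.trans (finsum_mem_congr rfl e9), e5, e2, finsum_mem_add_distrib hEf,
    finsum_mem_add_distrib hEf, finsum_mem_sub_distrib _ _ hEf, fsum_ite, ← cast_fsum,
    sum_p12, show {i : MulAut V₀ | i ∈ {σ : MulAut V₀ | σ ∈ E₀} ∧ c * i d ≠ 1} =
      {σ : MulAut V₀ | σ ∈ E₀ ∧ c * σ d ≠ 1} from rfl] at e1
  have e11 : ((PPE ℓ E₀ D.U D.fx c d F₁₃ (F12 ℓ x₁ x₂ Ψ M₁ M₂ K c d) : ℚ) : ℂ) =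
      ((∑ᶠ L ∈ {L : Set (SO.SS n V₀) | pL L ≠ ⊥ ∧ qL L ≠ ⊥},
        mob F₁₃ L * P13 ℓ E₀ D.U D.fx c d L : ℚ) : ℂ) +
      ((∑ᶠ L ∈ {L : Set (SO.SS n V₀) | pL L ≠ ⊥ ∧ qL L ≠ ⊥},
        mob (F12 ℓ x₁ x₂ Ψ M₁ M₂ K c d) L * P12 ℓ E₀ D.U D.fx c d L : ℚ) : ℂ) := by
    rw [← Rat.cast_add]
    congr 1
    exact finsum_mem_add_distrib (Set.toFinite _)
  refine (congrArg (· ∈ RM M) ?_).mp (sub_mem (sub_mem e1 e6) e8)
  rw [e11]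
  ring

end Pool.Agent.PP.SE.H30
end
end -- Pool.Agent.Helper30_ASE.TS5

section -- Pool.Agent.Helper44_ASE.MQC

/-!
# Squad ASE, row MQC (helper44): `MNE` is the rational number `MQ`
-/

open scoped BigOperators

noncomputable section

namespace Pool.Agent.PP.SE.H44

open Pool.Agent.Helper51_AWC Pool.Agent.Helper79_WRA Pool.Agent.PP Pool.Agent.PP.KF
open Pool.Agent.PP.K9 Pool.Agent.PP.K9.H97 Pool.Agent.PP.H75 Pool.Agent.PP.T3 Pool.Agent.PP.SO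
open Pool.Agent.PP.SD

attribute [local instance] Ideal.Quotient.field

theorem cast_fsum {α : Type} (s : Set α) (hs : s.Finite) (f : α → ℚ) :
    ((∑ᶠ a ∈ s, f a : ℚ) : ℂ) = ∑ᶠ a ∈ s, ((f a : ℚ) : ℂ) :=
  AddMonoidHom.map_finsum_mem f (Rat.castHom ℂ).toAddMonoidHom hs

theorem mqc (hPR : PrbStmt) : MqcStmt := by
  intro ℓ _ M _ V₀ G _ _ _ _ E₀ hF B D d₁ n₁ z₁ y₁ h x₁ x₂ c d hc hd
  have hpr : ∀ a ∈ RL ℓ E₀, ∀ x, pr ℓ E₀ a x ∈ a := fun a ha x =>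
    (hPR ℓ V₀ E₀ hF a).2.2.2.2.1 ha x
  unfold MNE MQ
  rw [Rat.cast_sub, Rat.cast_sub, Rat.cast_sub, cast_fsum _ (Set.toFinite _),
    cast_fsum _ (Set.toFinite _), cast_fsum _ (Set.toFinite _)]
  refine congrArg₂ _ (congrArg₂ _ (congrArg₂ _ ?_ ?_) ?_) ?_
  · rw [h.n c d hc hd]
    push_cast
    rfl
  · refine finsum_mem_congr rfl fun a ha => ?_
    rw [(h.y a ha.1 _ (hpr a ha.1 c) d hd).1]
    push_cast
    rfl
  · refine finsum_mem_congr rfl fun a ha => ?_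
    rw [(h.y a ha.1 _ (hpr a ha.1 d) c hc).2]
    push_cast
    rfl
  · refine finsum_mem_congr rfl fun σ hσ => ?_
    rw [Rat.cast_sub, cast_fsum _ (Set.toFinite _)]
    refine congrArg₂ _ ?_ ?_
    · rw [h.d _ hσ.2]
      push_cast
      rfl
    · refine finsum_mem_congr rfl fun a ha => ?_
      rw [h.z a ha.1 _ (hpr a ha.1 _)]
      push_cast
      rfl

end Pool.Agent.PP.SE.H44
end
end -- Pool.Agent.Helper44_ASE.MQC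

section -- Pool.Agent.Helper56_ASE.GXA

/-!
# Squad ASE, row GXA: the sum over the multiples
-/

open scoped BigOperators

noncomputable section

namespace Pool.Agent.PP.SE.H56

open Pool.Agent.Helper51_AWC Pool.Agent.Helper79_WRA Pool.Agent.PP Pool.Agent.PP.KF
open Pool.Agent.PP.K9 Pool.Agent.PP.K9.H97 Pool.Agent.PP.H75 Pool.Agent.PP.T3 Pool.Agent.PP.SO
open Pool.Agent.PP.SD

attribute [local instance] Ideal.Quotient.field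

theorem sum_zmod {ℓ : ℕ} [Fact ℓ.Prime] (hl : ℓ ≠ 2) : ∑ s : ZMod ℓ, s = 0 := by
  have hp : ℓ.Prime := Fact.out
  have h2 : 2 < ℓ := lt_of_le_of_ne hp.two_le (Ne.symm hl)
  have h := FiniteField.sum_pow_lt_card_sub_one (ZMod ℓ) 1 (by
    rw [ZMod.card]
    omega)
  simpa using h

theorem sum_zmod_inv {ℓ : ℕ} [Fact ℓ.Prime] (hl : ℓ ≠ 2) : ∑ s : ZMod ℓ, s⁻¹ = 0 := by
  rw [← sum_zmod hl]
  exact Equiv.sum_comp ⟨fun s : ZMod ℓ => s⁻¹, fun s => s⁻¹, inv_inv, inv_inv⟩ (fun s => s)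

theorem sum_zmod_one {ℓ : ℕ} [Fact ℓ.Prime] : ∑ s : ZMod ℓ, s⁻¹ * s = -1 := by
  classical
  have h1 : ∀ s : ZMod ℓ, s⁻¹ * s = 1 - if s = 0 then 1 else 0 := by
    intro s
    by_cases hs : s = 0
    · rw [if_pos hs, hs, mul_zero, sub_self]
    · rw [if_neg hs, sub_zero, inv_mul_cancel₀ hs]
  rw [Finset.sum_congr rfl fun s _ => h1 s, Finset.sum_sub_distrib,
    Finset.sum_ite_eq' Finset.univ (0 : ZMod ℓ), if_pos (Finset.mem_univ _), Finset.sum_const,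
    Finset.card_univ, ZMod.card, nsmul_eq_mul, CharP.cast_eq_zero, zero_mul, zero_sub]

theorem gxa : GxaStmt := by
  intro ℓ _ V Γ I _ _ _ _ _ _ ρ P Z hl e c d φ ψ
  have h1 : ∀ s : ZMod ℓ, s⁻¹ * ∑ a, Z a * (φ (P a (c + s • ρ e d)) *
      ψ (ρ e⁻¹ (P a (c + s • ρ e d)))) =
      s⁻¹ * (∑ a, Z a * (φ (P a c) * ψ (ρ e⁻¹ (P a c)))) +
      s⁻¹ * s * (∑ a, Z a * (φ (P a c) * ψ (ρ e⁻¹ (P a (ρ e d))) +
        φ (P a (ρ e d)) * ψ (ρ e⁻¹ (P a c)))) +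
      s * (∑ a, Z a * (φ (P a (ρ e d)) * ψ (ρ e⁻¹ (P a (ρ e d))))) := by
    intro s
    have h2 : ∀ a, Z a * (φ (P a (c + s • ρ e d)) * ψ (ρ e⁻¹ (P a (c + s • ρ e d)))) =
        Z a * (φ (P a c) * ψ (ρ e⁻¹ (P a c))) +
        s * (Z a * (φ (P a c) * ψ (ρ e⁻¹ (P a (ρ e d))) +
          φ (P a (ρ e d)) * ψ (ρ e⁻¹ (P a c)))) +
        s * s * (Z a * (φ (P a (ρ e d)) * ψ (ρ e⁻¹ (P a (ρ e d))))) := by
      intro a
      rw [map_add, map_smul, map_add, map_smul, map_add, map_smul, map_add, map_smul,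
        smul_eq_mul, smul_eq_mul]
      ring
    rw [Finset.sum_congr rfl fun a _ => h2 a, Finset.sum_add_distrib, Finset.sum_add_distrib,
      ← Finset.mul_sum, ← Finset.mul_sum]
    by_cases hs : s = 0
    · rw [hs]
      simp
    · have h3 : s⁻¹ * s = 1 := inv_mul_cancel₀ hs
      rw [mul_add, mul_add, ← mul_assoc, ← mul_assoc, ← mul_assoc, h3, one_mul, one_mul]
  rw [Finset.sum_congr rfl fun s _ => h1 s, Finset.sum_add_distrib, Finset.sum_add_distrib,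
    ← Finset.sum_mul, ← Finset.sum_mul, ← Finset.sum_mul, sum_zmod hl, sum_zmod_inv hl,
    sum_zmod_one]
  ring

end Pool.Agent.PP.SE.H56
end
end -- Pool.Agent.Helper56_ASE.GXA

section -- Pool.Agent.Helper56_ASE.TS3

/-!
# Squad ASE, row TS3: the terms with `pL ≠ ⊥`, `qL ≠ ⊥`
-/

open scoped BigOperators

noncomputable section

namespace Pool.Agent.PP.SE.H56

open Pool.Agent.Helper51_AWC Pool.Agent.Helper79_WRA Pool.Agent.PP Pool.Agent.PP.KF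
open Pool.Agent.PP.K9 Pool.Agent.PP.K9.H97 Pool.Agent.PP.H75 Pool.Agent.PP.T3 Pool.Agent.PP.SO
open Pool.Agent.PP.SD

attribute [local instance] Ideal.Quotient.field

theorem fsf {A : Type} [Fintype A] (p : A → Prop) [DecidablePred p] (f : A → ℂ) :
    ∑ᶠ x ∈ {x : A | p x}, f x = ∑ x ∈ Finset.univ.filter p, f x := by
  have h : ({x : A | p x} : Set A) = ((Finset.univ.filter p : Finset A) : Set A) := by
    ext x
    simp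
  rw [h, finsum_mem_coe_finset]

theorem sum_fib {A Lt : Type} [Fintype A] [Fintype Lt] [DecidableEq A] (P : A → Prop)
    [DecidablePred P] (q : Lt → Prop) [DecidablePred q] (π : Lt → A) (g : A → ℂ)
    (h : A → Lt → ℂ) :
    ∑ a ∈ Finset.univ.filter P, g a * ∑ L ∈ Finset.univ.filter (fun L => π L = a ∧ q L), h a L =
      ∑ L ∈ Finset.univ.filter q, if P (π L) then g (π L) * h (π L) L else 0 := by
  have h1 : ∀ a, g a * ∑ L ∈ Finset.univ.filter (fun L => π L = a ∧ q L), h a L =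
      ∑ L ∈ Finset.univ.filter q, if π L = a then g a * h a L else 0 := by
    intro a
    rw [Finset.mul_sum, ← Finset.sum_filter, Finset.filter_filter]
    refine Finset.sum_congr ?_ fun _ _ => rfl
    ext L
    simp only [Finset.mem_filter, Finset.mem_univ, true_and]
    exact and_comm
  rw [Finset.sum_congr rfl fun a _ => h1 a, Finset.sum_comm]
  refine Finset.sum_congr rfl fun L _ => ?_
  rw [Finset.sum_ite_eq (Finset.univ.filter P) (π L)]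
  simp only [Finset.mem_filter, Finset.mem_univ, true_and]

theorem mob_sub {A : Type} [Finite A] (F F' : Set A → ℚ) (L : Set A) :
    mob (fun τ => F τ - F' τ) L = mob F L - mob F' L := by
  unfold mob
  rw [← finsum_mem_sub_distrib (hs := Set.toFinite _)]
  refine finsum_mem_congr rfl fun T _ => ?_
  ring

theorem mob_add {A : Type} [Finite A] (F F' : Set A → ℚ) (L : Set A) :
    mob (fun τ => F τ + F' τ) L = mob F L + mob F' L := by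
  unfold mob
  rw [← finsum_mem_add_distrib (hs := Set.toFinite _)]
  refine finsum_mem_congr rfl fun T _ => ?_
  ring

section lin

variable {V₀ G : Type} [CommGroup V₀] [Group G] {M : Ideal (integralClosure ℤ ℂ)} [M.IsMaximal]
  {n : ℕ}

/-- the bilinear form of the `12`-sum -/
def Xf (B : Bk (FF M) V₀ G) (m : ℕ) (L : Set (SO.SS n V₀)) (α β : G → ℂ) : ℂ :=
  ((Nat.card (B.C (pL L)) : ℂ) * Nat.card (B.C (qL L)))⁻¹ *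
    ∑ᶠ w : G × G, α w.1 * β w.2 * {z : XX w.1 w.2 | ∀ s ∈ L,
      c12 m B.i z.1.1 z.1.2.1 z.1.2.2 s.1 s.2.1 s.2.2.1 s.2.2.2}.ncard

theorem x12_eq (B : Bk (FF M) V₀ G) (m : ℕ) (L : Set (SO.SS n V₀)) (a b : Subgroup V₀ → G → ℂ) :
    X12 B m a b L = Xf B m L (a (pL L)) (b (qL L)) := rfl

variable [Finite G]

theorem xf_add_left (B : Bk (FF M) V₀ G) (m : ℕ) (L : Set (SO.SS n V₀)) (α α' β : G → ℂ) :
    Xf B m L (fun g => α g + α' g) β = Xf B m L α β + Xf B m L α' β := by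
  have := Fintype.ofFinite G
  unfold Xf
  rw [finsum_eq_sum_of_fintype, finsum_eq_sum_of_fintype, finsum_eq_sum_of_fintype, ← mul_add,
    ← Finset.sum_add_distrib]
  congr 1
  exact Finset.sum_congr rfl fun w _ => by ring

theorem xf_add_right (B : Bk (FF M) V₀ G) (m : ℕ) (L : Set (SO.SS n V₀)) (α β β' : G → ℂ) :
    Xf B m L α (fun g => β g + β' g) = Xf B m L α β + Xf B m L α β' := by
  have := Fintype.ofFinite G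
  unfold Xf
  rw [finsum_eq_sum_of_fintype, finsum_eq_sum_of_fintype, finsum_eq_sum_of_fintype, ← mul_add,
    ← Finset.sum_add_distrib]
  congr 1
  exact Finset.sum_congr rfl fun w _ => by ring

theorem xf_zero_left (B : Bk (FF M) V₀ G) (m : ℕ) (L : Set (SO.SS n V₀)) (α β : G → ℂ)
    (h : ∀ g, α g = 0) : Xf B m L α β = 0 := by
  have := Fintype.ofFinite G
  unfold Xf
  rw [finsum_eq_sum_of_fintype, Finset.sum_eq_zero, mul_zero]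
  intro w _
  rw [h, zero_mul, zero_mul]

theorem xf_zero_right (B : Bk (FF M) V₀ G) (m : ℕ) (L : Set (SO.SS n V₀)) (α β : G → ℂ)
    (h : ∀ g, β g = 0) : Xf B m L α β = 0 := by
  have := Fintype.ofFinite G
  unfold Xf
  rw [finsum_eq_sum_of_fintype, Finset.sum_eq_zero, mul_zero]
  intro w _
  rw [h, mul_zero, zero_mul]

end lin

theorem el_map {V₀ : Type} [CommGroup V₀] {n : ℕ} {L : Set (SO.SS n V₀)} {σ : MulAut V₀} (h : ∀ s ∈ L, σ s.2.2.2 = s.2.2.1) :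
    mp σ (qL L) = pL L := by
  unfold mp qL pL
  rw [MonoidHom.map_closure]
  congr 1
  ext x
  constructor
  · rintro ⟨y, ⟨s, hs, rfl⟩, rfl⟩
    exact ⟨s, hs, (h s hs).symm⟩
  · rintro ⟨s, hs, rfl⟩
    exact ⟨s.2.2.2, ⟨s, hs, rfl⟩, h s hs⟩

open Classical in
/-- the terms of one `L` -/
theorem ts3_term (x2c : X2cStmt) (x2r : X2rStmt) (lfm : LfmStmt) (fmb : FmbStmt)
    (prb : PrbStmt) (mpb : MpbStmt)
    (ℓ : ℕ) [Fact ℓ.Prime] (M : Ideal (integralClosure ℤ ℂ)) [M.IsMaximal]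
    (hM : (ℓ : integralClosure ℤ ℂ) ∈ M) (hl2 : ℓ ≠ 2) (V₀ G : Type) [CommGroup V₀] [Finite V₀]
    [Group G] [Finite G] [Fintype (Subgroup V₀)] [Fintype (MulAut V₀)] (E₀ : Subgroup (MulAut V₀)) (hq : Fq ℓ V₀ E₀) (B : Bk (FF M) V₀ G)
    (hB : Sb ℓ M E₀ B) (D : Rd V₀ G) (hD : Rs ℓ E₀ B D) (n m : ℕ) (hP : PE ℓ n m G)
    (c d : V₀) (hc : c ≠ 1) (hd : d ≠ 1) (L : Set (SO.SS n V₀)) (hp : pL L ≠ ⊥) (hqL : qL L ≠ ⊥)
    (m00 : ℂ) (m10 m01 : V₀ → ℂ) (m11 : V₀ → V₀ → ℂ) :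
    m00 * X12 B m (mnl E₀ B c) (mnl E₀ B d) L -
      (∑ a ∈ Finset.univ.filter (fun a : Subgroup V₀ => a ∈ RL ℓ E₀ ∧ c ∉ a),
        m10 (pr ℓ E₀ a c) * X12 B m (etl B D a (pr ℓ E₀ a c)) (mnl E₀ B d) L) -
      (∑ b ∈ Finset.univ.filter (fun a : Subgroup V₀ => a ∈ RL ℓ E₀ ∧ d ∉ a),
        m01 (pr ℓ E₀ b d) * X12 B m (mnl E₀ B c) (etl B D b (pr ℓ E₀ b d)) L) +
      (∑ a ∈ Finset.univ.filter (fun a : Subgroup V₀ => a ∈ RL ℓ E₀ ∧ c ∉ a),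
        ∑ b ∈ Finset.univ.filter (fun a : Subgroup V₀ => a ∈ RL ℓ E₀ ∧ d ∉ a),
          m11 (pr ℓ E₀ a c) (pr ℓ E₀ b d) *
            X12 B m (etl B D a (pr ℓ E₀ a c)) (etl B D b (pr ℓ E₀ b d)) L) =
    ∑ σ ∈ Finset.univ.filter (fun σ : MulAut V₀ => σ ∈ E₀ ∧ ∀ s ∈ L, σ s.2.2.2 = s.2.2.1),
      (((cS D.U c d σ (pL L) : ℚ) : ℂ) * m00 *
          HX B m (pL L) (fm ℓ E₀ B D (pL L) (c * σ d)) L +
        (if pL L ∈ RL ℓ E₀ ∧ c ∉ pL L then ((ux D.U (pL L) (σ d) : ℚ) : ℂ) *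
          ((m00 - m10 (pr ℓ E₀ (pL L) c)) *
            HX B m (pL L) (tk B (pr ℓ E₀ (pL L) (c * σ d)) (D.et (pL L))) L) else 0) +
        (if pL L ∈ RL ℓ E₀ ∧ σ d ∉ pL L then ((ux D.U (pL L) c : ℚ) : ℂ) *
          ((m00 - m01 (σ⁻¹ (pr ℓ E₀ (pL L) (σ d)))) *
            HX B m (pL L) (tk B (pr ℓ E₀ (pL L) (c * σ d)) (D.et (pL L))) L) else 0) +
        (if pL L ∈ RL ℓ E₀ ∧ c ∉ pL L ∧ σ d ∉ pL L then (nS E₀ (pL L) : ℂ)⁻¹ *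
          ((m00 - m10 (pr ℓ E₀ (pL L) c) - m01 (σ⁻¹ (pr ℓ E₀ (pL L) (σ d))) +
              m11 (pr ℓ E₀ (pL L) c) (σ⁻¹ (pr ℓ E₀ (pL L) (σ d)))) *
            HX B m (pL L) (tk B (pr ℓ E₀ (pL L) (c * σ d))
              (fun g => mulF (D.et (pL L)) (D.et (pL L)) g)) L) else 0)) := by
  obtain ⟨W, hW⟩ : ∃ W : Subgroup V₀, W = pL L := ⟨_, rfl⟩
  obtain ⟨W', hW'⟩ : ∃ W' : Subgroup V₀, W' = qL L := ⟨_, rfl⟩
  -- the labels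
  obtain ⟨a1, a2, a3⟩ := lfm ℓ M hM V₀ G E₀ hq B hB D hD c hc W (hW ▸ hp)
  obtain ⟨b1, b2, b3⟩ := lfm ℓ M hM V₀ G E₀ hq B hB D hD d hd W' (hW' ▸ hqL)
  obtain ⟨X00, h00⟩ : ∃ x, x = Xf B m L (fm ℓ E₀ B D W c) (fm ℓ E₀ B D W' d) := ⟨_, rfl⟩
  obtain ⟨X10, h10⟩ : ∃ x, x = Xf B m L (tk B (pr ℓ E₀ W c) (D.et W)) (fm ℓ E₀ B D W' d) :=
    ⟨_, rfl⟩
  obtain ⟨X01, h01⟩ : ∃ x, x = Xf B m L (fm ℓ E₀ B D W c) (tk B (pr ℓ E₀ W' d) (D.et W')) :=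
    ⟨_, rfl⟩
  obtain ⟨X11, h11⟩ : ∃ x, x = Xf B m L (tk B (pr ℓ E₀ W c) (D.et W))
    (tk B (pr ℓ E₀ W' d) (D.et W')) := ⟨_, rfl⟩
  have hm1 : (W ∈ RL ℓ E₀ ∧ c ∉ W) → ∀ β, Xf B m L (mnl E₀ B c W) β =
      Xf B m L (fm ℓ E₀ B D W c) β + Xf B m L (tk B (pr ℓ E₀ W c) (D.et W)) β := by
    intro h β
    rw [← xf_add_left, funext (a1 h)]
  have hm2 : ¬ (W ∈ RL ℓ E₀ ∧ c ∉ W) → mnl E₀ B c W = fm ℓ E₀ B D W c := fun h =>
    funext (a2 h)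
  have hn1 : (W' ∈ RL ℓ E₀ ∧ d ∉ W') → ∀ α, Xf B m L α (mnl E₀ B d W') =
      Xf B m L α (fm ℓ E₀ B D W' d) + Xf B m L α (tk B (pr ℓ E₀ W' d) (D.et W')) := by
    intro h α
    rw [← xf_add_right, funext (b1 h)]
  have hn2 : ¬ (W' ∈ RL ℓ E₀ ∧ d ∉ W') → mnl E₀ B d W' = fm ℓ E₀ B D W' d := fun h =>
    funext (b2 h)
  have hea : ∀ κ, etl B D W κ W = tk B κ (D.et W) := fun κ => funext fun g => (a3 W κ g).1 rfl
  have heb : ∀ κ, etl B D W' κ W' = tk B κ (D.et W') := fun κ =>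
    funext fun g => (b3 W' κ g).1 rfl
  -- the sums
  have s1 : ∑ a ∈ Finset.univ.filter (fun a : Subgroup V₀ => a ∈ RL ℓ E₀ ∧ c ∉ a),
      m10 (pr ℓ E₀ a c) * X12 B m (etl B D a (pr ℓ E₀ a c)) (mnl E₀ B d) L =
      if W ∈ RL ℓ E₀ ∧ c ∉ W then m10 (pr ℓ E₀ W c) *
        Xf B m L (tk B (pr ℓ E₀ W c) (D.et W)) (mnl E₀ B d W') else 0 := by
    have hz : ∀ a, a ≠ W → m10 (pr ℓ E₀ a c) *
        X12 B m (etl B D a (pr ℓ E₀ a c)) (mnl E₀ B d) L = 0 := by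
      intro a ha
      rw [x12_eq, ← hW, xf_zero_left B m L _ _ (fun g => (a3 a _ g).2 (Ne.symm ha)), mul_zero]
    by_cases h : W ∈ RL ℓ E₀ ∧ c ∉ W
    · rw [Finset.sum_eq_single W (fun a _ ha => hz a ha), if_pos h, x12_eq, ← hW, ← hW',
        hea]
      intro h1
      exact absurd (Finset.mem_filter.2 ⟨Finset.mem_univ W, h⟩) h1
    · rw [if_neg h, Finset.sum_eq_zero]
      intro a ha
      refine hz a fun h1 => h ?_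
      rw [h1] at ha
      exact (Finset.mem_filter.1 ha).2
  have s2 : ∀ (mm : V₀ → ℂ) (α : Subgroup V₀ → G → ℂ),
      ∑ b ∈ Finset.univ.filter (fun a : Subgroup V₀ => a ∈ RL ℓ E₀ ∧ d ∉ a),
      mm (pr ℓ E₀ b d) * X12 B m α (etl B D b (pr ℓ E₀ b d)) L =
      if W' ∈ RL ℓ E₀ ∧ d ∉ W' then mm (pr ℓ E₀ W' d) *
        Xf B m L (α W) (tk B (pr ℓ E₀ W' d) (D.et W')) else 0 := by
    intro mm α
    have hz : ∀ a, a ≠ W' → mm (pr ℓ E₀ a d) *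
        X12 B m α (etl B D a (pr ℓ E₀ a d)) L = 0 := by
      intro a ha
      rw [x12_eq, ← hW', xf_zero_right B m L _ _ (fun g => (b3 a _ g).2 (Ne.symm ha)), mul_zero]
    by_cases h : W' ∈ RL ℓ E₀ ∧ d ∉ W'
    · rw [Finset.sum_eq_single W' (fun a _ ha => hz a ha), if_pos h, x12_eq, ← hW, ← hW',
        heb]
      intro h1
      exact absurd (Finset.mem_filter.2 ⟨Finset.mem_univ W', h⟩) h1
    · rw [if_neg h, Finset.sum_eq_zero]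
      intro a ha
      refine hz a fun h1 => h ?_
      rw [h1] at ha
      exact (Finset.mem_filter.1 ha).2
  -- the left side
  have hl : m00 * X12 B m (mnl E₀ B c) (mnl E₀ B d) L -
      (∑ a ∈ Finset.univ.filter (fun a : Subgroup V₀ => a ∈ RL ℓ E₀ ∧ c ∉ a),
        m10 (pr ℓ E₀ a c) * X12 B m (etl B D a (pr ℓ E₀ a c)) (mnl E₀ B d) L) -
      (∑ b ∈ Finset.univ.filter (fun a : Subgroup V₀ => a ∈ RL ℓ E₀ ∧ d ∉ a),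
        m01 (pr ℓ E₀ b d) * X12 B m (mnl E₀ B c) (etl B D b (pr ℓ E₀ b d)) L) +
      (∑ a ∈ Finset.univ.filter (fun a : Subgroup V₀ => a ∈ RL ℓ E₀ ∧ c ∉ a),
        ∑ b ∈ Finset.univ.filter (fun a : Subgroup V₀ => a ∈ RL ℓ E₀ ∧ d ∉ a),
          m11 (pr ℓ E₀ a c) (pr ℓ E₀ b d) *
            X12 B m (etl B D a (pr ℓ E₀ a c)) (etl B D b (pr ℓ E₀ b d)) L) =
      m00 * X00 + (if W ∈ RL ℓ E₀ ∧ c ∉ W then (m00 - m10 (pr ℓ E₀ W c)) * X10 else 0) +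
      (if W' ∈ RL ℓ E₀ ∧ d ∉ W' then (m00 - m01 (pr ℓ E₀ W' d)) * X01 else 0) +
      (if (W ∈ RL ℓ E₀ ∧ c ∉ W) ∧ (W' ∈ RL ℓ E₀ ∧ d ∉ W') then
        (m00 - m10 (pr ℓ E₀ W c) - m01 (pr ℓ E₀ W' d) +
          m11 (pr ℓ E₀ W c) (pr ℓ E₀ W' d)) * X11 else 0) := by
    rw [s1, s2 m01 (mnl E₀ B c)]
    have s3 : ∑ a ∈ Finset.univ.filter (fun a : Subgroup V₀ => a ∈ RL ℓ E₀ ∧ c ∉ a),
        ∑ b ∈ Finset.univ.filter (fun a : Subgroup V₀ => a ∈ RL ℓ E₀ ∧ d ∉ a),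
          m11 (pr ℓ E₀ a c) (pr ℓ E₀ b d) *
            X12 B m (etl B D a (pr ℓ E₀ a c)) (etl B D b (pr ℓ E₀ b d)) L =
        if (W ∈ RL ℓ E₀ ∧ c ∉ W) ∧ (W' ∈ RL ℓ E₀ ∧ d ∉ W') then
          m11 (pr ℓ E₀ W c) (pr ℓ E₀ W' d) * X11 else 0 := by
      rw [Finset.sum_congr rfl fun a _ => s2 (m11 (pr ℓ E₀ a c)) (etl B D a (pr ℓ E₀ a c))]
      by_cases h' : W' ∈ RL ℓ E₀ ∧ d ∉ W'
      · simp only [if_pos h']
        by_cases h : W ∈ RL ℓ E₀ ∧ c ∉ W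
        · rw [Finset.sum_eq_single W, if_pos ⟨h, h'⟩, hea, h11]
          · intro a _ ha
            rw [xf_zero_left B m L _ _ (fun g => (a3 a _ g).2 (Ne.symm ha)), mul_zero]
          · intro h1
            exact absurd (Finset.mem_filter.2 ⟨Finset.mem_univ W, h⟩) h1
        · rw [if_neg (fun h1 => h h1.1), Finset.sum_eq_zero]
          intro a ha
          have h2 : a ≠ W := by
            intro h1
            apply h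
            rw [h1] at ha
            exact (Finset.mem_filter.1 ha).2
          rw [xf_zero_left B m L _ _ (fun g => (a3 a _ g).2 (Ne.symm h2)), mul_zero]
      · simp only [if_neg h', Finset.sum_const_zero]
        rw [if_neg (fun h1 => h' h1.2)]
    rw [s3, x12_eq, ← hW, ← hW']
    by_cases h : W ∈ RL ℓ E₀ ∧ c ∉ W
    · by_cases h' : W' ∈ RL ℓ E₀ ∧ d ∉ W'
      · rw [if_pos h, if_pos h', if_pos h, if_pos h', if_pos ⟨h, h'⟩, if_pos ⟨h, h'⟩,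
          hm1 h, hn1 h', hn1 h', hm1 h, ← h00, ← h10, ← h01, ← h11]
        ring
      · rw [if_pos h, if_neg h', if_pos h, if_neg h', if_neg (fun h1 => h' h1.2),
          if_neg (fun h1 => h' h1.2), hm1 h, hn2 h', ← h00, ← h10]
        ring
    · by_cases h' : W' ∈ RL ℓ E₀ ∧ d ∉ W'
      · rw [if_neg h, if_pos h', if_neg h, if_pos h', if_neg (fun h1 => h h1.1),
          if_neg (fun h1 => h h1.1), hm2 h, hn1 h', ← h00, ← h01]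
        ring
      · rw [if_neg h, if_neg h', if_neg h, if_neg h', if_neg (fun h1 => h h1.1),
          if_neg (fun h1 => h h1.1), hm2 h, hn2 h', ← h00]
        ring
  rw [hl, ← hW]
  obtain ⟨p1, p2, p3, p4, p5, p6, p7, p8, p9, p10⟩ := prb ℓ V₀ E₀ hq W
  obtain ⟨q1, q2, q3, q4, q5, q6, q7, q8, q9, q10⟩ := prb ℓ V₀ E₀ hq W'
  have hWW : ∀ σ : MulAut V₀, (∀ s ∈ L, σ s.2.2.2 = s.2.2.1) → mp σ W' = W := by
    intro σ hσ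
    rw [hW, hW']
    exact el_map hσ
  have hRR : ∀ σ ∈ E₀, (∀ s ∈ L, σ s.2.2.2 = s.2.2.1) → (W ∈ RL ℓ E₀ ↔ W' ∈ RL ℓ E₀) := by
    intro σ hσE hσ
    have h1 := hWW σ hσ
    have h2 := (mpb V₀ σ 1 W' W').2.2.1
    have h3 := (q4 σ hσE).1
    rw [h1] at h2 h3
    unfold RL
    rw [Set.mem_setOf_eq, Set.mem_setOf_eq, h2, h3]
  have hdd : ∀ σ : MulAut V₀, (∀ s ∈ L, σ s.2.2.2 = s.2.2.1) → (σ d ∉ W ↔ d ∉ W') := by
    intro σ hσ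
    have h1 := (mpb V₀ σ 1 W' W').2.2.2.2.1 d
    rw [hWW σ hσ] at h1
    rw [h1]
  have hpp : ∀ σ ∈ E₀, (∀ s ∈ L, σ s.2.2.2 = s.2.2.1) →
      σ⁻¹ (pr ℓ E₀ W (σ d)) = pr ℓ E₀ W' d := by
    intro σ hσE hσ
    have h1 := (q4 σ hσE).2 d
    rw [hWW σ hσ] at h1
    rw [h1, MulAut.inv_apply_self]
  have hfilt : ∀ f : MulAut V₀ → ℂ, ∑ᶠ σ ∈ EL E₀ L, f σ =
      ∑ σ ∈ Finset.univ.filter (fun σ : MulAut V₀ => σ ∈ E₀ ∧ ∀ s ∈ L, σ s.2.2.2 = s.2.2.1),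
        f σ := fun f => fsf (fun σ : MulAut V₀ => σ ∈ E₀ ∧ ∀ s ∈ L, σ s.2.2.2 = s.2.2.1) f
  by_cases hE : ∃ σ ∈ E₀, ∀ s ∈ L, σ s.2.2.2 = s.2.2.1
  · obtain ⟨σ₀, hσ₀E, hσ₀⟩ := hE
    have hRR₀ := hRR σ₀ hσ₀E hσ₀
    obtain ⟨x1, x2⟩ := x2r ℓ M hM hl2 V₀ G E₀ hq B hB D hD n m hP c d L hp
    rw [x12_eq, ← hW, ← hW', ← h00, hfilt] at x1
    have hB10 : W ∈ RL ℓ E₀ → X10 = ∑ σ ∈ Finset.univ.filter
        (fun σ : MulAut V₀ => σ ∈ E₀ ∧ ∀ s ∈ L, σ s.2.2.2 = s.2.2.1),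
        ((ux D.U W (σ d) : ℚ) : ℂ) *
          HX B m W (tk B (pr ℓ E₀ W (c * σ d)) (D.et W)) L := by
      intro h
      have h1 := (x2 (hW ▸ h)).1
      rw [x12_eq, ← hW, ← hW', ← h10, hfilt] at h1
      exact h1
    have hB01 : W ∈ RL ℓ E₀ → X01 = ∑ σ ∈ Finset.univ.filter
        (fun σ : MulAut V₀ => σ ∈ E₀ ∧ ∀ s ∈ L, σ s.2.2.2 = s.2.2.1),
        ((ux D.U W c : ℚ) : ℂ) *
          HX B m W (tk B (pr ℓ E₀ W (c * σ d)) (D.et W)) L := by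
      intro h
      have h1 := (x2 (hW ▸ h)).2.1
      rw [x12_eq, ← hW, ← hW', ← h01, hfilt] at h1
      exact h1
    have hB11 : W ∈ RL ℓ E₀ → X11 = (nS E₀ W : ℂ)⁻¹ * ∑ σ ∈ Finset.univ.filter
        (fun σ : MulAut V₀ => σ ∈ E₀ ∧ ∀ s ∈ L, σ s.2.2.2 = s.2.2.1),
          HX B m W (tk B (pr ℓ E₀ W (c * σ d))
            (fun g => mulF (D.et W) (D.et W) g)) L := by
      intro h
      have h1 := (x2 (hW ▸ h)).2.2
      rw [x12_eq, ← hW, ← hW', ← h11, hfilt] at h1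
      exact h1
    rw [Finset.sum_add_distrib, Finset.sum_add_distrib, Finset.sum_add_distrib]
    congr 1
    · congr 1
      · congr 1
        · rw [x1, Finset.mul_sum]
          refine Finset.sum_congr rfl fun σ _ => ?_
          ring
        · by_cases h : W ∈ RL ℓ E₀ ∧ c ∉ W
          · simp only [if_pos h]
            rw [hB10 h.1, Finset.mul_sum]
            refine Finset.sum_congr rfl fun σ _ => ?_
            ring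
          · simp only [if_neg h, Finset.sum_const_zero]
      · by_cases h : W' ∈ RL ℓ E₀ ∧ d ∉ W'
        · rw [if_pos h, hB01 (hRR₀.2 h.1), Finset.mul_sum]
          refine Finset.sum_congr rfl fun σ hσ => ?_
          obtain ⟨_, hσE, hσ1⟩ := Finset.mem_filter.1 hσ
          rw [if_pos ⟨hRR₀.2 h.1, (hdd σ hσ1).2 h.2⟩, hpp σ hσE hσ1]
          ring
        · rw [if_neg h, Finset.sum_eq_zero]
          intro σ hσ
          obtain ⟨_, hσE, hσ1⟩ := Finset.mem_filter.1 hσ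
          rw [if_neg (fun h1 => h ⟨hRR₀.1 h1.1, (hdd σ hσ1).1 h1.2⟩)]
    · by_cases h : (W ∈ RL ℓ E₀ ∧ c ∉ W) ∧ (W' ∈ RL ℓ E₀ ∧ d ∉ W')
      · rw [if_pos h, hB11 h.1.1, mul_left_comm, Finset.mul_sum, Finset.mul_sum]
        refine Finset.sum_congr rfl fun σ hσ => ?_
        obtain ⟨_, hσE, hσ1⟩ := Finset.mem_filter.1 hσ
        rw [if_pos ⟨h.1.1, h.1.2, (hdd σ hσ1).2 h.2.2⟩, hpp σ hσE hσ1]
      · rw [if_neg h, Finset.sum_eq_zero]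
        intro σ hσ
        obtain ⟨_, hσE, hσ1⟩ := Finset.mem_filter.1 hσ
        rw [if_neg (fun h1 => h ⟨⟨h1.1, h1.2.1⟩, ⟨hRR₀.1 h1.1, (hdd σ hσ1).1 h1.2.2⟩⟩)]
  · have hem : Finset.univ.filter
        (fun σ : MulAut V₀ => σ ∈ E₀ ∧ ∀ s ∈ L, σ s.2.2.2 = s.2.2.1) = ∅ := by
      rw [Finset.filter_eq_empty_iff]
      intro σ _ h
      exact hE ⟨σ, h.1, h.2⟩
    rw [hem, Finset.sum_empty]
    have hzero : ∀ α β, Cz B W α → Cz B W' β → Xf B m L α β = 0 := by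
      intro α β hα hβ
      rw [hW] at hα
      rw [hW'] at hβ
      have h1 := (x2c ℓ M hM hl2 V₀ G E₀ hq B hB n m hP L (fun _ => α) (fun _ => β)).2 hα hβ hp
      rw [x12_eq, hfilt, hem, Finset.sum_empty, mul_zero] at h1
      exact h1
    obtain ⟨f1, _, f3, _⟩ := fmb ℓ M hM hl2 V₀ G E₀ hq B hB D hD W (hW ▸ hp)
    obtain ⟨g1, _, g3, _⟩ := fmb ℓ M hM hl2 V₀ G E₀ hq B hB D hD W' (hW' ▸ hqL)
    rw [h00, hzero _ _ (f1 c) (g1 d), mul_zero, zero_add]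
    by_cases h : W ∈ RL ℓ E₀ ∧ c ∉ W
    · have hc1 : Cz B W (tk B (pr ℓ E₀ W c) (D.et W)) := (f3 _ (p5 h.1 c)).1
      rw [if_pos h, h10, hzero _ _ hc1 (g1 d), mul_zero, zero_add]
      by_cases h' : W' ∈ RL ℓ E₀ ∧ d ∉ W'
      · have hd1 : Cz B W' (tk B (pr ℓ E₀ W' d) (D.et W')) := (g3 _ (q5 h'.1 d)).1
        rw [if_pos h', h01, hzero _ _ (f1 c) hd1, mul_zero, zero_add, if_pos ⟨h, h'⟩, h11,
          hzero _ _ hc1 hd1, mul_zero]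
      · rw [if_neg h', if_neg (fun h1 => h' h1.2), add_zero]
    · have hn : ¬ ((W ∈ RL ℓ E₀ ∧ c ∉ W) ∧ (W' ∈ RL ℓ E₀ ∧ d ∉ W')) := fun h1 => h h1.1
      rw [if_neg h, if_neg hn, zero_add, add_zero]
      by_cases h' : W' ∈ RL ℓ E₀ ∧ d ∉ W'
      · have hd1 : Cz B W' (tk B (pr ℓ E₀ W' d) (D.et W')) := (g3 _ (q5 h'.1 d)).1
        rw [if_pos h', h01, hzero _ _ (f1 c) hd1, mul_zero]
      · rw [if_neg h']

theorem ts3 (x2c : X2cStmt) (x2r : X2rStmt) (lfm : LfmStmt) (fmb : FmbStmt)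
    (prb : PrbStmt) (mpb : MpbStmt) : Ts3Stmt := by
  classical
  intro ℓ _ M _ hM hl2 V₀ G _ _ _ _ E₀ hq B hB D hD n m hP F c d hc hd
  have i1 : Fintype V₀ := Fintype.ofFinite V₀
  have i2 : Fintype (Subgroup V₀) := Fintype.ofFinite _
  have i3 : Fintype (MulAut V₀) := Fintype.ofFinite _
  have i4 : Fintype (Set (SO.SS n V₀)) := Fintype.ofFinite _
  have hbot : (⊥ : Subgroup V₀) ∉ RL ℓ E₀ := by
    intro h
    have h1 : Nat.card (⊥ : Subgroup V₀) = ℓ := h.1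
    rw [Subgroup.card_bot] at h1
    exact (Fact.out : ℓ.Prime).one_lt.ne h1
  -- the left side
  have hX : ∀ (α β : Subgroup V₀ → G → ℂ) (Φ : Set (SO.SS n V₀) → ℚ), X2N B m α β Φ =
      ∑ L ∈ Finset.univ.filter (fun L : Set (SO.SS n V₀) => pL L ≠ ⊥ ∧ qL L ≠ ⊥),
        ((mob Φ L : ℚ) : ℂ) * X12 B m α β L := fun α β Φ => fsf _ _
  have hFW : ∀ (σ : MulAut V₀) (a : Subgroup V₀) (Φ : Set (SO.SS n V₀) → ℚ) (z : G → ℂ),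
      FWS B m σ a Φ z = ∑ L ∈ Finset.univ.filter
        (fun L : Set (SO.SS n V₀) => pL L = a ∧ ∀ s ∈ L, σ s.2.2.2 = s.2.2.1),
        ((mob Φ L : ℚ) : ℂ) * HX B m a z L := fun σ a Φ z => fsf _ _
  have hT0 : ∀ σ : MulAut V₀, T0S ℓ E₀ B D m c d σ (F c d) = ∑ L ∈ Finset.univ.filter
      (fun L : Set (SO.SS n V₀) => pL L ≠ ⊥ ∧ ∀ s ∈ L, σ s.2.2.2 = s.2.2.1),
      ((cS D.U c d σ (pL L) * mob (F c d) L : ℚ) : ℂ) *
        HX B m (pL L) (fm ℓ E₀ B D (pL L) (c * σ d)) L := fun σ => fsf _ _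
  have e1 : ∀ (f : Subgroup V₀ → Set (SO.SS n V₀) → ℂ) (S : Finset (Subgroup V₀)),
      ∑ x ∈ S, ∑ L ∈ Finset.univ.filter (fun L : Set (SO.SS n V₀) => pL L ≠ ⊥ ∧ qL L ≠ ⊥),
        f x L = ∑ L ∈ Finset.univ.filter (fun L : Set (SO.SS n V₀) => pL L ≠ ⊥ ∧ qL L ≠ ⊥),
        ∑ x ∈ S, f x L := fun f S => Finset.sum_comm
  -- the right side
  obtain ⟨R, hR⟩ : ∃ R : MulAut V₀ → Set (SO.SS n V₀) → ℂ, ∀ σ L, R σ L =
      (if pL L ≠ ⊥ then ((cS D.U c d σ (pL L) * mob (F c d) L : ℚ) : ℂ) *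
        HX B m (pL L) (fm ℓ E₀ B D (pL L) (c * σ d)) L else 0) +
      (if pL L ∈ RL ℓ E₀ ∧ c ∉ pL L then ((ux D.U (pL L) (σ d) : ℚ) : ℂ) *
        (((mob (fun τ => F c d τ - F (pr ℓ E₀ (pL L) c) d τ) L : ℚ) : ℂ) *
          HX B m (pL L) (tk B (pr ℓ E₀ (pL L) (c * σ d)) (D.et (pL L))) L) else 0) +
      (if pL L ∈ RL ℓ E₀ ∧ σ d ∉ pL L then ((ux D.U (pL L) c : ℚ) : ℂ) *
        (((mob (fun τ => F c d τ - F c (σ⁻¹ (pr ℓ E₀ (pL L) (σ d))) τ) L : ℚ) : ℂ) *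
          HX B m (pL L) (tk B (pr ℓ E₀ (pL L) (c * σ d)) (D.et (pL L))) L) else 0) +
      (if pL L ∈ RL ℓ E₀ ∧ c ∉ pL L ∧ σ d ∉ pL L then (nS E₀ (pL L) : ℂ)⁻¹ *
        (((mob (fun τ => F c d τ - F (pr ℓ E₀ (pL L) c) d τ -
            F c (σ⁻¹ (pr ℓ E₀ (pL L) (σ d))) τ +
            F (pr ℓ E₀ (pL L) c) (σ⁻¹ (pr ℓ E₀ (pL L) (σ d))) τ) L : ℚ) : ℂ) *
          HX B m (pL L) (tk B (pr ℓ E₀ (pL L) (c * σ d))
            (fun g => mulF (D.et (pL L)) (D.et (pL L)) g)) L) else 0) :=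
    ⟨fun σ L => _, fun _ _ => rfl⟩
  have hin : ∀ σ : MulAut V₀, (T0S ℓ E₀ B D m c d σ (F c d) +
      (∑ᶠ a ∈ {a : Subgroup V₀ | a ∈ RL ℓ E₀ ∧ c ∉ a}, (ux D.U a (σ d) : ℚ) *
        FWS B m σ a (fun τ => F c d τ - F (pr ℓ E₀ a c) d τ)
          (tk B (pr ℓ E₀ a (c * σ d)) (D.et a))) +
      (∑ᶠ a ∈ {a : Subgroup V₀ | a ∈ RL ℓ E₀ ∧ σ d ∉ a}, (ux D.U a c : ℚ) *
        FWS B m σ a (fun τ => F c d τ - F c (σ⁻¹ (pr ℓ E₀ a (σ d))) τ)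
          (tk B (pr ℓ E₀ a (c * σ d)) (D.et a))) +
      ∑ᶠ a ∈ {a : Subgroup V₀ | a ∈ RL ℓ E₀ ∧ c ∉ a ∧ σ d ∉ a}, (nS E₀ a : ℂ)⁻¹ *
        FWS B m σ a (fun τ => F c d τ - F (pr ℓ E₀ a c) d τ - F c (σ⁻¹ (pr ℓ E₀ a (σ d))) τ +
          F (pr ℓ E₀ a c) (σ⁻¹ (pr ℓ E₀ a (σ d))) τ)
          (tk B (pr ℓ E₀ a (c * σ d)) (fun g => mulF (D.et a) (D.et a) g))) =
      ∑ L ∈ Finset.univ.filter (fun L : Set (SO.SS n V₀) => ∀ s ∈ L, σ s.2.2.2 = s.2.2.1),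
        R σ L := by
    intro σ
    simp only [hFW, hT0, fsf, hR]
    rw [Finset.sum_add_distrib, Finset.sum_add_distrib, Finset.sum_add_distrib]
    congr 1
    · congr 1
      · congr 1
        · rw [← Finset.sum_filter, Finset.filter_filter]
          refine Finset.sum_congr ?_ fun _ _ => rfl
          ext L
          simp only [Finset.mem_filter, Finset.mem_univ, true_and]
          exact and_comm
        · exact sum_fib (fun a : Subgroup V₀ => a ∈ RL ℓ E₀ ∧ c ∉ a)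
            (fun L : Set (SO.SS n V₀) => ∀ s ∈ L, σ s.2.2.2 = s.2.2.1) pL
            (fun a => ((ux D.U a (σ d) : ℚ) : ℂ))
            (fun a L => ((mob (fun τ => F c d τ - F (pr ℓ E₀ a c) d τ) L : ℚ) : ℂ) *
              HX B m a (tk B (pr ℓ E₀ a (c * σ d)) (D.et a)) L)
      · exact sum_fib (fun a : Subgroup V₀ => a ∈ RL ℓ E₀ ∧ σ d ∉ a)
            (fun L : Set (SO.SS n V₀) => ∀ s ∈ L, σ s.2.2.2 = s.2.2.1) pL
            (fun a => ((ux D.U a c : ℚ) : ℂ))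
            (fun a L => ((mob (fun τ => F c d τ - F c (σ⁻¹ (pr ℓ E₀ a (σ d))) τ) L : ℚ) : ℂ) *
              HX B m a (tk B (pr ℓ E₀ a (c * σ d)) (D.et a)) L)
    · exact sum_fib (fun a : Subgroup V₀ => a ∈ RL ℓ E₀ ∧ c ∉ a ∧ σ d ∉ a)
            (fun L : Set (SO.SS n V₀) => ∀ s ∈ L, σ s.2.2.2 = s.2.2.1) pL
            (fun a => (nS E₀ a : ℂ)⁻¹)
            (fun a L => ((mob (fun τ => F c d τ - F (pr ℓ E₀ a c) d τ -
              F c (σ⁻¹ (pr ℓ E₀ a (σ d))) τ +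
              F (pr ℓ E₀ a c) (σ⁻¹ (pr ℓ E₀ a (σ d))) τ) L : ℚ) : ℂ) *
              HX B m a (tk B (pr ℓ E₀ a (c * σ d)) (fun g => mulF (D.et a) (D.et a) g)) L)
  rw [fsf (fun σ : MulAut V₀ => σ ∈ E₀), Finset.sum_congr rfl fun σ _ => hin σ]
  rw [Finset.sum_comm' (t' := Finset.univ)
    (s' := fun L => Finset.univ.filter
      (fun σ : MulAut V₀ => σ ∈ E₀ ∧ ∀ s ∈ L, σ s.2.2.2 = s.2.2.1)) (by
    intro σ L
    simp only [Finset.mem_filter, Finset.mem_univ, true_and, and_true])]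
  simp only [hX, fsf]
  simp only [e1]
  rw [← Finset.sum_sub_distrib, ← Finset.sum_sub_distrib, ← Finset.sum_add_distrib]
  rw [← Finset.sum_subset (Finset.filter_subset
    (fun L : Set (SO.SS n V₀) => pL L ≠ ⊥ ∧ qL L ≠ ⊥) Finset.univ)]
  · refine Finset.sum_congr rfl fun L hL => ?_
    obtain ⟨_, hp, hqL⟩ := Finset.mem_filter.1 hL
    have h1 := ts3_term x2c x2r lfm fmb prb mpb ℓ M hM hl2 V₀ G E₀ hq B hB D hD n m hP c d hc hd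
      L hp hqL ((mob (F c d) L : ℚ) : ℂ) (fun κ => ((mob (F κ d) L : ℚ) : ℂ))
      (fun κ => ((mob (F c κ) L : ℚ) : ℂ)) (fun κ κ' => ((mob (F κ κ') L : ℚ) : ℂ))
    rw [h1]
    refine Finset.sum_congr (by
      ext σ
      simp only [Finset.mem_filter, Finset.mem_univ, true_and]) fun σ _ => ?_
    rw [hR, if_pos hp]
    have h2 : mob (fun τ => F c d τ - F (pr ℓ E₀ (pL L) c) d τ) L =
        mob (F c d) L - mob (F (pr ℓ E₀ (pL L) c) d) L := mob_sub _ _ L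
    have h3 : mob (fun τ => F c d τ - F c (σ⁻¹ (pr ℓ E₀ (pL L) (σ d))) τ) L =
        mob (F c d) L - mob (F c (σ⁻¹ (pr ℓ E₀ (pL L) (σ d)))) L := mob_sub _ _ L
    have h4 : mob (fun τ => F c d τ - F (pr ℓ E₀ (pL L) c) d τ -
        F c (σ⁻¹ (pr ℓ E₀ (pL L) (σ d))) τ +
        F (pr ℓ E₀ (pL L) c) (σ⁻¹ (pr ℓ E₀ (pL L) (σ d))) τ) L =
        mob (F c d) L - mob (F (pr ℓ E₀ (pL L) c) d) L -
          mob (F c (σ⁻¹ (pr ℓ E₀ (pL L) (σ d)))) L +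
          mob (F (pr ℓ E₀ (pL L) c) (σ⁻¹ (pr ℓ E₀ (pL L) (σ d)))) L := by
      rw [mob_add (fun τ => F c d τ - F (pr ℓ E₀ (pL L) c) d τ -
        F c (σ⁻¹ (pr ℓ E₀ (pL L) (σ d))) τ), mob_sub (fun τ => F c d τ -
        F (pr ℓ E₀ (pL L) c) d τ), h2]
    rw [h2, h3, h4]
    push_cast
    rfl
  · intro L _ hL
    refine Finset.sum_eq_zero fun σ hσ => ?_
    obtain ⟨_, hσE, hσ1⟩ := Finset.mem_filter.1 hσ
    have hp : pL L = ⊥ := by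
      by_contra hp
      apply hL
      refine Finset.mem_filter.2 ⟨Finset.mem_univ _, hp, ?_⟩
      intro h1
      apply hp
      rw [← el_map hσ1, h1]
      exact (mpb V₀ σ 1 ⊥ ⊥).2.2.2.2.2.2.2.2.1
    rw [hR, hp, if_neg (fun h => h rfl), if_neg (fun h => hbot h.1), if_neg (fun h => hbot h.1),
      if_neg (fun h => hbot h.1)]
    simp

end Pool.Agent.PP.SE.H56
end
end -- Pool.Agent.Helper56_ASE.TS3

section -- Pool.Agent.Helper59_ASE.TS1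

/-!
# Squad ASE, row TS1: the part of `F₁₃`
-/

set_option autoImplicit false

open scoped BigOperators

noncomputable section

namespace Pool.Agent.PP.SE.H59

open Pool.Agent.Helper51_AWC Pool.Agent.Helper79_WRA Pool.Agent.PP Pool.Agent.PP.KF
open Pool.Agent.PP.K9 Pool.Agent.PP.K9.H97 Pool.Agent.PP.H75 Pool.Agent.PP.T3 Pool.Agent.PP.SO
open Pool.Agent.PP.SD

attribute [local instance] Ideal.Quotient.field

section aux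

variable {V₀ G : Type} [CommGroup V₀] [Group G] {M : Ideal (integralClosure ℤ ℂ)} [M.IsMaximal]

/-- the bilinear form of `L` -/
def Q13 {n : ℕ} (B : Bk (FF M) V₀ G) (m : ℕ) (L : Set (SO.SS n V₀)) (f f' : G → ℂ) : ℂ :=
  ((Nat.card (B.C (pL L)) : ℂ) * Nat.card (B.C (qL L)))⁻¹ *
    ∑ᶠ w : G × G, f w.1 * f' w.2 * {z : XX w.1 w.2 | ∀ s ∈ L,
      c13 m B.i w.1 z.1.1 z.1.2.1 z.1.2.2 s.1 s.2.1 s.2.2.1 s.2.2.2}.ncard

omit [M.IsMaximal] in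
theorem x13_eq {n : ℕ} (B : Bk (FF M) V₀ G) (m : ℕ) (a b : Subgroup V₀ → G → ℂ)
    (L : Set (SO.SS n V₀)) : X13 B m a b L = Q13 B m L (a (pL L)) (b (qL L)) := rfl

omit [M.IsMaximal] in
theorem q13_add_left [Finite G] {n : ℕ} (B : Bk (FF M) V₀ G) (m : ℕ) (L : Set (SO.SS n V₀))
    (f g f' : G → ℂ) : Q13 B m L (fun x => f x + g x) f' = Q13 B m L f f' + Q13 B m L g f' := by
  have := Fintype.ofFinite G
  unfold Q13
  rw [finsum_eq_sum_of_fintype, finsum_eq_sum_of_fintype, finsum_eq_sum_of_fintype, ← mul_add,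
    ← Finset.sum_add_distrib]
  congr 1
  exact Finset.sum_congr rfl fun w _ => by ring

omit [M.IsMaximal] in
theorem q13_add_right [Finite G] {n : ℕ} (B : Bk (FF M) V₀ G) (m : ℕ) (L : Set (SO.SS n V₀))
    (f f' g' : G → ℂ) : Q13 B m L f (fun x => f' x + g' x) = Q13 B m L f f' + Q13 B m L f g' := by
  have := Fintype.ofFinite G
  unfold Q13
  rw [finsum_eq_sum_of_fintype, finsum_eq_sum_of_fintype, finsum_eq_sum_of_fintype, ← mul_add,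
    ← Finset.sum_add_distrib]
  congr 1
  exact Finset.sum_congr rfl fun w _ => by ring

omit [M.IsMaximal] in
theorem q13_zero_left {n : ℕ} (B : Bk (FF M) V₀ G) (m : ℕ) (L : Set (SO.SS n V₀))
    (f' : G → ℂ) : Q13 B m L (fun _ => 0) f' = 0 := by
  unfold Q13
  simp

omit [M.IsMaximal] in
theorem q13_zero_right {n : ℕ} (B : Bk (FF M) V₀ G) (m : ℕ) (L : Set (SO.SS n V₀))
    (f : G → ℂ) : Q13 B m L f (fun _ => 0) = 0 := by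
  unfold Q13
  simp

/-- the sum over the labels of `c` at `W` -/
theorem lab_sum (lfm : LfmStmt) {ℓ : ℕ} [Fact ℓ.Prime] (hM : (ℓ : integralClosure ℤ ℂ) ∈ M)
    [Finite V₀] [Finite G] {E₀ : Subgroup (MulAut V₀)} (hF : Fq ℓ V₀ E₀)
    (B : Bk (FF M) V₀ G) (hB : Sb ℓ M E₀ B) (D : Rd V₀ G) (hD : Rs ℓ E₀ B D) {c : V₀}
    (hc : c ≠ 1) {W : Subgroup V₀} (hW : W ≠ ⊥) (Φ : (G → ℂ) → ℂ)
    (hadd : ∀ f g : G → ℂ, Φ (fun x => f x + g x) = Φ f + Φ g) (h0 : Φ (fun _ => 0) = 0) :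
    Φ (mnl E₀ B c W) - ∑ᶠ a ∈ {a : Subgroup V₀ | a ∈ RL ℓ E₀ ∧ c ∉ a},
      Φ (etl B D a (pr ℓ E₀ a c) W) = Φ (fm ℓ E₀ B D W c) := by
  obtain ⟨h1, h1', h3⟩ := lfm ℓ M hM V₀ G E₀ hF B hB D hD c hc W hW
  by_cases hWR : W ∈ RL ℓ E₀ ∧ c ∉ W
  · have e1 : mnl E₀ B c W = fun x => fm ℓ E₀ B D W c x + tk B (pr ℓ E₀ W c) (D.et W) x :=
      funext fun g => h1 hWR g
    have e2 : ∑ᶠ a ∈ {a : Subgroup V₀ | a ∈ RL ℓ E₀ ∧ c ∉ a}, Φ (etl B D a (pr ℓ E₀ a c) W) =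
        Φ (tk B (pr ℓ E₀ W c) (D.et W)) := by
      rw [finsum_mem_def, finsum_eq_single _ W]
      · rw [Set.indicator_of_mem (show W ∈ {a : Subgroup V₀ | a ∈ RL ℓ E₀ ∧ c ∉ a} from hWR)]
        exact congrArg Φ (funext fun g => (h3 W _ g).1 rfl)
      · intro a ha
        rw [Set.indicator_apply_eq_zero]
        intro _
        have e3 : etl B D a (pr ℓ E₀ a c) W = fun _ => 0 :=
          funext fun g => (h3 a _ g).2 (Ne.symm ha)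
        rw [e3, h0]
    rw [e2, e1, hadd]
    ring
  · have e1 : mnl E₀ B c W = fm ℓ E₀ B D W c := funext fun g => h1' hWR g
    have e2 : ∑ᶠ a ∈ {a : Subgroup V₀ | a ∈ RL ℓ E₀ ∧ c ∉ a}, Φ (etl B D a (pr ℓ E₀ a c) W) =
        0 := by
      refine finsum_mem_eq_zero_of_forall_eq_zero fun a ha => ?_
      have : W ≠ a := fun h => hWR (h ▸ ha)
      have e3 : etl B D a (pr ℓ E₀ a c) W = fun _ => 0 :=
        funext fun g => (h3 a _ g).2 this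
      rw [e3, h0]
    rw [e2, e1, sub_zero]

theorem mob_zero {A : Type} (F : Set A → ℚ) (L : Set A) (h : ∀ T, T ⊆ L → F T = 0) :
    mob F L = 0 := by
  unfold mob
  refine finsum_mem_eq_zero_of_forall_eq_zero fun T hT => ?_
  rw [h T hT, mul_zero]

theorem hm_one {V₁ : Type} [CommGroup V₁] {ℓ : ℕ} {ρ : V₁ → ZMod ℓ} (h : Hm ρ) : ρ 1 = 0 := by
  have h1 := h 1 1
  rw [mul_one] at h1
  exact left_eq_add.1 h1

theorem pL_bot {n : ℕ} {L : Set (SO.SS n V₀)} (h : pL L = ⊥) {s : SO.SS n V₀} (hs : s ∈ L) :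
    s.2.2.1 = 1 := by
  have h1 : s.2.2.1 ∈ pL L := Subgroup.subset_closure ⟨s, hs, rfl⟩
  rw [h] at h1
  exact Subgroup.mem_bot.1 h1

theorem qL_bot {n : ℕ} {L : Set (SO.SS n V₀)} (h : qL L = ⊥) {s : SO.SS n V₀} (hs : s ∈ L) :
    s.2.2.2 = 1 := by
  have h1 : s.2.2.2 ∈ qL L := Subgroup.subset_closure ⟨s, hs, rfl⟩
  rw [h] at h1
  exact Subgroup.mem_bot.1 h1

end aux

/-- TS1 -/
theorem ts1 (lfm : LfmStmt) (x3r : X3rStmt) : Ts1Stmt := by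
  intro ℓ _ M _ hM h2 V₀ G _ _ _ _ E₀ hF B hB D hD n m hP ρ₁ ρ₂ hρ₁ hρ₂ F hFz c d hc hd
  have hz : ∀ L : Set (SO.SS n V₀), ¬ (pL L ≠ ⊥ ∧ qL L ≠ ⊥) → mob F L = 0 := by
    intro L hL
    refine mob_zero F L fun T hT => hFz T ?_
    by_cases h : pL L = ⊥
    · refine Or.inl fun s hs => ?_
      rw [pL_bot h (hT hs), hm_one hρ₁]
    · have h' : qL L = ⊥ := by
        by_contra h'
        exact hL ⟨h, h'⟩
      refine Or.inr fun s hs => ?_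
      rw [qL_bot h' (hT hs), hm_one hρ₂]
  have hv : ∀ L : Set (SO.SS n V₀), pL L ≠ ⊥ → qL L ≠ ⊥ →
      X13 B m (mnl E₀ B c) (mnl E₀ B d) L -
      (∑ᶠ a ∈ {a : Subgroup V₀ | a ∈ RL ℓ E₀ ∧ c ∉ a},
        X13 B m (etl B D a (pr ℓ E₀ a c)) (mnl E₀ B d) L) -
      (∑ᶠ b ∈ {b : Subgroup V₀ | b ∈ RL ℓ E₀ ∧ d ∉ b},
        X13 B m (mnl E₀ B c) (etl B D b (pr ℓ E₀ b d)) L) +
      ∑ᶠ a ∈ {a : Subgroup V₀ | a ∈ RL ℓ E₀ ∧ c ∉ a},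
        ∑ᶠ b ∈ {b : Subgroup V₀ | b ∈ RL ℓ E₀ ∧ d ∉ b},
          X13 B m (etl B D a (pr ℓ E₀ a c)) (etl B D b (pr ℓ E₀ b d)) L =
        ((P13 ℓ E₀ D.U D.fx c d L : ℚ) : ℂ) := by
    intro L hp hq
    rw [← x3r ℓ M hM h2 V₀ G E₀ hF B hB D hD n m hP c d L hp hq]
    simp only [x13_eq]
    have a1 : ∀ f : G → ℂ, Q13 B m L f (mnl E₀ B d (qL L)) -
        ∑ᶠ b ∈ {b : Subgroup V₀ | b ∈ RL ℓ E₀ ∧ d ∉ b},
          Q13 B m L f (etl B D b (pr ℓ E₀ b d) (qL L)) = Q13 B m L f (fm ℓ E₀ B D (qL L) d) :=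
      fun f => lab_sum lfm hM hF B hB.toSb D hD hd hq (Q13 B m L f)
        (q13_add_right B m L f) (q13_zero_right B m L f)
    have a2 : ∀ f' : G → ℂ, Q13 B m L (mnl E₀ B c (pL L)) f' -
        ∑ᶠ a ∈ {a : Subgroup V₀ | a ∈ RL ℓ E₀ ∧ c ∉ a},
          Q13 B m L (etl B D a (pr ℓ E₀ a c) (pL L)) f' = Q13 B m L (fm ℓ E₀ B D (pL L) c) f' :=
      fun f' => lab_sum lfm hM hF B hB.toSb D hD hc hp (fun f => Q13 B m L f f')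
        (fun f g => q13_add_left B m L f g f') (q13_zero_left B m L f')
    have a3 : (∑ᶠ a ∈ {a : Subgroup V₀ | a ∈ RL ℓ E₀ ∧ c ∉ a},
        ∑ᶠ b ∈ {b : Subgroup V₀ | b ∈ RL ℓ E₀ ∧ d ∉ b},
          Q13 B m L (etl B D a (pr ℓ E₀ a c) (pL L)) (etl B D b (pr ℓ E₀ b d) (qL L))) =
        (∑ᶠ a ∈ {a : Subgroup V₀ | a ∈ RL ℓ E₀ ∧ c ∉ a},
          Q13 B m L (etl B D a (pr ℓ E₀ a c) (pL L)) (mnl E₀ B d (qL L))) -
        ∑ᶠ a ∈ {a : Subgroup V₀ | a ∈ RL ℓ E₀ ∧ c ∉ a},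
          Q13 B m L (etl B D a (pr ℓ E₀ a c) (pL L)) (fm ℓ E₀ B D (qL L) d) := by
      rw [← finsum_mem_sub_distrib _ _ (Set.toFinite _)]
      refine finsum_mem_congr rfl fun a _ => ?_
      rw [← a1 (etl B D a (pr ℓ E₀ a c) (pL L))]
      ring
    rw [a3]
    have a4 := a1 (mnl E₀ B c (pL L))
    have a5 := a2 (fm ℓ E₀ B D (qL L) d)
    linear_combination a4 + a5
  have := Fintype.ofFinite (Set (SO.SS n V₀))
  rw [finsum_eq_sum_of_fintype, finsum_mem_def, finsum_eq_sum_of_fintype, Rat.cast_sum]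
  refine Finset.sum_congr rfl fun L _ => ?_
  by_cases hL : pL L ≠ ⊥ ∧ qL L ≠ ⊥
  · rw [hv L hL.1 hL.2, Set.indicator_of_mem
      (show L ∈ {L : Set (SO.SS n V₀) | pL L ≠ ⊥ ∧ qL L ≠ ⊥} from hL), Rat.cast_mul]
  · rw [hz L hL, Set.indicator_of_notMem
      (show L ∉ {L : Set (SO.SS n V₀) | pL L ≠ ⊥ ∧ qL L ≠ ⊥} from hL), Rat.cast_zero, zero_mul]

end Pool.Agent.PP.SE.H59
end
end -- Pool.Agent.Helper59_ASE.TS1

section -- Pool.Agent.Helper72_ASE.GSC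

/-!
# Squad ASE, row GSC: the absolutely irreducible case
-/

open scoped BigOperators

noncomputable section

namespace Pool.Agent.PP.SE.H72

open Pool.Agent.PP Pool.Agent.PP.SO Pool.Agent.PP.SE

/-- the average of an operator is half of its trace -/
theorem avg_tr {ℓ : ℕ} [Fact ℓ.Prime] {V Γ : Type} [AddCommGroup V] [Module (ZMod ℓ) V]
    [Group Γ] [Fintype Γ] (ρ : Γ →* Module.End (ZMod ℓ) V)
    (hrk : Module.finrank (ZMod ℓ) V = 2)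
    (hA : ∀ A : Module.End (ZMod ℓ) V, ∃ a : ZMod ℓ, ∑ e : Γ, ρ e * A * ρ e⁻¹ = a • 1)
    (A : Module.End (ZMod ℓ) V) :
    (2 : ZMod ℓ) • ∑ e : Γ, ρ e * A * ρ e⁻¹ =
      ((Fintype.card Γ : ZMod ℓ) * LinearMap.trace (ZMod ℓ) V A) • 1 := by
  obtain ⟨a, ha⟩ := hA A
  have hfin : Module.Finite (ZMod ℓ) V := Module.finite_of_finrank_pos (by omega)
  have h4 : (2 : ZMod ℓ) * a = (Fintype.card Γ : ZMod ℓ) * LinearMap.trace (ZMod ℓ) V A := by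
    have h5 := congrArg (LinearMap.trace (ZMod ℓ) V) ha
    rw [map_sum, map_smul, LinearMap.trace_one, hrk] at h5
    have h6 : ∀ e : Γ, LinearMap.trace (ZMod ℓ) V (ρ e * A * ρ e⁻¹) =
        LinearMap.trace (ZMod ℓ) V A := by
      intro e
      rw [LinearMap.trace_mul_cycle, ← map_mul, inv_mul_cancel, map_one, one_mul]
    rw [Finset.sum_congr rfl (fun e _ => h6 e), Finset.sum_const, Finset.card_univ,
      nsmul_eq_mul] at h5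
    rw [h5, smul_eq_mul]
    push_cast
    ring
  rw [ha, smul_smul, h4]

theorem gsc (lav : SO.LAvStmt) : GscStmt := by
  intro ℓ _ V Γ I _ _ _ _ _ _ ρ P Z FF s₀ h hP hF hH hGG hA
  have hav := lav ℓ V Γ ρ hF.od hF.rk hA
  have key : ∀ (lam mu : V →ₗ[ZMod ℓ] ZMod ℓ) (c d : V),
      (2 : ZMod ℓ) * ∑ e : Γ, lam (ρ e⁻¹ c) * mu (ρ e d) =
        (Fintype.card Γ : ZMod ℓ) * lam d * mu c := by
    intro lam mu c d
    have h1 := congrArg mu (hav lam c d)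
    rw [map_smul, map_smul, map_sum, smul_eq_mul, smul_eq_mul] at h1
    rw [← h1]
    congr 1
    apply Finset.sum_congr rfl
    intro e _
    rw [map_smul, smul_eq_mul]
  have hnt : Nontrivial V := Module.nontrivial_of_finrank_pos (R := ZMod ℓ)
    (by rw [hF.rk]; norm_num)
  obtain ⟨c, hc⟩ := exists_ne (0 : V)
  obtain ⟨φ, hφ⟩ : ∃ φ : V →ₗ[ZMod ℓ] ZMod ℓ, φ c ≠ 0 := by
    by_contra hcon
    push Not at hcon
    exact hc ((Module.forall_dual_apply_eq_zero_iff (ZMod ℓ) c).1 hcon)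
  have h0 := hGG c c hc hc φ φ
  obtain ⟨n, hn⟩ : ∃ n : ZMod ℓ, n = Fintype.card Γ := ⟨_, rfl⟩
  have hn0 : n ≠ 0 := by rw [hn]; exact hF.cp
  obtain ⟨f, hf⟩ : ∃ f : ZMod ℓ, f = Fintype.card Γ * s₀ + ∑ a, Z a := ⟨_, rfl⟩
  rw [← hf] at h0 hF hH
  rw [← hn] at hf
  rw [← hn] at h0
  simp only [← hn] at key
  have hcc : h c c = FF c - f := (hH c hc).1
  -- (1)
  have hQ : (2 : ZMod ℓ) * φ (∑ a, Z a • P a c) = (∑ a, Z a) * φ c := by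
    have e1 := avg_tr ρ hF.rk hA (∑ a, Z a • P a)
    have e2 : ∀ e : Γ, ρ e * (∑ a, Z a • P a) * ρ e⁻¹ = ∑ a, Z a • P a := by
      intro e
      rw [hP.qc e, mul_assoc, ← map_mul, mul_inv_cancel, map_one, mul_one]
    rw [Finset.sum_congr rfl (fun e _ => e2 e), Finset.sum_const, Finset.card_univ, map_sum] at e1
    have e3 : ∑ a, LinearMap.trace (ZMod ℓ) V (Z a • P a) = ∑ a, Z a := by
      refine Finset.sum_congr rfl fun a _ => ?_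
      rw [map_smul, hP.tr a, smul_eq_mul, mul_one]
    rw [e3] at e1
    have e4 := congrArg φ (LinearMap.congr_fun e1 c)
    have e5 : ((2 : ZMod ℓ) • Fintype.card Γ • ∑ a, Z a • P a) c =
        ((2 : ZMod ℓ) * n) • ∑ a, Z a • P a c := by
      rw [hn, mul_smul, LinearMap.smul_apply, Nat.cast_smul_eq_nsmul, LinearMap.smul_apply,
        LinearMap.sum_apply]
      rfl
    have e6 : (((Fintype.card Γ : ZMod ℓ) * ∑ a, Z a) • (1 : Module.End (ZMod ℓ) V)) c =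
        (n * ∑ a, Z a) • c := by
      rw [hn]
      rfl
    rw [e5, e6, map_smul, map_smul, smul_eq_mul, smul_eq_mul] at e4
    apply mul_left_cancel₀ hn0
    linear_combination e4
  -- (2)
  have k1 := key φ φ c c
  have k2 := key φ (h c) c c
  have k3 := key (h c) φ c c
  rw [hcc] at k2 k3
  have e2 : (2 : ZMod ℓ) * ∑ e : Γ, ((f - FF c - FF c) * φ (ρ e c) * φ (ρ e⁻¹ c)
      + h c (ρ e c) * φ c * φ (ρ e⁻¹ c) + h c (ρ e⁻¹ c) * φ (ρ e c) * φ c)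
      = (f - FF c - FF c) * (2 * ∑ e : Γ, φ (ρ e⁻¹ c) * φ (ρ e c))
        + φ c * (2 * ∑ e : Γ, φ (ρ e⁻¹ c) * h c (ρ e c))
        + φ c * (2 * ∑ e : Γ, h c (ρ e⁻¹ c) * φ (ρ e c)) := by
    rw [Finset.mul_sum, Finset.mul_sum, Finset.mul_sum, Finset.mul_sum, Finset.mul_sum,
      Finset.mul_sum, Finset.mul_sum, ← Finset.sum_add_distrib, ← Finset.sum_add_distrib]
    apply Finset.sum_congr rfl
    intro e _
    ring
  rw [k1, k2, k3] at e2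
  -- (3)
  have hpp : ∀ (a : I) (v : V), P a (P a v) = P a v := by
    intro a v
    have := congrArg (fun A : Module.End (ZMod ℓ) V => A v) (hP.pp a)
    exact this
  have h3a : (2 : ZMod ℓ) * ∑ e : Γ, ∑ a, Z a * (φ (P a c) * φ (ρ e⁻¹ (P a (ρ e c)))) =
      n * φ c * φ (∑ a, Z a • P a c) := by
    rw [Finset.sum_comm, Finset.mul_sum, map_sum, Finset.mul_sum]
    refine Finset.sum_congr rfl fun a _ => ?_
    have e3 := avg_tr ρ hF.rk hA (P a)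
    rw [hP.tr a, mul_one, ← hn] at e3
    have e4 : ∑ e : Γ, ρ e * P a * ρ e⁻¹ = ∑ e : Γ, ρ e⁻¹ * P a * ρ e := by
      rw [← Equiv.sum_comp (Equiv.inv Γ) (fun e => ρ e⁻¹ * P a * ρ e)]
      refine Finset.sum_congr rfl fun e _ => ?_
      simp
    rw [e4] at e3
    have e5 := congrArg φ (LinearMap.congr_fun e3 c)
    have e6 : ((2 : ZMod ℓ) • ∑ e : Γ, ρ e⁻¹ * P a * ρ e) c =
        (2 : ZMod ℓ) • ∑ e : Γ, ρ e⁻¹ (P a (ρ e c)) := by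
      rw [LinearMap.smul_apply, LinearMap.sum_apply]
      rfl
    have e7 : (n • (1 : Module.End (ZMod ℓ) V)) c = n • c := rfl
    rw [e6, e7, map_smul, map_smul, map_sum, smul_eq_mul, smul_eq_mul] at e5
    have e8 : ∑ e : Γ, Z a * (φ (P a c) * φ (ρ e⁻¹ (P a (ρ e c)))) =
        Z a * (φ (P a c) * ∑ e : Γ, φ (ρ e⁻¹ (P a (ρ e c)))) := by
      rw [Finset.mul_sum, Finset.mul_sum]
    rw [e8, map_smul, smul_eq_mul]
    linear_combination (Z a * φ (P a c)) * e5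
  have h3b : (2 : ZMod ℓ) * ∑ e : Γ, ∑ a, Z a * (φ (P a (ρ e c)) * φ (ρ e⁻¹ (P a c))) =
      n * φ c * φ (∑ a, Z a • P a c) := by
    rw [Finset.sum_comm, Finset.mul_sum, map_sum, Finset.mul_sum]
    refine Finset.sum_congr rfl fun a _ => ?_
    have e3 := key φ (φ ∘ₗ P a) (P a c) c
    simp only [LinearMap.comp_apply] at e3
    rw [hpp] at e3
    have e8 : ∑ e : Γ, Z a * (φ (P a (ρ e c)) * φ (ρ e⁻¹ (P a c))) =
        Z a * ∑ e : Γ, φ (ρ e⁻¹ (P a c)) * φ (P a (ρ e c)) := by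
      rw [Finset.mul_sum]
      refine Finset.sum_congr rfl fun e _ => ?_
      ring
    rw [e8, map_smul, smul_eq_mul]
    linear_combination (Z a) * e3
  have h3c : ∑ e : Γ, ∑ a, Z a * (φ (P a c) * φ (ρ e⁻¹ (P a (ρ e c))) +
      φ (P a (ρ e c)) * φ (ρ e⁻¹ (P a c))) =
      ∑ e : Γ, ∑ a, Z a * (φ (P a c) * φ (ρ e⁻¹ (P a (ρ e c)))) +
      ∑ e : Γ, ∑ a, Z a * (φ (P a (ρ e c)) * φ (ρ e⁻¹ (P a c))) := by
    rw [← Finset.sum_add_distrib]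
    refine Finset.sum_congr rfl fun e _ => ?_
    rw [← Finset.sum_add_distrib]
    refine Finset.sum_congr rfl fun a _ => ?_
    ring
  rw [h3c] at h0
  have e9 : n * φ c ^ 2 * (∑ a, Z a - f) = 0 := by
    linear_combination (2 : ZMod ℓ) * h0 - e2 - h3a - h3b + (n * φ c) * hQ
  have hfin : f = ∑ a, Z a := by
    rcases mul_eq_zero.1 e9 with e3 | e3
    · rcases mul_eq_zero.1 e3 with e4 | e4
      · exact absurd e4 hn0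
      · exact absurd (pow_eq_zero_iff two_ne_zero |>.1 e4) hφ
    · exact (sub_eq_zero.1 e3).symm
  rw [hfin] at hf
  have e10 : n * s₀ = 0 := by linear_combination -hf
  exact (mul_eq_zero.1 e10).resolve_left hn0

end Pool.Agent.PP.SE.H72
end
end -- Pool.Agent.Helper72_ASE.GSC

section -- Pool.Agent.Helper84_ASE.GDH

/-!
# Squad ASE, row GDH: the sums `GD`
-/

set_option autoImplicit false

noncomputable section

namespace Pool.Agent.PP.SE.H84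

open Pool.Agent.Helper51_AWC Pool.Agent.Helper79_WRA Pool.Agent.PP Pool.Agent.PP.KF
open Pool.Agent.PP.K9 Pool.Agent.PP.K9.H97 Pool.Agent.PP.H75 Pool.Agent.PP.T3 Pool.Agent.PP.SO
open Pool.Agent.PP.SD

attribute [local instance] Ideal.Quotient.field

theorem fs {α : Type} [Fintype α] (S : Set α) [DecidablePred (· ∈ S)] (f : α → ℚ) :
    ∑ᶠ x ∈ S, f x = ∑ x, if x ∈ S then f x else 0 := by
  classical
  rw [finsum_mem_def, finsum_eq_sum_of_fintype]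
  refine Finset.sum_congr rfl fun x _ => ?_
  by_cases h : x ∈ S
  · rw [Set.indicator_of_mem h, if_pos h]
  · rw [Set.indicator_of_notMem h, if_neg h]

/-- subgroups -/
theorem sub {ℓ : ℕ} [hℓ : Fact ℓ.Prime] {V₀ : Type} [CommGroup V₀] [Finite V₀]
    (hc : Nat.card V₀ = ℓ ^ 2) (W : Subgroup V₀) : W = ⊥ ∨ Nat.card W = ℓ ∨ W = ⊤ := by
  have h1 : Nat.card W ∣ ℓ ^ 2 := hc ▸ Subgroup.card_subgroup_dvd_card W
  obtain ⟨k, hk, h2⟩ := (Nat.dvd_prime_pow hℓ.out).1 h1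
  interval_cases k
  · left
    rw [pow_zero] at h2
    exact Subgroup.card_eq_one.1 h2
  · right; left
    rw [pow_one] at h2
    exact h2
  · right; right
    exact Subgroup.eq_top_of_card_eq W (h2.trans hc.symm)

/-- a line and an element outside -/
theorem line {ℓ : ℕ} [hℓ : Fact ℓ.Prime] {V₀ : Type} [CommGroup V₀] [Finite V₀]
    {a : Subgroup V₀} (hex : ∀ v : V₀, v ^ ℓ = 1) {κ : V₀}
    (hκ : κ ∉ a) (k : ℕ) (hk : κ ^ k ∈ a) : κ ^ k = 1 := by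
  by_cases h : ℓ ∣ k
  · obtain ⟨m, rfl⟩ := h
    rw [pow_mul, hex, one_pow]
  · exfalso
    apply hκ
    have h1 : Nat.Coprime k ℓ := ((Nat.Prime.coprime_iff_not_dvd hℓ.out).2 h).symm
    obtain ⟨m, -, hm⟩ := Nat.exists_mul_mod_eq_one_of_coprime h1 hℓ.out.one_lt
    have h2 : κ ^ (k * m) = κ := by
      conv_rhs => rw [← pow_one κ]
      rw [pow_eq_pow_iff_modEq]
      have h3 : k * m ≡ 1 [MOD ℓ] := by
        unfold Nat.ModEq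
        rw [hm, Nat.mod_eq_of_lt hℓ.out.one_lt]
      exact h3.of_dvd (orderOf_dvd_of_pow_eq_one (hex κ))
    rw [← h2, pow_mul]
    exact a.pow_mem hk m

/-- GDH -/
theorem gdh (hMBI : MbiStmt) : GdhStmt := by
  classical
  intro ℓ hℓ V₀ _ _ E₀ hF n U c d σ a ha hκ F T hT
  generalize hκd : c * σ d = κ at hκ hT
  have : Fintype (Set (SO.SS n V₀)) := Fintype.ofFinite _
  have hane : a ≠ ⊥ := by
    rintro rfl
    rw [Subgroup.card_bot] at ha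
    exact hℓ.out.one_lt.ne ha
  -- the subgroup `aL`
  have haL : ∀ L : Set (SO.SS n V₀), L ⊆ T → (aL κ L = a ↔ ¬ L ⊆ A1 κ T) := by
    intro L hL
    constructor
    · intro h1 h2
      apply hane
      rw [← h1, eq_bot_iff]
      unfold aL
      rw [Subgroup.closure_le]
      rintro x ⟨s, hs, rfl⟩
      exact (h2 hs).2
    · intro h1
      have h2 : aL κ L ≤ a := by
        unfold aL
        rw [Subgroup.closure_le]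
        rintro x ⟨s, hs, rfl⟩
        exact hT s (hL hs)
      have h3 : Nat.card (aL κ L) ∣ ℓ := ha ▸ Subgroup.card_dvd_of_le h2
      rcases (Nat.dvd_prime hℓ.out).1 h3 with h4 | h4
      · exfalso
        apply h1
        intro s hs
        refine ⟨hL hs, ?_⟩
        have h5 : κ ^ (s.2.1 : ℕ) * s.2.2.1 ∈ aL κ L := Subgroup.subset_closure ⟨s, hs, rfl⟩
        rw [Subgroup.card_eq_one.1 h4] at h5
        exact h5
      · exact Subgroup.eq_of_le_of_card_ge h2 (by rw [h4, ha])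
  -- the subgroup `pL`
  have hpL : ∀ L : Set (SO.SS n V₀), L ⊆ T → aL κ L = a → pL L ≠ ⊥ := by
    intro L hL h1 h2
    rw [haL L hL] at h1
    apply h1
    intro s hs
    refine ⟨hL hs, ?_⟩
    have h3 : s.2.2.1 ∈ pL L := Subgroup.subset_closure ⟨s, hs, rfl⟩
    rw [h2, Subgroup.mem_bot] at h3
    have h4 := hT s (hL hs)
    rw [h3, mul_one] at h4 ⊢
    exact line hF.ex hκ _ h4
  -- Moebius inversion
  have hH : ∀ T' : Set (SO.SS n V₀), T' ⊆ T → F T' - F (A1 κ T') =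
      ∑ L : Set (SO.SS n V₀), if L ⊆ T' ∧ aL κ L = a then mob F L else 0 := by
    intro T' hT'
    have e1 := (hMBI _ F).1 T'
    have e2 := (hMBI _ F).1 (A1 κ T')
    rw [← e1, ← e2, fs, fs, ← Finset.sum_sub_distrib]
    refine Finset.sum_congr rfl fun L _ => ?_
    change (if L ⊆ T' then mob F L else 0) - (if L ⊆ A1 κ T' then mob F L else 0) = _
    have hA : A1 κ T' ⊆ T' := fun s hs => hs.1
    by_cases h1 : L ⊆ T'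
    · have h3 : L ⊆ A1 κ T' ↔ L ⊆ A1 κ T :=
        ⟨fun h s hs => ⟨hT' (h1 hs), (h hs).2⟩, fun h s hs => ⟨h1 hs, (h hs).2⟩⟩
      by_cases h2 : L ⊆ A1 κ T'
      · rw [if_pos h1, if_pos h2, if_neg, sub_self]
        rintro ⟨-, h4⟩
        exact (haL L (h1.trans hT')).1 h4 (h3.1 h2)
      · rw [if_pos h1, if_neg h2, if_pos ⟨h1, (haL L (h1.trans hT')).2 fun h => h2 (h3.2 h)⟩,
          sub_zero]
    · rw [if_neg h1, if_neg fun h => h1 (h.trans hA), if_neg fun h => h1 h.1, sub_zero]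
  have hcS : cS U c d σ ⊤ = 1 := by
    unfold cS ux
    simp
  -- the sum over the lines
  have hsub : ∀ W : Subgroup V₀, {s | s ∈ T ∧ s.2.2.1 ∈ W} ⊆ T := fun W s hs => hs.1
  rw [hH T subset_rfl]
  have hW : ∀ W : Subgroup V₀, (cS U c d σ W - 1) * (F {s | s ∈ T ∧ s.2.2.1 ∈ W} -
      F (A1 κ {s | s ∈ T ∧ s.2.2.1 ∈ W})) = ∑ L : Set (SO.SS n V₀),
      if L ⊆ T ∧ aL κ L = a then (if pL L ≤ W then (cS U c d σ W - 1) * mob F L else 0) else 0 := by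
    intro W
    rw [hH _ (hsub W), Finset.mul_sum]
    refine Finset.sum_congr rfl fun L _ => ?_
    have h1 : L ⊆ {s | s ∈ T ∧ s.2.2.1 ∈ W} ↔ L ⊆ T ∧ pL L ≤ W := by
      unfold pL
      rw [Subgroup.closure_le]
      constructor
      · intro h
        refine ⟨fun s hs => (h hs).1, ?_⟩
        rintro x ⟨s, hs, rfl⟩
        exact (h hs).2
      · rintro ⟨h, h'⟩ s hs
        exact ⟨h hs, h' ⟨s, hs, rfl⟩⟩
    by_cases h2 : L ⊆ T ∧ aL κ L = a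
    · by_cases h3 : pL L ≤ W
      · rw [if_pos h2, if_pos h3, if_pos ⟨h1.2 ⟨h2.1, h3⟩, h2.2⟩]
      · rw [if_pos h2, if_neg h3, if_neg fun h => h3 (h1.1 h.1).2, mul_zero]
    · rw [if_neg h2, if_neg fun h => h2 ⟨(h1.1 h.1).1, h.2⟩, mul_zero]
  simp_rw [hW]
  have : Fintype (Subgroup V₀) := Fintype.ofFinite _
  rw [fs {W : Subgroup V₀ | Nat.card W = ℓ}]
  have h5 : (∑ W : Subgroup V₀, if W ∈ {W : Subgroup V₀ | Nat.card W = ℓ} then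
      ∑ L : Set (SO.SS n V₀), (if L ⊆ T ∧ aL κ L = a then
        (if pL L ≤ W then (cS U c d σ W - 1) * mob F L else 0) else 0) else 0) =
      ∑ L : Set (SO.SS n V₀), ∑ W : Subgroup V₀, if W ∈ {W : Subgroup V₀ | Nat.card W = ℓ} then
      (if L ⊆ T ∧ aL κ L = a then
        (if pL L ≤ W then (cS U c d σ W - 1) * mob F L else 0) else 0) else 0 := by
    rw [Finset.sum_comm]
    refine Finset.sum_congr rfl fun W _ => ?_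
    by_cases h6 : W ∈ {W : Subgroup V₀ | Nat.card W = ℓ}
    · simp only [if_pos h6]
    · simp only [if_neg h6, Finset.sum_const_zero]
  rw [h5, ← Finset.sum_add_distrib]
  unfold GD
  rw [hκd, fs]
  refine Finset.sum_congr rfl fun L _ => ?_
  by_cases h2 : L ⊆ T ∧ aL κ L = a
  · have h2' : L ∈ {L | L ⊆ T ∧ aL κ L = a} := h2
    rw [if_pos h2', if_pos h2]
    simp only [if_pos h2]
    rcases sub hF.cd (pL L) with h6 | h6 | h6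
    · exact absurd h6 (hpL L h2.1 h2.2)
    · rw [Finset.sum_eq_single (pL L)]
      · have h6' : pL L ∈ {W : Subgroup V₀ | Nat.card W = ℓ} := h6
        rw [if_pos h6', if_pos le_rfl]
        ring
      · intro W _ hWne
        by_cases h7 : W ∈ {W : Subgroup V₀ | Nat.card W = ℓ}
        · rw [if_pos h7, if_neg]
          intro h8
          exact hWne (Subgroup.eq_of_le_of_card_ge h8 (by rw [h6]; exact h7.le)).symm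
        · rw [if_neg h7]
      · intro h
        exact absurd (Finset.mem_univ _) h
    · rw [h6, hcS, Finset.sum_eq_zero, one_mul, add_zero]
      intro W _
      by_cases h7 : W ∈ {W : Subgroup V₀ | Nat.card W = ℓ}
      · rw [if_pos h7, if_neg]
        intro h8
        have h9 : W = ⊤ := top_le_iff.1 h8
        have h10 : Nat.card W = ℓ := h7
        rw [h9, Subgroup.card_top, hF.cd] at h10
        have h11 := hℓ.out.one_lt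
        nlinarith
      · rw [if_neg h7]
  · have h2' : L ∉ {L | L ⊆ T ∧ aL κ L = a} := h2
    rw [if_neg h2', if_neg h2]
    simp only [if_neg h2]
    simp

end Pool.Agent.PP.SE.H84
end
end -- Pool.Agent.Helper84_ASE.GDH

section -- Pool.Agent.Helper96_ASE.KLP

/-!
# Squad ASE, row KLP: the projections of the lines of `RL`
-/

set_option autoImplicit false

noncomputable section

namespace Pool.Agent.PP.SE.H96

open Pool.Agent.PP.SD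

theorem klp (hPrb : PrbStmt) (hMpb : MpbStmt) : KlpStmt := by
  intro ℓ hℓ V₀ _ _ E₀ hF _ _ _ ρ P Z hρ hP hZ
  have hp : ℓ.Prime := hℓ.out
  have hcP : ∀ (a : {a : Subgroup V₀ // a ∈ RL ℓ E₀}) (v : V₀), pr ℓ E₀ a.1 v ∈ a.1 := fun a =>
    (hPrb ℓ V₀ E₀ hF a.1).2.2.2.2.1 a.2
  have hpp : ∀ (a : {a : Subgroup V₀ // a ∈ RL ℓ E₀}), P a * P a = P a := by
    intro a
    refine LinearMap.ext fun v => ?_
    show P a (P a (Additive.ofMul (Additive.toMul v))) = P a (Additive.ofMul (Additive.toMul v))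
    rw [hP a, hP a, (hPrb ℓ V₀ E₀ hF a.1).1 _ (hcP a _)]
  have hmpR : ∀ σ : E₀, ∀ a ∈ RL ℓ E₀, mp σ.1 a ∈ RL ℓ E₀ := by
    intro σ a ha
    refine ⟨?_, ?_⟩
    · rw [(hMpb V₀ σ.1 σ.1 a a).2.2.1]
      exact ha.1
    · rw [((hPrb ℓ V₀ E₀ hF a).2.2.2.1 σ.1 σ.2).1]
      exact ha.2
  refine ⟨hpp, ?_, ?_, ?_, ?_⟩
  · intro a
    have h1 : LinearMap.IsProj (LinearMap.range (P a)) (P a) :=
      ⟨fun x => ⟨x, rfl⟩, fun x hx => by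
        obtain ⟨y, rfl⟩ := hx
        exact LinearMap.congr_fun (hpp a) y⟩
    rw [h1.trace]
    have h2 : Nat.card (LinearMap.range (P a)) = ℓ := by
      refine Eq.trans (Nat.card_congr (β := a.1) ?_) a.2.1
      exact
        { toFun := fun v => ⟨Additive.toMul v.1, by
            obtain ⟨y, hy⟩ := v.2
            rw [← hy]
            show Additive.toMul (P a (Additive.ofMul (Additive.toMul y))) ∈ a.1
            rw [hP a]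
            exact hcP a _⟩
          invFun := fun w => ⟨Additive.ofMul w.1, ⟨Additive.ofMul w.1, by
            rw [hP a, (hPrb ℓ V₀ E₀ hF a.1).1 _ w.2]⟩⟩
          left_inv := fun v => rfl
          right_inv := fun w => rfl }
    have hfr : Fintype (LinearMap.range (P a)) := Fintype.ofFinite _
    have h3 := Module.card_eq_pow_finrank (K := ZMod ℓ) (V := LinearMap.range (P a))
    rw [← Nat.card_eq_fintype_card, ← Nat.card_eq_fintype_card, h2, Nat.card_zmod] at h3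
    have h4 : Module.finrank (ZMod ℓ) (LinearMap.range (P a)) = 1 :=
      (Nat.pow_right_injective hp.two_le (by
        show ℓ ^ Module.finrank (ZMod ℓ) (LinearMap.range (P a)) = ℓ ^ 1
        rw [← h3, pow_one]))
    rw [h4, Nat.cast_one]
  · intro a
    have h1 : 1 < Nat.card (St E₀ a.1) := a.2.2
    have h2 := Finite.one_lt_card_iff_nontrivial.mp h1
    obtain ⟨τ, hτ⟩ := exists_ne (1 : St E₀ a.1)
    refine ⟨⟨τ.1, τ.2.1⟩, ?_, ?_⟩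
    · refine LinearMap.ext fun v => ?_
      show ρ _ (P a (Additive.ofMul (Additive.toMul v))) = P a (Additive.ofMul (Additive.toMul v))
      rw [hP a, hρ, ((hPrb ℓ V₀ E₀ hF a.1).2.2.1 τ.1 τ.2 _).2]
    · intro h3
      apply hτ
      apply Subtype.ext
      refine MulEquiv.ext fun v => ?_
      have h4 := LinearMap.congr_fun h3 (Additive.ofMul v)
      rw [hρ] at h4
      exact Additive.ofMul.injective h4
  · intro θ hθ a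
    have hft : Fintype (St E₀ a.1) := Fintype.ofFinite _
    have h1 : ∑ τ : St E₀ a.1, ρ ⟨τ.1, τ.2.1⟩ = ((nS E₀ a.1 : ℕ) : ZMod ℓ) • P a := by
      refine LinearMap.ext fun v => ?_
      rw [LinearMap.sum_apply, LinearMap.smul_apply, Nat.cast_smul_eq_nsmul]
      have h2 := (hPrb ℓ V₀ E₀ hF a.1).2.2.2.2.2.2.2.2.2 (Additive.toMul v)
      rw [finprod_eq_prod_of_fintype] at h2
      have h3 : ∑ τ : St E₀ a.1, (ρ ⟨τ.1, τ.2.1⟩) v =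
          Additive.ofMul (∏ τ : St E₀ a.1, (τ : MulAut V₀) (Additive.toMul v)) := by
        rw [ofMul_prod]
        exact Finset.sum_congr rfl fun τ _ => hρ ⟨τ.1, τ.2.1⟩ (Additive.toMul v)
      rw [h3, h2, ofMul_pow]
      show _ = nS E₀ a.1 • P a (Additive.ofMul (Additive.toMul v))
      rw [hP a]
    have h2 : θ * (((nS E₀ a.1 : ℕ) : ZMod ℓ) • P a) = (((nS E₀ a.1 : ℕ) : ZMod ℓ) • P a) * θ := by
      rw [← h1, Finset.mul_sum, Finset.sum_mul]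
      exact Finset.sum_congr rfl fun τ _ => hθ _
    rw [mul_smul_comm, smul_mul_assoc] at h2
    have h3 : ((nS E₀ a.1 : ℕ) : ZMod ℓ) ≠ 0 := fun h =>
      (hPrb ℓ V₀ E₀ hF a.1).2.2.2.2.2.2.2.1.2.2 ((ZMod.natCast_eq_zero_iff _ _).mp h)
    have h4 := congrArg (fun A => (((nS E₀ a.1 : ℕ) : ZMod ℓ)⁻¹) • A) h2
    simp only [smul_smul, inv_mul_cancel₀ h3, one_smul] at h4
    exact h4
  · intro e
    rw [Finset.mul_sum, Finset.sum_mul]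
    let π : {a : Subgroup V₀ // a ∈ RL ℓ E₀} ≃ {a : Subgroup V₀ // a ∈ RL ℓ E₀} :=
      { toFun := fun a => ⟨mp e.1 a.1, hmpR e a.1 a.2⟩
        invFun := fun a => ⟨mp (e⁻¹ : E₀).1 a.1, hmpR e⁻¹ a.1 a.2⟩
        left_inv := fun a => Subtype.ext (by
          show mp (e.1)⁻¹ (mp e.1 a.1) = a.1
          rw [← (hMpb V₀ (e.1)⁻¹ e.1 a.1 a.1).2.1, inv_mul_cancel, (hMpb V₀ e.1 e.1 a.1 a.1).1])
        right_inv := fun a => Subtype.ext (by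
          show mp e.1 (mp (e.1)⁻¹ a.1) = a.1
          rw [← (hMpb V₀ e.1 (e.1)⁻¹ a.1 a.1).2.1, mul_inv_cancel, (hMpb V₀ e.1 e.1 a.1 a.1).1]) }
    refine Fintype.sum_equiv π _ _ fun a => ?_
    rw [mul_smul_comm, smul_mul_assoc]
    show Z a.1 • (ρ e * P a) = Z (mp e.1 a.1) • (P (π a) * ρ e)
    rw [hZ a.1 a.2 e.1 e.2]
    congr 1
    refine LinearMap.ext fun v => ?_
    show ρ e (P a (Additive.ofMul (Additive.toMul v))) =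
      P (π a) (ρ e (Additive.ofMul (Additive.toMul v)))
    rw [hP a, hρ, hρ, hP (π a)]
    exact congrArg Additive.ofMul (((hPrb ℓ V₀ E₀ hF a.1).2.2.2.1 e.1 e.2).2 _).symm

end Pool.Agent.PP.SE.H96
end
end -- Pool.Agent.Helper96_ASE.KLP

section -- Pool.Agent.Helper97_ASE.MQB

/-!
# Squad ASE, row MQB: the relation modulo `ℓ ^ 2` (helper97)
-/

open scoped BigOperators

noncomputable section

namespace Pool.Agent.PP.SE.H97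

open Pool.Agent.Helper51_AWC Pool.Agent.Helper79_WRA Pool.Agent.PP Pool.Agent.PP.KF
open Pool.Agent.PP.K9 Pool.Agent.PP.K9.H97 Pool.Agent.PP.H75 Pool.Agent.PP.T3 Pool.Agent.PP.SO
open Pool.Agent.PP.SD

attribute [local instance] Ideal.Quotient.field

section gg

variable {V₀ : Type} [CommGroup V₀]

/-- the common form of the two expressions -/
def GG (ℓ : ℕ) (E₀ : Subgroup (MulAut V₀)) (X₁ X₂ : V₀ → ℤ) (c d : V₀) (n : ℚ)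
    (y y' : Subgroup V₀ → ℚ) (D : MulAut V₀ → ℚ) (Z : MulAut V₀ → Subgroup V₀ → ℚ) : ℚ :=
  (X₁ c * X₂ d : ℤ) * n -
    (∑ᶠ a ∈ {a : Subgroup V₀ | a ∈ RL ℓ E₀ ∧ c ∉ a}, ((X₁ (pr ℓ E₀ a c) * X₂ d : ℤ) : ℚ) * y a) -
    (∑ᶠ b ∈ {b : Subgroup V₀ | b ∈ RL ℓ E₀ ∧ d ∉ b}, ((X₁ c * X₂ (pr ℓ E₀ b d) : ℤ) : ℚ) * y' b) -
    ∑ᶠ σ ∈ {σ : MulAut V₀ | σ ∈ E₀ ∧ c * σ d ≠ 1},
      (((X₁ (c * σ d) * X₂ (σ⁻¹ (c * σ d)) : ℤ) : ℚ) * D σ -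
        ∑ᶠ a ∈ {a : Subgroup V₀ | a ∈ RL ℓ E₀ ∧ c * σ d ∉ a},
          ((X₁ (pr ℓ E₀ a (c * σ d)) * X₂ (σ⁻¹ (pr ℓ E₀ a (c * σ d))) : ℤ) : ℚ) * Z σ a)

variable [Finite V₀]

theorem fin_aut : Finite (MulAut V₀) :=
  Finite.of_injective (fun σ : MulAut V₀ => (σ : V₀ → V₀)) DFunLike.coe_injective

theorem GG_sub (ℓ : ℕ) (E₀ : Subgroup (MulAut V₀)) (X₁ X₂ : V₀ → ℤ) (c d : V₀) (n n' : ℚ)
    (y y' v v' : Subgroup V₀ → ℚ) (D D' : MulAut V₀ → ℚ) (Z Z' : MulAut V₀ → Subgroup V₀ → ℚ) :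
    GG ℓ E₀ X₁ X₂ c d (n - n') (fun a => y a - v a) (fun a => y' a - v' a)
      (fun σ => D σ - D' σ) (fun σ a => Z σ a - Z' σ a) =
    GG ℓ E₀ X₁ X₂ c d n y y' D Z - GG ℓ E₀ X₁ X₂ c d n' v v' D' Z' := by
  have := fin_aut (V₀ := V₀)
  unfold GG
  simp only [finsum_mem_eq_finite_toFinset_sum _ (Set.toFinite _), mul_sub,
    Finset.sum_sub_distrib]
  ring

/-- the numbers in `ℓ ^ 2 Rl ℓ` -/
def J2 (ℓ : ℕ) [Fact ℓ.Prime] : AddSubgroup ℚ where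
  carrier := {x | ∃ q ∈ SOR.Rl ℓ, x = ℓ ^ 2 * q}
  zero_mem' := ⟨0, (SOR.Rl ℓ).zero_mem, by ring⟩
  add_mem' := by
    rintro _ _ ⟨q, hq, rfl⟩ ⟨r, hr, rfl⟩
    exact ⟨q + r, (SOR.Rl ℓ).add_mem hq hr, by ring⟩
  neg_mem' := by
    rintro _ ⟨q, hq, rfl⟩
    exact ⟨-q, (SOR.Rl ℓ).neg_mem hq, by ring⟩

omit [CommGroup V₀] [Finite V₀] in
theorem J2_mul {ℓ : ℕ} [Fact ℓ.Prime] (k : ℤ) {x : ℚ} (hx : x ∈ J2 ℓ) : (k : ℚ) * x ∈ J2 ℓ := by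
  obtain ⟨q, hq, rfl⟩ := hx
  exact ⟨k * q, (SOR.Rl ℓ).mul_mem (intCast_mem _ k) hq, by ring⟩

theorem GG_mem {ℓ : ℕ} [Fact ℓ.Prime] (E₀ : Subgroup (MulAut V₀)) (X₁ X₂ : V₀ → ℤ) (c d : V₀)
    (D : MulAut V₀ → ℚ) (Z : MulAut V₀ → Subgroup V₀ → ℚ)
    (hD : ∀ σ ∈ E₀, c * σ d ≠ 1 → D σ ∈ J2 ℓ)
    (hZ : ∀ σ ∈ E₀, c * σ d ≠ 1 → ∀ a ∈ RL ℓ E₀, c * σ d ∉ a → Z σ a ∈ J2 ℓ) :
    GG ℓ E₀ X₁ X₂ c d 0 (fun _ => 0) (fun _ => 0) D Z ∈ J2 ℓ := by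
  have := fin_aut (V₀ := V₀)
  unfold GG
  simp only [finsum_mem_eq_finite_toFinset_sum _ (Set.toFinite _), mul_zero,
    Finset.sum_const_zero, sub_zero, zero_sub]
  refine (J2 ℓ).neg_mem (AddSubgroup.sum_mem _ fun σ hσ => ?_)
  rw [Set.Finite.mem_toFinset] at hσ
  refine (J2 ℓ).sub_mem (J2_mul _ (hD σ hσ.1 hσ.2)) (AddSubgroup.sum_mem _ fun a ha => ?_)
  rw [Set.Finite.mem_toFinset] at ha
  exact J2_mul _ (hZ σ hσ.1 hσ.2 a ha.1 ha.2)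

/-- the lift at the inverse -/
theorem lf_inv {ℓ : ℕ} [Fact ℓ.Prime] {ρ : V₀ → ZMod ℓ} (hρ : Hm ρ) (v : V₀) :
    lf (fun v => ρ v⁻¹) 1 v⁻¹ = ((ρ v).val : ℤ) := by
  have h1 : ρ 1 = 0 := by
    have := hρ 1 1
    rw [mul_one] at this
    exact left_eq_add.1 this
  simp only [lf, inv_inv]
  rw [if_neg, add_zero]
  rintro ⟨h, h'⟩
  rw [inv_eq_one] at h
  subst h
  exact h' (by rw [inv_inv]; exact h1)

theorem MQ_eq {ℓ : ℕ} [Fact ℓ.Prime] (E₀ : Subgroup (MulAut V₀)) (U : Subgroup V₀ → ℚ) (d₁ : V₀ → ℚ)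
    (n₁ : V₀ → V₀ → ℚ) (z₁ : Subgroup V₀ → V₀ → ℚ) (y₁ : Subgroup V₀ → V₀ → V₀ → ℚ)
    {ρ₁ ρ₂ : V₀ → ZMod ℓ} (h₁ : Hm ρ₁) (h₂ : Hm ρ₂) (c d : V₀) :
    (ℓ : ℚ) ^ 2 * MQ ℓ E₀ U d₁ n₁ z₁ y₁ (lf (fun v => ρ₁ v⁻¹) 1) (lf (fun v => ρ₂ v⁻¹) 1) c d =
    GG ℓ E₀ (fun v => ((ρ₁ v).val : ℤ)) (fun v => ((ρ₂ v).val : ℤ)) c d (n₁ c d)
      (fun a => y₁ a (pr ℓ E₀ a c) d) (fun b => y₁ b (pr ℓ E₀ b d) c)
      (fun σ => cS U c d σ (Subgroup.zpowers (c * σ d)) * d₁ (c * σ d))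
      (fun σ a => cS U c d σ a * z₁ a (pr ℓ E₀ a (c * σ d))) := by
  have := fin_aut (V₀ := V₀)
  have hl : (ℓ : ℚ) ≠ 0 := Nat.cast_ne_zero.2 (Fact.out : ℓ.Prime).ne_zero
  unfold MQ GG
  simp only [lf_inv h₁, lf_inv h₂, finsum_mem_eq_finite_toFinset_sum _ (Set.toFinite _), mul_sub,
    Finset.mul_sum]
  congr 1
  · congr 1
    · congr 1
      · field_simp
      · exact Finset.sum_congr rfl fun a _ => by field_simp
    · exact Finset.sum_congr rfl fun a _ => by field_simp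
  · refine Finset.sum_congr rfl fun σ _ => ?_
    congr 1
    · field_simp
    · exact Finset.sum_congr rfl fun a _ => by field_simp

end gg

/-- MQB -/
theorem mqb (prb : PrbStmt) (csb : CsbStmt) : MqbStmt := by
  intro ℓ _ M _ V₀ G G' _ _ _ _ _ _ E₀ hq0 B D B' D' hR hR' hU d₁ d₁' n₁ n₁' z₁ z₁' y₁ y₁' hE hE'
    hd ρ₁ ρ₂ h₁ h₂ c d hc hd1 hM
  have hbot : ∀ a ∈ RL ℓ E₀, a ≠ ⊥ := by
    rintro a ⟨h, -⟩ rfl
    rw [Subgroup.card_bot] at h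
    exact (Fact.out : ℓ.Prime).one_lt.ne h
  have hcs : ∀ W : Subgroup V₀, W ≠ ⊥ → ∀ σ : MulAut V₀,
      (∃ q ∈ SOR.Rl ℓ, cS D.U c d σ W = 1 + ℓ * q) ∧
      (∃ q ∈ SOR.Rl ℓ, cS D'.U c d σ W = 1 + ℓ * q) ∧
      ∃ q ∈ SOR.Rl ℓ, cS D.U c d σ W - cS D'.U c d σ W = ℓ ^ 2 * q := by
    intro W hW σ
    have h1 := csb ℓ V₀ D.U D'.U W 2 (hR.u1 W hW) (hR'.u1 W hW) (hU W hW) c d σ
    have h2 := csb ℓ V₀ D'.U D.U W 0 (hR'.u1 W hW) (hR.u1 W hW) (by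
      obtain ⟨q, hq, e⟩ := hR.u1 W hW
      obtain ⟨q', hq', e'⟩ := hR'.u1 W hW
      refine ⟨D'.U W - D.U W, ?_, by rw [pow_zero, one_mul]⟩
      rw [e, e']
      exact (SOR.Rl ℓ).sub_mem ((SOR.Rl ℓ).add_mem (SOR.Rl ℓ).one_mem
        ((SOR.Rl ℓ).mul_mem (natCast_mem _ ℓ) hq')) ((SOR.Rl ℓ).add_mem (SOR.Rl ℓ).one_mem
        ((SOR.Rl ℓ).mul_mem (natCast_mem _ ℓ) hq))) c d σ
    exact ⟨h1.1, h2.1, h1.2⟩
  obtain ⟨q₀, hq₀, e₀⟩ : ∃ q ∈ SOR.Rl ℓ,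
      MQ ℓ E₀ D.U d₁ n₁ z₁ y₁ (lf (fun v => ρ₁ v⁻¹) 1) (lf (fun v => ρ₂ v⁻¹) 1) c d -
      MQ ℓ E₀ D'.U d₁' n₁' z₁' y₁' (lf (fun v => ρ₁ v⁻¹) 1) (lf (fun v => ρ₂ v⁻¹) 1) c d = q :=
    ⟨_, hM, rfl⟩
  have hT : (ℓ : ℚ) ^ 2 * q₀ ∈ J2 ℓ := ⟨q₀, hq₀, rfl⟩
  rw [← e₀, mul_sub, MQ_eq E₀ D.U d₁ n₁ z₁ y₁ h₁ h₂ c d, MQ_eq E₀ D'.U d₁' n₁' z₁' y₁' h₁ h₂ c d,
    ← GG_sub] at hT
  change RNE ℓ E₀ (fun c => d₁ c - d₁' c) (fun c d => n₁ c d - n₁' c d)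
    (fun a => z₁ a 1 - z₁' a 1) (fun a κ d => y₁ a κ d - y₁' a κ d)
    (fun v => ((ρ₁ v).val : ℤ)) (fun v => ((ρ₂ v).val : ℤ)) c d ∈ J2 ℓ
  have e1 : RNE ℓ E₀ (fun c => d₁ c - d₁' c) (fun c d => n₁ c d - n₁' c d)
    (fun a => z₁ a 1 - z₁' a 1) (fun a κ d => y₁ a κ d - y₁' a κ d)
    (fun v => ((ρ₁ v).val : ℤ)) (fun v => ((ρ₂ v).val : ℤ)) c d =
    GG ℓ E₀ (fun v => ((ρ₁ v).val : ℤ)) (fun v => ((ρ₂ v).val : ℤ)) c d (n₁ c d - n₁' c d)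
      (fun a => y₁ a (pr ℓ E₀ a c) d - y₁' a (pr ℓ E₀ a c) d)
      (fun b => y₁ b (pr ℓ E₀ b d) c - y₁' b (pr ℓ E₀ b d) c)
      (fun σ => d₁ (c * σ d) - d₁' (c * σ d)) (fun σ a => z₁ a 1 - z₁' a 1) := rfl
  rw [e1]
  have key := GG_mem (ℓ := ℓ) E₀ (fun v => ((ρ₁ v).val : ℤ)) (fun v => ((ρ₂ v).val : ℤ)) c d
    (fun σ => (d₁ (c * σ d) - d₁' (c * σ d)) -
      (cS D.U c d σ (Subgroup.zpowers (c * σ d)) * d₁ (c * σ d) -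
        cS D'.U c d σ (Subgroup.zpowers (c * σ d)) * d₁' (c * σ d)))
    (fun σ a => (z₁ a 1 - z₁' a 1) - (cS D.U c d σ a * z₁ a (pr ℓ E₀ a (c * σ d)) -
      cS D'.U c d σ a * z₁' a (pr ℓ E₀ a (c * σ d)))) (by
      intro σ hσ hκ
      obtain ⟨⟨q, hq, e⟩, ⟨q', hq', e'⟩, ⟨r, hr, er⟩⟩ := hcs (Subgroup.zpowers (c * σ d))
        (fun h => hκ (Subgroup.zpowers_eq_bot.1 h)) σ
      obtain ⟨s, hs, es⟩ := hd (c * σ d) hκ
      refine ⟨-(q * s + r * d₁' (c * σ d)), (SOR.Rl ℓ).neg_mem ((SOR.Rl ℓ).add_mem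
        ((SOR.Rl ℓ).mul_mem hq hs) ((SOR.Rl ℓ).mul_mem hr (hE'.dr _))), ?_⟩
      have e2 : cS D'.U c d σ (Subgroup.zpowers (c * σ d)) =
          cS D.U c d σ (Subgroup.zpowers (c * σ d)) - ℓ ^ 2 * r := by rw [← er]; ring
      have e3 : d₁ (c * σ d) = d₁' (c * σ d) + ℓ * s := by rw [← es]; ring
      rw [e2, e, e3]
      ring) (by
      intro σ hσ hκ a ha hκa
      obtain ⟨⟨q, hq, e⟩, ⟨q', hq', e'⟩, -⟩ := hcs a (hbot a ha) σ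
      have hpr : pr ℓ E₀ a (c * σ d) ∈ a := (prb ℓ V₀ E₀ hq0 a).2.2.2.2.1 ha _
      obtain ⟨r, hr, er⟩ := hE.zr a ha _ hpr
      obtain ⟨r', hr', er'⟩ := hE'.zr a ha _ hpr
      obtain ⟨s, hs, es⟩ := hE.zz a ha _ hpr
      obtain ⟨s', hs', es'⟩ := hE'.zz a ha _ hpr
      refine ⟨-(q * r - q' * r' + s - s'), ?_, ?_⟩
      · exact (SOR.Rl ℓ).neg_mem ((SOR.Rl ℓ).sub_mem ((SOR.Rl ℓ).add_mem ((SOR.Rl ℓ).sub_mem
          ((SOR.Rl ℓ).mul_mem hq hr) ((SOR.Rl ℓ).mul_mem hq' hr')) hs) hs')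
      · rw [e, e']
        linear_combination (-1 : ℚ) * es + es' - ℓ * q * er + ℓ * q' * er')
  have e2 := GG_sub ℓ E₀ (fun v => ((ρ₁ v).val : ℤ)) (fun v => ((ρ₂ v).val : ℤ)) c d
    (n₁ c d - n₁' c d) (n₁ c d - n₁' c d)
    (fun a => y₁ a (pr ℓ E₀ a c) d - y₁' a (pr ℓ E₀ a c) d)
    (fun b => y₁ b (pr ℓ E₀ b d) c - y₁' b (pr ℓ E₀ b d) c)
    (fun a => y₁ a (pr ℓ E₀ a c) d - y₁' a (pr ℓ E₀ a c) d)
    (fun b => y₁ b (pr ℓ E₀ b d) c - y₁' b (pr ℓ E₀ b d) c)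
    (fun σ => d₁ (c * σ d) - d₁' (c * σ d))
    (fun σ => cS D.U c d σ (Subgroup.zpowers (c * σ d)) * d₁ (c * σ d) -
        cS D'.U c d σ (Subgroup.zpowers (c * σ d)) * d₁' (c * σ d))
    (fun σ a => z₁ a 1 - z₁' a 1)
    (fun σ a => cS D.U c d σ a * z₁ a (pr ℓ E₀ a (c * σ d)) -
      cS D'.U c d σ a * z₁' a (pr ℓ E₀ a (c * σ d)))
  simp only [sub_self] at e2
  rw [e2] at key
  have h3 := (J2 ℓ).add_mem key hT
  rwa [sub_add_cancel] at h3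

end Pool.Agent.PP.SE.H97
end
end -- Pool.Agent.Helper97_ASE.MQB
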