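import Pool.Agent.Helper12_AWB.B131
import Pool.Agent.Helper12_AWB.B179

/-!
# Merged copies (generated) of the modules

* `Pool.Agent.ASE.Stmts2`
* `Pool.Agent.Helper43_ASO.ESY`
* `Pool.Agent.Helper20_ASD.ESD`
* `Pool.Agent.Helper96_ASE.GEA`
-/

set_option autoImplicit false

section -- Pool.Agent.ASE.Stmts2

/-!
# Squad ASE, statements 2: the local blocks of the reflection lines (existence of `Rs`)

Text: section 2 of `AWC_SOE.md`.  Complete proofs in the docstrings.  `W ∈ RL ℓ E₀`, `n = nS E₀ W`,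
`m = (ℓ - 1)/n`, `k = kW E₀ W`, `H = C W`, `T = ⊤` (`C ⊤ = C(V)`, `g` its block).  All characters of `H` are
extended by zero.  `vx B χ x` is the value at `i(x)` of the `g`-part of `χ`, divided by the degree
`D ⊤`.  `rq`: equal at the `ℓ`-regular elements of `H`.
-/

open scoped BigOperators

noncomputable section

namespace Pool.Agent.PP.SE

open Pool.Agent.Helper51_AWC Pool.Agent.Helper79_WRA Pool.Agent.PP Pool.Agent.PP.KF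
open Pool.Agent.PP.K9 Pool.Agent.PP.K9.H97 Pool.Agent.PP.H75 Pool.Agent.PP.T3 Pool.Agent.PP.SO
open Pool.Agent.PP.SD

attribute [local instance] Ideal.Quotient.field

/-! ## 0. Definitions -/

section defs

variable {V₀ G : Type} [CommGroup V₀] [Group G] {M : Ideal (integralClosure ℤ ℂ)} [M.IsMaximal]

/-- the subgroup `[V₀, St E₀ W]` -/
def kW (E₀ : Subgroup (MulAut V₀)) (W : Subgroup V₀) : Subgroup V₀ :=
  Subgroup.closure {y | ∃ τ ∈ St E₀ W, ∃ v, y = τ v * v⁻¹}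

/-- the linear characters which are trivial on `W` -/
def lk (W : Subgroup V₀) : Set (V₀ → ℂ) := {s | s ∈ lin V₀ ∧ ∀ w ∈ W, s w = 1}

/-- the orbit of the linear character `s` -/
def orb (E₀ : Subgroup (MulAut V₀)) (W : Subgroup V₀) (s : V₀ → ℂ) : Set (V₀ → ℂ) :=
  {s' | ∃ τ ∈ St E₀ W, s' = fun v => s (τ v)}

/-- the value at `i(x)` of the `g`-part of `χ`, divided by the degree -/
def vx (B : Bk (FF M) V₀ G) (χ : G → ℂ) (x : V₀) : ℂ :=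
  (∑ᶠ s, bh B ⊤ s * χ (B.i x * s)) / B.D ⊤

/-- the characters in `b W` with the central character `ν` on `W` -/
def Iv (B : Bk (FF M) V₀ G) (W : Subgroup V₀) (ν : V₀ → ℂ) : Set (G → ℂ) :=
  {χ | χ ∈ Ch B W ∧ ∀ w ∈ W, nu B χ w = ν w}

/-- `χ` and `ψ` are equal at the regular elements of `C W`. -/
def rq (ℓ : ℕ) (B : Bk (FF M) V₀ G) (W : Subgroup V₀) (χ ψ : G → ℂ) : Prop :=
  ∀ g ∈ B.C W, Reg ℓ g → χ g = ψ g

/-- the inner product at the regular elements -/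
def rip (ℓ : ℕ) (B : Bk (FF M) V₀ G) (W : Subgroup V₀) (χ ψ : G → ℂ) : ℂ :=
  (Nat.card (B.C W) : ℂ)⁻¹ * ∑ᶠ s ∈ {s : G | s ∈ B.C W ∧ Reg ℓ s}, χ s * starRingEnd ℂ (ψ s)

/-- The nonexceptional characters.  If `nS E₀ W = ℓ - 1` the exceptional ones are those which are equal
to the given character `xc` at the regular elements. -/
def Nn (ℓ : ℕ) (E₀ : Subgroup (MulAut V₀)) (B : Bk (FF M) V₀ G) (W : Subgroup V₀)
    (xc : G → ℂ) : Set (G → ℂ) :=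
  {χ | χ ∈ Ch B W ∧ (∀ y ∈ kW E₀ W, ∀ y' ∈ kW E₀ W, y ≠ 1 → y' ≠ 1 → vx B χ y = vx B χ y') ∧
    (nS E₀ W = ℓ - 1 → ¬ rq ℓ B W χ xc)}

/-- the structure of the characters with the central character `ν`: `N` nonexceptional, signs `e`,
orbits `O` -/
structure Lv (E₀ : Subgroup (MulAut V₀)) (B : Bk (FF M) V₀ G) (W : Subgroup V₀) (ν : V₀ → ℂ)
    (N : Set (G → ℂ)) (e : (G → ℂ) → ℤ) (O : (G → ℂ) → Set (V₀ → ℂ)) : Prop where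
  sg : ∀ χ ∈ Iv B W ν, e χ = 1 ∨ e χ = -1
  vN : ∀ χ ∈ Iv B W ν, χ ∈ N → ∀ y ∈ kW E₀ W, y ≠ 1 → vx B χ y = e χ
  vX : ∀ χ ∈ Iv B W ν, χ ∉ N → (∃ s ∈ lk W, s ≠ (fun _ => 1) ∧ O χ = orb E₀ W s) ∧
    ∀ y ∈ kW E₀ W, y ≠ 1 → vx B χ y = e χ * ∑ᶠ s ∈ O χ, s y
  cN : {χ | χ ∈ Iv B W ν ∧ χ ∈ N}.ncard = nS E₀ W
  bX : ∀ s ∈ lk W, s ≠ (fun _ => 1) → ∃! χ, χ ∈ Iv B W ν ∧ χ ∉ N ∧ O χ = orb E₀ W s

open Classical in
/-- the structure of the block `b W` -/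
structure Cy (ℓ : ℕ) [Fact ℓ.Prime] (E₀ : Subgroup (MulAut V₀)) (B : Bk (FF M) V₀ G)
    (W : Subgroup V₀) (N : Set (G → ℂ)) (e : (G → ℂ) → ℤ) (O : (G → ℂ) → Set (V₀ → ℂ)) :
    Prop where
  lv : ∀ ν ∈ lk (kW E₀ W), Lv E₀ B W ν N e O
  xi : ∀ ν ∈ lk (kW E₀ W), ∀ ψ ∈ Ch B W, ψ ∉ N → ∀ g ∈ B.C W, Reg ℓ g →
    ∑ᶠ χ ∈ {χ | χ ∈ Iv B W ν ∧ χ ∈ N}, (e χ : ℂ) * χ g = e ψ * ψ g
  mt : ∀ ν ∈ lk (kW E₀ W), ∀ χ ∈ Ch B W, χ ∈ N → ∃! ψ, ψ ∈ Iv B W ν ∧ ψ ∈ N ∧ rq ℓ B W ψ χ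
  se : ∀ χ ∈ Ch B W, ∀ ψ ∈ Ch B W, rq ℓ B W χ ψ → e χ = e ψ ∧ (χ ∈ N ↔ ψ ∈ N)
  rN : ∀ χ ∈ Ch B W, ∀ ψ ∈ Ch B W, χ ∈ N → ψ ∈ N → rip ℓ B W χ ψ = e χ * e ψ *
    (((if rq ℓ B W χ ψ then 1 else 0) - (nS E₀ W : ℂ)⁻¹) / ℓ + ((nS E₀ W : ℂ) * ℓ ^ 2)⁻¹)
  rM : ∀ χ ∈ Ch B W, ∀ ψ ∈ Ch B W, χ ∈ N → ψ ∉ N →
    rip ℓ B W χ ψ = e χ * e ψ / (ℓ : ℂ) ^ 2 ∧ rip ℓ B W ψ χ = e χ * e ψ / (ℓ : ℂ) ^ 2
  rX : ∀ χ ∈ Ch B W, ∀ ψ ∈ Ch B W, χ ∉ N → ψ ∉ N →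
    rip ℓ B W χ ψ = e χ * e ψ * nS E₀ W / (ℓ : ℂ) ^ 2
  un : ∀ χ ∈ Ch B W, χ ∈ N → ∃ q ∈ SOR.Rl ℓ, (e χ : ℂ) * Nat.card (B.C W) * B.D ⊤ /
    (nS E₀ W * Nat.card (B.C ⊤) * χ 1) = ((1 + ℓ * q : ℚ) : ℂ)
  ux : ∃ q ∈ SOR.Rl ℓ, ∀ χ ∈ Ch B W, χ ∉ N → (e χ : ℂ) * Nat.card (B.C W) * B.D ⊤ /
    (Nat.card (B.C ⊤) * χ 1) = ((1 + ℓ * q : ℚ) : ℂ)

open Classical in
/-- the data `D` at `W` are given by the structure of `b W` -/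
structure Dw (ℓ : ℕ) (E₀ : Subgroup (MulAut V₀)) (B : Bk (FF M) V₀ G) (W : Subgroup V₀)
    (N : Set (G → ℂ)) (e : (G → ℂ) → ℤ) (O : (G → ℂ) → Set (V₀ → ℂ)) (D : Rd V₀ G) : Prop where
  dD : ∀ χ ∈ Ch B W, ∀ x, D.D W χ x =
    nu B χ (pr ℓ E₀ W x) * (if χ ∈ N then (e χ : ℂ) else e χ * ∑ᶠ s ∈ O χ, s x)
  dR : ∀ χ ∈ Ch B W, ∀ ψ ∈ Ch B W, D.R W χ ψ = if χ ∈ N ∧ ψ ∈ N then
    (e χ : ℂ) * e ψ * ((if rq ℓ B W χ ψ then 1 else 0) - (nS E₀ W : ℂ)⁻¹) / ℓ else 0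
  dU : ∀ χ ∈ Ch B W, χ ∉ N → (e χ : ℂ) * Nat.card (B.C W) * B.D ⊤ /
    (Nat.card (B.C ⊤) * χ 1) = (D.U W : ℂ)
  de : ∀ g, D.et W g = ∑ᶠ χ ∈ {χ | χ ∈ Ch B W ∧ χ ∈ N}, (nS E₀ W : ℂ) *
    ((e χ : ℂ) * Nat.card (B.C W) * B.D ⊤ / (nS E₀ W * Nat.card (B.C ⊤) * χ 1) - D.U W) *
      (χ 1 / Nat.card (B.C W)) * χ g⁻¹
  df : ∀ g ∈ E₀, mp g W = W → D.fx W g =
    ({χ | χ ∈ Iv B W (fun _ => 1) ∧ χ ∈ N ∧ ac B g χ = χ}.ncard : ℚ)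

end defs

/-! ## 1. The geometry of a reflection line -/

/-- GEA: the geometry of a reflection line.

Proof.  `S = St E₀ W`, `|S| = n > 1` prime to `ℓ`, `V₀` is a vector space of dimension two over the field with `ℓ`
elements, `W` a line fixed by `S`.  `pr` is the average: a homomorphism, `pr (τ v) = pr v`, the image is fixed by `S`.
The elements fixed by `S` form a subgroup between `W` and `V₀`, not `V₀` (`n > 1`), so it is `W`; `pr` is the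
identity on it.  `v (pr v)⁻¹` is a product of powers of elements `v (τ v)⁻¹`, so in `k`; `pr = 1` on `k`; so
`W ⊓ k = 1`, `W k = V₀`, `|k| = ℓ`.  `S` acts on `k` by scalars (`|k| = ℓ`), and `τ ∈ S` is determined by its
restriction to `k` (it fixes `W`), so `S` is a subgroup of the cyclic group of order `ℓ - 1`.  If `τ y = y` for
some `y ∈ k`, `y ≠ 1`, then `τ = 1`.  `∏_τ τ y = (pr y)^n = 1`.  `x ∉ W`: if `τ x = x` then `τ` fixes `W` and `x`,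
which generate `V₀`. -/
def GeaStmt : Prop := ∀ (ℓ : ℕ) [Fact ℓ.Prime] (V₀ : Type) [CommGroup V₀] [Finite V₀]
  (E₀ : Subgroup (MulAut V₀)), Fq ℓ V₀ E₀ → ∀ W ∈ RL ℓ E₀,
  (nS E₀ W ∣ ℓ - 1 ∧ ¬ ℓ ∣ nS E₀ W ∧ IsCyclic (St E₀ W) ∧ Nat.card (kW E₀ W) = ℓ ∧
    W ⊓ kW E₀ W = ⊥ ∧ W ⊔ kW E₀ W = ⊤ ∧ W ≠ ⊥ ∧ W ≠ ⊤) ∧
  (∀ v, pr ℓ E₀ W v ∈ W ∧ v * (pr ℓ E₀ W v)⁻¹ ∈ kW E₀ W) ∧
  (∀ v w, pr ℓ E₀ W (v * w) = pr ℓ E₀ W v * pr ℓ E₀ W w) ∧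
  (∀ w ∈ W, pr ℓ E₀ W w = w) ∧ (∀ y ∈ kW E₀ W, pr ℓ E₀ W y = 1) ∧
  (∀ τ ∈ St E₀ W, ∀ v, pr ℓ E₀ W (τ v) = pr ℓ E₀ W v) ∧
  (∀ τ ∈ St E₀ W, ∀ y ∈ kW E₀ W, τ y ∈ kW E₀ W ∧ (τ ≠ 1 → y ≠ 1 → τ y ≠ y)) ∧
  (∀ τ ∈ St E₀ W, ∃ a : ℕ, ∀ y ∈ kW E₀ W, τ y = y ^ a) ∧
  (∀ y ∈ kW E₀ W, ∏ᶠ τ : St E₀ W, (τ : MulAut V₀) y = 1) ∧
  ∀ x, x ∉ W → W ⊔ Subgroup.zpowers x = ⊤ ∧ ∀ τ ∈ St E₀ W, τ x = x → τ = 1

/-- GEB: equivariance of the geometry.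

Proof.  `St E₀ (σ W) = σ (St E₀ W) σ⁻¹`; the rest follows (`pr (σ W) (σ c)` is the average of the `σ τ σ⁻¹ σ c = σ τ c`).
`mp` is an action. -/
def GebStmt : Prop := ∀ (ℓ : ℕ) [Fact ℓ.Prime] (V₀ : Type) [CommGroup V₀] [Finite V₀]
  (E₀ : Subgroup (MulAut V₀)), ∀ σ ∈ E₀, ∀ W : Subgroup V₀,
  (∀ τ, τ ∈ St E₀ W ↔ σ * τ * σ⁻¹ ∈ St E₀ (mp σ W)) ∧ nS E₀ (mp σ W) = nS E₀ W ∧
  Nat.card (mp σ W) = Nat.card W ∧ (mp σ W ∈ RL ℓ E₀ ↔ W ∈ RL ℓ E₀) ∧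
  (∀ v, pr ℓ E₀ (mp σ W) (σ v) = σ (pr ℓ E₀ W v)) ∧ (∀ v, σ v ∈ mp σ W ↔ v ∈ W) ∧
  (∀ v, σ v ∈ kW E₀ (mp σ W) ↔ v ∈ kW E₀ W) ∧
  (∀ τ ∈ E₀, mp σ (mp τ W) = mp (σ * τ) W) ∧ mp 1 W = W ∧ (mp σ W = ⊥ ↔ W = ⊥)

/-- GEC: linear characters and a reflection line.

Proof.  `V₀ = W × k`, both of order `ℓ`; `μ v = μ (pr v) μ (v (pr v)⁻¹)`.  Every character of `W` extends (trivially on
`k`), so `|lk k| = ℓ`, the same for `lk W`.  Orthogonality relations of the groups `W`, `k`.  `τ ∈ S` acts on `k` as a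
power `a`, `s ∘ τ = s^a`; if this is `s ≠ 1` then `a = 1` modulo `ℓ` and `τ = 1`. -/
def GecStmt : Prop := ∀ (ℓ : ℕ) [Fact ℓ.Prime] (V₀ : Type) [CommGroup V₀] [Finite V₀]
  (E₀ : Subgroup (MulAut V₀)), Fq ℓ V₀ E₀ → ∀ W ∈ RL ℓ E₀,
  (lk W).ncard = ℓ ∧ (lk (kW E₀ W)).ncard = ℓ ∧ (lk W).Finite ∧ (lk (kW E₀ W)).Finite ∧
  (∀ μ ∈ lin V₀, (fun v => μ (pr ℓ E₀ W v)) ∈ lk (kW E₀ W) ∧
    (fun v => μ (v * (pr ℓ E₀ W v)⁻¹)) ∈ lk W) ∧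
  (∀ ν ∈ lk (kW E₀ W), ∀ s ∈ lk W, (fun v => ν v * s v) ∈ lin V₀) ∧
  (∀ ν ∈ lk (kW E₀ W), ∀ v, ν (pr ℓ E₀ W v) = ν v ∧ ∀ τ ∈ St E₀ W, ν (τ v) = ν v) ∧
  (∀ s ∈ lk W, ∀ v, s (v * (pr ℓ E₀ W v)⁻¹) = s v ∧ s (pr ℓ E₀ W v) = 1) ∧
  (∀ s ∈ lk W, ∀ τ ∈ St E₀ W, (fun v => s (τ v)) ∈ lk W ∧
    (s ≠ (fun _ => 1) → (fun v => s (τ v)) ≠ (fun _ => 1) ∧ (τ ≠ 1 → (fun v => s (τ v)) ≠ s))) ∧
  (∀ s ∈ lk W, s ≠ (fun _ => 1) → (orb E₀ W s).ncard = nS E₀ W ∧ s ∈ orb E₀ W s ∧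
    ∀ s' ∈ orb E₀ W s, orb E₀ W s' = orb E₀ W s) ∧
  (∀ y ∈ kW E₀ W, y ≠ 1 → ∑ᶠ s ∈ lk W, s y = 0) ∧
  (∀ s ∈ lk W, s ≠ (fun _ => 1) → ∑ᶠ y ∈ (kW E₀ W : Set V₀), s y = 0) ∧
  (∀ w ∈ W, w ≠ 1 → ∑ᶠ ν ∈ lk (kW E₀ W), ν w = 0) ∧
  ∀ ν ∈ lk (kW E₀ W), ν ≠ (fun _ => 1) → ∑ᶠ w ∈ (W : Set V₀), ν w = 0

/-! ## 2. The `g`-parts of the characters of `b W` -/

/-- VXM: the `g`-part.

Proof.  `χ ∈ Ch B W`.  The restriction of `χ` to `C(V) ≤ H` is a combination of irreducible characters with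
multiplicities `≥ 0`.  For a character `κ` of `C(V)`: `∑_s bh ⊤ s κ(i(x) s)` is `0` if `κ` is not in `g` and
`κ(i x) = lam κ x · D ⊤` if it is in `g` (`i(x)` is central in `C(V)`; NSD for `⊤`: `lam B ⊤` is a bijection of the characters
of `g` with `lin V₀`, `ux = 1`).  So `vx χ x = ∑_μ m_μ μ(x)`, `m_μ` the multiplicity of the `κ` with `lam κ = μ`.  An element
`t ∈ T` inducing `τ ∈ St E₀ W` is in `H`, it normalises `C(V)` and fixes `χ`, and `κ_μ` goes to `κ_(μ ∘ τ^(±1))`.  `i(w)`,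
`w ∈ W`, is central in `H`: if `m_μ ≠ 0` then `μ w = χ(i w)/χ 1`.  (b): from (a).  (c): for `x ∉ W`: `W ⊔ ⟨x⟩ = ⊤` (GEA), insert the
definition of `fc` (class function): the formula.  `cv (fc W x) χ ∈ RM M` with residue `nE (St E₀ W) x = n` (`HOmrStmt`
for the datum of `H`, RDA; `x` is regular for `St E₀ W`, GEA), `ℓ ∤ n`, so it is not `0`. -/
def VxmStmt : Prop := ∀ (ℓ : ℕ) [Fact ℓ.Prime] (M : Ideal (integralClosure ℤ ℂ)) [M.IsMaximal],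
  (ℓ : integralClosure ℤ ℂ) ∈ M → ℓ ≠ 2 → ∀ (V₀ G : Type) [CommGroup V₀] [Finite V₀] [Group G]
  [Finite G] (E₀ : Subgroup (MulAut V₀)), Fq ℓ V₀ E₀ → ∀ B : Bk (FF M) V₀ G, Sd ℓ M E₀ B →
  ∀ W ∈ RL ℓ E₀, ∀ χ ∈ Ch B W,
  (∃ m : (V₀ → ℂ) → ℕ, (∀ x, vx B χ x = ∑ᶠ μ ∈ lin V₀, (m μ : ℂ) * μ x) ∧
    (∀ τ ∈ St E₀ W, ∀ μ ∈ lin V₀, m (fun v => μ (τ v)) = m μ) ∧
    ∀ μ ∈ lin V₀, m μ ≠ 0 → ∀ w ∈ W, μ w = nu B χ w) ∧
  ((∀ w ∈ W, ∀ x, vx B χ (w * x) = nu B χ w * vx B χ x) ∧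
    (∀ x, starRingEnd ℂ (vx B χ x) = vx B χ x⁻¹) ∧
    (∀ τ ∈ St E₀ W, ∀ x, vx B χ (τ x) = vx B χ x) ∧
    (∃ ν ∈ lk (kW E₀ W), χ ∈ Iv B W ν) ∧
    (∀ w ∈ W, ∀ g, χ (B.i w * g) = nu B χ w * χ g) ∧
    ∀ w ∈ W, starRingEnd ℂ (nu B χ w) = nu B χ w⁻¹ ∧ nu B χ w * nu B χ w⁻¹ = 1) ∧
  ∀ x, x ∉ W → cv (fc B W x) χ =
    Nat.card (B.C W) * B.D ⊤ / (Nat.card (B.C ⊤) * χ 1) * vx B χ x ∧
    cv (fc B W x) χ ∈ RM M ∧ rr M (cv (fc B W x) χ) = ((nS E₀ W : ℕ) : FF M) ∧ vx B χ x ≠ 0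

/-- VXO: orthogonality.

Proof.  (1) For `x ∉ W` the function `χ ↦ D ⊤ vx χ x` vanishes at the characters of `H` not in `b W` (`T3.SmgStmt` for the
datum of `H`, RDA; `C_H(i x) = C(V)`).  If `i(x)`, `i(y)` are conjugate in `H` by an element which fixes `g` then
`y = τ x` for some `τ ∈ St E₀ W`; `T3.Co1Stmt`, `T3.Co2Stmt`, FUD (or T3.FusStmt) in `H`: the sum of
`|D ⊤|² vx χ x conj (vx χ y)` is `|C(V)| bh ⊤ 1 = ℓ² (D ⊤)²` (NSD (7)) if `y ∈ St E₀ W · x`, `0` otherwise.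
(2) `K9.WboStmt` for `H`, `b W`: `∑_χ χ(g) conj χ(i(x) s) = 0` for `g`, `s` regular (`i(x) s` is singular), as
`conj χ(h) = χ(h⁻¹)`.  (3), (4): multiply by `ν(w)⁻¹`, replace `x` by `w x` and add over `w ∈ W` (VXM (b)):
`∑_(Iv ν) = ℓ⁻¹ ∑_w ν(w)⁻¹ ∑_(Ch W)`; for `x`, `y ∈ k`: `τ(w x) = w τ x`, equal to `y` iff `w = 1`, `τ x = y`. -/
def VxoStmt : Prop := ∀ (ℓ : ℕ) [Fact ℓ.Prime] (M : Ideal (integralClosure ℤ ℂ)) [M.IsMaximal],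
  (ℓ : integralClosure ℤ ℂ) ∈ M → ℓ ≠ 2 → ∀ (V₀ G : Type) [CommGroup V₀] [Finite V₀] [Group G]
  [Finite G] (E₀ : Subgroup (MulAut V₀)), Fq ℓ V₀ E₀ → ∀ B : Bk (FF M) V₀ G, Sd ℓ M E₀ B →
  ∀ W ∈ RL ℓ E₀,
  (∀ x, x ∉ W → ∀ y, y ∉ W → ∑ᶠ χ ∈ Ch B W, vx B χ x * starRingEnd ℂ (vx B χ y) =
    (ℓ : ℂ) ^ 2 * {τ : MulAut V₀ | τ ∈ St E₀ W ∧ τ x = y}.ncard) ∧
  (∀ g ∈ B.C W, Reg ℓ g → ∀ x, x ∉ W → ∑ᶠ χ ∈ Ch B W, χ g * starRingEnd ℂ (vx B χ x) = 0) ∧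
  (∀ ν ∈ lk (kW E₀ W), ∀ x ∈ kW E₀ W, x ≠ 1 → ∀ y ∈ kW E₀ W, y ≠ 1 →
    ∑ᶠ χ ∈ Iv B W ν, vx B χ x * starRingEnd ℂ (vx B χ y) =
      (ℓ : ℂ) * {τ : MulAut V₀ | τ ∈ St E₀ W ∧ τ x = y}.ncard) ∧
  ∀ ν ∈ lk (kW E₀ W), ∀ g ∈ B.C W, Reg ℓ g → ∀ x ∈ kW E₀ W, x ≠ 1 →
    ∑ᶠ χ ∈ Iv B W ν, χ g * starRingEnd ℂ (vx B χ x) = 0

/-- VXG: the values at the elements whose `ℓ`-part is not in `i(W)`.

Proof.  `T6.SecStmt` for the datum of `H` (RDA), `θ = χ`: `χ(g) = ∑_(v ∈ V) wt v sv v (b v) χ g` (`χ` in the block).  For `v = i(w)`, `w ∈ W`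
(central in `H`) the term is `0` (the `ℓ`-part of `g` is not conjugate to `v`).  For `v = i(x)`, `x ∉ W`: `C_H(v) = C(V)`, block `g`, and
`gv (C(V)) (i(x) s) g χ = vx χ x κ₁(s)` for regular `s`, `κ₁` a character of `g` (as in VXM; all the characters of `g` are equal at the
regular elements, NSD (4) for `⊤`). -/
def VxgStmt : Prop := ∀ (ℓ : ℕ) [Fact ℓ.Prime] (M : Ideal (integralClosure ℤ ℂ)) [M.IsMaximal],
  (ℓ : integralClosure ℤ ℂ) ∈ M → ℓ ≠ 2 → ∀ (V₀ G : Type) [CommGroup V₀] [Finite V₀] [Group G]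
  [Finite G] (E₀ : Subgroup (MulAut V₀)), Fq ℓ V₀ E₀ → ∀ B : Bk (FF M) V₀ G, Sd ℓ M E₀ B →
  ∀ W ∈ RL ℓ E₀, ∀ g ∈ B.C W, (∀ w ∈ W, ¬ Reg ℓ (B.i w * g)) →
  ∃ Θ : V₀ → ℂ, ∀ χ ∈ Ch B W, χ g = ∑ᶠ x ∈ {x : V₀ | x ∉ W}, vx B χ x * Θ x

/-- IBV: integral vectors.

Proof.  `m` from VXM (a), `b χ s = m_(ν s) - m_ν` for `s ∈ lk W` (`ν s` the product).  For `y ∈ k`, `y ≠ 1`: `vx χ y = ∑_s m_(ν s) s(y)` (only `μ`
with `μ = ν` on `W` occur, `ν = 1` on `k`), and `∑_(s ∈ lk W) s(y) = 0` (GEC).  Invariance: `(ν s) ∘ τ = ν (s ∘ τ)`.  Not all `b χ s` are `0`: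
`vx χ y ≠ 0` (VXM (c)).  Gram matrix: `ℓ b χ s = ∑_(y ∈ k, y ≠ 1) vx χ y (conj s(y) - 1)` for `s ≠ 1`; by VXO (3)
`ℓ² ∑_χ b χ s b χ s' = ∑_(x, y ≠ 1) (conj s(x) - 1)(s'(y) - 1) ℓ #{τ : τ x = y} = ℓ ∑_τ ∑_(x ∈ k) (conj s(x) - 1)(s'(τ x) - 1)
= ℓ ∑_τ (ℓ [s' ∘ τ = s] + ℓ)`. -/
def IbvStmt : Prop := ∀ (ℓ : ℕ) [Fact ℓ.Prime] (M : Ideal (integralClosure ℤ ℂ)) [M.IsMaximal],
  (ℓ : integralClosure ℤ ℂ) ∈ M → ℓ ≠ 2 → ∀ (V₀ G : Type) [CommGroup V₀] [Finite V₀] [Group G]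
  [Finite G] (E₀ : Subgroup (MulAut V₀)), Fq ℓ V₀ E₀ → ∀ B : Bk (FF M) V₀ G, Sd ℓ M E₀ B →
  ∀ W ∈ RL ℓ E₀, ∀ ν ∈ lk (kW E₀ W), ∃ b : (G → ℂ) → (V₀ → ℂ) → ℤ,
  (∀ χ ∈ Iv B W ν, (∀ y ∈ kW E₀ W, y ≠ 1 → vx B χ y =
      ∑ᶠ s ∈ {s | s ∈ lk W ∧ s ≠ fun _ => 1}, (b χ s : ℂ) * s y) ∧
    (∀ s ∈ lk W, ∀ τ ∈ St E₀ W, b χ (fun v => s (τ v)) = b χ s) ∧
    ∃ s ∈ lk W, s ≠ (fun _ => 1) ∧ b χ s ≠ 0) ∧
  ∀ s ∈ lk W, s ≠ (fun _ => 1) → ∀ s' ∈ lk W, s' ≠ (fun _ => 1) →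
    (s' ∈ orb E₀ W s → ∑ᶠ χ ∈ Iv B W ν, b χ s * b χ s' = 1 + nS E₀ W) ∧
    (s' ∉ orb E₀ W s → ∑ᶠ χ ∈ Iv B W ν, b χ s * b χ s' = nS E₀ W)

/-! ## 3. The number of characters and the structure -/

/-- LNC: the number of modular characters of the inertial group if `E₀` is cyclic (input from
section 8: `Lam` of a cyclic group is its order). -/
def LncStmt : Prop := ∀ (ℓ : ℕ) [Fact ℓ.Prime] (M : Ideal (integralClosure ℤ ℂ)) [M.IsMaximal],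
  (ℓ : integralClosure ℤ ℂ) ∈ M → ℓ ≠ 2 → ∀ (V₀ G : Type) [CommGroup V₀] [Finite V₀] [Group G]
  [Finite G] (E₀ : Subgroup (MulAut V₀)), Fq ℓ V₀ E₀ → ∀ B : Bk (FF M) V₀ G, Sb ℓ M E₀ B →
  IsCyclic E₀ → lT B = Nat.card E₀

/-- CNT: the number of characters of `b W`.

Proof.  `B'` the datum of `H = C W` with the group `S = St E₀ W` (RDA).  KLD for `B'`: `n |IrrE B'.e| = ∑_v |Es S v| ln (B'.b ⟨v⟩)`.
For `v ∉ W`: `Es S v` is trivial (GEA) and `ln = 1` (KLD (2): `Rw S ⟨v⟩`), `ℓ² - ℓ` terms.  For `v ∈ W`: `Es S v = S`, `B'.C ⟨v⟩ = H` (`i(W)` is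
central), `B'.b ⟨v⟩ = b (W ⊔ ⟨v⟩) = b W = B'.e`, and `ln B'.e = lT B' = |S| = n` (LNH for `A = W`: `i(W)` is normal in `H`; LNC, `S` is
cyclic by GEA): `ℓ` terms `n · n`.  `|IrrE B'.e| = |Ch B W|` (RDA).  So `n |Ch| = ℓ n² + ℓ² - ℓ`. -/
def CntStmt : Prop := ∀ (ℓ : ℕ) [Fact ℓ.Prime] (M : Ideal (integralClosure ℤ ℂ)) [M.IsMaximal],
  (ℓ : integralClosure ℤ ℂ) ∈ M → ℓ ≠ 2 → ∀ (V₀ G : Type) [CommGroup V₀] [Finite V₀] [Group G]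
  [Finite G] (E₀ : Subgroup (MulAut V₀)), Fq ℓ V₀ E₀ → ∀ B : Bk (FF M) V₀ G, Sb ℓ M E₀ B →
  ∀ W ∈ RL ℓ E₀, (Ch B W).Finite ∧
    nS E₀ W * (Ch B W).ncard = ℓ * (nS E₀ W ^ 2 + (ℓ - 1))

/-- STR: the structure of the characters with a given central character.

Proof.  `S = St E₀ W` acts freely on the `s ∈ lk W`, `s ≠ 1` (GEC): `m` orbits, `m n = ℓ - 1`, representatives `s_1`, .., `s_m`.  `I = Iv ν`.
`b_j(χ) = b χ s_j` (IBV): Gram matrix `I + n J`.  `K9.GrbStmt` (proved): `b_j = w + σ_j δ_(r_j)`, `r_j` different, `σ_j = ± 1`, `w(r_j) = t σ_j`,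
`m t + 1 ≠ 0`.  `|b_1|² = 1 + n` gives `|w|² = n - 2 t`.  For `χ ∈ I` not one of the `r_j`: `w(χ) ≠ 0` (some `b_j(χ) ≠ 0`, IBV).  So
`|I| - m + m t² ≤ n - 2 t`, `|I| ≤ n + m - t (m t + 2)`, and `t (m t + 2) ≥ 0` (`t ≥ 0`; `t ≤ -2`; `t = -1`: `m ≥ 2`, as `m = 1` is
excluded).  So `|Iv ν| ≤ n + m` for all the `ℓ` characters `ν ∈ lk k`; the sets `Iv ν` are a partition of `Ch B W` (VXM (b)), and by CNT the
total is `ℓ (n + m)`: equality for all `ν`; so `t (m t + 2) = 0` and `w(χ) = ± 1` for all `χ ∈ I` different from the `r_j`.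
(i) `t = 0`: `N' = I - {r_j}`, for `χ ∈ N'` all `b_j(χ) = w(χ) =: - e χ`, `vx χ y = - e ∑_(s ≠ 1) s(y) = e` for `y ∈ k - 1`; `χ = r_j`: `b χ s = σ_j`
for `s` in the orbit `j`, `0` for the others: `O χ` = the orbit, `e χ = σ_j`.
(ii) `m = 2`, `t = -1`: `b_1(r_1) = 0`, `b_2(r_1) = - σ_1`, `b_1(r_2) = - σ_2`, `b_2(r_2) = 0`: `r_1` has the orbit of `s_2` and sign `- σ_1`, `r_2` the orbit of
`s_1` and sign `- σ_2`; the others as in (i).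
(iii) `m = 1`, `t = -2`: `b_1(r_1) = - σ_1`.
If `m ≥ 2` (`n ≠ ℓ - 1`): the `χ` in `N'` have constant `vx` on `k - 1`, the others not (`y ↦ ∑_(s ∈ O) s(y)` constant on `k - 1` would give equal
coefficients at all `s ≠ 1`, but `O` does not contain all of them): `N'` is the set of the `χ ∈ I` with constant `vx`.
If `m = 1` (`n = ℓ - 1`): `vx χ y = - b_1(χ) = ± 1` for all `χ ∈ I` and `y ∈ k - 1`; for the given `χ₀`: `O χ₀` = all `s ≠ 1`,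
`∑_(s ∈ O) s(y) = -1`, `e χ₀ = - vx χ₀ y`, for the others `e χ = vx χ y`. -/
def StrStmt : Prop := ∀ (ℓ : ℕ) [Fact ℓ.Prime] (M : Ideal (integralClosure ℤ ℂ)) [M.IsMaximal],
  (ℓ : integralClosure ℤ ℂ) ∈ M → ℓ ≠ 2 → ∀ (V₀ G : Type) [CommGroup V₀] [Finite V₀] [Group G]
  [Finite G] (E₀ : Subgroup (MulAut V₀)), Fq ℓ V₀ E₀ → ∀ B : Bk (FF M) V₀ G, Sd ℓ M E₀ B →
  ∀ W ∈ RL ℓ E₀, ∀ ν ∈ lk (kW E₀ W),
  nS E₀ W * (Iv B W ν).ncard = nS E₀ W ^ 2 + (ℓ - 1) ∧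
  (nS E₀ W ≠ ℓ - 1 → ∃ (e : (G → ℂ) → ℤ) (O : (G → ℂ) → Set (V₀ → ℂ)), Lv E₀ B W ν
    {χ | ∀ y ∈ kW E₀ W, ∀ y' ∈ kW E₀ W, y ≠ 1 → y' ≠ 1 → vx B χ y = vx B χ y'} e O) ∧
  (nS E₀ W = ℓ - 1 → ∀ χ₀ ∈ Iv B W ν, ∃ (e : (G → ℂ) → ℤ) (O : (G → ℂ) → Set (V₀ → ℂ)),
    Lv E₀ B W ν {χ | χ ≠ χ₀} e O ∧ ∀ χ ∈ Iv B W ν,
      ∀ y ∈ kW E₀ W, ∀ y' ∈ kW E₀ W, y ≠ 1 → y' ≠ 1 → vx B χ y = vx B χ y')

/-- XIR: the sum of the nonexceptional characters at the regular elements.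

Proof.  VXO (4): for `y ∈ k - 1`: `∑_(χ ∈ N) e χ χ(g) + ∑_(χ ∉ N) e χ χ(g) ∑_(s ∈ O χ) conj s(y) = 0` (`Lv.vN`, `vX`).  Put `a_s = e χ χ(g)` for the
`χ` with `s ∈ O χ` (`bX`), `a_1 = ∑_N e χ χ(g)`: the function `∑_(s ∈ lk W) a_s conj s(y)` of `y ∈ k` vanishes for `y ≠ 1`, so all the
coefficients are equal (Fourier inversion on `k`, GEC). -/
def XirStmt : Prop := ∀ (ℓ : ℕ) [Fact ℓ.Prime] (M : Ideal (integralClosure ℤ ℂ)) [M.IsMaximal],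
  (ℓ : integralClosure ℤ ℂ) ∈ M → ℓ ≠ 2 → ∀ (V₀ G : Type) [CommGroup V₀] [Finite V₀] [Group G]
  [Finite G] (E₀ : Subgroup (MulAut V₀)), Fq ℓ V₀ E₀ → ∀ B : Bk (FF M) V₀ G, Sd ℓ M E₀ B →
  ∀ W ∈ RL ℓ E₀, ∀ ν ∈ lk (kW E₀ W), ∀ (N : Set (G → ℂ)) (e : (G → ℂ) → ℤ)
  (O : (G → ℂ) → Set (V₀ → ℂ)), Lv E₀ B W ν N e O → ∀ ψ ∈ Iv B W ν, ψ ∉ N →
  ∀ g ∈ B.C W, Reg ℓ g → ∑ᶠ χ ∈ {χ | χ ∈ Iv B W ν ∧ χ ∈ N}, (e χ : ℂ) * χ g = e ψ * ψ g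

open Classical in
/-- RPS: the inner products by sections.

Proof.  `T6.SecStmt`, `T6.IpsStmt` (as in `T6.CplStmt`) for the datum of `H` (RDA) and `χ`, `ψ` in the block:
`[χ = ψ] = ∑_(v ∈ V) wt v Pm v (b v) χ ψ`.  `v = i(w)`, `w ∈ W`: `C_H(v) = H`, `wt = 1`, the block is `b W`,
`gv H (i(w) s) (b W) χ = χ(i(w) s) = ν(w) χ(s)`, `|ν(w)| = 1`: `Pm = rip χ ψ`, `ℓ` terms.  `v = i(x)`, `x ∉ W`: `wt = 1/n`
(`|T ∩ H| = n |C(V)|`), `gv (C(V)) (i(x) s) g χ = vx χ x κ₁(s)` (see VXG), and `|C(V)|⁻¹ ∑_s |κ₁(s)|² = ℓ⁻²` (NSD (4), (7) for `⊤`: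
`κ₁(s) = (|C(V)|/(ℓ² D)) bh ⊤ s⁻¹` at regular `s`, and `∑_s |bh ⊤ s|² = bh ⊤ 1 = ℓ² D²/|C(V)|`). -/
def RpsStmt : Prop := ∀ (ℓ : ℕ) [Fact ℓ.Prime] (M : Ideal (integralClosure ℤ ℂ)) [M.IsMaximal],
  (ℓ : integralClosure ℤ ℂ) ∈ M → ℓ ≠ 2 → ∀ (V₀ G : Type) [CommGroup V₀] [Finite V₀] [Group G]
  [Finite G] (E₀ : Subgroup (MulAut V₀)), Fq ℓ V₀ E₀ → ∀ B : Bk (FF M) V₀ G, Sd ℓ M E₀ B →
  ∀ W ∈ RL ℓ E₀, ∀ ν ∈ lk (kW E₀ W), ∀ χ ∈ Iv B W ν, ∀ ψ ∈ Iv B W ν,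
  ℓ * rip ℓ B W χ ψ + ((ℓ : ℂ) ^ 2 * nS E₀ W)⁻¹ *
    ∑ᶠ x ∈ {x : V₀ | x ∉ W}, vx B χ x * starRingEnd ℂ (vx B ψ x) = if χ = ψ then 1 else 0

open Classical in
/-- RPV: the values of `rip` for characters with the same central character.

Proof.  RPS; `x = w y`, `w ∈ W`, `y ∈ k - 1`: `∑_(x ∉ W) vx χ x conj (vx ψ x) = ℓ ∑_(y ≠ 1) vx χ y conj (vx ψ y)`, and by `Lv` and GEC the
last sum is `e e' (ℓ - 1)` (`N`, `N`), `- e e' n` (`N`, `X`), `e e' (ℓ n [O = O'] - n²)` (`X`, `X`; `O χ = O ψ` iff `χ = ψ`, `bX`). -/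
def RpvStmt : Prop := ∀ (ℓ : ℕ) [Fact ℓ.Prime] (M : Ideal (integralClosure ℤ ℂ)) [M.IsMaximal],
  (ℓ : integralClosure ℤ ℂ) ∈ M → ℓ ≠ 2 → ∀ (V₀ G : Type) [CommGroup V₀] [Finite V₀] [Group G]
  [Finite G] (E₀ : Subgroup (MulAut V₀)), Fq ℓ V₀ E₀ → ∀ B : Bk (FF M) V₀ G, Sd ℓ M E₀ B →
  ∀ W ∈ RL ℓ E₀, ∀ ν ∈ lk (kW E₀ W), ∀ (N : Set (G → ℂ)) (e : (G → ℂ) → ℤ)
  (O : (G → ℂ) → Set (V₀ → ℂ)), Lv E₀ B W ν N e O → ∀ χ ∈ Iv B W ν, ∀ ψ ∈ Iv B W ν,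
  (χ ∈ N → ψ ∈ N → rip ℓ B W χ ψ = e χ * e ψ *
    (((if χ = ψ then 1 else 0) - (nS E₀ W : ℂ)⁻¹) / ℓ + ((nS E₀ W : ℂ) * ℓ ^ 2)⁻¹)) ∧
  (χ ∈ N → ψ ∉ N →
    rip ℓ B W χ ψ = e χ * e ψ / (ℓ : ℂ) ^ 2 ∧ rip ℓ B W ψ χ = e χ * e ψ / (ℓ : ℂ) ^ 2) ∧
  (χ ∉ N → ψ ∉ N → rip ℓ B W χ ψ = e χ * e ψ * nS E₀ W / (ℓ : ℂ) ^ 2)

/-- DCR: reduction to the trivial central character.

Proof.  `N` from `K9.PrtStmt` for `H`: `g ^ N` is the regular part of `g`.  `θ(g) = χ(g ^ N)` (on `H`) is a class function with integral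
inner products with the irreducible characters (`K9.AdaStmt`, `ipn`), `θ(i(w) g) = θ(g)`, so `(θ, ψ) = 0` unless `nu ψ = 1` on `W`:
`θ = ∑ z_ψ ψ`, `z_ψ` integers, over the `ψ ∈ Irr H` with `nu ψ = 1` on `W`.  At regular elements `θ = χ`.  `χ` is in `b W`; by
`K9.RotStmt` the class functions on the regular elements are the direct sum of the parts of the blocks (the restriction of a
character of a block is in the span of the characters of the block, and the parts are orthogonal), so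
`χ = ∑ z_ψ ψ` at the regular elements with `ψ` over `Iv 1` only. -/
def DcrStmt : Prop := ∀ (ℓ : ℕ) [Fact ℓ.Prime] (M : Ideal (integralClosure ℤ ℂ)) [M.IsMaximal],
  (ℓ : integralClosure ℤ ℂ) ∈ M → ℓ ≠ 2 → ∀ (V₀ G : Type) [CommGroup V₀] [Finite V₀] [Group G]
  [Finite G] (E₀ : Subgroup (MulAut V₀)), Fq ℓ V₀ E₀ → ∀ B : Bk (FF M) V₀ G, Sd ℓ M E₀ B →
  ∀ W ∈ RL ℓ E₀, ∀ χ ∈ Ch B W, ∃ z : (G → ℂ) → ℤ, ∀ g ∈ B.C W, Reg ℓ g →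
    χ g = ∑ᶠ ψ ∈ Iv B W (fun _ => 1), (z ψ : ℂ) * ψ g

/-- MAT: the characters with different central characters are equal at the regular elements.

Proof.  `Lv` for `ν` and for `1` (STR; if `n = ℓ - 1` with any `χ₀`).  `N₁`, `X₁` the sets for `1`, `f_ψ = e ψ ψ` for `ψ ∈ N₁`
(`n` functions on the regular elements), `ξ = ∑_(N₁) f_ψ = e ψ ψ` for `ψ ∈ X₁` (XIR).  Let `χ ∈ Iv ν`.  DCR: `χ = ∑ a_ψ f_ψ` at the regular
elements, `a_ψ` integers, `ψ ∈ N₁`.  `A = ∑ a_ψ`.  By RPV for `1`: `rip(χ, χ) = (1/ℓ)(∑ a_ψ² - (m/ℓ) A²)` (`m n = ℓ - 1`).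
(1) `χ` nonexceptional for `ν`: `rip(χ, χ) = (1/ℓ)(1 - m/ℓ)` (RPV for `ν`), so `ℓ ∑ a² = ℓ + m (A² - 1)`, `ℓ ∣ A² - 1`, `A ≡ ± 1`.  Cauchy:
`A² ≤ n ∑ a²` gives `A² ≤ n (ℓ - m) = ℓ (n - 1) + 1`.  If `|A| = 1`: `∑ a² = 1`, `χ = ± f_ψ`.  Otherwise `|A| ≥ ℓ - 1`, so `n = ℓ - 1`, `|A| = n`, equality in
Cauchy, all `a_ψ` equal to `± 1` (the same sign): `χ = ± ξ`.
(2) `χ` exceptional for `ν`: `rip(χ, χ) = n/ℓ²`: `ℓ ∑ a² = n + m A²`, so `A² ≡ n²` modulo `ℓ` (multiply with `n`), and Cauchy gives `|A| ≤ n`.  `A = ± n`: `∑ a² = n`,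
all `a_ψ = ± 1` with the same sign, `χ = ± ξ`; otherwise `|A| = ℓ - n ≤ n`, so `n = ℓ - 1` (`n ∣ ℓ - 1`), `|A| = 1`, `∑ a² = 1`, `χ = ± f_ψ`.
So `χ = ± ψ` at the regular elements for some `ψ ∈ Iv 1`, and the sign is `+` (degrees). -/
def MatStmt : Prop := ∀ (ℓ : ℕ) [Fact ℓ.Prime] (M : Ideal (integralClosure ℤ ℂ)) [M.IsMaximal],
  (ℓ : integralClosure ℤ ℂ) ∈ M → ℓ ≠ 2 → ∀ (V₀ G : Type) [CommGroup V₀] [Finite V₀] [Group G]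
  [Finite G] (E₀ : Subgroup (MulAut V₀)), Fq ℓ V₀ E₀ → ∀ B : Bk (FF M) V₀ G, Sd ℓ M E₀ B →
  ∀ W ∈ RL ℓ E₀, ∀ χ ∈ Ch B W, ∃ ψ ∈ Iv B W (fun _ => 1), rq ℓ B W χ ψ

/-- CYW: the structure of `b W`.

Proof.  (0) Let `Lv E₀ B W ν N e O`.  The functions `e χ χ`, `χ ∈ Iv ν ∩ N`, are linearly independent on the regular elements (the Gram
matrix `((1/ℓ)(δ - 1/n) + 1/(n ℓ²))` of RPV is invertible: eigenvalues `1/ℓ`, `1/ℓ²`).  So `χ ∈ Iv ν ∩ N` is determined in `Iv ν` by its restriction to the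
regular elements (if `n ≥ 2` a character `ψ ∈ Iv ν`, `ψ ∉ N`, has the restriction `± ∑_N`, different from all of them).
(1) `n ≠ ℓ - 1`: `N` = the set of the `χ` with constant `vx`, STR gives `e_ν`, `O_ν` for every `ν`; `e χ`, `O χ` := the values for the `ν` of `χ`.
`n = ℓ - 1`: all the restrictions of the `n + 1` elements of `Iv ν` (of `Iv 1`) to the regular elements are different, so MAT is an injective map
`Iv ν → Iv 1` between sets of the same size (STR), a bijection: there is exactly one `χ₀ ∈ Iv ν` with `rq χ₀ xc`; STR for this `χ₀`.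
So `Lv` holds for every `ν` with `N = Nn ℓ E₀ B W xc` (all `vx` are constant on `k - 1` in this case, STR).
(2) `un`, `ux`: VXM (c) for `x = y ∈ k - 1`: `(|H| D_T/(|C_T| χ 1)) vx χ y` has residue `n`; for `χ ∈ N` it is `e χ |H| D_T/(|C_T| χ 1)`, rational; divide by `n`.
For `χ ∉ N`: `e χ (|H| D_T/(|C_T| χ 1)) ∑_(s ∈ O χ) s(y)`, and `∑_(s ∈ O χ) s(y)` has residue `n`; so `e χ |H| D_T/(|C_T| χ 1)` is `1 + ℓ q`; it is the same for all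
exceptional `χ ∈ Iv ν` (XIR at `1`), and for all `ν` by (4).
(3) If `rq χ ψ` then `χ 1 = ψ 1`.  If both are in `N` or both are not in `N`: `e χ = e ψ` by (2) (`ℓ ≠ 2`).
(4) `χ ∈ Iv ν ∩ N` ⇒ its partner `ψ ∈ Iv 1` (MAT) is in `N`: if `n = ℓ - 1` clear (`N` is defined by `xc`).  If `n ≠ ℓ - 1` (so `m ≥ 2`): in case (1) of the proof of MAT
only `χ = ± f_ψ` is possible.  So `χ ↦ ψ` is an injective map from `Iv ν ∩ N` to `Iv 1 ∩ N` (by (0)), both have `n` elements: a bijection.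
`mt`: for arbitrary `ν`, `χ ∈ N`: through `Iv 1`.  `∑_(Iv ν ∩ N) e χ χ(g)` does not depend on `ν` (by (3)), so XIR gives `xi`, and `ux`.  `se`: by (3) it remains to
exclude `rq χ ψ`, `χ ∈ N`, `ψ ∉ N`: by `mt` `χ` may be assumed in the same `Iv ν` as `ψ`, then (0).
(5) `rN`, `rM`, `rX`: replace `χ ∈ N` by its partner in the `Iv ν` of `ψ` (`mt`, `se`; `rip` depends only on the restrictions to the regular elements), `e χ χ` for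
`χ ∉ N` by the same function for an exceptional character in the `Iv ν` of `ψ` (`xi`), and RPV. -/
def CywStmt : Prop := ∀ (ℓ : ℕ) [Fact ℓ.Prime] (M : Ideal (integralClosure ℤ ℂ)) [M.IsMaximal],
  (ℓ : integralClosure ℤ ℂ) ∈ M → ℓ ≠ 2 → ∀ (V₀ G : Type) [CommGroup V₀] [Finite V₀] [Group G]
  [Finite G] (E₀ : Subgroup (MulAut V₀)), Fq ℓ V₀ E₀ → ∀ B : Bk (FF M) V₀ G, Sd ℓ M E₀ B →
  ∀ W ∈ RL ℓ E₀, ∀ xc : G → ℂ, (nS E₀ W = ℓ - 1 → xc ∈ Iv B W (fun _ => 1)) →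
  ∃ (e : (G → ℂ) → ℤ) (O : (G → ℂ) → Set (V₀ → ℂ)), Cy ℓ E₀ B W (Nn ℓ E₀ B W xc) e O

/-- CYU: uniqueness.

Proof.  `e`: `un`, `ux` (`ℓ ≠ 2`; the two numbers differ by the sign).  `O`: `χ ∉ N`, `vx χ y = e χ ∑_(s ∈ O χ) s(y)` for all `y ∈ k - 1` (`lv.vX`); two subsets of
`lk W - 1` with the same number `n` of elements and the same sums for all `y ∈ k` (for `y = 1` both are `n`) are equal (Fourier inversion, GEC). -/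
def CyuStmt : Prop := ∀ (ℓ : ℕ) [Fact ℓ.Prime] (M : Ideal (integralClosure ℤ ℂ)) [M.IsMaximal],
  (ℓ : integralClosure ℤ ℂ) ∈ M → ℓ ≠ 2 → ∀ (V₀ G : Type) [CommGroup V₀] [Finite V₀] [Group G]
  [Finite G] (E₀ : Subgroup (MulAut V₀)), Fq ℓ V₀ E₀ → ∀ B : Bk (FF M) V₀ G, Sd ℓ M E₀ B →
  ∀ W ∈ RL ℓ E₀, ∀ (N : Set (G → ℂ)) (e e' : (G → ℂ) → ℤ) (O O' : (G → ℂ) → Set (V₀ → ℂ)),
  Cy ℓ E₀ B W N e O → Cy ℓ E₀ B W N e' O' →
    ∀ χ ∈ Ch B W, e χ = e' χ ∧ (χ ∉ N → O χ = O' χ)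

end Pool.Agent.PP.SE
end
end -- Pool.Agent.ASE.Stmts2

section -- Pool.Agent.Helper43_ASO.ESY

/-!
# Squad ASO, row ESY: the group `V₀` and the automorphisms `E₀`, for `G` and for `N(V)`
-/

open scoped BigOperators

noncomputable section

namespace Pool.Agent.PP.SO.H43

open Pool.Agent.Helper51_AWC Pool.Agent.Helper79_WRA Pool.Agent.PP Pool.Agent.PP.KF
open Pool.Agent.PP.K9 Pool.Agent.PP.K9.H97 Pool.Agent.PP.H75 Pool.Agent.PP.T3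

attribute [local instance] Ideal.Quotient.field

section gen

variable {G V₀ F : Type} [Group G] [CommGroup V₀] (i : V₀ →* G) (T : Subgroup G)

/-- the automorphisms induced by the elements of `T` -/
def autT : Subgroup (MulAut V₀) where
  carrier := {σ | ∃ t ∈ T, ∀ v, t * i v * t⁻¹ = i (σ v)}
  one_mem' := ⟨1, T.one_mem, fun v => by simp⟩
  mul_mem' := by
    rintro σ τ ⟨s, hs, h1⟩ ⟨t, ht, h2⟩
    refine ⟨s * t, T.mul_mem hs ht, fun v => ?_⟩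
    rw [MulAut.mul_apply, ← h1, ← h2]
    group
  inv_mem' := by
    rintro σ ⟨s, hs, h1⟩
    refine ⟨s⁻¹, T.inv_mem hs, fun v => ?_⟩
    have h2 := h1 (σ⁻¹ v)
    have h3 : σ (σ⁻¹ v) = v := by
      rw [← MulAut.mul_apply, mul_inv_cancel, MulAut.one_apply]
    rw [h3] at h2
    rw [← h2]
    group

theorem exists_aut [Finite V₀] (hi : Function.Injective i) {t : G}
    (ht : ∀ v, ∃ w, t * i v * t⁻¹ = i w) : ∃ σ : MulAut V₀, ∀ v, t * i v * t⁻¹ = i (σ v) := by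
  choose f hf using ht
  have hm : ∀ v w, f (v * w) = f v * f w := by
    intro v w
    apply hi
    rw [← hf, map_mul, map_mul, ← hf, ← hf]
    group
  have hinj : Function.Injective f := by
    intro v w h
    apply hi
    have h1 := hf v
    rw [h, ← hf w] at h1
    exact mul_left_cancel (mul_right_cancel h1)
  let g : V₀ →* V₀ := MonoidHom.mk' f hm
  exact ⟨MulEquiv.ofBijective g (Finite.injective_iff_bijective.1 hinj), fun v => hf v⟩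

end gen

/-- the general form, with given `V₀` and `i` -/
theorem esy_gen {ℓ : ℕ} [Fact ℓ.Prime] {F : Type} [Field F] {G V₀ : Type} [Group G] [Finite G]
    [CommGroup V₀] [Finite V₀] {e : G → F} {V : Subgroup G} {γ : G → F} (hL : Ld ℓ e V γ)
    (hFr : T8.Fr V γ) (hexp : ∀ v ∈ V, v ^ ℓ = 1) (hcd : Nat.card V = ℓ ^ 2) (i : V₀ →* G)
    (hi : Function.Injective i) (hr : i.range = V) :
  ∃ (E₀ : Subgroup (MulAut V₀)) (j : V₀ →* Subgroup.normalizer (V : Set G)), Fr ℓ V₀ E₀ ∧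
    (Function.Injective i ∧ i.range = V ∧
      (∀ t ∈ Tg V γ, ∃ σ ∈ E₀, ∀ v, t * i v * t⁻¹ = i (σ v)) ∧
      ∀ σ ∈ E₀, ∃ t ∈ Tg V γ, ∀ v, t * i v * t⁻¹ = i (σ v)) ∧
    Function.Injective j ∧ j.range = V.subgroupOf (Subgroup.normalizer (V : Set G)) ∧
      (∀ t ∈ Tg (V.subgroupOf (Subgroup.normalizer (V : Set G)))
        (fun t : Subgroup.normalizer (V : Set G) => γ t), ∃ σ ∈ E₀, ∀ v, t * j v * t⁻¹ = j (σ v)) ∧
      ∀ σ ∈ E₀, ∃ t ∈ Tg (V.subgroupOf (Subgroup.normalizer (V : Set G)))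
        (fun t : Subgroup.normalizer (V : Set G) => γ t), ∀ v, t * j v * t⁻¹ = j (σ v) := by
  have hmem : ∀ v, i v ∈ V := fun v => hr ▸ ⟨v, rfl⟩
  have hVX : V ≤ Subgroup.normalizer (V : Set G) := Subgroup.le_normalizer
  have hCX := T3.H85.cent_le_norm V
  have hTg : ∀ t : Subgroup.normalizer (V : Set G),
      t ∈ Tg (V.subgroupOf (Subgroup.normalizer (V : Set G)))
        (fun t : Subgroup.normalizer (V : Set G) => γ t) ↔ (t : G) ∈ Tg V γ := by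
    intro t
    rw [T3.H85.Tg_eq hVX hCX hL.gam.supp, Subgroup.mem_subgroupOf]
    exact ⟨fun h => h.1, fun h => ⟨h, t.2⟩⟩
  have hact : ∀ t ∈ Tg V γ, ∃ σ ∈ autT i (Tg V γ), ∀ v, t * i v * t⁻¹ = i (σ v) := by
    intro t ht
    obtain ⟨σ, hσ⟩ := exists_aut i hi (t := t) (fun v => by
      have h1 := (Subgroup.mem_normalizer_iff.1 ht.1 (i v)).1 (hmem v)
      rw [← hr] at h1
      obtain ⟨w, hw⟩ := h1
      exact ⟨w, hw.symm⟩)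
    exact ⟨σ, ⟨t, ht, hσ⟩, hσ⟩
  refine ⟨autT i (Tg V γ), i.codRestrict (Subgroup.normalizer (V : Set G))
    (fun v => hVX (hmem v)), ⟨?_, ?_, ?_⟩, ⟨hi, hr, hact, fun σ hσ => hσ⟩, ?_, ?_, ?_, ?_⟩
  · intro v
    apply hi
    rw [map_pow, hexp _ (hmem v), map_one]
  · rw [← hcd, ← hr]
    exact Nat.card_congr (MonoidHom.ofInjective hi).toEquiv
  · rintro σ ⟨t, ht, hσ⟩ hne v hv
    by_contra hv1
    apply hne
    have h1 := hσ v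
    rw [hv] at h1
    have h2 := hFr t ht (i v) (hmem v) (fun h => hv1 (hi (h.trans (map_one i).symm)))
      (mul_inv_eq_iff_eq_mul.1 h1)
    apply MulEquiv.ext
    intro w
    apply hi
    rw [← hσ w, ← Subgroup.mem_centralizer_iff.1 h2 (i w) (hmem w), mul_inv_cancel_right]
    rfl
  · intro v w h
    exact hi (congrArg Subtype.val h)
  · ext x
    rw [Subgroup.mem_subgroupOf]
    constructor
    · rintro ⟨v, rfl⟩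
      exact hmem v
    · intro hx
      have h1 : (x : G) ∈ i.range := hr.symm ▸ hx
      obtain ⟨v, hv⟩ := h1
      exact ⟨v, Subtype.ext hv⟩
  · intro t ht
    obtain ⟨σ, hσ, h1⟩ := hact t ((hTg t).1 ht)
    exact ⟨σ, hσ, fun v => Subtype.ext (h1 v)⟩
  · rintro σ ⟨t, ht, h1⟩
    exact ⟨⟨t, ht.1⟩, (hTg ⟨t, ht.1⟩).2 ht, fun v => Subtype.ext (h1 v)⟩

/-- ESY -/
theorem esy : EsyStmt := by
  intro ℓ _ M _ hM G _ _ e V γ hL hFr hexp hcd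
  let inst : CommGroup V := { (inferInstance : Group V) with
    mul_comm := fun a b => Subtype.ext (hL.ab a a.2 b b.2) }
  let i : V →* G := { toFun := Subtype.val, map_one' := rfl, map_mul' := fun _ _ => rfl }
  have hi : Function.Injective i := Subtype.val_injective
  have hr : i.range = V := by
    ext x
    constructor
    · rintro ⟨v, rfl⟩
      exact v.2
    · intro hx
      exact ⟨⟨x, hx⟩, rfl⟩
  obtain ⟨E₀, j, h⟩ := esy_gen hL hFr hexp hcd i hi hr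
  exact ⟨V, inst, inferInstance, E₀, i, j, h⟩

end Pool.Agent.PP.SO.H43
end
end -- Pool.Agent.Helper43_ASO.ESY

section -- Pool.Agent.Helper20_ASD.ESD

/-!
# Squad ASD, row ESD: the group `V₀` and the automorphisms `E₀`
-/

open scoped BigOperators

noncomputable section

namespace Pool.Agent.PP.SD.H20

open Pool.Agent.Helper51_AWC Pool.Agent.Helper79_WRA Pool.Agent.PP Pool.Agent.PP.KF
open Pool.Agent.PP.K9 Pool.Agent.PP.K9.H97 Pool.Agent.PP.H75 Pool.Agent.PP.T3 Pool.Agent.PP.SO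

attribute [local instance] Ideal.Quotient.field

section gen

variable {G V₀ : Type} [Group G] [CommGroup V₀] (i : V₀ →* G) (T : Subgroup G)

/-- the order of the group of the induced automorphisms -/
theorem card_autT (hi : Function.Injective i) (C : Subgroup G)
    (hC : ∀ t, t ∈ C ↔ ∀ v, t * i v = i v * t)
    (hact : ∀ t ∈ T, ∃ σ : MulAut V₀, ∀ v, t * i v * t⁻¹ = i (σ v)) :
    Nat.card (SO.H43.autT i T) = C.relIndex T := by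
  choose f hf using hact
  have hm : ∀ s t : T, f (s * t : T) (s * t : T).2 = f s s.2 * f t t.2 := by
    intro s t
    apply MulEquiv.ext
    intro v
    apply hi
    rw [← hf, MulAut.mul_apply, ← hf, ← hf, Subgroup.coe_mul]
    group
  let φ : T →* MulAut V₀ := MonoidHom.mk' (fun t => f t t.2) hm
  have hφ : ∀ t : T, φ t = f t t.2 := fun t => rfl
  have h1 : φ.range = SO.H43.autT i T := by
    ext σ
    constructor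
    · rintro ⟨t, rfl⟩
      exact ⟨t, t.2, hf t t.2⟩
    · rintro ⟨t, ht, hσ⟩
      refine ⟨⟨t, ht⟩, ?_⟩
      apply MulEquiv.ext
      intro v
      apply hi
      rw [← hσ v, hφ, ← hf]
  have h2 : φ.ker = C.subgroupOf T := by
    ext t
    rw [MonoidHom.mem_ker, Subgroup.mem_subgroupOf, hC]
    constructor
    · intro h v
      have h3 := hf t t.2 v
      rw [← hφ t, h, MulAut.one_apply] at h3
      exact mul_inv_eq_iff_eq_mul.1 h3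
    · intro h
      apply MulEquiv.ext
      intro v
      apply hi
      rw [hφ, ← hf, h v, mul_inv_cancel_right]
      rfl
  rw [← h1, ← Subgroup.index_ker, h2]
  rfl

end gen

/-- the general form, with given `V₀` and `i` -/
theorem esd_gen (hInx : K9.InxStmt) {ℓ : ℕ} [Fact ℓ.Prime] {M : Ideal (integralClosure ℤ ℂ)}
    [M.IsMaximal] (hM : (ℓ : integralClosure ℤ ℂ) ∈ M) {G V₀ : Type} [Group G] [Finite G]
    [CommGroup V₀] [Finite V₀] {e : G → FF M} {V : Subgroup G} {γ : G → FF M} (hL : Ld ℓ e V γ)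
    (hexp : ∀ v ∈ V, v ^ ℓ = 1) (hcd : Nat.card V = ℓ ^ 2) (i : V₀ →* G)
    (hi : Function.Injective i) (hr : i.range = V) :
  ∃ (E₀ : Subgroup (MulAut V₀)), 
    Fq ℓ V₀ E₀ ∧ Function.Injective i ∧ i.range = V ∧
    (∀ t ∈ Tg V γ, ∃ σ ∈ E₀, ∀ v, t * i v * t⁻¹ = i (σ v)) ∧
    (∀ σ ∈ E₀, ∃ t ∈ Tg V γ, ∀ v, t * i v * t⁻¹ = i (σ v)) ∧
    ((∀ s ∈ Tg V γ, ∀ t ∈ Tg V γ, s * t * s⁻¹ * t⁻¹ ∈ Subgroup.centralizer (V : Set G)) →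
      ∀ σ ∈ E₀, ∀ τ ∈ E₀, σ * τ = τ * σ) ∧
    (Fr ℓ V₀ E₀ → T8.Fr V γ) := by
  have hmem : ∀ v, i v ∈ V := fun v => hr ▸ ⟨v, rfl⟩
  have hact0 : ∀ t ∈ Tg V γ, ∃ σ : MulAut V₀, ∀ v, t * i v * t⁻¹ = i (σ v) := by
    intro t ht
    exact SO.H43.exists_aut i hi (t := t) (fun v => by
      have h1 := (Subgroup.mem_normalizer_iff.1 ht.1 (i v)).1 (hmem v)
      rw [← hr] at h1
      obtain ⟨w, hw⟩ := h1
      exact ⟨w, hw.symm⟩)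
  have hact : ∀ t ∈ Tg V γ, ∃ σ ∈ SO.H43.autT i (Tg V γ), ∀ v, t * i v * t⁻¹ = i (σ v) := by
    intro t ht
    obtain ⟨σ, hσ⟩ := hact0 t ht
    exact ⟨σ, ⟨t, ht, hσ⟩, hσ⟩
  have hC : ∀ t, t ∈ Subgroup.centralizer (V : Set G) ↔ ∀ v, t * i v = i v * t := by
    intro t
    rw [Subgroup.mem_centralizer_iff]
    constructor
    · intro h v
      exact (h (i v) (hmem v)).symm
    · intro h x hx
      have h1 : x ∈ i.range := hr.symm ▸ hx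
      obtain ⟨v, rfl⟩ := h1
      exact (h v).symm
  refine ⟨SO.H43.autT i (Tg V γ), ⟨?_, ?_, ?_⟩, hi, hr, hact, fun σ hσ => hσ, ?_, ?_⟩
  · intro v
    apply hi
    rw [map_pow, hexp _ (hmem v), map_one]
  · rw [← hcd, ← hr]
    exact Nat.card_congr (MonoidHom.ofInjective hi).toEquiv
  · rw [card_autT i (Tg V γ) hi (Subgroup.centralizer (V : Set G)) hC hact0]
    exact hInx ℓ M hM G e hL.blk V hL.tp hL.ab γ hL.gam.supp hL.gam.blk hL.und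
  · rintro hcom σ ⟨s, hs, hσ⟩ τ ⟨t, ht, hτ⟩
    apply MulEquiv.ext
    intro v
    apply hi
    have h1 := (hC _).1 (hcom s hs t ht) (τ (σ v))
    rw [MulAut.mul_apply, MulAut.mul_apply, ← hσ, ← hτ]
    rw [← hτ, ← hσ] at h1 ⊢
    have h2 : s * (t * i v * t⁻¹) * s⁻¹ =
        (s * t * s⁻¹ * t⁻¹ * (t * (s * i v * s⁻¹) * t⁻¹)) * (s * t * s⁻¹ * t⁻¹)⁻¹ := by
      group
    rw [h2, h1]
    group
  · intro hFr t ht v hv hv1 htv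
    obtain ⟨σ, hσE, hσ⟩ := hact t ht
    have h1 : v ∈ i.range := hr.symm ▸ hv
    obtain ⟨w, rfl⟩ := h1
    have h2 : σ w = w := by
      apply hi
      rw [← hσ w, htv, mul_inv_cancel_right]
    have h3 : σ = 1 := by
      by_contra hne
      exact hv1 (by rw [hFr.fr σ hσE hne w h2, map_one])
    rw [hC]
    intro u
    have h4 := hσ u
    rw [h3, MulAut.one_apply] at h4
    exact mul_inv_eq_iff_eq_mul.1 h4

/-- ESD -/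
theorem esd_ (hInx : K9.InxStmt) : EsdStmt := by
  intro ℓ _ M _ hM G _ _ e V γ hL hexp hcd
  let inst : CommGroup V := { (inferInstance : Group V) with
    mul_comm := fun a b => Subtype.ext (hL.ab a a.2 b b.2) }
  let i : V →* G := { toFun := Subtype.val, map_one' := rfl, map_mul' := fun _ _ => rfl }
  have hi : Function.Injective i := Subtype.val_injective
  have hr : i.range = V := by
    ext x
    constructor
    · rintro ⟨v, rfl⟩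
      exact v.2
    · intro hx
      exact ⟨⟨x, hx⟩, rfl⟩
  obtain ⟨E₀, h⟩ := esd_gen hInx hM hL hexp hcd i hi hr
  exact ⟨V, inst, inferInstance, E₀, i, h⟩

theorem esd : EsdStmt := esd_ K9.H34.inx

end Pool.Agent.PP.SD.H20
end
end -- Pool.Agent.Helper20_ASD.ESD

section -- Pool.Agent.Helper96_ASE.GEA

/-!
# Squad ASE, row GEA: the geometry of a reflection line
-/

set_option autoImplicit false

noncomputable section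

namespace Pool.Agent.PP.SE.H96

open Pool.Agent.PP.SD

variable {V₀ : Type} [CommGroup V₀]

/-- the unnormalised average -/
def avg (E₀ : Subgroup (MulAut V₀)) (W : Subgroup V₀) (c : V₀) : V₀ :=
  ∏ᶠ τ : St E₀ W, (τ : MulAut V₀) c

theorem avg_eq [Finite V₀] (E₀ : Subgroup (MulAut V₀)) (W : Subgroup V₀)
    [Fintype (St E₀ W)] (c : V₀) : avg E₀ W c = ∏ τ : St E₀ W, (τ : MulAut V₀) c :=
  finprod_eq_prod_of_fintype _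

theorem avg_mul [Finite V₀] (E₀ : Subgroup (MulAut V₀)) (W : Subgroup V₀) (v w : V₀) :
    avg E₀ W (v * w) = avg E₀ W v * avg E₀ W w := by
  have := Fintype.ofFinite (St E₀ W)
  rw [avg_eq, avg_eq, avg_eq, ← Finset.prod_mul_distrib]
  exact Finset.prod_congr rfl fun τ _ => map_mul _ _ _

theorem avg_map [Finite V₀] (E₀ : Subgroup (MulAut V₀)) (W : Subgroup V₀) (v : V₀)
    {τ : MulAut V₀} (hτ : τ ∈ St E₀ W) : avg E₀ W (τ v) = avg E₀ W v := by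
  have := Fintype.ofFinite (St E₀ W)
  rw [avg_eq, avg_eq]
  exact Fintype.prod_equiv (Equiv.mulRight (⟨τ, hτ⟩ : St E₀ W)) _ _ fun σ => rfl

theorem map_avg [Finite V₀] (E₀ : Subgroup (MulAut V₀)) (W : Subgroup V₀) (v : V₀)
    {τ : MulAut V₀} (hτ : τ ∈ St E₀ W) : τ (avg E₀ W v) = avg E₀ W v := by
  have := Fintype.ofFinite (St E₀ W)
  rw [avg_eq, map_prod]
  exact Fintype.prod_equiv (Equiv.mulLeft (⟨τ, hτ⟩ : St E₀ W)) _ _ fun σ => rfl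

/-- the homomorphism `pr` -/
def prh [Finite V₀] (ℓ : ℕ) (E₀ : Subgroup (MulAut V₀)) (W : Subgroup V₀) : V₀ →* V₀ :=
  MonoidHom.mk' (fun v => pr ℓ E₀ W v) fun v w => by
    show avg E₀ W (v * w) ^ _ = avg E₀ W v ^ _ * avg E₀ W w ^ _
    rw [avg_mul, mul_pow]

/-- the elements fixed by all elements of a set of automorphisms -/
def Fx (T : Set (MulAut V₀)) : Subgroup V₀ where
  carrier := {v | ∀ τ ∈ T, τ v = v}
  one_mem' := fun τ _ => map_one τ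
  mul_mem' := fun {a b} ha hb τ hτ => by rw [map_mul, ha τ hτ, hb τ hτ]
  inv_mem' := fun {a} ha τ hτ => by rw [map_inv, ha τ hτ]

theorem gea : GeaStmt := by
  intro ℓ hℓ V₀ _ _ E₀ hF W hW
  have hp : ℓ.Prime := hℓ.out
  obtain ⟨hWc, hn⟩ := hW
  -- a subgroup containing `W` and another element is everything
  have key : ∀ F : Subgroup V₀, W ≤ F → ∀ x ∈ F, x ∉ W → F = ⊤ := by
    intro F hWF x hxF hxW
    have h1 : Nat.card F ∣ ℓ ^ 2 := by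
      rw [← hF.cd]
      exact F.card_subgroup_dvd_card
    obtain ⟨j, hj, hFc⟩ := (Nat.dvd_prime_pow hp).mp h1
    have h2 : Nat.card W ∣ Nat.card F := Subgroup.card_dvd_of_le hWF
    rw [hWc] at h2
    have hj2 : j = 2 := by
      interval_cases j
      · rw [pow_zero] at hFc
        rw [hFc] at h2
        exact absurd (Nat.dvd_one.mp h2) hp.one_lt.ne'
      · rw [pow_one] at hFc
        have h3 : W = F := Subgroup.eq_of_le_of_card_ge hWF (by rw [hFc, hWc])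
        exact absurd (h3 ▸ hxF) hxW
      · rfl
    rw [hj2] at hFc
    exact Subgroup.eq_top_of_card_eq F (by rw [hFc, hF.cd])
  have hSE : St E₀ W ≤ E₀ := fun σ hσ => hσ.1
  have hnℓ : ¬ ℓ ∣ nS E₀ W := fun h => hF.cp (h.trans (Subgroup.card_dvd_of_le hSE))
  -- an element of `S` which fixes some `x ∉ W` is trivial
  have fix1 : ∀ τ ∈ St E₀ W, ∀ x, x ∉ W → τ x = x → τ = 1 := by
    intro τ hτ x hx hxτ
    have h1 : Fx ({τ} : Set (MulAut V₀)) = ⊤ := by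
      refine key _ (fun w hw σ hσ => ?_) x (fun σ hσ => ?_) hx
      · rw [Set.mem_singleton_iff] at hσ
        rw [hσ]
        exact hτ.2 w hw
      · rw [Set.mem_singleton_iff] at hσ
        rw [hσ]
        exact hxτ
    ext v
    have h2 : v ∈ Fx ({τ} : Set (MulAut V₀)) := h1 ▸ Subgroup.mem_top v
    exact h2 τ rfl
  -- the fixed elements are in `W`
  have fixW : ∀ v, (∀ τ ∈ St E₀ W, τ v = v) → v ∈ W := by
    intro v hv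
    by_contra hvW
    have h1 : ∀ τ : St E₀ W, τ = 1 := fun τ =>
      Subtype.ext (fix1 τ τ.2 v hvW (hv τ τ.2))
    have h2 : Subsingleton (St E₀ W) := ⟨fun a b => (h1 a).trans (h1 b).symm⟩
    have h3 : Nat.card (St E₀ W) ≤ 1 := Finite.card_le_one_iff_subsingleton.mpr h2
    exact absurd hn (not_lt.mpr h3)
  have hna : ∀ v : V₀, v ^ (nS E₀ W * ((nS E₀ W : ZMod ℓ)⁻¹).val) = v := by
    intro v
    have h1 : ((nS E₀ W * ((nS E₀ W : ZMod ℓ)⁻¹).val : ℕ) : ZMod ℓ) = ((1 : ℕ) : ZMod ℓ) := by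
      rw [Nat.cast_mul, ZMod.natCast_val, ZMod.cast_id', id_eq, Nat.cast_one]
      exact mul_inv_cancel₀ fun h => hnℓ ((ZMod.natCast_eq_zero_iff _ _).mp h)
    have h2 := (ZMod.natCast_eq_natCast_iff _ _ _).mp h1
    have h3 : orderOf v ∣ ℓ := orderOf_dvd_of_pow_eq_one (hF.ex v)
    calc v ^ (nS E₀ W * ((nS E₀ W : ZMod ℓ)⁻¹).val) = v ^ 1 :=
          pow_eq_pow_iff_modEq.mpr (h2.of_dvd h3)
      _ = v := pow_one v
  have prW : ∀ v, pr ℓ E₀ W v ∈ W := fun v =>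
    W.pow_mem (fixW _ fun τ hτ => map_avg E₀ W v hτ) _
  have prm : ∀ v w, pr ℓ E₀ W (v * w) = pr ℓ E₀ W v * pr ℓ E₀ W w := fun v w =>
    (prh ℓ E₀ W).map_mul v w
  have prw : ∀ w ∈ W, pr ℓ E₀ W w = w := by
    intro w hw
    have := Fintype.ofFinite (St E₀ W)
    have h1 : avg E₀ W w = w ^ nS E₀ W := by
      rw [avg_eq, Finset.prod_congr rfl fun (τ : St E₀ W) _ => τ.2.2 w hw, Finset.prod_const,
        Finset.card_univ, nS, Nat.card_eq_fintype_card]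
    show avg E₀ W w ^ _ = w
    rw [h1, ← pow_mul]
    exact hna w
  have prτ : ∀ τ ∈ St E₀ W, ∀ v, pr ℓ E₀ W (τ v) = pr ℓ E₀ W v := by
    intro τ hτ v
    show avg E₀ W (τ v) ^ _ = avg E₀ W v ^ _
    rw [avg_map E₀ W v hτ]
  have prk : ∀ y ∈ kW E₀ W, pr ℓ E₀ W y = 1 := by
    have h1 : kW E₀ W ≤ (prh ℓ E₀ W).ker := by
      refine (Subgroup.closure_le _).mpr ?_
      rintro y ⟨τ, hτ, v, rfl⟩
      show prh ℓ E₀ W (τ v * v⁻¹) = 1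
      rw [map_mul, map_inv]
      show pr ℓ E₀ W (τ v) * (pr ℓ E₀ W v)⁻¹ = 1
      rw [prτ τ hτ v, mul_inv_cancel]
    exact fun y hy => h1 hy
  have vk : ∀ v, v * (pr ℓ E₀ W v)⁻¹ ∈ kW E₀ W := by
    intro v
    have := Fintype.ofFinite (St E₀ W)
    rw [← QuotientGroup.eq_one_iff, QuotientGroup.mk_mul, QuotientGroup.mk_inv]
    have h1 : ∀ τ : St E₀ W, (((τ : MulAut V₀) v : V₀) : V₀ ⧸ kW E₀ W) = (v : V₀ ⧸ kW E₀ W) := by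
      intro τ
      refine (QuotientGroup.eq).mpr ?_
      have h2 : (τ : MulAut V₀) v * v⁻¹ ∈ kW E₀ W := Subgroup.subset_closure ⟨τ, τ.2, v, rfl⟩
      have h3 := (kW E₀ W).inv_mem h2
      rw [mul_inv_rev, inv_inv, mul_comm] at h3
      exact h3
    have h2 : ((avg E₀ W v : V₀) : V₀ ⧸ kW E₀ W) = (v : V₀ ⧸ kW E₀ W) ^ nS E₀ W := by
      have h3 : ((avg E₀ W v : V₀) : V₀ ⧸ kW E₀ W) =
          QuotientGroup.mk' (kW E₀ W) (∏ τ : St E₀ W, (τ : MulAut V₀) v) := by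
        rw [avg_eq]; rfl
      have h4 : ∀ τ : St E₀ W, QuotientGroup.mk' (kW E₀ W) ((τ : MulAut V₀) v) =
          (v : V₀ ⧸ kW E₀ W) := h1
      rw [h3, map_prod]
      rw [Finset.prod_congr rfl fun (τ : St E₀ W) _ => h4 τ, Finset.prod_const,
        Finset.card_univ, nS, Nat.card_eq_fintype_card]
    have h3 : ((pr ℓ E₀ W v : V₀) : V₀ ⧸ kW E₀ W) = (v : V₀ ⧸ kW E₀ W) := by
      show ((avg E₀ W v ^ ((nS E₀ W : ZMod ℓ)⁻¹).val : V₀) : V₀ ⧸ kW E₀ W) = _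
      rw [QuotientGroup.mk_pow, h2, ← pow_mul, ← QuotientGroup.mk_pow, hna v]
    rw [h3, mul_inv_cancel]
  have inf : W ⊓ kW E₀ W = ⊥ := by
    rw [eq_bot_iff]
    rintro x ⟨hx1, hx2⟩
    rw [Subgroup.mem_bot, ← prw x hx1, prk x hx2]
  have sup : W ⊔ kW E₀ W = ⊤ := by
    rw [eq_top_iff]
    intro v _
    have h1 : v = pr ℓ E₀ W v * (v * (pr ℓ E₀ W v)⁻¹) := by
      rw [mul_comm v, mul_inv_cancel_left]
    rw [h1]
    exact Subgroup.mul_mem_sup (prW v) (vk v)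
  have hkc : Nat.card (kW E₀ W) = ℓ := by
    have h1 : W.IsComplement' (kW E₀ W) := by
      refine Subgroup.isComplement'_of_disjoint_and_mul_eq_univ (disjoint_iff.mpr inf) ?_
      rw [← Subgroup.mul_normal, sup]
      rfl
    have h2 := h1.card_mul_card
    rw [hWc, hF.cd, pow_two] at h2
    exact Nat.eq_of_mul_eq_mul_left hp.pos h2
  have hWb : W ≠ ⊥ := by
    rintro rfl
    rw [Subgroup.card_bot] at hWc
    exact hp.one_lt.ne hWc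
  have hWt : W ≠ ⊤ := by
    rintro rfl
    rw [Subgroup.card_top, hF.cd] at hWc
    have : ℓ * ℓ = ℓ * 1 := by rw [← pow_two, hWc, mul_one]
    exact hp.one_lt.ne' (Nat.eq_of_mul_eq_mul_left hp.pos this)
  have τk : ∀ τ ∈ St E₀ W, ∀ y ∈ kW E₀ W, τ y ∈ kW E₀ W := by
    intro τ hτ y hy
    have h1 : τ y * y⁻¹ ∈ kW E₀ W := Subgroup.subset_closure ⟨τ, hτ, y, rfl⟩
    have h2 := (kW E₀ W).mul_mem h1 hy
    rwa [inv_mul_cancel_right] at h2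
  have knW : ∀ y ∈ kW E₀ W, y ≠ 1 → y ∉ W := by
    intro y hy hy1 hyW
    have h1 : y ∈ W ⊓ kW E₀ W := ⟨hyW, hy⟩
    rw [inf, Subgroup.mem_bot] at h1
    exact hy1 h1
  have τfix : ∀ τ ∈ St E₀ W, ∀ y ∈ kW E₀ W, τ ≠ 1 → y ≠ 1 → τ y ≠ y := by
    intro τ hτ y hy hτ1 hy1 h
    exact hτ1 (fix1 τ hτ y (knW y hy hy1) h)
  -- the action on `k`
  have hcyc : IsCyclic (kW E₀ W) := isCyclic_of_prime_card hkc
  obtain ⟨y₀, hy₀⟩ : ∃ y : kW E₀ W, y ≠ 1 := by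
    have h1 : 1 < Nat.card (kW E₀ W) := by rw [hkc]; exact hp.one_lt
    have := (Finite.one_lt_card_iff_nontrivial.mp h1)
    exact exists_ne 1
  have hy₀' : (y₀ : V₀) ≠ 1 := fun h => hy₀ (Subtype.ext h)
  let ρ : St E₀ W →* MulAut (kW E₀ W) :=
    { toFun := fun τ =>
        { toFun := fun y => ⟨(τ : MulAut V₀) y, τk τ τ.2 y y.2⟩
          invFun := fun y => ⟨((τ⁻¹ : St E₀ W) : MulAut V₀) y, τk _ (τ⁻¹).2 y y.2⟩
          left_inv := fun y => Subtype.ext (by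
            show ((τ : MulAut V₀)⁻¹ * (τ : MulAut V₀)) (y : V₀) = y
            rw [inv_mul_cancel]; rfl)
          right_inv := fun y => Subtype.ext (by
            show ((τ : MulAut V₀) * (τ : MulAut V₀)⁻¹) (y : V₀) = y
            rw [mul_inv_cancel]; rfl)
          map_mul' := fun y z => Subtype.ext (map_mul (τ : MulAut V₀) (y : V₀) (z : V₀)) }
      map_one' := rfl
      map_mul' := fun τ σ => rfl }
  have hρ : Function.Injective ρ := by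
    rw [injective_iff_map_eq_one]
    intro τ hτ
    have h1 : (ρ τ y₀ : kW E₀ W) = y₀ := by rw [hτ]; rfl
    have h2 : (τ : MulAut V₀) (y₀ : V₀) = y₀ := congrArg Subtype.val h1
    by_contra h3
    exact τfix τ τ.2 y₀ y₀.2 (fun h => h3 (Subtype.ext h)) hy₀' h2
  have hcard : nS E₀ W ∣ ℓ - 1 := by
    have h1 : nS E₀ W ∣ Nat.card (MulAut (kW E₀ W)) := Subgroup.card_dvd_of_injective ρ hρ
    rw [Nat.card_congr (IsCyclic.mulAutMulEquiv (kW E₀ W)).toEquiv, hkc,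
      Nat.card_eq_fintype_card, ZMod.card_units] at h1
    exact h1
  have hScyc : IsCyclic (St E₀ W) := by
    have h1 : IsCyclic (ZMod (Nat.card (kW E₀ W)))ˣ := by
      rw [hkc]
      infer_instance
    have h2 : IsCyclic (MulAut (kW E₀ W)) :=
      isCyclic_of_injective (IsCyclic.mulAutMulEquiv (kW E₀ W)).toMonoidHom
        (IsCyclic.mulAutMulEquiv (kW E₀ W)).injective
    exact isCyclic_of_injective ρ hρ
  have powers : ∀ τ ∈ St E₀ W, ∃ a : ℕ, ∀ y ∈ kW E₀ W, τ y = y ^ a := by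
    intro τ hτ
    have h1 : (⟨τ y₀, τk τ hτ y₀ y₀.2⟩ : kW E₀ W) ∈ Submonoid.powers y₀ :=
      mem_powers_of_prime_card hkc hy₀
    obtain ⟨a, ha⟩ := h1
    have ha' : (y₀ : V₀) ^ a = τ y₀ := congrArg Subtype.val ha
    refine ⟨a, fun y hy => ?_⟩
    have h2 : (⟨y, hy⟩ : kW E₀ W) ∈ Submonoid.powers y₀ := mem_powers_of_prime_card hkc hy₀
    obtain ⟨j, hj⟩ := h2
    have hj' : (y₀ : V₀) ^ j = y := congrArg Subtype.val hj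
    rw [← hj', map_pow, ← ha', ← pow_mul, ← pow_mul, mul_comm]
  refine ⟨⟨hcard, hnℓ, hScyc, hkc, inf, sup, hWb, hWt⟩, fun v => ⟨prW v, vk v⟩, prm, prw, prk, prτ,
    fun τ hτ y hy => ⟨τk τ hτ y hy, fun h1 h2 => τfix τ hτ y hy h1 h2⟩, powers, ?_, ?_⟩
  · intro y hy
    show avg E₀ W y = 1
    have h1 : avg E₀ W y ^ (((nS E₀ W : ZMod ℓ)⁻¹).val) = 1 := prk y hy
    rw [← hna (avg E₀ W y), mul_comm, pow_mul, h1, one_pow]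
  · intro x hx
    exact ⟨key _ le_sup_left x (Subgroup.mem_sup_right (Subgroup.mem_zpowers x)) hx,
      fun τ hτ h => fix1 τ hτ x hx h⟩

end Pool.Agent.PP.SE.H96
end
end -- Pool.Agent.Helper96_ASE.GEA
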