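import Pool.Agent.Helper12_AWB.B116
import Pool.Agent.Helper12_AWB.B143
import Pool.Agent.Helper12_AWB.B145
import Pool.Agent.Helper12_AWB.B168
import Pool.Agent.Helper12_AWB.B171
import Pool.Agent.Helper12_AWB.B221

/-!
# Merged copies (generated) of the modules

* `Pool.Agent.Helper20_AT8.HKX`
* `Pool.Agent.Helper89_AT5.CO5`
* `Pool.Agent.Helper32_AT6.IPS`
* `Pool.Agent.Helper95_ASD.FIB`
* `Pool.Agent.Helper33_AT6.INM`
* `Pool.Agent.Helper81_AT6.CPL`
* `Pool.Agent.Helper43_ASO.KLN`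
* `Pool.Agent.Helper49_ASD.PML`
* `Pool.Agent.Helper95_ASE.RPS`
-/

set_option autoImplicit false

section -- Pool.Agent.Helper20_AT8.HKX

/-! Squad AT8, row HKX: a sufficient condition for the heights to be smaller than `k`. -/

open scoped BigOperators

noncomputable section

namespace Pool.Agent.PP.T8.H20

open Pool.Agent.Helper51_AWC Pool.Agent.Helper79_WRA Pool.Agent.PP Pool.Agent.PP.KF
open Pool.Agent.PP.K9 Pool.Agent.PP.K9.H97 Pool.Agent.PP.H75 Pool.Agent.PP.T3 Pool.Agent.PP.T2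

theorem cen_le_Tg {G : Type} [Group G] [Finite G] {F : Type} [Field F] {V : Subgroup G} {γ : G → F}
    (hγ : Bx (Subgroup.centralizer (V : Set G)) γ) :
    Subgroup.centralizer (V : Set G) ≤ Tg V γ := by
  intro c hc
  refine Subgroup.mem_inf.2 ⟨?_, ?_⟩
  · rw [Subgroup.mem_normalizer_iff]
    intro h
    constructor
    · intro hh
      have := (Subgroup.mem_centralizer_iff.1 hc) h hh
      rw [← this, mul_inv_cancel_right]
      exact hh
    · intro hh
      have := (Subgroup.mem_centralizer_iff.1 hc) _ hh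
      have e : h = c * h * c⁻¹ := by
        have e2 : c * h * c⁻¹ * c = c * (c * h * c⁻¹) := this
        have e3 : c * h = c * (c * h * c⁻¹) := by
          rw [← e2]
          group
        exact mul_left_cancel e3
      rw [e]
      exact hh
  · exact (cj_eq_iff _ _).1 (hγ.ix.inv hc)

/-- the number of the elements of `V - 1` which are not regular -/
theorem count (ℓ : ℕ) [hℓ : Fact ℓ.Prime] (F : Type) [Field F] (G : Type) [Group G] [Finite G]
    (e : G → F) (V : Subgroup G) (γ : G → F) (hL : Ld ℓ e V γ) (hV : V ≠ ⊥) :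
    ∃ v, 1 ≤ v ∧ Nat.card V = ℓ * v ∧
      ℓ * v - 1 ≤ {u | Rg V γ u}.ncard + (ix V γ - 1) * (v - 1) := by
  classical
  have hp : ℓ.Prime := hℓ.out
  set C := Subgroup.centralizer (V : Set G) with hC
  set T := Tg V γ with hT
  have hCT : C ≤ T := cen_le_Tg hL.gam
  have hE : ix V γ = Nat.card (T ⧸ C.subgroupOf T) := rfl
  set E := ix V γ with hEd
  have hE1 : 1 ≤ E := by
    rw [hE]
    exact Nat.card_pos
  haveI := Fintype.ofFinite G
  haveI : Fintype (T ⧸ C.subgroupOf T) := Fintype.ofFinite _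
  -- the order of V
  obtain ⟨a, ha⟩ := (IsPGroup.iff_card.1 hL.tp.pg)
  have ha0 : a ≠ 0 := by
    intro h
    rw [h, pow_zero] at ha
    exact hV (Subgroup.card_eq_one.1 ha)
  obtain ⟨b, rfl⟩ := Nat.exists_eq_succ_of_ne_zero ha0
  set v := ℓ ^ b with hv
  have hVv : Nat.card V = ℓ * v := by rw [ha, hv, Nat.succ_eq_add_one, pow_succ, mul_comm]
  have hv1 : 1 ≤ v := Nat.one_le_iff_ne_zero.2 (pow_ne_zero _ hp.ne_zero)
  -- the fixed subgroups
  let W : (T ⧸ C.subgroupOf T) → Subgroup G := fun q => V ⊓ Cu ((q.out : T) : G)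
  have hW : ∀ q, q ≠ ((1 : T) : T ⧸ C.subgroupOf T) → Nat.card (W q) ≤ v := by
    intro q hq
    have h1 : Nat.card (W q) ∣ ℓ ^ (b + 1) := by
      rw [← Nat.succ_eq_add_one, ← ha]
      exact Subgroup.card_dvd_of_le inf_le_left
    obtain ⟨i, hi, hi2⟩ := (Nat.dvd_prime_pow hp).1 h1
    rw [hi2, hv]
    rcases Nat.lt_or_ge i (b + 1) with h2 | h2
    · exact Nat.pow_le_pow_right hp.pos (by omega)
    · exfalso
      have h3 : i = b + 1 := le_antisymm hi h2
      have h4 : Nat.card (W q) = Nat.card V := by rw [hi2, h3, ha]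
      have h5 : W q = V := Subgroup.eq_of_le_of_card_ge inf_le_left h4.ge
      apply hq
      have h6 : ((q.out : T) : G) ∈ C := by
        refine Subgroup.mem_centralizer_iff.2 ?_
        intro w hw
        have h7 : w ∈ W q := by
          rw [h5]
          exact hw
        have h8 := (Subgroup.mem_inf.1 h7).2
        exact (Subgroup.mem_centralizer_iff.1 h8 _ rfl).symm
      have h9 : ((q.out : T) : T ⧸ C.subgroupOf T) = ((1 : T) : T ⧸ C.subgroupOf T) := by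
        rw [QuotientGroup.eq, mul_one, Subgroup.inv_mem_iff, Subgroup.mem_subgroupOf]
        exact h6
      rw [← h9]
      exact (Quotient.out_eq' q).symm
  -- the sets
  let A : Finset G := Finset.univ.filter (fun u => u ∈ V ∧ u ≠ 1)
  let R : Finset G := Finset.univ.filter (fun u => Rg V γ u)
  let S : Finset G := (Finset.univ.filter (fun q : T ⧸ C.subgroupOf T =>
    q ≠ ((1 : T) : T ⧸ C.subgroupOf T))).biUnion
      (fun q => Finset.univ.filter (fun u => u ∈ W q ∧ u ≠ 1))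
  have hR : {u | Rg V γ u}.ncard = R.card := by
    rw [← Set.ncard_coe_finset]
    congr 1
    ext u
    simp [R]
  have cardsub : ∀ H : Subgroup G, (Finset.univ.filter (fun u => u ∈ H ∧ u ≠ 1)).card
      = Nat.card H - 1 := by
    intro H
    have h1 : (Finset.univ.filter (fun u => u ∈ H ∧ u ≠ 1))
        = (Finset.univ.filter (fun u : G => u ∈ H)).erase 1 := by
      ext u
      simp only [Finset.mem_filter, Finset.mem_univ, true_and, Finset.mem_erase, ne_eq]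
      tauto
    rw [h1, Finset.card_erase_of_mem (by simp [H.one_mem])]
    congr 1
    rw [← Set.ncard_coe_finset]
    have : ((Finset.univ.filter (fun u : G => u ∈ H) : Finset G) : Set G) = (H : Set G) := by
      ext u
      simp
    rw [this, Set.ncard_eq_toFinset_card' , ← Nat.card_eq_card_toFinset]
    rfl
  have hA : A.card = Nat.card V - 1 := cardsub V
  have hsub : A ⊆ R ∪ S := by
    intro u hu
    simp only [A, Finset.mem_filter, Finset.mem_univ, true_and] at hu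
    by_cases hr : Rg V γ u
    · exact Finset.mem_union_left _ (by simp [R, hr])
    · apply Finset.mem_union_right
      have h1 : ¬ (Tg V γ ⊓ Cu u ≤ Subgroup.centralizer (V : Set G)) := by
        intro h
        exact hr ⟨hu.1, hu.2, h⟩
      rw [SetLike.not_le_iff_exists] at h1
      obtain ⟨t, ht, htC⟩ := h1
      obtain ⟨htT, htu⟩ := Subgroup.mem_inf.1 ht
      let t' : T := ⟨t, htT⟩
      let q : T ⧸ C.subgroupOf T := (t' : T ⧸ C.subgroupOf T)
      have hq : q ≠ ((1 : T) : T ⧸ C.subgroupOf T) := by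
        intro h
        rw [QuotientGroup.eq, mul_one, Subgroup.inv_mem_iff, Subgroup.mem_subgroupOf] at h
        exact htC h
      have hc : ((t' : T)⁻¹ * q.out) ∈ C.subgroupOf T := by
        rw [← QuotientGroup.eq]
        exact (Quotient.out_eq' q).symm
      rw [Subgroup.mem_subgroupOf] at hc
      simp only [S, Finset.mem_biUnion, Finset.mem_filter, Finset.mem_univ, true_and]
      refine ⟨q, hq, ?_, hu.2⟩
      refine Subgroup.mem_inf.2 ⟨hu.1, ?_⟩
      rw [Subgroup.mem_centralizer_iff]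
      intro w hw
      rw [Set.mem_singleton_iff] at hw
      rw [hw]
      have h2 : u * t = t * u := Subgroup.mem_centralizer_iff.1 htu u rfl
      have h3 := Subgroup.mem_centralizer_iff.1 hc u hu.1
      have h4 : ((q.out : T) : G) = t * (((t' : T)⁻¹ * q.out : T) : G) := by
        simp [t']
      rw [h4]
      calc t * (((t' : T)⁻¹ * q.out : T) : G) * u
          = t * ((((t' : T)⁻¹ * q.out : T) : G) * u) := by group
        _ = t * (u * (((t' : T)⁻¹ * q.out : T) : G)) := by rw [h3]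
        _ = (t * u) * (((t' : T)⁻¹ * q.out : T) : G) := by group
        _ = (u * t) * (((t' : T)⁻¹ * q.out : T) : G) := by rw [h2]
        _ = u * (t * (((t' : T)⁻¹ * q.out : T) : G)) := by group
  have hS : S.card ≤ (E - 1) * (v - 1) := by
    have h1 : S.card ≤ ∑ q ∈ (Finset.univ.filter (fun q : T ⧸ C.subgroupOf T =>
        q ≠ ((1 : T) : T ⧸ C.subgroupOf T))), (v - 1) := by
      refine le_trans Finset.card_biUnion_le (Finset.sum_le_sum fun q hq => ?_)
      rw [cardsub]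
      have := hW q (by simpa using hq)
      omega
    rw [Finset.sum_const, smul_eq_mul] at h1
    have h2 : (Finset.univ.filter (fun q : T ⧸ C.subgroupOf T =>
        q ≠ ((1 : T) : T ⧸ C.subgroupOf T))).card = E - 1 := by
      rw [Finset.filter_ne', Finset.card_erase_of_mem (Finset.mem_univ _), Finset.card_univ, hE,
        Nat.card_eq_fintype_card]
    rw [h2] at h1
    exact h1
  have hfin : Nat.card V - 1 ≤ R.card + (E - 1) * (v - 1) := by
    rw [← hA]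
    exact le_trans (Finset.card_le_card hsub) (le_trans (Finset.card_union_le _ _) (by omega))
  refine ⟨v, hv1, hVv, ?_⟩
  rw [hR, ← hVv]
  exact hfin

theorem arith1 (ℓ v E r : ℕ) (h2 : 2 ≤ ℓ) (h3 : E < ℓ) (hE : 1 ≤ E) (hv : 1 ≤ v)
    (h : ℓ * v - 1 ≤ r + (E - 1) * (v - 1)) : E * v ≤ ℓ * r := by
  obtain ⟨E, rfl⟩ : ∃ E', E = E' + 1 := ⟨E - 1, by omega⟩
  obtain ⟨v, rfl⟩ : ∃ v', v = v' + 1 := ⟨v - 1, by omega⟩
  simp only [Nat.add_sub_cancel] at h
  have h6 : ℓ * (v + 1) ≤ r + E * v + 1 := by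
    have : 1 ≤ ℓ * (v + 1) := Nat.one_le_iff_ne_zero.2 (mul_ne_zero (by omega) (by omega))
    omega
  obtain ⟨c, rfl⟩ : ∃ c, ℓ = E + 2 + c := ⟨ℓ - (E + 2), by omega⟩
  have h7 : (2 + c) * (v + 1) + E ≤ r + 1 := by nlinarith
  have h8 : (1 + c) * (v + 1) + v + E ≤ r := by nlinarith
  have h9 : (E + 2 + c) * ((1 + c) * (v + 1) + v + E) ≤ (E + 2 + c) * r := Nat.mul_le_mul_left _ h8
  have h10 : (E + 1) * (v + 1) ≤ (E + 2 + c) * ((1 + c) * (v + 1) + v + E) := by
    have h11 : v + 1 ≤ (1 + c) * (v + 1) + v + E := by nlinarith [Nat.zero_le (c * (v + 1))]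
    exact Nat.mul_le_mul (by omega) h11
  exact h10.trans h9

theorem arith2 (n E q : ℕ) (h1 : E + 1 ≤ n) (h2 : E + 1 ≤ q) : E * n ≤ q * (n - 1) := by
  obtain ⟨m, rfl⟩ : ∃ m, n = m + 1 := ⟨n - 1, by omega⟩
  rw [Nat.add_sub_cancel]
  rcases le_total (m + 1) q with h | h
  · have h3 : E ≤ m := by omega
    calc E * (m + 1) ≤ m * (m + 1) := Nat.mul_le_mul_right _ h3
      _ = (m + 1) * m := mul_comm _ _
      _ ≤ q * m := Nat.mul_le_mul_right _ h
  · obtain ⟨p, rfl⟩ : ∃ p, q = p + 1 := ⟨q - 1, by omega⟩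
    have h3 : E ≤ p := by omega
    calc E * (m + 1) ≤ p * (m + 1) := Nat.mul_le_mul_right _ h3
      _ = p * m + p := by ring
      _ ≤ p * m + m := by omega
      _ = (p + 1) * m := by ring

theorem ix_free {ℓ : ℕ} [Fact ℓ.Prime] {F : Type} [Field F] {G : Type} [Group G] [Finite G]
    {e : G → F} {V : Subgroup G} {γ : G → F} (hL : Ld ℓ e V γ) (hV : V ≠ ⊥) (hF : Fr V γ) :
    ix V γ + 1 ≤ Nat.card V := by
  classical
  obtain ⟨u, hu, hu1⟩ : ∃ u : G, u ∈ V ∧ u ≠ 1 := by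
    by_contra hno
    push Not at hno
    exact hV ((Subgroup.eq_bot_iff_forall V).2 hno)
  have hE : ix V γ = Nat.card (Tg V γ ⧸
    (Subgroup.centralizer (V : Set G)).subgroupOf (Tg V γ)) := rfl
  haveI := Fintype.ofFinite V
  haveI : Fintype (Tg V γ ⧸ (Subgroup.centralizer (V : Set G)).subgroupOf (Tg V γ)) :=
    Fintype.ofFinite _
  have hmem : ∀ t : Tg V γ, (t : G) * u * (t : G)⁻¹ ∈ V := fun t =>
    (Subgroup.mem_normalizer_iff.1 (Subgroup.mem_inf.1 t.2).1 u).1 hu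
  let φ : Option (Tg V γ ⧸ (Subgroup.centralizer (V : Set G)).subgroupOf (Tg V γ)) → V :=
    fun o => o.elim 1 (fun q => ⟨(q.out : G) * u * (q.out : G)⁻¹, hmem q.out⟩)
  have hφ : Function.Injective φ := by
    have h1 : ∀ q : Tg V γ ⧸ (Subgroup.centralizer (V : Set G)).subgroupOf (Tg V γ),
        φ (some q) ≠ φ none := by
      intro q h
      have h2 : (q.out : G) * u * (q.out : G)⁻¹ = 1 := congrArg Subtype.val h
      apply hu1
      have h3 : u = (q.out : G)⁻¹ * ((q.out : G) * u * (q.out : G)⁻¹) * (q.out : G) := by group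
      rw [h3, h2]
      group
    rintro (_ | q) (_ | q') h
    · rfl
    · exact absurd h.symm (h1 q')
    · exact absurd h (h1 q)
    · congr 1
      have h2 : (q.out : G) * u * (q.out : G)⁻¹ = (q'.out : G) * u * (q'.out : G)⁻¹ :=
        congrArg Subtype.val h
      have h3 : ((q.out : Tg V γ)⁻¹ * q'.out : Tg V γ) ∈
          (Subgroup.centralizer (V : Set G)).subgroupOf (Tg V γ) := by
        rw [Subgroup.mem_subgroupOf]
        refine hF _ ((q.out : Tg V γ)⁻¹ * q'.out : Tg V γ).2 u hu hu1 ?_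
        push_cast
        calc ((q.out : Tg V γ) : G)⁻¹ * ((q'.out : Tg V γ) : G) * u
            = ((q.out : Tg V γ) : G)⁻¹ * (((q'.out : Tg V γ) : G) * u *
                ((q'.out : Tg V γ) : G)⁻¹) * ((q'.out : Tg V γ) : G) := by group
          _ = ((q.out : Tg V γ) : G)⁻¹ * (((q.out : Tg V γ) : G) * u *
                ((q.out : Tg V γ) : G)⁻¹) * ((q'.out : Tg V γ) : G) := by rw [h2]
          _ = u * (((q.out : Tg V γ) : G)⁻¹ * ((q'.out : Tg V γ) : G)) := by group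
      have h4 := QuotientGroup.eq.2 h3
      rw [← Quotient.out_eq' q, ← Quotient.out_eq' q']
      exact h4
  have h5 := Fintype.card_le_of_injective φ hφ
  rw [Fintype.card_option] at h5
  rw [hE, Nat.card_eq_fintype_card, Nat.card_eq_fintype_card]
  exact h5

theorem hkx (hX : XctStmt) : HkxStmt := by
  intro ℓ hℓ F _ hF G _ _ e V γ hL hi a k hk ha hexp hy hHk
  have hp : ℓ.Prime := hℓ.out
  have hV : V ≠ ⊥ := by
    rintro rfl
    have h1 : Monoid.exponent (⊥ : Subgroup G) = 1 := Monoid.exp_eq_one_of_subsingleton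
    rw [h1] at hexp
    have h2 : 1 < ℓ ^ a := Nat.one_lt_pow (by omega) hp.one_lt
    omega
  have hE1 : 1 ≤ ix V γ := by
    have : 0 < Nat.card (Tg V γ ⧸
      (Subgroup.centralizer (V : Set G)).subgroupOf (Tg V γ)) := Nat.card_pos
    exact this
  rcases hHk with h | h | ⟨h, hFr⟩
  · obtain ⟨y, hy⟩ := hy
    have h1 := hX ℓ F hF G e V γ hL hi a 1 one_pos ha hexp y hy
    rw [pow_one] at h1
    calc ix V γ * Nat.card V ≤ ix V γ * (ℓ ^ (2 * k) * Nat.card (Uw ℓ V)) :=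
          Nat.mul_le_mul_left _ h
      _ = ℓ ^ (2 * k) * (ix V γ * Nat.card (Uw ℓ V)) := by ring
      _ ≤ _ := Nat.mul_le_mul_left _ h1
  · obtain ⟨v, hv, hc, h1⟩ := count ℓ F G e V γ hL hV
    have h2 := arith1 ℓ v (ix V γ) _ hp.two_le h hE1 hv h1
    rw [hc]
    have h3 : ℓ ^ 2 ≤ ℓ ^ (2 * k) := Nat.pow_le_pow_right hp.pos (by omega)
    calc ix V γ * (ℓ * v) = ℓ * (ix V γ * v) := by ring
      _ ≤ ℓ * (ℓ * {u | Rg V γ u}.ncard) := Nat.mul_le_mul_left _ h2
      _ = ℓ ^ 2 * {u | Rg V γ u}.ncard := by ring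
      _ ≤ _ := Nat.mul_le_mul_right _ h3
  · have h1 := ix_free hL hV hFr
    have h2 : {u | Rg V γ u}.ncard = Nat.card V - 1 := by
      have h3 : {u | Rg V γ u} = (V : Set G) \ {1} := by
        ext u
        simp only [Set.mem_ofPred_eq, Set.mem_sdiff, SetLike.mem_coe, Set.mem_singleton_iff]
        constructor
        · intro hu
          exact ⟨hu.1, hu.2.1⟩
        · rintro ⟨hu, hu1⟩
          refine ⟨hu, hu1, fun t ht => ?_⟩
          have h4 := Subgroup.mem_inf.1 ht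
          exact hFr t h4.1 u hu hu1 (Subgroup.mem_centralizer_iff.1 h4.2 u rfl).symm
      rw [h3, Set.ncard_sdiff_singleton_of_mem V.one_mem]
      rfl
    rw [h2]
    exact arith2 _ _ _ h1 (by omega)

end Pool.Agent.PP.T8.H20
end
end -- Pool.Agent.Helper20_AT8.HKX

section -- Pool.Agent.Helper89_AT5.CO5

/-!
# Squad AT5, row CO5: orthogonality for the functions `s ↦ χ(u s b)`
-/

open scoped BigOperators

noncomputable section

namespace Pool.Agent.PP.T5.H89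

open Pool.Agent.Helper51_AWC Pool.Agent.Helper79_WRA Pool.Agent.PP Pool.Agent.PP.KF
open Pool.Agent.PP.K9 Pool.Agent.PP.K9.H97 Pool.Agent.PP.H75 Pool.Agent.PP.T3 Pool.Agent.PP.T2
open Pool.Agent.PP.T3.H62

attribute [local instance] Ideal.Quotient.field

section tools

variable {M : Ideal (integralClosure ℤ ℂ)} [M.IsMaximal]

/-- transport of the characters of a block along an isomorphism -/
theorem irrE_equiv {A B : Type} [Group A] [Finite A] [Group B] [Finite B] (φ : A ≃* B)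
    {b : A → FF M} (hb : IsCl b) {κ : A → ℂ} (hκ : κ ∈ IrrE M b) :
    (fun y => κ (φ.symm y)) ∈ IrrE M (fun y => b (φ.symm y)) := by
  classical
  have hp : H75.push φ.toMonoidHom b = fun y => b (φ.symm y) := by
    funext y
    unfold H75.push
    rw [finsum_eq_single _ (φ.symm y)]
    · rw [finsum_eq_if]
      have : φ.toMonoidHom (φ.symm y) = y := φ.apply_symm_apply y
      rw [if_pos this]
    · intro x hx
      rw [finsum_eq_if, if_neg]
      intro h
      apply hx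
      rw [← h]
      exact (φ.symm_apply_apply x).symm
  have h1 := (H3.psi M A B φ.toMonoidHom φ.surjective b hb).1
  rw [hp] at h1
  rw [h1]
  refine ⟨H3.irr_infl (p := φ.symm.toMonoidHom) φ.symm.surjective hκ.1, ?_⟩
  have e1 : (fun a : A => κ (φ.symm (φ.toMonoidHom a))) = κ := by
    funext a
    change κ (φ.symm (φ a)) = κ a
    rw [φ.symm_apply_apply]
  change (fun a : A => κ (φ.symm (φ.toMonoidHom a))) ∈ IrrE M b
  rw [e1]
  exact hκ

/-- no character belongs to two orthogonal idempotents -/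
theorem irrE_disj {G : Type} [Group G] [Finite G] {e e' : G → FF M} (he : IsIdem e)
    (he' : IsIdem e') (h : mulF e e' = 0) {χ : G → ℂ} (h1 : χ ∈ IrrE M e)
    (h2 : χ ∈ IrrE M e') : False := by
  have := Fintype.ofFinite G
  have h3 := H50.res_mul (M := M) he.1 he'.1 h1.1
  rw [h, H50.res_zero, h1.2, h2.2, one_mul] at h3
  exact zero_ne_one h3

omit [M.IsMaximal] in
theorem irrE_finite {G : Type} [Group G] [Finite G] (e : G → FF M) : (IrrE M e).Finite := by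
  have := Fintype.ofFinite G
  exact (Set.toFinite (Irr G)).subset fun θ hθ => hθ.1

/-- the kernel as a finite sum -/
theorem kr_eq {G : Type} [Group G] [Finite G] (C : Subgroup G) (b : G → FF M) (s c : C) :
    kr M C b s c = ∑ κ ∈ (irrE_finite (M := M) (fun t : C => b t)).toFinset, κ s * κ c⁻¹ := by
  unfold kr
  rw [finsum_mem_eq_finite_toFinset_sum _ (irrE_finite (M := M) (fun t : C => b t))]
  refine Finset.sum_congr rfl fun κ hκ => ?_
  have h1 : κ ∈ IrrE M (fun t : C => b t) := (Set.Finite.mem_toFinset _).1 hκ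
  rw [H75.ext0_apply, H75.ext0_apply, H94.irr_star h1.1]

/-- the kernel vanishes at a singular element -/
theorem kr_sing {ℓ : ℕ} [Fact ℓ.Prime] (hM : (ℓ : integralClosure ℤ ℂ) ∈ M) {G : Type} [Group G]
    [Finite G] (C : Subgroup G) {b : G → FF M} (hb : IsIdem (fun t : C => b t)) (s c : C)
    (hs : Reg ℓ s) (hc : ¬ Reg ℓ c) : kr M C b s c = 0 := by
  have h1 := wbo_ ℓ M hM C (fun t : C => b t) hb s⁻¹ c⁻¹
    (by unfold Reg at hs ⊢; rwa [orderOf_inv]) (by
      intro h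
      apply hc
      unfold Reg at h ⊢
      rwa [orderOf_inv] at h)
  rw [finsum_mem_eq_finite_toFinset_sum _ (irrE_finite (M := M) (fun t : C => b t))] at h1
  rw [kr_eq, ← h1]
  refine Finset.sum_congr rfl fun κ _ => ?_
  rw [inv_inv]

end tools

theorem reg_of_coe {G : Type} [Group G] {ℓ : ℕ} {C : Subgroup G} {s : C} (hs : Reg ℓ (s : G)) :
    Reg ℓ s := by
  unfold Reg at hs ⊢
  rwa [Subgroup.orderOf_coe] at hs

/-- CO5 -/
theorem co5 (ker : KerStmt) : Co5Stmt := by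
  intro ℓ hℓ M _ hM G _ _ u u' hu hu' b b' hb hb' hcon s hs hsr s' hs' hsr'
  classical
  have := Fintype.ofFinite G
  obtain ⟨A, hA⟩ : ∃ A : G → ℂ, A = fun g => (Nat.card (Cu u) : ℂ)⁻¹ *
      (if g ∈ Cu u ∧ Reg ℓ g then kr M (Cu u) b s g else 0) := ⟨_, rfl⟩
  obtain ⟨A', hA'⟩ : ∃ A' : G → ℂ, A' = fun g => (Nat.card (Cu u') : ℂ)⁻¹ *
      (if g ∈ Cu u' ∧ Reg ℓ g then kr M (Cu u') b' s' g else 0) := ⟨_, rfl⟩
  have hreg : ∀ g, A g ≠ 0 → g ∈ Cu u ∧ Reg ℓ g := by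
    intro g hg
    by_contra hcon'
    apply hg
    rw [hA]
    simp only
    rw [if_neg hcon', mul_zero]
  have hreg' : ∀ g, A' g ≠ 0 → g ∈ Cu u' ∧ Reg ℓ g := by
    intro g hg
    by_contra hcon'
    apply hg
    rw [hA']
    simp only
    rw [if_neg hcon', mul_zero]
  have e1 : ∀ χ ∈ Irr G, gv M (Cu u) (u * s) b χ = chv (fun g => A (u⁻¹ * g)) χ := by
    intro χ hχ
    rw [ker ℓ M hM G u u (fun c hc => (comm_Cu hc).symm.eq) b hb s hs hsr χ hχ]
    change _ = ∑ᶠ g, A (u⁻¹ * g) * χ g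
    rw [finsum_eq_sum_of_fintype, finsum_eq_sum_of_fintype,
      ← Equiv.sum_comp (Equiv.mulLeft u) (fun g => A (u⁻¹ * g) * χ g), Finset.mul_sum, hA]
    refine Finset.sum_congr rfl fun g _ => ?_
    simp only [Equiv.coe_mulLeft, inv_mul_cancel_left]
    rw [finsum_eq_if]
    split_ifs
    · ring
    · ring
  have e2 : ∀ χ ∈ Irr G, starRingEnd ℂ (gv M (Cu u') (u' * s') b' χ) =
      chv (fun g => starRingEnd ℂ (A' (u' * g)⁻¹)) χ := by
    intro χ hχ
    rw [ker ℓ M hM G u' u' (fun c hc => (comm_Cu hc).symm.eq) b' hb' s' hs' hsr' χ hχ]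
    change _ = ∑ᶠ g, starRingEnd ℂ (A' (u' * g)⁻¹) * χ g
    rw [finsum_eq_sum_of_fintype, finsum_eq_sum_of_fintype,
      ← Equiv.sum_comp ((Equiv.inv G).trans (Equiv.mulLeft u'⁻¹))
        (fun g => starRingEnd ℂ (A' (u' * g)⁻¹) * χ g), Finset.mul_sum, map_sum]
    refine Finset.sum_congr rfl fun g _ => ?_
    have h1 : ((Equiv.inv G).trans (Equiv.mulLeft u'⁻¹)) g = u'⁻¹ * g⁻¹ := rfl
    rw [h1]
    have h2 : (u' * (u'⁻¹ * g⁻¹))⁻¹ = g := by group
    rw [h2, finsum_eq_if]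
    by_cases hg : g ∈ Cu u' ∧ Reg ℓ g
    · rw [if_pos hg, hA']
      simp only
      rw [if_pos hg, map_mul, map_mul, map_mul, H94.irr_star hχ, mul_assoc]
      congr 3
      rw [mul_inv_rev]
      exact ((comm_Cu hg.1).inv_inv).eq
    · rw [if_neg hg, hA']
      simp only
      rw [if_neg hg, mul_zero, map_zero, zero_mul]
  have e6 : ∑ᶠ χ ∈ Irr G, gv M (Cu u) (u * s) b χ *
      starRingEnd ℂ (gv M (Cu u') (u' * s') b' χ) =
      ∑ᶠ χ ∈ Irr G, chv (fun g => A (u⁻¹ * g)) χ *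
        chv (fun g => starRingEnd ℂ (A' (u' * g)⁻¹)) χ := by
    refine finsum_mem_congr rfl fun χ hχ => ?_
    rw [e1 χ hχ, e2 χ hχ]
  rw [e6, Pool.Agent.PP.KF.trc]
  obtain ⟨N, -, hN⟩ := H27.prt ℓ G
  refine finsum_eq_zero_of_forall_eq_zero fun x => ?_
  by_cases hx : x * u' * x⁻¹ = u
  · have h0 := hcon x hx
    let φ := cjE hx
    have hcx : ∀ z, z ∈ Cu u ↔ x⁻¹ * z * x ∈ Cu u' := by
      intro z
      constructor
      · intro hz
        exact (φ.symm ⟨z, hz⟩).2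
      · intro hz
        have h1 := (φ ⟨x⁻¹ * z * x, hz⟩).2
        change x * (x⁻¹ * z * x) * x⁻¹ ∈ Cu u at h1
        have h2 : x * (x⁻¹ * z * x) * x⁻¹ = z := by group
        rwa [h2] at h1
    have hux : x⁻¹ * u * x = u' := by rw [← hx]; group
    have h5 : IsIdem (fun t : Cu u => H75.cj x b' t) := by
      refine ⟨?_, ?_⟩
      · intro z y
        change b' (x⁻¹ * ((y : G) * z * (y : G)⁻¹) * x) = b' (x⁻¹ * z * x)
        have h6 := hb'.idem.1 (φ.symm z) (φ.symm y)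
        have h7 : ((φ.symm y * φ.symm z * (φ.symm y)⁻¹ : Cu u') : G) =
            x⁻¹ * ((y : G) * z * (y : G)⁻¹) * x := by
          rw [← map_inv, ← map_mul, ← map_mul]
          rfl
        change b' ((φ.symm y * φ.symm z * (φ.symm y)⁻¹ : Cu u') : G) = b' (x⁻¹ * z * x) at h6
        rw [h7] at h6
        exact h6
      · have hs3 : ∀ z, z ∉ Cu u → H75.cj x b' z = 0 := by
          intro z hz
          change b' (x⁻¹ * z * x) = 0
          apply hb'.supp
          intro h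
          exact hz ((hcx z).2 h)
        rw [← mulF_res (Cu u) (H75.cj x b') hs3, ← cj_mulF, hb'.mul]
    have h6 : mulF (fun t : Cu u => b t) (fun t : Cu u => H75.cj x b' t) = 0 := by
      rw [← mulF_res (Cu u) (H75.cj x b') hb.supp, h0]
      rfl
    -- orthogonality of a character of `b` and a character of `cj x b'`
    have h7 : ∀ κ ∈ IrrE M (fun t : Cu u => b t), ∀ κ' ∈ IrrE M (fun t : Cu u' => b' t),
        ∑ h : Cu u, κ' (φ.symm h) * κ h⁻¹ = 0 := by
      intro κ hκ κ' hκ'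
      have h8 := irrE_equiv (M := M) φ hb'.idem.1 hκ'
      have h9 : (fun y : Cu u => b' ((φ.symm y : Cu u') : G)) =
          fun t : Cu u => H75.cj x b' t := rfl
      rw [h9] at h8
      refine irr_orth_ne (χ := fun y => κ' (φ.symm y)) h8.1 hκ.1 fun heq => ?_
      rw [heq] at h8
      exact irrE_disj hb.idem h5 h6 hκ h8
    -- the sum over `C(u)`
    have h8 : ∑ h : Cu u, kr M (Cu u) b s h *
        starRingEnd ℂ (kr M (Cu u') b' s' (φ.symm h : Cu u')) = 0 := by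
      have k1 : ∀ h : Cu u, kr M (Cu u) b s h =
          ∑ κ ∈ (irrE_finite (M := M) (fun t : Cu u => b t)).toFinset, κ ⟨s, hs⟩ * κ h⁻¹ :=
        fun h => kr_eq (Cu u) b ⟨s, hs⟩ h
      have k2 : ∀ h : Cu u, starRingEnd ℂ (kr M (Cu u') b' s' (φ.symm h : Cu u')) =
          ∑ κ' ∈ (irrE_finite (M := M) (fun t : Cu u' => b' t)).toFinset,
            starRingEnd ℂ (κ' ⟨s', hs'⟩) * κ' (φ.symm h) := by
        intro h
        have k3 := kr_eq (M := M) (Cu u') b' ⟨s', hs'⟩ (φ.symm h)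
        change kr M (Cu u') b' s' (φ.symm h : Cu u') = _ at k3
        rw [k3, map_sum]
        refine Finset.sum_congr rfl fun κ' hκ' => ?_
        have h1 : κ' ∈ IrrE M (fun t : Cu u' => b' t) := (Set.Finite.mem_toFinset _).1 hκ'
        rw [map_mul, H94.irr_star h1.1 (φ.symm h)⁻¹, inv_inv]
      have k4 : ∀ h : Cu u, kr M (Cu u) b s h *
          starRingEnd ℂ (kr M (Cu u') b' s' (φ.symm h : Cu u')) =
          ∑ κ ∈ (irrE_finite (M := M) (fun t : Cu u => b t)).toFinset,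
            ∑ κ' ∈ (irrE_finite (M := M) (fun t : Cu u' => b' t)).toFinset,
              κ ⟨s, hs⟩ * starRingEnd ℂ (κ' ⟨s', hs'⟩) * (κ' (φ.symm h) * κ h⁻¹) := by
        intro h
        rw [k1, k2, Finset.sum_mul_sum]
        refine Finset.sum_congr rfl fun κ _ => Finset.sum_congr rfl fun κ' _ => ?_
        ring
      rw [Finset.sum_congr rfl fun h _ => k4 h, Finset.sum_comm]
      refine Finset.sum_eq_zero fun κ hκ => ?_
      rw [Finset.sum_comm]
      refine Finset.sum_eq_zero fun κ' hκ' => ?_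
      rw [← Finset.mul_sum, h7 κ ((Set.Finite.mem_toFinset _).1 hκ) κ'
        ((Set.Finite.mem_toFinset _).1 hκ'), mul_zero]
    -- values of `A` and `A'`
    have h9 : ∀ h : Cu u, A h = (Nat.card (Cu u) : ℂ)⁻¹ * kr M (Cu u) b s h := by
      intro h
      rw [hA]
      simp only
      by_cases hr : Reg ℓ (h : G)
      · rw [if_pos ⟨h.2, hr⟩]
      · rw [if_neg (fun h' => hr h'.2)]
        have k := kr_sing (M := M) hM (Cu u) hb.idem ⟨s, hs⟩ h (reg_of_coe hsr)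
          (fun h' => hr (reg_coe h'))
        change kr M (Cu u) b s h = 0 at k
        rw [k]
    have h10 : ∀ h : Cu u', A' h = (Nat.card (Cu u') : ℂ)⁻¹ * kr M (Cu u') b' s' h := by
      intro h
      rw [hA']
      simp only
      by_cases hr : Reg ℓ (h : G)
      · rw [if_pos ⟨h.2, hr⟩]
      · rw [if_neg (fun h' => hr h'.2)]
        have k := kr_sing (M := M) hM (Cu u') hb'.idem ⟨s', hs'⟩ h (reg_of_coe hsr')
          (fun h' => hr (reg_coe h'))
        change kr M (Cu u') b' s' h = 0 at k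
        rw [k]
    rw [finsum_eq_sum_of_fintype,
      ← Equiv.sum_comp (Equiv.mulLeft u)
        (fun g => A (u⁻¹ * g) * starRingEnd ℂ (A' (u' * (x⁻¹ * g⁻¹ * x))⁻¹))]
    simp only [Equiv.coe_mulLeft, inv_mul_cancel_left]
    have h11 : ∑ g : G, A g * starRingEnd ℂ (A' (u' * (x⁻¹ * (u * g)⁻¹ * x))⁻¹) =
        ∑ h : Cu u, A h * starRingEnd ℂ (A' (u' * (x⁻¹ * (u * (h : G))⁻¹ * x))⁻¹) := by
      symm
      refine Finset.sum_bij_ne_zero (fun h _ _ => (h : G)) (fun _ _ _ => Finset.mem_univ _)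
        (fun h₁ _ _ h₂ _ _ h12 => Subtype.ext h12) ?_ (fun _ _ _ => rfl)
      intro g _ hg
      have hgA : A g ≠ 0 := left_ne_zero_of_mul hg
      exact ⟨⟨g, (hreg g hgA).1⟩, Finset.mem_univ _, hg, rfl⟩
    rw [h11]
    have h12 : ∀ h : Cu u, A h * starRingEnd ℂ (A' (u' * (x⁻¹ * (u * (h : G))⁻¹ * x))⁻¹) =
        ((Nat.card (Cu u) : ℂ)⁻¹ * (Nat.card (Cu u') : ℂ)⁻¹) * (kr M (Cu u) b s h *
        starRingEnd ℂ (kr M (Cu u') b' s' (φ.symm h : Cu u'))) := by
      intro h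
      have k1 : (u' * (x⁻¹ * (u * (h : G))⁻¹ * x))⁻¹ = ((φ.symm h : Cu u') : G) := by
        have k2 : ((φ.symm h : Cu u') : G) = x⁻¹ * h * x := rfl
        have k3 : Commute (x⁻¹ * (h : G) * x) u' := comm_Cu ((hcx h).1 h.2)
        rw [k2]
        calc (u' * (x⁻¹ * (u * (h : G))⁻¹ * x))⁻¹ =
            (x⁻¹ * u * x) * (x⁻¹ * h * x) * u'⁻¹ := by group
          _ = (x⁻¹ * h * x) * u' * u'⁻¹ := by rw [hux, k3.symm.eq]
          _ = x⁻¹ * h * x := by group
      rw [k1, h9, h10, map_mul, map_inv₀, Complex.conj_natCast]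
      ring
    rw [Finset.sum_congr rfl fun h _ => h12 h, ← Finset.mul_sum, h8, mul_zero]
  · refine finsum_eq_zero_of_forall_eq_zero fun g => ?_
    by_contra hne
    have h1 : A (u⁻¹ * g) ≠ 0 := left_ne_zero_of_mul hne
    have h2 : A' (u' * (x⁻¹ * g⁻¹ * x))⁻¹ ≠ 0 := by
      intro h
      apply hne
      rw [h, map_zero, mul_zero]
    obtain ⟨r, hr⟩ : ∃ r, r = u⁻¹ * g := ⟨_, rfl⟩
    obtain ⟨r', hr'⟩ : ∃ r', r' = (u' * (x⁻¹ * g⁻¹ * x))⁻¹ := ⟨_, rfl⟩
    rw [← hr] at h1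
    rw [← hr'] at h2
    obtain ⟨hsC, hsR⟩ := hreg r h1
    obtain ⟨hsC', hsR'⟩ := hreg' r' h2
    have hg : g = u * r := by rw [hr]; group
    have h3 : x⁻¹ * (r * u) * x = r' * u' := by
      rw [(comm_Cu hsC).eq, ← hg, hr']
      group
    have k1 : (r * u) ^ N = r := hN r u (comm_Cu hsC) hsR hu
    have k2 : (r' * u') ^ N = r' := hN r' u' (comm_Cu hsC') hsR' hu'
    have h5 : x⁻¹ * r * x = r' := by
      rw [← k2, ← h3]
      have h6 : x⁻¹ * (r * u) * x = x⁻¹ * (r * u) * (x⁻¹)⁻¹ := by group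
      rw [h6, conj_pow, k1]
      group
    apply hx
    have h7 : x⁻¹ * (r * u) * x = (x⁻¹ * r * x) * (x⁻¹ * u * x) := by group
    rw [h7, h5] at h3
    have h8 : x⁻¹ * u * x = u' := mul_left_cancel h3
    rw [← h8]
    group

end Pool.Agent.PP.T5.H89
end
end -- Pool.Agent.Helper89_AT5.CO5

section -- Pool.Agent.Helper32_AT6.IPS

/-!
# Squad AT6, row IPS: inner products with a section component
-/

open scoped BigOperators

noncomputable section

namespace Pool.Agent.PP.T6.H32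

open Pool.Agent.Helper51_AWC Pool.Agent.Helper79_WRA Pool.Agent.PP Pool.Agent.PP.KF
open Pool.Agent.PP.K9 Pool.Agent.PP.K9.H97 Pool.Agent.PP.H75 Pool.Agent.PP.T3 Pool.Agent.PP.T2

attribute [local instance] Ideal.Quotient.field

theorem reg_coe_iff {G : Type} [Group G] {ℓ : ℕ} {C : Subgroup G} (c : C) :
    Reg ℓ (c : G) ↔ Reg ℓ c := by
  unfold Reg
  rw [Subgroup.orderOf_coe]

theorem sumC {G : Type} [Group G] [Fintype G] (ℓ : ℕ) (C : Subgroup G) [Fintype C] (F : G → ℂ) :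
    ∑ᶠ (s : G) (_ : s ∈ C ∧ Reg ℓ s), F s =
      ∑ c : C, (open Classical in if Reg ℓ c then F c else 0) := by
  classical
  have h1 : ∀ s : G, ∑ᶠ (_ : s ∈ C ∧ Reg ℓ s), F s =
      ∑ c : C, if (c : G) = s then (if Reg ℓ c then F c else 0) else 0 := by
    intro s
    rw [finsum_eq_if]
    by_cases hs : s ∈ C
    · rw [Finset.sum_eq_single (⟨s, hs⟩ : C)]
      · rw [if_pos rfl]
        by_cases hr : Reg ℓ s
        · rw [if_pos ⟨hs, hr⟩, if_pos ((reg_coe_iff (⟨s, hs⟩ : C)).1 hr)]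
        · rw [if_neg (fun h => hr h.2), if_neg (fun h => hr ((reg_coe_iff (⟨s, hs⟩ : C)).2 h))]
      · intro c _ hc
        rw [if_neg]
        intro h'
        exact hc (Subtype.ext h')
      · intro h'; exact absurd (Finset.mem_univ _) h'
    · rw [if_neg (fun h => hs h.1), Finset.sum_eq_zero]
      intro c _
      rw [if_neg]
      intro h'
      exact hs (h' ▸ c.2)
  rw [finsum_eq_sum_of_fintype, Finset.sum_congr rfl (fun s _ => h1 s), Finset.sum_comm]
  refine Finset.sum_congr rfl fun c _ => ?_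
  simp

/-- IPS: inner products with a section component. -/
theorem ips (rot : K9.RotStmt) : IpsStmt := by
  intro ℓ hℓ M _ hM G _ _ v hv b hb θ θ' hθ hθ'
  classical
  have := Fintype.ofFinite G
  have := Fintype.ofFinite (Cu v)
  set C : Subgroup G := Cu v with hC
  set b' : C → FF M := fun t => b t with hb'
  obtain ⟨z, hz⟩ : ∃ z : C, (z : G) = v :=
    ⟨⟨v, Subgroup.mem_centralizer_singleton_iff.2 rfl⟩, rfl⟩
  have hzc : ∀ c : C, z * c = c * z := by
    intro c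
    apply Subtype.ext
    show (z : G) * c = c * z
    rw [hz]
    exact (Subgroup.mem_centralizer_singleton_iff.1 c.2).symm
  -- the values of the component
  have hgv : ∀ (c : C) (φ : G → ℂ), gv M C (v * c) b φ = ∑ t : C, eh M b' t * φ (v * c * t) := by
    intro c φ
    unfold gv gbv
    rw [finsum_eq_sum_of_fintype]
  have hsp : (fun c : C => θ c) ∈ Submodule.span ℂ (Irr C) := by
    apply T3.H98.span_irr
    intro x y
    exact hθ x y
  have hq : (fun c : C => gv M C (v * c) b θ) ∈ Submodule.span ℂ (IrrE M b') := by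
    have h := T3.H98.mem_span_blk (M := M) b' hzc hsp
    have e : (fun c : C => ∑ t, eh M b' t * (fun c : C => θ c) (z * c * t)) =
        (fun c : C => gv M C (v * c) b θ) := by
      funext c
      rw [hgv]
      refine Finset.sum_congr rfl fun t _ => ?_
      show eh M b' t * θ ((z * c * t : C) : G) = _
      rw [Subgroup.coe_mul, Subgroup.coe_mul, hz]
    rwa [e] at h
  have hqr := (rot ℓ M hM C b' hb.idem).1 _ hq
  have hps := T3.H98.proj_sum (M := M) b' hqr (fun c : C => θ' (v * c))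
  have key : ∑ c : C, (if Reg ℓ c then gv M C (v * c) b θ * starRingEnd ℂ (θ' (v * c)) else 0) =
      ∑ c : C, (if Reg ℓ c then gv M C (v * c) b θ *
        starRingEnd ℂ (gv M C (v * c) b θ') else 0) := by
    have h1 := congrArg (starRingEnd ℂ) hps
    rw [map_sum, map_sum] at h1
    have e1 : ∀ c : C, starRingEnd ℂ (starRingEnd ℂ
        ((fun g : C => if Reg ℓ g then (fun c : C => gv M C (v * c) b θ) g else 0) c) *
        (fun c : C => θ' (v * c)) c) =
        (if Reg ℓ c then gv M C (v * c) b θ * starRingEnd ℂ (θ' (v * c)) else 0) := by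
      intro c
      rw [map_mul, Complex.conj_conj]
      show (if Reg ℓ c then gv M C (v * c) b θ else 0) * _ = _
      split_ifs
      · rfl
      · rw [zero_mul]
    have e2 : ∀ c : C, starRingEnd ℂ (starRingEnd ℂ
        ((fun g : C => if Reg ℓ g then (fun c : C => gv M C (v * c) b θ) g else 0) c) *
        ∑ t : C, eh M b' t * (fun c : C => θ' (v * c)) (c * t)) =
        (if Reg ℓ c then gv M C (v * c) b θ * starRingEnd ℂ (gv M C (v * c) b θ') else 0) := by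
      intro c
      rw [map_mul, Complex.conj_conj]
      have e3 : ∑ t : C, eh M b' t * (fun c : C => θ' (v * c)) (c * t) =
          gv M C (v * c) b θ' := by
        rw [hgv]
        refine Finset.sum_congr rfl fun t _ => ?_
        show eh M b' t * θ' (v * ((c * t : C) : G)) = _
        rw [Subgroup.coe_mul, mul_assoc]
      rw [e3]
      show (if Reg ℓ c then gv M C (v * c) b θ else 0) * _ = _
      split_ifs
      · rfl
      · rw [zero_mul]
    rw [Finset.sum_congr rfl fun c _ => e1 c, Finset.sum_congr rfl fun c _ => e2 c] at h1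
    exact h1
  -- the right side
  have hR : Pm M ℓ v b θ θ' = (Nat.card C : ℂ)⁻¹ *
      ∑ c : C, (if Reg ℓ c then gv M C (v * c) b θ *
        starRingEnd ℂ (gv M C (v * c) b θ') else 0) := by
    unfold Pm
    rw [sumC ℓ C (fun s => gv M C (v * s) b θ * starRingEnd ℂ (gv M C (v * s) b θ'))]
  -- the left side
  have hlp : ∀ s : G, T5.Lp ℓ (v * s) v ↔ s ∈ C ∧ Reg ℓ s := by
    intro s
    constructor
    · intro h
      have h1 : v * (v * s) = v * s * v := h.com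
      have h2 : s ∈ C := by
        rw [hC]
        apply Subgroup.mem_centralizer_singleton_iff.2
        have h3 : v * (v * s) = v * (s * v) := by rw [h1, mul_assoc]
        exact (mul_left_cancel h3).symm
      refine ⟨h2, ?_⟩
      have h3 := h.reg
      rwa [inv_mul_cancel_left] at h3
    · rintro ⟨h1, h2⟩
      have h3 : s * v = v * s := Subgroup.mem_centralizer_singleton_iff.1 h1
      refine ⟨hv, ?_, ?_⟩
      · show v * (v * s) = v * s * v
        rw [mul_assoc, h3]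
      · rwa [inv_mul_cancel_left]
  have hL : ∑ᶠ g, sv M ℓ v b θ g * starRingEnd ℂ (θ' g) =
      (Nat.card C : ℂ)⁻¹ * (Nat.card G * ∑ c : C, (if Reg ℓ c then
        gv M C (v * c) b θ * starRingEnd ℂ (θ' (v * c)) else 0)) := by
    rw [finsum_eq_sum_of_fintype]
    have h1 : ∀ g : G, sv M ℓ v b θ g * starRingEnd ℂ (θ' g) =
        (Nat.card C : ℂ)⁻¹ * ∑ u : G, (if T5.Lp ℓ (u⁻¹ * g * u) v then
          gv M C (u⁻¹ * g * u) b θ * starRingEnd ℂ (θ' g) else 0) := by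
      intro g
      unfold sv
      rw [finsum_eq_sum_of_fintype, mul_assoc, Finset.sum_mul]
      congr 1
      refine Finset.sum_congr rfl fun u _ => ?_
      rw [finsum_eq_if]
      split_ifs
      · rfl
      · rw [zero_mul]
    rw [Finset.sum_congr rfl fun g _ => h1 g, ← Finset.mul_sum, Finset.sum_comm]
    congr 1
    have h2 : ∀ u : G, ∑ g : G, (if T5.Lp ℓ (u⁻¹ * g * u) v then
          gv M C (u⁻¹ * g * u) b θ * starRingEnd ℂ (θ' g) else 0) =
        ∑ k : G, (if T5.Lp ℓ k v then gv M C k b θ * starRingEnd ℂ (θ' k) else 0) := by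
      intro u
      rw [← Equiv.sum_comp (MulAut.conj u).toEquiv]
      refine Finset.sum_congr rfl fun k _ => ?_
      have e1 : (MulAut.conj u).toEquiv k = u * k * u⁻¹ := rfl
      have e2 : u⁻¹ * (u * k * u⁻¹) * u = k := by group
      rw [e1, e2, hθ']
    rw [Finset.sum_congr rfl fun u _ => h2 u, Finset.sum_const, nsmul_eq_mul, Finset.card_univ,
      Nat.card_eq_fintype_card]
    congr 1
    rw [← Equiv.sum_comp (Equiv.mulLeft v)]
    have h3 := sumC ℓ C (fun s => gv M C (v * s) b θ * starRingEnd ℂ (θ' (v * s)))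
    rw [finsum_eq_sum_of_fintype] at h3
    rw [← h3]
    refine Finset.sum_congr rfl fun s _ => ?_
    rw [finsum_eq_if]
    show (if T5.Lp ℓ (v * s) v then _ else _) = _
    by_cases h : s ∈ C ∧ Reg ℓ s
    · rw [if_pos h, if_pos ((hlp s).2 h)]
      rfl
    · rw [if_neg h, if_neg (fun h' => h ((hlp s).1 h'))]
  rw [hL, hR, key]
  ring

end Pool.Agent.PP.T6.H32
end
end -- Pool.Agent.Helper32_AT6.IPS

section -- Pool.Agent.Helper95_ASD.FIB

/-!
# Squad ASD, row FIB: the sum over the regular elements for given `y` and given `ℓ`-part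

Author: helper95.
-/

open scoped BigOperators

set_option autoImplicit false
set_option linter.unusedSectionVars false

noncomputable section

namespace Pool.Agent.PP.SD.H95

open Pool.Agent.Helper51_AWC Pool.Agent.Helper79_WRA Pool.Agent.PP Pool.Agent.PP.KF
open Pool.Agent.PP.K9 Pool.Agent.PP.K9.H97 Pool.Agent.PP.H75 Pool.Agent.PP.T3 Pool.Agent.PP.SO

attribute [local instance] Ideal.Quotient.field

section loc

variable {ℓ : ℕ} [Fact ℓ.Prime] {M : Ideal (integralClosure ℤ ℂ)} [M.IsMaximal]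
  {G : Type} [Group G] [Finite G]

theorem reg_coe {C : Subgroup G} {s : C} : Reg ℓ (s : G) ↔ Reg ℓ s := by
  unfold Reg
  rw [Subgroup.orderOf_coe]

/-- the values of a character of an idempotent of the subgroup `X` on the section of `z` -/
theorem sec (smg : T3.SmgStmt) (hM : (ℓ : integralClosure ℤ ℂ) ∈ M) {X K : Subgroup G}
    {b : G → FF M} (hb : IsIdem (fun t : X => b t)) {χ : G → ℂ}
    (hχ : (fun t : X => χ t) ∈ IrrE M (fun t : X => b t)) {z : G} (hz : z ∈ X) (hel : El ℓ z)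
    (hK : ∀ x, x ∈ K ↔ x ∈ X ∧ x * z = z * x) :
    IsIdem (fun t : K => b t) ∧ ∃ ξ ∈ Submodule.span ℂ (IrrE M (fun t : K => b t)),
      ∀ s : K, Reg ℓ s → χ (z * s) = ξ s := by
  classical
  have hF : GoodF ℓ (FF M) := H50.fld ℓ Fact.out M hM
  obtain ⟨z', hz'⟩ : ∃ z' : X, (z' : G) = z := ⟨⟨z, hz⟩, rfl⟩
  have hel' : El ℓ z' := by
    obtain ⟨n, hn⟩ := hel
    exact ⟨n, Subtype.ext (by rw [Subgroup.coe_pow, hz', hn]; rfl)⟩
  have hmem : ∀ x : X, x ∈ Cu z' ↔ (x : G) ∈ K := by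
    intro x
    rw [Subgroup.mem_centralizer_singleton_iff, hK]
    constructor
    · intro h
      refine ⟨x.2, ?_⟩
      have h1 := congrArg Subtype.val h
      rw [← hz']
      exact h1
    · rintro ⟨-, h⟩
      apply Subtype.ext
      rw [← hz'] at h
      exact h
  obtain ⟨φ, hφ⟩ : ∃ φ : Cu z' ≃* K, ∀ k : K, (((φ.symm k : Cu z') : X) : G) = k :=
    ⟨{ toFun := fun t => ⟨((t : X) : G), (hmem t).1 t.2⟩
       invFun := fun t => ⟨⟨t, ((hK t).1 t.2).1⟩, (hmem _).2 t.2⟩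
       left_inv := fun _ => rfl
       right_inv := fun _ => rfl
       map_mul' := fun _ _ => rfl }, fun _ => rfl⟩
  have := Fintype.ofFinite G
  have := Fintype.ofFinite (Cu z')
  obtain ⟨b', hb'⟩ : ∃ b' : Cu z' → FF M, b' = fun t : Cu z' => b ((t : X) : G) := ⟨_, rfl⟩
  have hid : IsIdem b' := by
    rw [hb']
    exact T3.H98.idem_cu hF hb hel'
  have hbK : (fun t : K => b t) = fun t : K => b' (φ.symm t) := by
    rw [hb']
    funext t
    exact congrArg b (hφ t).symm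
  have hχ' := hχ.1
  obtain ⟨ψ, hψ⟩ : ∃ ψ : X → ℂ, ψ = fun t : X => χ t := ⟨_, rfl⟩
  rw [← hψ] at hχ hχ'
  have hψc : ∀ x y : X, ψ (y * x * y⁻¹) = ψ x := fun x y => irr_conj hχ' x y
  -- the function
  obtain ⟨zc, hzc⟩ : ∃ zc : Cu z', (zc : X) = z' :=
    ⟨⟨z', Subgroup.mem_centralizer_singleton_iff.2 rfl⟩, rfl⟩
  have hzcc : ∀ c : Cu z', zc * c = c * zc := by
    intro c
    apply Subtype.ext
    show (zc : X) * c = c * zc
    rw [hzc]
    exact (Subgroup.mem_centralizer_singleton_iff.1 c.2).symm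
  have hsp : (fun c : Cu z' => ψ c) ∈ Submodule.span ℂ (Irr (Cu z')) := by
    apply T3.H98.span_irr
    intro x y
    exact hψc x y
  have hq := T3.H98.mem_span_blk (M := M) b' hzcc hsp
  obtain ⟨q, hqd⟩ : ∃ q : Cu z' → ℂ, q = fun c => ∑ t, eh M b' t * ψ ((zc * c * t : Cu z') : X) :=
    ⟨_, rfl⟩
  rw [← hqd] at hq
  refine ⟨?_, fun k => q (φ.symm k), ?_, ?_⟩
  · rw [hbK]
    exact H18.idem_equiv φ.symm hid
  · rw [hbK]
    have h1 : ∀ f ∈ Submodule.span ℂ (IrrE M b'), (fun k : K => f (φ.symm k)) ∈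
        Submodule.span ℂ (IrrE M fun t : K => b' (φ.symm t)) := by
      intro f hf
      induction hf using Submodule.span_induction with
      | mem f hf => exact Submodule.subset_span (T5.H89.irrE_equiv φ hid.1 hf)
      | zero => exact Submodule.zero_mem _
      | add f g _ _ h1 h2 => exact Submodule.add_mem _ h1 h2
      | smul c f _ h1 => exact Submodule.smul_mem _ c h1
    exact h1 q hq
  · intro s hs
    have hs' : Reg ℓ ((φ.symm s : Cu z') : X) := by
      rw [← reg_coe, hφ, reg_coe]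
      exact hs
    have h1 := T6.H16.smh smg ℓ M hM X (fun t : X => b t) hb z' hel' _ (φ.symm s).2 hs' ψ hψc
    rw [(T6.H16.fv_eh _ hχ' _).1 hχ] at h1
    have h2 : ψ (z' * ((φ.symm s : Cu z') : X)) = χ (z * s) := by
      rw [hψ]
      show χ ((z' : G) * (((φ.symm s : Cu z') : X) : G)) = _
      rw [hφ, hz']
    rw [← h2, h1, hqd]
    unfold gv gbv
    rw [finsum_eq_sum_of_fintype]
    refine Finset.sum_congr rfl fun t _ => ?_
    have h3 : ((zc * φ.symm s * t : Cu z') : X) = z' * ((φ.symm s : Cu z') : X) * t := by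
      rw [Subgroup.coe_mul, Subgroup.coe_mul, hzc]
    rw [h3, hb']

/-- orthogonality on the regular elements -/
theorem dis (rot : RotStmt) (hM : (ℓ : integralClosure ℤ ℂ) ∈ M) {K : Type} [Group K] [Fintype K]
    {b₁ b₂ : K → FF M} (h1 : IsIdem b₁) (hd : ∀ θ ∈ IrrE M b₂, θ ∉ IrrE M b₁) {ξ₁ ξ₂ : K → ℂ}
    (hξ₁ : ξ₁ ∈ Submodule.span ℂ (IrrE M b₁)) (hξ₂ : ξ₂ ∈ Submodule.span ℂ (IrrE M b₂)) :
    ∑ s : K, (open Classical in if Reg ℓ s then ξ₁ s * starRingEnd ℂ (ξ₂ s) else 0) = 0 := by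
  classical
  induction hξ₁ using Submodule.span_induction with
  | mem θ hθ =>
    induction hξ₂ using Submodule.span_induction with
    | mem θ' hθ' =>
      have h2 := (rot ℓ M hM K b₁ h1).2 θ hθ θ' hθ'.1 (hd θ' hθ')
      rw [finsum_eq_sum_of_fintype] at h2
      refine Eq.trans (Finset.sum_congr rfl fun s _ => ?_) h2
      rw [finsum_eq_if]
    | zero => simp
    | add f g _ _ h2 h3 =>
      have : ∀ s : K, (if Reg ℓ s then θ s * starRingEnd ℂ ((f + g) s) else 0) =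
          (if Reg ℓ s then θ s * starRingEnd ℂ (f s) else 0) +
            (if Reg ℓ s then θ s * starRingEnd ℂ (g s) else 0) := by
        intro s
        split_ifs
        · rw [Pi.add_apply, map_add, mul_add]
        · rw [add_zero]
      rw [Finset.sum_congr rfl fun s _ => this s, Finset.sum_add_distrib, h2, h3, add_zero]
    | smul c f _ h2 =>
      have : ∀ s : K, (if Reg ℓ s then θ s * starRingEnd ℂ ((c • f) s) else 0) =
          starRingEnd ℂ c * (if Reg ℓ s then θ s * starRingEnd ℂ (f s) else 0) := by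
        intro s
        split_ifs
        · rw [Pi.smul_apply, smul_eq_mul, map_mul]
          ring
        · rw [mul_zero]
      rw [Finset.sum_congr rfl fun s _ => this s, ← Finset.mul_sum, h2, mul_zero]
  | zero => simp
  | add f g _ _ h2 h3 =>
    have : ∀ s : K, (if Reg ℓ s then (f + g) s * starRingEnd ℂ (ξ₂ s) else 0) =
        (if Reg ℓ s then f s * starRingEnd ℂ (ξ₂ s) else 0) +
          (if Reg ℓ s then g s * starRingEnd ℂ (ξ₂ s) else 0) := by
      intro s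
      split_ifs
      · rw [Pi.add_apply, add_mul]
      · rw [add_zero]
    rw [Finset.sum_congr rfl fun s _ => this s, Finset.sum_add_distrib, h2, h3, add_zero]
  | smul c f _ h2 =>
    have : ∀ s : K, (if Reg ℓ s then (c • f) s * starRingEnd ℂ (ξ₂ s) else 0) =
        c * (if Reg ℓ s then f s * starRingEnd ℂ (ξ₂ s) else 0) := by
      intro s
      split_ifs
      · rw [Pi.smul_apply, smul_eq_mul, mul_assoc]
      · rw [mul_zero]
    rw [Finset.sum_congr rfl fun s _ => this s, ← Finset.mul_sum, h2, mul_zero]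

/-- a block of `K` under both idempotents -/
theorem com (smg : T3.SmgStmt) (rot : RotStmt) (hM : (ℓ : integralClosure ℤ ℂ) ∈ M)
    {X Y K : Subgroup G} {b c : G → FF M} (hb : IsIdem (fun t : X => b t))
    (hc : IsIdem (fun t : Y => c t)) {χ ψ : G → ℂ}
    (hχ : (fun t : X => χ t) ∈ IrrE M (fun t : X => b t))
    (hψ : (fun t : Y => ψ t) ∈ IrrE M (fun t : Y => c t)) {z : G} (hz : z ∈ X) (hz' : z ∈ Y)
    (hel : El ℓ z) (hK : ∀ x, x ∈ K ↔ x ∈ X ∧ x * z = z * x)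
    (hK' : ∀ x, x ∈ K ↔ x ∈ Y ∧ x * z = z * x)
    (hne : ∑ᶠ (x : G) (_ : x ∈ K ∧ Reg ℓ x), χ (z * x) * starRingEnd ℂ (ψ (z * x)) ≠ 0) :
    ∃ β : G → FF M, Bx K β ∧ mulF (fun t : K => b t) (fun t : K => β t) = (fun t : K => β t) ∧
      mulF (fun t : K => c t) (fun t : K => β t) = (fun t : K => β t) := by
  classical
  have := Fintype.ofFinite G
  have := Fintype.ofFinite K
  obtain ⟨hb1, ξ, hξ, hξs⟩ := sec smg hM hb hχ hz hel hK
  obtain ⟨hc1, η, hη, hηs⟩ := sec smg hM hc hψ hz' hel hK'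
  rw [T6.H32.sumC ℓ K (fun x => χ (z * x) * starRingEnd ℂ (ψ (z * x)))] at hne
  have h1 : ∃ θ, θ ∈ IrrE M (fun t : K => b t) ∧ θ ∈ IrrE M (fun t : K => c t) := by
    by_contra hcon
    push Not at hcon
    apply hne
    refine Eq.trans (Finset.sum_congr rfl fun s _ => ?_)
      (dis rot hM hb1 (fun θ h1 h2 => hcon θ h2 h1) hξ hη)
    by_cases hs : Reg ℓ s
    · rw [if_pos hs, if_pos hs, hξs s hs, hηs s hs]
    · rw [if_neg hs, if_neg hs]
  obtain ⟨θ, hθ1, hθ2⟩ := h1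
  obtain ⟨f, hf⟩ : ∃ f, f = mulF (fun t : K => b t) (fun t : K => c t) := ⟨_, rfl⟩
  have hfi : IsIdem f := by
    rw [hf]
    exact H46.isIdem_mul hb1 hc1
  have hf0 : f ≠ 0 := by
    intro h0
    exact T5.H89.irrE_disj hb1 hc1 (by rw [← hf, h0]) hθ1 hθ2
  obtain ⟨g, hg⟩ : ∃ g, f g ≠ 0 := by
    by_contra hcon
    push Not at hcon
    exact hf0 (funext hcon)
  obtain ⟨β, hβ, hβf, -⟩ := KF.H69.exists_blk hfi hg
  have hβe : (fun t : K => H75.ext0 K β t) = β := funext (H75.ext0_apply K β)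
  refine ⟨H75.ext0 K β, ⟨H75.ext0_supp K β, by rw [hβe]; exact hβ⟩, ?_, ?_⟩
  · rw [hβe, ← hβf, ← H20.mulF_assoc, hf, ← H20.mulF_assoc, hb1.2]
  · rw [hβe, ← hβf, ← H20.mulF_assoc, hf, H20.mulF_comm_of_cl hb1.1, ← H20.mulF_assoc, hc1.2]

end loc

/-- FIB -/
theorem fib (psc : PscStmt) (fud : FudStmt) (smg : T3.SmgStmt) (rot : RotStmt) : FibStmt := by
  intro ℓ _ M _ hM h2 V₀ G _ _ _ _ E₀ hE B hB W W' χ hχ χ' hχ' y z hz hzW hzW' hq hp hne
  have memC : ∀ (W : Subgroup V₀) (x : G), x ∈ B.C W ↔ ∀ v ∈ W, B.i v * x = x * B.i v := by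
    intro W x
    unfold Bk.C
    rw [Subgroup.mem_centralizer_iff]
    constructor
    · intro h v hv
      exact h _ ⟨v, hv, rfl⟩
    · rintro h _ ⟨v, hv, rfl⟩
      exact h v hv
  obtain ⟨Y, hY⟩ : ∃ Y : Subgroup G, ∀ x, x ∈ Y ↔ y⁻¹ * x * y ∈ B.C W' :=
    ⟨conjS y (B.C W'), fun x => T3.H62.mem_conjS⟩
  have hK : ∀ x, x ∈ B.C W ⊓ Cu z ↔ x ∈ B.C W ∧ x * z = z * x := by
    intro x
    rw [Subgroup.mem_inf, Subgroup.mem_centralizer_singleton_iff]
  have hzx : ∀ x : G, x * z = z * x → ∀ k : ℤ, x * z ^ k = z ^ k * x := fun x hx k =>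
    (show Commute x z from hx).zpow_right k
  have hK' : ∀ x, x ∈ B.C W ⊓ Cu z ↔ x ∈ Y ∧ x * z = z * x := by
    intro x
    rw [hK, hY, memC, memC]
    constructor
    · rintro ⟨h, hx⟩
      refine ⟨fun q hqW => ?_, hx⟩
      obtain ⟨p, hpW, k, h3⟩ := hq q hqW
      have h4 : y * B.i q * y⁻¹ * x = x * (y * B.i q * y⁻¹) := by
        rw [h3, mul_assoc, ← hzx x hx k, ← mul_assoc, h p hpW, mul_assoc]
      have e1 : B.i q * (y⁻¹ * x * y) = y⁻¹ * (y * B.i q * y⁻¹ * x) * y := by group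
      rw [e1, h4]
      group
    · rintro ⟨h, hx⟩
      refine ⟨fun p hpW => ?_, hx⟩
      obtain ⟨q, hqW, k, h3⟩ := hp p hpW
      have h4 : y * B.i q * y⁻¹ * x = x * (y * B.i q * y⁻¹) := by
        have e1 : y * B.i q * y⁻¹ * x = y * (B.i q * (y⁻¹ * x * y)) * y⁻¹ := by group
        rw [e1, h q hqW]
        group
      rw [h3, mul_assoc, ← hzx x hx k, ← mul_assoc, h4, mul_assoc]
  -- the block of `Y`
  have hcB : Bx Y (cj y (B.b W')) := T3.H62.bx_cj (fun x => hY x) (hB.lb W').blk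
  obtain ⟨φ, hφ⟩ : ∃ φ : B.C W' ≃* Y, ∀ t : Y, ((φ.symm t : B.C W') : G) = y⁻¹ * t * y :=
    ⟨{ toFun := fun t => ⟨y * t * y⁻¹, (hY _).2 (by
          have e : y⁻¹ * (y * (t : G) * y⁻¹) * y = t := by group
          rw [e]
          exact t.2)⟩
       invFun := fun t => ⟨y⁻¹ * t * y, (hY _).1 t.2⟩
       left_inv := fun t => Subtype.ext (by
          show y⁻¹ * (y * (t : G) * y⁻¹) * y = t
          group)
       right_inv := fun t => Subtype.ext (by
          show y * (y⁻¹ * (t : G) * y) * y⁻¹ = t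
          group)
       map_mul' := fun s t => Subtype.ext (by
          show y * ((s : G) * t) * y⁻¹ = y * s * y⁻¹ * (y * t * y⁻¹)
          group) }, fun _ => rfl⟩
  obtain ⟨ψ, hψ⟩ : ∃ ψ : G → ℂ, ψ = fun x => χ' (y⁻¹ * x * y) := ⟨_, rfl⟩
  have hψE : (fun t : Y => ψ t) ∈ IrrE M (fun t : Y => cj y (B.b W') t) := by
    have h3 := T5.H89.irrE_equiv φ (hB.lb W').blk.blk.1.1 hχ'.2
    have e1 : (fun t : Y => (fun t : B.C W' => χ' t) (φ.symm t)) = fun t : Y => ψ t := by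
      funext t
      rw [hψ]
      exact congrArg χ' (hφ t)
    have e2 : (fun t : Y => (fun t : B.C W' => B.b W' t) (φ.symm t)) =
        fun t : Y => cj y (B.b W') t := by
      funext t
      exact congrArg (B.b W') (hφ t)
    rw [← e1, ← e2]
    exact h3
  have hstar : ∀ g : G, starRingEnd ℂ (χ' g) = χ' g⁻¹ := by
    intro g
    by_cases hg : g ∈ B.C W'
    · exact H94.irr_star hχ'.2.1 ⟨g, hg⟩
    · rw [hχ'.1 g hg, hχ'.1 g⁻¹ (fun h => hg ((Subgroup.inv_mem_iff _).1 h)), map_zero]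
  have hne' : ∑ᶠ (x : G) (_ : x ∈ B.C W ⊓ Cu z ∧ Reg ℓ x),
      χ (z * x) * starRingEnd ℂ (ψ (z * x)) ≠ 0 := by
    intro h0
    apply hne
    rw [← h0]
    refine finsum_congr fun x => ?_
    have h3 : (x ∈ {x : G | x ∈ B.C W ∧ x * z = z * x ∧ Reg ℓ x}) =
        (x ∈ B.C W ⊓ Cu z ∧ Reg ℓ x) := by
      rw [Set.mem_ofPred_eq, hK, and_assoc]
    have h4 : χ (z * x) * starRingEnd ℂ (ψ (z * x)) = χ (z * x) * χ' (y⁻¹ * (z * x)⁻¹ * y) := by
      rw [hψ, hstar]
      congr 2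
      group
    rw [h3, h4]
  have hzY : z ∈ Y := (hY z).2 hzW'
  obtain ⟨β, hβ, hβ1, hβ2⟩ := com smg rot hM (hB.lb W).blk.blk.1 hcB.blk.1 hχ.2 hψE hzW hzY hz
    hK hK' hne'
  -- the first pair
  obtain ⟨g, hg, v, hv, hβg⟩ := psc ℓ M hM h2 V₀ G E₀ hE B hB W z hzW hz β hβ hβ1
  -- the second pair
  have hz' : El ℓ (y⁻¹ * z * y) := by
    obtain ⟨n, hn⟩ := hz
    refine ⟨n, ?_⟩
    have e : y⁻¹ * z * y = MulAut.conj y⁻¹ z := by
      rw [MulAut.conj_apply, inv_inv]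
    rw [e, ← map_pow, hn, map_one]
  have hK2 : ∀ x, x ∈ B.C W' ⊓ Cu (y⁻¹ * z * y) ↔ y * x * y⁻¹ ∈ B.C W ⊓ Cu z := by
    intro x
    rw [hK', hY, Subgroup.mem_inf, Subgroup.mem_centralizer_singleton_iff]
    have e : y⁻¹ * (y * x * y⁻¹) * y = x := by group
    rw [e]
    constructor
    · rintro ⟨h, h3⟩
      refine ⟨h, ?_⟩
      have e1 : y * x * y⁻¹ * z = y * (x * (y⁻¹ * z * y)) * y⁻¹ := by group
      rw [e1, h3]
      group
    · rintro ⟨h, h3⟩
      refine ⟨h, ?_⟩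
      have e1 : x * (y⁻¹ * z * y) = y⁻¹ * (y * x * y⁻¹ * z) * y := by group
      rw [e1, h3]
      group
  have hβ' : Bx (B.C W' ⊓ Cu (y⁻¹ * z * y)) (cj y⁻¹ β) := by
    refine T3.H62.bx_cj (fun x => ?_) hβ
    rw [inv_inv]
    exact hK2 x
  have hβ3 : mulF (fun t : (B.C W' ⊓ Cu (y⁻¹ * z * y) : Subgroup G) => B.b W' t)
      (fun t : (B.C W' ⊓ Cu (y⁻¹ * z * y) : Subgroup G) => cj y⁻¹ β t) =
      (fun t : (B.C W' ⊓ Cu (y⁻¹ * z * y) : Subgroup G) => cj y⁻¹ β t) := by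
    obtain ⟨e, he⟩ : ∃ e : (B.C W' ⊓ Cu (y⁻¹ * z * y) : Subgroup G) ≃*
        (B.C W ⊓ Cu z : Subgroup G), ∀ t, ((e t : (B.C W ⊓ Cu z : Subgroup G)) : G) =
          y * t * y⁻¹ :=
      ⟨{ toFun := fun t => ⟨y * t * y⁻¹, (hK2 _).1 t.2⟩
         invFun := fun t => ⟨y⁻¹ * t * y, (hK2 _).2 (by
            have e : y * (y⁻¹ * (t : G) * y) * y⁻¹ = t := by group
            rw [e]
            exact t.2)⟩
         left_inv := fun t => Subtype.ext (by
            show y⁻¹ * (y * (t : G) * y⁻¹) * y = t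
            group)
         right_inv := fun t => Subtype.ext (by
            show y * (y⁻¹ * (t : G) * y) * y⁻¹ = t
            group)
         map_mul' := fun s t => Subtype.ext (by
            show y * ((s : G) * t) * y⁻¹ = y * s * y⁻¹ * (y * t * y⁻¹)
            group) }, fun _ => rfl⟩
    have h3 := H18.mulF_equiv e (fun t : (B.C W ⊓ Cu z : Subgroup G) => cj y (B.b W') t)
      (fun t : (B.C W ⊓ Cu z : Subgroup G) => β t)
    rw [hβ2] at h3
    have e1 : (fun t : (B.C W' ⊓ Cu (y⁻¹ * z * y) : Subgroup G) =>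
        (fun t : (B.C W ⊓ Cu z : Subgroup G) => cj y (B.b W') t) (e t)) =
        fun t : (B.C W' ⊓ Cu (y⁻¹ * z * y) : Subgroup G) => B.b W' t := by
      funext t
      show B.b W' (y⁻¹ * ((e t : (B.C W ⊓ Cu z : Subgroup G)) : G) * y) = _
      rw [he]
      congr 1
      group
    have e2 : (fun t : (B.C W' ⊓ Cu (y⁻¹ * z * y) : Subgroup G) =>
        (fun t : (B.C W ⊓ Cu z : Subgroup G) => β t) (e t)) =
        fun t : (B.C W' ⊓ Cu (y⁻¹ * z * y) : Subgroup G) => cj y⁻¹ β t := by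
      funext t
      show β ((e t : (B.C W ⊓ Cu z : Subgroup G)) : G) = β (y⁻¹⁻¹ * t * y⁻¹)
      rw [he, inv_inv]
    rw [e1, e2] at h3
    exact h3
  obtain ⟨g', hg', v', hv', hβg'⟩ := psc ℓ M hM h2 V₀ G E₀ hE B hB W' _ hzW' hz' _ hβ' hβ3
  -- the fusion
  obtain ⟨τ, hτ⟩ : ∃ τ : G, τ = g⁻¹ * y * g' := ⟨_, rfl⟩
  have hgW : ∀ p ∈ W, g⁻¹ * B.i p * g = B.i p := by
    intro p hpW
    rw [mul_assoc, (memC W g).1 hg p hpW, inv_mul_cancel_left]
  have hgW' : ∀ q ∈ W', g' * B.i q * g'⁻¹ = B.i q := by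
    intro q hqW
    rw [← (memC W' g').1 hg' q hqW, mul_inv_cancel_right]
  have hτv : τ * B.i v' * τ⁻¹ = B.i v := by
    have e1 : τ * B.i v' * τ⁻¹ = g⁻¹ * (y * (g' * B.i v' * g'⁻¹) * y⁻¹) * g := by
      rw [hτ]
      group
    rw [e1, ← hv']
    have e2 : y * (y⁻¹ * z * y) * y⁻¹ = z := by group
    rw [e2, hv]
    group
  have hτq : ∀ q ∈ W', τ * B.i q * τ⁻¹ = g⁻¹ * (y * B.i q * y⁻¹) * g := by
    intro q hqW
    have e1 : τ * B.i q * τ⁻¹ = g⁻¹ * (y * (g' * B.i q * g'⁻¹) * y⁻¹) * g := by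
      rw [hτ]
      group
    rw [e1, hgW' q hqW]
  have hzk : ∀ k : ℤ, g⁻¹ * z ^ k * g = B.i (v ^ k) := by
    intro k
    rw [hv, map_zpow, conj_zpow]
    group
  have hτk : ∀ k : ℤ, τ * B.i (v' ^ k) * τ⁻¹ = B.i (v ^ k) := by
    intro k
    rw [map_zpow, ← conj_zpow, hτv, map_zpow]
  have hc1 : ∀ u ∈ W' ⊔ Subgroup.zpowers v', ∃ u₂ ∈ W ⊔ Subgroup.zpowers v,
      τ * B.i u * τ⁻¹ = B.i u₂ := by
    intro u hu
    obtain ⟨q, hqW, w, ⟨k, rfl⟩, rfl⟩ := Subgroup.mem_sup.1 hu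
    obtain ⟨p, hpW, j, h3⟩ := hq q hqW
    refine ⟨p * v ^ j * v ^ k, ?_, ?_⟩
    · refine Subgroup.mul_mem _ (Subgroup.mul_mem _ ?_ ?_) ?_
      · exact (le_sup_left : W ≤ W ⊔ Subgroup.zpowers v) hpW
      · exact (le_sup_right : Subgroup.zpowers v ≤ W ⊔ Subgroup.zpowers v) ⟨j, rfl⟩
      · exact (le_sup_right : Subgroup.zpowers v ≤ W ⊔ Subgroup.zpowers v) ⟨k, rfl⟩
    · have e1 : τ * B.i (q * v' ^ k) * τ⁻¹ = (τ * B.i q * τ⁻¹) * (τ * B.i (v' ^ k) * τ⁻¹) := by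
        rw [map_mul]
        group
      show τ * B.i (q * v' ^ k) * τ⁻¹ = _
      rw [e1, hτk, hτq q hqW, h3, map_mul, map_mul]
      congr 1
      have e2 : g⁻¹ * (B.i p * z ^ j) * g = (g⁻¹ * B.i p * g) * (g⁻¹ * z ^ j * g) := by group
      rw [e2, hgW p hpW, hzk]
  have hc2 : ∀ u₂ ∈ W ⊔ Subgroup.zpowers v, ∃ u ∈ W' ⊔ Subgroup.zpowers v',
      τ * B.i u * τ⁻¹ = B.i u₂ := by
    intro u hu
    obtain ⟨p, hpW, w, ⟨k, rfl⟩, rfl⟩ := Subgroup.mem_sup.1 hu
    obtain ⟨q, hqW, j, h3⟩ := hp p hpW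
    refine ⟨q * v' ^ j * v' ^ k, ?_, ?_⟩
    · refine Subgroup.mul_mem _ (Subgroup.mul_mem _ ?_ ?_) ?_
      · exact (le_sup_left : W' ≤ W' ⊔ Subgroup.zpowers v') hqW
      · exact (le_sup_right : Subgroup.zpowers v' ≤ W' ⊔ Subgroup.zpowers v') ⟨j, rfl⟩
      · exact (le_sup_right : Subgroup.zpowers v' ≤ W' ⊔ Subgroup.zpowers v') ⟨k, rfl⟩
    · have e1 : τ * B.i (q * v' ^ j * v' ^ k) * τ⁻¹ =
          (τ * B.i q * τ⁻¹) * (τ * B.i (v' ^ j) * τ⁻¹) * (τ * B.i (v' ^ k) * τ⁻¹) := by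
        rw [map_mul, map_mul]
        group
      show _ = B.i (p * v ^ k)
      rw [e1, hτk, hτk, hτq q hqW, map_mul]
      congr 1
      rw [← hgW p hpW, h3]
      have e2 : g⁻¹ * (y * B.i q * y⁻¹ * z ^ j) * g =
          (g⁻¹ * (y * B.i q * y⁻¹) * g) * (g⁻¹ * z ^ j * g) := by group
      rw [e2, hzk]
  have hcjτ : cj τ (B.b (W' ⊔ Subgroup.zpowers v')) = B.b (W ⊔ Subgroup.zpowers v) := by
    rw [hτ, ← cj_cj, ← cj_cj, ← hβg', cj_cj_inv, hβg, cj_inv_cj]
  classical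
  obtain ⟨f, hf⟩ : ∃ f : V₀ → V₀, ∀ u ∈ W' ⊔ Subgroup.zpowers v',
      f u ∈ W ⊔ Subgroup.zpowers v ∧ τ * B.i u * τ⁻¹ = B.i (f u) := by
    refine ⟨fun u => if h : u ∈ W' ⊔ Subgroup.zpowers v' then (hc1 u h).choose else 1,
      fun u hu => ?_⟩
    simp only [dif_pos hu]
    exact (hc1 u hu).choose_spec
  obtain ⟨σ, hσ, -, t, ht, hσt, htτ⟩ := fud ℓ M hM V₀ G E₀ hE B hB _ _ τ f
    (fun u hu => (hf u hu).2) (fun u hu => (hf u hu).1) (fun u₂ hu₂ => by
      obtain ⟨u, hu, h3⟩ := hc2 u₂ hu₂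
      refine ⟨u, hu, hB.inj ?_⟩
      rw [← (hf u hu).2, h3]) hcjτ
  refine ⟨σ, hσ, t, ht, hσt, g, hg, t⁻¹ * τ * g'⁻¹, ?_, v, ?_, hv⟩
  · refine Subgroup.mul_mem _ ?_ (inv_mem hg')
    rw [memC] at htτ ⊢
    intro q hqW
    exact htτ q ((le_sup_left : W' ≤ W' ⊔ Subgroup.zpowers v') hqW)
  · rw [hτ]
    group

end Pool.Agent.PP.SD.H95
end
end -- Pool.Agent.Helper95_ASD.FIB

section -- Pool.Agent.Helper33_AT6.INM

/-!
# Squad AT6, row INM: integrality of the numbers `Mm (v ^ j) b χ χ'`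
-/

open scoped BigOperators

noncomputable section

namespace Pool.Agent.PP.T6.H33

open Pool.Agent.Helper51_AWC Pool.Agent.Helper79_WRA Pool.Agent.PP Pool.Agent.PP.KF
open Pool.Agent.PP.K9 Pool.Agent.PP.K9.H97 Pool.Agent.PP.H75 Pool.Agent.PP.T3 Pool.Agent.PP.T2

attribute [local instance] Ideal.Quotient.field

/-- the functions `s ↦ gv M C (v ^ j s) b χ` as exponential sums -/
theorem gv_exp (M : Ideal (integralClosure ℤ ℂ)) [M.IsMaximal] (G : Type) [Group G] [Finite G]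
    (v : G) (b : G → FF M) (q : ℕ) (hq : 0 < q) (hv : v ^ q = 1) (ζ : ℂ)
    (hζ : IsPrimitiveRoot ζ q)
    (hS : (IrrE M (fun t : Cu v => b t)).Finite) :
    ∃ ix : (Cu v → ℂ) → ℕ, ∀ χ ∈ Irr G, ∃ mu : (Cu v → ℂ) → ℤ, ∀ (j : ℕ) (s : Cu v),
      gv M (Cu v) (v ^ j * s) b χ =
        ∑ θ ∈ hS.toFinset, (mu θ : ℂ) * ζ ^ (ix θ * j) * θ s := by
  classical
  have := Fintype.ofFinite G
  have := Fintype.ofFinite (Cu v)
  obtain ⟨uC, huC⟩ : ∃ uC : Cu v, (uC : G) = v :=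
    ⟨⟨v, Subgroup.mem_centralizer_singleton_iff.2 rfl⟩, rfl⟩
  have hz : ∀ c : Cu v, uC * c = c * uC := by
    intro c
    apply Subtype.ext
    show (uC : G) * c = c * uC
    rw [huC]
    exact (Subgroup.mem_centralizer_singleton_iff.1 c.2).symm
  have hzq : uC ^ q = 1 := by
    apply Subtype.ext
    rw [Subgroup.coe_pow, huC, hv, Subgroup.coe_one]
  have h1 : ∀ θ ∈ hS.toFinset, ∃ i : ℕ,
      ∀ (j : ℕ) (c : Cu v), θ (uC ^ j * c) = (ζ ^ i) ^ j * θ c := by
    intro θ hθ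
    have hθ' : θ ∈ Irr (Cu v) := (hS.mem_toFinset.1 hθ).1
    obtain ⟨k, hk, hkj⟩ := T3.H63.cent_root hθ' hz hzq
    have : NeZero q := ⟨hq.ne'⟩
    obtain ⟨i, hi, rfl⟩ := hζ.eq_pow_of_pow_eq_one hk
    exact ⟨i, hkj⟩
  choose! ix hix2 using h1
  refine ⟨ix, fun χ hχ => ?_⟩
  have h2 : ∀ θ ∈ hS.toFinset, ∃ m : ℤ,
      (Nat.card (Cu v) : ℂ)⁻¹ * ∑ c : Cu v, χ c * θ c⁻¹ = m := by
    intro θ hθ
    exact KF.H30.mult_int (Cu v) hχ (hS.mem_toFinset.1 hθ).1
  choose! mu hmu using h2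
  refine ⟨mu, fun j s => ?_⟩
  have e1 : gv M (Cu v) (v ^ j * s) b χ =
      ∑ c : Cu v, eh M (fun t : Cu v => b t) c * χ (v ^ j * s * c) := by
    rw [gv, gbv, finsum_eq_sum_of_fintype]
  have e2 : ∀ c : Cu v, eh M (fun t : Cu v => b t) c =
      (Nat.card (Cu v) : ℂ)⁻¹ * ∑ θ ∈ hS.toFinset, θ 1 * θ c⁻¹ := by
    intro c
    rw [eh, finsum_mem_eq_finite_toFinset_sum _ hS]
  have e3 : gv M (Cu v) (v ^ j * s) b χ = ∑ θ ∈ hS.toFinset, θ 1 *
      ((Nat.card (Cu v) : ℂ)⁻¹ * ∑ c : Cu v, θ c⁻¹ * χ (((uC ^ j * s : Cu v) : G) * c)) := by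
    rw [e1]
    simp only [e2]
    have e4 : ((uC ^ j * s : Cu v) : G) = v ^ j * s := by
      rw [Subgroup.coe_mul, Subgroup.coe_pow, huC]
    rw [e4]
    simp_rw [Finset.mul_sum, Finset.sum_mul]
    rw [Finset.sum_comm]
    refine Finset.sum_congr rfl fun θ _ => Finset.sum_congr rfl fun c _ => ?_
    ring
  rw [e3]
  refine Finset.sum_congr rfl fun θ hθ => ?_
  rw [T5.H92.conv_irr hχ (hS.mem_toFinset.1 hθ).1, hmu θ hθ, hix2 θ hθ, pow_mul]
  ring

theorem inm (inq : T5.InqStmt) (lsb : T3.LsbStmt) (lpw : T3.LpwStmt) : InmStmt := by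
  intro ℓ hfact M _ hM G _ _ e V γ hL v hv b hb a hva ζ hζ χ hχ χ' hχ'
  classical
  have := Fintype.ofFinite G
  have := Fintype.ofFinite (Cu v)
  have hp : ℓ.Prime := Fact.out
  have hq : 0 < ℓ ^ a := Nat.pow_pos hp.pos
  have hS : (IrrE M (fun t : Cu v => b t)).Finite := irr_finite'.subset (fun θ h => h.1)
  obtain ⟨ix, hix⟩ := gv_exp M G v b (ℓ ^ a) hq hva ζ hζ hS
  obtain ⟨mu, hmu⟩ := hix χ hχ
  obtain ⟨mu', hmu'⟩ := hix χ' hχ'
  obtain ⟨hLC, _, hVc, _⟩ := lsb ℓ M hM G e V γ hL v hv b hb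
  obtain ⟨R, hR⟩ : ∃ R : Finset (Cu v), R = Finset.univ.filter (fun s : Cu v => Reg ℓ s) :=
    ⟨_, rfl⟩
  have hrip : ∀ θ ∈ hS.toFinset, ∀ θ' ∈ hS.toFinset, ∃ n : ℤ,
      (Nat.card V : ℂ) * ((Nat.card (Cu v) : ℂ)⁻¹ * ∑ s ∈ R, θ s * starRingEnd ℂ (θ' s)) = n := by
    intro θ hθ θ' hθ'
    obtain ⟨n, hn⟩ := inq ℓ M hM (Cu v) (fun t : Cu v => b t) hLC.blk _
      hLC.tp θ (hS.mem_toFinset.1 hθ) θ' (hS.mem_toFinset.1 hθ')
    refine ⟨n, ?_⟩
    rw [← hn, hVc, T5.rip, T5.H92.finsum_reg', ← hR]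
  choose! N hN using hrip
  obtain ⟨r, hr⟩ : ∃ r : ℕ, r = (Subgroup.centralizer (V : Set G)).relIndex (Tg V γ ⊓ Cu v) :=
    ⟨_, rfl⟩
  obtain ⟨κ, hκ⟩ : ∃ κ : (Cu v → ℂ) × (Cu v → ℂ) → ℕ,
    κ = fun p => (ix p.1 + (ℓ ^ a - 1) * ix p.2) % ℓ ^ a := ⟨_, rfl⟩
  obtain ⟨cf, hcf⟩ : ∃ cf : (Cu v → ℂ) × (Cu v → ℂ) → ℤ,
    cf = fun p => r * (mu p.1 * mu' p.2 * N p.1 p.2) := ⟨_, rfl⟩
  refine ⟨fun i => ∑ p ∈ (hS.toFinset ×ˢ hS.toFinset).filter (fun p => κ p = i), cf p, ?_⟩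
  intro j hj
  obtain ⟨hCj, _⟩ := lpw ℓ (FF M) (H50.fld ℓ hp M hM) G e V γ hL v hv b hb j hj
  have hzc : ∀ k : ℕ, starRingEnd ℂ (ζ ^ k) = ζ ^ ((ℓ ^ a - 1) * k) := by
    intro k
    have h1 : starRingEnd ℂ ζ * ζ = 1 := by
      rw [mul_comm, Complex.mul_conj, Complex.normSq_eq_norm_sq, hζ.norm'_eq_one hq.ne']
      norm_num
    have h2 : ζ ^ (ℓ ^ a - 1) * ζ = 1 := by
      rw [← pow_succ, Nat.sub_add_cancel hq, hζ.pow_eq_one]
    have hz0 : ζ ≠ 0 := hζ.ne_zero hq.ne'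
    have h3 : starRingEnd ℂ ζ = ζ ^ (ℓ ^ a - 1) := mul_right_cancel₀ hz0 (h1.trans h2.symm)
    rw [map_pow, h3, pow_mul]
  -- the left hand side
  have hPm : Pm M ℓ (v ^ j) b χ χ' = (Nat.card (Cu v) : ℂ)⁻¹ *
      ∑ s ∈ R, gv M (Cu v) (v ^ j * s) b χ * starRingEnd ℂ (gv M (Cu v) (v ^ j * s) b χ') := by
    rw [Pm, hCj, T5.H92.finsum_reg, ← hR]
  have hprod : ∀ s ∈ R, gv M (Cu v) (v ^ j * s) b χ *
      starRingEnd ℂ (gv M (Cu v) (v ^ j * s) b χ') =
      ∑ p ∈ hS.toFinset ×ˢ hS.toFinset, (mu p.1 : ℂ) * mu' p.2 *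
        ζ ^ (κ p * j) * (p.1 s * starRingEnd ℂ (p.2 s)) := by
    intro s _
    rw [hmu, hmu', map_sum, Finset.sum_mul_sum, Finset.sum_product]
    refine Finset.sum_congr rfl fun θ _ => Finset.sum_congr rfl fun θ' _ => ?_
    have e1 : ζ ^ (κ (θ, θ') * j) = ζ ^ (ix θ * j) * starRingEnd ℂ (ζ ^ (ix θ' * j)) := by
      rw [hzc, ← pow_add, hκ]
      change ζ ^ ((ix θ + (ℓ ^ a - 1) * ix θ') % ℓ ^ a * j) = _
      rw [pow_mul, ← pow_eq_pow_mod _ hζ.pow_eq_one, ← pow_mul]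
      congr 1
      ring
    rw [e1, map_mul, map_mul, map_intCast]
    ring
  have hmain : Mm M ℓ V γ (v ^ j) b χ χ' =
      ∑ p ∈ hS.toFinset ×ˢ hS.toFinset, (cf p : ℂ) * ζ ^ (κ p * j) := by
    rw [Mm, hCj, ← hr, hPm, Finset.sum_congr rfl hprod, Finset.sum_comm, Finset.mul_sum,
      Finset.mul_sum]
    refine Finset.sum_congr rfl fun p hp => ?_
    rw [Finset.mem_product] at hp
    rw [← Finset.mul_sum, hcf]
    push_cast
    rw [← hN p.1 hp.1 p.2 hp.2]
    ring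
  rw [hmain, ← Finset.sum_fiberwise_of_maps_to (s := hS.toFinset ×ˢ hS.toFinset)
    (t := Finset.range (ℓ ^ a)) (g := κ)
    (fun p _ => Finset.mem_range.2 (by rw [hκ]; exact Nat.mod_lt _ hq))]
  refine Finset.sum_congr rfl fun i _ => ?_
  rw [Int.cast_sum, Finset.sum_mul]
  refine Finset.sum_congr rfl fun p hp => ?_
  rw [(Finset.mem_filter.1 hp).2]

end Pool.Agent.PP.T6.H33
end
end -- Pool.Agent.Helper33_AT6.INM

section -- Pool.Agent.Helper81_AT6.CPL

/-!
# Squad AT6, row CPL: the sum of the diagonal entries over `V`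
-/

open scoped BigOperators

noncomputable section

namespace Pool.Agent.PP.T6.H81

open Pool.Agent.Helper51_AWC Pool.Agent.Helper79_WRA Pool.Agent.PP Pool.Agent.PP.KF
open Pool.Agent.PP.K9 Pool.Agent.PP.K9.H97 Pool.Agent.PP.H75 Pool.Agent.PP.T3 Pool.Agent.PP.T2

attribute [local instance] Ideal.Quotient.field

/-- the value of a character in `e` at `g e^` -/
theorem fv_eh {M : Ideal (integralClosure ℤ ℂ)} [M.IsMaximal] {G : Type} [Group G] [Finite G]
    {e : G → FF M} (he : IsIdem e) {χ : G → ℂ} (hχ : χ ∈ IrrE M e) (g : G) :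
    T8.fv (eh M e) g χ = χ g := by
  classical
  have := Fintype.ofFinite G
  have h1 := (((KF.H25.idm M G e he).2.2 χ hχ.1) (fun t => if t = g then 1 else 0)).1 hχ.2
  have h2 : chv (fun t => if t = g then (1 : ℂ) else 0) χ = χ g := by
    unfold chv
    rw [finsum_eq_sum_of_fintype]
    simp
  rw [h2] at h1
  rw [← h1]
  unfold T8.fv chv
  rw [finsum_eq_sum_of_fintype, finsum_eq_sum_of_fintype]
  have h3 : ∀ t : G, mulF (eh M e) (fun t => if t = g then (1 : ℂ) else 0) t = eh M e (t * g⁻¹) := by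
    intro t
    rw [mulF, finsum_eq_sum_of_fintype, Finset.sum_eq_single (t * g⁻¹)]
    · have e : (t * g⁻¹)⁻¹ * t = g := by group
      rw [e, if_pos rfl, mul_one]
    · intro u _ hu
      rw [if_neg, mul_zero]
      intro h
      apply hu
      rw [← h]
      group
    · intro h
      exact absurd (Finset.mem_univ _) h
  refine Fintype.sum_equiv (Equiv.mulRight g) _ _ fun t => ?_
  rw [h3, Equiv.coe_mulRight, mul_inv_cancel_right, irr_mul_comm hχ.1]

theorem card_mul_relIndex {G : Type} [Group G] {A B : Subgroup G} (h : A ≤ B) :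
    Nat.card A * A.relIndex B = Nat.card B := by
  rw [← Subgroup.relIndex_bot_left, ← Subgroup.relIndex_bot_left,
    Subgroup.relIndex_mul_relIndex _ _ _ bot_le h]

theorem cpl (sec : SecStmt) (ips : IpsStmt) : CplStmt := by
  intro ℓ hℓ M _ hM G _ _ e V γ hL b hb χ hχ
  classical
  have := Fintype.ofFinite G
  have hcl : ∀ x y, χ (y * x * y⁻¹) = χ x := fun x y => irr_conj hχ.1 x y
  have hid : IsIdem e := hL.blk.1
  have hG : (Nat.card G : ℂ) ≠ 0 := by exact_mod_cast Nat.card_pos.ne'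
  set S : Finset G := Finset.univ.filter (fun v => v ∈ V) with hS
  have hsum : ∀ F : G → ℂ, ∑ᶠ (v : G) (_ : v ∈ V), F v = ∑ v ∈ S, F v := by
    intro F
    rw [← finsum_mem_coe_finset]
    refine finsum_congr fun c => ?_
    simp [hS]
  have hel : ∀ v ∈ V, El ℓ v := by
    intro v hv
    obtain ⟨k, hk⟩ := hL.tp.pg ⟨v, hv⟩
    exact ⟨k, by simpa using congrArg Subtype.val hk⟩
  -- the first relation
  have h1 : (Nat.card G : ℂ) = ∑ v ∈ S, wt V γ v * ((Nat.card G : ℂ) * Pm M ℓ v (b v) χ χ) := by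
    have e1 : (Nat.card G : ℂ) = ∑ g : G, χ g * starRingEnd ℂ (χ g) := by
      rw [Nat.card_eq_fintype_card, ← irr_orth_self hχ.1]
      refine Finset.sum_congr rfl fun g _ => ?_
      rw [H94.irr_star hχ.1]
    have e2 : ∀ g : G, χ g * starRingEnd ℂ (χ g) =
        ∑ v ∈ S, wt V γ v * (sv M ℓ v (b v) χ g * starRingEnd ℂ (χ g)) := by
      intro g
      have e3 := sec ℓ M hM G e V γ hL b hb χ hcl g
      rw [fv_eh hid hχ, hsum] at e3
      have e5 : ∑ v ∈ S, wt V γ v * (sv M ℓ v (b v) χ g * starRingEnd ℂ (χ g)) =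
          (∑ v ∈ S, wt V γ v * sv M ℓ v (b v) χ g) * starRingEnd ℂ (χ g) := by
        rw [Finset.sum_mul]
        refine Finset.sum_congr rfl fun v _ => ?_
        ring
      rw [e5, ← e3]
    rw [Finset.sum_congr rfl fun g _ => e2 g, Finset.sum_comm] at e1
    conv_lhs => rw [e1]
    refine Finset.sum_congr rfl fun v hv => ?_
    have hvV : v ∈ V := (Finset.mem_filter.1 hv).2
    rw [← Finset.mul_sum]
    congr 1
    have e4 := ips ℓ M hM G v (hel v hvV) (b v) (hb v hvV).blk.ix χ χ hcl hcl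
    rw [finsum_eq_sum_of_fintype] at e4
    rw [e4]
  have h2 : (1 : ℂ) = ∑ v ∈ S, wt V γ v * Pm M ℓ v (b v) χ χ := by
    have e1 : (Nat.card G : ℂ) * 1 =
        (Nat.card G : ℂ) * ∑ v ∈ S, wt V γ v * Pm M ℓ v (b v) χ χ := by
      rw [Finset.mul_sum, mul_one]
      conv_lhs => rw [h1]
      refine Finset.sum_congr rfl fun v _ => ?_
      ring
    exact mul_left_cancel₀ hG e1
  have hle := T8.H20.cen_le_Tg hL.gam
  have h3 : ∀ v ∈ V, (((Subgroup.centralizer (V : Set G)).relIndex (Tg V γ ⊓ Cu v) : ℕ) : ℂ) =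
      ix V γ * wt V γ v := by
    intro v hv
    have hle2 : Subgroup.centralizer (V : Set G) ≤ Tg V γ ⊓ Cu v := by
      refine le_inf hle ?_
      intro c hc
      exact Subgroup.mem_centralizer_iff.2 fun x hx => by
        rw [Set.mem_singleton_iff.1 hx]
        exact (Subgroup.mem_centralizer_iff.1 hc) v hv
    have e1 : (Subgroup.centralizer (V : Set G)).relIndex (Tg V γ ⊓ Cu v) *
        Nat.card (Subgroup.centralizer (V : Set G)) = Nat.card (Tg V γ ⊓ Cu v : Subgroup G) := by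
      rw [mul_comm]
      exact card_mul_relIndex hle2
    have e2 : ix V γ * Nat.card (Subgroup.centralizer (V : Set G)) = Nat.card (Tg V γ) := by
      rw [mul_comm]
      exact card_mul_relIndex hle
    unfold wt
    rw [← e1, ← e2]
    push_cast
    have e3 : (Nat.card (Subgroup.centralizer (V : Set G)) : ℂ) ≠ 0 := by
      exact_mod_cast Nat.card_pos.ne'
    have e4 : (ix V γ : ℂ) ≠ 0 := by
      have : Nat.card (Tg V γ) ≠ 0 := Nat.card_pos.ne'
      rw [← e2] at this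
      exact_mod_cast left_ne_zero_of_mul this
    field_simp
  rw [hsum]
  calc ∑ v ∈ S, Mm M ℓ V γ v (b v) χ χ
      = ∑ v ∈ S, (Nat.card V : ℂ) * ix V γ * (wt V γ v * Pm M ℓ v (b v) χ χ) := by
        refine Finset.sum_congr rfl fun v hv => ?_
        unfold Mm
        rw [h3 v (Finset.mem_filter.1 hv).2]
        ring
    _ = _ := by rw [← Finset.mul_sum, ← h2, mul_one]

end Pool.Agent.PP.T6.H81
end
end -- Pool.Agent.Helper81_AT6.CPL

section -- Pool.Agent.Helper43_ASO.KLN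

/-!
# Squad ASO, row KLN: the number of ordinary and of modular characters for a free inertial quotient
-/

open scoped BigOperators

noncomputable section

namespace Pool.Agent.PP.SO.H43

open Pool.Agent.Helper51_AWC Pool.Agent.Helper79_WRA Pool.Agent.PP Pool.Agent.PP.KF
open Pool.Agent.PP.K9 Pool.Agent.PP.K9.H97 Pool.Agent.PP.H75 Pool.Agent.PP.T3

attribute [local instance] Ideal.Quotient.field

/-- the values of the functions `s ↦ χ(v s b)` for a block `b` whose characters agree at the regular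
elements -/
theorem gv_reg (M : Ideal (integralClosure ℤ ℂ)) [M.IsMaximal] {ℓ : ℕ} {G : Type} [Group G]
    [Finite G] (v : G) (b : G → FF M) {d : ℕ} (hd : Dg M (fun t : Cu v => b t) d)
    {κ₀ : Cu v → ℂ}
    (hκ : ∀ κ ∈ IrrE M (fun t : Cu v => b t), ∀ s : Cu v, Reg ℓ s → κ s = κ₀ s)
    {χ : G → ℂ} (hχ : χ ∈ Irr G) (s : Cu v) (hs : Reg ℓ s) :
    gv M (Cu v) (v * s) b χ = κ₀ s * (gv M (Cu v) v b χ / d) := by
  classical
  have := Fintype.ofFinite (Cu v)
  have hS : (IrrE M (fun t : Cu v => b t)).Finite := irr_finite'.subset (fun θ h => h.1)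
  have hd0 : (d : ℂ) ≠ 0 := by exact_mod_cast hd.1.ne'
  obtain ⟨ix, hix⟩ := T6.H33.gv_exp M G v b (orderOf v) (orderOf_pos v) (pow_orderOf_eq_one v)
    _ (Complex.isPrimitiveRoot_exp _ (orderOf_pos v).ne') hS
  obtain ⟨mu, hmu⟩ := hix χ hχ
  have h1 := hmu 1 s
  have h2 := hmu 1 1
  rw [pow_one] at h1 h2
  rw [Subgroup.coe_one, mul_one] at h2
  rw [h1, h2]
  have e1 : ∀ θ ∈ hS.toFinset, (mu θ : ℂ) *
      Complex.exp (2 * Real.pi * Complex.I / (orderOf v : ℕ)) ^ (ix θ * 1) * θ s =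
      κ₀ s * (((mu θ : ℂ) *
      Complex.exp (2 * Real.pi * Complex.I / (orderOf v : ℕ)) ^ (ix θ * 1) * θ 1) / d) := by
    intro θ hθ
    have h3 := hS.mem_toFinset.1 hθ
    rw [hκ θ h3 s hs, hd.2 θ h3]
    field_simp
  rw [Finset.sum_congr rfl e1, ← Finset.mul_sum, Finset.sum_div]

theorem kln (loc : T3.LocStmt) (lsb : T3.LsbStmt) (rgl : T3.RglStmt) (rg1 : T8.Rg1Stmt)
    (lfr : T8.LfrStmt) (co1 : T3.Co1Stmt) (smg : T3.SmgStmt) (lrk : T3.LrkStmt)
    (cpl : T6.CplStmt) : KlnStmt := by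
  classical
  intro ℓ hℓ M _ hM hl2 G _ _ e V γ hL hV hFr
  have hF : GoodF ℓ (FF M) := H50.fld ℓ Fact.out M hM
  have := Fintype.ofFinite G
  have hfin : (IrrE M e).Finite := K9.H25.irrE_finite M e
  have hfI : (Irr G).Finite := T3.H41.irrF G
  -- local blocks
  have hb0 : ∀ v : G, ∃ b : G → FF M, v ∈ V → Lc e V γ v b := by
    intro v
    by_cases hv : v ∈ V
    · obtain ⟨⟨b, hb⟩, -⟩ := loc ℓ (FF M) hF G e V γ hL v hv
      exact ⟨b, fun _ => hb⟩
    · exact ⟨0, fun h => absurd h hv⟩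
  choose b hb using hb0
  have hcpl := cpl ℓ M hM G e V γ hL b hb
  have hVc : (Nat.card V : ℂ) ≠ 0 := by exact_mod_cast Nat.card_pos.ne'
  -- the sum over the characters of the diagonal entries
  have h1 : ∑ χ ∈ hfin.toFinset, ∑ᶠ (v : G) (_ : v ∈ V), T6.Mm M ℓ V γ v (b v) χ χ =
      (IrrE M e).ncard * ((Nat.card V : ℂ) * ix V γ) := by
    rw [Finset.sum_congr rfl fun χ hχ => hcpl χ (hfin.mem_toFinset.1 hχ), Finset.sum_const,
      nsmul_eq_mul, ← Set.ncard_eq_toFinset_card _ hfin]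
  set S : Finset G := Finset.univ.filter (fun v => v ∈ V) with hS
  have hmS : ∀ v, v ∈ S ↔ v ∈ V := fun v => by simp [hS]
  have hsum : ∀ F : G → ℂ, ∑ᶠ (v : G) (_ : v ∈ V), F v = ∑ v ∈ S, F v := by
    intro F
    rw [← finsum_mem_coe_finset]
    refine finsum_congr fun c => ?_
    simp [hS]
  have hcS : (S.card : ℂ) = Nat.card V := by
    rw [Nat.card_eq_fintype_card, hS, ← Fintype.card_subtype]
  simp_rw [hsum] at h1
  rw [Finset.sum_comm] at h1
  -- the element `1`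
  have hv1 : ∑ χ ∈ hfin.toFinset, T6.Mm M ℓ V γ 1 (b 1) χ χ =
      (Nat.card V : ℂ) * ix V γ * ln e := by
    have htop : Cu (1 : G) = ⊤ := by
      rw [eq_top_iff]
      intro x _
      rw [Subgroup.mem_centralizer_singleton_iff]
      simp
    obtain ⟨φ, hφ⟩ : ∃ φ : Cu (1 : G) ≃* G, ∀ t : Cu (1 : G), φ t = (t : G) :=
      ⟨(MulEquiv.subgroupCongr htop).trans Subgroup.topEquiv, fun t => rfl⟩
    have hsupp : ∀ x, x ∉ Cu (1 : G) → e x = 0 := by
      intro x hx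
      exact absurd (htop ▸ Subgroup.mem_top x) hx
    have hblk : IsBlk (fun t : Cu (1 : G) => e t) := by
      have h1 := H9.blk_tr φ hL.blk
      have h2 : (fun x : Cu (1 : G) => e (φ x)) = fun t : Cu (1 : G) => e t := by
        funext x
        rw [hφ]
      rw [h2] at h1
      exact h1
    have hLe : Lc e V γ 1 e := ⟨⟨hsupp, hblk⟩, hblk.1.2, hL.und⟩
    have hbe : b 1 = e := (loc ℓ (FF M) hF G e V γ hL 1 V.one_mem).2 _ _ (hb 1 V.one_mem) hLe
    have hcard : Nat.card (Cu (1 : G)) = Nat.card G := Nat.card_congr φ.toEquiv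
    have hgv : ∀ κ ∈ IrrE M e, ∀ s : G, gv M (Cu (1 : G)) (1 * s) (b 1) κ = κ s := by
      intro κ hκ s
      rw [hbe, one_mul, T6.H16.gv_one e hL.blk.1.1]
      exact (T6.H16.fv_eh e hκ.1 s).1 hκ
    have hrel : (Subgroup.centralizer (V : Set G)).relIndex (Tg V γ ⊓ Cu 1) = ix V γ := by
      rw [htop, inf_top_eq]
      rfl
    rw [lrk ℓ M hM G e hL.blk.1]
    have e1 : ∀ χ ∈ hfin.toFinset, T6.Mm M ℓ V γ 1 (b 1) χ χ =
        (Nat.card V : ℂ) * ix V γ * ((Nat.card G : ℂ)⁻¹ *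
          ∑ s ∈ Finset.univ.filter (fun s : G => Reg ℓ s), χ s * starRingEnd ℂ (χ s)) := by
      intro χ hχ
      have hχ' := hfin.mem_toFinset.1 hχ
      unfold T6.Mm T6.Pm
      rw [hrel, hcard, ← T5.H92.finsum_reg']
      congr 2
      refine finsum_congr fun s => ?_
      rw [hgv χ hχ']
      have h3 : (s ∈ Cu (1 : G) ∧ Reg ℓ s) = Reg ℓ s := by
        rw [htop]
        simp
      rw [h3]
    rw [Finset.sum_congr rfl e1, ← Finset.mul_sum, ← Finset.mul_sum, Finset.sum_comm,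
      T5.H92.finsum_reg']
    congr 2
    refine Finset.sum_congr rfl fun s _ => ?_
    rw [finsum_mem_eq_finite_toFinset_sum _ hfin]
  -- the other elements
  have hv2 : ∀ v ∈ S.erase 1, ∑ χ ∈ hfin.toFinset, T6.Mm M ℓ V γ v (b v) χ χ =
      (Nat.card V : ℂ) := by
    intro v hv
    rw [Finset.mem_erase, hmS] at hv
    obtain ⟨hv1', hvV⟩ := hv
    have hcle : Tg V γ ⊓ Cu v ≤ Subgroup.centralizer (V : Set G) := by
      intro t ht
      exact hFr t ht.1 v hvV hv1' (Subgroup.mem_centralizer_singleton_iff.1 ht.2)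
    have hRg : Rg V γ v := ⟨hvV, hv1', hcle⟩
    obtain ⟨b', d, hb', hd, hN, hix⟩ := rgl ℓ M hM G e V γ hL v hRg
    have hbb : b v = b' := (loc ℓ (FF M) hF G e V γ hL v hvV).2 _ _ (hb v hvV) hb'
    rw [← hbb] at hb' hd hN
    obtain ⟨hLC, -, hVc', -⟩ := lsb ℓ M hM G e V γ hL v hvV (b v) hb'
    have := Fintype.ofFinite (Cu v)
    have hel : El ℓ v := by
      obtain ⟨k, hk⟩ := hL.tp.pg ⟨v, hvV⟩
      exact ⟨k, by simpa using congrArg Subtype.val hk⟩
    -- the number of modular characters of the local block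
    have hln : ln (fun t : Cu v => b v t) = 1 := by
      apply le_antisymm
      · rw [← hix]
        refine lfr ℓ M hM hl2 (Cu v) _ _ _ hLC ?_ ?_
        · intro h
          rw [h, Subgroup.card_bot] at hVc'
          exact hV (Subgroup.card_eq_one.1 hVc'.symm)
        · intro t ht w hw _ _
          exact Subgroup.relIndex_eq_one.1 hix ht
      · exact (H3.lbd ℓ M hM (Cu v) _ hLC.blk.1 hLC.blk.2.1).1
    obtain ⟨κ₀, hκ₀⟩ := T3.H41.irrE_ne M hM hLC.blk
    have hκ : ∀ κ ∈ IrrE M (fun t : Cu v => b v t), ∀ s : Cu v, Reg ℓ s → κ s = κ₀ s :=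
      fun κ hκ s hs => rg1 ℓ M hM (Cu v) _ _ _ hLC hix κ hκ κ₀ hκ₀ s hs
    have hfb : (IrrE M (fun t : Cu v => b v t)).Finite := irr_finite'.subset (fun θ h => h.1)
    set q : ℂ := (Nat.card (Cu v) : ℂ)⁻¹ *
      ∑ s ∈ Finset.univ.filter (fun s : Cu v => Reg ℓ s), κ₀ s * starRingEnd ℂ (κ₀ s) with hq
    have hqV : (Nat.card V : ℂ) * q = 1 := by
      have e1 := lrk ℓ M hM (Cu v) _ hLC.blk.1
      rw [hln, Nat.cast_one, T5.H92.finsum_reg'] at e1
      rw [e1, hq, mul_left_comm, Finset.mul_sum]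
      congr 1
      refine Finset.sum_congr rfl fun s hs => ?_
      have hs' : Reg ℓ s := (Finset.mem_filter.1 hs).2
      rw [finsum_mem_eq_finite_toFinset_sum _ hfb]
      rw [Finset.sum_congr rfl (g := fun _ => κ₀ s * starRingEnd ℂ (κ₀ s)) (fun κ hk => by
        rw [hκ κ (hfb.mem_toFinset.1 hk) s hs']), Finset.sum_const, nsmul_eq_mul,
        ← Set.ncard_eq_toFinset_card _ hfb, hN]
    have hPm : ∀ χ ∈ hfin.toFinset, T6.Mm M ℓ V γ v (b v) χ χ = (Nat.card V : ℂ) * q *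
        (Complex.normSq (gv M (Cu v) v (b v) χ / d) : ℂ) := by
      intro χ hχ
      have hχ' := hfin.mem_toFinset.1 hχ
      unfold T6.Mm T6.Pm
      have e0 : (Subgroup.centralizer (V : Set G)).relIndex (Tg V γ ⊓ Cu v) = 1 :=
        Subgroup.relIndex_eq_one.2 hcle
      rw [e0, T5.H92.finsum_reg, Nat.cast_one, mul_one, mul_assoc, hq, mul_assoc, Finset.sum_mul]
      congr 2
      refine Finset.sum_congr rfl fun s hs => ?_
      have hs' : Reg ℓ s := (Finset.mem_filter.1 hs).2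
      rw [gv_reg M v (b v) hd hκ hχ'.1 s hs', map_mul, ← Complex.mul_conj]
      ring
    rw [Finset.sum_congr rfl hPm, ← Finset.mul_sum, hqV, one_mul]
    have hsg := T3.H41.sum_gv M co1 hM hel hb'.blk.ix hd hN
    have hsub : hfin.toFinset ⊆ hfI.toFinset := by
      intro χ hχ
      rw [Set.Finite.mem_toFinset] at hχ ⊢
      exact hχ.1
    have hout : ∀ χ ∈ hfI.toFinset, χ ∉ hfin.toFinset →
        (Complex.normSq (gv M (Cu v) v (b v) χ / d) : ℂ) = 0 := by
      intro χ h1 h2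
      rw [Set.Finite.mem_toFinset] at h1 h2
      have h4 := (smg ℓ M hM G v 1 hv1' hel (Cu v).one_mem K9.H25.reg_one
        (fun t : Cu v => b v t) hb'.blk.ix.idem e hL.blk.1).1 hb'.und χ h1 h2
      rw [mul_one] at h4
      have h5 : gv M (Cu v) v (b v) χ = 0 := h4
      rw [h5, zero_div, map_zero, Complex.ofReal_zero]
    rw [Finset.sum_subset hsub hout]
    exact_mod_cast hsg
  rw [← Finset.add_sum_erase S _ ((hmS 1).2 V.one_mem), hv1, Finset.sum_congr rfl hv2,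
    Finset.sum_const, nsmul_eq_mul, Finset.card_erase_of_mem ((hmS 1).2 V.one_mem)] at h1
  have hpos : 1 ≤ Nat.card V := Nat.card_pos
  have hcS' : S.card = Nat.card V := by exact_mod_cast hcS
  rw [hcS'] at h1
  have h2 : (Nat.card V : ℂ) * ((IrrE M e).ncard * ix V γ) =
      (Nat.card V : ℂ) * (ln e * ix V γ + (Nat.card V - 1 : ℕ)) := by
    linear_combination -h1
  have h3 := mul_left_cancel₀ hVc h2
  exact_mod_cast h3

end Pool.Agent.PP.SO.H43
end
end -- Pool.Agent.Helper43_ASO.KLN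

section -- Pool.Agent.Helper49_ASD.PML

/-!
# Squad ASD, row PML: the sum of the diagonal entries over all characters
-/

open scoped BigOperators

set_option autoImplicit false

noncomputable section

namespace Pool.Agent.PP.SD.H49

open Pool.Agent.Helper51_AWC Pool.Agent.Helper79_WRA Pool.Agent.PP Pool.Agent.PP.KF
open Pool.Agent.PP.K9 Pool.Agent.PP.K9.H97 Pool.Agent.PP.H75 Pool.Agent.PP.T3 Pool.Agent.PP.SO

attribute [local instance] Ideal.Quotient.field

/-- Parseval -/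
theorem pars {C : Type} [Group C] [Fintype C] {S : Finset (C → ℂ)} (hS : ∀ ψ ∈ S, ψ ∈ Irr C)
    {q : C → ℂ} (hq : q ∈ Submodule.span ℂ (S : Set (C → ℂ))) :
    ∑ c, q c * starRingEnd ℂ (q c) = (Fintype.card C : ℂ)⁻¹ *
      ∑ κ ∈ S, (∑ c, q c * starRingEnd ℂ (κ c)) * starRingEnd ℂ (∑ c, q c * starRingEnd ℂ (κ c))
      := by
  have h1 := K9.H25.pj_span hS hq
  have h2 : ∀ c, q c = (Fintype.card C : ℂ)⁻¹ *
      ∑ κ ∈ S, (∑ x, q x * starRingEnd ℂ (κ x)) * κ c := by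
    intro c
    conv_lhs => rw [← h1]
    rw [K9.H25.pj_apply]
    congr 1
    have h3 : ∀ x, q x * ∑ ψ ∈ S, ψ x⁻¹ * ψ c = ∑ ψ ∈ S, (q x * starRingEnd ℂ (ψ x)) * ψ c := by
      intro x
      rw [Finset.mul_sum]
      refine Finset.sum_congr rfl fun ψ hψ => ?_
      rw [H94.irr_star (hS ψ hψ)]
      ring
    rw [Finset.sum_congr rfl fun x _ => h3 x, Finset.sum_comm]
    refine Finset.sum_congr rfl fun ψ _ => ?_
    rw [Finset.sum_mul]
  have h4 : ∀ c, q c * starRingEnd ℂ (q c) = (Fintype.card C : ℂ)⁻¹ *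
      ∑ κ ∈ S, (∑ x, q x * starRingEnd ℂ (κ x)) * (κ c * starRingEnd ℂ (q c)) := by
    intro c
    conv_lhs => rw [h2 c]
    rw [mul_assoc, Finset.sum_mul]
    congr 1
    refine Finset.sum_congr rfl fun κ _ => ?_
    rw [mul_assoc, ← h2 c]
  rw [Finset.sum_congr rfl fun c _ => h4 c, ← Finset.mul_sum, Finset.sum_comm]
  congr 1
  refine Finset.sum_congr rfl fun κ _ => ?_
  rw [← Finset.mul_sum, map_sum]
  congr 1
  refine Finset.sum_congr rfl fun c _ => ?_
  rw [map_mul, Complex.conj_conj, mul_comm]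

/-- PML -/
theorem pml (rot : K9.RotStmt) (lrk : T3.LrkStmt) : PmlStmt := by
  intro ℓ hℓ M _ hM G _ _ v hv b hb
  classical
  have := Fintype.ofFinite G
  have := Fintype.ofFinite (Cu v)
  have := Fintype.ofFinite (Irr G)
  obtain ⟨C, hC⟩ : ∃ C : Subgroup G, C = Cu v := ⟨_, rfl⟩
  have hCf : Fintype C := Fintype.ofFinite C
  obtain ⟨b', hb'⟩ : ∃ b' : C → FF M, b' = fun t : C => b t := ⟨_, rfl⟩
  have hid : IsIdem b' := by
    subst hC
    rw [hb']
    exact hb.idem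
  obtain ⟨z, hz⟩ : ∃ z : C, (z : G) = v :=
    ⟨⟨v, by rw [hC]; exact Subgroup.mem_centralizer_singleton_iff.2 rfl⟩, rfl⟩
  have hcv : ∀ c : C, (c : G) * v = v * c := by
    intro c
    have h1 : (c : G) ∈ Cu v := by
      rw [← hC]
      exact c.2
    exact Subgroup.mem_centralizer_singleton_iff.1 h1
  have hzc : ∀ c : C, z * c = c * z := by
    intro c
    apply Subtype.ext
    change (z : G) * c = c * z
    rw [hz]
    exact (hcv c).symm
  have hgv : ∀ (c : C) (φ : G → ℂ), gv M C (v * c) b φ = ∑ t : C, eh M b' t * φ (v * c * t) := by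
    intro c φ
    unfold gv gbv
    rw [finsum_eq_sum_of_fintype, hb']
  have hfin := K9.H25.irrE_finite M b'
  obtain ⟨S, hSdef⟩ : ∃ S, S = hfin.toFinset := ⟨_, rfl⟩
  have hSc : (S : Set (C → ℂ)) = IrrE M b' := by rw [hSdef, Set.Finite.coe_toFinset]
  have hSm : ∀ ψ ∈ S, ψ ∈ IrrE M b' := fun ψ hψ => by
    rw [← hSc]
    exact hψ
  have hS : ∀ ψ ∈ S, ψ ∈ Irr C := fun ψ hψ => (hSm ψ hψ).1
  -- the functions `q χ`
  obtain ⟨q, hq⟩ : ∃ q : (G → ℂ) → C → ℂ, q = fun (χ : G → ℂ) (c : C) =>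
      if Reg ℓ c then gv M C (v * c) b χ else 0 := ⟨_, rfl⟩
  have hqs : ∀ χ ∈ Irr G, q χ ∈ Submodule.span ℂ (S : Set (C → ℂ)) := by
    intro χ hχ
    have hsp : (fun c : C => χ c) ∈ Submodule.span ℂ (Irr C) := by
      apply T3.H98.span_irr
      intro x y
      exact irr_conj hχ _ _
    have h := T3.H98.mem_span_blk (M := M) b' hzc hsp
    have e : (fun c : C => ∑ t, eh M b' t * (fun c : C => χ c) (z * c * t)) =
        (fun c : C => gv M C (v * c) b χ) := by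
      funext c
      rw [hgv]
      refine Finset.sum_congr rfl fun t _ => ?_
      change eh M b' t * χ ((z * c * t : C) : G) = _
      rw [Subgroup.coe_mul, Subgroup.coe_mul, hz]
    rw [e] at h
    have h2 := (rot ℓ M hM C b' hid).1 _ h
    rw [hSc, hq]
    exact h2
  have hPm : ∀ χ : G → ℂ, T6.Pm M ℓ v b χ χ = (Fintype.card C : ℂ)⁻¹ *
      ∑ c : C, q χ c * starRingEnd ℂ (q χ c) := by
    intro χ
    unfold T6.Pm
    rw [← hC, T6.H32.sumC ℓ C (fun s => gv M C (v * s) b χ * starRingEnd ℂ (gv M C (v * s) b χ)),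
      Nat.card_eq_fintype_card]
    congr 1
    refine Finset.sum_congr rfl fun c _ => ?_
    rw [hq]
    by_cases hc : Reg ℓ c
    · simp only [if_pos hc]
    · simp only [if_neg hc, zero_mul]
  -- the coefficients
  have hA : ∀ κ ∈ S, ∀ χ : G → ℂ, ∑ c, q χ c * starRingEnd ℂ (κ c) =
      ∑ s : C, (if Reg ℓ s then starRingEnd ℂ (κ s) * χ (v * s) else 0) := by
    intro κ hκ χ
    have h1 := (rot ℓ M hM C b' hid).1 κ (Submodule.subset_span (hSm κ hκ))
    have h2 := T3.H98.proj_sum (M := M) b' h1 (fun c : C => χ (v * c))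
    have e1 : ∀ s : C, starRingEnd ℂ ((fun g : C => if Reg ℓ g then κ g else 0) s) *
        (fun c : C => χ (v * c)) s =
        (if Reg ℓ s then starRingEnd ℂ (κ s) * χ (v * s) else 0) := by
      intro s
      change starRingEnd ℂ (if Reg ℓ s then κ s else 0) * χ (v * s) = _
      split_ifs
      · rfl
      · rw [map_zero, zero_mul]
    have e2 : ∀ s : C, starRingEnd ℂ ((fun g : C => if Reg ℓ g then κ g else 0) s) *
        ∑ c : C, eh M b' c * (fun c : C => χ (v * c)) (s * c) =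
        q χ s * starRingEnd ℂ (κ s) := by
      intro s
      have e3 : ∑ c : C, eh M b' c * (fun c : C => χ (v * c)) (s * c) =
          gv M C (v * s) b χ := by
        rw [hgv]
        refine Finset.sum_congr rfl fun t _ => ?_
        change eh M b' t * χ (v * ((s * t : C) : G)) = _
        rw [Subgroup.coe_mul, mul_assoc]
      rw [e3, hq]
      change starRingEnd ℂ (if Reg ℓ s then κ s else 0) * _ =
        (if Reg ℓ s then gv M C (v * s) b χ else 0) * _
      split_ifs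
      · rw [mul_comm]
      · rw [map_zero, zero_mul, zero_mul]
    rw [Finset.sum_congr rfl fun s _ => e1 s, Finset.sum_congr rfl fun s _ => e2 s] at h2
    exact h2.symm
  -- the conjugating elements
  have hcj : ∀ κ ∈ S, ∀ s : C, Reg ℓ s → ∑ s' : C, (if Reg ℓ s' then κ s' else 0) *
      ∑ x : G, (if x⁻¹ * (v * s)⁻¹ * x = (v * s')⁻¹ then (1 : ℂ) else 0) =
        Fintype.card C * κ s := by
    intro κ hκ s hs
    have h1 : ∀ (s' : C) (x : G), Reg ℓ s' → x⁻¹ * (v * s)⁻¹ * x = (v * s')⁻¹ → x ∈ C := by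
      intro s' x hs' hx
      have h2 : x⁻¹ * (v * s) * x⁻¹⁻¹ = v * s' := by
        rw [inv_inv]
        have h3 := congrArg (fun g => g⁻¹) hx
        simp only [inv_inv] at h3
        rw [← h3]
        group
      have hLs : ∀ t : C, Reg ℓ t → T5.Lp ℓ (v * t) v := by
        intro t ht
        refine ⟨hv, ?_, ?_⟩
        · change v * (v * t) = v * t * v
          rw [mul_assoc, hcv]
        · rw [inv_mul_cancel_left]
          exact (T6.H32.reg_coe_iff t).2 ht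
      have h4 := T6.H69.lp_conj x⁻¹ (hLs s hs)
      rw [h2] at h4
      have h5 := T6.H69.lp_unique h4 (hLs s' hs')
      rw [hC]
      apply Subgroup.mem_centralizer_singleton_iff.2
      rw [inv_inv] at h5
      calc x * v = x * (x⁻¹ * v * x) := by rw [h5]
        _ = v * x := by group
    simp only [Finset.mul_sum]
    rw [Finset.sum_comm]
    have h6 : ∀ x : G, ∑ s' : C, (if Reg ℓ s' then κ s' else 0) *
        (if x⁻¹ * (v * s)⁻¹ * x = (v * s')⁻¹ then (1 : ℂ) else 0) =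
        if x ∈ C then κ s else 0 := by
      intro x
      by_cases hx : x ∈ C
      · rw [if_pos hx, Finset.sum_eq_single ((⟨x, hx⟩ : C)⁻¹ * s * ⟨x, hx⟩)]
        · have hr : Reg ℓ ((⟨x, hx⟩ : C)⁻¹ * s * ⟨x, hx⟩) := by
            have h7 := T6.H69.reg_conj (t := (⟨x, hx⟩ : C)⁻¹) hs
            rwa [inv_inv] at h7
          have hk : κ ((⟨x, hx⟩ : C)⁻¹ * s * ⟨x, hx⟩) = κ s := by
            have h7 := irr_conj (hS κ hκ) s (⟨x, hx⟩ : C)⁻¹
            rwa [inv_inv] at h7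
          rw [if_pos hr, if_pos, mul_one, hk]
          have e1 : x * v = v * x := hcv ⟨x, hx⟩
          have e2 : ((((⟨x, hx⟩ : C)⁻¹ * s * ⟨x, hx⟩ : C)) : G) = x⁻¹ * s * x := rfl
          have e3 : x⁻¹ * v = v * x⁻¹ := by
            calc x⁻¹ * v = x⁻¹ * (v * x) * x⁻¹ := by group
              _ = x⁻¹ * (x * v) * x⁻¹ := by rw [e1]
              _ = v * x⁻¹ := by group
          rw [e2]
          calc x⁻¹ * (v * s)⁻¹ * x = (x⁻¹ * v * s * x)⁻¹ := by group
            _ = (v * x⁻¹ * s * x)⁻¹ := by rw [e3]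
            _ = (v * (x⁻¹ * s * x))⁻¹ := by group
        · intro s' _ hne
          rw [if_neg (c := x⁻¹ * (v * s)⁻¹ * x = (v * s')⁻¹), mul_zero]
          intro h7
          apply hne
          apply Subtype.ext
          change (s' : G) = x⁻¹ * s * x
          have e1 : x * v = v * x := hcv ⟨x, hx⟩
          have e3 : x⁻¹ * v = v * x⁻¹ := by
            calc x⁻¹ * v = x⁻¹ * (v * x) * x⁻¹ := by group
              _ = x⁻¹ * (x * v) * x⁻¹ := by rw [e1]
              _ = v * x⁻¹ := by group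
          have h8 := congrArg (fun g => g⁻¹) h7
          simp only [inv_inv] at h8
          have h9 : v * (x⁻¹ * s * x) = v * s' := by
            rw [← h8]
            calc v * (x⁻¹ * s * x) = (v * x⁻¹) * s * x := by group
              _ = (x⁻¹ * v) * s * x := by rw [e3]
              _ = (x⁻¹ * (v * s)⁻¹ * x)⁻¹ := by group
          exact (mul_left_cancel h9).symm
        · intro h
          exact absurd (Finset.mem_univ _) h
      · rw [if_neg hx]
        apply Finset.sum_eq_zero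
        intro s' _
        by_cases hs' : Reg ℓ s'
        · rw [if_neg (c := x⁻¹ * (v * s)⁻¹ * x = (v * s')⁻¹) (fun h => hx (h1 s' x hs' h)),
            mul_zero]
        · rw [if_neg hs', zero_mul]
    rw [Finset.sum_congr rfl fun x _ => h6 x, ← Finset.sum_filter, Finset.sum_const,
      nsmul_eq_mul]
    congr 2
    rw [← Fintype.card_subtype]
  -- the sum over the characters
  have hsum : ∀ κ ∈ S, ∑ χ : Irr G, (∑ c, q χ c * starRingEnd ℂ (κ c)) *
      starRingEnd ℂ (∑ c, q χ c * starRingEnd ℂ (κ c)) =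
        Fintype.card C * ∑ s : C, (if Reg ℓ s then κ s * starRingEnd ℂ (κ s) else 0) := by
    intro κ hκ
    have h1 : ∀ χ : Irr G, (∑ c, q χ c * starRingEnd ℂ (κ c)) *
        starRingEnd ℂ (∑ c, q χ c * starRingEnd ℂ (κ c)) =
        ∑ s : C, ∑ s' : C, (if Reg ℓ s then starRingEnd ℂ (κ s) else 0) *
          (if Reg ℓ s' then κ s' else 0) * ((χ : G → ℂ) (v * s) * (χ : G → ℂ) (v * s')⁻¹) := by
      intro χ
      rw [hA κ hκ, map_sum, Finset.sum_mul_sum]
      refine Finset.sum_congr rfl fun s _ => Finset.sum_congr rfl fun s' _ => ?_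
      rw [← H94.irr_star χ.2 (v * s')]
      by_cases hs : Reg ℓ s
      · by_cases hs' : Reg ℓ s'
        · rw [if_pos hs, if_pos hs, if_pos hs', if_pos hs', map_mul, Complex.conj_conj]
          ring
        · rw [if_neg hs', if_neg hs', map_zero]
          ring
      · rw [if_neg hs, if_neg hs]
        ring
    rw [Finset.sum_congr rfl fun χ _ => h1 χ, Finset.sum_comm, Finset.mul_sum]
    refine Finset.sum_congr rfl fun s _ => ?_
    rw [Finset.sum_comm]
    have h2 : ∀ s' : C, ∑ χ : Irr G, (if Reg ℓ s then starRingEnd ℂ (κ s) else 0) *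
          (if Reg ℓ s' then κ s' else 0) * ((χ : G → ℂ) (v * s) * (χ : G → ℂ) (v * s')⁻¹) =
        (if Reg ℓ s then starRingEnd ℂ (κ s) else 0) * ((if Reg ℓ s' then κ s' else 0) *
          ∑ x : G, (if x⁻¹ * (v * s)⁻¹ * x = (v * s')⁻¹ then (1 : ℂ) else 0)) := by
      intro s'
      rw [← Finset.mul_sum, col_sum]
      ring
    rw [Finset.sum_congr rfl fun s' _ => h2 s', ← Finset.mul_sum]
    by_cases hs : Reg ℓ s
    · rw [if_pos hs, if_pos hs, hcj κ hκ s hs]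
      ring
    · rw [if_neg hs, if_neg hs, zero_mul, mul_zero]
  have hcard : (Fintype.card C : ℂ) ≠ 0 := by exact_mod_cast Fintype.card_ne_zero
  have hln : (ln b' : ℂ) = (Fintype.card C : ℂ)⁻¹ *
      ∑ κ ∈ S, ∑ s : C, (if Reg ℓ s then κ s * starRingEnd ℂ (κ s) else 0) := by
    rw [lrk ℓ M hM C b' hid, Nat.card_eq_fintype_card, finsum_eq_sum_of_fintype]
    congr 1
    rw [Finset.sum_comm]
    refine Finset.sum_congr rfl fun s _ => ?_
    rw [finsum_eq_if]
    by_cases hs : Reg ℓ s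
    · rw [if_pos hs, finsum_mem_eq_finite_toFinset_sum _ hfin, ← hSdef]
      exact Finset.sum_congr rfl fun κ _ => by rw [if_pos hs]
    · rw [if_neg hs]
      symm
      apply Finset.sum_eq_zero
      intro κ _
      rw [if_neg hs]
  have hgoal : (ln (fun t : Cu v => b t) : ℂ) = ln b' := by
    subst hC
    rw [hb']
  rw [hgoal, hln, ← finsum_set_coe_eq_finsum_mem (Irr G), finsum_eq_sum_of_fintype]
  have h1 : ∀ χ : Irr G, T6.Pm M ℓ v b χ χ = (Fintype.card C : ℂ)⁻¹ * ((Fintype.card C : ℂ)⁻¹ *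
      ∑ κ ∈ S, (∑ c, q χ c * starRingEnd ℂ (κ c)) *
        starRingEnd ℂ (∑ c, q χ c * starRingEnd ℂ (κ c))) := by
    intro χ
    rw [hPm, pars hS (hqs χ χ.2)]
  rw [Finset.sum_congr rfl fun χ _ => h1 χ, ← Finset.mul_sum, ← Finset.mul_sum,
    Finset.sum_comm, Finset.sum_congr rfl fun κ hκ => hsum κ hκ, ← Finset.mul_sum,
    inv_mul_cancel_left₀ hcard]

end Pool.Agent.PP.SD.H49
end
end -- Pool.Agent.Helper49_ASD.PML

section -- Pool.Agent.Helper95_ASE.RPS

/-!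
# Squad ASE, row RPS: the inner products by sections
-/

open scoped BigOperators

noncomputable section

namespace Pool.Agent.PP.SE.H95

open Pool.Agent.Helper51_AWC Pool.Agent.Helper79_WRA Pool.Agent.PP Pool.Agent.PP.KF
open Pool.Agent.PP.K9 Pool.Agent.PP.K9.H97 Pool.Agent.PP.H75 Pool.Agent.PP.T3 Pool.Agent.PP.SO
open Pool.Agent.PP.SD Pool.Agent.PP.SO.H33

attribute [local instance] Ideal.Quotient.field

section gen

variable {M : Ideal (integralClosure ℤ ℂ)} [M.IsMaximal] {G : Type} [Group G] [Finite G]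

open Classical in
/-- the inner product of two characters of a block by sections -/
theorem sec_ips (sec : T6.SecStmt) (ips : T6.IpsStmt) {ℓ : ℕ} [hℓ : Fact ℓ.Prime]
    (hM : (ℓ : integralClosure ℤ ℂ) ∈ M) {e : G → FF M} {V : Subgroup G} {γ : G → FF M}
    (hL : Ld ℓ e V γ) (b : G → G → FF M) (hb : ∀ v ∈ V, Lc e V γ v (b v)) {χ ψ : G → ℂ}
    (hχ : χ ∈ IrrE M e) (hψ : ψ ∈ IrrE M e) :
    (if χ = ψ then 1 else 0 : ℂ) =
      ∑ᶠ (v : G) (_ : v ∈ V), T6.wt V γ v * T6.Pm M ℓ v (b v) χ ψ := by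
  have := Fintype.ofFinite G
  have hcl : ∀ x y, χ (y * x * y⁻¹) = χ x := fun x y => irr_conj hχ.1 x y
  have hcl' : ∀ x y, ψ (y * x * y⁻¹) = ψ x := fun x y => irr_conj hψ.1 x y
  have hid : IsIdem e := hL.blk.1
  have hG : (Nat.card G : ℂ) ≠ 0 := by exact_mod_cast Nat.card_pos.ne'
  set S : Finset G := Finset.univ.filter (fun v => v ∈ V) with hS
  have hsum : ∀ F : G → ℂ, ∑ᶠ (v : G) (_ : v ∈ V), F v = ∑ v ∈ S, F v := by
    intro F
    rw [← finsum_mem_coe_finset]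
    refine finsum_congr fun c => ?_
    simp [hS]
  have hel : ∀ v ∈ V, El ℓ v := by
    intro v hv
    obtain ⟨k, hk⟩ := hL.tp.pg ⟨v, hv⟩
    exact ⟨k, by simpa using congrArg Subtype.val hk⟩
  have h1 : (Nat.card G : ℂ) * (if χ = ψ then 1 else 0 : ℂ) =
      ∑ v ∈ S, T6.wt V γ v * ((Nat.card G : ℂ) * T6.Pm M ℓ v (b v) χ ψ) := by
    have e1 : (Nat.card G : ℂ) * (if χ = ψ then 1 else 0 : ℂ) =
        ∑ g : G, χ g * starRingEnd ℂ (ψ g) := by
      have e0 : ∑ g : G, χ g * starRingEnd ℂ (ψ g) = ∑ g : G, χ g * ψ g⁻¹ :=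
        Finset.sum_congr rfl fun g _ => by rw [H94.irr_star hψ.1]
      rw [e0]
      by_cases h : χ = ψ
      · subst h
        rw [if_pos rfl, mul_one, irr_orth_self hχ.1, Nat.card_eq_fintype_card]
      · rw [if_neg h, mul_zero, irr_orth_ne hχ.1 hψ.1 h]
    have e2 : ∀ g : G, χ g * starRingEnd ℂ (ψ g) =
        ∑ v ∈ S, T6.wt V γ v * (T6.sv M ℓ v (b v) χ g * starRingEnd ℂ (ψ g)) := by
      intro g
      have e3 := sec ℓ M hM G e V γ hL b hb χ hcl g
      rw [T6.H81.fv_eh hid hχ, hsum] at e3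
      have e5 : ∑ v ∈ S, T6.wt V γ v * (T6.sv M ℓ v (b v) χ g * starRingEnd ℂ (ψ g)) =
          (∑ v ∈ S, T6.wt V γ v * T6.sv M ℓ v (b v) χ g) * starRingEnd ℂ (ψ g) := by
        rw [Finset.sum_mul]
        refine Finset.sum_congr rfl fun v _ => ?_
        ring
      rw [e5, ← e3]
    rw [e1, Finset.sum_congr rfl fun g _ => e2 g, Finset.sum_comm]
    refine Finset.sum_congr rfl fun v hv => ?_
    have hvV : v ∈ V := (Finset.mem_filter.1 hv).2
    rw [← Finset.mul_sum]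
    congr 1
    have e4 := ips ℓ M hM G v (hel v hvV) (b v) (hb v hvV).blk.ix χ ψ hcl hcl'
    rw [finsum_eq_sum_of_fintype] at e4
    rw [e4]
  have h2 : (Nat.card G : ℂ) * (if χ = ψ then 1 else 0 : ℂ) =
      (Nat.card G : ℂ) * ∑ v ∈ S, T6.wt V γ v * T6.Pm M ℓ v (b v) χ ψ := by
    rw [h1, Finset.mul_sum]
    refine Finset.sum_congr rfl fun v _ => ?_
    ring
  rw [hsum]
  rw [← mul_left_cancel₀ hG h2]
  by_cases h : χ = ψ
  · rw [if_pos h, if_pos h]
  · rw [if_neg h, if_neg h]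

/-- sums over a subgroup -/
theorem fin_sub (H : Subgroup G) (P : G → Prop) (hP : ∀ s, P s → s ∈ H) (F : G → ℂ) :
    ∑ᶠ (s : H) (_ : P s), F s = ∑ᶠ (s : G) (_ : P s), F s := by
  classical
  have h := H75.sum_sub H (fun s => if P s then F s else 0)
    (fun x hx => if_neg fun h => hx (hP x h))
  have h1 : ∀ s : G, ∑ᶠ (_ : P s), F s = if P s then F s else 0 := fun s => finsum_eq_if
  have h2 : ∀ s : H, ∑ᶠ (_ : P s), F s = if P s then F s else 0 := fun s => finsum_eq_if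
  rw [finsum_congr h2, finsum_congr h1]
  exact h.symm

/-- the lift of a block of a subgroup which is the whole group -/
theorem EG_top {X : Subgroup G} (hX : X = ⊤) {e : G → FF M} (he : IsCl e) (t : G) :
    EG M X e t = eh M e t := by
  subst hX
  rw [EG_mem _ _ (Subgroup.mem_top t)]
  have h1 := T3.H62.eh_equiv (M := M) (Subgroup.topEquiv (G := G))
    (b := fun t : (⊤ : Subgroup G) => e t) (fun x y => he x y) ⟨t, Subgroup.mem_top t⟩
  rw [← h1]
  rfl

omit [M.IsMaximal] [Finite G] in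
/-- the centraliser of a cyclic subgroup -/
theorem C_zp {V₀ : Type} [CommGroup V₀] (B : Bk (FF M) V₀ G) (x : V₀) :
    B.C (Subgroup.zpowers x) = Cu (B.i x) := by
  unfold Bk.C
  rw [MonoidHom.map_zpowers]
  ext y
  rw [Subgroup.mem_centralizer_singleton_iff, Subgroup.mem_centralizer_iff]
  constructor
  · intro h
    exact (h (B.i x) (Subgroup.mem_zpowers _)).symm
  · rintro h _ ⟨k, rfl⟩
    exact ((show Commute y (B.i x) from h).zpow_right k).symm

omit [Finite G] in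
/-- the local blocks as in `Lc` -/
theorem lc_lb {V₀ : Type} [CommGroup V₀] {ℓ : ℕ} {E₀ : Subgroup (MulAut V₀)} {B : Bk (FF M) V₀ G}
    (hB : Sb ℓ M E₀ B) (x : V₀) :
    Lc B.e B.i.range B.g (B.i x) (B.b (Subgroup.zpowers x)) := by
  have h := hB.lb (Subgroup.zpowers x)
  have h1 := h.blk
  have h2 := h.und
  have key : ∀ X : Subgroup G, X = Cu (B.i x) → Bx X (B.b (Subgroup.zpowers x)) →
      mulF (fun t : X => B.e t) (fun t : X => B.b (Subgroup.zpowers x) t) =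
        (fun t : X => B.b (Subgroup.zpowers x) t) →
      Lc B.e B.i.range B.g (B.i x) (B.b (Subgroup.zpowers x)) := by
    rintro X rfl k1 k2
    exact ⟨k1, k2, h.gam⟩
  exact key _ (C_zp B x) h1 h2

open Classical in
/-- the inner product of two characters of the block of a datum -/
theorem dat_ips (sec : T6.SecStmt) (ips : T6.IpsStmt) {ℓ : ℕ} [hℓ : Fact ℓ.Prime]
    (hM : (ℓ : integralClosure ℤ ℂ) ∈ M) {V₀ : Type} [CommGroup V₀] [Fintype V₀]
    {E₀ : Subgroup (MulAut V₀)} {B : Bk (FF M) V₀ G} (hB : Sb ℓ M E₀ B) {χ ψ : G → ℂ}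
    (hχ : χ ∈ IrrE M B.e) (hψ : ψ ∈ IrrE M B.e) :
    (if χ = ψ then 1 else 0 : ℂ) = ∑ x : V₀, T6.wt B.i.range B.g (B.i x) *
      T6.Pm M ℓ (B.i x) (B.b (Subgroup.zpowers x)) χ ψ := by
  have hc : ∀ x : V₀, (Subgroup.zpowers (B.i x)).comap B.i = Subgroup.zpowers x := by
    intro x
    rw [← MonoidHom.map_zpowers, Subgroup.comap_map_eq_self_of_injective hB.inj]
  have h := sec_ips sec ips hM hB.ld (fun v => B.b ((Subgroup.zpowers v).comap B.i)) (by
    rintro _ ⟨x, rfl⟩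
    show Lc B.e B.i.range B.g (B.i x) (B.b ((Subgroup.zpowers (B.i x)).comap B.i))
    rw [hc]
    exact lc_lb hB x) hχ hψ
  rw [h]
  have h1 : ∑ᶠ (v : G) (_ : v ∈ B.i.range), T6.wt B.i.range B.g v *
      T6.Pm M ℓ v (B.b ((Subgroup.zpowers v).comap B.i)) χ ψ =
      ∑ᶠ v ∈ Set.range B.i, T6.wt B.i.range B.g v *
      T6.Pm M ℓ v (B.b ((Subgroup.zpowers v).comap B.i)) χ ψ := rfl
  rw [h1, finsum_mem_range hB.inj, finsum_eq_sum_of_fintype]
  refine Finset.sum_congr rfl fun x _ => ?_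
  rw [hc]

end gen

section main

variable {ℓ : ℕ} [hℓ : Fact ℓ.Prime] {M : Ideal (integralClosure ℤ ℂ)} [M.IsMaximal]
  {V₀ G : Type} [CommGroup V₀] [Group G] [Finite G] {E₀ : Subgroup (MulAut V₀)}
  {B : Bk (FF M) V₀ G}

/-- the values of the characters of the block of `C ⊤` at the regular elements -/
def Kf (ℓ : ℕ) (B : Bk (FF M) V₀ G) (s : G) : ℂ :=
  (Nat.card (B.C ⊤) : ℂ) / (ℓ ^ 2 * B.D ⊤) * bh B ⊤ s⁻¹

theorem bh_cl (W : Subgroup V₀) {z : G} (hz : z ∈ B.C W) (g : G) :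
    bh B W (z⁻¹ * g * z) = bh B W g := by
  have := Fintype.ofFinite (B.C W)
  by_cases hg : g ∈ B.C W
  · have h1 := bh_W (M := M) B W ⟨z⁻¹ * g * z, (B.C W).mul_mem ((B.C W).mul_mem
      ((B.C W).inv_mem hz) hg) hz⟩
    have h2 := bh_W (M := M) B W ⟨g, hg⟩
    have h3 := K9.H25.eh_cl (M := M) (fun t : B.C W => B.b W t) ⟨g, hg⟩ ⟨z, hz⟩⁻¹
    have e1 : (⟨z, hz⟩⁻¹ * ⟨g, hg⟩ * (⟨z, hz⟩⁻¹)⁻¹ : B.C W) =
        ⟨z⁻¹ * g * z, (B.C W).mul_mem ((B.C W).mul_mem ((B.C W).inv_mem hz) hg) hz⟩ := by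
      apply Subtype.ext
      show z⁻¹ * g * (z⁻¹)⁻¹ = z⁻¹ * g * z
      rw [inv_inv]
    rw [e1] at h3
    exact (h1.trans h3).trans h2.symm
  · rw [bh_not B W hg, bh_not B W]
    intro h
    apply hg
    have := (B.C W).mul_mem ((B.C W).mul_mem hz h) ((B.C W).inv_mem hz)
    have e : z * (z⁻¹ * g * z) * z⁻¹ = g := by group
    rwa [e] at this

theorem bh_sing (wbo : K9.WboStmt) (hM : (ℓ : integralClosure ℤ ℂ) ∈ M) {W : Subgroup V₀}
    (hB : Bx (B.C W) (B.b W)) {s : G} (hs : ¬ Reg ℓ s) : bh B W s = 0 := by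
  by_cases h : s ∈ B.C W
  · have := Fintype.ofFinite (B.C W)
    have h1 := bh_W (M := M) B W ⟨s, h⟩
    rw [show ((⟨s, h⟩ : B.C W) : G) = s from rfl] at h1
    rw [h1]
    refine K9.H25.eh_sing wbo ℓ M hM _ hB.blk.1 _ ?_
    intro h2
    exact hs ((T6.H32.reg_coe_iff (⟨s, h⟩ : B.C W)).2 h2)
  · exact bh_not B W h

omit [Finite G] hℓ in
/-- a product of an element of order `ℓ` and of a regular element -/
theorem not_reg {v s : G} (hv : v ^ ℓ = 1) (h1 : v ≠ 1) (hc : Commute v s) (hs : Reg ℓ s) :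
    ¬ Reg ℓ (v * s) := by
  intro h
  apply h1
  unfold Reg at hs h
  have hn : (orderOf s * orderOf (v * s)).Coprime ℓ := Nat.Coprime.mul_left hs h
  have h2 : s ^ (orderOf s * orderOf (v * s)) = 1 := by
    rw [pow_mul, pow_orderOf_eq_one, one_pow]
  have h3 : (v * s) ^ (orderOf s * orderOf (v * s)) = 1 := by
    rw [mul_comm (orderOf s), pow_mul, pow_orderOf_eq_one, one_pow]
  rw [hc.mul_pow, h2, mul_one] at h3
  have h4 : orderOf v ∣ 1 := by
    rw [← hn]
    exact Nat.dvd_gcd (orderOf_dvd_of_pow_eq_one h3) (orderOf_dvd_of_pow_eq_one hv)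
  exact orderOf_eq_one_iff.1 (Nat.dvd_one.1 h4)

theorem rw_top [Finite V₀] (hF : Fq ℓ V₀ E₀) : Rw E₀ (⊤ : Subgroup V₀) := by
  refine ⟨?_, fun σ _ h => ?_⟩
  · intro h
    have h1 := hF.cd
    rw [← Nat.card_congr (Subgroup.topEquiv (G := V₀)).toEquiv, h, Subgroup.card_bot] at h1
    have h2 := hℓ.out.one_lt
    nlinarith
  · ext v
    exact h v (Subgroup.mem_top v)

/-- the values of the characters of `g` at the regular elements -/
theorem kap_reg [Finite V₀] (wbo : K9.WboStmt) (nsd : SD.NsdStmt)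
    (hM : (ℓ : integralClosure ℤ ℂ) ∈ M) (h2 : ℓ ≠ 2) (hF : Fq ℓ V₀ E₀) (hB : Sd ℓ M E₀ B)
    {κ : G → ℂ} (hκ : κ ∈ Ch B ⊤) {s : G} (hs : s ∈ B.C ⊤) (hr : Reg ℓ s) :
    κ s = Kf ℓ B s := by
  classical
  have := Fintype.ofFinite V₀
  have := Fintype.ofFinite (B.C ⊤)
  obtain ⟨n1, -, -, n4, -, -, -⟩ := nsd ℓ M hM h2 V₀ G E₀ hF B hB ⊤ (rw_top hF)
  rw [n4 κ hκ s hs]
  unfold Kf
  congr 1
  have htop : ∀ x : V₀, (⊤ : Subgroup V₀) ⊔ Subgroup.zpowers x = ⊤ := fun x => top_sup_eq _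
  have hfc : ∀ x : V₀, fc B ⊤ x s⁻¹ = bh B ⊤ ((B.i x)⁻¹ * s⁻¹) := by
    intro x
    unfold fc
    rw [htop, finsum_eq_sum_of_fintype]
    have h3 : ∀ z : B.C ⊤, bh B ⊤ ((B.i x)⁻¹ * ((z : G)⁻¹ * s⁻¹ * z)) =
        bh B ⊤ ((B.i x)⁻¹ * s⁻¹) := by
      intro z
      rw [← bh_cl (B := B) ⊤ z.2 ((B.i x)⁻¹ * s⁻¹)]
      congr 1
      have h4 : B.i x * z = z * B.i x := (mem_C B).1 z.2 x (Subgroup.mem_top x)
      have h5 : (B.i x)⁻¹ * (z : G)⁻¹ = (z : G)⁻¹ * (B.i x)⁻¹ := by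
        rw [← mul_inv_rev, ← mul_inv_rev, h4]
      rw [← mul_assoc, ← mul_assoc, h5]
      group
    rw [Finset.sum_congr rfl fun z _ => h3 z, Finset.sum_const, nsmul_eq_mul, ← mul_assoc,
      Finset.card_univ, Nat.card_eq_fintype_card, inv_mul_cancel₀, one_mul]
    exact_mod_cast Fintype.card_ne_zero
  have hlam1 : lam B ⊤ κ 1 = 1 := (n1.mapsTo hκ).1
  rw [finsum_eq_sum_of_fintype, Finset.sum_eq_single (1 : V₀)]
  · rw [hfc, map_one, inv_one, one_mul, hlam1]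
    unfold ux
    rw [if_pos (Subgroup.mem_top _)]
    simp
  · intro x _ hx
    rw [hfc]
    have h3 : ¬ Reg ℓ ((B.i x)⁻¹ * s⁻¹) := by
      apply not_reg
      · rw [← map_inv, ← map_pow, hF.ex, map_one]
      · rw [← map_inv]
        intro h
        apply hx
        have := hB.inj (h.trans (map_one B.i).symm)
        exact inv_eq_one.1 this
      · have h4 : B.i x * s = s * B.i x := (mem_C B).1 hs x (Subgroup.mem_top x)
        exact (show Commute (B.i x) s from h4).inv_inv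
      · exact K9.H25.reg_inv.2 hr
    rw [bh_sing wbo hM (hB.lb ⊤).blk h3, mul_zero]
  · intro h
    exact absurd (Finset.mem_univ _) h

omit [M.IsMaximal] [Finite G] in
/-- extension of the characters of `C W` -/
theorem ext_ch {W : Subgroup V₀} {κ : B.C W → ℂ} (hκ : κ ∈ IrrE M (fun t : B.C W => B.b W t)) :
    PP.ext0 (B.C W) κ ∈ Ch B W ∧ ∀ t : B.C W, PP.ext0 (B.C W) κ t = κ t := by
  have h : ∀ t : B.C W, PP.ext0 (B.C W) κ t = κ t := by
    intro t
    unfold PP.ext0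
    rw [dif_pos t.2]
  refine ⟨⟨?_, ?_⟩, h⟩
  · intro g hg
    unfold PP.ext0
    rw [dif_neg hg]
  · have e : (fun t : B.C W => PP.ext0 (B.C W) κ t) = κ := funext h
    rw [e]
    exact hκ

theorem span_reg [Finite V₀] (wbo : K9.WboStmt) (nsd : SD.NsdStmt)
    (hM : (ℓ : integralClosure ℤ ℂ) ∈ M) (h2 : ℓ ≠ 2) (hF : Fq ℓ V₀ E₀) (hB : Sd ℓ M E₀ B)
    {f : B.C ⊤ → ℂ} (hf : f ∈ Submodule.span ℂ (IrrE M (fun t : B.C ⊤ => B.b ⊤ t)))
    {s : B.C ⊤} (hr : Reg ℓ s) : f s * B.D ⊤ = f 1 * Kf ℓ B s := by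
  induction hf using Submodule.span_induction with
  | mem κ hκ =>
    obtain ⟨h3, h4⟩ := ext_ch hκ
    have h5 := kap_reg wbo nsd hM h2 hF hB h3 s.2 ((T6.H32.reg_coe_iff s).2 hr)
    rw [h4] at h5
    have h6 : κ 1 = B.D ⊤ := (hB.dg ⊤ (rw_top hF)).2 κ hκ
    rw [h5, h6, mul_comm]
  | zero => simp
  | add x y _ _ hx hy =>
    rw [Pi.add_apply, Pi.add_apply, add_mul, add_mul, hx, hy]
  | smul a x _ hx =>
    rw [Pi.smul_apply, Pi.smul_apply, smul_eq_mul, smul_eq_mul, mul_assoc, mul_assoc, hx]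

omit [M.IsMaximal] [Finite G] in
theorem C_top_le' (W : Subgroup V₀) : B.C ⊤ ≤ B.C W := by
  rw [C_top]
  exact C_top_le B W

/-- the `g`-part of a character at `i(x) s` -/
theorem gv_out [Finite V₀] (wbo : K9.WboStmt) (nsd : SD.NsdStmt)
    (hM : (ℓ : integralClosure ℤ ℂ) ∈ M) (h2 : ℓ ≠ 2) (hF : Fq ℓ V₀ E₀) (hB : Sd ℓ M E₀ B)
    {W : Subgroup V₀} {χ : G → ℂ} (hχ : χ ∈ Ch B W) (x : V₀) {s : G} (hs : s ∈ B.C ⊤)
    (hr : Reg ℓ s) : ∑ᶠ g, bh B ⊤ g * χ (B.i x * s * g) = vx B χ x * Kf ℓ B s := by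
  classical
  have := Fintype.ofFinite G
  have := Fintype.ofFinite (B.C ⊤)
  have hDD := (hB.dg ⊤ (rw_top hF)).1
  have hD : (B.D ⊤ : ℂ) ≠ 0 := by exact_mod_cast hDD.ne'
  set z : B.C ⊤ := ⟨B.i x, i_mem_C B ⊤ x⟩ with hz
  have hzc : ∀ c : B.C ⊤, z * c = c * z := by
    intro c
    apply Subtype.ext
    exact (mem_C B).1 c.2 x (Subgroup.mem_top x)
  set b' : B.C ⊤ → FF M := fun t => B.b ⊤ t with hb'
  have hsp : (fun c : B.C ⊤ => χ c) ∈ Submodule.span ℂ (Irr (B.C ⊤)) := by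
    apply T3.H98.span_irr
    intro u y
    have h3 := irr_conj hχ.2.1 (⟨u, C_top_le' W u.2⟩ : B.C W) ⟨y, C_top_le' W y.2⟩
    exact h3
  have hq := T3.H98.mem_span_blk (M := M) b' hzc hsp
  have h3 := span_reg wbo nsd hM h2 hF hB hq (s := ⟨s, hs⟩)
    ((T6.H32.reg_coe_iff (⟨s, hs⟩ : B.C ⊤)).1 hr)
  have hsum : ∀ u : B.C ⊤, ∑ᶠ g, bh B ⊤ g * χ (B.i x * u * g) =
      ∑ t : B.C ⊤, eh M b' t * χ ((z * u * t : B.C ⊤) : G) := by
    intro u
    rw [H75.sum_sub (B.C ⊤) (fun g => bh B ⊤ g * χ (B.i x * u * g))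
      (fun g hg => by rw [bh_not B ⊤ hg, zero_mul]), finsum_eq_sum_of_fintype]
    refine Finset.sum_congr rfl fun t _ => ?_
    rw [bh_W]
    rfl
  have h4 : ∑ᶠ g, bh B ⊤ g * χ (B.i x * g) =
      ∑ t : B.C ⊤, eh M b' t * χ ((z * 1 * t : B.C ⊤) : G) := by
    rw [← hsum 1]
    refine finsum_congr fun g => ?_
    rw [Subgroup.coe_one, mul_one]
  have h5 := hsum ⟨s, hs⟩
  rw [← h4, ← h5] at h3
  unfold vx
  rw [div_mul_eq_mul_div, eq_div_iff hD]
  exact h3

/-- the sum of the squares -/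
theorem Kf_sum [Finite V₀] (wbo : K9.WboStmt) (nsd : SD.NsdStmt)
    (hM : (ℓ : integralClosure ℤ ℂ) ∈ M) (h2 : ℓ ≠ 2) (hF : Fq ℓ V₀ E₀) (hB : Sd ℓ M E₀ B) :
    (Nat.card (B.C ⊤) : ℂ)⁻¹ * ∑ᶠ (s : G) (_ : s ∈ B.C ⊤ ∧ Reg ℓ s),
      Kf ℓ B s * starRingEnd ℂ (Kf ℓ B s) = ((ℓ : ℂ) ^ 2)⁻¹ := by
  classical
  have := Fintype.ofFinite G
  have := Fintype.ofFinite (B.C ⊤)
  have hDD := (hB.dg ⊤ (rw_top hF)).1
  have hD : (B.D ⊤ : ℂ) ≠ 0 := by exact_mod_cast hDD.ne'
  have hC : (Nat.card (B.C ⊤) : ℂ) ≠ 0 := by exact_mod_cast Nat.card_pos.ne'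
  have hl : (ℓ : ℂ) ≠ 0 := by exact_mod_cast hℓ.out.ne_zero
  obtain ⟨κ, hκ⟩ : (Ch B ⊤).Nonempty := by
    obtain ⟨n1, -⟩ := nsd ℓ M hM h2 V₀ G E₀ hF B hB ⊤ (rw_top hF)
    have h3 : (fun _ => 1 : V₀ → ℂ) ∈ lin V₀ := ⟨rfl, fun _ _ => (mul_one 1).symm⟩
    obtain ⟨κ, h4, -⟩ := n1.surjOn h3
    exact ⟨κ, h4⟩
  have h1 : ∑ᶠ (s : G) (_ : s ∈ B.C ⊤ ∧ Reg ℓ s), Kf ℓ B s * starRingEnd ℂ (Kf ℓ B s) =
      (Nat.card (B.C ⊤) : ℂ) / (ℓ ^ 2 * B.D ⊤) * ∑ s : B.C ⊤, bh B ⊤ s * κ s := by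
    rw [T6.H32.sumC ℓ (B.C ⊤) (fun s => Kf ℓ B s * starRingEnd ℂ (Kf ℓ B s)), Finset.mul_sum]
    refine Finset.sum_congr rfl fun s _ => ?_
    split_ifs with hr
    · have hr' := (T6.H32.reg_coe_iff s).2 hr
      have h3 := kap_reg wbo nsd hM h2 hF hB hκ s.2 hr'
      have h4 := kap_reg wbo nsd hM h2 hF hB hκ ((B.C ⊤).inv_mem s.2) (K9.H25.reg_inv.2 hr')
      have h5 : starRingEnd ℂ (κ s) = κ (s : G)⁻¹ := H94.irr_star hκ.2.1 s
      rw [← h3, h5, h4]
      unfold Kf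
      rw [inv_inv]
      ring
    · rw [bh_sing wbo hM (hB.lb ⊤).blk (fun h => hr ((T6.H32.reg_coe_iff s).1 h))]
      ring
  have h3 : ∑ s : B.C ⊤, bh B ⊤ s * κ s = B.D ⊤ := by
    have h4 := T6.H81.fv_eh (hB.lb ⊤).blk.blk.1 hκ.2 (1 : B.C ⊤)
    have h5 : κ ((1 : B.C ⊤) : G) = B.D ⊤ := (hB.dg ⊤ (rw_top hF)).2 _ hκ.2
    have h6 : T8.fv (eh M (fun t : B.C ⊤ => B.b ⊤ t)) (1 : B.C ⊤) (fun t : B.C ⊤ => κ t) =
        ∑ s : B.C ⊤, bh B ⊤ s * κ s := by
      unfold T8.fv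
      rw [finsum_eq_sum_of_fintype]
      refine Finset.sum_congr rfl fun t _ => ?_
      rw [one_mul, bh_W]
    rw [← h6, ← h5]
    exact h4
  rw [h1, h3]
  field_simp

omit [M.IsMaximal] [Finite G] in
/-- the centraliser of `i(x)` in `C W`, `x ∉ W` -/
theorem cu_out (hc : Nat.card V₀ = ℓ ^ 2) {W : Subgroup V₀} (hW : W ≠ ⊥) {B' : Bk (FF M) V₀ (B.C W)}
    (hBC : ∀ W' t, t ∈ B'.C W' ↔ (t : G) ∈ B.C (W ⊔ W')) {x : V₀} (hx : x ∉ W) (t : B.C W) :
    t ∈ Cu (B'.i x) ↔ (t : G) ∈ B.C ⊤ := by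
  rw [← C_zp B' x, hBC, sup_top hc hW hx]

omit [M.IsMaximal] [Finite G] in
theorem cu_out' (hc : Nat.card V₀ = ℓ ^ 2) {W : Subgroup V₀} (hW : W ≠ ⊥)
    {B' : Bk (FF M) V₀ (B.C W)}
    (hBC : ∀ W' t, t ∈ B'.C W' ↔ (t : G) ∈ B.C (W ⊔ W')) {x : V₀} (hx : x ∉ W) :
    Cu (B'.i x) = Subgroup.centralizer ((jW B W).range : Set (B.C W)) := by
  ext t
  rw [cu_out hc hW hBC hx, C_top, jW_range]
  exact (cent_sub (i_le_C B W) t).symm

/-- the sections of `i(x)`, `x ∉ W` -/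
theorem pm_out [Finite V₀] (wbo : K9.WboStmt) (nsd : SD.NsdStmt)
    (hM : (ℓ : integralClosure ℤ ℂ) ∈ M) (h2 : ℓ ≠ 2) (hF : Fq ℓ V₀ E₀) (hB : Sd ℓ M E₀ B)
    {W : Subgroup V₀} (hW : W ≠ ⊥) {B' : Bk (FF M) V₀ (B.C W)}
    (hBi : ∀ v, (B'.i v : G) = B.i v) (hBb : ∀ W' t, B'.b W' t = B.b (W ⊔ W') t)
    (hBC : ∀ W' t, t ∈ B'.C W' ↔ (t : G) ∈ B.C (W ⊔ W'))
    {χ ψ : G → ℂ} (hχ : χ ∈ Ch B W) (hψ : ψ ∈ Ch B W) {x : V₀} (hx : x ∉ W) :
    T6.Pm M ℓ (B'.i x) (B'.b (Subgroup.zpowers x)) (fun t : B.C W => χ t)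
      (fun t : B.C W => ψ t) = ((ℓ : ℂ) ^ 2)⁻¹ * (vx B χ x * starRingEnd ℂ (vx B ψ x)) := by
  classical
  have := Fintype.ofFinite G
  have := Fintype.ofFinite (B.C W)
  have hcu := cu_out hF.cd hW hBC hx
  have hb : B'.b (Subgroup.zpowers x) = fun t : B.C W => B.g t := by
    funext t
    rw [hBb, sup_top hF.cd hW hx, b_top B hB.toSb]
  have hEG : ∀ t : B.C W, EG M (Cu (B'.i x)) (B'.b (Subgroup.zpowers x)) t = bh B ⊤ t := by
    intro t
    rw [bh_top B hB.toSb W t, hb, cu_out' hF.cd hW hBC hx]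
  have hgv : ∀ χ ∈ Ch B W, ∀ s : B.C W, (s : G) ∈ B.C ⊤ ∧ Reg ℓ (s : G) →
      gv M (Cu (B'.i x)) (B'.i x * s) (B'.b (Subgroup.zpowers x)) (fun t : B.C W => χ t) =
        vx B χ x * Kf ℓ B s := by
    intro χ hχ s hs
    rw [gv_sum rfl, ← gv_out wbo nsd hM h2 hF hB hχ x hs.1 hs.2,
      H75.sum_sub (B.C W) (fun g => bh B ⊤ g * χ (B.i x * s * g))
      (fun g hg => by rw [bh_not B ⊤ (fun h => hg (C_top_le' W h)), zero_mul]),
      finsum_eq_sum_of_fintype]
    refine Finset.sum_congr rfl fun t _ => ?_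
    rw [hEG, Subgroup.coe_mul, Subgroup.coe_mul, hBi]
  have hcard : Nat.card (Cu (B'.i x)) = Nat.card (B.C ⊤) := by
    rw [cu_out' hF.cd hW hBC hx, C_top, jW_range]
    exact Nat.card_congr (H85.cequiv (i_le_C B W) (C_top_le B W)).toEquiv
  unfold T6.Pm
  have h1 : ∑ᶠ (s : B.C W) (_ : s ∈ Cu (B'.i x) ∧ Reg ℓ s),
      gv M (Cu (B'.i x)) (B'.i x * s) (B'.b (Subgroup.zpowers x)) (fun t : B.C W => χ t) *
      starRingEnd ℂ (gv M (Cu (B'.i x)) (B'.i x * s) (B'.b (Subgroup.zpowers x))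
        (fun t : B.C W => ψ t)) =
      ∑ᶠ (s : B.C W) (_ : (s : G) ∈ B.C ⊤ ∧ Reg ℓ (s : G)),
        (vx B χ x * starRingEnd ℂ (vx B ψ x)) * (Kf ℓ B s * starRingEnd ℂ (Kf ℓ B s)) := by
    refine finsum_congr fun s => ?_
    refine finsum_congr_Prop ?_ ?_
    · rw [hcu, T6.H32.reg_coe_iff]
    · intro hs
      rw [hgv χ hχ s hs, hgv ψ hψ s hs, map_mul]
      ring
  rw [h1, fin_sub (B.C W) (fun s => s ∈ B.C ⊤ ∧ Reg ℓ s) (fun s hs => C_top_le' W hs.1)
    (fun s => (vx B χ x * starRingEnd ℂ (vx B ψ x)) * (Kf ℓ B s * starRingEnd ℂ (Kf ℓ B s))),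
    hcard]
  have h3 : ∑ᶠ (s : G) (_ : s ∈ B.C ⊤ ∧ Reg ℓ s),
      (vx B χ x * starRingEnd ℂ (vx B ψ x)) * (Kf ℓ B s * starRingEnd ℂ (Kf ℓ B s)) =
      (vx B χ x * starRingEnd ℂ (vx B ψ x)) *
        ∑ᶠ (s : G) (_ : s ∈ B.C ⊤ ∧ Reg ℓ s), (Kf ℓ B s * starRingEnd ℂ (Kf ℓ B s)) := by
    rw [finsum_eq_sum_of_fintype, finsum_eq_sum_of_fintype, Finset.mul_sum]
    refine Finset.sum_congr rfl fun s _ => ?_
    rw [finsum_eq_if, finsum_eq_if]
    split_ifs
    · rfl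
    · rw [mul_zero]
  rw [h3, ← Kf_sum wbo nsd hM h2 hF hB]
  ring

/-- the weights for `x ∉ W` -/
theorem wt_out [Finite V₀] (lbd : SD.LbdStmt) (hM : (ℓ : integralClosure ℤ ℂ) ∈ M)
    (hF : Fq ℓ V₀ E₀) (hB : Sd ℓ M E₀ B) {W : Subgroup V₀} (hW : W ≠ ⊥)
    {B' : Bk (FF M) V₀ (B.C W)} (hB' : Sb ℓ M (St E₀ W) B')
    (hBg : ∀ t, B'.g t = B.g t) (hBi : ∀ v, (B'.i v : G) = B.i v)
    (hBC : ∀ W' t, t ∈ B'.C W' ↔ (t : G) ∈ B.C (W ⊔ W')) {x : V₀} (hx : x ∉ W) :
    T6.wt B'.i.range B'.g (B'.i x) = (nS E₀ W : ℂ)⁻¹ := by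
  have hi : B'.i = jW B W := MonoidHom.ext fun v => Subtype.ext (hBi v)
  have hg : B'.g = fun t : B.C W => B.g t := funext hBg
  have hcu : Cu (B'.i x) = Subgroup.centralizer (B'.i.range : Set (B.C W)) := by
    rw [cu_out' hF.cd hW hBC hx, hi]
  have hle := T8.H20.cen_le_Tg hB'.ld.gam
  have h1 := (lbd ℓ M hM V₀ G E₀ hF B hB.toSb W).2.1
  have h2 := T6.H81.card_mul_relIndex hle
  have h3 : (Subgroup.centralizer (B'.i.range : Set (B.C W))).relIndex (Tg B'.i.range B'.g) =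
      nS E₀ W := by
    have h4 : ix B'.i.range B'.g = Nat.card (St E₀ W) := by
      rw [← h1, hg, hi, jW_range]
    exact h4
  unfold T6.wt
  rw [hcu, inf_eq_right.2 hle, ← h2, h3]
  have h5 : (Nat.card (Subgroup.centralizer (B'.i.range : Set (B.C W))) : ℂ) ≠ 0 := by
    exact_mod_cast Nat.card_pos.ne'
  push_cast
  rw [div_mul_eq_div_div, div_self h5, one_div]

omit hℓ in
/-- the sections of `i(x)`, `x ∈ W` -/
theorem pm_in {W : Subgroup V₀} {B' : Bk (FF M) V₀ (B.C W)} (hB' : Sb ℓ M (St E₀ W) B')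
    (hBe : ∀ t, B'.e t = B.b W t)
    (hBi : ∀ v, (B'.i v : G) = B.i v) (hBb : ∀ W' t, B'.b W' t = B.b (W ⊔ W') t)
    {χ ψ : G → ℂ} (hχ : χ ∈ Ch B W) (hψ : ψ ∈ Ch B W) {x : V₀} (hx : x ∈ W)
    (hn : nu B χ x = nu B ψ x) :
    T6.Pm M ℓ (B'.i x) (B'.b (Subgroup.zpowers x)) (fun t : B.C W => χ t)
      (fun t : B.C W => ψ t) = rip ℓ B W χ ψ ∧ T6.wt B'.i.range B'.g (B'.i x) = 1 := by
  classical
  have := Fintype.ofFinite G
  have := Fintype.ofFinite (B.C W)
  have hi : B'.i = jW B W := MonoidHom.ext fun v => Subtype.ext (hBi v)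
  have hcen : B'.i x ∈ Subgroup.center (B.C W) := by
    rw [hi]
    exact jW_cen B W hx
  have hcu : Cu (B'.i x) = ⊤ := by
    rw [eq_top_iff]
    intro t _
    rw [Subgroup.mem_centralizer_singleton_iff]
    exact Subgroup.mem_center_iff.1 hcen t
  have he : B'.e = fun t : B.C W => B.b W t := funext hBe
  have hb : B'.b (Subgroup.zpowers x) = B'.e := by
    funext t
    rw [hBb, hBe, sup_eq_left.2 (Subgroup.zpowers_le.2 hx)]
  have hid : IsIdem B'.e := hB'.ld.blk.1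
  have hgv : ∀ χ ∈ Ch B W, ∀ s : B.C W,
      gv M (Cu (B'.i x)) (B'.i x * s) (B'.b (Subgroup.zpowers x)) (fun t : B.C W => χ t) =
        nu B χ x * χ s := by
    intro χ hχ s
    have hχ' : (fun t : B.C W => χ t) ∈ IrrE M B'.e := by
      rw [he]
      exact hχ.2
    have h1 := T6.H81.fv_eh hid hχ' (B'.i x * s)
    have h2 := KF.H32.central_mul hχ.2.1 hcen s
    have h3 : (fun t : B.C W => χ t) (B'.i x) / (fun t : B.C W => χ t) 1 = nu B χ x := by
      unfold nu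
      show χ (B'.i x : G) / χ ((1 : B.C W) : G) = χ (B.i x) / χ 1
      rw [hBi, Subgroup.coe_one]
    rw [h3] at h2
    have h4 : gv M (Cu (B'.i x)) (B'.i x * s) (B'.b (Subgroup.zpowers x))
        (fun t : B.C W => χ t) = T8.fv (eh M B'.e) (B'.i x * s) (fun t : B.C W => χ t) := by
      rw [gv_sum rfl]
      unfold T8.fv
      rw [finsum_eq_sum_of_fintype]
      refine Finset.sum_congr rfl fun t _ => ?_
      rw [hb, EG_top hcu hid.1]
    rw [h4, h1]
    exact h2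
  have hnn : nu B χ x * starRingEnd ℂ (nu B χ x) = 1 := by
    have h2 := KF.H32.central_mul hχ.2.1 hcen (B'.i x)⁻¹
    rw [mul_inv_cancel] at h2
    have h3 : χ ((1 : B.C W) : G) = nu B χ x * starRingEnd ℂ (χ (B.i x)) := by
      have h4 : starRingEnd ℂ (χ (B'.i x : G)) = χ ((B'.i x)⁻¹ : B.C W) :=
        H94.irr_star hχ.2.1 (B'.i x)
      rw [← hBi x, h4]
      have h5 : nu B χ x = χ (B'.i x : G) / χ ((1 : B.C W) : G) := by
        unfold nu
        rw [hBi, Subgroup.coe_one]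
      rw [h5]
      exact h2
    have h4 : starRingEnd ℂ (χ ((1 : B.C W) : G)) = χ ((1 : B.C W) : G) := by
      have h5 := H94.irr_star hχ.2.1 (1 : B.C W)
      rw [inv_one] at h5
      exact h5
    rw [Subgroup.coe_one] at h3 h4
    have h5 := irr_one_ne hχ.2.1
    change χ ((1 : B.C W) : G) ≠ 0 at h5
    rw [Subgroup.coe_one] at h5
    have h6 : starRingEnd ℂ (nu B χ x) = starRingEnd ℂ (χ (B.i x)) / χ 1 := by
      unfold nu
      rw [map_div₀, h4]
    rw [h6, ← mul_div_assoc, ← h3, div_self h5]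
  constructor
  · unfold T6.Pm rip
    have h1 : ∑ᶠ (s : B.C W) (_ : s ∈ Cu (B'.i x) ∧ Reg ℓ s),
        gv M (Cu (B'.i x)) (B'.i x * s) (B'.b (Subgroup.zpowers x)) (fun t : B.C W => χ t) *
        starRingEnd ℂ (gv M (Cu (B'.i x)) (B'.i x * s) (B'.b (Subgroup.zpowers x))
          (fun t : B.C W => ψ t)) =
        ∑ᶠ (s : B.C W) (_ : (s : G) ∈ B.C W ∧ Reg ℓ (s : G)), χ s * starRingEnd ℂ (ψ s) := by
      refine finsum_congr fun s => ?_
      refine finsum_congr_Prop ?_ ?_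
      · rw [T6.H32.reg_coe_iff, hcu]
        apply propext
        constructor
        · rintro ⟨-, h⟩
          exact ⟨s.2, h⟩
        · rintro ⟨-, h⟩
          exact ⟨Subgroup.mem_top s, h⟩
      · intro hs
        rw [hgv χ hχ s, hgv ψ hψ s, map_mul, ← hn]
        calc nu B χ x * χ s * (starRingEnd ℂ (nu B χ x) * starRingEnd ℂ (ψ s)) =
            (nu B χ x * starRingEnd ℂ (nu B χ x)) * (χ s * starRingEnd ℂ (ψ s)) := by ring
          _ = _ := by rw [hnn, one_mul]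
    rw [h1, fin_sub (B.C W) (fun s => s ∈ B.C W ∧ Reg ℓ s) (fun s hs => hs.1)
      (fun s => χ s * starRingEnd ℂ (ψ s)), hcu]
    have h3 : Nat.card (⊤ : Subgroup (B.C W)) = Nat.card (B.C W) :=
      Nat.card_congr (Subgroup.topEquiv).toEquiv
    rw [h3]
    rfl
  · unfold T6.wt
    rw [hcu, inf_top_eq, div_self]
    exact_mod_cast Nat.card_pos.ne'

end main

/-- RPS: the inner products by sections. -/
theorem rps (sec : T6.SecStmt) (ips : T6.IpsStmt) (wbo : K9.WboStmt) (rda : SD.RdaStmt)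
    (lbd : SD.LbdStmt) (nsd : SD.NsdStmt) : RpsStmt := by
  classical
  intro ℓ hℓ M _ hM h2 V₀ G _ _ _ _ E₀ hF B hB W hW ν hν χ hχ ψ hψ
  have := Fintype.ofFinite V₀
  obtain ⟨-, B', hB', hBe, hBg, hBi, hBb, hBC, -, -, -, -⟩ :=
    rda ℓ M hM h2 V₀ G E₀ hF B hB.toSb W
  have hl : (ℓ : ℂ) ≠ 0 := by exact_mod_cast hℓ.out.ne_zero
  have hWb : W ≠ ⊥ := by
    intro h
    have h1 := hW.1
    rw [h, Subgroup.card_bot] at h1
    exact hℓ.out.one_lt.ne h1
  have he : B'.e = fun t : B.C W => B.b W t := funext hBe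
  have hχ' : (fun t : B.C W => χ t) ∈ IrrE M B'.e := by
    rw [he]
    exact hχ.1.2
  have hψ' : (fun t : B.C W => ψ t) ∈ IrrE M B'.e := by
    rw [he]
    exact hψ.1.2
  have h1 := dat_ips sec ips hM hB' hχ' hψ'
  have h3 : ((fun t : B.C W => χ t) = (fun t : B.C W => ψ t)) ↔ χ = ψ := by
    constructor
    · intro h
      funext g
      by_cases hg : g ∈ B.C W
      · exact congrFun h ⟨g, hg⟩
      · rw [hχ.1.1 g hg, hψ.1.1 g hg]
    · rintro rfl
      rfl
  have h5 : ∀ x : V₀, T6.wt B'.i.range B'.g (B'.i x) *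
      T6.Pm M ℓ (B'.i x) (B'.b (Subgroup.zpowers x)) (fun t : B.C W => χ t)
        (fun t : B.C W => ψ t) = if x ∈ W then rip ℓ B W χ ψ else
      ((ℓ : ℂ) ^ 2 * nS E₀ W)⁻¹ * (vx B χ x * starRingEnd ℂ (vx B ψ x)) := by
    intro x
    split_ifs with hx
    · have h6 := pm_in hB' hBe hBi hBb hχ.1 hψ.1 hx ((hχ.2 x hx).trans (hψ.2 x hx).symm)
      rw [h6.1, h6.2, one_mul]
    · rw [wt_out lbd hM hF hB hWb hB' hBg hBi hBC hx,
        pm_out wbo nsd hM h2 hF hB hWb hBi hBb hBC hχ.1 hψ.1 hx, mul_inv]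
      ring
  rw [Finset.sum_congr rfl fun x _ => h5 x, Finset.sum_ite, Finset.sum_const, nsmul_eq_mul,
    ← Finset.mul_sum] at h1
  have h6 : (Finset.univ.filter (fun x => x ∈ W)).card = ℓ := by
    rw [← hW.1, Nat.card_eq_fintype_card, Fintype.card_subtype]
  have h7 : ∑ᶠ x ∈ {x : V₀ | x ∉ W}, vx B χ x * starRingEnd ℂ (vx B ψ x) =
      ∑ x ∈ Finset.univ.filter (fun x => x ∉ W), vx B χ x * starRingEnd ℂ (vx B ψ x) := by
    rw [← finsum_mem_coe_finset]
    refine finsum_congr fun c => ?_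
    simp
  rw [h6] at h1
  rw [h7, ← h1]
  by_cases h : χ = ψ
  · rw [if_pos h, if_pos (h3.2 h)]
  · rw [if_neg h, if_neg (fun h' => h (h3.1 h'))]

end Pool.Agent.PP.SE.H95
end
end -- Pool.Agent.Helper95_ASE.RPS
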