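import Pool.Agent.Helper12_AWB.B171
import Pool.Agent.Helper12_AWB.B210
import Pool.Agent.Helper12_AWB.B219
import Pool.Agent.Helper12_AWB.B221

/-!
# Merged copies (generated) of the modules

* `Pool.Agent.Helper49_ASD.CND`
* `Pool.Agent.Helper49_ASE.CHG`
* `Pool.Agent.Helper49_ASE.VXT`
* `Pool.Agent.Helper49_ASE.VXG`
* `Pool.Agent.Helper49_ASE.VXO`
* `Pool.Agent.Helper81_ASE.XEM`
-/

set_option autoImplicit false

section -- Pool.Agent.Helper49_ASD.CND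

/-!
# Squad ASD, row CND: integrality of the weights of the frames
-/

open scoped BigOperators

set_option autoImplicit false

noncomputable section

namespace Pool.Agent.PP.SD.H49

open Pool.Agent.Helper51_AWC Pool.Agent.Helper79_WRA Pool.Agent.PP Pool.Agent.PP.KF
open Pool.Agent.PP.K9 Pool.Agent.PP.K9.H97 Pool.Agent.PP.H75 Pool.Agent.PP.T3 Pool.Agent.PP.SO

attribute [local instance] Ideal.Quotient.field

/-- the dual character -/
theorem cnd_irr_inv {H : Type} [Group H] [Finite H] {χ : H → ℂ} (hχ : χ ∈ Irr H) :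
    (fun h => χ h⁻¹) ∈ Irr H := by
  classical
  have := Fintype.ofFinite H
  obtain ⟨n, r, r1, r2, r3⟩ := irr_coeff hχ
  refine mem_Irr_of_coeff (fun g a b => r g⁻¹ b a) ?_ ?_ _ (fun g => r3 g⁻¹) ?_
  · intro a b
    rw [inv_one, r1]
    by_cases h : a = b
    · rw [if_pos h, if_pos h.symm]
    · rw [if_neg h, if_neg (Ne.symm h)]
  · intro g h a b
    rw [mul_inv_rev, r2]
    exact Finset.sum_congr rfl fun c _ => mul_comm _ _
  · simp only [inv_inv]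
    rw [← irr_orth_self hχ]
    exact Finset.sum_congr rfl fun g _ => mul_comm _ _

theorem cnd_card_cu {G : Type} [Group G] (H : Subgroup G) (s : G) (hs : s ∈ H) :
    Nat.card (Cu (⟨s, hs⟩ : H)) = Nat.card (H ⊓ Cu s : Subgroup G) := by
  refine Nat.card_congr
    { toFun := fun z => ⟨z.1.1, z.1.2, ?_⟩
      invFun := fun z => ⟨⟨z.1, z.2.1⟩, ?_⟩
      left_inv := fun z => rfl
      right_inv := fun z => rfl }
  · have h1 := Subgroup.mem_centralizer_singleton_iff.1 z.2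
    exact Subgroup.mem_centralizer_singleton_iff.2 (congrArg Subtype.val h1)
  · have h1 := Subgroup.mem_centralizer_singleton_iff.1 z.2.2
    exact Subgroup.mem_centralizer_singleton_iff.2 (Subtype.ext h1)

theorem cnd_cu_pow {H : Type} [Group H] {ℓ : ℕ} [hℓ : Fact ℓ.Prime] {x : H} (hx : x ^ ℓ = 1)
    {j : ℕ} (hj : ¬ ℓ ∣ j) : Cu (x ^ j) = Cu x := by
  have h1 : orderOf x ∣ ℓ := orderOf_dvd_of_pow_eq_one hx
  have h2 : j.Coprime (orderOf x) := by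
    refine Nat.Coprime.coprime_dvd_right h1 ?_
    exact ((Nat.Prime.coprime_iff_not_dvd hℓ.out).2 hj).symm
  obtain ⟨m, hm⟩ := exists_pow_eq_self_of_coprime h2
  ext y
  rw [Subgroup.mem_centralizer_singleton_iff, Subgroup.mem_centralizer_singleton_iff]
  constructor
  · intro h
    rw [← hm]
    exact (show Commute y (x ^ j) from h).pow_right m
  · intro h
    exact (show Commute y x from h).pow_right j

section bk

variable {V₀ G : Type} [CommGroup V₀] [Group G] {M : Ideal (integralClosure ℤ ℂ)} [M.IsMaximal]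

theorem cnd_bh_mem (B : Bk (FF M) V₀ G) (W : Subgroup V₀) (t : B.C W) :
    bh B W t = eh M (fun t : B.C W => B.b W t) t := by
  unfold bh
  rw [PP.ext0, dif_pos t.2]

theorem cnd_bh_off (B : Bk (FF M) V₀ G) (W : Subgroup V₀) {g : G} (hg : g ∉ B.C W) :
    bh B W g = 0 := by
  unfold bh
  rw [PP.ext0, dif_neg hg]

theorem cnd_bh_sing {ℓ : ℕ} [Fact ℓ.Prime] (hM : (ℓ : integralClosure ℤ ℂ) ∈ M) [Finite G]
    {E₀ : Subgroup (MulAut V₀)} {B : Bk (FF M) V₀ G} (hB : Sb ℓ M E₀ B) (W : Subgroup V₀) {g : G}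
    (hg : ¬ Reg ℓ g) : bh B W g = 0 := by
  by_cases h : g ∈ B.C W
  · have := Fintype.ofFinite (B.C W)
    have h1 := cnd_bh_mem B W ⟨g, h⟩
    rw [show ((⟨g, h⟩ : B.C W) : G) = g from rfl] at h1
    rw [h1]
    have hid : IsIdem (fun t : B.C W => B.b W t) := (hB.lb W).blk.blk.1
    refine K9.H25.eh_sing T3.H62.wbo_ ℓ M hM _ hid _ ?_
    intro h2
    apply hg
    unfold Reg at h2 ⊢
    rwa [← Subgroup.orderOf_coe] at h2
  · exact cnd_bh_off B W h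

theorem cnd_bh_cl [Finite G] (B : Bk (FF M) V₀ G) (W : Subgroup V₀) (x y : B.C W) :
    bh B W ((y * x * y⁻¹ : B.C W) : G) = bh B W x := by
  have := Fintype.ofFinite (B.C W)
  rw [cnd_bh_mem, cnd_bh_mem, K9.H25.eh_cl]

open Classical in
theorem cnd_bh_chv [Fintype G] (B : Bk (FF M) V₀ G) (W : Subgroup V₀) [Fintype (B.C W)]
    {ψ : B.C W → ℂ} (hψ : ψ ∈ Irr (B.C W)) :
    ∑ t : B.C W, bh B W t * ψ t = if ψ ∈ IrrE M (fun t : B.C W => B.b W t) then ψ 1 else 0 := by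
  rw [← K9.H25.eh_chv M _ hψ]
  exact Finset.sum_congr rfl fun t _ => by rw [cnd_bh_mem]

theorem cnd_C_anti (B : Bk (FF M) V₀ G) {W W' : Subgroup V₀} (h : W ≤ W') : B.C W' ≤ B.C W := by
  unfold Bk.C
  exact Subgroup.centralizer_le (SetLike.coe_subset_coe.2 (Subgroup.map_mono h))

end bk

theorem cnd_Rl_RM {ℓ : ℕ} [Fact ℓ.Prime] {M : Ideal (integralClosure ℤ ℂ)} [M.IsMaximal]
    (hM : (ℓ : integralClosure ℤ ℂ) ∈ M) {q : ℚ} (hq : q ∈ SOR.Rl ℓ) : ((q : ℚ) : ℂ) ∈ RM M := by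
  have h1 : ¬ ℓ ∣ q.den := hq
  have h2 := inv_nat_RM (M := M) (Fact.out : ℓ.Prime) hM h1
  have h3 : ((q : ℚ) : ℂ) = (q.num : ℂ) * ((q.den : ℕ) : ℂ)⁻¹ := by
    rw [← div_eq_mul_inv]
    exact_mod_cast (Rat.num_div_den q).symm
  rw [h3]
  exact (RM M).mul_mem (intCast_mem _ _) h2

/-- a rational number in the local ring has a denominator prime to `ℓ` -/
theorem cnd_RM_Rl {ℓ : ℕ} [hℓ : Fact ℓ.Prime] {M : Ideal (integralClosure ℤ ℂ)} [M.IsMaximal]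
    (hM : (ℓ : integralClosure ℤ ℂ) ∈ M) {q : ℚ} (h : (q : ℂ) ∈ RM M) : q ∈ SOR.Rl ℓ := by
  intro hd
  have e1 : (q.num : ℂ) = (q : ℂ) * ((q.den : ℤ) : ℂ) := by
    have h1 : (q : ℚ) * q.den = q.num := Rat.mul_den_eq_num q
    have h2 := congrArg (fun r : ℚ => (r : ℂ)) h1
    push_cast at h2 ⊢
    exact h2.symm
  have e2 : rr M ((q.den : ℤ) : ℂ) = 0 := by
    rw [dvd_of_rr hℓ.out hM]
    exact_mod_cast hd
  have e3 : rr M (q.num : ℂ) = 0 := by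
    rw [e1, rr_mul h (rr_int _).1, e2, mul_zero]
  rw [dvd_of_rr hℓ.out hM] at e3
  have h3 : ℓ ∣ q.num.natAbs := Int.natCast_dvd.1 e3
  have h4 := Nat.Coprime.eq_one_of_dvd
    (Nat.Coprime.coprime_dvd_left h3 q.reduced) hd
  exact hℓ.out.one_lt.ne' h4

/-- a rational number in the local ring with residue `1` -/
theorem cnd_rat_one {ℓ : ℕ} [hℓ : Fact ℓ.Prime] {M : Ideal (integralClosure ℤ ℂ)} [M.IsMaximal]
    (hM : (ℓ : integralClosure ℤ ℂ) ∈ M) {q : ℚ} (h : (q : ℂ) ∈ RM M) (h1 : rr M (q : ℂ) = 1) :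
    ∃ q' ∈ SOR.Rl ℓ, q = 1 + ℓ * q' := by
  have hden : ¬ ℓ ∣ q.den := cnd_RM_Rl hM h
  have e1 : (q.num : ℂ) = (q : ℂ) * ((q.den : ℤ) : ℂ) := by
    have h1 : (q : ℚ) * q.den = q.num := Rat.mul_den_eq_num q
    have h2 := congrArg (fun r : ℚ => (r : ℂ)) h1
    push_cast at h2 ⊢
    exact h2.symm
  have e3 : rr M (q.num : ℂ) = rr M ((q.den : ℤ) : ℂ) := by
    rw [e1, rr_mul h (rr_int _).1, h1, one_mul]
  have e4 : rr M (((q.num - (q.den : ℤ) : ℤ)) : ℂ) = 0 := by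
    rw [Int.cast_sub, rr_sub (rr_int _).1 (rr_int _).1, e3, sub_self]
  rw [dvd_of_rr hℓ.out hM] at e4
  obtain ⟨k, hk⟩ := e4
  have hd0 : (q.den : ℚ) ≠ 0 := Nat.cast_ne_zero.2 q.den_ne_zero
  refine ⟨(k : ℚ) / q.den, ?_, ?_⟩
  · apply cnd_RM_Rl hM
    have e5 : (((k : ℚ) / q.den : ℚ) : ℂ) = (k : ℂ) * ((q.den : ℂ))⁻¹ := by
      push_cast
      rw [div_eq_mul_inv]
    rw [e5]
    exact (RM M).mul_mem (rr_int _).1 (inv_nat_RM hℓ.out hM hden)
  · have e6 : (q.num : ℚ) = q.den + ℓ * k := by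
      have h5 : q.num = q.den + ℓ * k := by linarith
      exact_mod_cast h5
    have e8 : q * q.den = q.den + ℓ * k := by
      rw [← e6]
      exact Rat.mul_den_eq_num q
    obtain ⟨D, hD⟩ : ∃ D : ℚ, D = (q.den : ℚ) := ⟨_, rfl⟩
    rw [← hD] at e8 hd0 ⊢
    field_simp
    linarith

section key

variable {ℓ : ℕ} [hℓ : Fact ℓ.Prime] {M : Ideal (integralClosure ℤ ℂ)} [M.IsMaximal]
  (hM : (ℓ : integralClosure ℤ ℂ) ∈ M) {V₀ G : Type} [CommGroup V₀] [Finite V₀] [Group G]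
  [Fintype G] {E₀ : Subgroup (MulAut V₀)}

omit hℓ [Finite V₀] in
theorem cnd_st (c : V₀) : St E₀ (Subgroup.zpowers c) = Es E₀ c := by
  ext σ
  constructor
  · rintro ⟨h1, h2⟩
    exact ⟨h1, h2 c (Subgroup.mem_zpowers c)⟩
  · rintro ⟨h1, h2⟩
    refine ⟨h1, ?_⟩
    intro w hw
    obtain ⟨k, rfl⟩ := Subgroup.mem_zpowers_iff.1 hw
    rw [map_zpow, h2]

omit [Finite V₀] in
theorem cnd_rw_top (hFq : Fq ℓ V₀ E₀) : Rw E₀ (⊤ : Subgroup V₀) := by
  refine ⟨?_, ?_⟩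
  · intro h
    have h1 : Nat.card (⊤ : Subgroup V₀) = 1 := by rw [h, Subgroup.card_bot]
    rw [Subgroup.card_top, hFq.cd] at h1
    have h3 := hℓ.out.two_le
    nlinarith
  · intro σ _ h
    apply MulEquiv.ext
    intro v
    exact h v (Subgroup.mem_top v)

include hM in
theorem cnd_key (h2 : ℓ ≠ 2) (rda : RdaStmt) (homr : HOmrStmt) (htz : HTzStmt)
    (hlnk : HLnkStmt) (inr : InrStmt) (smg : SmgStmt) (hFq : Fq ℓ V₀ E₀) {B : Bk (FF M) V₀ G}
    (hB : Sd ℓ M E₀ B) {W : Subgroup V₀} [Fintype (B.C W)] (hW : W ≠ ⊥) {x : V₀} (hx : x ∉ W)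
    {ψ : B.C W → ℂ} (hψ : ψ ∈ Irr (B.C W)) {ζ : ℂ} (hζ : IsPrimitiveRoot ζ ℓ) :
    ∃ m : ℕ → ℤ, (∑ t : B.C W, bh B ⊤ t * ψ t = B.D ⊤ * ∑ i ∈ Finset.range ℓ, (m i : ℂ)) ∧
      (ψ ∉ IrrE M (fun t : B.C W => B.b W t) →
        ∑ i ∈ Finset.range ℓ, m i = ℓ * m 0) ∧
      (ψ ∈ IrrE M (fun t : B.C W => B.b W t) →
        (Nat.card (B.C W) * (B.D ⊤ * ∑ i ∈ Finset.range ℓ, (m i : ℂ) * ζ ^ i) /
          (Nat.card (B.C ⊤) * ψ 1) : ℂ) ∈ RM M ∧
        rr M (Nat.card (B.C W) * (B.D ⊤ * ∑ i ∈ Finset.range ℓ, (m i : ℂ) * ζ ^ i) /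
          (Nat.card (B.C ⊤) * ψ 1) : ℂ) = ((Nat.card (St E₀ W) : ℕ) : FF M) ∧
        ∃ x' y' : ℕ, ¬ ℓ ∣ x' ∧ ¬ ℓ ∣ y' ∧ (y' : ℂ) * Nat.card (B.C W) = ℓ ^ 2 * ψ 1 * x') := by
  classical
  obtain ⟨hFq', B', hB', he, hg, hi, hb, hC, hcard, -⟩ :=
    rda ℓ M hM h2 V₀ G E₀ hFq B hB.toSb W
  have htop : W ⊔ Subgroup.zpowers x = ⊤ := SO.H33.sup_top hFq.cd hW hx
  obtain ⟨hCu, hLc, hval⟩ := hlnk ℓ M hM V₀ (St E₀ W) (B.C W) B' hB' x
  have he' : B'.e = fun t : B.C W => B.b W t := funext he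
  obtain ⟨u, hu⟩ : ∃ u, u = B'.i x := ⟨_, rfl⟩
  obtain ⟨β, hβd⟩ : ∃ β, β = B'.b (Subgroup.zpowers x) := ⟨_, rfl⟩
  rw [← hu, ← hβd] at hLc hval
  rw [← hu] at hCu
  have hβ : ∀ t : B.C W, β t = B.b ⊤ t := by
    intro t
    rw [hβd, hb, htop]
  have hmem : ∀ t : B.C W, t ∈ Cu u ↔ (t : G) ∈ B.C ⊤ := by
    intro t
    rw [hCu, hC, htop]
  have hTW : B.C ⊤ ≤ B.C W := cnd_C_anti B le_top
  let φ : Cu u ≃* B.C ⊤ :=
    { toFun := fun t => ⟨((t : B.C W) : G), (hmem t).1 t.2⟩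
      invFun := fun t => ⟨⟨(t : G), hTW t.2⟩, (hmem ⟨(t : G), hTW t.2⟩).2 t.2⟩
      left_inv := fun _ => rfl
      right_inv := fun _ => rfl
      map_mul' := fun _ _ => rfl }
  have hDg : Dg M (fun t : Cu u => β t) (B.D ⊤) := by
    have h1 := T3.H85.dg_equiv φ.symm (hB.lb ⊤).blk.blk.1.1 (hB.dg ⊤ (cnd_rw_top hFq))
    have h3 : (fun y : Cu u => (fun t : B.C ⊤ => B.b ⊤ t) (φ.symm.symm y)) =
        fun t : Cu u => β t := by
      funext y
      exact (hβ y).symm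
    rw [h3] at h1
    exact h1
  have hix : Ix (Cu u) β := hLc.blk.ix
  have huℓ : u ^ ℓ = 1 := by rw [hu, ← map_pow, hFq.ex, map_one]
  have hu1 : u ≠ 1 := by
    intro h
    apply hx
    have h3 : x = 1 := hB'.inj (by rw [← hu, h, map_one])
    rw [h3]
    exact W.one_mem
  obtain ⟨m, hm⟩ := inr M (B.C W) u ℓ hℓ.out.pos huℓ β hix (B.D ⊤) hDg ζ hζ ψ hψ
  refine ⟨m, ?_, ?_, ?_⟩
  · have h1 : ∑ t : B.C W, bh B ⊤ t * ψ t = gv M (Cu u) 1 β ψ := by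
      rw [← finsum_eq_sum_of_fintype, H75.sum_sub (Cu u) (fun t : B.C W => bh B ⊤ t * ψ t)
        (fun t ht => by rw [cnd_bh_off B ⊤ (fun h => ht ((hmem t).2 h)), zero_mul])]
      unfold gv gbv
      refine finsum_congr fun t => ?_
      rw [one_mul]
      congr 1
      have h3 := T3.H62.eh_equiv (M := M) φ (b := fun t : Cu u => β t) hix.idem.1 t
      have h4 : (fun y : B.C ⊤ => (fun t : Cu u => β t) (φ.symm y)) =
          fun y : B.C ⊤ => B.b ⊤ y := by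
        funext y
        exact hβ _
      rw [h4] at h3
      rw [← h3]
      exact cnd_bh_mem B ⊤ (φ t)
    have h3 := hm 0
    rw [pow_zero] at h3
    rw [h1, h3]
    congr 1
    refine Finset.sum_congr rfl fun i _ => ?_
    rw [mul_zero, pow_zero, mul_one]
  · intro hψb
    have hc0 : (B.D ⊤ : ℂ) ≠ 0 := Nat.cast_ne_zero.2 hDg.1.ne'
    have hz : ∀ j : ℕ, ¬ ℓ ∣ j → gv M (Cu u) (u ^ j) β ψ = 0 := by
      intro j hj
      have hCj : Cu (u ^ j) = Cu u := cnd_cu_pow huℓ hj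
      have huj : u ^ j ≠ 1 := by
        intro h
        apply hu1
        have h3 : orderOf u ∣ ℓ := orderOf_dvd_of_pow_eq_one huℓ
        have h4 : orderOf u ∣ j := orderOf_dvd_of_pow_eq_one h
        have h5 : orderOf u ∣ Nat.gcd ℓ j := Nat.dvd_gcd h3 h4
        rw [((Nat.Prime.coprime_iff_not_dvd hℓ.out).2 hj)] at h5
        exact orderOf_eq_one_iff.1 (Nat.dvd_one.1 h5)
      have hel : El ℓ (u ^ j) :=
        ⟨1, by rw [pow_one, ← pow_mul, mul_comm, pow_mul, huℓ, one_pow]⟩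
      have hk : ∀ X : Subgroup (B.C W), X = Cu u → IsIdem (fun t : X => β t) ∧
          mulF (fun t : X => B'.e t) (fun t : X => β t) = (fun t : X => β t) ∧
          gv M X (u ^ j) β ψ = gv M (Cu u) (u ^ j) β ψ := by
        rintro _ rfl
        exact ⟨hix.idem, hLc.und, rfl⟩
      obtain ⟨k1, k2, k3⟩ := hk _ hCj
      have h3 := (smg ℓ M hM (B.C W) (u ^ j) 1 huj hel (Subgroup.one_mem _) K9.H25.reg_one
        (fun t : Cu (u ^ j) => β t) k1 B'.e hB'.ld.blk.1).1 k2 ψ hψ (by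
          rw [he']
          exact hψb)
      rw [mul_one] at h3
      rw [← k3]
      exact h3
    exact SO.H33.sum_of_zero hζ m (fun j hj => by
      have h4 := hm j
      rw [hz j hj] at h4
      exact (mul_eq_zero.1 h4.symm).resolve_left hc0)
  · intro hψb
    have hψb' : ψ ∈ IrrE M B'.e := by
      rw [he']
      exact hψb
    have hst : ∀ σ ∈ St E₀ W, σ x = x → σ = 1 := by
      intro σ hσ h1
      apply MulEquiv.ext
      intro v
      obtain ⟨k, w, hw, rfl⟩ := SO.H33.decomp hFq.ex hFq.cd hW hx v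
      rw [map_mul, map_pow, h1, hσ.2 w hw]
      rfl
    have hx1 : x ≠ 1 := by
      intro h
      apply hx
      rw [h]
      exact W.one_mem
    have hEs : Es (St E₀ W) x = ⊥ := by
      rw [eq_bot_iff]
      intro σ hσ
      exact Subgroup.mem_bot.2 (hst σ hσ.1 hσ.2)
    have hnE : nE (St E₀ W) x = Nat.card (St E₀ W) := by
      unfold nE
      rw [hEs, Subgroup.card_bot, Nat.div_one]
    obtain ⟨o1, o2⟩ := homr ℓ M hM V₀ (St E₀ W) (B.C W) B' hB' x ψ hψb'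
    have h1 := hm 1
    simp only [pow_one, mul_one] at h1
    have hcd : (Nat.card (B'.C (Subgroup.zpowers x)) : ℂ) = Nat.card (B.C ⊤) := by
      rw [hcard, htop]
    rw [hval ψ hψ, h1, hcd] at o1 o2
    rw [hnE] at o2
    exact ⟨o1, o2, htz ℓ M hM V₀ hFq.ex hFq.cd (St E₀ W) (B.C W) B' hB' x ⟨hx1, hst⟩ ψ hψb'⟩

end key

/-- CND -/
theorem cnd (prj : PrjStmt) (dgd : DgdStmt) (rda : RdaStmt) (homr : HOmrStmt) (htz : HTzStmt)
    (hlnk : HLnkStmt) (inr : InrStmt) (smg : SmgStmt) : CndStmt := by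
  classical
  intro ℓ hℓ M _ hM h2 V₀ G _ _ _ _ E₀ hFr B hB c hc f s hs
  have hFG := Fintype.ofFinite G
  have hp : ℓ.Prime := Fact.out
  have htop : Rw E₀ (⊤ : Subgroup V₀) := cnd_rw_top hFr
  have hFT : Fintype (B.C ⊤) := Fintype.ofFinite _
  have hcT : (Nat.card (B.C ⊤) : ℂ) ≠ 0 := by exact_mod_cast Nat.card_pos.ne'
  have hkd : ¬ ℓ ∣ kE E₀ c := by
    intro h
    apply hFr.cp
    refine h.trans ?_
    exact Subgroup.card_dvd_of_le (fun σ hσ => hσ.1)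
  have hk0 : (kE E₀ c : ℂ) ≠ 0 := by
    intro h
    apply hkd
    have h1 : kE E₀ c = 0 := by exact_mod_cast h
    rw [h1]
    exact dvd_zero _
  have hkR : ((kE E₀ c : ℕ) : ℂ)⁻¹ ∈ RM M := inv_nat_RM hp hM hkd
  cases f with
  | true =>
    have hfr : frm c true = (⊤ : Subgroup V₀) := rfl
    rw [hfr] at hs ⊢
    have hw : wtD E₀ B c true s = ((kE E₀ c : ℂ) * Nat.card (B.C ⊤))⁻¹ * bh B ⊤ s := by
      unfold wtD
      rw [if_pos rfl]
    have hre : (Nat.card (⊤ : Subgroup V₀) : ℂ) * (Nat.card (B.C ⊤) * wtD E₀ B c true s) /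
        Nat.card (B.C ⊤ ⊓ Cu s : Subgroup G) = ((kE E₀ c : ℕ) : ℂ)⁻¹ *
          (((ℓ ^ 2 : ℕ) : ℂ) * bh B ⊤ s / Nat.card (B.C ⊤ ⊓ Cu s : Subgroup G)) := by
      rw [hw, Subgroup.card_top, hFr.cd]
      have hcS : (Nat.card (B.C ⊤ ⊓ Cu s : Subgroup G) : ℂ) ≠ 0 := by
        exact_mod_cast Nat.card_pos.ne'
      field_simp
    rw [hre, ← cnd_card_cu (B.C ⊤) s hs]
    refine (RM M).mul_mem hkR ?_
    have key := prj ℓ M hM (B.C ⊤) (fun t => ((ℓ ^ 2 : ℕ) : ℂ) * bh B ⊤ t) ?_ ?_ ?_ ⟨s, hs⟩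
    · exact key
    · intro x y
      change ((ℓ ^ 2 : ℕ) : ℂ) * bh B ⊤ ((y * x * y⁻¹ : B.C ⊤) : G) = _
      rw [cnd_bh_cl]
    · intro x hx
      change ((ℓ ^ 2 : ℕ) : ℂ) * bh B ⊤ x = 0
      rw [cnd_bh_sing hM hB.toSb ⊤, mul_zero]
      intro h1
      apply hx
      unfold Reg at h1 ⊢
      rwa [← Subgroup.orderOf_coe]
    · intro χ hχ
      rw [finsum_eq_sum_of_fintype]
      have h3 : ∑ t : B.C ⊤, ((ℓ ^ 2 : ℕ) : ℂ) * bh B ⊤ t * χ t⁻¹ = ((ℓ ^ 2 : ℕ) : ℂ) *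
          if (fun t => χ t⁻¹) ∈ IrrE M (fun t : B.C ⊤ => B.b ⊤ t) then (fun t => χ t⁻¹) 1 else 0 := by
        rw [← cnd_bh_chv B ⊤ (cnd_irr_inv hχ), Finset.mul_sum]
        exact Finset.sum_congr rfl fun t _ => by ring
      rw [h3]
      by_cases h4 : (fun t => χ t⁻¹) ∈ IrrE M (fun t : B.C ⊤ => B.b ⊤ t)
      · have h7 : (fun t : B.C ⊤ => χ t⁻¹) 1 = (B.D ⊤ : ℂ) := (hB.dg ⊤ htop).2 _ h4
        rw [if_pos h4, h7]
        have h5 := (dgd ℓ M hM V₀ G E₀ hFr B hB ⊤ htop).1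
        have h6 : (Nat.card (B.C ⊤) : ℂ)⁻¹ * (((ℓ ^ 2 : ℕ) : ℂ) * (B.D ⊤ : ℂ)) =
            (ℓ ^ 2 * B.D ⊤ / Nat.card (B.C ⊤) : ℂ) := by
          push_cast
          field_simp
        rw [h6]
        exact h5
      · rw [if_neg h4, mul_zero, mul_zero]
        exact (RM M).zero_mem
  | false =>
    obtain ⟨W, hW⟩ : ∃ W, W = Subgroup.zpowers c := ⟨_, rfl⟩
    have hfr : frm c false = W := by rw [hW]; rfl
    rw [hfr] at hs ⊢
    have hWb : W ≠ ⊥ := by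
      rw [hW, Ne, Subgroup.zpowers_eq_bot]
      exact hc
    have hWc : Nat.card W = ℓ := by
      rw [hW, Nat.card_zpowers]
      exact orderOf_eq_prime (hFr.ex c) hc
    have hSt : Nat.card (St E₀ W) = kE E₀ c := by
      rw [hW, cnd_st]
      rfl
    obtain ⟨x, hx⟩ : ∃ x : V₀, x ∉ W := by
      by_contra hcon
      push Not at hcon
      have h1 : W = ⊤ := by
        rw [eq_top_iff]
        intro v _
        exact hcon v
      rw [h1, Subgroup.card_top, hFr.cd] at hWc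
      have h3 := hp.two_le
      nlinarith
    have hFW : Fintype (B.C W) := Fintype.ofFinite _
    have hcW : (Nat.card (B.C W) : ℂ) ≠ 0 := by exact_mod_cast Nat.card_pos.ne'
    have hTW : B.C ⊤ ≤ B.C W := cnd_C_anti B le_top
    have hw : wtD E₀ B c false s = (Nat.card (B.C W) : ℂ)⁻¹ * (bh B W s -
        ((kE E₀ c : ℂ) * Nat.card (B.C ⊤))⁻¹ * ∑ᶠ z : B.C W, bh B ⊤ ((z : G)⁻¹ * s * z)) := by
      unfold wtD
      rw [if_neg (by simp), hW]
    rw [hw, ← mul_assoc (Nat.card (B.C W) : ℂ), mul_inv_cancel₀ hcW, one_mul, hWc,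
      ← cnd_card_cu (B.C W) s hs]
    have key := prj ℓ M hM (B.C W) (fun t => (ℓ : ℂ) * (bh B W t -
      ((kE E₀ c : ℂ) * Nat.card (B.C ⊤))⁻¹ * ∑ᶠ z : B.C W, bh B ⊤ ((z : G)⁻¹ * t * z)))
      ?_ ?_ ?_ ⟨s, hs⟩
    · exact key
    · intro x y
      change (ℓ : ℂ) * (bh B W ((y * x * y⁻¹ : B.C W) : G) -
        ((kE E₀ c : ℂ) * Nat.card (B.C ⊤))⁻¹ *
        ∑ᶠ z : B.C W, bh B ⊤ ((z : G)⁻¹ * ((y * x * y⁻¹ : B.C W) : G) * z)) =
        (ℓ : ℂ) * (bh B W x - ((kE E₀ c : ℂ) * Nat.card (B.C ⊤))⁻¹ *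
        ∑ᶠ z : B.C W, bh B ⊤ ((z : G)⁻¹ * x * z))
      rw [cnd_bh_cl]
      congr 3
      rw [finsum_eq_sum_of_fintype, finsum_eq_sum_of_fintype,
        ← Equiv.sum_comp (Equiv.mulLeft y)
          (fun z : B.C W => bh B ⊤ ((z : G)⁻¹ * ((y * x * y⁻¹ : B.C W) : G) * z))]
      refine Finset.sum_congr rfl fun z _ => ?_
      congr 1
      rw [Equiv.coe_mulLeft]
      push_cast
      group
    · intro x hx
      have hx' : ¬ Reg ℓ (x : G) := by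
        intro h1
        apply hx
        unfold Reg at h1 ⊢
        rwa [← Subgroup.orderOf_coe]
      change (ℓ : ℂ) * (bh B W x - ((kE E₀ c : ℂ) * Nat.card (B.C ⊤))⁻¹ *
        ∑ᶠ z : B.C W, bh B ⊤ ((z : G)⁻¹ * x * z)) = 0
      have h3 : ∀ z : B.C W, bh B ⊤ ((z : G)⁻¹ * x * z) = 0 := by
        intro z
        apply cnd_bh_sing hM hB.toSb
        intro h4
        apply hx'
        unfold Reg at h4 ⊢
        have h5 : orderOf ((z : G)⁻¹ * x * z) = orderOf (x : G) := by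
          have h6 := MulEquiv.orderOf_eq (MulAut.conj ((z : G)⁻¹)) (x : G)
          rwa [MulAut.conj_apply, inv_inv] at h6
        rwa [h5] at h4
      rw [cnd_bh_sing hM hB.toSb W hx']
      simp only [h3]
      rw [finsum_zero, mul_zero, sub_zero, mul_zero]
    · intro χ hχ
      obtain ⟨ψ, hψdef⟩ : ∃ ψ : B.C W → ℂ, ψ = fun h => χ h⁻¹ := ⟨_, rfl⟩
      have hψ : ψ ∈ Irr (B.C W) := by rw [hψdef]; exact cnd_irr_inv hχ
      obtain ⟨S2, hS2⟩ : ∃ S2 : ℂ, S2 = ∑ t : B.C W, bh B ⊤ t * ψ t := ⟨_, rfl⟩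
      have hsum : (Nat.card (B.C W) : ℂ)⁻¹ * ∑ᶠ h : B.C W, (fun t : B.C W => (ℓ : ℂ) *
          (bh B W t - ((kE E₀ c : ℂ) * Nat.card (B.C ⊤))⁻¹ *
            ∑ᶠ z : B.C W, bh B ⊤ ((z : G)⁻¹ * t * z))) h *
            χ h⁻¹ = (Nat.card (B.C W) : ℂ)⁻¹ * ((ℓ : ℂ) *
          ((if ψ ∈ IrrE M (fun t : B.C W => B.b W t) then ψ 1 else 0) -
            ((kE E₀ c : ℂ) * Nat.card (B.C ⊤))⁻¹ * (Nat.card (B.C W) * S2))) := by
        congr 1
        rw [finsum_eq_sum_of_fintype, ← cnd_bh_chv B W hψ]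
        have e1 : ∀ h : B.C W, (fun t : B.C W => (ℓ : ℂ) *
          (bh B W t - ((kE E₀ c : ℂ) * Nat.card (B.C ⊤))⁻¹ *
            ∑ᶠ z : B.C W, bh B ⊤ ((z : G)⁻¹ * t * z))) h *
            χ h⁻¹ = (ℓ : ℂ) * (bh B W h * ψ h) -
            (ℓ : ℂ) * (((kE E₀ c : ℂ) * Nat.card (B.C ⊤))⁻¹ *
              ∑ z : B.C W, bh B ⊤ ((z : G)⁻¹ * h * z) * ψ h) := by
          intro h
          rw [hψdef]
          change (ℓ : ℂ) * (bh B W h - ((kE E₀ c : ℂ) * Nat.card (B.C ⊤))⁻¹ *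
            ∑ᶠ z : B.C W, bh B ⊤ ((z : G)⁻¹ * h * z)) * χ h⁻¹ =
            (ℓ : ℂ) * (bh B W h * χ h⁻¹) - (ℓ : ℂ) * (((kE E₀ c : ℂ) * Nat.card (B.C ⊤))⁻¹ *
              ∑ z : B.C W, bh B ⊤ ((z : G)⁻¹ * h * z) * χ h⁻¹)
          rw [finsum_eq_sum_of_fintype, ← Finset.sum_mul]
          ring
        rw [Finset.sum_congr rfl fun h _ => e1 h, Finset.sum_sub_distrib, ← Finset.mul_sum,
          ← Finset.mul_sum, ← Finset.mul_sum, Finset.sum_comm, mul_sub]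
        congr 3
        rw [hS2]
        have e2 : ∀ z : B.C W, ∑ h : B.C W, bh B ⊤ ((z : G)⁻¹ * h * z) * ψ h =
            ∑ t : B.C W, bh B ⊤ t * ψ t := by
          intro z
          rw [← Equiv.sum_comp (MulAut.conj z).toEquiv
            (fun h : B.C W => bh B ⊤ ((z : G)⁻¹ * h * z) * ψ h)]
          refine Finset.sum_congr rfl fun h _ => ?_
          have e3 : (MulAut.conj z).toEquiv h = z * h * z⁻¹ := rfl
          rw [e3, irr_conj hψ]
          congr 2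
          push_cast
          group
        rw [Finset.sum_congr rfl fun z _ => e2 z, Finset.sum_const, Finset.card_univ,
          nsmul_eq_mul, Nat.card_eq_fintype_card]
      rw [hsum]
      obtain ⟨ζ, hζ⟩ : ∃ ζ : ℂ, IsPrimitiveRoot ζ ℓ :=
        ⟨_, Complex.isPrimitiveRoot_exp _ hp.ne_zero⟩
      obtain ⟨m, m1, m2, m3⟩ := cnd_key hM h2 rda homr htz hlnk inr smg hFr hB hWb hx hψ hζ
      rw [← hS2] at m1
      obtain ⟨N, hN⟩ : ∃ N : ℤ, N = ∑ i ∈ Finset.range ℓ, m i := ⟨_, rfl⟩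
      have hNc : ∑ i ∈ Finset.range ℓ, (m i : ℂ) = (N : ℂ) := by
        rw [hN]
        push_cast
        rfl
      rw [hNc] at m1
      have hdT := dgd ℓ M hM V₀ G E₀ hFr B hB ⊤ htop
      by_cases hin : ψ ∈ IrrE M (fun t : B.C W => B.b W t)
      · rw [if_pos hin, m1]
        obtain ⟨r1, r2, x', y', hx', hy', hxy⟩ := m3 hin
        obtain ⟨n, hn, hn1⟩ := irr_one hψ
        have hn0 : (n : ℂ) ≠ 0 := Nat.cast_ne_zero.2 hn.ne'
        have hℓ0 : (ℓ : ℂ) ≠ 0 := Nat.cast_ne_zero.2 hp.ne_zero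
        have hx0 : (x' : ℂ) ≠ 0 := by
          refine Nat.cast_ne_zero.2 ?_
          rintro rfl
          exact hx' (dvd_zero _)
        have hy0 : (y' : ℂ) ≠ 0 := by
          refine Nat.cast_ne_zero.2 ?_
          rintro rfl
          exact hy' (dvd_zero _)
        have hD0 : (B.D ⊤ : ℂ) ≠ 0 := Nat.cast_ne_zero.2 (hB.dg ⊤ htop).1.ne'
        rw [hn1] at r1 r2 hxy
        rw [hn1]
        obtain ⟨v1, v2⟩ := T3.H41.rr_val hM (ζ := ζ) (k := 1) (by rw [pow_one]; exact hζ.pow_eq_one)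
          m (Finset.range ℓ)
        obtain ⟨V, hV⟩ : ∃ V : ℂ, V = ∑ i ∈ Finset.range ℓ, (m i : ℂ) * ζ ^ i := ⟨_, rfl⟩
        rw [← hV] at v1 v2 r1 r2
        rw [← hN] at v2
        obtain ⟨R, hR⟩ : ∃ R : ℂ, R = Nat.card (B.C W) * B.D ⊤ / (Nat.card (B.C ⊤) * n) :=
          ⟨_, rfl⟩
        have hR1 : R = (x' : ℂ) * ((y' : ℕ) : ℂ)⁻¹ * (ℓ ^ 2 * B.D ⊤ / Nat.card (B.C ⊤) : ℂ) := by
          have h3 : (Nat.card (B.C W) : ℂ) = ℓ ^ 2 * n * x' / y' := by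
            field_simp
            linear_combination hxy
          rw [hR, h3]
          field_simp
        have hRm : R ∈ RM M := by
          rw [hR1]
          exact (RM M).mul_mem ((RM M).mul_mem (natCast_mem _ _) (inv_nat_RM hp hM hy')) hdT.1
        have hA : (Nat.card (B.C W) * (B.D ⊤ * V) / (Nat.card (B.C ⊤) * n) : ℂ) = R * V := by
          rw [hR]
          ring
        rw [hA] at r1 r2
        rw [rr_mul hRm v1, v2, ← (rr_int N).2, ← rr_mul hRm (rr_int N).1, hSt] at r2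
        have hkr : rr M ((kE E₀ c : ℕ) : ℂ) = ((kE E₀ c : ℕ) : FF M) := (rr_nat _).2
        have hkr0 : rr M ((kE E₀ c : ℕ) : ℂ) ≠ 0 := by
          intro h3
          apply hkd
          have h4 := (dvd_of_rr (M := M) hp hM (n := (kE E₀ c : ℤ))).1 (by exact_mod_cast h3)
          exact_mod_cast h4
        obtain ⟨q, hq⟩ : ∃ q : ℚ, q = Nat.card (B.C W) * B.D ⊤ * N /
            (Nat.card (B.C ⊤) * n * kE E₀ c) := ⟨_, rfl⟩
        have hqc : (q : ℂ) = R * N * ((kE E₀ c : ℕ) : ℂ)⁻¹ := by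
          rw [hq, hR]
          push_cast
          field_simp
        have hq1 : (q : ℂ) ∈ RM M := by
          rw [hqc]
          exact (RM M).mul_mem ((RM M).mul_mem hRm (rr_int N).1) hkR
        have hq2 : rr M (q : ℂ) = 1 := by
          rw [hqc, rr_mul ((RM M).mul_mem hRm (rr_int N).1) hkR, r2,
            rr_inv (rr_nat _).1 hkr0, ← hkr, mul_inv_cancel₀ hkr0]
        obtain ⟨q', hq', hqq⟩ := cnd_rat_one hM hq1 hq2
        have hqq' : R * N * ((kE E₀ c : ℕ) : ℂ)⁻¹ = 1 + ℓ * (q' : ℂ) := by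
          rw [← hqc, hqq]
          push_cast
          ring
        have hfin : (Nat.card (B.C W) : ℂ)⁻¹ * ((ℓ : ℂ) * ((n : ℂ) -
            ((kE E₀ c : ℂ) * Nat.card (B.C ⊤))⁻¹ * (Nat.card (B.C W) * (B.D ⊤ * N)))) =
            -((y' : ℂ) * ((x' : ℕ) : ℂ)⁻¹ * (q' : ℂ)) := by
          have h3 : ((kE E₀ c : ℂ) * Nat.card (B.C ⊤))⁻¹ * (Nat.card (B.C W) * (B.D ⊤ * N)) =
              n * (1 + ℓ * (q' : ℂ)) := by
            rw [← hqq', hR]
            field_simp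
          rw [h3]
          have h4 : (Nat.card (B.C W) : ℂ)⁻¹ = y' / (ℓ ^ 2 * n * x') := by
            rw [eq_div_iff (by positivity), ← hxy]
            field_simp
          rw [h4]
          field_simp
          ring
        rw [hfin]
        exact (RM M).neg_mem ((RM M).mul_mem ((RM M).mul_mem (natCast_mem _ _)
          (inv_nat_RM hp hM hx')) (cnd_Rl_RM hM hq'))
      · rw [if_neg hin, m1]
        have h3 := m2 hin
        rw [← hN] at h3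
        rw [h3]
        have h6 : (Nat.card (B.C W) : ℂ)⁻¹ * ((ℓ : ℂ) * (0 -
            ((kE E₀ c : ℂ) * Nat.card (B.C ⊤))⁻¹ * (Nat.card (B.C W) *
              (B.D ⊤ * ((ℓ * m 0 : ℤ) : ℂ))))) =
            (ℓ ^ 2 * B.D ⊤ / Nat.card (B.C ⊤) : ℂ) * (((kE E₀ c : ℕ) : ℂ)⁻¹ * (-(m 0 : ℂ))) := by
          push_cast
          field_simp
          ring
        rw [h6]
        exact (RM M).mul_mem hdT.1 ((RM M).mul_mem hkR ((RM M).neg_mem (rr_int _).1))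

end Pool.Agent.PP.SD.H49
end
end -- Pool.Agent.Helper49_ASD.CND

section -- Pool.Agent.Helper49_ASE.CHG

/-!
# Squad ASE, row CHG: the characters of `g` which are fixed by two elements of the inertial group
-/

open scoped BigOperators

set_option autoImplicit false

noncomputable section

namespace Pool.Agent.PP.SE.H49

open Pool.Agent.Helper51_AWC Pool.Agent.Helper79_WRA Pool.Agent.PP Pool.Agent.PP.KF
open Pool.Agent.PP.K9 Pool.Agent.PP.K9.H97 Pool.Agent.PP.H75 Pool.Agent.PP.T3 Pool.Agent.PP.SO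
open Pool.Agent.PP.SD

attribute [local instance] Ideal.Quotient.field

/-- the number of the linear characters fixed by two automorphisms of a group of order prime to `ℓ` -/
theorem fix_cnt {V₀ : Type} [CommGroup V₀] [Finite V₀] {ℓ : ℕ} [hℓ : Fact ℓ.Prime]
    (hex : ∀ v : V₀, v ^ ℓ = 1) {E₀ : Subgroup (MulAut V₀)} (hcp : ¬ ℓ ∣ Nat.card E₀)
    {σ τ : MulAut V₀} (hσ : σ ∈ E₀) (hτ : τ ∈ E₀) :
    {f : V₀ → ℂ | f ∈ lin V₀ ∧ (∀ x, f (σ x) = f x) ∧ ∀ x, f (τ x) = f x}.ncard =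
      {v : V₀ | σ v = v ∧ τ v = v}.ncard := by
  classical
  obtain ⟨A, hA⟩ : ∃ A : Subgroup (MulAut V₀), A = Subgroup.closure {σ, τ} := ⟨_, rfl⟩
  have hσA : σ ∈ A := by
    rw [hA]
    exact Subgroup.subset_closure (Set.mem_insert _ _)
  have hτA : τ ∈ A := by
    rw [hA]
    exact Subgroup.subset_closure (Set.mem_insert_of_mem _ (Set.mem_singleton _))
  have hAE : A ≤ E₀ := by
    rw [hA, Subgroup.closure_le]
    rintro _ (rfl | rfl)
    exacts [hσ, hτ]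
  have : Fintype A := Fintype.ofFinite A
  have hn : ¬ ℓ ∣ Fintype.card A := by
    intro h
    apply hcp
    rw [← Nat.card_eq_fintype_card] at h
    exact h.trans (Subgroup.card_dvd_of_le hAE)
  obtain ⟨m, -, hm⟩ := Nat.exists_mul_mod_eq_one_of_coprime
    (((Nat.Prime.coprime_iff_not_dvd hℓ.out).2 hn).symm) hℓ.out.one_lt
  have hpow : ∀ v : V₀, v ^ (Fintype.card A * m) = v := by
    intro v
    rw [← Nat.div_add_mod (Fintype.card A * m) ℓ, hm, pow_add, pow_mul, hex, one_pow, one_mul,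
      pow_one]
  let P : V₀ →* V₀ :=
    { toFun := fun v => (∏ a : A, (a : MulAut V₀) v) ^ m
      map_one' := by simp
      map_mul' := fun v w => by simp only [map_mul, Finset.prod_mul_distrib, mul_pow] }
  have hPd : ∀ v, P v = (∏ a : A, (a : MulAut V₀) v) ^ m := fun v => rfl
  have hP1 : ∀ b ∈ A, ∀ v, P (b v) = P v := by
    intro b hb v
    rw [hPd, hPd]
    congr 1
    exact Fintype.prod_equiv (Equiv.mulRight (⟨b, hb⟩ : A)) _ _ (fun a => rfl)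
  have hP2 : ∀ b ∈ A, ∀ v, b (P v) = P v := by
    intro b hb v
    rw [hPd, map_pow, map_prod]
    congr 1
    exact Fintype.prod_equiv (Equiv.mulLeft (⟨b, hb⟩ : A)) _ _ (fun a => rfl)
  have hfix : ∀ v, σ v = v → τ v = v → ∀ a ∈ A, a v = v := by
    intro v h1 h2
    have h3 : A ≤ MulAction.stabilizer (MulAut V₀) v := by
      rw [hA, Subgroup.closure_le]
      rintro _ (rfl | rfl)
      exacts [h1, h2]
    exact fun a ha => h3 ha
  have hP3 : ∀ v, σ v = v → τ v = v → P v = v := by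
    intro v h1 h2
    have h3 : ∀ a : A, (a : MulAut V₀) v = v := fun a => hfix v h1 h2 a a.2
    rw [hPd, Finset.prod_congr rfl (fun a _ => h3 a), Finset.prod_const, Finset.card_univ,
      ← pow_mul, hpow]
  have hf : ∀ f : V₀ → ℂ, (∀ x, f (σ x) = f x) → (∀ x, f (τ x) = f x) →
      ∀ a ∈ A, ∀ x, f (a x) = f x := by
    intro f h1 h2 a ha
    rw [hA] at ha
    refine Subgroup.closure_induction (p := fun a _ => ∀ x, f (a x) = f x) ?_ ?_ ?_ ?_ ha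
    · rintro _ (rfl | rfl)
      exacts [h1, h2]
    · intro x
      rfl
    · intro a b _ _ ha hb x
      rw [MulAut.mul_apply, ha, hb]
    · intro a _ ha x
      have h := ha (a⁻¹ x)
      rw [MulAut.apply_inv_self] at h
      exact h.symm
  have hf2 : ∀ f ∈ lin V₀, (∀ x, f (σ x) = f x) → (∀ x, f (τ x) = f x) → ∀ v, f (P v) = f v := by
    intro f hl h1 h2 v
    let F : V₀ →* ℂ := ⟨⟨f, hl.1⟩, hl.2⟩
    have hF : ∀ x, F x = f x := fun _ => rfl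
    rw [← hF, ← hF, hPd, map_pow, map_prod]
    have h3 : ∀ a : A, F ((a : MulAut V₀) v) = F v := fun a => hf f h1 h2 a a.2 v
    rw [Finset.prod_congr rfl (fun a _ => h3 a), Finset.prod_const, Finset.card_univ, ← pow_mul,
      ← map_pow, hpow]
  let Cs : Subgroup V₀ :=
    { carrier := {v | σ v = v ∧ τ v = v}
      one_mem' := ⟨map_one _, map_one _⟩
      mul_mem' := fun {a b} ha hb => ⟨by rw [map_mul, ha.1, hb.1], by rw [map_mul, ha.2, hb.2]⟩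
      inv_mem' := fun {a} ha => ⟨by rw [map_inv, ha.1], by rw [map_inv, ha.2]⟩ }
  have hPC : ∀ v, P v ∈ Cs := fun v => ⟨hP2 σ hσA v, hP2 τ hτA v⟩
  let Φ : {f : V₀ → ℂ | f ∈ lin V₀ ∧ (∀ x, f (σ x) = f x) ∧ ∀ x, f (τ x) = f x} ≃
      (Cs →* ℂˣ) :=
    { toFun := fun f => MonoidHom.toHomUnits
        ((⟨⟨f.1, f.2.1.1⟩, f.2.1.2⟩ : V₀ →* ℂ).comp Cs.subtype)
      invFun := fun μ => ⟨fun v => (μ ⟨P v, hPC v⟩ : ℂ), ⟨by
        have h1 : (⟨P 1, hPC 1⟩ : Cs) = 1 := Subtype.ext (map_one P)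
        beta_reduce
        rw [h1, map_one]
        rfl, fun v w => by
        have h1 : (⟨P (v * w), hPC (v * w)⟩ : Cs) = ⟨P v, hPC v⟩ * ⟨P w, hPC w⟩ :=
          Subtype.ext (map_mul P v w)
        beta_reduce
        rw [h1, map_mul]
        rfl⟩, fun x => by
        have h1 : (⟨P (σ x), hPC (σ x)⟩ : Cs) = ⟨P x, hPC x⟩ := Subtype.ext (hP1 σ hσA x)
        beta_reduce
        rw [h1], fun x => by
        have h1 : (⟨P (τ x), hPC (τ x)⟩ : Cs) = ⟨P x, hPC x⟩ := Subtype.ext (hP1 τ hτA x)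
        beta_reduce
        rw [h1]⟩
      left_inv := by
        rintro ⟨f, h0, h1, h2⟩
        apply Subtype.ext
        funext v
        exact hf2 f h0 h1 h2 v
      right_inv := by
        intro μ
        ext c
        change (μ ⟨P c, hPC c⟩ : ℂ) = μ c
        have h1 : (⟨P c, hPC c⟩ : Cs) = c := Subtype.ext (hP3 c c.2.1 c.2.2)
        rw [h1] }
  have h5 : Nat.card (Cs →* ℂˣ) = Nat.card Cs :=
    CommGroup.card_monoidHom_of_hasEnoughRootsOfUnity Cs ℂ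
  rw [← Nat.card_coe_set_eq, Nat.card_congr Φ, h5]
  rfl

section sd

variable {ℓ : ℕ} [hℓ : Fact ℓ.Prime] {M : Ideal (integralClosure ℤ ℂ)} [M.IsMaximal]
  {V₀ G : Type} [CommGroup V₀] [Finite V₀] [Group G] [Finite G] {E₀ : Subgroup (MulAut V₀)}

omit hℓ [Finite V₀] in
/-- the local block of `V₀` is `g` -/
theorem b_top {B : Bk (FF M) V₀ G} (hB : Sb ℓ M E₀ B) : B.b ⊤ = B.g := by
  have hb : Bx (Subgroup.centralizer (B.i.range : Set G)) (B.b ⊤) := by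
    rw [MonoidHom.range_eq_map]
    exact (hB.lb ⊤).blk
  have h1 : br B.i.range (B.b ⊤) = B.b ⊤ := by
    funext t
    unfold br
    split_ifs with h
    · rfl
    · exact (hb.supp t h).symm
  have h2 := (hB.lb ⊤).gam
  rw [h1] at h2
  rcases hb.dich hB.ld.gam with h | h
  · exact h
  · exfalso
    apply hB.ld.gam.blk.2.1
    rw [h] at h2
    funext t
    exact (congrFun h2 (t : G)).symm

theorem rw_top (hFq : Fq ℓ V₀ E₀) : Rw E₀ (⊤ : Subgroup V₀) := by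
  refine ⟨?_, ?_⟩
  · intro h
    have h1 : Nat.card (⊤ : Subgroup V₀) = 1 := by rw [h, Subgroup.card_bot]
    rw [Subgroup.card_top, hFq.cd] at h1
    have h3 := hℓ.out.two_le
    nlinarith
  · intro σ _ h
    apply MulEquiv.ext
    intro v
    exact h v (Subgroup.mem_top v)

omit hℓ [Finite V₀] [Finite G] in
theorem ux_top (B : Bk (FF M) V₀ G) (x : V₀) : ux B.U ⊤ x = 1 := if_pos (Subgroup.mem_top x)

/-- `χ` is fixed by `t` iff its linear character is fixed by `σ` -/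
theorem fix_iff (hM : (ℓ : integralClosure ℤ ℂ) ∈ M) (h2 : ℓ ≠ 2) (nsd : NsdStmt)
    (cjd : CjdStmt) (hFq : Fq ℓ V₀ E₀) {B : Bk (FF M) V₀ G} (hB : Sd ℓ M E₀ B)
    {σ : MulAut V₀} (hσ : σ ∈ E₀) {t : G} (ht : t ∈ Tg B.i.range B.g)
    (hact : ∀ v, t * B.i v * t⁻¹ = B.i (σ v)) {χ : G → ℂ} (hχ : χ ∈ Ch B ⊤) :
    (∀ y, χ (t * y * t⁻¹) = χ y) ↔ ∀ x, lam B ⊤ χ (σ x) = lam B ⊤ χ x := by
  obtain ⟨-, c2, -, -, c5, -⟩ := cjd ℓ M hM h2 V₀ G E₀ hFq B hB.toSb σ hσ t ht hact ⊤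
  have htop : (⊤ : Subgroup V₀).map σ.toMonoidHom = ⊤ :=
    Subgroup.map_top_of_surjective _ σ.surjective
  rw [htop] at c2 c5
  obtain ⟨-, -, -, n4, -⟩ := nsd ℓ M hM h2 V₀ G E₀ hFq B hB ⊤ (rw_top hFq)
  constructor
  · intro h x
    unfold lam
    rw [ux_top, ux_top]
    congr 1
    unfold SO.cv
    congr 1
    rw [← finsum_comp_equiv (MulAut.conj t).toEquiv]
    apply finsum_congr
    intro y
    change fc B ⊤ (σ x) (t * y * t⁻¹) * χ (t * y * t⁻¹) = _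
    rw [c5, h]
  · intro h y
    by_cases hy : y ∈ B.C ⊤
    · rw [n4 χ hχ _ ((c2 y).2 hy), n4 χ hχ _ hy]
      congr 1
      rw [← finsum_comp_equiv σ.toEquiv]
      apply finsum_congr
      intro x
      change starRingEnd ℂ (lam B ⊤ χ (σ x)) / ((ux B.U ⊤ (σ x) : ℚ) : ℂ) *
        fc B ⊤ (σ x) (t * y * t⁻¹)⁻¹ = _
      have h3 : (t * y * t⁻¹)⁻¹ = t * y⁻¹ * t⁻¹ := by group
      rw [h3, c5, h, ux_top, ux_top]
    · rw [hχ.1 y hy, hχ.1 _ (fun h' => hy ((c2 y).1 h'))]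

/-- CHG for a datum with `Sd` -/
theorem chg_sd (hM : (ℓ : integralClosure ℤ ℂ) ∈ M) (h2 : ℓ ≠ 2) (nsd : NsdStmt)
    (cjd : CjdStmt) (hFq : Fq ℓ V₀ E₀) {B : Bk (FF M) V₀ G} (hB : Sd ℓ M E₀ B)
    {σ τ : MulAut V₀} (hσ : σ ∈ E₀) (hτ : τ ∈ E₀) {t u : G} (ht : t ∈ Tg B.i.range B.g)
    (hu : u ∈ Tg B.i.range B.g) (hact : ∀ v, t * B.i v * t⁻¹ = B.i (σ v))
    (hact' : ∀ v, u * B.i v * u⁻¹ = B.i (τ v)) :
    {χ | χ ∈ Ch B ⊤ ∧ (∀ y, χ (t * y * t⁻¹) = χ y) ∧ ∀ y, χ (u * y * u⁻¹) = χ y}.ncard =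
      {v : V₀ | σ v = v ∧ τ v = v}.ncard := by
  rw [← fix_cnt hFq.ex hFq.cp hσ hτ]
  obtain ⟨n1, -⟩ := nsd ℓ M hM h2 V₀ G E₀ hFq B hB ⊤ (rw_top hFq)
  have h3 : {f : V₀ → ℂ | f ∈ lin V₀ ∧ (∀ x, f (σ x) = f x) ∧ ∀ x, f (τ x) = f x} =
      lam B ⊤ '' {χ | χ ∈ Ch B ⊤ ∧ (∀ y, χ (t * y * t⁻¹) = χ y) ∧
        ∀ y, χ (u * y * u⁻¹) = χ y} := by
    ext f
    constructor
    · rintro ⟨h1, h4, h5⟩
      obtain ⟨χ, hχ, rfl⟩ := n1.2.2 h1
      exact ⟨χ, ⟨hχ, (fix_iff hM h2 nsd cjd hFq hB hσ ht hact hχ).2 h4,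
        (fix_iff hM h2 nsd cjd hFq hB hτ hu hact' hχ).2 h5⟩, rfl⟩
    · rintro ⟨χ, ⟨hχ, h4, h5⟩, rfl⟩
      exact ⟨n1.1 hχ, (fix_iff hM h2 nsd cjd hFq hB hσ ht hact hχ).1 h4,
        (fix_iff hM h2 nsd cjd hFq hB hτ hu hact' hχ).1 h5⟩
  rw [h3, Set.ncard_image_of_injOn]
  intro χ hχ χ' hχ' h
  exact n1.2.1 hχ.1 hχ'.1 h

end sd

/-- CHG -/
theorem chg (nsd : NsdStmt) (syd : SydStmt) (cjd : CjdStmt) : ChgStmt := by
  intro ℓ hℓ M _ hM h2 V₀ G _ _ _ _ E₀ hFq B hB σ hσ τ hτ t ht u hu hact hact'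
  obtain ⟨B', he, hg, hi, hB'⟩ := syd ℓ M hM V₀ G E₀ hFq B.e B.g B.i hB.inj hB.ld hB.act hB.sur
  have hb : B'.b ⊤ = B.b ⊤ := by rw [b_top hB'.toSb, b_top hB, hg]
  have hCh : Ch B' ⊤ = Ch B ⊤ := by
    unfold Ch Bk.C
    rw [hi, hb]
  rw [← hCh]
  have hTg : Tg B'.i.range B'.g = Tg B.i.range B.g := by rw [hi, hg]
  refine chg_sd hM h2 nsd cjd hFq hB' hσ hτ ?_ ?_ ?_ ?_
  · rw [hTg]
    exact ht
  · rw [hTg]
    exact hu
  · rw [hi]
    exact hact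
  · rw [hi]
    exact hact'

end Pool.Agent.PP.SE.H49
end
end -- Pool.Agent.Helper49_ASE.CHG

section -- Pool.Agent.Helper49_ASE.VXT

/-!
# Squad ASE, tools for the rows VXO and VXG
-/

open scoped BigOperators

set_option autoImplicit false

noncomputable section

namespace Pool.Agent.PP.SE.H49

open Pool.Agent.Helper51_AWC Pool.Agent.Helper79_WRA Pool.Agent.PP Pool.Agent.PP.KF
open Pool.Agent.PP.K9 Pool.Agent.PP.K9.H97 Pool.Agent.PP.H75 Pool.Agent.PP.T3 Pool.Agent.PP.SO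
open Pool.Agent.PP.SD
open Pool.Agent.PP.SD.H49 (cnd_bh_mem cnd_bh_off cnd_bh_sing cnd_C_anti cnd_cu_pow)

attribute [local instance] Ideal.Quotient.field

section gen

variable {V₀ G : Type} [CommGroup V₀] [Group G] {M : Ideal (integralClosure ℤ ℂ)} [M.IsMaximal]

theorem ch_fin [Finite G] (B : Bk (FF M) V₀ G) (W : Subgroup V₀) : (Ch B W).Finite := by
  refine Set.Finite.of_finite_image (f := fun (χ : G → ℂ) => fun t : B.C W => χ t)
    ((T3.H41.irrE_fin M (fun t : B.C W => B.b W t)).subset ?_) ?_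
  · rintro _ ⟨χ, hχ, rfl⟩
    exact hχ.2
  · intro χ hχ χ' hχ' h
    funext x
    by_cases hx : x ∈ B.C W
    · exact congrFun h ⟨x, hx⟩
    · rw [hχ.1 x hx, hχ'.1 x hx]

theorem sum_ch [Finite G] (B : Bk (FF M) V₀ G) (W : Subgroup V₀) (F : (B.C W → ℂ) → ℂ) :
    ∑ᶠ χ ∈ Ch B W, F (fun t : B.C W => χ t) =
      ∑ᶠ ψ ∈ IrrE M (fun t : B.C W => B.b W t), F ψ := by
  refine finsum_mem_eq_of_bijOn (fun (χ : G → ℂ) => fun t : B.C W => χ t) ⟨?_, ?_, ?_⟩ ?_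
  · intro χ hχ
    exact hχ.2
  · intro χ hχ χ' hχ' h
    funext x
    by_cases hx : x ∈ B.C W
    · exact congrFun h ⟨x, hx⟩
    · rw [hχ.1 x hx, hχ'.1 x hx]
  · intro κ' hκ'
    have h1 : (fun t : B.C W => H75.ext0 (B.C W) κ' t) = κ' := by
      funext t
      exact H75.ext0_apply _ _ _
    refine ⟨H75.ext0 (B.C W) κ', ⟨H75.ext0_supp _ _, ?_⟩, h1⟩
    rw [h1]
    exact hκ'
  · intro χ _
    rfl

/-- the isomorphism of the centralisers -/
def cuE (B : Bk (FF M) V₀ G) (W : Subgroup V₀) {X : Subgroup (B.C W)}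
    (hX : ∀ t : B.C W, t ∈ X ↔ (t : G) ∈ B.C ⊤) : X ≃* B.C ⊤ where
  toFun t := ⟨((t : B.C W) : G), (hX t).1 t.2⟩
  invFun t := ⟨⟨(t : G), cnd_C_anti B le_top t.2⟩, (hX _).2 t.2⟩
  left_inv _ := rfl
  right_inv _ := rfl
  map_mul' _ _ := rfl

theorem vt_eh [Finite G] (B : Bk (FF M) V₀ G) (W : Subgroup V₀) {X : Subgroup (B.C W)}
    (hX : ∀ t : B.C W, t ∈ X ↔ (t : G) ∈ B.C ⊤) {β : B.C W → FF M}
    (hβ : ∀ t, β t = B.b ⊤ t) (hcl : IsCl fun t : X => β t) (t : X) :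
    eh M (fun t : X => β t) t = bh B ⊤ ((t : B.C W) : G) := by
  have h3 := T3.H62.eh_equiv (M := M) (cuE B W hX) (b := fun t : X => β t) hcl t
  have h4 : (fun y : B.C ⊤ => (fun t : X => β t) ((cuE B W hX).symm y)) =
      fun y : B.C ⊤ => B.b ⊤ y := by
    funext y
    exact hβ _
  rw [h4] at h3
  rw [← h3]
  exact (cnd_bh_mem B ⊤ ((cuE B W hX) t)).symm

theorem vt_gv [Finite G] (B : Bk (FF M) V₀ G) (W : Subgroup V₀) {X : Subgroup (B.C W)}
    (hX : ∀ t : B.C W, t ∈ X ↔ (t : G) ∈ B.C ⊤) {β : B.C W → FF M}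
    (hβ : ∀ t, β t = B.b ⊤ t) (hcl : IsCl fun t : X => β t) (w : B.C W) (χ : G → ℂ) :
    gv M X w β (fun t => χ t) = ∑ᶠ s : G, bh B ⊤ s * χ (w * s) := by
  classical
  have := Fintype.ofFinite G
  rw [H75.sum_sub (B.C W) (fun s : G => bh B ⊤ s * χ (w * s)) (fun s hs => by
    rw [cnd_bh_off B ⊤ (fun h => hs (cnd_C_anti B le_top h)), zero_mul])]
  rw [H75.sum_sub X (fun t : B.C W => bh B ⊤ t * χ (w * t)) (fun t ht => by
    rw [cnd_bh_off B ⊤ (fun h => ht ((hX t).2 h)), zero_mul])]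
  unfold gv gbv
  refine finsum_congr fun t => ?_
  rw [vt_eh B W hX hβ hcl]
  rfl

end gen

section loc

variable {ℓ : ℕ} [hℓ : Fact ℓ.Prime] {M : Ideal (integralClosure ℤ ℂ)} [M.IsMaximal]
  {V₀ G : Type} [CommGroup V₀] [Finite V₀] [Group G] [Finite G] {E₀ : Subgroup (MulAut V₀)}

/-- the local datum of `W` -/
theorem loc_dat (hM : (ℓ : integralClosure ℤ ℂ) ∈ M) (h2 : ℓ ≠ 2) (rda : RdaStmt)
    (hlnk : HLnkStmt) (hFq : Fq ℓ V₀ E₀) {B : Bk (FF M) V₀ G} (hB : Sb ℓ M E₀ B)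
    {W : Subgroup V₀} (hW : W ≠ ⊥) : ∃ B' : Bk (FF M) V₀ (B.C W),
    Sb ℓ M (St E₀ W) B' ∧ B'.e = (fun t : B.C W => B.b W t) ∧
    B'.g = (fun t : B.C W => B.g t) ∧ (∀ v, (B'.i v : G) = B.i v) ∧
    ∀ x, x ∉ W → (∀ t : B.C W, t ∈ Cu (B'.i x) ↔ (t : G) ∈ B.C ⊤) ∧
      (∀ t : B.C W, B'.b (Subgroup.zpowers x) t = B.b ⊤ t) ∧
      Lc B'.e B'.i.range B'.g (B'.i x) (B'.b (Subgroup.zpowers x)) := by
  obtain ⟨-, B', hB', he, hg, hi, hb, hC, -, -⟩ := rda ℓ M hM h2 V₀ G E₀ hFq B hB W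
  refine ⟨B', hB', funext he, funext hg, hi, fun x hx => ?_⟩
  have htop : W ⊔ Subgroup.zpowers x = ⊤ := SO.H33.sup_top hFq.cd hW hx
  obtain ⟨hCu, hLc, -⟩ := hlnk ℓ M hM V₀ (St E₀ W) (B.C W) B' hB' x
  refine ⟨fun t => ?_, fun t => ?_, hLc⟩
  · rw [hCu, hC, htop]
  · rw [hb, htop]

omit hℓ [Finite V₀] [Finite G] in
theorem ix_El (hFq : Fq ℓ V₀ E₀) {H : Type} [Group H] (i : V₀ →* H) (x : V₀) : El ℓ (i x) :=
  ⟨1, by rw [pow_one, ← map_pow, hFq.ex, map_one]⟩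

omit [Finite V₀] [Finite G] in
/-- the product of an element of order `ℓ` and a commuting regular element is not regular -/
theorem not_reg_mul {H : Type} [Group H] {u s : H} (hu : u ^ ℓ = 1) (hu1 : u ≠ 1)
    (hc : Commute u s) (hs : Reg ℓ s) : ¬ Reg ℓ (u * s) := by
  intro h
  apply hu1
  unfold Reg at h hs
  have h1 : Commute (u * s) s⁻¹ := (hc.mul_left (Commute.refl s)).inv_right
  have h3 := h1.orderOf_mul_dvd_lcm
  rw [mul_inv_cancel_right, orderOf_inv] at h3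
  have h4 : (orderOf u).Coprime ℓ := by
    refine Nat.Coprime.coprime_dvd_left (h3.trans (Nat.lcm_dvd_mul _ _)) ?_
    exact Nat.Coprime.mul_left h hs
  have h5 : orderOf u ∣ ℓ := orderOf_dvd_of_pow_eq_one hu
  exact orderOf_eq_one_iff.1 (Nat.Coprime.eq_one_of_dvd h4 h5)

end loc

end Pool.Agent.PP.SE.H49
end
end -- Pool.Agent.Helper49_ASE.VXT

section -- Pool.Agent.Helper49_ASE.VXG

/-!
# Squad ASE, row VXG: the values at the elements whose `ℓ`-part is not in `i(W)`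
-/

open scoped BigOperators

set_option autoImplicit false

noncomputable section

namespace Pool.Agent.PP.SE.H49

open Pool.Agent.Helper51_AWC Pool.Agent.Helper79_WRA Pool.Agent.PP Pool.Agent.PP.KF
open Pool.Agent.PP.K9 Pool.Agent.PP.K9.H97 Pool.Agent.PP.H75 Pool.Agent.PP.T3 Pool.Agent.PP.SO
open Pool.Agent.PP.SD
open Pool.Agent.PP.SD.H49 (cnd_bh_mem cnd_bh_off cnd_bh_sing cnd_bh_cl cnd_C_anti cnd_cu_pow)

attribute [local instance] Ideal.Quotient.field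

theorem reg_conj {ℓ : ℕ} {H : Type} [Group H] (u y : H) :
    Reg ℓ (u * y * u⁻¹) ↔ Reg ℓ y := by
  unfold Reg
  have h := orderOf_injective (MulAut.conj u).toMonoidHom (MulAut.conj u).injective y
  have e : (MulAut.conj u).toMonoidHom y = u * y * u⁻¹ := rfl
  rw [e] at h
  rw [h]

theorem reg_coe {ℓ : ℕ} {H : Type} [Group H] {X : Subgroup H} (y : X) :
    Reg ℓ y ↔ Reg ℓ (y : H) := by
  unfold Reg
  rw [Subgroup.orderOf_coe]

section a

variable {ℓ : ℕ} [hℓ : Fact ℓ.Prime] {M : Ideal (integralClosure ℤ ℂ)} [M.IsMaximal]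
  {V₀ G : Type} [CommGroup V₀] [Finite V₀] [Group G] [Finite G] {E₀ : Subgroup (MulAut V₀)}

omit hℓ [Finite V₀] in
/-- the value of an irreducible character at `z ê` -/
theorem fv_eh' {H : Type} [Group H] [Finite H] (e : H → FF M) {χ : H → ℂ}
    (hχ : χ ∈ IrrE M e) (z : H) : T8.fv (eh M e) z χ = χ z := by
  classical
  have := Fintype.ofFinite H
  have h1 : T8.fv (eh M e) z χ = H50.om (eh M e) χ * χ z := by
    unfold T8.fv
    rw [finsum_eq_sum_of_fintype, ← H50.eigen (KF.H25.eh_cl e) hχ.1 z]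
    refine Finset.sum_congr rfl fun t _ => ?_
    congr 1
    have h2 := irr_conj hχ.1 (g := t * z) (h := z)
    rw [← h2]
    congr 1
    group
  rw [h1, (KF.H25.eh_om e hχ.1).1 hχ, one_mul]

omit hℓ [Finite V₀] in
theorem bh_conj (B : Bk (FF M) V₀ G) (z : B.C ⊤) (y : G) :
    bh B ⊤ ((z : G)⁻¹ * y * z) = bh B ⊤ y := by
  by_cases hy : y ∈ B.C ⊤
  · have h := cnd_bh_cl B ⊤ ⟨y, hy⟩ z⁻¹
    have e : (((z⁻¹ * ⟨y, hy⟩ * z⁻¹⁻¹ : B.C ⊤)) : G) = (z : G)⁻¹ * y * z := by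
      rw [inv_inv]
      rfl
    rw [e] at h
    exact h
  · rw [cnd_bh_off B ⊤ hy, cnd_bh_off]
    intro h
    apply hy
    have h3 := (B.C ⊤).mul_mem ((B.C ⊤).mul_mem z.2 h) ((B.C ⊤).inv_mem z.2)
    have e : (z : G) * ((z : G)⁻¹ * y * z) * (z : G)⁻¹ = y := by group
    rwa [e] at h3

omit hℓ [Finite V₀] in
theorem fc_top (B : Bk (FF M) V₀ G) (x : V₀) (g : G) :
    fc B ⊤ x g = bh B ⊤ ((B.i x)⁻¹ * g) := by
  classical
  have := Fintype.ofFinite (B.C ⊤)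
  unfold fc
  rw [top_sup_eq]
  have h1 : ∀ z : B.C ⊤, bh B ⊤ ((B.i x)⁻¹ * ((z : G)⁻¹ * g * z)) =
      bh B ⊤ ((B.i x)⁻¹ * g) := by
    intro z
    rw [← bh_conj B z ((B.i x)⁻¹ * g)]
    congr 1
    have h3 : B.i x * (z : G) = z * B.i x :=
      Subgroup.mem_centralizer_iff.1 z.2 (B.i x) ⟨x, Subgroup.mem_top x, rfl⟩
    have h4 : (B.i x)⁻¹ * (z : G)⁻¹ = (z : G)⁻¹ * (B.i x)⁻¹ := by
      rw [← mul_inv_rev, ← mul_inv_rev, h3]
    calc (B.i x)⁻¹ * ((z : G)⁻¹ * g * z) = (B.i x)⁻¹ * (z : G)⁻¹ * g * z := by group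
      _ = (z : G)⁻¹ * ((B.i x)⁻¹ * g) * z := by rw [h4]; group
  rw [finsum_congr h1, finsum_eq_sum_of_fintype, Finset.sum_const, Finset.card_univ,
    nsmul_eq_mul, Nat.card_eq_fintype_card, ← mul_assoc, inv_mul_cancel₀, one_mul]
  exact_mod_cast Fintype.card_ne_zero

omit [Finite V₀] in
/-- the values of the characters of `g` at the regular elements -/
theorem kap_reg (hM : (ℓ : integralClosure ℤ ℂ) ∈ M) (h2 : ℓ ≠ 2) [Finite V₀] (nsd : NsdStmt)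
    (hFq : Fq ℓ V₀ E₀) {B : Bk (FF M) V₀ G} (hB : Sd ℓ M E₀ B) {κ : B.C ⊤ → ℂ}
    (hκ : κ ∈ IrrE M (fun t : B.C ⊤ => B.b ⊤ t)) {s : B.C ⊤} (hs : Reg ℓ (s : G)) :
    κ s = (Nat.card (B.C ⊤) : ℂ) / (ℓ ^ 2 * B.D ⊤) * bh B ⊤ (s : G)⁻¹ := by
  classical
  obtain ⟨n1, -, -, n4, -⟩ := nsd ℓ M hM h2 V₀ G E₀ hFq B hB ⊤ (rw_top hFq)
  have h1 : (fun t : B.C ⊤ => H75.ext0 (B.C ⊤) κ t) = κ := by
    funext t
    exact H75.ext0_apply _ _ _
  have hχ : H75.ext0 (B.C ⊤) κ ∈ Ch B ⊤ := ⟨H75.ext0_supp _ _, by rw [h1]; exact hκ⟩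
  have h3 := n4 _ hχ s s.2
  rw [H75.ext0_apply] at h3
  rw [h3]
  congr 1
  rw [finsum_eq_single _ (1 : V₀)]
  · rw [ux_top, (n1.1 hχ).1, fc_top, map_one, map_one, inv_one, one_mul]
    simp
  · intro x hx
    rw [fc_top, cnd_bh_sing hM hB.toSb ⊤, mul_zero]
    have hix : (B.i x)⁻¹ ^ ℓ = 1 := by rw [inv_pow, ← map_pow, hFq.ex, map_one, inv_one]
    have hix1 : (B.i x)⁻¹ ≠ 1 := by
      intro h
      apply hx
      rw [inv_eq_one] at h
      exact hB.inj (by rw [h, map_one])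
    have hc : B.i x * (s : G) = s * B.i x :=
      Subgroup.mem_centralizer_iff.1 s.2 (B.i x) ⟨x, Subgroup.mem_top x, rfl⟩
    have hcomm : Commute (B.i x)⁻¹ (s : G)⁻¹ := Commute.inv_inv hc
    refine not_reg_mul hix hix1 hcomm ?_
    unfold Reg
    rw [orderOf_inv]
    exact hs

omit [Finite V₀] in
/-- the functions of the block `g` at the elements `i(x) s`, `s` regular -/
theorem span_val (hM : (ℓ : integralClosure ℤ ℂ) ∈ M) (h2 : ℓ ≠ 2) [Finite V₀]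
    (nsd : NsdStmt) (hFq : Fq ℓ V₀ E₀) {B : Bk (FF M) V₀ G} (hB : Sd ℓ M E₀ B)
    {h : B.C ⊤ → ℂ} (hh : h ∈ Submodule.span ℂ (IrrE M (fun t : B.C ⊤ => B.b ⊤ t)))
    {z s : B.C ⊤} (hz : ∀ c, z * c = c * z) (hs : Reg ℓ (s : G)) :
    h (z * s) = h z * ((Nat.card (B.C ⊤) : ℂ) / (ℓ ^ 2 * B.D ⊤ ^ 2) * bh B ⊤ (s : G)⁻¹) := by
  classical
  have hdg := hB.dg ⊤ (rw_top hFq)
  have hD0 : (B.D ⊤ : ℂ) ≠ 0 := Nat.cast_ne_zero.2 hdg.1.ne'
  have hℓ0 : (ℓ : ℂ) ≠ 0 := Nat.cast_ne_zero.2 hℓ.out.ne_zero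
  induction hh using Submodule.span_induction with
  | mem κ hκ =>
    rw [T3.H98.cent_mul hκ.1 hz, kap_reg hM h2 nsd hFq hB hκ hs, hdg.2 κ hκ]
    field_simp
  | zero => simp
  | add a b _ _ ha hb =>
    rw [Pi.add_apply, Pi.add_apply, ha, hb]
    ring
  | smul c a _ ha =>
    rw [Pi.smul_apply, Pi.smul_apply, ha, smul_eq_mul, smul_eq_mul]
    ring

/-- the values of the section components -/
theorem gv_sec (hM : (ℓ : integralClosure ℤ ℂ) ∈ M) (h2 : ℓ ≠ 2) (nsd : NsdStmt)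
    (hFq : Fq ℓ V₀ E₀) {B : Bk (FF M) V₀ G} (hB : Sd ℓ M E₀ B) {W : Subgroup V₀}
    {χ : G → ℂ} (hχ : (fun t : B.C W => χ t) ∈ Irr (B.C W)) {x : V₀} {s : G}
    (hs : s ∈ B.C ⊤) (hsr : Reg ℓ s) :
    ∑ᶠ r : G, bh B ⊤ r * χ (B.i x * s * r) =
      vx B χ x * ((Nat.card (B.C ⊤) : ℂ) / (ℓ ^ 2 * B.D ⊤) * bh B ⊤ s⁻¹) := by
  classical
  have := Fintype.ofFinite (B.C ⊤)
  have hTW : B.C ⊤ ≤ B.C W := cnd_C_anti B le_top
  have hdg := hB.dg ⊤ (rw_top hFq)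
  have hD0 : (B.D ⊤ : ℂ) ≠ 0 := Nat.cast_ne_zero.2 hdg.1.ne'
  have hℓ0 : (ℓ : ℂ) ≠ 0 := Nat.cast_ne_zero.2 hℓ.out.ne_zero
  have hsp : (fun c : B.C ⊤ => χ c) ∈ Submodule.span ℂ (Irr (B.C ⊤)) := by
    apply T3.H98.span_irr
    intro a b
    exact irr_conj hχ (⟨a, hTW a.2⟩ : B.C W) (⟨b, hTW b.2⟩ : B.C W)
  have hm := T3.H98.mem_span_blk (M := M) (fun t : B.C ⊤ => B.b ⊤ t) (z := 1)
    (fun c => by rw [one_mul, mul_one]) hsp
  obtain ⟨h, hh⟩ : ∃ h : B.C ⊤ → ℂ, h = fun c => ∑ t : B.C ⊤,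
    eh M (fun t : B.C ⊤ => B.b ⊤ t) t * (fun c : B.C ⊤ => χ c) (1 * c * t) := ⟨_, rfl⟩
  rw [← hh] at hm
  have hval : ∀ w : B.C ⊤, ∑ᶠ r : G, bh B ⊤ r * χ ((w : G) * r) = h w := by
    intro w
    rw [H75.sum_sub (B.C ⊤) (fun r : G => bh B ⊤ r * χ ((w : G) * r)) (fun r hr => by
      rw [cnd_bh_off B ⊤ hr, zero_mul]), finsum_eq_sum_of_fintype, hh]
    refine Finset.sum_congr rfl fun t _ => ?_
    rw [cnd_bh_mem, one_mul]
    rfl
  have hix : B.i x ∈ B.C ⊤ := by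
    refine Subgroup.mem_centralizer_iff.2 ?_
    rintro _ ⟨w, _, rfl⟩
    rw [← map_mul, ← map_mul, mul_comm]
  have hz : ∀ c : B.C ⊤, (⟨B.i x, hix⟩ : B.C ⊤) * c = c * ⟨B.i x, hix⟩ := fun c =>
    Subtype.ext (Subgroup.mem_centralizer_iff.1 c.2 (B.i x) ⟨x, Subgroup.mem_top x, rfl⟩)
  have h3 := hval (⟨B.i x, hix⟩ * ⟨s, hs⟩)
  have h4 := hval ⟨B.i x, hix⟩
  rw [span_val hM h2 nsd hFq hB hm hz (s := ⟨s, hs⟩) hsr, ← h4] at h3
  have h5 : ∑ᶠ r : G, bh B ⊤ r * χ (B.i x * r) = B.D ⊤ * vx B χ x := by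
    unfold vx
    rw [mul_div_cancel₀ _ hD0]
  have e1 : (((⟨B.i x, hix⟩ * ⟨s, hs⟩ : B.C ⊤)) : G) = B.i x * s := rfl
  rw [e1] at h3
  rw [h3, h5]
  field_simp

end a

/-- VXG -/
theorem vxg (sec : T6.SecStmt) (rda : SD.RdaStmt) (hlnk : SO.HLnkStmt) (nsd : SD.NsdStmt) :
    VxgStmt := by
  classical
  intro ℓ hℓ M _ hM h2 V₀ G _ _ _ _ E₀ hFq B hB W hW g hg hsing
  have hWb : W ≠ ⊥ := by
    intro h
    have h1 := hW.1
    rw [h, Subgroup.card_bot] at h1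
    exact hℓ.out.one_lt.ne h1
  obtain ⟨B', hB', he, -, hi, hloc⟩ := loc_dat hM h2 rda hlnk hFq hB.toSb hWb
  have hLc : ∀ x : V₀, Lc B'.e B'.i.range B'.g (B'.i x) (B'.b (Subgroup.zpowers x)) :=
    fun x => (hlnk ℓ M hM V₀ (St E₀ W) (B.C W) B' hB' x).2.1
  obtain ⟨b, hb⟩ : ∃ b : B.C W → B.C W → FF M, ∀ x, b (B'.i x) =
      B'.b (Subgroup.zpowers x) := by
    refine ⟨fun v => if h : ∃ x, B'.i x = v then B'.b (Subgroup.zpowers h.choose) else 0, ?_⟩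
    intro x
    have h : ∃ y, B'.i y = B'.i x := ⟨x, rfl⟩
    beta_reduce
    rw [dif_pos h, hB'.inj h.choose_spec]
  have hbL : ∀ v ∈ B'.i.range, Lc B'.e B'.i.range B'.g v (b v) := by
    rintro _ ⟨x, rfl⟩
    rw [hb]
    exact hLc x
  obtain ⟨g', hg'⟩ : ∃ g' : B.C W, g' = ⟨g, hg⟩ := ⟨_, rfl⟩
  have hgg : (g' : G) = g := by rw [hg']
  obtain ⟨K, hK⟩ : ∃ K : ℂ, K = (Nat.card (B.C ⊤) : ℂ) / (ℓ ^ 2 * B.D ⊤) := ⟨_, rfl⟩
  refine ⟨fun x => T6.wt B'.i.range B'.g (B'.i x) * ((Nat.card (Cu (B'.i x)) : ℂ)⁻¹ *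
    ∑ᶠ (u : B.C W) (_ : T5.Lp ℓ (u⁻¹ * g' * u) (B'.i x)),
      K * bh B ⊤ (((B'.i x)⁻¹ * (u⁻¹ * g' * u) : B.C W) : G)⁻¹), ?_⟩
  intro χ hχ
  have hirr := hχ.2.1
  have h1 := sec ℓ M hM (B.C W) B'.e B'.i.range B'.g hB'.ld b hbL (fun t : B.C W => χ t)
    (fun x y => irr_conj hirr x y) g'
  have hχe : (fun t : B.C W => χ t) ∈ IrrE M B'.e := by
    rw [he]
    exact hχ.2
  rw [fv_eh' B'.e hχe g', hgg] at h1
  rw [h1]
  have h3 : ∑ᶠ (v : B.C W) (_ : v ∈ B'.i.range), T6.wt B'.i.range B'.g v *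
      T6.sv M ℓ v (b v) (fun t : B.C W => χ t) g' =
      ∑ᶠ x : V₀, T6.wt B'.i.range B'.g (B'.i x) *
        T6.sv M ℓ (B'.i x) (b (B'.i x)) (fun t : B.C W => χ t) g' := by
    have h4 : ∀ F : B.C W → ℂ, ∑ᶠ (v : B.C W) (_ : v ∈ B'.i.range), F v =
        ∑ᶠ v ∈ Set.range B'.i, F v := by
      intro F
      rfl
    rw [h4, finsum_mem_range hB'.inj]
  rw [h3, finsum_mem_def]
  refine finsum_congr fun x => ?_
  by_cases hx : x ∈ W
  · rw [Set.indicator_of_notMem (by exact fun h => h hx)]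
    have h4 : T6.sv M ℓ (B'.i x) (b (B'.i x)) (fun t : B.C W => χ t) g' = 0 := by
      unfold T6.sv
      have h5 : ∀ u : B.C W, ¬ T5.Lp ℓ (u⁻¹ * g' * u) (B'.i x) := by
        intro u hu
        apply hsing x⁻¹ (W.inv_mem hx)
        have h6 := hu.reg
        have h7 : B'.i x * u = u * B'.i x := by
          apply Subtype.ext
          have h8 := Subgroup.mem_centralizer_iff.1 u.2 (B.i x) ⟨x, hx, rfl⟩
          rw [Subgroup.coe_mul, Subgroup.coe_mul, hi]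
          exact h8
        have h9 : (B'.i x)⁻¹ * (u⁻¹ * g' * u) = u⁻¹ * ((B'.i x)⁻¹ * g') * u⁻¹⁻¹ := by
          have h10 : (B'.i x)⁻¹ * u⁻¹ = u⁻¹ * (B'.i x)⁻¹ := by
            rw [← mul_inv_rev, ← mul_inv_rev, h7]
          rw [inv_inv]
          calc (B'.i x)⁻¹ * (u⁻¹ * g' * u) = (B'.i x)⁻¹ * u⁻¹ * g' * u := by group
            _ = u⁻¹ * ((B'.i x)⁻¹ * g') * u := by rw [h10]; group
        rw [h9, reg_conj, reg_coe] at h6
        have h11 : (((B'.i x)⁻¹ * g' : B.C W) : G) = B.i x⁻¹ * g := by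
          rw [Subgroup.coe_mul, Subgroup.coe_inv, hi, hgg, map_inv]
        rw [h11] at h6
        exact h6
      have h12 : ∑ᶠ (u : B.C W) (_ : T5.Lp ℓ (u⁻¹ * g' * u) (B'.i x)),
          gv M (Cu (B'.i x)) (u⁻¹ * g' * u) (b (B'.i x)) (fun t => χ t) = 0 := by
        rw [← finsum_zero (α := B.C W)]
        refine finsum_congr fun u => ?_
        rw [finsum_eq_if, if_neg (h5 u)]
      rw [h12, mul_zero]
    rw [h4, mul_zero]
  · rw [Set.indicator_of_mem (by exact hx)]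
    obtain ⟨l1, l2, l3⟩ := hloc x hx
    have h4 : T6.sv M ℓ (B'.i x) (b (B'.i x)) (fun t : B.C W => χ t) g' =
        vx B χ x * ((Nat.card (Cu (B'.i x)) : ℂ)⁻¹ *
          ∑ᶠ (u : B.C W) (_ : T5.Lp ℓ (u⁻¹ * g' * u) (B'.i x)),
            K * bh B ⊤ (((B'.i x)⁻¹ * (u⁻¹ * g' * u) : B.C W) : G)⁻¹) := by
      unfold T6.sv
      rw [mul_left_comm]
      congr 1
      rw [mul_finsum]
      refine finsum_congr fun u => ?_
      rw [finsum_eq_if, finsum_eq_if]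
      by_cases hu : T5.Lp ℓ (u⁻¹ * g' * u) (B'.i x)
      swap
      · rw [if_neg hu, if_neg hu, mul_zero]
      rw [if_pos hu, if_pos hu]
      obtain ⟨s, hs⟩ : ∃ s, s = (B'.i x)⁻¹ * (u⁻¹ * g' * u) := ⟨_, rfl⟩
      have hsu : u⁻¹ * g' * u = B'.i x * s := by rw [hs, mul_inv_cancel_left]
      have hreg := hu.reg
      have hcom := hu.com
      rw [← hs] at hreg ⊢
      rw [hsu] at hcom ⊢
      have hsC : s ∈ Cu (B'.i x) := by
        rw [Subgroup.mem_centralizer_singleton_iff]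
        have h5 : B'.i x * (B'.i x * s) = B'.i x * (s * B'.i x) := by
          rw [← mul_assoc (B'.i x) s]
          exact hcom
        exact (mul_left_cancel h5).symm
      rw [reg_coe] at hreg
      rw [hb, vt_gv B W l1 l2 l3.blk.blk.1.1, Subgroup.coe_mul, hi,
        gv_sec hM h2 nsd hFq hB hirr ((l1 s).1 hsC) hreg, hK]
    rw [h4]
    ring

end Pool.Agent.PP.SE.H49
end
end -- Pool.Agent.Helper49_ASE.VXG

section -- Pool.Agent.Helper49_ASE.VXO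

/-!
# Squad ASE, row VXO: orthogonality
-/

open scoped BigOperators

set_option autoImplicit false

noncomputable section

namespace Pool.Agent.PP.SE.H49

open Pool.Agent.Helper51_AWC Pool.Agent.Helper79_WRA Pool.Agent.PP Pool.Agent.PP.KF
open Pool.Agent.PP.K9 Pool.Agent.PP.K9.H97 Pool.Agent.PP.H75 Pool.Agent.PP.T3 Pool.Agent.PP.SO
open Pool.Agent.PP.SD
open Pool.Agent.PP.SD.H49 (cnd_bh_mem cnd_bh_off cnd_bh_sing cnd_C_anti cnd_cu_pow)

attribute [local instance] Ideal.Quotient.field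

section a

variable {ℓ : ℕ} [hℓ : Fact ℓ.Prime] {M : Ideal (integralClosure ℤ ℂ)} [M.IsMaximal]
  {V₀ G : Type} [CommGroup V₀] [Finite V₀] [Group G] [Finite G] {E₀ : Subgroup (MulAut V₀)}

/-- part (1) -/
theorem vxo1 (hM : (ℓ : integralClosure ℤ ℂ) ∈ M) (h2 : ℓ ≠ 2) (rda : RdaStmt)
    (hlnk : HLnkStmt) (smg : T3.SmgStmt) (co1 : T3.Co1Stmt) (co2 : T3.Co2Stmt) (fus : T3.FusStmt)
    (nsd : NsdStmt) (hFq : Fq ℓ V₀ E₀) {B : Bk (FF M) V₀ G} (hB : Sd ℓ M E₀ B)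
    {W : Subgroup V₀} (hW : W ≠ ⊥)
    (hinv : ∀ χ ∈ Ch B W, ∀ τ ∈ St E₀ W, ∀ x, vx B χ (τ x) = vx B χ x)
    {x y : V₀} (hx : x ∉ W) (hy : y ∉ W) :
    ∑ᶠ χ ∈ Ch B W, vx B χ x * starRingEnd ℂ (vx B χ y) =
      (ℓ : ℂ) ^ 2 * {τ : MulAut V₀ | τ ∈ St E₀ W ∧ τ x = y}.ncard := by
  classical
  obtain ⟨B', hB', he, hg, hi, hloc⟩ := loc_dat hM h2 rda hlnk hFq hB.toSb hW
  have hD0 : (B.D ⊤ : ℂ) ≠ 0 := Nat.cast_ne_zero.2 (hB.dg ⊤ (rw_top hFq)).1.ne'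
  have hvx : ∀ z, z ∉ W → ∀ χ : G → ℂ, gv M (Cu (B'.i z)) (B'.i z)
      (B'.b (Subgroup.zpowers z)) (fun t => χ t) = B.D ⊤ * vx B χ z := by
    intro z hz χ
    obtain ⟨h1, h3, h4⟩ := hloc z hz
    rw [vt_gv B W h1 h3 h4.blk.blk.1.1, hi]
    unfold vx
    rw [mul_div_cancel₀ _ hD0]
  have hsum : ∑ᶠ χ ∈ Ch B W, vx B χ x * starRingEnd ℂ (vx B χ y) =
      ∑ᶠ ψ ∈ IrrE M B'.e, ((B.D ⊤ : ℂ) ^ 2)⁻¹ * (gv M (Cu (B'.i x)) (B'.i x)
        (B'.b (Subgroup.zpowers x)) ψ * starRingEnd ℂ (gv M (Cu (B'.i y)) (B'.i y)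
        (B'.b (Subgroup.zpowers y)) ψ)) := by
    rw [he, ← sum_ch B W]
    refine finsum_mem_congr rfl fun χ _ => ?_
    beta_reduce
    rw [hvx x hx, hvx y hy, map_mul, Complex.conj_natCast]
    field_simp
  have hirr : ∑ᶠ ψ ∈ IrrE M B'.e, (gv M (Cu (B'.i x)) (B'.i x)
        (B'.b (Subgroup.zpowers x)) ψ * starRingEnd ℂ (gv M (Cu (B'.i y)) (B'.i y)
        (B'.b (Subgroup.zpowers y)) ψ)) = ∑ᶠ ψ ∈ Irr (B.C W), (gv M (Cu (B'.i x)) (B'.i x)
        (B'.b (Subgroup.zpowers x)) ψ * starRingEnd ℂ (gv M (Cu (B'.i y)) (B'.i y)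
        (B'.b (Subgroup.zpowers y)) ψ)) := by
    apply finsum_mem_inter_support_eq
    ext ψ
    constructor
    · rintro ⟨h1, h3⟩
      exact ⟨h1.1, h3⟩
    · rintro ⟨h1, h3⟩
      refine ⟨?_, h3⟩
      by_contra hn
      apply h3
      have hix1 : B'.i x ≠ 1 := by
        intro h
        apply hx
        have h5 : x = 1 := hB'.inj (by rw [h, map_one])
        rw [h5]
        exact W.one_mem
      have hk := (smg ℓ M hM (B.C W) (B'.i x) 1 hix1 (ix_El hFq B'.i x) (Subgroup.one_mem _)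
        K9.H25.reg_one (fun t : Cu (B'.i x) => B'.b (Subgroup.zpowers x) t)
        (hloc x hx).2.2.blk.ix.idem B'.e hB'.ld.blk.1).1 (hloc x hx).2.2.und ψ h1 hn
      rw [mul_one] at hk
      change gv M (Cu (B'.i x)) (B'.i x) (B'.b (Subgroup.zpowers x)) ψ * _ = 0
      have hk' : gv M (Cu (B'.i x)) (B'.i x) (B'.b (Subgroup.zpowers x)) ψ = 0 := hk
      rw [hk', zero_mul]
  by_cases hτ : ∃ τ ∈ St E₀ W, τ x = y
  · obtain ⟨τ₀, hτ₀, rfl⟩ := hτ
    have h1 : {τ : MulAut V₀ | τ ∈ St E₀ W ∧ τ x = τ₀ x} = {τ₀} := by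
      ext τ
      constructor
      · rintro ⟨h3, h4⟩
        apply MulEquiv.ext
        intro v
        obtain ⟨k, w, hw, rfl⟩ := SO.H33.decomp hFq.ex hFq.cd hW hx v
        rw [map_mul, map_pow, map_mul, map_pow, h4, h3.2 w hw, hτ₀.2 w hw]
      · rintro rfl
        exact ⟨hτ₀, rfl⟩
    rw [h1, Set.ncard_singleton, Nat.cast_one, mul_one]
    have h3 : ∑ᶠ χ ∈ Ch B W, vx B χ x * starRingEnd ℂ (vx B χ (τ₀ x)) =
        ∑ᶠ χ ∈ Ch B W, vx B χ x * starRingEnd ℂ (vx B χ x) := by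
      refine finsum_mem_congr rfl fun χ hχ => ?_
      rw [hinv χ hχ τ₀ hτ₀]
    clear hsum hirr
    have hsum : ∑ᶠ χ ∈ Ch B W, vx B χ x * starRingEnd ℂ (vx B χ x) =
        ∑ᶠ ψ ∈ IrrE M B'.e, ((B.D ⊤ : ℂ) ^ 2)⁻¹ * (gv M (Cu (B'.i x)) (B'.i x)
          (B'.b (Subgroup.zpowers x)) ψ * starRingEnd ℂ (gv M (Cu (B'.i x)) (B'.i x)
          (B'.b (Subgroup.zpowers x)) ψ)) := by
      rw [he, ← sum_ch B W]
      refine finsum_mem_congr rfl fun χ _ => ?_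
      beta_reduce
      rw [hvx x hx, map_mul, Complex.conj_natCast]
      field_simp
    have hirr : ∑ᶠ ψ ∈ IrrE M B'.e, (gv M (Cu (B'.i x)) (B'.i x)
          (B'.b (Subgroup.zpowers x)) ψ * starRingEnd ℂ (gv M (Cu (B'.i x)) (B'.i x)
          (B'.b (Subgroup.zpowers x)) ψ)) = ∑ᶠ ψ ∈ Irr (B.C W), (gv M (Cu (B'.i x)) (B'.i x)
          (B'.b (Subgroup.zpowers x)) ψ * starRingEnd ℂ (gv M (Cu (B'.i x)) (B'.i x)
          (B'.b (Subgroup.zpowers x)) ψ)) := by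
      apply finsum_mem_inter_support_eq
      ext ψ
      constructor
      · rintro ⟨h1, h3⟩
        exact ⟨h1.1, h3⟩
      · rintro ⟨h1, h3⟩
        refine ⟨?_, h3⟩
        by_contra hn
        apply h3
        have hix1 : B'.i x ≠ 1 := by
          intro h
          apply hx
          have h5 : x = 1 := hB'.inj (by rw [h, map_one])
          rw [h5]
          exact W.one_mem
        have hk := (smg ℓ M hM (B.C W) (B'.i x) 1 hix1 (ix_El hFq B'.i x) (Subgroup.one_mem _)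
          K9.H25.reg_one (fun t : Cu (B'.i x) => B'.b (Subgroup.zpowers x) t)
          (hloc x hx).2.2.blk.ix.idem B'.e hB'.ld.blk.1).1 (hloc x hx).2.2.und ψ h1 hn
        rw [mul_one] at hk
        change gv M (Cu (B'.i x)) (B'.i x) (B'.b (Subgroup.zpowers x)) ψ * _ = 0
        have hk' : gv M (Cu (B'.i x)) (B'.i x) (B'.b (Subgroup.zpowers x)) ψ = 0 := hk
        rw [hk', zero_mul]
    rw [h3, hsum, ← mul_finsum_mem, hirr,
      co1 ℓ M hM (B.C W) (B'.i x) (ix_El hFq B'.i x) _ (hloc x hx).2.2.blk.ix]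
    obtain ⟨l1, l2, l3⟩ := hloc x hx
    have hn := (nsd ℓ M hM h2 V₀ G E₀ hFq B hB ⊤ (rw_top hFq)).2.2.2.2.2.2
    have h5 := vt_eh B W l1 l2 l3.blk.blk.1.1 1
    have h6 : eh M (fun t : Cu (B'.i x) => B'.b (Subgroup.zpowers x) t) 1 =
        (Nat.card (Cu (B'.i x)) : ℂ)⁻¹ *
          ∑ᶠ κ ∈ IrrE M (fun t : Cu (B'.i x) => B'.b (Subgroup.zpowers x) t), κ 1 ^ 2 := by
      unfold eh
      congr 1
      refine finsum_mem_congr rfl fun κ _ => ?_
      rw [inv_one, sq]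
    have h7 : Nat.card (Cu (B'.i x)) = Nat.card (B.C ⊤) := Nat.card_congr (cuE B W l1).toEquiv
    have h8 : (((1 : Cu (B'.i x)) : B.C W) : G) = 1 := rfl
    rw [h6, h7, h8, hn] at h5
    have hC0 : (Nat.card (B.C ⊤) : ℂ) ≠ 0 := by exact_mod_cast Nat.card_pos.ne'
    have h9 : ∑ᶠ κ ∈ IrrE M (fun t : Cu (B'.i x) => B'.b (Subgroup.zpowers x) t), κ 1 ^ 2 =
        (ℓ : ℂ) ^ 2 * B.D ⊤ ^ 2 := by
      field_simp at h5
      exact h5
    rw [h9]
    field_simp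
  · have h1 : {τ : MulAut V₀ | τ ∈ St E₀ W ∧ τ x = y} = ∅ := by
      ext τ
      constructor
      · rintro ⟨h3, h4⟩
        exact hτ ⟨τ, h3, h4⟩
      · rintro ⟨⟩
    rw [h1, Set.ncard_empty, Nat.cast_zero, mul_zero, hsum,
      ← mul_finsum_mem, hirr]
    have key := co2 ℓ M hM (B.C W) (B'.i x) (B'.i y) (ix_El hFq B'.i x) (ix_El hFq B'.i y)
      (B'.b (Subgroup.zpowers x)) (B'.b (Subgroup.zpowers y)) (hloc x hx).2.2.blk.ix
      (hloc y hy).2.2.blk.ix (by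
        intro h hh
        obtain ⟨l1, l2, l3⟩ := hloc x hx
        obtain ⟨m1, m2, m3⟩ := hloc y hy
        have hcu : Cu (B'.i y) = Cu (B'.i x) := by
          ext t
          rw [l1, m1]
        have hnor : h ∈ Subgroup.normalizer ((Cu (B'.i x) : Subgroup (B.C W)) :
            Set (B.C W)) := by
          rw [Subgroup.mem_normalizer_iff]
          intro t
          have h3 : t ∈ Cu (B'.i x) ↔ t ∈ Cu (B'.i y) := by rw [hcu]
          change t ∈ Cu (B'.i x) ↔ h * t * h⁻¹ ∈ Cu (B'.i x)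
          rw [h3, Subgroup.mem_centralizer_singleton_iff, Subgroup.mem_centralizer_singleton_iff,
            ← hh]
          constructor
          · intro h4
            calc h * t * h⁻¹ * (h * B'.i y * h⁻¹) = h * (t * B'.i y) * h⁻¹ := by group
              _ = h * (B'.i y * t) * h⁻¹ := by rw [h4]
              _ = h * B'.i y * h⁻¹ * (h * t * h⁻¹) := by group
          · intro h4
            have h5 : h * (t * B'.i y) * h⁻¹ = h * (B'.i y * t) * h⁻¹ := by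
              calc h * (t * B'.i y) * h⁻¹ = h * t * h⁻¹ * (h * B'.i y * h⁻¹) := by group
                _ = h * B'.i y * h⁻¹ * (h * t * h⁻¹) := h4
                _ = h * (B'.i y * t) * h⁻¹ := by group
            exact mul_left_cancel (mul_right_cancel h5)
        have hby : Bx (Cu (B'.i x)) (B'.b (Subgroup.zpowers y)) := by
          rw [← hcu]
          exact m3.blk
        rcases l3.blk.dich (hby.cj hnor) with h3 | h3
        · exfalso
          obtain ⟨t, ht, ht2⟩ := fus ℓ M hM (B.C W) B'.e B'.i.range B'.g hB'.ld (B'.i x)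
            ⟨x, rfl⟩ (B'.i y) ⟨y, rfl⟩ _ _ l3 m3 h hh h3.symm
          obtain ⟨σ, hσ, hσ2⟩ := hB'.act t ht
          rw [hσ2] at ht2
          have h4 : σ y = x := hB'.inj ht2
          refine hτ ⟨σ⁻¹, (St E₀ W).inv_mem hσ, ?_⟩
          rw [← h4]
          exact MulAut.inv_apply_self V₀ σ y
        · exact h3)
    rw [key, mul_zero]

/-- part (2) -/
theorem vxo2 (hM : (ℓ : integralClosure ℤ ℂ) ∈ M) (h2 : ℓ ≠ 2) (rda : RdaStmt)
    (hlnk : HLnkStmt) (wbo : K9.WboStmt) (hFq : Fq ℓ V₀ E₀) {B : Bk (FF M) V₀ G}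
    (hB : Sd ℓ M E₀ B) {W : Subgroup V₀} (hW : W ≠ ⊥) {g : G} (hg : g ∈ B.C W)
    (hgr : Reg ℓ g) {x : V₀} (hx : x ∉ W) :
    ∑ᶠ χ ∈ Ch B W, χ g * starRingEnd ℂ (vx B χ x) = 0 := by
  classical
  have := Fintype.ofFinite G
  obtain ⟨B', hB', he, -, hi, hloc⟩ := loc_dat hM h2 rda hlnk hFq hB.toSb hW
  have hid : IsIdem (fun t : B.C W => B.b W t) := (hB.lb W).blk.blk.1
  have hreg : ∀ t : B.C W, Reg ℓ t ↔ Reg ℓ (t : G) := by
    intro t
    unfold Reg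
    rw [Subgroup.orderOf_coe]
  have hix : B.i x ^ ℓ = 1 := by rw [← map_pow, hFq.ex, map_one]
  have hix1 : B.i x ≠ 1 := by
    intro h
    apply hx
    have h5 : x = 1 := hB.inj (by rw [h, map_one])
    rw [h5]
    exact W.one_mem
  have hCi : B.i x ∈ B.C W := by
    rw [← hi x]
    exact (B'.i x).2
  have hexp : ∀ χ : G → ℂ, χ g * starRingEnd ℂ (vx B χ x) =
      ∑ s : G, (starRingEnd ℂ (bh B ⊤ s) / B.D ⊤) *
        (χ g * starRingEnd ℂ (χ (B.i x * s))) := by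
    intro χ
    unfold vx
    rw [finsum_eq_sum_of_fintype, map_div₀, map_sum, Complex.conj_natCast, Finset.sum_div,
      Finset.mul_sum]
    refine Finset.sum_congr rfl fun s _ => ?_
    rw [map_mul]
    ring
  rw [finsum_mem_congr rfl fun χ _ => hexp χ,
    finsum_mem_eq_finite_toFinset_sum _ (ch_fin B W), Finset.sum_comm]
  refine Finset.sum_eq_zero fun s _ => ?_
  by_cases hs0 : bh B ⊤ s = 0
  · refine Finset.sum_eq_zero fun χ _ => ?_
    rw [hs0, map_zero, zero_div, zero_mul]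
  have hsC : s ∈ B.C ⊤ := by
    by_contra h
    exact hs0 (cnd_bh_off B ⊤ h)
  have hsR : Reg ℓ s := by
    by_contra h
    exact hs0 (cnd_bh_sing hM hB.toSb ⊤ h)
  have hcomm : Commute (B.i x) s := by
    have h1 := Subgroup.mem_centralizer_iff.1 hsC (B.i x) ⟨x, Subgroup.mem_top x, rfl⟩
    exact h1
  have hsing : ¬ Reg ℓ (B.i x * s) := not_reg_mul hix hix1 hcomm hsR
  have hsW : s ∈ B.C W := cnd_C_anti B le_top hsC
  obtain ⟨h, hh⟩ : ∃ h : B.C W, h = ⟨B.i x * s, (B.C W).mul_mem hCi hsW⟩ := ⟨_, rfl⟩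
  have hsing' : ¬ Reg ℓ h⁻¹ := by
    intro h1
    apply hsing
    unfold Reg at h1 ⊢
    rw [orderOf_inv, ← Subgroup.orderOf_coe, hh] at h1
    exact h1
  have hg' : Reg ℓ (⟨g, hg⟩ : B.C W)⁻¹ := by
    unfold Reg
    rw [orderOf_inv, ← Subgroup.orderOf_coe]
    exact hgr
  rw [← Finset.mul_sum, ← finsum_mem_eq_finite_toFinset_sum (fun χ : G → ℂ =>
    χ g * starRingEnd ℂ (χ (B.i x * s))) (ch_fin B W)]
  have h3 : ∑ᶠ χ ∈ Ch B W, χ g * starRingEnd ℂ (χ (B.i x * s)) =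
      ∑ᶠ χ ∈ Ch B W, (fun ψ : B.C W → ℂ => ψ ⟨g, hg⟩ * starRingEnd ℂ (ψ h))
        (fun t : B.C W => χ t) := by
    refine finsum_mem_congr rfl fun χ _ => ?_
    rw [hh]
  rw [h3, sum_ch B W (fun ψ : B.C W → ℂ => ψ ⟨g, hg⟩ * starRingEnd ℂ (ψ h))]
  have h4 := wbo ℓ M hM (B.C W) _ hid (⟨g, hg⟩ : B.C W)⁻¹ h⁻¹ hg' hsing'
  have h5 : ∑ᶠ ψ ∈ IrrE M (fun t : B.C W => B.b W t), (fun ψ : B.C W → ℂ =>
      ψ ⟨g, hg⟩ * starRingEnd ℂ (ψ h)) ψ = 0 := by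
    rw [← h4]
    refine finsum_mem_congr rfl fun ψ hψ => ?_
    rw [inv_inv, H94.irr_star hψ.1]
  rw [h5, mul_zero]

/-- Fourier transform on `W` -/
theorem iv_four {B : Bk (FF M) V₀ G} {W : Subgroup V₀} (hcW : Nat.card W = ℓ)
    (hnu : ∀ χ ∈ Ch B W, ∃ ν' ∈ lin V₀, ∀ w ∈ W, nu B χ w = ν' w) {ν : V₀ → ℂ}
    (hν : ν ∈ lin V₀) (f : (G → ℂ) → ℂ) :
    (ℓ : ℂ) * ∑ᶠ χ ∈ Iv B W ν, f χ =
      ∑ᶠ w : W, ν (w : V₀)⁻¹ * ∑ᶠ χ ∈ Ch B W, nu B χ w * f χ := by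
  classical
  have := Fintype.ofFinite W
  have hS := ch_fin B W
  have hI : (Iv B W ν).Finite := hS.subset fun χ h => h.1
  have hL : SO.H33.Ln (fun w : W => ν w) := ⟨hν.1, fun v w => hν.2 v w⟩
  have hkey : ∀ χ ∈ Ch B W, ∑ w : W, ν (w : V₀)⁻¹ * nu B χ w =
      if χ ∈ Iv B W ν then (ℓ : ℂ) else 0 := by
    intro χ hχ
    obtain ⟨ν', hν', h1⟩ := hnu χ hχ
    have hL' : SO.H33.Ln (fun w : W => ν' w) := ⟨hν'.1, fun v w => hν'.2 v w⟩
    by_cases hin : χ ∈ Iv B W ν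
    · rw [if_pos hin]
      have h3 : ∀ w : W, ν (w : V₀)⁻¹ * nu B χ w = 1 := by
        intro w
        rw [hin.2 w w.2, ← hν.2, inv_mul_cancel, hν.1]
      rw [Finset.sum_congr rfl fun w _ => h3 w, Finset.sum_const, Finset.card_univ,
        ← Nat.card_eq_fintype_card, hcW, nsmul_eq_mul, mul_one]
    · rw [if_neg hin]
      have hne : (fun w : W => ν w) ≠ fun w : W => ν' w := by
        intro h
        apply hin
        refine ⟨hχ, fun w hw => ?_⟩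
        rw [h1 w hw]
        exact (congrFun h ⟨w, hw⟩).symm
      rw [← hL.orth hL' hne]
      refine Finset.sum_congr rfl fun w _ => ?_
      rw [h1 w w.2]
      rfl
  have hsub : (Iv B W ν) = {χ | χ ∈ Ch B W ∧ χ ∈ Iv B W ν} := by
    ext χ
    exact ⟨fun h => ⟨h.1, h⟩, fun h => h.2⟩
  have h1 : ∑ᶠ χ ∈ Iv B W ν, f χ = ∑ χ ∈ hS.toFinset, if χ ∈ Iv B W ν then f χ else 0 := by
    rw [← Finset.sum_filter, finsum_mem_eq_finite_toFinset_sum _ hI]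
    refine Finset.sum_congr ?_ fun _ _ => rfl
    ext χ
    rw [Set.Finite.mem_toFinset, Finset.mem_filter, Set.Finite.mem_toFinset]
    exact ⟨fun h => ⟨h.1, h⟩, fun h => h.2⟩
  rw [h1, finsum_eq_sum_of_fintype, Finset.mul_sum]
  have h3 : ∀ w : W, ν (w : V₀)⁻¹ * ∑ᶠ χ ∈ Ch B W, nu B χ w * f χ =
      ∑ χ ∈ hS.toFinset, ν (w : V₀)⁻¹ * nu B χ w * f χ := by
    intro w
    rw [finsum_mem_eq_finite_toFinset_sum _ hS, Finset.mul_sum]
    refine Finset.sum_congr rfl fun χ _ => ?_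
    rw [mul_assoc]
  rw [Finset.sum_congr rfl fun w _ => h3 w, Finset.sum_comm]
  refine Finset.sum_congr rfl fun χ hχ => ?_
  rw [← Finset.sum_mul, hkey χ (hS.mem_toFinset.1 hχ)]
  split_ifs
  · rfl
  · rw [mul_zero, zero_mul]

end a

/-- VXO -/
theorem vxo (gea : GeaStmt) (vxm : VxmStmt) (rda : SD.RdaStmt) (hlnk : SO.HLnkStmt)
    (smg : T3.SmgStmt) (co1 : T3.Co1Stmt) (co2 : T3.Co2Stmt) (fus : T3.FusStmt)
    (wbo : K9.WboStmt) (nsd : SD.NsdStmt) : VxoStmt := by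
  classical
  intro ℓ hℓ M _ hM h2 V₀ G _ _ _ _ E₀ hFq B hB W hW
  have hRL := hW
  obtain ⟨⟨-, -, -, -, g5, -, g7, -⟩, -, -, -, -, -, g12, -⟩ := gea ℓ V₀ E₀ hFq W hW
  have hv := fun χ hχ => (vxm ℓ M hM h2 V₀ G E₀ hFq B hB W hW χ hχ).2.1
  have hinv : ∀ χ ∈ Ch B W, ∀ τ ∈ St E₀ W, ∀ x, vx B χ (τ x) = vx B χ x :=
    fun χ hχ => (hv χ hχ).2.2.1
  have hnu : ∀ χ ∈ Ch B W, ∃ ν' ∈ lin V₀, ∀ w ∈ W, nu B χ w = ν' w := by
    intro χ hχ
    obtain ⟨ν', h1, h3⟩ := (hv χ hχ).2.2.2.1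
    exact ⟨ν', h1.1, h3.2⟩
  have P1 := fun x (hx : x ∉ W) y (hy : y ∉ W) =>
    vxo1 hM h2 rda hlnk smg co1 co2 fus nsd hFq hB g7 hinv hx hy
  have P2 := fun g (hg : g ∈ B.C W) (hgr : Reg ℓ g) x (hx : x ∉ W) =>
    vxo2 hM h2 rda hlnk wbo hFq hB g7 hg hgr hx
  have hk : ∀ x ∈ kW E₀ W, x ≠ 1 → ∀ w ∈ W, w * x ∉ W := by
    intro x hx hx1 w hw h
    apply hx1
    have h3 : x ∈ W := by
      have h4 := W.mul_mem (W.inv_mem hw) h
      rwa [inv_mul_cancel_left] at h4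
    have h5 : x ∈ W ⊓ kW E₀ W := ⟨h3, hx⟩
    rw [g5] at h5
    exact Subgroup.mem_bot.1 h5
  have hℓ0 : (ℓ : ℂ) ≠ 0 := Nat.cast_ne_zero.2 hℓ.out.ne_zero
  refine ⟨P1, P2, ?_, ?_⟩
  · intro ν hν x hx hx1 y hy hy1
    apply mul_left_cancel₀ hℓ0
    rw [iv_four hRL.1 hnu hν.1]
    have := Fintype.ofFinite W
    rw [finsum_eq_sum_of_fintype, Finset.sum_eq_single 1]
    · have h3 : ∑ᶠ χ ∈ Ch B W, nu B χ ((1 : W) : V₀) *
          (vx B χ x * starRingEnd ℂ (vx B χ y)) =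
          ∑ᶠ χ ∈ Ch B W, vx B χ x * starRingEnd ℂ (vx B χ y) := by
        refine finsum_mem_congr rfl fun χ hχ => ?_
        have h4 := (hv χ hχ).1 1 W.one_mem x
        rw [one_mul] at h4
        rw [← mul_assoc]
        change nu B χ 1 * vx B χ x * _ = _
        rw [← h4]
      rw [h3, P1 x (fun h => hk x hx hx1 1 W.one_mem (by rw [one_mul]; exact h)) y
        (fun h => hk y hy hy1 1 W.one_mem (by rw [one_mul]; exact h))]
      have h5 : ν (((1 : W) : V₀))⁻¹ = 1 := by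
        rw [Subgroup.coe_one, inv_one, hν.1.1]
      rw [h5]
      ring
    · intro w _ hw
      have h3 : ∑ᶠ χ ∈ Ch B W, nu B χ (w : V₀) *
          (vx B χ x * starRingEnd ℂ (vx B χ y)) =
          ∑ᶠ χ ∈ Ch B W, vx B χ (w * x) * starRingEnd ℂ (vx B χ y) := by
        refine finsum_mem_congr rfl fun χ hχ => ?_
        rw [(hv χ hχ).1 w w.2 x, mul_assoc]
      rw [h3, P1 _ (hk x hx hx1 w w.2) y
        (fun h => hk y hy hy1 1 W.one_mem (by rw [one_mul]; exact h))]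
      have h4 : {τ : MulAut V₀ | τ ∈ St E₀ W ∧ τ ((w : V₀) * x) = y} = ∅ := by
        ext τ
        constructor
        · rintro ⟨h5, h6⟩
          exfalso
          apply hw
          rw [map_mul, h5.2 w w.2] at h6
          have h7 : (w : V₀) ∈ kW E₀ W := by
            have h8 : (w : V₀) = y * (τ x)⁻¹ := by rw [← h6, mul_inv_cancel_right]
            rw [h8]
            exact (kW E₀ W).mul_mem hy ((kW E₀ W).inv_mem (g12 τ h5 x hx).1)
          have h9 : (w : V₀) ∈ W ⊓ kW E₀ W := ⟨w.2, h7⟩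
          rw [g5] at h9
          exact Subtype.ext (Subgroup.mem_bot.1 h9)
        · rintro ⟨⟩
      rw [h4, Set.ncard_empty, Nat.cast_zero, mul_zero, mul_zero]
    · intro h
      exact absurd (Finset.mem_univ _) h
  · intro ν hν g hg hgr x hx hx1
    have h3 : (ℓ : ℂ) * ∑ᶠ χ ∈ Iv B W ν, χ g * starRingEnd ℂ (vx B χ x) = 0 := by
      rw [iv_four hRL.1 hnu hν.1]
      have h4 : ∀ w : W, ν (w : V₀)⁻¹ * ∑ᶠ χ ∈ Ch B W, nu B χ w *
          (χ g * starRingEnd ℂ (vx B χ x)) = 0 := by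
        intro w
        have h5 : ∑ᶠ χ ∈ Ch B W, nu B χ w * (χ g * starRingEnd ℂ (vx B χ x)) =
            ∑ᶠ χ ∈ Ch B W, χ g * starRingEnd ℂ (vx B χ ((w : V₀)⁻¹ * x)) := by
          refine finsum_mem_congr rfl fun χ hχ => ?_
          have h6 := ((hv χ hχ).2.2.2.2.2 _ (W.inv_mem w.2)).1
          rw [inv_inv] at h6
          rw [(hv χ hχ).1 _ (W.inv_mem w.2) x, map_mul, h6]
          ring
        rw [h5, P2 g hg hgr _ (hk x hx hx1 _ (W.inv_mem w.2)), mul_zero]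
      rw [finsum_congr h4, finsum_zero]
    exact (mul_eq_zero.1 h3).resolve_left hℓ0

end Pool.Agent.PP.SE.H49
end
end -- Pool.Agent.Helper49_ASE.VXO

section -- Pool.Agent.Helper81_ASE.XEM

/-!
# Row XEM of squad ASE: the sums without conditions
-/

set_option autoImplicit false

open scoped BigOperators

noncomputable section

namespace Pool.Agent.PP.SE.H81

open Pool.Agent.Helper51_AWC Pool.Agent.Helper79_WRA Pool.Agent.PP Pool.Agent.PP.KF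
open Pool.Agent.PP.K9 Pool.Agent.PP.K9.H97 Pool.Agent.PP.H75 Pool.Agent.PP.T3 Pool.Agent.PP.SO
open Pool.Agent.PP.SD Pool.Agent.PP.SE

attribute [local instance] Ideal.Quotient.field

section gen

variable {G : Type} [Group G]

theorem irr_sum [Finite G] [Fintype (Irr G)] (f : (G → ℂ) → ℂ) :
    ∑ᶠ χ ∈ Irr G, f χ = ∑ θ : Irr G, f (θ : G → ℂ) := by
  rw [← finsum_set_coe_eq_finsum_mem (s := Irr G) (f := f), finsum_eq_sum_of_fintype]

theorem kap_frob [Fintype G] [Fintype (Irr G)] (g : G) :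
    (({w : G × G | SO.kap w.1 w.2 = g}.ncard : ℕ) : ℂ) =
      ∑ θ : Irr G, (Nat.card G : ℂ) * ((θ : G → ℂ) g / (θ : G → ℂ) 1) := by
  rw [SO.H65.kap_ncard, SO.H65.frobS]

theorem kap_cls [Fintype G] (g x : G) :
    (({w : G × G | SO.kap w.1 w.2 = x * g * x⁻¹}.ncard : ℕ) : ℂ) =
      (({w : G × G | SO.kap w.1 w.2 = g}.ncard : ℕ) : ℂ) := by
  classical
  have : Fintype (Irr G) := Fintype.ofFinite _
  rw [kap_frob, kap_frob]
  exact Finset.sum_congr rfl fun θ _ => by rw [irr_conj θ.2]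

theorem sum_kap [Fintype G] [Fintype (Irr G)] (z : G → ℂ) :
    (Nat.card G : ℂ)⁻¹ * ∑ᶠ g, z g * (({w : G × G | SO.kap w.1 w.2 = g}.ncard : ℕ) : ℂ) =
      ∑ θ : Irr G, SO.cv z (θ : G → ℂ) := by
  classical
  have hG : (Nat.card G : ℂ) ≠ 0 := by
    rw [Nat.card_eq_fintype_card]
    exact_mod_cast Fintype.card_ne_zero
  rw [finsum_eq_sum_of_fintype]
  have h1 : ∀ g, z g * (({w : G × G | SO.kap w.1 w.2 = g}.ncard : ℕ) : ℂ) =
      ∑ θ : Irr G, (Nat.card G : ℂ) * (z g * (θ : G → ℂ) g / (θ : G → ℂ) 1) := by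
    intro g
    rw [kap_frob, Finset.mul_sum]
    refine Finset.sum_congr rfl fun θ _ => ?_
    ring
  rw [Finset.sum_congr rfl fun g _ => h1 g, Finset.sum_comm, Finset.mul_sum]
  refine Finset.sum_congr rfl fun θ _ => ?_
  unfold SO.cv
  rw [← Finset.mul_sum, ← Finset.sum_div, finsum_eq_sum_of_fintype, ← mul_assoc,
    inv_mul_cancel₀ hG, one_mul]

theorem sum_avg_all [Fintype G] (k : ℂ) (φ χ : G → ℂ)
    (hχ : ∀ g h : G, χ (h * g * h⁻¹) = χ g) :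
    ∑ᶠ g, (k * ∑ᶠ z : G, φ (z⁻¹ * g * z)) * χ g = k * ((Nat.card G : ℂ) * ∑ᶠ h, φ h * χ h) := by
  classical
  have h0 : ∀ g, (k * ∑ᶠ z : G, φ (z⁻¹ * g * z)) * χ g =
      ∑ z : G, k * (φ (z⁻¹ * g * z) * χ g) := by
    intro g
    rw [finsum_eq_sum_of_fintype, Finset.mul_sum, Finset.sum_mul]
    exact Finset.sum_congr rfl fun z _ => by ring
  rw [finsum_congr h0, finsum_eq_sum_of_fintype, Finset.sum_comm]
  have h1 : ∀ z : G, ∑ g : G, k * (φ (z⁻¹ * g * z) * χ g) = k * ∑ᶠ h, φ h * χ h := by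
    intro z
    rw [← Finset.mul_sum, finsum_eq_sum_of_fintype]
    congr 1
    rw [← Equiv.sum_comp (MulAut.conj z).toEquiv]
    refine Finset.sum_congr rfl fun h _ => ?_
    show φ (z⁻¹ * (z * h * z⁻¹) * z) * χ (z * h * z⁻¹) = φ h * χ h
    rw [hχ]
    congr 2
    group
  rw [Finset.sum_congr rfl fun z _ => h1 z, Finset.sum_const, Finset.card_univ,
    ← Nat.card_eq_fintype_card, nsmul_eq_mul]
  ring

theorem avg_cls (k : ℂ) (φ : G → ℂ) (x g : G) :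
    k * ∑ᶠ z : G, φ (z⁻¹ * (x * g * x⁻¹) * z) = k * ∑ᶠ z : G, φ (z⁻¹ * g * z) := by
  congr 1
  rw [← finsum_comp_equiv (Equiv.mulLeft x)]
  refine finsum_congr fun z => ?_
  show φ ((x * z)⁻¹ * (x * g * x⁻¹) * (x * z)) = φ (z⁻¹ * g * z)
  congr 1
  group

end gen

section blk

variable {V₀ G : Type} [CommGroup V₀] [Group G] {M : Ideal (integralClosure ℤ ℂ)} [M.IsMaximal]

theorem fc_one [Finite G] (B : Bk (FF M) V₀ G) (W : Subgroup V₀) : fc B W 1 = bh B W := by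
  funext g
  have h1 : W ⊔ Subgroup.zpowers (1 : V₀) = W := by
    rw [Subgroup.zpowers_one_eq_bot, sup_bot_eq]
  unfold fc
  rw [h1]
  have := Fintype.ofFinite (B.C W)
  have h2 : ∀ z : B.C W, bh B W ((B.i 1)⁻¹ * ((z : G)⁻¹ * g * z)) = bh B W g := by
    intro z
    rw [map_one, inv_one, one_mul]
    by_cases hg : g ∈ B.C W
    · have h3 := SD.H49.cnd_bh_cl B W ⟨g, hg⟩ z⁻¹
      have h4 : ((z⁻¹ * ⟨g, hg⟩ * z⁻¹⁻¹ : B.C W) : G) = (z : G)⁻¹ * g * z := by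
        show (z : G)⁻¹ * g * ((z : G)⁻¹)⁻¹ = _
        rw [inv_inv]
      rw [h4] at h3
      exact h3
    · rw [SD.H49.cnd_bh_off B W hg, SD.H49.cnd_bh_off B W]
      intro h
      apply hg
      have h5 := (B.C W).mul_mem ((B.C W).mul_mem z.2 h) ((B.C W).inv_mem z.2)
      have h6 : (z : G) * ((z : G)⁻¹ * g * z) * (z : G)⁻¹ = g := by group
      rwa [h6] at h5
  rw [finsum_congr h2, finsum_eq_sum_of_fintype, Finset.sum_const, Finset.card_univ,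
    ← Nat.card_eq_fintype_card, nsmul_eq_mul, ← mul_assoc, inv_mul_cancel₀, one_mul]
  rw [Nat.card_eq_fintype_card]
  exact_mod_cast Fintype.card_ne_zero

theorem cv_bh [Finite G] (B : Bk (FF M) V₀ G) (W : Subgroup V₀) {ψ : G → ℂ} (hψ : ψ ∈ Ch B W) :
    SO.cv (bh B W) ψ = 1 := by
  classical
  have := Fintype.ofFinite G
  have := Fintype.ofFinite (B.C W)
  unfold SO.cv bh
  rw [SO.H32.sum_ext0, finsum_eq_sum_of_fintype,
    K9.H25.eh_chv M _ hψ.2.1, if_pos hψ.2]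
  exact div_self (irr_one_ne (χ := fun t : B.C W => ψ t) hψ.2.1)

end blk

theorem xem (smg : T3.SmgStmt) (hCzb : CzbStmt) : XemStmt := by
  intro ℓ _ M _ hM hl2 V₀ G _ _ _ _ E₀ hFq B hSb D hRs
  classical
  have := Fintype.ofFinite G
  have : Fintype (Irr G) := Fintype.ofFinite _
  obtain ⟨hA, -, -⟩ := SO.H65.wze smg ℓ M hM V₀ G E₀ hFq.ex B hSb
  have hCb : Nat.card (B.C ⊥) = Nat.card G := by
    rw [SO.H32.C_bot B, Subgroup.card_top]
  have hne : ∀ a ∈ RL ℓ E₀, a ≠ ⊥ := by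
    intro a ha h
    have h1 := ha.1
    rw [h, Subgroup.card_bot] at h1
    exact (Fact.out : ℓ.Prime).one_lt.ne h1
  have hetl : ∀ a ∈ RL ℓ E₀, ∀ κ, etl B D a κ ⊥ = fun g =>
      (Nat.card (B.C a) : ℂ)⁻¹ * ∑ᶠ z : G, tk B κ (D.et a) (z⁻¹ * g * z) := by
    intro a ha κ
    funext g
    unfold etl
    rw [if_neg (fun h => hne a ha h.symm), if_pos rfl]
  have hcls : ∀ a ∈ RL ℓ E₀, ∀ κ x g, etl B D a κ ⊥ (x * g * x⁻¹) = etl B D a κ ⊥ g := by
    intro a ha κ x g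
    rw [hetl a ha κ]
    exact avg_cls _ _ x g
  refine ⟨?_, ?_, ?_, ?_, ?_⟩
  · intro z _
    rw [irr_sum]
    exact sum_kap z
  · intro n m α β _ _
    have hp : pL (∅ : Set (SO.SS n V₀)) = ⊥ := by
      unfold pL
      have h1 : {p : V₀ | ∃ s ∈ (∅ : Set (SO.SS n V₀)), s.2.2.1 = p} = ∅ := by
        ext p
        constructor
        · rintro ⟨s, hs, -⟩
          exact hs
        · intro h
          exact h.elim
      rw [h1, Subgroup.closure_empty]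
    have hq : qL (∅ : Set (SO.SS n V₀)) = ⊥ := by
      unfold qL
      have h1 : {p : V₀ | ∃ s ∈ (∅ : Set (SO.SS n V₀)), s.2.2.2 = p} = ∅ := by
        ext p
        constructor
        · rintro ⟨s, hs, -⟩
          exact hs
        · intro h
          exact h.elim
      rw [h1, Subgroup.closure_empty]
    have hG : (Nat.card G : ℂ) ≠ 0 := by
      rw [Nat.card_eq_fintype_card]
      exact_mod_cast Fintype.card_ne_zero
    unfold X12
    rw [hp, hq, hCb, irr_sum, finsum_eq_sum_of_fintype]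
    have h1 : ∀ w : G × G, α ⊥ w.1 * β ⊥ w.2 * (({z : XX w.1 w.2 | ∀ s ∈ (∅ : Set (SO.SS n V₀)),
        c12 m B.i z.1.1 z.1.2.1 z.1.2.2 s.1 s.2.1 s.2.2.1 s.2.2.2}.ncard : ℕ) : ℂ) =
        ∑ θ : Irr G, (Nat.card G : ℂ) ^ 2 *
          ((α ⊥ w.1 * (θ : G → ℂ) w.1) * (β ⊥ w.2 * (θ : G → ℂ) w.2)) / (θ : G → ℂ) 1 ^ 2 := by
      intro w
      rw [SO.H65.ncard_all _ (fun z s hs => absurd hs (Set.notMem_empty s)), SO.H65.xx_card,
        Finset.mul_sum]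
      refine Finset.sum_congr rfl fun θ _ => ?_
      ring
    rw [Finset.sum_congr rfl fun w _ => h1 w, Finset.sum_comm, Finset.mul_sum]
    refine Finset.sum_congr rfl fun θ _ => ?_
    have h2 : ∑ w : G × G, (Nat.card G : ℂ) ^ 2 *
        ((α ⊥ w.1 * (θ : G → ℂ) w.1) * (β ⊥ w.2 * (θ : G → ℂ) w.2)) / (θ : G → ℂ) 1 ^ 2 =
        (Nat.card G : ℂ) ^ 2 * ((∑ s : G, α ⊥ s * (θ : G → ℂ) s) *
          ∑ t : G, β ⊥ t * (θ : G → ℂ) t) / (θ : G → ℂ) 1 ^ 2 := by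
      rw [← Finset.sum_div, ← Finset.mul_sum, Finset.sum_mul_sum, Fintype.sum_prod_type]
    have hθ : (θ : G → ℂ) 1 ≠ 0 := irr_one_ne θ.2
    unfold SO.cv
    rw [h2, finsum_eq_sum_of_fintype, finsum_eq_sum_of_fintype]
    field_simp
  · intro a ha κ _
    refine ⟨hcls a ha κ, ?_⟩
    rw [irr_sum, ← sum_kap, hetl a ha κ,
      sum_avg_all _ _ (fun g => (({w : G × G | SO.kap w.1 w.2 = g}.ncard : ℕ) : ℂ))
        (fun g h => kap_cls g h)]
    have hG : (Nat.card G : ℂ) ≠ 0 := by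
      rw [Nat.card_eq_fintype_card]
      exact_mod_cast Fintype.card_ne_zero
    field_simp
  · intro c hc
    constructor
    · intro x g
      have h1 := ((hCzb ℓ M hM hl2 V₀ G E₀ hFq B hSb ⊥).1 c).cls x
        (by rw [SO.H32.C_bot B]; exact Subgroup.mem_top x) g
      unfold mnl
      rw [h1]
    · intro χ hχ hn
      have h1 := hA c hc χ hχ hn
      have h2 : SO.cv (mnl E₀ B c ⊥) χ = (if (⊥ : Subgroup V₀) ≤ Subgroup.zpowers c then
          (kE E₀ c : ℂ) else 1) * SO.cv (fc B ⊥ c) χ := by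
        unfold SO.cv mnl
        rw [← mul_div_assoc, finsum_eq_sum_of_fintype, finsum_eq_sum_of_fintype, Finset.mul_sum]
        congr 1
        exact Finset.sum_congr rfl fun g _ => by rw [mul_assoc]
      rw [h2, h1, mul_zero]
  · intro a ha κ hκ hκ1 χ hχ hn
    -- `a` is generated by `κ`
    have hza : Subgroup.zpowers κ = a := by
      have hle : Subgroup.zpowers κ ≤ a := by
        rw [Subgroup.zpowers_le]
        exact hκ
      have hfin : Finite a := inferInstance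
      refine Subgroup.eq_of_le_of_card_ge hle ?_
      have h1 : Nat.card (Subgroup.zpowers κ) ∣ Nat.card a := Subgroup.card_dvd_of_le hle
      rw [ha.1] at h1 ⊢
      rcases (Nat.dvd_prime (Fact.out : ℓ.Prime)).1 h1 with h2 | h2
      · exfalso
        apply hκ1
        rw [Subgroup.card_eq_one, Subgroup.zpowers_eq_bot] at h2
        exact h2
      · exact h2.ge
    obtain ⟨-, hlc, -⟩ := SO.H32.hlnk ℓ M hM V₀ E₀ G B hSb κ
    rw [hza] at hlc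
    have hCa : B.C a = Cu (B.i κ) := by
      rw [← hza]
      exact SO.H32.C_zpowers B κ
    have hi1 : B.i κ ≠ 1 := fun h => hκ1 (hSb.inj (by rw [h, map_one]))
    have hiE : El ℓ (B.i κ) := ⟨1, by rw [pow_one, ← map_pow, hFq.ex κ, map_one]⟩
    -- `et = et * bh`
    obtain ⟨hz1, -, -, hz4, -, hz6, -, -⟩ := hCzb ℓ M hM hl2 V₀ G E₀ hFq B hSb a
    have haB : a ≠ ⊥ := hne a ha
    have hCz := hRs.e1 a haB
    have hCb' : Cz B a (bh B a) := by
      have := hz1 1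
      rwa [fc_one] at this
    have het : (fun g => mulF (D.et a) (bh B a) g) = D.et a := by
      refine hz6 _ _ (hz4 _ _ hCz hCb').1 hCz fun ψ hψ => ?_
      rw [(hz4 _ _ hCz hCb').2 ψ hψ, cv_bh B a hψ, mul_one]
    -- the sums
    have hkey : ∀ t ∈ B.C a, Reg ℓ t → ∑ᶠ r : G, bh B a r * χ (B.i κ * (t * r)) = 0 := by
      intro t ht hreg
      have h1 := (smg ℓ M hM G (B.i κ) t hi1 hiE (by rw [← hCa]; exact ht) hreg
        (fun t : Cu (B.i κ) => B.b a t) hlc.blk.blk.1 B.e hSb.ld.blk.1).1 hlc.und χ hχ hn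
      have h2 : bh B a = PP.ext0 (Cu (B.i κ)) (eh M (fun t : Cu (B.i κ) => B.b a t)) := by
        unfold bh
        rw [hCa]
      rw [h2, SO.H32.sum_ext0 (Cu (B.i κ)) _ (fun r => χ (B.i κ * (t * r))), ← h1]
      unfold gbv
      refine finsum_congr fun c => ?_
      rw [mul_assoc]
    have hzero : ∑ᶠ g, tk B κ (D.et a) g * χ g = 0 := by
      have h1 : ∑ᶠ g, tk B κ (D.et a) g * χ g = ∑ᶠ s, D.et a s * χ (B.i κ * s) := by
        rw [← finsum_comp_equiv (Equiv.mulLeft (B.i κ))]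
        refine finsum_congr fun s => ?_
        show D.et a ((B.i κ)⁻¹ * (B.i κ * s)) * χ (B.i κ * s) = _
        rw [inv_mul_cancel_left]
      rw [h1, ← het, finsum_eq_sum_of_fintype]
      have h2 : ∀ s, mulF (D.et a) (bh B a) s * χ (B.i κ * s) =
          ∑ t : G, D.et a t * (bh B a (t⁻¹ * s) * χ (B.i κ * s)) := by
        intro s
        unfold mulF
        rw [finsum_eq_sum_of_fintype, Finset.sum_mul]
        exact Finset.sum_congr rfl fun t _ => by rw [mul_assoc]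
      rw [Finset.sum_congr rfl fun s _ => h2 s, Finset.sum_comm]
      refine Finset.sum_eq_zero fun t _ => ?_
      rw [← Finset.mul_sum]
      by_cases htC : t ∈ B.C a
      · by_cases hreg : Reg ℓ t
        · have h3 : ∑ s : G, bh B a (t⁻¹ * s) * χ (B.i κ * s) = 0 := by
            rw [← hkey t htC hreg, finsum_eq_sum_of_fintype,
              ← Equiv.sum_comp (Equiv.mulLeft t)]
            refine Finset.sum_congr rfl fun r _ => ?_
            show bh B a (t⁻¹ * (t * r)) * χ (B.i κ * (t * r)) = _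
            rw [inv_mul_cancel_left]
          rw [h3, mul_zero]
        · rw [hRs.e2 a haB t hreg, zero_mul]
      · rw [hCz.sup t htC, zero_mul]
    unfold SO.cv
    rw [hetl a ha κ, sum_avg_all _ _ χ (fun g h => irr_conj hχ g h), hzero, mul_zero, mul_zero,
      zero_div]

end Pool.Agent.PP.SE.H81
end
end -- Pool.Agent.Helper81_ASE.XEM
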