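import Pool.Agent.Helper12_AWB.B209
import Pool.Agent.Helper12_AWB.B221

/-!
# Merged copies (generated) of the modules

* `Pool.Agent.ASE.Stmts2b`
* `Pool.Agent.Helper45_ASE.RSX`
-/

set_option autoImplicit false

section -- Pool.Agent.ASE.Stmts2b

/-!
# Squad ASE, statements 2b: the fields of `Rs`

Text: section 2 of `AWC_SOE.md`.  Complete proofs in the docstrings.  Input: the structure `Cy` of the block `b W`,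
`W ∈ RL ℓ E₀` (`CywStmt`), the data `Dw` given by it, and the data `Dn` for the `W` with `Rw E₀ W`.
`n = nS E₀ W`, `k = kW E₀ W`, `u χ = e χ |C W| (D ⊤)/(n |C ⊤| χ 1)`, `N ν = Iv B W ν ∩ N`.
-/

open scoped BigOperators

noncomputable section

namespace Pool.Agent.PP.SE

open Pool.Agent.Helper51_AWC Pool.Agent.Helper79_WRA Pool.Agent.PP Pool.Agent.PP.KF
open Pool.Agent.PP.K9 Pool.Agent.PP.K9.H97 Pool.Agent.PP.H75 Pool.Agent.PP.T3 Pool.Agent.PP.SO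
open Pool.Agent.PP.SD

attribute [local instance] Ideal.Quotient.field

section defs

variable {V₀ G : Type} [CommGroup V₀] [Group G] {M : Ideal (integralClosure ℤ ℂ)} [M.IsMaximal]

/-- `N` and `e` are invariant under the stabiliser of `W`. -/
def Ev (E₀ : Subgroup (MulAut V₀)) (B : Bk (FF M) V₀ G) (W : Subgroup V₀) (N : Set (G → ℂ))
    (e : (G → ℂ) → ℤ) : Prop :=
  ∀ g ∈ E₀, mp g W = W → ∀ χ ∈ Ch B W, (ac B g χ ∈ N ↔ χ ∈ N) ∧ e (ac B g χ) = e χ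

/-- the data at a `W` with `Rw E₀ W` -/
structure Dn (B : Bk (FF M) V₀ G) (W : Subgroup V₀) (D : Rd V₀ G) : Prop where
  dU : D.U W = B.U W
  dD : ∀ χ ∈ Ch B W, ∀ x, D.D W χ x = (B.S W : ℂ) * lam B W χ x
  dR : ∀ χ ψ, D.R W χ ψ = 0
  de : D.et W = 0
  df : ∀ g, D.fx W g = 1

end defs

/-! ## 4. Sums over `N`, values -/

open Classical in
/-- SNU: sums over the nonexceptional characters.

Proof.  (1) Every `χ ∈ Ch B W` is in `Iv ν` for exactly one `ν ∈ lk k`: VXM (b); `ν` is `nu χ` on `W` and `ν v = ν (pr v)` (GEC).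
(2) The map `Iv ν ∩ N → Iv 1 ∩ N`, `χ ↦` the unique `ψ` with `rq ψ χ` (`Cy.mt`) is a bijection (inverse by `mt` for `ν`).
(3) (1), (2), `nu χ z = ν z` on `Iv ν`, and `∑_(ν ∈ lk k) ν z` is `ℓ` for `z = 1`, `0` for the other `z ∈ W` (GEC).  (The constant
function `1` is in `lk k`.)  (4) `Lv.cN`, `Cy.mt`. -/
def SnuStmt : Prop := ∀ (ℓ : ℕ) [Fact ℓ.Prime] (M : Ideal (integralClosure ℤ ℂ)) [M.IsMaximal],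
  (ℓ : integralClosure ℤ ℂ) ∈ M → ℓ ≠ 2 → ∀ (V₀ G : Type) [CommGroup V₀] [Finite V₀] [Group G]
  [Finite G] (E₀ : Subgroup (MulAut V₀)), Fq ℓ V₀ E₀ → ∀ B : Bk (FF M) V₀ G, Sd ℓ M E₀ B →
  ∀ W ∈ RL ℓ E₀, ∀ (N : Set (G → ℂ)) (e : (G → ℂ) → ℤ) (O : (G → ℂ) → Set (V₀ → ℂ)),
  Cy ℓ E₀ B W N e O →
  (Ch B W).Finite ∧
  (∀ f : (G → ℂ) → ℂ, ∑ᶠ χ ∈ Ch B W, f χ = ∑ᶠ ν ∈ lk (kW E₀ W), ∑ᶠ χ ∈ Iv B W ν, f χ) ∧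
  (∀ f : (G → ℂ) → ℂ, ∑ᶠ χ ∈ {χ | χ ∈ Ch B W ∧ χ ∈ N}, f χ =
    ∑ᶠ ν ∈ lk (kW E₀ W), ∑ᶠ χ ∈ {χ | χ ∈ Iv B W ν ∧ χ ∈ N}, f χ) ∧
  (∀ f : (G → ℂ) → ℂ, (∀ χ ∈ Ch B W, ∀ ψ ∈ Ch B W, χ ∈ N → ψ ∈ N → rq ℓ B W χ ψ → f χ = f ψ) →
    (∀ ν ∈ lk (kW E₀ W), ∑ᶠ χ ∈ {χ | χ ∈ Iv B W ν ∧ χ ∈ N}, f χ =
      ∑ᶠ χ ∈ {χ | χ ∈ Iv B W (fun _ => 1) ∧ χ ∈ N}, f χ) ∧
    ∀ z ∈ W, ∑ᶠ χ ∈ {χ | χ ∈ Ch B W ∧ χ ∈ N}, nu B χ z * f χ =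
      if z = 1 then (ℓ : ℂ) * ∑ᶠ χ ∈ {χ | χ ∈ Iv B W (fun _ => 1) ∧ χ ∈ N}, f χ else 0) ∧
  ∀ ν ∈ lk (kW E₀ W), {χ | χ ∈ Iv B W ν ∧ χ ∈ N}.ncard = nS E₀ W ∧
    {χ | χ ∈ Iv B W ν ∧ χ ∈ N}.Finite ∧ ∀ ψ ∈ Ch B W, ψ ∈ N →
      ∑ᶠ χ ∈ {χ | χ ∈ Iv B W ν ∧ χ ∈ N}, (if rq ℓ B W χ ψ then (1 : ℂ) else 0) = 1

/-- VAL: the values of the central characters at `et` and `fm`.

Proof.  `|lk W| = ℓ > 1` (GEC), so `bX` gives a `χ ∈ Ch B W`, `χ ∉ N`; `dU` and `Cy.ux` give `U = 1 + ℓ q`.  `et` is a combination of the functions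
`g ↦ χ g⁻¹`, `χ ∈ Ch B W` (`= 0` outside `C W`; class functions on `C W`); by the orthogonality relations of `C W` (`∑_g χ(g⁻¹) ψ(g) = |C W| [χ = ψ]`
for irreducible `ψ`) `cv et ψ = 0` for `ψ` not in the block (`Cz.blk`) and for `ψ ∉ N`, and `cv et χ = n (u χ - U)` for `χ ∈ N`; `u χ = 1 + ℓ q` (`Cy.un`).
`c ∈ W`: `fm c = n fc W c`, `fc W c = i(c) b^` (`W ⊔ ⟨c⟩ = W`, class function), `cv (fc W c) χ = nu χ c`; `pr c = c`, `ux = 1`, and for `χ ∉ N`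
`∑_(s ∈ O χ) s c = |O χ| = n` (`s = 1` on `W`, GEC).
`c ∉ W`: `cv (fc W c) χ = (|C W| D ⊤/(|C ⊤| χ 1)) vx χ c` (VXM (c)); `c = (pr c) y`, `y ∈ k`, `y ≠ 1`, `vx χ c = nu χ (pr c) vx χ y` (VXM (b)), `vx χ y` from `Lv`;
`cv (tk (pr c) et) χ = nu χ (pr c) cv et χ` (CZB; `pr c ∈ W`).  `χ ∈ N`: `nu χ (pr c) (n u χ - n (u χ - U))`.  `χ ∉ N`: `dU`, and `s y = s c` for `s ∈ O χ`. -/
def ValStmt : Prop := ∀ (ℓ : ℕ) [Fact ℓ.Prime] (M : Ideal (integralClosure ℤ ℂ)) [M.IsMaximal],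
  (ℓ : integralClosure ℤ ℂ) ∈ M → ℓ ≠ 2 → ∀ (V₀ G : Type) [CommGroup V₀] [Finite V₀] [Group G]
  [Finite G] (E₀ : Subgroup (MulAut V₀)), Fq ℓ V₀ E₀ → ∀ B : Bk (FF M) V₀ G, Sd ℓ M E₀ B →
  ∀ W ∈ RL ℓ E₀, ∀ (N : Set (G → ℂ)) (e : (G → ℂ) → ℤ) (O : (G → ℂ) → Set (V₀ → ℂ)),
  Cy ℓ E₀ B W N e O → ∀ D : Rd V₀ G, Dw ℓ E₀ B W N e O D →
  (∃ χ ∈ Ch B W, χ ∉ N) ∧ (∃ q ∈ SOR.Rl ℓ, D.U W = 1 + ℓ * q) ∧ Cz B W (D.et W) ∧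
  (∀ χ ∈ Ch B W, χ ∈ N → (∃ u : ℚ, (∃ q ∈ SOR.Rl ℓ, u = 1 + ℓ * q) ∧
      (e χ : ℂ) * Nat.card (B.C W) * B.D ⊤ / (nS E₀ W * Nat.card (B.C ⊤) * χ 1) = (u : ℂ) ∧
      cv (D.et W) χ = ((nS E₀ W * (u - D.U W) : ℚ) : ℂ)) ∧
    ∀ c, cv (fm ℓ E₀ B D W c) χ =
      (nS E₀ W : ℂ) * (ux D.U W c : ℚ) * nu B χ (pr ℓ E₀ W c)) ∧
  ∀ χ ∈ Ch B W, χ ∉ N → cv (D.et W) χ = 0 ∧ ∀ c, cv (fm ℓ E₀ B D W c) χ =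
    (ux D.U W c : ℚ) * nu B χ (pr ℓ E₀ W c) * ∑ᶠ s ∈ O χ, s c

/-! ## 5. The fields of `Rs` at a reflection line -/

/-- RFA: `d1`, `d2`.

Proof.  `x ∉ W`: `x = (pr x) y`, `y ∈ k`, `y ≠ 1`; `vx χ x = nu χ (pr x) vx χ y` (VXM (b)) and `Lv.vN`, `Lv.vX` (`s y = s x` for `s ∈ lk W`, GEC):
`vx χ x = D.D W χ x`; `B.D ⊤ ≠ 0` (`Sd.dg` for `⊤`).  `nu χ 1 = 1`, `O χ` has `n` elements, `e χ = ± 1`.  `conj (nu χ w) = nu χ w⁻¹` for `w ∈ W` (VXM (b)),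
`conj (s x) = s x⁻¹` (`s ∈ lin V₀`, finite order), `pr (x⁻¹) = (pr x)⁻¹`, `pr (w x) = w pr x`, `s (w x) = s x`, `nu χ (w w') = nu χ w nu χ w'` (CZB). -/
def RfaStmt : Prop := ∀ (ℓ : ℕ) [Fact ℓ.Prime] (M : Ideal (integralClosure ℤ ℂ)) [M.IsMaximal],
  (ℓ : integralClosure ℤ ℂ) ∈ M → ℓ ≠ 2 → ∀ (V₀ G : Type) [CommGroup V₀] [Finite V₀] [Group G]
  [Finite G] (E₀ : Subgroup (MulAut V₀)), Fq ℓ V₀ E₀ → ∀ B : Bk (FF M) V₀ G, Sd ℓ M E₀ B →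
  ∀ W ∈ RL ℓ E₀, ∀ (N : Set (G → ℂ)) (e : (G → ℂ) → ℤ) (O : (G → ℂ) → Set (V₀ → ℂ)),
  Cy ℓ E₀ B W N e O → ∀ D : Rd V₀ G, Dw ℓ E₀ B W N e O D →
  (∀ χ ∈ Ch B W, ∀ x, x ∉ W → (B.D ⊤ : ℂ) * D.D W χ x = ∑ᶠ s, bh B ⊤ s * χ (B.i x * s)) ∧
  ∀ χ ∈ Ch B W, D.D W χ 1 ≠ 0 ∧ (∀ x, starRingEnd ℂ (D.D W χ x) = D.D W χ x⁻¹) ∧
    ∀ w ∈ W, ∀ x, D.D W χ (w * x) = nu B χ w * D.D W χ x

/-- RFB: `d4`.

Proof.  SNU (1).  For `ν ∈ lk k`, `χ ∈ Iv ν`: `nu χ (pr x) conj (nu χ (pr y)) = ν (pr x (pr y)⁻¹)`, call it `ν z`.  The sum over `Iv ν ∩ N` is `ν z · n`.  By `bX`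
`χ ↦ O χ` is a bijection of `Iv ν - N` onto the set of the orbits `orb s`, `s ∈ lk W`, `s ≠ 1`, so the sum over `Iv ν - N` is
`ν z ∑_(orbits O) ∑_(s, s' ∈ O) s x conj (s' y) = ν z ∑_(s' ≠ 1) conj (s' y) ∑_(τ ∈ St) s' (τ x)` (`τ ↦ s' ∘ τ` is a bijection of `St` onto `orb s'`, GEC).  The
sum over `N` is the term of `s' = 1`.  Together `ν z ∑_τ ∑_(s' ∈ lk W) s' (τ x y⁻¹) = ν z ∑_τ ℓ [τ x y⁻¹ ∈ W]` (GEC; `s' v = s' (v (pr v)⁻¹)`).  Sum over `ν`: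
`ℓ [pr x = pr y] ∑_τ ℓ [τ x y⁻¹ ∈ W]`, and `pr (τ x y⁻¹) = pr x (pr y)⁻¹`: both conditions iff `τ x = y`. -/
def RfbStmt : Prop := ∀ (ℓ : ℕ) [Fact ℓ.Prime] (M : Ideal (integralClosure ℤ ℂ)) [M.IsMaximal],
  (ℓ : integralClosure ℤ ℂ) ∈ M → ℓ ≠ 2 → ∀ (V₀ G : Type) [CommGroup V₀] [Finite V₀] [Group G]
  [Finite G] (E₀ : Subgroup (MulAut V₀)), Fq ℓ V₀ E₀ → ∀ B : Bk (FF M) V₀ G, Sd ℓ M E₀ B →
  ∀ W ∈ RL ℓ E₀, ∀ (N : Set (G → ℂ)) (e : (G → ℂ) → ℤ) (O : (G → ℂ) → Set (V₀ → ℂ)),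
  Cy ℓ E₀ B W N e O → ∀ D : Rd V₀ G, Dw ℓ E₀ B W N e O D →
  ∀ x y, ∑ᶠ χ ∈ Ch B W, D.D W χ x * starRingEnd ℂ (D.D W χ y) =
    (ℓ : ℂ) ^ 2 * {τ : MulAut V₀ | τ ∈ St E₀ W ∧ τ x = y}.ncard

/-- RFC: `d3`.

Proof.  VAL.  `pr (x τ c) = pr x pr c`.  `χ ∈ N`: both sides are `n ux(c) nu χ (pr x) nu χ (pr c) e χ`.  `χ ∉ N`: `∑_τ s (τ c) = ∑_(s' ∈ O χ) s' c` for every `s ∈ O χ`
(`O χ = orb s`, GEC), so the right side is `ux(c) nu χ (pr x) nu χ (pr c) e χ (∑_(s ∈ O χ) s x) (∑_(s' ∈ O χ) s' c)`. -/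
def RfcStmt : Prop := ∀ (ℓ : ℕ) [Fact ℓ.Prime] (M : Ideal (integralClosure ℤ ℂ)) [M.IsMaximal],
  (ℓ : integralClosure ℤ ℂ) ∈ M → ℓ ≠ 2 → ∀ (V₀ G : Type) [CommGroup V₀] [Finite V₀] [Group G]
  [Finite G] (E₀ : Subgroup (MulAut V₀)), Fq ℓ V₀ E₀ → ∀ B : Bk (FF M) V₀ G, Sd ℓ M E₀ B →
  ∀ W ∈ RL ℓ E₀, ∀ (N : Set (G → ℂ)) (e : (G → ℂ) → ℤ) (O : (G → ℂ) → Set (V₀ → ℂ)),
  Cy ℓ E₀ B W N e O → ∀ D : Rd V₀ G, Dw ℓ E₀ B W N e O D →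
  ∀ χ ∈ Ch B W, ∀ c x, cv (fm ℓ E₀ B D W c) χ * D.D W χ x =
    (ux D.U W c : ℚ) * ∑ᶠ τ : St E₀ W, D.D W χ (x * (τ : MulAut V₀) c)

/-- RFD: `d5`, `d6`.

Proof.  `D χ 1 = e χ` for `χ ∈ N`, `n e χ` for `χ ∉ N`; `Cy.rN`, `rM`, `rX`.  `d6`: `ψ ∉ N`: all terms are `0`.  `ψ ∈ N`: only `χ ∈ N` count; for `ν ∈ lk k`
the sum over `Iv ν ∩ N` is `ν (pr x) (e ψ/ℓ) ∑ ([rq χ ψ] - 1/n) = ν (pr x) (e ψ/ℓ) (1 - 1) = 0` (SNU (4)).  `rq` is symmetric, `e` is an integer. -/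
def RfdStmt : Prop := ∀ (ℓ : ℕ) [Fact ℓ.Prime] (M : Ideal (integralClosure ℤ ℂ)) [M.IsMaximal],
  (ℓ : integralClosure ℤ ℂ) ∈ M → ℓ ≠ 2 → ∀ (V₀ G : Type) [CommGroup V₀] [Finite V₀] [Group G]
  [Finite G] (E₀ : Subgroup (MulAut V₀)), Fq ℓ V₀ E₀ → ∀ B : Bk (FF M) V₀ G, Sd ℓ M E₀ B →
  ∀ W ∈ RL ℓ E₀, ∀ (N : Set (G → ℂ)) (e : (G → ℂ) → ℤ) (O : (G → ℂ) → Set (V₀ → ℂ)),
  Cy ℓ E₀ B W N e O → ∀ D : Rd V₀ G, Dw ℓ E₀ B W N e O D →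
  (∀ χ ∈ Ch B W, ∀ ψ ∈ Ch B W, (Nat.card (B.C W) : ℂ)⁻¹ *
      ∑ᶠ s ∈ {s : G | s ∈ B.C W ∧ Reg ℓ s}, χ s * starRingEnd ℂ (ψ s) =
    D.D W χ 1 * starRingEnd ℂ (D.D W ψ 1) / ((ℓ : ℂ) ^ 2 * nS E₀ W) + D.R W χ ψ) ∧
  ∀ ψ ∈ Ch B W, (∀ x, ∑ᶠ χ ∈ Ch B W, D.D W χ x * D.R W χ ψ = 0) ∧
    ∀ χ ∈ Ch B W, D.R W χ ψ = D.R W ψ χ ∧ starRingEnd ℂ (D.R W χ ψ) = D.R W χ ψ

open Classical in
/-- RFE: `d7`.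

Proof.  `ψ ∉ N` or `ψ' ∉ N`: both sides are `0`.  Otherwise only `χ ∈ N` count, VAL: `nu χ z cv (fm c) χ = n ux(c) nu χ (pr c z)`, `pr c z ∈ W`.  For `ν ∈ lk k`:
`∑_(Iv ν ∩ N) R ψ χ R χ ψ' = (e ψ e ψ'/ℓ²) ∑ ([rq ψ χ] - 1/n)([rq χ ψ'] - 1/n) = (e ψ e ψ'/ℓ²)([rq ψ ψ'] - 1/n)` (`(e χ)² = 1`; one `χ₀` with `rq ψ χ₀`, SNU (4), `rq` is
an equivalence relation) `= R ψ ψ'/ℓ`, and `∑_ν ν (pr c z) = ℓ [pr c z = 1]` (GEC). -/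
def RfeStmt : Prop := ∀ (ℓ : ℕ) [Fact ℓ.Prime] (M : Ideal (integralClosure ℤ ℂ)) [M.IsMaximal],
  (ℓ : integralClosure ℤ ℂ) ∈ M → ℓ ≠ 2 → ∀ (V₀ G : Type) [CommGroup V₀] [Finite V₀] [Group G]
  [Finite G] (E₀ : Subgroup (MulAut V₀)), Fq ℓ V₀ E₀ → ∀ B : Bk (FF M) V₀ G, Sd ℓ M E₀ B →
  ∀ W ∈ RL ℓ E₀, ∀ (N : Set (G → ℂ)) (e : (G → ℂ) → ℤ) (O : (G → ℂ) → Set (V₀ → ℂ)),
  Cy ℓ E₀ B W N e O → ∀ D : Rd V₀ G, Dw ℓ E₀ B W N e O D →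
  ∀ ψ ∈ Ch B W, ∀ ψ' ∈ Ch B W, ∀ z ∈ W, ∀ c,
    ∑ᶠ χ ∈ Ch B W, D.R W ψ χ * (nu B χ z * cv (fm ℓ E₀ B D W c) χ) * D.R W χ ψ' =
      if pr ℓ E₀ W c * z = 1 then (nS E₀ W : ℂ) * (ux D.U W c : ℚ) * D.R W ψ ψ' else 0

open Classical in
/-- RFF: `d8`.

Proof.  `g⁻¹` also maps `W` to `W`; `χ' = ac g⁻¹ χ` is in `Ch B W` (ACB).  Only `χ ∈ N` count; then `χ' ∈ N`, `e χ' = e χ` (`Ev`), so the term is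
`(n ux(c)/ℓ) nu χ (pr c z) f χ`, `f χ = [rq χ χ'] - 1/n`.  `f` is constant on the classes of `rq`: if `rq χ ψ` then `rq χ' ψ'` (`χ' s = χ (t⁻¹ s t)`, `t = tt g⁻¹`, `t⁻¹ s t ∈ C W` regular).
SNU (3): the sum is `(n ux(c)/ℓ) [pr c z = 1] ℓ ∑_(Iv 1 ∩ N) f χ`.  For `χ ∈ Iv 1 ∩ N`: `χ' ∈ Iv 1 ∩ N` (`nu χ' (g⁻¹ w) = nu χ w`, ACB), so `rq χ χ'` iff `χ' = χ` (`Cy.mt`) iff `ac g χ = χ`
(`ac g (ac g⁻¹ χ) = χ`, ACB).  So `∑ f = fx g - 1` (`df`, `Lv.cN`). -/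
def RffStmt : Prop := ∀ (ℓ : ℕ) [Fact ℓ.Prime] (M : Ideal (integralClosure ℤ ℂ)) [M.IsMaximal],
  (ℓ : integralClosure ℤ ℂ) ∈ M → ℓ ≠ 2 → ∀ (V₀ G : Type) [CommGroup V₀] [Finite V₀] [Group G]
  [Finite G] (E₀ : Subgroup (MulAut V₀)), Fq ℓ V₀ E₀ → ∀ B : Bk (FF M) V₀ G, Sd ℓ M E₀ B →
  ∀ W ∈ RL ℓ E₀, ∀ (N : Set (G → ℂ)) (e : (G → ℂ) → ℤ) (O : (G → ℂ) → Set (V₀ → ℂ)),
  Cy ℓ E₀ B W N e O → ∀ D : Rd V₀ G, Dw ℓ E₀ B W N e O D → Ev E₀ B W N e →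
  ∀ g ∈ E₀, mp g W = W → ∀ z ∈ W, ∀ c,
    ∑ᶠ χ ∈ Ch B W, cv (fm ℓ E₀ B D W c) χ * nu B χ z * D.R W χ (ac B g⁻¹ χ) =
      if pr ℓ E₀ W c * z = 1 then (nS E₀ W : ℂ) * (ux D.U W c : ℚ) * ((D.fx W g : ℚ) - 1) else 0

/-- RFG: `e2`.

Proof.  `g ∉ C W`: `χ g⁻¹ = 0`.  Let `g ∈ C W` be not regular.  `a χ = n (u χ - U) χ 1/|C W|`, it depends only on `e χ`, `χ 1`, so `a χ = a ψ` if `rq χ ψ` (`Cy.se`).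
(a) `i(w) g = g'` regular for some `w ∈ W`; `w ≠ 1`.  `χ g⁻¹ = χ (i(w) g'⁻¹) = nu χ w χ g'⁻¹` (VXM (b)); `g'⁻¹` is regular, so `f χ = a χ χ g'⁻¹` satisfies the hypothesis of SNU (3), and
the sum is `0` (`w ≠ 1`).
(b) No such `w`; then also not for `g⁻¹` (`i(w)` is central in `C W`).  VXG for `g⁻¹`: `χ g⁻¹ = ∑_(x ∉ W) vx χ x Θ x`.  For `χ ∈ N`, `x ∉ W`: `vx χ x = nu χ (pr x) e χ` (RFA), so it is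
enough that `∑_(Iv ν ∩ N) a χ e χ = 0` for every `ν ∈ lk k` (SNU (2)): `a χ e χ = D ⊤/|C ⊤| - n U e χ χ 1/|C W|`, and `∑_(Iv ν ∩ N) e χ χ 1 = e ψ ψ 1` for `ψ ∉ N` (`Cy.xi` at `g = 1`),
`U e ψ ψ 1/|C W| = D ⊤/|C ⊤|` (`dU`, `(e ψ)² = 1`): the sum is `n D ⊤/|C ⊤| - n D ⊤/|C ⊤| = 0`. -/
def RfgStmt : Prop := ∀ (ℓ : ℕ) [Fact ℓ.Prime] (M : Ideal (integralClosure ℤ ℂ)) [M.IsMaximal],
  (ℓ : integralClosure ℤ ℂ) ∈ M → ℓ ≠ 2 → ∀ (V₀ G : Type) [CommGroup V₀] [Finite V₀] [Group G]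
  [Finite G] (E₀ : Subgroup (MulAut V₀)), Fq ℓ V₀ E₀ → ∀ B : Bk (FF M) V₀ G, Sd ℓ M E₀ B →
  ∀ W ∈ RL ℓ E₀, ∀ (N : Set (G → ℂ)) (e : (G → ℂ) → ℤ) (O : (G → ℂ) → Set (V₀ → ℂ)),
  Cy ℓ E₀ B W N e O → ∀ D : Rd V₀ G, Dw ℓ E₀ B W N e O D → ∀ g, ¬ Reg ℓ g → D.et W g = 0

/-- RFH: `e3`, `e4`, `e9`, `h1`.

Proof.  VAL.  `e4`: `n (u - U)/ℓ ∈ Rl ℓ`, so in `RM M` (`ℓ ∈ M`).  `h1`: `e χ |C W| D ⊤/(n |C ⊤| χ 1)` (`χ ∈ N`), `e χ |C W| D ⊤/(|C ⊤| χ 1)` (`χ ∉ N`) is `1 + ℓ q`, a unit of `Rl ℓ`; `n` is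
prime to `ℓ`; `ℓ² D ⊤/|C ⊤|` and its inverse are in `RM M` (DGD for `⊤`). -/
def RfhStmt : Prop := ∀ (ℓ : ℕ) [Fact ℓ.Prime] (M : Ideal (integralClosure ℤ ℂ)) [M.IsMaximal],
  (ℓ : integralClosure ℤ ℂ) ∈ M → ℓ ≠ 2 → ∀ (V₀ G : Type) [CommGroup V₀] [Finite V₀] [Group G]
  [Finite G] (E₀ : Subgroup (MulAut V₀)), Fq ℓ V₀ E₀ → ∀ B : Bk (FF M) V₀ G, Sd ℓ M E₀ B →
  ∀ W ∈ RL ℓ E₀, ∀ (N : Set (G → ℂ)) (e : (G → ℂ) → ℤ) (O : (G → ℂ) → Set (V₀ → ℂ)),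
  Cy ℓ E₀ B W N e O → ∀ D : Rd V₀ G, Dw ℓ E₀ B W N e O D →
  (∀ χ ∈ Ch B W, cv (D.et W) χ ≠ 0 → ∀ c, cv (fm ℓ E₀ B D W c) χ =
    (nS E₀ W : ℂ) * (ux D.U W c : ℚ) * nu B χ (pr ℓ E₀ W c)) ∧
  (∀ χ ∈ Ch B W, cv (D.et W) χ / ℓ ∈ RM M) ∧
  (∀ χ ∈ Ch B W, ∃ q : ℚ, cv (D.et W) χ = (q : ℂ)) ∧
  ∀ χ ∈ Ch B W, (ℓ : ℂ) ^ 2 * χ 1 / Nat.card (B.C W) ∈ RM M ∧
    (Nat.card (B.C W) : ℂ) / ((ℓ : ℂ) ^ 2 * χ 1) ∈ RM M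

/-- RFI: `e5`.

Proof.  PRJ (`SO.PrjStmt`) for `H = C W`, `f(h) = ℓ et h`: class function (VAL), `0` at the nonregular elements (RFG).  Let `χ ∈ Irr H`, `χ'` = its conjugate (irreducible), extended by zero:
`|H|⁻¹ ∑ f(h) χ(h⁻¹) = ℓ cv et χ' · χ' 1/|H|`, `0` if `χ' ∉ Ch B W` (`Cz.blk`), otherwise `(cv et χ'/ℓ)(ℓ² χ' 1/|H|) ∈ RM M` (RFH).  `Cu s` in `H` has as many elements as
`B.C W ⊓ Cu s`. -/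
def RfiStmt : Prop := ∀ (ℓ : ℕ) [Fact ℓ.Prime] (M : Ideal (integralClosure ℤ ℂ)) [M.IsMaximal],
  (ℓ : integralClosure ℤ ℂ) ∈ M → ℓ ≠ 2 → ∀ (V₀ G : Type) [CommGroup V₀] [Finite V₀] [Group G]
  [Finite G] (E₀ : Subgroup (MulAut V₀)), Fq ℓ V₀ E₀ → ∀ B : Bk (FF M) V₀ G, Sd ℓ M E₀ B →
  ∀ W ∈ RL ℓ E₀, ∀ (N : Set (G → ℂ)) (e : (G → ℂ) → ℤ) (O : (G → ℂ) → Set (V₀ → ℂ)),
  Cy ℓ E₀ B W N e O → ∀ D : Rd V₀ G, Dw ℓ E₀ B W N e O D →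
  ∀ s ∈ B.C W, (ℓ : ℂ) * D.et W s / Nat.card (B.C W ⊓ Cu s : Subgroup G) ∈ RM M

/-- RFJ: `e7` and the sum of the values of `et`.

Proof.  (1) `N₁ = Iv 1 ∩ N`, `u χ = 1 + ℓ q`, `U = 1 + ℓ q'`: `∑_(N₁) 1/u χ = ∑ e χ n |C ⊤| χ 1/(|C W| D ⊤) = n |C ⊤| e ψ ψ 1/(|C W| D ⊤) = n/U`, `ψ ∉ N` (`(e χ)² = 1`, `Cy.xi` at `1`, `dU`); `|N₁| = n`, so
`∑ (1/u χ - 1/U) = 0`, `∑ (U - u χ)/u χ = 0`, and `(U - u)/u = (U - u) + (U - u)(1 - u)/u`, the last term is in `ℓ² Rl ℓ`.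
(2) `f χ = cv et χ = n (u χ - U)` (`= 0` for `χ ∉ N`) depends only on `e χ`, `χ 1` (`Cy.se`).  SNU (3): the sums are `0` (`κ ≠ 1`) or `ℓ ∑_(N₁) f χ`, `ℓ ∑_(N₁) (f χ)²`, and `f χ ∈ ℓ Rl ℓ`. -/
def RfjStmt : Prop := ∀ (ℓ : ℕ) [Fact ℓ.Prime] (M : Ideal (integralClosure ℤ ℂ)) [M.IsMaximal],
  (ℓ : integralClosure ℤ ℂ) ∈ M → ℓ ≠ 2 → ∀ (V₀ G : Type) [CommGroup V₀] [Finite V₀] [Group G]
  [Finite G] (E₀ : Subgroup (MulAut V₀)), Fq ℓ V₀ E₀ → ∀ B : Bk (FF M) V₀ G, Sd ℓ M E₀ B →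
  ∀ W ∈ RL ℓ E₀, ∀ (N : Set (G → ℂ)) (e : (G → ℂ) → ℤ) (O : (G → ℂ) → Set (V₀ → ℂ)),
  Cy ℓ E₀ B W N e O → ∀ D : Rd V₀ G, Dw ℓ E₀ B W N e O D →
  (∃ q ∈ SOR.Rl ℓ, ∑ᶠ χ ∈ {χ | χ ∈ Iv B W (fun _ => 1) ∧ χ ∈ N}, cv (D.et W) χ =
    ((ℓ ^ 2 * q : ℚ) : ℂ)) ∧
  ∀ κ ∈ W, (∑ᶠ χ ∈ Ch B W, nu B χ κ * cv (D.et W) χ) / (ℓ : ℂ) ^ 2 ∈ RM M ∧
    (∑ᶠ χ ∈ Ch B W, nu B χ κ * cv (D.et W) χ ^ 2) / (ℓ : ℂ) ^ 2 ∈ RM M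

/-- RFK: `e6`.

Proof.  `f χ = cv et χ`, `S = ∑_(Iv 1 ∩ N) f χ ∈ ℓ² Rl ℓ` (RFJ (1)).  First part of `wtE`: for `χ ∈ N`: `conj (D χ y) D χ (τ y) = nu χ (pr (τ y) (pr y)⁻¹)`, so it is (SNU (3))
`(ℓ² n²)⁻¹ ℓ [κ pr (τ y) (pr y)⁻¹ = 1] S`, divided by `ℓ`: `[..] S/(ℓ² n²) ∈ RM M`.  Second part (`τ W = W`, `y ∈ W`, so `τ y y⁻¹ ∈ W`): for `χ ∈ N`, `χ' = ac τ⁻¹ χ`:
`R χ χ' = ([rq χ χ'] - 1/n)/ℓ` (`Ev`), so (SNU (3), `f χ ([rq χ χ'] - 1/n)` is constant on the classes of `rq`, see RFF and RFJ) it is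
`n⁻¹ ∑_N nu χ (κ τ y y⁻¹) f χ ([rq χ χ'] - 1/n)/ℓ = n⁻¹ [κ τ y y⁻¹ = 1] ∑_(Iv 1 ∩ N) f χ ([rq χ χ'] - 1/n)`, divided by `ℓ`: in `RM M`, as `f χ ∈ ℓ Rl ℓ`, `ℓ ∤ n`. -/
def RfkStmt : Prop := ∀ (ℓ : ℕ) [Fact ℓ.Prime] (M : Ideal (integralClosure ℤ ℂ)) [M.IsMaximal],
  (ℓ : integralClosure ℤ ℂ) ∈ M → ℓ ≠ 2 → ∀ (V₀ G : Type) [CommGroup V₀] [Finite V₀] [Group G]
  [Finite G] (E₀ : Subgroup (MulAut V₀)), Fq ℓ V₀ E₀ → ∀ B : Bk (FF M) V₀ G, Sd ℓ M E₀ B →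
  ∀ W ∈ RL ℓ E₀, ∀ (N : Set (G → ℂ)) (e : (G → ℂ) → ℤ) (O : (G → ℂ) → Set (V₀ → ℂ)),
  Cy ℓ E₀ B W N e O → ∀ D : Rd V₀ G, Dw ℓ E₀ B W N e O D → Ev E₀ B W N e →
  ∀ κ ∈ W, ∀ τ ∈ E₀, ∀ y, wtE ℓ E₀ B D W κ τ y / ℓ ∈ RM M

/-! ## 6. Equivariance, fixed characters -/

/-- RFL: transport of `Nn`.

Proof.  `χ' = fun g => χ (t⁻¹ g t)`.  `χ' ∈ Ch B (σ W)`: ACB (or CJD).  `vx B χ' (σ x) = vx B χ x`: `t⁻¹ (i(σ x) s) t = i(x) (t⁻¹ s t)`, `bh ⊤ (t s t⁻¹) = bh ⊤ s` (CJD for `⊤`).  `rq`: `t s t⁻¹ ∈ C (σ W)` iff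
`s ∈ C W`, `Reg` is invariant.  `kW (σ W) = σ (kW W)`, `nS (σ W) = nS W` (GEB). -/
def RflStmt : Prop := ∀ (ℓ : ℕ) [Fact ℓ.Prime] (M : Ideal (integralClosure ℤ ℂ)) [M.IsMaximal],
  (ℓ : integralClosure ℤ ℂ) ∈ M → ℓ ≠ 2 → ∀ (V₀ G : Type) [CommGroup V₀] [Finite V₀] [Group G]
  [Finite G] (E₀ : Subgroup (MulAut V₀)), Fq ℓ V₀ E₀ → ∀ B : Bk (FF M) V₀ G, Sd ℓ M E₀ B →
  ∀ W ∈ RL ℓ E₀, ∀ σ ∈ E₀, ∀ t ∈ Tg B.i.range B.g, (∀ v, t * B.i v * t⁻¹ = B.i (σ v)) →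
  (∀ χ ∈ Ch B W, (fun g => χ (t⁻¹ * g * t)) ∈ Ch B (mp σ W) ∧
    ac B σ χ = (fun g => χ (t⁻¹ * g * t)) ∧
    (∀ x, vx B (fun g => χ (t⁻¹ * g * t)) (σ x) = vx B χ x) ∧
    (∀ ψ ∈ Ch B W, rq ℓ B (mp σ W) (fun g => χ (t⁻¹ * g * t)) (fun g => ψ (t⁻¹ * g * t)) ↔
      rq ℓ B W χ ψ) ∧
    ∀ xc xc' : G → ℂ, (nS E₀ W = ℓ - 1 → xc' = fun g => xc (t⁻¹ * g * t)) →
      ((fun g => χ (t⁻¹ * g * t)) ∈ Nn ℓ E₀ B (mp σ W) xc' ↔ χ ∈ Nn ℓ E₀ B W xc)) ∧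
  ∀ χ' ∈ Ch B (mp σ W), ∃ χ ∈ Ch B W, χ' = fun g => χ (t⁻¹ * g * t)

/-- RFM: equivariance of `e`, `O`.

Proof.  `χ' = fun g => χ (t⁻¹ g t)`, `χ' 1 = χ 1`, `|C (σ W)| = |C W|`, `nS` the same.  `e' χ' = e χ`: `un`, `ux` for both, the two numbers `1 + ℓ q`, `1 + ℓ q'` are equal up to sign, and `ℓ ≠ 2`.
`O`: `χ ∉ N`, `y ∈ kW W`, `y ≠ 1`: `vx χ y = e χ ∑_(s ∈ O χ) s y`, `vx χ' (σ y) = e' χ' ∑_(s ∈ O' χ') s (σ y)` (`lv.vX`; `χ ∈ Iv ν` for some `ν ∈ lk k`, VXM), and they are equal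
(RFL).  The `s ∘ σ`, `s ∈ O' χ'`, are in `lk W - 1`.  So two subsets of `lk W - 1` with `n` elements have the same sum at all `y ∈ k` (`y = 1`: `n`); by Fourier inversion on `k` (GEC) they are equal. -/
def RfmStmt : Prop := ∀ (ℓ : ℕ) [Fact ℓ.Prime] (M : Ideal (integralClosure ℤ ℂ)) [M.IsMaximal],
  (ℓ : integralClosure ℤ ℂ) ∈ M → ℓ ≠ 2 → ∀ (V₀ G : Type) [CommGroup V₀] [Finite V₀] [Group G]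
  [Finite G] (E₀ : Subgroup (MulAut V₀)), Fq ℓ V₀ E₀ → ∀ B : Bk (FF M) V₀ G, Sd ℓ M E₀ B →
  ∀ W ∈ RL ℓ E₀, ∀ σ ∈ E₀, ∀ t ∈ Tg B.i.range B.g, (∀ v, t * B.i v * t⁻¹ = B.i (σ v)) →
  ∀ (N N' : Set (G → ℂ)) (e e' : (G → ℂ) → ℤ) (O O' : (G → ℂ) → Set (V₀ → ℂ)),
  Cy ℓ E₀ B W N e O → Cy ℓ E₀ B (mp σ W) N' e' O' →
  (∀ χ ∈ Ch B W, (fun g => χ (t⁻¹ * g * t)) ∈ N' ↔ χ ∈ N) →
  ∀ χ ∈ Ch B W, e' (fun g => χ (t⁻¹ * g * t)) = e χ ∧ (χ ∉ N →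
    O' (fun g => χ (t⁻¹ * g * t)) = {s | (fun v => s (σ v)) ∈ O χ})

/-- RFN: equivariance of the data.

Proof.  `χ' = fun g => χ (t⁻¹ g t)`.  `U`: `dU` for some `χ ∉ N` (VAL) and `χ'` (RFM; `χ' 1 = χ 1`, `|C (σ W)| = |C W|`).  `D`: `pr (σ x) = σ (pr x)`, `nu χ' (σ w) = nu χ w` (ACB), `e' χ' = e χ`, and
`s ↦ s ∘ σ` is a bijection of `O' χ'` onto `O χ` (RFM).  `R`: RFL (`rq`).  `et`: `χ ↦ χ'` is a bijection of `Ch B W ∩ N` onto `Ch B (σ W) ∩ N'` (RFL), `χ' ((t g t⁻¹)⁻¹) = χ g⁻¹`.  `fx`: `ac σ` maps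
`{χ ∈ Iv B W 1 ∩ N : ac g χ = χ}` bijectively onto the set for `σ W`, `σ g σ⁻¹`: `ac (σ g σ⁻¹) (ac σ χ) = ac (σ g) χ = ac σ (ac g χ)` (ACB). -/
def RfnStmt : Prop := ∀ (ℓ : ℕ) [Fact ℓ.Prime] (M : Ideal (integralClosure ℤ ℂ)) [M.IsMaximal],
  (ℓ : integralClosure ℤ ℂ) ∈ M → ℓ ≠ 2 → ∀ (V₀ G : Type) [CommGroup V₀] [Finite V₀] [Group G]
  [Finite G] (E₀ : Subgroup (MulAut V₀)), Fq ℓ V₀ E₀ → ∀ B : Bk (FF M) V₀ G, Sd ℓ M E₀ B →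
  ∀ W ∈ RL ℓ E₀, ∀ σ ∈ E₀, ∀ t ∈ Tg B.i.range B.g, (∀ v, t * B.i v * t⁻¹ = B.i (σ v)) →
  ∀ (N N' : Set (G → ℂ)) (e e' : (G → ℂ) → ℤ) (O O' : (G → ℂ) → Set (V₀ → ℂ)),
  Cy ℓ E₀ B W N e O → Cy ℓ E₀ B (mp σ W) N' e' O' →
  (∀ χ ∈ Ch B W, (fun g => χ (t⁻¹ * g * t)) ∈ N' ↔ χ ∈ N) → ∀ D : Rd V₀ G,
  Dw ℓ E₀ B W N e O D → Dw ℓ E₀ B (mp σ W) N' e' O' D →
  D.U (mp σ W) = D.U W ∧ (∀ g, D.et (mp σ W) (t * g * t⁻¹) = D.et W g) ∧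
  (∀ g ∈ E₀, mp g W = W → D.fx (mp σ W) (σ * g * σ⁻¹) = D.fx W g) ∧
  ∀ χ ∈ Ch B W, ∀ ψ ∈ Ch B W,
    (∀ x, D.D (mp σ W) (fun g => χ (t⁻¹ * g * t)) (σ x) = D.D W χ x) ∧
    D.R (mp σ W) (fun g => χ (t⁻¹ * g * t)) (fun g => ψ (t⁻¹ * g * t)) = D.R W χ ψ

/-- RFP: fixed characters.

Proof.  `g ∈ St E₀ W`: `tt g` commutes with `i(W)`, it is in `C W`, so `ac g χ = χ` for all `χ ∈ Ch B W`, `fx = |Iv 1 ∩ N| = n`.  `g ∉ St E₀ W`, `g W = W`: `g` acts on `W` (order `ℓ`) as a power `w ↦ w^a`, not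
trivially; if `χ ∈ Iv ν` is fixed then `ν (g w) = ν w` (ACB), so `ν = 1` on `W` and `ν = 1`.  The fixed `χ ∈ Iv 1 ∩ N` are counted by `fx` (`df`).  `χ ∈ Iv 1 - N`: `ac g χ ∈ Iv 1 - N` (`Ev`), and
`O (ac g χ) = {s : s ∘ g ∈ O χ}` (RFM for `σ = g`, `N' = N` .., `t = tt g`), so by `bX` `ac g χ = χ` iff `{s : s ∘ g ∈ O χ} = O χ`, iff `{s ∘ g : s ∈ O χ} = O χ`; and `χ ↦ O χ` is a bijection of `Iv 1 - N` onto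
the set of the orbits of the `s ∈ lk W`, `s ≠ 1`: the number of the fixed ones is `oW E₀ W g`. -/
def RfpStmt : Prop := ∀ (ℓ : ℕ) [Fact ℓ.Prime] (M : Ideal (integralClosure ℤ ℂ)) [M.IsMaximal],
  (ℓ : integralClosure ℤ ℂ) ∈ M → ℓ ≠ 2 → ∀ (V₀ G : Type) [CommGroup V₀] [Finite V₀] [Group G]
  [Finite G] (E₀ : Subgroup (MulAut V₀)), Fq ℓ V₀ E₀ → ∀ B : Bk (FF M) V₀ G, Sd ℓ M E₀ B →
  ∀ W ∈ RL ℓ E₀, ∀ (N : Set (G → ℂ)) (e : (G → ℂ) → ℤ) (O : (G → ℂ) → Set (V₀ → ℂ)),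
  Cy ℓ E₀ B W N e O → ∀ D : Rd V₀ G, Dw ℓ E₀ B W N e O D → Ev E₀ B W N e →
  (∀ g ∈ St E₀ W, D.fx W g = nS E₀ W) ∧
  ∀ g ∈ E₀, mp g W = W → g ∉ St E₀ W →
    ({χ | χ ∈ Ch B W ∧ ac B g χ = χ}.ncard : ℚ) = D.fx W g + oW E₀ W g

/-! ## 7. The subgroups with `Rw` -/

/-- RNA: `d1`, `d2`, `d3`, `d4` for `Rw E₀ W`.

Proof.  `St E₀ W` is trivial, `nS = 1`, `pr` is the identity, `fm c = fc c` (`et = 0`).  NSD: `lam` is a bijection of `Ch B W` onto `lin V₀`, `cv (fc c) χ = ux(c) lam χ c`.  `χ 1 = D W` (`Sd.dg`).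
`d1`, `x ∉ W` or `W = ⊤`: `W ⊔ ⟨x⟩ = ⊤`, `cv (fc x) χ = (|C W|/(|C ⊤| χ 1)) ∑_s bh ⊤ s χ (i(x) s)` (definition of `fc`, class function).  `x ∉ W`: it is `U W lam χ x`, `U W = S W |C W| D ⊤/(|C ⊤| D W)`,
`(S W)² = 1`.  `W = ⊤`: it is `lam χ x`, and `S ⊤ = 1`: `U ⊤ = S ⊤ = 1 + ℓ q` and `ℓ ≠ 2`; also `U ⊤ = 1`.
`d2`: `lam χ x` is a root of unity; `lam χ w = nu χ w` for `w ∈ W` (`fc W w = i(w) b^`).  `d3`: `lam χ x lam χ c = lam χ (x c)`.  `d4`: `∑_(μ ∈ lin V₀) μ (x y⁻¹) = ℓ² [x = y]`. -/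
def RnaStmt : Prop := ∀ (ℓ : ℕ) [Fact ℓ.Prime] (M : Ideal (integralClosure ℤ ℂ)) [M.IsMaximal],
  (ℓ : integralClosure ℤ ℂ) ∈ M → ℓ ≠ 2 → ∀ (V₀ G : Type) [CommGroup V₀] [Finite V₀] [Group G]
  [Finite G] (E₀ : Subgroup (MulAut V₀)), Fq ℓ V₀ E₀ → ∀ B : Bk (FF M) V₀ G, Sd ℓ M E₀ B →
  ∀ W : Subgroup V₀, Rw E₀ W → ∀ D : Rd V₀ G, Dn B W D →
  (nS E₀ W = 1 ∧ (W = ⊤ → D.U W = 1) ∧ ∀ c, fm ℓ E₀ B D W c = fc B W c) ∧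
  (∀ χ ∈ Ch B W, ∀ x, x ∉ W ∨ W = ⊤ →
    (B.D ⊤ : ℂ) * D.D W χ x = ∑ᶠ s, bh B ⊤ s * χ (B.i x * s)) ∧
  (∀ χ ∈ Ch B W, D.D W χ 1 ≠ 0 ∧ (∀ x, starRingEnd ℂ (D.D W χ x) = D.D W χ x⁻¹) ∧
    ∀ w ∈ W, ∀ x, D.D W χ (w * x) = nu B χ w * D.D W χ x) ∧
  (∀ χ ∈ Ch B W, ∀ c x, cv (fm ℓ E₀ B D W c) χ * D.D W χ x =
    (ux D.U W c : ℚ) * ∑ᶠ τ : St E₀ W, D.D W χ (x * (τ : MulAut V₀) c)) ∧
  ∀ x y, ∑ᶠ χ ∈ Ch B W, D.D W χ x * starRingEnd ℂ (D.D W χ y) =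
    (ℓ : ℂ) ^ 2 * {τ : MulAut V₀ | τ ∈ St E₀ W ∧ τ x = y}.ncard

/-- RNB: `d5`, `h1`, `u1` for `Rw E₀ W`.

Proof.  `d5`: `R = 0`, `nS = 1`, `D χ 1 = S W = ± 1`, so the right side is `ℓ⁻²`.  NSD (4) at a regular `h ∈ C W`: `fc W x h⁻¹ = 0` for `x ≠ 1` (the support of `fc W x` consists of elements whose `ℓ`-part is
conjugate to `i(x)`; `eh_sing`), so `χ h = (|C W|/(ℓ² D W)) bh W h⁻¹` for every `χ ∈ Ch B W`; `conj (bh W h⁻¹) = bh W h` (`bh W` is a combination of the `χ (·⁻¹)` with real coefficients), so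
`∑_h χ h conj (ψ h) = (|C W|/(ℓ² D W))² ∑_h bh W h⁻¹ bh W h` (`bh W` vanishes at the singular elements) `= (..)² bh W 1` (idempotent), `bh W 1 = ℓ² (D W)²/|C W|` (NSD (7)).  `h1`: DGD, `χ 1 = D W`.
`u1`: `Sd.un`. -/
def RnbStmt : Prop := ∀ (ℓ : ℕ) [Fact ℓ.Prime] (M : Ideal (integralClosure ℤ ℂ)) [M.IsMaximal],
  (ℓ : integralClosure ℤ ℂ) ∈ M → ℓ ≠ 2 → ∀ (V₀ G : Type) [CommGroup V₀] [Finite V₀] [Group G]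
  [Finite G] (E₀ : Subgroup (MulAut V₀)), Fq ℓ V₀ E₀ → ∀ B : Bk (FF M) V₀ G, Sd ℓ M E₀ B →
  ∀ W : Subgroup V₀, Rw E₀ W → ∀ D : Rd V₀ G, Dn B W D →
  (∀ χ ∈ Ch B W, ∀ ψ ∈ Ch B W, (Nat.card (B.C W) : ℂ)⁻¹ *
      ∑ᶠ s ∈ {s : G | s ∈ B.C W ∧ Reg ℓ s}, χ s * starRingEnd ℂ (ψ s) =
    D.D W χ 1 * starRingEnd ℂ (D.D W ψ 1) / ((ℓ : ℂ) ^ 2 * nS E₀ W) + D.R W χ ψ) ∧
  (∀ χ ∈ Ch B W, (ℓ : ℂ) ^ 2 * χ 1 / Nat.card (B.C W) ∈ RM M ∧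
    (Nat.card (B.C W) : ℂ) / ((ℓ : ℂ) ^ 2 * χ 1) ∈ RM M) ∧
  ∃ q ∈ SOR.Rl ℓ, D.U W = 1 + ℓ * q

/-- RNC: equivariance for `Rw E₀ W`.

Proof.  `Rw E₀ (σ W)` (RWD).  CJD: `U (σ W) = U W`, `S (σ W) = S W`, `fc (σ W) (σ c) (t x t⁻¹) = fc W c x`; so `cv (fc (σ W) (σ c)) χ' = cv (fc W c) χ` for `χ' = fun g => χ (t⁻¹ g t)`, and
`lam (σ W) χ' (σ c) = lam W χ c` (`ux` the same: `σ c ∈ σ W` iff `c ∈ W`). -/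
def RncStmt : Prop := ∀ (ℓ : ℕ) [Fact ℓ.Prime] (M : Ideal (integralClosure ℤ ℂ)) [M.IsMaximal],
  (ℓ : integralClosure ℤ ℂ) ∈ M → ℓ ≠ 2 → ∀ (V₀ G : Type) [CommGroup V₀] [Finite V₀] [Group G]
  [Finite G] (E₀ : Subgroup (MulAut V₀)), Fq ℓ V₀ E₀ → ∀ B : Bk (FF M) V₀ G, Sd ℓ M E₀ B →
  ∀ W : Subgroup V₀, Rw E₀ W → ∀ σ ∈ E₀, ∀ t ∈ Tg B.i.range B.g,
  (∀ v, t * B.i v * t⁻¹ = B.i (σ v)) → ∀ D : Rd V₀ G, Dn B W D → Dn B (mp σ W) D →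
  D.U (mp σ W) = D.U W ∧ Rw E₀ (mp σ W) ∧ ∀ χ ∈ Ch B W,
    (fun g => χ (t⁻¹ * g * t)) ∈ Ch B (mp σ W) ∧
    ∀ x, D.D (mp σ W) (fun g => χ (t⁻¹ * g * t)) (σ x) = D.D W χ x

/-! ## 8. Assembly

RSX (`RsxStmt` of `StmtsX.lean`), from CYW, RFA .. RFP, RNA, RNB, RNC, PRB, MPB, VAL, ACB.

Proof.  Let `xc` with `Xc ℓ E₀ B xc`.  For `W ∈ RL ℓ E₀`: `N_W = Nn ℓ E₀ B W (xc W)`; CYW for `xc W` (`Xc.m`) gives `e_W`, `O_W` with `Cy` (`Classical.choose`), and `Cy.ux` gives `q_W`.  Define `D : Rd`: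
for `Rw E₀ W` by `Dn`; for `W ∈ RL ℓ E₀` by `Dw` (`U W = 1 + ℓ q_W`, the other fields are the formulas of `Dw`); for the other `W` (only `⊥`) anything.  (`Rw E₀ W` and `W ∈ RL ℓ E₀` exclude each other.)
Every `W ≠ ⊥` satisfies `Rw E₀ W` or `W ∈ RL ℓ E₀` (PRB: `nS = 1` means `St E₀ W = {1}`).  RFL for `xc W`, `xc (σ W)` (`Xc.e`): `χ' ∈ N_(σ W)` iff `χ ∈ N_W`; for `σ = g` with `g W = W`, `t = tt g` and RFM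
(`N' = N`, `e' = e`): `Ev`.  All fields: RFA .. RFN for `W ∈ RL ℓ E₀`, RNA .. RNC for `Rw E₀ W`, the fields with `R` or `et` are trivial for `Rw E₀ W`.  `Exc`: if `nS = ℓ - 1` and `χ = xc W` then
`χ ∉ Nn` (`rq` reflexive); if `Vx χ x ≠ Vx χ y` with `x, y ∉ W`, `pr x = pr y = 1`, then `x, y ∈ kW` (GEA: `v (pr v)⁻¹ ∈ kW`), `≠ 1`, so `χ ∉ Nn` (`Vx = vx`); then `dU`, `e χ = ± 1`. -/

end Pool.Agent.PP.SE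
end
end -- Pool.Agent.ASE.Stmts2b

section -- Pool.Agent.Helper45_ASE.RSX

/-!
# Squad ASE, row RSX: assembly of block S, existence of the local data
-/

open scoped BigOperators

set_option autoImplicit false

noncomputable section

namespace Pool.Agent.PP.SE.H45

open Pool.Agent.Helper51_AWC Pool.Agent.Helper79_WRA Pool.Agent.PP Pool.Agent.PP.KF
open Pool.Agent.PP.K9 Pool.Agent.PP.K9.H97 Pool.Agent.PP.H75 Pool.Agent.PP.T3 Pool.Agent.PP.SO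
open Pool.Agent.PP.SD

attribute [local instance] Ideal.Quotient.field

section mk

variable {V₀ G : Type} [CommGroup V₀] [Group G] {M : Ideal (integralClosure ℤ ℂ)} [M.IsMaximal]

open Classical in
/-- the data -/
def mkD (ℓ : ℕ) (E₀ : Subgroup (MulAut V₀)) (B : Bk (FF M) V₀ G)
    (N : Subgroup V₀ → Set (G → ℂ)) (e : Subgroup V₀ → (G → ℂ) → ℤ)
    (O : Subgroup V₀ → (G → ℂ) → Set (V₀ → ℂ)) (q : Subgroup V₀ → ℚ) : Rd V₀ G where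
  U W := if W ∈ RL ℓ E₀ then 1 + ℓ * q W else B.U W
  D W χ x := if W ∈ RL ℓ E₀ then
      nu B χ (pr ℓ E₀ W x) * (if χ ∈ N W then (e W χ : ℂ) else e W χ * ∑ᶠ s ∈ O W χ, s x)
    else (B.S W : ℂ) * lam B W χ x
  R W χ ψ := if W ∈ RL ℓ E₀ then (if χ ∈ N W ∧ ψ ∈ N W then
    (e W χ : ℂ) * e W ψ * ((if rq ℓ B W χ ψ then 1 else 0) - (nS E₀ W : ℂ)⁻¹) / ℓ else 0) else 0
  et W g := if W ∈ RL ℓ E₀ then ∑ᶠ χ ∈ {χ | χ ∈ Ch B W ∧ χ ∈ N W}, (nS E₀ W : ℂ) *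
    ((e W χ : ℂ) * Nat.card (B.C W) * B.D ⊤ / (nS E₀ W * Nat.card (B.C ⊤) * χ 1) -
      ((1 + ℓ * q W : ℚ) : ℂ)) * (χ 1 / Nat.card (B.C W)) * χ g⁻¹ else 0
  fx W g := if W ∈ RL ℓ E₀ then
    ({χ | χ ∈ Iv B W (fun _ => 1) ∧ χ ∈ N W ∧ ac B g χ = χ}.ncard : ℚ) else 1

theorem mk_dw {ℓ : ℕ} [Fact ℓ.Prime] {E₀ : Subgroup (MulAut V₀)} {B : Bk (FF M) V₀ G}
    {N : Subgroup V₀ → Set (G → ℂ)} {e : Subgroup V₀ → (G → ℂ) → ℤ}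
    {O : Subgroup V₀ → (G → ℂ) → Set (V₀ → ℂ)} {q : Subgroup V₀ → ℚ} {W : Subgroup V₀}
    (hW : W ∈ RL ℓ E₀)
    (hq : ∀ χ ∈ Ch B W, χ ∉ N W → (e W χ : ℂ) * Nat.card (B.C W) * B.D ⊤ /
      (Nat.card (B.C ⊤) * χ 1) = ((1 + ℓ * q W : ℚ) : ℂ)) :
    Dw ℓ E₀ B W (N W) (e W) (O W) (mkD ℓ E₀ B N e O q) where
  dD := fun χ _ x => if_pos hW
  dR := fun χ _ ψ _ => if_pos hW
  dU := fun χ hχ hN => by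
    rw [hq χ hχ hN]
    have : (mkD ℓ E₀ B N e O q).U W = 1 + ℓ * q W := if_pos hW
    rw [this]
  de := fun g => by
    have h1 : (mkD ℓ E₀ B N e O q).U W = 1 + ℓ * q W := if_pos hW
    rw [h1]
    exact if_pos hW
  df := fun g _ _ => if_pos hW

theorem mk_dn {ℓ : ℕ} [Fact ℓ.Prime] {E₀ : Subgroup (MulAut V₀)} {B : Bk (FF M) V₀ G}
    {N : Subgroup V₀ → Set (G → ℂ)} {e : Subgroup V₀ → (G → ℂ) → ℤ}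
    {O : Subgroup V₀ → (G → ℂ) → Set (V₀ → ℂ)} {q : Subgroup V₀ → ℚ} {W : Subgroup V₀}
    (hW : W ∉ RL ℓ E₀) : Dn B W (mkD ℓ E₀ B N e O q) where
  dU := if_neg hW
  dD := fun χ _ x => if_neg hW
  dR := fun χ ψ => if_neg hW
  de := funext fun g => if_neg hW
  df := fun g => if_neg hW

end mk

theorem cv_zero {G : Type} [Group G] (χ : G → ℂ) : cv (0 : G → ℂ) χ = 0 := by
  unfold cv
  simp

theorem rsx (cyw : CywStmt) (hRFA : RfaStmt) (hRFB : RfbStmt) (hRFC : RfcStmt) (hRFD : RfdStmt)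
    (hRFE : RfeStmt) (hRFF : RffStmt) (hRFG : RfgStmt) (hRFH : RfhStmt) (hRFI : RfiStmt)
    (hRFJ : RfjStmt) (hRFK : RfkStmt) (hRFL : RflStmt) (hRFM : RfmStmt) (hRFN : RfnStmt)
    (hRFP : RfpStmt) (hRNA : RnaStmt) (hRNB : RnbStmt) (hRNC : RncStmt) (prb : PrbStmt)
    (mpb : MpbStmt) (val : ValStmt) (acb : AcbStmt) (gea : GeaStmt) (vxm : VxmStmt) :
    RsxStmt := by
  intro ℓ _ M _ hM h2 V₀ G _ _ _ _ E₀ hF B hB xc hxc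
  have hlp : ℓ.Prime := Fact.out
  have hSb : Sb ℓ M E₀ B := hB.toSb
  obtain ⟨N, hNd⟩ : ∃ N : Subgroup V₀ → Set (G → ℂ), ∀ W, N W = Nn ℓ E₀ B W (xc W) :=
    ⟨fun W => Nn ℓ E₀ B W (xc W), fun _ => rfl⟩
  have hex : ∀ W, W ∈ RL ℓ E₀ → ∃ (e : (G → ℂ) → ℤ) (O : (G → ℂ) → Set (V₀ → ℂ)),
      Cy ℓ E₀ B W (N W) e O := by
    intro W hW
    rw [hNd]
    exact cyw ℓ M hM h2 V₀ G E₀ hF B hB W hW (xc W) (fun h => hxc.m W hW h)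
  choose! e O hCy using hex
  have hex2 : ∀ W, W ∈ RL ℓ E₀ → ∃ q, q ∈ SOR.Rl ℓ ∧ ∀ χ ∈ Ch B W, χ ∉ N W →
      (e W χ : ℂ) * Nat.card (B.C W) * B.D ⊤ / (Nat.card (B.C ⊤) * χ 1) =
        ((1 + ℓ * q : ℚ) : ℂ) := by
    intro W hW
    obtain ⟨q, hq, h⟩ := (hCy W hW).ux
    exact ⟨q, hq, h⟩
  choose! q hq1 hq2 using hex2
  obtain ⟨D, hDw, hDn⟩ : ∃ D : Rd V₀ G,
      (∀ W, W ∈ RL ℓ E₀ → Dw ℓ E₀ B W (N W) (e W) (O W) D) ∧ ∀ W, W ∉ RL ℓ E₀ → Dn B W D :=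
    ⟨mkD ℓ E₀ B N e O q, fun W hW => mk_dw hW (hq2 W hW), fun W hW => mk_dn hW⟩
  have hcase : ∀ W : Subgroup V₀, W ≠ ⊥ →
      W ∈ RL ℓ E₀ ∨ (Rw E₀ W ∧ W ∉ RL ℓ E₀ ∧ nS E₀ W = 1) := by
    intro W hW
    by_cases h : W ∈ RL ℓ E₀
    · exact Or.inl h
    · refine Or.inr ?_
      have h1 : nS E₀ W = 1 := ((prb ℓ V₀ E₀ hF W).2.2.2.2.2.2.1 hW).1.resolve_right h
      refine ⟨⟨hW, fun σ hσ hf => ?_⟩, h, h1⟩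
      have h3 : St E₀ W = ⊥ := Subgroup.card_eq_one.1 h1
      have h4 : σ ∈ St E₀ W := ⟨hσ, hf⟩
      rw [h3] at h4
      exact Subgroup.mem_bot.1 h4
  have hnot : ∀ W : Subgroup V₀, Rw E₀ W → W ∉ RL ℓ E₀ := by
    intro W hW h
    rcases hcase W hW.1 with h' | h'
    · have h1 : nS E₀ W = 1 := by
        refine Subgroup.card_eq_one.2 ?_
        rw [Subgroup.eq_bot_iff_forall]
        intro σ hσ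
        exact hW.2 σ hσ.1 hσ.2
      have h2 := h'.2
      rw [h1] at h2
      exact lt_irrefl _ h2
    · exact h'.2.1 h
  have hmp : ∀ σ ∈ E₀, ∀ W : Subgroup V₀, mp σ W ∈ RL ℓ E₀ ↔ W ∈ RL ℓ E₀ := by
    intro σ hσ W
    have h1 : Nat.card (mp σ W) = Nat.card W := (mpb V₀ σ 1 W W).2.2.1
    have h3 : nS E₀ (mp σ W) = nS E₀ W := ((prb ℓ V₀ E₀ hF W).2.2.2.1 σ hσ).1
    show (Nat.card (mp σ W) = ℓ ∧ 1 < nS E₀ (mp σ W)) ↔ (Nat.card W = ℓ ∧ 1 < nS E₀ W)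
    rw [h1, h3]
  have htop : ∀ W ∈ RL ℓ E₀, W ≠ ⊤ ∧ W ≠ ⊥ := fun W hW =>
    ⟨((gea ℓ V₀ E₀ hF W hW).1).2.2.2.2.2.2.2, ((gea ℓ V₀ E₀ hF W hW).1).2.2.2.2.2.2.1⟩
  have hN : ∀ W ∈ RL ℓ E₀, ∀ σ ∈ E₀, ∀ t ∈ Tg B.i.range B.g,
      (∀ v, t * B.i v * t⁻¹ = B.i (σ v)) → ∀ χ ∈ Ch B W,
      ((fun g => χ (t⁻¹ * g * t)) ∈ N (mp σ W) ↔ χ ∈ N W) := by
    intro W hW σ hσ t ht htv χ hχ
    rw [hNd, hNd]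
    exact ((hRFL ℓ M hM h2 V₀ G E₀ hF B hB W hW σ hσ t ht htv).1 χ hχ).2.2.2.2 (xc W)
      (xc (mp σ W)) (fun hn => hxc.e W hW hn σ hσ t ht htv)
  have htt := (acb ℓ M hM h2 V₀ G E₀ hF B hSb).1
  have hEv : ∀ W ∈ RL ℓ E₀, Ev E₀ B W (N W) (e W) := by
    intro W hW g hg hgW χ hχ
    obtain ⟨htT, htv⟩ := htt g hg
    have h1 := (hRFL ℓ M hM h2 V₀ G E₀ hF B hB W hW g hg (tt B g) htT htv).1 χ hχ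
    have h3 := hN W hW g hg (tt B g) htT htv χ hχ
    have h4 := (hRFM ℓ M hM h2 V₀ G E₀ hF B hB W hW g hg (tt B g) htT htv (N W) (N (mp g W))
      (e W) (e (mp g W)) (O W) (O (mp g W)) (hCy W hW) (hCy (mp g W) ((hmp g hg W).2 hW))
      (fun χ hχ => hN W hW g hg (tt B g) htT htv χ hχ) χ hχ).1
    rw [hgW] at h3 h4
    rw [h1.2.1]
    exact ⟨h3, h4⟩
  have hA := fun W hW => hRFA ℓ M hM h2 V₀ G E₀ hF B hB W hW (N W) (e W) (O W) (hCy W hW) D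
    (hDw W hW)
  have hBB := fun W hW => hRFB ℓ M hM h2 V₀ G E₀ hF B hB W hW (N W) (e W) (O W) (hCy W hW) D
    (hDw W hW)
  have hC := fun W hW => hRFC ℓ M hM h2 V₀ G E₀ hF B hB W hW (N W) (e W) (O W) (hCy W hW) D
    (hDw W hW)
  have hDD := fun W hW => hRFD ℓ M hM h2 V₀ G E₀ hF B hB W hW (N W) (e W) (O W) (hCy W hW) D
    (hDw W hW)
  have hE := fun W hW => hRFE ℓ M hM h2 V₀ G E₀ hF B hB W hW (N W) (e W) (O W) (hCy W hW) D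
    (hDw W hW)
  have hFF := fun W hW => hRFF ℓ M hM h2 V₀ G E₀ hF B hB W hW (N W) (e W) (O W) (hCy W hW) D
    (hDw W hW) (hEv W hW)
  have hG := fun W hW => hRFG ℓ M hM h2 V₀ G E₀ hF B hB W hW (N W) (e W) (O W) (hCy W hW) D
    (hDw W hW)
  have hH := fun W hW => hRFH ℓ M hM h2 V₀ G E₀ hF B hB W hW (N W) (e W) (O W) (hCy W hW) D
    (hDw W hW)
  have hI := fun W hW => hRFI ℓ M hM h2 V₀ G E₀ hF B hB W hW (N W) (e W) (O W) (hCy W hW) D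
    (hDw W hW)
  have hJ := fun W hW => hRFJ ℓ M hM h2 V₀ G E₀ hF B hB W hW (N W) (e W) (O W) (hCy W hW) D
    (hDw W hW)
  have hK := fun W hW => hRFK ℓ M hM h2 V₀ G E₀ hF B hB W hW (N W) (e W) (O W) (hCy W hW) D
    (hDw W hW) (hEv W hW)
  have hP := fun W hW => hRFP ℓ M hM h2 V₀ G E₀ hF B hB W hW (N W) (e W) (O W) (hCy W hW) D
    (hDw W hW) (hEv W hW)
  have hV := fun W hW => val ℓ M hM h2 V₀ G E₀ hF B hB W hW (N W) (e W) (O W) (hCy W hW) D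
    (hDw W hW)
  have hNN : ∀ W ∈ RL ℓ E₀, ∀ σ ∈ E₀, ∀ t ∈ Tg B.i.range B.g,
      (∀ v, t * B.i v * t⁻¹ = B.i (σ v)) → _ := fun W hW σ hσ t ht htv =>
    hRFN ℓ M hM h2 V₀ G E₀ hF B hB W hW σ hσ t ht htv (N W) (N (mp σ W)) (e W) (e (mp σ W))
      (O W) (O (mp σ W)) (hCy W hW) (hCy (mp σ W) ((hmp σ hσ W).2 hW))
      (fun χ hχ => hN W hW σ hσ t ht htv χ hχ) D (hDw W hW)
      (hDw (mp σ W) ((hmp σ hσ W).2 hW))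
  have hnA := fun W hW => hRNA ℓ M hM h2 V₀ G E₀ hF B hB W hW D (hDn W (hnot W hW))
  have hnB := fun W hW => hRNB ℓ M hM h2 V₀ G E₀ hF B hB W hW D (hDn W (hnot W hW))
  have hnC : ∀ W (hW : Rw E₀ W), ∀ σ ∈ E₀, ∀ t ∈ Tg B.i.range B.g,
      (∀ v, t * B.i v * t⁻¹ = B.i (σ v)) → _ := fun W hW σ hσ t ht htv =>
    hRNC ℓ M hM h2 V₀ G E₀ hF B hB W hW σ hσ t ht htv D (hDn W (hnot W hW))
      (hDn (mp σ W) (fun h => hnot W hW ((hmp σ hσ W).1 h)))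
  have hRtop : Rw E₀ (⊤ : Subgroup V₀) := by
    have h1 : (⊤ : Subgroup V₀) ≠ ⊥ := by
      intro h
      have h3 := hF.cd
      rw [← Subgroup.card_top, h, Subgroup.card_bot] at h3
      have h4 : 1 < ℓ ^ 2 := Nat.one_lt_pow (by norm_num) hlp.one_lt
      omega
    rcases hcase ⊤ h1 with h | h
    · exact absurd rfl (htop _ h).1
    · exact h.1
  refine ⟨D, ?_, fun W hW => (hDn W (hnot W hW)).dU, ?_, fun W hW => (hP W hW).1,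
    fun W hW => (hP W hW).2⟩
  · refine ⟨?_, ?_, ?_, ?_, ?_, ?_, ?_, ?_, ?_, ?_, ?_, ?_, ?_, ?_, ?_, ?_, ?_, ?_, ?_, ?_, ?_, ?_,
      ?_⟩
    -- ut
    · exact (hnA ⊤ hRtop).1.2.1 rfl
    -- u1
    · intro W hW
      rcases hcase W hW with h | h
      · exact (hV W h).2.1
      · exact (hnB W h.1).2.2
    -- ue
    · intro W hW σ hσ
      obtain ⟨htT, htv⟩ := htt σ hσ
      rcases hcase W hW with h | h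
      · exact (hNN W h σ hσ (tt B σ) htT htv).1
      · exact (hnC W h.1 σ hσ (tt B σ) htT htv).1
    -- d1
    · intro W hW χ hχ x hx
      rcases hcase W hW with h | h
      · exact (hA W h).1 χ hχ x (hx.resolve_right (htop W h).1)
      · exact (hnA W h.1).2.1 χ hχ x hx
    -- d2
    · intro W hW χ hχ
      rcases hcase W hW with h | h
      · exact (hA W h).2 χ hχ
      · exact (hnA W h.1).2.2.1 χ hχ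
    -- d3
    · intro W hW
      rcases hcase W hW with h | h
      · exact hC W h
      · exact (hnA W h.1).2.2.2.1
    -- d4
    · intro W hW
      rcases hcase W hW with h | h
      · exact hBB W h
      · exact (hnA W h.1).2.2.2.2
    -- d5
    · intro W hW
      rcases hcase W hW with h | h
      · exact (hDD W h).1
      · exact (hnB W h.1).1
    -- d6
    · intro W hW ψ hψ
      rcases hcase W hW with h | h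
      · exact (hDD W h).2 ψ hψ
      · have hR := (hDn W h.2.1).dR
        refine ⟨fun x => ?_, fun χ _ => ?_⟩
        · simp only [hR, mul_zero, finsum_zero]
        · rw [hR, hR]
          exact ⟨rfl, map_zero _⟩
    -- d7
    · intro W hW ψ hψ ψ' hψ' z hz c
      rcases hcase W hW with h | h
      · have h5 := hE W h ψ hψ ψ' hψ' z hz c
        rw [h5]
      · have hR := (hDn W h.2.1).dR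
        simp only [hR, mul_zero, zero_mul, finsum_zero, ite_self]
    -- d8
    · intro W hW g hg hgW z hz c
      rcases hcase W hW with h | h
      · have h5 := hFF W h g hg hgW z hz c
        rw [h5]
      · have hR := (hDn W h.2.1).dR
        have hf := (hDn W h.2.1).df
        simp only [hR, hf, mul_zero, finsum_zero, Rat.cast_one, sub_self, ite_self]
    -- f1
    · intro W hW hn
      have h : W ∉ RL ℓ E₀ := fun h => by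
        have h5 := h.2
        rw [hn] at h5
        exact lt_irrefl _ h5
      exact ⟨(hDn W h).de, (hDn W h).df⟩
    -- fe
    · intro W hW σ hσ g hg hgW
      obtain ⟨htT, htv⟩ := htt σ hσ
      rcases hcase W hW with h | h
      · exact (hNN W h σ hσ (tt B σ) htT htv).2.2.1 g hg hgW
      · rw [(hDn W h.2.1).df, (hDn (mp σ W) (fun h' => h.2.1 ((hmp σ hσ W).1 h'))).df]
    -- e1
    · intro W hW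
      rcases hcase W hW with h | h
      · exact (hV W h).2.2.1
      · rw [(hDn W h.2.1).de]
        exact ⟨fun _ _ => rfl, fun _ _ _ => rfl, fun ψ _ _ _ => cv_zero ψ⟩
    -- e2
    · intro W hW g hg
      rcases hcase W hW with h | h
      · exact hG W h g hg
      · rw [(hDn W h.2.1).de]
        rfl
    -- e3
    · intro W hW χ hχ h0
      rcases hcase W hW with h | h
      · exact (hH W h).1 χ hχ h0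
      · rw [(hDn W h.2.1).de] at h0
        exact absurd (cv_zero χ) h0
    -- e4
    · intro W hW χ hχ
      rcases hcase W hW with h | h
      · exact (hH W h).2.1 χ hχ
      · rw [(hDn W h.2.1).de, cv_zero, zero_div]
        exact Subring.zero_mem _
    -- e5
    · intro W hW s hs
      rcases hcase W hW with h | h
      · exact hI W h s hs
      · rw [(hDn W h.2.1).de, Pi.zero_apply, mul_zero, zero_div]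
        exact Subring.zero_mem _
    -- e6
    · intro W hW κ hκ τ hτ y
      exact hK W hW κ hκ τ hτ y
    -- e7
    · intro W hW κ hκ
      exact (hJ W hW).2 κ hκ
    -- e8
    · intro W hW σ hσ t ht htv
      rcases hcase W hW with h | h
      · have h5 := hNN W h σ hσ t ht htv
        exact ⟨h5.2.1, h5.2.2.2⟩
      · have h5 := hnC W h.1 σ hσ t ht htv
        have h6 := hDn (mp σ W) (fun h' => h.2.1 ((hmp σ hσ W).1 h'))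
        have h7 := hDn W h.2.1
        refine ⟨fun g => ?_, fun χ hχ ψ hψ => ⟨(h5.2.2 χ hχ).2, ?_⟩⟩
        · rw [h6.de, h7.de]
          rfl
        · rw [h6.dR, h7.dR]
    -- e9
    · intro W hW χ hχ
      rcases hcase W hW with h | h
      · exact (hH W h).2.2.1 χ hχ
      · refine ⟨0, ?_⟩
        rw [(hDn W h.2.1).de, cv_zero, Rat.cast_zero]
    -- h1
    · intro W hW χ hχ
      rcases hcase W hW with h | h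
      · exact (hH W h).2.2.2 χ hχ
      · exact (hnB W h.1).2.1 χ hχ
  -- exceptional characters
  · intro W hW χ hχ
    obtain ⟨hCh, hex⟩ := hχ
    have hχN : χ ∉ N W := by
      rw [hNd]
      rintro ⟨-, hc, hx⟩
      rcases hex with ⟨hn, rfl⟩ | ⟨x, y, hxW, hyW, hx1, hy1, hxy⟩
      · exact hx hn (fun g _ _ => rfl)
      · apply hxy
        have hg := (gea ℓ V₀ E₀ hF W hW)
        have hxk : x ∈ kW E₀ W := by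
          have h5 := (hg.2.1 x).2
          rw [hx1, inv_one, mul_one] at h5
          exact h5
        have hyk : y ∈ kW E₀ W := by
          have h5 := (hg.2.1 y).2
          rw [hy1, inv_one, mul_one] at h5
          exact h5
        have h5 := hc x hxk y hyk (fun h => hxW (h ▸ W.one_mem)) (fun h => hyW (h ▸ W.one_mem))
        unfold vx at h5
        unfold Vx
        rw [mul_comm, mul_comm (B.D ⊤ : ℂ)⁻¹, ← div_eq_mul_inv, ← div_eq_mul_inv]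
        exact h5
    have hU := (hDw W hW).dU χ hCh hχN
    obtain ⟨ν, hν, hχν⟩ := ((vxm ℓ M hM h2 V₀ G E₀ hF B hB W hW χ hCh).2.1).2.2.2.1
    rcases ((hCy W hW).lv ν hν).sg χ hχν with h | h
    · left
      rw [← hU, h]
      push_cast
      ring
    · right
      rw [← hU, h]
      push_cast
      ring

end Pool.Agent.PP.SE.H45
end
end -- Pool.Agent.Helper45_ASE.RSX
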