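import Pool.Agent.Helper12_AWB.B224

/-!
# Merged copies (generated) of the modules

* `Pool.Agent.Helper31_ASE.CYW`
* `Pool.Agent.Helper65_ASO.KM1`
* `Pool.Agent.Helper65_ASE.CSB`
* `Pool.Agent.Helper65_ASE.RFJ`
* `Pool.Agent.Helper82_ASE.GEB`
* `Pool.Agent.Helper18_ASE.KE1`
* `Pool.Agent.Helper82_ASE.HEX`
-/

set_option autoImplicit false

section -- Pool.Agent.Helper31_ASE.CYW

/-!
# Squad ASE, row CYW: the structure of the block of the centraliser of a reflection line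
-/

open scoped BigOperators

set_option autoImplicit false

noncomputable section

namespace Pool.Agent.PP.SE.H31W

open Pool.Agent.Helper51_AWC Pool.Agent.Helper79_WRA Pool.Agent.PP Pool.Agent.PP.KF
open Pool.Agent.PP.K9 Pool.Agent.PP.K9.H97 Pool.Agent.PP.H75 Pool.Agent.PP.T3 Pool.Agent.PP.SO
open Pool.Agent.PP.SD

attribute [local instance] Ideal.Quotient.field

/-! ## Residues of rational numbers -/

section res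

variable {M : Ideal (integralClosure ℤ ℂ)} [M.IsMaximal]

theorem rat_RM {ℓ : ℕ} [hℓ : Fact ℓ.Prime] (hM : (ℓ : integralClosure ℤ ℂ) ∈ M) {q : ℚ}
    (h : (q : ℂ) ∈ RM M) : q ∈ SOR.Rl ℓ := by
  intro hd
  have e1 : (q.num : ℂ) = (q : ℂ) * ((q.den : ℤ) : ℂ) := by
    have h1 : (q : ℚ) * q.den = q.num := Rat.mul_den_eq_num q
    have h2 := congrArg (fun r : ℚ => (r : ℂ)) h1
    push_cast at h2 ⊢
    exact h2.symm
  have e2 : rr M ((q.den : ℤ) : ℂ) = 0 := by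
    rw [dvd_of_rr hℓ.out hM]
    exact_mod_cast hd
  have e3 : rr M (q.num : ℂ) = 0 := by
    rw [e1, rr_mul h (rr_int _).1, e2, mul_zero]
  rw [dvd_of_rr hℓ.out hM] at e3
  have h3 : ℓ ∣ q.num.natAbs := Int.natCast_dvd.1 e3
  have h4 := Nat.Coprime.eq_one_of_dvd
    (Nat.Coprime.coprime_dvd_left h3 q.reduced) hd
  exact hℓ.out.one_lt.ne' h4

/-- a rational number in the local ring with residue `1` -/
theorem rat_one {ℓ : ℕ} [hℓ : Fact ℓ.Prime] (hM : (ℓ : integralClosure ℤ ℂ) ∈ M) {q : ℚ}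
    (h : (q : ℂ) ∈ RM M) (h1 : rr M (q : ℂ) = 1) : ∃ r ∈ SOR.Rl ℓ, q = 1 + ℓ * r := by
  have hden : ¬ ℓ ∣ q.den := rat_RM hM h
  have e1 : (q.num : ℂ) = (q : ℂ) * ((q.den : ℤ) : ℂ) := by
    have h1 : (q : ℚ) * q.den = q.num := Rat.mul_den_eq_num q
    have h2 := congrArg (fun r : ℚ => (r : ℂ)) h1
    push_cast at h2 ⊢
    exact h2.symm
  have e3 : rr M (q.num : ℂ) = rr M ((q.den : ℤ) : ℂ) := by
    rw [e1, rr_mul h (rr_int _).1, h1, one_mul]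
  have e4 : rr M (((q.num - (q.den : ℤ) : ℤ)) : ℂ) = 0 := by
    rw [Int.cast_sub, rr_sub (rr_int _).1 (rr_int _).1, e3, sub_self]
  rw [dvd_of_rr hℓ.out hM] at e4
  obtain ⟨k, hk⟩ := e4
  have hd0 : (q.den : ℚ) ≠ 0 := Nat.cast_ne_zero.2 q.den_ne_zero
  refine ⟨(k : ℚ) / q.den, ?_, ?_⟩
  · apply rat_RM hM
    have e5 : (((k : ℚ) / q.den : ℚ) : ℂ) = (k : ℂ) * ((q.den : ℂ))⁻¹ := by
      push_cast
      rw [div_eq_mul_inv]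
    rw [e5]
    exact (RM M).mul_mem (rr_int _).1 (inv_nat_RM hℓ.out hM hden)
  · have e6 : (q.num : ℚ) = q.den + ℓ * k := by
      have h5 : q.num = q.den + ℓ * k := by linarith
      exact_mod_cast h5
    have e8 : q * q.den = q.den + ℓ * k := by
      rw [← e6]
      exact Rat.mul_den_eq_num q
    obtain ⟨D, hD⟩ : ∃ D : ℚ, D = (q.den : ℚ) := ⟨_, rfl⟩
    rw [← hD] at e8 hd0 ⊢
    field_simp
    linarith

/-- the residue of an `ℓ`-th root of unity -/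
theorem root_res {ℓ : ℕ} [hℓ : Fact ℓ.Prime] (hM : (ℓ : integralClosure ℤ ℂ) ∈ M) {ζ : ℂ}
    (hζ : ζ ^ ℓ = 1) : ζ ∈ RM M ∧ rr M ζ = 1 := by
  have hq : ℓ ≠ 0 := hℓ.out.ne_zero
  have hR : ζ ∈ RM M := by
    refine RM_of_int ⟨Polynomial.X ^ ℓ - 1, Polynomial.monic_X_pow_sub_C 1 hq, ?_⟩
    simp [hζ]
  have hch : CharP (FF M) ℓ := (H50.fld ℓ Fact.out M hM).char
  refine ⟨hR, ?_⟩
  have h1 : (rr M ζ - 1) ^ ℓ = rr M ζ ^ ℓ - 1 ^ ℓ :=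
    sub_pow_char_of_commute _ (Commute.all _ _)
  have h2 : rr M (ζ ^ ℓ) = rr M ζ ^ ℓ := map_pow (rrHom M) ⟨ζ, hR⟩ _
  rw [← h2, hζ, rr_one, one_pow, sub_self] at h1
  exact sub_eq_zero.1 ((pow_eq_zero_iff hq).1 h1)

/-- the residue of a natural number prime to `ℓ` -/
theorem nat_ne {ℓ : ℕ} [hℓ : Fact ℓ.Prime] (hM : (ℓ : integralClosure ℤ ℂ) ∈ M) {n : ℕ}
    (hn : ¬ ℓ ∣ n) : ((n : ℕ) : FF M) ≠ 0 := by
  intro h
  have h1 := (dvd_of_rr (M := M) hℓ.out hM (n := n)).1 (by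
    have := (rr_nat (M := M) n).2
    rw [h] at this
    exact_mod_cast this)
  exact hn (by exact_mod_cast h1)

end res

/-- the signs are determined -/
theorem sign_eq {ℓ : ℕ} [hℓ : Fact ℓ.Prime] (hl : ℓ ≠ 2) {a b : ℤ} (ha : a = 1 ∨ a = -1)
    (hb : b = 1 ∨ b = -1) {K : ℂ} {q r : ℚ} (hq : q ∈ SOR.Rl ℓ) (hr : r ∈ SOR.Rl ℓ)
    (h1 : (a : ℂ) * K = ((1 + ℓ * q : ℚ) : ℂ)) (h2 : (b : ℂ) * K = ((1 + ℓ * r : ℚ) : ℂ)) :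
    a = b := by
  by_contra hab
  have hba : b = -a := by
    rcases ha with ha | ha <;> rcases hb with hb | hb <;> rw [ha, hb] at hab ⊢ <;>
      first | rfl | exact absurd rfl hab | norm_num
  have h3 : ((1 + ℓ * q : ℚ) : ℂ) + ((1 + ℓ * r : ℚ) : ℂ) = 0 := by
    rw [← h1, ← h2, hba]
    push_cast
    ring
  have h4 : (1 + ℓ * q) + (1 + ℓ * r) = 0 := by exact_mod_cast h3
  have h5 : ¬ ℓ ∣ (-(q + r)).den := (SOR.Rl ℓ).neg_mem ((SOR.Rl ℓ).add_mem hq hr)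
  have h6 : (ℓ : ℚ) * (-(q + r)) = 2 := by linarith
  have h7 : (-(q + r)) * (-(q + r)).den = (-(q + r)).num := Rat.mul_den_eq_num _
  have h8 : (ℓ : ℚ) * (-(q + r)).num = 2 * (-(q + r)).den := by
    rw [← h7, ← mul_assoc, h6]
  have h9 : (ℓ : ℤ) * (-(q + r)).num = 2 * (-(q + r)).den := by exact_mod_cast h8
  have h10 : (ℓ : ℤ) ∣ 2 * ((-(q + r)).den : ℤ) := ⟨_, h9.symm⟩
  have h11 : ℓ ∣ 2 * (-(q + r)).den := by exact_mod_cast h10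
  rcases hℓ.out.dvd_mul.1 h11 with h12 | h12
  · exact hl ((Nat.prime_dvd_prime_iff_eq hℓ.out Nat.prime_two).1 h12)
  · exact h5 h12

/-! ## Numbers -/

theorem num1 {n ℓ : ℕ} (hn : 1 < n) (hl : 0 < ℓ) {e : ℤ} (he : e = 1 ∨ e = -1)
    (h : ((1 - (n : ℂ)⁻¹) / ℓ + ((n : ℂ) * ℓ ^ 2)⁻¹) =
      e * ((0 - (n : ℂ)⁻¹) / ℓ + ((n : ℂ) * ℓ ^ 2)⁻¹)) : False := by
  have hn0 : (n : ℂ) ≠ 0 := Nat.cast_ne_zero.2 (by omega)
  have hl0 : (ℓ : ℂ) ≠ 0 := Nat.cast_ne_zero.2 (by omega)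
  have h1 : ((n : ℂ) - 1) * ℓ + 1 = e * (1 - ℓ) := by
    have h2 := congrArg (fun z => z * ((n : ℂ) * ℓ ^ 2)) h
    have e1 : ((1 - (n : ℂ)⁻¹) / ℓ + ((n : ℂ) * ℓ ^ 2)⁻¹) * ((n : ℂ) * ℓ ^ 2) =
        ((n : ℂ) - 1) * ℓ + 1 := by
      field_simp
    have e2 : e * ((0 - (n : ℂ)⁻¹) / ℓ + ((n : ℂ) * ℓ ^ 2)⁻¹) * ((n : ℂ) * ℓ ^ 2) =
        e * (1 - ℓ) := by
      field_simp
      ring
    rw [← e1, ← e2]
    exact h2
  have h2 : ((n : ℤ) - 1) * ℓ + 1 = e * (1 - ℓ) := by exact_mod_cast h1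
  have hn' : (1 : ℤ) < n := by exact_mod_cast hn
  have hl' : (0 : ℤ) < ℓ := by exact_mod_cast hl
  rcases he with rfl | rfl
  · nlinarith
  · nlinarith

theorem num2 {n ℓ : ℕ} (hn : 1 < n) (hl : 0 < ℓ)
    (h : ((1 - (n : ℂ)⁻¹) / ℓ + ((n : ℂ) * ℓ ^ 2)⁻¹) = n / (ℓ : ℂ) ^ 2) : n = ℓ - 1 := by
  have hn0 : (n : ℂ) ≠ 0 := Nat.cast_ne_zero.2 (by omega)
  have hl0 : (ℓ : ℂ) ≠ 0 := Nat.cast_ne_zero.2 (by omega)
  have h1 : ((n : ℂ) - 1) * ℓ + 1 = n ^ 2 := by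
    have h2 := congrArg (fun z => z * ((n : ℂ) * ℓ ^ 2)) h
    have e1 : ((1 - (n : ℂ)⁻¹) / ℓ + ((n : ℂ) * ℓ ^ 2)⁻¹) * ((n : ℂ) * ℓ ^ 2) =
        ((n : ℂ) - 1) * ℓ + 1 := by
      field_simp
    have e2 : (n : ℂ) / (ℓ : ℂ) ^ 2 * ((n : ℂ) * ℓ ^ 2) = n ^ 2 := by
      field_simp
    rw [← e1, ← e2]
    exact h2
  have h2 : ((n : ℤ) - 1) * ℓ + 1 = (n : ℤ) ^ 2 := by exact_mod_cast h1
  have h3 : ((n : ℤ) - 1) * ((n : ℤ) + 1 - ℓ) = 0 := by linear_combination -h2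
  have hn' : (1 : ℤ) < n := by exact_mod_cast hn
  have h4 := (mul_eq_zero.1 h3).resolve_left (by omega)
  omega

theorem num3 {n ℓ : ℕ} (hn : 1 < n) (hl : 0 < ℓ) {e : ℤ} (he : e = 1 ∨ e = -1)
    (h : (e : ℂ) / (ℓ : ℂ) ^ 2 = n / (ℓ : ℂ) ^ 2) : False := by
  have hl0 : (ℓ : ℂ) ^ 2 ≠ 0 := pow_ne_zero _ (Nat.cast_ne_zero.2 (by omega))
  have h1 : (e : ℂ) = n := (div_left_inj' hl0).1 h
  have h2 : e = (n : ℤ) := by exact_mod_cast h1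
  have hn' : (1 : ℤ) < n := by exact_mod_cast hn
  omega

/-! ## Restrictions to the regular elements -/

section blk

variable {V₀ G : Type} [CommGroup V₀] [Group G] {M : Ideal (integralClosure ℤ ℂ)}
  [M.IsMaximal] {ℓ : ℕ} {B : Bk (FF M) V₀ G} {W : Subgroup V₀} {E₀ : Subgroup (MulAut V₀)}

theorem rq_symm {χ ψ : G → ℂ} (h : rq ℓ B W χ ψ) : rq ℓ B W ψ χ := fun g hg h1 => (h g hg h1).symm

theorem rq_trans {χ ψ θ : G → ℂ} (h : rq ℓ B W χ ψ) (h' : rq ℓ B W ψ θ) : rq ℓ B W χ θ :=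
  fun g hg h1 => (h g hg h1).trans (h' g hg h1)

theorem rq_one {χ ψ : G → ℂ} (h : rq ℓ B W χ ψ) : χ 1 = ψ 1 := by
  refine h 1 (B.C W).one_mem ?_
  unfold Reg
  rw [orderOf_one]
  exact Nat.coprime_one_left ℓ

theorem rip_congr {χ ψ χ' ψ' : G → ℂ} (h : rq ℓ B W χ χ') (h' : rq ℓ B W ψ ψ') :
    rip ℓ B W χ ψ = rip ℓ B W χ' ψ' := by
  unfold rip
  rw [finsum_mem_congr rfl fun s hs => by rw [h s hs.1 hs.2, h' s hs.1 hs.2]]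

theorem rip_smul {χ ψ : G → ℂ} (c : ℂ)
    (h : ∀ g ∈ B.C W, Reg ℓ g → χ g = c * ψ g) (θ : G → ℂ) :
    rip ℓ B W χ θ = c * rip ℓ B W ψ θ := by
  unfold rip
  have h1 : ∑ᶠ s ∈ {s : G | s ∈ B.C W ∧ Reg ℓ s}, χ s * starRingEnd ℂ (θ s) =
      c * ∑ᶠ s ∈ {s : G | s ∈ B.C W ∧ Reg ℓ s}, ψ s * starRingEnd ℂ (θ s) := by
    rw [mul_finsum_mem]
    exact finsum_mem_congr rfl fun s hs => by rw [h s hs.1 hs.2, mul_assoc]
  rw [h1]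
  ring

theorem iv_ch {ν : V₀ → ℂ} {χ : G → ℂ} (h : χ ∈ Iv B W ν) : χ ∈ Ch B W := h.1

theorem ch_one {χ : G → ℂ} (h : χ ∈ Ch B W) : ∃ d : ℕ, 0 < d ∧ χ 1 = d :=
  irr_one (G := B.C W) h.2.1

theorem lv_congr {ν : V₀ → ℂ} {N N' : Set (G → ℂ)} {e e' : (G → ℂ) → ℤ}
    {O O' : (G → ℂ) → Set (V₀ → ℂ)} (h : Lv E₀ B W ν N e O)
    (hN : ∀ χ ∈ Iv B W ν, (χ ∈ N ↔ χ ∈ N')) (he : ∀ χ ∈ Iv B W ν, e' χ = e χ)
    (hO : ∀ χ ∈ Iv B W ν, O' χ = O χ) : Lv E₀ B W ν N' e' O' where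
  sg χ hχ := by rw [he χ hχ]; exact h.sg χ hχ
  vN χ hχ h1 := by rw [he χ hχ]; exact h.vN χ hχ ((hN χ hχ).2 h1)
  vX χ hχ h1 := by
    rw [he χ hχ, hO χ hχ]
    exact h.vX χ hχ fun h2 => h1 ((hN χ hχ).1 h2)
  cN := by
    rw [← h.cN]
    refine congrArg _ (Set.ext fun χ => ?_)
    exact and_congr_right fun hχ => (hN χ hχ).symm
  bX s hs hs1 := by
    obtain ⟨χ, ⟨h1, h2, h3⟩, hu⟩ := h.bX s hs hs1
    refine ⟨χ, ⟨h1, fun h4 => h2 ((hN χ h1).2 h4), ?_⟩, ?_⟩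
    · rw [hO χ h1]
      exact h3
    · rintro ψ ⟨h4, h5, h6⟩
      refine hu ψ ⟨h4, fun h7 => h5 ((hN ψ h4).1 h7), ?_⟩
      rw [← hO ψ h4]
      exact h6

end blk

/-! ## The main part -/

section main

variable (gea : GeaStmt) (gec : GecStmt) (vxm : VxmStmt) (str : StrStmt) (xir : XirStmt)
  (rpv : RpvStmt) (mat : MatStmt)
  {ℓ : ℕ} [hℓ : Fact ℓ.Prime] {M : Ideal (integralClosure ℤ ℂ)} [M.IsMaximal]
  (hM : (ℓ : integralClosure ℤ ℂ) ∈ M) (hl : ℓ ≠ 2) {V₀ G : Type} [CommGroup V₀] [Finite V₀]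
  [Group G] [Finite G] {E₀ : Subgroup (MulAut V₀)} (hF : Fq ℓ V₀ E₀) {B : Bk (FF M) V₀ G}
  (hB : Sd ℓ M E₀ B) {W : Subgroup V₀} (hW : W ∈ RL ℓ E₀)

include hM hl hF hB hW

include rpv in
/-- step (0) -/
theorem uniq {ν : V₀ → ℂ} (hν : ν ∈ lk (kW E₀ W)) {N : Set (G → ℂ)} {e : (G → ℂ) → ℤ}
    {O : (G → ℂ) → Set (V₀ → ℂ)} (h : Lv E₀ B W ν N e O) {χ ψ : G → ℂ} (hχ : χ ∈ Iv B W ν)
    (hψ : ψ ∈ Iv B W ν) (hr : rq ℓ B W χ ψ) (hN : χ ∈ N) : χ = ψ := by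
  by_contra hne
  have hn : 1 < nS E₀ W := hW.2
  have hl0 : 0 < ℓ := hℓ.out.pos
  have key := rpv ℓ M hM hl V₀ G E₀ hF B hB W hW ν hν N e O h
  have e1 : (e χ : ℂ) * e χ = 1 := by
    rcases h.sg χ hχ with h1 | h1 <;> rw [h1] <;> norm_num
  have e2 : (e ψ : ℂ) * e ψ = 1 := by
    rcases h.sg ψ hψ with h1 | h1 <;> rw [h1] <;> norm_num
  have e3 : e χ * e ψ = 1 ∨ e χ * e ψ = -1 := by
    rcases h.sg χ hχ with h1 | h1 <;> rcases h.sg ψ hψ with h2 | h2 <;> rw [h1, h2] <;> norm_num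
  by_cases hψN : ψ ∈ N
  · have h1 := (key χ hχ ψ hψ).1 hN hψN
    have h2 := (key χ hχ χ hχ).1 hN hN
    rw [if_neg hne] at h1
    rw [if_pos rfl, e1, one_mul] at h2
    have h3 : rip ℓ B W χ χ = rip ℓ B W χ ψ := rip_congr (fun _ _ _ => rfl) hr
    refine num1 hn hl0 e3 ?_
    rw [← h2, h3, h1]
    push_cast
    ring
  · have h1 := ((key χ hχ ψ hψ).2.1 hN hψN).1
    have h2 := (key ψ hψ ψ hψ).2.2 hψN hψN
    rw [e2, one_mul] at h2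
    have h3 : rip ℓ B W χ ψ = rip ℓ B W ψ ψ := rip_congr hr fun _ _ _ => rfl
    refine num3 hn hl0 e3 ?_
    rw [← h2, ← h3, h1]
    push_cast
    ring

omit hM hl hB in
include gea gec in
/-- the central character is determined -/
theorem nu_uniq {ν ν' : V₀ → ℂ} (hν : ν ∈ lk (kW E₀ W)) (hν' : ν' ∈ lk (kW E₀ W)) {χ : G → ℂ}
    (h : χ ∈ Iv B W ν) (h' : χ ∈ Iv B W ν') : ν = ν' := by
  obtain ⟨-, ga, -⟩ := gea ℓ V₀ E₀ hF W hW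
  obtain ⟨-, -, -, -, -, -, gc, -⟩ := gec ℓ V₀ E₀ hF W hW
  funext v
  rw [← (gc ν hν v).1, ← (gc ν' hν' v).1, ← h.2 _ (ga v).1, ← h'.2 _ (ga v).1]

omit hM hl hF hB hW [Finite V₀] [Finite G] in
theorem one_lk (A : Subgroup V₀) : (fun _ : V₀ => (1 : ℂ)) ∈ lk A :=
  ⟨⟨rfl, fun _ _ => (mul_one _).symm⟩, fun _ _ => rfl⟩

include str in
theorem iv_card {ν : V₀ → ℂ} (hν : ν ∈ lk (kW E₀ W)) :
    (Iv B W ν).ncard = (Iv B W (fun _ => 1)).ncard ∧ (Iv B W ν).Finite ∧ (Iv B W ν).Nonempty := by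
  have hn : 1 < nS E₀ W := hW.2
  have h1 := (str ℓ M hM hl V₀ G E₀ hF B hB W hW ν hν).1
  have h2 := (str ℓ M hM hl V₀ G E₀ hF B hB W hW _ (one_lk (kW E₀ W))).1
  have h3 : (Iv B W ν).ncard ≠ 0 := by
    intro h0
    rw [h0, mul_zero] at h1
    have : 0 < nS E₀ W ^ 2 := by positivity
    omega
  refine ⟨?_, Set.finite_of_ncard_ne_zero h3, Set.nonempty_of_ncard_ne_zero h3⟩
  exact Nat.eq_of_mul_eq_mul_left (by omega : 0 < nS E₀ W) (h1.trans h2.symm)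

include gea gec str rpv mat in
/-- step (1) for one central character -/
theorem lv_ex {xc : G → ℂ} (hxc : nS E₀ W = ℓ - 1 → xc ∈ Iv B W (fun _ => 1)) {ν : V₀ → ℂ}
    (hν : ν ∈ lk (kW E₀ W)) : ∃ (e : (G → ℂ) → ℤ) (O : (G → ℂ) → Set (V₀ → ℂ)),
      Lv E₀ B W ν (Nn ℓ E₀ B W xc) e O := by
  obtain ⟨-, s1, s2⟩ := str ℓ M hM hl V₀ G E₀ hF B hB W hW ν hν
  by_cases hn : nS E₀ W = ℓ - 1
  · -- the restrictions are different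
    obtain ⟨c1, c2, χ₁, c3⟩ := iv_card str hM hl hF hB hW hν
    obtain ⟨e₁, O₁, hL₁, -⟩ := s2 hn χ₁ c3
    have hinj : ∀ χ ∈ Iv B W ν, ∀ ψ ∈ Iv B W ν, rq ℓ B W χ ψ → χ = ψ := by
      intro χ hχ ψ hψ hr
      by_cases h1 : χ = χ₁
      · by_cases h2 : ψ = χ₁
        · rw [h1, h2]
        · exact (uniq rpv hM hl hF hB hW hν hL₁ hψ hχ (rq_symm hr) h2).symm
      · exact uniq rpv hM hl hF hB hW hν hL₁ hχ hψ hr h1
    choose! f hf1 hf2 using fun χ (hχ : χ ∈ Ch B W) => mat ℓ M hM hl V₀ G E₀ hF B hB W hW χ hχ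
    have hfi : Set.InjOn f (Iv B W ν) := fun χ hχ ψ hψ h => hinj χ hχ ψ hψ
      (rq_trans (hf2 χ hχ.1) (by rw [h]; exact rq_symm (hf2 ψ hψ.1)))
    have hsub : f '' Iv B W ν ⊆ Iv B W (fun _ => 1) := by
      rintro _ ⟨χ, hχ, rfl⟩
      exact hf1 χ hχ.1
    have himg : f '' Iv B W ν = Iv B W (fun _ => 1) := by
      refine Set.eq_of_subset_of_ncard_le hsub ?_
        (iv_card str hM hl hF hB hW (one_lk (kW E₀ W))).2.1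
      rw [hfi.ncard_image, c1]
    have hx := hxc hn
    rw [← himg] at hx
    obtain ⟨χ₀, hχ₀, hx⟩ := hx
    have hr0 : rq ℓ B W χ₀ xc := by
      rw [← hx]
      exact hf2 χ₀ hχ₀.1
    obtain ⟨e, O, hL, hc⟩ := s2 hn χ₀ hχ₀
    refine ⟨e, O, lv_congr hL (fun χ hχ => ?_) (fun _ _ => rfl) fun _ _ => rfl⟩
    constructor
    · intro h1
      exact ⟨hχ.1, hc χ hχ, fun _ h2 => h1 (hinj χ hχ χ₀ hχ₀ (rq_trans h2 (rq_symm hr0)))⟩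
    · rintro ⟨-, -, h1⟩ h2
      exact h1 hn (by rw [h2]; exact hr0)
  · obtain ⟨e, O, hL⟩ := s1 hn
    refine ⟨e, O, lv_congr hL (fun χ hχ => ?_) (fun _ _ => rfl) fun _ _ => rfl⟩
    constructor
    · intro h1
      exact ⟨hχ.1, h1, fun h2 => absurd h2 hn⟩
    · rintro ⟨-, h1, -⟩
      exact h1

include gea gec str rpv mat in
/-- step (1) -/
theorem lv_all {xc : G → ℂ} (hxc : nS E₀ W = ℓ - 1 → xc ∈ Iv B W (fun _ => 1)) :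
    ∃ (e : (G → ℂ) → ℤ) (O : (G → ℂ) → Set (V₀ → ℂ)),
      ∀ ν ∈ lk (kW E₀ W), Lv E₀ B W ν (Nn ℓ E₀ B W xc) e O := by
  classical
  choose! e O h using fun ν (hν : ν ∈ lk (kW E₀ W)) =>
    lv_ex gea gec str rpv mat hM hl hF hB hW hxc hν
  have hc : ∀ χ : G → ℂ, ∃ ν : V₀ → ℂ, ∀ ν' ∈ lk (kW E₀ W), χ ∈ Iv B W ν' → ν' = ν := by
    intro χ
    by_cases h1 : ∃ ν ∈ lk (kW E₀ W), χ ∈ Iv B W ν
    · obtain ⟨ν, h2, h3⟩ := h1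
      exact ⟨ν, fun ν' h4 h5 => nu_uniq gea gec hF hW h4 h2 h5 h3⟩
    · exact ⟨fun _ => 1, fun ν' h4 h5 => absurd ⟨ν', h4, h5⟩ h1⟩
  choose c hc using hc
  refine ⟨fun χ => e (c χ) χ, fun χ => O (c χ) χ, fun ν hν => lv_congr (h ν hν)
    (fun _ _ => Iff.rfl) (fun χ hχ => ?_) fun χ hχ => ?_⟩
  · show e (c χ) χ = e ν χ
    rw [← hc χ ν hν hχ]
  · show O (c χ) χ = O ν χ
    rw [← hc χ ν hν hχ]

omit hM hl hB in
include gea in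
/-- an element of `k` different from `1` -/
theorem ex_y : ∃ y ∈ kW E₀ W, y ≠ 1 ∧ y ∉ W := by
  obtain ⟨⟨-, -, -, g1, g2, -⟩, -⟩ := gea ℓ V₀ E₀ hF W hW
  have h1 : 1 < Nat.card (kW E₀ W) := by
    rw [g1]
    exact hℓ.out.one_lt
  have : Nontrivial (kW E₀ W) := Finite.one_lt_card_iff_nontrivial.1 h1
  obtain ⟨⟨y, hy⟩, hy1⟩ := exists_ne (1 : kW E₀ W)
  have hy2 : y ≠ 1 := fun h => hy1 (Subtype.ext h)
  refine ⟨y, hy, hy2, fun h => hy2 ?_⟩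
  have h3 : y ∈ W ⊓ kW E₀ W := ⟨h, hy⟩
  rw [g2] at h3
  exact Subgroup.mem_bot.1 h3

omit hl hB in
include gec in
/-- the residue of the sum over an orbit -/
theorem orb_res {s : V₀ → ℂ} (hs : s ∈ lk W) (hs1 : s ≠ fun _ => 1) (y : V₀) :
    (∑ᶠ t ∈ orb E₀ W s, t y) ∈ RM M ∧
      rr M (∑ᶠ t ∈ orb E₀ W s, t y) = ((nS E₀ W : ℕ) : FF M) := by
  obtain ⟨-, -, g1, -, -, -, -, -, g2, g3, -⟩ := gec ℓ V₀ E₀ hF W hW
  have h1 : orb E₀ W s ⊆ lk W := by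
    rintro _ ⟨τ, hτ, rfl⟩
    exact (g2 s hs τ hτ).1
  have hfin : (orb E₀ W s).Finite := g1.subset h1
  have h2 : ∀ t ∈ orb E₀ W s, t y ∈ RM M ∧ rr M (t y) = 1 := by
    intro t ht
    obtain ⟨⟨h3, h4⟩, -⟩ := h1 ht
    have h5 : ∀ j : ℕ, t (y ^ j) = t y ^ j := by
      intro j
      induction j with
      | zero => rw [pow_zero, pow_zero, h3]
      | succ j ih => rw [pow_succ, pow_succ, h4, ih]
    refine root_res hM ?_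
    rw [← h5, hF.ex, h3]
  rw [finsum_mem_eq_finite_toFinset_sum _ hfin]
  have h3 : ∀ t ∈ hfin.toFinset, t y ∈ RM M := fun t ht => (h2 t (hfin.mem_toFinset.1 ht)).1
  refine ⟨Subring.sum_mem _ h3, ?_⟩
  rw [rr_sum _ _ h3, Finset.sum_congr rfl fun t ht => (h2 t (hfin.mem_toFinset.1 ht)).2,
    Finset.sum_const, nsmul_eq_mul, mul_one, ← Set.ncard_eq_toFinset_card _ hfin, (g3 s hs hs1).1]

include gea vxm in
/-- `un` -/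
theorem un {ν : V₀ → ℂ} {N : Set (G → ℂ)} {e : (G → ℂ) → ℤ} {O : (G → ℂ) → Set (V₀ → ℂ)}
    (h : Lv E₀ B W ν N e O) {χ : G → ℂ} (hχ : χ ∈ Iv B W ν) (hN : χ ∈ N) :
    ∃ q ∈ SOR.Rl ℓ, (e χ : ℂ) * Nat.card (B.C W) * B.D ⊤ /
      (nS E₀ W * Nat.card (B.C ⊤) * χ 1) = ((1 + ℓ * q : ℚ) : ℂ) := by
  obtain ⟨⟨-, g1, -⟩, -⟩ := gea ℓ V₀ E₀ hF W hW
  obtain ⟨y, hy, hy1, hyW⟩ := ex_y gea hF hW
  obtain ⟨h1, h2, h3, h4⟩ := (vxm ℓ M hM hl V₀ G E₀ hF B hB W hW χ hχ.1).2.2 y hyW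
  rw [h.vN χ hχ hN y hy hy1] at h1
  obtain ⟨d, hd, hd1⟩ := ch_one hχ.1
  have e1 : (e χ : ℂ) * Nat.card (B.C W) * B.D ⊤ / (nS E₀ W * Nat.card (B.C ⊤) * χ 1) =
      cv (fc B W y) χ * ((nS E₀ W : ℕ) : ℂ)⁻¹ := by
    rw [h1]
    rw [div_eq_mul_inv, div_eq_mul_inv, mul_inv, mul_inv, mul_inv]
    ring
  obtain ⟨r, hr⟩ : ∃ r : ℚ, r = (e χ : ℚ) * Nat.card (B.C W) * B.D ⊤ /
      (nS E₀ W * Nat.card (B.C ⊤) * d) := ⟨_, rfl⟩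
  have e2 : (e χ : ℂ) * Nat.card (B.C W) * B.D ⊤ / (nS E₀ W * Nat.card (B.C ⊤) * χ 1) =
      (r : ℂ) := by
    rw [hr, hd1]
    push_cast
    rfl
  have h5 := inv_nat_RM (M := M) hℓ.out hM g1
  have h6 := nat_ne (M := M) hM g1
  have h7 : rr M ((nS E₀ W : ℕ) : ℂ) = ((nS E₀ W : ℕ) : FF M) := (rr_nat (M := M) _).2
  have h8 : (r : ℂ) ∈ RM M := by
    rw [← e2, e1]
    exact (RM M).mul_mem h2 h5
  have h9 : rr M (r : ℂ) = 1 := by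
    rw [← e2, e1, rr_mul h2 h5, h3, rr_inv (rr_nat (M := M) _).1 (by rw [h7]; exact h6), h7,
      mul_inv_cancel₀ h6]
  obtain ⟨q, hq, hq1⟩ := rat_one hM h8 h9
  exact ⟨q, hq, by rw [e2, hq1]⟩

include gea gec vxm in
/-- `ux`, for one character -/
theorem ux {ν : V₀ → ℂ} {N : Set (G → ℂ)} {e : (G → ℂ) → ℤ} {O : (G → ℂ) → Set (V₀ → ℂ)}
    (h : Lv E₀ B W ν N e O) {χ : G → ℂ} (hχ : χ ∈ Iv B W ν) (hN : χ ∉ N) :
    ∃ q ∈ SOR.Rl ℓ, (e χ : ℂ) * Nat.card (B.C W) * B.D ⊤ /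
      (Nat.card (B.C ⊤) * χ 1) = ((1 + ℓ * q : ℚ) : ℂ) := by
  obtain ⟨⟨-, g1, -⟩, -⟩ := gea ℓ V₀ E₀ hF W hW
  obtain ⟨y, hy, hy1, hyW⟩ := ex_y gea hF hW
  obtain ⟨h1, h2, h3, h4⟩ := (vxm ℓ M hM hl V₀ G E₀ hF B hB W hW χ hχ.1).2.2 y hyW
  obtain ⟨⟨s, hs, hs1, hO⟩, hv⟩ := h.vX χ hχ hN
  obtain ⟨o1, o2⟩ := orb_res gec hM hF hW hs hs1 y
  rw [← hO] at o1 o2
  rw [hv y hy hy1] at h1
  obtain ⟨d, hd, hd1⟩ := ch_one hχ.1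
  have h6 := nat_ne (M := M) hM g1
  have o3 : rr M (∑ᶠ t ∈ O χ, t y) ≠ 0 := by
    rw [o2]
    exact h6
  obtain ⟨o4, o5⟩ := inv_RM o1 o3
  have e1 : (e χ : ℂ) * Nat.card (B.C W) * B.D ⊤ / (Nat.card (B.C ⊤) * χ 1) =
      cv (fc B W y) χ * (∑ᶠ t ∈ O χ, t y)⁻¹ := by
    rw [h1]
    field_simp
  obtain ⟨r, hr⟩ : ∃ r : ℚ, r = (e χ : ℚ) * Nat.card (B.C W) * B.D ⊤ /
      (Nat.card (B.C ⊤) * d) := ⟨_, rfl⟩
  have e2 : (e χ : ℂ) * Nat.card (B.C W) * B.D ⊤ / (Nat.card (B.C ⊤) * χ 1) = (r : ℂ) := by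
    rw [hr, hd1]
    push_cast
    rfl
  have h8 : (r : ℂ) ∈ RM M := by
    rw [← e2, e1]
    exact (RM M).mul_mem h2 o4
  have h9 : rr M (r : ℂ) = 1 := by
    rw [← e2, e1, rr_mul h2 o4, h3, rr_inv o1 o3, o2, mul_inv_cancel₀ h6]
  obtain ⟨q, hq, hq1⟩ := rat_one hM h8 h9
  exact ⟨q, hq, by rw [e2, hq1]⟩

include gea gec vxm str xir rpv mat in
theorem assemble {N : Set (G → ℂ)} {e : (G → ℂ) → ℤ} {O : (G → ℂ) → Set (V₀ → ℂ)}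
    (hL : ∀ ν ∈ lk (kW E₀ W), Lv E₀ B W ν N e O)
    (hN : nS E₀ W = ℓ - 1 → ∀ χ ∈ Ch B W, ∀ ψ ∈ Ch B W, rq ℓ B W χ ψ → χ ∈ N → ψ ∈ N) :
    Cy ℓ E₀ B W N e O := by
  have hn : 1 < nS E₀ W := hW.2
  have hl0 : 0 < ℓ := hℓ.out.pos
  have hex : ∀ χ ∈ Ch B W, ∃ ν ∈ lk (kW E₀ W), χ ∈ Iv B W ν := fun χ hχ =>
    (vxm ℓ M hM hl V₀ G E₀ hF B hB W hW χ hχ).2.1.2.2.2.1
  have hsg : ∀ χ ∈ Ch B W, e χ = 1 ∨ e χ = -1 := by
    intro χ hχ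
    obtain ⟨ν, h1, h2⟩ := hex χ hχ
    exact (hL ν h1).sg χ h2
  have hsq : ∀ χ ∈ Ch B W, (e χ : ℂ) * e χ = 1 := by
    intro χ hχ
    rcases hsg χ hχ with h1 | h1 <;> rw [h1] <;> norm_num
  have key := fun ν (hν : ν ∈ lk (kW E₀ W)) =>
    rpv ℓ M hM hl V₀ G E₀ hF B hB W hW ν hν N e O (hL ν hν)
  have hun : ∀ ν ∈ lk (kW E₀ W), ∀ χ ∈ Iv B W ν, ∀ ψ ∈ Iv B W ν, rq ℓ B W χ ψ → χ ∈ N →
      χ = ψ := fun ν hν χ hχ ψ hψ => uniq rpv hM hl hF hB hW hν (hL ν hν) hχ hψ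
  -- (3), (4): the type is determined by the restriction
  have seN : ∀ χ ∈ Ch B W, ∀ ψ ∈ Ch B W, rq ℓ B W χ ψ → χ ∈ N → ψ ∈ N := by
    by_cases hn1 : nS E₀ W = ℓ - 1
    · exact hN hn1
    · intro χ hχ ψ hψ hr h1
      by_contra h2
      obtain ⟨ν, hν, h3⟩ := hex χ hχ
      obtain ⟨μ, hμ, h4⟩ := hex ψ hψ
      have h5 := (key ν hν χ h3 χ h3).1 h1 h1
      have h6 := (key μ hμ ψ h4 ψ h4).2.2 h2 h2
      rw [if_pos rfl, hsq χ hχ, one_mul] at h5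
      rw [hsq ψ hψ, one_mul] at h6
      refine hn1 (num2 hn hl0 ?_)
      rw [← h5, ← h6]
      exact rip_congr hr hr
  have seE : ∀ χ ∈ Ch B W, ∀ ψ ∈ Ch B W, rq ℓ B W χ ψ → e χ = e ψ := by
    intro χ hχ ψ hψ hr
    obtain ⟨ν, hν, h3⟩ := hex χ hχ
    obtain ⟨μ, hμ, h4⟩ := hex ψ hψ
    by_cases h1 : χ ∈ N
    · have h2 := seN χ hχ ψ hψ hr h1
      obtain ⟨q, hq, hq1⟩ := un gea vxm hM hl hF hB hW (hL ν hν) h3 h1
      obtain ⟨r, hr1, hr2⟩ := un gea vxm hM hl hF hB hW (hL μ hμ) h4 h2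
      rw [mul_assoc, mul_div_assoc] at hq1 hr2
      rw [← rq_one hr] at hr2
      exact sign_eq hl (hsg χ hχ) (hsg ψ hψ) hq hr1 hq1 hr2
    · have h2 : ψ ∉ N := fun h2 => h1 (seN ψ hψ χ hχ (rq_symm hr) h2)
      obtain ⟨q, hq, hq1⟩ := ux gea gec vxm hM hl hF hB hW (hL ν hν) h3 h1
      obtain ⟨r, hr1, hr2⟩ := ux gea gec vxm hM hl hF hB hW (hL μ hμ) h4 h2
      rw [mul_assoc, mul_div_assoc] at hq1 hr2
      rw [← rq_one hr] at hr2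
      exact sign_eq hl (hsg χ hχ) (hsg ψ hψ) hq hr1 hq1 hr2
  -- the partners
  have par : ∀ ν ∈ lk (kW E₀ W), ∀ χ ∈ Ch B W, χ ∈ N →
      ∃ ψ, (ψ ∈ Iv B W ν ∧ ψ ∈ N) ∧ rq ℓ B W ψ χ := by
    intro ν hν χ hχ hχN
    choose! f hf1 hf2 using fun χ (hχ : χ ∈ Ch B W) => mat ℓ M hM hl V₀ G E₀ hF B hB W hW χ hχ
    have h1 := one_lk (kW E₀ W)
    have hfi : Set.InjOn f {χ | χ ∈ Iv B W ν ∧ χ ∈ N} := fun χ hχ ψ hψ h =>
      hun ν hν χ hχ.1 ψ hψ.1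
        (rq_trans (hf2 χ hχ.1.1) (by rw [h]; exact rq_symm (hf2 ψ hψ.1.1))) hχ.2
    have hsub : f '' {χ | χ ∈ Iv B W ν ∧ χ ∈ N} ⊆ {χ | χ ∈ Iv B W (fun _ => 1) ∧ χ ∈ N} := by
      rintro _ ⟨ψ, hψ, rfl⟩
      exact ⟨hf1 ψ hψ.1.1, seN ψ hψ.1.1 _ (hf1 ψ hψ.1.1).1 (hf2 ψ hψ.1.1) hψ.2⟩
    have himg : f '' {χ | χ ∈ Iv B W ν ∧ χ ∈ N} = {χ | χ ∈ Iv B W (fun _ => 1) ∧ χ ∈ N} := by
      refine Set.eq_of_subset_of_ncard_le hsub ?_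
        ((iv_card str hM hl hF hB hW h1).2.1.subset fun χ h => h.1)
      rw [hfi.ncard_image, (hL ν hν).cN, (hL _ h1).cN]
    have h2 : f χ ∈ {χ | χ ∈ Iv B W (fun _ => 1) ∧ χ ∈ N} :=
      ⟨hf1 χ hχ, seN χ hχ _ (hf1 χ hχ).1 (hf2 χ hχ) hχN⟩
    rw [← himg] at h2
    obtain ⟨ψ, hψ, h3⟩ := h2
    exact ⟨ψ, hψ, rq_trans (hf2 ψ hψ.1.1) (by rw [h3]; exact rq_symm (hf2 χ hχ))⟩
  have xi : ∀ ν ∈ lk (kW E₀ W), ∀ ψ ∈ Ch B W, ψ ∉ N → ∀ g ∈ B.C W, Reg ℓ g →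
      ∑ᶠ χ ∈ {χ | χ ∈ Iv B W ν ∧ χ ∈ N}, (e χ : ℂ) * χ g = e ψ * ψ g := by
    intro ν hν ψ hψ hψN g hg hg1
    obtain ⟨μ, hμ, h4⟩ := hex ψ hψ
    rw [← xir ℓ M hM hl V₀ G E₀ hF B hB W hW μ hμ N e O (hL μ hμ) ψ h4 hψN g hg hg1]
    choose! f hf1 hf2 using par μ hμ
    refine finsum_mem_eq_of_bijOn f ⟨fun χ hχ => hf1 χ hχ.1.1 hχ.2, ?_, ?_⟩ ?_
    · intro χ hχ θ hθ h
      refine hun ν hν χ hχ.1 θ hθ.1 (rq_trans (rq_symm (hf2 χ hχ.1.1 hχ.2)) ?_) hχ.2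
      rw [h]
      exact hf2 θ hθ.1.1 hθ.2
    · intro θ hθ
      obtain ⟨χ, hχ, h5⟩ := par ν hν θ hθ.1.1 hθ.2
      refine ⟨χ, hχ, ?_⟩
      refine hun μ hμ _ (hf1 χ hχ.1.1 hχ.2).1 θ hθ.1 ?_ (hf1 χ hχ.1.1 hχ.2).2
      exact rq_trans (hf2 χ hχ.1.1 hχ.2) h5
    · intro χ hχ
      have h5 := hf2 χ hχ.1.1 hχ.2
      rw [seE _ (hf1 χ hχ.1.1 hχ.2).1.1 χ hχ.1.1 h5, h5 g hg hg1]
  have hX : ∀ χ ∈ Ch B W, ∀ ψ ∈ Ch B W, χ ∉ N → ψ ∉ N → ∀ g ∈ B.C W, Reg ℓ g →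
      (e χ : ℂ) * χ g = e ψ * ψ g := by
    intro χ hχ ψ hψ h1 h2 g hg hg1
    rw [← xi _ (one_lk _) χ hχ h1 g hg hg1, ← xi _ (one_lk _) ψ hψ h2 g hg hg1]
  exact
    { lv := hL
      xi := xi
      mt := by
        intro ν hν χ hχ h1
        obtain ⟨ψ, h2, h3⟩ := par ν hν χ hχ h1
        refine ⟨ψ, ⟨h2.1, h2.2, h3⟩, ?_⟩
        rintro θ ⟨h4, h5, h6⟩
        exact hun ν hν θ h4 ψ h2.1 (rq_trans h6 (rq_symm h3)) h5
      se := fun χ hχ ψ hψ hr => ⟨seE χ hχ ψ hψ hr, seN χ hχ ψ hψ hr, seN ψ hψ χ hχ (rq_symm hr)⟩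
      rN := by
        intro χ hχ ψ hψ h1 h2
        obtain ⟨ν, hν, h3⟩ := hex ψ hψ
        obtain ⟨θ, ⟨h4, h5⟩, h6⟩ := par ν hν χ hχ h1
        have h7 := (key ν hν θ h4 ψ h3).1 h5 h2
        rw [← rip_congr h6 (fun _ _ _ => rfl : rq ℓ B W ψ ψ), h7, seE θ h4.1 χ hχ h6]
        by_cases h8 : rq ℓ B W χ ψ
        · rw [if_pos h8, if_pos (hun ν hν θ h4 ψ h3 (rq_trans h6 h8) h5)]
        · rw [if_neg h8, if_neg fun h9 => h8 (by rw [← h9]; exact rq_symm h6)]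
      rM := by
        intro χ hχ ψ hψ h1 h2
        obtain ⟨ν, hν, h3⟩ := hex ψ hψ
        obtain ⟨θ, ⟨h4, h5⟩, h6⟩ := par ν hν χ hχ h1
        have h7 := (key ν hν θ h4 ψ h3).2.1 h5 h2
        rw [← rip_congr h6 (fun _ _ _ => rfl : rq ℓ B W ψ ψ),
          ← rip_congr (fun _ _ _ => rfl : rq ℓ B W ψ ψ) h6, ← seE θ h4.1 χ hχ h6]
        exact h7
      rX := by
        intro χ hχ ψ hψ h1 h2
        obtain ⟨ν, hν, h3⟩ := hex ψ hψ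
        have h4 := (key ν hν ψ h3 ψ h3).2.2 h2 h2
        rw [rip_smul ((e χ : ℂ) * e ψ) (fun g hg hg1 => by
          rw [mul_assoc, ← hX χ hχ ψ hψ h1 h2 g hg hg1, ← mul_assoc, hsq χ hχ, one_mul]) ψ, h4,
          hsq ψ hψ, one_mul, mul_div_assoc]
      un := by
        intro χ hχ h1
        obtain ⟨ν, hν, h3⟩ := hex χ hχ
        exact un gea vxm hM hl hF hB hW (hL ν hν) h3 h1
      ux := by
        by_cases hx : ∃ ψ ∈ Ch B W, ψ ∉ N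
        · obtain ⟨ψ, hψ, h2⟩ := hx
          obtain ⟨ν, hν, h3⟩ := hex ψ hψ
          obtain ⟨q, hq, hq1⟩ := ux gea gec vxm hM hl hF hB hW (hL ν hν) h3 h2
          refine ⟨q, hq, fun χ hχ h1 => ?_⟩
          rw [← hq1]
          have h4 := hX χ hχ ψ hψ h1 h2 1 (B.C W).one_mem (by
            unfold Reg
            rw [orderOf_one]
            exact Nat.coprime_one_left ℓ)
          have h5 : χ 1 = e χ * e ψ * ψ 1 := by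
            rw [mul_assoc, ← h4, ← mul_assoc, hsq χ hχ, one_mul]
          have h6 : (e χ : ℂ) / χ 1 = e ψ / ψ 1 := by
            obtain ⟨d, hd, hd1⟩ := ch_one hψ
            obtain ⟨d', hd', hd1'⟩ := ch_one hχ
            have h7 : ψ 1 ≠ 0 := by rw [hd1]; exact Nat.cast_ne_zero.2 (by omega)
            have h8 : χ 1 ≠ 0 := by rw [hd1']; exact Nat.cast_ne_zero.2 (by omega)
            rw [div_eq_div_iff h8 h7, h5, ← mul_assoc, ← mul_assoc, mul_comm (e ψ : ℂ) (e χ : ℂ),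
              mul_assoc (e χ : ℂ) (e ψ : ℂ) (e ψ : ℂ), hsq ψ hψ, mul_one]
          have h9 : ∀ a b c d x : ℂ, a * b * c / (d * x) = a / x * (b * c / d) := by
            intro a b c d x
            rw [div_eq_mul_inv, div_eq_mul_inv, div_eq_mul_inv, mul_inv]
            ring
          rw [h9, h9, h6]
        · refine ⟨0, (SOR.Rl ℓ).zero_mem, fun χ hχ h1 => absurd ⟨χ, hχ, h1⟩ hx⟩ }

end main

/-- CYW: the structure of `b W` -/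
theorem cyw (gea : GeaStmt) (gec : GecStmt) (vxm : VxmStmt) (str : StrStmt) (xir : XirStmt)
    (rpv : RpvStmt) (mat : MatStmt) : CywStmt := by
  intro ℓ hℓ M hMm hM hl V₀ G _ _ _ _ E₀ hF B hB W hW xc hxc
  obtain ⟨e, O, h⟩ := lv_all gea gec str rpv mat hM hl hF hB hW hxc
  refine ⟨e, O, assemble gea gec vxm str xir rpv mat hM hl hF hB hW h ?_⟩
  intro hn χ hχ ψ hψ hr h1
  have h2 : ∃ ν ∈ lk (kW E₀ W), ψ ∈ Iv B W ν :=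
    (vxm ℓ M hM hl V₀ G E₀ hF B hB W hW ψ hψ).2.1.2.2.2.1
  obtain ⟨ν, hν, h3⟩ := h2
  obtain ⟨_, _, -, h4⟩ := (str ℓ M hM hl V₀ G E₀ hF B hB W hW ν hν).2.2 hn ψ h3
  exact ⟨hψ, h4 ψ h3, fun _ h5 => h1.2.2 hn (rq_trans hr h5)⟩

end Pool.Agent.PP.SE.H31W
end
end -- Pool.Agent.Helper31_ASE.CYW

section -- Pool.Agent.Helper65_ASO.KM1

/-!
# Squad ASO, row KM1: the part modulo `ℓ`

Author: helper65.
-/

open scoped BigOperators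

noncomputable section

namespace Pool.Agent.PP.SO.H65

/-- divisible by `ℓ` -/
def Mm (ℓ : ℕ) [Fact ℓ.Prime] (x : ℚ) : Prop := ∃ q ∈ SOR.Rl ℓ, x = ℓ * q

variable {ℓ : ℕ} [Fact ℓ.Prime]

theorem Mm.add {x y : ℚ} (hx : Mm ℓ x) (hy : Mm ℓ y) : Mm ℓ (x + y) := by
  obtain ⟨q, hq, rfl⟩ := hx
  obtain ⟨r, hr, rfl⟩ := hy
  exact ⟨q + r, (SOR.Rl ℓ).add_mem hq hr, by ring⟩

theorem Mm.sub {x y : ℚ} (hx : Mm ℓ x) (hy : Mm ℓ y) : Mm ℓ (x - y) := by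
  obtain ⟨q, hq, rfl⟩ := hx
  obtain ⟨r, hr, rfl⟩ := hy
  exact ⟨q - r, (SOR.Rl ℓ).sub_mem hq hr, by ring⟩

theorem Mm.mul {x : ℚ} (a : ℚ) (ha : a ∈ SOR.Rl ℓ) (hx : Mm ℓ x) : Mm ℓ (a * x) := by
  obtain ⟨q, hq, rfl⟩ := hx
  exact ⟨a * q, (SOR.Rl ℓ).mul_mem ha hq, by ring⟩

theorem Mm.ell {q : ℚ} (hq : q ∈ SOR.Rl ℓ) : Mm ℓ (ℓ * q) := ⟨q, hq, rfl⟩

theorem Mm.zero : Mm ℓ 0 := ⟨0, (SOR.Rl ℓ).zero_mem, by ring⟩

theorem Mm.sum {I : Type} (s : Finset I) (f : I → ℚ) (hf : ∀ i ∈ s, Mm ℓ (f i)) :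
    Mm ℓ (∑ i ∈ s, f i) := by
  classical
  induction s using Finset.induction_on with
  | empty =>
    rw [Finset.sum_empty]
    exact Mm.zero
  | insert a s ha ih =>
    rw [Finset.sum_insert ha]
    exact (hf a (Finset.mem_insert_self _ _)).add
      (ih fun i hi => hf i (Finset.mem_insert_of_mem hi))

theorem Mm.cancel (rsl : RslStmt) {x : ℚ} (hx : x ∈ SOR.Rl ℓ) {a : ℕ} (ha : ¬ ℓ ∣ a)
    (h : Mm ℓ (a * x)) : Mm ℓ x := by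
  obtain ⟨r1, r2, -⟩ := rsl ℓ
  have haR : (a : ℚ) ∈ SOR.Rl ℓ := natCast_mem _ _
  have h1 : (((a : ℚ) * x : ℚ) : ZMod ℓ) = 0 := (r2 _ ((SOR.Rl ℓ).mul_mem haR hx)).2 h
  rw [(r1 _ haR x hx).2, Rat.cast_natCast] at h1
  have h2 : (a : ZMod ℓ) ≠ 0 := fun h2 => ha ((ZMod.natCast_eq_zero_iff a ℓ).1 h2)
  exact (r2 x hx).1 ((mul_eq_zero.1 h1).resolve_left h2)

theorem pow_ne_one {V₀ : Type} [CommGroup V₀] (hV : ∀ v : V₀, v ^ ℓ = 1) {c : V₀} (hc : c ≠ 1)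
    {t : ℕ} (ht : t ∈ Finset.Icc 1 (ℓ - 1)) : c ^ t ≠ 1 := by
  intro h
  have hp : ℓ.Prime := Fact.out
  rw [Finset.mem_Icc] at ht
  have h1 : ¬ ℓ ∣ t := fun h1 => by
    have := Nat.le_of_dvd (by omega) h1
    have := hp.pos
    omega
  have h2 : Nat.Coprime ℓ t := (hp.coprime_iff_not_dvd).2 h1
  have h3 : orderOf c ∣ Nat.gcd ℓ t :=
    Nat.dvd_gcd (orderOf_dvd_of_pow_eq_one (hV c)) (orderOf_dvd_of_pow_eq_one h)
  rw [h2] at h3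
  exact hc (orderOf_eq_one_iff.1 (Nat.dvd_one.1 h3))

theorem km1 (rsl : RslStmt) (kcp : KcpStmt) : Km1Stmt := by
  intro ℓ _ hℓ V₀ _ _ E₀ hF D N k h
  classical
  have hp : ℓ.Prime := Fact.out
  have := Fintype.ofFinite V₀
  have hn : ¬ ℓ ∣ Nat.card E₀ := kcp ℓ V₀ E₀ hF
  have hnR : (Nat.card E₀ : ℚ) ∈ SOR.Rl ℓ := natCast_mem _ _
  have hkR : (k : ℚ) ∈ SOR.Rl ℓ := intCast_mem _ _
  have hlR : (ℓ : ℚ) ∈ SOR.Rl ℓ := natCast_mem _ _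
  -- the relation for a pair
  have hK : ∀ c d : V₀, c ≠ 1 → d ≠ 1 → Mm ℓ ((Nat.card E₀ : ℚ) * k - (D c + D d)) := by
    intro c d hc hd
    have hDR : D c + D d ∈ SOR.Rl ℓ := (SOR.Rl ℓ).add_mem (h.dr c) (h.dr d)
    refine Mm.cancel rsl ((SOR.Rl ℓ).sub_mem ((SOR.Rl ℓ).mul_mem hnR hkR) hDR) hn ?_
    obtain ⟨q, hq, hs⟩ := h.sf c d hc hd
    have hS : Mm ℓ (∑ t ∈ Finset.Icc 1 (ℓ - 1), ∑ s ∈ Finset.Icc 1 (ℓ - 1), N (c ^ t) (d ^ s)) :=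
      Mm.sum _ _ fun t ht => Mm.sum _ _ fun s hs =>
        h.n1 _ _ (pow_ne_one hF.ex hc ht) (pow_ne_one hF.ex hd hs)
    have h1 : (Nat.card E₀ : ℚ) * ((Nat.card E₀ : ℚ) * k - (D c + D d)) =
        (ℓ * (ℓ * q) - ∑ t ∈ Finset.Icc 1 (ℓ - 1), ∑ s ∈ Finset.Icc 1 (ℓ - 1),
          N (c ^ t) (d ^ s)) - ℓ * ((Nat.card E₀ : ℚ) * (D c + D d)) := by
      linear_combination hs
    rw [h1]
    exact ((Mm.ell ((SOR.Rl ℓ).mul_mem hlR hq)).sub hS).sub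
      (Mm.ell ((SOR.Rl ℓ).mul_mem hnR hDR))
  -- the sum
  obtain ⟨q, hq, hh⟩ := h.hh
  have hfin : ∑ᶠ c ∈ {c : V₀ | c ≠ 1}, D c = ∑ c ∈ Finset.univ.erase (1 : V₀), D c := by
    rw [finsum_mem_eq_finite_toFinset_sum _ (Set.toFinite _)]
    refine Finset.sum_congr ?_ fun _ _ => rfl
    ext c
    simp
  rw [hfin] at hh
  have hcard : ((Finset.univ.erase (1 : V₀)).card : ℚ) = (ℓ : ℚ) ^ 2 - 1 := by
    rw [Finset.card_erase_of_mem (Finset.mem_univ _), Finset.card_univ,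
      ← Nat.card_eq_fintype_card, hF.cd]
    have h1 : 1 ≤ ℓ ^ 2 := Nat.one_le_pow _ _ hp.pos
    push_cast [h1]
    ring
  have hsum : Mm ℓ (∑ c ∈ Finset.univ.erase (1 : V₀),
      ((Nat.card E₀ : ℚ) * k - (D c + D c))) :=
    Mm.sum _ _ fun c hc => hK c c (Finset.ne_of_mem_erase hc) (Finset.ne_of_mem_erase hc)
  rw [Finset.sum_sub_distrib, Finset.sum_const, nsmul_eq_mul, hcard,
    Finset.sum_add_distrib] at hsum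
  have hnk : Mm ℓ ((Nat.card E₀ : ℚ) * k) := by
    have h1 : (Nat.card E₀ : ℚ) * k = (((ℓ : ℚ) ^ 2 - 1) * ((Nat.card E₀ : ℚ) * k) -
        (∑ c ∈ Finset.univ.erase (1 : V₀), D c + ∑ c ∈ Finset.univ.erase (1 : V₀), D c)) +
        ℓ * (2 * ℓ * q) - ℓ * (ℓ * ((Nat.card E₀ : ℚ) * k)) := by
      linear_combination (2 : ℚ) * hh
    rw [h1]
    have h2R : (2 : ℚ) * ℓ * q ∈ SOR.Rl ℓ := by
      have h3 : ((2 : ℕ) : ℚ) ∈ SOR.Rl ℓ := natCast_mem _ _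
      exact (SOR.Rl ℓ).mul_mem ((SOR.Rl ℓ).mul_mem (by exact_mod_cast h3) hlR) hq
    exact (hsum.add (Mm.ell h2R)).sub
      (Mm.ell ((SOR.Rl ℓ).mul_mem hlR ((SOR.Rl ℓ).mul_mem hnR hkR)))
  have hk : Mm ℓ (k : ℚ) := Mm.cancel rsl hkR hn hnk
  constructor
  · have h1 : ((k : ℚ) : ZMod ℓ) = 0 := ((rsl ℓ).2.1 _ hkR).2 hk
    rw [Rat.cast_intCast] at h1
    exact (ZMod.intCast_zmod_eq_zero_iff_dvd k ℓ).1 h1
  · intro c hc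
    have h1 := hnk.sub (hK c c hc hc)
    have h2 : ((2 : ℕ) : ℚ) * D c = (Nat.card E₀ : ℚ) * k -
        ((Nat.card E₀ : ℚ) * k - (D c + D c)) := by
      push_cast
      ring
    rw [← h2] at h1
    refine Mm.cancel rsl (h.dr c) (fun h3 => ?_) h1
    have := Nat.le_of_dvd (by norm_num) h3
    omega

end Pool.Agent.PP.SO.H65
end
end -- Pool.Agent.Helper65_ASO.KM1

section -- Pool.Agent.Helper65_ASE.CSB

/-!
# Squad ASE, row CSB: the coefficients `cS`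
-/

open scoped BigOperators

noncomputable section

namespace Pool.Agent.PP.SE.H65

open Pool.Agent.Helper51_AWC Pool.Agent.Helper79_WRA Pool.Agent.PP Pool.Agent.PP.KF
open Pool.Agent.PP.K9 Pool.Agent.PP.K9.H97 Pool.Agent.PP.H75 Pool.Agent.PP.T3 Pool.Agent.PP.SO
open Pool.Agent.PP.SD

section tools

variable {ℓ : ℕ} [Fact ℓ.Prime]

theorem csb_nat (n : ℕ) : (n : ℚ) ∈ SOR.Rl ℓ := natCast_mem _ n

theorem csb_not_unit (r : ℚ) (hr : r ∈ SOR.Rl ℓ) (h : 1 = (ℓ : ℚ) * r) : False := by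
  have hp : Nat.Prime ℓ := Fact.out
  have h0 : (ℓ : ℚ) ≠ 0 := by exact_mod_cast hp.ne_zero
  have h1 : r = (ℓ : ℚ)⁻¹ := by
    field_simp
    linarith
  have h2 : ((ℓ : ℚ)⁻¹).den = ℓ := Rat.inv_natCast_den_of_pos hp.pos
  rw [h1] at hr
  have h3 : ¬ ℓ ∣ ((ℓ : ℚ)⁻¹).den := hr
  rw [h2] at h3
  exact h3 dvd_rfl

/-- numbers in `1 + ℓ Rl ℓ` are units -/
theorem csb_unit (x q : ℚ) (hq : q ∈ SOR.Rl ℓ) (hx : x = 1 + ℓ * q) :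
    x ≠ 0 ∧ x ∈ SOR.Rl ℓ ∧ x⁻¹ ∈ SOR.Rl ℓ := by
  have hp : Nat.Prime ℓ := Fact.out
  have hx0 : x ≠ 0 := by
    intro h
    refine csb_not_unit (ℓ := ℓ) (-q) (neg_mem hq) ?_
    rw [hx] at h
    linarith
  have hxR : x ∈ SOR.Rl ℓ := by
    rw [hx]
    exact add_mem (one_mem _) (mul_mem (csb_nat ℓ) hq)
  refine ⟨hx0, hxR, ?_⟩
  change ¬ ℓ ∣ (x⁻¹).den
  rw [Rat.den_inv_of_ne_zero hx0]
  intro h
  obtain ⟨k, hk⟩ : (ℓ : ℤ) ∣ x.num := Int.natCast_dvd.2 h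
  have h1 : x = (ℓ : ℚ) * (k * (x.den : ℚ)⁻¹) := by
    conv_lhs => rw [← Rat.num_div_den x]
    rw [hk]
    push_cast
    ring
  have h2 : (x.den : ℚ)⁻¹ ∈ SOR.Rl ℓ := by
    change ¬ ℓ ∣ ((x.den : ℚ)⁻¹).den
    rw [Rat.inv_natCast_den_of_pos x.den_pos]
    exact hxR
  refine csb_not_unit (ℓ := ℓ) (k * (x.den : ℚ)⁻¹ - q)
    (sub_mem (mul_mem (intCast_mem _ k) h2) hq) ?_
  have h3 := hx
  rw [h1] at h3
  linarith

/-- `x` is in `1 + ℓ Rl ℓ` -/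
def On (ℓ : ℕ) [Fact ℓ.Prime] (x : ℚ) : Prop := ∃ q ∈ SOR.Rl ℓ, x = 1 + ℓ * q

theorem on_one : On ℓ 1 := ⟨0, zero_mem _, by ring⟩

theorem on_mul {x y : ℚ} (hx : On ℓ x) (hy : On ℓ y) : On ℓ (x * y) := by
  obtain ⟨q, hq, rfl⟩ := hx
  obtain ⟨r, hr, rfl⟩ := hy
  exact ⟨q + r + ℓ * (q * r), add_mem (add_mem hq hr) (mul_mem (csb_nat ℓ) (mul_mem hq hr)),
    by ring⟩

theorem on_inv {x : ℚ} (hx : On ℓ x) : On ℓ x⁻¹ := by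
  obtain ⟨q, hq, h⟩ := hx
  obtain ⟨h0, _, h2⟩ := csb_unit x q hq h
  refine ⟨-(q * x⁻¹), neg_mem (mul_mem hq h2), ?_⟩
  have h3 : x * x⁻¹ = 1 := mul_inv_cancel₀ h0
  have h4 : (ℓ : ℚ) * q = x - 1 := by
    rw [h]
    ring
  calc x⁻¹ = x * x⁻¹ - (x - 1) * x⁻¹ := by ring
    _ = 1 + ℓ * -(q * x⁻¹) := by
      rw [h3, ← h4]
      ring

theorem on_mem {x : ℚ} (hx : On ℓ x) : x ∈ SOR.Rl ℓ := by
  obtain ⟨q, hq, h⟩ := hx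
  exact (csb_unit x q hq h).2.1

theorem on_ne {x : ℚ} (hx : On ℓ x) : x ≠ 0 := by
  obtain ⟨q, hq, h⟩ := hx
  exact (csb_unit x q hq h).1

/-- congruence modulo `ℓ ^ K` -/
def Cg (ℓ : ℕ) [Fact ℓ.Prime] (K : ℕ) (x y : ℚ) : Prop := ∃ q ∈ SOR.Rl ℓ, x - y = ℓ ^ K * q

theorem cg_refl (K : ℕ) (x : ℚ) : Cg ℓ K x x := ⟨0, zero_mem _, by ring⟩

theorem cg_mul {K : ℕ} {x y x' y' : ℚ} (hy : On ℓ y) (hx' : On ℓ x') (h : Cg ℓ K x x')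
    (h' : Cg ℓ K y y') : Cg ℓ K (x * y) (x' * y') := by
  obtain ⟨q, hq, e⟩ := h
  obtain ⟨r, hr, e'⟩ := h'
  refine ⟨q * y + x' * r, add_mem (mul_mem hq (on_mem hy)) (mul_mem (on_mem hx') hr), ?_⟩
  calc x * y - x' * y' = (x - x') * y + x' * (y - y') := by ring
    _ = ℓ ^ K * (q * y + x' * r) := by
      rw [e, e']
      ring

theorem cg_inv {K : ℕ} {x x' : ℚ} (hx : On ℓ x) (hx' : On ℓ x') (h : Cg ℓ K x x') :
    Cg ℓ K x⁻¹ x'⁻¹ := by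
  obtain ⟨q, hq, e⟩ := h
  refine ⟨-(q * x⁻¹ * x'⁻¹), neg_mem (mul_mem (mul_mem hq (on_mem (on_inv hx)))
    (on_mem (on_inv hx'))), ?_⟩
  have h1 := mul_inv_cancel₀ (on_ne hx)
  have h2 := mul_inv_cancel₀ (on_ne hx')
  calc x⁻¹ - x'⁻¹ = (x' * x'⁻¹) * x⁻¹ - (x * x⁻¹) * x'⁻¹ := by rw [h1, h2]; ring
    _ = -((x - x') * x⁻¹ * x'⁻¹) := by ring
    _ = ℓ ^ K * -(q * x⁻¹ * x'⁻¹) := by
      rw [e]
      ring

theorem on_ux {V₀ : Type} [CommGroup V₀] {U : Subgroup V₀ → ℚ} {W : Subgroup V₀}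
    (h : On ℓ (U W)) (c : V₀) : On ℓ (ux U W c) := by
  unfold ux
  split_ifs
  · exact on_one
  · exact h

theorem cg_ux {V₀ : Type} [CommGroup V₀] {U U' : Subgroup V₀ → ℚ} {W : Subgroup V₀} {K : ℕ}
    (h : Cg ℓ K (U W) (U' W)) (c : V₀) : Cg ℓ K (ux U W c) (ux U' W c) := by
  unfold ux
  split_ifs
  · exact cg_refl K 1
  · exact h

end tools

/-- CSB -/
theorem csb : CsbStmt := by
  intro ℓ _ V₀ _ U U' W K hU hU' hUU c d σ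
  have h1 : On ℓ (U W) := hU
  have h2 : On ℓ (U' W) := hU'
  have h3 : Cg ℓ K (U W) (U' W) := hUU
  constructor
  · change On ℓ (cS U c d σ W)
    unfold cS
    rw [div_eq_mul_inv]
    exact on_mul (on_mul (on_ux h1 _) (on_ux h1 _)) (on_inv (on_ux h1 _))
  · change Cg ℓ K (cS U c d σ W) (cS U' c d σ W)
    unfold cS
    rw [div_eq_mul_inv, div_eq_mul_inv]
    exact cg_mul (on_inv (on_ux h1 _)) (on_mul (on_ux h2 _) (on_ux h2 _))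
      (cg_mul (on_ux h1 _) (on_ux h2 _) (cg_ux h3 _) (cg_ux h3 _))
      (cg_inv (on_ux h1 _) (on_ux h2 _) (cg_ux h3 _))

end Pool.Agent.PP.SE.H65
end
end -- Pool.Agent.Helper65_ASE.CSB

section -- Pool.Agent.Helper65_ASE.RFJ

/-!
# Squad ASE, row RFJ: `e7` and the sum of the values of `et`
-/

open scoped BigOperators

noncomputable section

namespace Pool.Agent.PP.SE.H65

open Pool.Agent.Helper51_AWC Pool.Agent.Helper79_WRA Pool.Agent.PP Pool.Agent.PP.KF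
open Pool.Agent.PP.K9 Pool.Agent.PP.K9.H97 Pool.Agent.PP.H75 Pool.Agent.PP.T3 Pool.Agent.PP.SO
open Pool.Agent.PP.SD

attribute [local instance] Ideal.Quotient.field

theorem rfj_RM {ℓ : ℕ} [Fact ℓ.Prime] {M : Ideal (integralClosure ℤ ℂ)} [M.IsMaximal]
    (hM : (ℓ : integralClosure ℤ ℂ) ∈ M) {q : ℚ} (hq : q ∈ SOR.Rl ℓ) : ((q : ℚ) : ℂ) ∈ RM M := by
  have h1 : ¬ ℓ ∣ q.den := hq
  have h2 := inv_nat_RM (M := M) (Fact.out : ℓ.Prime) hM h1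
  have h3 : ((q : ℚ) : ℂ) = (q.num : ℂ) * ((q.den : ℕ) : ℂ)⁻¹ := by
    rw [← div_eq_mul_inv]
    exact_mod_cast (Rat.num_div_den q).symm
  rw [h3]
  exact (RM M).mul_mem (intCast_mem _ _) h2

theorem rfj_reg1 {ℓ : ℕ} {G : Type} [Group G] : Reg ℓ (1 : G) := by
  unfold Reg
  rw [orderOf_one]
  exact Nat.coprime_one_left ℓ

/-- RFJ -/
theorem rfj (hVAL : ValStmt) (hSNU : SnuStmt) (hGEA : GeaStmt) (hCZB : CzbStmt)
    (hVXM : VxmStmt) : RfjStmt := by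
  intro ℓ _ M _ hM hℓ2 V₀ G _ _ _ _ E₀ hF B hB W hW N e O hC D hD
  classical
  have hp : ℓ.Prime := Fact.out
  have hℓ0 : (ℓ : ℂ) ≠ 0 := by exact_mod_cast hp.ne_zero
  obtain ⟨⟨_, hnl, _, _, _, _, _, hWt⟩, _⟩ := hGEA ℓ V₀ E₀ hF W hW
  obtain ⟨hfin, _, _, hS4, hS5⟩ := hSNU ℓ M hM hℓ2 V₀ G E₀ hF B hB W hW N e O hC
  obtain ⟨_, _, _, _, _, _, hcz, _⟩ := hCZB ℓ M hM hℓ2 V₀ G E₀ hF B hB.toSb W
  obtain ⟨⟨ψ, hψ, hψN⟩, ⟨q', hq', hU⟩, _, hvN, hvX⟩ :=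
    hVAL ℓ M hM hℓ2 V₀ G E₀ hF B hB W hW N e O hC D hD
  have hn0 : nS E₀ W ≠ 0 := by
    intro h
    rw [h] at hnl
    exact hnl (dvd_zero ℓ)
  have hn0' : (nS E₀ W : ℂ) ≠ 0 := by exact_mod_cast hn0
  have hD0 : (B.D ⊤ : ℂ) ≠ 0 := by
    have hR : Rw E₀ (⊤ : Subgroup V₀) := by
      refine ⟨?_, ?_⟩
      · intro h
        apply hWt
        rw [eq_top_iff, h]
        exact bot_le
      · intro σ _ h
        ext v
        exact h v trivial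
    have := (hB.dg ⊤ hR).1
    exact_mod_cast this.ne'
  have hA0 : (Nat.card (B.C W) : ℂ) ≠ 0 := by exact_mod_cast Nat.card_pos.ne'
  have hC0 : (Nat.card (B.C ⊤) : ℂ) ≠ 0 := by exact_mod_cast Nat.card_pos.ne'
  have h1k : (fun _ => (1 : ℂ)) ∈ lk (kW E₀ W) :=
    ⟨⟨rfl, fun _ _ => (one_mul 1).symm⟩, fun _ _ => rfl⟩
  -- signs
  have hsq : ∀ χ ∈ Ch B W, (e χ : ℂ) * e χ = 1 := by
    intro χ hχ
    obtain ⟨_, ⟨_, _, _, ⟨ν, hν, hI⟩, _, _⟩, _⟩ := hVXM ℓ M hM hℓ2 V₀ G E₀ hF B hB W hW χ hχ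
    rcases (hC.lv ν hν).sg χ hI with h | h <;> rw [h] <;> norm_num
  -- the numbers `u`
  have hval : ∀ χ, χ ∈ Ch B W → χ ∈ N → ∃ u q : ℚ, q ∈ SOR.Rl ℓ ∧ u = 1 + ℓ * q ∧
      (e χ : ℂ) * Nat.card (B.C W) * B.D ⊤ / (nS E₀ W * Nat.card (B.C ⊤) * χ 1) = (u : ℂ) ∧
      cv (D.et W) χ = ((nS E₀ W * (u - D.U W) : ℚ) : ℂ) := by
    intro χ h1 h2
    obtain ⟨⟨u, ⟨q, hq, hu⟩, h3, h4⟩, _⟩ := hvN χ h1 h2
    exact ⟨u, q, hq, hu, h3, h4⟩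
  choose! u q huq using hval
  obtain ⟨hN1c, hN1f, _⟩ := hS5 _ h1k
  have hF1 : ∀ χ ∈ hN1f.toFinset, χ ∈ Iv B W (fun _ => 1) ∧ χ ∈ N := fun χ hχ =>
    (Set.Finite.mem_toFinset hN1f).1 hχ
  have hFc : (hN1f.toFinset).card = nS E₀ W := by
    rw [← Set.ncard_eq_toFinset_card _ hN1f, hN1c]
  have hU0 : D.U W ≠ 0 := (csb_unit _ q' hq' hU).1
  have hUR : D.U W ∈ SOR.Rl ℓ := (csb_unit _ q' hq' hU).2.1
  -- the sum of the inverses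
  have hinv : ∀ χ ∈ hN1f.toFinset, ((u χ : ℚ) : ℂ)⁻¹ = nS E₀ W * Nat.card (B.C ⊤) /
      (Nat.card (B.C W) * B.D ⊤) * (e χ * χ 1) := by
    intro χ hχ
    obtain ⟨h1, h2⟩ := hF1 χ hχ
    obtain ⟨_, _, h3, _⟩ := huq χ h1.1 h2
    have h4 := hsq χ h1.1
    have h5 : (e χ : ℂ) ≠ 0 := left_ne_zero_of_mul_eq_one h4
    have h6 : χ 1 ≠ 0 := (hcz χ h1.1).1
    have h7 : (e χ : ℂ)⁻¹ = e χ := inv_eq_of_mul_eq_one_right h4
    rw [← h3, inv_div, mul_assoc (e χ : ℂ), div_eq_mul_inv, mul_inv, h7]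
    field_simp
  have hψu : ((D.U W : ℚ) : ℂ)⁻¹ = Nat.card (B.C ⊤) /
      (Nat.card (B.C W) * B.D ⊤) * (e ψ * ψ 1) := by
    have h3 := hD.dU ψ hψ hψN
    have h4 := hsq ψ hψ
    have h6 : ψ 1 ≠ 0 := (hcz ψ hψ).1
    have h7 : (e ψ : ℂ)⁻¹ = e ψ := inv_eq_of_mul_eq_one_right h4
    rw [← h3, inv_div, mul_assoc (e ψ : ℂ), div_eq_mul_inv, mul_inv, h7]
    field_simp
  have hsum1 : ∑ χ ∈ hN1f.toFinset, (u χ)⁻¹ = nS E₀ W * (D.U W)⁻¹ := by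
    have h1 : ((∑ χ ∈ hN1f.toFinset, (u χ)⁻¹ : ℚ) : ℂ) = ((nS E₀ W * (D.U W)⁻¹ : ℚ) : ℂ) := by
      push_cast
      rw [Finset.sum_congr rfl hinv, ← Finset.mul_sum, hψu]
      have h2 := hC.xi _ h1k ψ hψ hψN 1 (B.C W).one_mem (rfj_reg1)
      rw [finsum_mem_eq_finite_toFinset_sum _ hN1f] at h2
      rw [h2]
      ring
    exact_mod_cast h1
  have hu0 : ∀ χ ∈ hN1f.toFinset, u χ ≠ 0 ∧ u χ ∈ SOR.Rl ℓ ∧ (u χ)⁻¹ ∈ SOR.Rl ℓ := by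
    intro χ hχ
    obtain ⟨h1, h2⟩ := hF1 χ hχ
    obtain ⟨h3, h4, _, _⟩ := huq χ h1.1 h2
    exact csb_unit _ _ h3 h4
  have hsum2 : ∑ χ ∈ hN1f.toFinset, (D.U W - u χ) * (u χ)⁻¹ = 0 := by
    have h1 : ∀ χ ∈ hN1f.toFinset, (D.U W - u χ) * (u χ)⁻¹ = D.U W * (u χ)⁻¹ - 1 := by
      intro χ hχ
      rw [sub_mul, mul_inv_cancel₀ (hu0 χ hχ).1]
    rw [Finset.sum_congr rfl h1, Finset.sum_sub_distrib, ← Finset.mul_sum, hsum1,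
      Finset.sum_const, hFc, nsmul_eq_mul, mul_one]
    field_simp
    ring
  -- the sum of the values
  obtain ⟨Q, hQ⟩ : ∃ Q : ℚ, Q = nS E₀ W * ∑ χ ∈ hN1f.toFinset, (q χ - q') * q χ * (u χ)⁻¹ :=
    ⟨_, rfl⟩
  have hQR : Q ∈ SOR.Rl ℓ := by
    rw [hQ]
    refine mul_mem (csb_nat _) (sum_mem fun χ hχ => ?_)
    obtain ⟨h1, h2⟩ := hF1 χ hχ
    obtain ⟨h3, _, _, _⟩ := huq χ h1.1 h2
    exact mul_mem (mul_mem (sub_mem h3 hq') h3) (hu0 χ hχ).2.2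
  have hsum3 : ∑ χ ∈ hN1f.toFinset, (nS E₀ W * (u χ - D.U W) : ℚ) = ℓ ^ 2 * Q := by
    have h1 : ∀ χ ∈ hN1f.toFinset, (nS E₀ W * (u χ - D.U W) : ℚ) =
        nS E₀ W * (ℓ ^ 2 * ((q χ - q') * q χ * (u χ)⁻¹)) -
          nS E₀ W * ((D.U W - u χ) * (u χ)⁻¹) := by
      intro χ hχ
      obtain ⟨h1, h2⟩ := hF1 χ hχ
      obtain ⟨_, h4, _, _⟩ := huq χ h1.1 h2
      have h5 := mul_inv_cancel₀ (hu0 χ hχ).1
      have h6 : (ℓ : ℚ) * q χ = u χ - 1 := by rw [h4]; ring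
      have h7 : (ℓ : ℚ) * q' = D.U W - 1 := by rw [hU]; ring
      have h8 : (ℓ : ℚ) ^ 2 * ((q χ - q') * q χ * (u χ)⁻¹) =
          (ℓ * q χ - ℓ * q') * (ℓ * q χ) * (u χ)⁻¹ := by ring
      rw [h8, h6, h7]
      linear_combination (nS E₀ W : ℚ) * (D.U W - u χ) * h5
    rw [Finset.sum_congr rfl h1, Finset.sum_sub_distrib, ← Finset.mul_sum, ← Finset.mul_sum,
      ← Finset.mul_sum, hsum2, mul_zero, sub_zero, hQ]
    ring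
  have hS1 : ∑ᶠ χ ∈ {χ | χ ∈ Iv B W (fun _ => 1) ∧ χ ∈ N}, cv (D.et W) χ =
      ((ℓ ^ 2 * Q : ℚ) : ℂ) := by
    rw [finsum_mem_eq_finite_toFinset_sum _ hN1f, ← hsum3, Rat.cast_sum]
    refine Finset.sum_congr rfl fun χ hχ => ?_
    obtain ⟨h1, h2⟩ := hF1 χ hχ
    exact (huq χ h1.1 h2).2.2.2
  -- the sum of the squares
  obtain ⟨R, hR⟩ : ∃ R : ℚ, R = ∑ χ ∈ hN1f.toFinset, (nS E₀ W * (q χ - q')) ^ 2 := ⟨_, rfl⟩
  have hRR : R ∈ SOR.Rl ℓ := by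
    rw [hR]
    refine sum_mem fun χ hχ => pow_mem (mul_mem (csb_nat _) ?_) 2
    obtain ⟨h1, h2⟩ := hF1 χ hχ
    exact sub_mem (huq χ h1.1 h2).1 hq'
  have hS2 : ∑ᶠ χ ∈ {χ | χ ∈ Iv B W (fun _ => 1) ∧ χ ∈ N}, cv (D.et W) χ ^ 2 =
      ((ℓ ^ 2 * R : ℚ) : ℂ) := by
    rw [finsum_mem_eq_finite_toFinset_sum _ hN1f, hR, Finset.mul_sum, Rat.cast_sum]
    refine Finset.sum_congr rfl fun χ hχ => ?_
    obtain ⟨h1, h2⟩ := hF1 χ hχ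
    obtain ⟨_, h4, _, h5⟩ := huq χ h1.1 h2
    rw [h5, h4, hU]
    push_cast
    ring
  -- the functions are constant on the classes
  have hcl : ∀ χ ∈ Ch B W, ∀ ψ ∈ Ch B W, χ ∈ N → ψ ∈ N → rq ℓ B W χ ψ →
      cv (D.et W) χ = cv (D.et W) ψ := by
    intro χ hχ θ hθ hχN hθN hr
    obtain ⟨_, _, h3, h4⟩ := huq χ hχ hχN
    obtain ⟨_, _, h3', h4'⟩ := huq θ hθ hθN
    have h5 : e χ = e θ := (hC.se χ hχ θ hθ hr).1
    have h6 : χ 1 = θ 1 := hr 1 (B.C W).one_mem rfj_reg1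
    have h7 : u χ = u θ := by
      have : ((u χ : ℚ) : ℂ) = ((u θ : ℚ) : ℂ) := by rw [← h3, ← h3', h5, h6]
      exact_mod_cast this
    rw [h4, h4', h7]
  have hsub : ∀ g : (G → ℂ) → ℂ, (∀ χ ∈ Ch B W, χ ∉ N → g χ = 0) →
      ∑ᶠ χ ∈ Ch B W, g χ = ∑ᶠ χ ∈ {χ | χ ∈ Ch B W ∧ χ ∈ N}, g χ := by
    intro g hg
    have hfin' : {χ | χ ∈ Ch B W ∧ χ ∈ N}.Finite := hfin.subset fun _ h => h.1
    rw [finsum_mem_eq_finite_toFinset_sum _ hfin, finsum_mem_eq_finite_toFinset_sum _ hfin']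
    symm
    apply Finset.sum_subset
    · intro χ hχ
      exact (Set.Finite.mem_toFinset hfin).2 ((Set.Finite.mem_toFinset hfin').1 hχ).1
    · intro χ h1 h2
      have h3 := (Set.Finite.mem_toFinset hfin).1 h1
      exact hg χ h3 fun h => h2 ((Set.Finite.mem_toFinset hfin').2 ⟨h3, h⟩)
  have hX0 : ∀ χ ∈ Ch B W, χ ∉ N → cv (D.et W) χ = 0 := fun χ h1 h2 => (hvX χ h1 h2).1
  refine ⟨⟨Q, hQR, hS1⟩, fun κ hκ => ⟨?_, ?_⟩⟩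
  · rw [hsub _ (fun χ h1 h2 => by rw [hX0 χ h1 h2, mul_zero]),
      (hS4 (fun χ => cv (D.et W) χ) hcl).2 κ hκ]
    split_ifs with h
    · rw [hS1]
      have : (ℓ : ℂ) * ((ℓ ^ 2 * Q : ℚ) : ℂ) / (ℓ : ℂ) ^ 2 = ((ℓ * Q : ℚ) : ℂ) := by
        push_cast
        field_simp
      rw [this]
      exact rfj_RM hM (mul_mem (csb_nat ℓ) hQR)
    · rw [zero_div]
      exact (RM M).zero_mem
  · rw [hsub _ (fun χ h1 h2 => by rw [hX0 χ h1 h2]; ring),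
      (hS4 (fun χ => cv (D.et W) χ ^ 2) (fun χ h1 θ h2 h3 h4 h5 => by
        change cv (D.et W) χ ^ 2 = cv (D.et W) θ ^ 2
        rw [hcl χ h1 θ h2 h3 h4 h5])).2 κ hκ]
    split_ifs with h
    · rw [hS2]
      have : (ℓ : ℂ) * ((ℓ ^ 2 * R : ℚ) : ℂ) / (ℓ : ℂ) ^ 2 = ((ℓ * R : ℚ) : ℂ) := by
        push_cast
        field_simp
      rw [this]
      exact rfj_RM hM (mul_mem (csb_nat ℓ) hRR)
    · rw [zero_div]
      exact (RM M).zero_mem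

end Pool.Agent.PP.SE.H65
end
end -- Pool.Agent.Helper65_ASE.RFJ

section -- Pool.Agent.Helper82_ASE.GEB

/-!
# Squad ASE, row GEB: equivariance of the geometry of the reflection lines
-/

open scoped BigOperators

noncomputable section

namespace Pool.Agent.PP.SE.H82

open Pool.Agent.Helper51_AWC Pool.Agent.Helper79_WRA Pool.Agent.PP Pool.Agent.PP.KF
open Pool.Agent.PP.K9 Pool.Agent.PP.K9.H97 Pool.Agent.PP.H75 Pool.Agent.PP.T3 Pool.Agent.PP.SO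
open Pool.Agent.PP.SD

section

variable {V₀ : Type} [CommGroup V₀]

theorem mem_mp (σ : MulAut V₀) (W : Subgroup V₀) (v : V₀) : v ∈ mp σ W ↔ ∃ w ∈ W, σ w = v := by
  unfold mp
  rw [Subgroup.mem_map]
  rfl

theorem mem_mp_apply (σ : MulAut V₀) (W : Subgroup V₀) (v : V₀) : σ v ∈ mp σ W ↔ v ∈ W := by
  rw [mem_mp]
  constructor
  · rintro ⟨w, hw, h⟩
    rwa [← σ.injective h]
  · intro h
    exact ⟨v, h, rfl⟩

theorem mp_mul (σ τ : MulAut V₀) (W : Subgroup V₀) : mp σ (mp τ W) = mp (σ * τ) W := by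
  ext v
  rw [mem_mp, mem_mp]
  constructor
  · rintro ⟨w, hw, rfl⟩
    rw [mem_mp] at hw
    obtain ⟨u, hu, rfl⟩ := hw
    exact ⟨u, hu, by rw [MulAut.mul_apply]⟩
  · rintro ⟨w, hw, rfl⟩
    exact ⟨τ w, (mem_mp_apply τ W w).2 hw, by rw [MulAut.mul_apply]⟩

theorem mp_one (W : Subgroup V₀) : mp (1 : MulAut V₀) W = W := by
  ext v
  rw [mem_mp]
  constructor
  · rintro ⟨w, hw, rfl⟩
    simpa using hw
  · intro h
    exact ⟨v, h, by simp⟩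

theorem mem_St_conj {E₀ : Subgroup (MulAut V₀)} {σ : MulAut V₀} (hσ : σ ∈ E₀) (W : Subgroup V₀)
    (τ : MulAut V₀) : τ ∈ St E₀ W ↔ σ * τ * σ⁻¹ ∈ St E₀ (mp σ W) := by
  have hE : τ ∈ E₀ ↔ σ * τ * σ⁻¹ ∈ E₀ := by
    constructor
    · intro h
      exact E₀.mul_mem (E₀.mul_mem hσ h) (E₀.inv_mem hσ)
    · intro h
      have h2 := E₀.mul_mem (E₀.mul_mem (E₀.inv_mem hσ) h) hσ
      have e : σ⁻¹ * (σ * τ * σ⁻¹) * σ = τ := by group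
      rwa [e] at h2
  constructor
  · rintro ⟨h1, h2⟩
    refine ⟨hE.1 h1, ?_⟩
    intro w hw
    rw [mem_mp] at hw
    obtain ⟨u, hu, rfl⟩ := hw
    rw [MulAut.mul_apply, MulAut.mul_apply, MulAut.inv_apply_self, h2 u hu]
  · rintro ⟨h1, h2⟩
    refine ⟨hE.2 h1, ?_⟩
    intro w hw
    have h3 := h2 (σ w) ((mem_mp_apply σ W w).2 hw)
    rw [MulAut.mul_apply, MulAut.mul_apply, MulAut.inv_apply_self] at h3
    exact σ.injective h3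

/-- conjugation by `σ` -/
def cjE {E₀ : Subgroup (MulAut V₀)} {σ : MulAut V₀} (hσ : σ ∈ E₀) (W : Subgroup V₀) :
    St E₀ W ≃ St E₀ (mp σ W) where
  toFun τ := ⟨σ * τ * σ⁻¹, (mem_St_conj hσ W τ).1 τ.2⟩
  invFun τ := ⟨σ⁻¹ * τ * σ, (mem_St_conj hσ W _).2 (by
    have e : σ * (σ⁻¹ * (τ : MulAut V₀) * σ) * σ⁻¹ = τ := by group
    rw [e]; exact τ.2)⟩
  left_inv τ := by
    apply Subtype.ext
    change σ⁻¹ * (σ * (τ : MulAut V₀) * σ⁻¹) * σ = τ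
    group
  right_inv τ := by
    apply Subtype.ext
    change σ * (σ⁻¹ * (τ : MulAut V₀) * σ) * σ⁻¹ = τ
    group

theorem cjE_apply {E₀ : Subgroup (MulAut V₀)} {σ : MulAut V₀} (hσ : σ ∈ E₀) (W : Subgroup V₀)
    (τ : St E₀ W) : ((cjE hσ W τ : St E₀ (mp σ W)) : MulAut V₀) = σ * τ * σ⁻¹ := rfl

theorem card_mp (σ : MulAut V₀) (W : Subgroup V₀) : Nat.card (mp σ W) = Nat.card W := by
  refine Nat.card_congr (Equiv.symm ?_)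
  refine Equiv.ofBijective (fun w : W => (⟨σ w, (mem_mp_apply σ W w).2 w.2⟩ : mp σ W)) ⟨?_, ?_⟩
  · intro a b h
    apply Subtype.ext
    exact σ.injective (congrArg Subtype.val h)
  · rintro ⟨v, hv⟩
    rw [mem_mp] at hv
    obtain ⟨w, hw, rfl⟩ := hv
    exact ⟨⟨w, hw⟩, rfl⟩

theorem map_finprod' [Finite V₀] (σ : MulAut V₀) {ι : Type} [Finite ι] (f : ι → V₀) :
    σ (∏ᶠ i, f i) = ∏ᶠ i, σ (f i) := by
  have := (σ : V₀ ≃* V₀).toMonoidHom.map_finprod (f := f) (Set.toFinite _)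
  simpa using this

theorem kW_le {E₀ : Subgroup (MulAut V₀)} {σ : MulAut V₀} (hσ : σ ∈ E₀) (W : Subgroup V₀) :
    kW E₀ (mp σ W) = mp σ (kW E₀ W) := by
  unfold kW mp
  rw [MonoidHom.map_closure]
  congr 1
  ext y
  constructor
  · rintro ⟨τ', hτ', v, rfl⟩
    obtain ⟨τ, hτ⟩ := (cjE hσ W).surjective ⟨τ', hτ'⟩
    have hτ2 : σ * (τ : MulAut V₀) * σ⁻¹ = τ' := by
      have := congrArg Subtype.val hτ
      rwa [cjE_apply] at this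
    refine ⟨(τ : MulAut V₀) (σ⁻¹ v) * (σ⁻¹ v)⁻¹, ⟨τ, τ.2, σ⁻¹ v, rfl⟩, ?_⟩
    change σ ((τ : MulAut V₀) (σ⁻¹ v) * (σ⁻¹ v)⁻¹) = τ' v * v⁻¹
    rw [map_mul, map_inv, MulAut.apply_inv_self, ← hτ2, MulAut.mul_apply, MulAut.mul_apply]
  · rintro ⟨z, ⟨τ, hτ, v, rfl⟩, rfl⟩
    refine ⟨σ * τ * σ⁻¹, (mem_St_conj hσ W τ).1 hτ, σ v, ?_⟩
    change σ (τ v * v⁻¹) = (σ * τ * σ⁻¹) (σ v) * (σ v)⁻¹
    rw [map_mul, map_inv, MulAut.mul_apply, MulAut.mul_apply, MulAut.inv_apply_self]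

end

theorem geb : GebStmt := by
  intro ℓ _ V₀ _ _ E₀ σ hσ W
  have hn : nS E₀ (mp σ W) = nS E₀ W := by
    unfold nS
    exact (Nat.card_congr (cjE hσ W)).symm
  refine ⟨fun τ => mem_St_conj hσ W τ, hn, card_mp σ W, ?_, ?_, fun v => mem_mp_apply σ W v, ?_,
    fun τ _ => mp_mul σ τ W, mp_one W, ?_⟩
  · unfold RL
    rw [Set.mem_setOf_eq, Set.mem_setOf_eq, card_mp, hn]
  · intro v
    unfold pr
    rw [hn, map_pow]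
    congr 1
    haveI : Finite (MulAut V₀) := Finite.of_injective (fun f : MulAut V₀ => (f : V₀ → V₀))
      (fun f g h => MulEquiv.ext (fun x => congrFun h x))
    rw [map_finprod' σ (fun τ : St E₀ W => (τ : MulAut V₀) v)]
    symm
    refine finprod_eq_of_bijective (cjE hσ W) (cjE hσ W).bijective ?_
    intro τ
    rw [cjE_apply, MulAut.mul_apply, MulAut.mul_apply, MulAut.inv_apply_self]
  · intro v
    rw [kW_le hσ W]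
    exact mem_mp_apply σ _ v
  · constructor
    · intro h
      rw [Subgroup.eq_bot_iff_forall] at h ⊢
      intro x hx
      have := h (σ x) ((mem_mp_apply σ W x).2 hx)
      exact σ.injective (by rw [this, map_one])
    · rintro rfl
      rw [Subgroup.eq_bot_iff_forall]
      intro x hx
      rw [mem_mp] at hx
      obtain ⟨w, hw, rfl⟩ := hx
      rw [Subgroup.mem_bot] at hw
      rw [hw, map_one]

end Pool.Agent.PP.SE.H82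
end
end -- Pool.Agent.Helper82_ASE.GEB

section -- Pool.Agent.Helper18_ASE.KE1

/-!
# Squad ASE, row KE1: the part modulo `ℓ` (after `Helper65_ASO/KM1.lean`)
-/

open scoped BigOperators

noncomputable section

namespace Pool.Agent.PP.SE.H18

open Pool.Agent.PP.SO.H65

theorem ke1 (rsl : SO.RslStmt) : Ke1Stmt := by
  intro ℓ _ hℓ V₀ _ _ E₀ hF D N z y k h
  classical
  have hp : ℓ.Prime := Fact.out
  have := Fintype.ofFinite V₀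
  have hn : ¬ ℓ ∣ Nat.card E₀ := hF.cp
  have hnR : (Nat.card E₀ : ℚ) ∈ SOR.Rl ℓ := natCast_mem _ _
  have hkR : (k : ℚ) ∈ SOR.Rl ℓ := intCast_mem _ _
  have hlR : (ℓ : ℚ) ∈ SOR.Rl ℓ := natCast_mem _ _
  -- the relation for a pair
  have hK : ∀ c d : V₀, c ≠ 1 → d ≠ 1 → Mm ℓ ((Nat.card E₀ : ℚ) * k - (D c + D d)) := by
    intro c d hc hd
    have hDR : D c + D d ∈ SOR.Rl ℓ := (SOR.Rl ℓ).add_mem (h.dr c) (h.dr d)
    refine Mm.cancel rsl ((SOR.Rl ℓ).sub_mem ((SOR.Rl ℓ).mul_mem hnR hkR) hDR) hn ?_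
    obtain ⟨q, hq, hs⟩ := h.sf c d hc hd
    have hS : Mm ℓ (∑ t ∈ Finset.Icc 1 (ℓ - 1), ∑ s ∈ Finset.Icc 1 (ℓ - 1), N (c ^ t) (d ^ s)) :=
      Mm.sum _ _ fun t ht => Mm.sum _ _ fun s hs =>
        h.n1 _ _ (pow_ne_one hF.ex hc ht) (pow_ne_one hF.ex hd hs)
    have h1 : (Nat.card E₀ : ℚ) * ((Nat.card E₀ : ℚ) * k - (D c + D d)) =
        (ℓ * (ℓ * q) - ∑ t ∈ Finset.Icc 1 (ℓ - 1), ∑ s ∈ Finset.Icc 1 (ℓ - 1),
          N (c ^ t) (d ^ s)) - ℓ * ((Nat.card E₀ : ℚ) * (D c + D d)) := by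
      linear_combination hs
    rw [h1]
    exact ((Mm.ell ((SOR.Rl ℓ).mul_mem hlR hq)).sub hS).sub
      (Mm.ell ((SOR.Rl ℓ).mul_mem hnR hDR))
  -- the sum
  obtain ⟨q, hq, hh⟩ := h.hh
  have hfin : ∑ᶠ c ∈ {c : V₀ | c ≠ 1}, D c = ∑ c ∈ Finset.univ.erase (1 : V₀), D c := by
    rw [finsum_mem_eq_finite_toFinset_sum _ (Set.toFinite _)]
    refine Finset.sum_congr ?_ fun _ _ => rfl
    ext c
    simp
  rw [hfin] at hh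
  have hcard : ((Finset.univ.erase (1 : V₀)).card : ℚ) = (ℓ : ℚ) ^ 2 - 1 := by
    rw [Finset.card_erase_of_mem (Finset.mem_univ _), Finset.card_univ,
      ← Nat.card_eq_fintype_card, hF.cd]
    have h1 : 1 ≤ ℓ ^ 2 := Nat.one_le_pow _ _ hp.pos
    push_cast [h1]
    ring
  have hsum : Mm ℓ (∑ c ∈ Finset.univ.erase (1 : V₀),
      ((Nat.card E₀ : ℚ) * k - (D c + D c))) :=
    Mm.sum _ _ fun c hc => hK c c (Finset.ne_of_mem_erase hc) (Finset.ne_of_mem_erase hc)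
  rw [Finset.sum_sub_distrib, Finset.sum_const, nsmul_eq_mul, hcard,
    Finset.sum_add_distrib] at hsum
  have hnk : Mm ℓ ((Nat.card E₀ : ℚ) * k) := by
    have h1 : (Nat.card E₀ : ℚ) * k = (((ℓ : ℚ) ^ 2 - 1) * ((Nat.card E₀ : ℚ) * k) -
        (∑ c ∈ Finset.univ.erase (1 : V₀), D c + ∑ c ∈ Finset.univ.erase (1 : V₀), D c)) +
        ℓ * (2 * ℓ * q) - ℓ * (ℓ * ((Nat.card E₀ : ℚ) * k)) := by
      linear_combination (2 : ℚ) * hh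
    rw [h1]
    have h2R : (2 : ℚ) * ℓ * q ∈ SOR.Rl ℓ := by
      have h3 : ((2 : ℕ) : ℚ) ∈ SOR.Rl ℓ := natCast_mem _ _
      exact (SOR.Rl ℓ).mul_mem ((SOR.Rl ℓ).mul_mem (by exact_mod_cast h3) hlR) hq
    exact (hsum.add (Mm.ell h2R)).sub
      (Mm.ell ((SOR.Rl ℓ).mul_mem hlR ((SOR.Rl ℓ).mul_mem hnR hkR)))
  have hk : Mm ℓ (k : ℚ) := Mm.cancel rsl hkR hn hnk
  constructor
  · have h1 : ((k : ℚ) : ZMod ℓ) = 0 := ((rsl ℓ).2.1 _ hkR).2 hk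
    rw [Rat.cast_intCast] at h1
    exact (ZMod.intCast_zmod_eq_zero_iff_dvd k ℓ).1 h1
  · intro c hc
    have h1 := hnk.sub (hK c c hc hc)
    have h2 : ((2 : ℕ) : ℚ) * D c = (Nat.card E₀ : ℚ) * k -
        ((Nat.card E₀ : ℚ) * k - (D c + D c)) := by
      push_cast
      ring
    rw [← h2] at h1
    refine Mm.cancel rsl (h.dr c) (fun h3 => ?_) h1
    exact hℓ ((Nat.prime_dvd_prime_iff_eq hp Nat.prime_two).1 h3)

end Pool.Agent.PP.SE.H18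
end
end -- Pool.Agent.Helper18_ASE.KE1

section -- Pool.Agent.Helper82_ASE.HEX

/-!
# Squad ASE, row HEX: the sums over the block as a structure
-/

open scoped BigOperators

noncomputable section

namespace Pool.Agent.PP.SE.H82

open Pool.Agent.Helper51_AWC Pool.Agent.Helper79_WRA Pool.Agent.PP Pool.Agent.PP.KF
open Pool.Agent.PP.K9 Pool.Agent.PP.K9.H97 Pool.Agent.PP.H75 Pool.Agent.PP.T3 Pool.Agent.PP.SO
open Pool.Agent.PP.SD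

theorem pow_ne_one' {ℓ : ℕ} [Fact ℓ.Prime] {V₀ : Type} [CommGroup V₀] (hex : ∀ v : V₀, v ^ ℓ = 1)
    {c : V₀} (hc : c ≠ 1) {j : ℕ} (hj : ¬ ℓ ∣ j) : c ^ j ≠ 1 := by
  intro h
  have h1 : orderOf c = ℓ := orderOf_eq_prime (hex c) hc
  exact hj (h1 ▸ orderOf_dvd_of_pow_eq_one h)

open Classical in
theorem hex (heiv : EivStmt) (hhse : HseStmt) : HexStmt := by
  intro ℓ _ M _ hℓ hℓ2 V₀ G _ _ _ _ E₀ hF B hB D hD
  obtain ⟨d₁, n₁, z₁, y₁, ⟨h1, h2, h3⟩, h4, h5, h6, h7⟩ :=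
    hhse ℓ M hℓ hℓ2 V₀ G E₀ hF B hB D hD
  have hE := heiv ℓ M hℓ hℓ2 V₀ G E₀ hF B hB.toSb D hD
  have hRL : ∀ σ ∈ E₀, ∀ a ∈ RL ℓ E₀, mp σ a ∈ RL ℓ E₀ := by
    intro σ hσ a ha
    exact ((geb ℓ V₀ E₀ σ hσ a).2.2.2.1).2 ha
  refine ⟨fun c => if c = 1 then 0 else d₁ c, n₁, z₁, y₁, ?_⟩
  refine
    { d := ?_, d0 := ?_, dr := ?_, dp := ?_, de := ?_, n := ?_, nr := ?_, z := ?_, zr := ?_,
      zz := ?_, ze := ?_, y := ?_, yr := ?_, sy := h5, sf := ?_, hh := ?_ }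
  · intro c hc
    simp only [hc, if_false]
    exact (h1 c hc).1
  · simp
  · intro c
    by_cases hc : c = 1
    · simp only [hc, if_true]
      exact zero_mem _
    · simp only [hc, if_false]
      exact (h1 c hc).2
  · intro c j hj
    by_cases hc : c = 1
    · simp [hc]
    · have hcj : c ^ j ≠ 1 := pow_ne_one' hF.ex hc hj
      simp only [hc, hcj, if_false]
      exact h3 c j hj
  · intro σ hσ c
    by_cases hc : c = 1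
    · simp [hc]
    · have hσc : σ c ≠ 1 := fun h => hc (σ.injective (by rw [h, map_one]))
      simp only [hc, hσc, if_false]
      have e1 := (h1 c hc).1
      have e2 := (h1 (σ c) hσc).1
      rw [(hE σ hσ).1 c, e1] at e2
      exact_mod_cast e2.symm
  · intro c d hc hd
    exact (h2 c d hc hd).1
  · intro c d hc hd
    exact (h2 c d hc hd).2.2
  · intro a ha κ hκ
    exact (h4 a ha κ hκ).1
  · intro a ha κ hκ
    exact (h4 a ha κ hκ).2.1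
  · intro a ha κ hκ
    exact (h4 a ha κ hκ).2.2.1
  · intro a ha σ hσ
    have e1 := (h4 a ha 1 a.one_mem).1
    have e2 := (h4 (mp σ a) (hRL σ hσ a ha) 1 (mp σ a).one_mem).1
    have e3 := (hE σ hσ).2 a ha 1 a.one_mem
    rw [map_one] at e3
    rw [e3, e1] at e2
    exact_mod_cast e2.symm
  · intro a ha κ hκ d hd
    exact ⟨((h4 a ha κ hκ).2.2.2 d hd).1, ((h4 a ha κ hκ).2.2.2 d hd).2.1⟩
  · intro a ha κ hκ d hd
    exact ((h4 a ha κ hκ).2.2.2 d hd).2.2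
  · intro c d hc hd
    simp only [hc, hd, if_false]
    exact h6 c d hc hd
  · have e : ∑ᶠ c ∈ {c : V₀ | c ≠ 1}, (if c = 1 then 0 else d₁ c) =
        ∑ᶠ c ∈ {c : V₀ | c ≠ 1}, d₁ c := by
      refine finsum_mem_congr rfl ?_
      intro c hc
      have hc' : c ≠ 1 := hc
      simp only [hc', if_false]
    rw [e]
    exact h7

end Pool.Agent.PP.SE.H82
end
end -- Pool.Agent.Helper82_ASE.HEX
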