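import Pool.Agent.Helper12_AWB.B132
import Pool.Agent.Helper12_AWB.B217
import Pool.Agent.Helper12_AWB.B224

/-!
# Merged copies (generated) of the modules

* `Pool.Agent.Helper41_ASE.GDV`
* `Pool.Agent.Helper41_ASE.GEC`
* `Pool.Agent.Helper41_ASE.RFP`
* `Pool.Agent.Helper86_ASE.RFE`
* `Pool.Agent.Helper86_ASE.RFK`
* `Pool.Agent.Helper13_ASE.RFG`
* `Pool.Agent.Helper16_ASE.RFB`
* `Pool.Agent.Helper27_ASE.RFF`
* `Pool.Agent.Helper32_ASE.RFM`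
* `Pool.Agent.Helper33_ASE.SNU`
* `Pool.Agent.Helper52_ASE.XIR`
* `Pool.Agent.Helper41_ASE.STR`
* `Pool.Agent.Helper65_ASE.RFA`
* `Pool.Agent.Helper95_ASE.RFC`
-/

set_option autoImplicit false

section -- Pool.Agent.Helper41_ASE.GDV

/-!
# Squad ASE, row GDV: the values of `GD`
-/

open scoped BigOperators

set_option autoImplicit false

noncomputable section

namespace Pool.Agent.PP.SE.H41

open Pool.Agent.Helper51_AWC Pool.Agent.Helper79_WRA Pool.Agent.PP Pool.Agent.PP.KF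
open Pool.Agent.PP.K9 Pool.Agent.PP.K9.H97 Pool.Agent.PP.H75 Pool.Agent.PP.T3 Pool.Agent.PP.SO
open Pool.Agent.PP.SD

namespace GDV

/-! ### Rational numbers -/

section tools

variable {ℓ : ℕ} [Fact ℓ.Prime]

theorem nat_rl (n : ℕ) : (n : ℚ) ∈ SOR.Rl ℓ := natCast_mem _ n

theorem int_rl (n : ℤ) : (n : ℚ) ∈ SOR.Rl ℓ := intCast_mem _ n

theorem not_unit (r : ℚ) (hr : r ∈ SOR.Rl ℓ) (h : 1 = (ℓ : ℚ) * r) : False := by
  have hp : Nat.Prime ℓ := Fact.out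
  have h0 : (ℓ : ℚ) ≠ 0 := by exact_mod_cast hp.ne_zero
  have h1 : r = (ℓ : ℚ)⁻¹ := by
    field_simp
    linarith
  have h2 : ((ℓ : ℚ)⁻¹).den = ℓ := Rat.inv_natCast_den_of_pos hp.pos
  rw [h1] at hr
  have h3 : ¬ ℓ ∣ ((ℓ : ℚ)⁻¹).den := hr
  rw [h2] at h3
  exact h3 dvd_rfl

/-- numbers in `1 + ℓ Rl ℓ` are units -/
theorem unit_rl (x q : ℚ) (hq : q ∈ SOR.Rl ℓ) (hx : x = 1 + ℓ * q) :
    x ≠ 0 ∧ x ∈ SOR.Rl ℓ ∧ x⁻¹ ∈ SOR.Rl ℓ := by
  have hp : Nat.Prime ℓ := Fact.out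
  have hx0 : x ≠ 0 := by
    intro h
    refine not_unit (ℓ := ℓ) (-q) (neg_mem hq) ?_
    rw [hx] at h
    linarith
  have hxR : x ∈ SOR.Rl ℓ := by
    rw [hx]
    exact add_mem (one_mem _) (mul_mem (nat_rl ℓ) hq)
  refine ⟨hx0, hxR, ?_⟩
  change ¬ ℓ ∣ (x⁻¹).den
  rw [Rat.den_inv_of_ne_zero hx0]
  intro h
  obtain ⟨k, hk⟩ : (ℓ : ℤ) ∣ x.num := Int.natCast_dvd.2 h
  have h1 : x = (ℓ : ℚ) * (k * (x.den : ℚ)⁻¹) := by
    conv_lhs => rw [← Rat.num_div_den x]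
    rw [hk]
    push_cast
    ring
  have h2 : (x.den : ℚ)⁻¹ ∈ SOR.Rl ℓ := by
    change ¬ ℓ ∣ ((x.den : ℚ)⁻¹).den
    rw [Rat.inv_natCast_den_of_pos x.den_pos]
    exact hxR
  refine not_unit (ℓ := ℓ) (k * (x.den : ℚ)⁻¹ - q)
    (sub_mem (mul_mem (intCast_mem _ k) h2) hq) ?_
  have h3 := hx
  rw [h1] at h3
  linarith

/-- `x` is in `1 + ℓ Rl ℓ` -/
def On (ℓ : ℕ) [Fact ℓ.Prime] (x : ℚ) : Prop := ∃ q ∈ SOR.Rl ℓ, x = 1 + ℓ * q

theorem on_one : On ℓ 1 := ⟨0, zero_mem _, by ring⟩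

theorem on_mul {x y : ℚ} (hx : On ℓ x) (hy : On ℓ y) : On ℓ (x * y) := by
  obtain ⟨q, hq, rfl⟩ := hx
  obtain ⟨r, hr, rfl⟩ := hy
  exact ⟨q + r + ℓ * (q * r), add_mem (add_mem hq hr) (mul_mem (nat_rl ℓ) (mul_mem hq hr)),
    by ring⟩

theorem on_inv {x : ℚ} (hx : On ℓ x) : On ℓ x⁻¹ := by
  obtain ⟨q, hq, h⟩ := hx
  obtain ⟨h0, _, h2⟩ := unit_rl x q hq h
  refine ⟨-(q * x⁻¹), neg_mem (mul_mem hq h2), ?_⟩
  have h3 : x * x⁻¹ = 1 := mul_inv_cancel₀ h0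
  have h4 : (ℓ : ℚ) * q = x - 1 := by
    rw [h]
    ring
  calc x⁻¹ = x * x⁻¹ - (x - 1) * x⁻¹ := by ring
    _ = 1 + ℓ * -(q * x⁻¹) := by
      rw [h3, ← h4]
      ring

end tools

/-! ### Lines -/

section lines

variable {ℓ : ℕ} [hℓ : Fact ℓ.Prime] {V₀ : Type} [CommGroup V₀] [Finite V₀]

omit [Finite V₀] in
theorem pow_dvd {ex : ∀ v : V₀, v ^ ℓ = 1} (v : V₀) {k : ℕ} (h : ℓ ∣ k) : v ^ k = 1 := by
  obtain ⟨j, rfl⟩ := h
  rw [pow_mul, ex, one_pow]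

omit [Finite V₀] in
theorem dvd_of_mem (ex : ∀ v : V₀, v ^ ℓ = 1) (A : Subgroup V₀) {v : V₀} (hv : v ∉ A) {k : ℕ}
    (hk : v ^ k ∈ A) : ℓ ∣ k := by
  by_contra hcon
  have hcop : Nat.Coprime k ℓ := ((Nat.Prime.coprime_iff_not_dvd hℓ.out).2 hcon).symm
  obtain ⟨j, -, hj⟩ := Nat.exists_mul_mod_eq_one_of_coprime hcop hℓ.out.one_lt
  apply hv
  have h1 : v ^ (k * j) = v := by
    rw [← Nat.mod_add_div (k * j) ℓ, hj, pow_add, pow_mul, ex, one_pow, mul_one, pow_one]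
  rw [← h1, pow_mul]
  exact pow_mem hk j

theorem zpow_eq (A : Subgroup V₀) (hA : Nat.card A = ℓ) {v : V₀} (hv : v ∈ A) (hv1 : v ≠ 1) :
    Subgroup.zpowers v = A := by
  have hle : Subgroup.zpowers v ≤ A := by
    rw [Subgroup.zpowers_le]
    exact hv
  refine Subgroup.eq_of_le_of_card_ge hle ?_
  have h1 : Nat.card (Subgroup.zpowers v) ∣ Nat.card A := Subgroup.card_dvd_of_le hle
  rw [hA] at h1 ⊢
  rcases (Nat.dvd_prime hℓ.out).1 h1 with h | h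
  · exfalso
    rw [Subgroup.card_eq_one, Subgroup.zpowers_eq_bot] at h
    exact hv1 h
  · exact h.ge

theorem lines (hV : Nat.card V₀ = ℓ ^ 2) (a W : Subgroup V₀) (ha : Nat.card a = ℓ)
    (hW : Nat.card W = ℓ) (hne : W ≠ a) :
    (∀ v ∈ a, v ∈ W → v = 1) ∧ ∀ v, ∃ α ∈ a, ∃ w ∈ W, v = α * w := by
  have h1 : ∀ v ∈ a, v ∈ W → v = 1 := by
    intro v hva hvW
    by_contra hv1
    exact hne ((zpow_eq W hW hvW hv1).symm.trans (zpow_eq a ha hva hv1))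
  refine ⟨h1, ?_⟩
  have hinj : Function.Injective fun x : a × W => (x.1 : V₀) * x.2 := by
    rintro ⟨α, w⟩ ⟨α', w'⟩ h
    have h2 : (α : V₀) * w = α' * w' := h
    have h3 : (α' : V₀)⁻¹ * α = w' * (w : V₀)⁻¹ := by
      rw [eq_mul_inv_iff_mul_eq, mul_assoc, h2, inv_mul_cancel_left]
    have h4 : (α' : V₀)⁻¹ * α = 1 := h1 _ (mul_mem (inv_mem α'.2) α.2) (by
      rw [h3]
      exact mul_mem w'.2 (inv_mem w.2))
    have h5 : α = α' := Subtype.ext (inv_mul_eq_one.1 h4).symm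
    rw [h4] at h3
    have h6 : w = w' := Subtype.ext (mul_inv_eq_one.1 h3.symm).symm
    rw [h5, h6]
  have hbij := hinj.bijective_of_nat_card_le (by
    rw [Nat.card_prod, ha, hW, hV, sq])
  intro v
  obtain ⟨⟨α, w⟩, h⟩ := hbij.2 v
  exact ⟨α, α.2, w, w.2, h.symm⟩

end lines

end GDV

open GDV

theorem gdv (gdh : GdhStmt) (tya : TyaStmt) (fva : FvaStmt) : GdvStmt := by
  intro ℓ hℓ V₀ _ _ E₀ hF n ρ₁ ρ₂ hn hρ₁ hρ₂ x₁ x₂ hx₁ hx₂ F₁₃ Ψ M₁ M₂ K hFE U hU c d σ τ a y ha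
    hσ hτ hκ
  obtain ⟨f1, f2, f3, f4, f5, f6⟩ :=
    fva ℓ V₀ hF.ex n ρ₁ ρ₂ hn hρ₁ hρ₂ x₁ x₂ hx₁ hx₂ F₁₃ Ψ M₁ M₂ K hFE c d
  obtain ⟨t1, t2, t3⟩ := tya ℓ V₀ E₀ hF n σ τ a (c * σ d) y ha hσ hτ
  set F : Set (SO.SS n V₀) → ℚ := F12 ℓ x₁ x₂ Ψ M₁ M₂ K c d with hFdef
  set κ := c * σ d with hκdef
  have hℓ0 : (ℓ : ℚ) ≠ 0 := by exact_mod_cast hℓ.out.ne_zero
  have n0 : 0 < n := by
    obtain ⟨r, -, rfl⟩ := hn
    exact pow_pos hℓ.out.pos r
  let z0 : Fin n := ⟨0, n0⟩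
  have hz0 : (z0 : ℕ) = 0 := rfl
  -- the value at the types with `p = q = 1`
  have ρ1 : ρ₁ 1 = 0 := by
    have := hρ₁ 1 1
    rw [mul_one] at this
    exact (left_eq_add.1 this)
  have ρ2 : ρ₂ 1 = 0 := by
    have := hρ₂ 1 1
    rw [mul_one] at this
    exact (left_eq_add.1 this)
  have fv : ∀ X : Set (SO.SS n V₀), (∀ s ∈ X, s.2.2.1 = 1 ∧ s.2.2.2 = 1) →
      F X = (x₁ c⁻¹ * x₂ d⁻¹ : ℤ) / (ℓ : ℚ) ^ 2 := by
    intro X hX
    refine f2 X (fun s hs _ _ => hX s hs) fun s hs => ?_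
    rw [(hX s hs).1, (hX s hs).2]
    exact ⟨ρ1, ρ2⟩
  -- integers divided by `ℓ ^ 2`
  have hint : ∀ z z' : ℤ, (ℓ : ℚ) ^ 2 * ((z : ℚ) / (ℓ : ℚ) ^ 2 - z' / (ℓ : ℚ) ^ 2) ∈ SOR.Rl ℓ := by
    intro z z'
    have : (ℓ : ℚ) ^ 2 * ((z : ℚ) / (ℓ : ℚ) ^ 2 - z' / (ℓ : ℚ) ^ 2) = ((z - z' : ℤ) : ℚ) := by
      push_cast
      field_simp
    rw [this]
    exact int_rl _
  -- the coefficients
  have hcs : ∀ W : Subgroup V₀, Nat.card W = ℓ → ∃ q ∈ SOR.Rl ℓ, cS U c d σ W - 1 = ℓ * q := by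
    intro W hW
    have hWb : W ≠ ⊥ := by
      rintro rfl
      rw [Subgroup.card_bot] at hW
      exact hℓ.out.one_lt.ne hW
    have hu : ∀ v, On ℓ (ux U W v) := by
      intro v
      unfold ux
      split_ifs
      · exact on_one
      · exact hU W hWb
    obtain ⟨q, hq, h⟩ := on_mul (on_mul (hu c) (hu (σ d))) (on_inv (hu (c * σ d)))
    refine ⟨q, hq, ?_⟩
    unfold cS
    rw [div_eq_mul_inv, h]
    ring
  -- the reduction
  have key : ∀ T : Set (SO.SS n V₀), (∀ s ∈ T, κ ^ (s.2.1 : ℕ) * s.2.2.1 ∈ a) →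
      (∀ W : Subgroup V₀, Nat.card W = ℓ → (ℓ : ℚ) ^ 2 * (F {s | s ∈ T ∧ s.2.2.1 ∈ W} -
        F (A1 κ {s | s ∈ T ∧ s.2.2.1 ∈ W})) ∈ SOR.Rl ℓ) →
      ∃ q ∈ SOR.Rl ℓ, GD U c d σ a F T = F T - F (A1 κ T) + q / ℓ := by
    intro T hT hW
    refine ⟨ℓ * ∑ᶠ W ∈ {W : Subgroup V₀ | Nat.card W = ℓ}, (cS U c d σ W - 1) *
      (F {s | s ∈ T ∧ s.2.2.1 ∈ W} - F (A1 κ {s | s ∈ T ∧ s.2.2.1 ∈ W})), ?_, ?_⟩
    · rw [mul_finsum_mem (fun W : Subgroup V₀ => (cS U c d σ W - 1) *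
        (F {s | s ∈ T ∧ s.2.2.1 ∈ W} - F (A1 κ {s | s ∈ T ∧ s.2.2.1 ∈ W})))]
      refine finsum_mem_induction (fun x => x ∈ SOR.Rl ℓ) (zero_mem _) (fun _ _ => add_mem) ?_
      intro W hWc
      obtain ⟨q, hq, h⟩ := hcs W hWc
      rw [h]
      have h2 : (ℓ : ℚ) * (ℓ * q * (F {s | s ∈ T ∧ s.2.2.1 ∈ W} -
          F (A1 κ {s | s ∈ T ∧ s.2.2.1 ∈ W}))) = q * ((ℓ : ℚ) ^ 2 *
          (F {s | s ∈ T ∧ s.2.2.1 ∈ W} - F (A1 κ {s | s ∈ T ∧ s.2.2.1 ∈ W}))) := by ring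
      show (ℓ : ℚ) * (ℓ * q * (F {s | s ∈ T ∧ s.2.2.1 ∈ W} -
          F (A1 κ {s | s ∈ T ∧ s.2.2.1 ∈ W}))) ∈ SOR.Rl ℓ
      rw [h2]
      exact mul_mem hq (hW W hWc)
    · rw [gdh ℓ V₀ E₀ hF n U c d σ a ha hκ F T hT]
      rw [mul_div_cancel_left₀ _ hℓ0]
  -- some element of `a`
  obtain ⟨p0, hp0, hp01⟩ : ∃ p ∈ a, p ≠ 1 := by
    by_contra hcon
    push Not at hcon
    have : a = ⊥ := by
      rw [Subgroup.eq_bot_iff_forall]
      exact hcon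
    rw [this, Subgroup.card_bot] at ha
    exact hℓ.out.one_lt.ne ha
  -- powers of κ
  have hκa : ∀ k : ℕ, κ ^ k ∈ a → ℓ ∣ k := fun k hk => dvd_of_mem hF.ex a hκ hk
  have hpd : ∀ (v : V₀) {k : ℕ}, ℓ ∣ k → v ^ k = 1 := fun v k h => pow_dvd (ex := hF.ex) v h
  refine ⟨?_, ?_, ?_⟩
  · intro hτa
    have hT : (TD σ a κ τ y : Set (SO.SS n V₀)) = {s | κ ^ (s.2.1 : ℕ) * s.2.2.1 ∈ a ∧
      s.2.2.2 = σ⁻¹ s.2.2.1 ∧ y ^ (s.1 : ℕ) = 1} := (t1 hτa).2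
    rw [hT]
    obtain ⟨q, hq, h⟩ := key {s | κ ^ (s.2.1 : ℕ) * s.2.2.1 ∈ a ∧
      s.2.2.2 = σ⁻¹ s.2.2.1 ∧ y ^ (s.1 : ℕ) = 1} (fun s hs => hs.1) (by
      intro W hW
      by_cases hWa : W = a
      · subst hWa
        rw [f1 {s | s ∈ {s : SO.SS n V₀ | κ ^ (s.2.1 : ℕ) * s.2.2.1 ∈ W ∧
          s.2.2.2 = σ⁻¹ s.2.2.1 ∧ y ^ (s.1 : ℕ) = 1} ∧ s.2.2.1 ∈ W} (fun hfre => hp01
            (hfre (z0, z0, p0, σ⁻¹ p0) ⟨⟨by
              show κ ^ (z0 : ℕ) * p0 ∈ W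
              rw [hz0, pow_zero, one_mul]
              exact hp0, rfl, by
              show y ^ (z0 : ℕ) = 1
              rw [hz0, pow_zero]⟩, hp0⟩ hz0 hz0).1)]
        rw [fv _ (by
          rintro s ⟨⟨⟨h1, h2, h3⟩, h4⟩, h5⟩
          have h6 : κ ^ (s.2.1 : ℕ) ∈ W := by
            have := mul_mem h1 (inv_mem h4)
            rwa [mul_inv_cancel_right] at this
          have h7 := hpd κ (hκa _ h6)
          rw [h7, one_mul] at h5
          refine ⟨h5, ?_⟩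
          rw [h2, h5, map_one])]
        have h8 := hint 0 (x₁ c⁻¹ * x₂ d⁻¹)
        rw [Int.cast_zero, zero_div] at h8
        exact h8
      · obtain ⟨hi, hd⟩ := lines hF.cd a W ha hW hWa
        by_cases hκW : κ ∈ W
        · have h1 : A1 κ {s | s ∈ {s : SO.SS n V₀ | κ ^ (s.2.1 : ℕ) * s.2.2.1 ∈ a ∧
              s.2.2.2 = σ⁻¹ s.2.2.1 ∧ y ^ (s.1 : ℕ) = 1} ∧ s.2.2.1 ∈ W} =
              {s | s ∈ {s : SO.SS n V₀ | κ ^ (s.2.1 : ℕ) * s.2.2.1 ∈ a ∧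
              s.2.2.2 = σ⁻¹ s.2.2.1 ∧ y ^ (s.1 : ℕ) = 1} ∧ s.2.2.1 ∈ W} := by
            ext s
            constructor
            · exact fun h => h.1
            · intro h
              exact ⟨h, hi _ h.1.1 (mul_mem (pow_mem hκW _) h.2)⟩
          rw [h1, sub_self, mul_zero]
          exact zero_mem _
        · obtain ⟨α, hα, w, hw, hκe⟩ := hd κ
          have hα1 : α ∉ (⊥ : Subgroup V₀) := by
            intro h
            rw [Subgroup.mem_bot] at h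
            rw [h, one_mul] at hκe
            exact hκW (hκe ▸ hw)
          have hset : {s | s ∈ {s : SO.SS n V₀ | κ ^ (s.2.1 : ℕ) * s.2.2.1 ∈ a ∧
              s.2.2.2 = σ⁻¹ s.2.2.1 ∧ y ^ (s.1 : ℕ) = 1} ∧ s.2.2.1 ∈ W} =
              {s | s.1 ∈ {i : Fin n | y ^ (i : ℕ) = 1} ∧ s.2.2.1 = w⁻¹ ^ (s.2.1 : ℕ) ∧
                s.2.2.2 = (σ⁻¹ w)⁻¹ ^ (s.2.1 : ℕ)} := by
            ext s
            have h0 : κ ^ (s.2.1 : ℕ) * s.2.2.1 =
                α ^ (s.2.1 : ℕ) * (w ^ (s.2.1 : ℕ) * s.2.2.1) := by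
              rw [hκe, mul_pow, mul_assoc]
            constructor
            · rintro ⟨⟨h1, h2, h3⟩, h4⟩
              rw [h0] at h1
              have h5 : w ^ (s.2.1 : ℕ) * s.2.2.1 = 1 := by
                refine hi _ ?_ (mul_mem (pow_mem hw _) h4)
                exact (Subgroup.mul_mem_cancel_left _ (pow_mem hα _)).1 h1
              have h6 : s.2.2.1 = w⁻¹ ^ (s.2.1 : ℕ) := by
                rw [inv_pow]
                exact eq_inv_of_mul_eq_one_right h5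
              refine ⟨h3, h6, ?_⟩
              rw [h2, h6, map_pow, map_inv]
            · rintro ⟨h1, h2, h3⟩
              refine ⟨⟨?_, ?_, h1⟩, ?_⟩
              · rw [h0, h2, inv_pow, mul_inv_cancel, mul_one]
                exact pow_mem hα _
              · rw [h3, h2, map_pow, map_inv]
              · rw [h2]
                exact pow_mem (inv_mem hw) _
          rw [hset, f3 w⁻¹ (σ⁻¹ w)⁻¹ {i : Fin n | y ^ (i : ℕ) = 1} ⟨z0, by
            show y ^ (z0 : ℕ) = 1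
            rw [hz0, pow_zero], hz0⟩]
          rw [fv _ (by
            rintro s ⟨⟨h1, h2, h3⟩, h5⟩
            have h6 : α ^ (s.2.1 : ℕ) = 1 := by
              rw [h2, hκe, mul_pow, inv_pow, mul_assoc, mul_inv_cancel, mul_one] at h5
              exact h5
            have h7 : ℓ ∣ (s.2.1 : ℕ) := dvd_of_mem hF.ex ⊥ hα1 (by
              rw [Subgroup.mem_bot]
              exact h6)
            rw [h2, h3, hpd _ h7, hpd _ h7]
            exact ⟨rfl, rfl⟩)]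
          exact hint _ _)
    refine ⟨q, hq, ?_⟩
    rw [h]
    congr 1
    rw [f1 {s : SO.SS n V₀ | κ ^ (s.2.1 : ℕ) * s.2.2.1 ∈ a ∧
      s.2.2.2 = σ⁻¹ s.2.2.1 ∧ y ^ (s.1 : ℕ) = 1} (fun hfre => hp01 (hfre (z0, z0, p0, σ⁻¹ p0) ⟨by
      show κ ^ (z0 : ℕ) * p0 ∈ a
      rw [hz0, pow_zero, one_mul]
      exact hp0, rfl, by
      show y ^ (z0 : ℕ) = 1
      rw [hz0, pow_zero]⟩ hz0 hz0).1)]
    have hA : A1 κ {s : SO.SS n V₀ | κ ^ (s.2.1 : ℕ) * s.2.2.1 ∈ a ∧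
        s.2.2.2 = σ⁻¹ s.2.2.1 ∧ y ^ (s.1 : ℕ) = 1} =
        {s | s.1 ∈ {i : Fin n | y ^ (i : ℕ) = 1} ∧ s.2.2.1 = κ⁻¹ ^ (s.2.1 : ℕ) ∧
          s.2.2.2 = (σ⁻¹ κ)⁻¹ ^ (s.2.1 : ℕ)} := by
      ext s
      constructor
      · rintro ⟨⟨h1, h2, h3⟩, h4⟩
        have h6 : s.2.2.1 = κ⁻¹ ^ (s.2.1 : ℕ) := by
          rw [inv_pow]
          exact eq_inv_of_mul_eq_one_right h4
        refine ⟨h3, h6, ?_⟩
        rw [h2, h6, map_pow, map_inv]
      · rintro ⟨h1, h2, h3⟩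
        have h5 : κ ^ (s.2.1 : ℕ) * s.2.2.1 = 1 := by
          rw [h2, inv_pow, mul_inv_cancel]
        refine ⟨⟨?_, ?_, h1⟩, h5⟩
        · rw [h5]
          exact one_mem _
        · rw [h3, h2, map_pow, map_inv]
    rw [hA, f3 κ⁻¹ (σ⁻¹ κ)⁻¹ {i : Fin n | y ^ (i : ℕ) = 1} ⟨z0, by
      show y ^ (z0 : ℕ) = 1
      rw [hz0, pow_zero], hz0⟩, zero_sub]
  · intro hτa ζ hζ hζ1 hy
    have hT : (TD σ a κ τ y : Set (SO.SS n V₀)) = {s | s.2.2.1 = ζ ^ (s.1 : ℕ) *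
      κ⁻¹ ^ (s.2.1 : ℕ) ∧ s.2.2.2 = (σ⁻¹ ζ) ^ (s.1 : ℕ) * (σ⁻¹ κ)⁻¹ ^ (s.2.1 : ℕ)} :=
      (t2 hτa ζ hζ hζ1 hy).2
    rw [hT]
    have hζb : ζ ∉ (⊥ : Subgroup V₀) := fun h => hζ1 (Subgroup.mem_bot.1 h)
    have hζd : ∀ i : ℕ, ζ ^ i = 1 → ℓ ∣ i := fun i hi => dvd_of_mem hF.ex ⊥ hζb (by
      rw [Subgroup.mem_bot]
      exact hi)
    have hαs : ∀ s : SO.SS n V₀, s.2.2.1 = ζ ^ (s.1 : ℕ) * κ⁻¹ ^ (s.2.1 : ℕ) →
        κ ^ (s.2.1 : ℕ) * s.2.2.1 = ζ ^ (s.1 : ℕ) := by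
      intro s hs
      rw [hs, inv_pow, mul_comm, inv_mul_cancel_right]
    obtain ⟨q, hq, h⟩ := key {s | s.2.2.1 = ζ ^ (s.1 : ℕ) *
      κ⁻¹ ^ (s.2.1 : ℕ) ∧ s.2.2.2 = (σ⁻¹ ζ) ^ (s.1 : ℕ) * (σ⁻¹ κ)⁻¹ ^ (s.2.1 : ℕ)} (fun s hs => by
        rw [hαs s hs.1]
        exact pow_mem hζ _) (by
      intro W hW
      by_cases hWa : W = a
      · subst hWa
        have hset : {s | s ∈ {s : SO.SS n V₀ | s.2.2.1 = ζ ^ (s.1 : ℕ) *
            κ⁻¹ ^ (s.2.1 : ℕ) ∧ s.2.2.2 = (σ⁻¹ ζ) ^ (s.1 : ℕ) * (σ⁻¹ κ)⁻¹ ^ (s.2.1 : ℕ)} ∧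
            s.2.2.1 ∈ W} = {s | ℓ ∣ (s.2.1 : ℕ) ∧ s.2.2.1 = ζ ^ (s.1 : ℕ) ∧
              s.2.2.2 = (σ⁻¹ ζ) ^ (s.1 : ℕ)} := by
          ext s
          constructor
          · rintro ⟨⟨h1, h2⟩, h3⟩
            have h4 : ℓ ∣ (s.2.1 : ℕ) := by
              apply hκa
              rw [h1] at h3
              have h5 := (Subgroup.mul_mem_cancel_left _ (pow_mem hζ _)).1 h3
              rw [inv_pow] at h5
              exact (Subgroup.inv_mem_iff _).1 h5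
            rw [hpd κ⁻¹ h4, mul_one] at h1
            rw [hpd (σ⁻¹ κ)⁻¹ h4, mul_one] at h2
            exact ⟨h4, h1, h2⟩
          · rintro ⟨h1, h2, h3⟩
            refine ⟨⟨?_, ?_⟩, ?_⟩
            · rw [hpd κ⁻¹ h1, mul_one]
              exact h2
            · rw [hpd (σ⁻¹ κ)⁻¹ h1, mul_one]
              exact h3
            · rw [h2]
              exact pow_mem hζ _
        rw [hset, f5 ζ (σ⁻¹ ζ)]
        rw [fv _ (by
          rintro s ⟨⟨h1, h2, h3⟩, h5⟩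
          rw [hpd κ h1, one_mul] at h5
          refine ⟨h5, ?_⟩
          rw [h2] at h5
          rw [h3, hpd _ (hζd _ h5)])]
        exact hint _ _
      · obtain ⟨hi, hd⟩ := lines hF.cd a W ha hW hWa
        by_cases hκW : κ ∈ W
        · have h1 : A1 κ {s | s ∈ {s : SO.SS n V₀ | s.2.2.1 = ζ ^ (s.1 : ℕ) *
              κ⁻¹ ^ (s.2.1 : ℕ) ∧ s.2.2.2 = (σ⁻¹ ζ) ^ (s.1 : ℕ) * (σ⁻¹ κ)⁻¹ ^ (s.2.1 : ℕ)} ∧
              s.2.2.1 ∈ W} = {s | s ∈ {s : SO.SS n V₀ | s.2.2.1 = ζ ^ (s.1 : ℕ) *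
              κ⁻¹ ^ (s.2.1 : ℕ) ∧ s.2.2.2 = (σ⁻¹ ζ) ^ (s.1 : ℕ) * (σ⁻¹ κ)⁻¹ ^ (s.2.1 : ℕ)} ∧
              s.2.2.1 ∈ W} := by
            ext s
            constructor
            · exact fun h => h.1
            · intro h
              refine ⟨h, hi _ ?_ (mul_mem (pow_mem hκW _) h.2)⟩
              rw [hαs s h.1.1]
              exact pow_mem hζ _
          rw [h1, sub_self, mul_zero]
          exact zero_mem _
        · obtain ⟨α, hα, w, hw, hκe⟩ := hd κ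
          obtain ⟨i₀, hi₀⟩ : ∃ i₀ : ℕ, ζ ^ i₀ = α := by
            have h1 : α ∈ Subgroup.zpowers ζ := by
              rw [zpow_eq a ha hζ hζ1]
              exact hα
            have h2 := mem_powers_iff_mem_zpowers.2 h1
            exact (Submonoid.mem_powers_iff _ _).1 h2
          have hi₀d : ¬ ℓ ∣ i₀ := by
            intro h1
            rw [hpd ζ h1] at hi₀
            rw [← hi₀, one_mul] at hκe
            exact hκW (hκe ▸ hw)
          have hcong : ∀ i k : ℕ, ζ ^ i * (ζ ^ (i₀ * k))⁻¹ = 1 ↔ i ≡ i₀ * k [MOD ℓ] := by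
            intro i k
            rw [mul_inv_eq_one]
            have hord : orderOf ζ = ℓ := orderOf_eq_prime (hF.ex ζ) hζ1
            rw [pow_eq_pow_iff_modEq, hord]
          have hset : {s | s ∈ {s : SO.SS n V₀ | s.2.2.1 = ζ ^ (s.1 : ℕ) *
              κ⁻¹ ^ (s.2.1 : ℕ) ∧ s.2.2.2 = (σ⁻¹ ζ) ^ (s.1 : ℕ) * (σ⁻¹ κ)⁻¹ ^ (s.2.1 : ℕ)} ∧
              s.2.2.1 ∈ W} = {s | s.2.2.1 = w⁻¹ ^ (s.2.1 : ℕ) ∧
                s.2.2.2 = (σ⁻¹ w⁻¹) ^ (s.2.1 : ℕ) ∧ (s.1 : ℕ) ≡ i₀ * (s.2.1 : ℕ) [MOD ℓ]} := by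
            ext s
            have h0 : ζ ^ (s.1 : ℕ) * κ⁻¹ ^ (s.2.1 : ℕ) =
                ζ ^ (s.1 : ℕ) * (ζ ^ (i₀ * (s.2.1 : ℕ)))⁻¹ * w⁻¹ ^ (s.2.1 : ℕ) := by
              rw [hκe, ← hi₀, mul_inv, mul_pow, inv_pow, ← pow_mul, mul_assoc]
            have h0' : (σ⁻¹ ζ) ^ (s.1 : ℕ) * (σ⁻¹ κ)⁻¹ ^ (s.2.1 : ℕ) =
                σ⁻¹ (ζ ^ (s.1 : ℕ) * κ⁻¹ ^ (s.2.1 : ℕ)) := by
              rw [map_mul σ⁻¹ (ζ ^ (s.1 : ℕ)) (κ⁻¹ ^ (s.2.1 : ℕ)), map_pow, map_pow, map_inv]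
            constructor
            · rintro ⟨⟨h1, h2⟩, h3⟩
              have h4 : ζ ^ (s.1 : ℕ) * (ζ ^ (i₀ * (s.2.1 : ℕ)))⁻¹ = 1 := by
                refine hi _ (mul_mem (pow_mem hζ _) (inv_mem (pow_mem hζ _))) ?_
                rw [h1, h0] at h3
                exact (Subgroup.mul_mem_cancel_right _ (pow_mem (inv_mem hw) _)).1 h3
              rw [h0, h4, one_mul] at h1
              refine ⟨h1, ?_, (hcong _ _).1 h4⟩
              rw [h2, h0', h0, h4, one_mul, map_pow]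
            · rintro ⟨h1, h2, h3⟩
              have h4 := (hcong _ _).2 h3
              refine ⟨⟨?_, ?_⟩, ?_⟩
              · rw [h0, h4, one_mul]
                exact h1
              · rw [h0', h0, h4, one_mul, map_pow]
                exact h2
              · rw [h1]
                exact pow_mem (inv_mem hw) _
          rw [hset, mul_sub]
          refine sub_mem (f6 w⁻¹ (σ⁻¹ w⁻¹) i₀ hi₀d) ?_
          rw [fv _ (by
            rintro s ⟨⟨h1, h2, h3⟩, h5⟩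
            have h6 : ℓ ∣ (s.2.1 : ℕ) := by
              rw [h1, hκe, mul_pow, inv_pow, mul_assoc, mul_inv_cancel, mul_one, ← hi₀,
                ← pow_mul] at h5
              exact ((Nat.Prime.dvd_mul hℓ.out).1 (hζd _ h5)).resolve_left hi₀d
            rw [h1, h2, hpd _ h6, hpd _ h6]
            exact ⟨rfl, rfl⟩)]
          rw [mul_div_cancel₀ _ (pow_ne_zero 2 hℓ0)]
          exact int_rl _)
    refine ⟨q, hq, ?_⟩
    rw [h]
    congr 1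
    rw [f4 ζ (σ⁻¹ ζ) κ⁻¹ (σ⁻¹ κ)⁻¹]
    have hA : A1 κ {s : SO.SS n V₀ | s.2.2.1 = ζ ^ (s.1 : ℕ) *
        κ⁻¹ ^ (s.2.1 : ℕ) ∧ s.2.2.2 = (σ⁻¹ ζ) ^ (s.1 : ℕ) * (σ⁻¹ κ)⁻¹ ^ (s.2.1 : ℕ)} =
        {s | s.1 ∈ {i : Fin n | ζ ^ (i : ℕ) = 1} ∧ s.2.2.1 = κ⁻¹ ^ (s.2.1 : ℕ) ∧
          s.2.2.2 = (σ⁻¹ κ)⁻¹ ^ (s.2.1 : ℕ)} := by
      ext s
      constructor
      · rintro ⟨⟨h1, h2⟩, h3⟩
        rw [hαs s h1] at h3
        refine ⟨h3, ?_, ?_⟩
        · rw [h1, h3, one_mul]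
        · rw [h2, ← map_pow, h3, map_one, one_mul]
      · rintro ⟨h1, h2, h3⟩
        have h1' : ζ ^ (s.1 : ℕ) = 1 := h1
        refine ⟨⟨?_, ?_⟩, ?_⟩
        · rw [h1', one_mul]
          exact h2
        · rw [← map_pow, h1', map_one, one_mul]
          exact h3
        · rw [h2, inv_pow, mul_inv_cancel]
    rw [hA, f3 κ⁻¹ (σ⁻¹ κ)⁻¹ {i : Fin n | ζ ^ (i : ℕ) = 1} ⟨z0, by
      show ζ ^ (z0 : ℕ) = 1
      rw [hz0, pow_zero], hz0⟩]
    unfold BrF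
    push_cast
    field_simp
    ring
  · intro hτa hy
    have h1 := (t3 hτa hy).2
    have hA : ∀ X : Set (SO.SS n V₀), X ⊆ TD σ a κ τ y → A1 κ X = X := by
      intro X hX
      ext s
      constructor
      · exact fun h => h.1
      · intro h
        exact ⟨h, h1 s (hX h)⟩
    rw [gdh ℓ V₀ E₀ hF n U c d σ a ha hκ F (TD σ a κ τ y) (fun s hs => hs.1)]
    rw [hA _ (subset_refl _), sub_self, zero_add]
    refine finsum_mem_eq_zero_of_forall_eq_zero fun W _ => ?_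
    rw [hA _ (fun s hs => hs.1), sub_self, mul_zero]

end Pool.Agent.PP.SE.H41
end
end -- Pool.Agent.Helper41_ASE.GDV

section -- Pool.Agent.Helper41_ASE.GEC

/-!
# Squad ASE, row GEC: linear characters and a reflection line
-/

open scoped BigOperators

set_option autoImplicit false

noncomputable section

namespace Pool.Agent.PP.SE.H41

open Pool.Agent.Helper51_AWC Pool.Agent.Helper79_WRA Pool.Agent.PP Pool.Agent.PP.KF
open Pool.Agent.PP.K9 Pool.Agent.PP.K9.H97 Pool.Agent.PP.H75 Pool.Agent.PP.T3 Pool.Agent.PP.SO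
open Pool.Agent.PP.SD

section lin

variable {V₀ : Type} [CommGroup V₀] [Finite V₀]

omit [Finite V₀] in
theorem lin_pow {s : V₀ → ℂ} (hs : s ∈ lin V₀) (v : V₀) (n : ℕ) : s (v ^ n) = s v ^ n := by
  induction n with
  | zero => rw [pow_zero, pow_zero]; exact hs.1
  | succ n ih => rw [pow_succ, pow_succ, hs.2, ih]

omit [Finite V₀] in
theorem lin_inv {s : V₀ → ℂ} (hs : s ∈ lin V₀) (v : V₀) : s v * s v⁻¹ = 1 := by
  rw [← hs.2, mul_inv_cancel, hs.1]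

omit [Finite V₀] in
theorem lin_ne {s : V₀ → ℂ} (hs : s ∈ lin V₀) (v : V₀) : s v ≠ 0 := by
  intro h
  have := lin_inv hs v
  rw [h, zero_mul] at this
  exact zero_ne_one this

/-- the linear character of a character of the quotient -/
def ofQ (A : Subgroup V₀) (φ : V₀ ⧸ A →* ℂˣ) : V₀ → ℂ := fun v => (φ (v : V₀ ⧸ A) : ℂ)

omit [Finite V₀] in
theorem ofQ_mem (A : Subgroup V₀) (φ : V₀ ⧸ A →* ℂˣ) : ofQ A φ ∈ lk A := by
  refine ⟨⟨?_, fun v w => ?_⟩, fun w hw => ?_⟩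
  · show ((φ ((1 : V₀) : V₀ ⧸ A) : ℂˣ) : ℂ) = 1
    rw [QuotientGroup.mk_one, map_one, Units.val_one]
  · show ((φ ((v * w : V₀) : V₀ ⧸ A) : ℂˣ) : ℂ) = _
    rw [QuotientGroup.mk_mul, map_mul, Units.val_mul]
    rfl
  · show ((φ ((w : V₀) : V₀ ⧸ A) : ℂˣ) : ℂ) = 1
    rw [(QuotientGroup.eq_one_iff w).2 hw, map_one, Units.val_one]

omit [Finite V₀] in
theorem ofQ_inj (A : Subgroup V₀) : Function.Injective (ofQ A) := by
  intro φ ψ h
  refine MonoidHom.ext fun q => ?_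
  obtain ⟨v, rfl⟩ := QuotientGroup.mk_surjective q
  exact Units.ext (congrFun h v)

omit [Finite V₀] in
theorem ofQ_surj (A : Subgroup V₀) {s : V₀ → ℂ} (hs : s ∈ lk A) : ∃ φ, ofQ A φ = s := by
  let f : V₀ →* ℂ := ⟨⟨s, hs.1.1⟩, hs.1.2⟩
  have hf : ∀ v, (f.toHomUnits v : ℂ) = s v := fun v => rfl
  refine ⟨QuotientGroup.lift A f.toHomUnits ?_, ?_⟩
  · intro w hw
    refine Units.ext ?_
    rw [hf, Units.val_one]
    exact hs.2 w hw
  · funext v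
    show ((QuotientGroup.lift A f.toHomUnits _ (v : V₀ ⧸ A) : ℂˣ) : ℂ) = s v
    rw [QuotientGroup.lift_mk]
    rfl

omit [Finite V₀] in
theorem lk_range (A : Subgroup V₀) : lk A = Set.range (ofQ A) := by
  ext s
  constructor
  · intro hs
    exact ofQ_surj A hs
  · rintro ⟨φ, rfl⟩
    exact ofQ_mem A φ

theorem lk_ncard (A : Subgroup V₀) : (lk A).ncard = Nat.card (V₀ ⧸ A) := by
  rw [lk_range, ← Set.image_univ, Set.ncard_image_of_injective _ (ofQ_inj A), Set.ncard_univ]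
  exact CommGroup.card_monoidHom_of_hasEnoughRootsOfUnity (V₀ ⧸ A) ℂ

theorem lk_finite (A : Subgroup V₀) : (lk A).Finite := by
  refine Set.finite_of_ncard_ne_zero ?_
  rw [lk_ncard]
  exact Nat.card_pos.ne'

theorem lk_sep (A : Subgroup V₀) {y : V₀} (hy : y ∉ A) : ∃ s ∈ lk A, s y ≠ 1 := by
  have h1 : (y : V₀ ⧸ A) ≠ 1 := fun h => hy ((QuotientGroup.eq_one_iff y).1 h)
  obtain ⟨φ, hφ⟩ := CommGroup.exists_apply_ne_one_of_hasEnoughRootsOfUnity (V₀ ⧸ A) ℂ h1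
  refine ⟨ofQ A φ, ofQ_mem A φ, fun h => hφ (Units.ext ?_)⟩
  rw [Units.val_one]
  exact h

omit [Finite V₀] in
theorem lk_mul {A : Subgroup V₀} {s t : V₀ → ℂ} (hs : s ∈ lk A) (ht : t ∈ lk A) :
    (fun v => s v * t v) ∈ lk A := by
  refine ⟨⟨?_, fun v w => ?_⟩, fun w hw => ?_⟩
  · show s 1 * t 1 = 1
    rw [hs.1.1, ht.1.1, mul_one]
  · show s (v * w) * t (v * w) = s v * t v * (s w * t w)
    rw [hs.1.2, ht.1.2]
    ring
  · show s w * t w = 1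
    rw [hs.2 w hw, ht.2 w hw, mul_one]

omit [Finite V₀] in
theorem lk_inv {A : Subgroup V₀} {s : V₀ → ℂ} (hs : s ∈ lk A) :
    (fun v => s v⁻¹) ∈ lk A := by
  refine ⟨⟨?_, fun v w => ?_⟩, fun w hw => ?_⟩
  · show s 1⁻¹ = 1
    rw [inv_one, hs.1.1]
  · show s (v * w)⁻¹ = s v⁻¹ * s w⁻¹
    rw [mul_inv, hs.1.2]
  · exact hs.2 _ (inv_mem hw)

theorem lk_sum (A : Subgroup V₀) {y : V₀} (hy : y ∉ A) : ∑ᶠ s ∈ lk A, s y = 0 := by
  obtain ⟨t, ht, hty⟩ := lk_sep A hy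
  have h1 : ∑ᶠ s ∈ lk A, t y * s y = ∑ᶠ s ∈ lk A, s y := by
    refine finsum_mem_eq_of_bijOn (fun s v => t v * s v) ⟨fun s hs => lk_mul ht hs, ?_, ?_⟩
      fun s _ => rfl
    · intro s _ s' _ h
      funext v
      exact mul_left_cancel₀ (lin_ne ht.1 v) (congrFun h v)
    · intro s hs
      refine ⟨fun v => t v⁻¹ * s v, lk_mul (lk_inv ht) hs, ?_⟩
      funext v
      show t v * (t v⁻¹ * s v) = s v
      rw [← mul_assoc, lin_inv ht.1, one_mul]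
  rw [← mul_finsum_mem (fun s : V₀ → ℂ => s y)] at h1
  have h2 : (t y - 1) * ∑ᶠ s ∈ lk A, s y = 0 := by
    rw [sub_mul, h1, one_mul, sub_self]
  exact (mul_eq_zero.1 h2).resolve_left (sub_ne_zero.2 hty)

theorem sub_sum (A : Subgroup V₀) {s : V₀ → ℂ} (hs : s ∈ lin V₀) {x : V₀} (hx : x ∈ A)
    (hsx : s x ≠ 1) : ∑ᶠ y ∈ (A : Set V₀), s y = 0 := by
  have h1 : ∑ᶠ y ∈ (A : Set V₀), s x * s y = ∑ᶠ y ∈ (A : Set V₀), s y := by
    refine finsum_mem_eq_of_bijOn (fun y => x * y) ⟨fun y hy => mul_mem hx hy, ?_, ?_⟩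
      fun y _ => (hs.2 x y).symm
    · intro y _ y' _ h
      exact mul_left_cancel h
    · intro y hy
      exact ⟨x⁻¹ * y, mul_mem (inv_mem hx) hy, mul_inv_cancel_left x y⟩
  rw [← mul_finsum_mem (fun y : V₀ => s y)] at h1
  have h2 : (s x - 1) * ∑ᶠ y ∈ (A : Set V₀), s y = 0 := by
    rw [sub_mul, h1, one_mul, sub_self]
  exact (mul_eq_zero.1 h2).resolve_left (sub_ne_zero.2 hsx)

end lin

theorem gec (gea : GeaStmt) : GecStmt := by
  intro ℓ hℓ V₀ _ _ E₀ hF W hW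
  obtain ⟨⟨-, -, -, ckW, hinf, -, -, -⟩, g2, g3, g4, g5, g6, g7, g8, -, -⟩ := gea ℓ V₀ E₀ hF W hW
  have hℓ0 : 0 < ℓ := hℓ.out.pos
  have hcard : ∀ A : Subgroup V₀, Nat.card A = ℓ → Nat.card (V₀ ⧸ A) = ℓ := by
    intro A hA
    have h1 := Subgroup.card_eq_card_quotient_mul_card_subgroup A
    rw [hF.cd, hA, sq] at h1
    exact (Nat.eq_of_mul_eq_mul_right hℓ0 h1).symm
  have hsplit : ∀ v, v = v * (pr ℓ E₀ W v)⁻¹ * pr ℓ E₀ W v := fun v => by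
    rw [inv_mul_cancel_right]
  have hnu : ∀ ν ∈ lk (kW E₀ W), ∀ v, ν (pr ℓ E₀ W v) = ν v := by
    intro ν hν v
    have h1 := congrArg ν (hsplit v)
    rw [hν.1.2, hν.2 _ (g2 v).2, one_mul] at h1
    exact h1.symm
  have hs1 : ∀ s ∈ lk W, ∀ v, s (v * (pr ℓ E₀ W v)⁻¹) = s v := by
    intro s hs v
    have h1 := congrArg s (hsplit v)
    rw [hs.1.2, hs.2 _ (g2 v).1, mul_one] at h1
    exact h1.symm
  have hex : ∀ s ∈ lk W, s ≠ (fun _ => 1) → ∃ y ∈ kW E₀ W, s y ≠ 1 := by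
    intro s hs hne
    by_contra hcon
    push Not at hcon
    refine hne (funext fun v => ?_)
    rw [← hs1 s hs v]
    exact hcon _ (g2 v).2
  have hex' : ∀ ν ∈ lk (kW E₀ W), ν ≠ (fun _ => 1) → ∃ w ∈ W, ν w ≠ 1 := by
    intro ν hν hne
    by_contra hcon
    push Not at hcon
    refine hne (funext fun v => ?_)
    rw [← hnu ν hν v]
    exact hcon _ (g2 v).1
  have hact : ∀ s ∈ lk W, ∀ τ ∈ St E₀ W, (fun v => s (τ v)) ∈ lk W := by
    intro s hs τ hτ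
    refine ⟨⟨?_, fun v w => ?_⟩, fun w hw => ?_⟩
    · show s (τ 1) = 1
      rw [map_one, hs.1.1]
    · show s (τ (v * w)) = s (τ v) * s (τ w)
      rw [map_mul, hs.1.2]
    · show s (τ w) = 1
      rw [hτ.2 w hw, hs.2 w hw]
  have hne1 : ∀ s ∈ lk W, ∀ τ ∈ St E₀ W, s ≠ (fun _ => 1) → (fun v => s (τ v)) ≠ (fun _ => 1) := by
    intro s hs τ hτ hne h
    refine hne (funext fun v => ?_)
    have h1 := congrFun h (τ⁻¹ v)
    simp only [MulAut.apply_inv_self] at h1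
    exact h1
  have hne2 : ∀ s ∈ lk W, ∀ τ ∈ St E₀ W, s ≠ (fun _ => 1) → τ ≠ 1 → (fun v => s (τ v)) ≠ s := by
    intro s hs τ hτ hne hτ1 h
    obtain ⟨y, hy, hsy⟩ := hex s hs hne
    obtain ⟨a, ha⟩ := g8 τ hτ
    have hy1 : y ≠ 1 := fun h1 => hsy (by rw [h1]; exact hs.1.1)
    have h1 : s y ^ a = s y := by
      rw [← lin_pow hs.1, ← ha y hy]
      exact congrFun h y
    have h2 : s y ^ ℓ = 1 := by rw [← lin_pow hs.1, hF.ex, hs.1.1]
    have h3 : orderOf (s y) = ℓ := orderOf_eq_prime h2 hsy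
    have ha0 : a ≠ 0 := by
      intro h0
      rw [h0, pow_zero] at h1
      exact hsy h1.symm
    obtain ⟨b, rfl⟩ := Nat.exists_eq_succ_of_ne_zero ha0
    have h4 : s y ^ b = 1 := by
      rw [Nat.succ_eq_add_one, pow_succ] at h1
      exact mul_right_cancel₀ (lin_ne hs.1 y) (h1.trans (one_mul _).symm)
    have h5 : ℓ ∣ b := by
      rw [← h3]
      exact orderOf_dvd_of_pow_eq_one h4
    obtain ⟨c, rfl⟩ := h5
    refine (g7 τ hτ y hy).2 hτ1 hy1 ?_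
    rw [ha y hy, Nat.succ_eq_add_one, pow_succ, pow_mul, hF.ex, one_pow, one_mul]
  refine ⟨?_, ?_, lk_finite W, lk_finite _, ?_, ?_, ?_, ?_, ?_, ?_, ?_, ?_, ?_, ?_⟩
  · rw [lk_ncard, hcard W hW.1]
  · rw [lk_ncard, hcard _ ckW]
  · intro μ hμ
    refine ⟨⟨⟨?_, fun v w => ?_⟩, fun w hw => ?_⟩, ⟨⟨?_, fun v w => ?_⟩, fun w hw => ?_⟩⟩
    · show μ (pr ℓ E₀ W 1) = 1
      rw [g4 1 (one_mem _), hμ.1]
    · show μ (pr ℓ E₀ W (v * w)) = μ (pr ℓ E₀ W v) * μ (pr ℓ E₀ W w)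
      rw [g3, hμ.2]
    · show μ (pr ℓ E₀ W w) = 1
      rw [g5 w hw, hμ.1]
    · show μ (1 * (pr ℓ E₀ W 1)⁻¹) = 1
      rw [g4 1 (one_mem _), inv_one, mul_one, hμ.1]
    · show μ (v * w * (pr ℓ E₀ W (v * w))⁻¹) = μ (v * (pr ℓ E₀ W v)⁻¹) * μ (w * (pr ℓ E₀ W w)⁻¹)
      rw [g3, mul_inv, mul_mul_mul_comm, hμ.2]
    · show μ (w * (pr ℓ E₀ W w)⁻¹) = 1
      rw [g4 w hw, mul_inv_cancel, hμ.1]
  · intro ν hν s hs
    refine ⟨?_, fun v w => ?_⟩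
    · show ν 1 * s 1 = 1
      rw [hν.1.1, hs.1.1, mul_one]
    · show ν (v * w) * s (v * w) = ν v * s v * (ν w * s w)
      rw [hν.1.2, hs.1.2]
      ring
  · intro ν hν v
    refine ⟨hnu ν hν v, fun τ hτ => ?_⟩
    rw [← hnu ν hν (τ v), g6 τ hτ v, hnu ν hν v]
  · intro s hs v
    exact ⟨hs1 s hs v, hs.2 _ (g2 v).1⟩
  · intro s hs τ hτ
    exact ⟨hact s hs τ hτ, fun hne => ⟨hne1 s hs τ hτ hne, fun hτ1 => hne2 s hs τ hτ hne hτ1⟩⟩
  · intro s hs hne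
    have himg : orb E₀ W s = (fun τ : MulAut V₀ => fun v => s (τ v)) '' (St E₀ W : Set (MulAut V₀)) := by
      ext s'
      constructor
      · rintro ⟨τ, hτ, rfl⟩
        exact ⟨τ, hτ, rfl⟩
      · rintro ⟨τ, hτ, rfl⟩
        exact ⟨τ, hτ, rfl⟩
    refine ⟨?_, ⟨1, one_mem _, rfl⟩, ?_⟩
    · rw [himg, Set.InjOn.ncard_image]
      · exact (Nat.card_coe_set_eq _).symm
      · intro τ hτ τ' hτ' h
        have h1 : (fun v => s ((τ * τ'⁻¹) v)) = s := by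
          funext v
          have h2 := congrFun h (τ'⁻¹ v)
          simp only [MulAut.apply_inv_self] at h2
          rw [MulAut.mul_apply]
          exact h2
        by_contra hne'
        exact hne2 s hs (τ * τ'⁻¹) (mul_mem hτ (inv_mem hτ')) hne
          (fun h3 => hne' (mul_inv_eq_one.1 h3)) h1
    · rintro _ ⟨τ, hτ, rfl⟩
      ext s'
      constructor
      · rintro ⟨σ, hσ, rfl⟩
        exact ⟨τ * σ, mul_mem hτ hσ, rfl⟩
      · rintro ⟨σ, hσ, rfl⟩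
        refine ⟨τ⁻¹ * σ, mul_mem (inv_mem hτ) hσ, ?_⟩
        funext v
        show s (σ v) = s (τ ((τ⁻¹ * σ) v))
        rw [MulAut.mul_apply, MulAut.apply_inv_self]
  · intro y hy hy1
    refine lk_sum W fun hyW => hy1 ?_
    have h1 : y ∈ W ⊓ kW E₀ W := ⟨hyW, hy⟩
    rw [hinf] at h1
    exact Subgroup.mem_bot.1 h1
  · intro s hs hne
    obtain ⟨y, hy, hsy⟩ := hex s hs hne
    exact sub_sum _ hs.1 hy hsy
  · intro w hw hw1
    refine lk_sum (kW E₀ W) fun hwk => hw1 ?_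
    have h1 : w ∈ W ⊓ kW E₀ W := ⟨hw, hwk⟩
    rw [hinf] at h1
    exact Subgroup.mem_bot.1 h1
  · intro ν hν hne
    obtain ⟨w, hw, hνw⟩ := hex' ν hν hne
    exact sub_sum _ hν.1 hw hνw

end Pool.Agent.PP.SE.H41
end
end -- Pool.Agent.Helper41_ASE.GEC

section -- Pool.Agent.Helper41_ASE.RFP

/-!
# Squad ASE, row RFP: fixed characters
-/

open scoped BigOperators

set_option autoImplicit false

noncomputable section

namespace Pool.Agent.PP.SE.H41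

open Pool.Agent.Helper51_AWC Pool.Agent.Helper79_WRA Pool.Agent.PP Pool.Agent.PP.KF
open Pool.Agent.PP.K9 Pool.Agent.PP.K9.H97 Pool.Agent.PP.H75 Pool.Agent.PP.T3 Pool.Agent.PP.SO
open Pool.Agent.PP.SD

attribute [local instance] Ideal.Quotient.field

theorem rfp_mem_mp {V₀ : Type} [CommGroup V₀] (σ : MulAut V₀) (W : Subgroup V₀) (v : V₀) :
    v ∈ mp σ W ↔ ∃ w ∈ W, σ w = v := by
  unfold mp
  rw [Subgroup.mem_map]
  rfl

theorem rfp (rfm : RfmStmt) (acb : AcbStmt) (czb : CzbStmt) (gec : GecStmt) (vxm : VxmStmt) :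
    RfpStmt := by
  intro ℓ hℓ M _ hM h2 V₀ G _ _ _ _ E₀ hF B hB W hW N e O hCy D hDw hEv
  obtain ⟨-, -, -, fk, -, -, hnu, -, -, -, -, -, -, -⟩ := gec ℓ V₀ E₀ hF W hW
  obtain ⟨a1, a2⟩ := acb ℓ M hM h2 V₀ G E₀ hF B hB.toSb
  obtain ⟨-, -, -, -, -, -, hcl, hCf⟩ := czb ℓ M hM h2 V₀ G E₀ hF B hB.toSb W
  have hone : (fun _ => 1 : V₀ → ℂ) ∈ lk (kW E₀ W) :=
    ⟨⟨rfl, fun _ _ => (mul_one _).symm⟩, fun _ _ => rfl⟩
  have hLv := hCy.lv _ hone
  refine ⟨?_, ?_⟩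
  · intro g hg
    have hgW : mp g W = W := by
      ext v
      rw [rfp_mem_mp]
      constructor
      · rintro ⟨w, hw, rfl⟩
        rw [hg.2 w hw]
        exact hw
      · intro hv
        exact ⟨v, hv, hg.2 v hv⟩
    have hfix : ∀ χ ∈ Ch B W, ac B g χ = χ := by
      intro χ hχ
      have htt : tt B g ∈ B.C W := by
        unfold Bk.C
        rw [Subgroup.mem_centralizer_iff]
        rintro _ ⟨w, hw, rfl⟩
        have h3 := (a1 g hg.1).2 w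
        rw [hg.2 w hw, mul_inv_eq_iff_eq_mul] at h3
        exact h3.symm
      funext x
      have h4 := (hcl χ hχ).2.2.2.2 (tt B g)⁻¹ (inv_mem htt) x
      rw [inv_inv] at h4
      exact h4
    rw [hDw.df g hg.1 hgW]
    have h5 : {χ | χ ∈ Iv B W (fun _ => 1) ∧ χ ∈ N ∧ ac B g χ = χ} =
        {χ | χ ∈ Iv B W (fun _ => 1) ∧ χ ∈ N} := by
      ext χ
      constructor
      · rintro ⟨h6, h7, -⟩
        exact ⟨h6, h7⟩
      · rintro ⟨h6, h7⟩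
        exact ⟨h6, h7, hfix χ h6.1⟩
    rw [h5, hLv.cN]
  · intro g hg hgW hgS
    obtain ⟨-, -, a3, -, -, -, -, -⟩ := a2 W g hg
    -- the set of the fixed characters
    have hsplit : {χ | χ ∈ Ch B W ∧ ac B g χ = χ} =
        {χ | χ ∈ Iv B W (fun _ => 1) ∧ χ ∈ N ∧ ac B g χ = χ} ∪
        {χ | χ ∈ Iv B W (fun _ => 1) ∧ χ ∉ N ∧ ac B g χ = χ} := by
      ext χ
      constructor
      · rintro ⟨hχ, hfix⟩
        have hI : χ ∈ Iv B W (fun _ => 1) := by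
          obtain ⟨ν, hν, hχν⟩ := (vxm ℓ M hM h2 V₀ G E₀ hF B hB W hW χ hχ).2.1.2.2.2.1
          have h3 : ∀ w ∈ W, ν (g w) = ν w := by
            intro w hw
            have hgw : g w ∈ W := by
              rw [← hgW, rfp_mem_mp]
              exact ⟨w, hw, rfl⟩
            rw [← hχν.2 _ hgw, ← hχν.2 _ hw]
            have h4 := (a3 χ hχ).2.2.2.1 w
            rw [hfix] at h4
            exact h4
          obtain ⟨w₁, hw₁, hne⟩ : ∃ w ∈ W, g w ≠ w := by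
            by_contra hcon
            push Not at hcon
            exact hgS ⟨hg, hcon⟩
          have hgw₁ : g w₁ ∈ W := by
            rw [← hgW, rfp_mem_mp]
            exact ⟨w₁, hw₁, rfl⟩
          have hu1 : g w₁ * w₁⁻¹ ≠ 1 := fun h => hne (mul_inv_eq_one.1 h)
          have hz := GDV.zpow_eq W hW.1 (mul_mem hgw₁ (inv_mem hw₁)) hu1
          have hνu : ν (g w₁ * w₁⁻¹) = 1 := by
            rw [hν.1.2, h3 w₁ hw₁, ← hν.1.2, mul_inv_cancel, hν.1.1]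
          have h5 : ∀ w ∈ W, ν w = 1 := by
            intro w hw
            rw [← hz] at hw
            obtain ⟨k, hk⟩ := (Submonoid.mem_powers_iff _ _).1
              (mem_powers_iff_mem_zpowers.2 hw)
            rw [← hk, lin_pow hν.1, hνu, one_pow]
          exact ⟨hχ, fun w hw => by rw [hχν.2 w hw, h5 w hw]⟩
        by_cases hN : χ ∈ N
        · exact Or.inl ⟨hI, hN, hfix⟩
        · exact Or.inr ⟨hI, hN, hfix⟩
      · rintro (⟨h3, -, h4⟩ | ⟨h3, -, h4⟩)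
        · exact ⟨h3.1, h4⟩
        · exact ⟨h3.1, h4⟩
    have hf1 : {χ | χ ∈ Iv B W (fun _ => 1) ∧ χ ∈ N ∧ ac B g χ = χ}.Finite :=
      hCf.subset fun χ hχ => hχ.1.1
    have hf2 : {χ | χ ∈ Iv B W (fun _ => 1) ∧ χ ∉ N ∧ ac B g χ = χ}.Finite :=
      hCf.subset fun χ hχ => hχ.1.1
    have hdis : Disjoint {χ | χ ∈ Iv B W (fun _ => 1) ∧ χ ∈ N ∧ ac B g χ = χ}
        {χ | χ ∈ Iv B W (fun _ => 1) ∧ χ ∉ N ∧ ac B g χ = χ} := by
      rw [Set.disjoint_left]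
      rintro χ ⟨-, h3, -⟩ ⟨-, h4, -⟩
      exact h4 h3
    rw [hsplit, Set.ncard_union_eq hdis hf1 hf2, Nat.cast_add, hDw.df g hg hgW]
    congr 2
    -- the exceptional characters
    have hO : ∀ χ ∈ Ch B W, χ ∉ N → O (ac B g χ) = {s | (fun v => s (g v)) ∈ O χ} := by
      intro χ hχ hN
      have hCy' : Cy ℓ E₀ B (mp g W) N e O := by
        rw [hgW]
        exact hCy
      exact (rfm ℓ M hM h2 V₀ G E₀ hF B hB W hW g hg (tt B g) (a1 g hg).1 (a1 g hg).2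
        N N e e O O hCy hCy' (fun χ hχ => (hEv g hg hgW χ hχ).1) χ hχ).2 hN
    have hfixO : ∀ χ ∈ Iv B W (fun _ => 1), χ ∉ N →
        (ac B g χ = χ ↔ {s' | ∃ s ∈ O χ, s' = fun x => s (g x)} = O χ) := by
      intro χ hχ hN
      have hOχ := hO χ hχ.1 hN
      constructor
      · intro hfix
        rw [hfix] at hOχ
        ext s
        constructor
        · rintro ⟨s', hs', rfl⟩
          rw [hOχ] at hs'
          exact hs'
        · intro hs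
          refine ⟨fun v => s (g⁻¹ v), ?_, ?_⟩
          · rw [hOχ]
            show (fun v => s (g⁻¹ (g v))) ∈ O χ
            simp only [MulAut.inv_apply_self]
            exact hs
          · funext x
            show s x = s (g⁻¹ (g x))
            rw [MulAut.inv_apply_self]
      · intro hset
        have h3 : O (ac B g χ) = O χ := by
          rw [hOχ]
          ext s
          constructor
          · intro hs
            have hs' : (fun v => s (g v)) ∈ O χ := hs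
            rw [← hset] at hs'
            obtain ⟨s', hs'', h4⟩ := hs'
            have h5 : s = s' := by
              funext v
              have h6 := congrFun h4 (g⁻¹ v)
              simp only [MulAut.apply_inv_self] at h6
              exact h6
            rw [h5]
            exact hs''
          · intro hs
            show (fun v => s (g v)) ∈ O χ
            rw [← hset]
            exact ⟨s, hs, rfl⟩
        obtain ⟨⟨s, hs, hs1, hOs⟩, -⟩ := hLv.vX χ hχ hN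
        obtain ⟨ψ, -, huniq⟩ := hLv.bX s hs hs1
        have hI' : ac B g χ ∈ Iv B W (fun _ => 1) := by
          have h4 := (a3 χ hχ.1).1
          rw [hgW] at h4
          refine ⟨h4, fun w hw => ?_⟩
          rw [← hgW, rfp_mem_mp] at hw
          obtain ⟨w', hw', rfl⟩ := hw
          rw [(a3 χ hχ.1).2.2.2.1 w', hχ.2 w' hw']
        rw [huniq _ ⟨hI', fun h => hN ((hEv g hg hgW χ hχ.1).1.1 h), h3.trans hOs⟩,
          huniq χ ⟨hχ, hN, hOs⟩]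
    have himg : O '' {χ | χ ∈ Iv B W (fun _ => 1) ∧ χ ∉ N ∧ ac B g χ = χ} =
        {O : Set (V₀ → ℂ) | ∃ s ∈ lin V₀, (∃ x, s x ≠ 1) ∧ (∀ w ∈ W, s w = 1) ∧
          O = {s' | ∃ τ ∈ St E₀ W, s' = fun x => s (τ x)} ∧
          {s' | ∃ s ∈ O, s' = fun x => s (g x)} = O} := by
      ext O'
      constructor
      · rintro ⟨χ, ⟨hχ, hN, hfix⟩, rfl⟩
        obtain ⟨⟨s, hs, hs1, hOs⟩, -⟩ := hLv.vX χ hχ hN
        refine ⟨s, hs.1, ?_, hs.2, hOs, (hfixO χ hχ hN).1 hfix⟩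
        by_contra hcon
        push Not at hcon
        exact hs1 (funext hcon)
      · rintro ⟨s, hs, ⟨x, hx⟩, hsW, hO1, hO2⟩
        have hs1 : s ≠ fun _ => 1 := fun h => hx (by rw [h])
        obtain ⟨χ, ⟨hχ, hN, hOs⟩, -⟩ := hLv.bX s ⟨hs, hsW⟩ hs1
        have hOO : O χ = O' := by
          rw [hOs, hO1]
          rfl
        refine ⟨χ, ⟨hχ, hN, ?_⟩, hOO⟩
        rw [hfixO χ hχ hN, hOO]
        exact hO2
    have hinj : Set.InjOn O {χ | χ ∈ Iv B W (fun _ => 1) ∧ χ ∉ N ∧ ac B g χ = χ} := by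
      rintro χ ⟨hχ, hN, -⟩ ψ ⟨hψ, hN', -⟩ h
      obtain ⟨⟨s, hs, hs1, hOs⟩, -⟩ := hLv.vX χ hχ hN
      obtain ⟨θ, -, huniq⟩ := hLv.bX s hs hs1
      rw [huniq χ ⟨hχ, hN, hOs⟩, huniq ψ ⟨hψ, hN', h ▸ hOs⟩]
    unfold oW
    rw [← himg, hinj.ncard_image]

end Pool.Agent.PP.SE.H41
end
end -- Pool.Agent.Helper41_ASE.RFP

section -- Pool.Agent.Helper86_ASE.RFE

/-!
# Squad ASE, row RFE: the field `d7` of `Rs` at a reflection line
-/

open scoped BigOperators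

set_option autoImplicit false

noncomputable section

namespace Pool.Agent.PP.SE.H86

open Pool.Agent.Helper51_AWC Pool.Agent.Helper79_WRA Pool.Agent.PP Pool.Agent.PP.KF
open Pool.Agent.PP.K9 Pool.Agent.PP.K9.H97 Pool.Agent.PP.H75 Pool.Agent.PP.T3 Pool.Agent.PP.SO
open Pool.Agent.PP.SD Pool.Agent.PP.SE

attribute [local instance] Ideal.Quotient.field

theorem lk_one {V₀ : Type} [CommGroup V₀] (W : Subgroup V₀) : (fun _ => (1 : ℂ)) ∈ lk W :=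
  ⟨⟨rfl, fun _ _ => (mul_one _).symm⟩, fun _ _ => rfl⟩

theorem nu_mul {V₀ G : Type} [CommGroup V₀] [Group G] {M : Ideal (integralClosure ℤ ℂ)}
    [M.IsMaximal] {B : Bk (FF M) V₀ G} {W : Subgroup V₀} {χ : G → ℂ}
    (h : ∀ w ∈ W, ∀ g, χ (B.i w * g) = nu B χ w * χ g) {w : V₀} (hw : w ∈ W) (w' : V₀) :
    nu B χ (w * w') = nu B χ w * nu B χ w' := by
  have h1 : nu B χ (w * w') = χ (B.i w * B.i w') / χ 1 := by
    unfold nu
    rw [map_mul]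
  rw [h1, h w hw, mul_div_assoc]
  rfl

theorem rq_symm {V₀ G : Type} [CommGroup V₀] [Group G] {M : Ideal (integralClosure ℤ ℂ)}
    [M.IsMaximal] {ℓ : ℕ} {B : Bk (FF M) V₀ G} {W : Subgroup V₀} {χ ψ : G → ℂ}
    (h : rq ℓ B W χ ψ) : rq ℓ B W ψ χ := fun g hg hr => (h g hg hr).symm

theorem rq_trans {V₀ G : Type} [CommGroup V₀] [Group G] {M : Ideal (integralClosure ℤ ℂ)}
    [M.IsMaximal] {ℓ : ℕ} {B : Bk (FF M) V₀ G} {W : Subgroup V₀} {χ ψ φ : G → ℂ}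
    (h : rq ℓ B W χ ψ) (h' : rq ℓ B W ψ φ) : rq ℓ B W χ φ :=
  fun g hg hr => (h g hg hr).trans (h' g hg hr)

theorem rfe (gea : GeaStmt) (vxm : VxmStmt) (snu : SnuStmt) (val : ValStmt) : RfeStmt := by
  classical
  intro ℓ _ M _ hM hℓ V₀ G _ _ _ _ E₀ hE B hB W hW N e O hC D hD ψ hψ ψ' hψ' z hz c
  have hlp : ℓ.Prime := Fact.out
  have hl0 : (ℓ : ℂ) ≠ 0 := by exact_mod_cast hlp.ne_zero
  have hn0 : (nS E₀ W : ℂ) ≠ 0 := by
    have := hW.2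
    exact_mod_cast (by omega : nS E₀ W ≠ 0)
  obtain ⟨-, hpr1, -⟩ := gea ℓ V₀ E₀ hE W hW
  obtain ⟨-, -, -, hs3, hs4⟩ := snu ℓ M hM hℓ V₀ G E₀ hE B hB W hW N e O hC
  obtain ⟨-, -, -, hv4, -⟩ := val ℓ M hM hℓ V₀ G E₀ hE B hB W hW N e O hC D hD
  by_cases hN : ψ ∈ N ∧ ψ' ∈ N
  swap
  · have h0 : D.R W ψ ψ' = 0 := by rw [hD.dR ψ hψ ψ' hψ', if_neg hN]
    rw [h0, mul_zero, ite_self]
    rw [← finsum_mem_zero (Ch B W)]
    apply finsum_mem_congr rfl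
    intro χ hχ
    by_cases h1 : ψ ∈ N ∧ χ ∈ N
    · have h2 : ¬ (χ ∈ N ∧ ψ' ∈ N) := fun h3 => hN ⟨h1.1, h3.2⟩
      rw [hD.dR χ hχ ψ' hψ', if_neg h2, mul_zero]
    · rw [hD.dR ψ hψ χ hχ, if_neg h1, zero_mul, zero_mul]
  obtain ⟨hψN, hψ'N⟩ := hN
  obtain ⟨n, hn⟩ : ∃ n : ℂ, n = (nS E₀ W : ℂ) := ⟨_, rfl⟩
  obtain ⟨u, hu⟩ : ∃ u : ℂ, u = ((ux D.U W c : ℚ) : ℂ) := ⟨_, rfl⟩
  obtain ⟨f, hf⟩ : ∃ f : (G → ℂ) → ℂ, f = fun χ => n * u * ((e ψ : ℂ) * e ψ' / (ℓ : ℂ) ^ 2) *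
    (((if rq ℓ B W χ ψ then 1 else 0) - n⁻¹) * ((if rq ℓ B W χ ψ' then 1 else 0) - n⁻¹)) :=
    ⟨_, rfl⟩
  have hP : pr ℓ E₀ W c * z ∈ W := W.mul_mem (hpr1 c).1 hz
  have hfc : ∀ χ ∈ Ch B W, ∀ φ ∈ Ch B W, χ ∈ N → φ ∈ N → rq ℓ B W χ φ → f χ = f φ := by
    intro χ _ φ _ _ _ h
    have h1 : rq ℓ B W χ ψ ↔ rq ℓ B W φ ψ :=
      ⟨fun h2 => rq_trans (rq_symm h) h2, fun h2 => rq_trans h h2⟩
    have h2 : rq ℓ B W χ ψ' ↔ rq ℓ B W φ ψ' :=
      ⟨fun h2 => rq_trans (rq_symm h) h2, fun h2 => rq_trans h h2⟩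
    rw [hf]
    simp only [h1, h2]
  have h1 : ∑ᶠ χ ∈ Ch B W, D.R W ψ χ * (nu B χ z * cv (fm ℓ E₀ B D W c) χ) * D.R W χ ψ' =
      ∑ᶠ χ ∈ {χ | χ ∈ Ch B W ∧ χ ∈ N},
        D.R W ψ χ * (nu B χ z * cv (fm ℓ E₀ B D W c) χ) * D.R W χ ψ' := by
    apply finsum_mem_inter_support_eq
    ext χ
    rw [Set.mem_inter_iff, Set.mem_inter_iff, Function.mem_support]
    constructor
    · rintro ⟨h2, h3⟩
      refine ⟨⟨h2, ?_⟩, h3⟩
      by_contra h4
      apply h3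
      rw [hD.dR ψ hψ χ h2, if_neg (fun h5 => h4 h5.2), zero_mul, zero_mul]
    · rintro ⟨h2, h3⟩
      exact ⟨h2.1, h3⟩
  have h2 : ∑ᶠ χ ∈ {χ | χ ∈ Ch B W ∧ χ ∈ N},
        D.R W ψ χ * (nu B χ z * cv (fm ℓ E₀ B D W c) χ) * D.R W χ ψ' =
      ∑ᶠ χ ∈ {χ | χ ∈ Ch B W ∧ χ ∈ N}, nu B χ (pr ℓ E₀ W c * z) * f χ := by
    apply finsum_mem_congr rfl
    rintro χ ⟨hχ, hχN⟩
    obtain ⟨-, ⟨-, -, -, hx4, hx5, -⟩, -⟩ := vxm ℓ M hM hℓ V₀ G E₀ hE B hB W hW χ hχ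
    obtain ⟨ν, hν, hχν⟩ := hx4
    have hsg : (e χ : ℂ) * e χ = 1 := by
      rcases (hC.lv ν hν).sg χ hχν with h | h <;> rw [h] <;> norm_num
    rw [nu_mul hx5 (hpr1 c).1, (hv4 χ hχ hχN).2 c, hD.dR ψ hψ χ hχ, hD.dR χ hχ ψ' hψ',
      if_pos (show ψ ∈ N ∧ χ ∈ N from ⟨hψN, hχN⟩), if_pos (show χ ∈ N ∧ ψ' ∈ N from ⟨hχN, hψ'N⟩),
      hf, ← hn, ← hu]
    have h3 : rq ℓ B W ψ χ ↔ rq ℓ B W χ ψ := ⟨rq_symm, rq_symm⟩
    simp only [h3]
    linear_combination (n * u * nu B χ z * nu B χ (pr ℓ E₀ W c) * e ψ * e ψ' *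
      ((if rq ℓ B W χ ψ then 1 else 0) - n⁻¹) * ((if rq ℓ B W χ ψ' then 1 else 0) - n⁻¹) /
        (ℓ : ℂ) ^ 2) * hsg
  rw [h1, h2, (hs3 f hfc).2 _ hP]
  by_cases hP1 : pr ℓ E₀ W c * z = 1
  swap
  · rw [if_neg hP1, if_neg hP1]
  rw [if_pos hP1, if_pos hP1]
  obtain ⟨hcard, hfin, -⟩ := hs4 _ (lk_one (kW E₀ W))
  have hS := (hs4 _ (lk_one (kW E₀ W))).2.2
  rw [finsum_mem_eq_finite_toFinset_sum _ hfin]
  have e1 := hS ψ hψ hψN
  have e2 := hS ψ' hψ' hψ'N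
  rw [finsum_mem_eq_finite_toFinset_sum _ hfin] at e1 e2
  have e3 : (hfin.toFinset.card : ℂ) = n := by
    rw [hn, ← hcard, Set.ncard_eq_toFinset_card _ hfin]
  have e4 : ∑ χ ∈ hfin.toFinset, (if rq ℓ B W χ ψ then (1 : ℂ) else 0) *
      (if rq ℓ B W χ ψ' then 1 else 0) = if rq ℓ B W ψ ψ' then 1 else 0 := by
    have e5 : ∀ χ ∈ hfin.toFinset, (if rq ℓ B W χ ψ then (1 : ℂ) else 0) *
      (if rq ℓ B W χ ψ' then 1 else 0) = (if rq ℓ B W χ ψ then (1 : ℂ) else 0) *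
        (if rq ℓ B W ψ ψ' then 1 else 0) := by
      intro χ _
      by_cases h3 : rq ℓ B W χ ψ
      · have h4 : rq ℓ B W χ ψ' ↔ rq ℓ B W ψ ψ' :=
          ⟨fun h5 => rq_trans (rq_symm h3) h5, fun h5 => rq_trans h3 h5⟩
        simp only [h4]
      · rw [if_neg h3, zero_mul, zero_mul]
    rw [Finset.sum_congr rfl e5, ← Finset.sum_mul, e1, one_mul]
  have hn0' : n ≠ 0 := by rw [hn]; exact hn0
  have e6 : ∑ χ ∈ hfin.toFinset, f χ = n * u * ((e ψ : ℂ) * e ψ' / (ℓ : ℂ) ^ 2) *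
      ((if rq ℓ B W ψ ψ' then 1 else 0) - n⁻¹) := by
    rw [hf, ← Finset.mul_sum]
    congr 1
    have e7 : ∀ χ ∈ hfin.toFinset, ((if rq ℓ B W χ ψ then 1 else 0) - n⁻¹) *
        ((if rq ℓ B W χ ψ' then 1 else 0) - n⁻¹) = (if rq ℓ B W χ ψ then (1 : ℂ) else 0) *
      (if rq ℓ B W χ ψ' then 1 else 0) - n⁻¹ * (if rq ℓ B W χ ψ then (1 : ℂ) else 0) -
        n⁻¹ * (if rq ℓ B W χ ψ' then (1 : ℂ) else 0) + n⁻¹ * n⁻¹ := by
      intro χ _
      ring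
    rw [Finset.sum_congr rfl e7, Finset.sum_add_distrib, Finset.sum_sub_distrib,
      Finset.sum_sub_distrib, e4, ← Finset.mul_sum, ← Finset.mul_sum, e1, e2, Finset.sum_const,
      nsmul_eq_mul, e3, ← mul_assoc, mul_inv_cancel₀ hn0']
    ring
  rw [e6, hD.dR ψ hψ ψ' hψ', if_pos (show ψ ∈ N ∧ ψ' ∈ N from ⟨hψN, hψ'N⟩), ← hn, ← hu]
  field_simp

end Pool.Agent.PP.SE.H86
end
end -- Pool.Agent.Helper86_ASE.RFE

section -- Pool.Agent.Helper86_ASE.RFK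

/-!
# Squad ASE, row RFK: the field `e6` of `Rs` at a reflection line
-/

open scoped BigOperators

set_option autoImplicit false

noncomputable section

namespace Pool.Agent.PP.SE.H86

open Pool.Agent.Helper51_AWC Pool.Agent.Helper79_WRA Pool.Agent.PP Pool.Agent.PP.KF
open Pool.Agent.PP.K9 Pool.Agent.PP.K9.H97 Pool.Agent.PP.H75 Pool.Agent.PP.T3 Pool.Agent.PP.SO
open Pool.Agent.PP.SD Pool.Agent.PP.SE

attribute [local instance] Ideal.Quotient.field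

theorem rfk_Rl_RM {ℓ : ℕ} [Fact ℓ.Prime] {M : Ideal (integralClosure ℤ ℂ)} [M.IsMaximal]
    (hM : (ℓ : integralClosure ℤ ℂ) ∈ M) {q : ℚ} (hq : q ∈ SOR.Rl ℓ) : ((q : ℚ) : ℂ) ∈ RM M := by
  have h1 : ¬ ℓ ∣ q.den := hq
  have h2 := inv_nat_RM (M := M) (Fact.out : ℓ.Prime) hM h1
  have h3 : ((q : ℚ) : ℂ) = (q.num : ℂ) * ((q.den : ℕ) : ℂ)⁻¹ := by
    rw [← div_eq_mul_inv]
    exact_mod_cast (Rat.num_div_den q).symm
  rw [h3]
  exact (RM M).mul_mem (intCast_mem _ _) h2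

theorem rq_one {V₀ G : Type} [CommGroup V₀] [Group G] {M : Ideal (integralClosure ℤ ℂ)}
    [M.IsMaximal] {ℓ : ℕ} {B : Bk (FF M) V₀ G} {W : Subgroup V₀} {χ ψ : G → ℂ}
    (h : rq ℓ B W χ ψ) : χ 1 = ψ 1 := by
  apply h 1 (B.C W).one_mem
  unfold Reg
  rw [orderOf_one]
  exact Nat.coprime_one_left ℓ

/-- conjugation with an element which normalises `i(W)` preserves `rq` -/
theorem rq_ac {V₀ G : Type} [CommGroup V₀] [Group G] {M : Ideal (integralClosure ℤ ℂ)}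
    [M.IsMaximal] {ℓ : ℕ} {B : Bk (FF M) V₀ G} {W : Subgroup V₀} {σ : MulAut V₀}
    (ht : ∀ v, tt B σ * B.i v * (tt B σ)⁻¹ = B.i (σ v)) (hW : mp σ W = W) {χ ψ : G → ℂ}
    (h : rq ℓ B W χ ψ) : rq ℓ B W (ac B σ χ) (ac B σ ψ) := by
  intro g hg hr
  have h1 : (tt B σ)⁻¹ * g * tt B σ ∈ B.C W := by
    unfold Bk.C at hg ⊢
    rw [Subgroup.mem_centralizer_iff] at hg ⊢
    rintro _ ⟨w, hw, rfl⟩
    have hσw : σ w ∈ W := by
      rw [← hW]
      exact ⟨w, hw, rfl⟩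
    have h2 := hg (B.i (σ w)) ⟨σ w, hσw, rfl⟩
    rw [← ht w] at h2
    have h3 : (tt B σ)⁻¹ * (tt B σ * B.i w * (tt B σ)⁻¹ * g) * tt B σ =
        (tt B σ)⁻¹ * (g * (tt B σ * B.i w * (tt B σ)⁻¹)) * tt B σ := by rw [h2]
    calc B.i w * ((tt B σ)⁻¹ * g * tt B σ) =
        (tt B σ)⁻¹ * (tt B σ * B.i w * (tt B σ)⁻¹ * g) * tt B σ := by group
      _ = (tt B σ)⁻¹ * (g * (tt B σ * B.i w * (tt B σ)⁻¹)) * tt B σ := h3
      _ = (tt B σ)⁻¹ * g * tt B σ * B.i w := by group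
  have h2 : Reg ℓ ((tt B σ)⁻¹ * g * tt B σ) := by
    unfold Reg at hr ⊢
    have h3 : (tt B σ)⁻¹ * g * tt B σ = (MulAut.conj (tt B σ)⁻¹) g := by
      rw [MulAut.conj_apply, inv_inv]
    rw [h3, MulEquiv.orderOf_eq]
    exact hr
  exact h _ h1 h2

theorem rfk (gea : GeaStmt) (vxm : VxmStmt) (snu : SnuStmt) (val : ValStmt) (rfj : RfjStmt)
    (acb : AcbStmt) : RfkStmt := by
  classical
  intro ℓ _ M _ hM hℓ V₀ G _ _ _ _ E₀ hE B hB W hW N e O hC D hD hEv κ hκ τ hτ y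
  have hlp : ℓ.Prime := Fact.out
  have hl0 : (ℓ : ℂ) ≠ 0 := by exact_mod_cast hlp.ne_zero
  have hn0 : (nS E₀ W : ℂ) ≠ 0 := by
    have := hW.2
    exact_mod_cast (by omega : nS E₀ W ≠ 0)
  obtain ⟨⟨-, hnl, -⟩, hpr1, -, hprW, -⟩ := gea ℓ V₀ E₀ hE W hW
  obtain ⟨-, -, -, hs3, hs4⟩ := snu ℓ M hM hℓ V₀ G E₀ hE B hB W hW N e O hC
  obtain ⟨-, ⟨q', hq', hU⟩, -, hv4, hv5⟩ := val ℓ M hM hℓ V₀ G E₀ hE B hB W hW N e O hC D hD
  obtain ⟨⟨q, hq, hsum⟩, -⟩ := rfj ℓ M hM hℓ V₀ G E₀ hE B hB W hW N e O hC D hD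
  obtain ⟨hact, hacb⟩ := acb ℓ M hM hℓ V₀ G E₀ hE B hB.toSb
  obtain ⟨n, hn⟩ : ∃ n : ℂ, n = (nS E₀ W : ℂ) := ⟨_, rfl⟩
  have hn0' : n ≠ 0 := by rw [hn]; exact hn0
  have hninv : n⁻¹ ∈ RM M := by
    rw [hn]
    exact inv_nat_RM hlp hM hnl
  obtain ⟨f, hf⟩ : ∃ f : (G → ℂ) → ℂ, f = fun χ => cv (D.et W) χ := ⟨_, rfl⟩
  -- basic facts on `N`
  have hx : ∀ χ ∈ Ch B W, (e χ : ℂ) * e χ = 1 ∧ (∀ w ∈ W, ∀ g, χ (B.i w * g) = nu B χ w * χ g) ∧
      ∀ w ∈ W, starRingEnd ℂ (nu B χ w) = nu B χ w⁻¹ := by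
    intro χ hχ
    obtain ⟨-, ⟨-, -, -, ⟨ν, hν, hχν⟩, hx5, hx6⟩, -⟩ := vxm ℓ M hM hℓ V₀ G E₀ hE B hB W hW χ hχ
    refine ⟨?_, hx5, fun w hw => (hx6 w hw).1⟩
    rcases (hC.lv ν hν).sg χ hχν with h | h <;> rw [h] <;> norm_num
  have hfX : ∀ χ ∈ Ch B W, χ ∉ N → f χ = 0 := by
    intro χ hχ hχN
    rw [hf]
    exact (hv5 χ hχ hχN).1
  have hfN : ∀ χ ∈ Ch B W, χ ∈ N → f χ / ℓ ∈ RM M := by
    intro χ hχ hχN
    obtain ⟨⟨u, ⟨q₁, hq₁, hu⟩, -, hcv⟩, -⟩ := hv4 χ hχ hχN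
    have h1 : f χ / ℓ = (((nS E₀ W : ℚ) * (q₁ - q') : ℚ) : ℂ) := by
      rw [hf]
      change cv (D.et W) χ / ℓ = _
      rw [hcv, hu, hU, div_eq_iff hl0]
      push_cast
      ring
    rw [h1]
    exact rfk_Rl_RM hM ((SOR.Rl ℓ).mul_mem (natCast_mem _ _) ((SOR.Rl ℓ).sub_mem hq₁ hq'))
  have hfc : ∀ χ ∈ Ch B W, ∀ φ ∈ Ch B W, χ ∈ N → φ ∈ N → rq ℓ B W χ φ → f χ = f φ := by
    intro χ hχ φ hφ hχN hφN h
    obtain ⟨⟨u, -, hu, hcv⟩, -⟩ := hv4 χ hχ hχN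
    obtain ⟨⟨u', -, hu', hcv'⟩, -⟩ := hv4 φ hφ hφN
    have h1 : (u : ℂ) = (u' : ℂ) := by
      rw [← hu, ← hu', (hC.se χ hχ φ hφ h).1, rq_one h]
    have h2 : u = u' := by exact_mod_cast h1
    rw [hf]
    change cv (D.et W) χ = cv (D.et W) φ
    rw [hcv, hcv', h2]
  have hred : ∀ F : (G → ℂ) → ℂ, (∀ χ ∈ Ch B W, χ ∉ N → F χ = 0) →
      ∑ᶠ χ ∈ Ch B W, F χ = ∑ᶠ χ ∈ {χ | χ ∈ Ch B W ∧ χ ∈ N}, F χ := by
    intro F hF
    apply finsum_mem_inter_support_eq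
    ext χ
    rw [Set.mem_inter_iff, Set.mem_inter_iff, Function.mem_support]
    constructor
    · rintro ⟨h2, h3⟩
      refine ⟨⟨h2, ?_⟩, h3⟩
      by_contra h4
      exact h3 (hF χ h2 h4)
    · rintro ⟨h2, h3⟩
      exact ⟨h2.1, h3⟩
  -- the first part
  obtain ⟨P, hP⟩ : ∃ P : V₀, P = κ * ((pr ℓ E₀ W y)⁻¹ * pr ℓ E₀ W (τ y)) := ⟨_, rfl⟩
  have hPW : P ∈ W := by
    rw [hP]
    exact W.mul_mem hκ (W.mul_mem (W.inv_mem (hpr1 y).1) (hpr1 (τ y)).1)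
  have h1 : ∑ᶠ χ ∈ Ch B W, nu B χ κ * cv (D.et W) χ *
      (starRingEnd ℂ (D.D W χ y) * D.D W χ (τ y)) =
      ∑ᶠ χ ∈ {χ | χ ∈ Ch B W ∧ χ ∈ N}, nu B χ P * f χ := by
    rw [hred _ (by
      intro χ hχ hχN
      have h2 := hfX χ hχ hχN
      rw [hf] at h2
      change cv (D.et W) χ = 0 at h2
      rw [h2, mul_zero, zero_mul])]
    apply finsum_mem_congr rfl
    rintro χ ⟨hχ, hχN⟩
    obtain ⟨hs, hm, hcj⟩ := hx χ hχ
    rw [hD.dD χ hχ, hD.dD χ hχ, if_pos hχN, if_pos hχN, map_mul, hcj _ (hpr1 y).1, hP, nu_mul hm hκ,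
      nu_mul hm (W.inv_mem (hpr1 y).1), hf]
    have h3 : starRingEnd ℂ (e χ : ℂ) = e χ := map_intCast (starRingEnd ℂ) (e χ)
    rw [h3]
    linear_combination (nu B χ κ * cv (D.et W) χ * nu B χ (pr ℓ E₀ W y)⁻¹ *
      nu B χ (pr ℓ E₀ W (τ y))) * hs
  have hpart1 : ((ℓ : ℂ) ^ 2 * (nS E₀ W : ℂ) ^ 2)⁻¹ * (∑ᶠ χ ∈ Ch B W, nu B χ κ *
      cv (D.et W) χ * (starRingEnd ℂ (D.D W χ y) * D.D W χ (τ y))) / ℓ ∈ RM M := by
    rw [h1, (hs3 f hfc).2 P hPW]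
    by_cases hP1 : P = 1
    · rw [if_pos hP1]
      have h2 : ∑ᶠ χ ∈ {χ | χ ∈ Iv B W (fun _ => 1) ∧ χ ∈ N}, f χ = ((ℓ ^ 2 * q : ℚ) : ℂ) := by
        rw [hf]
        exact hsum
      rw [h2, ← hn]
      have h3 : ((ℓ : ℂ) ^ 2 * n ^ 2)⁻¹ * ((ℓ : ℂ) * ((ℓ ^ 2 * q : ℚ) : ℂ)) / ℓ =
          n⁻¹ * (n⁻¹ * (q : ℂ)) := by
        push_cast
        field_simp
      rw [h3]
      exact (RM M).mul_mem hninv ((RM M).mul_mem hninv (rfk_Rl_RM hM hq))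
    · rw [if_neg hP1, mul_zero, zero_div]
      exact (RM M).zero_mem
  -- the second part
  have hpart2 : (if mp τ W = W ∧ y ∈ W then (nS E₀ W : ℂ)⁻¹ * ∑ᶠ χ ∈ Ch B W, nu B χ κ *
      cv (D.et W) χ * (nu B χ (τ y * y⁻¹) * D.R W χ (ac B τ⁻¹ χ)) else 0) / ℓ ∈ RM M := by
    by_cases hc : mp τ W = W ∧ y ∈ W
    swap
    · rw [if_neg hc, zero_div]
      exact (RM M).zero_mem
    rw [if_pos hc]
    obtain ⟨hτW, hyW⟩ := hc
    have hτy : τ y ∈ W := by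
      rw [← hτW]
      exact ⟨y, hyW, rfl⟩
    have hτ' : τ⁻¹ ∈ E₀ := E₀.inv_mem hτ
    have hτW' : mp τ⁻¹ W = W := by
      ext v
      constructor
      · rintro ⟨w, hw, rfl⟩
        have h2 : w ∈ mp τ W := by rw [hτW]; exact hw
        obtain ⟨w', hw', h3⟩ := h2
        have h4 : τ w' = w := h3
        change τ⁻¹ w ∈ W
        rw [← h4, MulAut.inv_apply_self]
        exact hw'
      · intro hv
        have h2 : τ v ∈ W := by
          rw [← hτW]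
          exact ⟨v, hv, rfl⟩
        exact ⟨τ v, h2, MulAut.inv_apply_self V₀ τ v⟩
    obtain ⟨g, hg⟩ : ∃ g : (G → ℂ) → ℂ, g = fun χ => f χ *
      ((if rq ℓ B W χ (ac B τ⁻¹ χ) then 1 else 0) - n⁻¹) / ℓ := ⟨_, rfl⟩
    have hact' := (hact τ⁻¹ hτ').2
    have hgc : ∀ χ ∈ Ch B W, ∀ φ ∈ Ch B W, χ ∈ N → φ ∈ N → rq ℓ B W χ φ → g χ = g φ := by
      intro χ hχ φ hφ hχN hφN h
      have h2 := rq_ac hact' hτW' h
      have h3 : rq ℓ B W χ (ac B τ⁻¹ χ) ↔ rq ℓ B W φ (ac B τ⁻¹ φ) :=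
        ⟨fun h4 => rq_trans (rq_symm h) (rq_trans h4 h2),
          fun h4 => rq_trans h (rq_trans h4 (rq_symm h2))⟩
      rw [hg]
      simp only [h3, hfc χ hχ φ hφ hχN hφN h]
    have hQW : κ * (τ y * y⁻¹) ∈ W := W.mul_mem hκ (W.mul_mem hτy (W.inv_mem hyW))
    have h2 : ∑ᶠ χ ∈ Ch B W, nu B χ κ * cv (D.et W) χ *
        (nu B χ (τ y * y⁻¹) * D.R W χ (ac B τ⁻¹ χ)) =
        ∑ᶠ χ ∈ {χ | χ ∈ Ch B W ∧ χ ∈ N}, nu B χ (κ * (τ y * y⁻¹)) * g χ := by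
      rw [hred _ (by
        intro χ hχ hχN
        have h2 := hfX χ hχ hχN
        rw [hf] at h2
        change cv (D.et W) χ = 0 at h2
        rw [h2, mul_zero, zero_mul])]
      apply finsum_mem_congr rfl
      rintro χ ⟨hχ, hχN⟩
      obtain ⟨hs, hm, hcj⟩ := hx χ hχ
      obtain ⟨he1, he2⟩ := hEv τ⁻¹ hτ' hτW' χ hχ
      have h4 : ac B τ⁻¹ χ ∈ Ch B W := by
        have h5 := ((hacb W τ⁻¹ hτ').2.2.1 χ hχ).1
        rwa [hτW'] at h5
      rw [hD.dR χ hχ _ h4, if_pos (show χ ∈ N ∧ ac B τ⁻¹ χ ∈ N from ⟨hχN, he1.2 hχN⟩), he2,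
        nu_mul hm hκ, hg, hf, ← hn]
      change _ = nu B χ κ * nu B χ (τ y * y⁻¹) * (cv (D.et W) χ *
        ((if rq ℓ B W χ (ac B τ⁻¹ χ) then 1 else 0) - n⁻¹) / ℓ)
      linear_combination (nu B χ κ * cv (D.et W) χ * nu B χ (τ y * y⁻¹) *
        ((if rq ℓ B W χ (ac B τ⁻¹ χ) then 1 else 0) - n⁻¹) / ℓ) * hs
    rw [h2, (hs3 g hgc).2 _ hQW]
    by_cases hQ1 : κ * (τ y * y⁻¹) = 1
    · rw [if_pos hQ1]
      have h3 : (nS E₀ W : ℂ)⁻¹ * ((ℓ : ℂ) *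
          ∑ᶠ χ ∈ {χ | χ ∈ Iv B W (fun _ => 1) ∧ χ ∈ N}, g χ) / ℓ = n⁻¹ *
          ∑ᶠ χ ∈ {χ | χ ∈ Iv B W (fun _ => 1) ∧ χ ∈ N}, g χ := by
        rw [← hn]
        field_simp
      rw [h3]
      refine (RM M).mul_mem hninv ?_
      have hfin := (hs4 _ (lk_one (kW E₀ W))).2.1
      rw [finsum_mem_eq_finite_toFinset_sum _ hfin]
      apply (RM M).sum_mem
      intro χ hχ
      obtain ⟨hχI, hχN⟩ := (Set.Finite.mem_toFinset hfin).1 hχ
      have h4 : g χ = f χ / ℓ * ((if rq ℓ B W χ (ac B τ⁻¹ χ) then 1 else 0) - n⁻¹) := by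
        rw [hg]
        ring
      rw [h4]
      refine (RM M).mul_mem (hfN χ hχI.1 hχN) ((RM M).sub_mem ?_ hninv)
      by_cases h5 : rq ℓ B W χ (ac B τ⁻¹ χ)
      · rw [if_pos h5]
        exact (RM M).one_mem
      · rw [if_neg h5]
        exact (RM M).zero_mem
    · rw [if_neg hQ1, mul_zero, zero_div]
      exact (RM M).zero_mem
  have h := (RM M).add_mem hpart1 hpart2
  rw [← add_div] at h
  exact h

end Pool.Agent.PP.SE.H86
end
end -- Pool.Agent.Helper86_ASE.RFK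

section -- Pool.Agent.Helper13_ASE.RFG

/-!
# Squad ASE, row RFG (helper13): the element `et` vanishes at the elements which are not regular
-/

set_option autoImplicit false

open scoped BigOperators

noncomputable section

namespace Pool.Agent.PP.SE.H13

open Pool.Agent.Helper51_AWC Pool.Agent.Helper79_WRA Pool.Agent.PP Pool.Agent.PP.KF
open Pool.Agent.PP.K9 Pool.Agent.PP.K9.H97 Pool.Agent.PP.H75 Pool.Agent.PP.T3 Pool.Agent.PP.SO
open Pool.Agent.PP.SD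

attribute [local instance] Ideal.Quotient.field

/-- `i(w)`, `w ∈ W`, commutes with the elements of `C W` -/
theorem rfg_comm {V₀ G F : Type} [CommGroup V₀] [Group G] (B : Bk F V₀ G) {W : Subgroup V₀}
    {w : V₀} (hw : w ∈ W) {z : G} (hz : z ∈ B.C W) : B.i w * z = z * B.i w :=
  Subgroup.mem_centralizer_iff.1 hz (B.i w) (Subgroup.mem_map_of_mem _ hw)

/-- `i(w)` is in `C W` -/
theorem rfg_mem {V₀ G F : Type} [CommGroup V₀] [Group G] (B : Bk F V₀ G) (W : Subgroup V₀)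
    (w : V₀) : B.i w ∈ B.C W := by
  refine Subgroup.mem_centralizer_iff.2 ?_
  rintro _ ⟨v, -, rfl⟩
  change B.i v * B.i w = B.i w * B.i v
  rw [← map_mul, mul_comm, map_mul]

/-- RFG -/
theorem rfg (Snu : SnuStmt) (Val : ValStmt) (Vxg : VxgStmt) (Rfa : RfaStmt) (Vxm : VxmStmt)
    (Czb : CzbStmt) (Gea : GeaStmt) : RfgStmt := by
  classical
  intro ℓ hℓ M _ hM hℓ2 V₀ G _ _ _ _ E₀ hFq B hB W hW N e O hCy D hD g hg
  obtain ⟨hfin, -, -, hS3, hS4⟩ := Snu ℓ M hM hℓ2 V₀ G E₀ hFq B hB W hW N e O hCy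
  obtain ⟨⟨ψ, hψ, hψN⟩, -⟩ := Val ℓ M hM hℓ2 V₀ G E₀ hFq B hB W hW N e O hCy D hD
  obtain ⟨hRa, -⟩ := Rfa ℓ M hM hℓ2 V₀ G E₀ hFq B hB W hW N e O hCy D hD
  obtain ⟨-, -, -, -, -, -, hcz, -⟩ := Czb ℓ M hM hℓ2 V₀ G E₀ hFq B hB.toSb W
  obtain ⟨-, hpr, -⟩ := Gea ℓ V₀ E₀ hFq W hW
  have hVx := fun χ hχ => Vxm ℓ M hM hℓ2 V₀ G E₀ hFq B hB W hW χ hχ
  obtain ⟨n, hn⟩ : ∃ n : ℂ, n = (nS E₀ W : ℂ) := ⟨_, rfl⟩
  have hn0 : n ≠ 0 := by
    rw [hn]
    exact_mod_cast (by have := hW.2; omega : nS E₀ W ≠ 0)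
  obtain ⟨cW, hcW⟩ : ∃ c : ℂ, c = (Nat.card (B.C W) : ℂ) := ⟨_, rfl⟩
  have hcW0 : cW ≠ 0 := by
    rw [hcW]
    exact_mod_cast Nat.card_pos.ne'
  obtain ⟨cT, hcT⟩ : ∃ c : ℂ, c = (Nat.card (B.C ⊤) : ℂ) := ⟨_, rfl⟩
  have hcT0 : cT ≠ 0 := by
    rw [hcT]
    exact_mod_cast Nat.card_pos.ne'
  obtain ⟨a, ha⟩ : ∃ a : (G → ℂ) → ℂ, ∀ χ, a χ = n *
      ((e χ : ℂ) * cW * B.D ⊤ / (n * cT * χ 1) - D.U W) * (χ 1 / cW) := ⟨_, fun _ => rfl⟩
  have hreg1 : Reg ℓ (1 : G) := by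
    unfold Reg
    rw [orderOf_one]
    exact Nat.coprime_one_left _
  have ha2 : ∀ χ ∈ Ch B W, ∀ φ ∈ Ch B W, rq ℓ B W χ φ → a χ = a φ ∧ e χ = e φ := by
    intro χ hχ φ hφ hr
    have e1 := (hCy.se χ hχ φ hφ hr).1
    have e2 := hr 1 (one_mem _) hreg1
    rw [ha, ha, e1, e2]
    exact ⟨rfl, rfl⟩
  have hsg : ∀ χ ∈ Ch B W, (e χ : ℂ) * e χ = 1 := by
    intro χ hχ
    obtain ⟨-, ⟨-, -, -, ⟨ν, hν, hχν⟩, -⟩, -⟩ := hVx χ hχ
    rcases (hCy.lv ν hν).sg χ hχν with h | h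
    · rw [h]
      norm_num
    · rw [h]
      norm_num
  have het : D.et W g = ∑ᶠ χ ∈ {χ | χ ∈ Ch B W ∧ χ ∈ N}, a χ * χ g⁻¹ := by
    rw [hD.de]
    refine finsum_mem_congr rfl fun χ _ => ?_
    rw [ha, hn, hcW, hcT]
  have hSfin : {χ | χ ∈ Ch B W ∧ χ ∈ N}.Finite := hfin.subset fun χ h => h.1
  by_cases hgC : g ∈ B.C W
  swap
  · rw [het]
    refine finsum_mem_eq_zero_of_forall_eq_zero fun χ hχ => ?_
    rw [hχ.1.1 g⁻¹ (fun h => hgC (by simpa using inv_mem h)), mul_zero]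
  by_cases hcase : ∃ w ∈ W, Reg ℓ (B.i w * g)
  · obtain ⟨w, hw, hwg⟩ := hcase
    have hw1 : w ≠ 1 := by
      rintro rfl
      rw [map_one, one_mul] at hwg
      exact hg hwg
    obtain ⟨g', hg'⟩ : ∃ g' : G, g' = B.i w * g := ⟨_, rfl⟩
    have hg'C : g'⁻¹ ∈ B.C W := by
      rw [hg']
      exact inv_mem (mul_mem (rfg_mem B W w) hgC)
    have hg'r : Reg ℓ g'⁻¹ := by
      unfold Reg
      rw [orderOf_inv, hg']
      exact hwg
    have hginv : g⁻¹ = B.i w * g'⁻¹ := by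
      rw [rfg_comm B hw hg'C, hg']
      group
    have h1 := (hS3 (fun χ => a χ * χ g'⁻¹) (fun χ hχ φ hφ _ _ hr => by
      show a χ * χ g'⁻¹ = a φ * φ g'⁻¹
      rw [(ha2 χ hχ φ hφ hr).1, hr g'⁻¹ hg'C hg'r])).2 w hw
    rw [if_neg hw1] at h1
    rw [het, ← h1]
    refine finsum_mem_congr rfl fun χ hχ => ?_
    obtain ⟨-, ⟨-, -, -, -, h2, -⟩, -⟩ := hVx χ hχ.1
    rw [hginv, h2 w hw]
    ring
  · push Not at hcase
    have hb : ∀ w ∈ W, ¬ Reg ℓ (B.i w * g⁻¹) := by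
      intro w hw h
      refine hcase w⁻¹ (inv_mem hw) ?_
      have h2 : (B.i w * g⁻¹)⁻¹ = B.i w⁻¹ * g := by
        rw [mul_inv_rev, inv_inv, ← map_inv, rfg_comm B (inv_mem hw) hgC]
      unfold Reg at h ⊢
      rw [← h2, orderOf_inv]
      exact h
    obtain ⟨Θ, hΘ⟩ := Vxg ℓ M hM hℓ2 V₀ G E₀ hFq B hB W hW g⁻¹ (inv_mem hgC) hb
    -- the sum over `Iv 1 ∩ N`
    have hone : (fun _ : V₀ => (1 : ℂ)) ∈ lk (kW E₀ W) :=
      ⟨⟨rfl, fun _ _ => (one_mul _).symm⟩, fun _ _ => rfl⟩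
    obtain ⟨hcard, hTfin, -⟩ := hS4 _ hone
    have hz : ∑ᶠ χ ∈ {χ | χ ∈ Iv B W (fun _ => 1) ∧ χ ∈ N}, a χ * e χ = 0 := by
      have hxi := hCy.xi _ hone ψ hψ hψN 1 (one_mem _) hreg1
      have hU := hD.dU ψ hψ hψN
      rw [← hcW, ← hcT] at hU
      have hψ1 : ψ 1 ≠ 0 := (hcz ψ hψ).1
      have h3 : ∀ χ ∈ {χ | χ ∈ Iv B W (fun _ => 1) ∧ χ ∈ N}, a χ * e χ =
          (B.D ⊤ : ℂ) / cT - n * D.U W / cW * ((e χ : ℂ) * χ 1) := by
        intro χ hχ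
        have hχ1 : χ 1 ≠ 0 := (hcz χ hχ.1.1).1
        have h4 := hsg χ hχ.1.1
        rw [ha]
        have h5 : n * ((e χ : ℂ) * cW * B.D ⊤ / (n * cT * χ 1) - D.U W) * (χ 1 / cW) * e χ =
            (e χ * e χ) * (B.D ⊤ : ℂ) / cT - n * D.U W / cW * ((e χ : ℂ) * χ 1) := by
          field_simp
        rw [h5, h4, one_mul]
      rw [finsum_mem_congr rfl h3, finsum_mem_sub_distrib _ _ hTfin, ← mul_finsum_mem, hxi, ← hU]
      have h6 : ∑ᶠ χ ∈ {χ | χ ∈ Iv B W (fun _ => 1) ∧ χ ∈ N}, (B.D ⊤ : ℂ) / cT =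
          n * ((B.D ⊤ : ℂ) / cT) := by
        rw [finsum_mem_eq_finite_toFinset_sum _ hTfin, Finset.sum_const, nsmul_eq_mul,
          ← Set.ncard_eq_toFinset_card _ hTfin, hcard, hn]
      rw [h6]
      have h7 := hsg ψ hψ
      have h8 : n * ((e ψ : ℂ) * cW * B.D ⊤ / (cT * ψ 1)) / cW * ((e ψ : ℂ) * ψ 1) =
          (e ψ * e ψ) * (n * ((B.D ⊤ : ℂ) / cT)) := by
        field_simp
      rw [h8, h7, one_mul, sub_self]
    have hvx : ∀ χ ∈ Ch B W, χ ∈ N → ∀ x, x ∉ W → vx B χ x = nu B χ (pr ℓ E₀ W x) * e χ := by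
      intro χ hχ hχN x hx
      have h3 := hRa χ hχ x hx
      have hDT : (B.D ⊤ : ℂ) ≠ 0 := by
        intro h0
        obtain ⟨-, -, h4⟩ := hVx χ hχ
        apply (h4 x hx).2.2.2
        unfold vx
        rw [h0, div_zero]
      unfold vx
      rw [← h3, mul_div_cancel_left₀ _ hDT, hD.dD χ hχ x, if_pos hχN]
    have h4 : ∀ χ ∈ {χ | χ ∈ Ch B W ∧ χ ∈ N}, a χ * χ g⁻¹ =
        ∑ᶠ x ∈ {x : V₀ | x ∉ W}, Θ x * (nu B χ (pr ℓ E₀ W x) * (a χ * e χ)) := by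
      intro χ hχ
      rw [hΘ χ hχ.1, mul_finsum_mem]
      refine finsum_mem_congr rfl fun x hx => ?_
      rw [hvx χ hχ.1 hχ.2 x hx]
      ring
    rw [het, finsum_mem_congr rfl h4, finsum_mem_comm _ hSfin (Set.toFinite _)]
    refine finsum_mem_eq_zero_of_forall_eq_zero fun x _ => ?_
    have h5 := (hS3 (fun χ => a χ * e χ) (fun χ hχ φ hφ _ _ hr => by
      show a χ * (e χ : ℂ) = a φ * e φ
      rw [(ha2 χ hχ φ hφ hr).1, (ha2 χ hχ φ hφ hr).2])).2 (pr ℓ E₀ W x) (hpr x).1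
    rw [← mul_finsum_mem, h5, hz]
    simp

end Pool.Agent.PP.SE.H13
end
end -- Pool.Agent.Helper13_ASE.RFG

section -- Pool.Agent.Helper16_ASE.RFB

/-!
# Squad ASE, row RFB: field `d4` of `Rs` at a reflection line
-/

open scoped BigOperators

noncomputable section

namespace Pool.Agent.PP.SE.H16

open Pool.Agent.Helper51_AWC Pool.Agent.Helper79_WRA Pool.Agent.PP Pool.Agent.PP.KF
open Pool.Agent.PP.K9 Pool.Agent.PP.K9.H97 Pool.Agent.PP.H75 Pool.Agent.PP.T3 Pool.Agent.PP.SO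
open Pool.Agent.PP.SD

attribute [local instance] Ideal.Quotient.field

theorem lin_conj {V₀ : Type} [CommGroup V₀] [Finite V₀] {s : V₀ → ℂ} (hs : s ∈ lin V₀) (v : V₀) :
    starRingEnd ℂ (s v) = s v⁻¹ := by
  have h1 : s v * s v⁻¹ = 1 := by rw [← hs.2, mul_inv_cancel, hs.1]
  have h2 : ∀ m : ℕ, s (v ^ m) = s v ^ m := by
    intro m
    induction m with
    | zero => rw [pow_zero, pow_zero, hs.1]
    | succ m ih => rw [pow_succ, pow_succ, hs.2, ih]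
  have h3 : s v ^ Nat.card V₀ = 1 := by rw [← h2, pow_card_eq_one', hs.1]
  have h4 : ‖s v‖ = 1 := Complex.norm_eq_one_of_pow_eq_one h3 Nat.card_pos.ne'
  rw [← Complex.inv_eq_conj h4]
  exact inv_eq_of_mul_eq_one_right h1

theorem one_lk {V₀ : Type} [CommGroup V₀] (W : Subgroup V₀) : (fun _ => 1 : V₀ → ℂ) ∈ lk W :=
  ⟨⟨rfl, fun _ _ => (mul_one 1).symm⟩, fun _ _ => rfl⟩

theorem fin_const {ι : Type} (s : Set ι) (hs : s.Finite) (c : ℂ) :
    ∑ᶠ _i ∈ s, c = s.ncard * c := by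
  rw [finsum_mem_eq_finite_toFinset_sum _ hs, Finset.sum_const, nsmul_eq_mul,
    Set.ncard_eq_toFinset_card _ hs]

open Classical in
theorem fin_ite {ι : Type} (s : Set ι) (hs : s.Finite) (p : ι → Prop) (c : ℂ) :
    ∑ᶠ i ∈ s, (if p i then c else 0) = ({i | i ∈ s ∧ p i}.ncard : ℂ) * c := by
  rw [← fin_const _ (hs.subset fun i hi => hi.1), finsum_mem_eq_finite_toFinset_sum _ hs,
    finsum_mem_eq_finite_toFinset_sum _ (hs.subset fun i (hi : i ∈ {i | i ∈ s ∧ p i}) => hi.1),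
    ← Finset.sum_filter]
  refine Finset.sum_congr ?_ fun _ _ => rfl
  ext i
  rw [Finset.mem_filter, Set.Finite.mem_toFinset, Set.Finite.mem_toFinset]
  rfl

theorem orb_eq {V₀ : Type} [CommGroup V₀] (E₀ : Subgroup (MulAut V₀)) (W : Subgroup V₀)
    (s : V₀ → ℂ) : orb E₀ W s =
      (fun τ : MulAut V₀ => fun v => s (τ v)) '' (St E₀ W : Set (MulAut V₀)) := by
  ext s'
  constructor
  · rintro ⟨τ, hτ, rfl⟩
    exact ⟨τ, hτ, rfl⟩
  · rintro ⟨τ, hτ, rfl⟩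
    exact ⟨τ, hτ, rfl⟩

/-- RFB -/
theorem rfb (snu : SnuStmt) (gec : GecStmt) (gea : GeaStmt) : RfbStmt := by
  intro ℓ hfact M _ hM hℓ2 V₀ G _ _ _ _ E₀ hF B hS W hW N e O hCy D hD x y
  classical
  obtain ⟨hChf, hsum, -⟩ := snu ℓ M hM hℓ2 V₀ G E₀ hF B hS W hW N e O hCy
  obtain ⟨hlW, hlk, hlWf, hlkf, -, -, hν, hsk, hsτ, horb, hor1, -, hor3, -⟩ :=
    gec ℓ V₀ E₀ hF W hW
  obtain ⟨-, hprW, hprm, hprw, -, hprτ, -, -⟩ := gea ℓ V₀ E₀ hF W hW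
  have hStf : (St E₀ W : Set (MulAut V₀)).Finite := Set.toFinite _
  have hOf : ∀ s, (orb E₀ W s).Finite := by
    intro s
    rw [orb_eq]
    exact hStf.image _
  have hinj : ∀ s ∈ lk W, s ≠ (fun _ => 1) →
      (St E₀ W : Set (MulAut V₀)).InjOn (fun τ : MulAut V₀ => fun v => s (τ v)) := by
    intro s hs hs1 τ hτ τ' hτ' h
    by_contra hne
    have h1 : τ * τ'⁻¹ ∈ St E₀ W := (St E₀ W).mul_mem hτ ((St E₀ W).inv_mem hτ')
    refine ((hsτ s hs _ h1).2 hs1).2 (fun h2 => hne (mul_inv_eq_one.1 h2)) ?_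
    funext v
    have h3 := congrFun h (τ'⁻¹ v)
    rw [MulAut.mul_apply]
    refine h3.trans ?_
    show s (τ' (τ'⁻¹ v)) = s v
    rw [MulAut.apply_inv_self]
  -- the sums over the orbits
  obtain ⟨H, hH⟩ : ∃ H : (V₀ → ℂ) → ℂ, H = fun s => ∑ᶠ τ ∈ (St E₀ W : Set (MulAut V₀)),
      s ((τ : MulAut V₀) x) * starRingEnd ℂ (s y) := ⟨_, rfl⟩
  have hHorb : ∀ s ∈ lk W, s ≠ (fun _ => 1) →
      (∑ᶠ s' ∈ orb E₀ W s, s' x) * starRingEnd ℂ (s y) = H s := by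
    intro s hs hs1
    rw [orb_eq, finsum_mem_image (hinj s hs hs1), finsum_mem_mul, hH]
  -- the sum over `Iv ν`
  have hIv : ∀ ν ∈ lk (kW E₀ W), ∑ᶠ χ ∈ Iv B W ν, D.D W χ x * starRingEnd ℂ (D.D W χ y) =
      ν (x * y⁻¹) * ∑ᶠ s ∈ lk W, H s := by
    intro ν hν'
    have hIf : (Iv B W ν).Finite := hChf.subset fun χ hχ => hχ.1
    have hval : ∀ χ ∈ Iv B W ν, D.D W χ x * starRingEnd ℂ (D.D W χ y) =
        ν (x * y⁻¹) * (if χ ∈ N then 1 else (∑ᶠ s ∈ O χ, s x) * starRingEnd ℂ (∑ᶠ s ∈ O χ, s y)) := by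
      intro χ hχ
      rw [hD.dD χ hχ.1 x, hD.dD χ hχ.1 y, hχ.2 _ (hprW x).1, hχ.2 _ (hprW y).1, (hν ν hν' x).1,
        (hν ν hν' y).1, hν'.1.2, ← lin_conj hν'.1, map_mul]
      have he : (e χ : ℂ) * e χ = 1 := by
        rcases (hCy.lv ν hν').sg χ hχ with h | h <;> rw [h] <;> norm_num
      have hec : starRingEnd ℂ (e χ : ℂ) = e χ := map_intCast (starRingEnd ℂ) (e χ)
      by_cases hN : χ ∈ N
      · simp only [if_pos hN]
        rw [hec]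
        linear_combination ν x * (starRingEnd ℂ) (ν y) * he
      · rw [if_neg hN, if_neg hN, map_mul, hec, if_neg hN]
        linear_combination ν x * (starRingEnd ℂ) (ν y) * (∑ᶠ s ∈ O χ, s x) *
          (starRingEnd ℂ) (∑ᶠ s ∈ O χ, s y) * he
    rw [finsum_mem_congr rfl hval, ← mul_finsum_mem]
    congr 1
    rw [← finsum_mem_inter_add_sdiff N hIf]
    have hA : ∑ᶠ χ ∈ Iv B W ν ∩ N, (if χ ∈ N then (1 : ℂ) else
        (∑ᶠ s ∈ O χ, s x) * starRingEnd ℂ (∑ᶠ s ∈ O χ, s y)) = nS E₀ W := by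
      have h1 : ∑ᶠ χ ∈ Iv B W ν ∩ N, (if χ ∈ N then (1 : ℂ) else
          (∑ᶠ s ∈ O χ, s x) * starRingEnd ℂ (∑ᶠ s ∈ O χ, s y)) =
          ∑ᶠ _χ ∈ Iv B W ν ∩ N, (1 : ℂ) := by
        refine finsum_mem_congr rfl fun χ hχ => ?_
        rw [if_pos hχ.2]
      rw [h1, fin_const _ (hIf.subset Set.inter_subset_left), mul_one]
      have h2 := (hCy.lv ν hν').cN
      have h3 : Iv B W ν ∩ N = {χ | χ ∈ Iv B W ν ∧ χ ∈ N} := rfl
      rw [h3, h2]
    have hBs : ∑ᶠ χ ∈ Iv B W ν \ N, (if χ ∈ N then (1 : ℂ) else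
        (∑ᶠ s ∈ O χ, s x) * starRingEnd ℂ (∑ᶠ s ∈ O χ, s y)) =
        ∑ᶠ s ∈ lk W \ {fun _ => 1}, H s := by
      have hOr : ∀ χ ∈ Iv B W ν \ N, ∃ s₀ ∈ lk W, s₀ ≠ (fun _ => 1) ∧ O χ = orb E₀ W s₀ :=
        fun χ hχ => ((hCy.lv ν hν').vX χ hχ.1 hχ.2).1
      have hmem : ∀ χ ∈ Iv B W ν \ N, ∀ s ∈ O χ, s ∈ lk W ∧ s ≠ (fun _ => 1) ∧
          O χ = orb E₀ W s := by
        intro χ hχ s hs
        obtain ⟨s₀, h1, h2, h3⟩ := hOr χ hχ
        rw [h3] at hs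
        have h4 := (horb s₀ h1 h2).2.2 s hs
        obtain ⟨τ, hτ, rfl⟩ := hs
        exact ⟨(hsτ s₀ h1 τ hτ).1, ((hsτ s₀ h1 τ hτ).2 h2).1, by rw [h3, h4]⟩
      have hU : lk W \ {fun _ => 1} = ⋃ χ ∈ Iv B W ν \ N, O χ := by
        ext s
        rw [Set.mem_iUnion₂]
        constructor
        · rintro ⟨h1, h2⟩
          have h2' : s ≠ (fun _ => 1) := h2
          obtain ⟨χ, ⟨h3, h4, h5⟩, -⟩ := (hCy.lv ν hν').bX s h1 h2'
          refine ⟨χ, ⟨h3, h4⟩, ?_⟩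
          rw [h5]
          exact (horb s h1 h2').2.1
        · rintro ⟨χ, hχ, hs⟩
          obtain ⟨h1, h2, -⟩ := hmem χ hχ s hs
          exact ⟨h1, h2⟩
      have hdis : (Iv B W ν \ N).PairwiseDisjoint O := by
        intro χ hχ χ' hχ' hne
        show Disjoint (O χ) (O χ')
        rw [Set.disjoint_left]
        intro s hs hs'
        obtain ⟨h1, h2, h3⟩ := hmem χ hχ s hs
        obtain ⟨-, -, h4⟩ := hmem χ' hχ' s hs'
        exact hne (((hCy.lv ν hν').bX s h1 h2).unique ⟨hχ.1, hχ.2, h3⟩ ⟨hχ'.1, hχ'.2, h4⟩)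
      have hOfin : ∀ χ ∈ Iv B W ν \ N, (O χ).Finite := by
        intro χ hχ
        obtain ⟨s₀, -, -, h3⟩ := hOr χ hχ
        rw [h3]
        exact hOf s₀
      rw [hU, finsum_mem_biUnion hdis (hIf.subset Set.sdiff_subset) hOfin]
      refine finsum_mem_congr rfl fun χ hχ => ?_
      rw [if_neg hχ.2]
      have h5 : starRingEnd ℂ (∑ᶠ s ∈ O χ, s y) = ∑ᶠ s ∈ O χ, starRingEnd ℂ (s y) :=
        (starRingEnd ℂ).toAddMonoidHom.map_finsum_mem (fun s => s y) (hOfin χ hχ)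
      rw [h5, mul_finsum_mem]
      refine finsum_mem_congr rfl fun s hs => ?_
      obtain ⟨h1, h2, h3⟩ := hmem χ hχ s hs
      rw [h3]
      exact hHorb s h1 h2
    have h1 : lk W ∩ {fun _ => 1} = {(fun _ => 1 : V₀ → ℂ)} := by
      rw [Set.inter_eq_right, Set.singleton_subset_iff]
      exact one_lk W
    rw [hA, hBs, ← finsum_mem_inter_add_sdiff {fun _ => 1} hlWf, h1, finsum_mem_singleton]
    congr 1
    rw [hH]
    show (nS E₀ W : ℂ) = ∑ᶠ τ ∈ (St E₀ W : Set (MulAut V₀)), (1 : ℂ) * starRingEnd ℂ 1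
    rw [map_one, mul_one, fin_const _ hStf, mul_one]
    rfl
  -- the sum over `lk W`
  have hHsum : ∑ᶠ s ∈ lk W, H s =
      ({τ | τ ∈ (St E₀ W : Set (MulAut V₀)) ∧ τ x * y⁻¹ ∈ W}.ncard : ℂ) * ℓ := by
    rw [hH, finsum_mem_comm _ hlWf hStf, ← fin_ite _ hStf]
    refine finsum_mem_congr rfl fun τ _ => ?_
    have h1 : ∑ᶠ s ∈ lk W, s (τ x) * starRingEnd ℂ (s y) = ∑ᶠ s ∈ lk W, s (τ x * y⁻¹) := by
      refine finsum_mem_congr rfl fun s hs => ?_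
      rw [hs.1.2, lin_conj hs.1]
    rw [h1]
    by_cases hz : τ x * y⁻¹ ∈ W
    · rw [if_pos hz]
      have h2 : ∑ᶠ s ∈ lk W, s (τ x * y⁻¹) = ∑ᶠ _s ∈ lk W, (1 : ℂ) :=
        finsum_mem_congr rfl fun s hs => hs.2 _ hz
      rw [h2, fin_const _ hlWf, hlW, mul_one]
    · rw [if_neg hz]
      have h2 : ∑ᶠ s ∈ lk W, s (τ x * y⁻¹) =
          ∑ᶠ s ∈ lk W, s (τ x * y⁻¹ * (pr ℓ E₀ W (τ x * y⁻¹))⁻¹) :=
        finsum_mem_congr rfl fun s hs => (hsk s hs _).1.symm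
      rw [h2]
      refine hor1 _ (hprW _).2 fun h3 => hz ?_
      rw [mul_inv_eq_one.1 h3]
      exact (hprW _).1
  rw [hsum, finsum_mem_congr rfl hIv, ← finsum_mem_mul, hHsum]
  -- the sum over `ν`
  have hprinv : ∀ v, pr ℓ E₀ W v⁻¹ = (pr ℓ E₀ W v)⁻¹ := by
    intro v
    rw [eq_inv_iff_mul_eq_one, ← hprm, inv_mul_cancel, hprw 1 W.one_mem]
  have h2 : ∑ᶠ ν ∈ lk (kW E₀ W), ν (x * y⁻¹) =
      ∑ᶠ ν ∈ lk (kW E₀ W), ν (pr ℓ E₀ W (x * y⁻¹)) :=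
    finsum_mem_congr rfl fun ν hν' => (hν ν hν' _).1.symm
  rw [h2]
  by_cases hp : pr ℓ E₀ W (x * y⁻¹) = 1
  · have h3 : ∑ᶠ ν ∈ lk (kW E₀ W), ν (pr ℓ E₀ W (x * y⁻¹)) = ∑ᶠ _ν ∈ lk (kW E₀ W), (1 : ℂ) := by
      refine finsum_mem_congr rfl fun ν hν' => ?_
      rw [hp]
      exact hν'.1.1
    have h4 : {τ | τ ∈ (St E₀ W : Set (MulAut V₀)) ∧ τ x * y⁻¹ ∈ W} =
        {τ : MulAut V₀ | τ ∈ St E₀ W ∧ τ x = y} := by
      ext τ
      constructor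
      · rintro ⟨h5, h6⟩
        refine ⟨h5, ?_⟩
        have h7 := hprw _ h6
        rw [hprm, hprτ τ h5, ← hprm, hp] at h7
        exact mul_inv_eq_one.1 h7.symm
      · rintro ⟨h5, h6⟩
        refine ⟨h5, ?_⟩
        rw [h6, mul_inv_cancel]
        exact W.one_mem
    rw [h3, fin_const _ hlkf, hlk, h4]
    ring
  · rw [hor3 _ (hprW _).1 hp, zero_mul]
    have h4 : {τ : MulAut V₀ | τ ∈ St E₀ W ∧ τ x = y} = ∅ := by
      rw [Set.eq_empty_iff_forall_notMem]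
      rintro τ ⟨h5, h6⟩
      apply hp
      rw [hprm, hprinv, ← h6, hprτ τ h5, mul_inv_cancel]
    rw [h4, Set.ncard_empty]
    simp

end Pool.Agent.PP.SE.H16
end
end -- Pool.Agent.Helper16_ASE.RFB

section -- Pool.Agent.Helper27_ASE.RFF

/-!
# Squad ASE, row RFF: the field `d8` of `Rs` at a reflection line
-/

open scoped BigOperators

noncomputable section

namespace Pool.Agent.PP.SE.H27

open Pool.Agent.Helper51_AWC Pool.Agent.Helper79_WRA Pool.Agent.PP Pool.Agent.PP.KF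
open Pool.Agent.PP.K9 Pool.Agent.PP.K9.H97 Pool.Agent.PP.H75 Pool.Agent.PP.T3 Pool.Agent.PP.SO
open Pool.Agent.PP.SD Pool.Agent.PP.SE

attribute [local instance] Ideal.Quotient.field

section aux

variable {V₀ G : Type} [CommGroup V₀] [Group G] {M : Ideal (integralClosure ℤ ℂ)} [M.IsMaximal]

theorem mp_mem {σ : MulAut V₀} {W : Subgroup V₀} (h : mp σ W = W) {w : V₀} (hw : w ∈ W) :
    σ w ∈ W := by
  have h1 : σ w ∈ mp σ W := ⟨w, hw, rfl⟩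
  rwa [h] at h1

theorem mp_inv {σ : MulAut V₀} {W : Subgroup V₀} (h : mp σ W = W) : mp σ⁻¹ W = W := by
  apply le_antisymm
  · rintro _ ⟨w, hw, rfl⟩
    have hw' : w ∈ mp σ W := by rw [h]; exact hw
    obtain ⟨v, hv, rfl⟩ := hw'
    have : (σ⁻¹ : MulAut V₀) (σ v) = v := by
      rw [← MulAut.mul_apply, inv_mul_cancel, MulAut.one_apply]
    change (σ⁻¹ : MulAut V₀) (σ v) ∈ W
    rw [this]
    exact hv
  · intro w hw
    refine ⟨σ w, mp_mem h hw, ?_⟩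
    change (σ⁻¹ : MulAut V₀) (σ w) = w
    rw [← MulAut.mul_apply, inv_mul_cancel, MulAut.one_apply]

theorem reg_conj {ℓ : ℕ} (t x : G) : Reg ℓ (t⁻¹ * x * t) ↔ Reg ℓ x := by
  have h : orderOf (t⁻¹ * x * t) = orderOf x := by
    have := orderOf_injective (MulAut.conj t⁻¹).toMonoidHom (MulAut.conj t⁻¹).injective x
    rw [← this]
    simp
  unfold Reg
  rw [h]

theorem rq_symm {ℓ : ℕ} {B : Bk (FF M) V₀ G} {W : Subgroup V₀} {χ ψ : G → ℂ}
    (h : rq ℓ B W χ ψ) : rq ℓ B W ψ χ := fun g hg hr => (h g hg hr).symm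

theorem rq_trans {ℓ : ℕ} {B : Bk (FF M) V₀ G} {W : Subgroup V₀} {χ ψ φ : G → ℂ}
    (h : rq ℓ B W χ ψ) (h' : rq ℓ B W ψ φ) : rq ℓ B W χ φ :=
  fun g hg hr => (h g hg hr).trans (h' g hg hr)

theorem rq_ac {ℓ : ℕ} {B : Bk (FF M) V₀ G} {W : Subgroup V₀} {χ ψ : G → ℂ} (σ : MulAut V₀)
    (h1 : ∀ g, g ∉ B.C W → χ g = 0) (h2 : ∀ g, g ∉ B.C W → ψ g = 0) (h : rq ℓ B W χ ψ) :
    rq ℓ B W (ac B σ χ) (ac B σ ψ) := by
  intro g _ hr
  unfold ac
  by_cases hc : (tt B σ)⁻¹ * g * tt B σ ∈ B.C W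
  · exact h _ hc ((reg_conj _ _).2 hr)
  · rw [h1 _ hc, h2 _ hc]

end aux

open Classical in
theorem rff : SnuStmt → ValStmt → AcbStmt → GeaStmt → RffStmt := by
  intro hsnu hval hacb hgea ℓ _ M _ hM h2 V₀ G _ _ _ _ E₀ hF B hB W hW N e O hCy D hD hEv g hg hgW
    z hz c
  obtain ⟨hfin, s1, s2, s3, s4⟩ := hsnu ℓ M hM h2 V₀ G E₀ hF B hB W hW N e O hCy
  obtain ⟨_, _, _, v1, _⟩ := hval ℓ M hM h2 V₀ G E₀ hF B hB W hW N e O hCy D hD
  obtain ⟨_, hac⟩ := hacb ℓ M hM h2 V₀ G E₀ hF B hB.toSb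
  have hg' : g⁻¹ ∈ E₀ := E₀.inv_mem hg
  have hgW' : mp g⁻¹ W = W := mp_inv hgW
  obtain ⟨-, -, a1, -⟩ := hac W g hg
  obtain ⟨-, -, a2, -⟩ := hac W g⁻¹ hg'
  obtain ⟨-, hpr, -⟩ := hgea ℓ V₀ E₀ hF W hW
  have hone : (fun _ => 1 : V₀ → ℂ) ∈ lk (kW E₀ W) :=
    ⟨⟨rfl, fun _ _ => by norm_num⟩, fun _ _ => rfl⟩
  have hn0 : (nS E₀ W : ℂ) ≠ 0 := by
    have h1 : 1 < nS E₀ W := hW.2
    exact_mod_cast (by omega : nS E₀ W ≠ 0)
  have hl0 : (ℓ : ℂ) ≠ 0 := by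
    exact_mod_cast (Fact.out : ℓ.Prime).ne_zero
  have hsq : ∀ χ ∈ Ch B W, χ ∈ N → (e χ : ℂ) * e χ = 1 := by
    intro χ hχ hN
    obtain ⟨ψ, ⟨hψ1, hψ2, hψ3⟩, -⟩ := hCy.mt _ hone χ hχ hN
    have h3 := (hCy.se ψ hψ1.1 χ hχ hψ3).1
    rcases (hCy.lv _ hone).sg ψ hψ1 with h | h
    · rw [← h3, h]; norm_num
    · rw [← h3, h]; norm_num
  have hcov : ∀ χ ∈ Ch B W, ∃ ν ∈ lk (kW E₀ W), χ ∈ Iv B W ν := by
    intro χ hχ
    by_contra hc
    push Not at hc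
    have h := s1 (fun ψ => if ψ = χ then 1 else 0)
    have hl : ∑ᶠ ψ ∈ Ch B W, (if ψ = χ then (1 : ℂ) else 0) = 1 := by
      rw [finsum_mem_eq_finite_toFinset_sum _ hfin, Finset.sum_ite_eq' hfin.toFinset χ,
        if_pos (hfin.mem_toFinset.2 hχ)]
    have hr : ∑ᶠ ν ∈ lk (kW E₀ W), ∑ᶠ ψ ∈ Iv B W ν, (if ψ = χ then (1 : ℂ) else 0) = 0 := by
      rw [finsum_mem_congr rfl (g := fun _ => (0 : ℂ)) (fun ν hν => ?_), finsum_mem_zero]
      rw [finsum_mem_congr rfl (g := fun _ => (0 : ℂ)) (fun ψ hψ => ?_), finsum_mem_zero]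
      exact if_neg (fun hh : ψ = χ => hc ν hν (hh ▸ hψ))
    rw [hl, hr] at h
    exact one_ne_zero h
  have hnu : ∀ χ ∈ Ch B W, ∀ w ∈ W, ∀ w' ∈ W, nu B χ (w * w') = nu B χ w * nu B χ w' := by
    intro χ hχ w hw w' hw'
    obtain ⟨ν, hν, hI⟩ := hcov χ hχ
    rw [hI.2 _ (W.mul_mem hw hw'), hI.2 _ hw, hI.2 _ hw', hν.1.2]
  have hmem' : ∀ χ ∈ Ch B W, ac B g⁻¹ χ ∈ Ch B W := by
    intro χ hχ
    have := (a2 χ hχ).1
    rwa [hgW'] at this
  -- the function f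
  set f : (G → ℂ) → ℂ := fun χ =>
    (if rq ℓ B W χ (ac B g⁻¹ χ) then 1 else 0) - (nS E₀ W : ℂ)⁻¹ with hf
  have hfrq : ∀ χ ∈ Ch B W, ∀ ψ ∈ Ch B W, χ ∈ N → ψ ∈ N → rq ℓ B W χ ψ → f χ = f ψ := by
    intro χ hχ ψ hψ _ _ h
    have h1 : rq ℓ B W (ac B g⁻¹ χ) (ac B g⁻¹ ψ) := rq_ac _ hχ.1 hψ.1 h
    have h3 : rq ℓ B W χ (ac B g⁻¹ χ) ↔ rq ℓ B W ψ (ac B g⁻¹ ψ) :=
      ⟨fun h4 => rq_trans (rq_trans (rq_symm h) h4) h1,
        fun h4 => rq_trans (rq_trans h h4) (rq_symm h1)⟩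
    simp only [hf, h3]
  have hpz : pr ℓ E₀ W c * z ∈ W := W.mul_mem (hpr c).1 hz
  have e1 : ∑ᶠ χ ∈ Ch B W, cv (fm ℓ E₀ B D W c) χ * nu B χ z * D.R W χ (ac B g⁻¹ χ) =
      ∑ᶠ χ ∈ {χ | χ ∈ Ch B W ∧ χ ∈ N},
        cv (fm ℓ E₀ B D W c) χ * nu B χ z * D.R W χ (ac B g⁻¹ χ) := by
    apply finsum_mem_inter_support_eq'
    intro χ hχ
    refine ⟨fun h => ⟨h, ?_⟩, fun h => h.1⟩
    by_contra hN
    apply hχ
    show cv (fm ℓ E₀ B D W c) χ * nu B χ z * D.R W χ (ac B g⁻¹ χ) = 0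
    rw [hD.dR χ h _ (hmem' χ h), if_neg (fun hh => hN hh.1), mul_zero]
  have e2 : ∑ᶠ χ ∈ {χ | χ ∈ Ch B W ∧ χ ∈ N},
        cv (fm ℓ E₀ B D W c) χ * nu B χ z * D.R W χ (ac B g⁻¹ χ) =
      ∑ᶠ χ ∈ {χ | χ ∈ Ch B W ∧ χ ∈ N}, ((nS E₀ W : ℂ) * (ux D.U W c : ℚ) / ℓ) *
        (nu B χ (pr ℓ E₀ W c * z) * f χ) := by
    apply finsum_mem_congr rfl
    intro χ hχ
    have h1 := (v1 χ hχ.1 hχ.2).2 c
    have h3 := hEv g⁻¹ hg' hgW' χ hχ.1
    rw [h1, hD.dR χ hχ.1 _ (hmem' χ hχ.1), if_pos ⟨hχ.2, h3.1.2 hχ.2⟩, h3.2,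
      hnu χ hχ.1 _ (hpr c).1 _ hz, hsq χ hχ.1 hχ.2]
    simp only [hf]
    ring
  rw [e1, e2, ← mul_finsum_mem, (s3 f hfrq).2 _ hpz]
  by_cases hpc : pr ℓ E₀ W c * z = 1
  swap
  · rw [if_neg hpc, if_neg hpc, mul_zero]
  rw [if_pos hpc, if_pos hpc]
  obtain ⟨t1, t2, -⟩ := s4 _ hone
  have hS : ∑ᶠ χ ∈ {χ | χ ∈ Iv B W (fun _ => 1) ∧ χ ∈ N}, f χ = ((D.fx W g : ℚ) : ℂ) - 1 := by
    have key : ∀ χ ∈ Iv B W (fun _ => 1), χ ∈ N →
        (rq ℓ B W χ (ac B g⁻¹ χ) ↔ ac B g χ = χ) := by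
      intro χ hI hN
      have hI' : ac B g⁻¹ χ ∈ Iv B W (fun _ => 1) := by
        refine ⟨hmem' χ hI.1, fun w hw => ?_⟩
        have h1 := (a2 χ hI.1).2.2.2.1 (g w)
        have h3 : (g⁻¹ : MulAut V₀) (g w) = w := by
          rw [← MulAut.mul_apply, inv_mul_cancel, MulAut.one_apply]
        rw [h3] at h1
        rw [h1]
        exact hI.2 _ (mp_mem hgW hw)
      have hN' : ac B g⁻¹ χ ∈ N := (hEv g⁻¹ hg' hgW' χ hI.1).1.2 hN
      constructor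
      · intro h
        have h4 : ac B g⁻¹ χ = χ :=
          (hCy.mt _ hone χ hI.1 hN).unique ⟨hI', hN', rq_symm h⟩ ⟨hI, hN, fun _ _ _ => rfl⟩
        have h5 := (a2 χ hI.1).2.2.1 g hg
        rw [mul_inv_cancel, (a2 χ hI.1).2.1, h4] at h5
        exact h5.symm
      · intro h
        have h5 := (a1 χ hI.1).2.2.1 g⁻¹ hg'
        rw [inv_mul_cancel, (a1 χ hI.1).2.1, h] at h5
        rw [← h5]
        exact fun _ _ _ => rfl
    rw [hD.df g hg hgW, finsum_mem_eq_finite_toFinset_sum _ t2, Finset.sum_sub_distrib,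
      Finset.sum_const, ← Set.ncard_eq_toFinset_card _ t2, t1, nsmul_eq_mul,
      mul_inv_cancel₀ hn0]
    congr 1
    rw [Finset.sum_boole]
    have h6 : {χ | χ ∈ Iv B W (fun _ => 1) ∧ χ ∈ N ∧ ac B g χ = χ} =
        ((t2.toFinset.filter fun χ => rq ℓ B W χ (ac B g⁻¹ χ) : Finset (G → ℂ)) :
          Set (G → ℂ)) := by
      ext χ
      simp only [Set.mem_ofPred_eq, Finset.coe_filter, Set.Finite.mem_toFinset]
      constructor
      · rintro ⟨h1, h3, h4⟩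
        exact ⟨⟨h1, h3⟩, (key χ h1 h3).2 h4⟩
      · rintro ⟨⟨h1, h3⟩, h4⟩
        exact ⟨h1, h3, (key χ h1 h3).1 h4⟩
    rw [h6, Set.ncard_coe_finset]
    push_cast
    rfl
  rw [hS]
  field_simp

end Pool.Agent.PP.SE.H27
end
end -- Pool.Agent.Helper27_ASE.RFF

section -- Pool.Agent.Helper32_ASE.RFM

/-!
# Squad ASE, row RFM: equivariance of `e` and `O`
-/

set_option autoImplicit false
set_option linter.unusedSectionVars false

open scoped BigOperators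

noncomputable section

namespace Pool.Agent.PP.SE.H32

open Pool.Agent.Helper51_AWC Pool.Agent.Helper79_WRA Pool.Agent.PP Pool.Agent.PP.KF
open Pool.Agent.PP.K9 Pool.Agent.PP.K9.H97 Pool.Agent.PP.H75 Pool.Agent.PP.T3 Pool.Agent.PP.SO
open Pool.Agent.PP.SD

attribute [local instance] Ideal.Quotient.field

/-- `1 + ℓ q` and `-(1 + ℓ q')` are different. -/
theorem two_ne {ℓ : ℕ} [Fact ℓ.Prime] (h2 : ℓ ≠ 2) {q q' : ℚ} (hq : q ∈ SOR.Rl ℓ)
    (hq' : q' ∈ SOR.Rl ℓ) : (1 + ℓ * q : ℚ) ≠ -(1 + ℓ * q') := by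
  intro h
  have hp : Nat.Prime ℓ := Fact.out
  have h1 : (ℓ : ℚ) * -(q + q') = 2 := by linear_combination -h
  have h3 : -(q + q') ∈ SOR.Rl ℓ := neg_mem (add_mem hq hq')
  have h4 : ¬ ℓ ∣ (-(q + q')).den := h3
  have h5 : -(q + q') = 2 / (ℓ : ℚ) := by
    rw [eq_div_iff (Nat.cast_ne_zero.2 hp.ne_zero), mul_comm]
    exact h1
  have hc : Nat.Coprime 2 ℓ := (Nat.coprime_primes Nat.prime_two hp).2 (Ne.symm h2)
  have h6 : ((2 : ℤ) / (ℓ : ℤ) : ℚ).den = ℓ := by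
    have h7 := Rat.den_div_eq_of_coprime (a := 2) (b := (ℓ : ℤ)) (by exact_mod_cast hp.pos)
      (by simpa using hc)
    exact_mod_cast h7
  have h8 : (-(q + q')) = ((2 : ℤ) / (ℓ : ℤ) : ℚ) := by
    rw [h5]
    push_cast
    rfl
  rw [h8, h6] at h4
  exact h4 dvd_rfl

/-- signs -/
theorem sgn_eq {ℓ : ℕ} [Fact ℓ.Prime] (h2 : ℓ ≠ 2) {a b : ℤ} (ha : a = 1 ∨ a = -1)
    (hb : b = 1 ∨ b = -1) {z : ℂ} {q q' : ℚ} (hq : q ∈ SOR.Rl ℓ) (hq' : q' ∈ SOR.Rl ℓ)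
    (h1 : (a : ℂ) * z = ((1 + ℓ * q : ℚ) : ℂ)) (h3 : (b : ℂ) * z = ((1 + ℓ * q' : ℚ) : ℂ)) :
    a = b := by
  by_contra hne
  have hab : a = -b := by
    rcases ha with rfl | rfl <;> rcases hb with rfl | rfl <;> simp_all
  apply two_ne h2 hq hq'
  have h4 : ((1 + ℓ * q : ℚ) : ℂ) = ((-(1 + ℓ * q') : ℚ) : ℂ) := by
    rw [← h1, hab, Rat.cast_neg, ← h3]
    push_cast
    ring
  exact_mod_cast h4

/-- The sums over two sets of linear characters determine the sets. -/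
theorem sub_eq {V : Type} [CommGroup V] [Finite V] (k : Subgroup V) (L : Set (V → ℂ))
    (hl : ∀ s ∈ L, s ∈ lin V)
    (hsep : ∀ s ∈ L, ∀ s' ∈ L, s ≠ s' → ∑ᶠ y ∈ (k : Set V), s y * s' y⁻¹ = 0)
    (A A' : Set (V → ℂ)) (hA : A ⊆ L) (hA' : A' ⊆ L) (fA : A.Finite) (fA' : A'.Finite)
    (hs : ∀ y ∈ k, ∑ᶠ s ∈ A, s y = ∑ᶠ s ∈ A', s y) : A ⊆ A' := by
  classical
  intro s₀ hs₀
  by_contra hn
  have hk : (k : Set V).Finite := Set.toFinite _
  have key : ∀ B : Set (V → ℂ), ∀ fB : B.Finite, B ⊆ L →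
      ∑ᶠ y ∈ (k : Set V), (∑ᶠ s ∈ B, s y) * s₀ y⁻¹ =
        if s₀ ∈ B then (Nat.card k : ℂ) else 0 := by
    intro B fB hB
    rw [finsum_mem_eq_finite_toFinset_sum _ hk]
    have h1 : ∀ y ∈ hk.toFinset, (∑ᶠ s ∈ B, s y) * s₀ y⁻¹ =
        ∑ s ∈ fB.toFinset, s y * s₀ y⁻¹ := by
      intro y _
      rw [finsum_mem_eq_finite_toFinset_sum _ fB, Finset.sum_mul]
    rw [Finset.sum_congr rfl h1, Finset.sum_comm]
    have h2 : ∀ s ∈ fB.toFinset, ∑ y ∈ hk.toFinset, s y * s₀ y⁻¹ =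
        if s = s₀ then (Nat.card k : ℂ) else 0 := by
      intro s hs
      rw [Set.Finite.mem_toFinset] at hs
      split_ifs with h
      · subst h
        have h3 : ∀ y ∈ hk.toFinset, s y * s y⁻¹ = 1 := by
          intro y _
          rw [← (hl s (hB hs)).2, mul_inv_cancel, (hl s (hB hs)).1]
        rw [Finset.sum_congr rfl h3, Finset.sum_const, nsmul_eq_mul, mul_one,
          ← Set.ncard_eq_toFinset_card _ hk, ← Nat.card_coe_set_eq]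
        rfl
      · have h4 := hsep s (hB hs) s₀ (hA hs₀) h
        rwa [finsum_mem_eq_finite_toFinset_sum _ hk] at h4
    rw [Finset.sum_congr rfl h2, Finset.sum_ite_eq' fB.toFinset s₀ (fun _ => (Nat.card k : ℂ))]
    simp only [Set.Finite.mem_toFinset]
  have e1 := key A fA hA
  have e2 := key A' fA' hA'
  rw [if_pos hs₀] at e1
  rw [if_neg hn] at e2
  have e3 : ∑ᶠ y ∈ (k : Set V), (∑ᶠ s ∈ A, s y) * s₀ y⁻¹ =
      ∑ᶠ y ∈ (k : Set V), (∑ᶠ s ∈ A', s y) * s₀ y⁻¹ := by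
    apply finsum_mem_congr rfl
    intro y hy
    rw [hs y hy]
  rw [e1, e2] at e3
  have : Nat.card k ≠ 0 := Nat.card_pos.ne'
  exact this (by exact_mod_cast e3)

theorem sub_eq' {V : Type} [CommGroup V] [Finite V] (k : Subgroup V) (L : Set (V → ℂ))
    (hl : ∀ s ∈ L, s ∈ lin V)
    (hsep : ∀ s ∈ L, ∀ s' ∈ L, s ≠ s' → ∑ᶠ y ∈ (k : Set V), s y * s' y⁻¹ = 0)
    (A A' : Set (V → ℂ)) (hA : A ⊆ L) (hA' : A' ⊆ L) (fA : A.Finite) (fA' : A'.Finite)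
    (hs : ∀ y ∈ k, ∑ᶠ s ∈ A, s y = ∑ᶠ s ∈ A', s y) : A = A' :=
  Set.Subset.antisymm (sub_eq k L hl hsep A A' hA hA' fA fA' hs)
    (sub_eq k L hl hsep A' A hA' hA fA' fA (fun y hy => (hs y hy).symm))

section grp

variable {V₀ G : Type} [CommGroup V₀] [Group G] {F : Type}

theorem mem_C (B : Bk F V₀ G) (W : Subgroup V₀) (g : G) :
    g ∈ B.C W ↔ ∀ w ∈ W, B.i w * g = g * B.i w := by
  unfold Bk.C
  rw [Subgroup.mem_centralizer_iff]
  constructor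
  · intro h w hw
    exact h _ (Subgroup.mem_map_of_mem _ hw)
  · rintro h _ ⟨w, hw, rfl⟩
    exact h w hw

theorem card_C (B : Bk F V₀ G) (W : Subgroup V₀) (σ : MulAut V₀) (t : G)
    (ht : ∀ v, t * B.i v * t⁻¹ = B.i (σ v)) : Nat.card (B.C (mp σ W)) = Nat.card (B.C W) := by
  have h1 : B.C (mp σ W) = (B.C W).map (MulAut.conj t).toMonoidHom := by
    ext g
    rw [Subgroup.mem_map, mem_C]
    constructor
    · intro h
      refine ⟨t⁻¹ * g * t, ?_, ?_⟩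
      · rw [mem_C]
        intro w hw
        have h2 := h (σ w) (Subgroup.mem_map_of_mem _ hw)
        rw [← ht w] at h2
        have h3 : t * (B.i w * (t⁻¹ * g * t)) * t⁻¹ = t * ((t⁻¹ * g * t) * B.i w) * t⁻¹ := by
          calc t * (B.i w * (t⁻¹ * g * t)) * t⁻¹ = (t * B.i w * t⁻¹) * g := by group
            _ = g * (t * B.i w * t⁻¹) := h2
            _ = t * ((t⁻¹ * g * t) * B.i w) * t⁻¹ := by group
        exact mul_left_cancel (mul_right_cancel h3)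
      · show t * (t⁻¹ * g * t) * t⁻¹ = g
        group
    · rintro ⟨h, hh, rfl⟩ w hw
      obtain ⟨w', hw', rfl⟩ := hw
      have h4 := (mem_C B W h).1 hh w' hw'
      show B.i (σ w') * (t * h * t⁻¹) = (t * h * t⁻¹) * B.i (σ w')
      rw [← ht w']
      calc t * B.i w' * t⁻¹ * (t * h * t⁻¹) = t * (B.i w' * h) * t⁻¹ := by group
        _ = t * (h * B.i w') * t⁻¹ := by rw [h4]
        _ = t * h * t⁻¹ * (t * B.i w' * t⁻¹) := by group
  rw [h1]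
  exact Subgroup.card_map_of_injective (MulAut.conj t).injective

end grp

theorem rfm (hB : GebStmt) (hC : GecStmt) (hV : VxmStmt) (hL : RflStmt) : RfmStmt := by
  intro ℓ _ M _ hℓ h2 V₀ G _ _ _ _ E₀ hF B hB0 W hW σ hσ t ht hti N N' e e' O O' hc hc' hN χ hχ
  obtain ⟨-, gn, -, gR, -, gm, gk, -⟩ := hB ℓ V₀ E₀ σ hσ W
  have hW' : mp σ W ∈ RL ℓ E₀ := gR.2 hW
  obtain ⟨hT, -⟩ := hL ℓ M hℓ h2 V₀ G E₀ hF B hB0 W hW σ hσ t ht hti
  obtain ⟨hχ', -, hvx, -, -⟩ := hT χ hχ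
  obtain ⟨-, ⟨-, -, -, ⟨ν, hν, hχν⟩, -⟩, -⟩ := hV ℓ M hℓ h2 V₀ G E₀ hF B hB0 W hW χ hχ
  obtain ⟨-, ⟨-, -, -, ⟨ν', hν', hχν'⟩, -⟩, -⟩ :=
    hV ℓ M hℓ h2 V₀ G E₀ hF B hB0 (mp σ W) hW' _ hχ'
  have hcard := card_C B W σ t hti
  have h1 : χ (t⁻¹ * 1 * t) = χ 1 := by
    rw [mul_one, inv_mul_cancel]
  have hs := (hc.lv ν hν).sg χ hχν
  have hs' := (hc'.lv ν' hν').sg _ hχν'
  have he : e' (fun g => χ (t⁻¹ * g * t)) = e χ := by
    by_cases hx : χ ∈ N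
    · obtain ⟨q, hq, eq⟩ := hc.un χ hχ hx
      obtain ⟨q', hq', eq'⟩ := hc'.un _ hχ' ((hN χ hχ).2 hx)
      rw [gn, hcard] at eq'
      simp only [h1] at eq'
      rw [mul_assoc, mul_div_assoc] at eq eq'
      exact sgn_eq h2 hs' hs hq' hq eq' eq
    · obtain ⟨q, hq, eq⟩ := hc.ux
      obtain ⟨q', hq', eq'⟩ := hc'.ux
      have eq := eq χ hχ hx
      have eq' := eq' _ hχ' (fun h => hx ((hN χ hχ).1 h))
      rw [hcard] at eq'
      simp only [h1] at eq'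
      rw [mul_assoc, mul_div_assoc] at eq eq'
      exact sgn_eq h2 hs' hs hq' hq eq' eq
  refine ⟨he, fun hx => ?_⟩
  have hx' : (fun g => χ (t⁻¹ * g * t)) ∉ N' := fun h => hx ((hN χ hχ).1 h)
  obtain ⟨⟨s, hs1, hs2, hO⟩, hv⟩ := (hc.lv ν hν).vX χ hχν hx
  obtain ⟨⟨s', hs1', hs2', hO'⟩, hv'⟩ := (hc'.lv ν' hν').vX _ hχν' hx'
  obtain ⟨-, -, lf, -, -, -, -, -, ga, gb, -, gd, -⟩ := hC ℓ V₀ E₀ hF W hW
  obtain ⟨-, -, lf', -, -, -, -, -, ga', gb', -, -, -⟩ := hC ℓ V₀ E₀ hF (mp σ W) hW'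
  have hOL : O χ ⊆ lk W := by
    rw [hO]
    rintro _ ⟨τ, hτ, rfl⟩
    exact (ga s hs1 τ hτ).1
  have hOL' : O' (fun g => χ (t⁻¹ * g * t)) ⊆ lk (mp σ W) := by
    rw [hO']
    rintro _ ⟨τ, hτ, rfl⟩
    exact (ga' s' hs1' τ hτ).1
  -- the map `s ↦ s ∘ σ`
  have hinj : Function.Injective (fun (s : V₀ → ℂ) (v : V₀) => s (σ v)) := by
    intro a b hab
    funext v
    have := congrFun hab (σ⁻¹ v)
    simpa using this
  have hQL : (fun (s : V₀ → ℂ) (v : V₀) => s (σ v)) '' O' (fun g => χ (t⁻¹ * g * t)) ⊆ lk W := by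
    rintro _ ⟨u, hu, rfl⟩
    obtain ⟨⟨a1, a2⟩, a3⟩ := hOL' hu
    refine ⟨⟨?_, ?_⟩, ?_⟩
    · show u (σ 1) = 1
      rw [map_one]
      exact a1
    · intro v w
      show u (σ (v * w)) = u (σ v) * u (σ w)
      rw [map_mul, a2]
    · intro w hw
      exact a3 _ ((gm w).2 hw)
  have hmain : O χ = (fun (s : V₀ → ℂ) (v : V₀) => s (σ v)) '' O' (fun g => χ (t⁻¹ * g * t)) := by
    refine sub_eq' (kW E₀ W) (lk W) (fun s hs => hs.1) ?_ _ _ hOL hQL (lf.subset hOL)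
      (lf.subset hQL) ?_
    · intro a ha b hb hab
      have hm : (fun v => a v * b v⁻¹) ∈ lk W := by
        obtain ⟨⟨a1, a2⟩, a3⟩ := ha
        obtain ⟨⟨b1, b2⟩, b3⟩ := hb
        refine ⟨⟨?_, ?_⟩, ?_⟩
        · show a 1 * b 1⁻¹ = 1
          rw [inv_one, a1, b1, one_mul]
        · intro v w
          show a (v * w) * b (v * w)⁻¹ = (a v * b v⁻¹) * (a w * b w⁻¹)
          rw [a2, mul_inv, b2]
          ring
        · intro w hw
          show a w * b w⁻¹ = 1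
          rw [a3 w hw, b3 _ (W.inv_mem hw), one_mul]
      have hne : (fun v => a v * b v⁻¹) ≠ (fun _ => 1) := by
        intro h
        apply hab
        funext v
        have h3 : a v * b v⁻¹ = 1 := congrFun h v
        have h4 : b v⁻¹ * b v = 1 := by
          rw [← hb.1.2, inv_mul_cancel, hb.1.1]
        calc a v = a v * (b v⁻¹ * b v) := by rw [h4, mul_one]
          _ = (a v * b v⁻¹) * b v := by ring
          _ = b v := by rw [h3, one_mul]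
      exact gd _ hm hne
    · intro y hy
      have hsum : ∑ᶠ u ∈ (fun (s : V₀ → ℂ) (v : V₀) => s (σ v)) ''
          O' (fun g => χ (t⁻¹ * g * t)), u y =
          ∑ᶠ u ∈ O' (fun g => χ (t⁻¹ * g * t)), u (σ y) :=
        finsum_mem_image hinj.injOn
      rw [hsum]
      by_cases hy1 : y = 1
      · subst hy1
        rw [map_one]
        have c1 : ∀ u ∈ O χ, u (1 : V₀) = 1 := fun u hu => (hOL hu).1.1
        have c2 : ∀ u ∈ O' (fun g => χ (t⁻¹ * g * t)), u (1 : V₀) = 1 :=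
          fun u hu => (hOL' hu).1.1
        have f1 := lf.subset hOL
        have f2 := lf'.subset hOL'
        rw [finsum_mem_congr rfl c1, finsum_mem_congr rfl c2,
          finsum_mem_eq_finite_toFinset_sum _ f1, finsum_mem_eq_finite_toFinset_sum _ f2,
          Finset.sum_const, Finset.sum_const, ← Set.ncard_eq_toFinset_card _ f1,
          ← Set.ncard_eq_toFinset_card _ f2, hO, hO', (gb s hs1 hs2).1, (gb' s' hs1' hs2').1, gn]
      · have hy2 : σ y ∈ kW E₀ (mp σ W) := (gk y).2 hy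
        have hy3 : σ y ≠ 1 := by
          intro h
          apply hy1
          have := congrArg (σ⁻¹ : MulAut V₀) h
          simpa using this
        have e1 := hv y hy hy1
        have e2 := hv' (σ y) hy2 hy3
        rw [hvx y, e1, he] at e2
        have he0 : (e χ : ℂ) ≠ 0 := by
          rcases hs with h | h <;> rw [h] <;> norm_num
        exact mul_left_cancel₀ he0 e2
  ext u
  constructor
  · intro hu
    show (fun v => u (σ v)) ∈ O χ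
    rw [hmain]
    exact ⟨u, hu, rfl⟩
  · intro hu
    have hu : (fun v => u (σ v)) ∈ O χ := hu
    rw [hmain] at hu
    obtain ⟨w, hw, hwu⟩ := hu
    have := hinj hwu
    rwa [← this]

end Pool.Agent.PP.SE.H32
end
end -- Pool.Agent.Helper32_ASE.RFM

section -- Pool.Agent.Helper33_ASE.SNU

/-!
# Squad ASE: row SNU (sums over the nonexceptional characters)
-/

open scoped BigOperators

noncomputable section

namespace Pool.Agent.PP.SE.H33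

open Pool.Agent.Helper51_AWC Pool.Agent.Helper79_WRA Pool.Agent.PP Pool.Agent.PP.KF
open Pool.Agent.PP.K9 Pool.Agent.PP.K9.H97 Pool.Agent.PP.H75 Pool.Agent.PP.T3 Pool.Agent.PP.SO
open Pool.Agent.PP.SD Pool.Agent.PP.SE

attribute [local instance] Ideal.Quotient.field

section blk

variable {V₀ G : Type} [CommGroup V₀] [Group G] [Finite G] {M : Ideal (integralClosure ℤ ℂ)}
  [M.IsMaximal]

theorem ch_finite (B : Bk (FF M) V₀ G) (W : Subgroup V₀) : (Ch B W).Finite := by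
  classical
  have := Fintype.ofFinite (B.C W)
  have h1 : (IrrE M (fun t : B.C W => B.b W t)).Finite := irr_finite'.subset fun χ h => h.1
  refine Set.Finite.of_injOn (f := fun (χ : G → ℂ) (t : B.C W) => χ t) (t := IrrE M
    (fun t : B.C W => B.b W t)) (fun χ hχ => hχ.2) ?_ h1
  intro χ hχ ψ hψ h
  funext g
  by_cases hg : g ∈ B.C W
  · exact congrFun h ⟨g, hg⟩
  · rw [hχ.1 g hg, hψ.1 g hg]

end blk

/-- SNU -/
theorem snu (hGec : GecStmt) (hVxm : VxmStmt) : SnuStmt := by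
  classical
  intro ℓ hℓ M hM hℓM hl2 V₀ G _ _ _ _ E₀ hq B hSd W hW N e O hCy
  obtain ⟨hg1, hg2, hg3, hg4, hg5, hg6, hg7, hg8, hg9, hg10, hg11, hg12, hg13, hg14⟩ :=
    hGec ℓ V₀ E₀ hq W hW
  have hfin : (Ch B W).Finite := ch_finite B W
  have hIsub : ∀ ν : V₀ → ℂ, Iv B W ν ⊆ Ch B W := fun ν χ hχ => hχ.1
  have hIfin : ∀ ν : V₀ → ℂ, (Iv B W ν).Finite := fun ν => hfin.subset (hIsub ν)
  have hINfin : ∀ ν : V₀ → ℂ, {χ | χ ∈ Iv B W ν ∧ χ ∈ N}.Finite := fun ν =>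
    (hIfin ν).subset fun χ hχ => hχ.1
  -- the existence of `ν`
  have hex : ∀ χ ∈ Ch B W, ∃ ν ∈ lk (kW E₀ W), χ ∈ Iv B W ν := fun χ hχ =>
    (hVxm ℓ M hℓM hl2 V₀ G E₀ hq B hSd W hW χ hχ).2.1.2.2.2.1
  -- the inverse of a linear character
  have hne : ∀ ν ∈ lk (kW E₀ W), ∀ v, ν v ≠ 0 := by
    intro ν hν v h0
    have h1 : ν (v * v⁻¹) = ν v * ν v⁻¹ := hν.1.2 v v⁻¹
    rw [mul_inv_cancel, hν.1.1, h0, zero_mul] at h1
    exact one_ne_zero h1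
  -- uniqueness of `ν`
  have huniq : ∀ ν ∈ lk (kW E₀ W), ∀ ν' ∈ lk (kW E₀ W), ∀ χ, χ ∈ Iv B W ν → χ ∈ Iv B W ν' →
      ν = ν' := by
    intro ν hν ν' hν' χ h1 h2
    have hagree : ∀ w ∈ W, ν w = ν' w := fun w hw => by rw [← h1.2 w hw, ← h2.2 w hw]
    obtain ⟨μ, hμ⟩ : ∃ μ : V₀ → ℂ, ∀ v, μ v = ν v * (ν' v)⁻¹ := ⟨fun v => ν v * (ν' v)⁻¹, fun _ => rfl⟩
    have hμlk : μ ∈ lk (kW E₀ W) := by
      refine ⟨⟨?_, ?_⟩, ?_⟩
      · rw [hμ, hν.1.1, hν'.1.1, inv_one, mul_one]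
      · intro v w
        rw [hμ, hμ, hμ, hν.1.2 v w, hν'.1.2 v w, mul_inv]
        ring
      · intro y hy
        rw [hμ, hν.2 y hy, hν'.2 y hy, inv_one, mul_one]
    have hμ1 : μ = fun _ => 1 := by
      by_contra hno
      have h3 := hg14 μ hμlk hno
      have h4 : ∑ᶠ w ∈ (W : Set V₀), μ w = ∑ᶠ w ∈ (W : Set V₀), (1 : ℂ) := by
        apply finsum_mem_congr rfl
        intro w hw
        rw [hμ, hagree w hw, mul_inv_cancel₀ (hne ν' hν' w)]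
      rw [h4, finsum_mem_eq_finite_toFinset_sum _ (Set.toFinite (W : Set V₀)), Finset.sum_const,
        nsmul_eq_mul, mul_one, Nat.cast_eq_zero, Finset.card_eq_zero] at h3
      have h5 : (1 : V₀) ∈ (Set.toFinite (W : Set V₀)).toFinset := by
        rw [Set.Finite.mem_toFinset]
        exact W.one_mem
      rw [h3] at h5
      exact absurd h5 (Finset.notMem_empty _)
    funext v
    have h6 := hμ v
    rw [hμ1] at h6
    have h7 : (1 : ℂ) = ν v * (ν' v)⁻¹ := h6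
    rw [eq_mul_inv_iff_mul_eq₀ (hne ν' hν' v), one_mul] at h7
    exact h7.symm
  -- the partition
  have hdis : (lk (kW E₀ W)).PairwiseDisjoint fun ν => Iv B W ν := by
    intro ν hν ν' hν' hνν
    rw [Function.onFun, Set.disjoint_left]
    intro χ h1 h2
    exact hνν (huniq ν hν ν' hν' χ h1 h2)
  have hdisN : (lk (kW E₀ W)).PairwiseDisjoint fun ν => {χ | χ ∈ Iv B W ν ∧ χ ∈ N} := by
    intro ν hν ν' hν' hνν
    rw [Function.onFun, Set.disjoint_left]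
    intro χ h1 h2
    exact hνν (huniq ν hν ν' hν' χ h1.1 h2.1)
  have hU : Ch B W = ⋃ ν ∈ lk (kW E₀ W), Iv B W ν := by
    ext χ
    simp only [Set.mem_iUnion, exists_prop]
    constructor
    · exact fun hχ => hex χ hχ
    · rintro ⟨ν, -, hχ⟩
      exact hχ.1
  have hUN : {χ | χ ∈ Ch B W ∧ χ ∈ N} =
      ⋃ ν ∈ lk (kW E₀ W), {χ | χ ∈ Iv B W ν ∧ χ ∈ N} := by
    ext χ
    simp only [Set.mem_iUnion, exists_prop]
    constructor
    · rintro ⟨hχ, hN⟩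
      obtain ⟨ν, hν, hχν⟩ := hex χ hχ
      exact ⟨ν, hν, hχν, hN⟩
    · rintro ⟨ν, -, hχ, hN⟩
      exact ⟨hχ.1, hN⟩
  have hsum : ∀ f : (G → ℂ) → ℂ, ∑ᶠ χ ∈ Ch B W, f χ =
      ∑ᶠ ν ∈ lk (kW E₀ W), ∑ᶠ χ ∈ Iv B W ν, f χ := by
    intro f
    rw [hU]
    exact finsum_mem_biUnion hdis hg4 fun ν _ => hIfin ν
  have hsumN : ∀ f : (G → ℂ) → ℂ, ∑ᶠ χ ∈ {χ | χ ∈ Ch B W ∧ χ ∈ N}, f χ =
      ∑ᶠ ν ∈ lk (kW E₀ W), ∑ᶠ χ ∈ {χ | χ ∈ Iv B W ν ∧ χ ∈ N}, f χ := by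
    intro f
    rw [hUN]
    exact finsum_mem_biUnion hdisN hg4 fun ν _ => hINfin ν
  have hone : (fun _ : V₀ => (1 : ℂ)) ∈ lk (kW E₀ W) :=
    ⟨⟨rfl, fun _ _ => (mul_one _).symm⟩, fun _ _ => rfl⟩
  have hsym : ∀ χ ψ : G → ℂ, rq ℓ B W χ ψ → rq ℓ B W ψ χ := fun χ ψ h g hg hr =>
    (h g hg hr).symm
  have htrans : ∀ χ ψ φ : G → ℂ, rq ℓ B W χ ψ → rq ℓ B W ψ φ → rq ℓ B W χ φ :=
    fun χ ψ φ h h' g hg hr => (h g hg hr).trans (h' g hg hr)
  have hinv : ∀ f : (G → ℂ) → ℂ,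
      (∀ χ ∈ Ch B W, ∀ ψ ∈ Ch B W, χ ∈ N → ψ ∈ N → rq ℓ B W χ ψ → f χ = f ψ) →
      ∀ ν ∈ lk (kW E₀ W), ∑ᶠ χ ∈ {χ | χ ∈ Iv B W ν ∧ χ ∈ N}, f χ =
        ∑ᶠ χ ∈ {χ | χ ∈ Iv B W (fun _ => 1) ∧ χ ∈ N}, f χ := by
    intro f hf ν hν
    have hmt : ∀ χ, ∃ ψ, χ ∈ Ch B W → χ ∈ N →
        (ψ ∈ Iv B W (fun _ => 1) ∧ ψ ∈ N ∧ rq ℓ B W ψ χ) := by
      intro χ
      by_cases h : χ ∈ Ch B W ∧ χ ∈ N
      · obtain ⟨ψ, hψ, -⟩ := hCy.mt _ hone χ h.1 h.2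
        exact ⟨ψ, fun _ _ => hψ⟩
      · exact ⟨χ, fun h1 h2 => absurd ⟨h1, h2⟩ h⟩
    choose E hE using hmt
    refine finsum_mem_eq_of_bijOn E ⟨?_, ?_, ?_⟩ ?_
    · intro χ hχ
      have h1 := hE χ hχ.1.1 hχ.2
      exact ⟨h1.1, h1.2.1⟩
    · intro χ hχ χ' hχ' heq
      have h1 := hE χ hχ.1.1 hχ.2
      have h2 := hE χ' hχ'.1.1 hχ'.2
      have h3 := hCy.mt ν hν (E χ) h1.1.1 h1.2.1
      refine h3.unique ⟨hχ.1, hχ.2, hsym _ _ h1.2.2⟩ ⟨hχ'.1, hχ'.2, ?_⟩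
      rw [heq]
      exact hsym _ _ h2.2.2
    · intro ψ hψ
      obtain ⟨χ, hχ, -⟩ := hCy.mt ν hν ψ hψ.1.1 hψ.2
      refine ⟨χ, ⟨hχ.1, hχ.2.1⟩, ?_⟩
      have h1 := hE χ hχ.1.1 hχ.2.1
      exact (hCy.mt _ hone χ hχ.1.1 hχ.2.1).unique h1 ⟨hψ.1, hψ.2, hsym _ _ hχ.2.2⟩
    · intro χ hχ
      have h1 := hE χ hχ.1.1 hχ.2
      exact (hf _ h1.1.1 _ hχ.1.1 h1.2.1 hχ.2 h1.2.2).symm
  refine ⟨hfin, hsum, hsumN, ?_, ?_⟩
  · intro f hf
    refine ⟨hinv f hf, ?_⟩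
    intro z hz
    have h1 : ∑ᶠ χ ∈ {χ | χ ∈ Ch B W ∧ χ ∈ N}, nu B χ z * f χ =
        ∑ᶠ ν ∈ lk (kW E₀ W), ν z *
          ∑ᶠ χ ∈ {χ | χ ∈ Iv B W (fun _ => 1) ∧ χ ∈ N}, f χ := by
      rw [hsumN]
      apply finsum_mem_congr rfl
      intro ν hν
      rw [← hinv f hf ν hν, mul_finsum_mem]
      apply finsum_mem_congr rfl
      intro χ hχ
      rw [hχ.1.2 z hz]
    rw [h1, ← finsum_mem_mul]
    by_cases hz1 : z = 1
    · rw [if_pos hz1]
      congr 1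
      have h2 : ∑ᶠ ν ∈ lk (kW E₀ W), ν z = ∑ᶠ ν ∈ lk (kW E₀ W), (1 : ℂ) := by
        apply finsum_mem_congr rfl
        intro ν hν
        rw [hz1]
        exact hν.1.1
      rw [h2, finsum_mem_eq_finite_toFinset_sum _ hg4, Finset.sum_const, nsmul_eq_mul, mul_one,
        ← Set.ncard_eq_toFinset_card _ hg4, hg2]
    · rw [if_neg hz1, hg13 z hz hz1, zero_mul]
  · intro ν hν
    refine ⟨(hCy.lv ν hν).cN, hINfin ν, ?_⟩
    intro ψ hψ hψN
    obtain ⟨χ₀, hχ₀, hu⟩ := hCy.mt ν hν ψ hψ hψN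
    rw [finsum_mem_eq_finite_toFinset_sum _ (hINfin ν), Finset.sum_eq_single χ₀]
    · rw [if_pos hχ₀.2.2]
    · intro χ hχ hne'
      rw [Set.Finite.mem_toFinset] at hχ
      rw [if_neg]
      intro hr
      exact hne' (hu χ ⟨hχ.1, hχ.2, hr⟩)
    · intro hno
      exfalso
      apply hno
      rw [Set.Finite.mem_toFinset]
      exact ⟨hχ₀.1, hχ₀.2.1⟩

end Pool.Agent.PP.SE.H33
end
end -- Pool.Agent.Helper33_ASE.SNU

section -- Pool.Agent.Helper52_ASE.XIR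

/-!
# Squad ASE, row XIR: the sum of the nonexceptional characters at the regular elements
-/

open scoped BigOperators

noncomputable section

namespace Pool.Agent.PP.SE.H52

open Pool.Agent.Helper51_AWC Pool.Agent.Helper79_WRA Pool.Agent.PP Pool.Agent.PP.KF
open Pool.Agent.PP.K9 Pool.Agent.PP.K9.H97 Pool.Agent.PP.H75 Pool.Agent.PP.T3 Pool.Agent.PP.SO
open Pool.Agent.PP.SD Pool.Agent.PP.SE

attribute [local instance] Ideal.Quotient.field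

/-- linear characters of a finite group: conjugation is inversion -/
theorem lin_conj {V : Type} [CommGroup V] [Finite V] {s : V → ℂ} (hs : s ∈ lin V) (v : V) :
    s v * starRingEnd ℂ (s v) = 1 := by
  have hpow : ∀ n : ℕ, s (v ^ n) = s v ^ n := by
    intro n
    induction n with
    | zero => rw [pow_zero, pow_zero, hs.1]
    | succ n ih => rw [pow_succ, pow_succ, hs.2, ih]
  have h1 : s v ^ Nat.card V = 1 := by
    rw [← hpow, pow_card_eq_one', hs.1]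
  have h2 : ‖s v‖ = 1 := Complex.norm_eq_one_of_pow_eq_one h1 Nat.card_pos.ne'
  rw [Complex.mul_conj, Complex.normSq_eq_norm_sq, h2]
  norm_num

/-- Fourier inversion -/
theorem fou {V : Type} [CommGroup V] [Finite V] [DecidableEq V] (Λ : Finset (V → ℂ)) (K : Finset V)
    (hK1 : (1 : V) ∈ K) (hlin : ∀ s ∈ Λ, s ∈ lin V)
    (hmul : ∀ s ∈ Λ, ∀ s' ∈ Λ, (fun v => s v * starRingEnd ℂ (s' v)) ∈ Λ)
    (hor : ∀ s ∈ Λ, s ≠ (fun _ => 1) → ∑ y ∈ K, s y = 0) (A : (V → ℂ) → ℂ)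
    (hA : ∀ y ∈ K, y ≠ 1 → ∑ s ∈ Λ, A s * starRingEnd ℂ (s y) = 0) (s₀ : V → ℂ) (hs₀ : s₀ ∈ Λ) :
    (K.card : ℂ) * A s₀ = ∑ s ∈ Λ, A s := by
  classical
  have h1 : ∑ y ∈ K, s₀ y * ∑ s ∈ Λ, A s * starRingEnd ℂ (s y) = ∑ s ∈ Λ, A s := by
    rw [Finset.sum_eq_single (1 : V)]
    · rw [(hlin s₀ hs₀).1, one_mul]
      refine Finset.sum_congr rfl fun s hs => ?_
      rw [(hlin s hs).1, map_one, mul_one]
    · intro y hy hy1
      rw [hA y hy hy1, mul_zero]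
    · intro h
      exact absurd hK1 h
  rw [← h1]
  simp_rw [Finset.mul_sum]
  rw [Finset.sum_comm, Finset.sum_eq_single s₀]
  · have h2 : ∀ y ∈ K, s₀ y * (A s₀ * starRingEnd ℂ (s₀ y)) = A s₀ := by
      intro y _
      have := lin_conj (hlin s₀ hs₀) y
      linear_combination A s₀ * this
    rw [Finset.sum_congr rfl h2, Finset.sum_const, nsmul_eq_mul]
  · intro s hs hne
    have h3 : ∀ y ∈ K, s₀ y * (A s * starRingEnd ℂ (s y)) =
        A s * (s₀ y * starRingEnd ℂ (s y)) := by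
      intro y _
      ring
    rw [Finset.sum_congr rfl h3, ← Finset.mul_sum]
    have h4 := hor (fun v => s₀ v * starRingEnd ℂ (s v)) (hmul s₀ hs₀ s hs) (by
      intro h
      apply hne
      funext v
      have h5 := congrFun h v
      have h6 := lin_conj (hlin s hs) v
      have h7 : starRingEnd ℂ (s v) ≠ 0 := by
        intro h8
        rw [h8, mul_zero] at h6
        exact zero_ne_one h6
      exact mul_right_cancel₀ h7 (h6.trans h5.symm))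
    rw [h4, mul_zero]
  · intro h
    exact absurd hs₀ h

theorem xir (gec : GecStmt) (vxo : VxoStmt) : XirStmt := by
  classical
  intro ℓ _ M _ hM hℓ V₀ G _ _ _ _ E₀ hFq B hSd W hW ν hν N e O hLv ψ hψ hψN g hg hreg
  obtain ⟨-, -, hfW, -, -, -, -, -, hst, horb, -, hork, -, -⟩ := gec ℓ V₀ E₀ hFq W hW
  obtain ⟨-, -, -, hv4⟩ := vxo ℓ M hM hℓ V₀ G E₀ hFq B hSd W hW
  have hn : 1 < nS E₀ W := hW.2
  -- finiteness
  have hf1 : {χ | χ ∈ Iv B W ν ∧ χ ∈ N}.Finite := by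
    apply Set.finite_of_ncard_ne_zero
    rw [hLv.cN]
    omega
  have hf2 : {χ | χ ∈ Iv B W ν ∧ χ ∉ N}.Finite := by
    apply Set.Finite.of_finite_image (f := O)
    · apply (hfW.image (orb E₀ W)).subset
      rintro _ ⟨χ, ⟨h1, h2⟩, rfl⟩
      obtain ⟨⟨s, hs, hs1, hO⟩, -⟩ := hLv.vX χ h1 h2
      exact ⟨s, hs, hO.symm⟩
    · rintro χ ⟨h1, h2⟩ χ' ⟨h1', h2'⟩ h
      obtain ⟨⟨s, hs, hs1, hO⟩, -⟩ := hLv.vX χ h1 h2
      obtain ⟨χ₀, -, hu⟩ := hLv.bX s hs hs1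
      rw [hu χ ⟨h1, h2, hO⟩, hu χ' ⟨h1', h2', by rw [← h]; exact hO⟩]
  have hfI : (Iv B W ν).Finite := by
    apply (hf1.union hf2).subset
    intro χ h
    by_cases hN : χ ∈ N
    · exact Or.inl ⟨h, hN⟩
    · exact Or.inr ⟨h, hN⟩
  set I := hfI.toFinset with hI
  have mI : ∀ χ, χ ∈ I ↔ χ ∈ Iv B W ν := fun χ => by rw [hI, Set.Finite.mem_toFinset]
  set Λ := hfW.toFinset with hΛ
  have mL : ∀ s, s ∈ Λ ↔ s ∈ lk W := fun s => by rw [hΛ, Set.Finite.mem_toFinset]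
  have hKf : ((kW E₀ W : Subgroup V₀) : Set V₀).Finite := Set.toFinite _
  set K := hKf.toFinset with hK
  have mK : ∀ y, y ∈ K ↔ y ∈ kW E₀ W := fun y => by
    rw [hK, Set.Finite.mem_toFinset, SetLike.mem_coe]
  -- the orbit sets
  have hOset : ∀ χ ∈ Iv B W ν, χ ∉ N → ∀ s : V₀ → ℂ,
      s ∈ O χ ↔ (s ∈ lk W ∧ s ≠ (fun _ => 1) ∧ O χ = orb E₀ W s) := by
    intro χ h1 h2 s
    obtain ⟨⟨s₁, hs₁, hs11, hO⟩, -⟩ := hLv.vX χ h1 h2
    constructor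
    · intro hs
      rw [hO] at hs
      have ho := (horb s₁ hs₁ hs11).2.2 s hs
      obtain ⟨τ, hτ, rfl⟩ := hs
      have h3 := hst s₁ hs₁ τ hτ
      refine ⟨h3.1, (h3.2 hs11).1, ?_⟩
      rw [hO]
      exact ho.symm
    · rintro ⟨hs, hs1, ho⟩
      rw [ho]
      exact (horb s hs hs1).2.1
  -- the function A
  set A : (V₀ → ℂ) → ℂ := fun s => if s = (fun _ => 1) then
      ∑ χ ∈ I.filter (fun χ => χ ∈ N), (e χ : ℂ) * χ g
    else ∑ χ ∈ I.filter (fun χ => χ ∉ N ∧ O χ = orb E₀ W s), (e χ : ℂ) * χ g with hA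
  have hone : (fun _ => 1 : V₀ → ℂ) ∈ Λ := by
    rw [mL]
    exact ⟨⟨rfl, fun _ _ => (mul_one _).symm⟩, fun _ _ => rfl⟩
  have hvan : ∀ y ∈ K, y ≠ 1 → ∑ s ∈ Λ, A s * starRingEnd ℂ (s y) = 0 := by
    intro y hy hy1
    rw [mK] at hy
    have h0 := hv4 ν hν g hg hreg y hy hy1
    rw [finsum_mem_eq_finite_toFinset_sum _ hfI, ← hI] at h0
    rw [← h0, ← Finset.add_sum_erase _ _ hone,
      ← Finset.sum_filter_add_sum_filter_not I (fun χ => χ ∈ N)]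
    congr 1
    · simp only [hA, if_true]
      rw [map_one, mul_one]
      refine Finset.sum_congr rfl fun χ hχ => ?_
      rw [Finset.mem_filter, mI] at hχ
      rw [hLv.vN χ hχ.1 hχ.2 y hy hy1]
      have hc : starRingEnd ℂ ((e χ : ℤ) : ℂ) = ((e χ : ℤ) : ℂ) := map_intCast _ _
      rw [hc]
      ring
    · have hL1 : ∀ s ∈ Λ.erase (fun _ => 1), A s * starRingEnd ℂ (s y) =
          ∑ χ ∈ I.filter (fun χ => χ ∉ N), if O χ = orb E₀ W s then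
            (e χ : ℂ) * χ g * starRingEnd ℂ (s y) else 0 := by
        intro s hs
        rw [Finset.mem_erase] at hs
        simp only [hA, if_neg hs.1]
        rw [Finset.sum_mul, ← Finset.sum_filter, Finset.filter_filter]
      rw [Finset.sum_congr rfl hL1, Finset.sum_comm]
      refine Finset.sum_congr rfl fun χ hχ => ?_
      rw [Finset.mem_filter, mI] at hχ
      have hfO : (O χ).Finite := hfW.subset fun s hs => ((hOset χ hχ.1 hχ.2 s).mp hs).1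
      have hval := (hLv.vX χ hχ.1 hχ.2).2 y hy hy1
      rw [finsum_mem_eq_finite_toFinset_sum _ hfO] at hval
      rw [hval, map_mul, map_sum, map_intCast, Finset.mul_sum, Finset.mul_sum, ← Finset.sum_filter]
      refine Finset.sum_congr ?_ fun s _ => by ring
      ext s
      rw [Finset.mem_filter, Finset.mem_erase, mL, Set.Finite.mem_toFinset, hOset χ hχ.1 hχ.2 s]
      tauto
  -- the inversion
  have hinv := fou Λ K (by rw [mK]; exact one_mem _) (fun s hs => ((mL s).mp hs).1) (by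
    intro s hs s' hs'
    rw [mL] at hs hs' ⊢
    refine ⟨⟨?_, ?_⟩, ?_⟩
    · show s 1 * starRingEnd ℂ (s' 1) = 1
      rw [hs.1.1, hs'.1.1, map_one, one_mul]
    · intro v w
      show s (v * w) * starRingEnd ℂ (s' (v * w)) =
        s v * starRingEnd ℂ (s' v) * (s w * starRingEnd ℂ (s' w))
      rw [hs.1.2, hs'.1.2, map_mul]
      ring
    · intro w hw
      show s w * starRingEnd ℂ (s' w) = 1
      rw [hs.2 w hw, hs'.2 w hw, map_one, one_mul]) (by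
    intro s hs hs1
    have h := hork s ((mL s).mp hs) hs1
    rw [finsum_mem_eq_finite_toFinset_sum _ hKf, ← hK] at h
    exact h) A hvan
  obtain ⟨⟨s, hs, hs1, hO⟩, -⟩ := hLv.vX ψ hψ hψN
  have hc : (K.card : ℂ) ≠ 0 := by
    rw [Nat.cast_ne_zero, Finset.card_ne_zero]
    exact ⟨1, by rw [mK]; exact one_mem _⟩
  have heq : A (fun _ => 1) = A s := by
    have h1 := hinv (fun _ => 1) hone
    have h2 := hinv s ((mL s).mpr hs)
    exact mul_left_cancel₀ hc (h1.trans h2.symm)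
  have hA1 : A (fun _ => 1) = ∑ᶠ χ ∈ {χ | χ ∈ Iv B W ν ∧ χ ∈ N}, (e χ : ℂ) * χ g := by
    rw [finsum_mem_eq_finite_toFinset_sum _ hf1]
    simp only [hA, if_true]
    refine Finset.sum_congr ?_ fun _ _ => rfl
    ext χ
    rw [Finset.mem_filter, mI, Set.Finite.mem_toFinset, Set.mem_setOf_eq]
  have hAs : A s = e ψ * ψ g := by
    simp only [hA, if_neg hs1]
    obtain ⟨χ₀, -, hu⟩ := hLv.bX s hs hs1
    have hset : I.filter (fun χ => χ ∉ N ∧ O χ = orb E₀ W s) = {ψ} := by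
      ext χ
      rw [Finset.mem_filter, mI, Finset.mem_singleton]
      constructor
      · rintro ⟨h1, h2, h3⟩
        rw [hu χ ⟨h1, h2, h3⟩, hu ψ ⟨hψ, hψN, hO⟩]
      · rintro rfl
        exact ⟨hψ, hψN, hO⟩
    rw [hset, Finset.sum_singleton]
  rw [← hA1, heq, hAs]

end Pool.Agent.PP.SE.H52
end
end -- Pool.Agent.Helper52_ASE.XIR

section -- Pool.Agent.Helper41_ASE.STR

/-!
# Squad ASE, row STR: the structure of the characters with a given central character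
-/

open scoped BigOperators

set_option autoImplicit false

noncomputable section

namespace Pool.Agent.PP.SE.H41

open Pool.Agent.Helper51_AWC Pool.Agent.Helper79_WRA Pool.Agent.PP Pool.Agent.PP.KF
open Pool.Agent.PP.K9 Pool.Agent.PP.K9.H97 Pool.Agent.PP.H75 Pool.Agent.PP.T3 Pool.Agent.PP.SO
open Pool.Agent.PP.SD

attribute [local instance] Ideal.Quotient.field

/-! ### Combinatorics -/

theorem sgn_cases {x : ℤ} (h : x * x = 1) : x = 1 ∨ x = -1 := mul_self_eq_one_iff.1 h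

/-- integral vectors with Gram matrix `I + n J` -/
theorem core (grb : K9.GrbStmt) (m n : ℕ) (hm : 0 < m) (ι : Type) [Fintype ι] [DecidableEq ι]
    (b : Fin m → ι → ℤ) (hG : ∀ j j', ∑ i, b j i * b j' i = (if j = j' then 1 else 0) + (n : ℤ))
    (hne : ∀ i, ∃ j, b j i ≠ 0) :
    Fintype.card ι ≤ n + m ∧ (Fintype.card ι = n + m → ∃ (r : Fin m → ι) (ε : Fin m → ℤ),
      Function.Injective r ∧ (∀ j, ε j = 1 ∨ ε j = -1) ∧
      (∀ j j', b j' (r j) = if j' = j then ε j else 0) ∧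
      ∀ i, (∀ j, i ≠ r j) → ∃ w : ℤ, (w = 1 ∨ w = -1) ∧ ∀ j, b j i = w) := by
  obtain ⟨r, σ, t, w, hr, hσ, hb, hw, hmt⟩ := grb m n hm ι b hG
  let j₀ : Fin m := ⟨0, hm⟩
  have hσ2 : ∀ j, σ j = 1 ∨ σ j = -1 := fun j => sgn_cases (hσ j)
  -- norm of w
  have h1 : ∑ i, w i * w i = n - 2 * t := by
    have h2 := hG j₀ j₀
    rw [if_pos rfl] at h2
    have h3 : ∀ i, b j₀ i * b j₀ i = w i * w i +
        if i = r j₀ then 2 * (w i * σ j₀) + σ j₀ * σ j₀ else 0 := by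
      intro i
      rw [hb j₀ i]
      split_ifs <;> ring
    rw [Finset.sum_congr rfl fun i _ => h3 i, Finset.sum_add_distrib, Finset.sum_ite_eq'
      Finset.univ (r j₀), if_pos (Finset.mem_univ _), hw j₀] at h2
    have h4 : t * σ j₀ * σ j₀ = t := by rw [mul_assoc, hσ, mul_one]
    rw [h4, hσ] at h2
    linarith
  -- the set of the other indices
  set R : Finset ι := Finset.univ.image r with hR
  have hRc : R.card = m := by
    rw [hR, Finset.card_image_of_injective _ hr, Finset.card_univ, Fintype.card_fin]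
  have h2 : ∑ i ∈ R, w i * w i = m * (t * t) := by
    rw [hR, Finset.sum_image fun a _ b _ h => hr h]
    have h3 : ∀ j ∈ (Finset.univ : Finset (Fin m)), w (r j) * w (r j) = t * t := by
      intro j _
      rw [hw j]
      have := hσ j
      linear_combination (t * t) * this
    rw [Finset.sum_congr rfl h3, Finset.sum_const, Finset.card_univ, Fintype.card_fin, nsmul_eq_mul]
  have h3 : ∑ i ∈ Rᶜ, w i * w i = n - 2 * t - m * (t * t) := by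
    have := Finset.sum_add_sum_compl R fun i => w i * w i
    rw [h1, h2] at this
    linarith
  have hbw : ∀ i, (∀ j, i ≠ r j) → ∀ j, b j i = w i := by
    intro i hi j
    rw [hb j i, if_neg (hi j), add_zero]
  have hRm : ∀ i, i ∈ Rᶜ ↔ ∀ j, i ≠ r j := by
    intro i
    rw [Finset.mem_compl, hR, Finset.mem_image]
    constructor
    · intro h j hj
      exact h ⟨j, Finset.mem_univ _, hj.symm⟩
    · rintro h ⟨j, -, hj⟩
      exact h j hj.symm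
  have h4 : ∀ i ∈ Rᶜ, 1 ≤ w i * w i := by
    intro i hi
    rw [hRm] at hi
    obtain ⟨j, hj⟩ := hne i
    rw [hbw i hi j] at hj
    have : 0 < w i * w i := mul_self_pos.2 hj
    linarith
  have h5 : (Rᶜ.card : ℤ) ≤ ∑ i ∈ Rᶜ, w i * w i := by
    have := Finset.sum_le_sum h4
    rw [Finset.sum_const, nsmul_eq_mul, mul_one] at this
    exact this
  have h6 : R.card + Rᶜ.card = Fintype.card ι := by
    rw [Finset.card_add_card_compl]
  have h7 : 0 ≤ t * (m * t + 2) ∧ (t * (m * t + 2) = 0 → t = 0 ∨ ((m : ℤ) = 2 ∧ t = -1) ∨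
      ((m : ℤ) = 1 ∧ t = -2)) := by
    have hm1 : (1 : ℤ) ≤ m := by exact_mod_cast hm
    have h8 : t * (m * t + 2) = m * t * t + 2 * t := by ring
    rcases lt_trichotomy t 0 with ht | ht | ht
    · by_cases ht1 : t = -1
      · subst ht1
        have hm2 : (2 : ℤ) ≤ m := by
          by_contra hcon
          have : (m : ℤ) = 1 := by linarith
          exact hmt (by rw [this]; norm_num)
        refine ⟨by linarith, fun h => Or.inr (Or.inl ⟨by linarith, rfl⟩)⟩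
      · have ht2 : t ≤ -2 := by omega
        have h9 : (m : ℤ) * t ≤ -2 := by nlinarith
        refine ⟨by nlinarith, fun h => ?_⟩
        rcases mul_eq_zero.1 h with h | h
        · exact Or.inl h
        · have hm3 : (m : ℤ) ≤ 1 := by nlinarith
          have hm4 : (m : ℤ) = 1 := le_antisymm hm3 hm1
          rw [hm4] at h
          exact Or.inr (Or.inr ⟨hm4, by linarith⟩)
    · subst ht
      exact ⟨by norm_num, fun _ => Or.inl rfl⟩
    · have h9 : 0 < (m : ℤ) * t := by positivity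
      refine ⟨by positivity, fun h => ?_⟩
      rcases mul_eq_zero.1 h with h | h
      · exact Or.inl h
      · linarith
  have h8 : (Fintype.card ι : ℤ) ≤ n + m - t * (m * t + 2) := by
    have : ((R.card + Rᶜ.card : ℕ) : ℤ) = Fintype.card ι := by rw [h6]
    push_cast at this
    rw [← this, hRc]
    have h9 : t * (m * t + 2) = m * (t * t) + 2 * t := by ring
    linarith
  refine ⟨by have := h7.1; zify; linarith, fun hc => ?_⟩
  have h9 : t * (m * t + 2) = 0 := by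
    rw [hc] at h8
    push_cast at h8
    exact le_antisymm (by linarith) h7.1
  have h10 : (Rᶜ.card : ℤ) = ∑ i ∈ Rᶜ, w i * w i := by
    rw [h3]
    have h11 : ((R.card + Rᶜ.card : ℕ) : ℤ) = Fintype.card ι := by rw [h6]
    rw [hc, hRc] at h11
    push_cast at h11
    have h12 : t * (m * t + 2) = m * (t * t) + 2 * t := by ring
    linarith
  have h11 : ∀ i ∈ Rᶜ, w i * w i = 1 := by
    have h12 : ∑ i ∈ Rᶜ, (1 : ℤ) = ∑ i ∈ Rᶜ, w i * w i := by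
      rw [← h10, Finset.sum_const, nsmul_eq_mul, mul_one]
    intro i hi
    exact ((Finset.sum_eq_sum_iff_of_le h4).1 h12 i hi).symm
  have hlast : ∀ i, (∀ j, i ≠ r j) → ∃ w' : ℤ, (w' = 1 ∨ w' = -1) ∧ ∀ j, b j i = w' :=
    fun i hi => ⟨w i, sgn_cases (h11 i ((hRm i).2 hi)), hbw i hi⟩
  have hwr : ∀ j j', b j' (r j) = t * σ j + if j' = j then σ j' else 0 := by
    intro j j'
    rw [hb j' (r j), hw j]
    congr 1
    by_cases hjj : j' = j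
    · rw [if_pos hjj, if_pos (by rw [hjj])]
    · rw [if_neg hjj, if_neg (fun h => hjj (hr h).symm)]
  rcases h7.2 h9 with ht | ⟨hm2, ht⟩ | ⟨hm1, ht⟩
  · refine ⟨r, σ, hr, hσ2, ?_, hlast⟩
    intro j j'
    rw [hwr, ht, zero_mul, zero_add]
    by_cases hjj : j' = j
    · rw [if_pos hjj, if_pos hjj, hjj]
    · rw [if_neg hjj, if_neg hjj]
  · have hm2' : m = 2 := by exact_mod_cast hm2
    subst hm2'
    refine ⟨fun j => r (1 - j), fun j => - σ (1 - j), ?_, ?_, ?_, ?_⟩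
    · intro j j' h
      have := hr h
      revert this
      fin_cases j <;> fin_cases j' <;> simp
    · intro j
      rcases hσ2 (1 - j) with h | h
      · right
        show - σ (1 - j) = -1
        rw [h]
      · left
        show - σ (1 - j) = 1
        rw [h]
        norm_num
    · intro j j'
      show b j' (r (1 - j)) = if j' = j then - σ (1 - j) else 0
      rw [hwr, ht]
      by_cases hjj : j' = j
      · rw [if_pos hjj, if_neg]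
        · ring
        · subst hjj
          fin_cases j' <;> simp
      · have hj' : j' = 1 - j := by
          revert hjj
          fin_cases j <;> fin_cases j' <;> simp
        rw [if_neg hjj, if_pos hj', hj']
        ring
    · intro i hi
      refine hlast i fun j => ?_
      have := hi (1 - j)
      have h12 : (1 : Fin 2) - (1 - j) = j := by fin_cases j <;> rfl
      simp only [h12] at this
      exact this
  · have hm1' : m = 1 := by exact_mod_cast hm1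
    subst hm1'
    refine ⟨r, fun j => - σ j, hr, ?_, ?_, hlast⟩
    · intro j
      rcases hσ2 j with h | h
      · right
        show - σ j = -1
        rw [h]
      · left
        show - σ j = 1
        rw [h]
        norm_num
    · intro j j'
      have hjj : j' = j := Subsingleton.elim _ _
      show b j' (r j) = if j' = j then - σ j else 0
      rw [hwr, ht, if_pos hjj, if_pos hjj, hjj]
      ring

/-! ### Orbits -/

theorem orbits {V₀ : Type} [CommGroup V₀] [Finite V₀] (E₀ : Subgroup (MulAut V₀)) (W : Subgroup V₀)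
    (ℓ n : ℕ) (hn : 0 < n) (hW : (lk W).ncard = ℓ) (hℓ : 1 < ℓ)
    (horb : ∀ s ∈ lk W, s ≠ (fun _ => 1) → (orb E₀ W s).ncard = n ∧ s ∈ orb E₀ W s ∧
      ∀ s' ∈ orb E₀ W s, orb E₀ W s' = orb E₀ W s)
    (hst : ∀ s ∈ lk W, s ≠ (fun _ => 1) → ∀ s' ∈ orb E₀ W s, s' ∈ lk W ∧ s' ≠ fun _ => 1) :
    ∃ (m : ℕ) (sj : Fin m → (V₀ → ℂ)), 0 < m ∧ m * n = ℓ - 1 ∧
      (∀ j, sj j ∈ lk W ∧ sj j ≠ fun _ => 1) ∧
      (∀ j j', orb E₀ W (sj j) = orb E₀ W (sj j') → j = j') ∧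
      ∀ s ∈ lk W, s ≠ (fun _ => 1) → ∃ j, orb E₀ W s = orb E₀ W (sj j) := by
  classical
  set L : Finset (V₀ → ℂ) := (lk_finite W).toFinset.erase fun _ => 1 with hL
  have mL : ∀ s, s ∈ L ↔ s ∈ lk W ∧ s ≠ fun _ => 1 := by
    intro s
    rw [hL, Finset.mem_erase, Set.Finite.mem_toFinset, and_comm]
  have hone : (fun _ => 1 : V₀ → ℂ) ∈ (lk_finite W).toFinset := by
    rw [Set.Finite.mem_toFinset]
    exact ⟨⟨rfl, fun _ _ => (mul_one _).symm⟩, fun _ _ => rfl⟩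
  have hLc : L.card = ℓ - 1 := by
    rw [hL, Finset.card_erase_of_mem hone, ← Set.ncard_eq_toFinset_card (lk W) (lk_finite W), hW]
  set P : Finset (Set (V₀ → ℂ)) := L.image (orb E₀ W) with hP
  have hfib : ∀ o ∈ P, (L.filter fun a => orb E₀ W a = o).card = n := by
    intro o ho
    rw [hP, Finset.mem_image] at ho
    obtain ⟨s, hs, rfl⟩ := ho
    have hs' := (mL s).1 hs
    obtain ⟨h1, h2, h3⟩ := horb s hs'.1 hs'.2
    have h4 : ((L.filter fun a => orb E₀ W a = orb E₀ W s : Finset _) : Set (V₀ → ℂ)) =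
        orb E₀ W s := by
      ext a
      rw [Finset.mem_coe, Finset.mem_filter, mL]
      constructor
      · rintro ⟨⟨ha, ha1⟩, hao⟩
        rw [← hao]
        exact (horb a ha ha1).2.1
      · intro ha
        exact ⟨hst s hs'.1 hs'.2 a ha, h3 a ha⟩
    rw [← Set.ncard_coe_finset, h4, h1]
  have hcard : P.card * n = ℓ - 1 := by
    rw [← hLc, Finset.card_eq_sum_card_image (orb E₀ W) L, Finset.sum_congr rfl hfib,
      Finset.sum_const, smul_eq_mul]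
  have hch : ∀ j : Fin P.card, ∃ s ∈ L, orb E₀ W s = (P.equivFin.symm j : Set (V₀ → ℂ)) := by
    intro j
    exact Finset.mem_image.1 (P.equivFin.symm j).2
  choose sj hsj hsjo using hch
  refine ⟨P.card, sj, ?_, hcard, fun j => (mL _).1 (hsj j), ?_, ?_⟩
  · rcases Nat.eq_zero_or_pos P.card with h | h
    · rw [h, zero_mul] at hcard
      omega
    · exact h
  · intro j j' h
    rw [hsjo, hsjo] at h
    exact P.equivFin.symm.injective (Subtype.ext h)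
  · intro s hs hs1
    have h1 : orb E₀ W s ∈ P := by
      rw [hP]
      exact Finset.mem_image_of_mem _ ((mL s).2 ⟨hs, hs1⟩)
    refine ⟨P.equivFin ⟨_, h1⟩, ?_⟩
    rw [hsjo, Equiv.symm_apply_apply]

/-! ### The structure -/

theorem str (gec : GecStmt) (vxm : VxmStmt) (ibv : IbvStmt) (cnt : CntStmt) (grb : K9.GrbStmt) :
    StrStmt := by
  intro ℓ hℓ M _ hM h2 V₀ G _ _ _ _ E₀ hF B hB W hW
  classical
  obtain ⟨cW, ck, -, fk, -, -, hnu, hsw, hst, horb, hsum1, hsum2, -, -⟩ := gec ℓ V₀ E₀ hF W hW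
  have hn : 0 < nS E₀ W := by
    have := hW.2
    omega
  have hst' : ∀ s ∈ lk W, s ≠ (fun _ => 1) → ∀ s' ∈ orb E₀ W s, s' ∈ lk W ∧ s' ≠ fun _ => 1 := by
    rintro s hs hs1 _ ⟨τ, hτ, rfl⟩
    exact ⟨(hst s hs τ hτ).1, ((hst s hs τ hτ).2 hs1).1⟩
  obtain ⟨m, sj, hm, hmn, hsj, hsji, hsjs⟩ := orbits E₀ W ℓ (nS E₀ W) hn cW hℓ.out.one_lt horb hst'
  obtain ⟨hCf, hCn⟩ := cnt ℓ M hM h2 V₀ G E₀ hF B hB.toSb W hW
  set n := nS E₀ W with hndef
  let j₀ : Fin m := ⟨0, hm⟩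
  -- the set of the nontrivial characters
  set L : Finset (V₀ → ℂ) := (lk_finite W).toFinset.erase fun _ => 1 with hL
  have mL : ∀ s, s ∈ L ↔ s ∈ lk W ∧ s ≠ fun _ => 1 := by
    intro s
    rw [hL, Finset.mem_erase, Set.Finite.mem_toFinset, and_comm]
  have hone : (fun _ => 1 : V₀ → ℂ) ∈ (lk_finite W).toFinset := by
    rw [Set.Finite.mem_toFinset]
    exact ⟨⟨rfl, fun _ _ => (mul_one _).symm⟩, fun _ _ => rfl⟩
  have hLs : ∀ y ∈ kW E₀ W, y ≠ 1 → ∑ s ∈ L, s y = -1 := by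
    intro y hy hy1
    have h3 := hsum1 y hy hy1
    rw [finsum_mem_eq_finite_toFinset_sum _ (lk_finite W), ← Finset.add_sum_erase _ _ hone] at h3
    linear_combination h3
  have hLset : ({s | s ∈ lk W ∧ s ≠ fun _ => 1} : Set (V₀ → ℂ)) = (L : Set (V₀ → ℂ)) := by
    ext s
    rw [Finset.mem_coe, mL]
    rfl
  -- the sum over an orbit
  have horbs : ∀ j y, ∑ᶠ s ∈ orb E₀ W (sj j), s y =
      ∑ s ∈ L.filter fun s => orb E₀ W s = orb E₀ W (sj j), s y := by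
    intro j y
    have h3 : orb E₀ W (sj j) = ((L.filter fun s => orb E₀ W s = orb E₀ W (sj j) : Finset _) :
        Set (V₀ → ℂ)) := by
      ext a
      rw [Finset.mem_coe, Finset.mem_filter, mL]
      constructor
      · intro ha
        exact ⟨hst' _ (hsj j).1 (hsj j).2 a ha, (horb _ (hsj j).1 (hsj j).2).2.2 a ha⟩
      · rintro ⟨⟨ha, ha1⟩, hao⟩
        rw [← hao]
        exact (horb a ha ha1).2.1
    calc ∑ᶠ s ∈ orb E₀ W (sj j), s y = ∑ᶠ s ∈ ((L.filter fun s => orb E₀ W s = orb E₀ W (sj j) :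
        Finset _) : Set (V₀ → ℂ)), s y := by rw [← h3]
      _ = _ := finsum_mem_coe_finset _ _
  -- one central character
  have key : ∀ ν ∈ lk (kW E₀ W), (Iv B W ν).ncard ≤ n + m ∧ ((Iv B W ν).ncard = n + m →
      ∃ (r : Fin m → (G → ℂ)) (ε : Fin m → ℤ) (b : (G → ℂ) → (V₀ → ℂ) → ℤ),
        Function.Injective r ∧ (∀ j, r j ∈ Iv B W ν) ∧ (∀ j, ε j = 1 ∨ ε j = -1) ∧
        (∀ j, ∀ s ∈ L, b (r j) s = if orb E₀ W s = orb E₀ W (sj j) then ε j else 0) ∧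
        (∀ χ ∈ Iv B W ν, (∀ j, χ ≠ r j) → (b χ (sj j₀) = 1 ∨ b χ (sj j₀) = -1) ∧
          ∀ s ∈ L, b χ s = b χ (sj j₀)) ∧
        ∀ χ ∈ Iv B W ν, ∀ y ∈ kW E₀ W, y ≠ 1 → vx B χ y = ∑ s ∈ L, (b χ s : ℂ) * s y) := by
    intro ν hν
    obtain ⟨b, hb1, hb2⟩ := ibv ℓ M hM h2 V₀ G E₀ hF B hB W hW ν hν
    have hIf : (Iv B W ν).Finite := hCf.subset fun χ hχ => hχ.1
    haveI : Fintype (Iv B W ν) := hIf.fintype
    have hbo : ∀ χ ∈ Iv B W ν, ∀ s ∈ lk W, ∀ s' ∈ orb E₀ W s, b χ s' = b χ s := by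
      rintro χ hχ s hs _ ⟨τ, hτ, rfl⟩
      exact (hb1 χ hχ).2.1 s hs τ hτ
    have hbo' : ∀ χ ∈ Iv B W ν, ∀ s ∈ L, ∀ j, orb E₀ W s = orb E₀ W (sj j) → b χ s = b χ (sj j) := by
      intro χ hχ s hs j h
      rw [mL] at hs
      refine hbo χ hχ (sj j) (hsj j).1 s ?_
      rw [← h]
      exact (horb s hs.1 hs.2).2.1
    have hsumI : ∀ f : (G → ℂ) → ℤ, ∑ i : Iv B W ν, f i = ∑ᶠ χ ∈ Iv B W ν, f χ := by
      intro f
      rw [← finsum_set_coe_eq_finsum_mem, finsum_eq_sum_of_fintype]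
    obtain ⟨c1, c2⟩ := core grb m n hm (Iv B W ν) (fun j i => b i (sj j)) (by
      intro j j'
      rw [hsumI fun χ => b χ (sj j) * b χ (sj j')]
      by_cases hjj : j = j'
      · subst hjj
        rw [(hb2 _ (hsj j).1 (hsj j).2 _ (hsj j).1 (hsj j).2).1
          (horb _ (hsj j).1 (hsj j).2).2.1, if_pos rfl]
      · rw [(hb2 _ (hsj j).1 (hsj j).2 _ (hsj j').1 (hsj j').2).2, if_neg hjj, zero_add]
        intro h
        exact hjj (hsji _ _ ((horb _ (hsj j).1 (hsj j).2).2.2 _ h)).symm) (by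
      intro i
      obtain ⟨s, hs, hs1, hbs⟩ := (hb1 i i.2).2.2
      obtain ⟨j, hj⟩ := hsjs s hs hs1
      refine ⟨j, ?_⟩
      rw [← hbo' i i.2 s ((mL s).2 ⟨hs, hs1⟩) j hj]
      exact hbs)
    have hcard : Fintype.card (Iv B W ν) = (Iv B W ν).ncard := by
      rw [← Nat.card_eq_fintype_card, Nat.card_coe_set_eq]
    rw [hcard] at c1 c2
    refine ⟨c1, fun h => ?_⟩
    obtain ⟨r, ε, hr, hε, hb3, hb4⟩ := c2 h
    refine ⟨fun j => r j, ε, b, fun j j' h => hr (Subtype.ext h), fun j => (r j).2, hε, ?_, ?_, ?_⟩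
    · intro j s hs
      have hs' := (mL s).1 hs
      obtain ⟨j', hj'⟩ := hsjs s hs'.1 hs'.2
      rw [hbo' (r j) (r j).2 s hs j' hj', hb3 j j', hj']
      by_cases hjj : j' = j
      · rw [if_pos hjj, if_pos (by rw [hjj])]
      · rw [if_neg hjj, if_neg fun h => hjj (hsji _ _ h)]
    · intro χ hχ hχr
      obtain ⟨w, hw, hw2⟩ := hb4 ⟨χ, hχ⟩ fun j hj => hχr j (congrArg Subtype.val hj)
      simp only at hw2
      rw [hw2 j₀]
      refine ⟨hw, fun s hs => ?_⟩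
      have hs' := (mL s).1 hs
      obtain ⟨j', hj'⟩ := hsjs s hs'.1 hs'.2
      rw [hbo' χ hχ s hs j' hj', hw2 j']
    · intro χ hχ y hy hy1
      rw [(hb1 χ hχ).1 y hy hy1]
      rw [hLset, finsum_mem_coe_finset]
  -- the number of characters
  have hIn : ∀ ν ∈ lk (kW E₀ W), (Iv B W ν).ncard = n + m := by
    have hcount : (Ch B W).ncard = ∑ ν ∈ fk.toFinset, (Iv B W ν).ncard := by
      have hex : ∀ χ : G → ℂ, ∃ ν : V₀ → ℂ, χ ∈ Ch B W → ν ∈ lk (kW E₀ W) ∧ χ ∈ Iv B W ν := by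
        intro χ
        by_cases hχ : χ ∈ Ch B W
        · obtain ⟨ν, hν, hI⟩ := (vxm ℓ M hM h2 V₀ G E₀ hF B hB W hW χ hχ).2.1.2.2.2.1
          exact ⟨ν, fun _ => ⟨hν, hI⟩⟩
        · exact ⟨fun _ => 1, fun h => absurd h hχ⟩
      choose φ hφ using hex
      rw [Set.ncard_eq_toFinset_card (Ch B W) hCf,
        Finset.card_eq_sum_card_fiberwise (f := φ) (t := fk.toFinset)]
      · refine Finset.sum_congr rfl fun ν hν => ?_
        rw [Set.Finite.mem_toFinset] at hν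
        rw [← Set.ncard_coe_finset]
        congr 1
        ext χ
        rw [Finset.mem_coe, Finset.mem_filter, Set.Finite.mem_toFinset]
        constructor
        · rintro ⟨hχ, rfl⟩
          exact (hφ χ hχ).2
        · intro hχ
          refine ⟨hχ.1, ?_⟩
          obtain ⟨h3, h4⟩ := hφ χ hχ.1
          funext v
          rw [← (hnu _ h3 v).1, ← (hnu _ hν v).1]
          have hp : pr ℓ E₀ W v ∈ W := by
            by_contra hcon
            obtain ⟨s, hs, hs1⟩ := lk_sep W hcon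
            exact hs1 (hsw s hs v).2
          rw [← h4.2 _ hp, ← hχ.2 _ hp]
      · intro χ hχ
        rw [Finset.mem_coe, Set.Finite.mem_toFinset] at hχ
        rw [Finset.mem_coe, Set.Finite.mem_toFinset]
        exact (hφ χ hχ).1
    have htot : (Ch B W).ncard = ∑ ν ∈ fk.toFinset, (n + m) := by
      rw [Finset.sum_const, ← Set.ncard_eq_toFinset_card _ fk, ck, smul_eq_mul]
      refine Nat.eq_of_mul_eq_mul_left hn ?_
      rw [hCn, ← hmn]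
      ring
    rw [hcount] at htot
    have h3 := (Finset.sum_eq_sum_iff_of_le fun ν hν => (key ν ((fk.mem_toFinset).1 hν)).1).1 htot
    intro ν hν
    exact h3 ν ((fk.mem_toFinset).2 hν)
  intro ν hν
  have hI := hIn ν hν
  obtain ⟨r, ε, b, hr, hrI, hε, hb1, hb2, hb3⟩ := (key ν hν).2 hI
  have hIf : (Iv B W ν).Finite := hCf.subset fun χ hχ => hχ.1
  -- the values
  have hvN : ∀ χ ∈ Iv B W ν, (∀ j, χ ≠ r j) → ∀ y ∈ kW E₀ W, y ≠ 1 →
      vx B χ y = ((- b χ (sj j₀) : ℤ) : ℂ) := by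
    intro χ hχ hχr y hy hy1
    rw [hb3 χ hχ y hy hy1]
    have h3 : ∀ s ∈ L, (b χ s : ℂ) * s y = (b χ (sj j₀) : ℂ) * s y := fun s hs => by
      rw [(hb2 χ hχ hχr).2 s hs]
    rw [Finset.sum_congr rfl h3, ← Finset.mul_sum, hLs y hy hy1]
    push_cast
    ring
  have hvX : ∀ j, ∀ y ∈ kW E₀ W, y ≠ 1 → vx B (r j) y = (ε j : ℂ) * ∑ᶠ s ∈ orb E₀ W (sj j), s y := by
    intro j y hy hy1
    rw [hb3 _ (hrI j) y hy hy1, horbs, Finset.sum_filter, Finset.mul_sum]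
    refine Finset.sum_congr rfl fun s hs => ?_
    rw [hb1 j s hs]
    split_ifs <;> simp
  have hRf : (Set.range r).Finite := Set.finite_range r
  have hRc : (Set.range r).ncard = m := by
    rw [← Set.image_univ, Set.ncard_image_of_injective _ hr, Set.ncard_univ, Nat.card_fin]
  refine ⟨?_, ?_, ?_⟩
  · rw [hI, ← hmn]
    ring
  · intro hne
    have hm2 : 2 ≤ m := by
      rcases Nat.lt_or_ge m 2 with h | h
      · exfalso
        have : m = 1 := by omega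
        rw [this, one_mul] at hmn
        exact hne hmn
      · exact h
    -- the exceptional characters do not have constant values
    have hnc : ∀ j, ¬ ∀ y ∈ kW E₀ W, ∀ y' ∈ kW E₀ W, y ≠ 1 → y' ≠ 1 →
        vx B (r j) y = vx B (r j) y' := by
      intro j hconst
      obtain ⟨c, hc⟩ : ∃ c, ∀ y ∈ kW E₀ W, y ≠ 1 → vx B (r j) y = c := by
        by_cases h : ∃ y ∈ kW E₀ W, y ≠ 1
        · obtain ⟨y, hy, hy1⟩ := h
          exact ⟨vx B (r j) y, fun y' hy' hy'1 => hconst y' hy' y hy hy'1 hy1⟩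
        · exact ⟨0, fun y hy hy1 => absurd ⟨y, hy, hy1⟩ h⟩
      have hkf : ((kW E₀ W : Subgroup V₀) : Set V₀).Finite := Set.toFinite _
      have mK : ∀ y, y ∈ hkf.toFinset ↔ y ∈ kW E₀ W := fun y => by
        rw [Set.Finite.mem_toFinset, SetLike.mem_coe]
      have hfou := H52.fou (lk_finite W).toFinset hkf.toFinset ((mK 1).2 (one_mem _))
        (fun s hs => (((lk_finite W).mem_toFinset).1 hs).1)
        (fun s hs s' hs' => by
          rw [Set.Finite.mem_toFinset] at hs hs' ⊢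
          refine ⟨⟨?_, fun v w => ?_⟩, fun w hw => ?_⟩
          · show s 1 * starRingEnd ℂ (s' 1) = 1
            rw [hs.1.1, hs'.1.1, map_one, mul_one]
          · show s (v * w) * starRingEnd ℂ (s' (v * w)) = _
            rw [hs.1.2, hs'.1.2, map_mul]
            ring
          · show s w * starRingEnd ℂ (s' w) = 1
            rw [hs.2 w hw, hs'.2 w hw, map_one, mul_one])
        (fun s hs hs1 => by
          rw [Set.Finite.mem_toFinset] at hs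
          have h3 := hsum2 s hs hs1
          rw [finsum_mem_eq_finite_toFinset_sum _ hkf] at h3
          exact h3)
        (fun s => if s = (fun _ => 1) then - starRingEnd ℂ c else (b (r j) s : ℂ))
        (fun y hy hy1 => by
          rw [mK] at hy
          rw [← Finset.add_sum_erase _ _ hone, if_pos rfl, map_one, mul_one]
          have h3 : ∀ s ∈ L, (if s = (fun _ => 1) then - starRingEnd ℂ c else (b (r j) s : ℂ)) *
              starRingEnd ℂ (s y) = starRingEnd ℂ ((b (r j) s : ℂ) * s y) := by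
            intro s hs
            rw [if_neg ((mL s).1 hs).2, map_mul, map_intCast]
          rw [Finset.sum_congr rfl h3, ← map_sum, ← hb3 _ (hrI j) y hy hy1, hc y hy hy1]
          ring)
      obtain ⟨j', hj'⟩ : ∃ j' : Fin m, j' ≠ j := by
        haveI : Nontrivial (Fin m) := Fin.nontrivial_iff_two_le.2 hm2
        exact exists_ne j
      have h3 := (hfou _ (((lk_finite W).mem_toFinset).2 (hsj j).1)).trans
        (hfou _ (((lk_finite W).mem_toFinset).2 (hsj j').1)).symm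
      have hK0 : (hkf.toFinset.card : ℂ) ≠ 0 := by
        have : hkf.toFinset.card ≠ 0 := Finset.card_ne_zero_of_mem ((mK 1).2 (one_mem _))
        exact_mod_cast this
      have h4 := mul_left_cancel₀ hK0 h3
      rw [if_neg (hsj j).2, if_neg (hsj j').2] at h4
      have h5 : b (r j) (sj j) = b (r j) (sj j') := by exact_mod_cast h4
      rw [hb1 j _ ((mL _).2 (hsj j)), hb1 j _ ((mL _).2 (hsj j')), if_pos rfl,
        if_neg fun h => hj' (hsji _ _ h)] at h5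
      rcases hε j with h | h <;> rw [h] at h5 <;> norm_num at h5
    set e : (G → ℂ) → ℤ := fun χ => if h : ∃ j, χ = r j then ε h.choose else - b χ (sj j₀) with he
    set O : (G → ℂ) → Set (V₀ → ℂ) := fun χ =>
      if h : ∃ j, χ = r j then orb E₀ W (sj h.choose) else ∅ with hO
    have hch : ∀ j (h : ∃ j', r j = r j'), h.choose = j := fun j h => (hr h.choose_spec).symm
    have her : ∀ j, e (r j) = ε j := by
      intro j
      have h : ∃ j', r j = r j' := ⟨j, rfl⟩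
      rw [he]
      simp only
      rw [dif_pos h, hch j h]
    have hOr : ∀ j, O (r j) = orb E₀ W (sj j) := by
      intro j
      have h : ∃ j', r j = r j' := ⟨j, rfl⟩
      rw [hO]
      simp only
      rw [dif_pos h, hch j h]
    have hen : ∀ χ, (∀ j, χ ≠ r j) → e χ = - b χ (sj j₀) := by
      intro χ hχ
      rw [he]
      simp only
      rw [dif_neg]
      rintro ⟨j, hj⟩
      exact hχ j hj
    set N : Set (G → ℂ) := {χ | ∀ y ∈ kW E₀ W, ∀ y' ∈ kW E₀ W, y ≠ 1 → y' ≠ 1 →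
      vx B χ y = vx B χ y'} with hN
    have hNr : ∀ j, r j ∉ N := fun j h => hnc j h
    have hNn : ∀ χ ∈ Iv B W ν, χ ∈ N ↔ ∀ j, χ ≠ r j := by
      intro χ hχ
      constructor
      · rintro h j rfl
        exact hNr j h
      · intro h y hy y' hy' hy1 hy'1
        rw [hvN χ hχ h y hy hy1, hvN χ hχ h y' hy' hy'1]
    have hNx : ∀ χ ∈ Iv B W ν, χ ∉ N → ∃ j, χ = r j := by
      intro χ hχ h
      by_contra hcon
      push Not at hcon
      exact h ((hNn χ hχ).2 hcon)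
    refine ⟨e, O, ?_, ?_, ?_, ?_, ?_⟩
    · intro χ hχ
      by_cases h : ∃ j, χ = r j
      · obtain ⟨j, rfl⟩ := h
        rw [her]
        exact hε j
      · push Not at h
        rw [hen χ h]
        rcases (hb2 χ hχ h).1 with h' | h' <;> rw [h']
        · right
          rfl
        · left
          norm_num
    · intro χ hχ hχN y hy hy1
      have h := (hNn χ hχ).1 hχN
      rw [hvN χ hχ h y hy hy1, hen χ h]
    · intro χ hχ hχN
      obtain ⟨j, rfl⟩ := hNx χ hχ hχN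
      refine ⟨⟨sj j, (hsj j).1, (hsj j).2, hOr j⟩, ?_⟩
      intro y hy hy1
      rw [hvX j y hy hy1, her, hOr]
    · have h3 : {χ | χ ∈ Iv B W ν ∧ χ ∈ N} = Iv B W ν \ Set.range r := by
        ext χ
        constructor
        · rintro ⟨h4, h5⟩
          refine ⟨h4, ?_⟩
          rintro ⟨j, hj⟩
          exact (hNn χ h4).1 h5 j hj.symm
        · rintro ⟨h4, h5⟩
          exact ⟨h4, (hNn χ h4).2 fun j hj => h5 ⟨j, hj.symm⟩⟩
      rw [h3, Set.ncard_diff (by rintro _ ⟨j, rfl⟩; exact hrI j) hRf, hI, hRc]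
      omega
    · intro s hs hs1
      obtain ⟨j, hj⟩ := hsjs s hs hs1
      refine ⟨r j, ⟨hrI j, hNr j, by rw [hOr, hj]⟩, ?_⟩
      rintro χ ⟨hχ, hχN, hχO⟩
      obtain ⟨j', rfl⟩ := hNx χ hχ hχN
      rw [hOr, hj] at hχO
      rw [hsji _ _ hχO]
  · intro heq χ₀ hχ₀
    have hm1 : m = 1 := by
      rw [← heq] at hmn
      exact Nat.eq_of_mul_eq_mul_right hn (hmn.trans (one_mul _).symm)
    have hj0 : ∀ j : Fin m, j = j₀ := by
      intro j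
      apply Fin.ext
      have h3 := j.2
      show (j : ℕ) = 0
      omega
    have horbL : ∀ s ∈ lk W, s ≠ (fun _ => 1) → orb E₀ W s = orb E₀ W (sj j₀) := by
      intro s hs hs1
      obtain ⟨j, hj⟩ := hsjs s hs hs1
      rw [hj, hj0 j]
    have hosum : ∀ y ∈ kW E₀ W, y ≠ 1 → ∑ᶠ s ∈ orb E₀ W (sj j₀), s y = -1 := by
      intro y hy hy1
      rw [horbs, ← hLs y hy hy1]
      congr 1
      refine Finset.filter_true_of_mem fun s hs => ?_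
      have := (mL s).1 hs
      exact horbL s this.1 this.2
    -- the constant value
    have hval : ∀ χ ∈ Iv B W ν, ∃ β : ℤ, (β = 1 ∨ β = -1) ∧ ∀ y ∈ kW E₀ W, y ≠ 1 →
        vx B χ y = (β : ℂ) := by
      intro χ hχ
      by_cases h : ∃ j, χ = r j
      · obtain ⟨j, rfl⟩ := h
        refine ⟨- ε j, ?_, fun y hy hy1 => ?_⟩
        · rcases hε j with h' | h' <;> rw [h']
          · right
            rfl
          · left
            norm_num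
        · rw [hvX j y hy hy1, hj0 j, hosum y hy hy1]
          push_cast
          ring
      · push Not at h
        refine ⟨- b χ (sj j₀), ?_, fun y hy hy1 => hvN χ hχ h y hy hy1⟩
        rcases (hb2 χ hχ h).1 with h' | h' <;> rw [h']
        · right
          rfl
        · left
          norm_num
    have hval' : ∀ χ : G → ℂ, ∃ β : ℤ, χ ∈ Iv B W ν → (β = 1 ∨ β = -1) ∧ ∀ y ∈ kW E₀ W, y ≠ 1 →
        vx B χ y = (β : ℂ) := by
      intro χ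
      by_cases h : χ ∈ Iv B W ν
      · obtain ⟨β, hβ⟩ := hval χ h
        exact ⟨β, fun _ => hβ⟩
      · exact ⟨0, fun h' => absurd h' h⟩
    choose β hβ using hval'
    refine ⟨fun χ => if χ = χ₀ then - β χ else β χ, fun _ => orb E₀ W (sj j₀), ⟨?_, ?_, ?_, ?_, ?_⟩, ?_⟩
    · intro χ hχ
      show (if χ = χ₀ then - β χ else β χ) = 1 ∨ (if χ = χ₀ then - β χ else β χ) = -1
      rcases (hβ χ hχ).1 with h | h
      · by_cases h' : χ = χ₀
        · right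
          rw [if_pos h', h]
        · left
          rw [if_neg h', h]
      · by_cases h' : χ = χ₀
        · left
          rw [if_pos h', h]
          norm_num
        · right
          rw [if_neg h', h]
    · intro χ hχ hχN y hy hy1
      have h' : χ ≠ χ₀ := hχN
      rw [(hβ χ hχ).2 y hy hy1, if_neg h']
    · intro χ hχ hχN
      have h' : χ = χ₀ := not_not.1 hχN
      refine ⟨⟨sj j₀, (hsj j₀).1, (hsj j₀).2, rfl⟩, ?_⟩
      intro y hy hy1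
      rw [(hβ χ hχ).2 y hy hy1, if_pos h', hosum y hy hy1]
      push_cast
      ring
    · have h3 : {χ | χ ∈ Iv B W ν ∧ χ ∈ {χ | χ ≠ χ₀}} = Iv B W ν \ {χ₀} := by
        ext χ
        rfl
      rw [h3, Set.ncard_diff_singleton_of_mem hχ₀, hI, hm1]
      omega
    · intro s hs hs1
      refine ⟨χ₀, ⟨hχ₀, fun h => h rfl, (horbL s hs hs1).symm⟩, ?_⟩
      rintro χ ⟨-, h, -⟩
      exact not_not.1 h
    · intro χ hχ y hy y' hy' hy1 hy'1
      rw [(hβ χ hχ).2 y hy hy1, (hβ χ hχ).2 y' hy' hy'1]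

end Pool.Agent.PP.SE.H41
end
end -- Pool.Agent.Helper41_ASE.STR

section -- Pool.Agent.Helper65_ASE.RFA

/-!
# Squad ASE, row RFA: the fields `d1`, `d2` of `Rs`
-/

open scoped BigOperators

noncomputable section

namespace Pool.Agent.PP.SE.H65

open Pool.Agent.Helper51_AWC Pool.Agent.Helper79_WRA Pool.Agent.PP Pool.Agent.PP.KF
open Pool.Agent.PP.K9 Pool.Agent.PP.K9.H97 Pool.Agent.PP.H75 Pool.Agent.PP.T3 Pool.Agent.PP.SO
open Pool.Agent.PP.SD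

attribute [local instance] Ideal.Quotient.field

/-- linear characters of a group of finite exponent: complex conjugation -/
theorem rfa_conj {V₀ : Type} [CommGroup V₀] {ℓ : ℕ} (hℓ : 0 < ℓ) (hex : ∀ v : V₀, v ^ ℓ = 1)
    {s : V₀ → ℂ} (hs : s ∈ lin V₀) (x : V₀) : starRingEnd ℂ (s x) = s x⁻¹ := by
  have h1 : s x * s x⁻¹ = 1 := by
    rw [← hs.2, mul_inv_cancel, hs.1]
  have hpow : ∀ k : ℕ, s (x ^ k) = s x ^ k := by
    intro k
    induction k with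
    | zero => rw [pow_zero, pow_zero, hs.1]
    | succ k ih => rw [pow_succ, pow_succ, hs.2, ih]
  have h2 : s x ^ ℓ = 1 := by rw [← hpow, hex, hs.1]
  have h3 : ‖s x‖ = 1 := by
    have h4 : ‖s x‖ ^ ℓ = 1 := by rw [← norm_pow, h2, norm_one]
    exact (pow_eq_one_iff_of_nonneg (norm_nonneg _) hℓ.ne').1 h4
  have h5 : s x * starRingEnd ℂ (s x) = 1 := by
    rw [Complex.mul_conj, Complex.normSq_eq_norm_sq, h3]
    norm_num
  have h6 : s x ≠ 0 := by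
    intro h
    rw [h, zero_mul] at h1
    exact zero_ne_one h1
  exact mul_left_cancel₀ h6 (h5.trans h1.symm)

/-- RFA -/
theorem rfa (hGEA : GeaStmt) (hGEC : GecStmt) (hVXM : VxmStmt) (hCZB : CzbStmt) : RfaStmt := by
  intro ℓ _ M _ hM hℓ2 V₀ G _ _ _ _ E₀ hF B hB W hW N e O hC D hD
  classical
  have hp : ℓ.Prime := Fact.out
  obtain ⟨⟨hnd, hnl, _, hkc, hds, hsp, hWb, hWt⟩, hprW, hprm, hprw, hprk, _, _, _, _, _⟩ :=
    hGEA ℓ V₀ E₀ hF W hW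
  obtain ⟨_, _, hlf, _, _, _, _, hsv, hst, horb, _, _, _, _⟩ := hGEC ℓ V₀ E₀ hF W hW
  obtain ⟨_, _, _, _, _, _, hcz, _⟩ := hCZB ℓ M hM hℓ2 V₀ G E₀ hF B hB.toSb W
  have hn0 : nS E₀ W ≠ 0 := by
    intro h
    rw [h] at hnl
    exact hnl (dvd_zero ℓ)
  have hD0 : (B.D ⊤ : ℂ) ≠ 0 := by
    have hR : Rw E₀ (⊤ : Subgroup V₀) := by
      refine ⟨?_, ?_⟩
      · intro h
        apply hWt
        rw [eq_top_iff, h]
        exact bot_le
      · intro σ _ h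
        ext v
        exact h v trivial
    have := (hB.dg ⊤ hR).1
    exact_mod_cast this.ne'
  -- the elements of the orbits
  have hO : ∀ χ ∈ Ch B W, χ ∉ N → (∀ s ∈ O χ, s ∈ lk W) ∧ (O χ).ncard = nS E₀ W ∧
      (O χ).Finite := by
    intro χ hχ hN
    obtain ⟨_, ⟨_, _, _, ⟨ν, hν, hI⟩, _, _⟩, _⟩ := hVXM ℓ M hM hℓ2 V₀ G E₀ hF B hB W hW χ hχ
    obtain ⟨⟨s, hs, hs1, hO⟩, _⟩ := (hC.lv ν hν).vX χ hI hN
    have h1 : ∀ s' ∈ O χ, s' ∈ lk W := by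
      intro s' hs'
      rw [hO] at hs'
      obtain ⟨τ, hτ, rfl⟩ := hs'
      exact (hst s hs τ hτ).1
    refine ⟨h1, ?_, hlf.subset h1⟩
    rw [hO]
    exact (horb s hs hs1).1
  have hsx : ∀ s ∈ lk W, ∀ w ∈ W, ∀ x, s (w * x) = s x := by
    intro s hs w hw x
    rw [hs.1.2, hs.2 w hw, one_mul]
  have hvD : ∀ χ ∈ Ch B W, ∀ x, x ∉ W → D.D W χ x = vx B χ x := by
    intro χ hχ x hx
    obtain ⟨_, ⟨hb, _, _, ⟨ν, hν, hI⟩, _, _⟩, _⟩ := hVXM ℓ M hM hℓ2 V₀ G E₀ hF B hB W hW χ hχ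
    obtain ⟨hp1, hp2⟩ := hprW x
    have hxy : x = pr ℓ E₀ W x * (x * (pr ℓ E₀ W x)⁻¹) := by
      rw [mul_comm x, mul_inv_cancel_left]
    have hy1 : x * (pr ℓ E₀ W x)⁻¹ ≠ 1 := by
      intro h
      apply hx
      rw [hxy, h, mul_one]
      exact hp1
    have h1 : vx B χ x = nu B χ (pr ℓ E₀ W x) * vx B χ (x * (pr ℓ E₀ W x)⁻¹) := by
      conv_lhs => rw [hxy]
      exact hb _ hp1 _
    rw [hD.dD χ hχ x, h1]
    congr 1
    by_cases hN : χ ∈ N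
    · rw [if_pos hN, (hC.lv ν hν).vN χ hI hN _ hp2 hy1]
    · rw [if_neg hN, ((hC.lv ν hν).vX χ hI hN).2 _ hp2 hy1]
      congr 1
      refine finsum_mem_congr rfl fun s hs => ?_
      exact ((hsv s ((hO χ hχ hN).1 s hs) x).1).symm
  refine ⟨fun χ hχ x hx => ?_, fun χ hχ => ?_⟩
  · rw [hvD χ hχ x hx]
    unfold vx
    rw [mul_div_cancel₀ _ hD0]
  · obtain ⟨hχ1, hnu1, hw, _, _⟩ := hcz χ hχ
    obtain ⟨_, ⟨_, _, _, ⟨ν, hν, hI⟩, _, _⟩, _⟩ := hVXM ℓ M hM hℓ2 V₀ G E₀ hF B hB W hW χ hχ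
    have he : (e χ : ℂ) ≠ 0 := by
      rcases (hC.lv ν hν).sg χ hI with h | h <;> rw [h] <;> norm_num
    have hpr1 : pr ℓ E₀ W 1 = 1 := hprw 1 W.one_mem
    refine ⟨?_, fun x => ?_, fun w hwW x => ?_⟩
    · rw [hD.dD χ hχ 1, hpr1, hnu1, one_mul]
      by_cases hN : χ ∈ N
      · rw [if_pos hN]
        exact he
      · rw [if_neg hN]
        refine mul_ne_zero he ?_
        obtain ⟨h1, h2, h3⟩ := hO χ hχ hN
        have h4 : ∑ᶠ s ∈ O χ, s 1 = ∑ᶠ s ∈ O χ, (1 : ℂ) :=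
          finsum_mem_congr rfl fun s hs => (h1 s hs).1.1
        rw [h4, finsum_mem_eq_finite_toFinset_sum _ h3, Finset.sum_const,
          ← Set.ncard_eq_toFinset_card _ h3, h2, nsmul_eq_mul, mul_one]
        exact_mod_cast hn0
    · have hprinv : pr ℓ E₀ W x⁻¹ = (pr ℓ E₀ W x)⁻¹ := by
        have h := hprm x x⁻¹
        rw [mul_inv_cancel, hpr1] at h
        exact (inv_eq_of_mul_eq_one_right h.symm).symm
      rw [hD.dD χ hχ x, hD.dD χ hχ x⁻¹, map_mul, (hw _ (hprW x).1).1, hprinv]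
      congr 1
      by_cases hN : χ ∈ N
      · rw [if_pos hN, if_pos hN, map_intCast]
      · rw [if_neg hN, if_neg hN, map_mul, map_intCast]
        congr 1
        obtain ⟨h1, _, h3⟩ := hO χ hχ hN
        rw [finsum_mem_eq_finite_toFinset_sum _ h3, finsum_mem_eq_finite_toFinset_sum _ h3,
          map_sum]
        refine Finset.sum_congr rfl fun s hs => ?_
        exact rfa_conj hp.pos hF.ex (h1 s ((Set.Finite.mem_toFinset h3).1 hs)).1 x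
    · rw [hD.dD χ hχ (w * x), hD.dD χ hχ x, hprm, hprw w hwW,
        (hw w hwW).2.2 _ (hprW x).1, mul_assoc]
      congr 2
      by_cases hN : χ ∈ N
      · rw [if_pos hN, if_pos hN]
      · rw [if_neg hN, if_neg hN]
        congr 1
        refine finsum_mem_congr rfl fun s hs => ?_
        exact hsx s ((hO χ hχ hN).1 s hs) w hwW x

end Pool.Agent.PP.SE.H65
end
end -- Pool.Agent.Helper65_ASE.RFA

section -- Pool.Agent.Helper95_ASE.RFC

/-!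
# Squad ASE, row RFC: the field `d3`
-/

open scoped BigOperators

noncomputable section

namespace Pool.Agent.PP.SE.H95

open Pool.Agent.Helper51_AWC Pool.Agent.Helper79_WRA Pool.Agent.PP Pool.Agent.PP.KF
open Pool.Agent.PP.K9 Pool.Agent.PP.K9.H97 Pool.Agent.PP.H75 Pool.Agent.PP.T3 Pool.Agent.PP.SO
open Pool.Agent.PP.SD

attribute [local instance] Ideal.Quotient.field

/-- sums over an orbit -/
theorem orb_sum {V₀ : Type} [CommGroup V₀] [Finite V₀] {E₀ : Subgroup (MulAut V₀)}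
    {W : Subgroup V₀} {s : V₀ → ℂ} (hs : (orb E₀ W s).ncard = nS E₀ W) (c : V₀) :
    ∑ᶠ s' ∈ orb E₀ W s, s' c = ∑ᶠ τ : St E₀ W, s ((τ : MulAut V₀) c) := by
  have hr : orb E₀ W s = Set.range (fun (τ : St E₀ W) (v : V₀) => s ((τ : MulAut V₀) v)) := by
    ext s'
    constructor
    · rintro ⟨τ, hτ, rfl⟩
      exact ⟨⟨τ, hτ⟩, rfl⟩
    · rintro ⟨τ, rfl⟩
      exact ⟨τ.1, τ.2, rfl⟩
  have hfin : Finite (MulAut V₀) :=
    Finite.of_injective (fun σ : MulAut V₀ => (σ : V₀ → V₀)) (fun σ τ h => by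
      ext v
      exact congrFun h v)
  have hinj : Function.Injective (fun (τ : St E₀ W) (v : V₀) => s ((τ : MulAut V₀) v)) := by
    have h1 := Set.injOn_of_ncard_image_eq (s := (Set.univ : Set (St E₀ W)))
      (f := fun (τ : St E₀ W) (v : V₀) => s ((τ : MulAut V₀) v)) (by
        rw [Set.image_univ, ← hr, hs, Set.ncard_univ]
        rfl) Set.finite_univ
    exact Set.injOn_univ.1 h1
  rw [hr, finsum_mem_range hinj]

/-- RFC: the field `d3`. -/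
theorem rfc (val : ValStmt) (vxm : VxmStmt) (gea : GeaStmt) (gec : GecStmt) : RfcStmt := by
  classical
  intro ℓ hℓ M _ hM h2 V₀ G _ _ _ _ E₀ hF B hB W hW N e O hC D hD χ hχ c x
  have hfin : Finite (MulAut V₀) :=
    Finite.of_injective (fun σ : MulAut V₀ => (σ : V₀ → V₀)) (fun σ τ h => by
      ext v
      exact congrFun h v)
  have := Fintype.ofFinite (St E₀ W)
  obtain ⟨-, g2, g3, -, -, g6, -⟩ := gea ℓ V₀ E₀ hF W hW
  obtain ⟨-, -, -, -, -, -, -, -, c9, c10, -⟩ := gec ℓ V₀ E₀ hF W hW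
  obtain ⟨-, -, -, v4, v5⟩ := val ℓ M hM h2 V₀ G E₀ hF B hB W hW N e O hC D hD
  obtain ⟨-, ⟨-, -, -, ⟨ν, hν, hI⟩, m5, -⟩, -⟩ := vxm ℓ M hM h2 V₀ G E₀ hF B hB W hW χ hχ
  have hnu : ∀ w ∈ W, ∀ w' : V₀, nu B χ (w * w') = nu B χ w * nu B χ w' := by
    intro w hw w'
    unfold nu
    rw [map_mul, m5 w hw]
    unfold nu
    ring
  have hpr : ∀ τ : St E₀ W, pr ℓ E₀ W (x * (τ : MulAut V₀) c) =
      pr ℓ E₀ W x * pr ℓ E₀ W c := by
    intro τ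
    rw [g3, g6 τ.1 τ.2]
  have hn : Fintype.card (St E₀ W) = nS E₀ W := (Nat.card_eq_fintype_card).symm
  have hfs : ∀ f : St E₀ W → ℂ, ∑ᶠ τ, f τ = ∑ τ, f τ := fun f => finsum_eq_sum_of_fintype f
  by_cases hN : χ ∈ N
  · rw [(v4 χ hχ hN).2 c, hD.dD χ hχ, if_pos hN, hfs]
    have h1 : ∀ τ : St E₀ W, D.D W χ (x * (τ : MulAut V₀) c) =
        nu B χ (pr ℓ E₀ W x) * nu B χ (pr ℓ E₀ W c) * e χ := by
      intro τ
      rw [hD.dD χ hχ, if_pos hN, hpr, hnu _ (g2 x).1]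
    rw [Finset.sum_congr rfl fun τ _ => h1 τ, Finset.sum_const, Finset.card_univ, hn,
      nsmul_eq_mul]
    ring
  · obtain ⟨⟨s₀, hs₀, hs1, hO⟩, -⟩ := (hC.lv ν hν).vX χ hI hN
    obtain ⟨o1, -, o3⟩ := c10 s₀ hs₀ hs1
    have hOf : (O χ).Finite := by
      rw [hO]
      apply Set.finite_of_ncard_ne_zero
      rw [o1]
      have := hW.2
      omega
    have hlin : ∀ s ∈ O χ, s ∈ lin V₀ ∧ ∑ᶠ s' ∈ O χ, s' c =
        ∑ τ : St E₀ W, s ((τ : MulAut V₀) c) := by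
      intro s hs
      rw [hO] at hs
      have h3 := o3 s hs
      refine ⟨?_, ?_⟩
      · obtain ⟨τ, hτ, rfl⟩ := hs
        exact (c9 s₀ hs₀ τ hτ).1.1
      · rw [hO, ← h3, orb_sum (by rw [h3, o1]), hfs]
    rw [(v5 χ hχ hN).2 c, hD.dD χ hχ, if_neg hN, hfs]
    have h1 : ∀ τ : St E₀ W, D.D W χ (x * (τ : MulAut V₀) c) =
        nu B χ (pr ℓ E₀ W x) * nu B χ (pr ℓ E₀ W c) * e χ *
          ∑ s ∈ hOf.toFinset, s x * s ((τ : MulAut V₀) c) := by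
      intro τ
      rw [hD.dD χ hχ, if_neg hN, hpr, hnu _ (g2 x).1,
        finsum_mem_eq_finite_toFinset_sum _ hOf]
      have h3 : ∑ s ∈ hOf.toFinset, s (x * (τ : MulAut V₀) c) =
          ∑ s ∈ hOf.toFinset, s x * s ((τ : MulAut V₀) c) :=
        Finset.sum_congr rfl fun s hs => (hlin s (hOf.mem_toFinset.1 hs)).1.2 _ _
      rw [h3]
      ring
    rw [Finset.sum_congr rfl fun τ _ => h1 τ, ← Finset.mul_sum, Finset.sum_comm]
    have h4 : ∑ s ∈ hOf.toFinset, ∑ τ : St E₀ W, s x * s ((τ : MulAut V₀) c) =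
        (∑ᶠ s ∈ O χ, s x) * ∑ᶠ s ∈ O χ, s c := by
      rw [finsum_mem_eq_finite_toFinset_sum (fun s : V₀ → ℂ => s x) hOf, Finset.sum_mul]
      refine Finset.sum_congr rfl fun s hs => ?_
      rw [← Finset.mul_sum, (hlin s (hOf.mem_toFinset.1 hs)).2]
    rw [h4]
    ring

end Pool.Agent.PP.SE.H95
end
end -- Pool.Agent.Helper95_ASE.RFC
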