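import Pool.Agent.Helper12_AWB.B224

/-!
# Merged copies (generated) of the modules

* `Pool.Agent.Helper3_ASO.MUL`
* `Pool.Agent.Helper79_ASO.WTHA`
* `Pool.Agent.Helper79_ASO.WTHB`
* `Pool.Agent.Helper44_ASE.RFD`
-/

set_option autoImplicit false

section -- Pool.Agent.Helper3_ASO.MUL

/-!
# Squad ASO, row MUL: products of the elements `f_c`
-/

open scoped BigOperators

noncomputable section

namespace Pool.Agent.PP.SO.H3

open Pool.Agent.Helper51_AWC Pool.Agent.Helper79_WRA Pool.Agent.PP Pool.Agent.PP.KF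
open Pool.Agent.PP.K9 Pool.Agent.PP.K9.H97 Pool.Agent.PP.H75 Pool.Agent.PP.T3

attribute [local instance] Ideal.Quotient.field

section fcs

variable {V₀ G : Type} [CommGroup V₀] [Group G] [Finite G] {M : Ideal (integralClosure ℤ ℂ)}
  [M.IsMaximal]

omit [Finite G] in
theorem C_anti {F : Type} (B : Bk F V₀ G) {W W' : Subgroup V₀} (h : W ≤ W') : B.C W' ≤ B.C W := by
  intro g hg
  rw [Bk.C, Subgroup.mem_centralizer_iff] at hg ⊢
  intro x hx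
  apply hg
  exact Subgroup.map_mono h hx

omit [Finite G] in
theorem i_mem {F : Type} (B : Bk F V₀ G) (W : Subgroup V₀) (c : V₀) : B.i c ∈ B.C W := by
  rw [Bk.C, Subgroup.mem_centralizer_iff]
  rintro x ⟨w, _, rfl⟩
  rw [← map_mul, ← map_mul, mul_comm]

omit [Finite G] in
theorem bh_supp (B : Bk (FF M) V₀ G) (W : Subgroup V₀) {g : G} (hg : g ∉ B.C W) :
    bh B W g = 0 := by
  unfold bh PP.ext0
  rw [dif_neg hg]

omit [Finite G] in
theorem fc_supp (B : Bk (FF M) V₀ G) (W : Subgroup V₀) (c : V₀) :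
    ∀ g, g ∉ B.C W → fc B W c g = 0 := by
  intro g hg
  unfold fc
  rw [finsum_eq_zero_of_forall_eq_zero, mul_zero]
  intro z
  apply bh_supp
  intro h
  apply hg
  have h1 : (B.i c)⁻¹ * ((z : G)⁻¹ * g * z) ∈ B.C W := C_anti B le_sup_left h
  have h2 : (z : G)⁻¹ * g * z ∈ B.C W := by
    have := (B.C W).mul_mem (i_mem B W c) h1
    rwa [mul_inv_cancel_left] at this
  have h3 := (B.C W).mul_mem ((B.C W).mul_mem z.2 h2) ((B.C W).inv_mem z.2)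
  have e : (z : G) * ((z : G)⁻¹ * g * z) * (z : G)⁻¹ = g := by group
  rwa [e] at h3

omit [Finite G] in
theorem fc_cl (B : Bk (FF M) V₀ G) (W : Subgroup V₀) (c : V₀) (y : B.C W) (g : G) :
    fc B W c ((y : G) * g * (y : G)⁻¹) = fc B W c g := by
  unfold fc
  congr 1
  rw [← finsum_comp_equiv (Equiv.mulLeft y)]
  apply finsum_congr
  intro z
  congr 1
  rw [Equiv.coe_mulLeft, Subgroup.coe_mul]
  group

theorem cv_eq (B : Bk (FF M) V₀ G) (W : Subgroup V₀) [Fintype (B.C W)] (c : V₀) (χ : G → ℂ) :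
    cv (fc B W c) χ = H50.om (fun t : B.C W => fc B W c t) (fun t : B.C W => χ t) := by
  unfold cv H50.om
  rw [sum_sub (B.C W) _ (fun x hx => by rw [fc_supp B W c x hx, zero_mul]),
    finsum_eq_sum_of_fintype]
  rfl

end fcs

theorem mul (nsv : NsvStmt) : MulStmt := by
  intro ℓ _ M _ hM hℓ V₀ G _ _ _ _ E₀ hFr B hSy W hW c d
  classical
  have hfin : Fintype (B.C W) := Fintype.ofFinite _
  obtain ⟨h1, h2, h3, _⟩ := nsv ℓ M hM hℓ V₀ G E₀ hFr B hSy W hW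
  have hp : Nat.Prime ℓ := Fact.out
  have hU : B.U W ≠ 0 := by
    obtain ⟨q, hq, hUq⟩ := hSy.un W hW
    intro h0
    rw [h0] at hUq
    have hl : (ℓ : ℚ) ≠ 0 := by exact_mod_cast hp.ne_zero
    have hq1 : q = -((ℓ : ℚ)⁻¹) := by
      field_simp
      linarith
    have hden : q.den = ℓ := by
      rw [hq1, Rat.neg_den, Rat.inv_natCast_den_of_pos hp.pos]
    exact hq (hden ▸ dvd_refl _)
  have hux : ∀ y, (ux B.U W y : ℚ) ≠ 0 := by
    intro y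
    unfold ux
    split_ifs
    · exact one_ne_zero
    · exact hU
  suffices key : mulF (fc B W c) (fc B W d) = fun x =>
      ((ux B.U W c * ux B.U W d / ux B.U W (c * d) : ℚ) : ℂ) * fc B W (c * d) x by
    intro x
    exact congrFun key x
  apply eq_of_res (N := B.C W) (mulF_supp (B.C W) (fc_supp B W c) (fc_supp B W d))
    (fun x hx => by rw [fc_supp B W (c * d) x hx, mul_zero])
  rw [mulF_res (B.C W) _ (fc_supp B W c)]
  set κ : ℂ := ((ux B.U W c * ux B.U W d / ux B.U W (c * d) : ℚ) : ℂ) with hκ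
  have hcl : ∀ (v : V₀) (x y : B.C W), (fun t : B.C W => fc B W v t) (y * x * y⁻¹) =
      (fun t : B.C W => fc B W v t) x := fun v x y => fc_cl B W v y x
  have hm : mulF (fun t : B.C W => fc B W c t) (fun t : B.C W => fc B W d t) =
      fun y => ∑ h, (fun t : B.C W => fc B W c t) h * (fun t : B.C W => fc B W d t) (h⁻¹ * y) := by
    funext y
    unfold mulF
    rw [finsum_eq_sum_of_fintype]
  rw [hm, ← sub_eq_zero]
  apply irr_complete
  · intro g h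
    rw [Pi.sub_apply, Pi.sub_apply]
    congr 1
    · rw [← Equiv.sum_comp (MulAut.conj h).toEquiv]
      refine Finset.sum_congr rfl fun t _ => ?_
      have e1 : (MulAut.conj h).toEquiv t = h * t * h⁻¹ := rfl
      rw [e1]
      congr 1
      · exact hcl c t h
      · have e2 : (h * t * h⁻¹)⁻¹ * (h * g * h⁻¹) = h * (t⁻¹ * g) * h⁻¹ := by group
        rw [e2]
        exact hcl d (t⁻¹ * g) h
    · change κ * fc B W (c * d) ((h * g * h⁻¹ : B.C W) : G) = κ * fc B W (c * d) (g : G)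
      congr 1
      exact hcl (c * d) g h
  · intro χ' hχ'
    set χ : G → ℂ := H75.ext0 (B.C W) χ' with hχ
    have hχs : ∀ x, x ∉ B.C W → χ x = 0 := H75.ext0_supp _ _
    have hχr : (fun t : B.C W => χ t) = χ' := funext (H75.ext0_apply _ _)
    have hχi : (fun t : B.C W => χ t) ∈ Irr (B.C W) := by rw [hχr]; exact hχ'
    have hne : χ' 1 ≠ 0 := irr_one_ne hχ'
    have hcv : ∀ v, cv (fc B W v) χ = H50.om (fun t : B.C W => fc B W v t) χ' := by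
      intro v
      rw [cv_eq, hχr]
    have hmul := H50.om_mul (a := fun t : B.C W => fc B W c t)
      (b := fun t : B.C W => fc B W d t) (hcl d) hχ'
    have hval : cv (fc B W c) χ * cv (fc B W d) χ = κ * cv (fc B W (c * d)) χ := by
      by_cases hCh : χ ∈ Ch B W
      · rw [h2 χ hCh, h2 χ hCh, h2 χ hCh]
        have hlin := (h1.mapsTo hCh).2 c d
        rw [hlin, hκ]
        have h4 : ((ux B.U W (c * d) : ℚ) : ℂ) ≠ 0 := by exact_mod_cast hux (c * d)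
        push_cast
        field_simp
      · rw [h3 χ hχs hχi hCh c, h3 χ hχs hχi hCh (c * d), zero_mul, mul_zero]
    have hom : ∀ a : B.C W → ℂ, ∑ t, a t * χ' t = H50.om a χ' * χ' 1 := by
      intro a
      unfold H50.om
      rw [div_mul_cancel₀ _ hne]
    simp only [Pi.sub_apply, sub_mul, Finset.sum_sub_distrib]
    rw [sub_eq_zero]
    have e1 : ∑ x : B.C W, (∑ h : B.C W, fc B W c (h : G) *
          fc B W d ((h⁻¹ * x : B.C W) : G)) * χ' x =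
        H50.om (fun t : B.C W => fc B W c t) χ' * H50.om (fun t : B.C W => fc B W d t) χ' *
          χ' 1 := by
      rw [← hmul, ← hom]
    have e2 : ∑ x : B.C W, κ * fc B W (c * d) (x : G) * χ' x =
        κ * H50.om (fun t : B.C W => fc B W (c * d) t) χ' * χ' 1 := by
      rw [mul_assoc, ← hom, Finset.mul_sum]
      refine Finset.sum_congr rfl fun t _ => ?_
      rw [mul_assoc]
    rw [e1, e2, ← hcv, ← hcv, ← hcv, hval]

end Pool.Agent.PP.SO.H3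
end
end -- Pool.Agent.Helper3_ASO.MUL

section -- Pool.Agent.Helper79_ASO.WTHA

/-!
# Squad ASO, row WTH, part A: tools
-/

open scoped BigOperators

set_option autoImplicit false
set_option linter.unusedSectionVars false

noncomputable section

namespace Pool.Agent.PP.SO.H79

open Pool.Agent.Helper51_AWC Pool.Agent.Helper79_WRA Pool.Agent.PP Pool.Agent.PP.KF
open Pool.Agent.PP.K9 Pool.Agent.PP.K9.H97 Pool.Agent.PP.H75 Pool.Agent.PP.T3

attribute [local instance] Ideal.Quotient.field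

/-! ### Characters -/

section chars

variable {H : Type} [Group H] [Fintype H]

/-- expansion of a class function -/
theorem cf_expand (f : H → ℂ) (hf : ∀ g h, f (h * g * h⁻¹) = f g) (S : Finset (H → ℂ))
    (hS : ∀ χ ∈ S, χ ∈ Irr H) (h0 : ∀ χ ∈ Irr H, χ ∉ S → ∑ g, f g * χ g = 0) (g : H) :
    f g = ∑ χ ∈ S, ((Fintype.card H : ℂ)⁻¹ * ∑ t, f t * χ t) * χ g⁻¹ := by
  classical
  have hc : (Fintype.card H : ℂ) ≠ 0 := by exact_mod_cast Fintype.card_ne_zero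
  have h1 : (f - fun g => ∑ χ ∈ S, ((Fintype.card H : ℂ)⁻¹ * ∑ t, f t * χ t) * χ g⁻¹) = 0 := by
    apply irr_complete
    · intro g h
      rw [Pi.sub_apply, Pi.sub_apply, hf]
      congr 1
      refine Finset.sum_congr rfl fun χ hχ => ?_
      have e : (h * g * h⁻¹)⁻¹ = h * g⁻¹ * h⁻¹ := by group
      rw [e, irr_conj (hS χ hχ)]
    · intro ψ hψ
      simp only [Pi.sub_apply, sub_mul, Finset.sum_sub_distrib]
      have h2 : ∑ x : H, (∑ χ ∈ S, ((Fintype.card H : ℂ)⁻¹ * ∑ t, f t * χ t) * χ x⁻¹) * ψ x =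
          ∑ χ ∈ S, ((Fintype.card H : ℂ)⁻¹ * ∑ t, f t * χ t) * ∑ x, ψ x * χ x⁻¹ := by
        simp only [Finset.sum_mul, Finset.mul_sum]
        rw [Finset.sum_comm]
        refine Finset.sum_congr rfl fun χ _ => Finset.sum_congr rfl fun x _ => ?_
        refine Finset.sum_congr rfl fun t _ => ?_
        ring
      rw [h2]
      by_cases hψS : ψ ∈ S
      · rw [Finset.sum_eq_single_of_mem ψ hψS, irr_orth_self hψ]
        · field_simp
          ring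
        · intro χ hχ hne
          rw [irr_orth_ne hψ (hS χ hχ) (Ne.symm hne), mul_zero]
      · rw [h0 ψ hψ hψS, Finset.sum_eq_zero, sub_zero]
        intro χ hχ
        rw [irr_orth_ne hψ (hS χ hχ) (fun h => hψS (h ▸ hχ)), mul_zero]
  have h2 := congrFun h1 g
  rw [Pi.sub_apply, Pi.zero_apply] at h2
  exact sub_eq_zero.1 h2

/-- the sum over the conjugates -/
theorem conj_sum {χ : H → ℂ} (hχ : χ ∈ Irr H) (a b : H) :
    ∑ z : H, χ (z⁻¹ * a * z * b) = Fintype.card H * (χ a * χ b / χ 1) := by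
  have hne := irr_one_ne hχ
  have hcj : ∀ z, χ (z⁻¹ * a * z) = χ a := by
    intro z
    have := irr_conj hχ a z⁻¹
    rwa [inv_inv] at this
  obtain ⟨n, ρ, hρ, rfl⟩ := hχ
  obtain ⟨c, hc⟩ := schur_scalar ρ (∑ z : H, ρ (z⁻¹ * a * z)) (by
    intro g
    have key : (∑ z : H, ρ (z⁻¹ * a * z)) * ρ g = ρ g * ∑ z : H, ρ (z⁻¹ * a * z) := by
      rw [Finset.sum_mul, Finset.mul_sum, ← Equiv.sum_comp (Equiv.mulRight g⁻¹)]
      refine Finset.sum_congr rfl fun z _ => ?_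
      rw [← map_mul, ← map_mul]
      congr 1
      simp only [Equiv.coe_mulRight]
      group
    exact key)
  have h1 : ∑ z : H, ρ.character (z⁻¹ * a * z * b) = c * ρ.character b := by
    have h2 : ∑ z : H, ρ.character (z⁻¹ * a * z * b) =
        LinearMap.trace ℂ _ ((∑ z : H, ρ (z⁻¹ * a * z)) * ρ b) := by
      rw [Finset.sum_mul, map_sum]
      refine Finset.sum_congr rfl fun z _ => ?_
      rw [← map_mul]
      rfl
    rw [h2, hc, smul_mul_assoc, map_smul, smul_eq_mul]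
    rfl
  have h3 : (Fintype.card H : ℂ) * ρ.character a = c * ρ.character 1 := by
    have h4 := congrArg (LinearMap.trace ℂ _) hc
    rw [map_sum, map_smul, smul_eq_mul] at h4
    have h5 : ∑ z : H, LinearMap.trace ℂ (Fin n → ℂ) (ρ (z⁻¹ * a * z)) =
        ∑ z : H, ρ.character a := Finset.sum_congr rfl fun z _ => hcj z
    rw [h5, Finset.sum_const, Finset.card_univ, nsmul_eq_mul] at h4
    rw [h4]
    congr 1
    show LinearMap.trace ℂ _ _ = LinearMap.trace ℂ _ (ρ 1)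
    rw [map_one]
    rfl
  rw [h1]
  have h6 : c = (Fintype.card H : ℂ) * ρ.character a / ρ.character 1 := by
    rw [h3, mul_div_assoc, div_self hne, mul_one]
  rw [h6]
  field_simp

end chars

/-! ### Linear characters -/

section linear

variable {V₀ : Type} [CommGroup V₀] [Finite V₀]

/-- the linear characters as homomorphisms -/
theorem lin_pow {f : V₀ → ℂ} (hf : f ∈ lin V₀) (v : V₀) (n : ℕ) : f (v ^ n) = f v ^ n := by
  induction n with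
  | zero => rw [pow_zero, pow_zero]; exact hf.1
  | succ n ih => rw [pow_succ, pow_succ, hf.2, ih]

theorem lin_inv {f : V₀ → ℂ} (hf : f ∈ lin V₀) (v : V₀) : f v * f v⁻¹ = 1 := by
  rw [← hf.2, mul_inv_cancel, hf.1]

theorem lin_ne {f : V₀ → ℂ} (hf : f ∈ lin V₀) (v : V₀) : f v ≠ 0 := by
  intro h
  have := lin_inv hf v
  rw [h, zero_mul] at this
  exact zero_ne_one this

theorem lin_star {f : V₀ → ℂ} (hf : f ∈ lin V₀) (v : V₀) : starRingEnd ℂ (f v) = f v⁻¹ := by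
  have h1 : f v ^ Nat.card V₀ = 1 := by rw [← lin_pow hf, pow_card_eq_one', hf.1]
  have h2 : ‖f v‖ = 1 := Complex.norm_eq_one_of_pow_eq_one h1 Nat.card_pos.ne'
  have h3 : f v * starRingEnd ℂ (f v) = 1 := by
    rw [Complex.mul_conj, Complex.normSq_eq_norm_sq, h2]
    norm_num
  have h4 := lin_inv hf v
  exact mul_left_cancel₀ (lin_ne hf v) (h3.trans h4.symm)

/-- the group of the linear characters -/
def linE : lin V₀ ≃ (V₀ →* ℂˣ) where
  toFun f := MonoidHom.toHomUnits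
    { toFun := f.1
      map_one' := f.2.1
      map_mul' := f.2.2 }
  invFun φ := ⟨fun v => (φ v : ℂ), by simp [lin]⟩
  left_inv f := by
    apply Subtype.ext
    funext v
    rfl
  right_inv φ := by
    ext v
    rfl

instance linFin : Finite (lin V₀) := Finite.of_equiv _ (linE (V₀ := V₀)).symm

open Classical in
/-- orthogonality -/
theorem lin_sum [Fintype (lin V₀)] (v : V₀) :
    ∑ f : lin V₀, f.1 v = if v = 1 then (Nat.card V₀ : ℂ) else 0 := by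
  classical
  have hcard : Fintype.card (lin V₀) = Nat.card V₀ := by
    rw [← Nat.card_eq_fintype_card, Nat.card_congr (linE (V₀ := V₀))]
    exact CommGroup.card_monoidHom_of_hasEnoughRootsOfUnity V₀ ℂ
  by_cases hv : v = 1
  · rw [if_pos hv, hv, Finset.sum_congr rfl fun f _ => f.2.1, Finset.sum_const, Finset.card_univ,
      hcard, nsmul_eq_mul, mul_one]
  · rw [if_neg hv]
    obtain ⟨φ, hφ⟩ := CommGroup.exists_apply_ne_one_of_hasEnoughRootsOfUnity V₀ ℂ hv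
    obtain ⟨f₀, hf₀⟩ : ∃ f₀ : lin V₀, f₀.1 v ≠ 1 := by
      refine ⟨linE.symm φ, ?_⟩
      intro h
      apply hφ
      ext
      exact h
    have hmem : ∀ f : lin V₀, (fun v => f₀.1 v * f.1 v) ∈ lin V₀ := by
      intro f
      refine ⟨?_, fun v w => ?_⟩
      · show f₀.1 1 * f.1 1 = 1
        rw [f₀.2.1, f.2.1, one_mul]
      · show f₀.1 (v * w) * f.1 (v * w) = f₀.1 v * f.1 v * (f₀.1 w * f.1 w)
        rw [f₀.2.2, f.2.2]
        ring
    have hbij : Function.Bijective (fun f : lin V₀ => (⟨_, hmem f⟩ : lin V₀)) := by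
      rw [← Finite.injective_iff_bijective]
      intro f f' h
      apply Subtype.ext
      funext v
      have := congrFun (congrArg Subtype.val h) v
      exact mul_left_cancel₀ (lin_ne f₀.2 v) this
    have h1 := hbij.sum_comp (fun f : lin V₀ => f.1 v)
    simp only [← Finset.mul_sum] at h1
    have h2 : (f₀.1 v - 1) * ∑ f : lin V₀, f.1 v = 0 := by
      rw [sub_mul, h1, one_mul, sub_self]
    rcases mul_eq_zero.1 h2 with h | h
    · exact absurd (sub_eq_zero.1 h) hf₀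
    · exact h

end linear

/-! ### Sums over quadruples -/

section sums

variable {G : Type} [Group G]

/-- `x ↦ z⁻¹ x z'` -/
def cE (z z' : G) : G ≃ G := (Equiv.mulLeft z⁻¹).trans (Equiv.mulRight z')

theorem cE_apply (z z' x : G) : cE z z' x = z⁻¹ * x * z' := rfl

/-- conjugation of the quadruples `(x, X, u, w)` -/
def E4 (z z' : G) : (G × G × G × G) ≃ (G × G × G × G) :=
  Equiv.prodCongr (cE z z) (Equiv.prodCongr (cE z z) (Equiv.prodCongr (cE z z') (cE z z')))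

theorem E4_apply (z z' x X u w : G) : E4 z z' (x, X, u, w) =
    (z⁻¹ * x * z, z⁻¹ * X * z, z⁻¹ * u * z', z⁻¹ * w * z') := rfl

/-- conjugation of the pairs `(X, u)` -/
def E2 (z z' : G) : (G × G) ≃ (G × G) := Equiv.prodCongr (cE z z) (cE z z')

theorem E2_apply (z z' X u : G) : E2 z z' (X, u) = (z⁻¹ * X * z, z⁻¹ * u * z') := rfl

/-- the substitution `(x, X, u, w) ↦ (s, x, y, u)` -/
def R4 (c : G) : (G × G × G × G) ≃ (G × G × G × G) where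
  toFun a := (c⁻¹ * (a.1 * a.2.1⁻¹), a.1, a.2.2.1 * a.2.2.2⁻¹, a.2.2.1)
  invFun a := (a.2.1, (c * a.1)⁻¹ * a.2.1, a.2.2.2, a.2.2.1⁻¹ * a.2.2.2)
  left_inv a := by
    refine Prod.ext rfl (Prod.ext ?_ (Prod.ext rfl ?_))
    · show (c * (c⁻¹ * (a.1 * a.2.1⁻¹)))⁻¹ * a.1 = a.2.1
      group
    · show (a.2.2.1 * a.2.2.2⁻¹)⁻¹ * a.2.2.1 = a.2.2.2
      group
  right_inv a := by
    refine Prod.ext ?_ (Prod.ext rfl (Prod.ext ?_ rfl))
    · show c⁻¹ * (a.2.1 * ((c * a.1)⁻¹ * a.2.1)⁻¹) = a.1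
      group
    · show a.2.2.2 * (a.2.2.1⁻¹ * a.2.2.2)⁻¹ = a.2.2.1
      group

variable [Fintype G]

open Classical in
theorem xx_count (g h : G) (p : G → G → G → Prop) :
    (({z : XX g h | p z.1.1 z.1.2.1 z.1.2.2} : Set (XX g h)).ncard : ℂ) =
      ∑ v : G × G × G, if v.1 * v.2.1 * v.1⁻¹ * v.2.1⁻¹ = g * (v.2.2 * h * v.2.2⁻¹) ∧
        p v.1 v.2.1 v.2.2 then (1 : ℂ) else 0 := by
  have h1 : ({z : XX g h | p z.1.1 z.1.2.1 z.1.2.2} : Set (XX g h)).ncard =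
      (Finset.univ.filter fun v : G × G × G =>
        v.1 * v.2.1 * v.1⁻¹ * v.2.1⁻¹ = g * (v.2.2 * h * v.2.2⁻¹) ∧ p v.1 v.2.1 v.2.2).card := by
    have hinj : Function.Injective (fun z : XX g h => (z.1 : G × G × G)) := fun a b h =>
      Subtype.ext h
    refine (Set.ncard_image_of_injective _ hinj).symm.trans ?_
    rw [← Set.ncard_coe_finset]
    congr 1
    ext v
    simp only [Finset.coe_filter, Finset.mem_univ, true_and]
    constructor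
    · rintro ⟨z, hz, rfl⟩
      exact ⟨z.2, hz⟩
    · rintro ⟨h1, h2⟩
      exact ⟨⟨v, h1⟩, h2, rfl⟩
  rw [h1, Finset.sum_boole]

open Classical in
/-- the sum over the solutions of the equation as a sum over quadruples -/
theorem reparam (b₁ b₂ : G → ℂ) (c d : G) (p : G → G → G → G → Prop) :
    ∑ w : G × G, b₁ w.1 * b₂ w.2 *
      (({z : XX (c * w.1) (d * w.2) | p (c * w.1) z.1.1 z.1.2.1 z.1.2.2} :
        Set (XX (c * w.1) (d * w.2))).ncard : ℂ) =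
    ∑ a : G × G × G × G, b₁ (c⁻¹ * (a.1 * a.2.1⁻¹)) *
      b₂ (d⁻¹ * ((a.2.2.1⁻¹ * a.2.1 * a.2.2.1) * (a.2.2.2⁻¹ * a.1⁻¹ * a.2.2.2))) *
      if p (a.1 * a.2.1⁻¹) a.1 (a.2.2.1 * a.2.2.2⁻¹) a.2.2.1 then 1 else 0 := by
  have h1 : ∀ (s : G) (v : G × G × G), ∑ t : G, b₁ s * b₂ t *
      (if v.1 * v.2.1 * v.1⁻¹ * v.2.1⁻¹ = c * s * (v.2.2 * (d * t) * v.2.2⁻¹) ∧
        p (c * s) v.1 v.2.1 v.2.2 then (1 : ℂ) else 0) =
      b₁ s * b₂ (d⁻¹ * (v.2.2⁻¹ * (c * s)⁻¹ * (v.1 * v.2.1 * v.1⁻¹ * v.2.1⁻¹) * v.2.2)) *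
        (if p (c * s) v.1 v.2.1 v.2.2 then (1 : ℂ) else 0) := by
    intro s v
    rw [Finset.sum_eq_single_of_mem
      (d⁻¹ * (v.2.2⁻¹ * (c * s)⁻¹ * (v.1 * v.2.1 * v.1⁻¹ * v.2.1⁻¹) * v.2.2)) (Finset.mem_univ _)]
    · have h2 : v.1 * v.2.1 * v.1⁻¹ * v.2.1⁻¹ = c * s * (v.2.2 * (d *
          (d⁻¹ * (v.2.2⁻¹ * (c * s)⁻¹ * (v.1 * v.2.1 * v.1⁻¹ * v.2.1⁻¹) * v.2.2))) * v.2.2⁻¹) := by
        group
      by_cases h3 : p (c * s) v.1 v.2.1 v.2.2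
      · rw [if_pos ⟨h2, h3⟩, if_pos h3]
      · rw [if_neg (fun h => h3 h.2), if_neg h3]
    · intro t _ hne
      rw [if_neg, mul_zero]
      rintro ⟨h2, -⟩
      apply hne
      rw [h2]
      group
  calc _ = ∑ s : G, ∑ t : G, ∑ v : G × G × G, b₁ s * b₂ t *
        (if v.1 * v.2.1 * v.1⁻¹ * v.2.1⁻¹ = c * s * (v.2.2 * (d * t) * v.2.2⁻¹) ∧
          p (c * s) v.1 v.2.1 v.2.2 then (1 : ℂ) else 0) := by
        rw [Fintype.sum_prod_type]
        refine Finset.sum_congr rfl fun s _ => Finset.sum_congr rfl fun t _ => ?_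
        rw [xx_count, Finset.mul_sum]
    _ = ∑ s : G, ∑ v : G × G × G,
        b₁ s * b₂ (d⁻¹ * (v.2.2⁻¹ * (c * s)⁻¹ * (v.1 * v.2.1 * v.1⁻¹ * v.2.1⁻¹) * v.2.2)) *
        (if p (c * s) v.1 v.2.1 v.2.2 then (1 : ℂ) else 0) := by
        refine Finset.sum_congr rfl fun s _ => ?_
        rw [Finset.sum_comm]
        exact Finset.sum_congr rfl fun v _ => h1 s v
    _ = ∑ a : G × G × G × G, b₁ a.1 * b₂ (d⁻¹ * (a.2.2.2⁻¹ * (c * a.1)⁻¹ *
          (a.2.1 * a.2.2.1 * a.2.1⁻¹ * a.2.2.1⁻¹) * a.2.2.2)) *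
        (if p (c * a.1) a.2.1 a.2.2.1 a.2.2.2 then (1 : ℂ) else 0) := by
        rw [Fintype.sum_prod_type]
    _ = _ := by
        rw [← Equiv.sum_comp (R4 c)]
        refine Finset.sum_congr rfl fun a _ => ?_
        have e1 : (R4 c a).1 = c⁻¹ * (a.1 * a.2.1⁻¹) := rfl
        have e2 : (R4 c a).2.1 = a.1 := rfl
        have e3 : (R4 c a).2.2.1 = a.2.2.1 * a.2.2.2⁻¹ := rfl
        have e4 : (R4 c a).2.2.2 = a.2.2.1 := rfl
        rw [e1, e2, e3, e4, mul_inv_cancel_left]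
        have e5 : a.2.2.1⁻¹ * (a.1 * a.2.1⁻¹)⁻¹ *
            (a.1 * (a.2.2.1 * a.2.2.2⁻¹) * a.1⁻¹ * (a.2.2.1 * a.2.2.2⁻¹)⁻¹) * a.2.2.1 =
            (a.2.2.1⁻¹ * a.2.1 * a.2.2.1) * (a.2.2.2⁻¹ * a.1⁻¹ * a.2.2.2) := by
          group
        rw [e5]

end sums

end Pool.Agent.PP.SO.H79
end
end -- Pool.Agent.Helper79_ASO.WTHA

section -- Pool.Agent.Helper79_ASO.WTHB

/-!
# Squad ASO, row WTH, part B: means over the centralisers
-/

open scoped BigOperators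

set_option autoImplicit false
set_option linter.unusedSectionVars false

noncomputable section

namespace Pool.Agent.PP.SO.H79

open Pool.Agent.Helper51_AWC Pool.Agent.Helper79_WRA Pool.Agent.PP Pool.Agent.PP.KF
open Pool.Agent.PP.K9 Pool.Agent.PP.K9.H97 Pool.Agent.PP.H75 Pool.Agent.PP.T3

attribute [local instance] Ideal.Quotient.field

section avg

variable {G : Type} [Group G] [Fintype G] (C₁ C₂ : Subgroup G) [Fintype C₁] [Fintype C₂]

/-- invariance under `(z, z')` -/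
def Inv2 (I : G → G → ℂ) : Prop :=
  ∀ z ∈ C₁, ∀ z' ∈ C₂, ∀ X u, I (z⁻¹ * X * z) (z⁻¹ * u * z') = I X u

theorem avg4 (b₁ b₂ : G → ℂ) (I J : G → G → ℂ) (hI : Inv2 C₁ C₂ I) (hJ : Inv2 C₁ C₂ J) :
    ((Fintype.card C₁ : ℂ) * Fintype.card C₂) * ∑ a : G × G × G × G, b₁ (a.1 * a.2.1⁻¹) *
      b₂ ((a.2.2.1⁻¹ * a.2.1 * a.2.2.1) * (a.2.2.2⁻¹ * a.1⁻¹ * a.2.2.2)) *
      (I a.2.1 a.2.2.1 * J a.1 a.2.2.2) =
    ∑ a : G × G × G × G, (∑ z : C₁, b₁ ((z : G)⁻¹ * (a.1 * a.2.1⁻¹) * z)) *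
      (∑ z : C₂, b₂ ((z : G)⁻¹ *
        ((a.2.2.1⁻¹ * a.2.1 * a.2.2.1) * (a.2.2.2⁻¹ * a.1⁻¹ * a.2.2.2)) * z)) *
      (I a.2.1 a.2.2.1 * J a.1 a.2.2.2) := by
  obtain ⟨F, hF⟩ : ∃ F : G × G × G × G → ℂ, F = fun a => b₁ (a.1 * a.2.1⁻¹) *
      b₂ ((a.2.2.1⁻¹ * a.2.1 * a.2.2.1) * (a.2.2.2⁻¹ * a.1⁻¹ * a.2.2.2)) *
      (I a.2.1 a.2.2.1 * J a.1 a.2.2.2) := ⟨_, rfl⟩
  have h1 : ((Fintype.card C₁ : ℂ) * Fintype.card C₂) * ∑ a, F a =
      ∑ z : C₁, ∑ z' : C₂, ∑ a, F (E4 (z : G) (z' : G) a) := by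
    have h2 : ∀ (z : C₁) (z' : C₂), ∑ a, F (E4 (z : G) (z' : G) a) = ∑ a, F a := fun z z' =>
      Equiv.sum_comp (E4 (z : G) (z' : G)) F
    rw [Finset.sum_congr rfl fun z _ => Finset.sum_congr rfl fun z' _ => h2 z z',
      Finset.sum_const, Finset.sum_const, Finset.card_univ, Finset.card_univ, nsmul_eq_mul,
      nsmul_eq_mul, mul_assoc]
  have h3 : ∀ (z : C₁) (z' : C₂) (a : G × G × G × G), F (E4 (z : G) (z' : G) a) =
      b₁ ((z : G)⁻¹ * (a.1 * a.2.1⁻¹) * z) *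
      b₂ ((z' : G)⁻¹ *
        ((a.2.2.1⁻¹ * a.2.1 * a.2.2.1) * (a.2.2.2⁻¹ * a.1⁻¹ * a.2.2.2)) * z') *
      (I a.2.1 a.2.2.1 * J a.1 a.2.2.2) := by
    rintro z z' ⟨x, X, u, w⟩
    rw [E4_apply, hF]
    simp only
    rw [hI z z.2 z' z'.2, hJ z z.2 z' z'.2]
    have e1 : (z : G)⁻¹ * x * z * ((z : G)⁻¹ * X * z)⁻¹ = (z : G)⁻¹ * (x * X⁻¹) * z := by group
    have e2 : ((z : G)⁻¹ * u * (z' : G))⁻¹ * ((z : G)⁻¹ * X * z) * ((z : G)⁻¹ * u * (z' : G)) *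
        (((z : G)⁻¹ * w * (z' : G))⁻¹ * ((z : G)⁻¹ * x * z)⁻¹ * ((z : G)⁻¹ * w * (z' : G))) =
        (z' : G)⁻¹ * ((u⁻¹ * X * u) * (w⁻¹ * x⁻¹ * w)) * z' := by group
    rw [e1, e2]
  have h4 : ∑ a, F a = ∑ a : G × G × G × G, b₁ (a.1 * a.2.1⁻¹) *
      b₂ ((a.2.2.1⁻¹ * a.2.1 * a.2.2.1) * (a.2.2.2⁻¹ * a.1⁻¹ * a.2.2.2)) *
      (I a.2.1 a.2.2.1 * J a.1 a.2.2.2) := by rw [hF]
  rw [← h4, h1]
  have h5 : ∑ z : C₁, ∑ z' : C₂, ∑ a, F (E4 (z : G) (z' : G) a) =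
      ∑ a, ∑ z : C₁, ∑ z' : C₂, F (E4 (z : G) (z' : G) a) := by
    rw [Finset.sum_congr rfl fun z _ => Finset.sum_comm, Finset.sum_comm]
  rw [h5]
  refine Finset.sum_congr rfl fun a _ => ?_
  rw [Finset.sum_mul_sum, Finset.sum_mul]
  refine Finset.sum_congr rfl fun z _ => ?_
  rw [Finset.sum_mul]
  exact Finset.sum_congr rfl fun z' _ => h3 z z' a

theorem conj_sub (C : Subgroup G) [Fintype C] {χ : G → ℂ} (hχ : (fun t : C => χ t) ∈ Irr C)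
    {a b : G} (ha : a ∈ C) (hb : b ∈ C) :
    ∑ z : C, χ ((z : G)⁻¹ * a * z * b) = Fintype.card C * (χ a * χ b / χ 1) :=
  conj_sum hχ (⟨a, ha⟩ : C) (⟨b, hb⟩ : C)

theorem comm_sub (C : Subgroup G) {χ : G → ℂ} (hχ : (fun t : C => χ t) ∈ Irr C)
    {a b : G} (ha : a ∈ C) (hb : b ∈ C) : χ (a * b) = χ (b * a) :=
  irr_mul_comm hχ (⟨b, hb⟩ : C) (⟨a, ha⟩ : C)

theorem one_sub (C : Subgroup G) {χ : G → ℂ} (hχ : (fun t : C => χ t) ∈ Irr C) : χ 1 ≠ 0 := by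
  have h := irr_one_ne (G := C) hχ
  exact h

theorem avg2 {χ χ' : G → ℂ} (hχ : (fun t : C₁ => χ t) ∈ Irr C₁)
    (hχ' : (fun t : C₂ => χ' t) ∈ Irr C₂) (I : G → G → ℂ) (hI : Inv2 C₁ C₂ I)
    (hs : ∀ X u, I X u ≠ 0 → X ∈ C₁ ∧ u⁻¹ * X⁻¹ * u ∈ C₂) {x h : G} (hx : x ∈ C₁) (hh : h ∈ C₂) :
    ∑ v : G × G, χ (v.1 * x) * χ' (h * (v.2⁻¹ * v.1⁻¹ * v.2)) * I v.1 v.2 =
      (χ 1 * χ' 1)⁻¹ * (χ x * χ' h) * ∑ v : G × G, χ v.1 * χ' (v.2⁻¹ * v.1⁻¹ * v.2) * I v.1 v.2 := by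
  have hc1 : (Fintype.card C₁ : ℂ) ≠ 0 := by exact_mod_cast Fintype.card_ne_zero
  have hc2 : (Fintype.card C₂ : ℂ) ≠ 0 := by exact_mod_cast Fintype.card_ne_zero
  obtain ⟨F, hF⟩ : ∃ F : G × G → ℂ, F = fun v =>
    χ (v.1 * x) * χ' (h * (v.2⁻¹ * v.1⁻¹ * v.2)) * I v.1 v.2 := ⟨_, rfl⟩
  have h1 : ((Fintype.card C₁ : ℂ) * Fintype.card C₂) * ∑ a, F a =
      ∑ a, ∑ z : C₁, ∑ z' : C₂, F (E2 (z : G) (z' : G) a) := by
    have h2 : ∀ (z : C₁) (z' : C₂), ∑ a, F (E2 (z : G) (z' : G) a) = ∑ a, F a := fun z z' =>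
      Equiv.sum_comp (E2 (z : G) (z' : G)) F
    have h5 : ∑ z : C₁, ∑ z' : C₂, ∑ a, F (E2 (z : G) (z' : G) a) =
        ∑ a, ∑ z : C₁, ∑ z' : C₂, F (E2 (z : G) (z' : G) a) := by
      rw [Finset.sum_congr rfl fun z _ => Finset.sum_comm, Finset.sum_comm]
    rw [← h5, Finset.sum_congr rfl fun z _ => Finset.sum_congr rfl fun z' _ => h2 z z',
      Finset.sum_const, Finset.sum_const, Finset.card_univ, Finset.card_univ, nsmul_eq_mul,
      nsmul_eq_mul, mul_assoc]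
  have h3 : ∀ v : G × G, ∑ z : C₁, ∑ z' : C₂, F (E2 (z : G) (z' : G) v) =
      ((Fintype.card C₁ : ℂ) * Fintype.card C₂) * ((χ 1 * χ' 1)⁻¹ * (χ x * χ' h) *
        (χ v.1 * χ' (v.2⁻¹ * v.1⁻¹ * v.2) * I v.1 v.2)) := by
    rintro ⟨X, u⟩
    have h6 : ∀ (z : C₁) (z' : C₂), F (E2 (z : G) (z' : G) (X, u)) =
        χ ((z : G)⁻¹ * X * z * x) * χ' (h * ((z' : G)⁻¹ * (u⁻¹ * X⁻¹ * u) * z')) * I X u := by
      intro z z'
      rw [E2_apply, hF]
      simp only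
      rw [hI z z.2 z' z'.2]
      have e2 : ((z : G)⁻¹ * u * (z' : G))⁻¹ * ((z : G)⁻¹ * X * z)⁻¹ * ((z : G)⁻¹ * u * (z' : G)) =
          (z' : G)⁻¹ * (u⁻¹ * X⁻¹ * u) * z' := by group
      rw [e2]
    rw [Finset.sum_congr rfl fun z _ => Finset.sum_congr rfl fun z' _ => h6 z z']
    by_cases h0 : I X u = 0
    · simp [h0]
    · obtain ⟨hX, hu⟩ := hs X u h0
      have h7 : ∑ z : C₁, ∑ z' : C₂, χ ((z : G)⁻¹ * X * z * x) *
          χ' (h * ((z' : G)⁻¹ * (u⁻¹ * X⁻¹ * u) * z')) * I X u =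
          (∑ z : C₁, χ ((z : G)⁻¹ * X * z * x)) *
          (∑ z' : C₂, χ' (h * ((z' : G)⁻¹ * (u⁻¹ * X⁻¹ * u) * z'))) * I X u := by
        rw [Finset.sum_mul_sum, Finset.sum_mul]
        refine Finset.sum_congr rfl fun z _ => ?_
        rw [Finset.sum_mul]
      have h8 : ∑ z' : C₂, χ' (h * ((z' : G)⁻¹ * (u⁻¹ * X⁻¹ * u) * z')) =
          Fintype.card C₂ * (χ' (u⁻¹ * X⁻¹ * u) * χ' h / χ' 1) := by
        rw [← conj_sub C₂ hχ' hu hh]
        refine Finset.sum_congr rfl fun z' _ => ?_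
        exact comm_sub C₂ hχ' hh (C₂.mul_mem (C₂.mul_mem (C₂.inv_mem z'.2) hu) z'.2)
      rw [h7, conj_sub C₁ hχ hX hx, h8]
      have n1 := one_sub C₁ hχ
      have n2 := one_sub C₂ hχ'
      field_simp
  rw [Finset.sum_congr rfl fun v _ => h3 v, ← Finset.mul_sum, ← Finset.mul_sum] at h1
  have h9 := mul_left_cancel₀ (mul_ne_zero hc1 hc2) h1
  rw [hF] at h9
  exact h9

theorem split4 {χ χ' : G → ℂ} (hχ : (fun t : C₁ => χ t) ∈ Irr C₁)
    (hχ' : (fun t : C₂ => χ' t) ∈ Irr C₂) (I J : G → G → ℂ) (hI : Inv2 C₁ C₂ I)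
    (hs : ∀ X u, I X u ≠ 0 → X ∈ C₁ ∧ u⁻¹ * X⁻¹ * u ∈ C₂)
    (hs' : ∀ X u, J X u ≠ 0 → X ∈ C₁ ∧ u⁻¹ * X⁻¹ * u ∈ C₂) :
    ∑ a : G × G × G × G, χ (a.2.1 * a.1⁻¹) *
      χ' ((a.2.2.2⁻¹ * a.1 * a.2.2.2) * (a.2.2.1⁻¹ * a.2.1⁻¹ * a.2.2.1)) *
      (I a.2.1 a.2.2.1 * J a.1 a.2.2.2) =
    (χ 1 * χ' 1)⁻¹ * (∑ v : G × G, χ v.1 * χ' (v.2⁻¹ * v.1⁻¹ * v.2) * I v.1 v.2) *
      ∑ v : G × G, χ v.1⁻¹ * χ' (v.2⁻¹ * v.1 * v.2) * J v.1 v.2 := by
  obtain ⟨S, hS⟩ : ∃ S, S = ∑ v : G × G, χ v.1 * χ' (v.2⁻¹ * v.1⁻¹ * v.2) * I v.1 v.2 := ⟨_, rfl⟩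
  have h1 : ∀ x w : G, ∑ v : G × G, χ (v.1 * x⁻¹) * χ' ((w⁻¹ * x * w) * (v.2⁻¹ * v.1⁻¹ * v.2)) *
      (I v.1 v.2 * J x w) = (χ 1 * χ' 1)⁻¹ * S * (χ x⁻¹ * χ' (w⁻¹ * x * w) * J x w) := by
    intro x w
    by_cases h0 : J x w = 0
    · simp [h0]
    · obtain ⟨hx, hw⟩ := hs' x w h0
      have hw' : w⁻¹ * x * w ∈ C₂ := by
        have := C₂.inv_mem hw
        have e : (w⁻¹ * x⁻¹ * w)⁻¹ = w⁻¹ * x * w := by group
        rwa [e] at this
      have h2 := avg2 C₁ C₂ hχ hχ' I hI hs (C₁.inv_mem hx) hw'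
      rw [← hS] at h2
      calc _ = (∑ v : G × G, χ (v.1 * x⁻¹) * χ' ((w⁻¹ * x * w) * (v.2⁻¹ * v.1⁻¹ * v.2)) *
            I v.1 v.2) * J x w := by
            rw [Finset.sum_mul]
            exact Finset.sum_congr rfl fun v _ => by ring
        _ = _ := by
            rw [h2]
            ring
  rw [← hS, Finset.mul_sum]
  calc _ = ∑ x : G, ∑ X : G, ∑ u : G, ∑ w : G, χ (X * x⁻¹) *
        χ' ((w⁻¹ * x * w) * (u⁻¹ * X⁻¹ * u)) * (I X u * J x w) := by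
        rw [Fintype.sum_prod_type]
        refine Finset.sum_congr rfl fun x _ => ?_
        rw [Fintype.sum_prod_type]
        refine Finset.sum_congr rfl fun X _ => ?_
        rw [Fintype.sum_prod_type]
    _ = ∑ x : G, ∑ w : G, ∑ X : G, ∑ u : G, χ (X * x⁻¹) *
        χ' ((w⁻¹ * x * w) * (u⁻¹ * X⁻¹ * u)) * (I X u * J x w) := by
        refine Finset.sum_congr rfl fun x _ => ?_
        rw [Finset.sum_congr rfl fun X _ => Finset.sum_comm, Finset.sum_comm]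
    _ = _ := by
        rw [Fintype.sum_prod_type]
        refine Finset.sum_congr rfl fun x _ => Finset.sum_congr rfl fun w _ => ?_
        rw [← h1 x w, Fintype.sum_prod_type]

end avg

end Pool.Agent.PP.SO.H79
end
end -- Pool.Agent.Helper79_ASO.WTHB

section -- Pool.Agent.Helper44_ASE.RFD

/-!
# Squad ASE, row RFD (helper44): the fields `d5`, `d6`
-/

open scoped BigOperators

noncomputable section

namespace Pool.Agent.PP.SE.H44

open Pool.Agent.Helper51_AWC Pool.Agent.Helper79_WRA Pool.Agent.PP Pool.Agent.PP.KF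
open Pool.Agent.PP.K9 Pool.Agent.PP.K9.H97 Pool.Agent.PP.H75 Pool.Agent.PP.T3 Pool.Agent.PP.SO
open Pool.Agent.PP.SD

attribute [local instance] Ideal.Quotient.field

theorem fsum_const {α : Type} {s : Set α} {n : ℕ} (hn : 0 < n) (hs : s.ncard = n) (f : α → ℂ)
    (c : ℂ) (hf : ∀ a ∈ s, f a = c) : ∑ᶠ a ∈ s, f a = n * c := by
  have hfin : s.Finite := Set.finite_of_ncard_ne_zero (by omega)
  rw [finsum_mem_eq_finite_toFinset_sum _ hfin,
    Finset.sum_congr rfl fun a ha => hf a (hfin.mem_toFinset.1 ha), Finset.sum_const,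
    ← Set.ncard_eq_toFinset_card s hfin, hs, nsmul_eq_mul]

theorem rfd (hSN : SnuStmt) (hGC : GecStmt) (hGA : GeaStmt) : RfdStmt := by
  classical
  intro ℓ hℓ M _ hℓM hℓ2 V₀ G _ _ _ _ E₀ hF B hSd W hW N e O hCy D hDw
  letI := Fintype.ofFinite G
  obtain ⟨hfin, hsum, -, hnu, hlast⟩ := hSN ℓ M hℓM hℓ2 V₀ G E₀ hF B hSd W hW N e O hCy
  obtain ⟨-, hpr, -⟩ := hGA ℓ V₀ E₀ hF W hW
  obtain ⟨-, -, -, -, -, -, -, -, -, horb, -⟩ := hGC ℓ V₀ E₀ hF W hW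
  have hnpos : 0 < nS E₀ W := by
    have : 1 < nS E₀ W := hW.2
    omega
  have hn0 : (nS E₀ W : ℂ) ≠ 0 := Nat.cast_ne_zero.2 hnpos.ne'
  have hl0 : (ℓ : ℂ) ≠ 0 := Nat.cast_ne_zero.2 hℓ.out.ne_zero
  have hν : ∀ χ ∈ Ch B W, ∃ ν ∈ lk (kW E₀ W), χ ∈ Iv B W ν := by
    intro χ hχ
    by_contra hcon
    have h1 := hsum (fun ψ => if ψ = χ then 1 else 0)
    rw [finsum_mem_eq_finite_toFinset_sum _ hfin, Finset.sum_ite_eq',
      if_pos (hfin.mem_toFinset.2 hχ)] at h1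
    rw [finsum_mem_of_eqOn_zero] at h1
    · exact one_ne_zero h1
    · intro ν hν
      refine finsum_mem_of_eqOn_zero ?_
      intro ψ hψ
      change (if ψ = χ then (1 : ℂ) else 0) = 0
      rw [if_neg]
      rintro rfl
      exact hcon ⟨ν, hν, hψ⟩
  have hsg : ∀ χ ∈ Ch B W, (e χ : ℂ) * e χ = 1 := by
    intro χ hχ
    obtain ⟨ν, h1, h2⟩ := hν χ hχ
    rcases (hCy.lv ν h1).sg χ h2 with h | h <;> rw [h] <;> norm_num
  have hone : ∀ χ ∈ Ch B W, χ 1 ≠ 0 := fun χ hχ => SO.H79.one_sub _ hχ.2.1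
  have hpr1 : pr ℓ E₀ W 1 = 1 := by
    unfold pr
    rw [finprod_eq_one_of_forall_eq_one (fun τ => map_one _), one_pow]
  have hnu1 : ∀ χ ∈ Ch B W, nu B χ 1 = 1 := by
    intro χ hχ
    unfold nu
    rw [map_one, div_self (hone χ hχ)]
  have hDN : ∀ χ ∈ Ch B W, χ ∈ N → D.D W χ 1 = e χ := by
    intro χ hχ hN
    rw [hDw.dD χ hχ, hpr1, hnu1 χ hχ, if_pos hN, one_mul]
  have hDX : ∀ χ ∈ Ch B W, χ ∉ N → D.D W χ 1 = e χ * nS E₀ W := by
    intro χ hχ hN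
    obtain ⟨ν, h1, h2⟩ := hν χ hχ
    obtain ⟨⟨s, hs, hs1, hO⟩, -⟩ := (hCy.lv ν h1).vX χ h2 hN
    rw [hDw.dD χ hχ, hpr1, hnu1 χ hχ, if_neg hN, one_mul, hO,
      fsum_const hnpos (horb s hs hs1).1 _ 1, mul_one]
    rintro s' ⟨τ, -, rfl⟩
    change s (τ 1) = 1
    rw [map_one]
    exact hs.1.1
  have hrs : ∀ χ ψ : G → ℂ, rq ℓ B W χ ψ → rq ℓ B W ψ χ := fun χ ψ h g hg hr => (h g hg hr).symm
  have hcj : ∀ n : ℤ, starRingEnd ℂ (n : ℂ) = n := fun n => map_intCast _ n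
  have hcn : ∀ n : ℕ, starRingEnd ℂ (n : ℂ) = n := fun n => map_natCast _ n
  refine ⟨?_, ?_⟩
  · intro χ hχ ψ hψ
    change rip ℓ B W χ ψ = _
    by_cases h1 : χ ∈ N
    · by_cases h2 : ψ ∈ N
      · rw [hCy.rN χ hχ ψ hψ h1 h2, hDN χ hχ h1, hDN ψ hψ h2, hDw.dR χ hχ ψ hψ,
          if_pos (⟨h1, h2⟩ : χ ∈ N ∧ ψ ∈ N), hcj]
        field_simp
        ring
      · rw [(hCy.rM χ hχ ψ hψ h1 h2).1, hDN χ hχ h1, hDX ψ hψ h2, hDw.dR χ hχ ψ hψ,
          if_neg (fun h => h2 h.2), map_mul, hcj, hcn]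
        field_simp
        ring
    · by_cases h2 : ψ ∈ N
      · rw [(hCy.rM ψ hψ χ hχ h2 h1).2, hDX χ hχ h1, hDN ψ hψ h2, hDw.dR χ hχ ψ hψ,
          if_neg (fun h => h1 h.1), hcj]
        field_simp
        ring
      · rw [hCy.rX χ hχ ψ hψ h1 h2, hDX χ hχ h1, hDX ψ hψ h2, hDw.dR χ hχ ψ hψ,
          if_neg (fun h => h1 h.1), map_mul, hcj, hcn]
        field_simp
        ring
  · intro ψ hψ
    refine ⟨fun x => ?_, fun χ hχ => ⟨?_, ?_⟩⟩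
    · by_cases h2 : ψ ∈ N
      · have e1 : ∑ᶠ χ ∈ Ch B W, D.D W χ x * D.R W χ ψ =
            ∑ᶠ χ ∈ {χ | χ ∈ Ch B W ∧ χ ∈ N}, D.D W χ x * D.R W χ ψ := by
          refine finsum_mem_inter_support_eq' _ _ _ fun χ hχ => ?_
          refine ⟨fun h => ⟨h, ?_⟩, fun h => h.1⟩
          by_contra hN
          apply hχ
          change D.D W χ x * D.R W χ ψ = 0
          rw [hDw.dR χ h ψ hψ, if_neg (fun h => hN h.1), mul_zero]
        have e2 : ∑ᶠ χ ∈ {χ | χ ∈ Ch B W ∧ χ ∈ N}, D.D W χ x * D.R W χ ψ =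
            ∑ᶠ χ ∈ {χ | χ ∈ Ch B W ∧ χ ∈ N}, nu B χ (pr ℓ E₀ W x) *
              ((e ψ : ℂ) / ℓ * ((if rq ℓ B W χ ψ then (1 : ℂ) else 0) - (nS E₀ W : ℂ)⁻¹)) := by
          refine finsum_mem_congr rfl fun χ hχ => ?_
          rw [hDw.dR χ hχ.1 ψ hψ, if_pos (⟨hχ.2, h2⟩ : χ ∈ N ∧ ψ ∈ N), hDw.dD χ hχ.1, if_pos hχ.2]
          have := hsg χ hχ.1
          linear_combination (nu B χ (pr ℓ E₀ W x) * ((e ψ : ℂ) / ℓ *
            ((if rq ℓ B W χ ψ then (1 : ℂ) else 0) - (nS E₀ W : ℂ)⁻¹))) * this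
        obtain ⟨-, h3⟩ := hnu (fun χ => (e ψ : ℂ) / ℓ *
            ((if rq ℓ B W χ ψ then (1 : ℂ) else 0) - (nS E₀ W : ℂ)⁻¹)) (by
          intro χ hχ χ' hχ' _ _ hq
          have : rq ℓ B W χ ψ ↔ rq ℓ B W χ' ψ :=
            ⟨fun h g hg hr => (hq g hg hr).symm.trans (h g hg hr),
              fun h g hg hr => (hq g hg hr).trans (h g hg hr)⟩
          simp only [this])
        have hone' : (fun _ => 1) ∈ lk (kW E₀ W) :=
          ⟨⟨rfl, fun _ _ => (mul_one _).symm⟩, fun _ _ => rfl⟩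
        obtain ⟨h4, h5, h6⟩ := hlast _ hone'
        have h7 : ∑ᶠ χ ∈ {χ | χ ∈ Iv B W (fun _ => 1) ∧ χ ∈ N}, ((e ψ : ℂ) / ℓ *
            ((if rq ℓ B W χ ψ then (1 : ℂ) else 0) - (nS E₀ W : ℂ)⁻¹)) = 0 := by
          rw [← mul_finsum_mem, finsum_mem_sub_distrib _ _ h5, h6 ψ hψ h2,
            fsum_const hnpos h4 _ ((nS E₀ W : ℂ)⁻¹) (fun _ _ => rfl), mul_inv_cancel₀ hn0,
            sub_self, mul_zero]
        rw [e1, e2, h3 _ (hpr x).1, h7, mul_zero, ite_self]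
      · refine finsum_mem_of_eqOn_zero fun χ hχ => ?_
        change D.D W χ x * D.R W χ ψ = 0
        rw [hDw.dR χ hχ ψ hψ, if_neg (fun h => h2 h.2), mul_zero]
    · rw [hDw.dR χ hχ ψ hψ, hDw.dR ψ hψ χ hχ]
      have h1 : (χ ∈ N ∧ ψ ∈ N) ↔ (ψ ∈ N ∧ χ ∈ N) := and_comm
      have h2 : rq ℓ B W χ ψ ↔ rq ℓ B W ψ χ := ⟨hrs χ ψ, hrs ψ χ⟩
      simp only [h1, h2]
      split_ifs <;> ring
    · rw [hDw.dR χ hχ ψ hψ]
      split_ifs <;> simp
end Pool.Agent.PP.SE.H44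
end
end -- Pool.Agent.Helper44_ASE.RFD
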