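import Pool.Agent.Helper12_AWB.B116
import Pool.Agent.Helper12_AWB.B140
import Pool.Agent.Helper12_AWB.B217
import Pool.Agent.Helper12_AWB.B227

/-!
# Merged copies (generated) of the modules

* `Pool.Agent.Helper63_ASO.W12A`
* `Pool.Agent.Helper25_ASO.M12`
* `Pool.Agent.Helper94_ASE.FWB`
-/

set_option autoImplicit false

section -- Pool.Agent.Helper63_ASO.W12A

/-!
# Squad ASO, row W12A: `W12` in terms of the numbers `HK`
-/

open scoped BigOperators

noncomputable section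

namespace Pool.Agent.PP.SO.H63

open Pool.Agent.Helper51_AWC Pool.Agent.Helper79_WRA Pool.Agent.PP Pool.Agent.PP.KF
open Pool.Agent.PP.K9 Pool.Agent.PP.K9.H97 Pool.Agent.PP.H75 Pool.Agent.PP.T3
open Pool.Agent.PP.SO

attribute [local instance] Ideal.Quotient.field

/-! ### the conditions -/

section cnd

variable {G : Type} [Group G] {V₀ : Type} [CommGroup V₀] {n : ℕ}

/-- the conditions for `x`, `y` with `[x, y] = g` -/
def Cnd (m : ℕ) (ι : V₀ →* G) (g x y : G) (i k : ℕ) (p : V₀) : Prop :=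
  (g ^ m) ^ k * ι p * x = x * ((g ^ m) ^ k * ι p) ∧
    y⁻¹ * ((g ^ m) ^ k * ι p) * y = (g ^ m) ^ k * ι p * (x ^ m) ^ i

theorem cnd_aux (K P Q x y X u : G) (hX : ∀ a : G, a * x = x * a → a * X = X * a) :
    (K⁻¹ * x * K = P * x * P⁻¹ ∧ K⁻¹ * (y * X) * K = P * y * P⁻¹ ∧ u = P * u * Q⁻¹) ↔
      ((K * P * x = x * (K * P) ∧ y⁻¹ * (K * P) * y = K * P * X) ∧ u * Q * u⁻¹ = P) := by
  have e1 : K⁻¹ * x * K = P * x * P⁻¹ ↔ K * P * x = x * (K * P) := by
    constructor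
    · intro h
      have h1 : x * K = K * (P * x * P⁻¹) := by
        rw [← h]
        group
      calc K * P * x = K * (P * x * P⁻¹) * P := by group
        _ = x * (K * P) := by rw [← h1]; group
    · intro h
      have h1 : x * K = K * P * x * P⁻¹ := by
        rw [h]
        group
      calc K⁻¹ * x * K = K⁻¹ * (x * K) := by group
        _ = P * x * P⁻¹ := by rw [h1]; group
  have e3 : u = P * u * Q⁻¹ ↔ u * Q * u⁻¹ = P := by
    constructor
    · intro h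
      have h1 : u * Q = P * u := by
        calc u * Q = (P * u * Q⁻¹) * Q := by rw [← h]
          _ = P * u := by group
      rw [h1]
      group
    · intro h
      have h1 : u * Q = P * u := by
        rw [← h]
        group
      rw [← h1]
      group
  have e2 : K * P * x = x * (K * P) → (K⁻¹ * (y * X) * K = P * y * P⁻¹ ↔
      y⁻¹ * (K * P) * y = K * P * X) := by
    intro h0
    have h2 := hX (K * P) h0
    constructor
    · intro h
      have h1 : y * X * K = K * (P * y * P⁻¹) := by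
        rw [← h]
        group
      rw [h2]
      calc y⁻¹ * (K * P) * y = y⁻¹ * (K * (P * y * P⁻¹)) * P := by group
        _ = X * (K * P) := by rw [← h1]; group
    · intro h
      rw [h2] at h
      have h1 : K * P * y = y * X * (K * P) := by
        calc K * P * y = y * (y⁻¹ * (K * P) * y) := by group
          _ = y * X * (K * P) := by rw [h]; group
      calc K⁻¹ * (y * X) * K = K⁻¹ * (y * X * (K * P)) * P⁻¹ := by group
        _ = P * y * P⁻¹ := by rw [← h1]; group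
  constructor
  · rintro ⟨h1, h2, h3⟩
    exact ⟨⟨e1.1 h1, (e2 (e1.1 h1)).1 h2⟩, e3.1 h3⟩
  · rintro ⟨⟨h1, h2⟩, h3⟩
    exact ⟨e1.2 h1, (e2 h1).2 h2, e3.2 h3⟩

theorem comm_pp (m i : ℕ) (x a : G) (h : a * x = x * a) : a * (x ^ m) ^ i = (x ^ m) ^ i * a := by
  have h1 : Commute a x := h
  exact (h1.pow_right m).pow_right i

theorem c12_iff (m : ℕ) (ι : V₀ →* G) (x y u : G) (i k : ℕ) (p q : V₀) :
    c12 m ι x y u i k p q ↔ Cnd m ι (kap x y) x y i k p ∧ u * ι q * u⁻¹ = ι p :=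
  cnd_aux _ _ _ x y _ u (fun a ha => comm_pp m i x a ha)

theorem cnd_conj {m : ℕ} {ι : V₀ →* G} {z g x y : G} {i k : ℕ} {p : V₀} (h : z * ι p = ι p * z) :
    Cnd m ι (z * g * z⁻¹) (z * x * z⁻¹) (z * y * z⁻¹) i k p ↔ Cnd m ι g x y i k p := by
  have hp : ι p = z * ι p * z⁻¹ := by rw [h]; group
  have e0 : ((z * g * z⁻¹) ^ m) ^ k * ι p = z * ((g ^ m) ^ k * ι p) * z⁻¹ := by
    rw [conj_pow, conj_pow]
    calc z * (g ^ m) ^ k * z⁻¹ * ι p = z * (g ^ m) ^ k * z⁻¹ * (z * ι p * z⁻¹) := by rw [← hp]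
      _ = z * ((g ^ m) ^ k * ι p) * z⁻¹ := by group
  have ex : ((z * x * z⁻¹) ^ m) ^ i = z * (x ^ m) ^ i * z⁻¹ := by rw [conj_pow, conj_pow]
  unfold Cnd
  rw [e0, ex]
  have e1 : z * ((g ^ m) ^ k * ι p) * z⁻¹ * (z * x * z⁻¹) =
      z * ((g ^ m) ^ k * ι p * x) * z⁻¹ := by group
  have e2 : z * x * z⁻¹ * (z * ((g ^ m) ^ k * ι p) * z⁻¹) =
      z * (x * ((g ^ m) ^ k * ι p)) * z⁻¹ := by group
  have e3 : (z * y * z⁻¹)⁻¹ * (z * ((g ^ m) ^ k * ι p) * z⁻¹) * (z * y * z⁻¹) =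
      z * (y⁻¹ * ((g ^ m) ^ k * ι p) * y) * z⁻¹ := by group
  have e4 : z * ((g ^ m) ^ k * ι p) * z⁻¹ * (z * (x ^ m) ^ i * z⁻¹) =
      z * ((g ^ m) ^ k * ι p * (x ^ m) ^ i) * z⁻¹ := by group
  rw [e1, e2, e3, e4, mul_left_inj, mul_right_inj, mul_left_inj, mul_right_inj]

/-- the number of the `(x, y)` -/
def Rk (m : ℕ) (ι : V₀ →* G) (L : Set (SS n V₀)) (g : G) : ℂ :=
  ({w : G × G | kap w.1 w.2 = g ∧ ∀ s ∈ L, Cnd m ι g w.1 w.2 s.1 s.2.1 s.2.2.1}.ncard : ℂ)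

theorem rk_conj (m : ℕ) (ι : V₀ →* G) (L : Set (SS n V₀)) (z g : G)
    (hz : ∀ s ∈ L, z * ι s.2.2.1 = ι s.2.2.1 * z) : Rk m ι L (z * g * z⁻¹) = Rk m ι L g := by
  unfold Rk
  have hinj : Function.Injective (fun w : G × G => (z * w.1 * z⁻¹, z * w.2 * z⁻¹)) := by
    intro a b hab
    rw [Prod.mk.injEq, mul_left_inj, mul_right_inj, mul_left_inj, mul_right_inj] at hab
    exact Prod.ext hab.1 hab.2
  rw [← Set.ncard_image_of_injective {w : G × G | kap w.1 w.2 = g ∧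
    ∀ s ∈ L, Cnd m ι g w.1 w.2 s.1 s.2.1 s.2.2.1} hinj]
  congr 2
  have hk : ∀ x y : G, kap (z * x * z⁻¹) (z * y * z⁻¹) = z * kap x y * z⁻¹ := by
    intro x y
    unfold kap
    group
  ext w
  constructor
  · rintro ⟨h1, h2⟩
    refine ⟨(z⁻¹ * w.1 * z, z⁻¹ * w.2 * z), ⟨?_, fun s hs => ?_⟩, ?_⟩
    · have h3 := hk (z⁻¹ * w.1 * z) (z⁻¹ * w.2 * z)
      have e1 : z * (z⁻¹ * w.1 * z) * z⁻¹ = w.1 := by group
      have e2 : z * (z⁻¹ * w.2 * z) * z⁻¹ = w.2 := by group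
      rw [e1, e2, h1] at h3
      exact (mul_left_cancel (mul_right_cancel h3)).symm
    · have h3 := h2 s hs
      have e1 : w.1 = z * (z⁻¹ * w.1 * z) * z⁻¹ := by group
      have e2 : w.2 = z * (z⁻¹ * w.2 * z) * z⁻¹ := by group
      rw [e1, e2] at h3
      exact (cnd_conj (hz s hs)).1 h3
    · refine Prod.ext ?_ ?_
      · show z * (z⁻¹ * w.1 * z) * z⁻¹ = w.1
        group
      · show z * (z⁻¹ * w.2 * z) * z⁻¹ = w.2
        group
  · rintro ⟨v, ⟨h1, h2⟩, rfl⟩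
    refine ⟨?_, fun s hs => ?_⟩
    · show kap (z * v.1 * z⁻¹) (z * v.2 * z⁻¹) = z * g * z⁻¹
      rw [hk, h1]
    · exact (cnd_conj (hz s hs)).2 (h2 s hs)

/-- the elements which map the `q` to the `p` -/
def PU (ι : V₀ →* G) (L : Set (SS n V₀)) (u : G) : Prop :=
  ∀ s ∈ L, u * ι s.2.2.2 * u⁻¹ = ι s.2.2.1

open Classical in
/-- the sum over the `u` -/
def F2 [Fintype G] (m : ℕ) (ι : V₀ →* G) (L : Set (SS n V₀)) (g h : G) : ℂ :=
  ∑ u : G, if PU ι L u then Rk m ι L (g * (u * h * u⁻¹)) else 0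

/-- the triples as triples of a set of `u` and pairs -/
def eXX (m : ℕ) (ι : V₀ →* G) (L : Set (SS n V₀)) (g h : G) :
    {z : XX g h // ∀ s ∈ L, c12 m ι z.1.1 z.1.2.1 z.1.2.2 s.1 s.2.1 s.2.2.1 s.2.2.2} ≃
      Σ u : {u : G // PU ι L u}, {w : G × G // kap w.1 w.2 = g * (u.1 * h * u.1⁻¹) ∧
        ∀ s ∈ L, Cnd m ι (g * (u.1 * h * u.1⁻¹)) w.1 w.2 s.1 s.2.1 s.2.2.1} where
  toFun z := ⟨⟨z.1.1.2.2, fun s hs => ((c12_iff m ι _ _ _ _ _ _ _).1 (z.2 s hs)).2⟩,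
    ⟨(z.1.1.1, z.1.1.2.1), z.1.2, fun s hs => by
      have h1 := ((c12_iff m ι _ _ _ _ _ _ _).1 (z.2 s hs)).1
      have h2 : kap z.1.1.1 z.1.1.2.1 = g * (z.1.1.2.2 * h * z.1.1.2.2⁻¹) := z.1.2
      rw [h2] at h1
      exact h1⟩⟩
  invFun y := ⟨⟨(y.2.1.1, y.2.1.2, y.1.1), y.2.2.1⟩, fun s hs => by
    have h2 : kap y.2.1.1 y.2.1.2 = g * (y.1.1 * h * y.1.1⁻¹) := y.2.2.1
    have h1 : Cnd m ι (kap y.2.1.1 y.2.1.2) y.2.1.1 y.2.1.2 s.1 s.2.1 s.2.2.1 := by
      rw [h2]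
      exact y.2.2.2 s hs
    exact (c12_iff m ι _ _ _ _ _ _ _).2 ⟨h1, y.1.2 s hs⟩⟩
  left_inv z := rfl
  right_inv y := rfl

theorem xx_count [Fintype G] (m : ℕ) (ι : V₀ →* G) (L : Set (SS n V₀)) (g h : G) :
    ({z : XX g h | ∀ s ∈ L, c12 m ι z.1.1 z.1.2.1 z.1.2.2 s.1 s.2.1 s.2.2.1 s.2.2.2}.ncard : ℂ) =
      F2 m ι L g h := by
  classical
  have h1 : {z : XX g h | ∀ s ∈ L, c12 m ι z.1.1 z.1.2.1 z.1.2.2 s.1 s.2.1 s.2.2.1 s.2.2.2}.ncard =
      ∑ u : {u : G // PU ι L u}, Nat.card {w : G × G // kap w.1 w.2 = g * (u.1 * h * u.1⁻¹) ∧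
        ∀ s ∈ L, Cnd m ι (g * (u.1 * h * u.1⁻¹)) w.1 w.2 s.1 s.2.1 s.2.2.1} := by
    rw [← Nat.card_sigma]
    exact Nat.card_congr (eXX m ι L g h)
  rw [h1]
  push_cast
  unfold F2
  rw [← Finset.sum_filter, Finset.sum_subtype (Finset.univ.filter (PU ι L)) (p := PU ι L)
    (fun u => by simp)]
  refine Finset.sum_congr rfl fun u _ => ?_
  rfl

theorem pu_left {ι : V₀ →* G} {L : Set (SS n V₀)} {z : G}
    (hz : ∀ s ∈ L, z * ι s.2.2.1 = ι s.2.2.1 * z) (u : G) : PU ι L (z * u) ↔ PU ι L u := by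
  unfold PU
  refine forall₂_congr fun s hs => ?_
  have e : z * u * ι s.2.2.2 * (z * u)⁻¹ = z * (u * ι s.2.2.2 * u⁻¹) * z⁻¹ := by group
  have hp : ι s.2.2.1 = z * ι s.2.2.1 * z⁻¹ := by rw [hz s hs]; group
  rw [e]
  constructor
  · intro h
    rw [hp] at h
    exact mul_left_cancel (mul_right_cancel h)
  · intro h
    rw [h]
    exact hp.symm

theorem pu_right {ι : V₀ →* G} {L : Set (SS n V₀)} {z : G}
    (hz : ∀ s ∈ L, z * ι s.2.2.2 = ι s.2.2.2 * z) (u : G) : PU ι L (u * z⁻¹) ↔ PU ι L u := by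
  unfold PU
  refine forall₂_congr fun s hs => ?_
  have e : u * z⁻¹ * ι s.2.2.2 * (u * z⁻¹)⁻¹ = u * ι s.2.2.2 * u⁻¹ := by
    calc u * z⁻¹ * ι s.2.2.2 * (u * z⁻¹)⁻¹ = u * z⁻¹ * (ι s.2.2.2 * z) * u⁻¹ := by group
      _ = u * z⁻¹ * (z * ι s.2.2.2) * u⁻¹ := by rw [hz s hs]
      _ = u * ι s.2.2.2 * u⁻¹ := by group
  rw [e]

theorem f2_left [Fintype G] {m : ℕ} {ι : V₀ →* G} {L : Set (SS n V₀)} {z : G}
    (hz : ∀ s ∈ L, z * ι s.2.2.1 = ι s.2.2.1 * z) (g h : G) :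
    F2 m ι L (z * g * z⁻¹) h = F2 m ι L g h := by
  classical
  unfold F2
  rw [← Equiv.sum_comp (Equiv.mulLeft z)]
  refine Finset.sum_congr rfl fun u _ => ?_
  rw [Equiv.coe_mulLeft]
  have e : z * g * z⁻¹ * (z * u * h * (z * u)⁻¹) = z * (g * (u * h * u⁻¹)) * z⁻¹ := by group
  rw [e, rk_conj m ι L z _ hz]
  exact if_congr (pu_left hz u) rfl rfl

theorem f2_right [Fintype G] {m : ℕ} {ι : V₀ →* G} {L : Set (SS n V₀)} {z : G}
    (hz : ∀ s ∈ L, z * ι s.2.2.2 = ι s.2.2.2 * z) (g h : G) :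
    F2 m ι L g (z * h * z⁻¹) = F2 m ι L g h := by
  classical
  unfold F2
  rw [← Equiv.sum_comp (Equiv.mulRight z⁻¹)]
  refine Finset.sum_congr rfl fun u _ => ?_
  rw [Equiv.coe_mulRight]
  have e : g * (u * z⁻¹ * (z * h * z⁻¹) * (u * z⁻¹)⁻¹) = g * (u * h * u⁻¹) := by group
  rw [e]
  exact if_congr (pu_right hz u) rfl rfl

end cnd

/-! ### means -/

section avg

variable {V₀ G : Type} [CommGroup V₀] [Group G] [Fintype G] {M : Ideal (integralClosure ℤ ℂ)}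
  [M.IsMaximal]

theorem fc_avg (B : Bk (FF M) V₀ G) (W : Subgroup V₀) (c : V₀) (F : G → ℂ)
    (hF : ∀ z ∈ B.C W, ∀ g, F (z * g * z⁻¹) = F g) :
    ∑ g, fc B W c g * F g = (Nat.card (B.C W) : ℂ) *
      (Nat.card (B.C (W ⊔ Subgroup.zpowers c)) : ℂ)⁻¹ *
        ∑ s, bh B (W ⊔ Subgroup.zpowers c) s * F (B.i c * s) := by
  classical
  have hfin : Fintype (B.C W) := Fintype.ofFinite _
  have h1 : ∀ z : B.C W, ∑ g, bh B (W ⊔ Subgroup.zpowers c) ((B.i c)⁻¹ * ((z : G)⁻¹ * g * z)) * F g =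
      ∑ s, bh B (W ⊔ Subgroup.zpowers c) s * F (B.i c * s) := by
    intro z
    rw [← Equiv.sum_comp ((Equiv.mulLeft (B.i c)).trans (MulAut.conj (z : G)).toEquiv)]
    refine Finset.sum_congr rfl fun s _ => ?_
    have e1 : ((Equiv.mulLeft (B.i c)).trans (MulAut.conj (z : G)).toEquiv) s =
        z * (B.i c * s) * (z : G)⁻¹ := rfl
    rw [e1, hF z z.2]
    congr 2
    group
  have h2 : ∀ g, fc B W c g * F g = (Nat.card (B.C (W ⊔ Subgroup.zpowers c)) : ℂ)⁻¹ *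
      ∑ z : B.C W, bh B (W ⊔ Subgroup.zpowers c) ((B.i c)⁻¹ * ((z : G)⁻¹ * g * z)) * F g := by
    intro g
    unfold fc
    rw [finsum_eq_sum_of_fintype, mul_assoc, Finset.sum_mul]
  have hc : (Fintype.card (B.C W) : ℂ) = Nat.card (B.C W) := by rw [Nat.card_eq_fintype_card]
  rw [Finset.sum_congr rfl fun g _ => h2 g, ← Finset.mul_sum, Finset.sum_comm,
    Finset.sum_congr rfl fun z _ => h1 z, Finset.sum_const, Finset.card_univ, nsmul_eq_mul, hc]
  ring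

/-- the sum for a given `u` as a sum over the product -/
theorem su_eq (a b : G → ℂ) (R : G → ℂ) (u : G) :
    ∑ g, a g * ∑ h, b h * R (g * (u * h * u⁻¹)) =
      ∑ k, mulF a (fun x => b (u⁻¹ * x * u)) k * R k := by
  classical
  have h1 : ∀ g, ∑ h, b h * R (g * (u * h * u⁻¹)) = ∑ k, b (u⁻¹ * (g⁻¹ * k) * u) * R k := by
    intro g
    symm
    rw [← Equiv.sum_comp ((MulAut.conj u).toEquiv.trans (Equiv.mulLeft g))]
    refine Finset.sum_congr rfl fun s _ => ?_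
    have e1 : ((MulAut.conj u).toEquiv.trans (Equiv.mulLeft g)) s = g * (u * s * u⁻¹) := rfl
    have e2 : u⁻¹ * (g⁻¹ * (g * (u * s * u⁻¹))) * u = s := by group
    rw [e1, e2]
  simp only [h1, Finset.mul_sum]
  rw [Finset.sum_comm]
  refine Finset.sum_congr rfl fun k _ => ?_
  unfold mulF
  rw [finsum_eq_sum_of_fintype, Finset.sum_mul]
  refine Finset.sum_congr rfl fun g _ => ?_
  ring

end avg

/-! ### blocks -/

section iso

variable {H K : Type} [Group H] [Group K] [Finite H] [Finite K]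
  {M : Ideal (integralClosure ℤ ℂ)} [hM : M.IsMaximal]

/-- transport of the residue along an isomorphism -/
theorem res_iso (α : H ≃* K) {b : K → FF M} (hb : IsCl b) {θ : K → ℂ} (hθ : θ ∈ Irr K) :
    res M (fun x => b (α x)) (fun x => θ (α x)) = res M b θ := by
  classical
  have := Fintype.ofFinite H
  have := Fintype.ofFinite K
  obtain ⟨a, ha, ea⟩ := H50.exists_lift (M := M) hb
  have hθ' : (fun x => θ (α x)) ∈ Irr H :=
    K9.H3.irr_infl (p := α.toMonoidHom) α.surjective hθ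
  have h1 : (fun t => Ideal.Quotient.mk M (a t)) = b := funext ea
  have h2 : (fun t => Ideal.Quotient.mk M (a (α t))) = fun x => b (α x) := by
    funext t
    exact ea (α t)
  have ha' : H50.Cl (fun t => a (α t)) := by
    intro x y
    show a (α (y * x * y⁻¹)) = a (α x)
    rw [map_mul, map_mul, map_inv]
    exact ha _ _
  rw [← h2, ← h1]
  rw [(H50.res_irr a ha hθ).1, (H50.res_irr (fun t => a (α t)) ha' hθ').1]
  congr 1
  unfold H50.om
  congr 1
  · exact Equiv.sum_comp α.toEquiv (fun t => (a t : ℂ) * θ t)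
  · show θ (α 1) = θ 1
    rw [map_one]

/-- blocks with a common character are equal -/
theorem blk_eq {b c : H → FF M} (hb : IsBlk b) (hc : IsBlk c) {θ : H → ℂ} (hθ : θ ∈ Irr H)
    (h1 : res M b θ = 1) (h2 : res M c θ = 1) : b = c := by
  have := Fintype.ofFinite H
  have hne : mulF b c ≠ 0 := by
    intro h0
    have h3 := H50.res_mul hb.1.1 hc.1.1 hθ
    rw [h0, H50.res_zero, h1, h2, mul_one] at h3
    exact zero_ne_one h3
  have h3 : mulF b c = b := (hb.2.2 c hc.1).resolve_right hne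
  have hcomm : mulF b c = mulF c b := H46.mulF_comm hb.1.1 c
  have h4 : mulF c b = c := by
    refine (hc.2.2 b hb.1).resolve_right ?_
    rw [← hcomm]
    exact hne
  rw [← h3, hcomm, h4]

end iso

section blocks

variable {V₀ G : Type} [CommGroup V₀] [Group G] [Finite G] {M : Ideal (integralClosure ℤ ℂ)}
  [M.IsMaximal]

theorem bh_supp (B : Bk (FF M) V₀ G) (W : Subgroup V₀) (s : G) (hs : s ∉ B.C W) :
    bh B W s = 0 := by
  unfold bh PP.ext0
  rw [dif_neg hs]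

theorem bh_sing (wbo : WboStmt) (ℓ : ℕ) [Fact ℓ.Prime] (hM : (ℓ : integralClosure ℤ ℂ) ∈ M)
    {E₀ : Subgroup (MulAut V₀)} {B : Bk (FF M) V₀ G} (hB : Sy ℓ M E₀ B) (W : Subgroup V₀) (s : G)
    (hs : ¬ Reg ℓ s) : bh B W s = 0 := by
  classical
  have := Fintype.ofFinite (B.C W)
  unfold bh PP.ext0
  by_cases h : s ∈ B.C W
  · rw [dif_pos h]
    refine K9.H25.eh_sing wbo ℓ M hM (fun t : B.C W => B.b W t) (hB.lb W).blk.blk.1 ⟨s, h⟩ ?_
    intro h1
    apply hs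
    have h2 : orderOf (⟨s, h⟩ : B.C W) = orderOf s := by
      rw [← Subgroup.orderOf_coe]
    have h3 : (orderOf (⟨s, h⟩ : B.C W)).Coprime ℓ := h1
    show (orderOf s).Coprime ℓ
    rw [← h2]
    exact h3
  · rw [dif_neg h]

omit [Finite G] in
theorem mem_C {F : Type} (B : Bk F V₀ G) (P : Subgroup V₀) (z : G) :
    z ∈ B.C P ↔ ∀ p ∈ P, z * B.i p = B.i p * z := by
  unfold Bk.C
  rw [Subgroup.mem_centralizer_iff]
  constructor
  · intro h p hp
    exact (h _ ⟨p, hp, rfl⟩).symm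
  · rintro h _ ⟨p, hp, rfl⟩
    exact (h p hp).symm

omit [Finite G] in
theorem mem_C_closure {F : Type} (B : Bk F V₀ G) (T : Set V₀) (z : G) :
    z ∈ B.C (Subgroup.closure T) ↔ ∀ p ∈ T, z * B.i p = B.i p * z := by
  rw [mem_C]
  constructor
  · intro h p hp
    exact h p (Subgroup.subset_closure hp)
  · intro h p hp
    induction hp using Subgroup.closure_induction with
    | mem x hx => exact h x hx
    | one => rw [map_one, mul_one, one_mul]
    | mul x y _ _ hx hy =>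
      rw [map_mul, ← mul_assoc, hx, mul_assoc, hy, mul_assoc]
    | inv x _ hx =>
      rw [map_inv]
      have h1 : Commute z (B.i x) := hx
      exact h1.inv_right

/-- conjugation -/
def conjIso {X₁ X₂ : Subgroup G} (u : G) (hu : ∀ x, x ∈ X₁ ↔ u⁻¹ * x * u ∈ X₂) : X₂ ≃* X₁ where
  toFun := fun t => ⟨u * t * u⁻¹, by
    rw [hu]
    have e : u⁻¹ * (u * (t : G) * u⁻¹) * u = t := by group
    rw [e]
    exact t.2⟩
  invFun := fun t => ⟨u⁻¹ * t * u, (hu _).1 t.2⟩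
  left_inv := fun t => Subtype.ext (by
    show u⁻¹ * (u * (t : G) * u⁻¹) * u = t
    group)
  right_inv := fun t => Subtype.ext (by
    show u * (u⁻¹ * (t : G) * u) * u⁻¹ = t
    group)
  map_mul' := fun s t => Subtype.ext (by
    show u * ((s : G) * t) * u⁻¹ = u * (s : G) * u⁻¹ * (u * (t : G) * u⁻¹)
    group)

/-- the product of the elements of two different blocks -/
theorem caseB (B : Bk (FF M) V₀ G) (W₁ W₂ : Subgroup V₀)
    (h3 : ∀ χ : G → ℂ, (∀ x, x ∉ B.C W₁ → χ x = 0) → (fun t : B.C W₁ => χ t) ∈ Irr (B.C W₁) →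
      χ ∉ Ch B W₁ → ∀ x, cv (fc B W₁ x) χ = 0)
    (h3' : ∀ χ : G → ℂ, (∀ x, x ∉ B.C W₂ → χ x = 0) → (fun t : B.C W₂ => χ t) ∈ Irr (B.C W₂) →
      χ ∉ Ch B W₂ → ∀ x, cv (fc B W₂ x) χ = 0)
    (hb1 : Bx (B.C W₁) (B.b W₁)) (hb2 : Bx (B.C W₂) (B.b W₂)) (u : G)
    (hu : ∀ x, x ∈ B.C W₁ ↔ u⁻¹ * x * u ∈ B.C W₂) (hne : H75.cj u (B.b W₂) ≠ B.b W₁)
    (c d : V₀) : mulF (fc B W₁ c) (fun x => fc B W₂ d (u⁻¹ * x * u)) = 0 := by
  classical
  have hfin : Fintype (B.C W₁) := Fintype.ofFinite _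
  have hfin2 : Fintype (B.C W₂) := Fintype.ofFinite _
  have hs2 : ∀ x, x ∉ B.C W₁ → (fun x => fc B W₂ d (u⁻¹ * x * u)) x = 0 := by
    intro x hx
    apply H3.fc_supp
    rwa [← hu]
  have hcl1 : ∀ (x y : B.C W₁), (fun t : B.C W₁ => fc B W₁ c t) (y * x * y⁻¹) =
      (fun t : B.C W₁ => fc B W₁ c t) x := fun x y => H3.fc_cl B W₁ c y x
  have hcl2 : ∀ (x y : B.C W₁), (fun t : B.C W₁ => (fun x => fc B W₂ d (u⁻¹ * x * u)) (t : G))
      (y * x * y⁻¹) = (fun t : B.C W₁ => (fun x => fc B W₂ d (u⁻¹ * x * u)) (t : G)) x := by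
    intro x y
    have hy : u⁻¹ * (y : G) * u ∈ B.C W₂ := (hu _).1 y.2
    have h4 := H3.fc_cl B W₂ d ⟨u⁻¹ * (y : G) * u, hy⟩ (u⁻¹ * x * u)
    change fc B W₂ d (u⁻¹ * ((y : G) * x * (y : G)⁻¹) * u) = fc B W₂ d (u⁻¹ * (x : G) * u)
    rw [← h4]
    congr 1
    show u⁻¹ * ((y : G) * x * (y : G)⁻¹) * u =
      u⁻¹ * (y : G) * u * (u⁻¹ * x * u) * (u⁻¹ * (y : G) * u)⁻¹
    group
  apply eq_of_res (N := B.C W₁) (mulF_supp (B.C W₁) (H3.fc_supp B W₁ c) hs2) (fun _ _ => rfl)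
  rw [mulF_res (B.C W₁) _ (H3.fc_supp B W₁ c)]
  have hm : mulF (fun t : B.C W₁ => fc B W₁ c t)
      (fun t : B.C W₁ => (fun x => fc B W₂ d (u⁻¹ * x * u)) (t : G)) =
      fun y => ∑ h, (fun t : B.C W₁ => fc B W₁ c t) h *
        (fun t : B.C W₁ => (fun x => fc B W₂ d (u⁻¹ * x * u)) (t : G)) (h⁻¹ * y) := by
    funext y
    unfold mulF
    rw [finsum_eq_sum_of_fintype]
  rw [hm]
  apply irr_complete
  · intro g h
    rw [← Equiv.sum_comp (MulAut.conj h).toEquiv]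
    refine Finset.sum_congr rfl fun t _ => ?_
    have e1 : (MulAut.conj h).toEquiv t = h * t * h⁻¹ := rfl
    rw [e1]
    congr 1
    · exact hcl1 t h
    · have e2 : (h * t * h⁻¹)⁻¹ * (h * g * h⁻¹) = h * (t⁻¹ * g) * h⁻¹ := by group
      rw [e2]
      exact hcl2 (t⁻¹ * g) h
  · intro χ' hχ'
    have hne1 : χ' 1 ≠ 0 := irr_one_ne hχ'
    have hmul := H50.om_mul (a := fun t : B.C W₁ => fc B W₁ c t)
      (b := fun t : B.C W₁ => (fun x => fc B W₂ d (u⁻¹ * x * u)) (t : G)) hcl2 hχ'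
    have hom : ∀ a : B.C W₁ → ℂ, ∑ t, a t * χ' t = H50.om a χ' * χ' 1 := by
      intro a
      unfold H50.om
      rw [div_mul_cancel₀ _ hne1]
    rw [hom]
    obtain ⟨χ, hχ⟩ : ∃ χ : G → ℂ, χ = H75.ext0 (B.C W₁) χ' := ⟨_, rfl⟩
    have hχs : ∀ x, x ∉ B.C W₁ → χ x = 0 := by rw [hχ]; exact H75.ext0_supp _ _
    have hχr : (fun t : B.C W₁ => χ t) = χ' := by rw [hχ]; exact funext (H75.ext0_apply _ _)
    have hχi : (fun t : B.C W₁ => χ t) ∈ Irr (B.C W₁) := by rw [hχr]; exact hχ'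
    by_cases hCh : χ ∈ Ch B W₁
    · -- the second factor vanishes
      obtain ⟨α, hαu⟩ : ∃ α : B.C W₂ ≃* B.C W₁, ∀ t : B.C W₂, ((α t : B.C W₁) : G) = u * t * u⁻¹ :=
        ⟨conjIso u hu, fun t => rfl⟩
      have hψi : (fun t : B.C W₂ => χ' (α t)) ∈ Irr (B.C W₂) :=
        K9.H3.irr_infl (p := α.toMonoidHom) α.surjective hχ'
      obtain ⟨ψ, hψ⟩ : ∃ ψ : G → ℂ, ψ = H75.ext0 (B.C W₂) (fun t : B.C W₂ => χ' (α t)) := ⟨_, rfl⟩
      have hψs : ∀ x, x ∉ B.C W₂ → ψ x = 0 := by rw [hψ]; exact H75.ext0_supp _ _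
      have hψr : (fun t : B.C W₂ => ψ t) = (fun t : B.C W₂ => χ' (α t)) := by
        rw [hψ]; exact funext (H75.ext0_apply _ _)
      have hcv : H50.om (fun t : B.C W₁ => (fun x => fc B W₂ d (u⁻¹ * x * u)) (t : G)) χ' =
          cv (fc B W₂ d) ψ := by
        rw [H3.cv_eq, hψr]
        unfold H50.om
        congr 1
        · rw [← Equiv.sum_comp α.toEquiv]
          refine Finset.sum_congr rfl fun t _ => ?_
          change fc B W₂ d (u⁻¹ * ((α t : B.C W₁) : G) * u) * χ' (α t) = fc B W₂ d t * χ' (α t)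
          rw [hαu]
          congr 2
          group
        · show χ' 1 = χ' (α 1)
          rw [map_one]
      have hbu : Bx (B.C W₁) (H75.cj u (B.b W₂)) := T3.H62.bx_cj hu hb2
      have hnot : ψ ∉ Ch B W₂ := by
        intro hCh2
        apply hne
        have h6 : res M (fun t : B.C W₂ => B.b W₂ t) (fun t : B.C W₂ => χ' (α t)) = 1 := by
          rw [← hψr]
          exact hCh2.2.2
        have h7 := res_iso (M := M) α (b := fun t : B.C W₁ => H75.cj u (B.b W₂) t)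
          hbu.blk.1.1 hχ'
        have h8 : (fun x : B.C W₂ => (fun t : B.C W₁ => H75.cj u (B.b W₂) t) (α x)) =
            fun t : B.C W₂ => B.b W₂ t := by
          funext t
          change B.b W₂ (u⁻¹ * ((α t : B.C W₁) : G) * u) = B.b W₂ t
          rw [hαu]
          congr 1
          group
        rw [h8, h6] at h7
        have h9 : res M (fun t : B.C W₁ => B.b W₁ t) χ' = 1 := by
          rw [← hχr]
          exact hCh.2.2
        have h10 := blk_eq hbu.blk hb1.blk hχ' h7.symm h9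
        exact eq_of_res hbu.supp hb1.supp h10
      rw [hmul, hcv, h3' ψ hψs (by rw [hψr]; exact hψi) hnot d, mul_zero, zero_mul]
    · have h5 : H50.om (fun t : B.C W₁ => fc B W₁ c t) χ' = 0 := by
        rw [← hχr, ← H3.cv_eq]
        exact h3 χ hχs hχi hCh c
      rw [hmul, h5, zero_mul, zero_mul]

end blocks

/-! ### the sums -/

section sums

variable {V₀ G : Type} [CommGroup V₀] [Group G] [Fintype G] {M : Ideal (integralClosure ℤ ℂ)}
  [M.IsMaximal] {n : ℕ}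

omit [Fintype G] in
theorem mem_pL {F : Type} (B : Bk F V₀ G) (L : Set (SS n V₀)) (z : G) :
    z ∈ B.C (pL L) ↔ ∀ s ∈ L, z * B.i s.2.2.1 = B.i s.2.2.1 * z := by
  unfold pL
  rw [mem_C_closure]
  constructor
  · intro h s hs
    exact h _ ⟨s, hs, rfl⟩
  · rintro h _ ⟨s, hs, rfl⟩
    exact h s hs

omit [Fintype G] in
theorem mem_qL {F : Type} (B : Bk F V₀ G) (L : Set (SS n V₀)) (z : G) :
    z ∈ B.C (qL L) ↔ ∀ s ∈ L, z * B.i s.2.2.2 = B.i s.2.2.2 * z := by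
  unfold qL
  rw [mem_C_closure]
  constructor
  · intro h s hs
    exact h _ ⟨s, hs, rfl⟩
  · rintro h _ ⟨s, hs, rfl⟩
    exact h s hs

theorem card_ne (X : Subgroup G) : (Nat.card X : ℂ) ≠ 0 := by
  have h : 0 < Nat.card X := Nat.card_pos
  exact_mod_cast h.ne'

theorem w12_avg (B : Bk (FF M) V₀ G) (m : ℕ) (c d : V₀) (L : Set (SS n V₀)) :
    W12 B m c d L = ((Nat.card (B.C (pL L)) : ℂ) * Nat.card (B.C (qL L)))⁻¹ *
      ∑ g, fc B (pL L) c g * ∑ h, fc B (qL L) d h * F2 m B.i L g h := by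
  have h1 : ∀ g, ∑ h, fc B (qL L) d h * F2 m B.i L g h = (Nat.card (B.C (qL L)) : ℂ) *
      (Nat.card (B.C (qL L ⊔ Subgroup.zpowers d)) : ℂ)⁻¹ *
        ∑ t, bh B (qL L ⊔ Subgroup.zpowers d) t * F2 m B.i L g (B.i d * t) := fun g =>
    fc_avg B (qL L) d (fun h => F2 m B.i L g h) (fun z hz h => f2_right ((mem_qL B L z).1 hz) g h)
  have h2 := fc_avg B (pL L) c
    (fun g => ∑ t, bh B (qL L ⊔ Subgroup.zpowers d) t * F2 m B.i L g (B.i d * t))
    (fun z hz g => Finset.sum_congr rfl fun t _ => by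
      rw [f2_left ((mem_pL B L z).1 hz)])
  have h3 : ∑ g, fc B (pL L) c g * ∑ h, fc B (qL L) d h * F2 m B.i L g h =
      (Nat.card (B.C (qL L)) : ℂ) * (Nat.card (B.C (qL L ⊔ Subgroup.zpowers d)) : ℂ)⁻¹ *
      ∑ g, fc B (pL L) c g *
        ∑ t, bh B (qL L ⊔ Subgroup.zpowers d) t * F2 m B.i L g (B.i d * t) := by
    rw [Finset.mul_sum]
    refine Finset.sum_congr rfl fun g _ => ?_
    rw [h1]
    ring
  rw [h3, h2]
  unfold W12
  have h4 : ∑ᶠ w : G × G, bh B (pL L ⊔ Subgroup.zpowers c) w.1 *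
      bh B (qL L ⊔ Subgroup.zpowers d) w.2 * {z : XX (B.i c * w.1) (B.i d * w.2) | ∀ s ∈ L,
        c12 m B.i z.1.1 z.1.2.1 z.1.2.2 s.1 s.2.1 s.2.2.1 s.2.2.2}.ncard =
      ∑ s, bh B (pL L ⊔ Subgroup.zpowers c) s *
        ∑ t, bh B (qL L ⊔ Subgroup.zpowers d) t * F2 m B.i L (B.i c * s) (B.i d * t) := by
    rw [finsum_eq_sum_of_fintype, Fintype.sum_prod_type]
    refine Finset.sum_congr rfl fun s _ => ?_
    rw [Finset.mul_sum]
    refine Finset.sum_congr rfl fun t _ => ?_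
    rw [xx_count]
    ring
  rw [h4]
  have c1 := card_ne (B.C (pL L))
  have c2 := card_ne (B.C (qL L))
  have c3 := card_ne (B.C (pL L ⊔ Subgroup.zpowers c))
  have c4 := card_ne (B.C (qL L ⊔ Subgroup.zpowers d))
  field_simp

theorem sum_F2 (m : ℕ) (ι : V₀ →* G) (L : Set (SS n V₀)) (a b : G → ℂ) [DecidablePred (PU ι L)] :
    ∑ g, a g * ∑ h, b h * F2 m ι L g h = ∑ u, if PU ι L u then
      ∑ k, mulF a (fun x => b (u⁻¹ * x * u)) k * Rk m ι L k else 0 := by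
  have h1 : ∑ g, a g * ∑ h, b h * F2 m ι L g h =
      ∑ u, ∑ g, a g * ∑ h, b h * (if PU ι L u then Rk m ι L (g * (u * h * u⁻¹)) else 0) := by
    rw [Finset.sum_comm]
    refine Finset.sum_congr rfl fun g _ => ?_
    rw [← Finset.mul_sum, Finset.sum_comm]
    congr 1
    refine Finset.sum_congr rfl fun h _ => ?_
    rw [← Finset.mul_sum]
    congr 1
    unfold F2
    refine Finset.sum_congr rfl fun u _ => ?_
    by_cases hu : PU ι L u
    · rw [if_pos hu, if_pos hu]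
    · rw [if_neg hu, if_neg hu]
  rw [h1]
  refine Finset.sum_congr rfl fun u _ => ?_
  by_cases hu : PU ι L u
  · simp only [if_pos hu]
    exact su_eq a b (Rk m ι L) u
  · simp only [if_neg hu, mul_zero, Finset.sum_const_zero]

theorem hk_eq (wbo : WboStmt) (ℓ : ℕ) [Fact ℓ.Prime] (hM : (ℓ : integralClosure ℤ ℂ) ∈ M)
    {E₀ : Subgroup (MulAut V₀)} (hFr : Fr ℓ V₀ E₀) {B : Bk (FF M) V₀ G} (hB : Sy ℓ M E₀ B)
    {m : ℕ} (hPE : PE ℓ n m G) (κ : V₀) (L : Set (SS n V₀)) :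
    HK B m κ L = (Nat.card (B.C (pL L ⊔ Subgroup.zpowers κ)) : ℂ)⁻¹ *
      ∑ t, bh B (pL L ⊔ Subgroup.zpowers κ) t * Rk m B.i L (B.i κ * t) := by
  have hsup : aL κ L ⊔ Subgroup.zpowers κ = pL L ⊔ Subgroup.zpowers κ := by
    apply le_antisymm
    · refine sup_le ?_ le_sup_right
      unfold aL
      rw [Subgroup.closure_le]
      rintro _ ⟨s, hs, rfl⟩
      refine Subgroup.mul_mem _ ?_ ?_
      · exact Subgroup.pow_mem _ ((le_sup_right : Subgroup.zpowers κ ≤ _)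
          (Subgroup.mem_zpowers κ)) _
      · exact (le_sup_left : pL L ≤ _) (Subgroup.subset_closure ⟨s, hs, rfl⟩)
    · refine sup_le ?_ le_sup_right
      unfold pL
      rw [Subgroup.closure_le]
      rintro _ ⟨s, hs, rfl⟩
      have h1 : κ ^ (s.2.1 : ℕ) * s.2.2.1 ∈ aL κ L ⊔ Subgroup.zpowers κ :=
        (le_sup_left : aL κ L ≤ _) (Subgroup.subset_closure ⟨s, hs, rfl⟩)
      have h2 : κ ^ (s.2.1 : ℕ) ∈ aL κ L ⊔ Subgroup.zpowers κ :=
        Subgroup.pow_mem _ ((le_sup_right : Subgroup.zpowers κ ≤ _) (Subgroup.mem_zpowers κ)) _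
      have h3 := Subgroup.mul_mem _ (Subgroup.inv_mem _ h2) h1
      rwa [inv_mul_cancel_left] at h3
  unfold HK
  rw [hsup, finsum_eq_sum_of_fintype]
  congr 1
  refine Finset.sum_congr rfl fun t _ => ?_
  by_cases hb : bh B (pL L ⊔ Subgroup.zpowers κ) t = 0
  · rw [hb, zero_mul, zero_mul]
  have ht : t ∈ B.C (pL L ⊔ Subgroup.zpowers κ) := by
    by_contra h
    exact hb (bh_supp B _ t h)
  have hr : Reg ℓ t := by
    by_contra h
    exact hb (bh_sing wbo ℓ hM hB _ t h)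
  have hcom : Commute (B.i κ) t :=
    ((mem_C B _ t).1 ht κ ((le_sup_right : Subgroup.zpowers κ ≤ _) (Subgroup.mem_zpowers κ))).symm
  have hel : El ℓ (B.i κ) := ⟨1, by rw [pow_one, ← map_pow, hFr.ex, map_one]⟩
  have hpow : (B.i κ * t) ^ m = B.i κ := by
    rw [hcom.mul_pow, (hPE.el _ hel).1, hPE.rg t hr, mul_one]
  congr 1
  unfold Rk
  congr 2
  ext w
  refine and_congr_right fun _ => forall₂_congr fun s _ => ?_
  unfold Cnd
  rw [hpow, ← map_pow, ← map_mul]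

end sums

/-! ### the elements which map the second components to the first -/

section pus

variable {V₀ G : Type} [CommGroup V₀] [Group G] {F : Type} {n : ℕ}

theorem pu_mem {B : Bk F V₀ G} {L : Set (SS n V₀)} {u : G} (hu : PU B.i L u) (x : G) :
    x ∈ B.C (pL L) ↔ u⁻¹ * x * u ∈ B.C (qL L) := by
  rw [mem_pL, mem_qL]
  refine forall₂_congr fun s hs => ?_
  rw [← hu s hs]
  constructor
  · intro h
    have e1 : u⁻¹ * x * u * B.i s.2.2.2 = u⁻¹ * (x * (u * B.i s.2.2.2 * u⁻¹)) * u := by group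
    have e2 : B.i s.2.2.2 * (u⁻¹ * x * u) = u⁻¹ * (u * B.i s.2.2.2 * u⁻¹ * x) * u := by group
    rw [e1, e2, h]
  · intro h
    have e1 : x * (u * B.i s.2.2.2 * u⁻¹) = u * (u⁻¹ * x * u * B.i s.2.2.2) * u⁻¹ := by group
    have e2 : u * B.i s.2.2.2 * u⁻¹ * x = u * (B.i s.2.2.2 * (u⁻¹ * x * u)) * u⁻¹ := by group
    rw [e1, e2, h]

theorem pu_to {B : Bk F V₀ G} {L : Set (SS n V₀)} {u : G} (hu : PU B.i L u) :
    ∀ v ∈ qL L, ∃ w ∈ pL L, u * B.i v * u⁻¹ = B.i w := by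
  intro v hv
  unfold qL at hv
  induction hv using Subgroup.closure_induction with
  | mem x hx =>
    obtain ⟨s, hs, rfl⟩ := hx
    exact ⟨s.2.2.1, Subgroup.subset_closure ⟨s, hs, rfl⟩, hu s hs⟩
  | one => exact ⟨1, Subgroup.one_mem _, by rw [map_one]; group⟩
  | mul x y _ _ hx hy =>
    obtain ⟨a, ha, ha'⟩ := hx
    obtain ⟨b, hb, hb'⟩ := hy
    refine ⟨a * b, Subgroup.mul_mem _ ha hb, ?_⟩
    rw [map_mul, map_mul, ← ha', ← hb']
    group
  | inv x _ hx =>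
    obtain ⟨a, ha, ha'⟩ := hx
    refine ⟨a⁻¹, Subgroup.inv_mem _ ha, ?_⟩
    rw [map_inv, map_inv, ← ha']
    group

theorem pu_from {B : Bk F V₀ G} {L : Set (SS n V₀)} {u : G} (hu : PU B.i L u) :
    ∀ w ∈ pL L, ∃ v ∈ qL L, u * B.i v * u⁻¹ = B.i w := by
  intro v hv
  unfold pL at hv
  induction hv using Subgroup.closure_induction with
  | mem x hx =>
    obtain ⟨s, hs, rfl⟩ := hx
    exact ⟨s.2.2.2, Subgroup.subset_closure ⟨s, hs, rfl⟩, hu s hs⟩
  | one => exact ⟨1, Subgroup.one_mem _, by rw [map_one]; group⟩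
  | mul x y _ _ hx hy =>
    obtain ⟨a, ha, ha'⟩ := hx
    obtain ⟨b, hb, hb'⟩ := hy
    refine ⟨a * b, Subgroup.mul_mem _ ha hb, ?_⟩
    rw [map_mul, map_mul, ← ha', ← hb']
    group
  | inv x _ hx =>
    obtain ⟨a, ha, ha'⟩ := hx
    refine ⟨a⁻¹, Subgroup.inv_mem _ ha, ?_⟩
    rw [map_inv, map_inv, ← ha']
    group

theorem map_qL {L : Set (SS n V₀)} {σ : MulAut V₀} (hσ : ∀ s ∈ L, σ s.2.2.2 = s.2.2.1) :
    (qL L).map σ.toMonoidHom = pL L := by
  unfold qL pL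
  rw [MonoidHom.map_closure]
  congr 1
  ext p
  constructor
  · rintro ⟨_, ⟨s, hs, rfl⟩, rfl⟩
    exact ⟨s, hs, (hσ s hs).symm⟩
  · rintro ⟨s, hs, rfl⟩
    exact ⟨s.2.2.2, ⟨s, hs, rfl⟩, hσ s hs⟩

end pus

/-! ### the row -/

/-- Row W12A. -/
theorem w12a (wbo : WboStmt) (nsv : NsvStmt) (fuw : FuwStmt) (cjt : CjtStmt) (mul : MulStmt) :
    W12AStmt := by
  intro ℓ _ M _ hM hℓ V₀ G _ _ _ _ E₀ hFr B hSy n m hPE c d L
  classical
  have hfG : Fintype G := Fintype.ofFinite G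
  refine ⟨fun hp hq => ?_, fun hp => ?_⟩
  · -- no `u`
    have hpn : ∀ s ∈ L, s.2.2.1 = 1 := by
      intro s hs
      have h1 : s.2.2.1 ∈ pL L := Subgroup.subset_closure ⟨s, hs, rfl⟩
      rw [hp] at h1
      exact h1
    have hqn : ∃ s ∈ L, s.2.2.2 ≠ 1 := by
      by_contra hcon
      apply hq
      unfold qL
      rw [Subgroup.closure_eq_bot_iff]
      rintro _ ⟨s, hs, rfl⟩
      by_contra h
      exact hcon ⟨s, hs, h⟩
    obtain ⟨s, hs, hne⟩ := hqn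
    have hPU : ∀ u, ¬ PU B.i L u := by
      intro u hu
      have h1 := hu s hs
      rw [hpn s hs, map_one] at h1
      have h2 : B.i s.2.2.2 = 1 := by
        have h3 : u * B.i s.2.2.2 = u := by
          rw [← mul_inv_eq_one]
          exact h1
        exact mul_eq_left.1 h3
      exact hne (hSy.inj (by rw [h2, map_one]))
    rw [w12_avg]
    have h0 : ∀ g h, F2 m B.i L g h = 0 := by
      intro g h
      unfold F2
      exact Finset.sum_eq_zero fun u _ => if_neg (hPU u)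
    simp only [h0, mul_zero, Finset.sum_const_zero]
  · obtain ⟨hb2, hb1⟩ : Bx (B.C (qL L)) (B.b (qL L)) ∧ Bx (B.C (pL L)) (B.b (pL L)) :=
      ⟨(hSy.lb _).blk, (hSy.lb _).blk⟩
    have hfM : Finite (MulAut V₀) :=
      Finite.of_injective (fun σ : MulAut V₀ => (σ : V₀ → V₀)) DFunLike.coe_injective
    have hfE : Fintype (EL E₀ L) := Fintype.ofFinite _
    have hfC : Fintype (B.C (qL L)) := Fintype.ofFinite _
    choose t ht htv using fun σ : EL E₀ L => hSy.sur σ.1 σ.2.1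
    obtain ⟨S, hS⟩ : ∃ S : G → ℂ, S = fun u => ∑ k, mulF (fc B (pL L) c)
      (fun x => fc B (qL L) d (u⁻¹ * x * u)) k * Rk m B.i L k := ⟨_, rfl⟩
    obtain ⟨T, hT⟩ : ∃ T : EL E₀ L → ℂ, T = fun σ =>
      ∑ k, fc B (pL L) (c * σ.1 d) k * Rk m B.i L k := ⟨_, rfl⟩
    obtain ⟨cf, hcf⟩ : ∃ cf : EL E₀ L → ℂ, cf = fun σ =>
      ((ux B.U (pL L) c * ux B.U (pL L) (σ.1 d) / ux B.U (pL L) (c * σ.1 d) : ℚ) : ℂ) := ⟨_, rfl⟩
    -- the elements which come from the inertial group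
    have hD1 : ∀ (σ : EL E₀ L) (z : B.C (qL L)), PU B.i L (t σ * z) ∧
        H75.cj (t σ * (z : G)) (B.b (qL L)) = B.b (pL L) ∧ S (t σ * z) = cf σ * T σ := by
      intro σ z
      have hz := (mem_qL B L z).1 z.2
      have hmap := map_qL (L := L) (σ := σ.1) σ.2.2
      obtain ⟨k1, -, -, -, k5, -⟩ := cjt ℓ M hM hℓ V₀ G E₀ hFr B hSy σ.1 σ.2.1 (t σ) (ht σ) (htv σ)
        (qL L)
      rw [hmap] at k1
      refine ⟨fun s hs => ?_, ?_, ?_⟩
      · have e1 : t σ * (z : G) * B.i s.2.2.2 * (t σ * (z : G))⁻¹ =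
            t σ * B.i s.2.2.2 * (t σ)⁻¹ := by
          calc t σ * (z : G) * B.i s.2.2.2 * (t σ * (z : G))⁻¹ =
              t σ * ((z : G) * B.i s.2.2.2) * (z : G)⁻¹ * (t σ)⁻¹ := by group
            _ = t σ * B.i s.2.2.2 * (t σ)⁻¹ := by rw [hz s hs]; group
        rw [e1, htv σ, σ.2.2 s hs]
      · rw [← cj_cj, hb2.ix.inv z.2, k1]
      · have hfun : (fun x => fc B (qL L) d ((t σ * (z : G))⁻¹ * x * (t σ * (z : G)))) =
            fc B (pL L) (σ.1 d) := by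
          funext x
          have e1 : (t σ * (z : G))⁻¹ * x * (t σ * (z : G)) =
              ((z⁻¹ : B.C (qL L)) : G) * ((t σ)⁻¹ * x * t σ) * ((z⁻¹ : B.C (qL L)) : G)⁻¹ := by
            rw [Subgroup.coe_inv]
            group
          rw [e1, H3.fc_cl]
          have h5 := k5 d ((t σ)⁻¹ * x * t σ)
          have e2 : t σ * ((t σ)⁻¹ * x * t σ) * (t σ)⁻¹ = x := by group
          rw [e2, hmap] at h5
          exact h5.symm
        rw [hS, hT, hcf]
        show ∑ k, mulF (fc B (pL L) c)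
          (fun x => fc B (qL L) d ((t σ * (z : G))⁻¹ * x * (t σ * (z : G)))) k * Rk m B.i L k = _
        rw [hfun, Finset.mul_sum]
        refine Finset.sum_congr rfl fun k _ => ?_
        rw [mul ℓ M hM hℓ V₀ G E₀ hFr B hSy (pL L) hp c (σ.1 d) k]
        ring
    -- a nontrivial element of the second group
    have hq0 : ∀ u, PU B.i L u → ∃ v ∈ qL L, v ≠ 1 := by
      intro u hu
      by_contra hcon
      apply hp
      rw [eq_bot_iff]
      intro w hw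
      obtain ⟨v, hv, hvw⟩ := pu_from hu w hw
      have hv1 : v = 1 := by
        by_contra h
        exact hcon ⟨v, hv, h⟩
      rw [hv1, map_one, mul_one, mul_inv_cancel] at hvw
      rw [Subgroup.mem_bot]
      exact hSy.inj (by rw [← hvw, map_one])
    have hsum : ∑ u, (if PU B.i L u then S u else 0) =
        ∑ w : EL E₀ L × B.C (qL L), S (t w.1 * w.2) := by
      rw [← Finset.sum_filter]
      have hsub : Finset.univ.filter (fun u => PU B.i L u ∧ H75.cj u (B.b (qL L)) = B.b (pL L)) ⊆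
          Finset.univ.filter (PU B.i L) := by
        intro u hu
        rw [Finset.mem_filter] at hu ⊢
        exact ⟨hu.1, hu.2.1⟩
      rw [← Finset.sum_subset hsub ?_]
      · symm
        refine Finset.sum_bij (fun w _ => t w.1 * w.2) ?_ ?_ ?_ ?_
        · intro w _
          rw [Finset.mem_filter]
          obtain ⟨h1, h2, -⟩ := hD1 w.1 w.2
          exact ⟨Finset.mem_univ _, h1, h2⟩
        · intro w _ w' _ h
          have hu := (hD1 w.1 w.2).1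
          obtain ⟨v, hv, hv1⟩ := hq0 _ hu
          have hact : ∀ y : EL E₀ L × B.C (qL L), t y.1 * (y.2 : G) * B.i v * (t y.1 * (y.2 : G))⁻¹ =
              B.i (y.1.1 v) := by
            intro y
            have h1 := (mem_C B _ _).1 y.2.2 v hv
            calc t y.1 * (y.2 : G) * B.i v * (t y.1 * (y.2 : G))⁻¹ =
                t y.1 * ((y.2 : G) * B.i v) * (y.2 : G)⁻¹ * (t y.1)⁻¹ := by group
              _ = t y.1 * B.i v * (t y.1)⁻¹ := by rw [h1]; group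
              _ = B.i (y.1.1 v) := htv y.1 v
          have h2 : B.i (w.1.1 v) = B.i (w'.1.1 v) := by
            rw [← hact w, ← hact w']
            show t w.1 * (w.2 : G) * B.i v * (t w.1 * (w.2 : G))⁻¹ =
              t w'.1 * (w'.2 : G) * B.i v * (t w'.1 * (w'.2 : G))⁻¹
            have h' : t w.1 * (w.2 : G) = t w'.1 * (w'.2 : G) := h
            rw [h']
          have h3 : w.1.1 v = w'.1.1 v := hSy.inj h2
          have h4 : (w'.1.1)⁻¹ * w.1.1 = 1 := by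
            by_contra hne
            apply hv1
            refine hFr.fr ((w'.1.1)⁻¹ * w.1.1) (E₀.mul_mem (E₀.inv_mem w'.1.2.1) w.1.2.1) hne v ?_
            rw [MulAut.mul_apply, h3]
            exact MulAut.inv_apply_self _ _ _
          have h5 : w.1 = w'.1 := Subtype.ext (inv_mul_eq_one.1 h4).symm
          have h' : t w.1 * (w.2 : G) = t w'.1 * (w'.2 : G) := h
          rw [h5] at h'
          exact Prod.ext h5 (Subtype.ext (mul_left_cancel h'))
        · intro u hu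
          rw [Finset.mem_filter] at hu
          obtain ⟨-, hu1, hu2⟩ := hu
          obtain ⟨f, hf⟩ : ∃ f : V₀ → V₀, ∀ v ∈ qL L, f v ∈ pL L ∧ u * B.i v * u⁻¹ = B.i (f v) := by
            choose g hg1 hg2 using pu_to hu1
            refine ⟨fun v => if h : v ∈ qL L then g v h else 1, fun v hv => ?_⟩
            simp only [dif_pos hv]
            exact ⟨hg1 v hv, hg2 v hv⟩
          obtain ⟨σ, hσ, hfσ, -⟩ := fuw ℓ M hM V₀ G E₀ hFr B hSy.toSb (pL L) (qL L) u f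
            (fun v hv => (hf v hv).2) (fun v hv => (hf v hv).1) (fun w hw => by
              obtain ⟨v, hv, hvw⟩ := pu_from hu1 w hw
              refine ⟨v, hv, hSy.inj ?_⟩
              rw [← (hf v hv).2, hvw]) hu2
          have hσL : σ ∈ EL E₀ L := by
            refine ⟨hσ, fun s hs => ?_⟩
            have hqs : s.2.2.2 ∈ qL L := Subgroup.subset_closure ⟨s, hs, rfl⟩
            rw [← hfσ _ hqs]
            apply hSy.inj
            rw [← (hf _ hqs).2]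
            exact hu1 s hs
          have hz : (t ⟨σ, hσL⟩)⁻¹ * u ∈ B.C (qL L) := by
            rw [mem_C]
            intro v hv
            have h1 := (hf v hv).2
            rw [hfσ v hv] at h1
            have h2 := htv ⟨σ, hσL⟩ v
            have h3 : u * B.i v = B.i (σ v) * u := by
              rw [← h1]
              group
            have h4 : (t ⟨σ, hσL⟩)⁻¹ * B.i (σ v) = B.i v * (t ⟨σ, hσL⟩)⁻¹ := by
              rw [← h2]
              group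
            rw [mul_assoc, h3, ← mul_assoc, h4, mul_assoc]
          refine ⟨(⟨σ, hσL⟩, ⟨(t ⟨σ, hσL⟩)⁻¹ * u, hz⟩), Finset.mem_univ _, ?_⟩
          show t ⟨σ, hσL⟩ * ((t ⟨σ, hσL⟩)⁻¹ * u) = u
          group
        · intro w _
          rfl
      · intro u hu hnu
        rw [Finset.mem_filter] at hu
        have hne : H75.cj u (B.b (qL L)) ≠ B.b (pL L) := by
          intro h
          apply hnu
          rw [Finset.mem_filter]
          exact ⟨Finset.mem_univ _, hu.2, h⟩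
        obtain ⟨v, hv, hv1⟩ := hq0 u hu.2
        have hqne : qL L ≠ ⊥ := by
          intro h
          rw [h] at hv
          exact hv1 hv
        obtain ⟨-, -, g3, -⟩ := nsv ℓ M hM hℓ V₀ G E₀ hFr B hSy (pL L) hp
        obtain ⟨-, -, g3', -⟩ := nsv ℓ M hM hℓ V₀ G E₀ hFr B hSy (qL L) hqne
        have h6 := caseB B (pL L) (qL L) g3 g3' hb1 hb2 u (fun x => pu_mem hu.2 x) hne c d
        rw [hS]
        show ∑ k, mulF (fc B (pL L) c) (fun x => fc B (qL L) d (u⁻¹ * x * u)) k *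
          Rk m B.i L k = 0
        rw [h6]
        simp only [Pi.zero_apply, zero_mul, Finset.sum_const_zero]
    have hT' : ∀ σ : EL E₀ L, T σ = Nat.card (B.C (pL L)) * HK B m (c * σ.1 d) L := by
      intro σ
      rw [hk_eq wbo ℓ hM hFr hSy hPE, hT]
      show ∑ k, fc B (pL L) (c * σ.1 d) k * Rk m B.i L k = _
      rw [fc_avg B (pL L) (c * σ.1 d) (Rk m B.i L)
        (fun z hz g => rk_conj m B.i L z g ((mem_pL B L z).1 hz))]
      ring
    rw [w12_avg, sum_F2]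
    have hS' : ∀ u, ∑ k, mulF (fc B (pL L) c) (fun x => fc B (qL L) d (u⁻¹ * x * u)) k *
        Rk m B.i L k = S u := by
      intro u
      rw [hS]
    simp only [hS']
    rw [hsum, Fintype.sum_prod_type]
    have h7 : ∀ σ : EL E₀ L, ∑ z : B.C (qL L), S (t σ * z) =
        Nat.card (B.C (qL L)) * (Nat.card (B.C (pL L)) * (cf σ * HK B m (c * σ.1 d) L)) := by
      intro σ
      rw [Finset.sum_congr rfl fun z _ => (hD1 σ z).2.2, Finset.sum_const, Finset.card_univ,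
        nsmul_eq_mul, hT', Nat.card_eq_fintype_card (α := B.C (qL L))]
      ring
    rw [Finset.sum_congr rfl fun σ _ => h7 σ, ← Finset.mul_sum, ← Finset.mul_sum,
      ← finsum_set_coe_eq_finsum_mem, finsum_eq_sum_of_fintype]
    have c1 := card_ne (B.C (pL L))
    have c2 := card_ne (B.C (qL L))
    have h8 : ∑ σ : EL E₀ L, cf σ * HK B m (c * σ.1 d) L = ∑ σ : EL E₀ L,
        ((ux B.U (pL L) c * ux B.U (pL L) (σ.1 d) / ux B.U (pL L) (c * σ.1 d) : ℚ) : ℂ) *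
          HK B m (c * σ.1 d) L := by
      rw [hcf]
    rw [← h8]
    field_simp

end Pool.Agent.PP.SO.H63
end
end -- Pool.Agent.Helper63_ASO.W12A

section -- Pool.Agent.Helper25_ASO.M12

/-!
# Squad ASO, row M12
-/

open scoped BigOperators

noncomputable section

namespace Pool.Agent.PP.SO.H25

open Pool.Agent.Helper51_AWC Pool.Agent.Helper79_WRA Pool.Agent.PP Pool.Agent.PP.KF
open Pool.Agent.PP.K9 Pool.Agent.PP.K9.H97 Pool.Agent.PP.H75 Pool.Agent.PP.T3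
open Pool.Agent.PP.SO

attribute [local instance] Ideal.Quotient.field

theorem cnt (mbi : MbiStmt) {A X : Type} [Finite A] [Finite X] (F : Set A → ℚ) (T₀ : Set A)
    (W : Set X) (τ : X → Set A) (v : ℚ) (hτ : ∀ w ∈ W, τ w ⊆ T₀) (hv : ∀ w ∈ W, F (τ w) = v) :
    ∑ᶠ L ∈ {L : Set A | L ⊆ T₀}, (mob F L : ℂ) * (({w | w ∈ W ∧ L ⊆ τ w} : Set X).ncard : ℂ) =
      v * (W.ncard : ℂ) := by
  classical
  have := Fintype.ofFinite A
  have := Fintype.ofFinite X
  have hc : ∀ L : Set A, (({w | w ∈ W ∧ L ⊆ τ w} : Set X).ncard : ℂ) =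
      ∑ w ∈ W.toFinset, if L ⊆ τ w then (1 : ℂ) else 0 := by
    intro L
    rw [Finset.sum_ite, Finset.sum_const_zero, add_zero, Finset.sum_const, nsmul_eq_mul, mul_one]
    congr 1
    rw [Set.ncard_eq_toFinset_card']
    congr 1
    ext w
    simp
  rw [finsum_mem_eq_toFinset_sum]
  simp only [hc, Finset.mul_sum]
  rw [Finset.sum_comm]
  have h1 : ∀ w ∈ W.toFinset, ∑ L ∈ ({L : Set A | L ⊆ T₀} : Set (Set A)).toFinset,
      (mob F L : ℂ) * (if L ⊆ τ w then (1 : ℂ) else 0) = (v : ℂ) := by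
    intro w hw
    rw [Set.mem_toFinset] at hw
    have h2 := (mbi A F).1 (τ w)
    rw [finsum_mem_eq_toFinset_sum] at h2
    rw [hv w hw] at h2
    rw [← h2]
    push_cast
    simp only [mul_ite, mul_one, mul_zero]
    rw [← Finset.sum_filter]
    apply Finset.sum_congr _ (fun _ _ => rfl)
    ext L
    simp only [Finset.mem_filter, Set.mem_toFinset, Set.mem_setOf_eq]
    exact ⟨fun h => h.2, fun h => ⟨h.trans (hτ w hw), h⟩⟩
  rw [Finset.sum_congr rfl h1, Finset.sum_const, nsmul_eq_mul, Set.ncard_eq_toFinset_card',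
    mul_comm]

theorem m12 (mbi : MbiStmt) (wze : WzeStmt) : M12Stmt := by
  intro ℓ _ M _ hM V₀ G _ _ _ _ E₀ hV B hB n m κ κ₂ hκ F v hn hF
  classical
  have := Fintype.ofFinite G
  have hW := (wze ℓ M hM V₀ G E₀ hV B hB).2.1 κ hκ
  obtain ⟨τ₀, hτ₀⟩ : ∃ τ₀ : Set (SS n V₀), τ₀ =
      {s | s.2.2.1 = κ⁻¹ ^ (s.2.1 : ℕ) ∧ s.2.2.2 = κ₂⁻¹ ^ (s.2.1 : ℕ)} := ⟨_, rfl⟩
  have hset : {L : Set (SS n V₀) | ∀ s ∈ L, s.2.2.1 = κ⁻¹ ^ (s.2.1 : ℕ) ∧
      s.2.2.2 = κ₂⁻¹ ^ (s.2.1 : ℕ)} = {L : Set (SS n V₀) | L ⊆ τ₀} := by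
    rw [hτ₀]
    rfl
  rw [hset]
  -- the value of `HK`
  obtain ⟨N, hN⟩ : ∃ N : G → Set (SS n V₀) → ℂ, N = fun t L =>
      (({w : G × G | w ∈ {w : G × G | kap w.1 w.2 = B.i κ * t} ∧
        L ⊆ {s | s ∈ τ₀ ∧ (w.1 ^ m) ^ (s.1 : ℕ) = 1}} : Set (G × G)).ncard : ℂ) := ⟨_, rfl⟩
  have hHK : ∀ L : Set (SS n V₀), L ⊆ τ₀ → HK B m κ L =
      (Nat.card (B.C (Subgroup.zpowers κ)) : ℂ)⁻¹ *
        ∑ t : G, bh B (Subgroup.zpowers κ) t * N t L := by
    intro L hL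
    have hp : ∀ s ∈ L, κ ^ (s.2.1 : ℕ) * s.2.2.1 = 1 := by
      intro s hs
      have h1 := hL hs
      rw [hτ₀] at h1
      rw [h1.1, inv_pow, mul_inv_cancel]
    have haL : aL κ L = ⊥ := by
      unfold aL
      rw [Subgroup.closure_eq_bot_iff]
      rintro a ⟨s, hs, rfl⟩
      rw [Set.mem_singleton_iff]
      exact hp s hs
    unfold HK
    rw [haL, bot_sup_eq, finsum_eq_sum_of_fintype]
    congr 1
    refine Finset.sum_congr rfl fun t _ => ?_
    rw [hN]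
    congr 3
    ext w
    simp only [Set.mem_setOf_eq]
    refine and_congr_right fun _ => ?_
    constructor
    · intro h s hs
      refine ⟨hL hs, ?_⟩
      have h2 := (h s hs).2
      rw [hp s hs, map_one, mul_one, inv_mul_cancel, one_mul] at h2
      exact h2.symm
    · intro h s hs
      have h2 : (w.1 ^ m) ^ (s.1 : ℕ) = 1 := (h hs).2
      rw [hp s hs, map_one, h2]
      simp
  have hsum : ∀ t : G, ∑ᶠ L ∈ {L : Set (SS n V₀) | L ⊆ τ₀}, (mob F L : ℂ) * N t L =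
      v * (({w : G × G | kap w.1 w.2 = B.i κ * t} : Set (G × G)).ncard : ℂ) := by
    intro t
    rw [hN]
    apply cnt mbi F τ₀ {w : G × G | kap w.1 w.2 = B.i κ * t}
      (fun w => {s | s ∈ τ₀ ∧ (w.1 ^ m) ^ (s.1 : ℕ) = 1}) v
    · intro w _ s hs
      exact hs.1
    · intro w _
      have h1 := hF {i : Fin n | (w.1 ^ m) ^ (i : ℕ) = 1} ⟨⟨0, hn⟩, by
        simp, rfl⟩
      rw [← h1]
      congr 1
      ext s
      rw [hτ₀]
      simp only [Set.mem_setOf_eq]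
      exact ⟨fun h => ⟨h.2, h.1.1, h.1.2⟩, fun h => ⟨⟨h.2.1, h.2.2⟩, h.1⟩⟩
  have hfin : ({L : Set (SS n V₀) | L ⊆ τ₀} : Set (Set (SS n V₀))).Finite := Set.toFinite _
  have e1 : ∑ᶠ L ∈ {L : Set (SS n V₀) | L ⊆ τ₀}, (mob F L : ℂ) * HK B m κ L =
      (Nat.card (B.C (Subgroup.zpowers κ)) : ℂ)⁻¹ *
        ∑ t : G, bh B (Subgroup.zpowers κ) t *
          ∑ᶠ L ∈ {L : Set (SS n V₀) | L ⊆ τ₀}, (mob F L : ℂ) * N t L := by
    simp only [finsum_mem_eq_finite_toFinset_sum _ hfin]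
    simp only [Finset.mul_sum]
    rw [Finset.sum_comm]
    have h3 : ∀ L ∈ hfin.toFinset, (mob F L : ℂ) * HK B m κ L = ∑ t : G,
        (Nat.card (B.C (Subgroup.zpowers κ)) : ℂ)⁻¹ * (bh B (Subgroup.zpowers κ) t *
          ((mob F L : ℂ) * N t L)) := by
      intro L hL
      rw [Set.Finite.mem_toFinset] at hL
      rw [hHK L hL, Finset.mul_sum, Finset.mul_sum]
      exact Finset.sum_congr rfl fun t _ => by ring
    exact Finset.sum_congr rfl h3
  rw [e1, ← hW, finsum_eq_sum_of_fintype]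
  simp only [hsum, Finset.mul_sum]
  exact Finset.sum_congr rfl fun t _ => by ring

end Pool.Agent.PP.SO.H25
end
end -- Pool.Agent.Helper25_ASO.M12

section -- Pool.Agent.Helper94_ASE.FWB

/-!
# ASE row FWB: the part with `aL = ⊥`
-/

open scoped BigOperators

set_option autoImplicit false
set_option linter.unusedSectionVars false

noncomputable section

namespace Pool.Agent.PP.SE.H94

open Pool.Agent.Helper51_AWC Pool.Agent.Helper79_WRA Pool.Agent.PP Pool.Agent.PP.KF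
open Pool.Agent.PP.K9 Pool.Agent.PP.K9.H97 Pool.Agent.PP.H75 Pool.Agent.PP.T3 Pool.Agent.PP.SO
open Pool.Agent.PP.SD

attribute [local instance] Ideal.Quotient.field

theorem pL_bot {V₀ : Type} [CommGroup V₀] {n : ℕ} {L : Set (SO.SS n V₀)} :
    pL L = ⊥ ↔ ∀ s ∈ L, s.2.2.1 = 1 := by
  unfold pL
  rw [Subgroup.closure_eq_bot_iff]
  constructor
  · intro h s hs
    exact h ⟨s, hs, rfl⟩
  · rintro h _ ⟨s, hs, rfl⟩
    exact h s hs

/-- the sums without local part -/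
theorem fwb_cnt (mbi : MbiStmt) {V₀ G : Type} [CommGroup V₀] [Finite V₀] [Group G] [Finite G]
    {ℓ : ℕ} {M : Ideal (integralClosure ℤ ℂ)} [M.IsMaximal] (B : Bk (FF M) V₀ G) {n m : ℕ}
    (a : Subgroup V₀) (z : G → ℂ) (κ : V₀) (hz : ∀ g, z g ≠ 0 → g ^ m = B.i κ)
    (F : Set (SO.SS n V₀) → ℚ) (T₀ : Set (SO.SS n V₀)) (v : ℚ)
    (hT : ∀ s ∈ T₀, κ ^ (s.2.1 : ℕ) * s.2.2.1 = 1)
    (hF : ∀ x : G, F {s | s ∈ T₀ ∧ (x ^ m) ^ (s.1 : ℕ) = 1} = v) :
    ∑ᶠ L ∈ {L : Set (SO.SS n V₀) | L ⊆ T₀}, ((mob F L : ℚ) : ℂ) * HX B m a z L =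
      (v : ℂ) * ((Nat.card (B.C a) : ℂ)⁻¹ *
        ∑ᶠ g, z g * {w : G × G | SO.kap w.1 w.2 = g}.ncard) := by
  classical
  have := Fintype.ofFinite G
  obtain ⟨N, hN⟩ : ∃ N : G → Set (SO.SS n V₀) → ℂ, N = fun g L =>
      (({w : G × G | w ∈ {w : G × G | SO.kap w.1 w.2 = g} ∧
        L ⊆ {s | s ∈ T₀ ∧ (w.1 ^ m) ^ (s.1 : ℕ) = 1}} : Set (G × G)).ncard : ℂ) := ⟨_, rfl⟩
  have hHX : ∀ L : Set (SO.SS n V₀), L ⊆ T₀ → HX B m a z L =
      (Nat.card (B.C a) : ℂ)⁻¹ * ∑ g : G, z g * N g L := by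
    intro L hL
    unfold HX
    rw [finsum_eq_sum_of_fintype]
    congr 1
    refine Finset.sum_congr rfl fun g _ => ?_
    by_cases hg : z g = 0
    · rw [hg, zero_mul, zero_mul]
    have hgm := hz g hg
    rw [hN]
    congr 3
    ext w
    simp only [Set.mem_setOf_eq]
    refine and_congr_right fun _ => ?_
    have hone : ∀ s ∈ L, (g ^ m) ^ (s.2.1 : ℕ) * B.i s.2.2.1 = 1 := by
      intro s hs
      rw [hgm, ← map_pow, ← map_mul, hT s (hL hs), map_one]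
    constructor
    · intro h s hs
      refine ⟨hL hs, ?_⟩
      have h2 := (h s hs).2
      rw [hone s hs, mul_one, inv_mul_cancel, one_mul] at h2
      exact h2.symm
    · intro h s hs
      have h2 : (w.1 ^ m) ^ (s.1 : ℕ) = 1 := (h hs).2
      rw [hone s hs, h2]
      simp
  have hsum : ∀ g : G, ∑ᶠ L ∈ {L : Set (SO.SS n V₀) | L ⊆ T₀}, (mob F L : ℂ) * N g L =
      v * (({w : G × G | SO.kap w.1 w.2 = g} : Set (G × G)).ncard : ℂ) := by
    intro g
    rw [hN]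
    apply SO.H25.cnt mbi F T₀ {w : G × G | SO.kap w.1 w.2 = g}
      (fun w => {s | s ∈ T₀ ∧ (w.1 ^ m) ^ (s.1 : ℕ) = 1}) v
    · intro w _ s hs
      exact hs.1
    · intro w _
      exact hF w.1
  have hfin : ({L : Set (SO.SS n V₀) | L ⊆ T₀} : Set (Set (SO.SS n V₀))).Finite := Set.toFinite _
  have e1 : ∑ᶠ L ∈ {L : Set (SO.SS n V₀) | L ⊆ T₀}, (mob F L : ℂ) * HX B m a z L =
      (Nat.card (B.C a) : ℂ)⁻¹ * ∑ g : G, z g *
        ∑ᶠ L ∈ {L : Set (SO.SS n V₀) | L ⊆ T₀}, (mob F L : ℂ) * N g L := by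
    simp only [finsum_mem_eq_finite_toFinset_sum _ hfin]
    simp only [Finset.mul_sum]
    rw [Finset.sum_comm]
    have h3 : ∀ L ∈ hfin.toFinset, (mob F L : ℂ) * HX B m a z L = ∑ g : G,
        (Nat.card (B.C a) : ℂ)⁻¹ * (z g * ((mob F L : ℂ) * N g L)) := by
      intro L hL
      rw [Set.Finite.mem_toFinset] at hL
      rw [hHX L hL, Finset.mul_sum, Finset.mul_sum]
      exact Finset.sum_congr rfl fun t _ => by ring
    exact Finset.sum_congr rfl h3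
  rw [e1, finsum_eq_sum_of_fintype]
  simp only [hsum, Finset.mul_sum]
  exact Finset.sum_congr rfl fun t _ => by ring

theorem fwb (mbi : MbiStmt) (xem : XemStmt) : FwbStmt := by
  classical
  intro ℓ _ M _ hM hℓ2 V₀ G _ _ _ _ E₀ hFq B hB D hD n m hn hPE a ha κ hκ σ hσ F v v' hv hv'
  have hac : Nat.card a = ℓ := ha.1
  have ha1 : a ≠ ⊥ := by
    intro h
    rw [h, Subgroup.card_bot] at hac
    exact (Fact.out : ℓ.Prime).one_lt.ne hac
  constructor
  · intro hκ1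
    have : {L : Set (SO.SS n V₀) | pL L = a ∧ (∀ s ∈ L, σ s.2.2.2 = s.2.2.1) ∧
        ∀ s ∈ L, κ ^ (s.2.1 : ℕ) * s.2.2.1 = 1} = ∅ := by
      ext L
      simp only [Set.mem_setOf_eq, Set.mem_empty_iff_false, iff_false]
      rintro ⟨h1, -, h3⟩
      apply ha1
      rw [← h1, pL_bot]
      intro s hs
      have := h3 s hs
      rwa [hκ1, one_pow, one_mul] at this
    rw [this, finsum_mem_empty]
  intro hκ1
  obtain ⟨T₀, hT₀⟩ : ∃ T₀ : Set (SO.SS n V₀), T₀ =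
      {s | s.2.2.1 = κ⁻¹ ^ (s.2.1 : ℕ) ∧ s.2.2.2 = (σ⁻¹ κ)⁻¹ ^ (s.2.1 : ℕ)} := ⟨_, rfl⟩
  have hsub : ∀ s : SO.SS n V₀, s ∈ T₀ ↔ σ s.2.2.2 = s.2.2.1 ∧ κ ^ (s.2.1 : ℕ) * s.2.2.1 = 1 := by
    intro s
    rw [hT₀]
    show (s.2.2.1 = κ⁻¹ ^ (s.2.1 : ℕ) ∧ s.2.2.2 = (σ⁻¹ κ)⁻¹ ^ (s.2.1 : ℕ)) ↔ _
    have hs : σ (σ⁻¹ κ) = κ := MulEquiv.apply_symm_apply _ _
    constructor
    · rintro ⟨h1, h2⟩
      refine ⟨?_, ?_⟩
      · rw [h2, h1, map_pow, map_inv, hs]
      · rw [h1, inv_pow, mul_inv_cancel]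
    · rintro ⟨h1, h2⟩
      have h3 : s.2.2.1 = κ⁻¹ ^ (s.2.1 : ℕ) := by
        rw [inv_pow]
        exact (inv_eq_of_mul_eq_one_right h2).symm
      refine ⟨h3, ?_⟩
      apply σ.injective
      rw [h1, h3, map_pow, map_inv, hs]
  obtain ⟨T₁, hT₁⟩ : ∃ T₁ : Set (SO.SS n V₀), T₁ = {s | s ∈ T₀ ∧ s.2.2.1 = 1} := ⟨_, rfl⟩
  have hz : ∀ g, tk B κ (D.et a) g ≠ 0 → g ^ m = B.i κ := by
    intro g hg
    have hg' : D.et a ((B.i κ)⁻¹ * g) ≠ 0 := hg
    have hC : (B.i κ)⁻¹ * g ∈ B.C a := by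
      by_contra h
      exact hg' ((hD.e1 a ha1).sup _ h)
    have hR : Reg ℓ ((B.i κ)⁻¹ * g) := by
      by_contra h
      exact hg' (hD.e2 a ha1 _ h)
    have h1 : Commute (B.i κ) ((B.i κ)⁻¹ * g) := by
      have := (SO.H63.mem_C B a _).1 hC κ hκ
      exact this.symm
    have h2 : g = B.i κ * ((B.i κ)⁻¹ * g) := by group
    rw [h2, h1.mul_pow, hPE.rg _ hR, mul_one]
    refine (hPE.el (B.i κ) ⟨1, ?_⟩).1
    rw [pow_one, ← map_pow, hFq.ex, map_one]
  have hset : {L : Set (SO.SS n V₀) | pL L = a ∧ (∀ s ∈ L, σ s.2.2.2 = s.2.2.1) ∧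
      ∀ s ∈ L, κ ^ (s.2.1 : ℕ) * s.2.2.1 = 1} =
      {L : Set (SO.SS n V₀) | L ⊆ T₀} \ {L : Set (SO.SS n V₀) | L ⊆ T₁} := by
    ext L
    simp only [Set.mem_setOf_eq, Set.mem_sdiff]
    constructor
    · rintro ⟨h1, h2, h3⟩
      refine ⟨fun s hs => (hsub s).2 ⟨h2 s hs, h3 s hs⟩, fun h4 => ha1 ?_⟩
      rw [← h1, pL_bot]
      intro s hs
      have := h4 hs
      rw [hT₁] at this
      exact this.2
    · rintro ⟨h1, h2⟩
      refine ⟨?_, fun s hs => ((hsub s).1 (h1 hs)).1, fun s hs => ((hsub s).1 (h1 hs)).2⟩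
      have hle : pL L ≤ a := by
        unfold pL
        rw [Subgroup.closure_le]
        rintro _ ⟨s, hs, rfl⟩
        have h3 := h1 hs
        rw [hT₀] at h3
        rw [h3.1]
        exact a.pow_mem (a.inv_mem hκ) _
      have hne : pL L ≠ ⊥ := by
        intro h3
        rw [pL_bot] at h3
        apply h2
        intro s hs
        rw [hT₁]
        exact ⟨h1 hs, h3 s hs⟩
      apply Subgroup.eq_of_le_of_card_ge hle
      have hd := Subgroup.card_dvd_of_le hle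
      rw [hac] at hd
      rcases (Nat.dvd_prime Fact.out).1 hd with h4 | h4
      · exact absurd (Subgroup.card_eq_one.1 h4) hne
      · rw [hac, h4]
  have hT10 : {L : Set (SO.SS n V₀) | L ⊆ T₁} ⊆ {L : Set (SO.SS n V₀) | L ⊆ T₀} := by
    intro L hL s hs
    have := hL hs
    rw [hT₁] at this
    exact this.1
  have hd := finsum_mem_union
    (f := fun L : Set (SO.SS n V₀) => ((mob F L : ℚ) : ℂ) * HX B m a (tk B κ (D.et a)) L)
    (s := {L : Set (SO.SS n V₀) | L ⊆ T₀} \ {L : Set (SO.SS n V₀) | L ⊆ T₁})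
    (t := {L : Set (SO.SS n V₀) | L ⊆ T₁}) Set.disjoint_sdiff_left (Set.toFinite _)
    (Set.toFinite _)
  rw [Set.sdiff_union_of_subset hT10] at hd
  have s0 := fwb_cnt (ℓ := ℓ) mbi B (n := n) (m := m) a (tk B κ (D.et a)) κ hz F T₀ v'
    (fun s hs => ((hsub s).1 hs).2) (by
      intro x
      rw [← hv' {i : Fin n | (x ^ m) ^ (i : ℕ) = 1} ⟨⟨0, hn⟩, by simp, rfl⟩]
      congr 1
      ext s
      rw [hT₀]
      simp only [Set.mem_setOf_eq]
      exact ⟨fun h => ⟨h.2, h.1.1, h.1.2⟩, fun h => ⟨⟨h.2.1, h.2.2⟩, h.1⟩⟩)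
  have s1 := fwb_cnt (ℓ := ℓ) mbi B (n := n) (m := m) a (tk B κ (D.et a)) κ hz F T₁ v
    (fun s hs => by
      rw [hT₁] at hs
      exact ((hsub s).1 hs.1).2) (by
      intro x
      have h1 : ∀ s ∈ {s : SO.SS n V₀ | s ∈ T₁ ∧ (x ^ m) ^ (s.1 : ℕ) = 1},
          s.2.2.1 = 1 ∧ s.2.2.2 = 1 := by
        rintro s ⟨hs, -⟩
        rw [hT₁] at hs
        refine ⟨hs.2, ?_⟩
        have h2 := ((hsub s).1 hs.1).1
        rw [hs.2] at h2
        exact σ.injective (h2.trans (map_one σ).symm)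
      exact hv _ (fun s hs _ _ => h1 s hs) h1)
  obtain ⟨-, -, x3, -, x5⟩ := xem ℓ M hM hℓ2 V₀ G E₀ hFq B hB.toSb D hD
  have hX := (x3 a ha κ hκ).2
  have hLL : LL B (etl B D a κ ⊥) = ∑ᶠ χ ∈ Irr G, SO.cv (etl B D a κ ⊥) χ := by
    unfold LL
    apply finsum_mem_inter_support_eq'
    intro χ hχ
    refine ⟨fun h => h.1, fun h => ?_⟩
    by_contra h'
    exact hχ (x5 a ha κ hκ hκ1 χ h h')
  rw [hset, hLL, ← hX]
  rw [s0, s1] at hd
  push_cast
  linear_combination (-1 : ℂ) * hd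

end Pool.Agent.PP.SE.H94
end
end -- Pool.Agent.Helper94_ASE.FWB
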