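import Pool.Agent.Helper12_AWB.B060
import Pool.Agent.Helper12_AWB.B119
import Pool.Agent.Helper12_AWB.B142
import Pool.Agent.Helper12_AWB.B217
import Pool.Agent.Helper12_AWB.B224

/-!
# Merged copies (generated) of the modules

* `Pool.Agent.ASE.Stmts6`
* `Pool.Agent.Helper10_ASO.W12B`
* `Pool.Agent.Helper15_ASO.HL12`
* `Pool.Agent.Helper30_ASE.HZA`
* `Pool.Agent.Helper44_ASE.RFI`
* `Pool.Agent.Helper31_ASE.ETQ`
* `Pool.Agent.Helper3_ASE.ETV`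
* `Pool.Agent.Helper44_ASE.ETG`
* `Pool.Agent.Helper45_ASE.ETM`
-/

set_option autoImplicit false

section -- Pool.Agent.ASE.Stmts6

/-!
# Squad ASE, block R, statements 6: heights, the sums over the block

Text: `Pool/Agent/ASE/AWC_SOE.md`, section 6.  Output: `HseStmt` (`StmtsX.lean`).  Complete proofs in the
docstrings.  The rows HLNK, HIXE, HOMR, HFCE, HTA, HRAT, HL12, HFRO, HFPR of squad ASO (`ASO/StmtsH.lean`)
are for all `Sb`; they are proved (`Helper66_ASO/AsmH.lean`: `SO.hlnk_`, `SO.hixe_`, ...), and so are the rows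
of AT5 and ATZ which are used (`Helper11_ZAS/AsmZ.lean`: `T5.deg_`, `T5.inq_`, `T5.pr5_`, `TB.nzf_`).
`Es E₀ c` is the stabiliser of `c`, `nE E₀ c = |E₀|/|Es E₀ c|`, `kE E₀ c = |Es E₀ c|`.
-/

open scoped BigOperators

noncomputable section

namespace Pool.Agent.PP.SE

open Pool.Agent.Helper51_AWC Pool.Agent.Helper79_WRA Pool.Agent.PP Pool.Agent.PP.KF
open Pool.Agent.PP.K9 Pool.Agent.PP.K9.H97 Pool.Agent.PP.H75 Pool.Agent.PP.T3 Pool.Agent.PP.SO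
open Pool.Agent.PP.SD

attribute [local instance] Ideal.Quotient.field

/-! ## 1. Heights -/

/-- HZA: there is a character of height zero.

Proof.  For `χ` in `e` let `a_χ = |V| χ(1)/|G|`, a positive rational number (`χ(1)` is a positive integer), in
`RM M` (`T5.DegStmt`), so in `Rl ℓ` (`SO.H45.rat_RM`).  Suppose that `1/a_χ` is not in `RM M`, for all `χ` in `e`.
Then `ℓ` divides the numerator of `a_χ` (otherwise `1/a_χ` is in `Rl ℓ`), so `a_χ/ℓ` is in `RM M`, for all `χ` in `e`.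
Let `f(h) = (|V|/ℓ) eh M e h`: a class function, zero at the elements which are not regular (`eh_sing`,
`K9.WboStmt`), and for `χ ∈ Irr G` let `κ(h) = χ(h⁻¹)`, the conjugate of `χ`, in `Irr G` again:
`|G|⁻¹ ∑_h f(h) χ(h⁻¹) = (|V|/(ℓ |G|)) ∑_h eh M e h κ(h)`, and the last sum is `κ(1)` if `κ` is in `e` and `0`
otherwise (`eh_chv`); so this is `a_κ/ℓ` or `0`, in `RM M`.  By `SO.PrjStmt` `f(s)/|C(s)| ∈ RM M` for all `s`.  Take for
`s` the element `y` of `K9.FmgStmt`: `y ∈ C(V)`, `e y ≠ 0`, `ℓ` does not divide `|C(y) : V|`.  Then `V ≤ C(y)`,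
`|C(y)| = |V| m`, `ℓ` does not divide `m`, so `eh M e y/ℓ = m f(y)/|C(y)| ∈ RM M`.  `eh M e y` is in `RM M` and has the
residue `e y ≠ 0` (`KF.IdmStmt`), so its inverse is in `RM M` and `1/ℓ ∈ RM M`, a contradiction (the residue of
`ℓ` is `0`).  (`NZM`, `Helper23_AT5/NZM.lean`, has tools of this kind.) -/
def HzaStmt : Prop := ∀ (ℓ : ℕ) [Fact ℓ.Prime] (M : Ideal (integralClosure ℤ ℂ)) [M.IsMaximal],
  (ℓ : integralClosure ℤ ℂ) ∈ M → ∀ (G : Type) [Group G] [Finite G] (e : G → FF M), IsBlk e →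
  ∀ V : Subgroup G, Tp ℓ e V → ∃ χ ∈ IrrE M e, (Nat.card G : ℂ) / (Nat.card V * χ 1) ∈ RM M

/-- RXE: the numbers `|G| rip(χ, ψ)/χ(1)` and the central character.

Proof.  `TB.H3.gen` (`Helper3_ATZ/XCH.lean`) for `C = ⊤` and `w(g) = conj ψ(g)` if `g` is regular, `w(g) = 0`
otherwise (a class function with values in `RM M`: the values of `conj ψ(g) = ψ(g⁻¹)` are algebraic
integers): `chv w χ = ∑ w(g) χ(g) = |G| rip ℓ χ ψ`. -/
def RxeStmt : Prop := ∀ (ℓ : ℕ) [Fact ℓ.Prime] (M : Ideal (integralClosure ℤ ℂ)) [M.IsMaximal],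
  (ℓ : integralClosure ℤ ℂ) ∈ M → ∀ (G : Type) [Group G] [Finite G] (e : G → FF M), IsBlk e →
  ∀ ψ ∈ Irr G, ∀ χ ∈ IrrE M e, (Nat.card G : ℂ) * T5.rip ℓ χ ψ / χ 1 ∈ RM M ∧
    ∀ χ' ∈ IrrE M e, rr M ((Nat.card G : ℂ) * T5.rip ℓ χ ψ / χ 1) =
      rr M ((Nat.card G : ℂ) * T5.rip ℓ χ' ψ / χ' 1)

/-- HTE: the heights are zero.

Proof.  `V = i(V₀)`, `|V| = ℓ ^ 2`, `e = B.e`.  For `χ` in `e` let `a_χ = ℓ² χ(1)/|G|`, a positive rational number
in `RM M` (`T5.DegStmt`; `B.ld` gives `Tp`), and for `χ`, `ψ` in `e` let `r(χ, ψ) = |G| rip(χ, ψ)/χ(1)`, in `RM M`,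
with a residue which does not depend on `χ` (RXE).  `ℓ² rip(χ, ψ)` is an integer (`T5.InqStmt`), and
`rip(ψ, χ) = conj rip(χ, ψ)`, so `rip(ψ, χ) = rip(χ, ψ)` and `r(χ, ψ) χ(1) = r(ψ, χ) ψ(1)`.
(1) Let `χ₀` be as in HZA, so `1/a_χ₀ ∈ RM M`, and `ψ` in `e` as in `TB.NzfStmt` (`N` from `T5.Pr5Stmt`): the residue of
`r(χ, ψ)` is not `0` for all `χ` in `e`, so `r(χ, ψ)⁻¹` is in `RM M`.  `χ₀(1)/ψ(1) = r(ψ, χ₀) r(χ₀, ψ)⁻¹ ∈ RM M`, so
`1/a_ψ = (1/a_χ₀) χ₀(1)/ψ(1) ∈ RM M`.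
(2) Let `χ` be in `e` and suppose that `1/a_χ` is not in `RM M`.  As in HZA `a_χ = ℓ u`, `u` rational in `RM M`.
`r(ψ, χ) = r(χ, ψ) χ(1)/ψ(1) = r(χ, ψ) a_χ (1/a_ψ)` has residue `0`, so (RXE) `r(χ, χ)` has residue `0`.  The
integer `n = ℓ² rip(χ, χ) = a_χ r(χ, χ) = ℓ (u r(χ, χ))`: `n/ℓ` is in `RM M`, so `n = ℓ n'` with an integer `n'`
(`SO.H45.rat_RM`), and `n' = u r(χ, χ)` has residue `0`, so `ℓ` divides `n'` (`KF.dvd_of_rr`) and
`ℓ²` divides `n`, i.e. `rip(χ, χ) = n/ℓ²` is an integer.  But `|G| rip(χ, χ) = ∑ |χ(s)|²`, `s` over the regular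
elements, is `≥ χ(1)² > 0`, and smaller than `∑_g |χ(g)|² = |G|`, because `χ(g) ≠ 0` for some `g` which is not
regular: let `c ≠ 1` in `V₀`; the residue of `cv (fc B ⊥ c) χ` is `nE E₀ c ≠ 0` (`SO.HOmrStmt`, `SO.HIxeStmt`: `nE E₀ c`
divides `|E₀|`), so `gv M (Cu (i c)) (i c) (b ⟨c⟩) χ ≠ 0` (`SO.HLnkStmt`), a sum over the regular elements `t` of
`C(i c)` of numbers times `χ(i(c) t)`, and `i(c) t` is not regular.
(3) So `1/a_χ ∈ RM M` for all `χ` in `e`; the rational number `1/a_χ = |G|/(ℓ² χ(1)) = x/y` in lowest terms has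
`x`, `y` prime to `ℓ` (it and its inverse are in `Rl ℓ`). -/
def HteStmt : Prop := ∀ (ℓ : ℕ) [Fact ℓ.Prime] (M : Ideal (integralClosure ℤ ℂ)) [M.IsMaximal],
  (ℓ : integralClosure ℤ ℂ) ∈ M → ∀ (V₀ G : Type) [CommGroup V₀] [Finite V₀] [Group G] [Finite G]
  (E₀ : Subgroup (MulAut V₀)), (∀ v : V₀, v ^ ℓ = 1) → Nat.card V₀ = ℓ ^ 2 →
  ∀ B : Bk (FF M) V₀ G, Sb ℓ M E₀ B → ∀ χ ∈ IrrE M B.e,
    (Nat.card G : ℂ) / ((ℓ : ℂ) ^ 2 * χ 1) ∈ RM M ∧
    ∃ x y : ℕ, ¬ ℓ ∣ x ∧ ¬ ℓ ∣ y ∧ (y : ℂ) * Nat.card G = ℓ ^ 2 * χ 1 * x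

/-! ## 2. The labels `mn` -/

/-- HSG: the relations for `L1`, `L2`.

Proof.  This is HSM (`Helper45_ASO/HSM.lean`) without a regular element: HKB was only used for the finiteness
of the block (it is finite, `irrE_finite`) and for `k ≤ ℓ²`, HTZ is replaced by HTE.  The proof of HSM can be
copied: (ii) HRAT for `c` and `d`: `W_c(χ) = ∑_t cv (f_(c^t)) χ`, `(W_c + n_c)(W_d + n_d) = ℓ² q q'`; add over the
block.  (iii) HFRO, HFPR, HTE: `∑_c cv (f_c) χ/n_c = (∑_u χ(u)/lpG) (lpG/χ(1))` and `lpG/χ(1)` is `ℓ²` times a unit of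
`Rl ℓ`, so the sum is `ℓ²` times an element of `RM M`; it is rational (HRAT, HFCE).  Multiply with `|E₀|`
(`|E₀|/n_c = |Es E₀ c|`, HIXE) and add over `χ`. -/
def HsgStmt : Prop := ∀ (ℓ : ℕ) [Fact ℓ.Prime] (M : Ideal (integralClosure ℤ ℂ)) [M.IsMaximal],
  (ℓ : integralClosure ℤ ℂ) ∈ M → ∀ (V₀ G : Type) [CommGroup V₀] [Finite V₀] [Group G] [Finite G]
  (E₀ : Subgroup (MulAut V₀)), (∀ v : V₀, v ^ ℓ = 1) → Nat.card V₀ = ℓ ^ 2 →
  ∀ B : Bk (FF M) V₀ G, Sb ℓ M E₀ B →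
  (∀ c d : V₀, c ≠ 1 → d ≠ 1 → ∃ q ∈ SOR.Rl ℓ,
    ∑ t ∈ Finset.Icc 1 (ℓ - 1), ∑ s ∈ Finset.Icc 1 (ℓ - 1), L2 B (c ^ t) (d ^ s) +
      nE E₀ d * ∑ t ∈ Finset.Icc 1 (ℓ - 1), L1 B (c ^ t) +
      nE E₀ c * ∑ s ∈ Finset.Icc 1 (ℓ - 1), L1 B (d ^ s) +
      nE E₀ c * nE E₀ d * (IrrE M B.e).ncard = ((ℓ ^ 2 * q : ℚ) : ℂ)) ∧
  ∃ q ∈ SOR.Rl ℓ, ∑ᶠ c : V₀, Nat.card (Es E₀ c) * L1 B c = ((ℓ ^ 2 * q : ℚ) : ℂ)

/-! ## 3. The labels `et` -/

/-- ETM: the central characters at the induced elements.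

Proof.  `C = B.C a`, `z = tk B κ (D.et a)`.  For `κ ∈ a` the element `i(κ)` is central in `C` (it is in `C` because
`V₀` is commutative).  (1) `ψ ∈ Ch B a`: `ψ` restricted to `C` is irreducible, so `ψ(i(κ) g) = nu B ψ κ · ψ(g)` for
`g ∈ C` (Schur; for `g ∉ C` both sides are `0`), and `∑_g z(g) ψ(g) = ∑_g et(g) ψ(i(κ) g)`.
(2) `z` is `0` outside of `C` (`Cz.sup`) and invariant under conjugation with `C` (`Cz.cls`, `i(κ)` central in
`C`).  `a ≠ ⊥`, so by definition `etl B D a κ ⊥ g = |C|⁻¹ ∑_h z(h⁻¹ g h)` and, `χ` a class function,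
`cv (etl B D a κ ⊥) χ = (|G|/(|C| χ(1))) ∑_g z(g) χ(g)`.  The restriction of `χ` to `C` is `∑_ψ m_ψ ψ`, `ψ ∈ Irr C`, with
natural numbers `m_ψ` (`K9.AdaStmt`, or the restriction is a character), so `∑_g z(g) χ(g) =
∑_ψ m_ψ ψ(1) cv z ψ` (`ψ` extended by zero).  For `ψ` not in `Ch B a`: `cv z ψ = ω cv (D.et a) ψ = 0` (the computation of
(1), `Cz.blk`).  For `ψ ∈ Ch B a`: (1).  `m` depends on `χ` only. -/
def EtmStmt : Prop := ∀ (ℓ : ℕ) [Fact ℓ.Prime] (M : Ideal (integralClosure ℤ ℂ)) [M.IsMaximal],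
  (ℓ : integralClosure ℤ ℂ) ∈ M → ∀ (V₀ G : Type) [CommGroup V₀] [Finite V₀] [Group G] [Finite G]
  (B : Bk (FF M) V₀ G) (D : Rd V₀ G) (a : Subgroup V₀), a ≠ ⊥ → Cz B a (D.et a) →
  (∀ ψ ∈ Ch B a, ∀ κ ∈ a, cv (tk B κ (D.et a)) ψ = nu B ψ κ * cv (D.et a) ψ) ∧
  ∀ χ ∈ Irr G, ∃ m : (G → ℂ) → ℕ, ∀ κ ∈ a, cv (etl B D a κ ⊥) χ =
    (Nat.card G : ℂ) / (Nat.card (B.C a) * χ 1) *
      ∑ᶠ ψ ∈ Ch B a, (m ψ : ℂ) * (ψ 1 * (nu B ψ κ * cv (D.et a) ψ))

/-- ETC: congruences for the central characters.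

Proof.  `C = B.C a`.  By ETM `cv (etl B D a κ ⊥) χ` is the sum over `ψ ∈ Ch B a` (finite) of
`[|G|/(ℓ² χ(1))] [ℓ² ψ(1)/|C|] m_ψ nu_ψ(κ) cv (D.et a) ψ`; the first factor is in `RM M` by HTE, the second by `Rs.h1`,
`nu_ψ(κ)` is a root of unity (`ψ` is irreducible and `i(κ)` is central in `C`, `κ ^ ℓ = 1`), in `RM M`, and
`cv (D.et a) ψ/ℓ` is in `RM M` (`Rs.e4`).  This is the first claim.  `κ ↦ nu_ψ(κ)` is a homomorphism on `a`, so if
`|a| = ℓ` the sum `∑_{κ ∈ a} nu_ψ(κ)` is `0` or `ℓ`, and the sum over `κ` has one more factor `ℓ`. -/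
def EtcStmt : Prop := ∀ (ℓ : ℕ) [Fact ℓ.Prime] (M : Ideal (integralClosure ℤ ℂ)) [M.IsMaximal],
  (ℓ : integralClosure ℤ ℂ) ∈ M → ∀ (V₀ G : Type) [CommGroup V₀] [Finite V₀] [Group G] [Finite G]
  (E₀ : Subgroup (MulAut V₀)), Fq ℓ V₀ E₀ → ∀ B : Bk (FF M) V₀ G, Sb ℓ M E₀ B →
  ∀ D : Rd V₀ G, Rs ℓ E₀ B D → ∀ a : Subgroup V₀, a ≠ ⊥ → ∀ χ ∈ IrrE M B.e,
  (∀ κ ∈ a, cv (etl B D a κ ⊥) χ / (ℓ : ℂ) ∈ RM M) ∧
  (Nat.card a = ℓ → (∑ᶠ κ ∈ a, cv (etl B D a κ ⊥) χ) / (ℓ : ℂ) ^ 2 ∈ RM M)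

/-- ETG: invariance under the powers prime to `ℓ`.

Proof.  As the invariance in HL12 (`Helper15_ASO/HL12.lean`, tools `sum_pm`, `pm_mem`, `reg_pow_fix`, `zp_eq`).  `N` as
in `T3.PrmStmt`: it acts trivially on the regular elements, and some power `N' = N ^ k` acts on the
`ℓ`-elements as `j`; `χ ↦ χ' = χ(· ^ N')` is a bijection of `IrrE M B.e` (`T3.RtcStmt`; injective because
`g ↦ g ^ N'` is a bijection of `G`, the set is finite), `χ'(1) = χ(1)`.  `etl B D a κ ⊥` is induced from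
`z = tk B κ (D.et a)`: `∑_g etl(g) χ(g) = (|G|/|C|) ∑_{s} et(s) χ(i(κ) s)`, `C = B.C a`, `s` over the regular elements of
`C` (`Rs.e2`, `Cz.sup`), and `(i(κ) s) ^ N' = i(κ ^ j) s` (`s` commutes with `i(κ)`), so
`cv (etl B D a (κ ^ j) ⊥) χ = cv (etl B D a κ ⊥) χ'`.  In the same way `cv (fc B ⊥ (d ^ j)) χ = cv (fc B ⊥ d) χ'` (this is
in HL12; `HLnkStmt`).  Add over the block. -/
def EtgStmt : Prop := ∀ (ℓ : ℕ) [Fact ℓ.Prime] (M : Ideal (integralClosure ℤ ℂ)) [M.IsMaximal],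
  (ℓ : integralClosure ℤ ℂ) ∈ M → ℓ ≠ 2 → ∀ (V₀ G : Type) [CommGroup V₀] [Finite V₀] [Group G]
  [Finite G] (E₀ : Subgroup (MulAut V₀)), Fq ℓ V₀ E₀ → ∀ B : Bk (FF M) V₀ G, Sb ℓ M E₀ B →
  ∀ D : Rd V₀ G, Rs ℓ E₀ B D → ∀ a : Subgroup V₀, a ≠ ⊥ → ∀ κ ∈ a, ∀ j : ℕ, ¬ ℓ ∣ j →
  LL B (etl B D a (κ ^ j) ⊥) = LL B (etl B D a κ ⊥) ∧ ∀ d : V₀,
    NN B (etl B D a (κ ^ j) ⊥) (fc B ⊥ (d ^ j)) = NN B (etl B D a κ ⊥) (fc B ⊥ d)

/-- ETQ: the sums over the block are rational.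

Proof.  Let `ζ` be a primitive `ℓ`-th root of unity.  For `ψ ∈ Ch B a` `nu_ψ(κ) = ζ ^ k(ψ)` (`i(κ)` is central in `B.C a`
and `κ ^ ℓ = 1`) and `nu_ψ(κ ^ j) = ζ ^ (k(ψ) j)`, so by ETM `cv (etl B D a (κ ^ j) ⊥) χ = ∑_{k<ℓ} a_k ζ ^ (k j)` for all
`j`, with rational `a_k` (`Rs.e9`; the degrees are natural numbers).  In the same way `cv (fc B ⊥ (d ^ j)) χ =
∑_{k<ℓ} b_k ζ ^ (k j)` for `ℓ ∤ j`, `b_k` rational (`SO.H15.gv_exp`, `HLnkStmt` for `d ^ j`: `⟨d ^ j⟩ = ⟨d⟩`; see HL12).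
So `LL (etl (κ ^ j))` and `NN (etl (κ ^ j)) (fc (d ^ j))` are of this form (add over the block), their sum over
`j = 1, …, ℓ - 1` is rational (`∑_j ζ ^ (k j)` is `ℓ - 1` or `- 1`), and all terms are equal (ETG). -/
def EtqStmt : Prop := ∀ (ℓ : ℕ) [Fact ℓ.Prime] (M : Ideal (integralClosure ℤ ℂ)) [M.IsMaximal],
  (ℓ : integralClosure ℤ ℂ) ∈ M → ℓ ≠ 2 → ∀ (V₀ G : Type) [CommGroup V₀] [Finite V₀] [Group G]
  [Finite G] (E₀ : Subgroup (MulAut V₀)), Fq ℓ V₀ E₀ → ∀ B : Bk (FF M) V₀ G, Sb ℓ M E₀ B →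
  ∀ D : Rd V₀ G, Rs ℓ E₀ B D → ∀ a : Subgroup V₀, a ≠ ⊥ → ∀ κ ∈ a,
  (∃ q : ℚ, LL B (etl B D a κ ⊥) = (q : ℂ)) ∧
    ∀ d : V₀, ∃ q : ℚ, NN B (etl B D a κ ⊥) (fc B ⊥ d) = (q : ℂ)

/-- ETS: the relations for the labels `et`.

Proof.  The block is finite; `cv (mnl E₀ B d ⊥) χ = kE E₀ d · cv (fc B ⊥ d) χ` (`⊥ ≤ ⟨d⟩`), in `RM M` (HOMR).
(1), (3): ETC.  (2): `|a| = ℓ` (`RL`).  If `κ = 1` clear.  Otherwise `a = {1, κ, …, κ ^ (ℓ - 1)}`, and by ETG and ETC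
(added over the block) `LL (etl 1) + (ℓ - 1) LL (etl κ) ∈ ℓ² RM M`, and `LL (etl κ) ∈ ℓ RM M`, so
`LL (etl 1) - LL (etl κ) ∈ ℓ² RM M`.  (4) For `χ` in the block `∑_s cv (mnl (d ^ s)) χ = - |E₀| + ℓ q_χ`, `q_χ ∈ Rl ℓ`
(HRAT times `kE E₀ d`; `kE E₀ (d ^ s) = kE E₀ d`, `kE E₀ d · nE E₀ d = |E₀|`, HIXE), so the double sum is
`∑_χ (∑_t cv (etl (κ ^ t)) χ) (- |E₀| + ℓ q_χ)`; the terms with `ℓ q_χ` are in `ℓ² RM M` (ETC), and
`- |E₀| ∑_t LL (etl (κ ^ t)) = - |E₀| (ℓ - 1) LL (etl 1)` modulo `ℓ² RM M` by (2), `= |E₀| LL (etl 1)` modulo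
`ℓ² RM M` by (1). -/
def EtsStmt : Prop := ∀ (ℓ : ℕ) [Fact ℓ.Prime] (M : Ideal (integralClosure ℤ ℂ)) [M.IsMaximal],
  (ℓ : integralClosure ℤ ℂ) ∈ M → ℓ ≠ 2 → ∀ (V₀ G : Type) [CommGroup V₀] [Finite V₀] [Group G]
  [Finite G] (E₀ : Subgroup (MulAut V₀)), Fq ℓ V₀ E₀ → ∀ B : Bk (FF M) V₀ G, Sb ℓ M E₀ B →
  ∀ D : Rd V₀ G, Rs ℓ E₀ B D → ∀ a ∈ RL ℓ E₀, ∀ κ ∈ a,
  LL B (etl B D a κ ⊥) / (ℓ : ℂ) ∈ RM M ∧
  (LL B (etl B D a κ ⊥) - LL B (etl B D a 1 ⊥)) / (ℓ : ℂ) ^ 2 ∈ RM M ∧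
  ∀ d : V₀, d ≠ 1 → NN B (etl B D a κ ⊥) (mnl E₀ B d ⊥) / (ℓ : ℂ) ∈ RM M ∧
    (∑ t ∈ Finset.Icc 1 (ℓ - 1), ∑ s ∈ Finset.Icc 1 (ℓ - 1),
      NN B (etl B D a (κ ^ t) ⊥) (mnl E₀ B (d ^ s) ⊥) -
        Nat.card E₀ * LL B (etl B D a 1 ⊥)) / (ℓ : ℂ) ^ 2 ∈ RM M

end Pool.Agent.PP.SE
end
end -- Pool.Agent.ASE.Stmts6

section -- Pool.Agent.Helper10_ASO.W12B

/-!
# Row W12B of the squad ASO: the value of `HK` for `aL ≠ ⊥`
-/

open scoped BigOperators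

set_option linter.unusedSectionVars false

noncomputable section

namespace Pool.Agent.PP.SO.H10W

open Pool.Agent.Helper51_AWC Pool.Agent.Helper79_WRA Pool.Agent.PP Pool.Agent.PP.KF
open Pool.Agent.PP.K9 Pool.Agent.PP.K9.H97 Pool.Agent.PP.H75 Pool.Agent.PP.T3
open Pool.Agent.PP.SO

attribute [local instance] Ideal.Quotient.field

/-! ### the linear characters -/

/-- the sum over the linear characters -/
theorem lin_sum {V₀ : Type} [CommGroup V₀] [Finite V₀] [DecidableEq V₀] (hfin : (lin V₀).Finite)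
    (v : V₀) : ∑ f ∈ hfin.toFinset, f v = if v = 1 then (Nat.card V₀ : ℂ) else 0 := by
  classical
  have : Fintype V₀ := Fintype.ofFinite V₀
  have h := AddChar.sum_apply_eq_ite (α := Additive V₀) (Additive.ofMul v)
  have e1 : (if Additive.ofMul v = 0 then ((Fintype.card (Additive V₀) : ℕ) : ℂ) else 0) =
      if v = 1 then (Nat.card V₀ : ℂ) else 0 := by
    have h1 : Additive.ofMul v = 0 ↔ v = 1 := Iff.rfl
    have h2 : Fintype.card (Additive V₀) = Nat.card V₀ := by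
      rw [Nat.card_eq_fintype_card]
      exact Fintype.card_congr Additive.toMul
    simp only [h1, h2]
  rw [← e1, ← h]
  symm
  refine Finset.sum_bij (fun ψ _ => fun w : V₀ => ψ (Additive.ofMul w)) ?_ ?_ ?_ ?_
  · intro ψ _
    rw [Set.Finite.mem_toFinset]
    exact ⟨ψ.map_zero_eq_one, fun a b => ψ.map_add_eq_mul (Additive.ofMul a) (Additive.ofMul b)⟩
  · intro ψ _ ψ' _ h1
    ext w
    exact congrFun h1 (Additive.toMul w)
  · intro f hf
    rw [Set.Finite.mem_toFinset] at hf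
    exact ⟨⟨fun w => f (Additive.toMul w), hf.1, fun a b => hf.2 _ _⟩, Finset.mem_univ _, rfl⟩
  · intro ψ _
    rfl

/-- the complex conjugate of a value of a linear character -/
theorem lin_conj {V₀ : Type} [CommGroup V₀] [Finite V₀] {f : V₀ → ℂ} (hf : f ∈ lin V₀) (v : V₀) :
    starRingEnd ℂ (f v) = f v⁻¹ := by
  have h1 : ∀ n : ℕ, f (v ^ n) = f v ^ n := by
    intro n
    induction n with
    | zero => rw [pow_zero, pow_zero, hf.1]
    | succ n ih => rw [pow_succ, pow_succ, hf.2, ih]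
  have h2 : f v * f v⁻¹ = 1 := by rw [← hf.2, mul_inv_cancel, hf.1]
  have h3 : f v ^ orderOf v = 1 := by rw [← h1, pow_orderOf_eq_one, hf.1]
  have h4 : ‖f v‖ = 1 := by
    have h5 := congrArg norm h3
    rw [norm_pow, norm_one] at h5
    exact (pow_eq_one_iff_of_nonneg (norm_nonneg _) (orderOf_pos v).ne').1 h5
  have h5 : f v * starRingEnd ℂ (f v) = 1 := by
    rw [Complex.mul_conj, Complex.normSq_eq_norm_sq, h4]
    simp
  have h6 : f v ≠ 0 := by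
    intro h
    rw [h, zero_mul] at h2
    exact zero_ne_one h2
  exact mul_left_cancel₀ h6 (h5.trans h2.symm)

/-! ### characters -/

/-- the mean over the conjugates -/
theorem irr_avg {H : Type} [Group H] [Fintype H] {χ : H → ℂ} (hχ : χ ∈ Irr H) (g x : H) :
    ∑ z, χ (z * g * z⁻¹ * x) = Fintype.card H * (χ g * χ x / χ 1) := by
  classical
  have h1 := Pool.Agent.Helper79_WRA.H62.irr_scalar hχ (fun y => ∑ z : H, if z * g * z⁻¹ = y then (1 : ℂ) else 0) (by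
    intro y h
    rw [← Equiv.sum_comp (Equiv.mulLeft h)]
    refine Finset.sum_congr rfl fun z _ => ?_
    have e : (h * z * g * (h * z)⁻¹ = h * y * h⁻¹) ↔ (z * g * z⁻¹ = y) := by
      have e1 : h * z * g * (h * z)⁻¹ = h * (z * g * z⁻¹) * h⁻¹ := by group
      rw [e1]
      constructor
      · intro h2
        exact mul_left_cancel (mul_right_cancel h2)
      · intro h2
        rw [h2]
    show (if h * z * g * (h * z)⁻¹ = h * y * h⁻¹ then (1 : ℂ) else 0) = _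
    simp only [e]) x
  have e2 : ∀ F : H → ℂ, ∑ y, (∑ z : H, if z * g * z⁻¹ = y then (1 : ℂ) else 0) * F y =
      ∑ z, F (z * g * z⁻¹) := by
    intro F
    simp only [Finset.sum_mul]
    rw [Finset.sum_comm]
    refine Finset.sum_congr rfl fun z _ => ?_
    simp only [ite_mul, one_mul, zero_mul]
    rw [Finset.sum_ite_eq]
    simp
  rw [e2 (fun y => χ (y * x)), e2 χ] at h1
  rw [h1]
  have e3 : ∑ z : H, χ (z * g * z⁻¹) = Fintype.card H * χ g := by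
    have : ∀ z : H, χ (z * g * z⁻¹) = χ g := fun z => irr_conj hχ g z
    simp only [this]
    rw [Finset.sum_const, Finset.card_univ, nsmul_eq_mul]
  rw [e3]
  ring

section ch

variable {V₀ G : Type} [CommGroup V₀] [Finite V₀] [Group G] [Fintype G]
  {M : Ideal (integralClosure ℤ ℂ)} [M.IsMaximal]

omit [Finite V₀] in
theorem ch_star {B : Bk (FF M) V₀ G} {A : Subgroup V₀} {χ : G → ℂ} (hχ : χ ∈ Ch B A) (g : G) :
    starRingEnd ℂ (χ g) = χ g⁻¹ := by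
  by_cases hg : g ∈ B.C A
  · have h1 := H94.irr_star hχ.2.1 (⟨g, hg⟩ : B.C A)
    exact h1
  · have h1 : g⁻¹ ∉ B.C A := fun h => hg ((B.C A).inv_mem_iff.1 h)
    rw [hχ.1 g hg, hχ.1 _ h1, map_zero]

omit [Finite V₀] in
theorem ch_avg {B : Bk (FF M) V₀ G} {A : Subgroup V₀} [Fintype (B.C A)] {χ : G → ℂ}
    (hχ : χ ∈ Ch B A) {g x : G} (hg : g ∈ B.C A) (hx : x ∈ B.C A) :
    ∑ z : B.C A, χ ((z : G) * g * (z : G)⁻¹ * x) =
      Fintype.card (B.C A) * (χ g * χ x / χ 1) :=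
  irr_avg hχ.2.1 (⟨g, hg⟩ : B.C A) ⟨x, hx⟩

omit [Finite V₀] in
theorem ch_fin (B : Bk (FF M) V₀ G) (A : Subgroup V₀) : (Ch B A).Finite := by
  have := Fintype.ofFinite (B.C A)
  have h1 : (Irr (B.C A)).Finite := irr_finite'
  refine Set.Finite.of_injOn (f := fun χ : G → ℂ => fun t : B.C A => χ t) (t := Irr (B.C A)) ?_ ?_ h1
  · intro χ hχ
    exact hχ.2.1
  · intro χ hχ ψ hψ h
    funext g
    by_cases hg : g ∈ B.C A
    · exact congrFun h ⟨g, hg⟩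
    · rw [hχ.1 g hg, hψ.1 g hg]

end ch

/-- a number as a sum -/
theorem ncard_sum {X : Type} [Fintype X] (P : X → Prop) [DecidablePred P] :
    (({w | P w}.ncard : ℕ) : ℂ) = ∑ w, if P w then (1 : ℂ) else 0 := by
  classical
  rw [Set.ncard_eq_toFinset_card', Finset.sum_boole]
  congr 2
  ext w
  simp

/-- the mean -/
theorem avg {G : Type} [Group G] [Fintype G] (H : Subgroup G) [Fintype H] (S : Set (G × G))
    [DecidablePred (· ∈ S)] (e : H → (G × G) ≃ (G × G)) (hS : ∀ z w, e z w ∈ S ↔ w ∈ S)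
    (F : G × G → ℂ) : (Fintype.card H : ℂ) * ∑ w, (if w ∈ S then F w else 0) =
      ∑ w, (if w ∈ S then ∑ z : H, F (e z w) else 0) := by
  have h1 : ∀ z : H, ∑ w, (if w ∈ S then F w else 0) = ∑ w, (if w ∈ S then F (e z w) else 0) := by
    intro z
    rw [← Equiv.sum_comp (e z)]
    refine Finset.sum_congr rfl fun w _ => ?_
    simp only [hS]
  have h2 : (Fintype.card H : ℂ) * ∑ w, (if w ∈ S then F w else 0) =
      ∑ z : H, ∑ w, (if w ∈ S then F (e z w) else 0) := by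
    have h3 : ∑ z : H, ∑ w, (if w ∈ S then F (e z w) else 0) =
        ∑ z : H, ∑ w, (if w ∈ S then F w else 0) :=
      Finset.sum_congr rfl fun z _ => (h1 z).symm
    rw [h3, Finset.sum_const, Finset.card_univ, nsmul_eq_mul]
  rw [h2, Finset.sum_comm]
  refine Finset.sum_congr rfl fun w _ => ?_
  split_ifs
  · rfl
  · simp

/-- conjugation of pairs -/
def ec {G : Type} [Group G] (H : Subgroup G) (z : H) : (G × G) ≃ (G × G) where
  toFun w := ((z : G)⁻¹ * w.1 * z, (z : G)⁻¹ * w.2 * z)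
  invFun w := ((z : G) * w.1 * (z : G)⁻¹, (z : G) * w.2 * (z : G)⁻¹)
  left_inv w := by
    refine Prod.ext ?_ ?_
    · show (z : G) * ((z : G)⁻¹ * w.1 * z) * (z : G)⁻¹ = w.1
      group
    · show (z : G) * ((z : G)⁻¹ * w.2 * z) * (z : G)⁻¹ = w.2
      group
  right_inv w := by
    refine Prod.ext ?_ ?_
    · show (z : G)⁻¹ * ((z : G) * w.1 * (z : G)⁻¹) * z = w.1
      group
    · show (z : G)⁻¹ * ((z : G) * w.2 * (z : G)⁻¹) * z = w.2
      group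

/-- left multiplication of the second component -/
def em {G : Type} [Group G] (H : Subgroup G) (z : H) : (G × G) ≃ (G × G) where
  toFun w := (w.1, (z : G) * w.2)
  invFun w := (w.1, (z : G)⁻¹ * w.2)
  left_inv w := by
    refine Prod.ext rfl ?_
    show (z : G)⁻¹ * ((z : G) * w.2) = w.2
    group
  right_inv w := by
    refine Prod.ext rfl ?_
    show (z : G) * ((z : G)⁻¹ * w.2) = w.2
    group

/-- Row W12B. -/
theorem w12b (hS : SslStmt) (hN : NsvStmt) : W12BStmt := by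
  classical
  intro ℓ _ M _ hM hℓ V₀ G _ _ _ _ E₀ hF B hB n m hPE κ L hA
  have iG : Fintype G := Fintype.ofFinite G
  have iV : Fintype V₀ := Fintype.ofFinite _
  obtain ⟨A, hAd⟩ : ∃ A, A = aL κ L := ⟨_, rfl⟩
  rw [← hAd] at hA ⊢
  have iH : Fintype (B.C A) := Fintype.ofFinite (B.C A)
  obtain ⟨nsv1, nsv2, -, nsv4, -, -, -⟩ := hN ℓ M hM hℓ V₀ G E₀ hF B hB A hA
  -- the elements `a`
  let a : SS n V₀ → V₀ := fun s => κ ^ (s.2.1 : ℕ) * s.2.2.1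
  have hAcl : A = Subgroup.closure (a '' L) := by
    rw [hAd]
    unfold aL
    congr 1
  have hHmem : ∀ x : G, x ∈ B.C A ↔ ∀ s ∈ L, B.i (a s) * x = x * B.i (a s) := by
    intro x
    have h1 : B.C A = Subgroup.centralizer (B.i '' (a '' L)) := by
      unfold Bk.C
      rw [hAcl, MonoidHom.map_closure, Subgroup.centralizer_closure]
    rw [h1, Subgroup.mem_centralizer_iff]
    constructor
    · intro h s hs
      exact h _ ⟨a s, ⟨s, hs, rfl⟩, rfl⟩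
    · rintro h _ ⟨_, ⟨s, hs, rfl⟩, rfl⟩
      exact h s hs
  have haz : ∀ z ∈ B.C A, ∀ s ∈ L, B.i (a s) * z = z * B.i (a s) := fun z hz => (hHmem z).1 hz
  -- the set `S`
  let S : Set (G × G) := {w | ∀ s ∈ L, B.i (a s) * w.1 = w.1 * B.i (a s) ∧
    w.2⁻¹ * B.i (a s) * w.2 = B.i (a s) * (w.1 ^ m) ^ (s.1 : ℕ)}
  have hSx : ∀ w ∈ S, w.1 ∈ B.C A := fun w hw => (hHmem _).2 fun s hs => (hw s hs).1
  -- `y x y⁻¹ ∈ H`
  have hSy : ∀ w ∈ S, w.2 * w.1 * w.2⁻¹ ∈ B.C A := by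
    intro w hw
    rw [hHmem]
    intro s hs
    obtain ⟨h1, h2⟩ := hw s hs
    have h3 : w.1 * (w.2⁻¹ * B.i (a s) * w.2) = (w.2⁻¹ * B.i (a s) * w.2) * w.1 := by
      rw [h2, ← mul_assoc, ← h1, mul_assoc, mul_assoc]
      congr 1
      exact (((Commute.refl w.1).pow_right m).pow_right _).eq
    have h4 : B.i (a s) * (w.2 * w.1 * w.2⁻¹) =
        w.2 * ((w.2⁻¹ * B.i (a s) * w.2) * w.1) * w.2⁻¹ := by group
    have h5 : w.2 * w.1 * w.2⁻¹ * B.i (a s) =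
        w.2 * (w.1 * (w.2⁻¹ * B.i (a s) * w.2)) * w.2⁻¹ := by group
    rw [h4, h5, h3]
  have hSk : ∀ w ∈ S, kap w.1 w.2 ∈ B.C A := by
    intro w hw
    have h1 := (B.C A).mul_mem (hSx w hw) ((B.C A).inv_mem (hSy w hw))
    have e : w.1 * (w.2 * w.1 * w.2⁻¹)⁻¹ = kap w.1 w.2 := by
      unfold kap
      group
    rwa [e] at h1
  -- invariance under `ec`
  have hSc1 : ∀ (z : B.C A) w, w ∈ S → ec (B.C A) z w ∈ S := by
    intro z w hw s hs
    obtain ⟨h1, h2⟩ := hw s hs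
    have h3 := haz z z.2 s hs
    have h3' : B.i (a s) * (z : G)⁻¹ = (z : G)⁻¹ * B.i (a s) := by
      rw [mul_inv_eq_iff_eq_mul, mul_assoc, h3]
      group
    constructor
    · show B.i (a s) * ((z : G)⁻¹ * w.1 * z) = (z : G)⁻¹ * w.1 * z * B.i (a s)
      calc B.i (a s) * ((z : G)⁻¹ * w.1 * z) = (B.i (a s) * (z : G)⁻¹) * w.1 * z := by group
        _ = (z : G)⁻¹ * (B.i (a s) * w.1) * z := by rw [h3']; group
        _ = (z : G)⁻¹ * w.1 * (B.i (a s) * z) := by rw [h1]; group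
        _ = (z : G)⁻¹ * w.1 * z * B.i (a s) := by rw [h3]; group
    · show ((z : G)⁻¹ * w.2 * z)⁻¹ * B.i (a s) * ((z : G)⁻¹ * w.2 * z) =
        B.i (a s) * (((z : G)⁻¹ * w.1 * z) ^ m) ^ (s.1 : ℕ)
      have e1 : (((z : G)⁻¹ * w.1 * z) ^ m) ^ (s.1 : ℕ) = (z : G)⁻¹ * (w.1 ^ m) ^ (s.1 : ℕ) * z := by
        have e2 := conj_pow (i := m) (a := (z : G)⁻¹) (b := w.1)
        rw [inv_inv] at e2
        rw [e2]
        have e3 := conj_pow (i := (s.1 : ℕ)) (a := (z : G)⁻¹) (b := w.1 ^ m)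
        rw [inv_inv] at e3
        exact e3
      rw [e1]
      calc ((z : G)⁻¹ * w.2 * z)⁻¹ * B.i (a s) * ((z : G)⁻¹ * w.2 * z) =
          (z : G)⁻¹ * (w.2⁻¹ * ((z : G) * (B.i (a s) * (z : G)⁻¹)) * w.2) * z := by group
        _ = (z : G)⁻¹ * (w.2⁻¹ * B.i (a s) * w.2) * z := by rw [h3']; group
        _ = ((z : G)⁻¹ * B.i (a s)) * (w.1 ^ m) ^ (s.1 : ℕ) * z := by rw [h2]; group
        _ = B.i (a s) * ((z : G)⁻¹ * (w.1 ^ m) ^ (s.1 : ℕ) * z) := by rw [← h3']; group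
  have hSc : ∀ (z : B.C A) w, ec (B.C A) z w ∈ S ↔ w ∈ S := by
    intro z w
    refine ⟨fun h => ?_, hSc1 z w⟩
    have h1 := hSc1 z⁻¹ _ h
    have e : ec (B.C A) z⁻¹ (ec (B.C A) z w) = w := by
      refine Prod.ext ?_ ?_
      · show ((z⁻¹ : B.C A) : G)⁻¹ * ((z : G)⁻¹ * w.1 * z) * ((z⁻¹ : B.C A) : G) = w.1
        rw [Subgroup.coe_inv]
        group
      · show ((z⁻¹ : B.C A) : G)⁻¹ * ((z : G)⁻¹ * w.2 * z) * ((z⁻¹ : B.C A) : G) = w.2
        rw [Subgroup.coe_inv]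
        group
    rwa [e] at h1
  -- invariance under `em`
  have hSm : ∀ (z : B.C A) w, em (B.C A) z w ∈ S ↔ w ∈ S := by
    intro z w
    have h0 : ∀ s ∈ L, ((z : G) * w.2)⁻¹ * B.i (a s) * ((z : G) * w.2) =
        w.2⁻¹ * B.i (a s) * w.2 := by
      intro s hs
      have h3 := haz z z.2 s hs
      calc ((z : G) * w.2)⁻¹ * B.i (a s) * ((z : G) * w.2) =
          w.2⁻¹ * ((z : G)⁻¹ * (B.i (a s) * z)) * w.2 := by group
        _ = w.2⁻¹ * B.i (a s) * w.2 := by rw [h3]; group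
    constructor
    · intro h s hs
      obtain ⟨h1, h2⟩ := h s hs
      refine ⟨h1, ?_⟩
      rw [← h0 s hs]
      exact h2
    · intro h s hs
      obtain ⟨h1, h2⟩ := h s hs
      refine ⟨h1, ?_⟩
      show ((z : G) * w.2)⁻¹ * B.i (a s) * ((z : G) * w.2) = _
      rw [h0 s hs]
      exact h2
  have hHc : (Fintype.card (B.C A) : ℂ) ≠ 0 := by
    exact_mod_cast Fintype.card_ne_zero
  -- step 1 to 3
  have s1 : HK B m κ L = (Fintype.card (B.C A) : ℂ)⁻¹ *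
      ∑ w, (if w ∈ S then fc B A κ (kap w.1 w.2) else 0) := by
    obtain ⟨K, hK⟩ : ∃ K, K = A ⊔ Subgroup.zpowers κ := ⟨_, rfl⟩
    have e1 : HK B m κ L = (Nat.card (B.C K) : ℂ)⁻¹ *
        ∑ w : G × G, (if w ∈ S then bh B K ((B.i κ)⁻¹ * kap w.1 w.2) else 0) := by
      unfold HK
      rw [← hAd, ← hK, finsum_eq_sum_of_fintype]
      congr 1
      have e2 : ∀ t : G, (({w : G × G | kap w.1 w.2 = B.i κ * t ∧ ∀ s ∈ L,
          B.i (κ ^ (s.2.1 : ℕ) * s.2.2.1) * w.1 = w.1 * B.i (κ ^ (s.2.1 : ℕ) * s.2.2.1) ∧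
          w.2⁻¹ * B.i (κ ^ (s.2.1 : ℕ) * s.2.2.1) * w.2 =
            B.i (κ ^ (s.2.1 : ℕ) * s.2.2.1) * (w.1 ^ m) ^ (s.1 : ℕ)}.ncard : ℕ) : ℂ) =
          ∑ w : G × G, if kap w.1 w.2 = B.i κ * t ∧ w ∈ S then (1 : ℂ) else 0 := fun t =>
        ncard_sum (fun w : G × G => kap w.1 w.2 = B.i κ * t ∧ w ∈ S)
      simp only [e2, Finset.mul_sum]
      rw [Finset.sum_comm]
      refine Finset.sum_congr rfl fun w _ => ?_
      by_cases hw : w ∈ S
      · rw [if_pos hw, Finset.sum_eq_single ((B.i κ)⁻¹ * kap w.1 w.2)]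
        · rw [if_pos ⟨by group, hw⟩, mul_one]
        · intro t _ ht
          rw [if_neg, mul_zero]
          rintro ⟨h1, -⟩
          apply ht
          rw [h1]
          group
        · intro h
          exact absurd (Finset.mem_univ _) h
      · rw [if_neg hw]
        refine Finset.sum_eq_zero fun t _ => ?_
        rw [if_neg (fun h => hw h.2), mul_zero]
    have e3 := avg (B.C A) S (ec (B.C A)) hSc (fun w => bh B K ((B.i κ)⁻¹ * kap w.1 w.2))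
    have e4 : ∑ w, (if w ∈ S then fc B A κ (kap w.1 w.2) else 0) = (Nat.card (B.C K) : ℂ)⁻¹ *
        ∑ w, (if w ∈ S then ∑ z : B.C A, bh B K ((B.i κ)⁻¹ *
          kap (ec (B.C A) z w).1 (ec (B.C A) z w).2) else 0) := by
      rw [Finset.mul_sum]
      refine Finset.sum_congr rfl fun w _ => ?_
      split_ifs
      · unfold fc
        rw [← hK, finsum_eq_sum_of_fintype]
        congr 1
        refine Finset.sum_congr rfl fun z _ => ?_
        congr 2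
        show (z : G)⁻¹ * kap w.1 w.2 * z = kap ((z : G)⁻¹ * w.1 * z) ((z : G)⁻¹ * w.2 * z)
        unfold kap
        group
      · rw [mul_zero]
    rw [e4, ← e3, e1]
    field_simp
  -- constants
  have hDt := hB.dg A hA
  have hD0 : ((B.D A : ℕ) : ℂ) ≠ 0 := by exact_mod_cast hDt.1.ne'
  have hl0 : ((ℓ : ℕ) : ℂ) ≠ 0 := by
    exact_mod_cast (Fact.out : ℓ.Prime).ne_zero
  have hu0 : ((ux B.U A κ : ℚ) : ℂ) ≠ 0 := by
    have htop : (⊤ : Subgroup V₀) ≠ ⊥ := fun h => hA (le_bot_iff.1 (h ▸ le_top))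
    have h1 : ux B.U A κ ≠ 0 := by
      unfold ux
      split_ifs
      · exact one_ne_zero
      · unfold Bk.U
        have h2 : ((B.S A : ℤ) : ℚ) ≠ 0 := by
          rcases hB.sg A hA with h | h
          · rw [h]; norm_num
          · rw [h]; norm_num
        have h3 : ((B.D A : ℕ) : ℚ) ≠ 0 := by exact_mod_cast hDt.1.ne'
        have h4 : ((B.D ⊤ : ℕ) : ℚ) ≠ 0 := by exact_mod_cast (hB.dg ⊤ htop).1.ne'
        have h5 : ((Nat.card (B.C A) : ℕ) : ℚ) ≠ 0 := by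
          have : 0 < Nat.card (B.C A) := Nat.card_pos
          exact_mod_cast this.ne'
        have h6 : ((Nat.card (B.C ⊤) : ℕ) : ℚ) ≠ 0 := by
          have : 0 < Nat.card (B.C ⊤) := Nat.card_pos
          exact_mod_cast this.ne'
        exact div_ne_zero (mul_ne_zero (mul_ne_zero h2 h5) h4) (mul_ne_zero h6 h3)
    exact_mod_cast h1
  obtain ⟨u, hu⟩ : ∃ u : ℂ, u = ((ux B.U A κ : ℚ) : ℂ) := ⟨_, rfl⟩
  rw [← hu] at hu0
  have hNc : (Nat.card (B.C A) : ℂ) = Fintype.card (B.C A) := by rw [Nat.card_eq_fintype_card]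
  -- the characters
  have hfin := ch_fin B A
  obtain ⟨X, hX⟩ : ∃ X, X = hfin.toFinset := ⟨_, rfl⟩
  have hXm : ∀ χ, χ ∈ X ↔ χ ∈ Ch B A := by
    intro χ
    rw [hX, Set.Finite.mem_toFinset]
  have hlfin : (lin V₀).Finite := by
    rw [← nsv1.image_eq]
    exact hfin.image _
  have hlam : ∀ χ ∈ X, lam B A χ ∈ lin V₀ := fun χ hχ => nsv1.mapsTo ((hXm χ).1 hχ)
  have horth : ∀ v : V₀, ∑ χ ∈ X, lam B A χ v = if v = 1 then ((ℓ : ℕ) : ℂ) ^ 2 else 0 := by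
    intro v
    have h1 := lin_sum hlfin v
    rw [hF.cd] at h1
    push_cast at h1
    rw [← h1]
    refine Finset.sum_bij (fun χ _ => lam B A χ) ?_ ?_ ?_ ?_
    · intro χ hχ
      rw [Set.Finite.mem_toFinset]
      exact hlam χ hχ
    · intro χ hχ ψ hψ h
      exact nsv1.injOn ((hXm χ).1 hχ) ((hXm ψ).1 hψ) h
    · intro f hf
      rw [Set.Finite.mem_toFinset] at hf
      obtain ⟨χ, hχ, h⟩ := nsv1.surjOn hf
      exact ⟨χ, (hXm χ).2 hχ, h⟩
    · intro χ _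
      rfl
  -- step 4
  have s4 : ∀ g ∈ B.C A, fc B A κ g = ((B.D A : ℕ) : ℂ) / Fintype.card (B.C A) * u *
      ∑ χ ∈ X, lam B A χ κ * χ g⁻¹ := by
    intro g hg
    have h1 : ∀ χ ∈ X, χ g⁻¹ = (Fintype.card (B.C A) : ℂ) / (((ℓ : ℕ) : ℂ) ^ 2 * B.D A) *
        ∑ x : V₀, starRingEnd ℂ (lam B A χ x) / (ux B.U A x : ℚ) * fc B A x g := by
      intro χ hχ
      have h2 := nsv4 χ ((hXm χ).1 hχ) g⁻¹ ((B.C A).inv_mem hg)
      rw [inv_inv, hNc, finsum_eq_sum_of_fintype] at h2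
      exact h2
    have h2 : ∑ χ ∈ X, lam B A χ κ * χ g⁻¹ = (Fintype.card (B.C A) : ℂ) /
        (((ℓ : ℕ) : ℂ) ^ 2 * B.D A) *
        ∑ x : V₀, (∑ χ ∈ X, lam B A χ (κ * x⁻¹)) / (ux B.U A x : ℚ) * fc B A x g := by
      rw [Finset.sum_congr rfl (fun χ hχ => by rw [h1 χ hχ])]
      simp only [Finset.mul_sum, Finset.sum_div, Finset.sum_mul]
      rw [Finset.sum_comm]
      refine Finset.sum_congr rfl fun x _ => Finset.sum_congr rfl fun χ hχ => ?_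
      rw [lin_conj (hlam χ hχ), (hlam χ hχ).2]
      ring
    rw [h2]
    simp only [horth]
    rw [Finset.sum_eq_single κ]
    · rw [mul_inv_cancel, if_pos rfl, ← hu]
      field_simp
    · intro x _ hx
      rw [if_neg (fun h => hx (mul_inv_eq_one.1 h).symm), zero_div, zero_mul]
    · intro h
      exact absurd (Finset.mem_univ _) h
  -- step 5
  have hone : ∀ χ ∈ X, χ 1 = ((B.D A : ℕ) : ℂ) := by
    intro χ hχ
    have h1 := hDt.2 _ ((hXm χ).1 hχ).2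
    exact h1
  have s5 : ∀ χ ∈ X, ∑ w, (if w ∈ S then χ (kap w.1 w.2)⁻¹ else 0) =
      (((B.D A : ℕ) : ℂ))⁻¹ *
        ∑ w, (if w ∈ S then χ (w.2 * w.1 * w.2⁻¹) * χ w.1⁻¹ else 0) := by
    intro χ hχ
    have e1 := avg (B.C A) S (em (B.C A)) hSm (fun w => χ (kap w.1 w.2)⁻¹)
    have e2 : ∑ w, (if w ∈ S then ∑ z : B.C A,
        χ (kap (em (B.C A) z w).1 (em (B.C A) z w).2)⁻¹ else 0) =
        ∑ w, (if w ∈ S then (Fintype.card (B.C A) : ℂ) *
          (χ (w.2 * w.1 * w.2⁻¹) * χ w.1⁻¹ / ((B.D A : ℕ) : ℂ)) else 0) := by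
      refine Finset.sum_congr rfl fun w _ => ?_
      by_cases hw : w ∈ S
      · rw [if_pos hw, if_pos hw]
        have h1 := ch_avg ((hXm χ).1 hχ) (hSy w hw) ((B.C A).inv_mem (hSx w hw))
        rw [hone χ hχ] at h1
        rw [← h1]
        refine Finset.sum_congr rfl fun z _ => ?_
        congr 1
        show (kap w.1 ((z : G) * w.2))⁻¹ = (z : G) * (w.2 * w.1 * w.2⁻¹) * (z : G)⁻¹ * w.1⁻¹
        unfold kap
        group
      · rw [if_neg hw, if_neg hw]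
    rw [e2] at e1
    have e3 : ∑ w, (if w ∈ S then (Fintype.card (B.C A) : ℂ) *
          (χ (w.2 * w.1 * w.2⁻¹) * χ w.1⁻¹ / ((B.D A : ℕ) : ℂ)) else 0) =
        (Fintype.card (B.C A) : ℂ) * ((((B.D A : ℕ) : ℂ))⁻¹ *
        ∑ w, (if w ∈ S then χ (w.2 * w.1 * w.2⁻¹) * χ w.1⁻¹ else 0)) := by
      rw [Finset.mul_sum, Finset.mul_sum]
      refine Finset.sum_congr rfl fun w _ => ?_
      split_ifs
      · ring
      · simp
    rw [e3] at e1
    exact mul_left_cancel₀ hHc e1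
  -- step 6
  let LA : Set (V₀ × V₀ × ℤ) := {t | ∃ s ∈ L, t = (a s, a s, ((s.1 : ℕ) : ℤ))}
  have s6 : ∀ χ ∈ X, starRingEnd ℂ (SL B m LA χ χ) =
      ∑ w, (if w ∈ S then χ (w.2 * w.1 * w.2⁻¹) * χ w.1⁻¹ else 0) := by
    intro χ hχ
    have hc := (hXm χ).1 hχ
    unfold SL
    rw [finsum_mem_def, finsum_eq_sum_of_fintype, map_sum]
    rw [← Equiv.sum_comp ((Equiv.refl G).prodCongr (Equiv.inv G))]
    refine Finset.sum_congr rfl fun w _ => ?_
    show starRingEnd ℂ (Set.indicator _ _ (w.1, w.2⁻¹)) = _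
    have hiff : ((w.1, w.2⁻¹) ∈ {w : G × G | ∀ s ∈ LA, w.2 * B.i s.2.1 * w.2⁻¹ =
        B.i s.1 * (w.1 ^ m) ^ s.2.2}) ↔ ∀ s ∈ L, w.2⁻¹ * B.i (a s) * w.2 =
          B.i (a s) * (w.1 ^ m) ^ (s.1 : ℕ) := by
      constructor
      · intro h s hs
        have h1 := h (a s, a s, ((s.1 : ℕ) : ℤ)) ⟨s, hs, rfl⟩
        have h2 : w.2⁻¹ * B.i (a s) * w.2⁻¹⁻¹ = B.i (a s) * (w.1 ^ m) ^ ((s.1 : ℕ) : ℤ) := h1
        rwa [inv_inv, zpow_natCast] at h2
      · rintro h _ ⟨s, hs, rfl⟩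
        show w.2⁻¹ * B.i (a s) * w.2⁻¹⁻¹ = B.i (a s) * (w.1 ^ m) ^ ((s.1 : ℕ) : ℤ)
        rw [inv_inv, zpow_natCast]
        exact h s hs
    rw [Set.indicator_apply]
    by_cases h1 : w ∈ S
    · have h2 := hiff.2 fun s hs => (h1 s hs).2
      rw [if_pos h2, if_pos h1, map_mul, ch_star hc, ch_star hc, mul_comm]
      congr 2
      show (w.2⁻¹⁻¹ * w.1⁻¹ * w.2⁻¹)⁻¹ = w.2 * w.1 * w.2⁻¹
      group
    · rw [if_neg h1]
      by_cases h2 : (w.1, w.2⁻¹) ∈ {w : G × G | ∀ s ∈ LA, w.2 * B.i s.2.1 * w.2⁻¹ =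
        B.i s.1 * (w.1 ^ m) ^ s.2.2}
      · rw [if_pos h2]
        have h3 : w.1 ∉ B.C A := by
          intro h4
          exact h1 fun s hs => ⟨(hHmem _).1 h4 s hs, hiff.1 h2 s hs⟩
        show starRingEnd ℂ (χ w.1 * _) = 0
        rw [hc.1 _ h3, zero_mul, map_zero]
      · rw [if_neg h2, map_zero]
  -- step 7
  have hp1 : p1 LA = A := by
    rw [hAcl]
    unfold p1
    congr 1
    ext p
    constructor
    · rintro ⟨_, ⟨s, hs, rfl⟩, rfl⟩
      exact ⟨s, hs, rfl⟩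
    · rintro ⟨s, hs, rfl⟩
      exact ⟨_, ⟨s, hs, rfl⟩, rfl⟩
  have hp2 : p2 LA = A := by
    rw [hAcl]
    unfold p2
    congr 1
    ext p
    constructor
    · rintro ⟨_, ⟨s, hs, rfl⟩, rfl⟩
      exact ⟨s, hs, rfl⟩
    · rintro ⟨s, hs, rfl⟩
      exact ⟨_, ⟨s, hs, rfl⟩, rfl⟩
  have : Finite (MulAut V₀) :=
    Finite.of_injective (fun f : MulAut V₀ => (f : V₀ → V₀)) DFunLike.coe_injective
  have iA : Fintype (MulAut V₀) := Fintype.ofFinite _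
  let T : Set (MulAut V₀ × V₀) := {w | w.1 ∈ E₀ ∧ ∀ s ∈ L, w.1 (a s * w.2 ^ (s.1 : ℕ)) = a s}
  have s7 : ∀ χ ∈ X, starRingEnd ℂ (SL B m LA χ χ) =
      (Fintype.card (B.C A) : ℂ) * Fintype.card (B.C A) / ((ℓ : ℕ) : ℂ) ^ 2 *
        ∑ w, (if w ∈ T then lam B A χ (w.2⁻¹ * w.1 w.2) else 0) := by
    intro χ hχ
    have hc := (hXm χ).1 hχ
    have h1 := hS ℓ M hM hℓ V₀ G E₀ hF B hB n m hPE LA (by rw [hp1]; exact hA)
      (by rw [hp2]; exact hA) χ (by rw [hp1]; exact hc) χ (by rw [hp2]; exact hc)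
    rw [hp1, hp2, hNc] at h1
    have h2 : ((B.S A : ℤ) : ℂ) * ((B.S A : ℤ) : ℂ) = 1 := by
      rcases hB.sg A hA with h | h
      · rw [h]; norm_num
      · rw [h]; norm_num
    rw [h2, mul_one] at h1
    rw [h1, map_mul, map_div₀, map_mul, map_pow]
    simp only [Complex.conj_natCast]
    congr 1
    rw [finsum_mem_def, finsum_eq_sum_of_fintype, map_sum]
    refine Finset.sum_congr rfl fun w _ => ?_
    rw [Set.indicator_apply]
    have hiff : (w ∈ {w : MulAut V₀ × V₀ | w.1 ∈ E₀ ∧ ∀ s ∈ LA,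
        w.1 (s.1 * w.2 ^ s.2.2) = s.2.1}) ↔ w ∈ T := by
      constructor
      · rintro ⟨g1, g2⟩
        refine ⟨g1, fun s hs => ?_⟩
        have g3 := g2 (a s, a s, ((s.1 : ℕ) : ℤ)) ⟨s, hs, rfl⟩
        have g4 : w.1 (a s * w.2 ^ ((s.1 : ℕ) : ℤ)) = a s := g3
        rwa [zpow_natCast] at g4
      · rintro ⟨g1, g2⟩
        refine ⟨g1, ?_⟩
        rintro _ ⟨s, hs, rfl⟩
        show w.1 (a s * w.2 ^ ((s.1 : ℕ) : ℤ)) = a s
        rw [zpow_natCast]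
        exact g2 s hs
    simp only [hiff]
    split_ifs
    · rw [map_mul, Complex.conj_conj, lin_conj (hlam χ hχ), ← (hlam χ hχ).2]
    · rw [map_zero]
  -- step 8
  have s8 : HK B m κ L = u * ∑ w, (if w ∈ T ∧ κ * (w.2⁻¹ * w.1 w.2) = 1 then (1 : ℂ) else 0) := by
    have e1 : ∑ w, (if w ∈ S then fc B A κ (kap w.1 w.2) else 0) =
        ((B.D A : ℕ) : ℂ) / Fintype.card (B.C A) * u *
          ∑ χ ∈ X, lam B A χ κ * ∑ w, (if w ∈ S then χ (kap w.1 w.2)⁻¹ else 0) := by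
      have e2 : ∀ w : G × G, (if w ∈ S then fc B A κ (kap w.1 w.2) else 0) =
          ((B.D A : ℕ) : ℂ) / Fintype.card (B.C A) * u *
            ∑ χ ∈ X, lam B A χ κ * (if w ∈ S then χ (kap w.1 w.2)⁻¹ else 0) := by
        intro w
        split_ifs with hw
        · exact s4 _ (hSk w hw)
        · simp
      simp only [e2]
      rw [← Finset.mul_sum, Finset.sum_comm]
      congr 1
      refine Finset.sum_congr rfl fun χ _ => ?_
      rw [Finset.mul_sum]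
    have e3 : ∑ χ ∈ X, lam B A χ κ * ∑ w, (if w ∈ S then χ (kap w.1 w.2)⁻¹ else 0) =
        (((B.D A : ℕ) : ℂ))⁻¹ * ((Fintype.card (B.C A) : ℂ) * Fintype.card (B.C A) /
          ((ℓ : ℕ) : ℂ) ^ 2) * ∑ w, (if w ∈ T then
            ∑ χ ∈ X, lam B A χ (κ * (w.2⁻¹ * w.1 w.2)) else 0) := by
      have e4 : ∀ χ ∈ X, lam B A χ κ * ∑ w, (if w ∈ S then χ (kap w.1 w.2)⁻¹ else 0) =
          (((B.D A : ℕ) : ℂ))⁻¹ * ((Fintype.card (B.C A) : ℂ) * Fintype.card (B.C A) /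
          ((ℓ : ℕ) : ℂ) ^ 2) * ∑ w, (if w ∈ T then
            lam B A χ (κ * (w.2⁻¹ * w.1 w.2)) else 0) := by
        intro χ hχ
        rw [s5 χ hχ, ← s6 χ hχ, s7 χ hχ]
        have e5 : ∑ w, (if w ∈ T then lam B A χ (κ * (w.2⁻¹ * w.1 w.2)) else 0) =
            lam B A χ κ * ∑ w, (if w ∈ T then lam B A χ (w.2⁻¹ * w.1 w.2) else 0) := by
          rw [Finset.mul_sum]
          refine Finset.sum_congr rfl fun w _ => ?_
          split_ifs
          · rw [(hlam χ hχ).2]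
          · rw [mul_zero]
        rw [e5]
        ring
      rw [Finset.sum_congr rfl e4, ← Finset.mul_sum, Finset.sum_comm]
      congr 1
      refine Finset.sum_congr rfl fun w _ => ?_
      split_ifs
      · rfl
      · simp
    have e6 : ∑ w, (if w ∈ T then ∑ χ ∈ X, lam B A χ (κ * (w.2⁻¹ * w.1 w.2)) else 0) =
        ((ℓ : ℕ) : ℂ) ^ 2 *
          ∑ w, (if w ∈ T ∧ κ * (w.2⁻¹ * w.1 w.2) = 1 then (1 : ℂ) else 0) := by
      rw [Finset.mul_sum]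
      refine Finset.sum_congr rfl fun w _ => ?_
      rw [horth]
      by_cases h1 : w ∈ T
      · by_cases h2 : κ * (w.2⁻¹ * w.1 w.2) = 1
        · rw [if_pos h1, if_pos h2, if_pos ⟨h1, h2⟩, mul_one]
        · rw [if_pos h1, if_neg h2, if_neg (fun h => h2 h.2), mul_zero]
      · rw [if_neg h1, if_neg (fun h => h1 h.1), mul_zero]
    rw [s1, e1, e3, e6]
    field_simp
  have s9 : ∑ w, (if w ∈ T ∧ κ * (w.2⁻¹ * w.1 w.2) = 1 then (1 : ℂ) else 0) =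
      ((N12 E₀ κ L : ℕ) : ℂ) := by
    rw [← ncard_sum (fun w : MulAut V₀ × V₀ => w ∈ T ∧ κ * (w.2⁻¹ * w.1 w.2) = 1)]
    unfold N12
    congr 1
    refine Set.ncard_congr (fun w hw => ((⟨w.1, hw.1.1⟩ : E₀), w.2⁻¹)) ?_ ?_ ?_
    · rintro w ⟨⟨h1, h2⟩, h3⟩
      constructor
      · show w.1 w.2⁻¹ = κ * w.2⁻¹
        have h4 : κ * w.2⁻¹ = (w.1 w.2)⁻¹ := by
          rw [← mul_assoc] at h3
          exact eq_inv_of_mul_eq_one_left h3
        rw [h4, map_inv]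
      · intro s hs
        show w.1 (κ ^ (s.2.1 : ℕ) * s.2.2.1 * (w.2⁻¹ ^ (s.1 : ℕ))⁻¹) = κ ^ (s.2.1 : ℕ) * s.2.2.1
        rw [inv_pow, inv_inv]
        exact h2 s hs
    · rintro ⟨w1, w2⟩ ⟨v1, v2⟩ hw hv h
      have h1 := congrArg Prod.fst h
      have h2 := congrArg Prod.snd h
      have h3 : w1 = v1 := congrArg Subtype.val h1
      have h4 : w2 = v2 := inv_injective h2
      rw [h3, h4]
    · rintro ⟨⟨τ, hτ⟩, v⟩ ⟨h1, h2⟩
      refine ⟨(τ, v⁻¹), ⟨⟨hτ, fun s hs => ?_⟩, ?_⟩, ?_⟩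
      · have h3 := h2 s hs
        have h4 : τ (κ ^ (s.2.1 : ℕ) * s.2.2.1 * (v ^ (s.1 : ℕ))⁻¹) =
          κ ^ (s.2.1 : ℕ) * s.2.2.1 := h3
        show τ (a s * v⁻¹ ^ (s.1 : ℕ)) = a s
        rw [inv_pow]
        exact h4
      · have h3 : τ v = κ * v := h1
        show κ * (v⁻¹⁻¹ * τ v⁻¹) = 1
        rw [map_inv, h3, inv_inv, mul_inv_rev]
        rw [← mul_assoc v, mul_inv_cancel, one_mul, mul_inv_cancel]
      · refine Prod.ext rfl ?_
        show v⁻¹⁻¹ = v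
        rw [inv_inv]
  rw [s8, s9, hu]
  push_cast
  ring

end Pool.Agent.PP.SO.H10W
end
end -- Pool.Agent.Helper10_ASO.W12B

section -- Pool.Agent.Helper15_ASO.HL12

/-!
# Squad ASO, row HL12: the sums `L1`, `L2`
-/

open scoped BigOperators

noncomputable section

namespace Pool.Agent.PP.SO.H15

open Pool.Agent.Helper51_AWC Pool.Agent.Helper79_WRA Pool.Agent.PP Pool.Agent.PP.KF
open Pool.Agent.PP.K9 Pool.Agent.PP.K9.H97 Pool.Agent.PP.H75 Pool.Agent.PP.T3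

attribute [local instance] Ideal.Quotient.field

/-! ## Rational numbers -/

theorem rat_Rl {ℓ : ℕ} [Fact ℓ.Prime] (M : Ideal (integralClosure ℤ ℂ)) [M.IsMaximal]
    (hM : (ℓ : integralClosure ℤ ℂ) ∈ M) (q : ℚ) (h : (q : ℂ) ∈ RM M) : q ∈ SOR.Rl ℓ := by
  show ¬ ℓ ∣ q.den
  intro hd
  have h0 : ((q.den : ℕ) : FF M) = 0 := by
    obtain ⟨k, hk⟩ := hd
    have h1 : ((ℓ : ℕ) : FF M) = 0 := by
      have := (Ideal.Quotient.eq_zero_iff_mem (I := M)).2 hM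
      rwa [map_natCast] at this
    rw [hk, Nat.cast_mul, h1, zero_mul]
  have hden : (q.den : ℂ) ≠ 0 := Nat.cast_ne_zero.2 q.den_nz
  have h1 : ((q.num : ℤ) : ℂ) = (q.den : ℂ) * q := by
    rw [Rat.cast_def]
    field_simp
  have h2 := rr_mul (rr_nat (M := M) q.den).1 h
  rw [← h1, (rr_nat (M := M) q.den).2, h0, zero_mul, (rr_int (M := M) q.num).2] at h2
  have h3 : IsCoprime q.num (q.den : ℤ) := by
    rw [Int.isCoprime_iff_gcd_eq_one]
    exact q.reduced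
  obtain ⟨a, b, hab⟩ := h3
  have h4 : ((a * q.num + b * (q.den : ℤ) : ℤ) : FF M) = ((1 : ℤ) : FF M) := by rw [hab]
  rw [Int.cast_add, Int.cast_mul, Int.cast_mul, h2, Int.cast_natCast, h0, mul_zero, mul_zero,
    add_zero, Int.cast_one] at h4
  exact zero_ne_one h4

/-- the rational numbers -/
def QQ : Subring ℂ := (algebraMap ℚ ℂ).range

theorem mem_QQ {z : ℂ} : z ∈ QQ ↔ ∃ q : ℚ, z = q := by
  constructor
  · rintro ⟨q, hq⟩
    exact ⟨q, by rw [← hq]; rfl⟩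
  · rintro ⟨q, rfl⟩
    exact ⟨q, rfl⟩

theorem geom_int (q i : ℕ) (ζ : ℂ) (hζ : ζ ^ q = 1) :
    ∃ z : ℤ, ∑ j ∈ Finset.range q, ζ ^ (i * j) = z := by
  by_cases h : ζ ^ i = 1
  · refine ⟨q, ?_⟩
    rw [Finset.sum_congr rfl (fun j _ => by rw [pow_mul, h, one_pow])]
    simp
  · refine ⟨0, ?_⟩
    have h2 : (∑ j ∈ Finset.range q, ζ ^ (i * j)) * (ζ ^ i - 1) = 0 := by
      rw [Finset.sum_congr rfl (fun j _ => pow_mul ζ i j), geom_sum_mul, ← pow_mul, mul_comm i q,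
        pow_mul, hζ, one_pow, sub_self]
    rcases mul_eq_zero.1 h2 with h3 | h3
    · rw [h3, Int.cast_zero]
    · exact absurd (sub_eq_zero.1 h3) h

theorem geom_int1 (q i : ℕ) (hq : 0 < q) (ζ : ℂ) (hζ : ζ ^ q = 1) :
    ∃ z : ℤ, ∑ j ∈ Finset.Ico 1 q, ζ ^ (i * j) = z := by
  obtain ⟨z, hz⟩ := geom_int q i ζ hζ
  refine ⟨z - 1, ?_⟩
  rw [Finset.range_eq_Ico, Finset.sum_eq_sum_Ico_succ_bot hq, mul_zero, pow_zero, zero_add] at hz
  push_cast
  rw [← hz]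
  ring

/-! ## Central elements of the centraliser -/

/-- a central element acts by a scalar -/
theorem cent_root {C : Type} [Group C] {θ : C → ℂ} (hθ : θ ∈ Irr C) {z : C}
    (hz : ∀ c, z * c = c * z) {q : ℕ} (hq : z ^ q = 1) :
    ∃ k : ℂ, k ^ q = 1 ∧ ∀ (j : ℕ) (c : C), θ (z ^ j * c) = k ^ j * θ c := by
  obtain ⟨n, ρ, hρ, rfl⟩ := hθ
  obtain ⟨k, hk⟩ := schur_scalar ρ (ρ z) (by
    intro g
    have h1 : ρ z * ρ g = ρ g * ρ z := by rw [← map_mul, ← map_mul, hz]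
    exact h1)
  have h1 : ∀ c, ρ.character (z * c) = k * ρ.character c := by
    intro c
    show LinearMap.trace ℂ _ (ρ (z * c)) = k * LinearMap.trace ℂ _ (ρ c)
    rw [map_mul, hk, smul_mul_assoc, map_smul, smul_eq_mul]
    rfl
  have h2 : ρ.character 1 ≠ 0 := irr_one_ne (mem_Irr_of_irreducible ρ)
  have h3 : ∀ (j : ℕ) (c : C), ρ.character (z ^ j * c) = k ^ j * ρ.character c := by
    intro j
    induction j with
    | zero => intro c; rw [pow_zero, one_mul, pow_zero, one_mul]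
    | succ j ih =>
      intro c
      rw [pow_succ', mul_assoc, h1, ih, pow_succ', mul_assoc]
  refine ⟨k, ?_, h3⟩
  have e := h3 q 1
  rw [hq, one_mul] at e
  exact mul_right_cancel₀ h2 (by rw [one_mul]; exact e.symm)

/-- the expansion of `χ(u ^ j b^)` in the powers of `ζ ^ j` -/
theorem gv_exp (M : Ideal (integralClosure ℤ ℂ)) [M.IsMaximal] (G : Type) [Group G]
    [Finite G] (u : G) (q : ℕ) (hq : 0 < q) (hu : u ^ q = 1) (b : G → FF M)
    (ζ : ℂ) (hζ : IsPrimitiveRoot ζ q) (χ : G → ℂ) (hχ : χ ∈ Irr G) :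
    ∃ m : ℕ → ℤ, ∀ j : ℕ, gv M (Cu u) (u ^ j) b χ =
      ∑ i ∈ Finset.range q, (m i : ℂ) * ζ ^ (i * j) := by
  classical
  have := Fintype.ofFinite G
  have := Fintype.ofFinite (Cu u)
  obtain ⟨b', hb'⟩ : ∃ b' : Cu u → FF M, b' = fun t : Cu u => b t := ⟨_, rfl⟩
  have hS : (IrrE M b').Finite := irr_finite'.subset (fun θ h => h.1)
  obtain ⟨uC, huC⟩ : ∃ uC : Cu u, (uC : G) = u :=
    ⟨⟨u, Subgroup.mem_centralizer_singleton_iff.2 rfl⟩, rfl⟩
  have hz : ∀ c : Cu u, uC * c = c * uC := by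
    intro c
    apply Subtype.ext
    show (uC : G) * c = c * uC
    rw [huC]
    exact (Subgroup.mem_centralizer_singleton_iff.1 c.2).symm
  have hzq : uC ^ q = 1 := by
    apply Subtype.ext
    rw [Subgroup.coe_pow, huC, hu, Subgroup.coe_one]
  have h1 : ∀ θ ∈ hS.toFinset, ∃ i : ℕ, i < q ∧
      ∀ (j : ℕ) (c : Cu u), θ (uC ^ j * c) = (ζ ^ i) ^ j * θ c := by
    intro θ hθ
    have hθ' : θ ∈ Irr (Cu u) := (hS.mem_toFinset.1 hθ).1
    obtain ⟨k, hk, hkj⟩ := cent_root hθ' hz hzq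
    have : NeZero q := ⟨hq.ne'⟩
    obtain ⟨i, hi, rfl⟩ := hζ.eq_pow_of_pow_eq_one hk
    exact ⟨i, hi, hkj⟩
  have h2 : ∀ θ ∈ hS.toFinset, ∃ m : ℤ,
      (Nat.card (Cu u) : ℂ)⁻¹ * ∑ c : Cu u, χ c * θ c⁻¹ = m := by
    intro θ hθ
    exact KF.H30.mult_int (Cu u) hχ (hS.mem_toFinset.1 hθ).1
  have h3 : ∀ θ ∈ hS.toFinset, ∃ d : ℕ, θ 1 = d := by
    intro θ hθ
    obtain ⟨d, _, hd⟩ := irr_one (hS.mem_toFinset.1 hθ).1
    exact ⟨d, hd⟩
  choose! ix hix hix2 using h1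
  choose! mu hmu using h2
  choose! dg hdg using h3
  refine ⟨fun i => ∑ θ ∈ hS.toFinset.filter (fun θ => ix θ = i), (dg θ : ℤ) * mu θ, ?_⟩
  intro j
  have e1 : gv M (Cu u) (u ^ j) b χ = ∑ c : Cu u, eh M b' c * χ (u ^ j * c) := by
    rw [gv, gbv, finsum_eq_sum_of_fintype, hb']
  have e2 : ∀ c : Cu u, eh M b' c =
      (Nat.card (Cu u) : ℂ)⁻¹ * ∑ θ ∈ hS.toFinset, (dg θ : ℂ) * θ c⁻¹ := by
    intro c
    rw [eh, finsum_mem_eq_finite_toFinset_sum _ hS]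
    congr 1
    refine Finset.sum_congr rfl fun θ hθ => ?_
    rw [hdg θ hθ]
  have e3 : ∀ θ ∈ hS.toFinset, (Nat.card (Cu u) : ℂ)⁻¹ * ∑ c : Cu u, θ c⁻¹ * χ (u ^ j * c) =
      mu θ * ζ ^ (ix θ * j) := by
    intro θ hθ
    rw [← hmu θ hθ, ← Equiv.sum_comp (Equiv.mulLeft (uC ^ j))
      (fun c : Cu u => χ c * θ c⁻¹), mul_assoc, Finset.sum_mul]
    refine congrArg ((Nat.card (Cu u) : ℂ)⁻¹ * ·) (Finset.sum_congr rfl fun c _ => ?_)
    show θ c⁻¹ * χ (u ^ j * c) = χ ((uC ^ j * c : Cu u) : G) * θ (uC ^ j * c)⁻¹ * ζ ^ (ix θ * j)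
    have a1 : ((uC ^ j * c : Cu u) : G) = u ^ j * c := by
      rw [Subgroup.coe_mul, Subgroup.coe_pow, huC]
    have hcomm : ∀ (c : Cu u), uC ^ j * c = c * uC ^ j := fun c =>
      (Commute.pow_left (hz c) j)
    have a2 : θ c⁻¹ = (ζ ^ (ix θ)) ^ j * θ (uC ^ j * c)⁻¹ := by
      rw [← hix2 θ hθ, mul_inv_rev, ← mul_assoc, hcomm c⁻¹, mul_assoc, mul_inv_cancel, mul_one]
    rw [a1, a2, pow_mul]
    ring
  rw [e1]
  simp only [e2]
  have e4 : ∑ c : Cu u, (Nat.card (Cu u) : ℂ)⁻¹ * (∑ θ ∈ hS.toFinset, (dg θ : ℂ) * θ c⁻¹) *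
      χ (u ^ j * c) = ∑ θ ∈ hS.toFinset, (dg θ : ℂ) * ((Nat.card (Cu u) : ℂ)⁻¹ *
        ∑ c : Cu u, θ c⁻¹ * χ (u ^ j * c)) := by
    simp_rw [Finset.mul_sum, Finset.sum_mul]
    rw [Finset.sum_comm]
    refine Finset.sum_congr rfl fun θ _ => Finset.sum_congr rfl fun c _ => ?_
    ring
  rw [e4]
  rw [Finset.sum_congr rfl (fun θ hθ => by rw [e3 θ hθ])]
  rw [← Finset.sum_fiberwise_of_maps_to (s := hS.toFinset) (t := Finset.range q) (g := ix)
    (fun θ hθ => Finset.mem_range.2 (hix θ hθ))]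
  refine Finset.sum_congr rfl fun i _ => ?_
  rw [Int.cast_sum, Finset.sum_mul]
  refine Finset.sum_congr rfl fun θ hθ => ?_
  rw [(Finset.mem_filter.1 hθ).2]
  push_cast
  ring

/-! ## The power map -/

section pm

variable {G : Type} [Group G]

theorem reg_pow_fix (ℓ N : ℕ) (h : ∀ g : G, Reg ℓ g → g ^ N = g) (k : ℕ) (g : G)
    (hg : Reg ℓ g) : g ^ N ^ k = g := by
  induction k with
  | zero => simp
  | succ k ih => rw [pow_succ, pow_mul, ih, h g hg]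

/-- a sum over a finite set which is permuted by the power map -/
theorem sum_pm [Finite G] {N : ℕ} (hN : N.Coprime (Nat.card G)) (S : Set (G → ℂ)) (hS : S.Finite)
    (h : ∀ χ ∈ S, (fun g => χ (g ^ N)) ∈ S) (F : (G → ℂ) → ℂ) (k : ℕ) :
    ∑ᶠ χ ∈ S, F (fun g => χ (g ^ N ^ k)) = ∑ᶠ χ ∈ S, F χ := by
  have hinj : Function.Injective (fun (χ : G → ℂ) (g : G) => χ (g ^ N)) := by
    intro χ ψ hχψ
    funext g
    obtain ⟨m, hm⟩ := exists_pow_eq_self_of_coprime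
      (show N.Coprime (orderOf g) from Nat.Coprime.coprime_dvd_right (orderOf_dvd_natCard g) hN)
    have h1 := congrFun hχψ (g ^ m)
    simp only at h1
    rw [← pow_mul, mul_comm, pow_mul, hm] at h1
    exact h1
  have hbij : Set.BijOn (fun (χ : G → ℂ) (g : G) => χ (g ^ N)) S S := by
    have h1 : Set.MapsTo (fun (χ : G → ℂ) (g : G) => χ (g ^ N)) S S := h
    exact (Set.Finite.injOn_iff_bijOn_of_mapsTo hS h1).1 hinj.injOn
  induction k with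
  | zero => simp only [pow_zero, pow_one]
  | succ k ih =>
    rw [← ih]
    refine finsum_mem_eq_of_bijOn (fun (χ : G → ℂ) (g : G) => χ (g ^ N)) hbij ?_
    intro χ _
    congr 1
    funext g
    rw [pow_succ, pow_mul]

theorem pm_mem {N : ℕ} (S : Set (G → ℂ)) (h : ∀ χ ∈ S, (fun g => χ (g ^ N)) ∈ S) (k : ℕ) :
    ∀ χ ∈ S, (fun g => χ (g ^ N ^ k)) ∈ S := by
  induction k with
  | zero =>
    intro χ hχ
    simpa using hχ
  | succ k ih =>
    intro χ hχ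
    have h1 := ih _ (h χ hχ)
    have e : (fun g => (fun g => χ (g ^ N)) (g ^ N ^ k)) = fun g => χ (g ^ N ^ (k + 1)) := by
      funext g
      show χ ((g ^ N ^ k) ^ N) = _
      rw [← pow_mul, ← pow_succ]
    rwa [e] at h1

end pm

/-! ## The row -/

theorem zp_eq {V₀ : Type} [CommGroup V₀] {ℓ : ℕ} [Fact ℓ.Prime] (hv : ∀ v : V₀, v ^ ℓ = 1)
    (c : V₀) {j : ℕ} (hj : ¬ ℓ ∣ j) : Subgroup.zpowers (c ^ j) = Subgroup.zpowers c := by
  have hcop : j.Coprime (orderOf c) := by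
    have h1 : j.Coprime ℓ := ((Nat.Prime.coprime_iff_not_dvd (Fact.out : ℓ.Prime)).2 hj).symm
    exact Nat.Coprime.coprime_dvd_right (orderOf_dvd_of_pow_eq_one (hv c)) h1
  apply le_antisymm
  · rw [Subgroup.zpowers_le]
    exact Subgroup.npow_mem_zpowers c j
  · obtain ⟨m, hm⟩ := exists_pow_eq_self_of_coprime hcop
    rw [Subgroup.zpowers_le]
    have h1 : (c ^ j) ^ m ∈ Subgroup.zpowers (c ^ j) := Subgroup.npow_mem_zpowers (c ^ j) m
    rwa [hm] at h1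

theorem hl12 (wbo : WboStmt) (hlnk : HLnkStmt) (hfce : HFceStmt) (homr : HOmrStmt)
    (prm : T3.PrmStmt) (rtc : T3.RtcStmt) : HL12Stmt := by
  intro ℓ hℓ M hMm hM V₀ _ _ hv E₀ G _ _ B hB
  classical
  have hl : 0 < ℓ := hℓ.out.pos
  have hS : (IrrE M B.e).Finite := by
    have := Fintype.ofFinite G
    exact irr_finite'.subset (fun θ h => h.1)
  have hone : ∀ χ ∈ IrrE M B.e, cv (fc B ⊥ 1) χ = 1 := (hfce ℓ M hM V₀ E₀ G B hB).2
  have hsig := (hfce ℓ M hM V₀ E₀ G B hB).1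
  have hL : ∀ c : V₀, L2 B c 1 = L1 B c := by
    intro c
    unfold L2 L1
    refine finsum_mem_congr rfl fun χ hχ => ?_
    rw [hone χ hχ, mul_one]
  have hi : ∀ c : V₀, (B.i c) ^ ℓ = 1 := by
    intro c
    rw [← map_pow, hv, map_one]
  -- the values at the powers
  have hval : ∀ (c : V₀) (j : ℕ), ¬ ℓ ∣ j → ∀ χ ∈ Irr G,
      cv (fc B ⊥ (c ^ j)) χ = Nat.card G *
        gv M (Cu (B.i c)) (B.i c ^ j) (B.b (Subgroup.zpowers c)) χ /
          (Nat.card (B.C (Subgroup.zpowers c)) * χ 1) := by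
    intro c j hj χ hχ
    have h1 := (hlnk ℓ M hM V₀ E₀ G B hB (c ^ j)).2.2 χ hχ
    have h2 := (hlnk ℓ M hM V₀ E₀ G B hB (c ^ j)).1
    have h3 := (hlnk ℓ M hM V₀ E₀ G B hB c).1
    rw [zp_eq hv c hj] at h1 h2
    rw [h1, h2, h3, map_pow]
  -- invariance
  have hinv : ∀ (c d : V₀) (j : ℕ), ¬ ℓ ∣ j → L2 B (c ^ j) (d ^ j) = L2 B c d := by
    intro c d j hj
    by_cases hl2 : ℓ = 2
    · subst hl2
      have hodd : ∀ x : V₀, x ^ j = x := by
        intro x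
        obtain ⟨t, ht⟩ : ∃ t, j = 2 * t + 1 := by
          have : j % 2 = 1 := by omega
          exact ⟨j / 2, by omega⟩
        rw [ht, pow_succ, pow_mul, hv, one_pow, one_mul]
      rw [hodd, hodd]
    · obtain ⟨N, hN⟩ := prm ℓ hl2 G
      obtain ⟨k, hk⟩ := hN.gen j hj
      obtain ⟨hrI, hrE⟩ := rtc ℓ M hM G N hN B.e hB.ld.blk.1
      have hcv : ∀ x : V₀, ∀ χ ∈ Irr G,
          cv (fc B ⊥ (x ^ j)) χ = cv (fc B ⊥ x) (fun g => χ (g ^ N ^ k)) := by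
        intro x χ hχ
        have hχ' : (fun g => χ (g ^ N ^ k)) ∈ Irr G := pm_mem (Irr G) hrI k χ hχ
        have h1 := hval x 1 (fun h => hℓ.out.one_lt.ne' (Nat.dvd_one.1 h)) _ hχ'
        rw [pow_one, pow_one] at h1
        rw [hval x j hj χ hχ, h1]
        have hlc := (hlnk ℓ M hM V₀ E₀ G B hB x).2.1
        have e1 : χ (1 ^ N ^ k) = χ 1 := by rw [one_pow]
        rw [e1]
        congr 2
        unfold gv gbv
        refine finsum_congr fun t => ?_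
        by_cases ht : Reg ℓ (t : Cu (B.i x))
        · congr 1
          have ht2 : Reg ℓ (t : G) := by
            unfold Reg at ht ⊢
            rwa [Subgroup.orderOf_coe]
          have hcomm : Commute (B.i x) (t : G) :=
            (Subgroup.mem_centralizer_singleton_iff.1 t.2).symm
          have e2 : (B.i x * (t : G)) ^ N ^ k = B.i x ^ j * t := by
            rw [hcomm.mul_pow, hk (B.i x) ⟨1, by rw [pow_one]; exact hi x⟩,
              reg_pow_fix ℓ N hN.reg k _ ht2]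
          show χ (B.i x ^ j * (t : G)) = χ ((B.i x * (t : G)) ^ N ^ k)
          rw [e2]
        · letI := Fintype.ofFinite G
          letI : Fintype (Cu (B.i x)) := Fintype.ofFinite _
          rw [H25.eh_sing wbo ℓ M hM (fun t : Cu (B.i x) => B.b (Subgroup.zpowers x) t)
            hlc.blk.blk.1 t ht, zero_mul, zero_mul]
      have h1 := sum_pm hN.cop (IrrE M B.e) hS hrE
        (fun χ => cv (fc B ⊥ c) χ * cv (fc B ⊥ d) χ) k
      unfold L2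
      rw [← h1]
      refine finsum_mem_congr rfl fun χ hχ => ?_
      rw [hcv c χ hχ.1, hcv d χ hχ.1]
  -- rationality
  have hrat : ∀ c d : V₀, ∃ q : ℚ, L2 B c d = q := by
    intro c d
    have hζ : IsPrimitiveRoot (Complex.exp (2 * Real.pi * Complex.I / (ℓ : ℕ))) ℓ :=
      Complex.isPrimitiveRoot_exp _ hl.ne'
    set ζ : ℂ := Complex.exp (2 * Real.pi * Complex.I / (ℓ : ℕ)) with hζdef
    have hj : ∀ j ∈ Finset.Ico 1 ℓ, ¬ ℓ ∣ j := by
      intro j hj h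
      rw [Finset.mem_Ico] at hj
      exact absurd (Nat.le_of_dvd (by omega) h) (by omega)
    have h1 : ∑ j ∈ Finset.Ico 1 ℓ, L2 B (c ^ j) (d ^ j) ∈ QQ := by
      have h2 : ∀ j ∈ Finset.Ico 1 ℓ, L2 B (c ^ j) (d ^ j) =
          ∑ χ ∈ hS.toFinset, cv (fc B ⊥ (c ^ j)) χ * cv (fc B ⊥ (d ^ j)) χ := by
        intro j _
        unfold L2
        rw [finsum_mem_eq_finite_toFinset_sum _ hS]
      rw [Finset.sum_congr rfl h2, Finset.sum_comm]
      refine Subring.sum_mem _ fun χ hχ => ?_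
      have hχ' : χ ∈ IrrE M B.e := hS.mem_toFinset.1 hχ
      obtain ⟨m, hm⟩ := gv_exp M G (B.i c) ℓ hl (hi c) (B.b (Subgroup.zpowers c)) ζ hζ χ hχ'.1
      obtain ⟨m', hm'⟩ := gv_exp M G (B.i d) ℓ hl (hi d) (B.b (Subgroup.zpowers d)) ζ hζ χ hχ'.1
      obtain ⟨e, _, he⟩ := irr_one hχ'.1
      choose z hz using fun i => geom_int1 ℓ i hl ζ hζ.pow_eq_one
      have h3 : ∑ j ∈ Finset.Ico 1 ℓ, cv (fc B ⊥ (c ^ j)) χ * cv (fc B ⊥ (d ^ j)) χ =
          ((Nat.card G : ℂ) / (Nat.card (B.C (Subgroup.zpowers c)) * e)) *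
          ((Nat.card G : ℂ) / (Nat.card (B.C (Subgroup.zpowers d)) * e)) *
          ∑ a ∈ Finset.range ℓ, ∑ a' ∈ Finset.range ℓ,
            (m a : ℂ) * (m' a' : ℂ) * ((z (a + a') : ℤ) : ℂ) := by
        have h4 : ∀ j ∈ Finset.Ico 1 ℓ, cv (fc B ⊥ (c ^ j)) χ * cv (fc B ⊥ (d ^ j)) χ =
            ((Nat.card G : ℂ) / (Nat.card (B.C (Subgroup.zpowers c)) * e)) *
            ((Nat.card G : ℂ) / (Nat.card (B.C (Subgroup.zpowers d)) * e)) *
            ∑ a ∈ Finset.range ℓ, ∑ a' ∈ Finset.range ℓ,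
              (m a : ℂ) * (m' a' : ℂ) * ζ ^ ((a + a') * j) := by
          intro j hjm
          rw [hval c j (hj j hjm) χ hχ'.1, hval d j (hj j hjm) χ hχ'.1, hm j, hm' j, he]
          have h5 : (∑ a ∈ Finset.range ℓ, (m a : ℂ) * ζ ^ (a * j)) *
              (∑ a' ∈ Finset.range ℓ, (m' a' : ℂ) * ζ ^ (a' * j)) =
              ∑ a ∈ Finset.range ℓ, ∑ a' ∈ Finset.range ℓ,
                (m a : ℂ) * (m' a' : ℂ) * ζ ^ ((a + a') * j) := by
            rw [Finset.sum_mul_sum]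
            refine Finset.sum_congr rfl fun a _ => Finset.sum_congr rfl fun a' _ => ?_
            rw [add_mul, pow_add]
            ring
          rw [← h5]
          ring
        rw [Finset.sum_congr rfl h4, ← Finset.mul_sum]
        congr 1
        rw [Finset.sum_comm]
        refine Finset.sum_congr rfl fun a _ => ?_
        rw [Finset.sum_comm]
        refine Finset.sum_congr rfl fun a' _ => ?_
        rw [← Finset.mul_sum, hz]
      rw [h3, mem_QQ]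
      refine ⟨((Nat.card G : ℚ) / (Nat.card (B.C (Subgroup.zpowers c)) * e)) *
          ((Nat.card G : ℚ) / (Nat.card (B.C (Subgroup.zpowers d)) * e)) *
          ∑ a ∈ Finset.range ℓ, ∑ a' ∈ Finset.range ℓ,
            (m a : ℚ) * (m' a' : ℚ) * ((z (a + a') : ℤ) : ℚ), ?_⟩
      push_cast
      rfl
    rw [Finset.sum_congr rfl (fun j hjm => hinv c d j (hj j hjm)), Finset.sum_const,
      Nat.card_Ico, nsmul_eq_mul] at h1
    obtain ⟨q, hq⟩ := mem_QQ.1 h1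
    have h2 : ((ℓ - 1 : ℕ) : ℂ) ≠ 0 := by
      have := hℓ.out.two_le
      exact Nat.cast_ne_zero.2 (by omega)
    refine ⟨q / ((ℓ - 1 : ℕ) : ℚ), ?_⟩
    rw [Rat.cast_div, Rat.cast_natCast, eq_div_iff h2, mul_comm]
    exact hq
  have hRM : ∀ c d : V₀, L2 B c d ∈ RM M := by
    intro c d
    unfold L2
    rw [finsum_mem_eq_finite_toFinset_sum _ hS]
    refine Subring.sum_mem _ fun χ hχ => ?_
    have hχ' : χ ∈ IrrE M B.e := hS.mem_toFinset.1 hχ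
    exact (RM M).mul_mem (homr ℓ M hM V₀ E₀ G B hB c χ hχ').1
      (homr ℓ M hM V₀ E₀ G B hB d χ hχ').1
  have hRl : ∀ c d : V₀, ∃ q ∈ SOR.Rl ℓ, L2 B c d = (q : ℂ) := by
    intro c d
    obtain ⟨q, hq⟩ := hrat c d
    exact ⟨q, rat_Rl M hM q (by rw [← hq]; exact hRM c d), hq⟩
  refine ⟨?_, hRl, ?_, hinv, ?_, ?_, ?_, hL, ?_⟩
  · intro c
    rw [← hL c]
    exact hRl c 1
  · intro c j hj
    rw [← hL (c ^ j), ← hL c]
    have h1 := hinv c 1 j hj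
    rwa [one_pow] at h1
  · intro c σ hσ
    unfold L1
    rw [hsig c σ hσ]
  · intro c d σ hσ τ hτ
    unfold L2
    rw [hsig c σ hσ, hsig d τ hτ]
  · intro c d
    unfold L2
    refine finsum_mem_congr rfl fun χ _ => ?_
    rw [mul_comm]
  · unfold L1
    rw [finsum_mem_congr rfl hone, finsum_mem_eq_finite_toFinset_sum _ hS, Finset.sum_const,
      nsmul_eq_mul, mul_one, Set.ncard_eq_toFinset_card _ hS]

end Pool.Agent.PP.SO.H15
end
end -- Pool.Agent.Helper15_ASO.HL12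

section -- Pool.Agent.Helper30_ASE.HZA

/-!
# Squad ASE, row HZA: a block has a character of height zero
-/

open scoped BigOperators

set_option autoImplicit false

noncomputable section

namespace Pool.Agent.PP.SE.H30

open Pool.Agent.Helper51_AWC Pool.Agent.Helper79_WRA Pool.Agent.PP Pool.Agent.PP.KF
open Pool.Agent.PP.K9 Pool.Agent.PP.K9.H97 Pool.Agent.PP.H75 Pool.Agent.PP.T3 Pool.Agent.PP.SO
open Pool.Agent.PP.SD

attribute [local instance] Ideal.Quotient.field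

/-- the dual character -/
theorem hza_inv {H : Type} [Group H] [Finite H] {χ : H → ℂ} (hχ : χ ∈ Irr H) :
    (fun h => χ h⁻¹) ∈ Irr H := by
  classical
  have := Fintype.ofFinite H
  obtain ⟨n, r, r1, r2, r3⟩ := irr_coeff hχ
  refine mem_Irr_of_coeff (fun g a b => r g⁻¹ b a) ?_ ?_ _ (fun g => r3 g⁻¹) ?_
  · intro a b
    rw [inv_one, r1]
    by_cases h : a = b
    · rw [if_pos h, if_pos h.symm]
    · rw [if_neg h, if_neg (Ne.symm h)]
  · intro g h a b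
    rw [mul_inv_rev, r2]
    exact Finset.sum_congr rfl fun c _ => mul_comm _ _
  · simp only [inv_inv]
    rw [← irr_orth_self hχ]
    exact Finset.sum_congr rfl fun g _ => mul_comm _ _

/-- a rational number in the local ring with residue zero is divisible by `ℓ` -/
theorem rat_div {ℓ : ℕ} [Fact ℓ.Prime] {M : Ideal (integralClosure ℤ ℂ)} [M.IsMaximal]
    (hM : (ℓ : integralClosure ℤ ℂ) ∈ M) {q : ℚ} (h : (q : ℂ) ∈ RM M)
    (h0 : rr M (q : ℂ) = 0) : (q : ℂ) / ℓ ∈ RM M := by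
  have hℓ : ℓ.Prime := Fact.out
  have h1 : ((q.num : ℤ) : ℂ) = (q : ℂ) * ((q.den : ℕ) : ℂ) := by
    have h2 : (q.num : ℚ) = q * q.den := (Rat.mul_den_eq_num q).symm
    exact_mod_cast congrArg (fun x : ℚ => (x : ℂ)) h2
  have h5 : rr M ((q.num : ℤ) : ℂ) = 0 := by
    rw [h1, rr_mul h (rr_nat _).1, h0, zero_mul]
  have h6 : (ℓ : ℤ) ∣ q.num := (dvd_of_rr (M := M) hℓ hM).1 h5
  have hd : ¬ ℓ ∣ q.den := by
    intro hd
    have h7 : ℓ ∣ q.num.natAbs := Int.natCast_dvd.1 h6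
    have h9 := Nat.dvd_gcd h7 hd
    rw [q.reduced] at h9
    exact hℓ.one_lt.ne' (Nat.dvd_one.1 h9)
  obtain ⟨k, hk⟩ := h6
  have hℓ0 : (ℓ : ℂ) ≠ 0 := by exact_mod_cast hℓ.ne_zero
  have hd0 : (q.den : ℂ) ≠ 0 := by exact_mod_cast q.den_nz
  have h8 : (q : ℂ) / ℓ = (k : ℂ) * ((q.den : ℂ))⁻¹ := by
    have h10 : (q : ℂ) * q.den = ℓ * k := by
      rw [← h1, hk]
      push_cast
      ring
    rw [div_eq_iff hℓ0, mul_assoc, mul_comm ((q.den : ℂ))⁻¹, ← mul_assoc, eq_mul_inv_iff_mul_eq₀ hd0,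
      h10, mul_comm]
  rw [h8]
  exact (RM M).mul_mem (rr_int k).1 (inv_nat_RM hℓ hM hd)

/-- HZA -/
theorem hza (deg : T5.DegStmt) (prj : SO.PrjStmt) (fmg : K9.FmgStmt) (idm : KF.IdmStmt)
    (wbo : K9.WboStmt) : HzaStmt := by
  intro ℓ _ M _ hM G _ _ e he V hV
  classical
  have := Fintype.ofFinite G
  have hℓ : ℓ.Prime := Fact.out
  have hℓ0 : (ℓ : ℂ) ≠ 0 := by exact_mod_cast hℓ.ne_zero
  have hV0 : (Nat.card V : ℂ) ≠ 0 := by exact_mod_cast Nat.card_pos.ne'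
  by_contra hcon
  push Not at hcon
  have ha : ∀ χ ∈ IrrE M e, (Nat.card V * χ 1 / Nat.card G : ℂ) / ℓ ∈ RM M := by
    intro χ hχ
    obtain ⟨d, hd0, hd⟩ := irr_one hχ.1
    have h1 := deg ℓ M hM G e he V hV χ hχ
    have hq : (Nat.card V * χ 1 / Nat.card G : ℂ) =
        (((Nat.card V : ℚ) * d / Nat.card G : ℚ) : ℂ) := by
      rw [hd]
      push_cast
      rfl
    have h2 : rr M (Nat.card V * χ 1 / Nat.card G : ℂ) = 0 := by
      by_contra h3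
      have h4 := (inv_RM h1 h3).1
      apply hcon χ hχ
      rw [inv_div] at h4
      exact h4
    rw [hq] at h1 h2 ⊢
    exact rat_div hM h1 h2
  -- the function
  obtain ⟨f, hf⟩ : ∃ f : G → ℂ, f = fun h => (Nat.card V : ℂ) / ℓ * eh M e h := ⟨_, rfl⟩
  have hfP : ∀ s, f s / Nat.card (Cu s) ∈ RM M := by
    apply prj ℓ M hM G f
    · intro x y
      rw [hf]
      change _ * eh M e (y * x * y⁻¹) = _ * eh M e x
      rw [K9.H25.eh_cl]
    · intro x hx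
      rw [hf]
      change _ * eh M e x = 0
      rw [K9.H25.eh_sing wbo ℓ M hM e he.1 x hx, mul_zero]
    · intro χ hχ
      have h1 := K9.H25.eh_chv M e (hza_inv hχ)
      have h2 : (Nat.card G : ℂ)⁻¹ * ∑ᶠ h, f h * χ h⁻¹ =
          (Nat.card V : ℂ) / ℓ * (Nat.card G : ℂ)⁻¹ * ∑ g, eh M e g * χ g⁻¹ := by
        rw [finsum_eq_sum_of_fintype, hf, Finset.mul_sum, Finset.mul_sum]
        exact Finset.sum_congr rfl fun g _ => by ring
      rw [h2, h1]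
      split_ifs with h3
      · have h4 := ha _ h3
        have h5 : (Nat.card V : ℂ) / ℓ * (Nat.card G : ℂ)⁻¹ * χ 1⁻¹ =
            (Nat.card V * χ 1⁻¹ / Nat.card G : ℂ) / ℓ := by ring
        rw [h5]
        exact h4
      · rw [mul_zero]
        exact (RM M).zero_mem
  obtain ⟨-, -, y, hy, hey, hrel, -⟩ := fmg ℓ M hM G e he V hV
  obtain ⟨m, hm⟩ : ∃ m, m = V.relIndex (Cu y) := ⟨_, rfl⟩
  have hVC : V ≤ Cu y := by
    intro v hv
    exact Subgroup.mem_centralizer_singleton_iff.2 (Subgroup.mem_centralizer_iff.1 hy v hv)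
  have hcard : Nat.card (Cu y) = Nat.card V * m := by
    have h1 := Subgroup.card_mul_index (V.subgroupOf (Cu y))
    rw [Nat.card_congr (Subgroup.subgroupOfEquivOfLe hVC).toEquiv] at h1
    rw [hm]
    exact h1.symm
  have hm0 : (m : ℂ) ≠ 0 := by
    have h1 : m ≠ 0 := by
      intro h0
      rw [h0, mul_zero] at hcard
      exact Nat.card_pos.ne' hcard
    exact_mod_cast h1
  obtain ⟨h4, h5⟩ := (idm M G e he.1).1 y
  have h5' : rr M (eh M e y) ≠ 0 := by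
    rw [h5]
    exact hey
  obtain ⟨h6, h7⟩ := inv_RM h4 h5'
  have h2 : eh M e y / ℓ ∈ RM M := by
    have h3 : eh M e y / ℓ = m * (f y / Nat.card (Cu y)) := by
      rw [hf, hcard]
      push_cast
      field_simp
    rw [h3]
    exact (RM M).mul_mem (rr_nat m).1 (hfP y)
  have h8 : (ℓ : ℂ)⁻¹ ∈ RM M := by
    have h9 : (ℓ : ℂ)⁻¹ = (eh M e y)⁻¹ * (eh M e y / ℓ) := by
      rw [mul_div_assoc', inv_mul_cancel₀ h7, one_div]
    rw [h9]
    exact (RM M).mul_mem h6 h2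
  have h10 := rr_mul (M := M) (rr_nat ℓ).1 h8
  have h11 : rr M (ℓ : ℂ) = 0 := by
    have h12 := (dvd_of_rr (M := M) hℓ hM (n := (ℓ : ℤ))).2 dvd_rfl
    exact_mod_cast h12
  rw [mul_inv_cancel₀ hℓ0, rr_one, h11, zero_mul] at h10
  exact one_ne_zero h10

end Pool.Agent.PP.SE.H30
end
end -- Pool.Agent.Helper30_ASE.HZA

section -- Pool.Agent.Helper44_ASE.RFI

/-!
# Squad ASE, row RFI (helper44): the field `e5`
-/

open scoped BigOperators

noncomputable section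

namespace Pool.Agent.PP.SE.H44

open Pool.Agent.Helper51_AWC Pool.Agent.Helper79_WRA Pool.Agent.PP Pool.Agent.PP.KF
open Pool.Agent.PP.K9 Pool.Agent.PP.K9.H97 Pool.Agent.PP.H75 Pool.Agent.PP.T3 Pool.Agent.PP.SO
open Pool.Agent.PP.SD

attribute [local instance] Ideal.Quotient.field

/-- centralisers in a subgroup -/
theorem card_cu {G : Type} [Group G] (H : Subgroup G) (s : H) :
    Nat.card (Cu s) = Nat.card (H ⊓ Cu (s : G) : Subgroup G) := by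
  refine Nat.card_congr ⟨fun x => ⟨((x : H) : G), (x : H).2, ?_⟩, fun x => ⟨⟨x.1, x.2.1⟩, ?_⟩,
    fun x => rfl, fun x => rfl⟩
  · have h := Subgroup.mem_centralizer_singleton_iff.1 x.2
    exact Subgroup.mem_centralizer_singleton_iff.2 (congrArg Subtype.val h)
  · have h := Subgroup.mem_centralizer_singleton_iff.1 x.2.2
    exact Subgroup.mem_centralizer_singleton_iff.2 (Subtype.ext h)

/-- the sum over a subgroup -/
theorem fsum_sub {G : Type} [Group G] [Finite G] (H : Subgroup G) (f : G → ℂ)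
    (hf : ∀ g, g ∉ H → f g = 0) : ∑ᶠ h : H, f h = ∑ᶠ g, f g := by
  have h1 := finsum_mem_eq_of_bijOn (s := (Set.univ : Set H)) (t := (H : Set G))
    (f := fun h : H => f h) (g := f) (fun h : H => (h : G))
    ⟨fun h _ => h.2, Subtype.val_injective.injOn, fun g hg => ⟨⟨g, hg⟩, trivial, rfl⟩⟩
    (fun _ _ => rfl)
  rw [finsum_mem_univ] at h1
  rw [h1, ← finsum_mem_univ (f := f)]
  refine finsum_mem_inter_support_eq' _ _ _ fun g hg => ⟨fun _ => trivial, fun _ => ?_⟩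
  by_contra h
  exact hg (hf g h)

theorem rfi (hVA : ValStmt) (hRG : RfgStmt) (hRH : RfhStmt) (hPR : SO.PrjStmt) : RfiStmt := by
  classical
  intro ℓ hℓ M _ hℓM hℓ2 V₀ G _ _ _ _ E₀ hF B hSd W hW N e O hCy D hDw s hs
  have hl0 : (ℓ : ℂ) ≠ 0 := Nat.cast_ne_zero.2 hℓ.out.ne_zero
  obtain ⟨-, -, hCz, -, -⟩ := hVA ℓ M hℓM hℓ2 V₀ G E₀ hF B hSd W hW N e O hCy D hDw
  have hreg := hRG ℓ M hℓM hℓ2 V₀ G E₀ hF B hSd W hW N e O hCy D hDw
  obtain ⟨-, he4, -, hh1⟩ := hRH ℓ M hℓM hℓ2 V₀ G E₀ hF B hSd W hW N e O hCy D hDw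
  have hc0 : (Nat.card (B.C W) : ℂ) ≠ 0 := Nat.cast_ne_zero.2 Nat.card_pos.ne'
  have key := hPR ℓ M hℓM (B.C W) (fun h => (ℓ : ℂ) * D.et W h) (by
      intro x y
      change (ℓ : ℂ) * D.et W ((y : G) * x * (y : G)⁻¹) = _
      rw [hCz.cls y y.2]) (by
      intro x hx
      have hx' : ¬ Reg ℓ (x : G) := by
        intro h
        apply hx
        unfold Reg at h ⊢
        rwa [Subgroup.orderOf_coe] at h
      change (ℓ : ℂ) * D.et W x = 0
      rw [hreg _ hx', mul_zero]) (by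
      intro χ hχ
      obtain ⟨ψ, hψ⟩ : ∃ ψ : G → ℂ, ψ = fun g => if h : g ∈ B.C W then χ (⟨g, h⟩ : B.C W)⁻¹ else 0 :=
        ⟨_, rfl⟩
      have hψ0 : ∀ g, g ∉ B.C W → ψ g = 0 := by
        intro g hg
        rw [hψ]
        exact dif_neg hg
      have hψ1 : ∀ t : B.C W, ψ t = χ t⁻¹ := by
        intro t
        rw [hψ]
        exact dif_pos t.2
      have hψI : (fun t : B.C W => ψ t) ∈ Irr (B.C W) := by
        rw [funext hψ1]
        exact H30.hza_inv hχ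
      have hone : ψ 1 ≠ 0 := by
        have := Fintype.ofFinite (B.C W)
        have h1 := irr_one_ne (G := B.C W) hψI
        exact h1
      have e1 : ∑ᶠ h : B.C W, (ℓ : ℂ) * D.et W h * χ h⁻¹ = ℓ * (cv (D.et W) ψ * ψ 1) := by
        have e2 : ∑ᶠ h : B.C W, (ℓ : ℂ) * D.et W h * χ h⁻¹ =
            ∑ᶠ h : B.C W, (fun g => (ℓ : ℂ) * (D.et W g * ψ g)) (h : G) := by
          refine finsum_congr fun h => ?_
          change _ = (ℓ : ℂ) * (D.et W h * ψ h)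
          rw [hψ1, mul_assoc]
        rw [e2, fsum_sub (B.C W) (fun g => (ℓ : ℂ) * (D.et W g * ψ g)) (by
          intro g hg
          change (ℓ : ℂ) * (D.et W g * ψ g) = 0
          rw [hψ0 g hg, mul_zero, mul_zero]), ← mul_finsum]
        unfold cv
        rw [div_mul_cancel₀ _ hone]
      rw [e1]
      by_cases hψC : ψ ∈ Ch B W
      · have e3 : (Nat.card (B.C W) : ℂ)⁻¹ * (ℓ * (cv (D.et W) ψ * ψ 1)) =
            cv (D.et W) ψ / ℓ * ((ℓ : ℂ) ^ 2 * ψ 1 / Nat.card (B.C W)) := by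
          field_simp
        rw [e3]
        exact (RM M).mul_mem (he4 ψ hψC) (hh1 ψ hψC).1
      · rw [hCz.blk ψ hψ0 hψI hψC, zero_mul, mul_zero, mul_zero]
        exact (RM M).zero_mem) ⟨s, hs⟩
  rw [card_cu] at key
  exact key

end Pool.Agent.PP.SE.H44
end
end -- Pool.Agent.Helper44_ASE.RFI

section -- Pool.Agent.Helper31_ASE.ETQ

/-!
# Squad ASE, row ETQ: the sums over the block are rational
-/

open scoped BigOperators

set_option autoImplicit false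

noncomputable section

namespace Pool.Agent.PP.SE.H31Q

open Pool.Agent.Helper51_AWC Pool.Agent.Helper79_WRA Pool.Agent.PP Pool.Agent.PP.KF
open Pool.Agent.PP.K9 Pool.Agent.PP.K9.H97 Pool.Agent.PP.H75 Pool.Agent.PP.T3 Pool.Agent.PP.SO
open Pool.Agent.PP.SD

attribute [local instance] Ideal.Quotient.field

/-- `f j` is a polynomial over the rational numbers in `ζ ^ j`, for `ℓ ∤ j` -/
def Cy (ℓ : ℕ) (ζ : ℂ) (f : ℕ → ℂ) : Prop :=
  ∃ p : Polynomial ℚ, ∀ j : ℕ, ¬ ℓ ∣ j → f j = Polynomial.aeval (ζ ^ j) p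

section cy

variable {ℓ : ℕ} {ζ : ℂ}

theorem Cy.congr {f g : ℕ → ℂ} (h : Cy ℓ ζ f) (hfg : ∀ j, ¬ ℓ ∣ j → g j = f j) : Cy ℓ ζ g := by
  obtain ⟨p, hp⟩ := h
  exact ⟨p, fun j hj => (hfg j hj).trans (hp j hj)⟩

theorem Cy.mul {f g : ℕ → ℂ} (hf : Cy ℓ ζ f) (hg : Cy ℓ ζ g) : Cy ℓ ζ fun j => f j * g j := by
  obtain ⟨p, hp⟩ := hf
  obtain ⟨q, hq⟩ := hg
  exact ⟨p * q, fun j hj => by
    show f j * g j = _
    rw [hp j hj, hq j hj, map_mul]⟩

theorem Cy.sum {ι : Type*} (s : Finset ι) (f : ι → ℕ → ℂ) (h : ∀ i ∈ s, Cy ℓ ζ (f i)) :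
    Cy ℓ ζ fun j => ∑ i ∈ s, f i j := by
  classical
  choose! p hp using h
  exact ⟨∑ i ∈ s, p i, fun j hj => by
    rw [map_sum]
    exact Finset.sum_congr rfl fun i hi => hp i hi j hj⟩

theorem cy_const (q : ℚ) : Cy ℓ ζ fun _ => (q : ℂ) :=
  ⟨Polynomial.C q, fun j _ => by rw [Polynomial.aeval_C]; rfl⟩

theorem cy_pow (i : ℕ) : Cy ℓ ζ fun j => ζ ^ (i * j) :=
  ⟨Polynomial.X ^ i, fun j _ => by
    rw [map_pow, Polynomial.aeval_X, ← pow_mul, mul_comm]⟩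

/-- the sum over the powers is rational -/
theorem cy_sum (hℓ : 0 < ℓ) (hζ : ζ ^ ℓ = 1) {f : ℕ → ℂ} (h : Cy ℓ ζ f) :
    ∃ q : ℚ, ∑ j ∈ Finset.Ico 1 ℓ, f j = (q : ℂ) := by
  obtain ⟨p, hp⟩ := h
  choose z hz using fun i => SO.H15.geom_int1 ℓ i hℓ ζ hζ
  refine ⟨∑ i ∈ Finset.range (p.natDegree + 1), p.coeff i * (z i : ℚ), ?_⟩
  have hj : ∀ j ∈ Finset.Ico 1 ℓ, f j =
      ∑ i ∈ Finset.range (p.natDegree + 1), (p.coeff i : ℂ) * ζ ^ (i * j) := by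
    intro j hj
    rw [Finset.mem_Ico] at hj
    rw [hp j fun h => absurd (Nat.le_of_dvd (by omega) h) (by omega),
      Polynomial.aeval_eq_sum_range]
    refine Finset.sum_congr rfl fun i _ => ?_
    rw [← pow_mul, mul_comm j i, Algebra.smul_def]
    rfl
  rw [Finset.sum_congr rfl hj, Finset.sum_comm]
  push_cast
  refine Finset.sum_congr rfl fun i _ => ?_
  rw [← Finset.mul_sum, hz]

/-- a constant value is rational -/
theorem cy_rat [Fact ℓ.Prime] (hζ : ζ ^ ℓ = 1) {f : ℕ → ℂ} (h : Cy ℓ ζ f) (x : ℂ)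
    (hx : ∀ j, ¬ ℓ ∣ j → f j = x) : ∃ q : ℚ, x = (q : ℂ) := by
  have hp := (Fact.out : ℓ.Prime)
  obtain ⟨q, hq⟩ := cy_sum hp.pos hζ h
  have h1 : ∑ j ∈ Finset.Ico 1 ℓ, f j = ((ℓ - 1 : ℕ) : ℂ) * x := by
    rw [Finset.sum_congr rfl (fun j hj => hx j (by
      rw [Finset.mem_Ico] at hj
      exact fun h => absurd (Nat.le_of_dvd (by omega) h) (by omega))), Finset.sum_const,
      Nat.card_Ico, nsmul_eq_mul]
  have h2 : ((ℓ - 1 : ℕ) : ℂ) ≠ 0 := by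
    have := hp.two_le
    exact Nat.cast_ne_zero.2 (by omega)
  refine ⟨q / ((ℓ - 1 : ℕ) : ℚ), ?_⟩
  rw [Rat.cast_div, Rat.cast_natCast, eq_div_iff h2, mul_comm, ← h1]
  exact hq

end cy

section blk

variable {V₀ G : Type} [CommGroup V₀] [Group G] [Finite G] {M : Ideal (integralClosure ℤ ℂ)}
  [M.IsMaximal]

theorem ch_finite (B : Bk (FF M) V₀ G) (W : Subgroup V₀) : (Ch B W).Finite := by
  classical
  have := Fintype.ofFinite (B.C W)
  have h1 : (IrrE M (fun t : B.C W => B.b W t)).Finite := irr_finite'.subset fun χ h => h.1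
  refine Set.Finite.of_injOn (f := fun (χ : G → ℂ) (t : B.C W) => χ t) (t := IrrE M
    (fun t : B.C W => B.b W t)) (fun χ hχ => hχ.2) ?_ h1
  intro χ hχ ψ hψ h
  funext g
  by_cases hg : g ∈ B.C W
  · exact congrFun h ⟨g, hg⟩
  · rw [hχ.1 g hg, hψ.1 g hg]

/-- the central character is a power -/
theorem nu_pow {ℓ : ℕ} (hl : 0 < ℓ) (hv : ∀ v : V₀, v ^ ℓ = 1) {ζ : ℂ} (hζ : IsPrimitiveRoot ζ ℓ)
    (B : Bk (FF M) V₀ G) (a : Subgroup V₀) (κ : V₀) (hκ : κ ∈ a) (ψ : G → ℂ) (hψ : ψ ∈ Ch B a) :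
    ∃ i : ℕ, ∀ j : ℕ, nu B ψ (κ ^ j) = ζ ^ (i * j) := by
  have hmem : B.i κ ∈ B.C a := by
    unfold Bk.C
    rw [Subgroup.mem_centralizer_iff]
    rintro _ ⟨v, -, rfl⟩
    rw [← map_mul, ← map_mul, mul_comm]
  have hθ : (fun t : B.C a => ψ t) ∈ Irr (B.C a) := hψ.2.1
  have hz : ∀ c : B.C a, (⟨B.i κ, hmem⟩ : B.C a) * c = c * ⟨B.i κ, hmem⟩ := by
    intro c
    apply Subtype.ext
    have h1 := c.2
    unfold Bk.C at h1
    rw [Subgroup.mem_centralizer_iff] at h1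
    exact h1 _ ⟨κ, hκ, rfl⟩
  have hzq : (⟨B.i κ, hmem⟩ : B.C a) ^ ℓ = 1 := by
    apply Subtype.ext
    rw [Subgroup.coe_pow, Subgroup.coe_one, ← map_pow, hv, map_one]
  obtain ⟨k, hk, hkj⟩ := SO.H15.cent_root hθ hz hzq
  have : NeZero ℓ := ⟨hl.ne'⟩
  obtain ⟨i, -, rfl⟩ := hζ.eq_pow_of_pow_eq_one hk
  refine ⟨i, fun j => ?_⟩
  have h1 := hkj j 1
  have h2 : ψ (B.i (κ ^ j)) = (ζ ^ i) ^ j * ψ 1 := by
    have h3 : (((⟨B.i κ, hmem⟩ : B.C a) ^ j * 1 : B.C a) : G) = B.i (κ ^ j) := by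
      rw [mul_one, Subgroup.coe_pow, map_pow]
    rw [← h3]
    exact h1
  have h5 := irr_one_ne hθ
  have h4 : ψ 1 ≠ 0 := h5
  unfold nu
  rw [h2, mul_div_assoc, div_self h4, mul_one, pow_mul]

end blk

/-- ETQ -/
theorem etq (etm : EtmStmt) (etg : EtgStmt) (hlnk : HLnkStmt) : EtqStmt := by
  intro ℓ hℓ M _ hM hl2 V₀ G _ _ _ _ E₀ hF B hB D hD a ha κ hκ
  classical
  have hp := hℓ.out
  have hl : 0 < ℓ := hp.pos
  have hζ : IsPrimitiveRoot (Complex.exp (2 * Real.pi * Complex.I / (ℓ : ℕ))) ℓ :=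
    Complex.isPrimitiveRoot_exp _ hl.ne'
  obtain ⟨ζ, hζ0⟩ : ∃ ζ : ℂ, ζ = Complex.exp (2 * Real.pi * Complex.I / (ℓ : ℕ)) := ⟨_, rfl⟩
  rw [← hζ0] at hζ
  have hS : (IrrE M B.e).Finite := by
    have := Fintype.ofFinite G
    exact irr_finite'.subset (fun θ h => h.1)
  have hi : ∀ c : V₀, (B.i c) ^ ℓ = 1 := by
    intro c
    rw [← map_pow, hF.ex, map_one]
  -- the values of `fc`
  have hval : ∀ (c : V₀) (j : ℕ), ¬ ℓ ∣ j → ∀ χ ∈ Irr G,
      cv (fc B ⊥ (c ^ j)) χ = Nat.card G *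
        gv M (Cu (B.i c)) (B.i c ^ j) (B.b (Subgroup.zpowers c)) χ /
          (Nat.card (B.C (Subgroup.zpowers c)) * χ 1) := by
    intro c j hj χ hχ
    have h1 := (hlnk ℓ M hM V₀ E₀ G B hB (c ^ j)).2.2 χ hχ
    have h2 := (hlnk ℓ M hM V₀ E₀ G B hB (c ^ j)).1
    have h3 := (hlnk ℓ M hM V₀ E₀ G B hB c).1
    rw [SO.H15.zp_eq hF.ex c hj] at h1 h2
    rw [h1, h2, h3, map_pow]
  have hfc : ∀ (d : V₀), ∀ χ ∈ IrrE M B.e, Cy ℓ ζ fun j => cv (fc B ⊥ (d ^ j)) χ := by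
    intro d χ hχ
    obtain ⟨m, hm⟩ := SO.H15.gv_exp M G (B.i d) ℓ hl (hi d) (B.b (Subgroup.zpowers d)) ζ hζ χ hχ.1
    obtain ⟨e, _, he⟩ := irr_one hχ.1
    have h1 : Cy ℓ ζ fun j => (((Nat.card G : ℚ) / (Nat.card (B.C (Subgroup.zpowers d)) * e) : ℚ) :
        ℂ) * ∑ i ∈ Finset.range ℓ, ((m i : ℚ) : ℂ) * ζ ^ (i * j) :=
      (cy_const _).mul (Cy.sum _ _ fun i _ => (cy_const _).mul (cy_pow i))
    refine h1.congr fun j hj => ?_
    rw [hval d j hj χ hχ.1, hm j, he]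
    push_cast
    ring
  -- the values of `etl`
  obtain ⟨et1, et2⟩ := etm ℓ M hM V₀ G B D a ha (hD.e1 a ha)
  have hetl : ∀ χ ∈ IrrE M B.e, Cy ℓ ζ fun j => cv (etl B D a (κ ^ j) ⊥) χ := by
    intro χ hχ
    obtain ⟨m, hm⟩ := et2 χ hχ.1
    obtain ⟨e, _, he⟩ := irr_one hχ.1
    have hfin := ch_finite B a
    have h2 : ∀ ψ ∈ hfin.toFinset, Cy ℓ ζ fun j =>
        (m ψ : ℂ) * (ψ 1 * (nu B ψ (κ ^ j) * cv (D.et a) ψ)) := by
      intro ψ hψ
      have hψ' : ψ ∈ Ch B a := hfin.mem_toFinset.1 hψ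
      obtain ⟨n, _, hn⟩ := irr_one (hψ'.2.1 : (fun t : B.C a => ψ t) ∈ Irr (B.C a))
      obtain ⟨q, hq⟩ := hD.e9 a ha ψ hψ'
      obtain ⟨i, hi'⟩ := nu_pow hl hF.ex hζ B a κ hκ ψ hψ'
      have h3 : Cy ℓ ζ fun j => (((m ψ : ℚ) * (n : ℚ) * q : ℚ) : ℂ) * ζ ^ (i * j) :=
        (cy_const _).mul (cy_pow i)
      refine h3.congr fun j _ => ?_
      have h4 : ψ 1 = n := hn
      rw [h4, hi' j, hq]
      push_cast
      ring
    have h1 : Cy ℓ ζ fun j => (((Nat.card G : ℚ) / (Nat.card (B.C a) * e) : ℚ) : ℂ) *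
        ∑ ψ ∈ hfin.toFinset, (m ψ : ℂ) * (ψ 1 * (nu B ψ (κ ^ j) * cv (D.et a) ψ)) :=
      (cy_const _).mul (Cy.sum _ _ h2)
    refine h1.congr fun j _ => ?_
    rw [hm (κ ^ j) (Subgroup.pow_mem _ hκ j), he, finsum_mem_eq_finite_toFinset_sum _ hfin]
    push_cast
    rfl
  have hg := fun j hj => etg ℓ M hM hl2 V₀ G E₀ hF B hB D hD a ha κ hκ j hj
  constructor
  · refine cy_rat (f := fun j => LL B (etl B D a (κ ^ j) ⊥)) hζ.pow_eq_one ?_ _
      fun j hj => (hg j hj).1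
    refine (Cy.sum hS.toFinset (fun χ j => cv (etl B D a (κ ^ j) ⊥) χ) fun χ hχ =>
      hetl χ (hS.mem_toFinset.1 hχ)).congr fun j _ => ?_
    unfold LL
    rw [finsum_mem_eq_finite_toFinset_sum _ hS]
  · intro d
    refine cy_rat (f := fun j => NN B (etl B D a (κ ^ j) ⊥) (fc B ⊥ (d ^ j))) hζ.pow_eq_one ?_ _
      fun j hj => (hg j hj).2 d
    refine (Cy.sum hS.toFinset (fun χ j => cv (etl B D a (κ ^ j) ⊥) χ *
      cv (fc B ⊥ (d ^ j)) χ) fun χ hχ => (hetl χ (hS.mem_toFinset.1 hχ)).mul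
        (hfc d χ (hS.mem_toFinset.1 hχ))).congr fun j _ => ?_
    unfold NN
    rw [finsum_mem_eq_finite_toFinset_sum _ hS]

end Pool.Agent.PP.SE.H31Q
end
end -- Pool.Agent.Helper31_ASE.ETQ

section -- Pool.Agent.Helper3_ASE.ETV

/-!
# Row ETV: the values of `et` at `⊥` (from ETC)
-/

noncomputable section

namespace Pool.Agent.PP.SE.H3

open Pool.Agent.Helper51_AWC Pool.Agent.Helper79_WRA Pool.Agent.PP Pool.Agent.PP.KF
open Pool.Agent.PP.K9 Pool.Agent.PP.K9.H97 Pool.Agent.PP.H75 Pool.Agent.PP.T3 Pool.Agent.PP.SO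
open Pool.Agent.PP.SD

attribute [local instance] Ideal.Quotient.field

/-- ETV -/
theorem etv (hEtc : EtcStmt) : EtvStmt := by
  intro ℓ _ M _ hM _ V₀ G _ _ _ _ E₀ hFq B hB D hRs a ha κ hκ χ hχ
  have ha0 : a ≠ ⊥ := by
    intro h
    have h1 := ha.1
    rw [h, Subgroup.card_bot] at h1
    exact (Fact.out : ℓ.Prime).one_lt.ne h1
  exact (hEtc ℓ M hM V₀ G E₀ hFq B hB D hRs a ha0 χ hχ).1 κ hκ

end Pool.Agent.PP.SE.H3
end
end -- Pool.Agent.Helper3_ASE.ETV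

section -- Pool.Agent.Helper44_ASE.ETG

/-!
# Squad ASE, row ETG (helper44): invariance under the powers prime to `ℓ`
-/

open scoped BigOperators

noncomputable section

namespace Pool.Agent.PP.SE.H44

open Pool.Agent.Helper51_AWC Pool.Agent.Helper79_WRA Pool.Agent.PP Pool.Agent.PP.KF
open Pool.Agent.PP.K9 Pool.Agent.PP.K9.H97 Pool.Agent.PP.H75 Pool.Agent.PP.T3 Pool.Agent.PP.SO
open Pool.Agent.PP.SD

attribute [local instance] Ideal.Quotient.field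

/-- the sum of the induced label against a class function -/
theorem etl_sum {V₀ G : Type} [CommGroup V₀] [Group G] [Finite G]
    {M : Ideal (integralClosure ℤ ℂ)} [M.IsMaximal] (B : Bk (FF M) V₀ G) (D : Rd V₀ G)
    (a : Subgroup V₀) (ha : a ≠ ⊥) (κ : V₀) (χ : G → ℂ)
    (hχ : ∀ g h : G, χ (h * g * h⁻¹) = χ g) :
    ∑ᶠ g : G, etl B D a κ ⊥ g * χ g =
      (Nat.card (B.C a) : ℂ)⁻¹ * (Nat.card G * ∑ᶠ s : G, D.et a s * χ (B.i κ * s)) := by
  classical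
  letI := Fintype.ofFinite G
  have h1 : ∀ g : G, etl B D a κ ⊥ g = (Nat.card (B.C a) : ℂ)⁻¹ *
      ∑ z : G, D.et a ((B.i κ)⁻¹ * (z⁻¹ * g * z)) := by
    intro g
    unfold etl
    rw [if_neg ha.symm, if_pos rfl, finsum_eq_sum_of_fintype]
    rfl
  rw [finsum_eq_sum_of_fintype, finsum_eq_sum_of_fintype]
  rw [Finset.sum_congr rfl fun g _ => by rw [h1 g, mul_assoc], ← Finset.mul_sum]
  congr 1
  rw [Finset.sum_congr rfl fun g _ => Finset.sum_mul _ _ _, Finset.sum_comm]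
  have h2 : ∀ z : G, ∑ g : G, D.et a ((B.i κ)⁻¹ * (z⁻¹ * g * z)) * χ g =
      ∑ s : G, D.et a s * χ (B.i κ * s) := by
    intro z
    refine Fintype.sum_equiv
      (((MulAut.conj z⁻¹).toEquiv : G ≃ G).trans (Equiv.mulLeft (B.i κ)⁻¹)) _ _ fun g => ?_
    have e1 : (((MulAut.conj z⁻¹).toEquiv : G ≃ G).trans (Equiv.mulLeft (B.i κ)⁻¹)) g =
        (B.i κ)⁻¹ * (z⁻¹ * g * z) := by
      show (B.i κ)⁻¹ * (z⁻¹ * g * z⁻¹⁻¹) = _
      rw [inv_inv]
    rw [e1, mul_inv_cancel_left]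
    congr 1
    have e2 := hχ g z⁻¹
    rw [inv_inv] at e2
    exact e2.symm
  rw [Finset.sum_congr rfl fun z _ => h2 z, Finset.sum_const, Finset.card_univ, nsmul_eq_mul,
    Nat.card_eq_fintype_card]

theorem etg (wbo : WboStmt) (hlnk : HLnkStmt) (prm : T3.PrmStmt) (rtc : T3.RtcStmt) :
    EtgStmt := by
  intro ℓ hℓ M hMm hM hℓ2 V₀ G _ _ _ _ E₀ hF B hB D hD a ha κ hκ j hj
  classical
  have hv : ∀ v : V₀, v ^ ℓ = 1 := hF.ex
  have hS : (IrrE M B.e).Finite := by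
    have := Fintype.ofFinite G
    exact irr_finite'.subset (fun θ h => h.1)
  have hi : ∀ c : V₀, (B.i c) ^ ℓ = 1 := by
    intro c
    rw [← map_pow, hv, map_one]
  have hval : ∀ (c : V₀) (j : ℕ), ¬ ℓ ∣ j → ∀ χ ∈ Irr G,
      cv (fc B ⊥ (c ^ j)) χ = Nat.card G *
        gv M (Cu (B.i c)) (B.i c ^ j) (B.b (Subgroup.zpowers c)) χ /
          (Nat.card (B.C (Subgroup.zpowers c)) * χ 1) := by
    intro c j hj χ hχ
    have h1 := (hlnk ℓ M hM V₀ E₀ G B hB (c ^ j)).2.2 χ hχ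
    have h2 := (hlnk ℓ M hM V₀ E₀ G B hB (c ^ j)).1
    have h3 := (hlnk ℓ M hM V₀ E₀ G B hB c).1
    rw [SO.H15.zp_eq hv c hj] at h1 h2
    rw [h1, h2, h3, map_pow]
  obtain ⟨N, hN⟩ := prm ℓ hℓ2 G
  obtain ⟨k, hk⟩ := hN.gen j hj
  obtain ⟨hrI, hrE⟩ := rtc ℓ M hM G N hN B.e hB.ld.blk.1
  have hcv : ∀ x : V₀, ∀ χ ∈ Irr G,
      cv (fc B ⊥ (x ^ j)) χ = cv (fc B ⊥ x) (fun g => χ (g ^ N ^ k)) := by
    intro x χ hχ
    have hχ' : (fun g => χ (g ^ N ^ k)) ∈ Irr G := SO.H15.pm_mem (Irr G) hrI k χ hχ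
    have h1 := hval x 1 (fun h => hℓ.out.one_lt.ne' (Nat.dvd_one.1 h)) _ hχ'
    rw [pow_one, pow_one] at h1
    rw [hval x j hj χ hχ, h1]
    have hlc := (hlnk ℓ M hM V₀ E₀ G B hB x).2.1
    have e1 : χ (1 ^ N ^ k) = χ 1 := by rw [one_pow]
    rw [e1]
    congr 2
    unfold gv gbv
    refine finsum_congr fun t => ?_
    by_cases ht : Reg ℓ (t : Cu (B.i x))
    · congr 1
      have ht2 : Reg ℓ (t : G) := by
        unfold Reg at ht ⊢
        rwa [Subgroup.orderOf_coe]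
      have hcomm : Commute (B.i x) (t : G) :=
        (Subgroup.mem_centralizer_singleton_iff.1 t.2).symm
      have e2 : (B.i x * (t : G)) ^ N ^ k = B.i x ^ j * t := by
        rw [hcomm.mul_pow, hk (B.i x) ⟨1, by rw [pow_one]; exact hi x⟩,
          SO.H15.reg_pow_fix ℓ N hN.reg k _ ht2]
      show χ (B.i x ^ j * (t : G)) = χ ((B.i x * (t : G)) ^ N ^ k)
      rw [e2]
    · letI := Fintype.ofFinite G
      letI : Fintype (Cu (B.i x)) := Fintype.ofFinite _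
      rw [H25.eh_sing wbo ℓ M hM (fun t : Cu (B.i x) => B.b (Subgroup.zpowers x) t)
        hlc.blk.blk.1 t ht, zero_mul, zero_mul]
  have hce : Cz B a (D.et a) := hD.e1 a ha
  have het : ∀ χ ∈ Irr G, cv (etl B D a (κ ^ j) ⊥) χ =
      cv (etl B D a κ ⊥) (fun g => χ (g ^ N ^ k)) := by
    intro χ hχ
    have hχ' : (fun g => χ (g ^ N ^ k)) ∈ Irr G := SO.H15.pm_mem (Irr G) hrI k χ hχ
    unfold cv
    rw [etl_sum B D a ha (κ ^ j) χ (irr_conj hχ), etl_sum B D a ha κ _ (irr_conj hχ')]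
    have e1 : (fun g => χ (g ^ N ^ k)) 1 = χ 1 := by
      show χ (1 ^ N ^ k) = χ 1
      rw [one_pow]
    rw [e1]
    congr 3
    refine finsum_congr fun s => ?_
    by_cases hs : s ∈ B.C a ∧ Reg ℓ s
    · congr 1
      have hcomm : Commute (B.i κ) s := by
        have h1 := Subgroup.mem_centralizer_iff.1 hs.1 (B.i κ)
          (SetLike.mem_coe.2 (Subgroup.mem_map_of_mem B.i hκ))
        exact h1
      have e2 : (B.i κ * s) ^ N ^ k = B.i κ ^ j * s := by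
        rw [hcomm.mul_pow, hk (B.i κ) ⟨1, by rw [pow_one]; exact hi κ⟩,
          SO.H15.reg_pow_fix ℓ N hN.reg k _ hs.2]
      show χ (B.i (κ ^ j) * s) = χ ((B.i κ * s) ^ N ^ k)
      rw [e2, map_pow]
    · have h0 : D.et a s = 0 := by
        by_contra h
        refine hs ⟨?_, ?_⟩
        · by_contra h1
          exact h (hce.sup s h1)
        · by_contra h1
          exact h (hD.e2 a ha s h1)
      rw [h0, zero_mul, zero_mul]
  refine ⟨?_, fun d => ?_⟩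
  · have h1 := SO.H15.sum_pm hN.cop (IrrE M B.e) hS hrE (fun χ => cv (etl B D a κ ⊥) χ) k
    unfold LL
    rw [← h1]
    exact finsum_mem_congr rfl fun χ hχ => het χ hχ.1
  · have h1 := SO.H15.sum_pm hN.cop (IrrE M B.e) hS hrE
      (fun χ => cv (etl B D a κ ⊥) χ * cv (fc B ⊥ d) χ) k
    unfold NN
    rw [← h1]
    refine finsum_mem_congr rfl fun χ hχ => ?_
    rw [het χ hχ.1, hcv d χ hχ.1]

end Pool.Agent.PP.SE.H44
end
end -- Pool.Agent.Helper44_ASE.ETG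

section -- Pool.Agent.Helper45_ASE.ETM

/-!
# Squad ASE, row ETM: the central characters at the induced elements
-/

open scoped BigOperators

noncomputable section

namespace Pool.Agent.PP.SE.H45

open Pool.Agent.Helper51_AWC Pool.Agent.Helper79_WRA Pool.Agent.PP Pool.Agent.PP.KF
open Pool.Agent.PP.K9 Pool.Agent.PP.K9.H97 Pool.Agent.PP.H75 Pool.Agent.PP.T3 Pool.Agent.PP.SO
open Pool.Agent.PP.SD Pool.Agent.PP.SE Module

attribute [local instance] Ideal.Quotient.field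

/-- the restriction of an irreducible character is a combination of irreducible characters with
natural coefficients -/
theorem res_dec {G : Type} [Group G] [Finite G] (C : Subgroup G) [Fintype C] {χ : G → ℂ}
    (hχ : χ ∈ Irr G) : ∃ m : (C → ℂ) → ℕ, ∀ c : C, χ c = ∑ θ ∈ (irr_finite' (G := C)).toFinset, (m θ : ℂ) * θ c := by
  classical
  obtain ⟨n, τ, -, rfl⟩ := hχ
  obtain ⟨ρ, hρ⟩ : ∃ ρ : Representation ℂ C (Fin n → ℂ), ∀ c : C, ρ.character c = τ.character c :=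
    ⟨τ.comp C.subtype, fun c => rfl⟩
  have hc : (Nat.card C : ℂ) ≠ 0 := by
    exact_mod_cast Nat.card_pos.ne'
  have hc' : (Fintype.card C : ℂ) ≠ 0 := by exact_mod_cast Fintype.card_ne_zero
  have hinv := invertibleOfNonzero hc
  have := Fintype.ofFinite (Irr C)
  have hm : ∀ θ : Irr C, ∃ m : ℕ, ∑ g, ρ.character g * (θ : C → ℂ) g⁻¹ = m * Fintype.card C := by
    rintro ⟨θ, k, σ, hσ, rfl⟩
    refine ⟨finrank ℂ (Representation.IntertwiningMap σ ρ), ?_⟩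
    have := Representation.card_inv_mul_sum_char_mul_char_eq_finrank σ ρ
    rw [← this, mul_comm, ← mul_assoc, ← Nat.card_eq_fintype_card, mul_inv_cancel₀ hc, one_mul]
  choose m hm using hm
  have hdec : ρ.character = ∑ θ : Irr C, (m θ : ℂ) • (θ : C → ℂ) := by
    have : ρ.character - ∑ θ : Irr C, (m θ : ℂ) • (θ : C → ℂ) = 0 := by
      apply irr_complete'
      · intro g h
        simp only [Pi.sub_apply, Finset.sum_apply, Pi.smul_apply, Representation.char_conj]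
        congr 1
        apply Finset.sum_congr rfl
        intro χ _
        rw [irr_conj χ.2]
      · intro ψ hψ
        simp only [Pi.sub_apply, Finset.sum_apply, Pi.smul_apply, smul_eq_mul, sub_mul,
          Finset.sum_sub_distrib, Finset.sum_mul]
        rw [hm ⟨ψ, hψ⟩, Finset.sum_comm, Finset.sum_eq_single_of_mem ⟨ψ, hψ⟩ (Finset.mem_univ _)]
        · simp_rw [mul_assoc]
          rw [← Finset.mul_sum, irr_orth_self hψ, sub_self]
        · intro χ _ hne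
          simp_rw [mul_assoc]
          rw [← Finset.mul_sum, irr_orth_ne χ.2 hψ (fun h => hne (Subtype.ext h)), mul_zero]
    exact sub_eq_zero.1 this
  refine ⟨fun θ => if h : θ ∈ Irr C then m ⟨θ, h⟩ else 0, fun c => ?_⟩
  rw [← hρ, hdec, Finset.sum_apply]
  symm
  refine Finset.sum_bij' (fun θ hθ => (⟨θ, (Set.Finite.mem_toFinset _).1 hθ⟩ : Irr C))
    (fun θ _ => (θ : C → ℂ)) (fun _ _ => Finset.mem_univ _)
    (fun θ _ => (Set.Finite.mem_toFinset _).2 θ.2) (fun _ _ => rfl) (fun _ _ => rfl) ?_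
  intro θ hθ
  have h1 : θ ∈ Irr C := (Set.Finite.mem_toFinset _).1 hθ
  have h2 : (if h : θ ∈ Irr C then m ⟨θ, h⟩ else 0) = m ⟨θ, h1⟩ := dif_pos h1
  show (((if h : θ ∈ Irr C then m ⟨θ, h⟩ else 0 : ℕ) : ℕ) : ℂ) * θ c = _
  rw [h2]
  rfl

section main

variable {V₀ G : Type} [CommGroup V₀] [Finite V₀] [Group G] [Finite G]
  {M : Ideal (integralClosure ℤ ℂ)} [M.IsMaximal]

omit [Finite V₀] [Finite G] in
theorem comm_i (B : Bk (FF M) V₀ G) {a : Subgroup V₀} {κ : V₀} (hκ : κ ∈ a) {g : G}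
    (hg : g ∈ B.C a) : Commute (B.i κ) g := by
  have h1 := Subgroup.mem_centralizer_iff.1 hg (B.i κ) ⟨κ, hκ, rfl⟩
  exact h1

omit [Finite V₀] [Finite G] in
theorem i_mem (B : Bk (FF M) V₀ G) (a : Subgroup V₀) (κ : V₀) : B.i κ ∈ B.C a := by
  refine Subgroup.mem_centralizer_iff.2 ?_
  rintro _ ⟨v, -, rfl⟩
  rw [← map_mul, ← map_mul, mul_comm]

/-- Schur's lemma for the central element `i(κ)` -/
theorem schur (B : Bk (FF M) V₀ G) {a : Subgroup V₀} {κ : V₀} (hκ : κ ∈ a) {ψ : G → ℂ}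
    (hψ : (fun t : B.C a => ψ t) ∈ Irr (B.C a)) {g : G} (hg : g ∈ B.C a) :
    ψ (B.i κ * g) = nu B ψ κ * ψ g := by
  classical
  have := Fintype.ofFinite (B.C a)
  have h1 := H10W.irr_avg hψ (⟨B.i κ, i_mem B a κ⟩ : B.C a) ⟨g, hg⟩
  have h2 : ∀ z : B.C a, (fun t : B.C a => ψ t) (z * ⟨B.i κ, i_mem B a κ⟩ * z⁻¹ * ⟨g, hg⟩) =
      ψ (B.i κ * g) := by
    intro z
    show ψ ((z : G) * B.i κ * (z : G)⁻¹ * g) = _
    rw [← (comm_i B hκ z.2).eq, mul_inv_cancel_right]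
  rw [Finset.sum_congr rfl (fun z _ => h2 z), Finset.sum_const, Finset.card_univ,
    nsmul_eq_mul] at h1
  have h3 : (Fintype.card (B.C a) : ℂ) ≠ 0 := by exact_mod_cast Fintype.card_ne_zero
  have h4 := mul_left_cancel₀ h3 h1
  rw [h4]
  unfold nu
  show ψ (B.i κ) * ψ g / ψ ((1 : B.C a) : G) = _
  rw [Subgroup.coe_one]
  ring

/-- (1) for all functions on `C` -/
theorem tk_cv (B : Bk (FF M) V₀ G) {a : Subgroup V₀} {κ : V₀} (hκ : κ ∈ a) {f ψ : G → ℂ}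
    (hf : ∀ g, g ∉ B.C a → f g = 0)
    (hψ : (fun t : B.C a => ψ t) ∈ Irr (B.C a)) :
    cv (tk B κ f) ψ = nu B ψ κ * cv f ψ := by
  classical
  have := Fintype.ofFinite G
  unfold cv tk
  rw [finsum_eq_sum_of_fintype, finsum_eq_sum_of_fintype, ← mul_div_assoc, Finset.mul_sum,
    ← Equiv.sum_comp (Equiv.mulLeft (B.i κ))]
  congr 1
  refine Finset.sum_congr rfl fun g _ => ?_
  show f ((B.i κ)⁻¹ * (B.i κ * g)) * ψ (B.i κ * g) = _
  rw [inv_mul_cancel_left]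
  by_cases hg : g ∈ B.C a
  · rw [schur B hκ hψ hg]
    ring
  · rw [hf g hg]
    ring

end main

/-- Row ETM. -/
theorem etm : EtmStmt := by
  classical
  intro ℓ _ M _ hM V₀ G _ _ _ _ B D a ha hz
  have := Fintype.ofFinite G
  have := Fintype.ofFinite (B.C a)
  refine ⟨fun ψ hψ κ hκ => tk_cv B hκ hz.sup hψ.2.1, fun χ hχ => ?_⟩
  obtain ⟨m, hm⟩ := res_dec (B.C a) hχ
  refine ⟨fun ψ => m (fun t : B.C a => ψ t), fun κ hκ => ?_⟩
  obtain ⟨T, hT⟩ : ∃ T, T = tk B κ (D.et a) := ⟨_, rfl⟩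
  have hTs : ∀ g, g ∉ B.C a → T g = 0 := by
    intro g hg
    rw [hT]
    apply hz.sup
    intro h
    apply hg
    have h1 := (B.C a).mul_mem (i_mem B a κ) h
    rwa [mul_inv_cancel_left] at h1
  have hC : (Nat.card (B.C a) : ℂ) ≠ 0 := by exact_mod_cast Nat.card_pos.ne'
  have hχ1 : χ 1 ≠ 0 := irr_one_ne hχ
  -- the induced element
  have e1 : cv (etl B D a κ ⊥) χ = (Nat.card G : ℂ) / (Nat.card (B.C a) * χ 1) *
      ∑ g, T g * χ g := by
    have h1 : ∀ g, etl B D a κ ⊥ g = (Nat.card (B.C a) : ℂ)⁻¹ * ∑ z : G, T (z⁻¹ * g * z) := by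
      intro g
      unfold etl
      rw [if_neg (fun h => ha h.symm), if_pos rfl, finsum_eq_sum_of_fintype, hT]
    unfold cv
    rw [finsum_eq_sum_of_fintype]
    simp only [h1]
    have h2 : ∑ g : G, (Nat.card (B.C a) : ℂ)⁻¹ * (∑ z : G, T (z⁻¹ * g * z)) * χ g =
        (Nat.card (B.C a) : ℂ)⁻¹ * ((Nat.card G : ℂ) * ∑ g, T g * χ g) := by
      simp only [mul_assoc]
      rw [← Finset.mul_sum]
      congr 1
      simp only [Finset.sum_mul]
      rw [Finset.sum_comm]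
      have h3 : ∀ z : G, ∑ g : G, T (z⁻¹ * (g * z)) * χ g = ∑ g, T g * χ g := by
        intro z
        rw [← Equiv.sum_comp (MulAut.conj z).toEquiv]
        refine Finset.sum_congr rfl fun g _ => ?_
        show T (z⁻¹ * (z * g * z⁻¹ * z)) * χ (z * g * z⁻¹) = _
        rw [irr_conj hχ]
        congr 2
        group
      rw [Finset.sum_congr rfl (fun z _ => h3 z), Finset.sum_const, Finset.card_univ,
        nsmul_eq_mul, Nat.card_eq_fintype_card]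
    rw [h2]
    field_simp
  rw [e1]
  congr 1
  -- the decomposition
  have e2 : ∑ g, T g * χ g = ∑ θ ∈ (irr_finite' (G := B.C a)).toFinset,
      (m θ : ℂ) * ∑ c : B.C a, T c * θ c := by
    have h1 : ∑ g, T g * χ g = ∑ c : B.C a, T c * χ c := by
      have h2 : ∑ g, T g * χ g = ∑ g, (if g ∈ B.C a then T g * χ g else 0) := by
        refine Finset.sum_congr rfl fun g _ => ?_
        split_ifs with h
        · rfl
        · rw [hTs g h, zero_mul]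
      rw [h2, ← Finset.sum_filter]
      exact Finset.sum_subtype _ (fun x => by simp) _
    rw [h1]
    simp only [hm, Finset.mul_sum]
    rw [Finset.sum_comm]
    refine Finset.sum_congr rfl fun θ _ => Finset.sum_congr rfl fun c _ => ?_
    ring
  rw [e2, finsum_mem_eq_finite_toFinset_sum _ (H10W.ch_fin B a)]
  -- the value for a character of `C`
  have e3 : ∀ ψ : G → ℂ, (∀ g, g ∉ B.C a → ψ g = 0) → (fun t : B.C a => ψ t) ∈ Irr (B.C a) →
      ∑ c : B.C a, T c * ψ c = ψ 1 * (nu B ψ κ * cv (D.et a) ψ) := by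
    intro ψ h0 hψ
    have h1 : ψ 1 ≠ 0 := irr_one_ne (χ := fun t : B.C a => ψ t) hψ
    rw [← tk_cv B hκ hz.sup hψ, ← hT]
    unfold cv
    rw [finsum_eq_sum_of_fintype, mul_div_cancel₀ _ h1]
    have h2 : ∑ g, T g * ψ g = ∑ g, (if g ∈ B.C a then T g * ψ g else 0) := by
      refine Finset.sum_congr rfl fun g _ => ?_
      split_ifs with h
      · rfl
      · rw [hTs g h, zero_mul]
    rw [h2, ← Finset.sum_filter]
    have h3 : ∑ g ∈ Finset.univ.filter (fun g => g ∈ B.C a), T g * ψ g =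
        ∑ c : B.C a, T c * ψ c := Finset.sum_subtype _ (fun x => by simp) _
    exact h3.symm
  symm
  refine Finset.sum_of_injOn (fun ψ : G → ℂ => fun t : B.C a => ψ t) ?_ ?_ ?_ ?_
  · intro ψ hψ ψ' hψ' h
    have h1 := (Set.Finite.mem_toFinset _).1 hψ
    have h2 := (Set.Finite.mem_toFinset _).1 hψ'
    funext g
    by_cases hg : g ∈ B.C a
    · exact congrFun h ⟨g, hg⟩
    · rw [h1.1 g hg, h2.1 g hg]
  · intro ψ hψ
    have h1 := (Set.Finite.mem_toFinset _).1 hψ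
    exact (Set.Finite.mem_toFinset _).2 h1.2.1
  · intro θ hθ hn
    have h1 := (Set.Finite.mem_toFinset _).1 hθ
    obtain ⟨ψ, hψ⟩ : ∃ ψ : G → ℂ, ψ = H75.ext0 (B.C a) θ := ⟨_, rfl⟩
    have h2 : (fun t : B.C a => ψ t) = θ := by
      rw [hψ]
      exact funext (H75.ext0_apply _ _)
    have h3 : ∀ g, g ∉ B.C a → ψ g = 0 := by
      rw [hψ]
      exact H75.ext0_supp _ _
    have h4 : ψ ∉ Ch B a := by
      intro h
      apply hn
      exact ⟨ψ, (Set.Finite.mem_toFinset _).2 h, h2⟩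
    have h5 := e3 ψ h3 (h2 ▸ h1)
    rw [hz.blk ψ h3 (h2 ▸ h1) h4, mul_zero, mul_zero] at h5
    have h6 : ∑ c : B.C a, T c * θ c = 0 := by
      rw [← h2]
      exact h5
    rw [h6, mul_zero]
  · intro ψ hψ
    have h1 := (Set.Finite.mem_toFinset _).1 hψ
    rw [e3 ψ h1.1 h1.2.1]

end Pool.Agent.PP.SE.H45
end
end -- Pool.Agent.Helper45_ASE.ETM
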