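import Pool.Agent.Helper12_AWB.B171
import Pool.Agent.Helper12_AWB.B218
import Pool.Agent.Helper12_AWB.B229

/-!
# Merged copies (generated) of the modules

* `Pool.Agent.Helper48_ASO.PEX`
* `Pool.Agent.Helper66_ASE.VXM`
* `Pool.Agent.Helper44_ASD.SSD`
* `Pool.Agent.Helper67_ASE.RNA`
* `Pool.Agent.Helper86_ASE.RPV`
-/

set_option autoImplicit false

section -- Pool.Agent.Helper48_ASO.PEX

/-! Row PEX of table aso: existence of the exponent `m` -/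

open scoped BigOperators

noncomputable section

namespace Pool.Agent.PP.SO.H48

open Pool.Agent.Helper51_AWC Pool.Agent.Helper79_WRA Pool.Agent.PP Pool.Agent.PP.KF
open Pool.Agent.PP.K9 Pool.Agent.PP.K9.H97 Pool.Agent.PP.H75 Pool.Agent.PP.T3 Pool.Agent.PP.SO

theorem pex : PexStmt := by
  intro ℓ hℓ G _ _
  have hp : ℓ.Prime := hℓ.out
  have hN : Nat.card G ≠ 0 := Nat.card_pos.ne'
  obtain ⟨a, b, hb, hab⟩ := Nat.exists_eq_pow_mul_and_not_dvd hN ℓ hp.ne_one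
  have hcop : (ℓ ^ (a + 1)).Coprime b :=
    Nat.Coprime.pow_left _ ((Nat.Prime.coprime_iff_not_dvd hp).2 hb)
  obtain ⟨m, hm1, hm2⟩ := Nat.chineseRemainder hcop 1 0
  refine ⟨a + 1, m, Nat.succ_pos a, ⟨⟨a + 1, Nat.succ_pos a, rfl⟩, ?_, ?_, ?_⟩⟩
  · have h1 : m ≡ 1 [MOD ℓ] := hm1.of_dvd (dvd_pow_self ℓ (Nat.succ_ne_zero a))
    have h2 : m % ℓ = 1 % ℓ := h1
    rw [h2, Nat.mod_eq_of_lt hp.one_lt]
  · rintro g ⟨k, hk⟩
    have h1 : orderOf g ∣ ℓ ^ k := orderOf_dvd_of_pow_eq_one hk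
    obtain ⟨j, -, hj⟩ := (Nat.dvd_prime_pow hp).1 h1
    have h2 : orderOf g ∣ Nat.card G := orderOf_dvd_natCard g
    rw [hab, hj] at h2
    have h3 : (ℓ ^ j).Coprime b := Nat.Coprime.pow_left _ ((Nat.Prime.coprime_iff_not_dvd hp).2 hb)
    have h4 : ℓ ^ j ∣ ℓ ^ a := h3.dvd_of_dvd_mul_right h2
    have h5 : ℓ ^ j ∣ ℓ ^ (a + 1) := h4.trans (pow_dvd_pow ℓ (Nat.le_succ a))
    rw [← hj] at h5
    refine ⟨?_, orderOf_dvd_iff_pow_eq_one.1 h5⟩
    have h6 : m ≡ 1 [MOD orderOf g] := hm1.of_dvd h5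
    have h7 := pow_eq_pow_iff_modEq.2 h6
    rwa [pow_one] at h7
  · intro g hg
    have h2 : orderOf g ∣ Nat.card G := orderOf_dvd_natCard g
    rw [hab] at h2
    have h3 : (orderOf g).Coprime (ℓ ^ a) := Nat.Coprime.pow_right a hg
    have h4 : orderOf g ∣ b := h3.dvd_of_dvd_mul_left h2
    have h5 : b ∣ m := (Nat.modEq_zero_iff_dvd).1 hm2
    exact orderOf_dvd_iff_pow_eq_one.1 (h4.trans h5)

end Pool.Agent.PP.SO.H48
end
end -- Pool.Agent.Helper48_ASO.PEX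

section -- Pool.Agent.Helper66_ASE.VXM

/-!
# Squad ASE, row VXM: the `g`-part of the characters of `b W`
-/

set_option autoImplicit false
set_option linter.unusedSectionVars false

open scoped BigOperators

noncomputable section

namespace Pool.Agent.PP.SE.H66

open Pool.Agent.Helper51_AWC Pool.Agent.Helper79_WRA Pool.Agent.PP Pool.Agent.PP.KF
open Pool.Agent.PP.K9 Pool.Agent.PP.K9.H97 Pool.Agent.PP.H75 Pool.Agent.PP.T3 Pool.Agent.PP.SO
open Pool.Agent.PP.SD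

attribute [local instance] Ideal.Quotient.field

/-- the multiplicity of an irreducible character in the restriction is a natural number -/
theorem mult_nat {C H : Type} [Group C] [Fintype C] [Group H] (j : C →* H) {χ : H → ℂ}
    (hχ : χ ∈ Irr H) {θ : C → ℂ} (hθ : θ ∈ Irr C) :
    ∃ m : ℕ, (Nat.card C : ℂ)⁻¹ * ∑ c : C, χ (j c) * θ c⁻¹ = m := by
  obtain ⟨n, ρ, hρ, rfl⟩ := hχ
  obtain ⟨n', σ, hσ, rfl⟩ := hθ
  have hc : (Nat.card C : ℂ) ≠ 0 := by exact_mod_cast Nat.card_pos.ne'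
  have := invertibleOfNonzero hc
  obtain ⟨τ, hτ⟩ : ∃ τ : Representation ℂ C (Fin n → ℂ), τ = ρ.comp j := ⟨_, rfl⟩
  have h := Representation.card_inv_mul_sum_char_mul_char_eq_finrank σ τ
  refine ⟨_, Eq.trans ?_ h⟩
  rw [hτ]
  rfl

section top

variable {ℓ : ℕ} [Fact ℓ.Prime] {V₀ G : Type} [CommGroup V₀] [Group G] {M : Ideal (integralClosure ℤ ℂ)} [M.IsMaximal]
  [Finite V₀] [Finite G] {E₀ : Subgroup (MulAut V₀)} (B : Bk (FF M) V₀ G)

/-- the function `fc` of the whole group -/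
theorem fc_top (x : V₀) (g : G) : fc B ⊤ x g = bh B ⊤ ((B.i x)⁻¹ * g) := by
  classical
  have := Fintype.ofFinite (B.C ⊤)
  have h1 : (⊤ : Subgroup V₀) ⊔ Subgroup.zpowers x = ⊤ := top_sup_eq _
  unfold fc
  rw [h1, finsum_eq_sum_of_fintype]
  have h2 : ∀ z : B.C ⊤, bh B ⊤ ((B.i x)⁻¹ * ((z : G)⁻¹ * g * z)) =
      bh B ⊤ ((B.i x)⁻¹ * g) := by
    intro z
    have h3 : B.i x * z = z * B.i x := (H33.mem_C B).1 z.2 x (Subgroup.mem_top x)
    have h4 : (B.i x)⁻¹ * (z : G)⁻¹ = (z : G)⁻¹ * (B.i x)⁻¹ := by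
      rw [← mul_inv_rev, ← mul_inv_rev, h3]
    have e1 : (B.i x)⁻¹ * ((z : G)⁻¹ * g * z) = (z : G)⁻¹ * ((B.i x)⁻¹ * g) * z := by
      rw [← mul_assoc, ← mul_assoc, h4]
      group
    rw [e1]
    by_cases hg : (B.i x)⁻¹ * g ∈ B.C ⊤
    · have h5 := H33.bh_W B ⊤ ⟨(B.i x)⁻¹ * g, hg⟩
      have h6 := H33.bh_W B ⊤ (z⁻¹ * ⟨(B.i x)⁻¹ * g, hg⟩ * z)
      have h7 : ((z⁻¹ * ⟨(B.i x)⁻¹ * g, hg⟩ * z : B.C ⊤) : G) =
        (z : G)⁻¹ * ((B.i x)⁻¹ * g) * z := rfl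
      rw [← h7, h6]
      change _ = bh B ⊤ ((⟨(B.i x)⁻¹ * g, hg⟩ : B.C ⊤) : G)
      rw [h5]
      have h8 : z⁻¹ * ⟨(B.i x)⁻¹ * g, hg⟩ * z = z⁻¹ * ⟨(B.i x)⁻¹ * g, hg⟩ * (z⁻¹)⁻¹ := by
        rw [inv_inv]
      rw [h8, K9.H25.eh_cl]
    · rw [H33.bh_not B ⊤ hg, H33.bh_not B ⊤]
      intro h
      apply hg
      have h5 : (B.i x)⁻¹ * g = z * ((z : G)⁻¹ * ((B.i x)⁻¹ * g) * z) * (z : G)⁻¹ := by group
      rw [h5]
      exact (B.C ⊤).mul_mem ((B.C ⊤).mul_mem z.2 h) ((B.C ⊤).inv_mem z.2)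
  rw [Finset.sum_congr rfl fun z _ => h2 z, Finset.sum_const, Finset.card_univ, nsmul_eq_mul,
    ← mul_assoc, Nat.card_eq_fintype_card, inv_mul_cancel₀, one_mul]
  exact_mod_cast Fintype.card_ne_zero

/-- `vx` in terms of `fc` -/
theorem vx_eq (χ : G → ℂ) (x : V₀) :
    vx B χ x = (∑ᶠ g, fc B ⊤ x g * χ g) / B.D ⊤ := by
  classical
  have := Fintype.ofFinite G
  unfold vx
  congr 1
  rw [finsum_eq_sum_of_fintype, finsum_eq_sum_of_fintype, ← Equiv.sum_comp (Equiv.mulLeft (B.i x))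
    (fun g => fc B ⊤ x g * χ g)]
  refine Finset.sum_congr rfl fun s _ => ?_
  show bh B ⊤ s * χ (B.i x * s) = fc B ⊤ x (B.i x * s) * χ (B.i x * s)
  rw [fc_top, inv_mul_cancel_left]

/-- sums over the centraliser -/
theorem sum_C (W : Subgroup V₀) (f : G → ℂ) (hf : ∀ g, g ∉ B.C W → f g = 0) [Fintype (B.C W)] :
    ∑ᶠ g, f g = ∑ t : B.C W, f t := by
  rw [H75.sum_sub (B.C W) f hf, finsum_eq_sum_of_fintype]

theorem mp_top (τ : MulAut V₀) : mp τ (⊤ : Subgroup V₀) = ⊤ := by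
  unfold mp
  exact Subgroup.map_top_of_surjective _ (MulEquiv.surjective _)

end top

/-- VXM -/
theorem vxm (hGea : GeaStmt) (hCzb : CzbStmt) (hAcb : AcbStmt) (hNsd : NsdStmt) (hRda : RdaStmt)
    (hRwd : RwdStmt) (hHomr : HOmrStmt) : VxmStmt := by
  intro ℓ _ M _ hM hl2 V₀ G _ _ _ _ E₀ hq B hB W hW χ hχ
  classical
  have := Fintype.ofFinite G
  have := Fintype.ofFinite V₀
  have := Fintype.ofFinite (B.C W)
  have := Fintype.ofFinite (B.C ⊤)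
  have hℓ : ℓ.Prime := Fact.out
  have hSb := hB.toSb
  obtain ⟨⟨-, hnl, -, -, -, -, -, -⟩, -, gmul, gW, gk, gτ, -, -, -, gx⟩ :=
    hGea ℓ V₀ E₀ hq W hW
  obtain ⟨-, -, hRtop, -, -⟩ := hRwd ℓ V₀ E₀ hq
  obtain ⟨nbij, ncv, -, -, -, -, -⟩ := hNsd ℓ M hM hl2 V₀ G E₀ hq B hB ⊤ hRtop
  obtain ⟨tfc, texp, ttk, -, -, -, tch, tfin⟩ := hCzb ℓ M hM hl2 V₀ G E₀ hq B hSb ⊤
  obtain ⟨-, -, -, -, -, -, wch, -⟩ := hCzb ℓ M hM hl2 V₀ G E₀ hq B hSb W
  obtain ⟨hχ1, hnu1, hχW, hχi, hχc⟩ := wch χ hχ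
  obtain ⟨htt, hac⟩ := hAcb ℓ M hM hl2 V₀ G E₀ hq B hSb
  -- the degree
  obtain ⟨hD0, hDg⟩ := hB.dg ⊤ hRtop
  have hDC : (B.D ⊤ : ℂ) ≠ 0 := by exact_mod_cast hD0.ne'
  have hcC : (Nat.card (B.C ⊤) : ℂ) ≠ 0 := by exact_mod_cast Nat.card_pos.ne'
  have hkD : ∀ κ ∈ Ch B ⊤, κ 1 = B.D ⊤ := fun κ hκ => hDg _ hκ.2
  -- `lam` of the whole group
  have hux : ∀ x, ((ux B.U ⊤ x : ℚ) : ℂ) = 1 := by
    intro x
    unfold ux
    rw [if_pos (Subgroup.mem_top x), Rat.cast_one]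
  have hlcv : ∀ κ ∈ Ch B ⊤, ∀ x, cv (fc B ⊤ x) κ = lam B ⊤ κ x := by
    intro κ hκ x
    rw [ncv κ hκ x, hux, one_mul]
  have hlnu : ∀ κ ∈ Ch B ⊤, ∀ x, lam B ⊤ κ x = nu B κ x := by
    intro κ hκ x
    have h1 : fc B ⊤ x = tk B x (fc B ⊤ 1) := by
      funext g
      unfold tk
      rw [fc_top, fc_top, map_one, inv_one, one_mul]
    have h2 := (ttk (fc B ⊤ 1) (tfc 1) x (Subgroup.mem_top x)).2 κ hκ
    rw [← h1, hlcv κ hκ, hlcv κ hκ, (nbij.1 hκ).1, mul_one] at h2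
    exact h2
  -- multiplicities
  have hmul : ∀ κ : G → ℂ, ∃ m : ℕ, κ ∈ Ch B ⊤ →
      ∑ g, χ g * κ g⁻¹ = Nat.card (B.C ⊤) * (m : ℂ) := by
    intro κ
    by_cases hκ : κ ∈ Ch B ⊤
    · have hle : B.C ⊤ ≤ B.C W := by
        intro y hy
        rw [H33.mem_C] at hy ⊢
        exact fun w _ => hy w (Subgroup.mem_top w)
      obtain ⟨m, hm⟩ := mult_nat (Subgroup.inclusion hle) hχ.2.1 hκ.2.1
      refine ⟨m, fun _ => ?_⟩
      rw [← hm, mul_inv_cancel_left₀ hcC, ← finsum_eq_sum_of_fintype,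
        sum_C B ⊤ (fun g => χ g * κ g⁻¹) (fun g hg => by
          rw [hκ.1 g⁻¹ (fun h => hg ((B.C ⊤).inv_mem_iff.1 h)), mul_zero])]
      rfl
    · exact ⟨0, fun h => absurd h hκ⟩
  choose mk hmk using hmul
  obtain ⟨m, hm⟩ : ∃ m : (V₀ → ℂ) → ℕ, ∀ κ ∈ Ch B ⊤, m (lam B ⊤ κ) = mk κ := by
    refine ⟨fun μ => if h : ∃ κ, κ ∈ Ch B ⊤ ∧ lam B ⊤ κ = μ then mk h.choose else 0, ?_⟩
    intro κ hκ
    have h : ∃ κ', κ' ∈ Ch B ⊤ ∧ lam B ⊤ κ' = lam B ⊤ κ := ⟨κ, hκ, rfl⟩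
    beta_reduce
    rw [dif_pos h]
    exact congrArg mk (nbij.2.1 h.choose_spec.1 hκ h.choose_spec.2)
  -- (a1)
  have a1 : ∀ x, vx B χ x = ∑ᶠ μ ∈ lin V₀, (m μ : ℂ) * μ x := by
    intro x
    have h1 : ∑ᶠ g, fc B ⊤ x g * χ g =
        ∑ᶠ κ ∈ Ch B ⊤, (B.D ⊤ : ℂ) * ((mk κ : ℂ) * lam B ⊤ κ x) := by
      rw [sum_C B ⊤ (fun g => fc B ⊤ x g * χ g) (fun g hg => by
        rw [(tfc x).sup g hg, zero_mul])]
      have h2 : ∀ t : B.C ⊤, fc B ⊤ x t * χ t = ∑ κ ∈ tfin.toFinset,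
          lam B ⊤ κ x * (κ 1 / Nat.card (B.C ⊤)) * (κ (t : G)⁻¹ * χ t) := by
        intro t
        rw [texp _ (tfc x) t t.2, finsum_mem_eq_finite_toFinset_sum _ tfin, Finset.sum_mul]
        refine Finset.sum_congr rfl fun κ hκ => ?_
        rw [hlcv κ (tfin.mem_toFinset.1 hκ)]
        ring
      rw [Finset.sum_congr rfl fun t _ => h2 t, Finset.sum_comm,
        finsum_mem_eq_finite_toFinset_sum _ tfin]
      refine Finset.sum_congr rfl fun κ hκ => ?_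
      have hκ' := tfin.mem_toFinset.1 hκ
      rw [← Finset.mul_sum]
      have h3 : ∑ t : B.C ⊤, κ (t : G)⁻¹ * χ t = Nat.card (B.C ⊤) * (mk κ : ℂ) := by
        rw [← hmk κ hκ', ← finsum_eq_sum_of_fintype (fun g : G => χ g * κ g⁻¹),
          sum_C B ⊤ (fun g => χ g * κ g⁻¹) (fun g hg => by
            rw [hκ'.1 g⁻¹ (fun h => hg ((B.C ⊤).inv_mem_iff.1 h)), mul_zero])]
        exact Finset.sum_congr rfl fun t _ => mul_comm _ _
      rw [h3, hkD κ hκ']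
      field_simp
    rw [vx_eq, h1, finsum_mem_eq_finite_toFinset_sum _ tfin, ← Finset.mul_sum,
      mul_div_cancel_left₀ _ hDC, ← finsum_mem_eq_finite_toFinset_sum _ tfin]
    exact finsum_mem_eq_of_bijOn (lam B ⊤) nbij fun κ hκ => by rw [hm κ hκ]
  -- (a2)
  have a2 : ∀ τ ∈ St E₀ W, ∀ μ ∈ lin V₀, m (fun v => μ (τ v)) = m μ := by
    intro τ hτ μ hμ
    obtain ⟨t1, t2⟩ := htt τ hτ.1
    obtain ⟨-, -, c3, c4, -⟩ := hac ⊤ τ hτ.1
    have htC : tt B τ ∈ B.C W := by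
      rw [H33.mem_C]
      intro w hw
      have h1 := t2 w
      rw [hτ.2 w hw, mul_inv_eq_iff_eq_mul] at h1
      exact h1.symm
    obtain ⟨κ', hκ', rfl⟩ := nbij.2.2 hμ
    rw [← mp_top τ] at hκ'
    obtain ⟨κ, hκ, rfl⟩ := c4.2.2 hκ'
    rw [mp_top τ] at hκ'
    obtain ⟨-, -, -, c5, -⟩ := c3 κ hκ
    have h2 : (fun v => lam B ⊤ (ac B τ κ) (τ v)) = lam B ⊤ κ := by
      funext v
      rw [hlnu _ hκ', hlnu _ hκ, c5]
    rw [h2, hm κ hκ, hm _ hκ']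
    have h3 : (Nat.card (B.C ⊤) : ℂ) * (mk κ : ℂ) = Nat.card (B.C ⊤) * (mk (ac B τ κ) : ℂ) := by
      rw [← hmk κ hκ, ← hmk _ hκ', ← Equiv.sum_comp (MulAut.conj (tt B τ)).toEquiv
        (fun g => χ g * ac B τ κ g⁻¹)]
      refine Finset.sum_congr rfl fun g _ => ?_
      show χ g * κ g⁻¹ = χ (tt B τ * g * (tt B τ)⁻¹) *
        κ ((tt B τ)⁻¹ * (tt B τ * g * (tt B τ)⁻¹)⁻¹ * tt B τ)
      rw [hχc _ htC g]
      have h4 : (tt B τ)⁻¹ * (tt B τ * g * (tt B τ)⁻¹)⁻¹ * tt B τ = g⁻¹ := by group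
      rw [h4]
    have h5 := mul_left_cancel₀ hcC h3
    exact_mod_cast h5
  -- (a3)
  have a3 : ∀ μ ∈ lin V₀, m μ ≠ 0 → ∀ w ∈ W, μ w = nu B χ w := by
    intro μ hμ hm0 w hw
    obtain ⟨κ, hκ, rfl⟩ := nbij.2.2 hμ
    rw [hm κ hκ] at hm0
    obtain ⟨k1, k2, k3, k4, k5⟩ := tch κ hκ
    obtain ⟨-, k6, k7⟩ := k3 w⁻¹ (Subgroup.mem_top _)
    obtain ⟨-, w1, w2⟩ := hχW w hw
    have h0 : ∑ g, χ g * κ g⁻¹ ≠ 0 := by
      rw [hmk κ hκ]
      exact mul_ne_zero hcC (by exact_mod_cast hm0)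
    have h1 : ∑ g, χ g * κ g⁻¹ = (nu B χ w * nu B κ w⁻¹) * ∑ g, χ g * κ g⁻¹ := by
      rw [Finset.mul_sum, ← Equiv.sum_comp (Equiv.mulLeft (B.i w)) (fun g => χ g * κ g⁻¹)]
      refine Finset.sum_congr rfl fun g _ => ?_
      show χ (B.i w * g) * κ (B.i w * g)⁻¹ = _
      have h2 : κ (B.i w * g)⁻¹ = nu B κ w⁻¹ * κ g⁻¹ := by
        have h3 := k5 (B.i w)⁻¹ ((B.C ⊤).inv_mem (H33.i_mem_C B ⊤ w)) (g⁻¹ * (B.i w)⁻¹)
        have h4 : (B.i w)⁻¹ * (g⁻¹ * (B.i w)⁻¹) * (B.i w)⁻¹⁻¹ = B.i w⁻¹ * g⁻¹ := by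
          rw [map_inv]
          group
        rw [h4, k6] at h3
        rw [mul_inv_rev, ← h3]
      rw [h2, w1]
      ring
    have h2 : nu B χ w * nu B κ w⁻¹ = 1 := by
      have h3 : (nu B χ w * nu B κ w⁻¹ - 1) * ∑ g, χ g * κ g⁻¹ = 0 := by
        rw [sub_mul, ← h1]
        ring
      rcases mul_eq_zero.1 h3 with h4 | h4
      · exact sub_eq_zero.1 h4
      · exact absurd h4 h0
    have h3 : nu B κ w⁻¹ * nu B κ w = 1 := by
      rw [← k7 w (Subgroup.mem_top _), inv_mul_cancel, k2]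
    rw [hlnu κ hκ]
    calc nu B κ w = (nu B χ w * nu B κ w⁻¹) * nu B κ w := by rw [h2, one_mul]
      _ = nu B χ w * (nu B κ w⁻¹ * nu B κ w) := by ring
      _ = nu B χ w := by rw [h3, mul_one]
  refine ⟨⟨m, a1, a2, a3⟩, ⟨?_, ?_, ?_, ?_, ?_, ?_⟩, ?_⟩
  · -- (b1)
    intro w hw x
    unfold vx
    rw [mul_div_assoc']
    congr 1
    rw [finsum_eq_sum_of_fintype, finsum_eq_sum_of_fintype, Finset.mul_sum]
    refine Finset.sum_congr rfl fun s _ => ?_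
    rw [map_mul, mul_assoc, (hχW w hw).2.1]
    ring
  · -- (b2)
    intro x
    have hlf : (lin V₀).Finite := by
      have h1 := tfin.image (lam B ⊤)
      rwa [nbij.image_eq] at h1
    rw [a1, a1, finsum_mem_eq_finite_toFinset_sum _ hlf, finsum_mem_eq_finite_toFinset_sum _ hlf,
      map_sum]
    refine Finset.sum_congr rfl fun μ hμ => ?_
    have hμ' := hlf.mem_toFinset.1 hμ
    rw [map_mul, Complex.conj_natCast]
    congr 1
    obtain ⟨κ, hκ, rfl⟩ := nbij.2.2 hμ'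
    obtain ⟨-, -, k3, -, -⟩ := tch κ hκ
    rw [hlnu κ hκ, hlnu κ hκ]
    exact (k3 x (Subgroup.mem_top x)).1
  · -- (b3)
    intro τ hτ x
    rw [a1, a1]
    symm
    refine finsum_mem_eq_of_bijOn (fun μ : V₀ → ℂ => fun v => μ (τ⁻¹ v)) ⟨?_, ?_, ?_⟩ ?_
    · intro μ hμ
      exact ⟨by show μ (τ⁻¹ 1) = 1; rw [map_one]; exact hμ.1, fun v w => by
        show μ (τ⁻¹ (v * w)) = μ (τ⁻¹ v) * μ (τ⁻¹ w)
        rw [map_mul]
        exact hμ.2 _ _⟩
    · intro μ _ μ' _ h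
      funext v
      have h1 := congrFun h (τ v)
      beta_reduce at h1
      rwa [MulAut.inv_apply_self] at h1
    · intro μ hμ
      refine ⟨fun v => μ (τ v), ⟨by show μ (τ 1) = 1; rw [map_one]; exact hμ.1, fun v w => by
        show μ (τ (v * w)) = μ (τ v) * μ (τ w)
        rw [map_mul]
        exact hμ.2 _ _⟩, ?_⟩
      funext v
      show μ (τ (τ⁻¹ v)) = μ v
      rw [MulAut.apply_inv_self]
    · intro μ hμ
      beta_reduce
      rw [MulAut.inv_apply_self, a2 τ⁻¹ ((St E₀ W).inv_mem hτ) μ hμ]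
  · -- (b4)
    refine ⟨fun v => nu B χ (pr ℓ E₀ W v), ⟨⟨?_, ?_⟩, ?_⟩, hχ, ?_⟩
    · show nu B χ (pr ℓ E₀ W 1) = 1
      rw [gW 1 (Subgroup.one_mem W), hnu1]
    · intro v w
      show nu B χ (pr ℓ E₀ W (v * w)) = _
      have hpr := (hGea ℓ V₀ E₀ hq W hW).2.1
      rw [gmul, (hχW _ (hpr v).1).2.2 _ (hpr w).1]
    · intro y hy
      show nu B χ (pr ℓ E₀ W y) = 1
      rw [gk y hy, hnu1]
    · intro w hw
      show nu B χ w = nu B χ (pr ℓ E₀ W w)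
      rw [gW w hw]
  · -- (b5)
    intro w hw g
    exact (hχW w hw).2.1 g
  · -- (b6)
    intro w hw
    refine ⟨(hχW w hw).1, ?_⟩
    rw [← (hχW w hw).2.2 _ (W.inv_mem hw), mul_inv_cancel, hnu1]
  · -- (c)
    intro x hx
    obtain ⟨hxt, hxτ⟩ := gx x hx
    have c1 : cv (fc B W x) χ =
        Nat.card (B.C W) * B.D ⊤ / (Nat.card (B.C ⊤) * χ 1) * vx B χ x := by
      have h1 : ∑ᶠ g, fc B W x g * χ g = (Nat.card (B.C ⊤) : ℂ)⁻¹ *
          (Nat.card (B.C W) * ∑ s, bh B ⊤ s * χ (B.i x * s)) := by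
        have h2 : ∀ g, fc B W x g * χ g = (Nat.card (B.C ⊤) : ℂ)⁻¹ *
            ∑ z : B.C W, bh B ⊤ ((B.i x)⁻¹ * ((z : G)⁻¹ * g * z)) *
              χ ((z : G)⁻¹ * g * z) := by
          intro g
          unfold fc
          rw [hxt, finsum_eq_sum_of_fintype, mul_assoc, Finset.sum_mul]
          congr 1
          refine Finset.sum_congr rfl fun z _ => ?_
          have h3 := hχc (z : G)⁻¹ ((B.C W).inv_mem z.2) g
          rw [inv_inv] at h3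
          rw [h3]
        rw [finsum_eq_sum_of_fintype, Finset.sum_congr rfl fun g _ => h2 g, ← Finset.mul_sum,
          Finset.sum_comm]
        congr 1
        have h3 : ∀ z : B.C W, ∑ g, bh B ⊤ ((B.i x)⁻¹ * ((z : G)⁻¹ * g * z)) *
            χ ((z : G)⁻¹ * g * z) = ∑ s, bh B ⊤ s * χ (B.i x * s) := by
          intro z
          rw [← Equiv.sum_comp (MulAut.conj (z : G)).toEquiv,
            ← Equiv.sum_comp (Equiv.mulLeft (B.i x))]
          refine Finset.sum_congr rfl fun s _ => ?_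
          show bh B ⊤ ((B.i x)⁻¹ * ((z : G)⁻¹ * (z * (B.i x * s) * (z : G)⁻¹) * z)) *
            χ ((z : G)⁻¹ * (z * (B.i x * s) * (z : G)⁻¹) * z) = _
          have h4 : (z : G)⁻¹ * (z * (B.i x * s) * (z : G)⁻¹) * z = B.i x * s := by group
          rw [h4, inv_mul_cancel_left]
        rw [Finset.sum_congr rfl fun z _ => h3 z, Finset.sum_const, Finset.card_univ,
          nsmul_eq_mul, Nat.card_eq_fintype_card]
      unfold cv vx
      rw [h1, finsum_eq_sum_of_fintype]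
      field_simp
    obtain ⟨-, B', hB', -, -, -, -, -, -, -, hch, -⟩ := hRda ℓ M hM hl2 V₀ G E₀ hq B hSb W
    obtain ⟨e1, e2⟩ := hch χ hχ.1
    obtain ⟨r1, r2⟩ := hHomr ℓ M hM V₀ (St E₀ W) (B.C W) B' hB' x _ (e1.1 hχ)
    rw [e2 x] at r1 r2
    have hnE : nE (St E₀ W) x = nS E₀ W := by
      unfold nE nS
      have h1 : Es (St E₀ W) x = ⊥ := by
        rw [Subgroup.eq_bot_iff_forall]
        exact fun τ hτ => hxτ τ hτ.1 hτ.2
      rw [h1, Subgroup.card_bot, Nat.div_one]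
    rw [hnE] at r2
    refine ⟨c1, r1, r2, ?_⟩
    intro h0
    rw [c1, h0, mul_zero, rr_zero] at r2
    have hch : CharP (FF M) ℓ := (H50.fld ℓ Fact.out M hM).char
    exact hnl ((CharP.cast_eq_zero_iff (FF M) ℓ _).1 r2.symm)

end Pool.Agent.PP.SE.H66
end
end -- Pool.Agent.Helper66_ASE.VXM

section -- Pool.Agent.Helper44_ASD.SSD

/-!
# Squad ASD, row SSD: the sums `SL` for local blocks with `Rw` (after `Helper59_ASO/SSL.lean`)
-/

open scoped BigOperators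

set_option linter.unusedSectionVars false

noncomputable section

namespace Pool.Agent.PP.SD.H44

open Pool.Agent.Helper51_AWC Pool.Agent.Helper79_WRA Pool.Agent.PP Pool.Agent.PP.KF
open Pool.Agent.PP.K9 Pool.Agent.PP.K9.H97 Pool.Agent.PP.H75 Pool.Agent.PP.T3 Pool.Agent.PP.SO
open Pool.Agent.PP.SO.H59 (finsum_mem_ite lin_pow lin_conj sup_top C_mono i_mem_C fc_out C_pos ep
  ncard_ite map_eq ux_inv)

section rws

variable {V₀ : Type} [CommGroup V₀] [Finite V₀] {E₀ : Subgroup (MulAut V₀)}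

theorem rw_mono {W W' : Subgroup V₀} (hW : Rw E₀ W) (h : W ≤ W') : Rw E₀ W' :=
  ⟨fun h0 => hW.1 (le_bot_iff.1 (h0 ▸ h)), fun σ hσ hf => hW.2 σ hσ fun w hw => hf w (h hw)⟩

theorem rw_top {W : Subgroup V₀} (hW : Rw E₀ W) : Rw E₀ (⊤ : Subgroup V₀) := rw_mono hW le_top

end rws

section blk

variable {ℓ : ℕ} [Fact ℓ.Prime] {M : Ideal (integralClosure ℤ ℂ)} [M.IsMaximal]
  {V₀ G : Type} [CommGroup V₀] [Finite V₀] [Group G] [Finite G] {E₀ : Subgroup (MulAut V₀)}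
  {B : Bk (FF M) V₀ G}

theorem D_pos (hB : Sd ℓ M E₀ B) {W : Subgroup V₀} (hW : Rw E₀ W) : (0 : ℚ) < B.D W := by
  exact_mod_cast (hB.dg W hW).1

theorem S_sq (hB : Sd ℓ M E₀ B) {W : Subgroup V₀} (hW : Rw E₀ W) : (B.S W : ℚ) * B.S W = 1 := by
  rcases hB.sg W hW with h | h <;> rw [h] <;> norm_num

theorem S_top (hB : Sd ℓ M E₀ B) (h2 : ℓ ≠ 2) (ht : Rw E₀ (⊤ : Subgroup V₀)) : B.S ⊤ = 1 := by
  rcases hB.sg ⊤ ht with h | h
  · exact h
  · exfalso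
    obtain ⟨q, hq, hU⟩ := hB.un ⊤ ht
    have hD := (D_pos hB ht).ne'
    have hC := (C_pos (B := B) ⊤).ne'
    have h3 : B.U ⊤ = -1 := by
      unfold Bk.U
      rw [h]
      push_cast
      field_simp
    rw [h3] at hU
    have hp : ℓ.Prime := Fact.out
    have hl0 : (ℓ : ℚ) ≠ 0 := by exact_mod_cast hp.ne_zero
    have h4 : q = ((-2 : ℤ) : ℚ) / ((ℓ : ℤ) : ℚ) := by
      push_cast
      rw [eq_div_iff hl0]
      linarith
    have h5 : ¬ ℓ ∣ q.den := hq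
    apply h5
    have hcop : Nat.Coprime (Int.natAbs (-2)) (Int.natAbs (ℓ : ℤ)) := by
      change Nat.Coprime 2 ℓ
      exact (Nat.coprime_primes Nat.prime_two hp).2 (Ne.symm h2)
    have h6 := Rat.den_div_eq_of_coprime (a := -2) (b := (ℓ : ℤ)) (by exact_mod_cast hp.pos) hcop
    rw [h4]
    have h7 : ((((-2 : ℤ) : ℚ) / ((ℓ : ℤ) : ℚ)).den : ℤ) = ℓ := h6
    have h8 : (((-2 : ℤ) : ℚ) / ((ℓ : ℤ) : ℚ)).den = ℓ := by exact_mod_cast h7
    rw [h8]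

/-- the quotient of the degrees -/
theorem deg_quot (hc : Nat.card V₀ = ℓ ^ 2) (hB : Sd ℓ M E₀ B) {W : Subgroup V₀} (hW : Rw E₀ W)
    (x : V₀) : (B.D (W ⊔ Subgroup.zpowers x) : ℚ) * Nat.card (B.C W) =
      ep B W x * ux B.U W x * (Nat.card (B.C (W ⊔ Subgroup.zpowers x)) * B.D W) := by
  unfold ep ux
  by_cases hx : x ∈ W
  · have h1 : W ⊔ Subgroup.zpowers x = W := sup_eq_left.2 ((Subgroup.zpowers_le).2 hx)
    rw [if_pos hx, if_pos hx, h1]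
    ring
  · rw [if_neg hx, if_neg hx, sup_top hc hW.1 hx]
    have hD := (D_pos hB hW).ne'
    have hC := (C_pos (B := B) ⊤).ne'
    unfold Bk.U
    have h2 : (B.S W : ℚ) * ((B.S W : ℚ) * Nat.card (B.C W) * B.D ⊤ /
        (Nat.card (B.C ⊤) * B.D W)) * (Nat.card (B.C ⊤) * B.D W) =
        ((B.S W : ℚ) * B.S W) * (Nat.card (B.C W) * B.D ⊤) := by
      field_simp
    rw [h2, S_sq hB hW]
    ring

theorem ux_ne (hB : Sd ℓ M E₀ B) {W : Subgroup V₀} (hW : Rw E₀ W) (x : V₀) :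
    ux B.U W x ≠ 0 := by
  unfold ux
  split_ifs with h
  · exact one_ne_zero
  · have hS : (B.S W : ℚ) ≠ 0 := by
      intro h0
      have := S_sq hB hW
      rw [h0, mul_zero] at this
      exact zero_ne_one this
    have hT := rw_top hW
    unfold Bk.U
    have h1 := (D_pos hB hW).ne'
    have h2 := (D_pos hB hT).ne'
    have h3 := (C_pos (B := B) W).ne'
    have h4 := (C_pos (B := B) ⊤).ne'
    exact div_ne_zero (mul_ne_zero (mul_ne_zero hS h3) h2) (mul_ne_zero h4 h1)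

end blk

section blk2

variable {ℓ : ℕ} [Fact ℓ.Prime] {M : Ideal (integralClosure ℤ ℂ)} [M.IsMaximal]
  {V₀ G : Type} [CommGroup V₀] [Finite V₀] [Group G] [Finite G] {E₀ : Subgroup (MulAut V₀)}
  {B : Bk (FF M) V₀ G}

/-- the signs -/
theorem eps_eq (hCJT : CjdStmt) (hM : (ℓ : integralClosure ℤ ℂ) ∈ M) (h2 : ℓ ≠ 2)
    (hFr : Fq ℓ V₀ E₀) (hB : Sd ℓ M E₀ B) {W₁ W₂ : Subgroup V₀} (h1 : Rw E₀ W₁) (h2' : Rw E₀ W₂)
    {τ : MulAut V₀} (hτ : τ ∈ E₀) {y : V₀}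
    (hmap : (W₁ ⊔ Subgroup.zpowers y).map τ.toMonoidHom = W₂ ⊔ Subgroup.zpowers (τ y)) :
    ep B W₁ y * ep B W₂ (τ y) = B.S W₁ * B.S W₂ := by
  have hT := rw_top h1
  have hmt : (⊤ : Subgroup V₀).map τ.toMonoidHom = ⊤ := by
    rw [← MonoidHom.range_eq_map]
    exact MonoidHom.range_eq_top.2 τ.surjective
  obtain ⟨t, ht, hti⟩ := hB.sur τ hτ
  have hcj := hCJT ℓ M hM h2 V₀ G E₀ hFr B hB.toSb τ hτ t ht hti
  unfold ep
  by_cases hy : y ∈ W₁
  · rw [if_pos hy, one_mul]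
    have hw : W₁ ⊔ Subgroup.zpowers y = W₁ := sup_eq_left.2 ((Subgroup.zpowers_le).2 hy)
    rw [hw] at hmap
    by_cases hy' : τ y ∈ W₂
    · rw [if_pos hy']
      have hw' : W₂ ⊔ Subgroup.zpowers (τ y) = W₂ := sup_eq_left.2 ((Subgroup.zpowers_le).2 hy')
      rw [hw'] at hmap
      have h3 := ((hcj W₁).2.2.2.2.2 hB h1).2.1
      rw [hmap] at h3
      rw [h3]
      exact (S_sq hB h1).symm
    · rw [if_neg hy']
      rw [sup_top hFr.cd h2'.1 hy', ← hmt] at hmap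
      have h3 : W₁ = ⊤ := Subgroup.map_injective τ.injective hmap
      rw [h3, S_top hB h2 hT, Int.cast_one, one_mul]
  · rw [if_neg hy]
    rw [sup_top hFr.cd h1.1 hy, hmt] at hmap
    by_cases hy' : τ y ∈ W₂
    · rw [if_pos hy']
      have hw' : W₂ ⊔ Subgroup.zpowers (τ y) = W₂ := sup_eq_left.2 ((Subgroup.zpowers_le).2 hy')
      rw [hw'] at hmap
      rw [← hmap, S_top hB h2 hT, Int.cast_one]
    · rw [if_neg hy']

end blk2

theorem ssd (hGPR : GpdStmt) (hNSV : NsdStmt) (hCJT : CjdStmt) : SsdStmt := by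
  intro ℓ _ M _ hM h2 V₀ G _ _ _ _ E₀ hFr B hB n m hPE L h1 h2' χ hχ χ' hχ'
  classical
  have iG := Fintype.ofFinite G
  have iV := Fintype.ofFinite V₀
  have iA := Fintype.ofFinite (MulAut V₀)
  obtain ⟨bij1, -, -, inv1, -⟩ := hNSV ℓ M hM h2 V₀ G E₀ hFr B hB (p1 L) h1
  obtain ⟨bij2, -, -, inv2, -⟩ := hNSV ℓ M hM h2 V₀ G E₀ hFr B hB (p2 L) h2'
  have hl1 : lam B (p1 L) χ ∈ lin V₀ := bij1.mapsTo hχ
  have hl2 : lam B (p2 L) χ' ∈ lin V₀ := bij2.mapsTo hχ'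
  have hp : ℓ.Prime := Fact.out
  have hl0 : (ℓ : ℂ) ≠ 0 := by exact_mod_cast hp.ne_zero
  obtain ⟨c₁, hc₁⟩ : ∃ c : ℂ, c = (Nat.card (B.C (p1 L)) : ℂ) := ⟨_, rfl⟩
  obtain ⟨c₂, hc₂⟩ : ∃ c : ℂ, c = (Nat.card (B.C (p2 L)) : ℂ) := ⟨_, rfl⟩
  obtain ⟨K₁, hK₁⟩ : ∃ c : ℂ, c = c₁ / (ℓ ^ 2 * B.D (p1 L)) := ⟨_, rfl⟩
  obtain ⟨K₂, hK₂⟩ : ∃ c : ℂ, c = c₂ / (ℓ ^ 2 * B.D (p2 L)) := ⟨_, rfl⟩
  obtain ⟨a, ha⟩ : ∃ a : V₀ → ℂ, a = fun x =>
    starRingEnd ℂ (lam B (p1 L) χ x) / ((ux B.U (p1 L) x : ℚ) : ℂ) := ⟨_, rfl⟩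
  obtain ⟨b, hb⟩ : ∃ a : V₀ → ℂ, a = fun x =>
    starRingEnd ℂ (lam B (p2 L) χ' x) / ((ux B.U (p2 L) x : ℚ) : ℂ) := ⟨_, rfl⟩
  have hX : ∀ h : G, χ h = K₁ * ∑ x, a x * fc B (p1 L) x h⁻¹ := by
    intro h
    by_cases hh : h ∈ B.C (p1 L)
    · rw [inv1 χ hχ h hh, finsum_eq_sum_of_fintype, hK₁, hc₁, ha]
    · rw [hχ.1 h hh, Finset.sum_eq_zero, mul_zero]
      intro x _
      rw [fc_out _ _ (fun h0 => hh (by simpa using (B.C (p1 L)).inv_mem h0)), mul_zero]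
  have hX' : ∀ h : G, χ' h = K₂ * ∑ x, b x * fc B (p2 L) x h⁻¹ := by
    intro h
    by_cases hh : h ∈ B.C (p2 L)
    · rw [inv2 χ' hχ' h hh, finsum_eq_sum_of_fintype, hK₂, hc₂, hb]
    · rw [hχ'.1 h hh, Finset.sum_eq_zero, mul_zero]
      intro x _
      rw [fc_out _ _ (fun h0 => hh (by simpa using (B.C (p2 L)).inv_mem h0)), mul_zero]
  -- the set of conditions with opposite exponents
  obtain ⟨Lm, hLm⟩ : ∃ Lm : Set (V₀ × V₀ × ℤ), Lm = {s | (s.1, s.2.1, -s.2.2) ∈ L} := ⟨_, rfl⟩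
  have hp1 : p1 Lm = p1 L := by
    unfold p1
    congr 1
    ext p
    constructor
    · rintro ⟨s, hs, rfl⟩
      rw [hLm] at hs
      exact ⟨_, hs, rfl⟩
    · rintro ⟨s, hs, rfl⟩
      refine ⟨(s.1, s.2.1, -s.2.2), ?_, rfl⟩
      rw [hLm]
      change (s.1, s.2.1, - -s.2.2) ∈ L
      rw [neg_neg]
      exact hs
  have hp2 : p2 Lm = p2 L := by
    unfold p2
    congr 1
    ext p
    constructor
    · rintro ⟨s, hs, rfl⟩
      rw [hLm] at hs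
      exact ⟨_, hs, rfl⟩
    · rintro ⟨s, hs, rfl⟩
      refine ⟨(s.1, s.2.1, -s.2.2), ?_, rfl⟩
      rw [hLm]
      change (s.1, s.2.1, - -s.2.2) ∈ L
      rw [neg_neg]
      exact hs
  obtain ⟨E, hE⟩ : ∃ E : V₀ → ℂ, E = fun x =>
    ℓ ^ 2 * B.D (p1 L ⊔ Subgroup.zpowers x) ^ 2 /
      (Nat.card (B.C (p1 L ⊔ Subgroup.zpowers x)) : ℂ) ^ 2 := ⟨_, rfl⟩
  -- the inner sum
  have hT : ∀ x x' : V₀, (∑ w : G × G, if (∀ s ∈ L, w.2 * B.i s.2.1 * w.2⁻¹ =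
      B.i s.1 * (w.1 ^ m) ^ s.2.2) then fc B (p1 L) x w.1⁻¹ * fc B (p2 L) x' (w.2⁻¹ * w.1 * w.2)
      else 0) = c₁ * c₂ * E x * ∑ τ : MulAut V₀,
        if (τ ∈ E₀ ∧ τ x = x'⁻¹ ∧ ∀ s ∈ Lm, τ (s.1 * x ^ s.2.2) = s.2.1) then (1 : ℂ) else 0 := by
    intro x x'
    have h3 := hGPR ℓ M hM h2 V₀ G E₀ hFr B hB n m hPE Lm (hp1 ▸ h1) (hp2 ▸ h2') x x'⁻¹
    rw [finsum_mem_ite, hp1, hp2, inv_inv, ncard_ite, ← hc₁, ← hc₂] at h3
    have hEx : E x = ℓ ^ 2 * B.D (p1 L ⊔ Subgroup.zpowers x) ^ 2 /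
      (Nat.card (B.C (p1 L ⊔ Subgroup.zpowers x)) : ℂ) ^ 2 := by rw [hE]
    rw [hEx]
    rw [← h3]
    rw [← Equiv.sum_comp (Equiv.prodCongr (Equiv.inv G) (Equiv.refl G))]
    refine Finset.sum_congr rfl fun w _ => ?_
    change (if (∀ s ∈ L, w.2 * B.i s.2.1 * w.2⁻¹ = B.i s.1 * (w.1⁻¹ ^ m) ^ s.2.2) then
      fc B (p1 L) x (w.1⁻¹)⁻¹ * fc B (p2 L) x' (w.2⁻¹ * w.1⁻¹ * w.2) else 0) = _
    rw [inv_inv]
    refine if_congr ?_ rfl rfl
    constructor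
    · intro h s hs
      rw [hLm] at hs
      have := h _ hs
      simp only at this
      rw [this, inv_pow, zpow_neg, inv_zpow, inv_inv]
    · intro h s hs
      have h4 : (s.1, s.2.1, -s.2.2) ∈ Lm := by
        rw [hLm]
        change (s.1, s.2.1, - -s.2.2) ∈ L
        rw [neg_neg]
        exact hs
      have := h _ h4
      simp only at this
      rw [this, inv_pow, inv_zpow, zpow_neg]
  -- the expansion
  have hS : SL B m L χ χ' = K₁ * K₂ * ∑ x, ∑ x', a x * b x' * (∑ w : G × G,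
      if (∀ s ∈ L, w.2 * B.i s.2.1 * w.2⁻¹ = B.i s.1 * (w.1 ^ m) ^ s.2.2) then
        fc B (p1 L) x w.1⁻¹ * fc B (p2 L) x' (w.2⁻¹ * w.1 * w.2) else 0) := by
    unfold SL
    rw [finsum_mem_ite]
    have h3 : ∀ w : G × G, (if (∀ s ∈ L, w.2 * B.i s.2.1 * w.2⁻¹ = B.i s.1 * (w.1 ^ m) ^ s.2.2) then
        χ w.1 * χ' (w.2⁻¹ * w.1⁻¹ * w.2) else 0) = ∑ x, ∑ x', K₁ * K₂ * (a x * b x' *
        (if (∀ s ∈ L, w.2 * B.i s.2.1 * w.2⁻¹ = B.i s.1 * (w.1 ^ m) ^ s.2.2) then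
        fc B (p1 L) x w.1⁻¹ * fc B (p2 L) x' (w.2⁻¹ * w.1 * w.2) else 0)) := by
      intro w
      by_cases hw : ∀ s ∈ L, w.2 * B.i s.2.1 * w.2⁻¹ = B.i s.1 * (w.1 ^ m) ^ s.2.2
      · rw [if_pos hw, hX, hX']
        simp only [if_pos hw]
        have e1 : (w.2⁻¹ * w.1⁻¹ * w.2)⁻¹ = w.2⁻¹ * w.1 * w.2 := by group
        rw [e1, mul_mul_mul_comm, Finset.sum_mul_sum, Finset.mul_sum]
        refine Finset.sum_congr rfl fun x _ => ?_
        rw [Finset.mul_sum]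
        refine Finset.sum_congr rfl fun x' _ => ?_
        ring
      · rw [if_neg hw]
        simp only [if_neg hw, mul_zero, Finset.sum_const_zero]
    rw [Finset.sum_congr rfl fun w _ => h3 w, Finset.sum_comm, Finset.mul_sum]
    refine Finset.sum_congr rfl fun x _ => ?_
    rw [Finset.sum_comm, Finset.mul_sum]
    refine Finset.sum_congr rfl fun x' _ => ?_
    rw [Finset.mul_sum, Finset.mul_sum]
  -- the pointwise identity
  have key : ∀ τ ∈ E₀, ∀ y : V₀, (∀ s ∈ L, τ (s.1 * y ^ s.2.2) = s.2.1) →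
      K₁ * K₂ * (a y⁻¹ * b (τ y⁻¹)⁻¹ * (c₁ * c₂ * E y⁻¹)) =
        c₁ * c₂ / ℓ ^ 2 * (B.S (p1 L) * B.S (p2 L)) *
          (lam B (p1 L) χ y * starRingEnd ℂ (lam B (p2 L) χ' (τ y))) := by
    intro τ hτ y hy
    have hmap := map_eq L τ y hy
    have hW : Rw E₀ (p1 L ⊔ Subgroup.zpowers y) := rw_mono h1 le_sup_left
    obtain ⟨t, ht, hti⟩ := hB.sur τ hτ
    have hcj := hCJT ℓ M hM h2 V₀ G E₀ hFr B hB.toSb τ hτ t ht hti (p1 L ⊔ Subgroup.zpowers y)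
    have hcc := hcj.2.2.1
    have hdd := (hcj.2.2.2.2.2 hB hW).1
    rw [hmap] at hcc hdd
    have hep := eps_eq hCJT hM h2 hFr hB h1 h2' hτ hmap
    have q1 := deg_quot hFr.cd hB h1 y
    have q2 := deg_quot hFr.cd hB h2' (τ y)
    rw [hcc, hdd] at q2
    have u1 := ux_ne hB h1 y
    have u2 := ux_ne hB h2' (τ y)
    have d1 := (D_pos hB h1).ne'
    have d2 := (D_pos hB h2').ne'
    have cw := (C_pos (B := B) (p1 L ⊔ Subgroup.zpowers y)).ne'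
    have e1 : (ep B (p1 L) y : ℚ) = (B.D (p1 L ⊔ Subgroup.zpowers y) : ℚ) *
        Nat.card (B.C (p1 L)) / (ux B.U (p1 L) y *
          (Nat.card (B.C (p1 L ⊔ Subgroup.zpowers y)) * B.D (p1 L))) := by
      rw [eq_div_iff (mul_ne_zero u1 (mul_ne_zero cw d1)), q1]
      ring
    have e2 : (ep B (p2 L) (τ y) : ℚ) = (B.D (p1 L ⊔ Subgroup.zpowers y) : ℚ) *
        Nat.card (B.C (p2 L)) / (ux B.U (p2 L) (τ y) *
          (Nat.card (B.C (p1 L ⊔ Subgroup.zpowers y)) * B.D (p2 L))) := by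
      rw [eq_div_iff (mul_ne_zero u2 (mul_ne_zero cw d2)), q2]
      ring
    have hepC : ((ep B (p1 L) y : ℚ) : ℂ) * ((ep B (p2 L) (τ y) : ℚ) : ℂ) =
        B.S (p1 L) * B.S (p2 L) := by
      exact_mod_cast congrArg (fun z : ℚ => (z : ℂ)) hep
    rw [← hepC, e1, e2]
    push_cast
    rw [← hc₁, ← hc₂]
    have ei : (τ y⁻¹)⁻¹ = τ y := by rw [map_inv, inv_inv]
    rw [ei, ha, hb, hE, hK₁, hK₂]
    simp only
    rw [lin_conj hl1, ux_inv, Subgroup.zpowers_inv]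
    have u1' : ((ux B.U (p1 L) y : ℚ) : ℂ) ≠ 0 := by exact_mod_cast u1
    have u2' : ((ux B.U (p2 L) (τ y) : ℚ) : ℂ) ≠ 0 := by exact_mod_cast u2
    have d1' : (B.D (p1 L) : ℂ) ≠ 0 := by exact_mod_cast d1
    have d2' : (B.D (p2 L) : ℂ) ≠ 0 := by exact_mod_cast d2
    have cw' : (Nat.card (B.C (p1 L ⊔ Subgroup.zpowers y)) : ℂ) ≠ 0 := by exact_mod_cast cw
    field_simp
  -- assembly
  have hR : (∑ᶠ w ∈ {w : MulAut V₀ × V₀ | w.1 ∈ E₀ ∧ ∀ s ∈ L, w.1 (s.1 * w.2 ^ s.2.2) = s.2.1},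
      lam B (p1 L) χ w.2 * starRingEnd ℂ (lam B (p2 L) χ' (w.1 w.2))) =
      ∑ y : V₀, ∑ τ : MulAut V₀, if (τ ∈ E₀ ∧ ∀ s ∈ L, τ (s.1 * y ^ s.2.2) = s.2.1) then
      lam B (p1 L) χ y * starRingEnd ℂ (lam B (p2 L) χ' (τ y)) else 0 := by
    rw [finsum_mem_ite, Fintype.sum_prod_type, Finset.sum_comm]
  rw [hS]
  simp only [hT]
  rw [hR, ← hc₁, ← hc₂, Finset.mul_sum, Finset.mul_sum, ← Equiv.sum_comp (Equiv.inv V₀)]
  refine Finset.sum_congr rfl fun y _ => ?_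
  change K₁ * K₂ * ∑ x', a y⁻¹ * b x' * (c₁ * c₂ * E y⁻¹ * ∑ τ : MulAut V₀,
        if (τ ∈ E₀ ∧ τ y⁻¹ = x'⁻¹ ∧ ∀ s ∈ Lm, τ (s.1 * y⁻¹ ^ s.2.2) = s.2.1) then (1 : ℂ) else 0) = _
  have h5 : ∀ x' : V₀, a y⁻¹ * b x' * (c₁ * c₂ * E y⁻¹ * ∑ τ : MulAut V₀,
        if (τ ∈ E₀ ∧ τ y⁻¹ = x'⁻¹ ∧ ∀ s ∈ Lm, τ (s.1 * y⁻¹ ^ s.2.2) = s.2.1) then (1 : ℂ) else 0) =
      ∑ τ : MulAut V₀, if x' = (τ y⁻¹)⁻¹ then
        (if (τ ∈ E₀ ∧ ∀ s ∈ Lm, τ (s.1 * y⁻¹ ^ s.2.2) = s.2.1) then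
          a y⁻¹ * b x' * (c₁ * c₂ * E y⁻¹) else 0) else 0 := by
    intro x'
    rw [Finset.mul_sum, Finset.mul_sum]
    refine Finset.sum_congr rfl fun τ _ => ?_
    by_cases hx : x' = (τ y⁻¹)⁻¹
    · have hx' : τ y⁻¹ = x'⁻¹ := by rw [hx, inv_inv]
      rw [if_pos hx]
      by_cases hc : τ ∈ E₀ ∧ ∀ s ∈ Lm, τ (s.1 * y⁻¹ ^ s.2.2) = s.2.1
      · rw [if_pos hc, if_pos ⟨hc.1, hx', hc.2⟩, mul_one]
      · rw [if_neg hc, if_neg (fun h0 => hc ⟨h0.1, h0.2.2⟩), mul_zero, mul_zero]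
    · rw [if_neg hx, if_neg (fun h0 => hx (by rw [h0.2.1, inv_inv])), mul_zero, mul_zero]
  rw [Finset.sum_congr rfl fun x' _ => h5 x', Finset.sum_comm, Finset.mul_sum, Finset.mul_sum]
  refine Finset.sum_congr rfl fun τ _ => ?_
  rw [Finset.sum_ite_eq' Finset.univ, if_pos (Finset.mem_univ _)]
  have h6 : (∀ s ∈ Lm, τ (s.1 * y⁻¹ ^ s.2.2) = s.2.1) ↔ ∀ s ∈ L, τ (s.1 * y ^ s.2.2) = s.2.1 := by
    constructor
    · intro h s hs
      have h4 : (s.1, s.2.1, -s.2.2) ∈ Lm := by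
        rw [hLm]
        change (s.1, s.2.1, - -s.2.2) ∈ L
        rw [neg_neg]
        exact hs
      have := h _ h4
      simp only at this
      rw [inv_zpow, zpow_neg, inv_inv] at this
      exact this
    · intro h s hs
      rw [hLm] at hs
      have := h _ hs
      simp only at this
      rw [zpow_neg] at this
      rw [inv_zpow]
      exact this
  by_cases hc : τ ∈ E₀ ∧ ∀ s ∈ L, τ (s.1 * y ^ s.2.2) = s.2.1
  · rw [if_pos hc, if_pos ⟨hc.1, h6.2 hc.2⟩]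
    exact key τ hc.1 y hc.2
  · rw [if_neg hc, if_neg (fun h0 => hc ⟨h0.1, h6.1 h0.2⟩), mul_zero, mul_zero]

end Pool.Agent.PP.SD.H44
end
end -- Pool.Agent.Helper44_ASD.SSD

section -- Pool.Agent.Helper67_ASE.RNA

/-!
# ASE row RNA: `d1`, `d2`, `d3`, `d4` for `Rw E₀ W`
-/

open scoped BigOperators

set_option linter.unusedSectionVars false

noncomputable section

namespace Pool.Agent.PP.SE.H67

open Pool.Agent.Helper51_AWC Pool.Agent.Helper79_WRA Pool.Agent.PP Pool.Agent.PP.KF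
open Pool.Agent.PP.K9 Pool.Agent.PP.K9.H97 Pool.Agent.PP.H75 Pool.Agent.PP.T3 Pool.Agent.PP.SO
open Pool.Agent.PP.SD Pool.Agent.PP.SE

attribute [local instance] Ideal.Quotient.field

section blk

variable {ℓ : ℕ} [Fact ℓ.Prime] {V₀ G : Type} [CommGroup V₀] [Group G]
  {M : Ideal (integralClosure ℤ ℂ)} [M.IsMaximal] [Finite V₀] [Finite G]
  {E₀ : Subgroup (MulAut V₀)} (B : Bk (FF M) V₀ G)

/-- the central character at `fc W x` if `W` and `x` generate `V₀` -/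
theorem cv_fc_top {W : Subgroup V₀} {x : V₀} (hxt : W ⊔ Subgroup.zpowers x = ⊤) {χ : G → ℂ}
    (hχc : ∀ z ∈ B.C W, ∀ g, χ (z * g * z⁻¹) = χ g) :
    cv (fc B W x) χ = Nat.card (B.C W) / (Nat.card (B.C ⊤) * χ 1) *
      ∑ᶠ s, bh B ⊤ s * χ (B.i x * s) := by
  classical
  have := Fintype.ofFinite G
  have := Fintype.ofFinite (B.C W)
  have h1 : ∑ᶠ g, fc B W x g * χ g = (Nat.card (B.C ⊤) : ℂ)⁻¹ *
      (Nat.card (B.C W) * ∑ s, bh B ⊤ s * χ (B.i x * s)) := by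
    have h2 : ∀ g, fc B W x g * χ g = (Nat.card (B.C ⊤) : ℂ)⁻¹ *
        ∑ z : B.C W, bh B ⊤ ((B.i x)⁻¹ * ((z : G)⁻¹ * g * z)) *
          χ ((z : G)⁻¹ * g * z) := by
      intro g
      unfold fc
      rw [hxt, finsum_eq_sum_of_fintype, mul_assoc, Finset.sum_mul]
      congr 1
      refine Finset.sum_congr rfl fun z _ => ?_
      have h3 := hχc (z : G)⁻¹ ((B.C W).inv_mem z.2) g
      rw [inv_inv] at h3
      rw [h3]
    rw [finsum_eq_sum_of_fintype, Finset.sum_congr rfl fun g _ => h2 g, ← Finset.mul_sum,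
      Finset.sum_comm]
    congr 1
    have h3 : ∀ z : B.C W, ∑ g, bh B ⊤ ((B.i x)⁻¹ * ((z : G)⁻¹ * g * z)) *
        χ ((z : G)⁻¹ * g * z) = ∑ s, bh B ⊤ s * χ (B.i x * s) := by
      intro z
      rw [← Equiv.sum_comp (MulAut.conj (z : G)).toEquiv,
        ← Equiv.sum_comp (Equiv.mulLeft (B.i x))]
      refine Finset.sum_congr rfl fun s _ => ?_
      show bh B ⊤ ((B.i x)⁻¹ * ((z : G)⁻¹ * (z * (B.i x * s) * (z : G)⁻¹) * z)) *
        χ ((z : G)⁻¹ * (z * (B.i x * s) * (z : G)⁻¹) * z) = _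
      have h4 : (z : G)⁻¹ * (z * (B.i x * s) * (z : G)⁻¹) * z = B.i x * s := by group
      rw [h4, inv_mul_cancel_left]
    rw [Finset.sum_congr rfl fun z _ => h3 z, Finset.sum_const, Finset.card_univ,
      nsmul_eq_mul, Nat.card_eq_fintype_card]
  unfold cv
  rw [h1, finsum_eq_sum_of_fintype]
  field_simp

/-- `fc W w` for `w ∈ W` -/
theorem fc_mem {W : Subgroup V₀} {w : V₀} (hw : w ∈ W) : fc B W w = tk B w (fc B W 1) := by
  funext g
  unfold tk fc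
  have e1 : W ⊔ Subgroup.zpowers w = W := sup_eq_left.2 ((Subgroup.zpowers_le).2 hw)
  have e2 : W ⊔ Subgroup.zpowers (1 : V₀) = W := sup_eq_left.2 ((Subgroup.zpowers_le).2 W.one_mem)
  rw [e1, e2]
  congr 1
  refine finsum_congr fun z => ?_
  congr 1
  have h3 : B.i w * z = z * B.i w := (H33.mem_C B).1 z.2 w hw
  have h4 : (B.i w)⁻¹ * (z : G)⁻¹ = (z : G)⁻¹ * (B.i w)⁻¹ := by
    rw [← mul_inv_rev, ← mul_inv_rev, h3]
  rw [map_one, inv_one, one_mul, ← mul_assoc, ← mul_assoc, h4]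
  group

end blk

/-- a stabiliser with one element -/
theorem St_triv {V₀ : Type} [CommGroup V₀] {E₀ : Subgroup (MulAut V₀)} {W : Subgroup V₀}
    (h : Rw E₀ W) {τ : MulAut V₀} : τ ∈ St E₀ W ↔ τ = 1 := by
  constructor
  · intro hτ
    exact h.2 τ hτ.1 hτ.2
  · rintro rfl
    exact Subgroup.one_mem _

theorem rna (hNsd : NsdStmt) (hCzb : CzbStmt) : RnaStmt := by
  classical
  intro ℓ _ M _ hM hl2 V₀ G _ _ _ _ E₀ hq B hB W hW D hD
  have := Fintype.ofFinite V₀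
  have htop : Rw E₀ (⊤ : Subgroup V₀) := SD.H44.rw_top hW
  obtain ⟨nbij, ncv, -, -, -, -, -⟩ := hNsd ℓ M hM hl2 V₀ G E₀ hq B hB W hW
  obtain ⟨tfc, -, ttk, -, -, -, tch, tfin⟩ := hCzb ℓ M hM hl2 V₀ G E₀ hq B hB.toSb W
  have hStop : B.S ⊤ = 1 := SD.H44.S_top hB hl2 htop
  have hSsq : (B.S W : ℂ) * B.S W = 1 := by
    have := SD.H44.S_sq hB hW
    exact_mod_cast congrArg (fun q : ℚ => (q : ℂ)) this
  have hS0 : (B.S W : ℂ) ≠ 0 := by
    intro h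
    rw [h, zero_mul] at hSsq
    exact zero_ne_one hSsq
  obtain ⟨hD0, hDg⟩ := hB.dg W hW
  obtain ⟨hD0t, -⟩ := hB.dg ⊤ htop
  have hDW : (B.D W : ℂ) ≠ 0 := by exact_mod_cast hD0.ne'
  have hDt : (B.D ⊤ : ℂ) ≠ 0 := by exact_mod_cast hD0t.ne'
  have hCt : (Nat.card (B.C ⊤) : ℂ) ≠ 0 := by exact_mod_cast Nat.card_pos.ne'
  have hCW : (Nat.card (B.C W) : ℂ) ≠ 0 := by exact_mod_cast Nat.card_pos.ne'
  have hχ1 : ∀ χ ∈ Ch B W, χ 1 = B.D W := fun χ hχ => hDg _ hχ.2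
  have hSt : (St E₀ W) = ⊥ := by
    rw [Subgroup.eq_bot_iff_forall]
    exact fun τ hτ => (St_triv hW).1 hτ
  have hnS : nS E₀ W = 1 := by
    unfold nS
    rw [hSt, Subgroup.card_bot]
  have hux : ∀ c, ux D.U W c = ux B.U W c := by
    intro c
    unfold ux
    rw [hD.dU]
  have hfm : ∀ c, fm ℓ E₀ B D W c = fc B W c := by
    intro c
    funext g
    unfold fm
    rw [hnS, hD.de]
    have e1 : (if c ∈ W then ((1 : ℕ) : ℂ) else 1) = 1 := by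
      by_cases h : c ∈ W
      · rw [if_pos h, Nat.cast_one]
      · rw [if_neg h]
    have e2 : (if c ∈ W then (0 : ℂ) else tk B (pr ℓ E₀ W c) (0 : G → ℂ) g) = 0 := by
      by_cases h : c ∈ W
      · rw [if_pos h]
      · rw [if_neg h]
        rfl
    rw [e1, e2, one_mul, sub_zero]
  have hUt : B.U ⊤ = 1 := by
    unfold Bk.U
    rw [hStop]
    have h1 : (Nat.card (B.C ⊤) : ℚ) ≠ 0 := by exact_mod_cast Nat.card_pos.ne'
    have h2 : (B.D ⊤ : ℚ) ≠ 0 := by exact_mod_cast hD0t.ne'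
    field_simp
    norm_num
  have hlam : ∀ χ ∈ Ch B W, lam B W χ ∈ lin V₀ := fun χ hχ => nbij.1 hχ
  refine ⟨⟨hnS, ?_, hfm⟩, ?_, ?_, ?_, ?_⟩
  · rintro rfl
    rw [hD.dU, hUt]
  · -- d1
    intro χ hχ x hx
    obtain ⟨-, -, -, -, hcl⟩ := tch χ hχ
    rw [hD.dD χ hχ]
    rcases hx with hx | hx
    · have h1 := cv_fc_top B (H33.sup_top hq.cd hW.1 hx) hcl
      rw [ncv χ hχ x, hχ1 χ hχ] at h1
      have h2 : ((ux B.U W x : ℚ) : ℂ) =
          B.S W * Nat.card (B.C W) * B.D ⊤ / (Nat.card (B.C ⊤) * B.D W) := by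
        unfold ux Bk.U
        rw [if_neg hx]
        push_cast
        rfl
      rw [h2] at h1
      have h3 : (B.D ⊤ : ℂ) * (B.S W * lam B W χ x) =
          (Nat.card (B.C ⊤) * B.D W / Nat.card (B.C W)) *
          (B.S W * Nat.card (B.C W) * B.D ⊤ / (Nat.card (B.C ⊤) * B.D W) * lam B W χ x) := by
        field_simp
      rw [h3, h1]
      field_simp
    · subst hx
      have h1 := cv_fc_top B (W := ⊤) (x := x) (top_sup_eq _) hcl
      rw [ncv χ hχ x, hχ1 χ hχ] at h1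
      have h2 : ((ux B.U ⊤ x : ℚ) : ℂ) = 1 := by
        unfold ux
        rw [if_pos (Subgroup.mem_top x), Rat.cast_one]
      rw [h2, one_mul] at h1
      rw [h1, hStop]
      push_cast
      field_simp
  · -- d2
    intro χ hχ
    have hl := hlam χ hχ
    refine ⟨?_, ?_, ?_⟩
    · rw [hD.dD χ hχ, hl.1, mul_one]
      exact hS0
    · intro x
      rw [hD.dD χ hχ, hD.dD χ hχ, map_mul, SO.H10W.lin_conj hl]
      congr 1
      exact map_intCast _ _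
    · intro w hw x
      have h1 : lam B W χ w = nu B χ w := by
        have h2 := (ttk (fc B W 1) (tfc 1) w hw).2 χ hχ
        have h3 : ∀ v ∈ W, ((ux B.U W v : ℚ) : ℂ) = 1 := by
          intro v hv
          unfold ux
          rw [if_pos hv, Rat.cast_one]
        rw [← fc_mem B hw, ncv χ hχ, ncv χ hχ, h3 w hw, h3 1 W.one_mem, hl.1] at h2
        linear_combination h2
      rw [hD.dD χ hχ, hD.dD χ hχ, hl.2, h1]
      ring
  · -- d3
    intro χ hχ c x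
    have hl := hlam χ hχ
    have h1 : ∑ᶠ τ : St E₀ W, D.D W χ (x * (τ : MulAut V₀) c) = D.D W χ (x * c) := by
      have hu : Unique (St E₀ W) := by
        refine ⟨⟨1⟩, ?_⟩
        rintro ⟨τ, hτ⟩
        exact Subtype.ext ((St_triv hW).1 hτ)
      rw [finsum_unique]
      have h2 : ((default : St E₀ W) : MulAut V₀) = 1 := (St_triv hW).1 (default : St E₀ W).2
      rw [h2]
      rfl
    rw [h1, hfm, hux, ncv χ hχ, hD.dD χ hχ, hD.dD χ hχ, hl.2]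
    ring
  · -- d4
    intro x y
    have h1 : ∑ᶠ χ ∈ Ch B W, D.D W χ x * starRingEnd ℂ (D.D W χ y) =
        ∑ᶠ μ ∈ lin V₀, μ (x * y⁻¹) := by
      refine finsum_mem_eq_of_bijOn (lam B W) nbij fun χ hχ => ?_
      have hl := hlam χ hχ
      rw [hD.dD χ hχ, hD.dD χ hχ, map_mul, SO.H10W.lin_conj hl, map_intCast, hl.2]
      linear_combination (lam B W χ x * lam B W χ y⁻¹) * hSsq
    have hlf : (lin V₀).Finite := by
      have h2 := tfin.image (lam B W)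
      rwa [nbij.image_eq] at h2
    rw [h1, finsum_mem_eq_finite_toFinset_sum _ hlf, SO.H10W.lin_sum hlf, hq.cd]
    by_cases hxy : x = y
    · subst hxy
      have h3 : {τ : MulAut V₀ | τ ∈ St E₀ W ∧ τ x = x} = {1} := by
        ext τ
        rw [Set.mem_ofPred_eq, Set.mem_singleton_iff, St_triv hW]
        constructor
        · exact fun h => h.1
        · rintro rfl
          exact ⟨rfl, rfl⟩
      rw [if_pos (mul_inv_cancel x), h3, Set.ncard_singleton]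
      push_cast
      ring
    · have h3 : {τ : MulAut V₀ | τ ∈ St E₀ W ∧ τ x = y} = ∅ := by
        rw [Set.eq_empty_iff_forall_notMem]
        rintro τ ⟨h4, h5⟩
        rw [St_triv hW] at h4
        subst h4
        exact hxy h5
      rw [if_neg (fun h => hxy (mul_inv_eq_one.1 h)), h3, Set.ncard_empty]
      push_cast
      ring

end Pool.Agent.PP.SE.H67
end
end -- Pool.Agent.Helper67_ASE.RNA

section -- Pool.Agent.Helper86_ASE.RPV

/-!
# Squad ASE, row RPV: the values of `rip` for characters with the same central character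
-/

open scoped BigOperators

set_option autoImplicit false

noncomputable section

namespace Pool.Agent.PP.SE.H86

open Pool.Agent.Helper51_AWC Pool.Agent.Helper79_WRA Pool.Agent.PP Pool.Agent.PP.KF
open Pool.Agent.PP.K9 Pool.Agent.PP.K9.H97 Pool.Agent.PP.H75 Pool.Agent.PP.T3 Pool.Agent.PP.SO
open Pool.Agent.PP.SD Pool.Agent.PP.SE

attribute [local instance] Ideal.Quotient.field

theorem rpv_conj {V₀ : Type} [CommGroup V₀] [Finite V₀] {s : V₀ → ℂ} (hs : s ∈ lin V₀) (v : V₀) :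
    s v * starRingEnd ℂ (s v) = 1 := by
  have hpow : ∀ n : ℕ, s (v ^ n) = s v ^ n := by
    intro n
    induction n with
    | zero => rw [pow_zero, pow_zero, hs.1]
    | succ n ih => rw [pow_succ, pow_succ, hs.2, ih]
  have h1 : s v ^ Nat.card V₀ = 1 := by
    rw [← hpow, pow_card_eq_one', hs.1]
  have h2 : ‖s v‖ = 1 := Complex.norm_eq_one_of_pow_eq_one h1 Nat.card_pos.ne'
  rw [Complex.mul_conj, Complex.normSq_eq_norm_sq, h2]
  norm_num

theorem rpv_lk {V₀ : Type} [CommGroup V₀] {W : Subgroup V₀} {s s' : V₀ → ℂ}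
    (hs : s ∈ lk W) (hs' : s' ∈ lk W) : (fun v => s v * starRingEnd ℂ (s' v)) ∈ lk W := by
  refine ⟨⟨?_, ?_⟩, ?_⟩
  · simp [hs.1.1, hs'.1.1]
  · intro v w
    simp only [hs.1.2, hs'.1.2, map_mul]
    ring
  · intro w hw
    simp [hs.2 w hw, hs'.2 w hw]

theorem rpv_ne {V₀ : Type} [CommGroup V₀] [Finite V₀] {s s' : V₀ → ℂ}
    (hs' : s' ∈ lin V₀) (h : s ≠ s') : (fun v => s v * starRingEnd ℂ (s' v)) ≠ fun _ => 1 := by
  intro he
  apply h
  funext v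
  have h1 : s v * starRingEnd ℂ (s' v) = 1 := congrFun he v
  have h2 := rpv_conj hs' v
  have h3 : starRingEnd ℂ (s' v) ≠ 0 := by
    intro h0
    rw [h0, mul_zero] at h2
    exact zero_ne_one h2
  exact mul_right_cancel₀ h3 (h1.trans h2.symm)

theorem rpv (gea : GeaStmt) (gec : GecStmt) (rps : RpsStmt) (vxm : VxmStmt) : RpvStmt := by
  classical
  intro ℓ _ M _ hM hℓ V₀ G _ _ _ _ E₀ hE B hB W hW ν hν N e O hL χ hχ ψ hψ
  have _i : Fintype V₀ := Fintype.ofFinite V₀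
  have hlp : ℓ.Prime := Fact.out
  have hl0 : (ℓ : ℂ) ≠ 0 := by exact_mod_cast hlp.ne_zero
  have hn0 : (nS E₀ W : ℂ) ≠ 0 := by
    have := hW.2
    exact_mod_cast (by omega : nS E₀ W ≠ 0)
  obtain ⟨⟨-, -, -, hk, hWk, -, -, -⟩, hpr1, hprm, hprW, hprk, -⟩ := gea ℓ V₀ E₀ hE W hW
  obtain ⟨-, -, -, -, -, -, -, -, horb, hcard, -, hsum, -⟩ := gec ℓ V₀ E₀ hE W hW
  set n : ℕ := nS E₀ W with hn
  set k : Subgroup V₀ := kW E₀ W with hkdef
  set K1 : Finset V₀ := Finset.univ.filter (fun y => y ∈ k ∧ y ≠ 1) with hK1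
  have hKK : Finset.univ.filter (fun y => y ∈ k) = insert (1 : V₀) K1 := by
    ext y
    simp only [hK1, Finset.mem_filter, Finset.mem_univ, true_and, Finset.mem_insert]
    constructor
    · intro h
      by_cases hy : y = 1
      · exact Or.inl hy
      · exact Or.inr ⟨h, hy⟩
    · rintro (rfl | h)
      · exact k.one_mem
      · exact h.1
  have h1K : (1 : V₀) ∉ K1 := by
    simp [hK1]
  have hcardk : (Finset.univ.filter (fun y => y ∈ k)).card = ℓ := by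
    rw [← hk]
    rw [Nat.card_eq_fintype_card, Fintype.card_subtype]
  have hcardW : (Finset.univ.filter (fun y => y ∈ W)).card = ℓ := by
    rw [← hW.1]
    rw [Nat.card_eq_fintype_card, Fintype.card_subtype]
  have hK1card : (K1.card : ℂ) = ℓ - 1 := by
    have h1 : K1.card + 1 = ℓ := by
      rw [← hcardk, hKK, Finset.card_insert_of_notMem h1K]
    rw [← h1]
    push_cast
    ring
  -- sums of linear characters
  have hsum1 : ∀ s ∈ lk W, s ≠ (fun _ => 1) → ∑ y ∈ K1, s y = -1 := by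
    intro s hs hs1
    have h1 := hsum s hs hs1
    have h2 : (k : Set V₀) = ↑(Finset.univ.filter (fun y => y ∈ k)) := by
      ext y
      simp
    rw [h2, finsum_mem_coe_finset, hKK, Finset.sum_insert h1K, hs.1.1] at h1
    linear_combination h1
  have hsum2 : ∀ s ∈ lk W, ∀ s' ∈ lk W, ∑ y ∈ K1, s y * starRingEnd ℂ (s' y) =
      (if s = s' then (ℓ : ℂ) else 0) - 1 := by
    intro s hs s' hs'
    by_cases h : s = s'
    · subst h
      rw [if_pos rfl, Finset.sum_congr rfl fun y _ => rpv_conj hs.1 y, Finset.sum_const,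
        nsmul_eq_mul, mul_one, hK1card]
    · rw [if_neg h, hsum1 _ (rpv_lk hs hs') (rpv_ne hs'.1 h)]
      ring
  -- reduction to `k`
  have key : ∀ χ ∈ Iv B W ν, ∀ ψ ∈ Iv B W ν, ∀ A : ℂ,
      ∑ y ∈ K1, vx B χ y * starRingEnd ℂ (vx B ψ y) = A →
      rip ℓ B W χ ψ = ((if χ = ψ then 1 else 0) - A / (ℓ * n)) / ℓ := by
    intro χ hχ ψ hψ A hA
    have h1 := rps ℓ M hM hℓ V₀ G E₀ hE B hB W hW ν hν χ hχ ψ hψ
    obtain ⟨-, ⟨hχ1, -, -, -, -, hχ2⟩, -⟩ := vxm ℓ M hM hℓ V₀ G E₀ hE B hB W hW χ hχ.1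
    obtain ⟨-, ⟨hψ1, -, -, -, -, hψ2⟩, -⟩ := vxm ℓ M hM hℓ V₀ G E₀ hE B hB W hW ψ hψ.1
    have h2 : ∑ᶠ x ∈ {x : V₀ | x ∉ W}, vx B χ x * starRingEnd ℂ (vx B ψ x) = ℓ * A := by
      have e1 : {x : V₀ | x ∉ W} = ↑(Finset.univ.filter (fun x => x ∉ W)) := by
        ext y
        simp
      rw [e1, finsum_mem_coe_finset]
      have e2 : ∑ x ∈ Finset.univ.filter (fun x => x ∉ W), vx B χ x * starRingEnd ℂ (vx B ψ x) =
          ∑ p ∈ (Finset.univ.filter (fun y => y ∈ W)) ×ˢ K1,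
            vx B χ (p.1 * p.2) * starRingEnd ℂ (vx B ψ (p.1 * p.2)) := by
        refine Finset.sum_bij' (fun x _ => (pr ℓ E₀ W x, x * (pr ℓ E₀ W x)⁻¹))
          (fun p _ => p.1 * p.2) ?_ ?_ ?_ ?_ ?_
        · intro x hx
          have hx' : x ∉ W := (Finset.mem_filter.1 hx).2
          refine Finset.mem_product.2 ⟨Finset.mem_filter.2 ⟨Finset.mem_univ _, (hpr1 x).1⟩,
            Finset.mem_filter.2 ⟨Finset.mem_univ _, (hpr1 x).2, ?_⟩⟩
          intro h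
          apply hx'
          rw [mul_inv_eq_one.1 h]
          exact (hpr1 x).1
        · rintro ⟨w, y⟩ hp
          obtain ⟨hw, hy⟩ := Finset.mem_product.1 hp
          have hw' : w ∈ W := (Finset.mem_filter.1 hw).2
          have hy' : y ∈ k ∧ y ≠ 1 := (Finset.mem_filter.1 hy).2
          refine Finset.mem_filter.2 ⟨Finset.mem_univ _, fun h => hy'.2 ?_⟩
          have h3 : y ∈ W := (Subgroup.mul_mem_cancel_left W hw').1 h
          have h4 : y ∈ W ⊓ k := ⟨h3, hy'.1⟩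
          rw [hWk] at h4
          exact Subgroup.mem_bot.1 h4
        · intro x hx
          change pr ℓ E₀ W x * (x * (pr ℓ E₀ W x)⁻¹) = x
          rw [mul_comm x, mul_inv_cancel_left]
        · rintro ⟨w, y⟩ hp
          obtain ⟨hw, hy⟩ := Finset.mem_product.1 hp
          have hw' : w ∈ W := (Finset.mem_filter.1 hw).2
          have hy' : y ∈ k ∧ y ≠ 1 := (Finset.mem_filter.1 hy).2
          have h3 : pr ℓ E₀ W (w * y) = w := by
            rw [hprm, hprW w hw', hprk y hy'.1, mul_one]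
          change (pr ℓ E₀ W (w * y), w * y * (pr ℓ E₀ W (w * y))⁻¹) = (w, y)
          rw [h3, mul_comm w y, mul_inv_cancel_right]
        · intro x hx
          change vx B χ x * starRingEnd ℂ (vx B ψ x) =
            vx B χ (pr ℓ E₀ W x * (x * (pr ℓ E₀ W x)⁻¹)) *
              starRingEnd ℂ (vx B ψ (pr ℓ E₀ W x * (x * (pr ℓ E₀ W x)⁻¹)))
          rw [mul_comm x (pr ℓ E₀ W x)⁻¹, mul_inv_cancel_left]
      rw [e2, Finset.sum_product]
      have e3 : ∀ w ∈ Finset.univ.filter (fun y => y ∈ W), ∑ y ∈ K1,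
          vx B χ (w * y) * starRingEnd ℂ (vx B ψ (w * y)) = A := by
        intro w hw
        have hw' : w ∈ W := (Finset.mem_filter.1 hw).2
        rw [← hA]
        apply Finset.sum_congr rfl
        intro y _
        rw [hχ1 w hw', hψ1 w hw', map_mul, hχ.2 w hw', hψ.2 w hw']
        have h5 := hψ2 w hw'
        rw [← h5.1, hψ.2 w hw'] at h5
        have h6 := h5.2
        linear_combination (vx B χ y * starRingEnd ℂ (vx B ψ y)) * h6
      rw [Finset.sum_congr rfl e3, Finset.sum_const, hcardW, nsmul_eq_mul]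
    rw [h2, ← hn] at h1
    rw [eq_div_iff hl0, ← h1]
    field_simp
    ring
  -- the orbits
  have hfinO : ∀ χ ∈ Iv B W ν, χ ∉ N → ∃ F : Finset (V₀ → ℂ), (O χ = ↑F) ∧ F.card = n ∧
      ∀ s ∈ F, s ∈ lk W ∧ s ≠ (fun _ => 1) ∧ orb E₀ W s = O χ := by
    intro χ hχ hχN
    obtain ⟨⟨s, hs, hs1, hO⟩, -⟩ := hL.vX χ hχ hχN
    obtain ⟨hc, hss, hst⟩ := hcard s hs hs1
    have hpos : 0 < n := by
      have := hW.2
      omega
    have hf : (O χ).Finite := by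
      rw [hO]
      exact Set.finite_of_ncard_pos (by rw [hc]; exact hpos)
    refine ⟨hf.toFinset, by simp, ?_, ?_⟩
    · rw [← Set.ncard_eq_toFinset_card _ hf, hO, hc]
    · intro t ht
      rw [Set.Finite.mem_toFinset, hO] at ht
      refine ⟨?_, ?_, by rw [hst t ht, hO]⟩
      · obtain ⟨τ, hτ, rfl⟩ := ht
        exact (horb s hs τ hτ).1
      · obtain ⟨τ, hτ, rfl⟩ := ht
        exact ((horb s hs τ hτ).2 hs1).1
  have hsg : ∀ χ ∈ Iv B W ν, ((e χ : ℂ) * e χ = 1) ∧ starRingEnd ℂ (e χ : ℂ) = e χ := by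
    intro χ hχ
    rcases hL.sg χ hχ with h | h <;> rw [h] <;> norm_num
  have hmem : ∀ y ∈ K1, y ∈ k ∧ y ≠ 1 := fun y hy => (Finset.mem_filter.1 hy).2
  refine ⟨fun h1 h2 => ?_, fun h1 h2 => ?_, fun h1 h2 => ?_⟩
  · rw [key χ hχ ψ hψ (e χ * e ψ * (ℓ - 1))]
    · by_cases h : χ = ψ
      · subst h
        rw [if_pos rfl]
        have h3 := (hsg χ hχ).1
        field_simp
        linear_combination (-(ℓ : ℂ) * n) * h3
      · rw [if_neg h]
        field_simp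
        ring
    · have h3 : ∀ y ∈ K1, vx B χ y * starRingEnd ℂ (vx B ψ y) = e χ * e ψ := by
        intro y hy
        rw [hL.vN χ hχ h1 y (hmem y hy).1 (hmem y hy).2, hL.vN ψ hψ h2 y (hmem y hy).1 (hmem y hy).2,
          (hsg ψ hψ).2]
      rw [Finset.sum_congr rfl h3, Finset.sum_const, nsmul_eq_mul, hK1card]
      ring
  · have hne : χ ≠ ψ := by
      rintro rfl
      exact h2 h1
    obtain ⟨F, hF1, hF2, hF3⟩ := hfinO ψ hψ h2
    have hO : ∀ y, ∑ᶠ s ∈ O ψ, s y = ∑ s ∈ F, s y := by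
      intro y
      rw [hF1, finsum_mem_coe_finset]
    have hA : ∑ y ∈ K1, ∑ s ∈ F, s y = -n := by
      rw [Finset.sum_comm, Finset.sum_congr rfl fun s hs => hsum1 s (hF3 s hs).1 (hF3 s hs).2.1,
        Finset.sum_const, hF2, nsmul_eq_mul]
      ring
    have hA' : ∑ y ∈ K1, starRingEnd ℂ (∑ s ∈ F, s y) = -n := by
      rw [← map_sum, hA]
      simp
    constructor
    · rw [key χ hχ ψ hψ (e χ * e ψ * (-n)), if_neg hne]
      · field_simp
        ring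
      · have h3 : ∀ y ∈ K1, vx B χ y * starRingEnd ℂ (vx B ψ y) =
            e χ * e ψ * starRingEnd ℂ (∑ s ∈ F, s y) := by
          intro y hy
          rw [hL.vN χ hχ h1 y (hmem y hy).1 (hmem y hy).2,
            (hL.vX ψ hψ h2).2 y (hmem y hy).1 (hmem y hy).2, map_mul, (hsg ψ hψ).2, hO]
          ring
        rw [Finset.sum_congr rfl h3, ← Finset.mul_sum, hA']
    · rw [key ψ hψ χ hχ (e χ * e ψ * (-n)), if_neg (Ne.symm hne)]
      · field_simp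
        ring
      · have h3 : ∀ y ∈ K1, vx B ψ y * starRingEnd ℂ (vx B χ y) =
            e χ * e ψ * (∑ s ∈ F, s y) := by
          intro y hy
          rw [hL.vN χ hχ h1 y (hmem y hy).1 (hmem y hy).2,
            (hL.vX ψ hψ h2).2 y (hmem y hy).1 (hmem y hy).2, (hsg χ hχ).2, hO]
          ring
        rw [Finset.sum_congr rfl h3, ← Finset.mul_sum, hA]
  · obtain ⟨F, hF1, hF2, hF3⟩ := hfinO χ hχ h1
    obtain ⟨F', hF1', hF2', hF3'⟩ := hfinO ψ hψ h2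
    have hO : ∀ y, ∑ᶠ s ∈ O χ, s y = ∑ s ∈ F, s y := by
      intro y
      rw [hF1, finsum_mem_coe_finset]
    have hO' : ∀ y, ∑ᶠ s ∈ O ψ, s y = ∑ s ∈ F', s y := by
      intro y
      rw [hF1', finsum_mem_coe_finset]
    have hiff : O χ = O ψ ↔ χ = ψ := by
      constructor
      · intro h
        obtain ⟨⟨s, hs, hs1, hOs⟩, -⟩ := hL.vX χ hχ h1
        obtain ⟨θ, -, hu⟩ := hL.bX s hs hs1
        rw [hu χ ⟨hχ, h1, hOs⟩, hu ψ ⟨hψ, h2, by rw [← h, hOs]⟩]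
      · rintro rfl
        rfl
    have hA : ∑ y ∈ K1, (∑ s ∈ F, s y) * starRingEnd ℂ (∑ s ∈ F', s y) =
        ℓ * n * (if χ = ψ then 1 else 0) - n * n := by
      have e1 : ∀ y ∈ K1, (∑ s ∈ F, s y) * starRingEnd ℂ (∑ s ∈ F', s y) =
          ∑ s ∈ F, ∑ s' ∈ F', s y * starRingEnd ℂ (s' y) := by
        intro y _
        rw [map_sum, Finset.sum_mul_sum]
      rw [Finset.sum_congr rfl e1, Finset.sum_comm]
      have e2 : ∀ s ∈ F, ∑ y ∈ K1, ∑ s' ∈ F', s y * starRingEnd ℂ (s' y) =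
          ℓ * (if χ = ψ then 1 else 0) - n := by
        intro s hs
        rw [Finset.sum_comm, Finset.sum_congr rfl fun s' hs' => hsum2 s (hF3 s hs).1 s'
          (hF3' s' hs').1, Finset.sum_sub_distrib, Finset.sum_const, hF2', Finset.sum_ite_eq,
          nsmul_eq_mul, mul_one]
        congr 1
        by_cases h : χ = ψ
        · have h3 : s ∈ F' := by
            have h4 : s ∈ O χ := by
              rw [hF1]
              exact hs
            rw [hiff.2 h, hF1'] at h4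
            exact h4
          rw [if_pos h, if_pos h3, mul_one]
        · have h3 : s ∉ F' := by
            intro h4
            apply h
            rw [← hiff, ← (hF3 s hs).2.2, ← (hF3' s h4).2.2]
          rw [if_neg h, if_neg h3, mul_zero]
      rw [Finset.sum_congr rfl e2, Finset.sum_const, hF2, nsmul_eq_mul]
      ring
    rw [key χ hχ ψ hψ (e χ * e ψ * (ℓ * n * (if χ = ψ then 1 else 0) - n * n))]
    · by_cases h : χ = ψ
      · subst h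
        simp only [if_true]
        have h3 := (hsg χ hχ).1
        field_simp
        linear_combination (-(ℓ : ℂ)) * h3
      · simp only [if_neg h]
        field_simp
        ring
    · have h3 : ∀ y ∈ K1, vx B χ y * starRingEnd ℂ (vx B ψ y) =
          e χ * e ψ * ((∑ s ∈ F, s y) * starRingEnd ℂ (∑ s ∈ F', s y)) := by
        intro y hy
        rw [(hL.vX χ hχ h1).2 y (hmem y hy).1 (hmem y hy).2,
          (hL.vX ψ hψ h2).2 y (hmem y hy).1 (hmem y hy).2, map_mul, (hsg ψ hψ).2, hO, hO']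
        ring
      rw [Finset.sum_congr rfl h3, ← Finset.mul_sum, hA]

end Pool.Agent.PP.SE.H86
end
end -- Pool.Agent.Helper86_ASE.RPV
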