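import Pool.Agent.Helper12_AWB.B227
import Pool.Agent.Helper12_AWB.B229

/-!
# Merged copies (generated) of the modules

* `Pool.Agent.Helper79_ASO.WTHC`
* `Pool.Agent.Helper79_ASO.WTHD`
* `Pool.Agent.Helper79_ASO.WTH`
* `Pool.Agent.Helper58_ASE.X3C`
* `Pool.Agent.Helper55_ASE.HYC`
* `Pool.Agent.Helper55_ASE.HYF`
* `Pool.Agent.Helper65_ASE.SLE`
* `Pool.Agent.Helper81_ASE.HYE`
* `Pool.Agent.Helper81_ASE.X3R`
* `Pool.Agent.Helper95_ASE.CN3`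
-/

set_option autoImplicit false

section -- Pool.Agent.Helper79_ASO.WTHC

/-!
# Squad ASO, row WTH, part C: the conditions, expansions
-/

open scoped BigOperators

set_option autoImplicit false
set_option linter.unusedSectionVars false

noncomputable section

namespace Pool.Agent.PP.SO.H79

open Pool.Agent.Helper51_AWC Pool.Agent.Helper79_WRA Pool.Agent.PP Pool.Agent.PP.KF
open Pool.Agent.PP.K9 Pool.Agent.PP.K9.H97 Pool.Agent.PP.H75 Pool.Agent.PP.T3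

attribute [local instance] Ideal.Quotient.field

section cond

variable {V₀ G : Type} [CommGroup V₀] [Group G]

theorem c13_iff (p q u w x X : G) (m i j : ℕ) (hpx : p * x = x * p) (hpX : p * X = X * p) :
    ((X ^ m) ^ j * (u * w⁻¹) * (x ^ m) ^ i = p * (u * w⁻¹) * p⁻¹ ∧
      (X ^ m) ^ j * u = p * u * q⁻¹) ↔
    (u * q * u⁻¹ = p * (X ^ m) ^ (-(j : ℤ)) ∧ w * q * w⁻¹ = p * (x ^ m) ^ (i : ℤ)) := by
  have hA : p * ((X ^ m) ^ j) = ((X ^ m) ^ j) * p :=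
    (((show Commute p X from hpX).pow_right m).pow_right j).eq
  have hD : p * ((x ^ m) ^ i) = ((x ^ m) ^ i) * p :=
    (((show Commute p x from hpx).pow_right m).pow_right i).eq
  rw [zpow_neg, zpow_natCast, zpow_natCast]
  generalize (X ^ m) ^ j = A at hA ⊢
  generalize (x ^ m) ^ i = D at hD ⊢
  have hAi : A⁻¹ * p = p * A⁻¹ := by
    rw [inv_mul_eq_iff_eq_mul, ← mul_assoc, ← hA, mul_assoc, mul_inv_cancel, mul_one]
  constructor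
  · rintro ⟨h1, h2⟩
    constructor
    · calc u * q * u⁻¹ = A⁻¹ * (A * u) * q * u⁻¹ := by group
        _ = A⁻¹ * (p * u * q⁻¹) * q * u⁻¹ := by rw [h2]
        _ = A⁻¹ * p := by group
        _ = p * A⁻¹ := hAi
    · have h3 : p * u * (q⁻¹ * (w⁻¹ * D)) = p * u * (w⁻¹ * p⁻¹) := by
        calc p * u * (q⁻¹ * (w⁻¹ * D)) = (p * u * q⁻¹) * w⁻¹ * D := by group
          _ = (A * u) * w⁻¹ * D := by rw [h2]
          _ = A * (u * w⁻¹) * D := by group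
          _ = _ := by rw [h1]; group
      have h4 := mul_left_cancel h3
      calc w * q * w⁻¹ = w * (q * (w⁻¹ * p⁻¹)) * p := by group
        _ = w * (q * (q⁻¹ * (w⁻¹ * D))) * p := by rw [h4]
        _ = D * p := by group
        _ = p * D := hD.symm
  · rintro ⟨h3, h4⟩
    have h2 : A * u = p * u * q⁻¹ := by
      calc A * u = A * (u * q * u⁻¹) * u * q⁻¹ := by group
        _ = A * (p * A⁻¹) * u * q⁻¹ := by rw [h3]
        _ = A * (A⁻¹ * p) * u * q⁻¹ := by rw [hAi]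
        _ = p * u * q⁻¹ := by group
    refine ⟨?_, h2⟩
    calc A * (u * w⁻¹) * D = (A * u) * w⁻¹ * D := by group
      _ = p * u * q⁻¹ * w⁻¹ * D := by rw [h2]
      _ = p * u * w⁻¹ * (w * q * w⁻¹)⁻¹ * D := by group
      _ = p * u * w⁻¹ * (p * D)⁻¹ * D := by rw [h4]
      _ = p * u * w⁻¹ * (D * p)⁻¹ * D := by rw [hD]
      _ = p * (u * w⁻¹) * p⁻¹ := by group

theorem mem_C_closure (i : V₀ →* G) (S : Set V₀) (g : G) :
    g ∈ Subgroup.centralizer (((Subgroup.closure S).map i : Subgroup G) : Set G) ↔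
      ∀ p ∈ S, i p * g = g * i p := by
  rw [Subgroup.mem_centralizer_iff]
  constructor
  · intro h p hp
    exact h (i p) ⟨p, Subgroup.subset_closure hp, rfl⟩
  · rintro h _ ⟨p, hp, rfl⟩
    induction hp using Subgroup.closure_induction with
    | mem x hx => exact h x hx
    | one => rw [map_one, one_mul, mul_one]
    | mul x y _ _ hx hy =>
      rw [map_mul, mul_assoc, hy, ← mul_assoc, hx, mul_assoc]
    | inv x _ hx =>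
      rw [map_inv, inv_mul_eq_iff_eq_mul, ← mul_assoc, hx, mul_assoc, mul_inv_cancel, mul_one]

/-- the conditions for a pair -/
def PL (i : V₀ →* G) (m : ℕ) (L' : Set (V₀ × V₀ × ℤ)) (X u : G) : Prop :=
  ∀ s ∈ L', u * i s.2.1 * u⁻¹ = i s.1 * (X ^ m) ^ s.2.2

variable {n : ℕ}

/-- the conditions for `(X, u)` -/
def Lm (L : Set (SS n V₀)) : Set (V₀ × V₀ × ℤ) :=
  {t | ∃ s ∈ L, (s.2.2.1, s.2.2.2, -((s.2.1 : ℕ) : ℤ)) = t}

/-- the conditions for `(x, w)` -/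
def Lp (L : Set (SS n V₀)) : Set (V₀ × V₀ × ℤ) :=
  {t | ∃ s ∈ L, (s.2.2.1, s.2.2.2, ((s.1 : ℕ) : ℤ)) = t}

theorem p1_Lm (L : Set (SS n V₀)) : p1 (Lm L) = pL L := by
  unfold p1 pL
  congr 1
  ext p
  constructor
  · rintro ⟨_, ⟨s, hs, rfl⟩, rfl⟩
    exact ⟨s, hs, rfl⟩
  · rintro ⟨s, hs, rfl⟩
    exact ⟨_, ⟨s, hs, rfl⟩, rfl⟩

theorem p1_Lp (L : Set (SS n V₀)) : p1 (Lp L) = pL L := by
  unfold p1 pL
  congr 1
  ext p
  constructor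
  · rintro ⟨_, ⟨s, hs, rfl⟩, rfl⟩
    exact ⟨s, hs, rfl⟩
  · rintro ⟨s, hs, rfl⟩
    exact ⟨_, ⟨s, hs, rfl⟩, rfl⟩

theorem p2_Lm (L : Set (SS n V₀)) : p2 (Lm L) = qL L := by
  unfold p2 qL
  congr 1
  ext p
  constructor
  · rintro ⟨_, ⟨s, hs, rfl⟩, rfl⟩
    exact ⟨s, hs, rfl⟩
  · rintro ⟨s, hs, rfl⟩
    exact ⟨_, ⟨s, hs, rfl⟩, rfl⟩

theorem p2_Lp (L : Set (SS n V₀)) : p2 (Lp L) = qL L := by
  unfold p2 qL
  congr 1
  ext p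
  constructor
  · rintro ⟨_, ⟨s, hs, rfl⟩, rfl⟩
    exact ⟨s, hs, rfl⟩
  · rintro ⟨s, hs, rfl⟩
    exact ⟨_, ⟨s, hs, rfl⟩, rfl⟩

theorem cond_iff {F : Type} (B : Bk F V₀ G) (m : ℕ) (L : Set (SS n V₀)) (x X u w : G)
    (hg : x * X⁻¹ ∈ B.C (pL L)) :
    (∀ s ∈ L, c13 m B.i (x * X⁻¹) x (u * w⁻¹) u s.1 s.2.1 s.2.2.1 s.2.2.2) ↔
    (X ∈ B.C (pL L) ∧ PL B.i m (Lm L) X u) ∧ (x ∈ B.C (pL L) ∧ PL B.i m (Lp L) x w) := by
  have e : (x * X⁻¹)⁻¹ * x = X := by group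
  have hX : x ∈ B.C (pL L) → X ∈ B.C (pL L) := by
    intro hx
    rw [← e]
    exact (B.C _).mul_mem ((B.C _).inv_mem hg) hx
  have hcm : ∀ {g : G}, g ∈ B.C (pL L) → ∀ s ∈ L, B.i s.2.2.1 * g = g * B.i s.2.2.1 := by
    intro g hg s hs
    exact (mem_C_closure B.i _ g).1 hg _ ⟨s, hs, rfl⟩
  unfold c13
  rw [e]
  constructor
  · intro h
    have hx : x ∈ B.C (pL L) := by
      refine (mem_C_closure B.i _ x).2 ?_
      rintro p ⟨s, hs, rfl⟩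
      have h1 := (h s hs).1
      rw [eq_mul_inv_iff_mul_eq] at h1
      exact h1.symm
    have hX' := hX hx
    refine ⟨⟨hX', ?_⟩, ⟨hx, ?_⟩⟩
    · rintro _ ⟨s, hs, rfl⟩
      exact ((c13_iff _ _ u w x X m _ _ (hcm hx s hs) (hcm hX' s hs)).1 (h s hs).2).1
    · rintro _ ⟨s, hs, rfl⟩
      exact ((c13_iff _ _ u w x X m _ _ (hcm hx s hs) (hcm hX' s hs)).1 (h s hs).2).2
  · rintro ⟨⟨hX', h1⟩, ⟨hx, h2⟩⟩ s hs
    refine ⟨?_, ?_⟩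
    · rw [eq_mul_inv_iff_mul_eq]
      exact (hcm hx s hs).symm
    · exact (c13_iff _ _ u w x X m _ _ (hcm hx s hs) (hcm hX' s hs)).2
        ⟨h1 _ ⟨s, hs, rfl⟩, h2 _ ⟨s, hs, rfl⟩⟩

open Classical in
/-- the indicator function of the conditions -/
def ind {F : Type} (B : Bk F V₀ G) (m : ℕ) (L' : Set (V₀ × V₀ × ℤ)) (X u : G) : ℂ :=
  if X ∈ B.C (p1 L') ∧ PL B.i m L' X u then 1 else 0

theorem ind_star {F : Type} (B : Bk F V₀ G) (m : ℕ) (L' : Set (V₀ × V₀ × ℤ)) (X u : G) :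
    starRingEnd ℂ (ind B m L' X u) = ind B m L' X u := by
  unfold ind
  split_ifs <;> simp

theorem conj_mem' {C : Subgroup G} {z X : G} (hz : z ∈ C) : z⁻¹ * X * z ∈ C ↔ X ∈ C := by
  constructor
  · intro h
    have := C.mul_mem (C.mul_mem hz h) (C.inv_mem hz)
    have e : z * (z⁻¹ * X * z) * z⁻¹ = X := by group
    rwa [e] at this
  · intro h
    exact C.mul_mem (C.mul_mem (C.inv_mem hz) h) hz

theorem ind_inv {F : Type} (B : Bk F V₀ G) (m : ℕ) (L' : Set (V₀ × V₀ × ℤ)) :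
    Inv2 (B.C (p1 L')) (B.C (p2 L')) (ind B m L') := by
  intro z hz z' hz' X u
  unfold ind
  congr 1
  rw [eq_iff_iff, conj_mem' hz]
  apply and_congr_right
  intro _
  apply forall₂_congr
  intro s hs
  have h1 : B.i s.2.1 * z' = z' * B.i s.2.1 := (mem_C_closure B.i _ z').1 hz' _ ⟨s, hs, rfl⟩
  have h2 : B.i s.1 * z = z * B.i s.1 := (mem_C_closure B.i _ z).1 hz _ ⟨s, hs, rfl⟩
  have e1 : z⁻¹ * u * z' * B.i s.2.1 * (z⁻¹ * u * z')⁻¹ = z⁻¹ * (u * B.i s.2.1 * u⁻¹) * z := by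
    calc _ = z⁻¹ * u * (z' * B.i s.2.1) * z'⁻¹ * u⁻¹ * z := by group
      _ = z⁻¹ * u * (B.i s.2.1 * z') * z'⁻¹ * u⁻¹ * z := by rw [h1]
      _ = _ := by group
  have e2 : B.i s.1 * ((z⁻¹ * X * z) ^ m) ^ s.2.2 = z⁻¹ * (B.i s.1 * (X ^ m) ^ s.2.2) * z := by
    have e3 : (z⁻¹ * X * z) ^ m = z⁻¹ * X ^ m * z := by
      have := conj_pow (a := z⁻¹) (b := X) (i := m)
      rwa [inv_inv] at this
    have e4 : (z⁻¹ * X ^ m * z) ^ s.2.2 = z⁻¹ * (X ^ m) ^ s.2.2 * z := by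
      have := conj_zpow (a := z⁻¹) (b := X ^ m) (i := s.2.2)
      rwa [inv_inv] at this
    rw [e3, e4]
    calc _ = B.i s.1 * z⁻¹ * (X ^ m) ^ s.2.2 * z := by group
      _ = z⁻¹ * (z * B.i s.1) * z⁻¹ * (X ^ m) ^ s.2.2 * z := by group
      _ = z⁻¹ * (B.i s.1 * z) * z⁻¹ * (X ^ m) ^ s.2.2 * z := by rw [h2]
      _ = _ := by group
  rw [e1, e2]
  constructor
  · intro h
    exact mul_left_cancel (mul_right_cancel h)
  · intro h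
    rw [h]

theorem ind_supp {F : Type} (B : Bk F V₀ G) (m : ℕ) (L' : Set (V₀ × V₀ × ℤ)) (X u : G)
    (h : ind B m L' X u ≠ 0) : X ∈ B.C (p1 L') ∧ u⁻¹ * X⁻¹ * u ∈ B.C (p2 L') := by
  unfold ind at h
  by_cases h0 : X ∈ B.C (p1 L') ∧ PL B.i m L' X u
  · refine ⟨h0.1, (mem_C_closure B.i _ _).2 ?_⟩
    rintro q ⟨s, hs, rfl⟩
    have h1 := h0.2 s hs
    have h2 : B.i s.1 * X = X * B.i s.1 := (mem_C_closure B.i _ X).1 h0.1 _ ⟨s, hs, rfl⟩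
    have h3 : Commute (B.i s.1 * (X ^ m) ^ s.2.2) X :=
      (show Commute (B.i s.1) X from h2).mul_left
        (((Commute.refl X).pow_left m).zpow_left _)
    rw [← h1] at h3
    have h4 : Commute (u * B.i s.2.1 * u⁻¹) X⁻¹ := h3.inv_right
    have h5 : u * B.i s.2.1 * u⁻¹ * X⁻¹ = X⁻¹ * (u * B.i s.2.1 * u⁻¹) := h4.eq
    calc B.i s.2.1 * (u⁻¹ * X⁻¹ * u) = u⁻¹ * (u * B.i s.2.1 * u⁻¹ * X⁻¹) * u := by group
      _ = u⁻¹ * (X⁻¹ * (u * B.i s.2.1 * u⁻¹)) * u := by rw [h5]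
      _ = _ := by group
  · rw [if_neg h0] at h
    exact absurd rfl h

end cond

end Pool.Agent.PP.SO.H79
end
end -- Pool.Agent.Helper79_ASO.WTHC

section -- Pool.Agent.Helper79_ASO.WTHD

/-!
# Squad ASO, row WTH, part D: characters of the local blocks
-/

open scoped BigOperators

set_option autoImplicit false
set_option linter.unusedSectionVars false

noncomputable section

namespace Pool.Agent.PP.SO.H79

open Pool.Agent.Helper51_AWC Pool.Agent.Helper79_WRA Pool.Agent.PP Pool.Agent.PP.KF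
open Pool.Agent.PP.K9 Pool.Agent.PP.K9.H97 Pool.Agent.PP.H75 Pool.Agent.PP.T3

attribute [local instance] Ideal.Quotient.field

section ch

variable {V₀ G : Type} [CommGroup V₀] [Group G] [Fintype G] {M : Ideal (integralClosure ℤ ℂ)}
  [M.IsMaximal]

theorem ch_star {C : Subgroup G} {χ : G → ℂ} (hs : ∀ g, g ∉ C → χ g = 0)
    (hi : (fun t : C => χ t) ∈ Irr C) (g : G) : starRingEnd ℂ (χ g) = χ g⁻¹ := by
  by_cases hg : g ∈ C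
  · exact H94.irr_star hi (⟨g, hg⟩ : C)
  · rw [hs g hg, hs g⁻¹ (fun h => hg ((C.inv_mem_iff).1 h)), map_zero]

theorem SL_eq (B : Bk (FF M) V₀ G) (m : ℕ) (L' : Set (V₀ × V₀ × ℤ)) (χ χ' : G → ℂ)
    (hs : ∀ g, g ∉ B.C (p1 L') → χ g = 0) : SL B m L' χ χ' =
      ∑ v : G × G, χ v.1 * χ' (v.2⁻¹ * v.1⁻¹ * v.2) * ind B m L' v.1 v.2 := by
  classical
  unfold SL
  rw [finsum_mem_def, finsum_eq_sum_of_fintype]
  refine Finset.sum_congr rfl fun v _ => ?_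
  by_cases h : v.1 ∈ B.C (p1 L')
  · by_cases h1 : PL B.i m L' v.1 v.2
    · rw [Set.indicator_of_mem h1, ind, if_pos ⟨h, h1⟩, mul_one]
    · rw [Set.indicator_of_notMem h1, ind, if_neg (fun h2 => h1 h2.2), mul_zero]
  · rw [ind, if_neg (fun h2 => h h2.1), mul_zero]
    apply Set.indicator_apply_eq_zero.2
    intro _
    rw [hs _ h, zero_mul]

theorem SL_star (B : Bk (FF M) V₀ G) (m : ℕ) (L' : Set (V₀ × V₀ × ℤ)) (χ χ' : G → ℂ)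
    (hs : ∀ g, g ∉ B.C (p1 L') → χ g = 0) (hst : ∀ g, starRingEnd ℂ (χ g) = χ g⁻¹)
    (hst' : ∀ g, starRingEnd ℂ (χ' g) = χ' g⁻¹) : starRingEnd ℂ (SL B m L' χ χ') =
      ∑ v : G × G, χ v.1⁻¹ * χ' (v.2⁻¹ * v.1 * v.2) * ind B m L' v.1 v.2 := by
  rw [SL_eq B m L' χ χ' hs, map_sum]
  refine Finset.sum_congr rfl fun v _ => ?_
  rw [map_mul, map_mul, hst, hst', ind_star]
  have e : (v.2⁻¹ * v.1⁻¹ * v.2)⁻¹ = v.2⁻¹ * v.1 * v.2 := by group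
  rw [e]

theorem ch_inj (B : Bk (FF M) V₀ G) (W : Subgroup V₀) {χ χ' : G → ℂ} (h : χ ∈ Ch B W)
    (h' : χ' ∈ Ch B W) (he : (fun t : B.C W => χ t) = fun t : B.C W => χ' t) : χ = χ' := by
  funext g
  by_cases hg : g ∈ B.C W
  · exact congrFun he ⟨g, hg⟩
  · rw [h.1 g hg, h'.1 g hg]

theorem ch_finite (B : Bk (FF M) V₀ G) (W : Subgroup V₀) : (Ch B W).Finite := by
  have := Fintype.ofFinite (B.C W)
  refine Set.Finite.of_injOn (f := fun (χ : G → ℂ) (t : B.C W) => χ t) (t := Irr (B.C W)) ?_ ?_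
    (irr_finite' (G := B.C W))
  · intro χ hχ
    exact hχ.2.1
  · intro χ hχ χ' hχ' he
    exact ch_inj B W hχ hχ' he

theorem fc_expand (B : Bk (FF M) V₀ G) (W : Subgroup V₀) (c : V₀)
    (h0 : ∀ χ : G → ℂ, (∀ x, x ∉ B.C W → χ x = 0) → (fun t : B.C W => χ t) ∈ Irr (B.C W) →
      χ ∉ Ch B W → cv (fc B W c) χ = 0) (g : G) :
    fc B W c g = ∑ χ ∈ (ch_finite B W).toFinset,
      cv (fc B W c) χ * (χ 1 / Nat.card (B.C W)) * χ g⁻¹ := by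
  classical
  have := Fintype.ofFinite (B.C W)
  by_cases hg : g ∈ B.C W
  · have hinj : Set.InjOn (fun (χ : G → ℂ) (t : B.C W) => χ t)
        ((ch_finite B W).toFinset : Set (G → ℂ)) := by
      intro χ hχ χ' hχ' he
      rw [Set.Finite.coe_toFinset] at hχ hχ'
      exact ch_inj B W hχ hχ' he
    have h1 := cf_expand (H := B.C W) (fun t : B.C W => fc B W c t)
      (fun g h => H3.fc_cl B W c h g)
      ((ch_finite B W).toFinset.image (fun (χ : G → ℂ) (t : B.C W) => χ t)) ?_ ?_ ⟨g, hg⟩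
    · rw [Finset.sum_image hinj] at h1
      refine h1.trans (Finset.sum_congr rfl fun χ hχ => ?_)
      rw [Set.Finite.mem_toFinset] at hχ
      rw [H3.cv_eq]
      unfold H50.om
      have hne : χ 1 ≠ 0 := one_sub _ hχ.2.1
      rw [Nat.card_eq_fintype_card]
      have e1 : (fun t : B.C W => χ t) 1 = χ 1 := rfl
      rw [e1]
      have e2 : (∑ t : B.C W, fc B W c t * χ t) / χ 1 * (χ 1 / (Fintype.card (B.C W) : ℂ)) =
          (Fintype.card (B.C W) : ℂ)⁻¹ * ∑ t : B.C W, fc B W c t * χ t := by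
        field_simp
      rw [e2]
      rfl
    · intro χ hχ
      obtain ⟨χ₀, h, rfl⟩ := Finset.mem_image.1 hχ
      rw [Set.Finite.mem_toFinset] at h
      exact h.2.1
    · intro χ hχ hn
      have hr : (fun t : B.C W => H75.ext0 (B.C W) χ t) = χ := funext (H75.ext0_apply _ _)
      have h2 : H75.ext0 (B.C W) χ ∉ Ch B W := by
        intro h
        apply hn
        rw [Finset.mem_image]
        exact ⟨_, (Set.Finite.mem_toFinset _).2 h, hr⟩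
      have h3 := h0 (H75.ext0 (B.C W) χ) (H75.ext0_supp _ _) (by rw [hr]; exact hχ) h2
      rw [H3.cv_eq, hr] at h3
      unfold H50.om at h3
      rw [div_eq_zero_iff] at h3
      rcases h3 with h3 | h3
      · exact h3
      · exact absurd h3 (irr_one_ne hχ)
  · rw [H3.fc_supp B W c g hg, Finset.sum_eq_zero]
    intro χ hχ
    rw [Set.Finite.mem_toFinset] at hχ
    rw [hχ.1 g⁻¹ (fun h => hg ((B.C W).inv_mem_iff.1 h)), mul_zero]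

theorem sum_lam [Finite V₀] [Fintype (lin V₀)] (B : Bk (FF M) V₀ G) (W : Subgroup V₀)
    (h : Set.BijOn (lam B W) (Ch B W) (lin V₀)) (F : (V₀ → ℂ) → ℂ) :
    ∑ χ ∈ (ch_finite B W).toFinset, F (lam B W χ) = ∑ f : lin V₀, F f.1 := by
  refine Finset.sum_bij (fun χ hχ => ⟨lam B W χ, h.mapsTo ((Set.Finite.mem_toFinset _).1 hχ)⟩)
    (fun _ _ => Finset.mem_univ _) ?_ ?_ (fun _ _ => rfl)
  · intro χ hχ χ' hχ' he
    exact h.injOn ((Set.Finite.mem_toFinset _).1 hχ) ((Set.Finite.mem_toFinset _).1 hχ')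
      (congrArg Subtype.val he)
  · intro f _
    obtain ⟨χ, hχ, he⟩ := h.surjOn f.2
    exact ⟨χ, (Set.Finite.mem_toFinset _).2 hχ, Subtype.ext he⟩

end ch

end Pool.Agent.PP.SO.H79
end
end -- Pool.Agent.Helper79_ASO.WTHD

section -- Pool.Agent.Helper79_ASO.WTH

/-!
# Squad ASO, row WTH: the value of `W13`
-/

open scoped BigOperators

set_option autoImplicit false
set_option linter.unusedSectionVars false

noncomputable section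

namespace Pool.Agent.PP.SO.H79

open Pool.Agent.Helper51_AWC Pool.Agent.Helper79_WRA Pool.Agent.PP Pool.Agent.PP.KF
open Pool.Agent.PP.K9 Pool.Agent.PP.K9.H97 Pool.Agent.PP.H75 Pool.Agent.PP.T3

attribute [local instance] Ideal.Quotient.field

section w13

variable {V₀ G : Type} [CommGroup V₀] [Finite V₀] [Group G] [Fintype G]
  {M : Ideal (integralClosure ℤ ℂ)} [M.IsMaximal] {n : ℕ}

/-- `W13` as a sum over quadruples -/
theorem w13_quad (B : Bk (FF M) V₀ G) (m : ℕ) (c d : V₀) (L : Set (SS n V₀)) :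
    W13 B m c d L = ((Nat.card (B.C (pL L ⊔ Subgroup.zpowers c)) : ℂ) *
      Nat.card (B.C (qL L ⊔ Subgroup.zpowers d)))⁻¹ *
      ∑ a : G × G × G × G, bh B (pL L ⊔ Subgroup.zpowers c) ((B.i c)⁻¹ * (a.1 * a.2.1⁻¹)) *
        bh B (qL L ⊔ Subgroup.zpowers d) ((B.i d)⁻¹ *
          ((a.2.2.1⁻¹ * a.2.1 * a.2.2.1) * (a.2.2.2⁻¹ * a.1⁻¹ * a.2.2.2))) *
        (ind B m (Lm L) a.2.1 a.2.2.1 * ind B m (Lp L) a.1 a.2.2.2) := by
  classical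
  unfold W13
  rw [finsum_eq_sum_of_fintype]
  congr 1
  rw [reparam (bh B (pL L ⊔ Subgroup.zpowers c)) (bh B (qL L ⊔ Subgroup.zpowers d)) (B.i c) (B.i d)
    (fun g x y u => ∀ s ∈ L, c13 m B.i g x y u s.1 s.2.1 s.2.2.1 s.2.2.2)]
  refine Finset.sum_congr rfl fun a _ => ?_
  by_cases hg : (B.i c)⁻¹ * (a.1 * a.2.1⁻¹) ∈ B.C (pL L ⊔ Subgroup.zpowers c)
  · have hg' : a.1 * a.2.1⁻¹ ∈ B.C (pL L) := by
      have h1 := (B.C (pL L)).mul_mem (H3.i_mem B (pL L) c) (H3.C_anti B le_sup_left hg)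
      rwa [mul_inv_cancel_left] at h1
    congr 1
    have h2 := cond_iff B m L a.1 a.2.1 a.2.2.1 a.2.2.2 hg'
    by_cases h3 : ∀ s ∈ L, c13 m B.i (a.1 * a.2.1⁻¹) a.1 (a.2.2.1 * a.2.2.2⁻¹) a.2.2.1
        s.1 s.2.1 s.2.2.1 s.2.2.2
    · rw [if_pos h3]
      have h4 := h2.1 h3
      rw [ind, ind, p1_Lm, p1_Lp, if_pos h4.1, if_pos h4.2, one_mul]
    · rw [if_neg h3]
      by_cases h5 : a.2.1 ∈ B.C (pL L) ∧ PL B.i m (Lm L) a.2.1 a.2.2.1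
      · have h6 : ¬ (a.1 ∈ B.C (pL L) ∧ PL B.i m (Lp L) a.1 a.2.2.2) := fun h6 =>
          h3 (h2.2 ⟨h5, h6⟩)
        rw [ind, ind, p1_Lm, p1_Lp, if_neg h6, mul_zero]
      · rw [ind, ind, p1_Lm, p1_Lp, if_neg h5, zero_mul]
  · simp only [H3.bh_supp B _ hg, zero_mul]

theorem fc_sum (B : Bk (FF M) V₀ G) (W : Subgroup V₀) [Fintype (B.C W)] (c : V₀) (g : G) :
    ∑ z : B.C W, bh B (W ⊔ Subgroup.zpowers c) ((B.i c)⁻¹ * ((z : G)⁻¹ * g * z)) =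
      (Nat.card (B.C (W ⊔ Subgroup.zpowers c)) : ℂ) * fc B W c g := by
  have h0 : (Nat.card (B.C (W ⊔ Subgroup.zpowers c)) : ℂ) ≠ 0 := by
    exact_mod_cast Nat.card_pos.ne'
  unfold fc
  rw [← mul_assoc, mul_inv_cancel₀ h0, one_mul, finsum_eq_sum_of_fintype]

/-- the mean over the centralisers -/
theorem w13_fc (B : Bk (FF M) V₀ G) (m : ℕ) (c d : V₀) (L : Set (SS n V₀)) :
    W13 B m c d L = ((Nat.card (B.C (pL L)) : ℂ) * Nat.card (B.C (qL L)))⁻¹ *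
      ∑ a : G × G × G × G, fc B (pL L) c (a.1 * a.2.1⁻¹) *
        fc B (qL L) d ((a.2.2.1⁻¹ * a.2.1 * a.2.2.1) * (a.2.2.2⁻¹ * a.1⁻¹ * a.2.2.2)) *
        (ind B m (Lm L) a.2.1 a.2.2.1 * ind B m (Lp L) a.1 a.2.2.2) := by
  classical
  have i1 := Fintype.ofFinite (B.C (pL L))
  have i2 := Fintype.ofFinite (B.C (qL L))
  have hI : Inv2 (B.C (pL L)) (B.C (qL L)) (ind B m (Lm L)) := by
    have := ind_inv B m (Lm L)
    rwa [p1_Lm, p2_Lm] at this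
  have hJ : Inv2 (B.C (pL L)) (B.C (qL L)) (ind B m (Lp L)) := by
    have := ind_inv B m (Lp L)
    rwa [p1_Lp, p2_Lp] at this
  have h1 := avg4 (B.C (pL L)) (B.C (qL L))
    (fun g => bh B (pL L ⊔ Subgroup.zpowers c) ((B.i c)⁻¹ * g))
    (fun g => bh B (qL L ⊔ Subgroup.zpowers d) ((B.i d)⁻¹ * g)) _ _ hI hJ
  simp only [fc_sum] at h1
  rw [w13_quad]
  have hk1 : (Nat.card (B.C (pL L ⊔ Subgroup.zpowers c)) : ℂ) ≠ 0 := by
    exact_mod_cast Nat.card_pos.ne'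
  have hk2 : (Nat.card (B.C (qL L ⊔ Subgroup.zpowers d)) : ℂ) ≠ 0 := by
    exact_mod_cast Nat.card_pos.ne'
  have hc1 : (Nat.card (B.C (pL L)) : ℂ) ≠ 0 := by exact_mod_cast Nat.card_pos.ne'
  have hc2 : (Nat.card (B.C (qL L)) : ℂ) ≠ 0 := by exact_mod_cast Nat.card_pos.ne'
  rw [← Nat.card_eq_fintype_card, ← Nat.card_eq_fintype_card] at h1
  have h2 : ∑ a : G × G × G × G, (Nat.card (B.C (pL L ⊔ Subgroup.zpowers c)) : ℂ) *
      fc B (pL L) c (a.1 * a.2.1⁻¹) * ((Nat.card (B.C (qL L ⊔ Subgroup.zpowers d)) : ℂ) *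
        fc B (qL L) d ((a.2.2.1⁻¹ * a.2.1 * a.2.2.1) * (a.2.2.2⁻¹ * a.1⁻¹ * a.2.2.2))) *
        (ind B m (Lm L) a.2.1 a.2.2.1 * ind B m (Lp L) a.1 a.2.2.2) =
      ((Nat.card (B.C (pL L ⊔ Subgroup.zpowers c)) : ℂ) *
        Nat.card (B.C (qL L ⊔ Subgroup.zpowers d))) *
      ∑ a : G × G × G × G, fc B (pL L) c (a.1 * a.2.1⁻¹) *
        fc B (qL L) d ((a.2.2.1⁻¹ * a.2.1 * a.2.2.1) * (a.2.2.2⁻¹ * a.1⁻¹ * a.2.2.2)) *
        (ind B m (Lm L) a.2.1 a.2.2.1 * ind B m (Lp L) a.1 a.2.2.2) := by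
    rw [Finset.mul_sum]
    refine Finset.sum_congr rfl fun a _ => ?_
    ring
  rw [h2] at h1
  rw [inv_mul_eq_iff_eq_mul₀ (mul_ne_zero hk1 hk2)]
  apply mul_left_cancel₀ (mul_ne_zero hc1 hc2)
  rw [h1]
  field_simp

/-- `W13` in terms of the sums `SL` -/
theorem w13_SL (B : Bk (FF M) V₀ G) (m : ℕ) (c d : V₀) (L : Set (SS n V₀))
    (h1 : ∀ χ : G → ℂ, (∀ x, x ∉ B.C (pL L) → χ x = 0) →
      (fun t : B.C (pL L) => χ t) ∈ Irr (B.C (pL L)) → χ ∉ Ch B (pL L) →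
      cv (fc B (pL L) c) χ = 0)
    (h2 : ∀ χ : G → ℂ, (∀ x, x ∉ B.C (qL L) → χ x = 0) →
      (fun t : B.C (qL L) => χ t) ∈ Irr (B.C (qL L)) → χ ∉ Ch B (qL L) →
      cv (fc B (qL L) d) χ = 0) :
    W13 B m c d L = (((Nat.card (B.C (pL L)) : ℂ) * Nat.card (B.C (qL L))) ^ 2)⁻¹ *
      ∑ χ ∈ (ch_finite B (pL L)).toFinset, ∑ χ' ∈ (ch_finite B (qL L)).toFinset,
        cv (fc B (pL L) c) χ * cv (fc B (qL L) d) χ' *
          (SL B m (Lm L) χ χ' * starRingEnd ℂ (SL B m (Lp L) χ χ')) := by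
  classical
  have i1 := Fintype.ofFinite (B.C (pL L))
  have i2 := Fintype.ofFinite (B.C (qL L))
  have hI : Inv2 (B.C (pL L)) (B.C (qL L)) (ind B m (Lm L)) := by
    have := ind_inv B m (Lm L)
    rwa [p1_Lm, p2_Lm] at this
  have hs : ∀ X u, ind B m (Lm L) X u ≠ 0 → X ∈ B.C (pL L) ∧ u⁻¹ * X⁻¹ * u ∈ B.C (qL L) := by
    intro X u h
    have := ind_supp B m (Lm L) X u h
    rwa [p1_Lm, p2_Lm] at this
  have hs' : ∀ X u, ind B m (Lp L) X u ≠ 0 → X ∈ B.C (pL L) ∧ u⁻¹ * X⁻¹ * u ∈ B.C (qL L) := by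
    intro X u h
    have := ind_supp B m (Lp L) X u h
    rwa [p1_Lp, p2_Lp] at this
  have hc1 : (Nat.card (B.C (pL L)) : ℂ) ≠ 0 := by exact_mod_cast Nat.card_pos.ne'
  have hc2 : (Nat.card (B.C (qL L)) : ℂ) ≠ 0 := by exact_mod_cast Nat.card_pos.ne'
  have h3 : ∀ χ ∈ (ch_finite B (pL L)).toFinset, ∀ χ' ∈ (ch_finite B (qL L)).toFinset,
      ∑ a : G × G × G × G, χ (a.2.1 * a.1⁻¹) *
        χ' ((a.2.2.2⁻¹ * a.1 * a.2.2.2) * (a.2.2.1⁻¹ * a.2.1⁻¹ * a.2.2.1)) *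
        (ind B m (Lm L) a.2.1 a.2.2.1 * ind B m (Lp L) a.1 a.2.2.2) =
      (χ 1 * χ' 1)⁻¹ * SL B m (Lm L) χ χ' * starRingEnd ℂ (SL B m (Lp L) χ χ') := by
    intro χ hχ χ' hχ'
    rw [Set.Finite.mem_toFinset] at hχ hχ'
    rw [split4 (B.C (pL L)) (B.C (qL L)) hχ.2.1 hχ'.2.1 _ _ hI hs hs',
      SL_eq B m (Lm L) χ χ' (by rw [p1_Lm]; exact hχ.1),
      SL_star B m (Lp L) χ χ' (by rw [p1_Lp]; exact hχ.1) (ch_star hχ.1 hχ.2.1)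
        (ch_star hχ'.1 hχ'.2.1)]
  rw [w13_fc]
  have h4 : ∑ a : G × G × G × G, fc B (pL L) c (a.1 * a.2.1⁻¹) *
        fc B (qL L) d ((a.2.2.1⁻¹ * a.2.1 * a.2.2.1) * (a.2.2.2⁻¹ * a.1⁻¹ * a.2.2.2)) *
        (ind B m (Lm L) a.2.1 a.2.2.1 * ind B m (Lp L) a.1 a.2.2.2) =
      ∑ χ ∈ (ch_finite B (pL L)).toFinset, ∑ χ' ∈ (ch_finite B (qL L)).toFinset,
        (cv (fc B (pL L) c) χ * (χ 1 / Nat.card (B.C (pL L)))) *
        (cv (fc B (qL L) d) χ' * (χ' 1 / Nat.card (B.C (qL L)))) *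
        ∑ a : G × G × G × G, χ (a.2.1 * a.1⁻¹) *
          χ' ((a.2.2.2⁻¹ * a.1 * a.2.2.2) * (a.2.2.1⁻¹ * a.2.1⁻¹ * a.2.2.1)) *
          (ind B m (Lm L) a.2.1 a.2.2.1 * ind B m (Lp L) a.1 a.2.2.2) := by
    simp only [Finset.mul_sum]
    rw [Finset.sum_congr rfl fun χ _ => Finset.sum_comm, Finset.sum_comm]
    refine Finset.sum_congr rfl fun a _ => ?_
    rw [fc_expand B (pL L) c h1 (a.1 * a.2.1⁻¹), fc_expand B (qL L) d h2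
      ((a.2.2.1⁻¹ * a.2.1 * a.2.2.1) * (a.2.2.2⁻¹ * a.1⁻¹ * a.2.2.2)), Finset.sum_mul_sum,
      Finset.sum_mul]
    refine Finset.sum_congr rfl fun χ _ => ?_
    rw [Finset.sum_mul]
    refine Finset.sum_congr rfl fun χ' _ => ?_
    have e1 : (a.1 * a.2.1⁻¹)⁻¹ = a.2.1 * a.1⁻¹ := by group
    have e2 : ((a.2.2.1⁻¹ * a.2.1 * a.2.2.1) * (a.2.2.2⁻¹ * a.1⁻¹ * a.2.2.2))⁻¹ =
        (a.2.2.2⁻¹ * a.1 * a.2.2.2) * (a.2.2.1⁻¹ * a.2.1⁻¹ * a.2.2.1) := by group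
    rw [e1, e2]
    ring
  rw [h4, Finset.mul_sum, Finset.mul_sum]
  refine Finset.sum_congr rfl fun χ hχ => ?_
  rw [Finset.mul_sum, Finset.mul_sum]
  refine Finset.sum_congr rfl fun χ' hχ' => ?_
  rw [h3 χ hχ χ' hχ']
  have n1 : χ 1 ≠ 0 := one_sub _ ((Set.Finite.mem_toFinset _).1 hχ).2.1
  have n2 : χ' 1 ≠ 0 := one_sub _ ((Set.Finite.mem_toFinset _).1 hχ').2.1
  field_simp

end w13

section fin

variable {V₀ : Type} [CommGroup V₀] [Finite V₀] {n : ℕ}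

/-- the solutions for `L'` -/
def TT (E₀ : Subgroup (MulAut V₀)) (L' : Set (V₀ × V₀ × ℤ)) : Set (MulAut V₀ × V₀) :=
  {w | w.1 ∈ E₀ ∧ ∀ s ∈ L', w.1 (s.1 * w.2 ^ s.2.2) = s.2.1}

instance finAut : Finite (MulAut V₀) := DFunLike.finite (MulAut V₀)

theorem n13_eq (E₀ : Subgroup (MulAut V₀)) (c d : V₀) (L : Set (SS n V₀)) :
    N13 E₀ c d L = {v : (MulAut V₀ × V₀) × (MulAut V₀ × V₀) | v.1 ∈ TT E₀ (Lm L) ∧
      v.2 ∈ TT E₀ (Lp L) ∧ c * v.1.2 = v.2.2 ∧ d * v.2.1 v.2.2 = v.1.1 v.1.2}.ncard := by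
  unfold N13
  have hinj : Function.Injective (fun w : E₀ × E₀ × V₀ =>
      (((w.1 : MulAut V₀), w.2.2), ((w.2.1 : MulAut V₀), c * w.2.2))) := by
    rintro ⟨a, b, x⟩ ⟨a', b', x'⟩ h
    simp only [Prod.mk.injEq] at h
    obtain ⟨⟨h1, h2⟩, h3, -⟩ := h
    rw [Subtype.ext h1, Subtype.ext h3, h2]
  rw [← Set.ncard_image_of_injective _ hinj]
  congr 1
  ext v
  constructor
  · rintro ⟨w, ⟨h1, h2⟩, rfl⟩
    refine ⟨⟨w.1.2, ?_⟩, ⟨w.2.1.2, ?_⟩, rfl, h1.symm⟩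
    · rintro _ ⟨s, hs, rfl⟩
      have := (h2 s hs).1
      simp only [zpow_neg, zpow_natCast]
      exact this
    · rintro _ ⟨s, hs, rfl⟩
      have := (h2 s hs).2
      simp only [zpow_natCast]
      exact this
  · rintro ⟨h1, h2, h3, h4⟩
    refine ⟨(⟨v.1.1, h1.1⟩, ⟨v.2.1, h2.1⟩, v.1.2), ⟨?_, fun s hs => ⟨?_, ?_⟩⟩, ?_⟩
    · show v.1.1 v.1.2 = d * v.2.1 (c * v.1.2)
      rw [h3, h4]
    · have := h1.2 _ ⟨s, hs, rfl⟩
      simp only [zpow_neg, zpow_natCast] at this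
      exact this
    · have := h2.2 _ ⟨s, hs, rfl⟩
      simp only [zpow_natCast] at this
      show v.2.1 (s.2.2.1 * (c * v.1.2) ^ (s.1 : ℕ)) = s.2.2.2
      rw [h3]
      exact this
    · exact Prod.ext rfl (Prod.ext rfl h3)

open Classical in
/-- the sum over the pairs of linear characters -/
theorem lin_double [Fintype (lin V₀)] [Fintype (MulAut V₀)] [Fintype V₀]
    (E₀ : Subgroup (MulAut V₀)) (c d : V₀) (L : Set (SS n V₀)) :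
    ∑ f : lin V₀, ∑ f' : lin V₀, f.1 c * f'.1 d *
      ((∑ᶠ w ∈ TT E₀ (Lm L), f.1 w.2 * starRingEnd ℂ (f'.1 (w.1 w.2))) *
        starRingEnd ℂ (∑ᶠ w ∈ TT E₀ (Lp L), f.1 w.2 * starRingEnd ℂ (f'.1 (w.1 w.2)))) =
      (Nat.card V₀ : ℂ) ^ 2 * N13 E₀ c d L := by
  have hF : ∀ (S : Set (MulAut V₀ × V₀)) (g : MulAut V₀ × V₀ → ℂ),
      ∑ᶠ w ∈ S, g w = ∑ w ∈ S.toFinset, g w := fun S g => by
    rw [finsum_mem_eq_toFinset_sum]
  simp only [hF, map_sum, map_mul, Complex.conj_conj]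
  have h1 : ∀ f f' : lin V₀, f.1 c * f'.1 d *
      ((∑ w ∈ (TT E₀ (Lm L)).toFinset, f.1 w.2 * starRingEnd ℂ (f'.1 (w.1 w.2))) *
        ∑ w ∈ (TT E₀ (Lp L)).toFinset, starRingEnd ℂ (f.1 w.2) * f'.1 (w.1 w.2)) =
      ∑ w ∈ (TT E₀ (Lm L)).toFinset, ∑ w' ∈ (TT E₀ (Lp L)).toFinset,
        f.1 (c * w.2 * w'.2⁻¹) * f'.1 (d * w'.1 w'.2 * (w.1 w.2)⁻¹) := by
    intro f f'
    rw [Finset.sum_mul_sum, Finset.mul_sum]
    refine Finset.sum_congr rfl fun w _ => ?_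
    rw [Finset.mul_sum]
    refine Finset.sum_congr rfl fun w' _ => ?_
    rw [lin_star f.2, lin_star f'.2, f.2.2, f.2.2, f'.2.2, f'.2.2]
    ring
  rw [Finset.sum_congr rfl fun f _ => Finset.sum_congr rfl fun f' _ => h1 f f']
  have h2 : ∑ f : lin V₀, ∑ f' : lin V₀, ∑ w ∈ (TT E₀ (Lm L)).toFinset,
      ∑ w' ∈ (TT E₀ (Lp L)).toFinset,
        f.1 (c * w.2 * w'.2⁻¹) * f'.1 (d * w'.1 w'.2 * (w.1 w.2)⁻¹) =
      ∑ w ∈ (TT E₀ (Lm L)).toFinset, ∑ w' ∈ (TT E₀ (Lp L)).toFinset,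
        (∑ f : lin V₀, f.1 (c * w.2 * w'.2⁻¹)) *
          ∑ f' : lin V₀, f'.1 (d * w'.1 w'.2 * (w.1 w.2)⁻¹) := by
    have h3 : ∀ f : lin V₀, ∑ f' : lin V₀, ∑ w ∈ (TT E₀ (Lm L)).toFinset,
        ∑ w' ∈ (TT E₀ (Lp L)).toFinset,
          f.1 (c * w.2 * w'.2⁻¹) * f'.1 (d * w'.1 w'.2 * (w.1 w.2)⁻¹) =
        ∑ w ∈ (TT E₀ (Lm L)).toFinset, ∑ w' ∈ (TT E₀ (Lp L)).toFinset, ∑ f' : lin V₀,
          f.1 (c * w.2 * w'.2⁻¹) * f'.1 (d * w'.1 w'.2 * (w.1 w.2)⁻¹) := by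
      intro f
      rw [Finset.sum_comm]
      exact Finset.sum_congr rfl fun w _ => Finset.sum_comm
    rw [Finset.sum_congr rfl fun f _ => h3 f, Finset.sum_comm]
    refine Finset.sum_congr rfl fun w _ => ?_
    rw [Finset.sum_comm]
    refine Finset.sum_congr rfl fun w' _ => ?_
    rw [Finset.sum_mul_sum]
  rw [h2]
  simp only [lin_sum]
  have h4 : ∀ w w' : MulAut V₀ × V₀, ((if c * w.2 * w'.2⁻¹ = 1 then (Nat.card V₀ : ℂ) else 0) *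
      if d * w'.1 w'.2 * (w.1 w.2)⁻¹ = 1 then (Nat.card V₀ : ℂ) else 0) =
      (Nat.card V₀ : ℂ) ^ 2 * if c * w.2 = w'.2 ∧ d * w'.1 w'.2 = w.1 w.2 then 1 else 0 := by
    intro w w'
    rw [mul_inv_eq_one, mul_inv_eq_one]
    by_cases h5 : c * w.2 = w'.2
    · by_cases h6 : d * w'.1 w'.2 = w.1 w.2
      · rw [if_pos h5, if_pos h6, if_pos ⟨h5, h6⟩]
        ring
      · have h7 : ¬ (c * w.2 = w'.2 ∧ d * w'.1 w'.2 = w.1 w.2) := fun h => h6 h.2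
        rw [if_neg h6, if_neg h7, mul_zero, mul_zero]
    · have h7 : ¬ (c * w.2 = w'.2 ∧ d * w'.1 w'.2 = w.1 w.2) := fun h => h5 h.1
      rw [if_neg h5, if_neg h7, zero_mul, mul_zero]
  rw [Finset.sum_congr rfl fun w _ => Finset.sum_congr rfl fun w' _ => h4 w w']
  simp only [← Finset.mul_sum]
  congr 1
  rw [n13_eq, ← Finset.sum_product' (f := fun w w' : MulAut V₀ × V₀ =>
    if c * w.2 = w'.2 ∧ d * w'.1 w'.2 = w.1 w.2 then (1 : ℂ) else 0), Finset.sum_boole]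
  congr 1
  rw [← Set.ncard_coe_finset]
  congr 1
  ext v
  simp only [Finset.coe_filter, Finset.mem_product, Set.mem_toFinset]
  constructor
  · rintro ⟨⟨h1, h2⟩, h3, h4⟩
    exact ⟨h1, h2, h3, h4⟩
  · rintro ⟨h1, h2, h3, h4⟩
    exact ⟨⟨h1, h2⟩, h3, h4⟩

end fin

theorem wth (ssl : SslStmt) (nsv : NsvStmt) : WthStmt := by
  intro ℓ _ M _ hM hℓ V₀ G _ _ _ _ E₀ hFr B hSy n m hPE c d L hL1 hL2
  classical
  have iG := Fintype.ofFinite G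
  have iV := Fintype.ofFinite V₀
  have iA := Fintype.ofFinite (MulAut V₀)
  have iL := Fintype.ofFinite (lin V₀)
  obtain ⟨b1, v1, z1, -⟩ := nsv ℓ M hM hℓ V₀ G E₀ hFr B hSy (pL L) hL1
  obtain ⟨b2, v2, z2, -⟩ := nsv ℓ M hM hℓ V₀ G E₀ hFr B hSy (qL L) hL2
  have hℓ0 : (ℓ : ℂ) ≠ 0 := by exact_mod_cast (Fact.out : ℓ.Prime).ne_zero
  have hc1 : (Nat.card (B.C (pL L)) : ℂ) ≠ 0 := by exact_mod_cast Nat.card_pos.ne'
  have hc2 : (Nat.card (B.C (qL L)) : ℂ) ≠ 0 := by exact_mod_cast Nat.card_pos.ne'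
  have hS : ∀ W : Subgroup V₀, W ≠ ⊥ → ((B.S W : ℤ) : ℂ) * (B.S W : ℤ) = 1 := by
    intro W hW
    rcases hSy.sg W hW with h | h <;> rw [h] <;> norm_num
  rw [w13_SL B m c d L (fun χ h h' h'' => z1 χ h h' h'' c) (fun χ h h' h'' => z2 χ h h' h'' d)]
  have key : ∀ χ ∈ (ch_finite B (pL L)).toFinset, ∀ χ' ∈ (ch_finite B (qL L)).toFinset,
      cv (fc B (pL L) c) χ * cv (fc B (qL L) d) χ' *
        (SL B m (Lm L) χ χ' * starRingEnd ℂ (SL B m (Lp L) χ χ')) =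
      (((ux B.U (pL L) c : ℚ) : ℂ) * ((ux B.U (qL L) d : ℚ) : ℂ) *
        ((Nat.card (B.C (pL L)) : ℂ) * Nat.card (B.C (qL L)) / ℓ ^ 2) ^ 2) *
      (lam B (pL L) χ c * lam B (qL L) χ' d *
        ((∑ᶠ w ∈ TT E₀ (Lm L), lam B (pL L) χ w.2 *
            starRingEnd ℂ (lam B (qL L) χ' (w.1 w.2))) *
          starRingEnd ℂ (∑ᶠ w ∈ TT E₀ (Lp L), lam B (pL L) χ w.2 *
            starRingEnd ℂ (lam B (qL L) χ' (w.1 w.2))))) := by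
    intro χ hχ χ' hχ'
    rw [Set.Finite.mem_toFinset] at hχ hχ'
    have s1 := ssl ℓ M hM hℓ V₀ G E₀ hFr B hSy n m hPE (Lm L) (by rw [p1_Lm]; exact hL1)
      (by rw [p2_Lm]; exact hL2) χ (by rw [p1_Lm]; exact hχ) χ' (by rw [p2_Lm]; exact hχ')
    have s2 := ssl ℓ M hM hℓ V₀ G E₀ hFr B hSy n m hPE (Lp L) (by rw [p1_Lp]; exact hL1)
      (by rw [p2_Lp]; exact hL2) χ (by rw [p1_Lp]; exact hχ) χ' (by rw [p2_Lp]; exact hχ')
    rw [p1_Lm, p2_Lm] at s1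
    rw [p1_Lp, p2_Lp] at s2
    have t1 := hS _ hL1
    have t2 := hS _ hL2
    change SL B m (Lm L) χ χ' = (Nat.card (B.C (pL L)) : ℂ) * Nat.card (B.C (qL L)) / ℓ ^ 2 *
      (B.S (pL L) * B.S (qL L)) * ∑ᶠ w ∈ TT E₀ (Lm L), lam B (pL L) χ w.2 *
        starRingEnd ℂ (lam B (qL L) χ' (w.1 w.2)) at s1
    change SL B m (Lp L) χ χ' = (Nat.card (B.C (pL L)) : ℂ) * Nat.card (B.C (qL L)) / ℓ ^ 2 *
      (B.S (pL L) * B.S (qL L)) * ∑ᶠ w ∈ TT E₀ (Lp L), lam B (pL L) χ w.2 *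
        starRingEnd ℂ (lam B (qL L) χ' (w.1 w.2)) at s2
    rw [s1, s2, v1 χ hχ, v2 χ' hχ']
    generalize (∑ᶠ w ∈ TT E₀ (Lm L), lam B (pL L) χ w.2 *
      starRingEnd ℂ (lam B (qL L) χ' (w.1 w.2))) = P
    generalize (∑ᶠ w ∈ TT E₀ (Lp L), lam B (pL L) χ w.2 *
      starRingEnd ℂ (lam B (qL L) χ' (w.1 w.2))) = R
    have hK : starRingEnd ℂ ((Nat.card (B.C (pL L)) : ℂ) * Nat.card (B.C (qL L)) / ℓ ^ 2 *
        (B.S (pL L) * B.S (qL L)) * R) = (Nat.card (B.C (pL L)) : ℂ) * Nat.card (B.C (qL L)) /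
        ℓ ^ 2 * (B.S (pL L) * B.S (qL L)) * starRingEnd ℂ R := by
      simp only [map_mul, map_div₀, map_pow, map_natCast, map_intCast]
    rw [hK]
    generalize starRingEnd ℂ R = Q
    generalize ((B.S (pL L) : ℤ) : ℂ) = S₁ at t1 ⊢
    generalize ((B.S (qL L) : ℤ) : ℂ) = S₂ at t2 ⊢
    generalize (Nat.card (B.C (pL L)) : ℂ) = N₁
    generalize (Nat.card (B.C (qL L)) : ℂ) = N₂
    generalize ((ux B.U (pL L) c : ℚ) : ℂ) = x₁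
    generalize ((ux B.U (qL L) d : ℚ) : ℂ) = x₂
    have t3 : (S₁ * S₂) * (S₁ * S₂) = 1 := by
      calc (S₁ * S₂) * (S₁ * S₂) = (S₁ * S₁) * (S₂ * S₂) := by ring
        _ = 1 := by rw [t1, t2, one_mul]
    calc _ = ((S₁ * S₂) * (S₁ * S₂)) * (x₁ * x₂ * (N₁ * N₂ / ℓ ^ 2) ^ 2 *
          (lam B (pL L) χ c * lam B (qL L) χ' d * (P * Q))) := by ring
      _ = _ := by rw [t3, one_mul]
  rw [Finset.sum_congr rfl fun χ hχ => Finset.sum_congr rfl fun χ' hχ' => key χ hχ χ' hχ']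
  simp only [← Finset.mul_sum]
  have h5 : ∑ χ ∈ (ch_finite B (pL L)).toFinset, ∑ χ' ∈ (ch_finite B (qL L)).toFinset,
      (lam B (pL L) χ c * lam B (qL L) χ' d *
        ((∑ᶠ w ∈ TT E₀ (Lm L), lam B (pL L) χ w.2 *
            starRingEnd ℂ (lam B (qL L) χ' (w.1 w.2))) *
          starRingEnd ℂ (∑ᶠ w ∈ TT E₀ (Lp L), lam B (pL L) χ w.2 *
            starRingEnd ℂ (lam B (qL L) χ' (w.1 w.2))))) =
      (Nat.card V₀ : ℂ) ^ 2 * N13 E₀ c d L := by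
    rw [← lin_double E₀ c d L]
    rw [← sum_lam B (pL L) b1 (fun f => ∑ f' : lin V₀, f c * f'.1 d *
      ((∑ᶠ w ∈ TT E₀ (Lm L), f w.2 * starRingEnd ℂ (f'.1 (w.1 w.2))) *
        starRingEnd ℂ (∑ᶠ w ∈ TT E₀ (Lp L), f w.2 * starRingEnd ℂ (f'.1 (w.1 w.2)))))]
    refine Finset.sum_congr rfl fun χ _ => ?_
    exact sum_lam B (qL L) b2 (fun f' => lam B (pL L) χ c * f' d *
      ((∑ᶠ w ∈ TT E₀ (Lm L), lam B (pL L) χ w.2 * starRingEnd ℂ (f' (w.1 w.2))) *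
        starRingEnd ℂ (∑ᶠ w ∈ TT E₀ (Lp L), lam B (pL L) χ w.2 *
          starRingEnd ℂ (f' (w.1 w.2)))))
  rw [h5, hFr.cd]
  unfold P13
  push_cast
  field_simp

end Pool.Agent.PP.SO.H79
end
end -- Pool.Agent.Helper79_ASO.WTH

section -- Pool.Agent.Helper58_ASE.X3C

/-!
# Squad ASE, row X3C: `X13` in terms of characters

As in `Helper79_ASO/WTH.lean` (`w13_SL`) and `Helper49_ASD/W3C.lean`, with `a`, `b` in place of the
functions `fc`.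
-/

open scoped BigOperators

set_option linter.unusedSectionVars false

noncomputable section

namespace Pool.Agent.PP.SE.H58

open Pool.Agent.Helper51_AWC Pool.Agent.Helper79_WRA Pool.Agent.PP Pool.Agent.PP.KF
open Pool.Agent.PP.K9 Pool.Agent.PP.K9.H97 Pool.Agent.PP.H75 Pool.Agent.PP.T3 Pool.Agent.PP.SO
open Pool.Agent.PP.SD

attribute [local instance] Ideal.Quotient.field

section gen

variable {G : Type} [Group G] [Fintype G]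

open Classical in
/-- `reparam` without the elements `c`, `d` -/
theorem reparam1 (b₁ b₂ : G → ℂ) (p : G → G → G → G → Prop) :
    ∑ w : G × G, b₁ w.1 * b₂ w.2 *
      (({z : XX w.1 w.2 | p w.1 z.1.1 z.1.2.1 z.1.2.2} : Set (XX w.1 w.2)).ncard : ℂ) =
    ∑ a : G × G × G × G, b₁ (a.1 * a.2.1⁻¹) *
      b₂ ((a.2.2.1⁻¹ * a.2.1 * a.2.2.1) * (a.2.2.2⁻¹ * a.1⁻¹ * a.2.2.2)) *
      if p (a.1 * a.2.1⁻¹) a.1 (a.2.2.1 * a.2.2.2⁻¹) a.2.2.1 then 1 else 0 := by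
  have h := SO.H79.reparam b₁ b₂ 1 1 p
  simp only [inv_one, one_mul] at h
  rw [← h]
  refine Finset.sum_congr rfl fun w _ => ?_
  rw [SO.H79.xx_count w.1 w.2 (fun x y u => p w.1 x y u),
    SO.H79.xx_count (1 * w.1) (1 * w.2) (fun x y u => p w.1 x y u)]
  simp only [one_mul]

end gen

section x13

variable {V₀ G : Type} [CommGroup V₀] [Finite V₀] [Group G] [Fintype G]
  {M : Ideal (integralClosure ℤ ℂ)} [M.IsMaximal] {n : ℕ}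

/-- `X13` as a sum over quadruples -/
theorem x13_quad (B : Bk (FF M) V₀ G) (m : ℕ) (L : Set (SO.SS n V₀))
    (a b : Subgroup V₀ → G → ℂ) (ha : ∀ g, g ∉ B.C (pL L) → a (pL L) g = 0) :
    X13 B m a b L = ((Nat.card (B.C (pL L)) : ℂ) * Nat.card (B.C (qL L)))⁻¹ *
      ∑ v : G × G × G × G, a (pL L) (v.1 * v.2.1⁻¹) *
        b (qL L) ((v.2.2.1⁻¹ * v.2.1 * v.2.2.1) * (v.2.2.2⁻¹ * v.1⁻¹ * v.2.2.2)) *
        (SO.H79.ind B m (SO.H79.Lm L) v.2.1 v.2.2.1 * SO.H79.ind B m (SO.H79.Lp L) v.1 v.2.2.2) := by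
  classical
  unfold X13
  rw [finsum_eq_sum_of_fintype]
  congr 1
  rw [reparam1 (a (pL L)) (b (qL L))
    (fun g x y u => ∀ s ∈ L, c13 m B.i g x y u s.1 s.2.1 s.2.2.1 s.2.2.2)]
  refine Finset.sum_congr rfl fun v _ => ?_
  by_cases hg : v.1 * v.2.1⁻¹ ∈ B.C (pL L)
  · congr 1
    have h2 := SO.H79.cond_iff B m L v.1 v.2.1 v.2.2.1 v.2.2.2 hg
    by_cases h3 : ∀ s ∈ L, c13 m B.i (v.1 * v.2.1⁻¹) v.1 (v.2.2.1 * v.2.2.2⁻¹) v.2.2.1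
        s.1 s.2.1 s.2.2.1 s.2.2.2
    · rw [if_pos h3]
      have h4 := h2.1 h3
      rw [SO.H79.ind, SO.H79.ind, SO.H79.p1_Lm, SO.H79.p1_Lp, if_pos h4.1, if_pos h4.2, one_mul]
    · rw [if_neg h3]
      by_cases h5 : v.2.1 ∈ B.C (pL L) ∧ SO.H79.PL B.i m (SO.H79.Lm L) v.2.1 v.2.2.1
      · have h6 : ¬ (v.1 ∈ B.C (pL L) ∧ SO.H79.PL B.i m (SO.H79.Lp L) v.1 v.2.2.2) := fun h6 =>
          h3 (h2.2 ⟨h5, h6⟩)
        rw [SO.H79.ind, SO.H79.ind, SO.H79.p1_Lm, SO.H79.p1_Lp, if_neg h6, mul_zero]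
      · rw [SO.H79.ind, SO.H79.ind, SO.H79.p1_Lm, SO.H79.p1_Lp, if_neg h5, zero_mul]
  · simp only [ha _ hg, zero_mul]

/-- `X13` in terms of the sums `SL` -/
theorem x13_SL (B : Bk (FF M) V₀ G) (m : ℕ) (L : Set (SO.SS n V₀))
    (a b : Subgroup V₀ → G → ℂ) (ha : ∀ g, g ∉ B.C (pL L) → a (pL L) g = 0)
    (h1 : ∀ g, a (pL L) g = ∑ χ ∈ (SO.H79.ch_finite B (pL L)).toFinset,
      cv (a (pL L)) χ * (χ 1 / Nat.card (B.C (pL L))) * χ g⁻¹)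
    (h2 : ∀ g, b (qL L) g = ∑ χ ∈ (SO.H79.ch_finite B (qL L)).toFinset,
      cv (b (qL L)) χ * (χ 1 / Nat.card (B.C (qL L))) * χ g⁻¹) :
    X13 B m a b L = (((Nat.card (B.C (pL L)) : ℂ) * Nat.card (B.C (qL L))) ^ 2)⁻¹ *
      ∑ χ ∈ (SO.H79.ch_finite B (pL L)).toFinset,
        ∑ χ' ∈ (SO.H79.ch_finite B (qL L)).toFinset,
        cv (a (pL L)) χ * cv (b (qL L)) χ' *
          (SL B m (SO.H79.Lm L) χ χ' * starRingEnd ℂ (SL B m (SO.H79.Lp L) χ χ')) := by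
  classical
  have i1 := Fintype.ofFinite (B.C (pL L))
  have i2 := Fintype.ofFinite (B.C (qL L))
  have hI : SO.H79.Inv2 (B.C (pL L)) (B.C (qL L)) (SO.H79.ind B m (SO.H79.Lm L)) := by
    have := SO.H79.ind_inv B m (SO.H79.Lm L)
    rwa [SO.H79.p1_Lm, SO.H79.p2_Lm] at this
  have hs : ∀ X u, SO.H79.ind B m (SO.H79.Lm L) X u ≠ 0 →
      X ∈ B.C (pL L) ∧ u⁻¹ * X⁻¹ * u ∈ B.C (qL L) := by
    intro X u h
    have := SO.H79.ind_supp B m (SO.H79.Lm L) X u h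
    rwa [SO.H79.p1_Lm, SO.H79.p2_Lm] at this
  have hs' : ∀ X u, SO.H79.ind B m (SO.H79.Lp L) X u ≠ 0 →
      X ∈ B.C (pL L) ∧ u⁻¹ * X⁻¹ * u ∈ B.C (qL L) := by
    intro X u h
    have := SO.H79.ind_supp B m (SO.H79.Lp L) X u h
    rwa [SO.H79.p1_Lp, SO.H79.p2_Lp] at this
  have hc1 : (Nat.card (B.C (pL L)) : ℂ) ≠ 0 := by exact_mod_cast Nat.card_pos.ne'
  have hc2 : (Nat.card (B.C (qL L)) : ℂ) ≠ 0 := by exact_mod_cast Nat.card_pos.ne'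
  have h3 : ∀ χ ∈ (SO.H79.ch_finite B (pL L)).toFinset,
      ∀ χ' ∈ (SO.H79.ch_finite B (qL L)).toFinset,
      ∑ v : G × G × G × G, χ (v.2.1 * v.1⁻¹) *
        χ' ((v.2.2.2⁻¹ * v.1 * v.2.2.2) * (v.2.2.1⁻¹ * v.2.1⁻¹ * v.2.2.1)) *
        (SO.H79.ind B m (SO.H79.Lm L) v.2.1 v.2.2.1 * SO.H79.ind B m (SO.H79.Lp L) v.1 v.2.2.2) =
      (χ 1 * χ' 1)⁻¹ * SL B m (SO.H79.Lm L) χ χ' *
        starRingEnd ℂ (SL B m (SO.H79.Lp L) χ χ') := by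
    intro χ hχ χ' hχ'
    rw [Set.Finite.mem_toFinset] at hχ hχ'
    rw [SO.H79.split4 (B.C (pL L)) (B.C (qL L)) hχ.2.1 hχ'.2.1 _ _ hI hs hs',
      SO.H79.SL_eq B m (SO.H79.Lm L) χ χ' (by rw [SO.H79.p1_Lm]; exact hχ.1),
      SO.H79.SL_star B m (SO.H79.Lp L) χ χ' (by rw [SO.H79.p1_Lp]; exact hχ.1)
        (SO.H79.ch_star hχ.1 hχ.2.1) (SO.H79.ch_star hχ'.1 hχ'.2.1)]
  rw [x13_quad B m L a b ha]
  have h4 : ∑ v : G × G × G × G, a (pL L) (v.1 * v.2.1⁻¹) *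
        b (qL L) ((v.2.2.1⁻¹ * v.2.1 * v.2.2.1) * (v.2.2.2⁻¹ * v.1⁻¹ * v.2.2.2)) *
        (SO.H79.ind B m (SO.H79.Lm L) v.2.1 v.2.2.1 * SO.H79.ind B m (SO.H79.Lp L) v.1 v.2.2.2) =
      ∑ χ ∈ (SO.H79.ch_finite B (pL L)).toFinset,
        ∑ χ' ∈ (SO.H79.ch_finite B (qL L)).toFinset,
        (cv (a (pL L)) χ * (χ 1 / Nat.card (B.C (pL L)))) *
        (cv (b (qL L)) χ' * (χ' 1 / Nat.card (B.C (qL L)))) *
        ∑ v : G × G × G × G, χ (v.2.1 * v.1⁻¹) *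
          χ' ((v.2.2.2⁻¹ * v.1 * v.2.2.2) * (v.2.2.1⁻¹ * v.2.1⁻¹ * v.2.2.1)) *
          (SO.H79.ind B m (SO.H79.Lm L) v.2.1 v.2.2.1 *
            SO.H79.ind B m (SO.H79.Lp L) v.1 v.2.2.2) := by
    simp only [Finset.mul_sum]
    rw [Finset.sum_congr rfl fun χ _ => Finset.sum_comm, Finset.sum_comm]
    refine Finset.sum_congr rfl fun v _ => ?_
    rw [h1 (v.1 * v.2.1⁻¹), h2
      ((v.2.2.1⁻¹ * v.2.1 * v.2.2.1) * (v.2.2.2⁻¹ * v.1⁻¹ * v.2.2.2)), Finset.sum_mul_sum,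
      Finset.sum_mul]
    refine Finset.sum_congr rfl fun χ _ => ?_
    rw [Finset.sum_mul]
    refine Finset.sum_congr rfl fun χ' _ => ?_
    have e1 : (v.1 * v.2.1⁻¹)⁻¹ = v.2.1 * v.1⁻¹ := by group
    have e2 : ((v.2.2.1⁻¹ * v.2.1 * v.2.2.1) * (v.2.2.2⁻¹ * v.1⁻¹ * v.2.2.2))⁻¹ =
        (v.2.2.2⁻¹ * v.1 * v.2.2.2) * (v.2.2.1⁻¹ * v.2.1⁻¹ * v.2.2.1) := by group
    rw [e1, e2]
    ring
  rw [h4, Finset.mul_sum, Finset.mul_sum]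
  refine Finset.sum_congr rfl fun χ hχ => ?_
  rw [Finset.mul_sum, Finset.mul_sum]
  refine Finset.sum_congr rfl fun χ' hχ' => ?_
  rw [h3 χ hχ χ' hχ']
  have n1 : χ 1 ≠ 0 := SO.H79.one_sub _ ((Set.Finite.mem_toFinset _).1 hχ).2.1
  have n2 : χ' 1 ≠ 0 := SO.H79.one_sub _ ((Set.Finite.mem_toFinset _).1 hχ').2.1
  field_simp

/-- an element of the centre of the block as a combination of the characters -/
theorem cz_expand (B : Bk (FF M) V₀ G) (W : Subgroup V₀) (a : G → ℂ) (ha : Cz B W a)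
    (h : ∀ g ∈ B.C W, a g = ∑ᶠ χ ∈ Ch B W, cv a χ * (χ 1 / Nat.card (B.C W)) * χ g⁻¹) (g : G) :
    a g = ∑ χ ∈ (SO.H79.ch_finite B W).toFinset,
      cv a χ * (χ 1 / Nat.card (B.C W)) * χ g⁻¹ := by
  by_cases hg : g ∈ B.C W
  · rw [h g hg, finsum_mem_eq_finite_toFinset_sum _ (SO.H79.ch_finite B W)]
  · rw [ha.sup g hg, Finset.sum_eq_zero]
    intro χ hχ
    rw [Set.Finite.mem_toFinset] at hχ
    rw [hχ.1 g⁻¹ (fun h => hg ((B.C W).inv_mem_iff.1 h)), mul_zero]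

end x13

theorem x3c (czb : CzbStmt) : X3cStmt := by
  intro ℓ _ M _ hM hℓ V₀ G _ _ _ _ E₀ hF B hS n m hPE L a b ha hb
  classical
  have iG := Fintype.ofFinite G
  have f1 := (czb ℓ M hM hℓ V₀ G E₀ hF B hS (pL L)).2.1 _ ha
  have f2 := (czb ℓ M hM hℓ V₀ G E₀ hF B hS (qL L)).2.1 _ hb
  have h := x13_SL B m L a b ha.sup (cz_expand B (pL L) _ ha f1) (cz_expand B (qL L) _ hb f2)
  have e1 : SO.H79.Lm L = Lm L := by
    ext s
    exact ⟨fun ⟨t, ht, h⟩ => ⟨t, ht, h.symm⟩, fun ⟨t, ht, h⟩ => ⟨t, ht, h.symm⟩⟩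
  have e2 : SO.H79.Lp L = Lq L := by
    ext s
    exact ⟨fun ⟨t, ht, h⟩ => ⟨t, ht, h.symm⟩, fun ⟨t, ht, h⟩ => ⟨t, ht, h.symm⟩⟩
  rw [e1, e2] at h
  rw [h, finsum_mem_eq_finite_toFinset_sum _ (SO.H79.ch_finite B (pL L)), ← inv_pow]
  congr 1
  refine Finset.sum_congr rfl fun χ _ => ?_
  rw [finsum_mem_eq_finite_toFinset_sum _ (SO.H79.ch_finite B (qL L))]

end Pool.Agent.PP.SE.H58
end
end -- Pool.Agent.Helper58_ASE.X3C

section -- Pool.Agent.Helper55_ASE.HYC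

/-!
# Squad ASE, row HYC: `HY` in terms of characters
-/

open scoped BigOperators

noncomputable section

namespace Pool.Agent.PP.SE.H55

open Pool.Agent.Helper51_AWC Pool.Agent.Helper79_WRA Pool.Agent.PP Pool.Agent.PP.KF
open Pool.Agent.PP.K9 Pool.Agent.PP.K9.H97 Pool.Agent.PP.H75 Pool.Agent.PP.T3 Pool.Agent.PP.SO
open Pool.Agent.PP.SD Pool.Agent.PP.SO.H10W

attribute [local instance] Ideal.Quotient.field

/-- membership in the centraliser of a generated subgroup -/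
theorem mem_C_closure {F V₀ G : Type} [CommGroup V₀] [Group G] (B : Bk F V₀ G) (A : Subgroup V₀)
    (T : Set (V₀ × ℕ)) (hA : Subgroup.closure {α | ∃ t ∈ T, t.1 = α} = A) (x : G) :
    x ∈ B.C A ↔ ∀ t ∈ T, B.i t.1 * x = x * B.i t.1 := by
  have h1 : B.C A = Subgroup.centralizer (B.i '' {α | ∃ t ∈ T, t.1 = α}) := by
    unfold Bk.C
    rw [← hA, MonoidHom.map_closure, Subgroup.centralizer_closure]
  rw [h1, Subgroup.mem_centralizer_iff]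
  constructor
  · intro h t ht
    exact h _ ⟨_, ⟨t, ht, rfl⟩, rfl⟩
  · rintro h _ ⟨_, ⟨t, ht, rfl⟩, rfl⟩
    exact h t ht

open Classical in
/-- the condition for `y` and `z = x ^ m` -/
def Ph {F V₀ G : Type} [CommGroup V₀] [Group G] (B : Bk F V₀ G) (T : Set (V₀ × ℕ))
    (z y : G) : ℂ :=
  if ∀ t ∈ T, y⁻¹ * B.i t.1 * y = B.i t.1 * z ^ t.2 then 1 else 0

theorem ph_inv {F V₀ G : Type} [CommGroup V₀] [Group G] (B : Bk F V₀ G) (A : Subgroup V₀)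
    (T : Set (V₀ × ℕ)) (hA : Subgroup.closure {α | ∃ t ∈ T, t.1 = α} = A) (z y v : G)
    (hv : v ∈ B.C A) : Ph B T z (v * y) = Ph B T z y := by
  rw [mem_C_closure B A T hA] at hv
  unfold Ph
  congr 1
  apply propext
  refine forall₂_congr fun t ht => ?_
  have h1 := hv t ht
  generalize B.i t.1 = a at h1 ⊢
  have h2 : (v * y)⁻¹ * a * (v * y) = y⁻¹ * a * y := by
    calc (v * y)⁻¹ * a * (v * y) = y⁻¹ * v⁻¹ * (a * v) * y := by group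
      _ = y⁻¹ * v⁻¹ * (v * a) * y := by rw [h1]
      _ = y⁻¹ * a * y := by group
  rw [h2]

theorem hyc (czb : CzbStmt) : HycStmt := by
  classical
  intro ℓ _ M _ hM hℓ V₀ G _ _ _ _ E₀ hF B hB n m hPE A a T ha hA
  have iG : Fintype G := Fintype.ofFinite G
  have iH : Fintype (B.C A) := Fintype.ofFinite (B.C A)
  have hexp := (czb ℓ M hM hℓ V₀ G E₀ hF B hB A).2.1 a ha
  have hHc : (Fintype.card (B.C A) : ℂ) ≠ 0 := by
    exact_mod_cast Fintype.card_ne_zero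
  have hNc : (Nat.card (B.C A) : ℂ) = Fintype.card (B.C A) := by rw [Nat.card_eq_fintype_card]
  -- the set `S`
  let S : Set (G × G) := {w | w.1 ∈ B.C A ∧ w.2 * w.1 * w.2⁻¹ ∈ B.C A}
  have hkap : ∀ w : G × G, SO.kap w.1 w.2 = w.1 * (w.2 * w.1 * w.2⁻¹)⁻¹ := by
    intro w
    unfold SO.kap
    group
  have hSkap : ∀ w : G × G, w.1 ∈ B.C A → SO.kap w.1 w.2 ∈ B.C A → w ∈ S := by
    intro w h1 h2
    refine ⟨h1, ?_⟩
    rw [hkap] at h2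
    have h3 := (B.C A).mul_mem ((B.C A).inv_mem h1) h2
    rw [inv_mul_cancel_left] at h3
    exact (B.C A).inv_mem_iff.1 h3
  have hSkap' : ∀ w : G × G, w ∈ S → SO.kap w.1 w.2 ∈ B.C A := by
    intro w hw
    rw [hkap]
    exact (B.C A).mul_mem hw.1 ((B.C A).inv_mem hw.2)
  have hSm : ∀ (z : B.C A) w, em (B.C A) z w ∈ S ↔ w ∈ S := by
    intro z w
    have e2 : ((z : G) * w.2) * w.1 * ((z : G) * w.2)⁻¹ =
        (z : G) * (w.2 * w.1 * w.2⁻¹) * (z : G)⁻¹ := by group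
    show (w.1 ∈ B.C A ∧ ((z : G) * w.2) * w.1 * ((z : G) * w.2)⁻¹ ∈ B.C A) ↔ _
    rw [e2, Subgroup.mul_mem_cancel_right _ ((B.C A).inv_mem z.2),
      Subgroup.mul_mem_cancel_left _ z.2]
    rfl
  -- step 1: the left side as one sum
  have s1 : HY B m A a T = (Nat.card (B.C A) : ℂ)⁻¹ *
      ∑ w : G × G, (if w ∈ S then a (SO.kap w.1 w.2) * Ph B T (w.1 ^ m) w.2 else 0) := by
    unfold HY
    congr 1
    rw [finsum_eq_sum_of_fintype]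
    simp only [ncard_sum, Finset.mul_sum]
    rw [Finset.sum_comm]
    refine Finset.sum_congr rfl fun w _ => ?_
    rw [Finset.sum_eq_single (SO.kap w.1 w.2)]
    · by_cases hw : w ∈ S
      · rw [if_pos hw]
        unfold Ph
        have h1 := (mem_C_closure B A T hA w.1).1 hw.1
        by_cases h2 : ∀ t ∈ T, w.2⁻¹ * B.i t.1 * w.2 = B.i t.1 * (w.1 ^ m) ^ t.2
        · rw [if_pos ⟨rfl, fun t ht => ⟨h1 t ht, h2 t ht⟩⟩, if_pos h2]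
        · rw [if_neg (fun h => h2 fun t ht => (h.2 t ht).2), if_neg h2]
      · rw [if_neg hw]
        by_cases h1 : w.1 ∈ B.C A
        · rw [ha.sup _ (fun h => hw (hSkap w h1 h)), zero_mul]
        · rw [if_neg, mul_zero]
          rintro ⟨-, h2⟩
          exact h1 ((mem_C_closure B A T hA w.1).2 fun t ht => (h2 t ht).1)
    · intro g _ hg
      rw [if_neg, mul_zero]
      rintro ⟨h1, -⟩
      exact hg h1.symm
    · intro h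
      exact absurd (Finset.mem_univ _) h
  -- step 2: the characters
  obtain ⟨X, hX⟩ : ∃ X, X = (H79.ch_finite B A).toFinset := ⟨_, rfl⟩
  have hXm : ∀ χ, χ ∈ X ↔ χ ∈ Ch B A := by
    intro χ
    rw [hX, Set.Finite.mem_toFinset]
  have s4 : ∀ g ∈ B.C A, a g = ∑ χ ∈ X, cv a χ * (χ 1 / Nat.card (B.C A)) * χ g⁻¹ := by
    intro g hg
    rw [hexp g hg, finsum_mem_eq_finite_toFinset_sum _ (H79.ch_finite B A), hX]
  have s5 : ∀ χ ∈ X, ∑ w, (if w ∈ S then χ (SO.kap w.1 w.2)⁻¹ * Ph B T (w.1 ^ m) w.2 else 0) =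
      (χ 1)⁻¹ * ∑ w, (if w ∈ S then
        Ph B T (w.1 ^ m) w.2 * (χ (w.2 * w.1 * w.2⁻¹) * χ w.1⁻¹) else 0) := by
    intro χ hχ
    have n1 : χ 1 ≠ 0 := H79.one_sub _ ((hXm χ).1 hχ).2.1
    have e1 := avg (B.C A) S (em (B.C A)) hSm
      (fun w => χ (SO.kap w.1 w.2)⁻¹ * Ph B T (w.1 ^ m) w.2)
    have e2 : ∑ w, (if w ∈ S then ∑ z : B.C A,
        χ (SO.kap (em (B.C A) z w).1 (em (B.C A) z w).2)⁻¹ *
          Ph B T ((em (B.C A) z w).1 ^ m) (em (B.C A) z w).2 else 0) =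
        ∑ w, (if w ∈ S then (Fintype.card (B.C A) : ℂ) *
          (χ (w.2 * w.1 * w.2⁻¹) * χ w.1⁻¹ / χ 1) * Ph B T (w.1 ^ m) w.2 else 0) := by
      refine Finset.sum_congr rfl fun w _ => ?_
      by_cases hw : w ∈ S
      · rw [if_pos hw, if_pos hw]
        have h1 := ch_avg ((hXm χ).1 hχ) hw.2 ((B.C A).inv_mem hw.1)
        rw [← h1, Finset.sum_mul]
        refine Finset.sum_congr rfl fun z _ => ?_
        have e3 : (SO.kap w.1 ((z : G) * w.2))⁻¹ =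
            (z : G) * (w.2 * w.1 * w.2⁻¹) * (z : G)⁻¹ * w.1⁻¹ := by
          unfold SO.kap
          group
        show χ (SO.kap w.1 ((z : G) * w.2))⁻¹ * Ph B T (w.1 ^ m) ((z : G) * w.2) = _
        rw [e3, ph_inv B A T hA _ _ _ z.2]
      · rw [if_neg hw, if_neg hw]
    rw [e2] at e1
    have e3 : ∑ w, (if w ∈ S then (Fintype.card (B.C A) : ℂ) *
          (χ (w.2 * w.1 * w.2⁻¹) * χ w.1⁻¹ / χ 1) * Ph B T (w.1 ^ m) w.2 else 0) =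
        (Fintype.card (B.C A) : ℂ) * ((χ 1)⁻¹ *
        ∑ w, (if w ∈ S then
          Ph B T (w.1 ^ m) w.2 * (χ (w.2 * w.1 * w.2⁻¹) * χ w.1⁻¹) else 0)) := by
      rw [Finset.mul_sum, Finset.mul_sum]
      refine Finset.sum_congr rfl fun w _ => ?_
      split_ifs
      · field_simp
      · simp
    rw [e3] at e1
    exact mul_left_cancel₀ hHc e1
  -- step 3: the sums `SL`
  have s6 : ∀ χ ∈ X, ∑ w, (if w ∈ S then
        Ph B T (w.1 ^ m) w.2 * (χ (w.2 * w.1 * w.2⁻¹) * χ w.1⁻¹) else 0) =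
      starRingEnd ℂ (SL B m (LT T) χ χ) := by
    intro χ hχ
    have hχ' := (hXm χ).1 hχ
    unfold SL
    rw [finsum_mem_def, finsum_eq_sum_of_fintype, map_sum]
    let e : G × G ≃ G × G := Equiv.prodCongr (Equiv.refl G) (Equiv.inv G)
    refine Eq.trans ?_ (Equiv.sum_comp e _)
    refine Finset.sum_congr rfl fun w _ => ?_
    rw [Set.indicator_apply]
    have hmem : e w ∈ {w : G × G | ∀ s ∈ LT T, w.2 * B.i s.2.1 * w.2⁻¹ =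
        B.i s.1 * (w.1 ^ m) ^ s.2.2} ↔
        ∀ t ∈ T, w.2⁻¹ * B.i t.1 * w.2 = B.i t.1 * (w.1 ^ m) ^ t.2 := by
      constructor
      · intro h t ht
        have h1 : w.2⁻¹ * B.i t.1 * (w.2⁻¹)⁻¹ = B.i t.1 * (w.1 ^ m) ^ ((t.2 : ℕ) : ℤ) :=
          h _ ⟨t, ht, rfl⟩
        rw [inv_inv, zpow_natCast] at h1
        exact h1
      · rintro h _ ⟨t, ht, rfl⟩
        show w.2⁻¹ * B.i t.1 * (w.2⁻¹)⁻¹ = B.i t.1 * (w.1 ^ m) ^ ((t.2 : ℕ) : ℤ)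
        rw [inv_inv, zpow_natCast]
        exact h t ht
    have hterm : starRingEnd ℂ (χ (e w).1 * χ ((e w).2⁻¹ * (e w).1⁻¹ * (e w).2)) =
        χ (w.2 * w.1 * w.2⁻¹) * χ w.1⁻¹ := by
      have e1 : (e w).2⁻¹ * (e w).1⁻¹ * (e w).2 = w.2 * w.1⁻¹ * w.2⁻¹ := by
        show (w.2⁻¹)⁻¹ * w.1⁻¹ * w.2⁻¹ = w.2 * w.1⁻¹ * w.2⁻¹
        rw [inv_inv]
      rw [e1, map_mul, ch_star hχ', ch_star hχ']
      have e2 : (w.2 * w.1⁻¹ * w.2⁻¹)⁻¹ = w.2 * w.1 * w.2⁻¹ := by group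
      rw [e2, mul_comm]
      rfl
    by_cases hw : w ∈ S
    · rw [if_pos hw]
      unfold Ph
      by_cases h2 : ∀ t ∈ T, w.2⁻¹ * B.i t.1 * w.2 = B.i t.1 * (w.1 ^ m) ^ t.2
      · rw [if_pos h2, if_pos (hmem.2 h2), hterm, one_mul]
      · rw [if_neg h2, if_neg (fun h => h2 (hmem.1 h)), zero_mul, map_zero]
    · rw [if_neg hw]
      have h5 : χ (w.2 * w.1 * w.2⁻¹) * χ w.1⁻¹ = 0 := by
        by_cases h6 : w.1 ∈ B.C A
        · rw [hχ'.1 _ (fun h => hw ⟨h6, h⟩), zero_mul]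
        · rw [hχ'.1 w.1⁻¹ (fun h => h6 ((B.C A).inv_mem_iff.1 h)), mul_zero]
      by_cases h7 : e w ∈ {w : G × G | ∀ s ∈ LT T, w.2 * B.i s.2.1 * w.2⁻¹ =
        B.i s.1 * (w.1 ^ m) ^ s.2.2}
      · rw [if_pos h7, hterm, h5]
      · rw [if_neg h7, map_zero]
  have s7 : ∑ w, (if w ∈ S then a (SO.kap w.1 w.2) * Ph B T (w.1 ^ m) w.2 else 0) =
      (Fintype.card (B.C A) : ℂ)⁻¹ * ∑ χ ∈ X, cv a χ * starRingEnd ℂ (SL B m (LT T) χ χ) := by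
    have e1 : ∀ w : G × G, (if w ∈ S then a (SO.kap w.1 w.2) * Ph B T (w.1 ^ m) w.2 else 0) =
        ∑ χ ∈ X, cv a χ * (χ 1 / Nat.card (B.C A)) *
          (if w ∈ S then χ (SO.kap w.1 w.2)⁻¹ * Ph B T (w.1 ^ m) w.2 else 0) := by
      intro w
      split_ifs with hw
      · rw [s4 _ (hSkap' w hw), Finset.sum_mul]
        refine Finset.sum_congr rfl fun χ _ => ?_
        ring
      · simp
    simp only [e1]
    rw [Finset.sum_comm, Finset.mul_sum]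
    refine Finset.sum_congr rfl fun χ hχ => ?_
    have n1 : χ 1 ≠ 0 := H79.one_sub _ ((hXm χ).1 hχ).2.1
    rw [← Finset.mul_sum, s5 χ hχ, s6 χ hχ, hNc]
    field_simp
  rw [s1, s7, hNc, finsum_mem_eq_finite_toFinset_sum _ (H79.ch_finite B A), ← hX]
  ring

end Pool.Agent.PP.SE.H55
end
end -- Pool.Agent.Helper55_ASE.HYC

section -- Pool.Agent.Helper55_ASE.HYF

/-!
# Squad ASE, row HYF: `HY` at `fm`
-/

open scoped BigOperators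

noncomputable section

namespace Pool.Agent.PP.SE.H55

open Pool.Agent.Helper51_AWC Pool.Agent.Helper79_WRA Pool.Agent.PP Pool.Agent.PP.KF
open Pool.Agent.PP.K9 Pool.Agent.PP.K9.H97 Pool.Agent.PP.H75 Pool.Agent.PP.T3 Pool.Agent.PP.SO
open Pool.Agent.PP.SD

attribute [local instance] Ideal.Quotient.field

theorem pr_1 {V₀ : Type} [CommGroup V₀] (ℓ : ℕ) (E₀ : Subgroup (MulAut V₀)) (W : Subgroup V₀) :
    pr ℓ E₀ W 1 = 1 := by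
  unfold pr
  simp

theorem mem_mp' {V₀ : Type} [CommGroup V₀] (σ : MulAut V₀) (W : Subgroup V₀) (v : V₀) :
    σ v ∈ mp σ W ↔ v ∈ W := by
  unfold mp
  rw [Subgroup.mem_map]
  constructor
  · rintro ⟨x, hx, h⟩
    have h1 : σ x = σ v := h
    rwa [← σ.injective h1]
  · intro h
    exact ⟨v, h, rfl⟩

theorem mem_mp_inv {V₀ : Type} [CommGroup V₀] (σ : MulAut V₀) (W : Subgroup V₀) (v : V₀) :
    v ∈ mp σ⁻¹ W ↔ σ v ∈ W := by
  have h1 := mem_mp' σ⁻¹ W (σ v)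
  have h2 : σ⁻¹ (σ v) = v := by
    rw [MulAut.inv_apply]
    exact σ.symm_apply_apply v
  rw [h2] at h1
  exact h1

theorem mp_inv {V₀ : Type} [CommGroup V₀] (σ : MulAut V₀) (W : Subgroup V₀) (h : mp σ W = W) :
    mp σ⁻¹ W = W := by
  ext v
  rw [mem_mp_inv]
  constructor
  · intro h1
    rw [← h] at h1
    exact (mem_mp' σ W v).1 h1
  · intro h1
    rw [← h]
    exact (mem_mp' σ W v).2 h1

theorem fx_inv (fmb : FmbStmt) (acb : AcbStmt) {ℓ : ℕ} [Fact ℓ.Prime]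
    {M : Ideal (integralClosure ℤ ℂ)} [M.IsMaximal]
    (hM : (ℓ : integralClosure ℤ ℂ) ∈ M) (hℓ : ℓ ≠ 2) {V₀ G : Type} [CommGroup V₀] [Finite V₀]
    [Group G] [Finite G] {E₀ : Subgroup (MulAut V₀)} (hF : Fq ℓ V₀ E₀) {B : Bk (FF M) V₀ G}
    (hB : Sb ℓ M E₀ B) {D : Rd V₀ G} (hD : Rs ℓ E₀ B D) {A : Subgroup V₀} (hA : A ≠ ⊥)
    {g : MulAut V₀} (hg : g ∈ E₀) (hgA : mp g A = A) : D.fx A g⁻¹ = D.fx A g := by
  classical
  have iG : Fintype G := Fintype.ofFinite G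
  have hgA' := mp_inv g A hgA
  have hfm := (fmb ℓ M hM hℓ V₀ G E₀ hF B hB D hD A hA).2.2.2.2.2.1
  have hn : (nS E₀ A : ℂ) ≠ 0 := by
    have h1 : Finite (MulAut V₀) :=
      Finite.of_injective (fun σ : MulAut V₀ => (σ : V₀ → V₀)) DFunLike.coe_injective
    unfold nS
    exact_mod_cast Nat.card_pos.ne'
  have hux : ux D.U A 1 = 1 := by
    unfold ux
    rw [if_pos A.one_mem]
  -- the value of the sum
  have key : ∀ h ∈ E₀, mp h A = A → ∑ᶠ χ ∈ Ch B A, D.R A χ (ac B h⁻¹ χ) =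
      ((D.fx A h : ℚ) : ℂ) - 1 := by
    intro h hh hhA
    have h1 := hD.d8 A hA h hh hhA 1 A.one_mem 1
    rw [pr_1, one_mul, if_pos rfl, hux] at h1
    have h2 : ∑ᶠ χ ∈ Ch B A, cv (fm ℓ E₀ B D A 1) χ * nu B χ 1 * D.R A χ (ac B h⁻¹ χ) =
        (nS E₀ A : ℂ) * ∑ᶠ χ ∈ Ch B A, D.R A χ (ac B h⁻¹ χ) := by
      rw [mul_finsum_mem]
      refine finsum_mem_congr rfl fun χ hχ => ?_
      have n1 : χ 1 ≠ 0 := H79.one_sub _ hχ.2.1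
      have h3 : nu B χ 1 = 1 := by
        unfold nu
        rw [map_one, div_self n1]
      rw [hfm χ hχ, h3, mul_one]
    rw [h2] at h1
    have h4 : (nS E₀ A : ℂ) * ((1 : ℚ) : ℂ) * (((D.fx A h : ℚ) : ℂ) - 1) =
        (nS E₀ A : ℂ) * (((D.fx A h : ℚ) : ℂ) - 1) := by
      rw [Rat.cast_one, mul_one]
    rw [h4] at h1
    exact mul_left_cancel₀ hn h1
  have k1 := key g hg hgA
  have k2 := key g⁻¹ (E₀.inv_mem hg) hgA'
  have hb := (acb ℓ M hM hℓ V₀ G E₀ hF B hB).2 A g⁻¹ (E₀.inv_mem hg)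
  have hbij := hb.2.2.2.1
  rw [hgA'] at hbij
  have hcomp : ∀ χ ∈ Ch B A, ac B g (ac B g⁻¹ χ) = χ := by
    intro χ hχ
    have h1 := (hb.2.2.1 χ hχ).2.2.1 g hg
    rw [← h1, mul_inv_cancel]
    exact (hb.2.2.1 χ hχ).2.1
  have h5 : ∑ᶠ χ ∈ Ch B A, D.R A χ (ac B g⁻¹ χ) = ∑ᶠ χ ∈ Ch B A, D.R A χ (ac B (g⁻¹)⁻¹ χ) := by
    refine finsum_mem_eq_of_bijOn (ac B g⁻¹) hbij ?_
    intro χ hχ
    show _ = _
    rw [inv_inv, hcomp χ hχ]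
    exact ((hD.d6 A hA _ (hbij.1 hχ)).2 χ hχ).1
  rw [k1, k2] at h5
  have h6 := sub_left_injective h5
  exact_mod_cast h6.symm

theorem mem_Q {V₀ : Type} [CommGroup V₀] {n : ℕ} (E₀ : Subgroup (MulAut V₀)) (κ : V₀)
    (L : Set (SO.SS n V₀)) (w : MulAut V₀ × V₀) : w ∈ QL E₀ (LT (TL κ L)) ↔ w.1 ∈ E₀ ∧
    ∀ s ∈ L, w.1 (κ ^ (s.2.1 : ℕ) * s.2.2.1 * w.2 ^ (s.1 : ℕ)) = κ ^ (s.2.1 : ℕ) * s.2.2.1 := by
  constructor
  · rintro ⟨h1, h2⟩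
    refine ⟨h1, fun s hs => ?_⟩
    have h3 := h2 _ ⟨_, ⟨s, hs, rfl⟩, rfl⟩
    have h4 : w.1 (κ ^ (s.2.1 : ℕ) * s.2.2.1 * w.2 ^ (((s.1 : ℕ) : ℕ) : ℤ)) =
      κ ^ (s.2.1 : ℕ) * s.2.2.1 := h3
    rwa [zpow_natCast] at h4
  · rintro ⟨h1, h2⟩
    refine ⟨h1, ?_⟩
    rintro _ ⟨_, ⟨s, hs, rfl⟩, rfl⟩
    show w.1 (κ ^ (s.2.1 : ℕ) * s.2.2.1 * w.2 ^ (((s.1 : ℕ) : ℕ) : ℤ)) =
      κ ^ (s.2.1 : ℕ) * s.2.2.1
    rw [zpow_natCast]
    exact h2 s hs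

/-- a sum over the fibres -/
theorem ncard_fib {X Y : Type} [Fintype X] [Fintype Y] (Q : Finset X) (S : Set X)
    (hQ : ∀ x, x ∈ Q ↔ x ∈ S) (P : X → Y → Prop) :
    ∑ x ∈ Q, (({y | P x y}.ncard : ℕ) : ℂ) = (({w : X × Y | w.1 ∈ S ∧ P w.1 w.2}.ncard : ℕ) : ℂ) := by
  classical
  rw [H10W.ncard_sum (fun w : X × Y => w.1 ∈ S ∧ P w.1 w.2), Fintype.sum_prod_type]
  rw [← Finset.sum_subset (Finset.subset_univ Q)]
  · refine Finset.sum_congr rfl fun x hx => ?_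
    rw [H10W.ncard_sum (fun y : Y => P x y)]
    refine Finset.sum_congr rfl fun y _ => ?_
    have h1 := (hQ x).1 hx
    by_cases h2 : P x y
    · rw [if_pos h2, if_pos ⟨h1, h2⟩]
    · rw [if_neg h2, if_neg (fun h => h2 h.2)]
  · intro x _ hx
    refine Finset.sum_eq_zero fun y _ => ?_
    rw [if_neg (fun h => hx ((hQ x).2 h.1))]

theorem hyf (hyc : HycStmt) (sle : SleStmt) (cn2 : Cn2Stmt) (x3s : X3sStmt) (fmb : FmbStmt)
    (acb : AcbStmt) (czb : CzbStmt) : HyfStmt := by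
  classical
  intro ℓ _ M _ hM hℓ V₀ G _ _ _ _ E₀ hF B hB D hD n m hPE κ L hA
  have hSb : Sb ℓ M E₀ B := hB.toSb
  have hcn := cn2 V₀ E₀ n κ L
  have hmQ := mem_Q E₀ κ L
  have hM12 : M12 ℓ E₀ D.fx κ L = ∑ᶠ w ∈ {w : E₀ × V₀ | Nat.card (aL κ L) = ℓ ∧
      mp w.1 (aL κ L) = aL κ L ∧ w.2 ∈ aL κ L ∧
      w.1.1 w.2 = pr ℓ E₀ (aL κ L) κ * w.2 ∧ ∀ s ∈ L,
      w.1.1 (κ ^ (s.2.1 : ℕ) * s.2.2.1 * (w.2 ^ (s.1 : ℕ))⁻¹) = κ ^ (s.2.1 : ℕ) * s.2.2.1},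
    (D.fx (aL κ L) (w.1 : MulAut V₀) - 1) := rfl
  have hF1 : Subgroup.closure {α | ∃ t ∈ TL κ L, t.1 = α} = aL κ L := by
    unfold aL TL
    congr 1
    ext α
    constructor
    · rintro ⟨t, ⟨s, hs, rfl⟩, rfl⟩
      exact ⟨s, hs, rfl⟩
    · rintro ⟨s, hs, rfl⟩
      exact ⟨_, ⟨s, hs, rfl⟩, rfl⟩
  obtain ⟨A, hAd⟩ : ∃ A, aL κ L = A := ⟨_, rfl⟩
  obtain ⟨T, hTd⟩ : ∃ T, TL κ L = T := ⟨_, rfl⟩
  rw [hAd] at hcn hM12 hF1 hA ⊢
  rw [hTd] at hcn hmQ hF1 ⊢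
  have hp1 : p1 (LT T) = A := by
    rw [← hF1]
    unfold p1 LT
    congr 1
    ext α
    constructor
    · rintro ⟨s, ⟨t, ht, rfl⟩, rfl⟩
      exact ⟨t, ht, rfl⟩
    · rintro ⟨t, ht, rfl⟩
      exact ⟨_, ⟨t, ht, rfl⟩, rfl⟩
  have hp2 : p2 (LT T) = A := by
    rw [← hF1]
    unfold p2 LT
    congr 1
    ext α
    constructor
    · rintro ⟨s, ⟨t, ht, rfl⟩, rfl⟩
      exact ⟨t, ht, rfl⟩
    · rintro ⟨t, ht, rfl⟩
      exact ⟨_, ⟨t, ht, rfl⟩, rfl⟩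
  have hs := sle ℓ M hM hℓ V₀ G E₀ hF B hB D hD n m hPE (LT T) (by rw [hp1]; exact hA)
    (by rw [hp2]; exact hA)
  rw [hp1, hp2] at hs
  have hfm := fmb ℓ M hM hℓ V₀ G E₀ hF B hSb D hD A hA
  have hx3 := (x3s ℓ M hM hℓ V₀ G E₀ hF B hSb D hD A hA κ).1
  have hz := (czb ℓ M hM hℓ V₀ G E₀ hF B hSb A).2.2.2.2.2.2.1
  have hy := hyc ℓ M hM hℓ V₀ G E₀ hF B hSb n m hPE A (fm ℓ E₀ B D A κ) T (hfm.1 κ) hF1
  -- finiteness
  have iM : Finite (MulAut V₀) :=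
    Finite.of_injective (fun σ : MulAut V₀ => (σ : V₀ → V₀)) DFunLike.coe_injective
  have iG : Fintype G := Fintype.ofFinite G
  have iM' : Fintype (MulAut V₀) := Fintype.ofFinite _
  have iV' : Fintype V₀ := Fintype.ofFinite _
  have iS' : Fintype (St E₀ A) := Fintype.ofFinite _
  have hn0 : (nS E₀ A : ℂ) ≠ 0 := by
    unfold nS
    exact_mod_cast Nat.card_pos.ne'
  have hl0 : (ℓ : ℂ) ≠ 0 := by exact_mod_cast (Fact.out : ℓ.Prime).ne_zero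
  have hN0 : (Nat.card (B.C A) : ℂ) ≠ 0 := by exact_mod_cast Nat.card_pos.ne'
  obtain ⟨X, hX⟩ : ∃ X, X = (H79.ch_finite B A).toFinset := ⟨_, rfl⟩
  have hXm : ∀ χ, χ ∈ X ↔ χ ∈ Ch B A := by
    intro χ
    rw [hX, Set.Finite.mem_toFinset]
  have hXs : ∀ f : (G → ℂ) → ℂ, ∑ᶠ χ ∈ Ch B A, f χ = ∑ χ ∈ X, f χ := by
    intro f
    rw [hX]
    exact finsum_mem_eq_finite_toFinset_sum _ _
  obtain ⟨Q, hQ⟩ : ∃ Q, Q = (Set.toFinite (QL E₀ (LT T))).toFinset := ⟨_, rfl⟩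
  have hQm : ∀ w, w ∈ Q ↔ w ∈ QL E₀ (LT T) := by
    intro w
    rw [hQ, Set.Finite.mem_toFinset]
  have hQs : ∀ f : MulAut V₀ × V₀ → ℂ, ∑ᶠ w ∈ QL E₀ (LT T), f w = ∑ w ∈ Q, f w := by
    intro f
    rw [hQ]
    exact finsum_mem_eq_finite_toFinset_sum _ _
  obtain ⟨S, hS⟩ : ∃ S, S = (Set.toFinite {w : MulAut V₀ × V₀ | w ∈ QL E₀ (LT T) ∧
    Nat.card A = ℓ ∧ mp w.1 A = A ∧ w.2 ∈ A}).toFinset := ⟨_, rfl⟩
  have hSm : ∀ w, w ∈ S ↔ w ∈ QL E₀ (LT T) ∧ Nat.card A = ℓ ∧ mp w.1 A = A ∧ w.2 ∈ A := by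
    intro w
    rw [hS, Set.Finite.mem_toFinset]
    rfl
  have hSs : ∀ f : MulAut V₀ × V₀ → ℂ, ∑ᶠ w ∈ {w : MulAut V₀ × V₀ | w ∈ QL E₀ (LT T) ∧
      Nat.card A = ℓ ∧ mp w.1 A = A ∧ w.2 ∈ A}, f w = ∑ w ∈ S, f w := by
    intro f
    rw [hS]
    exact finsum_mem_eq_finite_toFinset_sum _ _
  -- the conjugate of `SL`
  have hconj : ∀ χ ∈ X, starRingEnd ℂ (SL B m (LT T) χ χ) =
      (Nat.card (B.C A) : ℂ) ^ 2 * (((ℓ : ℂ) ^ 2 * nS E₀ A * nS E₀ A)⁻¹ *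
        ∑ w ∈ Q, D.D A χ (w.1 w.2) * starRingEnd ℂ (D.D A χ w.2) +
      (nS E₀ A : ℂ)⁻¹ * ∑ w ∈ S, nu B χ (w.1 w.2 * w.2⁻¹) * D.R A χ (ac B w.1⁻¹ χ)) := by
    intro χ hχ
    have hχ' := (hXm χ).1 hχ
    have h1 := hs χ hχ' χ hχ'
    rw [hQs, hSs] at h1
    rw [h1, map_mul, map_add, map_mul, map_mul, map_mul, map_sum, map_sum, map_inv₀, map_inv₀,
      map_mul, map_mul, map_pow, map_natCast, map_natCast, map_natCast, ← pow_two]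
    congr 3
    · refine Finset.sum_congr rfl fun w _ => ?_
      rw [map_mul, Complex.conj_conj, mul_comm]
    · refine Finset.sum_congr rfl fun w hw => ?_
      obtain ⟨w1, w2, w3, w4⟩ := (hSm w).1 hw
      have w5 : w.1 w.2 ∈ A := by
        rw [← w3]
        exact (mem_mp' w.1 A w.2).2 w4
      have hE : w.1⁻¹ ∈ E₀ := E₀.inv_mem w1.1
      have h2 : ac B w.1⁻¹ χ ∈ Ch B A := by
        have h3 := (((acb ℓ M hM hℓ V₀ G E₀ hF B hSb).2 A w.1⁻¹ hE).2.2.1 χ hχ').1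
        rwa [mp_inv w.1 A w3] at h3
      have h4 := ((hD.d6 A hA _ h2).2 χ hχ').2
      obtain ⟨z1, z2, z3, -⟩ := hz χ hχ'
      rw [map_mul, map_mul, Complex.conj_conj, h4, (z3 w.2 w4).1,
        ((z3 (w.1 w.2) w5).2.2 w.2⁻¹ (A.inv_mem w4))]
      ring
  -- the two parts
  have e1 : HY B m A (fm ℓ E₀ B D A κ) T = ((ℓ : ℂ) ^ 2 * nS E₀ A * nS E₀ A)⁻¹ *
        ∑ w ∈ Q, ∑ χ ∈ X, cv (fm ℓ E₀ B D A κ) χ *
          (D.D A χ (w.1 w.2) * starRingEnd ℂ (D.D A χ w.2)) +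
      (nS E₀ A : ℂ)⁻¹ * ∑ w ∈ S, ∑ χ ∈ X, cv (fm ℓ E₀ B D A κ) χ *
        (nu B χ (w.1 w.2 * w.2⁻¹) * D.R A χ (ac B w.1⁻¹ χ)) := by
    rw [hy, hXs, Finset.sum_comm (s := Q), Finset.sum_comm (s := S), Finset.mul_sum,
      Finset.mul_sum, Finset.mul_sum, ← Finset.sum_add_distrib]
    refine Finset.sum_congr rfl fun χ hχ => ?_
    rw [hconj χ hχ, ← Finset.mul_sum, ← Finset.mul_sum]
    field_simp
  have e2 : ∑ w ∈ Q, ∑ χ ∈ X, cv (fm ℓ E₀ B D A κ) χ *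
          (D.D A χ (w.1 w.2) * starRingEnd ℂ (D.D A χ w.2)) =
      (ux D.U A κ : ℚ) * (ℓ : ℂ) ^ 2 * ((nS E₀ A : ℂ) ^ 2 * (N12 E₀ κ L : ℕ)) := by
    have h1 : ∀ w : MulAut V₀ × V₀, ∑ χ ∈ X, cv (fm ℓ E₀ B D A κ) χ *
          (D.D A χ (w.1 w.2) * starRingEnd ℂ (D.D A χ w.2)) =
        (ux D.U A κ : ℚ) * (ℓ : ℂ) ^ 2 * (({v : St E₀ A × St E₀ A |
          w.2 = (v.2 : MulAut V₀) (w.1 w.2 * (v.1 : MulAut V₀) κ)}.ncard : ℕ) : ℂ) := by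
      intro w
      rw [← hXs]
      exact hx3 (w.1 w.2) w.2
    simp only [h1]
    rw [← Finset.mul_sum]
    congr 1
    have h2 := ncard_fib Q (QL E₀ (LT T)) hQm (fun (w : MulAut V₀ × V₀) (v : St E₀ A × St E₀ A) =>
      w.2 = (v.2 : MulAut V₀) (w.1 w.2 * (v.1 : MulAut V₀) κ))
    rw [h2, hcn]
    push_cast
    ring
  have e3 : ∑ w ∈ S, ∑ χ ∈ X, cv (fm ℓ E₀ B D A κ) χ *
        (nu B χ (w.1 w.2 * w.2⁻¹) * D.R A χ (ac B w.1⁻¹ χ)) =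
      (nS E₀ A : ℂ) * (ux D.U A κ : ℚ) * ((M12 ℓ E₀ D.fx κ L : ℚ) : ℂ) := by
    have h1 : ∀ w ∈ S, ∑ χ ∈ X, cv (fm ℓ E₀ B D A κ) χ *
        (nu B χ (w.1 w.2 * w.2⁻¹) * D.R A χ (ac B w.1⁻¹ χ)) =
        if pr ℓ E₀ A κ * (w.1 w.2 * w.2⁻¹) = 1 then
          (nS E₀ A : ℂ) * (ux D.U A κ : ℚ) * (((D.fx A w.1 : ℚ) : ℂ) - 1) else 0 := by
      intro w hw
      obtain ⟨w1, w2, w3, w4⟩ := (hSm w).1 hw
      have w5 : w.1 w.2 ∈ A := by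
        rw [← w3]
        exact (mem_mp' w.1 A w.2).2 w4
      have h2 := hD.d8 A hA w.1 w1.1 w3 (w.1 w.2 * w.2⁻¹) (A.mul_mem w5 (A.inv_mem w4)) κ
      rw [hXs] at h2
      rw [← h2]
      refine Finset.sum_congr rfl fun χ _ => ?_
      ring
    rw [Finset.sum_congr rfl h1, ← Finset.sum_filter, ← Finset.mul_sum]
    congr 1
    obtain ⟨R, hR⟩ : ∃ R, R = (Set.toFinite {w : E₀ × V₀ | Nat.card A = ℓ ∧
      mp w.1 A = A ∧ w.2 ∈ A ∧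
      w.1.1 w.2 = pr ℓ E₀ A κ * w.2 ∧ ∀ s ∈ L,
      w.1.1 (κ ^ (s.2.1 : ℕ) * s.2.2.1 * (w.2 ^ (s.1 : ℕ))⁻¹) =
        κ ^ (s.2.1 : ℕ) * s.2.2.1}).toFinset := ⟨_, rfl⟩
    have hRm : ∀ w, w ∈ R ↔ Nat.card A = ℓ ∧
      mp w.1 A = A ∧ w.2 ∈ A ∧
      w.1.1 w.2 = pr ℓ E₀ A κ * w.2 ∧ ∀ s ∈ L,
      w.1.1 (κ ^ (s.2.1 : ℕ) * s.2.2.1 * (w.2 ^ (s.1 : ℕ))⁻¹) =
        κ ^ (s.2.1 : ℕ) * s.2.2.1 := by
      intro w
      rw [hR, Set.Finite.mem_toFinset]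
      rfl
    have hMs : M12 ℓ E₀ D.fx κ L = ∑ w ∈ R, (D.fx A (w.1 : MulAut V₀) - 1) := by
      rw [hM12, hR]
      exact finsum_mem_eq_finite_toFinset_sum _ _
    rw [hMs]
    push_cast
    refine Finset.sum_bij' (fun w hw => ((⟨w.1⁻¹, E₀.inv_mem
        ((hSm w).1 (Finset.mem_filter.1 hw).1).1.1⟩ : E₀), w.1 w.2))
      (fun u _ => ((u.1 : MulAut V₀)⁻¹, (u.1 : MulAut V₀) u.2)) ?_ ?_ ?_ ?_ ?_
    · intro w hw
      obtain ⟨h2, h3⟩ := Finset.mem_filter.1 hw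
      obtain ⟨w1, w2, w3, w4⟩ := (hSm w).1 h2
      have w6 := ((hmQ w).1 w1).2
      rw [hRm]
      have hi : ∀ v, w.1⁻¹ (w.1 v) = v := fun v => by
        rw [MulAut.inv_apply]
        exact w.1.symm_apply_apply v
      refine ⟨w2, mp_inv w.1 A w3, ?_, ?_, ?_⟩
      · show w.1 w.2 ∈ A
        rw [← w3]
        exact (mem_mp' w.1 A w.2).2 w4
      · show w.1⁻¹ (w.1 w.2) = pr ℓ E₀ A κ * w.1 w.2
        rw [hi]
        rw [← mul_assoc] at h3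
        exact (eq_of_mul_inv_eq_one h3).symm
      · intro s hs'
        show w.1⁻¹ (κ ^ (s.2.1 : ℕ) * s.2.2.1 * ((w.1 w.2) ^ (s.1 : ℕ))⁻¹) =
          κ ^ (s.2.1 : ℕ) * s.2.2.1
        have h5 := w6 s hs'
        have h6 : κ ^ (s.2.1 : ℕ) * s.2.2.1 * ((w.1 w.2) ^ (s.1 : ℕ))⁻¹ =
            w.1 (κ ^ (s.2.1 : ℕ) * s.2.2.1) := by
          rw [mul_inv_eq_iff_eq_mul, ← map_pow, ← map_mul]
          exact h5.symm
        rw [h6, hi]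
    · intro u hu
      obtain ⟨u1, u2, u3, u4, u5⟩ := (hRm u).1 hu
      have hi : ∀ v, (u.1 : MulAut V₀)⁻¹ ((u.1 : MulAut V₀) v) = v := fun v => by
        rw [MulAut.inv_apply]
        exact (u.1 : MulAut V₀).symm_apply_apply v
      have u6 : (u.1 : MulAut V₀) u.2 ∈ A := by
        rw [← u2]
        exact (mem_mp' _ A u.2).2 u3
      rw [Finset.mem_filter, hSm, hmQ]
      refine ⟨⟨⟨E₀.inv_mem u.1.2, ?_⟩, u1, mp_inv _ A u2, u6⟩, ?_⟩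
      · intro s hs'
        show (u.1 : MulAut V₀)⁻¹ (κ ^ (s.2.1 : ℕ) * s.2.2.1 *
          ((u.1 : MulAut V₀) u.2) ^ (s.1 : ℕ)) = κ ^ (s.2.1 : ℕ) * s.2.2.1
        have h5 := u5 s hs'
        have h6 : κ ^ (s.2.1 : ℕ) * s.2.2.1 * ((u.1 : MulAut V₀) u.2) ^ (s.1 : ℕ) =
            (u.1 : MulAut V₀) (κ ^ (s.2.1 : ℕ) * s.2.2.1) := by
          rw [map_mul, map_inv, map_pow, mul_inv_eq_iff_eq_mul] at h5
          exact h5.symm
        rw [h6, hi]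
      · show pr ℓ E₀ A κ * ((u.1 : MulAut V₀)⁻¹ ((u.1 : MulAut V₀) u.2) *
          ((u.1 : MulAut V₀) u.2)⁻¹) = 1
        rw [hi]
        have h7 : (u.1 : MulAut V₀) u.2 = pr ℓ E₀ A κ * u.2 := u4
        rw [h7]
        group
    · intro w hw
      have hi : w.1⁻¹ (w.1 w.2) = w.2 := by
        rw [MulAut.inv_apply]
        exact w.1.symm_apply_apply _
      refine Prod.ext ?_ ?_
      · show (w.1⁻¹)⁻¹ = w.1
        rw [inv_inv]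
      · exact hi
    · intro u hu
      have hi : (u.1 : MulAut V₀)⁻¹ ((u.1 : MulAut V₀) u.2) = u.2 := by
        rw [MulAut.inv_apply]
        exact (u.1 : MulAut V₀).symm_apply_apply _
      refine Prod.ext ?_ ?_
      · refine Subtype.ext ?_
        show ((u.1 : MulAut V₀)⁻¹)⁻¹ = u.1
        rw [inv_inv]
      · exact hi
    · intro w hw
      obtain ⟨h2, h3⟩ := Finset.mem_filter.1 hw
      obtain ⟨w1, w2, w3, w4⟩ := (hSm w).1 h2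
      show ((D.fx A w.1 : ℚ) : ℂ) - 1 = ((D.fx A w.1⁻¹ : ℚ) : ℂ) - 1
      rw [fx_inv fmb acb hM hℓ hF hSb hD hA w1.1 w3]
  rw [e1, e2, e3]
  push_cast
  field_simp

end Pool.Agent.PP.SE.H55
end
end -- Pool.Agent.Helper55_ASE.HYF

section -- Pool.Agent.Helper65_ASE.SLE

/-!
# Squad ASE, row SLE: the sums `SL`, formula (3.1)
-/

set_option autoImplicit false

open scoped BigOperators

set_option linter.unusedSectionVars false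

noncomputable section

namespace Pool.Agent.PP.SE.H65

open Pool.Agent.Helper51_AWC Pool.Agent.Helper79_WRA Pool.Agent.PP Pool.Agent.PP.KF
open Pool.Agent.PP.K9 Pool.Agent.PP.K9.H97 Pool.Agent.PP.H75 Pool.Agent.PP.T3 Pool.Agent.PP.SO
open Pool.Agent.PP.SD Pool.Agent.PP.SE

attribute [local instance] Ideal.Quotient.field

theorem sle (hFB : FbrStmt) (hCX : CxvStmt) (hAC : AcbStmt) (hPR : PrbStmt) (hMP : MpbStmt) :
    SleStmt := by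
  intro ℓ hℓ M _ hM hℓ2 V₀ G _ _ _ _ E₀ hF B hB D hD n m hPE L h1 h2 χ hχ χ' hχ'
  classical
  have := Fintype.ofFinite V₀
  have : Finite (MulAut V₀) := inferInstanceAs (Finite (V₀ ≃* V₀))
  have := Fintype.ofFinite (MulAut V₀)
  have hp : ℓ.Prime := Fact.out
  have hl0 : (ℓ : ℂ) ≠ 0 := by exact_mod_cast hp.ne_zero
  rw [hFB ℓ M hM hℓ2 V₀ G E₀ hF B hB.toSb n m hPE L h1 h2 χ hχ χ' hχ']
  obtain ⟨-, -, -, -, -, -, pr7, ⟨pr8a, pr8b, -⟩, -, -⟩ := hPR ℓ V₀ E₀ hF (p1 L)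
  obtain ⟨-, -, -, -, -, -, -, ⟨-, pr8c, -⟩, -, -⟩ := hPR ℓ V₀ E₀ hF (p2 L)
  have hn1 : (nS E₀ (p1 L) : ℂ) ≠ 0 := by exact_mod_cast pr8b.ne'
  have hn2 : (nS E₀ (p2 L) : ℂ) ≠ 0 := by exact_mod_cast pr8c.ne'
  -- the pointwise identity
  have key : ∀ w ∈ QL E₀ L,
      (nS E₀ (p1 L ⊔ Subgroup.zpowers w.2) : ℂ) / ((nS E₀ (p1 L) : ℂ) * nS E₀ (p2 L) *
        Nat.card (B.C (p1 L ⊔ Subgroup.zpowers w.2))) *
      ∑ᶠ s ∈ {s : G | s ∈ B.C (p1 L ⊔ Subgroup.zpowers w.2) ∧ Reg ℓ s},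
        cx B (p1 L ⊔ Subgroup.zpowers w.2) w.2 χ s *
          starRingEnd ℂ (cx B (p1 L ⊔ Subgroup.zpowers w.2) w.2 (ac B w.1⁻¹ χ') s) =
      ((ℓ : ℂ) ^ 2 * nS E₀ (p1 L) * nS E₀ (p2 L))⁻¹ *
        (D.D (p1 L) χ w.2 * starRingEnd ℂ (D.D (p2 L) χ' (w.1 w.2))) +
      (nS E₀ (p1 L) : ℂ)⁻¹ * (if Nat.card (p1 L) = ℓ ∧ mp w.1 (p1 L) = p2 L ∧ w.2 ∈ p1 L then
        nu B χ w.2 * starRingEnd ℂ (nu B χ' (w.1 w.2)) * D.R (p1 L) χ (ac B w.1⁻¹ χ') else 0) := by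
    rintro ⟨σ, y⟩ ⟨hσ, hw⟩
    simp only at hw hσ ⊢
    have hσ' : σ⁻¹ ∈ E₀ := E₀.inv_mem hσ
    obtain ⟨ac0, ac1⟩ := hAC ℓ M hM hℓ2 V₀ G E₀ hF B hB.toSb
    obtain ⟨-, -, ac3, -, -, -, -, -⟩ := ac1 (p2 L) σ⁻¹ hσ'
    obtain ⟨a1, -, -, a4, -⟩ := ac3 χ' hχ'
    have hnu : nu B (ac B σ⁻¹ χ') y = nu B χ' (σ y) := by
      have h3 := a4 (σ y)
      rwa [MulAut.inv_apply_self] at h3
    have hDD : D.D (mp σ⁻¹ (p2 L)) (ac B σ⁻¹ χ') y = D.D (p2 L) χ' (σ y) := by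
      have h3 := ((hD.e8 (p2 L) h2 σ⁻¹ hσ' (tt B σ⁻¹) (ac0 σ⁻¹ hσ').1 (ac0 σ⁻¹ hσ').2).2
        χ' hχ' χ' hχ').1 (σ y)
      rw [MulAut.inv_apply_self] at h3
      exact h3
    -- the subgroups
    have hyY : y ∈ p1 L ⊔ Subgroup.zpowers y :=
      (le_sup_right : _ ≤ p1 L ⊔ Subgroup.zpowers y) (Subgroup.mem_zpowers y)
    have hm := fun W => (hMP V₀ σ⁻¹ σ W W).2.2.2.1
    have hcard : Nat.card (mp σ⁻¹ (p2 L)) = Nat.card (p2 L) := (hMP V₀ σ⁻¹ σ (p2 L) (p2 L)).2.2.1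
    have hW2' : mp σ⁻¹ (p2 L) ≠ ⊥ := by
      intro h
      apply h2
      rw [h, Subgroup.card_bot] at hcard
      exact Subgroup.card_eq_one.1 hcard.symm
    have hle1 : mp σ⁻¹ (p2 L) ≤ p1 L ⊔ Subgroup.zpowers y := by
      intro v hv
      rw [hm, inv_inv] at hv
      have h3 : p2 L ≤ (p1 L ⊔ Subgroup.zpowers y).comap (σ⁻¹ : MulAut V₀).toMonoidHom := by
        unfold p2
        rw [Subgroup.closure_le]
        rintro q ⟨s, hs, rfl⟩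
        change σ⁻¹ s.2.1 ∈ p1 L ⊔ Subgroup.zpowers y
        rw [← hw s hs, MulAut.inv_apply_self]
        exact mul_mem ((le_sup_left : p1 L ≤ _) (Subgroup.subset_closure ⟨s, hs, rfl⟩))
          (zpow_mem hyY _)
      have h4 := h3 hv
      change σ⁻¹ (σ v) ∈ p1 L ⊔ Subgroup.zpowers y at h4
      rwa [MulAut.inv_apply_self] at h4
    have hYb : p1 L ⊔ Subgroup.zpowers y ≠ ⊥ := fun h => h1 (le_bot_iff.1 (le_sup_left.trans h.le))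
    have hYc := ((hPR ℓ V₀ E₀ hF (p1 L ⊔ Subgroup.zpowers y)).2.2.2.2.2.2.1 hYb).2
    rcases eq_or_ne (p1 L ⊔ Subgroup.zpowers y) ⊤ with hY | hY
    · -- the first case
      have hle2 : p1 L ⊔ Subgroup.zpowers y ≤ mp σ⁻¹ (p2 L) ⊔ Subgroup.zpowers y := by
        refine sup_le ?_ le_sup_right
        unfold p1
        rw [Subgroup.closure_le]
        rintro p ⟨s, hs, rfl⟩
        have h3 : σ⁻¹ s.2.1 ∈ mp σ⁻¹ (p2 L) := by
          rw [hm, inv_inv, MulAut.apply_inv_self]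
          exact Subgroup.subset_closure ⟨s, hs, rfl⟩
        have h4 : σ⁻¹ s.2.1 = s.1 * y ^ s.2.2 := by
          rw [← hw s hs, MulAut.inv_apply_self]
        have h5 : s.1 = σ⁻¹ s.2.1 * (y ^ s.2.2)⁻¹ := by
          rw [h4, mul_inv_cancel_right]
        rw [SetLike.mem_coe, h5]
        exact mul_mem ((le_sup_left : mp σ⁻¹ (p2 L) ≤ _) h3) (inv_mem (zpow_mem
          ((le_sup_right : _ ≤ mp σ⁻¹ (p2 L) ⊔ Subgroup.zpowers y) (Subgroup.mem_zpowers y)) _))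
      have hy1 : y ∉ p1 L ∨ p1 L = ⊤ := by
        by_cases h : y ∈ p1 L
        · right
          rw [← hY]
          exact (sup_eq_left.2 ((Subgroup.zpowers_le).2 h)).symm
        · exact Or.inl h
      have hy2 : y ∉ mp σ⁻¹ (p2 L) ∨ mp σ⁻¹ (p2 L) = ⊤ := by
        by_cases h : y ∈ mp σ⁻¹ (p2 L)
        · right
          rw [eq_top_iff, ← hY]
          exact hle2.trans (sup_eq_left.2 ((Subgroup.zpowers_le).2 h)).le
        · exact Or.inl h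
      have h3 := (hCX ℓ M hM hℓ2 V₀ G E₀ hF B hB D hD (p1 L) h1 χ hχ y).1 hy1
        (mp σ⁻¹ (p2 L)) hW2' hy2 (ac B σ⁻¹ χ') a1
      rw [hY, h3, hDD, pr8a]
      have hc : (Nat.card (B.C (⊤ : Subgroup V₀)) : ℂ) ≠ 0 := by exact_mod_cast Nat.card_pos.ne'
      rw [if_neg]
      · push_cast
        field_simp
        ring
      · rintro ⟨h4, -, h5⟩
        rcases hy1 with h6 | h6
        · exact h6 h5
        · rw [h6, Subgroup.card_top, hF.cd] at h4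
          have h7 := hp.one_lt
          nlinarith
    · -- the second case
      have hYl : Nat.card (p1 L ⊔ Subgroup.zpowers y : Subgroup V₀) = ℓ := hYc.resolve_left hY
      have hsub : ∀ W : Subgroup V₀, W ≠ ⊥ → W ≤ p1 L ⊔ Subgroup.zpowers y →
          W = p1 L ⊔ Subgroup.zpowers y := by
        intro W hW hle
        have h3 := Subgroup.card_dvd_of_le hle
        rw [hYl] at h3
        rcases (Nat.dvd_prime hp).1 h3 with h4 | h4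
        · exact absurd (Subgroup.card_eq_one.1 h4) hW
        · exact Subgroup.eq_of_le_of_card_ge hle (by rw [h4, hYl])
      have e1 : p1 L ⊔ Subgroup.zpowers y = p1 L := (hsub _ h1 le_sup_left).symm
      have e2 : mp σ⁻¹ (p2 L) = p1 L := (hsub _ hW2' hle1).trans e1
      have hy : y ∈ p1 L := by
        rw [← e1]
        exact hyY
      have hW1 : Nat.card (p1 L) = ℓ := by
        rw [← e1]
        exact hYl
      have e3 : mp σ (p1 L) = p2 L := by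
        have h3 := (hMP V₀ σ⁻¹ σ (p2 L) (p1 L)).2.2.2.2.2.2.2.2.2.1
        rw [inv_inv] at h3
        exact h3.1 e2
      have e4 : nS E₀ (p2 L) = nS E₀ (p1 L) := by
        rw [← e3]
        exact ((hPR ℓ V₀ E₀ hF (p1 L)).2.2.2.1 σ hσ).1
      have a1' : ac B σ⁻¹ χ' ∈ Ch B (p1 L) := e2 ▸ a1
      have c1 := (hCX ℓ M hM hℓ2 V₀ G E₀ hF B hB D hD (p1 L) h1 χ hχ y).2 hy
      have c2 := (hCX ℓ M hM hℓ2 V₀ G E₀ hF B hB D hD (p1 L) h1 (ac B σ⁻¹ χ') a1' y).2 hy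
      have h5 := hD.d5 (p1 L) h1 χ hχ (ac B σ⁻¹ χ') a1'
      have hd2 := (hD.d2 (p1 L) h1 χ hχ).2.2 y hy 1
      have hd2' := (hD.d2 (p1 L) h1 (ac B σ⁻¹ χ') a1').2.2 y hy 1
      rw [mul_one] at hd2 hd2'
      have hDD' : D.D (p1 L) (ac B σ⁻¹ χ') y = D.D (p2 L) χ' (σ y) := by
        rw [← hDD, e2]
      have hc : (Nat.card (B.C (p1 L)) : ℂ) ≠ 0 := by exact_mod_cast Nat.card_pos.ne'
      rw [e1, if_pos ⟨hW1, e3, hy⟩, e4]
      have h6 : ∑ᶠ s ∈ {s : G | s ∈ B.C (p1 L) ∧ Reg ℓ s},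
          cx B (p1 L) y χ s * starRingEnd ℂ (cx B (p1 L) y (ac B σ⁻¹ χ') s) =
          (nu B χ y * starRingEnd ℂ (nu B (ac B σ⁻¹ χ') y)) *
            ∑ᶠ s ∈ {s : G | s ∈ B.C (p1 L) ∧ Reg ℓ s}, χ s * starRingEnd ℂ (ac B σ⁻¹ χ' s) := by
        rw [mul_finsum_mem]
        refine finsum_mem_congr rfl fun s hs => ?_
        rw [c1 s hs.1, c2 s hs.1, map_mul]
        ring
      have h7 : ∑ᶠ s ∈ {s : G | s ∈ B.C (p1 L) ∧ Reg ℓ s},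
          χ s * starRingEnd ℂ (ac B σ⁻¹ χ' s) = (Nat.card (B.C (p1 L)) : ℂ) *
            (D.D (p1 L) χ 1 * starRingEnd ℂ (D.D (p1 L) (ac B σ⁻¹ χ') 1) /
              ((ℓ : ℂ) ^ 2 * nS E₀ (p1 L)) + D.R (p1 L) χ (ac B σ⁻¹ χ')) := by
        rw [← h5, mul_inv_cancel_left₀ hc]
      rw [h6, h7, ← hDD', hd2, hd2', ← hnu, map_mul]
      field_simp
  rw [finsum_mem_congr rfl key]
  congr 1
  simp only [finsum_eq_if]
  rw [finsum_eq_sum_of_fintype, finsum_eq_sum_of_fintype, finsum_eq_sum_of_fintype,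
    Finset.mul_sum, Finset.mul_sum, ← Finset.sum_add_distrib]
  refine Finset.sum_congr rfl fun w _ => ?_
  by_cases hw : w ∈ QL E₀ L
  · have h3 : (w ∈ {w : MulAut V₀ × V₀ | w ∈ QL E₀ L ∧ Nat.card (p1 L) = ℓ ∧
        mp w.1 (p1 L) = p2 L ∧ w.2 ∈ p1 L}) ↔
        (Nat.card (p1 L) = ℓ ∧ mp w.1 (p1 L) = p2 L ∧ w.2 ∈ p1 L) :=
      ⟨fun h => h.2, fun h => ⟨hw, h⟩⟩
    simp only [if_pos hw, h3]
  · have h3 : ¬ (w ∈ {w : MulAut V₀ × V₀ | w ∈ QL E₀ L ∧ Nat.card (p1 L) = ℓ ∧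
        mp w.1 (p1 L) = p2 L ∧ w.2 ∈ p1 L}) := fun h => hw h.1
    rw [if_neg hw, if_neg hw, if_neg h3, mul_zero, mul_zero, add_zero]

end Pool.Agent.PP.SE.H65
end
end -- Pool.Agent.Helper65_ASE.SLE

section -- Pool.Agent.Helper81_ASE.HYE

/-!
# Row HYE of squad ASE: `HY` at `κ et`
-/

set_option autoImplicit false

open scoped BigOperators

noncomputable section

namespace Pool.Agent.PP.SE.H81

open Pool.Agent.Helper51_AWC Pool.Agent.Helper79_WRA Pool.Agent.PP Pool.Agent.PP.KF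
open Pool.Agent.PP.K9 Pool.Agent.PP.K9.H97 Pool.Agent.PP.H75 Pool.Agent.PP.T3 Pool.Agent.PP.SO
open Pool.Agent.PP.SD Pool.Agent.PP.SE

attribute [local instance] Ideal.Quotient.field

theorem p1_LT {V₀ : Type} [CommGroup V₀] (T : Set (V₀ × ℕ)) :
    p1 (LT T) = Subgroup.closure {α | ∃ t ∈ T, t.1 = α} := by
  unfold p1 LT
  congr 1
  ext p
  constructor
  · rintro ⟨s, ⟨t, ht, rfl⟩, rfl⟩
    exact ⟨t, ht, rfl⟩
  · rintro ⟨t, ht, rfl⟩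
    exact ⟨_, ⟨t, ht, rfl⟩, rfl⟩

theorem p2_LT {V₀ : Type} [CommGroup V₀] (T : Set (V₀ × ℕ)) :
    p2 (LT T) = Subgroup.closure {α | ∃ t ∈ T, t.1 = α} := by
  unfold p2 LT
  congr 1
  ext p
  constructor
  · rintro ⟨s, ⟨t, ht, rfl⟩, rfl⟩
    exact ⟨t, ht, rfl⟩
  · rintro ⟨t, ht, rfl⟩
    exact ⟨_, ⟨t, ht, rfl⟩, rfl⟩

theorem hye (hyc : HycStmt) (sle : SleStmt) (czb : CzbStmt) (acb : AcbStmt) : HyeStmt := by
  intro ℓ _ M _ hM hl V₀ G _ _ _ _ E₀ hF B hSd D hD n m hPE A hA κ hκ T hT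
  classical
  have hSb := hSd.toSb
  have hA0 : A ≠ ⊥ := by
    rintro rfl
    have h1 := hA.1
    rw [Subgroup.card_bot] at h1
    exact (Nat.Prime.one_lt (Fact.out : ℓ.Prime)).ne h1
  obtain ⟨-, -, hz3, -, -, -, hz7, hfin⟩ := czb ℓ M hM hl V₀ G E₀ hF B hSb A
  have hcz := hD.e1 A hA0
  obtain ⟨hczk, hcvk⟩ := hz3 _ hcz κ hκ
  have h1 := p1_LT T
  have h2 := p2_LT T
  rw [hT] at h1 h2
  have hC : ((Nat.card (B.C A) : ℕ) : ℂ) ≠ 0 := by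
    exact_mod_cast Nat.card_pos.ne'
  have hQ : (QL E₀ (LT T)).Finite := Set.toFinite _
  have hS : ∀ χ ∈ Ch B A, starRingEnd ℂ (SL B m (LT T) χ χ) =
      (Nat.card (B.C A) : ℂ) * Nat.card (B.C A) *
      (((ℓ : ℂ) ^ 2 * nS E₀ A * nS E₀ A)⁻¹ * ∑ w ∈ hQ.toFinset,
        starRingEnd ℂ (D.D A χ w.2) * D.D A χ (w.1 w.2) +
      (nS E₀ A : ℂ)⁻¹ * ∑ w ∈ hQ.toFinset, if mp w.1 A = A ∧ w.2 ∈ A then
        nu B χ (w.1 w.2 * w.2⁻¹) * D.R A χ (ac B w.1⁻¹ χ) else 0) := by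
    intro χ hχ
    have h3 := sle ℓ M hM hl V₀ G E₀ hF B hSd D hD n m hPE (LT T) (by rw [h1]; exact hA0)
      (by rw [h2]; exact hA0) χ (by rw [h1]; exact hχ) χ (by rw [h2]; exact hχ)
    rw [h1, h2] at h3
    rw [h3, finsum_mem_eq_finite_toFinset_sum _ hQ,
      finsum_mem_eq_finite_toFinset_sum _ (Set.toFinite _)]
    simp only [map_mul, map_add, map_inv₀, map_pow, map_sum, Complex.conj_natCast, Complex.conj_conj]
    congr 2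
    congr 1
    rw [← Finset.sum_filter]
    refine Finset.sum_congr ?_ ?_
    · ext w
      simp only [Set.Finite.mem_toFinset, Set.mem_ofPred_eq, Finset.mem_filter]
      constructor
      · rintro ⟨a, -, b, c⟩
        exact ⟨a, b, c⟩
      · rintro ⟨a, b, c⟩
        exact ⟨a, hA.1, b, c⟩
    · intro w hw
      simp only [Finset.mem_filter, Set.Finite.mem_toFinset] at hw
      obtain ⟨hw1, hw2, hw3⟩ := hw
      obtain ⟨-, -, h7⟩ := hz7 χ hχ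
      have hty : w.1 w.2 ∈ A := by
        have h4 : w.1 w.2 ∈ mp w.1 A := ⟨w.2, hw3, rfl⟩
        rw [hw2] at h4
        exact h4
      have hE : w.1 ∈ E₀ := hw1.1
      have hAC := (acb ℓ M hM hl V₀ G E₀ hF B hSb).2 A w.1⁻¹ (E₀.inv_mem hE)
      have hmp : mp w.1⁻¹ A = A := by
        conv_lhs => rw [← hw2]
        ext v
        constructor
        · rintro ⟨v', ⟨v'', hv'', rfl⟩, rfl⟩
          have h5 : (w.1⁻¹ : MulAut V₀) (w.1 v'') = v'' := by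
            rw [← MulAut.mul_apply, inv_mul_cancel]
            rfl
          show (w.1⁻¹ : MulAut V₀) (w.1 v'') ∈ A
          rw [h5]
          exact hv''
        · intro hv
          refine ⟨w.1 v, ⟨v, hv, rfl⟩, ?_⟩
          show (w.1⁻¹ : MulAut V₀) (w.1 v) = v
          rw [← MulAut.mul_apply, inv_mul_cancel]
          rfl
      have hac : ac B w.1⁻¹ χ ∈ Ch B A := by
        have h5 := (hAC.2.2.1 χ hχ).1
        rw [hmp] at h5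
        exact h5
      have hr := ((hD.d6 A hA0 _ hac).2 χ hχ).2
      rw [hr]
      have h8 := h7.1 w.2 hw3
      have h9 := (h7.1 (w.1 w.2) hty).2.2 w.2⁻¹ (A.inv_mem hw3)
      rw [h8.1, h9]
      ring
  rw [hyc ℓ M hM hl V₀ G E₀ hF B hSb n m hPE A _ T hczk hT]
  rw [finsum_mem_eq_finite_toFinset_sum _ hfin, finsum_mem_eq_finite_toFinset_sum _ hQ]
  have h4 : ∀ χ ∈ hfin.toFinset, cv (tk B κ (D.et A)) χ * starRingEnd ℂ (SL B m (LT T) χ χ) =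
      (Nat.card (B.C A) : ℂ) ^ 2 * ∑ w ∈ hQ.toFinset,
        (((ℓ : ℂ) ^ 2 * (nS E₀ A : ℂ) ^ 2)⁻¹ * (nu B χ κ * cv (D.et A) χ *
          (starRingEnd ℂ (D.D A χ w.2) * D.D A χ (w.1 w.2))) +
        if mp w.1 A = A ∧ w.2 ∈ A then (nS E₀ A : ℂ)⁻¹ * (nu B χ κ * cv (D.et A) χ *
          (nu B χ (w.1 w.2 * w.2⁻¹) * D.R A χ (ac B w.1⁻¹ χ))) else 0) := by
    intro χ hχ
    rw [Set.Finite.mem_toFinset] at hχ
    rw [hS χ hχ, hcvk χ hχ, Finset.sum_add_distrib, ← Finset.mul_sum, ← Finset.mul_sum]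
    have h5 : ∀ w : MulAut V₀ × V₀, (if mp w.1 A = A ∧ w.2 ∈ A then (nS E₀ A : ℂ)⁻¹ *
        (nu B χ κ * cv (D.et A) χ *
          (nu B χ (w.1 w.2 * w.2⁻¹) * D.R A χ (ac B w.1⁻¹ χ))) else 0) =
        ((nS E₀ A : ℂ)⁻¹ * (nu B χ κ * cv (D.et A) χ)) * (if mp w.1 A = A ∧ w.2 ∈ A then
          nu B χ (w.1 w.2 * w.2⁻¹) * D.R A χ (ac B w.1⁻¹ χ) else 0) := by
      intro w
      split_ifs
      · ring
      · ring
    simp only [h5]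
    rw [← Finset.mul_sum]
    have h6 : ((ℓ : ℂ) ^ 2 * nS E₀ A * nS E₀ A)⁻¹ = ((ℓ : ℂ) ^ 2 * (nS E₀ A : ℂ) ^ 2)⁻¹ := by
      congr 1
      ring
    rw [h6]
    ring
  rw [Finset.sum_congr rfl h4, ← Finset.mul_sum, Finset.sum_comm, ← mul_assoc]
  have h7 : (Nat.card (B.C A) : ℂ)⁻¹ ^ 2 * (Nat.card (B.C A) : ℂ) ^ 2 = 1 := by
    rw [← mul_pow, inv_mul_cancel₀ hC, one_pow]
  rw [h7, one_mul]
  refine Finset.sum_congr rfl fun w _ => ?_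
  rw [Finset.sum_add_distrib, ← Finset.mul_sum]
  unfold wtE
  rw [finsum_mem_eq_finite_toFinset_sum _ hfin]
  congr 1
  split_ifs
  · rw [finsum_mem_eq_finite_toFinset_sum _ hfin, ← Finset.mul_sum]
  · simp

end Pool.Agent.PP.SE.H81
end
end -- Pool.Agent.Helper81_ASE.HYE

section -- Pool.Agent.Helper81_ASE.X3R

/-!
# Row X3R of squad ASE: the value of `X13`
-/

set_option autoImplicit false

open scoped BigOperators

noncomputable section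

namespace Pool.Agent.PP.SE.H81

open Pool.Agent.Helper51_AWC Pool.Agent.Helper79_WRA Pool.Agent.PP Pool.Agent.PP.KF
open Pool.Agent.PP.K9 Pool.Agent.PP.K9.H97 Pool.Agent.PP.H75 Pool.Agent.PP.T3 Pool.Agent.PP.SO
open Pool.Agent.PP.SD Pool.Agent.PP.SE

attribute [local instance] Ideal.Quotient.field

/-! ## Sums -/

section sums
variable {ι ι' κ κ' : Type*}

theorem swap4 (X : Finset ι) (X' : Finset ι') (Q : Finset κ) (Q' : Finset κ')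
    (t : ι → ι' → κ → κ' → ℂ) :
    ∑ i ∈ X, ∑ i' ∈ X', ∑ w ∈ Q, ∑ w' ∈ Q', t i i' w w' =
      ∑ w ∈ Q, ∑ w' ∈ Q', ∑ i' ∈ X', ∑ i ∈ X, t i i' w w' := by
  have h1 : ∀ i ∈ X, ∑ i' ∈ X', ∑ w ∈ Q, ∑ w' ∈ Q', t i i' w w' =
      ∑ w ∈ Q, ∑ w' ∈ Q', ∑ i' ∈ X', t i i' w w' := by
    intro i _
    rw [Finset.sum_comm]
    exact Finset.sum_congr rfl fun w _ => Finset.sum_comm
  rw [Finset.sum_congr rfl h1, Finset.sum_comm]
  refine Finset.sum_congr rfl fun w _ => ?_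
  rw [Finset.sum_comm]
  exact Finset.sum_congr rfl fun w' _ => Finset.sum_comm

theorem term4 (k : ℂ) (X : Finset ι) (X' : Finset ι') (Q : Finset κ) (Q' : Finset κ')
    (α : ι → ℂ) (β : ι' → ℂ) (s : ι → ι' → κ → ℂ) (s' : ι → ι' → κ' → ℂ) :
    ∑ i ∈ X, ∑ i' ∈ X', α i * β i' * (k * ((∑ w ∈ Q, s i i' w) * (∑ w' ∈ Q', s' i i' w'))) =
      k * ∑ w ∈ Q, ∑ w' ∈ Q', ∑ i' ∈ X', ∑ i ∈ X, α i * β i' * (s i i' w * s' i i' w') := by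
  have h := swap4 X X' Q Q' (fun i i' w w' => k * (α i * β i' * (s i i' w * s' i i' w')))
  simp only [← Finset.mul_sum] at h
  refine Eq.trans ?_ h
  rw [Finset.mul_sum]
  refine Finset.sum_congr rfl fun i _ => ?_
  rw [Finset.mul_sum]
  refine Finset.sum_congr rfl fun i' _ => ?_
  rw [Finset.sum_mul]
  ring

end sums

section bas
variable {V₀ : Type} [CommGroup V₀] {n : ℕ}

theorem p1_Lm (L : Set (SO.SS n V₀)) : p1 (Lm L) = pL L := by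
  unfold p1 Lm pL
  congr 1
  ext p
  constructor
  · rintro ⟨s, ⟨t, ht, rfl⟩, rfl⟩
    exact ⟨t, ht, rfl⟩
  · rintro ⟨t, ht, rfl⟩
    exact ⟨_, ⟨t, ht, rfl⟩, rfl⟩

theorem p2_Lm (L : Set (SO.SS n V₀)) : p2 (Lm L) = qL L := by
  unfold p2 Lm qL
  congr 1
  ext p
  constructor
  · rintro ⟨s, ⟨t, ht, rfl⟩, rfl⟩
    exact ⟨t, ht, rfl⟩
  · rintro ⟨t, ht, rfl⟩
    exact ⟨_, ⟨t, ht, rfl⟩, rfl⟩

theorem p1_Lq (L : Set (SO.SS n V₀)) : p1 (Lq L) = pL L := by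
  unfold p1 Lq pL
  congr 1
  ext p
  constructor
  · rintro ⟨s, ⟨t, ht, rfl⟩, rfl⟩
    exact ⟨t, ht, rfl⟩
  · rintro ⟨t, ht, rfl⟩
    exact ⟨_, ⟨t, ht, rfl⟩, rfl⟩

theorem p2_Lq (L : Set (SO.SS n V₀)) : p2 (Lq L) = qL L := by
  unfold p2 Lq qL
  congr 1
  ext p
  constructor
  · rintro ⟨s, ⟨t, ht, rfl⟩, rfl⟩
    exact ⟨t, ht, rfl⟩
  · rintro ⟨t, ht, rfl⟩
    exact ⟨_, ⟨t, ht, rfl⟩, rfl⟩

theorem mp_inv {σ : MulAut V₀} {W W' : Subgroup V₀} (h : mp σ W = W') : mp σ⁻¹ W' = W := by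
  rw [← h]
  ext v
  constructor
  · rintro ⟨v', ⟨v'', hv'', rfl⟩, rfl⟩
    have h5 : (σ⁻¹ : MulAut V₀) (σ v'') = v'' := by
      rw [← MulAut.mul_apply, inv_mul_cancel]
      rfl
    show (σ⁻¹ : MulAut V₀) (σ v'') ∈ W
    rw [h5]
    exact hv''
  · intro hv
    refine ⟨σ v, ⟨v, hv, rfl⟩, ?_⟩
    show (σ⁻¹ : MulAut V₀) (σ v) = v
    rw [← MulAut.mul_apply, inv_mul_cancel]
    rfl

theorem mp_mul (σ τ : MulAut V₀) (W : Subgroup V₀) : mp (σ * τ) W = mp σ (mp τ W) := by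
  ext v
  constructor
  · rintro ⟨v', hv', rfl⟩
    exact ⟨τ v', ⟨v', hv', rfl⟩, rfl⟩
  · rintro ⟨v', ⟨v'', hv'', rfl⟩, rfl⟩
    exact ⟨v'', hv'', rfl⟩

theorem mem_mp {σ : MulAut V₀} {W W' : Subgroup V₀} (h : mp σ W = W') {v : V₀} (hv : v ∈ W) :
    σ v ∈ W' := by
  rw [← h]
  exact ⟨v, hv, rfl⟩

end bas

section cnt
variable {V₀ : Type} [CommGroup V₀] [Finite V₀] {n : ℕ}

/-- the number of CN3 as a double sum -/
theorem cnt3 (cn3 : Cn3Stmt) (E₀ : Subgroup (MulAut V₀)) (c d : V₀) (L : Set (SO.SS n V₀))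
    (Q Q' : Finset (MulAut V₀ × V₀)) (hQ : ∀ w, w ∈ Q ↔ w ∈ QL E₀ (Lm L))
    (hQ' : ∀ w, w ∈ Q' ↔ w ∈ QL E₀ (Lq L)) :
    ∑ w ∈ Q, ∑ w' ∈ Q', (({z : St E₀ (pL L) × St E₀ (pL L) |
        w'.2 = (z.2 : MulAut V₀) (w.2 * (z.1 : MulAut V₀) c)}.ncard : ℂ) *
      ({z : St E₀ (qL L) × St E₀ (qL L) |
        w.1 w.2 = (z.2 : MulAut V₀) (w'.1 w'.2 * (z.1 : MulAut V₀) d)}.ncard : ℂ)) =
      (nS E₀ (pL L) : ℂ) ^ 2 * (nS E₀ (qL L) : ℂ) ^ 2 * N13 E₀ c d L := by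
  classical
  let _ : Fintype V₀ := Fintype.ofFinite V₀
  let _ : Fintype (MulAut V₀) := Fintype.ofFinite _
  let _ : Fintype (St E₀ (pL L)) := Fintype.ofFinite _
  let _ : Fintype (St E₀ (qL L)) := Fintype.ofFinite _
  have key : ∀ {T : Type} [Fintype T] (S : Set T), (S.ncard : ℂ) = ∑ x : T, if x ∈ S then 1 else 0 := by
    intro T _ S
    rw [Finset.sum_boole, Set.ncard_eq_toFinset_card']
    congr 2
    ext x
    simp
  have h := cn3 V₀ E₀ n c d L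
  have h1 := congrArg (fun k : ℕ => (k : ℂ)) h
  simp only [Nat.cast_mul, Nat.cast_pow] at h1
  rw [← h1, key, Fintype.sum_prod_type]
  simp only [key]
  rw [Fintype.sum_prod_type]
  have hsum : ∀ (F : MulAut V₀ × V₀ → MulAut V₀ × V₀ → ℂ), ∑ w ∈ Q, ∑ w' ∈ Q', F w w' =
      ∑ w, ∑ w', if (w ∈ QL E₀ (Lm L) ∧ w' ∈ QL E₀ (Lq L)) then F w w' else 0 := by
    intro F
    rw [← Finset.sum_subset (Finset.subset_univ Q)]
    · refine Finset.sum_congr rfl fun w hw => ?_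
      rw [← Finset.sum_subset (Finset.subset_univ Q')]
      · refine Finset.sum_congr rfl fun w' hw' => ?_
        rw [if_pos ⟨(hQ w).1 hw, (hQ' w').1 hw'⟩]
      · intro w' _ hw'
        rw [if_neg (fun h => hw' ((hQ' w').2 h.2))]
    · intro w _ hw
      refine Finset.sum_eq_zero fun w' _ => ?_
      rw [if_neg (fun h => hw ((hQ w).2 h.1))]
  rw [hsum]
  refine Finset.sum_congr rfl fun w _ => Finset.sum_congr rfl fun w' _ => ?_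
  rw [Finset.sum_mul_sum]
  conv_rhs => rw [Fintype.sum_prod_type]
  split_ifs with hw
  · refine Finset.sum_congr rfl fun z _ => Finset.sum_congr rfl fun z' _ => ?_
    simp only [Set.mem_ofPred_eq, hw.1, hw.2, true_and]
    by_cases h3 : w'.2 = (z.2 : MulAut V₀) (w.2 * (z.1 : MulAut V₀) c)
    · by_cases h4 : w.1 w.2 = (z'.2 : MulAut V₀) (w'.1 w'.2 * (z'.1 : MulAut V₀) d)
      · rw [if_pos h3, if_pos h4, if_pos ⟨h3, h4⟩, one_mul]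
      · rw [if_neg h4, mul_zero, if_neg (fun h => h4 h.2)]
    · rw [if_neg h3, zero_mul, if_neg (fun h => h3 h.1)]
  · symm
    refine Finset.sum_eq_zero fun z _ => Finset.sum_eq_zero fun z' _ => ?_
    rw [if_neg]
    rintro ⟨ha, hb, -⟩
    exact hw ⟨ha, hb⟩

end cnt

theorem x3r (x3c : X3cStmt) (sle : SleStmt) (cn3 : Cn3Stmt) (x3s : X3sStmt) (fmb : FmbStmt)
    (acb : AcbStmt) (prb : PrbStmt) (czb : CzbStmt) : X3rStmt := by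
  intro ℓ _ M _ hM hl V₀ G _ _ _ _ E₀ hF B hSd D hD n m hPE c d L hp hq
  classical
  have hSb := hSd.toSb
  have F1 := fmb ℓ M hM hl V₀ G E₀ hF B hSb D hD (pL L) hp
  have F2 := fmb ℓ M hM hl V₀ G E₀ hF B hSb D hD (qL L) hq
  have Z1 := czb ℓ M hM hl V₀ G E₀ hF B hSb (pL L)
  have Z2 := czb ℓ M hM hl V₀ G E₀ hF B hSb (qL L)
  obtain ⟨hact, AC⟩ := acb ℓ M hM hl V₀ G E₀ hF B hSb
  have P1 := prb ℓ V₀ E₀ hF (pL L)
  have P2 := prb ℓ V₀ E₀ hF (qL L)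
  have S1 := x3s ℓ M hM hl V₀ G E₀ hF B hSb D hD (pL L) hp c
  have S2 := x3s ℓ M hM hl V₀ G E₀ hF B hSb D hD (qL L) hq d
  have hfin1 := Z1.2.2.2.2.2.2.2
  have hfin2 := Z2.2.2.2.2.2.2.2
  have hnu1 := Z1.2.2.2.2.2.2.1
  have hnu2 := Z2.2.2.2.2.2.2.1
  have hC1 : ((Nat.card (B.C (pL L)) : ℕ) : ℂ) ≠ 0 := by
    exact_mod_cast Nat.card_pos.ne'
  have hC2 : ((Nat.card (B.C (qL L)) : ℕ) : ℂ) ≠ 0 := by
    exact_mod_cast Nat.card_pos.ne'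
  have hn1 : ((nS E₀ (pL L) : ℕ) : ℂ) ≠ 0 := by
    exact_mod_cast (P1.2.2.2.2.2.2.2.1).2.1.ne'
  have hn2 : ((nS E₀ (qL L) : ℕ) : ℂ) ≠ 0 := by
    exact_mod_cast (P2.2.2.2.2.2.2.2.1).2.1.ne'
  have hℓ : ((ℓ : ℕ) : ℂ) ≠ 0 := by
    exact_mod_cast (Fact.out : ℓ.Prime).ne_zero
  have hQm : (QL E₀ (Lm L)).Finite := Set.toFinite _
  have hQv : (QL E₀ (Lq L)).Finite := Set.toFinite _
  -- the finite sets
  obtain ⟨Qm, hQmd⟩ : ∃ Q : Finset (MulAut V₀ × V₀), Q = hQm.toFinset := ⟨_, rfl⟩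
  obtain ⟨Qv, hQvd⟩ : ∃ Q : Finset (MulAut V₀ × V₀), Q = hQv.toFinset := ⟨_, rfl⟩
  have hmQm : ∀ w, w ∈ Qm ↔ w ∈ QL E₀ (Lm L) := fun w => by rw [hQmd, Set.Finite.mem_toFinset]
  have hmQv : ∀ w, w ∈ Qv ↔ w ∈ QL E₀ (Lq L) := fun w => by rw [hQvd, Set.Finite.mem_toFinset]
  obtain ⟨Rm, hRm⟩ : ∃ Q : Finset (MulAut V₀ × V₀), Q = Qm.filter (fun w =>
    Nat.card (pL L) = ℓ ∧ mp w.1 (pL L) = qL L ∧ w.2 ∈ pL L) := ⟨_, rfl⟩
  obtain ⟨Rq, hRq⟩ : ∃ Q : Finset (MulAut V₀ × V₀), Q = Qv.filter (fun w =>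
    Nat.card (pL L) = ℓ ∧ mp w.1 (pL L) = qL L ∧ w.2 ∈ pL L) := ⟨_, rfl⟩
  have hmRm : ∀ w, w ∈ Rm ↔ w ∈ QL E₀ (Lm L) ∧ Nat.card (pL L) = ℓ ∧ mp w.1 (pL L) = qL L ∧
      w.2 ∈ pL L := fun w => by rw [hRm, Finset.mem_filter, hmQm]
  have hmRq : ∀ w, w ∈ Rq ↔ w ∈ QL E₀ (Lq L) ∧ Nat.card (pL L) = ℓ ∧ mp w.1 (pL L) = qL L ∧
      w.2 ∈ pL L := fun w => by rw [hRq, Finset.mem_filter, hmQv]
  obtain ⟨X1, hX1⟩ : ∃ Q : Finset (G → ℂ), Q = hfin1.toFinset := ⟨_, rfl⟩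
  obtain ⟨X2, hX2⟩ : ∃ Q : Finset (G → ℂ), Q = hfin2.toFinset := ⟨_, rfl⟩
  have hmX1 : ∀ χ, χ ∈ X1 ↔ χ ∈ Ch B (pL L) := fun w => by rw [hX1, Set.Finite.mem_toFinset]
  have hmX2 : ∀ χ, χ ∈ X2 ↔ χ ∈ Ch B (qL L) := fun w => by rw [hX2, Set.Finite.mem_toFinset]
  -- the conjugates of the characters of `W₂`
  have hac : ∀ σ ∈ E₀, mp σ (pL L) = qL L → ∀ χ' ∈ Ch B (qL L), ac B σ⁻¹ χ' ∈ Ch B (pL L) := by
    intro σ hσ hm χ' hχ'
    have h1 := ((AC (qL L) σ⁻¹ (E₀.inv_mem hσ)).2.2.1 χ' hχ').1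
    rw [mp_inv hm] at h1
    exact h1
  have hSm : ∀ χ ∈ Ch B (pL L), ∀ χ' ∈ Ch B (qL L), SL B m (Lm L) χ χ' =
      (Nat.card (B.C (pL L)) : ℂ) * Nat.card (B.C (qL L)) *
      (((ℓ : ℂ) ^ 2 * nS E₀ (pL L) * nS E₀ (qL L))⁻¹ * ∑ w ∈ Qm,
        D.D (pL L) χ w.2 * starRingEnd ℂ (D.D (qL L) χ' (w.1 w.2)) +
      (nS E₀ (pL L) : ℂ)⁻¹ * ∑ w ∈ Rm, nu B χ w.2 * starRingEnd ℂ (nu B χ' (w.1 w.2)) *
        D.R (pL L) χ (ac B w.1⁻¹ χ')) := by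
    intro χ hχ χ' hχ'
    have h3 := sle ℓ M hM hl V₀ G E₀ hF B hSd D hD n m hPE (Lm L) (by rw [p1_Lm]; exact hp)
      (by rw [p2_Lm]; exact hq) χ (by rw [p1_Lm]; exact hχ) χ' (by rw [p2_Lm]; exact hχ')
    rw [p1_Lm, p2_Lm] at h3
    rw [h3, finsum_mem_eq_finite_toFinset_sum _ hQm,
      finsum_mem_eq_finite_toFinset_sum _ (Set.toFinite _), ← hQmd]
    congr 2
    congr 1
    refine Finset.sum_congr ?_ fun _ _ => rfl
    ext w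
    rw [Set.Finite.mem_toFinset, hmRm]
    exact Iff.rfl
  have hSq : ∀ χ ∈ Ch B (pL L), ∀ χ' ∈ Ch B (qL L), starRingEnd ℂ (SL B m (Lq L) χ χ') =
      (Nat.card (B.C (pL L)) : ℂ) * Nat.card (B.C (qL L)) *
      (((ℓ : ℂ) ^ 2 * nS E₀ (pL L) * nS E₀ (qL L))⁻¹ * ∑ w ∈ Qv,
        starRingEnd ℂ (D.D (pL L) χ w.2) * D.D (qL L) χ' (w.1 w.2) +
      (nS E₀ (pL L) : ℂ)⁻¹ * ∑ w ∈ Rq, starRingEnd ℂ (nu B χ w.2) * nu B χ' (w.1 w.2) *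
        D.R (pL L) χ (ac B w.1⁻¹ χ')) := by
    intro χ hχ χ' hχ'
    have h3 := sle ℓ M hM hl V₀ G E₀ hF B hSd D hD n m hPE (Lq L) (by rw [p1_Lq]; exact hp)
      (by rw [p2_Lq]; exact hq) χ (by rw [p1_Lq]; exact hχ) χ' (by rw [p2_Lq]; exact hχ')
    rw [p1_Lq, p2_Lq] at h3
    rw [h3, finsum_mem_eq_finite_toFinset_sum _ hQv,
      finsum_mem_eq_finite_toFinset_sum _ (Set.toFinite _), ← hQvd]
    simp only [map_mul, map_add, map_inv₀, map_pow, map_sum, Complex.conj_natCast, Complex.conj_conj]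
    congr 2
    congr 1
    refine Finset.sum_congr ?_ ?_
    · ext w
      rw [Set.Finite.mem_toFinset, hmRq]
      exact Iff.rfl
    · intro w hw
      rw [hmRq] at hw
      obtain ⟨hw1, -, hw2, hw3⟩ := hw
      have hr := ((hD.d6 (pL L) hp _ (hac w.1 hw1.1 hw2 χ' hχ')).2 χ hχ).2
      rw [hr]
  -- the sum
  obtain ⟨α, hα⟩ : ∃ α : (G → ℂ) → ℂ, α = fun χ => cv (fm ℓ E₀ B D (pL L) c) χ := ⟨_, rfl⟩
  obtain ⟨β, hβ⟩ : ∃ β : (G → ℂ) → ℂ, β = fun χ => cv (fm ℓ E₀ B D (qL L) d) χ := ⟨_, rfl⟩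
  obtain ⟨a₀, ha₀⟩ : ∃ a : ℂ, a = ((ℓ : ℂ) ^ 2 * nS E₀ (pL L) * nS E₀ (qL L))⁻¹ := ⟨_, rfl⟩
  obtain ⟨b₀, hb₀⟩ : ∃ b : ℂ, b = (nS E₀ (pL L) : ℂ)⁻¹ := ⟨_, rfl⟩
  have hX := x3c ℓ M hM hl V₀ G E₀ hF B hSb n m hPE L (fun W => fm ℓ E₀ B D W c)
    (fun W => fm ℓ E₀ B D W d) (F1.1 c) (F2.1 d)
  have hX' : X13 B m (fun W => fm ℓ E₀ B D W c) (fun W => fm ℓ E₀ B D W d) L =
      ∑ χ ∈ X1, ∑ χ' ∈ X2, (α χ * β χ' * (a₀ ^ 2 *
          ((∑ w ∈ Qm, D.D (pL L) χ w.2 * starRingEnd ℂ (D.D (qL L) χ' (w.1 w.2))) *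
          (∑ w ∈ Qv, starRingEnd ℂ (D.D (pL L) χ w.2) * D.D (qL L) χ' (w.1 w.2)))) +
        α χ * β χ' * (a₀ * b₀ *
          ((∑ w ∈ Qm, D.D (pL L) χ w.2 * starRingEnd ℂ (D.D (qL L) χ' (w.1 w.2))) *
          (∑ w ∈ Rq, starRingEnd ℂ (nu B χ w.2) * nu B χ' (w.1 w.2) *
            D.R (pL L) χ (ac B w.1⁻¹ χ')))) +
        α χ * β χ' * (b₀ * a₀ *
          ((∑ w ∈ Rm, nu B χ w.2 * starRingEnd ℂ (nu B χ' (w.1 w.2)) *
            D.R (pL L) χ (ac B w.1⁻¹ χ')) *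
          (∑ w ∈ Qv, starRingEnd ℂ (D.D (pL L) χ w.2) * D.D (qL L) χ' (w.1 w.2)))) +
        α χ * β χ' * (b₀ ^ 2 *
          ((∑ w ∈ Rm, nu B χ w.2 * starRingEnd ℂ (nu B χ' (w.1 w.2)) *
            D.R (pL L) χ (ac B w.1⁻¹ χ')) *
          (∑ w ∈ Rq, starRingEnd ℂ (nu B χ w.2) * nu B χ' (w.1 w.2) *
            D.R (pL L) χ (ac B w.1⁻¹ χ'))))) := by
    rw [hX, finsum_mem_eq_finite_toFinset_sum _ hfin1, ← hX1, Finset.mul_sum]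
    refine Finset.sum_congr rfl fun χ hχ => ?_
    rw [finsum_mem_eq_finite_toFinset_sum _ hfin2, ← hX2, Finset.mul_sum]
    refine Finset.sum_congr rfl fun χ' hχ' => ?_
    rw [hSm χ ((hmX1 χ).1 hχ) χ' ((hmX2 χ').1 hχ'), hSq χ ((hmX1 χ).1 hχ) χ' ((hmX2 χ').1 hχ'),
      ← ha₀, ← hb₀, hα, hβ]
    generalize (∑ w ∈ Qm, D.D (pL L) χ w.2 * starRingEnd ℂ (D.D (qL L) χ' (w.1 w.2))) = s1
    generalize (∑ w ∈ Qv, starRingEnd ℂ (D.D (pL L) χ w.2) * D.D (qL L) χ' (w.1 w.2)) = s3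
    generalize (∑ w ∈ Rm, nu B χ w.2 * starRingEnd ℂ (nu B χ' (w.1 w.2)) *
            D.R (pL L) χ (ac B w.1⁻¹ χ')) = s2
    generalize (∑ w ∈ Rq, starRingEnd ℂ (nu B χ w.2) * nu B χ' (w.1 w.2) *
            D.R (pL L) χ (ac B w.1⁻¹ χ')) = s4
    field_simp
    ring
  rw [hX']
  simp only [Finset.sum_add_distrib]
  rw [term4, term4, term4, term4]
  -- the sums over the characters
  have S1' : ∀ y y' : V₀, ∑ χ ∈ X1, α χ * (D.D (pL L) χ y * starRingEnd ℂ (D.D (pL L) χ y')) =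
      (ux D.U (pL L) c : ℚ) * (ℓ : ℂ) ^ 2 * {w : St E₀ (pL L) × St E₀ (pL L) |
        y' = (w.2 : MulAut V₀) (y * (w.1 : MulAut V₀) c)}.ncard := by
    intro y y'
    rw [← S1.1 y y', finsum_mem_eq_finite_toFinset_sum _ hfin1, ← hX1, hα]
  have S2' : ∀ y y' : V₀, ∑ χ ∈ X2, β χ * (D.D (qL L) χ y * starRingEnd ℂ (D.D (qL L) χ y')) =
      (ux D.U (qL L) d : ℚ) * (ℓ : ℂ) ^ 2 * {w : St E₀ (qL L) × St E₀ (qL L) |
        y' = (w.2 : MulAut V₀) (y * (w.1 : MulAut V₀) d)}.ncard := by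
    intro y y'
    rw [← S2.1 y y', finsum_mem_eq_finite_toFinset_sum _ hfin2, ← hX2, hβ]
  have S3' : ∀ ψ ∈ Ch B (pL L), ∀ z ∈ pL L, ∀ y : V₀, ∑ χ ∈ X1, α χ *
      (D.D (pL L) χ y * (starRingEnd ℂ (nu B χ z) * D.R (pL L) χ ψ)) = 0 := by
    intro ψ hψ z hz y
    rw [← S1.2.1 ψ hψ z hz y, finsum_mem_eq_finite_toFinset_sum _ hfin1, ← hX1, hα]
  have S4' : ∀ ψ ∈ Ch B (pL L), ∀ z ∈ pL L, ∀ y : V₀, ∑ χ ∈ X1, α χ *
      (starRingEnd ℂ (D.D (pL L) χ y) * (nu B χ z * D.R (pL L) χ ψ)) = 0 := by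
    intro ψ hψ z hz y
    rw [← S1.2.2 ψ hψ z hz y, finsum_mem_eq_finite_toFinset_sum _ hfin1, ← hX1, hα]
  have hT1 : ∑ w ∈ Qm, ∑ w' ∈ Qv, ∑ χ' ∈ X2, ∑ χ ∈ X1, α χ * β χ' *
      (D.D (pL L) χ w.2 * starRingEnd ℂ (D.D (qL L) χ' (w.1 w.2)) *
        (starRingEnd ℂ (D.D (pL L) χ w'.2) * D.D (qL L) χ' (w'.1 w'.2))) =
      (ux D.U (pL L) c : ℚ) * (ux D.U (qL L) d : ℚ) * (ℓ : ℂ) ^ 4 *
        ((nS E₀ (pL L) : ℂ) ^ 2 * (nS E₀ (qL L) : ℂ) ^ 2 * N13 E₀ c d L) := by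
    rw [← cnt3 cn3 E₀ c d L Qm Qv hmQm hmQv, Finset.mul_sum]
    refine Finset.sum_congr rfl fun w _ => ?_
    rw [Finset.mul_sum]
    refine Finset.sum_congr rfl fun w' _ => ?_
    have h1 : ∑ χ' ∈ X2, ∑ χ ∈ X1, α χ * β χ' *
      (D.D (pL L) χ w.2 * starRingEnd ℂ (D.D (qL L) χ' (w.1 w.2)) *
        (starRingEnd ℂ (D.D (pL L) χ w'.2) * D.D (qL L) χ' (w'.1 w'.2))) =
        (∑ χ' ∈ X2, β χ' * (D.D (qL L) χ' (w'.1 w'.2) *
          starRingEnd ℂ (D.D (qL L) χ' (w.1 w.2)))) *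
        ∑ χ ∈ X1, α χ * (D.D (pL L) χ w.2 * starRingEnd ℂ (D.D (pL L) χ w'.2)) := by
      rw [Finset.sum_mul_sum]
      refine Finset.sum_congr rfl fun χ' _ => Finset.sum_congr rfl fun χ _ => ?_
      ring
    rw [h1, S1', S2']
    ring
  have hT2 : ∑ w ∈ Qm, ∑ w' ∈ Rq, ∑ χ' ∈ X2, ∑ χ ∈ X1, α χ * β χ' *
      (D.D (pL L) χ w.2 * starRingEnd ℂ (D.D (qL L) χ' (w.1 w.2)) *
        (starRingEnd ℂ (nu B χ w'.2) * nu B χ' (w'.1 w'.2) *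
            D.R (pL L) χ (ac B w'.1⁻¹ χ'))) = 0 := by
    refine Finset.sum_eq_zero fun w _ => Finset.sum_eq_zero fun w' hw' =>
      Finset.sum_eq_zero fun χ' hχ' => ?_
    obtain ⟨hw1, -, hw2, hw3⟩ := (hmRq w').1 hw'
    have h1 := S3' (ac B w'.1⁻¹ χ') (hac w'.1 hw1.1 hw2 χ' ((hmX2 χ').1 hχ')) w'.2 hw3 w.2
    have h2 : ∑ χ ∈ X1, α χ * β χ' *
      (D.D (pL L) χ w.2 * starRingEnd ℂ (D.D (qL L) χ' (w.1 w.2)) *
        (starRingEnd ℂ (nu B χ w'.2) * nu B χ' (w'.1 w'.2) *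
            D.R (pL L) χ (ac B w'.1⁻¹ χ'))) =
        (β χ' * starRingEnd ℂ (D.D (qL L) χ' (w.1 w.2)) * nu B χ' (w'.1 w'.2)) *
        ∑ χ ∈ X1, α χ * (D.D (pL L) χ w.2 * (starRingEnd ℂ (nu B χ w'.2) *
          D.R (pL L) χ (ac B w'.1⁻¹ χ'))) := by
      rw [Finset.mul_sum]
      refine Finset.sum_congr rfl fun χ _ => ?_
      ring
    rw [h2, h1, mul_zero]
  have hT3 : ∑ w ∈ Rm, ∑ w' ∈ Qv, ∑ χ' ∈ X2, ∑ χ ∈ X1, α χ * β χ' *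
      (nu B χ w.2 * starRingEnd ℂ (nu B χ' (w.1 w.2)) * D.R (pL L) χ (ac B w.1⁻¹ χ') *
        (starRingEnd ℂ (D.D (pL L) χ w'.2) * D.D (qL L) χ' (w'.1 w'.2))) = 0 := by
    refine Finset.sum_eq_zero fun w hw => Finset.sum_eq_zero fun w' _ =>
      Finset.sum_eq_zero fun χ' hχ' => ?_
    obtain ⟨hw1, -, hw2, hw3⟩ := (hmRm w).1 hw
    have h1 := S4' (ac B w.1⁻¹ χ') (hac w.1 hw1.1 hw2 χ' ((hmX2 χ').1 hχ')) w.2 hw3 w'.2
    have h2 : ∑ χ ∈ X1, α χ * β χ' *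
      (nu B χ w.2 * starRingEnd ℂ (nu B χ' (w.1 w.2)) * D.R (pL L) χ (ac B w.1⁻¹ χ') *
        (starRingEnd ℂ (D.D (pL L) χ w'.2) * D.D (qL L) χ' (w'.1 w'.2))) =
        (β χ' * starRingEnd ℂ (nu B χ' (w.1 w.2)) * D.D (qL L) χ' (w'.1 w'.2)) *
        ∑ χ ∈ X1, α χ * (starRingEnd ℂ (D.D (pL L) χ w'.2) * (nu B χ w.2 *
          D.R (pL L) χ (ac B w.1⁻¹ χ'))) := by
      rw [Finset.mul_sum]
      refine Finset.sum_congr rfl fun χ _ => ?_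
      ring
    rw [h2, h1, mul_zero]
  have hT4in : ∀ w ∈ Rm, ∀ w' ∈ Rq, ∑ χ' ∈ X2, ∑ χ ∈ X1, α χ * β χ' *
      (nu B χ w.2 * starRingEnd ℂ (nu B χ' (w.1 w.2)) * D.R (pL L) χ (ac B w.1⁻¹ χ') *
        (starRingEnd ℂ (nu B χ w'.2) * nu B χ' (w'.1 w'.2) *
            D.R (pL L) χ (ac B w'.1⁻¹ χ'))) =
      (nS E₀ (pL L) : ℂ) ^ 2 * ((ux D.U (pL L) c : ℚ) * (ux D.U (qL L) d : ℚ)) *
      if w'.2 = pr ℓ E₀ (pL L) c * w.2 ∧ w.1 w.2 = pr ℓ E₀ (qL L) d * w'.1 w'.2 then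
        ((D.fx (pL L) (w.1⁻¹ * w'.1) - 1 : ℚ) : ℂ) else 0 := by
    intro w hw w' hw'
    obtain ⟨hw1, hcard, hw2, hw3⟩ := (hmRm w).1 hw
    obtain ⟨hw1', -, hw2', hw3'⟩ := (hmRq w').1 hw'
    have hE := hw1.1
    have hE' := hw1'.1
    have hnn : (nS E₀ (qL L) : ℂ) = nS E₀ (pL L) := by
      have h1 := (P1.2.2.2.1 w.1 hE).1
      rw [hw2] at h1
      rw [h1]
    have hty : w.1 w.2 ∈ qL L := mem_mp hw2 hw3
    have hty' : w'.1 w'.2 ∈ qL L := mem_mp hw2' hw3'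
    -- the sum over `χ`
    have hin : ∀ χ' ∈ X2, ∑ χ ∈ X1, α χ * β χ' *
      (nu B χ w.2 * starRingEnd ℂ (nu B χ' (w.1 w.2)) * D.R (pL L) χ (ac B w.1⁻¹ χ') *
        (starRingEnd ℂ (nu B χ w'.2) * nu B χ' (w'.1 w'.2) *
            D.R (pL L) χ (ac B w'.1⁻¹ χ'))) =
        if pr ℓ E₀ (pL L) c * (w.2 * w'.2⁻¹) = 1 then (nS E₀ (pL L) : ℂ) *
          (ux D.U (pL L) c : ℚ) * (β χ' * nu B χ' (w'.1 w'.2 * (w.1 w.2)⁻¹) *
            D.R (qL L) χ' (ac B (w'.1 * w.1⁻¹)⁻¹ χ')) else 0 := by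
      intro χ' hχ'
      have hχ := (hmX2 χ').1 hχ'
      have hψ := hac w.1 hE hw2 χ' hχ
      have hψ' := hac w'.1 hE' hw2' χ' hχ
      have h7 := hD.d7 (pL L) hp (ac B w.1⁻¹ χ') hψ (ac B w'.1⁻¹ χ') hψ' (w.2 * w'.2⁻¹)
        ((pL L).mul_mem hw3 ((pL L).inv_mem hw3')) c
      rw [finsum_mem_eq_finite_toFinset_sum _ hfin1, ← hX1] at h7
      have h8 : ∑ χ ∈ X1, α χ * β χ' *
      (nu B χ w.2 * starRingEnd ℂ (nu B χ' (w.1 w.2)) * D.R (pL L) χ (ac B w.1⁻¹ χ') *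
        (starRingEnd ℂ (nu B χ w'.2) * nu B χ' (w'.1 w'.2) *
            D.R (pL L) χ (ac B w'.1⁻¹ χ'))) =
          (β χ' * nu B χ' (w'.1 w'.2 * (w.1 w.2)⁻¹)) * ∑ χ ∈ X1,
            D.R (pL L) (ac B w.1⁻¹ χ') χ * (nu B χ (w.2 * w'.2⁻¹) *
              cv (fm ℓ E₀ B D (pL L) c) χ) * D.R (pL L) χ (ac B w'.1⁻¹ χ') := by
        rw [Finset.mul_sum]
        refine Finset.sum_congr rfl fun χ hχ1 => ?_
        have hχ1' := (hmX1 χ).1 hχ1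
        have e1 : nu B χ (w.2 * w'.2⁻¹) = nu B χ w.2 * starRingEnd ℂ (nu B χ w'.2) := by
          rw [((hnu1 χ hχ1').2.2.1 w.2 hw3).2.2 w'.2⁻¹ ((pL L).inv_mem hw3'),
            ((hnu1 χ hχ1').2.2.1 w'.2 hw3').1]
        have e2 : nu B χ' (w'.1 w'.2 * (w.1 w.2)⁻¹) =
            nu B χ' (w'.1 w'.2) * starRingEnd ℂ (nu B χ' (w.1 w.2)) := by
          rw [((hnu2 χ' hχ).2.2.1 _ hty').2.2 _ ((qL L).inv_mem hty),
            ((hnu2 χ' hχ).2.2.1 _ hty).1]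
        have e3 := ((hD.d6 (pL L) hp _ hψ).2 χ hχ1').1
        rw [e1, e2, ← e3, hα]
        ring
      rw [h8, h7]
      -- transport of `R`
      have hRR : D.R (pL L) (ac B w.1⁻¹ χ') (ac B w'.1⁻¹ χ') =
          D.R (qL L) χ' (ac B (w'.1 * w.1⁻¹)⁻¹ χ') := by
        have ht := hact w.1 hE
        have h9 := ((hD.e8 (pL L) hp w.1 hE (tt B w.1) ht.1 ht.2).2 (ac B w.1⁻¹ χ') hψ
          (ac B w'.1⁻¹ χ') hψ').2
        have h10 : (fun g => ac B w.1⁻¹ χ' ((tt B w.1)⁻¹ * g * tt B w.1)) = χ' := by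
          have h11 := (((AC (qL L) w.1⁻¹ (E₀.inv_mem hE)).2.2.1 χ' hχ).2.2.1 w.1 hE)
          rw [mul_inv_cancel, ((AC (qL L) w.1⁻¹ (E₀.inv_mem hE)).2.2.1 χ' hχ).2.1] at h11
          exact h11.symm
        have h12 : (fun g => ac B w'.1⁻¹ χ' ((tt B w.1)⁻¹ * g * tt B w.1)) =
            ac B (w'.1 * w.1⁻¹)⁻¹ χ' := by
          have h11 := (((AC (qL L) w'.1⁻¹ (E₀.inv_mem hE')).2.2.1 χ' hχ).2.2.1 w.1 hE)
          have h13 : (w'.1 * w.1⁻¹)⁻¹ = w.1 * w'.1⁻¹ := by group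
          rw [h13, h11]
          rfl
        rw [h10, h12, hw2] at h9
        exact h9.symm
      rw [hRR]
      split_ifs
      · ring
      · ring
    rw [Finset.sum_congr rfl hin]
    -- the sum over `χ'`
    have hg : w'.1 * w.1⁻¹ ∈ E₀ := E₀.mul_mem hE' (E₀.inv_mem hE)
    have hgm : mp (w'.1 * w.1⁻¹) (qL L) = qL L := by
      rw [mp_mul, mp_inv hw2, hw2']
    have h8 := hD.d8 (qL L) hq (w'.1 * w.1⁻¹) hg hgm (w'.1 w'.2 * (w.1 w.2)⁻¹)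
      ((qL L).mul_mem hty' ((qL L).inv_mem hty)) d
    rw [finsum_mem_eq_finite_toFinset_sum _ hfin2, ← hX2] at h8
    have hfx : D.fx (qL L) (w'.1 * w.1⁻¹) = D.fx (pL L) (w.1⁻¹ * w'.1) := by
      have hg' : w.1⁻¹ * w'.1 ∈ E₀ := E₀.mul_mem (E₀.inv_mem hE) hE'
      have hgm' : mp (w.1⁻¹ * w'.1) (pL L) = pL L := by
        rw [mp_mul, hw2', mp_inv hw2]
      have h9 := hD.fe (pL L) hp w.1 hE _ hg' hgm'
      have h13 : w.1 * (w.1⁻¹ * w'.1) * w.1⁻¹ = w'.1 * w.1⁻¹ := by group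
      rw [h13, hw2] at h9
      exact h9
    by_cases hc1 : pr ℓ E₀ (pL L) c * (w.2 * w'.2⁻¹) = 1
    · have hc1' : w'.2 = pr ℓ E₀ (pL L) c * w.2 := by
        have := congrArg (· * w'.2) hc1
        simp only [one_mul] at this
        rw [← this]
        group
      simp only [if_pos hc1]
      rw [← Finset.mul_sum]
      have h14 : ∑ χ' ∈ X2, β χ' * nu B χ' (w'.1 w'.2 * (w.1 w.2)⁻¹) *
          D.R (qL L) χ' (ac B (w'.1 * w.1⁻¹)⁻¹ χ') =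
          if pr ℓ E₀ (qL L) d * (w'.1 w'.2 * (w.1 w.2)⁻¹) = 1 then
            (nS E₀ (qL L) : ℂ) * (ux D.U (qL L) d : ℚ) *
              ((D.fx (qL L) (w'.1 * w.1⁻¹) : ℚ) - 1) else 0 := by
        rw [← h8, hβ]
      rw [h14, hnn, hfx]
      by_cases hc2 : pr ℓ E₀ (qL L) d * (w'.1 w'.2 * (w.1 w.2)⁻¹) = 1
      · have hc2' : w.1 w.2 = pr ℓ E₀ (qL L) d * w'.1 w'.2 := by
          have := congrArg (· * w.1 w.2) hc2
          simp only [one_mul] at this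
          rw [← this]
          group
        rw [if_pos hc2, if_pos ⟨hc1', hc2'⟩]
        push_cast
        ring
      · have hc2' : ¬ (w'.2 = pr ℓ E₀ (pL L) c * w.2 ∧
            w.1 w.2 = pr ℓ E₀ (qL L) d * w'.1 w'.2) := by
          rintro ⟨-, h15⟩
          apply hc2
          rw [h15]
          group
        rw [if_neg hc2, if_neg hc2', mul_zero, mul_zero]
    · have hc2' : ¬ (w'.2 = pr ℓ E₀ (pL L) c * w.2 ∧
          w.1 w.2 = pr ℓ E₀ (qL L) d * w'.1 w'.2) := by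
        rintro ⟨h15, -⟩
        apply hc1
        rw [h15]
        group
      simp only [if_neg hc1]
      rw [if_neg hc2', Finset.sum_const_zero, mul_zero]
  have hT4 : ∑ w ∈ Rm, ∑ w' ∈ Rq, ∑ χ' ∈ X2, ∑ χ ∈ X1, α χ * β χ' *
      (nu B χ w.2 * starRingEnd ℂ (nu B χ' (w.1 w.2)) * D.R (pL L) χ (ac B w.1⁻¹ χ') *
        (starRingEnd ℂ (nu B χ w'.2) * nu B χ' (w'.1 w'.2) *
            D.R (pL L) χ (ac B w'.1⁻¹ χ'))) =
      (nS E₀ (pL L) : ℂ) ^ 2 * ((ux D.U (pL L) c : ℚ) * (ux D.U (qL L) d : ℚ)) *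
        ((M13 ℓ E₀ D.fx c d L : ℚ) : ℂ) := by
    rw [Finset.sum_congr rfl fun w hw => Finset.sum_congr rfl fun w' hw' => hT4in w hw w' hw']
    simp only [← Finset.mul_sum]
    congr 1
    rcases (P1.2.2.2.2.2.2.1 hp).1 with h7 | h7
    · have hfx1 := (hD.f1 (pL L) hp h7).2
      have hM : M13 ℓ E₀ D.fx c d L = 0 := by
        unfold M13
        simp only [hfx1, sub_self]
        exact finsum_mem_zero _
      rw [hM]
      simp only [hfx1, sub_self, Rat.cast_zero, ite_self, Finset.sum_const_zero]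
    have hprc : pr ℓ E₀ (pL L) c ∈ pL L := P1.2.2.2.2.1 h7 c
    rw [← Finset.sum_product', ← Finset.sum_filter]
    unfold M13
    rw [finsum_mem_eq_finite_toFinset_sum _ (Set.toFinite _), Rat.cast_sum]
    symm
    refine Finset.sum_nbij (fun v : E₀ × E₀ × V₀ =>
      (((v.1 : MulAut V₀), v.2.2), ((v.2.1 : MulAut V₀), pr ℓ E₀ (pL L) c * v.2.2))) ?_ ?_ ?_ ?_
    · intro v hv
      rw [Set.Finite.mem_toFinset] at hv
      obtain ⟨h1, h2, h3, h4, h5, h6⟩ := hv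
      rw [Finset.mem_filter, Finset.mem_product, hmRm, hmRq]
      refine ⟨⟨⟨⟨v.1.2, ?_⟩, h1, h2, h4⟩, ⟨⟨v.2.1.2, ?_⟩, h1, h3, ?_⟩⟩, rfl, h5⟩
      · rintro s ⟨t, ht, rfl⟩
        have := (h6 t ht).1
        simpa using this
      · rintro s ⟨t, ht, rfl⟩
        have := (h6 t ht).2
        simpa using this
      · exact (pL L).mul_mem hprc h4
    · intro v _ v' _ h
      simp only [Prod.mk.injEq] at h
      obtain ⟨⟨h1, h2⟩, h3, -⟩ := h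
      exact Prod.ext (Subtype.ext h1) (Prod.ext (Subtype.ext h3) h2)
    · intro x hx
      have hx' := Finset.mem_coe.1 hx
      rw [Finset.mem_filter, Finset.mem_product, hmRm, hmRq] at hx'
      obtain ⟨⟨⟨⟨hE, hQ⟩, h1, h2, h4⟩, ⟨⟨hE', hQ'⟩, -, h3, -⟩⟩, h5, h6⟩ := hx'
      refine ⟨(⟨x.1.1, hE⟩, ⟨x.2.1, hE'⟩, x.1.2), ?_, ?_⟩
      · rw [Finset.mem_coe, Set.Finite.mem_toFinset]
        refine ⟨h1, h2, h3, h4, ?_, ?_⟩
        · show x.1.1 x.1.2 = pr ℓ E₀ (qL L) d * x.2.1 (pr ℓ E₀ (pL L) c * x.1.2)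
          rw [← h5]
          exact h6
        · intro s hs
          constructor
          · have := hQ _ ⟨s, hs, rfl⟩
            simpa using this
          · have := hQ' _ ⟨s, hs, rfl⟩
            rw [h5] at this
            simpa using this
      · exact Prod.ext (Prod.ext rfl rfl) (Prod.ext rfl h5.symm)
    · intro v hv
      rfl
  rw [hT1, hT2, hT3, hT4, ha₀, hb₀]
  unfold P13
  push_cast
  field_simp
  ring

end Pool.Agent.PP.SE.H81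
end
end -- Pool.Agent.Helper81_ASE.X3R

section -- Pool.Agent.Helper95_ASE.CN3

open scoped BigOperators

noncomputable section

namespace Pool.Agent.PP.SE.H95

open Pool.Agent.Helper51_AWC Pool.Agent.Helper79_WRA Pool.Agent.PP Pool.Agent.PP.KF
open Pool.Agent.PP.K9 Pool.Agent.PP.K9.H97 Pool.Agent.PP.H75 Pool.Agent.PP.T3 Pool.Agent.PP.SO
open Pool.Agent.PP.SD

theorem cn3 : Cn3Stmt := by
  intro V₀ _ _ E₀ n c d L
  have hp : ∀ (π : St E₀ (pL L)), ∀ t ∈ L, (π : MulAut V₀) t.2.2.1 = t.2.2.1 := fun π t ht =>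
    π.2.2 _ (Subgroup.subset_closure ⟨t, ht, rfl⟩)
  have hq : ∀ (ρ : St E₀ (qL L)), ∀ t ∈ L, (ρ : MulAut V₀) t.2.2.2 = t.2.2.2 := fun ρ t ht =>
    ρ.2.2 _ (Subgroup.subset_closure ⟨t, ht, rfl⟩)
  have hqi : ∀ (ρ : St E₀ (qL L)), ∀ t ∈ L, (ρ : MulAut V₀)⁻¹ t.2.2.2 = t.2.2.2 :=
    fun ρ t ht => by rw [MulAut.inv_apply, MulEquiv.symm_apply_eq, hq ρ t ht]
  have hpi : ∀ (π : St E₀ (pL L)), ∀ t ∈ L, (π : MulAut V₀)⁻¹ t.2.2.1 = t.2.2.1 :=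
    fun π t ht => by rw [MulAut.inv_apply, MulEquiv.symm_apply_eq, hp π t ht]
  have hii : ∀ (σ : MulAut V₀) (v : V₀), σ⁻¹ (σ v) = v := fun σ v => by
    rw [MulAut.inv_apply, MulEquiv.symm_apply_apply]
  have hii' : ∀ (σ : MulAut V₀) (v : V₀), σ (σ⁻¹ v) = v := fun σ v => by
    rw [MulAut.inv_apply, MulEquiv.apply_symm_apply]
  set A : Set (((MulAut V₀ × V₀) × (MulAut V₀ × V₀)) × ((St E₀ (pL L) × St E₀ (pL L)) ×
      (St E₀ (qL L) × St E₀ (qL L)))) := {w | w.1.1 ∈ QL E₀ (Lm L) ∧ w.1.2 ∈ QL E₀ (Lq L) ∧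
    w.1.2.2 = (w.2.1.2 : MulAut V₀) (w.1.1.2 * (w.2.1.1 : MulAut V₀) c) ∧
    w.1.1.1 w.1.1.2 = (w.2.2.2 : MulAut V₀) (w.1.2.1 w.1.2.2 * (w.2.2.1 : MulAut V₀) d)}
    with hA
  set N : Set (E₀ × E₀ × V₀) := {w | w.1.1 w.2.2 = d * w.2.1.1 (c * w.2.2) ∧ ∀ s ∈ L,
    w.1.1 (s.2.2.1 * (w.2.2 ^ (s.2.1 : ℕ))⁻¹) = s.2.2.2 ∧
    w.2.1.1 (s.2.2.1 * (c * w.2.2) ^ (s.1 : ℕ)) = s.2.2.2} with hN
  have hNc : N13 E₀ c d L = Nat.card N := rfl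
  have key : A ≃ ((St E₀ (pL L) × St E₀ (pL L)) × (St E₀ (qL L) × St E₀ (qL L))) × N :=
    { toFun := fun w => ⟨w.1.2,
        ⟨(⟨(((w.1.2.2.2 : MulAut V₀) * (w.1.2.2.1 : MulAut V₀))⁻¹ * w.1.1.1.1 *
              (w.1.2.1.1 : MulAut V₀)),
            E₀.mul_mem (E₀.mul_mem (E₀.inv_mem (E₀.mul_mem w.1.2.2.2.2.1 w.1.2.2.1.2.1))
              w.2.1.1) w.1.2.1.1.2.1⟩,
          ⟨((w.1.2.2.1 : MulAut V₀)⁻¹ * w.1.1.2.1 * (w.1.2.1.2 : MulAut V₀) *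
              (w.1.2.1.1 : MulAut V₀)),
            E₀.mul_mem (E₀.mul_mem (E₀.mul_mem (E₀.inv_mem w.1.2.2.1.2.1) w.2.2.1.1)
              w.1.2.1.2.2.1) w.1.2.1.1.2.1⟩,
          (w.1.2.1.1 : MulAut V₀)⁻¹ w.1.1.1.2), by
          obtain ⟨⟨⟨⟨σ, y⟩, ⟨σ', y'⟩⟩, ⟨⟨π, π'⟩, ⟨ρ, ρ'⟩⟩⟩, ⟨hσE, hσ⟩, ⟨hσE', hσ'⟩, h1, h2⟩ := w
          simp only at hσE hσ hσE' hσ' h1 h2
          have hy' : (π' : MulAut V₀) ((π : MulAut V₀) (c * (π : MulAut V₀)⁻¹ y)) = y' := by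
            rw [h1, map_mul (π : MulAut V₀), hii', mul_comm]
          refine ⟨?_, fun t ht => ⟨?_, ?_⟩⟩
          · simp only [mul_inv_rev, MulAut.mul_apply]
            rw [hii', h2, hii, map_mul, hii, hy', mul_comm]
          · have := hσ _ ⟨t, ht, rfl⟩
            simp only at this
            simp only [mul_inv_rev, MulAut.mul_apply]
            rw [map_mul (π : MulAut V₀), hp π t ht, map_inv, map_pow, hii']
            rw [zpow_neg, zpow_natCast] at this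
            rw [this, hqi, hqi] <;> assumption
          · have := hσ' _ ⟨t, ht, rfl⟩
            simp only at this
            simp only [MulAut.mul_apply]
            rw [map_mul (π : MulAut V₀), map_mul (π' : MulAut V₀), hp π t ht, hp π' t ht,
              map_pow, map_pow, hy']
            rw [zpow_natCast] at this
            rw [this, hqi] <;> assumption⟩⟩
      invFun := fun v => ⟨⟨⟨⟨(v.1.2.2 : MulAut V₀) * (v.1.2.1 : MulAut V₀) * v.2.1.1.1 *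
              (v.1.1.1 : MulAut V₀)⁻¹, (v.1.1.1 : MulAut V₀) v.2.1.2.2⟩,
            ⟨(v.1.2.1 : MulAut V₀) * v.2.1.2.1.1 * (v.1.1.1 : MulAut V₀)⁻¹ *
              (v.1.1.2 : MulAut V₀)⁻¹,
             (v.1.1.2 : MulAut V₀) ((v.1.1.1 : MulAut V₀) v.2.1.2.2 *
              (v.1.1.1 : MulAut V₀) c)⟩⟩, v.1⟩, by
          obtain ⟨⟨⟨π, π'⟩, ⟨ρ, ρ'⟩⟩, ⟨⟨⟨s, hs⟩, ⟨s', hs'⟩, X⟩, h1, h2⟩⟩ := v
          simp only at h1 h2
          have hcX : (π : MulAut V₀)⁻¹ ((π' : MulAut V₀)⁻¹ ((π' : MulAut V₀)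
              ((π : MulAut V₀) X * (π : MulAut V₀) c))) = c * X := by
            rw [hii, map_mul, hii, hii, mul_comm]
          refine ⟨⟨?_, ?_⟩, ⟨?_, ?_⟩, rfl, ?_⟩
          · exact E₀.mul_mem (E₀.mul_mem (E₀.mul_mem ρ'.2.1 ρ.2.1) hs) (E₀.inv_mem π.2.1)
          · rintro _ ⟨t, ht, rfl⟩
            have := (h2 t ht).1
            simp only [MulAut.mul_apply]
            rw [zpow_neg, zpow_natCast, map_mul ((π : MulAut V₀)⁻¹), hpi π t ht, map_inv,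
              map_pow, hii, this, hq ρ t ht, hq ρ' t ht]
          · exact E₀.mul_mem (E₀.mul_mem (E₀.mul_mem ρ.2.1 hs') (E₀.inv_mem π.2.1))
              (E₀.inv_mem π'.2.1)
          · rintro _ ⟨t, ht, rfl⟩
            have := (h2 t ht).2
            simp only [MulAut.mul_apply]
            rw [zpow_natCast, map_mul ((π' : MulAut V₀)⁻¹), map_mul ((π : MulAut V₀)⁻¹),
              hpi π' t ht, hpi π t ht, map_pow, map_pow, hcX, this, hq ρ t ht]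
          · simp only [MulAut.mul_apply]
            rw [hii, h1, hcX, ← map_mul (ρ : MulAut V₀), mul_comm d]⟩
      left_inv := by
        rintro ⟨⟨⟨⟨σ, y⟩, ⟨σ', y'⟩⟩, ⟨⟨π, π'⟩, ⟨ρ, ρ'⟩⟩⟩, ⟨hσE, hσ⟩, ⟨hσE', hσ'⟩, h1, h2⟩
        simp only at h1 h2
        apply Subtype.ext
        simp only [Prod.mk.injEq, and_true]
        refine ⟨⟨?_, hii' _ _⟩, ?_, ?_⟩
        · group
        · group
        · rw [h1, hii']
      right_inv := by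
        rintro ⟨⟨⟨π, π'⟩, ⟨ρ, ρ'⟩⟩, ⟨⟨⟨s, hs⟩, ⟨s', hs'⟩, X⟩, h1, h2⟩⟩
        simp only [Prod.mk.injEq, true_and]
        apply Subtype.ext
        simp only [Prod.mk.injEq]
        refine ⟨Subtype.ext ?_, Subtype.ext ?_, hii _ _⟩
        · simp only; group
        · simp only; group }
  have h := Nat.card_congr key
  rw [hNc]
  change Nat.card A = _
  rw [h, Nat.card_prod, Nat.card_prod, Nat.card_prod, Nat.card_prod]
  unfold nS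
  ring

end Pool.Agent.PP.SE.H95
end
end -- Pool.Agent.Helper95_ASE.CN3
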