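import Pool.Agent.Helper12_AWB.B216
import Pool.Agent.Helper12_AWB.B219
import Pool.Agent.Helper12_AWB.B228
import Pool.Agent.Helper12_AWB.B229

/-!
# Merged copies (generated) of the modules

* `Pool.Agent.Helper62_ASO.LBS`
* `Pool.Agent.Helper9_ASO.MBI`
* `Pool.Agent.Helper45_ASD.TFA`
* `Pool.Agent.Helper47_ASE.X2R`
* `Pool.Agent.Helper47_ASE.FT3`
* `Pool.Agent.Helper47_ASE.HXY`
* `Pool.Agent.Helper48_ASE.LT2`
* `Pool.Agent.Helper63_ASE.MBS`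
-/

set_option autoImplicit false

section -- Pool.Agent.Helper62_ASO.LBS

/-!
# Squad ASO, row LBS: the total sum in terms of the weighted numbers
-/

open scoped BigOperators

set_option autoImplicit false

noncomputable section

namespace Pool.Agent.PP.SO.H62

open Pool.Agent.Helper51_AWC Pool.Agent.Helper79_WRA Pool.Agent.PP Pool.Agent.PP.KF
open Pool.Agent.PP.K9 Pool.Agent.PP.K9.H97 Pool.Agent.PP.H75 Pool.Agent.PP.T3

attribute [local instance] Ideal.Quotient.field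

/-! ### Triples -/

section triples

variable {G : Type} [Group G]

instance finXX [Finite G] (g h : G) : Finite (XX g h) := by
  unfold XX
  infer_instance

/-- conjugation of the first argument -/
def eqA (g h z : G) : XX g h ≃ XX (z * g * z⁻¹) h where
  toFun w := ⟨(z * w.1.1 * z⁻¹, z * w.1.2.1 * z⁻¹, z * w.1.2.2), by
    have h1 := w.2
    calc z * w.1.1 * z⁻¹ * (z * w.1.2.1 * z⁻¹) * (z * w.1.1 * z⁻¹)⁻¹ * (z * w.1.2.1 * z⁻¹)⁻¹ =
        z * (w.1.1 * w.1.2.1 * w.1.1⁻¹ * w.1.2.1⁻¹) * z⁻¹ := by group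
      _ = z * (g * (w.1.2.2 * h * w.1.2.2⁻¹)) * z⁻¹ := by rw [h1]
      _ = z * g * z⁻¹ * (z * w.1.2.2 * h * (z * w.1.2.2)⁻¹) := by group⟩
  invFun w := ⟨(z⁻¹ * w.1.1 * z, z⁻¹ * w.1.2.1 * z, z⁻¹ * w.1.2.2), by
    have h1 := w.2
    calc z⁻¹ * w.1.1 * z * (z⁻¹ * w.1.2.1 * z) * (z⁻¹ * w.1.1 * z)⁻¹ * (z⁻¹ * w.1.2.1 * z)⁻¹ =
        z⁻¹ * (w.1.1 * w.1.2.1 * w.1.1⁻¹ * w.1.2.1⁻¹) * z := by group
      _ = z⁻¹ * (z * g * z⁻¹ * (w.1.2.2 * h * w.1.2.2⁻¹)) * z := by rw [h1]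
      _ = g * (z⁻¹ * w.1.2.2 * h * (z⁻¹ * w.1.2.2)⁻¹) := by group⟩
  left_inv w := by
    apply Subtype.ext
    apply Prod.ext
    · show z⁻¹ * (z * w.1.1 * z⁻¹) * z = w.1.1
      group
    · apply Prod.ext
      · show z⁻¹ * (z * w.1.2.1 * z⁻¹) * z = w.1.2.1
        group
      · show z⁻¹ * (z * w.1.2.2) = w.1.2.2
        group
  right_inv w := by
    apply Subtype.ext
    apply Prod.ext
    · show z * (z⁻¹ * w.1.1 * z) * z⁻¹ = w.1.1
      group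
    · apply Prod.ext
      · show z * (z⁻¹ * w.1.2.1 * z) * z⁻¹ = w.1.2.1
        group
      · show z * (z⁻¹ * w.1.2.2) = w.1.2.2
        group

/-- conjugation of the second argument -/
def eqB (g h z : G) : XX g h ≃ XX g (z * h * z⁻¹) where
  toFun w := ⟨(w.1.1, w.1.2.1, w.1.2.2 * z⁻¹), by
    have h1 := w.2
    calc w.1.1 * w.1.2.1 * w.1.1⁻¹ * w.1.2.1⁻¹ = g * (w.1.2.2 * h * w.1.2.2⁻¹) := h1
      _ = g * (w.1.2.2 * z⁻¹ * (z * h * z⁻¹) * (w.1.2.2 * z⁻¹)⁻¹) := by group⟩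
  invFun w := ⟨(w.1.1, w.1.2.1, w.1.2.2 * z), by
    have h1 := w.2
    calc w.1.1 * w.1.2.1 * w.1.1⁻¹ * w.1.2.1⁻¹ = g * (w.1.2.2 * (z * h * z⁻¹) * w.1.2.2⁻¹) := h1
      _ = g * (w.1.2.2 * z * h * (w.1.2.2 * z)⁻¹) := by group⟩
  left_inv w := by
    apply Subtype.ext
    apply Prod.ext
    · rfl
    · apply Prod.ext
      · rfl
      · show w.1.2.2 * z⁻¹ * z = w.1.2.2
        group
  right_inv w := by
    apply Subtype.ext
    apply Prod.ext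
    · rfl
    · apply Prod.ext
      · rfl
      · show w.1.2.2 * z * z⁻¹ = w.1.2.2
        group

end triples

/-! ### Conditions -/

section cond

variable {G V₀ : Type} [Group G] [CommGroup V₀] {n : ℕ}

/-- invariance of a condition under the two kinds of conjugation -/
structure Iv (ι : V₀ →* G) (Cd : G → G → G → G → SS n V₀ → Prop) : Prop where
  one : ∀ (z g x y u : G) (σ : SS n V₀), z * ι σ.2.2.1 = ι σ.2.2.1 * z →
    (Cd (z * g * z⁻¹) (z * x * z⁻¹) (z * y * z⁻¹) (z * u) σ ↔ Cd g x y u σ)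
  two : ∀ (z g x y u : G) (σ : SS n V₀), z * ι σ.2.2.2 = ι σ.2.2.2 * z →
    (Cd g x y (u * z⁻¹) σ ↔ Cd g x y u σ)

/-- the number of triples -/
def NN (Cd : G → G → G → G → SS n V₀ → Prop) (g h : G) (L : Set (SS n V₀)) : ℕ :=
  {z : XX g h | ∀ σ ∈ L, Cd g z.1.1 z.1.2.1 z.1.2.2 σ}.ncard

variable {ι : V₀ →* G} {Cd : G → G → G → G → SS n V₀ → Prop}

theorem NN_one (hC : Iv ι Cd) (g h z : G) (L : Set (SS n V₀))
    (hz : ∀ σ ∈ L, z * ι σ.2.2.1 = ι σ.2.2.1 * z) : NN Cd (z * g * z⁻¹) h L = NN Cd g h L := by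
  unfold NN
  have h1 : {w : XX (z * g * z⁻¹) h | ∀ σ ∈ L, Cd (z * g * z⁻¹) w.1.1 w.1.2.1 w.1.2.2 σ} =
      eqA g h z '' {w : XX g h | ∀ σ ∈ L, Cd g w.1.1 w.1.2.1 w.1.2.2 σ} := by
    ext w
    obtain ⟨v, rfl⟩ := (eqA g h z).surjective w
    rw [(eqA g h z).injective.mem_set_image]
    exact forall₂_congr fun σ hσ => hC.one z g v.1.1 v.1.2.1 v.1.2.2 σ (hz σ hσ)
  rw [h1, Set.ncard_image_of_injective _ (eqA g h z).injective]

theorem NN_two (hC : Iv ι Cd) (g h z : G) (L : Set (SS n V₀))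
    (hz : ∀ σ ∈ L, z * ι σ.2.2.2 = ι σ.2.2.2 * z) : NN Cd g (z * h * z⁻¹) L = NN Cd g h L := by
  unfold NN
  have h1 : {w : XX g (z * h * z⁻¹) | ∀ σ ∈ L, Cd g w.1.1 w.1.2.1 w.1.2.2 σ} =
      eqB g h z '' {w : XX g h | ∀ σ ∈ L, Cd g w.1.1 w.1.2.1 w.1.2.2 σ} := by
    ext w
    obtain ⟨v, rfl⟩ := (eqB g h z).surjective w
    rw [(eqB g h z).injective.mem_set_image]
    exact forall₂_congr fun σ hσ => hC.two z g v.1.1 v.1.2.1 v.1.2.2 σ (hz σ hσ)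
  rw [h1, Set.ncard_image_of_injective _ (eqB g h z).injective]

theorem conj_pow' (z a : G) (k : ℕ) : (z * a * z⁻¹) ^ k = z * a ^ k * z⁻¹ := conj_pow

theorem c13_iv (m : ℕ) (ι : V₀ →* G) : Iv ι (fun g x y u (s : SS n V₀) =>
    c13 m ι g x y u s.1 s.2.1 s.2.2.1 s.2.2.2) := by
  refine ⟨fun z g x y u σ hz => ?_, fun z g x y u σ hz => ?_⟩
  · have hz' : ι σ.2.2.1 = z * ι σ.2.2.1 * z⁻¹ := by rw [hz, mul_inv_cancel_right]
    unfold c13
    obtain ⟨p, hp⟩ : ∃ p, p = ι σ.2.2.1 := ⟨_, rfl⟩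
    rw [← hp] at hz hz' ⊢
    have e0 : (z * g * z⁻¹)⁻¹ * (z * x * z⁻¹) = z * (g⁻¹ * x) * z⁻¹ := by group
    rw [e0, conj_pow', conj_pow', conj_pow', conj_pow']
    refine and_congr ?_ (and_congr ?_ ?_)
    · have e1 : p * (z * x * z⁻¹) * p⁻¹ = z * (p * x * p⁻¹) * z⁻¹ := by
        conv_lhs => rw [hz']
        group
      rw [e1]
      constructor
      · intro h
        exact mul_left_cancel (mul_right_cancel h)
      · intro h
        rw [← h]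
    · have e1 : p * (z * y * z⁻¹) * p⁻¹ = z * (p * y * p⁻¹) * z⁻¹ := by
        conv_lhs => rw [hz']
        group
      have e2 : z * ((g⁻¹ * x) ^ m) ^ (σ.2.1 : ℕ) * z⁻¹ * (z * y * z⁻¹) *
          (z * (x ^ m) ^ (σ.1 : ℕ) * z⁻¹) =
          z * (((g⁻¹ * x) ^ m) ^ (σ.2.1 : ℕ) * y * (x ^ m) ^ (σ.1 : ℕ)) * z⁻¹ := by group
      rw [e1, e2]
      constructor
      · intro h
        exact mul_left_cancel (mul_right_cancel h)
      · intro h
        rw [h]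
    · have e1 : p * (z * u) * (ι σ.2.2.2)⁻¹ = z * (p * u * (ι σ.2.2.2)⁻¹) := by
        rw [← mul_assoc, ← hz]
        group
      have e2 : z * ((g⁻¹ * x) ^ m) ^ (σ.2.1 : ℕ) * z⁻¹ * (z * u) =
          z * (((g⁻¹ * x) ^ m) ^ (σ.2.1 : ℕ) * u) := by group
      rw [e1, e2]
      exact mul_right_inj z
  · have hz' : z⁻¹ * (ι σ.2.2.2)⁻¹ = (ι σ.2.2.2)⁻¹ * z⁻¹ := by
      rw [← mul_inv_rev, ← mul_inv_rev, hz]
    unfold c13
    refine and_congr Iff.rfl (and_congr Iff.rfl ?_)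
    have e1 : ι σ.2.2.1 * (u * z⁻¹) * (ι σ.2.2.2)⁻¹ = ι σ.2.2.1 * u * (ι σ.2.2.2)⁻¹ * z⁻¹ := by
      rw [mul_assoc, mul_assoc, hz']
      group
    have e2 : ((g⁻¹ * x) ^ m) ^ (σ.2.1 : ℕ) * (u * z⁻¹) =
        ((g⁻¹ * x) ^ m) ^ (σ.2.1 : ℕ) * u * z⁻¹ := by group
    rw [e1, e2]
    exact mul_left_inj z⁻¹

theorem c12_iv (m : ℕ) (ι : V₀ →* G) : Iv ι (fun _ x y u (s : SS n V₀) =>
    c12 m ι x y u s.1 s.2.1 s.2.2.1 s.2.2.2) := by
  refine ⟨fun z g x y u σ hz => ?_, fun z g x y u σ hz => ?_⟩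
  · have hz' : ι σ.2.2.1 = z * ι σ.2.2.1 * z⁻¹ := by rw [hz, mul_inv_cancel_right]
    show c12 m ι (z * x * z⁻¹) (z * y * z⁻¹) (z * u) σ.1 σ.2.1 σ.2.2.1 σ.2.2.2 ↔
      c12 m ι x y u σ.1 σ.2.1 σ.2.2.1 σ.2.2.2
    unfold c12
    obtain ⟨p, hp⟩ : ∃ p, p = ι σ.2.2.1 := ⟨_, rfl⟩
    rw [← hp] at hz hz' ⊢
    have e0 : kap (z * x * z⁻¹) (z * y * z⁻¹) = z * kap x y * z⁻¹ := by
      unfold kap
      group
    rw [e0, conj_pow', conj_pow', conj_pow', conj_pow']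
    obtain ⟨K, hK⟩ : ∃ K, K = (kap x y ^ m) ^ (σ.2.1 : ℕ) := ⟨_, rfl⟩
    obtain ⟨X, hX⟩ : ∃ X, X = (x ^ m) ^ (σ.1 : ℕ) := ⟨_, rfl⟩
    rw [← hK, ← hX]
    refine and_congr ?_ (and_congr ?_ ?_)
    · have e1 : p * (z * x * z⁻¹) * p⁻¹ = z * (p * x * p⁻¹) * z⁻¹ := by
        conv_lhs => rw [hz']
        group
      have e2 : (z * K * z⁻¹)⁻¹ * (z * x * z⁻¹) * (z * K * z⁻¹) = z * (K⁻¹ * x * K) * z⁻¹ := by group
      rw [e1, e2]
      constructor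
      · intro h
        exact mul_left_cancel (mul_right_cancel h)
      · intro h
        rw [h]
    · have e1 : p * (z * y * z⁻¹) * p⁻¹ = z * (p * y * p⁻¹) * z⁻¹ := by
        conv_lhs => rw [hz']
        group
      have e2 : (z * K * z⁻¹)⁻¹ * (z * y * z⁻¹ * (z * X * z⁻¹)) * (z * K * z⁻¹) =
          z * (K⁻¹ * (y * X) * K) * z⁻¹ := by group
      rw [e1, e2]
      constructor
      · intro h
        exact mul_left_cancel (mul_right_cancel h)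
      · intro h
        rw [h]
    · have e1 : p * (z * u) * (ι σ.2.2.2)⁻¹ = z * (p * u * (ι σ.2.2.2)⁻¹) := by
        rw [← mul_assoc, ← hz]
        group
      rw [e1]
      exact mul_right_inj z
  · have hz' : z⁻¹ * (ι σ.2.2.2)⁻¹ = (ι σ.2.2.2)⁻¹ * z⁻¹ := by
      rw [← mul_inv_rev, ← mul_inv_rev, hz]
    show c12 m ι x y (u * z⁻¹) σ.1 σ.2.1 σ.2.2.1 σ.2.2.2 ↔
      c12 m ι x y u σ.1 σ.2.1 σ.2.2.1 σ.2.2.2
    unfold c12
    refine and_congr Iff.rfl (and_congr Iff.rfl ?_)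
    have e1 : ι σ.2.2.1 * (u * z⁻¹) * (ι σ.2.2.2)⁻¹ = ι σ.2.2.1 * u * (ι σ.2.2.2)⁻¹ * z⁻¹ := by
      rw [mul_assoc, mul_assoc, hz']
      group
    rw [e1]
    exact mul_left_inj z⁻¹

/-! ### Möbius inversion -/

theorem mbi_sum (mbi : MbiStmt) {A : Type} [Finite A] [Fintype (Set A)] (F : Set A → ℚ)
    (τ : Set A) [∀ L : Set A, Decidable (L ⊆ τ)] :
    F τ = ∑ L : Set A, if L ⊆ τ then mob F L else 0 := by
  classical
  rw [← (mbi A F).1 τ, finsum_mem_def, finsum_eq_sum_of_fintype]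
  refine Finset.sum_congr rfl fun L _ => ?_
  rw [Set.indicator_apply]
  by_cases h : L ⊆ τ
  · rw [if_pos h, if_pos (show L ∈ {L : Set A | L ⊆ τ} from h)]
  · rw [if_neg h, if_neg (show L ∉ {L : Set A | L ⊆ τ} from h)]

open Classical in
/-- the sum over the triples -/
theorem sum_types (mbi : MbiStmt) [Finite G] [Finite V₀] [Fintype (Set (SS n V₀))]
    (Cd : G → G → G → G → SS n V₀ → Prop) (P Q : Subgroup V₀) (g h : G)
    (F : Set (SS n V₀) → ℚ) :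
    ∑ᶠ z : XX g h, F {σ | σ.2.2.1 ∈ P ∧ σ.2.2.2 ∈ Q ∧ Cd g z.1.1 z.1.2.1 z.1.2.2 σ} =
      ∑ L : Set (SS n V₀), mob F L *
        (if pL L ≤ P ∧ qL L ≤ Q then (NN Cd g h L : ℚ) else 0) := by
  have := Fintype.ofFinite (XX g h)
  rw [finsum_eq_sum_of_fintype]
  have h1 : ∀ z : XX g h, F {σ | σ.2.2.1 ∈ P ∧ σ.2.2.2 ∈ Q ∧ Cd g z.1.1 z.1.2.1 z.1.2.2 σ} =
      ∑ L : Set (SS n V₀), if pL L ≤ P ∧ qL L ≤ Q then
        (if ∀ σ ∈ L, Cd g z.1.1 z.1.2.1 z.1.2.2 σ then mob F L else 0) else 0 := by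
    intro z
    rw [mbi_sum mbi F]
    refine Finset.sum_congr rfl fun L _ => ?_
    have h2 : L ⊆ {σ | σ.2.2.1 ∈ P ∧ σ.2.2.2 ∈ Q ∧ Cd g z.1.1 z.1.2.1 z.1.2.2 σ} ↔
        (pL L ≤ P ∧ qL L ≤ Q) ∧ ∀ σ ∈ L, Cd g z.1.1 z.1.2.1 z.1.2.2 σ := by
      constructor
      · intro h
        refine ⟨⟨?_, ?_⟩, fun σ hσ => (h hσ).2.2⟩
        · unfold pL
          rw [Subgroup.closure_le]
          rintro p ⟨s, hs, rfl⟩
          exact (h hs).1
        · unfold qL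
          rw [Subgroup.closure_le]
          rintro p ⟨s, hs, rfl⟩
          exact (h hs).2.1
      · rintro ⟨⟨h3, h4⟩, h5⟩ σ hσ
        exact ⟨h3 (Subgroup.subset_closure ⟨σ, hσ, rfl⟩), h4 (Subgroup.subset_closure ⟨σ, hσ, rfl⟩),
          h5 σ hσ⟩
    by_cases h3 : pL L ≤ P ∧ qL L ≤ Q
    · rw [if_pos h3]
      exact if_congr (h2.trans (and_iff_right h3)) rfl rfl
    · rw [if_neg h3, if_neg (fun h => h3 (h2.1 h).1)]
  rw [Finset.sum_congr rfl fun z _ => h1 z, Finset.sum_comm]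
  refine Finset.sum_congr rfl fun L _ => ?_
  by_cases h3 : pL L ≤ P ∧ qL L ≤ Q
  · rw [if_pos h3, Finset.sum_congr rfl fun z _ => if_pos h3, ← Finset.sum_filter,
      Finset.sum_const, nsmul_eq_mul, mul_comm]
    have h4 : (Finset.univ.filter fun z : XX g h => ∀ σ ∈ L, Cd g z.1.1 z.1.2.1 z.1.2.2 σ).card =
        NN Cd g h L := by
      unfold NN
      rw [Set.ncard_eq_toFinset_card']
      congr 1
      ext z
      simp
    rw [h4]
  · rw [if_neg h3, Finset.sum_congr rfl fun z _ => if_neg h3, Finset.sum_const_zero, mul_zero]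

end cond

/-! ### The weights -/

section wts

variable {V₀ G : Type} [CommGroup V₀] [Finite V₀] [Group G] [Finite G]
  {M : Ideal (integralClosure ℤ ℂ)} [M.IsMaximal]

theorem sup_top {ℓ : ℕ} (hℓ : ℓ.Prime) {E₀ : Subgroup (MulAut V₀)} (hFr : Fr ℓ V₀ E₀) {c : V₀}
    (hc : c ≠ 1) {P : Subgroup V₀} (hP : ¬ P ≤ Subgroup.zpowers c) :
    P ⊔ Subgroup.zpowers c = ⊤ := by
  have : Fact ℓ.Prime := ⟨hℓ⟩
  have ho : orderOf c = ℓ := orderOf_eq_prime (hFr.ex c) hc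
  have h1 : Nat.card (Subgroup.zpowers c) = ℓ := by rw [Nat.card_zpowers, ho]
  have h2 : Subgroup.zpowers c < P ⊔ Subgroup.zpowers c := by
    refine lt_of_le_of_ne le_sup_right fun h => hP ?_
    rw [h]
    exact le_sup_left
  have h3 : Nat.card (Subgroup.zpowers c) ∣ Nat.card (P ⊔ Subgroup.zpowers c : Subgroup V₀) :=
    Subgroup.card_dvd_of_le h2.le
  have h4 : Nat.card (P ⊔ Subgroup.zpowers c : Subgroup V₀) ∣ ℓ ^ 2 := by
    rw [← hFr.cd]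
    exact Subgroup.card_subgroup_dvd_card _
  obtain ⟨k, hk, hk2⟩ := (Nat.dvd_prime_pow hℓ).1 h4
  apply Subgroup.eq_top_of_card_eq
  rw [hFr.cd]
  have h5 : k = 2 := by
    have h6 : Nat.card (P ⊔ Subgroup.zpowers c : Subgroup V₀) ≠ ℓ := by
      intro h7
      have h8 := Subgroup.eq_of_le_of_card_ge h2.le (by rw [h7, h1])
      exact h2.ne h8
    interval_cases k
    · exfalso
      rw [hk2, pow_zero, h1] at h3
      exact hℓ.one_lt.ne' (Nat.dvd_one.1 h3)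
    · exfalso
      rw [hk2, pow_one] at h6
      exact h6 rfl
    · rfl
  rw [hk2, h5]

open Classical in
/-- the key lemma for one variable -/
theorem one_var {ℓ : ℕ} (hℓ : ℓ.Prime) {E₀ : Subgroup (MulAut V₀)} (hFr : Fr ℓ V₀ E₀)
    (B : Bk (FF M) V₀ G) [Fintype G] {c : V₀} (hc : c ≠ 1) (P : Subgroup V₀) (Y : G → ℂ)
    (hY : P ≤ Subgroup.zpowers c → ∀ z ∈ B.C (Subgroup.zpowers c), ∀ s, Y (z * s * z⁻¹) = Y s) :
    ∑ f : Bool, (if P ≤ frm c f then ∑ s, wt B c f s * Y s else 0) =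
      (Nat.card (B.C (P ⊔ Subgroup.zpowers c)) : ℂ)⁻¹ *
        ∑ s, bh B (P ⊔ Subgroup.zpowers c) s * Y s := by
  rw [Fintype.sum_bool]
  have ht : P ≤ frm c true := by
    show P ≤ (⊤ : Subgroup V₀)
    exact le_top
  rw [if_pos ht]
  have hwt : ∀ s, wt B c true s = (Nat.card (B.C ⊤) : ℂ)⁻¹ * bh B ⊤ s := fun s => rfl
  by_cases hP : P ≤ Subgroup.zpowers c
  · have hf : P ≤ frm c false := hP
    rw [if_pos hf, sup_eq_right.2 hP]
    have := Fintype.ofFinite (B.C (Subgroup.zpowers c))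
    have hwf : ∀ s, wt B c false s = (Nat.card (B.C (Subgroup.zpowers c)) : ℂ)⁻¹ *
        (bh B (Subgroup.zpowers c) s - (Nat.card (B.C ⊤) : ℂ)⁻¹ *
          ∑ z : B.C (Subgroup.zpowers c), bh B ⊤ ((z : G)⁻¹ * s * z)) := by
      intro s
      rw [← finsum_eq_sum_of_fintype]
      rfl
    have h1 : ∑ s, (∑ z : B.C (Subgroup.zpowers c), bh B ⊤ ((z : G)⁻¹ * s * z)) * Y s =
        Nat.card (B.C (Subgroup.zpowers c)) * ∑ s, bh B ⊤ s * Y s := by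
      simp only [Finset.sum_mul]
      rw [Finset.sum_comm]
      have h2 : ∀ z : B.C (Subgroup.zpowers c), ∑ s, bh B ⊤ ((z : G)⁻¹ * s * z) * Y s =
          ∑ s, bh B ⊤ s * Y s := by
        intro z
        rw [← Equiv.sum_comp (MulAut.conj (z : G)).toEquiv]
        refine Finset.sum_congr rfl fun s _ => ?_
        have e1 : (MulAut.conj (z : G)).toEquiv s = z * s * (z : G)⁻¹ := rfl
        rw [e1, hY hP z z.2]
        have e2 : (z : G)⁻¹ * (z * s * (z : G)⁻¹) * z = s := by group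
        rw [e2]
      rw [Finset.sum_congr rfl fun z _ => h2 z, Finset.sum_const, nsmul_eq_mul, Finset.card_univ,
        Nat.card_eq_fintype_card]
    have h3 : (Nat.card (B.C (Subgroup.zpowers c)) : ℂ) ≠ 0 := by
      exact_mod_cast Nat.card_pos.ne'
    have h4 : ∑ s, wt B c false s * Y s = (Nat.card (B.C (Subgroup.zpowers c)) : ℂ)⁻¹ *
        (∑ s, bh B (Subgroup.zpowers c) s * Y s) - (Nat.card (B.C ⊤) : ℂ)⁻¹ *
          ∑ s, bh B ⊤ s * Y s := by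
      have h5 : ∀ s, wt B c false s * Y s = (Nat.card (B.C (Subgroup.zpowers c)) : ℂ)⁻¹ *
          (bh B (Subgroup.zpowers c) s * Y s) - (Nat.card (B.C (Subgroup.zpowers c)) : ℂ)⁻¹ *
          (Nat.card (B.C ⊤) : ℂ)⁻¹ *
          ((∑ z : B.C (Subgroup.zpowers c), bh B ⊤ ((z : G)⁻¹ * s * z)) * Y s) := by
        intro s
        rw [hwf]
        ring
      rw [Finset.sum_congr rfl fun s _ => h5 s, Finset.sum_sub_distrib, ← Finset.mul_sum,
        ← Finset.mul_sum, h1]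
      field_simp
    have h6 : ∑ s, wt B c true s * Y s = (Nat.card (B.C ⊤) : ℂ)⁻¹ * ∑ s, bh B ⊤ s * Y s := by
      rw [Finset.mul_sum]
      refine Finset.sum_congr rfl fun s _ => ?_
      rw [hwt]
      ring
    rw [h4, h6]
    ring
  · have hf : ¬ P ≤ frm c false := hP
    rw [if_neg hf, add_zero, sup_top hℓ hFr hc hP, Finset.mul_sum]
    refine Finset.sum_congr rfl fun s _ => ?_
    rw [hwt]
    ring

open Classical in
/-- the two variables together -/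
theorem two_var {ℓ : ℕ} (hℓ : ℓ.Prime) {E₀ : Subgroup (MulAut V₀)} (hFr : Fr ℓ V₀ E₀)
    (B : Bk (FF M) V₀ G) [Fintype G] {c d : V₀} (hc : c ≠ 1) (hd : d ≠ 1) (P Q : Subgroup V₀)
    (Y : G → G → ℂ)
    (hY1 : P ≤ Subgroup.zpowers c → ∀ z ∈ B.C (Subgroup.zpowers c), ∀ s t,
      Y (z * s * z⁻¹) t = Y s t)
    (hY2 : Q ≤ Subgroup.zpowers d → ∀ z ∈ B.C (Subgroup.zpowers d), ∀ s t,
      Y s (z * t * z⁻¹) = Y s t) :
    ∑ f : Bool, ∑ f' : Bool, (if P ≤ frm c f ∧ Q ≤ frm d f' then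
      ∑ s, ∑ t, wt B c f s * wt B d f' t * Y s t else 0) =
      ((Nat.card (B.C (P ⊔ Subgroup.zpowers c)) : ℂ) *
        Nat.card (B.C (Q ⊔ Subgroup.zpowers d)))⁻¹ *
        ∑ s, ∑ t, bh B (P ⊔ Subgroup.zpowers c) s * bh B (Q ⊔ Subgroup.zpowers d) t * Y s t := by
  have h1 : ∀ s, ∑ f' : Bool, (if Q ≤ frm d f' then ∑ t, wt B d f' t * Y s t else 0) =
      (Nat.card (B.C (Q ⊔ Subgroup.zpowers d)) : ℂ)⁻¹ *
        ∑ t, bh B (Q ⊔ Subgroup.zpowers d) t * Y s t := fun s =>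
    one_var hℓ hFr B hd Q (Y s) fun h z hz t => hY2 h z hz s t
  have h2 := one_var hℓ hFr B hc P (fun s => (Nat.card (B.C (Q ⊔ Subgroup.zpowers d)) : ℂ)⁻¹ *
        ∑ t, bh B (Q ⊔ Subgroup.zpowers d) t * Y s t) (fun h z hz s => by
      show _ * _ = _ * _
      simp only [hY1 h z hz])
  have h3 : ∀ f : Bool, ∑ f' : Bool, (if P ≤ frm c f ∧ Q ≤ frm d f' then
      ∑ s, ∑ t, wt B c f s * wt B d f' t * Y s t else 0) =
      if P ≤ frm c f then ∑ s, wt B c f s * ((Nat.card (B.C (Q ⊔ Subgroup.zpowers d)) : ℂ)⁻¹ *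
        ∑ t, bh B (Q ⊔ Subgroup.zpowers d) t * Y s t) else 0 := by
    intro f
    by_cases hP : P ≤ frm c f
    · rw [if_pos hP]
      have h4 : ∀ s, wt B c f s * ((Nat.card (B.C (Q ⊔ Subgroup.zpowers d)) : ℂ)⁻¹ *
          ∑ t, bh B (Q ⊔ Subgroup.zpowers d) t * Y s t) =
          ∑ f' : Bool, wt B c f s * (if Q ≤ frm d f' then ∑ t, wt B d f' t * Y s t else 0) := by
        intro s
        rw [← h1 s, Finset.mul_sum]
      rw [Finset.sum_congr rfl fun s _ => h4 s, Finset.sum_comm]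
      refine Finset.sum_congr rfl fun f' _ => ?_
      by_cases hQ : Q ≤ frm d f'
      · rw [if_pos ⟨hP, hQ⟩]
        refine Finset.sum_congr rfl fun s _ => ?_
        rw [if_pos hQ, Finset.mul_sum]
        refine Finset.sum_congr rfl fun t _ => ?_
        ring
      · rw [if_neg fun h => hQ h.2]
        symm
        refine Finset.sum_eq_zero fun s _ => ?_
        rw [if_neg hQ, mul_zero]
    · rw [if_neg hP]
      refine Finset.sum_eq_zero fun f' _ => ?_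
      rw [if_neg fun h => hP h.1]
  rw [Finset.sum_congr rfl fun f _ => h3 f, h2, Finset.mul_sum, Finset.mul_sum]
  refine Finset.sum_congr rfl fun s _ => ?_
  rw [Finset.mul_sum, Finset.mul_sum, Finset.mul_sum, Finset.mul_sum]
  refine Finset.sum_congr rfl fun t _ => ?_
  rw [mul_inv]
  ring

theorem comm_of_mem (B : Bk (FF M) V₀ G) {W : Subgroup V₀} {z : G} (hz : z ∈ B.C W) {p : V₀}
    (hp : p ∈ W) : z * B.i p = B.i p * z := by
  have h1 := Subgroup.mem_centralizer_iff.1 hz (B.i p) (Subgroup.mem_map_of_mem _ hp)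
  exact h1.symm

/-- the general form of the row -/
theorem gen {ℓ : ℕ} (hℓ : ℓ.Prime) {E₀ : Subgroup (MulAut V₀)} (hFr : Fr ℓ V₀ E₀)
    (mbi : MbiStmt) (B : Bk (FF M) V₀ G) {n : ℕ} {c d : V₀} (hc : c ≠ 1) (hd : d ≠ 1)
    {Cd : G → G → G → G → SS n V₀ → Prop} (hC : Iv B.i Cd) (F : Set (SS n V₀) → ℚ) :
    ∑ f : Bool, ∑ f' : Bool, ∑ᶠ w : G × G, wt B c f w.1 * wt B d f' w.2 *
      ((∑ᶠ z : XX (B.i c * w.1) (B.i d * w.2), F {σ | σ.2.2.1 ∈ frm c f ∧ σ.2.2.2 ∈ frm d f' ∧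
        Cd (B.i c * w.1) z.1.1 z.1.2.1 z.1.2.2 σ} : ℚ) : ℂ) =
    ∑ᶠ L : Set (SS n V₀), (mob F L : ℂ) *
      (((Nat.card (B.C (pL L ⊔ Subgroup.zpowers c)) : ℂ) *
        Nat.card (B.C (qL L ⊔ Subgroup.zpowers d)))⁻¹ *
        ∑ᶠ w : G × G, bh B (pL L ⊔ Subgroup.zpowers c) w.1 *
          bh B (qL L ⊔ Subgroup.zpowers d) w.2 * NN Cd (B.i c * w.1) (B.i d * w.2) L) := by
  classical
  have := Fintype.ofFinite G
  have := Fintype.ofFinite (Set (SS n V₀))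
  rw [finsum_eq_sum_of_fintype]
  simp only [finsum_eq_sum_of_fintype (α := G × G), sum_types mbi Cd]
  have h1 : ∀ L : Set (SS n V₀), ∑ f : Bool, ∑ f' : Bool, (if pL L ≤ frm c f ∧ qL L ≤ frm d f' then
      ∑ s, ∑ t, wt B c f s * wt B d f' t * (NN Cd (B.i c * s) (B.i d * t) L : ℂ) else 0) =
      ((Nat.card (B.C (pL L ⊔ Subgroup.zpowers c)) : ℂ) *
        Nat.card (B.C (qL L ⊔ Subgroup.zpowers d)))⁻¹ *
        ∑ s, ∑ t, bh B (pL L ⊔ Subgroup.zpowers c) s * bh B (qL L ⊔ Subgroup.zpowers d) t *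
          (NN Cd (B.i c * s) (B.i d * t) L : ℂ) := by
    intro L
    refine two_var hℓ hFr B hc hd (pL L) (qL L) _ ?_ ?_
    · intro hP z hz s t
      have hcz := comm_of_mem B hz (Subgroup.mem_zpowers c)
      have e1 : B.i c * (z * s * z⁻¹) = z * (B.i c * s) * z⁻¹ := by
        rw [← mul_assoc, ← mul_assoc, ← hcz]
        group
      rw [e1, NN_one hC]
      intro σ hσ
      exact comm_of_mem B hz (hP (Subgroup.subset_closure ⟨σ, hσ, rfl⟩))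
    · intro hQ z hz s t
      have hdz := comm_of_mem B hz (Subgroup.mem_zpowers d)
      have e1 : B.i d * (z * t * z⁻¹) = z * (B.i d * t) * z⁻¹ := by
        rw [← mul_assoc, ← mul_assoc, ← hdz]
        group
      rw [e1, NN_two hC]
      intro σ hσ
      exact comm_of_mem B hz (hQ (Subgroup.subset_closure ⟨σ, hσ, rfl⟩))
  have h2 : ∀ f f' : Bool, ∑ w : G × G, wt B c f w.1 * wt B d f' w.2 *
      ((∑ L : Set (SS n V₀), mob F L * (if pL L ≤ frm c f ∧ qL L ≤ frm d f' then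
        (NN Cd (B.i c * w.1) (B.i d * w.2) L : ℚ) else 0) : ℚ) : ℂ) =
      ∑ L : Set (SS n V₀), (mob F L : ℂ) * (if pL L ≤ frm c f ∧ qL L ≤ frm d f' then
        ∑ s, ∑ t, wt B c f s * wt B d f' t * (NN Cd (B.i c * s) (B.i d * t) L : ℂ) else 0) := by
    intro f f'
    have e1 : ∀ w : G × G, wt B c f w.1 * wt B d f' w.2 *
      ((∑ L : Set (SS n V₀), mob F L * (if pL L ≤ frm c f ∧ qL L ≤ frm d f' then
        (NN Cd (B.i c * w.1) (B.i d * w.2) L : ℚ) else 0) : ℚ) : ℂ) =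
      ∑ L : Set (SS n V₀), (mob F L : ℂ) * (if pL L ≤ frm c f ∧ qL L ≤ frm d f' then
        wt B c f w.1 * wt B d f' w.2 * (NN Cd (B.i c * w.1) (B.i d * w.2) L : ℂ) else 0) := by
      intro w
      push_cast
      rw [Finset.mul_sum]
      refine Finset.sum_congr rfl fun L _ => ?_
      by_cases h : pL L ≤ frm c f ∧ qL L ≤ frm d f'
      · rw [if_pos h, if_pos h]
        push_cast
        ring
      · rw [if_neg h, if_neg h]
        push_cast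
        ring
    rw [Finset.sum_congr rfl fun w _ => e1 w, Finset.sum_comm]
    refine Finset.sum_congr rfl fun L _ => ?_
    rw [← Finset.mul_sum]
    congr 1
    by_cases h : pL L ≤ frm c f ∧ qL L ≤ frm d f'
    · rw [if_pos h, Finset.sum_congr rfl fun w _ => if_pos h, Fintype.sum_prod_type]
    · rw [if_neg h, Finset.sum_congr rfl fun w _ => if_neg h, Finset.sum_const_zero]
  simp only [h2]
  have h3 : ∀ f : Bool, ∑ f' : Bool, ∑ L : Set (SS n V₀), (mob F L : ℂ) *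
      (if pL L ≤ frm c f ∧ qL L ≤ frm d f' then
        ∑ s, ∑ t, wt B c f s * wt B d f' t * (NN Cd (B.i c * s) (B.i d * t) L : ℂ) else 0) =
      ∑ L : Set (SS n V₀), ∑ f' : Bool, (mob F L : ℂ) *
      (if pL L ≤ frm c f ∧ qL L ≤ frm d f' then
        ∑ s, ∑ t, wt B c f s * wt B d f' t * (NN Cd (B.i c * s) (B.i d * t) L : ℂ) else 0) :=
    fun f => Finset.sum_comm
  rw [Finset.sum_congr rfl fun f _ => h3 f, Finset.sum_comm]
  refine Finset.sum_congr rfl fun L _ => ?_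
  have h4 : ∑ f : Bool, ∑ f' : Bool, (mob F L : ℂ) *
      (if pL L ≤ frm c f ∧ qL L ≤ frm d f' then
        ∑ s, ∑ t, wt B c f s * wt B d f' t * (NN Cd (B.i c * s) (B.i d * t) L : ℂ) else 0) =
      (mob F L : ℂ) * ∑ f : Bool, ∑ f' : Bool, (if pL L ≤ frm c f ∧ qL L ≤ frm d f' then
        ∑ s, ∑ t, wt B c f s * wt B d f' t * (NN Cd (B.i c * s) (B.i d * t) L : ℂ) else 0) := by
    rw [Finset.mul_sum]
    refine Finset.sum_congr rfl fun f _ => ?_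
    rw [Finset.mul_sum]
  rw [h4, h1 L, Fintype.sum_prod_type]

end wts

/-- row LBS -/
theorem lbs (mbi : MbiStmt) : LbsStmt := by
  intro ℓ hfact M _ _ V₀ G _ _ _ _ E₀ hFr B _ n m c d hc hd F₁₃ F₁₂
  classical
  have hℓ : ℓ.Prime := Fact.out
  have h13 := gen hℓ hFr mbi B hc hd (c13_iv (n := n) m B.i) F₁₃
  have h12 := gen hℓ hFr mbi B hc hd (c12_iv (n := n) m B.i) F₁₂
  have hsum : ∑ᶠ L : Set (SS n V₀), ((mob F₁₃ L : ℂ) * W13 B m c d L +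
      (mob F₁₂ L : ℂ) * W12 B m c d L) =
      ∑ᶠ L : Set (SS n V₀), (mob F₁₃ L : ℂ) * W13 B m c d L +
      ∑ᶠ L : Set (SS n V₀), (mob F₁₂ L : ℂ) * W12 B m c d L :=
    finsum_add_distrib (Set.toFinite _) (Set.toFinite _)
  rw [hsum]
  refine Eq.trans ?_ (congrArg₂ (· + ·) h13 h12)
  unfold TS
  show _ = _ + _
  rw [← Finset.sum_add_distrib]
  refine Finset.sum_congr rfl fun f _ => ?_
  rw [← Finset.sum_add_distrib]
  refine Finset.sum_congr rfl fun f' _ => ?_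
  rw [← finsum_add_distrib (Set.toFinite _) (Set.toFinite _)]
  refine finsum_congr fun w => ?_
  rw [← mul_add]
  congr 1
  rw [← Rat.cast_add]
  congr 1
  exact finsum_add_distrib (Set.toFinite _) (Set.toFinite _)

end Pool.Agent.PP.SO.H62
end
end -- Pool.Agent.Helper62_ASO.LBS

section -- Pool.Agent.Helper9_ASO.MBI

/-!
# Squad ASO, row MBI: Möbius inversion on the subsets of a finite set
-/

open scoped BigOperators

noncomputable section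

namespace Pool.Agent.PP.SO.H9

theorem fin_P {α β : Type} [AddCommMonoid β] [Fintype α] (P : α → Prop) [DecidablePred P]
    (f : α → β) : ∑ᶠ (s : α) (_ : P s), f s = ∑ s ∈ Finset.univ.filter P, f s := by
  rw [finsum_eq_sum_of_fintype, Finset.sum_filter]
  exact Finset.sum_congr rfl fun s _ => finsum_eq_if

section moeb

open Classical

variable {A : Type} [Fintype A]

theorem sub_fin (S : Set A) (f : Set A → ℚ) :
    ∑ M ∈ Finset.univ.filter (fun M : Set A => M ⊆ S), f M =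
      ∑ m ∈ S.toFinset.powerset, f (m : Set A) := by
  symm
  refine Finset.sum_bij (fun m _ => (m : Set A)) ?_ ?_ ?_ ?_
  · intro m hm
    rw [Finset.mem_powerset] at hm
    refine Finset.mem_filter.2 ⟨Finset.mem_univ _, ?_⟩
    intro x hx
    exact Set.mem_toFinset.1 (hm hx)
  · intro m _ m' _ h
    exact Finset.coe_injective h
  · intro M hM
    have h1 := (Finset.mem_filter.1 hM).2
    refine ⟨M.toFinset, ?_, Set.coe_toFinset M⟩
    rw [Finset.mem_powerset]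
    exact Set.toFinset_subset_toFinset.2 h1
  · intro m _
    rfl

theorem alt (S : Set A) :
    ∑ M ∈ Finset.univ.filter (fun M : Set A => M ⊆ S), (-1 : ℚ) ^ M.ncard =
      if S = ∅ then 1 else 0 := by
  rw [sub_fin]
  have h1 := Finset.sum_powerset_neg_one_pow_card (x := S.toFinset)
  have h2 : (∑ m ∈ S.toFinset.powerset, (-1 : ℚ) ^ (m : Set A).ncard) =
      ((∑ m ∈ S.toFinset.powerset, (-1 : ℤ) ^ m.card : ℤ) : ℚ) := by
    push_cast
    refine Finset.sum_congr rfl fun m _ => ?_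
    rw [Set.ncard_coe_finset]
  rw [h2, h1]
  by_cases h : S = ∅
  · subst h
    simp
  · rw [if_neg h, if_neg (by simpa using h)]
    norm_num

/-- the sum over the sets between two given ones -/
theorem alt2 (T τ : Set A) (hT : T ⊆ τ) :
    ∑ L ∈ Finset.univ.filter (fun L : Set A => T ⊆ L ∧ L ⊆ τ), (-1 : ℚ) ^ (L \ T).ncard =
      if T = τ then 1 else 0 := by
  have h1 : ∑ L ∈ Finset.univ.filter (fun L : Set A => T ⊆ L ∧ L ⊆ τ), (-1 : ℚ) ^ (L \ T).ncard =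
      ∑ M ∈ Finset.univ.filter (fun M : Set A => M ⊆ τ \ T), (-1 : ℚ) ^ M.ncard := by
    refine Finset.sum_bij' (fun L _ => L \ T) (fun M _ => M ∪ T) ?_ ?_ ?_ ?_ ?_
    · intro L hL
      have h := (Finset.mem_filter.1 hL).2
      exact Finset.mem_filter.2 ⟨Finset.mem_univ _, Set.diff_subset_diff_left h.2⟩
    · intro M hM
      have h := (Finset.mem_filter.1 hM).2
      refine Finset.mem_filter.2 ⟨Finset.mem_univ _, Set.subset_union_right, ?_⟩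
      exact Set.union_subset (h.trans Set.diff_subset) hT
    · intro L hL
      have h := (Finset.mem_filter.1 hL).2
      exact Set.diff_union_of_subset h.1
    · intro M hM
      have h := (Finset.mem_filter.1 hM).2
      ext x
      constructor
      · rintro ⟨hx | hx, hx'⟩
        · exact hx
        · exact absurd hx hx'
      · intro hx
        exact ⟨Or.inl hx, (h hx).2⟩
    · intro L _
      rfl
  rw [h1, alt]
  by_cases h : T = τ
  · rw [if_pos h, if_pos]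
    rw [h, Set.diff_self]
  · rw [if_neg h, if_neg]
    intro h2
    apply h
    exact Set.Subset.antisymm hT (Set.diff_eq_empty.1 h2)

theorem mob_eq (F : Set A → ℚ) (L : Set A) :
    mob F L = ∑ T ∈ Finset.univ.filter (fun T : Set A => T ⊆ L), (-1) ^ (L \ T).ncard * F T :=
  fin_P (fun T : Set A => T ⊆ L) _

theorem alt3 (L : Set A) (hL : L.Nonempty) :
    ∑ T ∈ Finset.univ.filter (fun T : Set A => T ⊆ L), (-1 : ℚ) ^ (L \ T).ncard = 0 := by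
  have h1 : ∑ T ∈ Finset.univ.filter (fun T : Set A => T ⊆ L), (-1 : ℚ) ^ (L \ T).ncard =
      ∑ M ∈ Finset.univ.filter (fun M : Set A => M ⊆ L), (-1 : ℚ) ^ M.ncard := by
    refine Finset.sum_bij' (fun T _ => L \ T) (fun M _ => L \ M) ?_ ?_ ?_ ?_ ?_
    · intro T _
      exact Finset.mem_filter.2 ⟨Finset.mem_univ _, Set.diff_subset⟩
    · intro T _
      exact Finset.mem_filter.2 ⟨Finset.mem_univ _, Set.diff_subset⟩
    · intro T hT
      exact Set.diff_diff_cancel_left (Finset.mem_filter.1 hT).2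
    · intro T hT
      exact Set.diff_diff_cancel_left (Finset.mem_filter.1 hT).2
    · intro T _
      rfl
  rw [h1, alt, if_neg hL.ne_empty]

end moeb

theorem mbi : MbiStmt := by
  intro A _ F
  classical
  have := Fintype.ofFinite A
  refine ⟨fun τ => ?_, fun L h => ?_, fun L q hL => ?_, ?_⟩
  · rw [show ∑ᶠ L ∈ {L : Set A | L ⊆ τ}, mob F L =
      ∑ L ∈ Finset.univ.filter (fun L : Set A => L ⊆ τ), mob F L from
        fin_P (fun L : Set A => L ⊆ τ) _]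
    have h1 : ∀ L, mob F L = ∑ T : Set A, if T ⊆ L then (-1) ^ (L \ T).ncard * F T else 0 := by
      intro L
      rw [mob_eq, Finset.sum_filter]
    rw [Finset.sum_congr rfl fun L _ => h1 L, Finset.sum_comm]
    have h2 : ∀ T : Set A, ∑ L ∈ Finset.univ.filter (fun L : Set A => L ⊆ τ),
        (if T ⊆ L then (-1) ^ (L \ T).ncard * F T else 0) = if T = τ then F τ else 0 := by
      intro T
      rw [← Finset.sum_filter, Finset.filter_filter]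
      by_cases hT : T ⊆ τ
      · have h3 := alt2 T τ hT
        rw [← Finset.sum_mul]
        have h4 : (Finset.univ.filter fun L : Set A => L ⊆ τ ∧ T ⊆ L) =
            Finset.univ.filter fun L : Set A => T ⊆ L ∧ L ⊆ τ := by
          ext L
          simp only [Finset.mem_filter, Finset.mem_univ, true_and]
          exact and_comm
        rw [h4, h3]
        by_cases h : T = τ
        · rw [if_pos h, if_pos h, h, one_mul]
        · rw [if_neg h, if_neg h, zero_mul]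
      · rw [if_neg (fun h : T = τ => hT h.subset)]
        refine Finset.sum_eq_zero fun L hL => ?_
        exfalso
        have h := (Finset.mem_filter.1 hL).2
        exact hT (h.2.trans h.1)
    rw [Finset.sum_congr rfl fun T _ => h2 T]
    simp
  · rw [mob_eq]
    refine Finset.sum_eq_zero fun T hT => ?_
    rw [h T (Finset.mem_filter.1 hT).2, mul_zero]
  · rw [mob_eq, mob_eq]
    have h1 : ∑ T ∈ Finset.univ.filter (fun T : Set A => T ⊆ L), (-1) ^ (L \ T).ncard * (F T - q) =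
        ∑ T ∈ Finset.univ.filter (fun T : Set A => T ⊆ L), (-1) ^ (L \ T).ncard * F T -
        (∑ T ∈ Finset.univ.filter (fun T : Set A => T ⊆ L), (-1 : ℚ) ^ (L \ T).ncard) * q := by
      rw [Finset.sum_mul, ← Finset.sum_sub_distrib]
      exact Finset.sum_congr rfl fun T _ => by ring
    rw [h1, alt3 L hL, zero_mul, sub_zero]
  · rw [mob_eq]
    have h1 : (Finset.univ.filter fun T : Set A => T ⊆ ∅) = {∅} := by
      ext T
      simp
    rw [h1, Finset.sum_singleton]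
    simp

end Pool.Agent.PP.SO.H9
end
end -- Pool.Agent.Helper9_ASO.MBI

section -- Pool.Agent.Helper45_ASD.TFA

/-!
# Row TFA of the squad ASD: the evaluation of `T5`
-/

open scoped BigOperators

set_option linter.unusedSectionVars false

noncomputable section

namespace Pool.Agent.PP.SD.H45

open Pool.Agent.Helper51_AWC Pool.Agent.Helper79_WRA Pool.Agent.PP Pool.Agent.PP.KF
open Pool.Agent.PP.K9 Pool.Agent.PP.K9.H97 Pool.Agent.PP.H75 Pool.Agent.PP.T3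
open Pool.Agent.PP.SO Pool.Agent.PP.SD

attribute [local instance] Ideal.Quotient.field

/-! ### the relation `y⁻¹ a ^ k y = a ^ k z ^ i` -/

section rel

variable {G : Type} [Group G]

/-- the relation -/
def Rr (a : G) (k i : ℕ) (z y : G) : Prop := y⁻¹ * a ^ k * y = a ^ k * z ^ i

theorem rr_conj {a v : G} (hv : Commute v a) (k i : ℕ) (z y : G) :
    Rr a k i (v * z * v⁻¹) (y * v⁻¹) ↔ Rr a k i z y := by
  have h1 : (y * v⁻¹)⁻¹ * a ^ k * (y * v⁻¹) = v * (y⁻¹ * a ^ k * y) * v⁻¹ := by group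
  have h2 : a ^ k * (v * z * v⁻¹) ^ i = v * (a ^ k * z ^ i) * v⁻¹ := by
    rw [conj_pow]
    have h3 : v * a ^ k = a ^ k * v := (hv.pow_right k).eq
    calc a ^ k * (v * z ^ i * v⁻¹) = (a ^ k * v) * z ^ i * v⁻¹ := by group
      _ = v * (a ^ k * z ^ i) * v⁻¹ := by rw [← h3]; group
  unfold Rr
  rw [h1, h2]
  constructor
  · intro h
    exact mul_left_cancel (mul_right_cancel h)
  · intro h
    rw [h]

theorem rr_left {a v : G} (hv : Commute v a) (k i : ℕ) (z y : G) :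
    Rr a k i z (v * y) ↔ Rr a k i z y := by
  have h3 : v⁻¹ * a ^ k * v = a ^ k := by
    rw [mul_assoc, ← (hv.pow_right k).eq]
    group
  have h1 : (v * y)⁻¹ * a ^ k * (v * y) = y⁻¹ * a ^ k * y := by
    calc (v * y)⁻¹ * a ^ k * (v * y) = y⁻¹ * (v⁻¹ * a ^ k * v) * y := by group
      _ = y⁻¹ * a ^ k * y := by rw [h3]
  unfold Rr
  rw [h1]

/-- powers of the relation -/
theorem rr_pow {a z y : G} (hz : Commute a z) {k i : ℕ} (h : Rr a k i z y) (j : ℕ) :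
    Rr a (k * j) (i * j) z y := by
  unfold Rr at h ⊢
  have h1 : y⁻¹ * a ^ (k * j) * y = (y⁻¹ * a ^ k * y) ^ j := by
    have h2 := conj_pow (i := j) (a := y⁻¹) (b := a ^ k)
    rw [inv_inv] at h2
    rw [h2, pow_mul]
  rw [h1, h, (hz.pow_pow k i).mul_pow, ← pow_mul, ← pow_mul]

/-- the inverse modulo `ℓ` -/
theorem ex_inv {ℓ : ℕ} [Fact ℓ.Prime] {k : ℕ} (hk : ¬ ℓ ∣ k) : ∃ k', k * k' ≡ 1 [MOD ℓ] := by
  have hp : ℓ.Prime := Fact.out
  have h1 : Nat.Coprime k ℓ := ((hp.coprime_iff_not_dvd).2 hk).symm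
  obtain ⟨k', -, hk'⟩ := Nat.exists_mul_mod_eq_one_of_coprime h1 hp.one_lt
  refine ⟨k', ?_⟩
  unfold Nat.ModEq
  rw [hk', Nat.mod_eq_of_lt hp.one_lt]

/-- a power of `a ^ k` -/
theorem pow_inv {ℓ : ℕ} {a : G} (ha : a ^ ℓ = 1) {k k' : ℕ} (h : k * k' ≡ 1 [MOD ℓ]) :
    (a ^ k) ^ k' = a := by
  have h2 : a ^ (k * k') = a ^ 1 := by
    rw [pow_eq_pow_iff_modEq]
    exact h.of_dvd (orderOf_dvd_of_pow_eq_one ha)
  rw [← pow_mul, h2, pow_one]

/-- from `k` prime to `ℓ` to `1` -/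
theorem rr_one {ℓ : ℕ} [Fact ℓ.Prime] {a z y : G} (ha : a ^ ℓ = 1) (hz : Commute a z) {k i : ℕ}
    (hk : ¬ ℓ ∣ k) (h : Rr a k i z y) : ∃ j, Rr a 1 j z y := by
  obtain ⟨k', hk'⟩ := ex_inv hk
  refine ⟨i * k', ?_⟩
  have h1 := rr_pow hz h k'
  unfold Rr at h1 ⊢
  rw [pow_mul, pow_inv ha hk'] at h1
  rw [pow_one]
  exact h1

end rel

/-! ### the `ℓ`-part -/

section pe

variable {ℓ n m : ℕ} {G : Type} [Group G]

/-- the elements with a given `ℓ`-part -/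
theorem part_iff [Finite G] [Fact ℓ.Prime] (h : PE ℓ n m G) {z x : G} (hz : El ℓ z) :
    (z * x) ^ m = z ↔ x * z = z * x ∧ Reg ℓ x := by
  have hp : ℓ.Prime := Fact.out
  constructor
  · intro h1
    have h2 : Commute (z * x) ((z * x) ^ m) := (Commute.refl _).pow_right m
    rw [h1] at h2
    have h3 : x * z = z * x := by
      have h4 : z * x * z = z * (z * x) := h2.eq
      rw [mul_assoc] at h4
      exact mul_left_cancel h4
    refine ⟨h3, ?_⟩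
    have hc : Commute z x := h3.symm
    rw [hc.mul_pow, (h.el z hz).1] at h1
    have h4 : x ^ m = 1 := by
      have h5 : z * x ^ m = z * 1 := by rw [h1, mul_one]
      exact mul_left_cancel h5
    have h5 : orderOf x ∣ m := orderOf_dvd_of_pow_eq_one h4
    unfold Reg
    refine Nat.Coprime.coprime_dvd_left h5 ?_
    rw [Nat.coprime_comm, hp.coprime_iff_not_dvd]
    intro h6
    have h7 := h.md
    rw [Nat.mod_eq_zero_of_dvd h6] at h7
    exact zero_ne_one h7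
  · rintro ⟨h1, h2⟩
    have hc : Commute z x := h1.symm
    rw [hc.mul_pow, (h.el z hz).1, h.rg x h2, mul_one]

end pe

/-! ### the group `V₀` -/

section vee

variable {V₀ : Type} [CommGroup V₀] {ℓ : ℕ} {E₀ : Subgroup (MulAut V₀)}

theorem sup_top [Finite V₀] [Fact ℓ.Prime] (hF : Fq ℓ V₀ E₀) {κ w : V₀} (hw : w ≠ 1)
    (hκ : κ ∉ Subgroup.zpowers w) : Subgroup.zpowers w ⊔ Subgroup.zpowers κ = ⊤ := by
  have hp : ℓ.Prime := Fact.out
  have ho : orderOf w = ℓ := orderOf_eq_prime (hF.ex w) hw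
  have h1 : Nat.card (Subgroup.zpowers w) = ℓ := by rw [Nat.card_zpowers, ho]
  have h2 : Subgroup.zpowers w < Subgroup.zpowers w ⊔ Subgroup.zpowers κ := by
    refine lt_of_le_of_ne le_sup_left fun h => hκ ?_
    rw [h]
    exact Subgroup.mem_sup_right (Subgroup.mem_zpowers κ)
  have h3 : Nat.card (Subgroup.zpowers w) ∣
      Nat.card (Subgroup.zpowers w ⊔ Subgroup.zpowers κ : Subgroup V₀) :=
    Subgroup.card_dvd_of_le h2.le
  have h4 : Nat.card (Subgroup.zpowers w ⊔ Subgroup.zpowers κ : Subgroup V₀) ∣ ℓ ^ 2 := by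
    rw [← hF.cd]
    exact Subgroup.card_subgroup_dvd_card _
  obtain ⟨k, hk, hk2⟩ := (Nat.dvd_prime_pow hp).1 h4
  apply Subgroup.eq_top_of_card_eq
  rw [hF.cd]
  have h5 : k = 2 := by
    have h6 : Nat.card (Subgroup.zpowers w ⊔ Subgroup.zpowers κ : Subgroup V₀) ≠ ℓ := by
      intro h7
      have h8 := Subgroup.eq_of_le_of_card_ge h2.le (by rw [h7, h1])
      exact h2.ne h8
    interval_cases k
    · exfalso
      rw [hk2, pow_zero, h1] at h3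
      exact hp.one_lt.ne' (Nat.dvd_one.1 h3)
    · exfalso
      rw [hk2, pow_one] at h6
      exact h6 rfl
    · rfl
  rw [hk2, h5]

/-- `p ^ k = 1` iff `ℓ ∣ k` -/
theorem pow_one_iff [Fact ℓ.Prime] (hF : Fq ℓ V₀ E₀) {p : V₀} (hp : p ≠ 1) (k : ℕ) :
    p ^ k = 1 ↔ ℓ ∣ k := by
  rw [← orderOf_eq_prime (hF.ex p) hp, orderOf_dvd_iff_pow_eq_one]

end vee

/-! ### the types -/

section types

variable {V₀ : Type} [CommGroup V₀] {ℓ n : ℕ} {E₀ : Subgroup (MulAut V₀)} {κ w : V₀}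
  {σ : MulAut V₀}

theorem fre_of {τ : Set (SO.SS n V₀)} (h : τ ⊆ TP n κ w σ) : Fre τ := by
  intro s hs _ h2
  obtain ⟨h3, h4⟩ := h hs
  rw [h2, pow_zero] at h3 h4
  exact ⟨h3, h4⟩

theorem hm_one {ρ : V₀ → ZMod ℓ} (h : Hm ρ) : ρ 1 = 0 := by
  have h1 := h 1 1
  rw [mul_one] at h1
  exact left_eq_add.1 h1

theorem pL_bot [Fact ℓ.Prime] (hF : Fq ℓ V₀ E₀) (hkw : κ * w ≠ 1) {L : Set (SO.SS n V₀)}
    (h : L ⊆ TP n κ w σ) : pL L = ⊥ ↔ ∀ s ∈ L, ℓ ∣ (s.2.1 : ℕ) := by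
  unfold pL
  rw [Subgroup.closure_eq_bot_iff]
  have hkw' : (κ * w)⁻¹ ≠ 1 := fun h => hkw (inv_eq_one.1 h)
  constructor
  · intro h1 s hs
    have h2 : s.2.2.1 = 1 := h1 ⟨s, hs, rfl⟩
    rw [(h hs).1] at h2
    exact (pow_one_iff hF hkw' _).1 h2
  · rintro h1 _ ⟨s, hs, rfl⟩
    show s.2.2.1 = 1
    rw [(h hs).1]
    exact (pow_one_iff hF hkw' _).2 (h1 s hs)

theorem ak_eq {s : SO.SS n V₀} (h : s ∈ TP n κ w σ) :
    κ ^ (s.2.1 : ℕ) * s.2.2.1 = w⁻¹ ^ (s.2.1 : ℕ) := by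
  rw [h.1, ← mul_pow]
  congr 1
  rw [mul_inv_rev, mul_comm w⁻¹ κ⁻¹, mul_inv_cancel_left]

theorem aL_eq [Fact ℓ.Prime] (hF : Fq ℓ V₀ E₀) (hkw : κ * w ≠ 1) {L : Set (SO.SS n V₀)}
    (h : L ⊆ TP n κ w σ) (hb : pL L ≠ ⊥) : aL κ L = Subgroup.zpowers w := by
  apply le_antisymm
  · unfold aL
    rw [Subgroup.closure_le]
    rintro _ ⟨s, hs, rfl⟩
    rw [ak_eq (h hs)]
    exact Subgroup.pow_mem _ (Subgroup.inv_mem _ (Subgroup.mem_zpowers w)) _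
  · rw [Ne, pL_bot hF hkw h] at hb
    push Not at hb
    obtain ⟨s, hs, hk⟩ := hb
    obtain ⟨k', hk'⟩ := ex_inv hk
    rw [Subgroup.zpowers_le]
    have h1 : w⁻¹ ^ (s.2.1 : ℕ) ∈ aL κ L := by
      rw [← ak_eq (h hs)]
      exact Subgroup.subset_closure ⟨s, hs, rfl⟩
    have h2 := Subgroup.pow_mem _ h1 k'
    rw [pow_inv (hF.ex w⁻¹) hk'] at h2
    exact (Subgroup.inv_mem_iff _).1 h2

variable {ρ₁ ρ₂ : V₀ → ZMod ℓ} {x₁ x₂ : V₀ → ℤ} {c d : V₀} {F₁₃ F₁₂ : Set (SO.SS n V₀) → ℚ}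
  {K : Set (Fin n × V₀ × V₀) → ℚ}

theorem z12_of (hF : Fq ℓ V₀ E₀) (h₁ : Hm ρ₁) (h₂ : Hm ρ₂)
    (hX : FX ℓ n ρ₁ ρ₂ x₁ x₂ c d F₁₃ F₁₂ K) {τ : Set (SO.SS n V₀)} (h : τ ⊆ TP n κ w σ)
    (hd : ∀ s ∈ τ, ℓ ∣ (s.2.1 : ℕ)) : F₁₂ τ = (x₁ c⁻¹ * x₂ d⁻¹ : ℤ) / (ℓ : ℚ) ^ 2 := by
  apply hX.z12 τ (fre_of h)
  intro s hs
  obtain ⟨h3, h4⟩ := h hs
  obtain ⟨k, hk⟩ := hd s hs
  have h5 : ∀ v : V₀, v ^ (s.2.1 : ℕ) = 1 := by
    intro v
    rw [hk, pow_mul, hF.ex, one_pow]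
  rw [h5] at h3 h4
  rw [h3, h4]
  exact ⟨hm_one h₁, hm_one h₂⟩

/-- the sum over the sets with `pL ≠ ⊥` -/
theorem mob_sum [Finite V₀] [Fact ℓ.Prime] (hF : Fq ℓ V₀ E₀) (h₁ : Hm ρ₁) (h₂ : Hm ρ₂)
    (hX : FX ℓ n ρ₁ ρ₂ x₁ x₂ c d F₁₃ F₁₂ K) (hkw : κ * w ≠ 1)
    [Fintype (Set (SO.SS n V₀))] {T : Set (SO.SS n V₀)} (h : T ⊆ TP n κ w σ)
    [∀ L : Set (SO.SS n V₀), Decidable (L ⊆ T ∧ pL L ≠ ⊥)] :
    ∑ L : Set (SO.SS n V₀), (if L ⊆ T ∧ pL L ≠ ⊥ then mob F₁₂ L else 0) =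
      F₁₂ T - (x₁ c⁻¹ * x₂ d⁻¹ : ℤ) / (ℓ : ℚ) ^ 2 := by
  classical
  have h3 := SO.H62.mbi_sum SO.H9.mbi F₁₂ T
  have h4 := SO.H62.mbi_sum SO.H9.mbi F₁₂ {s | s ∈ T ∧ ℓ ∣ (s.2.1 : ℕ)}
  rw [z12_of hF h₁ h₂ hX (τ := {s | s ∈ T ∧ ℓ ∣ (s.2.1 : ℕ)}) (fun s hs => h hs.1)
    (fun s hs => hs.2)] at h4
  rw [h3, h4, ← Finset.sum_sub_distrib]
  refine Finset.sum_congr rfl fun L _ => ?_
  by_cases hL : L ⊆ T
  · have h5 : L ⊆ {s | s ∈ T ∧ ℓ ∣ (s.2.1 : ℕ)} ↔ pL L = ⊥ := by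
      rw [pL_bot hF hkw (hL.trans h)]
      exact ⟨fun h6 s hs => (h6 hs).2, fun h6 s hs => ⟨hL hs, h6 s hs⟩⟩
    by_cases h6 : pL L = ⊥
    · rw [if_neg (fun h7 => h7.2 h6), if_pos hL, if_pos (h5.2 h6), sub_self]
    · rw [if_pos ⟨hL, h6⟩, if_pos hL, if_neg (fun h7 => h6 (h5.1 h7)), sub_zero]
  · rw [if_neg (fun h7 => hL h7.1), if_neg hL, if_neg (fun h7 => hL fun s hs => (h7 hs).1),
      sub_zero]

end types

/-! ### the values of `F₁₂` -/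

section vals

variable {V₀ G : Type} [CommGroup V₀] [Group G] {ℓ n : ℕ} {E₀ : Subgroup (MulAut V₀)} {κ w : V₀}
  {σ : MulAut V₀} {ρ₁ ρ₂ : V₀ → ZMod ℓ} {x₁ x₂ : V₀ → ℤ} {c d : V₀}
  {F₁₃ F₁₂ : Set (SO.SS n V₀) → ℚ} {K : Set (Fin n × V₀ × V₀) → ℚ}

/-- the set `τ(z, y)` -/
def ta (n : ℕ) (κ w : V₀) (σ : MulAut V₀) (a z y : G) : Set (SO.SS n V₀) :=
  {s | s ∈ TP n κ w σ ∧ Rr a (s.2.1 : ℕ) (s.1 : ℕ) z y}

/-- `y` commutes with `a` -/
theorem ta_comm (hn : 1 < n) (h₁ : Hm ρ₁) (h₂ : Hm ρ₂)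
    (hX : FX ℓ n ρ₁ ρ₂ x₁ x₂ c d F₁₃ F₁₂ K) {a z y : G} (hy : Commute y a) :
    F₁₂ (ta n κ w σ a z y) - (x₁ c⁻¹ * x₂ d⁻¹ : ℤ) / (ℓ : ℚ) ^ 2 =
      -((x₁ (κ * w)⁻¹ * x₂ (σ⁻¹ (κ * w))⁻¹ : ℤ) / (ℓ : ℚ) ^ 2) := by
  have hR : ∀ k i : ℕ, Rr a k i z y ↔ z ^ i = 1 := by
    intro k i
    have h1 : y⁻¹ * a ^ k * y = a ^ k := by
      rw [mul_assoc, ← (hy.pow_right k).eq]
      group
    unfold Rr
    rw [h1]
    exact left_eq_mul
  have hsub : ta n κ w σ a z y ⊆ TP n κ w σ := fun s hs => hs.1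
  rw [hX.prod _ (fre_of hsub)]
  · rw [hX.K1 _ (κ * w)⁻¹ (σ⁻¹ (κ * w))⁻¹]
    · ring
    · refine ⟨(⟨1, hn⟩, (κ * w)⁻¹, (σ⁻¹ (κ * w))⁻¹),
        ⟨(⟨0, by omega⟩, ⟨1, hn⟩, (κ * w)⁻¹, (σ⁻¹ (κ * w))⁻¹), ⟨⟨?_, ?_⟩, ?_⟩, rfl⟩, rfl⟩
      · exact (pow_one _).symm
      · exact (pow_one _).symm
      · exact (hR 1 0).2 (pow_zero z)
    · rintro _ ⟨s, hs, rfl⟩ h3
      obtain ⟨h4, h5⟩ := hs.1
      rw [h3, pow_one] at h4 h5
      exact Prod.ext h4 h5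
  · intro s hs
    refine ⟨(⟨0, by omega⟩, s.2), ⟨hs.1, ?_⟩, rfl, rfl⟩
    exact (hR _ 0).2 (pow_zero z)
  · intro s hs h3
    obtain ⟨h4, h5⟩ := hs.1
    rw [h3, pow_zero] at h4 h5
    rw [h4, h5]
    exact ⟨hm_one h₁, hm_one h₂⟩

/-- no relation -/
theorem ta_none [Fact ℓ.Prime] (hF : Fq ℓ V₀ E₀) (h₁ : Hm ρ₁) (h₂ : Hm ρ₂)
    (hX : FX ℓ n ρ₁ ρ₂ x₁ x₂ c d F₁₃ F₁₂ K) {a z y : G} (ha : a ^ ℓ = 1) (hz : Commute a z)
    (hn : ¬ ∃ j, Rr a 1 j z y) :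
    F₁₂ (ta n κ w σ a z y) - (x₁ c⁻¹ * x₂ d⁻¹ : ℤ) / (ℓ : ℚ) ^ 2 = 0 := by
  rw [z12_of hF h₁ h₂ hX (fun s hs => hs.1), sub_self]
  intro s hs
  by_contra h
  exact hn (rr_one ha hz h hs.2)

/-- `z` of order `ℓ` -/
theorem ta_ord [Fact ℓ.Prime] {a z y : G} (hz : Commute a z) {i₀ : ℕ} (h : Rr a 1 i₀ z y)
    (hz1 : z ^ ℓ = 1) (hz2 : z ^ i₀ ≠ 1) :
    ta n κ w σ a z y = {s | s.2.2.1 = (κ * w)⁻¹ ^ (s.2.1 : ℕ) ∧
      s.2.2.2 = (σ⁻¹ (κ * w))⁻¹ ^ (s.2.1 : ℕ) ∧ (s.1 : ℕ) ≡ i₀ * (s.2.1 : ℕ) [MOD ℓ]} := by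
  have hz3 : z ≠ 1 := by
    rintro rfl
    exact hz2 (one_pow _)
  have ho : orderOf z = ℓ := orderOf_eq_prime hz1 hz3
  ext s
  have h1 : Rr a (s.2.1 : ℕ) (s.1 : ℕ) z y ↔ (s.1 : ℕ) ≡ i₀ * (s.2.1 : ℕ) [MOD ℓ] := by
    have h2 := rr_pow hz h (s.2.1 : ℕ)
    rw [one_mul] at h2
    unfold Rr at h2 ⊢
    rw [h2, mul_right_inj, pow_eq_pow_iff_modEq, ho]
    exact ⟨fun h => h.symm, fun h => h.symm⟩
  constructor
  · rintro ⟨⟨h3, h4⟩, h5⟩
    exact ⟨h3, h4, h1.1 h5⟩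
  · rintro ⟨h3, h4, h5⟩
    exact ⟨⟨h3, h4⟩, h1.2 h5⟩

open Classical in
/-- the remaining part vanishes -/
theorem key [Fact ℓ.Prime] (hF : Fq ℓ V₀ E₀) (hn : 1 < n) (h₁ : Hm ρ₁) (h₂ : Hm ρ₂)
    (hX : FX ℓ n ρ₁ ρ₂ x₁ x₂ c d F₁₃ F₁₂ K) {a z y : G} (ha : a ^ ℓ = 1) (hz : Commute a z)
    (hne : ((F₁₂ (ta n κ w σ a z y) - (x₁ c⁻¹ * x₂ d⁻¹ : ℤ) / (ℓ : ℚ) ^ 2 : ℚ) : ℂ) -
      (if Commute y a then
        -(((x₁ (κ * w)⁻¹ * x₂ (σ⁻¹ (κ * w))⁻¹ : ℤ) : ℂ) / ℓ ^ 2) else 0) -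
      ∑ i₀ ∈ Finset.Icc 1 (ℓ - 1), ((F₁₂ {s | s.2.2.1 = (κ * w)⁻¹ ^ (s.2.1 : ℕ) ∧
        s.2.2.2 = (σ⁻¹ (κ * w))⁻¹ ^ (s.2.1 : ℕ) ∧ (s.1 : ℕ) ≡ i₀ * (s.2.1 : ℕ) [MOD ℓ]} -
        (x₁ c⁻¹ * x₂ d⁻¹ : ℤ) / (ℓ : ℚ) ^ 2 : ℚ) : ℂ) *
        (if Rr a 1 i₀ z y ∧ z ^ i₀ ≠ 1 ∧ z ^ ℓ = 1 then 1 else 0) ≠ 0) :
    z ^ ℓ ≠ 1 ∧ ∃ j, Rr a 1 j z y := by
  have hp : ℓ.Prime := Fact.out
  by_contra hc
  apply hne
  by_cases hj : ∃ j, Rr a 1 j z y
  · by_cases hy : Commute y a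
    · have h3 : ∀ i, Rr a 1 i z y → z ^ i = 1 := by
        intro i h
        unfold Rr at h
        rw [pow_one, mul_assoc, ← hy.eq, inv_mul_cancel_left] at h
        exact left_eq_mul.1 h
      rw [if_pos hy, ta_comm hn h₁ h₂ hX hy, Finset.sum_eq_zero]
      · push_cast
        ring
      · intro i _
        rw [if_neg (fun h => h.2.1 (h3 i h.1)), mul_zero]
    · have hz1 : z ^ ℓ = 1 := by
        by_contra h
        exact hc ⟨h, hj⟩
      obtain ⟨j, hj⟩ := hj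
      have hmod : z ^ (j % ℓ) = z ^ j := by
        rw [pow_eq_pow_iff_modEq]
        exact (Nat.mod_modEq j ℓ).of_dvd (orderOf_dvd_of_pow_eq_one hz1)
      have hR : Rr a 1 (j % ℓ) z y := by
        unfold Rr at hj ⊢
        rw [hmod]
        exact hj
      have hz2 : z ^ (j % ℓ) ≠ 1 := by
        intro h
        apply hy
        unfold Rr at hR
        rw [h, mul_one, pow_one] at hR
        show y * a = a * y
        have h4 : y * (y⁻¹ * a * y) = y * a := by rw [hR]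
        rw [← h4]
        group
      have hi0 : j % ℓ ≠ 0 := by
        intro h
        rw [h, pow_zero] at hz2
        exact hz2 rfl
      have hilt : j % ℓ < ℓ := Nat.mod_lt _ hp.pos
      have hz3 : z ≠ 1 := by
        rintro rfl
        exact hz2 (one_pow _)
      have ho : orderOf z = ℓ := orderOf_eq_prime hz1 hz3
      rw [if_neg hy, Finset.sum_eq_single (j % ℓ), if_pos ⟨hR, hz2, hz1⟩,
        ta_ord hz hR hz1 hz2]
      · ring
      · intro i hi hne'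
        rw [if_neg, mul_zero]
        rintro ⟨h5, -, -⟩
        apply hne'
        unfold Rr at h5 hR
        rw [hR] at h5
        have h6 := mul_left_cancel h5
        rw [pow_eq_pow_iff_modEq, ho] at h6
        rw [Finset.mem_Icc] at hi
        unfold Nat.ModEq at h6
        rw [Nat.mod_mod, Nat.mod_eq_of_lt (show i < ℓ by omega)] at h6
        exact h6.symm
      · intro h
        exfalso
        apply h
        rw [Finset.mem_Icc]
        omega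
  · have hy : ¬ Commute y a := by
      intro h
      apply hj
      refine ⟨0, ?_⟩
      unfold Rr
      rw [pow_one, pow_zero, mul_one, mul_assoc, ← h.eq, inv_mul_cancel_left]
    rw [ta_none hF h₁ h₂ hX ha hz hj, if_neg hy, Finset.sum_eq_zero]
    · simp
    · intro i _
      rw [if_neg (fun h => hj ⟨i, h.1⟩), mul_zero]

end vals

/-! ### the sums -/

section sums

variable {V₀ G : Type} [CommGroup V₀] [Finite V₀] [Group G] [Fintype G]
  {M : Ideal (integralClosure ℤ ℂ)} [M.IsMaximal] {ℓ n m : ℕ} {E₀ : Subgroup (MulAut V₀)}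
  {κ w : V₀} {σ : MulAut V₀} {ρ₁ ρ₂ : V₀ → ZMod ℓ} {x₁ x₂ : V₀ → ℤ} {c d : V₀}
  {F₁₃ F₁₂ : Set (SO.SS n V₀) → ℚ} {K : Set (Fin n × V₀ × V₀) → ℚ}

open Classical in
/-- the weighted sum -/
def Sf (B : Bk (FF M) V₀ G) (m : ℕ) (κ : V₀) (A : Subgroup V₀) (Φ : G → G → ℂ) : ℂ :=
  (Nat.card (B.C ⊤) : ℂ)⁻¹ * ∑ t : G, bh B ⊤ t * ∑ x : G × G,
    (if SO.kap x.1 x.2 = B.i κ * t ∧ x.1 ∈ B.C A then Φ (x.1 ^ m) x.2 else 0)

theorem Sf_sub (B : Bk (FF M) V₀ G) (A : Subgroup V₀) (Φ Ψ : G → G → ℂ) :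
    Sf B m κ A (fun z y => Φ z y - Ψ z y) = Sf B m κ A Φ - Sf B m κ A Ψ := by
  classical
  unfold Sf
  rw [← mul_sub, ← Finset.sum_sub_distrib]
  congr 1
  refine Finset.sum_congr rfl fun t _ => ?_
  rw [← mul_sub, ← Finset.sum_sub_distrib]
  congr 1
  refine Finset.sum_congr rfl fun x _ => ?_
  split_ifs
  · rfl
  · rw [sub_zero]

theorem memC (B : Bk (FF M) V₀ G) (w : V₀) (x : G) :
    x ∈ B.C (Subgroup.zpowers w) ↔ Commute x (B.i w)⁻¹ := by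
  unfold Bk.C
  rw [MonoidHom.map_zpowers, Subgroup.mem_centralizer_iff]
  constructor
  · intro h
    have h1 : B.i w * x = x * B.i w := h _ (Subgroup.mem_zpowers _)
    exact (show Commute x (B.i w) from h1.symm).inv_right
  · intro h g hg
    obtain ⟨k, rfl⟩ := Subgroup.mem_zpowers_iff.1 hg
    have h1 : Commute x (B.i w) := by
      have h2 := h.inv_right
      rwa [inv_inv] at h2
    exact (h1.zpow_right k).eq.symm

/-- Step 1: `T5` as a weighted sum -/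
theorem t5_eq [Fact ℓ.Prime] (hF : Fq ℓ V₀ E₀) (h₁ : Hm ρ₁) (h₂ : Hm ρ₂)
    (hX : FX ℓ n ρ₁ ρ₂ x₁ x₂ c d F₁₃ F₁₂ K) (B : Bk (FF M) V₀ G) (hw : w ≠ 1)
    (hκ : κ ∉ Subgroup.zpowers w) :
    T5 B m κ w σ F₁₂ = Sf B m κ (Subgroup.zpowers w) (fun z y =>
      ((F₁₂ (ta n κ w σ (B.i w)⁻¹ z y) - (x₁ c⁻¹ * x₂ d⁻¹ : ℤ) / (ℓ : ℚ) ^ 2 : ℚ) : ℂ)) := by
  classical
  have : Fintype (Set (SO.SS n V₀)) := Fintype.ofFinite _
  have hkw : κ * w ≠ 1 := by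
    intro h
    apply hκ
    rw [eq_inv_of_mul_eq_one_left h]
    exact Subgroup.inv_mem _ (Subgroup.mem_zpowers w)
  obtain ⟨a, ha⟩ : ∃ a, a = (B.i w)⁻¹ := ⟨_, rfl⟩
  rw [← ha]
  have hal : a ^ ℓ = 1 := by rw [ha, inv_pow, ← map_pow, hF.ex, map_one, inv_one]
  -- the types of the pairs
  let T : G × G → Set (SO.SS n V₀) := fun x =>
    {s | s ∈ TP n κ w σ ∧ Commute (a ^ (s.2.1 : ℕ)) x.1 ∧
      Rr a (s.2.1 : ℕ) (s.1 : ℕ) (x.1 ^ m) x.2}
  have hTsub : ∀ x, T x ⊆ TP n κ w σ := fun x s hs => hs.1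
  have hterm : ∀ L : Set (SO.SS n V₀),
      Set.indicator {L : Set (SO.SS n V₀) | L ⊆ TP n κ w σ ∧ pL L ≠ ⊥}
        (fun L => ((mob F₁₂ L : ℚ) : ℂ) * HK B m κ L) L =
      (Nat.card (B.C ⊤) : ℂ)⁻¹ * ∑ t : G, bh B ⊤ t * ∑ x : G × G,
        (if SO.kap x.1 x.2 = B.i κ * t then
          (if L ⊆ T x ∧ pL L ≠ ⊥ then ((mob F₁₂ L : ℚ) : ℂ) else 0) else 0) := by
    intro L
    rw [Set.indicator_apply]
    by_cases hL : L ⊆ TP n κ w σ ∧ pL L ≠ ⊥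
    · rw [if_pos (show L ∈ {L : Set (SO.SS n V₀) | L ⊆ TP n κ w σ ∧ pL L ≠ ⊥} from hL)]
      have e1 : aL κ L ⊔ Subgroup.zpowers κ = ⊤ := by
        rw [aL_eq hF hkw hL.1 hL.2, sup_top hF hw hκ]
      unfold HK
      rw [e1, finsum_eq_sum_of_fintype, mul_left_comm, Finset.mul_sum]
      congr 1
      refine Finset.sum_congr rfl fun t _ => ?_
      rw [mul_left_comm]
      congr 1
      have e2 := H10W.ncard_sum (fun v : G × G => SO.kap v.1 v.2 = B.i κ * t ∧ ∀ s ∈ L,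
        B.i (κ ^ (s.2.1 : ℕ) * s.2.2.1) * v.1 = v.1 * B.i (κ ^ (s.2.1 : ℕ) * s.2.2.1) ∧
        v.2⁻¹ * B.i (κ ^ (s.2.1 : ℕ) * s.2.2.1) * v.2 =
          B.i (κ ^ (s.2.1 : ℕ) * s.2.2.1) * (v.1 ^ m) ^ (s.1 : ℕ))
      rw [e2, Finset.mul_sum]
      refine Finset.sum_congr rfl fun x _ => ?_
      have e3 : (∀ s ∈ L,
        B.i (κ ^ (s.2.1 : ℕ) * s.2.2.1) * x.1 = x.1 * B.i (κ ^ (s.2.1 : ℕ) * s.2.2.1) ∧
        x.2⁻¹ * B.i (κ ^ (s.2.1 : ℕ) * s.2.2.1) * x.2 =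
          B.i (κ ^ (s.2.1 : ℕ) * s.2.2.1) * (x.1 ^ m) ^ (s.1 : ℕ)) ↔ L ⊆ T x := by
        have e4 : ∀ s ∈ L, B.i (κ ^ (s.2.1 : ℕ) * s.2.2.1) = a ^ (s.2.1 : ℕ) := by
          intro s hs
          rw [ak_eq (hL.1 hs), map_pow, map_inv, ha]
        constructor
        · intro h s hs
          obtain ⟨h5, h6⟩ := h s hs
          rw [e4 s hs] at h5 h6
          exact ⟨hL.1 hs, h5, h6⟩
        · intro h s hs
          obtain ⟨-, h5, h6⟩ := h hs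
          rw [e4 s hs]
          exact ⟨h5, h6⟩
      by_cases hk : SO.kap x.1 x.2 = B.i κ * t
      · by_cases h7 : L ⊆ T x
        · rw [if_pos ⟨hk, e3.2 h7⟩, if_pos hk, if_pos ⟨h7, hL.2⟩, mul_one]
        · rw [if_neg (fun h => h7 (e3.1 h.2)), if_pos hk, if_neg (fun h => h7 h.1), mul_zero]
      · rw [if_neg (fun h => hk h.1), if_neg hk, mul_zero]
    · rw [if_neg (show L ∉ {L : Set (SO.SS n V₀) | L ⊆ TP n κ w σ ∧ pL L ≠ ⊥} from hL)]
      symm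
      rw [Finset.sum_eq_zero, mul_zero]
      intro t _
      rw [Finset.sum_eq_zero, mul_zero]
      intro x _
      split_ifs with h3 h4
      · exact absurd ⟨h4.1.trans (hTsub x), h4.2⟩ hL
      · rfl
      · rfl
  unfold T5
  rw [finsum_mem_def, finsum_eq_sum_of_fintype, Finset.sum_congr rfl fun L _ => hterm L,
    ← Finset.mul_sum]
  unfold Sf
  congr 1
  rw [Finset.sum_comm]
  refine Finset.sum_congr rfl fun t _ => ?_
  rw [← Finset.mul_sum, Finset.sum_comm]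
  congr 1
  refine Finset.sum_congr rfl fun x _ => ?_
  by_cases hk : SO.kap x.1 x.2 = B.i κ * t
  · have e5 : ∑ L : Set (SO.SS n V₀), (if SO.kap x.1 x.2 = B.i κ * t then
        (if L ⊆ T x ∧ pL L ≠ ⊥ then ((mob F₁₂ L : ℚ) : ℂ) else 0) else 0) =
        ((F₁₂ (T x) - (x₁ c⁻¹ * x₂ d⁻¹ : ℤ) / (ℓ : ℚ) ^ 2 : ℚ) : ℂ) := by
      rw [← mob_sum hF h₁ h₂ hX hkw (hTsub x), Rat.cast_sum]
      refine Finset.sum_congr rfl fun L _ => ?_
      rw [if_pos hk]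
      split_ifs
      · rfl
      · rw [Rat.cast_zero]
    rw [e5]
    by_cases hx : x.1 ∈ B.C (Subgroup.zpowers w)
    · rw [if_pos ⟨hk, hx⟩]
      have hx' : Commute x.1 a := by
        rw [ha]
        exact (memC B w x.1).1 hx
      have e6 : T x = ta n κ w σ a (x.1 ^ m) x.2 := by
        ext s
        exact ⟨fun h => ⟨h.1, h.2.2⟩, fun h => ⟨h.1, (hx'.pow_right _).symm, h.2⟩⟩
      rw [e6]
    · rw [if_neg (fun h => hx h.2)]
      rw [z12_of hF h₁ h₂ hX (hTsub x), sub_self, Rat.cast_zero]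
      intro s hs
      by_contra hd
      apply hx
      rw [memC, ← ha]
      obtain ⟨k', hk'⟩ := ex_inv hd
      have h8 := (hs.2.1).pow_left k'
      rw [pow_inv hal hk'] at h8
      exact h8.symm
  · rw [if_neg (fun h => hk h.1)]
    refine Finset.sum_eq_zero fun L _ => ?_
    rw [if_neg hk]

/-- HKC for `Sf` -/
theorem Sf_hkc (hkc : HkcStmt) [Fact ℓ.Prime] (hM : (ℓ : integralClosure ℤ ℂ) ∈ M) (hℓ : ℓ ≠ 2)
    (hF : Fq ℓ V₀ E₀) {B : Bk (FF M) V₀ G} (hB : Sb ℓ M E₀ B) (hPE : PE ℓ n m G)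
    {A : Subgroup V₀} (hA : A ⊔ Subgroup.zpowers κ = ⊤) {Φ : G → G → ℂ}
    (h3 : ∀ z y, ∀ v ∈ B.C A, Φ (v * z * v⁻¹) (y * v⁻¹) = Φ z y)
    (h4 : ∀ z y, ∀ v ∈ B.C A, Φ z (v * y) = Φ z y) :
    Sf B m κ A Φ = (Nat.card (B.C A) : ℂ)⁻¹ ^ 2 * ∑ᶠ χ ∈ Ch B A, cv (fc B A κ) χ *
      ∑ᶠ v ∈ {v : G × G | v.1 ∈ B.C A ∧ v.2 * v.1 * v.2⁻¹ ∈ B.C A},
        Φ (v.1 ^ m) v.2 * (χ (v.2 * v.1 * v.2⁻¹) * χ v.1⁻¹) := by
  classical
  rw [← hkc ℓ M hM hℓ V₀ G E₀ hF B hB n m hPE A κ Φ h3 h4, hA]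
  unfold Sf
  congr 1
  rw [finsum_eq_sum_of_fintype]
  refine Finset.sum_congr rfl fun t _ => ?_
  congr 1
  rw [finsum_mem_def, finsum_eq_sum_of_fintype]
  refine Finset.sum_congr rfl fun x _ => ?_
  rw [Set.indicator_apply]
  rfl

/-- sums over a subgroup -/
theorem sum_mem (H : Subgroup G) [Fintype H] [DecidablePred (· ∈ H)] (f : G → ℂ) :
    ∑ x : G, (if x ∈ H then f x else 0) = ∑ x : H, f x := by
  classical
  rw [← Finset.sum_filter]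
  exact Finset.sum_subtype _ (fun x => by simp) f

theorem ch_norm {B : Bk (FF M) V₀ G} {A : Subgroup V₀} {χ : G → ℂ} (hχ : χ ∈ Ch B A) :
    ∑ x : G, χ x * χ x⁻¹ = Nat.card (B.C A) := by
  classical
  have := Fintype.ofFinite (B.C A)
  have h1 : ∑ x : G, χ x * χ x⁻¹ = ∑ x : G, (if x ∈ B.C A then χ x * χ x⁻¹ else 0) := by
    refine Finset.sum_congr rfl fun x _ => ?_
    split_ifs with h
    · rfl
    · rw [hχ.1 x h, zero_mul]
  rw [h1, sum_mem]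
  have h2 := irr_orth_self hχ.2.1
  rw [Nat.card_eq_fintype_card, ← h2]
  rfl

open Classical in
/-- Step 2: the part where `y` commutes with `a` -/
theorem Sf_one (hkc : HkcStmt) [Fact ℓ.Prime] (hM : (ℓ : integralClosure ℤ ℂ) ∈ M) (hℓ : ℓ ≠ 2)
    (hF : Fq ℓ V₀ E₀) {B : Bk (FF M) V₀ G} (hB : Sb ℓ M E₀ B) (hPE : PE ℓ n m G)
    (hA : Subgroup.zpowers w ⊔ Subgroup.zpowers κ = ⊤) (q : ℂ)
    (h3 : ∀ z y, ∀ v ∈ B.C (Subgroup.zpowers w),
      (fun _ y => if Commute y (B.i w)⁻¹ then q else 0 : G → G → ℂ) (v * z * v⁻¹) (y * v⁻¹) =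
      (fun _ y => if Commute y (B.i w)⁻¹ then q else 0 : G → G → ℂ) z y)
    (h4 : ∀ z y, ∀ v ∈ B.C (Subgroup.zpowers w),
      (fun _ y => if Commute y (B.i w)⁻¹ then q else 0 : G → G → ℂ) z (v * y) =
      (fun _ y => if Commute y (B.i w)⁻¹ then q else 0 : G → G → ℂ) z y) :
    Sf B m κ (Subgroup.zpowers w) (fun _ y => if Commute y (B.i w)⁻¹ then q else 0) =
      q * L1A B (Subgroup.zpowers w) κ := by
  rw [Sf_hkc hkc hM hℓ hF hB hPE hA h3 h4]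
  obtain ⟨A, hAd⟩ : ∃ A, A = Subgroup.zpowers w := ⟨_, rfl⟩
  have hmem : ∀ y, Commute y (B.i w)⁻¹ ↔ y ∈ B.C A := by
    intro y
    rw [hAd]
    exact (memC B w y).symm
  rw [← hAd]
  have := Fintype.ofFinite (B.C A)
  have hfin := H10W.ch_fin B A
  have hinner : ∀ χ ∈ Ch B A, ∑ᶠ v ∈ {v : G × G | v.1 ∈ B.C A ∧ v.2 * v.1 * v.2⁻¹ ∈ B.C A},
      (if Commute v.2 (B.i w)⁻¹ then q else 0) * (χ (v.2 * v.1 * v.2⁻¹) * χ v.1⁻¹) =
      q * (Nat.card (B.C A) : ℂ) ^ 2 := by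
    intro χ hχ
    rw [finsum_mem_def, finsum_eq_sum_of_fintype, Fintype.sum_prod_type_right]
    have h5 : ∀ y : G, ∑ x : G, Set.indicator {v : G × G | v.1 ∈ B.C A ∧
        v.2 * v.1 * v.2⁻¹ ∈ B.C A} (fun v => (if Commute v.2 (B.i w)⁻¹ then q else 0) *
          (χ (v.2 * v.1 * v.2⁻¹) * χ v.1⁻¹)) (x, y) =
        if y ∈ B.C A then q * (Nat.card (B.C A) : ℂ) else 0 := by
      intro y
      by_cases hy : y ∈ B.C A
      · rw [if_pos hy, ← ch_norm hχ, Finset.mul_sum]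
        refine Finset.sum_congr rfl fun x _ => ?_
        rw [Set.indicator_apply]
        by_cases hx : x ∈ B.C A
        · have h6 : y * x * y⁻¹ ∈ B.C A :=
            (B.C A).mul_mem ((B.C A).mul_mem hy hx) ((B.C A).inv_mem hy)
          rw [if_pos (show (x, y) ∈ {v : G × G | v.1 ∈ B.C A ∧ v.2 * v.1 * v.2⁻¹ ∈ B.C A} from
            ⟨hx, h6⟩)]
          show (if Commute y (B.i w)⁻¹ then q else 0) * (χ (y * x * y⁻¹) * χ x⁻¹) = _
          rw [if_pos ((hmem y).2 hy)]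
          have h7 := irr_conj hχ.2.1 (⟨x, hx⟩ : B.C A) ⟨y, hy⟩
          have h8 : χ (y * x * y⁻¹) = χ x := h7
          rw [h8]
        · rw [if_neg (show (x, y) ∉ {v : G × G | v.1 ∈ B.C A ∧ v.2 * v.1 * v.2⁻¹ ∈ B.C A} from
            fun h => hx h.1), hχ.1 x hx, zero_mul, mul_zero]
      · rw [if_neg hy]
        refine Finset.sum_eq_zero fun x _ => ?_
        have h9 : (if Commute y (B.i w)⁻¹ then q else 0) = 0 :=
          if_neg (fun h => hy ((hmem y).1 h))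
        rw [Set.indicator_apply]
        show (if _ then (if Commute y (B.i w)⁻¹ then q else 0) * (χ (y * x * y⁻¹) * χ x⁻¹)
          else 0) = 0
        rw [h9, zero_mul, ite_self]
    rw [Finset.sum_congr rfl fun y _ => h5 y, sum_mem, Finset.sum_const, Finset.card_univ,
      nsmul_eq_mul, Nat.card_eq_fintype_card]
    ring
  unfold L1A
  rw [finsum_mem_eq_finite_toFinset_sum _ hfin, finsum_mem_eq_finite_toFinset_sum _ hfin,
    Finset.mul_sum, Finset.mul_sum]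
  refine Finset.sum_congr rfl fun χ hχ => ?_
  rw [hinner χ (hfin.mem_toFinset.1 hχ)]
  have hc : (Nat.card (B.C A) : ℂ) ≠ 0 := by exact_mod_cast Nat.card_pos.ne'
  field_simp

open Classical in
/-- FIB for one fibre -/
theorem fib_zero (fib : FibStmt) [Fact ℓ.Prime] (hM : (ℓ : integralClosure ℤ ℂ) ∈ M)
    (hℓ : ℓ ≠ 2) (hF : Fq ℓ V₀ E₀) {B : Bk (FF M) V₀ G} (hB : Sb ℓ M E₀ B) {χ : G → ℂ}
    (hχ : χ ∈ Ch B (Subgroup.zpowers w)) {y z : G} (hz : El ℓ z)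
    (hzc : Commute (B.i w)⁻¹ z) (hz1 : z ^ ℓ ≠ 1) {j : ℕ} (hj : Rr (B.i w)⁻¹ 1 j z y) :
    ∑ x : G, (if x ∈ B.C (Subgroup.zpowers w) ∧ x * z = z * x ∧ Reg ℓ x then
      χ (y * (z * x) * y⁻¹) * χ (z * x)⁻¹ else 0) = 0 := by
  obtain ⟨a, ha⟩ : ∃ a, a = (B.i w)⁻¹ := ⟨_, rfl⟩
  rw [← ha] at hzc hj
  have hj' : y⁻¹ * a * y = a * z ^ j := by
    unfold Rr at hj
    rwa [pow_one] at hj
  have hzm : z ∈ B.C (Subgroup.zpowers w) := by
    rw [memC, ← ha]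
    exact hzc.symm
  have hyz : y⁻¹⁻¹ * z * y⁻¹ ∈ B.C (Subgroup.zpowers w) := by
    rw [memC, ← ha, inv_inv]
    have h1 : Commute z (y⁻¹ * a * y) := by
      rw [hj']
      exact hzc.symm.mul_right ((Commute.refl z).pow_right j)
    show y * z * y⁻¹ * a = a * (y * z * y⁻¹)
    calc y * z * y⁻¹ * a = y * (z * (y⁻¹ * a * y)) * y⁻¹ := by group
      _ = y * ((y⁻¹ * a * y) * z) * y⁻¹ := by rw [h1.eq]
      _ = a * (y * z * y⁻¹) := by group
  have hq : ∀ t : ℤ, y⁻¹ * B.i (w ^ t) * y⁻¹⁻¹ = B.i (w ^ t) * z ^ (-(j * t)) := by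
    intro t
    have h1 : B.i (w ^ t) = a ^ (-t) := by rw [ha, map_zpow, inv_zpow', neg_neg]
    have h2 := conj_zpow (i := -t) (a := y⁻¹) (b := a)
    rw [h1, ← h2, inv_inv, hj', (hzc.pow_right j).mul_zpow, ← zpow_natCast, ← zpow_mul]
    congr 2
    ring
  by_contra hne
  have hfib := fib ℓ M hM hℓ V₀ G E₀ hF B hB (Subgroup.zpowers w) (Subgroup.zpowers w) χ hχ χ hχ
    y⁻¹ z hz hzm hyz ?_ ?_ ?_
  · obtain ⟨-, -, -, -, -, g, -, -, -, v, -, hv⟩ := hfib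
    apply hz1
    rw [hv, conj_pow, ← map_pow, hF.ex, map_one, mul_one, mul_inv_cancel]
  · intro q hq'
    obtain ⟨t, rfl⟩ := Subgroup.mem_zpowers_iff.1 hq'
    exact ⟨w ^ t, hq', _, hq t⟩
  · intro p hp'
    obtain ⟨t, rfl⟩ := Subgroup.mem_zpowers_iff.1 hp'
    refine ⟨w ^ t, hp', j * t, ?_⟩
    rw [hq t, mul_assoc, ← zpow_add, neg_add_cancel, zpow_zero, mul_one]
  · intro h0
    apply hne
    rw [finsum_mem_def, finsum_eq_sum_of_fintype] at h0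
    have h1 := congrArg (starRingEnd ℂ) h0
    rw [map_zero, map_sum] at h1
    refine (Finset.sum_congr rfl fun x _ => ?_).trans h1
    rw [Set.indicator_apply]
    by_cases hx : x ∈ B.C (Subgroup.zpowers w) ∧ x * z = z * x ∧ Reg ℓ x
    · rw [if_pos hx, if_pos (show x ∈ {x : G | x ∈ B.C (Subgroup.zpowers w) ∧ x * z = z * x ∧
        Reg ℓ x} from hx), map_mul, H10W.ch_star hχ, H10W.ch_star hχ]
      have h9 : (y⁻¹⁻¹ * (z * x)⁻¹ * y⁻¹)⁻¹ = y * (z * x) * y⁻¹ := by group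
      rw [h9, mul_comm]
    · rw [if_neg hx, if_neg (show x ∉ {x : G | x ∈ B.C (Subgroup.zpowers w) ∧ x * z = z * x ∧
        Reg ℓ x} from hx), map_zero]

/-- Step 3: the part without contribution -/
theorem Sf_zero (hkc : HkcStmt) (fib : FibStmt) [Fact ℓ.Prime]
    (hM : (ℓ : integralClosure ℤ ℂ) ∈ M) (hℓ : ℓ ≠ 2)
    (hF : Fq ℓ V₀ E₀) {B : Bk (FF M) V₀ G} (hB : Sb ℓ M E₀ B) (hPE : PE ℓ n m G)
    (hA : Subgroup.zpowers w ⊔ Subgroup.zpowers κ = ⊤) {Φ : G → G → ℂ}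
    (h3 : ∀ z y, ∀ v ∈ B.C (Subgroup.zpowers w), Φ (v * z * v⁻¹) (y * v⁻¹) = Φ z y)
    (h4 : ∀ z y, ∀ v ∈ B.C (Subgroup.zpowers w), Φ z (v * y) = Φ z y)
    (h5 : ∀ z y, Commute (B.i w)⁻¹ z → Φ z y ≠ 0 → z ^ ℓ ≠ 1 ∧ ∃ j, Rr (B.i w)⁻¹ 1 j z y) :
    Sf B m κ (Subgroup.zpowers w) Φ = 0 := by
  classical
  rw [Sf_hkc hkc hM hℓ hF hB hPE hA h3 h4]
  have hfin := H10W.ch_fin B (Subgroup.zpowers w)
  rw [finsum_mem_eq_finite_toFinset_sum _ hfin, Finset.sum_eq_zero, mul_zero]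
  intro χ hχ
  have hχ' := hfin.mem_toFinset.1 hχ
  rw [finsum_mem_def, finsum_eq_sum_of_fintype, Fintype.sum_prod_type_right,
    Finset.sum_eq_zero, mul_zero]
  intro y _
  rw [← Finset.sum_fiberwise Finset.univ (fun x : G => x ^ m)]
  refine Finset.sum_eq_zero fun z _ => ?_
  by_cases hΦ : Φ z y = 0
  · refine Finset.sum_eq_zero fun x hx => ?_
    have hx' : x ^ m = z := (Finset.mem_filter.1 hx).2
    rw [Set.indicator_apply]
    split_ifs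
    · show Φ (x ^ m) y * _ = 0
      rw [hx', hΦ, zero_mul]
    · rfl
  by_cases hex : ∃ x : G, x ∈ B.C (Subgroup.zpowers w) ∧ x ^ m = z
  · obtain ⟨x₀, hx₀, hxz⟩ := hex
    have hz : El ℓ z := by
      rw [← hxz]
      exact SO.H70.el_pow hPE x₀
    have hzC : z ∈ B.C (Subgroup.zpowers w) := by
      rw [← hxz]
      exact Subgroup.pow_mem _ hx₀ m
    have hzc : Commute (B.i w)⁻¹ z := ((memC B w z).1 hzC).symm
    obtain ⟨hz1, j, hj⟩ := h5 z y hzc hΦ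
    have h6 := fib_zero fib hM hℓ hF hB hχ' hz hzc hz1 hj
    rw [Finset.sum_filter, ← Equiv.sum_comp (Equiv.mulLeft z)]
    have h7 := congrArg (fun t => Φ z y * t) h6
    simp only [mul_zero, Finset.mul_sum] at h7
    refine (Finset.sum_congr rfl fun x _ => ?_).trans h7
    show (if (z * x) ^ m = z then Set.indicator {v : G × G | v.1 ∈ B.C (Subgroup.zpowers w) ∧
      v.2 * v.1 * v.2⁻¹ ∈ B.C (Subgroup.zpowers w)} (fun v => Φ (v.1 ^ m) v.2 *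
        (χ (v.2 * v.1 * v.2⁻¹) * χ v.1⁻¹)) (z * x, y) else 0) = _
    by_cases h8 : x * z = z * x ∧ Reg ℓ x
    · have h9 : (z * x) ^ m = z := (part_iff hPE hz).2 h8
      rw [if_pos h9, Set.indicator_apply]
      have h10 : z * x ∈ B.C (Subgroup.zpowers w) ↔ x ∈ B.C (Subgroup.zpowers w) :=
        Subgroup.mul_mem_cancel_left _ hzC
      by_cases h11 : x ∈ B.C (Subgroup.zpowers w)
      · rw [if_pos (show x ∈ B.C (Subgroup.zpowers w) ∧ x * z = z * x ∧ Reg ℓ x from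
          ⟨h11, h8⟩)]
        by_cases h12 : y * (z * x) * y⁻¹ ∈ B.C (Subgroup.zpowers w)
        · rw [if_pos (show (z * x, y) ∈ {v : G × G | v.1 ∈ B.C (Subgroup.zpowers w) ∧
            v.2 * v.1 * v.2⁻¹ ∈ B.C (Subgroup.zpowers w)} from ⟨h10.2 h11, h12⟩)]
          show Φ ((z * x) ^ m) y * _ = _
          rw [h9]
        · rw [if_neg (show (z * x, y) ∉ {v : G × G | v.1 ∈ B.C (Subgroup.zpowers w) ∧
            v.2 * v.1 * v.2⁻¹ ∈ B.C (Subgroup.zpowers w)} from fun h => h12 h.2),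
            hχ'.1 _ h12, zero_mul, mul_zero]
      · rw [if_neg (show ¬ (x ∈ B.C (Subgroup.zpowers w) ∧ x * z = z * x ∧ Reg ℓ x) from
          fun h => h11 h.1), if_neg (show (z * x, y) ∉ {v : G × G |
            v.1 ∈ B.C (Subgroup.zpowers w) ∧ v.2 * v.1 * v.2⁻¹ ∈ B.C (Subgroup.zpowers w)} from
            fun h => h11 (h10.1 h.1)), mul_zero]
    · have h9 : ¬ (z * x) ^ m = z := fun h => h8 ((part_iff hPE hz).1 h)
      rw [if_neg h9, if_neg (show ¬ (x ∈ B.C (Subgroup.zpowers w) ∧ x * z = z * x ∧ Reg ℓ x) from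
        fun h => h8 h.2), mul_zero]
  · refine Finset.sum_eq_zero fun x hx => ?_
    have hx' : x ^ m = z := (Finset.mem_filter.1 hx).2
    rw [Set.indicator_apply, if_neg]
    intro h
    exact hex ⟨x, h.1, hx'⟩

open Classical in
/-- Step 4: the numbers `nI` -/
theorem Sf_nI (B : Bk (FF M) V₀ G) (q : ℕ → ℂ) :
    Sf B m κ (Subgroup.zpowers w) (fun z y => ∑ i₀ ∈ Finset.Icc 1 (ℓ - 1), q i₀ *
      (if Rr (B.i w)⁻¹ 1 i₀ z y ∧ z ^ i₀ ≠ 1 ∧ z ^ ℓ = 1 then 1 else 0)) =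
    ∑ i₀ ∈ Finset.Icc 1 (ℓ - 1), q i₀ * nI ℓ B m κ w i₀ := by
  have h1 : ∀ i₀, nI ℓ B m κ w i₀ = (Nat.card (B.C ⊤) : ℂ)⁻¹ * ∑ t : G, bh B ⊤ t *
      ∑ x : G × G, (if SO.kap x.1 x.2 = B.i κ * t ∧ x.1 ∈ B.C (Subgroup.zpowers w) then
        (if Rr (B.i w)⁻¹ 1 i₀ (x.1 ^ m) x.2 ∧ (x.1 ^ m) ^ i₀ ≠ 1 ∧ (x.1 ^ m) ^ ℓ = 1 then
          (1 : ℂ) else 0) else 0) := by
    intro i₀
    unfold nI
    rw [finsum_eq_sum_of_fintype]
    congr 1
    refine Finset.sum_congr rfl fun t _ => ?_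
    congr 1
    rw [H10W.ncard_sum (fun x : G × G => SO.kap x.1 x.2 = B.i κ * t ∧
      B.i w * x.1 = x.1 * B.i w ∧ x.2⁻¹ * (B.i w)⁻¹ * x.2 = (B.i w)⁻¹ * (x.1 ^ m) ^ i₀ ∧
      (x.1 ^ m) ^ i₀ ≠ 1 ∧ (x.1 ^ m) ^ ℓ = 1)]
    refine Finset.sum_congr rfl fun x _ => ?_
    have h2 : x.1 ∈ B.C (Subgroup.zpowers w) ↔ B.i w * x.1 = x.1 * B.i w := by
      rw [memC]
      constructor
      · intro h
        have h3 := h.inv_right
        rw [inv_inv] at h3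
        exact h3.symm
      · intro h
        exact (show Commute x.1 (B.i w) from h.symm).inv_right
    have h3 : Rr (B.i w)⁻¹ 1 i₀ (x.1 ^ m) x.2 ↔
        x.2⁻¹ * (B.i w)⁻¹ * x.2 = (B.i w)⁻¹ * (x.1 ^ m) ^ i₀ := by
      unfold Rr
      rw [pow_one]
    rw [h2, h3, ← ite_and]
    exact if_congr ⟨fun h => ⟨⟨h.1, h.2.1⟩, h.2.2⟩, fun h => ⟨h.1.1, h.1.2, h.2⟩⟩ rfl rfl
  simp only [h1]
  unfold Sf
  have h2 : ∀ (t : G) (x : G × G), (if SO.kap x.1 x.2 = B.i κ * t ∧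
      x.1 ∈ B.C (Subgroup.zpowers w) then ∑ i₀ ∈ Finset.Icc 1 (ℓ - 1), q i₀ *
      (if Rr (B.i w)⁻¹ 1 i₀ (x.1 ^ m) x.2 ∧ (x.1 ^ m) ^ i₀ ≠ 1 ∧ (x.1 ^ m) ^ ℓ = 1 then
        (1 : ℂ) else 0) else 0) = ∑ i₀ ∈ Finset.Icc 1 (ℓ - 1), q i₀ *
      (if SO.kap x.1 x.2 = B.i κ * t ∧ x.1 ∈ B.C (Subgroup.zpowers w) then
        (if Rr (B.i w)⁻¹ 1 i₀ (x.1 ^ m) x.2 ∧ (x.1 ^ m) ^ i₀ ≠ 1 ∧ (x.1 ^ m) ^ ℓ = 1 then
          (1 : ℂ) else 0) else 0) := by
    intro t x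
    split_ifs with h
    · rfl
    · simp
  simp only [h2]
  have h3 : ∀ t : G, bh B ⊤ t * ∑ x : G × G, ∑ i₀ ∈ Finset.Icc 1 (ℓ - 1), q i₀ *
      (if SO.kap x.1 x.2 = B.i κ * t ∧ x.1 ∈ B.C (Subgroup.zpowers w) then
        (if Rr (B.i w)⁻¹ 1 i₀ (x.1 ^ m) x.2 ∧ (x.1 ^ m) ^ i₀ ≠ 1 ∧ (x.1 ^ m) ^ ℓ = 1 then
          (1 : ℂ) else 0) else 0) = ∑ i₀ ∈ Finset.Icc 1 (ℓ - 1), q i₀ * (bh B ⊤ t *
      ∑ x : G × G, (if SO.kap x.1 x.2 = B.i κ * t ∧ x.1 ∈ B.C (Subgroup.zpowers w) then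
        (if Rr (B.i w)⁻¹ 1 i₀ (x.1 ^ m) x.2 ∧ (x.1 ^ m) ^ i₀ ≠ 1 ∧ (x.1 ^ m) ^ ℓ = 1 then
          (1 : ℂ) else 0) else 0)) := by
    intro t
    rw [Finset.sum_comm, Finset.mul_sum]
    refine Finset.sum_congr rfl fun i₀ _ => ?_
    rw [← Finset.mul_sum]
    ring
  simp only [h3]
  rw [Finset.sum_comm, Finset.mul_sum]
  refine Finset.sum_congr rfl fun i₀ _ => ?_
  rw [← Finset.mul_sum]
  ring

end sums

/-- Row TFA. -/
theorem tfa (hkc : HkcStmt) (fib : FibStmt) : TfaStmt := by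
  classical
  intro ℓ _ M _ hM hℓ V₀ G _ _ _ _ E₀ hF B hB n m r hr hn hPE ρ₁ ρ₂ x₁ x₂ c d F₁₃ F₁₂ K h₁ h₂ hY
    κ w σ hw hκ
  have hp : ℓ.Prime := Fact.out
  have := Fintype.ofFinite G
  have hn1 : 1 < n := by
    rw [hn]
    exact Nat.one_lt_pow hr.ne' hp.one_lt
  have hX := hY.toFX
  have hA := sup_top hF hw hκ
  rw [t5_eq hF h₁ h₂ hX B hw hκ]
  obtain ⟨q, hq⟩ : ∃ q : ℂ, q = -(((x₁ (κ * w)⁻¹ * x₂ (σ⁻¹ (κ * w))⁻¹ : ℤ) : ℂ) / ℓ ^ 2) :=
    ⟨_, rfl⟩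
  obtain ⟨cs, hcs⟩ : ∃ cs : ℕ → ℂ, cs = fun i₀ => ((F₁₂ {s | s.2.2.1 =
      (κ * w)⁻¹ ^ (s.2.1 : ℕ) ∧ s.2.2.2 = (σ⁻¹ (κ * w))⁻¹ ^ (s.2.1 : ℕ) ∧
      (s.1 : ℕ) ≡ i₀ * (s.2.1 : ℕ) [MOD ℓ]} -
      (x₁ c⁻¹ * x₂ d⁻¹ : ℤ) / (ℓ : ℚ) ^ 2 : ℚ) : ℂ) := ⟨_, rfl⟩
  have hal : ((B.i w)⁻¹ : G) ^ ℓ = 1 := by rw [inv_pow, ← map_pow, hF.ex, map_one, inv_one]
  -- invariances
  have hta3 : ∀ z y, ∀ v ∈ B.C (Subgroup.zpowers w),
      ta n κ w σ (B.i w)⁻¹ (v * z * v⁻¹) (y * v⁻¹) = ta n κ w σ (B.i w)⁻¹ z y := by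
    intro z y v hv
    ext s
    exact and_congr Iff.rfl (rr_conj ((memC B w v).1 hv) _ _ z y)
  have hta4 : ∀ z y, ∀ v ∈ B.C (Subgroup.zpowers w),
      ta n κ w σ (B.i w)⁻¹ z (v * y) = ta n κ w σ (B.i w)⁻¹ z y := by
    intro z y v hv
    ext s
    exact and_congr Iff.rfl (rr_left ((memC B w v).1 hv) _ _ z y)
  have hc3 : ∀ y, ∀ v ∈ B.C (Subgroup.zpowers w),
      (Commute (y * v⁻¹) (B.i w)⁻¹ ↔ Commute y (B.i w)⁻¹) := by
    intro y v hv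
    rw [← memC, ← memC]
    exact Subgroup.mul_mem_cancel_right _ (Subgroup.inv_mem _ hv)
  have hc4 : ∀ y, ∀ v ∈ B.C (Subgroup.zpowers w),
      (Commute (v * y) (B.i w)⁻¹ ↔ Commute y (B.i w)⁻¹) := by
    intro y v hv
    rw [← memC, ← memC]
    exact Subgroup.mul_mem_cancel_left _ hv
  have hcp : ∀ (z v : G) (k : ℕ), (v * z * v⁻¹) ^ k = 1 ↔ z ^ k = 1 := by
    intro z v k
    rw [conj_pow, conj_eq_one_iff]
  have e1 := Sf_one (m := m) hkc hM hℓ hF hB hPE hA q (fun z y v hv => by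
    simp only [hc3 y v hv]) (fun z y v hv => by simp only [hc4 y v hv])
  have e2 := Sf_nI (ℓ := ℓ) (m := m) (κ := κ) (w := w) B cs
  have e3 := Sf_zero (m := m) hkc fib hM hℓ hF hB hPE hA (Φ := fun z y =>
    ((F₁₂ (ta n κ w σ (B.i w)⁻¹ z y) - (x₁ c⁻¹ * x₂ d⁻¹ : ℤ) / (ℓ : ℚ) ^ 2 : ℚ) : ℂ) -
      (if Commute y (B.i w)⁻¹ then q else 0) -
      ∑ i₀ ∈ Finset.Icc 1 (ℓ - 1), cs i₀ *
        (if Rr (B.i w)⁻¹ 1 i₀ z y ∧ z ^ i₀ ≠ 1 ∧ z ^ ℓ = 1 then 1 else 0))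
    (fun z y v hv => by
      simp only [hta3 z y v hv, hc3 y v hv, rr_conj ((memC B w v).1 hv), hcp, ne_eq])
    (fun z y v hv => by
      simp only [hta4 z y v hv, hc4 y v hv, rr_left ((memC B w v).1 hv)])
    (fun z y hz hne => by
      rw [hq, hcs] at hne
      exact key hF hn1 h₁ h₂ hX hal hz hne)
  rw [Sf_sub, Sf_sub, e1, e2, sub_sub, sub_eq_zero] at e3
  rw [e3, hq, hcs]

end Pool.Agent.PP.SD.H45
end
end -- Pool.Agent.Helper45_ASD.TFA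

section -- Pool.Agent.Helper47_ASE.X2R

/-!
# Squad ASE, row X2R: the values of `X12`
-/

open scoped BigOperators

noncomputable section

namespace Pool.Agent.PP.SE.H47

open Pool.Agent.Helper51_AWC Pool.Agent.Helper79_WRA Pool.Agent.PP Pool.Agent.PP.KF
open Pool.Agent.PP.K9 Pool.Agent.PP.K9.H97 Pool.Agent.PP.H75 Pool.Agent.PP.T3 Pool.Agent.PP.SO
open Pool.Agent.PP.SD

attribute [local instance] Ideal.Quotient.field

set_option linter.unusedSectionVars false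

section lin

variable {V₀ G : Type} [CommGroup V₀] [Group G] {M : Ideal (integralClosure ℤ ℂ)} [M.IsMaximal]
  {n : ℕ}

/-- the number of the pairs in `HX` -/
def cnt (B : Bk (FF M) V₀ G) (m : ℕ) (L : Set (SO.SS n V₀)) (g : G) : ℂ :=
  ({w : G × G | SO.kap w.1 w.2 = g ∧ ∀ s ∈ L,
    ((g ^ m) ^ (s.2.1 : ℕ) * B.i s.2.2.1) * w.1 = w.1 * ((g ^ m) ^ (s.2.1 : ℕ) * B.i s.2.2.1) ∧
    w.2⁻¹ * ((g ^ m) ^ (s.2.1 : ℕ) * B.i s.2.2.1) * w.2 =
      (g ^ m) ^ (s.2.1 : ℕ) * B.i s.2.2.1 * (w.1 ^ m) ^ (s.1 : ℕ)}.ncard : ℂ)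

theorem hx_def (B : Bk (FF M) V₀ G) (m : ℕ) (W : Subgroup V₀) (a : G → ℂ)
    (L : Set (SO.SS n V₀)) :
    HX B m W a L = (Nat.card (B.C W) : ℂ)⁻¹ * ∑ᶠ g : G, a g * cnt B m L g := rfl

theorem hx_smul [Finite G] (B : Bk (FF M) V₀ G) (m : ℕ) (W : Subgroup V₀) (z : ℂ) (a : G → ℂ)
    (L : Set (SO.SS n V₀)) : HX B m W (fun g => z * a g) L = z * HX B m W a L := by
  have : Fintype G := Fintype.ofFinite G
  rw [hx_def, hx_def, finsum_eq_sum_of_fintype, finsum_eq_sum_of_fintype]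
  rw [Finset.mul_sum, Finset.mul_sum, Finset.mul_sum]
  refine Finset.sum_congr rfl fun g _ => ?_
  ring

theorem hx_sum [Finite G] {ι : Type} [Finite ι] (B : Bk (FF M) V₀ G) (m : ℕ) (W : Subgroup V₀)
    (z : ι → ℂ) (a : ι → G → ℂ) (L : Set (SO.SS n V₀)) :
    HX B m W (fun g => ∑ᶠ τ : ι, z τ * a τ g) L = ∑ᶠ τ : ι, z τ * HX B m W (a τ) L := by
  have : Fintype G := Fintype.ofFinite G
  have : Fintype ι := Fintype.ofFinite ι
  rw [hx_def, finsum_eq_sum_of_fintype, finsum_eq_sum_of_fintype]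
  have h1 : ∀ g, (∑ᶠ τ : ι, z τ * a τ g) * cnt B m L g = ∑ τ : ι, z τ * (a τ g * cnt B m L g) := by
    intro g
    rw [finsum_eq_sum_of_fintype, Finset.sum_mul]
    refine Finset.sum_congr rfl fun τ _ => ?_
    ring
  rw [Finset.sum_congr rfl fun g _ => h1 g, Finset.sum_comm, Finset.mul_sum]
  refine Finset.sum_congr rfl fun τ _ => ?_
  rw [hx_def, finsum_eq_sum_of_fintype, ← Finset.mul_sum]
  ring

end lin

section img

variable {V₀ : Type} [CommGroup V₀] {n : ℕ}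

theorem mp_qL {E₀ : Subgroup (MulAut V₀)} {L : Set (SO.SS n V₀)} {σ : MulAut V₀}
    (hσ : σ ∈ EL E₀ L) : mp σ (qL L) = pL L := by
  unfold mp qL pL
  rw [MonoidHom.map_closure]
  congr 1
  ext p
  constructor
  · rintro ⟨_, ⟨s, hs, rfl⟩, rfl⟩
    exact ⟨s, hs, (hσ.2 s hs).symm⟩
  · rintro ⟨s, hs, rfl⟩
    exact ⟨s.2.2.2, ⟨s, hs, rfl⟩, hσ.2 s hs⟩

theorem pL_bot {L : Set (SO.SS n V₀)} (h : ∀ s ∈ L, s.2.2.1 = 1) : pL L = ⊥ := by
  unfold pL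
  rw [Subgroup.closure_eq_bot_iff]
  rintro _ ⟨s, hs, rfl⟩
  exact h s hs

theorem qL_bot {L : Set (SO.SS n V₀)} (h : qL L = ⊥) : ∀ s ∈ L, s.2.2.2 = 1 := by
  intro s hs
  have h1 : s.2.2.2 ∈ qL L := Subgroup.subset_closure ⟨s, hs, rfl⟩
  rw [h] at h1
  exact h1

theorem card_mp (σ : MulAut V₀) (W : Subgroup V₀) : Nat.card (mp σ W) = Nat.card W := by
  unfold mp
  exact Nat.card_congr (W.equivMapOfInjective _ (MulEquiv.injective σ)).symm.toEquiv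

/-- the sum over the cosets -/
theorem sum_st [Finite V₀] (E₀ : Subgroup (MulAut V₀)) (L : Set (SO.SS n V₀))
    (F : MulAut V₀ → ℂ) :
    ∑ᶠ σ ∈ EL E₀ L, ∑ᶠ τ : St E₀ (pL L), F (τ * σ) = (nS E₀ (pL L) : ℂ) * ∑ᶠ σ ∈ EL E₀ L, F σ := by
  classical
  have hfin : Finite (MulAut V₀) := inferInstance
  have : Fintype (MulAut V₀) := Fintype.ofFinite _
  have : Fintype (St E₀ (pL L)) := Fintype.ofFinite _
  have e1 : ∀ f : MulAut V₀ → ℂ, ∑ᶠ σ ∈ EL E₀ L, f σ =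
      ∑ σ : MulAut V₀, if σ ∈ EL E₀ L then f σ else 0 := by
    intro f
    rw [finsum_mem_def, finsum_eq_sum_of_fintype]
    exact Finset.sum_congr rfl fun σ _ => Set.indicator_apply _ _ _
  rw [e1, e1]
  have h1 : ∀ τ : St E₀ (pL L), ∑ σ : MulAut V₀, (if σ ∈ EL E₀ L then F (τ * σ) else 0) =
      ∑ σ : MulAut V₀, if σ ∈ EL E₀ L then F σ else 0 := by
    intro τ
    rw [← Equiv.sum_comp (Equiv.mulLeft (τ : MulAut V₀)) (fun σ => if σ ∈ EL E₀ L then F σ else 0)]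
    refine Finset.sum_congr rfl fun σ _ => ?_
    have h2 : σ ∈ EL E₀ L ↔ (τ : MulAut V₀) * σ ∈ EL E₀ L := by
      have hτp : ∀ s ∈ L, (τ : MulAut V₀) s.2.2.1 = s.2.2.1 := fun s hs =>
        τ.2.2 _ (Subgroup.subset_closure ⟨s, hs, rfl⟩)
      constructor
      · rintro ⟨h3, h4⟩
        refine ⟨E₀.mul_mem τ.2.1 h3, fun s hs => ?_⟩
        rw [MulAut.mul_apply, h4 s hs, hτp s hs]
      · rintro ⟨h3, h4⟩
        refine ⟨(E₀.mul_mem_cancel_left τ.2.1).1 h3, fun s hs => ?_⟩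
        have h5 := h4 s hs
        rw [MulAut.mul_apply] at h5
        exact (MulEquiv.injective (τ : MulAut V₀)) (h5.trans (hτp s hs).symm)
    rw [Equiv.coe_mulLeft]
    exact if_congr h2 rfl rfl
  have h3 : ∀ σ : MulAut V₀, (if σ ∈ EL E₀ L then ∑ᶠ τ : St E₀ (pL L), F (τ * σ) else 0) =
      ∑ τ : St E₀ (pL L), if σ ∈ EL E₀ L then F (τ * σ) else 0 := by
    intro σ
    by_cases h : σ ∈ EL E₀ L
    · simp only [if_pos h, finsum_eq_sum_of_fintype]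
    · simp only [if_neg h, Finset.sum_const_zero]
  rw [Finset.sum_congr rfl fun σ _ => h3 σ, Finset.sum_comm, Finset.sum_congr rfl fun τ _ => h1 τ,
    Finset.sum_const, Finset.card_univ, nsmul_eq_mul]
  unfold nS
  rw [Nat.card_eq_fintype_card]

end img

section main

variable {V₀ G : Type} [CommGroup V₀] [Finite V₀] [Group G] [Finite G]
  {M : Ideal (integralClosure ℤ ℂ)} [M.IsMaximal] {n : ℕ}


theorem x12_zero (B : Bk (FF M) V₀ G) (hi : Function.Injective B.i) (m : ℕ)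
    (a b : Subgroup V₀ → G → ℂ) (L : Set (SO.SS n V₀)) (hp : pL L ≠ ⊥) (hq : qL L = ⊥) :
    X12 B m a b L = 0 := by
  have hq' := qL_bot hq
  have hex : ∃ s ∈ L, s.2.2.1 ≠ 1 := by
    by_contra h
    push Not at h
    exact hp (pL_bot h)
  obtain ⟨s, hs, hs1⟩ := hex
  unfold X12
  have h0 : ∀ w : G × G, {z : XX w.1 w.2 | ∀ s ∈ L,
      c12 m B.i z.1.1 z.1.2.1 z.1.2.2 s.1 s.2.1 s.2.2.1 s.2.2.2} = ∅ := by
    intro w
    rw [Set.eq_empty_iff_forall_notMem]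
    intro z hz
    have h1 := (hz s hs).2.2
    rw [hq' s hs, map_one, inv_one, mul_one] at h1
    have h2 : B.i s.2.2.1 = 1 := mul_eq_right.1 h1.symm
    exact hs1 (hi (h2.trans (map_one B.i).symm))
  have h1 : ∀ w : G × G, a (pL L) w.1 * b (qL L) w.2 * (({z : XX w.1 w.2 | ∀ s ∈ L,
      c12 m B.i z.1.1 z.1.2.1 z.1.2.2 s.1 s.2.1 s.2.2.1 s.2.2.2}.ncard : ℕ) : ℂ) = 0 := by
    intro w
    rw [h0 w, Set.ncard_empty, Nat.cast_zero, mul_zero]
  rw [finsum_congr h1, finsum_zero, mul_zero]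

theorem key (x2c : X2cStmt) {ℓ : ℕ} [Fact ℓ.Prime] (hM : (ℓ : integralClosure ℤ ℂ) ∈ M)
    (hℓ : ℓ ≠ 2) {E₀ : Subgroup (MulAut V₀)} (hq : Fq ℓ V₀ E₀) {B : Bk (FF M) V₀ G}
    (hB : Sb ℓ M E₀ B) {m : ℕ} (hPE : PE ℓ n m G) (L : Set (SO.SS n V₀)) (hp : pL L ≠ ⊥)
    (a b : Subgroup V₀ → G → ℂ) (ha : Cz B (pL L) (a (pL L)))
    (hb : qL L ≠ ⊥ → Cz B (qL L) (b (qL L))) (c : MulAut V₀ → ℂ) (f : MulAut V₀ → G → ℂ)
    (hf : ∀ σ ∈ EL E₀ L, HX B m (pL L) (fun g => mulF (a (pL L)) (ac B σ (b (qL L))) g) L =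
      c σ * HX B m (pL L) (f σ) L) :
    X12 B m a b L = (nS E₀ (pL L) : ℂ)⁻¹ * ∑ᶠ σ ∈ EL E₀ L, c σ * HX B m (pL L) (f σ) L := by
  by_cases h : qL L = ⊥
  · rw [x12_zero B hB.inj m a b L hp h]
    have hE : EL E₀ L = ∅ := by
      rw [Set.eq_empty_iff_forall_notMem]
      intro σ hσ
      apply hp
      apply pL_bot
      intro s hs
      rw [← hσ.2 s hs, qL_bot h s hs, map_one]
    rw [hE, finsum_mem_empty, mul_zero]
  · rw [(x2c ℓ M hM hℓ V₀ G E₀ hq B hB n m hPE L a b).2 ha (hb h) hp]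
    congr 1
    exact finsum_mem_congr rfl hf

end main

/-- Row X2R. -/
theorem x2r (x2c : X2cStmt) (fmb : FmbStmt) (prb : PrbStmt) (czb : CzbStmt) : X2rStmt := by
  intro ℓ _ M _ hM hℓ V₀ G _ _ _ _ E₀ hFq B hB D hD n m hPE c d L hp
  classical
  have hP := prb ℓ V₀ E₀ hFq (pL L)
  have hn0 : (nS E₀ (pL L) : ℂ) ≠ 0 := by
    have h1 := hP.2.2.2.2.2.2.2.1.2.1
    exact_mod_cast h1.ne'
  have hF := fmb ℓ M hM hℓ V₀ G E₀ hFq B hB D hD
  -- the elements `κ et`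
  have czt : ∀ W : Subgroup V₀, W ≠ ⊥ → ∀ v, Cz B W (tk B (pr ℓ E₀ W v) (D.et W)) := by
    intro W hW v
    rcases (prb ℓ V₀ E₀ hFq W).2.2.2.2.2.2.1 hW |>.1 with h | h
    · have h1 : D.et W = 0 := (hD.f1 W hW h).1
      have h2 : tk B (pr ℓ E₀ W v) (D.et W) = D.et W := by
        rw [h1]
        rfl
      rw [h2]
      exact hD.e1 W hW
    · exact ((hF W hW).2.2.1 _ ((prb ℓ V₀ E₀ hFq W).2.2.2.2.1 h v)).1
  have hqb : ∀ σ ∈ EL E₀ L, qL L ≠ ⊥ := by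
    intro σ hσ h
    apply hp
    apply pL_bot
    intro s hs
    rw [← hσ.2 s hs, qL_bot h s hs, map_one]
  -- conjugation
  have acf : ∀ σ ∈ EL E₀ L, ac B σ (fm ℓ E₀ B D (qL L) d) = fm ℓ E₀ B D (pL L) (σ d) := by
    intro σ hσ
    rw [((hF (qL L) (hqb σ hσ)).2.2.2.1 σ hσ.1).1 d, mp_qL hσ]
  have act : pL L ∈ RL ℓ E₀ → ∀ σ ∈ EL E₀ L, ac B σ (tk B (pr ℓ E₀ (qL L) d) (D.et (qL L))) =
      tk B (pr ℓ E₀ (pL L) (σ d)) (D.et (pL L)) := by
    intro hR σ hσ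
    have h4 := (prb ℓ V₀ E₀ hFq (qL L)).2.2.2.1 σ hσ.1
    rw [mp_qL hσ] at h4
    have hR' : qL L ∈ RL ℓ E₀ := by
      refine ⟨?_, ?_⟩
      · rw [← card_mp σ (qL L), mp_qL hσ]
        exact hR.1
      · rw [← h4.1]
        exact hR.2
    have h5 := (prb ℓ V₀ E₀ hFq (qL L)).2.2.2.2.1 hR' d
    rw [((hF (qL L) (hqb σ hσ)).2.2.2.1 σ hσ.1).2 _ h5, mp_qL hσ, h4.2]
  obtain ⟨f1, f2, f3, f4, f5, f6, f7, f8, f9, f10⟩ := hF (pL L) hp
  obtain ⟨p1, p2, p3, p4, p5, p6, p7, p8, p9, p10⟩ := hP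
  refine ⟨?_, fun hR => ⟨?_, ?_, ?_⟩⟩
  · -- (1)
    have h0 : X12 B m (fun W => fm ℓ E₀ B D W c) (fun W => fm ℓ E₀ B D W d) L =
        (nS E₀ (pL L) : ℂ)⁻¹ * ∑ᶠ σ ∈ EL E₀ L, HX B m (pL L)
          (fun g => mulF (fm ℓ E₀ B D (pL L) c) (fm ℓ E₀ B D (pL L) (σ d)) g) L := by
      rw [key x2c hM hℓ hFq hB hPE L hp _ _ (f1 c) (fun h => (hF (qL L) h).1 d) (fun _ => 1)
        (fun σ => fun g => mulF (fm ℓ E₀ B D (pL L) c) (fm ℓ E₀ B D (pL L) (σ d)) g)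
        (fun σ hσ => by
          rw [one_mul, acf σ hσ])]
      congr 1
      refine finsum_mem_congr rfl fun σ _ => one_mul _
    rw [h0]
    have h1 : ∀ σ ∈ EL E₀ L, HX B m (pL L)
        (fun g => mulF (fm ℓ E₀ B D (pL L) c) (fm ℓ E₀ B D (pL L) (σ d)) g) L =
        ∑ᶠ τ : St E₀ (pL L), ((cS D.U c d ((τ : MulAut V₀) * σ) (pL L) : ℚ) : ℂ) *
          HX B m (pL L) (fm ℓ E₀ B D (pL L) (c * ((τ : MulAut V₀) * σ) d)) L := by
      intro σ hσ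
      have h2 : (fun g => mulF (fm ℓ E₀ B D (pL L) c) (fm ℓ E₀ B D (pL L) (σ d)) g) =
          fun g => ∑ᶠ τ : St E₀ (pL L), ((cS D.U c d ((τ : MulAut V₀) * σ) (pL L) : ℚ) : ℂ) *
            fm ℓ E₀ B D (pL L) (c * ((τ : MulAut V₀) * σ) d) g := by
        funext g
        rw [f2 c (σ d) g]
        rfl
      rw [h2]
      exact hx_sum B m (pL L) (fun τ : St E₀ (pL L) =>
        ((cS D.U c d ((τ : MulAut V₀) * σ) (pL L) : ℚ) : ℂ))
        (fun τ => fm ℓ E₀ B D (pL L) (c * ((τ : MulAut V₀) * σ) d)) L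
    rw [finsum_mem_congr rfl h1, sum_st E₀ L (fun σ => ((cS D.U c d σ (pL L) : ℚ) : ℂ) *
      HX B m (pL L) (fm ℓ E₀ B D (pL L) (c * σ d)) L), ← mul_assoc, inv_mul_cancel₀ hn0, one_mul]
  · -- (2)
    rw [key x2c hM hℓ hFq hB hPE L hp _ _ (czt (pL L) hp c) (fun h => (hF (qL L) h).1 d)
      (fun σ => (nS E₀ (pL L) : ℂ) * (ux D.U (pL L) (σ d) : ℚ))
      (fun σ => tk B (pr ℓ E₀ (pL L) (c * σ d)) (D.et (pL L)))
      (fun σ hσ => by
        rw [acf σ hσ, ← hx_smul]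
        congr 1
        funext g
        rw [(f3 _ (p5 hR c)).2 (σ d) g, p2.2.1])]
    rw [mul_finsum_mem]
    refine finsum_mem_congr rfl fun σ _ => ?_
    field_simp
  · -- (3)
    rw [key x2c hM hℓ hFq hB hPE L hp _ _ (f1 c) (fun h => czt (qL L) h d)
      (fun σ => (nS E₀ (pL L) : ℂ) * (ux D.U (pL L) c : ℚ))
      (fun σ => tk B (pr ℓ E₀ (pL L) (c * σ d)) (D.et (pL L)))
      (fun σ hσ => by
        rw [act hR σ hσ, ← hx_smul]
        have h6 : (fun g => mulF (fm ℓ E₀ B D (pL L) c)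
            (tk B (pr ℓ E₀ (pL L) (σ d)) (D.et (pL L))) g) =
            (fun g => mulF (tk B (pr ℓ E₀ (pL L) (σ d)) (D.et (pL L)))
              (fm ℓ E₀ B D (pL L) c) g) := by
          have hC := czb ℓ M hM hℓ V₀ G E₀ hFq B hB (pL L)
          have hm := hC.2.2.2.1
          have h7 := hm _ _ (f1 c) (czt (pL L) hp (σ d))
          have h8 := hm _ _ (czt (pL L) hp (σ d)) (f1 c)
          refine hC.2.2.2.2.2.1 _ _ h7.1 h8.1 fun χ hχ => ?_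
          rw [h7.2 χ hχ, h8.2 χ hχ, mul_comm]
        rw [h6]
        congr 1
        funext g
        rw [(f3 _ (p5 hR (σ d))).2 c g, p2.2.1, mul_comm (pr ℓ E₀ (pL L) c)])]
    rw [mul_finsum_mem]
    refine finsum_mem_congr rfl fun σ _ => ?_
    field_simp
  · -- (4)
    rw [key x2c hM hℓ hFq hB hPE L hp _ _ (czt (pL L) hp c) (fun h => czt (qL L) h d)
      (fun σ => 1) (fun σ => tk B (pr ℓ E₀ (pL L) (c * σ d))
        (fun g => mulF (D.et (pL L)) (D.et (pL L)) g))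
      (fun σ hσ => by
        rw [act hR σ hσ, one_mul]
        congr 1
        funext g
        rw [f7 _ (p5 hR c) _ (p5 hR (σ d)) g, p2.2.1])]
    congr 1
    refine finsum_mem_congr rfl fun σ _ => one_mul _

end Pool.Agent.PP.SE.H47
end
end -- Pool.Agent.Helper47_ASE.X2R

section -- Pool.Agent.Helper47_ASE.FT3

/-!
# Squad ASE, row FT3: the sums `FWS` for the indicator function of the free types
-/

open scoped BigOperators

set_option linter.unusedSectionVars false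

noncomputable section

namespace Pool.Agent.PP.SE.H47

open Pool.Agent.Helper51_AWC Pool.Agent.Helper79_WRA Pool.Agent.PP Pool.Agent.PP.KF
open Pool.Agent.PP.K9 Pool.Agent.PP.K9.H97 Pool.Agent.PP.H75 Pool.Agent.PP.T3 Pool.Agent.PP.SO
open Pool.Agent.PP.SD

attribute [local instance] Ideal.Quotient.field

section gen

variable {V₀ G : Type} [CommGroup V₀] [Group G] {M : Ideal (integralClosure ℤ ℂ)} [M.IsMaximal]
  {n : ℕ}

/-- the condition of `s` for `(x, y)` -/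
def Cs (B : Bk (FF M) V₀ G) (m : ℕ) (x y : G) (s : SO.SS n V₀) : Prop :=
  ((SO.kap x y ^ m) ^ (s.2.1 : ℕ) * B.i s.2.2.1) * x =
      x * ((SO.kap x y ^ m) ^ (s.2.1 : ℕ) * B.i s.2.2.1) ∧
    y⁻¹ * ((SO.kap x y ^ m) ^ (s.2.1 : ℕ) * B.i s.2.2.1) * y =
      (SO.kap x y ^ m) ^ (s.2.1 : ℕ) * B.i s.2.2.1 * (x ^ m) ^ (s.1 : ℕ)

/-- the type of `(x, y)` -/
def tau (B : Bk (FF M) V₀ G) (m : ℕ) (σ : MulAut V₀) (a : Subgroup V₀) (w : G × G) :
    Set (SO.SS n V₀) :=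
  {s | s.2.2.1 ∈ a ∧ σ s.2.2.2 = s.2.2.1 ∧ Cs B m w.1 w.2 s}

open Classical in
theorem cnt_sum [Fintype G] (B : Bk (FF M) V₀ G) (m : ℕ) (L : Set (SO.SS n V₀)) (a : G → ℂ) :
    ∑ g, a g * cnt B m L g =
      ∑ w : G × G, if ∀ s ∈ L, Cs B m w.1 w.2 s then a (SO.kap w.1 w.2) else 0 := by
  have h1 : ∀ g, cnt B m L g =
      ∑ w : G × G, if SO.kap w.1 w.2 = g then (if ∀ s ∈ L, Cs B m w.1 w.2 s then (1 : ℂ) else 0)
        else 0 := by
    intro g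
    have h2 : {w : G × G | SO.kap w.1 w.2 = g ∧ ∀ s ∈ L,
        ((g ^ m) ^ (s.2.1 : ℕ) * B.i s.2.2.1) * w.1 =
          w.1 * ((g ^ m) ^ (s.2.1 : ℕ) * B.i s.2.2.1) ∧
        w.2⁻¹ * ((g ^ m) ^ (s.2.1 : ℕ) * B.i s.2.2.1) * w.2 =
          (g ^ m) ^ (s.2.1 : ℕ) * B.i s.2.2.1 * (w.1 ^ m) ^ (s.1 : ℕ)} =
        ((Finset.univ.filter fun w : G × G => SO.kap w.1 w.2 = g ∧
          ∀ s ∈ L, Cs B m w.1 w.2 s : Finset (G × G)) : Set (G × G)) := by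
      ext w
      rw [Finset.coe_filter]
      simp only [Set.mem_ofPred_eq, Finset.mem_univ, true_and]
      constructor
      · rintro ⟨rfl, h⟩
        exact ⟨rfl, h⟩
      · rintro ⟨rfl, h⟩
        exact ⟨rfl, h⟩
    unfold cnt
    rw [h2, Set.ncard_coe_finset, Finset.card_filter, Nat.cast_sum]
    refine Finset.sum_congr rfl fun w _ => ?_
    by_cases hk : SO.kap w.1 w.2 = g
    · by_cases hc : ∀ s ∈ L, Cs B m w.1 w.2 s
      · rw [if_pos ⟨hk, hc⟩, if_pos hk, if_pos hc, Nat.cast_one]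
      · rw [if_neg fun h => hc h.2, if_pos hk, if_neg hc, Nat.cast_zero]
    · rw [if_neg fun h => hk h.1, if_neg hk, Nat.cast_zero]
  have h3 : ∀ g, a g * cnt B m L g =
      ∑ w : G × G, if SO.kap w.1 w.2 = g then a g * (if ∀ s ∈ L, Cs B m w.1 w.2 s then (1 : ℂ) else 0)
        else 0 := by
    intro g
    rw [h1, Finset.mul_sum]
    refine Finset.sum_congr rfl fun w _ => ?_
    rw [mul_ite, mul_zero]
  rw [Finset.sum_congr rfl fun g _ => h3 g, Finset.sum_comm]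
  refine Finset.sum_congr rfl fun w _ => ?_
  rw [Finset.sum_ite_eq, if_pos (Finset.mem_univ _), mul_ite, mul_one, mul_zero]

end gen

section typ

variable {V₀ : Type} [CommGroup V₀] [Finite V₀] {n : ℕ}

theorem p_mem {L : Set (SO.SS n V₀)} {s : SO.SS n V₀} (hs : s ∈ L) : s.2.2.1 ∈ pL L :=
  Subgroup.subset_closure ⟨s, hs, rfl⟩

/-- the sum of the Möbius transforms over the sets with `pL = a` -/
theorem mob_sum {ℓ : ℕ} [Fact ℓ.Prime] {a : Subgroup V₀} (ha : Nat.card a = ℓ)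
    (F : Set (SO.SS n V₀) → ℚ) (τ : Set (SO.SS n V₀)) (hτ : ∀ s ∈ τ, s.2.2.1 ∈ a) :
    ∑ᶠ L ∈ {L : Set (SO.SS n V₀) | pL L = a ∧ L ⊆ τ}, mob F L = F τ - F (P1 τ) := by
  have hf : Finite (SO.SS n V₀) := inferInstance
  have ha1 : a ≠ ⊥ := by
    intro h
    rw [h, Subgroup.card_bot] at ha
    exact (Fact.out : ℓ.Prime).one_lt.ne ha
  have h1 := (SO.H9.mbi (SO.SS n V₀) F).1 τ
  have h2 := (SO.H9.mbi (SO.SS n V₀) F).1 (P1 τ)
  have hu : {L : Set (SO.SS n V₀) | L ⊆ τ} = {L | pL L = a ∧ L ⊆ τ} ∪ {L | L ⊆ P1 τ} := by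
    ext L
    constructor
    · intro hL
      have hL' : L ⊆ τ := hL
      have hle : pL L ≤ a := by
        unfold pL
        rw [Subgroup.closure_le]
        rintro _ ⟨s, hs, rfl⟩
        exact hτ s (hL' hs)
      have hd : Nat.card (pL L) = 1 ∨ Nat.card (pL L) = ℓ := by
        refine (Nat.dvd_prime (Fact.out : ℓ.Prime)).1 ?_
        rw [← ha]
        exact Subgroup.card_dvd_of_le hle
      rcases hd with h | h
      · right
        have h3 : pL L = ⊥ := Subgroup.card_eq_one.1 h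
        intro s hs
        refine ⟨hL' hs, ?_⟩
        have h4 := p_mem hs
        rw [h3] at h4
        exact h4
      · left
        exact ⟨Subgroup.eq_of_le_of_card_ge hle (by rw [ha, h]), hL'⟩
    · rintro (h | h)
      · exact h.2
      · intro s hs
        exact (h hs).1
  have hd : Disjoint {L : Set (SO.SS n V₀) | pL L = a ∧ L ⊆ τ} {L | L ⊆ P1 τ} := by
    rw [Set.disjoint_left]
    rintro L ⟨h3, -⟩ h4
    apply ha1
    rw [← h3]
    exact pL_bot fun s hs => (h4 hs).2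
  rw [hu, finsum_mem_union hd (Set.toFinite _) (Set.toFinite _), h2] at h1
  rw [← h1, add_sub_cancel_right]

theorem fre_P1 {σ : MulAut V₀} {τ : Set (SO.SS n V₀)} (h : ∀ s ∈ τ, σ s.2.2.2 = s.2.2.1) :
    Fre (P1 τ) := by
  intro s hs _ _
  refine ⟨hs.2, ?_⟩
  have h1 := h s hs.1
  rw [hs.2] at h1
  exact (MulEquiv.map_eq_one_iff σ).1 h1

end typ

section fws

variable {V₀ G : Type} [CommGroup V₀] [Finite V₀] [Group G] [Fintype G]
  {M : Ideal (integralClosure ℤ ℂ)} [M.IsMaximal] {n : ℕ}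

/-- the sums `FWS` as sums over the pairs -/
theorem fws_eq {ℓ : ℕ} [Fact ℓ.Prime] (B : Bk (FF M) V₀ G) (m : ℕ) (σ : MulAut V₀)
    {a : Subgroup V₀} (ha : Nat.card a = ℓ) (F : Set (SO.SS n V₀) → ℚ) (z : G → ℂ) :
    FWS B m σ a F z = (Nat.card (B.C a) : ℂ)⁻¹ * ∑ w : G × G, z (SO.kap w.1 w.2) *
      ((F (tau B m σ a w) - F (P1 (tau B m σ a w)) : ℚ) : ℂ) := by
  classical
  have hf : Finite (SO.SS n V₀) := inferInstance
  have : Fintype (Set (SO.SS n V₀)) := Fintype.ofFinite _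
  have h1 : ∀ w : G × G, ((F (tau B m σ a w) - F (P1 (tau B m σ a w)) : ℚ) : ℂ) =
      ∑ L : Set (SO.SS n V₀), if pL L = a ∧ L ⊆ tau B m σ a w then ((mob F L : ℚ) : ℂ) else 0 := by
    intro w
    rw [← mob_sum ha F (tau B m σ a w) (fun s hs => hs.1), finsum_mem_def,
      finsum_eq_sum_of_fintype, Rat.cast_sum]
    refine Finset.sum_congr rfl fun L _ => ?_
    rw [Set.indicator_apply]
    by_cases h : pL L = a ∧ L ⊆ tau B m σ a w
    · have h' : L ∈ {L : Set (SO.SS n V₀) | pL L = a ∧ L ⊆ tau B m σ a w} := h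
      rw [if_pos h, if_pos h']
    · have h' : L ∉ {L : Set (SO.SS n V₀) | pL L = a ∧ L ⊆ tau B m σ a w} := h
      rw [if_neg h, if_neg h', Rat.cast_zero]
  unfold FWS
  rw [finsum_mem_def, finsum_eq_sum_of_fintype]
  have h2 : ∀ w : G × G, z (SO.kap w.1 w.2) *
      ((F (tau B m σ a w) - F (P1 (tau B m σ a w)) : ℚ) : ℂ) = ∑ L : Set (SO.SS n V₀),
        if pL L = a ∧ L ⊆ tau B m σ a w then ((mob F L : ℚ) : ℂ) * z (SO.kap w.1 w.2) else 0 := by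
    intro w
    rw [h1, Finset.mul_sum]
    refine Finset.sum_congr rfl fun L _ => ?_
    by_cases h : pL L = a ∧ L ⊆ tau B m σ a w
    · rw [if_pos h, if_pos h, mul_comm]
    · rw [if_neg h, if_neg h, mul_zero]
  rw [Finset.sum_congr rfl fun w _ => h2 w, Finset.sum_comm, Finset.mul_sum]
  refine Finset.sum_congr rfl fun L _ => ?_
  rw [Set.indicator_apply]
  by_cases hL : pL L = a ∧ ∀ s ∈ L, σ s.2.2.2 = s.2.2.1
  · have h3 : (if L ∈ {L : Set (SO.SS n V₀) | pL L = a ∧ ∀ s ∈ L, σ s.2.2.2 = s.2.2.1} then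
        ((mob F L : ℚ) : ℂ) * HX B m a z L else 0) = ((mob F L : ℚ) : ℂ) * HX B m a z L :=
      if_pos hL
    rw [h3, hx_def, finsum_eq_sum_of_fintype, cnt_sum]
    have h4 : ∀ w : G × G, (if pL L = a ∧ L ⊆ tau B m σ a w then
        ((mob F L : ℚ) : ℂ) * z (SO.kap w.1 w.2) else 0) = ((mob F L : ℚ) : ℂ) *
        (if ∀ s ∈ L, Cs B m w.1 w.2 s then z (SO.kap w.1 w.2) else 0) := by
      intro w
      have h5 : (pL L = a ∧ L ⊆ tau B m σ a w) ↔ ∀ s ∈ L, Cs B m w.1 w.2 s := by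
        constructor
        · rintro ⟨-, h⟩ s hs
          exact (h hs).2.2
        · intro h
          refine ⟨hL.1, fun s hs => ⟨?_, hL.2 s hs, h s hs⟩⟩
          rw [← hL.1]
          exact p_mem hs
      by_cases h6 : ∀ s ∈ L, Cs B m w.1 w.2 s
      · rw [if_pos (h5.2 h6), if_pos h6]
      · rw [if_neg (fun h => h6 (h5.1 h)), if_neg h6, mul_zero]
    rw [Finset.sum_congr rfl fun w _ => h4 w, ← Finset.mul_sum]
    ring
  · have h3 : (if L ∈ {L : Set (SO.SS n V₀) | pL L = a ∧ ∀ s ∈ L, σ s.2.2.2 = s.2.2.1} then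
        ((mob F L : ℚ) : ℂ) * HX B m a z L else 0) = 0 := if_neg hL
    rw [h3]
    symm
    rw [Finset.sum_eq_zero, mul_zero]
    intro w _
    rw [if_neg]
    rintro ⟨h4, h5⟩
    exact hL ⟨h4, fun s hs => (h5 hs).2.1⟩

/-- the type of a pair is free iff the pair is not in `C a` -/
theorem fre_tau {ℓ : ℕ} [Fact ℓ.Prime] (B : Bk (FF M) V₀ G)
    (m : ℕ) (σ : MulAut V₀) {a : Subgroup V₀} (ha : Nat.card a = ℓ) (hn : 0 < n) (w : G × G) :
    Fre (tau B m σ a w : Set (SO.SS n V₀)) ↔ ¬ (w.1 ∈ B.C a ∧ w.2 ∈ B.C a) := by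
  have ha1 : a ≠ ⊥ := by
    intro h
    rw [h, Subgroup.card_bot] at ha
    exact (Fact.out : ℓ.Prime).one_lt.ne ha
  have hmem : ∀ z : G, z ∈ B.C a ↔ ∀ p ∈ a, B.i p * z = z * B.i p := by
    intro z
    unfold Bk.C
    rw [Subgroup.mem_centralizer_iff]
    constructor
    · intro h p hp
      exact h _ ⟨p, hp, rfl⟩
    · rintro h _ ⟨p, hp, rfl⟩
      exact h p hp
  constructor
  · rintro hF ⟨h1, h2⟩
    obtain ⟨p, hp1⟩ := Subgroup.ne_bot_iff_exists_ne_one.1 ha1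
    have hp : (p : V₀) ∈ a := p.2
    have hmt : ((⟨0, hn⟩, ⟨0, hn⟩, (p : V₀), σ⁻¹ p) : SO.SS n V₀) ∈ (tau B m σ a w) := by
      refine ⟨hp, MulAut.apply_inv_self _ σ _, ?_, ?_⟩
      · show ((SO.kap w.1 w.2 ^ m) ^ 0 * B.i p) * w.1 = w.1 * ((SO.kap w.1 w.2 ^ m) ^ 0 * B.i p)
        rw [pow_zero, one_mul]
        exact (hmem w.1).1 h1 p hp
      · show w.2⁻¹ * ((SO.kap w.1 w.2 ^ m) ^ 0 * B.i p) * w.2 =
          (SO.kap w.1 w.2 ^ m) ^ 0 * B.i p * (w.1 ^ m) ^ 0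
        rw [pow_zero, pow_zero, one_mul, mul_one, mul_assoc, (hmem w.2).1 h2 p hp,
          inv_mul_cancel_left]
    have h3 := (hF _ hmt rfl rfl).1
    exact hp1 (Subtype.ext h3)
  · intro h s hs h1 h2
    obtain ⟨hp, hq, hc1, hc2⟩ := hs
    rw [h2, pow_zero, one_mul] at hc1
    rw [h1, h2, pow_zero, pow_zero, one_mul, mul_one] at hc2
    have hp1 : s.2.2.1 = 1 := by
      by_contra hne
      apply h
      have hz : Subgroup.zpowers s.2.2.1 = a := by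
        have hle : Subgroup.zpowers s.2.2.1 ≤ a := by
          rw [Subgroup.zpowers_le]
          exact hp
        refine Subgroup.eq_of_le_of_card_ge hle ?_
        have hd : Nat.card (Subgroup.zpowers s.2.2.1) = 1 ∨
            Nat.card (Subgroup.zpowers s.2.2.1) = ℓ := by
          refine (Nat.dvd_prime (Fact.out : ℓ.Prime)).1 ?_
          rw [← ha]
          exact Subgroup.card_dvd_of_le hle
        rcases hd with h3 | h3
        · exfalso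
          have h4 : Subgroup.zpowers s.2.2.1 = ⊥ := Subgroup.card_eq_one.1 h3
          exact hne (Subgroup.zpowers_eq_bot.1 h4)
        · rw [ha, h3]
      have hall : ∀ x : G, B.i s.2.2.1 * x = x * B.i s.2.2.1 → x ∈ B.C a := by
        intro x hx
        rw [hmem]
        intro p hpa
        rw [← hz] at hpa
        obtain ⟨k, rfl⟩ := Subgroup.mem_zpowers_iff.1 hpa
        rw [map_zpow]
        have h5 : Commute (B.i s.2.2.1) x := hx
        exact h5.zpow_left k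
      refine ⟨hall _ hc1, hall _ ?_⟩
      rw [mul_assoc] at hc2
      have h6 := congrArg (fun t => w.2 * t) hc2
      simp only [mul_inv_cancel_left] at h6
      exact h6
    refine ⟨hp1, ?_⟩
    rw [hp1] at hq
    exact (MulEquiv.map_eq_one_iff σ).1 hq

end fws

section frob

variable {V₀ G : Type} [CommGroup V₀] [Group G] [Fintype G]
  {M : Ideal (integralClosure ℤ ℂ)} [M.IsMaximal]

/-- the sum over the commutators of a subgroup -/
theorem kap_sum (H : Subgroup G) (z : G → ℂ) [Fintype H] [Fintype (Irr H)] :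
    ∑ w : H × H, z (SO.kap (w.1 : G) (w.2 : G)) =
      (Nat.card H : ℂ) * ∑ θ : Irr H, (∑ g : H, z g * (θ : H → ℂ) g) / (θ : H → ℂ) 1 := by
  classical
  have h1 : ∀ g : H, (∑ w : H × H, if w.1 * w.2 * w.1⁻¹ * w.2⁻¹ = g then (1 : ℂ) else 0) =
      ∑ θ : Irr H, (Nat.card H : ℂ) * ((θ : H → ℂ) g / (θ : H → ℂ) 1) := by
    intro g
    rw [← SO.H65.frobS g, Nat.card_eq_fintype_card, Fintype.card_subtype, Finset.card_filter,
      Nat.cast_sum]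
    refine Finset.sum_congr rfl fun w _ => ?_
    split_ifs
    · rw [Nat.cast_one]
    · rw [Nat.cast_zero]
  have h2 : ∀ w : H × H, z (SO.kap (w.1 : G) (w.2 : G)) =
      ∑ g : H, z g * (if w.1 * w.2 * w.1⁻¹ * w.2⁻¹ = g then (1 : ℂ) else 0) := by
    intro w
    simp only [mul_ite, mul_one, mul_zero]
    rw [Finset.sum_ite_eq, if_pos (Finset.mem_univ _)]
    rfl
  rw [Finset.sum_congr rfl fun w _ => h2 w, Finset.sum_comm]
  have h3 : ∀ g : H, ∑ w : H × H, z g * (if w.1 * w.2 * w.1⁻¹ * w.2⁻¹ = g then (1 : ℂ) else 0) =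
      ∑ θ : Irr H, (Nat.card H : ℂ) * (z g * (θ : H → ℂ) g / (θ : H → ℂ) 1) := by
    intro g
    rw [← Finset.mul_sum, h1, Finset.mul_sum]
    refine Finset.sum_congr rfl fun θ _ => ?_
    ring
  rw [Finset.sum_congr rfl fun g _ => h3 g, Finset.sum_comm, Finset.mul_sum]
  refine Finset.sum_congr rfl fun θ _ => ?_
  rw [← Finset.mul_sum, Finset.sum_div]

theorem ext_sum (H : Subgroup G) [Fintype H] (z : G → ℂ) (χ : G → ℂ) (h : ∀ g, g ∉ H → χ g = 0) :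
    ∑ g : G, z g * χ g = ∑ g : H, z g * χ g := by
  classical
  have h1 : ∑ g : H, z g * χ g = ∑ g ∈ Finset.univ.filter (fun g : G => g ∈ H), z g * χ g := by
    rw [← Finset.sum_subtype (Finset.univ.filter (fun g : G => g ∈ H)) (fun x => by simp)
      (fun g => z g * χ g)]
  rw [h1]
  symm
  refine Finset.sum_subset (Finset.filter_subset _ _) fun g _ hg => ?_
  rw [h g (fun h' => hg (Finset.mem_filter.2 ⟨Finset.mem_univ _, h'⟩)), mul_zero]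

/-- the sum of the central characters over the block as the sum over all characters -/
theorem ch_sum (B : Bk (FF M) V₀ G) (a : Subgroup V₀) (z : G → ℂ) (hz : Cz B a z)
    [Fintype (B.C a)] [Fintype (Irr (B.C a))] :
    ∑ᶠ χ ∈ Ch B a, cv z χ =
      ∑ θ : Irr (B.C a), (∑ g : B.C a, z g * (θ : B.C a → ℂ) g) / (θ : B.C a → ℂ) 1 := by
  classical
  let A : Set (G → ℂ) := {χ | (∀ g, g ∉ B.C a → χ g = 0) ∧
    (fun t : B.C a => χ t) ∈ Irr (B.C a)}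
  have hsub : Ch B a ⊆ A := fun χ hχ => ⟨hχ.1, hχ.2.1⟩
  have h1 : ∑ᶠ χ ∈ Ch B a, cv z χ = ∑ᶠ χ ∈ A, cv z χ := by
    rw [finsum_mem_def, finsum_mem_def]
    refine finsum_congr fun χ => ?_
    by_cases h : χ ∈ Ch B a
    · rw [Set.indicator_of_mem h, Set.indicator_of_mem (hsub h)]
    · rw [Set.indicator_of_notMem h]
      by_cases h' : χ ∈ A
      · rw [Set.indicator_of_mem h', hz.blk χ h'.1 h'.2 h]
      · rw [Set.indicator_of_notMem h']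
  have h2 : ∑ᶠ θ ∈ Irr (B.C a), (∑ g : B.C a, z g * θ g) / θ 1 = ∑ᶠ χ ∈ A, cv z χ := by
    refine finsum_mem_eq_of_bijOn (fun θ => PP.ext0 (B.C a) θ) ⟨?_, ?_, ?_⟩ ?_
    · intro θ hθ
      refine ⟨fun g hg => ?_, ?_⟩
      · show PP.ext0 (B.C a) θ g = 0
        unfold PP.ext0
        exact dif_neg hg
      · have h3 : (fun t : B.C a => PP.ext0 (B.C a) θ t) = θ := by
          funext t
          unfold PP.ext0
          rw [dif_pos t.2]
        show (fun t : B.C a => PP.ext0 (B.C a) θ t) ∈ Irr (B.C a)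
        rw [h3]
        exact hθ
    · intro θ _ θ' _ h
      funext t
      have h3 : PP.ext0 (B.C a) θ t = PP.ext0 (B.C a) θ' t := congrFun h t
      unfold PP.ext0 at h3
      rw [dif_pos t.2, dif_pos t.2] at h3
      exact h3
    · intro χ hχ
      refine ⟨fun t => χ t, hχ.2, ?_⟩
      funext g
      show PP.ext0 (B.C a) (fun t => χ t) g = χ g
      unfold PP.ext0
      by_cases hg : g ∈ B.C a
      · rw [dif_pos hg]
      · rw [dif_neg hg, hχ.1 g hg]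
    · intro θ _
      unfold cv
      rw [finsum_eq_sum_of_fintype, ext_sum (B.C a) z (PP.ext0 (B.C a) θ) (fun g hg => by
        unfold PP.ext0
        exact dif_neg hg)]
      have h3 : ∀ t : B.C a, PP.ext0 (B.C a) θ t = θ t := by
        intro t
        unfold PP.ext0
        rw [dif_pos t.2]
      have h4 : PP.ext0 (B.C a) θ 1 = θ 1 := h3 1
      rw [h4]
      congr 1
      refine Finset.sum_congr rfl fun g _ => ?_
      rw [h3]
  rw [h1, ← h2, ← finsum_set_coe_eq_finsum_mem (s := Irr (B.C a))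
    (f := fun θ : B.C a → ℂ => (∑ g : B.C a, z g * θ g) / θ 1), finsum_eq_sum_of_fintype]

end frob

/-- Row FT3. -/
theorem ft3 : Ft3Stmt := by
  intro ℓ _ M _ hM hℓ V₀ G _ _ _ _ E₀ hq B hB n m hPE a ha σ hσ δ z hz
  classical
  have hfG : Fintype G := Fintype.ofFinite G
  have : Fintype (Irr (B.C a)) := Fintype.ofFinite _
  have hn : 0 < n := by
    obtain ⟨r, -, rfl⟩ := hPE.pw
    exact pow_pos (Fact.out : ℓ.Prime).pos r
  rw [fws_eq B m σ ha, ch_sum B a z hz]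
  have h1 : ∀ w : G × G, z (SO.kap w.1 w.2) *
      (((if Fre (tau B m σ a w : Set (SO.SS n V₀)) then δ else 0) -
        (if Fre (P1 (tau B m σ a w : Set (SO.SS n V₀))) then δ else 0) : ℚ) : ℂ) =
      -(δ : ℂ) * (if w.1 ∈ B.C a ∧ w.2 ∈ B.C a then z (SO.kap w.1 w.2) else 0) := by
    intro w
    rw [if_pos (fre_P1 (σ := σ) (fun s hs => hs.2.1) :
      Fre (P1 (tau B m σ a w : Set (SO.SS n V₀))))]
    by_cases h : w.1 ∈ B.C a ∧ w.2 ∈ B.C a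
    · rw [if_neg (fun h' => (fre_tau B m σ ha hn w).1 h' h), if_pos h]
      push_cast
      ring
    · rw [if_pos ((fre_tau B m σ ha hn w).2 h), if_neg h]
      push_cast
      ring
  rw [Finset.sum_congr rfl fun w _ => h1 w, ← Finset.mul_sum]
  have h2 : ∑ w : G × G, (if w.1 ∈ B.C a ∧ w.2 ∈ B.C a then z (SO.kap w.1 w.2) else 0) =
      ∑ w : B.C a × B.C a, z (SO.kap (w.1 : G) (w.2 : G)) := by
    rw [Fintype.sum_prod_type, Fintype.sum_prod_type]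
    have e1 : ∀ f : G → ℂ, ∑ x : B.C a, f x = ∑ x : G, if x ∈ B.C a then f x else 0 := by
      intro f
      rw [← Finset.sum_filter]
      rw [← Finset.sum_subtype (Finset.univ.filter (fun g : G => g ∈ B.C a)) (fun x => by simp) f]
    rw [e1 (fun x => ∑ y : B.C a, z (SO.kap x (y : G)))]
    refine Finset.sum_congr rfl fun x _ => ?_
    by_cases hx : x ∈ B.C a
    · rw [if_pos hx, e1 (fun y => z (SO.kap x y))]
      refine Finset.sum_congr rfl fun y _ => ?_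
      by_cases hy : y ∈ B.C a
      · rw [if_pos ⟨hx, hy⟩, if_pos hy]
      · rw [if_neg (fun h => hy h.2), if_neg hy]
    · rw [if_neg hx]
      refine Finset.sum_eq_zero fun y _ => ?_
      rw [if_neg (fun h => hx h.1)]
  rw [h2, kap_sum (B.C a) z]
  have h3 : (Nat.card (B.C a) : ℂ) ≠ 0 := Nat.cast_ne_zero.2 Nat.card_pos.ne'
  field_simp

end Pool.Agent.PP.SE.H47
end
end -- Pool.Agent.Helper47_ASE.FT3

section -- Pool.Agent.Helper47_ASE.HXY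

/-!
# Squad ASE, row HXY: the sums `HX` in terms of `HY`
-/

open scoped BigOperators

set_option linter.unusedSectionVars false

noncomputable section

namespace Pool.Agent.PP.SE.H47

open Pool.Agent.Helper51_AWC Pool.Agent.Helper79_WRA Pool.Agent.PP Pool.Agent.PP.KF
open Pool.Agent.PP.K9 Pool.Agent.PP.K9.H97 Pool.Agent.PP.H75 Pool.Agent.PP.T3 Pool.Agent.PP.SO
open Pool.Agent.PP.SD

attribute [local instance] Ideal.Quotient.field

section cnds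

variable {V₀ G : Type} [CommGroup V₀] [Group G] {M : Ideal (integralClosure ℤ ℂ)} [M.IsMaximal]
  {n : ℕ}

/-- the number of the pairs in `HY` -/
def cny (B : Bk (FF M) V₀ G) (m : ℕ) (T : Set (V₀ × ℕ)) (g : G) : ℂ :=
  ({w : G × G | SO.kap w.1 w.2 = g ∧ ∀ t ∈ T,
    B.i t.1 * w.1 = w.1 * B.i t.1 ∧ w.2⁻¹ * B.i t.1 * w.2 = B.i t.1 * (w.1 ^ m) ^ t.2}.ncard : ℂ)

theorem cny_le (B : Bk (FF M) V₀ G) (m : ℕ) (T : Set (V₀ × ℕ)) (z g : G)
    (hz : ∀ t ∈ T, z * B.i t.1 = B.i t.1 * z) (x y : G)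
    (h : SO.kap x y = g ∧ ∀ t ∈ T, B.i t.1 * x = x * B.i t.1 ∧
      y⁻¹ * B.i t.1 * y = B.i t.1 * (x ^ m) ^ t.2) :
    SO.kap (z * x * z⁻¹) (z * y * z⁻¹) = z * g * z⁻¹ ∧ ∀ t ∈ T,
      B.i t.1 * (z * x * z⁻¹) = z * x * z⁻¹ * B.i t.1 ∧
      (z * y * z⁻¹)⁻¹ * B.i t.1 * (z * y * z⁻¹) = B.i t.1 * ((z * x * z⁻¹) ^ m) ^ t.2 := by
  refine ⟨?_, fun t ht => ?_⟩
  · rw [← h.1]
    unfold SO.kap
    group
  · obtain ⟨h1, h2⟩ := h.2 t ht
    have hp : B.i t.1 = z * B.i t.1 * z⁻¹ := by rw [hz t ht]; group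
    constructor
    · calc B.i t.1 * (z * x * z⁻¹) = z * B.i t.1 * z⁻¹ * (z * x * z⁻¹) := by rw [← hp]
        _ = z * (B.i t.1 * x) * z⁻¹ := by group
        _ = z * x * z⁻¹ * (z * B.i t.1 * z⁻¹) := by rw [h1]; group
        _ = z * x * z⁻¹ * B.i t.1 := by rw [← hp]
    · rw [conj_pow, conj_pow]
      calc (z * y * z⁻¹)⁻¹ * B.i t.1 * (z * y * z⁻¹) =
          (z * y * z⁻¹)⁻¹ * (z * B.i t.1 * z⁻¹) * (z * y * z⁻¹) := by rw [← hp]
        _ = z * (y⁻¹ * B.i t.1 * y) * z⁻¹ := by group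
        _ = z * B.i t.1 * z⁻¹ * (z * (x ^ m) ^ t.2 * z⁻¹) := by rw [h2]; group
        _ = B.i t.1 * (z * (x ^ m) ^ t.2 * z⁻¹) := by rw [← hp]

theorem cny_conj (B : Bk (FF M) V₀ G) (m : ℕ) (T : Set (V₀ × ℕ)) (z g : G)
    (hz : ∀ t ∈ T, z * B.i t.1 = B.i t.1 * z) : cny B m T (z * g * z⁻¹) = cny B m T g := by
  unfold cny
  have hinj : Function.Injective (fun w : G × G => (z * w.1 * z⁻¹, z * w.2 * z⁻¹)) := by
    intro a b hab
    rw [Prod.mk.injEq, mul_left_inj, mul_right_inj, mul_left_inj, mul_right_inj] at hab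
    exact Prod.ext hab.1 hab.2
  rw [← Set.ncard_image_of_injective {w : G × G | SO.kap w.1 w.2 = g ∧ ∀ t ∈ T,
    B.i t.1 * w.1 = w.1 * B.i t.1 ∧ w.2⁻¹ * B.i t.1 * w.2 = B.i t.1 * (w.1 ^ m) ^ t.2} hinj]
  congr 2
  ext w
  constructor
  · intro h
    have hz' : ∀ t ∈ T, z⁻¹ * B.i t.1 = B.i t.1 * z⁻¹ := by
      intro t ht
      have h1 : Commute z (B.i t.1) := hz t ht
      exact h1.inv_left
    have h3 := cny_le B m T z⁻¹ (z * g * z⁻¹) hz' w.1 w.2 h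
    rw [inv_inv] at h3
    refine ⟨(z⁻¹ * w.1 * z, z⁻¹ * w.2 * z), ⟨?_, h3.2⟩, ?_⟩
    · show SO.kap (z⁻¹ * w.1 * z) (z⁻¹ * w.2 * z) = g
      rw [h3.1]
      group
    · refine Prod.ext ?_ ?_
      · show z * (z⁻¹ * w.1 * z) * z⁻¹ = w.1
        group
      · show z * (z⁻¹ * w.2 * z) * z⁻¹ = w.2
        group
  · rintro ⟨v, h, rfl⟩
    exact cny_le B m T z g hz v.1 v.2 h

/-- the conditions for `L` and for `TL κ L` -/
theorem cny_TL (B : Bk (FF M) V₀ G) (m : ℕ) (κ : V₀) (L : Set (SO.SS n V₀)) (g : G) :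
    cny B m (TL κ L) g = ({w : G × G | SO.kap w.1 w.2 = g ∧ ∀ s ∈ L,
        B.i (κ ^ (s.2.1 : ℕ) * s.2.2.1) * w.1 = w.1 * B.i (κ ^ (s.2.1 : ℕ) * s.2.2.1) ∧
        w.2⁻¹ * B.i (κ ^ (s.2.1 : ℕ) * s.2.2.1) * w.2 =
          B.i (κ ^ (s.2.1 : ℕ) * s.2.2.1) * (w.1 ^ m) ^ (s.1 : ℕ)}.ncard : ℂ) := by
  unfold cny
  congr 2
  ext w
  refine and_congr_right fun _ => ?_
  constructor
  · intro h s hs
    exact h _ ⟨s, hs, rfl⟩
  · rintro h t ⟨s, hs, rfl⟩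
    exact h s hs

theorem cnt_eq (B : Bk (FF M) V₀ G) (m : ℕ) (κ : V₀) (L : Set (SO.SS n V₀)) (g : G)
    (hg : g ^ m = B.i κ) : cnt B m L g = cny B m (TL κ L) g := by
  rw [cny_TL]
  unfold cnt
  congr 2
  ext w
  refine and_congr_right fun _ => forall₂_congr fun s _ => ?_
  rw [hg, ← map_pow, ← map_mul]

end cnds

section main

variable {V₀ G : Type} [CommGroup V₀] [Group G] [Finite G] {M : Ideal (integralClosure ℤ ℂ)}
  [M.IsMaximal] {n : ℕ}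

theorem bh_sing (wbo : WboStmt) (ℓ : ℕ) [Fact ℓ.Prime] (hM : (ℓ : integralClosure ℤ ℂ) ∈ M)
    {E₀ : Subgroup (MulAut V₀)} {B : Bk (FF M) V₀ G} (hB : Sb ℓ M E₀ B) (W : Subgroup V₀) (s : G)
    (hs : ¬ Reg ℓ s) : bh B W s = 0 := by
  classical
  have := Fintype.ofFinite (B.C W)
  unfold bh PP.ext0
  by_cases h : s ∈ B.C W
  · rw [dif_pos h]
    refine K9.H25.eh_sing wbo ℓ M hM (fun t : B.C W => B.b W t) (hB.lb W).blk.blk.1 ⟨s, h⟩ ?_
    intro h1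
    apply hs
    have h2 : orderOf (⟨s, h⟩ : B.C W) = orderOf s := by
      rw [← Subgroup.orderOf_coe]
    have h3 : (orderOf (⟨s, h⟩ : B.C W)).Coprime ℓ := h1
    show (orderOf s).Coprime ℓ
    rw [← h2]
    exact h3
  · rw [dif_neg h]

theorem pow_m {ℓ : ℕ} [Fact ℓ.Prime] {E₀ : Subgroup (MulAut V₀)} (hq : Fq ℓ V₀ E₀)
    {B : Bk (FF M) V₀ G} {m : ℕ} (hPE : PE ℓ n m G) {W : Subgroup V₀} {κ : V₀} (hκ : κ ∈ W) {t : G}
    (ht : t ∈ B.C W) (hr : Reg ℓ t) : (B.i κ * t) ^ m = B.i κ := by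
  have hcom : Commute (B.i κ) t := ((H63.mem_C B W t).1 ht κ hκ).symm
  have hel : El ℓ (B.i κ) := ⟨1, by rw [pow_one, ← map_pow, hq.ex, map_one]⟩
  rw [hcom.mul_pow, (hPE.el _ hel).1, hPE.rg t hr, mul_one]

theorem sup_aL (κ : V₀) (L : Set (SO.SS n V₀)) :
    aL κ L ⊔ Subgroup.zpowers κ = pL L ⊔ Subgroup.zpowers κ := by
  apply le_antisymm
  · refine sup_le ?_ le_sup_right
    unfold aL
    rw [Subgroup.closure_le]
    rintro _ ⟨s, hs, rfl⟩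
    refine Subgroup.mul_mem _ ?_ ?_
    · exact Subgroup.pow_mem _ ((le_sup_right : Subgroup.zpowers κ ≤ _)
        (Subgroup.mem_zpowers κ)) _
    · exact (le_sup_left : pL L ≤ _) (Subgroup.subset_closure ⟨s, hs, rfl⟩)
  · refine sup_le ?_ le_sup_right
    unfold pL
    rw [Subgroup.closure_le]
    rintro _ ⟨s, hs, rfl⟩
    have h1 : κ ^ (s.2.1 : ℕ) * s.2.2.1 ∈ aL κ L ⊔ Subgroup.zpowers κ :=
      (le_sup_left : aL κ L ≤ _) (Subgroup.subset_closure ⟨s, hs, rfl⟩)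
    have h2 : κ ^ (s.2.1 : ℕ) ∈ aL κ L ⊔ Subgroup.zpowers κ :=
      Subgroup.pow_mem _ ((le_sup_right : Subgroup.zpowers κ ≤ _) (Subgroup.mem_zpowers κ)) _
    have h3 := Subgroup.mul_mem _ (Subgroup.inv_mem _ h2) h1
    rwa [inv_mul_cancel_left] at h3

theorem hxy_of (wbo : WboStmt) {ℓ : ℕ} [Fact ℓ.Prime] (hM : (ℓ : integralClosure ℤ ℂ) ∈ M)
    {E₀ : Subgroup (MulAut V₀)} (hq : Fq ℓ V₀ E₀) {B : Bk (FF M) V₀ G} (hB : Sb ℓ M E₀ B)
    {m : ℕ} (hPE : PE ℓ n m G) (L : Set (SO.SS n V₀)) (κ : V₀) :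
    HX B m (pL L) (fc B (pL L) κ) L = HK B m κ L ∧
    HK B m κ L = HY B m (aL κ L) (fc B (aL κ L) κ) (TL κ L) ∧
    ∀ (W : Subgroup V₀) (f : G → ℂ), κ ∈ W → (∀ g, g ∉ B.C W → f g = 0) →
      (∀ g, ¬ Reg ℓ g → f g = 0) → HX B m W (tk B κ f) L = HY B m W (tk B κ f) (TL κ L) := by
  classical
  have hfG : Fintype G := Fintype.ofFinite G
  have hκW : ∀ W : Subgroup V₀, κ ∈ W ⊔ Subgroup.zpowers κ := fun W =>
    (le_sup_right : Subgroup.zpowers κ ≤ _) (Subgroup.mem_zpowers κ)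
  refine ⟨?_, ?_, fun W f hκ hf hf' => ?_⟩
  · -- (1)
    have hR : ∀ z ∈ B.C (pL L), ∀ g, cnt B m L (z * g * z⁻¹) = cnt B m L g := fun z hz g =>
      H63.rk_conj m B.i L z g ((H63.mem_pL B L z).1 hz)
    have h1 := H63.fc_avg B (pL L) κ (cnt B m L) hR
    rw [hx_def, finsum_eq_sum_of_fintype, h1, ← mul_assoc, ← mul_assoc,
      inv_mul_cancel₀ (H63.card_ne (B.C (pL L))), one_mul]
    unfold HK
    rw [sup_aL, finsum_eq_sum_of_fintype]
    congr 1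
    refine Finset.sum_congr rfl fun t _ => ?_
    by_cases hb : bh B (pL L ⊔ Subgroup.zpowers κ) t = 0
    · rw [hb, zero_mul, zero_mul]
    have ht : t ∈ B.C (pL L ⊔ Subgroup.zpowers κ) := by
      by_contra h
      exact hb (H63.bh_supp B _ t h)
    have hr : Reg ℓ t := by
      by_contra h
      exact hb (bh_sing wbo ℓ hM hB _ t h)
    rw [cnt_eq B m κ L (B.i κ * t) (pow_m hq hPE (hκW _) ht hr), cny_TL]
  · -- (2)
    have hR : ∀ z ∈ B.C (aL κ L), ∀ g, cny B m (TL κ L) (z * g * z⁻¹) = cny B m (TL κ L) g := by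
      intro z hz g
      refine cny_conj B m (TL κ L) z g ?_
      rintro t ⟨s, hs, rfl⟩
      exact (H63.mem_C B (aL κ L) z).1 hz _ (Subgroup.subset_closure ⟨s, hs, rfl⟩)
    have h1 := H63.fc_avg B (aL κ L) κ (cny B m (TL κ L)) hR
    have h2 : HY B m (aL κ L) (fc B (aL κ L) κ) (TL κ L) = (Nat.card (B.C (aL κ L)) : ℂ)⁻¹ *
        ∑ g, fc B (aL κ L) κ g * cny B m (TL κ L) g := by
      unfold HY
      rw [finsum_eq_sum_of_fintype]
      rfl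
    rw [h2, h1, ← mul_assoc, ← mul_assoc, inv_mul_cancel₀ (H63.card_ne (B.C (aL κ L))), one_mul]
    unfold HK
    rw [finsum_eq_sum_of_fintype]
    congr 1
    refine Finset.sum_congr rfl fun t _ => ?_
    rw [cny_TL]
  · -- (3)
    unfold HX HY
    congr 1
    refine finsum_congr fun g => ?_
    by_cases h0 : tk B κ f g = 0
    · rw [h0, zero_mul, zero_mul]
    have h1 : f ((B.i κ)⁻¹ * g) ≠ 0 := h0
    have ht : (B.i κ)⁻¹ * g ∈ B.C W := by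
      by_contra h
      exact h1 (hf _ h)
    have hr : Reg ℓ ((B.i κ)⁻¹ * g) := by
      by_contra h
      exact h1 (hf' _ h)
    have h2 := pow_m hq hPE hκ ht hr
    rw [mul_inv_cancel_left] at h2
    congr 1
    exact cnt_eq B m κ L g h2

end main

/-- Row HXY. -/
theorem hxy : HxyStmt := by
  intro ℓ _ M _ hM V₀ G _ _ _ _ E₀ hq B hB n m hPE L κ
  exact hxy_of (K9.H82W.wbo (K9.H82.trb K9.H53.tra)) hM hq hB hPE L κ

end Pool.Agent.PP.SE.H47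
end
end -- Pool.Agent.Helper47_ASE.HXY

section -- Pool.Agent.Helper48_ASE.LT2

/-!
# Row LT2 of squad ASE: the total sum for two labels is integral
-/

open scoped BigOperators

set_option autoImplicit false

noncomputable section

namespace Pool.Agent.PP.SE.H48

open Pool.Agent.Helper51_AWC Pool.Agent.Helper79_WRA Pool.Agent.PP Pool.Agent.PP.KF
open Pool.Agent.PP.K9 Pool.Agent.PP.K9.H97 Pool.Agent.PP.H75 Pool.Agent.PP.T3 Pool.Agent.PP.SO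
open Pool.Agent.PP.SD

attribute [local instance] Ideal.Quotient.field

section

variable {V₀ G : Type} [CommGroup V₀] [Finite V₀] [Group G] [Finite G]
  {M : Ideal (integralClosure ℤ ℂ)} [M.IsMaximal]

open Classical in
theorem gen2 (B : Bk (FF M) V₀ G) {n k k' : ℕ} (κ κ' : V₀) (α β : Subgroup V₀ → G → ℂ)
    (P : Fin k → Subgroup V₀) (w : Fin k → G → ℂ) (P' : Fin k' → Subgroup V₀)
    (w' : Fin k' → G → ℂ)
    (hw : ∀ (W : Subgroup V₀) (N : G → ℂ), (∀ z ∈ B.C W, ∀ g, N (z * g * z⁻¹) = N g) →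
      ∑ j, (if W ≤ P j then ∑ᶠ s : G, w j s * N (B.i κ * s) else 0) =
        (Nat.card (B.C W) : ℂ)⁻¹ * ∑ᶠ g : G, α W g * N g)
    (hw' : ∀ (W : Subgroup V₀) (N : G → ℂ), (∀ z ∈ B.C W, ∀ g, N (z * g * z⁻¹) = N g) →
      ∑ j, (if W ≤ P' j then ∑ᶠ s : G, w' j s * N (B.i κ' * s) else 0) =
        (Nat.card (B.C W) : ℂ)⁻¹ * ∑ᶠ g : G, β W g * N g)
    {Cd : G → G → G → G → SO.SS n V₀ → Prop} (hC : SO.H62.Iv B.i Cd) (L : Set (SO.SS n V₀)) :
    ∑ j, ∑ j', (if pL L ≤ P j ∧ qL L ≤ P' j' then ∑ᶠ s : G × G, w j s.1 * w' j' s.2 *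
      (SO.H62.NN Cd (B.i κ * s.1) (B.i κ' * s.2) L : ℂ) else 0) =
    ((Nat.card (B.C (pL L)) : ℂ) * Nat.card (B.C (qL L)))⁻¹ *
      ∑ᶠ x : G × G, α (pL L) x.1 * β (qL L) x.2 * (SO.H62.NN Cd x.1 x.2 L : ℂ) := by
  have := Fintype.ofFinite G
  simp only [finsum_eq_sum_of_fintype] at hw hw' ⊢
  have h1 : ∀ h, ∑ j, (if pL L ≤ P j then ∑ s : G, w j s *
      (SO.H62.NN Cd (B.i κ * s) h L : ℂ) else 0) =
      (Nat.card (B.C (pL L)) : ℂ)⁻¹ * ∑ g : G, α (pL L) g * (SO.H62.NN Cd g h L : ℂ) := by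
    intro h
    refine hw (pL L) (fun g => (SO.H62.NN Cd g h L : ℂ)) (fun z hz g => ?_)
    show (SO.H62.NN Cd (z * g * z⁻¹) h L : ℂ) = SO.H62.NN Cd g h L
    rw [SO.H62.NN_one hC g h z L (fun σ hσ => SO.H62.comm_of_mem B hz
      (Subgroup.subset_closure ⟨σ, hσ, rfl⟩))]
  have h2 := hw' (qL L) (fun h => (Nat.card (B.C (pL L)) : ℂ)⁻¹ *
    ∑ g : G, α (pL L) g * (SO.H62.NN Cd g h L : ℂ)) (fun z hz h => by
      show _ * ∑ g : G, α (pL L) g * (SO.H62.NN Cd g (z * h * z⁻¹) L : ℂ) =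
        _ * ∑ g : G, α (pL L) g * (SO.H62.NN Cd g h L : ℂ)
      congr 1
      refine Finset.sum_congr rfl fun g _ => ?_
      rw [SO.H62.NN_two hC g h z L (fun σ hσ => SO.H62.comm_of_mem B hz
        (Subgroup.subset_closure ⟨σ, hσ, rfl⟩))])
  have h3 : ∀ j' : Fin k', ∑ j, (if pL L ≤ P j ∧ qL L ≤ P' j' then
      ∑ s : G × G, w j s.1 * w' j' s.2 *
        (SO.H62.NN Cd (B.i κ * s.1) (B.i κ' * s.2) L : ℂ) else 0) =
      if qL L ≤ P' j' then ∑ t : G, w' j' t * ((Nat.card (B.C (pL L)) : ℂ)⁻¹ *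
        ∑ g : G, α (pL L) g * (SO.H62.NN Cd g (B.i κ' * t) L : ℂ)) else 0 := by
    intro j'
    by_cases hq : qL L ≤ P' j'
    · rw [if_pos hq]
      have e1 : ∀ t : G, w' j' t * ((Nat.card (B.C (pL L)) : ℂ)⁻¹ *
          ∑ g : G, α (pL L) g * (SO.H62.NN Cd g (B.i κ' * t) L : ℂ)) =
          ∑ j, w' j' t * (if pL L ≤ P j then ∑ s : G, w j s *
            (SO.H62.NN Cd (B.i κ * s) (B.i κ' * t) L : ℂ) else 0) := by
        intro t
        rw [← h1 (B.i κ' * t), Finset.mul_sum]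
      rw [Finset.sum_congr rfl fun t _ => e1 t, Finset.sum_comm]
      refine Finset.sum_congr rfl fun j _ => ?_
      by_cases hp : pL L ≤ P j
      · rw [if_pos ⟨hp, hq⟩, Fintype.sum_prod_type, Finset.sum_comm]
        refine Finset.sum_congr rfl fun t _ => ?_
        rw [if_pos hp, Finset.mul_sum]
        refine Finset.sum_congr rfl fun s _ => ?_
        ring
      · rw [if_neg fun h => hp h.1]
        symm
        refine Finset.sum_eq_zero fun t _ => ?_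
        rw [if_neg hp, mul_zero]
    · rw [if_neg hq]
      refine Finset.sum_eq_zero fun j _ => ?_
      rw [if_neg fun h => hq h.2]
  rw [Finset.sum_comm, Finset.sum_congr rfl fun j' _ => h3 j', h2, Fintype.sum_prod_type,
    Finset.sum_comm, Finset.mul_sum, Finset.mul_sum]
  refine Finset.sum_congr rfl fun h _ => ?_
  rw [Finset.mul_sum, Finset.mul_sum, Finset.mul_sum, Finset.mul_sum]
  refine Finset.sum_congr rfl fun g _ => ?_
  rw [mul_inv]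
  ring

end

/-- row LT2 -/
theorem lt2 (hmbs : MbsStmt) (hfri : FriStmt) : Lt2Stmt := by
  classical
  intro ℓ _ M _ hM V₀ G _ _ _ _ B n m κ κ' α β hα hβ F₁₃ F₁₂ hRel
  obtain ⟨k, P, w, hF, hw⟩ := hα
  obtain ⟨k', P', w', hF', hw'⟩ := hβ
  have := Fintype.ofFinite (Set (SO.SS n V₀))
  have key : T2 B m α β F₁₃ F₁₂ =
      ∑ j, ∑ j', SFr B m (P j) κ (w j) (P' j') κ' (w' j') F₁₃ F₁₂ := by
    have h13 := gen2 (n := n) B κ κ' α β P w P' w' hw hw' (SO.H62.c13_iv (n := n) m B.i)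
    have h12 := gen2 (n := n) B κ κ' α β P w P' w' hw hw' (SO.H62.c12_iv (n := n) m B.i)
    have e1 : ∀ L : Set (SO.SS n V₀), ((mob F₁₃ L : ℚ) : ℂ) * X13 B m α β L +
        ((mob F₁₂ L : ℚ) : ℂ) * X12 B m α β L =
        ∑ j, ∑ j', if pL L ≤ P j ∧ qL L ≤ P' j' then
          (((mob F₁₃ L : ℚ) : ℂ) * ∑ᶠ s : G × G, w j s.1 * w' j' s.2 *
            {z : XX (B.i κ * s.1) (B.i κ' * s.2) | ∀ t ∈ L, c13 m B.i (B.i κ * s.1) z.1.1 z.1.2.1
              z.1.2.2 t.1 t.2.1 t.2.2.1 t.2.2.2}.ncard +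
          ((mob F₁₂ L : ℚ) : ℂ) * ∑ᶠ s : G × G, w j s.1 * w' j' s.2 *
            {z : XX (B.i κ * s.1) (B.i κ' * s.2) | ∀ t ∈ L, c12 m B.i z.1.1 z.1.2.1
              z.1.2.2 t.1 t.2.1 t.2.2.1 t.2.2.2}.ncard) else 0 := by
      intro L
      have a13 : X13 B m α β L = _ := (h13 L).symm
      have a12 : X12 B m α β L = _ := (h12 L).symm
      rw [a13, a12, Finset.mul_sum, Finset.mul_sum, ← Finset.sum_add_distrib]
      refine Finset.sum_congr rfl fun j _ => ?_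
      rw [Finset.mul_sum, Finset.mul_sum, ← Finset.sum_add_distrib]
      refine Finset.sum_congr rfl fun j' _ => ?_
      by_cases h : pL L ≤ P j ∧ qL L ≤ P' j'
      · rw [if_pos h, if_pos h, if_pos h]
        rfl
      · rw [if_neg h, if_neg h, if_neg h, mul_zero, mul_zero, add_zero]
    unfold T2
    rw [finsum_eq_sum_of_fintype, Finset.sum_congr rfl fun L _ => e1 L, Finset.sum_comm]
    refine Finset.sum_congr rfl fun j _ => ?_
    rw [Finset.sum_comm]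
    refine Finset.sum_congr rfl fun j' _ => ?_
    have hm := hmbs M V₀ G B n m (P j) (P' j') κ κ' (w j) (w' j') F₁₃ F₁₂
    rw [finsum_eq_sum_of_fintype] at hm
    rw [hm]
  rw [key]
  exact Subring.sum_mem _ fun j _ => Subring.sum_mem _ fun j' _ =>
    hfri ℓ M hM V₀ G B n m (P j) (P' j') κ κ' (w j) (w' j') (hF j) (hF' j') F₁₃ F₁₂ hRel

end Pool.Agent.PP.SE.H48
end
end -- Pool.Agent.Helper48_ASE.LT2

section -- Pool.Agent.Helper63_ASE.MBS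

open scoped BigOperators

noncomputable section

namespace Pool.Agent.PP.SE.H63

open Pool.Agent.Helper51_AWC Pool.Agent.Helper79_WRA Pool.Agent.PP Pool.Agent.PP.KF
open Pool.Agent.PP.K9 Pool.Agent.PP.K9.H97 Pool.Agent.PP.H75 Pool.Agent.PP.T3 Pool.Agent.PP.SO
open Pool.Agent.PP.SD

attribute [local instance] Ideal.Quotient.field

open Classical in
theorem mbs_gen (mbi : SO.MbiStmt) {M : Ideal (integralClosure ℤ ℂ)} [M.IsMaximal]
    {V₀ G : Type} [CommGroup V₀] [Finite V₀] [Group G] [Finite G] (B : Bk (FF M) V₀ G) {n : ℕ}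
    (P P' : Subgroup V₀) (κ κ' : V₀) (w w' : G → ℂ) (Cd : G → G → G → G → SO.SS n V₀ → Prop)
    (F : Set (SO.SS n V₀) → ℚ) :
    ∑ᶠ s : G × G, w s.1 * w' s.2 * ((∑ᶠ z : XX (B.i κ * s.1) (B.i κ' * s.2),
      F {σ | σ.2.2.1 ∈ P ∧ σ.2.2.2 ∈ P' ∧ Cd (B.i κ * s.1) z.1.1 z.1.2.1 z.1.2.2 σ} : ℚ) : ℂ) =
    ∑ᶠ L : Set (SO.SS n V₀), if pL L ≤ P ∧ qL L ≤ P' then
      ((mob F L : ℚ) : ℂ) * ∑ᶠ s : G × G, w s.1 * w' s.2 *
        (SO.H62.NN Cd (B.i κ * s.1) (B.i κ' * s.2) L : ℂ) else 0 := by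
  have := Fintype.ofFinite G
  have := Fintype.ofFinite (Set (SO.SS n V₀))
  rw [finsum_eq_sum_of_fintype]
  simp only [finsum_eq_sum_of_fintype (α := G × G), SO.H62.sum_types mbi Cd]
  rw [finsum_eq_sum_of_fintype]
  have e1 : ∀ s : G × G, w s.1 * w' s.2 *
      ((∑ L : Set (SO.SS n V₀), mob F L * (if pL L ≤ P ∧ qL L ≤ P' then
        (SO.H62.NN Cd (B.i κ * s.1) (B.i κ' * s.2) L : ℚ) else 0) : ℚ) : ℂ) =
      ∑ L : Set (SO.SS n V₀), if pL L ≤ P ∧ qL L ≤ P' then ((mob F L : ℚ) : ℂ) *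
        (w s.1 * w' s.2 * (SO.H62.NN Cd (B.i κ * s.1) (B.i κ' * s.2) L : ℂ)) else 0 := by
    intro s
    push_cast
    rw [Finset.mul_sum]
    refine Finset.sum_congr rfl fun L _ => ?_
    by_cases h : pL L ≤ P ∧ qL L ≤ P'
    · rw [if_pos h, if_pos h]
      push_cast
      ring
    · rw [if_neg h, if_neg h]
      push_cast
      ring
  rw [Finset.sum_congr rfl fun s _ => e1 s, Finset.sum_comm]
  refine Finset.sum_congr rfl fun L _ => ?_
  by_cases h : pL L ≤ P ∧ qL L ≤ P'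
  · rw [if_pos h, Finset.sum_congr rfl fun s _ => if_pos h, Finset.mul_sum]
  · rw [if_neg h, Finset.sum_congr rfl fun s _ => if_neg h, Finset.sum_const_zero]

theorem mbs (mbi : SO.MbiStmt) : MbsStmt := by
  intro M _ V₀ G _ _ _ _ B n m P P' κ κ' w w' F₁₃ F₁₂
  classical
  have h13 := mbs_gen mbi B P P' κ κ' w w' (fun g x y u (s : SO.SS n V₀) =>
    c13 m B.i g x y u s.1 s.2.1 s.2.2.1 s.2.2.2) F₁₃
  have h12 := mbs_gen mbi B P P' κ κ' w w' (fun _ x y u (s : SO.SS n V₀) =>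
    c12 m B.i x y u s.1 s.2.1 s.2.2.1 s.2.2.2) F₁₂
  have hL : SFr B m P κ w P' κ' w' F₁₃ F₁₂ =
      (∑ᶠ s : G × G, w s.1 * w' s.2 * ((∑ᶠ z : XX (B.i κ * s.1) (B.i κ' * s.2),
        F₁₃ (t13 n m B.i P P' (B.i κ * s.1) z.1.1 z.1.2.1 z.1.2.2) : ℚ) : ℂ)) +
      ∑ᶠ s : G × G, w s.1 * w' s.2 * ((∑ᶠ z : XX (B.i κ * s.1) (B.i κ' * s.2),
        F₁₂ (t12 n m B.i P P' z.1.1 z.1.2.1 z.1.2.2) : ℚ) : ℂ) := by
    unfold SFr
    rw [← finsum_add_distrib (Set.toFinite _) (Set.toFinite _)]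
    refine finsum_congr fun s => ?_
    rw [← mul_add]
    congr 1
    rw [← Rat.cast_add]
    congr 1
    exact finsum_add_distrib (Set.toFinite _) (Set.toFinite _)
  rw [hL]
  refine (congrArg₂ (· + ·) h13 h12).trans ?_
  show _ + _ = _
  rw [← finsum_add_distrib (Set.toFinite _) (Set.toFinite _)]
  refine finsum_congr fun L => ?_
  by_cases h : pL L ≤ P ∧ qL L ≤ P'
  · rw [if_pos h, if_pos h, if_pos h]
    rfl
  · rw [if_neg h, if_neg h, if_neg h, add_zero]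

end Pool.Agent.PP.SE.H63
end
end -- Pool.Agent.Helper63_ASE.MBS
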