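import Pool.Agent.Helper12_AWB.B172
import Pool.Agent.Helper12_AWB.B229

/-!
# Merged copies (generated) of the modules

* `Pool.Agent.Helper45_ASO.HSM`
* `Pool.Agent.Helper59_ASE.ETS`
* `Pool.Agent.Helper66_ASE.HSE`
* `Pool.Agent.Helper74_ASE.HSG`
* `Pool.Agent.Helper91_ASE.HTE`
-/

set_option autoImplicit false

section -- Pool.Agent.Helper45_ASO.HSM

/-!
# Squad ASO, row HSM: the relations for the linear algebra
-/

set_option autoImplicit false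

open scoped BigOperators

noncomputable section

namespace Pool.Agent.PP.SO.H45

open Pool.Agent.Helper51_AWC Pool.Agent.Helper79_WRA Pool.Agent.PP Pool.Agent.PP.KF
open Pool.Agent.PP.K9 Pool.Agent.PP.K9.H97 Pool.Agent.PP.H75 Pool.Agent.PP.T3
open Pool.Agent.PP.SO

attribute [local instance] Ideal.Quotient.field

/-! ### rational numbers in the local ring -/

theorem rat_RM {ℓ : ℕ} [Fact ℓ.Prime] {M : Ideal (integralClosure ℤ ℂ)} [M.IsMaximal]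
    (hM : (ℓ : integralClosure ℤ ℂ) ∈ M) {q : ℚ} (h : (q : ℂ) ∈ RM M) : q ∈ SOR.Rl ℓ := by
  have hℓ : ℓ.Prime := Fact.out
  show ¬ ℓ ∣ q.den
  intro hd
  have h1 : ((q.num : ℤ) : ℂ) = (q : ℂ) * ((q.den : ℕ) : ℂ) := by
    have h2 : (q.num : ℚ) = q * q.den := (Rat.mul_den_eq_num q).symm
    exact_mod_cast congrArg (fun x : ℚ => (x : ℂ)) h2
  have h3 : rr M ((q.den : ℕ) : ℂ) = 0 := by
    have h4 := (dvd_of_rr (M := M) hℓ hM (n := (q.den : ℤ))).2 (by exact_mod_cast hd)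
    exact_mod_cast h4
  have h5 : rr M ((q.num : ℤ) : ℂ) = 0 := by
    rw [h1, rr_mul h (rr_nat _).1, h3, mul_zero]
  have h6 : (ℓ : ℤ) ∣ q.num := (dvd_of_rr (M := M) hℓ hM).1 h5
  have h7 : ℓ ∣ q.num.natAbs := Int.natCast_dvd.1 h6
  have h8 : ℓ ∣ 1 := by
    have h9 := Nat.dvd_gcd h7 hd
    rwa [q.reduced] at h9
  exact hℓ.one_lt.ne' (Nat.dvd_one.1 h8)

/-- the rational numbers in `ℂ` -/
abbrev QC : Subfield ℂ := (Rat.castHom ℂ).fieldRange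

theorem mem_QC (q : ℚ) : (q : ℂ) ∈ QC := ⟨q, rfl⟩

theorem nat_QC (n : ℕ) : (n : ℂ) ∈ QC := natCast_mem _ n

/-! ### the row -/

section act

variable {V₀ : Type} [CommGroup V₀] [Finite V₀]

theorem cop {ℓ : ℕ} (hℓ : ℓ.Prime) (hV : Nat.card V₀ = ℓ ^ 2) {t : ℕ} (h1 : 1 ≤ t)
    (h2 : t ≤ ℓ - 1) : (Nat.card V₀).Coprime t := by
  rw [hV]
  refine Nat.Coprime.pow_left 2 ?_
  refine (hℓ.coprime_iff_not_dvd).2 fun hd => ?_
  have h3 := Nat.le_of_dvd (by omega) hd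
  have := hℓ.pos
  omega

theorem Es_pow {t : ℕ} (ht : (Nat.card V₀).Coprime t) (E₀ : Subgroup (MulAut V₀)) (c : V₀) :
    Es E₀ (c ^ t) = Es E₀ c := by
  refine Subgroup.ext fun σ => ?_
  show σ ∈ E₀ ∧ σ (c ^ t) = c ^ t ↔ σ ∈ E₀ ∧ σ c = c
  refine and_congr_right fun _ => ?_
  rw [map_pow]
  constructor
  · intro h
    exact (powCoprime ht).injective h
  · intro h
    rw [h]

end act

theorem hsm (hKb : HKbStmt) (hRat : HRatStmt) (hFro : HFroStmt) (hFpr : HFprStmt) (hTz : HTzStmt)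
    (hFce : HFceStmt) (hIxe : HIxeStmt) : HSmStmt := by
  intro ℓ _ M _ hM V₀ _ _ hex hV E₀ G _ _ B hB hreg
  classical
  have hℓ : ℓ.Prime := Fact.out
  have := Fintype.ofFinite V₀
  obtain ⟨c₀, hc₀⟩ := hreg
  obtain ⟨hfin, hpos, hle⟩ := hKb ℓ M hM V₀ hex hV E₀ G B hB c₀ hc₀
  obtain ⟨-, -, -, hix⟩ := hIxe ℓ M hM V₀ E₀ G B hB
  obtain ⟨-, hone⟩ := hFce ℓ M hM V₀ E₀ G B hB
  have hrat := hRat ℓ M hM V₀ hex E₀ G B hB
  set S : Finset (G → ℂ) := hfin.toFinset with hS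
  have hmem : ∀ χ, χ ∈ S ↔ χ ∈ IrrE M B.e := fun χ => hfin.mem_toFinset
  have eL1 : ∀ c, L1 B c = ∑ χ ∈ S, cv (fc B ⊥ c) χ := fun c =>
    finsum_mem_eq_finite_toFinset_sum _ hfin
  have eL2 : ∀ c d, L2 B c d = ∑ χ ∈ S, cv (fc B ⊥ c) χ * cv (fc B ⊥ d) χ := fun c d =>
    finsum_mem_eq_finite_toFinset_sum _ hfin
  have ecard : (IrrE M B.e).ncard = S.card := Set.ncard_eq_toFinset_card _ hfin
  refine ⟨⟨hle, hpos⟩, ?_, ?_⟩
  · intro c d hc hd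
    choose! qc hqc1 hqc2 using hrat c hc
    choose! qd hqd1 hqd2 using hrat d hd
    refine ⟨∑ χ ∈ S, qc χ * qd χ, Subring.sum_mem _ fun χ hχ =>
      (SOR.Rl ℓ).mul_mem (hqc1 χ ((hmem χ).1 hχ)) (hqd1 χ ((hmem χ).1 hχ)), ?_⟩
    have e1 : ∑ t ∈ Finset.Icc 1 (ℓ - 1), ∑ s ∈ Finset.Icc 1 (ℓ - 1), L2 B (c ^ t) (d ^ s) =
        ∑ χ ∈ S, (∑ t ∈ Finset.Icc 1 (ℓ - 1), cv (fc B ⊥ (c ^ t)) χ) *
          ∑ s ∈ Finset.Icc 1 (ℓ - 1), cv (fc B ⊥ (d ^ s)) χ := by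
      rw [Finset.sum_congr rfl fun t _ => Finset.sum_congr rfl fun s _ => eL2 (c ^ t) (d ^ s)]
      rw [Finset.sum_congr rfl fun t _ => Finset.sum_comm, Finset.sum_comm]
      refine Finset.sum_congr rfl fun χ _ => ?_
      rw [Finset.sum_mul_sum]
    have e2 : ∀ c : V₀, ∑ t ∈ Finset.Icc 1 (ℓ - 1), L1 B (c ^ t) =
        ∑ χ ∈ S, ∑ t ∈ Finset.Icc 1 (ℓ - 1), cv (fc B ⊥ (c ^ t)) χ := by
      intro c
      rw [Finset.sum_congr rfl fun t _ => eL1 (c ^ t), Finset.sum_comm]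
    have e3 : ((IrrE M B.e).ncard : ℂ) = ∑ χ ∈ S, (1 : ℂ) := by
      rw [ecard]
      simp
    rw [e1, e2 c, e2 d, e3, Finset.mul_sum, Finset.mul_sum, Finset.mul_sum,
      ← Finset.sum_add_distrib, ← Finset.sum_add_distrib, ← Finset.sum_add_distrib]
    rw [Rat.cast_mul, Rat.cast_sum, Finset.mul_sum]
    refine Finset.sum_congr rfl fun χ hχ => ?_
    rw [hqc2 χ ((hmem χ).1 hχ), hqd2 χ ((hmem χ).1 hχ)]
    push_cast
    ring
  · -- the sum over all elements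
    have hR : ∀ χ ∈ S, ∃ q ∈ SOR.Rl ℓ,
        ∑ c : V₀, (Nat.card (Es E₀ c) : ℂ) * cv (fc B ⊥ c) χ = ((ℓ ^ 2 * q : ℚ) : ℂ) := by
      intro χ hχ
      have hχ' := (hmem χ).1 hχ
      have hχI : χ ∈ Irr G := hχ'.1
      have hℓC : (ℓ : ℂ) ≠ 0 := by exact_mod_cast hℓ.ne_zero
      set R : ℂ := ∑ c : V₀, (Nat.card (Es E₀ c) : ℂ) * cv (fc B ⊥ c) χ with hRdef
      -- rational
      have hRQ : R ∈ QC := by
        have h1 : ∀ t ∈ Finset.Icc 1 (ℓ - 1),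
            ∑ c : V₀, (Nat.card (Es E₀ c) : ℂ) * cv (fc B ⊥ (c ^ t)) χ = R := by
          intro t ht
          have ht' := Finset.mem_Icc.1 ht
          have hc := cop hℓ hV ht'.1 ht'.2
          rw [hRdef, ← Equiv.sum_comp (powCoprime hc)
            fun c => (Nat.card (Es E₀ c) : ℂ) * cv (fc B ⊥ c) χ]
          refine Finset.sum_congr rfl fun c _ => ?_
          rw [powCoprime_apply, Es_pow hc]
        have h2 : ((ℓ - 1 : ℕ) : ℂ) * R = ∑ c : V₀, (Nat.card (Es E₀ c) : ℂ) *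
            ∑ t ∈ Finset.Icc 1 (ℓ - 1), cv (fc B ⊥ (c ^ t)) χ := by
          have h3 : ∑ t ∈ Finset.Icc 1 (ℓ - 1),
              ∑ c : V₀, (Nat.card (Es E₀ c) : ℂ) * cv (fc B ⊥ (c ^ t)) χ =
              ∑ t ∈ Finset.Icc 1 (ℓ - 1), R := Finset.sum_congr rfl h1
          rw [Finset.sum_const, Nat.card_Icc, Nat.add_sub_cancel, nsmul_eq_mul] at h3
          rw [← h3, Finset.sum_comm]
          refine Finset.sum_congr rfl fun c _ => ?_
          rw [Finset.mul_sum]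
        have h4 : ((ℓ - 1 : ℕ) : ℂ) * R ∈ QC := by
          rw [h2]
          refine Subfield.sum_mem _ fun c _ => QC.mul_mem (nat_QC _) ?_
          by_cases hc : c = 1
          · subst hc
            have h5 : ∀ t ∈ Finset.Icc 1 (ℓ - 1), cv (fc B ⊥ ((1 : V₀) ^ t)) χ = 1 := by
              intro t _
              rw [one_pow, hone χ hχ']
            rw [Finset.sum_congr rfl h5, Finset.sum_const, nsmul_eq_mul, mul_one]
            exact nat_QC _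
          · obtain ⟨q, -, hq⟩ := hrat c hc χ hχ'
            rw [hq]
            exact mem_QC _
        have h5 : ((ℓ - 1 : ℕ) : ℂ) ≠ 0 := by
          have : ℓ - 1 ≠ 0 := by
            have := hℓ.two_le
            omega
          exact_mod_cast this
        have h6 : R = ((ℓ - 1 : ℕ) : ℂ) * R / ((ℓ - 1 : ℕ) : ℂ) := by
          field_simp
        rw [h6]
        exact QC.div_mem h4 (nat_QC _)
      obtain ⟨ρ, hρ⟩ := hRQ
      have hρ' : (ρ : ℂ) = R := hρ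
      -- in the local ring
      have hRM : R / (ℓ : ℂ) ^ 2 ∈ RM M := by
        obtain ⟨x, y, hx, hy, hxy⟩ := hTz ℓ M hM V₀ hex hV E₀ G B hB c₀ hc₀ χ hχ'
        have h1 := hFro ℓ M hM G χ hχI
        rw [hFpr ℓ M hM V₀ E₀ G B hB χ hχ'] at h1
        have hG0 : Nat.card G ≠ 0 := Nat.card_pos.ne'
        set m : ℕ := Nat.card G / ℓ ^ (Nat.card G).factorization ℓ with hm
        have hm1 : lpG ℓ G * m = Nat.card G := Nat.ordProj_mul_ordCompl_eq_self (Nat.card G) ℓ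
        have hm2 : ¬ ℓ ∣ m := Nat.not_dvd_ordCompl hℓ hG0
        have hχ1 : χ 1 ≠ 0 := irr_one_ne hχI
        have hl0 : ((lpG ℓ G : ℕ) : ℂ) ≠ 0 := by
          have : lpG ℓ G ≠ 0 := by
            intro h
            rw [h, zero_mul] at hm1
            exact hG0 hm1.symm
          exact_mod_cast this
        have hm0 : (m : ℂ) ≠ 0 := by
          have : m ≠ 0 := by
            intro h
            rw [h] at hm2
            exact hm2 (dvd_zero _)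
          exact_mod_cast this
        have hy0 : (y : ℂ) ≠ 0 := by
          have : y ≠ 0 := by
            intro h
            rw [h] at hy
            exact hy (dvd_zero _)
          exact_mod_cast this
        rw [finsum_eq_sum_of_fintype] at h1
        set T : ℂ := ∑ c : V₀, cv (fc B ⊥ c) χ / (nE E₀ c : ℂ) with hT
        have hRT : R = (Nat.card E₀ : ℂ) * T := by
          rw [hRdef, hT, Finset.mul_sum]
          refine Finset.sum_congr rfl fun c _ => ?_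
          obtain ⟨-, hn, -, -⟩ := hix c
          have hE0 : Nat.card E₀ ≠ 0 := Nat.card_pos.ne'
          have hn0 : (nE E₀ c : ℂ) ≠ 0 := by
            have : nE E₀ c ≠ 0 := by
              intro h
              rw [h, zero_mul] at hn
              exact hE0 hn.symm
            exact_mod_cast this
          have hn' : (nE E₀ c : ℂ) * (Nat.card (Es E₀ c) : ℂ) = (Nat.card E₀ : ℂ) := by
            exact_mod_cast hn
          rw [← hn']
          field_simp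
        have hxy' : (y : ℂ) * ((lpG ℓ G : ℕ) * (m : ℂ)) = ℓ ^ 2 * χ 1 * x := by
          rw [← hxy, ← hm1]
          push_cast
          ring
        have h2 : R / (ℓ : ℂ) ^ 2 = (Nat.card E₀ : ℂ) * (χ 1 * T / ((lpG ℓ G : ℕ) : ℂ)) *
            (x : ℂ) * (y : ℂ)⁻¹ * (m : ℂ)⁻¹ := by
          rw [hRT]
          have h3 : (x : ℂ) = (y : ℂ) * ((lpG ℓ G : ℕ) * (m : ℂ)) / (ℓ ^ 2 * χ 1) := by
            rw [hxy']
            field_simp
          rw [h3]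
          field_simp
        rw [h2]
        refine (RM M).mul_mem ((RM M).mul_mem ((RM M).mul_mem ((RM M).mul_mem (rr_nat _).1 h1)
          (rr_nat _).1) (inv_nat_RM hℓ hM hy)) (inv_nat_RM hℓ hM hm2)
      refine ⟨ρ / (ℓ : ℚ) ^ 2, rat_RM hM ?_, ?_⟩
      · rw [← hρ'] at hRM
        push_cast
        exact hRM
      · rw [← hρ']
        have hℓQ : (ℓ : ℚ) ≠ 0 := by exact_mod_cast hℓ.ne_zero
        have h7 : (ℓ : ℚ) ^ 2 * (ρ / (ℓ : ℚ) ^ 2) = ρ := by field_simp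
        rw [h7]
    choose! q hq1 hq2 using hR
    refine ⟨∑ χ ∈ S, q χ, Subring.sum_mem _ hq1, ?_⟩
    rw [finsum_eq_sum_of_fintype]
    have h1 : ∑ c : V₀, (Nat.card (Es E₀ c) : ℂ) * L1 B c =
        ∑ χ ∈ S, ∑ c : V₀, (Nat.card (Es E₀ c) : ℂ) * cv (fc B ⊥ c) χ := by
      rw [Finset.sum_comm]
      refine Finset.sum_congr rfl fun c _ => ?_
      rw [eL1, Finset.mul_sum]
    rw [h1, Finset.sum_congr rfl hq2, Rat.cast_mul, Rat.cast_sum, Finset.mul_sum]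
    refine Finset.sum_congr rfl fun χ _ => ?_
    rw [Rat.cast_mul]

end Pool.Agent.PP.SO.H45
end
end -- Pool.Agent.Helper45_ASO.HSM

section -- Pool.Agent.Helper59_ASE.ETS

/-!
# Squad ASE, row ETS: the relations for the labels `et`
-/

set_option autoImplicit false

open scoped BigOperators

noncomputable section

namespace Pool.Agent.PP.SE.H59

open Pool.Agent.Helper51_AWC Pool.Agent.Helper79_WRA Pool.Agent.PP Pool.Agent.PP.KF
open Pool.Agent.PP.K9 Pool.Agent.PP.K9.H97 Pool.Agent.PP.H75 Pool.Agent.PP.T3 Pool.Agent.PP.SO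
open Pool.Agent.PP.SD

attribute [local instance] Ideal.Quotient.field

section aux

variable {V₀ G : Type} [CommGroup V₀] [Group G] {M : Ideal (integralClosure ℤ ℂ)} [M.IsMaximal]

omit [M.IsMaximal] in
theorem cv_mnl [Finite G] (E₀ : Subgroup (MulAut V₀)) (B : Bk (FF M) V₀ G) (c : V₀) (χ : G → ℂ) :
    cv (mnl E₀ B c ⊥) χ = (kE E₀ c : ℂ) * cv (fc B ⊥ c) χ := by
  have := Fintype.ofFinite G
  unfold cv mnl
  rw [finsum_eq_sum_of_fintype, finsum_eq_sum_of_fintype, if_pos bot_le, ← mul_div_assoc,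
    Finset.mul_sum]
  congr 1
  exact Finset.sum_congr rfl fun g _ => mul_assoc _ _ _

/-- the sum over a subgroup of prime order -/
theorem sum_line {ℓ : ℕ} (hℓ : ℓ.Prime) (hex : ∀ v : V₀, v ^ ℓ = 1) {a : Subgroup V₀}
    (ha : Nat.card a = ℓ) {κ : V₀} (hκ : κ ∈ a) (h1 : κ ≠ 1) (F : V₀ → ℂ) :
    ∑ᶠ x ∈ a, F x = F 1 + ∑ t ∈ Finset.Icc 1 (ℓ - 1), F (κ ^ t) := by
  classical
  have := Fact.mk hℓ
  have hord : orderOf κ = ℓ := orderOf_eq_prime (hex κ) h1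
  have hfin : Finite a := Nat.finite_of_card_ne_zero (by rw [ha]; exact hℓ.ne_zero)
  have hz : Subgroup.zpowers κ = a := by
    apply Subgroup.eq_of_le_of_card_ge (Subgroup.zpowers_le.2 hκ)
    rw [ha, Nat.card_zpowers, hord]
  have hinj : Set.InjOn (fun t : ℕ => κ ^ t) (Finset.range ℓ : Set ℕ) := by
    intro i hi j hj hij
    rw [Finset.coe_range, Set.mem_Iio] at hi hj
    exact pow_injOn_Iio_orderOf (by rw [hord]; exact hi) (by rw [hord]; exact hj) hij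
  have hset : ((Finset.range ℓ).image (fun t : ℕ => κ ^ t) : Set V₀) = (a : Set V₀) := by
    ext x
    rw [← hz]
    simp only [Finset.coe_image, Finset.coe_range, Set.mem_image, Set.mem_Iio, SetLike.mem_coe]
    rw [Subgroup.mem_zpowers_iff]
    constructor
    · rintro ⟨t, -, rfl⟩
      exact ⟨t, zpow_natCast _ _⟩
    · rintro ⟨k, rfl⟩
      have h2 : 0 ≤ k % (ℓ : ℤ) := Int.emod_nonneg _ (by exact_mod_cast hℓ.ne_zero)
      have h3 : k % (ℓ : ℤ) < ℓ := Int.emod_lt_of_pos _ (by exact_mod_cast hℓ.pos)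
      refine ⟨(k % (ℓ : ℤ)).toNat, by omega, ?_⟩
      rw [← zpow_natCast, Int.toNat_of_nonneg h2, ← hord, zpow_mod_orderOf]
  have h4 : ∑ᶠ x ∈ a, F x = ∑ᶠ x ∈ (a : Set V₀), F x := rfl
  rw [h4, ← hset, finsum_mem_coe_finset, Finset.sum_image hinj, Finset.range_eq_Ico,
    Finset.sum_eq_sum_Ico_succ_bot hℓ.pos, pow_zero]
  have h5 : Finset.Ico (0 + 1) ℓ = Finset.Icc 1 (ℓ - 1) := by
    ext t
    rw [Finset.mem_Ico, Finset.mem_Icc]
    have := hℓ.pos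
    omega
  rw [h5]

end aux

/-- ETS -/
theorem ets (etc : EtcStmt) (etg : EtgStmt) (hrat : HRatStmt) (homr : HOmrStmt)
    (hixe : HIxeStmt) : EtsStmt := by
  intro ℓ _ M _ hM hℓ2 V₀ G _ _ _ _ E₀ hF B hB D hD a ha κ hκ
  classical
  have := Fintype.ofFinite G
  have hℓ : ℓ.Prime := Fact.out
  have hℓ0 : (ℓ : ℂ) ≠ 0 := by exact_mod_cast hℓ.ne_zero
  have hac : Nat.card a = ℓ := ha.1
  have hab : a ≠ ⊥ := by
    intro h
    rw [h, Subgroup.card_bot] at hac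
    exact hℓ.one_lt.ne hac
  obtain ⟨S, hS⟩ : ∃ S : Finset (G → ℂ), ∀ χ, χ ∈ S ↔ χ ∈ IrrE M B.e :=
    ⟨(K9.H25.irrE_finite M B.e).toFinset, fun χ => Set.Finite.mem_toFinset _⟩
  have hsum : ∀ F : (G → ℂ) → ℂ, ∑ᶠ χ ∈ IrrE M B.e, F χ = ∑ χ ∈ S, F χ := by
    intro F
    have h1 : (S : Set (G → ℂ)) = IrrE M B.e := Set.ext fun χ => hS χ
    rw [← h1, finsum_mem_coe_finset]
  obtain ⟨E, hE⟩ : ∃ E : V₀ → (G → ℂ) → ℂ, E = fun κ χ => cv (etl B D a κ ⊥) χ := ⟨_, rfl⟩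
  have hLL : ∀ κ, LL B (etl B D a κ ⊥) = ∑ χ ∈ S, E κ χ := by
    intro κ
    unfold LL
    rw [hsum, hE]
  have hE1 : ∀ κ ∈ a, ∀ χ ∈ S, E κ χ / (ℓ : ℂ) ∈ RM M := by
    intro κ hκ χ hχ
    rw [hE]
    exact (etc ℓ M hM V₀ G E₀ hF B hB D hD a hab χ ((hS χ).1 hχ)).1 κ hκ
  have hE2 : ∀ χ ∈ S, (E 1 χ + ∑ t ∈ Finset.Icc 1 (ℓ - 1), E (κ ^ t) χ) / (ℓ : ℂ) ^ 2 ∈ RM M := by
    intro χ hχ
    by_cases h1 : κ = 1
    · have h2 : E 1 χ + ∑ t ∈ Finset.Icc 1 (ℓ - 1), E (κ ^ t) χ = (ℓ : ℂ) * E 1 χ := by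
        rw [h1]
        simp only [one_pow]
        rw [Finset.sum_const, Nat.card_Icc, nsmul_eq_mul, Nat.add_sub_cancel,
          Nat.cast_sub hℓ.one_lt.le]
        push_cast
        ring
      have h3 : (ℓ : ℂ) * E 1 χ / (ℓ : ℂ) ^ 2 = E 1 χ / (ℓ : ℂ) := by
        field_simp
      rw [h2, h3]
      exact hE1 1 a.one_mem χ hχ
    · have h2 := (etc ℓ M hM V₀ G E₀ hF B hB D hD a hab χ ((hS χ).1 hχ)).2 hac
      rw [sum_line hℓ hF.ex hac hκ h1] at h2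
      rw [hE]
      exact h2
  have hS2 : (∑ χ ∈ S, E 1 χ + ∑ t ∈ Finset.Icc 1 (ℓ - 1), ∑ χ ∈ S, E (κ ^ t) χ) /
      (ℓ : ℂ) ^ 2 ∈ RM M := by
    rw [Finset.sum_comm, ← Finset.sum_add_distrib, Finset.sum_div]
    exact (RM M).sum_mem hE2
  have hLL1 : ∀ κ ∈ a, LL B (etl B D a κ ⊥) / (ℓ : ℂ) ∈ RM M := by
    intro κ hκ
    rw [hLL, Finset.sum_div]
    exact (RM M).sum_mem fun χ hχ => hE1 κ hκ χ hχ
  have hnat : ∀ k : ℕ, (k : ℂ) ∈ RM M := fun k => (rr_nat k).1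
  refine ⟨hLL1 κ hκ, ?_, fun d hd => ⟨?_, ?_⟩⟩
  · -- (2)
    have h1 : ∀ t ∈ Finset.Icc 1 (ℓ - 1), ∑ χ ∈ S, E (κ ^ t) χ = ∑ χ ∈ S, E κ χ := by
      intro t ht
      rw [Finset.mem_Icc] at ht
      have hnd : ¬ ℓ ∣ t := by
        intro h
        have := Nat.le_of_dvd (by omega) h
        have := hℓ.pos
        omega
      rw [← hLL, ← hLL]
      exact (etg ℓ M hM hℓ2 V₀ G E₀ hF B hB D hD a hab κ hκ t hnd).1
    rw [Finset.sum_congr rfl h1, Finset.sum_const, Nat.card_Icc, nsmul_eq_mul,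
      Nat.add_sub_cancel, Nat.cast_sub hℓ.one_lt.le, ← hLL, ← hLL] at hS2
    have h3 : (LL B (etl B D a κ ⊥) - LL B (etl B D a 1 ⊥)) / (ℓ : ℂ) ^ 2 =
        LL B (etl B D a κ ⊥) / (ℓ : ℂ) - (LL B (etl B D a 1 ⊥) +
          ((ℓ : ℂ) - ((1 : ℕ) : ℂ)) * LL B (etl B D a κ ⊥)) / (ℓ : ℂ) ^ 2 := by
      push_cast
      field_simp
      ring
    rw [h3]
    exact (RM M).sub_mem (hLL1 κ hκ) hS2
  · -- (3)
    unfold NN
    rw [hsum, Finset.sum_div]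
    refine (RM M).sum_mem fun χ hχ => ?_
    have h1 : cv (etl B D a κ ⊥) χ * cv (mnl E₀ B d ⊥) χ / (ℓ : ℂ) =
        E κ χ / (ℓ : ℂ) * ((kE E₀ d : ℂ) * cv (fc B ⊥ d) χ) := by
      rw [cv_mnl, hE]
      ring
    rw [h1]
    exact (RM M).mul_mem (hE1 κ hκ χ hχ) ((RM M).mul_mem (hnat _)
      (homr ℓ M hM V₀ E₀ G B hB d χ ((hS χ).1 hχ)).1)
  · -- (4)
    have hix := ((hixe ℓ M hM V₀ E₀ G B hB).2.2.2 d).2.1
    have hr : ∀ χ ∈ S, ∃ r ∈ RM M, ∑ s ∈ Finset.Icc 1 (ℓ - 1), cv (mnl E₀ B (d ^ s) ⊥) χ =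
        -(Nat.card E₀ : ℂ) + (ℓ : ℂ) * r := by
      intro χ hχ
      obtain ⟨q, hq, hq'⟩ := hrat ℓ M hM V₀ hF.ex E₀ G B hB d hd χ ((hS χ).1 hχ)
      refine ⟨(kE E₀ d : ℂ) * (q : ℂ), (RM M).mul_mem (hnat _) (SO.H33.rl_RM hM hq), ?_⟩
      have h1 : ∀ s ∈ Finset.Icc 1 (ℓ - 1), cv (mnl E₀ B (d ^ s) ⊥) χ =
          (kE E₀ d : ℂ) * cv (fc B ⊥ (d ^ s)) χ := by
        intro s hs
        rw [Finset.mem_Icc] at hs
        rw [cv_mnl]
        unfold kE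
        rw [SO.H45.Es_pow (SO.H45.cop hℓ hF.cd hs.1 hs.2)]
      rw [Finset.sum_congr rfl h1, ← Finset.mul_sum, hq']
      have h2 : (nE E₀ d : ℂ) * (kE E₀ d : ℂ) = (Nat.card E₀ : ℂ) := by
        rw [← hix]
        push_cast
        rfl
      push_cast
      rw [← h2]
      ring
    choose! r hr1 hr2 using hr
    have h1 : ∑ t ∈ Finset.Icc 1 (ℓ - 1), ∑ s ∈ Finset.Icc 1 (ℓ - 1),
        NN B (etl B D a (κ ^ t) ⊥) (mnl E₀ B (d ^ s) ⊥) =
        ∑ χ ∈ S, (∑ t ∈ Finset.Icc 1 (ℓ - 1), E (κ ^ t) χ) *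
          (-(Nat.card E₀ : ℂ) + (ℓ : ℂ) * r χ) := by
      have h2 : ∀ t s : ℕ, NN B (etl B D a (κ ^ t) ⊥) (mnl E₀ B (d ^ s) ⊥) =
          ∑ χ ∈ S, E (κ ^ t) χ * cv (mnl E₀ B (d ^ s) ⊥) χ := by
        intro t s
        unfold NN
        rw [hsum, hE]
      simp only [h2]
      rw [Finset.sum_congr rfl fun t _ => Finset.sum_comm, Finset.sum_comm]
      refine Finset.sum_congr rfl fun χ hχ => ?_
      rw [← hr2 χ hχ, Finset.sum_mul_sum]
    have h3 : (∑ t ∈ Finset.Icc 1 (ℓ - 1), ∑ s ∈ Finset.Icc 1 (ℓ - 1),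
        NN B (etl B D a (κ ^ t) ⊥) (mnl E₀ B (d ^ s) ⊥) -
          Nat.card E₀ * LL B (etl B D a 1 ⊥)) / (ℓ : ℂ) ^ 2 =
        -(Nat.card E₀ : ℂ) * ((∑ χ ∈ S, E 1 χ + ∑ t ∈ Finset.Icc 1 (ℓ - 1),
          ∑ χ ∈ S, E (κ ^ t) χ) / (ℓ : ℂ) ^ 2) +
        ∑ χ ∈ S, (∑ t ∈ Finset.Icc 1 (ℓ - 1), E (κ ^ t) χ / (ℓ : ℂ)) * r χ := by
      rw [h1, hLL]
      have h4 : ∑ χ ∈ S, (∑ t ∈ Finset.Icc 1 (ℓ - 1), E (κ ^ t) χ) *
          (-(Nat.card E₀ : ℂ) + (ℓ : ℂ) * r χ) =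
          -(Nat.card E₀ : ℂ) * ∑ t ∈ Finset.Icc 1 (ℓ - 1), ∑ χ ∈ S, E (κ ^ t) χ +
          (ℓ : ℂ) ^ 2 * ∑ χ ∈ S, (∑ t ∈ Finset.Icc 1 (ℓ - 1), E (κ ^ t) χ / (ℓ : ℂ)) * r χ := by
        rw [Finset.sum_comm (s := Finset.Icc 1 (ℓ - 1)), Finset.mul_sum, Finset.mul_sum,
          ← Finset.sum_add_distrib]
        refine Finset.sum_congr rfl fun χ _ => ?_
        rw [← Finset.sum_div]
        field_simp
      rw [h4]
      field_simp
      ring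
    rw [h3]
    refine (RM M).add_mem ((RM M).mul_mem ((RM M).neg_mem (hnat _)) hS2)
      ((RM M).sum_mem fun χ hχ => (RM M).mul_mem ((RM M).sum_mem fun t ht => ?_) (hr1 χ hχ))
    exact hE1 (κ ^ t) (a.pow_mem hκ t) χ hχ

end Pool.Agent.PP.SE.H59
end
end -- Pool.Agent.Helper59_ASE.ETS

section -- Pool.Agent.Helper66_ASE.HSE

/-!
# Squad ASE, row HSE: the sums over the block
-/

set_option autoImplicit false
set_option linter.unusedSectionVars false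

open scoped BigOperators

noncomputable section

namespace Pool.Agent.PP.SE.H66

open Pool.Agent.Helper51_AWC Pool.Agent.Helper79_WRA Pool.Agent.PP Pool.Agent.PP.KF
open Pool.Agent.PP.K9 Pool.Agent.PP.K9.H97 Pool.Agent.PP.H75 Pool.Agent.PP.T3 Pool.Agent.PP.SO
open Pool.Agent.PP.SD

attribute [local instance] Ideal.Quotient.field

section mn

variable {V₀ G : Type} [CommGroup V₀] [Group G] {M : Ideal (integralClosure ℤ ℂ)} [M.IsMaximal]

theorem mnl_bot (E₀ : Subgroup (MulAut V₀)) (B : Bk (FF M) V₀ G) (c : V₀) :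
    mnl E₀ B c ⊥ = fun g => (kE E₀ c : ℂ) * fc B ⊥ c g := by
  funext g
  unfold mnl
  rw [if_pos bot_le]

theorem cv_mnl [Finite G] (E₀ : Subgroup (MulAut V₀)) (B : Bk (FF M) V₀ G) (c : V₀) (χ : G → ℂ) :
    cv (mnl E₀ B c ⊥) χ = (kE E₀ c : ℂ) * cv (fc B ⊥ c) χ := by
  have := Fintype.ofFinite G
  rw [mnl_bot]
  unfold cv
  rw [finsum_eq_sum_of_fintype, finsum_eq_sum_of_fintype, mul_div_assoc', Finset.mul_sum]
  congr 1
  exact Finset.sum_congr rfl fun g _ => by ring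

theorem LL_mnl [Finite G] (E₀ : Subgroup (MulAut V₀)) (B : Bk (FF M) V₀ G) (c : V₀) :
    LL B (mnl E₀ B c ⊥) = (kE E₀ c : ℂ) * L1 B c := by
  have := Fintype.ofFinite G
  have hfin := K9.H25.irrE_finite M B.e
  unfold LL L1
  rw [finsum_mem_eq_finite_toFinset_sum _ hfin, finsum_mem_eq_finite_toFinset_sum _ hfin,
    Finset.mul_sum]
  exact Finset.sum_congr rfl fun χ _ => cv_mnl E₀ B c χ

theorem NN_mnl [Finite G] (E₀ : Subgroup (MulAut V₀)) (B : Bk (FF M) V₀ G) (a : G → ℂ) (d : V₀) :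
    NN B a (mnl E₀ B d ⊥) = (kE E₀ d : ℂ) * NN B a (fc B ⊥ d) := by
  have := Fintype.ofFinite G
  have hfin := K9.H25.irrE_finite M B.e
  unfold NN
  rw [finsum_mem_eq_finite_toFinset_sum _ hfin, finsum_mem_eq_finite_toFinset_sum _ hfin,
    Finset.mul_sum]
  exact Finset.sum_congr rfl fun χ _ => by rw [cv_mnl]; ring

theorem NN_comm (B : Bk (FF M) V₀ G) (a b : G → ℂ) : NN B a b = NN B b a := by
  unfold NN
  exact finsum_mem_congr rfl fun χ _ => mul_comm _ _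

theorem NN_fc (B : Bk (FF M) V₀ G) (c d : V₀) : NN B (fc B ⊥ c) (fc B ⊥ d) = L2 B c d := rfl

end mn

/-- HSE -/
theorem hse (hHsg : HsgStmt) (hEtq : EtqStmt) (hEts : EtsStmt) (hL12 : HL12Stmt)
    (hIxe : HIxeStmt) : HseStmt := by
  intro ℓ _ M _ hM hl2 V₀ G _ _ _ _ E₀ hq B hB D hR
  classical
  have hℓ : ℓ.Prime := Fact.out
  have hSb := hB.toSb
  have := Fintype.ofFinite V₀
  have hℓQ : (ℓ : ℚ) ≠ 0 := by exact_mod_cast hℓ.ne_zero
  obtain ⟨hs1, hs2⟩ := hHsg ℓ M hM V₀ G E₀ hq.ex hq.cd B hSb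
  obtain ⟨l1, l2, l1p, -, -, -, l2s, -, l11⟩ := hL12 ℓ M hM V₀ hq.ex E₀ G B hSb
  obtain ⟨-, -, -, hix⟩ := hIxe ℓ M hM V₀ E₀ G B hSb
  choose q1 hq1m hq1 using l1
  choose q2 hq2m hq2 using l2
  -- stabilisers
  have hkp : ∀ (c : V₀) (j : ℕ), ¬ ℓ ∣ j → kE E₀ (c ^ j) = kE E₀ c := by
    intro c j hj
    unfold kE
    rw [H45.Es_pow]
    rw [hq.cd]
    exact Nat.Coprime.pow_left 2 ((hℓ.coprime_iff_not_dvd).2 hj)
  have hnt : ∀ t ∈ Finset.Icc 1 (ℓ - 1), ¬ ℓ ∣ t := by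
    intro t ht hd
    have ht' := Finset.mem_Icc.1 ht
    have h3 := Nat.le_of_dvd (by omega) hd
    have := hℓ.pos
    omega
  have hkn : ∀ c : V₀, (kE E₀ c : ℚ) * nE E₀ c = Nat.card E₀ := by
    intro c
    obtain ⟨-, h, -, -⟩ := hix c
    rw [mul_comm]
    exact_mod_cast h
  have hk1 : kE E₀ 1 = Nat.card E₀ := by
    unfold kE
    have h1 : Es E₀ (1 : V₀) = E₀ := by
      refine Subgroup.ext fun σ => ?_
      show σ ∈ E₀ ∧ σ 1 = 1 ↔ σ ∈ E₀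
      exact ⟨fun h => h.1, fun h => ⟨h, map_one _⟩⟩
    rw [h1]
  have hRLb : ∀ a ∈ RL ℓ E₀, a ≠ ⊥ := by
    intro a ha h
    have h1 : Nat.card a = ℓ := ha.1
    rw [h, Subgroup.card_bot] at h1
    exact hℓ.one_lt.ne h1
  have hz : ∀ (a : Subgroup V₀) (κ : V₀), ∃ q : ℚ, a ∈ RL ℓ E₀ → κ ∈ a →
      LL B (etl B D a κ ⊥) = (q : ℂ) := by
    intro a κ
    by_cases h : a ∈ RL ℓ E₀ ∧ κ ∈ a
    · obtain ⟨q, hq'⟩ := (hEtq ℓ M hM hl2 V₀ G E₀ hq B hSb D hR a (hRLb a h.1) κ h.2).1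
      exact ⟨q, fun _ _ => hq'⟩
    · exact ⟨0, fun h1 h2 => absurd ⟨h1, h2⟩ h⟩
  have hy : ∀ (a : Subgroup V₀) (κ d : V₀), ∃ q : ℚ, a ∈ RL ℓ E₀ → κ ∈ a →
      NN B (etl B D a κ ⊥) (fc B ⊥ d) = (q : ℂ) := by
    intro a κ d
    by_cases h : a ∈ RL ℓ E₀ ∧ κ ∈ a
    · obtain ⟨q, hq'⟩ := (hEtq ℓ M hM hl2 V₀ G E₀ hq B hSb D hR a (hRLb a h.1) κ h.2).2 d
      exact ⟨q, fun _ _ => hq'⟩
    · exact ⟨0, fun h1 h2 => absurd ⟨h1, h2⟩ h⟩
  choose z hz using hz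
  choose y hy using hy
  have hy' : ∀ (a : Subgroup V₀) (κ d : V₀), a ∈ RL ℓ E₀ → κ ∈ a →
      NN B (etl B D a κ ⊥) (mnl E₀ B d ⊥) = (((kE E₀ d : ℚ) * y a κ d : ℚ) : ℂ) := by
    intro a κ d ha hκ
    rw [NN_mnl, hy a κ d ha hκ]
    push_cast
    ring
  have hdiv : ∀ (x : ℚ) (n : ℕ), (x : ℂ) / (ℓ : ℂ) ^ n ∈ RM M → ∃ q ∈ SOR.Rl ℓ,
      x = (ℓ : ℚ) ^ n * q := by
    intro x n h
    refine ⟨x / (ℓ : ℚ) ^ n, H45.rat_RM hM ?_, ?_⟩
    · push_cast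
      exact h
    · field_simp
  refine ⟨fun c => (kE E₀ c : ℚ) * q1 c, fun c d => (kE E₀ c : ℚ) * kE E₀ d * q2 c d, z,
    fun a κ d => (kE E₀ d : ℚ) * y a κ d, ⟨?_, ?_, ?_⟩, ?_, ?_, ?_, ?_⟩
  · intro c _
    refine ⟨?_, (SOR.Rl ℓ).mul_mem (natCast_mem _ _) (hq1m c)⟩
    rw [LL_mnl, hq1 c]
    push_cast
    rfl
  · intro c d _ _
    have h1 : NN B (mnl E₀ B c ⊥) (mnl E₀ B d ⊥) =
        (((kE E₀ c : ℚ) * kE E₀ d * q2 c d : ℚ) : ℂ) := by
      rw [NN_mnl, NN_comm, NN_mnl, NN_comm, NN_fc, hq2 c d]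
      push_cast
      ring
    refine ⟨h1, ?_, (SOR.Rl ℓ).mul_mem ((SOR.Rl ℓ).mul_mem (natCast_mem _ _)
      (natCast_mem _ _)) (hq2m c d)⟩
    rw [NN_comm]
    exact h1
  · intro c j hj
    have h1 : q1 (c ^ j) = q1 c := by
      have h2 := l1p c j hj
      rw [hq1, hq1] at h2
      exact_mod_cast h2
    beta_reduce
    rw [hkp c j hj, h1]
  · intro a ha κ hκ
    obtain ⟨e1, e2, e3⟩ := hEts ℓ M hM hl2 V₀ G E₀ hq B hSb D hR a ha κ hκ
    rw [hz a κ ha hκ] at e1 e2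
    rw [hz a 1 ha (Subgroup.one_mem a)] at e2
    refine ⟨hz a κ ha hκ, ?_, ?_, ?_⟩
    · obtain ⟨q, hq1, hq2⟩ := hdiv (z a κ) 1 (by rw [pow_one]; exact e1)
      exact ⟨q, hq1, by rw [hq2, pow_one]⟩
    · refine hdiv (z a κ - z a 1) 2 ?_
      push_cast
      exact e2
    · intro d hd
      obtain ⟨e4, -⟩ := e3 d hd
      refine ⟨hy' a κ d ha hκ, by rw [NN_comm]; exact hy' a κ d ha hκ, ?_⟩
      rw [hy' a κ d ha hκ] at e4
      obtain ⟨q, hq1, hq2⟩ := hdiv ((kE E₀ d : ℚ) * y a κ d) 1 (by rw [pow_one]; exact e4)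
      exact ⟨q, hq1, by rw [pow_one] at hq2; exact hq2⟩
  · intro a ha κ hκ d hd
    obtain ⟨-, -, e3⟩ := hEts ℓ M hM hl2 V₀ G E₀ hq B hSb D hR a ha κ hκ
    obtain ⟨-, e5⟩ := e3 d hd
    refine hdiv _ 2 ?_
    have h1 : ((∑ t ∈ Finset.Icc 1 (ℓ - 1), ∑ s ∈ Finset.Icc 1 (ℓ - 1),
        (kE E₀ (d ^ s) : ℚ) * y a (κ ^ t) (d ^ s) - Nat.card E₀ * z a 1 : ℚ) : ℂ) =
        ∑ t ∈ Finset.Icc 1 (ℓ - 1), ∑ s ∈ Finset.Icc 1 (ℓ - 1),
          NN B (etl B D a (κ ^ t) ⊥) (mnl E₀ B (d ^ s) ⊥) -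
            Nat.card E₀ * LL B (etl B D a 1 ⊥) := by
      rw [hz a 1 ha (Subgroup.one_mem a), Rat.cast_sub, Rat.cast_sum, Rat.cast_mul,
        Rat.cast_natCast]
      congr 1
      refine Finset.sum_congr rfl fun t _ => ?_
      rw [Rat.cast_sum]
      refine Finset.sum_congr rfl fun s _ => ?_
      exact (hy' a (κ ^ t) (d ^ s) ha (a.pow_mem hκ t)).symm
    rw [h1]
    exact e5
  · intro c d hc hd
    obtain ⟨q, hqm, hq'⟩ := hs1 c d hc hd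
    have h1 : ∑ t ∈ Finset.Icc 1 (ℓ - 1), ∑ s ∈ Finset.Icc 1 (ℓ - 1), q2 (c ^ t) (d ^ s) +
        nE E₀ d * ((ℓ - 1) * q1 c) + nE E₀ c * ((ℓ - 1) * q1 d) +
        nE E₀ c * nE E₀ d * (IrrE M B.e).ncard = ℓ ^ 2 * q := by
      have e1 : ∀ c : V₀, ∑ t ∈ Finset.Icc 1 (ℓ - 1), L1 B (c ^ t) =
          (((ℓ - 1) * q1 c : ℚ) : ℂ) := by
        intro c
        have h2 : ∀ t ∈ Finset.Icc 1 (ℓ - 1), L1 B (c ^ t) = L1 B c := fun t ht =>
          l1p c t (hnt t ht)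
        rw [Finset.sum_congr rfl h2, Finset.sum_const, Nat.card_Icc, Nat.add_sub_cancel,
          nsmul_eq_mul, hq1 c, Nat.cast_sub hℓ.one_lt.le]
        push_cast
        ring
      have e2 : ∑ t ∈ Finset.Icc 1 (ℓ - 1), ∑ s ∈ Finset.Icc 1 (ℓ - 1), L2 B (c ^ t) (d ^ s) =
          ((∑ t ∈ Finset.Icc 1 (ℓ - 1), ∑ s ∈ Finset.Icc 1 (ℓ - 1),
            q2 (c ^ t) (d ^ s) : ℚ) : ℂ) := by
        rw [Rat.cast_sum]
        refine Finset.sum_congr rfl fun t _ => ?_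
        rw [Rat.cast_sum]
        exact Finset.sum_congr rfl fun s _ => hq2 _ _
      rw [e1 c, e1 d, e2] at hq'
      have h3 : ((∑ t ∈ Finset.Icc 1 (ℓ - 1), ∑ s ∈ Finset.Icc 1 (ℓ - 1),
          q2 (c ^ t) (d ^ s) + nE E₀ d * ((ℓ - 1) * q1 c) + nE E₀ c * ((ℓ - 1) * q1 d) +
          nE E₀ c * nE E₀ d * (IrrE M B.e).ncard : ℚ) : ℂ) = ((ℓ ^ 2 * q : ℚ) : ℂ) := by
        rw [← hq']
        push_cast
        ring
      exact_mod_cast h3
    refine ⟨(kE E₀ c : ℚ) * kE E₀ d * q, (SOR.Rl ℓ).mul_mem ((SOR.Rl ℓ).mul_mem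
      (natCast_mem _ _) (natCast_mem _ _)) hqm, ?_⟩
    have e3 : ∑ t ∈ Finset.Icc 1 (ℓ - 1), ∑ s ∈ Finset.Icc 1 (ℓ - 1),
        (kE E₀ (c ^ t) : ℚ) * kE E₀ (d ^ s) * q2 (c ^ t) (d ^ s) =
        (kE E₀ c : ℚ) * kE E₀ d * ∑ t ∈ Finset.Icc 1 (ℓ - 1), ∑ s ∈ Finset.Icc 1 (ℓ - 1),
          q2 (c ^ t) (d ^ s) := by
      rw [Finset.mul_sum]
      refine Finset.sum_congr rfl fun t ht => ?_
      rw [Finset.mul_sum]
      refine Finset.sum_congr rfl fun s hs => ?_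
      rw [hkp c t (hnt t ht), hkp d s (hnt s hs)]
    have e4 : (ℓ : ℚ) ^ 2 * ((kE E₀ c : ℚ) * kE E₀ d * q) =
        (kE E₀ c : ℚ) * kE E₀ d * (ℓ ^ 2 * q) := by ring
    beta_reduce
    rw [e3, e4, ← h1, ← hkn c]
    have e5 : (kE E₀ c : ℚ) * nE E₀ c = kE E₀ d * nE E₀ d := by rw [hkn, hkn]
    linear_combination ((ℓ - 1 : ℚ) * (kE E₀ c * q1 c) + (kE E₀ c : ℚ) * nE E₀ c * (IrrE M B.e).ncard) * e5
  · obtain ⟨q, hqm, hq'⟩ := hs2
    refine ⟨q, hqm, ?_⟩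
    have e1 : ∑ᶠ c : V₀, (Nat.card (Es E₀ c) : ℂ) * L1 B c =
        ((∑ c : V₀, (kE E₀ c : ℚ) * q1 c : ℚ) : ℂ) := by
      rw [finsum_eq_sum_of_fintype, Rat.cast_sum]
      refine Finset.sum_congr rfl fun c _ => ?_
      rw [hq1 c, Rat.cast_mul, Rat.cast_natCast]
      rfl
    rw [e1] at hq'
    have e2 : ∑ c : V₀, (kE E₀ c : ℚ) * q1 c = ℓ ^ 2 * q := by exact_mod_cast hq'
    have e3 : q1 1 = (IrrE M B.e).ncard := by
      have h2 := hq1 1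
      rw [l11] at h2
      exact_mod_cast h2.symm
    have e4 : ∑ᶠ c ∈ {c : V₀ | c ≠ 1}, (kE E₀ c : ℚ) * q1 c =
        ∑ c ∈ Finset.univ.erase (1 : V₀), (kE E₀ c : ℚ) * q1 c := by
      rw [finsum_mem_eq_finite_toFinset_sum _ (Set.toFinite {c : V₀ | c ≠ 1})]
      refine Finset.sum_congr ?_ fun _ _ => rfl
      ext c
      simp
    rw [e4, ← e2, ← Finset.sum_erase_add _ _ (Finset.mem_univ (1 : V₀)), hk1, e3]

end Pool.Agent.PP.SE.H66
end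
end -- Pool.Agent.Helper66_ASE.HSE

section -- Pool.Agent.Helper74_ASE.HSG

/-!
# Squad ASE, row HSG: the relations for `L1`, `L2` (after HSM, Helper45_ASO)
-/

set_option autoImplicit false

open scoped BigOperators

noncomputable section

namespace Pool.Agent.PP.SE.H74

open Pool.Agent.Helper51_AWC Pool.Agent.Helper79_WRA Pool.Agent.PP Pool.Agent.PP.KF
open Pool.Agent.PP.K9 Pool.Agent.PP.K9.H97 Pool.Agent.PP.H75 Pool.Agent.PP.T3 Pool.Agent.PP.SO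
open Pool.Agent.PP.SD Pool.Agent.PP.SO.H45

attribute [local instance] Ideal.Quotient.field

theorem hsg (hTe : HteStmt) (hRat : SO.HRatStmt) (hFro : SO.HFroStmt) (hFpr : SO.HFprStmt)
    (hFce : SO.HFceStmt) (hIxe : SO.HIxeStmt) : HsgStmt := by
  intro ℓ _ M _ hM V₀ G _ _ _ _ E₀ hex hV B hB
  classical
  have hℓ : ℓ.Prime := Fact.out
  have := Fintype.ofFinite V₀
  have := Fintype.ofFinite G
  have hfin : (IrrE M B.e).Finite := K9.H25.irrE_finite M B.e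
  obtain ⟨-, -, -, hix⟩ := hIxe ℓ M hM V₀ E₀ G B hB
  obtain ⟨-, hone⟩ := hFce ℓ M hM V₀ E₀ G B hB
  have hrat := hRat ℓ M hM V₀ hex E₀ G B hB
  set S : Finset (G → ℂ) := hfin.toFinset with hS
  have hmem : ∀ χ, χ ∈ S ↔ χ ∈ IrrE M B.e := fun χ => hfin.mem_toFinset
  have eL1 : ∀ c, L1 B c = ∑ χ ∈ S, cv (fc B ⊥ c) χ := fun c =>
    finsum_mem_eq_finite_toFinset_sum _ hfin
  have eL2 : ∀ c d, L2 B c d = ∑ χ ∈ S, cv (fc B ⊥ c) χ * cv (fc B ⊥ d) χ := fun c d =>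
    finsum_mem_eq_finite_toFinset_sum _ hfin
  have ecard : (IrrE M B.e).ncard = S.card := Set.ncard_eq_toFinset_card _ hfin
  refine ⟨?_, ?_⟩
  · intro c d hc hd
    choose! qc hqc1 hqc2 using hrat c hc
    choose! qd hqd1 hqd2 using hrat d hd
    refine ⟨∑ χ ∈ S, qc χ * qd χ, Subring.sum_mem _ fun χ hχ =>
      (SOR.Rl ℓ).mul_mem (hqc1 χ ((hmem χ).1 hχ)) (hqd1 χ ((hmem χ).1 hχ)), ?_⟩
    have e1 : ∑ t ∈ Finset.Icc 1 (ℓ - 1), ∑ s ∈ Finset.Icc 1 (ℓ - 1), L2 B (c ^ t) (d ^ s) =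
        ∑ χ ∈ S, (∑ t ∈ Finset.Icc 1 (ℓ - 1), cv (fc B ⊥ (c ^ t)) χ) *
          ∑ s ∈ Finset.Icc 1 (ℓ - 1), cv (fc B ⊥ (d ^ s)) χ := by
      rw [Finset.sum_congr rfl fun t _ => Finset.sum_congr rfl fun s _ => eL2 (c ^ t) (d ^ s)]
      rw [Finset.sum_congr rfl fun t _ => Finset.sum_comm, Finset.sum_comm]
      refine Finset.sum_congr rfl fun χ _ => ?_
      rw [Finset.sum_mul_sum]
    have e2 : ∀ c : V₀, ∑ t ∈ Finset.Icc 1 (ℓ - 1), L1 B (c ^ t) =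
        ∑ χ ∈ S, ∑ t ∈ Finset.Icc 1 (ℓ - 1), cv (fc B ⊥ (c ^ t)) χ := by
      intro c
      rw [Finset.sum_congr rfl fun t _ => eL1 (c ^ t), Finset.sum_comm]
    have e3 : ((IrrE M B.e).ncard : ℂ) = ∑ χ ∈ S, (1 : ℂ) := by
      rw [ecard]
      simp
    rw [e1, e2 c, e2 d, e3, Finset.mul_sum, Finset.mul_sum, Finset.mul_sum,
      ← Finset.sum_add_distrib, ← Finset.sum_add_distrib, ← Finset.sum_add_distrib]
    rw [Rat.cast_mul, Rat.cast_sum, Finset.mul_sum]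
    refine Finset.sum_congr rfl fun χ hχ => ?_
    rw [hqc2 χ ((hmem χ).1 hχ), hqd2 χ ((hmem χ).1 hχ)]
    push_cast
    ring
  · -- the sum over all elements
    have hR : ∀ χ ∈ S, ∃ q ∈ SOR.Rl ℓ,
        ∑ c : V₀, (Nat.card (Es E₀ c) : ℂ) * cv (fc B ⊥ c) χ = ((ℓ ^ 2 * q : ℚ) : ℂ) := by
      intro χ hχ
      have hχ' := (hmem χ).1 hχ
      have hχI : χ ∈ Irr G := hχ'.1
      have hℓC : (ℓ : ℂ) ≠ 0 := by exact_mod_cast hℓ.ne_zero
      set R : ℂ := ∑ c : V₀, (Nat.card (Es E₀ c) : ℂ) * cv (fc B ⊥ c) χ with hRdef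
      -- rational
      have hRQ : R ∈ QC := by
        have h1 : ∀ t ∈ Finset.Icc 1 (ℓ - 1),
            ∑ c : V₀, (Nat.card (Es E₀ c) : ℂ) * cv (fc B ⊥ (c ^ t)) χ = R := by
          intro t ht
          have ht' := Finset.mem_Icc.1 ht
          have hc := cop hℓ hV ht'.1 ht'.2
          rw [hRdef, ← Equiv.sum_comp (powCoprime hc)
            fun c => (Nat.card (Es E₀ c) : ℂ) * cv (fc B ⊥ c) χ]
          refine Finset.sum_congr rfl fun c _ => ?_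
          rw [powCoprime_apply, Es_pow hc]
        have h2 : ((ℓ - 1 : ℕ) : ℂ) * R = ∑ c : V₀, (Nat.card (Es E₀ c) : ℂ) *
            ∑ t ∈ Finset.Icc 1 (ℓ - 1), cv (fc B ⊥ (c ^ t)) χ := by
          have h3 : ∑ t ∈ Finset.Icc 1 (ℓ - 1),
              ∑ c : V₀, (Nat.card (Es E₀ c) : ℂ) * cv (fc B ⊥ (c ^ t)) χ =
              ∑ t ∈ Finset.Icc 1 (ℓ - 1), R := Finset.sum_congr rfl h1
          rw [Finset.sum_const, Nat.card_Icc, Nat.add_sub_cancel, nsmul_eq_mul] at h3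
          rw [← h3, Finset.sum_comm]
          refine Finset.sum_congr rfl fun c _ => ?_
          rw [Finset.mul_sum]
        have h4 : ((ℓ - 1 : ℕ) : ℂ) * R ∈ QC := by
          rw [h2]
          refine Subfield.sum_mem _ fun c _ => QC.mul_mem (nat_QC _) ?_
          by_cases hc : c = 1
          · subst hc
            have h5 : ∀ t ∈ Finset.Icc 1 (ℓ - 1), cv (fc B ⊥ ((1 : V₀) ^ t)) χ = 1 := by
              intro t _
              rw [one_pow, hone χ hχ']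
            rw [Finset.sum_congr rfl h5, Finset.sum_const, nsmul_eq_mul, mul_one]
            exact nat_QC _
          · obtain ⟨q, -, hq⟩ := hrat c hc χ hχ'
            rw [hq]
            exact mem_QC _
        have h5 : ((ℓ - 1 : ℕ) : ℂ) ≠ 0 := by
          have : ℓ - 1 ≠ 0 := by
            have := hℓ.two_le
            omega
          exact_mod_cast this
        have h6 : R = ((ℓ - 1 : ℕ) : ℂ) * R / ((ℓ - 1 : ℕ) : ℂ) := by
          field_simp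
        rw [h6]
        exact QC.div_mem h4 (nat_QC _)
      obtain ⟨ρ, hρ⟩ := hRQ
      have hρ' : (ρ : ℂ) = R := hρ
      -- in the local ring
      have hRM : R / (ℓ : ℂ) ^ 2 ∈ RM M := by
        obtain ⟨-, x, y, hx, hy, hxy⟩ := hTe ℓ M hM V₀ G E₀ hex hV B hB χ hχ'
        have h1 := hFro ℓ M hM G χ hχI
        rw [hFpr ℓ M hM V₀ E₀ G B hB χ hχ'] at h1
        have hG0 : Nat.card G ≠ 0 := Nat.card_pos.ne'
        set m : ℕ := Nat.card G / ℓ ^ (Nat.card G).factorization ℓ with hm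
        have hm1 : lpG ℓ G * m = Nat.card G := Nat.ordProj_mul_ordCompl_eq_self (Nat.card G) ℓ
        have hm2 : ¬ ℓ ∣ m := Nat.not_dvd_ordCompl hℓ hG0
        have hχ1 : χ 1 ≠ 0 := irr_one_ne hχI
        have hl0 : ((lpG ℓ G : ℕ) : ℂ) ≠ 0 := by
          have : lpG ℓ G ≠ 0 := by
            intro h
            rw [h, zero_mul] at hm1
            exact hG0 hm1.symm
          exact_mod_cast this
        have hm0 : (m : ℂ) ≠ 0 := by
          have : m ≠ 0 := by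
            intro h
            rw [h] at hm2
            exact hm2 (dvd_zero _)
          exact_mod_cast this
        have hy0 : (y : ℂ) ≠ 0 := by
          have : y ≠ 0 := by
            intro h
            rw [h] at hy
            exact hy (dvd_zero _)
          exact_mod_cast this
        rw [finsum_eq_sum_of_fintype] at h1
        set T : ℂ := ∑ c : V₀, cv (fc B ⊥ c) χ / (nE E₀ c : ℂ) with hT
        have hRT : R = (Nat.card E₀ : ℂ) * T := by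
          rw [hRdef, hT, Finset.mul_sum]
          refine Finset.sum_congr rfl fun c _ => ?_
          obtain ⟨-, hn, -, -⟩ := hix c
          have hE0 : Nat.card E₀ ≠ 0 := Nat.card_pos.ne'
          have hn0 : (nE E₀ c : ℂ) ≠ 0 := by
            have : nE E₀ c ≠ 0 := by
              intro h
              rw [h, zero_mul] at hn
              exact hE0 hn.symm
            exact_mod_cast this
          have hn' : (nE E₀ c : ℂ) * (Nat.card (Es E₀ c) : ℂ) = (Nat.card E₀ : ℂ) := by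
            exact_mod_cast hn
          rw [← hn']
          field_simp
        have hxy' : (y : ℂ) * ((lpG ℓ G : ℕ) * (m : ℂ)) = ℓ ^ 2 * χ 1 * x := by
          rw [← hxy, ← hm1]
          push_cast
          ring
        have h2 : R / (ℓ : ℂ) ^ 2 = (Nat.card E₀ : ℂ) * (χ 1 * T / ((lpG ℓ G : ℕ) : ℂ)) *
            (x : ℂ) * (y : ℂ)⁻¹ * (m : ℂ)⁻¹ := by
          rw [hRT]
          have h3 : (x : ℂ) = (y : ℂ) * ((lpG ℓ G : ℕ) * (m : ℂ)) / (ℓ ^ 2 * χ 1) := by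
            rw [hxy']
            field_simp
          rw [h3]
          field_simp
        rw [h2]
        refine (RM M).mul_mem ((RM M).mul_mem ((RM M).mul_mem ((RM M).mul_mem (rr_nat _).1 h1)
          (rr_nat _).1) (inv_nat_RM hℓ hM hy)) (inv_nat_RM hℓ hM hm2)
      refine ⟨ρ / (ℓ : ℚ) ^ 2, rat_RM hM ?_, ?_⟩
      · rw [← hρ'] at hRM
        push_cast
        exact hRM
      · rw [← hρ']
        have hℓQ : (ℓ : ℚ) ≠ 0 := by exact_mod_cast hℓ.ne_zero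
        have h7 : (ℓ : ℚ) ^ 2 * (ρ / (ℓ : ℚ) ^ 2) = ρ := by field_simp
        rw [h7]
    choose! q hq1 hq2 using hR
    refine ⟨∑ χ ∈ S, q χ, Subring.sum_mem _ hq1, ?_⟩
    rw [finsum_eq_sum_of_fintype]
    have h1 : ∑ c : V₀, (Nat.card (Es E₀ c) : ℂ) * L1 B c =
        ∑ χ ∈ S, ∑ c : V₀, (Nat.card (Es E₀ c) : ℂ) * cv (fc B ⊥ c) χ := by
      rw [Finset.sum_comm]
      refine Finset.sum_congr rfl fun c _ => ?_
      rw [eL1, Finset.mul_sum]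
    rw [h1, Finset.sum_congr rfl hq2, Rat.cast_mul, Rat.cast_sum, Finset.mul_sum]
    refine Finset.sum_congr rfl fun χ _ => ?_
    rw [Rat.cast_mul]

end Pool.Agent.PP.SE.H74
end
end -- Pool.Agent.Helper74_ASE.HSG

section -- Pool.Agent.Helper91_ASE.HTE

/-!
# Squad ASE, row HTE: the heights are zero
-/

open scoped BigOperators

noncomputable section

namespace Pool.Agent.PP.SE.H91

open Pool.Agent.Helper51_AWC Pool.Agent.Helper79_WRA Pool.Agent.PP Pool.Agent.PP.KF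
open Pool.Agent.PP.K9 Pool.Agent.PP.K9.H97 Pool.Agent.PP.H75 Pool.Agent.PP.T3 Pool.Agent.PP.SO
open Pool.Agent.PP.SD

attribute [local instance] Ideal.Quotient.field

/-! ## The local ring -/

section loc

variable {ℓ : ℕ} [hℓ : Fact ℓ.Prime] {M : Ideal (integralClosure ℤ ℂ)} [M.IsMaximal]

theorem rr_l (hM : (ℓ : integralClosure ℤ ℂ) ∈ M) : rr M (ℓ : ℂ) = 0 := by
  have := (dvd_of_rr (M := M) hℓ.out hM (n := (ℓ : ℤ))).2 dvd_rfl
  exact_mod_cast this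

theorem rr_nat_ne (hM : (ℓ : integralClosure ℤ ℂ) ∈ M) {n : ℕ} (hn : ¬ ℓ ∣ n) :
    rr M (n : ℂ) ≠ 0 := by
  intro h
  have h1 : rr M ((n : ℤ) : ℂ) = 0 := by exact_mod_cast h
  have h2 := (dvd_of_rr (M := M) hℓ.out hM (n := (n : ℤ))).1 h1
  exact hn (by exact_mod_cast h2)

/-- a rational number of the local ring is a unit or divisible by `ℓ` -/
theorem unit_or (hM : (ℓ : integralClosure ℤ ℂ) ∈ M) {q : ℚ} (h : (q : ℂ) ∈ RM M) :
    ((q : ℂ)⁻¹ ∈ RM M ∧ ¬ (ℓ : ℤ) ∣ q.num) ∨ (q : ℂ) / ℓ ∈ RM M := by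
  have hden : ¬ ℓ ∣ q.den := SO.H45.rat_RM hM h
  have hl0 : (ℓ : ℂ) ≠ 0 := Nat.cast_ne_zero.2 hℓ.out.ne_zero
  have h1 : ((q.num : ℤ) : ℂ) = (q : ℂ) * ((q.den : ℕ) : ℂ) := by
    have h2 : (q.num : ℚ) = q * q.den := (Rat.mul_den_eq_num q).symm
    exact_mod_cast congrArg (fun x : ℚ => (x : ℂ)) h2
  have hd := rr_nat_ne hM hden
  by_cases hr : rr M (q : ℂ) = 0
  · right
    have h3 : rr M ((q.num : ℤ) : ℂ) = 0 := by
      rw [h1, rr_mul h (rr_nat _).1, hr, zero_mul]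
    obtain ⟨k, hk⟩ := (dvd_of_rr (M := M) hℓ.out hM).1 h3
    obtain ⟨h4, h5⟩ := inv_RM (rr_nat (M := M) q.den).1 hd
    have h6 : (q : ℂ) / ℓ = (k : ℂ) * ((q.den : ℕ) : ℂ)⁻¹ := by
      rw [hk] at h1
      push_cast at h1
      field_simp
      exact h1.symm
    rw [h6]
    exact (RM M).mul_mem (rr_int k).1 h4
  · left
    refine ⟨(inv_RM h hr).1, ?_⟩
    intro hdv
    have h3 := (dvd_of_rr (M := M) hℓ.out hM (n := q.num)).2 hdv
    rw [h1, rr_mul h (rr_nat _).1] at h3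
    rcases mul_eq_zero.1 h3 with h4 | h4
    · exact hr h4
    · exact hd h4

end loc

/-! ## Characters and elements which are not regular -/

section chars

variable {ℓ : ℕ} [hℓ : Fact ℓ.Prime] {G : Type} [Group G] [Finite G]

/-- the inner product over the regular elements is symmetric if it is rational -/
theorem rip_star {χ ψ : G → ℂ} : starRingEnd ℂ (T5.rip ℓ χ ψ) = T5.rip ℓ ψ χ := by
  classical
  have := Fintype.ofFinite G
  unfold T5.rip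
  rw [map_mul, map_inv₀, Complex.conj_natCast, finsum_eq_sum_of_fintype,
    finsum_eq_sum_of_fintype, map_sum]
  congr 1
  refine Finset.sum_congr rfl fun s _ => ?_
  by_cases h : Reg ℓ s
  · rw [finsum_eq_if, if_pos h, finsum_eq_if, if_pos h, map_mul, Complex.conj_conj, mul_comm]
  · rw [finsum_eq_if, if_neg h, finsum_eq_if, if_neg h, map_zero]

/-- the norm over the regular elements is not an integer if the character does not vanish at some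
element which is not regular -/
theorem rip_not_int {χ : G → ℂ} (hχ : χ ∈ Irr G) {g : G} (hg : ¬ Reg ℓ g) (hχg : χ g ≠ 0)
    (n : ℤ) : T5.rip ℓ χ χ ≠ n := by
  classical
  have := Fintype.ofFinite G
  intro hn
  have hc : (0 : ℝ) < Fintype.card G := by exact_mod_cast Fintype.card_pos
  have hc' : (Fintype.card G : ℂ) ≠ 0 := by exact_mod_cast Fintype.card_ne_zero
  have h1 : (((Fintype.card G : ℝ)⁻¹ *
      ∑ k : G, if Reg ℓ k then Complex.normSq (χ k) else 0 : ℝ) : ℂ) = ((n : ℝ) : ℂ) := by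
    push_cast
    rw [← hn]
    unfold T5.rip
    rw [Nat.card_eq_fintype_card, finsum_eq_sum_of_fintype]
    congr 1
    refine Finset.sum_congr rfl fun k _ => ?_
    by_cases h : Reg ℓ k
    · rw [finsum_eq_if, if_pos h, if_pos h, ← Complex.mul_conj]
    · rw [finsum_eq_if, if_neg h, if_neg h, Complex.ofReal_zero]
  have h2 : (Fintype.card G : ℝ)⁻¹ *
      ∑ k : G, (if Reg ℓ k then Complex.normSq (χ k) else 0) = (n : ℝ) := by
    exact_mod_cast h1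
  have h3 := T5.H15.sum_nsq hχ
  have h4 : (∑ k : G, if Reg ℓ k then Complex.normSq (χ k) else 0) < Fintype.card G := by
    rw [← h3]
    refine Finset.sum_lt_sum (fun k _ => ?_) ⟨g, Finset.mem_univ g, ?_⟩
    · split_ifs
      · exact le_rfl
      · exact Complex.normSq_nonneg _
    · rw [if_neg hg]
      exact Complex.normSq_pos.2 hχg
  have h5 : (0 : ℝ) < ∑ k : G, if Reg ℓ k then Complex.normSq (χ k) else 0 := by
    refine Finset.sum_pos' (fun k _ => ?_) ⟨1, Finset.mem_univ 1, ?_⟩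
    · split_ifs
      · exact Complex.normSq_nonneg _
      · exact le_rfl
    · rw [if_pos (show Reg ℓ (1 : G) by
        unfold Reg
        rw [orderOf_one]
        exact Nat.coprime_one_left ℓ)]
      exact Complex.normSq_pos.2 (irr_one_ne hχ)
  have h6 : (0 : ℝ) < n := by
    rw [← h2]
    exact mul_pos (inv_pos.2 hc) h5
  have h7 : (n : ℝ) < 1 := by
    rw [← h2, inv_mul_lt_iff₀ hc, mul_one]
    exact h4
  have h8 : (0 : ℤ) < n := by exact_mod_cast h6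
  have h9 : n < 1 := by exact_mod_cast h7
  omega

end chars

theorem exists_nonreg (homr : HOmrStmt) (hixe : HIxeStmt) (hlnk : HLnkStmt) (wbo : WboStmt)
    (ℓ : ℕ) [hℓ : Fact ℓ.Prime] (M : Ideal (integralClosure ℤ ℂ)) [M.IsMaximal]
    (hM : (ℓ : integralClosure ℤ ℂ) ∈ M) (V₀ G : Type) [CommGroup V₀] [Finite V₀] [Group G]
    [Finite G] (E₀ : Subgroup (MulAut V₀)) (hex : ∀ v : V₀, v ^ ℓ = 1)
    (hcd : Nat.card V₀ = ℓ ^ 2) (B : Bk (FF M) V₀ G) (hB : Sb ℓ M E₀ B) {χ : G → ℂ}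
    (hχ : χ ∈ IrrE M B.e) : ∃ g, ¬ Reg ℓ g ∧ χ g ≠ 0 := by
  classical
  have hnt : Nontrivial V₀ := by
    rw [← Finite.one_lt_card_iff_nontrivial, hcd]
    exact Nat.one_lt_pow two_ne_zero hℓ.out.one_lt
  obtain ⟨c, hc⟩ := exists_ne (1 : V₀)
  obtain ⟨-, h2, -, h3⟩ := hixe ℓ M hM V₀ E₀ G B hB
  have h4 : ¬ ℓ ∣ nE E₀ c := fun h => h2 (h.trans ⟨_, (h3 c).2.1.symm⟩)
  have h5 : SO.cv (fc B ⊥ c) χ ≠ 0 := by
    intro h
    have h6 := (homr ℓ M hM V₀ E₀ G B hB c χ hχ).2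
    rw [h, rr_zero] at h6
    apply rr_nat_ne hM h4
    rw [(rr_nat (M := M) (nE E₀ c)).2, ← h6]
  obtain ⟨hC, hLc, hcv⟩ := hlnk ℓ M hM V₀ E₀ G B hB c
  have h6 : gv M (Cu (B.i c)) (B.i c) (B.b (Subgroup.zpowers c)) χ ≠ 0 := by
    intro h
    apply h5
    rw [hcv χ hχ.1, h, mul_zero, zero_div]
  unfold gv gbv at h6
  obtain ⟨t, ht⟩ : ∃ t : Cu (B.i c),
      eh M (fun t : Cu (B.i c) => B.b (Subgroup.zpowers c) t) t * χ (B.i c * t) ≠ 0 := by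
    by_contra hno
    apply h6
    apply finsum_eq_zero_of_forall_eq_zero
    intro t
    by_contra hne
    exact hno ⟨t, hne⟩
  have ht1 : eh M (fun t : Cu (B.i c) => B.b (Subgroup.zpowers c) t) t ≠ 0 :=
    left_ne_zero_of_mul ht
  have ht2 : χ (B.i c * t) ≠ 0 := right_ne_zero_of_mul ht
  have hreg : Reg ℓ (t : G) := by
    have hf : Fintype (Cu (B.i c)) := Fintype.ofFinite _
    by_contra hcon
    apply ht1
    refine K9.H25.eh_sing wbo ℓ M hM _ hLc.blk.blk.1 t (fun h => hcon ?_)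
    unfold Reg at h ⊢
    rwa [Subgroup.orderOf_coe]
  refine ⟨B.i c * t, ?_, ht2⟩
  intro hR
  have ho : orderOf (B.i c) = ℓ := by
    refine orderOf_eq_prime ?_ (fun h => hc (hB.inj (by rw [h, map_one])))
    rw [← map_pow, hex, map_one]
  have hcm : Commute (B.i c) (t : G) := by
    have := Subgroup.mem_centralizer_singleton_iff.1 t.2
    exact this.symm
  have hcop : (orderOf (B.i c)).Coprime (orderOf (t : G)) := by
    rw [ho]
    exact hreg.symm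
  unfold Reg at hR
  rw [hcm.orderOf_mul_eq_mul_orderOf_of_coprime hcop, ho] at hR
  have h7 : ℓ.Coprime ℓ := Nat.Coprime.coprime_mul_right hR
  exact hℓ.out.one_lt.ne' ((Nat.coprime_self ℓ).1 h7)

theorem hte (hza : HzaStmt) (rxe : RxeStmt) (nzf : TB.NzfStmt) (pr5 : T5.Pr5Stmt)
    (deg : T5.DegStmt) (inq : T5.InqStmt) (homr : HOmrStmt) (hixe : HIxeStmt) (hlnk : HLnkStmt)
    (wbo : WboStmt) : HteStmt := by
  intro ℓ hℓ M _ hM V₀ G _ _ _ _ E₀ hex hcd B hB χ hχ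
  have hl0 : (ℓ : ℂ) ≠ 0 := Nat.cast_ne_zero.2 hℓ.out.ne_zero
  have hN0 : (Nat.card G : ℂ) ≠ 0 := Nat.cast_ne_zero.2 Nat.card_pos.ne'
  have hblk := hB.ld.blk
  have htp := hB.ld.tp
  have hV : Nat.card B.i.range = ℓ ^ 2 := by
    rw [← hcd]
    exact (Nat.card_congr (MonoidHom.ofInjective hB.inj).toEquiv).symm
  have hV' : (Nat.card B.i.range : ℂ) = (ℓ : ℂ) ^ 2 := by rw [hV]; push_cast; rfl
  have hone : ∀ ψ ∈ IrrE M B.e, ψ 1 ≠ 0 := fun ψ hψ => irr_one_ne hψ.1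
  -- the numbers `a`
  have ha : ∀ ψ ∈ IrrE M B.e, (ℓ : ℂ) ^ 2 * ψ 1 / Nat.card G ∈ RM M := by
    intro ψ hψ
    have := deg ℓ M hM G B.e hblk B.i.range htp ψ hψ
    rwa [hV'] at this
  have hint : ∀ ψ ∈ IrrE M B.e, ∀ ψ' ∈ IrrE M B.e, ∃ n : ℤ,
      (ℓ : ℂ) ^ 2 * T5.rip ℓ ψ ψ' = n := by
    intro ψ hψ ψ' hψ'
    obtain ⟨n, hn⟩ := inq ℓ M hM G B.e hblk B.i.range htp ψ hψ ψ' hψ'
    rw [hV'] at hn
    exact ⟨n, hn⟩
  have hsym : ∀ ψ ∈ IrrE M B.e, ∀ ψ' ∈ IrrE M B.e, T5.rip ℓ ψ' ψ = T5.rip ℓ ψ ψ' := by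
    intro ψ hψ ψ' hψ'
    obtain ⟨n, hn⟩ := hint ψ hψ ψ' hψ'
    have h1 : T5.rip ℓ ψ ψ' = (n : ℂ) / (ℓ : ℂ) ^ 2 := by
      rw [← hn]
      field_simp
    rw [← rip_star, h1, map_div₀, map_pow, Complex.conj_natCast, map_intCast]
  -- (1)
  obtain ⟨χ₀, hχ₀, h0⟩ := hza ℓ M hM G B.e hblk B.i.range htp
  rw [hV'] at h0
  obtain ⟨N', hN'⟩ := pr5 ℓ G
  obtain ⟨ψ, hψR, hnz⟩ := nzf ℓ M hM G N' hN' B.e hblk
  have hψ : ψ ∈ IrrE M B.e := hψR.1
  have haψ : (Nat.card G : ℂ) / ((ℓ : ℂ) ^ 2 * ψ 1) ∈ RM M := by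
    obtain ⟨h1, h2⟩ := hnz χ₀ hχ₀
    obtain ⟨h3, h4⟩ := inv_RM h1 h2
    have h5 := (rxe ℓ M hM G B.e hblk χ₀ hχ₀.1 ψ hψ).1
    have hr : T5.rip ℓ χ₀ ψ ≠ 0 := by
      intro h
      apply h4
      rw [h, mul_zero, zero_div]
    have h6 : (Nat.card G : ℂ) / ((ℓ : ℂ) ^ 2 * ψ 1) = ((Nat.card G : ℂ) / ((ℓ : ℂ) ^ 2 * χ₀ 1)) *
        (((Nat.card G : ℂ) * T5.rip ℓ ψ χ₀ / ψ 1) *
          ((Nat.card G : ℂ) * T5.rip ℓ χ₀ ψ / χ₀ 1)⁻¹) := by
      rw [hsym χ₀ hχ₀ ψ hψ]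
      have h7 := hone χ₀ hχ₀
      have h8 := hone ψ hψ
      field_simp
    rw [h6]
    exact (RM M).mul_mem h0 ((RM M).mul_mem h5 h3)
  -- the rational number `a`
  obtain ⟨d, hd0, hd⟩ := irr_one hχ.1
  obtain ⟨q, hq⟩ : ∃ q : ℚ, q = (ℓ : ℚ) ^ 2 * d / Nat.card G := ⟨_, rfl⟩
  have hqC : (q : ℂ) = (ℓ : ℂ) ^ 2 * χ 1 / Nat.card G := by
    rw [hq, hd]
    push_cast
    rfl
  have hqR : (q : ℂ) ∈ RM M := by
    rw [hqC]
    exact ha χ hχ
  have hinv : (q : ℂ)⁻¹ = (Nat.card G : ℂ) / ((ℓ : ℂ) ^ 2 * χ 1) := by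
    rw [hqC, inv_div]
  rcases unit_or hM hqR with ⟨h1, h2⟩ | h1
  · -- (3)
    rw [hinv] at h1
    refine ⟨h1, q.den, q.num.natAbs, SO.H45.rat_RM hM hqR,
      fun h => h2 (Int.natCast_dvd.2 h), ?_⟩
    have hqpos : 0 < q := by
      have hG : (0 : ℚ) < Nat.card G := by exact_mod_cast Nat.card_pos
      have hd' : (0 : ℚ) < d := by exact_mod_cast hd0
      have hl' : (0 : ℚ) < ℓ := by exact_mod_cast hℓ.out.pos
      rw [hq]
      positivity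
    have h3 : ((q.num.natAbs : ℕ) : ℤ) = q.num := by
      rw [Int.natCast_natAbs]
      exact abs_of_pos (Rat.num_pos.2 hqpos)
    have h4 : ((q.num : ℤ) : ℂ) = (q : ℂ) * ((q.den : ℕ) : ℂ) := by
      have h5 : (q.num : ℚ) = q * q.den := (Rat.mul_den_eq_num q).symm
      exact_mod_cast congrArg (fun x : ℚ => (x : ℂ)) h5
    have h5 : ((q.num.natAbs : ℕ) : ℂ) = ((q.num : ℤ) : ℂ) := by
      have h6 : (((q.num.natAbs : ℕ) : ℤ) : ℂ) = ((q.num : ℤ) : ℂ) :=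
        congrArg (fun z : ℤ => (z : ℂ)) h3
      rw [← h6, Int.cast_natCast]
    rw [h5, h4, hqC]
    field_simp
  · -- (2)
    exfalso
    have hχ0 := hone χ hχ
    have hψ0 := hone ψ hψ
    obtain ⟨h2, h3⟩ := rxe ℓ M hM G B.e hblk χ hχ.1 χ hχ
    have h4 := h3 ψ hψ
    have h5 := (rxe ℓ M hM G B.e hblk ψ hψ.1 χ hχ).1
    have h6 : (Nat.card G : ℂ) * T5.rip ℓ ψ χ / ψ 1 = ℓ * ((q : ℂ) / ℓ *
        (((Nat.card G : ℂ) / ((ℓ : ℂ) ^ 2 * ψ 1)) *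
          ((Nat.card G : ℂ) * T5.rip ℓ χ ψ / χ 1))) := by
      rw [hsym χ hχ ψ hψ, hqC]
      field_simp
    rw [h6, rr_mul (rr_nat ℓ).1 ((RM M).mul_mem h1 ((RM M).mul_mem haψ h5)), rr_l hM,
      zero_mul] at h4
    obtain ⟨n, hn⟩ := hint χ hχ χ hχ
    have h7 : (n : ℂ) = ℓ * ((q : ℂ) / ℓ * ((Nat.card G : ℂ) * T5.rip ℓ χ χ / χ 1)) := by
      rw [← hn, hqC]
      field_simp
    have h8 : rr M (n : ℂ) = 0 := by
      rw [h7, rr_mul (rr_nat ℓ).1 ((RM M).mul_mem h1 h2), rr_l hM, zero_mul]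
    obtain ⟨n', hn'⟩ := (dvd_of_rr (M := M) hℓ.out hM).1 h8
    have h9 : (n' : ℂ) = (q : ℂ) / ℓ * ((Nat.card G : ℂ) * T5.rip ℓ χ χ / χ 1) := by
      have h10 : (ℓ : ℂ) * (n' : ℂ) =
          ℓ * ((q : ℂ) / ℓ * ((Nat.card G : ℂ) * T5.rip ℓ χ χ / χ 1)) := by
        rw [← h7, hn']
        push_cast
        rfl
      exact mul_left_cancel₀ hl0 h10
    have h10 : rr M (n' : ℂ) = 0 := by
      rw [h9, rr_mul h1 h2, h4, mul_zero]
    obtain ⟨n'', hn''⟩ := (dvd_of_rr (M := M) hℓ.out hM).1 h10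
    obtain ⟨g, hg, hχg⟩ := exists_nonreg homr hixe hlnk wbo ℓ M hM V₀ G E₀ hex hcd B hB hχ
    refine rip_not_int hχ.1 hg hχg n'' ?_
    have h11 : (ℓ : ℂ) ^ 2 * T5.rip ℓ χ χ = (ℓ : ℂ) ^ 2 * n'' := by
      rw [hn, hn', hn'']
      push_cast
      ring
    exact mul_left_cancel₀ (pow_ne_zero 2 hl0) h11

end Pool.Agent.PP.SE.H91
end
end -- Pool.Agent.Helper91_ASE.HTE
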