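import Pool.Agent.Helper12_AWB.B171
import Pool.Agent.Helper12_AWB.B213
import Pool.Agent.Helper12_AWB.B227
import Pool.Agent.Helper12_AWB.B229

/-!
# Merged copies (generated) of the modules

* `Pool.Agent.Helper42_ASE.SDG`
* `Pool.Agent.Helper42_ASE.CGB`
* `Pool.Agent.Helper42_ASE.TGG`
* `Pool.Agent.Helper2_ASE.LLW`
* `Pool.Agent.Helper42_ASE.VNU`
* `Pool.Agent.Helper79_ASD.FCD`
* `Pool.Agent.Helper81_ASE.XCH`
* `Pool.Agent.Helper97_ASE.CZB`
* `Pool.Agent.Helper77_ASE.VAL`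
* `Pool.Agent.Helper91_ASE.ETC`
-/

set_option autoImplicit false

section -- Pool.Agent.Helper42_ASE.SDG

/-!
# Squad ASE, row SDG: the comparison datum
-/

open scoped BigOperators

set_option autoImplicit false

noncomputable section

namespace Pool.Agent.PP.SE.H42

open Pool.Agent.Helper51_AWC Pool.Agent.Helper79_WRA Pool.Agent.PP Pool.Agent.PP.KF
open Pool.Agent.PP.K9 Pool.Agent.PP.K9.H97 Pool.Agent.PP.H75 Pool.Agent.PP.T3 Pool.Agent.PP.SO
open Pool.Agent.PP.SD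

attribute [local instance] Ideal.Quotient.field

section basic

variable {V₀ S G : Type} [CommGroup V₀] [Group S] [Group G] {φ : S →* MulAut V₀}
  {π : G →* V₀ ⋊[φ] S} {j : V₀ ⋊[φ] S →* G}

/-- the local block on the centraliser -/
theorem b_eq {F : Type} [Field F] (θ : S → F) (d : ℕ) (W : Subgroup V₀) :
    (fun t : (BG φ θ d π j).C W => (BG φ θ d π j).b W t) = fun t : CG j W => eR φ θ (π t) := by
  funext t
  exact if_pos t.2

theorem st_rw {E₀ : Subgroup (MulAut V₀)} {W : Subgroup V₀} (h : Rw E₀ W) : St E₀ W = ⊥ := by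
  rw [Subgroup.eq_bot_iff_forall]
  rintro σ ⟨h1, h2⟩
  exact h.2 σ h1 h2

theorem comap_rw {W : Subgroup V₀} (h : Rw φ.range W) :
    (St φ.range W).comap φ = φ.ker := by
  rw [st_rw h]
  rfl

end basic

theorem sdg (sbg : SbgStmt) (cen : CenStmt) (blg : BlgStmt) (chz : ChzStmt) : SdgStmt := by
  intro ℓ _ M _ hM V₀ S G _ _ _ _ _ _ φ θ κ d π j hq hθ hG
  have hℓ : ℓ.Prime := Fact.out
  obtain ⟨-, hK, -, hc⟩ := cen ℓ V₀ S G φ π j hq hG
  obtain ⟨-, -, hB⟩ := blg ℓ M hM V₀ S G φ θ κ d π j hq hθ hG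
  obtain ⟨-, hZ⟩ := chz ℓ M hM V₀ S φ θ κ d hq hθ
  have hU : ∀ W, Rw φ.range W → (BG φ θ d π j).U W = KW π j W := by
    intro W hW
    obtain ⟨-, -, -, -, h5, -⟩ := hc W
    obtain ⟨-, -, -, -, h5', -, -, h8', -⟩ := hc ⊤
    rw [comap_rw hW] at h5
    rw [h8', hK, mul_one] at h5'
    have hl0 : (ℓ : ℚ) ≠ 0 := Nat.cast_ne_zero.2 hℓ.ne_zero
    have hk0 : (Nat.card φ.ker : ℚ) ≠ 0 := Nat.cast_ne_zero.2 Nat.card_pos.ne'
    have hd0 : (d : ℚ) ≠ 0 := Nat.cast_ne_zero.2 hθ.dp.ne'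
    unfold Bk.U
    change (((1 : ℤ) : ℚ) * ((Nat.card (CG j W) : ℕ) : ℚ) * (d : ℚ)) /
      (((Nat.card (CG j (⊤ : Subgroup V₀)) : ℕ) : ℚ) * (d : ℚ)) = _
    rw [h5, h5']
    push_cast
    field_simp
  refine ⟨⟨sbg ℓ M hM V₀ S G φ θ κ d π j hq hθ hG, ?_, fun W _ => Or.inl rfl, ?_⟩, hU⟩
  · intro W hW
    refine ⟨hθ.dp, ?_⟩
    rw [b_eq]
    intro χ hχ
    obtain ⟨-, -, h3, h4, -⟩ := hc W
    rw [comap_rw hW] at h3
    obtain ⟨ψ, -, h6, rfl⟩ := (hB (CG j W) h4 φ.ker le_rfl h3).2.2 χ hχ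
    rw [hZ] at h6
    obtain ⟨lam, hlam, h7⟩ := h6
    have h8 := congrFun h7 1
    change ψ (π (1 : G)) = (d : ℂ)
    rw [map_one]
    have h9 : ψ (1 : V₀ ⋊[φ] S) = lam 1 * κ 1 := h8
    rw [h9, hlam.1, one_mul, hθ.kd]
  · intro W hW
    rw [hU W hW]
    obtain ⟨-, -, -, -, -, -, -, -, -, q, hq1, hq2⟩ := hc W
    exact ⟨q, hq1, hq2⟩

end Pool.Agent.PP.SE.H42
end
end -- Pool.Agent.Helper42_ASE.SDG

section -- Pool.Agent.Helper42_ASE.CGB

/-!
# Squad ASE: the comparison group, lemmas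
-/

open scoped BigOperators

set_option autoImplicit false

noncomputable section

namespace Pool.Agent.PP.SE.H42

open Pool.Agent.Helper51_AWC Pool.Agent.Helper79_WRA Pool.Agent.PP Pool.Agent.PP.KF
open Pool.Agent.PP.K9 Pool.Agent.PP.K9.H97 Pool.Agent.PP.H75 Pool.Agent.PP.T3 Pool.Agent.PP.SO
open Pool.Agent.PP.SD

attribute [local instance] Ideal.Quotient.field

section basic

variable {V₀ S G : Type} [CommGroup V₀] [Finite V₀] [Group S] [Finite S] [Group G] [Finite G]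
  {ℓ : ℕ} [Fact ℓ.Prime] {φ : S →* MulAut V₀} {π : G →* V₀ ⋊[φ] S} {j : V₀ ⋊[φ] S →* G}

/-- the elements of the centraliser of the defect group -/
theorem mem_top (cen : CenStmt) (hq : Fq ℓ V₀ φ.range) (hG : Cg ℓ φ π j) {x : G}
    (hx : x ∈ CG j (⊤ : Subgroup V₀)) : j (π x) = x ∧ φ (π x).right = 1 := by
  obtain ⟨-, hK, -, hc⟩ := cen ℓ V₀ S G φ π j hq hG
  obtain ⟨h1, h2, -, -, -, -, -, h8, -⟩ := hc ⊤
  obtain ⟨h3, h4⟩ := h2 x hx
  have h5 : (π.ker ⊓ CG j (⊤ : Subgroup V₀) : Subgroup G) = ⊥ := Subgroup.card_eq_one.1 hK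
  rw [h5, Subgroup.mem_bot] at h4
  refine ⟨(mul_inv_eq_one.1 h4).symm, ?_⟩
  have h6 : (π x).right ∈ (St φ.range (⊤ : Subgroup V₀)).comap φ := (h1 _).1 h3
  rw [h8] at h6
  exact h6

theorem top_mem (cen : CenStmt) (hq : Fq ℓ V₀ φ.range) (hG : Cg ℓ φ π j) {y : V₀ ⋊[φ] S}
    (hy : φ y.right = 1) : j y ∈ CG j (⊤ : Subgroup V₀) := by
  obtain ⟨-, -, -, hc⟩ := cen ℓ V₀ S G φ π j hq hG
  obtain ⟨h1, -, -, -, -, -, -, h8, -⟩ := hc ⊤
  apply (h1 y).2
  have h6 : y.right ∈ (St φ.range (⊤ : Subgroup V₀)).comap φ := by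
    rw [h8]
    exact hy
  exact h6

/-- the centraliser of the defect group -/
def topE (cen : CenStmt) (hq : Fq ℓ V₀ φ.range) (hG : Cg ℓ φ π j) :
    V₀ × φ.ker ≃ CG j (⊤ : Subgroup V₀) where
  toFun p := ⟨j ⟨p.1, p.2⟩, top_mem cen hq hG p.2.2⟩
  invFun x := ⟨(π x).left, ⟨(π x).right, (mem_top cen hq hG x.2).2⟩⟩
  left_inv := by
    rintro ⟨v, s⟩
    have h := hG.sec ⟨v, s⟩
    refine Prod.ext ?_ (Subtype.ext ?_)
    · change (π (j ⟨v, s⟩)).left = v
      rw [h]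
    · change (π (j ⟨v, s⟩)).right = s
      rw [h]
  right_inv := by
    rintro ⟨x, hx⟩
    exact Subtype.ext (mem_top cen hq hG hx).1

end basic

end Pool.Agent.PP.SE.H42
end
end -- Pool.Agent.Helper42_ASE.CGB

section -- Pool.Agent.Helper42_ASE.TGG

/-!
# Squad ASE, row TGG: the inertial group of the comparison datum
-/

open scoped BigOperators

set_option autoImplicit false

noncomputable section

namespace Pool.Agent.PP.SE.H42

open Pool.Agent.Helper51_AWC Pool.Agent.Helper79_WRA Pool.Agent.PP Pool.Agent.PP.KF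
open Pool.Agent.PP.K9 Pool.Agent.PP.K9.H97 Pool.Agent.PP.H75 Pool.Agent.PP.T3 Pool.Agent.PP.SO
open Pool.Agent.PP.SD

attribute [local instance] Ideal.Quotient.field

section basic

variable {V₀ S G : Type} [CommGroup V₀] [Finite V₀] [Group S] [Finite S] [Group G] [Finite G]
  {ℓ : ℕ} [Fact ℓ.Prime] {M : Ideal (integralClosure ℤ ℂ)} [M.IsMaximal]
  {φ : S →* MulAut V₀} {θ : S → FF M} {κ : S → ℂ} {d : ℕ}
  {π : G →* V₀ ⋊[φ] S} {j : V₀ ⋊[φ] S →* G}

theorem inl_inj' : Function.Injective (SemidirectProduct.inl : V₀ →* V₀ ⋊[φ] S) :=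
  SemidirectProduct.inl_injective

/-- the elements which normalise the defect group -/
theorem norm_j (hG : Cg ℓ φ π j) (hcj : ∀ y v, j y * iG j v * (j y)⁻¹ = iG j (φ y.right v))
    {x : G} (hx : x ∈ Subgroup.normalizer ((iG j).range : Set G)) : j (π x) = x := by
  have hpi : ∀ v, π (iG j v) = SemidirectProduct.inl v := fun v => hG.sec _
  have h1 : π (x * (j (π x))⁻¹) = 1 := by rw [map_mul, map_inv, hG.sec, mul_inv_cancel]
  have h2 : x * (j (π x))⁻¹ = 1 := by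
    refine hG.fix _ h1 fun v => ?_
    have h3 := hcj (π x)⁻¹ v
    rw [map_inv, inv_inv] at h3
    have h4 : x * iG j (φ ((π x)⁻¹).right v) * x⁻¹ ∈ (iG j).range :=
      (Subgroup.mem_normalizer_iff.1 hx _).1 ⟨_, rfl⟩
    obtain ⟨w, hw⟩ := h4
    have h5 : x * (j (π x))⁻¹ * iG j v * (x * (j (π x))⁻¹)⁻¹ = iG j w := by
      rw [hw, ← h3]
      group
    have h6 : v = w := by
      have h7 := congrArg π h5
      rw [map_mul, map_mul, map_inv, h1, inv_one, mul_one, one_mul, hpi, hpi] at h7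
      exact SemidirectProduct.inl_injective h7
    rw [← h6] at h5
    exact (mul_inv_eq_iff_eq_mul.1 h5).symm
  exact (mul_inv_eq_one.1 h2).symm

theorem conj_top (cen : CenStmt) (hq : Fq ℓ V₀ φ.range) (hG : Cg ℓ φ π j) (y : V₀ ⋊[φ] S) {x : G}
    (hx : x ∈ CG j (⊤ : Subgroup V₀)) : j y * x * (j y)⁻¹ ∈ CG j (⊤ : Subgroup V₀) := by
  obtain ⟨h1, h2⟩ := mem_top cen hq hG hx
  rw [← h1, ← map_mul, ← map_inv, ← map_mul]
  apply top_mem cen hq hG
  rw [SemidirectProduct.mul_right, SemidirectProduct.mul_right, SemidirectProduct.inv_right, map_mul,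
    map_mul, map_inv, h2, mul_one, mul_inv_cancel]

/-- the elements of the image of `j` are in the inertial group -/
theorem j_mem (cen : CenStmt) (hq : Fq ℓ V₀ φ.range) (hG : Cg ℓ φ π j)
    (hcj : ∀ y v, j y * iG j v * (j y)⁻¹ = iG j (φ y.right v)) (hcl : IsCl (eR φ θ))
    (y : V₀ ⋊[φ] S) : j y ∈ Tg (BG φ θ d π j).i.range (BG φ θ d π j).g := by
  classical
  refine ⟨?_, ?_⟩
  · change j y ∈ Subgroup.normalizer ((iG j).range : Set G)
    rw [Subgroup.mem_normalizer_iff]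
    intro h
    constructor
    · rintro ⟨v, rfl⟩
      rw [hcj]
      exact ⟨_, rfl⟩
    · rintro ⟨w, hw⟩
      refine ⟨φ (y⁻¹).right w, ?_⟩
      rw [← hcj y⁻¹ w, hw, map_inv, inv_inv]
      group
  · intro x
    change (if j y * x * (j y)⁻¹ ∈ CG j ⊤ then eR φ θ (π (j y * x * (j y)⁻¹)) else 0) =
      if x ∈ CG j ⊤ then eR φ θ (π x) else 0
    have h1 : j y * x * (j y)⁻¹ ∈ CG j (⊤ : Subgroup V₀) ↔ x ∈ CG j (⊤ : Subgroup V₀) := by
      constructor
      · intro h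
        have h2 := conj_top cen hq hG y⁻¹ h
        rw [map_inv, inv_inv] at h2
        have e : (j y)⁻¹ * (j y * x * (j y)⁻¹) * j y = x := by group
        rwa [e] at h2
      · exact conj_top cen hq hG y
    by_cases hx : x ∈ CG j (⊤ : Subgroup V₀)
    · rw [if_pos hx, if_pos (h1.2 hx), map_mul, map_mul, map_inv, hG.sec, hcl]
    · rw [if_neg hx, if_neg fun h => hx (h1.1 h)]

end basic

theorem tgg (cen : CenStmt) (bre : BreStmt) : TggStmt := by
  intro ℓ _ M _ hM V₀ S G _ _ _ _ _ _ φ θ κ d π j hq hθ hG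
  classical
  have hℓ : ℓ.Prime := Fact.out
  have hF : GoodF ℓ (FF M) := H50.fld ℓ Fact.out M hM
  obtain ⟨hinj, -, hcj, -⟩ := cen ℓ V₀ S G φ π j hq hG
  obtain ⟨hcl, -, -⟩ := bre ℓ M hM V₀ S φ θ κ d hq hθ
  refine ⟨fun x => ⟨fun hx => ⟨π x, norm_j hG hcj hx.1⟩, ?_⟩, fun E₁ hE₁ => ?_⟩
  · rintro ⟨y, rfl⟩
    exact j_mem cen hq hG hcj hcl y
  · have hTE : ∀ x, x ∈ TE (BG φ θ d π j) E₁ ↔ ∃ y, j y = x ∧ φ y.right ∈ E₁ := by
      intro x
      constructor
      · rintro ⟨hx, σ, hσ, h⟩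
        have h1 := norm_j hG hcj hx.1
        refine ⟨π x, h1, ?_⟩
        have h2 : φ (π x).right = σ := by
          apply MulEquiv.ext
          intro v
          apply hinj
          rw [← hcj, h1]
          exact h v
        rw [h2]
        exact hσ
      · rintro ⟨y, rfl, hy⟩
        exact ⟨j_mem cen hq hG hcj hcl y, φ y.right, hy, hcj y⟩
    refine ⟨hTE, ?_⟩
    have hp1 : ∀ t : TE (BG φ θ d π j) E₁, j (π t) = t ∧ φ (π t).right ∈ E₁ := by
      intro t
      obtain ⟨y, hy, hy2⟩ := (hTE t).1 t.2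
      have h1 : π (t : G) = y := by rw [← hy, hG.sec]
      rw [h1]
      exact ⟨hy, hy2⟩
    let p : TE (BG φ θ d π j) E₁ →* E₁.comap φ :=
      ((SemidirectProduct.rightHom.comp π).comp (TE (BG φ θ d π j) E₁).subtype).codRestrict
        (E₁.comap φ) fun t => (hp1 t).2
    have hpv : ∀ t, ((p t : E₁.comap φ) : S) = (π t).right := fun t => rfl
    have hp : Function.Surjective p := by
      intro s
      refine ⟨⟨j ⟨1, s⟩, (hTE _).2 ⟨_, rfl, s.2⟩⟩, Subtype.ext ?_⟩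
      rw [hpv]
      change (π (j ⟨1, s⟩)).right = s
      rw [hG.sec]
    have hk : IsPGroup ℓ p.ker := by
      rintro ⟨t, ht⟩
      refine ⟨1, ?_⟩
      apply Subtype.ext
      apply Subtype.ext
      have h1 : (π (t : G)).right = 1 := by
        rw [← hpv]
        have h2 : p t = 1 := ht
        rw [h2]
        rfl
      have h2 : (t : G) = iG j (π (t : G)).left := by
        rw [← (hp1 t).1]
        change j (π (t : G)) = j (SemidirectProduct.inl (π (j (π (t : G)))).left)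
        rw [hG.sec]
        congr 1
        exact SemidirectProduct.ext rfl h1
      change (t : G) ^ ℓ ^ 1 = 1
      rw [pow_one, h2, ← map_pow, hq.ex, map_one]
    have hpush : push p (fun t : TE (BG φ θ d π j) E₁ => (BG φ θ d π j).g t) =
        fun t : E₁.comap φ => θ t := by
      funext s
      unfold push
      have hx₀ : j ⟨1, s⟩ ∈ TE (BG φ θ d π j) E₁ := (hTE _).2 ⟨_, rfl, s.2⟩
      rw [finsum_eq_single _ (⟨j ⟨1, s⟩, hx₀⟩ : TE (BG φ θ d π j) E₁)]
      · have h1 : p ⟨j ⟨1, s⟩, hx₀⟩ = s := by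
          apply Subtype.ext
          rw [hpv]
          change (π (j ⟨1, s⟩)).right = s
          rw [hG.sec]
        rw [finsum_eq_if, if_pos h1]
        change (if j ⟨1, s⟩ ∈ CG j ⊤ then eR φ θ (π (j ⟨1, s⟩)) else 0) = θ s
        by_cases h2 : φ (s : S) = 1
        · rw [if_pos (top_mem cen hq hG h2), hG.sec]
          exact if_pos rfl
        · rw [if_neg, hθ.bx.supp _ h2]
          intro h3
          have h4 := (mem_top cen hq hG h3).2
          rw [hG.sec] at h4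
          exact h2 h4
      · intro x hx
        by_cases h1 : p x = s
        · rw [finsum_eq_if, if_pos h1]
          change (if (x : G) ∈ CG j ⊤ then eR φ θ (π x) else 0) = 0
          by_cases h2 : (x : G) ∈ CG j (⊤ : Subgroup V₀)
          · rw [if_pos h2]
            unfold eR
            rw [if_neg]
            intro h3
            apply hx
            apply Subtype.ext
            rw [← (hp1 x).1]
            congr 1
            refine SemidirectProduct.ext h3 ?_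
            rw [← h1]
            rfl
          · rw [if_neg h2]
        · rw [finsum_eq_if, if_neg h1]
    have h := cnt_push H20.nls hF hp hk (fun t : TE (BG φ θ d π j) E₁ => (BG φ θ d π j).g t)
    rw [hpush] at h
    exact h

end Pool.Agent.PP.SE.H42
end
end -- Pool.Agent.Helper42_ASE.TGG

section -- Pool.Agent.Helper2_ASE.LLW

/-!
# Row LLW: linear characters of `V₀` which are trivial on a reflection line
-/

open scoped BigOperators

noncomputable section

namespace Pool.Agent.PP.SE.H2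

open Pool.Agent.Helper51_AWC Pool.Agent.Helper79_WRA Pool.Agent.PP Pool.Agent.PP.KF
open Pool.Agent.PP.K9 Pool.Agent.PP.K9.H97 Pool.Agent.PP.H75 Pool.Agent.PP.T3 Pool.Agent.PP.SO
open Pool.Agent.PP.SD Pool.Agent.PP.SE

/-- a non trivial character sums to zero over a subgroup -/
theorem sum_zero {V₀ : Type} [CommGroup V₀] (A : Subgroup V₀) [Fintype A] (χ : V₀ →* ℂ) (b : V₀)
    (hb : b ∈ A) (h1 : χ b ≠ 1) : ∑ x : A, χ x = 0 := by
  have h2 : ∑ x : A, χ ((⟨b, hb⟩ * x : A) : V₀) = ∑ x : A, χ x :=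
    Fintype.sum_equiv (Equiv.mulLeft (⟨b, hb⟩ : A)) _ _ fun x => rfl
  have h3 : ∑ x : A, χ ((⟨b, hb⟩ * x : A) : V₀) = χ b * ∑ x : A, χ x := by
    rw [Finset.mul_sum]
    exact Finset.sum_congr rfl fun x _ => by
      rw [Subgroup.coe_mul, map_mul]
  rw [h3] at h2
  have h4 : (χ b - 1) * ∑ x : A, χ x = 0 := by rw [sub_mul, h2, one_mul, sub_self]
  rcases mul_eq_zero.1 h4 with h | h
  · exact absurd (sub_eq_zero.1 h) h1
  · exact h

/-- the kernel of a projection onto `W` has order `ℓ` -/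
theorem card_ker {V₀ : Type} [CommGroup V₀] [Finite V₀] {ℓ : ℕ} (hl : 0 < ℓ)
    (hV : Nat.card V₀ = ℓ ^ 2) (W : Subgroup V₀) (hW : Nat.card W = ℓ) (p : V₀ →* V₀)
    (h1 : ∀ c ∈ W, p c = c) (h2 : ∀ c, p c ∈ W) : Nat.card p.ker = ℓ := by
  have hr : p.range = W := by
    ext x
    constructor
    · rintro ⟨y, rfl⟩
      exact h2 y
    · intro hx
      exact ⟨x, h1 x hx⟩
  have h3 : p.ker.index = ℓ := by rw [Subgroup.index_ker, hr, hW]
  have h4 := Subgroup.card_mul_index p.ker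
  rw [h3, hV, sq] at h4
  exact Nat.eq_of_mul_eq_mul_right hl h4

theorem llw (prb : PrbStmt) : LlwStmt := by
  classical
  intro ℓ hl V₀ _ _ E₀ hq W hW
  obtain ⟨b1, ⟨b2, b2m, b2z⟩, b3, -, b5, -, b7, ⟨-, b8, -⟩, b9, -⟩ := prb ℓ V₀ E₀ hq W
  have b5 := b5 hW
  obtain ⟨hWc, hWn⟩ := hW
  have hl0 : 0 < ℓ := hl.out.pos
  have hl1 : 1 < ℓ := hl.out.one_lt
  have hWb : W ≠ ⊥ := by
    rintro rfl
    rw [Subgroup.card_bot] at hWc
    omega
  have b9 := b9 hWb
  refine ⟨?_, ?_⟩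
  · -- existence
    have hWt : W ≠ ⊤ := by
      rintro rfl
      rw [Subgroup.card_top, hq.cd, sq] at hWc
      have : ℓ * ℓ = ℓ * 1 := by omega
      have := Nat.eq_of_mul_eq_mul_left hl0 this
      omega
    obtain ⟨x, hx⟩ : ∃ x, x ∉ W := by
      by_contra hcon
      push Not at hcon
      exact hWt (Subgroup.eq_top_iff' W |>.2 hcon)
    have hx1 : (QuotientGroup.mk x : V₀ ⧸ W) ≠ 1 := by
      rwa [Ne, QuotientGroup.eq_one_iff]
    obtain ⟨f, hf⟩ := CommGroup.exists_apply_ne_one_of_hasEnoughRootsOfUnity (V₀ ⧸ W) ℂ hx1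
    refine ⟨fun v => ((f (QuotientGroup.mk v) : ℂˣ) : ℂ), ⟨?_, ?_⟩, ?_, x, ?_⟩
    · change ((f (1 : V₀ ⧸ W) : ℂˣ) : ℂ) = 1
      rw [map_one, Units.val_one]
    · intro v w
      change ((f ((v : V₀ ⧸ W) * (w : V₀ ⧸ W)) : ℂˣ) : ℂ) = _
      rw [map_mul, Units.val_mul]
    · intro w hw
      have : (QuotientGroup.mk w : V₀ ⧸ W) = 1 := (QuotientGroup.eq_one_iff w).2 hw
      change ((f (w : V₀ ⧸ W) : ℂˣ) : ℂ) = 1
      rw [this, map_one, Units.val_one]
    · intro h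
      exact hf (Units.ext h)
  · rintro lam ⟨lam1, lamm⟩ hlW ⟨x₀, hx₀⟩
    let L : V₀ →* ℂ := { toFun := lam, map_one' := lam1, map_mul' := lamm }
    have hL : ∀ v, L v = lam v := fun _ => rfl
    have hne : ∀ v, lam v ≠ 0 := by
      intro v h0
      have : lam (v * v⁻¹) = 0 := by rw [lamm, h0, zero_mul]
      rw [mul_inv_cancel, lam1] at this
      exact one_ne_zero this
    have hinv : ∀ v, lam v * lam v⁻¹ = 1 := fun v => by rw [← lamm, mul_inv_cancel, lam1]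
    -- (2)
    have c2 : ∀ x, x ∉ W → lam x ≠ 1 := by
      intro x hx h1
      obtain ⟨h2, -⟩ := b9 x hx
      have h3 : (⊤ : Subgroup V₀) ≤ L.ker := by
        rw [← h2, sup_le_iff]
        refine ⟨fun w hw => hlW w hw, ?_⟩
        rw [Subgroup.zpowers_le]
        exact h1
      exact hx₀ (h3 (Subgroup.mem_top x₀))
    have c2' : ∀ x, pr ℓ E₀ W x = 1 → x ≠ 1 → x ∉ W := by
      intro x hx h1 hxW
      exact h1 ((b1 x hxW).symm.trans hx)
    let p : V₀ →* V₀ := { toFun := pr ℓ E₀ W, map_one' := b2, map_mul' := b2m }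
    have hp : ∀ v, p v = pr ℓ E₀ W v := fun _ => rfl
    have hpk : ∀ v, v ∈ p.ker ↔ pr ℓ E₀ W v = 1 := fun v => by rw [MonoidHom.mem_ker, hp]
    have hcA : Nat.card p.ker = ℓ := card_ker hl0 hq.cd W hWc p b1 b5
    -- the component
    have hcomp : ∀ v, v * (pr ℓ E₀ W v)⁻¹ ∈ p.ker := by
      intro v
      rw [MonoidHom.mem_ker, map_mul, map_inv, hp, hp, b1 _ (b5 v), mul_inv_cancel]
    have hx₀W : x₀ ∉ W := fun h => hx₀ (hlW x₀ h)
    obtain ⟨a, haA, haW⟩ : ∃ a, a ∈ p.ker ∧ a ∉ W := by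
      refine ⟨_, hcomp x₀, fun h => hx₀W ?_⟩
      have := W.mul_mem h (b5 x₀)
      rwa [inv_mul_cancel_right] at this
    have ha1 : a ≠ 1 := fun h => haW (h ▸ W.one_mem)
    have hτA : ∀ τ ∈ St E₀ W, ∀ v ∈ p.ker, (τ : MulAut V₀) v ∈ p.ker := by
      intro τ hτ v hv
      rw [hpk] at hv ⊢
      rw [(b3 τ hτ v).1, hv]
    -- (3)
    have c3 : ∀ τ ∈ St E₀ W, (∀ v ∈ p.ker, lam (τ v) = lam v) → τ = 1 := by
      intro τ hτ h
      have h1 : τ a * a⁻¹ ∈ p.ker := p.ker.mul_mem (hτA τ hτ a haA) (p.ker.inv_mem haA)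
      have h2 : lam (τ a * a⁻¹) = 1 := by rw [lamm, h a haA, hinv]
      have h3 : τ a * a⁻¹ = 1 := by
        by_contra h4
        exact c2 _ (c2' _ ((hpk _).1 h1) h4) h2
      exact (b9 a haW).2 τ hτ (mul_inv_eq_one.1 h3)
    refine ⟨fun x hx h1 => c2 x (c2' x hx h1), fun τ hτ h => c3 τ hτ fun v _ => h v, ?_, ?_⟩
    · intro hn
      have hfin : Finite (St E₀ W) := inferInstance
      have hft : Fintype (St E₀ W) := Fintype.ofFinite _
      have hfA : Fintype p.ker := Fintype.ofFinite _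
      refine ⟨?_, ?_⟩
      · intro v hv
        rw [finsum_eq_sum_of_fintype]
        have h1 : ∀ τ : St E₀ W, lam ((τ : MulAut V₀) v) = 1 := fun τ => by
          rw [τ.2.2 v hv, hlW v hv]
        simp_rw [h1]
        rw [Finset.sum_const, Finset.card_univ, ← Nat.card_eq_fintype_card]
        change nS E₀ W • (1 : ℂ) = _
        rw [hn, nsmul_eq_mul, mul_one, Nat.cast_sub hl1.le, Nat.cast_one]
      · intro v hv
        set b := v * (pr ℓ E₀ W v)⁻¹ with hb
        have hbA : b ∈ p.ker := hcomp v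
        have hbW : b ∉ W := fun h => hv (by
          have := W.mul_mem h (b5 v)
          rwa [hb, inv_mul_cancel_right] at this)
        have hbv : ∀ τ ∈ St E₀ W, lam (τ v) = lam (τ b) := by
          intro τ hτ
          have h1 : v = b * pr ℓ E₀ W v := by rw [hb, inv_mul_cancel_right]
          have h2 : τ v = τ b * pr ℓ E₀ W v := by
            conv_lhs => rw [h1, map_mul, hτ.2 _ (b5 v)]
          rw [h2, lamm, hlW _ (b5 v), mul_one]
        rw [finsum_eq_sum_of_fintype]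
        have h1 : ∀ τ : St E₀ W, lam ((τ : MulAut V₀) v) = lam ((τ : MulAut V₀) b) :=
          fun τ => hbv τ τ.2
        simp_rw [h1]
        -- the injection
        let e : St E₀ W → p.ker := fun τ => ⟨(τ : MulAut V₀) b, hτA τ τ.2 b hbA⟩
        have he : Function.Injective e := by
          intro τ τ' h
          have h2 : (τ : MulAut V₀) b = (τ' : MulAut V₀) b := congrArg Subtype.val h
          have h3 : ((τ' : MulAut V₀)⁻¹ * (τ : MulAut V₀)) b = b := by
            rw [MulAut.mul_apply, h2, MulAut.inv_apply_self]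
          have h4 := (b9 b hbW).2 _ ((St E₀ W).mul_mem ((St E₀ W).inv_mem τ'.2) τ.2) h3
          exact Subtype.ext (inv_mul_eq_one.1 h4).symm
        have h2 : ∑ τ : St E₀ W, lam ((τ : MulAut V₀) b) = ∑ x ∈ Finset.univ.image e, lam x := by
          rw [Finset.sum_image fun x _ y _ h => he h]
        have h3 : Finset.univ.image e = Finset.univ.erase (1 : p.ker) := by
          apply Finset.eq_of_subset_of_card_le
          · intro x hx
            obtain ⟨τ, -, rfl⟩ := Finset.mem_image.1 hx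
            refine Finset.mem_erase.2 ⟨fun h => ?_, Finset.mem_univ _⟩
            have h4 : (τ : MulAut V₀) b = 1 := congrArg Subtype.val h
            have h5 : b = 1 := by
              have := congrArg (fun y => (τ : MulAut V₀)⁻¹ y) h4
              simpa using this
            exact hbW (h5 ▸ W.one_mem)
          · rw [Finset.card_erase_of_mem (Finset.mem_univ _), Finset.card_image_of_injective _ he,
              Finset.card_univ, Finset.card_univ, ← Nat.card_eq_fintype_card,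
              ← Nat.card_eq_fintype_card, hcA]
            change ℓ - 1 ≤ nS E₀ W
            rw [hn]
        rw [h2, h3]
        have h4 := sum_zero p.ker L b hbA (c2 b hbW)
        rw [← Finset.add_sum_erase _ _ (Finset.mem_univ (1 : p.ker))] at h4
        have h5 : L ((1 : p.ker) : V₀) = 1 := by rw [Subgroup.coe_one, map_one]
        rw [h5] at h4
        have h6 : ∑ x ∈ Finset.univ.erase (1 : p.ker), lam x =
            ∑ x ∈ Finset.univ.erase (1 : p.ker), L x := rfl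
        rw [h6]
        linear_combination h4
    · intro hn
      by_contra hcon
      push Not at hcon
      apply hn
      have hft : Fintype (St E₀ W) := Fintype.ofFinite _
      have hfA : Fintype p.ker := Fintype.ofFinite _
      set f : V₀ → ℂ := fun x => ∑ᶠ τ : St E₀ W, lam ((τ : MulAut V₀) x) with hf
      have hfs : ∀ x, f x = ∑ τ : St E₀ W, lam ((τ : MulAut V₀) x) := fun x => by
        rw [hf]
        exact finsum_eq_sum_of_fintype _
      set c := f a with hc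
      have hconst : ∀ x ∈ p.ker, x ≠ 1 → f x = c := by
        intro x hx h1
        exact hcon x a (c2' x ((hpk x).1 hx) h1) haW ((hpk x).1 hx) ((hpk a).1 haA)
      have hf1 : f 1 = nS E₀ W := by
        rw [hfs]
        have h1 : ∀ τ : St E₀ W, lam ((τ : MulAut V₀) 1) = 1 := fun τ => by
          rw [map_one, lam1]
        simp_rw [h1]
        rw [Finset.sum_const, Finset.card_univ, ← Nat.card_eq_fintype_card, nsmul_eq_mul, mul_one]
        rfl
      have hcard : Fintype.card p.ker = ℓ := by rw [← Nat.card_eq_fintype_card, hcA]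
      -- the sum of `f`
      have s1 : ∑ x : p.ker, f x = 0 := by
        simp_rw [hfs]
        rw [Finset.sum_comm]
        apply Finset.sum_eq_zero
        intro τ _
        have hm : ((τ : MulAut V₀)⁻¹ : MulAut V₀) a ∈ p.ker :=
          hτA _ ((St E₀ W).inv_mem τ.2) a haA
        refine sum_zero p.ker (L.comp ((τ : MulAut V₀) : V₀ ≃* V₀).toMonoidHom) _ hm ?_
        change lam ((τ : MulAut V₀) ((τ : MulAut V₀)⁻¹ a)) ≠ 1
        rw [MulAut.apply_inv_self]
        exact c2 a haW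
      have s2 : ∑ x : p.ker, f x * lam ((x : V₀)⁻¹) = ℓ := by
        simp_rw [hfs, Finset.sum_mul]
        rw [Finset.sum_comm]
        rw [← Finset.add_sum_erase _ _ (Finset.mem_univ (1 : St E₀ W))]
        have h1 : ∑ τ ∈ Finset.univ.erase (1 : St E₀ W),
            ∑ x : p.ker, lam ((τ : MulAut V₀) x) * lam ((x : V₀)⁻¹) = 0 := by
          apply Finset.sum_eq_zero
          intro τ hτ
          have hτ1 : (τ : MulAut V₀) ≠ 1 := fun h =>
            (Finset.mem_erase.1 hτ).1 (Subtype.ext h)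
          have h2 : ∃ v ∈ p.ker, lam ((τ : MulAut V₀) v) ≠ lam v := by
            by_contra h3
            push Not at h3
            exact hτ1 (c3 τ τ.2 h3)
          obtain ⟨v, hv, hv1⟩ := h2
          let X : V₀ →* ℂ :=
            { toFun := fun x => lam ((τ : MulAut V₀) x) * lam (x⁻¹)
              map_one' := by rw [map_one, inv_one, lam1, mul_one]
              map_mul' := fun x y => by
                rw [map_mul, lamm, mul_inv, lamm]
                ring }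
          refine sum_zero p.ker X v hv fun h => hv1 ?_
          have h4 : lam ((τ : MulAut V₀) v) * lam (v⁻¹) = 1 := h
          calc lam ((τ : MulAut V₀) v) = lam ((τ : MulAut V₀) v) * (lam v * lam v⁻¹) := by
                rw [hinv, mul_one]
            _ = (lam ((τ : MulAut V₀) v) * lam (v⁻¹)) * lam v := by ring
            _ = lam v := by rw [h4, one_mul]
        rw [h1, add_zero]
        have h3 : ∀ x : p.ker, lam (((1 : St E₀ W) : MulAut V₀) x) * lam ((x : V₀)⁻¹) = 1 :=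
          fun x => by
            rw [Subgroup.coe_one, MulAut.one_apply, hinv]
        simp_rw [h3]
        rw [Finset.sum_const, Finset.card_univ, hcard, nsmul_eq_mul, mul_one]
      have e1 : (nS E₀ W : ℂ) + (ℓ - 1) * c = 0 := by
        rw [← Finset.add_sum_erase _ _ (Finset.mem_univ (1 : p.ker))] at s1
        have h1 : ∑ x ∈ Finset.univ.erase (1 : p.ker), f x = (ℓ - 1) * c := by
          have h2 : ∀ x ∈ Finset.univ.erase (1 : p.ker), f x = c := fun x hx =>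
            hconst x x.2 fun h => (Finset.mem_erase.1 hx).1 (Subtype.ext h)
          rw [Finset.sum_congr rfl h2, Finset.sum_const,
            Finset.card_erase_of_mem (Finset.mem_univ _), Finset.card_univ, hcard, nsmul_eq_mul,
            Nat.cast_sub hl1.le, Nat.cast_one]
        rw [h1, Subgroup.coe_one, hf1] at s1
        exact s1
      have e2 : (nS E₀ W : ℂ) - c = ℓ := by
        rw [← Finset.add_sum_erase _ _ (Finset.mem_univ (1 : p.ker))] at s2
        have h1 : ∑ x ∈ Finset.univ.erase (1 : p.ker), f x * lam ((x : V₀)⁻¹) = - c := by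
          have h2 : ∀ x ∈ Finset.univ.erase (1 : p.ker), f x * lam ((x : V₀)⁻¹) =
              c * lam ((x : V₀)⁻¹) := fun x hx => by
            rw [hconst x x.2 fun h => (Finset.mem_erase.1 hx).1 (Subtype.ext h)]
          rw [Finset.sum_congr rfl h2, ← Finset.mul_sum]
          let X : V₀ →* ℂ :=
            { toFun := fun x => lam (x⁻¹)
              map_one' := by rw [inv_one, lam1]
              map_mul' := fun x y => by rw [mul_inv, lamm] }
          have h3 : ∑ x : p.ker, X x = 0 := by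
            refine sum_zero p.ker X a haA fun h => c2 a haW ?_
            have h4 : lam a⁻¹ = 1 := h
            have h5 := hinv a
            rwa [h4, mul_one] at h5
          rw [← Finset.add_sum_erase _ _ (Finset.mem_univ (1 : p.ker))] at h3
          have h5 : X ((1 : p.ker) : V₀) = 1 := by rw [Subgroup.coe_one, map_one]
          rw [h5] at h3
          have h6 : ∑ x ∈ Finset.univ.erase (1 : p.ker), lam ((x : V₀)⁻¹) =
            ∑ x ∈ Finset.univ.erase (1 : p.ker), X x := rfl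
          rw [h6]
          have h7 : ∑ x ∈ Finset.univ.erase (1 : p.ker), X x = -1 := by linear_combination h3
          rw [h7, mul_neg, mul_one]
        rw [h1, Subgroup.coe_one, hf1, inv_one, lam1, mul_one] at s2
        rw [sub_eq_add_neg]
        exact s2
      have e3 : (ℓ : ℂ) * (nS E₀ W : ℂ) = ℓ * ((ℓ - 1 : ℕ) : ℂ) := by
        rw [Nat.cast_sub hl1.le, Nat.cast_one]
        linear_combination e1 + ((ℓ : ℂ) - 1) * e2
      have e4 : ℓ * nS E₀ W = ℓ * (ℓ - 1) := by exact_mod_cast e3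
      exact Nat.eq_of_mul_eq_mul_left hl0 e4

end Pool.Agent.PP.SE.H2
end
end -- Pool.Agent.Helper2_ASE.LLW

section -- Pool.Agent.Helper42_ASE.VNU

/-!
# Squad ASE, row VNU: the numbers `Vx`, `nu` of the comparison datum
-/

open scoped BigOperators

set_option autoImplicit false

noncomputable section

namespace Pool.Agent.PP.SE.H42

open Pool.Agent.Helper51_AWC Pool.Agent.Helper79_WRA Pool.Agent.PP Pool.Agent.PP.KF
open Pool.Agent.PP.K9 Pool.Agent.PP.K9.H97 Pool.Agent.PP.H75 Pool.Agent.PP.T3 Pool.Agent.PP.SO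
open Pool.Agent.PP.SD

attribute [local instance] Ideal.Quotient.field

/-- a sum over a subgroup -/
theorem sum_ext0 {G : Type} [Group G] (C : Subgroup G) (a : C → ℂ) (g : G → ℂ) :
    ∑ᶠ s : G, PP.ext0 C a s * g s = ∑ᶠ t : C, a t * g t := by
  classical
  have h1 : ∀ t : C, a t * g t = PP.ext0 C a t * g t := by
    intro t
    rw [PP.ext0, dif_pos t.2]
  rw [finsum_congr h1]
  have h2 : ∑ᶠ t : C, PP.ext0 C a (t : G) * g t = ∑ᶠ s ∈ (C : Set G), PP.ext0 C a s * g s :=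
    finsum_set_coe_eq_finsum_mem (C : Set G) (f := fun s => PP.ext0 C a s * g s)
  rw [h2]
  apply finsum_congr
  intro s
  by_cases hs : s ∈ C
  · rw [finsum_eq_if, if_pos]
    exact hs
  · rw [finsum_eq_if, if_neg (show ¬ s ∈ (C : Set G) from hs), PP.ext0, dif_neg hs, zero_mul]

section basic

variable {V₀ S G : Type} [CommGroup V₀] [Finite V₀] [Group S] [Finite S] [Group G] [Finite G]
  {ℓ : ℕ} [Fact ℓ.Prime] {M : Ideal (integralClosure ℤ ℂ)} [M.IsMaximal]
  {φ : S →* MulAut V₀} {θ : S → FF M} {κ : S → ℂ} {d : ℕ}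
  {π : G →* V₀ ⋊[φ] S} {j : V₀ ⋊[φ] S →* G}

/-- the characters of the local block of the defect group -/
theorem irr_top (cen : CenStmt) (blg : BlgStmt) (chz : ChzStmt)
    (hM : (ℓ : integralClosure ℤ ℂ) ∈ M) (hq : Fq ℓ V₀ φ.range) (hθ : Th ℓ M φ θ κ d)
    (hG : Cg ℓ φ π j) :
    IrrE M (fun t : CG j (⊤ : Subgroup V₀) => eR φ θ (π t)) =
      (fun lam : V₀ → ℂ => fun t : CG j (⊤ : Subgroup V₀) => lam (π t).left * κ (π t).right) ''
        lin V₀ := by
  obtain ⟨-, -, -, hc⟩ := cen ℓ V₀ S G φ π j hq hG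
  obtain ⟨-, -, hB⟩ := blg ℓ M hM V₀ S G φ θ κ d π j hq hθ hG
  obtain ⟨-, hZ⟩ := chz ℓ M hM V₀ S φ θ κ d hq hθ
  obtain ⟨-, -, h3, h4, -, -, -, h8, -⟩ := hc ⊤
  rw [h8] at h3
  obtain ⟨-, hB2, hB3⟩ := hB (CG j ⊤) h4 φ.ker le_rfl h3
  ext χ
  constructor
  · intro hχ
    obtain ⟨ψ, -, h6, rfl⟩ := hB3 χ hχ
    rw [hZ] at h6
    obtain ⟨lam, hlam, h7⟩ := h6
    refine ⟨lam, hlam, ?_⟩
    funext t
    have h9 : π t ∈ RS φ φ.ker := by
      change (π t).right ∈ φ.ker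
      exact (mem_top cen hq hG t.2).2
    exact (congrFun h7 ⟨π t, h9⟩).symm
  · rintro ⟨lam, hlam, rfl⟩
    exact hB2 (fun y => lam y.left * κ y.right) (by rw [hZ]; exact ⟨lam, hlam, rfl⟩)

theorem sum_lin (v : V₀) : ∑ᶠ lam ∈ lin V₀, lam v =
    open Classical in if v = 1 then (Nat.card V₀ : ℂ) else 0 := by
  classical
  have : Fintype (lin V₀) := Fintype.ofFinite _
  have h := SO.H79.lin_sum v
  rw [← finsum_set_coe_eq_finsum_mem (lin V₀) (f := fun lam => lam v), finsum_eq_sum_of_fintype, h]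

/-- the lift of the idempotent -/
theorem eh_top (cen : CenStmt) (blg : BlgStmt) (chz : ChzStmt)
    (hM : (ℓ : integralClosure ℤ ℂ) ∈ M) (hq : Fq ℓ V₀ φ.range) (hθ : Th ℓ M φ θ κ d)
    (hG : Cg ℓ φ π j) (p : V₀ × φ.ker) :
    eh M (fun t : CG j (⊤ : Subgroup V₀) => eR φ θ (π t)) (topE cen hq hG p) =
      open Classical in (Nat.card (CG j (⊤ : Subgroup V₀)) : ℂ)⁻¹ * ((d : ℂ) * κ (p.2 : S)⁻¹ *
        if p.1 = 1 then (Nat.card V₀ : ℂ) else 0) := by
  classical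
  obtain ⟨v, s⟩ := p
  unfold eh
  congr 1
  rw [irr_top cen blg chz hM hq hθ hG]
  have hinj : Set.InjOn (fun lam : V₀ → ℂ => fun t : CG j (⊤ : Subgroup V₀) =>
      lam (π t).left * κ (π t).right) (lin V₀) := by
    intro lam _ lam' _ h
    funext w
    have h1 := congrFun h (topE cen hq hG (w, 1))
    have h2 : π ((topE cen hq hG (w, 1) : CG j (⊤ : Subgroup V₀)) : G) = ⟨w, 1⟩ := hG.sec _
    change lam (π ((topE cen hq hG (w, 1) : CG j (⊤ : Subgroup V₀)) : G)).left * κ _ =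
      lam' (π ((topE cen hq hG (w, 1) : CG j (⊤ : Subgroup V₀)) : G)).left * κ _ at h1
    rw [h2] at h1
    refine mul_right_cancel₀ ?_ h1
    change κ 1 ≠ 0
    rw [hθ.kd]
    exact Nat.cast_ne_zero.2 hθ.dp.ne'
  rw [finsum_mem_image hinj]
  have h1 : π (((topE cen hq hG (v, s) : CG j (⊤ : Subgroup V₀))⁻¹ : CG j (⊤ : Subgroup V₀)) : G) =
      ⟨v⁻¹, (s : S)⁻¹⟩ := by
    have h2 : π ((topE cen hq hG (v, s) : CG j (⊤ : Subgroup V₀)) : G) = ⟨v, s⟩ := hG.sec _
    rw [Subgroup.coe_inv, map_inv, h2]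
    refine SemidirectProduct.ext ?_ rfl
    rw [SemidirectProduct.inv_left]
    have h3 : φ (s : S) = 1 := s.2
    change (φ (s : S)⁻¹) v⁻¹ = v⁻¹
    rw [map_inv φ, h3, inv_one]
    rfl
  have h4 : ∀ lam : V₀ → ℂ, lam ∈ lin V₀ →
      ((fun t : CG j (⊤ : Subgroup V₀) => lam (π t).left * κ (π t).right) 1 *
        (fun t : CG j (⊤ : Subgroup V₀) => lam (π t).left * κ (π t).right)
          (topE cen hq hG (v, s))⁻¹) = (d : ℂ) * κ (s : S)⁻¹ * lam v⁻¹ := by
    intro lam hlam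
    change lam (π ((1 : CG j (⊤ : Subgroup V₀)) : G)).left * κ (π ((1 : CG j (⊤ : Subgroup V₀)) : G)).right *
      (lam (π (((topE cen hq hG (v, s) : CG j (⊤ : Subgroup V₀))⁻¹ : CG j (⊤ : Subgroup V₀)) : G)).left *
        κ (π (((topE cen hq hG (v, s) : CG j (⊤ : Subgroup V₀))⁻¹ : CG j (⊤ : Subgroup V₀)) : G)).right) = _
    rw [h1, Subgroup.coe_one, map_one]
    change lam 1 * κ 1 * (lam v⁻¹ * κ (s : S)⁻¹) = _
    rw [hlam.1, hθ.kd]
    ring
  have h5 := finsum_mem_congr (s := lin V₀) rfl h4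
  refine h5.trans ?_
  have : Fintype (lin V₀) := Fintype.ofFinite _
  rw [← finsum_set_coe_eq_finsum_mem (lin V₀) (f := fun lam => (d : ℂ) * κ (s : S)⁻¹ * lam v⁻¹),
    finsum_eq_sum_of_fintype, ← Finset.mul_sum, SO.H79.lin_sum]
  congr 1
  by_cases hv : v = 1
  · rw [if_pos hv, if_pos (by rw [hv, inv_one])]
  · rw [if_neg hv, if_neg (fun h => hv (inv_eq_one.1 h))]

end basic

theorem vnu (cen : CenStmt) (blg : BlgStmt) (chz : ChzStmt) : VnuStmt := by
  intro ℓ _ M _ hM V₀ S G _ _ _ _ _ _ φ θ κ d π j hq hθ hG χ f hχ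
  classical
  have hℓ : ℓ.Prime := Fact.out
  have hd0 : (d : ℂ) ≠ 0 := Nat.cast_ne_zero.2 hθ.dp.ne'
  have hch : ∀ v : V₀, χ (iG j v) = (d : ℂ) * f v := by
    intro v
    have h1 := hχ v 1 (map_one φ)
    rw [hθ.kd] at h1
    exact h1
  have hch1 : χ 1 = (d : ℂ) * f 1 := by
    have h1 := hch 1
    rwa [map_one] at h1
  refine ⟨fun x => ?_, fun hf w => ?_⟩
  · obtain ⟨-, hK, -, hc⟩ := cen ℓ V₀ S G φ π j hq hG
    obtain ⟨-, -, -, -, h5, -, -, h8, -⟩ := hc ⊤
    rw [h8, hK, mul_one] at h5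
    obtain ⟨hsum, -⟩ := chz ℓ M hM V₀ S φ θ κ d hq hθ
    unfold Vx bh
    rw [b_eq]
    change (d : ℂ)⁻¹ * ∑ᶠ s : G, PP.ext0 (CG j ⊤) (eh M (fun t : CG j (⊤ : Subgroup V₀) =>
      eR φ θ (π t))) s * χ (iG j x * s) = f x
    rw [sum_ext0, ← finsum_comp_equiv (topE cen hq hG)]
    have h1 : ∀ p : V₀ × φ.ker, eh M (fun t : CG j (⊤ : Subgroup V₀) => eR φ θ (π t))
        (topE cen hq hG p) * χ (iG j x * (topE cen hq hG p : CG j (⊤ : Subgroup V₀))) =
        (Nat.card (CG j (⊤ : Subgroup V₀)) : ℂ)⁻¹ * (d : ℂ) *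
          ((if p.1 = 1 then (Nat.card V₀ : ℂ) * f (x * p.1) else 0) *
            (κ (p.2 : S)⁻¹ * κ (p.2 : S))) := by
      intro p
      rw [eh_top cen blg chz hM hq hθ hG]
      have h2 : iG j x * ((topE cen hq hG p : CG j (⊤ : Subgroup V₀)) : G) =
          j ⟨x * p.1, (p.2 : S)⟩ := by
        change j (SemidirectProduct.inl x) * j ⟨p.1, (p.2 : S)⟩ = _
        rw [← map_mul]
        congr 1
        refine SemidirectProduct.ext ?_ ?_
        · rw [SemidirectProduct.mul_left]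
          change x * (φ (1 : S)) p.1 = x * p.1
          rw [map_one]
          rfl
        · rw [SemidirectProduct.mul_right]
          change 1 * (p.2 : S) = p.2
          rw [one_mul]
      rw [h2, hχ _ _ p.2.2]
      split_ifs
      · ring
      · ring
    rw [finsum_congr h1]
    have : Fintype V₀ := Fintype.ofFinite _
    have : Fintype φ.ker := Fintype.ofFinite _
    rw [finsum_eq_sum_of_fintype, ← Finset.mul_sum, Fintype.sum_prod_type]
    have h3 : ∑ v : V₀, ∑ s : φ.ker, (if v = 1 then (Nat.card V₀ : ℂ) * f (x * v) else 0) *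
        (κ (s : S)⁻¹ * κ (s : S)) = (Nat.card V₀ : ℂ) * f x * Nat.card φ.ker := by
      rw [← hsum, finsum_eq_sum_of_fintype]
      rw [Finset.sum_eq_single (1 : V₀)]
      · rw [← Finset.mul_sum, if_pos rfl, mul_one]
      · intro v _ hv
        apply Finset.sum_eq_zero
        intro s _
        rw [if_neg hv, zero_mul]
      · intro h
        exact absurd (Finset.mem_univ _) h
    have h4 : (∑ v : V₀, ∑ s : φ.ker, (if (v, s).1 = 1 then (Nat.card V₀ : ℂ) * f (x * (v, s).1) else 0) *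
        (κ (((v, s) : V₀ × φ.ker).2 : S)⁻¹ * κ (((v, s) : V₀ × φ.ker).2 : S))) = 
        (Nat.card V₀ : ℂ) * f x * Nat.card φ.ker := h3
    rw [h4, h5, hq.cd]
    have hl0 : (ℓ : ℂ) ≠ 0 := Nat.cast_ne_zero.2 hℓ.ne_zero
    have hk0 : (Nat.card φ.ker : ℂ) ≠ 0 := Nat.cast_ne_zero.2 Nat.card_pos.ne'
    push_cast
    field_simp
  · change χ (iG j w) / χ 1 = f w / f 1
    rw [hch, hch1, mul_div_mul_left _ _ hd0]

end Pool.Agent.PP.SE.H42
end
end -- Pool.Agent.Helper42_ASE.VNU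

section -- Pool.Agent.Helper79_ASD.FCD

/-!
# Squad ASD, row FCD: `fc W x` lies in the ideal of the block `b W` (helper79)
-/

open scoped BigOperators

noncomputable section

namespace Pool.Agent.PP.SD.H79

open Pool.Agent.Helper51_AWC Pool.Agent.Helper79_WRA Pool.Agent.PP Pool.Agent.PP.KF
open Pool.Agent.PP.K9 Pool.Agent.PP.K9.H97 Pool.Agent.PP.H75 Pool.Agent.PP.T3 Pool.Agent.PP.SO

attribute [local instance] Ideal.Quotient.field

section tools

variable {F G : Type} [Field F] [Group G] [Finite G]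

/-- the condition over `γ` in a subgroup -/
theorem gam_H {X V : Subgroup G} (hVX : V ≤ X) (hCX : Subgroup.centralizer (V : Set G) ≤ X)
    {b γ : G → F} (hbg : mulF (br V b) γ = γ) :
    mulF (br (V.subgroupOf X) (fun t : X => b t)) (fun t : X => γ t) = fun t : X => γ t := by
  have h1 : br (V.subgroupOf X) (fun t : X => b t) = fun t : X => br V b t := by
    funext t
    by_cases ht : (t : G) ∈ Subgroup.centralizer (V : Set G)
    · rw [H66.br_of_mem ht, H66.br_of_mem ((cent_sub hVX t).2 ht)]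
    · rw [H66.br_of_not_mem ht, H66.br_of_not_mem (fun h => ht ((cent_sub hVX t).1 h))]
  rw [h1, ← mulF_res X γ (fun x hx => H66.br_of_not_mem (fun h => hx (hCX h))), hbg]

/-- a block of `C(y)` and an idempotent which are both over `g` -/
theorem und_of {ℓ : ℕ} [Fact ℓ.Prime] (hF : GoodF ℓ F) {V : Subgroup G} (hV : IsPGroup ℓ V)
    {y : G} (hyV : y ∈ V) (hVy : V ≤ Cu y) {e b' g : G → F} (he : IsIdem e)
    (hb' : Bx (Cu y) b') (hge : mulF (br V e) g = g) (hgb : mulF (br V b') g = g)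
    (hg : g ≠ 0) :
    mulF (fun t : Cu y => e t) (fun t : Cu y => b' t) = fun t : Cu y => b' t := by
  set a : G → F := PP.ext0 (Cu y) (fun t : Cu y => e t) with ha0
  have hres : (fun t : Cu y => a t) = fun t : Cu y => e t := H46.restr_ext0 _
  have ha : Ix (Cu y) a := by
    refine ⟨fun x hx => H46.ext0_of_not_mem _ hx, ?_⟩
    rw [hres]
    exact T3.H88.idem_cu hF he (T3.H88.el_of_mem hV hyV)
  have hCV : Subgroup.centralizer (V : Set G) ≤ Cu y := T3.H88.cent_le_cu hyV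
  have hbr : br V a = br V e := by
    funext x
    by_cases hx : x ∈ Subgroup.centralizer (V : Set G)
    · rw [H66.br_of_mem hx, H66.br_of_mem hx, ha0, H46.ext0_of_mem _ (hCV hx)]
    · rw [H66.br_of_not_mem hx, H66.br_of_not_mem hx]
  rcases hb'.dich' ha with h | h
  · have h2 : mulF a b' = b' := by rw [ha.comm hb'.ix, h]
    have h3 := mulF_res (Cu y) b' ha.supp
    rw [h2, hres] at h3
    exact h3.symm
  · exfalso
    apply hg
    have h1 := SO.H89.br_mul' hF hV hVy hb'.ix ha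
    rw [h, T3.H88.br_zero] at h1
    calc g = mulF (br V b') (mulF (br V a) g) := by rw [hbr, hge, hgb]
      _ = mulF (mulF (br V b') (br V a)) g := (mulF_assoc _ _ _).symm
      _ = 0 := by rw [← h1, mulF_zero_left]

end tools

section fcs

variable {V₀ G : Type} [CommGroup V₀] [Finite V₀] [Group G] [Finite G]
  {M : Ideal (integralClosure ℤ ℂ)} [M.IsMaximal]

/-- the sum of `fc` against a character -/
theorem sum_fc (B : Bk (FF M) V₀ G) (W : Subgroup V₀) (x : V₀) [Fintype (B.C W)] {χ : G → ℂ}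
    (hs : ∀ g, g ∉ B.C W → χ g = 0) (hχ : (fun t : B.C W => χ t) ∈ Irr (B.C W)) :
    ∑ᶠ g, fc B W x g * χ g =
      (Nat.card (B.C (W ⊔ Subgroup.zpowers x)) : ℂ)⁻¹ * ((Fintype.card (B.C W) : ℂ) *
        ∑ s : B.C W, bh B (W ⊔ Subgroup.zpowers x) s * χ (B.i x * s)) := by
  classical
  rw [SO.H33.sum_supp B W hs]
  set E : B.C W → ℂ := fun s => bh B (W ⊔ Subgroup.zpowers x) s with hE
  set ψ : B.C W → ℂ := fun t => χ t with hψ
  set y : B.C W := ⟨B.i x, SO.H33.i_mem_C B W x⟩ with hy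
  have e1 : ∀ t : B.C W, fc B W x t =
      (Nat.card (B.C (W ⊔ Subgroup.zpowers x)) : ℂ)⁻¹ * ∑ z : B.C W, E (y⁻¹ * (z⁻¹ * t * z)) := by
    intro t
    unfold fc
    rw [finsum_eq_sum_of_fintype]
    rfl
  have e0 : ∑ t : B.C W, fc B W x t * χ t =
      ∑ t : B.C W, ((Nat.card (B.C (W ⊔ Subgroup.zpowers x)) : ℂ)⁻¹ *
        ∑ z : B.C W, E (y⁻¹ * (z⁻¹ * t * z))) * ψ t :=
    Finset.sum_congr rfl fun t _ => by rw [e1 t]
  rw [e0]
  simp_rw [mul_assoc, ← Finset.mul_sum, Finset.sum_mul]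
  rw [Finset.sum_comm]
  have e2 : ∀ z : B.C W, ∑ t, E (y⁻¹ * (z⁻¹ * (t * z))) * ψ t = ∑ s, E s * ψ (y * s) := by
    intro z
    have e3 : ∀ s : B.C W, ψ (y * s) = ψ (z * (y * s) * z⁻¹) := fun s =>
      (irr_conj hχ _ _).symm
    rw [← Equiv.sum_comp ((Equiv.mulLeft y).trans (MulAut.conj z).toEquiv)]
    refine Finset.sum_congr rfl fun s _ => ?_
    show E (y⁻¹ * (z⁻¹ * (z * (y * s) * z⁻¹ * z))) * ψ (z * (y * s) * z⁻¹) = _
    rw [← e3 s]
    congr 2
    group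
  rw [Finset.sum_congr rfl fun z _ => e2 z, Finset.sum_const, Finset.card_univ, nsmul_eq_mul]
  rfl

end fcs

/-- FCD -/
theorem fcd (smg : T3.SmgStmt) : FcdStmt := by
  intro ℓ _ M _ hM V₀ G _ _ _ _ E₀ hFq B hB W
  classical
  have hF : GoodF ℓ (FF M) := H50.fld ℓ Fact.out M hM
  have hfin : Fintype (B.C W) := Fintype.ofFinite _
  have hp : Nat.Prime ℓ := Fact.out
  have main : ∀ χ : G → ℂ, (∀ x, x ∉ B.C W → χ x = 0) → (fun t : B.C W => χ t) ∈ Irr (B.C W) →
      χ ∉ Ch B W → ∀ x, SO.cv (fc B W x) χ = 0 := by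
    intro χ hs hχ hCh x
    have hnb : (fun t : B.C W => χ t) ∉ IrrE M (fun t : B.C W => B.b W t) :=
      fun h => hCh ⟨hs, h⟩
    unfold SO.cv
    rw [sum_fc B W x hs hχ]
    have key : ∑ s : B.C W, bh B (W ⊔ Subgroup.zpowers x) s * χ (B.i x * s) = 0 := by
      by_cases hx : x ∈ W
      · have h1 : W ⊔ Subgroup.zpowers x = W := sup_eq_left.2 (Subgroup.zpowers_le.2 hx)
        rw [h1]
        have h2 : ∀ s : B.C W, bh B W s = eh M (fun t : B.C W => B.b W t) s :=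
          fun s => SO.H33.bh_W B W s
        simp_rw [h2]
        have h3 := SO.H33.sum_cent_mul (eh M (fun t : B.C W => B.b W t)) hχ
          (SO.H33.jW_cen B W hx) 1
        simp only [one_mul] at h3
        rw [H25.eh_chv M _ hχ, if_neg hnb, mul_zero] at h3
        exact h3
      · -- the group `H = C W`
        set W' : Subgroup V₀ := W ⊔ Subgroup.zpowers x with hW'
        set y : B.C W := ⟨B.i x, SO.H33.i_mem_C B W x⟩ with hy
        have hVX := SO.H33.i_le_C B W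
        have hCX := SO.H33.C_top_le B W
        have hmem : ∀ t : B.C W, t ∈ Cu y ↔ (t : G) ∈ B.C W' := by
          intro t
          rw [Subgroup.mem_centralizer_singleton_iff]
          constructor
          · intro h
            have h1 : (t : G) * B.i x = B.i x * t := congrArg Subtype.val h
            have h2 : W' ≤ (Subgroup.centralizer {(t : G)}).comap B.i := by
              rw [hW', sup_le_iff, Subgroup.zpowers_le]
              constructor
              · intro w hw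
                rw [Subgroup.mem_comap, Subgroup.mem_centralizer_singleton_iff]
                exact (SO.H33.mem_C B).1 t.2 w hw
              · rw [Subgroup.mem_comap, Subgroup.mem_centralizer_singleton_iff]
                exact h1.symm
            rw [SO.H33.mem_C B]
            intro w hw
            have h3 := h2 hw
            rw [Subgroup.mem_comap, Subgroup.mem_centralizer_singleton_iff] at h3
            exact h3
          · intro h
            apply Subtype.ext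
            have h1 := (SO.H33.mem_C B).1 h x
              (hW' ▸ (le_sup_right (a := W) (Subgroup.mem_zpowers x)))
            exact h1.symm
        have hle : B.C W' ≤ B.C W := SO.H3.C_anti B le_sup_left
        let φ : Cu y ≃* B.C W' :=
          { toFun := fun t => ⟨((t : B.C W) : G), (hmem t).1 t.2⟩
            invFun := fun t => ⟨⟨(t : G), hle t.2⟩, (hmem ⟨(t : G), hle t.2⟩).2 t.2⟩
            left_inv := fun _ => rfl
            right_inv := fun _ => rfl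
            map_mul' := fun _ _ => rfl }
        have hlb := hB.lb W'
        have hblk : IsBlk (fun t : B.C W' => B.b W' t) := hlb.blk.blk
        have hb' : Bx (Cu y) (fun t : B.C W => B.b W' t) := by
          refine ⟨fun t ht => hlb.blk.supp t (fun h => ht ((hmem t).2 h)), ?_⟩
          exact H20.IsBlk_equiv φ hblk
        have hyV : y ∈ B.i.range.subgroupOf (B.C W) := ⟨x, rfl⟩
        have hVp : IsPGroup ℓ (B.i.range.subgroupOf (B.C W)) :=
          hB.ld.tp.pg.of_equiv (Subgroup.subgroupOfEquivOfLe hVX).symm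
        have hVy : B.i.range.subgroupOf (B.C W) ≤ Cu y := by
          intro t ht
          rw [Subgroup.mem_centralizer_singleton_iff]
          apply Subtype.ext
          exact hB.ld.ab t ht _ ⟨x, rfl⟩
        have hy1 : y ≠ 1 := by
          intro h
          apply hx
          have h1 : B.i x = 1 := congrArg Subtype.val h
          have h2 : x = 1 := hB.inj (by rw [h1, map_one])
          rw [h2]
          exact W.one_mem
        have hyEl : El ℓ y := T3.H88.el_of_mem hVp hyV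
        have hg0 : (fun t : B.C W => B.g t) ≠ 0 := by
          intro h
          apply hB.ld.gam.ne
          funext t
          by_cases ht : t ∈ Subgroup.centralizer (B.i.range : Set G)
          · exact congrFun h ⟨t, hCX ht⟩
          · exact hB.ld.gam.supp t ht
        have hund := und_of hF hVp hyV hVy (hB.lb W).blk.blk.1 hb'
          (gam_H hVX hCX (hB.lb W).gam) (gam_H hVX hCX hlb.gam) hg0
        have h5 := (smg ℓ M hM (B.C W) y 1 hy1 hyEl (Subgroup.one_mem _) H25.reg_one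
          (fun t : Cu y => B.b W' ((t : B.C W) : G)) hb'.ix.idem
          (fun t : B.C W => B.b W t) (hB.lb W).blk.blk.1).1 hund _ hχ hnb
        rw [mul_one] at h5
        unfold gbv at h5
        have h6 : ∀ s : Cu y, bh B W' ((s : B.C W) : G) =
            eh M (fun t : Cu y => B.b W' ((t : B.C W) : G)) s := by
          intro s
          have h7 := T3.H62.eh_equiv (M := M) φ.symm (b := fun t : B.C W' => B.b W' t)
            hblk.1.1 (φ s)
          have h8 : bh B W' ((s : B.C W) : G) = eh M (fun t : B.C W' => B.b W' t) (φ s) :=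
            SO.H33.bh_W B W' (φ s)
          rw [h8, ← h7]
          rfl
        rw [← finsum_eq_sum_of_fintype,
          H75.sum_sub (Cu y) (fun s : B.C W => bh B W' s * χ (B.i x * s)) (fun s hs' => by
            rw [SO.H3.bh_supp B W' (fun h => hs' ((hmem s).2 h)), zero_mul])]
        rw [← h5]
        refine finsum_congr fun s => ?_
        rw [h6 s]
        rfl
    rw [key, mul_zero, mul_zero, zero_div]
  refine ⟨main, ?_⟩
  intro c
  suffices hkey : mulF (fc B W c) (bh B W) = fc B W c by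
    intro x
    exact congrFun hkey x
  apply eq_of_res (N := B.C W) (mulF_supp (B.C W) (SO.H3.fc_supp B W c)
    (fun x hx => SO.H3.bh_supp B W hx)) (SO.H3.fc_supp B W c)
  rw [mulF_res (B.C W) _ (SO.H3.fc_supp B W c)]
  have hcl : ∀ (x y : B.C W), (fun t : B.C W => fc B W c t) (y * x * y⁻¹) =
      (fun t : B.C W => fc B W c t) x := fun x y => SO.H3.fc_cl B W c y x
  have hbcl : ∀ (x y : B.C W), (fun t : B.C W => bh B W t) (y * x * y⁻¹) =
      (fun t : B.C W => bh B W t) x := by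
    intro x y
    show bh B W ((y * x * y⁻¹ : B.C W) : G) = bh B W (x : G)
    rw [SO.H33.bh_W, SO.H33.bh_W, K9.H25.eh_cl]
  have hm : mulF (fun t : B.C W => fc B W c t) (fun t : B.C W => bh B W t) =
      fun y => ∑ h, (fun t : B.C W => fc B W c t) h * (fun t : B.C W => bh B W t) (h⁻¹ * y) := by
    funext y
    unfold mulF
    rw [finsum_eq_sum_of_fintype]
  rw [hm, ← sub_eq_zero]
  apply irr_complete
  · intro g h
    rw [Pi.sub_apply, Pi.sub_apply]
    congr 1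
    · rw [← Equiv.sum_comp (MulAut.conj h).toEquiv]
      refine Finset.sum_congr rfl fun t _ => ?_
      have e1 : (MulAut.conj h).toEquiv t = h * t * h⁻¹ := rfl
      rw [e1]
      congr 1
      · exact hcl t h
      · have e2 : (h * t * h⁻¹)⁻¹ * (h * g * h⁻¹) = h * (t⁻¹ * g) * h⁻¹ := by group
        rw [e2]
        exact hbcl (t⁻¹ * g) h
    · exact hcl g h
  · intro χ' hχ'
    set χ : G → ℂ := H75.ext0 (B.C W) χ' with hχ
    have hχs : ∀ x, x ∉ B.C W → χ x = 0 := H75.ext0_supp _ _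
    have hχr : (fun t : B.C W => χ t) = χ' := funext (H75.ext0_apply _ _)
    have hχi : (fun t : B.C W => χ t) ∈ Irr (B.C W) := by rw [hχr]; exact hχ'
    have hne : χ' 1 ≠ 0 := irr_one_ne hχ'
    have hcv : SO.cv (fc B W c) χ = H50.om (fun t : B.C W => fc B W c t) χ' := by
      rw [SO.H3.cv_eq, hχr]
    have hmul := H50.om_mul (a := fun t : B.C W => fc B W c t)
      (b := fun t : B.C W => bh B W t) hbcl hχ'
    have hom : ∀ a : B.C W → ℂ, ∑ t, a t * χ' t = H50.om a χ' * χ' 1 := by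
      intro a
      unfold H50.om
      rw [div_mul_cancel₀ _ hne]
    have hbval : H50.om (fun t : B.C W => bh B W t) χ' =
        if χ' ∈ IrrE M (fun t : B.C W => B.b W t) then 1 else 0 := by
      have h2 : (fun t : B.C W => bh B W t) = eh M (fun t : B.C W => B.b W t) :=
        funext fun s => SO.H33.bh_W B W s
      rw [h2]
      unfold H50.om
      rw [H25.eh_chv M _ hχ']
      split_ifs
      · exact div_self hne
      · exact zero_div _
    have hval : H50.om (fun t : B.C W => fc B W c t) χ' *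
        H50.om (fun t : B.C W => bh B W t) χ' = H50.om (fun t : B.C W => fc B W c t) χ' := by
      rw [hbval]
      split_ifs with hin
      · rw [mul_one]
      · rw [← hcv, main χ hχs hχi (fun h => hin (hχr ▸ h.2)) c, zero_mul]
    simp only [Pi.sub_apply, sub_mul, Finset.sum_sub_distrib]
    rw [sub_eq_zero]
    have e1 : ∑ x : B.C W, (∑ h : B.C W, fc B W c (h : G) *
          bh B W ((h⁻¹ * x : B.C W) : G)) * χ' x =
        H50.om (fun t : B.C W => fc B W c t) χ' * H50.om (fun t : B.C W => bh B W t) χ' *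
          χ' 1 := by
      rw [← hmul, ← hom]
    have e2 : ∑ x : B.C W, fc B W c (x : G) * χ' x =
        H50.om (fun t : B.C W => fc B W c t) χ' * χ' 1 := by
      rw [← hom]
    rw [e1, e2, hval]

end Pool.Agent.PP.SD.H79
end
end -- Pool.Agent.Helper79_ASD.FCD

section -- Pool.Agent.Helper81_ASE.XCH

/-!
# Row XCH of squad ASE: the equivariant choice of the characters
-/

set_option autoImplicit false

open scoped BigOperators

noncomputable section

namespace Pool.Agent.PP.SE.H81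

open Pool.Agent.Helper51_AWC Pool.Agent.Helper79_WRA Pool.Agent.PP Pool.Agent.PP.KF
open Pool.Agent.PP.K9 Pool.Agent.PP.K9.H97 Pool.Agent.PP.H75 Pool.Agent.PP.T3 Pool.Agent.PP.SO
open Pool.Agent.PP.SD Pool.Agent.PP.SE

attribute [local instance] Ideal.Quotient.field

section orb

variable {V₀ : Type} [CommGroup V₀]

/-- the orbit of `W` -/
def orbE (E₀ : Subgroup (MulAut V₀)) (W : Subgroup V₀) : Set (Subgroup V₀) :=
  {W' | ∃ σ ∈ E₀, mp σ W' = W}

open Classical in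
/-- the choice of an element -/
def repS (S : Set (Subgroup V₀)) : Subgroup V₀ := if h : S.Nonempty then h.choose else ⊥

theorem repS_mem {S : Set (Subgroup V₀)} (h : S.Nonempty) : repS S ∈ S := by
  unfold repS
  rw [dif_pos h]
  exact h.choose_spec

end orb

theorem xch (hFxc : FxcStmt) (hPrb : PrbStmt) (hMpb : MpbStmt) (hAcb : AcbStmt) : XchStmt := by
  intro ℓ _ M _ hM hl2 V₀ G _ _ _ _ E₀ hFq B hSd
  have hSb : Sb ℓ M E₀ B := hSd.toSb
  obtain ⟨hA0, hA⟩ := hAcb ℓ M hM hl2 V₀ G E₀ hFq B hSb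
  have hMp : ∀ (σ τ : MulAut V₀) (W : Subgroup V₀), mp 1 W = W ∧ mp (σ * τ) W = mp σ (mp τ W) ∧
      Nat.card (mp σ W) = Nat.card W := fun σ τ W =>
    ⟨(hMpb V₀ σ τ W W).1, (hMpb V₀ σ τ W W).2.1, (hMpb V₀ σ τ W W).2.2.1⟩
  have hinv : ∀ (σ : MulAut V₀) (W W' : Subgroup V₀), mp σ W = W' → mp σ⁻¹ W' = W :=
    fun σ W W' h => ((hMpb V₀ σ 1 W W').2.2.2.2.2.2.2.2.2.1).1 h
  have hmem : ∀ (σ : MulAut V₀) (W : Subgroup V₀) (v : V₀), v ∈ mp σ W ↔ σ⁻¹ v ∈ W :=
    fun σ W v => (hMpb V₀ σ 1 W W).2.2.2.1 v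
  -- the orbits
  have horb : ∀ (W : Subgroup V₀), ∀ σ ∈ E₀, orbE E₀ (mp σ W) = orbE E₀ W := by
    intro W σ hσ
    ext W'
    constructor
    · rintro ⟨τ, hτ, h⟩
      refine ⟨σ⁻¹ * τ, E₀.mul_mem (E₀.inv_mem hσ) hτ, ?_⟩
      rw [(hMp σ⁻¹ τ W').2.1, h]
      exact hinv σ W _ rfl
    · rintro ⟨τ, hτ, h⟩
      refine ⟨σ * τ, E₀.mul_mem hσ hτ, ?_⟩
      rw [(hMp σ τ W').2.1, h]
  have hone : ∀ W : Subgroup V₀, (orbE E₀ W).Nonempty := fun W =>
    ⟨W, 1, E₀.one_mem, (hMp 1 1 W).1⟩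
  have hrs : ∀ W : Subgroup V₀, ∃ s ∈ E₀, mp s (repS (orbE E₀ W)) = W := fun W => repS_mem (hone W)
  choose s hsE hs using hrs
  -- the characters
  have hχ : ∀ W : Subgroup V₀, ∃ χ : G → ℂ, W ∈ RL ℓ E₀ → nS E₀ W = ℓ - 1 → χ ∈ Ch B W ∧
      (∀ w ∈ W, nu B χ w = 1) ∧ ∀ σ ∈ E₀, mp σ W = W → ∀ t ∈ Tg B.i.range B.g,
      (∀ v, t * B.i v * t⁻¹ = B.i (σ v)) → (fun g => χ (t⁻¹ * g * t)) = χ := by
    intro W
    by_cases h : W ∈ RL ℓ E₀ ∧ nS E₀ W = ℓ - 1
    · obtain ⟨χ, h1, h2, h3⟩ := hFxc ℓ M hM hl2 V₀ G E₀ hFq B hSd W h.1 h.2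
      exact ⟨χ, fun _ _ => ⟨h1, h2, h3⟩⟩
    · exact ⟨0, fun h1 h2 => absurd ⟨h1, h2⟩ h⟩
  choose X hX using hχ
  have hrep : ∀ W : Subgroup V₀, W ∈ RL ℓ E₀ → nS E₀ W = ℓ - 1 →
      repS (orbE E₀ W) ∈ RL ℓ E₀ ∧ nS E₀ (repS (orbE E₀ W)) = ℓ - 1 := by
    intro W h1 h2
    have hn : nS E₀ W = nS E₀ (repS (orbE E₀ W)) := by
      have := ((hPrb ℓ V₀ E₀ hFq (repS (orbE E₀ W))).2.2.2.1 (s W) (hsE W)).1
      rwa [hs W] at this
    have hc : Nat.card W = Nat.card (repS (orbE E₀ W)) := by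
      have := (hMp (s W) 1 (repS (orbE E₀ W))).2.2
      rwa [hs W] at this
    exact ⟨⟨by rw [← hc]; exact h1.1, by rw [← hn]; exact h1.2⟩, by rw [← hn]; exact h2⟩
  refine ⟨fun W => ac B (s W) (X (repS (orbE E₀ W))), ?_, ?_⟩
  · intro W h1 h2
    obtain ⟨hr1, hr2⟩ := hrep W h1 h2
    obtain ⟨hx1, hx2, -⟩ := hX _ hr1 hr2
    obtain ⟨-, -, hc, -⟩ := hA (repS (orbE E₀ W)) (s W) (hsE W)
    obtain ⟨hc1, -, -, hc2, -⟩ := hc _ hx1
    refine ⟨?_, ?_⟩
    · have := hc1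
      rw [hs W] at this
      exact this
    · intro w hw
      have h3 : (s W)⁻¹ w ∈ repS (orbE E₀ W) := by
        rw [← hmem, hs W]
        exact hw
      have h4 := hc2 ((s W)⁻¹ w)
      rw [hx2 _ h3, MulAut.apply_inv_self] at h4
      exact h4
  · intro W h1 h2 σ hσ t ht htσ
    obtain ⟨hr1, hr2⟩ := hrep W h1 h2
    obtain ⟨-, -, hx3⟩ := hX _ hr1 hr2
    have hO := horb W σ hσ
    have hs' := hs (mp σ W)
    have hsE' := hsE (mp σ W)
    obtain ⟨ha1, ha2⟩ := hA0 (s W) (hsE W)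
    obtain ⟨hb1, hb2⟩ := hA0 (s (mp σ W)) hsE'
    show ac B (s (mp σ W)) (X (repS (orbE E₀ (mp σ W)))) =
      fun g => ac B (s W) (X (repS (orbE E₀ W))) (t⁻¹ * g * t)
    rw [hO] at hs' ⊢
    set s' := s (mp σ W) with hs'def
    have hE : s'⁻¹ * (σ * s W) ∈ E₀ :=
      E₀.mul_mem (E₀.inv_mem hsE') (E₀.mul_mem hσ (hsE W))
    have hfix : mp (s'⁻¹ * (σ * s W)) (repS (orbE E₀ W)) = repS (orbE E₀ W) := by
      rw [(hMp s'⁻¹ (σ * s W) _).2.1, (hMp σ (s W) _).2.1, hs W]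
      exact hinv _ _ _ hs'
    have hu := hx3 (s'⁻¹ * (σ * s W)) hE hfix ((tt B s')⁻¹ * (t * tt B (s W)))
      (Subgroup.mul_mem _ (Subgroup.inv_mem _ hb1) (Subgroup.mul_mem _ ht ha1)) (by
        intro v
        have e1 : (tt B s')⁻¹ * B.i (σ (s W v)) * tt B s' = B.i (s'⁻¹ (σ (s W v))) := by
          have := hb2 (s'⁻¹ (σ (s W v)))
          rw [MulAut.apply_inv_self] at this
          rw [← this]
          group
        rw [MulAut.mul_apply, MulAut.mul_apply, ← e1, ← htσ, ← ha2]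
        group)
    funext g
    have hg := congrFun hu ((tt B s')⁻¹ * g * tt B s')
    show X (repS (orbE E₀ W)) ((tt B s')⁻¹ * g * tt B s') =
      X (repS (orbE E₀ W)) ((tt B (s W))⁻¹ * (t⁻¹ * g * t) * tt B (s W))
    rw [← hg]
    show X (repS (orbE E₀ W)) (((tt B s')⁻¹ * (t * tt B (s W)))⁻¹ * ((tt B s')⁻¹ * g * tt B s') *
      ((tt B s')⁻¹ * (t * tt B (s W)))) = _
    congr 1
    group

end Pool.Agent.PP.SE.H81
end
end -- Pool.Agent.Helper81_ASE.XCH

section -- Pool.Agent.Helper97_ASE.CZB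

/-!
# Squad ASE, row CZB: central elements of the local blocks (helper97)
-/

open scoped BigOperators

noncomputable section

namespace Pool.Agent.PP.SE.H97

open Pool.Agent.Helper51_AWC Pool.Agent.Helper79_WRA Pool.Agent.PP Pool.Agent.PP.KF
open Pool.Agent.PP.K9 Pool.Agent.PP.K9.H97 Pool.Agent.PP.H75 Pool.Agent.PP.T3 Pool.Agent.PP.SO
open Pool.Agent.PP.SD

attribute [local instance] Ideal.Quotient.field

/-- a class function is the sum of its components -/
theorem cls_exp {H : Type} [Group H] [Fintype H] {a : H → ℂ}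
    (ha : ∀ x y, a (y * x * y⁻¹) = a x) {S : Set (H → ℂ)} (hS : S.Finite) (hSI : S ⊆ Irr H)
    (h0 : ∀ ψ ∈ Irr H, ψ ∉ S → H50.om a ψ = 0) (g : H) :
    a g = ∑ ψ ∈ hS.toFinset, H50.om a ψ * (ψ 1 / Fintype.card H) * ψ g⁻¹ := by
  classical
  have hc : (Fintype.card H : ℂ) ≠ 0 := by exact_mod_cast Fintype.card_ne_zero
  suffices h : (fun g => a g - ∑ ψ ∈ hS.toFinset, H50.om a ψ * (ψ 1 / Fintype.card H) * ψ g⁻¹)
      = 0 from sub_eq_zero.1 (congrFun h g)
  apply irr_complete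
  · intro x y
    show a (y * x * y⁻¹) - _ = a x - _
    rw [ha]
    congr 1
    refine Finset.sum_congr rfl fun ψ hψ => ?_
    have e : (y * x * y⁻¹)⁻¹ = y * x⁻¹ * y⁻¹ := by group
    rw [e, irr_conj (hSI (hS.mem_toFinset.1 hψ))]
  · intro χ hχ
    have e1 : ∑ t, a t * χ t = H50.om a χ * χ 1 := by
      rw [H50.om, div_mul_cancel₀ _ (irr_one_ne hχ)]
    simp_rw [sub_mul, Finset.sum_sub_distrib, Finset.sum_mul]
    rw [e1, Finset.sum_comm]
    have e2 : ∀ ψ ∈ hS.toFinset, ∑ t, H50.om a ψ * (ψ 1 / Fintype.card H) * ψ t⁻¹ * χ t =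
        if ψ = χ then H50.om a χ * χ 1 else 0 := by
      intro ψ hψ
      have hψI := hSI (hS.mem_toFinset.1 hψ)
      have e3 : ∑ t, H50.om a ψ * (ψ 1 / Fintype.card H) * ψ t⁻¹ * χ t =
          H50.om a ψ * (ψ 1 / Fintype.card H) * ∑ t, χ t * ψ t⁻¹ := by
        rw [Finset.mul_sum]
        exact Finset.sum_congr rfl fun t _ => by ring
      rw [e3]
      split_ifs with h
      · subst h
        rw [irr_orth_self hψI]
        field_simp
      · rw [irr_orth_ne hχ hψI (fun h' => h h'.symm), mul_zero]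
    rw [Finset.sum_congr rfl e2, Finset.sum_ite_eq']
    split_ifs with h
    · exact sub_self _
    · rw [h0 χ hχ (fun h' => h (hS.mem_toFinset.2 h'))]
      ring

section

variable {V₀ G : Type} [CommGroup V₀] [Group G] [Finite G] {M : Ideal (integralClosure ℤ ℂ)}
  [M.IsMaximal] (B : Bk (FF M) V₀ G) (W : Subgroup V₀)

omit [M.IsMaximal] in
/-- `cv` as a central character of the centraliser -/
theorem cv_om [Fintype (B.C W)] {a : G → ℂ} (ha : ∀ g, g ∉ B.C W → a g = 0) (χ : G → ℂ) :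
    cv a χ = H50.om (fun t : B.C W => a t) (fun t : B.C W => χ t) := by
  unfold SO.cv H50.om
  rw [sum_sub (B.C W) _ (fun x hx => by rw [ha x hx, zero_mul]), finsum_eq_sum_of_fintype]
  rfl

omit [M.IsMaximal] in
theorem ch_eq : Ch B W = (H75.ext0 (B.C W)) '' (IrrE M (fun t : B.C W => B.b W t)) := by
  ext χ
  constructor
  · rintro ⟨h1, h2⟩
    refine ⟨_, h2, ?_⟩
    funext x
    by_cases hx : x ∈ B.C W
    · exact H75.ext0_apply (B.C W) (fun t : B.C W => χ t) ⟨x, hx⟩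
    · rw [H75.ext0_supp _ _ x hx, h1 x hx]
  · rintro ⟨ψ, h, rfl⟩
    refine ⟨H75.ext0_supp _ _, ?_⟩
    have e : (fun t : B.C W => H75.ext0 (B.C W) ψ t) = ψ := funext (H75.ext0_apply _ _)
    rw [e]
    exact h

omit [M.IsMaximal] in
theorem ext0_inj : Function.Injective (H75.ext0 (F := ℂ) (B.C W)) := by
  intro a b h
  funext t
  have := congrFun h t
  rwa [H75.ext0_apply, H75.ext0_apply] at this

theorem ch_fin : (Ch B W).Finite := by
  have hfin : Fintype (B.C W) := Fintype.ofFinite _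
  rw [ch_eq]
  exact (H25.irrE_finite M _).image _

/-- the expansion -/
theorem cz_exp {a : G → ℂ} (ha : Cz B W a) (g : G) (hg : g ∈ B.C W) :
    a g = ∑ᶠ χ ∈ Ch B W, cv a χ * (χ 1 / Nat.card (B.C W)) * χ g⁻¹ := by
  classical
  have hfin : Fintype (B.C W) := Fintype.ofFinite _
  have hS := H25.irrE_finite M (fun t : B.C W => B.b W t)
  have h1 := cls_exp (a := fun t : B.C W => a t) (fun x y => ha.cls y y.2 x) hS
    (fun ψ hψ => hψ.1) (fun ψ hψ hn => by
      have h2 := ha.blk (H75.ext0 (B.C W) ψ) (H75.ext0_supp _ _) (by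
        have e : (fun t : B.C W => H75.ext0 (B.C W) ψ t) = ψ := funext (H75.ext0_apply _ _)
        rw [e]
        exact hψ) (fun h => hn (by
        have e : (fun t : B.C W => H75.ext0 (B.C W) ψ t) = ψ := funext (H75.ext0_apply _ _)
        have h3 := h.2
        rw [e] at h3
        exact h3))
      rw [cv_om B W ha.sup] at h2
      have e : (fun t : B.C W => H75.ext0 (B.C W) ψ t) = ψ := funext (H75.ext0_apply _ _)
      rw [e] at h2
      exact h2) ⟨g, hg⟩
  rw [ch_eq, finsum_mem_image ((ext0_inj B W).injOn), finsum_mem_eq_finite_toFinset_sum _ hS]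
  refine h1.trans (Finset.sum_congr rfl fun ψ _ => ?_)
  have e : (fun t : B.C W => H75.ext0 (B.C W) ψ t) = ψ := funext (H75.ext0_apply _ _)
  rw [cv_om B W ha.sup, e, Nat.card_eq_fintype_card]
  have e1 : H75.ext0 (B.C W) ψ 1 = ψ 1 := H75.ext0_apply (B.C W) ψ 1
  have e2 : H75.ext0 (B.C W) ψ g⁻¹ = ψ (⟨g, hg⟩ : B.C W)⁻¹ :=
    H75.ext0_apply (B.C W) ψ (⟨g, hg⟩ : B.C W)⁻¹
  rw [e1, e2]

omit [Finite G] [M.IsMaximal] in
/-- multiplication with a central element `i(κ)` -/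
theorem central_i {χ : G → ℂ} (hs : ∀ g, g ∉ B.C W → χ g = 0)
    (hχ : (fun t : B.C W => χ t) ∈ Irr (B.C W)) {w : V₀} (hw : w ∈ W) (g : G) :
    χ (B.i w * g) = nu B χ w * χ g := by
  by_cases hg : g ∈ B.C W
  · exact KF.H32.central_mul hχ (SO.H33.jW_cen B W hw) ⟨g, hg⟩
  · rw [hs g hg, mul_zero]
    apply hs
    intro h
    apply hg
    have := (B.C W).mul_mem ((B.C W).inv_mem (SO.H33.i_mem_C B W w)) h
    rwa [inv_mul_cancel_left] at this

omit [M.IsMaximal] in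
theorem cv_tk {a χ : G → ℂ} (hs : ∀ g, g ∉ B.C W → χ g = 0)
    (hχ : (fun t : B.C W => χ t) ∈ Irr (B.C W)) {w : V₀} (hw : w ∈ W) :
    cv (tk B w a) χ = nu B χ w * cv a χ := by
  unfold SO.cv
  rw [← mul_div_assoc]
  congr 1
  have e1 : ∑ᶠ g, tk B w a g * χ g = ∑ᶠ g, a g * χ (B.i w * g) := by
    rw [← finsum_comp_equiv (Equiv.mulLeft (B.i w))]
    refine finsum_congr fun g => ?_
    show a ((B.i w)⁻¹ * (B.i w * g)) * χ (B.i w * g) = _
    rw [inv_mul_cancel_left]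
  have := Fintype.ofFinite G
  rw [e1, finsum_eq_sum_of_fintype, finsum_eq_sum_of_fintype, Finset.mul_sum]
  refine Finset.sum_congr rfl fun g _ => ?_
  rw [central_i B W hs hχ hw]
  ring

omit [M.IsMaximal] in
theorem cz_tk {a : G → ℂ} (ha : Cz B W a) {w : V₀} (hw : w ∈ W) : Cz B W (tk B w a) := by
  refine ⟨fun g hg => ?_, fun z hz g => ?_, fun ψ h1 h2 h3 => ?_⟩
  · apply ha.sup
    intro h
    apply hg
    have := (B.C W).mul_mem (SO.H33.i_mem_C B W w) h
    rwa [mul_inv_cancel_left] at this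
  · show a ((B.i w)⁻¹ * (z * g * z⁻¹)) = a ((B.i w)⁻¹ * g)
    have h1 : B.i w * z = z * B.i w := (SO.H33.mem_C B).1 hz w hw
    have h2 : (B.i w)⁻¹ * z = z * (B.i w)⁻¹ := by
      rw [inv_mul_eq_iff_eq_mul, ← mul_assoc, h1, mul_assoc, mul_inv_cancel, mul_one]
    have h3 : (B.i w)⁻¹ * (z * g * z⁻¹) = z * ((B.i w)⁻¹ * g) * z⁻¹ := by
      rw [← mul_assoc, ← mul_assoc, h2]
      group
    rw [h3, ha.cls z hz]
  · rw [cv_tk B W h1 h2 hw, ha.blk ψ h1 h2 h3, mul_zero]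

omit [M.IsMaximal] in
theorem cv_mul {a b χ : G → ℂ} (ha : Cz B W a) (hb : Cz B W b)
    (hχ : (fun t : B.C W => χ t) ∈ Irr (B.C W)) :
    cv (fun g => mulF a b g) χ = cv a χ * cv b χ := by
  classical
  have hfin : Fintype (B.C W) := Fintype.ofFinite _
  have hsup : ∀ g, g ∉ B.C W → mulF a b g = 0 := mulF_supp (B.C W) ha.sup hb.sup
  rw [cv_om B W hsup, cv_om B W ha.sup, cv_om B W hb.sup]
  rw [← H50.om_mul (a := fun t : B.C W => a t) (fun x y => hb.cls y y.2 x) hχ]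
  congr 1
  have h := mulF_res (B.C W) b ha.sup
  rw [h]
  funext y
  unfold mulF
  rw [finsum_eq_sum_of_fintype]

omit [M.IsMaximal] in
theorem cz_mul {a b : G → ℂ} (ha : Cz B W a) (hb : Cz B W b) : Cz B W (fun g => mulF a b g) := by
  refine ⟨mulF_supp (B.C W) ha.sup hb.sup, fun z hz g => ?_, fun ψ h1 h2 h3 => ?_⟩
  · unfold mulF
    rw [← finsum_comp_equiv (MulAut.conj z).toEquiv]
    refine finsum_congr fun t => ?_
    have e1 : (MulAut.conj z).toEquiv t = z * t * z⁻¹ := rfl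
    have e2 : (z * t * z⁻¹)⁻¹ * (z * g * z⁻¹) = z * (t⁻¹ * g) * z⁻¹ := by group
    rw [e1, e2, ha.cls z hz, hb.cls z hz]
  · rw [cv_mul B W ha hb h2, ha.blk ψ h1 h2 h3, zero_mul]

omit [M.IsMaximal] in
theorem cv_lin (a b χ : G → ℂ) (z z' : ℂ) :
    cv (fun g => z * a g + z' * b g) χ = z * cv a χ + z' * cv b χ := by
  have := Fintype.ofFinite G
  unfold SO.cv
  rw [finsum_eq_sum_of_fintype, finsum_eq_sum_of_fintype, finsum_eq_sum_of_fintype,
    ← mul_div_assoc, ← mul_div_assoc, ← add_div, Finset.mul_sum, Finset.mul_sum,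
    ← Finset.sum_add_distrib]
  congr 1
  exact Finset.sum_congr rfl fun g _ => by ring

end

/-- CZB -/
theorem czb (fcd : FcdStmt) : CzbStmt := by
  intro ℓ _ M _ hM _ V₀ G _ _ _ _ E₀ hFq B hB W
  have hone : ∀ χ ∈ Ch B W, χ 1 ≠ 0 := fun χ hχ =>
    irr_one_ne (χ := fun t : B.C W => χ t) hχ.2.1
  refine ⟨fun c => ⟨SO.H3.fc_supp B W c, fun z hz g => SO.H3.fc_cl B W c ⟨z, hz⟩ g,
      fun ψ h1 h2 h3 => (fcd ℓ M hM V₀ G E₀ hFq B hB W).1 ψ h1 h2 h3 c⟩,
    fun a ha g hg => cz_exp B W ha g hg,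
    fun a ha κ hκ => ⟨cz_tk B W ha hκ, fun χ hχ => cv_tk B W hχ.1 hχ.2.1 hκ⟩,
    fun a b ha hb => ⟨cz_mul B W ha hb, fun χ hχ => cv_mul B W ha hb hχ.2.1⟩,
    fun a b ha hb z z' => ⟨⟨fun g hg => ?_, fun x hx g => ?_, fun ψ h1 h2 h3 => ?_⟩,
      fun χ => cv_lin a b χ z z'⟩,
    fun a b ha hb h => ?_, fun χ hχ => ⟨hone χ hχ, ?_, fun w hw => ⟨?_, fun g => ?_,
      fun w' hw' => ?_⟩, fun g => ?_, fun z hz g => ?_⟩, ch_fin B W⟩
  · rw [ha.sup g hg, hb.sup g hg, mul_zero, mul_zero, add_zero]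
  · rw [ha.cls x hx, hb.cls x hx]
  · rw [cv_lin, ha.blk ψ h1 h2 h3, hb.blk ψ h1 h2 h3, mul_zero, mul_zero, add_zero]
  · funext g
    by_cases hg : g ∈ B.C W
    · rw [cz_exp B W ha g hg, cz_exp B W hb g hg]
      refine finsum_mem_congr rfl fun χ hχ => ?_
      rw [h χ hχ]
    · rw [ha.sup g hg, hb.sup g hg]
  · unfold nu
    rw [map_one, div_self (hone χ hχ)]
  · have h1 : ∀ g ∈ B.C W, starRingEnd ℂ (χ g) = χ g⁻¹ := fun g hg =>
      PP.H94.irr_star hχ.2.1 (⟨g, hg⟩ : B.C W)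
    unfold nu
    rw [map_div₀, h1 _ (SO.H33.i_mem_C B W w), h1 _ (B.C W).one_mem, inv_one, map_inv]
  · exact central_i B W hχ.1 hχ.2.1 hw g
  · have h1 := central_i B W hχ.1 hχ.2.1 hw (B.i w')
    unfold nu at h1 ⊢
    rw [map_mul, h1, mul_div_assoc]
  · by_cases hg : g ∈ B.C W
    · exact (PP.H94.irr_star hχ.2.1 (⟨g, hg⟩ : B.C W)).symm
    · rw [hχ.1 g hg, hχ.1 _ (fun h => hg ((B.C W).inv_mem_iff.1 h)), map_zero]
  · by_cases hg : g ∈ B.C W
    · exact irr_conj hχ.2.1 (⟨g, hg⟩ : B.C W) ⟨z, hz⟩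
    · rw [hχ.1 g hg]
      apply hχ.1
      intro h
      apply hg
      have h1 := (B.C W).mul_mem ((B.C W).mul_mem ((B.C W).inv_mem hz) h) hz
      have e : z⁻¹ * (z * g * z⁻¹) * z = g := by group
      rwa [e] at h1

end Pool.Agent.PP.SE.H97
end
end -- Pool.Agent.Helper97_ASE.CZB

section -- Pool.Agent.Helper77_ASE.VAL

/-!
# Squad ASE, row VAL: the values of the central characters at `et` and `fm`
-/

open scoped BigOperators

noncomputable section

namespace Pool.Agent.PP.SE.H77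

open Pool.Agent.Helper51_AWC Pool.Agent.Helper79_WRA Pool.Agent.PP Pool.Agent.PP.KF
open Pool.Agent.PP.K9 Pool.Agent.PP.K9.H97 Pool.Agent.PP.H75 Pool.Agent.PP.T3 Pool.Agent.PP.SO
open Pool.Agent.PP.SD

attribute [local instance] Ideal.Quotient.field

section tools

variable {V₀ G : Type} [CommGroup V₀] [Finite V₀] [Group G] [Finite G]
  {M : Ideal (integralClosure ℤ ℂ)} [M.IsMaximal] (B : Bk (FF M) V₀ G) (W : Subgroup V₀)

/-- the central character at `fc W c`, `c ∈ W` -/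
theorem cv_fc_mem {χ : G → ℂ} (hχ : χ ∈ Ch B W) {c : V₀} (hc : c ∈ W) :
    cv (fc B W c) χ = nu B χ c := by
  classical
  have hfin : Fintype (B.C W) := Fintype.ofFinite _
  obtain ⟨hs, hI⟩ := hχ
  have hone : χ 1 ≠ 0 := irr_one_ne (χ := fun t : B.C W => χ t) hI.1
  have hcard : (Fintype.card (B.C W) : ℂ) ≠ 0 := by exact_mod_cast Fintype.card_ne_zero
  unfold SO.cv nu
  rw [SD.H79.sum_fc B W c hs hI.1]
  have h1 : W ⊔ Subgroup.zpowers c = W := sup_eq_left.2 (Subgroup.zpowers_le.2 hc)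
  rw [h1]
  have h2 : ∀ s : B.C W, bh B W s = eh M (fun t : B.C W => B.b W t) s :=
    fun s => SO.H33.bh_W B W s
  simp_rw [h2]
  have h3 := SO.H33.sum_cent_mul (eh M (fun t : B.C W => B.b W t)) hI.1
    (SO.H33.jW_cen B W hc) 1
  simp only [one_mul] at h3
  rw [H25.eh_chv M _ hI.1, if_pos hI] at h3
  have h4 : ∑ s : B.C W, eh M (fun t : B.C W => B.b W t) s * χ (B.i c * s) = χ (B.i c) := by
    refine h3.trans ?_
    show χ (B.i c) / χ 1 * χ 1 = χ (B.i c)
    exact div_mul_cancel₀ _ hone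
  rw [h4, Nat.card_eq_fintype_card, ← mul_assoc, inv_mul_cancel₀ hcard, one_mul]

/-- orthogonality -/
theorem orth {χ ψ : G → ℂ} (hχs : ∀ g, g ∉ B.C W → χ g = 0)
    (hχ : (fun t : B.C W => χ t) ∈ Irr (B.C W)) (hψs : ∀ g, g ∉ B.C W → ψ g = 0)
    (hψ : (fun t : B.C W => ψ t) ∈ Irr (B.C W)) :
    (χ = ψ → ∑ᶠ g : G, χ g⁻¹ * ψ g = (Nat.card (B.C W) : ℂ)) ∧
      (χ ≠ ψ → ∑ᶠ g : G, χ g⁻¹ * ψ g = 0) := by
  classical
  have hfin : Fintype (B.C W) := Fintype.ofFinite _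
  rw [SO.H33.sum_supp B W hψs (fun g => χ g⁻¹)]
  refine ⟨fun h => ?_, fun h => ?_⟩
  · subst h
    have h1 := irr_orth_self hχ
    rw [Nat.card_eq_fintype_card, ← h1]
    exact Finset.sum_congr rfl fun t _ => mul_comm _ _
  · have hne : (fun t : B.C W => ψ t) ≠ (fun t : B.C W => χ t) := by
      intro h1
      apply h
      funext g
      by_cases hg : g ∈ B.C W
      · exact (congrFun h1 ⟨g, hg⟩).symm
      · rw [hχs g hg, hψs g hg]
    have h1 := irr_orth_ne hψ hχ hne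
    rw [← h1]
    exact Finset.sum_congr rfl fun t _ => mul_comm _ _

/-- combinations of the characters of the block -/
theorem comb (S : Set (G → ℂ)) (hS : S ⊆ Ch B W) (k : (G → ℂ) → ℂ) (a : G → ℂ)
    (ha : ∀ g, a g = ∑ᶠ χ ∈ S, k χ * χ g⁻¹)
    (hcl : ∀ χ ∈ Ch B W, ∀ z ∈ B.C W, ∀ g, χ (z * g * z⁻¹) = χ g) :
    (∀ g, g ∉ B.C W → a g = 0) ∧ (∀ z ∈ B.C W, ∀ g, a (z * g * z⁻¹) = a g) ∧
    ∀ ψ : G → ℂ, (∀ g, g ∉ B.C W → ψ g = 0) → (fun t : B.C W => ψ t) ∈ Irr (B.C W) →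
      (ψ ∉ S → cv a ψ = 0) ∧ (ψ ∈ S → cv a ψ = k ψ * Nat.card (B.C W) / ψ 1) := by
  classical
  have hfin : S.Finite := (SE.H97.ch_fin B W).subset hS
  have := Fintype.ofFinite G
  have ha' : ∀ g, a g = ∑ χ ∈ hfin.toFinset, k χ * χ g⁻¹ := fun g => by
    rw [ha, finsum_mem_eq_finite_toFinset_sum _ hfin]
  refine ⟨fun g hg => ?_, fun z hz g => ?_, fun ψ hs hI => ?_⟩
  · rw [ha']
    refine Finset.sum_eq_zero fun χ hχ => ?_
    rw [(hS (hfin.mem_toFinset.1 hχ)).1 g⁻¹ (fun h => hg (inv_mem_iff.1 h)), mul_zero]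
  · rw [ha', ha']
    refine Finset.sum_congr rfl fun χ hχ => ?_
    have e : (z * g * z⁻¹)⁻¹ = z * g⁻¹ * z⁻¹ := by group
    rw [e, hcl χ (hS (hfin.mem_toFinset.1 hχ)) z hz]
  · have h1 : ∑ᶠ g, a g * ψ g = ∑ χ ∈ hfin.toFinset, k χ *
        (if χ = ψ then (Nat.card (B.C W) : ℂ) else 0) := by
      rw [finsum_eq_sum_of_fintype]
      simp_rw [ha', Finset.sum_mul]
      rw [Finset.sum_comm]
      refine Finset.sum_congr rfl fun χ hχ => ?_
      have h2 := hS (hfin.mem_toFinset.1 hχ)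
      have h3 := orth B W h2.1 h2.2.1 hs hI
      rw [finsum_eq_sum_of_fintype] at h3
      have h4 : ∑ x, k χ * χ x⁻¹ * ψ x = k χ * ∑ x, χ x⁻¹ * ψ x := by
        rw [Finset.mul_sum]
        exact Finset.sum_congr rfl fun t _ => mul_assoc _ _ _
      rw [h4]
      by_cases h : χ = ψ
      · rw [h3.1 h, if_pos h]
      · rw [h3.2 h, if_neg h]
    have h2 : ∀ χ : G → ℂ, k χ * (if χ = ψ then (Nat.card (B.C W) : ℂ) else 0) =
        if χ = ψ then k ψ * Nat.card (B.C W) else 0 := by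
      intro χ
      split_ifs with h
      · rw [h]
      · rw [mul_zero]
    unfold SO.cv
    rw [h1, Finset.sum_congr rfl fun χ _ => h2 χ, Finset.sum_ite_eq']
    refine ⟨fun h => ?_, fun h => ?_⟩
    · rw [if_neg (fun h' => h (hfin.mem_toFinset.1 h')), zero_div]
    · rw [if_pos (hfin.mem_toFinset.2 h)]

end tools

theorem val (gea : GeaStmt) (gec : GecStmt) (vxm : VxmStmt) (czb : CzbStmt) : ValStmt := by
  intro ℓ hℓ M _ hM hl2 V₀ G _ _ _ _ E₀ hE B hB W hW N e O hC D hD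
  classical
  have hp : ℓ.Prime := Fact.out
  obtain ⟨⟨-, hnd, -⟩, hpr, -, hprw, -⟩ := gea ℓ V₀ E₀ hE W hW
  obtain ⟨g1, -, -, -, -, -, -, g8, g9, g10, -⟩ := gec ℓ V₀ E₀ hE W hW
  obtain ⟨-, -, z3, -, z5, -, z7, -⟩ := czb ℓ M hM hl2 V₀ G E₀ hE B hB.toSb W
  obtain ⟨z1, -⟩ := czb ℓ M hM hl2 V₀ G E₀ hE B hB.toSb W
  have hn0 : nS E₀ W ≠ 0 := fun h => hnd (h ▸ dvd_zero ℓ)
  have hnC : (nS E₀ W : ℂ) ≠ 0 := by exact_mod_cast hn0
  have hcard : (Nat.card (B.C W) : ℂ) ≠ 0 := by exact_mod_cast Nat.card_pos.ne'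
  -- a character not in `N`
  have hsex : ∃ s ∈ lk W, s ≠ (fun _ => (1 : ℂ)) := by
    by_contra h
    push Not at h
    have h1 : lk W ⊆ {fun _ => (1 : ℂ)} := fun s hs => h s hs
    have h2 := Set.ncard_le_ncard h1 (Set.finite_singleton _)
    rw [g1, Set.ncard_singleton] at h2
    exact absurd h2 (not_le.2 hp.one_lt)
  have hone : (fun _ => (1 : ℂ)) ∈ lk (kW E₀ W) :=
    ⟨⟨rfl, fun _ _ => (one_mul (1 : ℂ)).symm⟩, fun _ _ => rfl⟩
  obtain ⟨s₀, hs₀, hs₀1⟩ := hsex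
  obtain ⟨χ₀, ⟨hχ₀, hχ₀N, -⟩, -⟩ := (hC.lv _ hone).bX s₀ hs₀ hs₀1
  have hU : ∃ q ∈ SOR.Rl ℓ, D.U W = 1 + ℓ * q := by
    obtain ⟨q, hq, hq'⟩ := hC.ux
    refine ⟨q, hq, ?_⟩
    have h1 := hD.dU χ₀ hχ₀.1 hχ₀N
    rw [hq' χ₀ hχ₀.1 hχ₀N] at h1
    exact_mod_cast h1.symm
  -- the element `et`
  have hcl : ∀ χ ∈ Ch B W, ∀ z ∈ B.C W, ∀ g, χ (z * g * z⁻¹) = χ g :=
    fun χ hχ => (z7 χ hχ).2.2.2.2
  obtain ⟨c1, c2, c3⟩ := comb B W {χ | χ ∈ Ch B W ∧ χ ∈ N} (fun χ h => h.1)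
    (fun χ => (nS E₀ W : ℂ) * ((e χ : ℂ) * Nat.card (B.C W) * B.D ⊤ /
      (nS E₀ W * Nat.card (B.C ⊤) * χ 1) - D.U W) * (χ 1 / Nat.card (B.C W)))
    (D.et W) hD.de hcl
  have hCz : Cz B W (D.et W) :=
    ⟨c1, c2, fun ψ h1 h2 h3 => (c3 ψ h1 h2).1 fun h => h3 h.1⟩
  have hetN : ∀ χ ∈ Ch B W, χ ∈ N → cv (D.et W) χ = (nS E₀ W : ℂ) *
      ((e χ : ℂ) * Nat.card (B.C W) * B.D ⊤ / (nS E₀ W * Nat.card (B.C ⊤) * χ 1) - D.U W) := by
    intro χ hχ hN
    have h1 : χ 1 ≠ 0 := (z7 χ hχ).1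
    rw [(c3 χ hχ.1 hχ.2.1).2 ⟨hχ, hN⟩]
    field_simp
  have hetX : ∀ χ ∈ Ch B W, χ ∉ N → cv (D.et W) χ = 0 := fun χ hχ hN =>
    (c3 χ hχ.1 hχ.2.1).1 fun h => hN h.2
  -- the elements `fm`
  have hfmW : ∀ χ ∈ Ch B W, ∀ c ∈ W, cv (fm ℓ E₀ B D W c) χ = (nS E₀ W : ℂ) * nu B χ c := by
    intro χ hχ c hc
    have h1 : fm ℓ E₀ B D W c = fun g => (nS E₀ W : ℂ) * fc B W c g + 0 * fc B W c g := by
      funext g
      unfold fm
      rw [if_pos hc, if_pos hc]
      ring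
    rw [h1, (z5 _ _ (z1 c) (z1 c) (nS E₀ W : ℂ) 0).2 χ, cv_fc_mem B W hχ hc]
    ring
  have hfmX : ∀ χ ∈ Ch B W, ∀ c, c ∉ W → cv (fm ℓ E₀ B D W c) χ =
      Nat.card (B.C W) * B.D ⊤ / (Nat.card (B.C ⊤) * χ 1) *
        (nu B χ (pr ℓ E₀ W c) * vx B χ (c * (pr ℓ E₀ W c)⁻¹)) -
        nu B χ (pr ℓ E₀ W c) * cv (D.et W) χ := by
    intro χ hχ c hc
    have hpW := (hpr c).1
    have h1 : fm ℓ E₀ B D W c = fun g => 1 * fc B W c g +
        (-1) * tk B (pr ℓ E₀ W c) (D.et W) g := by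
      funext g
      unfold fm
      rw [if_neg hc, if_neg hc]
      ring
    have h2 := z3 _ hCz _ hpW
    rw [h1, (z5 _ _ (z1 c) h2.1 1 (-1)).2 χ, h2.2 χ hχ]
    obtain ⟨-, ⟨v1, -⟩, v3⟩ := vxm ℓ M hM hl2 V₀ G E₀ hE B hB W hW χ hχ
    rw [(v3 c hc).1]
    have h3 : vx B χ c = nu B χ (pr ℓ E₀ W c) * vx B χ (c * (pr ℓ E₀ W c)⁻¹) := by
      rw [← v1 _ hpW]
      congr 1
      rw [mul_comm, inv_mul_cancel_right]
    rw [h3]
    ring
  have hy : ∀ c, c ∉ W → c * (pr ℓ E₀ W c)⁻¹ ∈ kW E₀ W ∧ c * (pr ℓ E₀ W c)⁻¹ ≠ 1 := by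
    intro c hc
    refine ⟨(hpr c).2, fun h => hc ?_⟩
    rw [mul_inv_eq_one.1 h]
    exact (hpr c).1
  refine ⟨⟨χ₀, hχ₀.1, hχ₀N⟩, hU, hCz, ?_, ?_⟩
  · intro χ hχ hN
    obtain ⟨q, hq, hq'⟩ := hC.un χ hχ hN
    have h1 : χ 1 ≠ 0 := (z7 χ hχ).1
    refine ⟨⟨1 + ℓ * q, ⟨q, hq, rfl⟩, hq', ?_⟩, fun c => ?_⟩
    · rw [hetN χ hχ hN, hq']
      push_cast
      ring
    · by_cases hc : c ∈ W
      · rw [hfmW χ hχ c hc, hprw c hc]
        have h2 : ux D.U W c = 1 := if_pos hc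
        rw [h2]
        push_cast
        ring
      · have h2 : ux D.U W c = D.U W := if_neg hc
        obtain ⟨-, ⟨-, -, -, ⟨ν, hν, hνχ⟩, -⟩, -⟩ := vxm ℓ M hM hl2 V₀ G E₀ hE B hB W hW χ hχ
        have h3 := (hC.lv ν hν).vN χ hνχ hN _ (hy c hc).1 (hy c hc).2
        rw [hfmX χ hχ c hc, h2, h3, hetN χ hχ hN]
        have h4 : (e χ : ℂ) * Nat.card (B.C W) * B.D ⊤ / (nS E₀ W * Nat.card (B.C ⊤) * χ 1) =
            (nS E₀ W : ℂ)⁻¹ * (Nat.card (B.C W) * B.D ⊤ / (Nat.card (B.C ⊤) * χ 1) * e χ) := by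
          rw [mul_assoc (nS E₀ W : ℂ), div_eq_mul_inv, div_eq_mul_inv, mul_inv]
          ring
        rw [h4]
        field_simp
        ring
  · intro χ hχ hN
    refine ⟨hetX χ hχ hN, fun c => ?_⟩
    obtain ⟨-, ⟨-, -, -, ⟨ν, hν, hνχ⟩, -⟩, -⟩ := vxm ℓ M hM hl2 V₀ G E₀ hE B hB W hW χ hχ
    obtain ⟨⟨s, hs, hs1, hO⟩, h5⟩ := (hC.lv ν hν).vX χ hνχ hN
    by_cases hc : c ∈ W
    · rw [hfmW χ hχ c hc, hprw c hc]
      have h2 : ux D.U W c = 1 := if_pos hc
      have h6 : ∑ᶠ s' ∈ O χ, s' c = (nS E₀ W : ℂ) := by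
        have hncard := (g10 s hs hs1).1
        have hfin : (orb E₀ W s).Finite := Set.finite_of_ncard_ne_zero (by rw [hncard]; exact hn0)
        rw [hO, finsum_mem_eq_finite_toFinset_sum _ hfin]
        rw [Finset.sum_congr rfl (g := fun _ => (1 : ℂ)) (fun s' hs' => by
          obtain ⟨τ, hτ, rfl⟩ := hfin.mem_toFinset.1 hs'
          show s (τ c) = 1
          rw [hτ.2 c hc]
          exact hs.2 c hc), Finset.sum_const, nsmul_eq_mul, mul_one,
          ← Set.ncard_eq_toFinset_card _ hfin, hncard]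
      rw [h2, h6]
      push_cast
      ring
    · have h2 : ux D.U W c = D.U W := if_neg hc
      have h6 := h5 _ (hy c hc).1 (hy c hc).2
      have h7 : ∑ᶠ s' ∈ O χ, s' (c * (pr ℓ E₀ W c)⁻¹) = ∑ᶠ s' ∈ O χ, s' c := by
        refine finsum_mem_congr rfl fun s' hs' => ?_
        rw [hO] at hs'
        obtain ⟨τ, hτ, rfl⟩ := hs'
        exact (g8 _ (g9 s hs τ hτ).1 c).1
      rw [hfmX χ hχ c hc, h2, h6, h7, hetX χ hχ hN, ← hD.dU χ hχ hN]
      ring

end Pool.Agent.PP.SE.H77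
end
end -- Pool.Agent.Helper77_ASE.VAL

section -- Pool.Agent.Helper91_ASE.ETC

/-!
# Squad ASE, row ETC: congruences for the central characters at the labels `et`
-/

open scoped BigOperators

noncomputable section

namespace Pool.Agent.PP.SE.H91

open Pool.Agent.Helper51_AWC Pool.Agent.Helper79_WRA Pool.Agent.PP Pool.Agent.PP.KF
open Pool.Agent.PP.K9 Pool.Agent.PP.K9.H97 Pool.Agent.PP.H75 Pool.Agent.PP.T3 Pool.Agent.PP.SO
open Pool.Agent.PP.SD

attribute [local instance] Ideal.Quotient.field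

section nu

variable {V₀ G : Type} [CommGroup V₀] [Group G] [Finite G] {M : Ideal (integralClosure ℤ ℂ)}
  [M.IsMaximal] (B : Bk (FF M) V₀ G) {W : Subgroup V₀}

omit [M.IsMaximal] in
theorem ch_one_ne {ψ : G → ℂ} (hψ : ψ ∈ Ch B W) : ψ 1 ≠ 0 :=
  irr_one_ne (χ := fun t : B.C W => ψ t) hψ.2.1

omit [M.IsMaximal] in
theorem nu_one {ψ : G → ℂ} (hψ : ψ ∈ Ch B W) : nu B ψ 1 = 1 := by
  unfold nu
  rw [map_one, div_self (ch_one_ne B hψ)]

omit [M.IsMaximal] in
theorem nu_mul {ψ : G → ℂ} (hψ : ψ ∈ Ch B W) {w : V₀} (hw : w ∈ W) (w' : V₀) :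
    nu B ψ (w * w') = nu B ψ w * nu B ψ w' := by
  have h := SE.H97.central_i B W hψ.1 hψ.2.1 hw (B.i w')
  unfold nu at h ⊢
  rw [map_mul, h]
  ring

omit [M.IsMaximal] in
theorem nu_pow {ψ : G → ℂ} (hψ : ψ ∈ Ch B W) {w : V₀} (hw : w ∈ W) (n : ℕ) :
    nu B ψ (w ^ n) = nu B ψ w ^ n := by
  induction n with
  | zero => rw [pow_zero, pow_zero, nu_one B hψ]
  | succ n ih => rw [pow_succ', nu_mul B hψ hw, ih, pow_succ']

theorem nu_int {ℓ : ℕ} (hℓ : ℓ.Prime) {ψ : G → ℂ} (hψ : ψ ∈ Ch B W) {w : V₀} (hw : w ∈ W)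
    (h : w ^ ℓ = 1) : IsIntegral ℤ (nu B ψ w) := by
  refine IsIntegral.of_pow hℓ.pos ?_
  rw [← nu_pow B hψ hw, h, nu_one B hψ]
  exact isIntegral_one

/-- the sum of the values of `nu` over the subgroup -/
theorem nu_sum [Finite V₀] {ψ : G → ℂ} (hψ : ψ ∈ Ch B W) :
    ∑ᶠ κ : W, nu B ψ κ = 0 ∨ ∑ᶠ κ : W, nu B ψ κ = Nat.card W := by
  by_cases h : ∀ κ : W, nu B ψ κ = 1
  · right
    have := Fintype.ofFinite W
    rw [finsum_eq_sum_of_fintype, Finset.sum_congr rfl (fun κ _ => h κ), Finset.sum_const,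
      Finset.card_univ, nsmul_eq_mul, mul_one, Nat.card_eq_fintype_card]
  · left
    obtain ⟨κ₀, hκ₀⟩ := not_forall.1 h
    have e1 : ∑ᶠ κ : W, nu B ψ κ = nu B ψ κ₀ * ∑ᶠ κ : W, nu B ψ κ := by
      have := Fintype.ofFinite W
      rw [finsum_eq_sum_of_fintype, Finset.mul_sum]
      refine (Fintype.sum_equiv (Equiv.mulLeft κ₀) _ _ fun κ => ?_).symm
      exact (nu_mul B hψ κ₀.2 (κ : V₀)).symm
    have e2 : (1 - nu B ψ κ₀) * ∑ᶠ κ : W, nu B ψ κ = 0 := by
      rw [sub_mul, one_mul, ← e1, sub_self]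
    rcases mul_eq_zero.1 e2 with h1 | h1
    · exact absurd (sub_eq_zero.1 h1).symm hκ₀
    · exact h1

end nu

theorem etc (etm : EtmStmt) (hte : HteStmt) : EtcStmt := by
  intro ℓ hℓ M _ hM V₀ G _ _ _ _ E₀ hF B hB D hD a ha χ hχ
  have hl0 : (ℓ : ℂ) ≠ 0 := Nat.cast_ne_zero.2 hℓ.out.ne_zero
  obtain ⟨-, e2⟩ := etm ℓ M hM V₀ G B D a ha (hD.e1 a ha)
  obtain ⟨m, hm⟩ := e2 χ hχ.1
  have h1 := (hte ℓ M hM V₀ G E₀ hF.ex hF.cd B hB χ hχ).1
  have hfin := SE.H97.ch_fin B a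
  have hχ1 : χ 1 ≠ 0 := irr_one_ne hχ.1
  have hC0 : (Nat.card (B.C a) : ℂ) ≠ 0 := Nat.cast_ne_zero.2 Nat.card_pos.ne'
  -- the coefficients
  obtain ⟨c, hc⟩ : ∃ c : (G → ℂ) → ℂ, ∀ ψ, c ψ = ((Nat.card G : ℂ) / ((ℓ : ℂ) ^ 2 * χ 1)) *
      ((ℓ : ℂ) ^ 2 * ψ 1 / Nat.card (B.C a)) * m ψ * (cv (D.et a) ψ / ℓ) := ⟨_, fun _ => rfl⟩
  have hcR : ∀ ψ ∈ Ch B a, c ψ ∈ RM M := by
    intro ψ hψ
    rw [hc]
    refine (RM M).mul_mem ((RM M).mul_mem ((RM M).mul_mem h1 (hD.h1 a ha ψ hψ).1) ?_)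
      (hD.e4 a ha ψ hψ)
    exact natCast_mem (RM M) _
  have hsum : ∀ κ ∈ a, cv (etl B D a κ ⊥) χ = ℓ * ∑ ψ ∈ hfin.toFinset, c ψ * nu B ψ κ := by
    intro κ hκ
    rw [hm κ hκ, finsum_mem_eq_finite_toFinset_sum _ hfin, Finset.mul_sum, Finset.mul_sum]
    refine Finset.sum_congr rfl fun ψ _ => ?_
    rw [hc]
    field_simp
  constructor
  · intro κ hκ
    rw [hsum κ hκ, mul_div_cancel_left₀ _ hl0]
    refine (RM M).sum_mem fun ψ hψ => ?_
    have hψ' := hfin.mem_toFinset.1 hψ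
    exact (RM M).mul_mem (hcR ψ hψ') (RM_of_int (nu_int B hℓ.out hψ' hκ (hF.ex κ)))
  · intro hcard
    have e3 : ∑ᶠ κ ∈ a, cv (etl B D a κ ⊥) χ =
        ℓ * ∑ ψ ∈ hfin.toFinset, c ψ * ∑ᶠ κ : a, nu B ψ κ := by
      have := Fintype.ofFinite a
      have e4 : ∑ᶠ κ : a, SO.cv (etl B D a κ ⊥) χ = ∑ᶠ κ ∈ a, SO.cv (etl B D a κ ⊥) χ :=
        finsum_subtype_eq_finsum_cond (f := fun κ : V₀ => SO.cv (etl B D a κ ⊥) χ) (fun κ => κ ∈ a)
      rw [← e4, finsum_eq_sum_of_fintype,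
        Finset.sum_congr rfl (fun (κ : a) _ => hsum (κ : V₀) κ.2),
        ← Finset.mul_sum, Finset.sum_comm]
      congr 1
      refine Finset.sum_congr rfl fun ψ _ => ?_
      rw [finsum_eq_sum_of_fintype, Finset.mul_sum]
    rw [e3, pow_two, mul_div_mul_left _ _ hl0, Finset.sum_div]
    refine (RM M).sum_mem fun ψ hψ => ?_
    have hψ' := hfin.mem_toFinset.1 hψ
    rcases nu_sum B hψ' with h | h
    · rw [h, mul_zero, zero_div]
      exact (RM M).zero_mem
    · rw [h, hcard, mul_div_assoc, div_self hl0, mul_one]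
      exact hcR ψ hψ'

end Pool.Agent.PP.SE.H91
end
end -- Pool.Agent.Helper91_ASE.ETC
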