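import Pool.Agent.Helper12_AWB.B144
import Pool.Agent.Helper12_AWB.B182
import Pool.Agent.Helper12_AWB.B229

/-!
# Merged copies (generated) of the modules

* `Pool.Agent.Helper31_ATZ.GIZ`
* `Pool.Agent.Helper3_ATZ.XCH`
* `Pool.Agent.Helper46_WAT.TGI`
* `Pool.Agent.Helper74_ASE.RXE`
-/

set_option autoImplicit false

section -- Pool.Agent.Helper31_ATZ.GIZ

/-! Squad ATZ, row GIZ: the entries of the projection are rational integers, up to the factor
`iz/|V|`. -/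

set_option autoImplicit false

open scoped BigOperators

noncomputable section

namespace Pool.Agent.PP.TB.H31

open Pool.Agent.Helper51_AWC Pool.Agent.Helper79_WRA Pool.Agent.PP Pool.Agent.PP.KF
open Pool.Agent.PP.K9 Pool.Agent.PP.K9.H97 Pool.Agent.PP.H75 Pool.Agent.PP.T3 Pool.Agent.PP.T2
open Pool.Agent.PP.T5

attribute [local instance] Ideal.Quotient.field

/-- a weighted sum over the classes of an equivalence relation -/
theorem class_sum {α : Type} [Fintype α] (s : Setoid α) (c : α → ℕ) (F : α → ℂ) (I : ℕ)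
    (hc : ∀ x y, s.r x y → c x = c y) (hF : ∀ x y, s.r x y → F x = F y)
    (hI : ∀ x, c x * {y | s.r x y}.ncard = I) (A : AddSubgroup ℂ) (hA : ∀ x, F x ∈ A) :
    ∃ S ∈ A, ∑ x, (c x : ℂ) * F x = (I : ℂ) * S := by
  classical
  have h1 : ∑ x, (c x : ℂ) * F x =
      ∑ q : Quotient s, ∑ x ∈ Finset.univ.filter (fun x => (Quotient.mk s x) = q),
        (c x : ℂ) * F x :=
    (Finset.sum_fiberwise Finset.univ (fun x => Quotient.mk s x) _).symm
  refine ⟨∑ q : Quotient s, F q.out, AddSubgroup.sum_mem _ fun q _ => hA _, ?_⟩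
  rw [h1, Finset.mul_sum]
  refine Finset.sum_congr rfl fun q _ => ?_
  have h2 : ∀ x ∈ Finset.univ.filter (fun x => (Quotient.mk s x) = q),
      (c x : ℂ) * F x = (c q.out : ℂ) * F q.out := by
    intro x hx
    have h3 : s.r x q.out := by
      apply Quotient.exact
      rw [(Finset.mem_filter.1 hx).2, Quotient.out_eq]
    rw [hc _ _ h3, hF _ _ h3]
  rw [Finset.sum_congr rfl h2, Finset.sum_const, nsmul_eq_mul]
  have h4 : (Finset.univ.filter (fun x => (Quotient.mk s x) = q)).card =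
      {y | s.r q.out y}.ncard := by
    rw [← Set.ncard_coe_finset]
    congr 1
    ext x
    rw [Finset.coe_filter]
    constructor
    · intro hx
      apply Quotient.exact
      rw [hx.2, Quotient.out_eq]
    · intro hx
      refine ⟨Finset.mem_univ _, ?_⟩
      have h5 : Quotient.mk s q.out = Quotient.mk s x := Quotient.sound hx
      rw [← h5, Quotient.out_eq]
  rw [h4, ← hI q.out]
  push_cast
  ring

/-- the sums of the powers of a root of unity -/
theorem geom_int {η : ℂ} {n : ℕ} (hη : η ^ n = 1) :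
    ∃ k : ℤ, ∑ j ∈ Finset.range n, η ^ j = k := by
  by_cases h : η = 1
  · refine ⟨n, ?_⟩
    simp [h]
  · refine ⟨0, ?_⟩
    rw [geom_sum_eq h, hη]
    simp

theorem ram_int {ℓ a : ℕ} (hp : ℓ.Prime) (ha : 0 < a) {ζ : ℂ} (hζ : ζ ^ ℓ ^ a = 1) (i : ℕ) :
    ∃ k : ℤ, ∑ j ∈ (Finset.range (ℓ ^ a)).filter (fun j => ¬ ℓ ∣ j), ζ ^ (i * j) = k := by
  classical
  have h1 : ∑ j ∈ (Finset.range (ℓ ^ a)).filter (fun j => ¬ ℓ ∣ j), ζ ^ (i * j) =
      ∑ j ∈ Finset.range (ℓ ^ a), (ζ ^ i) ^ j -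
        ∑ j ∈ Finset.range (ℓ ^ (a - 1)), (ζ ^ (i * ℓ)) ^ j := by
    have h2 := Finset.sum_filter_add_sum_filter_not (Finset.range (ℓ ^ a)) (fun j => ℓ ∣ j)
      (fun j => ζ ^ (i * j))
    have h3 : ∑ j ∈ (Finset.range (ℓ ^ a)).filter (fun j => ℓ ∣ j), ζ ^ (i * j) =
        ∑ j ∈ Finset.range (ℓ ^ (a - 1)), (ζ ^ (i * ℓ)) ^ j := by
      symm
      refine Finset.sum_bij (fun j _ => ℓ * j) ?_ ?_ ?_ ?_
      · intro j hj
        rw [Finset.mem_filter, Finset.mem_range]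
        refine ⟨?_, dvd_mul_right _ _⟩
        have h4 : ℓ ^ a = ℓ * ℓ ^ (a - 1) := by
          rw [← pow_succ']
          congr 1
          omega
        rw [h4]
        exact Nat.mul_lt_mul_of_pos_left (Finset.mem_range.1 hj) hp.pos
      · intro j _ j' _ h
        exact Nat.eq_of_mul_eq_mul_left hp.pos h
      · intro j hj
        rw [Finset.mem_filter, Finset.mem_range] at hj
        obtain ⟨j', rfl⟩ := hj.2
        refine ⟨j', ?_, rfl⟩
        rw [Finset.mem_range]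
        have h4 : ℓ ^ a = ℓ * ℓ ^ (a - 1) := by
          rw [← pow_succ']
          congr 1
          omega
        rw [h4] at hj
        exact Nat.lt_of_mul_lt_mul_left hj.1
      · intro j _
        rw [← pow_mul]
        congr 1
        ring
    have h5 : ∑ j ∈ Finset.range (ℓ ^ a), (ζ ^ i) ^ j = ∑ j ∈ Finset.range (ℓ ^ a), ζ ^ (i * j) :=
      Finset.sum_congr rfl fun j _ => (pow_mul _ _ _).symm
    rw [h5, ← h2, h3]
    ring
  obtain ⟨k, hk⟩ := geom_int (η := ζ ^ i) (n := ℓ ^ a) (by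
    rw [← pow_mul, mul_comm, pow_mul, hζ, one_pow])
  obtain ⟨k', hk'⟩ := geom_int (η := ζ ^ (i * ℓ)) (n := ℓ ^ (a - 1)) (by
    rw [← pow_mul]
    have h4 : i * ℓ * ℓ ^ (a - 1) = ℓ ^ a * i := by
      have h4 : ℓ ^ a = ℓ * ℓ ^ (a - 1) := by
        rw [← pow_succ']
        congr 1
        omega
      rw [h4]
      ring
    rw [h4, pow_mul, hζ, one_pow])
  refine ⟨k - k', ?_⟩
  rw [h1, hk, hk']
  push_cast
  rfl

/-- a rational algebraic integer is an integer -/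
theorem int_of_mul {x : ℂ} (hx : IsIntegral ℤ x) {n : ℕ} (hn : 0 < n) {k : ℤ}
    (h : (n : ℂ) * x = k) : ∃ m : ℤ, x = m := by
  have hn' : (n : ℂ) ≠ 0 := by exact_mod_cast hn.ne'
  have h1 : x = algebraMap ℚ ℂ ((k : ℚ) / n) := by
    have h2 : x = (k : ℂ) / n := by
      rw [← h]
      field_simp
    rw [h2]
    simp
  rw [h1] at hx
  have h3 : IsIntegral ℤ ((k : ℚ) / n) :=
    (isIntegral_algebraMap_iff (algebraMap ℚ ℂ).injective).1 hx
  obtain ⟨m, hm⟩ := (IsIntegrallyClosed.isIntegral_iff (R := ℤ) (K := ℚ)).1 h3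
  refine ⟨m, ?_⟩
  rw [h1, ← hm]
  simp

/-- the additive group of the algebraic integers -/
def AI : AddSubgroup ℂ := (integralClosure ℤ ℂ).toSubring.toAddSubgroup

theorem mem_AI {x : ℂ} : x ∈ AI ↔ IsIntegral ℤ x := Iff.rfl

/-- GIZ -/
theorem giz (zcp : ZcpStmt) (zin : ZinStmt) : GizStmt := by
  intro ℓ hfact M _ hM G _ _ e V Z γ b hZ W hWZ hWT χ hχ ψ hψ
  classical
  have hp : ℓ.Prime := Fact.out
  have := Fintype.ofFinite G
  have := Fintype.ofFinite W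
  obtain ⟨c1, c2, c3, c4, c5, c6, c7⟩ := zcp ℓ M hM G e V Z γ b hZ
  obtain ⟨F, hF⟩ : ∃ F : W → ℂ, F = fun w : W =>
    (Nat.card V : ℂ) * mm M ℓ (Cu (w : G)) w (b w) χ ψ := ⟨_, rfl⟩
  have hFe : ∀ w : W, F w = (Nat.card V : ℂ) * mm M ℓ (Cu (w : G)) w (b w) χ ψ := by
    intro w
    rw [hF]
  have hWp : IsPGroup ℓ W := by
    have h1 : IsPGroup ℓ V := hZ.tp.1
    have h2 : IsPGroup ℓ (W : Subgroup G) := h1.to_le (hWZ.trans hZ.le)
    exact h2
  obtain ⟨a0, ha0⟩ := hWp.exists_card_eq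
  have ha : 0 < a0 + 1 := Nat.succ_pos _
  have hpow : ∀ w : W, (w : G) ^ ℓ ^ (a0 + 1) = 1 := by
    intro w
    have h1 : w ^ Nat.card W = 1 := pow_card_eq_one'
    rw [ha0] at h1
    have h2 : (w : G) ^ ℓ ^ a0 = 1 := by
      rw [← Subgroup.coe_pow, h1, Subgroup.coe_one]
    rw [pow_succ, pow_mul, h2, one_pow]
  have hζ := Complex.isPrimitiveRoot_exp (ℓ ^ (a0 + 1)) (Nat.pow_pos hp.pos).ne'
  generalize Complex.exp (2 * Real.pi * Complex.I / ((ℓ ^ (a0 + 1) : ℕ) : ℂ)) = ζ at hζ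
  have hin : ∀ w : W, ∃ m : ℕ → ℤ, ∀ j : ℕ, ¬ ℓ ∣ j →
      F (w ^ j) = ∑ i ∈ Finset.range (ℓ ^ (a0 + 1)), (m i : ℂ) * ζ ^ (i * j) := by
    intro w
    obtain ⟨m, hm⟩ := zin ℓ M hM G e V Z γ b hZ w (hWZ w.2) (a0 + 1) ha (hpow w) ζ hζ χ hχ ψ hψ
    refine ⟨m, fun j hj => ?_⟩
    rw [hFe, Subgroup.coe_pow]
    exact hm j hj
  choose m hm using hin
  -- the values are algebraic integers
  have hζi : IsIntegral ℤ ζ := hζ.isIntegral (Nat.pow_pos hp.pos)
  have hAI : ∀ w : W, F w ∈ AI := by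
    intro w
    have h1 := hm w 1 (fun h => hp.one_lt.ne' (Nat.dvd_one.1 h))
    rw [pow_one] at h1
    rw [h1]
    refine AddSubgroup.sum_mem _ fun i _ => mem_AI.2 ?_
    exact (isIntegral_algebraMap (R := ℤ) (A := ℂ) (x := m w i)).mul (hζi.pow _)
  -- the orbits
  let s : Setoid W :=
    { r := fun x y => ∃ t ∈ Tg V γ, (y : G) = t * (x : G) * t⁻¹
      iseqv :=
        { refl := fun x => ⟨1, (Tg V γ).one_mem, by simp⟩
          symm := by
            rintro x y ⟨t, ht, h⟩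
            exact ⟨t⁻¹, (Tg V γ).inv_mem ht, by rw [h]; group⟩
          trans := by
            rintro x y z ⟨t, ht, h⟩ ⟨t', ht', h'⟩
            exact ⟨t' * t, (Tg V γ).mul_mem ht' ht, by rw [h', h]; group⟩ } }
  obtain ⟨S, hS, hSe⟩ := class_sum s (fun w : W => cz V Z γ (w : G)) F (iz V Z γ)
    (by
      rintro x y ⟨t, ht, h⟩
      show cz V Z γ (x : G) = cz V Z γ (y : G)
      rw [h, (c1 x (hWZ x.2) t ht).2.1])
    (by
      rintro x y ⟨t, ht, h⟩
      rw [hFe, hFe, h, (c1 x (hWZ x.2) t ht).2.2 χ hχ ψ hψ])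
    (by
      intro x
      rw [← c3 x (hWZ x.2)]
      show cz V Z γ (x : G) * _ = _
      congr 1
      have h1 : {y : G | ∃ t ∈ Tg V γ, y = t * (x : G) * t⁻¹} =
          (fun y : W => (y : G)) '' {y : W | s.r x y} := by
        ext y
        constructor
        · rintro ⟨t, ht, h⟩
          have hy : y ∈ W := by
            rw [h]
            exact hWT t ht x x.2
          exact ⟨⟨y, hy⟩, ⟨t, ht, h⟩, rfl⟩
        · rintro ⟨y', ⟨t, ht, h⟩, rfl⟩
          exact ⟨t, ht, h⟩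
      rw [h1, Set.ncard_image_of_injective _ Subtype.coe_injective]) AI hAI
  -- the sum
  have hPw : (Nat.card V : ℂ) * Pw M ℓ V Z W γ b χ ψ =
      ∑ w : W, (cz V Z γ (w : G) : ℂ) * F w := by
    rw [Pw, finsum_eq_sum_of_fintype, Finset.mul_sum]
    refine Finset.sum_congr rfl fun w _ => ?_
    rw [hFe]
    ring
  -- rationality
  have hj : ∀ j : ℕ, ¬ ℓ ∣ j → ∑ w : W, (cz V Z γ (w : G) : ℂ) * F w =
      ∑ w : W, (cz V Z γ (w : G) : ℂ) * F (w ^ j) := by
    intro j hj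
    have hco : (Nat.card W).Coprime j := by
      rw [ha0]
      exact Nat.Coprime.pow_left _ ((Nat.Prime.coprime_iff_not_dvd hp).2 hj)
    symm
    refine Fintype.sum_equiv (powCoprime hco) _ _ fun w => ?_
    rw [powCoprime_apply, Subgroup.coe_pow, (c2 w (hWZ w.2) j hj).2.2]
  have hrat : ∃ k : ℤ, ((((Finset.range (ℓ ^ (a0 + 1))).filter (fun j => ¬ ℓ ∣ j)).card *
      iz V Z γ : ℕ) : ℂ) * S = k := by
    have h1 : ∀ w : W, ∃ k : ℤ, ∑ j ∈ (Finset.range (ℓ ^ (a0 + 1))).filter (fun j => ¬ ℓ ∣ j),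
        F (w ^ j) = k := by
      intro w
      choose r hr using fun i => ram_int hp ha hζ.pow_eq_one i
      refine ⟨∑ i ∈ Finset.range (ℓ ^ (a0 + 1)), m w i * r i, ?_⟩
      rw [Finset.sum_congr rfl fun j hj => hm w j (Finset.mem_filter.1 hj).2, Finset.sum_comm]
      push_cast
      refine Finset.sum_congr rfl fun i _ => ?_
      rw [← hr i, Finset.mul_sum]
    choose k hk using h1
    refine ⟨∑ w : W, (cz V Z γ (w : G) : ℤ) * k w, ?_⟩
    have h2 : ((((Finset.range (ℓ ^ (a0 + 1))).filter (fun j => ¬ ℓ ∣ j)).card *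
        iz V Z γ : ℕ) : ℂ) * S =
        ∑ j ∈ (Finset.range (ℓ ^ (a0 + 1))).filter (fun j => ¬ ℓ ∣ j),
          ∑ w : W, (cz V Z γ (w : G) : ℂ) * F (w ^ j) := by
      rw [← Finset.sum_congr rfl fun j hj' => hj j (Finset.mem_filter.1 hj').2, Finset.sum_const,
        nsmul_eq_mul, hSe]
      push_cast
      ring
    rw [h2, Finset.sum_comm]
    push_cast
    refine Finset.sum_congr rfl fun w _ => ?_
    rw [← hk w, Finset.mul_sum]
  obtain ⟨k, hk⟩ := hrat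
  have hpos : 0 < ((Finset.range (ℓ ^ (a0 + 1))).filter (fun j => ¬ ℓ ∣ j)).card * iz V Z γ := by
    refine Nat.mul_pos (Finset.card_pos.2 ⟨1, ?_⟩) c4
    rw [Finset.mem_filter, Finset.mem_range]
    exact ⟨Nat.one_lt_pow (Nat.succ_ne_zero _) hp.one_lt,
      fun h => hp.one_lt.ne' (Nat.dvd_one.1 h)⟩
  obtain ⟨n, hn⟩ := int_of_mul (mem_AI.1 hS) hpos hk
  refine ⟨n, ?_⟩
  rw [hPw, hSe, hn]

end Pool.Agent.PP.TB.H31
end
end -- Pool.Agent.Helper31_ATZ.GIZ

section -- Pool.Agent.Helper3_ATZ.XCH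

/-!
# Squad ATZ, row XCH: the numbers `|G| (χ, ψ)_u / χ(1)` and the central character
-/

open scoped BigOperators

noncomputable section

namespace Pool.Agent.PP.TB.H3

open Pool.Agent.Helper51_AWC Pool.Agent.Helper79_WRA Pool.Agent.PP Pool.Agent.PP.KF
open Pool.Agent.PP.K9 Pool.Agent.PP.K9.H97 Pool.Agent.PP.H75 Pool.Agent.PP.T3 Pool.Agent.PP.T2
open Pool.Agent.PP.T5

attribute [local instance] Ideal.Quotient.field

variable {M : Ideal (integralClosure ℤ ℂ)} [M.IsMaximal]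

/-- the central character at the sum of the conjugates of `w` -/
theorem gen {G : Type} [Group G] [Fintype G] {C : Subgroup G} {e : G → FF M} (he : IsBlk e)
    {w : G → ℂ} (hw : ∀ c ∈ C, ∀ g, w (c * g * c⁻¹) = w g) (hR : ∀ g, w g ∈ RM M) :
    (∀ χ ∈ Irr G, (Nat.card G * chv w χ / (Nat.card C * χ 1)) ∈ RM M) ∧
    ∀ χ ∈ IrrE M e, ∀ χ' ∈ IrrE M e,
      rr M (Nat.card G * chv w χ / (Nat.card C * χ 1)) =
        rr M (Nat.card G * chv w χ' / (Nat.card C * χ' 1)) := by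
  classical
  have hz := KF.H65.zet_cl (C := C) hw
  have hzR : ∀ g, KF.H65.zet C w g ∈ RM M := fun g =>
    Subring.sum_mem _ fun q _ => hR _
  have hrcl : IsCl (fun g => rr M (KF.H65.zet C w g)) := by
    intro x y
    change rr M _ = rr M _
    rw [hz]
  refine ⟨fun χ hχ => ?_, fun χ hχ χ' hχ' => ?_⟩
  · have k1 := KF.H65.om_RM (M := M) hz hzR hχ
    rw [KF.H65.zet_om hχ] at k1
    exact k1.1
  · have k1 := KF.H65.om_RM (M := M) hz hzR hχ.1
    have k2 := KF.H65.om_RM (M := M) hz hzR hχ'.1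
    have k3 := H50.char_uniq he (H50.isChar_res hχ.1) (H50.isChar_res hχ'.1) hχ.2 hχ'.2 hrcl
    rw [KF.H65.zet_om hχ.1] at k1
    rw [KF.H65.zet_om hχ'.1] at k2
    exact k1.2.trans (k3.trans k2.2.symm)

theorem reg_cj {ℓ : ℕ} {K : Type} [Group K] (x y : K) : Reg ℓ (y * x * y⁻¹) ↔ Reg ℓ x := by
  unfold Reg
  rw [← MulAut.conj_apply, MulEquiv.orderOf_eq]

theorem xch : XchStmt := by
  intro ℓ _ M _ hM G _ _ e he u b hb ψ hψ
  classical
  have := Fintype.ofFinite G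
  obtain ⟨h1, h2, -⟩ := KF.H25.idm M (Cu u) (fun t : Cu u => b t) hb.idem
  have hcl := h2.1
  obtain ⟨B, hB⟩ : ∃ B : G → ℂ, B = PP.ext0 (Cu u) (eh M (fun t : Cu u => b t)) := ⟨_, rfl⟩
  have hBR : ∀ x, B x ∈ RM M := by
    intro x
    rw [hB]
    unfold PP.ext0
    split_ifs with h
    · exact (h1 _).1
    · exact Subring.zero_mem _
  have hBc : ∀ c ∈ Cu u, ∀ x, B (c * x * c⁻¹) = B x := by
    intro c hc x
    rw [hB]
    unfold PP.ext0
    by_cases h : x ∈ Cu u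
    · have h' : c * x * c⁻¹ ∈ Cu u :=
        (Cu u).mul_mem ((Cu u).mul_mem hc h) ((Cu u).inv_mem hc)
      rw [dif_pos h', dif_pos h]
      exact hcl ⟨x, h⟩ ⟨c, hc⟩
    · have h' : c * x * c⁻¹ ∉ Cu u := by
        intro h'
        apply h
        have : x = c⁻¹ * (c * x * c⁻¹) * c := by group
        rw [this]
        exact (Cu u).mul_mem ((Cu u).mul_mem ((Cu u).inv_mem hc) h') hc
      rw [dif_neg h', dif_neg h]
  have hgv : ∀ (g : G) (χ : G → ℂ), gv M (Cu u) g b χ = ∑ x, B x * χ (g * x) := by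
    intro g χ
    rw [hB, K9.H10.sum_e0 u (eh M (fun t : Cu u => b t)) (fun x => χ (g * x))]
    rfl
  have hcu : ∀ c ∈ Cu u, c * u = u * c := fun c hc =>
    (Subgroup.mem_centralizer_iff.1 hc u (Set.mem_singleton u)).symm
  obtain ⟨k, hk⟩ : ∃ k : G → ℂ, k = fun s => starRingEnd ℂ (gv M (Cu u) (u * s) b ψ) :=
    ⟨_, rfl⟩
  have hkR : ∀ s, k s ∈ RM M := by
    intro s
    rw [hk]
    change starRingEnd ℂ (gbv (Cu u) (u * s) (eh M (fun t : Cu u => b t)) ψ) ∈ RM M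
    rw [K9.H10.gbv_conj u (u * s) _ hψ, finsum_eq_sum_of_fintype]
    exact Subring.sum_mem _ fun c _ =>
      Subring.mul_mem _ (h1 _).1 (RM_of_int (irr_integral hψ _))
  have hkc : ∀ c ∈ Cu u, ∀ s, k (c * s * c⁻¹) = k s := by
    intro c hc s
    rw [hk]
    simp only []
    congr 1
    rw [hgv, hgv, ← Equiv.sum_comp (MulAut.conj c).toEquiv]
    refine Finset.sum_congr rfl fun x _ => ?_
    change B (c * x * c⁻¹) * ψ (u * (c * s * c⁻¹) * (c * x * c⁻¹)) = _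
    rw [hBc c hc]
    congr 1
    have e1 : u * (c * s * c⁻¹) * (c * x * c⁻¹) = c * (u * s * x) * c⁻¹ := by
      have e2 := hcu c hc
      calc u * (c * s * c⁻¹) * (c * x * c⁻¹) = (u * c) * s * x * c⁻¹ := by group
        _ = (c * u) * s * x * c⁻¹ := by rw [e2]
        _ = _ := by group
    rw [e1]
    exact irr_conj hψ _ _
  obtain ⟨P, hP⟩ : ∃ P : G → ℂ, P = fun s => if s ∈ Cu u ∧ Reg ℓ s then k s else 0 := ⟨_, rfl⟩
  have hPR : ∀ s, P s ∈ RM M := by
    intro s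
    rw [hP]
    simp only []
    split_ifs
    · exact hkR s
    · exact Subring.zero_mem _
  have hPc : ∀ c ∈ Cu u, ∀ s, P (c * s * c⁻¹) = P s := by
    intro c hc s
    rw [hP]
    simp only []
    have e1 : (c * s * c⁻¹ ∈ Cu u ∧ Reg ℓ (c * s * c⁻¹)) ↔ (s ∈ Cu u ∧ Reg ℓ s) := by
      rw [reg_cj]
      refine and_congr_left fun _ => ⟨fun h => ?_, fun h => ?_⟩
      · have : s = c⁻¹ * (c * s * c⁻¹) * c := by group
        rw [this]
        exact (Cu u).mul_mem ((Cu u).mul_mem ((Cu u).inv_mem hc) h) hc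
      · exact (Cu u).mul_mem ((Cu u).mul_mem hc h) ((Cu u).inv_mem hc)
    by_cases h : s ∈ Cu u ∧ Reg ℓ s
    · rw [if_pos h, if_pos (e1.2 h), hkc c hc]
    · rw [if_neg h, if_neg fun h' => h (e1.1 h')]
  obtain ⟨w, hw⟩ : ∃ w : G → ℂ, w = fun x => ∑ s, P s * B (s⁻¹ * (u⁻¹ * x)) := ⟨_, rfl⟩
  have hwR : ∀ x, w x ∈ RM M := by
    intro x
    rw [hw]
    exact Subring.sum_mem _ fun s _ => Subring.mul_mem _ (hPR s) (hBR _)
  have hwc : ∀ c ∈ Cu u, ∀ x, w (c * x * c⁻¹) = w x := by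
    intro c hc x
    rw [hw]
    simp only []
    rw [← Equiv.sum_comp (MulAut.conj c).toEquiv]
    refine Finset.sum_congr rfl fun s _ => ?_
    change P (c * s * c⁻¹) * B ((c * s * c⁻¹)⁻¹ * (u⁻¹ * (c * x * c⁻¹))) = _
    rw [hPc c hc]
    congr 1
    have e1 : (c * s * c⁻¹)⁻¹ * (u⁻¹ * (c * x * c⁻¹)) = c * (s⁻¹ * (u⁻¹ * x)) * c⁻¹ := by
      have e2 : u⁻¹ * c = c * u⁻¹ := by
        rw [inv_mul_eq_iff_eq_mul, ← mul_assoc, ← hcu c hc, mul_inv_cancel_right]
      calc (c * s * c⁻¹)⁻¹ * (u⁻¹ * (c * x * c⁻¹)) =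
          c * s⁻¹ * c⁻¹ * (u⁻¹ * c) * x * c⁻¹ := by group
        _ = c * s⁻¹ * c⁻¹ * (c * u⁻¹) * x * c⁻¹ := by rw [e2]
        _ = _ := by group
    rw [e1, hBc c hc]
  have hchv : ∀ χ : G → ℂ, chv w χ = Nat.card (Cu u) * mm M ℓ (Cu u) u b χ ψ := by
    intro χ
    unfold chv mm
    have hC : (Nat.card (Cu u) : ℂ) ≠ 0 := Nat.cast_ne_zero.2 Nat.card_pos.ne'
    rw [mul_inv_cancel_left₀ hC, finsum_eq_sum_of_fintype]
    have e1 : (∑ᶠ (s : G) (_ : s ∈ Cu u ∧ Reg ℓ s),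
        gv M (Cu u) (u * s) b χ * starRingEnd ℂ (gv M (Cu u) (u * s) b ψ)) =
        ∑ s, P s * gv M (Cu u) (u * s) b χ := by
      refine (finsum_mem_eq_finite_toFinset_sum
        (fun s => gv M (Cu u) (u * s) b χ * starRingEnd ℂ (gv M (Cu u) (u * s) b ψ))
        (s := {s : G | s ∈ Cu u ∧ Reg ℓ s}) (Set.toFinite _)).trans ?_
      have e2 : (Set.toFinite {s : G | s ∈ Cu u ∧ Reg ℓ s}).toFinset =
          Finset.univ.filter fun s : G => s ∈ Cu u ∧ Reg ℓ s := by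
        ext s
        simp
      rw [e2, Finset.sum_filter]
      refine Finset.sum_congr rfl fun s _ => ?_
      rw [hP, hk]
      simp only []
      split_ifs
      · ring
      · ring
    rw [e1, hw]
    simp only []
    simp_rw [Finset.sum_mul]
    rw [Finset.sum_comm]
    refine Finset.sum_congr rfl fun s _ => ?_
    rw [hgv, Finset.mul_sum, ← Equiv.sum_comp (Equiv.mulLeft (u * s))]
    refine Finset.sum_congr rfl fun x _ => ?_
    rw [Equiv.coe_mulLeft]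
    have e2 : s⁻¹ * (u⁻¹ * (u * s * x)) = x := by group
    rw [e2]
    ring
  have hG := gen (C := Cu u) he hwc hwR
  have hq : ∀ χ : G → ℂ, (Nat.card G : ℂ) * chv w χ / (Nat.card (Cu u) * χ 1) =
      (Nat.card G : ℂ) * mm M ℓ (Cu u) u b χ ψ / χ 1 := by
    intro χ
    have hC : (Nat.card (Cu u) : ℂ) ≠ 0 := Nat.cast_ne_zero.2 Nat.card_pos.ne'
    rw [hchv, mul_left_comm, mul_div_mul_left _ _ hC]
  refine ⟨fun χ hχ => ?_, fun χ hχ χ' hχ' => ?_⟩
  · have := hG.1 χ hχ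
    rwa [hq] at this
  · have := hG.2 χ hχ χ' hχ'
    rwa [hq, hq] at this

end Pool.Agent.PP.TB.H3
end
end -- Pool.Agent.Helper3_ATZ.XCH

section -- Pool.Agent.Helper46_WAT.TGI

/-!
# Squad WAT, row TGI: integrality of the twisted sums, helper46
-/

set_option autoImplicit false

open scoped BigOperators

noncomputable section

namespace Pool.Agent.PP.TV.H46

open Pool.Agent.Helper51_AWC Pool.Agent.Helper79_WRA Pool.Agent.PP Pool.Agent.PP.KF
open Pool.Agent.PP.K9 Pool.Agent.PP.K9.H97 Pool.Agent.PP.H75 Pool.Agent.PP.T3 Pool.Agent.PP.T2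
open Pool.Agent.PP.T5 Pool.Agent.PP.TB Pool.Agent.PP.TV
open Pool.Agent.PP.TB.H31 (class_sum ram_int int_of_mul AI mem_AI)

attribute [local instance] Ideal.Quotient.field

/-- TGI -/
theorem tgi (zcp : TB.ZcpStmt) (zin : TB.ZinStmt) : TgiStmt := by
  intro ℓ hfact M _ hM G _ _ e V γ b hZ lam hlam χ hχ
  classical
  have hp : ℓ.Prime := Fact.out
  have := Fintype.ofFinite G
  have := Fintype.ofFinite V
  obtain ⟨c1, c2, c3, c4, c5, c6, c7⟩ := zcp ℓ M hM G e V V γ b hZ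
  obtain ⟨F, hF⟩ : ∃ F : V → ℂ, F = fun w : V =>
    lam w * ((Nat.card V : ℂ) * mm M ℓ (Cu (w : G)) w (b w) χ χ) := ⟨_, rfl⟩
  have hFe : ∀ w : V, F w = lam w * ((Nat.card V : ℂ) * mm M ℓ (Cu (w : G)) w (b w) χ χ) := by
    intro w
    rw [hF]
  have hWp : IsPGroup ℓ V := hZ.tp.1
  obtain ⟨a0, ha0⟩ := hWp.exists_card_eq
  have ha : 0 < a0 + 1 := Nat.succ_pos _
  have hpow' : ∀ w : V, w ^ ℓ ^ (a0 + 1) = 1 := by
    intro w
    have h1 : w ^ Nat.card V = 1 := pow_card_eq_one'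
    rw [ha0] at h1
    rw [pow_succ, pow_mul, h1, one_pow]
  have hpow : ∀ w : V, (w : G) ^ ℓ ^ (a0 + 1) = 1 := by
    intro w
    rw [← Subgroup.coe_pow, hpow' w, Subgroup.coe_one]
  have hζ := Complex.isPrimitiveRoot_exp (ℓ ^ (a0 + 1)) (Nat.pow_pos hp.pos).ne'
  generalize Complex.exp (2 * Real.pi * Complex.I / ((ℓ ^ (a0 + 1) : ℕ) : ℂ)) = ζ at hζ
  have hk : ∀ w : V, ∃ k : ℕ, lam w = ζ ^ k := by
    intro w
    have h1 : lam w ^ ℓ ^ (a0 + 1) = 1 := by
      rw [← map_pow, hpow' w, map_one]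
    have : NeZero (ℓ ^ (a0 + 1)) := ⟨(Nat.pow_pos hp.pos).ne'⟩
    obtain ⟨i, -, hi⟩ := hζ.eq_pow_of_pow_eq_one h1
    exact ⟨i, hi.symm⟩
  choose k hk using hk
  have hin : ∀ w : V, ∃ m : ℕ → ℤ, ∀ j : ℕ, ¬ ℓ ∣ j →
      F (w ^ j) = ∑ i ∈ Finset.range (ℓ ^ (a0 + 1)), (m i : ℂ) * ζ ^ ((i + k w) * j) := by
    intro w
    obtain ⟨m, hm⟩ := zin ℓ M hM G e V V γ b hZ w w.2 (a0 + 1) ha (hpow w) ζ hζ χ hχ χ hχ
    refine ⟨m, fun j hj => ?_⟩
    rw [hFe, Subgroup.coe_pow, hm j hj, map_pow, hk w, Finset.mul_sum]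
    refine Finset.sum_congr rfl fun i _ => ?_
    rw [← pow_mul, add_mul, pow_add]
    ring
  choose m hm using hin
  -- the values are algebraic integers
  have hζi : IsIntegral ℤ ζ := hζ.isIntegral (Nat.pow_pos hp.pos)
  have hAI : ∀ w : V, F w ∈ TB.H31.AI := by
    intro w
    have h1 := hm w 1 (fun h => hp.one_lt.ne' (Nat.dvd_one.1 h))
    rw [pow_one] at h1
    rw [h1]
    refine AddSubgroup.sum_mem _ fun i _ => mem_AI.2 ?_
    exact (isIntegral_algebraMap (R := ℤ) (A := ℂ) (x := m w i)).mul (hζi.pow _)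
  -- the orbits
  let s : Setoid V :=
    { r := fun x y => ∃ t ∈ Tg V γ, (y : G) = t * (x : G) * t⁻¹
      iseqv :=
        { refl := fun x => ⟨1, (Tg V γ).one_mem, by simp⟩
          symm := by
            rintro x y ⟨t, ht, h⟩
            exact ⟨t⁻¹, (Tg V γ).inv_mem ht, by rw [h]; group⟩
          trans := by
            rintro x y z ⟨t, ht, h⟩ ⟨t', ht', h'⟩
            exact ⟨t' * t, (Tg V γ).mul_mem ht' ht, by rw [h', h]; group⟩ } }
  obtain ⟨S, hS, hSe⟩ := class_sum s (fun w : V => cz V V γ (w : G)) F (iz V V γ)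
    (by
      rintro x y ⟨t, ht, h⟩
      show cz V V γ (x : G) = cz V V γ (y : G)
      rw [h, (c1 x x.2 t ht).2.1])
    (by
      rintro x y ⟨t, ht, h⟩
      rw [hFe, hFe, hlam t ht x y h, h, (c1 x x.2 t ht).2.2 χ hχ χ hχ])
    (by
      intro x
      rw [← c3 x x.2]
      show cz V V γ (x : G) * _ = _
      congr 1
      have h1 : {y : G | ∃ t ∈ Tg V γ, y = t * (x : G) * t⁻¹} =
          (fun y : V => (y : G)) '' {y : V | s.r x y} := by
        ext y
        constructor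
        · rintro ⟨t, ht, h⟩
          have hy : y ∈ V := by
            rw [h]
            exact hZ.nrm t ht x x.2
          exact ⟨⟨y, hy⟩, ⟨t, ht, h⟩, rfl⟩
        · rintro ⟨y', ⟨t, ht, h⟩, rfl⟩
          exact ⟨t, ht, h⟩
      rw [h1, Set.ncard_image_of_injective _ Subtype.coe_injective]) TB.H31.AI hAI
  -- the sum
  have hPw : (Nat.card V : ℂ) * ∑ᶠ v : V, (cz V V γ (v : G) : ℂ) * lam v *
      mm M ℓ (Cu (v : G)) v (b v) χ χ = ∑ w : V, (cz V V γ (w : G) : ℂ) * F w := by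
    rw [finsum_eq_sum_of_fintype, Finset.mul_sum]
    refine Finset.sum_congr rfl fun w _ => ?_
    rw [hFe]
    ring
  -- rationality
  have hj : ∀ j : ℕ, ¬ ℓ ∣ j → ∑ w : V, (cz V V γ (w : G) : ℂ) * F w =
      ∑ w : V, (cz V V γ (w : G) : ℂ) * F (w ^ j) := by
    intro j hj
    have hco : (Nat.card V).Coprime j := by
      rw [ha0]
      exact Nat.Coprime.pow_left _ ((Nat.Prime.coprime_iff_not_dvd hp).2 hj)
    symm
    refine Fintype.sum_equiv (powCoprime hco) _ _ fun w => ?_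
    rw [powCoprime_apply, Subgroup.coe_pow, (c2 w w.2 j hj).2.2]
  have hrat : ∃ q : ℤ, ((((Finset.range (ℓ ^ (a0 + 1))).filter (fun j => ¬ ℓ ∣ j)).card *
      iz V V γ : ℕ) : ℂ) * S = q := by
    have h1 : ∀ w : V, ∃ q : ℤ, ∑ j ∈ (Finset.range (ℓ ^ (a0 + 1))).filter (fun j => ¬ ℓ ∣ j),
        F (w ^ j) = q := by
      intro w
      choose r hr using fun i => ram_int hp ha hζ.pow_eq_one i
      refine ⟨∑ i ∈ Finset.range (ℓ ^ (a0 + 1)), m w i * r (i + k w), ?_⟩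
      rw [Finset.sum_congr rfl fun j hj => hm w j (Finset.mem_filter.1 hj).2, Finset.sum_comm]
      push_cast
      refine Finset.sum_congr rfl fun i _ => ?_
      rw [← hr (i + k w), Finset.mul_sum]
    choose q hq using h1
    refine ⟨∑ w : V, (cz V V γ (w : G) : ℤ) * q w, ?_⟩
    have h2 : ((((Finset.range (ℓ ^ (a0 + 1))).filter (fun j => ¬ ℓ ∣ j)).card *
        iz V V γ : ℕ) : ℂ) * S =
        ∑ j ∈ (Finset.range (ℓ ^ (a0 + 1))).filter (fun j => ¬ ℓ ∣ j),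
          ∑ w : V, (cz V V γ (w : G) : ℂ) * F (w ^ j) := by
      rw [← Finset.sum_congr rfl fun j hj' => hj j (Finset.mem_filter.1 hj').2, Finset.sum_const,
        nsmul_eq_mul, hSe]
      push_cast
      ring
    rw [h2, Finset.sum_comm]
    push_cast
    refine Finset.sum_congr rfl fun w _ => ?_
    rw [← hq w, Finset.mul_sum]
  obtain ⟨q, hq⟩ := hrat
  have hpos : 0 < ((Finset.range (ℓ ^ (a0 + 1))).filter (fun j => ¬ ℓ ∣ j)).card * iz V V γ := by
    refine Nat.mul_pos (Finset.card_pos.2 ⟨1, ?_⟩) c4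
    rw [Finset.mem_filter, Finset.mem_range]
    exact ⟨Nat.one_lt_pow (Nat.succ_ne_zero _) hp.one_lt,
      fun h => hp.one_lt.ne' (Nat.dvd_one.1 h)⟩
  obtain ⟨n, hn⟩ := int_of_mul (mem_AI.1 hS) hpos hq
  refine ⟨n, ?_⟩
  rw [hPw, hSe, hn]

end Pool.Agent.PP.TV.H46
end
end -- Pool.Agent.Helper46_WAT.TGI

section -- Pool.Agent.Helper74_ASE.RXE

/-!
# Squad ASE, row RXE: the numbers `|G| rip(χ, ψ) / χ(1)` and the central character
-/

open scoped BigOperators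

noncomputable section

namespace Pool.Agent.PP.SE.H74

open Pool.Agent.Helper51_AWC Pool.Agent.Helper79_WRA Pool.Agent.PP Pool.Agent.PP.KF
open Pool.Agent.PP.K9 Pool.Agent.PP.K9.H97 Pool.Agent.PP.H75 Pool.Agent.PP.T3 Pool.Agent.PP.SO
open Pool.Agent.PP.SD

attribute [local instance] Ideal.Quotient.field

theorem star_int {z : ℂ} (h : IsIntegral ℤ z) : IsIntegral ℤ (starRingEnd ℂ z) :=
  h.map (starRingEnd ℂ).toIntAlgHom

theorem rxe : RxeStmt := by
  intro ℓ _ M _ hM G _ _ e he ψ hψ χ hχ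
  classical
  have := Fintype.ofFinite G
  obtain ⟨w, hw⟩ : ∃ w : G → ℂ, w = fun s => if Reg ℓ s then starRingEnd ℂ (ψ s) else 0 :=
    ⟨_, rfl⟩
  have hwR : ∀ s, w s ∈ RM M := by
    intro s
    rw [hw]
    simp only []
    split_ifs
    · exact RM_of_int (star_int (irr_integral hψ _))
    · exact Subring.zero_mem _
  have hwc : ∀ c ∈ (⊤ : Subgroup G), ∀ s, w (c * s * c⁻¹) = w s := by
    intro c _ s
    rw [hw]
    simp only []
    by_cases h : Reg ℓ s
    · rw [if_pos h, if_pos (TB.H3.reg_cj s c |>.2 h), irr_conj hψ]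
    · rw [if_neg h, if_neg fun h' => h (TB.H3.reg_cj s c |>.1 h')]
  have hG0 : (Nat.card G : ℂ) ≠ 0 := Nat.cast_ne_zero.2 Nat.card_pos.ne'
  have hq : ∀ χ : G → ℂ, (Nat.card G : ℂ) * chv w χ / (Nat.card (⊤ : Subgroup G) * χ 1) =
      (Nat.card G : ℂ) * T5.rip ℓ χ ψ / χ 1 := by
    intro χ
    have h1 : chv w χ = Nat.card G * T5.rip ℓ χ ψ := by
      unfold chv T5.rip
      rw [mul_inv_cancel_left₀ hG0]
      refine finsum_congr fun s => ?_
      rw [hw]
      simp only []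
      by_cases h : Reg ℓ s
      · rw [if_pos h, finsum_eq_if, if_pos h]
        ring
      · rw [if_neg h, finsum_eq_if, if_neg h, zero_mul]
    rw [h1, Subgroup.card_top, mul_div_mul_left _ _ hG0]
  have hG := TB.H3.gen (C := ⊤) he hwc hwR
  refine ⟨?_, fun χ' hχ' => ?_⟩
  · have := hG.1 χ hχ.1
    rwa [hq] at this
  · have := hG.2 χ hχ χ' hχ'
    rwa [hq, hq] at this

end Pool.Agent.PP.SE.H74
end
end -- Pool.Agent.Helper74_ASE.RXE
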