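import Pool.Agent.Helper12_AWB.B067
import Pool.Agent.Helper12_AWB.B118
import Pool.Agent.Helper12_AWB.B139
import Pool.Agent.Helper12_AWB.B150
import Pool.Agent.Helper12_AWB.B163

/-!
# Merged copies (generated) of the modules

* `Pool.Agent.Helper18_AT5.ZPT`
* `Pool.Agent.Helper39_AT5.INC`
* `Pool.Agent.Helper56_AT5.NZ5`
* `Pool.Agent.Helper72_AT5.LB5`
* `Pool.Agent.Helper83_AT5.IX5`
-/

set_option autoImplicit false

section -- Pool.Agent.Helper18_AT5.ZPT

/-!
# Squad AT5, row ZPT: an invertible class function is not zero at an element of `C(δ)` with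
`ℓ`-part in `Z(δ)`
-/

open scoped BigOperators

noncomputable section

namespace Pool.Agent.PP.T5.H18Z

open Pool.Agent.Helper51_AWC Pool.Agent.Helper79_WRA Pool.Agent.PP Pool.Agent.PP.KF
open Pool.Agent.PP.K9 Pool.Agent.PP.K9.H97 Pool.Agent.PP.H75 Pool.Agent.PP.T3 Pool.Agent.PP.T2

attribute [local instance] Ideal.Quotient.field

/-- the `ℓ`-part of an element with a power prime to `ℓ` in a subgroup is in this subgroup -/
theorem lp_mem {A : Type} [Group A] [Finite A] {ℓ : ℕ} [Fact ℓ.Prime] {δ : Subgroup A} {c u : A}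
    (h : Lp ℓ c u) {m : ℕ} (hm : m.Coprime ℓ) (hc : c ^ m ∈ δ) : u ∈ δ := by
  obtain ⟨n, hn⟩ := h.el
  set s := u⁻¹ * c with hs
  have hcs : c = u * s := by rw [hs, mul_inv_cancel_left]
  have hus : Commute u s := by
    rw [hs]
    exact (Commute.inv_right (Commute.refl u)).mul_right h.com
  set r := orderOf s with hr
  have hrc : r.Coprime ℓ := h.reg
  have h1 : c ^ (m * r) = u ^ (m * r) := by
    rw [hcs, hus.mul_pow, mul_comm m r, pow_mul s, pow_orderOf_eq_one, one_pow, mul_one]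
  have h2 : u ^ (m * r) ∈ δ := by
    rw [← h1, pow_mul]
    exact δ.pow_mem hc r
  have h3 : (m * r).Coprime (orderOf u) := by
    apply Nat.Coprime.coprime_dvd_right (orderOf_dvd_of_pow_eq_one hn)
    exact (Nat.Coprime.mul_left hm hrc).pow_right n
  obtain ⟨k, hk⟩ := exists_pow_eq_self_of_coprime h3
  rw [← hk]
  exact δ.pow_mem h2 k

/-- ZPT: an invertible class function is not zero at an element of `C(δ)` with `ℓ`-part in
`Z(δ)`. -/
theorem zpt (psg : T3.PsgStmt) (pug : K9.PugStmt) (dzo : K9.DzoStmt) : ZptStmt := by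
  classical
  intro ℓ hℓ M hMx hM A _ _ β hβ δ hδ z hz hinv
  have hF : GoodF ℓ (FF M) := H50.fld ℓ hℓ.out M hM
  obtain ⟨c0, hc0, hmul⟩ := hinv
  let C : Subgroup A := Subgroup.centralizer (δ : Set A)
  have hsup : ∀ a : A → FF M, ∀ x, x ∉ C → br δ a x = 0 := fun a x hx => H66.br_of_not_mem hx
  have hres : ∀ a : A → FF M, (fun t : C => br δ a t) = fun t : C => a t :=
    fun a => funext fun t => H66.br_of_mem t.2
  have hclC : ∀ a : A → FF M, IsCl a → IsCl (fun t : C => a t) := fun a ha x y => ha x y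
  have e1 : mulF (mulF (br δ c0) (br δ z)) (br δ β) = br δ β := by
    rw [← H66.br_mulF hF hδ.pg (H66.IsCl.inv hc0 δ) (H66.IsCl.inv hz δ),
      ← H66.br_mulF hF hδ.pg ((H66.IsCl.inv hc0 δ).mulF (H66.IsCl.inv hz δ))
        (H66.IsCl.inv hβ.1.1 δ), hmul]
  have e2 : mulF (mulF (fun t : C => c0 t) (fun t : C => z t)) (fun t : C => β t) =
      fun t : C => β t := by
    have h1 : (fun t : C => mulF (mulF (br δ c0) (br δ z)) (br δ β) t) =
        fun t : C => br δ β t := by rw [e1]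
    rw [mulF_res C _ (mulF_supp C (hsup c0) (hsup z)), mulF_res C _ (hsup c0), hres, hres,
      hres] at h1
    exact h1
  have hβC : IsIdem (fun t : C => β t) := by
    refine ⟨hclC β hβ.1.1, ?_⟩
    have h1 := H66.br_mulF hF hδ.pg (H66.IsCl.inv hβ.1.1 δ) (H66.IsCl.inv hβ.1.1 δ)
    rw [hβ.1.2] at h1
    have h2 : (fun t : C => br δ β t) = fun t : C => mulF (br δ β) (br δ β) t := by rw [← h1]
    rw [mulF_res C _ (hsup β), hres] at h2
    exact h2.symm
  obtain ⟨g0, hg0, hg1⟩ := hδ.gd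
  obtain ⟨γ, hγ, hβγ, -⟩ := KF.H69.exists_blk hβC (g := (⟨g0, hg0⟩ : C)) hg1
  have e3 : mulF (mulF (fun t : C => c0 t) (fun t : C => z t)) γ = γ := by
    conv_lhs => rw [← hβγ]
    rw [← H20.mulF_assoc, e2, hβγ]
  -- the quotient
  let Z : Subgroup C := δ.subgroupOf C
  have hZc : Z ≤ Subgroup.center C := by
    intro x hx
    rw [Subgroup.mem_center_iff]
    intro g
    apply Subtype.ext
    exact (Subgroup.mem_centralizer_iff.1 g.2 x (Subgroup.mem_subgroupOf.1 hx)).symm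
  have hZn : Z.Normal := by
    refine ⟨fun x hx g => ?_⟩
    have h1 := Subgroup.mem_center_iff.1 (hZc hx) g
    rw [h1, mul_inv_cancel_right]
    exact hx
  let p : C →* C ⧸ Z := QuotientGroup.mk' Z
  have hp : Function.Surjective p := QuotientGroup.mk'_surjective Z
  have hker : p.ker = Z := QuotientGroup.ker_mk' Z
  have hk : IsPGroup ℓ p.ker := by
    rw [hker]
    exact hδ.pg.comap_subtype
  have hblk : IsBlk (push p γ) :=
    psg ℓ (FF M) hF C (C ⧸ Z) p hp (hker.le.trans hZc) hk γ hγ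
  have hgood : ∀ Q : Subgroup (C ⧸ Z), IsPGroup ℓ Q → Gd (push p γ) Q → Q = ⊥ := by
    intro Q hQ hg
    have h1 : IsPGroup ℓ (Q.comap p) := (isPGroup_comap_iff hp hk Q).2 hQ
    have h2 : (Q.comap p).map p = Q := Subgroup.map_comap_eq_self_of_surjective hp Q
    have h3 : Gd γ (Q.comap p) := by
      refine (pug ℓ (FF M) hF C (C ⧸ Z) p hp hk γ hγ.1 _ (Subgroup.ker_le_comap p Q) h1).2 ?_
      rw [h2]
      exact hg
    obtain ⟨t, ht1, ht2⟩ := gd_of_mul hF hβC.1 hγ.1.1 hβγ h1 h3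
    have hR : IsPGroup ℓ ((Q.comap p).map C.subtype ⊔ δ : Subgroup A) := by
      refine IsPGroup.to_sup_of_normal_right' (h1.map C.subtype) hδ.pg ?_
      refine le_trans ?_ (Subgroup.centralizer_le_normalizer (δ : Set A))
      rintro _ ⟨y, _, rfl⟩
      exact y.2
    have hle : ((Q.comap p).map C.subtype ⊔ δ : Subgroup A) ≤
        Subgroup.centralizer ({(t : A)} : Set A) := by
      apply sup_le
      · rintro _ ⟨y, hy, rfl⟩
        rw [Subgroup.mem_centralizer_singleton_iff]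
        exact congrArg Subtype.val (Subgroup.mem_centralizer_iff.1 ht1 y hy)
      · intro y hy
        rw [Subgroup.mem_centralizer_singleton_iff]
        exact Subgroup.mem_centralizer_iff.1 t.2 y hy
    have hg2 : Gd β ((Q.comap p).map C.subtype ⊔ δ : Subgroup A) := by
      refine ⟨t, ?_, ht2⟩
      rw [Subgroup.mem_centralizer_iff]
      intro x hx
      exact Subgroup.mem_centralizer_singleton_iff.1 (hle hx)
    have h4 := hδ.mx _ hR hg2
    have h5 : δ = ((Q.comap p).map C.subtype ⊔ δ : Subgroup A) :=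
      Subgroup.eq_of_le_of_card_ge le_sup_right h4
    have h6 : Q.comap p ≤ Z := by
      intro x hx
      rw [Subgroup.mem_subgroupOf, h5]
      exact (le_sup_left : (Q.comap p).map C.subtype ≤ _) ⟨x, hx, rfl⟩
    rw [← h2, eq_bot_iff]
    rintro _ ⟨x, hx, rfl⟩
    rw [Subgroup.mem_bot, ← MonoidHom.mem_ker, hker]
    exact h6 hx
  obtain ⟨κ, hκ, hrc⟩ := dzo ℓ M hM (C ⧸ Z) (push p γ) hblk hgood
  have hκ1 : κ ∈ IrrE M (push p γ) := by
    rw [hκ]
    exact Set.mem_singleton κ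
  have e4 : mulF (mulF (push p (fun t : C => c0 t)) (push p (fun t : C => z t))) (push p γ) =
      push p γ := by
    rw [← push_mulF, ← push_mulF, e3]
  have hft := Fintype.ofFinite (C ⧸ Z)
  have hcl1 := push_isCl hp (hclC c0 hc0)
  have hcl2 := push_isCl hp (hclC z hz)
  have hne : res M (push p (fun t : C => z t)) κ ≠ 0 := by
    intro h0
    have h1 := H50.res_mul (M := M) (isCl_mulF hcl1 hcl2) hblk.1.1 hκ1.1
    rw [e4, H50.res_mul (M := M) hcl1 hcl2 hκ1.1, h0, mul_zero, zero_mul, hκ1.2] at h1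
    exact one_ne_zero h1
  obtain ⟨cl, hcl⟩ : ∃ cl : ConjClasses (C ⧸ Z), push p (fun t : C => z t) (Quotient.out cl) *
      red M (omega (MonoidHom.id (C ⧸ Z)) κ (Quotient.out cl)) ≠ 0 := by
    by_contra hcon
    push Not at hcon
    apply hne
    unfold res
    exact finsum_eq_zero_of_forall_eq_zero hcon
  set x : C ⧸ Z := Quotient.out cl with hx
  have hx1 : push p (fun t : C => z t) x ≠ 0 := left_ne_zero_of_mul hcl
  have hx2 : red M (omega (MonoidHom.id (C ⧸ Z)) κ x) ≠ 0 := right_ne_zero_of_mul hcl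
  have hxr : Reg ℓ x := by
    by_contra hcon
    apply hx2
    have h1 : omega (MonoidHom.id (C ⧸ Z)) κ x = 0 := by
      unfold omega
      have h2 : (∑ᶠ (h : C ⧸ Z) (_ : IsConj x (MonoidHom.id (C ⧸ Z) h)), κ h) = 0 := by
        apply finsum_eq_zero_of_forall_eq_zero
        intro h
        rw [finsum_eq_if]
        split_ifs with hh
        swap
        · rfl
        obtain ⟨y, hy⟩ := isConj_iff.1 hh
        change y * x * y⁻¹ = h at hy
        rw [← hy, hrc.cl]
        exact hrc.sg x hcon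
      rw [h2, zero_div]
    rw [h1, red_zero]
  obtain ⟨y, hy1, hy2⟩ : ∃ y : C, p y = x ∧ z (y : A) ≠ 0 := by
    by_contra hcon
    push Not at hcon
    apply hx1
    unfold push
    apply finsum_eq_zero_of_forall_eq_zero
    intro y
    rw [finsum_eq_if]
    split_ifs with hy
    · exact hcon y hy
    · rfl
  refine ⟨y, y.2, hy2, fun u' hu' => ?_⟩
  refine lp_mem hu' (m := orderOf x) hxr ?_
  have h1 : p (y ^ orderOf x) = 1 := by rw [map_pow, hy1, pow_orderOf_eq_one]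
  have h2 : y ^ orderOf x ∈ Z := hker.le h1
  exact Subgroup.mem_subgroupOf.1 h2

end Pool.Agent.PP.T5.H18Z
end
end -- Pool.Agent.Helper18_AT5.ZPT

section -- Pool.Agent.Helper39_AT5.INC

/-!
# Squad AT5, row INC: elements which stabilise a local block
-/

open scoped BigOperators

noncomputable section

namespace Pool.Agent.PP.T5.H39

open Pool.Agent.Helper51_AWC Pool.Agent.Helper79_WRA Pool.Agent.PP Pool.Agent.PP.KF
open Pool.Agent.PP.K9 Pool.Agent.PP.K9.H97 Pool.Agent.PP.H75 Pool.Agent.PP.T5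

attribute [local instance] Ideal.Quotient.field

section pidx

variable {G : Type} [Group G] [Finite G]

/-- the index is a power of `ℓ` if every element has an `ℓ`-power in the normal subgroup -/
theorem pidx {ℓ : ℕ} [Fact ℓ.Prime] {C D : Subgroup G} (hN : D ≤ Subgroup.normalizer (C : Set G))
    (h : ∀ d ∈ D, ∃ k : ℕ, d ^ ℓ ^ k ∈ C) : ∃ n, C.relIndex D = ℓ ^ n := by
  have hn : (C.subgroupOf D).Normal := by
    refine ⟨fun n hn' g => ?_⟩
    rw [Subgroup.mem_subgroupOf] at hn' ⊢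
    have h1 := (Subgroup.mem_normalizer_iff.1 (hN g.2) (n : G)).1 hn'
    exact h1
  have hp : IsPGroup ℓ (D ⧸ C.subgroupOf D) := by
    intro q
    obtain ⟨d, rfl⟩ := QuotientGroup.mk_surjective q
    obtain ⟨k, hk⟩ := h d d.2
    refine ⟨k, ?_⟩
    rw [← QuotientGroup.mk_pow, QuotientGroup.eq_one_iff, Subgroup.mem_subgroupOf]
    exact hk
  obtain ⟨n, hn'⟩ := IsPGroup.iff_card.1 hp
  exact ⟨n, hn'⟩

/-- the subgroup `C ⟨x⟩` -/
def adj (C : Subgroup G) (x : G) (hx : x ∈ Subgroup.normalizer (C : Set G)) : Subgroup G where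
  carrier := {g | ∃ c ∈ C, ∃ i : ℤ, g = c * x ^ i}
  one_mem' := ⟨1, C.one_mem, 0, by simp⟩
  mul_mem' := by
    rintro _ _ ⟨c, hc, i, rfl⟩ ⟨d, hd, j, rfl⟩
    refine ⟨c * (x ^ i * d * (x ^ i)⁻¹), C.mul_mem hc ?_, i + j, ?_⟩
    · exact (Subgroup.mem_normalizer_iff.1
        ((Subgroup.normalizer (C : Set G)).zpow_mem hx i) d).1 hd
    · rw [zpow_add]
      group
  inv_mem' := by
    rintro _ ⟨c, hc, i, rfl⟩
    refine ⟨x ^ (-i) * c⁻¹ * (x ^ (-i))⁻¹, ?_, -i, ?_⟩
    · exact (Subgroup.mem_normalizer_iff.1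
        ((Subgroup.normalizer (C : Set G)).zpow_mem hx (-i)) c⁻¹).1 (C.inv_mem hc)
    · group

theorem pow_adj {C : Subgroup G} {x : G} (hx : x ∈ Subgroup.normalizer (C : Set G)) {c : G}
    (hc : c ∈ C) (i : ℤ) (n : ℕ) : ∃ d ∈ C, (c * x ^ i) ^ n = d * x ^ (i * n) := by
  induction n with
  | zero => exact ⟨1, C.one_mem, by simp⟩
  | succ n ih =>
    obtain ⟨d, hd, h⟩ := ih
    refine ⟨d * (x ^ (i * n) * c * (x ^ (i * n))⁻¹), C.mul_mem hd ?_, ?_⟩
    · exact (Subgroup.mem_normalizer_iff.1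
        ((Subgroup.normalizer (C : Set G)).zpow_mem hx _) c).1 hc
    · rw [pow_succ, h]
      push_cast
      rw [mul_add, mul_one, zpow_add]
      group

end pidx

/-- the stabiliser of a function -/
def stb {F G : Type} [Field F] [Group G] [Finite G] (b : G → F) : Subgroup G where
  carrier := {g | cj g b = b}
  one_mem' := cj_one b
  mul_mem' := by
    intro g h hg hh
    change cj (g * h) b = b
    rw [← cj_cj, show cj h b = b from hh]
    exact hg
  inv_mem' := by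
    intro g hg
    change cj g⁻¹ b = b
    have h1 : cj g b = b := hg
    have h2 := cj_inv_cj g b
    rwa [h1] at h2

/-- a subgroup is good for `e` if it is good for `b` and `e b = b`, `b` invariant -/
theorem gd_of_inv {ℓ : ℕ} {F G : Type} [Field F] [Group G] [Finite G] (hF : GoodF ℓ F) {a b : G → F}
    (h : mulF a b = b) {Q : Subgroup G} (hQ : IsPGroup ℓ Q) (ha : ∀ q ∈ Q, cj q a = a)
    (hb : ∀ q ∈ Q, cj q b = b) {c : G} (hc : c ∈ Subgroup.centralizer (Q : Set G)) (hbc : b c ≠ 0) :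
    Gd a Q := by
  by_contra hcon
  apply hbc
  have h0 : br Q a = 0 := by
    funext x
    by_cases hx : x ∈ Subgroup.centralizer (Q : Set G)
    · rw [H66.br_of_mem hx]
      by_contra hne
      exact hcon ⟨x, hx, hne⟩
    · rw [H66.br_of_not_mem hx]
      rfl
  have hbi : H66.Inv Q b := fun p hp t => (cj_eq_iff p b).1 (hb p hp) t
  have hai : H66.Inv Q a := fun p hp t => (cj_eq_iff p a).1 (ha p hp) t
  have h1 := H66.br_mulF hF hQ hai hbi
  rw [h, h0, mulF_zero_left] at h1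
  rw [← H66.br_of_mem (a := b) hc, h1]
  rfl

/-- row INC -/
theorem inc (ors : OrsStmt) : IncStmt := by
  classical
  intro ℓ _ M _ hℓM G _ _ e V u b hLb x hxu hxb k hxk
  have hℓ : ℓ.Prime := Fact.out
  have hF : GoodF ℓ (FF M) := H50.fld ℓ hℓ M hℓM
  -- `x` normalises `C(u)`
  have hxC : x ∈ Subgroup.normalizer ((Cu u : Subgroup G) : Set G) := by
    have hsub : ∀ y : G, y ∈ Subgroup.normalizer (Subgroup.zpowers u : Set G) → ∀ g ∈ Cu u,
        y * g * y⁻¹ ∈ Cu u := by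
      intro y hy g hg
      rw [Subgroup.mem_centralizer_singleton_iff] at hg ⊢
      have h1 : y⁻¹ * u * (y⁻¹)⁻¹ ∈ Subgroup.zpowers u :=
        (Subgroup.mem_normalizer_iff.1 (Subgroup.inv_mem _ hy) u).1 (Subgroup.mem_zpowers u)
      obtain ⟨j, hj⟩ := Subgroup.mem_zpowers_iff.1 h1
      have h2 : Commute g (y⁻¹ * u * (y⁻¹)⁻¹) := by
        rw [← hj]
        exact (show Commute g u from hg).zpow_right j
      have h3 : g * (y⁻¹ * u * y) = y⁻¹ * u * y * g := by
        have := h2.eq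
        rwa [inv_inv] at this
      calc y * g * y⁻¹ * u = y * (g * (y⁻¹ * u * y)) * y⁻¹ := by group
        _ = y * (y⁻¹ * u * y * g) * y⁻¹ := by rw [h3]
        _ = u * (y * g * y⁻¹) := by group
    rw [Subgroup.mem_normalizer_iff]
    intro g
    refine ⟨hsub x hxu g, fun hg => ?_⟩
    have h4 := hsub x⁻¹ (Subgroup.inv_mem _ hxu) _ hg
    have e1 : x⁻¹ * (x * g * x⁻¹) * x⁻¹⁻¹ = g := by group
    rwa [e1] at h4
  -- the subgroup `S = C⟨x⟩`
  set C : Subgroup G := Cu u with hC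
  have hCS : C ≤ adj C x hxC := fun c hc => ⟨c, hc, 0, by simp⟩
  have hSN : adj C x hxC ≤ Subgroup.normalizer (C : Set G) := by
    rintro _ ⟨c, hc, i, rfl⟩
    exact Subgroup.mul_mem _ (Subgroup.le_normalizer hc) (Subgroup.zpow_mem _ hxC i)
  have hpow : ∀ s ∈ adj C x hxC, ∃ k : ℕ, s ^ ℓ ^ k ∈ C := by
    rintro _ ⟨c, hc, i, rfl⟩
    obtain ⟨d, hd, h⟩ := pow_adj hxC hc i (ℓ ^ k)
    refine ⟨k, ?_⟩
    rw [h]
    refine C.mul_mem hd ?_
    have e1 : x ^ (i * ((ℓ ^ k : ℕ) : ℤ)) = (x ^ ℓ ^ k) ^ i := by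
      rw [mul_comm, zpow_mul, zpow_natCast]
    rw [e1]
    exact C.zpow_mem hxk i
  have hinvS : ∀ s ∈ adj C x hxC, cj s b = b := by
    rintro _ ⟨c, hc, i, rfl⟩
    have h1 : x ^ i ∈ stb b := Subgroup.zpow_mem (stb b) hxb i
    have h2 : c ∈ stb b := hLb.bx.ix.inv hc
    exact (stb b).mul_mem h2 h1
  obtain ⟨c, hc, hbc, ⟨v, hv, hvc⟩, hcS⟩ := ors ℓ (FF M) hF G C (adj C x hxC) hCS hSN
    (pidx hSN hpow) b hLb.bx hinvS
  -- a conjugate of `c` commutes with `V`
  have hVC : V ≤ C := by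
    intro w hw
    rw [hC, Subgroup.mem_centralizer_singleton_iff]
    exact (hLb.cen w hw)
  have hcl : (fun t : C => clsum (FF M) C c t) = clsum (FF M) (⊤ : Subgroup C) ⟨c, hc⟩ := by
    funext t
    unfold clsum
    refine if_congr ?_ rfl rfl
    constructor
    · rintro ⟨q, hq, h⟩
      exact ⟨⟨q, hq⟩, Subgroup.mem_top _, Subtype.ext h⟩
    · rintro ⟨q, -, h⟩
      exact ⟨q, q.2, congrArg Subtype.val h⟩
  rw [hcl] at hvc
  have hVp : IsPGroup ℓ (V.subgroupOf C) := by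
    have := hLb.tp.pg
    exact this.comap_subtype
  have hVg : Gd (fun t : C => b t) (V.subgroupOf C) := by
    obtain ⟨g, hg, hbg⟩ := hLb.gd
    have hgC : g ∈ C := by
      by_contra h
      exact hbg (hLb.bx.supp g h)
    refine ⟨⟨g, hgC⟩, ?_, hbg⟩
    rw [Subgroup.mem_centralizer_iff] at hg ⊢
    intro w hw
    exact Subtype.ext (hg w hw)
  obtain ⟨r, hr⟩ := H69.below hF hLb.bx.blk.1.1 hv hvc hVp hVg
  set c₁ : G := (r : G)⁻¹ * c * r with hc₁
  have hc₁C : c₁ ∈ C := C.mul_mem (C.mul_mem (C.inv_mem r.2) hc) r.2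
  have hVc₁ : ∀ w ∈ V, w * c₁ = c₁ * w := by
    intro w hw
    have h1 : r * (⟨w, hVC hw⟩ : C) * r⁻¹ ∈ conjS r (V.subgroupOf C) := by
      rw [mem_conjS]
      have e1 : r⁻¹ * (r * (⟨w, hVC hw⟩ : C) * r⁻¹) * r = ⟨w, hVC hw⟩ := by group
      rw [e1]
      exact hw
    have h2 := Subgroup.mem_centralizer_singleton_iff.1 (hr h1)
    have h3 : (r : G) * w * (r : G)⁻¹ * c = c * ((r : G) * w * (r : G)⁻¹) := congrArg Subtype.val h2
    rw [hc₁]
    calc w * ((r : G)⁻¹ * c * r) = (r : G)⁻¹ * ((r : G) * w * (r : G)⁻¹ * c) * r := by group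
      _ = (r : G)⁻¹ * (c * ((r : G) * w * (r : G)⁻¹)) * r := by rw [h3]
      _ = (r : G)⁻¹ * c * r * w := by group
  have hbc₁ : b c₁ ≠ 0 := by
    have h1 := (cj_eq_iff _ _).1 (hLb.bx.ix.inv (C.inv_mem r.2)) c
    rw [inv_inv] at h1
    rw [hc₁, h1]
    exact hbc
  have hc₁S : ∀ s ∈ adj C x hxC, ∃ y ∈ C, y * s * c₁ = c₁ * (y * s) := by
    intro s hs
    obtain ⟨y, hy, h⟩ := hcS s hs
    refine ⟨(r : G)⁻¹ * y * (s * r * s⁻¹), C.mul_mem (C.mul_mem (C.inv_mem r.2) hy)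
      ((Subgroup.mem_normalizer_iff.1 (hSN hs) _).1 r.2), ?_⟩
    rw [hc₁]
    calc (r : G)⁻¹ * y * (s * r * s⁻¹) * s * ((r : G)⁻¹ * c * r) = (r : G)⁻¹ * (y * s * c) * r := by
          group
      _ = (r : G)⁻¹ * (c * (y * s)) * r := by rw [h]
      _ = (r : G)⁻¹ * c * r * ((r : G)⁻¹ * y * (s * r * s⁻¹) * s) := by group
  -- the centraliser of `c₁` in `S`
  set D : Subgroup G := Subgroup.centralizer ({c₁} : Set G) ⊓ adj C x hxC with hD
  have hVD : V ≤ D := by
    intro w hw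
    refine ⟨?_, hCS (hVC hw)⟩
    exact Subgroup.mem_centralizer_singleton_iff.2 (hVc₁ w hw)
  have hVp' : IsPGroup ℓ (V.subgroupOf D) := (hLb.tp.pg).comap_subtype
  obtain ⟨P, hP⟩ := hVp'.exists_le_sylow
  have hPp : IsPGroup ℓ ((P : Subgroup D).map D.subtype) := P.isPGroup'.map _
  set a : G → FF M := fun y => if y ∈ C then e y else 0 with ha
  have haS : ∀ y, y ∉ C → a y = 0 := fun y hy => if_neg hy
  have hmulG : mulF a b = b := by
    apply H75.eq_of_res (N := C) (mulF_supp C haS hLb.bx.supp) hLb.bx.supp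
    rw [mulF_res C b haS]
    have h1 : (fun t : C => a t) = fun t : C => e t := by
      funext t
      exact if_pos t.2
    rw [h1]
    exact hLb.und
  have hgd : Gd e ((P : Subgroup D).map D.subtype) := by
    obtain ⟨g, hg, hag⟩ := gd_of_inv (a := a) hF hmulG hPp (c := c₁) (by
      rintro _ ⟨q, -, rfl⟩
      rw [cj_eq_iff]
      intro t
      have h1 : (D.subtype q) * t * (D.subtype q)⁻¹ ∈ C ↔ t ∈ C :=
        (Subgroup.mem_normalizer_iff.1 (hSN q.2.2) t).symm
      change (if (D.subtype q) * t * (D.subtype q)⁻¹ ∈ C then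
        e ((D.subtype q) * t * (D.subtype q)⁻¹) else 0) = if t ∈ C then e t else 0
      exact if_congr h1 (hLb.blk.1.1 t _) rfl) (by
      rintro _ ⟨q, -, rfl⟩
      exact hinvS _ q.2.2) (by
      rw [Subgroup.mem_centralizer_iff]
      rintro _ ⟨q, -, rfl⟩
      exact Subgroup.mem_centralizer_singleton_iff.1 q.2.1) hbc₁
    refine ⟨g, hg, fun h => hag ?_⟩
    change (if g ∈ C then e g else 0) = 0
    rw [h, ite_self]
  have hcard := hLb.tp.mx _ hPp hgd
  have hVP : V ≤ (P : Subgroup D).map D.subtype := by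
    intro w hw
    exact ⟨⟨w, hVD hw⟩, hP hw, rfl⟩
  have hVeq : V = (P : Subgroup D).map D.subtype := Subgroup.eq_of_le_of_card_ge hVP hcard
  have hPC : (P : Subgroup D) ≤ C.subgroupOf D := by
    intro q hq
    rw [Subgroup.mem_subgroupOf]
    apply hVC
    rw [hVeq]
    exact ⟨q, hq, rfl⟩
  obtain ⟨n, hn⟩ := pidx (ℓ := ℓ) (C := C) (D := D) (fun d hd => hSN hd.2) (fun d hd => hpow d hd.2)
  have hdvd : C.relIndex D ∣ (P : Subgroup D).index := Subgroup.index_dvd_of_le hPC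
  have hnd : ¬ ℓ ∣ (P : Subgroup D).index := P.not_dvd_index
  have hn0 : n = 0 := by
    by_contra h
    apply hnd
    refine Dvd.dvd.trans ?_ hdvd
    rw [hn]
    exact dvd_pow_self ℓ h
  have hDC : D ≤ C := by
    rw [hn0, pow_zero] at hn
    exact Subgroup.relIndex_eq_one.1 hn
  obtain ⟨y, hy, h⟩ := hc₁S x ⟨1, C.one_mem, 1, by simp⟩
  have hyx : y * x ∈ D := by
    refine ⟨Subgroup.mem_centralizer_singleton_iff.2 h, ⟨y, hy, 1, by simp⟩⟩
  have h5 := C.mul_mem (C.inv_mem hy) (hDC hyx)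
  rwa [inv_mul_cancel_left] at h5

end Pool.Agent.PP.T5.H39
end
end -- Pool.Agent.Helper39_AT5.INC

section -- Pool.Agent.Helper56_AT5.NZ5

/-!
# Squad AT5, module NZ5
-/

open scoped BigOperators

noncomputable section

namespace Pool.Agent.PP.T5.H56

open Pool.Agent.Helper51_AWC Pool.Agent.Helper79_WRA Pool.Agent.PP Pool.Agent.PP.KF
open Pool.Agent.PP.K9 Pool.Agent.PP.K9.H97 Pool.Agent.PP.H75 Pool.Agent.PP.T3 Pool.Agent.PP.T2

section core

variable {F G : Type} [Field F] [Group G] [Finite G] {C : Subgroup G} {a : G → F}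

theorem core5 {ℓ : ℕ} (hF : GoodF ℓ F) {V : Subgroup G} (hV : IsPGroup ℓ V)
    (hVC : V ≤ C)
    (hXC : Subgroup.centralizer (V : Set G) ≤ C) {B : G → F} (hB : Ix C B) {w : G} (hwV : w ∈ V)
    (hwX : w ∈ Subgroup.centralizer (V : Set G))
    (hwC : ∀ c ∈ C, c * w = w * c)
    (hgood : ∀ t : G, (∀ v ∈ V, t⁻¹ * v * t ∈ C) →
      (∃ x, (∀ v ∈ V, x * (t⁻¹ * v * t) = t⁻¹ * v * t * x) ∧ B x ≠ 0) →
      ∃ c ∈ C, t * c ∈ Subgroup.normalizer (V : Set G))
    {γ : G → F} (hγ : Bx (Subgroup.centralizer (V : Set G)) γ) (h1 : mulF (br V B) γ = γ)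
    (hbx : Bx (Subgroup.normalizer (V : Set G) ⊓ C) (br V B)) :
    ∃ (S : Finset (G ⧸ C)) (f : G ⧸ C → G), (∀ q ∈ S, f q ∈ V) ∧
      (∀ q ∈ S, f q ∈ Subgroup.centralizer (V : Set G)) ∧
      S.card = C.relIndex (Subgroup.normalizer (V : Set G) ⊓ stabF γ) ∧
      ma (br V (tsm C (fun x => B (w⁻¹ * x)))) * ma γ =
        (∑ q ∈ S, ma (dl F (f q))) * ma γ := by
  classical
  set N := Subgroup.normalizer (V : Set G) with hN
  set X := Subgroup.centralizer (V : Set G) with hX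
  have hXN : X ≤ N := by
    intro g hg
    rw [hN, Subgroup.mem_normalizer_iff]
    intro v
    have h1 := Subgroup.mem_centralizer_iff.1 hg
    constructor
    · intro hv
      rw [← h1 v hv, mul_inv_cancel_right]
      exact hv
    · intro hv
      have h2 := h1 _ hv
      have h3 : g * v = g * (g * v * g⁻¹) := by
        rw [← h2]
        group
      rw [mul_left_cancel h3]
      exact hv
  have hNX : N ≤ Subgroup.normalizer (X : Set G) := by
    intro g hg
    rw [Subgroup.mem_normalizer_iff]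
    have key : ∀ g ∈ N, ∀ x ∈ X, g * x * g⁻¹ ∈ X := by
      intro g hg x hx
      rw [hX, Subgroup.mem_centralizer_iff] at hx ⊢
      intro v hv
      have h2 : g⁻¹ * v * g ∈ V := by
        have := (Subgroup.mem_normalizer_iff.1 (inv_mem hg) v).1 hv
        rwa [inv_inv] at this
      have h3 := hx _ h2
      calc v * (g * x * g⁻¹) = g * (g⁻¹ * v * g * x) * g⁻¹ := by group
        _ = g * (x * (g⁻¹ * v * g)) * g⁻¹ := by rw [h3]
        _ = g * x * g⁻¹ * v := by group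
    intro x
    constructor
    · exact key g hg x
    · intro h
      have := key g⁻¹ (inv_mem hg) _ h
      have e : g⁻¹ * (g * x * g⁻¹) * g⁻¹⁻¹ = x := by group
      rwa [e] at this
  set bV := br V B with hbV
  have hbVX : ∀ x, x ∉ X → bV x = 0 := fun x hx => H66.br_of_not_mem hx
  have hbI : Ix X bV := by
    refine ⟨hbVX, ?_, ?_⟩
    · intro x y
      exact hbx.blk.1.1 ⟨x, ⟨hXN x.2, hXC x.2⟩⟩ ⟨y, ⟨hXN y.2, hXC y.2⟩⟩
    · rw [← mulF_res X bV hbVX, hbx.mul]
  -- the representatives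
  have hrep : ∀ q : G ⧸ C, ∃ t : G, q ∈ QN N C → t ∈ N ∧ (t : G ⧸ C) = q := by
    intro q
    by_cases hq : q ∈ QN N C
    · obtain ⟨t, ht, htq⟩ := hq
      exact ⟨t, fun _ => ⟨ht, htq⟩⟩
    · exact ⟨1, fun h => absurd h hq⟩
  choose rep hrep using hrep
  have hfinq : Finite (G ⧸ C) := inferInstance
  have := Fintype.ofFinite (G ⧸ C)
  set a : G → F := fun x => B (w⁻¹ * x) with ha
  have haC : ∀ c ∈ C, cj c a = a := by
    intro c hc
    funext x
    change B (w⁻¹ * (c⁻¹ * x * c)) = B (w⁻¹ * x)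
    have h2 := (cj_eq_iff c B).1 (hB.inv hc) (w⁻¹ * (c⁻¹ * x * c))
    rw [← h2]
    congr 1
    have h3 := hwC c hc
    have h4 : c * w⁻¹ = w⁻¹ * c := (show Commute c w from h3).inv_right.eq
    calc c * (w⁻¹ * (c⁻¹ * x * c)) * c⁻¹ = (c * w⁻¹) * (c⁻¹ * x) := by group
      _ = w⁻¹ * x := by rw [h4]; group
  have hsum : br V (tsm C a) =
      ∑ q ∈ Finset.univ.filter (fun q => q ∈ QN N C), cj (rep q) (mulF (dl F w) bV) := by
    funext g
    rw [Finset.sum_apply]
    have hcj : ∀ q ∈ QN N C, ∀ x, (rep q)⁻¹ * x * rep q ∈ X ↔ x ∈ X := fun q hq x =>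
      conj_mem_iff (hNX (hrep q hq).1) x
    by_cases hg : g ∈ X
    · rw [H66.br_of_mem hg, tsm_br hF hV hVC haC _ hg, finsum_eq_sum_of_fintype,
        Finset.sum_filter]
      · refine Finset.sum_congr rfl fun q _ => ?_
        rw [finsum_eq_if]
        by_cases hq : q ∈ QN N C
        · rw [if_pos hq, if_pos hq]
          have h2 := (hrep q hq).2
          conv_lhs => rw [← h2, cj_out haC]
          rw [cj, cj, mulF_dl_left, ha]
          change B _ = bV _
          rw [hbV, H66.br_of_mem]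
          exact X.mul_mem (X.inv_mem hwX) ((hcj q hq g).2 hg)
        · rw [if_neg hq, if_neg hq]
      · intro t ht g hg hne
        obtain ⟨c, hc, htc⟩ := hgood t ht (by
          refine ⟨w⁻¹ * (t⁻¹ * g * t), ?_, hne⟩
          intro v hv
          have h2 := Subgroup.mem_centralizer_iff.1 hg v hv
          have h3 := hwC _ (ht v hv)
          have h4 : t⁻¹ * v * t * w⁻¹ = w⁻¹ * (t⁻¹ * v * t) :=
            (show Commute (t⁻¹ * v * t) w from h3).inv_right.eq
          calc w⁻¹ * (t⁻¹ * g * t) * (t⁻¹ * v * t) = w⁻¹ * (t⁻¹ * (g * v) * t) := by group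
            _ = w⁻¹ * (t⁻¹ * v * t) * (t⁻¹ * g * t) := by rw [← h2]; group
            _ = t⁻¹ * v * t * w⁻¹ * (t⁻¹ * g * t) := by rw [h4]
            _ = t⁻¹ * v * t * (w⁻¹ * (t⁻¹ * g * t)) := by group)
        refine ⟨t * c, htc, ?_⟩
        symm
        rw [QuotientGroup.eq, inv_mul_cancel_left]
        exact hc
    · rw [H66.br_of_not_mem hg]
      symm
      apply Finset.sum_eq_zero
      intro q hq
      rw [Finset.mem_filter] at hq
      rw [cj, mulF_dl_left]
      apply hbVX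
      intro h
      apply hg
      rw [← hcj q hq.2]
      have := X.mul_mem hwX h
      rwa [mul_inv_cancel_left] at this
  set S : Finset (G ⧸ C) := Finset.univ.filter
    (fun q => q ∈ QN N C ∧ mulF (cj (rep q) bV) γ = γ) with hS
  have hwS : ∀ q ∈ QN N C, rep q * w * (rep q)⁻¹ ∈ V := fun q hq =>
    (Subgroup.mem_normalizer_iff.1 (hrep q hq).1 w).1 hwV
  have hzγ : ma (br V (tsm C a)) * ma γ =
      (∑ q ∈ S, ma (dl F (rep q * w * (rep q)⁻¹))) * ma γ := by
    have h8 : ∑ q ∈ S, ma (dl F (rep q * w * (rep q)⁻¹)) * ma γ =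
        ∑ q ∈ Finset.univ.filter (fun q => q ∈ QN N C),
          if mulF (cj (rep q) bV) γ = γ then ma (dl F (rep q * w * (rep q)⁻¹)) * ma γ
            else 0 := by
      rw [← Finset.sum_filter, Finset.filter_filter]
    rw [hsum, ma_sum, Finset.sum_mul, Finset.sum_mul, h8]
    refine Finset.sum_congr rfl fun q hq => ?_
    rw [Finset.mem_filter] at hq
    have h2 : cj (rep q) (dl F w) = dl F (rep q * w * (rep q)⁻¹) := by
      funext x
      rw [cj]
      unfold dl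
      have h3 : ((rep q)⁻¹ * x * rep q = w) ↔ (x = rep q * w * (rep q)⁻¹) := by
        constructor
        · rintro rfl
          group
        · rintro rfl
          group
      by_cases h4 : (rep q)⁻¹ * x * rep q = w
      · rw [if_pos h4, if_pos (h3.1 h4)]
      · rw [if_neg h4, if_neg (fun h => h4 (h3.2 h))]
    rw [cj_mulF, h2, ma_mul, mul_assoc, ← ma_mul]
    by_cases h5 : mulF (cj (rep q) bV) γ = γ
    · rw [if_pos h5, h5]
    · rw [if_neg h5]
      have h6 := hbI.cj (hNX (hrep q hq.2).1)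
      rcases hγ.dich' h6 with h7 | h7
      · exact absurd (by rw [h6.comm hγ.ix, h7]) h5
      · rw [h6.comm hγ.ix, h7, ma_zero, mul_zero]
  -- the number of summands
  have hScard : S.card = C.relIndex (N ⊓ stabF γ) := by
    rw [← orbit_card, ← Set.ncard_coe_finset]
    congr 1
    ext q
    rw [Finset.mem_coe, hS, Finset.mem_filter, MulAction.mem_orbit_iff]
    constructor
    · rintro ⟨-, hq, h2⟩
      obtain ⟨hr1, hr2⟩ := hrep q hq
      have h3 : mulF bV (cj (rep q)⁻¹ γ) = cj (rep q)⁻¹ γ := by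
        have := congrArg (cj (rep q)⁻¹) h2
        rwa [cj_mulF, cj_inv_cj] at this
      obtain ⟨m, hm, hm'⟩ := orb_main (N := N ⊓ C) (X := X) (le_inf hXN hXC)
        (inf_le_left.trans hNX) hbx hγ (hγ.cj (hNX (inv_mem hr1))) h1 h3
      have h4 : cj (rep q * m) γ = γ := by
        rw [← cj_cj, ← hm', cj_cj_inv]
      refine ⟨⟨rep q * m, N.mul_mem hr1 hm.1, (cj_eq_iff _ _).1 h4⟩, ?_⟩
      change ((rep q * m * 1 : G) : G ⧸ C) = q
      rw [mul_one, ← hr2]
      symm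
      rw [QuotientGroup.eq, hr2, inv_mul_cancel_left]
      exact hm.2
    · rintro ⟨⟨t, ht1, ht2⟩, rfl⟩
      have h0 : ((⟨t, ht1, ht2⟩ : (N ⊓ stabF γ : Subgroup G)) • ((1 : G) : G ⧸ C)) =
          ((t : G) : G ⧸ C) := by
        change ((t * 1 : G) : G ⧸ C) = _
        rw [mul_one]
      rw [h0]
      have hq : ((t : G) : G ⧸ C) ∈ QN N C := ⟨t, ht1, rfl⟩
      refine ⟨Finset.mem_univ _, hq, ?_⟩
      obtain ⟨hr1, hr2⟩ := hrep _ hq
      have h5 : (rep (t : G ⧸ C))⁻¹ * t ∈ N ⊓ C :=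
        ⟨N.mul_mem (inv_mem hr1) ht1, QuotientGroup.eq.1 hr2⟩
      have h6 : cj (rep (t : G ⧸ C)) bV = cj t bV := by
        have := hbx.ix.inv h5
        conv_lhs => rw [← this, cj_cj, mul_inv_cancel_left]
      have h7 : cj t γ = γ := (cj_eq_iff _ _).2 ht2
      rw [h6]
      conv_lhs => rw [← h7, ← cj_mulF, h1]
      exact h7
  exact ⟨S, fun q => rep q * w * (rep q)⁻¹,
    fun q hq => hwS q (Finset.mem_filter.1 hq).2.1,
    fun q hq => (Subgroup.mem_normalizer_iff.1 (hNX (hrep q (Finset.mem_filter.1 hq).2.1).1) w).1 hwX,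
    hScard, hzγ⟩

/-- the value of a nilpotent shift -/
theorem nil5 {ℓ : ℕ} (hF : GoodF ℓ F) {V : Subgroup G} (hV : IsPGroup ℓ V)
    {ι : Type} (S : Finset ι) (w : ι → G)
    (hw : ∀ i ∈ S, w i ∈ V) (hww : ∀ i ∈ S, ∀ j ∈ S, w i * w j = w j * w i) {γ z : G → F} (h0 : γ ≠ 0)
    (hγ : ∀ i ∈ S, cj (w i) γ = γ) (hz : ma z * ma γ = (∑ i ∈ S, ma (dl F (w i))) * ma γ) (c : F)
    (n : ℕ) (hn : (ma z - algebraMap F (MonoidAlgebra F G) c) ^ n * ma γ = 0) :
    (S.card : F) = c := by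
  have hfact : Fact ℓ.Prime := ⟨hF.prime⟩
  have hch : CharP F ℓ := hF.char
  have hchA : CharP (MonoidAlgebra F G) ℓ := charP_of_injective_algebraMap' F ℓ
  by_contra hne
  set κ := algebraMap F (MonoidAlgebra F G) c with hκ
  set A := ∑ i ∈ S, ma (dl F (w i)) with hA
  have hκc : ∀ x : MonoidAlgebra F G, κ * x = x * κ := fun x => Algebra.commutes c x
  have hcomm : A * ma γ = ma γ * A := by
    rw [hA, Finset.sum_mul, Finset.mul_sum]
    refine Finset.sum_congr rfl fun i hi => ?_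
    rw [← ma_mul, ← ma_mul, dl_move, hγ i hi]
  have hcomm' : (A - κ) * ma γ = ma γ * (A - κ) := by
    rw [sub_mul, mul_sub, hcomm, hκc]
  have hz' : (ma z - κ) * ma γ = (A - κ) * ma γ := by
    rw [sub_mul, sub_mul, hz]
  have hpow : ∀ k : ℕ, (ma z - κ) ^ k * ma γ = (A - κ) ^ k * ma γ := by
    intro k
    induction k with
    | zero => rw [pow_zero, pow_zero]
    | succ k ih =>
      rw [pow_succ, mul_assoc, hz', hcomm', ← mul_assoc, ih, mul_assoc, ← hcomm', ← mul_assoc,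
        ← pow_succ]
  have hnil : IsNilpotent (∑ i ∈ S, (ma (dl F (w i)) - 1)) := by
    apply Commute.isNilpotent_sum
    · intro i hi
      obtain ⟨k, hk⟩ := hV ⟨w i, hw i hi⟩
      refine ⟨ℓ ^ k, ?_⟩
      have hk' : w i ^ ℓ ^ k = 1 := congrArg Subtype.val hk
      rw [sub_pow_char_pow_of_commute ℓ k (Commute.one_right _), ma_dl_pow, hk', ma_dl_one, one_pow,
        sub_self]
    · intro i j hi hj
      apply Commute.sub_left
      · apply Commute.sub_right
        · change _ * _ = _ * _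
          rw [ma_dl_mul, ma_dl_mul, hww i hi j hj]
        · exact Commute.one_right _
      · exact Commute.one_left _
  have hcard : IsUnit (algebraMap F (MonoidAlgebra F G) ((S.card : F) - c)) :=
    (IsUnit.mk0 _ (sub_ne_zero.2 hne)).map _
  have hu : IsUnit (A - κ) := by
    have e : A - κ = (∑ i ∈ S, (ma (dl F (w i)) - 1)) +
        algebraMap F (MonoidAlgebra F G) ((S.card : F) - c) := by
      rw [Finset.sum_sub_distrib, Finset.sum_const, nsmul_eq_mul, mul_one, map_sub, map_natCast]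
      abel
    rw [e]
    exact hnil.isUnit_add_right_of_commute hcard (Algebra.commutes _ _).symm
  apply h0
  apply ma_injective
  rw [ma_zero]
  rw [hpow] at hn
  exact (hu.pow n).mul_right_eq_zero.1 hn

end core

attribute [local instance] Ideal.Quotient.field


/-- NZ5 -/
theorem nz5 (ix5 : Ix5Stmt) (fmg : FmgStmt) (omg : OmgStmt) : Nz5Stmt := by
  intro ℓ _ M _ hM G _ _ e V u b₁ hL χ hχ hzero
  have he := hL.blk
  have hT := hL.tp
  have hu := hL.mem
  have hF : GoodF ℓ (FF M) := H50.fld ℓ Fact.out M hM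
  have hVC : V ≤ Cu u := fun v hv => Subgroup.mem_centralizer_singleton_iff.2 (hL.cen v hv)
  have huX : u ∈ Subgroup.centralizer (V : Set G) :=
    Subgroup.mem_centralizer_iff.2 fun v hv => hL.cen v hv
  have hXC : Subgroup.centralizer (V : Set G) ≤ Cu u := fun g hg =>
    Subgroup.mem_centralizer_singleton_iff.2 (Subgroup.mem_centralizer_iff.1 hg u hu).symm
  have hwC : ∀ c ∈ Cu u, c * u = u * c := fun c hc =>
    Subgroup.mem_centralizer_singleton_iff.1 hc
  have hXN : Subgroup.centralizer (V : Set G) ≤ Subgroup.normalizer (V : Set G) := by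
    intro g hg
    rw [Subgroup.mem_normalizer_iff]
    intro v
    have h1 := Subgroup.mem_centralizer_iff.1 hg
    constructor
    · intro hv
      rw [← h1 v hv, mul_inv_cancel_right]
      exact hv
    · intro hv
      have h2 := h1 _ hv
      have h3 : g * v = g * (g * v * g⁻¹) := by
        rw [← h2]
        group
      rw [mul_left_cancel h3]
      exact hv
  set b : Cu u → FF M := fun t : Cu u => b₁ t with hbdef
  have hb : IsBlk b := hL.bx.blk
  have heb : mulF (fun t : Cu u => e t) b = b := hL.und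
  have hBb : PP.ext0 (Cu u) b = b₁ := by
    funext x
    by_cases hx : x ∈ Cu u
    · rw [H46.ext0_of_mem _ hx]
    · rw [H46.ext0_of_not_mem _ hx, hL.bx.supp x hx]
  have hgb : Gd b (V.subgroupOf (Cu u)) := by
    obtain ⟨x, hx, hne⟩ := hL.gd
    exact ⟨⟨x, hXC hx⟩, (cent_sub hVC _).2 hx, hne⟩
  have hB : Ix (Cu u) (PP.ext0 (Cu u) b) := by
    rw [hBb]
    exact hL.bx.ix
  have heC : IsCl (fun t : Cu u => e t) := fun x y => he.1.1 x y
  have hVcard : Nat.card (V.subgroupOf (Cu u)) = Nat.card V :=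
    Nat.card_congr (Subgroup.subgroupOfEquivOfLe hVC).toEquiv
  have hVp : IsPGroup ℓ (V.subgroupOf (Cu u)) :=
    hT.pg.of_equiv (Subgroup.subgroupOfEquivOfLe hVC).symm
  -- `V` is a defect group of `b`
  have hTb : Tp ℓ b (V.subgroupOf (Cu u)) := by
    refine ⟨hVp, hgb, ?_⟩
    intro Q hQ hQb
    have h1 := gd_map (gd_of_mul hF heC hb.1.1 heb hQ hQb)
    have hcard : Nat.card (Q.map (Cu u).subtype) = Nat.card Q :=
      (Nat.card_congr (Q.equivMapOfInjective (Cu u).subtype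
        (Cu u).subtype_injective).toEquiv).symm
    have h2 := hT.mx _ (hQ.map (Cu u).subtype) h1
    rw [hcard] at h2
    rw [hVcard]
    exact h2
  obtain ⟨hf1, ⟨hf2, -⟩, -⟩ := fmg ℓ M hM (Cu u) b hb _ hTb
  have hbx := bx_of hVC hXC hXN hf2
  set B := PP.ext0 (Cu u) b with hBdef
  -- conjugates of `V` in the centraliser of `u`
  have hgood : ∀ t : G, (∀ v ∈ V, t⁻¹ * v * t ∈ Cu u) →
      (∃ x, (∀ v ∈ V, x * (t⁻¹ * v * t) = t⁻¹ * v * t * x) ∧ B x ≠ 0) →
      ∃ c ∈ Cu u, t * c ∈ Subgroup.normalizer (V : Set G) := by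
    rintro t ht ⟨x, hx1, hx2⟩
    have hxC : x ∈ Cu u := by
      by_contra h
      exact hx2 (hB.supp x h)
    set Q : Subgroup (Cu u) := (conjS t⁻¹ V).subgroupOf (Cu u) with hQ
    have hQC : conjS t⁻¹ V ≤ Cu u := by
      intro y hy
      rw [mem_conjS, inv_inv] at hy
      have := ht _ hy
      rwa [show t⁻¹ * (t * y * t⁻¹) * t = y by group] at this
    have hQp : IsPGroup ℓ Q :=
      (hT.pg.map (MulAut.conj t⁻¹).toMonoidHom).of_equiv (Subgroup.subgroupOfEquivOfLe hQC).symm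
    have hQg : Gd b Q := by
      refine ⟨⟨x, hxC⟩, ?_, ?_⟩
      · rw [Subgroup.mem_centralizer_iff]
        intro y hy
        have hy' : (y : G) ∈ conjS t⁻¹ V := hy
        rw [mem_conjS, inv_inv] at hy'
        have h3 := hx1 _ hy'
        rw [show t⁻¹ * (t * (y : G) * t⁻¹) * t = y by group] at h3
        exact Subtype.ext h3.symm
      · rw [hBdef, H46.ext0_of_mem _ hxC] at hx2
        exact hx2
    obtain ⟨c, hc⟩ := hf1 Q hQp hQg
    refine ⟨c, c.2, ?_⟩
    -- `(t c)⁻¹ V (t c) ≤ V`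
    have h4 : ∀ v ∈ V, (t * (c : G))⁻¹ * v * (t * c) ∈ V := by
      intro v hv
      have h5 : (⟨t⁻¹ * v * t, ht v hv⟩ : Cu u) ∈ Q := by
        change t⁻¹ * v * t ∈ conjS t⁻¹ V
        rw [mem_conjS, inv_inv, show t * (t⁻¹ * v * t) * t⁻¹ = v by group]
        exact hv
      have h6 := hc h5
      rw [mem_conjS] at h6
      have h7 : (c : G)⁻¹ * (t⁻¹ * v * t) * c ∈ V := h6
      rwa [show (t * (c : G))⁻¹ * v * (t * c) = (c : G)⁻¹ * (t⁻¹ * v * t) * c by group]
    have h8 : (t * (c : G))⁻¹ ∈ Subgroup.normalizer (V : Set G) := by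
      have h9 : conjS (t * (c : G))⁻¹ V = V := by
        apply Subgroup.eq_of_le_of_card_ge
        · intro y hy
          rw [mem_conjS, inv_inv] at hy
          have := h4 _ hy
          rwa [show (t * (c : G))⁻¹ * (t * c * y * (t * (c : G))⁻¹) * (t * c) = y by group]
            at this
        · exact (Nat.card_congr (V.equivMapOfInjective (MulAut.conj (t * (c : G))⁻¹).toMonoidHom
            (MulAut.conj (t * (c : G))⁻¹).injective).toEquiv).le
      rw [Subgroup.mem_normalizer_iff]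
      intro v
      conv_rhs => rw [← h9]
      rw [mem_conjS, inv_inv]
      rw [show t * (c : G) * ((t * (c : G))⁻¹ * v * (t * c)) * (t * (c : G))⁻¹ = v by group]
    have := inv_mem h8
    rwa [inv_inv] at this
  -- `br V e * br V B = br V B`
  have heB : mulF (br V e) (br V B) = br V B := by
    set E : G → FF M := PP.ext0 (Cu u) (fun t : Cu u => e t) with hE
    have hEinv : H66.Inv V E := by
      intro p hp t
      by_cases ht : t ∈ Cu u
      · have ht' : p * t * p⁻¹ ∈ Cu u :=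
          (Cu u).mul_mem ((Cu u).mul_mem (hVC hp) ht) ((Cu u).inv_mem (hVC hp))
        rw [hE, H46.ext0_of_mem _ ht, H46.ext0_of_mem _ ht']
        exact he.1.1 t p
      · rw [hE, H46.ext0_of_not_mem _ ht, H46.ext0_of_not_mem]
        intro h
        apply ht
        have h2 := (Cu u).mul_mem ((Cu u).mul_mem ((Cu u).inv_mem (hVC hp)) h) (hVC hp)
        rwa [show p⁻¹ * (p * t * p⁻¹) * p = t by group] at h2
    have hBinv : H66.Inv V B := fun p hp => (cj_eq_iff p B).1 (hB.inv (hVC hp))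
    have hEB : mulF E B = B := by
      have hEs : ∀ x, x ∉ Cu u → E x = 0 := fun x hx => H46.ext0_of_not_mem _ hx
      apply eq_of_res (mulF_supp (Cu u) hEs hB.supp) hB.supp
      rw [mulF_res (Cu u) B hEs, hE, hBdef, H46.restr_ext0, H46.restr_ext0]
      exact heb
    have h1 := H66.br_mulF hF hT.pg hEinv hBinv
    rw [hEB] at h1
    have h2 : br V E = br V e := by
      funext g
      by_cases hg : g ∈ Subgroup.centralizer (V : Set G)
      · rw [H66.br_of_mem hg, H66.br_of_mem hg, hE, H46.ext0_of_mem _ (hXC hg)]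
      · rw [H66.br_of_not_mem hg, H66.br_of_not_mem hg]
    rw [h2] at h1
    exact h1.symm
  -- a block of the centraliser of `V`
  have hbI : IsIdem (fun t : Subgroup.centralizer (V : Set G) => br V B t) := by
    refine ⟨fun x y => hbx.blk.1.1 ⟨x, ⟨hXN x.2, hXC x.2⟩⟩ ⟨y, ⟨hXN y.2, hXC y.2⟩⟩, ?_⟩
    rw [← mulF_res (Subgroup.centralizer (V : Set G)) _ (fun x hx => H66.br_of_not_mem hx),
      hbx.mul]
  obtain ⟨g₀, hg₀, hg₀'⟩ := hgb
  have hg₁ := (cent_sub hVC g₀).1 hg₀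
  obtain ⟨γ₀, hγ₀, hγ₁, -⟩ := H69.exists_blk hbI (g := ⟨g₀, hg₁⟩) (by
    change br V B (g₀ : G) ≠ 0
    rw [H66.br_of_mem hg₁, hBdef, H46.ext0_of_mem _ g₀.2]
    exact hg₀')
  set γ := H75.ext0 (Subgroup.centralizer (V : Set G)) γ₀ with hγdef
  have hγr : (fun t : Subgroup.centralizer (V : Set G) => γ t) = γ₀ :=
    funext (ext0_apply _ γ₀)
  have hγ : Bx (Subgroup.centralizer (V : Set G)) γ := by
    refine ⟨ext0_supp _ γ₀, ?_⟩
    rw [hγr]
    exact hγ₀
  have hbs : ∀ x, x ∉ Subgroup.centralizer (V : Set G) → br V B x = 0 := fun x hx =>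
    H66.br_of_not_mem hx
  have h1 : mulF (br V B) γ = γ := by
    apply eq_of_res (mulF_supp _ hbs hγ.supp) hγ.supp
    rw [mulF_res _ γ hbs, hγr]
    exact hγ₁
  have h2 : mulF (br V e) γ = γ := by
    conv_lhs => rw [← h1, ← mulF_assoc, heB]
    exact h1
  have hinx := ix5 ℓ M hM G e he V hT γ hγ h2
  obtain ⟨S, f, hf, hfX, hcard, hzγ⟩ := core5 hF hT.pg hVC hXC hB hu huX hwC hgood hγ h1 hbx
  -- the trace
  have hz : trc (Cu u) u b = tsm (Cu u) (fun x => B (u⁻¹ * x)) := rfl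
  have hzC : ∀ c ∈ Cu u, cj c (fun x => B (u⁻¹ * x)) = fun x => B (u⁻¹ * x) := by
    intro c hc
    funext x
    change B (u⁻¹ * (c⁻¹ * x * c)) = B (u⁻¹ * x)
    have h2 := (cj_eq_iff c B).1 (hB.inv hc) (u⁻¹ * (c⁻¹ * x * c))
    rw [← h2]
    congr 1
    have h4 : c * u⁻¹ = u⁻¹ * c := (show Commute c u from hwC c hc).inv_right.eq
    calc c * (u⁻¹ * (c⁻¹ * x * c)) * c⁻¹ = (c * u⁻¹) * (c⁻¹ * x) := by group
      _ = u⁻¹ * x := by rw [h4]; group
  have hzcl : IsCl (trc (Cu u) u b) := by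
    rw [hz]
    exact tsm_cl hzC
  have h0 : res M (trc (Cu u) u b) χ = 0 := by
    have h1 := (omg M G u b hb.1 u (Subgroup.mem_zpowers u)).2 χ hχ.1
    have h2 : gbv (Cu u) u (eh M b) χ = 0 := hzero
    rw [← h1.2, h2, mul_zero, zero_div, rr_zero]
  obtain ⟨n, hn⟩ := H50.nil_of_zero he hzcl (H50.isChar_res hχ.1) hχ.2 h0
  have h3 := (br_iter hF hT.pg (H66.IsCl.inv hzcl V) (H66.IsCl.inv he.1.1 V) n).2
  rw [hn] at h3
  have h4 : br V (0 : G → FF M) = 0 := by
    funext g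
    by_cases hg : g ∈ Subgroup.centralizer (V : Set G)
    · rw [H66.br_of_mem hg]
    · rw [H66.br_of_not_mem hg]
      rfl
  rw [h4] at h3
  have h5 := congrArg ma h3
  rw [ma_zero, ma_iterate] at h5
  have h6 : (ma (br V (trc (Cu u) u b)) - algebraMap (FF M) (MonoidAlgebra (FF M) G) 0) ^ n *
      ma γ = 0 := by
    rw [map_zero, sub_zero]
    conv_lhs => rw [← h2, ma_mul, ← mul_assoc, ← h5, zero_mul]
  have hXcomm : ∀ x ∈ Subgroup.centralizer (V : Set G), ∀ v ∈ V, v * x = x * v := fun x hx v hv =>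
    Subgroup.mem_centralizer_iff.1 hx v hv
  have h7 := nil5 hF hT.pg S f hf (fun i hi j hj => hXcomm _ (hfX j hj) _ (hf i hi)) hγ.ne
    (fun i hi => hγ.ix.inv (hfX i hi)) hzγ 0 n h6
  -- contradiction with the inertial index
  have hch : CharP (FF M) ℓ := hF.char
  have h8 : ℓ ∣ S.card := (CharP.cast_eq_zero_iff (FF M) ℓ S.card).1 h7
  rw [hcard] at h8
  apply hinx
  exact h8.trans (Subgroup.relIndex_dvd_of_le_left _ (sup_le hVC hXC))

end Pool.Agent.PP.T5.H56
end
end -- Pool.Agent.Helper56_AT5.NZ5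

section -- Pool.Agent.Helper72_AT5.LB5

/-!
# Squad AT5, row LB5: the bound for the number of modular characters
-/

set_option autoImplicit false

open scoped BigOperators

noncomputable section

namespace Pool.Agent.PP.T5.H72

open Pool.Agent.Helper51_AWC Pool.Agent.Helper79_WRA Pool.Agent.PP Pool.Agent.PP.KF
open Pool.Agent.PP.K9 Pool.Agent.PP.K9.H97 Pool.Agent.PP.H75 Pool.Agent.PP.T3 Pool.Agent.PP.T2

attribute [local instance] Ideal.Quotient.field

theorem card_units {ℓ a : ℕ} (hℓ : ℓ.Prime) (ha : 0 < a) :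
    ((Finset.range (ℓ ^ a)).filter (fun j => ¬ ℓ ∣ j)).card = ℓ ^ (a - 1) * (ℓ - 1) := by
  rw [← Nat.totient_prime_pow hℓ ha, Nat.totient_eq_card_coprime]
  congr 1
  ext j
  simp only [Finset.mem_filter, Finset.mem_range]
  refine and_congr_right fun _ => ?_
  rw [Nat.coprime_pow_left_iff ha, Nat.Prime.coprime_iff_not_dvd hℓ]

/-- LB5 -/
theorem lb5 (pr : Pr5Stmt) (lbx : LbxStmt) (gl : Gl5Stmt) (bs : Bs5Stmt) (lnb : LnbStmt)
    (fx : Fx5Stmt) : Lb5Stmt := by
  intro ℓ hℓ M _ hM G _ _ e V u hblk htp hu hcen a p ha hep hord hV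
  have hp : ℓ.Prime := hℓ.out
  obtain ⟨N, hN⟩ := pr ℓ G
  obtain ⟨⟨b, hb⟩, -⟩ := lbx ℓ M hM G e V u hblk htp hu hcen
  have hfin : (Rf M N e).Finite := (T3.H41.irrE_fin M e).subset fun _ h => h.1
  have hfx := fx ℓ M hM G N hN e hblk.1
  refine hfx.trans ?_
  set R := (Rf M N e).ncard with hR
  set A := (Finset.range (ℓ ^ a)).filter (fun j => ¬ ℓ ∣ j) with hA
  have hAc : A.card = ℓ ^ (a - 1) * (ℓ - 1) := card_units hp ha
  have hφ : 0 < ℓ ^ (a - 1) * (ℓ - 1) :=
    Nat.mul_pos (pow_pos hp.pos _) (Nat.sub_pos_of_lt hp.one_lt)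
  have h1 : (R : ℝ) * ((ℓ ^ (a - 1) * (ℓ - 1) : ℕ) : ℝ) ≤
      Nat.card V * ∑ j ∈ A, ∑ᶠ χ ∈ Rf M N e, nm M ℓ (Cu u) (u ^ j) b χ := by
    have h2 : ∑ χ ∈ hfin.toFinset, (((ℓ ^ (a - 1) * (ℓ - 1) : ℕ) : ℝ)) ≤
        ∑ χ ∈ hfin.toFinset, (Nat.card V * ∑ j ∈ A, nm M ℓ (Cu u) (u ^ j) b χ) :=
      Finset.sum_le_sum fun χ hχ =>
        gl ℓ M hM G e V u b hb a ha hord χ ((Set.Finite.mem_toFinset _).1 hχ).1
    rw [Finset.sum_const, nsmul_eq_mul, ← Set.ncard_eq_toFinset_card _ hfin, ← Finset.mul_sum,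
      Finset.sum_comm] at h2
    refine h2.trans (le_of_eq ?_)
    congr 1
    refine Finset.sum_congr rfl fun j _ => ?_
    rw [finsum_mem_eq_finite_toFinset_sum _ hfin]
  have h3 : ∀ j ∈ A, (ℓ : ℝ) ^ (a - ep ℓ) * ∑ᶠ χ ∈ Rf M N e, nm M ℓ (Cu u) (u ^ j) b χ ≤
      ln (fun t : Cu u => b t) := fun j hj =>
    bs ℓ M hM G N hN e V u b hb a hep hord j (Finset.mem_filter.1 hj).2
  have h4 : (ℓ : ℝ) ^ (a - ep ℓ) * ∑ j ∈ A, ∑ᶠ χ ∈ Rf M N e, nm M ℓ (Cu u) (u ^ j) b χ ≤
      ((ℓ ^ (a - 1) * (ℓ - 1) : ℕ) : ℝ) * ln (fun t : Cu u => b t) := by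
    rw [Finset.mul_sum]
    refine (Finset.sum_le_sum h3).trans (le_of_eq ?_)
    rw [Finset.sum_const, nsmul_eq_mul, hAc]
  have h5 := lnb ℓ M hM G e V u b hb a p hord hV
  have hφR : (0 : ℝ) < ((ℓ ^ (a - 1) * (ℓ - 1) : ℕ) : ℝ) := by exact_mod_cast hφ
  have hV0 : (0 : ℝ) ≤ Nat.card V := Nat.cast_nonneg _
  have hl0 : (0 : ℝ) ≤ (ℓ : ℝ) ^ (a - ep ℓ) := pow_nonneg (Nat.cast_nonneg _) _
  have h6 : (ℓ : ℝ) ^ (a - ep ℓ) * R ≤ Nat.card V * ln (fun t : Cu u => b t) := by
    have h7 := mul_le_mul_of_nonneg_left h1 hl0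
    have h8 := mul_le_mul_of_nonneg_left h4 hV0
    have h9 : ((ℓ : ℝ) ^ (a - ep ℓ) * R) * ((ℓ ^ (a - 1) * (ℓ - 1) : ℕ) : ℝ) ≤
        (Nat.card V * ln (fun t : Cu u => b t)) * ((ℓ ^ (a - 1) * (ℓ - 1) : ℕ) : ℝ) := by
      calc _ = (ℓ : ℝ) ^ (a - ep ℓ) * (R * ((ℓ ^ (a - 1) * (ℓ - 1) : ℕ) : ℝ)) := by ring
        _ ≤ _ := h7
        _ = Nat.card V * ((ℓ : ℝ) ^ (a - ep ℓ) *
            ∑ j ∈ A, ∑ᶠ χ ∈ Rf M N e, nm M ℓ (Cu u) (u ^ j) b χ) := by ring
        _ ≤ _ := h8
        _ = _ := by ring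
    exact le_of_mul_le_mul_right h9 hφR
  have h7 : ℓ ^ (a - ep ℓ) * R ≤ Nat.card V * ln (fun t : Cu u => b t) := by
    exact_mod_cast h6
  have h8 : ℓ ^ (a - ep ℓ) * R ≤ ℓ ^ (a - ep ℓ) * ℓ ^ (3 * p + ep ℓ) := by
    refine h7.trans ((Nat.mul_le_mul hV h5).trans (le_of_eq ?_))
    rw [← pow_add, ← pow_add]
    congr 1
    omega
  exact Nat.le_of_mul_le_mul_left h8 (pow_pos hp.pos _)

end Pool.Agent.PP.T5.H72
end
end -- Pool.Agent.Helper72_AT5.LB5

section -- Pool.Agent.Helper83_AT5.IX5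

/-!
# Squad AT5, row IX5: the inertial index is prime to `ℓ`, for all defect groups
-/

open scoped BigOperators

set_option linter.unusedSectionVars false

noncomputable section

namespace Pool.Agent.PP.T5.H83

open Pool.Agent.Helper51_AWC Pool.Agent.Helper79_WRA Pool.Agent.PP Pool.Agent.PP.KF
open Pool.Agent.PP.K9 Pool.Agent.PP.K9.H97 Pool.Agent.PP.H75 Pool.Agent.PP.T3 Pool.Agent.PP.T2

attribute [local instance] Ideal.Quotient.field

section grp

variable {G : Type} [Group G]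

/-- the index is the number of cosets -/
theorem relIndex_eq_orbit (C D : Subgroup G) :
    C.relIndex D = ((fun x : G => (x : G ⧸ C)) '' (D : Set G)).ncard := by
  have h1 : MulAction.stabilizer D (((1 : G) : G ⧸ C)) = C.subgroupOf D := by
    ext x
    rw [MulAction.mem_stabilizer_iff, Subgroup.mem_subgroupOf]
    change ((((x : G) * 1 : G) : G ⧸ C) = ((1 : G) : G ⧸ C)) ↔ _
    rw [mul_one, eq_comm, QuotientGroup.eq, inv_one, one_mul]
  rw [Subgroup.relIndex, ← h1, MulAction.index_stabilizer]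
  congr 1
  ext y
  constructor
  · rintro ⟨d, rfl⟩
    refine ⟨d, d.2, ?_⟩
    change ((d : G) : G ⧸ C) = (((d : G) * 1 : G) : G ⧸ C)
    rw [mul_one]
  · rintro ⟨d, hd, rfl⟩
    refine ⟨⟨d, hd⟩, ?_⟩
    change (((d : G) * 1 : G) : G ⧸ C) = ((d : G) : G ⧸ C)
    rw [mul_one]

theorem relIndex_congr {C D S : Subgroup G} (hDS : D ≤ S)
    (h : ∀ s ∈ S, ∃ c ∈ C, s * c ∈ D) : C.relIndex D = C.relIndex S := by
  rw [relIndex_eq_orbit, relIndex_eq_orbit]
  congr 1
  apply Set.Subset.antisymm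
  · exact Set.image_mono hDS
  · rintro _ ⟨s, hs, rfl⟩
    obtain ⟨c, hc, hsc⟩ := h s hs
    refine ⟨s * c, hsc, ?_⟩
    change ((s * c : G) : G ⧸ C) = ((s : G) : G ⧸ C)
    rw [eq_comm, QuotientGroup.eq, inv_mul_cancel_left]
    exact hc

theorem mem_sup_norm {Q C : Subgroup G} (h : Q ≤ Subgroup.normalizer (C : Set G)) {y : G}
    (hy : y ∈ Q ⊔ C) : ∃ q ∈ Q, ∃ c ∈ C, y = q * c := by
  let K : Subgroup G :=
    { carrier := {y | ∃ q ∈ Q, ∃ c ∈ C, y = q * c}
      one_mem' := ⟨1, Q.one_mem, 1, C.one_mem, by rw [mul_one]⟩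
      mul_mem' := by
        rintro _ _ ⟨q, hq, c, hc, rfl⟩ ⟨q', hq', c', hc', rfl⟩
        refine ⟨q * q', Q.mul_mem hq hq', q'⁻¹ * c * q' * c', C.mul_mem ?_ hc', by group⟩
        have := (Subgroup.mem_normalizer_iff.1 (h (Q.inv_mem hq')) c).1 hc
        rwa [inv_inv] at this
      inv_mem' := by
        rintro _ ⟨q, hq, c, hc, rfl⟩
        refine ⟨q⁻¹, Q.inv_mem hq, q * c⁻¹ * q⁻¹, ?_, by group⟩
        exact (Subgroup.mem_normalizer_iff.1 (h hq) _).1 (C.inv_mem hc) }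
  have hK : Q ⊔ C ≤ K := by
    apply sup_le
    · intro q hq
      exact ⟨q, hq, 1, C.one_mem, by rw [mul_one]⟩
    · intro c hc
      exact ⟨1, Q.one_mem, c, hc, by rw [one_mul]⟩
  exact hK hy

theorem relIndex_sup_norm {Q C : Subgroup G} (h : Q ≤ Subgroup.normalizer (C : Set G)) :
    C.relIndex Q = C.relIndex (Q ⊔ C) := by
  refine relIndex_congr le_sup_left fun s hs => ?_
  obtain ⟨q, hq, c, hc, rfl⟩ := mem_sup_norm h hs
  exact ⟨c⁻¹, C.inv_mem hc, by rwa [mul_inv_cancel_right]⟩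

theorem card_relIndex (C D : Subgroup G) :
    Nat.card (C ⊓ D : Subgroup G) * C.relIndex D = Nat.card D := by
  have h1 : Nat.card (C ⊓ D : Subgroup G) = Nat.card (C.subgroupOf D) := by
    have h2 : (C.subgroupOf D).map D.subtype = C ⊓ D := by
      ext x
      rw [Subgroup.mem_map, Subgroup.mem_inf]
      constructor
      · rintro ⟨d, hd, rfl⟩
        exact ⟨hd, d.2⟩
      · rintro ⟨h1, h2⟩
        exact ⟨⟨x, h2⟩, h1, rfl⟩
    rw [← h2, Subgroup.card_map_of_injective D.subtype_injective]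
  rw [h1, Subgroup.relIndex, Subgroup.card_mul_index]

/-- the counting argument -/
theorem count [Finite G] {ℓ : ℕ} [hp : Fact ℓ.Prime] {V C T : Subgroup G} (hV : IsPGroup ℓ V)
    (hVT : V ≤ T) (hCT : C ≤ T) (hVC : V ≤ Subgroup.normalizer (C : Set G))
    (hTC : T ≤ Subgroup.normalizer (C : Set G)) (hd : ℓ ∣ (V ⊔ C).relIndex T) :
    ∃ S : Subgroup G, V ≤ S ∧ C ≤ S ∧ S ≤ T ∧ (∃ n, C.relIndex S = ℓ ^ n) ∧
      ∀ D ≤ S, V ≤ D → (∀ s ∈ S, ∃ c ∈ C, s * c ∈ D) → ∃ P ≤ D, IsPGroup ℓ P ∧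
        Nat.card V < Nat.card P := by
  obtain ⟨Q', hQ'⟩ := IsPGroup.exists_le_sylow (G := T) (p := ℓ)
    (hV.of_equiv (Subgroup.subgroupOfEquivOfLe hVT).symm)
  set Q : Subgroup G := (Q' : Subgroup T).map T.subtype with hQ
  have hQT : Q ≤ T := by
    rintro _ ⟨t, -, rfl⟩
    exact t.2
  have hVQ : V ≤ Q := by
    intro v hv
    exact ⟨⟨v, hVT hv⟩, hQ' hv, rfl⟩
  have hQp : IsPGroup ℓ Q := Q'.isPGroup'.map _
  have hQi : ¬ ℓ ∣ Q.relIndex T := by
    have h1 : Q.subgroupOf T = (Q' : Subgroup T) := by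
      ext t
      rw [Subgroup.mem_subgroupOf, hQ]
      constructor
      · rintro ⟨s, hs, h⟩
        have : s = t := Subtype.ext h
        rwa [← this]
      · intro h
        exact ⟨t, h, rfl⟩
    rw [Subgroup.relIndex, h1]
    exact Q'.not_dvd_index
  have hQC : Q ≤ Subgroup.normalizer (C : Set G) := hQT.trans hTC
  refine ⟨Q ⊔ C, hVQ.trans le_sup_left, le_sup_right, sup_le hQT hCT, ?_, ?_⟩
  · obtain ⟨n, hn⟩ := hQp.exists_card_eq
    rw [← relIndex_sup_norm hQC]
    have h1 : C.relIndex Q ∣ ℓ ^ n := by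
      rw [← hn, ← card_relIndex C Q]
      exact dvd_mul_left _ _
    obtain ⟨m, -, hm⟩ := (Nat.dvd_prime_pow hp.out).1 h1
    exact ⟨m, hm⟩
  · intro D hDS hVD hD
    have hle : V ⊔ C ≤ Q ⊔ C := sup_le (hVQ.trans le_sup_left) le_sup_right
    -- the index of `V C` in `Q C` is divisible by `ℓ`
    have h1 : ℓ ∣ (V ⊔ C).relIndex (Q ⊔ C) := by
      have h2 : C.relIndex (V ⊔ C) * (V ⊔ C).relIndex (Q ⊔ C) = C.relIndex (Q ⊔ C) :=
        Subgroup.relIndex_mul_relIndex C (V ⊔ C) (Q ⊔ C) le_sup_right hle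
      obtain ⟨n, hn⟩ := hQp.exists_card_eq
      have h3 : (V ⊔ C).relIndex (Q ⊔ C) ∣ ℓ ^ n := by
        refine Dvd.dvd.trans (Dvd.intro_left _ h2) ?_
        rw [← relIndex_sup_norm hQC, ← hn, ← card_relIndex C Q]
        exact dvd_mul_left _ _
      obtain ⟨m, -, hm⟩ := (Nat.dvd_prime_pow hp.out).1 h3
      rcases Nat.eq_zero_or_pos m with h0 | h0
      · exfalso
        rw [h0, pow_zero, Subgroup.relIndex_eq_one] at hm
        apply hQi
        have h4 : Q ≤ V ⊔ C := le_sup_left.trans hm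
        have h5 : Q.relIndex (V ⊔ C) * (V ⊔ C).relIndex T = Q.relIndex T :=
          Subgroup.relIndex_mul_relIndex Q (V ⊔ C) T h4 (sup_le hVT hCT)
        rw [← h5]
        exact hd.mul_left _
      · rw [hm]
        exact dvd_pow_self _ h0.ne'
    -- the order of `D`
    have h2 : C.relIndex D = C.relIndex V * (V ⊔ C).relIndex (Q ⊔ C) := by
      rw [relIndex_congr hDS hD, relIndex_sup_norm hVC,
        Subgroup.relIndex_mul_relIndex C (V ⊔ C) (Q ⊔ C) le_sup_right hle]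
    have h3 : Nat.card (C ⊓ V : Subgroup G) ∣ Nat.card (C ⊓ D : Subgroup G) :=
      Subgroup.card_dvd_of_le (inf_le_inf_left C hVD)
    have h4 : Nat.card V * ℓ ∣ Nat.card D := by
      rw [← card_relIndex C V, ← card_relIndex C D, h2, mul_assoc]
      exact mul_dvd_mul h3 (mul_dvd_mul_left _ h1)
    obtain ⟨n, hn⟩ := hV.exists_card_eq
    rw [hn, ← pow_succ] at h4
    obtain ⟨P', hP'⟩ := Sylow.exists_subgroup_card_pow_prime ℓ h4
    refine ⟨P'.map D.subtype, ?_, ?_, ?_⟩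
    · rintro _ ⟨t, -, rfl⟩
      exact t.2
    · exact (IsPGroup.of_card hP').map _
    · rw [Subgroup.card_map_of_injective D.subtype_injective, hP', hn]
      exact Nat.pow_lt_pow_right hp.out.one_lt (Nat.lt_succ_self n)

theorem norm_centralizer (V : Subgroup G) :
    Subgroup.normalizer (V : Set G) ≤
      Subgroup.normalizer ((Subgroup.centralizer (V : Set G) : Subgroup G) : Set G) := by
  have key : ∀ g ∈ Subgroup.normalizer (V : Set G), ∀ x ∈ Subgroup.centralizer (V : Set G),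
      g * x * g⁻¹ ∈ Subgroup.centralizer (V : Set G) := by
    intro g hg x hx
    rw [Subgroup.mem_centralizer_iff] at hx ⊢
    intro v hv
    have h1 : g⁻¹ * v * g ∈ V := by
      have := (Subgroup.mem_normalizer_iff.1 (Subgroup.inv_mem _ hg) v).1 hv
      rwa [inv_inv] at this
    have h2 := hx _ h1
    calc v * (g * x * g⁻¹) = g * ((g⁻¹ * v * g) * x) * g⁻¹ := by group
      _ = g * (x * (g⁻¹ * v * g)) * g⁻¹ := by rw [h2]
      _ = _ := by group
  intro g hg
  rw [Subgroup.mem_normalizer_iff]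
  intro x
  constructor
  · exact key g hg x
  · intro h
    have := key g⁻¹ (Subgroup.inv_mem _ hg) _ h
    have e : g⁻¹ * (g * x * g⁻¹) * g⁻¹⁻¹ = x := by group
    rwa [e] at this

end grp

theorem ix5 (ors : OrsStmt) : Ix5Stmt := by
  intro ℓ hp M _ hM G _ _ e he V hV γ hγ hund hdvd
  have hF : GoodF ℓ (FF M) := H50.fld ℓ hp.out M hM
  set C : Subgroup G := Subgroup.centralizer (V : Set G) with hC
  have hnC : Subgroup.normalizer (V : Set G) ≤ Subgroup.normalizer (C : Set G) :=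
    norm_centralizer V
  have hcjV : ∀ v ∈ V, cj v γ = γ := by
    intro v hv
    rw [cj_eq_iff]
    intro x
    by_cases hx : x ∈ C
    · have h1 := Subgroup.mem_centralizer_iff.1 hx v hv
      rw [h1, mul_inv_cancel_right]
    · rw [hγ.supp x hx, hγ.supp]
      intro h
      apply hx
      exact (Subgroup.mem_normalizer_iff.1 (hnC (Subgroup.le_normalizer hv)) x).2 h
  have hVT : V ≤ Tg V γ := by
    intro v hv
    refine ⟨Subgroup.le_normalizer hv, ?_⟩
    exact (cj_eq_iff v γ).1 (hcjV v hv)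
  have hCN : C ≤ Subgroup.normalizer (V : Set G) := Subgroup.centralizer_le_normalizer _
  have hCT : C ≤ Tg V γ := by
    intro c hc
    refine ⟨hCN hc, ?_⟩
    exact (cj_eq_iff c γ).1 (hγ.ix.inv hc)
  have hTN : Tg V γ ≤ Subgroup.normalizer (V : Set G) := inf_le_left
  obtain ⟨S, hVS, hCS, hST, hSn, hS⟩ := count (ℓ := ℓ) hV.pg hVT hCT
    (Subgroup.le_normalizer.trans hnC) (hTN.trans hnC) hdvd
  have hcjS : ∀ s ∈ S, cj s γ = γ := by
    intro s hs
    rw [cj_eq_iff]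
    exact (hST hs).2
  obtain ⟨c, hc, hγc, -, hcs⟩ := ors ℓ (FF M) hF G C S hCS ((hST.trans hTN).trans hnC) hSn γ hγ
    hcjS
  obtain ⟨P, hPD, hPp, hPV⟩ := hS (S ⊓ Cu c) inf_le_left (le_inf hVS (by
    intro v hv
    rw [Subgroup.mem_centralizer_singleton_iff]
    exact Subgroup.mem_centralizer_iff.1 hc v hv)) (by
      intro s hs
      obtain ⟨x, hx, hxs⟩ := hcs s hs
      have h1 : s⁻¹ * x * s ∈ C := by
        have := (Subgroup.mem_normalizer_iff.1 ((hST.trans hTN).trans hnC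
          (Subgroup.inv_mem _ hs)) x).1 hx
        rwa [inv_inv] at this
      refine ⟨s⁻¹ * x * s, h1, ?_⟩
      have e : s * (s⁻¹ * x * s) = x * s := by group
      rw [e]
      refine ⟨S.mul_mem (hCS hx) hs, ?_⟩
      change x * s ∈ Subgroup.centralizer ({c} : Set G)
      rw [Subgroup.mem_centralizer_singleton_iff]
      exact hxs)
  have hPN : P ≤ Subgroup.normalizer (V : Set G) :=
    (hPD.trans inf_le_left).trans (hST.trans hTN)
  refine absurd (hV.mx P hPp ?_) (not_le.2 hPV)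
  by_contra hcon
  have hcP : c ∈ Subgroup.centralizer (P : Set G) := by
    rw [Subgroup.mem_centralizer_iff]
    intro p hp'
    exact Subgroup.mem_centralizer_singleton_iff.1 (hPD hp').2
  have hbi : ∀ p ∈ P, cj p (br V e) = br V e := by
    intro p hp'
    rw [cj_eq_iff]
    intro x
    have h1 : p * x * p⁻¹ ∈ Subgroup.centralizer (V : Set G) ↔
        x ∈ Subgroup.centralizer (V : Set G) :=
      (Subgroup.mem_normalizer_iff.1 (hnC (hPN hp')) x).symm
    by_cases hx : x ∈ Subgroup.centralizer (V : Set G)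
    · rw [br_in _ (h1.2 hx), br_in _ hx, he.1.1]
    · rw [br_out _ (fun h => hx (h1.1 h)), br_out _ hx]
  have h1 := br_mulF H74.orb hF hPp hbi (fun p hp' => hcjS p (hPD hp').1)
  have h2 : br P (br V e) = 0 := by
    funext x
    by_cases hx : x ∈ Subgroup.centralizer (P : Set G)
    · rw [br_in _ hx]
      by_cases hx' : x ∈ Subgroup.centralizer (V : Set G)
      · rw [br_in _ hx']
        by_contra hne
        exact hcon ⟨x, hx, hne⟩
      · rw [br_out _ hx']
        rfl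
    · rw [br_out _ hx]
      rfl
  rw [hund, h2, mulF_zero_left] at h1
  apply hγc
  rw [← br_in γ hcP, h1]
  rfl

end Pool.Agent.PP.T5.H83
end
end -- Pool.Agent.Helper83_AT5.IX5
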