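import Pool.Agent.Helper12_AWB.B056
import Pool.Agent.Helper12_AWB.B121
import Pool.Agent.Helper12_AWB.B150
import Pool.Agent.Helper12_AWB.B156
import Pool.Agent.Helper12_AWB.B163

/-!
# Merged copies (generated) of the modules

* `Pool.Agent.Helper25_AT2.Bru`
* `Pool.Agent.Helper25_AT2.TEA`
* `Pool.Agent.Helper25_AT8.TE8`
* `Pool.Agent.Helper16_AT5.TA5`
* `Pool.Agent.Helper79_AT10.CHT`
-/

set_option autoImplicit false

section -- Pool.Agent.Helper25_AT2.Bru

/-!
# Squad AT2: the idempotents `br_Q(cj g f)` over the conjugates of `(U, f)` and their sum `brU`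
-/

open scoped BigOperators

set_option linter.unusedSectionVars false

noncomputable section

namespace Pool.Agent.PP.T2.H25

open Pool.Agent.Helper51_AWC Pool.Agent.Helper79_WRA Pool.Agent.PP Pool.Agent.PP.KF
open Pool.Agent.PP.K9 Pool.Agent.PP.K9.H97 Pool.Agent.PP.H75 Pool.Agent.PP.T3

section group

variable {G : Type} [Group G]

theorem conjS_mul (g h : G) (D : Subgroup G) : conjS (g * h) D = conjS g (conjS h D) := by
  ext x
  rw [mem_conjS, mem_conjS, mem_conjS]
  have : (g * h)⁻¹ * x * (g * h) = h⁻¹ * (g⁻¹ * x * g) * h := by group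
  rw [this]

theorem cent_conjS {U : Subgroup G} {g x : G} :
    g⁻¹ * x * g ∈ Subgroup.centralizer (U : Set G) ↔
      x ∈ Subgroup.centralizer ((conjS g U : Subgroup G) : Set G) := by
  rw [Subgroup.mem_centralizer_iff, Subgroup.mem_centralizer_iff]
  constructor
  · intro h y hy
    have h1 := h (g⁻¹ * y * g) (mem_conjS.1 hy)
    have h2 : g⁻¹ * (y * x) * g = g⁻¹ * (x * y) * g := by
      calc g⁻¹ * (y * x) * g = g⁻¹ * y * g * (g⁻¹ * x * g) := by group
        _ = g⁻¹ * x * g * (g⁻¹ * y * g) := h1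
        _ = g⁻¹ * (x * y) * g := by group
    exact mul_left_cancel (mul_right_cancel h2)
  · intro h y hy
    have hy' : g * y * g⁻¹ ∈ ((conjS g U : Subgroup G) : Set G) := by
      have : g⁻¹ * (g * y * g⁻¹) * g = y := by group
      exact mem_conjS.2 (by rw [this]; exact hy)
    have h1 := h _ hy'
    calc y * (g⁻¹ * x * g) = g⁻¹ * (g * y * g⁻¹ * x) * g := by group
      _ = g⁻¹ * (x * (g * y * g⁻¹)) * g := by rw [h1]
      _ = g⁻¹ * x * g * y := by group

theorem conjS_norm {Q : Subgroup G} {n : G} (hn : n ∈ Subgroup.normalizer (Q : Set G)) :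
    conjS n Q = Q := mem_normalizer_iff_conjS.1 hn

theorem cent_le_norm (U : Subgroup G) :
    Subgroup.centralizer (U : Set G) ≤ Subgroup.normalizer (U : Set G) := by
  intro x hx
  rw [Subgroup.mem_centralizer_iff] at hx
  rw [Subgroup.mem_normalizer_iff]
  intro y
  constructor
  · intro hy
    rw [← hx y hy, mul_inv_cancel_right]
    exact hy
  · intro hy
    have h1 := hx _ hy
    have h2 : x * y * x⁻¹ = y := by
      have h3 : x * (x * y * x⁻¹) = x * y := by rw [← h1]; group
      exact mul_left_cancel h3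
    rwa [h2] at hy

theorem bt_norm {U Q : Subgroup G} {g n : G} (hn : n ∈ Subgroup.normalizer (Q : Set G))
    (h : Bt U Q g) : Bt U Q (n * g) := by
  obtain ⟨h1, h2⟩ := h
  constructor
  · rw [conjS_mul, ← conjS_norm hn]
    exact conjS_mono.2 h1
  · intro q hq
    rw [conjS_mul, ← cent_conjS]
    apply h2
    have h3 := conjS_norm hn
    rw [← h3, mem_conjS] at hq
    exact hq

theorem bt_norm_iff {U Q : Subgroup G} {g n : G} (hn : n ∈ Subgroup.normalizer (Q : Set G)) :
    Bt U Q (n * g) ↔ Bt U Q g := by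
  refine ⟨fun h => ?_, bt_norm hn⟩
  have h1 := bt_norm (inv_mem hn) h
  rwa [inv_mul_cancel_left] at h1

theorem bt_coset {U Q : Subgroup G} {g x : G} (hx : x ∈ Subgroup.normalizer (U : Set G)) :
    Bt U Q (g * x) ↔ Bt U Q g := by
  unfold Bt
  rw [conjS_mul, conjS_norm hx]

end group

section br

variable {F G : Type} [Field F] [Group G]

theorem cj_br_conj (U : Subgroup G) (g : G) (a : G → F) :
    cj g (br U a) = br (conjS g U) (cj g a) := by
  funext x
  by_cases hx : x ∈ Subgroup.centralizer ((conjS g U : Subgroup G) : Set G)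
  · have h1 := cent_conjS.2 hx
    rw [br, if_pos hx, cj, br, if_pos h1, cj]
  · have h1 : ¬ (g⁻¹ * x * g ∈ Subgroup.centralizer (U : Set G)) := fun h => hx (cent_conjS.1 h)
    rw [br, if_neg hx, cj, br, if_neg h1]

theorem br_br {U Q : Subgroup G} (h : U ≤ Q) (a : G → F) : br Q (br U a) = br Q a := by
  funext x
  by_cases hx : x ∈ Subgroup.centralizer (Q : Set G)
  · have h1 : x ∈ Subgroup.centralizer (U : Set G) := Subgroup.centralizer_le h hx
    rw [br, if_pos hx, br, if_pos h1, br, if_pos hx]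
  · rw [br, if_neg hx, br, if_neg hx]

end br

section mul

variable {F G : Type} [Field F] [Group G] [Finite G]

theorem mulF_sum {ι : Type} (s : Finset ι) (a : G → F) (b : ι → G → F) :
    mulF a (∑ i ∈ s, b i) = ∑ i ∈ s, mulF a (b i) := by
  classical
  induction s using Finset.induction_on with
  | empty => rw [Finset.sum_empty, Finset.sum_empty, H46.mulF_zero]
  | insert i s hi ih => rw [Finset.sum_insert hi, Finset.sum_insert hi, H46.mulF_add, ih]

theorem zero_mulF (a : G → F) : mulF (0 : G → F) a = 0 := by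
  funext x
  unfold mulF
  rw [finsum_eq_zero_of_forall_eq_zero]
  · rfl
  · intro t
    exact zero_mul _

theorem add_mulF (a b c : G → F) : mulF (a + b) c = mulF a c + mulF b c := by
  have := Fintype.ofFinite G
  funext x
  simp only [mulF, Pi.add_apply, finsum_eq_sum_of_fintype, add_mul, Finset.sum_add_distrib]

theorem sum_mulF {ι : Type} (s : Finset ι) (a : ι → G → F) (b : G → F) :
    mulF (∑ i ∈ s, a i) b = ∑ i ∈ s, mulF (a i) b := by
  classical
  induction s using Finset.induction_on with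
  | empty => rw [Finset.sum_empty, Finset.sum_empty, zero_mulF]
  | insert i s hi ih => rw [Finset.sum_insert hi, Finset.sum_insert hi, add_mulF, ih]

end mul

/-! ## The terms -/

section term

variable {F G : Type} [Field F] [Group G] [Finite G] {ℓ : ℕ} {e f γ : G → F}
  {V U Q : Subgroup G} {g : G}

/-- the hypotheses on `f` which are used -/
structure Hf (e : G → F) (U : Subgroup G) (f : G → F) : Prop where
  inv : ∀ x ∈ Subgroup.normalizer (U : Set G), cj x f = f
  idem : mulF f f = f
  und : mulF (br U e) f = f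

theorem hf_of (h : Fs ℓ e V U γ f) : Hf e U f :=
  ⟨fun _ hx => h.blk.ix.inv hx, h.blk.mul, h.und⟩

theorem e_inv (h : Hf e U f) (hb : Bt U Q g) {p : G} (hp : p ∈ Q) : cj p (cj g f) = cj g f := by
  have h1 : g⁻¹ * p * g ∈ Subgroup.normalizer (U : Set G) :=
    cent_le_norm U (cent_conjS.2 (hb.2 hp))
  have h2 := h.inv _ h1
  calc cj p (cj g f) = cj g (cj (g⁻¹ * p * g) f) := by
        rw [cj_cj, cj_cj]
        congr 1
        group
    _ = cj g f := by rw [h2]

theorem e_idem (hF : GoodF ℓ F) (hQ : IsPGroup ℓ Q) (h : Hf e U f) (hb : Bt U Q g) :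
    mulF (br Q (cj g f)) (br Q (cj g f)) = br Q (cj g f) := by
  rw [← br_mulF H74.orb hF hQ (fun p hp => e_inv h hb hp) (fun p hp => e_inv h hb hp),
    ← cj_mulF, h.idem]

theorem e_und (hF : GoodF ℓ F) (hQ : IsPGroup ℓ Q) (he : IsCl e) (h : Hf e U f)
    (hb : Bt U Q g) : mulF (br Q e) (br Q (cj g f)) = br Q (cj g f) := by
  have h1 : mulF (br (conjS g U) e) (cj g f) = cj g f := by
    have h2 := congrArg (cj g) h.und
    rw [cj_mulF, cj_br_conj, cj_isCl g he] at h2
    exact h2
  have h3 : ∀ p ∈ Q, cj p (br (conjS g U) e) = br (conjS g U) e := by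
    intro p hp
    rw [cj_br_conj, cj_isCl p he, conjS_norm (cent_le_norm _ (hb.2 hp))]
  have h4 := br_mulF H74.orb hF hQ h3 (fun p hp => e_inv h hb hp)
  rw [h1, br_br hb.1] at h4
  exact h4.symm

open Classical in
/-- the term of a coset -/
def En (U Q : Subgroup G) (f : G → F) (g : G) : G → F := if Bt U Q g then br Q (cj g f) else 0

theorem en_of (hb : Bt U Q g) : En U Q f g = br Q (cj g f) := by
  unfold En
  rw [if_pos hb]

theorem en_not (hb : ¬ Bt U Q g) : En U Q f g = 0 := by
  unfold En
  rw [if_neg hb]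

theorem en_supp (g : G) : ∀ x, x ∉ Subgroup.centralizer (Q : Set G) → En U Q f g x = 0 := by
  intro x hx
  by_cases hb : Bt U Q g
  · rw [en_of hb, br_out _ hx]
  · rw [en_not hb]
    rfl

theorem en_coset (h : Hf e U f) {x : G} (hx : x ∈ Subgroup.normalizer (U : Set G)) :
    En U Q f (g * x) = En U Q f g := by
  by_cases hb : Bt U Q g
  · rw [en_of hb, en_of ((bt_coset hx).2 hb), ← cj_cj, h.inv x hx]
  · rw [en_not hb, en_not (fun h' => hb ((bt_coset hx).1 h'))]

theorem en_out (h : Hf e U f) (t : G) :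
    En U Q f ((t : G ⧸ Subgroup.normalizer (U : Set G)).out) = En U Q f t := by
  have h1 : t⁻¹ * ((t : G ⧸ Subgroup.normalizer (U : Set G)).out) ∈
      Subgroup.normalizer (U : Set G) := by
    rw [← QuotientGroup.eq]
    exact (QuotientGroup.out_eq' _).symm
  have h2 := en_coset (g := t) (Q := Q) h h1
  rwa [mul_inv_cancel_left] at h2

theorem cj_en {n : G} (hn : n ∈ Subgroup.normalizer (Q : Set G)) (g : G) :
    cj n (En U Q f g) = En U Q f (n * g) := by
  by_cases hb : Bt U Q g
  · rw [en_of hb, en_of ((bt_norm_iff hn).2 hb), cj_br_conj, conjS_norm hn, cj_cj]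
  · rw [en_not hb, en_not (fun h' => hb ((bt_norm_iff hn).1 h')), cj_zero]

theorem en_idem (hF : GoodF ℓ F) (hQ : IsPGroup ℓ Q) (h : Hf e U f) (g : G) :
    mulF (En U Q f g) (En U Q f g) = En U Q f g := by
  by_cases hb : Bt U Q g
  · rw [en_of hb]
    exact e_idem hF hQ h hb
  · rw [en_not hb]
    exact zero_mulF 0

theorem en_und (hF : GoodF ℓ F) (hQ : IsPGroup ℓ Q) (he : IsCl e) (h : Hf e U f) (g : G) :
    mulF (br Q e) (En U Q f g) = En U Q f g := by
  by_cases hb : Bt U Q g
  · rw [en_of hb]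
    exact e_und hF hQ he h hb
  · rw [en_not hb]
    exact H46.mulF_zero _

theorem en_orth (ho : ∀ g h : G, Bt U Q g → Bt U Q h → conjS g U ≠ conjS h U →
    mulF (br Q (cj g f)) (br Q (cj h f)) = 0)
    {p q : G ⧸ Subgroup.normalizer (U : Set G)} (hpq : p ≠ q) :
    mulF (En U Q f p.out) (En U Q f q.out) = 0 := by
  by_cases hb : Bt U Q p.out
  · by_cases hc : Bt U Q q.out
    · rw [en_of hb, en_of hc]
      refine ho _ _ hb hc fun h' => hpq ?_
      have h1 : conjS (p.out⁻¹ * q.out) U = U := by
        rw [conjS_mul, ← h', ← conjS_mul, inv_mul_cancel]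
        ext x
        rw [mem_conjS, inv_one, one_mul, mul_one]
      have h2 := mem_normalizer_iff_conjS.2 h1
      rw [← QuotientGroup.eq, QuotientGroup.out_eq', QuotientGroup.out_eq'] at h2
      exact h2
    · rw [en_not hc]
      exact H46.mulF_zero _
  · rw [en_not hb]
    exact zero_mulF _

/-! ## The sum -/

theorem brU_eq [Fintype (G ⧸ Subgroup.normalizer (U : Set G))] :
    brU U Q f = ∑ q : G ⧸ Subgroup.normalizer (U : Set G), En U Q f q.out := by
  classical
  funext t
  unfold brU
  rw [finsum_eq_sum_of_fintype, Finset.sum_apply]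
  refine Finset.sum_congr rfl fun q _ => ?_
  rw [finsum_eq_if]
  by_cases hb : Bt U Q q.out
  · rw [if_pos hb, en_of hb]
  · rw [if_neg hb, en_not hb]
    rfl

theorem brU_supp : ∀ x, x ∉ Subgroup.centralizer (Q : Set G) → brU U Q f x = 0 := by
  intro x hx
  have := Fintype.ofFinite (G ⧸ Subgroup.normalizer (U : Set G))
  rw [brU_eq, Finset.sum_apply]
  exact Finset.sum_eq_zero fun q _ => en_supp _ x hx

theorem cj_sum {ι : Type} (s : Finset ι) (n : G) (b : ι → G → F) :
    cj n (∑ i ∈ s, b i) = ∑ i ∈ s, cj n (b i) := by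
  funext x
  rw [cj, Finset.sum_apply, Finset.sum_apply]
  rfl

theorem cj_brU (h : Hf e U f) {n : G} (hn : n ∈ Subgroup.normalizer (Q : Set G)) :
    cj n (brU U Q f) = brU U Q f := by
  have := Fintype.ofFinite (G ⧸ Subgroup.normalizer (U : Set G))
  rw [brU_eq, cj_sum, ← Equiv.sum_comp (MulAction.toPerm n :
    Equiv.Perm (G ⧸ Subgroup.normalizer (U : Set G))) fun q => En U Q f q.out]
  refine Finset.sum_congr rfl fun q _ => ?_
  obtain ⟨t, rfl⟩ := QuotientGroup.mk_surjective q
  have h1 : (MulAction.toPerm n : Equiv.Perm (G ⧸ Subgroup.normalizer (U : Set G)))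
      (t : G ⧸ Subgroup.normalizer (U : Set G)) =
      ((n * t : G) : G ⧸ Subgroup.normalizer (U : Set G)) := rfl
  rw [h1, en_out h, en_out h, cj_en hn]

theorem brU_und (hF : GoodF ℓ F) (hQ : IsPGroup ℓ Q) (he : IsCl e) (h : Hf e U f) :
    mulF (br Q e) (brU U Q f) = brU U Q f := by
  have := Fintype.ofFinite (G ⧸ Subgroup.normalizer (U : Set G))
  rw [brU_eq, mulF_sum]
  exact Finset.sum_congr rfl fun q _ => en_und hF hQ he h _

theorem en_brU (hF : GoodF ℓ F) (hQ : IsPGroup ℓ Q) (h : Hf e U f)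
    (ho : ∀ g h : G, Bt U Q g → Bt U Q h → conjS g U ≠ conjS h U →
      mulF (br Q (cj g f)) (br Q (cj h f)) = 0) (g : G) :
    mulF (En U Q f g) (brU U Q f) = En U Q f g := by
  have := Fintype.ofFinite (G ⧸ Subgroup.normalizer (U : Set G))
  rw [← en_out (Q := Q) h g, brU_eq, mulF_sum,
    Finset.sum_eq_single (g : G ⧸ Subgroup.normalizer (U : Set G))]
  · exact en_idem hF hQ h _
  · intro q _ hq
    exact en_orth ho (Ne.symm hq)
  · intro h'
    exact absurd (Finset.mem_univ _) h'

theorem brU_mul (hF : GoodF ℓ F) (hQ : IsPGroup ℓ Q) (h : Hf e U f)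
    (ho : ∀ g h : G, Bt U Q g → Bt U Q h → conjS g U ≠ conjS h U →
      mulF (br Q (cj g f)) (br Q (cj h f)) = 0) :
    mulF (brU U Q f) (brU U Q f) = brU U Q f := by
  have := Fintype.ofFinite (G ⧸ Subgroup.normalizer (U : Set G))
  have h1 : mulF (∑ q : G ⧸ Subgroup.normalizer (U : Set G), En U Q f q.out) (brU U Q f) =
      ∑ q : G ⧸ Subgroup.normalizer (U : Set G), En U Q f q.out := by
    rw [sum_mulF]
    exact Finset.sum_congr rfl fun q _ => en_brU hF hQ h ho _
  rwa [← brU_eq] at h1

/-- `brU` is a central idempotent of a group between the centraliser and the normaliser -/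
theorem brU_idem (hF : GoodF ℓ F) (hQ : IsPGroup ℓ Q) (h : Hf e U f)
    (ho : ∀ g h : G, Bt U Q g → Bt U Q h → conjS g U ≠ conjS h U →
      mulF (br Q (cj g f)) (br Q (cj h f)) = 0) {X : Subgroup G}
    (hX : Subgroup.centralizer (Q : Set G) ≤ X) (hX' : X ≤ Subgroup.normalizer (Q : Set G)) :
    IsIdem (fun t : X => brU U Q f t) := by
  constructor
  · intro x y
    exact (cj_eq_iff _ _).1 (cj_brU h (hX' y.2)) x
  · rw [← mulF_res X (brU U Q f) (fun x hx => brU_supp x fun hx' => hx (hX hx')),
      brU_mul hF hQ h ho]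

end term

end Pool.Agent.PP.T2.H25
end
end -- Pool.Agent.Helper25_AT2.Bru

section -- Pool.Agent.Helper25_AT2.TEA

/-!
# Squad AT2, row TEA: only the part over the conjugates of `(U, f)` contributes
-/

open scoped BigOperators

set_option linter.unusedSectionVars false

noncomputable section

namespace Pool.Agent.PP.T2.H25

open Pool.Agent.Helper51_AWC Pool.Agent.Helper79_WRA Pool.Agent.PP Pool.Agent.PP.KF
open Pool.Agent.PP.K9 Pool.Agent.PP.K9.H97 Pool.Agent.PP.H75 Pool.Agent.PP.T3

attribute [local instance] Ideal.Quotient.field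

/-- the order of `N(Q) / Q` -/
theorem card_quot {G : Type} [Group G] [Finite G] {Q : Subgroup G} (hQ : Q ≠ ⊥) :
    Nat.card (Subgroup.normalizer (Q : Set G) ⧸ Q.subgroupOf (Subgroup.normalizer (Q : Set G))) <
      Nat.card G := by
  have h1 := Subgroup.card_eq_card_quotient_mul_card_subgroup
    (Q.subgroupOf (Subgroup.normalizer (Q : Set G)))
  have h2 : Nat.card (Q.subgroupOf (Subgroup.normalizer (Q : Set G))) = Nat.card Q :=
    Nat.card_congr (Subgroup.subgroupOfEquivOfLe Subgroup.le_normalizer).toEquiv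
  have h3 : 1 < Nat.card Q := (Subgroup.one_lt_card_iff_ne_bot Q).2 hQ
  have h4 : Nat.card (Subgroup.normalizer (Q : Set G)) ≤ Nat.card G :=
    Subgroup.card_le_card_group _
  have h5 : 0 < Nat.card (Subgroup.normalizer (Q : Set G) ⧸
      Q.subgroupOf (Subgroup.normalizer (Q : Set G))) := Nat.card_pos
  rw [h2] at h1
  refine lt_of_lt_of_le ?_ h4
  rw [h1]
  exact (Nat.lt_mul_iff_one_lt_right h5).2 h3

/-- a good subgroup of a block with abelian defect groups is abelian -/
theorem good_ab {ℓ : ℕ} [Fact ℓ.Prime] {M : Ideal (integralClosure ℤ ℂ)} [M.IsMaximal]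
    (hM : (ℓ : integralClosure ℤ ℂ) ∈ M) {G : Type} [Group G] [Finite G] {e γ : G → FF M}
    {V : Subgroup G} (hL : Ld ℓ e V γ) {Q : Subgroup G} (hQ : IsPGroup ℓ Q) (hg : Gd e Q) :
    ∀ a ∈ Q, ∀ b ∈ Q, a * b = b * a := by
  obtain ⟨g, hg'⟩ := (H69.fmg ℓ M hM G e hL.blk V hL.tp).1 Q hQ hg
  intro a ha b hb
  have h1 := hL.ab _ (mem_conjS.1 (hg' ha)) _ (mem_conjS.1 (hg' hb))
  have h2 : g⁻¹ * (a * b) * g = g⁻¹ * (b * a) * g := by
    calc g⁻¹ * (a * b) * g = g⁻¹ * a * g * (g⁻¹ * b * g) := by group
      _ = g⁻¹ * b * g * (g⁻¹ * a * g) := h1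
      _ = g⁻¹ * (b * a) * g := by group
  exact mul_left_cancel (mul_right_cancel h2)

theorem tea (ort : OrtStmt) (tya : TyaStmt) : TeaStmt := by
  intro ℓ _ M _ hM G _ _ e V γ hL a ha hexp f hf hIh Q hQ hQ1
  classical
  have hF : GoodF ℓ (FF M) := H50.fld ℓ Fact.out M hM
  obtain ⟨U, hU⟩ : ∃ U, U = Uw (ℓ ^ (a - 1)) V := ⟨_, rfl⟩
  have hh : Hf e U f := by rw [hU]; exact hf_of hf
  have ho : ∀ g h : G, Bt U Q g → Bt U Q h → conjS g U ≠ conjS h U →
      mulF (br Q (cj g f)) (br Q (cj h f)) = 0 := by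
    rw [hU]
    exact ort ℓ M hM G e V γ hL (ℓ ^ (a - 1)) f hf Q hQ
  rw [← hU]
  have heI : IsIdem e := hL.blk.1
  obtain ⟨-, -, b3⟩ := H20.brm ℓ (FF M) hF G Q (Subgroup.normalizer (Q : Set G)) hQ
    (cent_le_norm Q) le_rfl
  obtain ⟨e', he'⟩ : ∃ e' : Subgroup.normalizer (Q : Set G) → FF M,
    e' = fun t : Subgroup.normalizer (Q : Set G) => br Q e t := ⟨_, rfl⟩
  obtain ⟨B, hB⟩ : ∃ B : Subgroup.normalizer (Q : Set G) → FF M,
    B = fun t : Subgroup.normalizer (Q : Set G) => brU U Q f t := ⟨_, rfl⟩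
  obtain ⟨p, hp⟩ : ∃ p, p = QuotientGroup.mk' (Q.subgroupOf (Subgroup.normalizer (Q : Set G))) :=
    ⟨_, rfl⟩
  have hps : Function.Surjective p := by rw [hp]; exact QuotientGroup.mk'_surjective _
  have hpk : p.ker = Q.subgroupOf (Subgroup.normalizer (Q : Set G)) := by
    rw [hp]; exact QuotientGroup.ker_mk' _
  have hbs : ∀ x, x ∉ Subgroup.normalizer (Q : Set G) → br Q e x = 0 := fun x hx =>
    br_out _ fun hx' => hx (cent_le_norm Q hx')
  have heid : IsIdem e' := by rw [he']; exact b3 e heI
  have hBid : IsIdem B := by rw [hB]; exact brU_idem hF hQ hh ho (cent_le_norm Q) le_rfl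
  have heB : mulF e' B = B := by
    rw [he', hB, ← mulF_res _ (brU U Q f) hbs, brU_und hF hQ heI.1 hh]
  unfold YQ
  rw [← hp, ← he', ← hB]
  by_cases hgd : Gd e Q
  · obtain ⟨hE, hBE⟩ := H46.isIdem_sub heid hBid heB
    have hpe : push p e' = push p (e' - B) + push p B := by rw [← push_add, sub_add_cancel]
    have h1 : IsIdem (push p (e' - B)) := push_isIdem hps hE
    have h2 : IsIdem (push p B) := push_isIdem hps hBid
    have h12 : mulF (push p (e' - B)) (push p B) = 0 := by
      rw [← push_mulF, H46.mulF_comm hE.1, hBE, push_zero]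
    rw [hpe, H9.YY_add hF H94.nch H20.nls H20.brm H20.eig H20.ibf ⊤ h1 h2 h12]
    have hz : YY ℓ ⊤ (push p (e' - B)) = 0 := by
      refine H9.addStmt ℓ (FF M) hF _ ⊤ inferInstance _ h1 fun f₁ hf₁ hEf => ?_
      have hef : mulF (push p e') f₁ = f₁ := by
        have h3 : mulF (push p e') (push p (e' - B)) = push p (e' - B) := by
          rw [← push_mulF]
          congr 1
          have h4 : mulF e' e' = mulF e' (e' - B) + mulF e' B := by
            rw [← H46.mulF_add, sub_add_cancel]
          rw [heid.2, heB] at h4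
          exact (sub_eq_of_eq_add h4).symm
        rw [← hEf, ← mulF_assoc, h3]
      have hk : ∀ g : G, conjS g U ≤ Q →
          mulF (push p (fun t : Subgroup.normalizer (Q : Set G) => br Q (cj g f) t)) f₁ = 0 := by
        intro g hg
        have hab := good_ab hM hL hQ hgd
        have hb : Bt U Q g := by
          refine ⟨hg, fun q hq => ?_⟩
          rw [Subgroup.mem_centralizer_iff]
          intro y hy
          exact hab y (hg hy) q hq
        have hEs : ∀ x, x ∉ Subgroup.normalizer (Q : Set G) → br Q (cj g f) x = 0 := fun x hx =>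
          br_out _ fun hx' => hx (cent_le_norm Q hx')
        have k1 : mulF e' (fun t : Subgroup.normalizer (Q : Set G) => br Q (cj g f) t) =
            fun t : Subgroup.normalizer (Q : Set G) => br Q (cj g f) t := by
          rw [he', ← mulF_res _ (br Q (cj g f)) hbs, e_und hF hQ heI.1 hh hb]
        have k2 : mulF (fun t : Subgroup.normalizer (Q : Set G) => br Q (cj g f) t) B =
            fun t : Subgroup.normalizer (Q : Set G) => br Q (cj g f) t := by
          rw [hB, ← mulF_res _ (brU U Q f) hEs]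
          have k3 := en_brU hF hQ hh ho g
          rw [en_of hb] at k3
          rw [k3]
        have k4 : mulF (fun t : Subgroup.normalizer (Q : Set G) => br Q (cj g f) t) (e' - B) =
            0 := by
          have k5 : mulF (fun t : Subgroup.normalizer (Q : Set G) => br Q (cj g f) t) e' =
              mulF (fun t : Subgroup.normalizer (Q : Set G) => br Q (cj g f) t) (e' - B) +
              mulF (fun t : Subgroup.normalizer (Q : Set G) => br Q (cj g f) t) B := by
            rw [← H46.mulF_add, sub_add_cancel]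
          rw [← H46.mulF_comm heid.1, k1, k2] at k5
          exact left_eq_add.1 (by rw [add_comm] at k5; exact k5)
        rw [← hEf, ← mulF_assoc, ← push_mulF, k4, push_zero, zero_mulF]
      have hpe' : mulF (push p (fun t : Subgroup.normalizer (Q : Set G) => br Q e t)) f₁ = f₁ := by
        rw [← he']
        exact hef
      obtain ⟨V', γ', hL', hex', hπ, hix⟩ := tya ℓ M hM G e V γ hL a ha hexp f hf Q hQ _ p hps
        hpk f₁ hf₁ hpe' (by rw [← hU]; exact hk)
      exact hIh _ (card_quot hQ1) f₁ V' γ' hL' hex' hπ hix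
    rw [hz, zero_add]
  · have h0 : e' = 0 := by
      rw [he']
      funext t
      by_cases ht : (t : G) ∈ Subgroup.centralizer (Q : Set G)
      · rw [br_in _ ht]
        by_contra h
        exact hgd ⟨t, ht, h⟩
      · rw [br_out _ ht]
        rfl
    have h1 : B = 0 := by rw [← heB, h0, zero_mulF]
    rw [h0, h1]

end Pool.Agent.PP.T2.H25
end
end -- Pool.Agent.Helper25_AT2.TEA

section -- Pool.Agent.Helper25_AT8.TE8

/-!
# Squad AT8, row TE8: only the part over the conjugates of `(U, f)` contributes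
-/

open scoped BigOperators

set_option linter.unusedSectionVars false

noncomputable section

namespace Pool.Agent.PP.T8.H25

open Pool.Agent.Helper51_AWC Pool.Agent.Helper79_WRA Pool.Agent.PP Pool.Agent.PP.KF
open Pool.Agent.PP.K9 Pool.Agent.PP.K9.H97 Pool.Agent.PP.H75 Pool.Agent.PP.T3 Pool.Agent.PP.T2
open Pool.Agent.PP.T2.H25

attribute [local instance] Ideal.Quotient.field

theorem te8 (ort : OrtStmt) (ty8 : Ty8aStmt) : Te8Stmt := by
  intro ℓ _ M _ hM G _ _ e V γ hL a ha hexp f hf hIh Q hQ hQ1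
  classical
  have hF : GoodF ℓ (FF M) := H50.fld ℓ Fact.out M hM
  obtain ⟨U, hU⟩ : ∃ U, U = Uw (ℓ ^ (a - 1)) V := ⟨_, rfl⟩
  have hh : Hf e U f := by rw [hU]; exact hf_of hf
  have ho : ∀ g h : G, Bt U Q g → Bt U Q h → conjS g U ≠ conjS h U →
      mulF (br Q (cj g f)) (br Q (cj h f)) = 0 := by
    rw [hU]
    exact ort ℓ M hM G e V γ hL (ℓ ^ (a - 1)) f hf Q hQ
  rw [← hU]
  have heI : IsIdem e := hL.blk.1
  obtain ⟨-, -, b3⟩ := H20.brm ℓ (FF M) hF G Q (Subgroup.normalizer (Q : Set G)) hQ
    (cent_le_norm Q) le_rfl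
  obtain ⟨e', he'⟩ : ∃ e' : Subgroup.normalizer (Q : Set G) → FF M,
    e' = fun t : Subgroup.normalizer (Q : Set G) => br Q e t := ⟨_, rfl⟩
  obtain ⟨B, hB⟩ : ∃ B : Subgroup.normalizer (Q : Set G) → FF M,
    B = fun t : Subgroup.normalizer (Q : Set G) => brU U Q f t := ⟨_, rfl⟩
  obtain ⟨p, hp⟩ : ∃ p, p = QuotientGroup.mk' (Q.subgroupOf (Subgroup.normalizer (Q : Set G))) :=
    ⟨_, rfl⟩
  have hps : Function.Surjective p := by rw [hp]; exact QuotientGroup.mk'_surjective _
  have hpk : p.ker = Q.subgroupOf (Subgroup.normalizer (Q : Set G)) := by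
    rw [hp]; exact QuotientGroup.ker_mk' _
  have hbs : ∀ x, x ∉ Subgroup.normalizer (Q : Set G) → br Q e x = 0 := fun x hx =>
    br_out _ fun hx' => hx (cent_le_norm Q hx')
  have heid : IsIdem e' := by rw [he']; exact b3 e heI
  have hBid : IsIdem B := by rw [hB]; exact brU_idem hF hQ hh ho (cent_le_norm Q) le_rfl
  have heB : mulF e' B = B := by
    rw [he', hB, ← mulF_res _ (brU U Q f) hbs, brU_und hF hQ heI.1 hh]
  unfold YQ
  rw [← hp, ← he', ← hB]
  by_cases hgd : Gd e Q
  · obtain ⟨hE, hBE⟩ := H46.isIdem_sub heid hBid heB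
    have hpe : push p e' = push p (e' - B) + push p B := by rw [← push_add, sub_add_cancel]
    have h1 : IsIdem (push p (e' - B)) := push_isIdem hps hE
    have h2 : IsIdem (push p B) := push_isIdem hps hBid
    have h12 : mulF (push p (e' - B)) (push p B) = 0 := by
      rw [← push_mulF, H46.mulF_comm hE.1, hBE, push_zero]
    rw [hpe, H9.YY_add hF H94.nch H20.nls H20.brm H20.eig H20.ibf ⊤ h1 h2 h12]
    have hz : YY ℓ ⊤ (push p (e' - B)) = 0 := by
      refine H9.addStmt ℓ (FF M) hF _ ⊤ inferInstance _ h1 fun f₁ hf₁ hEf => ?_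
      have hef : mulF (push p e') f₁ = f₁ := by
        have h3 : mulF (push p e') (push p (e' - B)) = push p (e' - B) := by
          rw [← push_mulF]
          congr 1
          have h4 : mulF e' e' = mulF e' (e' - B) + mulF e' B := by
            rw [← H46.mulF_add, sub_add_cancel]
          rw [heid.2, heB] at h4
          exact (sub_eq_of_eq_add h4).symm
        rw [← hEf, ← mulF_assoc, h3]
      have hk : ∀ g : G, conjS g U ≤ Q →
          mulF (push p (fun t : Subgroup.normalizer (Q : Set G) => br Q (cj g f) t)) f₁ = 0 := by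
        intro g hg
        have hab := good_ab hM hL hQ hgd
        have hb : Bt U Q g := by
          refine ⟨hg, fun q hq => ?_⟩
          rw [Subgroup.mem_centralizer_iff]
          intro y hy
          exact hab y (hg hy) q hq
        have hEs : ∀ x, x ∉ Subgroup.normalizer (Q : Set G) → br Q (cj g f) x = 0 := fun x hx =>
          br_out _ fun hx' => hx (cent_le_norm Q hx')
        have k1 : mulF e' (fun t : Subgroup.normalizer (Q : Set G) => br Q (cj g f) t) =
            fun t : Subgroup.normalizer (Q : Set G) => br Q (cj g f) t := by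
          rw [he', ← mulF_res _ (br Q (cj g f)) hbs, e_und hF hQ heI.1 hh hb]
        have k2 : mulF (fun t : Subgroup.normalizer (Q : Set G) => br Q (cj g f) t) B =
            fun t : Subgroup.normalizer (Q : Set G) => br Q (cj g f) t := by
          rw [hB, ← mulF_res _ (brU U Q f) hEs]
          have k3 := en_brU hF hQ hh ho g
          rw [en_of hb] at k3
          rw [k3]
        have k4 : mulF (fun t : Subgroup.normalizer (Q : Set G) => br Q (cj g f) t) (e' - B) =
            0 := by
          have k5 : mulF (fun t : Subgroup.normalizer (Q : Set G) => br Q (cj g f) t) e' =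
              mulF (fun t : Subgroup.normalizer (Q : Set G) => br Q (cj g f) t) (e' - B) +
              mulF (fun t : Subgroup.normalizer (Q : Set G) => br Q (cj g f) t) B := by
            rw [← H46.mulF_add, sub_add_cancel]
          rw [← H46.mulF_comm heid.1, k1, k2] at k5
          exact left_eq_add.1 (by rw [add_comm] at k5; exact k5)
        rw [← hEf, ← mulF_assoc, ← push_mulF, k4, push_zero, zero_mulF]
      have hpe' : mulF (push p (fun t : Subgroup.normalizer (Q : Set G) => br Q e t)) f₁ = f₁ := by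
        rw [← he']
        exact hef
      obtain ⟨V', γ', hL', hex', hfq⟩ := ty8 ℓ M hM G e V γ hL a ha hexp f hf Q hQ _ p hps
        hpk f₁ hf₁ hpe' (by rw [← hU]; exact hk)
      exact hIh _ (card_quot hQ1) f₁ V' γ' hL' hex' hfq
    rw [hz, zero_add]
  · have h0 : e' = 0 := by
      rw [he']
      funext t
      by_cases ht : (t : G) ∈ Subgroup.centralizer (Q : Set G)
      · rw [br_in _ ht]
        by_contra h
        exact hgd ⟨t, ht, h⟩
      · rw [br_out _ ht]
        rfl
    have h1 : B = 0 := by rw [← heB, h0, zero_mulF]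
    rw [h0, h1]

end Pool.Agent.PP.T8.H25
end
end -- Pool.Agent.Helper25_AT8.TE8

section -- Pool.Agent.Helper16_AT5.TA5

/-!
# Squad AT5, row TA5: only the part over the conjugates of `(U, f)` contributes
-/

open scoped BigOperators

set_option linter.unusedSectionVars false

noncomputable section

namespace Pool.Agent.PP.T5.H16

open Pool.Agent.Helper51_AWC Pool.Agent.Helper79_WRA Pool.Agent.PP Pool.Agent.PP.KF
open Pool.Agent.PP.K9 Pool.Agent.PP.K9.H97 Pool.Agent.PP.H75 Pool.Agent.PP.T3 Pool.Agent.PP.T2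
open Pool.Agent.PP.T2.H25

attribute [local instance] Ideal.Quotient.field

theorem ta5 : Ta5Stmt := by
  intro ℓ _ F _ hF G _ _ e heI U f hU hUo Q hQ hyp
  classical
  have hh : Hf e U f := ⟨fun _ hx => hUo.ix.inv hx, hUo.ix.mul, hUo.und⟩
  have ho := hUo.ort Q hQ
  obtain ⟨-, -, b3⟩ := H20.brm ℓ F hF G Q (Subgroup.normalizer (Q : Set G)) hQ
    (cent_le_norm Q) le_rfl
  obtain ⟨e', he'⟩ : ∃ e' : Subgroup.normalizer (Q : Set G) → F,
    e' = fun t : Subgroup.normalizer (Q : Set G) => br Q e t := ⟨_, rfl⟩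
  obtain ⟨B, hB⟩ : ∃ B : Subgroup.normalizer (Q : Set G) → F,
    B = fun t : Subgroup.normalizer (Q : Set G) => brU U Q f t := ⟨_, rfl⟩
  obtain ⟨p, hp⟩ : ∃ p, p = QuotientGroup.mk' (Q.subgroupOf (Subgroup.normalizer (Q : Set G))) :=
    ⟨_, rfl⟩
  have hps : Function.Surjective p := by rw [hp]; exact QuotientGroup.mk'_surjective _
  have hbs : ∀ x, x ∉ Subgroup.normalizer (Q : Set G) → br Q e x = 0 := fun x hx =>
    br_out _ fun hx' => hx (cent_le_norm Q hx')
  have heid : IsIdem e' := by rw [he']; exact b3 e heI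
  have hBid : IsIdem B := by rw [hB]; exact brU_idem hF hQ hh ho (cent_le_norm Q) le_rfl
  have heB : mulF e' B = B := by
    rw [he', hB, ← mulF_res _ (brU U Q f) hbs, brU_und hF hQ heI.1 hh]
  rw [← hp, ← he'] at hyp
  unfold YQ
  rw [← hp, ← he', ← hB]
  obtain ⟨hE, hBE⟩ := H46.isIdem_sub heid hBid heB
  have hpe : push p e' = push p (e' - B) + push p B := by rw [← push_add, sub_add_cancel]
  have h1 : IsIdem (push p (e' - B)) := push_isIdem hps hE
  have h2 : IsIdem (push p B) := push_isIdem hps hBid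
  have h12 : mulF (push p (e' - B)) (push p B) = 0 := by
    rw [← push_mulF, H46.mulF_comm hE.1, hBE, push_zero]
  rw [hpe, H9.YY_add hF H94.nch H20.nls H20.brm H20.eig H20.ibf ⊤ h1 h2 h12]
  have hz : YY ℓ ⊤ (push p (e' - B)) = 0 := by
    refine H9.addStmt ℓ F hF _ ⊤ inferInstance _ h1 fun f₁ hf₁ hEf => ?_
    have hef : mulF (push p e') f₁ = f₁ := by
      have h3 : mulF (push p e') (push p (e' - B)) = push p (e' - B) := by
        rw [← push_mulF]
        congr 1
        have h4 : mulF e' e' = mulF e' (e' - B) + mulF e' B := by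
          rw [← H46.mulF_add, sub_add_cancel]
        rw [heid.2, heB] at h4
        exact (sub_eq_of_eq_add h4).symm
      rw [← hEf, ← mulF_assoc, h3]
    refine hyp f₁ hf₁ hef fun g hb => ?_
    have hEs : ∀ x, x ∉ Subgroup.normalizer (Q : Set G) → br Q (cj g f) x = 0 := fun x hx =>
      br_out _ fun hx' => hx (cent_le_norm Q hx')
    have k1 : mulF e' (fun t : Subgroup.normalizer (Q : Set G) => br Q (cj g f) t) =
        fun t : Subgroup.normalizer (Q : Set G) => br Q (cj g f) t := by
      rw [he', ← mulF_res _ (br Q (cj g f)) hbs, e_und hF hQ heI.1 hh hb]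
    have k2 : mulF (fun t : Subgroup.normalizer (Q : Set G) => br Q (cj g f) t) B =
        fun t : Subgroup.normalizer (Q : Set G) => br Q (cj g f) t := by
      rw [hB, ← mulF_res _ (brU U Q f) hEs]
      have k3 := en_brU hF hQ hh ho g
      rw [en_of hb] at k3
      rw [k3]
    have k4 : mulF (fun t : Subgroup.normalizer (Q : Set G) => br Q (cj g f) t) (e' - B) = 0 := by
      have k5 : mulF (fun t : Subgroup.normalizer (Q : Set G) => br Q (cj g f) t) e' =
          mulF (fun t : Subgroup.normalizer (Q : Set G) => br Q (cj g f) t) (e' - B) +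
          mulF (fun t : Subgroup.normalizer (Q : Set G) => br Q (cj g f) t) B := by
        rw [← H46.mulF_add, sub_add_cancel]
      rw [← H46.mulF_comm heid.1, k1, k2] at k5
      exact left_eq_add.1 (by rw [add_comm] at k5; exact k5)
    rw [← hEf, ← mulF_assoc, ← push_mulF, k4, push_zero, zero_mulF]
  rw [hz, zero_add]

end Pool.Agent.PP.T5.H16
end
end -- Pool.Agent.Helper16_AT5.TA5

section -- Pool.Agent.Helper79_AT10.CHT

/-!
# Squad AT10, row CHT: the coherence theorem
-/

open scoped BigOperators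

set_option autoImplicit false

noncomputable section

namespace Pool.Agent.PP.T10.H79

open Pool.Agent.Helper51_AWC Pool.Agent.Helper79_WRA Pool.Agent.PP Pool.Agent.PP.KF
open Pool.Agent.PP.K9 Pool.Agent.PP.K9.H97 Pool.Agent.PP.H75 Pool.Agent.PP.T3 Pool.Agent.PP.T2
open Pool.Agent.PP.T5 Pool.Agent.PP.TB
open Pool.Agent.PP.T8 (rs pw fv rd Ip Rv)

attribute [local instance] Ideal.Quotient.field

/-- the elements of an `ℓ`-group are `ℓ`-elements -/
theorem el_of_mem {G : Type} [Group G] {ℓ : ℕ} {P : Subgroup G} (hP : IsPGroup ℓ P) {u : G}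
    (hu : u ∈ P) : El ℓ u := by
  obtain ⟨n, hn⟩ := hP ⟨u, hu⟩
  refine ⟨n, ?_⟩
  have := congrArg Subtype.val hn
  simpa using this

theorem cht (h1 : PdcStmt) (h2 : FiaStmt) (h3 : RosStmt) (h4 : GrnStmt) (h5 : GriStmt) :
    ChtStmt := by
  intro ℓ hℓ M hMm hM G _ _ ι _ c β hβ χ hχ H
  classical
  have hF : GoodF ℓ (FF M) := H50.fld ℓ Fact.out M hM
  -- the value at zero
  have hz : ∀ u : G, El ℓ u → fi M c β (0 : G → FF M) χ u = 0 := by
    intro u hu
    have h := h2 ℓ M hM G ι c β hβ χ hχ u hu 0 0 (H46.mulF_zero 0) (H46.mulF_zero 0)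
      (H46.mulF_zero 0) (H46.mulF_zero 0) (fun _ => rfl) (fun _ => rfl)
    rw [add_zero] at h
    have h' : fi M c β (0 : G → FF M) χ u + 0 =
        fi M c β (0 : G → FF M) χ u + fi M c β (0 : G → FF M) χ u := by
      rw [add_zero]
      exact h
    exact (add_left_cancel h').symm
  -- finite sums
  have hsum : ∀ (n : ℕ) (k : Fin n → G → FF M) (u : G), El ℓ u →
      (∀ a, mulF (k a) (k a) = k a) → (∀ a b, a ≠ b → mulF (k a) (k b) = 0) →
      (∀ a x, k a (u * x * u⁻¹) = k a x) → ∀ s : Finset (Fin n),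
      fi M c β (∑ a ∈ s, k a) χ u = ∑ a ∈ s, fi M c β (k a) χ u := by
    intro n k u hu hid horth hinv s
    induction s using Finset.induction_on with
    | empty => rw [Finset.sum_empty, Finset.sum_empty, hz u hu]
    | insert a s ha ih =>
      rw [Finset.sum_insert ha, Finset.sum_insert ha, ← ih]
      have hl : mulF (k a) (∑ b ∈ s, k b) = 0 := by
        rw [H25.mulF_sum]
        refine Finset.sum_eq_zero fun b hb => horth a b ?_
        rintro rfl
        exact ha hb
      have hr : mulF (∑ b ∈ s, k b) (k a) = 0 := by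
        rw [H25.sum_mulF]
        refine Finset.sum_eq_zero fun b hb => horth b a ?_
        rintro rfl
        exact ha hb
      have hs : mulF (∑ b ∈ s, k b) (∑ b ∈ s, k b) = ∑ b ∈ s, k b := by
        rw [H25.sum_mulF]
        refine Finset.sum_congr rfl fun b hb => ?_
        rw [H25.mulF_sum, Finset.sum_eq_single b]
        · exact hid b
        · intro b' _ hb'
          exact horth b b' (Ne.symm hb')
        · intro hb'
          exact absurd hb hb'
      refine h2 ℓ M hM G ι c β hβ χ hχ u hu (k a) (∑ b ∈ s, k b) (hid a) hs hl hr (hinv a) ?_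
      intro x
      rw [Finset.sum_apply, Finset.sum_apply]
      exact Finset.sum_congr rfl fun b _ => hinv b x
  -- the induction
  have key : ∀ n : ℕ, ∀ P : Subgroup G, Nat.card P = n → IsPGroup ℓ P → ∀ i : G → FF M,
      mulF i i = i → (∀ v ∈ P, ∀ x, i (v * x * v⁻¹) = i x) → Cf M P (fi M c β i χ) := by
    intro n
    induction n using Nat.strong_induction_on with
    | _ n IH =>
      intro P hPn hP i hi hiv
      obtain ⟨m, k, hk, hko, hks⟩ := h1 (FF M) G P i hi hiv
      have hCk : ∀ a, Cf M P (fi M c β (k a) χ) := by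
        intro a
        by_cases hb : br P (k a) = 0
        · obtain ⟨Q, u, b, hT⟩ := h3 ℓ (FF M) hF G P hP (k a) (hk a) hb
          obtain ⟨j, hTj, hj, hjo⟩ := h4 ℓ (FF M) hF G P hP (k a) (hk a) Q u b hT
          have hQP : IsPGroup ℓ Q := hP.to_le hTj.le
          have hlt : Nat.card Q < Nat.card P := by
            have hcard : Nat.card Q * Q.relIndex P = Nat.card P := by
              have e := (Q.subgroupOf P).card_mul_index
              rw [Nat.card_congr (Subgroup.subgroupOfEquivOfLe hTj.le).toEquiv] at e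
              exact e
            have hp2 : 2 ≤ ℓ := (Fact.out : ℓ.Prime).two_le
            have hpos : 0 < Nat.card Q := Nat.card_pos
            rw [← hcard, hTj.ix]
            nlinarith
          have hQ := IH (Nat.card Q) (hPn ▸ hlt) Q rfl hQP j hj hTj.iv
          exact h5 ℓ M hM G ι c β hβ χ hχ P Q u j (k a) hP (hk a).iv hTj hj hjo hQ
        · exact H P hP (k a) (hk a) hb
      intro κ hκ
      have e1 : ∀ u : P, fi M c β i χ (u : G) = ∑ a, fi M c β (k a) χ (u : G) := by
        intro u
        rw [← hks]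
        exact hsum m k (u : G) (el_of_mem hP u.2) (fun a => (hk a).id) hko
          (fun a => (hk a).iv (u : G) u.2) Finset.univ
      have e2 : (∑ᶠ u : P, fi M c β i χ (u : G) * κ u) =
          ∑ a, ∑ᶠ u : P, fi M c β (k a) χ (u : G) * κ u := by
        have : Fintype P := Fintype.ofFinite P
        simp only [finsum_eq_sum_of_fintype]
        rw [Finset.sum_comm]
        refine Finset.sum_congr rfl fun u _ => ?_
        rw [e1 u, Finset.sum_mul]
      rw [e2, Finset.mul_sum]
      exact Subring.sum_mem _ fun a _ => hCk a κ hκ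
  intro P hP i hi hiv
  exact key _ P rfl hP i hi hiv

end Pool.Agent.PP.T10.H79
end
end -- Pool.Agent.Helper79_AT10.CHT
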