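import Pool.Agent.Helper12_AWB.B116
import Pool.Agent.Helper12_AWB.B123
import Pool.Agent.Helper12_AWB.B126
import Pool.Agent.Helper12_AWB.B137
import Pool.Agent.Helper12_AWB.B173
import Pool.Agent.Helper12_AWB.B237

/-!
# Merged copies (generated) of the modules

* `Pool.Agent.Helper25_AT8.IDP`
* `Pool.Agent.Helper17_AT10.Orb`
* `Pool.Agent.Helper17_AT10.PRM`
* `Pool.Agent.Helper17_AT10.UNB`
* `Pool.Agent.Helper25_AT10.IDL`
* `Pool.Agent.Helper31_AT10.GRI`
* `Pool.Agent.Helper69_AT10.Core`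
* `Pool.Agent.Helper69_AT10.GRN`
* `Pool.Agent.Helper62_AT10.ROS`
-/

set_option autoImplicit false

section -- Pool.Agent.Helper25_AT8.IDP

/-!
# AT8, row IDP: some power of an element of the group ring over `F` is an idempotent
-/

open scoped BigOperators

set_option linter.unusedSectionVars false

noncomputable section

namespace Pool.Agent.PP.T8.H25

open Pool.Agent.Helper51_AWC Pool.Agent.Helper79_WRA Pool.Agent.PP Pool.Agent.PP.KF
open Pool.Agent.PP.K9 Pool.Agent.PP.K9.H97 Pool.Agent.PP.H75 Pool.Agent.PP.T3 Pool.Agent.PP.T2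

section

variable {F H : Type} [Field F] [Group H] [Finite H]

theorem pw_zero (x : H → F) : pw x 0 = dl F (1 : H) := rfl

theorem pw_succ (x : H → F) (n : ℕ) : pw x (n + 1) = mulF x (pw x n) := rfl

theorem pw_add (x : H → F) (m n : ℕ) : mulF (pw x m) (pw x n) = pw x (m + n) := by
  induction m with
  | zero => rw [pw_zero, H46.one_mulF, zero_add]
  | succ m ih => rw [pw_succ, mulF_assoc, ih, ← pw_succ, Nat.add_right_comm]

/-- the values of all powers are in a finite set -/
theorem pw_fin {ℓ : ℕ} (hF : GoodF ℓ F) (x : H → F) :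
    ∃ S : Subring F, Finite S ∧ ∀ n g, pw x n g ∈ S := by
  classical
  have := Fintype.ofFinite H
  have := hF.char
  have : Fact ℓ.Prime := ⟨hF.prime⟩
  let _ : Algebra (ZMod ℓ) F := ZMod.algebra F ℓ
  have hint : ∀ y ∈ Set.range x, IsIntegral (ZMod ℓ) y := by
    intro y _
    by_cases h : y = 0
    · rw [h]
      exact isIntegral_zero
    · obtain ⟨n, hn, h1⟩ := hF.tors y h
      exact IsIntegral.of_pow hn (h1 ▸ isIntegral_one)
  have hfg := fg_adjoin_of_finite (Set.finite_range x) hint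
  have hmf : Module.Finite (ZMod ℓ) (Algebra.adjoin (ZMod ℓ) (Set.range x)) :=
    Module.Finite.iff_fg.2 hfg
  have hfin : Finite (Algebra.adjoin (ZMod ℓ) (Set.range x)) :=
    Module.finite_of_finite (ZMod ℓ)
  refine ⟨(Algebra.adjoin (ZMod ℓ) (Set.range x)).toSubring, hfin, ?_⟩
  intro n
  induction n with
  | zero =>
    intro g
    rw [pw_zero, dl]
    by_cases h : g = 1
    · rw [if_pos h]; exact one_mem _
    · rw [if_neg h]; exact zero_mem _
  | succ n ih =>
    intro g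
    rw [pw_succ, mulF, finsum_eq_sum_of_fintype]
    exact sum_mem fun t _ => mul_mem (Algebra.subset_adjoin ⟨t, rfl⟩) (ih _)

end

theorem idp : IdpStmt := by
  intro ℓ F _ hF H _ _ x
  obtain ⟨S, hS, hmem⟩ := pw_fin hF x
  obtain ⟨i, j, hij, h⟩ := Finite.exists_ne_map_eq_of_infinite
    (fun n : ℕ => fun g : H => (⟨pw x n g, hmem n g⟩ : S))
  have h1 : pw x i = pw x j := by
    funext g
    exact congrArg Subtype.val (congrFun h g)
  -- `a < b` with `pw x a = pw x b`
  obtain ⟨a, p, hp, hap⟩ : ∃ a p : ℕ, 0 < p ∧ pw x (a + p) = pw x a := by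
    rcases lt_or_gt_of_ne hij with h2 | h2
    · exact ⟨i, j - i, Nat.sub_pos_of_lt h2, by rw [Nat.add_sub_cancel' h2.le, h1]⟩
    · exact ⟨j, i - j, Nat.sub_pos_of_lt h2, by rw [Nat.add_sub_cancel' h2.le, h1]⟩
  have h2 : ∀ c, pw x (a + c + p) = pw x (a + c) := by
    intro c
    have h3 : a + c + p = c + (a + p) := by omega
    rw [h3, ← pw_add, hap, pw_add, add_comm c a]
  have h3 : ∀ k c, pw x (a + c + k * p) = pw x (a + c) := by
    intro k
    induction k with
    | zero => intro c; rw [zero_mul, add_zero]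
    | succ k ih =>
      intro c
      have h4 : a + c + (k + 1) * p = a + (c + k * p) + p := by ring
      rw [h4, h2, ← add_assoc, ih]
  refine ⟨(a + 1) * p, Nat.mul_pos a.succ_pos hp, ?_⟩
  have h4 : a ≤ (a + 1) * p := by nlinarith
  obtain ⟨c, hc⟩ := Nat.exists_eq_add_of_le h4
  rw [pw_add]
  conv_lhs => rw [show (a + 1) * p + (a + 1) * p = a + c + (a + 1) * p by rw [← hc]]
  rw [h3, ← hc]

end Pool.Agent.PP.T8.H25
end
end -- Pool.Agent.Helper25_AT8.IDP

section -- Pool.Agent.Helper17_AT10.Orb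

/-!
# Squad AT10: tools for Brauer pairs (orbit sums of blocks), author helper17
-/

open scoped BigOperators

noncomputable section

namespace Pool.Agent.PP.T10.H17

open Pool.Agent.Helper51_AWC Pool.Agent.Helper79_WRA Pool.Agent.PP Pool.Agent.PP.KF
open Pool.Agent.PP.K9 Pool.Agent.PP.K9.H97 Pool.Agent.PP.H75 Pool.Agent.PP.T3 Pool.Agent.PP.T2
open Pool.Agent.PP.T8 (rs pw fv rd Ip Rv)

section group

variable {G : Type} [Group G]

theorem norm_cent {Q : Subgroup G} {s : G} (hs : s ∈ Subgroup.normalizer (Q : Set G)) :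
    s ∈ Subgroup.normalizer ((Subgroup.centralizer (Q : Set G) : Subgroup G) : Set G) := by
  rw [Subgroup.mem_normalizer_iff]
  intro x
  have h1 := T2.H25.cent_conjS (U := Q) (g := s) (x := s * x * s⁻¹)
  rw [T2.H25.conjS_norm hs] at h1
  have h2 : s⁻¹ * (s * x * s⁻¹) * s = x := by group
  rw [h2] at h1
  exact h1

theorem grow' [Finite G] {ℓ : ℕ} [Fact ℓ.Prime] {Q P : Subgroup G} (hP : IsPGroup ℓ P)
    (h : Q < P) : Q < P ⊓ Subgroup.normalizer (Q : Set G) := by
  obtain ⟨x, hxP, hxQ, hxN⟩ := H94.grow hP h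
  refine lt_of_le_of_ne (le_inf h.le Subgroup.le_normalizer) ?_
  intro he
  apply hxQ
  rw [he]
  exact Subgroup.mem_inf.2 ⟨hxP, hxN⟩

end group

section tools

variable {F G : Type} [Field F] [Group G] [Finite G]

theorem mk_ix {X : Subgroup G} {a : G → F} (hs : ∀ x, x ∉ X → a x = 0)
    (hi : ∀ x ∈ X, cj x a = a) (hm : mulF a a = a) : Ix X a := by
  refine ⟨hs, ?_, ?_⟩
  · intro x y
    exact (cj_eq_iff (y : G) a).1 (hi y y.2) x
  · rw [← mulF_res X a hs, hm]

theorem cj_br {Q : Subgroup G} {n : G} (hn : n ∈ Subgroup.normalizer (Q : Set G)) (a : G → F) :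
    cj n (br Q a) = br Q (cj n a) := by
  rw [T2.H25.cj_br_conj, T2.H25.conjS_norm hn]

theorem cj_sub (n : G) (a b : G → F) : cj n (a - b) = cj n a - cj n b := rfl

theorem cj_dl_one (n : G) : cj n (dl F (1 : G)) = dl F (1 : G) := by
  funext x
  unfold cj dl
  by_cases h : x = 1
  · rw [if_pos h, if_pos (by rw [h]; group)]
  · rw [if_neg h, if_neg]
    intro h2
    apply h
    have h3 : x = n * (n⁻¹ * x * n) * n⁻¹ := by group
    rw [h3, h2]
    group

theorem ix_one (X : Subgroup G) : Ix X (dl F (1 : G)) := by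
  refine mk_ix ?_ (fun x _ => cj_dl_one x) (H46.one_mulF _)
  intro x hx
  unfold dl
  rw [if_neg]
  intro h
  apply hx
  rw [h]
  exact X.one_mem

theorem mulF_one (a : G → F) : mulF a (dl F (1 : G)) = a := by
  apply ma_injective
  rw [ma_mul, ma_dl, ← MonoidAlgebra.one_def, mul_one]

theorem sub_mulF (a b c : G → F) : mulF (a - b) c = mulF a c - mulF b c := by
  apply ma_injective
  rw [ma_sub, ma_mul, ma_mul, ma_mul, ma_sub, sub_mul]

theorem mulF_sub (a b c : G → F) : mulF a (b - c) = mulF a b - mulF a c := by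
  apply ma_injective
  rw [ma_sub, ma_mul, ma_mul, ma_mul, ma_sub, mul_sub]

theorem ix_one_sub {X : Subgroup G} {c : G → F} (hc : Ix X c) : Ix X (dl F (1 : G) - c) := by
  refine mk_ix ?_ ?_ ?_
  · intro x hx
    rw [Pi.sub_apply, (ix_one X).supp x hx, hc.supp x hx, sub_zero]
  · intro x hx
    rw [cj_sub, cj_dl_one, hc.inv hx]
  · rw [sub_mulF, mulF_sub, mulF_sub, H46.one_mulF, H46.one_mulF, mulF_one, hc.mul, sub_self,
      sub_zero]

/-- an idempotent of `X` which does not annihilate `a` is over a block of `X` which does not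
annihilate `a` -/
theorem exists_bx {X : Subgroup G} {E : G → F} (hE : Ix X E) {a : G → F} (h : mulF E a ≠ 0) :
    ∃ b, Bx X b ∧ mulF E b = b ∧ mulF b a ≠ 0 := by
  obtain ⟨b, hb, hb2, hb3⟩ := K9.H24.exists_blk (fun c : X → F => mulF (PP.ext0 X c) a)
    (by
      have h0 : PP.ext0 X (0 : X → F) = 0 := by
        funext x
        by_cases hx : x ∈ X
        · rw [PP.ext0, dif_pos hx]; rfl
        · rw [PP.ext0, dif_neg hx]; rfl
      change mulF (PP.ext0 X (0 : X → F)) a = 0
      rw [h0, mulF_zero_left])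
    (by
      intro c d
      change mulF (PP.ext0 X (c + d)) a = _
      rw [H46.ext0_add, T2.H25.add_mulF])
    hE.idem
    (by
      change mulF (PP.ext0 X (fun t : X => E t)) a ≠ 0
      rw [H46.ext0_restr hE.supp]
      exact h)
  have hbx : (fun t : X => PP.ext0 X b t) = b := by
    funext t
    exact H46.ext0_of_mem b t.2
  refine ⟨PP.ext0 X b, ⟨fun x hx => H46.ext0_of_not_mem b hx, ?_⟩, ?_, hb3⟩
  · rw [hbx]
    exact hb
  · have hs : ∀ x, x ∉ X → PP.ext0 X b x = 0 := fun x hx => H46.ext0_of_not_mem b hx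
    apply eq_of_res (mulF_supp X hE.supp hs) hs
    rw [mulF_res X _ hE.supp, hbx]
    exact hb2

theorem exists_bx_one (X : Subgroup G) {a : G → F} (h : a ≠ 0) : ∃ b, Bx X b ∧ mulF b a ≠ 0 := by
  obtain ⟨b, h1, -, h3⟩ := exists_bx (ix_one (F := F) X) (a := a) (by rw [H46.one_mulF]; exact h)
  exact ⟨b, h1, h3⟩

/-- if only the block `c` does not annihilate `a` then `c a = a` -/
theorem all_of_unique {X : Subgroup G} {a c : G → F} (hc : Bx X c)
    (hu : ∀ d, Bx X d → mulF d a ≠ 0 → d = c) : mulF c a = a := by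
  by_contra h
  obtain ⟨b, hb, hb2, hb3⟩ := exists_bx (ix_one_sub hc.ix) (a := a) (by
    rw [sub_mulF, H46.one_mulF]
    intro h'
    exact h (sub_eq_zero.1 h').symm)
  have h1 := hu b hb hb3
  rw [h1, sub_mulF, H46.one_mulF, hc.mul, sub_self] at hb2
  exact hc.ne hb2.symm

/-- two blocks which fix a nonzero element are equal -/
theorem bx_uniq {X : Subgroup G} {a b c : G → F} (ha : a ≠ 0) (hb : Bx X b) (hc : Bx X c)
    (h1 : mulF a b = a) (h2 : mulF a c = a) : b = c := by
  rcases hb.dich hc with h | h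
  · exact h
  · exfalso
    apply ha
    rw [← h2]
    conv_lhs => rw [← h1]
    rw [mulF_assoc, h, mulF_zero_right]

/-- the image of a central idempotent of `C(Q)` -/
theorem ix_br' {ℓ : ℕ} (hF : GoodF ℓ F) {Q S : Subgroup G} (hS : IsPGroup ℓ S) (hQS : Q ≤ S)
    {a : G → F} (ha : Ix (Subgroup.centralizer (Q : Set G)) a) (hi : ∀ s ∈ S, cj s a = a) :
    Ix (Subgroup.centralizer (S : Set G)) (br S a) := by
  refine mk_ix (fun x hx => br_out _ hx) ?_ ?_
  · intro x hx
    rw [cj_br (T2.H25.cent_le_norm S hx), ha.inv (Subgroup.centralizer_le hQS hx)]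
  · rw [← br_mulF H74.orb hF hS hi hi, ha.mul]

/-! ## Orbit sums -/

/-- the conjugates of `c` under `N` -/
def cset (N : Subgroup G) (c : G → F) : Set (G → F) := {d | ∃ n ∈ N, d = cj n c}

instance (N : Subgroup G) (c : G → F) : Finite (cset N c) := by
  have h : cset N c ⊆ Set.range (fun n : G => cj n c) := by
    rintro d ⟨n, -, rfl⟩
    exact ⟨n, rfl⟩
  exact ((Set.finite_range _).subset h).to_subtype

/-- the sum of the conjugates -/
def os (N : Subgroup G) (c : G → F) : G → F := fun g => ∑ᶠ d : cset N c, d.1 g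

theorem os_eq (N : Subgroup G) (c : G → F) [Fintype (cset N c)] :
    os N c = ∑ d : cset N c, d.1 := by
  funext g
  rw [Finset.sum_apply]
  exact finsum_eq_sum_of_fintype _

theorem self_mem (N : Subgroup G) (c : G → F) : c ∈ cset N c := ⟨1, N.one_mem, (cj_one c).symm⟩

theorem cj_mem {N : Subgroup G} {c d : G → F} (hd : d ∈ cset N c) {n : G} (hn : n ∈ N) :
    cj n d ∈ cset N c := by
  obtain ⟨m, hm, rfl⟩ := hd
  exact ⟨n * m, N.mul_mem hn hm, cj_cj n m c⟩

/-- the permutation of the conjugates -/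
def perm {N : Subgroup G} {n : G} (hn : n ∈ N) (c : G → F) : cset N c ≃ cset N c where
  toFun d := ⟨cj n d.1, cj_mem d.2 hn⟩
  invFun d := ⟨cj n⁻¹ d.1, cj_mem d.2 (N.inv_mem hn)⟩
  left_inv d := Subtype.ext (cj_inv_cj n d.1)
  right_inv d := Subtype.ext (cj_cj_inv n d.1)

theorem cj_os {N : Subgroup G} {n : G} (hn : n ∈ N) (c : G → F) : cj n (os N c) = os N c := by
  have := Fintype.ofFinite (cset N c)
  rw [os_eq, T2.H25.cj_sum, ← Equiv.sum_comp (perm hn c) (fun d : cset N c => d.1)]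
  rfl

section bx

variable {X N : Subgroup G} {c : G → F}

theorem bx_mem (hN : N ≤ Subgroup.normalizer (X : Set G)) (hc : Bx X c) {d : G → F}
    (hd : d ∈ cset N c) : Bx X d := by
  obtain ⟨n, hn, rfl⟩ := hd
  exact hc.cj (hN hn)

theorem os_mul_mem (hN : N ≤ Subgroup.normalizer (X : Set G)) (hc : Bx X c) {d : G → F}
    (hd : d ∈ cset N c) : mulF (os N c) d = d := by
  have := Fintype.ofFinite (cset N c)
  rw [os_eq, T2.H25.sum_mulF, Finset.sum_eq_single (⟨d, hd⟩ : cset N c)]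
  · exact (bx_mem hN hc hd).mul
  · intro e _ he
    rcases (bx_mem hN hc e.2).dich (bx_mem hN hc hd) with h | h
    · exact absurd (Subtype.ext h) he
    · exact h
  · intro h
    exact absurd (Finset.mem_univ _) h

theorem os_mul_os (hN : N ≤ Subgroup.normalizer (X : Set G)) (hc : Bx X c) :
    mulF (os N c) (os N c) = os N c := by
  have := Fintype.ofFinite (cset N c)
  conv_lhs => rw [os_eq N c, T2.H25.mulF_sum]
  rw [os_eq N c]
  refine Finset.sum_congr rfl fun d _ => ?_
  rw [← os_eq N c]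
  exact os_mul_mem hN hc d.2

theorem os_supp (hN : N ≤ Subgroup.normalizer (X : Set G)) (hc : Bx X c) :
    ∀ x, x ∉ X → os N c x = 0 := by
  intro x hx
  unfold os
  exact finsum_eq_zero_of_forall_eq_zero fun d => (bx_mem hN hc d.2).supp x hx

theorem os_ix (hN : N ≤ Subgroup.normalizer (X : Set G)) (hc : Bx X c) : Ix X (os N c) := by
  refine mk_ix (os_supp hN hc) ?_ (os_mul_os hN hc)
  intro x hx
  have := Fintype.ofFinite (cset N c)
  rw [os_eq, T2.H25.cj_sum]
  refine Finset.sum_congr rfl fun d _ => ?_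
  exact (bx_mem hN hc d.2).ix.inv hx

/-- if the orbit sum does not vanish on `C(R)` then there is an `R`-invariant conjugate which does
not vanish on `C(R)` -/
theorem os_fixed {ℓ : ℕ} (hF : GoodF ℓ F) {R : Subgroup G} (hR : IsPGroup ℓ R) (hRN : R ≤ N)
    {g : G} (hg : g ∈ Subgroup.centralizer (R : Set G)) (h : os N c g ≠ 0) :
    ∃ d ∈ cset N c, (∀ r ∈ R, cj r d = d) ∧ d g ≠ 0 := by
  let _ : MulAction R (cset N c) :=
    { smul := fun r d => ⟨cj (r : G) d.1, cj_mem d.2 (hRN r.2)⟩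
      one_smul := fun d => Subtype.ext (cj_one d.1)
      mul_smul := fun r s d => Subtype.ext (cj_cj (r : G) (s : G) d.1).symm }
  have h1 := H74.orb ℓ F F R (cset N c) hF.prime hF.char hR (fun d => d.1 g) (by
    intro r d
    change d.1 ((r : G)⁻¹ * g * r) = d.1 g
    congr 1
    have h2 := Subgroup.mem_centralizer_iff.1 hg r r.2
    rw [mul_assoc, ← h2, inv_mul_cancel_left])
  by_contra hcon
  apply h
  refine h1.trans ?_
  apply finsum_eq_zero_of_forall_eq_zero
  intro d
  classical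
  rw [finsum_eq_if]
  by_cases hd : d ∈ MulAction.fixedPoints R (cset N c)
  · rw [if_pos hd]
    by_contra hdg
    exact hcon ⟨d.1, d.2, fun r hr => congrArg Subtype.val (hd ⟨r, hr⟩), hdg⟩
  · rw [if_neg hd]

theorem os_self (h : ∀ n ∈ N, cj n c = c) : os N c = c := by
  funext g
  unfold os
  rw [finsum_eq_single _ (⟨c, self_mem N c⟩ : cset N c)]
  rintro ⟨d, n, hn, rfl⟩ hd
  exact absurd (Subtype.ext (h n hn)) hd

end bx

end tools

end Pool.Agent.PP.T10.H17
end
end -- Pool.Agent.Helper17_AT10.Orb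

section -- Pool.Agent.Helper17_AT10.PRM

/-!
# Squad AT10, row PRM: every Brauer pair is below a conjugate of `(V, γ)` (author helper17)
-/

open scoped BigOperators

noncomputable section

namespace Pool.Agent.PP.T10.H17

open Pool.Agent.Helper51_AWC Pool.Agent.Helper79_WRA Pool.Agent.PP Pool.Agent.PP.KF
open Pool.Agent.PP.K9 Pool.Agent.PP.K9.H97 Pool.Agent.PP.H75 Pool.Agent.PP.T3 Pool.Agent.PP.T2
open Pool.Agent.PP.T8 (rs pw fv rd Ip Rv)

attribute [local instance] Ideal.Quotient.field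

section tools

variable {F G : Type} [Field F] [Group G] [Finite G]

theorem gd_of_ne {e : G → F} {P : Subgroup G} (h : br P e ≠ 0) : Gd e P := by
  by_contra hcon
  apply h
  funext g
  by_cases hg : g ∈ Subgroup.centralizer (P : Set G)
  · rw [br_in _ hg]
    by_contra hne
    exact hcon ⟨g, hg, hne⟩
  · rw [br_out _ hg]
    rfl

/-- the image of a central idempotent is a central idempotent of the normaliser -/
theorem ix_br_norm {ℓ : ℕ} (hF : GoodF ℓ F) {P : Subgroup G} (hP : IsPGroup ℓ P) {e : G → F}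
    (he : IsIdem e) : Ix (Subgroup.normalizer (P : Set G)) (br P e) := by
  refine mk_ix (fun x hx => br_out _ (fun h => hx (T2.H25.cent_le_norm P h))) ?_ ?_
  · intro x hx
    rw [cj_br hx, cj_isCl x he.1]
  · rw [← br_mulF H74.orb hF hP (fun p _ => cj_isCl p he.1) (fun p _ => cj_isCl p he.1), he.2]

/-- a block of the normaliser is the orbit sum of a block of the centraliser -/
theorem blk_os {ℓ : ℕ} [Fact ℓ.Prime] (hF : GoodF ℓ F) {P : Subgroup G} (hP : IsPGroup ℓ P)
    {f b : G → F} (hf : Bx (Subgroup.normalizer (P : Set G)) f)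
    (hb : Bx (Subgroup.centralizer (P : Set G)) b) (hne : mulF f b ≠ 0) :
    f = os (Subgroup.normalizer (P : Set G)) b ∧ mulF f b = b := by
  set N : Subgroup G := Subgroup.normalizer (P : Set G) with hN
  set C : Subgroup G := Subgroup.centralizer (P : Set G) with hC
  have hCN : C ≤ N := T2.H25.cent_le_norm P
  have hNC : N ≤ Subgroup.normalizer (C : Set G) := fun s hs => norm_cent hs
  have hfs : br P f = f :=
    T2.H32.supp_cent hF hP Subgroup.le_normalizer hCN (le_of_eq hN) hf.ix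
  have hfC : Ix C f := by
    refine mk_ix ?_ (fun x hx => hf.ix.inv (hCN hx)) hf.mul
    intro x hx
    rw [← hfs]
    exact br_out _ hx
  have hfb : mulF f b = b := by
    rcases hb.dich' hfC with h | h
    · rw [hfC.comm hb.ix, h]
    · exfalso
      apply hne
      rw [hfC.comm hb.ix, h]
  refine ⟨?_, hfb⟩
  have hoC := os_ix hNC hb
  have hoN : Ix N (os N b) :=
    mk_ix (fun x hx => hoC.supp x (fun h => hx (hCN h))) (fun x hx => cj_os hx b) hoC.mul
  have h1 : mulF f (os N b) = f := by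
    rcases hf.dich' hoN with h | h
    · exact h
    · exfalso
      apply hb.ne
      have h2 := os_mul_mem hNC hb (self_mem N b)
      rw [← hfb]
      conv_lhs => rw [← h2]
      rw [← mulF_assoc, h, mulF_zero_left]
  have h2 : mulF f (os N b) = os N b := by
    have := Fintype.ofFinite (cset N b)
    rw [os_eq, T2.H25.mulF_sum]
    refine Finset.sum_congr rfl fun d _ => ?_
    obtain ⟨d, n, hn, rfl⟩ := d
    change mulF f (cj n b) = cj n b
    have h3 := congrArg (cj n) hfb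
    rw [cj_mulF, hf.ix.inv hn] at h3
    exact h3
  rw [← h1, h2]

end tools

/-- PRM -/
theorem prm (fmg : K9.FmgStmt) (dun : K9.DunStmt) (orb : K9.OrbStmt) (prx : PrxStmt) :
    PrmStmt := by
  intro ℓ _ M _ hM G _ _ e V γ he hV hγ heγ P
  have hF : GoodF ℓ (FF M) := H50.fld ℓ Fact.out M hM
  induction P using WellFoundedGT.induction with
  | ind P ih =>
    intro hP b hb heb
    have hbre : br P e ≠ 0 := by
      intro h
      rw [h, mulF_zero_left] at heb
      exact hb.ne heb.symm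
    have hgd := gd_of_ne hbre
    have hle := hV.mx P hP hgd
    rcases eq_or_lt_of_le hle with hcard | hlt
    · -- the group is a conjugate of `V`
      obtain ⟨g₀, hg₀⟩ := (fmg ℓ M hM G e he V hV).1 P hP hgd
      have hPV : P = conjS g₀ V := by
        apply Subgroup.eq_of_le_of_card_ge hg₀
        rw [card_conjS, hcard]
      have hTp : Tp ℓ e P := ⟨hP, hgd, fun Q hQ hQg => by rw [hcard]; exact hV.mx Q hQ hQg⟩
      have hblk := (fmg ℓ M hM G e he P hTp).2.1.1
      have hγ' : Bx (Subgroup.centralizer (P : Set G)) (cj g₀ γ) := by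
        have h1 : ∀ x, x ∈ Subgroup.centralizer (P : Set G) ↔
            g₀⁻¹ * x * g₀ ∈ Subgroup.centralizer (V : Set G) := by
          intro x
          rw [hPV]
          exact T2.H25.cent_conjS.symm
        exact T3.H62.bx_cj h1 hγ
      have heγ' : mulF (br P e) (cj g₀ γ) = cj g₀ γ := by
        have h1 := congrArg (cj g₀) heγ
        rw [cj_mulF, T2.H25.cj_br_conj, cj_isCl g₀ he.1.1, ← hPV] at h1
        exact h1
      obtain ⟨n, hn, hnb⟩ := orb ℓ (FF M) hF G (Subgroup.normalizer (P : Set G))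
        (Subgroup.centralizer (P : Set G)) (T2.H25.cent_le_norm P) (fun s hs => norm_cent hs)
        (br P e) (fun x hx => br_out _ hx) hblk (cj g₀ γ) b hγ'.supp hb.supp hγ'.blk hb.blk heγ' heb
      obtain ⟨β, hβ, hβP⟩ := prx ℓ (FF M) hF G P hP b hb
      have hbn : b = cj (n⁻¹ * g₀) γ := by
        rw [← cj_cj]
        funext x
        rw [hnb x]
        unfold cj
        congr 1
        group
      have hPn : conjS (n⁻¹ * g₀) V = P := by
        rw [T2.H25.conjS_mul, ← hPV]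
        exact T2.H25.conjS_norm (Subgroup.inv_mem _ hn)
      refine ⟨n⁻¹ * g₀, β, ?_, ?_, ?_, hβP⟩
      · rw [hPn]
        exact hβ
      · rw [hPn]
      · rw [hPn, hβP, hbn]
    · -- the block of the normaliser
      set N : Subgroup G := Subgroup.normalizer (P : Set G) with hN
      obtain ⟨f, hf, hfne⟩ := exists_bx_one N hb.ne
      obtain ⟨hfo, hfb⟩ := blk_os hF hP hf hb hfne
      have heN := ix_br_norm hF hP he.1
      have hef : mulF (br P e) f = f := by
        rcases hf.dich' heN with h | h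
        · rw [← hf.ix.comm heN, h]
        · exfalso
          apply hb.ne
          rw [← hfb]
          conv_lhs => rw [← heb]
          rw [← mulF_assoc, h, mulF_zero_left]
      obtain ⟨R', hR'p, hR'g, hR'lt⟩ := dun ℓ M hM G e he V hV P hP hlt (fun t : N => f t) hf.blk
        (by
          rw [← mulF_res N (a := br P e) f heN.supp, hef])
      -- the subgroup of `G`
      set R : Subgroup G := R'.map N.subtype with hR
      have hRp : IsPGroup ℓ R := hR'p.map _
      have hRN : R ≤ N := by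
        rintro x ⟨y, -, rfl⟩
        exact y.2
      have hPN : P ≤ N := Subgroup.le_normalizer
      have hPR : P < R := by
        obtain ⟨h1, h2⟩ := hR'lt
        refine lt_of_le_of_ne ?_ ?_
        · intro x hx
          exact ⟨⟨x, hPN hx⟩, h1 (Subgroup.mem_subgroupOf.2 hx), rfl⟩
        · intro h3
          apply h2
          intro y hy
          have h4 : (y : G) ∈ R := ⟨y, hy, rfl⟩
          rw [← h3] at h4
          exact Subgroup.mem_subgroupOf.2 h4
      obtain ⟨g', hg', hfg'⟩ := hR'g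
      have hgR : (g' : G) ∈ Subgroup.centralizer (R : Set G) := by
        rw [Subgroup.mem_centralizer_iff] at hg' ⊢
        rintro x ⟨y, hy, rfl⟩
        exact congrArg Subtype.val (hg' y hy)
      have hog : os N b (g' : G) ≠ 0 := by
        rw [← hfo]
        exact hfg'
      obtain ⟨d, ⟨n, hn, hd⟩, hdinv, hdg⟩ := os_fixed hF hRp hRN hgR hog
      -- the conjugate of `R`
      set R₁ : Subgroup G := conjS n⁻¹ R with hR₁
      have hmem : ∀ x, x ∈ R₁ ↔ n * x * n⁻¹ ∈ R := by
        intro x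
        rw [hR₁, mem_conjS, inv_inv]
      have hR₁p : IsPGroup ℓ R₁ := conjS_pgroup hRp
      have hR₁N : R₁ ≤ N := by
        intro x hx
        have h1 := hRN ((hmem x).1 hx)
        have h2 := N.mul_mem (N.mul_mem (N.inv_mem hn) h1) hn
        have h3 : n⁻¹ * (n * x * n⁻¹) * n = x := by group
        rwa [h3] at h2
      have hPR₁ : P < R₁ := by
        refine lt_of_le_of_ne ?_ ?_
        · intro x hx
          rw [hmem]
          exact hPR.le ((Subgroup.mem_normalizer_iff.1 hn x).1 hx)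
        · intro h1
          have h2 : Nat.card R₁ = Nat.card R := card_conjS _ _
          rw [← h1] at h2
          exact absurd (Subgroup.eq_of_le_of_card_ge hPR.le h2.symm.le) hPR.ne
      have hbinv : ∀ r ∈ R₁, cj r b = b := by
        intro r hr
        have h1 := hdinv _ ((hmem r).1 hr)
        rw [hd, cj_cj] at h1
        have h2 := congrArg (cj n⁻¹) h1
        rw [cj_inv_cj, cj_cj] at h2
        have h3 : n⁻¹ * (n * r * n⁻¹ * n) = r := by group
        rw [h3] at h2
        exact h2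
      have hbne : br R₁ b ≠ 0 := by
        intro h0
        apply hdg
        have h1 : n⁻¹ * (g' : G) * n ∈ Subgroup.centralizer (R₁ : Set G) := by
          rw [hR₁]
          have h2 := (T2.H25.cent_conjS (U := R) (g := n⁻¹) (x := n⁻¹ * (g' : G) * n)).1
          apply h2
          have h3 : (n⁻¹)⁻¹ * (n⁻¹ * (g' : G) * n) * n⁻¹ = g' := by group
          rw [h3]
          exact hgR
        have h2 : br R₁ b (n⁻¹ * (g' : G) * n) = b (n⁻¹ * (g' : G) * n) := br_in _ h1
        rw [h0] at h2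
        rw [hd]
        exact h2.symm
      have hbix := ix_br' hF hR₁p hPR₁.le hb.ix hbinv
      obtain ⟨b₁, hb₁, hbb₁, -⟩ := exists_bx hbix (a := br R₁ b) (by
        rw [hbix.mul]
        exact hbne)
      have heinv : ∀ r ∈ R₁, cj r (br P e) = br P e := fun r hr => heN.inv (hR₁N hr)
      have heb₁ : mulF (br R₁ e) b₁ = b₁ := by
        have h1 := br_mulF H74.orb hF hR₁p heinv hbinv
        rw [heb, T2.H25.br_br hPR₁.le] at h1
        conv_lhs => rw [← hbb₁, ← mulF_assoc, ← h1, hbb₁]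
      obtain ⟨g, β, hβ, hRg, hβV, hβR⟩ := ih R₁ hPR₁ hR₁p b₁ hb₁ heb₁
      refine ⟨g, β, hβ, hPR₁.le.trans hRg, hβV, ?_⟩
      have hst := hβ.st P R₁ hPR₁.le hRg hR₁N
      have hbr := hβ.br P R₁ hPR₁.le hRg hR₁N
      rw [hβR] at hbr
      have hbx := hβ.bx P (hPR₁.le.trans hRg)
      rcases hbx.dich hb with h | h
      · exact h
      · exfalso
        apply hb₁.ne
        have h1 := br_mulF H74.orb hF hR₁p hst hbinv
        rw [h, T2.H32.br_zero] at h1
        rw [← hbr]
        conv_lhs => rw [← hbb₁]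
        rw [← mulF_assoc, ← h1, mulF_zero_left]

end Pool.Agent.PP.T10.H17
end
end -- Pool.Agent.Helper17_AT10.PRM

section -- Pool.Agent.Helper17_AT10.UNB

/-!
# Squad AT10, row UNB: a primitive idempotent defines a compatible function (author helper17)
-/

open scoped BigOperators

noncomputable section

namespace Pool.Agent.PP.T10.H17

open Pool.Agent.Helper51_AWC Pool.Agent.Helper79_WRA Pool.Agent.PP Pool.Agent.PP.KF
open Pool.Agent.PP.K9 Pool.Agent.PP.K9.H97 Pool.Agent.PP.H75 Pool.Agent.PP.T3 Pool.Agent.PP.T2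
open Pool.Agent.PP.T8 (rs pw fv rd Ip Rv)

section unb

variable {F G : Type} [Field F] [Group G] [Finite G] {ℓ : ℕ} [hfact : Fact ℓ.Prime]

omit hfact in
theorem cj_pw (q : G) (x : G → F) (hx : cj q x = x) (n : ℕ) : cj q (pw x n) = pw x n := by
  induction n with
  | zero =>
    rw [T8.H25.pw_zero]
    exact cj_dl_one q
  | succ n ih => rw [T8.H25.pw_succ, cj_mulF, hx, ih]

omit hfact in
/-- powers of an element with an idempotent image -/
theorem br_pw (hF : GoodF ℓ F) {Q : Subgroup G} (hQ : IsPGroup ℓ Q) {x : G → F}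
    (hx : ∀ q ∈ Q, cj q x = x) (hid : mulF (br Q x) (br Q x) = br Q x) :
    ∀ n : ℕ, br Q (pw x (n + 1)) = br Q x := by
  intro n
  induction n with
  | zero => rw [T8.H25.pw_succ, T8.H25.pw_zero, mulF_one]
  | succ n ih =>
    rw [T8.H25.pw_succ, br_mulF H74.orb hF hQ hx (fun q hq => cj_pw q x (hx q hq) _), ih, hid]

omit hfact in
/-- an element of `i A ^ P i` whose image at `Q` is an idempotent which is not zero is
invertible -/
theorem unit_of (idl : IdlStmt) (hF : GoodF ℓ F) {P : Subgroup G} (hP : IsPGroup ℓ P)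
    {i : G → F} (hi : Pm P i) {Q : Subgroup G} (hQP : Q ≤ P) {x : G → F}
    (hx : ∀ v ∈ P, cj v x = x) (h1 : mulF i x = x) (h2 : mulF x i = x)
    (hid : mulF (br Q x) (br Q x) = br Q x) (hne : br Q x ≠ 0) :
    ∃ w : G → F, (∀ v ∈ P, cj v w = w) ∧ mulF x w = i := by
  rcases idl ℓ F hF G P i hi x (fun v hv => (cj_eq_iff v x).1 (hx v hv)) h1 h2 with h | h
  · exfalso
    obtain ⟨n, hn, h3⟩ := h
    obtain ⟨m, rfl⟩ : ∃ m, n = m + 1 := ⟨n - 1, by omega⟩
    apply hne
    rw [← br_pw hF (hP.to_le hQP) (fun q hq => hx q (hQP hq)) hid m, h3, T2.H32.br_zero]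
  · obtain ⟨w, hw, -, -, h3, -⟩ := h
    exact ⟨w, fun v hv => (cj_eq_iff v w).2 (hw v hv), h3⟩

/-- the statement of the induction -/
def Tt (i : G → F) (Q : Subgroup G) (c : G → F) : Prop :=
  Bx (Subgroup.centralizer (Q : Set G)) c ∧ mulF (br Q i) c = br Q i

section fixed

variable {P : Subgroup G} {i : G → F}

omit hfact in
theorem br_i_mul (hF : GoodF ℓ F) (hP : IsPGroup ℓ P) (hi : Pm P i) {Q : Subgroup G}
    (hQP : Q ≤ P) : mulF (br Q i) (br Q i) = br Q i := by
  have hcj : ∀ v ∈ Q, cj v i = i := fun v hv => (cj_eq_iff v i).2 (hi.iv v (hQP hv))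
  rw [← br_mulF H74.orb hF (hP.to_le hQP) hcj hcj, hi.id]

omit [Finite G] hfact in
theorem br_i_ne (hbr : br P i ≠ 0) {Q : Subgroup G} (hQP : Q ≤ P) : br Q i ≠ 0 := by
  intro h
  apply hbr
  rw [← T2.H25.br_br hQP, h, T2.H32.br_zero]

omit hfact in
theorem cj_br_i (hi : Pm P i) {Q : Subgroup G} {s : G} (hs : s ∈ P)
    (hsQ : s ∈ Subgroup.normalizer (Q : Set G)) : cj s (br Q i) = br Q i := by
  rw [cj_br hsQ, (cj_eq_iff s i).2 (hi.iv s hs)]

omit hfact in
/-- a block commutes with `br Q i` -/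
theorem comm_br {Q : Subgroup G} {c : G → F}
    (hc : Ix (Subgroup.centralizer (Q : Set G)) c) (a : G → F) :
    mulF (br Q a) c = mulF c (br Q a) :=
  mulF_comm_of (K := Subgroup.centralizer (Q : Set G)) (fun _ hx => br_out _ hx)
    (fun _ hk => hc.inv hk)

omit hfact in
/-- compatibility -/
theorem compat (hF : GoodF ℓ F) (hP : IsPGroup ℓ P) (hi : Pm P i) (hbr : br P i ≠ 0)
    {S S' : Subgroup G} (hSS : S ≤ S') (hSP : S' ≤ P)
    (hN : S' ≤ Subgroup.normalizer (S : Set G)) {b b' : G → F} (hb : Tt i S b)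
    (hb' : Tt i S' b') : (∀ s ∈ S', cj s b = b) ∧ mulF (br S' b) b' = b' := by
  have hne := br_i_ne hbr (hSS.trans hSP)
  have hne' := br_i_ne hbr hSP
  have hinv : ∀ s ∈ S', cj s b = b := by
    intro s hs
    have h1 : Bx (Subgroup.centralizer (S : Set G)) (cj s b) := hb.1.cj (norm_cent (hN hs))
    have h2 : mulF (br S i) (cj s b) = br S i := by
      have h3 := congrArg (cj s) hb.2
      rw [cj_mulF, cj_br_i hi (hSP hs) (hN hs)] at h3
      exact h3
    exact bx_uniq hne h1 hb.1 h2 hb.2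
  refine ⟨hinv, ?_⟩
  have hSp : IsPGroup ℓ S' := hP.to_le hSP
  have hix := ix_br' hF hSp hSS hb.1.ix hinv
  have h1 : mulF (br S' i) (br S' b) = br S' i := by
    have h2 : ∀ s ∈ S', cj s (br S i) = br S i := fun s hs => cj_br_i hi (hSP hs) (hN hs)
    have h3 := br_mulF H74.orb hF hSp h2 hinv
    rw [hb.2, T2.H25.br_br hSS] at h3
    exact h3.symm
  rcases hb'.1.dich' hix with h | h
  · rw [← hb'.1.ix.comm hix, h]
  · exfalso
    apply hne'
    rw [← h1]
    conv_lhs => rw [← hb'.2]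
    rw [mulF_assoc, h, mulF_zero_right]

/-! ## The group itself -/

theorem top_case (idl : IdlStmt) (hF : GoodF ℓ F) (hP : IsPGroup ℓ P) (hi : Pm P i)
    (hbr : br P i ≠ 0) : ∃ c, Tt i P c := by
  obtain ⟨c, hc, hne⟩ := exists_bx_one (Subgroup.centralizer (P : Set G)) hbr
  have hci : ∀ v ∈ P, cj v i = i := fun v hv => (cj_eq_iff v i).2 (hi.iv v hv)
  have hcc : ∀ v ∈ P, cj v c = c := by
    intro v hv
    rw [cj_eq_iff]
    intro x
    have hvn : v ∈ Subgroup.normalizer (P : Set G) := Subgroup.le_normalizer hv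
    by_cases hx : x ∈ Subgroup.centralizer (P : Set G)
    · have h1 := Subgroup.mem_centralizer_iff.1 hx v hv
      rw [h1, mul_inv_cancel_right]
    · rw [hc.supp x hx, hc.supp]
      intro h
      exact hx ((Subgroup.mem_normalizer_iff.1 (norm_cent hvn) x).2 h)
  have hbc : br P c = c := by
    funext x
    by_cases hx : x ∈ Subgroup.centralizer (P : Set G)
    · rw [br_in _ hx]
    · rw [br_out _ hx, hc.supp x hx]
  have hcomm := comm_br hc.ix i
  have hii := br_i_mul hF hP hi le_rfl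
  have hy0 : ∀ v ∈ P, cj v (mulF c i) = mulF c i := by
    intro v hv
    rw [cj_mulF, hcc v hv, hci v hv]
  have hy : ∀ v ∈ P, cj v (mulF i (mulF c i)) = mulF i (mulF c i) := by
    intro v hv
    rw [cj_mulF, hy0 v hv, hci v hv]
  have hbry : br P (mulF i (mulF c i)) = mulF c (br P i) := by
    rw [br_mulF H74.orb hF hP hci hy0, br_mulF H74.orb hF hP hcc hci, hbc, ← mulF_assoc, hcomm,
      mulF_assoc, hii]
  obtain ⟨w, hw, hxw⟩ := unit_of idl hF hP hi le_rfl hy
    (by rw [← mulF_assoc, hi.id])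
    (by rw [mulF_assoc, mulF_assoc, hi.id])
    (by
      rw [hbry, mulF_assoc, ← mulF_assoc (br P i) c, hcomm, mulF_assoc, hii, ← mulF_assoc,
        hc.mul])
    (by
      rw [hbry]
      exact hne)
  refine ⟨c, hc, ?_⟩
  have h3 : br P i = mulF c (mulF (br P i) (br P w)) := by
    have h4 := congrArg (br P) hxw
    rw [br_mulF H74.orb hF hP hy hw, hbry, mulF_assoc] at h4
    exact h4.symm
  rw [hcomm]
  conv_lhs => rw [h3, ← mulF_assoc, hc.mul, ← h3]

/-! ## The trace of an element with small stabilisers -/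

open Classical in
/-- the function `t` -/
def tf (P : Subgroup G) (Y : G → F) : G → F := fun g =>
  if h : ∃ v ∈ P, Y (v⁻¹ * g * v) ≠ 0 then Y (h.choose⁻¹ * g * h.choose) else 0

section trace

variable {Q : Subgroup G} {Y : G → F}

/-- the conditions on `Y` -/
structure Cy (P Q : Subgroup G) (Y : G → F) : Prop where
  le : Q ≤ P
  supp : ∀ g, g ∉ Subgroup.centralizer (Q : Set G) → Y g = 0
  inv : ∀ s ∈ P, s ∈ Subgroup.normalizer (Q : Set G) → ∀ g, Y (s * g * s⁻¹) = Y g
  stab : ∀ g, Y g ≠ 0 → ∀ p ∈ P, p * g = g * p → p ∈ Q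

omit hfact [Finite G] in
theorem Cy.norm (h : Cy P Q Y) {g u : G} (hu : u ∈ P) (h1 : Y g ≠ 0)
    (h2 : Y (u * g * u⁻¹) ≠ 0) : u ∈ Subgroup.normalizer (Q : Set G) := by
  have hg : g ∈ Subgroup.centralizer (Q : Set G) := by
    by_contra hg
    exact h1 (h.supp g hg)
  have hg2 : u * g * u⁻¹ ∈ Subgroup.centralizer (Q : Set G) := by
    by_contra hg
    exact h2 (h.supp _ hg)
  rw [Subgroup.mem_normalizer_iff]
  intro q
  constructor
  · intro hq
    apply h.stab _ h2 _ (P.mul_mem (P.mul_mem hu (h.le hq)) (P.inv_mem hu))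
    have h3 := Subgroup.mem_centralizer_iff.1 hg q hq
    calc u * q * u⁻¹ * (u * g * u⁻¹) = u * (q * g) * u⁻¹ := by group
      _ = u * (g * q) * u⁻¹ := by rw [h3]
      _ = u * g * u⁻¹ * (u * q * u⁻¹) := by group
  · intro hq
    have hqP : q ∈ P := by
      have h4 := P.mul_mem (P.mul_mem (P.inv_mem hu) (h.le hq)) hu
      have h5 : u⁻¹ * (u * q * u⁻¹) * u = q := by group
      rwa [h5] at h4
    apply h.stab g h1 q hqP
    have h3 := Subgroup.mem_centralizer_iff.1 hg2 _ hq
    have h4 : u * (q * g) * u⁻¹ = u * (g * q) * u⁻¹ := by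
      calc u * (q * g) * u⁻¹ = u * q * u⁻¹ * (u * g * u⁻¹) := by group
        _ = u * g * u⁻¹ * (u * q * u⁻¹) := h3
        _ = u * (g * q) * u⁻¹ := by group
    exact mul_left_cancel (mul_right_cancel h4)

omit hfact [Finite G] in
theorem Cy.tf_eq (h : Cy P Q Y) {g v : G} (hv : v ∈ P) (h1 : Y (v⁻¹ * g * v) ≠ 0) :
    tf P Y g = Y (v⁻¹ * g * v) := by
  have hex : ∃ v ∈ P, Y (v⁻¹ * g * v) ≠ 0 := ⟨v, hv, h1⟩
  unfold tf
  rw [dif_pos hex]
  obtain ⟨hw, hw1⟩ := hex.choose_spec
  set w := hex.choose with hwdef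
  have hu : w⁻¹ * v ∈ P := P.mul_mem (P.inv_mem hw) hv
  have h2 : w⁻¹ * v * (v⁻¹ * g * v) * (w⁻¹ * v)⁻¹ = w⁻¹ * g * w := by group
  have h3 : w⁻¹ * v ∈ Subgroup.normalizer (Q : Set G) :=
    h.norm hu h1 (by rw [h2]; exact hw1)
  have h4 := h.inv _ hu h3 (v⁻¹ * g * v)
  rw [h2] at h4
  exact h4

omit hfact [Finite G] in
theorem tf_zero {g : G} (h : ¬ ∃ v ∈ P, Y (v⁻¹ * g * v) ≠ 0) : tf P Y g = 0 := by
  unfold tf
  rw [dif_neg h]

omit hfact in
theorem Cy.tf_inv (h : Cy P Q Y) : ∀ p ∈ P, cj p (tf P Y) = tf P Y := by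
  intro p hp
  rw [cj_eq_iff]
  intro g
  by_cases hex : ∃ v ∈ P, Y (v⁻¹ * g * v) ≠ 0
  · obtain ⟨v, hv, h1⟩ := hex
    have h2 : (p * v)⁻¹ * (p * g * p⁻¹) * (p * v) = v⁻¹ * g * v := by group
    rw [h.tf_eq hv h1, h.tf_eq (v := p * v) (P.mul_mem hp hv) (by rw [h2]; exact h1), h2]
  · rw [tf_zero hex, tf_zero]
    rintro ⟨v, hv, h1⟩
    apply hex
    refine ⟨p⁻¹ * v, P.mul_mem (P.inv_mem hp) hv, ?_⟩
    have h2 : (p⁻¹ * v)⁻¹ * g * (p⁻¹ * v) = v⁻¹ * (p * g * p⁻¹) * v := by group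
    rw [h2]
    exact h1

omit hfact in
theorem Cy.br_tf (h : Cy P Q Y) : br Q (tf P Y) = Y := by
  funext g
  by_cases hg : g ∈ Subgroup.centralizer (Q : Set G)
  · rw [br_in _ hg]
    by_cases hex : ∃ v ∈ P, Y (v⁻¹ * g * v) ≠ 0
    · obtain ⟨v, hv, h1⟩ := hex
      rw [h.tf_eq hv h1]
      have h3 : v⁻¹ ∈ Subgroup.normalizer (Q : Set G) := by
        apply Subgroup.mem_normalizer_fintype
        intro q hq
        rw [inv_inv]
        apply h.stab _ h1 _ (P.mul_mem (P.mul_mem (P.inv_mem hv) (h.le hq)) hv)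
        have h4 := Subgroup.mem_centralizer_iff.1 hg q hq
        calc v⁻¹ * q * v * (v⁻¹ * g * v) = v⁻¹ * (q * g) * v := by group
          _ = v⁻¹ * (g * q) * v := by rw [h4]
          _ = v⁻¹ * g * v * (v⁻¹ * q * v) := by group
      have h4 := h.inv _ (P.inv_mem hv) h3 g
      rw [inv_inv] at h4
      exact h4
    · rw [tf_zero hex]
      by_contra hne
      apply hex
      refine ⟨1, P.one_mem, ?_⟩
      rw [inv_one, one_mul, mul_one]
      exact fun h' => hne h'.symm
  · rw [br_out _ hg, h.supp g hg]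

omit hfact in
theorem Cy.br_tf_top (h : Cy P Q Y) (hlt : Q < P) : br P (tf P Y) = 0 := by
  funext g
  by_cases hg : g ∈ Subgroup.centralizer (P : Set G)
  · rw [br_in _ hg, tf_zero]
    · rfl
    rintro ⟨v, hv, h1⟩
    have h2 : v⁻¹ * g * v = g := by
      have h3 := Subgroup.mem_centralizer_iff.1 hg v hv
      rw [mul_assoc, ← h3, inv_mul_cancel_left]
    rw [h2] at h1
    apply not_le_of_gt hlt
    intro p hp
    exact h.stab g h1 p hp (Subgroup.mem_centralizer_iff.1 hg p hp)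
  · rw [br_out _ hg]
    rfl

end trace

/-! ## The induction step -/

/-- Claim A -/
theorem claimA (idl : IdlStmt) (hF : GoodF ℓ F) (hP : IsPGroup ℓ P) (hi : Pm P i)
    (hbr : br P i ≠ 0) {Q : Subgroup G} (hQP : Q < P) {c' : G → F}
    (hc' : Ix (Subgroup.centralizer (Q : Set G)) c')
    (hinv : ∀ s ∈ P ⊓ Subgroup.normalizer (Q : Set G), cj s c' = c')
    (hne : mulF c' (br Q i) ≠ 0) : ∃ S : Subgroup G, Q < S ∧
      S ≤ P ⊓ Subgroup.normalizer (Q : Set G) ∧ br S (mulF c' (br Q i)) ≠ 0 := by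
  by_contra hcon
  have hS : ∀ S : Subgroup G, Q < S → S ≤ P ⊓ Subgroup.normalizer (Q : Set G) →
      br S (mulF c' (br Q i)) = 0 := by
    intro S h1 h2
    by_contra h3
    exact hcon ⟨S, h1, h2, h3⟩
  clear hcon
  set Y : G → F := mulF c' (br Q i) with hYdef
  have hcomm := comm_br hc' i
  have hii := br_i_mul hF hP hi hQP.le
  have hYI : mulF Y (br Q i) = Y := by rw [hYdef, mulF_assoc, hii]
  have hIY : mulF (br Q i) Y = Y := by rw [hYdef, ← mulF_assoc, hcomm, mulF_assoc, hii]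
  have hYY : mulF Y Y = Y := by
    conv_lhs => rw [hYdef, mulF_assoc, ← hYdef, hIY]
    rw [hYdef, ← mulF_assoc, hc'.mul]
  have hYs : ∀ g, g ∉ Subgroup.centralizer (Q : Set G) → Y g = 0 :=
    mulF_supp _ hc'.supp (fun x hx => br_out _ hx)
  have hYi : ∀ s ∈ P, s ∈ Subgroup.normalizer (Q : Set G) → cj s Y = Y := by
    intro s hs hsN
    rw [hYdef, cj_mulF, hinv s (Subgroup.mem_inf.2 ⟨hs, hsN⟩), cj_br_i hi hs hsN]
  have hcy : Cy P Q Y := by
    refine ⟨hQP.le, hYs, fun s hs hsN => (cj_eq_iff s Y).1 (hYi s hs hsN), ?_⟩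
    intro g hg p hp hpg
    have hgQ : g ∈ Subgroup.centralizer (Q : Set G) := by
      by_contra h
      exact hg (hYs g h)
    set D : Subgroup G := P ⊓ Subgroup.centralizer ({g} : Set G) with hD
    have hQD : Q ≤ D := by
      refine le_inf hQP.le ?_
      intro q hq
      rw [Subgroup.mem_centralizer_iff]
      intro x hx
      rw [Set.mem_singleton_iff.1 hx]
      exact (Subgroup.mem_centralizer_iff.1 hgQ q hq).symm
    have hpD : p ∈ D := by
      refine Subgroup.mem_inf.2 ⟨hp, ?_⟩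
      rw [Subgroup.mem_centralizer_iff]
      intro x hx
      rw [Set.mem_singleton_iff.1 hx]
      exact hpg.symm
    by_contra hpQ
    have hlt : Q < D := lt_of_le_of_ne hQD (fun h => hpQ (h ▸ hpD))
    have hgr := grow' (hP.to_le (inf_le_left : D ≤ P)) hlt
    have h0 := hS _ hgr (inf_le_inf_right _ inf_le_left)
    apply hg
    have hgS : g ∈ Subgroup.centralizer
        ((D ⊓ Subgroup.normalizer (Q : Set G) : Subgroup G) : Set G) := by
      rw [Subgroup.mem_centralizer_iff]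
      intro x hx
      have h1 : x ∈ Subgroup.centralizer ({g} : Set G) :=
        (Subgroup.mem_inf.1 (Subgroup.mem_inf.1 hx).1).2
      exact (Subgroup.mem_centralizer_iff.1 h1 g (Set.mem_singleton g)).symm
    rw [← br_in (P := D ⊓ Subgroup.normalizer (Q : Set G)) Y hgS, h0]
    rfl
  have ht := hcy.tf_inv
  have hci : ∀ v ∈ P, cj v i = i := fun v hv => (cj_eq_iff v i).2 (hi.iv v hv)
  set t := tf P Y with htdef
  have hti : ∀ v ∈ P, cj v (mulF t i) = mulF t i := by
    intro v hv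
    rw [cj_mulF, ht v hv, hci v hv]
  have hz : ∀ v ∈ P, cj v (mulF i (mulF t i)) = mulF i (mulF t i) := by
    intro v hv
    rw [cj_mulF, hti v hv, hci v hv]
  have hQp : IsPGroup ℓ Q := hP.to_le hQP.le
  have hbz : br Q (mulF i (mulF t i)) = Y := by
    rw [br_mulF H74.orb hF hQp (fun v hv => hci v (hQP.le hv)) (fun v hv => hti v (hQP.le hv)),
      br_mulF H74.orb hF hQp (fun v hv => ht v (hQP.le hv)) (fun v hv => hci v (hQP.le hv)),
      hcy.br_tf, hYI, hIY]
  obtain ⟨w, hw, hxw⟩ := unit_of idl hF hP hi hQP.le hz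
    (by rw [← mulF_assoc, hi.id])
    (by rw [mulF_assoc, mulF_assoc, hi.id])
    (by rw [hbz, hYY])
    (by rw [hbz]; exact hne)
  apply hbr
  rw [← hxw, br_mulF H74.orb hF hP hz hw, br_mulF H74.orb hF hP hci hti,
    br_mulF H74.orb hF hP ht hci, hcy.br_tf_top hQP, mulF_zero_left, mulF_zero_right,
    mulF_zero_left]

/-- the start of Claim B -/
theorem claimB0 (hF : GoodF ℓ F) (hP : IsPGroup ℓ P) (hi : Pm P i)
    (hbr : br P i ≠ 0) {Q S : Subgroup G} (hQS : Q ≤ S) (hSP : S ≤ P)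
    (hSN : S ≤ Subgroup.normalizer (Q : Set G)) {c' : G → F}
    (hc' : Ix (Subgroup.centralizer (Q : Set G)) c') (hinv : ∀ s ∈ S, cj s c' = c')
    (hne : br S (mulF c' (br Q i)) ≠ 0) {b : G → F} (hb : Tt i S b) :
    mulF (br S c') b = b := by
  have hSp := hP.to_le hSP
  have hix := ix_br' hF hSp hQS hc' hinv
  have h1 : br S (mulF c' (br Q i)) = mulF (br S c') (br S i) := by
    rw [br_mulF H74.orb hF hSp hinv (fun s hs => cj_br_i hi (hSP hs) (hSN hs)),
      T2.H25.br_br hQS]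
  rcases hb.1.dich' hix with h | h
  · rw [hix.comm hb.1.ix, h]
  · exfalso
    apply hne
    rw [h1, ← comm_br hix i]
    conv_lhs => rw [← hb.2]
    rw [mulF_assoc, h, mulF_zero_right]

/-- Claim B: going up -/
theorem climb (hF : GoodF ℓ F) (hP : IsPGroup ℓ P) (hi : Pm P i) (hbr : br P i ≠ 0)
    {Q R : Subgroup G} (hRP : R ≤ P) {c' : G → F}
    (hinv : ∀ s ∈ R, cj s c' = c')
    (ih : ∀ S, Q < S → S ≤ P → ∃ c, Tt i S c) {b₀ : G → F} (hb₀ : Tt i R b₀) :
    ∀ S : Subgroup G, Q < S → S ≤ R → (∃ b, Tt i S b ∧ mulF (br S c') b = b) →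
      mulF (br R c') b₀ = b₀ := by
  intro S
  induction S using WellFoundedGT.induction with
  | ind S ihS =>
    intro hQS hSR hex
    obtain ⟨b, hb, hcb⟩ := hex
    rcases eq_or_lt_of_le hSR with h | h
    · have h1 : b = b₀ := by
        rw [h] at hb
        exact bx_uniq (br_i_ne hbr hRP) hb.1 hb₀.1 hb.2 hb₀.2
      rw [← h1, ← h]
      exact hcb
    · have hgr := grow' (hP.to_le hRP) h
      set S' : Subgroup G := R ⊓ Subgroup.normalizer (S : Set G) with hS'
      have hS'R : S' ≤ R := inf_le_left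
      have hS'N : S' ≤ Subgroup.normalizer (S : Set G) := inf_le_right
      obtain ⟨b', hb'⟩ := ih S' (hQS.trans hgr) (hS'R.trans hRP)
      have hcp := compat hF hP hi hbr hgr.le (hS'R.trans hRP) hS'N hb hb'
      refine ihS S' hgr (hQS.trans hgr) hS'R ⟨b', hb', ?_⟩
      have hS'p := hP.to_le (hS'R.trans hRP)
      have h1 : ∀ s ∈ S', cj s (br S c') = br S c' := by
        intro s hs
        rw [cj_br (hS'N hs), hinv s (hS'R hs)]
      have h2 := br_mulF H74.orb hF hS'p h1 hcp.1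
      rw [hcb, T2.H25.br_br hgr.le] at h2
      conv_lhs => rw [← hcp.2, ← mulF_assoc, ← h2, hcp.2]

/-- a block which does not annihilate `br Q i` is invariant, and its image is over the block of
the normaliser -/
theorem step1 (idl : IdlStmt) (hF : GoodF ℓ F) (hP : IsPGroup ℓ P) (hi : Pm P i)
    (hbr : br P i ≠ 0) {Q : Subgroup G} (hQP : Q < P)
    (ih : ∀ S, Q < S → S ≤ P → ∃ c, Tt i S c) {b₀ : G → F}
    (hb₀ : Tt i (P ⊓ Subgroup.normalizer (Q : Set G)) b₀) {c : G → F}
    (hc : Bx (Subgroup.centralizer (Q : Set G)) c) (hne : mulF c (br Q i) ≠ 0) :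
    (∀ s ∈ P ⊓ Subgroup.normalizer (Q : Set G), cj s c = c) ∧
      mulF (br (P ⊓ Subgroup.normalizer (Q : Set G)) c) b₀ = b₀ := by
  set R : Subgroup G := P ⊓ Subgroup.normalizer (Q : Set G) with hR
  have hRP : R ≤ P := inf_le_left
  have hRN : R ≤ Subgroup.normalizer (Q : Set G) := inf_le_right
  have hRC : R ≤ Subgroup.normalizer
      ((Subgroup.centralizer (Q : Set G) : Subgroup G) : Set G) := fun s hs => norm_cent (hRN hs)
  have hix := os_ix hRC hc
  have hinv : ∀ s ∈ R, cj s (os R c) = os R c := fun s hs => cj_os hs c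
  have hcc := os_mul_mem hRC hc (self_mem R c)
  have hne' : mulF (os R c) (br Q i) ≠ 0 := by
    intro h
    apply hne
    rw [← hcc, hix.comm hc.ix, mulF_assoc, h, mulF_zero_right]
  obtain ⟨S, hQS, hSR, hS⟩ := claimA idl hF hP hi hbr hQP hix hinv hne'
  obtain ⟨b, hb⟩ := ih S hQS (hSR.trans hRP)
  have h1 := claimB0 hF hP hi hbr hQS.le (hSR.trans hRP) (hSR.trans hRN) hix
    (fun s hs => hinv s (hSR hs)) hS hb
  have h2 := climb hF hP hi hbr hRP hinv ih hb₀ S hQS hSR ⟨b, hb, h1⟩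
  have h3 : br R (os R c) ≠ 0 := by
    intro h
    rw [h, mulF_zero_left] at h2
    exact hb₀.1.ne h2.symm
  have h4 : ∃ g ∈ Subgroup.centralizer (R : Set G), os R c g ≠ 0 := by
    by_contra hcon
    apply h3
    funext g
    by_cases hg : g ∈ Subgroup.centralizer (R : Set G)
    · rw [br_in _ hg]
      by_contra h
      exact hcon ⟨g, hg, h⟩
    · rw [br_out _ hg]
      rfl
  obtain ⟨g, hg, hgne⟩ := h4
  obtain ⟨d, ⟨n, hn, hd⟩, hdinv, -⟩ := os_fixed hF (hP.to_le hRP) le_rfl hg hgne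
  have h5 : c = d := by
    have h6 := hdinv n⁻¹ (R.inv_mem hn)
    rw [hd, cj_inv_cj] at h6
    rw [hd]
    exact h6
  have h6 : ∀ s ∈ R, cj s c = c := by
    rw [h5]
    exact hdinv
  refine ⟨h6, ?_⟩
  rw [os_self h6] at h2
  exact h2

theorem step (idl : IdlStmt) (hF : GoodF ℓ F) (hP : IsPGroup ℓ P) (hi : Pm P i)
    (hbr : br P i ≠ 0) {Q : Subgroup G} (hQP : Q < P)
    (ih : ∀ S, Q < S → S ≤ P → ∃ c, Tt i S c) : ∃ c, Tt i Q c := by
  obtain ⟨b₀, hb₀⟩ := ih _ (grow' hP hQP) inf_le_left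
  obtain ⟨c, hc, hne⟩ := exists_bx_one (Subgroup.centralizer (Q : Set G)) (br_i_ne hbr hQP.le)
  obtain ⟨h1, h2⟩ := step1 idl hF hP hi hbr hQP ih hb₀ hc hne
  refine ⟨c, hc, ?_⟩
  rw [comm_br hc.ix]
  apply all_of_unique hc
  intro d hd hdne
  obtain ⟨h3, h4⟩ := step1 idl hF hP hi hbr hQP ih hb₀ hd hdne
  rcases hd.dich hc with h | h
  · exact h
  · exfalso
    have h5 := br_mulF H74.orb hF (hP.to_le inf_le_left) h3 h1
    rw [h, T2.H32.br_zero] at h5
    apply hb₀.1.ne
    rw [← h4]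
    conv_lhs => rw [← h2]
    rw [← mulF_assoc, ← h5, mulF_zero_left]

theorem key (idl : IdlStmt) (hF : GoodF ℓ F) (hP : IsPGroup ℓ P) (hi : Pm P i)
    (hbr : br P i ≠ 0) : ∀ Q : Subgroup G, Q ≤ P → ∃ c, Tt i Q c := by
  intro Q
  induction Q using WellFoundedGT.induction with
  | ind Q ih =>
    intro hQ
    rcases eq_or_lt_of_le hQ with h | h
    · rw [h]
      exact top_case idl hF hP hi hbr
    · exact step idl hF hP hi hbr h (fun S h1 h2 => ih S h1 h2)

end fixed

end unb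

/-- UNB -/
theorem unb (idl : IdlStmt) : UnbStmt := by
  intro ℓ _ F _ hF G _ _ P hP i hi hbr
  have h := key idl hF hP hi hbr
  choose! β hβ using h
  refine ⟨β, ⟨fun Q hQ => (hβ Q hQ).1, ?_, ?_⟩, fun Q hQ => (hβ Q hQ).2⟩
  · intro Q S hQS hSP hSN
    exact (compat hF hP hi hbr hQS hSP hSN (hβ Q (hQS.trans hSP)) (hβ S hSP)).1
  · intro Q S hQS hSP hSN
    exact (compat hF hP hi hbr hQS hSP hSN (hβ Q (hQS.trans hSP)) (hβ S hSP)).2

end Pool.Agent.PP.T10.H17
end
end -- Pool.Agent.Helper17_AT10.UNB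

section -- Pool.Agent.Helper25_AT10.IDL

/-!
# Squad AT10, row IDL: the algebra of a primitive idempotent is local
-/

open scoped BigOperators

noncomputable section

namespace Pool.Agent.PP.T10.H25

open Pool.Agent.Helper51_AWC Pool.Agent.Helper79_WRA Pool.Agent.PP Pool.Agent.PP.KF
open Pool.Agent.PP.K9 Pool.Agent.PP.K9.H97 Pool.Agent.PP.H75 Pool.Agent.PP.T3 Pool.Agent.PP.T2
open Pool.Agent.PP.T5 Pool.Agent.PP.TB
open Pool.Agent.PP.T8 (rs pw fv rd Ip Rv)
open Pool.Agent.PP.T8.H25 (pw_zero pw_succ pw_add)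

attribute [local instance] Ideal.Quotient.field

section

variable {F G : Type} [Field F] [Group G] [Finite G]

/-- `a` is invariant under `P` -/
def Iv (P : Subgroup G) (a : G → F) : Prop := ∀ v ∈ P, ∀ g, a (v * g * v⁻¹) = a g

omit [Field F] [Finite G] in
theorem iv_iff (P : Subgroup G) (a : G → F) : Iv P a ↔ ∀ v ∈ P, cj v⁻¹ a = a := by
  constructor
  · intro h v hv
    funext g
    have := h v hv g
    change a (v⁻¹⁻¹ * g * v⁻¹) = a g
    rwa [inv_inv]
  · intro h v hv g
    have := congrFun (h v hv) g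
    change a (v⁻¹⁻¹ * g * v⁻¹) = a g at this
    rwa [inv_inv] at this

theorem iv_mul {P : Subgroup G} {a b : G → F} (ha : Iv P a) (hb : Iv P b) : Iv P (mulF a b) := by
  rw [iv_iff] at ha hb ⊢
  intro v hv
  rw [cj_mulF, ha v hv, hb v hv]

theorem iv_pw {P : Subgroup G} {x : G → F} (hx : Iv P x) (n : ℕ) : Iv P (pw x n) := by
  induction n with
  | zero =>
    intro v hv g
    change dl F (1 : G) (v * g * v⁻¹) = dl F (1 : G) g
    unfold dl
    by_cases h : g = 1
    · subst h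
      simp
    · rw [if_neg h, if_neg]
      intro h1
      apply h
      have h2 : v * g = v := by
        rw [mul_inv_eq_one] at h1
        exact h1
      exact mul_eq_left.1 h2
  | succ n ih => exact iv_mul hx ih

theorem pw_one (x : G → F) : pw x 1 = x := by
  rw [pw_succ, pw_zero, H46.mulF_one]

theorem pw_succ' (x : G → F) (n : ℕ) : pw x (n + 1) = mulF (pw x n) x := by
  rw [← pw_add, pw_one]

end

theorem idl (idp : T8.IdpStmt) : IdlStmt := by
  intro ℓ F _ hF G _ _ P i hi x hx hix hxi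
  obtain ⟨n, hn, he⟩ := idp ℓ F hF G x
  obtain ⟨m, rfl⟩ : ∃ m, n = m + 1 := ⟨n - 1, by omega⟩
  have hiv : Iv P (pw x (m + 1)) := iv_pw hx _
  have h1 : mulF i (pw x (m + 1)) = pw x (m + 1) := by
    rw [pw_succ, ← mulF_assoc, hix]
  have h2 : mulF (pw x (m + 1)) i = pw x (m + 1) := by
    rw [pw_succ', mulF_assoc, hxi]
  rcases hi.pr _ he hiv h1 h2 with h | h
  · exact Or.inl ⟨m + 1, hn, h⟩
  · right
    refine ⟨mulF i (mulF (pw x m) i), iv_mul hi.iv (iv_mul (iv_pw hx _) hi.iv), ?_, ?_, ?_, ?_⟩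
    · rw [← mulF_assoc, hi.id]
    · rw [mulF_assoc, mulF_assoc, hi.id]
    · rw [← mulF_assoc, hxi, ← mulF_assoc, ← pw_succ, h, hi.id]
    · rw [mulF_assoc, mulF_assoc, hix, ← pw_succ', h, hi.id]

end Pool.Agent.PP.T10.H25
end
end -- Pool.Agent.Helper25_AT10.IDL

section -- Pool.Agent.Helper31_AT10.GRI

/-! Squad AT10, row GRI: the induction step of Green's theorem. -/

set_option autoImplicit false

open scoped BigOperators

noncomputable section

namespace Pool.Agent.PP.T10.H31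

open Pool.Agent.Helper51_AWC Pool.Agent.Helper79_WRA Pool.Agent.PP Pool.Agent.PP.KF
open Pool.Agent.PP.K9 Pool.Agent.PP.K9.H97 Pool.Agent.PP.H75 Pool.Agent.PP.T3 Pool.Agent.PP.T2
open Pool.Agent.PP.T5 Pool.Agent.PP.TB
open Pool.Agent.PP.T8 (rs pw fv rd Ip Rv)

attribute [local instance] Ideal.Quotient.field

section grp

variable {G : Type} [Group G] [Finite G]

/-- a subgroup of index `ℓ` of an `ℓ`-group is normal -/
theorem norm_of_index {ℓ : ℕ} (hp : ℓ.Prime) {P Q : Subgroup G} (hP : IsPGroup ℓ P)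
    (hix : Q.relIndex P = ℓ) : (Q.subgroupOf P).Normal := by
  haveI : Fact ℓ.Prime := ⟨hp⟩
  apply Subgroup.normal_of_index_eq_minFac_card
  have h1 : (Q.subgroupOf P).index = ℓ := hix
  obtain ⟨n, hn⟩ := hP.exists_card_eq
  have h2 : ℓ ∣ Nat.card P := by
    rw [← h1]
    exact Subgroup.index_dvd_card _
  have hn0 : n ≠ 0 := by
    rintro rfl
    rw [hn, pow_zero] at h2
    exact hp.one_lt.ne' (Nat.dvd_one.1 h2)
  rw [h1, hn, Nat.Prime.pow_minFac hp hn0]

theorem conj_mem {ℓ : ℕ} (hp : ℓ.Prime) {P Q : Subgroup G} (hP : IsPGroup ℓ P) (hQP : Q ≤ P)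
    (hix : Q.relIndex P = ℓ) {w v : G} (hw : w ∈ P) (hv : v ∈ Q) : w * v * w⁻¹ ∈ Q := by
  have h1 := (norm_of_index hp hP hix).conj_mem ⟨v, hQP hv⟩ (Subgroup.mem_subgroupOf.2 hv) ⟨w, hw⟩
  rw [Subgroup.mem_subgroupOf] at h1
  exact h1

theorem gg1 (w v : G) : w * (w⁻¹ * v * w) * w⁻¹ = v := by group

theorem gg2 (w v : G) : w⁻¹ * (w * v * w⁻¹) * w = v := by group

/-- the powers of an element outside `Q` represent `P/Q` -/
theorem pow_sum {ℓ : ℕ} (hp : ℓ.Prime) {P Q : Subgroup G} (hP : IsPGroup ℓ P)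
    (hix : Q.relIndex P = ℓ) {A : Type} [AddCommMonoid A] (f : G → A)
    (hf : ∀ w ∈ P, ∀ v ∈ Q, f (w * v) = f w) [Fintype (P ⧸ Q.subgroupOf P)] {u : G} (hu : u ∈ P)
    (huQ : u ∉ Q) : ∑ k ∈ Finset.range ℓ, f (u ^ k) =
      ∑ x : P ⧸ Q.subgroupOf P, f ((x.out : P) : G) := by
  classical
  haveI := norm_of_index hp hP hix
  haveI : Fact ℓ.Prime := ⟨hp⟩
  have hcard : Nat.card (P ⧸ Q.subgroupOf P) = ℓ := hix
  obtain ⟨x, hx⟩ : ∃ x : P ⧸ Q.subgroupOf P, x = QuotientGroup.mk (⟨u, hu⟩ : P) := ⟨_, rfl⟩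
  have hx1 : x ≠ 1 := by
    intro h
    rw [hx, QuotientGroup.eq_one_iff, Subgroup.mem_subgroupOf] at h
    exact huQ h
  have hgen : ∀ y : P ⧸ Q.subgroupOf P, y ∈ Subgroup.zpowers x := fun y =>
    mem_zpowers_of_prime_card hcard hx1
  have h1 : Finset.image (fun i => x ^ i) (Finset.range ℓ) = Finset.univ := by
    have := IsCyclic.image_range_card (a := x) hgen
    rwa [hcard] at this
  have hord : orderOf x = ℓ := by
    rw [orderOf_eq_card_of_forall_mem_zpowers hgen, hcard]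
  have h2 : ∀ k, f (u ^ k) = f (((x ^ k).out : P) : G) := by
    intro k
    have h3 : QuotientGroup.mk ((x ^ k).out : P) =
        (QuotientGroup.mk ((⟨u, hu⟩ : P) ^ k) : P ⧸ Q.subgroupOf P) := by
      rw [QuotientGroup.out_eq', QuotientGroup.mk_pow, hx]
    have h4 := QuotientGroup.eq.1 h3.symm
    rw [Subgroup.mem_subgroupOf] at h4
    have h5 : (((x ^ k).out : P) : G) = u ^ k *
        ((((⟨u, hu⟩ : P) ^ k)⁻¹ * (x ^ k).out : P) : G) := by
      rw [Subgroup.coe_mul, Subgroup.coe_inv, Subgroup.coe_pow]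
      group
    rw [h5, hf _ (Subgroup.pow_mem _ hu _) _ h4]
  rw [Finset.sum_congr rfl fun k _ => h2 k, ← h1, Finset.sum_image]
  intro k hk m hm h
  rw [Finset.coe_range, Set.mem_Iio] at hk hm
  exact pow_injOn_Iio_orderOf (by rw [Set.mem_Iio, hord]; exact hk)
    (by rw [Set.mem_Iio, hord]; exact hm) h

/-- the restriction of a virtual character -/
theorem res_ZI {P Q : Subgroup G} (hQP : Q ≤ P) {κ : P → ℂ} (hκ : κ ∈ ZI P) :
    (fun v : Q => κ (Subgroup.inclusion hQP v)) ∈ ZI Q := by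
  unfold ZI at hκ
  induction hκ using AddSubgroup.closure_induction with
  | mem χ hχ =>
    obtain ⟨n, ρ, hρ, rfl⟩ := hχ
    exact T5.H32.char_mem_ZI (ρ.comp (Subgroup.inclusion hQP))
  | zero => exact AddSubgroup.zero_mem _
  | add f g _ _ hf hg => exact AddSubgroup.add_mem _ hf hg
  | neg f _ hf => exact AddSubgroup.neg_mem _ hf

end grp

theorem natl {ℓ : ℕ} {M : Ideal (integralClosure ℤ ℂ)} [M.IsMaximal]
    (hM : (ℓ : integralClosure ℤ ℂ) ∈ M) : ((ℓ : ℕ) : FF M) = 0 := by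
  have h1 : ((ℓ : ℕ) : FF M) = Ideal.Quotient.mk M (ℓ : integralClosure ℤ ℂ) :=
    (map_natCast (Ideal.Quotient.mk M) ℓ).symm
  rw [h1]
  exact Ideal.Quotient.eq_zero_iff_mem.2 hM

theorem el_of {G : Type} [Group G] {ℓ : ℕ} {P : Subgroup G} (hP : IsPGroup ℓ P) {v : G}
    (hv : v ∈ P) : El ℓ v := by
  obtain ⟨n, hn⟩ := hP ⟨v, hv⟩
  refine ⟨n, ?_⟩
  have h := congrArg (fun x : P => (x : G)) hn
  simpa using h

/-- GRI -/
theorem gri (tvs : TvsStmt) (fia : FiaStmt) (fic : FicStmt) : GriStmt := by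
  intro ℓ hfact M _ hM G _ _ ι _ c β hβ χ hχ P Q u j i hP hi hT hjj horth hCf
  classical
  have hp : ℓ.Prime := Fact.out
  have := Fintype.ofFinite P
  have := Fintype.ofFinite Q
  have := Fintype.ofFinite (P ⧸ Q.subgroupOf P)
  have hQP := hT.le
  have hcl : ∀ x y, χ (y * x * y⁻¹) = χ x := fun x y => irr_conj hχ x y
  have hfi0 : ∀ v, El ℓ v → fi M c β (0 : G → FF M) χ v = 0 := by
    intro v hv
    unfold fi
    have h1 : ∀ k, c k * tv M v (mulF (rs (Cu v) (0 : G → FF M)) (β k v)) χ = 0 := by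
      intro k
      have h2 : rs (Cu v) (0 : G → FF M) = 0 := by
        funext x
        unfold rs
        simp
      rw [h2, H20.zero_mulF, (tvs ℓ M hM G v hv).2.2 χ hcl, mul_zero]
    rw [finsum_congr h1, finsum_zero]
  -- conjugates of `j`
  have hcj : ∀ w ∈ P, ∀ v ∈ Q, cj (w * v) j = cj w j := by
    intro w _ v hv
    rw [← cj_cj]
    congr 1
    exact (cj_eq_iff v j).2 (hT.iv v hv)
  have hcjv : ∀ w ∈ P, ∀ v ∈ Q, ∀ x, (cj w j) (v * x * v⁻¹) = (cj w j) x := by
    intro w hw v hv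
    rw [← cj_eq_iff, cj_cj]
    have h1 : v * w = w * (w⁻¹ * v * w⁻¹⁻¹) := by group
    rw [h1]
    exact hcj w hw _ (conj_mem hp hP hQP hT.ix (P.inv_mem hw) hv)
  have hcji : ∀ w, mulF (cj w j) (cj w j) = cj w j := by
    intro w
    rw [← cj_mulF, hjj]
  -- outside `Q`
  have hout : ∀ v ∈ P, v ∉ Q → fi M c β i χ v = 0 := by
    intro v hv hvQ
    have hrs : rs (Cu v) i = 0 := by
      funext g
      unfold rs
      by_cases hg : g ∈ Cu v
      · rw [if_pos hg]
        have hgv : g * v = v * g := Subgroup.mem_centralizer_singleton_iff.1 hg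
        have hf : ∀ w ∈ P, ∀ q ∈ Q, (fun w => (cj w j) g) (w * q) = (fun w => (cj w j) g) w := by
          intro w hw q hq
          show (cj (w * q) j) g = (cj w j) g
          rw [hcj w hw q hq]
        have h1 := pow_sum hp hP hT.ix (fun w => (cj w j) g) hf hT.mem hT.nm
        have h2 := pow_sum hp hP hT.ix (fun w => (cj w j) g) hf hv hvQ
        have h3 : i g = ∑ k ∈ Finset.range ℓ, (cj (u ^ k) j) g := by
          rw [← hT.tr, Finset.sum_apply]
        have h4 : ∀ k ∈ Finset.range ℓ, (cj (v ^ k) j) g = j g := by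
          intro k _
          unfold cj
          congr 1
          have h5 : g * v ^ k = v ^ k * g := (show Commute g v from hgv).pow_right k
          rw [mul_assoc, h5, inv_mul_cancel_left]
        rw [h3]
        refine h1.trans (h2.symm.trans ?_)
        show ∑ k ∈ Finset.range ℓ, (cj (v ^ k) j) g = (0 : G → FF M) g
        rw [Finset.sum_congr rfl h4, Finset.sum_const, Finset.card_range, nsmul_eq_mul,
          natl hM, zero_mul]
        rfl
      · rw [if_neg hg]
        rfl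
    unfold fi
    have h1 : ∀ k, c k * tv M v (mulF (rs (Cu v) i) (β k v)) χ = 0 := by
      intro k
      rw [hrs, H20.zero_mulF, (tvs ℓ M hM G v (el_of hP hv)).2.2 χ hcl, mul_zero]
    rw [finsum_congr h1, finsum_zero]
  -- inside `Q`
  have hpart : ∀ v ∈ Q, ∀ n ≤ ℓ,
      (mulF (∑ k ∈ Finset.range n, cj (u ^ k) j) (∑ k ∈ Finset.range n, cj (u ^ k) j) =
        ∑ k ∈ Finset.range n, cj (u ^ k) j) ∧
      (∀ x, (∑ k ∈ Finset.range n, cj (u ^ k) j) (v * x * v⁻¹) =
        (∑ k ∈ Finset.range n, cj (u ^ k) j) x) ∧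
      (∀ m, n ≤ m → m < ℓ → mulF (∑ k ∈ Finset.range n, cj (u ^ k) j) (cj (u ^ m) j) = 0 ∧
        mulF (cj (u ^ m) j) (∑ k ∈ Finset.range n, cj (u ^ k) j) = 0) ∧
      fi M c β (∑ k ∈ Finset.range n, cj (u ^ k) j) χ v =
        ∑ k ∈ Finset.range n, fi M c β (cj (u ^ k) j) χ v := by
    intro v hv n
    induction n with
    | zero =>
      intro _
      refine ⟨?_, ?_, ?_, ?_⟩
      · rw [Finset.sum_range_zero, H20.zero_mulF]
      · intro x
        rw [Finset.sum_range_zero]
        rfl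
      · intro m _ _
        rw [Finset.sum_range_zero, H20.zero_mulF, H20.mulF_zero]
        exact ⟨rfl, rfl⟩
      · rw [Finset.sum_range_zero, Finset.sum_range_zero]
        exact hfi0 v (el_of hP (hQP hv))
    | succ n ih =>
      intro hn
      obtain ⟨i1, i2, i3, i4⟩ := ih (by omega)
      obtain ⟨o1, o2⟩ := i3 n le_rfl (by omega)
      have huP : ∀ k, u ^ k ∈ P := fun k => Subgroup.pow_mem _ hT.mem k
      refine ⟨?_, ?_, ?_, ?_⟩
      · rw [Finset.sum_range_succ, H20.add_mulF, H20.mulF_add, H20.mulF_add, i1, o1, o2, hcji,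
          add_zero, zero_add]
      · intro x
        rw [Finset.sum_range_succ, Pi.add_apply, Pi.add_apply, i2 x,
          hcjv (u ^ n) (huP n) v hv x]
      · intro m hm hml
        obtain ⟨o3, o4⟩ := i3 m (by omega) hml
        rw [Finset.sum_range_succ, H20.add_mulF, H20.mulF_add, o3, o4,
          horth n m (by omega) hml (by omega), horth m n hml (by omega) (by omega), add_zero]
        exact ⟨rfl, rfl⟩
      · rw [Finset.sum_range_succ, Finset.sum_range_succ, ← i4]
        exact fia ℓ M hM G ι c β hβ χ hχ v (el_of hP (hQP hv)) _ _ i1 (hcji _) o1 o2 i2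
          (hcjv (u ^ n) (huP n) v hv)
  have hin : ∀ v ∈ Q, fi M c β i χ v =
      ∑ k ∈ Finset.range ℓ, fi M c β j χ ((u ^ k)⁻¹ * v * u ^ k) := by
    intro v hv
    have h1 := (hpart v hv ℓ le_rfl).2.2.2
    rw [hT.tr] at h1
    rw [h1]
    refine Finset.sum_congr rfl fun k _ => ?_
    have huP : u ^ k ∈ P := Subgroup.pow_mem _ hT.mem k
    have h2 : (u ^ k)⁻¹ * v * u ^ k ∈ Q := by
      have h3 := conj_mem hp hP hQP hT.ix (P.inv_mem huP) hv
      rwa [inv_inv] at h3
    have h4 := fic ℓ M hM G ι c β hβ χ hχ ((u ^ k)⁻¹ * v * u ^ k) (u ^ k)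
      (el_of hP (hQP h2)) j hjj (hT.iv _ h2)
    have h5 : u ^ k * ((u ^ k)⁻¹ * v * u ^ k) * (u ^ k)⁻¹ = v := gg1 _ _
    rw [h5] at h4
    exact h4
  -- the sum
  intro κ hκ
  have hκcl := K9.H25.zi_cl hκ
  have hS := hCf _ (res_ZI hQP hκ)
  rw [finsum_eq_sum_of_fintype] at hS ⊢
  have hsum : ∑ v : P, fi M c β i χ v * κ v =
      (ℓ : ℂ) * ∑ v : Q, fi M c β j χ v * κ (Subgroup.inclusion hQP v) := by
    have e1 : ∑ v : P, fi M c β i χ v * κ v =
        ∑ v : Q, fi M c β i χ v * κ (Subgroup.inclusion hQP v) := by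
      symm
      refine Finset.sum_of_injOn (Subgroup.inclusion hQP)
        ((Subgroup.inclusion_injective hQP).injOn) (fun _ _ => Finset.mem_coe.2
          (Finset.mem_univ _)) ?_ ?_
      · intro v _ hv
        have hvQ : (v : G) ∉ Q := by
          intro h
          apply hv
          exact ⟨⟨v, h⟩, Finset.mem_coe.2 (Finset.mem_univ _), Subtype.ext rfl⟩
        rw [hout v v.2 hvQ, zero_mul]
      · intro v _
        rfl
    have e2 : ∀ k ∈ Finset.range ℓ, ∑ v : Q, fi M c β j χ ((u ^ k)⁻¹ * (v : G) * u ^ k) *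
        κ (Subgroup.inclusion hQP v) =
        ∑ v : Q, fi M c β j χ v * κ (Subgroup.inclusion hQP v) := by
      intro k _
      have huP : u ^ k ∈ P := Subgroup.pow_mem _ hT.mem k
      let E : Q ≃ Q :=
        { toFun := fun v => ⟨(u ^ k)⁻¹ * (v : G) * u ^ k, by
            have h3 := conj_mem hp hP hQP hT.ix (P.inv_mem huP) v.2
            rwa [inv_inv] at h3⟩
          invFun := fun v => ⟨u ^ k * (v : G) * (u ^ k)⁻¹,
            conj_mem hp hP hQP hT.ix huP v.2⟩
          left_inv := fun v => Subtype.ext (gg1 (u ^ k) v)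
          right_inv := fun v => Subtype.ext (gg2 (u ^ k) v) }
      refine Fintype.sum_equiv E _ _ fun v => ?_
      have h6 : κ (Subgroup.inclusion hQP (E v)) = κ (Subgroup.inclusion hQP v) := by
        rw [← hκcl (Subgroup.inclusion hQP v) ⟨(u ^ k)⁻¹, P.inv_mem huP⟩]
        congr 1
        apply Subtype.ext
        show (u ^ k)⁻¹ * (v : G) * u ^ k = (u ^ k)⁻¹ * (v : G) * ((u ^ k)⁻¹)⁻¹
        rw [inv_inv]
      rw [h6]
      rfl
    rw [e1]
    have e3 : ∑ v : Q, fi M c β i χ v * κ (Subgroup.inclusion hQP v) =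
        ∑ v : Q, ∑ k ∈ Finset.range ℓ, fi M c β j χ ((u ^ k)⁻¹ * (v : G) * u ^ k) *
          κ (Subgroup.inclusion hQP v) := by
      refine Finset.sum_congr rfl fun v _ => ?_
      rw [hin v v.2, Finset.sum_mul]
    rw [e3, Finset.sum_comm, Finset.sum_congr rfl e2, Finset.sum_const, Finset.card_range,
      nsmul_eq_mul]
  have hcard : (Nat.card P : ℂ) = ℓ * Nat.card Q := by
    have h1 := Subgroup.relIndex_mul_relIndex (⊥ : Subgroup G) Q P bot_le hQP
    rw [hT.ix, Subgroup.relIndex_bot_left, Subgroup.relIndex_bot_left] at h1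
    rw [← h1]
    push_cast
    ring
  have hl0 : (ℓ : ℂ) ≠ 0 := by exact_mod_cast hp.ne_zero
  rw [hsum, hcard, mul_inv, mul_comm (ℓ : ℂ)⁻¹, mul_assoc, inv_mul_cancel_left₀ hl0]
  exact hS

end Pool.Agent.PP.T10.H31
end
end -- Pool.Agent.Helper31_AT10.GRI

section -- Pool.Agent.Helper69_AT10.Core

/-!
# AT10, row GRN: the algebra
-/

set_option autoImplicit false

noncomputable section

namespace Pool.Agent.PP.T10.H69

open Polynomial

section core

variable {F R : Type*} [Field F] [Ring R] [Algebra F R]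

theorem w_pow {ℓ m : ℕ} [Fact ℓ.Prime] [CharP R ℓ] {y : R} {b : F} (hy : y ^ ℓ ^ m = y)
    (hb : b ^ ℓ ^ m = b) :
    (y - algebraMap F R b) ^ ℓ ^ m = y - algebraMap F R b := by
  rw [sub_pow_char_pow_of_commute _ _ (Algebra.commutes b y).symm, hy, ← map_pow, hb]

theorem pow_idem {q : ℕ} (hq : 2 ≤ q) {w : R} (hw : w ^ q = w) :
    w ^ (q - 1) * w ^ (q - 1) = w ^ (q - 1) := by
  have h1 : w ^ (q - 1) * w ^ (q - 1) = w ^ q * w ^ (q - 2) := by
    rw [← pow_add, ← pow_add]
    congr 1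
    omega
  rw [h1, hw, ← pow_succ']
  congr 1
  omega

/-- some `β` has a nonzero idempotent -/
theorem exists_ne [IsAlgClosed F] {q : ℕ} (hq : 2 ≤ q) {i y : R} (hi0 : i ≠ 0) (hy : y ^ q = y) :
    ∃ b : F, b ^ q = b ∧ i * (1 - (y - algebraMap F R b) ^ (q - 1)) ≠ 0 := by
  by_contra hc
  have h0 : ∀ b : F, b ^ q = b → i * (y - algebraMap F R b) ^ (q - 1) = i := by
    intro b hb
    by_contra h1
    apply hc
    refine ⟨b, hb, fun h2 => h1 ?_⟩
    rw [mul_sub, mul_one, sub_eq_zero] at h2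
    exact h2.symm
  have key : ∀ s : Multiset F, (∀ b ∈ s, b ^ q = b) →
      i * aeval y ((s.map fun b => X - C b).prod) ^ (q - 1) = i := by
    intro s
    induction s using Multiset.induction_on with
    | empty =>
      intro _
      rw [Multiset.map_zero, Multiset.prod_zero, map_one, one_pow, mul_one]
    | cons a s ih =>
      intro hs
      rw [Multiset.map_cons, Multiset.prod_cons, map_mul]
      have h1 : aeval y (X - C a) = y - algebraMap F R a := by
        rw [map_sub, aeval_X, aeval_C]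
      have hcom : Commute (aeval y (X - C a)) (aeval y ((s.map fun b => X - C b).prod)) := by
        unfold Commute SemiconjBy
        rw [← map_mul, ← map_mul, mul_comm]
      rw [hcom.mul_pow, ← mul_assoc, h1, h0 a (hs a (Multiset.mem_cons_self a s))]
      exact ih fun b hb => hs b (Multiset.mem_cons_of_mem hb)
  have hdeg : (X ^ q - X : F[X]).Monic := by
    refine monic_X_pow_sub ?_
    rw [degree_X]
    exact_mod_cast (by omega : 1 < q)
  have hsp : (X ^ q - X : F[X]) = ((X ^ q - X : F[X]).roots.map fun b => X - C b).prod :=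
    (IsAlgClosed.splits (X ^ q - X : F[X])).eq_prod_roots_of_monic hdeg
  have h2 := key (X ^ q - X : F[X]).roots fun b hb => by
    have h3 := (mem_roots'.1 hb).2
    rw [IsRoot.def, eval_sub, eval_pow, eval_X, sub_eq_zero] at h3
    exact h3
  rw [← hsp, map_sub, map_pow, aeval_X, hy, sub_self, zero_pow (by omega), mul_zero] at h2
  exact hi0 h2.symm

/-- The algebra in Green's theorem. -/
theorem core [IsAlgClosed F] {ℓ : ℕ} [Fact ℓ.Prime] [CharP F ℓ] [CharP R ℓ] (α : R →ₐ[F] R)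
    {i x : R} (hi : i * i = i) (hi0 : i ≠ 0) (hαi : α i = i) (hix : i * x = x) (hxi : x * i = x)
    (hαx : α x = x + i) {n m : ℕ} (hm : 0 < m) (hx : x ^ ℓ ^ (n + m) = x ^ ℓ ^ n) :
    ∃ j : R, j ≠ 0 ∧ j * j = j ∧ i * j = j ∧ j * i = j ∧ (α ^ ℓ) j = j ∧
      (∀ φ : R →ₐ[F] R, φ i = i → φ x = x → φ j = j) ∧
      ∀ k m : ℕ, k < ℓ → m < ℓ → k ≠ m → (α ^ k) j * (α ^ m) j = 0 := by
  have hℓ : ℓ.Prime := Fact.out
  have hipow : ∀ k : ℕ, 0 < k → i ^ k = i := by
    intro k hk
    induction k with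
    | zero => omega
    | succ k ih =>
      rcases Nat.eq_zero_or_pos k with h | h
      · rw [h, zero_add, pow_one]
      · rw [pow_succ, ih h, hi]
  set y := x ^ ℓ ^ n with hydef
  have hpos : 0 < ℓ ^ n := pow_pos hℓ.pos n
  have hyq : y ^ ℓ ^ m = y := by
    rw [hydef, ← pow_mul, ← pow_add, hx]
  have hq : 2 ≤ ℓ ^ m := by
    calc 2 ≤ ℓ := hℓ.two_le
      _ = ℓ ^ 1 := (pow_one ℓ).symm
      _ ≤ ℓ ^ m := Nat.pow_le_pow_right hℓ.pos hm
  have hcix : Commute i x := by
    unfold Commute SemiconjBy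
    rw [hix, hxi]
  have hciy : Commute i y := hcix.pow_right _
  have hiy : i * y = y := by
    obtain ⟨k, hk⟩ := Nat.exists_eq_succ_of_ne_zero hpos.ne'
    rw [hydef, hk, pow_succ', ← mul_assoc, hix]
  have hyi : y * i = y := by rw [← hciy.eq, hiy]
  have hαy : α y = y + i := by
    rw [hydef, map_pow, hαx, add_pow_char_pow_of_commute _ _ hcix.symm, hipow _ hpos]
  obtain ⟨b, hb, hne⟩ := exists_ne (F := F) hq hi0 hyq
  set w := y - algebraMap F R b with hw
  have hwq : w ^ ℓ ^ m = w := w_pow hyq hb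
  set q := ℓ ^ m with hqdef
  set e := 1 - w ^ (q - 1) with he
  have hee : e * e = e := by
    have h1 := pow_idem hq hwq
    rw [he, mul_sub, sub_mul, sub_mul, one_mul, mul_one, one_mul, h1]
    abel
  have hciw : Commute i w := hciy.sub_right (Algebra.commutes b i).symm
  have hcie : Commute i e := (Commute.one_right i).sub_right (hciw.pow_right _)
  have hcyw : Commute y w := (Commute.refl y).sub_right (Algebra.commutes b y).symm
  have hcye : Commute y e := (Commute.one_right y).sub_right (hcyw.pow_right _)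
  have hwe : w * e = 0 := by
    have h1 : w * w ^ (q - 1) = w := by
      rw [← pow_succ']
      have : q - 1 + 1 = q := by omega
      rw [this, hwq]
    rw [he, mul_sub, mul_one, h1, sub_self]
  have hye : y * e = b • e := by
    have h1 : y = w + algebraMap F R b := by rw [hw]; abel
    calc y * e = (w + algebraMap F R b) * e := by rw [← h1]
      _ = w * e + algebraMap F R b * e := add_mul _ _ _
      _ = b • e := by rw [hwe, zero_add, Algebra.smul_def]
  set j := i * e with hj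
  have hij : i * j = j := by rw [hj, ← mul_assoc, hi]
  have hji : j * i = j := by rw [hj, mul_assoc, ← hcie.eq, ← mul_assoc, hi]
  have hjj : j * j = j := by
    calc j * j = j * i * e := by rw [hj, mul_assoc, mul_assoc, mul_assoc]
      _ = i * (e * e) := by rw [hji, hj, mul_assoc]
      _ = j := by rw [hee]
  have hyj : y * j = b • j := by
    rw [hj, ← mul_assoc, ← hciy.eq, mul_assoc, hye, mul_smul_comm]
  have hjy : j * y = b • j := by
    rw [hj, mul_assoc, ← hcye.eq, hye, mul_smul_comm]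
  have hφ : ∀ φ : R →ₐ[F] R, φ i = i → φ y = y → φ j = j := by
    intro φ h1 h2
    rw [hj, he, hw, map_mul, map_sub, map_one, map_pow, map_sub, AlgHom.commutes, h1, h2]
  have hki : ∀ k : ℕ, (α ^ k) i = i := by
    intro k
    induction k with
    | zero => rw [pow_zero, AlgHom.one_apply]
    | succ k ih => rw [pow_succ', AlgHom.mul_apply, ih, hαi]
  have hky : ∀ k : ℕ, (α ^ k) y = y + (k : F) • i := by
    intro k
    induction k with
    | zero => rw [pow_zero, AlgHom.one_apply, Nat.cast_zero, zero_smul, add_zero]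
    | succ k ih =>
      rw [pow_succ', AlgHom.mul_apply, ih, map_add, map_smul, hαi, hαy, Nat.cast_succ, add_smul,
        one_smul]
      abel
  have hkij : ∀ k : ℕ, i * (α ^ k) j = (α ^ k) j := by
    intro k
    have h1 := congrArg (α ^ k) hij
    rw [map_mul, hki] at h1
    exact h1
  have hkji : ∀ k : ℕ, (α ^ k) j * i = (α ^ k) j := by
    intro k
    have h1 := congrArg (α ^ k) hji
    rw [map_mul, hki] at h1
    exact h1
  have e1 : ∀ k : ℕ, y * (α ^ k) j = (b - (k : F)) • (α ^ k) j := by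
    intro k
    have h1 := congrArg (α ^ k) hyj
    rw [map_mul, hky, map_smul, add_mul, smul_mul_assoc, hkij] at h1
    rw [sub_smul, ← h1]
    abel
  have e2 : ∀ k : ℕ, (α ^ k) j * y = (b - (k : F)) • (α ^ k) j := by
    intro k
    have h1 := congrArg (α ^ k) hjy
    rw [map_mul, hky, map_smul, mul_add, mul_smul_comm, hkji] at h1
    rw [sub_smul, ← h1]
    abel
  refine ⟨j, hne, hjj, hij, hji, ?_, ?_, ?_⟩
  · refine hφ (α ^ ℓ) (hki ℓ) ?_
    rw [hky, CharP.cast_eq_zero, zero_smul, add_zero]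
  · intro φ h1 h2
    refine hφ φ h1 ?_
    rw [hydef, map_pow, h2]
  · intro k m' hk hm' hkm
    have h1 : (α ^ k) j * y * (α ^ m') j = (b - (k : F)) • ((α ^ k) j * (α ^ m') j) := by
      rw [e2, smul_mul_assoc]
    have h2 : (α ^ k) j * (y * (α ^ m') j) = (b - (m' : F)) • ((α ^ k) j * (α ^ m') j) := by
      rw [e1, mul_smul_comm]
    rw [mul_assoc, h2] at h1
    have h3 : ((m' : F) - (k : F)) • ((α ^ k) j * (α ^ m') j) = 0 := by
      have h4 : (m' : F) - (k : F) = (b - (k : F)) - (b - (m' : F)) := by ring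
      rw [h4, sub_smul, h1, sub_self]
    rcases smul_eq_zero.1 h3 with h4 | h4
    · exfalso
      rw [sub_eq_zero] at h4
      have h5 := (CharP.natCast_eq_natCast F ℓ).1 h4
      rw [Nat.ModEq, Nat.mod_eq_of_lt hm', Nat.mod_eq_of_lt hk] at h5
      exact hkm h5.symm
    · exact h4

end core

end Pool.Agent.PP.T10.H69
end
end -- Pool.Agent.Helper69_AT10.Core

section -- Pool.Agent.Helper69_AT10.GRN

/-!
# AT10, row GRN: Green's theorem with the polynomial `T ^ q - T`
-/

open scoped BigOperators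

set_option autoImplicit false

noncomputable section

namespace Pool.Agent.PP.T10.H69

open Pool.Agent.Helper51_AWC Pool.Agent.Helper79_WRA Pool.Agent.PP Pool.Agent.PP.KF
open Pool.Agent.PP.K9 Pool.Agent.PP.K9.H97 Pool.Agent.PP.H75 Pool.Agent.PP.T3 Pool.Agent.PP.T2
open Pool.Agent.PP.T5 Pool.Agent.PP.TB
open Pool.Agent.PP.T8 (rs pw fv rd Ip Rv)

section alg

variable {F G : Type} [Field F] [Group G] [Finite G]

/-- conjugation as an algebra homomorphism -/
def cA (g : G) : MonoidAlgebra F G →ₐ[F] MonoidAlgebra F G :=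
  AlgHom.ofLinearMap
    { toFun := fun x => ma (cj g (maL.symm x))
      map_add' := fun x y => by
        rw [map_add, ← ma_add]
        rfl
      map_smul' := fun c x => by
        rw [map_smul, RingHom.id_apply, ← ma_smul]
        rfl }
    (by
      have h1 : maL.symm (1 : MonoidAlgebra F G) = dl F (1 : G) := by
        rw [LinearEquiv.symm_apply_eq, maL_apply, ma_dl]
        rfl
      change ma (cj g (maL.symm (1 : MonoidAlgebra F G))) = 1
      rw [h1]
      have h2 : cj g (dl F (1 : G)) = dl F (1 : G) := by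
        funext x
        unfold cj dl
        by_cases hx : x = 1
        · subst hx
          rw [mul_one, inv_mul_cancel]
        · have h3 : ¬ g⁻¹ * x * g = 1 := by
            intro h3
            apply hx
            have h4 : x = g * (g⁻¹ * x * g) * g⁻¹ := by group
            rw [h4, h3, mul_one, mul_inv_cancel]
          rw [if_neg hx, if_neg h3]
      rw [h2, ma_dl]
      rfl)
    (fun x y => by
      change ma (cj g (maL.symm (x * y))) = ma (cj g (maL.symm x)) * ma (cj g (maL.symm y))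
      have h1 : maL.symm (x * y) = mulF (maL.symm x) (maL.symm y) := by
        rw [LinearEquiv.symm_apply_eq, maL_apply, ma_mul]
        rw [← maL_apply, ← maL_apply, LinearEquiv.apply_symm_apply, LinearEquiv.apply_symm_apply]
      rw [h1, cj_mulF, ma_mul])

theorem cA_ma (g : G) (a : G → F) : cA g (ma a) = ma (cj g a) := by
  change ma (cj g (maL.symm (maL a))) = _
  rw [LinearEquiv.symm_apply_apply]

theorem cA_pow (g : G) (a : G → F) (k : ℕ) : ((cA g : _ →ₐ[F] _) ^ k) (ma a) = ma (cj (g ^ k) a) := by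
  induction k with
  | zero => rw [pow_zero, pow_zero, AlgHom.one_apply, cj_one]
  | succ k ih => rw [pow_succ', pow_succ', AlgHom.mul_apply, ih, cA_ma, cj_cj]

theorem ma_pw (x : G → F) (n : ℕ) : ma (pw x n) = ma x ^ n := by
  induction n with
  | zero =>
    have h : pw x 0 = dl F (1 : G) := rfl
    rw [h, ma_dl, pow_zero]
    rfl
  | succ n ih =>
    have h : pw x (n + 1) = mulF x (pw x n) := rfl
    rw [h, ma_mul, ih, pow_succ']

theorem charP_ma {ℓ : ℕ} [CharP F ℓ] : CharP (MonoidAlgebra F G) ℓ :=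
  charP_of_injective_algebraMap (algebraMap F (MonoidAlgebra F G)).injective ℓ

end alg

section grp

variable {G : Type} [Group G] [Finite G]

/-- a subgroup of index `ℓ` of an `ℓ`-group is normal -/
theorem norm_of_index {ℓ : ℕ} [Fact ℓ.Prime] {P Q : Subgroup G} (hP : IsPGroup ℓ P) (hQ : Q ≤ P)
    (hix : Q.relIndex P = ℓ) {v g : G} (hv : v ∈ P) (hg : g ∈ Q) : v * g * v⁻¹ ∈ Q := by
  have hℓ : ℓ.Prime := Fact.out
  have h1 : (Q.subgroupOf P).index = ℓ := hix
  have h2 : (Nat.card P).minFac = ℓ := by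
    obtain ⟨n, hn⟩ := IsPGroup.iff_card.1 hP
    have h3 : n ≠ 0 := by
      rintro rfl
      rw [pow_zero] at hn
      have h4 : (Q.subgroupOf P).index ∣ Nat.card P := Subgroup.index_dvd_card _
      rw [h1, hn] at h4
      exact hℓ.one_lt.ne' (Nat.dvd_one.1 h4)
    rw [hn, hℓ.pow_minFac h3]
  have h3 : (Q.subgroupOf P).Normal := Subgroup.normal_of_index_eq_minFac_card (by rw [h1, h2])
  have h4 := h3.conj_mem ⟨g, hQ hg⟩ (by rw [Subgroup.mem_subgroupOf]; exact hg) ⟨v, hv⟩
  rw [Subgroup.mem_subgroupOf] at h4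
  exact h4

/-- `P` is generated by `Q` and `u` -/
theorem gen_of_index {ℓ : ℕ} [Fact ℓ.Prime] {P Q K : Subgroup G} (hQ : Q ≤ P)
    (hix : Q.relIndex P = ℓ) {u : G} (hu : u ∈ P) (hu' : u ∉ Q) (hK : Q ≤ K) (hKu : u ∈ K) :
    P ≤ K := by
  have hℓ : ℓ.Prime := Fact.out
  have h1 : Q.relIndex (K ⊓ P) * (K ⊓ P).relIndex P = Q.relIndex P :=
    Subgroup.relIndex_mul_relIndex Q (K ⊓ P) P (le_inf hK hQ) inf_le_right
  rw [hix] at h1
  have h2 : Q.relIndex (K ⊓ P) ≠ 1 := by
    intro h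
    rw [Subgroup.relIndex_eq_one] at h
    exact hu' (h ⟨hKu, hu⟩)
  have h3 : (K ⊓ P).relIndex P = 1 := by
    rcases (Nat.prime_mul_iff.1 (h1 ▸ hℓ)) with h | h
    · exact h.2
    · exact absurd h.2 h2
  rw [Subgroup.relIndex_eq_one] at h3
  exact h3.trans inf_le_left

end grp

theorem grn : GrnStmt := by
  intro ℓ _ F _ hF G _ _ P hP i hi Q u a hT
  have hℓ : ℓ.Prime := Fact.out
  have := hF.char
  have := hF.closed
  have : CharP (MonoidAlgebra F G) ℓ := charP_ma
  -- invariance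
  have hcji : ∀ v ∈ P, cj v i = i := fun v hv => (cj_eq_iff v i).2 (hi.iv v hv)
  have hcja : ∀ v ∈ Q, cj v a = a := fun v hv => (cj_eq_iff v a).2 (hT.iv v hv)
  have hnorm : ∀ v ∈ P, ∀ g ∈ Q, v * g * v⁻¹ ∈ Q := fun v hv g hg =>
    norm_of_index hP hT.le hT.ix hv hg
  have hupow : ∀ k : ℕ, u ^ k ∈ P := fun k => P.pow_mem hT.mem k
  have hul : u ^ ℓ ∈ Q := by
    have h3 : (Q.subgroupOf P).Normal := ⟨fun n hn g => by
      rw [Subgroup.mem_subgroupOf] at hn ⊢
      exact hnorm g g.2 n hn⟩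
    have h4 := Subgroup.pow_index_mem (Q.subgroupOf P) ⟨u, hT.mem⟩
    have h5 : (Q.subgroupOf P).index = ℓ := hT.ix
    rw [h5, Subgroup.mem_subgroupOf] at h4
    exact h4
  have hinvpow : ∀ (b : G → F), (∀ v ∈ Q, cj v b = b) → ∀ (k : ℕ) (v : G), v ∈ Q →
      cj v (cj (u ^ k) b) = cj (u ^ k) b := by
    intro b hb k v hv
    have h1 : v * u ^ k = u ^ k * ((u ^ k)⁻¹ * v * ((u ^ k)⁻¹)⁻¹) := by group
    rw [cj_cj, h1, ← cj_cj, hb _ (hnorm _ (P.inv_mem (hupow k)) v hv)]
  -- the element `x`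
  set x : G → F := - ∑ k ∈ Finset.range ℓ, (k : F) • cj (u ^ k) a with hx
  have hmx : ma x = - ∑ k ∈ Finset.range ℓ, (k : F) • ma (cj (u ^ k) a) := by
    have h1 : ma x + ma (∑ k ∈ Finset.range ℓ, (k : F) • cj (u ^ k) a) = 0 := by
      rw [← ma_add, hx, neg_add_cancel, ma_zero]
    rw [eq_neg_of_add_eq_zero_left h1, ma_sum]
    simp only [ma_smul]
  have hmi : ma i * ma i = ma i := by rw [← ma_mul, hi.id]
  have hia : ma i * ma a = ma a := by rw [← ma_mul, hT.lm]
  have hai : ma a * ma i = ma a := by rw [← ma_mul, hT.rm]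
  have hci : ∀ v ∈ P, cA v (ma i) = ma i := fun v hv => by rw [cA_ma, hcji v hv]
  have hia' : ∀ k : ℕ, ma i * ma (cj (u ^ k) a) = ma (cj (u ^ k) a) := fun k => by
    have h1 := congrArg (cA (u ^ k)) hia
    rw [map_mul, hci _ (hupow k), cA_ma] at h1
    exact h1
  have hai' : ∀ k : ℕ, ma (cj (u ^ k) a) * ma i = ma (cj (u ^ k) a) := fun k => by
    have h1 := congrArg (cA (u ^ k)) hai
    rw [map_mul, hci _ (hupow k), cA_ma] at h1
    exact h1
  have hix : ma i * ma x = ma x := by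
    rw [hmx, mul_neg, Finset.mul_sum]
    congr 1
    refine Finset.sum_congr rfl fun k _ => ?_
    rw [mul_smul_comm, hia']
  have hxi : ma x * ma i = ma x := by
    rw [hmx, neg_mul, Finset.sum_mul]
    congr 1
    refine Finset.sum_congr rfl fun k _ => ?_
    rw [smul_mul_assoc, hai']
  have htr : ∑ k ∈ Finset.range ℓ, ma (cj (u ^ k) a) = ma i := by
    rw [← ma_sum, hT.tr]
  have hux : cA u (ma x) = ma x + ma i := by
    set f : ℕ → MonoidAlgebra F G := fun k => (1 - (k : F)) • ma (cj (u ^ k) a) with hf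
    have h1 : cA u (ma x) = ∑ k ∈ Finset.range ℓ, f (k + 1) := by
      rw [hmx, map_neg, map_sum, ← Finset.sum_neg_distrib]
      refine Finset.sum_congr rfl fun k _ => ?_
      rw [map_smul, cA_ma, cj_cj, ← pow_succ', hf, ← neg_smul]
      congr 1
      push_cast
      ring
    have h2 : ma x + ma i = ∑ k ∈ Finset.range ℓ, f k := by
      rw [hmx, ← htr, ← Finset.sum_neg_distrib, ← Finset.sum_add_distrib]
      refine Finset.sum_congr rfl fun k _ => ?_
      rw [hf]
      simp only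
      rw [sub_smul, one_smul]
      abel
    have h3 : f ℓ = f 0 := by
      rw [hf]
      simp only
      rw [CharP.cast_eq_zero, Nat.cast_zero, pow_zero, cj_one, hcja _ hul]
    have h4 := Finset.sum_range_succ f ℓ
    have h5 := Finset.sum_range_succ' f ℓ
    rw [h5, h3] at h4
    rw [h1, h2]
    exact add_right_cancel h4
  have hvx : ∀ v ∈ Q, cA v (ma x) = ma x := by
    intro v hv
    rw [hmx, map_neg, map_sum]
    congr 1
    refine Finset.sum_congr rfl fun k _ => ?_
    rw [map_smul, cA_ma, hinvpow a hcja k v hv]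
  -- the powers of `x`
  obtain ⟨S, hS, hmem⟩ := Pool.Agent.PP.T8.H25.pw_fin hF x
  obtain ⟨n, m, hm, hnm⟩ : ∃ n m : ℕ, 0 < m ∧ ma x ^ ℓ ^ (n + m) = ma x ^ ℓ ^ n := by
    obtain ⟨s, t, hst, h⟩ := Finite.exists_ne_map_eq_of_infinite
      (fun n : ℕ => fun g : G => (⟨pw x (ℓ ^ n) g, hmem _ g⟩ : S))
    have h1 : pw x (ℓ ^ s) = pw x (ℓ ^ t) := by
      funext g
      exact congrArg Subtype.val (congrFun h g)
    have h2 : ma x ^ ℓ ^ s = ma x ^ ℓ ^ t := by
      rw [← ma_pw, ← ma_pw, h1]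
    rcases lt_or_gt_of_ne hst with h3 | h3
    · exact ⟨s, t - s, Nat.sub_pos_of_lt h3, by rw [Nat.add_sub_cancel' h3.le, h2]⟩
    · exact ⟨t, s - t, Nat.sub_pos_of_lt h3, by rw [Nat.add_sub_cancel' h3.le, h2]⟩
  have hi0 : ma i ≠ 0 := fun h => hi.nz (ma_injective (h.trans ma_zero.symm))
  obtain ⟨j', hj0, hjj, hij, hji, hjl, hjφ, hort⟩ := core (cA u) hmi hi0 (hci u hT.mem) hix hxi hux
    hm hnm
  obtain ⟨j, rfl⟩ := ma_surjective j'
  have hQj : ∀ v ∈ Q, cj v j = j := by
    intro v hv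
    have h1 := hjφ (cA v) (hci v (hT.le hv)) (hvx v hv)
    rw [cA_ma] at h1
    exact ma_injective h1
  have hlj : cj (u ^ ℓ) j = j := by
    rw [cA_pow] at hjl
    exact ma_injective hjl
  have hort' : ∀ k m : ℕ, k < ℓ → m < ℓ → k ≠ m →
      mulF (cj (u ^ k) j) (cj (u ^ m) j) = 0 := by
    intro k m hk hm hkm
    apply ma_injective
    rw [ma_mul, ma_zero, ← cA_pow, ← cA_pow]
    exact hort k m hk hm hkm
  -- the sum of the conjugates
  set J : G → F := ∑ k ∈ Finset.range ℓ, cj (u ^ k) j with hJ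
  have hmJ : ma J = ∑ k ∈ Finset.range ℓ, ma (cj (u ^ k) j) := by rw [hJ, ma_sum]
  have hQJ : ∀ v ∈ Q, cj v J = J := by
    intro v hv
    apply ma_injective
    rw [← cA_ma, hmJ, map_sum]
    refine Finset.sum_congr rfl fun k _ => ?_
    rw [cA_ma, hinvpow j hQj k v hv]
  have huJ : cj u J = J := by
    apply ma_injective
    rw [← cA_ma, hmJ, map_sum]
    have h1 : ∑ k ∈ Finset.range ℓ, cA u (ma (cj (u ^ k) j)) =
        ∑ k ∈ Finset.range ℓ, ma (cj (u ^ (k + 1)) j) := by
      refine Finset.sum_congr rfl fun k _ => ?_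
      rw [cA_ma, cj_cj, ← pow_succ']
    have h4 := Finset.sum_range_succ (fun k => ma (cj (u ^ k) j)) ℓ
    have h5 := Finset.sum_range_succ' (fun k => ma (cj (u ^ k) j)) ℓ
    rw [h5] at h4
    simp only [pow_zero, cj_one, hlj] at h4
    rw [h1]
    exact add_right_cancel h4
  let K : Subgroup G :=
    { carrier := {v | cj v J = J}
      mul_mem' := fun {v w} hv hw => by
        change cj (v * w) J = J
        rw [← cj_cj, show cj w J = J from hw]
        exact hv
      one_mem' := cj_one J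
      inv_mem' := fun {v} hv => by
        change cj v⁻¹ J = J
        have h1 : cj v⁻¹ (cj v J) = J := cj_inv_cj v J
        rw [show cj v J = J from hv] at h1
        exact h1 }
  have hPJ : ∀ v ∈ P, cj v J = J := fun v hv =>
    gen_of_index (K := K) hT.le hT.ix hT.mem hT.nm hQJ huJ hv
  have hidk : ∀ k : ℕ, ma (cj (u ^ k) j) * ma (cj (u ^ k) j) = ma (cj (u ^ k) j) := fun k => by
    have h1 := congrArg (cA (u ^ k)) hjj
    rw [map_mul, cA_ma] at h1
    exact h1
  have hijk : ∀ k : ℕ, ma i * ma (cj (u ^ k) j) = ma (cj (u ^ k) j) := fun k => by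
    have h1 := congrArg (cA (u ^ k)) hij
    rw [map_mul, hci _ (hupow k), cA_ma] at h1
    exact h1
  have hjik : ∀ k : ℕ, ma (cj (u ^ k) j) * ma i = ma (cj (u ^ k) j) := fun k => by
    have h1 := congrArg (cA (u ^ k)) hji
    rw [map_mul, hci _ (hupow k), cA_ma] at h1
    exact h1
  have hJk : ∀ k ∈ Finset.range ℓ, ma J * ma (cj (u ^ k) j) = ma (cj (u ^ k) j) := by
    intro k hk
    rw [hmJ, Finset.sum_mul, Finset.sum_eq_single_of_mem k hk, hidk]
    intro m hm hmk
    rw [← ma_mul, hort' m k (Finset.mem_range.1 hm) (Finset.mem_range.1 hk) hmk, ma_zero]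
  have hJJ : mulF J J = J := by
    apply ma_injective
    rw [ma_mul]
    nth_rewrite 2 [hmJ]
    rw [Finset.mul_sum, Finset.sum_congr rfl hJk, ← hmJ]
  have hiJ : mulF i J = J := by
    apply ma_injective
    rw [ma_mul, hmJ, Finset.mul_sum]
    exact Finset.sum_congr rfl fun k _ => hijk k
  have hJi : mulF J i = J := by
    apply ma_injective
    rw [ma_mul, hmJ, Finset.sum_mul]
    exact Finset.sum_congr rfl fun k _ => hjik k
  have hJ1 : J = i := by
    rcases hi.pr J hJJ (fun v hv => (cj_eq_iff v J).1 (hPJ v hv)) hiJ hJi with h | h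
    · exfalso
      have h1 := hJk 0 (Finset.mem_range.2 hℓ.pos)
      rw [h, ma_zero, zero_mul, pow_zero, cj_one] at h1
      exact hj0 h1.symm
    · exact h
  refine ⟨j, ⟨hT.le, hT.ix, hT.mem, hT.nm, fun v hv => (cj_eq_iff v j).1 (hQj v hv), ?_, ?_, hJ1⟩,
    ?_, hort'⟩
  · exact ma_injective (by rw [ma_mul, hij])
  · exact ma_injective (by rw [ma_mul, hji])
  · exact ma_injective (by rw [ma_mul, hjj])

end Pool.Agent.PP.T10.H69
end
end -- Pool.Agent.Helper69_AT10.GRN

section -- Pool.Agent.Helper62_AT10.ROS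

/-!
# Squad AT10, row ROS: a primitive idempotent which vanishes on the centraliser is a trace
-/

open scoped BigOperators

set_option autoImplicit false

noncomputable section

namespace Pool.Agent.PP.T10.H62

open Pool.Agent.Helper51_AWC Pool.Agent.Helper79_WRA Pool.Agent.PP Pool.Agent.PP.KF
open Pool.Agent.PP.K9 Pool.Agent.PP.K9.H97 Pool.Agent.PP.H75 Pool.Agent.PP.T3 Pool.Agent.PP.T2
open Pool.Agent.PP.T5 Pool.Agent.PP.TB
open Pool.Agent.PP.T8 (rs pw fv rd Ip Rv)
open Pool.Agent.PP.T8.H25 (pw_zero pw_succ pw_add)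
open Pool.Agent.PP.T10.H25 (Iv iv_iff iv_mul iv_pw pw_one)

section

variable {F G : Type} [Field F] [Group G] [Finite G]

/-- membership in the algebra `i A ^ P i` -/
structure Bm (P : Subgroup G) (i x : G → F) : Prop where
  iv : Iv P x
  lm : mulF i x = x
  rm : mulF x i = x

/-- invertible elements of `i A ^ P i` -/
def Inb (P : Subgroup G) (i x : G → F) : Prop :=
  ∃ y, Bm P i y ∧ mulF x y = i ∧ mulF y x = i

theorem Bm.mul {P : Subgroup G} {i x y : G → F} (hx : Bm P i x) (hy : Bm P i y) :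
    Bm P i (mulF x y) :=
  ⟨iv_mul hx.iv hy.iv, by rw [← mulF_assoc, hx.lm], by rw [mulF_assoc, hy.rm]⟩

theorem Bm.add {P : Subgroup G} {i x y : G → F} (hx : Bm P i x) (hy : Bm P i y) :
    Bm P i (x + y) := by
  refine ⟨?_, ?_, ?_⟩
  · intro v hv g
    rw [Pi.add_apply, Pi.add_apply, hx.iv v hv g, hy.iv v hv g]
  · rw [PP.H20.mulF_add, hx.lm, hy.lm]
  · rw [PP.H20.add_mulF, hx.rm, hy.rm]

theorem Bm.zero (P : Subgroup G) (i : G → F) : Bm P i 0 :=
  ⟨fun _ _ _ => rfl, PP.H20.mulF_zero _, PP.H20.zero_mulF _⟩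

theorem Bm.sum {P : Subgroup G} {i : G → F} {ι : Type} (s : Finset ι) {x : ι → G → F}
    (hx : ∀ k ∈ s, Bm P i (x k)) : Bm P i (∑ k ∈ s, x k) := by
  classical
  induction s using Finset.induction_on with
  | empty => rw [Finset.sum_empty]; exact Bm.zero P i
  | insert a s ha ih =>
    rw [Finset.sum_insert ha]
    exact (hx a (Finset.mem_insert_self a s)).add
      (ih fun k hk => hx k (Finset.mem_insert_of_mem hk))

/-- an element with a left inverse is not nilpotent -/
theorem not_nil {P : Subgroup G} {i x z : G → F} (hx : Bm P i x) (h0 : i ≠ 0) (hz : mulF z x = i) :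
    ∀ n : ℕ, pw x n ≠ 0 := by
  have key : ∀ n : ℕ, mulF (pw z (n + 1)) (pw x (n + 1)) = i := by
    intro n
    induction n with
    | zero => rw [zero_add, pw_one, pw_one, hz]
    | succ n ih =>
      have h1 : pw z (n + 1 + 1) = mulF (pw z (n + 1)) z := H25.pw_succ' z (n + 1)
      have h2 : mulF i (pw x (n + 1)) = pw x (n + 1) := by
        rw [pw_succ, ← mulF_assoc, hx.lm]
      rw [h1, pw_succ x (n + 1), mulF_assoc, ← mulF_assoc z x, hz, h2, ih]
  intro n hn
  apply h0
  have h1 : pw x (n + 1) = 0 := by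
    rw [pw_succ, hn, PP.H20.mulF_zero]
  rw [← key n, h1, PP.H20.mulF_zero]

theorem inb_of_left {ℓ : ℕ} {P : Subgroup G} {i x z : G → F} (hIDL : IdlStmt) (hF : GoodF ℓ F)
    (hi : Pm P i) (hx : Bm P i x) (hz : mulF z x = i) : Inb P i x := by
  rcases hIDL ℓ F hF G P i hi x hx.iv hx.lm hx.rm with ⟨n, _, hn⟩ | ⟨y, h1, h2, h3, h4, h5⟩
  · exact absurd hn (not_nil hx hi.nz hz n)
  · exact ⟨y, ⟨h1, h2, h3⟩, h4, h5⟩

theorem inb_add {ℓ : ℕ} {P : Subgroup G} {i x y : G → F} (hIDL : IdlStmt) (hF : GoodF ℓ F)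
    (hi : Pm P i) (hx : Bm P i x) (hy : Bm P i y) (h : Inb P i (x + y)) :
    Inb P i x ∨ Inb P i y := by
  obtain ⟨w, hw, -, h2⟩ := h
  have hwx := hw.mul hx
  have hwy := hw.mul hy
  rw [PP.H20.mulF_add] at h2
  rcases hIDL ℓ F hF G P i hi _ hwx.iv hwx.lm hwx.rm with ⟨n, hn0, hn⟩ | ⟨z, -, -, -, -, hz⟩
  · rcases hIDL ℓ F hF G P i hi _ hwy.iv hwy.lm hwy.rm with ⟨m, hm0, hm⟩ | ⟨z, -, -, -, -, hz⟩
    · exfalso
      have hma : ∀ (x : G → F) (n : ℕ), ma (pw x n) = ma x ^ n := T10.H69.ma_pw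
      have e1 : IsNilpotent (ma (mulF w x)) := ⟨n, by rw [← hma, hn, ma_zero]⟩
      have e2 : IsNilpotent (ma (mulF w y)) := ⟨m, by rw [← hma, hm, ma_zero]⟩
      have e3 : mulF w y = i - mulF w x := by rw [← h2]; abel
      have e4 : Commute (ma (mulF w x)) (ma (mulF w y)) := by
        have : mulF (mulF w x) (mulF w y) = mulF (mulF w y) (mulF w x) := by
          rw [e3, PP.H20.mulF_sub, PP.H20.sub_mulF, hwx.rm, hwx.lm]
        change _ * _ = _ * _
        rw [← ma_mul, this, ma_mul]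
      have e5 := Commute.isNilpotent_add e4 e1 e2
      rw [← ma_add, h2] at e5
      obtain ⟨k, hk⟩ := e5
      rw [← hma, ← ma_zero] at hk
      have hib : Bm P i i := ⟨hi.iv, hi.id, hi.id⟩
      exact not_nil hib hi.nz hi.id k (ma_injective hk)
    · right
      rw [← mulF_assoc] at hz
      exact inb_of_left hIDL hF hi hy hz
  · left
    rw [← mulF_assoc] at hz
    exact inb_of_left hIDL hF hi hx hz

theorem inb_sum {ℓ : ℕ} {P : Subgroup G} {i : G → F} (hIDL : IdlStmt) (hF : GoodF ℓ F)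
    (hi : Pm P i) {ι : Type} (s : Finset ι) (x : ι → G → F) (hx : ∀ k ∈ s, Bm P i (x k))
    (h : Inb P i (∑ k ∈ s, x k)) : ∃ k ∈ s, Inb P i (x k) := by
  classical
  induction s using Finset.induction_on with
  | empty =>
    exfalso
    rw [Finset.sum_empty] at h
    obtain ⟨w, -, h1, -⟩ := h
    rw [PP.H20.zero_mulF] at h1
    exact hi.nz h1.symm
  | insert a s ha ih =>
    rw [Finset.sum_insert ha] at h
    rcases inb_add hIDL hF hi (hx a (Finset.mem_insert_self a s))
      (Bm.sum s fun k hk => hx k (Finset.mem_insert_of_mem hk)) h with h1 | h1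
    · exact ⟨a, Finset.mem_insert_self a s, h1⟩
    · obtain ⟨k, hk, h2⟩ := ih (fun k hk => hx k (Finset.mem_insert_of_mem hk)) h1
      exact ⟨k, Finset.mem_insert_of_mem hk, h2⟩

/-- the trace from a subgroup of index `ℓ` is invariant -/
theorem tr_iv {ℓ : ℕ} [Fact ℓ.Prime] {P Q : Subgroup G} (hP : IsPGroup ℓ P)
    (hix : Q.relIndex P = ℓ) {u : G} (hu : u ∈ P) (huQ : u ∉ Q) {a : G → F} (ha : Iv Q a) :
    Iv P (∑ j ∈ Finset.range ℓ, cj (u ^ j) a) := by
  classical
  have := Fintype.ofFinite (P ⧸ Q.subgroupOf P)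
  have hp : ℓ.Prime := Fact.out
  have hcj : ∀ v ∈ Q, cj v a = a := by
    intro v hv
    have := (iv_iff Q a).1 ha v⁻¹ (inv_mem hv)
    rwa [inv_inv] at this
  have hf : ∀ w ∈ P, ∀ v ∈ Q, cj (w * v) a = cj w a := by
    intro w _ v hv
    rw [← cj_cj, hcj v hv]
  have h1 := T10.H31.pow_sum hp hP hix (fun w => cj w a) hf hu huQ
  rw [h1, iv_iff]
  intro v hv
  rw [T2.H25.cj_sum]
  rw [← Equiv.sum_comp (MulAction.toPerm (⟨v⁻¹, inv_mem hv⟩ : P)) (fun x : P ⧸ Q.subgroupOf P =>
    cj ((x.out : P) : G) a)]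
  refine Finset.sum_congr rfl fun x _ => ?_
  rw [cj_cj, MulAction.toPerm_apply]
  have h3 : QuotientGroup.mk ((((⟨v⁻¹, inv_mem hv⟩ : P) • x).out : P)) =
      (QuotientGroup.mk ((⟨v⁻¹, inv_mem hv⟩ : P) * x.out) : P ⧸ Q.subgroupOf P) := by
    rw [QuotientGroup.out_eq']
    have : (⟨v⁻¹, inv_mem hv⟩ : P) • (QuotientGroup.mk x.out : P ⧸ Q.subgroupOf P) =
      QuotientGroup.mk ((⟨v⁻¹, inv_mem hv⟩ : P) * x.out) := rfl
    rw [← this, QuotientGroup.out_eq']
  have h4 := QuotientGroup.eq.1 h3.symm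
  rw [Subgroup.mem_subgroupOf] at h4
  have h5 : (((((⟨v⁻¹, inv_mem hv⟩ : P) • x).out : P)) : G) = v⁻¹ * ((x.out : P) : G) *
      (((((⟨v⁻¹, inv_mem hv⟩ : P) * x.out)⁻¹ *
        (((⟨v⁻¹, inv_mem hv⟩ : P) • x).out : P) : P)) : G) := by
    rw [Subgroup.coe_mul, Subgroup.coe_inv, Subgroup.coe_mul]
    group
  rw [h5, hf _ (mul_mem (inv_mem hv) (x.out).2) _ h4]

end

theorem ros (hRTR : RtrStmt) (hIDL : IdlStmt) : RosStmt := by
  intro ℓ _ F _ hF G _ _ P hP i hi hbr
  classical
  have hvan : ∀ g ∈ Subgroup.centralizer (P : Set G), i g = 0 := by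
    intro g hg
    have := congrFun hbr g
    unfold br at this
    rwa [if_pos hg] at this
  obtain ⟨m, Q, u, a, hQ, hsum⟩ := hRTR ℓ F G P hP i hi.iv hvan
  have hX : ∀ k, Iv P (∑ j ∈ Finset.range ℓ, cj (u k ^ j) (a k)) := fun k =>
    tr_iv hP (hQ k).2.1 (hQ k).2.2.1 (hQ k).2.2.2.1 (hQ k).2.2.2.2
  have hcj : ∀ (x : G → F), Iv P x → ∀ v ∈ P, cj v x = x := by
    intro x hx v hv
    have := (iv_iff P x).1 hx v⁻¹ (inv_mem hv)
    rwa [inv_inv] at this
  have hBm : ∀ k, Bm P i (mulF i (mulF (∑ j ∈ Finset.range ℓ, cj (u k ^ j) (a k)) i)) := by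
    intro k
    refine ⟨iv_mul hi.iv (iv_mul (hX k) hi.iv), ?_, ?_⟩
    · rw [← mulF_assoc, hi.id]
    · rw [mulF_assoc, mulF_assoc, hi.id]
  have hs : ∑ k, mulF i (mulF (∑ j ∈ Finset.range ℓ, cj (u k ^ j) (a k)) i) = i := by
    rw [← T2.H25.mulF_sum, ← T2.H25.sum_mulF, ← hsum, hi.id, hi.id]
  have hinv : Inb P i (∑ k, mulF i (mulF (∑ j ∈ Finset.range ℓ, cj (u k ^ j) (a k)) i)) := by
    rw [hs]
    exact ⟨i, ⟨hi.iv, hi.id, hi.id⟩, hi.id, hi.id⟩
  obtain ⟨k, -, w, hw, h1, -⟩ := inb_sum hIDL hF hi Finset.univ _ (fun k _ => hBm k) hinv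
  refine ⟨Q k, u k, mulF i (mulF (a k) (mulF i w)), (hQ k).1, (hQ k).2.1, (hQ k).2.2.1,
    (hQ k).2.2.2.1, ?_, ?_, ?_, ?_⟩
  · have hle : ∀ {x : G → F}, Iv P x → Iv (Q k) x := fun hx v hv g => hx v ((hQ k).1 hv) g
    exact iv_mul (hle hi.iv) (iv_mul (hQ k).2.2.2.2 (iv_mul (hle hi.iv) (hle hw.iv)))
  · rw [← mulF_assoc, hi.id]
  · rw [mulF_assoc, mulF_assoc, mulF_assoc, hw.rm]
  · refine Eq.trans ?_ h1
    rw [mulF_assoc i, mulF_assoc (∑ j ∈ Finset.range ℓ, cj (u k ^ j) (a k)),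
      T2.H25.sum_mulF, T2.H25.mulF_sum]
    refine Finset.sum_congr rfl fun j _ => ?_
    have hu := pow_mem (hQ k).2.2.1 j
    rw [cj_mulF, cj_mulF, cj_mulF, hcj i hi.iv _ hu, hcj w hw.iv _ hu]

end Pool.Agent.PP.T10.H62
end
end -- Pool.Agent.Helper62_AT10.ROS
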