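import Pool.Agent.Helper12_AWB.B122
import Pool.Agent.Helper12_AWB.B127
import Pool.Agent.Helper12_AWB.B139
import Pool.Agent.Helper12_AWB.B150
import Pool.Agent.Helper12_AWB.B163

/-!
# Merged copies (generated) of the modules

* `Pool.Agent.Helper17_AT3.RSV`
* `Pool.Agent.Helper17_AT8.OMI`
* `Pool.Agent.Helper35_AT6.YEX`
-/

set_option autoImplicit false

section -- Pool.Agent.Helper17_AT3.RSV

/-!
# Squad AT3, module RSV
-/

open scoped BigOperators

noncomputable section

namespace Pool.Agent.PP.T3.H17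

open Pool.Agent.Helper51_AWC Pool.Agent.Helper79_WRA Pool.Agent.PP Pool.Agent.PP.KF
open Pool.Agent.PP.K9 Pool.Agent.PP.K9.H97 Pool.Agent.PP.H75

section core

variable {F G : Type} [Field F] [Group G] [Finite G] {C : Subgroup G} {a : G → F}

theorem core_sum {ℓ : ℕ} (hF : GoodF ℓ F) {V : Subgroup G} (hV : IsPGroup ℓ V)
    (hab : ∀ a ∈ V, ∀ b ∈ V, a * b = b * a) (hVC : V ≤ C)
    (hXC : Subgroup.centralizer (V : Set G) ≤ C) {B : G → F} (hB : Ix C B) {w : G} (hwV : w ∈ V)
    (hwC : ∀ c ∈ C, c * w = w * c)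
    (hgood : ∀ t : G, (∀ v ∈ V, t⁻¹ * v * t ∈ C) →
      (∃ x, (∀ v ∈ V, x * (t⁻¹ * v * t) = t⁻¹ * v * t * x) ∧ B x ≠ 0) →
      ∃ c ∈ C, t * c ∈ Subgroup.normalizer (V : Set G))
    {γ : G → F} (hγ : Bx (Subgroup.centralizer (V : Set G)) γ) (h1 : mulF (br V B) γ = γ)
    (hbx : Bx (Subgroup.normalizer (V : Set G) ⊓ C) (br V B)) :
    ∃ (S : Finset (G ⧸ C)) (f : G ⧸ C → G), (∀ q ∈ S, f q ∈ V) ∧
      S.card = C.relIndex (Subgroup.normalizer (V : Set G) ⊓ stabF γ) ∧
      ma (br V (tsm C (fun x => B (w⁻¹ * x)))) * ma γ =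
        (∑ q ∈ S, ma (dl F (f q))) * ma γ := by
  classical
  set N := Subgroup.normalizer (V : Set G) with hN
  set X := Subgroup.centralizer (V : Set G) with hX
  have hXN : X ≤ N := by
    intro g hg
    rw [hN, Subgroup.mem_normalizer_iff]
    intro v
    have h1 := Subgroup.mem_centralizer_iff.1 hg
    constructor
    · intro hv
      rw [← h1 v hv, mul_inv_cancel_right]
      exact hv
    · intro hv
      have h2 := h1 _ hv
      have h3 : g * v = g * (g * v * g⁻¹) := by
        rw [← h2]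
        group
      rw [mul_left_cancel h3]
      exact hv
  have hNX : N ≤ Subgroup.normalizer (X : Set G) := by
    intro g hg
    rw [Subgroup.mem_normalizer_iff]
    have key : ∀ g ∈ N, ∀ x ∈ X, g * x * g⁻¹ ∈ X := by
      intro g hg x hx
      rw [hX, Subgroup.mem_centralizer_iff] at hx ⊢
      intro v hv
      have h2 : g⁻¹ * v * g ∈ V := by
        have := (Subgroup.mem_normalizer_iff.1 (inv_mem hg) v).1 hv
        rwa [inv_inv] at this
      have h3 := hx _ h2
      calc v * (g * x * g⁻¹) = g * (g⁻¹ * v * g * x) * g⁻¹ := by group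
        _ = g * (x * (g⁻¹ * v * g)) * g⁻¹ := by rw [h3]
        _ = g * x * g⁻¹ * v := by group
    intro x
    constructor
    · exact key g hg x
    · intro h
      have := key g⁻¹ (inv_mem hg) _ h
      have e : g⁻¹ * (g * x * g⁻¹) * g⁻¹⁻¹ = x := by group
      rwa [e] at this
  have hVX : V ≤ X := by
    intro v hv
    rw [hX, Subgroup.mem_centralizer_iff]
    intro x hx
    exact hab x hx v hv
  set bV := br V B with hbV
  have hbVX : ∀ x, x ∉ X → bV x = 0 := fun x hx => H66.br_of_not_mem hx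
  have hbI : Ix X bV := by
    refine ⟨hbVX, ?_, ?_⟩
    · intro x y
      exact hbx.blk.1.1 ⟨x, ⟨hXN x.2, hXC x.2⟩⟩ ⟨y, ⟨hXN y.2, hXC y.2⟩⟩
    · rw [← mulF_res X bV hbVX, hbx.mul]
  -- the representatives
  have hrep : ∀ q : G ⧸ C, ∃ t : G, q ∈ QN N C → t ∈ N ∧ (t : G ⧸ C) = q := by
    intro q
    by_cases hq : q ∈ QN N C
    · obtain ⟨t, ht, htq⟩ := hq
      exact ⟨t, fun _ => ⟨ht, htq⟩⟩
    · exact ⟨1, fun h => absurd h hq⟩
  choose rep hrep using hrep
  have hfinq : Finite (G ⧸ C) := inferInstance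
  have := Fintype.ofFinite (G ⧸ C)
  set a : G → F := fun x => B (w⁻¹ * x) with ha
  have haC : ∀ c ∈ C, cj c a = a := by
    intro c hc
    funext x
    change B (w⁻¹ * (c⁻¹ * x * c)) = B (w⁻¹ * x)
    have h2 := (cj_eq_iff c B).1 (hB.inv hc) (w⁻¹ * (c⁻¹ * x * c))
    rw [← h2]
    congr 1
    have h3 := hwC c hc
    have h4 : c * w⁻¹ = w⁻¹ * c := (show Commute c w from h3).inv_right.eq
    calc c * (w⁻¹ * (c⁻¹ * x * c)) * c⁻¹ = (c * w⁻¹) * (c⁻¹ * x) := by group
      _ = w⁻¹ * x := by rw [h4]; group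
  have hsum : br V (tsm C a) =
      ∑ q ∈ Finset.univ.filter (fun q => q ∈ QN N C), cj (rep q) (mulF (dl F w) bV) := by
    funext g
    rw [Finset.sum_apply]
    have hcj : ∀ q ∈ QN N C, ∀ x, (rep q)⁻¹ * x * rep q ∈ X ↔ x ∈ X := fun q hq x =>
      conj_mem_iff (hNX (hrep q hq).1) x
    by_cases hg : g ∈ X
    · rw [H66.br_of_mem hg, tsm_br hF hV hVC haC _ hg, finsum_eq_sum_of_fintype,
        Finset.sum_filter]
      · refine Finset.sum_congr rfl fun q _ => ?_
        rw [finsum_eq_if]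
        by_cases hq : q ∈ QN N C
        · rw [if_pos hq, if_pos hq]
          have h2 := (hrep q hq).2
          conv_lhs => rw [← h2, cj_out haC]
          rw [cj, cj, mulF_dl_left, ha]
          change B _ = bV _
          rw [hbV, H66.br_of_mem]
          exact X.mul_mem (X.inv_mem (hVX hwV)) ((hcj q hq g).2 hg)
        · rw [if_neg hq, if_neg hq]
      · intro t ht g hg hne
        obtain ⟨c, hc, htc⟩ := hgood t ht (by
          refine ⟨w⁻¹ * (t⁻¹ * g * t), ?_, hne⟩
          intro v hv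
          have h2 := Subgroup.mem_centralizer_iff.1 hg v hv
          have h3 := hwC _ (ht v hv)
          have h4 : t⁻¹ * v * t * w⁻¹ = w⁻¹ * (t⁻¹ * v * t) :=
            (show Commute (t⁻¹ * v * t) w from h3).inv_right.eq
          calc w⁻¹ * (t⁻¹ * g * t) * (t⁻¹ * v * t) = w⁻¹ * (t⁻¹ * (g * v) * t) := by group
            _ = w⁻¹ * (t⁻¹ * v * t) * (t⁻¹ * g * t) := by rw [← h2]; group
            _ = t⁻¹ * v * t * w⁻¹ * (t⁻¹ * g * t) := by rw [h4]
            _ = t⁻¹ * v * t * (w⁻¹ * (t⁻¹ * g * t)) := by group)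
        refine ⟨t * c, htc, ?_⟩
        symm
        rw [QuotientGroup.eq, inv_mul_cancel_left]
        exact hc
    · rw [H66.br_of_not_mem hg]
      symm
      apply Finset.sum_eq_zero
      intro q hq
      rw [Finset.mem_filter] at hq
      rw [cj, mulF_dl_left]
      apply hbVX
      intro h
      apply hg
      rw [← hcj q hq.2]
      have := X.mul_mem (hVX hwV) h
      rwa [mul_inv_cancel_left] at this
  set S : Finset (G ⧸ C) := Finset.univ.filter
    (fun q => q ∈ QN N C ∧ mulF (cj (rep q) bV) γ = γ) with hS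
  have hwS : ∀ q ∈ QN N C, rep q * w * (rep q)⁻¹ ∈ V := fun q hq =>
    (Subgroup.mem_normalizer_iff.1 (hrep q hq).1 w).1 hwV
  have hzγ : ma (br V (tsm C a)) * ma γ =
      (∑ q ∈ S, ma (dl F (rep q * w * (rep q)⁻¹))) * ma γ := by
    have h8 : ∑ q ∈ S, ma (dl F (rep q * w * (rep q)⁻¹)) * ma γ =
        ∑ q ∈ Finset.univ.filter (fun q => q ∈ QN N C),
          if mulF (cj (rep q) bV) γ = γ then ma (dl F (rep q * w * (rep q)⁻¹)) * ma γ
            else 0 := by
      rw [← Finset.sum_filter, Finset.filter_filter]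
    rw [hsum, ma_sum, Finset.sum_mul, Finset.sum_mul, h8]
    refine Finset.sum_congr rfl fun q hq => ?_
    rw [Finset.mem_filter] at hq
    have h2 : cj (rep q) (dl F w) = dl F (rep q * w * (rep q)⁻¹) := by
      funext x
      rw [cj]
      unfold dl
      have h3 : ((rep q)⁻¹ * x * rep q = w) ↔ (x = rep q * w * (rep q)⁻¹) := by
        constructor
        · rintro rfl
          group
        · rintro rfl
          group
      by_cases h4 : (rep q)⁻¹ * x * rep q = w
      · rw [if_pos h4, if_pos (h3.1 h4)]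
      · rw [if_neg h4, if_neg (fun h => h4 (h3.2 h))]
    rw [cj_mulF, h2, ma_mul, mul_assoc, ← ma_mul]
    by_cases h5 : mulF (cj (rep q) bV) γ = γ
    · rw [if_pos h5, h5]
    · rw [if_neg h5]
      have h6 := hbI.cj (hNX (hrep q hq.2).1)
      rcases hγ.dich' h6 with h7 | h7
      · exact absurd (by rw [h6.comm hγ.ix, h7]) h5
      · rw [h6.comm hγ.ix, h7, ma_zero, mul_zero]
  -- the number of summands
  have hScard : S.card = C.relIndex (N ⊓ stabF γ) := by
    rw [← orbit_card, ← Set.ncard_coe_finset]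
    congr 1
    ext q
    rw [Finset.mem_coe, hS, Finset.mem_filter, MulAction.mem_orbit_iff]
    constructor
    · rintro ⟨-, hq, h2⟩
      obtain ⟨hr1, hr2⟩ := hrep q hq
      have h3 : mulF bV (cj (rep q)⁻¹ γ) = cj (rep q)⁻¹ γ := by
        have := congrArg (cj (rep q)⁻¹) h2
        rwa [cj_mulF, cj_inv_cj] at this
      obtain ⟨m, hm, hm'⟩ := orb_main (N := N ⊓ C) (X := X) (le_inf hXN hXC)
        (inf_le_left.trans hNX) hbx hγ (hγ.cj (hNX (inv_mem hr1))) h1 h3
      have h4 : cj (rep q * m) γ = γ := by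
        rw [← cj_cj, ← hm', cj_cj_inv]
      refine ⟨⟨rep q * m, N.mul_mem hr1 hm.1, (cj_eq_iff _ _).1 h4⟩, ?_⟩
      change ((rep q * m * 1 : G) : G ⧸ C) = q
      rw [mul_one, ← hr2]
      symm
      rw [QuotientGroup.eq, hr2, inv_mul_cancel_left]
      exact hm.2
    · rintro ⟨⟨t, ht1, ht2⟩, rfl⟩
      have h0 : ((⟨t, ht1, ht2⟩ : (N ⊓ stabF γ : Subgroup G)) • ((1 : G) : G ⧸ C)) =
          ((t : G) : G ⧸ C) := by
        change ((t * 1 : G) : G ⧸ C) = _
        rw [mul_one]
      rw [h0]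
      have hq : ((t : G) : G ⧸ C) ∈ QN N C := ⟨t, ht1, rfl⟩
      refine ⟨Finset.mem_univ _, hq, ?_⟩
      obtain ⟨hr1, hr2⟩ := hrep _ hq
      have h5 : (rep (t : G ⧸ C))⁻¹ * t ∈ N ⊓ C :=
        ⟨N.mul_mem (inv_mem hr1) ht1, QuotientGroup.eq.1 hr2⟩
      have h6 : cj (rep (t : G ⧸ C)) bV = cj t bV := by
        have := hbx.ix.inv h5
        conv_lhs => rw [← this, cj_cj, mul_inv_cancel_left]
      have h7 : cj t γ = γ := (cj_eq_iff _ _).2 ht2
      rw [h6]
      conv_lhs => rw [← h7, ← cj_mulF, h1]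
      exact h7
  exact ⟨S, fun q => rep q * w * (rep q)⁻¹,
    fun q hq => hwS q (Finset.mem_filter.1 hq).2.1, hScard, hzγ⟩

/-- the value of a nilpotent shift -/
theorem nil_eq {ℓ : ℕ} (hF : GoodF ℓ F) {V : Subgroup G} (hV : IsPGroup ℓ V)
    (hab : ∀ a ∈ V, ∀ b ∈ V, a * b = b * a) {ι : Type} (S : Finset ι) (w : ι → G)
    (hw : ∀ i ∈ S, w i ∈ V) {γ z : G → F} (h0 : γ ≠ 0)
    (hγ : ∀ v ∈ V, cj v γ = γ) (hz : ma z * ma γ = (∑ i ∈ S, ma (dl F (w i))) * ma γ) (c : F)
    (n : ℕ) (hn : (ma z - algebraMap F (MonoidAlgebra F G) c) ^ n * ma γ = 0) :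
    (S.card : F) = c := by
  have hfact : Fact ℓ.Prime := ⟨hF.prime⟩
  have hch : CharP F ℓ := hF.char
  have hchA : CharP (MonoidAlgebra F G) ℓ := charP_of_injective_algebraMap' F ℓ
  by_contra hne
  set κ := algebraMap F (MonoidAlgebra F G) c with hκ
  set A := ∑ i ∈ S, ma (dl F (w i)) with hA
  have hκc : ∀ x : MonoidAlgebra F G, κ * x = x * κ := fun x => Algebra.commutes c x
  have hcomm : A * ma γ = ma γ * A := by
    rw [hA, Finset.sum_mul, Finset.mul_sum]
    refine Finset.sum_congr rfl fun i hi => ?_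
    rw [← ma_mul, ← ma_mul, dl_move, hγ _ (hw i hi)]
  have hcomm' : (A - κ) * ma γ = ma γ * (A - κ) := by
    rw [sub_mul, mul_sub, hcomm, hκc]
  have hz' : (ma z - κ) * ma γ = (A - κ) * ma γ := by
    rw [sub_mul, sub_mul, hz]
  have hpow : ∀ k : ℕ, (ma z - κ) ^ k * ma γ = (A - κ) ^ k * ma γ := by
    intro k
    induction k with
    | zero => rw [pow_zero, pow_zero]
    | succ k ih =>
      rw [pow_succ, mul_assoc, hz', hcomm', ← mul_assoc, ih, mul_assoc, ← hcomm', ← mul_assoc,
        ← pow_succ]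
  have hnil : IsNilpotent (∑ i ∈ S, (ma (dl F (w i)) - 1)) := by
    apply Commute.isNilpotent_sum
    · intro i hi
      obtain ⟨k, hk⟩ := hV ⟨w i, hw i hi⟩
      refine ⟨ℓ ^ k, ?_⟩
      have hk' : w i ^ ℓ ^ k = 1 := congrArg Subtype.val hk
      rw [sub_pow_char_pow_of_commute ℓ k (Commute.one_right _), ma_dl_pow, hk', ma_dl_one, one_pow,
        sub_self]
    · intro i j hi hj
      apply Commute.sub_left
      · apply Commute.sub_right
        · change _ * _ = _ * _
          rw [ma_dl_mul, ma_dl_mul, hab _ (hw i hi) _ (hw j hj)]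
        · exact Commute.one_right _
      · exact Commute.one_left _
  have hcard : IsUnit (algebraMap F (MonoidAlgebra F G) ((S.card : F) - c)) :=
    (IsUnit.mk0 _ (sub_ne_zero.2 hne)).map _
  have hu : IsUnit (A - κ) := by
    have e : A - κ = (∑ i ∈ S, (ma (dl F (w i)) - 1)) +
        algebraMap F (MonoidAlgebra F G) ((S.card : F) - c) := by
      rw [Finset.sum_sub_distrib, Finset.sum_const, nsmul_eq_mul, mul_one, map_sub, map_natCast]
      abel
    rw [e]
    exact hnil.isUnit_add_right_of_commute hcard (Algebra.commutes _ _).symm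
  apply h0
  apply ma_injective
  rw [ma_zero]
  rw [hpow] at hn
  exact (hu.pow n).mul_right_eq_zero.1 hn

end core

attribute [local instance] Ideal.Quotient.field

/-- RSV from the first main theorem -/
theorem rsv_of (fmg : FmgStmt) : RsvStmt := by
  intro ℓ _ M _ hM G _ _ e V γ hL u hu b₁ hLc χ hχ
  have he := hL.blk
  have hT := hL.tp
  have hab := hL.ab
  have hF : GoodF ℓ (FF M) := H50.fld ℓ Fact.out M hM
  have hVC : V ≤ Cu u := fun v hv => Subgroup.mem_centralizer_singleton_iff.2 (hab v hv u hu)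
  have hXC : Subgroup.centralizer (V : Set G) ≤ Cu u := fun g hg =>
    Subgroup.mem_centralizer_singleton_iff.2 (Subgroup.mem_centralizer_iff.1 hg u hu).symm
  have hwC : ∀ c ∈ Cu u, c * u = u * c := fun c hc =>
    Subgroup.mem_centralizer_singleton_iff.1 hc
  have hXN : Subgroup.centralizer (V : Set G) ≤ Subgroup.normalizer (V : Set G) := by
    intro g hg
    rw [Subgroup.mem_normalizer_iff]
    intro v
    have h1 := Subgroup.mem_centralizer_iff.1 hg
    constructor
    · intro hv
      rw [← h1 v hv, mul_inv_cancel_right]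
      exact hv
    · intro hv
      have h2 := h1 _ hv
      have h3 : g * v = g * (g * v * g⁻¹) := by
        rw [← h2]
        group
      rw [mul_left_cancel h3]
      exact hv
  set b : Cu u → FF M := fun t : Cu u => b₁ t with hbdef
  have hb : IsBlk b := hLc.blk.blk
  have heb : mulF (fun t : Cu u => e t) b = b := hLc.und
  have hBb : PP.ext0 (Cu u) b = b₁ := by
    funext x
    by_cases hx : x ∈ Cu u
    · rw [H46.ext0_of_mem _ hx]
    · rw [H46.ext0_of_not_mem _ hx, hLc.blk.supp x hx]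
  have hγ := hL.gam
  have hgb : Gd b (V.subgroupOf (Cu u)) := by
    by_contra hcon
    apply hγ.ne
    have h0 : br V b₁ = 0 := by
      funext x
      by_cases hx : x ∈ Subgroup.centralizer (V : Set G)
      · rw [H66.br_of_mem hx]
        by_contra hne
        exact hcon ⟨⟨x, hXC hx⟩, (cent_sub hVC _).2 hx, hne⟩
      · rw [H66.br_of_not_mem hx]
        rfl
    have h1 := hLc.gam
    rw [h0, mulF_zero_left] at h1
    exact h1.symm
  have hB : Ix (Cu u) (PP.ext0 (Cu u) b) := by
    rw [hBb]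
    exact hLc.blk.ix
  have heC : IsCl (fun t : Cu u => e t) := fun x y => he.1.1 x y
  have hVcard : Nat.card (V.subgroupOf (Cu u)) = Nat.card V :=
    Nat.card_congr (Subgroup.subgroupOfEquivOfLe hVC).toEquiv
  have hVp : IsPGroup ℓ (V.subgroupOf (Cu u)) :=
    hT.pg.of_equiv (Subgroup.subgroupOfEquivOfLe hVC).symm
  -- `V` is a defect group of `b`
  have hTb : Tp ℓ b (V.subgroupOf (Cu u)) := by
    refine ⟨hVp, hgb, ?_⟩
    intro Q hQ hQb
    have h1 := gd_map (gd_of_mul hF heC hb.1.1 heb hQ hQb)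
    have hcard : Nat.card (Q.map (Cu u).subtype) = Nat.card Q :=
      (Nat.card_congr (Q.equivMapOfInjective (Cu u).subtype
        (Cu u).subtype_injective).toEquiv).symm
    have h2 := hT.mx _ (hQ.map (Cu u).subtype) h1
    rw [hcard] at h2
    rw [hVcard]
    exact h2
  obtain ⟨hf1, ⟨hf2, -⟩, -⟩ := fmg ℓ M hM (Cu u) b hb _ hTb
  have hbx := bx_of hVC hXC hXN hf2
  set B := PP.ext0 (Cu u) b with hBdef
  -- conjugates of `V` in the centraliser of `u`
  have hgood : ∀ t : G, (∀ v ∈ V, t⁻¹ * v * t ∈ Cu u) →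
      (∃ x, (∀ v ∈ V, x * (t⁻¹ * v * t) = t⁻¹ * v * t * x) ∧ B x ≠ 0) →
      ∃ c ∈ Cu u, t * c ∈ Subgroup.normalizer (V : Set G) := by
    rintro t ht ⟨x, hx1, hx2⟩
    have hxC : x ∈ Cu u := by
      by_contra h
      exact hx2 (hB.supp x h)
    set Q : Subgroup (Cu u) := (conjS t⁻¹ V).subgroupOf (Cu u) with hQ
    have hQC : conjS t⁻¹ V ≤ Cu u := by
      intro y hy
      rw [mem_conjS, inv_inv] at hy
      have := ht _ hy
      rwa [show t⁻¹ * (t * y * t⁻¹) * t = y by group] at this
    have hQp : IsPGroup ℓ Q :=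
      (hT.pg.map (MulAut.conj t⁻¹).toMonoidHom).of_equiv (Subgroup.subgroupOfEquivOfLe hQC).symm
    have hQg : Gd b Q := by
      refine ⟨⟨x, hxC⟩, ?_, ?_⟩
      · rw [Subgroup.mem_centralizer_iff]
        intro y hy
        have hy' : (y : G) ∈ conjS t⁻¹ V := hy
        rw [mem_conjS, inv_inv] at hy'
        have h3 := hx1 _ hy'
        rw [show t⁻¹ * (t * (y : G) * t⁻¹) * t = y by group] at h3
        exact Subtype.ext h3.symm
      · rw [hBdef, H46.ext0_of_mem _ hxC] at hx2
        exact hx2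
    obtain ⟨c, hc⟩ := hf1 Q hQp hQg
    refine ⟨c, c.2, ?_⟩
    -- `(t c)⁻¹ V (t c) ≤ V`
    have h4 : ∀ v ∈ V, (t * (c : G))⁻¹ * v * (t * c) ∈ V := by
      intro v hv
      have h5 : (⟨t⁻¹ * v * t, ht v hv⟩ : Cu u) ∈ Q := by
        change t⁻¹ * v * t ∈ conjS t⁻¹ V
        rw [mem_conjS, inv_inv, show t * (t⁻¹ * v * t) * t⁻¹ = v by group]
        exact hv
      have h6 := hc h5
      rw [mem_conjS] at h6
      have h7 : (c : G)⁻¹ * (t⁻¹ * v * t) * c ∈ V := h6
      rwa [show (t * (c : G))⁻¹ * v * (t * c) = (c : G)⁻¹ * (t⁻¹ * v * t) * c by group]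
    have h8 : (t * (c : G))⁻¹ ∈ Subgroup.normalizer (V : Set G) := by
      have h9 : conjS (t * (c : G))⁻¹ V = V := by
        apply Subgroup.eq_of_le_of_card_ge
        · intro y hy
          rw [mem_conjS, inv_inv] at hy
          have := h4 _ hy
          rwa [show (t * (c : G))⁻¹ * (t * c * y * (t * (c : G))⁻¹) * (t * c) = y by group]
            at this
        · exact (Nat.card_congr (V.equivMapOfInjective (MulAut.conj (t * (c : G))⁻¹).toMonoidHom
            (MulAut.conj (t * (c : G))⁻¹).injective).toEquiv).le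
      rw [Subgroup.mem_normalizer_iff]
      intro v
      conv_rhs => rw [← h9]
      rw [mem_conjS, inv_inv]
      rw [show t * (c : G) * ((t * (c : G))⁻¹ * v * (t * c)) * (t * (c : G))⁻¹ = v by group]
    have := inv_mem h8
    rwa [inv_inv] at this
  have h1 : mulF (br V B) γ = γ := by
    rw [hBb]
    exact hLc.gam
  have h2 : mulF (br V e) γ = γ := hL.und
  obtain ⟨S, f, hf, hcard, hzγ⟩ := core_sum hF hT.pg hab hVC hXC hB hu hwC hgood hγ h1 hbx
  have hz : trc (Cu u) u b = tsm (Cu u) (fun x => B (u⁻¹ * x)) := rfl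
  have hzC : ∀ c ∈ Cu u, cj c (fun x => B (u⁻¹ * x)) = fun x => B (u⁻¹ * x) := by
    intro c hc
    funext x
    change B (u⁻¹ * (c⁻¹ * x * c)) = B (u⁻¹ * x)
    have h2 := (cj_eq_iff c B).1 (hB.inv hc) (u⁻¹ * (c⁻¹ * x * c))
    rw [← h2]
    congr 1
    have h4 : c * u⁻¹ = u⁻¹ * c := (show Commute c u from hwC c hc).inv_right.eq
    calc c * (u⁻¹ * (c⁻¹ * x * c)) * c⁻¹ = (c * u⁻¹) * (c⁻¹ * x) := by group
      _ = u⁻¹ * x := by rw [h4]; group
  have hzcl : IsCl (trc (Cu u) u b) := by
    rw [hz]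
    exact tsm_cl hzC
  set c := res M (trc (Cu u) u b) χ with hc
  have hlam := H50.isChar_res (M := M) hχ.1
  have ho : IsCl (dl (FF M) (1 : G)) := H46.isIdem_one.1
  have hs : IsCl (c • dl (FF M) (1 : G)) := (cfs (FF M) G).smul_mem c ho
  have hcl : IsCl (trc (Cu u) u b - c • dl (FF M) (1 : G)) := (cfs (FF M) G).sub_mem hzcl hs
  have h0 : res M (trc (Cu u) u b - c • dl (FF M) (1 : G)) χ = 0 := by
    have e1 := hlam.sub _ _ hzcl hs
    have e2 := hlam.smul c _ ho
    have e3 := hlam.one he.1.1 hχ.2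
    rw [e1, e2, e3, mul_one, ← hc, sub_self]
  obtain ⟨n, hn⟩ := H50.nil_of_zero he hcl hlam hχ.2 h0
  have h3 := (br_iter hF hT.pg (H66.IsCl.inv hcl V) (H66.IsCl.inv he.1.1 V) n).2
  rw [hn] at h3
  have h4 : br V (0 : G → FF M) = 0 := by
    funext g
    by_cases hg : g ∈ Subgroup.centralizer (V : Set G)
    · rw [H66.br_of_mem hg]
    · rw [H66.br_of_not_mem hg]
      rfl
  rw [h4] at h3
  have h5 := congrArg ma h3
  rw [ma_zero, ma_iterate] at h5
  have hbr : ma (br V (trc (Cu u) u b - c • dl (FF M) (1 : G))) =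
      ma (br V (trc (Cu u) u b)) - algebraMap (FF M) (MonoidAlgebra (FF M) G) c := by
    have e1 : br V (trc (Cu u) u b - c • dl (FF M) (1 : G)) =
        br V (trc (Cu u) u b) - c • dl (FF M) (1 : G) := by
      funext g
      by_cases hg : g ∈ Subgroup.centralizer (V : Set G)
      · rw [H66.br_of_mem hg]
        change _ = br V (trc (Cu u) u b) g - _
        rw [H66.br_of_mem hg]
        rfl
      · rw [H66.br_of_not_mem hg]
        change _ = br V (trc (Cu u) u b) g - c * dl (FF M) (1 : G) g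
        rw [H66.br_of_not_mem hg]
        have e2 : dl (FF M) (1 : G) g = 0 := by
          unfold dl
          rw [if_neg]
          rintro rfl
          exact hg (Subgroup.one_mem _)
        rw [e2, mul_zero, sub_zero]
    rw [e1, ma_sub, ma_smul, ma_dl_one, Algebra.algebraMap_eq_smul_one]
  rw [hbr] at h5
  have h6 : (ma (br V (trc (Cu u) u b)) - algebraMap (FF M) (MonoidAlgebra (FF M) G) c) ^ n *
      ma γ = 0 := by
    conv_lhs => rw [← h2, ma_mul, ← mul_assoc, ← h5, zero_mul]
  have h7 := nil_eq hF hT.pg hab S f hf hγ.ne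
    (fun v hv => hγ.ix.inv (by
      rw [Subgroup.mem_centralizer_iff]
      intro x hx
      exact hab x hx v hv)) hzγ c n h6
  rw [← h7, hcard]
  rfl

/-- **RSV** -/
theorem rsv : RsvStmt := rsv_of H69.fmg

end Pool.Agent.PP.T3.H17
end
end -- Pool.Agent.Helper17_AT3.RSV

section -- Pool.Agent.Helper17_AT8.OMI

/-!
# Squad AT8, module OMI: the central characters at the sum of the conjugates of `i`
-/

open scoped BigOperators

noncomputable section

namespace Pool.Agent.PP.T8.H17

open Pool.Agent.Helper51_AWC Pool.Agent.Helper79_WRA Pool.Agent.PP Pool.Agent.PP.KF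
open Pool.Agent.PP.K9 Pool.Agent.PP.K9.H97 Pool.Agent.PP.H75 Pool.Agent.PP.T3 Pool.Agent.PP.T2
open Pool.Agent.PP.T8

section core

variable {F G : Type} [Field F] [Group G] [Finite G]

theorem sum_any {α A : Type} [AddCommMonoid A] (i₁ i₂ : Fintype α) (f g : α → A)
    (h : ∀ x, f x = g x) :
    @Finset.sum α A _ (@Finset.univ α i₁) f = @Finset.sum α A _ (@Finset.univ α i₂) g := by
  have : i₁ = i₂ := Subsingleton.elim _ _
  subst this
  exact Finset.sum_congr rfl fun x _ => h x

/-- a sum over cosets in stages -/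
theorem coset_sum {A : Type} [AddCommMonoid A] {V X : Subgroup G} (hVX : V ≤ X) (H : G → A)
    (hH : ∀ g, ∀ v ∈ V, H (g * v) = H g) [Fintype (G ⧸ V)] [Fintype (G ⧸ X)]
    [Fintype (X ⧸ V.subgroupOf X)] :
    ∑ q : G ⧸ V, H q.out = ∑ p : G ⧸ X, ∑ x : X ⧸ V.subgroupOf X, H (p.out * (x.out : X)) := by
  rw [← Equiv.sum_comp (Subgroup.quotientEquivProdOfLE hVX).symm, Fintype.sum_prod_type]
  refine Finset.sum_congr rfl fun p _ => Finset.sum_congr rfl fun x _ => ?_
  have h1 : (Subgroup.quotientEquivProdOfLE hVX).symm (p, x) =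
      ((p.out * ((x.out : X) : G) : G) : G ⧸ V) := by
    conv_lhs => rw [← QuotientGroup.out_eq' x]
    rfl
  rw [h1]
  obtain ⟨v, hv⟩ := QuotientGroup.mk_out_eq_mul V (p.out * ((x.out : X) : G))
  rw [hv]
  exact hH _ v v.2

theorem norm_of_conj {V : Subgroup G} {t : G} (h : ∀ v ∈ V, t⁻¹ * v * t ∈ V) :
    t ∈ Subgroup.normalizer (V : Set G) := by
  have h1 : V.map (MulAut.conj t⁻¹).toMonoidHom = V := by
    apply Subgroup.eq_of_le_of_card_ge
    · rintro _ ⟨v, hv, rfl⟩
      have := h v hv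
      change t⁻¹ * v * t⁻¹⁻¹ ∈ V
      rwa [inv_inv]
    · exact (Nat.card_congr (V.equivMapOfInjective (MulAut.conj t⁻¹).toMonoidHom
        (MulAut.conj t⁻¹).injective).toEquiv).le
  rw [Subgroup.mem_normalizer_iff]
  intro v
  constructor
  · intro hv
    rw [← h1] at hv
    obtain ⟨w, hw, hwv⟩ := hv
    have h2 : t⁻¹ * w * t⁻¹⁻¹ = v := hwv
    have h3 : t * v * t⁻¹ = w := by
      rw [← h2]
      group
    rw [h3]
    exact hw
  · intro hv
    have h2 := h _ hv
    rwa [show t⁻¹ * (t * v * t⁻¹) * t = v by group] at h2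

theorem cj_fsum {ι : Type} (s : Finset ι) (f : ι → G → F) (t : G) :
    cj t (∑ i ∈ s, f i) = ∑ i ∈ s, cj t (f i) := by
  funext x
  rw [cj, Finset.sum_apply, Finset.sum_apply]
  rfl

/-- the Brauer image of the sum of the conjugates -/
theorem core_om {ℓ : ℕ} (hF : GoodF ℓ F) {V : Subgroup G} (hV : IsPGroup ℓ V)
    (hab : ∀ a ∈ V, ∀ b ∈ V, a * b = b * a) {γ : G → F}
    (hγ : Bx (Subgroup.centralizer (V : Set G)) γ) {a : G → F} (haV : ∀ v ∈ V, cj v a = a)
    (haγ : mulF (br V a) γ = br V a) [Fintype (G ⧸ Subgroup.centralizer (V : Set G))]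
    [Fintype ((Subgroup.centralizer (V : Set G)) ⧸ V.subgroupOf (Subgroup.centralizer (V : Set G)))]
    [DecidablePred fun g : G => g ∈ Tg V γ] :
    mulF (br V (tsm V a)) γ =
      ∑ p : G ⧸ Subgroup.centralizer (V : Set G), if p.out ∈ Tg V γ then
        cj p.out (∑ x : (Subgroup.centralizer (V : Set G)) ⧸
          V.subgroupOf (Subgroup.centralizer (V : Set G)),
            cj ((x.out : Subgroup.centralizer (V : Set G)) : G) (br V a)) else 0 := by
  classical
  set X := Subgroup.centralizer (V : Set G) with hX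
  set N := Subgroup.normalizer (V : Set G) with hN
  have hXN : X ≤ N := by
    intro g hg
    rw [hN, Subgroup.mem_normalizer_iff]
    intro v
    have h1 := Subgroup.mem_centralizer_iff.1 hg
    constructor
    · intro hv
      rw [← h1 v hv, mul_inv_cancel_right]
      exact hv
    · intro hv
      have h2 := h1 _ hv
      have h3 : g * v = g * (g * v * g⁻¹) := by
        rw [← h2]
        group
      rw [mul_left_cancel h3]
      exact hv
  have hNX : N ≤ Subgroup.normalizer (X : Set G) := by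
    intro g hg
    rw [Subgroup.mem_normalizer_iff]
    intro x
    constructor
    · exact H34.conj_cent hg
    · intro h
      have := H34.conj_cent (inv_mem hg) h
      have e : g⁻¹ * (g * x * g⁻¹) * g⁻¹⁻¹ = x := by group
      rwa [e] at this
  have hVX : V ≤ X := by
    intro v hv
    rw [hX, Subgroup.mem_centralizer_iff]
    intro x hx
    exact hab x hx v hv
  have hVN : V ≤ N := hVX.trans hXN
  have hXT : X ≤ Tg V γ := by
    intro x hx
    exact ⟨hXN hx, (cj_eq_iff _ _).1 (hγ.ix.inv hx)⟩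
  have := Fintype.ofFinite (G ⧸ V)
  set a' := br V a with ha'
  have hinj : ∀ t ∈ N, ∀ x, t⁻¹ * x * t ∈ X ↔ x ∈ X := fun t ht x => conj_mem_iff (hNX ht) x
  have hcja : ∀ t ∈ N, ∀ g ∈ X, cj t a g = cj t a' g := by
    intro t ht g hg
    rw [cj, cj, ha', H66.br_of_mem ((hinj t ht g).2 hg)]
  have hQN : ∀ q : G ⧸ V, q ∈ QN N V ↔ q.out ∈ N := by
    intro q
    constructor
    · rintro ⟨t, ht, rfl⟩
      obtain ⟨v, hv⟩ := QuotientGroup.mk_out_eq_mul V t
      rw [hv]
      exact N.mul_mem ht (hVN v.2)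
    · intro h
      exact ⟨q.out, h, QuotientGroup.out_eq' q⟩
  -- the Brauer image
  have hB : br V (tsm V a) = ∑ q : G ⧸ V, if q.out ∈ N then cj q.out a' else 0 := by
    funext g
    rw [Finset.sum_apply]
    by_cases hg : g ∈ X
    · rw [H66.br_of_mem hg, tsm_br hF hV le_rfl haV
        (fun t ht g _ _ => ⟨t, norm_of_conj ht, rfl⟩) hg, finsum_eq_sum_of_fintype]
      refine Finset.sum_congr rfl fun q _ => ?_
      rw [finsum_eq_if]
      by_cases hq : q.out ∈ N
      · rw [if_pos ((hQN q).2 hq), if_pos hq, hcja _ hq g hg]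
      · rw [if_neg (fun h => hq ((hQN q).1 h)), if_neg hq]
        rfl
    · rw [H66.br_of_not_mem hg]
      symm
      apply Finset.sum_eq_zero
      intro q _
      by_cases hq : q.out ∈ N
      · rw [if_pos hq, cj, ha', H66.br_of_not_mem (fun h => hg ((hinj _ hq g).1 h))]
      · rw [if_neg hq]
        rfl
  -- multiplication with `γ`
  have hS : mulF (br V (tsm V a)) γ = ∑ q : G ⧸ V, if q.out ∈ Tg V γ then cj q.out a' else 0 := by
    apply ma_injective
    rw [ma_mul, hB, ma_sum, Finset.sum_mul, ma_sum]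
    refine Finset.sum_congr rfl fun q _ => ?_
    by_cases hq : q.out ∈ N
    · rw [if_pos hq]
      have h1 := congrArg (cj q.out) haγ
      rw [cj_mulF] at h1
      by_cases hs : cj q.out γ = γ
      · rw [if_pos (show q.out ∈ Tg V γ from ⟨hq, (cj_eq_iff _ _).1 hs⟩), ← ma_mul]
        rw [hs] at h1
        rw [h1]
      · rw [if_neg (fun h => hs ((cj_eq_iff _ _).2 h.2)), ma_zero, ← h1, ma_mul, mul_assoc,
          ← ma_mul (cj q.out γ)]
        rcases (hγ.cj (hNX hq)).dich hγ with h2 | h2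
        · exact absurd h2 hs
        · rw [h2, ma_zero, mul_zero]
    · rw [if_neg hq, if_neg (fun h => hq h.1), ma_zero, zero_mul]
  have haV' : ∀ v ∈ V, cj v a' = a' := by
    intro v hv
    funext x
    by_cases hx : x ∈ X
    · have h1 : v⁻¹ * x * v = x := by
        have := Subgroup.mem_centralizer_iff.1 hx v hv
        rw [mul_assoc, ← this, inv_mul_cancel_left]
      rw [cj, h1]
    · rw [cj, ha', H66.br_of_not_mem hx,
        H66.br_of_not_mem (fun h => hx ((hinj v (hVN hv) x).1 h))]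
  rw [hS, coset_sum hVX (fun t => if t ∈ Tg V γ then cj t a' else 0)]
  · refine sum_any _ _ _ _ fun p => ?_
    by_cases hp : p.out ∈ Tg V γ
    · rw [if_pos hp, cj_fsum]
      refine sum_any _ _ _ _ fun x => ?_
      rw [if_pos ((Tg V γ).mul_mem hp (hXT x.out.2)), cj_cj]
    · rw [if_neg hp]
      apply Finset.sum_eq_zero
      intro x _
      rw [if_neg]
      intro h
      apply hp
      have := (Tg V γ).mul_mem h ((Tg V γ).inv_mem (hXT x.out.2))
      rwa [mul_inv_cancel_right] at this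
  · intro g v hv
    by_cases hg : g ∈ Tg V γ
    · rw [if_pos hg, if_pos ((Tg V γ).mul_mem hg (hXT (hVX hv))), ← cj_cj, haV' v hv]
    · rw [if_neg hg, if_neg]
      intro h
      apply hg
      have := (Tg V γ).mul_mem h ((Tg V γ).inv_mem (hXT (hVX hv)))
      rwa [mul_inv_cancel_right] at this

end core

attribute [local instance] Ideal.Quotient.field

theorem isChar_sum {F H : Type} [Field F] [Group H] [Finite H] {lam : (H → F) → F}
    (h : H50.IsChar lam) {ι : Type} (s : Finset ι) (f : ι → H → F) (hf : ∀ i ∈ s, IsCl (f i)) :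
    IsCl (∑ i ∈ s, f i) ∧ lam (∑ i ∈ s, f i) = ∑ i ∈ s, lam (f i) := by
  classical
  have hz : IsCl (0 : H → F) := fun x y => rfl
  induction s using Finset.induction_on with
  | empty => exact ⟨by rw [Finset.sum_empty]; exact hz, by
      rw [Finset.sum_empty, Finset.sum_empty, h.zero]⟩
  | insert i s hi ih =>
    obtain ⟨h1, h2⟩ := ih fun j hj => hf j (Finset.mem_insert_of_mem hj)
    have h3 := hf i (Finset.mem_insert_self _ _)
    have hn : IsCl (-(∑ j ∈ s, f j)) := fun x y => congrArg Neg.neg (h1 x y)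
    have e1 : lam (-(∑ j ∈ s, f j)) = -lam (∑ j ∈ s, f j) := by
      have := h.sub 0 _ hz h1
      rwa [zero_sub, h.zero, zero_sub] at this
    have e2 := h.sub _ _ h3 hn
    rw [sub_neg_eq_add, e1, sub_neg_eq_add] at e2
    rw [Finset.sum_insert hi, Finset.sum_insert hi]
    exact ⟨fun x y => congrArg₂ (· + ·) (h3 x y) (h1 x y), by rw [e2, h2]⟩

open Classical in
theorem omi : OmiStmt := by
  intro ℓ _ M _ hM G _ _ e V γ hL i hiR hiV hiγ χ hχ κ hκ
  have := Fintype.ofFinite G
  have hab := hL.ab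
  have hγ := hL.gam
  have hF : GoodF ℓ (FF M) := H50.fld ℓ Fact.out M hM
  have hVX : V ≤ (Subgroup.centralizer (V : Set G)) := by
    intro v hv
    rw [Subgroup.mem_centralizer_iff]
    intro x hx
    exact hab x hx v hv
  have hVcard : Nat.card (V.subgroupOf (Subgroup.centralizer (V : Set G))) = Nat.card V :=
    Nat.card_congr (Subgroup.subgroupOfEquivOfLe hVX).toEquiv
  have := Fintype.ofFinite (Subgroup.centralizer (V : Set G))
  -- the first number
  have hz := H65.zet_cl (C := V) hiV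
  have hzR : ∀ g, H65.zet V i g ∈ RM M := fun g => Subring.sum_mem _ fun q _ => hiR _
  have k1 := H65.om_RM (M := M) hz hzR hχ.1
  rw [H65.zet_om hχ.1] at k1
  have htr : (fun g => rr M (H65.zet V i g)) = tsm V (rd M i) := by
    funext g
    unfold H65.zet tsm
    rw [rr_sum _ _ fun q _ => hiR _, finsum_eq_sum_of_fintype]
    exact sum_any _ _ _ _ fun q => rfl
  rw [htr] at k1
  -- the second number
  have hiV' : ∀ c ∈ V.subgroupOf (Subgroup.centralizer (V : Set G)), ∀ g : (Subgroup.centralizer (V : Set G)), i ((c * g * c⁻¹ : (Subgroup.centralizer (V : Set G))) : G) = i (g : G) := by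
    intro c hc g
    exact hiV c hc g
  have hz2 := H65.zet_cl (C := V.subgroupOf (Subgroup.centralizer (V : Set G))) (w := fun t : (Subgroup.centralizer (V : Set G)) => i (t : G)) hiV'
  have hzR2 : ∀ g, H65.zet (V.subgroupOf (Subgroup.centralizer (V : Set G))) (fun t : (Subgroup.centralizer (V : Set G)) => i (t : G)) g ∈ RM M := fun g =>
    Subring.sum_mem _ fun q _ => hiR _
  have k2 := H65.om_RM (M := M) hz2 hzR2 hκ.1
  rw [H65.zet_om hκ.1, hVcard] at k2
  have htr2 : (fun g => rr M (H65.zet (V.subgroupOf (Subgroup.centralizer (V : Set G))) (fun t : (Subgroup.centralizer (V : Set G)) => i (t : G)) g)) =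
      tsm (V.subgroupOf (Subgroup.centralizer (V : Set G))) (fun t : (Subgroup.centralizer (V : Set G)) => rd M i (t : G)) := by
    funext g
    unfold H65.zet tsm
    rw [rr_sum _ _ fun q _ => hiR _, finsum_eq_sum_of_fintype]
    exact sum_any _ _ _ _ fun q => rfl
  rw [htr2] at k2
  refine ⟨k1.1, k2.1, ?_⟩
  have k3 : rr M (Nat.card (Subgroup.centralizer (V : Set G)) * (∑ᶠ t : (Subgroup.centralizer (V : Set G)), i t * κ t) / (Nat.card V * κ 1)) =
      res M (tsm (V.subgroupOf (Subgroup.centralizer (V : Set G))) (fun t : (Subgroup.centralizer (V : Set G)) => rd M i (t : G))) κ := k2.2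
  rw [k1.2, k3]
  -- the central characters
  set a := rd M i with ha
  have haV : ∀ v ∈ V, cj v a = a := fun v hv =>
    (cj_eq_iff v a).2 fun x => congrArg (rr M) (hiV v hv x)
  have hzcl : IsCl (tsm V a) := tsm_cl haV
  have hlam1 := H50.isChar_res (M := M) hχ.1
  have hlamκ := H50.isChar_res (M := M) hκ.1
  set r : (G → FF M) → (Subgroup.centralizer (V : Set G)) → FF M := fun c x => br V c x with hr
  have hrX : ∀ (c : G → FF M) (x : (Subgroup.centralizer (V : Set G))), r c x = c x := fun c x => H66.br_of_mem x.2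
  have hrcl : ∀ c : G → FF M, IsCl c → IsCl (r c) := by
    intro c hc x y
    rw [hrX, hrX]
    exact hc x y
  have hrmul : ∀ (c : G → FF M) (c' : G → FF M), (fun x : (Subgroup.centralizer (V : Set G)) => mulF (br V c) c' x) =
      mulF (r c) (fun x : (Subgroup.centralizer (V : Set G)) => c' x) := fun c c' =>
    mulF_res (Subgroup.centralizer (V : Set G)) c' fun x hx => H66.br_of_not_mem hx
  have hlam2 : H50.IsChar (fun c : G → FF M => res M (r c) κ) := by
    constructor
    · intro c c' hc hc'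
      have h1 : r (c - c') = r c - r c' := by
        funext x
        rw [hrX, Pi.sub_apply, Pi.sub_apply, hrX, hrX]
      change res M (r (c - c')) κ = _
      rw [h1]
      exact hlamκ.sub _ _ (hrcl c hc) (hrcl c' hc')
    · intro z c hc
      have h1 : r (z • c) = z • r c := by
        funext x
        rw [hrX, Pi.smul_apply, Pi.smul_apply, hrX]
      change res M (r (z • c)) κ = _
      rw [h1]
      exact hlamκ.smul _ _ (hrcl c hc)
    · intro c c' hc hc'
      have h1 : r (mulF c c') = mulF (r c) (r c') := by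
        have h2 := br_mulF H74.orb hF hL.tp.pg (a := c) (c := c')
          (fun p _ => (cj_eq_iff p c).2 fun x => hc x p)
          (fun p _ => (cj_eq_iff p c').2 fun x => hc' x p)
        have h3 : r (mulF c c') = fun x : (Subgroup.centralizer (V : Set G)) => mulF (br V c) (br V c') x := by
          funext x
          rw [← h2]
        rw [h3, hrmul]
      change res M (r (mulF c c')) κ = _
      rw [h1]
      exact hlamκ.mul _ _ (hrcl c hc) (hrcl c' hc')
  have hγcl : IsCl (fun x : (Subgroup.centralizer (V : Set G)) => γ x) := hγ.blk.1.1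
  have hγ1 : res M (fun x : (Subgroup.centralizer (V : Set G)) => γ x) κ = 1 := hκ.2
  have hmulγ : ∀ c : (Subgroup.centralizer (V : Set G)) → FF M, IsCl c → res M (mulF c (fun x : (Subgroup.centralizer (V : Set G)) => γ x)) κ = res M c κ := by
    intro c hc
    have h1 := hlamκ.mul c _ hc hγcl
    rw [hγ1, mul_one] at h1
    exact h1
  have h2e : res M (r e) κ = 1 := by
    rw [← hmulγ _ (hrcl e hL.blk.1.1), ← hrmul]
    rw [hL.und]
    exact hγ1
  have huniq : res M (tsm V a) χ = res M (r (tsm V a)) κ :=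
    H50.char_uniq hL.blk hlam1 hlam2 hχ.2 h2e hzcl
  -- the sum over the cosets
  set Z : G → FF M := ∑ x : (Subgroup.centralizer (V : Set G)) ⧸ V.subgroupOf (Subgroup.centralizer (V : Set G)), cj ((x.out : (Subgroup.centralizer (V : Set G))) : G) (br V a) with hZ
  have hcore := core_om hF hL.tp.pg hab hγ haV hiγ
  have hXN : (Subgroup.centralizer (V : Set G)) ≤ Subgroup.normalizer (V : Set G) := by
    intro g hg
    apply norm_of_conj
    intro v hv
    have h1 := Subgroup.mem_centralizer_iff.1 hg v hv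
    rw [mul_assoc, h1, inv_mul_cancel_left]
    exact hv
  have hXT : (Subgroup.centralizer (V : Set G)) ≤ Tg V γ := by
    intro x hx
    exact ⟨hXN hx, (cj_eq_iff _ _).1 (hγ.ix.inv hx)⟩
  -- the restriction of `Z`
  have hZr : (fun x : (Subgroup.centralizer (V : Set G)) => Z x) = tsm (V.subgroupOf (Subgroup.centralizer (V : Set G))) (fun t : (Subgroup.centralizer (V : Set G)) => a (t : G)) := by
    funext g
    unfold tsm
    rw [hZ, Finset.sum_apply, finsum_eq_sum_of_fintype]
    refine Finset.sum_congr rfl fun x _ => ?_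
    change br V a _ = a _
    have h1 : ((x.out : (Subgroup.centralizer (V : Set G))) : G)⁻¹ * g * ((x.out : (Subgroup.centralizer (V : Set G))) : G) ∈ (Subgroup.centralizer (V : Set G)) :=
      (Subgroup.centralizer (V : Set G)).mul_mem ((Subgroup.centralizer (V : Set G)).mul_mem ((Subgroup.centralizer (V : Set G)).inv_mem x.out.2) g.2) x.out.2
    rw [H66.br_of_mem h1]
    rfl
  have hZcl : IsCl (fun x : (Subgroup.centralizer (V : Set G)) => Z x) := by
    rw [hZr]
    apply tsm_cl
    intro v hv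
    refine (cj_eq_iff v _).2 fun x => ?_
    exact congrArg (rr M) (hiV v hv x)
  have hterm : ∀ t ∈ Tg V γ, IsCl (fun x : (Subgroup.centralizer (V : Set G)) => cj t Z x) ∧
      res M (fun x : (Subgroup.centralizer (V : Set G)) => cj t Z x) κ = res M (fun x : (Subgroup.centralizer (V : Set G)) => Z x) κ := by
    intro t ht
    have ht1 : t⁻¹ ∈ Subgroup.normalizer (V : Set G) := inv_mem ht.1
    set φ := H34.cj V t⁻¹ ht1 with hφ
    have hφc : ∀ x : (Subgroup.centralizer (V : Set G)), ((φ x : (Subgroup.centralizer (V : Set G))) : G) = t⁻¹ * x * t := by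
      intro x
      rw [hφ, H34.cj_coe, inv_inv]
    have h1 : ∀ c : G → FF M, (fun x : (Subgroup.centralizer (V : Set G)) => cj t c x) = fun x : (Subgroup.centralizer (V : Set G)) => (fun y : (Subgroup.centralizer (V : Set G)) => c y) (φ x) := by
      intro c
      funext x
      change c (t⁻¹ * x * t) = c (φ x : (Subgroup.centralizer (V : Set G)))
      rw [hφc]
    constructor
    · rw [h1]
      exact H34.isCl_comp φ hZcl
    · have hlam3 := H34.isChar_comp φ hlamκ
      have h2 : res M (fun x : (Subgroup.centralizer (V : Set G)) => (fun y : (Subgroup.centralizer (V : Set G)) => γ y) (φ x)) κ = 1 := by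
        rw [← h1, (cj_eq_iff t γ).2 ht.2]
        exact hγ1
      have h3 := H50.char_uniq hγ.blk hlam3 hlamκ h2 hγ1 hZcl
      rw [h1]
      exact h3
  have hcard : (Finset.univ.filter fun p : G ⧸ (Subgroup.centralizer (V : Set G)) => p.out ∈ Tg V γ).card = ix V γ := by
    unfold ix
    rw [← orbit_card, ← Set.ncard_coe_finset]
    congr 1
    ext p
    rw [Finset.mem_coe, Finset.mem_filter, MulAction.mem_orbit_iff]
    constructor
    · rintro ⟨-, hp⟩
      refine ⟨⟨p.out, hp⟩, ?_⟩
      change ((p.out * 1 : G) : G ⧸ (Subgroup.centralizer (V : Set G))) = p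
      rw [mul_one]
      exact QuotientGroup.out_eq' p
    · rintro ⟨⟨t, ht⟩, rfl⟩
      refine ⟨Finset.mem_univ _, ?_⟩
      have h1 : ((⟨t, ht⟩ : Tg V γ) • ((1 : G) : G ⧸ (Subgroup.centralizer (V : Set G)))) = ((t : G) : G ⧸ (Subgroup.centralizer (V : Set G))) := by
        change ((t * 1 : G) : G ⧸ (Subgroup.centralizer (V : Set G))) = _
        rw [mul_one]
      rw [h1]
      obtain ⟨x, hx⟩ := QuotientGroup.mk_out_eq_mul (Subgroup.centralizer (V : Set G)) t
      rw [hx]
      exact (Tg V γ).mul_mem ht (hXT x.2)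
  have hfin : res M (r (tsm V a)) κ = (ix V γ : FF M) * res M (fun x : (Subgroup.centralizer (V : Set G)) => Z x) κ := by
    rw [← hmulγ _ (hrcl _ hzcl), ← hrmul, hcore]
    have h1 : (fun x : (Subgroup.centralizer (V : Set G)) => (∑ p : G ⧸ (Subgroup.centralizer (V : Set G)), if p.out ∈ Tg V γ then cj p.out Z else 0 : G → FF M) x) =
        ∑ p ∈ Finset.univ.filter (fun p : G ⧸ (Subgroup.centralizer (V : Set G)) => p.out ∈ Tg V γ),
          (fun x : (Subgroup.centralizer (V : Set G)) => cj p.out Z x) := by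
      funext x
      rw [← Finset.sum_filter, Finset.sum_apply, Finset.sum_apply]
    rw [h1, (isChar_sum hlamκ _ _ fun p hp => (hterm _ (Finset.mem_filter.1 hp).2).1).2,
      Finset.sum_congr rfl fun p hp => (hterm _ (Finset.mem_filter.1 hp).2).2, Finset.sum_const,
      hcard, nsmul_eq_mul]
  rw [huniq, hfin, hZr]

end Pool.Agent.PP.T8.H17
end
end -- Pool.Agent.Helper17_AT8.OMI

section -- Pool.Agent.Helper35_AT6.YEX

/-!
# Squad AT6, module YEX: the element `y`
-/

open scoped BigOperators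

noncomputable section

namespace Pool.Agent.PP.T6.H35

open Pool.Agent.Helper51_AWC Pool.Agent.Helper79_WRA Pool.Agent.PP Pool.Agent.PP.KF
open Pool.Agent.PP.K9 Pool.Agent.PP.K9.H97 Pool.Agent.PP.H75 Pool.Agent.PP.T3 Pool.Agent.PP.T2
open Pool.Agent.PP.T8 (rd)

section abs

variable {F A : Type} [Field F] [Group A] [Finite A]

theorem dl_isCl_cent {x : A} (hx : x ∈ Subgroup.center A) : IsCl (dl F x) := by
  classical
  intro t g
  unfold dl
  have h : g * t * g⁻¹ = x ↔ t = x := by
    constructor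
    · intro h
      have h1 := (Subgroup.mem_center_iff.1 hx) g
      have h2 : t = g⁻¹ * x * g := by rw [← h]; group
      rw [h2, mul_assoc, ← h1, inv_mul_cancel_left]
    · rintro rfl
      have h1 := (Subgroup.mem_center_iff.1 hx) g
      rw [h1, mul_inv_cancel_right]
  by_cases h' : t = x
  · rw [if_pos (h.2 h'), if_pos h']
  · rw [if_neg (fun h1 => h' (h.1 h1)), if_neg h']

/-- the sum of the conjugates of a product with a class function -/
theorem tsm_mul_cl {Z : Subgroup A} {b : A → F} (hb : IsCl b) (d : A → F) :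
    tsm Z (mulF b d) = mulF b (tsm Z d) := by
  classical
  have := Fintype.ofFinite (A ⧸ Z)
  have h1 : ∀ a : A → F, tsm Z a = ∑ q : A ⧸ Z, cj q.out a := by
    intro a
    funext g
    unfold tsm
    rw [finsum_eq_sum_of_fintype, Finset.sum_apply]
  rw [h1, h1]
  apply ma_injective
  rw [ma_mul, ma_sum, ma_sum, Finset.mul_sum]
  refine Finset.sum_congr rfl fun q _ => ?_
  rw [cj_mulF, cj_isCl _ hb, ma_mul]

/-- the sum of the conjugates of an element is a multiple of the class sum -/
theorem tsm_dl {Z : Subgroup A} (hZ : Z ≤ Subgroup.center A) (y : A) :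
    tsm Z (dl F y) = ((Z.relIndex (Subgroup.centralizer ({y} : Set A)) : ℕ) : F) •
      clsum F (⊤ : Subgroup A) y := by
  classical
  set X := Subgroup.centralizer ({y} : Set A) with hX
  have hZX : Z ≤ X := by
    intro z hz
    rw [hX, Subgroup.mem_centralizer_iff]
    intro x hx
    rw [Set.mem_singleton_iff] at hx
    rw [hx]
    exact Subgroup.mem_center_iff.1 (hZ hz) y
  have := Fintype.ofFinite (A ⧸ Z)
  have := Fintype.ofFinite (A ⧸ X)
  have := Fintype.ofFinite (X ⧸ Z.subgroupOf X)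
  have hXm : ∀ x, x ∈ X ↔ x * y = y * x := by
    intro x
    rw [hX, Subgroup.mem_centralizer_iff]
    constructor
    · intro h
      exact (h y (Set.mem_singleton y)).symm
    · intro h t ht
      rw [Set.mem_singleton_iff.1 ht]
      exact h.symm
  funext g
  unfold tsm
  rw [finsum_eq_sum_of_fintype]
  change ∑ q : A ⧸ Z, dl F y (q.out⁻¹ * g * q.out) = _
  have hH : ∀ t : A, ∀ x ∈ X, dl F y ((t * x)⁻¹ * g * (t * x)) = dl F y (t⁻¹ * g * t) := by
    intro t x hx
    unfold dl
    have h1 : (t * x)⁻¹ * g * (t * x) = y ↔ t⁻¹ * g * t = y := by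
      have h2 : (t * x)⁻¹ * g * (t * x) = x⁻¹ * (t⁻¹ * g * t) * x := by group
      rw [h2]
      constructor
      · intro h
        have h3 : t⁻¹ * g * t = x * y * x⁻¹ := by rw [← h]; group
        rw [h3, (hXm x).1 hx, mul_inv_cancel_right]
      · intro h
        rw [h, mul_assoc, ← (hXm x).1 hx, inv_mul_cancel_left]
    by_cases h3 : t⁻¹ * g * t = y
    · rw [if_pos (h1.2 h3), if_pos h3]
    · rw [if_neg (fun h => h3 (h1.1 h)), if_neg h3]
  rw [T8.H17.coset_sum hZX (fun t => dl F y (t⁻¹ * g * t)) (fun t z hz => hH t z (hZX hz))]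
  have h1 : ∀ p : A ⧸ X, ∑ x : X ⧸ Z.subgroupOf X,
      dl F y ((p.out * ((x.out : X) : A))⁻¹ * g * (p.out * ((x.out : X) : A))) =
      ((Z.relIndex X : ℕ) : F) * dl F y (p.out⁻¹ * g * p.out) := by
    intro p
    rw [Finset.sum_congr rfl fun x _ => hH p.out _ x.out.2, Finset.sum_const, nsmul_eq_mul,
      Finset.card_univ]
    congr 2
    rw [Subgroup.relIndex, Subgroup.index, Nat.card_eq_fintype_card]
  rw [Finset.sum_congr rfl fun p _ => h1 p, ← Finset.mul_sum, Pi.smul_apply, smul_eq_mul]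
  congr 1
  unfold clsum
  by_cases hg : ∃ q ∈ (⊤ : Subgroup A), g = q * y * q⁻¹
  · rw [if_pos hg]
    obtain ⟨q, -, hq⟩ := hg
    rw [Finset.sum_eq_single (q : A ⧸ X)]
    · obtain ⟨x, hx⟩ := QuotientGroup.mk_out_eq_mul X q
      rw [hx, hH q x x.2]
      unfold dl
      rw [if_pos]
      rw [hq]; group
    · intro p _ hp
      unfold dl
      rw [if_neg]
      intro h
      apply hp
      rw [← QuotientGroup.out_eq' p, QuotientGroup.eq, hXm]
      have h2 : p.out * y * p.out⁻¹ = q * y * q⁻¹ := by rw [← hq, ← h]; group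
      calc p.out⁻¹ * q * y = p.out⁻¹ * (q * y * q⁻¹) * q := by group
        _ = p.out⁻¹ * (p.out * y * p.out⁻¹) * q := by rw [h2]
        _ = y * (p.out⁻¹ * q) := by group
    · intro h
      exact absurd (Finset.mem_univ _) h
  · rw [if_neg hg]
    apply Finset.sum_eq_zero
    intro p _
    unfold dl
    rw [if_neg]
    intro h
    apply hg
    refine ⟨p.out, Subgroup.mem_top _, ?_⟩
    rw [← h]; group

theorem clsum_isCl (y : A) : IsCl (clsum F (⊤ : Subgroup A) y) := by
  classical
  intro t g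
  unfold clsum
  have h : (∃ q ∈ (⊤ : Subgroup A), g * t * g⁻¹ = q * y * q⁻¹) ↔
      ∃ q ∈ (⊤ : Subgroup A), t = q * y * q⁻¹ := by
    constructor
    · rintro ⟨q, -, hq⟩
      refine ⟨g⁻¹ * q, Subgroup.mem_top _, ?_⟩
      calc t = g⁻¹ * (g * t * g⁻¹) * g := by group
        _ = g⁻¹ * (q * y * q⁻¹) * g := by rw [hq]
        _ = _ := by group
    · rintro ⟨q, -, hq⟩
      refine ⟨g * q, Subgroup.mem_top _, ?_⟩
      rw [hq]; group
  by_cases h' : ∃ q ∈ (⊤ : Subgroup A), t = q * y * q⁻¹
  · rw [if_pos (h.2 h'), if_pos h']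
  · rw [if_neg (fun h1 => h' (h.1 h1)), if_neg h']

end abs

attribute [local instance] Ideal.Quotient.field

variable {M : Ideal (integralClosure ℤ ℂ)} [M.IsMaximal] {G : Type} [Group G] [Finite G]

omit [Finite G] in
theorem rd_dl (x : G) : rd M (dl ℂ x) = dl (FF M) x := by
  funext t
  unfold rd dl
  by_cases h : t = x
  · rw [if_pos h, if_pos h, rr_one]
  · rw [if_neg h, if_neg h, rr_zero]

omit [Finite G] in
theorem dl_RM (x : G) (t : G) : dl ℂ x t ∈ RM M := by
  unfold dl
  by_cases h : t = x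
  · rw [if_pos h]; exact (RM M).one_mem
  · rw [if_neg h]; exact (RM M).zero_mem

theorem hat_RM {X : Subgroup G} {b : G → FF M} (hb : Ix X b) (x : G) : hat M X b x ∈ RM M := by
  unfold hat H75.ext0
  by_cases h : x ∈ X
  · rw [dif_pos h]
    exact ((H25.idm M X (fun t : X => b t) hb.idem).1 _).1
  · rw [dif_neg h]; exact (RM M).zero_mem

theorem rd_hat {X : Subgroup G} {b : G → FF M} (hb : Ix X b) : rd M (hat M X b) = b := by
  funext x
  unfold rd hat H75.ext0
  by_cases h : x ∈ X
  · rw [dif_pos h]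
    exact ((H25.idm M X (fun t : X => b t) hb.idem).1 _).2
  · rw [dif_neg h, rr_zero, hb.supp x h]

theorem hat_ix {X : Subgroup G} {b : G → FF M} (hb : Ix X b) : Ix X (hat M X b) := by
  refine ⟨ext0_supp X _, ?_⟩
  have h : (fun t : X => hat M X b t) = eh M (fun t : X => b t) := by
    funext t
    unfold hat H75.ext0
    rw [dif_pos t.2]
  rw [h]
  exact (H25.idm M X (fun t : X => b t) hb.idem).2.1

theorem hat_res {X : Subgroup G} (b : G → FF M) :
    (fun t : X => hat M X b t) = eh M (fun t : X => b t) := by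
  funext t
  unfold hat H75.ext0
  rw [dif_pos t.2]

/-- the defect group of `γ` in `C(V)` -/
theorem tp_c {ℓ : ℕ} [Fact ℓ.Prime] (hM : (ℓ : integralClosure ℤ ℂ) ∈ M) {e : G → FF M}
    {V : Subgroup G} {γ : G → FF M} (hL : Ld ℓ e V γ) {C : Subgroup G}
    (hC : C = Subgroup.centralizer (V : Set G)) :
    V.subgroupOf C ≤ Subgroup.center C ∧ Tp ℓ (fun t : C => γ t) (V.subgroupOf C) := by
  have hF : GoodF ℓ (FF M) := H50.fld ℓ Fact.out M hM
  have hVC : V ≤ C := by
    intro v hv
    rw [hC, Subgroup.mem_centralizer_iff]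
    intro w hw
    exact hL.ab w hw v hv
  have hbx : Bx C γ := by rw [hC]; exact hL.gam
  have hVz : V.subgroupOf C ≤ Subgroup.center C := by
    intro v hv
    rw [Subgroup.mem_center_iff]
    intro g
    have h1 : (g : G) ∈ Subgroup.centralizer (V : Set G) := by rw [← hC]; exact g.2
    exact Subtype.ext (Subgroup.mem_centralizer_iff.1 h1 v hv).symm
  have hVcard : Nat.card (V.subgroupOf C) = Nat.card V :=
    Nat.card_congr (Subgroup.subgroupOfEquivOfLe hVC).toEquiv
  have hbrcl : IsCl (fun t : C => br V e t) := by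
    intro x y
    have h1 : ∀ t : C, br V e t = e t := fun t =>
      H66.br_of_mem (by rw [← hC]; exact t.2)
    have h2 := h1 (y * x * y⁻¹)
    have h3 := h1 x
    change br V e ((y * x * y⁻¹ : C) : G) = br V e (x : G)
    rw [h2, h3]
    exact hL.blk.1.1 _ _
  have hmul : mulF (fun t : C => br V e t) (fun t : C => γ t) = fun t : C => γ t := by
    have hs : ∀ x, x ∉ C → br V e x = 0 := fun x hx => H66.br_of_not_mem (by rw [← hC]; exact hx)
    rw [← mulF_res C γ hs, hL.und]
  refine ⟨hVz, hL.tp.pg.of_equiv (Subgroup.subgroupOfEquivOfLe hVC).symm, ?_, ?_⟩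
  · have hne : (fun t : C => γ t) ≠ 0 := hbx.blk.2.1
    obtain ⟨t, ht⟩ := Function.ne_iff.1 hne
    refine ⟨t, ?_, ht⟩
    rw [Subgroup.mem_centralizer_iff]
    intro v hv
    exact (Subgroup.mem_center_iff.1 (hVz hv) t).symm
  · intro Q hQ hQg
    have h1 := gd_of_mul hF hbrcl hbx.blk.1.1 hmul hQ hQg
    have h2 : Gd (fun t : C => e t) Q := by
      obtain ⟨g, hg1, hg2⟩ := h1
      refine ⟨g, hg1, ?_⟩
      change br V e (g : G) ≠ 0 at hg2
      rw [H66.br_of_mem (by rw [← hC]; exact g.2)] at hg2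
      exact hg2
    have hcard : Nat.card (Q.map C.subtype) = Nat.card Q :=
      (Nat.card_congr (Q.equivMapOfInjective C.subtype C.subtype_injective).toEquiv).symm
    have h3 := hL.tp.mx _ (hQ.map C.subtype) (gd_map h2)
    rw [hcard] at h3
    rw [hVcard]
    exact h3

open Classical in
theorem yex (omi : T8.OmiStmt) (fmg : FmgStmt) (inx : K9.InxStmt) : YexStmt := by
  intro ℓ _ M _ hM G _ _ e V γ hL W hWV f hf
  have := Fintype.ofFinite G
  have hF : GoodF ℓ (FF M) := H50.fld ℓ Fact.out M hM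
  have hab := hL.ab
  have hγ := hL.gam
  have hCH : Subgroup.centralizer (V : Set G) ≤ Subgroup.centralizer (W : Set G) := by
    intro x hx
    rw [Subgroup.mem_centralizer_iff]
    intro w hw
    exact Subgroup.mem_centralizer_iff.1 hx w (hWV hw)
  have hVC : V ≤ Subgroup.centralizer (V : Set G) := by
    intro v hv
    rw [Subgroup.mem_centralizer_iff]
    intro w hw
    exact hab w hw v hv
  have hVcard : Nat.card (V.subgroupOf (Subgroup.centralizer (V : Set G))) = Nat.card V :=
    Nat.card_congr (Subgroup.subgroupOfEquivOfLe hVC).toEquiv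
  obtain ⟨hVz, hTp⟩ := tp_c hM hL rfl
  obtain ⟨-, -, y₀, -, -, hidx, c, hc, hcK⟩ := fmg ℓ M hM _ _ hγ.blk _ hTp
  obtain ⟨κ, hκ⟩ := H41.irrE_ne M hM hγ.blk
  have := Fintype.ofFinite (Subgroup.centralizer (V : Set G))
  -- the element
  set Y : G → ℂ := mulF (hat M (Subgroup.centralizer (W : Set G)) f)
    (mulF (hat M (Subgroup.centralizer (V : Set G)) γ) (dl ℂ (y₀ : G))) with hY
  have hfI := hat_ix hf.blk.ix
  have hγI := hat_ix hγ.ix
  have hγR := hat_RM (M := M) hγ.ix
  have hfR := hat_RM (M := M) hf.blk.ix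
  have hdR := dl_RM (M := M) (y₀ : G)
  have hYR : ∀ g, Y g ∈ RM M :=
    T8.H28.mulF_RM hfR (T8.H28.mulF_RM hγR hdR)
  have hdV : ∀ (K : Type) [Field K], ∀ v ∈ V, cj v (dl K (y₀ : G)) = dl K (y₀ : G) := by
    intro K _ v hv
    funext x
    unfold cj dl
    have h1 : (y₀ : G) ∈ Subgroup.centralizer (V : Set G) := y₀.2
    have h2 := Subgroup.mem_centralizer_iff.1 h1 v hv
    have h3 : v⁻¹ * x * v = y₀ ↔ x = y₀ := by
      constructor
      · intro h
        have h4 : x = v * y₀ * v⁻¹ := by rw [← h]; group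
        rw [h4, h2, mul_inv_cancel_right]
      · rintro rfl
        rw [mul_assoc, ← h2, inv_mul_cancel_left]
    by_cases h4 : x = y₀
    · rw [if_pos (h3.2 h4), if_pos h4]
    · rw [if_neg (fun h => h4 (h3.1 h)), if_neg h4]
  have hYV : ∀ v ∈ V, cj v Y = Y := by
    intro v hv
    rw [hY, cj_mulF, cj_mulF, hfI.inv (hCH (hVC hv)), hγI.inv (hVC hv), hdV ℂ v hv]
  have hrd : rd M Y = mulF f (mulF γ (dl (FF M) (y₀ : G))) := by
    rw [hY, T8.H28.rd_mulF hfR (T8.H28.mulF_RM hγR hdR), T8.H28.rd_mulF hγR hdR,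
      rd_hat hf.blk.ix, rd_hat hγ.ix, rd_dl]
  have hfV : ∀ v ∈ V, cj v f = f := fun v hv => hf.blk.ix.inv (hCH (hVC hv))
  have hγdV : ∀ v ∈ V, cj v (mulF γ (dl (FF M) (y₀ : G))) = mulF γ (dl (FF M) (y₀ : G)) := by
    intro v hv
    rw [cj_mulF, hγ.ix.inv (hVC hv), hdV (FF M) v hv]
  have hdsupp : ∀ x, x ∉ Subgroup.centralizer (V : Set G) → dl (FF M) (y₀ : G) x = 0 := by
    intro x hx
    unfold dl
    rw [if_neg]
    rintro rfl
    exact hx y₀.2
  have hγds := mulF_supp (Subgroup.centralizer (V : Set G)) hγ.supp hdsupp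
  have hbrγd : br V (mulF γ (dl (FF M) (y₀ : G))) = mulF γ (dl (FF M) (y₀ : G)) := by
    funext x
    by_cases hx : x ∈ Subgroup.centralizer (V : Set G)
    · rw [H66.br_of_mem hx]
    · rw [H66.br_of_not_mem hx, hγds x hx]
  have hbr : br V (rd M Y) = mulF γ (dl (FF M) (y₀ : G)) := by
    rw [hrd, br_mulF H74.orb hF hL.tp.pg hfV hγdV, hbrγd, ← mulF_assoc, hf.gam]
  have hcond : mulF (br V (rd M Y)) γ = br V (rd M Y) := by
    rw [hbr, mulF_assoc, dl_move, hγ.ix.inv y₀.2, ← mulF_assoc, hγ.mul]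
  have hO := omi ℓ M hM G e V γ hL Y hYR (fun v hv => (cj_eq_iff v Y).1 (hYV v hv)) hcond
  -- the number in `C(V)`
  have hiV' : ∀ c ∈ V.subgroupOf (Subgroup.centralizer (V : Set G)),
      ∀ g : (Subgroup.centralizer (V : Set G)),
        Y ((c * g * c⁻¹ : (Subgroup.centralizer (V : Set G))) : G) = Y (g : G) := by
    intro c hc g
    exact (cj_eq_iff _ Y).1 (hYV _ hc) g
  have hz2 := H65.zet_cl (C := V.subgroupOf (Subgroup.centralizer (V : Set G)))
    (w := fun t : (Subgroup.centralizer (V : Set G)) => Y (t : G)) hiV'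
  have hzR2 : ∀ g, H65.zet (V.subgroupOf (Subgroup.centralizer (V : Set G)))
      (fun t : (Subgroup.centralizer (V : Set G)) => Y (t : G)) g ∈ RM M := fun g =>
    Subring.sum_mem _ fun q _ => hYR _
  have k2 := H65.om_RM (M := M) hz2 hzR2 hκ.1
  rw [H65.zet_om hκ.1, hVcard] at k2
  have htr2 : (fun g => rr M (H65.zet (V.subgroupOf (Subgroup.centralizer (V : Set G)))
      (fun t : (Subgroup.centralizer (V : Set G)) => Y (t : G)) g)) =
      tsm (V.subgroupOf (Subgroup.centralizer (V : Set G)))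
        (fun t : (Subgroup.centralizer (V : Set G)) => rd M Y (t : G)) := by
    funext g
    unfold H65.zet tsm
    rw [rr_sum _ _ fun q _ => hYR _, finsum_eq_sum_of_fintype]
    exact T8.H17.sum_any _ _ _ _ fun q => rfl
  have hres : (fun t : (Subgroup.centralizer (V : Set G)) => rd M Y (t : G)) =
      mulF (fun t : (Subgroup.centralizer (V : Set G)) => γ t) (dl (FF M) y₀) := by
    have h1 : (fun t : (Subgroup.centralizer (V : Set G)) => rd M Y (t : G)) =
        fun t : (Subgroup.centralizer (V : Set G)) => mulF γ (dl (FF M) (y₀ : G)) t := by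
      funext t
      rw [← hbr, H66.br_of_mem t.2]
    rw [h1, mulF_res (Subgroup.centralizer (V : Set G)) _ hγ.supp]
    congr 1
    funext t
    unfold dl
    by_cases h : t = y₀
    · rw [if_pos h, if_pos (congrArg Subtype.val h)]
    · rw [if_neg h, if_neg (fun h' => h (Subtype.ext h'))]
  rw [htr2, hres, tsm_mul_cl hγ.blk.1.1, tsm_dl hVz] at k2
  have hlamκ := H50.isChar_res (M := M) hκ.1
  have hK := clsum_isCl (F := FF M) y₀
  have hγcl : IsCl (fun x : (Subgroup.centralizer (V : Set G)) => γ x) := hγ.blk.1.1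
  have hγ1 : res M (fun x : (Subgroup.centralizer (V : Set G)) => γ x) κ = 1 := hκ.2
  have hKne : res M (clsum (FF M) (⊤ : Subgroup (Subgroup.centralizer (V : Set G))) y₀) κ ≠ 0 := by
    intro h0
    have hcKcl : IsCl (mulF c (clsum (FF M) (⊤ : Subgroup (Subgroup.centralizer (V : Set G))) y₀)) :=
      H50.isCl_mulF hc hK
    have h1 := hlamκ.mul _ _ hcKcl hγcl
    have h2 := hlamκ.mul _ _ hc hK
    rw [hcK, hγ1, h2, h0, mul_zero, zero_mul] at h1
    exact one_ne_zero h1
  have hidx' : (((V.subgroupOf (Subgroup.centralizer (V : Set G))).relIndex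
      (Subgroup.centralizer ({y₀} : Set (Subgroup.centralizer (V : Set G)))) : ℕ) : FF M) ≠ 0 := by
    have := hF.char
    intro h0
    exact hidx ((CharP.cast_eq_zero_iff (FF M) ℓ _).1 h0)
  have hix : (ix V γ : FF M) ≠ 0 := by
    have := hF.char
    intro h0
    exact inx ℓ M hM G e hL.blk V hL.tp hab γ hγ.supp hγ.blk hL.und
      ((CharP.cast_eq_zero_iff (FF M) ℓ _).1 h0)
  have hsm : IsCl (((V.subgroupOf (Subgroup.centralizer (V : Set G))).relIndex
      (Subgroup.centralizer ({y₀} : Set (Subgroup.centralizer (V : Set G)))) : FF M) •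
      clsum (FF M) (⊤ : Subgroup (Subgroup.centralizer (V : Set G))) y₀) := fun x y =>
    congrArg (_ * ·) (hK x y)
  have h2 : res M (mulF (fun t : (Subgroup.centralizer (V : Set G)) => γ t)
      (((V.subgroupOf (Subgroup.centralizer (V : Set G))).relIndex
      (Subgroup.centralizer ({y₀} : Set (Subgroup.centralizer (V : Set G)))) : FF M) •
      clsum (FF M) (⊤ : Subgroup (Subgroup.centralizer (V : Set G))) y₀)) κ ≠ 0 := by
    have h3 := hlamκ.mul _ _ hγcl hsm
    have h4 := hlamκ.smul ((V.subgroupOf (Subgroup.centralizer (V : Set G))).relIndex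
      (Subgroup.centralizer ({y₀} : Set (Subgroup.centralizer (V : Set G)))) : FF M) _ hK
    rw [h3, hγ1, one_mul, h4]
    exact mul_ne_zero hidx' hKne
  have h3 : rr M (Nat.card (Subgroup.centralizer (V : Set G)) *
      (∑ᶠ t : (Subgroup.centralizer (V : Set G)), Y t * κ t) / (Nat.card V * κ 1)) ≠ 0 := by
    have h4 := k2.2
    unfold chv at h4
    rw [h4]
    exact h2
  -- the restriction of `Y`
  have hYs : ∀ x, x ∉ Subgroup.centralizer (W : Set G) → Y x = 0 := by
    have hd : ∀ x, x ∉ Subgroup.centralizer (V : Set G) → dl ℂ (y₀ : G) x = 0 := by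
      intro x hx
      unfold dl
      rw [if_neg]
      rintro rfl
      exact hx y₀.2
    have h1 := mulF_supp (Subgroup.centralizer (V : Set G)) hγI.supp hd
    exact mulF_supp (Subgroup.centralizer (W : Set G)) hfI.supp (fun x hx => h1 x (fun h => hx (hCH h)))
  refine ⟨fun t => Y t, fun x => hYR x, fun v hv x => (cj_eq_iff _ Y).1 (hYV _ hv) x, ?_, ?_⟩
  · have h1 : (fun t : (Subgroup.centralizer (W : Set G)) => Y t) =
        mulF (eh M (fun t : (Subgroup.centralizer (W : Set G)) => f t))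
          (fun t : (Subgroup.centralizer (W : Set G)) =>
            mulF (hat M (Subgroup.centralizer (V : Set G)) γ) (dl ℂ (y₀ : G)) t) := by
      rw [hY, mulF_res (Subgroup.centralizer (W : Set G)) _ hfI.supp, hat_res]
    have h2 := (H25.idm M _ (fun t : (Subgroup.centralizer (W : Set G)) => f t) hf.blk.blk.1).2.1
    rw [h1, ← mulF_assoc, h2.2]
  · intro χ hχ
    have h1 := hO χ hχ κ hκ
    have h4 : chv Y χ = ∑ᶠ x : (Subgroup.centralizer (W : Set G)), Y x * χ x := by
      unfold chv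
      exact sum_sub (Subgroup.centralizer (W : Set G)) (fun x => Y x * χ x)
        (fun x hx => by rw [hYs x hx, zero_mul])
    rw [h4] at h1
    refine ⟨h1.1, ?_⟩
    rw [h1.2.2]
    exact mul_ne_zero hix h3

end Pool.Agent.PP.T6.H35
end
end -- Pool.Agent.Helper35_AT6.YEX
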