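import Pool.Agent.Helper12_AWB.B183
import Pool.Agent.Helper12_AWB.B239

/-!
# Merged copies (generated) of the modules

* `Pool.Agent.Helper38_PFC.CPS`
* `Pool.Agent.Helper29_PSS.NWG`
* `Pool.Agent.Helper52_PFC.JUN`
* `Pool.Agent.Helper52_PFD.FUL`
* `Pool.Agent.Helper61_PFD.CTR`
* `Pool.Agent.Helper4_PSS.CLG`
* `Pool.Agent.Helper4_PSS.DZC`
-/

set_option autoImplicit false

section -- Pool.Agent.Helper38_PFC.CPS

/-!
# Squad PFC, row CPS: the frame of the corner of the group ring
-/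

open scoped BigOperators

noncomputable section

namespace Pool.Agent.PFC.H38

open Pool.Agent.PFC Pool.Agent.Helper51_AWC Pool.Agent.Helper79_WRA Pool.Agent.PP Pool.Agent.PP.KF
open Pool.Agent.PP.K9 Pool.Agent.PP.K9.H97 Pool.Agent.PP.H75 Pool.Agent.PP.T3 Pool.Agent.PP.T2

/-- the group `G` with the two actions of `W × W` and of `W` -/
def Om {G W : Type} [Group G] [Group W] (_ : W →* G) : Type := G

section

variable {G W : Type} [Group G] [Finite G] [Group W] (ι : W →* G)

instance : Fintype (Om ι) := Fintype.ofFinite G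

instance actB : MulAction (W × W) (Om ι) where
  smul := fun w g => (ι w.1 * (show G from g) * (ι w.2)⁻¹ : G)
  one_smul := by
    intro g
    change ι (1 : W) * (show G from g) * (ι (1 : W))⁻¹ = (show G from g)
    simp
  mul_smul := by
    intro x y g
    change ι (x.1 * y.1) * (show G from g) * (ι (x.2 * y.2))⁻¹ =
      ι x.1 * (ι y.1 * (show G from g) * (ι y.2)⁻¹) * (ι x.2)⁻¹
    rw [map_mul, map_mul]
    group

instance actC : MulAction W (Om ι) where
  smul := fun w g => (ι w * (show G from g) * (ι w)⁻¹ : G)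
  one_smul := by
    intro g
    change ι (1 : W) * (show G from g) * (ι (1 : W))⁻¹ = (show G from g)
    simp
  mul_smul := by
    intro x y g
    change ι (x * y) * (show G from g) * (ι (x * y))⁻¹ =
      ι x * (ι y * (show G from g) * (ι y)⁻¹) * (ι x)⁻¹
    rw [map_mul]
    group

variable {F : Type} [Field F] {j : G → F} (hj : mulF j j = j)
  (hv : ∀ w x, j (ι w * x * (ι w)⁻¹) = j x)

/-- the basis vectors -/
def bb (g : Om ι) : Crn hj := mkj hj (dl F (show G from g))

/-- the coordinates -/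
def cc (g : Om ι) : Crn hj →ₗ[F] F where
  toFun := fun a => cv a (show G from g)
  map_add' := fun _ _ => rfl
  map_smul' := fun _ _ => rfl

theorem cv_jal_mul (w : W) (x : Crn hj) (y : G) :
    cv (jal hj ι hv w * x) y = cv x ((ι w)⁻¹ * y) := by
  rw [cv_mul, cv_jal, H20.mulF_assoc, cv_l, mulF_dl_l]

theorem cv_mul_jal (w : W) (x : Crn hj) (y : G) :
    cv (x * jal hj ι hv w) y = cv x (y * (ι w)⁻¹) := by
  rw [cv_mul, cv_jal, dl_comm (hv w), ← H20.mulF_assoc, cv_r, mulF_dl_r]

theorem cv_bi (w : W × W) (x : Crn hj) (y : G) :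
    cv (bi F (jal hj ι hv) w x) y = cv x ((ι w.1)⁻¹ * y * ι w.2) := by
  change cv (jal hj ι hv w.1 * (x * jal hj ι hv w.2⁻¹)) y = _
  rw [cv_jal_mul, cv_mul_jal, map_inv, inv_inv]

theorem cv_sum {κ : Type} (s : Finset κ) (f : κ → Crn hj) :
    cv (∑ k ∈ s, f k) = ∑ k ∈ s, cv (f k) := by
  classical
  induction s using Finset.induction_on with
  | empty => rfl
  | insert a s ha ih => rw [Finset.sum_insert ha, Finset.sum_insert ha, cv_add, ih]

theorem mulF_sum {κ : Type} (s : Finset κ) (a : G → F) (f : κ → G → F) :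
    mulF a (∑ k ∈ s, f k) = ∑ k ∈ s, mulF a (f k) := by
  classical
  induction s using Finset.induction_on with
  | empty => simp [H20.mulF_zero]
  | insert b s hb ih => rw [Finset.sum_insert hb, Finset.sum_insert hb, H20.mulF_add, ih]

theorem sum_mulF {κ : Type} (s : Finset κ) (a : G → F) (f : κ → G → F) :
    mulF (∑ k ∈ s, f k) a = ∑ k ∈ s, mulF (f k) a := by
  classical
  induction s using Finset.induction_on with
  | empty => simp [H20.zero_mulF]
  | insert b s hb ih => rw [Finset.sum_insert hb, Finset.sum_insert hb, H20.add_mulF, ih]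

theorem fr_sum (m : Crn hj) : ∑ ω : Om ι, cc ι hj ω m • bb ι hj ω = m := by
  classical
  apply cv_inj
  rw [cv_sum]
  have h1 : ∀ ω : Om ι, cv (cc ι hj ω m • bb ι hj ω) =
      mulF j (mulF (cv m (show G from ω) • dl F (show G from ω)) j) := by
    intro ω
    rw [cv_smul, bb, cv_mkj, H20.smul_mulF, H20.mulF_smul]
    rfl
  rw [Finset.sum_congr rfl fun ω _ => h1 ω, ← mulF_sum, ← sum_mulF]
  have h2 : (∑ ω : Om ι, cv m (show G from ω) • dl F (show G from ω)) = cv m := by
    funext y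
    rw [Finset.sum_apply, Finset.sum_eq_single (show Om ι from y)]
    · simp [dl]
    · intro b _ hb
      have h3 : dl F (show G from b) y = 0 := by
        unfold dl
        rw [if_neg]
        intro h
        exact hb h.symm
      rw [Pi.smul_apply, h3, smul_zero]
    · intro h
      exact absurd (Finset.mem_univ _) h
  rw [h2, cv_r, cv_l]

include hj hv in
theorem key (u v : W) (g : G) : mulF j (mulF (dl F (ι u * g * (ι v)⁻¹)) j) =
    mulF (mulF (dl F (ι u)) j) (mulF (mulF j (mulF (dl F g) j)) (mulF (dl F (ι v⁻¹)) j)) := by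
  have h1 : mulF (mulF j (mulF (dl F g) j)) (mulF (dl F (ι v⁻¹)) j) =
      mulF j (mulF (dl F (g * (ι v)⁻¹)) j) := by
    rw [H20.mulF_assoc, H20.mulF_assoc, ← H20.mulF_assoc j (dl F (ι v⁻¹)),
      ← dl_comm (hv v⁻¹), H20.mulF_assoc (dl F (ι v⁻¹)), hj,
      ← H20.mulF_assoc (dl F _) (dl F _), dl_mul, map_inv]
  have h2 : mulF (mulF (dl F (ι u)) j) (mulF j (mulF (dl F (g * (ι v)⁻¹)) j)) =
      mulF (mulF (dl F (ι u)) j) (mulF (dl F (g * (ι v)⁻¹)) j) := by
    rw [H20.mulF_assoc, ← H20.mulF_assoc j j, hj, ← H20.mulF_assoc]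
  rw [h1, h2, dl_comm (hv u), H20.mulF_assoc, ← H20.mulF_assoc (dl F (ι u)), dl_mul, mul_assoc]

theorem frB : IsFr (bi F (jal hj ι hv)) (bb ι hj) (cc ι hj) := by
  refine ⟨?_, ?_, fr_sum ι hj⟩
  · intro h ω
    apply cv_inj
    exact key ι hj hv h.1 h.2 ω
  · intro h ω m
    change cv (bi F (jal hj ι hv) h m) (ι h.1 * (show G from ω) * (ι h.2)⁻¹) =
      cv m (show G from ω)
    rw [cv_bi]
    congr 1
    group

theorem frC : IsFr (cj F (jal hj ι hv)) (bb ι hj) (cc ι hj) := by
  refine ⟨?_, ?_, fr_sum ι hj⟩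
  · intro h ω
    exact (frB ι hj hv).1 (h, h) ω
  · intro h ω m
    exact (frB ι hj hv).2.1 (h, h) ω m

end

theorem cps : CpsStmt := by
  intro ℓ _ F _ _ G W _ _ _ _ ι hι hW j hj hv
  have hW2 : IsPGroup ℓ (W × W) := by
    intro w
    obtain ⟨a, ha⟩ := hW w.1
    obtain ⟨b, hb⟩ := hW w.2
    refine ⟨a + b, ?_⟩
    refine Prod.ext ?_ ?_
    · rw [Prod.pow_fst, pow_add, pow_mul, ha, one_pow]
      rfl
    · rw [Prod.pow_snd, pow_add, Nat.mul_comm, pow_mul, hb, one_pow]
      rfl
  refine ⟨⟨Om ι, inferInstance, actB ι, bb ι hj, cc ι hj, frB ι hj hv, ?_⟩, ?_, ?_⟩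
  · intro ω
    refine ⟨(show G from ω), fun w => ?_⟩
    rw [MulAction.mem_stabilizer_iff]
    change ι w.1 * (show G from ω) * (ι w.2)⁻¹ = (show G from ω) ↔ _
    rw [mul_inv_eq_iff_eq_mul]
  · intro K a ha
    rw [frame_iff (frB ι hj hv) K (hW2.to_subgroup K) ha]
    constructor
    · intro h g hg
      refine h (show Om ι from g) fun w hw => ?_
      change ι w.1 * g * (ι w.2)⁻¹ = g
      rw [mul_inv_eq_iff_eq_mul]
      exact hg w hw
    · intro h ω hω
      refine h (show G from ω) fun w hw => ?_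
      have := hω w hw
      change ι w.1 * (show G from ω) * (ι w.2)⁻¹ = (show G from ω) at this
      rw [mul_inv_eq_iff_eq_mul] at this
      exact this
  · intro Q a ha
    rw [frame_iff (frC ι hj hv) Q (hW.to_subgroup Q) ha]
    constructor
    · intro h g hg
      refine h (show Om ι from g) fun w hw => ?_
      change ι w * g * (ι w)⁻¹ = g
      rw [mul_inv_eq_iff_eq_mul]
      rw [Subgroup.mem_centralizer_iff] at hg
      exact hg (ι w) ⟨w, hw, rfl⟩
    · intro h ω hω
      refine h (show G from ω) ?_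
      rw [Subgroup.mem_centralizer_iff]
      rintro _ ⟨w, hw, rfl⟩
      have := hω w hw
      change ι w * (show G from ω) * (ι w)⁻¹ = (show G from ω) at this
      rw [mul_inv_eq_iff_eq_mul] at this
      exact this

end Pool.Agent.PFC.H38
end
end -- Pool.Agent.Helper38_PFC.CPS

section -- Pool.Agent.Helper29_PSS.NWG

/-!
# Squad PSS, row NWG: `N_X(A)` is the corner of the normaliser (helper29)
-/

open scoped BigOperators

set_option linter.unusedSectionVars false

noncomputable section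

namespace Pool.Agent.PSS.H29

open Pool.Agent.PSS
open Pool.Agent.Helper51_AWC Pool.Agent.Helper79_WRA Pool.Agent.PP Pool.Agent.PP.KF
open Pool.Agent.PP.K9 Pool.Agent.PP.K9.H97 Pool.Agent.PP.H75 Pool.Agent.PP.T3 Pool.Agent.PP.T2
open Pool.Agent.PFC

section sets

variable {F G W : Type} [Field F] [Group G] [Finite G] [CommGroup W] [Fintype W] (ι : W →* G)
  (X : Subgroup W)

/-- the elements of `G` which induce `ε` on `X` -/
def Xe (ε : MulAut X) (g : G) : Prop := ∀ w : X, g * ι w = ι (ε w) * g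

/-- the twisted invariant functions -/
def Ti (ε : MulAut X) (a : G → F) : Prop :=
  ∀ (w : X) (g : G), a (ι (ε w) * g * (ι w)⁻¹) = a g

variable {ι X}

theorem Xe.mul {ε δ : MulAut X} {g h : G} (hg : Xe ι X ε g) (hh : Xe ι X δ h) :
    Xe ι X (ε * δ) (g * h) := by
  intro w
  rw [mul_assoc, hh w, ← mul_assoc, hg (δ w), mul_assoc]
  rfl

theorem Xe.inv_mul {ε δ : MulAut X} {g h : G} (hg : Xe ι X ε g) (hh : Xe ι X (ε * δ) h) :
    Xe ι X δ (g⁻¹ * h) := by
  intro w
  have h1 := hh w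
  have h2 := hg (δ w)
  have h3 : g⁻¹ * ι ((ε * δ) w) = ι (δ w) * g⁻¹ := by
    rw [inv_mul_eq_iff_eq_mul, ← mul_assoc, eq_mul_inv_iff_mul_eq, h2]
    rfl
  rw [mul_assoc, h1, ← mul_assoc, h3, mul_assoc]

theorem Xe.unique (hι : Function.Injective ι) {ε δ : MulAut X} {g : G} (h1 : Xe ι X ε g)
    (h2 : Xe ι X δ g) : ε = δ := by
  ext w
  have h3 : ι (ε w) * g = ι (δ w) * g := by rw [← h1 w, h2 w]
  exact hι (mul_right_cancel h3)

theorem Xe.norm {ε : MulAut X} {g : G} (h1 : Xe ι X ε g) {Q : Subgroup G} (hQ : X.map ι = Q) :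
    g ∈ Subgroup.normalizer (Q : Set G) := by
  rw [Subgroup.mem_normalizer_iff]
  intro h
  constructor
  · intro hh
    rw [← hQ] at hh ⊢
    obtain ⟨w, hw, rfl⟩ := hh
    refine ⟨ε ⟨w, hw⟩, (ε ⟨w, hw⟩).2, ?_⟩
    rw [eq_mul_inv_iff_mul_eq]
    exact (h1 ⟨w, hw⟩).symm
  · intro hh
    rw [← hQ] at hh ⊢
    obtain ⟨w, hw, hw2⟩ := hh
    refine ⟨ε.symm ⟨w, hw⟩, (ε.symm ⟨w, hw⟩).2, ?_⟩
    have h2 := h1 (ε.symm ⟨w, hw⟩)
    rw [MulEquiv.apply_symm_apply] at h2
    have h3 : ι w * g = g * h := by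
      rw [hw2]
      group
    rw [h3] at h2
    exact mul_left_cancel h2

theorem Xe.exi (hι : Function.Injective ι) {Q : Subgroup G} (hQ : X.map ι = Q) {g : G}
    (hg : g ∈ Subgroup.normalizer (Q : Set G)) : ∃ ε : MulAut X, Xe ι X ε g := by
  have h1 : ∀ g' ∈ Subgroup.normalizer (Q : Set G), ∀ w : X, ∃ w' : X, g' * ι w = ι w' * g' := by
    intro g' hg' w
    rw [Subgroup.mem_normalizer_iff] at hg'
    have h2 : ι (w : W) ∈ (Q : Set G) := by
      rw [← hQ]
      exact ⟨w, w.2, rfl⟩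
    have h3 := (hg' (ι w)).1 h2
    rw [← hQ] at h3
    obtain ⟨w', hw', h4⟩ := h3
    refine ⟨⟨w', hw'⟩, ?_⟩
    change g' * ι w = ι w' * g'
    rw [h4]
    group
  choose f hf using h1 g hg
  choose f' hf' using h1 g⁻¹ (Subgroup.inv_mem _ hg)
  have h5 : ∀ w, f' (f w) = w := by
    intro w
    have h6 := hf' (f w)
    have h7 := hf w
    have h8 : g⁻¹ * ι (f w) = ι w * g⁻¹ := by
      rw [inv_mul_eq_iff_eq_mul, ← mul_assoc, eq_mul_inv_iff_mul_eq, h7]
    rw [h8] at h6
    exact (Subtype.ext (hι (mul_right_cancel h6))).symm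
  have h9 : ∀ w, f (f' w) = w := by
    intro w
    have h6 := hf (f' w)
    have h7 := hf' w
    rw [inv_mul_eq_iff_eq_mul, ← mul_assoc, eq_mul_inv_iff_mul_eq] at h7
    rw [← h7] at h6
    exact (Subtype.ext (hι (mul_right_cancel h6))).symm
  refine ⟨{ toFun := f, invFun := f', left_inv := h5, right_inv := h9, map_mul' := ?_ }, hf⟩
  intro u v
  apply Subtype.ext
  apply hι
  have h10 := hf (u * v)
  apply mul_right_cancel (b := g)
  rw [← h10, Subgroup.coe_mul, Subgroup.coe_mul, map_mul, map_mul, ← mul_assoc, hf u, mul_assoc,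
    hf v, mul_assoc]

theorem Xe_one_iff {Q : Subgroup G} (hQ : X.map ι = Q) {g : G} :
    Xe ι X 1 g ↔ g ∈ Subgroup.centralizer (Q : Set G) := by
  rw [Subgroup.mem_centralizer_iff, ← hQ]
  constructor
  · rintro h _ ⟨w, hw, rfl⟩
    exact (h ⟨w, hw⟩).symm
  · intro h w
    exact (h (ι w) ⟨w, w.2, rfl⟩).symm

theorem Ti.mul {ε δ : MulAut X} {a b : G → F} (ha : Ti ι X ε a) (hb : Ti ι X δ b) :
    Ti ι X (ε * δ) (mulF a b) := by
  intro w g
  unfold mulF
  rw [← finsum_comp_equiv ((Equiv.mulLeft (ι ((ε * δ) w))).trans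
    (Equiv.mulRight ((ι (δ w))⁻¹)))]
  apply finsum_congr
  intro t
  change a (ι (ε (δ w)) * t * (ι (δ w))⁻¹) * b ((ι ((ε * δ) w) * t * (ι (δ w))⁻¹)⁻¹ *
    (ι ((ε * δ) w) * g * (ι w)⁻¹)) = _
  rw [ha (δ w) t]
  congr 1
  have h1 : (ι ((ε * δ) w) * t * (ι (δ w))⁻¹)⁻¹ * (ι ((ε * δ) w) * g * (ι w)⁻¹) =
      ι (δ w) * (t⁻¹ * g) * (ι w)⁻¹ := by group
  rw [h1, hb w]

theorem Ti.loc {ε : MulAut X} {a : G → F} (ha : ∀ g, ¬ Xe ι X ε g → a g = 0) : Ti ι X ε a := by
  intro w g
  by_cases hg : Xe ι X ε g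
  · rw [← hg w, mul_inv_cancel_right]
  · rw [ha g hg, ha]
    intro h
    apply hg
    have h1 : ι (ε w) * g * (ι w)⁻¹ = g := by
      have h2 := h w
      rw [inv_mul_cancel_right] at h2
      exact (mul_left_cancel h2).symm
    rwa [h1] at h

/-- `G` with the action of `X` by `t ↦ ι(ε δ w) t ι(δ w)⁻¹` -/
def TT (_ : W →* G) (X : Subgroup W) (_ _ : MulAut X) : Type := G

instance (ε δ : MulAut X) : Finite (TT ι X ε δ) := inferInstanceAs (Finite G)

theorem gr1 (a b c d t : G) : a * b * t * (c * d)⁻¹ = a * (b * t * d⁻¹) * c⁻¹ := by group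

theorem gr2 (a c t x w : G) (h : a⁻¹ * x = x * w⁻¹) :
    (a * t * c⁻¹)⁻¹ * x = c * (t⁻¹ * x) * w⁻¹ := by
  calc (a * t * c⁻¹)⁻¹ * x = c * t⁻¹ * (a⁻¹ * x) := by group
    _ = _ := by rw [h]; group

theorem act_one (ε δ : MulAut X) (t : G) : ι (ε (δ 1)) * t * (ι (δ 1))⁻¹ = t := by simp

theorem act_mul (ε δ : MulAut X) (u v : X) (t : G) :
    ι (ε (δ (u * v))) * t * (ι (δ (u * v)))⁻¹ =
      ι (ε (δ u)) * (ι (ε (δ v)) * t * (ι (δ v))⁻¹) * (ι (δ u))⁻¹ := by
  simp only [map_mul, Subgroup.coe_mul]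
  exact gr1 _ _ _ _ _

instance actT (ε δ : MulAut X) : MulAction X (TT ι X ε δ) where
  smul := fun w t => (ι (ε (δ w)) * (show G from t) * (ι (δ w))⁻¹ : G)
  one_smul := fun t => act_one ε δ (show G from t)
  mul_smul := fun u v t => act_mul ε δ u v (show G from t)

theorem fixedT (ε δ : MulAut X) (t : TT ι X ε δ) :
    t ∈ MulAction.fixedPoints X (TT ι X ε δ) ↔ Xe ι X ε (show G from t) := by
  rw [MulAction.mem_fixedPoints]
  constructor
  · intro h w
    have h1 := h (δ.symm w)
    change ι (ε (δ (δ.symm w))) * (show G from t) * (ι (δ (δ.symm w)))⁻¹ =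
      (show G from t) at h1
    rw [MulEquiv.apply_symm_apply, mul_inv_eq_iff_eq_mul] at h1
    exact h1.symm
  · intro h w
    change ι (ε (δ w)) * (show G from t) * (ι (δ w))⁻¹ = (show G from t)
    rw [← h (δ w), mul_inv_cancel_right]

/-- the restriction to the elements which induce `ε`, as a function -/
def re0 (ι : W →* G) (X : Subgroup W) (Q : Subgroup G) (ε : MulAut X) (b : G → F) :
    Subgroup.normalizer (Q : Set G) → F :=
  open Classical in fun t => if Xe ι X ε (t : G) then b t else 0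

theorem re0_in {Q : Subgroup G} {ε : MulAut X} {t : Subgroup.normalizer (Q : Set G)} (b : G → F)
    (h : Xe ι X ε (t : G)) : re0 ι X Q ε b t = b t := if_pos h

theorem re0_out {Q : Subgroup G} {ε : MulAut X} {t : Subgroup.normalizer (Q : Set G)}
    (b : G → F) (h : ¬ Xe ι X ε (t : G)) : re0 ι X Q ε b t = 0 := if_neg h

/-- the restriction to the elements which induce `ε` -/
def re (ι : W →* G) (X : Subgroup W) (Q : Subgroup G) (ε : MulAut X) :
    (G → F) →ₗ[F] (Subgroup.normalizer (Q : Set G) → F) where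
  toFun b := re0 ι X Q ε b
  map_add' := by
    intro a b
    funext t
    by_cases h : Xe ι X ε (t : G)
    · rw [Pi.add_apply, re0_in _ h, re0_in _ h, re0_in _ h]
      rfl
    · rw [Pi.add_apply, re0_out _ h, re0_out _ h, re0_out _ h, add_zero]
  map_smul' := by
    intro c a
    funext t
    by_cases h : Xe ι X ε (t : G)
    · rw [Pi.smul_apply, re0_in _ h, re0_in _ h]
      rfl
    · rw [Pi.smul_apply, re0_out _ h, re0_out _ h, smul_zero]

theorem re_in {Q : Subgroup G} {ε : MulAut X} {t : Subgroup.normalizer (Q : Set G)} (b : G → F)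
    (h : Xe ι X ε (t : G)) : re ι X Q ε b t = b t := re0_in b h

theorem re_out {Q : Subgroup G} {ε : MulAut X} {t : Subgroup.normalizer (Q : Set G)} (b : G → F)
    (h : ¬ Xe ι X ε (t : G)) : re ι X Q ε b t = 0 := re0_out b h

theorem re_one {Q : Subgroup G} (hQ : X.map ι = Q) (b : G → F) :
    re ι X Q 1 b = fun t : Subgroup.normalizer (Q : Set G) => br Q b t := by
  funext t
  by_cases h : Xe ι X 1 (t : G)
  · rw [re_in b h, br_in _ ((Xe_one_iff hQ).1 h)]
  · rw [re_out b h, br_out]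
    intro h1
    exact h ((Xe_one_iff hQ).2 h1)

/-- the restriction is multiplicative on the twisted invariant functions -/
theorem re_mul {ℓ : ℕ} (hℓ : ℓ.Prime) (hF : CharP F ℓ) (hW : IsPGroup ℓ W) {Q : Subgroup G}
    (hQ : X.map ι = Q) {ε δ : MulAut X} {a b : G → F} (ha : Ti ι X ε a) (hb : Ti ι X δ b) :
    re ι X Q (ε * δ) (mulF a b) = mulF (re ι X Q ε a) (re ι X Q δ b) := by
  classical
  funext x
  by_cases hx : Xe ι X (ε * δ) (x : G)
  · rw [re_in _ hx]
    have h1 := H74.orb ℓ F F X (TT ι X ε δ) hℓ hF (hW.to_subgroup X)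
      (fun t => a (show G from t) * b ((show G from t)⁻¹ * x)) (by
        intro w t
        change a (ι (ε (δ w)) * (show G from t) * (ι (δ w))⁻¹) *
          b ((ι (ε (δ w)) * (show G from t) * (ι (δ w))⁻¹)⁻¹ * x) = _
        rw [ha (δ w)]
        have h3 : (ι (ε (δ w)))⁻¹ * (x : G) = x * (ι w)⁻¹ := by
          rw [inv_mul_eq_iff_eq_mul, ← mul_assoc, eq_mul_inv_iff_mul_eq]
          exact hx w
        rw [gr2 _ _ (show G from t) _ _ h3, hb w])
    have h4 : ∀ s : Subgroup.normalizer (Q : Set G),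
        re ι X Q ε a s * re ι X Q δ b (s⁻¹ * x) =
          (if Xe ι X ε (s : G) then a s * b ((s : G)⁻¹ * x) else 0) := by
      intro s
      by_cases hs : Xe ι X ε (s : G)
      · have h5 : Xe ι X δ ((s⁻¹ * x : Subgroup.normalizer (Q : Set G)) : G) := hs.inv_mul hx
        rw [if_pos hs, re_in _ hs, re_in _ h5]
        rfl
      · rw [if_neg hs, re_out _ hs, zero_mul]
    calc mulF a b x = ∑ᶠ t : G, a t * b (t⁻¹ * x) := rfl
      _ = ∑ᶠ (t : G) (_ : Xe ι X ε t), a t * b (t⁻¹ * x) := by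
          refine h1.trans ?_
          refine finsum_congr fun t => ?_
          exact congrArg (fun p : Prop => ∑ᶠ (_ : p), a (show G from t) *
            b ((show G from t)⁻¹ * x)) (propext (fixedT ε δ t))
      _ = ∑ᶠ t : G, (if Xe ι X ε t then a t * b (t⁻¹ * x) else 0) := by
          refine finsum_congr fun t => ?_
          rw [finsum_eq_if]
      _ = ∑ᶠ (t : G) (_ : t ∈ Subgroup.normalizer (Q : Set G)),
            (if Xe ι X ε t then a t * b (t⁻¹ * x) else 0) := by
          refine finsum_congr fun t => ?_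
          rw [finsum_eq_if]
          by_cases ht : Xe ι X ε t
          · rw [if_pos (ht.norm hQ)]
          · rw [if_neg ht]
            split_ifs <;> rfl
      _ = ∑ᶠ s : Subgroup.normalizer (Q : Set G),
            (if Xe ι X ε (s : G) then a s * b ((s : G)⁻¹ * x) else 0) :=
          (finsum_subtype_eq_finsum_cond
            (f := fun t : G => (if Xe ι X ε t then a t * b (t⁻¹ * x) else 0))
            (fun t => t ∈ Subgroup.normalizer (Q : Set G))).symm
      _ = mulF (re ι X Q ε a) (re ι X Q δ b) x := by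
          unfold mulF
          apply finsum_congr
          intro s
          exact (h4 s).symm
  · rw [re_out _ hx]
    unfold mulF
    symm
    rw [← finsum_zero (α := Subgroup.normalizer (Q : Set G))]
    apply finsum_congr
    intro s
    by_cases hs : Xe ι X ε (s : G)
    · by_cases hs2 : Xe ι X δ ((s⁻¹ * x : Subgroup.normalizer (Q : Set G)) : G)
      · exfalso
        apply hx
        have h1 := hs.mul hs2
        rwa [Subgroup.coe_mul, Subgroup.coe_inv, mul_inv_cancel_left] at h1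
      · rw [re_out b hs2, mul_zero]
    · rw [re_out a hs, zero_mul]

end sets

/-- NWG. -/
theorem nwg : NwgStmt := by
  classical
  intro ℓ hℓ F _ hF G W _ _ _ _ ι hι hW X Q hQ j hj hv hn
  have hj1 : Ti ι X 1 j := fun w g => hv w g
  have hfx : ∀ (ε : MulAut X) (a : Crn hj), a ∈ FxR (bw F (jal hj ι hv)) (twW X ε) ↔
      Ti ι X ε (cv a) := by
    intro ε a
    constructor
    · intro h w g
      have h1 := h ((ε w : W), (w : W)) ⟨w, rfl⟩
      have h2 := H38.cv_bi ι hj hv ((ε w : W), (w : W)) a (ι (ε w) * g * (ι w)⁻¹)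
      rw [show bi F (jal hj ι hv) ((ε w : W), (w : W)) a = a from h1] at h2
      rw [h2]
      congr 1
      group
    · rintro h _ ⟨w, rfl⟩
      apply cv_inj
      funext y
      refine (H38.cv_bi ι hj hv ((ε w : W), (w : W)) a y).trans ?_
      rw [← h w]
      congr 1
      group
  have hr1 : re ι X Q 1 j = fun t : Subgroup.normalizer (Q : Set G) => br Q j t := re_one hQ j
  have hmul : ∀ {ε δ : MulAut X} {a b : G → F}, Ti ι X ε a → Ti ι X δ b →
      re ι X Q (ε * δ) (mulF a b) = mulF (re ι X Q ε a) (re ι X Q δ b) :=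
    fun ha hb => re_mul hℓ.out hF hW hQ ha hb
  have hl : ∀ (ε : MulAut X) (a : Crn hj), Ti ι X ε (cv a) →
      mulF (fun t : Subgroup.normalizer (Q : Set G) => br Q j t) (re ι X Q ε (cv a)) =
        re ι X Q ε (cv a) := by
    intro ε a ha
    have h1 := hmul hj1 ha
    rw [one_mul, cv_l, hr1] at h1
    exact h1.symm
  have hr : ∀ (ε : MulAut X) (a : Crn hj), Ti ι X ε (cv a) →
      mulF (re ι X Q ε (cv a)) (fun t : Subgroup.normalizer (Q : Set G) => br Q j t) =
        re ι X Q ε (cv a) := by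
    intro ε a ha
    have h1 := hmul ha hj1
    rw [mul_one, cv_r, hr1] at h1
    exact h1.symm
  -- the maps
  let β : MulAut X → (Crn hj →ₗ[F] Crn hn) := fun ε =>
    { toFun := fun a => mkj hn (re ι X Q ε (cv a))
      map_add' := by
        intro a b
        apply cv_inj
        refine Eq.trans ?_ (cv_add hn _ _).symm
        rw [cv_mkj, cv_mkj, cv_mkj, cv_add, map_add, H20.add_mulF, H20.mulF_add]
      map_smul' := by
        intro c a
        apply cv_inj
        refine Eq.trans ?_ (cv_smul hn _ _).symm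
        rw [cv_mkj, cv_mkj, cv_smul, map_smul, H20.smul_mulF, H20.mulF_smul]
        rfl }
  have hβ : ∀ (ε : MulAut X) (a : Crn hj), Ti ι X ε (cv a) → cv (β ε a) = re ι X Q ε (cv a) := by
    intro ε a ha
    change cv (mkj hn (re ι X Q ε (cv a))) = _
    rw [cv_mkj, hr ε a ha, hl ε a ha]
  have : Finite (MulAut X) := Finite.of_injective (fun e : MulAut X => (e : X → X))
    (fun e f h => MulEquiv.ext fun x => congrFun h x)
  have : Fintype (MulAut X) := Fintype.ofFinite _
  refine ⟨⟨β, ?_, ?_, ?_, ?_, ?_⟩⟩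
  · apply cv_inj
    rw [hβ 1 1 hj1, cv_one, cv_one, hr1]
  · intro ε δ a ha b hb
    rw [hfx] at ha hb
    apply cv_inj
    rw [cv_mul, hβ ε a ha, hβ δ b hb, hβ (ε * δ) (a * b) (ha.mul hb), cv_mul]
    exact hmul ha hb
  · intro ε a ha
    have h1 := (H38.cps ℓ F G W ι hι hW j hj hv).2.1 (twW X ε) a ha
    have h2 : a ∈ BKR (bw F (jal hj ι hv)) (twW X ε) ↔
        ∀ g : G, (∀ w ∈ twW X ε, ι w.1 * g = g * ι w.2) → cv a g = 0 := h1
    rw [h2]
    rw [hfx] at ha
    constructor
    · intro h g hg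
      have hXe : Xe ι X ε g := fun w => (hg ((ε w : W), (w : W)) ⟨w, rfl⟩).symm
      have h3 : re ι X Q ε (cv a) = 0 := by
        rw [← hβ ε a ha, h]
        rfl
      have h4 := congrFun h3 ⟨g, hXe.norm hQ⟩
      rw [re_in (t := ⟨g, hXe.norm hQ⟩) _ hXe] at h4
      exact h4
    · intro h
      apply cv_inj
      rw [hβ ε a ha, cv_zero]
      funext t
      by_cases ht : Xe ι X ε (t : G)
      · rw [re_in _ ht]
        refine h t ?_
        rintro _ ⟨w, rfl⟩
        exact (ht w).symm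
      · rw [re_out _ ht]
        rfl
  · intro f hf h ε
    have hf' : ∀ ε, Ti ι X ε (cv (f ε)) := fun ε => (hfx ε (f ε)).1 (hf ε)
    apply cv_inj
    rw [hβ ε _ (hf' ε), cv_zero]
    funext t
    by_cases ht : Xe ι X ε (t : G)
    · rw [finsum_eq_sum_of_fintype] at h
      have h1 := congrArg cv h
      rw [H38.cv_sum] at h1
      have h2 := congrFun h1 t
      rw [Finset.sum_apply, Finset.sum_eq_single ε] at h2
      · rw [hβ ε _ (hf' ε)] at h2
        exact h2
      · intro δ _ hδ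
        rw [hβ δ _ (hf' δ), re_out]
        intro h3
        exact hδ (h3.unique hι ht)
      · intro h3
        exact absurd (Finset.mem_univ _) h3
    · rw [re_out _ ht]
      rfl
  · intro b
    let bb : MulAut X → G → F := fun ε g =>
      if h : g ∈ Subgroup.normalizer (Q : Set G) then
        (if Xe ι X ε g then cv b ⟨g, h⟩ else 0) else 0
    have hbb : ∀ ε, Ti ι X ε (bb ε) := by
      intro ε
      apply Ti.loc
      intro g hg
      change dite _ _ _ = _
      split_ifs
      · rfl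
      · rfl
    have hc : ∀ ε, Ti ι X ε (cv (mkj hj (bb ε))) := by
      intro ε
      rw [cv_mkj]
      have h1 := hj1.mul ((hbb ε).mul hj1)
      rwa [mul_one, one_mul] at h1
    refine ⟨fun ε => mkj hj (bb ε), fun ε => (hfx ε _).2 (hc ε), ?_⟩
    rw [finsum_eq_sum_of_fintype]
    apply cv_inj
    rw [H38.cv_sum]
    have h2 : ∀ ε, cv (β ε (mkj hj (bb ε))) =
        mulF (fun t : Subgroup.normalizer (Q : Set G) => br Q j t)
          (mulF (re ι X Q ε (bb ε)) (fun t : Subgroup.normalizer (Q : Set G) => br Q j t)) := by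
      intro ε
      rw [hβ ε _ (hc ε), cv_mkj]
      have h3 := hmul hj1 ((hbb ε).mul hj1)
      have h4 := hmul (hbb ε) hj1
      rw [mul_one] at h3 h4
      rw [one_mul] at h3
      rw [h3, h4, hr1]
    rw [Finset.sum_congr rfl fun ε _ => h2 ε, ← H38.mulF_sum, ← H38.sum_mulF]
    have h5 : ∑ ε, re ι X Q ε (bb ε) = cv b := by
      funext t
      obtain ⟨ε, hε⟩ := Xe.exi hι hQ t.2
      rw [Finset.sum_apply, Finset.sum_eq_single ε]
      · rw [re_in _ hε]
        change dite _ _ _ = _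
        rw [dif_pos t.2, if_pos hε]
      · intro δ _ hδ
        rw [re_out]
        intro h3
        exact hδ (h3.unique hι hε)
      · intro h3
        exact absurd (Finset.mem_univ _) h3
    rw [h5, cv_r, cv_l]

end Pool.Agent.PSS.H29
end
end -- Pool.Agent.Helper29_PSS.NWG

section -- Pool.Agent.Helper52_PFC.JUN

set_option autoImplicit false

open scoped BigOperators

noncomputable section

namespace Pool.Agent.PFC.H52

open Pool.Agent.PFC
open Pool.Agent.Helper51_AWC Pool.Agent.Helper79_WRA Pool.Agent.PP Pool.Agent.PP.KF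
open Pool.Agent.PP.K9 Pool.Agent.PP.K9.H97 Pool.Agent.PP.H75 Pool.Agent.PP.T3 Pool.Agent.PP.T2
open Pool.Agent.PP.T8 (Fr rs pw)

attribute [local instance] Ideal.Quotient.field

theorem jun : JunStmt := by
  intro ℓ _ M _ hM G _ _ e V γ hld j hj
  have hb : Subgroup.centralizer ((⊥ : Subgroup G) : Set G) = ⊤ := by
    rw [Subgroup.coe_bot, eq_top_iff]
    intro x _
    rw [Subgroup.mem_centralizer_iff]
    intro h hh
    rw [Set.mem_singleton_iff] at hh
    rw [hh, one_mul, mul_one]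
  have hbr : br ⊥ j = j := by
    funext t
    unfold br
    rw [hb, if_pos (Subgroup.mem_top t)]
  have hbx : Bx (Subgroup.centralizer ((⊥ : Subgroup G) : Set G)) e := by
    refine ⟨?_, ?_⟩
    · intro x hx
      rw [hb] at hx
      exact absurd (Subgroup.mem_top x) hx
    · exact H20.IsBlk_equiv ((MulEquiv.subgroupCongr hb).trans Subgroup.topEquiv) hld.blk
  have h1 : mulF j e = j := by
    have h := hj.lb ⊥ bot_le e ⟨hbx, hld.und⟩
    rw [hbr] at h
    exact h
  have hcom : mulF j e = mulF e j := by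
    refine mulF_comm_of (K := (⊤ : Subgroup G)) (fun x hx => absurd (Subgroup.mem_top x) hx) ?_
    intro k _
    rw [cj_eq_iff]
    intro x
    exact hld.blk.1.1 x k
  refine ⟨h1, ?_, ?_⟩
  · rw [← hcom, h1]
  · refine hj.lb V le_rfl γ ⟨hld.gam, ?_⟩
    have h2 : br V γ = γ := by
      funext t
      unfold br
      by_cases ht : t ∈ Subgroup.centralizer (V : Set G)
      · rw [if_pos ht]
      · rw [if_neg ht, hld.gam.supp t ht]
    rw [h2]
    exact hld.gam.mul

end Pool.Agent.PFC.H52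
end
end -- Pool.Agent.Helper52_PFC.JUN

section -- Pool.Agent.Helper52_PFD.FUL

/-!
# Squad PFD, row FUL: the ideal generated by the coherent local idempotent

`z`, the sum of the conjugates `x j x⁻¹` over the cosets `x V`, is a class function in the ideal
generated by `j`.  By OMI its central character at `e` is `ix V γ` times the residue of
`|C| X / (|V| c)`, `X = ∑_{t ∈ C} i(t) κ(t)`; the product with `|V| c / |C|` (in `RM M` by KNZ) is `X`,
whose residue is not zero (`Jd.nz`).  A class function with a nonzero central character at the block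
`e` is invertible on `e` (`H50.blk_dich`).
-/

set_option autoImplicit false

open scoped BigOperators

noncomputable section

namespace Pool.Agent.PFD.H52

open Pool.Agent.PFD
open Pool.Agent.Helper51_AWC Pool.Agent.Helper79_WRA Pool.Agent.PP Pool.Agent.PP.KF
open Pool.Agent.PP.K9 Pool.Agent.PP.K9.H97 Pool.Agent.PP.H75 Pool.Agent.PP.T3 Pool.Agent.PP.T2
open Pool.Agent.PFC (Jd Crn jal Pj PIn Ctf ls Cz cv)

attribute [local instance] Ideal.Quotient.field

theorem cj_eq_mulF {F G : Type} [Field F] [Group G] [Finite G] (x : G) (a : G → F) :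
    cj x a = mulF (mulF (dl F x) a) (dl F x⁻¹) := by
  rw [PFC.mulF_dl_r, PFC.mulF_dl_l]
  funext y
  rw [cj, inv_inv]
  congr 1
  group

/-- The ideal generated by `j`. -/
def Sj {F G : Type} [Field F] [Group G] [Finite G] (j : G → F) : Submodule F (G → F) :=
  Submodule.span F {x : G → F | ∃ a b, x = mulF a (mulF j b)}

theorem mulF_mem_l {F G : Type} [Field F] [Group G] [Finite G] {j : G → F} (c : G → F) {x : G → F}
    (hx : x ∈ Sj j) : mulF c x ∈ Sj j := by
  induction hx using Submodule.span_induction with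
  | mem x h =>
    obtain ⟨a, b, rfl⟩ := h
    exact Submodule.subset_span ⟨mulF c a, b, (H20.mulF_assoc _ _ _).symm⟩
  | zero =>
    have h0 : mulF c (0 : G → F) = 0 := by
      apply ma_injective
      rw [ma_mul, ma_zero, mul_zero]
    rw [h0]
    exact Submodule.zero_mem _
  | add x y _ _ h1 h2 =>
    have h0 : mulF c (x + y) = mulF c x + mulF c y := by
      apply ma_injective
      rw [ma_mul, ma_add, ma_add, ma_mul, ma_mul, mul_add]
    rw [h0]
    exact Submodule.add_mem _ h1 h2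
  | smul w x _ h1 =>
    have h0 : mulF c (w • x) = w • mulF c x := by
      apply ma_injective
      rw [ma_mul, ma_smul, ma_smul, ma_mul, mul_smul_comm]
    rw [h0]
    exact Submodule.smul_mem _ _ h1

theorem mulF_mem_r {F G : Type} [Field F] [Group G] [Finite G] {j : G → F} (c : G → F) {x : G → F}
    (hx : x ∈ Sj j) : mulF x c ∈ Sj j := by
  induction hx using Submodule.span_induction with
  | mem x h =>
    obtain ⟨a, b, rfl⟩ := h
    exact Submodule.subset_span ⟨a, mulF b c, by rw [H20.mulF_assoc, H20.mulF_assoc]⟩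
  | zero =>
    have h0 : mulF (0 : G → F) c = 0 := by
      apply ma_injective
      rw [ma_mul, ma_zero, zero_mul]
    rw [h0]
    exact Submodule.zero_mem _
  | add x y _ _ h1 h2 =>
    have h0 : mulF (x + y) c = mulF x c + mulF y c := by
      apply ma_injective
      rw [ma_mul, ma_add, ma_add, ma_mul, ma_mul, add_mul]
    rw [h0]
    exact Submodule.add_mem _ h1 h2
  | smul w x _ h1 =>
    have h0 : mulF (w • x) c = w • mulF x c := by
      apply ma_injective
      rw [ma_mul, ma_smul, ma_smul, ma_mul, smul_mul_assoc]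
    rw [h0]
    exact Submodule.smul_mem _ _ h1

theorem self_mem {F G : Type} [Field F] [Group G] [Finite G] {j : G → F} (hj : mulF j j = j) :
    j ∈ Sj j :=
  Submodule.subset_span ⟨j, j, by rw [hj, hj]⟩

theorem tsm_mem {F G : Type} [Field F] [Group G] [Finite G] {j : G → F} (hj : mulF j j = j)
    (V : Subgroup G) : tsm V j ∈ Sj j := by
  classical
  have := Fintype.ofFinite (G ⧸ V)
  have h1 : tsm V j = ∑ q : G ⧸ V, cj q.out j := by
    funext g
    unfold tsm
    rw [finsum_eq_sum_of_fintype, Finset.sum_apply]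
  rw [h1]
  refine Submodule.sum_mem _ fun q _ => ?_
  rw [cj_eq_mulF]
  exact mulF_mem_r _ (mulF_mem_l _ (self_mem hj))

theorem res_ne {ℓ : ℕ} [Fact ℓ.Prime] (lft : T8.LftStmt) (omi : T8.OmiStmt) (knz : T8.KnzStmt)
    (dgc : DgcStmt) (inx : K9.InxStmt) {M : Ideal (integralClosure ℤ ℂ)} [M.IsMaximal]
    (hM : (ℓ : integralClosure ℤ ℂ) ∈ M) {G : Type} [Group G] [Finite G] {e : G → FF M}
    {V : Subgroup G} {γ : G → FF M} (hL : Ld ℓ e V γ) {j : G → FF M} (hj : Jd M V γ j)
    {χ : G → ℂ} (hχ : χ ∈ IrrE M e) : res M (tsm V j) χ ≠ 0 := by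
  classical
  have hF : GoodF ℓ (FF M) := H50.fld ℓ Fact.out M hM
  obtain ⟨i, hi, -, hij⟩ := lft M G V ⊤ j hj.id (fun g hg => absurd (Subgroup.mem_top g) hg) hj.iv
  obtain ⟨c, hc⟩ := dgc ℓ M hM G e V γ hL
  obtain ⟨κ, hκ⟩ := T8.H14.irrE_nonempty M hL.gam.blk.1 hL.gam.blk.2.1
  obtain ⟨hQ, -⟩ := knz ℓ M hM G e V γ hL c hc
  have hgm : mulF (br V (T8.rd M i)) γ = br V (T8.rd M i) := by
    rw [hij]
    exact (PFC.H52.jun ℓ M hM G e V γ hL j hj).2.2
  obtain ⟨hA, hB, hAB⟩ := omi ℓ M hM G e V γ hL i hi.rm hi.iv hgm χ hχ κ hκ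
  have hκ1 : κ 1 = c := hc.2 κ hκ
  rw [hκ1] at hB hAB
  have hc0 : (c : ℂ) ≠ 0 := by
    have := hc.1
    exact_mod_cast this.ne'
  have hV0 : (Nat.card V : ℂ) ≠ 0 := by exact_mod_cast Nat.card_pos.ne'
  have hC0 : (Nat.card (Subgroup.centralizer (V : Set G)) : ℂ) ≠ 0 := by
    exact_mod_cast Nat.card_pos.ne'
  obtain ⟨X, hX⟩ : ∃ X : ℂ, X = ∑ᶠ t : Subgroup.centralizer (V : Set G), i t * κ t := ⟨_, rfl⟩
  rw [← hX] at hB hAB
  have := Fintype.ofFinite G
  have := Fintype.ofFinite (Subgroup.centralizer (V : Set G))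
  have hrX : rr M X = ∑ᶠ t : Subgroup.centralizer (V : Set G), j t * rr M (κ t) := by
    have hk : ∀ t, κ t ∈ RM M := fun t => RM_of_int (irr_integral hκ.1 t)
    rw [hX, finsum_eq_sum_of_fintype, finsum_eq_sum_of_fintype,
      rr_sum _ _ (fun (t : Subgroup.centralizer (V : Set G)) _ =>
        (RM M).mul_mem (hi.rm (t : G)) (hk t))]
    refine Finset.sum_congr rfl fun t _ => ?_
    rw [rr_mul (hi.rm t) (hk t), ← hij]
    rfl
  have hix : (ix V γ : FF M) ≠ 0 := by
    have := hF.char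
    intro h0
    exact inx ℓ M hM G e hL.blk V hL.tp hL.ab γ hL.gam.supp hL.gam.blk hL.und
      ((CharP.cast_eq_zero_iff (FF M) ℓ _).1 h0)
  have e2 : X = (Nat.card (Subgroup.centralizer (V : Set G)) * X / (Nat.card V * c)) *
      ((Nat.card V * c : ℂ) / Nat.card (Subgroup.centralizer (V : Set G))) := by
    field_simp
  have hB0 : rr M (Nat.card (Subgroup.centralizer (V : Set G)) * X / (Nat.card V * c)) ≠ 0 := by
    intro h0
    apply hj.nz κ hκ
    rw [← hrX, e2, rr_mul hB hQ, h0, zero_mul]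
  -- the residue of the first number
  have hz := H65.zet_cl (C := V) hi.iv
  have hzR : ∀ g, H65.zet V i g ∈ RM M := fun g => Subring.sum_mem _ fun q _ => hi.rm _
  have k1 := H65.om_RM (M := M) hz hzR hχ.1
  rw [H65.zet_om hχ.1] at k1
  have htr : (fun g => rr M (H65.zet V i g)) = tsm V j := by
    funext g
    unfold H65.zet tsm
    rw [rr_sum _ _ fun q _ => hi.rm _, finsum_eq_sum_of_fintype]
    refine T8.H17.sum_any _ _ _ _ fun q => ?_
    rw [← hij]
    rfl
  rw [htr] at k1
  have k2 : rr M (Nat.card G * chv i χ / (Nat.card V * χ 1)) = res M (tsm V j) χ := k1.2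
  rw [← k2, hAB]
  exact mul_ne_zero hix hB0

theorem ful (lft : T8.LftStmt) (omi : T8.OmiStmt) (knz : T8.KnzStmt) (dgc : DgcStmt)
    (inx : K9.InxStmt) : FulStmt := by
  intro ℓ _ M _ hM G _ _ e V γ hL j hj
  obtain ⟨χ, hχ⟩ := T8.H14.irrE_nonempty M hL.blk.1 hL.blk.2.1
  have hne := res_ne lft omi knz dgc inx hM hL hj hχ
  have hcl : IsCl (tsm V j) := tsm_cl fun v hv => (cj_eq_iff v j).2 fun x => hj.iv v hv x
  rcases H50.blk_dich hL.blk hcl with ⟨n, hn⟩ | ⟨c, _, hc⟩
  · exact absurd (H50.zero_of_nil hL.blk.1.1 hcl (H50.isChar_res (M := M) hχ.1) hχ.2 hn) hne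
  · have h1 : mulF (mulF c (tsm V j)) e ∈ Sj j :=
      mulF_mem_r _ (mulF_mem_l _ (tsm_mem hj.id V))
    rw [hc] at h1
    exact h1

end Pool.Agent.PFD.H52
end
end -- Pool.Agent.Helper52_PFD.FUL

section -- Pool.Agent.Helper61_PFD.CTR

/-!
Row CTR of squad PFD: the centre of a full corner.
-/

open scoped BigOperators

noncomputable section

namespace Pool.Agent.PFD.H61

open Pool.Agent.PP
open Pool.Agent.PFC (Crn cv mkc cv_inj cv_mkc cv_mul cv_l cv_r cv_add cv_smul mkj cv_mkj)

section ring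

variable {A : Type} [Ring A]

/-- the sum `∑ a_k ζ b_k` is central -/
theorem cen {n : ℕ} (a b : Fin n → A) (j e ζ : A) (he : ∀ x, e * x = x * e) (hej : e * j = j)
    (hs : e = ∑ k, a k * j * b k) (h1 : j * ζ = ζ) (h2 : ζ * j = ζ)
    (hc : ∀ x, (j * x * j) * ζ = ζ * (j * x * j)) (x : A) :
    x * (∑ k, a k * ζ * b k) = (∑ k, a k * ζ * b k) * x := by
  have hez : e * ζ = ζ := by rw [← h1, ← mul_assoc, hej]
  have hzk : ∀ k, e * (a k * ζ * b k) = a k * ζ * b k := by
    intro k
    rw [← mul_assoc, ← mul_assoc, he, mul_assoc (a k), hez]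
  have hz : e * (∑ k, a k * ζ * b k) = ∑ k, a k * ζ * b k := by
    rw [Finset.mul_sum]
    exact Finset.sum_congr rfl fun k _ => hzk k
  have key : ∀ l k, (a l * j * b l) * x * (a k * ζ * b k) =
      (a l * ζ * b l) * x * (a k * j * b k) := by
    intro l k
    have h3 := hc (b l * x * a k)
    calc (a l * j * b l) * x * (a k * ζ * b k)
        = a l * (j * (b l * x * a k) * ζ) * b k := by noncomm_ring
      _ = a l * (j * (b l * x * a k) * (j * ζ)) * b k := by rw [h1]
      _ = a l * ((j * (b l * x * a k) * j) * ζ) * b k := by noncomm_ring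
      _ = a l * (ζ * (j * (b l * x * a k) * j)) * b k := by rw [h3]
      _ = a l * ((ζ * j) * (b l * x * a k) * j) * b k := by noncomm_ring
      _ = a l * (ζ * (b l * x * a k) * j) * b k := by rw [h2]
      _ = (a l * ζ * b l) * x * (a k * j * b k) := by noncomm_ring
  have h4 : e * x * (∑ k, a k * ζ * b k) = (∑ k, a k * ζ * b k) * x * e := by
    conv_lhs => rw [hs]
    conv_rhs => rw [hs]
    rw [Finset.sum_mul, Finset.sum_mul, Finset.sum_mul, Finset.sum_mul]
    apply Finset.sum_congr rfl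
    intro l _
    rw [Finset.mul_sum, Finset.mul_sum]
    exact Finset.sum_congr rfl fun k _ => key l k
  calc x * (∑ k, a k * ζ * b k) = x * (e * (∑ k, a k * ζ * b k)) := by rw [hz]
    _ = e * x * (∑ k, a k * ζ * b k) := by rw [he x, mul_assoc]
    _ = (∑ k, a k * ζ * b k) * x * e := h4
    _ = (e * (∑ k, a k * ζ * b k)) * x := by rw [mul_assoc, ← he x, ← mul_assoc, ← he]
    _ = (∑ k, a k * ζ * b k) * x := by rw [hz]

theorem cenj {n : ℕ} (a b : Fin n → A) (j e ζ : A) (hej : e * j = j)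
    (hs : e = ∑ k, a k * j * b k) (h1 : j * ζ = ζ) (h2 : ζ * j = ζ)
    (hc : ∀ x, (j * x * j) * ζ = ζ * (j * x * j)) :
    (∑ k, a k * ζ * b k) * j = ζ := by
  have h3 : (∑ k, a k * ζ * b k) * j = e * j * ζ := by
    rw [hs, Finset.sum_mul, Finset.sum_mul, Finset.sum_mul]
    apply Finset.sum_congr rfl
    intro k _
    calc a k * ζ * b k * j = a k * (ζ * j) * b k * j := by rw [h2]
      _ = a k * (ζ * (j * b k * j)) := by noncomm_ring
      _ = a k * ((j * b k * j) * ζ) := by rw [hc]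
      _ = a k * j * b k * j * ζ := by noncomm_ring
  rw [h3, hej, h1]

theorem cene {n : ℕ} (a b : Fin n → A) (j e z : A) (hz : ∀ x, z * x = x * z)
    (hs : e = ∑ k, a k * j * b k) (hez : e * z = z) :
    (∑ k, a k * (z * j) * b k) = z := by
  have h3 : (∑ k, a k * (z * j) * b k) = z * e := by
    rw [hs, Finset.mul_sum]
    apply Finset.sum_congr rfl
    intro k _
    calc a k * (z * j) * b k = (a k * z) * j * b k := by noncomm_ring
      _ = (z * a k) * j * b k := by rw [hz]
      _ = z * (a k * j * b k) := by noncomm_ring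
  rw [h3, hz, hez]

end ring

variable {F G : Type} [Field F] [Group G] [Finite G]

/-- the centre of the block, as a space of functions -/
def Zb (e : G → F) : Submodule F (G → F) where
  carrier := {a | IsCl a ∧ mulF e a = a}
  add_mem' := by
    rintro a b ⟨h1, h2⟩ ⟨h3, h4⟩
    exact ⟨H20.isCl_add h1 h3, by rw [H20.mulF_add, h2, h4]⟩
  zero_mem' := ⟨H20.isCl_zero, H20.mulF_zero e⟩
  smul_mem' := by
    rintro c a ⟨h1, h2⟩
    exact ⟨H20.isCl_smul c h1, by rw [H20.mulF_smul, h2]⟩

/-- the inversion -/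
def inv1 : (G → F) ≃ₗ[F] (G → F) where
  toFun a := fun x => a x⁻¹
  invFun a := fun x => a x⁻¹
  left_inv a := by funext x; simp
  right_inv a := by funext x; simp
  map_add' a b := rfl
  map_smul' c a := rfl

omit [Finite G] in
theorem isCl_inv1 {a : G → F} (h : IsCl a) : IsCl (inv1 a) := by
  intro x y
  change a (y * x * y⁻¹)⁻¹ = a x⁻¹
  rw [← h x⁻¹ y]
  congr 1
  group

omit [Finite G] in
theorem actF_inv1 (e : G → F) {a : G → F} (h : IsCl a) : actF e (inv1 a) = inv1 (mulF e a) := by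
  funext x
  change (∑ᶠ t, e t * a (t * x)⁻¹) = ∑ᶠ t, e t * a (t⁻¹ * x⁻¹)
  apply finsum_congr
  intro t
  congr 1
  rw [← h (t * x)⁻¹ t⁻¹]
  congr 1
  group

theorem map_act {e : G → F} (he : IsIdem e) :
    (cfs F G).map (actL e) = (Zb e).map (inv1 : (G → F) ≃ₗ[F] (G → F)).toLinearMap := by
  apply le_antisymm
  · rintro _ ⟨f, hf, rfl⟩
    have hf' : IsCl (inv1 f) := isCl_inv1 hf
    refine ⟨mulF e (inv1 f), ⟨H20.isCl_mulF he.1 hf', ?_⟩, ?_⟩
    · rw [← H20.mulF_assoc, he.2]
    · change inv1 (mulF e (inv1 f)) = actF e f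
      rw [← actF_inv1 e hf']
      congr 1
      funext x
      change f (x⁻¹)⁻¹ = f x
      rw [inv_inv]
  · rintro _ ⟨a, ⟨h1, h2⟩, rfl⟩
    refine ⟨inv1 a, isCl_inv1 h1, ?_⟩
    change actF e (inv1 a) = inv1 a
    rw [actF_inv1 e h1, h2]

theorem rk_eq {e : G → F} (he : IsIdem e) : rk e (cfs F G) = Module.finrank F (Zb e) := by
  unfold rk
  rw [map_act he]
  exact LinearEquiv.finrank_map_eq inv1 (Zb e)

/-- a finite sum -/
theorem exs {e j : G → F} (h : e ∈ Submodule.span F {x : G → F | ∃ a b, x = mulF a (mulF j b)}) :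
    ∃ (n : ℕ) (a b : Fin n → MonoidAlgebra F G), H20.toMA e = ∑ k, a k * H20.toMA j * b k := by
  rw [Submodule.mem_span_set'] at h
  obtain ⟨n, f, g, h⟩ := h
  choose a b hab using fun k => (g k).2
  refine ⟨n, fun k => H20.toMA (f k • a k), fun k => H20.toMA (b k), ?_⟩
  have h5 : H20.toMA e = ∑ k, H20.toMA (f k • (g k : G → F)) := by
    rw [← h]
    exact map_sum (H20.maE (F := F) (H := G)) _ _
  rw [h5]
  apply Finset.sum_congr rfl
  intro k _
  change H20.toMA (f k • (g k : G → F)) = H20.toMA (f k • a k) * H20.toMA j * H20.toMA (b k)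
  rw [hab k, H20.toMA_smul, H20.toMA_smul, H20.toMA_mulF, H20.toMA_mulF, smul_mul_assoc,
    smul_mul_assoc, mul_assoc]

theorem ctr : CtrStmt := by
  intro F _ G _ _ e j he hej hj hspan
  rw [rk_eq he]
  obtain ⟨n, a, b, hs⟩ := exs hspan
  have hec : ∀ x : MonoidAlgebra F G, H20.toMA e * x = x * H20.toMA e := (H20.isCl_iff e).1 he.1
  have hej' : H20.toMA e * H20.toMA j = H20.toMA j := by rw [← H20.toMA_mulF, hej]
  -- the map from the centre of the block to the centre of the corner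
  have hmem : ∀ z : Zb e, mulF j (mulF z.1 j) = mulF z.1 j ∧ mulF (mulF z.1 j) j = mulF z.1 j := by
    intro z
    constructor
    · rw [H20.mulF_comm_of_cl z.2.1 j, ← H20.mulF_assoc, hj]
    · rw [H20.mulF_assoc, hj]
  let Φ : Zb e →ₗ[F] Subalgebra.center F (Crn hj) :=
    { toFun := fun z => ⟨mkc hj (mulF z.1 j) (hmem z), by
        rw [Subalgebra.mem_center_iff]
        intro x
        apply cv_inj
        rw [cv_mul, cv_mul, cv_mkc, H20.mulF_assoc, cv_l, ← H20.mulF_assoc, ← H20.mulF_comm_of_cl z.2.1 (cv x),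
          H20.mulF_assoc, cv_r]⟩
      map_add' := fun z w => by
        apply Subtype.ext
        apply cv_inj
        change mulF (z.1 + w.1) j = mulF z.1 j + mulF w.1 j
        rw [H20.add_mulF]
      map_smul' := fun c z => by
        apply Subtype.ext
        apply cv_inj
        change mulF (c • z.1) j = c • mulF z.1 j
        rw [H20.smul_mulF] }
  have hinj : Function.Injective Φ := by
    intro z w hzw
    have h1 : mulF z.1 j = mulF w.1 j := congrArg (fun t => cv (Subtype.val t)) hzw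
    have h2 : ∀ z : Zb e, ∑ k, a k * (H20.toMA z.1 * H20.toMA j) * b k = H20.toMA z.1 := by
      intro z
      refine cene a b (H20.toMA j) (H20.toMA e) (H20.toMA z.1) ((H20.isCl_iff z.1).1 z.2.1) hs ?_
      rw [← H20.toMA_mulF, z.2.2]
    apply Subtype.ext
    apply H20.toMA_injective
    rw [← h2 z, ← h2 w, ← H20.toMA_mulF, ← H20.toMA_mulF, h1]
  have hsurj : Function.Surjective Φ := by
    rintro ⟨ζ, hζ⟩
    rw [Subalgebra.mem_center_iff] at hζ
    have h1 : H20.toMA j * H20.toMA (cv ζ) = H20.toMA (cv ζ) := by rw [← H20.toMA_mulF, cv_l]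
    have h2 : H20.toMA (cv ζ) * H20.toMA j = H20.toMA (cv ζ) := by rw [← H20.toMA_mulF, cv_r]
    have hc : ∀ x : MonoidAlgebra F G, (H20.toMA j * x * H20.toMA j) * H20.toMA (cv ζ) =
        H20.toMA (cv ζ) * (H20.toMA j * x * H20.toMA j) := by
      intro x
      obtain ⟨y, rfl⟩ := H20.toMA_surjective x
      have h3 := congrArg (fun t => H20.toMA (cv t)) (hζ (mkj hj y))
      change H20.toMA (cv (mkj hj y * ζ)) = H20.toMA (cv (ζ * mkj hj y)) at h3
      simp only [cv_mul, cv_mkj, H20.toMA_mulF] at h3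
      rw [← mul_assoc (H20.toMA j)] at h3
      exact h3
    obtain ⟨z, hz⟩ := H20.toMA_surjective (∑ k, a k * H20.toMA (cv ζ) * b k)
    have hcen := cen a b (H20.toMA j) (H20.toMA e) (H20.toMA (cv ζ)) hec hej' hs h1 h2 hc
    have hj2 := cenj a b (H20.toMA j) (H20.toMA e) (H20.toMA (cv ζ)) hej' hs h1 h2 hc
    have hzcl : IsCl z := by
      rw [H20.isCl_iff]
      intro x
      rw [hz]
      exact (hcen x).symm
    have hez : mulF e z = z := by
      apply H20.toMA_injective
      rw [H20.toMA_mulF, hz, Finset.mul_sum]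
      apply Finset.sum_congr rfl
      intro k _
      have hez' : H20.toMA e * H20.toMA (cv ζ) = H20.toMA (cv ζ) := by rw [← h1, ← mul_assoc, hej']
      rw [← mul_assoc, ← mul_assoc, hec, mul_assoc (a k), hez']
    refine ⟨⟨z, hzcl, hez⟩, ?_⟩
    apply Subtype.ext
    apply cv_inj
    change mulF z j = cv ζ
    apply H20.toMA_injective
    rw [H20.toMA_mulF, hz, hj2]
  exact (LinearEquiv.finrank_eq (LinearEquiv.ofBijective Φ ⟨hinj, hsurj⟩)).symm

end Pool.Agent.PFD.H61
end
end -- Pool.Agent.Helper61_PFD.CTR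

section -- Pool.Agent.Helper4_PSS.CLG

/-!
# Squad PSS, row CLG: the corner of a block with an abelian defect group is in the class
-/

set_option autoImplicit false

open scoped BigOperators

noncomputable section

namespace Pool.Agent.PSS.H4

open Pool.Agent.Helper51_AWC Pool.Agent.Helper79_WRA Pool.Agent.PP Pool.Agent.PP.KF
open Pool.Agent.PP.K9 Pool.Agent.PP.K9.H97 Pool.Agent.PP.H75 Pool.Agent.PP.T3 Pool.Agent.PP.T2
open Pool.Agent.PFC (Jd Crn jal Cz cv mkj cv_mkj cv_mul cv_inj cv_one)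

attribute [local instance] Ideal.Quotient.field

theorem rt_unit {F G : Type} [Field F] [Group G] [Finite G] {e j z : G → F}
    (hj : mulF j j = j) (hej : mulF e j = j) (hz : IsCl z)
    (h : ∃ c, IsCl c ∧ mulF (mulF c z) e = e) (y : Crn hj) (hy : cv y = mulF j z) :
    ∃ u : Crn hj, u * y = 1 := by
  obtain ⟨c, hc, hce⟩ := h
  have comm : ∀ b : G → F, IsCl b → ma j * ma b = ma b * ma j := by
    intro b hb
    have h1 := mulF_comm_of (K := (⊤ : Subgroup G)) (a := j) (c := b)
      (fun x hx => absurd (Subgroup.mem_top x) hx)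
      (fun k _ => (cj_eq_iff k b).2 fun x => hb x k)
    rw [← ma_mul, h1, ma_mul]
  refine ⟨mkj hj c, ?_⟩
  apply cv_inj
  rw [cv_mul, cv_one, cv_mkj, hy]
  apply ma_injective
  have hJ : ma j * ma j = ma j := by rw [← ma_mul, hj]
  have hE : ma e * ma j = ma j := by rw [← ma_mul, hej]
  have hC : ma c * ma z * ma e = ma e := by rw [← ma_mul, ← ma_mul, hce]
  rw [ma_mul, ma_mul, ma_mul, ma_mul]
  calc ma j * (ma c * ma j) * (ma j * ma z)
      = ma j * ma c * (ma j * ma j) * ma z := by simp only [mul_assoc]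
    _ = ma j * ma c * (ma j * ma z) := by rw [hJ]; simp only [mul_assoc]
    _ = ma j * ma c * (ma z * (ma e * ma j)) := by rw [comm z hz, hE]
    _ = ma j * (ma c * ma z * ma e) * ma j := by simp only [mul_assoc]
    _ = ma j := by rw [hC, mul_assoc, hE, hJ]

theorem one_notMem {F V A : Type} [Field F] [CommGroup V] [Fintype V] [Ring A] [Algebra F A]
    {α : V →* A} (h : PFC.Tpv F α) : (1 : A) ∉ BKR (cw F α) ⊤ := by
  classical
  intro h1
  have h2 := h.free (fun u => if u = 1 then 1 else 0) (by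
    have h3 : ∑ u, (if u = 1 then (1 : F) else 0) • α u = 1 := by
      rw [Finset.sum_eq_single (1 : V)]
      · rw [if_pos rfl, map_one, one_smul]
      · intro b _ hb
        rw [if_neg hb, zero_smul]
      · intro h4
        exact absurd (Finset.mem_univ _) h4
    rw [h3]
    exact h1)
  have h3 := congrFun h2 1
  simp at h3

/-- row CLG -/
theorem clg (rfg : RfgStmt) (blg : BlgStmt) (ffa : PFC.FfaStmt) (fps : PFC.FpsStmt)
    (unt : PFC.UntStmt) (lft : T8.LftStmt) (omi : T8.OmiStmt) (knz : T8.KnzStmt)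
    (dgc : DgcStmt) (inx : K9.InxStmt) : ClgStmt := by
  intro ℓ hℓ M iM hM G iG iFG e V γ hL j hj W E iW iFW iE ι hι hr φ hT1 hT2 hjj hv
  obtain ⟨hfin, hfrm, hloc, htop⟩ := ffa ℓ M hM G e V γ hL j hj W ι hι hr hjj hv
  have hje : mulF e j = j := (PFC.H52.jun ℓ M hM G e V γ hL j hj).2.1
  refine ⟨hfin, ?_, ?_, ?_, ?_⟩
  · obtain ⟨Ω, i1, i2, b, c, h1, h2⟩ := fps ℓ M hM G e V γ hL j hj W E ι hι hr φ hT1 hjj hv
    exact ⟨Ω, i1, i2, b, c, h1, h2⟩
  · intro x
    obtain ⟨t, ht, htw⟩ := hT2 x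
    exact unt ℓ M hM G e V γ hL j hj W ι hι hr hjj hv t ht (φ x) htw
  · obtain ⟨lam, K, iK, x, y, h1, h2⟩ := rfg (FF M) G W ι hι j hjj hv
    refine ⟨lam, K, iK, x, y, h1, ?_⟩
    rw [hr] at h2
    obtain ⟨χ, hχ⟩ := T8.H14.irrE_nonempty M hL.blk.1 hL.blk.2.1
    have hne := PFD.H52.res_ne lft omi knz dgc inx hM hL hj hχ
    have hcl : IsCl (tsm V j) := tsm_cl fun v hv' => (cj_eq_iff v j).2 fun g => hj.iv v hv' g
    refine rt_unit hjj hje hcl ?_ _ h2
    rcases H50.blk_dich hL.blk hcl with ⟨n, hn⟩ | h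
    · exact absurd (H50.zero_of_nil hL.blk.1.1 hcl (H50.isChar_res (M := M) hχ.1) hχ.2 hn) hne
    · exact h
  · intro Q a ha h1 _ h3
    exact blg (FF M) W (Crn hjj) (jal hjj ι hv) hloc (one_notMem htop) Q a ha h1 h3

end Pool.Agent.PSS.H4
end
end -- Pool.Agent.Helper4_PSS.CLG

section -- Pool.Agent.Helper4_PSS.DZC

/-!
# Squad PSS, row DZC: the centre of the corner
-/

set_option autoImplicit false

noncomputable section

namespace Pool.Agent.PSS.H4

open Pool.Agent.Helper51_AWC Pool.Agent.Helper79_WRA Pool.Agent.PP Pool.Agent.PP.KF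
open Pool.Agent.PP.K9 Pool.Agent.PP.K9.H97 Pool.Agent.PP.H75 Pool.Agent.PP.T3 Pool.Agent.PP.T2
open Pool.Agent.PFC (Jd Crn jal Cz cv)

attribute [local instance] Ideal.Quotient.field

/-- row DZC -/
theorem dzc (ful : PFD.FulStmt) : DzcStmt := by
  intro ℓ hℓ M iM hM G iG iFG e V γ hL j hj hjj
  have hje : mulF e j = j := (PFC.H52.jun ℓ M hM G e V γ hL j hj).2.1
  have hful := ful ℓ M hM G e V γ hL j hj
  rw [PFD.H61.ctr (FF M) G e j hL.blk.1 hje hjj hful]
  exact H50.chp ℓ hℓ.out M hM G e hL.blk.1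

end Pool.Agent.PSS.H4
end
end -- Pool.Agent.Helper4_PSS.DZC
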