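import Pool.Agent.Helper12_AWB.B155
import Pool.Agent.Helper12_AWB.B160

/-!
# Merged copies (generated) of the modules

* `Pool.Agent.Helper65_D1.Ird`
* `Pool.Agent.Helper17_D2.Ird`
* `Pool.Agent.Helper34_D2.Dms`
* `Pool.Agent.Helper39_D2.Prt`
* `Pool.Agent.Helper6_D1.Ebd`
* `Pool.Agent.Helper6_D1.Ced`
* `Pool.Agent.Helper65_D2.Ced`
* `Pool.Agent.Helper51_D1.Cbd`
* `Pool.Agent.Helper6_D2.Ebd`
* `Pool.Agent.Helper91_D2.Cbd`
-/

set_option autoImplicit false

section -- Pool.Agent.Helper65_D1.Ird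

/-!
# Part D1, module IRD: `V^P / (∑ P) V` is irreducible
-/

open scoped BigOperators

noncomputable section

namespace Pool.Agent.PP.D1.H65

open Pool.Agent.PP Pool.Agent.Helper51_AWC Pool.Agent.Helper79_WRA

section general

variable {F : Type} [Field F] {G : Type} [Group G]

/-- an irreducible matrix representation has no proper stable subspaces -/
theorem top_of_stb {n : ℕ} {σ : G →* Matrix (Fin n) (Fin n) F} (hσ : IsIrr σ)
    {Z : Submodule F (Fin n → F)} (hZ : Z ≠ ⊥) (hs : Stb ⊤ (mrep σ) Z) : Z = ⊤ := by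
  obtain ⟨v, hv, hv0⟩ := Submodule.exists_mem_ne_zero_of_ne_bot hZ
  rw [eq_top_iff]
  intro w _
  obtain ⟨A, rfl⟩ := CY66.exists_mulVec hv0 w
  have hA : A ∈ Submodule.span F (Set.range σ) := by rw [hσ.2]; trivial
  induction hA using Submodule.span_induction with
  | mem x hx =>
    obtain ⟨g, rfl⟩ := hx
    exact hs g (Subgroup.mem_top g) v hv
  | zero => rw [Matrix.zero_mulVec]; exact zero_mem _
  | add x y _ _ hx hy =>
    rw [Matrix.add_mulVec]
    exact add_mem (hx trivial) (hy trivial)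
  | smul a x _ hx =>
    rw [Matrix.smul_mulVec]
    exact Submodule.smul_mem _ _ (hx trivial)

/-- `b` acts as one -/
theorem evV_one [Finite G] {n : ℕ} {σ : G →* Matrix (Fin n) (Fin n) F} {b : G → F}
    (h : ev σ b = 1) (v : Fin n → F) : evV (mrep σ) b v = v := by
  have := Fintype.ofFinite G
  rw [D66.evV_apply]
  have h1 : (ev σ b).mulVec v = v := by rw [h, Matrix.one_mulVec]
  unfold ev at h1
  rw [finsum_eq_sum_of_fintype, Matrix.sum_mulVec] at h1
  rw [← h1]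
  refine Finset.sum_congr rfl fun g _ => ?_
  rw [Matrix.smul_mulVec, h1]
  rfl

end general

section quot

variable {F : Type} [Field F] {A : Type} [Group A] {V : Type} [AddCommGroup V] [Module F V]

/-- the representation on a subquotient -/
def qrep (ρ : Representation F A V) (K : Submodule F V) (hK : ∀ x, ∀ v ∈ K, ρ x v ∈ K)
    (M : Submodule F K) (hM : ∀ x, ∀ v ∈ M, (⟨ρ x v, hK x v v.2⟩ : K) ∈ M) :
    Representation F A (K ⧸ M) where
  toFun x := M.mapQ M ((ρ x).restrict (hK x)) (fun v hv => hM x v hv)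
  map_one' := by
    apply LinearMap.ext
    intro q
    obtain ⟨v, rfl⟩ := M.mkQ_surjective q
    have h1 : (⟨ρ 1 v, hK 1 v v.2⟩ : K) = v := by
      apply Subtype.ext
      show ρ 1 v = v
      rw [map_one]
      rfl
    exact congrArg M.mkQ h1
  map_mul' x y := by
    apply LinearMap.ext
    intro q
    obtain ⟨v, rfl⟩ := M.mkQ_surjective q
    have h1 : (⟨ρ (x * y) v, hK (x * y) v v.2⟩ : K) =
        ⟨ρ x (ρ y v), hK x _ (hK y v v.2)⟩ := by
      apply Subtype.ext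
      show ρ (x * y) v = ρ x (ρ y v)
      rw [map_mul]
      rfl
    exact congrArg M.mkQ h1

theorem qrep_apply (ρ : Representation F A V) (K : Submodule F V)
    (hK : ∀ x, ∀ v ∈ K, ρ x v ∈ K) (M : Submodule F K)
    (hM : ∀ x, ∀ v ∈ M, (⟨ρ x v, hK x v v.2⟩ : K) ∈ M) (x : A) (v : K) :
    qrep ρ K hK M hM x (M.mkQ v) = M.mkQ ⟨ρ x v, hK x v v.2⟩ := rfl

end quot

theorem ird (hKEY : KeyStmt) (hFR1 : Fr1Stmt) (hSOC : SocStmt) : IrdStmt := by
  intro ℓ _ F _ hF G _ _ N P b hD A _ _ j hj n σ hσ hb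
  have : IsAlgClosed F := hF.closed
  have hev := evV_one hb
  have hns : NSoc N (mrep σ) := (hSOC F G N hD.normal).1 n σ hσ
  have hfr : nrmV (mrep σ) P < fixV (mrep σ) P := hFR1 ℓ F hF G N P b hD n σ hσ hb
  have hjn : ∀ x, j x ∈ Subgroup.normalizer (P : Set G) := by
    intro x
    rw [← hj]
    exact ⟨x, rfl⟩
  have hfix : ∀ x, ∀ v ∈ fixV (mrep σ) P, mrep σ (j x) v ∈ fixV (mrep σ) P :=
    fun x v hv => D66.fix_stb _ (hjn x) hv
  have hnrm : ∀ x, ∀ v ∈ nrmV (mrep σ) P, mrep σ (j x) v ∈ nrmV (mrep σ) P :=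
    fun x v hv => CY66.nrm_stable _ (hjn x) hv
  -- the subquotient
  let K : Submodule F (Fin n → F) := fixV (mrep σ) P
  let M : Submodule F K := (nrmV (mrep σ) P).comap K.subtype
  let ρA : Representation F A (Fin n → F) := (mrep σ).comp j
  have hM : ∀ x, ∀ v ∈ M, (⟨ρA x v, hfix x v v.2⟩ : K) ∈ M := by
    intro x v hv
    exact hnrm x v hv
  let τ : Representation F A (K ⧸ M) := qrep ρA K hfix M hM
  have hnt : Nontrivial (K ⧸ M) := by
    rw [Submodule.Quotient.nontrivial_iff]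
    intro htop
    apply hfr.not_ge
    intro v hv
    have h1 : (⟨v, hv⟩ : K) ∈ M := by
      rw [htop]
      trivial
    exact h1
  have hsimple : ∀ W : Submodule F (K ⧸ M), (∀ g, ∀ v ∈ W, τ g v ∈ W) → W = ⊥ ∨ W = ⊤ := by
    intro W hW
    let Y : Submodule F (Fin n → F) := (W.comap M.mkQ).map K.subtype
    have hYK : Y ≤ fixV (mrep σ) P := by
      rintro _ ⟨v, _, rfl⟩
      exact v.2
    have hNY : nrmV (mrep σ) P ≤ Y := by
      intro v hv
      refine ⟨⟨v, hfr.le hv⟩, ?_, rfl⟩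
      have h1 : M.mkQ ⟨v, hfr.le hv⟩ = 0 := by
        rw [Submodule.mkQ_apply, Submodule.Quotient.mk_eq_zero]
        exact hv
      show M.mkQ ⟨v, hfr.le hv⟩ ∈ W
      rw [h1]
      exact zero_mem _
    have hYs : Stb (Subgroup.normalizer (P : Set G)) (mrep σ) Y := by
      intro g hg v hv
      rw [← hj] at hg
      obtain ⟨x, rfl⟩ := hg
      obtain ⟨u, hu, rfl⟩ := hv
      refine ⟨⟨ρA x u, hfix x u u.2⟩, ?_, rfl⟩
      exact hW x _ hu
    by_cases hYN : Y = nrmV (mrep σ) P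
    · left
      rw [eq_bot_iff]
      intro q hq
      obtain ⟨v, rfl⟩ := M.mkQ_surjective q
      have h1 : (v : Fin n → F) ∈ Y := ⟨v, hq, rfl⟩
      rw [hYN] at h1
      rw [Submodule.mem_bot, Submodule.mkQ_apply, Submodule.Quotient.mk_eq_zero]
      exact h1
    · right
      obtain ⟨Z, hZ0, hZs, hZY⟩ := hKEY ℓ F hF G N P b hD (Fin n → F) (mrep σ) hev hns Y
        (lt_of_le_of_ne hNY (Ne.symm hYN)) hYK hYs
      have hZ := top_of_stb hσ hZ0 hZs
      rw [hZ, top_inf_eq] at hZY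
      rw [eq_top_iff]
      intro q _
      obtain ⟨v, rfl⟩ := M.mkQ_surjective q
      obtain ⟨u, hu, huv⟩ := hZY v.2
      have h1 : u = v := Subtype.ext huv
      rw [← h1]
      exact hu
  obtain ⟨m, κ, e, hκ, he⟩ := H55.irr_of_simple τ hsimple
  obtain ⟨π, hπ⟩ := LinearMap.exists_extend (e.toLinearMap ∘ₗ M.mkQ)
  have hπv : ∀ v (hv : v ∈ fixV (mrep σ) P), π v = e (M.mkQ ⟨v, hv⟩) := by
    intro v hv
    have := LinearMap.congr_fun hπ ⟨v, hv⟩
    exact this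
  refine ⟨m, κ, π, hκ, ⟨?_, ?_, ?_⟩⟩
  · intro x v hv
    rw [hπv v hv, ← he, hπv _ (hfix x v hv)]
    rfl
  · intro v hv
    rw [hπv v hv, LinearEquiv.map_eq_zero_iff, Submodule.mkQ_apply,
      Submodule.Quotient.mk_eq_zero]
    rfl
  · intro w
    obtain ⟨v, hv⟩ := M.mkQ_surjective (e.symm w)
    refine ⟨v, v.2, ?_⟩
    rw [hπv _ v.2]
    change e (M.mkQ v) = w
    rw [hv, LinearEquiv.apply_symm_apply]

end Pool.Agent.PP.D1.H65
end
end -- Pool.Agent.Helper65_D1.Ird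

section -- Pool.Agent.Helper17_D2.Ird

/-!
# Part D2, module IRD: `fix / nrm` is irreducible
-/

open scoped BigOperators

noncomputable section

namespace Pool.Agent.PP.CD2.H17

open Pool.Agent.PP Pool.Agent.Helper51_AWC Pool.Agent.Helper79_WRA

theorem ird (hKEY : KeyStmt) (hFR1 : Fr1Stmt) (hSOC : SocStmt) (hSTW : StwStmt) : IrdStmt := by
  intro ℓ _ F _ hF G _ _ n N P y₁ b w hD A _ _ j hj k σ hσ hb
  obtain ⟨-, -, -, -, -, -, -, -, hns', hfs, -⟩ := hSTW ℓ F hF G n N P y₁ b w hD _ (mrep σ)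
  have : IsAlgClosed F := hF.closed
  have hev := D1.H65.evV_one hb
  have hns : NSoc N (mrep σ) := (hSOC F G N hD.normal).1 k σ hσ
  have hfr : rngW (mrep σ) w (ℓ ^ (n + 1) - 1) < fixW (mrep σ) (bY y₁ b) w := hFR1 ℓ F hF G n N P y₁ b w hD k σ hσ hb
  have hjn : ∀ x, j x ∈ NY y₁ := by
    intro x
    rw [← hj]
    exact ⟨x, rfl⟩
  have hfix : ∀ x, ∀ v ∈ fixW (mrep σ) (bY y₁ b) w, mrep σ (j x) v ∈ fixW (mrep σ) (bY y₁ b) w :=
    fun x v hv => hfs _ (hjn x) v hv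
  have hnrm : ∀ x, ∀ v ∈ rngW (mrep σ) w (ℓ ^ (n + 1) - 1), mrep σ (j x) v ∈ rngW (mrep σ) w (ℓ ^ (n + 1) - 1) :=
    fun x v hv => hns' _ _ (hjn x) v hv
  -- the subquotient
  let K : Submodule F (Fin k → F) := fixW (mrep σ) (bY y₁ b) w
  let M : Submodule F K := (rngW (mrep σ) w (ℓ ^ (n + 1) - 1)).comap K.subtype
  let ρA : Representation F A (Fin k → F) := (mrep σ).comp j
  have hM : ∀ x, ∀ v ∈ M, (⟨ρA x v, hfix x v v.2⟩ : K) ∈ M := by
    intro x v hv
    exact hnrm x v hv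
  let τ : Representation F A (K ⧸ M) := D1.H65.qrep ρA K hfix M hM
  have hnt : Nontrivial (K ⧸ M) := by
    rw [Submodule.Quotient.nontrivial_iff]
    intro htop
    apply hfr.not_ge
    intro v hv
    have h1 : (⟨v, hv⟩ : K) ∈ M := by
      rw [htop]
      trivial
    exact h1
  have hsimple : ∀ W : Submodule F (K ⧸ M), (∀ g, ∀ v ∈ W, τ g v ∈ W) → W = ⊥ ∨ W = ⊤ := by
    intro W hW
    let Y : Submodule F (Fin k → F) := (W.comap M.mkQ).map K.subtype
    have hYK : Y ≤ fixW (mrep σ) (bY y₁ b) w := by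
      rintro _ ⟨v, _, rfl⟩
      exact v.2
    have hNY : rngW (mrep σ) w (ℓ ^ (n + 1) - 1) ≤ Y := by
      intro v hv
      refine ⟨⟨v, hfr.le hv⟩, ?_, rfl⟩
      have h1 : M.mkQ ⟨v, hfr.le hv⟩ = 0 := by
        rw [Submodule.mkQ_apply, Submodule.Quotient.mk_eq_zero]
        exact hv
      show M.mkQ ⟨v, hfr.le hv⟩ ∈ W
      rw [h1]
      exact zero_mem _
    have hYs : Stb (NY y₁) (mrep σ) Y := by
      intro g hg v hv
      rw [← hj] at hg
      obtain ⟨x, rfl⟩ := hg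
      obtain ⟨u, hu, rfl⟩ := hv
      refine ⟨⟨ρA x u, hfix x u u.2⟩, ?_, rfl⟩
      exact hW x _ hu
    by_cases hYN : Y = rngW (mrep σ) w (ℓ ^ (n + 1) - 1)
    · left
      rw [eq_bot_iff]
      intro q hq
      obtain ⟨v, rfl⟩ := M.mkQ_surjective q
      have h1 : (v : Fin k → F) ∈ Y := ⟨v, hq, rfl⟩
      rw [hYN] at h1
      rw [Submodule.mem_bot, Submodule.mkQ_apply, Submodule.Quotient.mk_eq_zero]
      exact h1
    · right
      obtain ⟨Z, hZ0, hZs, hZY⟩ := hKEY ℓ F hF G n N P y₁ b w hD (Fin k → F) (mrep σ) hev hns Y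
        (lt_of_le_of_ne hNY (Ne.symm hYN)) hYK hYs
      have hZ := D1.H65.top_of_stb hσ hZ0 hZs
      rw [hZ, top_inf_eq] at hZY
      rw [eq_top_iff]
      intro q _
      obtain ⟨v, rfl⟩ := M.mkQ_surjective q
      obtain ⟨u, hu, huv⟩ := hZY v.2
      have h1 : u = v := Subtype.ext huv
      rw [← h1]
      exact hu
  obtain ⟨m, κ, e, hκ, he⟩ := H55.irr_of_simple τ hsimple
  obtain ⟨π, hπ⟩ := LinearMap.exists_extend (e.toLinearMap ∘ₗ M.mkQ)
  have hπv : ∀ v (hv : v ∈ fixW (mrep σ) (bY y₁ b) w), π v = e (M.mkQ ⟨v, hv⟩) := by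
    intro v hv
    have := LinearMap.congr_fun hπ ⟨v, hv⟩
    exact this
  refine ⟨m, κ, π, hκ, ⟨?_, ?_, ?_⟩⟩
  · intro x v hv
    rw [hπv v hv, ← he, hπv _ (hfix x v hv)]
    rfl
  · intro v hv
    rw [hπv v hv, LinearEquiv.map_eq_zero_iff, Submodule.mkQ_apply,
      Submodule.Quotient.mk_eq_zero]
    rfl
  · intro w'
    obtain ⟨v, hv⟩ := M.mkQ_surjective (e.symm w')
    refine ⟨v, v.2, ?_⟩
    rw [hπv _ v.2]
    change e (M.mkQ v) = w'
    rw [hv, LinearEquiv.apply_symm_apply]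

end Pool.Agent.PP.CD2.H17
end
end -- Pool.Agent.Helper17_D2.Ird

section -- Pool.Agent.Helper34_D2.Dms

/-! Part D2, module DMS: the dimensions of the spaces `i' M_s`. -/

open scoped BigOperators

set_option autoImplicit false

noncomputable section

namespace Pool.Agent.PP.CD2.H34

open Pool.Agent.PP Pool.Agent.Helper51_AWC Pool.Agent.Helper79_WRA Pool.Agent.PP.H20
  Pool.Agent.PP.CD2.H66

variable {F : Type} [Field F] {G : Type} [Group G] [Finite G]

/-- the spaces -/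
def Kd (b w i i' : G → F) (s : ℕ) : Submodule F (G → F) where
  carrier := {x | mulF i' x = x ∧ MSw b w i s x}
  zero_mem' := by
    refine ⟨mulF_zero _, mulF_zero _, zero_mulF _, ?_⟩
    apply toMA_injective
    rw [toMA_pwR, toMA_zero, zero_mul]
  add_mem' := by
    rintro x y ⟨h1, h2, h3, h4⟩ ⟨k1, k2, k3, k4⟩
    refine ⟨by rw [mulF_add, h1, k1], by rw [mulF_add, h2, k2], by rw [add_mulF, h3, k3], ?_⟩
    apply toMA_injective
    rw [toMA_pwR, toMA_add, add_mul, ← toMA_pwR, ← toMA_pwR, h4, k4, toMA_zero, add_zero]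
  smul_mem' := by
    rintro c x ⟨h1, h2, h3, h4⟩
    refine ⟨by rw [mulF_smul, h1], by rw [mulF_smul, h2], by rw [smul_mulF, h3], ?_⟩
    apply toMA_injective
    rw [toMA_pwR, toMA_smul, smul_mul_assoc, ← toMA_pwR, h4, toMA_zero, smul_zero]

theorem mem_Kd {b w i i' : G → F} {s : ℕ} {x : G → F} : x ∈ Kd b w i i' s ↔
    mulF i' x = x ∧ mulF b x = x ∧ mulF x i = x ∧ pwR w s x = 0 := Iff.rfl

/-- right multiplication with a power of `w` -/
def Rw (w : G → F) (s : ℕ) : (G → F) →ₗ[F] (G → F) where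
  toFun x := pwR w s x
  map_add' x y := by
    apply toMA_injective
    rw [toMA_pwR, toMA_add, add_mul, toMA_add, toMA_pwR, toMA_pwR]
  map_smul' c x := by
    apply toMA_injective
    rw [toMA_pwR, toMA_smul, smul_mul_assoc, RingHom.id_apply, toMA_smul, toMA_pwR]

theorem pwR_add (w a : G → F) (s t : ℕ) : pwR w (s + t) a = pwR w s (pwR w t a) := by
  apply toMA_injective
  rw [toMA_pwR, toMA_pwR, toMA_pwR, mul_assoc, ← pow_add, add_comm]

theorem mulF_pwR (a w x : G → F) (s : ℕ) : mulF a (pwR w s x) = pwR w s (mulF a x) := by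
  apply toMA_injective
  rw [toMA_mulF, toMA_pwR, toMA_pwR, toMA_mulF, mul_assoc]

/-- DMS -/
theorem dms (hanr : AnrStmt) : DmsStmt := by
  intro F _ G _ _ C b₁ w i q hU b i' hb hbi hii
  have hwi : mulF w i = mulF i w := cm_comm hU.cw hU.si
  have hpi : ∀ (s : ℕ) (x : G → F), mulF (pwR w s x) i = pwR w s (mulF x i) := by
    intro s x
    have h1 : Commute (toMA w) (toMA i) := by
      show toMA w * toMA i = toMA i * toMA w
      rw [← toMA_mulF, ← toMA_mulF, hwi]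
    apply toMA_injective
    rw [toMA_mulF, toMA_pwR, toMA_pwR, toMA_mulF, mul_assoc, mul_assoc, (h1.pow_left s).eq]
  have hq0 : ∀ x : G → F, mulF x i = x → pwR w q x = 0 := by
    intro x hx
    have h1 := congrArg toMA hU.nil
    rw [toMA_pwF, toMA_zero] at h1
    have h2 : toMA w ^ q * toMA i = 0 := by
      have h3 : toMA i = toMA b₁ * toMA i := by rw [← toMA_mulF, hU.bi]
      rw [h3, ← mul_assoc, h1, zero_mul]
    rw [← hx, ← hpi]
    apply toMA_injective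
    rw [toMA_mulF, toMA_pwR, mul_assoc, h2, mul_zero, toMA_zero]
  have hspan : ∀ s, Submodule.span F {x : G → F | mulF i' x = x ∧ MSw b w i s x} =
      Kd b w i i' s := fun s => Submodule.span_eq (Kd b w i i' s)
  refine ⟨Module.finrank F (Kd b w i i' 1), ?_⟩
  intro s
  rw [hspan]
  induction s with
  | zero =>
    intro _
    have h1 : Kd b w i i' 0 = ⊥ := by
      rw [eq_bot_iff]
      intro x hx
      exact (Submodule.mem_bot F).2 hx.2.2.2
    rw [h1, finrank_bot, zero_mul]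
  | succ s ih =>
    intro hs
    have ih := ih (by omega)
    set φ : Kd b w i i' (s + 1) →ₗ[F] (G → F) := (Rw w s).comp (Kd b w i i' (s + 1)).subtype
      with hφ
    have hφa : ∀ x : Kd b w i i' (s + 1), φ x = pwR w s x.1 := fun x => rfl
    have h1 : LinearMap.range φ = Kd b w i i' 1 := by
      apply le_antisymm
      · rintro _ ⟨x, rfl⟩
        obtain ⟨k1, k2, k3, k4⟩ := x.2
        rw [hφa]
        refine ⟨by rw [mulF_pwR, k1], by rw [mulF_pwR, k2], by rw [hpi, k3], ?_⟩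
        rw [← pwR_add, add_comm, k4]
      · rintro y ⟨k1, k2, k3, k4⟩
        obtain ⟨x', hx', hy⟩ := hanr F G C b₁ w i q hU 1 (by omega) y k3 k4
        have e1 : mulF (mulF i' x') i = mulF i' x' := by rw [mulF_assoc, hx']
        refine ⟨⟨pwR w (q - 1 - s) (mulF i' x'), ?_, ?_, ?_, ?_⟩, ?_⟩
        · rw [mulF_pwR, ← mulF_assoc, hii]
        · rw [mulF_pwR, ← mulF_assoc, hbi]
        · rw [hpi, e1]
        · rw [← pwR_add]
          have e2 : s + 1 + (q - 1 - s) = q := by omega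
          rw [e2]
          exact hq0 _ e1
        · rw [hφa]
          show pwR w s (pwR w (q - 1 - s) (mulF i' x')) = y
          rw [← pwR_add]
          have e2 : s + (q - 1 - s) = q - 1 := by omega
          rw [e2, ← mulF_pwR, ← hy, k1]
    have h2 : (LinearMap.ker φ).map (Kd b w i i' (s + 1)).subtype = Kd b w i i' s := by
      apply le_antisymm
      · rintro _ ⟨x, hx, rfl⟩
        obtain ⟨k1, k2, k3, k4⟩ := x.2
        exact ⟨k1, k2, k3, hx⟩
      · rintro x ⟨k1, k2, k3, k4⟩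
        refine ⟨⟨x, k1, k2, k3, ?_⟩, k4, rfl⟩
        rw [add_comm, pwR_add, k4]
        exact (Rw w 1).map_zero
    have h3 := LinearMap.finrank_range_add_finrank_ker φ
    have h4 := Submodule.finrank_map_subtype_eq (Kd b w i i' (s + 1)) (LinearMap.ker φ)
    rw [h1, ← h4, h2, ih] at h3
    rw [← h3]
    ring

end Pool.Agent.PP.CD2.H34
end
end -- Pool.Agent.Helper34_D2.Dms

section -- Pool.Agent.Helper39_D2.Prt

/-!
# Part D2, modules PRT and TRA: traces from `1` to `P`, homomorphisms from `K` to `N`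
-/

open scoped BigOperators

noncomputable section

namespace Pool.Agent.PP.CD2.H39

open Pool.Agent.PP Pool.Agent.PP.CD2.H66 Pool.Agent.Helper51_AWC Pool.Agent.Helper79_WRA

section tools

variable {F : Type} [Field F] {G : Type} [Group G] [Finite G] {V V' : Type} [AddCommGroup V]
  [Module F V] [AddCommGroup V'] [Module F V']

theorem trP_apply' (ρ : Representation F G V) (ρ' : Representation F G V') (P : Subgroup G)
    [Fintype P] (φ : V →ₗ[F] V') (v : V) :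
    trP ρ ρ' P φ v = ∑ p : P, ρ' p (φ (ρ (p : G)⁻¹ v)) := by
  unfold trP
  rw [finsum_eq_sum_of_fintype, LinearMap.sum_apply]
  rfl

/-- `(trP P ψ) a = trP P (ψ a)` if `a` commutes with `P` -/
theorem trP_comp (ρ : Representation F G V) (ρ' : Representation F G V') (P : Subgroup G)
    (ψ : V →ₗ[F] V') {a : G → F} (ha : CmF P a) :
    trP ρ ρ' P ψ ∘ₗ evV ρ a = trP ρ ρ' P (ψ ∘ₗ evV ρ a) := by
  have := Fintype.ofFinite P
  apply LinearMap.ext
  intro v
  rw [LinearMap.comp_apply, trP_apply', trP_apply']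
  refine Finset.sum_congr rfl fun p _ => ?_
  rw [LinearMap.comp_apply, evV_cm ρ ha (inv_mem p.2)]

/-- `trW c (h a) = h (trW c a)` if `h` commutes with the support of `c` -/
theorem trW_comp (ρ : Representation F G V) (ρ' : Representation F G V') {K : Subgroup G}
    {c : G → F} (hc : ∀ g, g ∉ K → c g = 0) {h : V →ₗ[F] V'} (hh : HomOn K ρ ρ' h)
    (φ : V →ₗ[F] V) : trW c ρ ρ' (h ∘ₗ φ) = h ∘ₗ trW c ρ ρ φ := by
  have := Fintype.ofFinite G
  apply LinearMap.ext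
  intro v
  rw [LinearMap.comp_apply, D66.trW_apply, D66.trW_apply, map_sum]
  refine Finset.sum_congr rfl fun g _ => ?_
  by_cases hg : g ∈ K
  · rw [map_smul, hh g hg, LinearMap.comp_apply]
  · rw [hc g hg, zero_smul, zero_smul, map_zero]

/-- a cyclic group normalises its subgroups -/
theorem le_NY {P : Subgroup G} (hP : IsCyclic P) {y : G} (hy : y ∈ P) : P ≤ NY y := by
  intro p hp
  have hcomm : p * y = y * p := by
    have := hP.commGroup.mul_comm (⟨p, hp⟩ : P) ⟨y, hy⟩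
    exact congrArg Subtype.val this
  refine CY_le_NY y ?_
  unfold CY
  rw [Subgroup.mem_centralizer_iff]
  intro z hz
  obtain ⟨k, rfl⟩ := Subgroup.mem_zpowers_iff.1 hz
  exact (Commute.zpow_right (show Commute p y from hcomm) k).symm.eq

/-- `h = trW c₁ (h z₁)` and `z₁` -/
theorem prj_one {ℓ n : ℕ} {N P : Subgroup G} {y₁ : G} {b w : G → F} (hD : D2S ℓ n N P y₁ b w) :
    ∃ c₁ z₁ : G → F, IsW (N ⊓ NY y₁) P c₁ ∧ CmF P z₁ ∧
      ∀ (V V' : Type) [AddCommGroup V] [Module F V] [AddCommGroup V'] [Module F V']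
        (ρ : Representation F G V) (ρ' : Representation F G V') (h : V →ₗ[F] V'),
        HomOn (N ⊓ NY y₁) ρ ρ' h →
        trW c₁ ρ ρ' (h ∘ₗ evV ρ z₁) = h ∘ₗ evV ρ (bY y₁ b) := by
  obtain ⟨c₁, z₁, hc₁, hz1, hz2, hz3⟩ := hD.prj1
  refine ⟨c₁, z₁, hc₁, fun p hp x => hz2 p hp x, ?_⟩
  intro V V' _ _ _ _ ρ ρ' h hh
  rw [trW_comp ρ ρ' hc₁.supp hh, ← D66.evV_tr ρ hz3]

end tools

/-- PRT -/
theorem prt (htrf : TrfStmt) (hwgt : WgtStmt) : PrtStmt := by
  intro ℓ _ F _ hF G _ _ n N P y₁ b w hD V V' _ _ _ _ _ ρ ρ' h hh hψ j hj v hv hw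
  obtain ⟨ψ, hψ⟩ := hψ
  obtain ⟨c₁, z₁, hc₁, hz, hkey⟩ := prj_one hD
  have hPK : P ≤ N ⊓ NY y₁ := le_inf hD.le (le_NY hD.cyc hD.mem)
  obtain ⟨-, hw1⟩ := hwgt F G (N ⊓ NY y₁) P hPK
  obtain ⟨-, hw2⟩ := hw1 V V' ρ ρ' c₁ hc₁
  have h1 := hkey V V' ρ ρ' h hh
  have h2 : h ∘ₗ evV ρ z₁ = trP ρ ρ' P (ψ ∘ₗ evV ρ z₁) := by
    rw [hψ, trP_comp ρ ρ' P ψ hz]
  have h3 : trW c₁ ρ ρ' (h ∘ₗ evV ρ z₁) = trP ρ ρ' (N ⊓ NY y₁) (ψ ∘ₗ evV ρ z₁) := by
    rw [h2]
    exact hw2 _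
  have h4 : h v = trP ρ ρ' (N ⊓ NY y₁) (ψ ∘ₗ evV ρ z₁) v := by
    rw [← h3, h1, LinearMap.comp_apply, hv]
  rw [h4]
  exact htrf F G (N ⊓ CY y₁) (N ⊓ NY y₁) (bY y₁ b) w (ℓ ^ (n + 1)) hD.ums
    (inf_le_inf_left N (CY_le_NY y₁)) V V' ρ ρ' (ψ ∘ₗ evV ρ z₁) j hj v hv hw

/-- TRA -/
theorem tra (hprt : PrtStmt) (hmcq : McqStmt) (hwgt : WgtStmt) : TraStmt := by
  intro ℓ _ F _ hF G _ _ n N P y₁ b w hD V V' _ _ _ _ _ ρ ρ' g hg hgb
  obtain ⟨c₁, z₁, hc₁, hz, hkey⟩ := prj_one hD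
  obtain ⟨⟨c, hc⟩, hw1⟩ := hwgt F G N P hD.le
  obtain ⟨hw2, -⟩ := hw1 V V' ρ ρ' c hc
  have hPK : P ≤ N ⊓ NY y₁ := le_inf hD.le (le_NY hD.cyc hD.mem)
  have hφ : HomOn P ρ ρ' (g ∘ₗ evV ρ z₁) := by
    intro p hp v
    rw [LinearMap.comp_apply, LinearMap.comp_apply, evV_cm ρ hz hp, hg p (hPK hp)]
  obtain ⟨hf, -⟩ := hw2 _ hφ
  obtain ⟨ψ, hψ⟩ := hmcq ℓ F G n N P y₁ hD.le hD.cyc hD.card hD.mem hD.ord V V' ρ ρ' c c₁ hc hc₁ _
    hφ
  have hgb' : g ∘ₗ evV ρ (bY y₁ b) = g := LinearMap.ext hgb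
  rw [hkey V V' ρ ρ' g hg, hgb'] at hψ
  refine ⟨trW c ρ ρ' (g ∘ₗ evV ρ z₁), hf, ?_⟩
  intro j hj v hv hw
  have hsub : trW c ρ ρ' (g ∘ₗ evV ρ z₁) - g = trP ρ ρ' P ψ := by
    rw [hψ, add_sub_cancel_left]
  have h1 : HomOn (N ⊓ NY y₁) ρ ρ' (trW c ρ ρ' (g ∘ₗ evV ρ z₁) - g) := by
    intro m hm u
    rw [LinearMap.sub_apply, LinearMap.sub_apply, hf m hm.1, hg m hm, map_sub]
  exact hprt ℓ F hF G n N P y₁ b w hD V V' ρ ρ' _ h1 ⟨ψ, hsub⟩ j hj v hv hw

end Pool.Agent.PP.CD2.H39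
end
end -- Pool.Agent.Helper39_D2.Prt

section -- Pool.Agent.Helper6_D1.Ebd

/-!
# Squad PP, part D1, module EBD: class functions act on `V^P / (∑ P) V` through the Brauer map
-/

open scoped BigOperators

noncomputable section

namespace Pool.Agent.PP.D1H6

open Pool.Agent.PP Pool.Agent.Helper51_AWC Pool.Agent.Helper79_WRA

section gen

variable {F : Type} [Field F] {G : Type} [Group G]

theorem cent_le (P : Subgroup G) :
    Subgroup.centralizer (P : Set G) ≤ Subgroup.normalizer (P : Set G) := by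
  intro x hx
  rw [Subgroup.mem_normalizer_iff]
  intro y
  constructor
  · intro hy
    rw [← Subgroup.mem_centralizer_iff.1 hx y hy, mul_inv_cancel_right]
    exact hy
  · intro hy
    have h1 := Subgroup.mem_centralizer_iff.1 hx _ hy
    have h2 : x * y * x⁻¹ = y := by
      have h3 : x * y = x * (x * y * x⁻¹) := by rw [← h1]; group
      exact (mul_left_cancel h3).symm
    rwa [h2] at hy

/-- the norm is contained in the fixed points -/
theorem nrm_le_fix [Finite G] {V : Type} [AddCommGroup V] [Module F V]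
    (ρ : Representation F G V) (P : Subgroup G) : nrmV ρ P ≤ fixV ρ P := by
  have := Fintype.ofFinite P
  rintro v ⟨w, rfl⟩ q hq
  rw [finsum_eq_sum_of_fintype, LinearMap.sum_apply, map_sum]
  refine Fintype.sum_equiv (Equiv.mulLeft (⟨q, hq⟩ : P)) _ _ fun p => ?_
  show ρ q (ρ p w) = ρ (q * p) w
  rw [map_mul, Module.End.mul_apply]

theorem evV_mrep [Finite G] {n : ℕ} (σ : G →* Matrix (Fin n) (Fin n) F) (a : G → F)
    (v : Fin n → F) : evV (mrep σ) a v = (ev σ a).mulVec v := by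
  have := Fintype.ofFinite G
  rw [evV, ev, finsum_eq_sum_of_fintype, finsum_eq_sum_of_fintype, LinearMap.sum_apply,
    Matrix.sum_mulVec]
  refine Finset.sum_congr rfl fun g _ => ?_
  rw [LinearMap.smul_apply, Matrix.smul_mulVec]
  rfl

theorem scalar_mulVec {m : ℕ} (c : F) (w : Fin m → F) :
    (Matrix.scalar (Fin m) c).mulVec w = c • w := by
  rw [Matrix.scalar_apply, ← Matrix.smul_one_eq_diagonal, Matrix.smul_mulVec, Matrix.one_mulVec]

end gen

/-- EBD -/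
theorem ebd (hebv : EbvStmt) : EbdStmt := by
  intro ℓ _ F _ hF G _ _ P hP A _ _ j hj hr n σ m κ π hκ hV a c ha hac
  have := Fintype.ofFinite G
  have := Fintype.ofFinite A
  have key : ∀ w : Fin m → F, (ev κ (fun t : A => br P a (j t))).mulVec w = c • w := by
    intro w
    obtain ⟨v, hv, rfl⟩ := hV.sur w
    have h1 := hebv ℓ F G P hP (Fin n → F) (mrep σ) a (fun p _ x => ha x p) v hv
    rw [evV_mrep σ a v, hac, scalar_mulVec] at h1
    -- the image of the Brauer part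
    have h2 : π (evV (mrep σ) (br P a) v) =
        (ev κ (fun t : A => br P a (j t))).mulVec (π v) := by
      rw [evV, ev, finsum_eq_sum_of_fintype, finsum_eq_sum_of_fintype, LinearMap.sum_apply,
        Matrix.sum_mulVec, map_sum]
      have h3 : ∀ t : A, (br P a (j t) • κ t).mulVec (π v) =
          π ((br P a (j t) • mrep σ (j t)) v) := by
        intro t
        rw [Matrix.smul_mulVec, ← hV.int t v hv, LinearMap.smul_apply, map_smul]
      rw [Finset.sum_congr rfl fun t _ => h3 t]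
      symm
      refine Finset.sum_of_injOn j (fun x _ y _ h => hj h) (fun _ _ => Finset.mem_coe.2
        (Finset.mem_univ _)) (fun g _ hg => ?_) (fun _ _ => rfl)
      have h4 : br P a g = 0 := by
        unfold br
        rw [if_neg]
        intro hc
        have h5 : g ∈ j.range := by
          rw [hr]
          exact cent_le P hc
        obtain ⟨t, rfl⟩ := h5
        exact hg ⟨t, Finset.mem_coe.2 (Finset.mem_univ _), rfl⟩
      rw [h4, zero_smul, LinearMap.zero_apply, map_zero]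
    have h6 : c • v - evV (mrep σ) (br P a) v ∈ fixV (mrep σ) P := nrm_le_fix _ _ h1
    have h7 := (hV.ker _ h6).2 h1
    rw [map_sub, map_smul, h2, sub_eq_zero] at h7
    exact h7.symm
  apply Matrix.mulVec_injective
  funext w
  rw [key, scalar_mulVec]

end Pool.Agent.PP.D1H6
end
end -- Pool.Agent.Helper6_D1.Ebd

section -- Pool.Agent.Helper6_D1.Ced

/-!
# Squad PP, part D1, module CED: the count for a central idempotent below `b`
-/

open scoped BigOperators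

noncomputable section

namespace Pool.Agent.PP.D1H6

open Pool.Agent.PP Pool.Agent.Helper51_AWC Pool.Agent.Helper79_WRA

section gen

variable {F : Type} [Field F] {G : Type} [Group G]

/-- a class function acts on an irreducible modular character as the identity if and only if it
acts on the representation as the identity -/
theorem act_ev [Finite G] {k : ℕ} {ρ : G →* Matrix (Fin k) (Fin k) F} (h : IsIrr ρ) {a : G → F}
    (ha : IsCl a) : actF a (tr ρ) = tr ρ ↔ ev ρ a = 1 := by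
  obtain ⟨w, h1, h2, -⟩ := H20.eig F G k ρ h a ha
  rw [CY66.act_iff H20.eig h ha h1, h1]
  have : Nonempty (Fin k) := ⟨⟨0, h.1⟩⟩
  rw [show (1 : Matrix (Fin k) (Fin k) F) = Matrix.scalar (Fin k) 1 from (map_one _).symm,
    Matrix.scalar_inj]

/-- the relation between the characters of `G` and of `N_G(P)` -/
def RelD (P : Subgroup G) (f : G → F) (θ : Subgroup.normalizer (P : Set G) → F) : Prop :=
  ∃ (n : ℕ) (σ : G →* Matrix (Fin n) (Fin n) F) (m : ℕ)
    (κ : Subgroup.normalizer (P : Set G) →* Matrix (Fin m) (Fin m) F)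
    (π : (Fin n → F) →ₗ[F] (Fin m → F)), IsIrr σ ∧ tr σ = f ∧ IsIrr κ ∧ tr κ = θ ∧
      HV (Subgroup.normalizer (P : Set G)).subtype P κ (mrep σ) π

end gen

/-- CED -/
theorem ced (hcbd : CbdStmt) (hird : IrdStmt) (hind : IndStmt) (hebd : EbdStmt) : CedStmt := by
  intro ℓ hℓ F _ hF G _ _ N P b hD e he heb
  have hcard := hcbd ℓ F hF G N P b hD
  have hPp : IsPGroup ℓ P := IsPGroup.of_card (n := 1) (by rw [hD.card, pow_one])
  have hbrm := H20.brm ℓ F hF G P (Subgroup.normalizer (P : Set G)) hPp (cent_le P) le_rfl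
  have hbe := hbrm.2.2 e he
  have hbb := hbrm.2.2 b hD.idem
  have hrange : (Subgroup.normalizer (P : Set G)).subtype.range =
      Subgroup.normalizer (P : Set G) := Subgroup.range_subtype _
  have hinj : Function.Injective (Subgroup.normalizer (P : Set G)).subtype :=
    Subgroup.subtype_injective _
  -- related characters
  have hrel : ∀ (a : G → F), IsIdem a →
      IsCl (fun t : Subgroup.normalizer (P : Set G) => br P a t) → ∀ f θ, RelD P f θ →
      (actF a f = f ↔ actF (fun t : Subgroup.normalizer (P : Set G) => br P a t) θ = θ) := by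
    rintro a ha hba f θ ⟨n, σ, m, κ, π, hσ, rfl, hκ, rfl, hV⟩
    obtain ⟨w, h1, -, -⟩ := H20.eig F G n σ hσ a ha.1
    have h2 := hebd ℓ F hF G P hD.card _ _ hinj hrange n σ m κ π hκ hV a w ha.1 h1
    rw [CY66.act_iff H20.eig hσ ha.1 h1, CY66.act_iff H20.eig hκ hba h2]
  have hA : ∀ f : G → F, f ∈ {θ : G → F | θ ∈ IBr F G ∧ actF b θ = θ} →
      ∃ θ : Subgroup.normalizer (P : Set G) → F,
        θ ∈ IBr F (Subgroup.normalizer (P : Set G)) ∧ RelD P f θ := by
    rintro f ⟨⟨n, σ, hσ, rfl⟩, h2⟩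
    obtain ⟨m, κ, π, hκ, hV⟩ := hird ℓ F hF G N P b hD _ _ hrange n σ hσ
      ((act_ev hσ hD.idem.1).1 h2)
    exact ⟨tr κ, ⟨m, κ, hκ, rfl⟩, n, σ, m, κ, π, hσ, rfl, hκ, rfl, hV⟩
  choose! Θ hΘ hΘR using hA
  have hinjΘ : Set.InjOn Θ {θ : G → F | θ ∈ IBr F G ∧ actF b θ = θ} := by
    intro f hf f' hf' h
    obtain ⟨n, σ, m, κ, π, hσ, h1, hκ, h2, hV⟩ := hΘR f hf
    obtain ⟨n', σ', m', κ', π', hσ', h1', hκ', h2', hV'⟩ := hΘR f' hf'
    have h3 := (act_ev hσ hD.idem.1).1 (by rw [h1]; exact hf.2)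
    have h3' := (act_ev hσ' hD.idem.1).1 (by rw [h1']; exact hf'.2)
    rw [← h1, ← h1']
    exact hind ℓ F hF G N P b hD _ _ hrange n n' σ σ' hσ hσ' h3 h3' m m' κ κ' π π' hκ hκ'
      (h2.trans (h.trans h2'.symm)) hV hV'
  have himg : Θ '' {θ : G → F | θ ∈ IBr F G ∧ actF b θ = θ} =
      {θ : Subgroup.normalizer (P : Set G) → F | θ ∈ IBr F (Subgroup.normalizer (P : Set G)) ∧
        actF (fun t : Subgroup.normalizer (P : Set G) => br P b t) θ = θ} := by
    refine Set.eq_of_subset_of_ncard_le ?_ ?_ ?_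
    · rintro _ ⟨f, hf, rfl⟩
      exact ⟨hΘ f hf, (hrel b hD.idem hbb.1 _ _ (hΘR f hf)).1 hf.2⟩
    · rw [hinjΘ.ncard_image, hcard]
    · exact (H20.ibf ℓ F hF _).1.subset fun θ hθ => hθ.1
  -- the characters under `e` are under `b`
  have hsub : ∀ f ∈ {θ : G → F | θ ∈ IBr F G ∧ actF e θ = θ},
      f ∈ {θ : G → F | θ ∈ IBr F G ∧ actF b θ = θ} := by
    rintro f ⟨⟨n, σ, hσ, rfl⟩, h2⟩
    refine ⟨⟨n, σ, hσ, rfl⟩, (act_ev hσ hD.idem.1).2 ?_⟩
    have h3 := (act_ev hσ he.1).1 h2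
    have h4 := H20.ev_mulF σ e b
    rw [heb, h3, one_mul] at h4
    exact h4.symm
  have hsub' : ∀ θ ∈ {θ : Subgroup.normalizer (P : Set G) → F |
      θ ∈ IBr F (Subgroup.normalizer (P : Set G)) ∧
        actF (fun t : Subgroup.normalizer (P : Set G) => br P e t) θ = θ},
      θ ∈ {θ : Subgroup.normalizer (P : Set G) → F |
      θ ∈ IBr F (Subgroup.normalizer (P : Set G)) ∧
        actF (fun t : Subgroup.normalizer (P : Set G) => br P b t) θ = θ} := by
    rintro θ ⟨⟨m, κ, hκ, rfl⟩, h2⟩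
    refine ⟨⟨m, κ, hκ, rfl⟩, (act_ev hκ hbb.1).2 ?_⟩
    have h3 := (act_ev hκ hbe.1).1 h2
    have h4 := H20.ev_mulF κ (fun t : Subgroup.normalizer (P : Set G) => br P e t)
      (fun t : Subgroup.normalizer (P : Set G) => br P b t)
    rw [← hbrm.2.1 e b, ← hbrm.1 e b he.1 hD.idem.1, heb, h3, one_mul] at h4
    exact h4.symm
  refine Set.ncard_congr (fun f _ => Θ f) (fun f hf => ?_) (fun f f' hf hf' h => ?_)
    fun θ hθ => ?_
  · exact ⟨hΘ f (hsub f hf), (hrel e he hbe.1 _ _ (hΘR f (hsub f hf))).1 hf.2⟩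
  · exact hinjΘ (hsub f hf) (hsub f' hf') h
  · have h1 := hsub' θ hθ
    rw [← himg] at h1
    obtain ⟨f, hf, rfl⟩ := h1
    exact ⟨f, ⟨hf.1, (hrel e he hbe.1 _ _ (hΘR f hf)).2 hθ.2⟩, rfl⟩

end Pool.Agent.PP.D1H6
end
end -- Pool.Agent.Helper6_D1.Ced

section -- Pool.Agent.Helper65_D2.Ced

/-!
# Squad PP, part D2, module CED: the count for a central idempotent below `b`
-/

open scoped BigOperators

noncomputable section

namespace Pool.Agent.PP.CD2.H65

open Pool.Agent.PP Pool.Agent.Helper51_AWC Pool.Agent.Helper79_WRA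

section gen

variable {F : Type} [Field F] {G : Type} [Group G]

/-- the relation between the characters of `G` and of `N_G(P₁)` -/
def RelW (y₁ : G) (b₁ w : G → F) (r : ℕ) (f : G → F) (θ : NY y₁ → F) : Prop :=
  ∃ (k : ℕ) (σ : G →* Matrix (Fin k) (Fin k) F) (m : ℕ)
    (κ : NY y₁ →* Matrix (Fin m) (Fin m) F)
    (π : (Fin k → F) →ₗ[F] (Fin m → F)), IsIrr σ ∧ tr σ = f ∧ IsIrr κ ∧ tr κ = θ ∧
      HW (NY y₁).subtype κ (mrep σ) π (fixW (mrep σ) b₁ w) (rngW (mrep σ) w r)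

end gen

/-- CED -/
theorem ced (hcbd : CbdStmt) (hird : IrdStmt) (hind : IndStmt) (hebd : EbdStmt) : CedStmt := by
  intro ℓ hℓ F _ hF G _ _ n N P y₁ b w hD e he heb
  have hcard := hcbd ℓ F hF G n N P y₁ b w hD
  have hPp : IsPGroup ℓ (Subgroup.zpowers y₁) :=
    IsPGroup.of_card (n := 1) (by rw [Nat.card_zpowers, hD.ord, pow_one])
  have hbrm := H20.brm ℓ F hF G (Subgroup.zpowers y₁) (NY y₁) hPp (D1H6.cent_le _) le_rfl
  have hbe : IsIdem (fun t : NY y₁ => bY y₁ e t) := hbrm.2.2 e he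
  have hbb : IsIdem (fun t : NY y₁ => bY y₁ b t) := hbrm.2.2 b hD.idem
  have hrange : (NY y₁).subtype.range = NY y₁ := Subgroup.range_subtype _
  have hinj : Function.Injective (NY y₁).subtype := Subgroup.subtype_injective _
  -- related characters
  have hrel : ∀ (a : G → F), IsIdem a → IsCl (fun t : NY y₁ => bY y₁ a t) →
      ∀ f θ, RelW y₁ (bY y₁ b) w (ℓ ^ (n + 1) - 1) f θ →
      (actF a f = f ↔ actF (fun t : NY y₁ => bY y₁ a t) θ = θ) := by
    rintro a ha hba f θ ⟨k, σ, m, κ, π, hσ, rfl, hκ, rfl, hV⟩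
    obtain ⟨c, h1, -, -⟩ := H20.eig F G k σ hσ a ha.1
    have h2 := hebd ℓ F hF G n N P y₁ b w hD _ _ hinj hrange k σ m κ π hκ hV a c ha.1 h1
    have h2' : ev κ (fun t : NY y₁ => bY y₁ a t) = Matrix.scalar (Fin m) c := h2
    rw [CY66.act_iff H20.eig hσ ha.1 h1, CY66.act_iff H20.eig hκ hba h2']
  have hA : ∀ f : G → F, f ∈ {θ : G → F | θ ∈ IBr F G ∧ actF b θ = θ} →
      ∃ θ : NY y₁ → F, θ ∈ IBr F (NY y₁) ∧ RelW y₁ (bY y₁ b) w (ℓ ^ (n + 1) - 1) f θ := by
    rintro f ⟨⟨k, σ, hσ, rfl⟩, h2⟩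
    obtain ⟨m, κ, π, hκ, hV⟩ := hird ℓ F hF G n N P y₁ b w hD _ _ hrange k σ hσ
      ((D1H6.act_ev hσ hD.idem.1).1 h2)
    exact ⟨tr κ, ⟨m, κ, hκ, rfl⟩, k, σ, m, κ, π, hσ, rfl, hκ, rfl, hV⟩
  choose! Θ hΘ hΘR using hA
  have hinjΘ : Set.InjOn Θ {θ : G → F | θ ∈ IBr F G ∧ actF b θ = θ} := by
    intro f hf f' hf' h
    obtain ⟨k, σ, m, κ, π, hσ, h1, hκ, h2, hV⟩ := hΘR f hf
    obtain ⟨k', σ', m', κ', π', hσ', h1', hκ', h2', hV'⟩ := hΘR f' hf'
    have h3 := (D1H6.act_ev hσ hD.idem.1).1 (by rw [h1]; exact hf.2)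
    have h3' := (D1H6.act_ev hσ' hD.idem.1).1 (by rw [h1']; exact hf'.2)
    rw [← h1, ← h1']
    exact hind ℓ F hF G n N P y₁ b w hD _ _ hrange k k' σ σ' hσ hσ' h3 h3' m m' κ κ' π π' hκ hκ'
      (h2.trans (h.trans h2'.symm)) hV hV'
  have himg : Θ '' {θ : G → F | θ ∈ IBr F G ∧ actF b θ = θ} =
      {θ : NY y₁ → F | θ ∈ IBr F (NY y₁) ∧
        actF (fun t : NY y₁ => bY y₁ b t) θ = θ} := by
    refine Set.eq_of_subset_of_ncard_le ?_ ?_ ?_
    · rintro _ ⟨f, hf, rfl⟩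
      exact ⟨hΘ f hf, (hrel b hD.idem hbb.1 _ _ (hΘR f hf)).1 hf.2⟩
    · rw [hinjΘ.ncard_image, hcard]
    · exact (H20.ibf ℓ F hF _).1.subset fun θ hθ => hθ.1
  -- the characters under `e` are under `b`
  have hsub : ∀ f ∈ {θ : G → F | θ ∈ IBr F G ∧ actF e θ = θ},
      f ∈ {θ : G → F | θ ∈ IBr F G ∧ actF b θ = θ} := by
    rintro f ⟨⟨k, σ, hσ, rfl⟩, h2⟩
    refine ⟨⟨k, σ, hσ, rfl⟩, (D1H6.act_ev hσ hD.idem.1).2 ?_⟩
    have h3 := (D1H6.act_ev hσ he.1).1 h2
    have h4 := H20.ev_mulF σ e b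
    rw [heb, h3, one_mul] at h4
    exact h4.symm
  have hsub' : ∀ θ ∈ {θ : NY y₁ → F | θ ∈ IBr F (NY y₁) ∧
        actF (fun t : NY y₁ => bY y₁ e t) θ = θ},
      θ ∈ {θ : NY y₁ → F | θ ∈ IBr F (NY y₁) ∧
        actF (fun t : NY y₁ => bY y₁ b t) θ = θ} := by
    rintro θ ⟨⟨m, κ, hκ, rfl⟩, h2⟩
    refine ⟨⟨m, κ, hκ, rfl⟩, (D1H6.act_ev hκ hbb.1).2 ?_⟩
    have h3 := (D1H6.act_ev hκ hbe.1).1 h2
    have h4 := H20.ev_mulF κ (fun t : NY y₁ => br (Subgroup.zpowers y₁) e t)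
      (fun t : NY y₁ => br (Subgroup.zpowers y₁) b t)
    rw [← hbrm.2.1 e b, ← hbrm.1 e b he.1 hD.idem.1, heb] at h4
    have h5 : ev κ (fun t : NY y₁ => br (Subgroup.zpowers y₁) e t) = 1 := h3
    rw [h5, one_mul] at h4
    exact h4.symm
  refine Set.ncard_congr (fun f _ => Θ f) (fun f hf => ?_) (fun f f' hf hf' h => ?_)
    fun θ hθ => ?_
  · exact ⟨hΘ f (hsub f hf), (hrel e he hbe.1 _ _ (hΘR f (hsub f hf))).1 hf.2⟩
  · exact hinjΘ (hsub f hf) (hsub f' hf') h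
  · have h1 := hsub' θ hθ
    rw [← himg] at h1
    obtain ⟨f, hf, rfl⟩ := h1
    exact ⟨f, ⟨hf.1, (hrel e he hbe.1 _ _ (hΘR f hf)).2 hθ.2⟩, rfl⟩

end Pool.Agent.PP.CD2.H65
end
end -- Pool.Agent.Helper65_D2.Ced

section -- Pool.Agent.Helper51_D1.Cbd

/-!
# Squad PP, part D1, module CBD: the count over `b`
-/

open scoped BigOperators

set_option linter.unusedSectionVars false

noncomputable section

namespace Pool.Agent.PP.D1H51

open Pool.Agent.Helper51_AWC Pool.Agent.Helper79_WRA Pool.Agent.PP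

theorem tr_ne {F H : Type} [Field F] [Group H] {n : ℕ} {ρ : H →* Matrix (Fin n) (Fin n) F}
    (hρ : IsIrr ρ) : ∃ g, tr ρ g ≠ 0 := by
  by_contra hcon
  push Not at hcon
  have h1 : Submodule.span F (Set.range ρ) ≤ LinearMap.ker (Matrix.traceLinearMap (Fin n) F F) := by
    rw [Submodule.span_le]
    rintro _ ⟨g, rfl⟩
    exact hcon g
  rw [hρ.2] at h1
  let i : Fin n := ⟨0, hρ.1⟩
  have h2 : (Matrix.single i i (1 : F)).trace = 0 :=
    h1 (Submodule.mem_top (x := Matrix.single i i (1 : F)))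
  rw [Matrix.trace_single_eq_same] at h2
  exact one_ne_zero h2

theorem act_one_iff (heig : EigStmt) {F H : Type} [Field F] [Group H] [Finite H] {n : ℕ}
    {ρ : H →* Matrix (Fin n) (Fin n) F} (hρ : IsIrr ρ) {a : H → F} (ha : IsCl a) :
    actF a (tr ρ) = tr ρ ↔ ev ρ a = 1 := by
  obtain ⟨w, h1, h2, -⟩ := heig F H n ρ hρ a ha
  constructor
  · intro h
    obtain ⟨g, hg⟩ := tr_ne hρ
    have h3 : w * tr ρ g = 1 * tr ρ g := by
      rw [one_mul]
      have h4 := congrFun (h2.symm.trans h) g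
      exact h4
    rw [h1, mul_right_cancel₀ hg h3, map_one]
  · intro h
    have hn : NeZero n := ⟨hρ.1.ne'⟩
    have h3 : Matrix.scalar (Fin n) w = Matrix.scalar (Fin n) (1 : F) := by
      rw [← h1, h, map_one]
    rw [h2, Matrix.scalar_inj.1 h3, one_smul]

section

variable {ℓ : ℕ} {F : Type} [Field F] {G : Type} [Group G] {N P : Subgroup G} {b : G → F}

theorem jN_injective (N L : Subgroup G) : Function.Injective (jN N L) := by
  intro a c h
  apply Subtype.ext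
  apply Subtype.ext
  exact congrArg (fun t : N => (t : G)) h

/-- the Brauer map in `N` -/
theorem br_jN (hPN : P ≤ N) (b : G → F) (L : Subgroup G) (t : N.subgroupOf L) :
    br (P.subgroupOf N) (fun s : N => b s) (jN N L t) = br P b ((t : L) : G) := by
  unfold br
  by_cases h : ((t : L) : G) ∈ Subgroup.centralizer (P : Set G)
  · have h' : jN N L t ∈ Subgroup.centralizer ((P.subgroupOf N : Subgroup N) : Set N) := by
      rw [Subgroup.mem_centralizer_iff] at h ⊢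
      intro p hp
      exact Subtype.ext (h p hp)
    rw [if_pos h, if_pos h']
    rfl
  · have h' : jN N L t ∉ Subgroup.centralizer ((P.subgroupOf N : Subgroup N) : Set N) := by
      intro h2
      apply h
      rw [Subgroup.mem_centralizer_iff] at h2 ⊢
      intro p hp
      exact congrArg (fun s : N => (s : G)) (h2 ⟨p, hPN hp⟩ hp)
    rw [if_neg h, if_neg h']

theorem br_cl (P : Subgroup G) {b : G → F} (hb : IsCl b) :
    IsCl (fun t : Subgroup.normalizer (P : Set G) => br P b t) := by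
  intro x y
  have hiff : ((y * x * y⁻¹ : Subgroup.normalizer (P : Set G)) : G) ∈
      Subgroup.centralizer (P : Set G) ↔ (x : G) ∈ Subgroup.centralizer (P : Set G) := by
    have h1 := Subgroup.mem_normalizer_iff.1 y.2
    have h2 := Subgroup.mem_normalizer_iff.1 (inv_mem y.2)
    rw [Subgroup.mem_centralizer_iff, Subgroup.mem_centralizer_iff]
    push_cast
    constructor
    · intro h p hp
      have h3 := h _ ((h1 p).1 hp)
      calc p * (x : G) = (y : G)⁻¹ * (((y : G) * p * (y : G)⁻¹) * ((y : G) * x * (y : G)⁻¹)) *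
            y := by group
        _ = (y : G)⁻¹ * (((y : G) * x * (y : G)⁻¹) * ((y : G) * p * (y : G)⁻¹)) * y := by rw [h3]
        _ = x * p := by group
    · intro h p hp
      have h3 := h _ ((h2 p).1 hp)
      rw [inv_inv] at h3
      calc p * ((y : G) * x * (y : G)⁻¹) = (y : G) * (((y : G)⁻¹ * p * y) * x) * (y : G)⁻¹ := by
            group
        _ = (y : G) * (x * ((y : G)⁻¹ * p * y)) * (y : G)⁻¹ := by rw [h3]
        _ = (y : G) * x * (y : G)⁻¹ * p := by group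
  show br P b ((y * x * y⁻¹ : Subgroup.normalizer (P : Set G)) : G) = br P b (x : G)
  unfold br
  by_cases h : (x : G) ∈ Subgroup.centralizer (P : Set G)
  · rw [if_pos h, if_pos (hiff.2 h)]
    exact hb x y
  · rw [if_neg h, if_neg (fun h' => h (hiff.1 h'))]

variable [Fact ℓ.Prime] [Finite G]

theorem restr_cl (hb : IsCl b) : IsCl (fun t : N => b t) := fun x y => hb x y

theorem restr_cl' {H : Type} [Group H] {a : H → F} (ha : IsCl a) (K : Subgroup H) :
    IsCl (fun t : K => a t) := fun x y => ha x y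

/-- corresponding characters lie over `b` and over `br_P b` simultaneously -/
theorem cor_act (hebd : EbdStmt) (hrsd : RsdStmt) (heig : EigStmt) (hF : GoodF ℓ F)
    (hS : D1S ℓ N P b) {φ : N → F} {θ : N.subgroupOf (Subgroup.normalizer (P : Set G)) → F}
    (hc : CorD N P φ θ) :
    actF (fun t : N => b t) φ = φ ↔
      actF (fun t : N.subgroupOf (Subgroup.normalizer (P : Set G)) =>
        br P b ((t : Subgroup.normalizer (P : Set G)) : G)) θ = θ := by
  obtain ⟨hSN, hrange⟩ := hrsd ℓ F G N P b hS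
  obtain ⟨n, σ, m, κ, π, hσ, rfl, hκ, rfl, hHV⟩ := hc
  have hcl : IsCl (fun t : N => b t) := restr_cl hS.idem.1
  obtain ⟨c, h1, -, -⟩ := heig F N n σ hσ _ hcl
  have h2 := hebd ℓ F hF N (P.subgroupOf N) hSN.card
    (N.subgroupOf (Subgroup.normalizer (P : Set G))) (jN N (Subgroup.normalizer (P : Set G)))
    (jN_injective _ _) hrange n σ m κ π hκ hHV (fun t : N => b t) c hcl h1
  have h3 : (fun t : N.subgroupOf (Subgroup.normalizer (P : Set G)) =>
      br (P.subgroupOf N) (fun s : N => b s) (jN N (Subgroup.normalizer (P : Set G)) t)) =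
      fun t : N.subgroupOf (Subgroup.normalizer (P : Set G)) =>
        br P b ((t : Subgroup.normalizer (P : Set G)) : G) :=
    funext fun t => br_jN hS.le b _ t
  rw [h3] at h2
  have hcl' : IsCl (fun t : N.subgroupOf (Subgroup.normalizer (P : Set G)) =>
      br P b ((t : Subgroup.normalizer (P : Set G)) : G)) :=
    restr_cl' (br_cl P hS.idem.1) _
  rw [act_one_iff heig hσ hcl, act_one_iff heig hκ hcl', h1, h2]
  have hn : NeZero n := ⟨hσ.1.ne'⟩
  have hm : NeZero m := ⟨hκ.1.ne'⟩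
  constructor
  · intro h
    have h4 : Matrix.scalar (Fin n) c = Matrix.scalar (Fin n) (1 : F) := by rw [h, map_one]
    rw [Matrix.scalar_inj.1 h4, map_one]
  · intro h
    have h4 : Matrix.scalar (Fin m) c = Matrix.scalar (Fin m) (1 : F) := by rw [h, map_one]
    rw [Matrix.scalar_inj.1 h4, map_one]

/-- a character over `b` has a partner -/
theorem cor_ex (hird : IrdStmt) (hrsd : RsdStmt) (heig : EigStmt) (hF : GoodF ℓ F)
    (hS : D1S ℓ N P b) {φ : N → F} (hφ : φ ∈ IBr F N) (ha : actF (fun t : N => b t) φ = φ) :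
    ∃ θ, CorD N P φ θ := by
  obtain ⟨hSN, hrange⟩ := hrsd ℓ F G N P b hS
  obtain ⟨n, σ, hσ, rfl⟩ := hφ
  have h1 := (act_one_iff heig hσ (restr_cl hS.idem.1)).1 ha
  obtain ⟨m, κ, π, hκ, hHV⟩ := hird ℓ F hF N ⊤ (P.subgroupOf N) (fun t : N => b t) hSN
    (N.subgroupOf (Subgroup.normalizer (P : Set G))) (jN N (Subgroup.normalizer (P : Set G)))
    hrange n σ hσ h1
  exact ⟨tr κ, n, σ, m, κ, π, hσ, rfl, hκ, rfl, hHV⟩

theorem cor_ex' (hsud : SudStmt) (hrsd : RsdStmt) (heig : EigStmt) (hF : GoodF ℓ F)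
    (hS : D1S ℓ N P b) {θ : N.subgroupOf (Subgroup.normalizer (P : Set G)) → F}
    (hθ : θ ∈ IBr F (N.subgroupOf (Subgroup.normalizer (P : Set G))))
    (ha : actF (fun t : N.subgroupOf (Subgroup.normalizer (P : Set G)) =>
        br P b ((t : Subgroup.normalizer (P : Set G)) : G)) θ = θ) :
    ∃ φ, CorD N P φ θ := by
  obtain ⟨hSN, hrange⟩ := hrsd ℓ F G N P b hS
  obtain ⟨m, κ, hκ, rfl⟩ := hθ
  have hcl' : IsCl (fun t : N.subgroupOf (Subgroup.normalizer (P : Set G)) =>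
      br P b ((t : Subgroup.normalizer (P : Set G)) : G)) :=
    restr_cl' (br_cl P hS.idem.1) _
  have h1 := (act_one_iff heig hκ hcl').1 ha
  have h3 : (fun t : N.subgroupOf (Subgroup.normalizer (P : Set G)) =>
      br (P.subgroupOf N) (fun s : N => b s) (jN N (Subgroup.normalizer (P : Set G)) t)) =
      fun t : N.subgroupOf (Subgroup.normalizer (P : Set G)) =>
        br P b ((t : Subgroup.normalizer (P : Set G)) : G) :=
    funext fun t => br_jN hS.le b _ t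
  obtain ⟨n, σ, π, hσ, -, hHV⟩ := hsud ℓ F hF N (P.subgroupOf N) (fun t : N => b t) hSN
    (N.subgroupOf (Subgroup.normalizer (P : Set G))) (jN N (Subgroup.normalizer (P : Set G)))
    (jN_injective _ _) hrange m κ hκ (by rw [h3]; exact h1)
  exact ⟨tr σ, n, σ, m, κ, π, hσ, rfl, hκ, rfl, hHV⟩

theorem cor_right (hund : UndStmt) (hrsd : RsdStmt) (hF : GoodF ℓ F)
    (hS : D1S ℓ N P b) {φ : N → F} {θ θ' : N.subgroupOf (Subgroup.normalizer (P : Set G)) → F}
    (h : CorD N P φ θ) (h' : CorD N P φ θ') : θ = θ' := by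
  obtain ⟨hSN, hrange⟩ := hrsd ℓ F G N P b hS
  obtain ⟨n, σ, m, κ, π, hσ, hφ, hκ, rfl, hHV⟩ := h
  obtain ⟨n', σ', m', κ', π', hσ', hφ', hκ', rfl, hHV'⟩ := h'
  exact hund ℓ F hF N (P.subgroupOf N) (N.subgroupOf (Subgroup.normalizer (P : Set G)))
    (jN N (Subgroup.normalizer (P : Set G))) hrange n n' σ σ' hσ hσ' (hφ.trans hφ'.symm)
    m m' κ κ' π π' hκ hκ' hHV hHV'

theorem cor_left (hind : IndStmt) (hrsd : RsdStmt) (heig : EigStmt) (hF : GoodF ℓ F)
    (hS : D1S ℓ N P b) {φ φ' : N → F} {θ : N.subgroupOf (Subgroup.normalizer (P : Set G)) → F}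
    (ha : actF (fun t : N => b t) φ = φ) (ha' : actF (fun t : N => b t) φ' = φ')
    (h : CorD N P φ θ) (h' : CorD N P φ' θ) : φ = φ' := by
  obtain ⟨hSN, hrange⟩ := hrsd ℓ F G N P b hS
  obtain ⟨n, σ, m, κ, π, hσ, rfl, hκ, hθ, hHV⟩ := h
  obtain ⟨n', σ', m', κ', π', hσ', rfl, hκ', hθ', hHV'⟩ := h'
  have hcl : IsCl (fun t : N => b t) := restr_cl hS.idem.1
  exact hind ℓ F hF N ⊤ (P.subgroupOf N) (fun t : N => b t) hSN
    (N.subgroupOf (Subgroup.normalizer (P : Set G)))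
    (jN N (Subgroup.normalizer (P : Set G))) hrange n n' σ σ' hσ hσ'
    ((act_one_iff heig hσ hcl).1 ha) ((act_one_iff heig hσ' hcl).1 ha')
    m m' κ κ' π π' hκ hκ' (hθ.trans hθ'.symm) hHV hHV'

/-- corresponding characters lie in the sets of the counting lemma simultaneously -/
theorem mem_iff [N.Normal] (hind : IndStmt) (hund : UndStmt) (hebd : EbdStmt) (hrsd : RsdStmt)
    (hc3d : C3dStmt) (heig : EigStmt) (hF : GoodF ℓ F) (hS : D1S ℓ N P b) {φ : N → F}
    {θ : N.subgroupOf (Subgroup.normalizer (P : Set G)) → F} (hc : CorD N P φ θ)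
    (x y : Subgroup.normalizer (P : Set G)) :
    φ ∈ phiSet N b (x : G) (y : G) ↔
      θ ∈ phiSet (N.subgroupOf (Subgroup.normalizer (P : Set G)))
        (fun t : Subgroup.normalizer (P : Set G) => br P b t) x y := by
  have hact := cor_act hebd hrsd heig hF hS hc
  have hx : ∀ x : Subgroup.normalizer (P : Set G),
      actF (fun t : N => b t) φ = φ → ((∀ l, φ (MulAut.conjNormal (x : G) l) = φ l) ↔
        ∀ l, θ (MulAut.conjNormal x l) = θ l) := by
    intro x ha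
    have h6 := hc3d F G N P hS.le φ θ hc x
    constructor
    · intro h l
      have h7 : (fun l => φ (MulAut.conjNormal (x : G) l)) = φ := funext h
      rw [h7] at h6
      exact congrFun (cor_right hund hrsd hF hS h6 hc) l
    · intro h l
      have h7 : (fun l => θ (MulAut.conjNormal x l)) = θ := funext h
      rw [h7] at h6
      have h8 := (cor_act hebd hrsd heig hF hS h6).2 (hact.1 ha)
      exact congrFun (cor_left hind hrsd heig hF hS h8 ha h6 hc) l
  have hmem : φ ∈ IBr F N ∧ θ ∈ IBr F (N.subgroupOf (Subgroup.normalizer (P : Set G))) := by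
    obtain ⟨n, σ, m, κ, π, hσ, hφ, hκ, hθ, -⟩ := hc
    exact ⟨⟨n, σ, hσ, hφ.symm⟩, m, κ, hκ, hθ.symm⟩
  unfold phiSet
  constructor
  · rintro ⟨-, a2, a3, a4⟩
    exact ⟨hmem.2, hact.1 a2, (hx x a2).1 a3, (hx y a2).1 a4⟩
  · rintro ⟨-, a2, a3, a4⟩
    have a2' := hact.2 a2
    exact ⟨hmem.1, a2', (hx x a2').2 a3, (hx y a2').2 a4⟩

end

/-- CBD: the numbers of irreducible modular characters over `b` and over `br_P b` agree -/
theorem cbd (hcmq : CmqStmt) (hird : IrdStmt) (hind : IndStmt) (hund : UndStmt) (hebd : EbdStmt)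
    (hsud : SudStmt) (hrsd : RsdStmt) (hc3d : C3dStmt) (hc4d : C4dStmt) (heig : EigStmt) :
    CbdStmt := by
  intro ℓ _ F _ hF G _ _ N P b hS
  have hNn := hS.normal
  refine hcmq ℓ F hF G N (Subgroup.normalizer (P : Set G)) hS.frat b
    (fun t : Subgroup.normalizer (P : Set G) => br P b t) hS.idem.1 hS.supp
    (br_cl P hS.idem.1) ?_ ?_
  · intro x hx
    have h1 : b x = 0 := hS.supp x hx
    show br P b x = 0
    unfold br
    split_ifs
    · exact h1
    · rfl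
  intro τ hτ x y hk
  unfold csum
  classical
  let g : (N → F) → (N.subgroupOf (Subgroup.normalizer (P : Set G)) → F) := fun φ =>
    if h : ∃ θ, CorD N P φ θ then h.choose else 0
  have hg : ∀ φ ∈ phiSet N b (x : G) (y : G), CorD N P φ (g φ) := by
    intro φ hφ
    have hex : ∃ θ, CorD N P φ θ := cor_ex hird hrsd heig hF hS hφ.1 hφ.2.1
    have h1 : g φ = hex.choose := dif_pos hex
    rw [h1]
    exact hex.choose_spec
  refine finsum_mem_eq_of_bijOn g ⟨?_, ?_, ?_⟩ ?_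
  · intro φ hφ
    exact (mem_iff hind hund hebd hrsd hc3d heig hF hS (hg φ hφ) x y).1 hφ
  · intro φ hφ φ' hφ' heq
    have h1 := hg φ hφ
    rw [heq] at h1
    exact cor_left hind hrsd heig hF hS hφ.2.1 hφ'.2.1 h1 (hg φ' hφ')
  · intro θ hθ
    obtain ⟨φ, hc⟩ := cor_ex' hsud hrsd heig hF hS hθ.1 hθ.2.1
    have hφ := (mem_iff hind hund hebd hrsd hc3d heig hF hS hc x y).2 hθ
    exact ⟨φ, hφ, cor_right hund hrsd hF hS (hg φ hφ) hc⟩
  · intro φ hφ
    have hc := hg φ hφ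
    have hθ := (mem_iff hind hund hebd hrsd hc3d heig hF hS hc x y).1 hφ
    rw [hc4d ℓ F hF G N P hS.le φ (g φ) hc x y hk hφ.2.2.1 hφ.2.2.2 hθ.2.2.1 hθ.2.2.2]

end Pool.Agent.PP.D1H51
end
end -- Pool.Agent.Helper51_D1.Cbd

section -- Pool.Agent.Helper6_D2.Ebd

/-!
# Squad PP, part D2, module EBD: class functions act on `fix / nrm` through the Brauer map
-/

open scoped BigOperators

noncomputable section

namespace Pool.Agent.PP.CD2.H6

open Pool.Agent.PP Pool.Agent.Helper51_AWC Pool.Agent.Helper79_WRA Pool.Agent.PP.CD2.H66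

/-- EBD -/
theorem ebd (hebq : EbqStmt) (hprt : PrtStmt) (hstw : StwStmt) : EbdStmt := by
  intro ℓ hℓ F _ hF G _ _ n N P y₁ b w hD A _ _ j hj hr k σ m κ π hκ hV a c ha hac
  have := Fintype.ofFinite G
  have := Fintype.ofFinite A
  obtain ⟨ψ, hψ⟩ := hebq ℓ F G n P y₁ hD.cyc hD.card hD.mem hD.ord (Fin k → F) (mrep σ) a
    (fun p _ x => ha x p)
  have hcm' : CmF (NY y₁) (bY y₁ a) := by
    have := bY_cm (y := y₁) (cmF_of_cl ha (⊤ : Subgroup G))
    rwa [top_inf_eq] at this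
  have hH : HomOn (N ⊓ NY y₁) (mrep σ) (mrep σ)
      (evV (mrep σ) a - evV (mrep σ) (bY y₁ a)) := by
    intro x hx v
    rw [LinearMap.sub_apply, LinearMap.sub_apply, map_sub,
      evV_cm (mrep σ) (cmF_of_cl ha (NY y₁)) hx.2 v, evV_cm (mrep σ) hcm' hx.2 v]
  obtain ⟨-, -, -, -, -, -, -, hnf, -, -, -⟩ := hstw ℓ F hF G n N P y₁ b w hD (Fin k → F) (mrep σ)
  have key : ∀ w' : Fin m → F, (ev κ (fun t : A => bY y₁ a (j t))).mulVec w' = c • w' := by
    intro w'
    obtain ⟨v, hv, rfl⟩ := hV.sur w'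
    have h1 := hprt ℓ F hF G n N P y₁ b w hD _ _ (mrep σ) (mrep σ) _ hH ⟨ψ, hψ⟩ 1
      (Nat.one_le_pow _ _ hℓ.out.pos) v hv.1 (by rw [pow_one]; exact hv.2)
    rw [LinearMap.sub_apply, D1H6.evV_mrep σ a v, hac, D1H6.scalar_mulVec] at h1
    -- the image of the Brauer part
    have h2 : π (evV (mrep σ) (bY y₁ a) v) =
        (ev κ (fun t : A => bY y₁ a (j t))).mulVec (π v) := by
      rw [evV, ev, finsum_eq_sum_of_fintype, finsum_eq_sum_of_fintype, LinearMap.sum_apply,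
        Matrix.sum_mulVec, map_sum]
      have h3 : ∀ t : A, (bY y₁ a (j t) • κ t).mulVec (π v) =
          π ((bY y₁ a (j t) • mrep σ (j t)) v) := by
        intro t
        rw [Matrix.smul_mulVec, ← hV.int t v hv, LinearMap.smul_apply, map_smul]
      rw [Finset.sum_congr rfl fun t _ => h3 t]
      symm
      refine Finset.sum_of_injOn j (fun x _ y _ h => hj h) (fun _ _ => Finset.mem_coe.2
        (Finset.mem_univ _)) (fun g _ hg => ?_) (fun _ _ => rfl)
      have h4 : bY y₁ a g = 0 := by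
        unfold bY br
        rw [if_neg]
        intro hc
        have h5 : g ∈ j.range := by
          rw [hr]
          exact CY_le_NY y₁ hc
        obtain ⟨t, rfl⟩ := h5
        exact hg ⟨t, Finset.mem_coe.2 (Finset.mem_univ _), rfl⟩
      rw [h4, zero_smul, LinearMap.zero_apply, map_zero]
    have h6 : c • v - evV (mrep σ) (bY y₁ a) v ∈ fixW (mrep σ) (bY y₁ b) w := hnf h1
    have h7 := (hV.ker _ h6).2 h1
    rw [map_sub, map_smul, h2, sub_eq_zero] at h7
    exact h7.symm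
  apply Matrix.mulVec_injective
  funext w'
  rw [key, D1H6.scalar_mulVec]

end Pool.Agent.PP.CD2.H6
end
end -- Pool.Agent.Helper6_D2.Ebd

section -- Pool.Agent.Helper91_D2.Cbd

/-!
# Squad PP, part D2, module CBD: the count over `b`
-/

open scoped BigOperators

set_option linter.unusedSectionVars false

noncomputable section

namespace Pool.Agent.PP.CD2.H91

open Pool.Agent.Helper51_AWC Pool.Agent.Helper79_WRA Pool.Agent.PP Pool.Agent.PP.CD2

section

variable {ℓ n : ℕ} {F : Type} [Field F] {G : Type} [Group G] {N P : Subgroup G} {y₁ : G}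
  {b w : G → F}

theorem bY_cl (y₁ : G) {b : G → F} (hb : IsCl b) : IsCl (fun t : NY y₁ => bY y₁ b t) :=
  D1H51.br_cl (Subgroup.zpowers y₁) hb

variable [Fact ℓ.Prime] [Finite G]

/-- corresponding characters lie over `b` and over `br_P b` simultaneously -/
theorem cor_act (hebd : EbdStmt) (hrsd : RsdStmt) (heig : EigStmt) (hF : GoodF ℓ F)
    (hS : D2S ℓ n N P y₁ b w) {φ : N → F} {θ : N.subgroupOf (NY y₁) → F}
    (hc : CorW N y₁ (bY y₁ b) w (ℓ ^ (n + 1) - 1) φ θ) :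
    actF (fun t : N => b t) φ = φ ↔
      actF (fun t : N.subgroupOf (NY y₁) => bY y₁ b ((t : NY y₁) : G)) θ = θ := by
  obtain ⟨hSN, hrange, hbY⟩ := hrsd ℓ F G n N P ⟨y₁, hS.le hS.mem⟩ b w hS
  obtain ⟨k, σ, m, κ, π, hσ, rfl, hκ, rfl, hHW⟩ := hc
  have hcl : IsCl (fun t : N => b t) := D1H51.restr_cl hS.idem.1
  obtain ⟨c, h1, -, -⟩ := heig F N k σ hσ _ hcl
  have hHW' : HW (jN N (NY y₁)) κ (mrep σ) π
      (fixW (mrep σ) (bY (⟨y₁, hS.le hS.mem⟩ : N) (fun t : N => b t)) (fun t : N => w t))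
      (rngW (mrep σ) (fun t : N => w t) (ℓ ^ (n + 1) - 1)) := by
    rw [hbY]
    exact hHW
  have h2 := hebd ℓ F hF N n ⊤ (P.subgroupOf N) ⟨y₁, hS.le hS.mem⟩ (fun t : N => b t)
    (fun t : N => w t) hSN (N.subgroupOf (NY y₁)) (jN N (NY y₁)) (D1H51.jN_injective _ _) hrange
    k σ m κ π hκ hHW' (fun t : N => b t) c hcl h1
  rw [hbY] at h2
  have hcl' : IsCl (fun t : N.subgroupOf (NY y₁) => bY y₁ b ((t : NY y₁) : G)) :=
    D1H51.restr_cl' (bY_cl y₁ hS.idem.1) _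
  have h2' : ev κ (fun t : N.subgroupOf (NY y₁) => bY y₁ b ((t : NY y₁) : G)) =
      Matrix.scalar (Fin m) c := h2
  rw [D1H51.act_one_iff heig hσ hcl, D1H51.act_one_iff heig hκ hcl', h1, h2']
  have hn : NeZero k := ⟨hσ.1.ne'⟩
  have hm : NeZero m := ⟨hκ.1.ne'⟩
  constructor
  · intro h
    have h4 : Matrix.scalar (Fin k) c = Matrix.scalar (Fin k) (1 : F) := by rw [h, map_one]
    rw [Matrix.scalar_inj.1 h4, map_one]
  · intro h
    have h4 : Matrix.scalar (Fin m) c = Matrix.scalar (Fin m) (1 : F) := by rw [h, map_one]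
    rw [Matrix.scalar_inj.1 h4, map_one]

/-- a character over `b` has a partner -/
theorem cor_ex (hird : IrdStmt) (hrsd : RsdStmt) (heig : EigStmt) (hF : GoodF ℓ F)
    (hS : D2S ℓ n N P y₁ b w) {φ : N → F} (hφ : φ ∈ IBr F N)
    (ha : actF (fun t : N => b t) φ = φ) :
    ∃ θ, CorW N y₁ (bY y₁ b) w (ℓ ^ (n + 1) - 1) φ θ := by
  obtain ⟨hSN, hrange, hbY⟩ := hrsd ℓ F G n N P ⟨y₁, hS.le hS.mem⟩ b w hS
  obtain ⟨k, σ, hσ, rfl⟩ := hφ
  have h1 := (D1H51.act_one_iff heig hσ (D1H51.restr_cl hS.idem.1)).1 ha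
  obtain ⟨m, κ, π, hκ, hHW⟩ := hird ℓ F hF N n ⊤ (P.subgroupOf N) ⟨y₁, hS.le hS.mem⟩
    (fun t : N => b t) (fun t : N => w t) hSN (N.subgroupOf (NY y₁)) (jN N (NY y₁))
    hrange k σ hσ h1
  rw [hbY] at hHW
  exact ⟨tr κ, k, σ, m, κ, π, hσ, rfl, hκ, rfl, hHW⟩

theorem cor_ex' (hsud : SudStmt) (hrsd : RsdStmt) (heig : EigStmt) (hF : GoodF ℓ F)
    (hS : D2S ℓ n N P y₁ b w) {θ : N.subgroupOf (NY y₁) → F}
    (hθ : θ ∈ IBr F (N.subgroupOf (NY y₁)))
    (ha : actF (fun t : N.subgroupOf (NY y₁) => bY y₁ b ((t : NY y₁) : G)) θ = θ) :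
    ∃ φ, CorW N y₁ (bY y₁ b) w (ℓ ^ (n + 1) - 1) φ θ := by
  obtain ⟨hSN, hrange, hbY⟩ := hrsd ℓ F G n N P ⟨y₁, hS.le hS.mem⟩ b w hS
  obtain ⟨m, κ, hκ, rfl⟩ := hθ
  have hcl' : IsCl (fun t : N.subgroupOf (NY y₁) => bY y₁ b ((t : NY y₁) : G)) :=
    D1H51.restr_cl' (bY_cl y₁ hS.idem.1) _
  have h1 := (D1H51.act_one_iff heig hκ hcl').1 ha
  obtain ⟨k, σ, π, hσ, -, hHW⟩ := hsud ℓ F hF N n (P.subgroupOf N) ⟨y₁, hS.le hS.mem⟩
    (fun t : N => b t) (fun t : N => w t) hSN (N.subgroupOf (NY y₁)) (jN N (NY y₁))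
    (D1H51.jN_injective _ _) hrange m κ hκ (by rw [hbY]; exact h1)
  rw [hbY] at hHW
  exact ⟨tr σ, k, σ, m, κ, π, hσ, rfl, hκ, rfl, hHW⟩

theorem cor_right (hund : UndStmt) (hrsd : RsdStmt) (hF : GoodF ℓ F)
    (hS : D2S ℓ n N P y₁ b w) {φ : N → F} {θ θ' : N.subgroupOf (NY y₁) → F}
    (h : CorW N y₁ (bY y₁ b) w (ℓ ^ (n + 1) - 1) φ θ)
    (h' : CorW N y₁ (bY y₁ b) w (ℓ ^ (n + 1) - 1) φ θ') : θ = θ' := by
  obtain ⟨hSN, hrange, hbY⟩ := hrsd ℓ F G n N P ⟨y₁, hS.le hS.mem⟩ b w hS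
  obtain ⟨k, σ, m, κ, π, hσ, hφ, hκ, rfl, hHW⟩ := h
  obtain ⟨k', σ', m', κ', π', hσ', hφ', hκ', rfl, hHW'⟩ := h'
  exact hund ℓ F hF N n ⊤ (P.subgroupOf N) ⟨y₁, hS.le hS.mem⟩ (fun t : N => b t)
    (fun t : N => w t) hSN (N.subgroupOf (NY y₁)) (jN N (NY y₁)) hrange
    k k' σ σ' hσ hσ' (hφ.trans hφ'.symm) m m' κ κ' π π' hκ hκ' (by rw [hbY]; exact hHW)
    (by rw [hbY]; exact hHW')

theorem cor_left (hind : IndStmt) (hrsd : RsdStmt) (heig : EigStmt) (hF : GoodF ℓ F)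
    (hS : D2S ℓ n N P y₁ b w) {φ φ' : N → F} {θ : N.subgroupOf (NY y₁) → F}
    (ha : actF (fun t : N => b t) φ = φ) (ha' : actF (fun t : N => b t) φ' = φ')
    (h : CorW N y₁ (bY y₁ b) w (ℓ ^ (n + 1) - 1) φ θ)
    (h' : CorW N y₁ (bY y₁ b) w (ℓ ^ (n + 1) - 1) φ' θ) : φ = φ' := by
  obtain ⟨hSN, hrange, hbY⟩ := hrsd ℓ F G n N P ⟨y₁, hS.le hS.mem⟩ b w hS
  obtain ⟨k, σ, m, κ, π, hσ, rfl, hκ, hθ, hHW⟩ := h
  obtain ⟨k', σ', m', κ', π', hσ', rfl, hκ', hθ', hHW'⟩ := h'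
  have hcl : IsCl (fun t : N => b t) := D1H51.restr_cl hS.idem.1
  exact hind ℓ F hF N n ⊤ (P.subgroupOf N) ⟨y₁, hS.le hS.mem⟩ (fun t : N => b t)
    (fun t : N => w t) hSN (N.subgroupOf (NY y₁)) (jN N (NY y₁)) hrange k k' σ σ' hσ hσ'
    ((D1H51.act_one_iff heig hσ hcl).1 ha) ((D1H51.act_one_iff heig hσ' hcl).1 ha')
    m m' κ κ' π π' hκ hκ' (hθ.trans hθ'.symm) (by rw [hbY]; exact hHW) (by rw [hbY]; exact hHW')

/-- corresponding characters lie in the sets of the counting lemma simultaneously -/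
theorem mem_iff [N.Normal] (hind : IndStmt) (hund : UndStmt) (hebd : EbdStmt) (hrsd : RsdStmt)
    (hc3d : C3dStmt) (heig : EigStmt) (hF : GoodF ℓ F) (hS : D2S ℓ n N P y₁ b w) {φ : N → F}
    {θ : N.subgroupOf (NY y₁) → F} (hc : CorW N y₁ (bY y₁ b) w (ℓ ^ (n + 1) - 1) φ θ)
    (x y : NY y₁) :
    φ ∈ phiSet N b (x : G) (y : G) ↔
      θ ∈ phiSet (N.subgroupOf (NY y₁)) (fun t : NY y₁ => bY y₁ b t) x y := by
  have hact := cor_act hebd hrsd heig hF hS hc
  have hx : ∀ x : NY y₁,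
      actF (fun t : N => b t) φ = φ → ((∀ l, φ (MulAut.conjNormal (x : G) l) = φ l) ↔
        ∀ l, θ (MulAut.conjNormal x l) = θ l) := by
    intro x ha
    have h6 := hc3d ℓ F hF G n N P y₁ b w hS φ θ hc x
    constructor
    · intro h l
      have h7 : (fun l => φ (MulAut.conjNormal (x : G) l)) = φ := funext h
      rw [h7] at h6
      exact congrFun (cor_right hund hrsd hF hS h6 hc) l
    · intro h l
      have h7 : (fun l => θ (MulAut.conjNormal x l)) = θ := funext h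
      rw [h7] at h6
      have h8 := (cor_act hebd hrsd heig hF hS h6).2 (hact.1 ha)
      exact congrFun (cor_left hind hrsd heig hF hS h8 ha h6 hc) l
  have hmem : φ ∈ IBr F N ∧ θ ∈ IBr F (N.subgroupOf (NY y₁)) := by
    obtain ⟨k, σ, m, κ, π, hσ, hφ, hκ, hθ, -⟩ := hc
    exact ⟨⟨k, σ, hσ, hφ.symm⟩, m, κ, hκ, hθ.symm⟩
  unfold phiSet
  constructor
  · rintro ⟨-, a2, a3, a4⟩
    exact ⟨hmem.2, hact.1 a2, (hx x a2).1 a3, (hx y a2).1 a4⟩
  · rintro ⟨-, a2, a3, a4⟩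
    have a2' := hact.2 a2
    exact ⟨hmem.1, a2', (hx x a2').2 a3, (hx y a2').2 a4⟩

end

/-- CBD: the numbers of irreducible modular characters over `b` and over `br_P b` agree -/
theorem cbd (hcmq : CmqStmt) (hird : IrdStmt) (hind : IndStmt) (hund : UndStmt) (hebd : EbdStmt)
    (hsud : SudStmt) (hrsd : RsdStmt) (hc3d : C3dStmt) (hc4d : C4dStmt) (heig : EigStmt) :
    CbdStmt := by
  intro ℓ _ F _ hF G _ _ n N P y₁ b w hS
  have hNn := hS.normal
  refine hcmq ℓ F hF G N (NY y₁) hS.frat b (fun t : NY y₁ => bY y₁ b t) hS.idem.1 hS.supp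
    (bY_cl y₁ hS.idem.1) ?_ ?_
  · intro x hx
    have h1 : b x = 0 := hS.supp x hx
    show br (Subgroup.zpowers y₁) b x = 0
    unfold br
    split_ifs
    · exact h1
    · rfl
  intro τ hτ x y hk
  unfold csum
  classical
  let g : (N → F) → (N.subgroupOf (NY y₁) → F) := fun φ =>
    if h : ∃ θ, CorW N y₁ (bY y₁ b) w (ℓ ^ (n + 1) - 1) φ θ then h.choose else 0
  have hg : ∀ φ ∈ phiSet N b (x : G) (y : G),
      CorW N y₁ (bY y₁ b) w (ℓ ^ (n + 1) - 1) φ (g φ) := by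
    intro φ hφ
    have hex : ∃ θ, CorW N y₁ (bY y₁ b) w (ℓ ^ (n + 1) - 1) φ θ :=
      cor_ex hird hrsd heig hF hS hφ.1 hφ.2.1
    have h1 : g φ = hex.choose := dif_pos hex
    rw [h1]
    exact hex.choose_spec
  refine finsum_mem_eq_of_bijOn g ⟨?_, ?_, ?_⟩ ?_
  · intro φ hφ
    exact (mem_iff hind hund hebd hrsd hc3d heig hF hS (hg φ hφ) x y).1 hφ
  · intro φ hφ φ' hφ' heq
    have h1 := hg φ hφ
    rw [heq] at h1
    exact cor_left hind hrsd heig hF hS hφ.2.1 hφ'.2.1 h1 (hg φ' hφ')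
  · intro θ hθ
    obtain ⟨φ, hc⟩ := cor_ex' hsud hrsd heig hF hS hθ.1 hθ.2.1
    have hφ := (mem_iff hind hund hebd hrsd hc3d heig hF hS hc x y).2 hθ
    exact ⟨φ, hφ, cor_right hund hrsd hF hS (hg φ hφ) hc⟩
  · intro φ hφ
    have hc := hg φ hφ
    have hθ := (mem_iff hind hund hebd hrsd hc3d heig hF hS hc x y).1 hφ
    rw [hc4d ℓ F hF G n N P y₁ b w hS φ (g φ) hc x y hk hφ.2.2.1 hφ.2.2.2 hθ.2.2.1 hθ.2.2.2]

end Pool.Agent.PP.CD2.H91
end
end -- Pool.Agent.Helper91_D2.Cbd
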