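import Pool.Agent.Helper12_AWB.B149
import Pool.Agent.Helper12_AWB.B160

/-!
# Merged copies (generated) of the modules

* `Pool.Agent.Helper31_D2.Fex`
* `Pool.Agent.Helper36_D2.Dfx`
* `Pool.Agent.Helper47_D2.Lf3`
* `Pool.Agent.Helper66_D2.Cle`
* `Pool.Agent.Helper76_D2.Mpj`
* `Pool.Agent.Helper89_D2.Corner`
* `Pool.Agent.Helper89_D2.Pcv`
* `Pool.Agent.Helper91_D2.Cla`
-/

set_option autoImplicit false

section -- Pool.Agent.Helper31_D2.Fex

/-!
# Squad PP, part D2, module FEX: the endomorphism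
-/

open scoped BigOperators

noncomputable section

namespace Pool.Agent.PP.CD2.H31

open Pool.Agent.PP Pool.Agent.PP.H20 Pool.Agent.Helper51_AWC Pool.Agent.Helper79_WRA

section lin

variable {F : Type} [Field F] {V : Type} [AddCommGroup V] [Module F V]

/-- a partial inverse of a linear map on its range -/
theorem ex_tau (g : V →ₗ[F] V) : ∃ τ : V →ₗ[F] V, ∀ t ∈ LinearMap.range g, g (τ t) = t := by
  obtain ⟨h, hh⟩ := LinearMap.exists_rightInverse_of_surjective g.rangeRestrict
    g.range_rangeRestrict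
  obtain ⟨τ, hτ⟩ := LinearMap.exists_extend h
  refine ⟨τ, fun t ht => ?_⟩
  have h1 : τ t = h ⟨t, ht⟩ := LinearMap.congr_fun hτ ⟨t, ht⟩
  have h2 := congrArg Subtype.val (LinearMap.congr_fun hh ⟨t, ht⟩)
  rw [h1]
  exact h2

/-- a projection onto `T` which kills `R` -/
theorem ex_phi (T R : Submodule F V) (h : T ⊓ R = ⊥) : ∃ φ : V →ₗ[F] V,
    (∀ t ∈ T, φ t = t) ∧ (∀ r ∈ R, φ r = 0) ∧ ∀ v, φ v ∈ T := by
  obtain ⟨R', hR, hc⟩ := Disjoint.exists_isCompl (a := R) (b := T)
    (disjoint_iff.2 (by rw [inf_comm]; exact h))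
  refine ⟨T.projection R' hc.symm, fun t ht => ?_, fun r hr => ?_, fun v => ?_⟩
  · exact Submodule.projection_apply_left hc.symm ⟨t, ht⟩
  · exact Submodule.projection_apply_right hc.symm ⟨r, hR hr⟩
  · exact Submodule.projection_apply_mem hc.symm v

/-- the twisted sum `∑ W ^ i a W ^ (j - 1 - i)` -/
def tws (W a : V →ₗ[F] V) : ℕ → (V →ₗ[F] V)
  | 0 => 0
  | j + 1 => W * tws W a j + a * W ^ j

theorem tws_comm (W a : V →ₗ[F] V) (j : ℕ) :
    tws W a j * W - W * tws W a j = a * W ^ j - W ^ j * a := by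
  induction j with
  | zero => simp [tws]
  | succ j ih =>
    have h : tws W a (j + 1) * W - W * tws W a (j + 1) =
        W * (tws W a j * W - W * tws W a j) + (a * W ^ j * W - W * (a * W ^ j)) := by
      rw [tws, add_mul, mul_add, mul_sub]
      simp only [mul_assoc]
      abel
    have e1 : a * W ^ (j + 1) = a * W ^ j * W := by rw [pow_succ, mul_assoc]
    have e2 : W ^ (j + 1) * a = W * (W ^ j * a) := by rw [pow_succ', mul_assoc]
    rw [h, ih, mul_sub, e1, e2]
    abel

theorem tws_fix (W a : V →ₗ[F] V) (j : ℕ) {v : V} (hv : W v = 0) :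
    tws W a (j + 1) v = (W ^ j) (a v) := by
  induction j with
  | zero => simp [tws]
  | succ j ih =>
    have h : tws W a (j + 1 + 1) v = W (tws W a (j + 1) v) + a ((W ^ (j + 1)) v) := rfl
    have h2 : (W ^ (j + 1)) v = 0 := by rw [pow_succ, Module.End.mul_apply, hv, map_zero]
    rw [h, ih, h2, map_zero, add_zero, pow_succ', Module.End.mul_apply]

end lin

/-- FEX -/
theorem fex (spa : SpaStmt) (cpl : CplStmt) (tra : TraStmt) (stw : StwStmt) : FexStmt := by
  classical
  intro ℓ _ F _ hF G _ _ n N P y₁ b w hD V _ _ _ ρ hb Y hlt hYf hYs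
  obtain ⟨s1, s2, s3, s4, s5, s6, s7, s8, s9, s10, s11⟩ := stw ℓ F hF G n N P y₁ b w hD V ρ
  set B := evV ρ (bY y₁ b) with hB
  set W := evV ρ w with hW
  set K := N ⊓ NY y₁ with hK
  have hKL : ∀ k ∈ K, k ∈ NY y₁ := fun k hk => hk.2
  have hq : 2 ≤ ℓ ^ (n + 1) := by
    have h1 : 2 ≤ ℓ := (Fact.out : ℓ.Prime).two_le
    calc 2 ≤ ℓ := h1
      _ = ℓ ^ 1 := (pow_one ℓ).symm
      _ ≤ ℓ ^ (n + 1) := Nat.pow_le_pow_right (by omega) (by omega)
  obtain ⟨q, hq'⟩ : ∃ q, ℓ ^ (n + 1) = q + 2 := ⟨ℓ ^ (n + 1) - 2, by omega⟩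
  rw [hq'] at s6 s8 hlt
  have hq1 : q + 2 - 1 = q + 1 := by omega
  rw [hq1] at s8 hlt
  -- the number `r`
  have hex : ∃ r, Y ⊓ rngW ρ w r ≤ rngW ρ w (q + 1) := ⟨q + 1, inf_le_right⟩
  have hr1 := Nat.find_spec hex
  have hr2 : Nat.find hex ≤ q + 1 := Nat.find_min' hex inf_le_right
  have hr0 : Nat.find hex ≠ 0 := by
    intro h0
    rw [h0] at hr1
    have h1 : rngW ρ w 0 = ⊤ := by
      rw [rngW, pow_zero]
      exact LinearMap.range_id
    rw [h1, inf_top_eq] at hr1
    exact absurd hr1 (not_le_of_gt hlt)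
  obtain ⟨r, hr⟩ := Nat.exists_eq_succ_of_ne_zero hr0
  rw [Nat.succ_eq_add_one] at hr
  have hr3 : ¬ Y ⊓ rngW ρ w r ≤ rngW ρ w (q + 1) := Nat.find_min hex (by omega)
  rw [hr] at hr1 hr2
  have hmono : ∀ i j, i ≤ j → rngW ρ w j ≤ rngW ρ w i := by
    rintro i j hij _ ⟨v, rfl⟩
    obtain ⟨c, rfl⟩ := Nat.exists_eq_add_of_le hij
    exact ⟨(W ^ c) v, by rw [pow_add, Module.End.mul_apply]⟩
  -- the complement `T`
  obtain ⟨T, hT1, hT2, hT3⟩ := cpl ℓ F hF G n N P y₁ b w hD V ρ (rngW ρ w (q + 1))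
    (Y ⊓ rngW ρ w r) (le_inf hlt.le (hmono r (q + 1) (by omega))) (inf_le_left.trans hYf)
    (fun k hk v hv => s9 (q + 1) k (hKL k hk) v hv)
    (fun k hk v hv => ⟨hYs k hk v hv.1, s9 r k (hKL k hk) v hv.2⟩)
  have hTY : T ≤ Y ⊓ rngW ρ w r := hT3 ▸ le_sup_left
  have hTf : ∀ t ∈ T, B t = t ∧ W t = 0 := fun t ht => hYf (hTY ht).1
  have hTR : T ⊓ rngW ρ w (r + 1) = ⊥ := by
    rw [eq_bot_iff, ← hT2]
    exact le_inf inf_le_left ((inf_le_inf_right _ (hTY.trans inf_le_left)).trans hr1)
  obtain ⟨φ, hφ1, hφ2, hφ3⟩ := ex_phi T _ hTR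
  obtain ⟨τ, hτ⟩ := ex_tau (W ^ r)
  have hτT : ∀ v, (W ^ r) (τ (φ v)) = φ v := fun v => hτ _ (hTY (hφ3 v)).2
  set g₀ := tws W (τ * φ) (r + 1) with hg₀
  have hcomm : ∀ v, g₀ (W v) = W (g₀ v) := by
    intro v
    have h1 := LinearMap.congr_fun (tws_comm W (τ * φ) (r + 1)) v
    have h2 : (τ * φ * W ^ (r + 1)) v = 0 := by
      rw [Module.End.mul_apply, Module.End.mul_apply, hφ2 _ ⟨v, rfl⟩, map_zero]
    have h3 : (W ^ (r + 1) * (τ * φ)) v = 0 := by
      rw [Module.End.mul_apply, Module.End.mul_apply, pow_succ', Module.End.mul_apply, hτT]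
      exact (hTf _ (hφ3 v)).2
    rw [LinearMap.sub_apply, LinearMap.sub_apply, h2, h3, sub_zero, Module.End.mul_apply,
      Module.End.mul_apply, sub_eq_zero] at h1
    exact h1
  have hfix : ∀ v, W v = 0 → g₀ v = φ v := by
    intro v hv
    rw [hg₀, tws_fix W (τ * φ) r hv, Module.End.mul_apply, hτT]
  -- averaging
  set T₀ := LinearMap.range B with hT₀
  have hT₀B : ∀ v ∈ T₀, B v = v := by
    rintro _ ⟨v, rfl⟩
    exact s2 v
  have hfT₀ : ∀ v, B v = v → v ∈ T₀ := fun v hv => ⟨v, hv⟩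
  obtain ⟨g', hg1, hg2⟩ := spa ℓ F hF G n N P y₁ b w hD V V ρ ρ T₀
    (by
      rintro k hk _ ⟨v, rfl⟩
      exact ⟨ρ k v, s1 k (hKL k hk) v⟩)
    hT₀B g₀ (fun v _ => hcomm v)
  have hKs : Stb K ρ (fixW ρ (bY y₁ b) w) := fun k hk v hv => s10 k (hKL k hk) v hv
  have hA : ∀ v ∈ fixW ρ (bY y₁ b) w, g' v ∈ T := by
    intro v hv
    have h1 := hg2 (fixW ρ (bY y₁ b) w) (fun v hv => hfT₀ v hv.1) hKs T hT1 0
      (fun k _ v _ => by rw [LinearMap.zero_apply, LinearMap.zero_apply, map_zero])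
      (fun v hv => by rw [LinearMap.zero_apply, sub_zero, hfix v hv.2]; exact hφ3 v) v hv
    rwa [LinearMap.zero_apply, sub_zero] at h1
  have hI : ∀ t ∈ T, g' t = t := by
    intro t ht
    have h1 := hg2 T (fun v hv => hfT₀ v (hTf v hv).1) hT1 ⊥
      (fun k _ v hv => by
        rw [(Submodule.mem_bot F).1 hv, map_zero]
        exact zero_mem _) LinearMap.id
      (fun k _ v _ => rfl)
      (fun v hv => by
        rw [LinearMap.id_apply, hfix v (hTf v hv).2, hφ1 v hv, sub_self]
        exact zero_mem _) t ht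
    rw [LinearMap.id_apply, Submodule.mem_bot, sub_eq_zero] at h1
    exact h1
  obtain ⟨f, hf1, hf2⟩ := tra ℓ F hF G n N P y₁ b w hD V V ρ ρ (g' ∘ₗ B)
    (by
      intro k hk v
      rw [LinearMap.comp_apply, LinearMap.comp_apply, s1 k (hKL k hk) v]
      exact hg1 k hk _ ⟨v, rfl⟩)
    (by
      intro v
      rw [LinearMap.comp_apply, LinearMap.comp_apply]
      exact congrArg g' (s2 v))
  have hf3 : ∀ v ∈ fixW ρ (bY y₁ b) w, f v - g' v ∈ rngW ρ w (q + 1) := by
    intro v hv
    have h1 := hf2 1 (by omega) v hv.1 (by rw [pow_one]; exact hv.2)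
    rw [LinearMap.comp_apply, hq', hq1, show B v = v from hv.1] at h1
    exact h1
  refine ⟨f, hf1, ?_, ?_⟩
  · rintro rfl
    apply hr3
    rw [← hT3]
    refine sup_le ?_ le_rfl
    intro t ht
    have h1 := hf3 t (hTf t ht)
    rw [LinearMap.zero_apply, hI t ht, zero_sub, neg_mem_iff] at h1
    exact h1
  · intro v hv
    have h1 := hf3 v hv
    have h2 := add_mem (hTY (hA v hv)).1 (hlt.le h1)
    rwa [add_sub_cancel] at h2

end Pool.Agent.PP.CD2.H31
end
end -- Pool.Agent.Helper31_D2.Fex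

section -- Pool.Agent.Helper36_D2.Dfx

/-!
# Squad PP, part D2, module DFX: defect groups of central idempotents, cyclic case
-/

open scoped BigOperators

set_option linter.unusedSectionVars false

noncomputable section

namespace Pool.Agent.PP.CD2.H36

open Pool.Agent.PP Pool.Agent.Helper51_AWC Pool.Agent.Helper79_WRA Pool.Agent.PP.H20

variable {F : Type} [Field F] {G : Type} [Group G] [Finite G]

/-- the weighted sum of the conjugates -/
def tW (c z : G → F) : G → F := fun x => ∑ᶠ g : G, c g * z (g⁻¹ * x * g)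

theorem tW_mul (c c₂ z : G → F) : tW (mulF c c₂) z = tW c (tW c₂ z) := by
  have := Fintype.ofFinite G
  funext x
  unfold tW
  simp only [finsum_eq_sum_of_fintype]
  have h1 : ∀ k : G, mulF c c₂ k * z (k⁻¹ * x * k) =
      ∑ t : G, c t * (c₂ (t⁻¹ * k) * z (k⁻¹ * x * k)) := by
    intro k
    rw [mulF, finsum_eq_sum_of_fintype, Finset.sum_mul]
    exact Finset.sum_congr rfl fun t _ => mul_assoc _ _ _
  rw [Finset.sum_congr rfl fun k _ => h1 k, Finset.sum_comm]
  refine Finset.sum_congr rfl fun t _ => ?_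
  rw [Finset.mul_sum]
  symm
  refine Fintype.sum_equiv (Equiv.mulLeft t) _ _ fun g => ?_
  change c t * (c₂ g * z (g⁻¹ * (t⁻¹ * x * t) * g)) =
    c t * (c₂ (t⁻¹ * (t * g)) * z ((t * g)⁻¹ * x * (t * g)))
  rw [inv_mul_cancel_left]
  congr 3
  group

theorem isW_mul {N P P' : Subgroup G} (hPN : P ≤ N) (hP' : P' ≤ P) {c c₂ : G → F}
    (hc : IsW N P c) (hc₂ : IsW P P' c₂) : IsW N P' (mulF c c₂) := by
  classical
  have := Fintype.ofFinite G
  have := Fintype.ofFinite P
  have := Fintype.ofFinite P'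
  refine ⟨fun g hg => ?_, fun g hg => ?_⟩
  · rw [mulF, finsum_eq_sum_of_fintype]
    refine Finset.sum_eq_zero fun t _ => ?_
    by_cases ht : t ∈ N
    · rw [hc₂.supp, mul_zero]
      intro h
      apply hg
      have := mul_mem ht (hPN h)
      rwa [mul_inv_cancel_left] at this
    · rw [hc.supp t ht, zero_mul]
  · rw [finsum_eq_sum_of_fintype]
    simp only [mulF, finsum_eq_sum_of_fintype]
    rw [Finset.sum_comm]
    have h1 : ∀ t : G, ∑ p : P', c t * c₂ (t⁻¹ * (g * p)) = if t⁻¹ * g ∈ P then c t else 0 := by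
      intro t
      rw [← Finset.mul_sum]
      split_ifs with ht
      · have h2 := hc₂.sum _ ht
        rw [finsum_eq_sum_of_fintype] at h2
        have h3 : ∑ p : P', c₂ (t⁻¹ * (g * p)) = ∑ p : P', c₂ (t⁻¹ * g * p) :=
          Finset.sum_congr rfl fun p _ => by rw [mul_assoc]
        rw [h3, h2, mul_one]
      · rw [Finset.sum_eq_zero, mul_zero]
        intro p _
        apply hc₂.supp
        intro h
        apply ht
        have h4 := mul_mem h (inv_mem (hP' p.2))
        have e : t⁻¹ * (g * p) * (p : G)⁻¹ = t⁻¹ * g := by group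
        rwa [e] at h4
    rw [Finset.sum_congr rfl fun t _ => h1 t]
    have h5 := hc.sum g hg
    rw [finsum_eq_sum_of_fintype] at h5
    rw [← h5]
    have h6 : ∑ p : P, c (g * p) = ∑ s : G, if s ∈ P then c (g * s) else 0 := by
      rw [← Finset.sum_filter]
      symm
      refine Finset.sum_subtype _ (fun x => ?_) (fun s => c (g * s))
      rw [Finset.mem_filter]
      simp
    rw [h6]
    symm
    refine Fintype.sum_equiv (Equiv.mulLeft g) _ _ fun s => ?_
    change (if s ∈ P then c (g * s) else 0) = if (g * s)⁻¹ * g ∈ P then c (g * s) else 0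
    have e : (g * s)⁻¹ * g = s⁻¹ := by group
    rw [e]
    simp only [inv_mem_iff]

/-- the trace of `z e`, `e` central -/
theorem tW_right (c z : G → F) {e : G → F} (he : IsCl e) :
    tW c (mulF z e) = mulF (tW c z) e := by
  have := Fintype.ofFinite G
  funext x
  have h1 : ∀ g : G, mulF z e (g⁻¹ * x * g) = ∑ t : G, z (g⁻¹ * t * g) * e (t⁻¹ * x) := by
    intro g
    have h2 := congrFun (H66.conj_mulF g z e) x
    have h3 : (fun t => e (g⁻¹ * t * g)) = e := by
      funext t
      have := he t g⁻¹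
      rwa [inv_inv] at this
    rw [h3] at h2
    refine h2.trans ?_
    rw [mulF, finsum_eq_sum_of_fintype]
  unfold tW
  simp only [finsum_eq_sum_of_fintype]
  rw [Finset.sum_congr rfl fun g _ => by rw [h1 g]]
  rw [mulF, finsum_eq_sum_of_fintype]
  simp only [Finset.mul_sum, Finset.sum_mul]
  rw [Finset.sum_comm]
  exact Finset.sum_congr rfl fun t _ => Finset.sum_congr rfl fun g _ => (mul_assoc _ _ _).symm

/-- the trace of `z a`, `z` invariant -/
theorem tW_left {P : Subgroup G} {c z : G → F} (a : G → F) (hc : ∀ g, g ∉ P → c g = 0)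
    (hz : CmF P z) : tW c (mulF z a) = mulF z (tW c a) := by
  have := Fintype.ofFinite G
  funext x
  have h1 : ∀ g : G, c g * mulF z a (g⁻¹ * x * g) =
      ∑ t : G, z t * (c g * a (g⁻¹ * (t⁻¹ * x) * g)) := by
    intro g
    by_cases hg : g ∈ P
    · have h2 := congrFun (H66.conj_mulF g z a) x
      have h3 : (fun t => z (g⁻¹ * t * g)) = z := by
        funext t
        have := hz g⁻¹ (inv_mem hg) t
        rwa [inv_inv] at this
      rw [h3] at h2
      have h4 : mulF z a (g⁻¹ * x * g) = ∑ t : G, z t * a (g⁻¹ * (t⁻¹ * x) * g) := by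
        refine h2.trans ?_
        rw [mulF, finsum_eq_sum_of_fintype]
      rw [h4, Finset.mul_sum]
      refine Finset.sum_congr rfl fun t _ => ?_
      ring
    · rw [hc g hg, zero_mul]
      symm
      refine Finset.sum_eq_zero fun t _ => ?_
      rw [zero_mul, mul_zero]
  unfold tW
  simp only [finsum_eq_sum_of_fintype]
  rw [Finset.sum_congr rfl fun g _ => h1 g]
  rw [mulF, finsum_eq_sum_of_fintype]
  simp only [Finset.mul_sum]
  rw [Finset.sum_comm]

/-- `e` is a trace from `P'` to `P` if the Brauer map of `e` vanishes and the stabilisers of the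
elements outside the centraliser are contained in `P'` -/
theorem exists_tr {P P' : Subgroup G} (hP' : P' ≤ P) (hab : ∀ s ∈ P, ∀ t ∈ P, s * t = t * s)
    (hst : ∀ x, x ∉ Subgroup.centralizer (P : Set G) → ∀ p ∈ P, p * x = x * p → p ∈ P')
    {e : G → F} (he : CmF P e) (h0 : ∀ x ∈ Subgroup.centralizer (P : Set G), e x = 0)
    {c : G → F} (hc : IsW P P' c) : ∃ a : G → F, CmF P' a ∧ tW c a = e := by
  classical
  have := Fintype.ofFinite G
  have := Fintype.ofFinite P'
  -- representatives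
  let S : Setoid G :=
    { r := fun x y => ∃ p ∈ P, p * x * p⁻¹ = y
      iseqv :=
        { refl := fun x => ⟨1, one_mem _, by simp⟩
          symm := by
            rintro x _ ⟨p, hp, rfl⟩
            exact ⟨p⁻¹, inv_mem hp, by group⟩
          trans := by
            rintro x _ _ ⟨p, hp, rfl⟩ ⟨q, hq, rfl⟩
            exact ⟨q * p, mul_mem hq hp, by group⟩ } }
  obtain ⟨r, hr1, hr2⟩ : ∃ r : G → G, (∀ x, ∃ p ∈ P, p * r x * p⁻¹ = x) ∧
      ∀ x, ∀ p ∈ P, r (p * x * p⁻¹) = r x := by
    refine ⟨fun x => (Quotient.mk S x).out, fun x => ?_, fun x p hp => ?_⟩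
    · exact Quotient.exact (s := S) (Quotient.out_eq (Quotient.mk S x))
    · have h : Quotient.mk S (p * x * p⁻¹) = Quotient.mk S x :=
        Quotient.sound (s := S) ⟨p⁻¹, inv_mem hp, by group⟩
      change (Quotient.mk S (p * x * p⁻¹)).out = (Quotient.mk S x).out
      rw [h]
  have ha : ∀ x : G, ∀ q ∈ P, (∃ p ∈ P', p * r x * p⁻¹ = q⁻¹ * x * q) →
      x ∉ Subgroup.centralizer (P : Set G) → ∀ p₀ ∈ P, p₀ * r x * p₀⁻¹ = x → p₀⁻¹ * q ∈ P' := by
    rintro x q hq ⟨p, hp, hpx⟩ hx p₀ hp₀ h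
    have h1 : (p⁻¹ * (q⁻¹ * p₀)) * r x = r x * (p⁻¹ * (q⁻¹ * p₀)) := by
      have h2 : p * r x * p⁻¹ = q⁻¹ * (p₀ * r x * p₀⁻¹) * q := by rw [h, hpx]
      have h3 : r x = p⁻¹ * (p * r x * p⁻¹) * p := by group
      have h4 : r x * (p⁻¹ * (q⁻¹ * p₀)) =
          p⁻¹ * (p * r x * p⁻¹) * p * (p⁻¹ * (q⁻¹ * p₀)) := by rw [← h3]
      rw [h4, h2]
      group
    have hrx : r x ∉ Subgroup.centralizer (P : Set G) := by
      intro h5
      apply hx
      rw [← h]
      rw [Subgroup.mem_centralizer_iff] at h5 ⊢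
      intro t ht
      have h6 := h5 p₀ hp₀
      have h7 : p₀ * r x * p₀⁻¹ = r x := by
        rw [h6, mul_inv_cancel_right]
      rw [h7]
      exact h5 t ht
    have h5 := hst _ hrx _ (mul_mem (inv_mem (hP' hp)) (mul_mem (inv_mem hq) hp₀)) h1
    have h6 := mul_mem hp h5
    rw [mul_inv_cancel_left] at h6
    have h7 := inv_mem h6
    have e1 : (q⁻¹ * p₀)⁻¹ = p₀⁻¹ * q := by group
    rwa [e1] at h7
  refine ⟨fun x => if ∃ p ∈ P', p * r x * p⁻¹ = x then e x else 0, ?_, ?_⟩
  · intro p hp x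
    have h1 : (∃ q ∈ P', q * r (p * x * p⁻¹) * q⁻¹ = p * x * p⁻¹) ↔
        ∃ q ∈ P', q * r x * q⁻¹ = x := by
      rw [hr2 x p (hP' hp)]
      constructor
      · rintro ⟨q, hq, h⟩
        refine ⟨p⁻¹ * q, mul_mem (inv_mem hp) hq, ?_⟩
        have h2 : p⁻¹ * (q * r x * q⁻¹) * p = x := by
          rw [h]
          group
        refine Eq.trans ?_ h2
        group
      · rintro ⟨q, hq, h⟩
        refine ⟨p * q, mul_mem hp hq, ?_⟩
        have h2 : p * (q * r x * q⁻¹) * p⁻¹ = p * x * p⁻¹ := by rw [h]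
        refine Eq.trans ?_ h2
        group
    change (if ∃ q ∈ P', q * r (p * x * p⁻¹) * q⁻¹ = p * x * p⁻¹ then e (p * x * p⁻¹) else 0) =
      if ∃ q ∈ P', q * r x * q⁻¹ = x then e x else 0
    rw [he p (hP' hp) x]
    by_cases h : ∃ q ∈ P', q * r x * q⁻¹ = x
    · rw [if_pos h, if_pos (h1.2 h)]
    · rw [if_neg h, if_neg fun h' => h (h1.1 h')]
  · funext x
    unfold tW
    rw [finsum_eq_sum_of_fintype]
    by_cases hx : x ∈ Subgroup.centralizer (P : Set G)
    · rw [h0 x hx]
      refine Finset.sum_eq_zero fun g _ => ?_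
      by_cases hg : g ∈ P
      · have h1 : g⁻¹ * x * g = x := by
          have := Subgroup.mem_centralizer_iff.1 hx g hg
          rw [mul_assoc, ← this, inv_mul_cancel_left]
        rw [h1]
        change c g * (if ∃ p ∈ P', p * r x * p⁻¹ = x then e x else 0) = 0
        rw [h0 x hx]
        simp
      · rw [hc.supp g hg, zero_mul]
    · obtain ⟨p₀, hp₀, h₀⟩ := hr1 x
      have h1 : ∀ g : G, c g * (if ∃ p ∈ P', p * r (g⁻¹ * x * g) * p⁻¹ = g⁻¹ * x * g then
          e (g⁻¹ * x * g) else 0) = if p₀⁻¹ * g ∈ P' then c g * e x else 0 := by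
        intro g
        by_cases hg : g ∈ P
        · have h2 : r (g⁻¹ * x * g) = r x := by
            have := hr2 x g⁻¹ (inv_mem hg)
            rwa [inv_inv] at this
          have h3 : e (g⁻¹ * x * g) = e x := by
            have := he g⁻¹ (inv_mem hg) x
            rwa [inv_inv] at this
          rw [h2, h3]
          by_cases h4 : ∃ p ∈ P', p * r x * p⁻¹ = g⁻¹ * x * g
          · rw [if_pos h4, if_pos (ha x g hg h4 hx p₀ hp₀ h₀)]
          · rw [if_neg h4, if_neg, mul_zero]
            intro h5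
            apply h4
            refine ⟨g⁻¹ * p₀, ?_, ?_⟩
            · have := inv_mem h5
              have e1 : (p₀⁻¹ * g)⁻¹ = g⁻¹ * p₀ := by group
              rwa [e1] at this
            · have e1 : g⁻¹ * p₀ * r x * (g⁻¹ * p₀)⁻¹ = g⁻¹ * (p₀ * r x * p₀⁻¹) * g := by group
              rw [e1, h₀]
        · rw [hc.supp g hg, zero_mul, if_neg]
          intro h5
          apply hg
          have := mul_mem hp₀ (hP' h5)
          rwa [mul_inv_cancel_left] at this
      rw [Finset.sum_congr rfl fun g _ => h1 g]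
      have h2 := hc.sum p₀ hp₀
      rw [finsum_eq_sum_of_fintype] at h2
      have h3 : ∑ g : G, (if p₀⁻¹ * g ∈ P' then c g * e x else 0) =
          ∑ s : G, if s ∈ P' then c (p₀ * s) * e x else 0 := by
        symm
        refine Fintype.sum_equiv (Equiv.mulLeft p₀) _ _ fun s => ?_
        change _ = if p₀⁻¹ * (p₀ * s) ∈ P' then c (p₀ * s) * e x else 0
        rw [inv_mul_cancel_left]
      have h4 : ∑ p : P', c (p₀ * p) * e x = ∑ s : G, if s ∈ P' then c (p₀ * s) * e x else 0 := by
        rw [← Finset.sum_filter]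
        symm
        refine Finset.sum_subtype _ (fun x => ?_) (fun s => c (p₀ * s) * e _)
        rw [Finset.mem_filter]
        simp
      rw [h3, ← h4, ← Finset.sum_mul, h2, one_mul]

/-- DFX -/
theorem dfx : DfxStmt := by
  intro ℓ hℓ F _ hF G _ _ P hP hcy e he he0 hprj
  obtain ⟨n, hn⟩ : ∃ n, n = Nat.card P := ⟨_, rfl⟩
  induction n using Nat.strong_induction_on generalizing P with
  | _ n ih =>
    by_cases hbr : br P e ≠ 0
    · exact ⟨P, le_rfl, hprj, hbr⟩
    rw [not_not] at hbr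
    have hz0 : ∀ x ∈ Subgroup.centralizer (P : Set G), e x = 0 := by
      intro x hx
      have h := congrFun hbr x
      unfold br at h
      rw [if_pos hx] at h
      exact h
    -- a generator
    obtain ⟨⟨y, hyP⟩, hgen⟩ := hcy.exists_generator
    have hPz : P = Subgroup.zpowers y := by
      apply le_antisymm
      · intro p hp
        obtain ⟨k, hk⟩ := Subgroup.mem_zpowers_iff.1 (hgen ⟨p, hp⟩)
        refine Subgroup.mem_zpowers_iff.2 ⟨k, ?_⟩
        have := congrArg (fun t : P => (t : G)) hk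
        simpa using this
      · rw [Subgroup.zpowers_le]
        exact hyP
    obtain ⟨m, hm⟩ : ∃ m, orderOf y = ℓ ^ m := by
      obtain ⟨k, hk⟩ := hP ⟨y, hyP⟩
      have h1 : y ^ ℓ ^ k = 1 := by
        have := congrArg (fun t : P => (t : G)) hk
        simpa using this
      obtain ⟨m, -, hm⟩ := (Nat.dvd_prime_pow hℓ.out).1 (orderOf_dvd_of_pow_eq_one h1)
      exact ⟨m, hm⟩
    have hm0 : m ≠ 0 := by
      rintro rfl
      rw [pow_zero, orderOf_eq_one_iff] at hm
      apply he0
      funext x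
      apply hz0
      rw [hPz, hm, Subgroup.mem_centralizer_iff]
      intro h hh
      rw [Subgroup.zpowers_one_eq_bot] at hh
      have : h = 1 := Subgroup.mem_bot.1 hh
      rw [this, one_mul, mul_one]
    obtain ⟨P', hP'def⟩ : ∃ P' : Subgroup G, P' = Subgroup.zpowers (y ^ ℓ) := ⟨_, rfl⟩
    have hP'P : P' ≤ P := by
      rw [hP'def, Subgroup.zpowers_le, hPz]
      exact Subgroup.npow_mem_zpowers y ℓ
    have hab : ∀ s ∈ P, ∀ t ∈ P, s * t = t * s := by
      intro s hs t ht
      have hcg := hcy.commGroup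
      have h1 := mul_comm' (⟨s, hs⟩ : P) ⟨t, ht⟩
      exact congrArg (fun r : P => (r : G)) h1
    have hyP' : y ∉ P' := by
      intro h
      rw [hP'def] at h
      obtain ⟨k, hk⟩ := Subgroup.mem_zpowers_iff.1 h
      have h1 : y ^ ((ℓ : ℤ) * k - 1) = 1 := by
        rw [zpow_sub, zpow_mul, zpow_natCast, hk, zpow_one, mul_inv_cancel]
      have h2 := orderOf_dvd_iff_zpow_eq_one.2 h1
      have h3 : (ℓ : ℤ) ∣ (ℓ : ℤ) * k - 1 := by
        refine dvd_trans ?_ h2
        rw [hm]
        push_cast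
        exact dvd_pow_self _ hm0
      have h4 : (ℓ : ℤ) ∣ 1 := by
        have h5 := dvd_sub (Dvd.intro k rfl : (ℓ : ℤ) ∣ ℓ * k) h3
        rwa [sub_sub_cancel] at h5
      have h5 : ℓ ∣ 1 := by exact_mod_cast h4
      exact hℓ.out.one_lt.ne' (Nat.dvd_one.1 h5)
    have hlt : Nat.card P' < n := by
      rw [hn]
      have h1 : P' < P := lt_of_le_of_ne hP'P fun h => hyP' (by rw [h]; exact hyP)
      exact Set.ncard_lt_ncard (SetLike.coe_ssubset_coe.2 h1) (Set.toFinite _)
    have hst : ∀ x, x ∉ Subgroup.centralizer (P : Set G) → ∀ p ∈ P, p * x = x * p → p ∈ P' := by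
      intro x hx p hp hpx
      rw [hPz] at hp
      obtain ⟨k, rfl⟩ := Subgroup.mem_zpowers_iff.1 hp
      by_cases hk : (ℓ : ℤ) ∣ k
      · obtain ⟨j, rfl⟩ := hk
        rw [hP'def]
        refine Subgroup.mem_zpowers_iff.2 ⟨j, ?_⟩
        rw [zpow_mul, zpow_natCast]
      · exfalso
        apply hx
        have hcop : IsCoprime k ((orderOf y : ℕ) : ℤ) := by
          rw [hm]
          push_cast
          apply IsCoprime.pow_right
          exact ((Nat.prime_iff_prime_int.1 hℓ.out).coprime_iff_not_dvd.2 hk).symm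
        obtain ⟨u, v, huv⟩ := hcop
        have h1 : y = (y ^ k) ^ u := by
          have h2 : y ^ (u * k + v * (orderOf y : ℤ)) = y := by rw [huv, zpow_one]
          rw [zpow_add, mul_comm v, zpow_mul y (orderOf y : ℤ) v, zpow_natCast,
            pow_orderOf_eq_one, one_zpow, mul_one, mul_comm u, zpow_mul] at h2
          exact h2.symm
        have h2 : Commute y x := by
          rw [h1]
          exact Commute.zpow_left hpx u
        rw [hPz, Subgroup.mem_centralizer_iff]
        intro h hh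
        obtain ⟨j, rfl⟩ := Subgroup.mem_zpowers_iff.1 hh
        exact (Commute.zpow_left h2 j)
    obtain ⟨c, z, hc, -, hz, hez⟩ := hprj
    obtain ⟨c₂, hc₂⟩ := D1H51.exists_w F hP'P
    obtain ⟨a, ha, hae⟩ := exists_tr hP'P hab hst (H66.cmF_of_cl he.1 P) hz0 hc₂
    have h1 : e = tW c z := funext hez
    have h2 : e = tW (mulF c c₂) (mulF z a) := by
      calc e = mulF e e := he.2.symm
        _ = mulF (tW c z) e := by rw [← h1]
        _ = tW c (mulF z e) := (tW_right c z he.1).symm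
        _ = tW c (mulF z (tW c₂ a)) := by rw [hae]
        _ = tW c (tW c₂ (mulF z a)) := by rw [tW_left a hc₂.supp hz]
        _ = tW (mulF c c₂) (mulF z a) := (tW_mul _ _ _).symm
    have hprj' : PrjB (⊤ : Subgroup G) P' e := by
      refine ⟨mulF c c₂, mulF z a, isW_mul le_top hP'P hc hc₂,
        fun x hx => absurd (Subgroup.mem_top x) hx, ?_, fun x => congrFun h2 x⟩
      have hz' : CmF P z := hz
      exact (hz'.mono hP'P).mul ha
    have hcy' : IsCyclic P' := by
      rw [hP'def]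
      infer_instance
    obtain ⟨Q, hQ, hQ1, hQ2⟩ := ih (Nat.card P') hlt P' (hP.to_le hP'P) hcy' hprj' rfl
    exact ⟨Q, hQ.trans hP'P, hQ1, hQ2⟩

end Pool.Agent.PP.CD2.H36
end
end -- Pool.Agent.Helper36_D2.Dfx

section -- Pool.Agent.Helper47_D2.Lf3

/-!
# Squad PP, part D2: module LF3
-/

open scoped BigOperators

set_option linter.unusedSectionVars false

noncomputable section

namespace Pool.Agent.PP.CD2.H47

open Pool.Agent.PP Pool.Agent.Helper51_AWC Pool.Agent.Helper79_WRA Pool.Agent.PP.CD2.H66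
  Pool.Agent.PP.H20

section ring

variable {F A : Type} [Field F] [Ring A] [Algebra F A]

/-- polynomials in `Y` -/
theorem pol {q : ℕ} {Y B : A} (h : LinearIndependent F (fun m : Fin q => Y ^ (m : ℕ) * B))
    {p : Polynomial F} (hp : p.natDegree < q) (h0 : Polynomial.aeval Y p * B = 0) : p = 0 := by
  rw [Polynomial.aeval_eq_sum_range' hp, Finset.sum_mul, Finset.sum_range] at h0
  have h1 := Fintype.linearIndependent_iff.1 h (fun m => p.coeff m) (by
    rw [← h0]
    exact Finset.sum_congr rfl fun m _ => by rw [smul_mul_assoc])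
  ext k
  rw [Polynomial.coeff_zero]
  by_cases hk : k < q
  · exact h1 ⟨k, hk⟩
  · exact Polynomial.coeff_eq_zero_of_natDegree_lt (by omega)

/-- polynomials in `Y - 1` -/
theorem pol' {q : ℕ} {Y B : A} (h : LinearIndependent F (fun m : Fin q => Y ^ (m : ℕ) * B))
    {p : Polynomial F} (hp : p.natDegree < q) (h0 : Polynomial.aeval (Y - 1) p * B = 0) :
    p = 0 := by
  have h1 : Polynomial.aeval Y (p.comp (Polynomial.X - Polynomial.C 1)) =
      Polynomial.aeval (Y - 1) p := by
    rw [Polynomial.aeval_comp]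
    simp
  have h2 : p.comp (Polynomial.X - Polynomial.C 1) = 0 := by
    apply pol h
    · rw [Polynomial.natDegree_comp, Polynomial.natDegree_X_sub_C, mul_one]
      exact hp
    · rw [h1, h0]
  have h3 : p = (p.comp (Polynomial.X - Polynomial.C 1)).comp
      (Polynomial.X + Polynomial.C 1) := by
    rw [Polynomial.comp_assoc]
    simp
  rw [h3, h2, Polynomial.zero_comp]

theorem li' {q : ℕ} {Y B : A} (h : LinearIndependent F (fun m : Fin q => Y ^ (m : ℕ) * B)) :
    LinearIndependent F (fun m : Fin q => (Y - 1) ^ (m : ℕ) * B) := by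
  rw [Fintype.linearIndependent_iff]
  intro α hα
  rcases Nat.eq_zero_or_pos q with rfl | hq
  · exact fun i => i.elim0
  have h1 : (∑ m : Fin q, Polynomial.C (α m) * Polynomial.X ^ (m : ℕ)) = 0 := by
    by_contra hne
    apply hne
    apply pol' h
    · have h2 := Polynomial.degree_sum_fin_lt α
      exact (Polynomial.natDegree_lt_iff_degree_lt hne).2 h2
    · rw [map_sum, Finset.sum_mul, ← hα]
      refine Finset.sum_congr rfl fun m _ => ?_
      rw [map_mul, Polynomial.aeval_C, map_pow, Polynomial.aeval_X, ← Algebra.smul_def,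
        smul_mul_assoc]
  intro k
  have h2 := congrArg (fun p => Polynomial.coeff p (k : ℕ)) h1
  simp only [Polynomial.finsetSum_coeff, Polynomial.coeff_C_mul, Polynomial.coeff_X_pow,
    Polynomial.coeff_zero] at h2
  rw [Finset.sum_eq_single k] at h2
  · simpa using h2
  · intro m _ hm
    rw [if_neg, mul_zero]
    intro h3
    exact hm (Fin.ext h3.symm)
  · intro h3
    exact absurd (Finset.mem_univ _) h3

end ring

/-- the central elements under `e` -/
def ZZ {F : Type} [Field F] {G : Type} [Group G] [Finite G] (e : G → F) :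
    Submodule F (G → F) where
  carrier := {c | IsCl c ∧ mulF e c = c}
  add_mem' := by
    rintro a c ⟨h1, h2⟩ ⟨h3, h4⟩
    exact ⟨isCl_add h1 h3, by rw [mulF_add, h2, h4]⟩
  zero_mem' := ⟨isCl_zero, mulF_zero _⟩
  smul_mem' := by
    rintro r a ⟨h1, h2⟩
    exact ⟨isCl_smul r h1, by rw [mulF_smul, h2]⟩

theorem mem_ZZ {F : Type} [Field F] {G : Type} [Group G] [Finite G] {e c : G → F} :
    c ∈ ZZ e ↔ IsCl c ∧ mulF e c = c := Iff.rfl

/-- LF3 -/
theorem lf3 (lfz : LfzStmt) (stb : StbStmt) : Lf3Stmt := by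
  intro ℓ hℓ F _ hF G _ _ n P y e hS i d hd hC
  have := hF.char
  have : Fact ℓ.Prime := hℓ
  obtain ⟨b', χ, hχe, hχm, hχz, hχy, hli⟩ := stb ℓ F hF G n P y e hS
  have he : IsIdem e := hS.blk.1
  obtain ⟨hz1, hz2⟩ := lfz F G e i d he hC
  set q := ℓ ^ (n + 1) with hq
  have hq0 : 0 < q := pow_pos hℓ.out.pos _
  set Y : MonoidAlgebra F G := MonoidAlgebra.single y 1 with hY
  set B : MonoidAlgebra F G := toMA b' with hB
  have hYm : ∀ m : ℕ, toMA (fun g => b' ((y ^ m)⁻¹ * g)) = Y ^ m * B := by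
    intro m
    rw [hY, MonoidAlgebra.single_pow, one_pow, hB, single_mul_toMA]
  have hLI : LinearIndependent F (fun m : Fin q => Y ^ (m : ℕ) * B) := by
    have h1 := hli.map' (maE (F := F) (H := G)).toLinearMap (LinearEquiv.ker _)
    have h2 : (maE (F := F) (H := G)).toLinearMap ∘
        (fun m : Fin q => fun g => b' ((y ^ (m : ℕ))⁻¹ * g)) =
        fun m : Fin q => Y ^ (m : ℕ) * B := by
      funext m
      exact hYm m
    rwa [h2] at h1
  have heZ : e ∈ ZZ e := ⟨he.1, he.2⟩
  -- the dimension of the centre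
  have hfin : Module.finrank F (ZZ e) ≤ q := by
    let L : ZZ e →ₗ[F] (G → F) :=
      { toFun := fun c => mulF c i
        map_add' := fun a c => add_mulF _ _ _
        map_smul' := fun r a => smul_mulF _ _ _ }
    have hLi : Function.Injective L := by
      rw [injective_iff_map_eq_zero]
      intro c hc
      exact Subtype.ext (hz2 c c.2.1 c.2.2 hc)
    have hLr : LinearMap.range L ≤ Submodule.span F (crn i) := by
      rintro _ ⟨c, rfl⟩
      refine Submodule.subset_span ⟨?_, ?_⟩
      · change mulF i (mulF c i) = mulF c i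
        rw [← mulF_assoc, ← mulF_comm_of_cl c.2.1 i, mulF_assoc, hC.ii]
      · change mulF (mulF c i) i = mulF c i
        rw [mulF_assoc, hC.ii]
    have : Module.Finite F (G → F) := Module.Finite.pi
    rw [← LinearMap.finrank_range_of_inj hLi]
    exact (Submodule.finrank_mono hLr).trans (hC.dim.trans hd)
  -- a family with independent images is a basis
  have hbas : ∀ u : Fin q → ZZ e, LinearIndependent F (fun m => toMA (χ (u m))) →
      ∀ c : ZZ e, ∃ α : Fin q → F, ∑ m, α m • u m = c := by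
    intro u hu c
    let φ : ZZ e →ₗ[F] MonoidAlgebra F G :=
      (maE (F := F) (H := G)).toLinearMap ∘ₗ χ ∘ₗ (ZZ e).subtype
    have hu' : LinearIndependent F u := LinearIndependent.of_comp φ hu
    have hcard : Fintype.card (Fin q) = Module.finrank F (ZZ e) := by
      apply le_antisymm hu'.fintype_card_le_finrank
      rw [Fintype.card_fin]
      exact hfin
    have hsp := hu'.span_eq_top_of_card_eq_finrank' hcard
    have h1 : c ∈ Submodule.span F (Set.range u) := by
      rw [hsp]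
      exact Submodule.mem_top
    exact (Submodule.mem_span_range_iff_exists_fun F).1 h1
  have hinj : ∀ c ∈ ZZ e, toMA (χ c) = 0 → c = 0 := by
    intro c hc h0
    choose u hu1 hu2 hu3 using hχy
    have hu4 : (fun m : Fin q => toMA (χ (u m))) = fun m : Fin q => Y ^ (m : ℕ) * B := by
      funext m
      rw [hu3, hYm]
    obtain ⟨α, hα⟩ := hbas (fun m => ⟨u m, hu1 m, hu2 m⟩) (by
      change LinearIndependent F (fun m : Fin q => toMA (χ (u m)))
      rw [hu4]
      exact hLI) ⟨c, hc⟩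
    have hα' : ∑ m : Fin q, α m • u m = c := by
      have h9 := congrArg Subtype.val hα
      refine Eq.trans ?_ h9
      rw [Submodule.coe_sum]
      rfl
    have h1 := Fintype.linearIndependent_iff.1 hLI α (by
      rw [← h0, ← hα', map_sum, toMA_sum]
      refine Finset.sum_congr rfl fun m _ => ?_
      rw [map_smul, toMA_smul, hu3, hYm])
    rw [← hα']
    exact Finset.sum_eq_zero fun m _ => by rw [h1 m, zero_smul]
  obtain ⟨c₁, hc1, hc2, hc3⟩ := hχy 1
  set w : G → F := c₁ - e with hw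
  have hwZ : w ∈ ZZ e := (ZZ e).sub_mem ⟨hc1, hc2⟩ heZ
  have hχw : toMA (χ w) = (Y - 1) * B := by
    rw [hw, map_sub, toMA_sub, hc3, hYm, hχe, pow_one, sub_mul, one_mul]
  have hmul : ∀ c ∈ ZZ e, mulF w c ∈ ZZ e ∧ toMA (χ (mulF w c)) = (Y - 1) * toMA (χ c) := by
    intro c hc
    refine ⟨⟨isCl_mulF hwZ.1 hc.1, ?_⟩, ?_⟩
    · rw [← mulF_assoc, hwZ.2]
    · have h1 : B * toMA (χ c) = toMA (χ c) := by
        rw [hB, ← hχe, ← toMA_mulF, ← hχm e c heZ.1 hc.1 heZ.2 hc.2, hc.2]
      rw [hχm w c hwZ.1 hc.1 hwZ.2 hc.2, toMA_mulF, hχw, mul_assoc, h1]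
  have hpw : ∀ s : ℕ, pwF w s e ∈ ZZ e ∧ toMA (χ (pwF w s e)) = (Y - 1) ^ s * B := by
    intro s
    induction s with
    | zero =>
      rw [pwF_zero, pow_zero, one_mul, hχe]
      exact ⟨heZ, rfl⟩
    | succ s ih =>
      rw [pwF_succ, (hmul _ ih.1).2, ih.2, pow_succ', mul_assoc]
      exact ⟨(hmul _ ih.1).1, rfl⟩
  have hchar : CharP (MonoidAlgebra F G) ℓ :=
    charP_of_injective_algebraMap (FaithfulSMul.algebraMap_injective F (MonoidAlgebra F G)) ℓ
  have hfrob : ∀ k : ℕ, (Y - 1) ^ ℓ ^ k = Y ^ ℓ ^ k - 1 := by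
    intro k
    rw [sub_pow_char_pow_of_commute ℓ k (Commute.one_right Y), one_pow]
  have hYq : Y ^ q = 1 := by
    rw [hY, MonoidAlgebra.single_pow, one_pow, hq, ← hS.ord, pow_orderOf_eq_one]
    rfl
  have hpi : ∀ s : ℕ, pwF w s i = mulF (pwF w s e) i := by
    intro s
    apply toMA_injective
    rw [toMA_mulF, toMA_pwF, toMA_pwF, mul_assoc, ← toMA_mulF e i, hC.ei]
  refine ⟨w, ⟨?_, ?_, ?_, ?_, ?_, ?_, ?_, ?_, ?_, ?_, ?_, ?_, ?_⟩, ?_⟩
  · exact fun x hx => absurd (Subgroup.mem_top x) hx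
  · exact fun x hx => absurd (Subgroup.mem_top x) hx
  · exact fun x hx => absurd (Subgroup.mem_top x) hx
  · exact cmF_of_cl he.1 _
  · exact cmF_of_cl hwZ.1 _
  · exact he.2
  · exact hwZ.2
  · exact hC.ii
  · exact hC.ei
  · apply hinj _ (hpw q).1
    rw [(hpw q).2, hq, hfrob, ← hq, hYq, sub_self, zero_mul]
  · intro h0
    rw [hpi] at h0
    have h1 := hz2 _ (hpw (q - 1)).1.1 (hpw (q - 1)).1.2 h0
    have h2 : (Y - 1) ^ (q - 1) * B = 0 := by
      rw [← (hpw (q - 1)).2, h1, map_zero, toMA_zero]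
    have h3 : (Polynomial.X ^ (q - 1) : Polynomial F) = 0 := by
      apply pol' hLI
      · rw [Polynomial.natDegree_X_pow]
        omega
      · rw [map_pow, Polynomial.aeval_X, h2]
    exact pow_ne_zero _ Polynomial.X_ne_zero h3
  · intro a _
    have h1 : mulF i (mulF a i) ∈ crn i := by
      refine ⟨?_, ?_⟩
      · rw [← mulF_assoc i i, hC.ii]
      · rw [mulF_assoc i _ i, mulF_assoc a i i, hC.ii]
    obtain ⟨c, h2, h3, h4⟩ := hz1 _ h1
    have h5 : (fun m : Fin q => toMA (χ (pwF w (m : ℕ) e))) =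
        fun m : Fin q => (Y - 1) ^ (m : ℕ) * B := by
      funext m
      exact (hpw m).2
    obtain ⟨α, hα⟩ := hbas (fun m => ⟨pwF w (m : ℕ) e, (hpw m).1⟩) (by
      change LinearIndependent F (fun m : Fin q => toMA (χ (pwF w (m : ℕ) e)))
      rw [h5]
      exact li' hLI) ⟨c, h2, h3⟩
    have hα' : ∑ m : Fin q, α m • pwF w (m : ℕ) e = c := by
      have h9 := congrArg Subtype.val hα
      refine Eq.trans ?_ h9
      rw [Submodule.coe_sum]
      rfl
    refine ⟨fun s => if h : s < q then α ⟨s, h⟩ else 0, ?_⟩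
    rw [← h4, ← hα', Finset.sum_range, sum_mulF]
    refine Finset.sum_congr rfl fun m _ => ?_
    change _ = (if h : (m : ℕ) < q then α ⟨m, h⟩ else 0) • pwF w (m : ℕ) i
    rw [dif_pos m.2, smul_mulF, hpi]
  · obtain ⟨m, x, y', h1⟩ := hC.full
    exact ⟨m, x, y', fun k => ⟨fun x hx => absurd (Subgroup.mem_top x) hx,
      fun x hx => absurd (Subgroup.mem_top x) hx⟩, h1⟩
  · have hcen := hS.cen
    have hz : (fun g => e ((y ^ (ℓ ^ n))⁻¹ * g)) ∈ ZZ e := by
      refine ⟨?_, ?_⟩
      · intro x t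
        have h1 := Subgroup.mem_center_iff.1 (inv_mem hcen) t
        have h2 : (y ^ ℓ ^ n)⁻¹ * (t * x * t⁻¹) = t * ((y ^ ℓ ^ n)⁻¹ * x) * t⁻¹ := by
          rw [← mul_assoc, ← mul_assoc, ← h1]
          simp only [mul_assoc]
        change e ((y ^ ℓ ^ n)⁻¹ * (t * x * t⁻¹)) = e ((y ^ ℓ ^ n)⁻¹ * x)
        rw [h2]
        exact he.1 _ _
      · apply toMA_injective
        rw [toMA_mulF, ← single_mul_toMA, ← mul_assoc, (H20.isCl_iff e).1 he.1, mul_assoc,
          ← toMA_mulF, he.2]
    have h3 : pwF w (ℓ ^ n) e - ((fun g => e ((y ^ (ℓ ^ n))⁻¹ * g)) - e) = 0 := by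
      apply hinj
      · exact (ZZ e).sub_mem (hpw _).1 ((ZZ e).sub_mem hz heZ)
      · rw [map_sub, map_sub, toMA_sub, toMA_sub, (hpw _).2, hfrob, hχz _ hcen, hYm, hχe,
          sub_mul, one_mul, sub_self]
    exact sub_eq_zero.1 h3

end Pool.Agent.PP.CD2.H47
end
end -- Pool.Agent.Helper47_D2.Lf3

section -- Pool.Agent.Helper66_D2.Cle

/-!
# Part D2, module CLE: the conjugates of `w` under the normaliser of `P₁`
-/

open scoped BigOperators

set_option linter.unusedSectionVars false

noncomputable section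

namespace Pool.Agent.PP.CD2.H66

open Pool.Agent.PP Pool.Agent.Helper51_AWC Pool.Agent.Helper79_WRA Pool.Agent.PP.H20

variable {F : Type} [Field F] {G : Type} [Group G] [Finite G]

theorem conj_mem_C {N : Subgroup G} (hN : N.Normal) {y x c : G} (hx : x ∈ NY y)
    (hc : c ∈ N ⊓ CY y) : x⁻¹ * c * x ∈ N ⊓ CY y := by
  refine ⟨by simpa using hN.conj_mem c hc.1 x⁻¹, ?_⟩
  change x⁻¹ * c * x ∈ Subgroup.centralizer (Subgroup.zpowers y : Set G)
  rw [Subgroup.mem_centralizer_iff]
  intro z hz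
  have h1 : x * z * x⁻¹ ∈ Subgroup.zpowers y := (Subgroup.mem_normalizer_iff.1 hx z).1 hz
  have h2 := Subgroup.mem_centralizer_iff.1 hc.2 _ h1
  calc z * (x⁻¹ * c * x) = x⁻¹ * ((x * z * x⁻¹) * c) * x := by group
    _ = x⁻¹ * (c * (x * z * x⁻¹)) * x := by rw [h2]
    _ = x⁻¹ * c * x * z := by group

theorem conj_sp {N : Subgroup G} (hN : N.Normal) {y x : G} (hx : x ∈ NY y) {a : G → F}
    (ha : SpF (N ⊓ CY y) a) : SpF (N ⊓ CY y) (fun g => a (x⁻¹ * g * x)) := by
  intro g hg
  apply ha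
  intro h
  apply hg
  have := conj_mem_C hN (inv_mem hx) h
  have e : x⁻¹⁻¹ * (x⁻¹ * g * x) * x⁻¹ = g := by group
  rwa [e] at this

theorem conj_cm {N : Subgroup G} (hN : N.Normal) {y x : G} (hx : x ∈ NY y) {a : G → F}
    (ha : CmF (N ⊓ CY y) a) : CmF (N ⊓ CY y) (fun g => a (x⁻¹ * g * x)) := by
  intro c hc g
  have h := ha _ (conj_mem_C hN hx hc) (x⁻¹ * g * x)
  change a (x⁻¹ * (c * g * c⁻¹) * x) = a (x⁻¹ * g * x)
  rw [← h]
  congr 1
  group

theorem cle (hcen : CenStmt) : CleStmt := by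
  intro ℓ _ F _ hF G _ _ N hN y₁ b w q hb hq hw x hx
  have hsw := ums_sw hw
  have hcw := ums_cw hw
  have hbw := ums_w hw
  have hcb := ums_cb hw
  have hnil := ums_nil' hw hq
  obtain ⟨m, e, i, h1, h2, h3, h4⟩ := hw
  set C := N ⊓ CY y₁ with hC
  set w' : G → F := fun g => w (x⁻¹ * g * x) with hw'
  have hsw' : SpF C w' := conj_sp hN hx hsw
  have hcw' : CmF C w' := conj_cm hN hx hcw
  have hb1 : (fun g => bY y₁ b (x⁻¹ * g * x)) = bY y₁ b := by
    funext g
    have := bY_cm (y := y₁) (cmF_of_cl hb (⊤ : Subgroup G)) x⁻¹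
      ⟨Subgroup.mem_top _, (NY y₁).inv_mem hx⟩ g
    rwa [inv_inv] at this
  have hbw' : mulF (bY y₁ b) w' = w' := by
    have := conj_mulF x (bY y₁ b) w
    rw [hbw, hb1] at this
    exact this.symm
  have hnil' : toMA w' ^ q = 0 := by
    have : toMA w' = MonoidAlgebra.single x (1 : F) * toMA w * MonoidAlgebra.single x⁻¹ (1 : F) :=
      toMA_conj x w
    have key : ∀ s : ℕ, toMA w' ^ s =
        MonoidAlgebra.single x (1 : F) * toMA w ^ s * MonoidAlgebra.single x⁻¹ (1 : F) := by
      intro s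
      induction s with
      | zero => rw [pow_zero, pow_zero, mul_one, single_mul_single_inv]
      | succ s ih =>
        rw [pow_succ, ih, this, pow_succ]
        have h : (MonoidAlgebra.single x (1 : F) * toMA w ^ s * MonoidAlgebra.single x⁻¹ (1 : F)) *
            (MonoidAlgebra.single x (1 : F) * toMA w * MonoidAlgebra.single x⁻¹ (1 : F)) =
            MonoidAlgebra.single x (1 : F) * toMA w ^ s * ((MonoidAlgebra.single x⁻¹ (1 : F) *
            MonoidAlgebra.single x (1 : F)) * (toMA w * MonoidAlgebra.single x⁻¹ (1 : F))) := by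
          simp only [mul_assoc]
        rw [h, single_inv_mul_single, one_mul]
        simp only [mul_assoc]
    rw [key, hnil, mul_zero, zero_mul]
  obtain ⟨r, rfl⟩ : ∃ r, q = r + 1 := ⟨q - 1, by omega⟩
  have key : ∀ t, ∃ v : G → F, SpF C v ∧ CmF C v ∧ mulF (e t) v = v ∧
      mulF (e t) w' = mulF (mulF (e t) w) v := by
    intro t
    have ht := h1 t
    obtain ⟨α, hα⟩ := hcen F G C (e t) (mulF (e t) w) (i t) (r + 1) ht (mulF (e t) w')
      (ht.sb.mul hsw') (ht.cb.mul hcw') (by rw [← mulF_assoc, ht.bb])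
    set v : G → F := ∑ s ∈ Finset.range r, α (s + 1) • pwF (mulF (e t) w) s (e t) with hv
    have hsv : SpF C v := SpF.sum fun s _ => SpF.smul _ (SpF.pwF ht.sw ht.sb s)
    have hcv : CmF C v := CmF.sum fun s _ => CmF.smul _ (CmF.pwF ht.cw ht.cb s)
    have h5 : mulF (e t) w' = mulF (mulF (e t) w) v + α 0 • e t := by
      rw [hα, Finset.sum_range_succ']
      congr 1
      apply toMA_injective
      rw [toMA_sum', toMA_mulF, hv, toMA_sum', Finset.mul_sum]
      refine Finset.sum_congr rfl fun s _ => ?_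
      rw [toMA_smul, toMA_smul, pwF_succ, toMA_mulF, mul_smul_comm]
    have h6 : α 0 = 0 := by
      by_contra h0
      have n1 : IsNilpotent (toMA (mulF (e t) w')) := by
        rw [toMA_mulF]
        have hc : Commute (toMA (e t)) (toMA w') := comm_of ht.cb hsw'
        exact hc.isNilpotent_mul_left ⟨_, hnil'⟩
      have n2 : IsNilpotent (toMA (mulF (mulF (e t) w) v)) := by
        rw [toMA_mulF]
        have hc : Commute (toMA (mulF (e t) w)) (toMA v) := comm_of ht.cw hsv
        refine hc.isNilpotent_mul_right ?_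
        rw [toMA_mulF]
        have hc2 : Commute (toMA (e t)) (toMA w) := comm_of ht.cb hsw
        exact hc2.isNilpotent_mul_left ⟨_, hnil⟩
      have n3 : IsNilpotent (toMA (mulF (e t) w') - toMA (mulF (mulF (e t) w) v)) := by
        refine Commute.isNilpotent_sub ?_ n1 n2
        exact comm_of (ht.cb.mul hcw') (ht.sw.mul hsv)
      have n4 : toMA (mulF (e t) w') - toMA (mulF (mulF (e t) w) v) = α 0 • toMA (e t) := by
        rw [h5, toMA_add, toMA_smul]
        abel
      rw [n4] at n3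
      obtain ⟨k, hk⟩ := n3
      rw [smul_pow] at hk
      have h7 : toMA (e t) ^ k = 0 := by
        rcases smul_eq_zero.1 hk with h | h
        · exact absurd h (pow_ne_zero _ h0)
        · exact h
      have h8 : toMA (e t) * toMA (e t) = toMA (e t) := by rw [← toMA_mulF, ht.bb]
      have h9 : toMA (e t) = 0 := by
        rcases Nat.eq_zero_or_pos k with rfl | hk0
        · rw [pow_zero] at h7
          rw [← mul_one (toMA (e t)), h7, mul_zero]
        · rwa [IsIdempotentElem.pow_eq (n := k) h8 (by omega)] at h7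
      have h10 : e t = 0 := toMA_injective (h9.trans toMA_zero.symm)
      apply ht.nz
      have h11 : i t = 0 := by rw [← ht.bi, h10, zero_mulF]
      rw [h11]
      apply toMA_injective
      rw [toMA_pwF, toMA_zero, mul_zero]
    refine ⟨v, hsv, hcv, ?_, ?_⟩
    · apply toMA_injective
      rw [toMA_mulF, hv, toMA_sum', Finset.mul_sum]
      refine Finset.sum_congr rfl fun s _ => ?_
      have hp : mulF (e t) (pwF (mulF (e t) w) s (e t)) = pwF (mulF (e t) w) s (e t) := by
        rw [umf_pw ht.bb ht.cb hsw, ← mulF_assoc, ht.bb]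
      rw [toMA_smul, mul_smul_comm, ← toMA_mulF, hp]
    · rw [h5, h6, zero_smul, add_zero]
  choose v hsv hcv hev hwv using key
  refine ⟨∑ t, v t, SpF.sum fun t _ => hsv t, CmF.sum fun t _ => hcv t, ?_⟩
  change w' = _
  rw [mulF_sum]
  calc w' = mulF (bY y₁ b) w' := hbw'.symm
    _ = ∑ t, mulF (e t) w' := by rw [← h3, sum_mulF]
    _ = ∑ t, mulF w (v t) := by
      refine Finset.sum_congr rfl fun t _ => ?_
      rw [hwv, cm_comm (h1 t).cb hsw, mulF_assoc, hev]

end Pool.Agent.PP.CD2.H66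
end
end -- Pool.Agent.Helper66_D2.Cle

section -- Pool.Agent.Helper76_D2.Mpj

/-!
# Squad PP, part D2, module MPJ: the module `M` is projective
-/

open scoped BigOperators

set_option autoImplicit false
set_option linter.unusedSectionVars false

noncomputable section

namespace Pool.Agent.PP.CD2.H76

open Pool.Agent.PP Pool.Agent.Helper51_AWC Pool.Agent.Helper79_WRA Pool.Agent.PP.H20
open Pool.Agent.PP.CD2 Pool.Agent.PP.CD2.H66

variable {F : Type} [Field F] {G : Type} [Group G] [Finite G]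

/-- left translation -/
def LT (g : G) : (G → F) →ₗ[F] (G → F) where
  toFun x := fun y => x (g⁻¹ * y)
  map_add' _ _ := rfl
  map_smul' _ _ := rfl

theorem LT_apply (g : G) (x : G → F) : LT g x = fun y => x (g⁻¹ * y) := rfl

theorem toMA_LT (g : G) (x : G → F) : toMA (LT g x) = MonoidAlgebra.single g (1 : F) * toMA x := by
  rw [single_mul_toMA, LT_apply]

/-- the left ideal `b x = x = x i` -/
def VS (b i : G → F) : Submodule F (G → F) where
  carrier := {x | mulF b x = x ∧ mulF x i = x}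
  add_mem' := by
    rintro x y ⟨h1, h2⟩ ⟨h3, h4⟩
    exact ⟨by rw [mulF_add, h1, h3], by rw [add_mulF, h2, h4]⟩
  zero_mem' := ⟨mulF_zero _, zero_mulF _⟩
  smul_mem' := by
    rintro c x ⟨h1, h2⟩
    exact ⟨by rw [mulF_smul, h1], by rw [smul_mulF, h2]⟩

theorem mem_VS {b i x : G → F} : x ∈ VS b i ↔ mulF b x = x ∧ mulF x i = x := Iff.rfl

theorem LT_mem {b i : G → F} (hb : IsCl b) (g : G) {x : G → F} (hx : x ∈ VS b i) :
    LT g x ∈ VS b i := by
  obtain ⟨h1, h2⟩ := hx
  constructor
  · apply toMA_injective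
    rw [toMA_mulF, toMA_LT, ← mul_assoc, (H20.isCl_iff b).1 hb, mul_assoc, ← toMA_mulF, h1]
  · apply toMA_injective
    rw [toMA_mulF, toMA_LT, mul_assoc, ← toMA_mulF, h2]

/-- the representation on the left ideal -/
def rV {b : G → F} (hb : IsCl b) (i : G → F) : Representation F G (VS b i) where
  toFun g := (LT g).restrict fun x hx => LT_mem hb g hx
  map_one' := by
    ext x y
    simp [LT]
  map_mul' g h := by
    ext x y
    simp [LT, mul_assoc]

theorem rV_coe {b : G → F} (hb : IsCl b) (i : G → F) (g : G) (x : VS b i) :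
    ((rV hb i g x : VS b i) : G → F) = LT g (x : G → F) := rfl

theorem evV_coe {b : G → F} (hb : IsCl b) (i a : G → F) (x : VS b i) :
    ((evV (rV hb i) a x : VS b i) : G → F) = mulF a (x : G → F) := by
  have := Fintype.ofFinite G
  rw [D66.evV_apply]
  funext y
  rw [AddSubmonoidClass.coe_finsetSum, Finset.sum_apply, mulF, finsum_eq_sum_of_fintype]
  refine Finset.sum_congr rfl fun g _ => ?_
  rfl

/-- the endomorphism `x ↦ x(1) b i` -/
def psi {b i : G → F} (h : mulF b i ∈ VS b i) : VS b i →ₗ[F] VS b i where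
  toFun x := (x : G → F) 1 • (⟨mulF b i, h⟩ : VS b i)
  map_add' x y := by
    rw [← add_smul]
    rfl
  map_smul' c x := by
    rw [RingHom.id_apply, smul_smul]
    rfl

theorem pjR {b i : G → F} (hb : IsIdem b) (hi : mulF i i = i) : PjR b (rV hb.1 i) := by
  have := Fintype.ofFinite G
  have hbi : mulF b i ∈ VS b i := by
    refine ⟨?_, ?_⟩
    · rw [← mulF_assoc, hb.2]
    · rw [mulF_assoc, hi]
  refine ⟨?_, psi hbi, ?_⟩
  · intro v
    apply Subtype.ext
    rw [evV_coe]
    exact v.2.1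
  · rw [finsum_eq_sum_of_fintype]
    ext1 x
    apply Subtype.ext
    rw [LinearMap.sum_apply, AddSubmonoidClass.coe_finsetSum, LinearMap.id_apply]
    have h1 : ∀ g : G, (((rV hb.1 i g ∘ₗ psi hbi ∘ₗ rV hb.1 i g⁻¹) x : VS b i) : G → F) =
        (x : G → F) g • LT g (mulF b i) := by
      intro g
      rw [LinearMap.comp_apply, LinearMap.comp_apply, rV_coe]
      have h2 : ((psi hbi (rV hb.1 i g⁻¹ x) : VS b i) : G → F) =
          (x : G → F) g • mulF b i := by
        change ((rV hb.1 i g⁻¹ x : VS b i) : G → F) 1 • mulF b i = _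
        rw [rV_coe, LT_apply]
        simp only [inv_inv, mul_one]
      rw [h2, map_smul]
    rw [Finset.sum_congr rfl fun g _ => h1 g]
    have h3 : ∑ g : G, (x : G → F) g • LT g (mulF b i) = mulF (x : G → F) (mulF b i) := by
      funext y
      rw [Finset.sum_apply, mulF, finsum_eq_sum_of_fintype]
      refine Finset.sum_congr rfl fun g _ => ?_
      rfl
    rw [h3, ← mulF_assoc, ← mulF_comm_of_cl hb.1, x.2.1, x.2.2]

theorem mpj : MpjStmt := by
  intro F _ G _ _ b i i' hb hi hbi' hi' c hc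
  have h1 := hc (VS b i) (rV hb.1 i) (pjR hb hi)
  have h2 : Submodule.span F {x : G → F | mulF i' x = x ∧ mulF x i = x} =
      (LinearMap.range (evV (rV hb.1 i) i')).map (VS b i).subtype := by
    apply le_antisymm
    · rw [Submodule.span_le]
      rintro x ⟨hx1, hx2⟩
      have hxb : mulF b x = x := by
        rw [← hx1, ← mulF_assoc, hbi']
      refine ⟨⟨x, hxb, hx2⟩, ⟨⟨x, hxb, hx2⟩, ?_⟩, rfl⟩
      apply Subtype.ext
      rw [evV_coe]
      exact hx1
    · rintro _ ⟨_, ⟨x, rfl⟩, rfl⟩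
      apply Submodule.subset_span
      refine ⟨?_, ?_⟩
      · rw [Submodule.subtype_apply, evV_coe, ← mulF_assoc, hi']
      · rw [Submodule.subtype_apply, evV_coe, mulF_assoc, x.2.2]
  rw [h2, Submodule.finrank_map_subtype_eq]
  exact h1

end Pool.Agent.PP.CD2.H76
end
end -- Pool.Agent.Helper76_D2.Mpj

section -- Pool.Agent.Helper89_D2.Corner

/-!
# Squad PP, part D2: projective modules and a local corner (abstract part of PCV)
-/

open scoped BigOperators

noncomputable section

namespace Pool.Agent.PP.CD2.H89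

variable {F A : Type} [Field F] [Ring A] [Algebra F A]

/-- the vectors fixed by `e` -/
def fx (e : A) (V : Type) [AddCommGroup V] [Module F V] [Module A V] [IsScalarTower F A V] :
    Submodule F V where
  carrier := {v | e • v = v}
  add_mem' := by
    intro a c ha hc
    change e • (a + c) = a + c
    rw [smul_add]
    rw [show e • a = a from ha, show e • c = c from hc]
  zero_mem' := smul_zero e
  smul_mem' := by
    intro c v hv
    change e • (c • v) = c • v
    rw [smul_algebra_smul_comm, show e • v = v from hv]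

theorem mem_fx {e : A} {V : Type} [AddCommGroup V] [Module F V] [Module A V]
    [IsScalarTower F A V] {v : V} : v ∈ fx (F := F) e V ↔ e • v = v := Iff.rfl

variable (F) in
/-- the corner -/
def ce (e : A) : Submodule F A where
  carrier := {a | e * a = a ∧ a * e = a}
  add_mem' := by
    rintro a c ⟨h1, h2⟩ ⟨h3, h4⟩
    exact ⟨by rw [mul_add, h1, h3], by rw [add_mul, h2, h4]⟩
  zero_mem' := ⟨mul_zero _, zero_mul _⟩
  smul_mem' := by
    rintro c a ⟨h1, h2⟩
    exact ⟨by rw [mul_smul_comm, h1], by rw [smul_mul_assoc, h2]⟩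

theorem mem_ce {e a : A} : a ∈ ce F e ↔ e * a = a ∧ a * e = a := Iff.rfl

/-- the left ideal of the elements with `a e = a` -/
def le (e : A) : Submodule A A where
  carrier := {a | a * e = a}
  add_mem' := by
    intro a c ha hc
    change (a + c) * e = a + c
    rw [add_mul, show a * e = a from ha, show c * e = c from hc]
  zero_mem' := zero_mul e
  smul_mem' := by
    intro c a ha
    change c * a * e = c * a
    rw [mul_assoc, show a * e = a from ha]

theorem mem_le {e a : A} : a ∈ le e ↔ a * e = a := Iff.rfl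

/-- a basis of a subspace modulo another subspace -/
theorem exists_xi {V : Type} [AddCommGroup V] [Module F V] [FiniteDimensional F V]
    (U T : Submodule F V) : ∃ (r : ℕ) (ξ : Fin r → V), (∀ k, ξ k ∈ U) ∧
    (∀ α : Fin r → F, ∑ k, α k • ξ k ∈ T → ∀ k, α k = 0) ∧
    ∀ u ∈ U, ∃ α : Fin r → F, u - ∑ k, α k • ξ k ∈ T := by
  obtain ⟨S, hS⟩ := Submodule.exists_isCompl (T.comap U.subtype)
  let β := Module.finBasis F S
  refine ⟨_, fun k => ((β k : U) : V), fun k => (β k : U).2, ?_, ?_⟩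
  · intro α hα
    have h1 : (∑ k, α k • (β k : U)) ∈ T.comap U.subtype := by
      rw [Submodule.mem_comap, map_sum]
      exact hα
    have h2 : (∑ k, α k • (β k : U)) ∈ S :=
      Submodule.sum_mem _ fun k _ => Submodule.smul_mem _ _ (β k).2
    have h3 : (∑ k, α k • (β k : U)) = 0 := by
      have := hS.disjoint.le_bot ⟨h1, h2⟩
      exact this
    have h4 : (∑ k, α k • β k) = 0 := by
      apply Subtype.ext
      change S.subtype _ = 0
      rw [map_sum]
      exact h3
    exact fun k => (Fintype.linearIndependent_iff.1 β.linearIndependent) α h4 k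
  · intro u hu
    have h1 : (⟨u, hu⟩ : U) ∈ T.comap U.subtype ⊔ S := by
      rw [hS.sup_eq_top]
      trivial
    obtain ⟨t, ht, s, hs, hts⟩ := Submodule.mem_sup.1 h1
    refine ⟨fun k => β.repr ⟨s, hs⟩ k, ?_⟩
    have h2 : ∑ k, β.repr ⟨s, hs⟩ k • β k = ⟨s, hs⟩ := β.sum_repr _
    have h3 : ∑ k, β.repr ⟨s, hs⟩ k • ((β k : U) : V) = (s : V) := by
      have := congrArg (fun z : S => ((z : U) : V)) h2
      change (U.subtype ∘ₗ S.subtype) (∑ k, β.repr ⟨s, hs⟩ k • β k) = _ at this
      rw [map_sum] at this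
      exact this
    rw [h3]
    have h4 : u - (s : V) = (t : V) := by
      have := congrArg (fun z : U => (z : V)) hts
      change (t : V) + (s : V) = u at this
      rw [← this, add_sub_cancel_right]
    rw [h4]
    exact ht

variable {V : Type} [AddCommGroup V] [Module F V] [Module A V] [IsScalarTower F A V]

theorem fx_pi [FiniteDimensional F A] (e : A) (r : ℕ) :
    Module.finrank F (fx (F := F) e (Fin r → le e)) = r * Module.finrank F (ce F e) := by
  let Θ : fx (F := F) e (Fin r → le e) ≃ₗ[F] (Fin r → ce F e) :=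
    { toFun := fun u k => ⟨(u.1 k : A), by
        have h1 := congrFun (mem_fx.1 u.2) k
        exact ⟨congrArg Subtype.val h1, (u.1 k).2⟩⟩
      invFun := fun u => ⟨fun k => ⟨(u k : A), (mem_ce.1 (u k).2).2⟩, by
        rw [mem_fx]
        funext k
        exact Subtype.ext (mem_ce.1 (u k).2).1⟩
      left_inv := fun u => rfl
      right_inv := fun u => rfl
      map_add' := fun u v => rfl
      map_smul' := fun c u => rfl }
  rw [Θ.finrank_eq, Module.finrank_pi_fintype, Finset.sum_const, Finset.card_univ, Fintype.card_fin,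
    smul_eq_mul]

theorem sum_sg (e : A) (hle : e ∈ le e) {r : ℕ} (u : Fin r → le e) :
    u = ∑ k, (u k : A) • (Pi.single k (⟨e, hle⟩ : le e) : Fin r → le e) := by
  funext j
  rw [Finset.sum_apply, Finset.sum_eq_single j]
  · rw [Pi.smul_apply, Pi.single_eq_same]
    exact Subtype.ext (mem_le.1 (u j).2).symm
  · intro k _ hk
    rw [Pi.smul_apply, Pi.single_eq_of_ne (Ne.symm hk), smul_zero]
  · intro h
    exact absurd (Finset.mem_univ _) h

theorem sum_f (e : A) (hle : e ∈ le e) {r : ℕ} {M : Type} [AddCommGroup M] [Module A M]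
    (f : (Fin r → le e) →ₗ[A] M) (u : Fin r → le e) :
    f u = ∑ k, (u k : A) • f (Pi.single k (⟨e, hle⟩ : le e)) := by
  have h := congrArg f (sum_sg e hle u)
  rw [map_sum] at h
  refine h.trans (Finset.sum_congr rfl fun k _ => ?_)
  exact map_smul f _ _

theorem abs_pcv [FiniteDimensional F A] [FiniteDimensional F V] (e : A) (he : e * e = e)
    (h1 : ∀ a : A, e * a = a → a * e = a → ∃ α : F, a - α • e ∈ Ring.jacobson A)
    (m : ℕ) (x y : Fin m → A) (hV : ∀ v : V, (∑ k, x k * e * y k) • v = v)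
    (hA : ∀ a : A, (∑ k, x k * e * y k) * (a * e) = a * e) [Module.Projective A V] :
    Module.finrank F (ce F e) ∣ Module.finrank F (fx (F := F) e V) := by
  have hfV : Module.Finite A V := Module.Finite.of_restrictScalars_finite F A V
  obtain ⟨r, ξ, hξ1, hξ2, hξ3⟩ := exists_xi (fx (F := F) e V)
    ((Ring.jacobson A • (⊤ : Submodule A V)).restrictScalars F)
  have hmem : ∀ (M : Type) [AddCommGroup M] [Module A M] (W : Submodule A M),
      (∀ v ∈ W, (∑ k, x k * e * y k) • v = v) →
      (∀ v ∈ W, e • v = v → v ∈ Ring.jacobson A • W) → W ≤ Ring.jacobson A • W := by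
    intro M _ _ W hb hW v hv
    rw [← hb v hv, Finset.sum_smul]
    refine Submodule.sum_mem _ fun k _ => ?_
    rw [mul_smul, mul_smul]
    refine Submodule.smul_mem _ _ (hW _ (W.smul_mem _ (W.smul_mem _ hv)) ?_)
    rw [← mul_smul, he]
  let Φ : (Fin r → le e) →ₗ[A] V := ∑ k, (LinearMap.toSpanSingleton A V (ξ k)) ∘ₗ
    (le e).subtype ∘ₗ LinearMap.proj k
  have hΦ : ∀ u, Φ u = ∑ k, (u k : A) • ξ k := by
    intro u
    rw [LinearMap.sum_apply]
    rfl
  have hle : e ∈ le e := he
  -- surjectivity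
  have hsur : LinearMap.range Φ = ⊤ := by
    have hN : (⊤ : Submodule A (V ⧸ LinearMap.range Φ)) = ⊥ := by
      have hfg : (⊤ : Submodule A (V ⧸ LinearMap.range Φ)).FG := Module.finite_def.1 inferInstance
      refine hfg.eq_bot_of_le_jacobson_smul (hmem _ _ ?_ ?_)
      · rintro v -
        obtain ⟨v, rfl⟩ := Submodule.mkQ_surjective _ v
        rw [← map_smul, hV]
      · rintro v - hv
        obtain ⟨v, rfl⟩ := Submodule.mkQ_surjective _ v
        have h2 : (LinearMap.range Φ).mkQ v = (LinearMap.range Φ).mkQ (e • v) := by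
          rw [map_smul]
          exact hv.symm
        rw [h2]
        obtain ⟨α, hα⟩ := hξ3 (e • v) (by rw [mem_fx, ← mul_smul, he])
        have h3 : ∑ k, α k • ξ k ∈ LinearMap.range Φ := by
          refine ⟨fun k => α k • ⟨e, hle⟩, ?_⟩
          rw [hΦ]
          refine Finset.sum_congr rfl fun k _ => ?_
          change (α k • e) • ξ k = _
          rw [smul_assoc, mem_fx.1 (hξ1 k)]
        have h4 : (LinearMap.range Φ).mkQ (e • v) =
            (LinearMap.range Φ).mkQ (e • v - ∑ k, α k • ξ k) := by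
          have h3' : (LinearMap.range Φ).mkQ (∑ k, α k • ξ k) = 0 :=
            (Submodule.Quotient.mk_eq_zero _).2 h3
          rw [map_sub, h3', sub_zero]
        rw [h4]
        have h5 : (LinearMap.range Φ).mkQ (e • v - ∑ k, α k • ξ k) ∈
            (Ring.jacobson A • (⊤ : Submodule A V)).map (LinearMap.range Φ).mkQ :=
          ⟨_, hα, rfl⟩
        rw [Submodule.map_smul''] at h5
        exact (Submodule.smul_mono le_rfl le_top) h5
    rw [eq_top_iff]
    rintro v -
    have h2 : (LinearMap.range Φ).mkQ v ∈ (⊤ : Submodule A (V ⧸ LinearMap.range Φ)) := trivial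
    rw [hN] at h2
    exact (Submodule.Quotient.mk_eq_zero _).1 h2
  obtain ⟨s, hs⟩ := Module.projective_lifting_property Φ LinearMap.id
    (LinearMap.range_eq_top.1 hsur)
  have hs' : ∀ v, Φ (s v) = v := fun v => LinearMap.congr_fun hs v
  -- the kernel
  have hfin : Module.Finite A (Fin r → le e) := Module.Finite.of_restrictScalars_finite F A _
  let π : (Fin r → le e) →ₗ[A] (Fin r → le e) := LinearMap.id - s ∘ₗ Φ
  have hπ : ∀ u, π u ∈ LinearMap.ker Φ := by
    intro u
    change Φ (u - s (Φ u)) = 0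
    rw [map_sub, hs', sub_self]
  have hker : LinearMap.ker Φ = ⊥ := by
    have hfg : (LinearMap.ker Φ).FG := by
      have : IsNoetherian A (Fin r → le e) := isNoetherian_of_tower F inferInstance
      exact IsNoetherian.noetherian _
    refine hfg.eq_bot_of_le_jacobson_smul (hmem _ _ ?_ ?_)
    · intro u _
      funext k
      apply Subtype.ext
      change (∑ k, x k * e * y k) * (u k : A) = u k
      have := hA (u k : A)
      rwa [(mem_le.1 (u k).2)] at this
    · intro u hu heu
      have h2 : ∀ k, e * (u k : A) = u k := fun k => congrArg Subtype.val (congrFun heu k)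
      have h3 : ∀ k, (u k : A) * e = u k := fun k => (u k).2
      choose α hα using fun k => h1 (u k : A) (h2 k) (h3 k)
      have h4 : ∑ k, α k • ξ k ∈ (Ring.jacobson A • (⊤ : Submodule A V)).restrictScalars F := by
        have h5 : ∑ k, α k • ξ k = - ∑ k, ((u k : A) - α k • e) • ξ k := by
          have h6 : ∑ k, (u k : A) • ξ k = 0 := by
            rw [← hΦ]
            exact hu
          have h7 : ∑ k, ((u k : A) - α k • e) • ξ k = ∑ k, (u k : A) • ξ k - ∑ k, α k • ξ k := by
            rw [← Finset.sum_sub_distrib]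
            refine Finset.sum_congr rfl fun k _ => ?_
            rw [sub_smul, smul_assoc, mem_fx.1 (hξ1 k)]
          rw [h7, h6, zero_sub, neg_neg]
        have h6 : ∑ k, ((u k : A) - α k • e) • ξ k ∈ Ring.jacobson A • (⊤ : Submodule A V) :=
          Submodule.sum_mem _ fun k _ => Submodule.smul_mem_smul (hα k) Submodule.mem_top
        have h7 : - ∑ k, ((u k : A) - α k • e) • ξ k ∈ Ring.jacobson A • (⊤ : Submodule A V) :=
          Submodule.neg_mem _ h6
        rw [h5]
        exact h7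
      have h5 : ∀ k, (u k : A) ∈ Ring.jacobson A := by
        intro k
        have := hα k
        rwa [hξ2 α h4 k, zero_smul, sub_zero] at this
      have h6 : π u = u := by
        change u - s (Φ u) = u
        rw [show Φ u = 0 from hu, map_zero, sub_zero]
      have h7 := sum_f e hle π u
      rw [h6] at h7
      rw [h7]
      exact Submodule.sum_mem _ fun k _ => Submodule.smul_mem_smul (h5 k) (hπ _)
  -- the dimension
  have hbij : Function.Bijective Φ := ⟨LinearMap.ker_eq_bot.1 hker, LinearMap.range_eq_top.1 hsur⟩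
  let Ψ : (Fin r → le e) ≃ₗ[A] V := LinearEquiv.ofBijective Φ hbij
  have hmap : (fx (F := F) e (Fin r → le e)).map
      ((Ψ.restrictScalars F : (Fin r → le e) ≃ₗ[F] V) : (Fin r → le e) →ₗ[F] V) =
      fx (F := F) e V := by
    ext v
    constructor
    · rintro ⟨u, hu, rfl⟩
      change e • Ψ u = Ψ u
      rw [← map_smul, mem_fx.1 hu]
    · intro hv
      refine ⟨Ψ.symm v, ?_, Ψ.apply_symm_apply v⟩
      change e • Ψ.symm v = Ψ.symm v
      rw [← map_smul, mem_fx.1 hv]
  have h2 : Module.finrank F (fx (F := F) e V) =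
      Module.finrank F (fx (F := F) e (Fin r → le e)) := by
    rw [← hmap]
    exact LinearEquiv.finrank_map_eq (Ψ.restrictScalars F) _
  rw [h2, fx_pi e r]
  exact Dvd.intro_left _ rfl

end Pool.Agent.PP.CD2.H89
end
end -- Pool.Agent.Helper89_D2.Corner

section -- Pool.Agent.Helper89_D2.Pcv

/-!
# Squad PP, part D2: PCV
-/

open scoped BigOperators

set_option linter.unusedSectionVars false

noncomputable section

namespace Pool.Agent.PP.CD2.H89

open Pool.Agent.PP Pool.Agent.Helper51_AWC Pool.Agent.Helper79_WRA Pool.Agent.PP.H20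

variable {F : Type} [Field F] {G : Type} [Group G] [Finite G]

/-- a matrix below an idempotent matrix of rank one is a multiple of it -/
theorem rank_one {k : ℕ} {E B : Matrix (Fin k) (Fin k) F} (hr : E.rank = 1) (hB : E * B = B)
    (hB' : B * E = B) : ∃ α : F, B = α • E := by
  obtain ⟨⟨t, ht⟩, -, h1⟩ := finrank_eq_one_iff'.1 (show Module.finrank F
    (LinearMap.range E.mulVecLin) = 1 from hr)
  have h2 : ∀ v, ∃ c : F, c • t = E.mulVec v := by
    intro v
    obtain ⟨c, hc⟩ := h1 ⟨E.mulVec v, ⟨v, rfl⟩⟩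
    exact ⟨c, congrArg Subtype.val hc⟩
  obtain ⟨α, hα⟩ := h2 (B.mulVec t)
  rw [Matrix.mulVec_mulVec, hB] at hα
  refine ⟨α, ?_⟩
  have h3 : ∀ v, B.mulVec v = (α • E).mulVec v := by
    intro v
    obtain ⟨c, hc⟩ := h2 v
    rw [Matrix.smul_mulVec, ← hc]
    have h4 : B.mulVec v = B.mulVec (E.mulVec v) := by rw [Matrix.mulVec_mulVec, hB']
    rw [h4, ← hc, Matrix.mulVec_smul, ← hα, smul_comm]
  apply Matrix.mulVec_injective
  funext v
  exact h3 v

/-- an element which vanishes on the irreducible representation over `b` is in the radical -/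
theorem mem_jac {ℓ : ℕ} (hF : GoodF ℓ F) {b : G → F} (hb : IsIdem b) {k : ℕ}
    {σ : G →* Matrix (Fin k) (Fin k) F} (hσ : Uq b σ) {z : MonoidAlgebra F G}
    (hz : toMA b * z = z) (h0 : repA σ z = 0) : z ∈ Ring.jacobson (MonoidAlgebra F G) := by
  have := hF.closed
  rw [← H94.inJ_iff]
  intro n ρ hρ
  obtain ⟨c, hc, -, hc'⟩ := eig F G n ρ hρ b hb.1
  have e1 : repA ρ (toMA b) = ev ρ b := lift_toMA ρ b
  rcases hc' hb with hw | hw
  · have h1 : ev ρ b = 0 := by
      rw [hc, hw, map_zero]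
    rw [← hz, map_mul, e1, h1, zero_mul]
  · have h1 : ev ρ b = 1 := by
      rw [hc, hw, map_one]
    obtain ⟨X, Y, hnm, hXY, hYX, hX⟩ := ibc ℓ F hF G n k ρ σ hρ hσ.irr (hσ.uniq n ρ hρ h1)
    have h2 : ∀ a : MonoidAlgebra F G, X * repA ρ a = repA σ a * X := by
      intro a
      induction a using MonoidAlgebra.induction_linear with
      | zero => rw [map_zero, map_zero, Matrix.mul_zero, Matrix.zero_mul]
      | add x y hx hy => rw [map_add, map_add, Matrix.mul_add, Matrix.add_mul, hx, hy]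
      | single g c =>
        rw [repA_single, repA_single, Matrix.mul_smul, Matrix.smul_mul, hX g]
    have h3 := h2 z
    rw [h0, Matrix.zero_mul] at h3
    have h4 : repA ρ z = Y * (X * repA ρ z) := by
      rw [← Matrix.mul_assoc, hYX, Matrix.one_mul]
    rw [h4, h3, Matrix.mul_zero]

section proj

variable {V : Type} [AddCommGroup V] [Module F V] [Module (MonoidAlgebra F G) V]
  [IsScalarTower F (MonoidAlgebra F G) V]

theorem lin_of_single {M : Type} [AddCommGroup M] [Module F M] [Module (MonoidAlgebra F G) M]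
    [IsScalarTower F (MonoidAlgebra F G) M] (f : V →ₗ[F] M)
    (h : ∀ (x : G) v, f (MonoidAlgebra.single x (1 : F) • v) =
      MonoidAlgebra.single x (1 : F) • f v) (a : MonoidAlgebra F G) (v : V) :
    f (a • v) = a • f v := by
  induction a using MonoidAlgebra.induction_linear with
  | zero => rw [zero_smul, zero_smul, map_zero]
  | add x y hx hy => rw [add_smul, add_smul, map_add, hx, hy]
  | single g r =>
    have e : MonoidAlgebra.single g r = r • (MonoidAlgebra.single g 1 : MonoidAlgebra F G) := by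
      rw [MonoidAlgebra.smul_single, smul_eq_mul, mul_one]
    rw [e, smul_assoc, smul_assoc, map_smul, h]

theorem proj_of [Fintype G] (ψ : V →ₗ[F] V) (h : ∀ v : V, ∑ g : G,
    (MonoidAlgebra.single g (1 : F) : MonoidAlgebra F G) • ψ
      ((MonoidAlgebra.single g⁻¹ (1 : F) : MonoidAlgebra F G) • v) = v) :
    Module.Projective (MonoidAlgebra F G) V := by
  let p : (V →₀ MonoidAlgebra F G) →ₗ[MonoidAlgebra F G] V :=
    Finsupp.linearCombination (MonoidAlgebra F G) (id : V → V)
  have hp : Function.Surjective p := by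
    intro v
    refine ⟨Finsupp.single v 1, ?_⟩
    change Finsupp.linearCombination (MonoidAlgebra F G) (id : V → V) (Finsupp.single v 1) = v
    rw [Finsupp.linearCombination_single, one_smul]
    rfl
  obtain ⟨s₀, hs₀⟩ := LinearMap.exists_rightInverse_of_surjective (p.restrictScalars F)
    (LinearMap.range_eq_top.2 hp)
  have hs₁ : ∀ v, p (s₀ v) = v := fun v => LinearMap.congr_fun hs₀ v
  let act : G → V →ₗ[F] V := fun g =>
    { toFun := fun v => (MonoidAlgebra.single g (1 : F) : MonoidAlgebra F G) • v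
      map_add' := fun v w => smul_add _ _ _
      map_smul' := fun c v => smul_algebra_smul_comm c _ v }
  let act' : G → (V →₀ MonoidAlgebra F G) →ₗ[F] (V →₀ MonoidAlgebra F G) := fun g =>
    { toFun := fun v => (MonoidAlgebra.single g (1 : F) : MonoidAlgebra F G) • v
      map_add' := fun v w => smul_add _ _ _
      map_smul' := fun c v => smul_algebra_smul_comm c _ v }
  let s₂ : V →ₗ[F] (V →₀ MonoidAlgebra F G) := ∑ g : G, act' g ∘ₗ s₀ ∘ₗ ψ ∘ₗ act g⁻¹
  have hs₂ : ∀ v, s₂ v = ∑ g : G, (MonoidAlgebra.single g (1 : F) : MonoidAlgebra F G) •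
      s₀ (ψ ((MonoidAlgebra.single g⁻¹ (1 : F) : MonoidAlgebra F G) • v)) := by
    intro v
    rw [LinearMap.sum_apply]
    rfl
  have hs₃ : ∀ (x : G) v, s₂ ((MonoidAlgebra.single x (1 : F) : MonoidAlgebra F G) • v) =
      (MonoidAlgebra.single x (1 : F) : MonoidAlgebra F G) • s₂ v := by
    intro x v
    rw [hs₂, hs₂, Finset.smul_sum]
    symm
    refine Fintype.sum_equiv (Equiv.mulLeft x) _ _ fun g => ?_
    change _ = (MonoidAlgebra.single (x * g) (1 : F) : MonoidAlgebra F G) •
      s₀ (ψ ((MonoidAlgebra.single (x * g)⁻¹ (1 : F) : MonoidAlgebra F G) • _))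
    rw [← mul_smul, ← mul_smul, MonoidAlgebra.single_mul_single, MonoidAlgebra.single_mul_single,
      one_mul, mul_inv_rev, inv_mul_cancel_right]
  let s : V →ₗ[MonoidAlgebra F G] (V →₀ MonoidAlgebra F G) :=
    { toFun := s₂
      map_add' := map_add s₂
      map_smul' := fun a v => lin_of_single s₂ hs₃ a v }
  refine Module.projective_def'.2 ⟨s, ?_⟩
  ext v
  change p (s₂ v) = v
  rw [hs₂, map_sum]
  conv_rhs => rw [← h v]
  refine Finset.sum_congr rfl fun g _ => ?_
  rw [map_smul, hs₁]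

end proj

/-- **PCV** -/
theorem pcv : PcvStmt := by
  intro ℓ F _ hF G _ _ b hb k σ hσ i' hi V _ _ _ ρ hρ
  have := Fintype.ofFinite G
  let _ : Module (MonoidAlgebra F G) V := Module.compHom V (ρ.asAlgebraHom).toRingHom
  have hsm : ∀ (a : MonoidAlgebra F G) (v : V), a • v = ρ.asAlgebraHom a v := fun a v => rfl
  have : IsScalarTower F (MonoidAlgebra F G) V := ⟨fun c a v => by
    rw [hsm, hsm, map_smul]
    rfl⟩
  have hev : ∀ (a : G → F) (v : V), toMA a • v = evV ρ a v := by
    intro a v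
    rw [hsm, toMA_eq, map_sum, LinearMap.sum_apply, D66.evV_apply]
    refine Finset.sum_congr rfl fun g _ => ?_
    rw [Representation.asAlgebraHom_single]
    rfl
  have hsg : ∀ (g : G) (v : V),
      (MonoidAlgebra.single g (1 : F) : MonoidAlgebra F G) • v = ρ g v := by
    intro g v
    rw [hsm, Representation.asAlgebraHom_single, one_smul]
  obtain ⟨m, x, y, hxy⟩ := hi.full
  obtain ⟨ψ, hψ⟩ := hρ.prj
  have he : toMA i' * toMA i' = toMA i' := by rw [← toMA_mulF, hi.ii]
  have hbe : toMA b * toMA i' = toMA i' := by rw [← toMA_mulF, hi.bi]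
  have hxy' : (∑ k, toMA (x k) * toMA i' * toMA (y k)) = toMA b := by
    rw [← hxy, H66.toMA_sum]
    refine Finset.sum_congr rfl fun k _ => ?_
    rw [toMA_mulF, toMA_mulF, mul_assoc]
  have hproj : Module.Projective (MonoidAlgebra F G) V := by
    refine proj_of ψ fun v => ?_
    have h1 := LinearMap.congr_fun hψ v
    rw [finsum_eq_sum_of_fintype, LinearMap.sum_apply] at h1
    refine Eq.trans (Finset.sum_congr rfl fun g _ => ?_) h1
    rw [hsg, hsg]
    rfl
  have hmain := abs_pcv (F := F) (A := MonoidAlgebra F G) (V := V) (toMA i') he ?_ m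
    (fun k => toMA (x k)) (fun k => toMA (y k)) ?_ ?_
  · have h1 : (Submodule.span F (crn i')).map
        ((maE : (G → F) ≃ₗ[F] MonoidAlgebra F G) : (G → F) →ₗ[F] MonoidAlgebra F G) =
        ce F (toMA i') := by
      rw [Submodule.map_span]
      apply le_antisymm
      · rw [Submodule.span_le]
        rintro _ ⟨a, ha, rfl⟩
        change toMA i' * toMA a = toMA a ∧ toMA a * toMA i' = toMA a
        rw [← toMA_mulF, ← toMA_mulF, ha.1, ha.2]
        exact ⟨rfl, rfl⟩
      · intro z hz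
        obtain ⟨a, rfl⟩ := toMA_surjective z
        refine Submodule.subset_span ⟨a, ⟨toMA_injective ?_, toMA_injective ?_⟩, rfl⟩
        · rw [toMA_mulF]
          exact hz.1
        · rw [toMA_mulF]
          exact hz.2
    have h2 : Module.finrank F (Submodule.span F (crn i')) =
        Module.finrank F (ce F (toMA i')) := by
      rw [← h1]
      exact (LinearEquiv.finrank_map_eq maE _).symm
    have h3 : LinearMap.range (evV ρ i') = fx (F := F) (toMA i') V := by
      ext v
      rw [mem_fx, hev]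
      constructor
      · rintro ⟨u, rfl⟩
        rw [← hev, ← hev, ← mul_smul, he]
      · intro h
        exact ⟨v, h⟩
    rw [h2, h3]
    exact hmain
  · intro a h1 h2
    obtain ⟨α, hα⟩ := rank_one (E := ev σ i') (B := repA σ a) hi.rk (by
      rw [← lift_toMA]
      change repA σ (toMA i') * _ = _
      rw [← map_mul, h1]) (by
      rw [← lift_toMA]
      change _ * repA σ (toMA i') = _
      rw [← map_mul, h2])
    refine ⟨α, mem_jac hF hb hσ ?_ ?_⟩
    · rw [mul_sub, mul_smul_comm, hbe]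
      congr 1
      rw [← h1, ← mul_assoc, hbe]
    · rw [map_sub, map_smul, hα, ← lift_toMA]
      exact sub_self _
  · intro v
    rw [hxy', hev]
    exact hρ.one v
  · intro a
    rw [hxy']
    have h1 := (H20.isCl_iff b).1 hb.1
    rw [h1, mul_assoc, ← h1, hbe]

end Pool.Agent.PP.CD2.H89
end
end -- Pool.Agent.Helper89_D2.Pcv

section -- Pool.Agent.Helper91_D2.Cla

/-!
# Squad PP, part D2, module CLA: the defect group of a block of cyclic defect
-/

open scoped BigOperators

set_option linter.unusedSectionVars false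

noncomputable section

namespace Pool.Agent.PP.CD2.H91

open Pool.Agent.Helper51_AWC Pool.Agent.Helper79_WRA Pool.Agent.PP Pool.Agent.PP.CD2
  Pool.Agent.PP.D1H51

/-! ### Cyclic `ℓ`-groups -/

section cyc

variable {ℓ : ℕ} [Fact ℓ.Prime] {G : Type} [Group G] [Finite G]

/-- the element of order `ℓ` of a cyclic group of order `ℓ ^ (n + 1)`; the elements normalising the
group normalise the subgroup which it generates -/
theorem cyc_gen {P : Subgroup G} (hcyc : IsCyclic P) {n : ℕ} (hcard : Nat.card P = ℓ ^ (n + 1)) :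
    ∃ y₁ : G, y₁ ∈ P ∧ orderOf y₁ = ℓ ∧ P ≤ CY y₁ ∧
      ∀ g ∈ Subgroup.normalizer (P : Set G), g ∈ NY y₁ := by
  have hℓ : ℓ.Prime := Fact.out
  obtain ⟨y, hy⟩ := hcyc.exists_generator
  have hord : orderOf y = ℓ ^ (n + 1) := by
    rw [← hcard]
    exact orderOf_eq_card_of_forall_mem_zpowers hy
  have hordG : orderOf (y : G) = ℓ ^ (n + 1) := by
    rw [← hord]
    exact Subgroup.orderOf_coe y
  have hmemP : ∀ z ∈ P, z ∈ Subgroup.zpowers (y : G) := by
    intro z hz
    obtain ⟨k, hk⟩ := Subgroup.mem_zpowers_iff.1 (hy ⟨z, hz⟩)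
    refine Subgroup.mem_zpowers_iff.2 ⟨k, ?_⟩
    have h1 := congrArg (fun t : P => (t : G)) hk
    have h2 : ((y ^ k : P) : G) = (y : G) ^ k := by push_cast; rfl
    exact h2.symm.trans h1
  have hpow : orderOf ((y : G) ^ ℓ ^ n) = ℓ := by
    rw [orderOf_pow_of_dvd (pow_ne_zero _ hℓ.ne_zero) (by
      rw [hordG]
      exact pow_dvd_pow _ (Nat.le_succ n)), hordG, pow_succ]
    exact Nat.mul_div_cancel_left _ (pow_pos hℓ.pos n)
  refine ⟨(y : G) ^ ℓ ^ n, P.pow_mem y.2 _, hpow, ?_, ?_⟩
  · intro z hz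
    obtain ⟨k, rfl⟩ := Subgroup.mem_zpowers_iff.1 (hmemP z hz)
    refine Subgroup.mem_centralizer_iff.2 fun t ht => ?_
    obtain ⟨j, rfl⟩ := Subgroup.mem_zpowers_iff.1 ht
    have h1 : Commute ((y : G) ^ ℓ ^ n) (y : G) := (Commute.refl (y : G)).pow_left _
    exact (h1.zpow_zpow j k).eq
  · -- the subgroup of order `ℓ` consists of the elements killed by `ℓ`
    have key : ∀ z ∈ P, z ^ ℓ = 1 → z ∈ Subgroup.zpowers ((y : G) ^ ℓ ^ n) := by
      intro z hz hzl
      obtain ⟨k, rfl⟩ := Subgroup.mem_zpowers_iff.1 (hmemP z hz)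
      have h1 : (y : G) ^ (k * (ℓ : ℤ)) = 1 := by
        rw [zpow_mul, zpow_natCast]
        exact hzl
      have h2 : ((orderOf (y : G) : ℕ) : ℤ) ∣ k * (ℓ : ℤ) := orderOf_dvd_iff_zpow_eq_one.2 h1
      rw [hordG] at h2
      have h3 : ((ℓ ^ n : ℕ) : ℤ) ∣ k := by
        have hℓz : (ℓ : ℤ) ≠ 0 := by exact_mod_cast hℓ.ne_zero
        rw [pow_succ] at h2
        push_cast at h2 ⊢
        exact Int.dvd_of_mul_dvd_mul_right hℓz h2
      obtain ⟨j, rfl⟩ := h3
      refine Subgroup.mem_zpowers_iff.2 ⟨j, ?_⟩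
      rw [zpow_mul, zpow_natCast]
    have hmem : ∀ t ∈ Subgroup.zpowers ((y : G) ^ ℓ ^ n), t ∈ P ∧ t ^ ℓ = 1 := by
      intro t ht
      obtain ⟨j, rfl⟩ := Subgroup.mem_zpowers_iff.1 ht
      refine ⟨P.zpow_mem (P.pow_mem y.2 _) j, ?_⟩
      have h1 : ((y : G) ^ ℓ ^ n) ^ ℓ = 1 := by
        have h0 := pow_orderOf_eq_one ((y : G) ^ ℓ ^ n)
        rwa [hpow] at h0
      calc (((y : G) ^ ℓ ^ n) ^ j) ^ ℓ = ((y : G) ^ ℓ ^ n) ^ (j * (ℓ : ℤ)) := by
            rw [zpow_mul, zpow_natCast]
        _ = ((y : G) ^ ℓ ^ n) ^ ((ℓ : ℤ) * j) := by rw [mul_comm]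
        _ = (((y : G) ^ ℓ ^ n) ^ ℓ) ^ j := by rw [zpow_mul, zpow_natCast]
        _ = 1 := by rw [h1, one_zpow]
    intro g hg
    have hg1 := Subgroup.mem_normalizer_iff.1 hg
    refine Subgroup.mem_normalizer_iff.2 fun t => ?_
    constructor
    · intro ht
      obtain ⟨h1, h2⟩ := hmem t ht
      refine key _ ((hg1 t).1 h1) ?_
      rw [conj_pow, h2, mul_one, mul_inv_cancel]
    · intro ht
      obtain ⟨h1, h2⟩ := hmem _ ht
      refine key _ ((hg1 t).2 h1) ?_
      rw [conj_pow] at h2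
      have h3 : g * t ^ ℓ = g := by
        have h4 := congrArg (fun s => s * g) h2
        simpa using h4
      exact mul_left_cancel (h3.trans (mul_one g).symm)

end cyc

/-- CLA: existence of the defect group of a stable block of cyclic defect -/
theorem cla (hbrq : BrqStmt) (hinv : InvStmt) : ClaStmt := by
  intro ℓ _ F _ hF G _ _ N hN b hbcl hbN hblk hdz hcyc
  classical
  have hchar := hF.char
  have hℓ : ℓ.Prime := Fact.out
  obtain ⟨k₀, ρ, hρ, hρb⟩ := H20.blk_rep hF hblk.1 hblk.2.1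
  obtain ⟨x, hbx, w, hw, hwx⟩ := exists_class hρ hblk.1.1 hρb
  obtain ⟨u, hu, hub⟩ := hinv ℓ F hF N (fun t : N => b t) (clsum F ⊤ x) hblk (clsum_cl x)
    (not_nil hρ hw hwx hρb)
  have hzub : mulF (clsum F ⊤ x) (mulF u (fun t : N => b t)) = fun t : N => b t := by
    rw [← mulF_assoc, ← H20.mulF_comm_of_cl hblk.1.1, hub]
  have hucl : IsCl (mulF u (fun t : N => b t)) := H20.isCl_mulF hu hblk.1.1
  set V : G → F := ext0 N (mulF u (fun t : N => b t)) with hV
  have hKV : mulF (clsum F N (x : G)) V = b := by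
    rw [← ext0_clsum', hV, ← H46.ext0_mul, hzub, H46.ext0_restr hbN]
  have hVN : ∀ y, y ∉ N → V y = 0 := fun y hy => H46.ext0_of_not_mem _ hy
  have hVi : ∀ m ∈ N, ∀ y, V (m * y * m⁻¹) = V y := fun m hm y => ext0_inv hucl hm y
  have hKi : ∀ m ∈ N, ∀ y, clsum F N (x : G) (m * y * m⁻¹) = clsum F N (x : G) y := by
    intro m hm y
    rw [← ext0_clsum']
    exact ext0_inv (clsum_cl x) hm y
  set C : Subgroup G := Subgroup.centralizer ({(x : G)} : Set G) ⊓ N with hC
  obtain ⟨P, hPC, hPp, hPidx, hPsyl⟩ := syl_exists (ℓ := ℓ) C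
  have hPN : P ≤ N := hPC.trans inf_le_right
  have hxP : (x : G) ∈ Subgroup.centralizer (P : Set G) := by
    rw [Subgroup.mem_centralizer_iff]
    intro p hp
    exact Subgroup.mem_centralizer_singleton_iff.1 (hPC hp).1
  have hbrP : br P b ≠ 0 := by
    intro h
    apply hbx
    have h1 := congrFun h (x : G)
    rw [H66.br_of_mem hxP] at h1
    exact h1
  have hPcyc : IsCyclic P := hcyc P hPN hPp hbrP
  obtain ⟨n, hcard⟩ : ∃ n, Nat.card P = ℓ ^ (n + 1) := by
    obtain ⟨k, hk⟩ := IsPGroup.iff_card.1 hPp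
    rcases k with _ | k
    · exfalso
      apply hdz
      rw [pow_zero] at hk
      have hPbot : P = ⊥ := Subgroup.card_eq_one.1 hk
      rw [hPbot, Subgroup.relIndex_bot_left] at hPidx
      rw [hC, ← card_cent] at hPidx
      have h1 := (H20.pci ℓ F hF N _ _ (prC_clsum (F := F) hPidx) hucl).2
      rw [hzub] at h1
      exact dz_of_prC h1
    · exact ⟨k, hk⟩
  obtain ⟨y₁, hy₁P, hy₁o, hPCY, hnorm⟩ := cyc_gen (ℓ := ℓ) hPcyc hcard
  -- the Brauer maps
  have hbrk : ∀ Q : Subgroup G, Q ≤ N → IsPGroup ℓ Q → br Q b ≠ 0 →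
      ∃ m ∈ N, Q ≤ conjS m P := by
    intro Q hQN hQ hbr
    have h1 : br Q b = mulF (br Q (clsum F N (x : G))) (br Q V) := by
      rw [← hKV]
      exact H66.br_mulF hF hQ (fun q hq t => hKi q (hQN hq) t) (fun q hq t => hVi q (hQN hq) t)
    have h2 : br Q (clsum F N (x : G)) ≠ 0 := by
      intro h
      apply hbr
      rw [h1, h]
      funext y
      unfold mulF
      simp
    obtain ⟨y, hy⟩ := Function.ne_iff.1 h2
    have hyQ : y ∈ Subgroup.centralizer (Q : Set G) := by
      by_contra h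
      exact hy (H66.br_of_not_mem h)
    rw [H66.br_of_mem hyQ] at hy
    have hex : ∃ q ∈ N, y = q * (x : G) * q⁻¹ := by
      by_contra h
      apply hy
      unfold clsum
      rw [if_neg h]
      rfl
    obtain ⟨m, hm, rfl⟩ := hex
    have h3 : Q ≤ conjS m C := by
      rw [hC, ← centralizer_conj (x : G) m hm]
      intro q hq
      refine ⟨Subgroup.mem_centralizer_singleton_iff.2 ?_, hQN hq⟩
      exact Subgroup.mem_centralizer_iff.1 hyQ q hq
    rw [le_conjS_iff] at h3
    obtain ⟨c, hc, h4⟩ := hPsyl _ h3 (conjS_pgroup hQ)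
    refine ⟨m * c, N.mul_mem hm hc.2, ?_⟩
    rw [← conjS_mul, le_conjS_iff]
    exact h4
  -- Frattini
  have hfrat : N ⊔ NY y₁ = ⊤ := by
    rw [eq_top_iff]
    intro g _
    have h1 : conjS g P ≤ N := by
      intro y hy
      rw [mem_conjS] at hy
      have h2 := hN.conj_mem _ (hPN hy) g
      have h3 : g * (g⁻¹ * y * g) * g⁻¹ = y := by group
      rwa [h3] at h2
    have h2 : br (conjS g P) b ≠ 0 := by
      intro h
      apply hbx
      have h3 : g * (x : G) * g⁻¹ ∈ Subgroup.centralizer (conjS g P : Set G) := by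
        rw [Subgroup.mem_centralizer_iff]
        intro y hy
        have hy' : g⁻¹ * y * g ∈ P := mem_conjS.1 hy
        have h4 := Subgroup.mem_centralizer_iff.1 hxP _ hy'
        calc y * (g * (x : G) * g⁻¹) = g * (g⁻¹ * y * g * x) * g⁻¹ := by group
          _ = g * (x * (g⁻¹ * y * g)) * g⁻¹ := by rw [h4]
          _ = g * x * g⁻¹ * y := by group
      have h5 := congrFun h (g * (x : G) * g⁻¹)
      rw [H66.br_of_mem h3, hbcl] at h5
      exact h5
    obtain ⟨m, hm, h3⟩ := hbrk _ h1 (conjS_pgroup hPp) h2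
    have h3' : conjS g P = conjS m P :=
      Subgroup.eq_of_le_of_card_ge h3 (by rw [card_conjS, card_conjS])
    have h4 : m⁻¹ * g ∈ Subgroup.normalizer (P : Set G) := by
      rw [mem_normalizer_iff_conjS, ← conjS_mul, h3', conjS_mul, inv_mul_cancel, D1H51.conjS_one]
    have h5 : g = m * (m⁻¹ * g) := (mul_inv_cancel_left m g).symm
    rw [h5]
    exact mul_mem (Subgroup.mem_sup_left hm) (Subgroup.mem_sup_right (hnorm _ h4))
  -- the idempotent
  have hidem : IsIdem b := by
    refine ⟨hbcl, ?_⟩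
    have h1 := hblk.1.2
    rw [← H46.ext0_restr hbN, ← H46.ext0_mul, h1]
  have hidx0 : ∀ m : ℕ, ¬ ℓ ∣ m → (m : F) ≠ 0 := by
    intro m hm h
    exact hm ((CharP.cast_eq_zero_iff F ℓ m).1 h)
  have hprj : PrjB N P b := by
    have h1 := prj_of (F := F) x.2 (P := P) (by rw [← hC]; exact hPC)
      (by rw [← hC]; exact hidx0 _ hPidx) hVN hVi
    rw [hKV] at h1
    exact h1
  -- the normaliser
  have hPNY : P ≤ N ⊓ NY y₁ := le_inf hPN (hPCY.trans (CD2.H66.CY_le_NY y₁))
  have hprj1 : PrjB (N ⊓ NY y₁) P (bY y₁ b) := by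
    obtain ⟨c, z, hc, hzN, hzP, hbz⟩ := hprj
    obtain ⟨c₁, hc₁⟩ := exists_w F hPNY
    have h1 := hbrq ℓ F hF G n N P y₁ hPN hPcyc hcard hy₁P hy₁o c c₁ z hc hc₁ hzP
    have h2 : b = fun x => ∑ᶠ g : G, c g * z (g⁻¹ * x * g) := funext hbz
    refine ⟨c₁, bY y₁ z, hc₁, ?_, ?_, ?_⟩
    · intro t ht
      exact CD2.H66.bY_sp (N := N) hzN t fun h => ht ⟨h.1, CD2.H66.CY_le_NY y₁ h.2⟩
    · intro p hp t
      exact CD2.H66.bY_cm (H := P) hzP p ⟨hp, (hPNY hp).2⟩ t
    · intro t
      conv_lhs => rw [h2]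
      rw [h1]
  refine ⟨n, P, y₁, ⟨hN, hPcyc, hcard, hPN, hy₁P, hy₁o, hidem, hbN, hblk, hfrat, hprj, hprj1,
    ?_, hbrP, ?_⟩⟩
  · intro k τ hτ hτb ψ
    exact npj_of hinv hF hblk hdz k τ hτ hτb ψ
  · intro Q hQN hQ hbr
    obtain ⟨m, -, h⟩ := hbrk Q hQN hQ hbr
    exact ⟨m, h⟩

end Pool.Agent.PP.CD2.H91
end
end -- Pool.Agent.Helper91_D2.Cla
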