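import Pool.Agent.Helper12_AWB.B160

/-!
# Merged copies (generated) of the modules

* `Pool.Agent.Helper46_D1.Ind`
* `Pool.Agent.Helper17_D2.Ind`
* `Pool.Agent.Helper90_BN.Dze`
* `Pool.Agent.Helper36_D2.Uq1`
* `Pool.Agent.Helper46_D2.Reg`
* `Pool.Agent.Helper46_D2.Xpr0`
* `Pool.Agent.Helper46_D2.Xpr1`
* `Pool.Agent.Helper46_D2.Xpr`
-/

set_option autoImplicit false

section -- Pool.Agent.Helper46_D1.Ind

/-!
# Squad PP, part D1, module IND: `V^P / (∑ P) V` determines `V`
-/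

open scoped BigOperators

noncomputable section

namespace Pool.Agent.PP.H46

open Pool.Agent.PP Pool.Agent.Helper51_AWC Pool.Agent.Helper79_WRA

variable {F : Type} [Field F] {G : Type} [Group G]

theorem evV_mrep [Finite G] {n : ℕ} (σ : G →* Matrix (Fin n) (Fin n) F) (b : G → F)
    (v : Fin n → F) : evV (mrep σ) b v = (ev σ b).mulVec v := by
  have := Fintype.ofFinite G
  unfold evV ev
  rw [finsum_eq_sum_of_fintype, finsum_eq_sum_of_fintype, LinearMap.sum_apply, Matrix.sum_mulVec]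
  refine Finset.sum_congr rfl fun g _ => ?_
  rw [LinearMap.smul_apply, Matrix.smul_mulVec]
  rfl

theorem nrm_le_fix [Finite G] {V : Type} [AddCommGroup V] [Module F V] (ρ : Representation F G V)
    (P : Subgroup G) : nrmV ρ P ≤ fixV ρ P := by
  have := Fintype.ofFinite P
  rintro _ ⟨v, rfl⟩ p hp
  rw [finsum_eq_sum_of_fintype, LinearMap.sum_apply, map_sum]
  refine Fintype.sum_equiv (Equiv.mulLeft (⟨p, hp⟩ : P)) _ _ fun q => ?_
  rw [Equiv.coe_mulLeft, Subgroup.coe_mul, map_mul]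
  rfl

theorem fix_stab {V : Type} [AddCommGroup V] [Module F V] (ρ : Representation F G V)
    (P : Subgroup G) {x : G} (hx : x ∈ Subgroup.normalizer (P : Set G)) {v : V}
    (hv : v ∈ fixV ρ P) : ρ x v ∈ fixV ρ P := by
  intro p hp
  have h1 : x⁻¹ * p * x ∈ P := by
    have := (Subgroup.mem_normalizer_iff.1 (inv_mem hx) p).1 hp
    rwa [inv_inv] at this
  have h2 : p * x = x * (x⁻¹ * p * x) := by group
  rw [← Module.End.mul_apply, ← map_mul, h2, map_mul, Module.End.mul_apply, hv _ h1]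

/-- a `G`-stable subspace is stable under all matrices -/
theorem stab_all {n : ℕ} {σ : G →* Matrix (Fin n) (Fin n) F} (hσ : IsIrr σ)
    {W : Submodule F (Fin n → F)} (hW : ∀ g, ∀ v ∈ W, (σ g).mulVec v ∈ W) {v : Fin n → F}
    (hv : v ∈ W) (hv0 : v ≠ 0) : W = ⊤ := by
  rw [eq_top_iff]
  intro w _
  obtain ⟨A, rfl⟩ := CY66.exists_mulVec hv0 w
  have hA : A ∈ Submodule.span F (Set.range σ) := by rw [hσ.2]; trivial
  induction hA using Submodule.span_induction with
  | mem x hx =>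
    obtain ⟨g, rfl⟩ := hx
    exact hW g v hv
  | zero => rw [Matrix.zero_mulVec]; exact W.zero_mem
  | add x y _ _ hx hy =>
    rw [Matrix.add_mulVec]
    exact W.add_mem (hx trivial) (hy trivial)
  | smul a x _ hx =>
    rw [Matrix.smul_mulVec]
    exact W.smul_mem _ (hx trivial)

theorem ind_core (hsoc : SocStmt) (hkey : KeyStmt) {ℓ : ℕ} [Fact ℓ.Prime] (hF : GoodF ℓ F)
    [Finite G] {N P : Subgroup G} {b : G → F} (hb : D1S ℓ N P b) {A : Type} [Group A]
    {j : A →* G} (hj : j.range = Subgroup.normalizer (P : Set G)) {n n' : ℕ}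
    {σ : G →* Matrix (Fin n) (Fin n) F} {σ' : G →* Matrix (Fin n') (Fin n') F} (hσ : IsIrr σ)
    (hσ' : IsIrr σ') (hσb : ev σ b = 1) (hσb' : ev σ' b = 1) {m : ℕ}
    {κ : A →* Matrix (Fin m) (Fin m) F} (hm : 0 < m) {π : (Fin n → F) →ₗ[F] (Fin m → F)}
    {π' : (Fin n' → F) →ₗ[F] (Fin m → F)} (hπ : HV j P κ (mrep σ) π)
    (hπ' : HV j P κ (mrep σ') π') : tr σ = tr σ' := by
  obtain ⟨w0, hw0⟩ : ∃ w0 : Fin m → F, w0 ≠ 0 := by
    refine ⟨fun _ => 1, fun h => ?_⟩
    have := congrFun h ⟨0, hm⟩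
    exact one_ne_zero this
  let R := (mrep σ).prod (mrep σ')
  have hR : ∀ g v, R g v = (mrep σ g v.1, mrep σ' g v.2) := fun g v => rfl
  let Y : Submodule F ((Fin n → F) × (Fin n' → F)) :=
    (fixV (mrep σ) P).comap (LinearMap.fst F _ _) ⊓ (fixV (mrep σ') P).comap (LinearMap.snd F _ _) ⊓
      LinearMap.ker (π ∘ₗ LinearMap.fst F _ _ - π' ∘ₗ LinearMap.snd F _ _)
  have hY : ∀ v, v ∈ Y ↔ (v.1 ∈ fixV (mrep σ) P ∧ v.2 ∈ fixV (mrep σ') P) ∧ π v.1 = π' v.2 := by
    intro v
    change (_ ∧ _) ∧ π v.1 - π' v.2 = 0 ↔ _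
    rw [sub_eq_zero]
    rfl
  have hfix : ∀ v, v ∈ fixV R P ↔ v.1 ∈ fixV (mrep σ) P ∧ v.2 ∈ fixV (mrep σ') P := by
    intro v
    constructor
    · intro h
      exact ⟨fun p hp => congrArg Prod.fst (h p hp), fun p hp => congrArg Prod.snd (h p hp)⟩
    · rintro ⟨h1, h2⟩ p hp
      exact Prod.ext (h1 p hp) (h2 p hp)
  have hnrm : ∀ v ∈ nrmV R P, v.1 ∈ nrmV (mrep σ) P ∧ v.2 ∈ nrmV (mrep σ') P := by
    have := Fintype.ofFinite P
    rintro _ ⟨u, rfl⟩
    constructor
    · refine ⟨u.1, ?_⟩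
      rw [finsum_eq_sum_of_fintype, finsum_eq_sum_of_fintype, LinearMap.sum_apply,
        LinearMap.sum_apply, Prod.fst_sum]
      rfl
    · refine ⟨u.2, ?_⟩
      rw [finsum_eq_sum_of_fintype, finsum_eq_sum_of_fintype, LinearMap.sum_apply,
        LinearMap.sum_apply, Prod.snd_sum]
      rfl
  have hlt : nrmV R P < Y := by
    refine lt_of_le_of_ne (fun v hv => ?_) (fun heq => ?_)
    · obtain ⟨h1, h2⟩ := hnrm v hv
      have h3 := nrm_le_fix _ _ h1
      have h4 := nrm_le_fix _ _ h2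
      rw [hY, (hπ.ker _ h3).2 h1, (hπ'.ker _ h4).2 h2]
      exact ⟨⟨h3, h4⟩, rfl⟩
    · obtain ⟨v, hv, hvw⟩ := hπ.sur w0
      obtain ⟨v', hv', hvw'⟩ := hπ'.sur w0
      have h1 : ((v, v') : (Fin n → F) × (Fin n' → F)) ∈ Y := by
        rw [hY]
        exact ⟨⟨hv, hv'⟩, hvw.trans hvw'.symm⟩
      rw [← heq] at h1
      have h2 := (hπ.ker v hv).2 (hnrm _ h1).1
      rw [hvw] at h2
      exact hw0 h2
  have hYf : Y ≤ fixV R P := fun v hv => (hfix v).2 ((hY v).1 hv).1
  have hYs : Stb (Subgroup.normalizer (P : Set G)) R Y := by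
    intro x hx v hv
    obtain ⟨⟨h1, h2⟩, h3⟩ := (hY v).1 hv
    rw [hY, hR]
    refine ⟨⟨fix_stab _ _ hx h1, fix_stab _ _ hx h2⟩, ?_⟩
    rw [← hj] at hx
    obtain ⟨a, rfl⟩ := hx
    change π (mrep σ (j a) v.1) = π' (mrep σ' (j a) v.2)
    rw [hπ.int a _ h1, hπ'.int a _ h2, h3]
  have hbR : ∀ v, evV R b v = v := by
    intro v
    have := Fintype.ofFinite G
    have h1 := evV_mrep σ b v.1
    have h2 := evV_mrep σ' b v.2
    rw [hσb, Matrix.one_mulVec] at h1
    rw [hσb', Matrix.one_mulVec] at h2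
    unfold evV at h1 h2 ⊢
    rw [finsum_eq_sum_of_fintype, LinearMap.sum_apply] at h1 h2 ⊢
    refine Prod.ext ?_ ?_
    · rw [Prod.fst_sum]
      exact h1
    · rw [Prod.snd_sum]
      exact h2
  obtain ⟨hs1, hs2, -⟩ := hsoc F G N hb.normal
  have hNs : NSoc N R := hs2 _ _ _ _ (hs1 n σ hσ) (hs1 n' σ' hσ')
  obtain ⟨Z, hZ0, hZs, hZY⟩ := hkey ℓ F hF G N P b hb _ R hbR hNs Y hlt hYf hYs
  have hZg : ∀ g, ∀ v v', (v, v') ∈ Z → ((σ g).mulVec v, (σ' g).mulVec v') ∈ Z := fun g v v' h =>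
    hZs g trivial _ h
  -- no vectors in the factors
  have hA : ∀ v, ((v, 0) : (Fin n → F) × (Fin n' → F)) ∈ Z → v = 0 := by
    intro v hv
    by_contra hv0
    have htop := stab_all hσ (W := Z.comap (LinearMap.inl F _ _)) (fun g u hu => by
      have h1 := hZg g u 0 hu
      rw [Matrix.mulVec_zero] at h1
      exact h1) (v := v) hv hv0
    obtain ⟨u, hu, huw⟩ := hπ.sur w0
    have h1 : ((u, 0) : (Fin n → F) × (Fin n' → F)) ∈ Z := by
      have : u ∈ Z.comap (LinearMap.inl F (Fin n → F) (Fin n' → F)) := by rw [htop]; trivial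
      exact this
    have h2 : ((u, 0) : (Fin n → F) × (Fin n' → F)) ∈ Y :=
      hZY ⟨h1, (hfix _).2 ⟨hu, Submodule.zero_mem _⟩⟩
    have h3 := ((hY _).1 h2).2
    change π u = π' 0 at h3
    rw [map_zero, huw] at h3
    exact hw0 h3
  have hB : ∀ v, ((0, v) : (Fin n → F) × (Fin n' → F)) ∈ Z → v = 0 := by
    intro v hv
    by_contra hv0
    have htop := stab_all hσ' (W := Z.comap (LinearMap.inr F _ _)) (fun g u hu => by
      have h1 := hZg g 0 u hu
      rw [Matrix.mulVec_zero] at h1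
      exact h1) (v := v) hv hv0
    obtain ⟨u, hu, huw⟩ := hπ'.sur w0
    have h1 : ((0, u) : (Fin n → F) × (Fin n' → F)) ∈ Z := by
      have : u ∈ Z.comap (LinearMap.inr F (Fin n → F) (Fin n' → F)) := by rw [htop]; trivial
      exact this
    have h2 : ((0, u) : (Fin n → F) × (Fin n' → F)) ∈ Y :=
      hZY ⟨h1, (hfix _).2 ⟨Submodule.zero_mem _, hu⟩⟩
    have h3 := ((hY _).1 h2).2
    change π 0 = π' u at h3
    rw [map_zero, huw] at h3
    exact hw0 h3.symm
  -- the graph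
  obtain ⟨z, hz, hz0⟩ := Submodule.exists_mem_ne_zero_of_ne_bot hZ0
  have hz1 : z.1 ≠ 0 := by
    intro h
    apply hz0
    have h1 : ((0, z.2) : (Fin n → F) × (Fin n' → F)) ∈ Z := by
      rw [← h]
      exact hz
    exact Prod.ext h (hB _ h1)
  let p1 : Z →ₗ[F] (Fin n → F) := LinearMap.fst F _ _ ∘ₗ Z.subtype
  have hp1 : ∀ z : Z, p1 z = (z : (Fin n → F) × (Fin n' → F)).1 := fun z => rfl
  have hinj : Function.Injective p1 := by
    rw [injective_iff_map_eq_zero]
    intro u hu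
    have h1 : ((0, (u : (Fin n → F) × (Fin n' → F)).2) : (Fin n → F) × (Fin n' → F)) ∈ Z := by
      rw [← hu]
      exact u.2
    exact Subtype.ext (Prod.ext hu (hB _ h1))
  have hsurj : Function.Surjective p1 := by
    rw [← LinearMap.range_eq_top]
    refine stab_all hσ (W := LinearMap.range p1) ?_ (v := z.1) ⟨⟨z, hz⟩, rfl⟩ hz1
    rintro g _ ⟨u, rfl⟩
    exact ⟨⟨_, hZg g _ _ u.2⟩, rfl⟩
  let e := LinearEquiv.ofBijective p1 ⟨hinj, hsurj⟩
  let f : (Fin n → F) →ₗ[F] (Fin n' → F) := LinearMap.snd F _ _ ∘ₗ Z.subtype ∘ₗ e.symm.toLinearMap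
  have hf : ∀ v, ((v, f v) : (Fin n → F) × (Fin n' → F)) ∈ Z := by
    intro v
    have h1 : p1 (e.symm v) = v := e.apply_symm_apply v
    have h2 : ((v, f v) : (Fin n → F) × (Fin n' → F)) = (e.symm v : Z) := by
      refine Prod.ext ?_ rfl
      exact h1.symm
    rw [h2]
    exact (e.symm v).2
  refine CY66.schur_two hσ hσ' f (fun g v => ?_) ?_
  · have h1 := Z.sub_mem (hf ((σ g).mulVec v)) (hZg g v (f v) (hf v))
    have h2 : (((σ g).mulVec v, f ((σ g).mulVec v)) : (Fin n → F) × (Fin n' → F)) -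
        ((σ g).mulVec v, (σ' g).mulVec (f v)) =
        (0, f ((σ g).mulVec v) - (σ' g).mulVec (f v)) := by
      rw [Prod.mk_sub_mk, sub_self]
    rw [h2] at h1
    exact sub_eq_zero.1 (hB _ h1)
  · intro h0
    have h1 := hf z.1
    rw [h0, LinearMap.zero_apply] at h1
    exact hz1 (hA _ h1)

/-- **IND** -/
theorem ind (hibc : IbcStmt) (hsoc : SocStmt) (hkey : KeyStmt) : IndStmt := by
  intro ℓ _ F _ hF G _ _ N P b hb A _ _ j hj n n' σ σ' hσ hσ' hσb hσb' m m' κ κ' π π' hκ hκ' htr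
    hπ hπ'
  obtain ⟨X, Y, -, hXY, hYX, hX⟩ := hibc ℓ F hF A m m' κ κ' hκ hκ' htr
  have hπ1 : HV j P κ' (mrep σ) (Matrix.toLin' X ∘ₗ π) := by
    refine ⟨fun x v hv => ?_, fun v hv => ?_, fun w => ?_⟩
    · rw [LinearMap.comp_apply, LinearMap.comp_apply, Matrix.toLin'_apply, Matrix.toLin'_apply,
        hπ.int x v hv, Matrix.mulVec_mulVec, Matrix.mulVec_mulVec, hX]
    · rw [← hπ.ker v hv, LinearMap.comp_apply, Matrix.toLin'_apply]
      constructor
      · intro h
        have h1 : Y.mulVec (X.mulVec (π v)) = 0 := by rw [h, Matrix.mulVec_zero]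
        rwa [Matrix.mulVec_mulVec, hYX, Matrix.one_mulVec] at h1
      · intro h
        rw [h, Matrix.mulVec_zero]
    · obtain ⟨v, hv, hvw⟩ := hπ.sur (Y.mulVec w)
      refine ⟨v, hv, ?_⟩
      rw [LinearMap.comp_apply, Matrix.toLin'_apply, hvw, Matrix.mulVec_mulVec, hXY,
        Matrix.one_mulVec]
  exact ind_core hsoc hkey hF hb hj hσ hσ' hσb hσb' hκ'.1 hπ1 hπ'

end Pool.Agent.PP.H46
end
end -- Pool.Agent.Helper46_D1.Ind

section -- Pool.Agent.Helper17_D2.Ind

/-!
# Squad PP, part D2, module IND: `fix / nrm` determines `V`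
-/

open scoped BigOperators

noncomputable section

namespace Pool.Agent.PP.CD2.H17

open Pool.Agent.PP Pool.Agent.Helper51_AWC Pool.Agent.Helper79_WRA

variable {F : Type} [Field F] {G : Type} [Group G]

theorem evV_prod [Finite G] {V V' : Type} [AddCommGroup V] [Module F V] [AddCommGroup V']
    [Module F V'] (ρ : Representation F G V) (ρ' : Representation F G V') (a : G → F) (v : V × V') :
    evV (ρ.prod ρ') a v = (evV ρ a v.1, evV ρ' a v.2) := by
  have := Fintype.ofFinite G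
  unfold evV
  rw [finsum_eq_sum_of_fintype, finsum_eq_sum_of_fintype, finsum_eq_sum_of_fintype,
    LinearMap.sum_apply, LinearMap.sum_apply, LinearMap.sum_apply]
  refine Prod.ext ?_ ?_
  · rw [Prod.fst_sum]
    rfl
  · rw [Prod.snd_sum]
    rfl

theorem evV_prod_pow [Finite G] {V V' : Type} [AddCommGroup V] [Module F V] [AddCommGroup V']
    [Module F V'] (ρ : Representation F G V) (ρ' : Representation F G V') (a : G → F) (j : ℕ)
    (v : V × V') :
    ((evV (ρ.prod ρ') a) ^ j) v = (((evV ρ a) ^ j) v.1, ((evV ρ' a) ^ j) v.2) := by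
  induction j with
  | zero => rfl
  | succ j ih =>
    rw [pow_succ', pow_succ', pow_succ', Module.End.mul_apply, Module.End.mul_apply,
      Module.End.mul_apply, ih, evV_prod]

theorem ind_core (hsoc : SocStmt) (hkey : KeyStmt) (hstw : StwStmt) {ℓ : ℕ} [Fact ℓ.Prime]
    (hF : GoodF ℓ F) [Finite G] {n : ℕ} {N P : Subgroup G} {y₁ : G} {b w : G → F}
    (hb : D2S ℓ n N P y₁ b w) {A : Type} [Group A]
    {j : A →* G} (hj : j.range = NY y₁) {k k' : ℕ}
    {σ : G →* Matrix (Fin k) (Fin k) F} {σ' : G →* Matrix (Fin k') (Fin k') F} (hσ : IsIrr σ)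
    (hσ' : IsIrr σ') (hσb : ev σ b = 1) (hσb' : ev σ' b = 1) {m : ℕ}
    {κ : A →* Matrix (Fin m) (Fin m) F} (hm : 0 < m) {π : (Fin k → F) →ₗ[F] (Fin m → F)}
    {π' : (Fin k' → F) →ₗ[F] (Fin m → F)}
    (hπ : HW j κ (mrep σ) π (fixW (mrep σ) (bY y₁ b) w) (rngW (mrep σ) w (ℓ ^ (n + 1) - 1)))
    (hπ' : HW j κ (mrep σ') π' (fixW (mrep σ') (bY y₁ b) w)
      (rngW (mrep σ') w (ℓ ^ (n + 1) - 1))) : tr σ = tr σ' := by
  obtain ⟨w0, hw0⟩ : ∃ w0 : Fin m → F, w0 ≠ 0 := by
    refine ⟨fun _ => 1, fun h => ?_⟩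
    have := congrFun h ⟨0, hm⟩
    exact one_ne_zero this
  obtain ⟨-, -, -, -, -, -, -, hnf, -, hfs, -⟩ := hstw ℓ F hF G n N P y₁ b w hb _ (mrep σ)
  obtain ⟨-, -, -, -, -, -, -, hnf', -, hfs', -⟩ := hstw ℓ F hF G n N P y₁ b w hb _ (mrep σ')
  let R := (mrep σ).prod (mrep σ')
  have hR : ∀ g v, R g v = (mrep σ g v.1, mrep σ' g v.2) := fun g v => rfl
  let Y : Submodule F ((Fin k → F) × (Fin k' → F)) :=
    (fixW (mrep σ) (bY y₁ b) w).comap (LinearMap.fst F _ _) ⊓
      (fixW (mrep σ') (bY y₁ b) w).comap (LinearMap.snd F _ _) ⊓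
      LinearMap.ker (π ∘ₗ LinearMap.fst F _ _ - π' ∘ₗ LinearMap.snd F _ _)
  have hY : ∀ v, v ∈ Y ↔ (v.1 ∈ fixW (mrep σ) (bY y₁ b) w ∧
      v.2 ∈ fixW (mrep σ') (bY y₁ b) w) ∧ π v.1 = π' v.2 := by
    intro v
    change (_ ∧ _) ∧ π v.1 - π' v.2 = 0 ↔ _
    rw [sub_eq_zero]
    rfl
  have hfix : ∀ v, v ∈ fixW R (bY y₁ b) w ↔ v.1 ∈ fixW (mrep σ) (bY y₁ b) w ∧
      v.2 ∈ fixW (mrep σ') (bY y₁ b) w := by
    intro v
    change (evV R (bY y₁ b) v = v ∧ evV R w v = 0) ↔
      (evV (mrep σ) (bY y₁ b) v.1 = v.1 ∧ evV (mrep σ) w v.1 = 0) ∧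
      (evV (mrep σ') (bY y₁ b) v.2 = v.2 ∧ evV (mrep σ') w v.2 = 0)
    rw [evV_prod, evV_prod]
    constructor
    · rintro ⟨h1, h2⟩
      exact ⟨⟨congrArg Prod.fst h1, congrArg Prod.fst h2⟩,
        ⟨congrArg Prod.snd h1, congrArg Prod.snd h2⟩⟩
    · rintro ⟨⟨h1, h2⟩, ⟨h3, h4⟩⟩
      exact ⟨Prod.ext h1 h3, Prod.ext h2 h4⟩
  have hnrm : ∀ v ∈ rngW R w (ℓ ^ (n + 1) - 1), v.1 ∈ rngW (mrep σ) w (ℓ ^ (n + 1) - 1) ∧
      v.2 ∈ rngW (mrep σ') w (ℓ ^ (n + 1) - 1) := by
    rintro _ ⟨u, rfl⟩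
    have h1 := evV_prod_pow (mrep σ) (mrep σ') w (ℓ ^ (n + 1) - 1) u
    exact ⟨⟨u.1, (congrArg Prod.fst h1).symm⟩, ⟨u.2, (congrArg Prod.snd h1).symm⟩⟩
  have hlt : rngW R w (ℓ ^ (n + 1) - 1) < Y := by
    refine lt_of_le_of_ne (fun v hv => ?_) (fun heq => ?_)
    · obtain ⟨h1, h2⟩ := hnrm v hv
      have h3 := hnf h1
      have h4 := hnf' h2
      rw [hY, (hπ.ker _ h3).2 h1, (hπ'.ker _ h4).2 h2]
      exact ⟨⟨h3, h4⟩, rfl⟩
    · obtain ⟨v, hv, hvw⟩ := hπ.sur w0
      obtain ⟨v', hv', hvw'⟩ := hπ'.sur w0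
      have h1 : ((v, v') : (Fin k → F) × (Fin k' → F)) ∈ Y := by
        rw [hY]
        exact ⟨⟨hv, hv'⟩, hvw.trans hvw'.symm⟩
      rw [← heq] at h1
      have h2 := (hπ.ker v hv).2 (hnrm _ h1).1
      rw [hvw] at h2
      exact hw0 h2
  have hYf : Y ≤ fixW R (bY y₁ b) w := fun v hv => (hfix v).2 ((hY v).1 hv).1
  have hYs : Stb (NY y₁) R Y := by
    intro x hx v hv
    obtain ⟨⟨h1, h2⟩, h3⟩ := (hY v).1 hv
    rw [hY, hR]
    refine ⟨⟨hfs x hx _ h1, hfs' x hx _ h2⟩, ?_⟩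
    rw [← hj] at hx
    obtain ⟨a, rfl⟩ := hx
    change π (mrep σ (j a) v.1) = π' (mrep σ' (j a) v.2)
    rw [hπ.int a _ h1, hπ'.int a _ h2, h3]
  have hbR : ∀ v, evV R b v = v := by
    intro v
    have h1 := H46.evV_mrep σ b v.1
    have h2 := H46.evV_mrep σ' b v.2
    rw [hσb, Matrix.one_mulVec] at h1
    rw [hσb', Matrix.one_mulVec] at h2
    rw [evV_prod, h1, h2]
  obtain ⟨hs1, hs2, -⟩ := hsoc F G N hb.normal
  have hNs : NSoc N R := hs2 _ _ _ _ (hs1 k σ hσ) (hs1 k' σ' hσ')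
  obtain ⟨Z, hZ0, hZs, hZY⟩ := hkey ℓ F hF G n N P y₁ b w hb _ R hbR hNs Y hlt hYf hYs
  have hZg : ∀ g, ∀ v v', (v, v') ∈ Z → ((σ g).mulVec v, (σ' g).mulVec v') ∈ Z := fun g v v' h =>
    hZs g trivial _ h
  -- no vectors in the factors
  have hA : ∀ v, ((v, 0) : (Fin k → F) × (Fin k' → F)) ∈ Z → v = 0 := by
    intro v hv
    by_contra hv0
    have htop := H46.stab_all hσ (W := Z.comap (LinearMap.inl F _ _)) (fun g u hu => by
      have h1 := hZg g u 0 hu
      rw [Matrix.mulVec_zero] at h1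
      exact h1) (v := v) hv hv0
    obtain ⟨u, hu, huw⟩ := hπ.sur w0
    have h1 : ((u, 0) : (Fin k → F) × (Fin k' → F)) ∈ Z := by
      have : u ∈ Z.comap (LinearMap.inl F (Fin k → F) (Fin k' → F)) := by rw [htop]; trivial
      exact this
    have h2 : ((u, 0) : (Fin k → F) × (Fin k' → F)) ∈ Y :=
      hZY ⟨h1, (hfix _).2 ⟨hu, Submodule.zero_mem _⟩⟩
    have h3 := ((hY _).1 h2).2
    change π u = π' 0 at h3
    rw [map_zero, huw] at h3
    exact hw0 h3
  have hB : ∀ v, ((0, v) : (Fin k → F) × (Fin k' → F)) ∈ Z → v = 0 := by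
    intro v hv
    by_contra hv0
    have htop := H46.stab_all hσ' (W := Z.comap (LinearMap.inr F _ _)) (fun g u hu => by
      have h1 := hZg g 0 u hu
      rw [Matrix.mulVec_zero] at h1
      exact h1) (v := v) hv hv0
    obtain ⟨u, hu, huw⟩ := hπ'.sur w0
    have h1 : ((0, u) : (Fin k → F) × (Fin k' → F)) ∈ Z := by
      have : u ∈ Z.comap (LinearMap.inr F (Fin k → F) (Fin k' → F)) := by rw [htop]; trivial
      exact this
    have h2 : ((0, u) : (Fin k → F) × (Fin k' → F)) ∈ Y :=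
      hZY ⟨h1, (hfix _).2 ⟨Submodule.zero_mem _, hu⟩⟩
    have h3 := ((hY _).1 h2).2
    change π 0 = π' u at h3
    rw [map_zero, huw] at h3
    exact hw0 h3.symm
  -- the graph
  obtain ⟨z, hz, hz0⟩ := Submodule.exists_mem_ne_zero_of_ne_bot hZ0
  have hz1 : z.1 ≠ 0 := by
    intro h
    apply hz0
    have h1 : ((0, z.2) : (Fin k → F) × (Fin k' → F)) ∈ Z := by
      rw [← h]
      exact hz
    exact Prod.ext h (hB _ h1)
  let p1 : Z →ₗ[F] (Fin k → F) := LinearMap.fst F _ _ ∘ₗ Z.subtype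
  have hp1 : ∀ z : Z, p1 z = (z : (Fin k → F) × (Fin k' → F)).1 := fun z => rfl
  have hinj : Function.Injective p1 := by
    rw [injective_iff_map_eq_zero]
    intro u hu
    have h1 : ((0, (u : (Fin k → F) × (Fin k' → F)).2) : (Fin k → F) × (Fin k' → F)) ∈ Z := by
      rw [← hu]
      exact u.2
    exact Subtype.ext (Prod.ext hu (hB _ h1))
  have hsurj : Function.Surjective p1 := by
    rw [← LinearMap.range_eq_top]
    refine H46.stab_all hσ (W := LinearMap.range p1) ?_ (v := z.1) ⟨⟨z, hz⟩, rfl⟩ hz1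
    rintro g _ ⟨u, rfl⟩
    exact ⟨⟨_, hZg g _ _ u.2⟩, rfl⟩
  let e := LinearEquiv.ofBijective p1 ⟨hinj, hsurj⟩
  let f : (Fin k → F) →ₗ[F] (Fin k' → F) := LinearMap.snd F _ _ ∘ₗ Z.subtype ∘ₗ e.symm.toLinearMap
  have hf : ∀ v, ((v, f v) : (Fin k → F) × (Fin k' → F)) ∈ Z := by
    intro v
    have h1 : p1 (e.symm v) = v := e.apply_symm_apply v
    have h2 : ((v, f v) : (Fin k → F) × (Fin k' → F)) = (e.symm v : Z) := by
      refine Prod.ext ?_ rfl
      exact h1.symm
    rw [h2]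
    exact (e.symm v).2
  refine CY66.schur_two hσ hσ' f (fun g v => ?_) ?_
  · have h1 := Z.sub_mem (hf ((σ g).mulVec v)) (hZg g v (f v) (hf v))
    have h2 : (((σ g).mulVec v, f ((σ g).mulVec v)) : (Fin k → F) × (Fin k' → F)) -
        ((σ g).mulVec v, (σ' g).mulVec (f v)) =
        (0, f ((σ g).mulVec v) - (σ' g).mulVec (f v)) := by
      rw [Prod.mk_sub_mk, sub_self]
    rw [h2] at h1
    exact sub_eq_zero.1 (hB _ h1)
  · intro h0
    have h1 := hf z.1
    rw [h0, LinearMap.zero_apply] at h1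
    exact hz1 (hA _ h1)

/-- **IND** -/
theorem ind (hibc : IbcStmt) (hsoc : SocStmt) (hkey : KeyStmt) (hstw : StwStmt) : IndStmt := by
  intro ℓ _ F _ hF G _ _ n N P y₁ b w hb A _ _ j hj k k' σ σ' hσ hσ' hσb hσb' m m' κ κ' π π' hκ
    hκ' htr hπ hπ'
  obtain ⟨X, Y, -, hXY, hYX, hX⟩ := hibc ℓ F hF A m m' κ κ' hκ hκ' htr
  have hπ1 : HW j κ' (mrep σ) (Matrix.toLin' X ∘ₗ π) (fixW (mrep σ) (bY y₁ b) w)
      (rngW (mrep σ) w (ℓ ^ (n + 1) - 1)) := by
    refine ⟨fun x v hv => ?_, fun v hv => ?_, fun w => ?_⟩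
    · rw [LinearMap.comp_apply, LinearMap.comp_apply, Matrix.toLin'_apply, Matrix.toLin'_apply,
        hπ.int x v hv, Matrix.mulVec_mulVec, Matrix.mulVec_mulVec, hX]
    · rw [← hπ.ker v hv, LinearMap.comp_apply, Matrix.toLin'_apply]
      constructor
      · intro h
        have h1 : Y.mulVec (X.mulVec (π v)) = 0 := by rw [h, Matrix.mulVec_zero]
        rwa [Matrix.mulVec_mulVec, hYX, Matrix.one_mulVec] at h1
      · intro h
        rw [h, Matrix.mulVec_zero]
    · obtain ⟨v, hv, hvw⟩ := hπ.sur (Y.mulVec w)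
      refine ⟨v, hv, ?_⟩
      rw [LinearMap.comp_apply, Matrix.toLin'_apply, hvw, Matrix.mulVec_mulVec, hXY,
        Matrix.one_mulVec]
  exact ind_core hsoc hkey hstw hF hb hj hσ hσ' hσb hσb' hκ'.1 hπ1 hπ'

end Pool.Agent.PP.CD2.H17
end
end -- Pool.Agent.Helper17_D2.Ind

section -- Pool.Agent.Helper90_BN.Dze

/-!
# Squad PP, part BN, module BDZ: a central idempotent with vanishing Brauer map at `U` is supported
on elements of defect zero
-/

open scoped BigOperators

noncomputable section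

namespace Pool.Agent.PP.BN.H90

open Pool.Agent.Helper51_AWC Pool.Agent.Helper79_WRA

theorem br_apply_of_mem {F G : Type} [Field F] [Group G] {R : Subgroup G} {a : G → F} {t : G}
    (ht : t ∈ Subgroup.centralizer (R : Set G)) : br R a t = a t := by
  rw [br, if_pos ht]

theorem of_br_ne {F G : Type} [Field F] [Group G] {R : Subgroup G} {a : G → F} {t : G}
    (ht : br R a t ≠ 0) : t ∈ Subgroup.centralizer (R : Set G) ∧ a t ≠ 0 := by
  by_cases h : t ∈ Subgroup.centralizer (R : Set G)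
  · rw [br_apply_of_mem h] at ht
    exact ⟨h, ht⟩
  · rw [br, if_neg h] at ht
    exact absurd rfl ht

theorem card_conjS {G : Type} [Group G] (g : G) (P : Subgroup G) :
    Nat.card (conjS g P) = Nat.card P :=
  (Nat.card_congr (P.equivMapOfInjective _ (MulAut.conj g).injective).toEquiv).symm

theorem mem_conjS {G : Type} [Group G] {g : G} {P : Subgroup G} {x : G} :
    x ∈ conjS g P ↔ g⁻¹ * x * g ∈ P := by
  rw [conjS, Subgroup.mem_map]
  constructor
  · rintro ⟨y, hy, rfl⟩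
    have : g⁻¹ * ((MulAut.conj g).toMonoidHom y) * g = y := by
      simp [mul_assoc]
    rw [this]
    exact hy
  · intro h
    exact ⟨_, h, by simp [mul_assoc]⟩

theorem exists_rep (hI : IbnStmt) {ℓ : ℕ} {F : Type} [Field F] (hF : GoodF ℓ F) {H : Type}
    [Group H] [Finite H] {f : H → F} (hf : IsIdem f) (h0 : f ≠ 0) :
    ∃ (n : ℕ) (ρ : H →* Matrix (Fin n) (Fin n) F), IsIrr ρ ∧ ev ρ f ≠ 0 := by
  by_contra hcon
  push Not at hcon
  obtain ⟨k, hk⟩ := hI ℓ F hF H f (fun n ρ hρ => hcon n ρ hρ)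
  rw [Function.iterate_fixed hf.2 k] at hk
  exact h0 hk

theorem step (hN : NlsStmt) (hB : BrmStmt) (hI : IbnStmt) {ℓ : ℕ} [Fact ℓ.Prime]
    {F : Type} [Field F] (hF : GoodF ℓ F) {D : Type} [Group D] [Finite D] {U : Subgroup D}
    (hU : IsPGroup ℓ U)
    (ti : ∀ g x : D, x ∈ U → x ≠ 1 → g * x * g⁻¹ ∈ U → g ∈ Subgroup.normalizer (U : Set D))
    (syl : ∀ P : Subgroup D, IsPGroup ℓ P → ∃ g : D, P ≤ conjS g U) {e : D → F} (he : IsIdem e)
    (hbr : br U e = 0) :
    ∀ k : ℕ, ∀ (P : Subgroup D) (x : D), Nat.card D - Nat.card P = k → IsPGroup ℓ P → P ≠ ⊥ →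
      (∀ y ∈ P, y * x = x * y) → e x ≠ 0 → False := by
  intro k
  induction k using Nat.strong_induction_on with
  | _ k ih =>
    intro P0 x0 hk hP0 hne0 hc0 hx0
    obtain ⟨g, hg⟩ := syl P0 hP0
    obtain ⟨P, hPdef⟩ : ∃ P, P = conjS g⁻¹ P0 := ⟨_, rfl⟩
    obtain ⟨x, hxdef⟩ : ∃ x, x = g⁻¹ * x0 * g := ⟨_, rfl⟩
    have hmem : ∀ y, y ∈ P ↔ g * y * g⁻¹ ∈ P0 := fun y => by
      rw [hPdef, mem_conjS, inv_inv]
    have hPU : P ≤ U := by
      intro y hy
      have h1 := hg ((hmem y).1 hy)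
      rw [mem_conjS] at h1
      have h2 : g⁻¹ * (g * y * g⁻¹) * g = y := by group
      rwa [h2] at h1
    have hcard : Nat.card P = Nat.card P0 := by rw [hPdef, card_conjS]
    have hP : IsPGroup ℓ P := hU.to_le hPU
    have hne : P ≠ ⊥ := by
      intro h
      apply hne0
      rw [← Subgroup.card_eq_one, ← hcard, h, Subgroup.card_bot]
    have hc : ∀ y ∈ P, y * x = x * y := by
      intro y hy
      have h1 := hc0 _ ((hmem y).1 hy)
      rw [hxdef]
      calc y * (g⁻¹ * x0 * g) = g⁻¹ * (g * y * g⁻¹ * x0) * g := by group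
        _ = g⁻¹ * (x0 * (g * y * g⁻¹)) * g := by rw [h1]
        _ = g⁻¹ * x0 * g * y := by group
    have hx : e x ≠ 0 := by
      have h1 := he.1 x0 g⁻¹
      rw [inv_inv] at h1
      rw [hxdef, h1]
      exact hx0
    rcases eq_or_ne P U with hPU' | hPU'
    · have h1 : br U e x = e x := by
        apply br_apply_of_mem
        rw [Subgroup.mem_centralizer_iff]
        intro y hy
        exact hc y (hPU' ▸ hy)
      rw [hbr] at h1
      exact hx h1.symm
    · -- the normaliser of `P` in `U`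
      obtain ⟨q, hqU, hqP, hqN⟩ : ∃ q ∈ U, q ∉ P ∧ q ∈ Subgroup.normalizer (P : Set D) := by
        have hnil : Group.IsNilpotent U := hU.isNilpotent
        have hlt : P.subgroupOf U < ⊤ := by
          rw [lt_top_iff_ne_top]
          intro h
          rw [Subgroup.subgroupOf_eq_top] at h
          exact hPU' (le_antisymm hPU h)
        have h1 := Group.normalizerCondition_of_isNilpotent (G := U) (P.subgroupOf U) hlt
        obtain ⟨q, hq1, hq2⟩ := SetLike.exists_of_lt h1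
        refine ⟨q, q.2, fun h => hq2 (Subgroup.mem_subgroupOf.2 h), ?_⟩
        rw [Subgroup.mem_normalizer_iff] at hq1 ⊢
        intro y
        constructor
        · intro hy
          exact Subgroup.mem_subgroupOf.1 ((hq1 ⟨y, hPU hy⟩).1 (Subgroup.mem_subgroupOf.2 hy))
        · intro hy
          have hyU : y ∈ U := by
            have h2 := U.mul_mem (U.mul_mem (U.inv_mem q.2) (hPU hy)) q.2
            have h3 : (q : D)⁻¹ * (q * y * (q : D)⁻¹) * q = y := by group
            rwa [h3] at h2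
          exact Subgroup.mem_subgroupOf.1 ((hq1 ⟨y, hyU⟩).2 (Subgroup.mem_subgroupOf.2 hy))
      obtain ⟨y0, hy0P, hy01⟩ : ∃ y ∈ P, y ≠ 1 := by
        by_contra hcon
        push Not at hcon
        exact hne ((Subgroup.eq_bot_iff_forall P).2 hcon)
      have hHU : ∀ h ∈ Subgroup.normalizer (P : Set D), h ∈ Subgroup.normalizer (U : Set D) := by
        intro h hh
        refine ti h y0 (hPU hy0P) hy01 (hPU ?_)
        exact (Subgroup.mem_normalizer_iff.1 hh y0).1 hy0P
      obtain ⟨H, hHdef⟩ : ∃ H, H = Subgroup.normalizer (P : Set D) := ⟨_, rfl⟩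
      obtain ⟨Q, hQdef⟩ : ∃ Q, Q = U ⊓ H := ⟨_, rfl⟩
      have hPN : P ≤ H := by rw [hHdef]; exact Subgroup.le_normalizer
      have hPQ : P ≤ Q := by rw [hQdef]; exact le_inf hPU hPN
      have hlt : P < Q := by
        refine lt_of_le_of_ne hPQ fun h => hqP ?_
        rw [h, hQdef]
        exact Subgroup.mem_inf.2 ⟨hqU, hHdef ▸ hqN⟩
      have hCN : Subgroup.centralizer (P : Set D) ≤ H := by
        intro t ht
        rw [hHdef, Subgroup.mem_normalizer_iff]
        intro y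
        rw [Subgroup.mem_centralizer_iff] at ht
        constructor
        · intro hy
          have h1 := ht y hy
          have h2 : t * y * t⁻¹ = y := by rw [← h1]; group
          rwa [h2]
        · intro hy
          have h1 := ht _ hy
          have h2 : t * y * t⁻¹ = y := by
            have h3 : t * y = t * (t * y * t⁻¹) := by
              rw [← h1]; group
            have h4 := mul_left_cancel h3
            exact h4.symm
          rwa [h2] at hy
      obtain ⟨f, hfdef⟩ : ∃ f : H → F, f = fun t : H => br P e t := ⟨_, rfl⟩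
      have hf : IsIdem f := by
        rw [hfdef]
        exact (hB ℓ F hF D P H hP hCN hHdef.le).2.2 e he
      have hxC : x ∈ Subgroup.centralizer (P : Set D) := by
        rw [Subgroup.mem_centralizer_iff]
        exact hc
      have hf0 : f ≠ 0 := by
        intro h
        have h1 : f ⟨x, hCN hxC⟩ = e x := by
          rw [hfdef]
          exact br_apply_of_mem hxC
        rw [h] at h1
        exact hx h1.symm
      obtain ⟨n, ρ, hρ, hev⟩ := exists_rep hI hF hf hf0
      have hQn : (Q.subgroupOf H).Normal := by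
        refine ⟨fun a ha b => ?_⟩
        rw [Subgroup.mem_subgroupOf] at ha ⊢
        rw [hQdef, Subgroup.mem_inf] at ha ⊢
        refine ⟨?_, (b * a * b⁻¹).2⟩
        exact (Subgroup.mem_normalizer_iff.1 (hHU b (hHdef ▸ b.2)) a).1 ha.1
      have hQU : Q ≤ U := by rw [hQdef]; exact inf_le_left
      have hQp : IsPGroup ℓ (Q.subgroupOf H) := by
        intro a
        obtain ⟨k, hk⟩ := hU ⟨((a : H) : D), hQU (Subgroup.mem_subgroupOf.1 a.2)⟩
        have hk' : ((a : H) : D) ^ ℓ ^ k = 1 := congrArg (fun z : U => (z : D)) hk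
        refine ⟨k, ?_⟩
        apply Subtype.ext
        apply Subtype.ext
        exact hk'
      have h2 := ((hN ℓ F hF H (Q.subgroupOf H) hQn hQp n ρ hρ).2 f hf.1).1
      obtain ⟨t, ht⟩ : ∃ t, br (Q.subgroupOf H) f t ≠ 0 := by
        by_contra hcon
        push Not at hcon
        apply hev
        rw [h2]
        simp [ev, hcon]
      obtain ⟨ht1, ht2⟩ := of_br_ne ht
      rw [hfdef] at ht2
      obtain ⟨-, ht3⟩ := of_br_ne ht2
      have hQle : ∀ y ∈ Q, y * (t : D) = t * y := by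
        intro y hy
        have hyH : y ∈ H := by
          rw [hQdef, Subgroup.mem_inf] at hy
          exact hy.2
        have h3 := (Subgroup.mem_centralizer_iff.1 ht1) ⟨y, hyH⟩ (Subgroup.mem_subgroupOf.2 hy)
        exact congrArg Subtype.val h3
      have hc1 : Nat.card P < Nat.card Q := by
        have := Set.Finite.card_lt_card (Set.toFinite (Q : Set D))
          (SetLike.coe_ssubset_coe.2 hlt)
        exact this
      have hc2 : Nat.card Q ≤ Nat.card D := Subgroup.card_le_card_group Q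
      exact ih (Nat.card D - Nat.card Q) (by omega) Q t rfl
        (hU.to_le (by rw [hQdef]; exact inf_le_left))
        (fun h => hne (le_bot_iff.1 (h ▸ hPQ))) hQle ht3

/-- BDZ -/
theorem dze (hN : NlsStmt) (hB : BrmStmt) (hI : IbnStmt) (_ : EigStmt) : DzeStmt := by
  intro ℓ _ F _ hF D _ _ M U T n hR e he hbr x hx hdvd
  have hU : IsPGroup ℓ U := by
    intro a
    obtain ⟨k, hk⟩ := hR.bn.pU ⟨⟨a, hR.UM a.2⟩, Subgroup.mem_subgroupOf.2 a.2⟩
    refine ⟨k, ?_⟩
    apply Subtype.ext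
    exact congrArg (fun z => ((z : M) : D)) (congrArg Subtype.val hk)
  obtain ⟨y, hy⟩ := exists_prime_orderOf_dvd_card' ℓ hdvd
  have hy' : orderOf (y : D) = ℓ := by rw [Subgroup.orderOf_coe, hy]
  have hp := (Fact.out : ℓ.Prime)
  have hcomm : ∀ z ∈ Subgroup.zpowers (y : D), z * x = x * z := by
    have h1 : Subgroup.zpowers (y : D) ≤ Subgroup.centralizer ({x} : Set D) :=
      (Subgroup.zpowers_le).2 y.2
    intro z hz
    have h2 := Subgroup.mem_centralizer_iff.1 (h1 hz) x rfl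
    exact h2.symm
  refine step hN hB hI hF hU hR.ti hR.syl he hbr _ (Subgroup.zpowers (y : D)) x rfl ?_ ?_ hcomm hx
  · apply IsPGroup.of_card (n := 1)
    rw [Nat.card_zpowers, hy', pow_one]
  · intro h
    have h1 := Subgroup.zpowers_eq_bot.1 h
    rw [h1, orderOf_one] at hy'
    exact hp.one_lt.ne hy'

end Pool.Agent.PP.BN.H90
end
end -- Pool.Agent.Helper90_BN.Dze

section -- Pool.Agent.Helper36_D2.Uq1

/-!
# Squad PP, part D2, module UQ1: there is one irreducible representation over the block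
-/

open scoped BigOperators

set_option linter.unusedSectionVars false

noncomputable section

namespace Pool.Agent.PP.CD2.H36

open Pool.Agent.PP Pool.Agent.Helper51_AWC Pool.Agent.Helper79_WRA Pool.Agent.PP.H20

section res

variable {F : Type} [Field F] {G : Type} [Group G] [Finite G]

/-- restriction to a subgroup -/
def rs (C : Subgroup G) (a : G → F) : C → F := fun t => a t

theorem rs_mulF {C : Subgroup G} {a : G → F} (ha : SpF C a) (c : G → F) :
    rs C (mulF a c) = mulF (rs C a) (rs C c) := by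
  classical
  have := Fintype.ofFinite G
  have := Fintype.ofFinite C
  funext t
  unfold rs mulF
  simp only [finsum_eq_sum_of_fintype]
  have h1 : ∑ s : G, a s * c (s⁻¹ * t) = ∑ s : G, if s ∈ C then a s * c (s⁻¹ * t) else 0 := by
    refine Finset.sum_congr rfl fun s _ => ?_
    split_ifs with h
    · rfl
    · rw [ha s h, zero_mul]
  rw [h1, ← Finset.sum_filter]
  refine Finset.sum_subtype _ (fun x => ?_) (fun s => a s * c (s⁻¹ * t))
  rw [Finset.mem_filter]
  simp

theorem rs_pwF {C : Subgroup G} {w : G → F} (hw : SpF C w) (a : G → F) (s : ℕ) :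
    rs C (pwF w s a) = pwF (rs C w) s (rs C a) := by
  induction s with
  | zero => rfl
  | succ s ih => rw [H66.pwF_succ, H66.pwF_succ, rs_mulF hw, ih]

theorem rs_ext (C : Subgroup G) (a : C → F) : rs C (extF C a) = a := by
  funext t
  unfold rs extF
  rw [dif_pos t.2]

theorem sp_ext (C : Subgroup G) (a : C → F) : SpF C (extF C a) := by
  intro x hx
  unfold extF
  rw [dif_neg hx]

variable {m : ℕ} {C : Subgroup G} (κ : C →* Matrix (Fin m) (Fin m) F)

/-- the value of `κ` -/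
def eC (a : G → F) : Matrix (Fin m) (Fin m) F := ev κ (rs C a)

theorem eC_eq (a : G → F) : eC κ a =
    MonoidAlgebra.lift F (Matrix (Fin m) (Fin m) F) C κ (toMA (rs C a)) := (lift_toMA κ _).symm

theorem eC_mul {a : G → F} (ha : SpF C a) (c : G → F) : eC κ (mulF a c) = eC κ a * eC κ c := by
  rw [eC_eq, rs_mulF ha, toMA_mulF, map_mul, ← eC_eq, ← eC_eq]

theorem eC_zero : eC κ (0 : G → F) = 0 := by
  rw [eC_eq]
  have : rs C (0 : G → F) = 0 := rfl
  rw [this, toMA_zero, map_zero]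

theorem eC_add (a c : G → F) : eC κ (a + c) = eC κ a + eC κ c := by
  have : rs C (a + c) = rs C a + rs C c := rfl
  rw [eC_eq, this, toMA_add, map_add, ← eC_eq, ← eC_eq]

theorem eC_smul (α : F) (a : G → F) : eC κ (α • a) = α • eC κ a := by
  have : rs C (α • a) = α • rs C a := rfl
  rw [eC_eq, this, toMA_smul, map_smul, ← eC_eq]

theorem eC_sum {ι : Type} (s : Finset ι) (a : ι → G → F) :
    eC κ (∑ k ∈ s, a k) = ∑ k ∈ s, eC κ (a k) := by
  classical
  induction s using Finset.induction_on with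
  | empty => rw [Finset.sum_empty, Finset.sum_empty, eC_zero]
  | insert x s hx ih => rw [Finset.sum_insert hx, Finset.sum_insert hx, eC_add, ih]

theorem eC_pwF {w : G → F} (hw : SpF C w) (a : G → F) (s : ℕ) :
    eC κ (pwF w s a) = eC κ w ^ s * eC κ a := by
  induction s with
  | zero => rw [H66.pwF_zero, pow_zero, one_mul]
  | succ s ih => rw [H66.pwF_succ, eC_mul κ hw, ih, pow_succ', mul_assoc]

end res

section loc

variable {F : Type} [Field F] {G : Type} [Group G] [Finite G] {m : ℕ} {C D : Subgroup G}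
  {κ : D →* Matrix (Fin m) (Fin m) F} {b₁ w i : G → F} {q : ℕ}

theorem eC_i (hκ : IsIrr κ) (hCD : C ≤ D) (hU : UMF C b₁ w i q) (h1 : eC κ b₁ = 1) :
    eC κ i ≠ 0 := by
  intro h0
  obtain ⟨r, x, y, hxy, hs⟩ := hU.full
  have h2 : eC κ b₁ = 0 := by
    rw [← hs, eC_sum]
    refine Finset.sum_eq_zero fun k _ => ?_
    rw [eC_mul κ ((hxy k).1.mono hCD), eC_mul κ (hU.si.mono hCD), h0, zero_mul, mul_zero]
  rw [h1] at h2
  have : NeZero m := ⟨hκ.1.ne'⟩
  exact one_ne_zero h2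

theorem eC_w (hκ : IsIrr κ) (hCD : C ≤ D) (hDC : D ≤ C) (hU : UMF C b₁ w i q)
    (h1 : eC κ b₁ = 1) : eC κ w = 0 := by
  have hN : NeZero m := ⟨hκ.1.ne'⟩
  have hcl : IsCl (rs D w) := fun x y => hU.cw y (hDC y.2) x
  obtain ⟨c, hc⟩ := comm_scalar (eC κ w) (by
    intro N
    have hN' : N ∈ Submodule.span F (Set.range κ) := by rw [hκ.2]; trivial
    induction hN' using Submodule.span_induction with
    | mem x hx =>
      obtain ⟨t, rfl⟩ := hx
      exact ev_class κ (rs D w) hcl t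
    | zero => rw [zero_mul, mul_zero]
    | add x y _ _ hx hy => rw [add_mul, mul_add, hx, hy]
    | smul c x _ hx => rw [Matrix.smul_mul, Matrix.mul_smul, hx])
  have h2 : eC κ w ^ q = 0 := by
    have h3 := eC_pwF κ (hU.sw.mono hCD) b₁ q
    rw [hU.nil, eC_zero, h1, mul_one] at h3
    exact h3.symm
  rw [hc, smul_pow, one_pow] at h2
  have h4 : c ^ q = 0 := by
    by_contra h5
    exact (one_ne_zero : (1 : Matrix (Fin m) (Fin m) F) ≠ 0)
      ((smul_eq_zero.1 h2).resolve_left h5)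
  have h5 : c = 0 := by
    rcases Nat.eq_zero_or_pos q with h | h
    · rw [h, pow_zero] at h4
      exact absurd h4 one_ne_zero
    · exact (pow_eq_zero_iff h.ne').1 h4
  rw [hc, h5, zero_smul]

/-- the corner of `κ` -/
theorem eC_loc (hκ : IsIrr κ) (hCD : C ≤ D) (hDC : D ≤ C) (hU : UMF C b₁ w i q)
    (h1 : eC κ b₁ = 1) (hq : 0 < q) {a : G → F} (ha : SpF C a) {α : ℕ → F}
    (h : mulF i (mulF a i) = ∑ s ∈ Finset.range q, α s • pwF w s i) :
    eC κ i * (eC κ a * eC κ i) = α 0 • eC κ i := by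
  have h2 := congrArg (eC κ) h
  rw [eC_mul κ (hU.si.mono hCD), eC_mul κ (ha.mono hCD), eC_sum] at h2
  rw [h2, Finset.sum_eq_single 0]
  · rw [eC_smul]
    rfl
  · intro s _ hs
    rw [eC_smul, eC_pwF κ (hU.sw.mono hCD), eC_w hκ hCD hDC hU h1, zero_pow hs, zero_mul,
      smul_zero]
  · intro h3
    exact absurd (Finset.mem_range.2 hq) h3

theorem exists_a (hκ : IsIrr κ) (M : Matrix (Fin m) (Fin m) F) :
    ∃ a : G → F, SpF D a ∧ eC κ a = M := by
  obtain ⟨x, hx⟩ := (lift_surjective κ).2 hκ.2 M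
  obtain ⟨a, rfl⟩ := toMA_surjective x
  exact ⟨extF D a, sp_ext D a, by rw [eC_eq, rs_ext, hx]⟩

/-- `κ(i)` has rank one -/
theorem rank_one (hκ : IsIrr κ) (hCD : C ≤ D) (hDC : D ≤ C) (hU : UMF C b₁ w i q)
    (h1 : eC κ b₁ = 1) (hq : 0 < q) : ∃ u : Fin m → F, u ≠ 0 ∧ (eC κ i).mulVec u = u ∧
      ∀ v : Fin m → F, ∃ α : F, (eC κ i).mulVec v = α • u := by
  classical
  have hi := eC_i hκ hCD hU h1
  have hii : eC κ i * eC κ i = eC κ i := by
    rw [← eC_mul κ (hU.si.mono hCD), hU.ii]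
  obtain ⟨v₀, hv₀⟩ : ∃ v₀ : Fin m → F, (eC κ i).mulVec v₀ ≠ 0 := by
    by_contra hcon
    push Not at hcon
    apply hi
    ext r s
    have := congrFun (hcon (Pi.single s 1)) r
    rw [Matrix.mulVec_single_one] at this
    exact this
  obtain ⟨u, hu⟩ : ∃ u, u = (eC κ i).mulVec v₀ := ⟨_, rfl⟩
  have hu0 : u ≠ 0 := by rw [hu]; exact hv₀
  have hiu : (eC κ i).mulVec u = u := by
    rw [hu, Matrix.mulVec_mulVec, hii]
  refine ⟨u, hu0, hiu, fun v => ?_⟩
  obtain ⟨r, hr⟩ : ∃ r, u r ≠ 0 := by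
    by_contra hcon
    push Not at hcon
    exact hu0 (funext hcon)
  obtain ⟨a, ha, haM⟩ := exists_a (G := G) hκ (Matrix.vecMulVec v (Pi.single r (u r)⁻¹))
  obtain ⟨α, hα⟩ := hU.loc a (ha.mono hDC)
  have h2 := eC_loc hκ hCD hDC hU h1 hq (ha.mono hDC) hα
  have h3 : (eC κ a).mulVec u = v := by
    rw [haM, Matrix.vecMulVec_mulVec]
    have h4 : (Pi.single r (u r)⁻¹ : Fin m → F) ⬝ᵥ u = 1 := by
      rw [single_dotProduct, inv_mul_cancel₀ hr]
    rw [h4]
    simp
  refine ⟨α 0, ?_⟩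
  have h5 : (eC κ i * (eC κ a * eC κ i)).mulVec u = (α 0 • eC κ i).mulVec u := by rw [h2]
  rw [← Matrix.mulVec_mulVec, ← Matrix.mulVec_mulVec, hiu, h3, Matrix.smul_mulVec, hiu] at h5
  exact h5

/-- `κ` is unique -/
theorem kap_uniq {ℓ : ℕ} (hF : GoodF ℓ F) {m' : ℕ} {κ' : D →* Matrix (Fin m') (Fin m') F}
    (hκ : IsIrr κ) (hκ' : IsIrr κ') (hCD : C ≤ D) (hDC : D ≤ C)
    (hU : UMF C b₁ w i q) (h1 : eC κ b₁ = 1) (h1' : eC κ' b₁ = 1) (hq : 0 < q) :
    tr κ = tr κ' := by
  classical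
  by_contra hne
  obtain ⟨a', ha'⟩ := ibj ℓ F hF D Bool (fun t => bif t then m else m')
    (fun t => match t with
      | true => κ
      | false => κ') (by
      intro t
      cases t
      · exact hκ'
      · exact hκ) (by
      intro s t hst
      cases s <;> cases t
      · rfl
      · exact absurd hst.symm hne
      · exact absurd hst hne
      · rfl) (fun t => match t with
      | true => (1 : Matrix (Fin m) (Fin m) F)
      | false => (0 : Matrix (Fin m') (Fin m') F))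
  have e1 : ev κ a' = 1 := ha' true
  have e2 : ev κ' a' = 0 := ha' false
  have e1' : eC κ (extF D a') = 1 := by
    unfold eC
    rw [rs_ext, e1]
  have e2' : eC κ' (extF D a') = 0 := by
    unfold eC
    rw [rs_ext, e2]
  obtain ⟨α, hα⟩ := hU.loc (extF D a') ((sp_ext D a').mono hDC)
  have h2 := eC_loc hκ hCD hDC hU h1 hq ((sp_ext D a').mono hDC) hα
  have h3 := eC_loc hκ' hCD hDC hU h1' hq ((sp_ext D a').mono hDC) hα
  rw [e1', one_mul] at h2
  rw [e2', zero_mul, mul_zero] at h3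
  have hii : eC κ i * eC κ i = eC κ i := by
    rw [← eC_mul κ (hU.si.mono hCD), hU.ii]
  have h4 : α 0 = 0 := (smul_eq_zero.1 h3.symm).resolve_right (eC_i hκ' hCD hU h1')
  rw [hii, h4, zero_smul] at h2
  exact eC_i hκ hCD hU h1 h2

end loc

/-- UQ1 -/
theorem uq1 (ird : IrdStmt) (ind : IndStmt) (ebd : EbdStmt) : Uq1Stmt := by
  intro ℓ hℓ F _ hF G _ _ n P y₁ b w i hD
  have hU := hD.umf
  have hCD : CY y₁ ≤ NY y₁ := H66.CY_le_NY y₁
  have hDC : NY y₁ ≤ CY y₁ := hD.nc
  have hq : 0 < ℓ ^ (n + 1) := pow_pos hℓ.out.pos _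
  have hN := Fintype.ofFinite G
  -- the representation of the normaliser
  have hone : ∀ (k : ℕ) (σ : G →* Matrix (Fin k) (Fin k) F) (m : ℕ)
      (κ : NY y₁ →* Matrix (Fin m) (Fin m) F)
      (π : (Fin k → F) →ₗ[F] (Fin m → F)), IsIrr κ → ev σ b = 1 →
      HW (NY y₁).subtype κ (mrep σ) π (fixW (mrep σ) (bY y₁ b) w)
        (rngW (mrep σ) w (ℓ ^ (n + 1) - 1)) → eC κ (bY y₁ b) = 1 := by
    intro k σ m κ π hκ hσ hHW
    have h := ebd ℓ F hF G n ⊤ P y₁ b w hD.d2s (NY y₁) (NY y₁).subtype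
      (Subgroup.subtype_injective _) (Subgroup.range_subtype _) k σ m κ π hκ hHW b 1
      hD.blk.1.1 (by rw [hσ, map_one])
    rw [map_one] at h
    exact h
  obtain ⟨k, σ, hσ, hσb⟩ := BN.H90.exists_rep ibn hF hD.blk.1 hD.blk.2.1
  obtain ⟨c, hc1, -, hc2⟩ := eig F G k σ hσ b hD.blk.1.1
  have hσ1 : ev σ b = 1 := by
    rcases hc2 hD.blk.1 with h | h
    · rw [h, map_zero] at hc1
      exact absurd hc1 hσb
    · rw [hc1, h, map_one]
  obtain ⟨m, κ, π, hκ, hHW⟩ := ird ℓ F hF G n ⊤ P y₁ b w hD.d2s (NY y₁) (NY y₁).subtype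
    (Subgroup.range_subtype _) k σ hσ hσ1
  have hκ1 := hone k σ m κ π hκ hσ1 hHW
  refine ⟨k, σ, ⟨hσ, hσ1, fun k' σ' hσ' hσ1' => ?_⟩, ?_⟩
  · obtain ⟨m', κ', π', hκ', hHW'⟩ := ird ℓ F hF G n ⊤ P y₁ b w hD.d2s (NY y₁)
      (NY y₁).subtype (Subgroup.range_subtype _) k' σ' hσ' hσ1'
    have hκ1' := hone k' σ' m' κ' π' hκ' hσ1' hHW'
    exact ind ℓ F hF G n ⊤ P y₁ b w hD.d2s (NY y₁) (NY y₁).subtype
      (Subgroup.range_subtype _) k' k σ' σ hσ' hσ hσ1' hσ1 m' m κ' κ π' π hκ' hκ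
      (kap_uniq hF hκ' hκ hCD hDC hU hκ1' hκ1 hq) hHW' hHW
  · obtain ⟨u, hu0, hiu, hur⟩ := rank_one hκ hCD hDC hU hκ1 hq
    obtain ⟨v, hv, hvu⟩ := hHW.sur u
    -- `π` and `i`
    have hπi : ∀ v ∈ fixW (mrep σ) (bY y₁ b) w, π (evV (mrep σ) i v) =
        (eC κ i).mulVec (π v) := by
      classical
      intro v hv
      have := Fintype.ofFinite (NY y₁)
      rw [D66.evV_apply, map_sum]
      have h1 : ∀ g : G, π (i g • mrep σ g v) =
          if g ∈ NY y₁ then π (i g • mrep σ g v) else 0 := by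
        intro g
        split_ifs with h
        · rfl
        · rw [hU.si g fun h' => h (hCD h'), zero_smul, map_zero]
      rw [Finset.sum_congr rfl fun g _ => h1 g, ← Finset.sum_filter]
      have h2 : ∑ g ∈ Finset.univ.filter (fun g => g ∈ NY y₁), π (i g • mrep σ g v) =
          ∑ g : NY y₁, π (i g • mrep σ (g : G) v) := by
        refine Finset.sum_subtype _ (fun x => ?_) (fun g => π (i g • mrep σ g v))
        rw [Finset.mem_filter]
        simp
      rw [h2]
      unfold eC ev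
      rw [finsum_eq_sum_of_fintype, Matrix.sum_mulVec]
      refine Finset.sum_congr rfl fun g _ => ?_
      rw [map_smul, Matrix.smul_mulVec]
      have h3 := hHW.int g v hv
      change i g • π (mrep σ (g : G) v) = i g • (κ g).mulVec (π v)
      rw [← h3]
      rfl
    have hcomm : ∀ v, evV (mrep σ) w (evV (mrep σ) i v) = evV (mrep σ) i (evV (mrep σ) w v) := by
      intro v
      rw [← H66.evV_mulF_apply, ← H66.evV_mulF_apply, H66.cm_comm hU.cw hU.si]
    have hbi : ∀ v, evV (mrep σ) (bY y₁ b) (evV (mrep σ) i v) = evV (mrep σ) i v := by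
      intro v
      rw [← H66.evV_mulF_apply, hU.bi]
    have hii : ∀ v, evV (mrep σ) i (evV (mrep σ) i v) = evV (mrep σ) i v := by
      intro v
      rw [← H66.evV_mulF_apply, hU.ii]
    have ht : evV (mrep σ) i v ∈ fixW (mrep σ) (bY y₁ b) w :=
      ⟨hbi v, by rw [hcomm, hv.2, map_zero]⟩
    have hπt : π (evV (mrep σ) i v) = u := by
      rw [hπi v hv, hvu, hiu]
    refine ⟨evV (mrep σ) i v, ht, hii v, ?_, ?_⟩
    · intro h
      apply hu0
      rw [← hπt]
      exact (hHW.ker _ ht).2 h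
    · intro v' hv' hw'
      have hv'f : v' ∈ fixW (mrep σ) (bY y₁ b) w := by
        refine ⟨?_, hw'⟩
        rw [← hv']
        exact hbi v'
      obtain ⟨α, hα⟩ := hur (π v')
      refine ⟨α, (hHW.ker _ (sub_mem hv'f ((fixW (mrep σ) (bY y₁ b) w).smul_mem α ht))).1 ?_⟩
      rw [map_sub, map_smul, hπt, ← hα, ← hπi v' hv'f, hv', sub_self]

end Pool.Agent.PP.CD2.H36
end
end -- Pool.Agent.Helper36_D2.Uq1

section -- Pool.Agent.Helper46_D2.Reg

/-!
# Part D2: the regular representation, subrepresentations and quotients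
-/

open scoped BigOperators

set_option linter.unusedSectionVars false

noncomputable section

namespace Pool.Agent.PP.CD2.H46

open Pool.Agent.PP Pool.Agent.Helper51_AWC Pool.Agent.Helper79_WRA Pool.Agent.PP.H20

variable {F : Type} [Field F] {G : Type} [Group G] [Finite G] {V : Type} [AddCommGroup V]
  [Module F V]

variable (F G) in
/-- the left regular representation -/
def lreg : Representation F G (G → F) where
  toFun x :=
    { toFun := fun a g => a (x⁻¹ * g)
      map_add' := fun _ _ => rfl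
      map_smul' := fun _ _ => rfl }
  map_one' := by
    apply LinearMap.ext
    intro a
    funext g
    change a (1⁻¹ * g) = a g
    rw [inv_one, one_mul]
  map_mul' x y := by
    apply LinearMap.ext
    intro a
    funext g
    change a ((x * y)⁻¹ * g) = a (y⁻¹ * (x⁻¹ * g))
    rw [mul_inv_rev, mul_assoc]

theorem lreg_apply (x : G) (a : G → F) : lreg F G x a = fun g => a (x⁻¹ * g) := rfl

theorem evV_lreg (a x : G → F) : evV (lreg F G) a x = mulF a x := by
  have := Fintype.ofFinite G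
  rw [D66.evV_apply]
  funext g
  rw [Finset.sum_apply, mulF, finsum_eq_sum_of_fintype]
  rfl

/-- matrix coefficients -/
def alp (ρ : Representation F G V) (η : V →ₗ[F] F) : V →ₗ[F] (G → F) where
  toFun v g := η (ρ g⁻¹ v)
  map_add' u v := by
    funext g
    change η (ρ g⁻¹ (u + v)) = η (ρ g⁻¹ u) + η (ρ g⁻¹ v)
    rw [map_add, map_add]
  map_smul' c v := by
    funext g
    change η (ρ g⁻¹ (c • v)) = c • η (ρ g⁻¹ v)
    rw [map_smul, map_smul]

theorem alp_apply (ρ : Representation F G V) (η : V →ₗ[F] F) (v : V) (g : G) :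
    alp ρ η v g = η (ρ g⁻¹ v) := rfl

theorem alp_one (ρ : Representation F G V) (η : V →ₗ[F] F) (v : V) : alp ρ η v 1 = η v := by
  rw [alp_apply, inv_one, map_one]
  rfl

theorem mulF_alp (ρ : Representation F G V) (η : V →ₗ[F] F) (a : G → F) (v : V) :
    mulF a (alp ρ η v) = alp ρ η (evV ρ a v) := by
  have := Fintype.ofFinite G
  funext g
  rw [alp_apply, D66.evV_apply, map_sum, map_sum, mulF, finsum_eq_sum_of_fintype]
  refine Finset.sum_congr rfl fun h _ => ?_
  rw [map_smul, map_smul, alp_apply, mul_inv_rev, inv_inv, map_mul]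
  rfl

theorem alp_mulF (ρ : Representation F G V) (η : V →ₗ[F] F) (a : G → F) (v : V) :
    mulF (alp ρ η v) a = alp ρ (η ∘ₗ evV ρ a) v := by
  have := Fintype.ofFinite G
  funext g
  rw [alp_apply, LinearMap.comp_apply, D66.evV_apply, map_sum, mulF, finsum_eq_sum_of_fintype]
  symm
  refine Fintype.sum_equiv ((Equiv.inv G).trans (Equiv.mulLeft g)) _ _ fun m => ?_
  change _ = alp ρ η v (g * m⁻¹) * a ((g * m⁻¹)⁻¹ * g)
  have e1 : (g * m⁻¹)⁻¹ * g = m := by group
  rw [e1, map_smul, alp_apply, smul_eq_mul, mul_comm]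
  congr 2
  rw [← Module.End.mul_apply, ← map_mul]
  congr 2
  group

/-- subrepresentations -/
def subr (ρ : Representation F G V) (S : Submodule F V) (h : Stb ⊤ ρ S) :
    Representation F G S where
  toFun g := (ρ g).restrict (fun v hv => h g trivial v hv)
  map_one' := by
    apply LinearMap.ext
    intro v
    apply Subtype.ext
    rw [LinearMap.coe_restrict_apply, map_one]
    rfl
  map_mul' x y := by
    apply LinearMap.ext
    intro v
    apply Subtype.ext
    rw [LinearMap.coe_restrict_apply, map_mul]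
    rfl

theorem subr_coe (ρ : Representation F G V) (S : Submodule F V) (h : Stb ⊤ ρ S) (g : G) (v : S) :
    ((subr ρ S h g v : S) : V) = ρ g v := rfl

theorem evV_subr (ρ : Representation F G V) (S : Submodule F V) (h : Stb ⊤ ρ S) (a : G → F)
    (v : S) : ((evV (subr ρ S h) a v : S) : V) = evV ρ a v := by
  have := Fintype.ofFinite G
  rw [D66.evV_apply, D66.evV_apply, Submodule.coe_sum]
  rfl

/-- quotient representations -/
def quor (ρ : Representation F G V) (A : Submodule F V) (h : Stb ⊤ ρ A) :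
    Representation F G (V ⧸ A) where
  toFun g := A.mapQ A (ρ g) (fun v hv => h g trivial v hv)
  map_one' := by
    apply LinearMap.ext
    intro v
    obtain ⟨v, rfl⟩ := A.mkQ_surjective v
    rw [Submodule.mkQ_apply, Submodule.mapQ_apply, map_one]
    rfl
  map_mul' x y := by
    apply LinearMap.ext
    intro v
    obtain ⟨v, rfl⟩ := A.mkQ_surjective v
    rw [Submodule.mkQ_apply, Submodule.mapQ_apply, map_mul]
    rfl

theorem quor_mk (ρ : Representation F G V) (A : Submodule F V) (h : Stb ⊤ ρ A) (g : G) (v : V) :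
    quor ρ A h g (A.mkQ v) = A.mkQ (ρ g v) := rfl

theorem evV_quor (ρ : Representation F G V) (A : Submodule F V) (h : Stb ⊤ ρ A) (a : G → F)
    (v : V) : evV (quor ρ A h) a (A.mkQ v) = A.mkQ (evV ρ a v) := by
  have := Fintype.ofFinite G
  rw [D66.evV_apply, D66.evV_apply, map_sum]
  refine Finset.sum_congr rfl fun g _ => ?_
  rw [map_smul, quor_mk]

/-- powers act as powers -/
theorem evV_pow_mem (ρ : Representation F G V) (w : G → F) (j : ℕ) (v : V) :
    ((evV ρ w) ^ (j + 1)) v = evV ρ w (((evV ρ w) ^ j) v) := by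
  rw [pow_succ', Module.End.mul_apply]

end Pool.Agent.PP.CD2.H46
end
end -- Pool.Agent.Helper46_D2.Reg

section -- Pool.Agent.Helper46_D2.Xpr0

/-!
# Part D2, module XPR, first part: the spaces `M_s`
-/

open scoped BigOperators

set_option linter.unusedSectionVars false

noncomputable section

namespace Pool.Agent.PP.CD2.H46

open Pool.Agent.PP Pool.Agent.Helper51_AWC Pool.Agent.Helper79_WRA Pool.Agent.PP.H20
open Pool.Agent.PP.CD2.H66 (toMA_pwF toMA_pwR pwF_succ pwR_succ pwF_zero pwR_zero cm_comm comm_of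
  umf_ums ums_nil' ums_wb toMA_sum')

variable {F : Type} [Field F] {G : Type} [Group G] [Finite G] {V : Type} [AddCommGroup V]
  [Module F V]

/-! ## Restriction to a subgroup -/

/-- restriction to `C` -/
def res (C : Subgroup G) (x : G → F) : G → F :=
  open Classical in fun g => if g ∈ C then x g else 0

theorem res_of {C : Subgroup G} {g : G} (h : g ∈ C) (x : G → F) : res C x g = x g := by
  classical
  unfold res
  rw [if_pos h]

theorem res_off {C : Subgroup G} {g : G} (h : g ∉ C) (x : G → F) : res C x g = 0 := by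
  classical
  unfold res
  rw [if_neg h]

theorem mulF_res {C : Subgroup G} {a : G → F} (ha : SpF C a) (x : G → F) :
    mulF a (res C x) = res C (mulF a x) := by
  have := Fintype.ofFinite G
  funext g
  by_cases hg : g ∈ C
  · rw [res_of hg]
    unfold mulF
    rw [finsum_eq_sum_of_fintype, finsum_eq_sum_of_fintype]
    refine Finset.sum_congr rfl fun t _ => ?_
    by_cases ht : t ∈ C
    · rw [res_of (mul_mem (inv_mem ht) hg)]
    · rw [ha t ht, zero_mul, zero_mul]
  · rw [res_off hg]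
    unfold mulF
    rw [finsum_eq_sum_of_fintype]
    refine Finset.sum_eq_zero fun t _ => ?_
    by_cases ht : t ∈ C
    · rw [res_off, mul_zero]
      intro h
      apply hg
      have := mul_mem ht h
      rwa [mul_inv_cancel_left] at this
    · rw [ha t ht, zero_mul]

theorem res_mulF {C : Subgroup G} {a : G → F} (ha : SpF C a) (x : G → F) :
    mulF (res C x) a = res C (mulF x a) := by
  have := Fintype.ofFinite G
  funext g
  by_cases hg : g ∈ C
  · rw [res_of hg]
    unfold mulF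
    rw [finsum_eq_sum_of_fintype, finsum_eq_sum_of_fintype]
    refine Finset.sum_congr rfl fun t _ => ?_
    by_cases ht : t ∈ C
    · rw [res_of ht]
    · rw [ha (t⁻¹ * g), mul_zero, mul_zero]
      intro h
      apply ht
      have := mul_mem hg (inv_mem h)
      rwa [mul_inv_rev, inv_inv, mul_inv_cancel_left] at this
  · rw [res_off hg]
    unfold mulF
    rw [finsum_eq_sum_of_fintype]
    refine Finset.sum_eq_zero fun t _ => ?_
    by_cases ht : t ∈ C
    · rw [ha (t⁻¹ * g), mul_zero]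
      intro h
      apply hg
      have := mul_mem ht h
      rwa [mul_inv_cancel_left] at this
    · rw [res_off ht, zero_mul]

theorem pwF_res {C : Subgroup G} {w : G → F} (hw : SpF C w) (s : ℕ) (x : G → F) :
    pwF w s (res C x) = res C (pwF w s x) := by
  induction s with
  | zero => rfl
  | succ s ih => rw [pwF_succ, ih, mulF_res hw, pwF_succ]

theorem pwR_res {C : Subgroup G} {w : G → F} (hw : SpF C w) (s : ℕ) (x : G → F) :
    pwR w s (res C x) = res C (pwR w s x) := by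
  induction s with
  | zero => rfl
  | succ s ih => rw [pwR_succ, ih, res_mulF hw, pwR_succ]

/-- the value at `1` -/
theorem loc_val {C : Subgroup G} {b w i : G → F} {q : ℕ} (h : UMF C b w i q) {s : ℕ} {x : G → F}
    (h1 : mulF i x = x) (h2 : mulF x i = x) (h3 : pwR w s x = 0) : pwF w s x 1 = 0 := by
  obtain ⟨α, hα⟩ := h.loc (res C x) (fun g hg => res_off hg x)
  rw [res_mulF h.si, h2, mulF_res h.si, h1] at hα
  have hwi : toMA w * toMA i = toMA i * toMA w := comm_of h.cw h.si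
  have hc : toMA (res C x) * toMA w = toMA w * toMA (res C x) := by
    rw [hα, toMA_sum', Finset.mul_sum, Finset.sum_mul]
    refine Finset.sum_congr rfl fun j _ => ?_
    rw [toMA_smul, smul_mul_assoc, mul_smul_comm, toMA_pwF, mul_assoc, ← hwi, ← mul_assoc,
      ← mul_assoc, ← pow_succ, ← pow_succ']
  have hc' : toMA (res C x) * toMA w ^ s = toMA w ^ s * toMA (res C x) := Commute.pow_right hc s
  have e1 : pwF w s (res C x) = pwR w s (res C x) := by
    apply toMA_injective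
    rw [toMA_pwF, toMA_pwR, hc']
  rw [pwF_res h.sw, pwR_res h.sw, h3] at e1
  have e2 := congrFun e1 1
  rw [res_of (one_mem C), res_of (one_mem C)] at e2
  exact e2

/-! ## The spaces `M_s` -/

theorem pwR_alp (ρ : Representation F G V) (η : V →ₗ[F] F) (w : G → F) (s : ℕ) (v : V) :
    pwR w s (alp ρ η v) = alp ρ (η ∘ₗ (evV ρ w) ^ s) v := by
  induction s with
  | zero => rfl
  | succ s ih => rw [pwR_succ, ih, alp_mulF, LinearMap.comp_assoc, pow_succ]; rfl

theorem pwF_alp (ρ : Representation F G V) (η : V →ₗ[F] F) (w : G → F) (s : ℕ) (v : V) :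
    pwF w s (alp ρ η v) = alp ρ η (((evV ρ w) ^ s) v) := by
  induction s with
  | zero => rfl
  | succ s ih => rw [pwF_succ, ih, mulF_alp, pow_succ', Module.End.mul_apply]

/-- the space `M_s` -/
def Ms (b w i : G → F) (s : ℕ) : Submodule F (G → F) where
  carrier := {x | MSw b w i s x}
  add_mem' := by
    rintro x y ⟨h1, h2, h3⟩ ⟨h4, h5, h6⟩
    refine ⟨by rw [mulF_add, h1, h4], by rw [add_mulF, h2, h5], ?_⟩
    apply toMA_injective
    have h3' := congrArg toMA h3
    have h6' := congrArg toMA h6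
    rw [toMA_pwR] at h3' h6' ⊢
    rw [toMA_add, add_mul, h3', h6', toMA_zero, add_zero]
  zero_mem' := by
    refine ⟨mulF_zero _, zero_mulF _, ?_⟩
    apply toMA_injective
    rw [toMA_pwR, toMA_zero, zero_mul]
  smul_mem' := by
    rintro c x ⟨h1, h2, h3⟩
    refine ⟨by rw [mulF_smul, h1], by rw [smul_mulF, h2], ?_⟩
    apply toMA_injective
    have h3' := congrArg toMA h3
    rw [toMA_pwR] at h3' ⊢
    rw [toMA_smul, smul_mul_assoc, h3', toMA_zero, smul_zero]

theorem mem_Ms {b w i : G → F} {s : ℕ} {x : G → F} : x ∈ Ms b w i s ↔ MSw b w i s x := Iff.rfl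

theorem Ms_stb {b : G → F} (hb : IsCl b) (w i : G → F) (s : ℕ) :
    Stb ⊤ (lreg F G) (Ms b w i s) := by
  rintro g - x ⟨h1, h2, h3⟩
  have e : toMA (lreg F G g x) = MonoidAlgebra.single g (1 : F) * toMA x :=
    (single_mul_toMA g x).symm
  refine ⟨?_, ?_, ?_⟩
  · apply toMA_injective
    rw [toMA_mulF, e, ← mul_assoc, (Pool.Agent.PP.H20.isCl_iff b).1 hb, mul_assoc, ← toMA_mulF, h1]
  · apply toMA_injective
    rw [toMA_mulF, e, mul_assoc, ← toMA_mulF, h2]
  · apply toMA_injective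
    have h3' := congrArg toMA h3
    rw [toMA_pwR] at h3' ⊢
    rw [e, mul_assoc, h3', toMA_zero, mul_zero]

theorem mulF_mem {b : G → F} (hb : IsCl b) {w i : G → F} {s : ℕ} (a : G → F) {x : G → F}
    (hx : x ∈ Ms b w i s) : mulF a x ∈ Ms b w i s := by
  rw [← evV_lreg]
  exact D66.evV_mem (N := ⊤) (Ms_stb hb w i s) (fun x hx => absurd trivial hx) hx

/-- the properties of the linear form -/
structure Eta (ρ : Representation F G V) (b w i : G → F) (s : ℕ) (η : V →ₗ[F] F) : Prop where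
  one : ∀ v, evV ρ b v = v
  ei : η ∘ₗ evV ρ i = η
  ew : η ∘ₗ (evV ρ w) ^ s = 0

theorem alp_mem {ρ : Representation F G V} {b w i : G → F} {s : ℕ} {η : V →ₗ[F] F}
    (h : Eta ρ b w i s η) (v : V) : alp ρ η v ∈ Ms b w i s := by
  refine ⟨?_, ?_, ?_⟩
  · rw [mulF_alp, h.one]
  · rw [alp_mulF, h.ei]
  · rw [pwR_alp, h.ew]
    funext g
    rfl

theorem alp_stb (ρ : Representation F G V) (η : V →ₗ[F] F) :
    Stb ⊤ (lreg F G) (LinearMap.range (alp ρ η)) := by
  rintro g - _ ⟨v, rfl⟩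
  refine ⟨ρ g v, ?_⟩
  funext x
  change η (ρ x⁻¹ (ρ g v)) = η (ρ (g⁻¹ * x)⁻¹ v)
  rw [mul_inv_rev, inv_inv, map_mul]
  rfl

theorem pow_restrict {E : Submodule F V} {W : V →ₗ[F] V} (hW : ∀ v ∈ E, W v ∈ E) (j : ℕ) (v : E) :
    (((W.restrict hW ^ j) v : E) : V) = (W ^ j) v := by
  induction j with
  | zero => rfl
  | succ j ih =>
    rw [pow_succ', Module.End.mul_apply, LinearMap.coe_restrict_apply, ih, pow_succ',
      Module.End.mul_apply]

end Pool.Agent.PP.CD2.H46
end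
end -- Pool.Agent.Helper46_D2.Xpr0

section -- Pool.Agent.Helper46_D2.Xpr1

/-!
# Part D2, module XPR, second part: the fixed points of the cokernel
-/

open scoped BigOperators

set_option linter.unusedSectionVars false

noncomputable section

namespace Pool.Agent.PP.CD2.H46

open Pool.Agent.PP Pool.Agent.Helper51_AWC Pool.Agent.Helper79_WRA Pool.Agent.PP.H20
open Pool.Agent.PP.CD2.H66 (toMA_pwF toMA_pwR pwF_succ pwR_succ pwF_zero pwR_zero cm_comm comm_of
  umf_ums ums_nil' ums_wb toMA_sum')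

variable {F : Type} [Field F] {G : Type} [Group G] [Finite G] {V : Type} [AddCommGroup V]
  [Module F V]

theorem pwF_one (w a : G → F) : pwF w 1 a = mulF w a := rfl

theorem pwF_add' (w a c : G → F) (s : ℕ) : pwF w s (a + c) = pwF w s a + pwF w s c := by
  apply toMA_injective
  rw [toMA_pwF, toMA_add, toMA_add, toMA_pwF, toMA_pwF, mul_add]

theorem pwF_sub' (w a c : G → F) (s : ℕ) : pwF w s (a - c) = pwF w s a - pwF w s c := by
  apply toMA_injective
  rw [toMA_pwF, toMA_sub, toMA_sub, toMA_pwF, toMA_pwF, mul_sub]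

theorem pwF_smul' (w a : G → F) (c : F) (s : ℕ) : pwF w s (c • a) = c • pwF w s a := by
  apply toMA_injective
  rw [toMA_pwF, toMA_smul, toMA_smul, toMA_pwF, mul_smul_comm]

theorem core (hnlk : NlkStmt) (hxbm : XbmStmt) {ℓ : ℕ} [Fact ℓ.Prime] (hF : GoodF ℓ F) {n : ℕ}
    {P : Subgroup G} {y₁ : G} {b w i : G → F} (h : C4S ℓ n P y₁ b w i) (ρ : Representation F G V)
    {t u : V} {s : ℕ} (hs1 : 1 ≤ s) (hs2 : s + 1 ≤ ℓ ^ (n + 1)) (hti : evV ρ i t = t)
    (htw : evV ρ w t = 0) (hut : t = ((evV ρ w) ^ (s - 1)) u) (hui : evV ρ i u = u)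
    (htn : t ∉ LinearMap.range ((evV ρ w) ^ s))
    (hker : ∀ v, evV ρ i v = v → evV ρ w v = 0 →
      ∃ α : F, v - α • t ∈ rngW ρ w (ℓ ^ (n + 1) - 1))
    {η : V →ₗ[F] F} (hη : Eta ρ b w i s η) (hηt : η t = 1)
    (hinj : Function.Injective (alp ρ η)) {x : G → F} (hx : MSw b w i s x)
    (hix : mulF i x = x) {v₀ : V} (hv₀ : mulF w x = alp ρ η v₀) :
    ∃ (v : V) (y : G → F), MSw b w i s y ∧ x = alp ρ η v + pwF w (ℓ ^ (n + 1) - 1) y := by
  have hq : 0 < ℓ ^ (n + 1) := pow_pos (Fact.out : ℓ.Prime).pos _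
  have hums : UMS (CY y₁) (bY y₁ b) w (ℓ ^ (n + 1)) := umf_ums h.umf
  have hwq : toMA w ^ (ℓ ^ (n + 1)) = 0 := ums_nil' hums hq
  have hwi : mulF w i = mulF i w := cm_comm h.umf.cw h.umf.si
  have hcl : IsCl b := h.d2s.idem.1
  have hbw : ∀ a : G → F, mulF b a = mulF a b := fun a => mulF_comm_of_cl hcl a
  have hwqV : (evV ρ w) ^ (ℓ ^ (n + 1)) = 0 := by
    have e1 : pwF w (ℓ ^ (n + 1)) (bY y₁ b) = 0 := H66.ums_nil hums
    have e2 : evV ρ w * evV ρ (bY y₁ b) = evV ρ w := by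
      rw [← H66.evV_mulF, ums_wb hums]
    have e3 : (evV ρ w) ^ (ℓ ^ (n + 1)) * evV ρ (bY y₁ b) = 0 := by
      rw [← H66.evV_pwF, e1, H66.evV_zero]
    obtain ⟨r, hr⟩ : ∃ r, ℓ ^ (n + 1) = r + 1 := ⟨ℓ ^ (n + 1) - 1, by omega⟩
    rw [hr] at e3 ⊢
    rw [pow_succ, mul_assoc, e2, ← pow_succ] at e3
    exact e3
  -- the space `i V`
  let E : Submodule F V := LinearMap.ker (evV ρ i - LinearMap.id)
  have hE : ∀ v, v ∈ E ↔ evV ρ i v = v := by
    intro v
    rw [LinearMap.mem_ker, LinearMap.sub_apply, sub_eq_zero]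
    rfl
  have hcomm : ∀ v, evV ρ i (evV ρ w v) = evV ρ w (evV ρ i v) := by
    intro v
    rw [← H66.evV_mulF_apply, ← H66.evV_mulF_apply, hwi]
  have hcommj : ∀ (j : ℕ) v, evV ρ i (((evV ρ w) ^ j) v) = ((evV ρ w) ^ j) (evV ρ i v) := by
    intro j v
    induction j with
    | zero => rfl
    | succ j ih =>
      rw [pow_succ', Module.End.mul_apply, hcomm, ih, Module.End.mul_apply]
  have hWE : ∀ v ∈ E, evV ρ w v ∈ E := by
    intro v hv
    rw [hE] at hv ⊢
    rw [hcomm, hv]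
  have hii : ∀ v, evV ρ i v ∈ E := by
    intro v
    rw [hE, ← H66.evV_mulF_apply, h.umf.ii]
  let W : E →ₗ[F] E := (evV ρ w).restrict hWE
  have hWj : ∀ (j : ℕ) (v : E), (((W ^ j) v : E) : V) = ((evV ρ w) ^ j) v :=
    fun j v => pow_restrict hWE j v
  have hW1 : ∀ v : E, ((W v : E) : V) = evV ρ w v := fun v => rfl
  -- `v₀` may be replaced by `i v₀`
  have hv0E : evV ρ i v₀ = v₀ := by
    apply hinj
    rw [← mulF_alp, ← hv₀, ← mulF_assoc, ← hwi, mulF_assoc, hix]
  have hv0q : ((evV ρ w) ^ (ℓ ^ (n + 1) - 1)) v₀ = 0 := by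
    apply hinj
    rw [← pwF_alp, ← hv₀, map_zero]
    apply toMA_injective
    rw [toMA_pwF, toMA_mulF, ← mul_assoc, ← pow_succ, Nat.sub_add_cancel hq, hwq, zero_mul,
      toMA_zero]
  obtain ⟨p, v', hv'⟩ := hnlk F E W (ℓ ^ (n + 1)) s ⟨t, (hE t).2 hti⟩ ⟨u, (hE u).2 hui⟩
    (by
      apply LinearMap.ext
      intro v
      apply Subtype.ext
      rw [hWj, hwqV]
      rfl)
    hs1 hs2
    (by
      apply Subtype.ext
      rw [hWj]
      exact hut)
    (by
      rintro ⟨a, ha⟩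
      apply htn
      refine ⟨a, ?_⟩
      have := congrArg Subtype.val ha
      rw [hWj] at this
      exact this)
    (by
      intro v hv
      have h1 : evV ρ w (v : V) = 0 := by
        have := congrArg Subtype.val hv
        rwa [hW1] at this
      obtain ⟨α, a, ha⟩ := hker v ((hE _).1 v.2) h1
      refine ⟨α, ⟨evV ρ i a, hii a⟩, ?_⟩
      apply Subtype.ext
      change (v : V) = α • t + (((W ^ (ℓ ^ (n + 1) - 1)) ⟨evV ρ i a, hii a⟩ : E) : V)
      rw [hWj]
      change (v : V) = α • t + ((evV ρ w) ^ (ℓ ^ (n + 1) - 1)) (evV ρ i a)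
      rw [← hcommj, ha, map_sub, map_smul, hti, (hE _).1 v.2]
      abel)
    ⟨v₀, (hE v₀).2 hv0E⟩
    (by
      apply Subtype.ext
      rw [hWj]
      exact hv0q)
  have hv'1 : v₀ = p • u + evV ρ w v' := by
    have := congrArg Subtype.val hv'
    exact this
  have hv'i : evV ρ i (v' : V) = v' := (hE _).1 v'.2
  -- the element `x''`
  obtain ⟨x', hx'⟩ : ∃ x', x' = x - alp ρ η v' := ⟨_, rfl⟩
  have hx'M : MSw b w i s x' := by
    rw [hx']
    exact (Ms b w i s).sub_mem (mem_Ms.2 hx) (alp_mem hη _)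
  have hx'i : mulF i x' = x' := by
    rw [hx', mulF_sub, hix, mulF_alp, hv'i]
  have hwx' : mulF w x' = p • alp ρ η u := by
    rw [hx', mulF_sub, hv₀, mulF_alp, ← map_sub, ← map_smul]
    congr 1
    rw [hv'1]
    abel
  have hp : p = 0 := by
    have e1 := loc_val h.umf hx'i hx'M.2.1 hx'M.2.2
    have e2 : pwF w s x' = p • alp ρ η t := by
      obtain ⟨r, rfl⟩ : ∃ r, s = r + 1 := ⟨s - 1, by omega⟩
      have e3 : pwF w (r + 1) x' = pwF w r (mulF w x') := H66.pwF_add w x' r 1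
      rw [e3, hwx', pwF_smul', pwF_alp]
      congr 2
      rw [hut]
      rfl
    rw [e2] at e1
    have e4 : p * alp ρ η t 1 = 0 := e1
    rw [alp_one, hηt, mul_one] at e4
    exact e4
  rw [hp, zero_smul] at hwx'
  obtain ⟨α, z, hz1, hz2, hz3, -⟩ := hxbm ℓ F hF G n P y₁ b w i h s (by omega) x' hx'i hx'M.2.1
    hwx' hx'M.2.2
  obtain ⟨β, z', hz1', hz2', hz3', hz4'⟩ := hxbm ℓ F hF G n P y₁ b w i h s (by omega)
    (alp ρ η t) (by rw [mulF_alp, hti]) (alp_mem hη t).2.1 (by rw [mulF_alp, htw, map_zero])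
    (alp_mem hη t).2.2
  have hβ : β ≠ 0 := by
    intro h0
    have e1 := hz4' 1 (one_mem _)
    rw [alp_one, hηt, h0, zero_mul] at e1
    exact one_ne_zero e1
  -- multiply by `b`
  have hM : ∀ c : G → F, mulF c i = c → pwR w s c = 0 → MSw b w i s (mulF b c) := by
    intro c h1 h2
    refine ⟨?_, ?_, ?_⟩
    · rw [← mulF_assoc, h.d2s.idem.2]
    · rw [mulF_assoc, h1]
    · apply toMA_injective
      have h3 := congrArg toMA h2
      rw [toMA_pwR, toMA_zero] at h3
      rw [toMA_pwR, toMA_mulF, mul_assoc, h3, mul_zero, toMA_zero]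
  have hbp : ∀ (j : ℕ) (c : G → F), mulF b (pwF w j c) = pwF w j (mulF b c) := by
    intro j c
    induction j with
    | zero => rfl
    | succ j ih => rw [pwF_succ, ← mulF_assoc, hbw w, mulF_assoc, ih, pwF_succ]
  have e1 : x' = α • mulF b (pwF w (ℓ ^ (n + 1) - 1) i) +
      pwF w (ℓ ^ (n + 1) - 1) (mulF b z) := by
    have := congrArg (mulF b) hz1
    rw [hx'M.1, mulF_add, mulF_smul, hbp _ z] at this
    exact this
  have e2 : alp ρ η t = β • mulF b (pwF w (ℓ ^ (n + 1) - 1) i) +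
      pwF w (ℓ ^ (n + 1) - 1) (mulF b z') := by
    have := congrArg (mulF b) hz1'
    rw [(alp_mem hη t).1, mulF_add, mulF_smul, hbp _ z'] at this
    exact this
  refine ⟨(α * β⁻¹) • t + v', mulF b z - (α * β⁻¹) • mulF b z', ?_, ?_⟩
  · exact (Ms b w i s).sub_mem (mem_Ms.2 (hM z hz2 hz3))
      ((Ms b w i s).smul_mem _ (mem_Ms.2 (hM z' hz2' hz3')))
  · have e3 : x = x' + alp ρ η v' := by rw [hx']; abel
    have e4 : (α * β⁻¹) • (β • mulF b (pwF w (ℓ ^ (n + 1) - 1) i)) =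
        α • mulF b (pwF w (ℓ ^ (n + 1) - 1) i) := by
      rw [smul_smul, mul_assoc, inv_mul_cancel₀ hβ, mul_one]
    rw [e3, map_add, map_smul, pwF_sub', pwF_smul', e2, smul_add, e4, e1]
    abel

end Pool.Agent.PP.CD2.H46
end
end -- Pool.Agent.Helper46_D2.Xpr1

section -- Pool.Agent.Helper46_D2.Xpr

/-!
# Part D2, module XPR: the cokernel is projective
-/

open scoped BigOperators

set_option linter.unusedSectionVars false

noncomputable section

namespace Pool.Agent.PP.CD2.H46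

open Pool.Agent.PP Pool.Agent.Helper51_AWC Pool.Agent.Helper79_WRA Pool.Agent.PP.H20
open Pool.Agent.PP.CD2.H66 (toMA_pwF toMA_pwR pwF_succ pwR_succ pwF_zero pwR_zero cm_comm comm_of
  umf_ums ums_nil' ums_wb toMA_sum')

variable {F : Type} [Field F] {G : Type} [Group G] [Finite G] {V : Type} [AddCommGroup V]
  [Module F V]

theorem exists_s (W : V →ₗ[F] V) (q : ℕ) (t : V) (ht : t ∉ LinearMap.range (W ^ (q - 1))) :
    ∃ s, 1 ≤ s ∧ s + 1 ≤ q ∧ t ∈ LinearMap.range (W ^ (s - 1)) ∧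
      t ∉ LinearMap.range (W ^ s) := by
  classical
  have hex : ∃ m, t ∉ LinearMap.range (W ^ m) := ⟨q - 1, ht⟩
  have h0 : Nat.find hex ≠ 0 := by
    intro h
    have h1 := Nat.find_spec hex
    rw [h] at h1
    exact h1 ⟨t, rfl⟩
  have hle : Nat.find hex ≤ q - 1 := Nat.find_le ht
  refine ⟨Nat.find hex, by omega, by omega, ?_, Nat.find_spec hex⟩
  by_contra h
  have := Nat.find_le (h := hex) h
  omega

theorem exists_eta [FiniteDimensional F V] (ρ : Representation F G V) {b w i : G → F} {s : ℕ}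
    {t : V} (hb : ∀ v, evV ρ b v = v) (hii : mulF i i = i) (hwi : mulF w i = mulF i w)
    (hti : evV ρ i t = t) (ht : t ∉ LinearMap.range ((evV ρ w) ^ s)) :
    ∃ η : V →ₗ[F] F, Eta ρ b w i s η ∧ η t = 1 := by
  obtain ⟨f, hf, hf0⟩ := Submodule.exists_dual_map_eq_bot_of_notMem ht inferInstance
  have hcommj : ∀ (j : ℕ), evV ρ i * (evV ρ w) ^ j = (evV ρ w) ^ j * evV ρ i := by
    intro j
    have h : Commute (evV ρ i) (evV ρ w) := by
      rw [Commute, SemiconjBy, ← H66.evV_mulF, ← H66.evV_mulF, hwi]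
    exact Commute.pow_right h j
  refine ⟨(f t)⁻¹ • (f ∘ₗ evV ρ i), ⟨hb, ?_, ?_⟩, ?_⟩
  · apply LinearMap.ext
    intro v
    change (f t)⁻¹ • f (evV ρ i (evV ρ i v)) = (f t)⁻¹ • f (evV ρ i v)
    rw [← H66.evV_mulF_apply, hii]
  · apply LinearMap.ext
    intro v
    change (f t)⁻¹ • f (evV ρ i (((evV ρ w) ^ s) v)) = 0
    rw [← Module.End.mul_apply, hcommj, Module.End.mul_apply]
    have h1 : f (((evV ρ w) ^ s) (evV ρ i v)) ∈ (LinearMap.range ((evV ρ w) ^ s)).map f :=
      ⟨_, ⟨_, rfl⟩, rfl⟩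
    rw [hf0, Submodule.mem_bot] at h1
    rw [h1, smul_zero]
  · change (f t)⁻¹ • f (evV ρ i t) = 1
    rw [hti, smul_eq_mul, inv_mul_cancel₀ hf]

theorem alp_inj {k : ℕ} {σ : G →* Matrix (Fin k) (Fin k) F} (hσ : IsIrr σ)
    {η : (Fin k → F) →ₗ[F] F} {t : Fin k → F} (ht : η t = 1) :
    Function.Injective (alp (mrep σ) η) := by
  rw [← LinearMap.ker_eq_bot, Submodule.eq_bot_iff]
  intro v hv
  by_contra hv0
  have h1 : LinearMap.ker (alp (mrep σ) η) = ⊤ := by
    refine Pool.Agent.PP.H46.stab_all hσ (fun g v hv => ?_) hv hv0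
    rw [LinearMap.mem_ker] at hv ⊢
    change alp (mrep σ) η (mrep σ g v) = 0
    funext x
    have h2 := congrFun hv (g⁻¹ * x)
    rw [alp_apply, mul_inv_rev, inv_inv, map_mul] at h2
    exact h2
  have h2 : t ∈ LinearMap.ker (alp (mrep σ) η) := by rw [h1]; trivial
  rw [LinearMap.mem_ker] at h2
  have h3 := congrFun h2 1
  rw [alp_one, ht] at h3
  exact one_ne_zero h3

theorem finrank_rng {k : ℕ} (σ : G →* Matrix (Fin k) (Fin k) F) (a : G → F) :
    Module.finrank F (LinearMap.range (evV (mrep σ) a)) = (ev σ a).rank := by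
  have h : evV (mrep σ) a = (ev σ a).mulVecLin := by
    apply LinearMap.ext
    intro v
    rw [Pool.Agent.PP.H46.evV_mrep, Matrix.mulVecLin_apply]
  rw [h]
  rfl

section quot

variable (b w i : G → F) (s : ℕ) (hcl : IsCl b)

/-- the action on `M_s` -/
abbrev rM : Representation F G (Ms b w i s) := subr (lreg F G) (Ms b w i s) (Ms_stb hcl w i s)

theorem rM_coe (a : G → F) (x : Ms b w i s) :
    ((evV (rM b w i s hcl) a x : Ms b w i s) : G → F) = mulF a x := by
  rw [evV_subr, evV_lreg]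

variable (T : Submodule F (G → F))

theorem stbA (hT : Stb ⊤ (lreg F G) T) : Stb ⊤ (rM b w i s hcl) (T.comap (Ms b w i s).subtype) := by
  intro g hg x hx
  exact hT g hg _ hx

variable (hT : Stb ⊤ (lreg F G) T)

/-- the action on the quotient -/
abbrev rX : Representation F G ((Ms b w i s) ⧸ (T.comap (Ms b w i s).subtype)) :=
  quor (rM b w i s hcl) (T.comap (Ms b w i s).subtype) (stbA b w i s hcl T hT)

theorem mk_eq (x y : Ms b w i s) : (T.comap (Ms b w i s).subtype).mkQ x =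
    (T.comap (Ms b w i s).subtype).mkQ y ↔ (x : G → F) - y ∈ T := by
  rw [Submodule.mkQ_apply, Submodule.mkQ_apply, Submodule.Quotient.eq]
  rfl

theorem rX_mk (a : G → F) (x : Ms b w i s) : evV (rX b w i s hcl T hT) a
    ((T.comap (Ms b w i s).subtype).mkQ x) = (T.comap (Ms b w i s).subtype).mkQ
      ⟨mulF a x, mulF_mem hcl a x.2⟩ := by
  rw [evV_quor]
  congr 1
  apply Subtype.ext
  exact rM_coe b w i s hcl a x

theorem rX_pow (a : G → F) (j : ℕ) (x y : Ms b w i s) (h : (y : G → F) = pwF a j x) :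
    ((evV (rX b w i s hcl T hT) a) ^ j) ((T.comap (Ms b w i s).subtype).mkQ x) =
      (T.comap (Ms b w i s).subtype).mkQ y := by
  induction j generalizing y with
  | zero =>
    have e : x = y := Subtype.ext h.symm
    subst e
    rfl
  | succ j ih =>
    have hm : ∀ j, pwF a j (x : G → F) ∈ Ms b w i s := by
      intro j
      induction j with
      | zero => exact x.2
      | succ j ih => rw [pwF_succ]; exact mulF_mem hcl a ih
    rw [pow_succ', Module.End.mul_apply, ih ⟨pwF a j x, hm j⟩ rfl, rX_mk]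
    congr 1
    apply Subtype.ext
    rw [h, pwF_succ]

end quot

theorem xpr (huq : Uq1Stmt) (hnlk : NlkStmt) (hxbm : XbmStmt) (hfra : FraStmt) : XprStmt := by
  intro ℓ hℓ F _ hF G _ _ n P y₁ b w i h
  obtain ⟨k, σ, hu, t, htf, hti, htn, hker⟩ := huq ℓ F hF G n P y₁ b w i h
  obtain ⟨s, hs1, hs2, hsr, hsn⟩ := exists_s (evV (mrep σ) w) (ℓ ^ (n + 1)) t htn
  refine ⟨k, σ, hu, s, hs1, hs2, fun i' c hi hdiv => ?_⟩
  have hcl : IsCl b := h.d2s.idem.1
  have hwi : mulF w i = mulF i w := cm_comm h.umf.cw h.umf.si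
  have hbV : ∀ v, evV (mrep σ) b v = v := by
    intro v
    rw [Pool.Agent.PP.H46.evV_mrep, hu.one, Matrix.one_mulVec]
  obtain ⟨η, hη, hηt⟩ := exists_eta (mrep σ) hbV h.umf.ii hwi hti hsn
  have hinj : Function.Injective (alp (mrep σ) η) := alp_inj hu.irr hηt
  obtain ⟨u₀, hu₀⟩ := hsr
  have hcommj : ∀ (j : ℕ) v, evV (mrep σ) i (((evV (mrep σ) w) ^ j) v) =
      ((evV (mrep σ) w) ^ j) (evV (mrep σ) i v) := by
    intro j v
    have h0 : Commute (evV (mrep σ) i) (evV (mrep σ) w) := by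
      rw [Commute, SemiconjBy, ← H66.evV_mulF, ← H66.evV_mulF, hwi]
    have := Commute.pow_right h0 j
    rw [← Module.End.mul_apply, ← Module.End.mul_apply]
    exact congrArg (fun f => f v) this
  have hut : t = ((evV (mrep σ) w) ^ (s - 1)) (evV (mrep σ) i u₀) := by
    rw [← hcommj, hu₀, hti]
  have hui : evV (mrep σ) i (evV (mrep σ) i u₀) = evV (mrep σ) i u₀ := by
    rw [← H66.evV_mulF_apply, h.umf.ii]
  have hcore : ∀ x : G → F, MSw b w i s x → mulF i x = x → ∀ v₀ : Fin k → F,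
      mulF w x = alp (mrep σ) η v₀ → ∃ (v : Fin k → F) (y : G → F), MSw b w i s y ∧
        x = alp (mrep σ) η v + pwF w (ℓ ^ (n + 1) - 1) y := by
    intro x hx hix v₀ hv₀
    exact core hnlk hxbm hF h (mrep σ) hs1 hs2 hti htf.2 hut hui hsn hker hη hηt hinj hx hix hv₀
  let T : Submodule F (G → F) := LinearMap.range (alp (mrep σ) η)
  have hT : Stb ⊤ (lreg F G) T := alp_stb (mrep σ) η
  let M : Submodule F (G → F) := Ms b w i s
  let A : Submodule F M := T.comap M.subtype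
  let R : Representation F G (M ⧸ A) := rX b w i s hcl T hT
  have hRb : ∀ v, evV R b v = v := by
    intro v
    obtain ⟨x, rfl⟩ := A.mkQ_surjective v
    refine (rX_mk b w i s hcl T hT b x).trans ?_
    congr 1
    apply Subtype.ext
    exact x.2.1
  -- the fixed points of the cokernel
  have hfix : fixW R (bY y₁ b) w ≤ rngW R w (ℓ ^ (n + 1) - 1) := by
    intro z hz
    obtain ⟨hz1, hz2⟩ := hz
    obtain ⟨x, rfl⟩ := A.mkQ_surjective z
    have e1 : evV R (bY y₁ b) (A.mkQ x) = A.mkQ ⟨mulF (bY y₁ b) x, mulF_mem hcl _ x.2⟩ :=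
      rX_mk b w i s hcl T hT (bY y₁ b) x
    have e2 : evV R w (A.mkQ x) = A.mkQ ⟨mulF w x, mulF_mem hcl _ x.2⟩ :=
      rX_mk b w i s hcl T hT w x
    rw [e2] at hz2
    have e3 : mulF w (x : G → F) ∈ T := by
      have e4 : A.mkQ ⟨mulF w x, mulF_mem hcl _ x.2⟩ = A.mkQ 0 := by rw [hz2, map_zero]
      have e5 := (mk_eq b w i s T _ _).1 e4
      rw [Submodule.coe_zero, sub_zero] at e5
      exact e5
    obtain ⟨v₁, hv₁⟩ := e3
    obtain ⟨m, X, Y, hXY, hfull⟩ := h.umf.full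
    have hk : ∀ j, ∃ (v : Fin k → F) (y : G → F), MSw b w i s y ∧
        mulF i (mulF (Y j) x) = alp (mrep σ) η v + pwF w (ℓ ^ (n + 1) - 1) y := by
      intro j
      have hwY : mulF w (Y j) = mulF (Y j) w := cm_comm h.umf.cw (hXY j).2
      refine hcore _ (mulF_mem hcl _ (mulF_mem hcl _ x.2)) ?_
        (evV (mrep σ) i (evV (mrep σ) (Y j) v₁)) ?_
      · rw [← mulF_assoc, h.umf.ii]
      · rw [← mulF_assoc, hwi, mulF_assoc, ← mulF_assoc w, hwY, mulF_assoc, ← hv₁, mulF_alp,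
          mulF_alp]
    choose v y hy hvy using hk
    have hsum : mulF (bY y₁ b) (x : G → F) =
        alp (mrep σ) η (∑ j, evV (mrep σ) (X j) (v j)) +
          pwF w (ℓ ^ (n + 1) - 1) (∑ j, mulF (X j) (y j)) := by
      rw [← hfull, H66.sum_mulF, map_sum]
      have e5 : pwF w (ℓ ^ (n + 1) - 1) (∑ j, mulF (X j) (y j)) =
          ∑ j, mulF (X j) (pwF w (ℓ ^ (n + 1) - 1) (y j)) := by
        apply toMA_injective
        rw [toMA_pwF, H66.toMA_sum, H66.toMA_sum, Finset.mul_sum]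
        refine Finset.sum_congr rfl fun j _ => ?_
        have e6 : toMA (X j) * toMA w ^ (ℓ ^ (n + 1) - 1) =
            toMA w ^ (ℓ ^ (n + 1) - 1) * toMA (X j) :=
          Commute.pow_right (comm_of h.umf.cw (hXY j).1).symm _
        rw [toMA_mulF, toMA_mulF, toMA_pwF, ← mul_assoc, ← mul_assoc, e6]
      rw [e5, ← Finset.sum_add_distrib]
      refine Finset.sum_congr rfl fun j _ => ?_
      rw [← mulF_alp, ← mulF_add, ← hvy, mulF_assoc, mulF_assoc]
    have hyM : (∑ j, mulF (X j) (y j)) ∈ M :=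
      M.sum_mem fun j _ => mulF_mem hcl _ (hy j)
    have hpM : ∀ j, pwF w j (∑ j, mulF (X j) (y j)) ∈ M := by
      intro j
      induction j with
      | zero => exact hyM
      | succ j ih => rw [pwF_succ]; exact mulF_mem hcl _ ih
    rw [← hz1, e1]
    refine ⟨A.mkQ ⟨_, hyM⟩, ?_⟩
    refine (rX_pow b w i s hcl T hT w (ℓ ^ (n + 1) - 1) ⟨_, hyM⟩ ⟨_, hpM _⟩ rfl).trans ?_
    refine ((mk_eq b w i s T _ _).2 ?_).symm
    change mulF (bY y₁ b) (x : G → F) - pwF w (ℓ ^ (n + 1) - 1) (∑ j, mulF (X j) (y j)) ∈ T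
    rw [hsum, add_sub_cancel_right]
    exact ⟨_, rfl⟩
  obtain ⟨ψ, hψ⟩ := hfra ℓ F hF G n ⊤ P y₁ b w h.d2s (M ⧸ A) R hRb hfix
  have hpj : PjR b R := by
    refine ⟨hRb, ψ, ?_⟩
    rw [← hψ]
    exact (finsum_comp_equiv (f := fun g : G => R g ∘ₗ ψ ∘ₗ R g⁻¹)
      (Subgroup.topEquiv (G := G)).toEquiv).symm
  obtain ⟨r, hr⟩ := hdiv (M ⧸ A) R hpj
  refine ⟨r, ?_⟩
  -- the count of dimensions
  let S : Submodule F (G → F) := M ⊓ LinearMap.ker (evV (lreg F G) i' - LinearMap.id)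
  have hS : ∀ x, x ∈ S ↔ MSw b w i s x ∧ mulF i' x = x := by
    intro x
    change _ ∧ x ∈ LinearMap.ker (evV (lreg F G) i' - LinearMap.id) ↔ _
    rw [LinearMap.mem_ker, LinearMap.sub_apply, sub_eq_zero, evV_lreg]
    rfl
  have hspan : Submodule.span F {x : G → F | mulF i' x = x ∧ MSw b w i s x} = S := by
    have e : {x : G → F | mulF i' x = x ∧ MSw b w i s x} = (S : Set (G → F)) := by
      ext x
      change _ ↔ x ∈ S
      rw [hS]
      exact and_comm
    rw [e, Submodule.span_eq]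
  let f : S →ₗ[F] (M ⧸ A) := A.mkQ ∘ₗ Submodule.inclusion inf_le_left
  have hrange : LinearMap.range f = LinearMap.range (evV R i') := by
    apply le_antisymm
    · rintro _ ⟨x, rfl⟩
      refine ⟨f x, ?_⟩
      refine (rX_mk b w i s hcl T hT i' ⟨x, x.2.1⟩).trans ?_
      change _ = A.mkQ ⟨x, x.2.1⟩
      congr 1
      apply Subtype.ext
      exact ((hS x).1 x.2).2
    · rintro _ ⟨z, rfl⟩
      obtain ⟨x, rfl⟩ := A.mkQ_surjective z
      have hx : mulF i' (x : G → F) ∈ S := by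
        rw [hS]
        refine ⟨mulF_mem hcl i' x.2, ?_⟩
        rw [← mulF_assoc, hi.ii]
      refine ⟨⟨_, hx⟩, ?_⟩
      exact (rX_mk b w i s hcl T hT i' x).symm
  let E : Submodule F (Fin k → F) := LinearMap.range (evV (mrep σ) i')
  have hE : ∀ v ∈ E, evV (mrep σ) i' v = v := by
    rintro _ ⟨v, rfl⟩
    rw [← H66.evV_mulF_apply, hi.ii]
  let g : E →ₗ[F] S := LinearMap.codRestrict S (alp (mrep σ) η ∘ₗ E.subtype) (by
    intro v
    rw [hS]
    refine ⟨alp_mem hη _, ?_⟩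
    change mulF i' (alp (mrep σ) η v) = alp (mrep σ) η v
    rw [mulF_alp, hE _ v.2])
  have hginj : Function.Injective g := by
    intro u v huv
    apply Subtype.ext
    apply hinj
    exact congrArg Subtype.val huv
  have hgr : LinearMap.range g = LinearMap.ker f := by
    ext x
    rw [LinearMap.mem_ker]
    have e0 : f x = 0 ↔ (x : G → F) ∈ T := by
      change A.mkQ ⟨x, x.2.1⟩ = 0 ↔ _
      rw [← map_zero A.mkQ]
      rw [mk_eq b w i s T]
      rw [Submodule.coe_zero, sub_zero]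
    rw [e0]
    constructor
    · rintro ⟨v, rfl⟩
      exact ⟨v, rfl⟩
    · rintro ⟨v, hv⟩
      have hv2 : evV (mrep σ) i' v = v := by
        apply hinj
        rw [← mulF_alp, hv]
        exact ((hS x).1 x.2).2
      refine ⟨⟨v, ⟨v, hv2⟩⟩, ?_⟩
      apply Subtype.ext
      exact hv
  have h1 : Module.finrank F (LinearMap.ker f) = 1 := by
    rw [← hgr, LinearMap.finrank_range_of_inj hginj, finrank_rng, hi.rk]
  have h2 := LinearMap.finrank_range_add_finrank_ker f
  rw [h1, hrange, hr] at h2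
  rw [hspan]
  exact h2.symm

end Pool.Agent.PP.CD2.H46
end
end -- Pool.Agent.Helper46_D2.Xpr
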