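import Pool.Agent.Helper12_AWB.B148
import Pool.Agent.Helper12_AWB.B160

/-!
# Merged copies (generated) of the modules

* `Pool.Agent.Helper21_D2.Base`
* `Pool.Agent.Helper21_D2.Ann`
* `Pool.Agent.Helper21_D1.Frw`
* `Pool.Agent.Helper21_D2.Trf`
* `Pool.Agent.Helper98_D2.Kit`
* `Pool.Agent.Helper98_D2.Uni`
* `Pool.Agent.Helper98_D2.Xbm`
-/

set_option autoImplicit false

section -- Pool.Agent.Helper21_D2.Base

/-!
# Squad PP, part D2: basic tools for elements of the group ring supported on a subgroup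
-/

open scoped BigOperators

set_option linter.unusedSectionVars false

namespace Pool.Agent.PP.CD2.H21

open Pool.Agent.Helper51_AWC Pool.Agent.Helper79_WRA Pool.Agent.PP Pool.Agent.PP.H20

variable {F : Type} [Field F] {G : Type} [Group G] [Finite G]

theorem toMA_sum {ι : Type*} (s : Finset ι) (f : ι → G → F) :
    toMA (∑ k ∈ s, f k) = ∑ k ∈ s, toMA (f k) :=
  map_sum (maE (F := F) (H := G)) f s

theorem toMA_pwF (w : G → F) (s : ℕ) (a : G → F) : toMA (pwF w s a) = toMA w ^ s * toMA a := by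
  induction s with
  | zero => rw [pow_zero, one_mul]; rfl
  | succ s ih =>
    have h : pwF w (s + 1) a = mulF w (pwF w s a) := by
      unfold pwF
      rw [Function.iterate_succ_apply']
    rw [h, toMA_mulF, ih, pow_succ', mul_assoc]

theorem toMA_pwR (w : G → F) (s : ℕ) (a : G → F) : toMA (pwR w s a) = toMA a * toMA w ^ s := by
  induction s with
  | zero => rw [pow_zero, mul_one]; rfl
  | succ s ih =>
    have h : pwR w (s + 1) a = mulF (pwR w s a) w := by
      unfold pwR
      rw [Function.iterate_succ_apply']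
    rw [h, toMA_mulF, ih, pow_succ, mul_assoc]

theorem pwF_zero (w a : G → F) : pwF w 0 a = a := rfl

theorem pwF_succ (w : G → F) (s : ℕ) (a : G → F) : pwF w (s + 1) a = mulF w (pwF w s a) := by
  unfold pwF
  rw [Function.iterate_succ_apply']

theorem pwR_succ (w : G → F) (s : ℕ) (a : G → F) : pwR w (s + 1) a = mulF (pwR w s a) w := by
  unfold pwR
  rw [Function.iterate_succ_apply']

theorem mulF_fin (a b : G → F) [Fintype G] (x : G) : mulF a b x = ∑ t, a t * b (t⁻¹ * x) := by
  unfold mulF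
  rw [finsum_eq_sum_of_fintype]

/-- left multiplication commutes with right translation -/
theorem mulF_right (a x : G → F) (g : G) :
    mulF a (fun y => x (y * g)) = fun y => mulF a x (y * g) := by
  have := Fintype.ofFinite G
  funext y
  rw [mulF_fin, mulF_fin]
  refine Finset.sum_congr rfl fun t _ => ?_
  rw [mul_assoc]

/-- right multiplication commutes with left translation -/
theorem mulF_left (a x : G → F) (g : G) :
    mulF (fun y => x (g * y)) a = fun y => mulF x a (g * y) := by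
  have := Fintype.ofFinite G
  funext y
  rw [mulF_fin, mulF_fin]
  refine Fintype.sum_equiv (Equiv.mulLeft g) _ _ fun t => ?_
  change x (g * t) * a (t⁻¹ * y) = x (g * t) * a ((g * t)⁻¹ * (g * y))
  rw [mul_inv_rev, mul_assoc, inv_mul_cancel_left]

theorem mulF_comm_sp {C : Subgroup G} {a w : G → F} (ha : SpF C a) (hw : CmF C w) :
    mulF a w = mulF w a := by
  have := Fintype.ofFinite G
  funext x
  rw [mulF_fin, mulF_fin]
  calc ∑ t, a t * w (t⁻¹ * x) = ∑ t, w (x * t⁻¹) * a t := by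
        refine Finset.sum_congr rfl fun t _ => ?_
        by_cases ht : t ∈ C
        · have h := hw t ht (t⁻¹ * x)
          rw [mul_inv_cancel_left] at h
          rw [← h, mul_comm]
        · rw [ha t ht, zero_mul, mul_zero]
    _ = ∑ t, w t * a (t⁻¹ * x) := by
        refine Fintype.sum_equiv ((Equiv.inv G).trans (Equiv.mulLeft x)) _ _ fun t => ?_
        change w (x * t⁻¹) * a t = w (x * t⁻¹) * a ((x * t⁻¹)⁻¹ * x)
        rw [mul_inv_rev, inv_inv, mul_assoc, inv_mul_cancel, mul_one]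

/-- the functions supported on `C` as a subalgebra of the group ring -/
def spA (F : Type) [Field F] {G : Type} [Group G] [Finite G] (C : Subgroup G) :
    Subalgebra F (MonoidAlgebra F G) where
  carrier := {x | ∃ a : G → F, SpF C a ∧ toMA a = x}
  mul_mem' := by
    rintro _ _ ⟨a, ha, rfl⟩ ⟨b, hb, rfl⟩
    refine ⟨mulF a b, ?_, toMA_mulF a b⟩
    have := Fintype.ofFinite G
    intro x hx
    rw [mulF_fin]
    refine Finset.sum_eq_zero fun t _ => ?_
    by_cases ht : t ∈ C
    · rw [hb (t⁻¹ * x), mul_zero]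
      intro h
      exact hx ((C.mul_mem_cancel_left (C.inv_mem ht)).1 h)
    · rw [ha t ht, zero_mul]
  add_mem' := by
    rintro _ _ ⟨a, ha, rfl⟩ ⟨b, hb, rfl⟩
    refine ⟨a + b, fun x hx => ?_, toMA_add a b⟩
    rw [Pi.add_apply, ha x hx, hb x hx, add_zero]
  algebraMap_mem' := by
    classical
    intro r
    refine ⟨fun x => if x = 1 then r else 0, fun x hx => ?_, ?_⟩
    · show (if x = 1 then r else 0) = 0
      rw [if_neg]
      rintro rfl
      exact hx C.one_mem
    · have := Fintype.ofFinite G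
      rw [toMA_eq, Finset.sum_eq_single (1 : G)]
      · rw [if_pos rfl]
        rfl
      · intro b _ hb
        rw [if_neg hb, MonoidAlgebra.single_zero]
      · intro h
        exact absurd (Finset.mem_univ _) h

theorem mem_spA {C : Subgroup G} {a : G → F} : toMA a ∈ spA F C ↔ SpF C a := by
  constructor
  · rintro ⟨b, hb, hab⟩
    rw [← toMA_injective hab]
    exact hb
  · intro h
    exact ⟨a, h, rfl⟩

theorem sp_mulF {C : Subgroup G} {a b : G → F} (ha : SpF C a) (hb : SpF C b) :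
    SpF C (mulF a b) := by
  rw [← mem_spA, toMA_mulF]
  exact (spA F C).mul_mem (mem_spA.2 ha) (mem_spA.2 hb)

theorem sp_pwF {C : Subgroup G} {w a : G → F} (hw : SpF C w) (ha : SpF C a) (s : ℕ) :
    SpF C (pwF w s a) := by
  rw [← mem_spA, toMA_pwF]
  exact (spA F C).mul_mem ((spA F C).pow_mem (mem_spA.2 hw) s) (mem_spA.2 ha)

theorem sp_sum {C : Subgroup G} {ι : Type*} (s : Finset ι) {f : ι → G → F}
    (h : ∀ k ∈ s, SpF C (f k)) : SpF C (∑ k ∈ s, f k) := by
  intro x hx
  rw [Finset.sum_apply]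
  exact Finset.sum_eq_zero fun k hk => h k hk x hx

theorem commute_spA {C : Subgroup G} {w : G → F} (hw : CmF C w) :
    ∀ x ∈ spA F C, toMA w * x = x * toMA w := by
  rintro _ ⟨a, ha, rfl⟩
  rw [← toMA_mulF, ← toMA_mulF, mulF_comm_sp ha hw]

/-- the coefficients of low order of an annihilated polynomial vanish -/
theorem low {R : Type*} [Ring R] [Algebra F R] {w i : R} {q j : ℕ} (hq : w ^ q * i = 0)
    (hnz : w ^ (q - 1) * i ≠ 0) {α : ℕ → F}
    (h : w ^ j * ∑ s ∈ Finset.range q, α s • (w ^ s * i) = 0) :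
    ∀ s, s + j < q → α s = 0 := by
  have hz : ∀ n, q ≤ n → w ^ n * i = 0 := by
    intro n hn
    obtain ⟨m, rfl⟩ := Nat.exists_eq_add_of_le hn
    rw [add_comm q m, pow_add, mul_assoc, hq, mul_zero]
  intro s
  induction s using Nat.strong_induction_on with
  | _ s ih =>
    intro hs
    have h1 : w ^ (q - 1 - s - j) * (w ^ j * ∑ t ∈ Finset.range q, α t • (w ^ t * i)) = 0 := by
      rw [h, mul_zero]
    rw [← mul_assoc, ← pow_add, Finset.mul_sum, Finset.sum_eq_single s] at h1
    · rw [mul_smul_comm, ← mul_assoc, ← pow_add] at h1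
      have h2 : q - 1 - s - j + j + s = q - 1 := by omega
      rw [h2] at h1
      exact (smul_eq_zero.1 h1).resolve_right hnz
    · intro t _ hts
      rcases lt_or_gt_of_ne hts with h3 | h3
      · rw [ih t h3 (by omega), zero_smul, mul_zero]
      · rw [mul_smul_comm, ← mul_assoc, ← pow_add, hz _ (by omega), smul_zero]
    · intro h3
      exact absurd (Finset.mem_range.2 (by omega)) h3

/-- annihilators in `S`, the matrix algebra over `F[w] / (w ^ q)` -/
theorem core {R : Type*} [Ring R] [Algebra F R] (S : Subalgebra F R) {e w i : R} {q : ℕ}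
    (hw : w ∈ S) (hi : i ∈ S) (ce : ∀ a ∈ S, e * a = a * e) (cw : ∀ a ∈ S, w * a = a * w)
    (hei : e * i = i) (nil : w ^ q * e = 0) (nz : w ^ (q - 1) * i ≠ 0)
    (loc : ∀ a ∈ S, ∃ α : ℕ → F, i * (a * i) = ∑ s ∈ Finset.range q, α s • (w ^ s * i))
    {m : ℕ} {x y : Fin m → R} (hx : ∀ k, x k ∈ S) (hy : ∀ k, y k ∈ S)
    (full : ∑ k, x k * (i * y k) = e) {j : ℕ} {a : R} (haS : a ∈ S)
    (ha : e * a = a) (hja : w ^ j * a = 0) : ∃ a' ∈ S, a = w ^ (q - j) * a' := by
  have hq : w ^ q * i = 0 := by rw [← hei, ← mul_assoc, nil, zero_mul]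
  have cwn : ∀ n : ℕ, ∀ b ∈ S, w ^ n * b = b * w ^ n := by
    intro n b hb
    have : Commute w b := cw b hb
    exact (this.pow_left n).eq
  obtain ⟨T, hT⟩ : ∃ T : Submodule F R,
      T = (Subalgebra.toSubmodule S).map (LinearMap.mulLeft F (w ^ (q - j))) := ⟨_, rfl⟩
  have hTm : ∀ z, z ∈ T ↔ ∃ a' ∈ S, w ^ (q - j) * a' = z := by
    intro z
    rw [hT, Submodule.mem_map]
    rfl
  have h1 : a = ∑ k, ∑ l, x k * (i * ((y k * a * x l) * i)) * y l := by
    calc a = e * a * e := by rw [ha, ← ce a haS, ha]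
      _ = (∑ k, x k * (i * y k)) * a * (∑ l, x l * (i * y l)) := by rw [full]
      _ = _ := by
        rw [Finset.sum_mul, Finset.sum_mul]
        refine Finset.sum_congr rfl fun k _ => ?_
        rw [Finset.mul_sum]
        refine Finset.sum_congr rfl fun l _ => ?_
        noncomm_ring
  have h2 : a ∈ T := by
    rw [h1]
    refine Submodule.sum_mem _ fun k _ => Submodule.sum_mem _ fun l _ => ?_
    have hS : y k * a * x l ∈ S := S.mul_mem (S.mul_mem (hy k) haS) (hx l)
    obtain ⟨α, hα⟩ := loc _ hS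
    have h3 : w ^ j * ∑ s ∈ Finset.range q, α s • (w ^ s * i) = 0 := by
      rw [← hα]
      calc w ^ j * (i * (y k * a * x l * i)) = (w ^ j * (i * y k)) * a * x l * i := by noncomm_ring
        _ = ((i * y k) * w ^ j) * a * x l * i := by rw [cwn j _ (S.mul_mem hi (hy k))]
        _ = (i * y k) * (w ^ j * a) * x l * i := by noncomm_ring
        _ = 0 := by rw [hja, mul_zero, zero_mul, zero_mul]
    have h4 := low hq nz h3
    rw [hα, hTm]
    have h5 : ∃ z ∈ S, w ^ (q - j) * z = ∑ s ∈ Finset.range q, α s • (w ^ s * i) := by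
      rw [← hTm]
      refine Submodule.sum_mem _ fun s _ => ?_
      by_cases hs : s + j < q
      · rw [h4 s hs, zero_smul]
        exact zero_mem _
      · refine Submodule.smul_mem _ _ ?_
        rw [hTm]
        refine ⟨w ^ (s - (q - j)) * i, S.mul_mem (S.pow_mem hw _) hi, ?_⟩
        rw [← mul_assoc, ← pow_add]
        congr 2
        omega
    obtain ⟨z, hz, hz2⟩ := h5
    refine ⟨x k * z * y l, S.mul_mem (S.mul_mem (hx k) hz) (hy l), ?_⟩
    rw [← hz2, ← mul_assoc, ← mul_assoc, cwn _ _ (hx k)]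
    noncomm_ring
  rw [hTm] at h2
  obtain ⟨a', ha', h⟩ := h2
  exact ⟨a', ha', h.symm⟩

end Pool.Agent.PP.CD2.H21
end -- Pool.Agent.Helper21_D2.Base

section -- Pool.Agent.Helper21_D2.Ann

/-!
# Squad PP, part D2: modules ANN and ANR
-/

open scoped BigOperators

set_option linter.unusedSectionVars false

namespace Pool.Agent.PP.CD2.H21

open Pool.Agent.Helper51_AWC Pool.Agent.Helper79_WRA Pool.Agent.PP Pool.Agent.PP.H20

variable {F : Type} [Field F] {G : Type} [Group G] [Finite G]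

/-- annihilators in the functions supported on `C` -/
theorem ann_sp {C : Subgroup G} {b w i : G → F} {q : ℕ} (h : UMF C b w i q) {j : ℕ} {a : G → F}
    (ha : SpF C a) (hba : mulF b a = a) (hja : pwF w j a = 0) :
    ∃ a' : G → F, SpF C a' ∧ a = pwF w (q - j) a' := by
  obtain ⟨m, x, y, hxy, hfull⟩ := h.full
  have h1 := core (F := F) (spA F C) (e := toMA b) (w := toMA w) (i := toMA i) (q := q)
    (mem_spA.2 h.sw) (mem_spA.2 h.si) (commute_spA h.cb) (commute_spA h.cw)
    (by rw [← toMA_mulF, h.bi]) (by rw [← toMA_pwF, h.nil, toMA_zero])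
    (by rw [← toMA_pwF]; intro h0; exact h.nz (toMA_injective (h0.trans toMA_zero.symm)))
    (by
      rintro _ ⟨a, ha, rfl⟩
      obtain ⟨α, hα⟩ := h.loc a ha
      refine ⟨α, ?_⟩
      rw [← toMA_mulF, ← toMA_mulF, hα, toMA_sum]
      refine Finset.sum_congr rfl fun s _ => ?_
      rw [toMA_smul, toMA_pwF])
    (x := fun k => toMA (x k)) (y := fun k => toMA (y k))
    (fun k => mem_spA.2 (hxy k).1) (fun k => mem_spA.2 (hxy k).2)
    (by
      rw [← hfull, toMA_sum]
      refine Finset.sum_congr rfl fun k _ => ?_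
      rw [toMA_mulF, toMA_mulF])
    (j := j) (a := toMA a) (mem_spA.2 ha) (by rw [← toMA_mulF, hba])
    (by rw [← toMA_pwF, hja, toMA_zero])
  obtain ⟨_, ⟨a', ha', rfl⟩, h2⟩ := h1
  refine ⟨a', ha', toMA_injective ?_⟩
  rw [h2, toMA_pwF]

open Classical in
/-- the part of `x` on the coset `C g` -/
noncomputable def res (C : Subgroup G) (g : G) (x : G → F) : G → F :=
  fun c => if c ∈ C then x (c * g) else 0

open Classical in
/-- the part of `x` on the coset `g C` -/
noncomputable def resl (C : Subgroup G) (g : G) (x : G → F) : G → F :=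
  fun c => if c ∈ C then x (g * c) else 0

theorem sp_res (C : Subgroup G) (g : G) (x : G → F) : SpF C (res C g x) := by
  intro c hc
  unfold res
  rw [if_neg hc]

theorem sp_resl (C : Subgroup G) (g : G) (x : G → F) : SpF C (resl C g x) := by
  intro c hc
  unfold resl
  rw [if_neg hc]

theorem mulF_res {C : Subgroup G} {a : G → F} (ha : SpF C a) (g : G) (x : G → F) :
    mulF a (res C g x) = res C g (mulF a x) := by
  have := Fintype.ofFinite G
  funext c
  by_cases hc : c ∈ C
  · have h1 : res C g (mulF a x) c = mulF a x (c * g) := by unfold res; rw [if_pos hc]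
    rw [h1, mulF_fin, mulF_fin]
    refine Finset.sum_congr rfl fun t _ => ?_
    by_cases ht : t ∈ C
    · have h2 : t⁻¹ * c ∈ C := C.mul_mem (C.inv_mem ht) hc
      unfold res
      rw [if_pos h2, mul_assoc]
    · rw [ha t ht, zero_mul, zero_mul]
  · rw [sp_res C g _ c hc]
    exact sp_mulF ha (sp_res C g x) c hc

theorem resl_mulF {C : Subgroup G} {a : G → F} (ha : SpF C a) (g : G) (x : G → F) :
    mulF (resl C g x) a = resl C g (mulF x a) := by
  have := Fintype.ofFinite G
  funext c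
  by_cases hc : c ∈ C
  · have h1 : resl C g (mulF x a) c = mulF x a (g * c) := by unfold resl; rw [if_pos hc]
    rw [h1, mulF_fin, mulF_fin]
    refine Fintype.sum_equiv (Equiv.mulLeft g) _ _ fun t => ?_
    change resl C g x t * a (t⁻¹ * c) = x (g * t) * a ((g * t)⁻¹ * (g * c))
    have h3 : (g * t)⁻¹ * (g * c) = t⁻¹ * c := by group
    rw [h3]
    by_cases ht : t ∈ C
    · unfold resl
      rw [if_pos ht]
    · rw [ha (t⁻¹ * c), mul_zero, mul_zero]
      intro h
      exact ht (by simpa using C.mul_mem hc (C.inv_mem h))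
  · rw [sp_resl C g _ c hc]
    exact sp_mulF (sp_resl C g x) ha c hc

theorem pwF_res {C : Subgroup G} {w : G → F} (hw : SpF C w) (s : ℕ) (g : G) (x : G → F) :
    pwF w s (res C g x) = res C g (pwF w s x) := by
  induction s with
  | zero => rfl
  | succ s ih => rw [pwF_succ, pwF_succ, ih, mulF_res hw]

theorem pwR_resl {C : Subgroup G} {w : G → F} (hw : SpF C w) (s : ℕ) (g : G) (x : G → F) :
    pwR w s (resl C g x) = resl C g (pwR w s x) := by
  induction s with
  | zero => rfl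
  | succ s ih => rw [pwR_succ, pwR_succ, ih, resl_mulF hw]

theorem res_zero (C : Subgroup G) (g : G) : res C g (0 : G → F) = 0 := by
  funext c
  unfold res
  rw [Pi.zero_apply, Pi.zero_apply, ite_self]

theorem resl_zero (C : Subgroup G) (g : G) : resl C g (0 : G → F) = 0 := by
  funext c
  unfold resl
  rw [Pi.zero_apply, Pi.zero_apply, ite_self]

/-- representatives of the right cosets -/
theorem exists_rep (C : Subgroup G) : ∃ r : G → G, (∀ g, g * (r g)⁻¹ ∈ C) ∧
    ∀ c ∈ C, ∀ g, r (c * g) = r g := by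
  refine ⟨fun g => (Quotient.mk (QuotientGroup.rightRel C) g).out, fun g => ?_, fun c hc g => ?_⟩
  · have h : (QuotientGroup.rightRel C) (Quotient.mk (QuotientGroup.rightRel C) g).out g :=
      Quotient.exact (Quotient.out_eq _)
    rwa [QuotientGroup.rightRel_apply] at h
  · have h : Quotient.mk (QuotientGroup.rightRel C) (c * g) =
        Quotient.mk (QuotientGroup.rightRel C) g := by
      apply Quotient.sound
      change (QuotientGroup.rightRel C) (c * g) g
      rw [QuotientGroup.rightRel_apply, mul_inv_rev, mul_inv_cancel_left]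
      exact C.inv_mem hc
    change (Quotient.mk (QuotientGroup.rightRel C) (c * g)).out = _
    rw [h]

/-- representatives of the left cosets -/
theorem exists_repl (C : Subgroup G) : ∃ r : G → G, (∀ g, (r g)⁻¹ * g ∈ C) ∧
    ∀ c ∈ C, ∀ g, r (g * c) = r g := by
  obtain ⟨r, h1, h2⟩ := exists_rep C
  refine ⟨fun g => (r g⁻¹)⁻¹, fun g => ?_, fun c hc g => ?_⟩
  · have h := C.inv_mem (h1 g⁻¹)
    rw [mul_inv_rev, inv_inv] at h
    rw [inv_inv]
    rwa [inv_inv] at h
  · change (r (g * c)⁻¹)⁻¹ = _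
    rw [mul_inv_rev, h2 _ (C.inv_mem hc)]

theorem mulF_glue {C : Subgroup G} {a : G → F} (ha : SpF C a) {r : G → G}
    (hr : ∀ c ∈ C, ∀ g, r (c * g) = r g) (X : G → G → F) :
    mulF a (fun g => X (r g) (g * (r g)⁻¹)) = fun g => mulF a (X (r g)) (g * (r g)⁻¹) := by
  have := Fintype.ofFinite G
  funext g
  rw [mulF_fin, mulF_fin]
  refine Finset.sum_congr rfl fun t _ => ?_
  by_cases ht : t ∈ C
  · rw [hr _ (C.inv_mem ht), mul_assoc]
  · rw [ha t ht, zero_mul, zero_mul]

theorem glue_mulF {C : Subgroup G} {a : G → F} (ha : SpF C a) {r : G → G}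
    (hr : ∀ c ∈ C, ∀ g, r (g * c) = r g) (X : G → G → F) :
    mulF (fun g => X (r g) ((r g)⁻¹ * g)) a = fun g => mulF (X (r g)) a ((r g)⁻¹ * g) := by
  have := Fintype.ofFinite G
  funext g
  rw [mulF_fin, mulF_fin]
  refine Fintype.sum_equiv (Equiv.mulLeft (r g)⁻¹) _ _ fun t => ?_
  change X (r t) ((r t)⁻¹ * t) * a (t⁻¹ * g) =
    X (r g) ((r g)⁻¹ * t) * a (((r g)⁻¹ * t)⁻¹ * ((r g)⁻¹ * g))
  have h3 : ((r g)⁻¹ * t)⁻¹ * ((r g)⁻¹ * g) = t⁻¹ * g := by group
  rw [h3]
  by_cases ht : t⁻¹ * g ∈ C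
  · have h4 := hr _ ht t
    rw [mul_inv_cancel_left] at h4
    rw [h4]
  · rw [ha _ ht, mul_zero, mul_zero]

theorem pwF_glue {C : Subgroup G} {w : G → F} (hw : SpF C w) {r : G → G}
    (hr : ∀ c ∈ C, ∀ g, r (c * g) = r g) (X : G → G → F) (s : ℕ) :
    pwF w s (fun g => X (r g) (g * (r g)⁻¹)) = fun g => pwF w s (X (r g)) (g * (r g)⁻¹) := by
  induction s with
  | zero => rfl
  | succ s ih =>
    rw [pwF_succ, ih, mulF_glue hw hr (fun g => pwF w s (X g))]
    funext g
    rw [pwF_succ]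

theorem pwR_glue {C : Subgroup G} {w : G → F} (hw : SpF C w) {r : G → G}
    (hr : ∀ c ∈ C, ∀ g, r (g * c) = r g) (X : G → G → F) (s : ℕ) :
    pwR w s (fun g => X (r g) ((r g)⁻¹ * g)) = fun g => pwR w s (X (r g)) ((r g)⁻¹ * g) := by
  induction s with
  | zero => rfl
  | succ s ih =>
    rw [pwR_succ, ih, glue_mulF hw hr (fun g => pwR w s (X g))]
    funext g
    rw [pwR_succ]

theorem ann_umf {C : Subgroup G} {b w i : G → F} {q : ℕ} (h : UMF C b w i q) {j : ℕ} {x : G → F}
    (hbx : mulF b x = x) (hjx : pwF w j x = 0) :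
    ∃ x' : G → F, mulF b x' = x' ∧ x = pwF w (q - j) x' := by
  have h1 : ∀ g : G, ∃ a' : G → F, SpF C a' ∧ res C g x = pwF w (q - j) a' := by
    intro g
    refine ann_sp h (sp_res C g x) ?_ ?_
    · exact (mulF_res h.sb g x).trans (congrArg (res C g) hbx)
    · exact (pwF_res h.sw j g x).trans ((congrArg (res C g) hjx).trans (res_zero C g))
  choose X hX1 hX2 using h1
  obtain ⟨r, hr1, hr2⟩ := exists_rep C
  have h2 : x = pwF w (q - j) (fun g => X (r g) (g * (r g)⁻¹)) := by
    rw [pwF_glue h.sw hr2]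
    funext g
    rw [← hX2]
    unfold res
    rw [if_pos (hr1 g), inv_mul_cancel_right]
  refine ⟨mulF b (fun g => X (r g) (g * (r g)⁻¹)), ?_, ?_⟩
  · rw [← mulF_assoc, h.bb]
  · rw [← hbx, h2]
    apply toMA_injective
    rw [toMA_pwF, toMA_mulF, toMA_mulF, toMA_pwF, ← mul_assoc, ← mul_assoc]
    have h3 : Commute (toMA w) (toMA b) := commute_spA h.cw _ (mem_spA.2 h.sb)
    rw [(h3.pow_left (q - j)).eq]

theorem ann : AnnStmt := by
  intro F _ G _ _ C b w q hU j hj x hbx hjx
  obtain ⟨m, e, i, hU1, hU2, hU3, hU4⟩ := hU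
  have hew : ∀ t, toMA (e t) * toMA w = toMA w * toMA (e t) := by
    intro t
    have h1 : toMA w = ∑ s, toMA (e s) * toMA w := by
      rw [← Finset.sum_mul, ← toMA_sum, hU3, ← toMA_mulF, hU4]
    have h2 : toMA w ∈ spA F C := by
      rw [h1]
      refine Subalgebra.sum_mem _ fun s _ => ?_
      rw [← toMA_mulF]
      exact mem_spA.2 (hU1 s).sw
    exact commute_spA (hU1 t).cb _ h2
  have hee : ∀ t, toMA (e t) * toMA (e t) = toMA (e t) := by
    intro t
    rw [← toMA_mulF, (hU1 t).bb]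
  have hpow : ∀ t : Fin m, ∀ n : ℕ, ∀ z : MonoidAlgebra F G,
      (toMA (e t) * toMA w) ^ n * (toMA (e t) * z) = toMA w ^ n * (toMA (e t) * z) := by
    intro t n z
    induction n with
    | zero => rw [pow_zero, pow_zero]
    | succ n ih =>
      have h5 : Commute (toMA (e t)) (toMA w) := hew t
      calc (toMA (e t) * toMA w) ^ (n + 1) * (toMA (e t) * z)
          = (toMA (e t) * toMA w) * ((toMA (e t) * toMA w) ^ n * (toMA (e t) * z)) := by
            rw [pow_succ', mul_assoc]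
        _ = (toMA (e t) * toMA w) * (toMA w ^ n * (toMA (e t) * z)) := by rw [ih]
        _ = (toMA (e t) * (toMA w ^ (n + 1))) * (toMA (e t) * z) := by
            rw [pow_succ']; noncomm_ring
        _ = (toMA w ^ (n + 1) * toMA (e t)) * (toMA (e t) * z) := by
            rw [(h5.pow_right (n + 1)).eq]
        _ = toMA w ^ (n + 1) * ((toMA (e t) * toMA (e t)) * z) := by noncomm_ring
        _ = _ := by rw [hee]
  have h1 : ∀ t : Fin m, ∃ x' : G → F, mulF (e t) x' = x' ∧
      mulF (e t) x = pwF (mulF (e t) w) (q - j) x' := by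
    intro t
    refine ann_umf (hU1 t) (j := j) ?_ ?_
    · rw [← mulF_assoc, (hU1 t).bb]
    · apply toMA_injective
      rw [toMA_pwF, toMA_mulF, toMA_mulF, hpow, toMA_zero]
      have h5 : Commute (toMA (e t)) (toMA w) := hew t
      rw [← mul_assoc, ← (h5.pow_right j).eq, mul_assoc, ← toMA_pwF, hjx, toMA_zero, mul_zero]
  choose X hX1 hX2 using h1
  have hX3 : ∀ t, toMA (e t) * toMA (X t) = toMA (X t) := by
    intro t
    rw [← toMA_mulF, hX1]
  refine ⟨∑ t, X t, ?_, ?_⟩
  · apply toMA_injective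
    rw [toMA_mulF, ← hU3, toMA_sum, toMA_sum, Finset.sum_mul]
    refine Finset.sum_congr rfl fun t _ => ?_
    rw [Finset.mul_sum, Finset.sum_eq_single t]
    · exact hX3 t
    · intro s _ hst
      rw [← hX3 s, ← mul_assoc, ← toMA_mulF, hU2 t s (Ne.symm hst), toMA_zero, zero_mul]
    · intro h
      exact absurd (Finset.mem_univ _) h
  · apply toMA_injective
    rw [toMA_pwF, toMA_sum, Finset.mul_sum]
    calc toMA x = ∑ t, toMA (mulF (e t) x) := by
          rw [← toMA_sum]
          congr 1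
          apply toMA_injective
          rw [toMA_sum]
          conv_lhs => rw [← hbx, toMA_mulF, ← hU3, toMA_sum, Finset.sum_mul]
          exact Finset.sum_congr rfl fun t _ => (toMA_mulF _ _).symm
      _ = _ := by
          refine Finset.sum_congr rfl fun t _ => ?_
          rw [hX2, toMA_pwF, toMA_mulF]
          conv_lhs => rw [← hX3 t]
          rw [hpow, hX3]

theorem anr : AnrStmt := by
  intro F _ G _ _ C b w i q h j hj x hxi hjx
  have hib : mulF i b = i := by
    rw [mulF_comm_sp h.si h.cb, h.bi]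
  have hxb : mulF x b = x := by
    conv_lhs => rw [← hxi, mulF_assoc, hib, hxi]
  have h1 : ∀ g : G, ∃ a' : G → F, SpF C a' ∧ resl C g x = pwR w (q - j) a' := by
    intro g
    have e1 : mulF b (resl C g x) = resl C g x := by
      rw [← mulF_comm_sp (sp_resl C g x) h.cb, resl_mulF h.sb, hxb]
    have e2 : ∀ (n : ℕ) (a : G → F), SpF C a → pwF w n a = pwR w n a := by
      intro n a ha
      apply toMA_injective
      rw [toMA_pwF, toMA_pwR]
      have h3 : Commute (toMA w) (toMA a) := commute_spA h.cw _ (mem_spA.2 ha)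
      exact (h3.pow_left n).eq
    obtain ⟨a', ha', h2⟩ := ann_sp h (j := j) (sp_resl C g x) e1
      (by rw [e2 _ _ (sp_resl C g x), pwR_resl h.sw, hjx, resl_zero])
    exact ⟨a', ha', by rw [h2, e2 _ _ ha']⟩
  choose X hX1 hX2 using h1
  obtain ⟨r, hr1, hr2⟩ := exists_repl C
  have h2 : x = pwR w (q - j) (fun g => X (r g) ((r g)⁻¹ * g)) := by
    rw [pwR_glue h.sw hr2]
    funext g
    rw [← hX2]
    unfold resl
    rw [if_pos (hr1 g), mul_inv_cancel_left]
  refine ⟨mulF (fun g => X (r g) ((r g)⁻¹ * g)) i, ?_, ?_⟩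
  · rw [mulF_assoc, h.ii]
  · apply toMA_injective
    rw [← hxi, toMA_pwR, toMA_mulF, toMA_mulF]
    conv_lhs => rw [h2, toMA_pwR]
    have h3 : Commute (toMA w) (toMA i) := commute_spA h.cw _ (mem_spA.2 h.si)
    rw [mul_assoc, mul_assoc, (h3.pow_left (q - j)).eq]

end Pool.Agent.PP.CD2.H21
end -- Pool.Agent.Helper21_D2.Ann

section -- Pool.Agent.Helper21_D1.Frw

/-!
# Squad PP, part D1: module FRW
-/

open scoped BigOperators

namespace Pool.Agent.PP.D1H21

open Pool.Agent.Helper51_AWC Pool.Agent.Helper79_WRA Pool.Agent.PP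

/-- FRW -/
theorem frw : FrwStmt := by
  classical
  intro F _ K Ω _ _ _ _ S hS hfree
  let r : Ω → Ω := fun ω => Quotient.out (Quotient.mk (MulAction.orbitRel K Ω) ω)
  have hr : ∀ ω, ∃ k : K, r ω = k • ω := by
    intro ω
    have h : (MulAction.orbitRel K Ω).r (r ω) ω :=
      Quotient.exact (Quotient.out_eq (Quotient.mk (MulAction.orbitRel K Ω) ω))
    obtain ⟨k, hk⟩ := (MulAction.orbitRel_apply.1 h)
    exact ⟨k, hk.symm⟩
  have hrk : ∀ (k : K) ω, r (k • ω) = r ω := by
    intro k ω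
    have h : Quotient.mk (MulAction.orbitRel K Ω) (k • ω) =
        Quotient.mk (MulAction.orbitRel K Ω) ω :=
      Quotient.sound (MulAction.orbitRel_apply.2 ⟨k, rfl⟩)
    show Quotient.out _ = Quotient.out _
    rw [h]
  refine ⟨fun ω => if ω ∈ S ∧ ω = r ω then 1 else 0, ?_, ?_⟩
  · intro ω hω
    exact if_neg fun h => hω h.1
  · intro ω hω
    obtain ⟨k₀, hk₀⟩ := hr ω
    rw [finsum_eq_single _ k₀]
    · refine if_pos ⟨hS k₀ ω hω, ?_⟩
      rw [hrk, hk₀]
    · intro k hk
      refine if_neg fun h => hk ?_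
      have h1 : k • ω = k₀ • ω := by
        rw [h.2, hrk, hk₀]
      have h2 : (k₀⁻¹ * k) • ω = ω := by
        rw [mul_smul, h1, inv_smul_smul]
      have h3 := hfree _ ω hω h2
      rw [inv_mul_eq_one] at h3
      exact h3.symm

end Pool.Agent.PP.D1H21
end -- Pool.Agent.Helper21_D1.Frw

section -- Pool.Agent.Helper21_D2.Trf

/-!
# Squad PP, part D2: modules TRF and EBQ
-/

open scoped BigOperators

set_option linter.unusedSectionVars false

namespace Pool.Agent.PP.CD2.H21

open Pool.Agent.Helper51_AWC Pool.Agent.Helper79_WRA Pool.Agent.PP Pool.Agent.PP.H20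

variable {F : Type} [Field F] {G : Type} [Group G] [Finite G] {V V' : Type} [AddCommGroup V]
  [Module F V] [AddCommGroup V'] [Module F V']

theorem evV_mulF (ρ : Representation F G V) (a b : G → F) (v : V) :
    evV ρ (mulF a b) v = evV ρ a (evV ρ b v) := by
  have := Fintype.ofFinite G
  rw [D66.evV_apply, D66.evV_apply]
  calc ∑ g, mulF a b g • ρ g v = ∑ g, ∑ t, (a t * b (t⁻¹ * g)) • ρ g v := by
        refine Finset.sum_congr rfl fun g _ => ?_
        rw [mulF_fin, Finset.sum_smul]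
    _ = ∑ t, ∑ g, (a t * b (t⁻¹ * g)) • ρ g v := Finset.sum_comm
    _ = ∑ t, a t • ρ t (evV ρ b v) := by
        refine Finset.sum_congr rfl fun t _ => ?_
        rw [D66.evV_apply, map_sum, Finset.smul_sum]
        symm
        refine Fintype.sum_equiv (Equiv.mulLeft t) _ _ fun s => ?_
        change a t • ρ t (b s • ρ s v) = (a t * b (t⁻¹ * (t * s))) • ρ (t * s) v
        rw [inv_mul_cancel_left, map_smul, map_mul, smul_smul]
        rfl

theorem evV_pwF (ρ : Representation F G V) (w a : G → F) (s : ℕ) (v : V) :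
    evV ρ (pwF w s a) v = ((evV ρ w) ^ s) (evV ρ a v) := by
  induction s with
  | zero => rfl
  | succ s ih => rw [pwF_succ, evV_mulF, ih, pow_succ']; rfl

/-- `b` and `w` are supported on `C` -/
theorem ums_sp {C : Subgroup G} {b w : G → F} {q : ℕ} (h : UMS C b w q) :
    SpF C b ∧ SpF C w := by
  obtain ⟨m, e, i, hU1, hU2, hU3, hU4⟩ := h
  refine ⟨?_, ?_⟩
  · rw [← hU3]
    exact sp_sum _ fun t _ => (hU1 t).sb
  · rw [← mem_spA, ← hU4, toMA_mulF, ← hU3, toMA_sum, Finset.sum_mul]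
    refine Subalgebra.sum_mem _ fun t _ => ?_
    rw [← toMA_mulF]
    exact mem_spA.2 (hU1 t).sw

open Classical in
/-- the coefficient functions -/
noncomputable def xf (K : Subgroup G) (ρ : Representation F G V) (θ : V →ₗ[F] F) (v : V) : G → F :=
  fun g => if g ∈ K then θ (ρ g⁻¹ v) else 0

theorem mulF_xf {K C : Subgroup G} (hCK : C ≤ K) (ρ : Representation F G V) (θ : V →ₗ[F] F)
    {a : G → F} (ha : SpF C a) (v : V) : mulF a (xf K ρ θ v) = xf K ρ θ (evV ρ a v) := by
  classical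
  have := Fintype.ofFinite G
  funext g
  rw [mulF_fin]
  have h1 : ∀ t, a t * xf K ρ θ v (t⁻¹ * g) =
      (if g ∈ K then θ (ρ g⁻¹ (a t • ρ t v)) else 0) := by
    intro t
    by_cases ht : t ∈ C
    · unfold xf
      by_cases hg : g ∈ K
      · rw [if_pos (K.mul_mem (K.inv_mem (hCK ht)) hg), if_pos hg, mul_inv_rev, inv_inv, map_mul,
          Module.End.mul_apply, map_smul, map_smul, smul_eq_mul]
      · rw [if_neg, if_neg hg, mul_zero]
        intro h
        exact hg ((K.mul_mem_cancel_left (K.inv_mem (hCK ht))).1 h)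
    · rw [ha t ht, zero_mul, zero_smul, map_zero, map_zero, ite_self]
  rw [Finset.sum_congr rfl fun t _ => h1 t]
  unfold xf
  split_ifs with hg
  · rw [D66.evV_apply, map_sum, map_sum]
  · exact Finset.sum_const_zero

theorem trf : TrfStmt := by
  classical
  intro F _ G _ _ C K b w q hU hCK V V' _ _ _ _ _ ρ ρ' θ j hj v hbv hwv
  have := Fintype.ofFinite G
  have := Fintype.ofFinite K
  obtain ⟨hb, hw⟩ := ums_sp hU
  let B := Module.finBasis F V'
  have h1 : ∀ β, ∃ x' : G → F, xf K ρ (B.coord β ∘ₗ θ) v = pwF w (q - j) x' := by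
    intro β
    have e1 : ∀ s : ℕ, pwF w s (xf K ρ (B.coord β ∘ₗ θ) v) =
        xf K ρ (B.coord β ∘ₗ θ) (((evV ρ w) ^ s) v) := by
      intro s
      induction s with
      | zero => rfl
      | succ s ih => rw [pwF_succ, ih, mulF_xf hCK ρ _ hw, pow_succ']; rfl
    obtain ⟨x', _, h⟩ := ann F G C b w q hU j hj (xf K ρ (B.coord β ∘ₗ θ) v)
      (by rw [mulF_xf hCK ρ _ hb, hbv])
      (by
        rw [e1, hwv]
        funext g
        unfold xf
        rw [map_zero, map_zero, ite_self]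
        rfl)
    exact ⟨x', h⟩
  choose X hX using h1
  have h2 : trP ρ ρ' K θ v = ∑ β, evV ρ' (xf K ρ (B.coord β ∘ₗ θ) v) (B β) := by
    have e2 : trP ρ ρ' K θ v = ∑ g : G, (if g ∈ K then ρ' g (θ (ρ g⁻¹ v)) else 0) := by
      unfold trP
      rw [finsum_eq_sum_of_fintype, LinearMap.sum_apply]
      calc _ = ∑ g ∈ (Finset.univ.filter fun g : G => g ∈ K), ρ' g (θ (ρ g⁻¹ v)) := by
            symm
            refine Finset.sum_subtype _ (fun x => ?_) (fun g => ρ' g (θ (ρ g⁻¹ v)))
            rw [Finset.mem_filter]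
            exact ⟨fun h => h.2, fun h => ⟨Finset.mem_univ _, h⟩⟩
        _ = _ := Finset.sum_filter _ _
    rw [e2]
    have e3 : ∀ β, evV ρ' (xf K ρ (B.coord β ∘ₗ θ) v) (B β) =
        ∑ g : G, xf K ρ (B.coord β ∘ₗ θ) v g • ρ' g (B β) := fun β => D66.evV_apply _ _ _
    rw [Finset.sum_congr rfl fun β _ => e3 β, Finset.sum_comm]
    refine Finset.sum_congr rfl fun g _ => ?_
    unfold xf
    split_ifs with hg
    · conv_lhs => rw [← B.sum_repr (θ (ρ g⁻¹ v)), map_sum]
      refine Finset.sum_congr rfl fun β _ => ?_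
      rw [map_smul]
      rfl
    · simp only [zero_smul, Finset.sum_const_zero]
  rw [h2]
  refine Submodule.sum_mem _ fun β _ => ?_
  rw [hX β, evV_pwF]
  exact ⟨_, rfl⟩

/-- in a cyclic `ℓ`-group every nontrivial element has a power of order `ℓ` which generates the
subgroup of order `ℓ` -/
theorem mem_zpow_of_cyclic {ℓ : ℕ} [hℓ : Fact ℓ.Prime] {P : Subgroup G} (hc : IsCyclic P) {n : ℕ}
    (hP : Nat.card P = ℓ ^ (n + 1)) {y p : G} (hy : y ∈ P) (hyo : orderOf y = ℓ) (hp : p ∈ P)
    (hp1 : p ≠ 1) : y ∈ Subgroup.zpowers p := by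
  classical
  have := Fintype.ofFinite P
  have hdvd : orderOf p ∣ ℓ ^ (n + 1) := by
    rw [← hP]
    exact Subgroup.orderOf_dvd_natCard P hp
  obtain ⟨k, _, hk⟩ := (Nat.dvd_prime_pow hℓ.out).1 hdvd
  have hk0 : k ≠ 0 := by
    rintro rfl
    rw [pow_zero, orderOf_eq_one_iff] at hk
    exact hp1 hk
  obtain ⟨k', rfl⟩ := Nat.exists_eq_succ_of_ne_zero hk0
  have hzo : orderOf (p ^ ℓ ^ k') = ℓ := by
    rw [orderOf_pow_of_dvd (pow_ne_zero _ hℓ.out.ne_zero) (by
      rw [hk]; exact pow_dvd_pow _ (Nat.le_succ k')), hk, Nat.pow_div (Nat.le_succ k') hℓ.out.pos]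
    simp
  have hzP : p ^ ℓ ^ k' ∈ P := P.pow_mem hp _
  -- the elements of order dividing `ℓ`
  have h1 := IsCyclic.card_pow_eq_one_le (α := P) hℓ.out.pos
  obtain ⟨Z, hZ⟩ : ∃ Z : Finset P, Z = (Finset.range ℓ).image
      (fun r => (⟨p ^ ℓ ^ k', hzP⟩ : P) ^ r) := ⟨_, rfl⟩
  have hZc : Z.card = ℓ := by
    rw [hZ, Finset.card_image_of_injOn, Finset.card_range]
    intro r hr s hs hrs
    have h2 : (p ^ ℓ ^ k') ^ r = (p ^ ℓ ^ k') ^ s := by
      have := congrArg (fun t : P => (t : G)) hrs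
      simpa using this
    have h3 := pow_injOn_Iio_orderOf (x := p ^ ℓ ^ k')
    rw [hzo] at h3
    exact h3 (by simpa using hr) (by simpa using hs) h2
  have hZs : Z ⊆ Finset.univ.filter (fun a : P => a ^ ℓ = 1) := by
    intro a ha
    rw [hZ, Finset.mem_image] at ha
    obtain ⟨r, _, rfl⟩ := ha
    rw [Finset.mem_filter]
    refine ⟨Finset.mem_univ _, ?_⟩
    rw [← pow_mul, mul_comm, pow_mul]
    have h4 : (⟨p ^ ℓ ^ k', hzP⟩ : P) ^ ℓ = 1 := by
      apply Subtype.ext
      change (p ^ ℓ ^ k') ^ ℓ = 1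
      conv_lhs => rw [← hzo]
      rw [hzo]
      have := pow_orderOf_eq_one (p ^ ℓ ^ k')
      rwa [hzo] at this
    rw [h4, one_pow]
  have hZe := Finset.eq_of_subset_of_card_le hZs (by rw [hZc]; exact h1)
  have hyZ : (⟨y, hy⟩ : P) ∈ Z := by
    rw [hZe, Finset.mem_filter]
    refine ⟨Finset.mem_univ _, ?_⟩
    apply Subtype.ext
    change y ^ ℓ = 1
    have := pow_orderOf_eq_one y
    rwa [hyo] at this
  rw [hZ, Finset.mem_image] at hyZ
  obtain ⟨r, _, hr⟩ := hyZ
  have h5 : (p ^ ℓ ^ k') ^ r = y := by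
    have := congrArg (fun t : P => (t : G)) hr
    simpa using this
  rw [← h5, ← pow_mul]
  exact Subgroup.pow_mem _ (Subgroup.mem_zpowers p) _

/-- conjugation -/
@[reducible] def cact (P : Subgroup G) : MulAction P G where
  smul k g := (k : G) * g * (k : G)⁻¹
  one_smul g := by
    change (1 : G) * g * (1 : G)⁻¹ = g
    simp
  mul_smul k k' g := by
    change ((k * k' : P) : G) * g * ((k * k' : P) : G)⁻¹ =
      (k : G) * ((k' : G) * g * (k' : G)⁻¹) * (k : G)⁻¹
    push_cast
    group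

theorem ebq : EbqStmt := by
  classical
  intro ℓ hℓ F _ G _ _ n P y₁ hc hP hy hyo V _ _ ρ a ha
  have := Fintype.ofFinite G
  have := Fintype.ofFinite P
  -- conjugation by `P` stabilises the centraliser of `y₁`
  have hcomm : ∀ p ∈ P, p * y₁ = y₁ * p := by
    intro p hp
    obtain ⟨x, hx⟩ := hc.exists_generator
    obtain ⟨r, hr⟩ := Subgroup.mem_zpowers_iff.1 (hx ⟨p, hp⟩)
    obtain ⟨s, hs⟩ := Subgroup.mem_zpowers_iff.1 (hx ⟨y₁, hy⟩)
    have h : (⟨p, hp⟩ : P) * ⟨y₁, hy⟩ = ⟨y₁, hy⟩ * ⟨p, hp⟩ := by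
      rw [← hr, ← hs, ← zpow_add, ← zpow_add, add_comm]
    exact congrArg (fun t : P => (t : G)) h
  have hmem : ∀ g : G, g ∈ Subgroup.centralizer (Subgroup.zpowers y₁ : Set G) ↔
      g * y₁ = y₁ * g := by
    intro g
    rw [Subgroup.mem_centralizer_iff]
    constructor
    · intro h
      exact (h y₁ (Subgroup.mem_zpowers y₁)).symm
    · rintro h _ ⟨k, rfl⟩
      have hc : Commute g y₁ := h
      exact (hc.zpow_right k).eq.symm
  have hstab : ∀ p ∈ P, ∀ g : G, g ∉ Subgroup.centralizer (Subgroup.zpowers y₁ : Set G) →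
      p * g * p⁻¹ ∉ Subgroup.centralizer (Subgroup.zpowers y₁ : Set G) := by
    intro p hp g hg h
    apply hg
    rw [hmem] at h ⊢
    have h1 : p⁻¹ * y₁ = y₁ * p⁻¹ := hcomm _ (P.inv_mem hp)
    have h2 := hcomm p hp
    have h3 : p * (g * y₁) * p⁻¹ = p * (y₁ * g) * p⁻¹ := by
      calc p * (g * y₁) * p⁻¹ = p * g * (y₁ * p⁻¹) := by group
        _ = p * g * (p⁻¹ * y₁) := by rw [h1]
        _ = p * g * p⁻¹ * y₁ := by group
        _ = y₁ * (p * g * p⁻¹) := h
        _ = (y₁ * p) * g * p⁻¹ := by group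
        _ = (p * y₁) * g * p⁻¹ := by rw [h2]
        _ = p * (y₁ * g) * p⁻¹ := by group
    exact mul_left_cancel (mul_right_cancel h3)
  obtain ⟨d, hd1, hd2⟩ := @D1H21.frw F _ P G _ _ _ (cact P)
    {g | g ∉ Subgroup.centralizer (Subgroup.zpowers y₁ : Set G)}
    (fun p g hg => hstab p p.2 g hg)
    (by
      intro p g hg hpg
      have hpg' : (p : G) * g * (p : G)⁻¹ = g := hpg
      by_contra hp1
      have hp1' : (p : G) ≠ 1 := fun h => hp1 (Subtype.ext h)
      apply hg
      rw [hmem]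
      obtain ⟨k, hk⟩ := mem_zpow_of_cyclic hc hP hy hyo p.2 hp1'
      have h1 : Commute g (p : G) := by
        have h2 : (p : G) * g = g * p := mul_inv_eq_iff_eq_mul.1 hpg'
        exact h2.symm
      have h3 := (h1.zpow_right k).eq
      change (p : G) ^ k = y₁ at hk
      rwa [hk] at h3)
  have hd2' : ∀ g, g ∉ Subgroup.centralizer (Subgroup.zpowers y₁ : Set G) →
      ∑ p : P, d ((p : G) * g * (p : G)⁻¹) = 1 := by
    intro g hg
    have h := hd2 g hg
    rw [finsum_eq_sum_of_fintype] at h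
    exact h
  refine ⟨evV ρ (fun g => d g * a g), ?_⟩
  apply LinearMap.ext
  intro v
  have h1 : trP ρ ρ P (evV ρ (fun g => d g * a g)) v =
      ∑ p : P, ∑ g : G, (d ((p : G)⁻¹ * g * p) * a g) • ρ g v := by
    unfold trP
    rw [finsum_eq_sum_of_fintype, LinearMap.sum_apply]
    refine Finset.sum_congr rfl fun p _ => ?_
    change ρ p (evV ρ (fun g => d g * a g) (ρ (p : G)⁻¹ v)) = _
    rw [D66.evV_apply, map_sum]
    refine Fintype.sum_equiv (MulAut.conj (p : G)).toEquiv _ _ fun g => ?_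
    change ρ p ((d g * a g) • ρ g (ρ (p : G)⁻¹ v)) =
      (d ((p : G)⁻¹ * (p * g * (p : G)⁻¹) * p) * a (p * g * (p : G)⁻¹)) •
        ρ (p * g * (p : G)⁻¹) v
    rw [ha p p.2 g, map_smul, map_mul, map_mul]
    have h2 : (p : G)⁻¹ * (p * g * (p : G)⁻¹) * p = g := by group
    rw [h2]
    rfl
  rw [h1, Finset.sum_comm, LinearMap.sub_apply, D66.evV_apply, D66.evV_apply,
    ← Finset.sum_sub_distrib]
  refine Finset.sum_congr rfl fun g _ => ?_
  rw [← Finset.sum_smul, ← Finset.sum_mul, ← sub_smul]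
  congr 1
  by_cases hg : g ∈ Subgroup.centralizer (Subgroup.zpowers y₁ : Set G)
  · have h2 : bY y₁ a g = a g := by
      unfold bY br
      rw [if_pos hg]
    rw [h2, sub_self]
    have h3 : ∀ p : P, d ((p : G)⁻¹ * g * p) = 0 := by
      intro p
      apply hd1
      intro h
      have h4 := hstab p p.2 _ h
      apply h4
      have h5 : (p : G) * ((p : G)⁻¹ * g * p) * (p : G)⁻¹ = g := by group
      rwa [h5]
    rw [Finset.sum_eq_zero fun p _ => h3 p, zero_mul]
  · have h2 : bY y₁ a g = 0 := by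
      unfold bY br
      rw [if_neg hg]
    rw [h2, sub_zero]
    have h3 : ∑ p : P, d ((p : G)⁻¹ * g * p) = 1 := by
      rw [← hd2' g hg]
      refine Fintype.sum_equiv (Equiv.inv P) _ _ fun p => ?_
      simp
    rw [h3, one_mul]

end Pool.Agent.PP.CD2.H21
end -- Pool.Agent.Helper21_D2.Trf

section -- Pool.Agent.Helper98_D2.Kit

/-!
# Squad PP, part D2: left and right translations, elements supported on a subgroup
-/

open scoped BigOperators

set_option linter.unusedSectionVars false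

noncomputable section

namespace Pool.Agent.PP.CD2.H98

open Pool.Agent.Helper51_AWC Pool.Agent.Helper79_WRA Pool.Agent.PP Pool.Agent.PP.CD2

variable {F : Type} [Field F] {G : Type} [Group G]

/-- left translation -/
def lt (F : Type) [Field F] {G : Type} [Group G] (g : G) : (G → F) →ₗ[F] (G → F) :=
  LinearMap.funLeft F F (fun h => g⁻¹ * h)

/-- right translation -/
def rt (F : Type) [Field F] {G : Type} [Group G] (g : G) : (G → F) →ₗ[F] (G → F) :=
  LinearMap.funLeft F F (fun h => h * g⁻¹)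

theorem lt_apply (g : G) (x : G → F) (h : G) : lt F g x h = x (g⁻¹ * h) := rfl

theorem rt_apply (g : G) (x : G → F) (h : G) : rt F g x h = x (h * g⁻¹) := rfl

/-- multiplication from the right as a linear map -/
def mR [Finite G] (z : G → F) : (G → F) →ₗ[F] (G → F) where
  toFun x := mulF x z
  map_add' x y := H20.add_mulF x y z
  map_smul' c x := H20.smul_mulF c x z

/-- multiplication from the left as a linear map -/
def mL [Finite G] (z : G → F) : (G → F) →ₗ[F] (G → F) where
  toFun x := mulF z x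
  map_add' x y := H20.mulF_add z x y
  map_smul' c x := H20.mulF_smul c z x

theorem mR_apply [Finite G] (z x : G → F) : mR z x = mulF x z := rfl

theorem mL_apply [Finite G] (z x : G → F) : mL z x = mulF z x := rfl

theorem pwR_eq [Finite G] (w x : G → F) (s : ℕ) : pwR w s x = ((mR w) ^ s) x := by
  rw [Module.End.pow_apply]
  rfl

theorem pwF_eq [Finite G] (w x : G → F) (s : ℕ) : pwF w s x = ((mL w) ^ s) x := by
  rw [Module.End.pow_apply]
  rfl

/-- a product is a sum of right translates of the left factor -/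
theorem mulF_rt [Fintype G] (x z : G → F) : mulF x z = ∑ c : G, z c • rt F c x := by
  funext h
  rw [Finset.sum_apply]
  change ∑ᶠ t, x t * z (t⁻¹ * h) = _
  rw [finsum_eq_sum_of_fintype]
  refine Fintype.sum_equiv ((Equiv.inv G).trans (Equiv.mulRight h)) _ _ fun t => ?_
  change x t * z (t⁻¹ * h) = z (t⁻¹ * h) * x (h * (t⁻¹ * h)⁻¹)
  rw [mul_comm, mul_inv_rev, inv_inv, ← mul_assoc, mul_inv_cancel, one_mul]

/-- a product is a sum of left translates of the right factor -/
theorem mulF_lt [Fintype G] (z x : G → F) : mulF z x = ∑ c : G, z c • lt F c x := by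
  funext h
  rw [Finset.sum_apply]
  change ∑ᶠ t, z t * x (t⁻¹ * h) = _
  rw [finsum_eq_sum_of_fintype]
  rfl

/-- a linear map which commutes with the right translations by `C` commutes with the right
multiplication by elements supported on `C` -/
theorem comm_mR [Finite G] {C : Subgroup G} (Ψ : (G → F) →ₗ[F] (G → F))
    (hΨ : ∀ c ∈ C, ∀ x, Ψ (rt F c x) = rt F c (Ψ x)) {z : G → F} (hz : SpF C z) (x : G → F) :
    Ψ (mulF x z) = mulF (Ψ x) z := by
  have := Fintype.ofFinite G
  rw [mulF_rt, mulF_rt, map_sum]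
  refine Finset.sum_congr rfl fun c _ => ?_
  by_cases hc : c ∈ C
  · rw [map_smul, hΨ c hc]
  · rw [hz c hc, zero_smul, zero_smul, map_zero]

/-- a linear map which commutes with the left translations by `C` commutes with the left
multiplication by elements supported on `C` -/
theorem comm_mL [Finite G] {C : Subgroup G} (Ψ : (G → F) →ₗ[F] (G → F))
    (hΨ : ∀ c ∈ C, ∀ x, Ψ (lt F c x) = lt F c (Ψ x)) {z : G → F} (hz : SpF C z) (x : G → F) :
    Ψ (mulF z x) = mulF z (Ψ x) := by
  have := Fintype.ofFinite G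
  rw [mulF_lt, mulF_lt, map_sum]
  refine Finset.sum_congr rfl fun c _ => ?_
  by_cases hc : c ∈ C
  · rw [map_smul, hΨ c hc]
  · rw [hz c hc, zero_smul, zero_smul, map_zero]

/-- elements commuting with `C` commute with elements supported on `C` -/
theorem cm_comm [Finite G] {C : Subgroup G} {a z : G → F} (ha : CmF C a) (hz : SpF C z) :
    mulF a z = mulF z a := by
  have := Fintype.ofFinite G
  rw [mulF_rt, mulF_lt]
  refine Finset.sum_congr rfl fun c _ => ?_
  by_cases hc : c ∈ C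
  · congr 1
    funext h
    rw [rt_apply, lt_apply, ← ha c hc (c⁻¹ * h)]
    congr 1
    group
  · rw [hz c hc, zero_smul, zero_smul]

/-- restriction to the subgroup `C` -/
def cut (C : Subgroup G) : (G → F) →ₗ[F] (G → F) where
  toFun x := open Classical in fun t => if t ∈ C then x t else 0
  map_add' x y := by
    funext t
    simp only [Pi.add_apply]
    split_ifs
    · rfl
    · rw [add_zero]
  map_smul' c x := by
    funext t
    simp only [Pi.smul_apply, RingHom.id_apply, smul_eq_mul]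
    split_ifs
    · rfl
    · rw [mul_zero]

theorem cut_in {C : Subgroup G} (x : G → F) {t : G} (ht : t ∈ C) : cut C x t = x t := if_pos ht

theorem cut_out {C : Subgroup G} (x : G → F) {t : G} (ht : t ∉ C) : cut C x t = 0 := if_neg ht

theorem cut_rt (C : Subgroup G) {c : G} (hc : c ∈ C) (x : G → F) :
    cut C (rt F c x) = rt F c (cut C x) := by
  funext t
  by_cases ht : t ∈ C
  · rw [cut_in _ ht, rt_apply, rt_apply, cut_in _ (C.mul_mem ht (C.inv_mem hc))]
  · rw [cut_out _ ht, rt_apply, cut_out]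
    intro h
    exact ht ((Subgroup.mul_mem_cancel_right _ (C.inv_mem hc)).1 h)

theorem cut_lt (C : Subgroup G) {c : G} (hc : c ∈ C) (x : G → F) :
    cut C (lt F c x) = lt F c (cut C x) := by
  funext t
  by_cases ht : t ∈ C
  · rw [cut_in _ ht, lt_apply, lt_apply, cut_in _ (C.mul_mem (C.inv_mem hc) ht)]
  · rw [cut_out _ ht, lt_apply, cut_out]
    intro h
    exact ht ((Subgroup.mul_mem_cancel_left _ (C.inv_mem hc)).1 h)

theorem cut_mulF_right [Finite G] {C : Subgroup G} {z : G → F} (hz : SpF C z) (x : G → F) :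
    cut C (mulF x z) = mulF (cut C x) z := comm_mR (cut C) (fun _ hc x => cut_rt C hc x) hz x

theorem cut_mulF_left [Finite G] {C : Subgroup G} {z : G → F} (hz : SpF C z) (x : G → F) :
    cut C (mulF z x) = mulF z (cut C x) := comm_mL (cut C) (fun _ hc x => cut_lt C hc x) hz x

theorem cut_sp (C : Subgroup G) (x : G → F) : SpF C (cut C x) := fun _ ht => cut_out x ht

/-- the representation on an invariant space of functions by left translation -/
def sRep (V : Submodule F (G → F)) (hV : ∀ g : G, ∀ x ∈ V, lt F g x ∈ V) :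
    Representation F G V where
  toFun g := (lt F g).restrict (hV g)
  map_one' := by
    ext x t
    change x.1 ((1 : G)⁻¹ * t) = x.1 t
    rw [inv_one, one_mul]
  map_mul' g h := by
    ext x t
    change x.1 ((g * h)⁻¹ * t) = x.1 (h⁻¹ * (g⁻¹ * t))
    rw [mul_inv_rev, mul_assoc]

theorem sRep_apply (V : Submodule F (G → F)) (hV : ∀ g : G, ∀ x ∈ V, lt F g x ∈ V) (g : G) (x : V) :
    ((sRep V hV g x : V) : G → F) = lt F g x := rfl

theorem evV_sRep [Finite G] (V : Submodule F (G → F)) (hV : ∀ g : G, ∀ x ∈ V, lt F g x ∈ V)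
    (a : G → F) (x : V) : ((evV (sRep V hV) a x : V) : G → F) = mulF a x := by
  have := Fintype.ofFinite G
  rw [D66.evV_apply, mulF_lt, AddSubmonoidClass.coe_finsetSum]
  rfl

theorem evV_sRep_pow [Finite G] (V : Submodule F (G → F)) (hV : ∀ g : G, ∀ x ∈ V, lt F g x ∈ V)
    (w : G → F) (k : ℕ) (x : V) : ((((evV (sRep V hV) w) ^ k) x : V) : G → F) = pwF w k x := by
  induction k generalizing x with
  | zero => rfl
  | succ k ih =>
    rw [pow_succ, Module.End.mul_apply, ih, evV_sRep]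
    rfl

/-- independence in a nilpotent module -/
theorem nil_li {E : Type} [AddCommGroup E] [Module F E] (W : Module.End F E) (v : E) (q : ℕ)
    (hq : (W ^ q) v = 0) (hn : (W ^ (q - 1)) v ≠ 0) (α : ℕ → F)
    (h : ∑ s ∈ Finset.range q, α s • (W ^ s) (W v) = 0) : ∀ s, s + 1 < q → α s = 0 := by
  intro s
  induction s using Nat.strong_induction_on with
  | _ s ih =>
  intro hs
  have hz : ∀ k, q ≤ k → (W ^ k) v = 0 := by
    intro k hk
    obtain ⟨j, rfl⟩ := Nat.exists_eq_add_of_le hk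
    rw [add_comm, pow_add, Module.End.mul_apply, hq, map_zero]
  have h1 := congrArg (W ^ (q - 2 - s)) h
  rw [map_sum, map_zero, Finset.sum_eq_single s] at h1
  · rw [map_smul, ← Module.End.mul_apply, ← pow_add] at h1
    have h2 : (W ^ (q - 2 - s + s)) (W v) = (W ^ (q - 1)) v := by
      rw [← Module.End.mul_apply, ← pow_succ]
      congr 2
      omega
    rw [h2] at h1
    exact (smul_eq_zero.1 h1).resolve_right hn
  · intro t ht hts
    rcases lt_or_gt_of_ne hts with hlt | hgt
    · rw [ih t hlt (by omega), zero_smul, map_zero]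
    · rw [map_smul, ← Module.End.mul_apply, ← pow_add, ← Module.End.mul_apply, ← pow_succ,
        hz _ (by omega), smul_zero]
  · intro hs'
    exact absurd (Finset.mem_range.2 (by omega)) hs'

/-- an element of order dividing `ℓ` in a cyclic group `P` is in the subgroup of order `ℓ` -/
theorem mem_zp {ℓ : ℕ} [hℓ : Fact ℓ.Prime] [Finite G] {P : Subgroup G} (hP : IsCyclic P) {y₁ : G}
    (hy : y₁ ∈ P) (ho : orderOf y₁ = ℓ) {x : G} (hx : x ∈ P) (hxl : x ^ ℓ = 1) :
    x ∈ Subgroup.zpowers y₁ := by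
  classical
  have := Fintype.ofFinite P
  have h1 : ((Finset.univ : Finset P).filter fun a => a ^ ℓ = 1).card ≤ ℓ :=
    IsCyclic.card_pow_eq_one_le hℓ.out.pos
  have := Fintype.ofFinite (Subgroup.zpowers (⟨y₁, hy⟩ : P))
  have h2 : (Finset.univ : Finset P).filter (fun a => a ∈ Subgroup.zpowers (⟨y₁, hy⟩ : P)) =
      (Finset.univ : Finset P).filter fun a => a ^ ℓ = 1 := by
    apply Finset.eq_of_subset_of_card_le
    · intro a ha
      rw [Finset.mem_filter] at ha ⊢
      refine ⟨Finset.mem_univ _, ?_⟩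
      obtain ⟨k, hk⟩ := Subgroup.mem_zpowers_iff.1 ha.2
      have h3 : (⟨y₁, hy⟩ : P) ^ ℓ = 1 := by
        rw [← ho]
        apply Subtype.ext
        exact pow_orderOf_eq_one y₁
      rw [← hk, ← zpow_natCast, ← zpow_mul, mul_comm, zpow_mul, zpow_natCast, h3, one_zpow]
    · refine h1.trans ?_
      have h4 : Nat.card (Subgroup.zpowers (⟨y₁, hy⟩ : P)) = ℓ := by
        rw [Nat.card_zpowers, Subgroup.orderOf_mk, ho]
      have h5 : ((Finset.univ : Finset P).filter
          (fun a => a ∈ Subgroup.zpowers (⟨y₁, hy⟩ : P))).card =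
          Nat.card (Subgroup.zpowers (⟨y₁, hy⟩ : P)) := by
        rw [Nat.card_eq_fintype_card, Fintype.card_subtype]
      rw [h5, h4]
  have h6 : (⟨x, hx⟩ : P) ∈ (Finset.univ : Finset P).filter fun a => a ^ ℓ = 1 := by
    rw [Finset.mem_filter]
    exact ⟨Finset.mem_univ _, Subtype.ext hxl⟩
  rw [← h2, Finset.mem_filter] at h6
  obtain ⟨k, hk⟩ := Subgroup.mem_zpowers_iff.1 h6.2
  exact Subgroup.mem_zpowers_iff.2 ⟨k, by simpa using congrArg Subtype.val hk⟩

/-- `P × P` acts freely outside the normaliser of the subgroup of order `ℓ` -/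
theorem free {ℓ n : ℕ} [hℓ : Fact ℓ.Prime] [Finite G] {P : Subgroup G} (hP : IsCyclic P)
    (hc : Nat.card P = ℓ ^ (n + 1)) {y₁ : G} (hy : y₁ ∈ P) (ho : orderOf y₁ = ℓ) {g : G}
    (hg : g ∉ NY y₁) {p p' : G} (hp : p ∈ P) (hp' : p' ∈ P) (h : p * g * p'⁻¹ = g) : p = 1 := by
  by_contra hp1
  have hpp : IsPGroup ℓ P := IsPGroup.of_card hc
  obtain ⟨k, hk⟩ := (IsPGroup.iff_orderOf.1 hpp) ⟨p, hp⟩
  rw [Subgroup.orderOf_mk] at hk
  have hk0 : k ≠ 0 := by
    rintro rfl
    rw [pow_zero, orderOf_eq_one_iff] at hk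
    exact hp1 hk
  obtain ⟨m, rfl⟩ := Nat.exists_eq_succ_of_ne_zero hk0
  have hpp' : p = g * p' * g⁻¹ := by
    rw [mul_inv_eq_iff_eq_mul] at h
    rw [← h]
    group
  have hu1 : p ^ ℓ ^ m ≠ 1 := by
    intro h1
    have h2 := orderOf_dvd_of_pow_eq_one h1
    rw [hk] at h2
    have h3 := Nat.pow_dvd_pow_iff_le_right hℓ.out.one_lt |>.1 h2
    omega
  have hul : (p ^ ℓ ^ m) ^ ℓ = 1 := by
    rw [← pow_mul, ← pow_succ, ← hk, pow_orderOf_eq_one]
  have hconj : p ^ ℓ ^ m = g * p' ^ ℓ ^ m * g⁻¹ := by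
    rw [hpp', conj_pow]
  have hul' : (p' ^ ℓ ^ m) ^ ℓ = 1 := by
    have h1 : p' ^ ℓ ^ m = g⁻¹ * p ^ ℓ ^ m * g := by rw [hconj]; group
    have h2 : (g⁻¹ * p ^ ℓ ^ m * g) ^ ℓ = g⁻¹ * (p ^ ℓ ^ m) ^ ℓ * g := by
      have := conj_pow (a := g⁻¹) (b := p ^ ℓ ^ m) (i := ℓ)
      rwa [inv_inv] at this
    rw [h1, h2, hul]
    group
  apply hg
  refine D1.H26.norm_prime (ℓ := ℓ) (x := p ^ ℓ ^ m) ?_ ?_ hu1 ?_
  · rw [Nat.card_zpowers, ho]
  · exact mem_zp hP hy ho (P.pow_mem hp _) hul
  · have h1 : g⁻¹ * p ^ ℓ ^ m * g = p' ^ ℓ ^ m := by rw [hconj]; group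
    rw [h1]
    exact mem_zp hP hy ho (P.pow_mem hp' _) hul'

/-- the centraliser is contained in the normaliser -/
theorem CY_le_NY (y : G) : CY y ≤ NY y := by
  intro x hx
  rw [CY, Subgroup.mem_centralizer_iff] at hx
  refine Subgroup.mem_normalizer_iff.2 fun h => ⟨fun hh => ?_, fun hh => ?_⟩
  · have h1 := hx h hh
    rw [← h1, mul_inv_cancel_right]
    exact hh
  · have h1 := hx _ hh
    have h2 : x * h * x⁻¹ = h := by
      have h3 : x * h = x * (x * h * x⁻¹) := by rw [← h1]; group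
      exact (mul_left_cancel h3).symm
    rwa [h2] at hh

end Pool.Agent.PP.CD2.H98
end
end -- Pool.Agent.Helper98_D2.Kit

section -- Pool.Agent.Helper98_D2.Uni

/-!
# Squad PP, part D2, module UNI
-/

open scoped BigOperators

set_option linter.unusedSectionVars false

noncomputable section

namespace Pool.Agent.PP.CD2.H98

open Pool.Agent.Helper51_AWC Pool.Agent.Helper79_WRA Pool.Agent.PP Pool.Agent.PP.CD2

/-- the powers of a nilpotent operator are independent -/
theorem nil_indep {F : Type} [Field F] {E : Type} [AddCommGroup E] [Module F E]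
    (W : Module.End F E) (v : E) (m : ℕ)
    (h0 : (W ^ m) v = 0) (h1 : (W ^ (m - 1)) v ≠ 0) :
    LinearIndependent F (fun s : Fin m => (W ^ (s : ℕ)) v) := by
  classical
  rw [Fintype.linearIndependent_iff]
  intro g hg
  obtain ⟨α, hα⟩ : ∃ α : ℕ → F, α = fun s => if h : s < m then g ⟨s, h⟩ else 0 := ⟨_, rfl⟩
  have hαg : ∀ s : Fin m, α s = g s := by
    intro s
    rw [hα]
    change (if h : (s : ℕ) < m then g ⟨s, h⟩ else 0) = g s
    rw [dif_pos s.2]
  have hsum : ∑ s ∈ Finset.range m, α s • (W ^ s) v = 0 := by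
    rw [Finset.sum_range, ← hg]
    exact Finset.sum_congr rfl fun s _ => by rw [hαg]
  have hlow : ∀ s, s + 1 < m → α s = 0 := by
    apply nil_li W v m h0 h1 α
    have h2 := congrArg W hsum
    rw [map_sum, map_zero] at h2
    rw [← h2]
    refine Finset.sum_congr rfl fun s _ => ?_
    rw [map_smul, ← Module.End.mul_apply, ← Module.End.mul_apply, ← pow_succ, ← pow_succ']
  intro s
  rw [← hαg]
  by_cases hs : (s : ℕ) + 1 < m
  · exact hlow _ hs
  · have hs2 := s.2
    have hsm : (s : ℕ) = m - 1 := by omega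
    rw [Finset.sum_eq_single (m - 1)] at hsum
    · rw [hsm]
      exact (smul_eq_zero.1 hsum).resolve_right h1
    · intro t ht htm
      rw [Finset.mem_range] at ht
      rw [hlow t (by omega), zero_smul]
    · intro h
      exact absurd (Finset.mem_range.2 (by omega)) h

theorem uni (cdq : CdqStmt) (brs : BrsStmt) (lfu : LfuStmt) (inv : InvStmt) : UniStmt := by
  classical
  intro ℓ hℓ F _ hF G _ _ n P y₁ b w i hS
  have hD := hS.d2s
  have hU := hS.umf
  obtain ⟨k, σ, hUq, hdiv⟩ := cdq ℓ F hF G n P y₁ b w i hS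
  obtain ⟨i', hi'⟩ := lfu ℓ F hF G b hD.idem k σ hUq
  have hdvd := hdiv i' hi'
  obtain ⟨q, hq⟩ : ∃ q : ℕ, q = ℓ ^ (n + 1) := ⟨_, rfl⟩
  have hq1 : 1 ≤ q := by rw [hq]; exact Nat.one_le_pow _ _ hℓ.out.pos
  obtain ⟨b₁, hb₁⟩ : ∃ b₁ : G → F, b₁ = bY y₁ b := ⟨_, rfl⟩
  rw [← hq] at hdvd hU ⊢
  rw [← hb₁] at hU
  have hcle : Module.finrank F (Submodule.span F (crn i')) ≤ q := Nat.le_of_dvd hq1 hdvd
  have hcw : CmF (⊤ ⊓ NY y₁) w := by
    rw [top_inf_eq]
    exact hU.cw.mono hS.nc
  have hsw : SpF (⊤ ⊓ CY y₁) w := by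
    rw [top_inf_eq]
    exact hU.sw
  have hbcl : IsCl b := hD.idem.1
  obtain ⟨z, hzs, hzc, hbz, hbr⟩ := brs ℓ F hF G n ⊤ P y₁ le_top hD.cyc hD.card hD.mem hD.ord b
    (fun x hx => absurd (Subgroup.mem_top x) hx) (H66.cmF_of_cl hbcl ⊤) hD.idem.2 hD.prj1 w hsw hcw
    (by rw [← hb₁]; exact hU.bw)
  have hzcl : IsCl z := fun x y => hzc y (Subgroup.mem_top y) x
  have hyp : IsPGroup ℓ (Subgroup.zpowers y₁) :=
    IsPGroup.of_card (n := 1) (by rw [Nat.card_zpowers, hD.ord, pow_one])
  have hmul : ∀ a c : G → F, IsCl a → IsCl c → bY y₁ (mulF a c) = mulF (bY y₁ a) (bY y₁ c) :=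
    fun a c ha hc => H66.bY_mulF hF hyp (H66.cmF_of_cl ha _) (H66.cmF_of_cl hc _)
  have hpw : ∀ k : ℕ, IsCl (pwF z k b) ∧ bY y₁ (pwF z k b) = pwF w k b₁ := by
    intro k
    induction k with
    | zero => exact ⟨hbcl, hb₁.symm⟩
    | succ k ih =>
      rw [H66.pwF_succ, H66.pwF_succ]
      refine ⟨H20.isCl_mulF hzcl ih.1, ?_⟩
      rw [hmul _ _ hzcl ih.1, hbr, ih.2]
  -- in the group algebra
  have hZ : ∀ x, H20.toMA z * x = x * H20.toMA z := (H20.isCl_iff z).1 hzcl
  have hB : H20.toMA b₁ * H20.toMA i = H20.toMA i := by rw [← H20.toMA_mulF, hU.bi]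
  have hBB : H20.toMA b₁ * H20.toMA b₁ = H20.toMA b₁ := by rw [← H20.toMA_mulF, hU.bb]
  have hBW : H20.toMA b₁ * H20.toMA w = H20.toMA w := by rw [← H20.toMA_mulF, hU.bw]
  have hWB : H20.toMA w * H20.toMA b₁ = H20.toMA w := by
    rw [← H66.comm_of hU.cb hU.sw, hBW]
  have hWq : H20.toMA w ^ q = 0 := by
    have h1 : H20.toMA w ^ q * H20.toMA b₁ = 0 := by
      rw [← H66.toMA_pwF, hU.nil, H20.toMA_zero]
    rw [← h1]
    obtain ⟨r, rfl⟩ := Nat.exists_eq_succ_of_ne_zero (by omega : q ≠ 0)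
    rw [Nat.succ_eq_add_one, pow_succ, mul_assoc, hWB]
  have hnz : H20.toMA w ^ (q - 1) * H20.toMA i ≠ 0 := by
    rw [← H66.toMA_pwF]
    intro h
    apply hU.nz
    apply H20.toMA_injective
    rw [h, H20.toMA_zero]
  have hb1 : H20.toMA b₁ ≠ 0 := by
    intro h
    apply hnz
    rw [← hB, h, zero_mul, mul_zero]
  -- nilpotency of `z`
  have hnil : ∃ N : ℕ, pwF z N b = 0 := by
    by_contra hcon
    push Not at hcon
    obtain ⟨u, hu, hbzu⟩ := inv ℓ F hF G b z hS.blk hzcl hcon
    have h1 : b₁ = mulF b₁ (mulF w (bY y₁ u)) := by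
      have h2 := congrArg (bY y₁) hbzu
      rw [hmul _ _ hbcl (H20.isCl_mulF hzcl hu), hmul _ _ hzcl hu, hbr, ← hb₁] at h2
      exact h2.symm
    obtain ⟨u₁, hu₁⟩ : ∃ u₁ : G → F, u₁ = bY y₁ u := ⟨_, rfl⟩
    rw [← hu₁] at h1
    have h3 : H20.toMA b₁ = H20.toMA w * H20.toMA u₁ := by
      have h4 := congrArg H20.toMA h1
      rw [H20.toMA_mulF, H20.toMA_mulF, ← mul_assoc, hBW] at h4
      exact h4
    have hcu : CmF (CY y₁) u₁ := by
      have h5 := H66.bY_cm (y := y₁) (H66.cmF_of_cl hu (⊤ : Subgroup G))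
      rw [top_inf_eq, ← hu₁] at h5
      exact h5.mono (H66.CY_le_NY y₁)
    have h6 : Commute (H20.toMA w) (H20.toMA u₁) := (H66.comm_of hcu hU.sw).symm
    have h7 : ∀ k : ℕ, H20.toMA b₁ ^ (k + 1) = H20.toMA b₁ := by
      intro k
      induction k with
      | zero => rw [zero_add, pow_one]
      | succ k ih => rw [pow_succ, ih, hBB]
    apply hb1
    obtain ⟨r, hr⟩ := Nat.exists_eq_succ_of_ne_zero (by omega : q ≠ 0)
    rw [← h7 r, ← Nat.succ_eq_add_one, ← hr, h3, h6.mul_pow, hWq, zero_mul]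
  have hBI : H20.toMA b * H20.toMA i' = H20.toMA i' := by rw [← H20.toMA_mulF, hi'.bi]
  obtain ⟨N, hN⟩ := hnil
  have hNi : pwF z N i' = 0 := by
    apply H20.toMA_injective
    rw [H66.toMA_pwF, ← hBI, ← mul_assoc, ← H66.toMA_pwF, hN, H20.toMA_zero, zero_mul]
  obtain ⟨m₀, X, Y, hXY⟩ := hi'.full
  have hfull : ∑ k, H20.toMA (X k) * (H20.toMA i' * H20.toMA (Y k)) = H20.toMA b := by
    rw [← hXY, H66.toMA_sum]
    exact Finset.sum_congr rfl fun k _ => by rw [H20.toMA_mulF, H20.toMA_mulF]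
  have hZp : ∀ (k : ℕ) (x : MonoidAlgebra F G), H20.toMA z ^ k * x = x * H20.toMA z ^ k := by
    intro k x
    exact (Commute.pow_left (hZ x) k)
  have hup : ∀ k : ℕ, pwF z k i' = 0 → pwF z k b = 0 := by
    intro k hk
    apply H20.toMA_injective
    rw [H66.toMA_pwF, ← hfull, Finset.mul_sum, H20.toMA_zero]
    refine Finset.sum_eq_zero fun j _ => ?_
    rw [← mul_assoc, hZp, mul_assoc, ← mul_assoc _ (H20.toMA i'), ← H66.toMA_pwF, hk,
      H20.toMA_zero, zero_mul, mul_zero]
  have hzi : pwF z (q - 1) i' ≠ 0 := by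
    intro h
    have h1 := (hpw (q - 1)).2
    rw [hup _ h] at h1
    have h2 : (0 : G → F) = pwF w (q - 1) b₁ := by
      rw [← h1]
      funext t
      unfold bY br
      split_ifs <;> rfl
    apply hnz
    rw [← hB, ← mul_assoc, ← H66.toMA_pwF, ← h2, H20.toMA_zero, zero_mul]
  -- the index of nilpotency
  have hex : ∃ N : ℕ, pwF z N i' = 0 := ⟨N, hNi⟩
  obtain ⟨m, hm⟩ : ∃ m : ℕ, m = Nat.find hex := ⟨_, rfl⟩
  have hm0 : pwF z m i' = 0 := by rw [hm]; exact Nat.find_spec hex
  have hmq : q ≤ m := by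
    by_contra hcon
    apply hzi
    have h1 : q - 1 = (q - 1 - m) + m := by omega
    rw [h1, H66.pwF_add, hm0, pwF_eq, map_zero]
  have hm1 : pwF z (m - 1) i' ≠ 0 := by
    apply Nat.find_min hex
    omega
  have hind : LinearIndependent F (fun s : Fin m => ((mL z) ^ (s : ℕ)) i') := by
    apply nil_indep
    · rw [← pwF_eq]
      exact hm0
    · rw [← pwF_eq]
      exact hm1
  have hII : H20.toMA i' * H20.toMA i' = H20.toMA i' := by rw [← H20.toMA_mulF, hi'.ii]
  have hcrn : ∀ s : ℕ, pwF z s i' ∈ crn i' := by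
    intro s
    constructor
    · apply H20.toMA_injective
      rw [H20.toMA_mulF, H66.toMA_pwF, ← mul_assoc, ← hZp, mul_assoc, hII]
    · apply H20.toMA_injective
      rw [H20.toMA_mulF, H66.toMA_pwF, mul_assoc, hII]
  have hle : Submodule.span F (Set.range fun s : Fin m => ((mL z) ^ (s : ℕ)) i') ≤
      Submodule.span F (crn i') := by
    apply Submodule.span_mono
    rintro _ ⟨s, rfl⟩
    change ((mL z) ^ (s : ℕ)) i' ∈ crn i'
    rw [← pwF_eq]
    exact hcrn s
  have hfr := finrank_span_eq_card hind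
  rw [Fintype.card_fin] at hfr
  have hfr2 := Submodule.finrank_mono hle
  have hmm : m = q := by omega
  have heq := Submodule.eq_of_le_of_finrank_le hle (by omega)
  have hzq : pwF z q i' = 0 := by rw [← hmm]; exact hm0
  refine ⟨z, i', ?_⟩
  refine
    { sb := fun x hx => absurd (Subgroup.mem_top x) hx
      sw := fun x hx => absurd (Subgroup.mem_top x) hx
      si := fun x hx => absurd (Subgroup.mem_top x) hx
      cb := H66.cmF_of_cl hbcl _
      cw := hzc
      bb := hD.idem.2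
      bw := hbz
      ii := hi'.ii
      bi := hi'.bi
      nil := hup q hzq
      nz := hzi
      loc := ?_
      full := ⟨m₀, X, Y, fun k => ⟨fun x hx => absurd (Subgroup.mem_top x) hx,
        fun x hx => absurd (Subgroup.mem_top x) hx⟩, hXY⟩ }
  intro a _
  have ha : mulF i' (mulF a i') ∈ Submodule.span F (crn i') := by
    apply Submodule.subset_span
    constructor
    · rw [← H20.mulF_assoc, hi'.ii]
    · rw [H20.mulF_assoc, H20.mulF_assoc, hi'.ii]
  rw [← heq, Submodule.mem_span_range_iff_exists_fun] at ha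
  obtain ⟨c, hc⟩ := ha
  refine ⟨fun s => if h : s < m then c ⟨s, h⟩ else 0, ?_⟩
  rw [← hc, ← hmm, Finset.sum_range]
  refine Finset.sum_congr rfl fun s _ => ?_
  change c s • _ = (if h : (s : ℕ) < m then c ⟨s, h⟩ else 0) • pwF z s i'
  rw [dif_pos s.2, pwF_eq]

end Pool.Agent.PP.CD2.H98
end
end -- Pool.Agent.Helper98_D2.Uni

section -- Pool.Agent.Helper98_D2.Xbm

/-!
# Squad PP, part D2, module XBM
-/

open scoped BigOperators

set_option linter.unusedSectionVars false

noncomputable section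

namespace Pool.Agent.PP.CD2.H98

open Pool.Agent.Helper51_AWC Pool.Agent.Helper79_WRA Pool.Agent.PP Pool.Agent.PP.CD2

variable {F : Type} [Field F] {G : Type} [Group G]

/-- the kernel `E(m, h) = ∑_{g ∈ C} d(m g) z(g⁻¹ m⁻¹ h g)` -/
def ker (C : Subgroup G) (d z : G → F) (m h : G) : F :=
  ∑ᶠ g : C, d (m * g) * z ((g : G)⁻¹ * (m⁻¹ * h) * g)

/-- the operator with the kernel `E` -/
def psi [Fintype G] (C : Subgroup G) (d z : G → F) : (G → F) →ₗ[F] (G → F) where
  toFun x := fun h => ∑ m : G, x m * ker C d z m h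
  map_add' x y := by
    funext h
    simp only [Pi.add_apply, add_mul, Finset.sum_add_distrib]
  map_smul' c x := by
    funext h
    simp only [Pi.smul_apply, smul_eq_mul, RingHom.id_apply, Finset.mul_sum, mul_assoc]

theorem psi_apply [Fintype G] (C : Subgroup G) (d z x : G → F) (h : G) :
    psi C d z x h = ∑ m : G, x m * ker C d z m h := rfl

theorem ker_mul (C : Subgroup G) (d z : G → F) {c : G} (hc : c ∈ C) (m h : G) :
    ker C d z (m * c) h = ker C d z m (h * c⁻¹) := by
  unfold ker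
  refine finsum_eq_of_bijective (fun g : C => (⟨c, hc⟩ : C) * g)
    (Group.mulLeft_bijective (⟨c, hc⟩ : C)) fun g => ?_
  change d (m * c * g) * z ((g : G)⁻¹ * ((m * c)⁻¹ * h) * g) =
    d (m * (c * g)) * z ((c * g : G)⁻¹ * (m⁻¹ * (h * c⁻¹)) * (c * g))
  congr 2 <;> group

theorem psi_rt [Fintype G] (C : Subgroup G) (d z : G → F) {c : G} (hc : c ∈ C) (x : G → F) :
    psi C d z (rt F c x) = rt F c (psi C d z x) := by
  funext h
  rw [rt_apply, psi_apply, psi_apply]
  refine Fintype.sum_equiv (Equiv.mulRight c⁻¹) _ _ fun m => ?_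
  change x (m * c⁻¹) * ker C d z m h = x (m * c⁻¹) * ker C d z (m * c⁻¹) (h * c⁻¹)
  rw [← ker_mul C d z hc, inv_mul_cancel_right]

theorem xbm (prt : PrtStmt) (frw : FrwStmt) : XbmStmt := by
  classical
  intro ℓ hℓ F _ hF G _ _ n P y₁ b w i hS s hs x hix hxi hwx hxs
  have := Fintype.ofFinite G
  have := Fintype.ofFinite P
  have hD := hS.d2s
  have hU := hS.umf
  obtain ⟨C, hC⟩ : ∃ C : Subgroup G, C = CY y₁ := ⟨_, rfl⟩
  have hNC : NY y₁ = C := by rw [hC]; exact le_antisymm hS.nc (CY_le_NY y₁)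
  have hNC' : (⊤ : Subgroup G) ⊓ NY y₁ = C := by rw [top_inf_eq, hNC]
  rw [← hC] at hU ⊢
  obtain ⟨b₁, hb₁⟩ : ∃ b₁ : G → F, b₁ = bY y₁ b := ⟨_, rfl⟩
  rw [← hb₁] at hU
  obtain ⟨q, hq⟩ : ∃ q : ℕ, q = ℓ ^ (n + 1) := ⟨_, rfl⟩
  have hq1 : 1 ≤ q := by rw [hq]; exact Nat.one_le_pow _ _ hℓ.out.pos
  rw [← hq] at hs hU ⊢
  have hPC : P ≤ C := by
    rw [hC]
    intro p hp
    rw [CY, Subgroup.mem_centralizer_iff]
    intro z hz
    have hz' : z ∈ P := (Subgroup.zpowers_le.2 hD.mem) hz
    have h2 := (@IsCyclic.commGroup P _ hD.cyc).mul_comm (⟨z, hz'⟩ : P) ⟨p, hp⟩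
    exact congrArg Subtype.val h2
  -- the weights
  obtain ⟨c₁, z, hc₁, hzs, hzP, hbz⟩ := hD.prj1
  rw [hNC'] at hc₁ hzs
  rw [← hb₁] at hbz
  let _ : MulAction (P × P) G := D1.H26.bact P
  have hact : ∀ (k : P × P) (g : G), k • g = (k.1 : G) * g * (k.2 : G)⁻¹ := fun _ _ => rfl
  obtain ⟨d, hd0, hd1⟩ := frw F (P × P) G {g : G | g ∉ C}
    (by
      rintro ⟨p, p'⟩ g hg hg'
      apply hg
      rw [hact] at hg'
      have h1 := (Subgroup.mul_mem_cancel_right C (C.inv_mem (hPC p'.2))).1 hg'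
      exact (Subgroup.mul_mem_cancel_left C (hPC p.2)).1 h1)
    (by
      rintro ⟨p, p'⟩ g hg hfix
      rw [hact] at hfix
      have hg' : g ∉ NY y₁ := by rw [hNC]; exact hg
      have h1 := free hD.cyc hD.card hD.mem hD.ord hg' p.2 p'.2 hfix
      have h2 : (p' : G) = 1 := by
        change (p : G) * g * (p' : G)⁻¹ = g at hfix
        rw [h1, one_mul, mul_eq_left] at hfix
        exact inv_eq_one.1 hfix
      exact Prod.ext (Subtype.ext h1) (Subtype.ext h2))
  -- the sum of the kernel over `P`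
  obtain ⟨D', hD'⟩ : ∃ D' : G → F, D' = fun k => ∑ p : P, d ((p : G)⁻¹ * k) := ⟨_, rfl⟩
  have hD'0 : ∀ k ∈ C, D' k = 0 := by
    intro k hk
    rw [hD']
    refine Finset.sum_eq_zero fun p _ => hd0 _ ?_
    intro h
    exact h (C.mul_mem (C.inv_mem (hPC p.2)) hk)
  have hD'1 : ∀ k ∉ C, ∑ p : P, D' (k * p) = 1 := by
    intro k hk
    have h1 := hd1 k hk
    rw [finsum_eq_sum_of_fintype, Fintype.sum_prod_type] at h1
    rw [← h1, hD', Finset.sum_comm]
    refine Fintype.sum_equiv (Equiv.inv P) _ _ fun p => ?_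
    refine Fintype.sum_equiv (Equiv.inv P) _ _ fun p' => ?_
    rw [hact]
    change d ((p : G)⁻¹ * (k * p')) = d ((p : G)⁻¹ * k * ((p' : G)⁻¹)⁻¹)
    rw [inv_inv, mul_assoc]
  -- the sum over `C`
  have hsum : ∀ m t : G, ∑ g : C, D' (m * g) * z ((g : G)⁻¹ * t * g) =
      if m ∈ C then 0 else b₁ t := by
    intro m t
    split_ifs with hm
    · refine Finset.sum_eq_zero fun g _ => ?_
      rw [hD'0 _ (C.mul_mem hm g.2), zero_mul]
    · have hX : ∀ g ∈ Finset.univ.filter (fun g : G => g ∈ C), ∀ p ∈ P,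
          g * p ∈ Finset.univ.filter (fun g : G => g ∈ C) := by
        intro g hg p hp
        rw [Finset.mem_filter] at hg ⊢
        exact ⟨Finset.mem_univ _, C.mul_mem hg.2 (hPC hp)⟩
      have h1 := D1.H26.weights_eq (W := F) P (Finset.univ.filter (fun g : G => g ∈ C)) hX
        (fun g => D' (m * g)) c₁
        (by
          intro g hg
          have hg' : m * g ∉ C := by
            intro h
            rw [Finset.mem_filter] at hg
            exact hm ((Subgroup.mul_mem_cancel_right C hg.2).1 h)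
          rw [← hD'1 _ hg']
          refine Finset.sum_congr rfl fun p _ => ?_
          rw [mul_assoc])
        (by
          intro g hg
          rw [Finset.mem_filter] at hg
          have h2 := hc₁.sum g hg.2
          rwa [finsum_eq_sum_of_fintype] at h2)
        (fun g => z (g⁻¹ * t * g))
        (by
          intro g _ p hp
          rw [← hzP _ (P.inv_mem hp) (g⁻¹ * t * g)]
          congr 1
          group)
      rw [hbz, finsum_eq_sum_of_fintype]
      have h3 : ∑ g : G, c₁ g * z (g⁻¹ * t * g) =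
          ∑ g ∈ Finset.univ.filter (fun g : G => g ∈ C), c₁ g • z (g⁻¹ * t * g) := by
        rw [Finset.sum_filter]
        refine Finset.sum_congr rfl fun g _ => ?_
        split_ifs with hg
        · rfl
        · rw [hc₁.supp g hg, zero_mul]
      rw [h3, ← h1]
      rw [← Finset.sum_subtype (Finset.univ.filter (fun g : G => g ∈ C))
        (fun g => by simp) (fun g => D' (m * g) * z (g⁻¹ * t * g))]
      rfl
  -- the trace of the operator
  have hb₁i : mulF i b₁ = i := by rw [← cm_comm hU.cb hU.si, hU.bi]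
  have htr : ∀ x : G → F, mulF x i = x →
      ∑ p : P, lt F (p : G) (psi C d z (lt F (p : G)⁻¹ x)) = x - cut C x := by
    intro x hx
    have h0 : x - cut C x = mulF (x - cut C x) b₁ := by
      have h1 : mulF x b₁ = x := by rw [← hx, H20.mulF_assoc, hb₁i]
      rw [H20.sub_mulF, ← cut_mulF_right hU.sb, h1]
    rw [h0]
    funext h
    rw [Finset.sum_apply]
    change _ = ∑ᶠ t, (x - cut C x) t * b₁ (t⁻¹ * h)
    rw [finsum_eq_sum_of_fintype]
    have h2 : ∀ p : P, lt F (p : G) (psi C d z (lt F (p : G)⁻¹ x)) h =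
        ∑ m : G, x m * ∑ g : C, d ((p : G)⁻¹ * (m * g)) * z ((g : G)⁻¹ * (m⁻¹ * h) * g) := by
      intro p
      rw [lt_apply, psi_apply]
      refine Fintype.sum_equiv (Equiv.mulLeft (p : G)) _ _ fun m => ?_
      change lt F (p : G)⁻¹ x m * ker C d z m ((p : G)⁻¹ * h) = x (p * m) *
        ∑ g : C, d ((p : G)⁻¹ * (p * m * g)) * z ((g : G)⁻¹ * ((p * m : G)⁻¹ * h) * g)
      rw [lt_apply, inv_inv]
      unfold ker
      rw [finsum_eq_sum_of_fintype]
      congr 1
      refine Finset.sum_congr rfl fun g _ => ?_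
      congr 2 <;> group
    rw [Finset.sum_congr rfl fun p _ => h2 p, Finset.sum_comm]
    refine Finset.sum_congr rfl fun m _ => ?_
    rw [← Finset.mul_sum, Finset.sum_comm]
    have h3 : ∑ g : C, ∑ p : P, d ((p : G)⁻¹ * (m * g)) * z ((g : G)⁻¹ * (m⁻¹ * h) * g) =
        ∑ g : C, D' (m * g) * z ((g : G)⁻¹ * (m⁻¹ * h) * g) := by
      refine Finset.sum_congr rfl fun g _ => ?_
      rw [hD', Finset.sum_mul]
    rw [h3, hsum]
    split_ifs with hm
    · rw [Pi.sub_apply, cut_in _ hm, sub_self, zero_mul, mul_zero]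
    · rw [Pi.sub_apply, cut_out _ hm, sub_zero]
  -- the module
  obtain ⟨V, hV⟩ : ∃ V : Submodule F (G → F), ∀ v, v ∈ V ↔ mulF v i = v ∧ pwR w s v = 0 := by
    refine ⟨LinearMap.ker (mR i - 1) ⊓ LinearMap.ker ((mR w) ^ s), fun v => ?_⟩
    rw [Submodule.mem_inf, LinearMap.mem_ker, LinearMap.mem_ker, LinearMap.sub_apply, sub_eq_zero,
      ← pwR_eq]
    rfl
  have hstab : ∀ Ψ : (G → F) →ₗ[F] (G → F), (∀ c ∈ C, ∀ x, Ψ (rt F c x) = rt F c (Ψ x)) →
      ∀ v ∈ V, Ψ v ∈ V := by
    intro Ψ hΨ v hv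
    rw [hV] at hv ⊢
    refine ⟨by rw [← comm_mR Ψ hΨ hU.si, hv.1], ?_⟩
    have h1 : ∀ (k : ℕ) (v : G → F), pwR w k (Ψ v) = Ψ (pwR w k v) := by
      intro k
      induction k with
      | zero => intro v; rfl
      | succ k ih =>
        intro v
        change pwR w k (mulF (Ψ v) w) = Ψ (pwR w k (mulF v w))
        rw [← comm_mR Ψ hΨ hU.sw, ih]
    rw [h1, hv.2, map_zero]
  have hltV : ∀ g : G, ∀ v ∈ V, lt F g v ∈ V := by
    intro g
    apply hstab
    intro c _ v
    funext t
    rw [lt_apply, rt_apply, rt_apply, lt_apply, mul_assoc]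
  have hcutV : ∀ v ∈ V, cut C v ∈ V := hstab _ fun c hc v => cut_rt C hc v
  have hpsiV : ∀ v ∈ V, psi C d z v ∈ V := hstab _ fun c hc v => psi_rt C d z hc v
  have hxV : x ∈ V := (hV x).2 ⟨hxi, hxs⟩
  obtain ⟨h, hh⟩ : ∃ h : V →ₗ[F] V, ∀ v : V,
      ((h v : V) : G → F) = (v : G → F) - cut C (v : G → F) := by
    refine ⟨LinearMap.id - (cut C).restrict hcutV, fun v => rfl⟩
  have hρ : ∀ (a : G → F) (v : V), ((evV (sRep V hltV) a v : V) : G → F) = mulF a v :=
    evV_sRep V hltV
  have hbx : mulF b₁ x = x := by rw [← hix, ← H20.mulF_assoc, hU.bi]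
  have h1 := prt ℓ F hF G n ⊤ P y₁ b w hD V V (sRep V hltV) (sRep V hltV) h
    (by
      intro g hg v
      rw [hNC'] at hg
      apply Subtype.ext
      rw [hh, sRep_apply, sRep_apply, hh, cut_lt C hg, map_sub])
    (by
      refine ⟨(psi C d z).restrict hpsiV, ?_⟩
      apply LinearMap.ext
      intro v
      apply Subtype.ext
      rw [hh, ← htr v.1 ((hV _).1 v.2).1]
      unfold trP
      rw [finsum_eq_sum_of_fintype, LinearMap.sum_apply, AddSubmonoidClass.coe_finsetSum]
      rfl)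
    1 (by rw [← hq]; exact hq1) ⟨x, hxV⟩
    (by
      apply Subtype.ext
      rw [hρ, ← hb₁, hbx])
    (by
      rw [pow_one]
      apply Subtype.ext
      rw [hρ, hwx]
      rfl)
  rw [← hq] at h1
  obtain ⟨x', hx'⟩ := h1
  have hx'2 : pwF w (q - 1) x' = x - cut C x := by
    have h2 := congrArg Subtype.val hx'
    rw [evV_sRep_pow, hh] at h2
    exact h2
  -- the part on `C`
  obtain ⟨α, hα⟩ := hU.loc (cut C x) (cut_sp C x)
  rw [← cut_mulF_right hU.si, ← cut_mulF_left hU.si, hxi, hix] at hα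
  have hwq : ((mL w) ^ q) i = 0 := by
    have h2 : ∀ k : ℕ, pwF w k i = mulF (pwF w k b₁) i := by
      intro k
      rw [pwF_eq, pwF_eq]
      induction k with
      | zero =>
        rw [pow_zero]
        exact hU.bi.symm
      | succ k ih =>
        rw [pow_succ', Module.End.mul_apply, Module.End.mul_apply, ih, mL_apply, mL_apply,
          H20.mulF_assoc]
    rw [← pwF_eq, h2, hU.nil, H20.zero_mulF]
  have hli := nil_li (mL w) i q hwq (by rw [← pwF_eq]; exact hU.nz) α (by
    have h2 : mulF w (cut C x) = 0 := by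
      rw [← cut_mulF_left hU.sw, hwx, map_zero]
    rw [hα] at h2
    change mL w _ = 0 at h2
    rw [map_sum] at h2
    rw [← h2]
    refine Finset.sum_congr rfl fun s _ => ?_
    rw [map_smul, pwF_eq, ← Module.End.mul_apply, ← Module.End.mul_apply, ← pow_succ, ← pow_succ'])
  have hcx : cut C x = α (q - 1) • pwF w (q - 1) i := by
    rw [hα, Finset.sum_eq_single (q - 1)]
    · intro t ht htq
      rw [Finset.mem_range] at ht
      rw [hli t (by omega), zero_smul]
    · intro h2
      exact absurd (Finset.mem_range.2 (by omega)) h2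
  refine ⟨α (q - 1), x', ?_, ((hV _).1 x'.2).1, ((hV _).1 x'.2).2, ?_⟩
  · rw [hx'2, ← hcx, add_sub_cancel]
  · intro t ht
    rw [← cut_in x ht, hcx]
    rfl

end Pool.Agent.PP.CD2.H98
end
end -- Pool.Agent.Helper98_D2.Xbm
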