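import Pool.Agent.Helper12_AWB.B160
import Pool.Agent.Helper75_PP.Conj

/-!
# Merged copies (generated) of the modules

* `Pool.Agent.Helper20_D2.Tool`
* `Pool.Agent.Helper20_D2.Sep`
* `Pool.Agent.Helper11_D1.Und`
* `Pool.Agent.Helper17_D2.Und`
* `Pool.Agent.Helper66_D2.Und`
-/

set_option autoImplicit false

section -- Pool.Agent.Helper20_D2.Tool

/-!
# Part D2: the action of the group ring on a representation, elements supported on a subgroup
-/

open scoped BigOperators

set_option linter.unusedSectionVars false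

noncomputable section

namespace Pool.Agent.PP.CD2.H20

open Pool.Agent.Helper51_AWC Pool.Agent.Helper79_WRA Pool.Agent.PP

variable {F : Type} [Field F] {G : Type} [Group G] [Finite G] {V V' : Type} [AddCommGroup V]
  [Module F V] [AddCommGroup V'] [Module F V']

/-- the action as the algebra homomorphism -/
theorem evV_eq (ρ : Representation F G V) (a : G → F) : evV ρ a = ρ.asAlgebraHom (ma a) := by
  have := Fintype.ofFinite G
  have h : ma a = ∑ t : G, MonoidAlgebra.single t (a t) := by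
    rw [ma_eq_sum, finsum_eq_sum_of_fintype]
  rw [h, map_sum]
  unfold evV
  rw [finsum_eq_sum_of_fintype]
  refine Finset.sum_congr rfl fun g _ => ?_
  rw [Representation.asAlgebraHom_single]

theorem evV_mulF (ρ : Representation F G V) (a b : G → F) :
    evV ρ (mulF a b) = evV ρ a * evV ρ b := by
  rw [evV_eq, evV_eq, evV_eq, ma_mul, map_mul]

theorem evV_mulF_apply (ρ : Representation F G V) (a b : G → F) (v : V) :
    evV ρ (mulF a b) v = evV ρ a (evV ρ b v) := by
  rw [evV_mulF, Module.End.mul_apply]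

theorem evV_dl (ρ : Representation F G V) (g : G) : evV ρ (dl F g) = ρ g := by
  rw [evV_eq, ma_dl, Representation.asAlgebraHom_single, one_smul]

theorem evV_sum {ι : Type*} (ρ : Representation F G V) (s : Finset ι) (a : ι → G → F) :
    evV ρ (∑ k ∈ s, a k) = ∑ k ∈ s, evV ρ (a k) := by
  rw [evV_eq, ma_sum, map_sum]
  exact Finset.sum_congr rfl fun k _ => (evV_eq ρ (a k)).symm

theorem evV_smul (ρ : Representation F G V) (c : F) (a : G → F) :
    evV ρ (c • a) = c • evV ρ a := by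
  rw [evV_eq, ma_smul, map_smul, evV_eq]

theorem evV_zero (ρ : Representation F G V) : evV ρ (0 : G → F) = 0 := by
  rw [evV_eq, ma_zero, map_zero]

theorem evV_pwF (ρ : Representation F G V) (w a : G → F) (s : ℕ) :
    evV ρ (pwF w s a) = evV ρ w ^ s * evV ρ a := by
  unfold pwF
  rw [evV_eq, ma_iterate, map_mul, map_pow, evV_eq, evV_eq]

theorem ma_pwF (w a : G → F) (s : ℕ) : ma (pwF w s a) = ma w ^ s * ma a := ma_iterate w a s

theorem ma_pwR (w a : G → F) (s : ℕ) : ma (pwR w s a) = ma a * ma w ^ s := by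
  induction s with
  | zero => rw [pow_zero, mul_one]; rfl
  | succ s ih =>
    have h : pwR w (s + 1) a = mulF (pwR w s a) w := Function.iterate_succ_apply' _ _ _
    rw [h, ma_mul, ih, mul_assoc, pow_succ]

theorem spF_mulF {C : Subgroup G} {a b : G → F} (ha : SpF C a) (hb : SpF C b) :
    SpF C (mulF a b) := H75.mulF_supp C ha hb

theorem spF_sum {ι : Type*} {C : Subgroup G} (s : Finset ι) {a : ι → G → F}
    (ha : ∀ k ∈ s, SpF C (a k)) : SpF C (∑ k ∈ s, a k) := by
  intro x hx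
  rw [Finset.sum_apply]
  exact Finset.sum_eq_zero fun k hk => ha k hk x hx

theorem spF_dl {C : Subgroup G} {c : G} (hc : c ∈ C) : SpF C (dl F c) := by
  intro x hx
  have h : x ≠ c := fun h => hx (h ▸ hc)
  simp [dl, h]

/-- an element commuting with `C` commutes with the elements supported on `C` -/
theorem cmF_comm {C : Subgroup G} {a c : G → F} (ha : SpF C a) (hc : CmF C c) :
    ma a * ma c = ma c * ma a := by
  rw [← ma_mul, ← ma_mul]
  refine congrArg ma (H75.mulF_comm_of (K := C) ha ?_)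
  intro k hk
  rw [H75.cj_eq_iff]
  exact fun x => hc k hk x

end Pool.Agent.PP.CD2.H20
end
end -- Pool.Agent.Helper20_D2.Tool

section -- Pool.Agent.Helper20_D2.Sep

/-!
# Part D2, module SEP
-/

open scoped BigOperators

set_option linter.unusedSectionVars false

noncomputable section

namespace Pool.Agent.PP.CD2.H20

open Pool.Agent.Helper51_AWC Pool.Agent.Helper79_WRA Pool.Agent.PP

variable {F : Type} [Field F] {G : Type} [Group G] [Finite G] {V V' : Type} [AddCommGroup V]
  [Module F V] [AddCommGroup V'] [Module F V']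

/-- the action of the algebra -/
abbrev aV (ρ : Representation F G V) : MonoidAlgebra F G →ₐ[F] Module.End F V := ρ.asAlgebraHom

theorem aV_mem {C : Subgroup G} {ρ : Representation F G V} {T : Submodule F V} (hT : Stb C ρ T)
    {a : G → F} (ha : SpF C a) {v : V} (hv : v ∈ T) : aV ρ (ma a) v ∈ T := by
  have h := D66.evV_mem hT ha hv
  rwa [evV_eq] at h

/-- polynomials in `w` commute with `g` -/
theorem poly_comm {C : Subgroup G} {w : G → F} (hw : SpF C w) {ρ : Representation F G V}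
    {ρ' : Representation F G V'} {T : Submodule F V} (hT : Stb C ρ T) {g : V →ₗ[F] V'}
    (hg : ∀ v ∈ T, g (aV ρ (ma w) v) = aV ρ' (ma w) (g v)) (q : ℕ) (α : ℕ → F) {v : V}
    (hv : v ∈ T) :
    g (aV ρ (∑ s ∈ Finset.range q, α s • ma w ^ s) v) =
      aV ρ' (∑ s ∈ Finset.range q, α s • ma w ^ s) (g v) := by
  have hp : ∀ s : ℕ, ∀ v ∈ T, aV ρ (ma w ^ s) v ∈ T ∧
      g (aV ρ (ma w ^ s) v) = aV ρ' (ma w ^ s) (g v) := by
    intro s
    induction s with
    | zero =>
      intro v hv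
      rw [pow_zero, map_one, map_one]
      exact ⟨hv, rfl⟩
    | succ s ih =>
      intro v hv
      have h1 := ih v hv
      have h2 : ∀ (W : Type) [AddCommGroup W] [Module F W] (τ : Representation F G W) (u : W),
          aV τ (ma w ^ (s + 1)) u = aV τ (ma w) (aV τ (ma w ^ s) u) := by
        intro W _ _ τ u
        rw [pow_succ', map_mul, Module.End.mul_apply]
      rw [h2, h2]
      refine ⟨aV_mem hT hw h1.1, ?_⟩
      rw [hg _ h1.1, h1.2]
  rw [map_sum, map_sum, LinearMap.sum_apply, LinearMap.sum_apply, map_sum]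
  refine Finset.sum_congr rfl fun s _ => ?_
  rw [map_smul, map_smul, LinearMap.smul_apply, LinearMap.smul_apply, map_smul, (hp s v hv).2]

/-- one algebra -/
theorem sep_one {C : Subgroup G} {e w i : G → F} {q : ℕ} (hw : SpF C w) (hcw : CmF C w)
    (h : UMF C e (mulF e w) i q) {m : ℕ} {x y : Fin m → G → F}
    (hxy : ∀ k, SpF C (x k) ∧ SpF C (y k)) (hs : ∑ k, mulF (x k) (mulF i (y k)) = e)
    {ρ : Representation F G V} {ρ' : Representation F G V'} {T : Submodule F V}
    (hT : Stb C ρ T) {g : V →ₗ[F] V'}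
    (hg : ∀ v ∈ T, g (evV ρ w v) = evV ρ' w (g v)) {a : G → F} (ha : SpF C a) {v : V}
    (hv : v ∈ T) :
    ∑ k, evV ρ' (mulF (mulF e (x k)) i) (g (evV ρ (mulF i (mulF (y k) e)) (evV ρ a v))) =
      evV ρ' a (∑ k, evV ρ' (mulF (mulF e (x k)) i) (g (evV ρ (mulF i (mulF (y k) e)) v))) := by
  have hg' : ∀ v ∈ T, g (aV ρ (ma w) v) = aV ρ' (ma w) (g v) := by
    intro v hv
    have := hg v hv
    rwa [evV_eq, evV_eq] at this
  obtain ⟨A, hA⟩ : ∃ A, A = ma a := ⟨_, rfl⟩
  obtain ⟨E, hE⟩ : ∃ E, E = ma e := ⟨_, rfl⟩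
  obtain ⟨W, hW⟩ : ∃ W, W = ma w := ⟨_, rfl⟩
  obtain ⟨I, hI⟩ : ∃ I, I = ma i := ⟨_, rfl⟩
  obtain ⟨X, hX⟩ : ∃ X : Fin m → MonoidAlgebra F G, X = fun k => ma (x k) := ⟨_, rfl⟩
  obtain ⟨Y, hY⟩ : ∃ Y : Fin m → MonoidAlgebra F G, Y = fun k => ma (y k) := ⟨_, rfl⟩
  have hEc : ∀ c : G → F, SpF C c → E * ma c = ma c * E := by
    intro c hc
    rw [hE]
    exact (cmF_comm hc h.cb).symm
  have hWc : ∀ c : G → F, SpF C c → W * ma c = ma c * W := by
    intro c hc
    rw [hW]
    exact (cmF_comm hc hcw).symm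
  have hEE : E * E = E := by rw [hE, ← ma_mul, h.bb]
  have hII : I * I = I := by rw [hI, ← ma_mul, h.ii]
  have hEI : E * I = I := by rw [hE, hI, ← ma_mul, h.bi]
  have hsum : ∑ k, X k * (I * Y k) = E := by
    rw [hE, ← hs, ma_sum]
    refine Finset.sum_congr rfl fun k _ => ?_
    rw [hX, hY, hI, ma_mul, ma_mul]
  have hWI : W * I = I * W := by rw [hI]; exact hWc i h.si
  have hEWI : ∀ s : ℕ, (E * W) ^ s * I = W ^ s * I := by
    intro s
    induction s with
    | zero => rw [pow_zero, pow_zero]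
    | succ s ih =>
      rw [pow_succ, pow_succ, mul_assoc, mul_assoc (W ^ s), mul_assoc E, hWI, ← mul_assoc E, hEI,
        ← mul_assoc, ih, mul_assoc]
  have hYE : ∀ l, Y l * E = E * Y l := by
    intro l
    rw [hY]
    exact (hEc _ (hxy l).2).symm
  have hAE : A * E = E * A := by
    rw [hA]
    exact (hEc _ ha).symm
  have hloc : ∀ l k, ∃ α : ℕ → F, I * (Y l * (A * (E * X k)) * I) =
      (∑ s ∈ Finset.range q, α s • W ^ s) * I := by
    intro l k
    obtain ⟨α, hα⟩ := h.loc (mulF (y l) (mulF a (mulF e (x k))))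
      (spF_mulF (hxy l).2 (spF_mulF ha (spF_mulF h.sb (hxy k).1)))
    refine ⟨α, ?_⟩
    have h1 := congrArg ma hα
    rw [ma_mul, ma_mul, ma_mul, ma_mul, ma_mul, ma_sum] at h1
    rw [hI, hY, hA, hE, hX, h1, Finset.sum_mul]
    refine Finset.sum_congr rfl fun s _ => ?_
    rw [ma_smul, ma_pwF, ma_mul, smul_mul_assoc, ← hE, ← hW, ← hI, hEWI]
  choose α hα using hloc
  obtain ⟨P, hP⟩ : ∃ P : Fin m → Fin m → MonoidAlgebra F G,
      P = fun l k => ∑ s ∈ Finset.range q, α l k s • W ^ s := ⟨_, rfl⟩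
  have hPI : ∀ l k, P l k * I = I * P l k := by
    intro l k
    rw [hP]
    have h1 : ∀ s : ℕ, Commute (W ^ s) I := fun s => Commute.pow_left hWI s
    have h2 : Commute (∑ s ∈ Finset.range q, α l k s • W ^ s) I :=
      Commute.sum_left _ _ _ fun s _ => (h1 s).smul_left _
    exact h2
  have hα' : ∀ l k, I * (Y l * (A * (E * X k)) * I) = P l k * I := by
    intro l k
    rw [hα l k, hP]
  have hR : ∀ k, A * (E * X k * I) = ∑ l, (E * X l * I) * P l k := by
    intro k
    have h9 : E * E * A * E = A * E := by rw [hEE, ← hAE, mul_assoc, hEE]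
    calc A * (E * X k * I) = (A * E) * (X k * I) := by simp only [mul_assoc]
      _ = (E * E * A * E) * (X k * I) := by rw [h9]
      _ = E * E * (A * (E * X k) * I) := by simp only [mul_assoc]
      _ = E * (∑ l, X l * (I * Y l)) * (A * (E * X k) * I) := by rw [hsum]
      _ = ∑ l, (E * X l * I) * P l k := by
          rw [Finset.mul_sum, Finset.sum_mul]
          refine Finset.sum_congr rfl fun l _ => ?_
          have h1 : (E * X l * I) * P l k = E * X l * (I * (Y l * (A * (E * X k)) * I)) := by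
            rw [hα', hPI, ← mul_assoc, mul_assoc (E * X l) I (P l k)]
          rw [h1]
          simp only [mul_assoc]
  have hL : ∀ l, (I * (Y l * E)) * A = ∑ k, P l k * (I * (Y k * E)) := by
    intro l
    have h1 : ∀ k, P l k * (I * (Y k * E)) = I * Y l * A * E * (X k * (I * Y k)) * E := by
      intro k
      rw [← mul_assoc, ← hα']
      simp only [mul_assoc]
    rw [Finset.sum_congr rfl fun k _ => h1 k, ← Finset.sum_mul, ← Finset.mul_sum, hsum]
    rw [mul_assoc (I * Y l * A * E), hEE, mul_assoc (I * Y l * A), hEE, mul_assoc (I * Y l), hAE]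
    simp only [mul_assoc]
  have e1 : ∀ (W' : Type) [AddCommGroup W'] [Module F W'] (τ : Representation F G W') (k : Fin m),
      evV τ (mulF (mulF e (x k)) i) = aV τ (E * X k * I) := by
    intro W' _ _ τ k
    rw [evV_eq, ma_mul, ma_mul, hE, hX, hI]
  have e2 : ∀ (W' : Type) [AddCommGroup W'] [Module F W'] (τ : Representation F G W') (k : Fin m),
      evV τ (mulF i (mulF (y k) e)) = aV τ (I * (Y k * E)) := by
    intro W' _ _ τ k
    rw [evV_eq, ma_mul, ma_mul, hE, hY, hI]
  have e3 : ∀ (W' : Type) [AddCommGroup W'] [Module F W'] (τ : Representation F G W'),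
      evV τ a = aV τ A := by
    intro W' _ _ τ
    rw [evV_eq, hA]
  have hmem : ∀ k, aV ρ (I * (Y k * E)) v ∈ T := by
    intro k
    rw [← e2]
    exact D66.evV_mem hT (spF_mulF h.si (spF_mulF (hxy k).2 h.sb)) hv
  have l1 : ∀ l, g (aV ρ (I * (Y l * E)) (aV ρ A v)) =
      ∑ k, aV ρ' (P l k) (g (aV ρ (I * (Y k * E)) v)) := by
    intro l
    rw [← Module.End.mul_apply, ← map_mul, hL, map_sum, LinearMap.sum_apply, map_sum]
    refine Finset.sum_congr rfl fun k _ => ?_
    rw [map_mul, Module.End.mul_apply, hP, hW]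
    exact poly_comm hw hT hg' q (α l k) (hmem k)
  rw [Finset.sum_congr rfl fun k _ => by rw [e1, e2, e3, l1, map_sum]]
  rw [Finset.sum_comm, map_sum]
  refine Finset.sum_congr rfl fun k _ => ?_
  rw [e1, e2, e3, ← Module.End.mul_apply, ← map_mul, hR, map_sum, LinearMap.sum_apply]
  refine Finset.sum_congr rfl fun l _ => ?_
  rw [map_mul (aV ρ') (E * X l * I) (P l k), Module.End.mul_apply]

/-- SEP -/
theorem sep : SepStmt := by
  intro F _ G _ _ C b w q hU
  obtain ⟨m, e, i, hUM, hort, hsum, hbw⟩ := hU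
  have hw : SpF C w := by
    rw [← hbw, ← hsum]
    intro x hx
    have h1 : mulF (∑ t, e t) w = ∑ t, mulF (e t) w := by
      apply ma_injective
      rw [ma_mul, ma_sum, ma_sum, Finset.sum_mul]
      exact Finset.sum_congr rfl fun t _ => (ma_mul _ _).symm
    rw [h1]
    exact spF_sum _ (fun t _ => (hUM t).sw) x hx
  have hcw : CmF C w := by
    intro c hc x
    rw [← hbw, ← hsum]
    have h1 : mulF (∑ t, e t) w = ∑ t, mulF (e t) w := by
      apply ma_injective
      rw [ma_mul, ma_sum, ma_sum, Finset.sum_mul]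
      exact Finset.sum_congr rfl fun t _ => (ma_mul _ _).symm
    rw [h1, Finset.sum_apply, Finset.sum_apply]
    exact Finset.sum_congr rfl fun t _ => (hUM t).cw c hc x
  choose n x y hxy hs using fun t => (hUM t).full
  let eq : (Σ t : Fin m, Fin (n t)) ≃ Fin (Fintype.card (Σ t : Fin m, Fin (n t))) :=
    Fintype.equivFin _
  obtain ⟨X, hX⟩ : ∃ X : (Σ t : Fin m, Fin (n t)) → G → F,
      X = fun k => mulF (mulF (e k.1) (x k.1 k.2)) (i k.1) := ⟨_, rfl⟩
  obtain ⟨Y, hY⟩ : ∃ Y : (Σ t : Fin m, Fin (n t)) → G → F,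
      Y = fun k => mulF (i k.1) (mulF (y k.1 k.2) (e k.1)) := ⟨_, rfl⟩
  refine ⟨Fintype.card (Σ t : Fin m, Fin (n t)), fun k => X (eq.symm k), fun k => Y (eq.symm k),
    ?_, ?_, ?_⟩
  · intro k
    rw [hX, hY]
    exact ⟨spF_mulF (spF_mulF (hUM _).sb (hxy _ _).1) (hUM _).si,
      spF_mulF (hUM _).si (spF_mulF (hxy _ _).2 (hUM _).sb)⟩
  · rw [Fintype.sum_equiv eq.symm _ (fun k => mulF (X k) (Y k)) (fun _ => rfl), Fintype.sum_sigma,
      ← hsum]
    refine Finset.sum_congr rfl fun t _ => ?_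
    apply ma_injective
    have h1 := congrArg ma (hs t)
    rw [ma_sum] at h1
    rw [ma_sum]
    have h2 : ∀ k : Fin (n t), ma (mulF (X ⟨t, k⟩) (Y ⟨t, k⟩)) =
        ma (e t) * ma (mulF (x t k) (mulF (i t) (y t k))) * ma (e t) := by
      intro k
      have hii : ma (i t) * ma (i t) = ma (i t) := by rw [← ma_mul, (hUM t).ii]
      rw [hX, hY]
      simp only [ma_mul]
      calc ma (e t) * ma (x t k) * ma (i t) * (ma (i t) * (ma (y t k) * ma (e t))) =
          ma (e t) * (ma (x t k) * ((ma (i t) * ma (i t)) * ma (y t k))) * ma (e t) := by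
            simp only [mul_assoc]
        _ = _ := by rw [hii]
    rw [Finset.sum_congr rfl fun k _ => h2 k, ← Finset.sum_mul, ← Finset.mul_sum, h1, ← ma_mul,
      ← ma_mul, (hUM t).bb, (hUM t).bb]
  · intro V V' _ _ _ _ ρ ρ' T hT g hg c hc v hv
    rw [LinearMap.sum_apply, LinearMap.sum_apply]
    have h0 : ∀ u : V, (∑ k, (evV ρ' (X (eq.symm k)) ∘ₗ g ∘ₗ evV ρ (Y (eq.symm k))) u) =
        ∑ t : Fin m, ∑ k : Fin (n t), evV ρ' (X ⟨t, k⟩) (g (evV ρ (Y ⟨t, k⟩) u)) := by
      intro u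
      have h9 := Fintype.sum_equiv eq.symm
        (fun k => evV ρ' (X (eq.symm k)) (g (evV ρ (Y (eq.symm k)) u)))
        (fun k => evV ρ' (X k) (g (evV ρ (Y k) u))) (fun _ => rfl)
      refine Eq.trans h9 ?_
      rw [Fintype.sum_sigma]
    rw [h0, h0, map_sum]
    refine Finset.sum_congr rfl fun t _ => ?_
    have h1 := sep_one hw hcw (hUM t) (hxy t) (hs t) hT hg (spF_dl hc) hv
    rw [evV_dl, evV_dl] at h1
    rw [hX, hY]
    exact h1

end Pool.Agent.PP.CD2.H20
end
end -- Pool.Agent.Helper20_D2.Sep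

section -- Pool.Agent.Helper11_D1.Und

/-! UND and CCD of part D1. -/

set_option autoImplicit false

open scoped BigOperators

noncomputable section

namespace Pool.Agent.PP.D1H11

open Pool.Agent.Helper51_AWC Pool.Agent.Helper79_WRA Pool.Agent.PP

theorem mrep_apply {F : Type} [Field F] {G : Type} [Group G] {n : ℕ}
    (σ : G →* Matrix (Fin n) (Fin n) F) (g : G) (v : Fin n → F) :
    mrep σ g v = (σ g).mulVec v := by
  show Matrix.toLinAlgEquiv' (σ g) v = _
  rw [Matrix.toLinAlgEquiv'_apply]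

/-- the trace is determined by an equivalence on the quotients -/
theorem tr_eq {F : Type} [Field F] {A : Type} [Group A] {m m' : ℕ}
    (κ : A →* Matrix (Fin m) (Fin m) F) (κ' : A →* Matrix (Fin m') (Fin m') F)
    (u : (Fin m → F) ≃ₗ[F] (Fin m' → F))
    (hu : ∀ t w, u ((κ t).mulVec w) = (κ' t).mulVec (u w)) : tr κ = tr κ' := by
  funext t
  have h1 : u.conj (Matrix.toLin' (κ t)) = Matrix.toLin' (κ' t) := by
    apply LinearMap.ext
    intro w
    rw [LinearEquiv.conj_apply_apply, Matrix.toLin'_apply, hu, LinearEquiv.apply_symm_apply,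
      Matrix.toLin'_apply]
  have h2 : LinearMap.trace F _ (u.conj (Matrix.toLin' (κ t))) =
      LinearMap.trace F _ (Matrix.toLin' (κ t)) := LinearMap.trace_conj' _ u
  rw [h1] at h2
  show (κ t).trace = (κ' t).trace
  rw [← Matrix.trace_toLin'_eq, ← Matrix.trace_toLin'_eq]
  exact h2.symm

theorem fix_stable {F : Type} [Field F] {G : Type} [Group G] {V : Type} [AddCommGroup V]
    [Module F V] (ρ : Representation F G V) (P : Subgroup G) {g : G}
    (hg : g ∈ Subgroup.normalizer (P : Set G)) {v : V} (hv : v ∈ fixV ρ P) : ρ g v ∈ fixV ρ P := by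
  intro p hp
  have h1 : g⁻¹ * p * g ∈ P := by
    have := (Subgroup.mem_normalizer_iff.1 (inv_mem hg)) p
    rw [inv_inv] at this
    exact this.1 hp
  have h2 : ρ (g⁻¹ * p * g) v = v := hv _ h1
  have h3 : ρ p (ρ g v) = ρ g (ρ (g⁻¹ * p * g) v) := by
    rw [← Module.End.mul_apply, ← Module.End.mul_apply, ← map_mul, ← map_mul]
    congr 2
    group
  rw [h3, h2]

/-- two representations on `V^P / (∑ P) V` are equivalent -/
theorem hv_unique {F : Type} [Field F] {G : Type} [Group G] {V : Type} [AddCommGroup V]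
    [Module F V] (ρ : Representation F G V) (P : Subgroup G) {A : Type} [Group A] (j : A →* G)
    (hj : j.range = Subgroup.normalizer (P : Set G)) {m m' : ℕ}
    (κ : A →* Matrix (Fin m) (Fin m) F) (κ' : A →* Matrix (Fin m') (Fin m') F)
    (π : V →ₗ[F] (Fin m → F)) (π' : V →ₗ[F] (Fin m' → F)) (h : HV j P κ ρ π)
    (h' : HV j P κ' ρ π') : tr κ = tr κ' := by
  let a : fixV ρ P →ₗ[F] (Fin m → F) := π ∘ₗ (fixV ρ P).subtype
  let a' : fixV ρ P →ₗ[F] (Fin m' → F) := π' ∘ₗ (fixV ρ P).subtype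
  have ha : LinearMap.range a = ⊤ := by
    rw [LinearMap.range_eq_top]
    intro w
    obtain ⟨v, hv, hw⟩ := h.sur w
    exact ⟨⟨v, hv⟩, hw⟩
  have ha' : LinearMap.range a' = ⊤ := by
    rw [LinearMap.range_eq_top]
    intro w
    obtain ⟨v, hv, hw⟩ := h'.sur w
    exact ⟨⟨v, hv⟩, hw⟩
  have hk : LinearMap.ker a = LinearMap.ker a' := by
    ext v
    rw [LinearMap.mem_ker, LinearMap.mem_ker]
    exact (h.ker v.1 v.2).trans (h'.ker v.1 v.2).symm
  let u1 := a.quotKerEquivOfSurjective (LinearMap.range_eq_top.1 ha)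
  let u2 := a'.quotKerEquivOfSurjective (LinearMap.range_eq_top.1 ha')
  let u : (Fin m → F) ≃ₗ[F] (Fin m' → F) :=
    u1.symm.trans ((Submodule.quotEquivOfEq _ _ hk).trans u2)
  have hu : ∀ v : fixV ρ P, u (a v) = a' v := by
    intro v
    show u2 (Submodule.quotEquivOfEq _ _ hk (u1.symm (a v))) = _
    have h1 : u1.symm (a v) = Submodule.Quotient.mk v := by
      rw [LinearEquiv.symm_apply_eq]
      rfl
    rw [h1]
    rfl
  refine tr_eq κ κ' u fun t w => ?_
  obtain ⟨v, hv, rfl⟩ := h.sur w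
  have hjt : j t ∈ Subgroup.normalizer (P : Set G) := by
    rw [← hj]
    exact ⟨t, rfl⟩
  have h1 := h.int t v hv
  have h2 := h'.int t v hv
  have h3 := hu ⟨v, hv⟩
  have h4 := hu ⟨ρ (j t) v, fix_stable ρ P hjt hv⟩
  rw [← h1]
  calc u (π (ρ (j t) v)) = u (a ⟨ρ (j t) v, fix_stable ρ P hjt hv⟩) := rfl
    _ = a' ⟨ρ (j t) v, fix_stable ρ P hjt hv⟩ := h4
    _ = (κ' t).mulVec (a' ⟨v, hv⟩) := h2
    _ = (κ' t).mulVec (u (a ⟨v, hv⟩)) := by rw [h3]

/-- transport along an isomorphism of representations -/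
theorem hv_transport {F : Type} [Field F] {G : Type} [Group G] {V V' : Type} [AddCommGroup V]
    [Module F V] [AddCommGroup V'] [Module F V'] (ρ : Representation F G V)
    (ρ' : Representation F G V') [Finite G] (T : V ≃ₗ[F] V') (hT : ∀ g v, T (ρ g v) = ρ' g (T v))
    (P : Subgroup G) {A : Type} [Group A] (j : A →* G) {m : ℕ}
    (κ : A →* Matrix (Fin m) (Fin m) F) (π : V' →ₗ[F] (Fin m → F)) (h : HV j P κ ρ' π) :
    HV j P κ ρ (π ∘ₗ T.toLinearMap) := by
  have hT' : ∀ g v, T.symm (ρ' g v) = ρ g (T.symm v) := fun g v => by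
    rw [LinearEquiv.symm_apply_eq, hT, LinearEquiv.apply_symm_apply]
  have hfix : ∀ v, v ∈ fixV ρ P ↔ T v ∈ fixV ρ' P := by
    intro v
    constructor
    · intro hv p hp
      rw [← hT, hv p hp]
    · intro hv p hp
      have := hv p hp
      rw [← hT] at this
      exact T.injective this
  have hnrm : ∀ v, T ((∑ᶠ p : P, ρ p) v) = (∑ᶠ p : P, ρ' p) (T v) := by
    intro v
    classical
    haveI := Fintype.ofFinite P
    rw [finsum_eq_sum_of_fintype, finsum_eq_sum_of_fintype, LinearMap.sum_apply,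
      LinearMap.sum_apply, map_sum]
    exact Finset.sum_congr rfl fun p _ => hT p v
  have hn : ∀ v, v ∈ nrmV ρ P ↔ T v ∈ nrmV ρ' P := by
    intro v
    constructor
    · rintro ⟨w, rfl⟩
      exact ⟨T w, (hnrm w).symm⟩
    · rintro ⟨w, hw⟩
      refine ⟨T.symm w, ?_⟩
      apply T.injective
      rw [hnrm, LinearEquiv.apply_symm_apply]
      exact hw
  refine ⟨fun x v hv => ?_, fun v hv => ?_, fun w => ?_⟩
  · show π (T (ρ (j x) v)) = _
    rw [hT]
    exact h.int x (T v) ((hfix v).1 hv)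
  · rw [hn v]
    exact h.ker (T v) ((hfix v).1 hv)
  · obtain ⟨v, hv, rfl⟩ := h.sur w
    refine ⟨T.symm v, ?_, ?_⟩
    · rw [hfix, LinearEquiv.apply_symm_apply]
      exact hv
    · show π (T (T.symm v)) = _
      rw [LinearEquiv.apply_symm_apply]

/-- UND -/
theorem und (hibc : IbcStmt) : UndStmt := by
  intro ℓ F _ hF G _ _ P A _ _ j hj n n' σ σ' hσ hσ' htr m m' κ κ' π π' _ _ h h'
  obtain ⟨X, Y, -, hXY, hYX, hint⟩ := hibc ℓ F hF G n n' σ σ' hσ hσ' htr
  let T : (Fin n → F) ≃ₗ[F] (Fin n' → F) :=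
    { toFun := fun v => X.mulVec v
      map_add' := fun v w => Matrix.mulVec_add X v w
      map_smul' := fun c v => Matrix.mulVec_smul X c v
      invFun := fun v => Y.mulVec v
      left_inv := fun v => by
        show Y.mulVec (X.mulVec v) = v
        rw [Matrix.mulVec_mulVec, hYX, Matrix.one_mulVec]
      right_inv := fun v => by
        show X.mulVec (Y.mulVec v) = v
        rw [Matrix.mulVec_mulVec, hXY, Matrix.one_mulVec] }
  have hT : ∀ g v, T (mrep σ g v) = mrep σ' g (T v) := by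
    intro g v
    rw [mrep_apply, mrep_apply]
    show X.mulVec ((σ g).mulVec v) = (σ' g).mulVec (X.mulVec v)
    rw [Matrix.mulVec_mulVec, Matrix.mulVec_mulVec, hint]
  exact hv_unique (mrep σ) P j hj κ κ' π (π' ∘ₗ T.toLinearMap) h
    (hv_transport (mrep σ) (mrep σ') T hT P j κ' π' h')

/-- CCD -/
theorem ccd (hced : CedStmt) (hchd : ChdStmt) : CcdStmt := by
  intro ℓ _ F _ hF G _ _ N P b hb hU e he heb
  rw [hchd ℓ F hF G N P b hb hU e he heb, hced ℓ F hF G N P b hb e he heb, sub_self]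

end Pool.Agent.PP.D1H11
end
end -- Pool.Agent.Helper11_D1.Und

section -- Pool.Agent.Helper17_D2.Und

/-!
# Part D2, module UND: `V` determines `fix / nrm`
-/

open scoped BigOperators

noncomputable section

namespace Pool.Agent.PP.CD2.H17

open Pool.Agent.PP Pool.Agent.Helper51_AWC Pool.Agent.Helper79_WRA

/-- two representations on `fx / nm` are equivalent -/
theorem hw_unique {F : Type} [Field F] {G : Type} [Group G] {V : Type} [AddCommGroup V]
    [Module F V] (ρ : Representation F G V) {A : Type} [Group A] (j : A →* G)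
    (fx nm : Submodule F V) (hst : ∀ t, ∀ v ∈ fx, ρ (j t) v ∈ fx) {m m' : ℕ}
    (κ : A →* Matrix (Fin m) (Fin m) F) (κ' : A →* Matrix (Fin m') (Fin m') F)
    (π : V →ₗ[F] (Fin m → F)) (π' : V →ₗ[F] (Fin m' → F)) (h : HW j κ ρ π fx nm)
    (h' : HW j κ' ρ π' fx nm) : tr κ = tr κ' := by
  let a : fx →ₗ[F] (Fin m → F) := π ∘ₗ fx.subtype
  let a' : fx →ₗ[F] (Fin m' → F) := π' ∘ₗ fx.subtype
  have ha : LinearMap.range a = ⊤ := by
    rw [LinearMap.range_eq_top]
    intro w
    obtain ⟨v, hv, hw⟩ := h.sur w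
    exact ⟨⟨v, hv⟩, hw⟩
  have ha' : LinearMap.range a' = ⊤ := by
    rw [LinearMap.range_eq_top]
    intro w
    obtain ⟨v, hv, hw⟩ := h'.sur w
    exact ⟨⟨v, hv⟩, hw⟩
  have hk : LinearMap.ker a = LinearMap.ker a' := by
    ext v
    rw [LinearMap.mem_ker, LinearMap.mem_ker]
    exact (h.ker v.1 v.2).trans (h'.ker v.1 v.2).symm
  let u1 := a.quotKerEquivOfSurjective (LinearMap.range_eq_top.1 ha)
  let u2 := a'.quotKerEquivOfSurjective (LinearMap.range_eq_top.1 ha')
  let u : (Fin m → F) ≃ₗ[F] (Fin m' → F) :=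
    u1.symm.trans ((Submodule.quotEquivOfEq _ _ hk).trans u2)
  have hu : ∀ v : fx, u (a v) = a' v := by
    intro v
    show u2 (Submodule.quotEquivOfEq _ _ hk (u1.symm (a v))) = _
    have h1 : u1.symm (a v) = Submodule.Quotient.mk v := by
      rw [LinearEquiv.symm_apply_eq]
      rfl
    rw [h1]
    rfl
  refine D1H11.tr_eq κ κ' u fun t w => ?_
  obtain ⟨v, hv, rfl⟩ := h.sur w
  have h1 := h.int t v hv
  have h2 := h'.int t v hv
  have h3 := hu ⟨v, hv⟩
  have h4 := hu ⟨ρ (j t) v, hst t v hv⟩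
  rw [← h1]
  calc u (π (ρ (j t) v)) = u (a ⟨ρ (j t) v, hst t v hv⟩) := rfl
    _ = a' ⟨ρ (j t) v, hst t v hv⟩ := h4
    _ = (κ' t).mulVec (a' ⟨v, hv⟩) := h2
    _ = (κ' t).mulVec (u (a ⟨v, hv⟩)) := by rw [h3]

/-- transport along an isomorphism of representations -/
theorem hw_transport {F : Type} [Field F] {G : Type} [Group G] {V V' : Type} [AddCommGroup V]
    [Module F V] [AddCommGroup V'] [Module F V'] (ρ : Representation F G V)
    (ρ' : Representation F G V') (T : V ≃ₗ[F] V') (hT : ∀ g v, T (ρ g v) = ρ' g (T v))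
    {A : Type} [Group A] (j : A →* G) {m : ℕ} (fx nm : Submodule F V) (fx' nm' : Submodule F V')
    (hfix : ∀ v, v ∈ fx ↔ T v ∈ fx') (hn : ∀ v, v ∈ nm ↔ T v ∈ nm')
    (κ : A →* Matrix (Fin m) (Fin m) F) (π : V' →ₗ[F] (Fin m → F)) (h : HW j κ ρ' π fx' nm') :
    HW j κ ρ (π ∘ₗ T.toLinearMap) fx nm := by
  refine ⟨fun x v hv => ?_, fun v hv => ?_, fun w => ?_⟩
  · show π (T (ρ (j x) v)) = _
    rw [hT]
    exact h.int x (T v) ((hfix v).1 hv)
  · rw [hn v]
    exact h.ker (T v) ((hfix v).1 hv)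
  · obtain ⟨v, hv, rfl⟩ := h.sur w
    refine ⟨T.symm v, ?_, ?_⟩
    · rw [hfix, LinearEquiv.apply_symm_apply]
      exact hv
    · show π (T (T.symm v)) = _
      rw [LinearEquiv.apply_symm_apply]

/-- the action of the group ring is transported -/
theorem evV_T {F : Type} [Field F] {G : Type} [Group G] [Finite G] {V V' : Type} [AddCommGroup V]
    [Module F V] [AddCommGroup V'] [Module F V'] {ρ : Representation F G V}
    {ρ' : Representation F G V'} (T : V ≃ₗ[F] V') (hT : ∀ g v, T (ρ g v) = ρ' g (T v))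
    (a : G → F) (v : V) : T (evV ρ a v) = evV ρ' a (T v) := by
  have := Fintype.ofFinite G
  unfold evV
  rw [finsum_eq_sum_of_fintype, finsum_eq_sum_of_fintype, LinearMap.sum_apply, LinearMap.sum_apply,
    map_sum]
  refine Finset.sum_congr rfl fun g _ => ?_
  rw [LinearMap.smul_apply, LinearMap.smul_apply, map_smul, hT]

theorem evV_T_pow {F : Type} [Field F] {G : Type} [Group G] [Finite G] {V V' : Type}
    [AddCommGroup V] [Module F V] [AddCommGroup V'] [Module F V'] {ρ : Representation F G V}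
    {ρ' : Representation F G V'} (T : V ≃ₗ[F] V') (hT : ∀ g v, T (ρ g v) = ρ' g (T v))
    (a : G → F) (r : ℕ) (v : V) : T (((evV ρ a) ^ r) v) = ((evV ρ' a) ^ r) (T v) := by
  induction r with
  | zero => rfl
  | succ r ih =>
    rw [pow_succ', pow_succ', Module.End.mul_apply, Module.End.mul_apply, evV_T T hT, ih]

/-- UND, with the stability of `fix` -/
theorem und_st (hibc : IbcStmt) (ℓ : ℕ) (F : Type) [Field F] (hF : GoodF ℓ F) (G : Type) [Group G]
    [Finite G] (b₁ w : G → F) (r : ℕ) (A : Type) [Group A] (j : A →* G)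
    (k k' : ℕ) (σ : G →* Matrix (Fin k) (Fin k) F) (σ' : G →* Matrix (Fin k') (Fin k') F)
    (hσ : IsIrr σ) (hσ' : IsIrr σ') (htr : tr σ = tr σ')
    (hst : Stb j.range (mrep σ) (fixW (mrep σ) b₁ w))
    (m m' : ℕ) (κ : A →* Matrix (Fin m) (Fin m) F) (κ' : A →* Matrix (Fin m') (Fin m') F)
    (π : (Fin k → F) →ₗ[F] (Fin m → F)) (π' : (Fin k' → F) →ₗ[F] (Fin m' → F))
    (h : HW j κ (mrep σ) π (fixW (mrep σ) b₁ w) (rngW (mrep σ) w r))
    (h' : HW j κ' (mrep σ') π' (fixW (mrep σ') b₁ w) (rngW (mrep σ') w r)) : tr κ = tr κ' := by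
  obtain ⟨X, Y, -, hXY, hYX, hint⟩ := hibc ℓ F hF G k k' σ σ' hσ hσ' htr
  let T : (Fin k → F) ≃ₗ[F] (Fin k' → F) :=
    { toFun := fun v => X.mulVec v
      map_add' := fun v w => Matrix.mulVec_add X v w
      map_smul' := fun c v => Matrix.mulVec_smul X c v
      invFun := fun v => Y.mulVec v
      left_inv := fun v => by
        show Y.mulVec (X.mulVec v) = v
        rw [Matrix.mulVec_mulVec, hYX, Matrix.one_mulVec]
      right_inv := fun v => by
        show X.mulVec (Y.mulVec v) = v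
        rw [Matrix.mulVec_mulVec, hXY, Matrix.one_mulVec] }
  have hT : ∀ g v, T (mrep σ g v) = mrep σ' g (T v) := by
    intro g v
    rw [D1H11.mrep_apply, D1H11.mrep_apply]
    show X.mulVec ((σ g).mulVec v) = (σ' g).mulVec (X.mulVec v)
    rw [Matrix.mulVec_mulVec, Matrix.mulVec_mulVec, hint]
  have hfix : ∀ v, v ∈ fixW (mrep σ) b₁ w ↔ T v ∈ fixW (mrep σ') b₁ w := by
    intro v
    change (evV (mrep σ) b₁ v = v ∧ evV (mrep σ) w v = 0) ↔
      (evV (mrep σ') b₁ (T v) = T v ∧ evV (mrep σ') w (T v) = 0)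
    rw [← evV_T T hT, ← evV_T T hT, T.injective.eq_iff, LinearEquiv.map_eq_zero_iff]
  have hn : ∀ v, v ∈ rngW (mrep σ) w r ↔ T v ∈ rngW (mrep σ') w r := by
    intro v
    constructor
    · rintro ⟨u, rfl⟩
      exact ⟨T u, (evV_T_pow T hT w r u).symm⟩
    · rintro ⟨u, hu⟩
      refine ⟨T.symm u, ?_⟩
      apply T.injective
      rw [evV_T_pow T hT, LinearEquiv.apply_symm_apply]
      exact hu
  exact hw_unique (mrep σ) j _ _ (fun t v hv => hst _ ⟨t, rfl⟩ v hv) κ κ' π
    (π' ∘ₗ T.toLinearMap) h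
    (hw_transport (mrep σ) (mrep σ') T hT j _ _ _ _ hfix hn κ' π' h')

end Pool.Agent.PP.CD2.H17
end
end -- Pool.Agent.Helper17_D2.Und

section -- Pool.Agent.Helper66_D2.Und

/-!
# Part D2, module UND: from `und_st` of helper17
-/

open scoped BigOperators

noncomputable section

namespace Pool.Agent.PP.CD2.H66

open Pool.Agent.PP Pool.Agent.Helper51_AWC Pool.Agent.Helper79_WRA Pool.Agent.PP.H20

theorem und (hibc : IbcStmt) (hstw : StwStmt) : UndStmt := by
  intro ℓ _ F _ hF G _ _ n N P y₁ b w hS A _ _ j hj k k' σ σ' hσ hσ' htr m m' κ κ' π π' _ _ h h'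
  have hst := (hstw ℓ F hF G n N P y₁ b w hS (Fin k → F) (mrep σ)).2.2.2.2.2.2.2.2.2.1
  exact H17.und_st hibc ℓ F hF G (bY y₁ b) w (ℓ ^ (n + 1) - 1) A j k k' σ σ' hσ hσ' htr
    (by rw [hj]; exact hst) m m' κ κ' π π' h h'

end Pool.Agent.PP.CD2.H66
end
end -- Pool.Agent.Helper66_D2.Und
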