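import Pool.Agent.Helper12_AWB.B161
import Pool.Agent.Helper12_AWB.B246

/-!
# Merged copies (generated) of the modules

* `Pool.Agent.Helper20_D2.Ums`
* `Pool.Agent.Helper5_CY.Ebr`
* `Pool.Agent.Helper26_D1.Ebv`
* `Pool.Agent.Helper20_D2.Fra`
-/

set_option autoImplicit false

section -- Pool.Agent.Helper20_D2.Ums

/-!
# Part D2: first properties of `UMS` and `D2S`; module STW
-/

open scoped BigOperators

set_option linter.unusedSectionVars false

noncomputable section

namespace Pool.Agent.PP.CD2.H20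

open Pool.Agent.Helper51_AWC Pool.Agent.Helper79_WRA Pool.Agent.PP

variable {F : Type} [Field F] {G : Type} [Group G] [Finite G] {V V' : Type} [AddCommGroup V]
  [Module F V] [AddCommGroup V'] [Module F V']

theorem mulF_sum_left {ι : Type*} (s : Finset ι) (a : ι → G → F) (c : G → F) :
    mulF (∑ t ∈ s, a t) c = ∑ t ∈ s, mulF (a t) c := by
  apply ma_injective
  rw [ma_mul, ma_sum, ma_sum, Finset.sum_mul]
  exact Finset.sum_congr rfl fun t _ => (ma_mul _ _).symm

section ums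

variable {C : Subgroup G} {b w : G → F} {q : ℕ}

theorem ums_sb (h : UMS C b w q) : SpF C b := by
  obtain ⟨m, e, i, hUM, -, hsum, -⟩ := h
  rw [← hsum]
  exact spF_sum _ fun t _ => (hUM t).sb

theorem ums_cb (h : UMS C b w q) : CmF C b := by
  obtain ⟨m, e, i, hUM, -, hsum, -⟩ := h
  intro c hc x
  rw [← hsum, Finset.sum_apply, Finset.sum_apply]
  exact Finset.sum_congr rfl fun t _ => (hUM t).cb c hc x

theorem ums_sw (h : UMS C b w q) : SpF C w := by
  obtain ⟨m, e, i, hUM, -, hsum, hbw⟩ := h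
  rw [← hbw, ← hsum, mulF_sum_left]
  exact spF_sum _ fun t _ => (hUM t).sw

theorem ums_cw (h : UMS C b w q) : CmF C w := by
  obtain ⟨m, e, i, hUM, -, hsum, hbw⟩ := h
  intro c hc x
  rw [← hbw, ← hsum, mulF_sum_left, Finset.sum_apply, Finset.sum_apply]
  exact Finset.sum_congr rfl fun t _ => (hUM t).cw c hc x

theorem ums_bw (h : UMS C b w q) : ma b * ma w = ma w := by
  obtain ⟨m, e, i, hUM, -, hsum, hbw⟩ := h
  rw [← ma_mul, hbw]

theorem ums_wb (h : UMS C b w q) : ma w * ma b = ma w := by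
  rw [← cmF_comm (ums_sb h) (ums_cw h), ums_bw h]

theorem ums_bb (h : UMS C b w q) : ma b * ma b = ma b := by
  classical
  obtain ⟨m, e, i, hUM, hort, hsum, hbw⟩ := h
  rw [← hsum, ma_sum, Finset.sum_mul]
  refine Finset.sum_congr rfl fun t _ => ?_
  rw [Finset.mul_sum, Finset.sum_eq_single t]
  · rw [← ma_mul, (hUM t).bb]
  · intro s _ hs
    rw [← ma_mul, hort t s hs.symm, ma_zero]
  · intro h
    exact absurd (Finset.mem_univ _) h

theorem ums_nil (h : UMS C b w q) : ma w ^ q * ma b = 0 := by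
  have hcw := ums_cw h
  obtain ⟨m, e, i, hUM, hort, hsum, hbw⟩ := h
  rw [← hsum, ma_sum, Finset.mul_sum]
  refine Finset.sum_eq_zero fun t _ => ?_
  have h1 : ma (mulF (e t) w) ^ q * ma (e t) = 0 := by
    rw [← ma_pwF, (hUM t).nil, ma_zero]
  have h2 : ma (e t) * ma (e t) = ma (e t) := by rw [← ma_mul, (hUM t).bb]
  have h3 : ma (e t) * ma w = ma w * ma (e t) := cmF_comm (hUM t).sb hcw
  have h4 : ∀ s : ℕ, ma (mulF (e t) w) ^ s * ma (e t) = ma w ^ s * ma (e t) := by
    intro s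
    induction s with
    | zero => rw [pow_zero, pow_zero]
    | succ s ih =>
      rw [pow_succ, pow_succ, mul_assoc, ma_mul, mul_assoc (ma (e t)), ← h3, ← mul_assoc (ma (e t)),
        h2, ← mul_assoc, ← ma_mul, ih, mul_assoc, h3, mul_assoc]
  rw [← h4, h1]

theorem ums_pow_b (h : UMS C b w q) {s : ℕ} (hs : s ≠ 0) : ma w ^ s * ma b = ma w ^ s := by
  obtain ⟨r, rfl⟩ := Nat.exists_eq_succ_of_ne_zero hs
  rw [pow_succ, mul_assoc, ums_wb h]

theorem ums_zero (h : UMS C b w q) (hq : q ≠ 0) : ma w ^ q = 0 := by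
  rw [← ums_pow_b h hq, ums_nil h]

end ums

section rep

variable {ℓ n : ℕ} {N P : Subgroup G} {y₁ : G} {b w : G → F}

/-- `br` of a class function commutes with the normaliser -/
theorem bY_conj (hb : IsCl b) {x : G} (hx : x ∈ NY y₁) (t : G) :
    bY y₁ b (x * t * x⁻¹) = bY y₁ b t := by
  classical
  have h1 : x * t * x⁻¹ ∈ Subgroup.centralizer (Subgroup.zpowers y₁ : Set G) ↔
      t ∈ Subgroup.centralizer (Subgroup.zpowers y₁ : Set G) := by
    have hx' : ∀ z, z ∈ Subgroup.zpowers y₁ ↔ x * z * x⁻¹ ∈ Subgroup.zpowers y₁ :=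
      Subgroup.mem_normalizer_iff.1 hx
    rw [Subgroup.mem_centralizer_iff, Subgroup.mem_centralizer_iff]
    constructor
    · intro h z hz
      have h2 := h (x * z * x⁻¹) ((hx' z).1 hz)
      have h3 : x * (z * t) * x⁻¹ = x * (t * z) * x⁻¹ := by
        calc x * (z * t) * x⁻¹ = x * z * x⁻¹ * (x * t * x⁻¹) := by group
          _ = x * t * x⁻¹ * (x * z * x⁻¹) := h2
          _ = x * (t * z) * x⁻¹ := by group
      exact mul_left_cancel (mul_right_cancel h3)
    · intro h z hz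
      have hz' : x⁻¹ * z * x ∈ Subgroup.zpowers y₁ := by
        rw [hx' (x⁻¹ * z * x)]
        have : x * (x⁻¹ * z * x) * x⁻¹ = z := by group
        rwa [this]
      have h2 := h _ hz'
      calc z * (x * t * x⁻¹) = x * ((x⁻¹ * z * x) * t) * x⁻¹ := by group
        _ = x * (t * (x⁻¹ * z * x)) * x⁻¹ := by rw [h2]
        _ = x * t * x⁻¹ * z := by group
  unfold bY br
  by_cases h : t ∈ Subgroup.centralizer (Subgroup.zpowers y₁ : Set G)
  · rw [if_pos h, if_pos (h1.2 h), hb]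
  · rw [if_neg h, if_neg (fun h' => h (h1.1 h'))]

theorem dl_comm {a : G → F} {x : G} (h : ∀ t, a (x * t * x⁻¹) = a t) :
    ma (dl F x) * ma a = ma a * ma (dl F x) := by
  rw [← ma_mul, ← ma_mul]
  apply congrArg ma
  funext t
  rw [H75.mulF_dl_left, H75.mulF_dl_right]
  have := h (x⁻¹ * t)
  rw [← this]
  congr 1
  group

/-- `w x = x w u` -/
theorem d2s_wx (h : D2S ℓ n N P y₁ b w) {x : G} (hx : x ∈ NY y₁) :
    ∃ u : G → F, SpF (N ⊓ CY y₁) u ∧ CmF (N ⊓ CY y₁) u ∧
      ma w * ma (dl F x) = ma (dl F x) * (ma w * ma u) := by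
  obtain ⟨u, h1, h2, h3⟩ := h.eqv x⁻¹ (inv_mem hx)
  refine ⟨u, h1, h2, ?_⟩
  rw [← ma_mul w u, ← h3, ← ma_mul, ← ma_mul]
  apply congrArg ma
  funext t
  rw [H75.mulF_dl_left, H75.mulF_dl_right]
  congr 1
  group

/-- `x w = w u x` -/
theorem d2s_xw (h : D2S ℓ n N P y₁ b w) {x : G} (hx : x ∈ NY y₁) :
    ∃ u : G → F, SpF (N ⊓ CY y₁) u ∧ CmF (N ⊓ CY y₁) u ∧
      ma (dl F x) * ma w = (ma w * ma u) * ma (dl F x) := by
  obtain ⟨u, h1, h2, h3⟩ := h.eqv x hx
  refine ⟨u, h1, h2, ?_⟩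
  rw [← ma_mul w u, ← h3, ← ma_mul, ← ma_mul]
  apply congrArg ma
  funext t
  rw [H75.mulF_dl_left, H75.mulF_dl_right]
  congr 1
  group

end rep

/-- STW -/
theorem stw : StwStmt := by
  intro ℓ hℓ F _ hF G _ _ n N P y₁ b w h V _ _ ρ
  have hq : ℓ ^ (n + 1) ≠ 0 := pow_ne_zero _ hℓ.out.ne_zero
  have hq2 : 2 ≤ ℓ ^ (n + 1) := by
    calc 2 ≤ ℓ := hℓ.out.two_le
      _ = ℓ ^ 1 := (pow_one _).symm
      _ ≤ ℓ ^ (n + 1) := Nat.pow_le_pow_right hℓ.out.pos (by omega)
  have hu := h.ums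
  have hA : ∀ a : G → F, evV ρ a = ρ.asAlgebraHom (ma a) := evV_eq ρ
  have hx : ∀ x : G, ρ x = ρ.asAlgebraHom (ma (dl F x)) := by
    intro x
    rw [← hA, evV_dl]
  obtain ⟨φ, hφ⟩ : ∃ φ : MonoidAlgebra F G →ₐ[F] Module.End F V, φ = ρ.asAlgebraHom := ⟨_, rfl⟩
  rw [← hφ] at hA hx
  have c1 : ∀ x ∈ NY y₁, ∀ v, evV ρ (bY y₁ b) (ρ x v) = ρ x (evV ρ (bY y₁ b) v) := by
    intro x hx' v
    rw [hA, hx, ← Module.End.mul_apply, ← Module.End.mul_apply, ← map_mul, ← map_mul,
      dl_comm (bY_conj h.idem.1 hx')]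
  have c2 : ∀ v, evV ρ (bY y₁ b) (evV ρ (bY y₁ b) v) = evV ρ (bY y₁ b) v := by
    intro v
    rw [hA, ← Module.End.mul_apply, ← map_mul, ums_bb hu]
  have c3 : ∀ v, evV ρ (bY y₁ b) (evV ρ w v) = evV ρ w v := by
    intro v
    rw [hA, hA, ← Module.End.mul_apply, ← map_mul, ums_bw hu]
  have c4 : ∀ v, evV ρ w (evV ρ (bY y₁ b) v) = evV ρ w v := by
    intro v
    rw [hA, hA, ← Module.End.mul_apply, ← map_mul, ums_wb hu]
  have c5 : ∀ c ∈ N ⊓ CY y₁, ∀ v, evV ρ w (ρ c v) = ρ c (evV ρ w v) := by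
    intro c hc v
    rw [hA, hx, ← Module.End.mul_apply, ← Module.End.mul_apply, ← map_mul, ← map_mul,
      cmF_comm (spF_dl hc) (ums_cw hu)]
  have c6 : (evV ρ w) ^ (ℓ ^ (n + 1)) = 0 := by
    rw [hA, ← map_pow, ums_zero hu hq, map_zero]
  have c7 : ∀ x ∈ NY y₁, ∀ v, evV ρ w v = 0 → evV ρ w (ρ x v) = 0 := by
    intro x hx' v hv
    obtain ⟨u, h1, h2, h3⟩ := d2s_wx h hx'
    have h4 : ma w * ma u = ma u * ma w := (cmF_comm h1 (ums_cw hu)).symm
    rw [hA, hx, ← Module.End.mul_apply, ← map_mul, h3, h4, map_mul, map_mul, Module.End.mul_apply,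
      Module.End.mul_apply, ← hA w, hv, map_zero, map_zero]
  have c10 : Stb (NY y₁) ρ (fixW ρ (bY y₁ b) w) := by
    intro x hx' v hv
    exact ⟨by rw [c1 x hx', hv.1], c7 x hx' v hv.2⟩
  refine ⟨c1, c2, c3, c4, c5, c6, c7, ?_, ?_, c10, ?_⟩
  · rintro _ ⟨v, rfl⟩
    constructor
    · obtain ⟨r, hr⟩ : ∃ r, ℓ ^ (n + 1) - 1 = r + 1 := ⟨ℓ ^ (n + 1) - 2, by omega⟩
      rw [hr, pow_succ', Module.End.mul_apply, c3]
    · rw [← Module.End.mul_apply, ← pow_succ', Nat.sub_add_cancel (by omega), c6]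
      rfl
  · intro j x hx' v hv
    obtain ⟨u, h1, h2, h3⟩ := d2s_xw h hx'
    have h4 : ma w * ma u = ma u * ma w := (cmF_comm h1 (ums_cw hu)).symm
    have h5 : ∀ j : ℕ, ma (dl F x) * ma w ^ j = ma w ^ j * (ma u ^ j * ma (dl F x)) := by
      intro j
      induction j with
      | zero => rw [pow_zero, pow_zero, one_mul, one_mul, mul_one]
      | succ j ih =>
        have h6 : ma w * ma u ^ j = ma u ^ j * ma w := (Commute.pow_right h4 j)
        calc ma (dl F x) * ma w ^ (j + 1) = (ma (dl F x) * ma w ^ j) * ma w := by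
              rw [pow_succ, mul_assoc]
          _ = ma w ^ j * (ma u ^ j * (ma (dl F x) * ma w)) := by rw [ih]; simp only [mul_assoc]
          _ = ma w ^ j * ((ma u ^ j * ma w) * (ma u * ma (dl F x))) := by
              rw [h3]; simp only [mul_assoc]
          _ = ma w ^ j * (ma w * (ma u ^ j * (ma u * ma (dl F x)))) := by
              rw [← h6]; simp only [mul_assoc]
          _ = ma w ^ (j + 1) * (ma u ^ (j + 1) * ma (dl F x)) := by
              rw [pow_succ, pow_succ]; simp only [mul_assoc]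
    obtain ⟨v', rfl⟩ := hv
    refine ⟨φ (ma u ^ j * ma (dl F x)) v', ?_⟩
    rw [hA, hx, ← map_pow, ← Module.End.mul_apply, ← Module.End.mul_apply, ← map_mul, ← map_mul,
      h5]
  · intro v
    have h1 : ℓ ^ n ≠ 0 := pow_ne_zero _ hℓ.out.ne_zero
    have h2 : ma w ^ (ℓ ^ n) = ma (dl F y₁) * ma (bY y₁ b) - ma (bY y₁ b) := by
      rw [← ums_pow_b hu h1, ← ma_pwF, h.pow, ← ma_mul, ← ma_sub]
      apply congrArg ma
      funext g
      rw [Pi.sub_apply, H75.mulF_dl_left]
    rw [hA w, ← map_pow, h2, map_sub, map_mul, ← hA (bY y₁ b), ← hx]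
    rfl

end Pool.Agent.PP.CD2.H20
end
end -- Pool.Agent.Helper20_D2.Ums

section -- Pool.Agent.Helper5_CY.Ebr

/-!
# Squad PP, part CY, module EBR: class functions act on `V^P / nrm V` through the Brauer map
-/

open scoped BigOperators

noncomputable section

namespace Pool.Agent.PP.CY.H5

open Pool.Agent.PP Pool.Agent.Helper51_AWC Pool.Agent.Helper79_WRA

section grp

variable {G : Type} [Group G]

/-- an element of order prime to `ℓ` which normalises the cyclic `ℓ`-group generated by `y` and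
commutes with a nontrivial power of `y` commutes with `y` -/
theorem comm_of_coprime {ℓ : ℕ} (hℓ : ℓ.Prime) {y h : G} {e : ℕ} (hy : orderOf y = ℓ ^ e)
    {a : ℤ} (ha : h * y * h⁻¹ = y ^ a) {i : ℤ} (hi : y ^ i ≠ 1) (hc : h * y ^ i * h⁻¹ = y ^ i)
    (hh : ℓ.Coprime (orderOf h)) : Commute h y := by
  have h1 : ∀ j : ℕ, h ^ j * y * (h ^ j)⁻¹ = y ^ (a ^ j) := by
    intro j
    induction j with
    | zero => simp
    | succ j ih =>
      have h2 : h ^ (j + 1) * y * (h ^ (j + 1))⁻¹ = h * (h ^ j * y * (h ^ j)⁻¹) * h⁻¹ := by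
        rw [pow_succ']
        group
      rw [h2, ih, ← conj_zpow, ha, ← zpow_mul, pow_succ']
  have h3 : y ^ (a * i) = y ^ i := by
    rw [zpow_mul, ← ha, conj_zpow, hc]
  have h4 : ((ℓ ^ e : ℕ) : ℤ) ∣ i * (a - 1) := by
    rw [← hy]
    have h5 := (orderOf_dvd_sub_iff_zpow_eq_zpow (x := y) (a := a * i) (b := i)).2 h3
    have h6 : a * i - i = i * (a - 1) := by ring
    rwa [h6] at h5
  have h7 : (ℓ : ℤ) ∣ a - 1 := by
    by_contra hn
    apply hi
    apply orderOf_dvd_iff_zpow_eq_one.1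
    rw [hy]
    have hp : Prime (ℓ : ℤ) := Nat.prime_iff_prime_int.1 hℓ
    have h8 : IsCoprime ((ℓ : ℤ) ^ e) (a - 1) := (hp.coprime_iff_not_dvd.2 hn).pow_left
    push_cast at h4 ⊢
    exact h8.dvd_of_dvd_mul_right h4
  have h9 : ((ℓ : ℤ) ^ (e + 1)) ∣ a ^ ℓ ^ e - 1 ^ ℓ ^ e := dvd_sub_pow_of_dvd_sub h7 e
  have h10 : y ^ (a ^ ℓ ^ e) = y := by
    have h11 : (orderOf y : ℤ) ∣ a ^ ℓ ^ e - 1 := by
      rw [hy]
      rw [one_pow] at h9
      push_cast
      exact (pow_dvd_pow (ℓ : ℤ) (Nat.le_succ e)).trans h9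
    have h12 := (orderOf_dvd_sub_iff_zpow_eq_zpow (x := y) (a := a ^ ℓ ^ e) (b := 1)).1 h11
    rwa [zpow_one] at h12
  have h13 : Commute (h ^ ℓ ^ e) y := by
    have h14 := h1 (ℓ ^ e)
    rw [h10] at h14
    exact mul_inv_eq_iff_eq_mul.1 h14
  obtain ⟨m, hm⟩ := exists_pow_eq_self_of_coprime (x := h) (n := ℓ ^ e) (hh.pow_left e)
  rw [← hm]
  exact h13.pow_left m

/-- the elements outside the centraliser of `P` commute with no nontrivial element of `P` -/
theorem cent_of_comm [Finite G] {ℓ : ℕ} [hℓ : Fact ℓ.Prime] {P : Subgroup G} (hP : TiS ℓ P)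
    (hcyc : IsCyclic P) {g x : G} (hx : x ∈ P) (hx1 : x ≠ 1) (hgx : g * x * g⁻¹ = x) :
    g ∈ Subgroup.centralizer (P : Set G) := by
  have hgN : g ∈ Subgroup.normalizer (P : Set G) := by
    by_contra h
    exact hx1 (hP.ti g h x hx (by rw [hgx]; exact hx))
  obtain ⟨y, hy⟩ := hcyc.exists_generator
  obtain ⟨i, hi⟩ := Subgroup.mem_zpowers_iff.1 (hy ⟨x, hx⟩)
  have hi' : (y : G) ^ i = x := by
    have := congrArg (fun z : P => (z : G)) hi
    simpa using this
  obtain ⟨e, he⟩ := (IsPGroup.iff_orderOf.1 hP.pgrp) y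
  have hyo : orderOf (y : G) = ℓ ^ e := by rw [Subgroup.orderOf_coe, he]
  -- it is enough to commute with `y`
  have key : Commute g (y : G) → g ∈ Subgroup.centralizer (P : Set G) := by
    intro hc
    rw [Subgroup.mem_centralizer_iff]
    intro z hz
    obtain ⟨j, hj⟩ := Subgroup.mem_zpowers_iff.1 (hy ⟨z, hz⟩)
    have hj' : (y : G) ^ j = z := by
      have := congrArg (fun z : P => (z : G)) hj
      simpa using this
    rw [← hj']
    exact (hc.zpow_right j).eq.symm
  apply key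
  have hnorm : ∀ h : G, h ∈ Subgroup.normalizer (P : Set G) → ∃ a : ℤ,
      h * (y : G) * h⁻¹ = (y : G) ^ a := by
    intro h hh
    have h1 : h * (y : G) * h⁻¹ ∈ P := (Subgroup.mem_normalizer_iff.1 hh y).1 y.2
    obtain ⟨a, ha⟩ := Subgroup.mem_zpowers_iff.1 (hy ⟨_, h1⟩)
    refine ⟨a, ?_⟩
    have := congrArg (fun z : P => (z : G)) ha
    simpa using this.symm
  obtain ⟨s, m, hm, ho⟩ := Nat.exists_eq_pow_mul_and_not_dvd (orderOf_pos g).ne' ℓ hℓ.out.ne_one
  have hm0 : m ≠ 0 := by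
    rintro rfl
    exact hm (dvd_zero ℓ)
  -- the `ℓ'`-part
  have c1 : Commute (g ^ ℓ ^ s) (y : G) := by
    have hN : g ^ ℓ ^ s ∈ Subgroup.normalizer (P : Set G) := Subgroup.pow_mem _ hgN _
    obtain ⟨a, ha⟩ := hnorm _ hN
    refine comm_of_coprime hℓ.out hyo ha (i := i) (by rw [hi']; exact hx1) ?_ ?_
    · rw [hi']
      have h2 : Commute g x := mul_inv_eq_iff_eq_mul.1 hgx
      exact mul_inv_eq_iff_eq_mul.2 (h2.pow_left _).eq
    · have h3 : orderOf (g ^ ℓ ^ s) = m := by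
        rw [orderOf_pow_of_dvd (pow_ne_zero s hℓ.out.ne_zero) ⟨m, ho⟩, ho,
          Nat.mul_div_cancel_left _ (pow_pos hℓ.out.pos s)]
      rw [h3]
      exact (Nat.Prime.coprime_iff_not_dvd hℓ.out).2 hm
  -- the `ℓ`-part
  have c2 : Commute (g ^ m) (y : G) := by
    have hN : g ^ m ∈ Subgroup.normalizer (P : Set G) := Subgroup.pow_mem _ hgN _
    have ho2 : orderOf (g ^ m) = ℓ ^ s := by
      rw [orderOf_pow_of_dvd hm0 ⟨ℓ ^ s, by rw [ho, mul_comm]⟩, ho,
        Nat.mul_div_cancel _ (Nat.pos_of_ne_zero hm0)]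
    have hZ : IsPGroup ℓ (Subgroup.zpowers (g ^ m)) := by
      apply IsPGroup.of_card (n := s)
      rw [Nat.card_zpowers, ho2]
    have h4 := hZ.inf_normalizer_sylow (hP.pgrp.toSylow hP.sylow)
    have h5 : g ^ m ∈ Subgroup.zpowers (g ^ m) ⊓ ((hP.pgrp.toSylow hP.sylow : Sylow ℓ G) :
        Subgroup G) := by
      rw [← h4]
      exact ⟨Subgroup.mem_zpowers _, hN⟩
    have h6 : g ^ m ∈ P := h5.2
    obtain ⟨j, hj⟩ := Subgroup.mem_zpowers_iff.1 (hy ⟨_, h6⟩)
    have hj' : (y : G) ^ j = g ^ m := by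
      have := congrArg (fun z : P => (z : G)) hj
      simpa using this
    rw [← hj']
    exact (Commute.refl (y : G)).zpow_left j
  have hco : (ℓ ^ s).Coprime m :=
    Nat.Coprime.pow_left s ((Nat.Prime.coprime_iff_not_dvd hℓ.out).2 hm)
  have hb := Nat.gcd_eq_gcd_ab (ℓ ^ s) m
  rw [hco.gcd_eq_one] at hb
  have hg : g = (g ^ ℓ ^ s) ^ Nat.gcdA (ℓ ^ s) m * (g ^ m) ^ Nat.gcdB (ℓ ^ s) m := by
    rw [← zpow_natCast, ← zpow_natCast g m, ← zpow_mul, ← zpow_mul, ← zpow_add, ← hb]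
    simp
  rw [hg]
  exact (c1.zpow_left _).mul_left (c2.zpow_left _)

end grp

section sums

variable {F : Type} [Field F] {G : Type} [Group G] {V : Type} [AddCommGroup V] [Module F V]

open scoped Classical in
/-- sums over regular orbits -/
theorem orb_sum (P : Subgroup G) [Fintype P] (S : Submodule F V) (f : G → V) (X : Finset G)
    (hX : ∀ g ∈ X, ∀ p ∈ P, p * g * p⁻¹ ∈ X) (hfree : ∀ g ∈ X, ∀ p ∈ P, p * g * p⁻¹ = g → p = 1)
    (hsum : ∀ g ∈ X, ∑ p : P, f (p * g * (p : G)⁻¹) ∈ S) : ∑ g ∈ X, f g ∈ S := by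
  induction hn : X.card using Nat.strong_induction_on generalizing X with
  | _ N ih =>
    rcases X.eq_empty_or_nonempty with rfl | ⟨g, hg⟩
    · simp
    · obtain ⟨O, hO⟩ : ∃ O : Finset G, O = Finset.univ.image fun p : P => p * g * (p : G)⁻¹ :=
        ⟨_, rfl⟩
      have hOX : O ⊆ X := by
        intro z hz
        rw [hO, Finset.mem_image] at hz
        obtain ⟨p, -, rfl⟩ := hz
        exact hX g hg p p.2
      have hgO : g ∈ O := by
        rw [hO, Finset.mem_image]
        exact ⟨1, Finset.mem_univ _, by simp⟩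
      have hOs : ∑ z ∈ O, f z ∈ S := by
        rw [hO, Finset.sum_image]
        · exact hsum g hg
        · intro p _ q _ hpq
          have h1 : ((q⁻¹ * p : P) : G) * g * ((q⁻¹ * p : P) : G)⁻¹ = g := by
            have h2 : (p : G) * g * (p : G)⁻¹ = q * g * (q : G)⁻¹ := hpq
            calc ((q⁻¹ * p : P) : G) * g * ((q⁻¹ * p : P) : G)⁻¹
                = (q : G)⁻¹ * (p * g * (p : G)⁻¹) * q := by
                  push_cast
                  group
              _ = g := by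
                  rw [h2]
                  group
          have h3 := hfree g hg _ (q⁻¹ * p : P).2 h1
          have h4 : (q⁻¹ * p : P) = 1 := Subtype.ext h3
          exact (inv_mul_eq_one.1 h4).symm
      have hlt : (X \ O).card < N := by
        rw [← hn]
        exact Finset.card_lt_card (Finset.sdiff_ssubset hOX ⟨g, hgO⟩)
      have hrest : ∑ z ∈ X \ O, f z ∈ S := by
        refine ih _ hlt (X \ O) (fun z hz p hp => ?_)
          (fun z hz => hfree z (Finset.mem_sdiff.1 hz).1)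
          (fun z hz => hsum z (Finset.mem_sdiff.1 hz).1) rfl
        obtain ⟨hz1, hz2⟩ := Finset.mem_sdiff.1 hz
        refine Finset.mem_sdiff.2 ⟨hX z hz1 p hp, fun h => hz2 ?_⟩
        rw [hO, Finset.mem_image] at h ⊢
        obtain ⟨q, -, hq⟩ := h
        refine ⟨⟨p, hp⟩⁻¹ * q, Finset.mem_univ _, ?_⟩
        push_cast
        have h5 : (q : G) * g * (q : G)⁻¹ = p * z * p⁻¹ := hq
        calc p⁻¹ * (q : G) * g * (p⁻¹ * (q : G))⁻¹ = p⁻¹ * ((q : G) * g * (q : G)⁻¹) * p := by group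
          _ = z := by rw [h5]; group
      rw [← Finset.sum_sdiff hOX]
      exact S.add_mem hrest hOs

theorem mrep_apply {n : ℕ} (σ : G →* Matrix (Fin n) (Fin n) F) (g : G) (v : Fin n → F) :
    mrep σ g v = (σ g).mulVec v := rfl

end sums

theorem ebr (hnls : NlsStmt) : EbrStmt := by
  classical
  intro ℓ hℓ F _ hF G _ _ P hP hcyc n σ hσ m κ ι hκ hE a c ha hac
  have := Fintype.ofFinite G
  have := Fintype.ofFinite P
  have := Fintype.ofFinite (Subgroup.normalizer (P : Set G))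
  obtain ⟨w, hw⟩ := hE.nt
  obtain ⟨N, hN⟩ : ∃ N, N = Subgroup.normalizer (P : Set G) := ⟨_, rfl⟩
  have hCN : Subgroup.centralizer (P : Set G) ≤ Subgroup.normalizer (P : Set G) := by
    intro g hg
    rw [Subgroup.mem_normalizer_iff]
    rw [Subgroup.mem_centralizer_iff] at hg
    intro h
    constructor
    · intro hh
      rw [← hg h hh, mul_assoc, mul_inv_cancel, mul_one]
      exact hh
    · intro hh
      have h1 := hg _ hh
      have h2 : h = g * h * g⁻¹ := by
        have h3 : g * h * g⁻¹ * g = g * (g * h * g⁻¹) := h1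
        have h4 : g * h = g * (g * h * g⁻¹) := by rw [← h3]; group
        exact mul_left_cancel h4
      rw [h2]
      exact hh
  -- `P` acts trivially on `κ`
  have hPN : (P.subgroupOf (Subgroup.normalizer (P : Set G))).Normal :=
    ⟨fun x hx g => (Subgroup.mem_normalizer_iff.1 g.2 x).1 hx⟩
  have hPp : IsPGroup ℓ (P.subgroupOf (Subgroup.normalizer (P : Set G))) := by
    intro x
    obtain ⟨k, hk⟩ := hP.pgrp ⟨((x : Subgroup.normalizer (P : Set G)) : G), x.2⟩
    refine ⟨k, ?_⟩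
    have h4 := congrArg (fun z : P => (z : G)) hk
    exact Subtype.ext (Subtype.ext h4)
  have htriv := (hnls ℓ F hF _ _ hPN hPp m κ hκ).1
  have hfix : ∀ p : P, (σ p).mulVec (ι w) = ι w := by
    intro p
    have h1 := hE.int ⟨p, Subgroup.le_normalizer p.2⟩ w
    rw [htriv _ (show (⟨(p : G), Subgroup.le_normalizer p.2⟩ :
      Subgroup.normalizer (P : Set G)) ∈ P.subgroupOf _ from p.2), Matrix.one_mulVec] at h1
    exact h1.symm
  -- the Brauer image acts as a scalar
  have hbcl : IsCl (fun t : Subgroup.normalizer (P : Set G) => br P a t) := by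
    intro x y
    have h1 : ((y * x * y⁻¹ : Subgroup.normalizer (P : Set G)) : G) ∈
        Subgroup.centralizer (P : Set G) ↔ (x : G) ∈ Subgroup.centralizer (P : Set G) := by
      have hcen : ∀ (s : G), s ∈ Subgroup.normalizer (P : Set G) → ∀ t : G,
          t ∈ Subgroup.centralizer (P : Set G) →
          s * t * s⁻¹ ∈ Subgroup.centralizer (P : Set G) := by
        intro s hs t ht
        rw [Subgroup.mem_centralizer_iff] at ht ⊢
        intro z hz
        have h2 : s⁻¹ * z * s ∈ P := by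
          have h3 := (Subgroup.mem_normalizer_iff.1 (Subgroup.inv_mem _ hs) z).1 hz
          simpa using h3
        have h4 := ht _ h2
        calc z * (s * t * s⁻¹) = s * (s⁻¹ * z * s * t) * s⁻¹ := by group
          _ = s * (t * (s⁻¹ * z * s)) * s⁻¹ := by rw [h4]
          _ = s * t * s⁻¹ * z := by group
      constructor
      · intro h
        have h2 := hcen _ (Subgroup.inv_mem _ y.2) _ h
        have h3 : (y : G)⁻¹ * ((y * x * y⁻¹ : Subgroup.normalizer (P : Set G)) : G) *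
            ((y : G)⁻¹)⁻¹ = x := by
          push_cast
          group
        rwa [h3] at h2
      · intro h
        exact hcen _ y.2 _ h
    have h5 : a ((y * x * y⁻¹ : Subgroup.normalizer (P : Set G)) : G) = a x := by
      push_cast
      exact ha x y
    simp only [br, h1, h5]
  obtain ⟨b, hb, -, -⟩ := H20.eig F _ m κ hκ _ hbcl
  rw [hb]
  -- the two parts of the sum
  have hsum : (ev σ a).mulVec (ι w) = ∑ g : G, a g • (σ g).mulVec (ι w) := by
    rw [ev, finsum_eq_sum_of_fintype, Matrix.sum_mulVec]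
    exact Finset.sum_congr rfl fun g _ => by rw [Matrix.smul_mulVec]
  have hC : ι ((ev κ (fun t : Subgroup.normalizer (P : Set G) => br P a t)).mulVec w) =
      ∑ g : G, if g ∈ Subgroup.centralizer (P : Set G) then a g • (σ g).mulVec (ι w) else 0 := by
    rw [ev, finsum_eq_sum_of_fintype, Matrix.sum_mulVec, map_sum]
    have h1 : ∀ t : Subgroup.normalizer (P : Set G),
        ι ((br P a t • κ t).mulVec w) = br P a t • (σ t).mulVec (ι w) := by
      intro t
      rw [Matrix.smul_mulVec, map_smul, hE.int]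
      rfl
    rw [Finset.sum_congr rfl fun t _ => h1 t]
    have h2 : ∀ g : G, (if g ∈ Subgroup.centralizer (P : Set G) then a g • (σ g).mulVec (ι w)
        else 0) = br P a g • (σ g).mulVec (ι w) := by
      intro g
      unfold br
      split_ifs
      · rfl
      · rw [zero_smul]
    rw [Finset.sum_congr rfl fun g _ => h2 g]
    have h3 : ∑ g : G, br P a g • (σ g).mulVec (ι w) =
        ∑ g ∈ Finset.univ.filter (fun g => g ∈ Subgroup.normalizer (P : Set G)),
          br P a g • (σ g).mulVec (ι w) := by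
      symm
      apply Finset.sum_subset (Finset.filter_subset _ _)
      intro g _ hg
      have h4 : g ∉ Subgroup.normalizer (P : Set G) := by
        intro h
        exact hg (Finset.mem_filter.2 ⟨Finset.mem_univ _, h⟩)
      have h5 : br P a g = 0 := by
        unfold br
        rw [if_neg fun h => h4 (hCN h)]
      rw [h5, zero_smul]
    rw [h3]
    symm
    exact Finset.sum_subtype _ (fun g => by simp) _
  have hrest : (∑ g : G, a g • (σ g).mulVec (ι w)) -
      (∑ g : G, if g ∈ Subgroup.centralizer (P : Set G) then a g • (σ g).mulVec (ι w) else 0) ∈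
      nrmV (mrep σ) P := by
    rw [← Finset.sum_sub_distrib]
    have h1 : ∀ g : G, (a g • (σ g).mulVec (ι w) - if g ∈ Subgroup.centralizer (P : Set G) then
        a g • (σ g).mulVec (ι w) else 0) = if g ∉ Subgroup.centralizer (P : Set G) then
        a g • (σ g).mulVec (ι w) else 0 := by
      intro g
      by_cases h : g ∈ Subgroup.centralizer (P : Set G)
      · rw [if_pos h, if_neg (not_not.2 h), sub_self]
      · rw [if_neg h, if_pos h, sub_zero]
    rw [Finset.sum_congr rfl fun g _ => h1 g, ← Finset.sum_filter]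
    apply orb_sum P
    · intro g hg p hp
      rw [Finset.mem_filter] at hg ⊢
      refine ⟨Finset.mem_univ _, fun h => hg.2 ?_⟩
      rw [Subgroup.mem_centralizer_iff] at h ⊢
      intro z hz
      have hz2 : p * z * p⁻¹ ∈ P := P.mul_mem (P.mul_mem hp hz) (P.inv_mem hp)
      have h2 := h _ hz2
      have h3 : p * (z * g) * p⁻¹ = p * (g * z) * p⁻¹ := by
        calc p * (z * g) * p⁻¹ = p * z * p⁻¹ * (p * g * p⁻¹) := by group
          _ = p * g * p⁻¹ * (p * z * p⁻¹) := h2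
          _ = p * (g * z) * p⁻¹ := by group
      exact mul_left_cancel (mul_right_cancel h3)
    · intro g hg p hp hpg
      rw [Finset.mem_filter] at hg
      by_contra hp1
      apply hg.2
      refine cent_of_comm hP hcyc hp hp1 ?_
      have h2 : p * g = g * p := mul_inv_eq_iff_eq_mul.1 hpg
      exact mul_inv_eq_iff_eq_mul.2 h2.symm
    · intro g _
      refine ⟨a g • (σ g).mulVec (ι w), ?_⟩
      rw [finsum_eq_sum_of_fintype, LinearMap.sum_apply]
      apply Finset.sum_congr rfl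
      intro p _
      rw [ha g p, map_mul, map_mul, ← Matrix.mulVec_mulVec, ← Matrix.mulVec_mulVec]
      have h2 : (σ (p : G)⁻¹).mulVec (ι w) = ι w := by
        have h3 := hfix p⁻¹
        simpa using h3
      rw [h2, mrep_apply, Matrix.mulVec_smul]
  rw [← hsum, ← hC, hac, hb] at hrest
  have hsc : ∀ (k : ℕ) (d : F) (v : Fin k → F), (Matrix.scalar (Fin k) d).mulVec v = d • v := by
    intro k d v
    rw [Matrix.scalar_apply, ← Matrix.smul_one_eq_diagonal, Matrix.smul_mulVec, Matrix.one_mulVec]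
  rw [hsc, hsc, map_smul, ← sub_smul] at hrest
  have hcb : c - b = 0 := by
    by_contra h
    apply hw
    have h2 := (nrmV (mrep σ) P).smul_mem (c - b)⁻¹ hrest
    rwa [smul_smul, inv_mul_cancel₀ h, one_smul] at h2
  rw [sub_eq_zero.1 hcb]

end Pool.Agent.PP.CY.H5
end
end -- Pool.Agent.Helper5_CY.Ebr

section -- Pool.Agent.Helper26_D1.Ebv

/-!
# Squad PP, part D1, module EBV: a class function acts on `V^P / (∑ P) V` like its Brauer image
-/

open scoped BigOperators

noncomputable section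

namespace Pool.Agent.PP.D1.H26

open Pool.Agent.PP Pool.Agent.Helper51_AWC Pool.Agent.Helper79_WRA

/-- an element commuting with one nontrivial element of a group of prime order commutes with the
group -/
theorem cent_prime {G : Type} [Group G] {ℓ : ℕ} [hℓ : Fact ℓ.Prime] {P : Subgroup G}
    (hP : Nat.card P = ℓ) {g x : G} (hx : x ∈ P) (hx1 : x ≠ 1) (hgx : g * x = x * g) :
    g ∈ Subgroup.centralizer (P : Set G) := by
  rw [Subgroup.mem_centralizer_iff]
  intro z hz
  have hz' : (⟨z, hz⟩ : P) ∈ Subgroup.zpowers (⟨x, hx⟩ : P) := by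
    apply mem_zpowers_of_prime_card hP
    intro h
    exact hx1 (congrArg (fun t : P => (t : G)) h)
  obtain ⟨j, hj⟩ := Subgroup.mem_zpowers_iff.1 hz'
  have hj' : x ^ j = z := by
    have := congrArg (fun t : P => (t : G)) hj
    simpa using this
  have hc : Commute g x := hgx
  rw [← hj']
  exact (hc.zpow_right j).eq.symm

theorem ebv : EbvStmt := by
  classical
  intro ℓ hℓ F _ G _ _ P hP V _ _ ρ a ha v hv
  have := Fintype.ofFinite G
  have := Fintype.ofFinite P
  have h0 : evV ρ a v - evV ρ (br P a) v =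
      ∑ g ∈ Finset.univ.filter (fun g : G => g ∉ Subgroup.centralizer (P : Set G)),
        a g • ρ g v := by
    rw [evV, evV, finsum_eq_sum_of_fintype, finsum_eq_sum_of_fintype, LinearMap.sum_apply,
      LinearMap.sum_apply, ← Finset.sum_sub_distrib, Finset.sum_filter]
    apply Finset.sum_congr rfl
    intro g _
    rw [LinearMap.smul_apply, LinearMap.smul_apply]
    by_cases h : g ∈ Subgroup.centralizer (P : Set G)
    · rw [if_neg (not_not.2 h)]
      unfold br
      rw [if_pos h, sub_self]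
    · rw [if_pos h]
      unfold br
      rw [if_neg h, zero_smul, sub_zero]
  rw [h0]
  apply CY.H5.orb_sum P
  · intro g hg p hp
    rw [Finset.mem_filter] at hg ⊢
    refine ⟨Finset.mem_univ _, fun h => hg.2 ?_⟩
    rw [Subgroup.mem_centralizer_iff] at h ⊢
    intro z hz
    have hz2 : p * z * p⁻¹ ∈ P := P.mul_mem (P.mul_mem hp hz) (P.inv_mem hp)
    have h2 := h _ hz2
    have h3 : p * (z * g) * p⁻¹ = p * (g * z) * p⁻¹ := by
      calc p * (z * g) * p⁻¹ = p * z * p⁻¹ * (p * g * p⁻¹) := by group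
        _ = p * g * p⁻¹ * (p * z * p⁻¹) := h2
        _ = p * (g * z) * p⁻¹ := by group
    exact mul_left_cancel (mul_right_cancel h3)
  · intro g hg p hp hpg
    rw [Finset.mem_filter] at hg
    by_contra hp1
    apply hg.2
    refine cent_prime hP hp hp1 ?_
    exact (mul_inv_eq_iff_eq_mul.1 hpg).symm
  · intro g _
    refine ⟨a g • ρ g v, ?_⟩
    rw [finsum_eq_sum_of_fintype, LinearMap.sum_apply]
    apply Finset.sum_congr rfl
    intro p _
    have h2 : ρ (p : G)⁻¹ v = v := hv _ (P.inv_mem p.2)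
    rw [ha p p.2 g, map_mul, map_mul, Module.End.mul_apply, Module.End.mul_apply, h2, map_smul]

end Pool.Agent.PP.D1.H26
end
end -- Pool.Agent.Helper26_D1.Ebv

section -- Pool.Agent.Helper20_D2.Fra

/-!
# Part D2, module FRA: if `fixW ≤ rngW` then `V` is projective for `N`
-/

open scoped BigOperators

set_option linter.unusedSectionVars false

noncomputable section

namespace Pool.Agent.PP.CD2.H20

open Pool.Agent.Helper51_AWC Pool.Agent.Helper79_WRA Pool.Agent.PP

/-- the generators of the subgroup of order `ℓ` -/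
theorem zp_eq {G : Type} [Group G] [Finite G] {ℓ n : ℕ} [hℓ : Fact ℓ.Prime] {y y₁ : G}
    (hy : orderOf y = ℓ ^ (n + 1)) (hy₁ : y₁ ∈ Subgroup.zpowers y) (ho : orderOf y₁ = ℓ) :
    Subgroup.zpowers (y ^ ℓ ^ n) = Subgroup.zpowers y₁ := by
  have hpos : 0 < ℓ := hℓ.out.pos
  have hz : orderOf (y ^ ℓ ^ n) = ℓ := by
    rw [orderOf_pow, hy, Nat.gcd_eq_right (pow_dvd_pow ℓ (Nat.le_succ n)), pow_succ,
      Nat.mul_div_cancel_left _ (pow_pos hpos n)]
  symm
  apply Subgroup.eq_of_le_of_card_ge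
  · rw [Subgroup.zpowers_le]
    rw [← mem_powers_iff_mem_zpowers] at hy₁
    obtain ⟨k, rfl⟩ := hy₁
    have h1 : (y ^ k) ^ ℓ = 1 := by
      have := pow_orderOf_eq_one (y ^ k)
      rwa [ho] at this
    rw [← pow_mul] at h1
    have h2 := orderOf_dvd_of_pow_eq_one h1
    rw [hy, pow_succ] at h2
    obtain ⟨m, rfl⟩ := Nat.dvd_of_mul_dvd_mul_right hpos h2
    change y ^ (ℓ ^ n * m) ∈ _
    rw [pow_mul]
    exact Subgroup.pow_mem _ (Subgroup.mem_zpowers _) m
  · rw [Nat.card_zpowers, Nat.card_zpowers, hz, ho]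

/-- `(ρ y - 1) ^ (ℓ ^ n) = ρ (y ^ ℓ ^ n) - 1` -/
theorem sub_pow_q {F : Type} [Field F] {G : Type} [Group G] {V : Type} [AddCommGroup V]
    [Module F V] (ℓ : ℕ) [Fact ℓ.Prime] [CharP F ℓ] (ρ : Representation F G V) (y : G) (n : ℕ) :
    (ρ y - 1) ^ (ℓ ^ n) = ρ (y ^ ℓ ^ n) - 1 := by
  have h : ((Polynomial.X : Polynomial F) - 1) ^ (ℓ ^ n) = Polynomial.X ^ (ℓ ^ n) - 1 := by
    rw [sub_pow_char_pow, one_pow]
  have h2 := congrArg (Polynomial.aeval (R := F) (A := Module.End F V) (ρ y)) h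
  simp only [map_pow, map_sub, Polynomial.aeval_X, map_one] at h2
  rw [map_pow]
  exact h2

/-- the step from the subgroup of order `ℓ` to `P` -/
theorem fix_nrm_up {F : Type} [Field F] {V : Type} [AddCommGroup V] [Module F V]
    (T : Module.End F V) (q' q : ℕ) (hq' : 1 ≤ q') (hq : 2 * q' ≤ q)
    (h : ∀ v, (T ^ q') v = 0 → ∃ u, v = (T ^ (q - q')) u) :
    ∀ v, T v = 0 → ∃ u, v = (T ^ (q - 1)) u := by
  intro v hv
  have h1 : (T ^ q') v = 0 := by
    obtain ⟨r, rfl⟩ : ∃ r, q' = r + 1 := ⟨q' - 1, by omega⟩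
    rw [pow_succ, Module.End.mul_apply, hv, map_zero]
  obtain ⟨u, hu⟩ := h v h1
  have h2 : (T ^ q') ((T ^ (q - 2 * q' + 1)) u) = 0 := by
    rw [← Module.End.mul_apply, ← pow_add]
    have e : q' + (q - 2 * q' + 1) = 1 + (q - q') := by omega
    rw [e, pow_add, pow_one, Module.End.mul_apply, ← hu, hv]
  obtain ⟨u', hu'⟩ := h _ h2
  refine ⟨u', ?_⟩
  have e1 : q - q' = (q' - 1) + (q - 2 * q' + 1) := by omega
  have e2 : q - 1 = (q' - 1) + (q - q') := by omega
  rw [e2, pow_add, Module.End.mul_apply, ← hu', ← Module.End.mul_apply, ← pow_add, ← e1]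
  exact hu

/-- the induction for `w` -/
theorem ker_pow_w {F : Type} [Field F] {V : Type} [AddCommGroup V] [Module F V]
    (W B : Module.End F V) (q : ℕ) (hq : 2 ≤ q) (c2 : ∀ v, B (B v) = B v)
    (c3 : ∀ v, B (W v) = W v) (c4 : ∀ v, W (B v) = W v)
    (hfix : ∀ v, B v = v → W v = 0 → ∃ u, v = (W ^ (q - 1)) u) :
    ∀ j, j ≤ q → ∀ v, B v = v → (W ^ j) v = 0 → ∃ u, v = (W ^ (q - j)) u := by
  have c3' : ∀ (j : ℕ) (v : V), B v = v → B ((W ^ j) v) = (W ^ j) v := by
    intro j v hv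
    rcases j with _ | j
    · rw [pow_zero]; exact hv
    · rw [pow_succ', Module.End.mul_apply, c3]
  intro j
  induction j with
  | zero =>
    intro _ v _ hv
    rw [pow_zero] at hv
    refine ⟨0, ?_⟩
    rw [map_zero]
    exact hv
  | succ j ih =>
    intro hj v hBv hv
    have hz : W ((W ^ j) v) = 0 := by
      rw [← Module.End.mul_apply, ← pow_succ']
      exact hv
    obtain ⟨u₁, hu₁⟩ := hfix _ (c3' j v hBv) hz
    have hu2 : (W ^ (q - 1)) (B u₁) = (W ^ (q - 1)) u₁ := by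
      obtain ⟨r, hr⟩ : ∃ r, q - 1 = r + 1 := ⟨q - 2, by omega⟩
      rw [hr, pow_succ, Module.End.mul_apply, Module.End.mul_apply, c4]
    have hB : B ((W ^ (q - 1 - j)) (B u₁)) = (W ^ (q - 1 - j)) (B u₁) := c3' _ _ (c2 u₁)
    obtain ⟨u', hu'⟩ := ih (by omega) (v - (W ^ (q - 1 - j)) (B u₁))
      (by rw [map_sub, hBv, hB]) (by
        rw [map_sub, ← Module.End.mul_apply (W ^ j) (W ^ (q - 1 - j)), ← pow_add]
        have e : j + (q - 1 - j) = q - 1 := by omega
        rw [e, hu2, ← hu₁, sub_self])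
    refine ⟨B u₁ + W u', ?_⟩
    have e1 : q - (j + 1) = q - 1 - j := by omega
    have e2 : q - j = q - (j + 1) + 1 := by omega
    rw [map_add, ← Module.End.mul_apply (W ^ (q - (j + 1))) W, ← pow_succ, ← e2, ← hu', e1]
    abel

/-- FRA -/
theorem fra (hwgt : WgtStmt) (hfrc : FrcStmt) (hebv : EbvStmt) : FraStmt := by
  intro ℓ hℓ F _ hF G _ _ n N P y₁ b w h V _ _ _ ρ hb hfix
  have := hF.char
  have := Fintype.ofFinite G
  have hq2 : 2 ≤ ℓ ^ (n + 1) := by
    calc 2 ≤ ℓ := hℓ.out.two_le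
      _ = ℓ ^ 1 := (pow_one _).symm
      _ ≤ ℓ ^ (n + 1) := Nat.pow_le_pow_right hℓ.out.pos (by omega)
  have hq1 : 1 ≤ ℓ ^ n := Nat.one_le_iff_ne_zero.2 (pow_ne_zero _ hℓ.out.ne_zero)
  have hqq : 2 * ℓ ^ n ≤ ℓ ^ (n + 1) := by
    rw [pow_succ, mul_comm]
    exact Nat.mul_le_mul_left _ hℓ.out.two_le
  have hqs : ℓ ^ (n + 1) - ℓ ^ n = ℓ ^ n * (ℓ - 1) := by
    rw [pow_succ, Nat.mul_sub, mul_one]
  obtain ⟨c1, c2, c3, c4, c5, c6, c7, c8, c9, c10, c11⟩ := stw ℓ F hF G n N P y₁ b w h V ρ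
  have claim1 := ker_pow_w (evV ρ w) (evV ρ (bY y₁ b)) (ℓ ^ (n + 1)) hq2 c2 c3 c4 (by
    intro v h1 h2
    obtain ⟨u, hu⟩ := hfix (show v ∈ fixW ρ (bY y₁ b) w from ⟨h1, h2⟩)
    exact ⟨u, hu.symm⟩)
  have hcard1 : Nat.card (Subgroup.zpowers y₁) = ℓ := by rw [Nat.card_zpowers, h.ord]
  have hmem1 : y₁ ∈ NY y₁ := Subgroup.le_normalizer (Subgroup.mem_zpowers y₁)
  -- step 2
  have step2 : fixV ρ (Subgroup.zpowers y₁) ≤ nrmV ρ (Subgroup.zpowers y₁) := by
    intro v hv
    have h1 := hebv ℓ F G (Subgroup.zpowers y₁) hcard1 V ρ b (fun p _ x => h.idem.1 x p) v hv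
    rw [hb] at h1
    change v - evV ρ (bY y₁ b) v ∈ _ at h1
    have h2 : evV ρ (bY y₁ b) v ∈ nrmV ρ (Subgroup.zpowers y₁) := by
      have e1 : ((evV ρ w) ^ (ℓ ^ n)) (evV ρ (bY y₁ b) v) = 0 := by
        rw [c11, c2, ← c1 y₁ hmem1, hv y₁ (Subgroup.mem_zpowers y₁), sub_self]
      obtain ⟨u, hu⟩ := claim1 (ℓ ^ n) (by omega) _ (c2 v) e1
      rw [hu, hqs, pow_mul]
      have e2 : (evV ρ w) ^ (ℓ ^ n) = (ρ y₁ - 1) * evV ρ (bY y₁ b) := by
        apply LinearMap.ext
        intro x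
        rw [c11]
        rfl
      have e3 : Commute (ρ y₁ - 1) (evV ρ (bY y₁ b)) := by
        apply Commute.sub_left _ (Commute.one_left _)
        apply LinearMap.ext
        intro x
        exact (c1 y₁ hmem1 x).symm
      rw [e2, e3.mul_pow, Module.End.mul_apply]
      unfold nrmV
      rw [H36.nrm_eq (D66.isP hcard1) y₁ rfl ρ, hcard1]
      exact ⟨_, rfl⟩
    have h3 := add_mem h1 h2
    rwa [sub_add_cancel] at h3
  -- step 3
  have hcyc := h.cyc
  obtain ⟨⟨y, hyP⟩, hgen⟩ := hcyc.exists_generator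
  have hyz : Subgroup.zpowers y = P := by
    apply le_antisymm
    · rw [Subgroup.zpowers_le]
      exact hyP
    · intro x hx
      obtain ⟨k, hk⟩ := Subgroup.mem_zpowers_iff.1 (hgen ⟨x, hx⟩)
      rw [Subgroup.mem_zpowers_iff]
      refine ⟨k, ?_⟩
      have := congrArg Subtype.val hk
      simpa using this
  have hoy : orderOf y = ℓ ^ (n + 1) := by rw [← Nat.card_zpowers, hyz, h.card]
  have hz := zp_eq hoy (by rw [hyz]; exact h.mem) h.ord
  have hP : IsPGroup ℓ P := IsPGroup.of_card h.card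
  have step3 : fixV ρ P ≤ nrmV ρ P := by
    intro v hv
    rw [D66.mem_fix hyz ρ] at hv
    unfold nrmV
    rw [H36.nrm_eq hP y hyz ρ, h.card]
    obtain ⟨u, hu⟩ := fix_nrm_up (ρ y - 1) (ℓ ^ n) (ℓ ^ (n + 1)) hq1 hqq (by
      intro x hx
      have h1 : x ∈ fixV ρ (Subgroup.zpowers y₁) := by
        rw [D66.mem_fix hz ρ, ← sub_pow_q ℓ ρ y n]
        exact hx
      have h2 := step2 h1
      unfold nrmV at h2
      rw [H36.nrm_eq (D66.isP hcard1) (y ^ ℓ ^ n) hz ρ, hcard1, ← sub_pow_q ℓ ρ y n, ← pow_mul,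
        ← hqs] at h2
      obtain ⟨u, hu⟩ := h2
      exact ⟨u, hu.symm⟩) v hv
    exact ⟨u, hu.symm⟩
  -- step 4
  obtain ⟨φ, hφ⟩ := hfrc ℓ F hF.char G P hP hcyc V ρ step3
  obtain ⟨c, z, hc, hz, hzp, hbz⟩ := h.prj
  obtain ⟨-, hw⟩ := hwgt F G N P h.le
  obtain ⟨-, hw2⟩ := hw V V ρ ρ c hc
  have hcomm := D1.H91.evV_comm ρ P z hzp
  refine ⟨evV ρ z ∘ₗ φ, ?_⟩
  rw [← hw2, D1.H91.trP_comp _ _ _ _ hcomm, hφ, LinearMap.comp_id,
    ← D1.H91.evV_prj ρ b c z hbz]
  apply LinearMap.ext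
  intro v
  rw [hb]
  rfl

end Pool.Agent.PP.CD2.H20
end
end -- Pool.Agent.Helper20_D2.Fra
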