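import Pool.Agent.Helper12_AWB.B112
import Pool.Agent.Helper12_AWB.B147
import Pool.Agent.Helper12_AWB.B148
import Pool.Agent.Helper12_AWB.B244
import Pool.Agent.Helper12_AWB.B246

/-!
# Merged copies (generated) of the modules

* `Pool.Agent.Helper26_D2.Brq`
* `Pool.Agent.Helper26_D2.Tr`
* `Pool.Agent.Helper17_D2.C4d`
* `Pool.Agent.Helper26_D2.Brs`
* `Pool.Agent.Helper66_D2.Mcq`
* `Pool.Agent.Helper75_D2.Chd`
-/

set_option autoImplicit false

section -- Pool.Agent.Helper26_D2.Brq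

/-!
# Squad PP, part D2, module BRQ: the Brauer map and the relative trace
-/

open scoped BigOperators

noncomputable section

namespace Pool.Agent.PP.CD2.H26

open Pool.Agent.PP Pool.Agent.Helper51_AWC Pool.Agent.Helper79_WRA Pool.Agent.PP.D1.H26

/-- a cyclic group has one subgroup of order `ℓ` -/
theorem mem_zp {G : Type} [Group G] [Finite G] {ℓ : ℕ} [hℓ : Fact ℓ.Prime] {P : Subgroup G}
    (hc : IsCyclic P) {y z : G} (hy : y ∈ P) (ho : orderOf y = ℓ) (hz : z ∈ P) (hzl : z ^ ℓ = 1) :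
    z ∈ Subgroup.zpowers y := by
  classical
  have := Fintype.ofFinite P
  have h1 := IsCyclic.card_pow_eq_one_le (α := P) hℓ.out.pos
  have h2 : Nat.card (Subgroup.zpowers (⟨y, hy⟩ : P)) = ℓ := by
    rw [Nat.card_zpowers, ← ho]
    exact Subgroup.orderOf_mk y hy
  have h3 : (Set.Finite.toFinset (Set.toFinite (Subgroup.zpowers (⟨y, hy⟩ : P) : Set P))) ⊆
      Finset.univ.filter (fun a : P => a ^ ℓ = 1) := by
    intro a ha
    rw [Set.Finite.mem_toFinset, SetLike.mem_coe] at ha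
    rw [Finset.mem_filter]
    refine ⟨Finset.mem_univ _, ?_⟩
    obtain ⟨j, rfl⟩ := Subgroup.mem_zpowers_iff.1 ha
    have h4 : (⟨y, hy⟩ : P) ^ ℓ = 1 := by
      apply Subtype.ext
      rw [Subgroup.coe_pow, ← ho, pow_orderOf_eq_one]
      rfl
    rw [← zpow_natCast, ← zpow_mul, mul_comm, zpow_mul, zpow_natCast, h4, one_zpow]
  have h5 : (Set.Finite.toFinset (Set.toFinite (Subgroup.zpowers (⟨y, hy⟩ : P) : Set P))) =
      Finset.univ.filter (fun a : P => a ^ ℓ = 1) := by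
    apply Finset.eq_of_subset_of_card_le h3
    refine h1.trans ?_
    rw [← Set.ncard_eq_toFinset_card]
    have h6 : (Subgroup.zpowers (⟨y, hy⟩ : P) : Set P).ncard = ℓ := by
      rw [← h2]
      exact (Nat.card_coe_set_eq _).symm
    rw [h6]
  have h7 : (⟨z, hz⟩ : P) ∈ Finset.univ.filter (fun a : P => a ^ ℓ = 1) := by
    rw [Finset.mem_filter]
    refine ⟨Finset.mem_univ _, ?_⟩
    apply Subtype.ext
    rw [Subgroup.coe_pow]
    exact hzl
  rw [← h5, Set.Finite.mem_toFinset, SetLike.mem_coe] at h7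
  obtain ⟨j, hj⟩ := Subgroup.mem_zpowers_iff.1 h7
  have h8 := congrArg (fun t : P => (t : G)) hj
  refine Subgroup.mem_zpowers_iff.2 ⟨j, ?_⟩
  simpa using h8

/-- FREE -/
theorem free {G : Type} [Group G] [Finite G] {ℓ : ℕ} [hℓ : Fact ℓ.Prime] {P : Subgroup G}
    (hc : IsCyclic P) {y g u : G} (hy : y ∈ P) (ho : orderOf y = ℓ) (hu : u ∈ Subgroup.zpowers y)
    (hu1 : u ≠ 1) (hg : g⁻¹ * u * g ∈ P) : g ∈ NY y := by
  have hcard : Nat.card (Subgroup.zpowers y) = ℓ := by
    rw [Nat.card_zpowers, ho]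
  refine norm_prime (P := Subgroup.zpowers y) hcard hu hu1 ?_
  refine mem_zp hc hy ho hg ?_
  have h1 : u ^ ℓ = 1 := by
    obtain ⟨j, rfl⟩ := Subgroup.mem_zpowers_iff.1 hu
    rw [← zpow_natCast, ← zpow_mul, mul_comm, zpow_mul, zpow_natCast, ← ho, pow_orderOf_eq_one,
      one_zpow]
  have h2 := conj_pow (a := g⁻¹) (b := u) (i := ℓ)
  rw [inv_inv] at h2
  rw [h2, h1]
  group

/-- the action of `A × B` on `G` from both sides -/
@[reducible] def bact2 {G : Type} [Group G] (A B : Subgroup G) : MulAction (A × B) G where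
  smul k g := (k.1 : G) * g * (k.2 : G)⁻¹
  one_smul g := by
    change (1 : G) * g * (1 : G)⁻¹ = g
    simp
  mul_smul k k' g := by
    change ((k.1 * k'.1 : A) : G) * g * ((k.2 * k'.2 : B) : G)⁻¹ =
      (k.1 : G) * ((k'.1 : G) * g * (k'.2 : G)⁻¹) * (k.2 : G)⁻¹
    push_cast
    group

theorem bY_pos {F : Type} [Field F] {G : Type} [Group G] {y x : G} (a : G → F) (hx : x ∈ CY y) :
    bY y a x = a x := by
  classical
  unfold bY br
  exact if_pos hx

theorem bY_neg {F : Type} [Field F] {G : Type} [Group G] {y x : G} (a : G → F) (hx : x ∉ CY y) :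
    bY y a x = 0 := by
  classical
  unfold bY br
  exact if_neg hx

/-- the normaliser acts on the centraliser -/
theorem conj_CY {G : Type} [Group G] {y g x : G} (hg : g ∈ NY y) :
    g⁻¹ * x * g ∈ CY y ↔ x ∈ CY y := by
  have key : ∀ g ∈ NY y, ∀ x ∈ CY y, g⁻¹ * x * g ∈ CY y := by
    intro g hg x hx
    rw [CY, Subgroup.mem_centralizer_iff] at hx ⊢
    intro h hh
    have h1 : g * h * g⁻¹ ∈ Subgroup.zpowers y :=
      (Subgroup.mem_normalizer_iff.1 hg h).1 hh
    have h2 := hx _ h1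
    have h3 : g⁻¹ * (g * h * g⁻¹ * x) * g = g⁻¹ * (x * (g * h * g⁻¹)) * g := by rw [h2]
    have e1 : h * (g⁻¹ * x * g) = g⁻¹ * (g * h * g⁻¹ * x) * g := by group
    have e2 : g⁻¹ * x * g * h = g⁻¹ * (x * (g * h * g⁻¹)) * g := by group
    rw [e1, e2, h3]
  refine ⟨fun h => ?_, key g hg x⟩
  have h1 := key g⁻¹ (Subgroup.inv_mem _ hg) _ h
  have e : g⁻¹⁻¹ * (g⁻¹ * x * g) * g⁻¹ = x := by group
  rwa [e] at h1

theorem brq (frw : FrwStmt) : BrqStmt := by
  classical
  intro ℓ hℓ F _ hF G _ _ n N P y₁ hPN hcyc hcard hy ho c c₁ a hc hc₁ ha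
  have := Fintype.ofFinite G
  have := Fintype.ofFinite P
  have := Fintype.ofFinite (Subgroup.zpowers y₁)
  have hchar : CharP F ℓ := hF.char
  have hP1P : Subgroup.zpowers y₁ ≤ P := by
    rw [Subgroup.zpowers_le]
    exact hy
  -- `P` normalises `P₁`
  have hPn : P ≤ NY y₁ := by
    intro p hp
    rw [NY, Subgroup.mem_normalizer_iff]
    have hcom : ∀ s ∈ P, ∀ t ∈ P, s * t = t * s := by
      intro s hs t ht
      have hcg := hcyc.commGroup
      have h1 := mul_comm' (⟨s, hs⟩ : P) ⟨t, ht⟩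
      exact congrArg (fun r : P => (r : G)) h1
    intro h
    constructor
    · intro hh
      rw [hcom p hp h (hP1P hh), mul_inv_cancel_right]
      exact hh
    · intro hh
      have h2 : h ∈ P := by
        have h3 := P.mul_mem (P.mul_mem (P.inv_mem hp) (hP1P hh)) hp
        have e : p⁻¹ * (p * h * p⁻¹) * p = h := by group
        rwa [e] at h3
      rw [hcom p hp h h2, mul_inv_cancel_right] at hh
      exact hh
  funext x
  by_cases hx : x ∈ CY y₁
  swap
  · rw [bY_neg _ hx]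
    symm
    rw [finsum_eq_sum_of_fintype]
    apply Finset.sum_eq_zero
    intro g _
    by_cases hg : g ∈ NY y₁
    · rw [bY_neg _ (fun h => hx ((conj_CY hg).1 h)), mul_zero]
    · rw [hc₁.supp g (fun h => hg h.2), zero_mul]
  rw [bY_pos _ hx]
  obtain ⟨h, hdef⟩ : ∃ h : G → F, h = fun g => a (g⁻¹ * x * g) := ⟨_, rfl⟩
  have hh : ∀ g : G, ∀ p ∈ P, h (g * p) = h g := by
    intro g p hp
    rw [hdef]
    have h1 := ha p⁻¹ (P.inv_mem hp) (g⁻¹ * x * g)
    change a ((g * p)⁻¹ * x * (g * p)) = a (g⁻¹ * x * g)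
    rw [← h1]
    congr 1
    group
  have hhl : ∀ u ∈ Subgroup.zpowers y₁, ∀ g : G, h (u * g) = h g := by
    intro u hu g
    rw [hdef]
    have h1 : u * x = x * u := by
      rw [CY, Subgroup.mem_centralizer_iff] at hx
      exact hx u hu
    have h2 : u⁻¹ * x * u = x := by
      rw [mul_assoc, ← h1, inv_mul_cancel_left]
    change a ((u * g)⁻¹ * x * (u * g)) = a (g⁻¹ * x * g)
    have h3 : (u * g)⁻¹ * x * (u * g) = g⁻¹ * (u⁻¹ * x * u) * g := by group
    rw [h3, h2]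
  obtain ⟨X, hXdef⟩ : ∃ X : Finset G, X = Finset.univ.filter
      (fun g : G => g ∈ N ∧ g ∉ NY y₁) := ⟨_, rfl⟩
  obtain ⟨X₁, hX₁def⟩ : ∃ X₁ : Finset G, X₁ = Finset.univ.filter
      (fun g : G => g ∈ N ⊓ NY y₁) := ⟨_, rfl⟩
  have hXm : ∀ g, g ∈ X ↔ g ∈ N ∧ g ∉ NY y₁ := by
    intro g
    rw [hXdef, Finset.mem_filter]
    simp
  have hX₁m : ∀ g, g ∈ X₁ ↔ g ∈ N ⊓ NY y₁ := by
    intro g
    rw [hX₁def, Finset.mem_filter]
    simp
  have hXr : ∀ g ∈ X, ∀ p ∈ P, g * p ∈ X := by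
    intro g hg p hp
    rw [hXm] at hg ⊢
    exact ⟨N.mul_mem hg.1 (hPN hp), fun h1 => hg.2
      ((Subgroup.mul_mem_cancel_right _ (hPn hp)).1 h1)⟩
  have hXl : ∀ g ∈ X, ∀ p ∈ P, p * g ∈ X := by
    intro g hg p hp
    rw [hXm] at hg ⊢
    exact ⟨N.mul_mem (hPN hp) hg.1, fun h1 => hg.2
      ((Subgroup.mul_mem_cancel_left _ (hPn hp)).1 h1)⟩
  have hX₁r : ∀ g ∈ X₁, ∀ p ∈ P, g * p ∈ X₁ := by
    intro g hg p hp
    rw [hX₁m] at hg ⊢
    exact Subgroup.mul_mem _ hg ⟨hPN hp, hPn hp⟩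
  have hcs : ∀ g ∈ N, ∑ p : P, c (g * p) = 1 := by
    intro g hg
    have h1 := hc.sum g hg
    rwa [finsum_eq_sum_of_fintype] at h1
  have hc₁s : ∀ g ∈ X₁, ∑ p : P, c₁ (g * p) = 1 := by
    intro g hg
    have h1 := hc₁.sum g ((hX₁m g).1 hg)
    rwa [finsum_eq_sum_of_fintype] at h1
  -- the two parts of the trace
  have hspl : (∑ᶠ g : G, c g * a (g⁻¹ * x * g)) = ∑ g ∈ X₁, c g • h g + ∑ g ∈ X, c g • h g := by
    rw [finsum_eq_sum_of_fintype]
    have hdis : Disjoint X₁ X := by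
      rw [Finset.disjoint_left]
      intro g h1 h2
      exact ((hXm g).1 h2).2 ((hX₁m g).1 h1).2
    rw [← Finset.sum_union hdis]
    symm
    rw [hdef]
    apply Finset.sum_subset (Finset.subset_univ _)
    intro g _ hg
    have h3 : g ∉ N := by
      intro h4
      apply hg
      rw [Finset.mem_union, hXm, hX₁m]
      by_cases h5 : g ∈ NY y₁
      · exact Or.inl ⟨h4, h5⟩
      · exact Or.inr ⟨h4, h5⟩
    rw [hc.supp g h3, zero_smul]
  have h1st : ∑ g ∈ X₁, c g • h g = ∑ᶠ g : G, c₁ g * bY y₁ a (g⁻¹ * x * g) := by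
    rw [weights_eq P X₁ hX₁r c c₁ (fun g hg => hcs g ((hX₁m g).1 hg).1) hc₁s h
      (fun g _ p hp => hh g p hp), finsum_eq_sum_of_fintype, hdef]
    have h2 : ∑ g ∈ X₁, c₁ g • a (g⁻¹ * x * g) =
        ∑ g ∈ X₁, c₁ g * bY y₁ a (g⁻¹ * x * g) := by
      apply Finset.sum_congr rfl
      intro g hg
      rw [bY_pos _ ((conj_CY ((hX₁m g).1 hg).2).2 hx), smul_eq_mul]
    rw [h2]
    apply Finset.sum_subset (Finset.subset_univ _)
    intro g _ hg
    rw [hc₁.supp g (fun h3 => hg ((hX₁m g).2 h3)), zero_mul]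
  -- representatives of the double cosets
  obtain ⟨d, hd0, hd1⟩ : ∃ d : G → F, (∀ g, g ∉ X → d g = 0) ∧
      ∀ g ∈ X, ∑ k : Subgroup.zpowers y₁ × P, d ((k.1 : G) * g * (k.2 : G)⁻¹) = 1 := by
    obtain ⟨d, h1, h2⟩ := @frw F _ (Subgroup.zpowers y₁ × P) G _ _ _
      (bact2 (Subgroup.zpowers y₁) P) (X : Set G)
      (fun k g hg => by
        rw [Finset.mem_coe] at hg ⊢
        exact hXr _ (hXl g hg _ (hP1P k.1.2)) _ (P.inv_mem k.2.2))
      (fun k g hg hkg => by
        rw [Finset.mem_coe] at hg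
        have h3 : (k.1 : G) * g * (k.2 : G)⁻¹ = g := hkg
        have h4 : g⁻¹ * (k.1 : G) * g = k.2 := by
          have h5 : (k.1 : G) * g = g * k.2 := mul_inv_eq_iff_eq_mul.1 h3
          rw [mul_assoc, h5, inv_mul_cancel_left]
        have h6 : (k.1 : G) = 1 := by
          by_contra h7
          exact ((hXm g).1 hg).2 (free hcyc hy ho k.1.2 h7 (by rw [h4]; exact k.2.2))
        have h8 : (k.2 : G) = 1 := by
          rw [← h4, h6]
          group
        exact Prod.ext (Subtype.ext h6) (Subtype.ext h8))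
    refine ⟨d, fun g hg => h1 g (by rwa [Finset.mem_coe]), fun g hg => ?_⟩
    have h3 := h2 g (by rwa [Finset.mem_coe])
    rw [finsum_eq_sum_of_fintype] at h3
    exact h3
  have h2nd : ∑ g ∈ X, c g • h g = 0 := by
    have e1 : ∑ g ∈ X, c g • h g =
        ∑ g ∈ X, (∑ u : Subgroup.zpowers y₁, d ((u : G) * g)) • h g := by
      refine weights_eq P X hXr c _ (fun g hg => hcs g ((hXm g).1 hg).1) (fun g hg => ?_) h
        (fun g _ p hp => hh g p hp)
      rw [← hd1 g hg, Fintype.sum_prod_type, Finset.sum_comm]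
      apply Finset.sum_congr rfl
      intro u _
      refine Fintype.sum_equiv (Equiv.inv P) _ _ (fun p => ?_)
      simp [mul_assoc]
    rw [e1]
    have e2 : ∀ g ∈ X, (∑ u : Subgroup.zpowers y₁, d ((u : G) * g)) • h g =
        ∑ u : Subgroup.zpowers y₁, d ((u : G) * g) • h ((u : G) * g) := by
      intro g _
      rw [Finset.sum_smul]
      apply Finset.sum_congr rfl
      intro u _
      rw [hhl u u.2 g]
    rw [Finset.sum_congr rfl e2, Finset.sum_comm]
    have e3 : ∀ u : Subgroup.zpowers y₁, ∑ g ∈ X, d ((u : G) * g) • h ((u : G) * g) =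
        ∑ g ∈ X, d g • h g := by
      intro u
      exact sum_left P X hXl (fun g => d g • h g) (u : G) (hP1P u.2)
    rw [Finset.sum_congr rfl (fun u _ => e3 u), Finset.sum_const, Finset.card_univ]
    have e4 : Fintype.card (Subgroup.zpowers y₁) = ℓ := by
      rw [← Nat.card_eq_fintype_card, Nat.card_zpowers, ho]
    rw [e4, nsmul_eq_mul, CharP.cast_eq_zero, zero_mul]
  rw [hspl, h1st, h2nd, add_zero]

end Pool.Agent.PP.CD2.H26
end
end -- Pool.Agent.Helper26_D2.Brq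

section -- Pool.Agent.Helper26_D2.Tr

/-!
# Squad PP, part D2: the relative trace of functions
-/

open scoped BigOperators

set_option linter.unusedSectionVars false

noncomputable section

namespace Pool.Agent.PP.CD2.H26

open Pool.Agent.PP Pool.Agent.Helper51_AWC Pool.Agent.Helper79_WRA Pool.Agent.PP.D1.H26
open Pool.Agent.PP.CD2.H66 Pool.Agent.PP.H20

variable {F : Type} [Field F] {G : Type} [Group G] [Finite G]

/-- the conjugate `g a g⁻¹` -/
def cg (g : G) (a : G → F) : G → F := fun x => a (g⁻¹ * x * g)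

/-- the relative trace with weights `c` -/
def TrF (c a : G → F) : G → F := fun x => ∑ᶠ g : G, c g * a (g⁻¹ * x * g)

theorem TrF_eq [Fintype G] (c a : G → F) : TrF c a = ∑ g : G, c g • cg g a := by
  funext x
  rw [TrF, finsum_eq_sum_of_fintype, Finset.sum_apply]
  rfl

theorem cg_mul (g h : G) (a : G → F) : cg (g * h) a = cg g (cg h a) := by
  funext x
  unfold cg
  congr 1
  group

theorem cg_mulF (g : G) (a b : G → F) : cg g (mulF a b) = mulF (cg g a) (cg g b) :=
  conj_mulF g a b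

theorem cg_of_cm {N : Subgroup G} {a : G → F} (ha : CmF N a) {g : G} (hg : g ∈ N) :
    cg g a = a := by
  funext x
  have h := ha g⁻¹ (N.inv_mem hg) x
  rw [inv_inv] at h
  exact h

theorem cm_of_cg {N : Subgroup G} {a : G → F} (ha : ∀ g ∈ N, cg g a = a) : CmF N a := by
  intro c hc x
  have h := congrFun (ha c hc) (c * x * c⁻¹)
  unfold cg at h
  rw [← h]
  congr 1
  group

theorem mulF_sum' {ι : Type} (s : Finset ι) (e : ι → G → F) (a : G → F) :
    mulF a (∑ k ∈ s, e k) = ∑ k ∈ s, mulF a (e k) := by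
  apply toMA_injective
  rw [toMA_mulF, toMA_sum', toMA_sum', Finset.mul_sum]
  exact Finset.sum_congr rfl fun k _ => by rw [toMA_mulF]

theorem sum_mulF' {ι : Type} (s : Finset ι) (e : ι → G → F) (a : G → F) :
    mulF (∑ k ∈ s, e k) a = ∑ k ∈ s, mulF (e k) a := by
  apply toMA_injective
  rw [toMA_mulF, toMA_sum', toMA_sum', Finset.sum_mul]
  exact Finset.sum_congr rfl fun k _ => by rw [toMA_mulF]

/-- multiplication by an element which commutes with `N` -/
theorem mul_TrF {N P : Subgroup G} {c m : G → F} (hc : IsW N P c) (hm : CmF N m) (a : G → F) :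
    mulF m (TrF c a) = TrF c (mulF m a) := by
  have := Fintype.ofFinite G
  rw [TrF_eq, TrF_eq, mulF_sum']
  apply Finset.sum_congr rfl
  intro g _
  by_cases hg : g ∈ N
  · rw [mulF_smul, cg_mulF, cg_of_cm hm hg]
  · rw [hc.supp g hg, zero_smul, zero_smul, mulF_zero]

theorem TrF_mul {N P : Subgroup G} {c m : G → F} (hc : IsW N P c) (hm : CmF N m) (a : G → F) :
    mulF (TrF c a) m = TrF c (mulF a m) := by
  have := Fintype.ofFinite G
  rw [TrF_eq, TrF_eq, sum_mulF']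
  apply Finset.sum_congr rfl
  intro g _
  by_cases hg : g ∈ N
  · rw [smul_mulF, cg_mulF, cg_of_cm hm hg]
  · rw [hc.supp g hg, zero_smul, zero_smul, zero_mulF]

theorem TrF_sp {N P : Subgroup G} {c a : G → F} (hc : IsW N P c) (ha : SpF N a) :
    SpF N (TrF c a) := by
  have := Fintype.ofFinite G
  rw [TrF_eq]
  refine SpF.sum fun g _ => ?_
  by_cases hg : g ∈ N
  · refine SpF.smul _ fun x hx => ha _ fun h => hx ?_
    have h1 := N.mul_mem (N.mul_mem hg h) (N.inv_mem hg)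
    have e : g * (g⁻¹ * x * g) * g⁻¹ = x := by group
    rwa [e] at h1
  · rw [hc.supp g hg, zero_smul]
    exact SpF.zero _

/-- the relative trace does not depend on the weights -/
theorem TrF_indep {N P : Subgroup G} (hPN : P ≤ N) {c c' a : G → F} (hc : IsW N P c)
    (hc' : IsW N P c') (ha : CmF P a) : TrF c a = TrF c' a := by
  classical
  have := Fintype.ofFinite G
  have := Fintype.ofFinite P
  rw [TrF_eq, TrF_eq]
  have key : ∀ d : G → F, IsW N P d → ∑ g : G, d g • cg g a =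
      ∑ g ∈ Finset.univ.filter (fun g : G => g ∈ N), d g • cg g a := by
    intro d hd
    symm
    apply Finset.sum_subset (Finset.subset_univ _)
    intro g _ hg
    rw [hd.supp g (fun h => hg (Finset.mem_filter.2 ⟨Finset.mem_univ _, h⟩)), zero_smul]
  rw [key c hc, key c' hc']
  have hmem : ∀ g : G, g ∈ Finset.univ.filter (fun g : G => g ∈ N) ↔ g ∈ N := by
    intro g
    rw [Finset.mem_filter]
    simp
  refine weights_eq P _ (fun g hg p hp => ?_) c c' (fun g hg => ?_) (fun g hg => ?_) _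
    (fun g _ p hp => ?_)
  · rw [hmem] at hg ⊢
    exact N.mul_mem hg (hPN hp)
  · have h1 := hc.sum g ((hmem g).1 hg)
    rwa [finsum_eq_sum_of_fintype] at h1
  · have h1 := hc'.sum g ((hmem g).1 hg)
    rwa [finsum_eq_sum_of_fintype] at h1
  · rw [cg_mul, cg_of_cm ha hp]

/-- the relative trace commutes with `N` -/
theorem TrF_cm {N P : Subgroup G} (hPN : P ≤ N) {c a : G → F} (hc : IsW N P c) (ha : CmF P a) :
    CmF N (TrF c a) := by
  have := Fintype.ofFinite G
  have := Fintype.ofFinite P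
  refine cm_of_cg fun m hm => ?_
  have hw : IsW N P (fun g => c (m⁻¹ * g)) := by
    refine ⟨fun g hg => hc.supp _ fun h => hg ?_, fun g hg => ?_⟩
    · have h1 := N.mul_mem hm h
      rwa [mul_inv_cancel_left] at h1
    · have h1 := hc.sum (m⁻¹ * g) (N.mul_mem (N.inv_mem hm) hg)
      rw [← h1]
      congr 1
      funext p
      rw [mul_assoc]
  have h2 : cg m (TrF c a) = TrF (fun g => c (m⁻¹ * g)) a := by
    funext x
    unfold cg TrF
    rw [finsum_eq_sum_of_fintype, finsum_eq_sum_of_fintype]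
    refine Fintype.sum_equiv (Equiv.mulLeft m) _ _ fun g => ?_
    change c g * a (g⁻¹ * (m⁻¹ * x * m) * g) =
      c (m⁻¹ * (m * g)) * a ((m * g)⁻¹ * x * (m * g))
    rw [inv_mul_cancel_left]
    congr 2
    group
  rw [h2]
  exact TrF_indep hPN hw hc ha

end Pool.Agent.PP.CD2.H26
end
end -- Pool.Agent.Helper26_D2.Tr

section -- Pool.Agent.Helper17_D2.C4d

/-!
# Part D2, module C4D: the scalars of the counting lemma agree
-/

open scoped BigOperators

noncomputable section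

namespace Pool.Agent.PP.CD2.H17

open Pool.Agent.PP Pool.Agent.Helper51_AWC Pool.Agent.Helper79_WRA Pool.Agent.PP.BN.H66

section

variable {F : Type} [Field F] {G : Type} [Group G] [Finite G] {N : Subgroup G} [N.Normal]
  {n m : ℕ} {σ : N →* Matrix (Fin n) (Fin n) F}

/-- implementers transport the action of the group ring -/
theorem imp_ev {x : G} {X : Matrix (Fin n) (Fin n) F} (hX : Helper58_CL.Imp σ x X) (a : G → F)
    (v : Fin n → F) :
    X.mulVec (evV (mrep σ) (fun t : N => a t) v) =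
      evV (mrep σ) (fun t : N => a (x⁻¹ * t * x)) (X.mulVec v) := by
  classical
  have := Fintype.ofFinite N
  unfold evV
  rw [finsum_eq_sum_of_fintype, finsum_eq_sum_of_fintype, LinearMap.sum_apply,
    LinearMap.sum_apply, Matrix.mulVec_sum]
  refine Eq.trans (Finset.sum_congr rfl (fun g _ => ?_)) (Equiv.sum_comp
    (MulAut.conjNormal x : N ≃* N).toEquiv
    (fun g : N => ((fun t : N => a (x⁻¹ * t * x)) g • mrep σ g) (X.mulVec v)))
  have h1 : x⁻¹ * (((MulAut.conjNormal x : N ≃* N).toEquiv g : N) : G) * x = g := by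
    show x⁻¹ * ((MulAut.conjNormal x g : N) : G) * x = g
    rw [MulAut.conjNormal_apply]
    group
  show X.mulVec (a g • (σ g).mulVec v) =
    a (x⁻¹ * (((MulAut.conjNormal x : N ≃* N).toEquiv g : N) : G) * x) •
      (σ (MulAut.conjNormal x g)).mulVec (X.mulVec v)
  rw [h1, Matrix.mulVec_smul, Matrix.mulVec_mulVec, Matrix.mulVec_mulVec, hX.eq]

/-- what is needed of the pair `b₁`, `w` -/
structure Eqv (N : Subgroup G) (y₁ : G) (b₁ w : G → F) : Prop where
  hb : ∀ x ∈ NY y₁, ∀ g, b₁ (x⁻¹ * g * x) = b₁ g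
  hw : ∀ x ∈ NY y₁, ∃ u : G → F, (∀ g, g ∉ N → u g = 0) ∧ mulF w u = mulF u w ∧
    (fun g => w (x⁻¹ * g * x)) = mulF w u
  sw : ∀ g, g ∉ N → w g = 0

omit [N.Normal] in
theorem sw_of {ℓ k : ℕ} {P : Subgroup G} {y₁ : G} {b w : G → F} (h : D2S ℓ k N P y₁ b w) :
    SpF (N ⊓ CY y₁) w := by
  obtain ⟨m, e, i, h1, -, h3, h4⟩ := h.ums
  have h5 : w = ∑ t, mulF (e t) w := by
    conv_lhs => rw [← h4, ← h3]
    exact H26.sum_mulF' Finset.univ e w
  rw [h5]
  exact H20.spF_sum Finset.univ fun t _ => (h1 t).sw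

omit [N.Normal] in
theorem eqv_of {ℓ k : ℕ} {P : Subgroup G} {y₁ : G} {b w : G → F} (h : D2S ℓ k N P y₁ b w) :
    Eqv N y₁ (bY y₁ b) w := by
  refine ⟨fun x hx g => ?_, fun x hx => ?_, fun g hg => sw_of h g fun h1 => hg h1.1⟩
  · by_cases hg : g ∈ CY y₁
    · rw [H26.bY_pos b hg, H26.bY_pos b ((H26.conj_CY hx).2 hg)]
      have h1 := h.idem.1 g x⁻¹
      rwa [inv_inv] at h1
    · rw [H26.bY_neg b hg, H26.bY_neg b (fun h1 => hg ((H26.conj_CY hx).1 h1))]
  · obtain ⟨u, h1, h2, h3⟩ := h.eqv x hx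
    refine ⟨u, fun g hg => h1 g fun h4 => hg h4.1, ?_, h3⟩
    have h4 := H20.cmF_comm (sw_of h) h2
    rw [← ma_mul, ← ma_mul] at h4
    exact ma_injective h4

/-- implementers preserve the fixed space -/
theorem imp_fixW {y₁ : G} {b₁ w : G → F} (h : Eqv N y₁ b₁ w) (x : NY y₁)
    {X : Matrix (Fin n) (Fin n) F} (hX : Helper58_CL.Imp σ (x : G) X) (v : Fin n → F)
    (hv : v ∈ fixW (mrep σ) (fun t : N => b₁ t) (fun t : N => w t)) :
    X.mulVec v ∈ fixW (mrep σ) (fun t : N => b₁ t) (fun t : N => w t) := by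
  obtain ⟨hv1, hv2⟩ := hv
  refine ⟨?_, ?_⟩
  · have h1 := imp_ev hX b₁ v
    rw [hv1] at h1
    have h2 : (fun t : N => b₁ ((x : G)⁻¹ * t * x)) = fun t : N => b₁ t :=
      funext fun t => h.hb x x.2 t
    rw [h2] at h1
    exact h1.symm
  · obtain ⟨U, hU⟩ := hX.unit
    have hUX : Helper58_CL.Imp σ (x : G) (U : Matrix (Fin n) (Fin n) F) := by rw [hU]; exact hX
    have hi := D1.H76.imp_inv U hUX
    have h1 := imp_ev hi w (X.mulVec v)
    obtain ⟨u, hu1, hu2, hu3⟩ := h.hw (x : G)⁻¹ (Subgroup.inv_mem _ x.2)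
    have h2 : (fun t : N => w ((x : G)⁻¹⁻¹ * t * (x : G)⁻¹)) =
        mulF (fun t : N => u t) (fun t : N => w t) := by
      rw [← H75.mulF_res N w hu1, ← hu2, ← hu3]
    have h3 : ((U⁻¹ : (Matrix (Fin n) (Fin n) F)ˣ) : Matrix (Fin n) (Fin n) F).mulVec
        (X.mulVec v) = v := by
      rw [← hU, Matrix.mulVec_mulVec, Units.inv_mul, Matrix.one_mulVec]
    rw [h2, h3, H20.evV_mulF_apply, hv2, map_zero] at h1
    have h4 : X.mulVec (((U⁻¹ : (Matrix (Fin n) (Fin n) F)ˣ) : Matrix (Fin n) (Fin n) F).mulVec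
        (evV (mrep σ) (fun t : N => w t) (X.mulVec v))) = X.mulVec 0 := by rw [h1]
    rw [Matrix.mulVec_zero, Matrix.mulVec_mulVec, ← hU, Units.mul_inv, Matrix.one_mulVec, hU] at h4
    exact h4

/-- implementers preserve the image of `w ^ r` -/
theorem imp_rngW {y₁ : G} {b₁ w : G → F} (h : Eqv N y₁ b₁ w) (r : ℕ) (x : NY y₁)
    {X : Matrix (Fin n) (Fin n) F} (hX : Helper58_CL.Imp σ (x : G) X) (v : Fin n → F)
    (hv : v ∈ rngW (mrep σ) (fun t : N => w t) r) :
    X.mulVec v ∈ rngW (mrep σ) (fun t : N => w t) r := by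
  obtain ⟨v', rfl⟩ := hv
  obtain ⟨u, hu1, hu2, hu3⟩ := h.hw (x : G) x.2
  have h2 : (fun t : N => w ((x : G)⁻¹ * t * x)) =
      mulF (fun t : N => w t) (fun t : N => u t) := by
    rw [← H75.mulF_res N u h.sw, ← hu3]
  have h3 : mulF (fun t : N => w t) (fun t : N => u t) =
      mulF (fun t : N => u t) (fun t : N => w t) := by
    rw [← H75.mulF_res N u h.sw, ← H75.mulF_res N w hu1, hu2]
  have hc : Commute (evV (mrep σ) (fun t : N => w t)) (evV (mrep σ) (fun t : N => u t)) := by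
    have h4 := congrArg (evV (mrep σ)) h3
    rw [H20.evV_mulF, H20.evV_mulF] at h4
    exact h4
  have h5 : ∀ r : ℕ, X.mulVec (((evV (mrep σ) (fun t : N => w t)) ^ r) v') =
      ((evV (mrep σ) (fun t : N => w t) * evV (mrep σ) (fun t : N => u t)) ^ r) (X.mulVec v') := by
    intro r
    induction r with
    | zero => rfl
    | succ r ih =>
      rw [pow_succ', pow_succ', Module.End.mul_apply, imp_ev hX w, ih, h2, H20.evV_mulF]
      rfl
  rw [h5 r, hc.mul_pow, Module.End.mul_apply]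
  exact ⟨_, rfl⟩

variable {y₁ : G} {b₁ w : G → F} {r : ℕ}
  {κ : N.subgroupOf (NY y₁) →* Matrix (Fin m) (Fin m) F} {π : (Fin n → F) →ₗ[F] (Fin m → F)}

/-- the induced matrix -/
theorem induced (h : Eqv N y₁ b₁ w)
    (hV : HW (jN N (NY y₁)) κ (mrep σ) π (fixW (mrep σ) (fun t : N => b₁ t) (fun t : N => w t))
      (rngW (mrep σ) (fun t : N => w t) r))
    (x : NY y₁) {X : Matrix (Fin n) (Fin n) F} (hX : Helper58_CL.Imp σ (x : G) X) :
    ∃ X' : Matrix (Fin m) (Fin m) F,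
      ∀ v ∈ fixW (mrep σ) (fun t : N => b₁ t) (fun t : N => w t),
      π (X.mulVec v) = X'.mulVec (π v) := by
  have hsur : Function.Surjective
      (π.domRestrict (fixW (mrep σ) (fun t : N => b₁ t) (fun t : N => w t))) := by
    intro w'
    obtain ⟨v, hv, h⟩ := hV.sur w'
    exact ⟨⟨v, hv⟩, h⟩
  obtain ⟨s, hs⟩ := LinearMap.exists_rightInverse_of_surjective
    (π.domRestrict (fixW (mrep σ) (fun t : N => b₁ t) (fun t : N => w t)))
    (LinearMap.range_eq_top.2 hsur)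
  have hs' : ∀ w', π ((s w' : fixW (mrep σ) (fun t : N => b₁ t) (fun t : N => w t)) :
      Fin n → F) = w' := by
    intro w'
    exact LinearMap.congr_fun hs w'
  let f : (Fin m → F) →ₗ[F] (Fin m → F) :=
    π ∘ₗ X.mulVecLin ∘ₗ (Submodule.subtype _) ∘ₗ s
  refine ⟨LinearMap.toMatrix' f, fun v hv => ?_⟩
  have h1 : (LinearMap.toMatrix' f).mulVec (π v) = f (π v) := by
    rw [← Matrix.toLin'_apply, Matrix.toLin'_toMatrix']
  rw [h1]
  show π (X.mulVec v) = π (X.mulVec ((s (π v) :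
    fixW (mrep σ) (fun t : N => b₁ t) (fun t : N => w t)) : Fin n → F))
  have h2 : v - ((s (π v) : fixW (mrep σ) (fun t : N => b₁ t) (fun t : N => w t)) : Fin n → F) ∈
      fixW (mrep σ) (fun t : N => b₁ t) (fun t : N => w t) := Submodule.sub_mem _ hv (s (π v)).2
  have h3 : π (v - ((s (π v) : fixW (mrep σ) (fun t : N => b₁ t) (fun t : N => w t)) :
      Fin n → F)) = 0 := by
    rw [map_sub, hs', sub_self]
  have h4 := imp_rngW h r x hX _ ((hV.ker _ h2).1 h3)
  have h5 := (hV.ker _ (imp_fixW h x hX _ h2)).2 h4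
  rw [Matrix.mulVec_sub, map_sub, sub_eq_zero] at h5
  exact h5

/-- elements of `N ∩ N_G(P₁)` preserve the fixed space -/
theorem fix_j (h : Eqv N y₁ b₁ w) (a : N.subgroupOf (NY y₁)) (v : Fin n → F)
    (hv : v ∈ fixW (mrep σ) (fun t : N => b₁ t) (fun t : N => w t)) :
    (σ (jN N (NY y₁) a)).mulVec v ∈ fixW (mrep σ) (fun t : N => b₁ t) (fun t : N => w t) := by
  have h1 := Helper58_CL.Imp.coe (ρ := σ) (jN N (NY y₁) a)
  exact imp_fixW h (a : NY y₁) h1 v hv

omit [Finite G] in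
theorem conj_j (x : NY y₁) (a : N.subgroupOf (NY y₁)) :
    ((MulAut.conjNormal (x : G) : N ≃* N) (jN N (NY y₁) a) : N) =
      jN N (NY y₁) (MulAut.conjNormal x a) := by
  apply Subtype.ext
  simp only [MulAut.conjNormal_apply, jN, MonoidHom.coe_mk, OneHom.coe_mk, Subgroup.coe_mul,
    InvMemClass.coe_inv]

/-- the induced matrix implements -/
theorem induced_imp (h : Eqv N y₁ b₁ w)
    (hV : HW (jN N (NY y₁)) κ (mrep σ) π (fixW (mrep σ) (fun t : N => b₁ t) (fun t : N => w t))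
      (rngW (mrep σ) (fun t : N => w t) r))
    (x : NY y₁) {X : Matrix (Fin n) (Fin n) F}
    (hX : Helper58_CL.Imp σ (x : G) X) {X' : Matrix (Fin m) (Fin m) F}
    (hX' : ∀ v ∈ fixW (mrep σ) (fun t : N => b₁ t) (fun t : N => w t),
      π (X.mulVec v) = X'.mulVec (π v)) :
    IsUnit X' ∧ ∀ a : N.subgroupOf (NY y₁), X' * κ a = κ (MulAut.conjNormal x a) * X' := by
  constructor
  · obtain ⟨U, hU⟩ := hX.unit
    have hUX : Helper58_CL.Imp σ (x : G) (U : Matrix (Fin n) (Fin n) F) := by rw [hU]; exact hX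
    have hi := D1.H76.imp_inv U hUX
    have hi' : Helper58_CL.Imp σ ((x⁻¹ : NY y₁) : G)
        ((U⁻¹ : (Matrix (Fin n) (Fin n) F)ˣ) : Matrix (Fin n) (Fin n) F) := hi
    obtain ⟨Z, hZ⟩ := induced h hV x⁻¹ hi'
    have h1 : X' * Z = 1 := by
      apply Matrix.mulVec_injective
      funext w'
      obtain ⟨v, hv, rfl⟩ := hV.sur w'
      rw [← Matrix.mulVec_mulVec, ← hZ v hv, ← hX' _ (imp_fixW h x⁻¹ hi' v hv), ← hU,
        Matrix.mulVec_mulVec, Units.mul_inv, Matrix.one_mulVec, Matrix.one_mulVec]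
    exact IsUnit.of_mul_eq_one _ h1
  · intro a
    apply Matrix.mulVec_injective
    funext w'
    obtain ⟨v, hv, rfl⟩ := hV.sur w'
    have h1 := hV.int a v hv
    have h2 := hV.int (MulAut.conjNormal x a) (X.mulVec v) (imp_fixW h x hX v hv)
    rw [D1.H76.mrep_eq] at h1 h2
    rw [← Matrix.mulVec_mulVec, ← h1, ← hX' _ (fix_j h a v hv), Matrix.mulVec_mulVec, hX.eq,
      conj_j, ← Matrix.mulVec_mulVec, h2, hX' v hv, Matrix.mulVec_mulVec]

end

/-- C4D -/
theorem c4d : C4dStmt := by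
  intro ℓ _ F _ hF G _ _ l N P _ y₁ b w hd φ θ hcor x y hk hx hy hθx hθy
  obtain ⟨n, σ, m, κ, π, hσ, htr, hκ, htrκ, hV⟩ := hcor
  have he := eqv_of hd
  have hφ : φ ∈ IBr F N := ⟨n, σ, hσ, htr.symm⟩
  have hθ : θ ∈ IBr F (N.subgroupOf (NY y₁)) := ⟨m, κ, hκ, htrκ.symm⟩
  have hk' : (x : G) * y * (x : G)⁻¹ * (y : G)⁻¹ ∈ N := hk
  obtain ⟨X, hX⟩ := Helper58_CL.exists_imp Pool.Agent.PP.H20.ibc hF hσ (x := (x : G)) (by
    rw [htr]; exact hx)
  obtain ⟨Y, hY⟩ := Helper58_CL.exists_imp Pool.Agent.PP.H20.ibc hF hσ (x := (y : G)) (by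
    rw [htr]; exact hy)
  obtain ⟨c, hc, hce⟩ := Helper58_CL.exists_scalar hσ hX hY hk'
  obtain ⟨X', hX'⟩ := induced he hV x hX
  obtain ⟨Y', hY'⟩ := induced he hV y hY
  obtain ⟨uX, iX⟩ := induced_imp he hV x hX hX'
  obtain ⟨uY, iY⟩ := induced_imp he hV y hY hY'
  have hrel : X' * Y' = c • (κ ⟨x * y * x⁻¹ * y⁻¹, hk⟩ * Y' * X') := by
    apply Matrix.mulVec_injective
    funext w'
    obtain ⟨v, hv, rfl⟩ := hV.sur w'
    have h1 := hV.int ⟨x * y * x⁻¹ * y⁻¹, hk⟩ (Y.mulVec (X.mulVec v))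
      (imp_fixW he y hY _ (imp_fixW he x hX v hv))
    rw [D1.H76.mrep_eq] at h1
    have h2 : jN N (NY y₁) ⟨x * y * x⁻¹ * y⁻¹, hk⟩ =
      ⟨(x : G) * y * (x : G)⁻¹ * (y : G)⁻¹, hk'⟩ := rfl
    rw [h2] at h1
    rw [← Matrix.mulVec_mulVec, ← hY' v hv, ← hX' _ (imp_fixW he y hY v hv),
      Matrix.mulVec_mulVec, hce,
      Matrix.smul_mulVec, Matrix.smul_mulVec, map_smul, ← Matrix.mulVec_mulVec,
      ← Matrix.mulVec_mulVec, h1, hY' _ (imp_fixW he x hX v hv), hX' v hv, Matrix.mulVec_mulVec,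
      Matrix.mulVec_mulVec, mul_assoc]
  have h8 : IsTC N φ (x : G) (y : G) c :=
    ⟨n, σ, X, Y, hk', hσ, htr, hX.unit, hY.unit, hX.eq, hY.eq, hce⟩
  have h8' : IsTC (N.subgroupOf (NY y₁)) θ x y c :=
    ⟨m, κ, X', Y', hk, hκ, htrκ, uX, uY, iX, iY, hrel⟩
  obtain ⟨-, -, h9⟩ := Helper58_CL.clu Pool.Agent.PP.H20.ibc ℓ F hF G N φ hφ x y hk' hx hy
  obtain ⟨-, -, h10⟩ := Helper58_CL.clu Pool.Agent.PP.H20.ibc ℓ F hF _
    (N.subgroupOf (NY y₁)) θ hθ x y hk hθx hθy
  rw [← h9 _ h8]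
  exact h10 _ h8'

end Pool.Agent.PP.CD2.H17
end
end -- Pool.Agent.Helper17_D2.C4d

section -- Pool.Agent.Helper26_D2.Brs

/-!
# Squad PP, part D2, module BRS: the Brauer map is onto the centre
-/

open scoped BigOperators

set_option linter.unusedSectionVars false

noncomputable section

namespace Pool.Agent.PP.CD2.H26

open Pool.Agent.PP Pool.Agent.Helper51_AWC Pool.Agent.Helper79_WRA Pool.Agent.PP.D1.H26
open Pool.Agent.PP.CD2.H66 Pool.Agent.PP.H20

theorem isP {G : Type} [Group G] {ℓ n : ℕ} [Fact ℓ.Prime] {P : Subgroup G}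
    (hcard : Nat.card P = ℓ ^ n) : IsPGroup ℓ P := IsPGroup.of_card hcard

theorem zp_isP {G : Type} [Group G] {ℓ : ℕ} [Fact ℓ.Prime] {y : G} (ho : orderOf y = ℓ) :
    IsPGroup ℓ (Subgroup.zpowers y) := by
  refine IsPGroup.of_card (n := 1) ?_
  rw [Nat.card_zpowers, ho, pow_one]

theorem bY_of_sp {F : Type} [Field F] {G : Type} [Group G] {y : G} {a : G → F}
    (ha : SpF (CY y) a) : bY y a = a := by
  funext x
  by_cases hx : x ∈ CY y
  · exact bY_pos _ hx
  · rw [bY_neg _ hx, ha x hx]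

theorem P_le_NY {G : Type} [Group G] {P : Subgroup G} (hcyc : IsCyclic P) {y : G} (hy : y ∈ P) :
    P ≤ CY y := by
  intro p hp
  rw [CY, Subgroup.mem_centralizer_iff]
  intro z hz
  have hz' : z ∈ P := by
    have h : Subgroup.zpowers y ≤ P := by
      rw [Subgroup.zpowers_le]
      exact hy
    exact h hz
  have hcg := hcyc.commGroup
  have h1 := mul_comm' (⟨z, hz'⟩ : P) ⟨p, hp⟩
  exact congrArg (fun r : P => (r : G)) h1

theorem brs (frw : FrwStmt) (brq : BrqStmt) : BrsStmt := by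
  classical
  intro ℓ hℓ F _ hF G _ _ n N P y₁ hPN hcyc hcard hy ho b hbN hbc hbb hprj c₀ hc₀ hc₀c hbc₀
  obtain ⟨⟨c, hc⟩, -⟩ := Pool.Agent.PP.D1H21.wgt frw F G N P hPN
  obtain ⟨c₁, z₁, hc₁, hz₁, hz₁c, hb₁⟩ := hprj
  have hPC : P ≤ CY y₁ := P_le_NY hcyc hy
  have hPY : P ≤ NY y₁ := hPC.trans (CY_le_NY y₁)
  have hPK : P ≤ N ⊓ NY y₁ := le_inf hPN hPY
  have hzP : Subgroup.zpowers y₁ ≤ P := by
    rw [Subgroup.zpowers_le]
    exact hy
  have hCN : CY y₁ ≤ NY y₁ := CY_le_NY y₁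
  -- `b₁` as a relative trace of an element supported on `C`
  obtain ⟨b₁, hb₁def⟩ : ∃ b₁ : G → F, b₁ = bY y₁ b := ⟨_, rfl⟩
  rw [← hb₁def] at hbc₀ hb₁
  have hb₁sp : SpF (N ⊓ CY y₁) b₁ := by
    rw [hb₁def]
    exact bY_sp hbN
  have hb₁cm : CmF (N ⊓ NY y₁) b₁ := by
    rw [hb₁def]
    exact bY_cm hbc
  have hb₁b : bY y₁ b₁ = b₁ := bY_of_sp (hb₁sp.mono inf_le_right)
  have hb₁tr : b₁ = TrF c₁ z₁ := by
    funext x
    exact hb₁ x
  obtain ⟨z₂, hz₂⟩ : ∃ z₂ : G → F, z₂ = bY y₁ z₁ := ⟨_, rfl⟩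
  have hKK : (N ⊓ NY y₁) ⊓ NY y₁ = N ⊓ NY y₁ := by
    rw [inf_assoc, inf_idem]
  have hb₁tr2 : b₁ = TrF c₁ z₂ := by
    have h1 := brq ℓ F hF G n (N ⊓ NY y₁) P y₁ hPK hcyc hcard hy ho c₁ c₁ z₁ hc₁
      (by rw [hKK]; exact hc₁) hz₁c
    have h2 : bY y₁ (TrF c₁ z₁) = TrF c₁ (bY y₁ z₁) := h1
    rw [← hb₁tr, hb₁b, ← hz₂] at h2
    exact h2
  have hz₂cm : CmF P z₂ := by
    rw [hz₂]
    have h1 := bY_cm (y := y₁) (H := P) (b := z₁) hz₁c
    rw [inf_eq_left.2 hPY] at h1
    exact h1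
  have hz₂sp : SpF (N ⊓ CY y₁) z₂ := by
    rw [hz₂]
    have h1 := bY_sp (y := y₁) (N := N ⊓ NY y₁) (b := z₁) hz₁
    exact h1.mono (le_inf (inf_le_left.trans inf_le_left) inf_le_right)
  have hczsp : SpF (N ⊓ CY y₁) (mulF c₀ z₂) := hc₀.mul hz₂sp
  have hczcm : CmF P (mulF c₀ z₂) := (hc₀c.mono hPK).mul hz₂cm
  obtain ⟨t, ht⟩ : ∃ t : G → F, t = TrF c (mulF c₀ z₂) := ⟨_, rfl⟩
  have htcm : CmF N t := by
    rw [ht]
    exact TrF_cm hPN hc hczcm
  have htsp : SpF N t := by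
    rw [ht]
    exact TrF_sp hc (hczsp.mono inf_le_left)
  have htb : bY y₁ t = mulF c₀ b₁ := by
    have h1 := brq ℓ F hF G n N P y₁ hPN hcyc hcard hy ho c c₁ (mulF c₀ z₂) hc hc₁ hczcm
    have h2 : bY y₁ (TrF c (mulF c₀ z₂)) = TrF c₁ (bY y₁ (mulF c₀ z₂)) := h1
    rw [ht, h2, bY_of_sp (hczsp.mono inf_le_right), ← mul_TrF hc₁ hc₀c, ← hb₁tr2]
  refine ⟨mulF b t, hbN.mul htsp, hbc.mul htcm, ?_, ?_⟩
  · rw [← mulF_assoc, hbb]
  · rw [bY_mulF hF (zp_isP ho) (hbc.mono (hzP.trans hPN)) (htcm.mono (hzP.trans hPN)), htb,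
      ← hb₁def, ← mulF_assoc, hbc₀]
    rw [← cm_comm hb₁cm (hc₀.mono (inf_le_inf_left N hCN)), hbc₀]

end Pool.Agent.PP.CD2.H26
end
end -- Pool.Agent.Helper26_D2.Brs

section -- Pool.Agent.Helper66_D2.Mcq

/-!
# Part D2, module MCQ
-/

open scoped BigOperators

noncomputable section

namespace Pool.Agent.PP.CD2.H66

open Pool.Agent.PP Pool.Agent.Helper51_AWC Pool.Agent.Helper79_WRA Pool.Agent.PP.D1.H26

theorem le_NY {G : Type} [Group G] [Finite G] {P : Subgroup G} (hcyc : IsCyclic P) {y : G}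
    (hy : y ∈ P) : P ≤ NY y := by
  intro p hp
  apply CY_le_NY
  change p ∈ Subgroup.centralizer (Subgroup.zpowers y : Set G)
  rw [Subgroup.mem_centralizer_iff]
  intro z hz
  have hzP : z ∈ P := (Subgroup.zpowers_le.2 hy) hz
  have hcg := hcyc.commGroup
  have h1 := mul_comm' (⟨z, hzP⟩ : P) ⟨p, hp⟩
  exact congrArg (fun r : P => (r : G)) h1

theorem free' {G : Type} [Group G] [Finite G] {ℓ : ℕ} [hℓ : Fact ℓ.Prime] {P : Subgroup G}
    (hc : IsCyclic P) {n : ℕ} (hcard : Nat.card P = ℓ ^ (n + 1)) {y g p : G} (hy : y ∈ P)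
    (ho : orderOf y = ℓ) (hp : p ∈ P) (hp1 : p ≠ 1) (hg : g⁻¹ * p * g ∈ P) : g ∈ NY y := by
  classical
  have hex : ∃ m : ℕ, p ^ ℓ ^ m = 1 := by
    refine ⟨n + 1, ?_⟩
    rw [← hcard]
    have := pow_card_eq_one' (x := (⟨p, hp⟩ : P))
    exact congrArg (fun r : P => (r : G)) this
  obtain ⟨m, hm⟩ : ∃ m, Nat.find hex = m + 1 := by
    cases h : Nat.find hex with
    | zero =>
      exfalso
      have := Nat.find_spec hex
      rw [h, pow_zero, pow_one] at this
      exact hp1 this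
    | succ m => exact ⟨m, rfl⟩
  have h1 : p ^ ℓ ^ (m + 1) = 1 := by
    rw [← hm]
    exact Nat.find_spec hex
  have h2 : p ^ ℓ ^ m ≠ 1 := Nat.find_min hex (by omega)
  have h3 : p ^ ℓ ^ m ∈ Subgroup.zpowers y := by
    refine H26.mem_zp hc hy ho (P.pow_mem hp _) ?_
    rw [← pow_mul, ← pow_succ, h1]
  refine H26.free hc hy ho h3 h2 ?_
  have h4 := conj_pow (a := g⁻¹) (b := p) (i := ℓ ^ m)
  rw [inv_inv] at h4
  rw [← h4]
  exact P.pow_mem hg _

theorem mcq (frw : FrwStmt) : McqStmt := by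
  classical
  intro ℓ hℓ F _ G _ _ n N P y₁ hPN hcyc hcard hy ho V V' _ _ _ _ ρ ρ' c c₁ hc hc₁ φ hφ
  have := Fintype.ofFinite G
  have := Fintype.ofFinite P
  obtain ⟨h, hdef⟩ : ∃ h : G → (V →ₗ[F] V'), h = fun g => ρ' g ∘ₗ φ ∘ₗ ρ g⁻¹ := ⟨_, rfl⟩
  have hh : ∀ g : G, ∀ p ∈ P, h (g * p) = h g := by
    intro g p hp
    ext v
    rw [hdef]
    simp only [LinearMap.comp_apply]
    rw [mul_inv_rev, map_mul, map_mul, Module.End.mul_apply, Module.End.mul_apply,
      hφ _ (P.inv_mem hp)]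
    rw [← Module.End.mul_apply (ρ' p), ← map_mul, mul_inv_cancel, map_one, Module.End.one_apply]
  have hhl : ∀ p g : G, ρ' p ∘ₗ h g ∘ₗ ρ p⁻¹ = h (p * g) := by
    intro p g
    ext v
    rw [hdef]
    simp only [LinearMap.comp_apply]
    rw [mul_inv_rev, map_mul, map_mul, Module.End.mul_apply, Module.End.mul_apply]
  have hPn : P ≤ NY y₁ := le_NY hcyc hy
  obtain ⟨X, hXdef⟩ : ∃ X : Finset G, X = Finset.univ.filter
      (fun g : G => g ∈ N ∧ g ∉ NY y₁) := ⟨_, rfl⟩
  obtain ⟨X₁, hX₁def⟩ : ∃ X₁ : Finset G, X₁ = Finset.univ.filter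
      (fun g : G => g ∈ N ⊓ NY y₁) := ⟨_, rfl⟩
  have hXm : ∀ g, g ∈ X ↔ g ∈ N ∧ g ∉ NY y₁ := by
    intro g
    rw [hXdef, Finset.mem_filter]
    simp
  have hX₁m : ∀ g, g ∈ X₁ ↔ g ∈ N ⊓ NY y₁ := by
    intro g
    rw [hX₁def, Finset.mem_filter]
    simp
  have hXr : ∀ g ∈ X, ∀ p ∈ P, g * p ∈ X := by
    intro g hg p hp
    rw [hXm] at hg ⊢
    exact ⟨N.mul_mem hg.1 (hPN hp), fun h1 => hg.2
      ((Subgroup.mul_mem_cancel_right _ (hPn hp)).1 h1)⟩
  have hXl : ∀ g ∈ X, ∀ p ∈ P, p * g ∈ X := by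
    intro g hg p hp
    rw [hXm] at hg ⊢
    exact ⟨N.mul_mem (hPN hp) hg.1, fun h1 => hg.2
      ((Subgroup.mul_mem_cancel_left _ (hPn hp)).1 h1)⟩
  have hX₁r : ∀ g ∈ X₁, ∀ p ∈ P, g * p ∈ X₁ := by
    intro g hg p hp
    rw [hX₁m] at hg ⊢
    exact Subgroup.mul_mem _ hg ⟨hPN hp, hPn hp⟩
  have hcs : ∀ g ∈ N, ∑ p : P, c (g * p) = 1 := by
    intro g hg
    have h1 := hc.sum g hg
    rwa [finsum_eq_sum_of_fintype] at h1
  have hc₁s : ∀ g ∈ X₁, ∑ p : P, c₁ (g * p) = 1 := by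
    intro g hg
    have h1 := hc₁.sum g ((hX₁m g).1 hg)
    rwa [finsum_eq_sum_of_fintype] at h1
  -- the two parts of the trace
  have hspl : trW c ρ ρ' φ = ∑ g ∈ X₁, c g • h g + ∑ g ∈ X, c g • h g := by
    rw [trW, finsum_eq_sum_of_fintype]
    have hdis : Disjoint X₁ X := by
      rw [Finset.disjoint_left]
      intro g h1 h2
      exact ((hXm g).1 h2).2 ((hX₁m g).1 h1).2
    rw [← Finset.sum_union hdis]
    symm
    rw [hdef]
    apply Finset.sum_subset (Finset.subset_univ _)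
    intro g _ hg
    have h3 : g ∉ N := by
      intro h4
      apply hg
      rw [Finset.mem_union, hXm, hX₁m]
      by_cases h5 : g ∈ NY y₁
      · exact Or.inl ⟨h4, h5⟩
      · exact Or.inr ⟨h4, h5⟩
    rw [hc.supp g h3, zero_smul]
  have h1st : ∑ g ∈ X₁, c g • h g = trW c₁ ρ ρ' φ := by
    rw [weights_eq P X₁ hX₁r c c₁ (fun g hg => hcs g ((hX₁m g).1 hg).1) hc₁s h
      (fun g _ p hp => hh g p hp), trW, finsum_eq_sum_of_fintype, hdef]
    apply Finset.sum_subset (Finset.subset_univ _)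
    intro g _ hg
    rw [hc₁.supp g (fun h3 => hg ((hX₁m g).2 h3)), zero_smul]
  -- representatives of the double cosets
  obtain ⟨d, hd0, hd1⟩ : ∃ d : G → F, (∀ g, g ∉ X → d g = 0) ∧
      ∀ g ∈ X, ∑ k : P × P, d ((k.1 : G) * g * (k.2 : G)⁻¹) = 1 := by
    obtain ⟨d, h1, h2⟩ := @frw F _ (P × P) G _ _ _ (bact P) (X : Set G)
      (fun k g hg => by
        rw [Finset.mem_coe] at hg ⊢
        exact hXr _ (hXl g hg _ k.1.2) _ (P.inv_mem k.2.2))
      (fun k g hg hkg => by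
        rw [Finset.mem_coe] at hg
        have h3 : (k.1 : G) * g * (k.2 : G)⁻¹ = g := hkg
        have h4 : g⁻¹ * (k.1 : G) * g = k.2 := by
          have h5 : (k.1 : G) * g = g * k.2 := mul_inv_eq_iff_eq_mul.1 h3
          rw [mul_assoc, h5, inv_mul_cancel_left]
        have h6 : (k.1 : G) = 1 := by
          by_contra h7
          exact ((hXm g).1 hg).2 (free' hcyc hcard hy ho k.1.2 h7 (by rw [h4]; exact k.2.2))
        have h8 : (k.2 : G) = 1 := by
          rw [← h4, h6]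
          group
        exact Prod.ext (Subtype.ext h6) (Subtype.ext h8))
    refine ⟨d, fun g hg => h1 g (by rwa [Finset.mem_coe]), fun g hg => ?_⟩
    have h3 := h2 g (by rwa [Finset.mem_coe])
    rw [finsum_eq_sum_of_fintype] at h3
    exact h3
  refine ⟨∑ g ∈ X, d g • h g, ?_⟩
  rw [hspl, h1st]
  congr 1
  -- the trace from `1` to `P`
  have htr : trP ρ ρ' P (∑ g ∈ X, d g • h g) =
      ∑ g ∈ X, (∑ p : P, d ((p : G)⁻¹ * g)) • h g := by
    rw [trP, finsum_eq_sum_of_fintype]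
    have e1 : ∀ p : P, ρ' p ∘ₗ (∑ g ∈ X, d g • h g) ∘ₗ ρ (p : G)⁻¹ =
        ∑ g ∈ X, d ((p : G)⁻¹ * g) • h g := by
      intro p
      have e2 : ρ' p ∘ₗ (∑ g ∈ X, d g • h g) ∘ₗ ρ (p : G)⁻¹ =
          ∑ g ∈ X, d g • h ((p : G) * g) := by
        ext v
        rw [LinearMap.comp_apply, LinearMap.comp_apply, LinearMap.sum_apply, map_sum,
          LinearMap.sum_apply]
        apply Finset.sum_congr rfl
        intro g _
        rw [LinearMap.smul_apply, map_smul, LinearMap.smul_apply, ← hhl]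
        rfl
      rw [e2, ← sum_left P X hXl (fun g => d ((p : G)⁻¹ * g) • h g) (p : G) p.2]
      apply Finset.sum_congr rfl
      intro g _
      rw [inv_mul_cancel_left]
    rw [Finset.sum_congr rfl (fun p _ => e1 p), Finset.sum_comm]
    apply Finset.sum_congr rfl
    intro g _
    rw [Finset.sum_smul]
  rw [htr]
  refine weights_eq P X hXr c _ (fun g hg => hcs g ((hXm g).1 hg).1) (fun g hg => ?_) h
    (fun g _ p hp => hh g p hp)
  rw [← hd1 g hg, Fintype.sum_prod_type, Finset.sum_comm]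
  refine Fintype.sum_equiv (Equiv.inv P) _ _ (fun q => ?_)
  refine Fintype.sum_equiv (Equiv.inv P) _ _ (fun p => ?_)
  simp [mul_assoc]

end Pool.Agent.PP.CD2.H66
end
end -- Pool.Agent.Helper66_D2.Mcq

section -- Pool.Agent.Helper75_D2.Chd

/-!
# Squad PP, part D2, module CHD: the alternating sum has two terms
-/

open scoped BigOperators

set_option linter.unusedSectionVars false

noncomputable section

namespace Pool.Agent.PP.CD2.H75

open Pool.Agent.Helper51_AWC Pool.Agent.Helper79_WRA Pool.Agent.PP Pool.Agent.PP.BN.H9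

section group

variable {G : Type} [Group G] [Finite G]

/-- uniqueness of the subgroups of a cyclic group -/
theorem mem_of_pow {T E : Subgroup G} (hc : IsCyclic T) (hE : E ≤ T) {z : G} (hz : z ∈ T)
    (hzk : z ^ Nat.card E = 1) : z ∈ E := by
  classical
  have := Fintype.ofFinite T
  have hpos : 0 < Nat.card E := Nat.card_pos
  have h1 := IsCyclic.card_pow_eq_one_le (α := T) hpos
  have h3 : (Set.Finite.toFinset (Set.toFinite (E.subgroupOf T : Set T))) ⊆
      Finset.univ.filter (fun a : T => a ^ Nat.card E = 1) := by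
    intro a ha
    rw [Set.Finite.mem_toFinset, SetLike.mem_coe, Subgroup.mem_subgroupOf] at ha
    rw [Finset.mem_filter]
    refine ⟨Finset.mem_univ _, ?_⟩
    apply Subtype.ext
    rw [Subgroup.coe_pow, Subgroup.coe_one]
    have h4 : (⟨(a : G), ha⟩ : E) ^ Nat.card E = 1 := pow_card_eq_one'
    have h5 := congrArg Subtype.val h4
    rwa [Subgroup.coe_pow, Subgroup.coe_one] at h5
  have h5 : (Set.Finite.toFinset (Set.toFinite (E.subgroupOf T : Set T))) =
      Finset.univ.filter (fun a : T => a ^ Nat.card E = 1) := by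
    apply Finset.eq_of_subset_of_card_le h3
    refine h1.trans ?_
    rw [← Set.ncard_eq_toFinset_card]
    have h6 : (E.subgroupOf T : Set T).ncard = Nat.card E := by
      rw [← Nat.card_coe_set_eq]
      exact Nat.card_congr (Subgroup.subgroupOfEquivOfLe hE).toEquiv
    rw [h6]
  have h7 : (⟨z, hz⟩ : T) ∈ Finset.univ.filter (fun a : T => a ^ Nat.card E = 1) := by
    rw [Finset.mem_filter]
    refine ⟨Finset.mem_univ _, ?_⟩
    apply Subtype.ext
    rw [Subgroup.coe_pow]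
    exact hzk
  rw [← h5, Set.Finite.mem_toFinset, SetLike.mem_coe, Subgroup.mem_subgroupOf] at h7
  exact h7

theorem le_of_card {T D E : Subgroup G} (hc : IsCyclic T) (hD : D ≤ T) (hE : E ≤ T)
    (h : Nat.card D = Nat.card E) : D ≤ E := by
  intro z hz
  apply mem_of_pow hc hE (hD hz)
  rw [← h]
  have h4 : (⟨z, hz⟩ : D) ^ Nat.card D = 1 := pow_card_eq_one'
  have h5 := congrArg Subtype.val h4
  rwa [Subgroup.coe_pow, Subgroup.coe_one] at h5

theorem card_conjS (g : G) (P : Subgroup G) : Nat.card (conjS g P) = Nat.card P :=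
  (Nat.card_congr (conjSEquiv g P).toEquiv).symm

/-- the normaliser of a cyclic group normalises its subgroups -/
theorem norm_le {T D : Subgroup G} (hc : IsCyclic T) (hD : D ≤ T) :
    Subgroup.normalizer (T : Set G) ≤ Subgroup.normalizer (D : Set G) := by
  intro x hx
  rw [mem_normalizer_iff_conjS] at hx ⊢
  have h1 : conjS x D ≤ T := by
    have h2 : conjS x D ≤ conjS x T := Subgroup.map_mono hD
    rwa [hx] at h2
  exact le_antisymm (le_of_card hc h1 hD (card_conjS x D))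
    (le_of_card hc hD h1 (card_conjS x D).symm)

theorem isCyclic_of_le {P T : Subgroup G} (hP : IsCyclic P) (h : T ≤ P) : IsCyclic T :=
  isCyclic_of_injective (Subgroup.inclusion h) (Subgroup.inclusion_injective h)

theorem isCyclic_conjS {P : Subgroup G} (hP : IsCyclic P) (g : G) : IsCyclic (conjS g P) :=
  isCyclic_of_surjective (conjSEquiv g P).toMonoidHom (conjSEquiv g P).surjective

theorem bot_or_eq {ℓ : ℕ} (hℓ : ℓ.Prime) {V : Subgroup G} (hV : Nat.card V = ℓ) {D : Subgroup G}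
    (hD : D ≤ V) : D = ⊥ ∨ D = V := by
  have h1 : Nat.card D ∣ ℓ := hV ▸ Subgroup.card_dvd_of_le hD
  rcases (Nat.dvd_prime hℓ).1 h1 with h | h
  · left
    exact Subgroup.card_eq_one.1 h
  · right
    exact Subgroup.eq_of_le_of_card_ge hD (by rw [hV, h])

theorem isPGroup_of_card {ℓ : ℕ} {V : Subgroup G} (hV : Nat.card V = ℓ) : IsPGroup ℓ V :=
  IsPGroup.of_card (n := 1) (by rw [hV, pow_one])

theorem stab_bot : stab ({⊥} : Finset (Subgroup G)) = ⊤ := by
  rw [eq_top_iff]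
  intro x _
  rw [mem_stab]
  intro W hW
  rw [Finset.mem_singleton.1 hW, conjS, Subgroup.map_bot]

/-- the stabiliser of a chain with cyclic top -/
theorem stab_cyc {d : Finset (Subgroup G)} {T : Subgroup G} (hc : IsCyclic T) (hT : T ∈ d)
    (hle : ∀ D ∈ d, D ≤ T) : stab d = Subgroup.normalizer (T : Set G) := by
  ext x
  rw [mem_stab]
  constructor
  · intro h
    exact mem_normalizer_iff_conjS.2 (h T hT)
  · intro h W hW
    exact mem_normalizer_iff_conjS.1 (norm_le hc (hle W hW) h)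

open Classical in
theorem top_eq {d : Finset (Subgroup G)} {T : Subgroup G} (hT : T ∈ d) (hle : ∀ D ∈ d, D ≤ T) :
    top d = T :=
  le_antisymm (sSup_le fun D hD => hle D hD) (le_sSup hT)

open Classical in
theorem stab_pair (V : Subgroup G) : stab ({⊥, V} : Finset (Subgroup G)) =
    Subgroup.normalizer (V : Set G) := by
  ext x
  rw [mem_stab, mem_normalizer_iff_conjS]
  constructor
  · intro h
    exact h V (Finset.mem_insert_of_mem (Finset.mem_singleton_self _))
  · intro h W hW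
    rcases Finset.mem_insert.1 hW with rfl | h'
    · rw [conjS, Subgroup.map_bot]
    · rw [Finset.mem_singleton.1 h']
      exact h

open Classical in
theorem top_pair (V : Subgroup G) : top ({⊥, V} : Finset (Subgroup G)) = V := by
  unfold top
  rw [Finset.coe_insert, Finset.coe_singleton, sSup_insert, sSup_singleton, bot_sup_eq]

open Classical in
theorem top_single : top ({⊥} : Finset (Subgroup G)) = ⊥ := by
  unfold top
  rw [Finset.coe_singleton, sSup_singleton]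

open Classical in
theorem pair_mem {ℓ : ℕ} {N V : Subgroup G} (hV : V ≤ N) (hp : IsPGroup ℓ V) :
    ({⊥, V} : Finset (Subgroup G)) ∈ (chainsOn (psubIn ℓ N) ⊥).filter NormalChain := by
  rw [Finset.mem_filter, mem_chainsOn]
  refine ⟨⟨?_, Finset.mem_insert_self _ _, ?_⟩, ?_⟩
  · intro W hW
    rw [Pool.Agent.PP.H75.mem_psubIn']
    rcases Finset.mem_insert.1 hW with rfl | h
    · exact ⟨bot_le, IsPGroup.of_bot⟩
    · rw [Finset.mem_singleton.1 h]
      exact ⟨hV, hp⟩
  · intro x hx y hy hxy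
    rw [Finset.mem_coe, Finset.mem_insert, Finset.mem_singleton] at hx hy
    rcases hx with rfl | rfl
    · left; exact bot_le
    · rcases hy with rfl | rfl
      · right; exact bot_le
      · exact absurd rfl hxy
  · intro D hD
    rw [top_pair]
    rcases Finset.mem_insert.1 hD with rfl | h
    · intro x _
      rw [mem_normalizer_iff_conjS, conjS, Subgroup.map_bot]
    · rw [Finset.mem_singleton.1 h]
      exact Subgroup.le_normalizer

open Classical in
theorem single_mem {ℓ : ℕ} {N : Subgroup G} :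
    ({⊥} : Finset (Subgroup G)) ∈ (chainsOn (psubIn ℓ N) ⊥).filter NormalChain := by
  rw [Finset.mem_filter, mem_chainsOn]
  refine ⟨⟨?_, Finset.mem_singleton_self _, ?_⟩, ?_⟩
  · intro W hW
    rw [Pool.Agent.PP.H75.mem_psubIn', Finset.mem_singleton.1 hW]
    exact ⟨bot_le, IsPGroup.of_bot⟩
  · intro x hx y hy hxy
    rw [Finset.mem_coe, Finset.mem_singleton] at hx hy
    exact absurd (hx.trans hy.symm) hxy
  · intro D _
    rw [top_single]
    exact bot_le

open Classical in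
/-- a chain with top `V` of prime order -/
theorem eq_pair {ℓ : ℕ} (hℓ : ℓ.Prime) {d : Finset (Subgroup G)} {V : Subgroup G}
    (hV : Nat.card V = ℓ) (hb : ⊥ ∈ d) (ht : V ∈ d) (hle : ∀ D ∈ d, D ≤ V) : d = {⊥, V} := by
  ext W
  rw [Finset.mem_insert, Finset.mem_singleton]
  constructor
  · intro hW
    exact bot_or_eq hℓ hV (hle W hW)
  · rintro (rfl | rfl)
    · exact hb
    · exact ht

open Classical in
/-- a subgroup of order `ℓ` of `T` -/
def om (ℓ : ℕ) (T : Subgroup G) : Subgroup G :=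
  if h : ∃ V ≤ T, Nat.card V = ℓ then h.choose else ⊥

theorem om_spec {ℓ : ℕ} (hℓ : ℓ.Prime) {T : Subgroup G} (hp : IsPGroup ℓ T) (hT : T ≠ ⊥) :
    om ℓ T ≤ T ∧ Nat.card (om ℓ T) = ℓ := by
  have : Fact ℓ.Prime := ⟨hℓ⟩
  have hex : ∃ V ≤ T, Nat.card V = ℓ := by
    have h1 : Nat.card T ≠ 1 := fun h => hT (Subgroup.card_eq_one.1 h)
    obtain ⟨k, hk⟩ := (IsPGroup.iff_card).1 hp
    have h2 : ℓ ∣ Nat.card T := by
      rw [hk]
      refine dvd_pow_self ℓ ?_
      rintro rfl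
      exact h1 (by rw [hk, pow_zero])
    obtain ⟨x, hx⟩ := exists_prime_orderOf_dvd_card' ℓ h2
    refine ⟨Subgroup.zpowers (x : G), ?_, ?_⟩
    · rw [Subgroup.zpowers_le]
      exact x.2
    · rw [Nat.card_zpowers, Subgroup.orderOf_coe, hx]
  unfold om
  rw [dif_pos hex]
  exact hex.choose_spec

/-- the subgroup of order `ℓ` lies in every nontrivial subgroup -/
theorem om_le {ℓ : ℕ} (hℓ : ℓ.Prime) {T D : Subgroup G} (hc : IsCyclic T) (hp : IsPGroup ℓ T)
    (hT : T ≠ ⊥) (hD : D ≤ T) (hD0 : D ≠ ⊥) : om ℓ T ≤ D := by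
  obtain ⟨h1, h2⟩ := om_spec hℓ hp hT
  obtain ⟨h3, h4⟩ := om_spec hℓ (hp.to_le hD) hD0
  exact (le_of_card hc h1 (h3.trans hD) (h2.trans h4.symm)).trans h3

open Classical in
/-- the toggle -/
def tg (ℓ : ℕ) (d : Finset (Subgroup G)) : Finset (Subgroup G) :=
  if om ℓ (top d) ∈ d then d.erase (om ℓ (top d)) else insert (om ℓ (top d)) d

open Classical in
theorem mem_tg {ℓ : ℕ} {d : Finset (Subgroup G)} {W : Subgroup G} (hW : W ≠ om ℓ (top d)) :
    W ∈ tg ℓ d ↔ W ∈ d := by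
  unfold tg
  split_ifs with h
  · rw [Finset.mem_erase]
    exact ⟨fun h => h.2, fun h => ⟨hW, h⟩⟩
  · rw [Finset.mem_insert]
    exact ⟨fun h => h.resolve_left hW, fun h => Or.inr h⟩

open Classical in
theorem om_mem_tg {ℓ : ℕ} {d : Finset (Subgroup G)} :
    om ℓ (top d) ∈ tg ℓ d ↔ om ℓ (top d) ∉ d := by
  unfold tg
  split_ifs with h
  · rw [Finset.mem_erase]
    constructor
    · intro h1
      exact absurd rfl h1.1
    · intro h1
      exact absurd h h1
  · exact ⟨fun _ => h, fun _ => Finset.mem_insert_self _ _⟩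

open Classical in
theorem tg_tg {ℓ : ℕ} {d : Finset (Subgroup G)} (h : top (tg ℓ d) = top d) :
    tg ℓ (tg ℓ d) = d := by
  ext W
  by_cases hW : W = om ℓ (top d)
  · rw [hW]
    have h1 : om ℓ (top d) = om ℓ (top (tg ℓ d)) := by rw [h]
    have h2 : om ℓ (top (tg ℓ d)) ∈ tg ℓ (tg ℓ d) ↔ om ℓ (top (tg ℓ d)) ∉ tg ℓ d := om_mem_tg
    rw [← h1, om_mem_tg, not_not] at h2
    exact h2
  · have h1 : W ≠ om ℓ (top (tg ℓ d)) := by rw [h]; exact hW
    rw [mem_tg h1, mem_tg hW]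

open Classical in
theorem card_tg {ℓ : ℕ} (d : Finset (Subgroup G)) :
    (-1 : ℤ) ^ ((tg ℓ d).card + 1) = -(-1 : ℤ) ^ (d.card + 1) := by
  unfold tg
  split_ifs with h
  · have h1 := Finset.card_erase_add_one h
    rw [← h1, pow_succ (-1 : ℤ) (_ + 1)]
    ring
  · rw [Finset.card_insert_of_notMem h, pow_succ (-1 : ℤ) (_ + 1)]
    ring

end group

open Classical in
/-- CHD -/
theorem chd (hNch : NchStmt) (hNls : NlsStmt) (hBrm : BrmStmt) : ChdStmt := by
  intro ℓ hfact F _ hF G _ _ n N P y₁ b w hD hU e he heb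
  have := Fintype.ofFinite G
  have hℓ : ℓ.Prime := hF.prime
  obtain ⟨P₁, hP₁⟩ : ∃ P₁ : Subgroup G, P₁ = Subgroup.zpowers y₁ := ⟨_, rfl⟩
  have hNY : NY y₁ = Subgroup.normalizer (P₁ : Set G) := by rw [hP₁]; rfl
  have hbYe : bY y₁ e = br P₁ e := by rw [hP₁]; rfl
  have hcard1 : Nat.card P₁ = ℓ := by rw [hP₁, Nat.card_zpowers, hD.ord]
  have hP₁P : P₁ ≤ P := by
    rw [hP₁, Subgroup.zpowers_le]
    exact hD.mem
  have hcyc : IsCyclic P := hD.cyc
  have hPp : IsPGroup ℓ P := IsPGroup.of_card hD.card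
  have hP1p : IsPGroup ℓ P₁ := isPGroup_of_card hcard1
  have hP0 : P₁ ≠ ⊥ := by
    intro h
    rw [h, Subgroup.card_bot] at hcard1
    exact hℓ.one_lt.ne hcard1
  have hcN : ∀ g : G, conjS g P ≤ N := by
    intro g x hx
    rw [mem_conjS] at hx
    have h1 := hD.normal.conj_mem _ (hD.le hx) g
    have h2 : g * (g⁻¹ * x * g) * g⁻¹ = x := by group
    rwa [h2] at h1
  have hcP : ∀ g : G, conjS g P₁ ≤ conjS g P := fun g => Subgroup.map_mono hP₁P
  have hcc : ∀ g : G, Nat.card (conjS g P₁) = ℓ := fun g => by rw [card_conjS, hcard1]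
  -- normal chains
  have hYY : YY ℓ N e = ∑ d ∈ (chainsOn (psubIn ℓ N) ⊥).filter NormalChain,
      (-1) ^ (d.card + 1) * ((Nat.card (stab d) : ℤ) * (lnum (stab d) e : ℤ)) :=
    hNch ℓ G N (fun S _ => (Nat.card S : ℤ) * (lnum S e : ℤ))
  -- the conjugates of `P₁`
  obtain ⟨C, hC⟩ : ∃ C : Finset (Subgroup G), C = Finset.univ.image fun g : G => conjS g P₁ :=
    ⟨_, rfl⟩
  obtain ⟨A, hA⟩ : ∃ A : Finset (Finset (Subgroup G)),
      A = insert ({⊥} : Finset (Subgroup G)) (C.image fun V => {⊥, V}) := ⟨_, rfl⟩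
  obtain ⟨S, hS⟩ : ∃ S : Finset (Finset (Subgroup G)),
      S = (chainsOn (psubIn ℓ N) ⊥).filter NormalChain := ⟨_, rfl⟩
  obtain ⟨f, hf⟩ : ∃ f : Finset (Subgroup G) → ℤ, ∀ d, f d =
      (-1 : ℤ) ^ (d.card + 1) * ((Nat.card (stab d) : ℤ) * (lnum (stab d) e : ℤ)) :=
    ⟨_, fun _ => rfl⟩
  -- structure of the other chains
  have hstr : ∀ d ∈ S, d ∉ A → (∃ g : G, top d ≤ conjS g P) →
      IsCyclic (top d) ∧ IsPGroup ℓ (top d) ∧ top d ≤ N ∧ top d ≠ ⊥ ∧
        Nat.card (top d) ≠ ℓ ∧ ⊥ ∈ d ∧ top d ∈ d ∧ (∀ D ∈ d, D ≤ top d) := by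
    intro d hd hdA hg
    rw [hS, Finset.mem_filter, mem_chainsOn] at hd
    obtain ⟨⟨h1, h2, h3⟩, h4⟩ := hd
    obtain ⟨t1, t2⟩ := H94.top_mem h3 ⟨_, h2⟩
    obtain ⟨tN, tp⟩ := Pool.Agent.PP.H75.mem_psubIn'.1 (h1 t1)
    obtain ⟨g, hg⟩ := hg
    have hcycT : IsCyclic (top d) := isCyclic_of_le (isCyclic_conjS hcyc g) hg
    refine ⟨hcycT, tp, tN, ?_, ?_, h2, t1, t2⟩
    · intro h
      apply hdA
      rw [hA, Finset.mem_insert]
      left
      ext W
      rw [Finset.mem_singleton]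
      constructor
      · intro hW
        have := t2 W hW
        rw [h, le_bot_iff] at this
        exact this
      · rintro rfl
        exact h2
    · intro h
      apply hdA
      rw [hA, Finset.mem_insert, Finset.mem_image]
      right
      refine ⟨top d, ?_, (eq_pair hℓ h h2 t1 t2).symm⟩
      rw [hC, Finset.mem_image]
      refine ⟨g, Finset.mem_univ _, ?_⟩
      exact le_antisymm
        (le_of_card (isCyclic_conjS hcyc g) (hcP g) hg ((hcc g).trans h.symm))
        (le_of_card (isCyclic_conjS hcyc g) hg (hcP g) (h.trans (hcc g).symm))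
  -- the chains whose top is not conjugate to a subgroup of `P`
  have hkill : ∀ d ∈ S, ¬ (∃ g : G, top d ≤ conjS g P) → f d = 0 := by
    intro d hd hng
    rw [hS, Finset.mem_filter, mem_chainsOn] at hd
    obtain ⟨⟨h1, h2, h3⟩, h4⟩ := hd
    obtain ⟨t1, t2⟩ := H94.top_mem h3 ⟨_, h2⟩
    obtain ⟨tN, tp⟩ := Pool.Agent.PP.H75.mem_psubIn'.1 (h1 t1)
    have hbr : br (top d) b = 0 := by
      by_contra hne
      exact hng (hU (top d) tN tp hne)
    have hbe : br (top d) e = 0 := by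
      have h5 := (hBrm ℓ F hF G (top d) (Subgroup.centralizer ((top d : Subgroup G) : Set G)) tp
        le_rfl (Subgroup.centralizer_le_normalizer _)).1 e b he.1 hD.idem.1
      rw [heb, hbr] at h5
      rw [h5]
      funext x
      unfold mulF
      simp
    have hX1 : top d ≤ stab d := by
      intro x hx
      rw [mem_stab]
      intro D hDd
      exact mem_normalizer_iff_conjS.1 (h4 D hDd hx)
    have hX2 : stab d ≤ Subgroup.normalizer ((top d : Subgroup G) : Set G) := by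
      intro x hx
      rw [mem_normalizer_iff_conjS]
      exact mem_stab.1 hx _ t1
    rw [hf, H65.kill hNls hF he.1 hX1 hX2 tp]
    · simp
    · intro g _ hg
      have h6 := congrFun hbe g
      unfold br at h6
      rw [if_pos hg] at h6
      exact h6
  have hsub : A ⊆ S := by
    intro d hd
    rw [hA, Finset.mem_insert, Finset.mem_image] at hd
    rw [hS]
    rcases hd with rfl | ⟨V, hV, rfl⟩
    · exact single_mem
    · rw [hC] at hV
      obtain ⟨g, -, rfl⟩ := Finset.mem_image.1 hV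
      exact pair_mem ((hcP g).trans (hcN g)) (isPGroup_of_card (hcc g))
  -- the toggle
  obtain ⟨R, hR⟩ : ∃ R : Finset (Finset (Subgroup G)),
      R = (S \ A).filter fun d => ∃ g : G, top d ≤ conjS g P := ⟨_, rfl⟩
  have hmemR : ∀ d, d ∈ R ↔ (d ∈ S ∧ d ∉ A) ∧ ∃ g : G, top d ≤ conjS g P := by
    intro d
    rw [hR, Finset.mem_filter, Finset.mem_sdiff]
  have htop : ∀ d ∈ R, top (tg ℓ d) = top d ∧ ⊥ ∈ tg ℓ d ∧ top d ∈ tg ℓ d ∧
      ∀ D ∈ tg ℓ d, D ≤ top d := by
    intro d hd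
    rw [hmemR] at hd
    obtain ⟨hcT, hpT, hTN, hT0, hTℓ, hb, hTd, hle⟩ := hstr d hd.1.1 hd.1.2 hd.2
    obtain ⟨ho1, ho2⟩ := om_spec hℓ hpT hT0
    have hob : (⊥ : Subgroup G) ≠ om ℓ (top d) := by
      intro h
      rw [← h, Subgroup.card_bot] at ho2
      exact hℓ.one_lt.ne ho2
    have hoT : top d ≠ om ℓ (top d) := by
      intro h
      rw [← h] at ho2
      exact hTℓ ho2
    have h1 : ⊥ ∈ tg ℓ d := (mem_tg hob).2 hb
    have h2 : top d ∈ tg ℓ d := (mem_tg hoT).2 hTd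
    have h3 : ∀ D ∈ tg ℓ d, D ≤ top d := by
      intro D hDd
      by_cases h : D = om ℓ (top d)
      · rw [h]
        exact ho1
      · exact hle D ((mem_tg h).1 hDd)
    exact ⟨top_eq h2 h3, h1, h2, h3⟩
  have hRsum : ∑ d ∈ R, f d = 0 := by
    refine Finset.sum_involution (fun d _ => tg ℓ d) ?_ ?_ ?_ ?_
    · intro d hd
      obtain ⟨h1, h2, h3, h4⟩ := htop d hd
      have hd' := (hmemR d).1 hd
      obtain ⟨hcT, hpT, hTN, hT0, hTℓ, hb, hTd, hle⟩ := hstr d hd'.1.1 hd'.1.2 hd'.2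
      rw [hf, hf, card_tg, stab_cyc hcT hTd hle, stab_cyc hcT h3 h4]
      ring
    · intro d hd _ h
      have h1 : om ℓ (top d) ∈ tg ℓ d ↔ om ℓ (top d) ∉ d := om_mem_tg
      rw [h] at h1
      exact (iff_not_self h1).elim
    · intro d hd
      obtain ⟨h1, h2, h3, h4⟩ := htop d hd
      have hd' := (hmemR d).1 hd
      obtain ⟨hcT, hpT, hTN, hT0, hTℓ, hb, hTd, hle⟩ := hstr d hd'.1.1 hd'.1.2 hd'.2
      obtain ⟨ho1, ho2⟩ := om_spec hℓ hpT hT0
      rw [hmemR]
      refine ⟨⟨?_, ?_⟩, ?_⟩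
      · have hdS := hd'.1.1
        rw [hS, Finset.mem_filter, mem_chainsOn] at hdS ⊢
        obtain ⟨⟨k1, k2, k3⟩, k4⟩ := hdS
        refine ⟨⟨?_, h2, ?_⟩, ?_⟩
        · intro W hW
          rw [Pool.Agent.PP.H75.mem_psubIn']
          exact ⟨(h4 W hW).trans hTN, hpT.to_le (h4 W hW)⟩
        · intro x hx y hy hxy
          rw [Finset.mem_coe] at hx hy
          by_cases hxo : x = om ℓ (top d)
          · by_cases hy0 : y = ⊥
            · right
              rw [hy0]
              exact bot_le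
            · left
              rw [hxo]
              exact om_le hℓ hcT hpT hT0 (h4 y hy) hy0
          · by_cases hyo : y = om ℓ (top d)
            · by_cases hx0 : x = ⊥
              · left
                rw [hx0]
                exact bot_le
              · right
                rw [hyo]
                exact om_le hℓ hcT hpT hT0 (h4 x hx) hx0
            · exact k3 ((mem_tg hxo).1 hx) ((mem_tg hyo).1 hy) hxy
        · intro D hDd
          rw [h1]
          exact Subgroup.le_normalizer.trans (norm_le hcT (h4 D hDd))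
      · intro hA'
        rw [hA, Finset.mem_insert, Finset.mem_image] at hA'
        rcases hA' with h | ⟨V, hV, h⟩
        · rw [h, Finset.mem_singleton] at h3
          exact hT0 h3
        · rw [hC] at hV
          obtain ⟨g, -, rfl⟩ := Finset.mem_image.1 hV
          rw [← h, Finset.mem_insert, Finset.mem_singleton] at h3
          rcases h3 with h3 | h3
          · exact hT0 h3
          · exact hTℓ (by rw [h3, hcc])
      · rw [h1]
        exact hd'.2
    · intro d hd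
      exact tg_tg (htop d hd).1
  have hSA : ∑ d ∈ S, f d = ∑ d ∈ A, f d := by
    rw [← Finset.sum_sdiff hsub]
    have h1 : ∑ d ∈ S \ A, f d = ∑ d ∈ R, f d := by
      rw [hR]
      refine (Finset.sum_filter_of_ne ?_).symm
      intro d hd hne
      by_contra hng
      exact hne (hkill d (Finset.mem_sdiff.1 hd).1 hng)
    rw [h1, hRsum, zero_add]
  have hYY' : YY ℓ N e = ∑ d ∈ A, f d := by
    rw [hYY, ← hSA, hS]
    exact Finset.sum_congr rfl fun d _ => (hf d).symm
  rw [hYY', hA]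
  -- values
  have hf0 : f ({⊥} : Finset (Subgroup G)) = (Nat.card G : ℤ) *
      ({φ : G → F | φ ∈ IBr F G ∧ actF e φ = φ}.ncard : ℤ) := by
    have h1 : lnum (⊤ : Subgroup G) e = {φ : G → F | φ ∈ IBr F G ∧ actF e φ = φ}.ncard := by
      rw [Pool.Agent.PP.H75.lnum_eq]
      exact Pool.Agent.PP.H75.cnt_equiv Subgroup.topEquiv e
    rw [hf, stab_bot, Finset.card_singleton, h1, Subgroup.card_top]
    ring
  have hbr1 : lnum (Subgroup.normalizer (P₁ : Set G)) e =
      lnum (Subgroup.normalizer (P₁ : Set G)) (br P₁ e) :=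
    H96.lnum_br hF hNls hP1p Subgroup.le_normalizer le_rfl he.1
  have hf1 : ∀ V ∈ C, f ({⊥, V} : Finset (Subgroup G)) =
      -((Nat.card (Subgroup.normalizer (P₁ : Set G)) : ℤ) *
        (lnum (Subgroup.normalizer (P₁ : Set G)) (br P₁ e) : ℤ)) := by
    intro V hV
    rw [hC] at hV
    obtain ⟨g, -, rfl⟩ := Finset.mem_image.1 hV
    have h1 : ({⊥, conjS g P₁} : Finset (Subgroup G)).card = 2 :=
      Finset.card_pair (conjS_ne_bot hP0 g).symm
    have h3 : lnum (conjS g (Subgroup.normalizer (P₁ : Set G))) e =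
        lnum (Subgroup.normalizer (P₁ : Set G)) e := by
      rw [conjS, Pool.Agent.PP.H75.lnum_map _ (MulAut.conj g).injective]
      have h4 : (fun x => e ((MulAut.conj g).toMonoidHom x)) = e := by
        funext x
        exact he.1 x g
      rw [h4]
    rw [hf, h1, stab_pair, norm_conjS, card_conjS, h3, hbr1]
    ring
  have hcard : (C.card : ℤ) * (Nat.card (Subgroup.normalizer (P₁ : Set G)) : ℤ) =
      (Nat.card G : ℤ) := by
    have h1 : Fintype.card G = ∑ V ∈ C, (Finset.univ.filter fun g : G => conjS g P₁ = V).card := by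
      rw [← Finset.card_univ]
      exact Finset.card_eq_sum_card_fiberwise
        (fun g _ => by
          rw [hC]
          exact Finset.mem_coe.2 (Finset.mem_image_of_mem _ (Finset.mem_univ g)))
    have h2 : ∀ V ∈ C, (Finset.univ.filter fun g : G => conjS g P₁ = V).card =
        Nat.card (Subgroup.normalizer (P₁ : Set G)) := by
      intro V hV
      rw [hC] at hV
      obtain ⟨k, -, rfl⟩ := Finset.mem_image.1 hV
      rw [← card_fib P₁ k, Nat.card_eq_fintype_card, Fintype.card_subtype]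
    rw [Finset.sum_congr rfl h2, Finset.sum_const, smul_eq_mul] at h1
    rw [Nat.card_eq_fintype_card (α := G), h1]
    push_cast
    ring
  rw [Finset.sum_insert, hf0, Finset.sum_image, Finset.sum_congr rfl hf1,
    Finset.sum_const, nsmul_eq_mul]
  · have h5 : ({θ : NY y₁ → F | θ ∈ IBr F (NY y₁) ∧
          actF (fun t : NY y₁ => bY y₁ e t) θ = θ}.ncard : ℤ) =
        (lnum (Subgroup.normalizer (P₁ : Set G)) (br P₁ e) : ℤ) := by
      rw [hP₁]
      rfl
    rw [h5]
    linear_combination (-(lnum (Subgroup.normalizer (P₁ : Set G)) (br P₁ e) : ℤ)) * hcard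
  · intro V hV W hW h
    have hV' : V ∈ C := hV
    rw [hC] at hV'
    obtain ⟨g, -, hg⟩ := Finset.mem_image.1 hV'
    have h1 : V ∈ ({⊥, W} : Finset (Subgroup G)) := by
      have h2 : V ∈ ({⊥, V} : Finset (Subgroup G)) :=
        Finset.mem_insert_of_mem (Finset.mem_singleton_self _)
      have h3 : ({⊥, V} : Finset (Subgroup G)) = {⊥, W} := h
      rwa [h3] at h2
    rcases Finset.mem_insert.1 h1 with h2 | h2
    · exact absurd (hg.trans h2) (conjS_ne_bot hP0 g)
    · exact Finset.mem_singleton.1 h2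
  · intro h
    obtain ⟨V, hV, h1⟩ := Finset.mem_image.1 h
    rw [hC] at hV
    obtain ⟨g, -, hg⟩ := Finset.mem_image.1 hV
    have h2 : V ∈ ({⊥} : Finset (Subgroup G)) := by
      rw [← h1]
      exact Finset.mem_insert_of_mem (Finset.mem_singleton_self _)
    exact absurd (hg.trans (Finset.mem_singleton.1 h2)) (conjS_ne_bot hP0 g)

end Pool.Agent.PP.CD2.H75
end
end -- Pool.Agent.Helper75_D2.Chd
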