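import Pool.Agent.Helper12_AWB.B090
import Pool.Agent.Helper12_AWB.B161
import Pool.Agent.Helper12_AWB.B248
import Pool.Agent.Helper50_PP.Bid

/-!
# Merged copies (generated) of the modules

* `Pool.Agent.Helper26_D2.Brp`
* `Pool.Agent.Helper31_D2.Cl1`
* `Pool.Agent.Helper40_D2.CL2`
* `Pool.Agent.Helper56_D2.Umx`
* `Pool.Agent.Helper56_D2.Clc`
* `Pool.Agent.Helper56_D2.Str`
* `Pool.Agent.Helper6_D2.Loc`
* `Pool.Agent.Helper75_D2.StbA`
* `Pool.Agent.Helper75_D2.Stb`
-/

set_option autoImplicit false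

section -- Pool.Agent.Helper26_D2.Brp

/-!
# Squad PP, part D2, module BRP: the Brauer map and the relative trace
-/

open scoped BigOperators

set_option linter.unusedSectionVars false

noncomputable section

namespace Pool.Agent.PP.CD2.H26

open Pool.Agent.PP Pool.Agent.Helper51_AWC Pool.Agent.Helper79_WRA

/-- a weighted sum as a sum over the cosets -/
theorem wsum {F : Type} [Field F] {G : Type} [Group G] [Fintype G] {H Q : Subgroup G}
    {c : G → F} (hc : IsW H Q c) (h : G → F) (hH : ∀ g, g ∉ H → h g = 0)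
    (hQ : ∀ g, ∀ q ∈ Q, h (g * q) = h g) :
    ∑ᶠ g : G, c g * h g = ∑ᶠ ξ : G ⧸ Q, h ξ.out := by
  classical
  have := Fintype.ofFinite Q
  have := Fintype.ofFinite (G ⧸ Q)
  rw [finsum_eq_sum_of_fintype, finsum_eq_sum_of_fintype]
  rw [← Finset.sum_fiberwise (s := Finset.univ) (g := fun g : G => (QuotientGroup.mk g : G ⧸ Q))]
  apply Finset.sum_congr rfl
  intro ξ _
  have e1 : ∑ g ∈ Finset.univ.filter (fun g : G => (QuotientGroup.mk g : G ⧸ Q) = ξ), c g * h g =
      ∑ q : Q, c (ξ.out * q) * h (ξ.out * q) := by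
    symm
    refine Finset.sum_bij (fun q _ => ξ.out * (q : G)) (fun q _ => ?_) (fun q _ q' _ hqq => ?_)
      (fun g hg => ?_) (fun _ _ => rfl)
    · rw [Finset.mem_filter]
      refine ⟨Finset.mem_univ _, ?_⟩
      rw [QuotientGroup.mk_mul_of_mem _ q.2]
      exact Quotient.out_eq _
    · exact Subtype.ext (mul_left_cancel hqq)
    · rw [Finset.mem_filter] at hg
      have h1 : (QuotientGroup.mk ξ.out : G ⧸ Q) = QuotientGroup.mk g := by
        rw [hg.2]
        exact Quotient.out_eq _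
      rw [QuotientGroup.eq] at h1
      exact ⟨⟨_, h1⟩, Finset.mem_univ _, by simp⟩
  rw [e1]
  have e2 : ∑ q : Q, c (ξ.out * q) * h (ξ.out * q) = (∑ q : Q, c (ξ.out * q)) * h ξ.out := by
    rw [Finset.sum_mul]
    apply Finset.sum_congr rfl
    intro q _
    rw [hQ _ q q.2]
  rw [e2]
  by_cases hξ : ξ.out ∈ H
  · have h1 := hc.sum ξ.out hξ
    rw [finsum_eq_sum_of_fintype] at h1
    rw [h1, one_mul]
  · rw [hH _ hξ, mul_zero]

/-- the normaliser acts on the centraliser -/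
theorem conj_cent {G : Type} [Group G] {P : Subgroup G} {g x : G}
    (hg : g ∈ Subgroup.normalizer (P : Set G)) :
    g⁻¹ * x * g ∈ Subgroup.centralizer (P : Set G) ↔ x ∈ Subgroup.centralizer (P : Set G) := by
  have key : ∀ g ∈ Subgroup.normalizer (P : Set G), ∀ x ∈ Subgroup.centralizer (P : Set G),
      g⁻¹ * x * g ∈ Subgroup.centralizer (P : Set G) := by
    intro g hg x hx
    rw [Subgroup.mem_centralizer_iff] at hx ⊢
    intro h hh
    have h1 : g * h * g⁻¹ ∈ (P : Set G) := (Subgroup.mem_normalizer_iff.1 hg h).1 hh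
    have h2 := hx _ h1
    have h3 : g⁻¹ * (g * h * g⁻¹ * x) * g = g⁻¹ * (x * (g * h * g⁻¹)) * g := by rw [h2]
    have e1 : h * (g⁻¹ * x * g) = g⁻¹ * (g * h * g⁻¹ * x) * g := by group
    have e2 : g⁻¹ * x * g * h = g⁻¹ * (x * (g * h * g⁻¹)) * g := by group
    rw [e1, e2, h3]
  refine ⟨fun h => ?_, key g hg x⟩
  have h1 := key g⁻¹ (Subgroup.inv_mem _ hg) _ h
  have e : g⁻¹⁻¹ * (g⁻¹ * x * g) * g⁻¹ = x := by group
  rwa [e] at h1

theorem br_pos {F : Type} [Field F] {G : Type} [Group G] {P : Subgroup G} {x : G} (a : G → F)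
    (hx : x ∈ Subgroup.centralizer (P : Set G)) : br P a x = a x := by
  classical
  unfold br
  exact if_pos hx

theorem br_neg {F : Type} [Field F] {G : Type} [Group G] {P : Subgroup G} {x : G} (a : G → F)
    (hx : x ∉ Subgroup.centralizer (P : Set G)) : br P a x = 0 := by
  classical
  unfold br
  exact if_neg hx

/-- the fixed points of `P` on the cosets of `Q` -/
theorem fix_iff {G : Type} [Group G] {P Q : Subgroup G} (ξ : G ⧸ Q) :
    ξ ∈ MulAction.fixedPoints P (G ⧸ Q) ↔ P ≤ conjS ξ.out Q := by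
  have key : ∀ p : G, p • ξ = ξ ↔ ξ.out⁻¹ * p * ξ.out ∈ Q := by
    intro p
    have h1 : ξ = QuotientGroup.mk ξ.out := (Quotient.out_eq _).symm
    have h2 : p • ξ = ξ ↔ (QuotientGroup.mk (p * ξ.out) : G ⧸ Q) = QuotientGroup.mk ξ.out := by
      conv_lhs => rw [h1]
      rfl
    rw [h2, eq_comm, QuotientGroup.eq, mul_assoc]
  constructor
  · intro h p hp
    have h1 := (key p).1 (MulAction.mem_fixedPoints.1 h ⟨p, hp⟩)
    refine Subgroup.mem_map.2 ⟨_, h1, ?_⟩
    change ξ.out * (ξ.out⁻¹ * p * ξ.out) * ξ.out⁻¹ = p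
    group
  · intro h
    rw [MulAction.mem_fixedPoints]
    rintro ⟨p, hp⟩
    refine (key p).2 ?_
    obtain ⟨q, hq, hqp⟩ := Subgroup.mem_map.1 (h hp)
    have h3 : ξ.out * q * ξ.out⁻¹ = p := hqp
    rw [← h3]
    have e : ξ.out⁻¹ * (ξ.out * q * ξ.out⁻¹) * ξ.out = q := by group
    rw [e]
    exact hq

theorem le_conj_self {G : Type} [Group G] [Finite G] {P : Subgroup G} {g : G} :
    P ≤ conjS g P ↔ g ∈ Subgroup.normalizer (P : Set G) := by
  constructor
  · intro h
    have hcard : Nat.card (conjS g P) = Nat.card P :=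
      (Nat.card_congr (P.equivMapOfInjective (MulAut.conj g).toMonoidHom
        (MulAut.conj g).injective).toEquiv).symm
    have heq : P = conjS g P := Subgroup.eq_of_le_of_card_ge h hcard.le
    rw [Subgroup.mem_normalizer_iff]
    intro x
    constructor
    · intro hx
      have h1 : g * x * g⁻¹ ∈ conjS g P := Subgroup.mem_map.2 ⟨x, hx, rfl⟩
      rwa [← heq] at h1
    · intro hx
      rw [heq] at hx
      obtain ⟨q, hq, hqx⟩ := Subgroup.mem_map.1 hx
      have h3 : g * q * g⁻¹ = g * x * g⁻¹ := hqx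
      have h4 : q = x := mul_left_cancel (mul_right_cancel h3)
      rw [← h4]
      exact hq
  · intro h p hp
    have h1 : g⁻¹ * p * g ∈ P := by
      have h2 := (Subgroup.mem_normalizer_iff.1 (Subgroup.inv_mem _ h) p).1 hp
      rwa [inv_inv] at h2
    refine Subgroup.mem_map.2 ⟨_, h1, ?_⟩
    change g * (g⁻¹ * p * g) * g⁻¹ = p
    group

theorem brp (horb : OrbStmt) : BrpStmt := by
  classical
  intro ℓ hℓ F _ hF G _ _ H P Q hP hPH hQH c a hc ha
  have := Fintype.ofFinite G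
  have hmain : ∀ y ∈ Subgroup.centralizer (P : Set G),
      (∑ᶠ g : G, c g * a (g⁻¹ * y * g)) =
        ∑ᶠ (ξ : G ⧸ Q) (_ : ξ ∈ MulAction.fixedPoints P (G ⧸ Q)),
          if ξ.out ∈ H then a (ξ.out⁻¹ * y * ξ.out) else 0 := by
    intro y hy
    obtain ⟨h, hdef⟩ : ∃ h : G → F, h = fun g => if g ∈ H then a (g⁻¹ * y * g) else 0 := ⟨_, rfl⟩
    have hH : ∀ g, g ∉ H → h g = 0 := by
      intro g hg
      rw [hdef]
      exact if_neg hg
    have hQ : ∀ g, ∀ q ∈ Q, h (g * q) = h g := by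
      intro g q hq
      rw [hdef]
      change (if g * q ∈ H then a ((g * q)⁻¹ * y * (g * q)) else 0) =
        if g ∈ H then a (g⁻¹ * y * g) else 0
      have h1 : g * q ∈ H ↔ g ∈ H := Subgroup.mul_mem_cancel_right _ (hQH hq)
      have h2 : a ((g * q)⁻¹ * y * (g * q)) = a (g⁻¹ * y * g) := by
        have h3 := ha q⁻¹ (Q.inv_mem hq) (g⁻¹ * y * g)
        rw [← h3]
        congr 1
        group
      rw [h2]
      by_cases hg : g ∈ H
      · rw [if_pos (h1.2 hg), if_pos hg]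
      · rw [if_neg (fun h => hg (h1.1 h)), if_neg hg]
    have hPi : ∀ p ∈ P, ∀ g, h (p * g) = h g := by
      intro p hp g
      rw [hdef]
      change (if p * g ∈ H then a ((p * g)⁻¹ * y * (p * g)) else 0) =
        if g ∈ H then a (g⁻¹ * y * g) else 0
      have h1 : p * g ∈ H ↔ g ∈ H := Subgroup.mul_mem_cancel_left _ (hPH hp)
      have h2 : (p * g)⁻¹ * y * (p * g) = g⁻¹ * y * g := by
        have h3 : p * y = y * p := Subgroup.mem_centralizer_iff.1 hy p hp
        have h4 : p⁻¹ * y * p = y := by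
          rw [mul_assoc, ← h3, inv_mul_cancel_left]
        have h5 : (p * g)⁻¹ * y * (p * g) = g⁻¹ * (p⁻¹ * y * p) * g := by group
        rw [h5, h4]
      rw [h2]
      by_cases hg : g ∈ H
      · rw [if_pos (h1.2 hg), if_pos hg]
      · rw [if_neg (fun h => hg (h1.1 h)), if_neg hg]
    have e1 : (∑ᶠ g : G, c g * a (g⁻¹ * y * g)) = ∑ᶠ g : G, c g * h g := by
      congr 1
      funext g
      by_cases hg : g ∈ H
      · rw [hdef]
        change _ = c g * (if g ∈ H then a (g⁻¹ * y * g) else 0)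
        rw [if_pos hg]
      · rw [hc.supp g hg, zero_mul, zero_mul]
    have hout : ∀ g : G, h (Quotient.out (QuotientGroup.mk g : G ⧸ Q)) = h g := by
      intro g
      obtain ⟨q, hq⟩ := QuotientGroup.mk_out_eq_mul Q g
      rw [hq, hQ g q q.2]
    have e2 := horb ℓ F F P (G ⧸ Q) hℓ.out hF.char hP (fun ξ => h ξ.out) (fun p ξ => by
      have h1 : p • ξ = (QuotientGroup.mk ((p : G) * ξ.out) : G ⧸ Q) := by
        have h2 : ξ = QuotientGroup.mk ξ.out := (Quotient.out_eq _).symm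
        conv_lhs => rw [h2]
        rfl
      change h (Quotient.out (p • ξ)) = h ξ.out
      rw [h1, hout, hPi p p.2])
    rw [e1, wsum hc h hH hQ, e2]
    rw [hdef]
  constructor
  · intro hne
    obtain ⟨y, hy⟩ := Function.ne_iff.1 hne
    by_cases hyc : y ∈ Subgroup.centralizer (P : Set G)
    swap
    · exact absurd (br_neg _ hyc) hy
    rw [br_pos _ hyc, hmain y hyc] at hy
    by_contra hcon
    apply hy
    refine finsum_eq_zero_of_forall_eq_zero fun ξ => ?_
    rw [finsum_eq_if]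
    by_cases hξ : ξ ∈ MulAction.fixedPoints P (G ⧸ Q)
    · rw [if_pos hξ]
      by_cases hξH : ξ.out ∈ H
      · exact absurd ⟨ξ.out, hξH, (fix_iff ξ).1 hξ⟩ hcon
      · exact if_neg hξH
    · exact if_neg hξ
  · intro hPQ c₁ hc₁
    subst hPQ
    funext y
    by_cases hyc : y ∈ Subgroup.centralizer (P : Set G)
    · rw [br_pos _ hyc, hmain y hyc]
      obtain ⟨h, hdef⟩ : ∃ h : G → F, h = fun g =>
          if g ∈ H ⊓ Subgroup.normalizer (P : Set G) then a (g⁻¹ * y * g) else 0 := ⟨_, rfl⟩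
      have hPn : P ≤ Subgroup.normalizer (P : Set G) := Subgroup.le_normalizer
      have hH : ∀ g, g ∉ H ⊓ Subgroup.normalizer (P : Set G) → h g = 0 := by
        intro g hg
        rw [hdef]
        exact if_neg hg
      have hQ : ∀ g, ∀ q ∈ P, h (g * q) = h g := by
        intro g q hq
        rw [hdef]
        change (if g * q ∈ H ⊓ Subgroup.normalizer (P : Set G) then
          a ((g * q)⁻¹ * y * (g * q)) else 0) =
          if g ∈ H ⊓ Subgroup.normalizer (P : Set G) then a (g⁻¹ * y * g) else 0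
        have h1 : g * q ∈ H ⊓ Subgroup.normalizer (P : Set G) ↔
            g ∈ H ⊓ Subgroup.normalizer (P : Set G) :=
          Subgroup.mul_mem_cancel_right _ ⟨hPH hq, hPn hq⟩
        have h2 : a ((g * q)⁻¹ * y * (g * q)) = a (g⁻¹ * y * g) := by
          have h3 := ha q⁻¹ (P.inv_mem hq) (g⁻¹ * y * g)
          rw [← h3]
          congr 1
          group
        rw [h2]
        by_cases hg : g ∈ H ⊓ Subgroup.normalizer (P : Set G)
        · rw [if_pos (h1.2 hg), if_pos hg]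
        · rw [if_neg (fun h => hg (h1.1 h)), if_neg hg]
      have e1 : (∑ᶠ g : G, c₁ g * br P a (g⁻¹ * y * g)) = ∑ᶠ g : G, c₁ g * h g := by
        congr 1
        funext g
        by_cases hg : g ∈ H ⊓ Subgroup.normalizer (P : Set G)
        · rw [hdef]
          change _ = c₁ g * (if g ∈ H ⊓ Subgroup.normalizer (P : Set G) then
            a (g⁻¹ * y * g) else 0)
          rw [if_pos hg, br_pos _ ((conj_cent hg.2).2 hyc)]
        · rw [hc₁.supp g hg, zero_mul, zero_mul]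
      rw [e1, wsum hc₁ h hH hQ]
      congr 1
      funext ξ
      rw [finsum_eq_if, hdef]
      by_cases hξ : ξ ∈ MulAction.fixedPoints P (G ⧸ P)
      · rw [if_pos hξ]
        have h1 := le_conj_self.1 ((fix_iff ξ).1 hξ)
        by_cases h2 : ξ.out ∈ H
        · rw [if_pos h2]
          exact (if_pos (⟨h2, h1⟩ : ξ.out ∈ H ⊓ Subgroup.normalizer (P : Set G))).symm
        · rw [if_neg h2]
          exact (if_neg (fun h : ξ.out ∈ H ⊓ Subgroup.normalizer (P : Set G) => h2 h.1)).symm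
      · rw [if_neg hξ]
        have h1 : ξ.out ∉ Subgroup.normalizer (P : Set G) := fun h =>
          hξ ((fix_iff ξ).2 (le_conj_self.2 h))
        exact (if_neg (fun h : ξ.out ∈ H ⊓ Subgroup.normalizer (P : Set G) => h1 h.2)).symm
    · rw [br_neg _ hyc]
      symm
      refine finsum_eq_zero_of_forall_eq_zero fun g => ?_
      by_cases hg : g ∈ Subgroup.normalizer (P : Set G)
      · rw [br_neg _ (fun h => hyc ((conj_cent hg).1 h)), mul_zero]
      · rw [hc₁.supp g (fun h => hg h.2), zero_mul]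

end Pool.Agent.PP.CD2.H26
end
end -- Pool.Agent.Helper26_D2.Brp

section -- Pool.Agent.Helper31_D2.Cl1

/-!
# Squad PP, part D2, module CL1: `K` is transitive on the blocks of `C` below `b₁`
-/

open scoped BigOperators

noncomputable section

namespace Pool.Agent.PP.CD2.H31

open Pool.Agent.PP Pool.Agent.PP.H20 Pool.Agent.Helper51_AWC Pool.Agent.Helper79_WRA
  Pool.Agent.PP.CD2.H66

variable {F : Type} [Field F] {G : Type} [Group G] [Finite G]

theorem blc_cm {C : Subgroup G} {b₁ f : G → F} (h : BlC C b₁ f) : CmF C f := by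
  intro c hc x
  by_cases hx : x ∈ C
  · exact h.blk.1.1 ⟨x, hx⟩ ⟨c, hc⟩
  · rw [h.supp x hx, h.supp]
    intro h'
    apply hx
    have h1 := C.mul_mem (C.mul_mem (inv_mem hc) h') hc
    have e : c⁻¹ * (c * x * c⁻¹) * c = x := by group
    rwa [e] at h1

theorem blc_ff {C : Subgroup G} {b₁ f : G → F} (h : BlC C b₁ f) : mulF f f = f := by
  apply H75.eq_of_res (N := C) (h.supp.mul h.supp) h.supp
  rw [H75.mulF_res C f h.supp]
  exact h.blk.1.2

theorem blc_ne {C : Subgroup G} {b₁ f : G → F} (h : BlC C b₁ f) : f ≠ 0 := by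
  intro h0
  apply h.blk.2.1
  rw [h0]
  rfl

/-- different blocks are orthogonal -/
theorem blc_orth {C : Subgroup G} {b₁ f f' : G → F} (h : BlC C b₁ f) (h' : BlC C b₁ f')
    (hne : f ≠ f') : mulF f f' = 0 := by
  have hc : mulF f f' = mulF f' f := cm_comm (blc_cm h) h'.supp
  have key : ∀ {g g' : G → F}, BlC C b₁ g → BlC C b₁ g' → mulF g g' = g ∨ mulF g g' = 0 := by
    intro g g' hg hg'
    rcases hg.blk.2.2 _ hg'.blk.1 with h1 | h1
    · left
      apply H75.eq_of_res (N := C) (hg.supp.mul hg'.supp) hg.supp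
      rw [H75.mulF_res C _ hg.supp]
      exact h1
    · right
      apply H75.eq_of_res (N := C) (hg.supp.mul hg'.supp) (fun _ _ => rfl)
      rw [H75.mulF_res C _ hg.supp]
      exact h1
  rcases key h h' with h1 | h1
  · rcases key h' h with h2 | h2
    · exact absurd (h1.symm.trans (hc.trans h2)) hne
    · rw [hc, h2]
  · exact h1

/-- conjugation by an element which normalises `C` -/
def cE {C : Subgroup G} (k : G) (h : ∀ x, x ∈ C ↔ k⁻¹ * x * k ∈ C) : C ≃* C where
  toFun x := ⟨k⁻¹ * x * k, (h x).1 x.2⟩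
  invFun x := ⟨k * x * k⁻¹, (h _).2 (by
    have e : k⁻¹ * (k * (x : G) * k⁻¹) * k = x := by group
    rw [e]
    exact x.2)⟩
  left_inv x := by
    apply Subtype.ext
    change k * (k⁻¹ * (x : G) * k) * k⁻¹ = x
    group
  right_inv x := by
    apply Subtype.ext
    change k⁻¹ * (k * (x : G) * k⁻¹) * k = x
    group
  map_mul' x y := by
    apply Subtype.ext
    change k⁻¹ * ((x : G) * y) * k = k⁻¹ * (x : G) * k * (k⁻¹ * (y : G) * k)
    group

theorem blc_conj {C : Subgroup G} {b₁ f : G → F} (h : BlC C b₁ f) {k : G}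
    (hk : ∀ x, x ∈ C ↔ k⁻¹ * x * k ∈ C) (hb : (fun g => b₁ (k⁻¹ * g * k)) = b₁) :
    BlC C b₁ (fun g => f (k⁻¹ * g * k)) where
  supp := fun x hx => h.supp _ fun hc => hx ((hk x).2 hc)
  blk := IsBlk_equiv (cE k hk) h.blk
  le := by
    have h1 := conj_mulF k b₁ f
    rw [hb, h.le] at h1
    exact h1.symm

theorem bY_pwF {ℓ : ℕ} (hF : GoodF ℓ F) {y : G} (hy : IsPGroup ℓ (Subgroup.zpowers y))
    {d : G → F} (hd : CmF (Subgroup.zpowers y) d) (m : ℕ) :
    bY y (pwF d m d) = pwF (bY y d) m (bY y d) := by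
  induction m with
  | zero => rfl
  | succ m ih => rw [pwF_succ, pwF_succ, bY_mulF hF hy hd (hd.pwF hd m), ih]

theorem mem_C_iff {N : Subgroup G} (hN : N.Normal) {y k : G} (hk : k ∈ NY y) (x : G) :
    x ∈ N ⊓ CY y ↔ k⁻¹ * x * k ∈ N ⊓ CY y := by
  have key : ∀ k : G, k ∈ NY y → ∀ x, x ∈ N ⊓ CY y → k⁻¹ * x * k ∈ N ⊓ CY y := by
    intro k hk x hx
    refine ⟨?_, ?_⟩
    · have := hN.conj_mem x hx.1 k⁻¹
      rwa [inv_inv] at this
    · refine Subgroup.mem_centralizer_iff.2 fun z hz => ?_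
      have h1 : k * z * k⁻¹ ∈ Subgroup.zpowers y := (Subgroup.mem_normalizer_iff.1 hk z).1 hz
      have h2 := Subgroup.mem_centralizer_iff.1 hx.2 _ h1
      calc z * (k⁻¹ * x * k) = k⁻¹ * ((k * z * k⁻¹) * x) * k := by group
        _ = k⁻¹ * (x * (k * z * k⁻¹)) * k := by rw [h2]
        _ = k⁻¹ * x * k * z := by group
  constructor
  · exact key k hk x
  · intro h
    have h1 := key k⁻¹ (inv_mem hk) _ h
    have e : k⁻¹⁻¹ * (k⁻¹ * x * k) * k⁻¹ = x := by group
    rwa [e] at h1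

/-- CL1 -/
theorem cl1 (brs : BrsStmt) : Cl1Stmt := by
  classical
  intro ℓ _ F _ hF G _ _ n N P y₁ b hS e' e'' h' h''
  by_contra hcon
  push Not at hcon
  have hfin := Fintype.ofFinite (N ⊓ NY y₁ : Subgroup G)
  have hNn : N.Normal := hS.normal
  have hyN : Subgroup.zpowers y₁ ≤ N := by
    rw [Subgroup.zpowers_le]
    exact hS.le hS.mem
  have hyp : IsPGroup ℓ (Subgroup.zpowers y₁) :=
    IsPGroup.of_card (n := 1) (by rw [Nat.card_zpowers, hS.ord, pow_one])
  have hb1 : CmF (N ⊓ NY y₁) (bY y₁ b) := bY_cm (cmF_of_cl hS.idem.1 N)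
  -- the conjugates
  let cf : (N ⊓ NY y₁ : Subgroup G) → (G → F) := fun k => fun g => e' ((k : G)⁻¹ * g * k)
  have hblk : ∀ k, BlC (N ⊓ CY y₁) (bY y₁ b) (cf k) := by
    intro k
    apply blc_conj h' (mem_C_iff hNn k.2.2)
    funext g
    have h1 := hb1 (k : G)⁻¹ (inv_mem k.2) g
    rw [inv_inv] at h1
    exact h1
  let S : Finset (G → F) := Finset.univ.image cf
  have hS1 : ∀ f ∈ S, BlC (N ⊓ CY y₁) (bY y₁ b) f := by
    intro f hf
    obtain ⟨k, _, rfl⟩ := Finset.mem_image.1 hf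
    exact hblk k
  have hS2 : e' ∈ S := by
    refine Finset.mem_image.2 ⟨1, Finset.mem_univ _, ?_⟩
    funext g
    change e' (((1 : (N ⊓ NY y₁ : Subgroup G)) : G)⁻¹ * g * ((1 : (N ⊓ NY y₁ : Subgroup G)) : G)) = _
    rw [Subgroup.coe_one, inv_one, one_mul, mul_one]
  have hS3 : e'' ∉ S := by
    intro hf
    obtain ⟨k, _, hk⟩ := Finset.mem_image.1 hf
    exact hcon k k.2 hk.symm
  have sum_l : ∀ g : G → F, mulF (∑ f ∈ S, f) g = ∑ f ∈ S, mulF f g := by
    intro g
    apply toMA_injective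
    rw [toMA_mulF, toMA_sum', toMA_sum', Finset.sum_mul]
    exact Finset.sum_congr rfl fun t _ => (toMA_mulF _ _).symm
  have hae' : mulF (∑ f ∈ S, f) e' = e' := by
    rw [sum_l, Finset.sum_eq_single_of_mem e' hS2]
    · exact blc_ff h'
    · intro f hf hne
      exact blc_orth (hS1 f hf) h' hne
  have hae'' : mulF (∑ f ∈ S, f) e'' = 0 := by
    rw [sum_l]
    refine Finset.sum_eq_zero fun f hf => ?_
    apply blc_orth (hS1 f hf) h''
    rintro rfl
    exact hS3 hf
  have haC : SpF (N ⊓ CY y₁) (∑ f ∈ S, f) := SpF.sum fun f hf => (hS1 f hf).supp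
  have hak : CmF (N ⊓ NY y₁) (∑ f ∈ S, f) := by
    intro k hk x
    rw [Finset.sum_apply, Finset.sum_apply]
    refine Finset.sum_bij (fun f _ => fun g => f (k * g * k⁻¹)) ?_ ?_ ?_ ?_
    · intro f hf
      obtain ⟨t, _, rfl⟩ := Finset.mem_image.1 hf
      refine Finset.mem_image.2 ⟨⟨k, hk⟩⁻¹ * t, Finset.mem_univ _, ?_⟩
      funext g
      change e' ((k⁻¹ * (t : G))⁻¹ * g * (k⁻¹ * (t : G))) = e' ((t : G)⁻¹ * (k * g * k⁻¹) * t)
      congr 1
      group
    · intro f _ f' _ he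
      funext g
      have h1 := congrFun he (k⁻¹ * g * k)
      have e : k * (k⁻¹ * g * k) * k⁻¹ = g := by group
      simp only [e] at h1
      exact h1
    · intro f hf
      obtain ⟨t, _, rfl⟩ := Finset.mem_image.1 hf
      refine ⟨cf (⟨k, hk⟩ * t), Finset.mem_image.2 ⟨_, Finset.mem_univ _, rfl⟩, ?_⟩
      funext g
      change e' ((k * (t : G))⁻¹ * (k * g * k⁻¹) * (k * (t : G))) = e' ((t : G)⁻¹ * g * t)
      congr 1
      group
    · intro f _
      rfl
  have hba : mulF (bY y₁ b) (∑ f ∈ S, f) = ∑ f ∈ S, f := by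
    apply toMA_injective
    rw [toMA_mulF, toMA_sum', Finset.mul_sum]
    refine Finset.sum_congr rfl fun f hf => ?_
    rw [← toMA_mulF, (hS1 f hf).le]
  obtain ⟨z, hz1, hz2, hz3, hz4⟩ := brs ℓ F hF G n N P y₁ hS.le hS.cyc hS.card hS.mem hS.ord b
    hS.supp (cmF_of_cl hS.idem.1 N) hS.idem.2 hS.prj1 _ haC hak hba
  have hce : CE b N 1 z := ⟨fun h hh => hz1 h (by simpa using hh), hz2, hz3⟩
  obtain ⟨c, m, hm⟩ := J74.res_exists hF.closed ⟨hS.supp, hS.idem.1, hS.blk⟩ hce
  have hcm : CmF (Subgroup.zpowers y₁) (z - c • b) :=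
    CmF.mono hyN (hz2.sub ((cmF_of_cl hS.idem.1 N).smul c))
  have h1 : pwF (bY y₁ (z - c • b)) m (bY y₁ (z - c • b)) = 0 := by
    rw [← bY_pwF hF hyp hcm, show pwF (z - c • b) m (z - c • b) = 0 from hm]
    funext x
    unfold bY br
    split_ifs <;> rfl
  have h2 : bY y₁ (z - c • b) = (∑ f ∈ S, f) - c • bY y₁ b := by
    rw [← hz4]
    funext x
    simp only [bY, br, Pi.sub_apply, Pi.smul_apply]
    split_ifs
    · rfl
    · simp
  rw [h2] at h1
  -- in the group algebra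
  set D := toMA ((∑ f ∈ S, f) - c • bY y₁ b) with hD
  have h3 : D ^ (m + 1) = 0 := by
    have := congrArg toMA h1
    rw [toMA_pwF, toMA_zero, ← pow_succ] at this
    exact this
  have h4 : D * toMA e'' = (-c) • toMA e'' := by
    rw [hD, toMA_sub, toMA_smul, sub_mul, smul_mul_assoc, ← toMA_mulF, ← toMA_mulF, hae'', h''.le,
      toMA_zero, zero_sub, neg_smul]
  have h5 : ∀ k : ℕ, D ^ k * toMA e'' = (-c) ^ k • toMA e'' := by
    intro k
    induction k with
    | zero => rw [pow_zero, pow_zero, one_mul, one_smul]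
    | succ k ih =>
      rw [pow_succ, mul_assoc, h4, mul_smul_comm, ih, smul_smul, pow_succ']
  have h6 := h5 (m + 1)
  rw [h3, zero_mul] at h6
  have h7 : c = 0 := by
    rcases smul_eq_zero.1 h6.symm with h8 | h8
    · exact neg_eq_zero.1 (pow_eq_zero_iff (Nat.succ_ne_zero m) |>.1 h8)
    · exact absurd (toMA_injective (h8.trans toMA_zero.symm)) (blc_ne h'')
  have h8 : D * toMA e' = toMA e' := by
    rw [hD, h7, zero_smul, sub_zero, ← toMA_mulF, hae']
  have h9 : ∀ k : ℕ, D ^ k * toMA e' = toMA e' := by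
    intro k
    induction k with
    | zero => rw [pow_zero, one_mul]
    | succ k ih => rw [pow_succ, mul_assoc, h8, ih]
  have h10 := h9 (m + 1)
  rw [h3, zero_mul] at h10
  exact blc_ne h' (toMA_injective (h10.symm.trans toMA_zero.symm))

end Pool.Agent.PP.CD2.H31
end
end -- Pool.Agent.Helper31_D2.Cl1

section -- Pool.Agent.Helper40_D2.CL2

/-!
# Squad PP, part D2, module CL2: the defect groups of the blocks of `C` below `b₁`
-/

open scoped BigOperators

set_option linter.unusedSectionVars false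

noncomputable section

namespace Pool.Agent.PP.CD2.H40

open Pool.Agent.PP Pool.Agent.Helper51_AWC Pool.Agent.Helper79_WRA Pool.Agent.PP.H20
open Pool.Agent.PP.CD2.H66

variable {F : Type} [Field F] {G : Type} [Group G] [Finite G]

/-- the relative trace -/
def TrG (c z : G → F) : G → F := fun y => ∑ᶠ g : G, c g * z (g⁻¹ * y * g)

theorem toMA_TrG [Fintype G] (c z : G → F) : toMA (TrG c z) =
    ∑ g : G, c g • (MonoidAlgebra.single g (1 : F) * toMA z * MonoidAlgebra.single g⁻¹ (1 : F)) := by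
  have h1 : TrG c z = ∑ g : G, c g • (fun y => z (g⁻¹ * y * g)) := by
    funext y
    rw [Finset.sum_apply]
    show ∑ᶠ g : G, c g * z (g⁻¹ * y * g) = _
    rw [finsum_eq_sum_of_fintype]
    rfl
  rw [h1, toMA_sum']
  exact Finset.sum_congr rfl fun g _ => by rw [toMA_smul, toMA_conj]

/-- elements commuting with the support of the weights -/
theorem mulF_TrG {C : Subgroup G} {c z a : G → F} (hc : ∀ g, g ∉ C → c g = 0) (ha : CmF C a) :
    mulF a (TrG c z) = TrG c (mulF a z) := by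
  have := Fintype.ofFinite G
  apply toMA_injective
  rw [toMA_mulF, toMA_TrG, toMA_TrG, Finset.mul_sum]
  refine Finset.sum_congr rfl fun g _ => ?_
  by_cases hg : g ∈ C
  · rw [mul_smul_comm, toMA_mulF, ← mul_assoc, ← mul_assoc, ← (cmF_iff.1 ha g hg)]
    simp only [mul_assoc]
  · rw [hc g hg, zero_smul, zero_smul, mul_zero]

/-- conjugates of relative traces -/
theorem TrG_conj (t : G) (c z : G → F) (y : G) :
    TrG (fun g => c (t⁻¹ * g * t)) (fun g => z (t⁻¹ * g * t)) y = TrG c z (t⁻¹ * y * t) := by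
  have := Fintype.ofFinite G
  show ∑ᶠ g : G, c (t⁻¹ * g * t) * z (t⁻¹ * (g⁻¹ * y * g) * t) =
    ∑ᶠ g : G, c g * z (g⁻¹ * (t⁻¹ * y * t) * g)
  rw [finsum_eq_sum_of_fintype, finsum_eq_sum_of_fintype]
  refine Fintype.sum_equiv (MulAut.conj t⁻¹).toEquiv _ _ fun g => ?_
  show c (t⁻¹ * g * t) * z (t⁻¹ * (g⁻¹ * y * g) * t) =
    c (t⁻¹ * g * t⁻¹⁻¹) * z ((t⁻¹ * g * t⁻¹⁻¹)⁻¹ * (t⁻¹ * y * t) * (t⁻¹ * g * t⁻¹⁻¹))
  rw [inv_inv]
  congr 2
  group

theorem w_conj {C Q : Subgroup G} {c : G → F} (hc : IsW C Q c) {t : G}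
    (ht : ∀ x, t⁻¹ * x * t ∈ C ↔ x ∈ C) :
    IsW C (conjS t Q) (fun g => c (t⁻¹ * g * t)) := by
  have hfQ := Fintype.ofFinite Q
  have hfQ' := Fintype.ofFinite (conjS t Q)
  refine ⟨fun g hg => hc.supp _ fun h => hg ((ht g).1 h), ?_⟩
  intro g hg
  have h1 := hc.sum _ ((ht g).2 hg)
  rw [← h1, finsum_eq_sum_of_fintype, finsum_eq_sum_of_fintype]
  symm
  refine Fintype.sum_bijective (fun p : Q => (⟨t * p * t⁻¹, by
      rw [mem_conjS]
      have e : t⁻¹ * (t * (p : G) * t⁻¹) * t = p := by group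
      rw [e]
      exact p.2⟩ : conjS t Q)) ⟨?_, ?_⟩ _ _ ?_
  · intro p p' h
    have h2 := congrArg Subtype.val h
    exact Subtype.ext (mul_left_cancel (mul_right_cancel h2))
  · rintro ⟨x, hx⟩
    rw [mem_conjS] at hx
    refine ⟨⟨_, hx⟩, Subtype.ext ?_⟩
    show t * (t⁻¹ * x * t) * t⁻¹ = x
    group
  · intro p
    show c (t⁻¹ * g * t * p) = c (t⁻¹ * (g * (t * (p : G) * t⁻¹)) * t)
    congr 1
    group

theorem cmF_conj {Q : Subgroup G} {z : G → F} (hz : CmF Q z) (t : G) :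
    CmF (conjS t Q) (fun g => z (t⁻¹ * g * t)) := by
  intro p hp x
  rw [mem_conjS] at hp
  show z (t⁻¹ * (p * x * p⁻¹) * t) = z (t⁻¹ * x * t)
  rw [← hz _ hp (t⁻¹ * x * t)]
  congr 1
  group

/-- conjugates of relative projectivity -/
theorem prj_conj {C Q : Subgroup G} {a : G → F} (h : PrjB C Q a) {t : G}
    (ht : ∀ x, t⁻¹ * x * t ∈ C ↔ x ∈ C) :
    PrjB C (conjS t Q) (fun g => a (t⁻¹ * g * t)) := by
  obtain ⟨c, z, hc, hz, hzQ, ha⟩ := h
  refine ⟨fun g => c (t⁻¹ * g * t), fun g => z (t⁻¹ * g * t), w_conj hc ht,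
    fun x hx => hz _ fun h => hx ((ht x).1 h), cmF_conj hzQ t, fun y => ?_⟩
  have h1 := TrG_conj t c z y
  show a (t⁻¹ * y * t) = _
  rw [ha]
  exact h1.symm

/-- the part of a relative trace over a right coset of `C` -/
theorem TrG_split {K C : Subgroup G} {c z : G → F} (hc : ∀ g, g ∉ K → c g = 0)
    {d : G → F} (hd : IsW K C d) [Fintype G] : TrG c z = ∑ k : G, d k⁻¹ •
      TrG (fun h => (open Classical in if h ∈ C then c (h * k) else 0))
        (fun g => z (k⁻¹ * g * k)) := by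
  classical
  have hfC := Fintype.ofFinite C
  funext y
  rw [Finset.sum_apply]
  show ∑ᶠ g : G, c g * z (g⁻¹ * y * g) = ∑ k : G, d k⁻¹ *
    ∑ᶠ h : G, (if h ∈ C then c (h * k) else 0) * z (k⁻¹ * (h⁻¹ * y * h) * k)
  rw [finsum_eq_sum_of_fintype]
  have h1 : ∀ g : G, c g * z (g⁻¹ * y * g) =
      ∑ h : G, (if h ∈ C then d (g⁻¹ * h) * (c g * z (g⁻¹ * y * g)) else 0) := by
    intro g
    by_cases hg : g ∈ K
    · have h2 := hd.sum g⁻¹ (inv_mem hg)
      rw [finsum_eq_sum_of_fintype] at h2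
      rw [← Finset.sum_filter, Finset.sum_subtype (Finset.univ.filter fun h : G => h ∈ C)
        (p := fun h => h ∈ C) (fun h => by simp), ← Finset.sum_mul, h2, one_mul]
    · rw [hc g hg, zero_mul]
      symm
      refine Finset.sum_eq_zero fun h _ => ?_
      rw [mul_zero, ite_self]
  rw [Finset.sum_congr rfl fun g _ => h1 g, Finset.sum_comm]
  have h3 : ∀ k : G, d k⁻¹ * ∑ᶠ h : G, (if h ∈ C then c (h * k) else 0) *
      z (k⁻¹ * (h⁻¹ * y * h) * k) =
      ∑ h : G, (if h ∈ C then d k⁻¹ * (c (h * k) * z (k⁻¹ * (h⁻¹ * y * h) * k)) else 0) := by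
    intro k
    rw [finsum_eq_sum_of_fintype, Finset.mul_sum]
    refine Finset.sum_congr rfl fun h _ => ?_
    by_cases hh : h ∈ C
    · rw [if_pos hh, if_pos hh]
    · rw [if_neg hh, if_neg hh, zero_mul, mul_zero]
  rw [Finset.sum_congr rfl fun k _ => h3 k, Finset.sum_comm (s := Finset.univ)
    (t := (Finset.univ : Finset G)) (f := fun k h => if h ∈ C then d k⁻¹ *
      (c (h * k) * z (k⁻¹ * (h⁻¹ * y * h) * k)) else 0)]
  refine Finset.sum_congr rfl fun h _ => ?_
  by_cases hh : h ∈ C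
  · simp only [if_pos hh]
    refine Fintype.sum_equiv (Equiv.mulLeft h⁻¹) _ _ fun g => ?_
    show d (g⁻¹ * h) * (c g * z (g⁻¹ * y * g)) = d (h⁻¹ * g)⁻¹ *
      (c (h * (h⁻¹ * g)) * z ((h⁻¹ * g)⁻¹ * (h⁻¹ * y * h) * (h⁻¹ * g)))
    have e1 : (h⁻¹ * g)⁻¹ = g⁻¹ * h := by group
    have e2 : h * (h⁻¹ * g) = g := by group
    have e3 : g⁻¹ * h * (h⁻¹ * y * h) * (h⁻¹ * g) = g⁻¹ * y * g := by group
    rw [e1, e2, e3]
  · simp only [if_neg hh, Finset.sum_const_zero]

theorem w_split {K C P : Subgroup G} (hPC : P ≤ C) (hCK : C ≤ K) {c : G → F} (hc : IsW K P c)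
    {k : G} (hk : k ∈ K) (hkC : ∀ x, k⁻¹ * x * k ∈ C ↔ x ∈ C) :
    IsW C (conjS k P) (fun h => (open Classical in if h ∈ C then c (h * k) else 0)) := by
  classical
  have hfP := Fintype.ofFinite P
  have hfP' := Fintype.ofFinite (conjS k P)
  refine ⟨fun g hg => if_neg hg, ?_⟩
  intro g hg
  have h1 := hc.sum (g * k) (mul_mem (hCK hg) hk)
  rw [← h1, finsum_eq_sum_of_fintype, finsum_eq_sum_of_fintype]
  symm
  refine Fintype.sum_bijective (fun p : P => (⟨k * p * k⁻¹, by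
      rw [mem_conjS]
      have e : k⁻¹ * (k * (p : G) * k⁻¹) * k = p := by group
      rw [e]
      exact p.2⟩ : conjS k P)) ⟨?_, ?_⟩ _ _ ?_
  · intro p p' h
    have h2 := congrArg Subtype.val h
    exact Subtype.ext (mul_left_cancel (mul_right_cancel h2))
  · rintro ⟨x, hx⟩
    rw [mem_conjS] at hx
    refine ⟨⟨_, hx⟩, Subtype.ext ?_⟩
    show k * (k⁻¹ * x * k) * k⁻¹ = x
    group
  · intro p
    show c (g * k * p) = (if g * (k * (p : G) * k⁻¹) ∈ C then c (g * (k * (p : G) * k⁻¹) * k)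
      else 0)
    rw [if_pos]
    · congr 1
      group
    · refine mul_mem hg ((hkC _).1 ?_)
      have e : k⁻¹ * (k * (p : G) * k⁻¹) * k = p := by group
      rw [e]
      exact hPC p.2

/-- sums with weights do not depend on the weights -/
theorem w_indep {C Q : Subgroup G} {c c' : G → F} (hc : IsW C Q c) (hc' : IsW C Q c')
    {h : G → F} (hh : ∀ g, ∀ q ∈ Q, h (g * q) = h g) [Fintype G] :
    ∑ g : G, c g * h g = ∑ g : G, c' g * h g := by
  classical
  have hfQ := Fintype.ofFinite Q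
  have h1 : ∀ g : G, c g * h g = ∑ q : Q, c g * h g * c' (g * q) := by
    intro g
    rw [← Finset.mul_sum]
    by_cases hg : g ∈ C
    · have h2 := hc'.sum g hg
      rw [finsum_eq_sum_of_fintype] at h2
      rw [h2, mul_one]
    · rw [hc.supp g hg, zero_mul, zero_mul]
  have h2 : ∀ g : G, c' g * h g = ∑ q : Q, c (g * (q : G)⁻¹) * h g * c' g := by
    intro g
    rw [← Finset.sum_mul, ← Finset.sum_mul]
    by_cases hg : g ∈ C
    · have h3 := hc.sum g hg
      rw [finsum_eq_sum_of_fintype] at h3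
      have h4 : ∑ q : Q, c (g * (q : G)⁻¹) = 1 := by
        rw [← h3]
        exact Fintype.sum_equiv (Equiv.inv Q) _ _ fun q => rfl
      rw [h4, one_mul, mul_comm]
    · rw [hc'.supp g hg, zero_mul, mul_zero]
  rw [Finset.sum_congr rfl fun g _ => h1 g, Finset.sum_congr rfl fun g _ => h2 g,
    Finset.sum_comm, Finset.sum_comm (s := (Finset.univ : Finset G)) (t := (Finset.univ : Finset Q))
      (f := fun g q => c (g * (q : G)⁻¹) * h g * c' g)]
  refine Finset.sum_congr rfl fun q _ => ?_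
  refine Fintype.sum_equiv (Equiv.mulRight (q : G)) _ _ fun g => ?_
  show c g * h g * c' (g * q) = c (g * q * (q : G)⁻¹) * h (g * q) * c' (g * q)
  rw [mul_inv_cancel_right, hh g q q.2]

/-- the relative trace commutes with `C` -/
theorem cmF_TrG {C Q : Subgroup G} {c z : G → F} (hc : IsW C Q c) (hz : CmF Q z) :
    CmF C (TrG c z) := by
  have := Fintype.ofFinite G
  intro s hs y
  show ∑ᶠ g : G, c g * z (g⁻¹ * (s * y * s⁻¹) * g) = ∑ᶠ g : G, c g * z (g⁻¹ * y * g)
  rw [finsum_eq_sum_of_fintype, finsum_eq_sum_of_fintype]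
  have hc' : IsW C Q (fun g => c (s * g)) := by
    refine ⟨fun g hg => hc.supp _ fun h => hg ?_, fun g hg => ?_⟩
    · have h1 := mul_mem (inv_mem hs) h
      rwa [inv_mul_cancel_left] at h1
    · rw [← hc.sum (s * g) (mul_mem hs hg)]
      exact finsum_congr fun q => by rw [mul_assoc]
  rw [w_indep hc hc' (h := fun g => z (g⁻¹ * y * g))]
  · symm
    refine Fintype.sum_equiv (Equiv.mulLeft s) _ _ fun g => ?_
    show c (s * g) * z (g⁻¹ * y * g) = c (s * g) * z ((s * g)⁻¹ * (s * y * s⁻¹) * (s * g))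
    congr 2
    group
  · intro g q hq
    show z ((g * q)⁻¹ * y * (g * q)) = z (g⁻¹ * y * g)
    rw [← hz _ (inv_mem hq) (g⁻¹ * y * g)]
    congr 1
    group

theorem spF_TrG {C : Subgroup G} {c z : G → F} (hc : ∀ g, g ∉ C → c g = 0) (hz : SpF C z) :
    SpF C (TrG c z) := by
  intro y hy
  show ∑ᶠ g : G, c g * z (g⁻¹ * y * g) = 0
  rw [finsum_eq_zero_of_forall_eq_zero]
  intro g
  by_cases hg : g ∈ C
  · rw [hz, mul_zero]
    intro h
    apply hy
    have h1 := mul_mem (mul_mem hg h) (inv_mem hg)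
    have e : g * (g⁻¹ * y * g) * g⁻¹ = y := by group
    rwa [e] at h1
  · rw [hc g hg, zero_mul]

theorem P_le {ℓ n : ℕ} {N P : Subgroup G} {y₁ : G} {b : G → F} (h : ClS ℓ n N P y₁ b) :
    P ≤ N ⊓ CY y₁ := by
  intro p hp
  refine ⟨h.le hp, Subgroup.mem_centralizer_iff.2 ?_⟩
  intro z hz
  have hcyc := h.cyc
  have hzP : z ∈ P := (Subgroup.zpowers_le.2 h.mem) hz
  have h1 : (⟨z, hzP⟩ : P) * ⟨p, hp⟩ = ⟨p, hp⟩ * ⟨z, hzP⟩ := by
    have := IsCyclic.commGroup (α := P)
    exact IsMulCommutative.is_comm.comm _ _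
  exact congrArg Subtype.val h1

theorem norm_C {N : Subgroup G} (hN : N.Normal) {y₁ k : G} (hk : k ∈ NY y₁) (x : G) :
    k⁻¹ * x * k ∈ N ⊓ CY y₁ ↔ x ∈ N ⊓ CY y₁ := by
  have key : ∀ g : G, g ∈ NY y₁ → ∀ x : G, x ∈ N ⊓ CY y₁ → g * x * g⁻¹ ∈ N ⊓ CY y₁ := by
    rintro g hg x ⟨hx, hxc⟩
    refine ⟨hN.conj_mem x hx g, ?_⟩
    have hx' := Subgroup.mem_centralizer_iff.1 hxc
    refine Subgroup.mem_centralizer_iff.2 ?_
    intro z hz
    have h1 : g⁻¹ * z * g ∈ Subgroup.zpowers y₁ := by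
      have := (Subgroup.mem_normalizer_iff.1 (inv_mem hg) z).1 hz
      rwa [inv_inv] at this
    have h2 := hx' _ h1
    calc z * (g * x * g⁻¹) = g * ((g⁻¹ * z * g) * x) * g⁻¹ := by group
      _ = g * (x * (g⁻¹ * z * g)) * g⁻¹ := by rw [h2]
      _ = g * x * g⁻¹ * z := by group
  constructor
  · intro h
    have h1 := key k hk _ h
    have e : k * (k⁻¹ * x * k) * k⁻¹ = x := by group
    rwa [e] at h1
  · intro h
    have h1 := key k⁻¹ (inv_mem hk) _ h
    rwa [inv_inv] at h1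

/-- one block of `C` below `b₁` with defect group `P` -/
theorem cl2_one (hbrp : BrpStmt) (hbrq : BrqStmt) (hbld : BldStmt) (hinv : InvStmt) {ℓ : ℕ}
    [Fact ℓ.Prime] (hF : GoodF ℓ F) {n : ℕ} {N P : Subgroup G} {y₁ : G} {b : G → F}
    (h : ClS ℓ n N P y₁ b) :
    ∃ e₀ : G → F, BlC (N ⊓ CY y₁) (bY y₁ b) e₀ ∧ PrjB (N ⊓ CY y₁) P e₀ ∧ br P e₀ ≠ 0 := by
  classical
  have hfG := Fintype.ofFinite G
  have hfC := Fintype.ofFinite (N ⊓ CY y₁ : Subgroup G)
  have hPC : P ≤ N ⊓ CY y₁ := P_le h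
  have hCK : N ⊓ CY y₁ ≤ N ⊓ NY y₁ := inf_le_inf_left _ (CY_le_NY y₁)
  have hPK : P ≤ N ⊓ NY y₁ := hPC.trans hCK
  have hPp : IsPGroup ℓ P := IsPGroup.of_card (n := n + 1) h.card
  have hy₁ : Subgroup.zpowers y₁ ≤ P := Subgroup.zpowers_le.2 h.mem
  have hy₁p : IsPGroup ℓ (Subgroup.zpowers y₁) := hPp.to_le hy₁
  -- the idempotent `b₁`
  have hb₁s : SpF (N ⊓ CY y₁) (bY y₁ b) := bY_sp h.supp
  have hb₁K : CmF (N ⊓ NY y₁) (bY y₁ b) := bY_cm (cmF_of_cl h.idem.1 N)
  have hb₁C : CmF (N ⊓ CY y₁) (bY y₁ b) := hb₁K.mono hCK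
  have hb₁b : mulF (bY y₁ b) (bY y₁ b) = bY y₁ b := by
    rw [← bY_mulF hF hy₁p (cmF_of_cl h.idem.1 _) (cmF_of_cl h.idem.1 _), h.idem.2]
  have hbrcent : Subgroup.centralizer (P : Set G) ≤ CY y₁ :=
    Subgroup.centralizer_le hy₁
  have hbr₁ : br P (bY y₁ b) = br P b := by
    funext x
    by_cases hx : x ∈ Subgroup.centralizer (P : Set G)
    · rw [_root_.Pool.Agent.PP.H66.br_of_mem hx, _root_.Pool.Agent.PP.H66.br_of_mem hx]
      exact _root_.Pool.Agent.PP.H66.br_of_mem (hbrcent hx)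
    · rw [_root_.Pool.Agent.PP.H66.br_of_not_mem hx, _root_.Pool.Agent.PP.H66.br_of_not_mem hx]
  obtain ⟨m, e, he1, -, he3⟩ := hbld ℓ F hF G (N ⊓ CY y₁) (bY y₁ b) hb₁s hb₁C hb₁b
  obtain ⟨t, ht⟩ : ∃ t, br P (e t) ≠ 0 := by
    by_contra hcon
    push Not at hcon
    apply h.brn
    rw [← hbr₁, ← he3]
    funext x
    by_cases hx : x ∈ Subgroup.centralizer (P : Set G)
    · rw [_root_.Pool.Agent.PP.H66.br_of_mem hx, Finset.sum_apply]
      refine Finset.sum_eq_zero fun t _ => ?_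
      have h1 := congrFun (hcon t) x
      rw [_root_.Pool.Agent.PP.H66.br_of_mem hx] at h1
      exact h1
    · rw [_root_.Pool.Agent.PP.H66.br_of_not_mem hx]
      rfl
  have hblc := he1 t
  set e₀ : G → F := e t with he₀
  refine ⟨e₀, hblc, ?_, ht⟩
  -- the relative trace from `P` to `K`
  obtain ⟨c, z, hc, hz, hzP, hbz⟩ := h.prj1
  have hKK : (N ⊓ NY y₁) ⊓ NY y₁ = N ⊓ NY y₁ := by rw [inf_assoc, inf_idem]
  have h1 := hbrq ℓ F hF G n (N ⊓ NY y₁) P y₁ hPK h.cyc h.card h.mem h.ord c c z hc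
    (by rw [hKK]; exact hc) hzP
  have h2 : (fun x => ∑ᶠ g : G, c g * z (g⁻¹ * x * g)) = bY y₁ b := by
    funext x
    exact (hbz x).symm
  have hbb : bY y₁ (bY y₁ b) = bY y₁ b := by
    funext x
    by_cases hx : x ∈ Subgroup.centralizer (Subgroup.zpowers y₁ : Set G)
    · exact _root_.Pool.Agent.PP.H66.br_of_mem hx
    · have h3 : bY y₁ (bY y₁ b) x = 0 := _root_.Pool.Agent.PP.H66.br_of_not_mem hx
      have h4 : bY y₁ b x = 0 := _root_.Pool.Agent.PP.H66.br_of_not_mem hx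
      rw [h3, h4]
  rw [h2, hbb] at h1
  set z₁ : G → F := bY y₁ z with hz₁
  have hbT : bY y₁ b = TrG c z₁ := h1
  have hz₁s : SpF (N ⊓ CY y₁) z₁ := by
    have h3 : SpF ((N ⊓ NY y₁) ⊓ CY y₁) z₁ := bY_sp hz
    exact h3.mono (by
      intro x hx
      exact ⟨hx.1.1, hx.2⟩)
  have hPNY : P ≤ NY y₁ := hPK.trans inf_le_right
  have hz₁P : CmF P z₁ := by
    have h3 : CmF (P ⊓ NY y₁) z₁ := bY_cm (y := y₁) (H := P) hzP
    rwa [inf_eq_left.2 hPNY] at h3
  -- weights for `K` and `C`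
  obtain ⟨d, hd⟩ := D1H51.exists_w F hCK
  have hsplit := TrG_split (C := N ⊓ CY y₁) (z := z₁) hc.supp hd
  set C : Subgroup G := N ⊓ CY y₁ with hC
  -- a representation
  obtain ⟨r, ρ, hρ, hρe⟩ := H20.blk_rep hF hblc.blk.1 hblc.blk.2.1
  let T : G → G → F := fun k => TrG (fun h => if h ∈ C then c (h * k) else 0)
    (fun g => z₁ (k⁻¹ * g * k))
  have hbT' : bY y₁ b = ∑ k : G, d k⁻¹ • T k := by
    rw [hbT]
    exact hsplit
  have hρb : ev ρ (fun x : C => bY y₁ b x) = 1 := by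
    have h3 : mulF (fun x : C => bY y₁ b x) (fun x : C => e₀ x) = fun x : C => e₀ x := by
      rw [← H46.restr_ext0 (mulF (fun x : C => bY y₁ b x) (fun x : C => e₀ x)), H46.ext0_mul,
        H46.ext0_restr hb₁s, H46.ext0_restr hblc.supp, hblc.le]
    have h4 := congrArg (ev ρ) h3
    rw [H20.ev_mulF, hρe, mul_one] at h4
    exact h4
  have hdK : ∀ k : G, k ∉ N ⊓ NY y₁ → d k⁻¹ = 0 := fun k hk => hd.supp _ fun h' => hk (by
    have := inv_mem h'
    rwa [inv_inv] at this)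
  have hr : NeZero r := ⟨hρ.1.ne'⟩
  obtain ⟨k, hk, hTk⟩ : ∃ k ∈ N ⊓ NY y₁, ev ρ (fun x : C => T k x) ≠ 0 := by
    by_contra hcon
    push Not at hcon
    have h3 : (fun x : C => bY y₁ b x) = ∑ k : G, d k⁻¹ • (fun x : C => T k x) := by
      funext x
      rw [hbT', Finset.sum_apply, Finset.sum_apply]
      rfl
    rw [h3, D1H51.ev_lin, Finset.sum_eq_zero] at hρb
    · have h4 : Matrix.scalar (Fin r) (1 : F) = Matrix.scalar (Fin r) (0 : F) := by
        rw [map_one, map_zero, hρb]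
      exact one_ne_zero (Matrix.scalar_inj.1 h4)
    · intro k _
      by_cases hk : k ∈ N ⊓ NY y₁
      · rw [hcon k hk, smul_zero]
      · rw [hdK k hk, zero_smul]
  have hkC : ∀ x, k⁻¹ * x * k ∈ C ↔ x ∈ C := norm_C h.normal hk.2
  have hw := w_split hPC hCK hc hk hkC
  have hzk : CmF (conjS k P) (fun g => z₁ (k⁻¹ * g * k)) := cmF_conj hz₁P k
  have hzks : SpF C (fun g => z₁ (k⁻¹ * g * k)) := fun x hx => hz₁s _ fun h' => hx ((hkC x).1 h')
  have hTC : CmF C (T k) := cmF_TrG hw hzk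
  have hTs : SpF C (T k) := spF_TrG hw.supp hzks
  have hTcl : IsCl (fun x : C => T k x) := fun x s => hTC s s.2 x
  obtain ⟨w, hwT, -⟩ := H20.eig F C r ρ hρ _ hTcl
  have hw0 : w ≠ 0 := by
    rintro rfl
    apply hTk
    rw [hwT, map_zero]
  obtain ⟨u, hu, hub⟩ := hinv ℓ F hF C (fun x : C => e₀ x) (fun x : C => T k x) hblc.blk hTcl
    (D1H51.not_nil hρ hw0 hwT hρe)
  set U : G → F := ext0 C u with hU
  have hUC : CmF C U := fun m hm y => D1H51.ext0_inv hu hm y
  have hUs : SpF C U := fun y hy => H46.ext0_of_not_mem _ hy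
  have he₀C : CmF C e₀ := by
    have h3 : e₀ = ext0 C (fun x : C => e₀ x) := (H46.ext0_restr hblc.supp).symm
    rw [h3]
    exact fun m hm y => D1H51.ext0_inv hblc.blk.1.1 hm y
  have hprod : mulF (mulF e₀ U) (T k) = e₀ := by
    have h3 : mulF e₀ (mulF (T k) U) = e₀ := by
      have h4 := congrArg (ext0 C) hub
      rw [H46.ext0_mul, H46.ext0_mul, H46.ext0_restr hblc.supp, H46.ext0_restr hTs] at h4
      exact h4
    rw [mulF_assoc, cm_comm hUC hTs]
    exact h3
  have hprod' : TrG (fun h => if h ∈ C then c (h * k) else 0)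
      (mulF (mulF e₀ U) (fun g => z₁ (k⁻¹ * g * k))) = e₀ := by
    rw [← mulF_TrG hw.supp (he₀C.mul hUC)]
    exact hprod
  have hQC : conjS k P ≤ C := by
    intro x hx
    rw [mem_conjS] at hx
    exact (hkC x).1 (hPC hx)
  have ha1 : CmF (conjS k P) (mulF (mulF e₀ U) (fun g => z₁ (k⁻¹ * g * k))) :=
    ((he₀C.mul hUC).mono hQC).mul hzk
  have ha2 : SpF C (mulF (mulF e₀ U) (fun g => z₁ (k⁻¹ * g * k))) :=
    (hblc.supp.mul hUs).mul hzks
  have hprj : PrjB C (conjS k P) e₀ :=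
    ⟨_, _, hw, ha2, ha1, fun y => (congrFun hprod' y).symm⟩
  obtain ⟨s, hs, hPs⟩ := (hbrp ℓ F hF G C P (conjS k P) hPp hPC hQC _ _ hw ha1).1 (by
    intro h0
    apply ht
    have h5 : (fun x => ∑ᶠ g : G, (fun h => if h ∈ C then c (h * k) else 0) g *
      (mulF (mulF e₀ U) (fun g => z₁ (k⁻¹ * g * k))) (g⁻¹ * x * g)) = e₀ := hprod'
    rw [h5] at h0
    exact h0)
  have hPeq : P = conjS s (conjS k P) :=
    Subgroup.eq_of_le_of_card_ge hPs (by rw [card_conjS, card_conjS])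
  have hsC : ∀ x, s⁻¹ * x * s ∈ C ↔ x ∈ C := by
    intro x
    constructor
    · intro h'
      have h1 := mul_mem (mul_mem hs h') (inv_mem hs)
      have e : s * (s⁻¹ * x * s) * s⁻¹ = x := by group
      rwa [e] at h1
    · intro h'
      exact mul_mem (mul_mem (inv_mem hs) h') hs
  have hfin := prj_conj hprj hsC
  rw [← hPeq] at hfin
  have h6 : (fun g => e₀ (s⁻¹ * g * s)) = e₀ := by
    funext g
    have := he₀C s⁻¹ (inv_mem hs) g
    rwa [inv_inv] at this
  rwa [h6] at hfin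

/-- CL2 -/
theorem cl2 (hcl1 : Cl1Stmt) (hbrp : BrpStmt) (hbrq : BrqStmt) (hbld : BldStmt)
    (hinv : InvStmt) : Cl2Stmt := by
  intro ℓ _ F _ hF G _ _ n N P y₁ b h e' he'
  obtain ⟨e₀, h0, hprj, hbr⟩ := cl2_one hbrp hbrq hbld hinv hF h
  obtain ⟨k, hk, hk'⟩ := hcl1 ℓ F hF G n N P y₁ b h e₀ e' h0 he'
  refine ⟨k, hk, ?_, ?_⟩
  · rw [hk']
    exact prj_conj hprj (norm_C h.normal hk.2)
  · intro h1
    apply hbr
    funext x
    by_cases hx : x ∈ Subgroup.centralizer (P : Set G)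
    · rw [_root_.Pool.Agent.PP.H66.br_of_mem hx]
      have h2 : k * x * k⁻¹ ∈ Subgroup.centralizer (conjS k P : Set G) := by
        rw [Subgroup.mem_centralizer_iff]
        intro y hy
        have hy' : k⁻¹ * y * k ∈ P := mem_conjS.1 hy
        have h4 := Subgroup.mem_centralizer_iff.1 hx _ hy'
        calc y * (k * x * k⁻¹) = k * (k⁻¹ * y * k * x) * k⁻¹ := by group
          _ = k * (x * (k⁻¹ * y * k)) * k⁻¹ := by rw [h4]
          _ = k * x * k⁻¹ * y := by group
      have h3 := congrFun h1 (k * x * k⁻¹)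
      rw [_root_.Pool.Agent.PP.H66.br_of_mem h2, hk'] at h3
      have e : k⁻¹ * (k * x * k⁻¹) * k = x := by group
      have h4 : e₀ (k⁻¹ * (k * x * k⁻¹) * k) = 0 := h3
      rw [e] at h4
      exact h4
    · rw [_root_.Pool.Agent.PP.H66.br_of_not_mem hx]
      rfl

end Pool.Agent.PP.CD2.H40
end
end -- Pool.Agent.Helper40_D2.CL2

section -- Pool.Agent.Helper56_D2.Umx

/-!
# Squad PP, part D2, module UMX: extension by zero
-/

open scoped BigOperators

set_option linter.unusedSectionVars false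

noncomputable section

namespace Pool.Agent.PP.CD2.H56

open Pool.Agent.Helper51_AWC Pool.Agent.Helper79_WRA Pool.Agent.PP

variable {F : Type} [Field F] {G : Type} [Group G] [Finite G] {C : Subgroup G}

theorem ext_in (a : C → F) {x : G} (hx : x ∈ C) : extF C a x = a ⟨x, hx⟩ := by
  unfold extF
  rw [dif_pos hx]

theorem ext_coe (a : C → F) (x : C) : extF C a (x : G) = a x := ext_in a x.2

theorem ext_out (a : C → F) {x : G} (hx : x ∉ C) : extF C a x = 0 := by
  unfold extF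
  rw [dif_neg hx]

theorem ext_sp (a : C → F) : SpF C (extF C a) := fun _ hx => ext_out a hx

theorem ext_res {a : G → F} (ha : SpF C a) : extF C (fun t : C => a t) = a := by
  funext x
  by_cases hx : x ∈ C
  · rw [ext_in _ hx]
  · rw [ext_out _ hx, ha x hx]

theorem ext_eq {a : C → F} {a' : G → F} (ha : SpF C a') (h : ∀ t : C, a' t = a t) :
    extF C a = a' := by
  funext x
  by_cases hx : x ∈ C
  · rw [ext_in _ hx]
    exact (h ⟨x, hx⟩).symm
  · rw [ext_out _ hx, ha x hx]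

theorem ext_mul (a b : C → F) : extF C (mulF a b) = mulF (extF C a) (extF C b) := by
  apply ext_eq (H75.mulF_supp C (ext_sp a) (ext_sp b))
  intro t
  have h1 := congrFun (H75.mulF_res C (extF C b) (ext_sp a)) t
  have h2 : (fun t : C => extF C a t) = a := funext fun t => ext_coe a t
  have h3 : (fun t : C => extF C b t) = b := funext fun t => ext_coe b t
  rw [h2, h3] at h1
  exact h1

theorem ext_zero : extF C (0 : C → F) = 0 := by
  funext x
  by_cases hx : x ∈ C
  · rw [ext_in _ hx]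
    rfl
  · rw [ext_out _ hx]
    rfl

theorem ext_add (a b : C → F) : extF C (a + b) = extF C a + extF C b := by
  funext x
  by_cases hx : x ∈ C
  · rw [Pi.add_apply, ext_in _ hx, ext_in _ hx, ext_in _ hx]
    rfl
  · rw [Pi.add_apply, ext_out _ hx, ext_out _ hx, ext_out _ hx, add_zero]

theorem ext_smul (c : F) (a : C → F) : extF C (c • a) = c • extF C a := by
  funext x
  by_cases hx : x ∈ C
  · rw [Pi.smul_apply, ext_in _ hx, ext_in _ hx]
    rfl
  · rw [Pi.smul_apply, ext_out _ hx, ext_out _ hx, smul_zero]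

theorem ext_sum {ι : Type} (s : Finset ι) (a : ι → C → F) :
    extF C (∑ i ∈ s, a i) = ∑ i ∈ s, extF C (a i) := by
  classical
  induction s using Finset.induction_on with
  | empty => rw [Finset.sum_empty, Finset.sum_empty, ext_zero]
  | insert i s hi ih => rw [Finset.sum_insert hi, Finset.sum_insert hi, ext_add, ih]

theorem ext_pw (w : C → F) (s : ℕ) (a : C → F) :
    extF C (pwF w s a) = pwF (extF C w) s (extF C a) := by
  unfold pwF
  induction s with
  | zero => rfl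
  | succ s ih => rw [Function.iterate_succ_apply', Function.iterate_succ_apply', ext_mul, ih]

theorem ext_inj {a b : C → F} (h : extF C a = extF C b) : a = b := by
  funext t
  have := congrFun h (t : G)
  rwa [ext_coe, ext_coe] at this

theorem ext_cm {a : C → F} (ha : CmF (⊤ : Subgroup C) a) : CmF C (extF C a) := by
  intro c hc x
  by_cases hx : x ∈ C
  · have h1 : c * x * c⁻¹ ∈ C := C.mul_mem (C.mul_mem hc hx) (C.inv_mem hc)
    rw [ext_in _ hx, ext_in _ h1]
    exact ha ⟨c, hc⟩ (Subgroup.mem_top _) ⟨x, hx⟩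
  · have h1 : c * x * c⁻¹ ∉ C := by
      intro h
      apply hx
      have h2 := C.mul_mem (C.mul_mem (C.inv_mem hc) h) hc
      have h3 : c⁻¹ * (c * x * c⁻¹) * c = x := by group
      rwa [h3] at h2
    rw [ext_out _ hx, ext_out _ h1]

/-- UMX -/
theorem umx : UmxStmt := by
  intro F _ G _ _ C b w i q h
  refine ⟨ext_sp _, ext_sp _, ext_sp _, ext_cm h.cb, ext_cm h.cw, ?_, ?_, ?_, ?_, ?_, ?_, ?_, ?_⟩
  · rw [← ext_mul, h.bb]
  · rw [← ext_mul, h.bw]
  · rw [← ext_mul, h.ii]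
  · rw [← ext_mul, h.bi]
  · rw [← ext_pw, h.nil, ext_zero]
  · rw [← ext_pw]
    intro h1
    apply h.nz
    apply ext_inj
    rw [h1, ext_zero]
  · intro a ha
    obtain ⟨α, hα⟩ := h.loc (fun t : C => a t) (fun x hx => absurd (Subgroup.mem_top x) hx)
    refine ⟨α, ?_⟩
    have h1 := congrArg (extF C) hα
    rw [ext_mul, ext_mul, ext_res ha, ext_sum] at h1
    rw [h1]
    apply Finset.sum_congr rfl
    intro s _
    rw [ext_smul, ext_pw]
  · obtain ⟨m, x, y, _, hs⟩ := h.full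
    refine ⟨m, fun k => extF C (x k), fun k => extF C (y k), fun k => ⟨ext_sp _, ext_sp _⟩, ?_⟩
    rw [← hs, ext_sum]
    apply Finset.sum_congr rfl
    intro k _
    rw [ext_mul, ext_mul]

end Pool.Agent.PP.CD2.H56
end
end -- Pool.Agent.Helper56_D2.Umx

section -- Pool.Agent.Helper56_D2.Clc

/-!
# Squad PP, part D2, module CLC: the element `w`
-/

open scoped BigOperators

set_option linter.unusedSectionVars false

noncomputable section

namespace Pool.Agent.PP.CD2.H56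

open Pool.Agent.Helper51_AWC Pool.Agent.Helper79_WRA Pool.Agent.PP Pool.Agent.PP.H20
  Pool.Agent.PP.CD2.H66

/-- a cyclic group of order `ℓ ^ (n + 1)` has a generator whose power is a given element of
order `ℓ` -/
theorem gen_pow {ℓ : ℕ} [hℓ : Fact ℓ.Prime] {G : Type} [Group G] [Finite G] {n : ℕ}
    {Q : Subgroup G} (hQ : IsCyclic Q) (hc : Nat.card Q = ℓ ^ (n + 1)) {y₁ : G} (hy : y₁ ∈ Q)
    (ho : orderOf y₁ = ℓ) :
    ∃ y : G, Subgroup.zpowers y = Q ∧ orderOf y = ℓ ^ (n + 1) ∧ y ^ (ℓ ^ n) = y₁ := by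
  have hp : 0 < ℓ := hℓ.out.pos
  obtain ⟨g₀, hg₀⟩ := hQ.exists_generator
  have hg : Subgroup.zpowers (g₀ : G) = Q := by
    apply le_antisymm
    · rw [Subgroup.zpowers_le]
      exact g₀.2
    · intro x hx
      obtain ⟨k, hk⟩ := Subgroup.mem_zpowers_iff.1 (hg₀ ⟨x, hx⟩)
      rw [Subgroup.mem_zpowers_iff]
      refine ⟨k, ?_⟩
      have := congrArg Subtype.val hk
      simpa using this
  set g : G := (g₀ : G) with hgdef
  have hog : orderOf g = ℓ ^ (n + 1) := by
    rw [← Nat.card_zpowers, hg, hc]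
  obtain ⟨a, ha⟩ : ∃ a : ℕ, g ^ a = y₁ := by
    rw [← hg, ← mem_powers_iff_mem_zpowers] at hy
    exact hy
  have h1 : orderOf y₁ = ℓ ^ (n + 1) / Nat.gcd (ℓ ^ (n + 1)) a := by
    rw [← ha, orderOf_pow, hog]
  have hd : Nat.gcd (ℓ ^ (n + 1)) a ∣ ℓ ^ (n + 1) := Nat.gcd_dvd_left _ _
  have h2 : Nat.gcd (ℓ ^ (n + 1)) a = ℓ ^ n := by
    have h3 : Nat.gcd (ℓ ^ (n + 1)) a * ℓ = ℓ ^ (n + 1) := by
      have h4 := Nat.mul_div_cancel' hd
      rw [← h1, ho] at h4
      exact h4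
    rw [pow_succ] at h3
    exact Nat.eq_of_mul_eq_mul_right hp h3
  obtain ⟨a', ha'⟩ : ℓ ^ n ∣ a := h2 ▸ Nat.gcd_dvd_right _ _
  have h5 : Nat.gcd ℓ a' = 1 := by
    rw [ha', pow_succ, Nat.gcd_mul_left] at h2
    have h6 : 0 < ℓ ^ n := pow_pos hp n
    exact Nat.eq_of_mul_eq_mul_left h6 (by rw [h2, mul_one])
  have h7 : Nat.gcd (ℓ ^ (n + 1)) a' = 1 := Nat.Coprime.pow_left _ h5
  have h8 : orderOf (g ^ a') = ℓ ^ (n + 1) := by
    rw [orderOf_pow, hog, h7, Nat.div_one]
  refine ⟨g ^ a', ?_, h8, ?_⟩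
  · apply Subgroup.eq_of_le_of_card_ge
    · rw [← hg, Subgroup.zpowers_le]
      exact Subgroup.pow_mem _ (Subgroup.mem_zpowers g) a'
    · rw [hc, Nat.card_zpowers, h8]
  · rw [← pow_mul, mul_comm, ← ha', ha]

theorem pw_sum {F : Type} [Field F] {G : Type} [Group G] [Finite G] {m : ℕ} (w : G → F) (s : ℕ)
    (e : Fin m → G → F) : pwF w s (∑ t, e t) = ∑ t, pwF w s (e t) := by
  apply toMA_injective
  rw [toMA_pwF, toMA_sum, toMA_sum, Finset.mul_sum]
  exact Finset.sum_congr rfl fun t _ => (toMA_pwF _ _ _).symm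

/-- the element for one block -/
theorem one_block (hstr : StrStmt) (hcl2 : Cl2Stmt) {ℓ : ℕ} [Fact ℓ.Prime] {F : Type} [Field F]
    (hF : GoodF ℓ F) {G : Type} [Group G] [Finite G] {n : ℕ} {N P : Subgroup G} {y₁ : G}
    {b : G → F} (h : ClS ℓ n N P y₁ b) {e : G → F} (he : BlC (N ⊓ CY y₁) (bY y₁ b) e) :
    ∃ w i : G → F, UMF (N ⊓ CY y₁) e w i (ℓ ^ (n + 1)) ∧
      pwF w (ℓ ^ n) e = fun g => e (y₁⁻¹ * g) - e g := by
  obtain ⟨k, hk, hprj, hbr⟩ := hcl2 ℓ F hF G n N P y₁ b h e he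
  have hN : N.Normal := h.normal
  have hcycP : IsCyclic P := h.cyc
  have hcyc : IsCyclic (conjS k P) :=
    isCyclic_of_surjective (conjSEquiv k P) (conjSEquiv k P).surjective
  have hcard : Nat.card (conjS k P) = ℓ ^ (n + 1) := by rw [card_conjS, h.card]
  have hmem : y₁ ∈ conjS k P := by
    rw [mem_conjS]
    have h1 : k⁻¹ * y₁ * k ∈ Subgroup.zpowers y₁ := by
      have := (Subgroup.mem_normalizer_iff.1 (inv_mem hk.2) y₁).1 (Subgroup.mem_zpowers y₁)
      rwa [inv_inv] at this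
    have h2 : Subgroup.zpowers y₁ ≤ P := by
      rw [Subgroup.zpowers_le]
      exact h.mem
    exact h2 h1
  obtain ⟨y, hyQ, hyo, hyp⟩ := gen_pow hcyc hcard hmem h.ord
  have hQC : conjS k P ≤ N ⊓ CY y₁ := by
    intro x hx
    refine ⟨?_, ?_⟩
    · have h1 := h.le (mem_conjS.1 hx)
      have h2 := hN.conj_mem _ h1 k
      have h3 : k * (k⁻¹ * x * k) * k⁻¹ = x := by group
      rwa [h3] at h2
    · rw [← hyQ] at hx
      refine Subgroup.mem_centralizer_iff.2 fun z hz => ?_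
      have hz' : z ∈ Subgroup.zpowers y := by
        rw [hyQ]
        exact (Subgroup.zpowers_le.2 hmem) hz
      obtain ⟨i, rfl⟩ := Subgroup.mem_zpowers_iff.1 hx
      obtain ⟨j, rfl⟩ := Subgroup.mem_zpowers_iff.1 hz'
      rw [← zpow_add, ← zpow_add, add_comm]
  have hyC : y ∈ N ⊓ CY y₁ := hQC (hyQ ▸ Subgroup.mem_zpowers y)
  have hy₁C : y₁ ∈ N ⊓ CY y₁ := hQC hmem
  have hst : StS ℓ n ((conjS k P).subgroupOf (N ⊓ CY y₁)) (⟨y, hyC⟩ : (N ⊓ CY y₁ : Subgroup G))
      (fun t : (N ⊓ CY y₁ : Subgroup G) => e t) := by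
    refine ⟨?_, ?_, ?_, he.blk, ?_, ?_⟩
    · ext x
      rw [Subgroup.mem_subgroupOf, ← hyQ, Subgroup.mem_zpowers_iff, Subgroup.mem_zpowers_iff]
      constructor
      · rintro ⟨i, rfl⟩
        exact ⟨i, by simp⟩
      · rintro ⟨i, hi⟩
        refine ⟨i, Subtype.ext ?_⟩
        rw [← hi]
        simp
    · rw [← hyo]
      exact (orderOf_injective (N ⊓ CY y₁ : Subgroup G).subtype Subtype.val_injective
        (⟨y, hyC⟩ : (N ⊓ CY y₁ : Subgroup G))).symm
    · rw [Subgroup.mem_center_iff]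
      intro g
      apply Subtype.ext
      have h1 := Subgroup.mem_centralizer_iff.1 g.2.2 y₁ (Subgroup.mem_zpowers y₁)
      have h2 : (((⟨y, hyC⟩ : (N ⊓ CY y₁ : Subgroup G)) ^ (ℓ ^ n) :
          (N ⊓ CY y₁ : Subgroup G)) : G) = y₁ := (Subgroup.coe_pow _ _ _).trans hyp
      rw [Subgroup.coe_mul, Subgroup.coe_mul, h2]
      exact h1.symm
    · have h1 := D1.H91.prjB_restr (N := N ⊓ CY y₁) (le_refl _) hQC e hprj
      rwa [Subgroup.subgroupOf_self] at h1
    · rw [D1.H91.br_restr hQC]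
      intro h1
      apply hbr
      funext x
      by_cases hx : x ∈ N ⊓ CY y₁
      · exact congrFun h1 ⟨x, hx⟩
      · classical
        unfold br
        split_ifs
        · exact he.supp x hx
        · rfl
  obtain ⟨w, i, hu, hp⟩ := hstr ℓ F hF _ n _ _ _ hst
  refine ⟨extF (N ⊓ CY y₁) w, extF (N ⊓ CY y₁) i, ?_, ?_⟩
  · have h1 := umx F G (N ⊓ CY y₁) _ w i (ℓ ^ (n + 1)) hu
    rwa [ext_res he.supp] at h1
  · have h1 := congrArg (extF (N ⊓ CY y₁)) hp
    rw [ext_pw, ext_res he.supp] at h1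
    rw [h1]
    apply ext_eq
    · intro x hx
      have h2 : y₁⁻¹ * x ∉ N ⊓ CY y₁ := by
        intro h3
        apply hx
        have := mul_mem hy₁C h3
        rwa [mul_inv_cancel_left] at this
      change e (y₁⁻¹ * x) - e x = 0
      rw [he.supp x hx, he.supp _ h2, sub_zero]
    · intro t
      have h2 : ((((⟨y, hyC⟩ : (N ⊓ CY y₁ : Subgroup G)) ^ (ℓ ^ n))⁻¹ * t :
          (N ⊓ CY y₁ : Subgroup G)) : G) = y₁⁻¹ * t := by
        rw [Subgroup.coe_mul, Subgroup.coe_inv, Subgroup.coe_pow]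
        change (y ^ (ℓ ^ n))⁻¹ * (t : G) = _
        rw [hyp]
      rw [h2]

/-- CLC -/
theorem clc (hstr : StrStmt) (hcl2 : Cl2Stmt) (hbld : BldStmt) : ClcStmt := by
  intro ℓ hℓ F _ hF G _ _ n N P y₁ b h
  have hpg : IsPGroup ℓ (Subgroup.zpowers y₁) :=
    IsPGroup.of_card (n := 1) (by rw [Nat.card_zpowers, h.ord, pow_one])
  have hbcl : IsCl b := h.idem.1
  have hle : N ⊓ CY y₁ ≤ ⊤ ⊓ NY y₁ :=
    fun x hx => Subgroup.mem_inf.2 ⟨Subgroup.mem_top x, CY_le_NY y₁ hx.2⟩
  have hcm : CmF (N ⊓ CY y₁) (bY y₁ b) := CmF.mono hle (bY_cm (cmF_of_cl hbcl ⊤))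
  have hbb : mulF (bY y₁ b) (bY y₁ b) = bY y₁ b := by
    rw [← bY_mulF hF hpg (cmF_of_cl hbcl _) (cmF_of_cl hbcl _), h.idem.2]
  obtain ⟨m, e, he, horth, hsum⟩ := hbld ℓ F hF G (N ⊓ CY y₁) (bY y₁ b) (bY_sp h.supp) hcm hbb
  choose w i hu hp using fun t => one_block hstr hcl2 hF h (he t)
  have hew : ∀ t s, t ≠ s → mulF (e t) (w s) = 0 := by
    intro t s hts
    rw [← (hu s).bw, ← mulF_assoc, horth t s hts, zero_mulF]
  have hW : ∀ t, mulF (e t) (∑ s, w s) = w t := by
    intro t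
    rw [mulF_sum, Finset.sum_eq_single t (fun s _ hs => hew t s (Ne.symm hs))
      (fun h => absurd (Finset.mem_univ _) h)]
    exact (hu t).bw
  have hWs : SpF (N ⊓ CY y₁) (∑ s, w s) := SpF.sum fun t _ => (hu t).sw
  refine ⟨∑ s, w s, ⟨m, e, i, ?_, horth, hsum, ?_⟩, ?_⟩
  · intro t
    rw [hW]
    exact hu t
  · rw [← hsum, sum_mulF]
    exact Finset.sum_congr rfl fun t _ => hW t
  · have h1 : ∀ t, pwF (∑ s, w s) (ℓ ^ n) (e t) = fun g => e t (y₁⁻¹ * g) - e t g := by
      intro t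
      have h2 := umf_pw (hu t).bb (hu t).cb hWs (ℓ ^ n)
      rw [hW, hp] at h2
      rw [h2]
      have h3 : mulF (pwF (∑ s, w s) (ℓ ^ n) (e t)) (e t) = pwF (∑ s, w s) (ℓ ^ n) (e t) := by
        apply toMA_injective
        rw [toMA_mulF, toMA_pwF, mul_assoc, ← toMA_mulF, (hu t).bb]
      rw [cm_comm (hu t).cb (hWs.pwF (hu t).sb _), h3]
    rw [← hsum, pw_sum, Finset.sum_congr rfl fun t _ => h1 t]
    funext g
    rw [Finset.sum_apply, Finset.sum_apply, Finset.sum_apply, Finset.sum_sub_distrib]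

end Pool.Agent.PP.CD2.H56
end
end -- Pool.Agent.Helper56_D2.Clc

section -- Pool.Agent.Helper56_D2.Str

/-!
# Squad PP, part D2, module STR: the structure theorem
-/

open scoped BigOperators

set_option linter.unusedSectionVars false

noncomputable section

namespace Pool.Agent.PP.CD2.H56

open Pool.Agent.Helper51_AWC Pool.Agent.Helper79_WRA Pool.Agent.PP Pool.Agent.PP.H20
  Pool.Agent.PP.CD2.H66

/-- restriction of the situation of the structure theorem to a subgroup -/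
theorem sts_restr {ℓ : ℕ} {F : Type} [Field F] {G : Type} [Group G] [Finite G] {n : ℕ}
    {C Q : Subgroup G} {e : G → F} (hQC : Q ≤ C) {y z : G} (hyQ : Subgroup.zpowers y = Q)
    (hyo : orderOf y = ℓ ^ (n + 1)) (hyz : y ^ (ℓ ^ n) = z) (hC : C ≤ CY z) (he : SpF C e)
    (hblk : IsBlk (fun t : C => e t)) (hprj : PrjB C Q e) (hbr : br Q e ≠ 0) (hyC : y ∈ C) :
    StS ℓ n (Q.subgroupOf C) (⟨y, hyC⟩ : C) (fun t : C => e t) := by
  refine ⟨?_, ?_, ?_, hblk, ?_, ?_⟩
  · ext x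
    rw [Subgroup.mem_subgroupOf, ← hyQ, Subgroup.mem_zpowers_iff, Subgroup.mem_zpowers_iff]
    constructor
    · rintro ⟨i, rfl⟩
      exact ⟨i, by simp⟩
    · rintro ⟨i, hi⟩
      refine ⟨i, Subtype.ext ?_⟩
      rw [← hi]
      simp
  · rw [← hyo]
    exact (orderOf_injective C.subtype Subtype.val_injective (⟨y, hyC⟩ : C)).symm
  · rw [Subgroup.mem_center_iff]
    intro g
    apply Subtype.ext
    have h1 := Subgroup.mem_centralizer_iff.1 (hC g.2) z (Subgroup.mem_zpowers z)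
    have h2 : (((⟨y, hyC⟩ : C) ^ (ℓ ^ n) : C) : G) = z := (Subgroup.coe_pow _ _ _).trans hyz
    rw [Subgroup.coe_mul, Subgroup.coe_mul, h2]
    exact h1.symm
  · have h1 := D1.H91.prjB_restr (N := C) (le_refl _) hQC e hprj
    rwa [Subgroup.subgroupOf_self] at h1
  · rw [D1.H91.br_restr hQC]
    intro h1
    apply hbr
    funext x
    by_cases hx : x ∈ C
    · exact congrFun h1 ⟨x, hx⟩
    · classical
      unfold br
      split_ifs
      · exact he x hx
      · rfl

/-- the result of the structure theorem for a subgroup -/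
theorem str_restr {ℓ : ℕ} {F : Type} [Field F] {G : Type} [Group G] [Finite G] {n : ℕ}
    {C : Subgroup G} {e : G → F} {y z : G} (hyz : y ^ (ℓ ^ n) = z) (he : SpF C e) (hyC : y ∈ C)
    {w i : C → F} (hu : UMF (⊤ : Subgroup C) (fun t : C => e t) w i (ℓ ^ (n + 1)))
    (hp : pwF w (ℓ ^ n) (fun t : C => e t) =
      fun g : C => e (((((⟨y, hyC⟩ : C) ^ (ℓ ^ n))⁻¹ * g : C) : C) : G) - e g) :
    UMF C e (extF C w) (extF C i) (ℓ ^ (n + 1)) ∧
      pwF (extF C w) (ℓ ^ n) e = fun g => e (z⁻¹ * g) - e g := by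
  have hzC : z ∈ C := hyz ▸ C.pow_mem hyC _
  refine ⟨?_, ?_⟩
  · have h1 := umx F G C _ w i (ℓ ^ (n + 1)) hu
    rwa [ext_res he] at h1
  · have h1 := congrArg (extF C) hp
    rw [ext_pw, ext_res he] at h1
    rw [h1]
    apply ext_eq
    · intro x hx
      have h2 : z⁻¹ * x ∉ C := by
        intro h3
        apply hx
        have := mul_mem hzC h3
        rwa [mul_inv_cancel_left] at this
      change e (z⁻¹ * x) - e x = 0
      rw [he x hx, he _ h2, sub_zero]
    · intro t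
      have h2 : ((((⟨y, hyC⟩ : C) ^ (ℓ ^ n))⁻¹ * t : C) : G) = z⁻¹ * t := by
        rw [Subgroup.coe_mul, Subgroup.coe_inv, Subgroup.coe_pow]
        change (y ^ (ℓ ^ n))⁻¹ * (t : G) = _
        rw [hyz]
      rw [h2]

/-- NPJ for the subgroup `⊤` -/
theorem npj_top (npj : NpjStmt) {ℓ : ℕ} [Fact ℓ.Prime] {F : Type} [Field F] (hF : GoodF ℓ F)
    {G : Type} [Group G] [Finite G] {b : G → F} (hb : IsBlk b) {Q : Subgroup G}
    (hQ : IsPGroup ℓ Q) (hQ1 : Q ≠ ⊥) (hbr : br Q b ≠ 0) (k : ℕ)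
    (τ : (⊤ : Subgroup G) →* Matrix (Fin k) (Fin k) F) (hτ : IsIrr τ)
    (hev : ev τ (fun t : (⊤ : Subgroup G) => b t) = 1) (ψ : Matrix (Fin k) (Fin k) F) :
    ∑ᶠ m : (⊤ : Subgroup G), τ m * ψ * τ m⁻¹ ≠ 1 := by
  intro hsum
  refine npj ℓ F hF G b hb Q hQ hQ1 hbr k
    (τ.comp (Subgroup.topEquiv (G := G)).symm.toMonoidHom) ⟨hτ.1, ?_⟩ ?_ ψ ?_
  · rw [← hτ.2]
    congr 1
    ext M
    constructor
    · rintro ⟨x, rfl⟩
      exact ⟨_, rfl⟩
    · rintro ⟨x, rfl⟩
      exact ⟨(x : G), rfl⟩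
  · rw [← hev]
    unfold ev
    refine finsum_eq_of_bijective (Subgroup.topEquiv (G := G)).symm
      (Subgroup.topEquiv (G := G)).symm.bijective ?_
    intro x
    rfl
  · rw [← hsum]
    refine finsum_eq_of_bijective (Subgroup.topEquiv (G := G)).symm
      (Subgroup.topEquiv (G := G)).symm.bijective ?_
    intro x
    rfl

/-- `P` of order `ℓ ^ (m + 1)`, the element `z` of order `ℓ` -/
theorem prj_bY (hwgt : WgtStmt) (hbrq : BrqStmt) {ℓ : ℕ} [Fact ℓ.Prime] {F : Type} [Field F]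
    (hF : GoodF ℓ F) {G : Type} [Group G] [Finite G] {m : ℕ} {Q : Subgroup G} {z : G}
    (hQ : IsCyclic Q) (hc : Nat.card Q = ℓ ^ (m + 1)) (hz : z ∈ Q) (ho : orderOf z = ℓ)
    (hQN : Q ≤ NY z) {e : G → F} (h : PrjB (⊤ : Subgroup G) Q e) :
    PrjB (NY z) Q (bY z e) := by
  obtain ⟨c, a, hcw, _, hap, hea⟩ := h
  obtain ⟨c₁, hc₁⟩ := (hwgt F G (⊤ ⊓ NY z) Q (le_inf le_top hQN)).1
  have hea' : e = fun x => ∑ᶠ g : G, c g * a (g⁻¹ * x * g) := funext hea
  have h1 := hbrq ℓ F hF G m ⊤ Q z le_top hQ hc hz ho c c₁ a hcw hc₁ hap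
  rw [← hea'] at h1
  rw [top_inf_eq] at hc₁
  refine ⟨c₁, bY z a, hc₁, ?_, ?_, ?_⟩
  · have h2 : SpF (⊤ ⊓ CY z) (bY z a) := bY_sp fun x hx => absurd (Subgroup.mem_top x) hx
    intro x hx
    exact h2 x fun h => hx (CY_le_NY z h.2)
  · have h3 : CmF (Q ⊓ NY z) (bY z a) := bY_cm hap
    intro p hp x
    exact h3 p ⟨hp, hQN hp⟩ x
  · intro x
    exact congrFun h1 x

/-- STR -/
theorem str (hpsb : PsbStmt) (hpsp : PspStmt) (hdfx : DfxStmt) (hdzb : DzbStmt) (hncq : NcqStmt)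
    (hloc : LocStmt) (hnpj : NpjStmt) (hbrq : BrqStmt) (huni : UniStmt) (hlf1 : Lf1Stmt)
    (hlf3 : Lf3Stmt) (hwgt : WgtStmt) : StrStmt := by
  intro ℓ hℓ F _ hF G _ _ n
  induction n using Nat.strong_induction_on generalizing G with
  | _ n ih =>
  intro P y e hS
  have hp : 0 < ℓ := hℓ.out.pos
  have hp1 : 1 < ℓ := hℓ.out.one_lt
  obtain ⟨y₁, hy₁⟩ : ∃ y₁, y₁ = y ^ (ℓ ^ n) := ⟨_, rfl⟩
  have ho₁ : orderOf y₁ = ℓ := by
    rw [hy₁, orderOf_pow, hS.ord, pow_succ, Nat.gcd_mul_right_left,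
      Nat.mul_div_cancel_left _ (pow_pos hp n)]
  have hcen : y₁ ∈ Subgroup.center G := hy₁ ▸ hS.cen
  have hP₁ : Subgroup.zpowers y₁ ≤ P := by
    rw [Subgroup.zpowers_le, ← hS.gen, hy₁]
    exact Subgroup.pow_mem _ (Subgroup.mem_zpowers y) _
  have hnor : (Subgroup.zpowers y₁).Normal := by
    constructor
    intro x hx g
    have hx' : x ∈ Subgroup.center G := (Subgroup.zpowers_le.2 hcen) hx
    have h1 := Subgroup.mem_center_iff.1 hx' g
    rw [h1, mul_inv_cancel_right]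
    exact hx
  obtain ⟨p, hpdef⟩ : ∃ p : G →* G ⧸ Subgroup.zpowers y₁, p = QuotientGroup.mk' _ := ⟨_, rfl⟩
  have hps : Function.Surjective p := hpdef ▸ QuotientGroup.mk'_surjective _
  have hpk : p.ker = Subgroup.zpowers y₁ := hpdef ▸ QuotientGroup.ker_mk' _
  have hPp : IsPGroup ℓ P := by
    rw [← hS.gen]
    exact IsPGroup.of_card (n := n + 1) (by rw [Nat.card_zpowers, hS.ord])
  have hPc : IsCyclic P := by
    rw [← hS.gen]
    infer_instance
  have hcardP : Nat.card P = ℓ ^ (n + 1) := by rw [← hS.gen, Nat.card_zpowers, hS.ord]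
  have hcard' : Nat.card (P.map p) = ℓ ^ n := by
    have h1 : p.ker.relIndex P = Nat.card (P.map p) := Subgroup.relIndex_ker P p
    have h2 := Subgroup.relIndex_mul_relIndex ⊥ p.ker P bot_le (by rw [hpk]; exact hP₁)
    rw [Subgroup.relIndex_bot_left, Subgroup.relIndex_bot_left, h1, hpk, Nat.card_zpowers, ho₁,
      hcardP, pow_succ, mul_comm] at h2
    exact Nat.eq_of_mul_eq_mul_right hp h2
  have key : ∃ (q₃ : ℕ) (w' i' : G ⧸ Subgroup.zpowers y₁ → F), q₃ ≤ ℓ ^ n ∧
      UMF (⊤ : Subgroup (G ⧸ Subgroup.zpowers y₁)) (H75.push p e) w' i' q₃ := by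
    have hb' := hpsb ℓ F hF G _ p hps y₁ ho₁ hcen hpk e hS.blk
    have hpr' := hpsp F G _ p hps P (by rw [hpk]; exact hP₁) e hS.prj
    have hPp' : IsPGroup ℓ (P.map p) := hPp.map p
    have hPc' : IsCyclic (P.map p) := by
      have : IsCyclic P := hPc
      exact isCyclic_of_surjective (p.subgroupMap P) (p.subgroupMap_surjective P)
    obtain ⟨Q, hQP, hQprj, hQbr⟩ := hdfx ℓ F hF _ (P.map p) hPp' hPc' (H75.push p e) hb'.1 hb'.2.1
      hpr'
    by_cases hQ : Q = ⊥
    · rw [hQ] at hQprj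
      obtain ⟨i, hi⟩ := hdzb ℓ F hF _ _ hb' hQprj
      exact ⟨1, 0, i, Nat.one_le_pow _ _ hp, hi⟩
    · have hQp : IsPGroup ℓ Q := hPp'.to_le hQP
      have hQc : IsCyclic Q := by
        have : IsCyclic (P.map p) := hPc'
        exact isCyclic_of_injective (Subgroup.inclusion hQP) (Subgroup.inclusion_injective hQP)
      obtain ⟨m', hm'⟩ := IsPGroup.iff_card.1 hQp
      have hm0 : m' ≠ 0 := by
        rintro rfl
        rw [pow_zero] at hm'
        exact hQ ((Subgroup.card_eq_one).1 hm')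
      obtain ⟨m, rfl⟩ := Nat.exists_eq_succ_of_ne_zero hm0
      have hmn : m + 1 ≤ n := by
        have h1 : Nat.card Q ∣ Nat.card (P.map p) := Subgroup.card_dvd_of_le hQP
        rw [hm', hcard'] at h1
        exact (Nat.pow_dvd_pow_iff_le_right hp1).1 h1
      obtain ⟨g₀, hg₀⟩ := hQc.exists_generator
      have hzQ : Subgroup.zpowers (g₀ : G ⧸ Subgroup.zpowers y₁) = Q := by
        apply le_antisymm
        · rw [Subgroup.zpowers_le]
          exact g₀.2
        · intro x hx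
          obtain ⟨k, hk⟩ := Subgroup.mem_zpowers_iff.1 (hg₀ ⟨x, hx⟩)
          rw [Subgroup.mem_zpowers_iff]
          refine ⟨k, ?_⟩
          have := congrArg Subtype.val hk
          simpa using this
      obtain ⟨z, hz⟩ : ∃ z, z = (g₀ : G ⧸ Subgroup.zpowers y₁) := ⟨_, rfl⟩
      rw [← hz] at hzQ
      have hoz : orderOf z = ℓ ^ (m + 1) := by rw [← Nat.card_zpowers, hzQ, hm']
      obtain ⟨z₁, hz₁⟩ : ∃ z₁, z₁ = z ^ (ℓ ^ m) := ⟨_, rfl⟩
      have hoz₁ : orderOf z₁ = ℓ := by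
        rw [hz₁, orderOf_pow, hoz, pow_succ, Nat.gcd_mul_right_left,
          Nat.mul_div_cancel_left _ (pow_pos hp m)]
      have hz₁Q : z₁ ∈ Q := by
        rw [hz₁, ← hzQ]
        exact Subgroup.pow_mem _ (Subgroup.mem_zpowers z) _
      have hNC : NY z₁ ≤ CY z₁ :=
        hncq ℓ G _ p hps y₁ ho₁ hcen hpk P hPp hPc (hP₁ (Subgroup.mem_zpowers y₁)) z₁
          (hQP hz₁Q) hoz₁
      have hQC : Q ≤ CY z₁ := by
        intro x hx
        rw [← hzQ] at hx
        refine Subgroup.mem_centralizer_iff.2 fun t ht => ?_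
        have ht' : t ∈ Subgroup.zpowers z := by
          rw [hzQ]
          exact (Subgroup.zpowers_le.2 hz₁Q) ht
        obtain ⟨i, rfl⟩ := Subgroup.mem_zpowers_iff.1 hx
        obtain ⟨j, rfl⟩ := Subgroup.mem_zpowers_iff.1 ht'
        rw [← zpow_add, ← zpow_add, add_comm]
      have hprjN := prj_bY hwgt hbrq hF hQc hm' hz₁Q hoz₁ (hQC.trans (CY_le_NY z₁)) hQprj
      have hCN : CY z₁ = NY z₁ := le_antisymm (CY_le_NY z₁) hNC
      have hprjC : PrjB (CY z₁) Q (bY z₁ (H75.push p e)) := by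
        rw [hCN]
        exact hprjN
      have hsp : SpF (CY z₁) (bY z₁ (H75.push p e)) := by
        have h2 : SpF (⊤ ⊓ CY z₁) (bY z₁ (H75.push p e)) :=
          bY_sp fun x hx => absurd (Subgroup.mem_top x) hx
        rwa [top_inf_eq] at h2
      have hbrQ : br Q (bY z₁ (H75.push p e)) = br Q (H75.push p e) := by
        classical
        funext x
        unfold br bY br
        by_cases hx : x ∈ Subgroup.centralizer (Q : Set (G ⧸ Subgroup.zpowers y₁))
        · rw [if_pos hx, if_pos hx, if_pos]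
          refine Subgroup.mem_centralizer_iff.2 fun t ht => ?_
          exact Subgroup.mem_centralizer_iff.1 hx t ((Subgroup.zpowers_le.2 hz₁Q) ht)
        · rw [if_neg hx, if_neg hx]
      have hbr1 : br Q (bY z₁ (H75.push p e)) ≠ 0 := by
        rw [hbrQ]
        exact hQbr
      have hne : bY z₁ (H75.push p e) ≠ 0 := by
        intro h0
        apply hbr1
        rw [h0]
        classical
        funext x
        unfold br
        split_ifs <;> rfl
      have hblk₁ := hloc ℓ F hF _ m Q z₁ hQc hm' hz₁Q hoz₁ hNC _ hb' hprjN hne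
      have hzC : z ∈ CY z₁ := hQC (hzQ ▸ Subgroup.mem_zpowers z)
      have hst := sts_restr hQC hzQ hoz hz₁.symm (le_refl (CY z₁)) hsp hblk₁ hprjC hbr1 hzC
      obtain ⟨w, i, hu, hpw⟩ := ih m (by omega) _ _ _ _ hst
      obtain ⟨hu', hpw'⟩ := str_restr hz₁.symm hsp hzC hu hpw
      have htop : (⊤ : Subgroup (G ⧸ Subgroup.zpowers y₁)) ⊓ CY z₁ = CY z₁ := top_inf_eq _
      have htopN : (⊤ : Subgroup (G ⧸ Subgroup.zpowers y₁)) ⊓ NY z₁ = NY z₁ := top_inf_eq _
      have hd2 : D2S ℓ m (⊤ : Subgroup (G ⧸ Subgroup.zpowers y₁)) Q z₁ (H75.push p e)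
          (extF (CY z₁) w) := by
        refine ⟨inferInstance, hQc, hm', le_top, hz₁Q, hoz₁, hb'.1,
          fun x hx => absurd (Subgroup.mem_top x) hx, top_sup_eq _, hQprj, ?_, ?_, ?_, hpw', ?_⟩
        · rw [htopN]
          exact hprjN
        · exact npj_top hnpj hF hb' hQp hQ hQbr
        · rw [htop]
          exact umf_ums hu'
        · intro x hx
          refine ⟨bY z₁ (H75.push p e), ?_, ?_, ?_⟩
          · rw [htop]
            exact hsp
          · rw [htop]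
            exact hu'.cb
          · rw [ums_wb (umf_ums hu')]
            funext g
            have h3 := hu'.cw x⁻¹ (inv_mem (hNC hx)) g
            rwa [inv_inv] at h3
      obtain ⟨z', i', hz'⟩ := huni ℓ F hF _ m Q z₁ (H75.push p e) _ _
        ⟨hd2, hb', hNC, hu'⟩
      exact ⟨ℓ ^ (m + 1), z', i', Nat.pow_le_pow_right hp hmn, hz'⟩
  obtain ⟨q₃, w', i', hq₃, hu⟩ := key
  obtain ⟨i, hi⟩ := hlf1 ℓ F hF G _ p hps y₁ ho₁ hcen hpk e hS.blk.1 w' i' q₃ hu
  have hd : ℓ * q₃ ≤ ℓ ^ (n + 1) := by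
    rw [pow_succ, mul_comm]
    exact Nat.mul_le_mul_right ℓ hq₃
  obtain ⟨w, hw, hpw⟩ := hlf3 ℓ F hF G n P y e hS i _ hd hi
  exact ⟨w, i, hw, hpw⟩

end Pool.Agent.PP.CD2.H56
end
end -- Pool.Agent.Helper56_D2.Str

section -- Pool.Agent.Helper6_D2.Loc

/-!
# Squad PP, part D2, module LOC: `b₁` is a block of the centraliser
-/

open scoped BigOperators

noncomputable section

namespace Pool.Agent.PP.CD2.H6

open Pool.Agent.PP Pool.Agent.Helper51_AWC Pool.Agent.Helper79_WRA Pool.Agent.PP.CD2.H66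
  Pool.Agent.PP.H20

/-- a central element is a scalar plus a nilpotent element under a block -/
theorem dec {F H : Type} [Field F] [IsAlgClosed F] [Group H] [Finite H] {f z : H → F}
    (hf : IsBlk f) (hz : IsCl z) : ∃ (c : F) (n : ℕ), (mulF (z - c • f))^[n] f = 0 := by
  classical
  have := Fintype.ofFinite H
  have hff : mulF f f = f := hf.1.2
  -- the left ideal generated by `f`
  let V : Submodule F (H → F) :=
    { carrier := {a | mulF f a = a}
      add_mem' := by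
        intro a c ha hc
        change mulF f (a + c) = a + c
        rw [mulF_add, ha, hc]
      zero_mem' := mulF_zero f
      smul_mem' := by
        intro c a ha
        change mulF f (c • a) = c • a
        rw [mulF_smul, ha] }
  let T : V →ₗ[F] V :=
    { toFun := fun a => ⟨mulF z a, by
        change mulF f (mulF z a) = mulF z a
        rw [← mulF_assoc, ← mulF_comm_of_cl hz f, mulF_assoc, a.2]⟩
      map_add' := fun a c => Subtype.ext (mulF_add z a c)
      map_smul' := fun c a => Subtype.ext (mulF_smul c z a) }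
  have hne : Nontrivial V := ⟨⟨f, hff⟩, 0, fun h => hf.2.1 (congrArg Subtype.val h)⟩
  obtain ⟨c, hc⟩ := Module.End.exists_eigenvalue T
  obtain ⟨v, hv⟩ := hc.exists_hasEigenvector
  have hv0 : (v : H → F) ≠ 0 := fun h => hv.2 (Subtype.ext h)
  have hvz : mulF z v = c • (v : H → F) := congrArg Subtype.val hv.apply_eq_smul
  have hvf : mulF f v = v := v.2
  refine ⟨c, ?_⟩
  have hcl : IsCl (z - c • f) := isCl_sub hz (isCl_smul c hf.1.1)
  rcases H50.blk_dich hf hcl with h | ⟨u, hu, h⟩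
  · exact h
  · exfalso
    apply hv0
    calc (v : H → F) = mulF f v := hvf.symm
      _ = mulF (mulF (mulF u (z - c • f)) f) v := by rw [h]
      _ = mulF u (mulF (z - c • f) (mulF f v)) := by rw [mulF_assoc, mulF_assoc]
      _ = 0 := by rw [hvf, sub_mulF, smul_mulF, hvz, hvf, sub_self, mulF_zero]

/-- the Brauer map is linear -/
theorem bY_sub_smul {F G : Type} [Field F] [Group G] (y : G) (z b : G → F) (c : F) :
    bY y (z - c • b) = bY y z - c • bY y b := by
  classical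
  funext x
  rw [Pi.sub_apply, Pi.smul_apply]
  unfold bY br
  by_cases hx : x ∈ Subgroup.centralizer (Subgroup.zpowers y : Set G)
  · rw [if_pos hx, if_pos hx, if_pos hx]
    rfl
  · rw [if_neg hx, if_neg hx, if_neg hx, smul_zero, sub_zero]

/-- the Brauer map of powers -/
theorem bY_iter {F G : Type} [Field F] [Group G] [Finite G] {ℓ : ℕ} (hF : GoodF ℓ F) {y : G}
    (hy : IsPGroup ℓ (Subgroup.zpowers y)) {a c : G → F} (ha : IsCl a) (hc : IsCl c) (n : ℕ) :
    bY y ((mulF a)^[n] c) = (mulF (bY y a))^[n] (bY y c) := by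
  have h : ∀ n, IsCl ((mulF a)^[n] c) := by
    intro n
    induction n with
    | zero => exact hc
    | succ n ih =>
      rw [Function.iterate_succ_apply']
      exact isCl_mulF ha ih
  induction n with
  | zero => rfl
  | succ n ih =>
    rw [Function.iterate_succ_apply', Function.iterate_succ_apply',
      bY_mulF hF hy (cmF_of_cl ha _) (cmF_of_cl (h n) _), ih]

/-- an idempotent `g` under the idempotent `f` such that `g - c f` is nilpotent -/
theorem idem_nil {F H : Type} [Field F] [Group H] [Finite H] {f g : H → F} (hff : mulF f f = f)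
    (hgg : mulF g g = g) (hfg : mulF f g = g) (hgf : mulF g f = g) {c : F} {n : ℕ}
    (h : (mulF (g - c • f))^[n] f = 0) : g = f ∨ g = 0 := by
  have key : ∀ n : ℕ, (mulF (g - c • f))^[n] f = (1 - c) ^ n • g + (-c) ^ n • (f - g) := by
    intro n
    induction n with
    | zero =>
      rw [Function.iterate_zero, pow_zero, pow_zero, one_smul, one_smul, add_sub_cancel]
      rfl
    | succ n ih =>
      have e1 : mulF (g - c • f) g = (1 - c) • g := by
        rw [sub_mulF, smul_mulF, hgg, hfg, sub_smul, one_smul]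
      have e2 : mulF (g - c • f) (f - g) = (-c) • (f - g) := by
        rw [mulF_sub, e1, sub_mulF, smul_mulF, hgf, hff, sub_smul, one_smul, neg_smul, smul_sub]
        abel
      rw [Function.iterate_succ_apply', ih, mulF_add, mulF_smul, mulF_smul, e1, e2, smul_smul,
        smul_smul, pow_succ, pow_succ]
  rw [key n] at h
  by_cases hc : c = 0
  · right
    have h1 := congrArg (mulF g) h
    rw [mulF_add, mulF_smul, mulF_smul, hgg, mulF_sub, hgf, hgg, sub_self, smul_zero, add_zero,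
      mulF_zero, hc, sub_zero, one_pow, one_smul] at h1
    exact h1
  · left
    have h1 := congrArg (mulF (f - g)) h
    have e3 : mulF (f - g) g = 0 := by rw [sub_mulF, hfg, hgg, sub_self]
    have e4 : mulF (f - g) (f - g) = f - g := by
      rw [mulF_sub, e3, sub_mulF, hff, hgf, sub_zero]
    rw [mulF_add, mulF_smul, mulF_smul, e3, e4, smul_zero, zero_add, mulF_zero] at h1
    have h2 : (-c) ^ n ≠ 0 := pow_ne_zero _ (neg_ne_zero.2 hc)
    rcases smul_eq_zero.1 h1 with h3 | h3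
    · exact absurd h3 h2
    · exact (sub_eq_zero.1 h3).symm

/-- LOC -/
theorem loc (hbrs : BrsStmt) : LocStmt := by
  intro ℓ hℓ F _ hF G _ _ n P y₁ hcyc hcard hy ho hNC b hb hprj hb1
  have hac := hF.closed
  have hyp : IsPGroup ℓ (Subgroup.zpowers y₁) :=
    IsPGroup.of_card (n := 1) (by rw [Nat.card_zpowers, ho, pow_one])
  have hbcl : IsCl b := hb.1.1
  have hcm : CmF (NY y₁) (bY y₁ b) := by
    have := bY_cm (y := y₁) (cmF_of_cl hbcl (⊤ : Subgroup G))
    rwa [top_inf_eq] at this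
  have hsp : SpF (CY y₁) (bY y₁ b) := by
    have := bY_sp (y := y₁) (N := (⊤ : Subgroup G)) (b := b)
      (fun x hx => absurd (Subgroup.mem_top x) hx)
    rwa [top_inf_eq] at this
  have hbb : mulF (bY y₁ b) (bY y₁ b) = bY y₁ b := by
    rw [← bY_mulF hF hyp (cmF_of_cl hbcl _) (cmF_of_cl hbcl _), hb.1.2]
  have hres : mulF (fun t : CY y₁ => bY y₁ b t) (fun t : CY y₁ => bY y₁ b t) =
      fun t : CY y₁ => bY y₁ b t := by
    rw [← H75.mulF_res (CY y₁) (bY y₁ b) hsp, hbb]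
  have hcl1 : IsCl (fun t : CY y₁ => bY y₁ b t) := by
    intro x y
    exact hcm (y : G) (CY_le_NY y₁ y.2) (x : G)
  refine ⟨⟨hcl1, hres⟩, ?_, ?_⟩
  · intro h0
    apply hb1
    rw [← H56.ext_res hsp, h0, H56.ext_zero]
  · intro g hg
    set g₁ : CY y₁ → F := mulF (fun t : CY y₁ => bY y₁ b t) g with hg₁
    have hg₁cl : IsCl g₁ := isCl_mulF hcl1 hg.1
    have hfg : mulF (fun t : CY y₁ => bY y₁ b t) g₁ = g₁ := by
      rw [hg₁, ← mulF_assoc, hres]
    have hgg : mulF g₁ g₁ = g₁ := by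
      have e : mulF g₁ g₁ = mulF (mulF (fun t : CY y₁ => bY y₁ b t)
          (fun t : CY y₁ => bY y₁ b t)) (mulF g g) := by
        rw [hg₁, mulF_assoc, ← mulF_assoc g, mulF_comm_of_cl hg.1, mulF_assoc, ← mulF_assoc,
          hg.2]
      rw [e, hres, hg.2]
    -- extension by zero
    set g' : G → F := extF (CY y₁) g₁ with hg'
    have hg'sp : SpF (CY y₁) g' := H56.ext_sp _
    have hg'cm : CmF (CY y₁) g' := H56.ext_cm (fun c _ x => hg₁cl x c)
    have hext : extF (CY y₁) (fun t : CY y₁ => bY y₁ b t) = bY y₁ b := H56.ext_res hsp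
    have hfg' : mulF (bY y₁ b) g' = g' := by
      rw [← hext, hg', ← H56.ext_mul, hfg]
    have hgg' : mulF g' g' = g' := by
      rw [hg', ← H56.ext_mul, hgg]
    obtain ⟨z, -, hzcm, hbz, hbyz⟩ := hbrs ℓ F hF G n (⊤ : Subgroup G) P y₁ le_top hcyc hcard hy ho b
      (fun x hx => absurd (Subgroup.mem_top x) hx) (cmF_of_cl hbcl _) hb.1.2
      (by rw [top_inf_eq]; exact hprj) g' (by rw [top_inf_eq]; exact hg'sp)
      (by rw [top_inf_eq]; exact hg'cm.mono hNC) hfg'
    have hzcl : IsCl z := fun x y => hzcm y (Subgroup.mem_top y) x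
    obtain ⟨c, m, hm⟩ := dec hb hzcl
    have h1 := congrArg (bY y₁) hm
    rw [bY_iter hF hyp (isCl_sub hzcl (isCl_smul c hbcl)) hbcl, bY_sub_smul, hbyz] at h1
    have h0 : bY y₁ (0 : G → F) = 0 := by
      funext x
      unfold bY br
      split_ifs <;> rfl
    rw [h0] at h1
    have hgf' : mulF g' (bY y₁ b) = g' := by
      rw [cm_comm hg'cm hsp, hfg']
    rcases idem_nil hbb hgg' hfg' hgf' h1 with h2 | h2
    · left
      apply H56.ext_inj
      rw [← hg', h2, hext]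
    · right
      apply H56.ext_inj
      rw [← hg', h2, H56.ext_zero]

end Pool.Agent.PP.CD2.H6
end
end -- Pool.Agent.Helper6_D2.Loc

section -- Pool.Agent.Helper75_D2.StbA

/-!
# Squad PP, part D2, module STB: the tools
-/

open scoped BigOperators

set_option linter.unusedSectionVars false

noncomputable section

namespace Pool.Agent.PP.CD2.H75

open Pool.Agent.PP Pool.Agent.Helper51_AWC Pool.Agent.Helper79_WRA Pool.Agent.PP.H20
  Pool.Agent.PP.CD2.H66 Pool.Agent.PP.CD2.H26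

/-- the powers of a shift of order `q = ℓ ^ (n + 1)` are independent on `b` if the sum of the shifts of
`b` is not zero -/
theorem shift_indep {F : Type} [Field F] {G : Type} [Group G] {ℓ n : ℕ} (hℓ : ℓ.Prime)
    (hc : CharP F ℓ) {y : G} (ho : y ^ (ℓ ^ (n + 1)) = 1) {b : G → F} {x₀ : G}
    (hb : ∑ i ∈ Finset.range (ℓ ^ (n + 1)), b ((y ^ i)⁻¹ * x₀) ≠ 0) :
    LinearIndependent F (fun m : Fin (ℓ ^ (n + 1)) => fun g => b ((y ^ (m : ℕ))⁻¹ * g)) := by
  classical
  have := Fact.mk hℓ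
  set q := ℓ ^ (n + 1) with hq
  have hq0 : 0 < q := pow_pos hℓ.pos _
  let S : Module.End F (G → F) := LinearMap.funLeft F F (fun g : G => y⁻¹ * g)
  have hS : ∀ (m : ℕ) (f : G → F), (S ^ m) f = fun g => f ((y ^ m)⁻¹ * g) := by
    intro m
    induction m with
    | zero =>
      intro f
      funext g
      rw [pow_zero, pow_zero, inv_one, one_mul]
      rfl
    | succ m ih =>
      intro f
      rw [pow_succ', Module.End.mul_apply, ih]
      funext g
      change f ((y ^ m)⁻¹ * (y⁻¹ * g)) = _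
      rw [← mul_assoc, ← mul_inv_rev, ← pow_succ']
  have hX : ((Polynomial.X : Polynomial F) - Polynomial.C 1) ^ q = Polynomial.X ^ q - 1 := by
    rw [hq, sub_pow_char_pow, Polynomial.C_1, one_pow]
  have hSq : Polynomial.aeval S (((Polynomial.X : Polynomial F) - Polynomial.C 1) ^ q) b = 0 := by
    rw [hX, map_sub, map_pow, Polynomial.aeval_X, map_one, LinearMap.sub_apply, hS, ho]
    funext g
    rw [inv_one]
    simp
  rw [Fintype.linearIndependent_iff]
  intro α hα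
  set p : Polynomial F := ∑ m : Fin q, Polynomial.C (α m) * Polynomial.X ^ (m : ℕ) with hp
  have hpb : Polynomial.aeval S p b = 0 := by
    rw [hp, map_sum, LinearMap.sum_apply, ← hα]
    refine Finset.sum_congr rfl fun m _ => ?_
    rw [map_mul, Polynomial.aeval_C, map_pow, Polynomial.aeval_X, Module.End.mul_apply, hS]
    rfl
  have hcoef : ∀ m : Fin q, p.coeff m = α m := by
    intro m
    rw [hp, Polynomial.finsetSum_coeff, Finset.sum_eq_single_of_mem m (Finset.mem_univ _)]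
    · rw [Polynomial.coeff_C_mul_X_pow, if_pos rfl]
    · intro k _ hk
      rw [Polynomial.coeff_C_mul_X_pow, if_neg]
      intro h
      exact hk (Fin.ext h.symm)
  by_cases hp0 : p = 0
  · intro m
    rw [← hcoef m, hp0, Polynomial.coeff_zero]
  exfalso
  have hdeg : p.natDegree < q := by
    rw [Polynomial.natDegree_lt_iff_degree_lt hp0, hp]
    refine lt_of_le_of_lt (Polynomial.degree_sum_le _ _) ?_
    rw [Finset.sup_lt_iff]
    · intro m _
      refine lt_of_le_of_lt (Polynomial.degree_C_mul_X_pow_le _ _) ?_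
      exact_mod_cast m.2
    · exact WithBot.bot_lt_coe _
  set P : Polynomial F := ((Polynomial.X : Polynomial F) - Polynomial.C 1) ^ q with hP
  set g := EuclideanDomain.gcd p P with hg
  have hgb : Polynomial.aeval S g b = 0 := by
    rw [hg, EuclideanDomain.gcd_eq_gcd_ab, map_add, mul_comm p, mul_comm P, map_mul, map_mul,
      LinearMap.add_apply, Module.End.mul_apply, Module.End.mul_apply, hpb, hSq, map_zero, map_zero,
      add_zero]
  obtain ⟨i, hi, has⟩ := (dvd_prime_pow (Polynomial.prime_X_sub_C (1 : F)) q).1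
    (EuclideanDomain.gcd_dvd_right p P)
  have hip : i < q := by
    have h1 : (Polynomial.X - Polynomial.C (1 : F)) ^ i ∣ p :=
      has.dvd'.trans (EuclideanDomain.gcd_dvd_left p P)
    have h2 := Polynomial.natDegree_le_of_dvd h1 hp0
    rw [Polynomial.natDegree_pow, Polynomial.natDegree_X_sub_C, mul_one] at h2
    omega
  have h3 : Polynomial.aeval S ((Polynomial.X - Polynomial.C (1 : F)) ^ (q - 1)) b = 0 := by
    obtain ⟨r, hr⟩ : g ∣ (Polynomial.X - Polynomial.C (1 : F)) ^ (q - 1) :=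
      has.dvd.trans (pow_dvd_pow _ (by omega))
    rw [hr, mul_comm, map_mul, Module.End.mul_apply, hgb, map_zero]
  have h4 : (Polynomial.X - Polynomial.C (1 : F)) ^ (q - 1) =
      ∑ j ∈ Finset.range q, Polynomial.X ^ j := by
    have h5 := geom_sum_mul (Polynomial.X : Polynomial F) q
    rw [← hX] at h5
    have h6 : (Polynomial.X - Polynomial.C (1 : F)) ≠ 0 := Polynomial.X_sub_C_ne_zero 1
    have h7 : ((Polynomial.X : Polynomial F) - Polynomial.C 1) ^ q =
        (Polynomial.X - Polynomial.C 1) ^ (q - 1) * (Polynomial.X - Polynomial.C 1) := by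
      rw [← pow_succ]
      congr 1
      omega
    rw [hP, h7] at h5
    refine (mul_right_cancel₀ h6 ?_).symm
    rw [← h5, Polynomial.C_1]
  rw [h4, map_sum, LinearMap.sum_apply] at h3
  have h8 := congrFun h3 x₀
  rw [Finset.sum_apply] at h8
  apply hb
  rw [← Pi.zero_apply (M := fun _ : G => F) x₀, ← h8]
  refine Finset.sum_congr rfl fun j _ => ?_
  rw [map_pow, Polynomial.aeval_X, hS]

variable {F : Type} [Field F] {G : Type} [Group G] [Finite G]

/-- transitivity of the relative trace -/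
theorem TrF_trans {M D P : Subgroup G} (hPD : P ≤ D) (hDM : D ≤ M) {c₁ d w a : G → F}
    (hc : IsW M P c₁) (hd : IsW M D d) (hw : IsW D P w) (ha : CmF P a) :
    TrF c₁ a = TrF d (TrF w a) := by
  classical
  have := Fintype.ofFinite G
  have := Fintype.ofFinite P
  have := Fintype.ofFinite D
  let c' : G → F := fun g => ∑ h : G, d h * w (h⁻¹ * g)
  have hc' : IsW M P c' := by
    constructor
    · intro g hg
      refine Finset.sum_eq_zero fun h _ => ?_
      by_cases hh : h ∈ M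
      · rw [hw.supp, mul_zero]
        intro h1
        apply hg
        have h2 := M.mul_mem hh (hDM h1)
        rwa [mul_inv_cancel_left] at h2
      · rw [hd.supp h hh, zero_mul]
    · intro g hg
      rw [finsum_eq_sum_of_fintype]
      change ∑ p : P, ∑ h : G, d h * w (h⁻¹ * (g * p)) = 1
      rw [Finset.sum_comm]
      have h1 : ∀ h : G, ∑ p : P, d h * w (h⁻¹ * (g * p)) = if g⁻¹ * h ∈ D then d h else 0 := by
        intro h
        rw [← Finset.mul_sum]
        by_cases hh : g⁻¹ * h ∈ D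
        · have h2 : h⁻¹ * g ∈ D := by
            have h3 := D.inv_mem hh
            rwa [mul_inv_rev, inv_inv] at h3
          have h4 := hw.sum _ h2
          rw [finsum_eq_sum_of_fintype] at h4
          rw [if_pos hh]
          simp only [mul_assoc] at h4
          rw [h4, mul_one]
        · rw [if_neg hh, Finset.sum_eq_zero, mul_zero]
          intro p _
          apply hw.supp
          intro h2
          apply hh
          have h3 := D.mul_mem h2 (D.inv_mem (hPD p.2))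
          have h4 := D.inv_mem h3
          have e : (h⁻¹ * (g * (p : G)) * (p : G)⁻¹)⁻¹ = g⁻¹ * h := by group
          rwa [e] at h4
      rw [Finset.sum_congr rfl fun h _ => h1 h, ← Finset.sum_filter]
      have h5 := hd.sum g hg
      rw [finsum_eq_sum_of_fintype] at h5
      rw [← h5]
      symm
      refine Finset.sum_bij (fun δ _ => g * (δ : G)) (fun δ _ => ?_) (fun δ _ δ' _ h => ?_)
        (fun h hh => ?_) (fun _ _ => rfl)
      · rw [Finset.mem_filter]
        refine ⟨Finset.mem_univ _, ?_⟩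
        rw [inv_mul_cancel_left]
        exact δ.2
      · exact Subtype.ext (mul_left_cancel h)
      · rw [Finset.mem_filter] at hh
        exact ⟨⟨_, hh.2⟩, Finset.mem_univ _, by rw [mul_inv_cancel_left]⟩
  rw [TrF_indep (hPD.trans hDM) hc hc' ha]
  funext x
  unfold TrF
  simp only [finsum_eq_sum_of_fintype]
  change ∑ g : G, (∑ h : G, d h * w (h⁻¹ * g)) * a (g⁻¹ * x * g) =
    ∑ h : G, d h * ∑ g : G, w g * a (g⁻¹ * (h⁻¹ * x * h) * g)
  have h1 : ∀ g : G, (∑ h : G, d h * w (h⁻¹ * g)) * a (g⁻¹ * x * g) =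
      ∑ h : G, d h * w (h⁻¹ * g) * a (g⁻¹ * x * g) := fun g => Finset.sum_mul _ _ _
  rw [Finset.sum_congr rfl fun g _ => h1 g, Finset.sum_comm]
  refine Finset.sum_congr rfl fun h _ => ?_
  rw [Finset.mul_sum]
  refine Fintype.sum_equiv (Equiv.mulLeft h⁻¹) _ _ fun g => ?_
  change d h * w (h⁻¹ * g) * a (g⁻¹ * x * g) =
    d h * (w (h⁻¹ * g) * a ((h⁻¹ * g)⁻¹ * (h⁻¹ * x * h) * (h⁻¹ * g)))
  rw [mul_assoc]
  congr 3
  group

/-- a sum over the cosets of `D` in `M` which is invariant under an `ℓ`-element outside `D` -/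
theorem orbit_zero (orb : OrbStmt) {ℓ : ℕ} (hF : GoodF ℓ F) {M D : Subgroup G}
    (hn : ∀ k ∈ M, ∀ x, k⁻¹ * x * k ∈ D ↔ x ∈ D) {d : G → F} (hd : IsW M D d) (φ : G → F)
    (h0 : ∀ g, g ∉ M → φ g = 0) (hD : ∀ g, ∀ δ ∈ D, φ (g * δ) = φ g) {x : G} (hxD : x ∉ D)
    {k : ℕ} (hk : orderOf x = ℓ ^ k) (hφ : ∀ g, φ (x * g) = φ g) :
    ∑ᶠ g : G, d g * φ g = 0 := by
  classical
  have := Fintype.ofFinite G
  rw [wsum hd φ h0 hD]
  have hP : IsPGroup ℓ (Subgroup.zpowers x) := by
    apply IsPGroup.of_card (n := k)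
    rw [Nat.card_zpowers, hk]
  have hφ' : ∀ p ∈ Subgroup.zpowers x, ∀ g, φ (p * g) = φ g := by
    intro p hp
    have h1 : ∀ m : ℕ, ∀ g, φ (x ^ m * g) = φ g := by
      intro m
      induction m with
      | zero => intro g; rw [pow_zero, one_mul]
      | succ m ih => intro g; rw [pow_succ', mul_assoc, hφ, ih]
    obtain ⟨m, rfl⟩ := (mem_powers_iff_mem_zpowers).2 hp
    exact h1 m
  have hout : ∀ g : G, φ (Quotient.out (QuotientGroup.mk g : G ⧸ D)) = φ g := by
    intro g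
    obtain ⟨q, hq⟩ := QuotientGroup.mk_out_eq_mul D g
    rw [hq, hD g q q.2]
  rw [orb ℓ F F (Subgroup.zpowers x) (G ⧸ D) hF.prime hF.char hP (fun ξ => φ ξ.out)
    (fun p ξ => by
      have h1 : p • ξ = (QuotientGroup.mk ((p : G) * ξ.out) : G ⧸ D) := by
        have h2 : ξ = QuotientGroup.mk ξ.out := (Quotient.out_eq _).symm
        conv_lhs => rw [h2]
        rfl
      change φ (Quotient.out (p • ξ)) = φ ξ.out
      rw [h1, hout, hφ' p p.2])]
  refine finsum_eq_zero_of_forall_eq_zero fun ξ => ?_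
  rw [finsum_eq_if]
  by_cases hξ : ξ ∈ MulAction.fixedPoints (Subgroup.zpowers x) (G ⧸ D)
  · rw [if_pos hξ]
    apply h0
    intro hM
    have h1 := (fix_iff ξ).1 hξ (Subgroup.mem_zpowers x)
    rw [mem_conjS] at h1
    exact hxD ((hn _ hM x).1 h1)
  · exact if_neg hξ

/-- the eigenvalue of a central element does not depend on the representation over the block -/
theorem ev_const [IsAlgClosed F] {H : Type} [Group H] [Finite H] {f z : H → F} (hf : IsBlk f)
    (hz : IsCl z) : ∃ c : F, ∀ (r : ℕ) (ρ : H →* Matrix (Fin r) (Fin r) F), IsIrr ρ →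
    ev ρ f = 1 → ev ρ z = Matrix.scalar (Fin r) c := by
  obtain ⟨c, n, h⟩ := H6.dec hf hz
  refine ⟨c, fun r ρ hρ h1 => ?_⟩
  have hr : NeZero r := ⟨hρ.1.ne'⟩
  obtain ⟨w, hw, -⟩ := H20.eig F H r ρ hρ z hz
  have h2 := D1H51.ev_iter ρ (z - c • f) f n
  rw [h, h1, mul_one] at h2
  have h3 : ev ρ (z - c • f) = Matrix.scalar (Fin r) (w - c) := by
    have h4 : z - c • f = ∑ i : Fin 2, (![1, -c] i) • (![z, f] i) := by
      rw [Fin.sum_univ_two]
      simp [sub_eq_add_neg]
    rw [h4, D1H51.ev_lin, Fin.sum_univ_two]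
    simp only [Matrix.cons_val_zero, Matrix.cons_val_one]
    rw [hw, h1, one_smul, neg_smul, map_sub]
    rw [← sub_eq_add_neg]
    congr 1
    ext i j
    simp [Matrix.scalar_apply, Matrix.one_apply, Matrix.diagonal_apply]
  rw [h3, ← map_pow] at h2
  have h5 : ev ρ (0 : H → F) = Matrix.scalar (Fin r) 0 := by
    have h6 := D1H51.ev_lin ρ (Finset.univ : Finset (Fin 0)) (fun _ => (0 : F)) (fun _ => (0 : H → F))
    rw [Finset.sum_of_isEmpty, Finset.sum_of_isEmpty] at h6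
    rw [h6, map_zero]
  rw [h5] at h2
  have h7 := Matrix.scalar_inj.1 h2
  have hn : n ≠ 0 := by
    rintro rfl
    rw [pow_zero] at h7
    exact one_ne_zero h7.symm
  have h8 : w - c = 0 := (pow_eq_zero_iff hn).1 h7.symm
  rw [hw, sub_eq_zero.1 h8]

/-- conjugation by an element which stabilises the block -/
theorem ev_stab [IsAlgClosed F] {D : Subgroup G} {b₁ b T : G → F} (hb : BlC D b₁ b)
    (hT : CmF D T) {k : G} (hk : ∀ x, x ∈ D ↔ k⁻¹ * x * k ∈ D) (hkb : cg k b = b) {r : ℕ}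
    (ρ : D →* Matrix (Fin r) (Fin r) F) (hρ : IsIrr ρ) (h1 : ev ρ (fun x : D => b x) = 1) :
    ev ρ (fun x : D => cg k T x) = ev ρ (fun x : D => T x) := by
  have hcl : IsCl (fun x : D => T x) := fun x s => hT s s.2 x
  obtain ⟨c, hc⟩ := ev_const hb.blk hcl
  rw [hc r ρ hρ h1]
  let α : D ≃* D := H31.cE k hk
  let ρ' : D →* Matrix (Fin r) (Fin r) F := ρ.comp α.symm.toMonoidHom
  have e1 : ρ'.comp α.toMonoidHom = ρ := by
    ext g : 1
    change ρ (α.symm (α g)) = ρ g
    rw [MulEquiv.symm_apply_apply]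
  have h2 : ∀ a : G → F, ev ρ (fun x : D => cg k a x) = ev ρ' (fun x : D => a x) := by
    intro a
    have h3 := ev_equiv α ρ' (fun x : D => a x)
    rw [e1] at h3
    exact h3
  have h4 : ev ρ' (fun x : D => b x) = 1 := by
    rw [← h2, hkb, h1]
  rw [h2, hc r ρ' (irr_equiv α.symm hρ) h4]

/-- the sums over the cosets of `P` of a block of `D` do not vanish -/
theorem coset_ne (nls : NlsStmt) {ℓ : ℕ} (hF : GoodF ℓ F) {D P : Subgroup G} (hPD : P ≤ D)
    (hn : ∀ k ∈ D, ∀ p ∈ P, k * p * k⁻¹ ∈ P) (hP : IsPGroup ℓ P) {b : G → F}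
    {r : ℕ} (ρ : D →* Matrix (Fin r) (Fin r) F) (hρ : IsIrr ρ)
    (h1 : ev ρ (fun x : D => b x) = 1) : ∃ x : G, ∑ᶠ p : P, b (x * (p : G)⁻¹) ≠ 0 := by
  classical
  by_contra hcon
  push Not at hcon
  have hfG := Fintype.ofFinite G
  have hfD := Fintype.ofFinite D
  have hfP := Fintype.ofFinite P
  have hr : NeZero r := ⟨hρ.1.ne'⟩
  obtain ⟨w, hw⟩ := D1H51.exists_w F hPD
  have hPn : (P.subgroupOf D).Normal := ⟨fun p hp k => hn k k.2 p hp⟩
  have hPp : IsPGroup ℓ (P.subgroupOf D) := hP.comap_subtype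
  have htriv := (nls ℓ F hF D (P.subgroupOf D) hPn hPp r ρ hρ).1
  have h2 : ev ρ (fun x : D => b x) = 0 := by
    unfold ev
    rw [finsum_eq_sum_of_fintype]
    have h3 : ∀ x : D, b x • ρ x =
        ∑ p : P, (w ((x : G) * p) * b x) • ρ (x * ⟨(p : G), hPD p.2⟩) := by
      intro x
      have h4 : ∀ p : P, ρ (x * ⟨(p : G), hPD p.2⟩) = ρ x := by
        intro p
        rw [map_mul, htriv ⟨(p : G), hPD p.2⟩ p.2, mul_one]
      rw [Finset.sum_congr rfl fun p _ => by rw [h4 p], ← Finset.sum_smul, ← Finset.sum_mul]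
      have h5 := hw.sum x x.2
      rw [finsum_eq_sum_of_fintype] at h5
      rw [h5, one_mul]
    rw [Finset.sum_congr rfl fun x _ => h3 x, Finset.sum_comm]
    have h6 : ∀ p : P, ∑ x : D, (w ((x : G) * p) * b x) • ρ (x * ⟨(p : G), hPD p.2⟩) =
        ∑ x : D, (w x * b ((x : G) * (p : G)⁻¹)) • ρ x := by
      intro p
      refine Fintype.sum_equiv (Equiv.mulRight (⟨(p : G), hPD p.2⟩ : D)) _ _ fun x => ?_
      change _ = (w ((x : G) * p) * b ((x : G) * p * (p : G)⁻¹)) • ρ (x * ⟨(p : G), hPD p.2⟩)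
      rw [mul_inv_cancel_right]
    rw [Finset.sum_congr rfl fun p _ => h6 p, Finset.sum_comm]
    refine Finset.sum_eq_zero fun x _ => ?_
    rw [← Finset.sum_smul, ← Finset.mul_sum]
    have h7 := hcon x
    rw [finsum_eq_sum_of_fintype] at h7
    rw [h7, mul_zero, zero_smul]
  rw [h1] at h2
  exact one_ne_zero h2

end Pool.Agent.PP.CD2.H75
end
end -- Pool.Agent.Helper75_D2.StbA

section -- Pool.Agent.Helper75_D2.Stb

/-!
# Squad PP, part D2, module STB
-/

open scoped BigOperators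

set_option linter.unusedSectionVars false

noncomputable section

namespace Pool.Agent.PP.CD2.H75

open Pool.Agent.PP Pool.Agent.Helper51_AWC Pool.Agent.Helper79_WRA Pool.Agent.PP.H20
  Pool.Agent.PP.CD2.H66 Pool.Agent.PP.CD2.H26

/-- the normaliser of `⟨y⟩` modulo the centraliser -/
theorem norm_pow {G : Type} [Group G] {ℓ n : ℕ} (hℓ : ℓ.Prime) {y : G}
    (ho : orderOf y = ℓ ^ (n + 1)) (hc : y ^ (ℓ ^ n) ∈ Subgroup.center G) {x : G}
    (hx : x ∈ NY y) : x ^ (ℓ ^ n) ∈ CY y := by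
  obtain ⟨r, hr⟩ := Subgroup.mem_zpowers_iff.1
    ((Subgroup.mem_normalizer_iff.1 hx y).1 (Subgroup.mem_zpowers y))
  have h1 : ∀ j : ℕ, x ^ j * y * (x ^ j)⁻¹ = y ^ (r ^ j) := by
    intro j
    induction j with
    | zero => simp
    | succ j ih =>
      have e : x ^ (j + 1) * y * (x ^ (j + 1))⁻¹ = x * (x ^ j * y * (x ^ j)⁻¹) * x⁻¹ := by
        rw [pow_succ']
        group
      rw [e, ih, ← conj_zpow, ← hr, ← zpow_mul, pow_succ']
  have h2 : x * y ^ (ℓ ^ n) * x⁻¹ = y ^ (ℓ ^ n) := by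
    rw [Subgroup.mem_center_iff.1 hc x, mul_inv_cancel_right]
  have h3 : x * y ^ (ℓ ^ n) * x⁻¹ = y ^ (r * ((ℓ ^ n : ℕ) : ℤ)) := by
    rw [← conj_pow, ← hr, ← zpow_natCast, ← zpow_mul]
  have h4 : y ^ ((r - 1) * ((ℓ ^ n : ℕ) : ℤ)) = 1 := by
    rw [sub_mul, one_mul, zpow_sub, ← h3, h2, zpow_natCast, mul_inv_cancel]
  have h5 : ((ℓ : ℕ) : ℤ) ∣ r - 1 := by
    have h6 := orderOf_dvd_iff_zpow_eq_one.2 h4
    rw [ho, pow_succ'] at h6
    push_cast at h6
    exact (mul_dvd_mul_iff_right (pow_ne_zero n (by exact_mod_cast hℓ.ne_zero))).1 h6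
  have h6 := dvd_sub_pow_of_dvd_sub h5 n
  have h7 : y ^ (r ^ (ℓ ^ n)) = y := by
    have h8 : y ^ (r ^ (ℓ ^ n) - 1) = 1 := by
      apply orderOf_dvd_iff_zpow_eq_one.1
      rw [ho]
      push_cast
      rw [one_pow] at h6
      exact h6
    rw [zpow_sub, zpow_one] at h8
    exact mul_inv_eq_one.1 h8
  have h8 := h1 (ℓ ^ n)
  rw [h7, mul_inv_eq_iff_eq_mul] at h8
  have h9 : Commute y (x ^ (ℓ ^ n)) := h8.symm
  refine Subgroup.mem_centralizer_iff.2 fun z hz => ?_
  obtain ⟨j, rfl⟩ := Subgroup.mem_zpowers_iff.1 hz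
  exact (h9.zpow_left j).eq

/-- a power which is an `ℓ`-element -/
theorem exists_elt {G : Type} [Group G] [Finite G] {ℓ n : ℕ} (hℓ : ℓ.Prime) {D : Subgroup G}
    {x : G} (hx : x ∉ D) (hxn : x ^ (ℓ ^ n) ∈ D) :
    ∃ s k : ℕ, x ^ s ∉ D ∧ orderOf (x ^ s) = ℓ ^ k := by
  obtain ⟨k, s, hs, ho⟩ := Nat.exists_eq_pow_mul_and_not_dvd (orderOf_pos x).ne' ℓ hℓ.ne_one
  have hs0 : s ≠ 0 := by
    rintro rfl
    exact hs (dvd_zero _)
  refine ⟨s, k, fun h => hx ?_, ?_⟩
  · have hco : Nat.Coprime s (ℓ ^ n) :=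
      (Nat.Coprime.pow_left n ((Nat.Prime.coprime_iff_not_dvd hℓ).2 hs)).symm
    have h1 := Nat.gcd_eq_gcd_ab s (ℓ ^ n)
    rw [hco] at h1
    have h2 : x = (x ^ s) ^ (Nat.gcdA s (ℓ ^ n)) * (x ^ (ℓ ^ n)) ^ (Nat.gcdB s (ℓ ^ n)) := by
      rw [← zpow_natCast, ← zpow_natCast, ← zpow_mul, ← zpow_mul, ← zpow_add, ← h1, Nat.cast_one,
        zpow_one]
    rw [h2]
    exact D.mul_mem (D.zpow_mem h _) (D.zpow_mem hxn _)
  · rw [orderOf_pow_of_dvd hs0 (by rw [ho]; exact Dvd.intro_left _ rfl), ho,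
      Nat.mul_div_cancel _ (Nat.pos_of_ne_zero hs0)]

section sh

variable {F : Type} [Field F] {G : Type} [Group G] [Finite G]

/-- the shift -/
def sh (t : G) (f : G → F) : G → F := fun g => f (t⁻¹ * g)

theorem toMA_sh (t : G) (f : G → F) : toMA (sh t f) = MonoidAlgebra.single t (1 : F) * toMA f := by
  rw [single_mul_toMA]
  rfl

theorem sh_mulF (t : G) (f g : G → F) : mulF (sh t f) g = sh t (mulF f g) := by
  apply toMA_injective
  rw [toMA_mulF, toMA_sh, toMA_sh, toMA_mulF, mul_assoc]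

theorem mulF_sh {C : Subgroup G} {t : G} {f : G → F} (hf : CmF C f) (ht : t ∈ C) (g : G → F) :
    mulF f (sh t g) = sh t (mulF f g) := by
  apply toMA_injective
  rw [toMA_mulF, toMA_sh, toMA_sh, toMA_mulF, ← mul_assoc, ← mul_assoc, cmF_iff.1 hf t ht]

theorem sh_sp {C : Subgroup G} {t : G} {f : G → F} (hf : SpF C f) (ht : t ∈ C) :
    SpF C (sh t f) := by
  intro x hx
  apply hf
  intro h
  apply hx
  have h1 := C.mul_mem ht h
  rwa [mul_inv_cancel_left] at h1

theorem sh_cm {C : Subgroup G} {t : G} {f : G → F} (hf : CmF C f) (ht : ∀ c ∈ C, c * t = t * c) :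
    CmF C (sh t f) := by
  rw [cmF_iff] at hf ⊢
  intro c hc
  rw [toMA_sh, ← mul_assoc, MonoidAlgebra.single_mul_single, ht c hc, mul_assoc,
    ← hf c hc, ← mul_assoc, MonoidAlgebra.single_mul_single]

theorem bY_sh {y t : G} (ht : t ∈ CY y) (f : G → F) : bY y (sh t f) = sh t (bY y f) := by
  funext g
  by_cases hg : g ∈ CY y
  · rw [bY_pos _ hg]
    exact (bY_pos f ((CY y).mul_mem ((CY y).inv_mem ht) hg)).symm
  · rw [bY_neg _ hg]
    refine (bY_neg f fun h => hg ?_).symm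
    have h1 := (CY y).mul_mem ht h
    rwa [mul_inv_cancel_left] at h1

theorem bY_of_sp {y : G} {f : G → F} (hf : SpF (CY y) f) : bY y f = f := by
  funext g
  by_cases hg : g ∈ CY y
  · exact bY_pos _ hg
  · rw [bY_neg _ hg, hf g hg]

end sh

/-- STB -/
theorem stb (orb : OrbStmt) (nls : NlsStmt) (brp : BrpStmt) (bld : BldStmt) (inv : InvStmt) :
    StbStmt := by
  classical
  intro ℓ hℓ F _ hF G _ _ n P y e hS
  obtain ⟨hgen, hord, hcen, hblk, hprj, hbrn⟩ := hS
  subst hgen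
  have hfG := Fintype.ofFinite G
  have hcl := hF.closed
  have hchar := hF.char
  have he : IsIdem e := hblk.1
  -- the subgroups
  have hPp : IsPGroup ℓ (Subgroup.zpowers y) := by
    apply IsPGroup.of_card (n := n + 1)
    rw [Nat.card_zpowers, hord]
  have hPD : Subgroup.zpowers y ≤ CY y := by
    rw [Subgroup.zpowers_le]
    refine Subgroup.mem_centralizer_iff.2 fun z hz => ?_
    obtain ⟨j, rfl⟩ := Subgroup.mem_zpowers_iff.1 hz
    exact ((Commute.refl y).zpow_left j).eq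
  have hDM : CY y ≤ NY y := CY_le_NY y
  have hPM : Subgroup.zpowers y ≤ NY y := hPD.trans hDM
  have hkD : ∀ k ∈ NY y, ∀ x, k⁻¹ * x * k ∈ CY y ↔ x ∈ CY y := fun k hk x => conj_cent hk
  have hkP : ∀ k ∈ NY y, conjS k (Subgroup.zpowers y) = Subgroup.zpowers y := by
    intro k hk
    ext x
    rw [mem_conjS]
    have h1 := Subgroup.mem_normalizer_iff.1 (inv_mem hk) x
    rw [inv_inv] at h1
    exact h1.symm
  have hPcomm : ∀ c ∈ CY y, ∀ p ∈ Subgroup.zpowers y, c * p = p * c := fun c hc p hp =>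
    (Subgroup.mem_centralizer_iff.1 hc p hp).symm
  -- the idempotent `b₁`
  have hb₁s : SpF (CY y) (bY y e) := (bY_sp (N := ⊤) fun x hx => absurd (Subgroup.mem_top x) hx).mono
    inf_le_right
  have hb₁M : CmF (NY y) (bY y e) := (bY_cm (cmF_of_cl he.1 ⊤)).mono (le_inf le_top le_rfl)
  have hb₁D : CmF (CY y) (bY y e) := hb₁M.mono hDM
  have hb₁b : mulF (bY y e) (bY y e) = bY y e := by
    rw [← bY_mulF hF hPp (cmF_of_cl he.1 _) (cmF_of_cl he.1 _), he.2]
  obtain ⟨m, ε, he1, -, he3⟩ := bld ℓ F hF G (CY y) (bY y e) hb₁s hb₁D hb₁b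
  have hm : 0 < m := by
    rcases Nat.eq_zero_or_pos m with h | h
    · subst h
      exact absurd (he3.symm.trans (by simp)) hbrn
    · exact h
  have hb := he1 ⟨0, hm⟩
  set b : G → F := ε ⟨0, hm⟩ with hbdef
  have hbD : CmF (CY y) b := H31.blc_cm hb
  have hbb : mulF b b = b := H31.blc_ff hb
  have hbb₁ : mulF b (bY y e) = b := by
    rw [cm_comm hbD hb₁s, hb.le]
  obtain ⟨r, ρ, hρ, hρb⟩ := H20.blk_rep hF hb.blk.1 hb.blk.2.1
  have hr : NeZero r := ⟨hρ.1.ne'⟩
  -- weights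
  obtain ⟨c, z, hc, hz, hzP, hez⟩ := hprj
  obtain ⟨c₁, hc₁⟩ := D1H51.exists_w F hPM
  obtain ⟨d, hd⟩ := D1H51.exists_w F hDM
  obtain ⟨w, hw⟩ := D1H51.exists_w F hPD
  have hbrT : ∀ a : G → F, CmF (Subgroup.zpowers y) a → bY y (TrF c a) = TrF c₁ (bY y a) := by
    intro a ha
    refine (brp ℓ F hF G ⊤ (Subgroup.zpowers y) (Subgroup.zpowers y) hPp le_top le_top c a hc
      ha).2 rfl c₁ ?_
    rw [top_inf_eq]
    exact hc₁
  have heT : e = TrF c z := funext hez
  have hz₁s : SpF (CY y) (bY y z) := (bY_sp (N := ⊤) hz).mono inf_le_right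
  have hz₁P : CmF (Subgroup.zpowers y) (bY y z) :=
    (bY_cm (y := y) (H := Subgroup.zpowers y) hzP).mono (le_inf le_rfl hPM)
  set z₁ : G → F := bY y z with hz₁
  set a : G → F := TrF w z₁ with ha
  have has : SpF (CY y) a := TrF_sp hw hz₁s
  have haD : CmF (CY y) a := TrF_cm hPD hw hz₁P
  have hb₁a : bY y e = TrF d a := by
    conv_lhs => rw [heT]
    rw [hbrT z hzP, TrF_trans hPD hDM hc₁ hd hw hz₁P]
  -- the representation
  have hρb₁ : ev ρ (fun x : CY y => bY y e x) = 1 := by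
    have h3 : mulF (fun x : CY y => bY y e x) (fun x : CY y => b x) = fun x : CY y => b x := by
      rw [← H46.restr_ext0 (mulF (fun x : CY y => bY y e x) (fun x : CY y => b x)), H46.ext0_mul,
        H46.ext0_restr hb₁s, H46.ext0_restr hb.supp, hb.le]
    have h4 := congrArg (ev ρ) h3
    rw [H20.ev_mulF, hρb, mul_one] at h4
    exact h4
  have hcga : ∀ k ∈ NY y, CmF (CY y) (cg k a) := by
    intro k hk
    refine cm_of_cg fun δ hδ => ?_
    have h1 : k⁻¹ * δ * k ∈ CY y := (hkD k hk δ).2 hδ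
    have h2 : δ * k = k * (k⁻¹ * δ * k) := by group
    rw [← cg_mul, h2, cg_mul, cg_of_cm haD h1]
  have hsum : ev ρ (fun x : CY y => bY y e x) =
      ∑ k : G, d k • ev ρ (fun x : CY y => cg k a x) := by
    rw [← D1H51.ev_lin]
    congr 1
    funext x
    rw [hb₁a, TrF_eq, Finset.sum_apply, Finset.sum_apply]
    rfl
  have hscal : ∀ k ∈ NY y, ∃ s : F, ev ρ (fun x : CY y => cg k a x) = Matrix.scalar (Fin r) s := by
    intro k hk
    obtain ⟨s, hs, -⟩ := H20.eig F (CY y) r ρ hρ (fun x : CY y => cg k a x)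
      (fun x t => hcga k hk t t.2 x)
    exact ⟨s, hs⟩
  have hb₁k : ∀ k ∈ NY y, (fun g => bY y e (k⁻¹ * g * k)) = bY y e := fun k hk =>
    cg_of_cm hb₁M hk
  -- the conjugates of `b`
  have horth : ∀ x ∈ NY y, x ∉ CY y → mulF b (cg x b) = 0 := by
    intro x hx hxD
    by_cases hxb : cg x b = b
    · exfalso
      obtain ⟨s, k, hs1, hs2⟩ := exists_elt hF.prime hxD (norm_pow hF.prime hord hcen hx)
      have hsM : x ^ s ∈ NY y := (NY y).pow_mem hx s
      have hsb : cg (x ^ s) b = b := by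
        clear hs1 hs2 hsM
        induction s with
        | zero =>
          funext g
          unfold cg
          simp
        | succ s ih => rw [pow_succ, cg_mul, hxb, ih]
      have h1 := orbit_zero orb hF hkD hd
        (fun g => if g ∈ NY y then ev ρ (fun x : CY y => cg g a x) 0 0 else 0)
        (fun g hg => if_neg hg)
        (fun g δ hδ => by
          have h2 : g * δ ∈ NY y ↔ g ∈ NY y := Subgroup.mul_mem_cancel_right _ (hDM hδ)
          change (if g * δ ∈ NY y then ev ρ (fun x : CY y => cg (g * δ) a x) 0 0 else 0) =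
            if g ∈ NY y then ev ρ (fun x : CY y => cg g a x) 0 0 else 0
          rw [cg_mul, cg_of_cm haD hδ]
          by_cases hg : g ∈ NY y
          · rw [if_pos (h2.2 hg), if_pos hg]
          · rw [if_neg (fun h => hg (h2.1 h)), if_neg hg]) hs1 hs2
        (fun g => by
          have h2 : x ^ s * g ∈ NY y ↔ g ∈ NY y := Subgroup.mul_mem_cancel_left _ hsM
          change (if x ^ s * g ∈ NY y then ev ρ (fun t : CY y => cg (x ^ s * g) a t) 0 0 else 0) =
            if g ∈ NY y then ev ρ (fun x : CY y => cg g a x) 0 0 else 0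
          by_cases hg : g ∈ NY y
          · rw [if_pos (h2.2 hg), if_pos hg, cg_mul,
              ev_stab hb (hcga g hg) (fun t => (hkD _ hsM t).symm) hsb ρ hρ hρb]
          · rw [if_neg (fun h => hg (h2.1 h)), if_neg hg])
      rw [finsum_eq_sum_of_fintype] at h1
      have h3 : ∑ g : G, d g * (if g ∈ NY y then ev ρ (fun x : CY y => cg g a x) 0 0 else 0) =
          (∑ g : G, d g • ev ρ (fun x : CY y => cg g a x)) 0 0 := by
        rw [Matrix.sum_apply]
        refine Finset.sum_congr rfl fun g _ => ?_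
        by_cases hg : g ∈ NY y
        · rw [if_pos hg, Matrix.smul_apply, smul_eq_mul]
        · rw [if_neg hg, hd.supp g hg, zero_mul, zero_smul, Matrix.zero_apply]
      rw [h3, ← hsum, hρb₁, Matrix.one_apply_eq] at h1
      exact one_ne_zero h1
    · exact H31.blc_orth hb (H31.blc_conj hb (fun t => (hkD x hx t).symm) (hb₁k x hx))
        (fun h => hxb h.symm)
  -- a conjugate of `a` which is not nilpotent
  obtain ⟨k, hk, hk0⟩ : ∃ k ∈ NY y, ev ρ (fun x : CY y => cg k a x) ≠ 0 := by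
    by_contra hcon
    push Not at hcon
    rw [hρb₁, Finset.sum_eq_zero] at hsum
    · exact one_ne_zero hsum
    · intro k _
      by_cases hk : k ∈ NY y
      · rw [hcon k hk, smul_zero]
      · rw [hd.supp k hk, zero_smul]
  obtain ⟨s, hs⟩ := hscal k hk
  have hs0 : s ≠ 0 := by
    rintro rfl
    apply hk0
    rw [hs, map_zero]
  have hcgs : SpF (CY y) (cg k a) := fun x hx => has _ fun h => hx ((hkD k hk x).1 h)
  have hz's : SpF (CY y) (cg k z₁) := fun x hx => hz₁s _ fun h => hx ((hkD k hk x).1 h)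
  have hz'P : CmF (Subgroup.zpowers y) (cg k z₁) := by
    have h1 := H40.cmF_conj hz₁P k
    rw [hkP k hk] at h1
    exact h1
  have haT : cg k a = TrF w (cg k z₁) := by
    have h1 : cg k a = TrF (fun g => w (k⁻¹ * g * k)) (cg k z₁) := by
      funext x
      exact (H40.TrG_conj k w z₁ x).symm
    have h2 := H40.w_conj hw (hkD k hk)
    rw [hkP k hk] at h2
    rw [h1, TrF_indep hPD h2 hw hz'P]
  obtain ⟨u, hu, hub⟩ := inv ℓ F hF (CY y) (fun x : CY y => b x) (fun x : CY y => cg k a x)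
    hb.blk (fun x t => hcga k hk t t.2 x) (D1H51.not_nil hρ hs0 hs hρb)
  set U : G → F := ext0 (CY y) u with hU
  have hUD : CmF (CY y) U := fun m hm y => D1H51.ext0_inv hu hm y
  have hUs : SpF (CY y) U := fun y hy => H46.ext0_of_not_mem _ hy
  have hprod : mulF (mulF b U) (cg k a) = b := by
    have h3 : mulF b (mulF (cg k a) U) = b := by
      have h4 := congrArg (ext0 (CY y)) hub
      rw [H46.ext0_mul, H46.ext0_mul, H46.ext0_restr hb.supp, H46.ext0_restr hcgs] at h4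
      exact h4
    rw [mulF_assoc, cm_comm hUD hcgs]
    exact h3
  -- the elements
  have hshD : ∀ t ∈ Subgroup.zpowers y, CmF (CY y) (sh t (mulF b U)) := fun t ht =>
    sh_cm (hbD.mul hUD) fun c hc => hPcomm c hc t ht
  have hshb : ∀ t ∈ Subgroup.zpowers y, CmF (CY y) (sh t b) := fun t ht =>
    sh_cm hbD fun c hc => hPcomm c hc t ht
  have hshs : ∀ t ∈ Subgroup.zpowers y, SpF (CY y) (sh t b) := fun t ht => sh_sp hb.supp (hPD ht)
  have hbsh : ∀ t ∈ Subgroup.zpowers y, mulF b (sh t b) = sh t b := by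
    intro t ht
    rw [mulF_sh hbD (hPD ht), hbb]
  have hTv : ∀ t ∈ Subgroup.zpowers y,
      TrF w (mulF (sh t (mulF b U)) (cg k z₁)) = sh t b := by
    intro t ht
    rw [← mul_TrF hw (hshD t ht), ← haT, sh_mulF, hprod]
  have hvP : ∀ t ∈ Subgroup.zpowers y,
      CmF (Subgroup.zpowers y) (mulF (sh t (mulF b U)) (cg k z₁)) := fun t ht =>
    ((hshD t ht).mono hPD).mul hz'P
  have hvs : ∀ t ∈ Subgroup.zpowers y,
      SpF (CY y) (mulF (sh t (mulF b U)) (cg k z₁)) := fun t ht =>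
    (sh_sp (hb.supp.mul hUs) (hPD ht)).mul hz's
  have hbT : ∀ t ∈ Subgroup.zpowers y, mulF b (TrF d (sh t b)) = sh t b := by
    intro t ht
    rw [TrF_eq, mulF_sum']
    have h1 : ∀ g : G, mulF b (d g • cg g (sh t b)) = if g ∈ CY y then d g • sh t b else 0 := by
      intro g
      rw [mulF_smul]
      by_cases hg : g ∈ CY y
      · rw [if_pos hg, cg_of_cm (hshb t ht) hg, hbsh t ht]
      · rw [if_neg hg]
        by_cases hgM : g ∈ NY y
        · have h2 : cg g (sh t b) = mulF (cg g b) (cg g (sh t b)) := by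
            rw [← cg_mulF, hbsh t ht]
          rw [h2, ← mulF_assoc, horth g hgM hg, zero_mulF, smul_zero]
        · rw [hd.supp g hgM, zero_smul]
    rw [Finset.sum_congr rfl fun g _ => h1 g, ← Finset.sum_filter, ← Finset.sum_smul]
    have h2 := hd.sum 1 (NY y).one_mem
    have hfD := Fintype.ofFinite (CY y)
    rw [finsum_eq_sum_of_fintype] at h2
    have h3 : ∑ g ∈ Finset.univ.filter (fun g : G => g ∈ CY y), d g = 1 := by
      rw [← h2]
      symm
      refine Finset.sum_bij (fun δ _ => (δ : G)) (fun δ _ => ?_) (fun δ _ δ' _ h => ?_)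
        (fun g hg => ?_) (fun δ _ => ?_)
      · rw [Finset.mem_filter]
        exact ⟨Finset.mem_univ _, δ.2⟩
      · exact Subtype.ext h
      · rw [Finset.mem_filter] at hg
        exact ⟨⟨g, hg.2⟩, Finset.mem_univ _, rfl⟩
      · rw [one_mul]
    rw [h3, one_smul]
  -- the homomorphism
  let χ : (G → F) →ₗ[F] (G → F) :=
    { toFun := fun f => mulF b (bY y f)
      map_add' := fun f g => by
        have h1 : bY y (f + g) = bY y f + bY y g := by
          funext x
          by_cases hx : x ∈ CY y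
          · rw [bY_pos _ hx, Pi.add_apply, Pi.add_apply, bY_pos _ hx, bY_pos _ hx]
          · rw [bY_neg _ hx, Pi.add_apply, bY_neg _ hx, bY_neg _ hx, add_zero]
        rw [h1, mulF_add]
      map_smul' := fun α f => by
        have h1 : bY y (α • f) = α • bY y f := by
          funext x
          by_cases hx : x ∈ CY y
          · rw [bY_pos _ hx, Pi.smul_apply, Pi.smul_apply, bY_pos _ hx]
          · rw [bY_neg _ hx, Pi.smul_apply, bY_neg _ hx, smul_zero]
        rw [h1, mulF_smul, RingHom.id_apply] }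
  have hχ : ∀ f, χ f = mulF b (bY y f) := fun _ => rfl
  refine ⟨b, χ, ?_, ?_, ?_, ?_, ?_⟩
  · rw [hχ, hbb₁]
  · intro f g hf hg _ _
    rw [hχ, hχ, hχ, bY_mulF hF hPp (cmF_of_cl hf _) (cmF_of_cl hg _)]
    have hfs : SpF (CY y) (bY y f) := (bY_sp (N := ⊤) fun x hx =>
      absurd (Subgroup.mem_top x) hx).mono inf_le_right
    calc mulF b (mulF (bY y f) (bY y g)) = mulF (mulF b b) (mulF (bY y f) (bY y g)) := by rw [hbb]
      _ = mulF (mulF b (mulF b (bY y f))) (bY y g) := by simp only [mulF_assoc]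
      _ = mulF (mulF b (mulF (bY y f) b)) (bY y g) := by rw [cm_comm hbD hfs]
      _ = mulF (mulF b (bY y f)) (mulF b (bY y g)) := by simp only [mulF_assoc]
  · intro t ht
    have ht' : t ∈ CY y := Subgroup.center_le_centralizer _ ht
    have h1 : χ (sh t e) = sh t b := by
      rw [hχ, bY_sh ht', mulF_sh hbD ht', hbb₁]
    exact h1
  · intro j
    have ht : y ^ j ∈ Subgroup.zpowers y := Subgroup.npow_mem_zpowers y j
    have hTcm : CmF ⊤ (TrF c (mulF (sh (y ^ j) (mulF b U)) (cg k z₁))) :=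
      TrF_cm le_top hc (hvP _ ht)
    have hTcl : IsCl (TrF c (mulF (sh (y ^ j) (mulF b U)) (cg k z₁))) :=
      fun x g => hTcm g (Subgroup.mem_top g) x
    refine ⟨mulF e (TrF c (mulF (sh (y ^ j) (mulF b U)) (cg k z₁))), ?_, ?_, ?_⟩
    · have h1 := (cmF_of_cl he.1 ⊤).mul hTcm
      exact fun x g => h1 g (Subgroup.mem_top g) x
    · rw [← mulF_assoc, he.2]
    · have h1 : χ (mulF e (TrF c (mulF (sh (y ^ j) (mulF b U)) (cg k z₁)))) = sh (y ^ j) b := by
        rw [hχ, bY_mulF hF hPp (cmF_of_cl he.1 _) (hTcm.mono le_top), hbrT _ (hvP _ ht),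
          bY_of_sp (hvs _ ht), TrF_trans hPD hDM hc₁ hd hw (hvP _ ht), hTv _ ht, ← mulF_assoc,
          hbb₁, hbT _ ht]
      exact h1
  · obtain ⟨x, hx⟩ := coset_ne nls hF hPD (fun k hk p hp => by
      have h1 := hPcomm k hk p hp
      rw [h1, mul_inv_cancel_right]
      exact hp) hPp ρ hρ hρb
    have hyq : y ^ (ℓ ^ (n + 1)) = 1 := by
      rw [← hord, pow_orderOf_eq_one]
    apply shift_indep hF.prime hF.char hyq (x₀ := x)
    intro h0
    apply hx
    rw [← h0]
    have hfP := Fintype.ofFinite (Subgroup.zpowers y)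
    rw [finsum_eq_sum_of_fintype, ← hord, ← Fin.sum_univ_eq_sum_range
      (fun i => b ((y ^ i)⁻¹ * x))]
    symm
    refine Fintype.sum_equiv (finEquivZPowers (isOfFinOrder_of_finite y)) _ _ fun i => ?_
    rw [finEquivZPowers_apply]
    have h1 := hbD ((y ^ (i : ℕ))) (hPD (Subgroup.npow_mem_zpowers y i)) ((y ^ (i : ℕ))⁻¹ * x)
    rw [mul_inv_cancel_left] at h1
    exact h1.symm

end Pool.Agent.PP.CD2.H75
end
end -- Pool.Agent.Helper75_D2.Stb
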