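import Pool.Agent.Helper12_AWB.B056
import Pool.Agent.Helper12_AWB.B058
import Pool.Agent.Helper12_AWB.B090
import Pool.Agent.Helper12_AWB.B098
import Pool.Agent.Helper12_AWB.B147
import Pool.Agent.Helper12_AWB.B160

/-!
# Merged copies (generated) of the modules

* `Pool.Agent.Helper13_D1.C3D`
* `Pool.Agent.Helper94_D1.D1r`
* `Pool.Agent.Helper65_D2.C3d`
* `Pool.Agent.Helper94_D1.D1a`
* `Pool.Agent.Helper94_D2.D2r`
* `Pool.Agent.Helper94_D2.D2a`
-/

set_option autoImplicit false

section -- Pool.Agent.Helper13_D1.C3D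

/-!
# Squad PP, part D1: the correspondence is equivariant
-/

open scoped BigOperators

noncomputable section

namespace Pool.Agent.PP.D1.H13

open Pool.Agent.PP Pool.Agent.Helper51_AWC Pool.Agent.Helper79_WRA Pool.Agent.PP.BN.H66

variable {F : Type} [Field F]

/-- composition of an irreducible representation with an automorphism -/
theorem irr_comp {N : Type} [Group N] {n : ℕ} (σ : N →* Matrix (Fin n) (Fin n) F) (e : N ≃* N)
    (h : IsIrr σ) : IsIrr (σ.comp e.toMonoidHom) := by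
  refine ⟨h.1, ?_⟩
  have h7 : Set.range (σ.comp e.toMonoidHom) = Set.range σ := by
    ext A
    constructor
    · rintro ⟨g, rfl⟩
      exact ⟨_, rfl⟩
    · rintro ⟨g, rfl⟩
      exact ⟨e.symm g, by simp⟩
  rw [h7]
  exact h.2

/-- C3D -/
theorem c3d : C3dStmt := by
  intro F _ G _ _ N P _ hPN φ θ hc x
  obtain ⟨n, σ, m, κ, π, h1, h2, h3, h4, h5⟩ := hc
  have hfix : ∀ v : Fin n → F,
      v ∈ fixV (mrep (σ.comp (MulAut.conjNormal (x : G) : N ≃* N).toMonoidHom)) (P.subgroupOf N) ↔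
        v ∈ fixV (mrep σ) (P.subgroupOf N) := by
    intro v
    constructor
    · intro h p hp
      have h6 := h ((cjU N P x).symm ⟨p, hp⟩) ((cjU N P x).symm ⟨p, hp⟩).2
      have h8 : (MulAut.conjNormal (x : G) : N ≃* N) (((cjU N P x).symm ⟨p, hp⟩ :
          P.subgroupOf N) : N) = p := by
        rw [← cjU_coe, Equiv.apply_symm_apply]
      have h9 : mrep σ ((MulAut.conjNormal (x : G) : N ≃* N) (((cjU N P x).symm ⟨p, hp⟩ :
          P.subgroupOf N) : N)) v = v := h6
      rwa [h8] at h9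
    · intro h p hp
      have h6 := h (cjU N P x ⟨p, hp⟩) (cjU N P x ⟨p, hp⟩).2
      rw [cjU_coe] at h6
      exact h6
  have hnrm : nrmV (mrep (σ.comp (MulAut.conjNormal (x : G) : N ≃* N).toMonoidHom))
      (P.subgroupOf N) = nrmV (mrep σ) (P.subgroupOf N) := by
    unfold nrmV
    have h7 := finsum_comp_equiv (cjU N P x) (f := fun u : P.subgroupOf N => mrep σ u)
    rw [← h7]
    rfl
  refine ⟨n, σ.comp (MulAut.conjNormal (x : G) : N ≃* N).toMonoidHom, m,
    κ.comp (MulAut.conjNormal x : N.subgroupOf (Subgroup.normalizer (P : Set G)) ≃*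
      N.subgroupOf (Subgroup.normalizer (P : Set G))).toMonoidHom, π, irr_comp σ _ h1, ?_,
      irr_comp κ _ h3, ?_, ⟨fun a v hv => ?_, fun v hv => ?_, fun w => ?_⟩⟩
  · funext l
    rw [← h2]
    rfl
  · funext l
    rw [← h4]
    rfl
  · have h6 := h5.int (MulAut.conjNormal x a) v ((hfix v).1 hv)
    have h8 : ((MulAut.conjNormal (x : G) : N ≃* N)
        (jN N (Subgroup.normalizer (P : Set G)) a) : N) =
        jN N (Subgroup.normalizer (P : Set G)) (MulAut.conjNormal x a) := by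
      apply Subtype.ext
      simp only [MulAut.conjNormal_apply, jN, MonoidHom.coe_mk, OneHom.coe_mk, Subgroup.coe_mul,
        InvMemClass.coe_inv]
    show π (mrep σ ((MulAut.conjNormal (x : G) : N ≃* N)
      (jN N (Subgroup.normalizer (P : Set G)) a)) v) = _
    rw [h8]
    exact h6
  · rw [hnrm]
    exact h5.ker v ((hfix v).1 hv)
  · obtain ⟨v, hv, h⟩ := h5.sur w
    exact ⟨v, (hfix v).2 hv, h⟩

end Pool.Agent.PP.D1.H13
end
end -- Pool.Agent.Helper13_D1.C3D

section -- Pool.Agent.Helper94_D1.D1r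

/-! # Squad PP, part D1, module D1R: the relative theorem from CCD and CLD -/

set_option autoImplicit false

open scoped BigOperators

noncomputable section

namespace Pool.Agent.PP.D1H94

open Pool.Agent.Helper51_AWC Pool.Agent.Helper79_WRA Pool.Agent.PP Pool.Agent.PP.H46
  Pool.Agent.PP.H66

section aux
variable {F G : Type} [Field F] [Group G] [Finite G]

theorem mulF_assoc (a b c : G → F) : mulF (mulF a b) c = mulF a (mulF b c) := by
  apply ma_injective
  rw [ma_mul, ma_mul, ma_mul, ma_mul, mul_assoc]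

theorem zero_mulF (e : G → F) : mulF 0 e = 0 := by
  apply ma_injective
  rw [ma_mul, ma_zero, zero_mul]

/-- the alternating sum of zero -/
theorem YY_zero {ℓ : ℕ} (hF : GoodF ℓ F) (N : Subgroup G) (hN : N.Normal) :
    YY ℓ N (0 : G → F) = 0 := by
  apply H9.addStmt ℓ F hF G N hN 0 isIdem_zero
  intro f hf h
  exfalso
  apply hf.2.1
  rw [← h, zero_mulF]

/-- products of functions supported on a subgroup -/
theorem mulF_restr {T : Subgroup G} {u v : G → F} (hu : ∀ x, x ∉ T → u x = 0)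
    (hv : ∀ x, x ∉ T → v x = 0) :
    mulF (fun t : T => u t) (fun t : T => v t) = fun t : T => mulF u v t := by
  have h1 := ext0_mul (fun t : T => u t) (fun t : T => v t)
  rw [ext0_restr hu, ext0_restr hv] at h1
  rw [← restr_ext0 (mulF (fun t : T => u t) (fun t : T => v t)), h1]

omit [Finite G] in
/-- the Brauer map does not vanish -/
theorem br_ne {P : Subgroup G} {a : G → F} (h : br P a ≠ 0) :
    ∃ t ∈ Subgroup.centralizer (P : Set G), a t ≠ 0 := by
  by_contra hcon
  push Not at hcon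
  apply h
  funext t
  by_cases ht : t ∈ Subgroup.centralizer (P : Set G)
  · rw [br_of_mem ht, hcon t ht]
    rfl
  · rw [br_of_not_mem ht]
    rfl

omit [Finite G] in
theorem br_ne' {P : Subgroup G} {a : G → F} {t : G}
    (h1 : t ∈ Subgroup.centralizer (P : Set G)) (h2 : a t ≠ 0) : br P a ≠ 0 := by
  intro h
  apply h2
  rw [← br_of_mem (a := a) h1, h]
  rfl

omit [Finite G] in
/-- the Brauer map on a subgroup -/
theorem br_sub {T : Subgroup G} {Q : Subgroup T} {a : G → F}
    (h : br Q (fun t : T => a t) ≠ 0) : br (Q.map T.subtype) a ≠ 0 := by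
  obtain ⟨t, h1, h2⟩ := br_ne h
  apply br_ne' (t := (t : G)) _ h2
  rw [Subgroup.mem_centralizer_iff] at h1 ⊢
  rintro _ ⟨q, hq, rfl⟩
  exact congrArg Subtype.val (h1 q hq)

omit [Finite G] in
theorem card_sub {T : Subgroup G} (Q : Subgroup T) : Nat.card (Q.map T.subtype) = Nat.card Q :=
  (Nat.card_congr (Q.equivMapOfInjective T.subtype T.subtype_injective).toEquiv).symm

omit [Finite G] in
theorem p_sub {ℓ : ℕ} {T : Subgroup G} {Q : Subgroup T} (h : IsPGroup ℓ Q) :
    IsPGroup ℓ (Q.map T.subtype) := h.map T.subtype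

end aux

/-- the stable case -/
theorem stable_case (hccd : CcdStmt) (hcld : CldStmt) (ℓ : ℕ) [Fact ℓ.Prime] (F : Type) [Field F]
    (hF : GoodF ℓ F) (G : Type) [Group G] [Finite G] (N : Subgroup G) (hN : N.Normal) (b e : G → F)
    (hbc : IsCl b) (hb0 : ∀ x, x ∉ N → b x = 0) (hb : IsBlk (fun t : N => b t)) (he : IsIdem e)
    (hp : Pos ℓ e N) (heb : mulF e b = e)
    (hQ : ∀ Q : Subgroup G, Q ≤ N → IsPGroup ℓ Q → br Q b ≠ 0 → Nat.card Q ≤ ℓ) :
    YY ℓ N e = 0 := by
  by_cases hd : DZ ℓ (fun t : N => b t)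
  · have h1 : stabF (ext0 N (fun t : N => b t)) = ⊤ := by
      rw [ext0_restr hb0, eq_top_iff]
      intro g _ x
      exact hbc x g
    have h2 := (Pool.Agent.AWR.H39.ps3 ℓ F hF G N hN (fun t : N => b t) hb h1 e he (by
      rw [ext0_restr hb0]
      exact heb)).2 hd hp
    rw [h2]
    exact YY_zero hF N hN
  · obtain ⟨P, hD, hB⟩ := hcld ℓ F hF G N hN b hbc hb0 hb hd hQ
    exact hccd ℓ F hF G N P b hD hB e he heb

/-- D1R -/
theorem d1r (hccd : CcdStmt) (hcld : CldStmt) : D1rStmt := by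
  intro ℓ _ F _ hF G _ _ N hN e0 he0 hp0 hd0
  obtain ⟨a, ha, haN, hea, haQ⟩ := hd0
  apply H9.addStmt ℓ F hF G N hN e0 he0
  intro e he hee
  have hp : Pos ℓ e N := pos_mono he.1 (by rw [mulF_comm he.1.1, hee]) hp0
  have hea' : mulF e a = e := by
    have h1 : mulF e e0 = e := by rw [mulF_comm he.1.1, hee]
    rw [← h1, mulF_assoc, hea]
  obtain ⟨b, hb0, hb, hbe⟩ := exists_blk he.2.1 N
  have hNT : N ≤ stabF b := by
    intro g hg x
    by_cases hx : x ∈ N
    · exact hb.1.1 ⟨x, hx⟩ ⟨g, hg⟩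
    · rw [hb0 x hx, hb0]
      intro h
      apply hx
      have h2 := hN.conj_mem _ h g⁻¹
      have h3 : g⁻¹ * (g * x * g⁻¹) * g⁻¹⁻¹ = x := by group
      rwa [h3] at h2
  have hbb : mulF b b = b := by
    have h1 := ext0_mul (fun t : N => b t) (fun t : N => b t)
    rw [hb.1.2, ext0_restr hb0] at h1
    exact h1.symm
  -- `a b = b`
  have hab : mulF a b = b := by
    have ha' : IsIdem (fun t : N => a t) := by
      refine ⟨fun x y => ha.1 x y, ?_⟩
      rw [mulF_restr haN haN, ha.2]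
    have h1 : mulF (fun t : N => b t) (fun t : N => a t) = fun t : N => mulF a b t := by
      rw [mulF_comm hb.1.1, mulF_restr haN hb0]
    have h2 : ∀ x, x ∉ N → mulF a b x = 0 := by
      intro x hx
      have h3 := ext0_mul (fun t : N => a t) (fun t : N => b t)
      rw [ext0_restr haN, ext0_restr hb0] at h3
      rw [← h3, ext0_of_not_mem _ hx]
    rcases hb.2.2 _ ha' with h3 | h3
    · rw [h1] at h3
      rw [← ext0_restr h2, h3, ext0_restr hb0]
    · exfalso
      rw [h1] at h3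
      have h4 : mulF a b = 0 := by
        rw [← ext0_restr h2, h3]
        funext x
        by_cases hx : x ∈ N
        · rw [ext0_of_mem _ hx]
          rfl
        · rw [ext0_of_not_mem _ hx]
          rfl
      apply hbe
      rw [← hea', mulF_assoc, h4, mulF_zero]
  have hfr : FrStmt := H75.fr H94.nch H74.orb H20.nls H20.ibf H20.ibj H20.ibn H20.eig
  obtain ⟨h1, h2, h3, h4⟩ := hfr ℓ F hF G N N hN hN le_rfl e he hp b hb0 hb hbe (stabF b)
    (fun g => Iff.rfl)
  rw [h4]
  have hNn : (N.subgroupOf (stabF b)).Normal := hN.subgroupOf _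
  have hbT : ∀ x, x ∉ stabF b → b x = 0 := fun x hx => hb0 x fun h => hx (hNT h)
  have h5 : YY ℓ (N.subgroupOf (stabF b)) (fun t : stabF b => mulF e b t) = 0 := by
    apply stable_case hccd hcld ℓ F hF (stabF b) (N.subgroupOf (stabF b)) hNn
      (fun t : stabF b => b t) _ _ _ _ h2 h3 _ _
    · intro x y
      exact y.2 x
    · intro x hx
      exact hb0 x hx
    · exact H9.blk_tr (Subgroup.subgroupOfEquivOfLe hNT) hb
    · rw [mulF_restr h1 hbT]
      funext t
      rw [mulF_assoc, hbb]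
    · intro Q hQN hQp hQb
      have h6 := br_sub hQb
      have h7 : Q.map (stabF b).subtype ≤ N := by
        rintro _ ⟨q, hq, rfl⟩
        exact hQN hq
      rw [← card_sub Q]
      apply haQ _ h7 (p_sub hQp)
      intro h8
      apply h6
      have h9 : br (Q.map (stabF b).subtype) (mulF a b) = 0 := by
        rw [br_mulF hF (p_sub hQp) (IsCl.inv ha.1 _) (fun p hp t => hNT (h7 hp) t), h8,
          zero_mulF]
      rwa [hab] at h9
  rw [h5, mul_zero]

end Pool.Agent.PP.D1H94
end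
end -- Pool.Agent.Helper94_D1.D1r

section -- Pool.Agent.Helper65_D2.C3d

/-!
# Squad PP, part D2, module C3D: the correspondence is equivariant
-/

open scoped BigOperators

noncomputable section

namespace Pool.Agent.PP.CD2.H65

open Pool.Agent.PP Pool.Agent.Helper51_AWC Pool.Agent.Helper79_WRA

section gen

variable {F : Type} [Field F]

theorem key_conj {G : Type} [Group G] {y g : G} (hg : g ∈ NY y) {x : G} (hx : x ∈ CY y) :
    g * x * g⁻¹ ∈ CY y := by
  have hx' : x ∈ Subgroup.centralizer (Subgroup.zpowers y : Set G) := hx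
  change g * x * g⁻¹ ∈ Subgroup.centralizer (Subgroup.zpowers y : Set G)
  rw [Subgroup.mem_centralizer_iff] at hx' ⊢
  intro z hz
  have h1 : g⁻¹ * z * g ∈ Subgroup.zpowers y := by
    have := (Subgroup.mem_normalizer_iff.1 (inv_mem hg) z).1 hz
    rwa [inv_inv] at this
  have h2 := hx' _ h1
  calc z * (g * x * g⁻¹) = g * ((g⁻¹ * z * g) * x) * g⁻¹ := by group
    _ = g * (x * (g⁻¹ * z * g)) * g⁻¹ := by rw [h2]
    _ = g * x * g⁻¹ * z := by group

theorem sp_conj {G : Type} [Group G] {N : Subgroup G} [N.Normal] {y x : G} (hx : x ∈ NY y)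
    {u : G → F} (hu : SpF (N ⊓ CY y) u) : SpF (N ⊓ CY y) (fun g => u (x⁻¹ * g * x)) := by
  intro g hg
  apply hu
  intro h
  apply hg
  have e : x * (x⁻¹ * g * x) * x⁻¹ = g := by group
  constructor
  · rw [← e]
    exact Subgroup.Normal.conj_mem inferInstance _ h.1 x
  · rw [← e]
    exact key_conj hx h.2

/-- composition with an automorphism -/
theorem evV_comp {N : Type} [Group N] [Finite N] {n : ℕ} (σ : N →* Matrix (Fin n) (Fin n) F)
    (e : N ≃* N) (a : N → F) :
    evV (mrep (σ.comp e.toMonoidHom)) a = evV (mrep σ) (fun l => a (e.symm l)) := by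
  have := Fintype.ofFinite N
  apply LinearMap.ext
  intro v
  rw [D66.evV_apply, D66.evV_apply]
  refine Fintype.sum_equiv e.toEquiv _ _ fun g => ?_
  change a g • mrep σ (e g) v = a (e.symm (e g)) • mrep σ (e g) v
  rw [e.symm_apply_apply]

end gen

/-- C3D -/
theorem c3d : C3dStmt := by
  intro ℓ _ F _ hF G _ _ n N P _ y₁ b w hD φ θ hc x
  obtain ⟨k, σ, m, κ, π, h1, h2, h3, h4, h5⟩ := hc
  obtain ⟨e, he⟩ : ∃ e : N ≃* N, e = (MulAut.conjNormal (x : G) : N ≃* N) := ⟨_, rfl⟩
  have hesymm : ∀ l : N, ((e.symm l : N) : G) = (x : G)⁻¹ * (l : G) * (x : G) := by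
    intro l
    rw [he]
    exact MulAut.conjNormal_symm_apply (x : G) l
  obtain ⟨u, hu1, hu2, hu3⟩ := hD.eqv (x : G) x.2
  obtain ⟨u', hu1', hu2', hu3'⟩ := hD.eqv (x : G)⁻¹ (inv_mem x.2)
  have hsw : SpF (N ⊓ CY y₁) w := H66.ums_sw hD.ums
  have hcw : CmF (N ⊓ CY y₁) w := H66.ums_cw hD.ums
  obtain ⟨u2, hu2d⟩ : ∃ u2 : G → F, u2 = fun g => u' ((x : G)⁻¹ * g * (x : G)) := ⟨_, rfl⟩
  have hu2s : SpF (N ⊓ CY y₁) u2 := by
    rw [hu2d]
    exact sp_conj x.2 hu1'
  have hww : w = mulF (mulF w u) u2 := by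
    have h6 := H66.conj_mulF (x : G) w u'
    rw [← hu3', hu3, ← hu2d] at h6
    rw [← h6]
    funext g
    congr 1
    group
  have hmono : N ⊓ CY y₁ ≤ N := inf_le_left
  obtain ⟨W, hW⟩ : ∃ W, W = evV (mrep σ) (fun t : N => w t) := ⟨_, rfl⟩
  obtain ⟨U, hU⟩ : ∃ U, U = evV (mrep σ) (fun t : N => u t) := ⟨_, rfl⟩
  obtain ⟨U2, hU2⟩ : ∃ U2, U2 = evV (mrep σ) (fun t : N => u2 t) := ⟨_, rfl⟩
  have hr : ∀ a c : G → F, SpF (N ⊓ CY y₁) a → SpF (N ⊓ CY y₁) c →
      evV (mrep σ) (fun t : N => mulF a c t) =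
        evV (mrep σ) (fun t : N => a t) * evV (mrep σ) (fun t : N => c t) := by
    intro a c ha hc
    rw [← D1H94.mulF_restr (ha.mono hmono) (hc.mono hmono), H66.evV_mulF]
  have hWU : evV (mrep σ) (fun t : N => mulF w u t) = W * U := by
    rw [hr w u hsw hu1, hW, hU]
  have hW1 : W = (W * U) * U2 := by
    conv_lhs => rw [hW, hww]
    rw [hr _ _ (hsw.mul hu1) hu2s, hWU, hU2]
  have hcomm1 : Commute W U := by
    change W * U = U * W
    rw [← hWU, H66.cm_comm hcw hu1, hr u w hu1 hsw, hW, hU]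
  have hcomm2 : Commute (W * U) U2 := by
    change (W * U) * U2 = U2 * (W * U)
    have h7 := H66.cm_comm (hcw.mul hu2) hu2s
    have h8 := hr _ _ (hsw.mul hu1) hu2s
    rw [h7, hr _ _ hu2s (hsw.mul hu1), hWU, ← hU2] at h8
    exact h8.symm
  have hW' : evV (mrep (σ.comp e.toMonoidHom)) (fun t : N => w t) = W * U := by
    rw [evV_comp, ← hWU, ← hu3]
    congr 1
    funext l
    change w ((e.symm l : N) : G) = _
    rw [hesymm]
  have hb' : evV (mrep (σ.comp e.toMonoidHom)) (fun t : N => bY y₁ b t) =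
      evV (mrep σ) (fun t : N => bY y₁ b t) := by
    rw [evV_comp]
    congr 1
    funext l
    change bY y₁ b ((e.symm l : N) : G) = _
    rw [hesymm]
    have hcl : CmF (⊤ : Subgroup G) b := H66.cmF_of_cl hD.idem.1 _
    have h6 := H66.bY_cm hcl (x : G)⁻¹ (⟨Subgroup.mem_top _, (NY y₁).inv_mem x.2⟩ : (x : G)⁻¹ ∈ (⊤ : Subgroup G) ⊓ NY y₁) (l : G)
    rw [inv_inv] at h6
    exact h6
  have hfix : ∀ v : Fin k → F,
      v ∈ fixW (mrep (σ.comp e.toMonoidHom)) (fun t : N => bY y₁ b t) (fun t : N => w t) ↔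
        v ∈ fixW (mrep σ) (fun t : N => bY y₁ b t) (fun t : N => w t) := by
    intro v
    change (_ ∧ _) ↔ (_ ∧ _)
    rw [hb', hW', ← hW]
    refine and_congr_right fun _ => ⟨fun h => ?_, fun h => ?_⟩
    · rw [hW1, hcomm2.eq, Module.End.mul_apply, h, map_zero]
    · rw [hcomm1.eq, Module.End.mul_apply, h, map_zero]
  have hrng : rngW (mrep (σ.comp e.toMonoidHom)) (fun t : N => w t) (ℓ ^ (n + 1) - 1) =
      rngW (mrep σ) (fun t : N => w t) (ℓ ^ (n + 1) - 1) := by
    unfold rngW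
    rw [hW', ← hW]
    apply le_antisymm
    · rw [hcomm1.mul_pow]
      exact LinearMap.range_comp_le_range _ _
    · conv_lhs => rw [hW1, hcomm2.mul_pow]
      exact LinearMap.range_comp_le_range _ _
  refine ⟨k, σ.comp e.toMonoidHom, m,
    κ.comp (MulAut.conjNormal x : N.subgroupOf (NY y₁) ≃* N.subgroupOf (NY y₁)).toMonoidHom, π,
      D1.H13.irr_comp σ _ h1, ?_, D1.H13.irr_comp κ _ h3, ?_,
      ⟨fun a v hv => ?_, fun v hv => ?_, fun w' => ?_⟩⟩
  · funext l
    rw [← h2, he]
    rfl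
  · funext l
    rw [← h4]
    rfl
  · have h6 := h5.int (MulAut.conjNormal x a) v ((hfix v).1 hv)
    have h8 : (e (jN N (NY y₁) a) : N) = jN N (NY y₁) (MulAut.conjNormal x a) := by
      rw [he]
      apply Subtype.ext
      simp only [MulAut.conjNormal_apply, jN, MonoidHom.coe_mk, OneHom.coe_mk, Subgroup.coe_mul,
        InvMemClass.coe_inv]
    show π (mrep σ (e (jN N (NY y₁) a)) v) = _
    rw [h8]
    exact h6
  · rw [hrng]
    exact h5.ker v ((hfix v).1 hv)
  · obtain ⟨v, hv, h⟩ := h5.sur w'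
    exact ⟨v, (hfix v).2 hv, h⟩

end Pool.Agent.PP.CD2.H65
end
end -- Pool.Agent.Helper65_D2.C3d

section -- Pool.Agent.Helper94_D1.D1a

/-! # Squad PP, part D1, module D1A: the absolute theorem -/

set_option autoImplicit false

open scoped BigOperators

noncomputable section

namespace Pool.Agent.PP.D1H94

open Pool.Agent.Helper51_AWC Pool.Agent.Helper79_WRA Pool.Agent.Helper79_WRA.H91 Pool.Agent.PP
  Pool.Agent.PP.H66

/-- D1A -/
theorem d1a (hd1r : D1rStmt) : D1aStmt := by
  intro ℓ _ F _ hF G _ _ N hN e he hp hd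
  rw [H96.rel_eq_top hF N hN e he, hd1r ℓ F hF G N hN e he hp hd]
  intro c hc1 hc2 hc3 _
  obtain ⟨a, ha, haN, hea, haQ⟩ := hd
  have hcm := mem_chainsOn.1 hc1
  obtain ⟨t1, t2⟩ := Pool.Agent.PP.H94.top_mem hcm.2.2 ⟨_, hcm.2.1⟩
  have htp : IsPGroup ℓ (top c) := (mem_psubIn.1 (hcm.1 t1)).2
  have hX1 := H96.centralizer_top_le t2
  have hX2 : stab c ≤ Subgroup.normalizer ((top c : Subgroup G) : Set G) := by
    intro x hx
    exact (Pool.Agent.PP.H94.mem_stab'.1 hx) _ t1
  have hbrm := H20.brm ℓ F hF G (top c) (stab c) htp hX1 hX2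
  have hidem : IsIdem (fun t : stab c => br (top c) e t) := hbrm.2.2 e he
  have hcent : cent N c = Subgroup.centralizer ((top c : Subgroup G) : Set G) ⊓ N :=
    H46.cent_eq hc1 N
  have hposc : Pos ℓ (fun t : stab c => br (top c) e t) ((cent N c).subgroupOf (stab c)) := by
    rw [hcent]
    exact H66.ps1 ℓ F hF G (top c) N htp hN hc3 e he hp (stab c) hX1 hX2
  have hnorm : ((cent N c).subgroupOf (stab c)).Normal := by
    constructor
    intro x hx g
    rw [Subgroup.mem_subgroupOf] at hx ⊢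
    exact Pool.Agent.Helper79_WRA.H46.conj_mem_cent hN g.2 hx
  refine hd1r ℓ F hF _ _ hnorm _ hidem hposc ⟨fun t : stab c => br (top c) a t, hbrm.2.2 a ha,
    ?_, ?_, ?_⟩
  · intro x hx
    change br (top c) a (x : G) = 0
    by_cases h1 : (x : G) ∈ Subgroup.centralizer ((top c : Subgroup G) : Set G)
    · rw [br_of_mem h1]
      apply haN
      intro h2
      apply hx
      rw [Subgroup.mem_subgroupOf, hcent]
      exact ⟨h1, h2⟩
    · exact br_of_not_mem h1
  · rw [← hbrm.2.1, ← hbrm.1 e a he.1 ha.1, hea]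
  · intro Q hQN hQp hQb
    obtain ⟨t, h1, h2⟩ := br_ne hQb
    have h3 : (t : G) ∈ Subgroup.centralizer ((top c : Subgroup G) : Set G) := by
      by_contra h
      exact h2 (br_of_not_mem h)
    rw [br_of_mem h3] at h2
    rw [← card_sub Q]
    apply haQ _ _ (p_sub hQp)
    · apply br_ne' (t := (t : G)) _ h2
      rw [Subgroup.mem_centralizer_iff] at h1 ⊢
      rintro _ ⟨q, hq, rfl⟩
      exact congrArg Subtype.val (h1 q hq)
    · rintro _ ⟨q, hq, rfl⟩
      have h4 := hQN hq
      rw [Subgroup.mem_subgroupOf, hcent] at h4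
      exact h4.2

end Pool.Agent.PP.D1H94
end
end -- Pool.Agent.Helper94_D1.D1a

section -- Pool.Agent.Helper94_D2.D2r

/-! # Squad PP, part D2, module D2R: the relative theorem from CCD and CLD -/

set_option autoImplicit false

open scoped BigOperators

noncomputable section

namespace Pool.Agent.PP.CD2.H94

open Pool.Agent.Helper51_AWC Pool.Agent.Helper79_WRA Pool.Agent.PP Pool.Agent.PP.H46
  Pool.Agent.PP.H66 Pool.Agent.PP.D1H94

theorem cyc_sub {G : Type} [Group G] {T : Subgroup G} (Q : Subgroup T)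
    (h : IsCyclic (Q.map T.subtype)) : IsCyclic Q :=
  (Q.equivMapOfInjective T.subtype T.subtype_injective).isCyclic.2 h

/-- the stable case -/
theorem stable_case (hccd : CcdStmt) (hcld : CldStmt) (ℓ : ℕ) [Fact ℓ.Prime] (F : Type) [Field F]
    (hF : GoodF ℓ F) (G : Type) [Group G] [Finite G] (N : Subgroup G) (hN : N.Normal) (b e : G → F)
    (hbc : IsCl b) (hb0 : ∀ x, x ∉ N → b x = 0) (hb : IsBlk (fun t : N => b t)) (he : IsIdem e)
    (hp : Pos ℓ e N) (heb : mulF e b = e)
    (hQ : ∀ Q : Subgroup G, Q ≤ N → IsPGroup ℓ Q → br Q b ≠ 0 → IsCyclic Q) :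
    YY ℓ N e = 0 := by
  by_cases hd : DZ ℓ (fun t : N => b t)
  · have h1 : stabF (ext0 N (fun t : N => b t)) = ⊤ := by
      rw [ext0_restr hb0, eq_top_iff]
      intro g _ x
      exact hbc x g
    have h2 := (Pool.Agent.AWR.H39.ps3 ℓ F hF G N hN (fun t : N => b t) hb h1 e he (by
      rw [ext0_restr hb0]
      exact heb)).2 hd hp
    rw [h2]
    exact YY_zero hF N hN
  · obtain ⟨n, P, y₁, w, hD, hB⟩ := hcld ℓ F hF G N hN b hbc hb0 hb hd hQ
    exact hccd ℓ F hF G n N P y₁ b w hD hB e he heb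

/-- D2R -/
theorem d2r (hccd : CcdStmt) (hcld : CldStmt) : D2rStmt := by
  intro ℓ _ F _ hF G _ _ N hN e0 he0 hp0 hd0
  obtain ⟨a, ha, haN, hea, haQ⟩ := hd0
  apply H9.addStmt ℓ F hF G N hN e0 he0
  intro e he hee
  have hp : Pos ℓ e N := pos_mono he.1 (by rw [mulF_comm he.1.1, hee]) hp0
  have hea' : mulF e a = e := by
    have h1 : mulF e e0 = e := by rw [mulF_comm he.1.1, hee]
    rw [← h1, mulF_assoc, hea]
  obtain ⟨b, hb0, hb, hbe⟩ := exists_blk he.2.1 N
  have hNT : N ≤ stabF b := by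
    intro g hg x
    by_cases hx : x ∈ N
    · exact hb.1.1 ⟨x, hx⟩ ⟨g, hg⟩
    · rw [hb0 x hx, hb0]
      intro h
      apply hx
      have h2 := hN.conj_mem _ h g⁻¹
      have h3 : g⁻¹ * (g * x * g⁻¹) * g⁻¹⁻¹ = x := by group
      rwa [h3] at h2
  have hbb : mulF b b = b := by
    have h1 := ext0_mul (fun t : N => b t) (fun t : N => b t)
    rw [hb.1.2, ext0_restr hb0] at h1
    exact h1.symm
  -- `a b = b`
  have hab : mulF a b = b := by
    have ha' : IsIdem (fun t : N => a t) := by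
      refine ⟨fun x y => ha.1 x y, ?_⟩
      rw [mulF_restr haN haN, ha.2]
    have h1 : mulF (fun t : N => b t) (fun t : N => a t) = fun t : N => mulF a b t := by
      rw [mulF_comm hb.1.1, mulF_restr haN hb0]
    have h2 : ∀ x, x ∉ N → mulF a b x = 0 := by
      intro x hx
      have h3 := ext0_mul (fun t : N => a t) (fun t : N => b t)
      rw [ext0_restr haN, ext0_restr hb0] at h3
      rw [← h3, ext0_of_not_mem _ hx]
    rcases hb.2.2 _ ha' with h3 | h3
    · rw [h1] at h3
      rw [← ext0_restr h2, h3, ext0_restr hb0]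
    · exfalso
      rw [h1] at h3
      have h4 : mulF a b = 0 := by
        rw [← ext0_restr h2, h3]
        funext x
        by_cases hx : x ∈ N
        · rw [ext0_of_mem _ hx]
          rfl
        · rw [ext0_of_not_mem _ hx]
          rfl
      apply hbe
      rw [← hea', mulF_assoc, h4, mulF_zero]
  have hfr : FrStmt := H75.fr H94.nch H74.orb H20.nls H20.ibf H20.ibj H20.ibn H20.eig
  obtain ⟨h1, h2, h3, h4⟩ := hfr ℓ F hF G N N hN hN le_rfl e he hp b hb0 hb hbe (stabF b)
    (fun g => Iff.rfl)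
  rw [h4]
  have hNn : (N.subgroupOf (stabF b)).Normal := hN.subgroupOf _
  have hbT : ∀ x, x ∉ stabF b → b x = 0 := fun x hx => hb0 x fun h => hx (hNT h)
  have h5 : YY ℓ (N.subgroupOf (stabF b)) (fun t : stabF b => mulF e b t) = 0 := by
    apply stable_case hccd hcld ℓ F hF (stabF b) (N.subgroupOf (stabF b)) hNn
      (fun t : stabF b => b t) _ _ _ _ h2 h3 _ _
    · intro x y
      exact y.2 x
    · intro x hx
      exact hb0 x hx
    · exact H9.blk_tr (Subgroup.subgroupOfEquivOfLe hNT) hb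
    · rw [mulF_restr h1 hbT]
      funext t
      rw [mulF_assoc, hbb]
    · intro Q hQN hQp hQb
      have h6 := br_sub hQb
      have h7 : Q.map (stabF b).subtype ≤ N := by
        rintro _ ⟨q, hq, rfl⟩
        exact hQN hq
      apply cyc_sub
      apply haQ _ h7 (p_sub hQp)
      intro h8
      apply h6
      have h9 : br (Q.map (stabF b).subtype) (mulF a b) = 0 := by
        rw [br_mulF hF (p_sub hQp) (IsCl.inv ha.1 _) (fun p hp t => hNT (h7 hp) t), h8,
          zero_mulF]
      rwa [hab] at h9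
  rw [h5, mul_zero]

end Pool.Agent.PP.CD2.H94
end
end -- Pool.Agent.Helper94_D2.D2r

section -- Pool.Agent.Helper94_D2.D2a

/-! # Squad PP, part D2, module D2A: the absolute theorem -/

set_option autoImplicit false

open scoped BigOperators

noncomputable section

namespace Pool.Agent.PP.CD2.H94

open Pool.Agent.Helper51_AWC Pool.Agent.Helper79_WRA Pool.Agent.Helper79_WRA.H91 Pool.Agent.PP
  Pool.Agent.PP.H66 Pool.Agent.PP.D1H94

/-- D2A -/
theorem d2a (hd1r : D2rStmt) : D2aStmt := by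
  intro ℓ _ F _ hF G _ _ N hN e he hp hd
  rw [H96.rel_eq_top hF N hN e he, hd1r ℓ F hF G N hN e he hp hd]
  intro c hc1 hc2 hc3 _
  obtain ⟨a, ha, haN, hea, haQ⟩ := hd
  have hcm := mem_chainsOn.1 hc1
  obtain ⟨t1, t2⟩ := Pool.Agent.PP.H94.top_mem hcm.2.2 ⟨_, hcm.2.1⟩
  have htp : IsPGroup ℓ (top c) := (mem_psubIn.1 (hcm.1 t1)).2
  have hX1 := H96.centralizer_top_le t2
  have hX2 : stab c ≤ Subgroup.normalizer ((top c : Subgroup G) : Set G) := by
    intro x hx
    exact (Pool.Agent.PP.H94.mem_stab'.1 hx) _ t1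
  have hbrm := H20.brm ℓ F hF G (top c) (stab c) htp hX1 hX2
  have hidem : IsIdem (fun t : stab c => br (top c) e t) := hbrm.2.2 e he
  have hcent : cent N c = Subgroup.centralizer ((top c : Subgroup G) : Set G) ⊓ N :=
    H46.cent_eq hc1 N
  have hposc : Pos ℓ (fun t : stab c => br (top c) e t) ((cent N c).subgroupOf (stab c)) := by
    rw [hcent]
    exact H66.ps1 ℓ F hF G (top c) N htp hN hc3 e he hp (stab c) hX1 hX2
  have hnorm : ((cent N c).subgroupOf (stab c)).Normal := by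
    constructor
    intro x hx g
    rw [Subgroup.mem_subgroupOf] at hx ⊢
    exact Pool.Agent.Helper79_WRA.H46.conj_mem_cent hN g.2 hx
  refine hd1r ℓ F hF _ _ hnorm _ hidem hposc ⟨fun t : stab c => br (top c) a t, hbrm.2.2 a ha,
    ?_, ?_, ?_⟩
  · intro x hx
    change br (top c) a (x : G) = 0
    by_cases h1 : (x : G) ∈ Subgroup.centralizer ((top c : Subgroup G) : Set G)
    · rw [br_of_mem h1]
      apply haN
      intro h2
      apply hx
      rw [Subgroup.mem_subgroupOf, hcent]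
      exact ⟨h1, h2⟩
    · exact br_of_not_mem h1
  · rw [← hbrm.2.1, ← hbrm.1 e a he.1 ha.1, hea]
  · intro Q hQN hQp hQb
    obtain ⟨t, h1, h2⟩ := br_ne hQb
    have h3 : (t : G) ∈ Subgroup.centralizer ((top c : Subgroup G) : Set G) := by
      by_contra h
      exact h2 (br_of_not_mem h)
    rw [br_of_mem h3] at h2
    apply cyc_sub
    apply haQ _ _ (p_sub hQp)
    · apply br_ne' (t := (t : G)) _ h2
      rw [Subgroup.mem_centralizer_iff] at h1 ⊢
      rintro _ ⟨q, hq, rfl⟩
      exact congrArg Subtype.val (h1 q hq)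
    · rintro _ ⟨q, hq, rfl⟩
      have h4 := hQN hq
      rw [Subgroup.mem_subgroupOf, hcent] at h4
      exact h4.2

end Pool.Agent.PP.CD2.H94
end
end -- Pool.Agent.Helper94_D2.D2a
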