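import Pool.Agent.Helper12_AWB.B112
import Pool.Agent.Helper12_AWB.B162
import Pool.Agent.Helper12_AWB.B164
import Pool.Agent.Helper12_AWB.B241
import Pool.Agent.Helper12_AWB.B243
import Pool.Agent.Helper12_AWB.B244
import Pool.Agent.Helper12_AWB.B245
import Pool.Agent.Helper12_AWB.B247
import Pool.Agent.Helper12_AWB.B250

/-!
# Merged copies (generated) of the modules

* `Pool.Agent.Helper39_D1.Fex`
* `Pool.Agent.Helper66_D1.Spd`
* `Pool.Agent.Helper66_D1.AsmD1`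
-/

set_option autoImplicit false

section -- Pool.Agent.Helper39_D1.Fex

/-!
# Part D1, module FEX: an endomorphism of the `N`-module `V`
-/

open scoped BigOperators

noncomputable section

namespace Pool.Agent.PP.D1.H39

open Pool.Agent.PP Pool.Agent.PP.D66 Pool.Agent.Helper51_AWC Pool.Agent.Helper79_WRA

theorem fex (hlft : LftdStmt) (hspd : SpdStmt) (hmcd : McdStmt) (hwgt : WgtStmt) : FexStmt := by
  intro ℓ _ F _ hF G _ _ N P b hD V _ _ _ ρ hb Y hY1 hY2 hY3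
  obtain ⟨T, hT0, hTY, hTn, hTs, hTm⟩ := hlft ℓ F hF G N P b hD V ρ hb Y hY1 hY2 hY3
  obtain ⟨g₀, c₁, hg, hc₁, hgT, hgt⟩ := hspd ℓ F hF G N P b hD V ρ hb T (hTY.trans hY2) hTn hTs hTm
  obtain ⟨⟨c, hc⟩, hw⟩ := hwgt F G N P hD.le
  obtain ⟨hw1, -⟩ := hw V V ρ ρ c hc
  obtain ⟨hf, -⟩ := hw1 g₀ hg
  obtain ⟨ψ, hψ⟩ := hmcd ℓ F G N P hD.le hD.card V V ρ ρ c c₁ hc hc₁ g₀ hg
  refine ⟨trW c ρ ρ g₀, hf, ?_, ?_⟩
  · intro h0
    obtain ⟨t, ht, ht0⟩ := Submodule.exists_mem_ne_zero_of_ne_bot hT0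
    have h1 : trW c ρ ρ g₀ t = 0 := by rw [h0]; rfl
    rw [hψ, LinearMap.add_apply, hgt t ht] at h1
    have h2 : trP ρ ρ P ψ t ∈ nrmV ρ P := CY66.trP_mem ρ ρ P ψ (hY2 (hTY ht))
    have h3 : t = - trP ρ ρ P ψ t := eq_neg_of_add_eq_zero_left h1
    have h4 : t ∈ T ⊓ nrmV ρ P := ⟨ht, by rw [h3]; exact neg_mem h2⟩
    rw [hTn, Submodule.mem_bot] at h4
    exact ht0 h4
  · intro v hv
    rw [hψ, LinearMap.add_apply]
    exact add_mem (hTY (hgT v hv)) (hY1.le (CY66.trP_mem ρ ρ P ψ hv))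

end Pool.Agent.PP.D1.H39
end
end -- Pool.Agent.Helper39_D1.Fex

section -- Pool.Agent.Helper66_D1.Spd

/-!
# Part D1, module SPD: the endomorphism for `N ∩ N_G(P)`
-/

open scoped BigOperators

noncomputable section

namespace Pool.Agent.PP.D66

open Pool.Agent.PP Pool.Agent.Helper51_AWC Pool.Agent.Helper79_WRA

section ring

variable {R : Type} [Ring R]

/-- `∑_(i < n) X^i A X^(n-1-i)` -/
def tsm (X A : R) : ℕ → R
  | 0 => 0
  | n + 1 => tsm X A n * X + X ^ n * A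

theorem tsm_comm (X A : R) (n : ℕ) : X * tsm X A n + A * X ^ n = tsm X A n * X + X ^ n * A := by
  induction n with
  | zero => simp [tsm]
  | succ n ih =>
    have h1 : A * X ^ (n + 1) = A * X ^ n * X := by rw [pow_succ, mul_assoc]
    have h2 : X ^ (n + 1) * A = X * (X ^ n * A) := by rw [pow_succ', mul_assoc]
    have h3 : tsm X A (n + 1) = tsm X A n * X + X ^ n * A := rfl
    calc X * tsm X A (n + 1) + A * X ^ (n + 1)
        = (X * tsm X A n + A * X ^ n) * X + X * (X ^ n * A) := by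
          rw [h3, h1, mul_add, add_mul, ← mul_assoc X (tsm X A n) X]
          abel
      _ = tsm X A (n + 1) * X + X ^ (n + 1) * A := by rw [ih, h3, h2]

end ring

variable {F : Type} [Field F] {G : Type} [Group G] [Finite G]

theorem spd (hebv : EbvStmt) : SpdStmt := by
  intro ℓ _ F _ hF G _ _ N P b hD V _ _ _ ρ hb T hTfix hTn hTst hTmin
  classical
  have hch := hF.char
  have := Fintype.ofFinite G
  obtain ⟨y, hy⟩ := gen hD.card
  obtain ⟨c₁, z₁, hc₁, hz1, hz2, hz3⟩ := hD.prj1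
  by_cases hT0 : T = ⊥
  · refine ⟨0, c₁, fun n _ v => ?_, hc₁, fun v _ => ?_, fun t ht => ?_⟩
    · simp
    · rw [trW_apply]
      simp
    · rw [hT0, Submodule.mem_bot] at ht
      rw [ht, map_zero]
  -- the operator `X`
  set X : Module.End F V := ρ y - 1 with hX
  have hnrm : nrmV ρ P = LinearMap.range (X ^ (ℓ - 1)) := by
    unfold nrmV
    rw [H36.nrm_eq (isP hD.card) y hy ρ, hD.card]
  have hXst : ∀ (k : ℕ) (g : G), g ∈ Subgroup.normalizer (P : Set G) →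
      ∀ v ∈ LinearMap.range (X ^ k), ρ g v ∈ LinearMap.range (X ^ k) := by
    intro k g hg v hv
    have h1 : g * y * g⁻¹ ∈ P :=
      (Subgroup.mem_normalizer_iff.1 hg y).1 (hy ▸ Subgroup.mem_zpowers y)
    rw [← hy, ← mem_powers_iff_mem_zpowers] at h1
    obtain ⟨a, ha⟩ := h1
    exact H36.range_stable y g a ha.symm ρ k v hv
  -- the level of `T`
  have hex : ∃ k : ℕ, T ⊓ LinearMap.range (X ^ k) = ⊥ := ⟨ℓ - 1, by rw [← hnrm]; exact hTn⟩
  obtain ⟨s, hs⟩ : ∃ s, Nat.find hex = s + 1 := by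
    apply Nat.exists_eq_succ_of_ne_zero
    intro h0
    have h1 := Nat.find_spec hex
    rw [h0, pow_zero] at h1
    apply hT0
    rw [← h1]
    have h2 : LinearMap.range (1 : Module.End F V) = ⊤ := LinearMap.range_id
    rw [h2, inf_top_eq]
  have hdis : T ⊓ LinearMap.range (X ^ (s + 1)) = ⊥ := by
    have h1 := Nat.find_spec hex
    rwa [hs] at h1
  have hTs : T ≤ LinearMap.range (X ^ s) := by
    have h1 : T ⊓ LinearMap.range (X ^ s) ≠ ⊥ := Nat.find_min hex (by omega)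
    have h2 : Stb (N ⊓ Subgroup.normalizer (P : Set G)) ρ (T ⊓ LinearMap.range (X ^ s)) :=
      fun g hg v hv => ⟨hTst g hg v hv.1, hXst s g hg.2 v hv.2⟩
    rcases hTmin _ h2 inf_le_left with h3 | h3
    · exact absurd h3 h1
    · rw [← h3]
      exact inf_le_right
  -- the projection
  obtain ⟨φ', hφT, hφX, hφr⟩ : ∃ φ' : V →ₗ[F] V, (∀ t ∈ T, φ' t = t) ∧
      (∀ v, φ' ((X ^ (s + 1)) v) = 0) ∧ ∀ v, φ' v ∈ T := by
    set q := (LinearMap.range (X ^ (s + 1))).mkQ with hq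
    have hinj : LinearMap.ker (q ∘ₗ T.subtype) = ⊥ := by
      rw [LinearMap.ker_eq_bot']
      intro t ht
      rw [LinearMap.comp_apply, hq, Submodule.mkQ_apply, Submodule.Quotient.mk_eq_zero] at ht
      have h1 : (t : V) ∈ T ⊓ LinearMap.range (X ^ (s + 1)) := ⟨t.2, ht⟩
      rw [hdis, Submodule.mem_bot] at h1
      exact Subtype.ext h1
    obtain ⟨g, hg⟩ := LinearMap.exists_leftInverse_of_injective _ hinj
    refine ⟨T.subtype ∘ₗ g ∘ₗ q, fun t ht => ?_, fun v => ?_, fun v => (g (q v)).2⟩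
    · have h1 := LinearMap.congr_fun hg ⟨t, ht⟩
      exact congrArg Subtype.val h1
    · have h1 : q ((X ^ (s + 1)) v) = 0 := by
        rw [hq, Submodule.mkQ_apply, Submodule.Quotient.mk_eq_zero]
        exact ⟨v, rfl⟩
      rw [LinearMap.comp_apply, LinearMap.comp_apply, h1, map_zero, map_zero]
  -- the section
  obtain ⟨τ, hτ⟩ : ∃ τ : V →ₗ[F] V, ∀ t ∈ T, (X ^ s) (τ t) = t := by
    obtain ⟨u, hu⟩ := (X ^ s : V →ₗ[F] V).rangeRestrict.exists_rightInverse_of_surjective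
      (LinearMap.range_rangeRestrict _)
    obtain ⟨τ, hτ⟩ := u.exists_extend
    refine ⟨τ, fun t ht => ?_⟩
    have h1 : τ t = u ⟨t, hTs ht⟩ := by
      rw [← hτ]
      rfl
    have h2 := congrArg Subtype.val (LinearMap.congr_fun hu ⟨t, hTs ht⟩)
    rw [h1]
    exact h2
  set ζ : V →ₗ[F] V := evV ρ z₁ with hζ
  have hζT : ∀ t ∈ T, ζ t ∈ T := fun t ht => evV_mem hTst hz1 ht
  set A : Module.End F V := τ ∘ₗ ζ ∘ₗ φ' with hA
  have hA1 : A * X ^ (s + 1) = 0 := by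
    apply LinearMap.ext
    intro v
    rw [Module.End.mul_apply, hA, LinearMap.comp_apply, LinearMap.comp_apply, hφX, map_zero,
      map_zero]
    rfl
  have hXT : ∀ t ∈ T, X t = 0 := fun t ht => (mem_fix hy ρ).1 (hTfix ht)
  have hA2 : X ^ (s + 1) * A = 0 := by
    apply LinearMap.ext
    intro v
    rw [pow_succ', mul_assoc, Module.End.mul_apply, Module.End.mul_apply, hA, LinearMap.comp_apply,
      LinearMap.comp_apply, hτ _ (hζT _ (hφr v)), hXT _ (hζT _ (hφr v))]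
    rfl
  set g₀ : Module.End F V := tsm X A (s + 1) with hg₀
  have hcom : Commute g₀ X := by
    have h1 := tsm_comm X A (s + 1)
    rw [hA1, hA2, add_zero, add_zero] at h1
    exact h1.symm
  have hcomy : Commute g₀ (ρ y) := by
    have h1 : ρ y = X + 1 := by rw [hX, sub_add_cancel]
    rw [h1]
    exact hcom.add_right (Commute.one_right _)
  have hgP : HomOn P ρ ρ g₀ := by
    intro p hp v
    rw [← hy, ← mem_powers_iff_mem_zpowers] at hp
    obtain ⟨n, rfl⟩ := hp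
    change g₀ (ρ (y ^ n) v) = ρ (y ^ n) (g₀ v)
    rw [map_pow]
    exact LinearMap.congr_fun (hcomy.pow_right n).eq v
  have hgfix : ∀ v ∈ fixV ρ P, g₀ v = ζ (φ' v) := by
    intro v hv
    have h1 : X v = 0 := (mem_fix hy ρ).1 hv
    have h2 : tsm X A (s + 1) = tsm X A s * X + X ^ s * A := rfl
    rw [hg₀, h2, LinearMap.add_apply, Module.End.mul_apply, h1, map_zero, zero_add,
      Module.End.mul_apply, hA, LinearMap.comp_apply, LinearMap.comp_apply,
      hτ _ (hζT _ (hφr v))]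
  have hstep : ∀ v ∈ fixV ρ P, ∀ g : G, c₁ g • ρ g (g₀ (ρ g⁻¹ v)) =
      c₁ g • ρ g (ζ (φ' (ρ g⁻¹ v))) := by
    intro v hv g
    by_cases hg : g ∈ N ⊓ Subgroup.normalizer (P : Set G)
    · rw [hgfix _ (fix_stb ρ (inv_mem hg.2) hv)]
    · rw [hc₁.supp g hg, zero_smul, zero_smul]
  refine ⟨g₀, c₁, hgP, hc₁, fun v hv => ?_, fun t ht => ?_⟩
  · rw [trW_apply, Finset.sum_congr rfl fun g _ => hstep v hv g]
    refine Submodule.sum_mem _ fun g _ => ?_
    by_cases hg : g ∈ N ⊓ Subgroup.normalizer (P : Set G)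
    · exact T.smul_mem _ (hTst g hg _ (hζT _ (hφr _)))
    · rw [hc₁.supp g hg, zero_smul]
      exact zero_mem _
  · rw [trW_apply, Finset.sum_congr rfl fun g _ => hstep t (hTfix ht) g]
    have h1 := br_T hebv hD ρ hb hTfix hTn hTst ht
    rw [evV_tr ρ hz3, trW_apply] at h1
    refine Eq.trans (Finset.sum_congr rfl fun g _ => ?_) h1
    by_cases hg : g ∈ N ⊓ Subgroup.normalizer (P : Set G)
    · rw [hφT _ (hTst _ (inv_mem hg) _ ht)]
    · rw [hc₁.supp g hg, zero_smul, zero_smul]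

end Pool.Agent.PP.D66
end
end -- Pool.Agent.Helper66_D1.Spd

section -- Pool.Agent.Helper66_D1.AsmD1

/-!
# Part D1: the assembly
-/

noncomputable section

namespace Pool.Agent.PP.D66A

open Pool.Agent.PP

theorem mcd_ : McdStmt := D1.H26.mcd D1H21.frw

theorem wgt_ : WgtStmt := D1H21.wgt D1H21.frw

theorem lft_ : LftdStmt := D66.lft D1.H26.ebv

theorem spd_ : SpdStmt := D66.spd D1.H26.ebv

theorem fex_ : FexStmt := D1.H39.fex lft_ spd_ mcd_ wgt_

theorem key_ : KeyStmt := D1.H2.key fex_ D1.H71.soc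

theorem ind_ : IndStmt := H46.ind H20.ibc D1.H71.soc key_

theorem und_ : UndStmt := D1H11.und H20.ibc

theorem sud_ : SudStmt := D1.H67.sud D1.H26.ebv key_ H20.eig

theorem cld_ : CldStmt := D1H51.cld D1.H9.inv

theorem chd_ : ChdStmt := D1.H90.chd H94.nch H20.nls H20.brm

theorem cmq_ : CmqStmt := BN.H96.cmq Pool.Agent.PP.H96.cl_

theorem fr1_ : Fr1Stmt := D1.H91.fr1 wgt_ CY.H75.fre

theorem ird_ : IrdStmt := D1.H65.ird key_ fr1_ D1.H71.soc

theorem ebd_ : EbdStmt := D1H6.ebd D1.H26.ebv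

theorem cbd_ : CbdStmt :=
  D1H51.cbd cmq_ ird_ ind_ und_ ebd_ sud_ D1.H91.rsd D1.H13.c3d D1.H76.c4d H20.eig

theorem ced_ : CedStmt := D1H6.ced cbd_ ird_ ind_ ebd_

theorem ccd_ : CcdStmt := D1H11.ccd ced_ chd_

theorem d1r_ : D1rStmt := D1H94.d1r ccd_ cld_

theorem d1a_ : D1aStmt := D1H94.d1a d1r_

/-- the theorem on blocks of relative defect one -/
theorem fd1_ : Fd1Stmt := D1.H27.fd1 d1a_ D1.H9.inv

end Pool.Agent.PP.D66A
end
end -- Pool.Agent.Helper66_D1.AsmD1
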