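import Pool.Agent.Helper12_AWB.B132
import Pool.Agent.Helper12_AWB.B252

/-!
# Merged copies (generated) of the modules

* `Pool.Agent.Helper75_K9.LBR`
* `Pool.Agent.Helper56_K9.EXP`
* `Pool.Agent.Helper11_C2.EXB`
* `Pool.Agent.Helper39_C2.YQV`
* `Pool.Agent.Helper56_C2.REC`
-/

set_option autoImplicit false

section -- Pool.Agent.Helper75_K9.LBR

/-!
# Squad K9, row LBR: the `ℓ`-number depends only on the Brauer map
-/

open scoped BigOperators

noncomputable section

namespace Pool.Agent.PP.K9.H75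

open Pool.Agent.Helper51_AWC Pool.Agent.Helper79_WRA Pool.Agent.PP Pool.Agent.PP.KF

theorem lbr : LbrStmt := by
  intro ℓ F _ hF G _ _ e he Q X hQ hQX hXQ
  have : Fact ℓ.Prime := ⟨hF.prime⟩
  have h1 : lnum X e = lnum X (br Q e) := H96.lnum_br hF H20.nls hQ hQX hXQ he.1
  refine ⟨h1, fun hg => ?_⟩
  have h2 : br Q e = (0 : G → F) := by
    funext x
    unfold br
    split_ifs with hx
    · by_contra hne
      exact hg ⟨x, hx, hne⟩
    · rfl
  rw [h1, h2]
  exact H67.lnum_zero hF X

end Pool.Agent.PP.K9.H75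
end
end -- Pool.Agent.Helper75_K9.LBR

section -- Pool.Agent.Helper56_K9.EXP

/-!
# Squad K9, module EXP: the chains if the good subgroups have order at most `ℓ ^ 2`
-/

open scoped BigOperators

set_option linter.unusedSectionVars false

noncomputable section

namespace Pool.Agent.PP.K9.H56

open Pool.Agent.Helper51_AWC Pool.Agent.Helper79_WRA Pool.Agent.PP Pool.Agent.PP.K9

section chains

variable {G : Type} [Group G] [Finite G] {ℓ : ℕ}

/-- the properties of a normal chain of `ℓ`-subgroups -/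
structure CH (ℓ : ℕ) (d : Finset (Subgroup G)) : Prop where
  pg : ∀ D ∈ d, IsPGroup ℓ D
  bot : ⊥ ∈ d
  ch : IsChain (· ≤ ·) (d : Set (Subgroup G))
  nc : NormalChain d

open Classical in
theorem mem_iff {d : Finset (Subgroup G)} :
    d ∈ (chainsOn (psubIn ℓ (⊤ : Subgroup G)) ⊥).filter NormalChain ↔ CH ℓ d := by
  rw [Finset.mem_filter, mem_chainsOn]
  constructor
  · rintro ⟨⟨h1, h2, h3⟩, h4⟩
    exact ⟨fun D hD => (mem_psubIn.1 (h1 hD)).2, h2, h3, h4⟩
  · rintro ⟨h1, h2, h3, h4⟩
    exact ⟨⟨fun D hD => mem_psubIn.2 ⟨le_top, h1 D hD⟩, h2, h3⟩, h4⟩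

theorem CH.top {d : Finset (Subgroup G)} (h : CH ℓ d) : top d ∈ d ∧ ∀ D ∈ d, D ≤ top d :=
  H94.top_mem h.ch ⟨⊥, h.bot⟩

theorem CH.norm {d : Finset (Subgroup G)} (h : CH ℓ d) :
    stab d ≤ Subgroup.normalizer (PP.top d : Set G) := by
  intro x hx
  exact H94.mem_stab'.1 hx _ h.top.1

theorem CH.le {d : Finset (Subgroup G)} (h : CH ℓ d) : PP.top d ≤ stab d := by
  intro x hx
  rw [H94.mem_stab']
  intro D hD
  exact h.nc D hD hx

theorem norm_bot : Subgroup.normalizer ((⊥ : Subgroup G) : Set G) = ⊤ := by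
  rw [eq_top_iff]
  intro x _
  rw [Subgroup.mem_normalizer_iff]
  intro y
  rw [Subgroup.mem_bot, Subgroup.mem_bot]
  constructor
  · rintro rfl
    simp
  · intro h4
    simpa using h4

open Classical in
theorem stab_ins {d : Finset (Subgroup G)} {V : Subgroup G} :
    stab (insert V d) = Subgroup.normalizer (V : Set G) ⊓ stab d := by
  ext x
  rw [Subgroup.mem_inf, H94.mem_stab', H94.mem_stab']
  constructor
  · intro h3
    exact ⟨h3 V (Finset.mem_insert_self _ _), fun D hD => h3 D (Finset.mem_insert_of_mem hD)⟩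
  · rintro ⟨h4, h3⟩ D hD
    rcases Finset.mem_insert.1 hD with rfl | hD
    · exact h4
    · exact h3 D hD

theorem stab_bot : stab ({⊥} : Finset (Subgroup G)) = ⊤ := by
  rw [eq_top_iff]
  intro x _
  rw [H94.mem_stab']
  intro D hD
  rw [Finset.mem_singleton.1 hD, norm_bot]
  exact Subgroup.mem_top x

open Classical in
theorem stab_one (Q : Subgroup G) : stab ({⊥, Q} : Finset (Subgroup G)) =
    Subgroup.normalizer (Q : Set G) := by
  ext x
  rw [H94.mem_stab']
  constructor
  · intro h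
    exact h Q (by simp)
  · intro h D hD
    rcases Finset.mem_insert.1 hD with rfl | hD
    · rw [norm_bot]
      exact Subgroup.mem_top x
    · rw [Finset.mem_singleton.1 hD]
      exact h

open Classical in
theorem stab_two (Q V : Subgroup G) : stab ({⊥, Q, V} : Finset (Subgroup G)) =
    Subgroup.normalizer (Q : Set G) ⊓ Subgroup.normalizer (V : Set G) := by
  ext x
  rw [H94.mem_stab', Subgroup.mem_inf]
  constructor
  · intro h
    exact ⟨h Q (by simp), h V (by simp)⟩
  · rintro ⟨h1, h2⟩ D hD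
    rcases Finset.mem_insert.1 hD with rfl | hD
    · rw [norm_bot]
      exact Subgroup.mem_top x
    · rcases Finset.mem_insert.1 hD with rfl | hD
      · exact h1
      · rw [Finset.mem_singleton.1 hD]
        exact h2

theorem top_of {d : Finset (Subgroup G)} {V : Subgroup G} (hV : V ∈ d) (h : ∀ D ∈ d, D ≤ V) :
    top d = V :=
  le_antisymm (sSup_le fun D hD => h D (Finset.mem_coe.1 hD)) (le_sSup (Finset.mem_coe.2 hV))

theorem top_bot : top ({⊥} : Finset (Subgroup G)) = ⊥ := by
  refine top_of (Finset.mem_singleton_self _) ?_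
  intro D hD
  exact (Finset.mem_singleton.1 hD).le

open Classical in
theorem top_one (Q : Subgroup G) : top ({⊥, Q} : Finset (Subgroup G)) = Q := by
  refine top_of (by simp) ?_
  intro D hD
  rcases Finset.mem_insert.1 hD with rfl | hD
  · exact bot_le
  · exact (Finset.mem_singleton.1 hD).le

open Classical in
theorem top_two {Q V : Subgroup G} (h : Q ≤ V) : top ({⊥, Q, V} : Finset (Subgroup G)) = V := by
  refine top_of (by simp) ?_
  intro D hD
  rcases Finset.mem_insert.1 hD with rfl | hD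
  · exact bot_le
  · rcases Finset.mem_insert.1 hD with rfl | hD
    · exact h
    · exact (Finset.mem_singleton.1 hD).le

theorem ch_bot : CH ℓ ({⊥} : Finset (Subgroup G)) := by
  refine ⟨?_, Finset.mem_singleton_self _, ?_, ?_⟩
  · intro D hD
    rw [Finset.mem_singleton.1 hD]
    exact IsPGroup.of_bot
  · rw [Finset.coe_singleton]
    exact IsChain.singleton
  · intro D hD
    rw [Finset.mem_singleton.1 hD, norm_bot]
    exact le_top

open Classical in
theorem ch_one {Q : Subgroup G} (hQ : IsPGroup ℓ Q) : CH ℓ ({⊥, Q} : Finset (Subgroup G)) := by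
  refine ⟨?_, by simp, ?_, ?_⟩
  · intro D hD
    rcases Finset.mem_insert.1 hD with rfl | hD
    · exact IsPGroup.of_bot
    · rw [Finset.mem_singleton.1 hD]
      exact hQ
  · rw [Finset.coe_insert, Finset.coe_singleton]
    refine IsChain.singleton.insert ?_
    intro D _ _
    exact Or.inl bot_le
  · intro D hD
    rw [top_one]
    rcases Finset.mem_insert.1 hD with rfl | hD
    · rw [norm_bot]
      exact le_top
    · rw [Finset.mem_singleton.1 hD]
      exact Subgroup.le_normalizer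

open Classical in
theorem ch_two {Q V : Subgroup G} (hV : IsPGroup ℓ V) (h : Q ≤ V)
    (hn : V ≤ Subgroup.normalizer (Q : Set G)) : CH ℓ ({⊥, Q, V} : Finset (Subgroup G)) := by
  refine ⟨?_, by simp, ?_, ?_⟩
  · intro D hD
    rcases Finset.mem_insert.1 hD with rfl | hD
    · exact IsPGroup.of_bot
    · rcases Finset.mem_insert.1 hD with rfl | hD
      · exact hV.to_le h
      · rw [Finset.mem_singleton.1 hD]
        exact hV
  · rw [Finset.coe_insert, Finset.coe_insert, Finset.coe_singleton]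
    refine (IsChain.singleton.insert ?_).insert ?_
    · intro D hD _
      rw [Set.mem_singleton_iff.1 hD]
      exact Or.inl h
    · intro D _ _
      exact Or.inl bot_le
  · intro D hD
    rw [top_two h]
    rcases Finset.mem_insert.1 hD with rfl | hD
    · rw [norm_bot]
      exact le_top
    · rcases Finset.mem_insert.1 hD with rfl | hD
      · exact hn
      · rw [Finset.mem_singleton.1 hD]
        exact Subgroup.le_normalizer

/-- a group of order `ℓ ^ 2` normalises its subgroups -/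
theorem sq_norm [Fact ℓ.Prime] {Q V : Subgroup G} (hV : Nat.card V = ℓ ^ 2) (h : Q ≤ V) :
    V ≤ Subgroup.normalizer (Q : Set G) := by
  have hc : ∀ a b : V, a * b = b * a := fun a b => (IsPGroup.isMulCommutative_of_card_eq_prime_sq hV).is_comm.comm a b
  intro x hx
  rw [Subgroup.mem_normalizer_iff]
  intro y
  constructor
  · intro hy
    have h1 := congrArg Subtype.val (hc ⟨x, hx⟩ ⟨y, h hy⟩)
    change x * y = y * x at h1
    rw [h1, mul_inv_cancel_right]
    exact hy
  · intro hy
    have h0 : y ∈ V := by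
      have h2 := mul_mem (mul_mem (inv_mem hx) (h hy)) hx
      have h3 : x⁻¹ * (x * y * x⁻¹) * x = y := by group
      rwa [h3] at h2
    have h1 := congrArg Subtype.val (hc ⟨x, hx⟩ ⟨y, h0⟩)
    change x * y = y * x at h1
    rw [h1, mul_inv_cancel_right] at hy
    exact hy

open Classical in
/-- the chains with a top of order at most `ℓ` -/
theorem CH.small {d : Finset (Subgroup G)} (h : CH ℓ d) (hl : ℓ.Prime)
    (hc : Nat.card (PP.top d) = ℓ) : d = {⊥, PP.top d} := by
  ext D
  rw [Finset.mem_insert, Finset.mem_singleton]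
  constructor
  · intro hD
    have h1 := h.top.2 D hD
    have h2 : Nat.card D ∣ ℓ := hc ▸ Subgroup.card_dvd_of_le h1
    rcases (Nat.dvd_prime hl).1 h2 with h3 | h3
    · exact Or.inl (Subgroup.card_eq_one.1 h3)
    · exact Or.inr (Subgroup.eq_of_le_of_card_ge h1 (by rw [h3, hc]))
  · rintro (rfl | h1)
    · exact h.bot
    · rw [h1]
      exact h.top.1

theorem CH.one {d : Finset (Subgroup G)} (h : CH ℓ d) (hc : Nat.card (PP.top d) = 1) :
    d = {⊥} := by
  ext D
  rw [Finset.mem_singleton]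
  constructor
  · intro hD
    have h1 := h.top.2 D hD
    rw [Subgroup.card_eq_one.1 hc, le_bot_iff] at h1
    exact h1
  · rintro rfl
    exact h.bot

open Classical in
theorem CH.two {d : Finset (Subgroup G)} (h : CH ℓ d) (hl : ℓ.Prime)
    (hc : Nat.card (PP.top d) = ℓ ^ 2) : d = {⊥, PP.top d} ∨
      ∃ Q : Subgroup G, Nat.card Q = ℓ ∧ Q ≤ PP.top d ∧ d = {⊥, Q, PP.top d} := by
  have h0 : ∀ D ∈ d, D = ⊥ ∨ Nat.card D = ℓ ∨ D = PP.top d := by
    intro D hD
    have h1 := h.top.2 D hD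
    have h2 : Nat.card D ∣ ℓ ^ 2 := hc ▸ Subgroup.card_dvd_of_le h1
    obtain ⟨k, hk, hk'⟩ := (Nat.dvd_prime_pow hl).1 h2
    interval_cases k
    · exact Or.inl (Subgroup.card_eq_one.1 (by rw [hk', pow_zero]))
    · exact Or.inr (Or.inl (by rw [hk', pow_one]))
    · exact Or.inr (Or.inr (Subgroup.eq_of_le_of_card_ge h1 (by rw [hk', hc])))
  by_cases hQ : ∃ Q ∈ d, Nat.card Q = ℓ
  · obtain ⟨Q, hQd, hQc⟩ := hQ
    refine Or.inr ⟨Q, hQc, h.top.2 Q hQd, ?_⟩
    ext D
    rw [Finset.mem_insert, Finset.mem_insert, Finset.mem_singleton]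
    constructor
    · intro hD
      rcases h0 D hD with h1 | h1 | h1
      · exact Or.inl h1
      · refine Or.inr (Or.inl ?_)
        rcases chain_total h.ch hD hQd with h2 | h2
        · exact Subgroup.eq_of_le_of_card_ge h2 (by rw [h1, hQc])
        · exact (Subgroup.eq_of_le_of_card_ge h2 (by rw [h1, hQc])).symm
      · exact Or.inr (Or.inr h1)
    · rintro (rfl | rfl | h1)
      · exact h.bot
      · exact hQd
      · rw [h1]
        exact h.top.1
  · left
    ext D
    rw [Finset.mem_insert, Finset.mem_singleton]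
    constructor
    · intro hD
      rcases h0 D hD with h1 | h1 | h1
      · exact Or.inl h1
      · exact absurd ⟨D, hD, h1⟩ hQ
      · exact Or.inr h1
    · rintro (rfl | h1)
      · exact h.bot
      · rw [h1]
        exact h.top.1

end chains

/-- EXP -/
theorem exp : ExpStmt := by
  classical
  intro ℓ _ F _ hF G _ _ e he hgood
  have hl : ℓ.Prime := hF.prime
  have hl1 : 1 < ℓ := hl.one_lt
  have hfin : Fintype (Subgroup G) := Fintype.ofFinite _
  obtain ⟨f, hf⟩ : ∃ f : Finset (Subgroup G) → ℤ, f = fun d => (-1 : ℤ) ^ (d.card + 1) *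
    ((Nat.card (stab d) : ℤ) * (lnum (stab d) e : ℤ)) := ⟨_, rfl⟩
  obtain ⟨S, hS⟩ : ∃ S : Finset (Finset (Subgroup G)),
      S = (chainsOn (psubIn ℓ (⊤ : Subgroup G)) ⊥).filter NormalChain := ⟨_, rfl⟩
  have hmem : ∀ d, d ∈ S ↔ CH ℓ d := fun d => by rw [hS]; exact mem_iff
  have hYY : YY ℓ ⊤ e = ∑ d ∈ S, f d := by
    rw [hS, hf]
    exact H94.nch ℓ G ⊤ (fun X _ => (Nat.card X : ℤ) * (lnum X e : ℤ))
  -- the orders
  have hord : ∀ d, CH ℓ d → f d ≠ 0 → Nat.card (top d) = 1 ∨ Nat.card (top d) = ℓ ∨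
      Nat.card (top d) = ℓ ^ 2 := by
    intro d hd h0
    have h1 : Gd e (top d) := by
      by_contra h2
      apply h0
      rw [hf]
      have h3 := (H75.lbr ℓ F hF G e he (top d) (stab d) (hd.pg _ hd.top.1) hd.le hd.norm).2 h2
      simp only [h3, Nat.cast_zero, mul_zero]
    have h2 := hgood _ (hd.pg _ hd.top.1) h1
    obtain ⟨k, hk⟩ := (IsPGroup.iff_card).1 (hd.pg _ hd.top.1)
    rw [hk] at h2 ⊢
    have h3 : k ≤ 2 := (Nat.pow_le_pow_iff_right hl1).1 h2
    interval_cases k
    · exact Or.inl (pow_zero _)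
    · exact Or.inr (Or.inl (pow_one _))
    · exact Or.inr (Or.inr rfl)
  have n1 : ℓ ≠ 1 := hl1.ne'
  have n2 : ℓ ^ 2 ≠ 1 := by
    intro h
    have := Nat.one_lt_pow (n := 2) (by norm_num) hl1
    omega
  have n3 : ℓ ^ 2 ≠ ℓ := by
    intro h
    have h1 : ℓ ^ 1 < ℓ ^ 2 := Nat.pow_lt_pow_right hl1 (by norm_num)
    rw [pow_one] at h1
    omega
  have nb : ∀ Q : Subgroup G, Nat.card Q = ℓ → (⊥ : Subgroup G) ≠ Q := by
    rintro Q hQ rfl
    rw [Subgroup.card_bot] at hQ
    exact n1 hQ.symm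
  have nb2 : ∀ Q : Subgroup G, Nat.card Q = ℓ ^ 2 → (⊥ : Subgroup G) ≠ Q := by
    rintro Q hQ rfl
    rw [Subgroup.card_bot] at hQ
    exact n2 hQ.symm
  have nqv : ∀ Q V : Subgroup G, Nat.card Q = ℓ → Nat.card V = ℓ ^ 2 → Q ≠ V := by
    rintro Q V hQ hV rfl
    exact n3 (hV.symm.trans hQ)
  -- the values
  have v0 : f {⊥} = (Nat.card G : ℤ) * lnum (⊤ : Subgroup G) e := by
    rw [hf]
    simp only [stab_bot, Finset.card_singleton]
    rw [Nat.card_congr (Subgroup.topEquiv (G := G)).toEquiv]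
    norm_num
  have v1 : ∀ Q : Subgroup G, (⊥ : Subgroup G) ≠ Q → f {⊥, Q} =
      -((Nat.card (Subgroup.normalizer (Q : Set G)) : ℤ) *
          lnum (Subgroup.normalizer (Q : Set G)) e) := by
    intro Q hQ
    rw [hf]
    simp only [stab_one, Finset.card_pair hQ]
    norm_num
  have v2 : ∀ Q V : Subgroup G, Nat.card Q = ℓ → Nat.card V = ℓ ^ 2 → f {⊥, Q, V} =
      (Nat.card (Subgroup.normalizer (Q : Set G) ⊓ Subgroup.normalizer (V : Set G) :
        Subgroup G) : ℤ) *
        lnum (Subgroup.normalizer (Q : Set G) ⊓ Subgroup.normalizer (V : Set G)) e := by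
    intro Q V hQ hV
    rw [hf]
    have h3 : ({⊥, Q, V} : Finset (Subgroup G)).card = 3 :=
      Finset.card_eq_three.2 ⟨⊥, Q, V, nb Q hQ, nb2 V hV, nqv Q V hQ hV, rfl⟩
    simp only [stab_two, h3]
    norm_num
  -- the three sums
  have s1 : ∑ d ∈ S.filter (fun d => Nat.card (top d) = 1), f d = f {⊥} := by
    have h1 : S.filter (fun d => Nat.card (top d) = 1) = {{⊥}} := by
      ext d
      rw [Finset.mem_filter, Finset.mem_singleton, hmem]
      constructor
      · rintro ⟨h1, h2⟩
        exact h1.one h2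
      · rintro rfl
        refine ⟨ch_bot, ?_⟩
        rw [top_bot, Subgroup.card_bot]
    rw [h1, Finset.sum_singleton]
  have s2 : ∑ d ∈ S.filter (fun d => Nat.card (top d) = ℓ), f d =
      ∑ Q ∈ Finset.univ.filter (fun Q : Subgroup G => Nat.card Q = ℓ), f {⊥, Q} := by
    symm
    refine Finset.sum_nbij' (fun Q => {⊥, Q}) (fun d => top d) ?_ ?_ ?_ ?_ ?_
    · intro Q hQ
      have h1 := (Finset.mem_filter.1 hQ).2
      refine Finset.mem_filter.2 ⟨(hmem _).2 (ch_one (IsPGroup.of_card (n := 1) ?_)), ?_⟩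
      · rw [h1, pow_one]
      · rw [top_one, h1]
    · intro d hd
      exact Finset.mem_filter.2 ⟨Finset.mem_univ _, (Finset.mem_filter.1 hd).2⟩
    · intro Q _
      exact top_one Q
    · intro d hd
      obtain ⟨h1, h2⟩ := Finset.mem_filter.1 hd
      exact (((hmem d).1 h1).small hl h2).symm
    · intro Q _
      rfl
  have s3 : ∑ d ∈ (S.filter (fun d => Nat.card (top d) = ℓ ^ 2)).filter (fun d => d.card = 2),
      f d = ∑ V ∈ Finset.univ.filter (fun V : Subgroup G => Nat.card V = ℓ ^ 2), f {⊥, V} := by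
    symm
    refine Finset.sum_nbij' (fun Q => {⊥, Q}) (fun d => top d) ?_ ?_ ?_ ?_ ?_
    · intro Q hQ
      have h1 := (Finset.mem_filter.1 hQ).2
      refine Finset.mem_filter.2 ⟨Finset.mem_filter.2 ⟨(hmem _).2 (ch_one
        (IsPGroup.of_card (n := 2) h1)), ?_⟩, ?_⟩
      · rw [top_one, h1]
      · exact Finset.card_pair (nb2 Q h1)
    · intro d hd
      exact Finset.mem_filter.2 ⟨Finset.mem_univ _,
        (Finset.mem_filter.1 (Finset.mem_filter.1 hd).1).2⟩
    · intro Q _
      exact top_one Q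
    · intro d hd
      obtain ⟨h0, h3⟩ := Finset.mem_filter.1 hd
      obtain ⟨h1, h2⟩ := Finset.mem_filter.1 h0
      rcases ((hmem d).1 h1).two hl h2 with h4 | ⟨Q, h5, h6, h7⟩
      · exact h4.symm
      · exfalso
        rw [h7, Finset.card_eq_three.2 ⟨⊥, Q, top d, nb Q h5, nb2 _ h2, nqv Q _ h5 h2, rfl⟩] at h3
        norm_num at h3
    · intro Q _
      rfl
  have s4 : ∑ d ∈ (S.filter (fun d => Nat.card (top d) = ℓ ^ 2)).filter (fun d => ¬ d.card = 2),
      f d = ∑ Q ∈ Finset.univ.filter (fun Q : Subgroup G => Nat.card Q = ℓ),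
        ∑ V ∈ Finset.univ.filter (fun V : Subgroup G => Nat.card V = ℓ ^ 2 ∧ Q ≤ V),
          f {⊥, Q, V} := by
    symm
    rw [Finset.sum_sigma']
    refine Finset.sum_bij (fun x _ => ({⊥, x.1, x.2} : Finset (Subgroup G))) ?_ ?_ ?_ ?_
    · rintro ⟨Q, V⟩ hx
      obtain ⟨hQ, hV⟩ := Finset.mem_sigma.1 hx
      have h1 : Nat.card Q = ℓ := (Finset.mem_filter.1 hQ).2
      obtain ⟨h2, h3⟩ : Nat.card V = ℓ ^ 2 ∧ Q ≤ V := (Finset.mem_filter.1 hV).2
      refine Finset.mem_filter.2 ⟨Finset.mem_filter.2 ⟨(hmem _).2 (ch_two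
        (IsPGroup.of_card (n := 2) h2) h3 (sq_norm h2 h3)), ?_⟩, ?_⟩
      · rw [top_two h3, h2]
      · rw [Finset.card_eq_three.2 ⟨⊥, Q, V, nb Q h1, nb2 V h2, nqv Q V h1 h2, rfl⟩]
        norm_num
    · rintro ⟨Q, V⟩ hx ⟨Q', V'⟩ hx' heq
      obtain ⟨hQ, hV⟩ := Finset.mem_sigma.1 hx
      have h1 : Nat.card Q = ℓ := (Finset.mem_filter.1 hQ).2
      obtain ⟨h2, h3⟩ : Nat.card V = ℓ ^ 2 ∧ Q ≤ V := (Finset.mem_filter.1 hV).2
      obtain ⟨hQ', hV'⟩ := Finset.mem_sigma.1 hx'
      have h1' : Nat.card Q' = ℓ := (Finset.mem_filter.1 hQ').2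
      obtain ⟨h2', h3'⟩ : Nat.card V' = ℓ ^ 2 ∧ Q' ≤ V' := (Finset.mem_filter.1 hV').2
      have heq' : ({⊥, Q, V} : Finset (Subgroup G)) = {⊥, Q', V'} := heq
      have h4 : V = V' := by
        rw [← top_two h3, heq', top_two h3']
      have h5 : Q ∈ ({⊥, Q', V'} : Finset (Subgroup G)) := by
        rw [← heq']
        simp
      have h6 : Q = Q' := by
        rcases Finset.mem_insert.1 h5 with h | h
        · exact absurd h.symm (nb Q h1)
        · rcases Finset.mem_insert.1 h with h | h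
          · exact h
          · exact absurd (Finset.mem_singleton.1 h) (nqv Q V' h1 h2')
      rw [h4, h6]
    · intro d hd
      obtain ⟨h0, h3⟩ := Finset.mem_filter.1 hd
      obtain ⟨h1, h2⟩ := Finset.mem_filter.1 h0
      rcases ((hmem d).1 h1).two hl h2 with h4 | ⟨Q, h5, h6, h7⟩
      · exfalso
        apply h3
        rw [h4]
        exact Finset.card_pair (nb2 _ h2)
      · refine ⟨⟨Q, top d⟩, ?_, h7.symm⟩
        exact Finset.mem_sigma.2 ⟨Finset.mem_filter.2 ⟨Finset.mem_univ _, h5⟩,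
          Finset.mem_filter.2 ⟨Finset.mem_univ _, h2, h6⟩⟩
    · intro x _
      rfl
  -- the splitting
  have e1 := Finset.sum_filter_add_sum_filter_not S (fun d => Nat.card (top d) = 1) f
  have e2 := Finset.sum_filter_add_sum_filter_not
    (S.filter (fun d => ¬ Nat.card (top d) = 1)) (fun d => Nat.card (top d) = ℓ) f
  have e2' : (S.filter (fun d => ¬ Nat.card (top d) = 1)).filter
      (fun d => Nat.card (top d) = ℓ) = S.filter (fun d => Nat.card (top d) = ℓ) := by
    ext d
    simp only [Finset.mem_filter]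
    constructor
    · rintro ⟨⟨h1, _⟩, h3⟩
      exact ⟨h1, h3⟩
    · rintro ⟨h1, h3⟩
      exact ⟨⟨h1, by rw [h3]; exact n1⟩, h3⟩
  have e3 : ∑ d ∈ S.filter (fun d => Nat.card (top d) = ℓ ^ 2), f d =
      ∑ d ∈ (S.filter (fun d => ¬ Nat.card (top d) = 1)).filter
        (fun d => ¬ Nat.card (top d) = ℓ), f d := by
    refine Finset.sum_subset ?_ ?_
    · intro d hd
      obtain ⟨h1, h2⟩ := Finset.mem_filter.1 hd
      refine Finset.mem_filter.2 ⟨Finset.mem_filter.2 ⟨h1, ?_⟩, ?_⟩
      · rw [h2]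
        exact n2
      · rw [h2]
        exact n3
    · intro d hd hd'
      obtain ⟨h0, h3⟩ := Finset.mem_filter.1 hd
      obtain ⟨h1, h2⟩ := Finset.mem_filter.1 h0
      by_contra h4
      rcases hord d ((hmem d).1 h1) h4 with h5 | h5 | h5
      · exact h2 h5
      · exact h3 h5
      · exact hd' (Finset.mem_filter.2 ⟨h1, h5⟩)
  have e4 := Finset.sum_filter_add_sum_filter_not
    (S.filter (fun d => Nat.card (top d) = ℓ ^ 2)) (fun d => d.card = 2) f
  rw [e2'] at e2
  rw [hYY, ← e1, ← e2, ← e3, ← e4, s1, s2, s3, s4, v0]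
  -- the right side
  have r1 : ∑ Q ∈ Finset.univ.filter (fun Q : Subgroup G => Nat.card Q = ℓ), f {⊥, Q} =
      -∑ᶠ (Q : Subgroup G) (_ : Nat.card Q = ℓ),
        (Nat.card (Subgroup.normalizer (Q : Set G)) : ℤ) *
          lnum (Subgroup.normalizer (Q : Set G)) e := by
    rw [finsum_eq_sum_of_fintype]
    simp only [finsum_eq_if]
    rw [← Finset.sum_filter, ← Finset.sum_neg_distrib]
    refine Finset.sum_congr rfl ?_
    intro Q hQ
    exact v1 Q (nb Q (Finset.mem_filter.1 hQ).2)
  have r2 : ∑ V ∈ Finset.univ.filter (fun V : Subgroup G => Nat.card V = ℓ ^ 2), f {⊥, V} =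
      -∑ᶠ (V : Subgroup G) (_ : Nat.card V = ℓ ^ 2),
        (Nat.card (Subgroup.normalizer (V : Set G)) : ℤ) *
          lnum (Subgroup.normalizer (V : Set G)) e := by
    rw [finsum_eq_sum_of_fintype]
    simp only [finsum_eq_if]
    rw [← Finset.sum_filter, ← Finset.sum_neg_distrib]
    refine Finset.sum_congr rfl ?_
    intro V hV
    exact v1 V (nb2 V (Finset.mem_filter.1 hV).2)
  have r3 : ∑ Q ∈ Finset.univ.filter (fun Q : Subgroup G => Nat.card Q = ℓ),
        ∑ V ∈ Finset.univ.filter (fun V : Subgroup G => Nat.card V = ℓ ^ 2 ∧ Q ≤ V),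
          f {⊥, Q, V} = ∑ᶠ (Q : Subgroup G) (_ : Nat.card Q = ℓ), ∑ᶠ (V : Subgroup G)
        (_ : Nat.card V = ℓ ^ 2 ∧ Q ≤ V),
        (Nat.card (Subgroup.normalizer (Q : Set G) ⊓ Subgroup.normalizer (V : Set G) :
          Subgroup G) : ℤ) *
          lnum (Subgroup.normalizer (Q : Set G) ⊓ Subgroup.normalizer (V : Set G)) e := by
    rw [finsum_eq_sum_of_fintype]
    simp only [finsum_eq_if]
    rw [← Finset.sum_filter]
    refine Finset.sum_congr rfl ?_
    intro Q hQ
    rw [finsum_eq_sum_of_fintype, ← Finset.sum_filter]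
    refine Finset.sum_congr rfl ?_
    intro V hV
    exact v2 Q V (Finset.mem_filter.1 hQ).2 (Finset.mem_filter.1 hV).2.1
  rw [r1, r2, r3]
  ring

end Pool.Agent.PP.K9.H56
end
end -- Pool.Agent.Helper56_K9.EXP

section -- Pool.Agent.Helper11_C2.EXB

/-!
# Squad C2, rows INE and EXB (helper11): the blocks of the centralisers

Text: `AWC_C2.md`.
-/

open scoped BigOperators

set_option linter.unusedSectionVars false

noncomputable section

namespace Pool.Agent.PP.C2.H11

open Pool.Agent.Helper51_AWC Pool.Agent.Helper79_WRA Pool.Agent.PP Pool.Agent.PP.KF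
open Pool.Agent.PP.K9
open Pool.Agent.PP.K9.H97 (Ix Bx)

section gen

variable {F G : Type} [Field F] [Group G] [Finite G] {ℓ : ℕ}

theorem _root_.Pool.Agent.PP.C2.Bk.bx {C : Subgroup G} {β : G → F} (h : Bk C β) : Bx C β :=
  ⟨h.off, h.blk⟩

theorem bk_of_bx {C : Subgroup G} {β : G → F} (h : Bx C β) : Bk C β :=
  ⟨h.supp, h.blk⟩

theorem ix_inv {C V : Subgroup G} (hVC : V ≤ C) {a : G → F} (ha : Ix C a) : H66.Inv V a := by
  intro p hp t
  exact (H75.cj_eq_iff _ _).1 (ha.inv (hVC hp)) t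

/-- the Brauer map on the centre of `F C`, `V ≤ C`, `C(V) ≤ C` -/
theorem br_ix (hF : GoodF ℓ F) {C V : Subgroup G} (hV : IsPGroup ℓ V) (hVC : V ≤ C)
    (hCC : Subgroup.centralizer (V : Set G) ≤ C) {a : G → F} (ha : Ix C a) :
    Ix (Subgroup.centralizer (V : Set G)) (br V a) := by
  have hs : ∀ x, x ∉ Subgroup.centralizer (V : Set G) → br V a x = 0 :=
    fun x hx => H66.br_of_not_mem hx
  refine ⟨hs, ?_, ?_⟩
  · intro x y
    show br V a ((y : G) * x * (y : G)⁻¹) = br V a x
    have h2 : (y : G) * x * (y : G)⁻¹ ∈ Subgroup.centralizer (V : Set G) := (y * x * y⁻¹).2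
    rw [H66.br_of_mem x.2, H66.br_of_mem h2]
    exact ha.idem.1 ⟨x, hCC x.2⟩ ⟨y, hCC y.2⟩
  · rw [← H75.mulF_res _ _ hs, ← H66.br_mulF hF hV (ix_inv hVC ha) (ix_inv hVC ha), ha.mul]

theorem ix_top {e : G → F} (he : IsIdem e) : Ix (⊤ : Subgroup G) e := by
  refine ⟨fun x hx => absurd (Subgroup.mem_top x) hx, ?_, ?_⟩
  · intro x y
    exact he.1 _ _
  · rw [← H75.mulF_res _ _ (fun x hx => absurd (Subgroup.mem_top x) hx), he.2]

theorem br_add (V : Subgroup G) (a b : G → F) : br V (a + b) = br V a + br V b := by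
  funext x
  by_cases hx : x ∈ Subgroup.centralizer (V : Set G)
  · rw [H66.br_of_mem hx, Pi.add_apply, Pi.add_apply, H66.br_of_mem hx, H66.br_of_mem hx]
  · rw [H66.br_of_not_mem hx, Pi.add_apply, H66.br_of_not_mem hx, H66.br_of_not_mem hx, add_zero]

theorem ext0_add (K : Subgroup G) (a b : K → F) :
    H75.ext0 K (a + b) = H75.ext0 K a + H75.ext0 K b := by
  funext x
  by_cases hx : x ∈ K
  · have h1 := H75.ext0_apply K (a + b) ⟨x, hx⟩
    have h2 := H75.ext0_apply K a ⟨x, hx⟩
    have h3 := H75.ext0_apply K b ⟨x, hx⟩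
    rw [Pi.add_apply]
    exact h1.trans (congrArg₂ (· + ·) h2.symm h3.symm)
  · rw [H75.ext0_supp K _ x hx, Pi.add_apply, H75.ext0_supp K _ x hx, H75.ext0_supp K _ x hx,
      add_zero]

theorem ext0_zero (K : Subgroup G) : H75.ext0 K (0 : K → F) = 0 := by
  funext x
  by_cases hx : x ∈ K
  · exact H75.ext0_apply K (0 : K → F) ⟨x, hx⟩
  · exact H75.ext0_supp K _ x hx

theorem br_ne {V : Subgroup G} {e : G → F} (h : Gd e V) : br V e ≠ 0 := by
  obtain ⟨g, hg, hne⟩ := h
  intro h0
  apply hne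
  have h1 : br V e g = e g := H66.br_of_mem hg
  rw [← h1, h0]
  rfl

theorem gd_of_br {V : Subgroup G} {e : G → F} (h : br V e ≠ 0) : Gd e V := by
  by_contra hcon
  apply h
  funext x
  by_cases hx : x ∈ Subgroup.centralizer (V : Set G)
  · rw [H66.br_of_mem hx]
    by_contra h2
    exact hcon ⟨x, hx, h2⟩
  · exact H66.br_of_not_mem hx

theorem cen_le {V : Subgroup G} {w : G} (hw : w ∈ V) :
    Subgroup.centralizer (V : Set G) ≤ Cu w := by
  intro x hx
  rw [Subgroup.mem_centralizer_iff] at hx ⊢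
  intro y hy
  rw [Set.mem_singleton_iff.1 hy]
  exact hx w hw

theorem le_cu {V : Subgroup G} (hc : ∀ a ∈ V, ∀ b ∈ V, a * b = b * a) {w : G} (hw : w ∈ V) :
    V ≤ Cu w := by
  intro x hx
  rw [Subgroup.mem_centralizer_iff]
  intro y hy
  rw [Set.mem_singleton_iff.1 hy]
  exact hc w hw x hx

theorem mem_cu {w x : G} : x ∈ Cu w ↔ w * x = x * w := by
  rw [Subgroup.mem_centralizer_iff]
  constructor
  · intro h
    exact h w rfl
  · intro h y hy
    rw [Set.mem_singleton_iff.1 hy]
    exact h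

end gen

/-- INE -/
theorem ine : IneStmt := by
  intro ℓ hfact F _ hF G _ _ e he V hV hc
  have hVC : V ≤ (⊤ : Subgroup G) := le_top
  have hI := br_ix hF hV.pg hVC le_top (ix_top he.1)
  have hne : (fun t : Subgroup.centralizer (V : Set G) => br V e t) ≠ 0 := by
    intro h0
    apply br_ne hV.gd
    exact H75.eq_of_res hI.supp (fun _ _ => rfl) h0
  obtain ⟨b, hb, hb2, -⟩ := H24.exists_blk
    (L := fun a : Subgroup.centralizer (V : Set G) → F => a) rfl (fun _ _ => rfl) hI.idem hne
  have hres : (fun t : Subgroup.centralizer (V : Set G) =>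
      H75.ext0 (Subgroup.centralizer (V : Set G)) b t) = b := funext (H75.ext0_apply _ b)
  have hg : Bk (Subgroup.centralizer (V : Set G))
      (H75.ext0 (Subgroup.centralizer (V : Set G)) b) :=
    ⟨H75.ext0_supp _ b, by rw [hres]; exact hb⟩
  refine ⟨H75.ext0 (Subgroup.centralizer (V : Set G)) b, _, he, hV, hc, hg, ?_, rfl⟩
  apply H75.eq_of_res (H75.mulF_supp _ hI.supp hg.off) hg.off
  rw [H75.mulF_res _ _ hI.supp, hres, hb2]

/-- EXB -/
theorem exb : ExbStmt := by
  intro ℓ hfact F _ hF G _ _ e V γ T hI w hw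
  obtain ⟨hblk, htp, hcomm, hgam, hund, hstb⟩ := hI
  have hVp := htp.pg
  have hVC : V ≤ Cu w := le_cu hcomm hw
  have hCC : Subgroup.centralizer (V : Set G) ≤ Cu w := cen_le hw
  have hγ : Bx (Subgroup.centralizer (V : Set G)) γ := hgam.bx
  have hγ0 : γ ≠ 0 := hγ.ne
  -- if `br V a * γ` is not zero, it is `γ`
  have key : ∀ a : G → F, Ix (Cu w) a → mulF (br V a) γ ≠ 0 → mulF (br V a) γ = γ := by
    intro a ha hne
    have h1 := br_ix hF hVp hVC hCC ha
    rw [h1.comm hγ.ix] at hne ⊢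
    rcases hγ.dich' h1 with h | h
    · exact h
    · exact absurd h hne
  -- existence
  have hone : mulF (br V (H75.ext0 (Cu w) (dl F (1 : Cu w)))) γ = γ := by
    have h1 : br V (H75.ext0 (Cu w) (dl F (1 : Cu w))) = dl F (1 : G) := by
      classical
      funext x
      by_cases hx : x ∈ Subgroup.centralizer (V : Set G)
      · rw [H66.br_of_mem hx]
        have h2 := H75.ext0_apply (Cu w) (dl F (1 : Cu w)) ⟨x, hCC hx⟩
        refine h2.trans ?_
        unfold dl
        by_cases h3 : x = 1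
        · rw [if_pos h3, if_pos (Subtype.ext h3)]
        · rw [if_neg h3, if_neg (fun h4 => h3 (congrArg Subtype.val h4))]
      · rw [H66.br_of_not_mem hx]
        unfold dl
        rw [if_neg]
        intro h3
        apply hx
        rw [h3]
        exact Subgroup.one_mem _
    rw [h1, H46.one_mulF]
  obtain ⟨b, hb, -, hb3⟩ := H24.exists_blk
    (L := fun a : Cu w → F => mulF (br V (H75.ext0 (Cu w) a)) γ)
    (by
      show mulF (br V (H75.ext0 (Cu w) (0 : Cu w → F))) γ = 0
      rw [ext0_zero, H66.br_zero, H75.mulF_zero_left])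
    (fun a b => by
      show mulF (br V (H75.ext0 (Cu w) (a + b))) γ = _
      rw [ext0_add, br_add, H24.mulF_add_l])
    H46.isIdem_one (by
      show mulF (br V (H75.ext0 (Cu w) (dl F (1 : Cu w)))) γ ≠ 0
      rw [hone]
      exact hγ0)
  obtain ⟨β, hβdef⟩ : ∃ β : G → F, β = H75.ext0 (Cu w) b := ⟨_, rfl⟩
  have hβs : ∀ x, x ∉ Cu w → β x = 0 := by
    rw [hβdef]
    exact H75.ext0_supp _ b
  have hβr : (fun t : Cu w => β t) = b := by
    rw [hβdef]
    exact funext (H75.ext0_apply _ b)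
  have hβ : Bx (Cu w) β := ⟨hβs, by rw [hβr]; exact hb⟩
  have hβγ : mulF (br V β) γ = γ := by
    apply key β hβ.ix
    rw [hβdef]
    exact hb3
  have hβ1 : br V β ≠ 0 := by
    intro h0
    rw [h0, H75.mulF_zero_left] at hβγ
    exact hγ0 hβγ.symm
  have hAb : Ab V γ w β := ⟨bk_of_bx hβ, hβγ⟩
  -- the restriction of `e`
  have hzp : IsPGroup ℓ (Subgroup.zpowers w) :=
    hVp.to_le (Subgroup.zpowers_le.2 hw)
  have hzc : ∀ x, x ∈ Subgroup.centralizer (Subgroup.zpowers w : Set G) ↔ x ∈ Cu w := by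
    intro x
    constructor
    · intro h
      rw [mem_cu]
      exact (Subgroup.mem_centralizer_iff.1 h) w (Subgroup.mem_zpowers w)
    · intro h
      rw [Subgroup.mem_centralizer_iff]
      intro y hy
      obtain ⟨k, rfl⟩ := Subgroup.mem_zpowers_iff.1 hy
      have h1 : Commute w x := mem_cu.1 h
      exact h1.zpow_left k
  have hzz : Subgroup.centralizer (Subgroup.zpowers w : Set G) = Cu w := by
    ext x
    exact hzc x
  obtain ⟨e', he'def⟩ : ∃ e' : G → F, e' = br (Subgroup.zpowers w) e := ⟨_, rfl⟩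
  have he' : Ix (Cu w) e' := by
    rw [he'def, ← hzz]
    exact br_ix hF hzp le_top le_top (ix_top hblk.1)
  have he'r : (fun t : Cu w => e' t) = fun t : Cu w => e t := by
    funext t
    rw [he'def, H66.br_of_mem ((hzc _).2 t.2)]
  have hbre' : br V e' = br V e := by
    funext x
    by_cases hx : x ∈ Subgroup.centralizer (V : Set G)
    · rw [H66.br_of_mem hx, H66.br_of_mem hx]
      exact congrFun he'r ⟨x, hCC hx⟩
    · rw [H66.br_of_not_mem hx, H66.br_of_not_mem hx]
  have he'β : mulF e' β = β := by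
    rw [he'.comm hβ.ix]
    rcases hβ.dich' he' with h | h
    · exact h
    · exfalso
      apply hγ0
      rw [← he'.comm hβ.ix] at h
      have h1 : mulF (mulF (br V e') (br V β)) γ = 0 := by
        rw [← H66.br_mulF hF hVp (ix_inv hVC he') (ix_inv hVC hβ.ix), h, H66.br_zero,
          H75.mulF_zero_left]
      rw [H20.mulF_assoc, hβγ, hbre', hund] at h1
      exact h1
  have heβ : mulF (fun t : Cu w => e t) (fun t : Cu w => β t) = fun t : Cu w => β t := by
    rw [← he'r, ← H75.mulF_res _ _ he'.supp, he'β]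
  refine ⟨β, hAb, heβ, ?_, ?_, ?_⟩
  · refine ⟨hVp.comap_subtype, ?_, ?_⟩
    · obtain ⟨x, hx, hne⟩ := gd_of_br hβ1
      refine ⟨⟨x, hCC hx⟩, ?_, hne⟩
      rw [Subgroup.mem_centralizer_iff]
      intro y hy
      apply Subtype.ext
      exact (Subgroup.mem_centralizer_iff.1 hx) y hy
    · intro Q hQ hQg
      have hcV : Nat.card (V.subgroupOf (Cu w)) = Nat.card V :=
        Nat.card_congr (Subgroup.subgroupOfEquivOfLe hVC).toEquiv
      have hcQ : Nat.card (Q.map (Cu w).subtype) = Nat.card Q :=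
        Subgroup.card_map_of_injective (Cu w).subtype_injective
      rw [hcV, ← hcQ]
      apply htp.mx _ (hQ.map _)
      by_contra hcon
      apply br_ne hQg
      have h1 : br Q (fun t : Cu w => e t) = 0 := by
        funext s
        by_cases hs : s ∈ Subgroup.centralizer (Q : Set (Cu w))
        · rw [H66.br_of_mem hs]
          by_contra h
          apply hcon
          refine ⟨s, ?_, h⟩
          rw [Subgroup.mem_centralizer_iff]
          intro y hy
          obtain ⟨q, hq, rfl⟩ := hy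
          exact congrArg Subtype.val (Subgroup.mem_centralizer_iff.1 hs q hq)
        · exact H66.br_of_not_mem hs
      have h2 : IsCl (fun t : Cu w => e t) := by
        intro x y
        exact hblk.1.1 _ _
      rw [← heβ, H66.br_mulF hF hQ (H66.IsCl.inv h2 Q) (H66.IsCl.inv hβ.blk.1.1 Q), h1,
        H75.mulF_zero_left]
  · intro β' hβ'
    have hb' : Bx (Cu w) β' := hβ'.bk.bx
    rcases hb'.dich hβ with h | h
    · exact h
    · exfalso
      apply hγ0
      have h1 : mulF (mulF (br V β') (br V β)) γ = 0 := by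
        rw [← H66.br_mulF hF hVp (ix_inv hVC hb'.ix) (ix_inv hVC hβ.ix), h, H66.br_zero,
          H75.mulF_zero_left]
      rw [H20.mulF_assoc, hβγ, hβ'.und] at h1
      exact h1
  · intro t ht
    rw [hstb, Subgroup.mem_inf] at ht
    obtain ⟨htN, htγ⟩ := ht
    have hcj : (fun x => β (t⁻¹ * x * t)) = H75.cj t β := rfl
    have hmem : ∀ x, x ∈ Cu (t * w * t⁻¹) ↔ t⁻¹ * x * t ∈ Cu w := by
      intro x
      rw [mem_cu, mem_cu]
      constructor
      · intro h
        calc w * (t⁻¹ * x * t) = t⁻¹ * ((t * w * t⁻¹) * x) * t := by group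
          _ = t⁻¹ * (x * (t * w * t⁻¹)) * t := by rw [h]
          _ = t⁻¹ * x * t * w := by group
      · intro h
        calc t * w * t⁻¹ * x = t * (w * (t⁻¹ * x * t)) * t⁻¹ := by group
          _ = t * (t⁻¹ * x * t * w) * t⁻¹ := by rw [h]
          _ = x * (t * w * t⁻¹) := by group
    refine ⟨⟨?_, ?_⟩, ?_⟩
    · intro x hx
      exact hβs _ (fun h => hx ((hmem x).2 h))
    · have φ : ∃ φ : Cu (t * w * t⁻¹) ≃* Cu w, ∀ x, ((φ x : Cu w) : G) = t⁻¹ * x * t := by
        refine ⟨MulEquiv.mk' ⟨fun x => ⟨t⁻¹ * x * t, (hmem _).1 x.2⟩,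
          fun y => ⟨t * y * t⁻¹, (hmem _).2 ?_⟩, ?_, ?_⟩ ?_, ?_⟩
        · have h1 : t⁻¹ * (t * (y : G) * t⁻¹) * t = y := by group
          rw [h1]
          exact y.2
        · intro x
          apply Subtype.ext
          show t * (t⁻¹ * (x : G) * t) * t⁻¹ = x
          group
        · intro x
          apply Subtype.ext
          show t⁻¹ * (t * (x : G) * t⁻¹) * t = x
          group
        · intro x y
          apply Subtype.ext
          show t⁻¹ * ((x : G) * y) * t = t⁻¹ * x * t * (t⁻¹ * y * t)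
          group
        · intro x
          rfl
      obtain ⟨φ, hφ⟩ := φ
      have h1 := Pool.Agent.PP.H60.isBlk_comp φ hβ.blk
      have h2 : (fun x : Cu (t * w * t⁻¹) => (fun s : Cu w => β s) (φ x)) =
          fun x : Cu (t * w * t⁻¹) => β (t⁻¹ * x * t) := by
        funext x
        show β (φ x) = _
        rw [hφ]
      rw [h2] at h1
      exact h1
    · have h1 : br V (fun x => β (t⁻¹ * x * t)) = H75.cj t (br V β) := by
        funext x
        have hx' : t⁻¹ * x * t ∈ Subgroup.centralizer (V : Set G) ↔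
            x ∈ Subgroup.centralizer (V : Set G) := by
          have hconj : ∀ n ∈ Subgroup.normalizer (V : Set G), ∀ x ∈ Subgroup.centralizer (V : Set G),
              n * x * n⁻¹ ∈ Subgroup.centralizer (V : Set G) := by
            intro n hn x hx
            rw [Subgroup.mem_centralizer_iff] at hx ⊢
            intro q hq
            have h1 : n⁻¹ * q * n ∈ V := by
              have h2 := (Subgroup.mem_normalizer_iff.1 (Subgroup.inv_mem _ hn) q).1 hq
              rwa [inv_inv] at h2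
            have h2 := hx _ h1
            calc q * (n * x * n⁻¹) = n * ((n⁻¹ * q * n) * x) * n⁻¹ := by group
              _ = n * (x * (n⁻¹ * q * n)) * n⁻¹ := by rw [h2]
              _ = (n * x * n⁻¹) * q := by group
          constructor
          · intro h
            have h2 := hconj t htN _ h
            have h3 : t * (t⁻¹ * x * t) * t⁻¹ = x := by group
            rwa [h3] at h2
          · intro h
            have h2 := hconj t⁻¹ (Subgroup.inv_mem _ htN) _ h
            rwa [inv_inv] at h2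
        show _ = br V β (t⁻¹ * x * t)
        by_cases hx : x ∈ Subgroup.centralizer (V : Set G)
        · rw [H66.br_of_mem hx, H66.br_of_mem (hx'.2 hx)]
        · rw [H66.br_of_not_mem hx, H66.br_of_not_mem (fun h => hx (hx'.1 h))]
      have h2 : H75.cj t γ = γ := (H75.cj_eq_iff _ _).2 (fun x => htγ x)
      rw [h1]
      calc mulF (H75.cj t (br V β)) γ = mulF (H75.cj t (br V β)) (H75.cj t γ) := by rw [h2]
        _ = γ := by rw [← H75.cj_mulF, hβγ, h2]

end Pool.Agent.PP.C2.H11
end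
end -- Pool.Agent.Helper11_C2.EXB

section -- Pool.Agent.Helper39_C2.YQV

/-!
# Squad C2, row YQV: the terms with `|Q| = |V|`
-/

open scoped BigOperators

noncomputable section

namespace Pool.Agent.PP.C2.H39

open Pool.Agent.Helper51_AWC Pool.Agent.Helper79_WRA Pool.Agent.PP Pool.Agent.PP.KF
open Pool.Agent.PP.K9

attribute [local instance] Ideal.Quotient.field

theorem fz0 {ι : Sort*} {g : ι → ℤ} (h : ∀ i, g i = 0) : ∑ᶠ i : ι, g i = 0 := by
  have : g = fun _ => 0 := funext h
  rw [this]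
  exact finsum_zero

/-- the alternating sum of an idempotent whose good subgroups are trivial -/
theorem yy_of_triv {ℓ : ℕ} [Fact ℓ.Prime] {F : Type} [Field F] (hF : GoodF ℓ F) {A : Type}
    [Group A] [Finite A] {f : A → F} (hf : IsIdem f)
    (h1 : ∀ R : Subgroup A, IsPGroup ℓ R → Gd f R → Nat.card R ≤ 1) :
    YY ℓ ⊤ f = (Nat.card A : ℤ) * lnum (⊤ : Subgroup A) f := by
  have hpr : ℓ.Prime := Fact.out
  have hng1 : ∀ R : Subgroup A, Nat.card R = ℓ → IsPGroup ℓ R ∧ ¬ Gd f R := by
    intro R hR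
    have hp : IsPGroup ℓ R := IsPGroup.of_card (n := 1) (by rw [hR, pow_one])
    refine ⟨hp, fun hg => ?_⟩
    have := h1 R hp hg
    rw [hR] at this
    exact absurd this (by have := hpr.two_le; omega)
  have hng2 : ∀ R : Subgroup A, Nat.card R = ℓ ^ 2 → IsPGroup ℓ R ∧ ¬ Gd f R := by
    intro R hR
    have hp : IsPGroup ℓ R := IsPGroup.of_card hR
    refine ⟨hp, fun hg => ?_⟩
    have h2 := h1 R hp hg
    rw [hR] at h2
    have h3 : 1 < ℓ ^ 2 := Nat.one_lt_pow (by norm_num) hpr.one_lt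
    omega
  have hE := H56.exp ℓ F hF A f hf (fun R hR hg => (h1 R hR hg).trans
    (Nat.one_le_pow _ _ hpr.pos))
  have e1 : (∑ᶠ (Q : Subgroup A) (_ : Nat.card Q = ℓ),
        (Nat.card (Subgroup.normalizer (Q : Set A)) : ℤ) *
          lnum (Subgroup.normalizer (Q : Set A)) f) = 0 := by
    refine fz0 fun Q => fz0 fun hQ => ?_
    obtain ⟨hp, hg⟩ := hng1 Q hQ
    rw [(H75.lbr ℓ F hF A f hf Q _ hp Subgroup.le_normalizer le_rfl).2 hg]
    simp
  have e2 : (∑ᶠ (V : Subgroup A) (_ : Nat.card V = ℓ ^ 2),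
        (Nat.card (Subgroup.normalizer (V : Set A)) : ℤ) *
          lnum (Subgroup.normalizer (V : Set A)) f) = 0 := by
    refine fz0 fun Q => fz0 fun hQ => ?_
    obtain ⟨hp, hg⟩ := hng2 Q hQ
    rw [(H75.lbr ℓ F hF A f hf Q _ hp Subgroup.le_normalizer le_rfl).2 hg]
    simp
  have e3 : (∑ᶠ (Q : Subgroup A) (_ : Nat.card Q = ℓ), ∑ᶠ (V : Subgroup A)
        (_ : Nat.card V = ℓ ^ 2 ∧ Q ≤ V),
        (Nat.card (Subgroup.normalizer (Q : Set A) ⊓ Subgroup.normalizer (V : Set A) :
          Subgroup A) : ℤ) *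
          lnum (Subgroup.normalizer (Q : Set A) ⊓ Subgroup.normalizer (V : Set A)) f) = 0 := by
    refine fz0 fun Q => fz0 fun hQ => fz0 fun V => fz0 fun hV => ?_
    obtain ⟨hp, hg⟩ := hng1 Q hQ
    rw [(H75.lbr ℓ F hF A f hf Q _ hp (le_inf Subgroup.le_normalizer
      (hV.2.trans Subgroup.le_normalizer)) inf_le_left).2 hg]
    simp
  rw [hE, e1, e2, e3]
  ring

theorem yqv : YqvStmt := by
  intro ℓ _ M _ hM G _ _ e he V hV Q hQ hc
  have hpr : ℓ.Prime := Fact.out
  have hF : GoodF ℓ (FF M) := H50.fld ℓ Fact.out M hM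
  have hCN : Subgroup.centralizer (Q : Set G) ≤ Subgroup.normalizer (Q : Set G) :=
    Subgroup.centralizer_le_normalizer _
  have hf := (H20.brm ℓ (FF M) hF G Q (Subgroup.normalizer (Q : Set G)) hQ hCN le_rfl).2.2 e he.1
  obtain ⟨p, hpdef⟩ : ∃ p, p = QuotientGroup.mk' (Q.subgroupOf (Subgroup.normalizer (Q : Set G))) :=
    ⟨_, rfl⟩
  have hp : Function.Surjective p := by
    rw [hpdef]
    exact QuotientGroup.mk'_surjective _
  have hker : p.ker = Q.subgroupOf (Subgroup.normalizer (Q : Set G)) := by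
    rw [hpdef]
    exact QuotientGroup.ker_mk' _
  have hkc : Nat.card p.ker = Nat.card Q := by
    rw [hker]
    exact Nat.card_congr (Subgroup.subgroupOfEquivOfLe Subgroup.le_normalizer).toEquiv
  have hkp : IsPGroup ℓ p.ker := by
    rw [hker]
    exact hQ.comap_subtype
  have hid := PP.H75.push_isIdem hp hf
  have h1 : ∀ R : Subgroup (Subgroup.normalizer (Q : Set G) ⧸
      Q.subgroupOf (Subgroup.normalizer (Q : Set G))), IsPGroup ℓ R →
      Gd (PP.H75.push p (fun t : Subgroup.normalizer (Q : Set G) => br Q e t)) R →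
      Nat.card R ≤ 1 := by
    intro R hR hg
    have h1 : p.ker ≤ R.comap p := by
      intro x hx
      rw [MonoidHom.mem_ker] at hx
      rw [Subgroup.mem_comap, hx]
      exact R.one_mem
    have h2 : IsPGroup ℓ (R.comap p) := (PP.H75.isPGroup_comap_iff hp hkp R).2 hR
    have h3 := (H02.pug ℓ (FF M) hF _ _ p hp hkp _ hf (R.comap p) h1 h2).2 (by
      rw [Subgroup.map_comap_eq_self_of_surjective hp]
      exact hg)
    obtain ⟨x, hx, hx2⟩ := h3
    have h4 : Gd e (H35.up p R) := by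
      refine ⟨(x : G), ?_, ?_⟩
      · rw [Subgroup.mem_centralizer_iff]
        rintro _ ⟨y, hy, rfl⟩
        exact congrArg Subtype.val (Subgroup.mem_centralizer_iff.1 hx y hy)
      · intro h0
        apply hx2
        by_cases hc : (x : G) ∈ Subgroup.centralizer (Q : Set G)
        · change br Q e x = 0
          rw [H66.br_of_mem hc, h0]
        · exact H66.br_of_not_mem hc
    have h5 := hV.mx (H35.up p R) (h2.map _) h4
    rw [H35.card_up hp, hkc, hc] at h5
    have hV0 : 0 < Nat.card V := Nat.card_pos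
    exact Nat.le_of_mul_le_mul_left (by rw [mul_one]; exact h5) hV0
  have h2 := yy_of_triv hF hid h1
  have h3 : lnum (Subgroup.normalizer (Q : Set G)) e = lnum (⊤ : Subgroup _)
      (PP.H75.push p (fun t : Subgroup.normalizer (Q : Set G) => br Q e t)) := by
    rw [(H75.lbr ℓ (FF M) hF G e he.1 Q _ hQ Subgroup.le_normalizer le_rfl).1,
      ← H35.lnum_up hF hp hkp ⊤ (br Q e), H35.up_top]
  have h4 : Nat.card (Subgroup.normalizer (Q : Set G)) = Nat.card Q *
      Nat.card (Subgroup.normalizer (Q : Set G) ⧸ Q.subgroupOf (Subgroup.normalizer (Q : Set G))) := by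
    have := H35.card_up hp ⊤
    rw [H35.up_top, hkc, Subgroup.card_top] at this
    exact this
  have h5 : yq ℓ Q e = YY ℓ ⊤
      (PP.H75.push p (fun t : Subgroup.normalizer (Q : Set G) => br Q e t)) := by
    rw [hpdef]
    rfl
  rw [h5, h2, ← h3, h4]
  push_cast
  ring

end Pool.Agent.PP.C2.H39
end
end -- Pool.Agent.Helper39_C2.YQV

section -- Pool.Agent.Helper56_C2.REC

/-!
# Squad C2, row REC: the chains by the smallest nontrivial member
-/

open scoped BigOperators

set_option linter.unusedSectionVars false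

noncomputable section

namespace Pool.Agent.PP.C2.H56

open Pool.Agent.Helper51_AWC Pool.Agent.Helper79_WRA Pool.Agent.PP Pool.Agent.PP.KF
open Pool.Agent.PP.K9 Pool.Agent.PP.K9.H35 Pool.Agent.PP.K9.H56

attribute [local instance] Ideal.Quotient.field

section chains

variable {G : Type} [Group G] [Finite G] {ℓ : ℕ}

/-- `Q` is the smallest nontrivial member of `d` -/
def MM (Q : Subgroup G) (d : Finset (Subgroup G)) : Prop :=
  Q ∈ d ∧ Q ≠ ⊥ ∧ ∀ D ∈ d, D ≠ ⊥ → Q ≤ D

theorem MM.unique {Q Q' : Subgroup G} {d : Finset (Subgroup G)} (h : MM Q d) (h' : MM Q' d) :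
    Q = Q' := le_antisymm (h.2.2 _ h'.1 h'.2.1) (h'.2.2 _ h.1 h.2.1)

open Classical in
theorem MM.ex {d : Finset (Subgroup G)} (h : CH ℓ d) (hd : d ≠ {⊥}) : ∃ Q, MM Q d := by
  have hne : (d.erase ⊥).Nonempty := by
    by_contra h0
    rw [Finset.not_nonempty_iff_eq_empty] at h0
    apply hd
    rw [← Finset.insert_erase h.bot, h0]
    rfl
  obtain ⟨Q, hQ, hm⟩ := Finset.exists_min_image (d.erase ⊥) (fun D => Nat.card D) hne
  have hQ1 := Finset.mem_erase.1 hQ
  refine ⟨Q, hQ1.2, hQ1.1, ?_⟩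
  intro D hD hD1
  rcases chain_total h.ch hQ1.2 hD with h1 | h1
  · exact h1
  · exact (Subgroup.eq_of_le_of_card_ge h1 (hm D (Finset.mem_erase.2 ⟨hD1, hD⟩))).symm.le

end chains

section fib

variable {F : Type} [Field F] {G A : Type} [Group G] [Finite G] [Group A] [Finite A] {ℓ : ℕ}

theorem up_mono {N : Subgroup G} (p : N →* A) {D D' : Subgroup A} (h : D ≤ D') :
    up p D ≤ up p D' := Subgroup.map_mono (Subgroup.comap_mono h)

/-- the image in the quotient -/
def dn {N : Subgroup G} (p : N →* A) (W : Subgroup G) : Subgroup A := (W.subgroupOf N).map p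

theorem dn_mono {N : Subgroup G} (p : N →* A) {D D' : Subgroup G} (h : D ≤ D') :
    dn p D ≤ dn p D' := Subgroup.map_mono (Subgroup.comap_mono h)

theorem dn_up {N : Subgroup G} {p : N →* A} (hp : Function.Surjective p) (D : Subgroup A) :
    dn p (up p D) = D := by
  rw [dn, up_subgroupOf, Subgroup.map_comap_eq_self_of_surjective hp]

variable {Q : Subgroup G} {p : Subgroup.normalizer (Q : Set G) →* A}

theorem up_dn (hk : p.ker = Q.subgroupOf (Subgroup.normalizer (Q : Set G))) {W : Subgroup G}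
    (h : Q ≤ W) (hn : W ≤ Subgroup.normalizer (Q : Set G)) : up p (dn p W) = W := by
  rw [up, dn, Subgroup.comap_map_eq_self, Subgroup.subgroupOf_map_subtype, inf_eq_left.2 hn]
  rw [hk]
  exact Subgroup.comap_mono h

theorem up_bot (hk : p.ker = Q.subgroupOf (Subgroup.normalizer (Q : Set G))) : up p ⊥ = Q := by
  rw [up, MonoidHom.comap_bot, hk, Subgroup.subgroupOf_map_subtype,
    inf_eq_left.2 Subgroup.le_normalizer]

theorem dn_bot (hk : p.ker = Q.subgroupOf (Subgroup.normalizer (Q : Set G))) : dn p Q = ⊥ := by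
  rw [dn, ← hk, Subgroup.map_eq_bot_iff]

open Classical in
theorem stab_up (hp : Function.Surjective p)
    (hk : p.ker = Q.subgroupOf (Subgroup.normalizer (Q : Set G))) {d : Finset (Subgroup A)}
    (hd : ⊥ ∈ d) : stab (insert ⊥ (d.image (up p))) = up p (stab d) := by
  ext x
  rw [H94.mem_stab', mem_up]
  constructor
  · intro h
    have hx : x ∈ Subgroup.normalizer (Q : Set G) := by
      have := h (up p ⊥) (Finset.mem_insert_of_mem (Finset.mem_image_of_mem _ hd))
      rwa [up_bot hk] at this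
    refine ⟨hx, ?_⟩
    rw [H94.mem_stab']
    intro D hD
    have h1 : x ∈ up p (Subgroup.normalizer (D : Set A)) := by
      rw [up_norm hp]
      exact ⟨hx, h _ (Finset.mem_insert_of_mem (Finset.mem_image_of_mem _ hD))⟩
    exact (mem_up.1 h1).2
  · rintro ⟨hx, h⟩ D hD
    rcases Finset.mem_insert.1 hD with rfl | hD
    · rw [norm_bot]
      exact Subgroup.mem_top x
    · obtain ⟨D, hD0, rfl⟩ := Finset.mem_image.1 hD
      have h1 : x ∈ up p (Subgroup.normalizer (D : Set A)) :=
        mem_up.2 ⟨hx, H94.mem_stab'.1 h D hD0⟩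
      rw [up_norm hp] at h1
      exact h1.2

open Classical in
/-- the chains with the smallest nontrivial member `Q` -/
theorem fib (hF : GoodF ℓ F) (hQ : IsPGroup ℓ Q) (hQ1 : Q ≠ ⊥) (hp : Function.Surjective p)
    (hk : p.ker = Q.subgroupOf (Subgroup.normalizer (Q : Set G))) {e : G → F} (he : IsIdem e) :
    ∑ d ∈ ((chainsOn (psubIn ℓ (⊤ : Subgroup G)) ⊥).filter NormalChain).filter (MM Q),
      (-1 : ℤ) ^ (d.card + 1) * ((Nat.card (stab d) : ℤ) * (lnum (stab d) e : ℤ)) =
    -((Nat.card Q : ℤ) *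
      YY ℓ ⊤ (PP.H75.push p (fun t : Subgroup.normalizer (Q : Set G) => br Q e t))) := by
  have hℓ : Fact ℓ.Prime := ⟨hF.prime⟩
  have hkc : Nat.card p.ker = Nat.card Q := by
    rw [hk]
    exact Nat.card_congr (Subgroup.subgroupOfEquivOfLe Subgroup.le_normalizer).toEquiv
  have hkp : IsPGroup ℓ p.ker := by
    rw [hk]
    exact hQ.comap_subtype
  obtain ⟨f', hf'⟩ : ∃ f' : A → F,
      f' = PP.H75.push p (fun t : Subgroup.normalizer (Q : Set G) => br Q e t) := ⟨_, rfl⟩
  have hYY : YY ℓ ⊤ f' = ∑ d ∈ (chainsOn (psubIn ℓ (⊤ : Subgroup A)) ⊥).filter NormalChain,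
      (-1 : ℤ) ^ (d.card + 1) * ((Nat.card (stab d) : ℤ) * (lnum (stab d) f' : ℤ)) :=
    H94.nch ℓ A ⊤ (fun X _ => (Nat.card X : ℤ) * (lnum X f' : ℤ))
  rw [← hf', hYY, Finset.mul_sum, ← Finset.sum_neg_distrib]
  have hQup : ∀ D : Subgroup A, Q ≤ up p D := by
    intro D
    conv_lhs => rw [← up_bot hk]
    exact up_mono p bot_le
  have hupne : ∀ D : Subgroup A, up p D ≠ ⊥ := by
    intro D h
    apply hQ1
    rw [eq_bot_iff, ← h]
    exact hQup D
  have hnot : ∀ d : Finset (Subgroup A), (⊥ : Subgroup G) ∉ d.image (up p) := by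
    intro d h
    obtain ⟨D, _, hD⟩ := Finset.mem_image.1 h
    exact hupne D hD
  have hupinj : Function.Injective (up p) := fun D D' h => by
    rw [← dn_up hp D, h, dn_up hp]
  symm
  refine Finset.sum_nbij' (fun d => insert ⊥ (d.image (up p)))
    (fun d => (d.erase ⊥).image (dn p)) ?_ ?_ ?_ ?_ ?_
  · intro d hd
    have h := mem_iff.1 hd
    have htop : top (insert ⊥ (d.image (up p))) = up p (top d) := by
      refine top_of (Finset.mem_insert_of_mem (Finset.mem_image_of_mem _ h.top.1)) ?_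
      intro D hD
      rcases Finset.mem_insert.1 hD with rfl | hD
      · exact bot_le
      · obtain ⟨D, hD0, rfl⟩ := Finset.mem_image.1 hD
        exact up_mono p (h.top.2 D hD0)
    refine Finset.mem_filter.2 ⟨mem_iff.2 ⟨?_, Finset.mem_insert_self _ _, ?_, ?_⟩, ?_, hQ1, ?_⟩
    · intro D hD
      rcases Finset.mem_insert.1 hD with rfl | hD
      · exact IsPGroup.of_bot
      · obtain ⟨D, hD0, rfl⟩ := Finset.mem_image.1 hD
        exact ((PP.H75.isPGroup_comap_iff hp hkp D).2 (h.pg D hD0)).map _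
    · rw [Finset.coe_insert, Finset.coe_image]
      refine IsChain.insert ?_ ?_
      · rintro _ ⟨D, hD, rfl⟩ _ ⟨D', hD', rfl⟩ _
        rcases chain_total h.ch hD hD' with h1 | h1
        · exact Or.inl (up_mono p h1)
        · exact Or.inr (up_mono p h1)
      · intro D _ _
        exact Or.inl bot_le
    · intro D hD
      rw [htop]
      rcases Finset.mem_insert.1 hD with rfl | hD
      · rw [norm_bot]
        exact le_top
      · obtain ⟨D, hD0, rfl⟩ := Finset.mem_image.1 hD
        have h1 := up_mono p (h.nc D hD0)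
        rw [up_norm hp] at h1
        exact h1.trans inf_le_right
    · refine Finset.mem_insert_of_mem (Finset.mem_image.2 ⟨⊥, h.bot, up_bot hk⟩)
    · intro D hD hD1
      rcases Finset.mem_insert.1 hD with rfl | hD
      · exact absurd rfl hD1
      · obtain ⟨D, hD0, rfl⟩ := Finset.mem_image.1 hD
        exact hQup D
  · intro d hd
    obtain ⟨hd1, hm1, hm2, hm3⟩ := Finset.mem_filter.1 hd
    have h := mem_iff.1 hd1
    have hnQ : top d ≤ Subgroup.normalizer (Q : Set G) := h.nc Q hm1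
    have hQt : Q ≤ top d := h.top.2 Q hm1
    have htne : top d ≠ ⊥ := by
      intro h0
      rw [h0, le_bot_iff] at hQt
      exact hQ1 hQt
    have htop : top ((d.erase ⊥).image (dn p)) = dn p (top d) := by
      refine top_of (Finset.mem_image_of_mem _ (Finset.mem_erase.2 ⟨htne, h.top.1⟩)) ?_
      intro D hD
      obtain ⟨D, hD0, rfl⟩ := Finset.mem_image.1 hD
      exact dn_mono p (h.top.2 D (Finset.mem_of_mem_erase hD0))
    refine mem_iff.2 ⟨?_, ?_, ?_, ?_⟩
    · intro D hD
      obtain ⟨D, hD0, rfl⟩ := Finset.mem_image.1 hD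
      exact ((h.pg D (Finset.mem_of_mem_erase hD0)).comap_subtype).map _
    · exact Finset.mem_image.2 ⟨Q, Finset.mem_erase.2 ⟨hQ1, hm1⟩, dn_bot hk⟩
    · rw [Finset.coe_image]
      rintro _ ⟨D, hD, rfl⟩ _ ⟨D', hD', rfl⟩ _
      rcases chain_total h.ch (Finset.mem_of_mem_erase hD) (Finset.mem_of_mem_erase hD') with h1 | h1
      · exact Or.inl (dn_mono p h1)
      · exact Or.inr (dn_mono p h1)
    · intro D hD
      rw [htop]
      obtain ⟨D, hD0, rfl⟩ := Finset.mem_image.1 hD
      obtain ⟨hD1, hDd⟩ := Finset.mem_erase.1 hD0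
      have hQD : Q ≤ D := hm3 D hDd hD1
      have hDn : D ≤ Subgroup.normalizer (Q : Set G) := (h.top.2 D hDd).trans hnQ
      have e1 : up p (dn p D) = D := up_dn hk hQD hDn
      rintro _ ⟨x, hx, rfl⟩
      have h1 : (x : G) ∈ up p (Subgroup.normalizer (dn p D : Set A)) := by
        rw [up_norm hp, e1]
        exact ⟨x.2, h.nc D hDd hx⟩
      exact (mem_up.1 h1).2
  · intro d hd
    change ((insert ⊥ (d.image (up p))).erase ⊥).image (dn p) = d
    rw [Finset.erase_insert (hnot d), Finset.image_image]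
    have e1 : dn p ∘ up p = id := funext fun D => dn_up hp D
    rw [e1, Finset.image_id]
  · intro d hd
    obtain ⟨hd1, hm1, hm2, hm3⟩ := Finset.mem_filter.1 hd
    have h := mem_iff.1 hd1
    have hnQ : top d ≤ Subgroup.normalizer (Q : Set G) := h.nc Q hm1
    change insert ⊥ (((d.erase ⊥).image (dn p)).image (up p)) = d
    rw [Finset.image_image]
    have e1 : (d.erase ⊥).image (up p ∘ dn p) = (d.erase ⊥).image id := by
      refine Finset.image_congr ?_
      intro D hD
      obtain ⟨hD1, hDd⟩ := Finset.mem_erase.1 hD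
      exact up_dn hk (hm3 D hDd hD1) ((h.top.2 D hDd).trans hnQ)
    rw [e1, Finset.image_id, Finset.insert_erase h.bot]
  · intro d hd
    have h := mem_iff.1 hd
    have hst := stab_up hp hk h.bot
    have h1 : Q ≤ up p (stab d) := hQup _
    have h2 : up p (stab d) ≤ Subgroup.normalizer (Q : Set G) := up_le p _
    rw [hst, card_up hp, hkc, (K9.H75.lbr ℓ F hF G e he Q (up p (stab d)) hQ h1 h2).1,
      lnum_up hF hp hkp, ← hf', Finset.card_insert_of_notMem (hnot d),
      Finset.card_image_of_injective _ hupinj]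
    push_cast
    ring

end fib

theorem rec_ : RecStmt := by
  classical
  intro ℓ _ F _ hF G _ _ e he
  have hfin : Fintype (Subgroup G) := Fintype.ofFinite _
  obtain ⟨f, hf⟩ : ∃ f : Finset (Subgroup G) → ℤ, f = fun d => (-1 : ℤ) ^ (d.card + 1) *
    ((Nat.card (stab d) : ℤ) * (lnum (stab d) e : ℤ)) := ⟨_, rfl⟩
  obtain ⟨S, hS⟩ : ∃ S : Finset (Finset (Subgroup G)),
      S = (chainsOn (psubIn ℓ (⊤ : Subgroup G)) ⊥).filter NormalChain := ⟨_, rfl⟩
  have hmem : ∀ d, d ∈ S ↔ CH ℓ d := fun d => by rw [hS]; exact mem_iff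
  have hYY : YY ℓ ⊤ e = ∑ d ∈ S, f d := by
    rw [hS, hf]
    exact H94.nch ℓ G ⊤ (fun X _ => (Nat.card X : ℤ) * (lnum X e : ℤ))
  have v0 : f {⊥} = (Nat.card G : ℤ) * lnum (⊤ : Subgroup G) e := by
    rw [hf]
    simp only [stab_bot, Finset.card_singleton]
    rw [Nat.card_congr (Subgroup.topEquiv (G := G)).toEquiv]
    norm_num
  have hbot : ({⊥} : Finset (Subgroup G)) ∈ S := (hmem _).2 ch_bot
  let m : Finset (Subgroup G) → Subgroup G := fun d => if h : ∃ Q, MM Q d then h.choose else ⊥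
  have hm : ∀ d ∈ S.erase {⊥}, MM (m d) d := by
    intro d hd
    obtain ⟨h1, h2⟩ := Finset.mem_erase.1 hd
    have h3 := MM.ex ((hmem d).1 h2) h1
    simp only [m]
    rw [dif_pos h3]
    exact h3.choose_spec
  have hmp : ∀ d ∈ S.erase {⊥}, m d ∈ Finset.univ.filter
      (fun Q : Subgroup G => IsPGroup ℓ Q ∧ Q ≠ ⊥) := by
    intro d hd
    have h1 := hm d hd
    exact Finset.mem_filter.2 ⟨Finset.mem_univ _,
      ((hmem d).1 (Finset.mem_of_mem_erase hd)).pg _ h1.1, h1.2.1⟩
  rw [hYY, ← Finset.add_sum_erase S f hbot, v0, ← Finset.sum_fiberwise_of_maps_to hmp,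
    finsum_eq_sum_of_fintype]
  simp only [finsum_eq_if]
  rw [← Finset.sum_filter, sub_eq_add_neg, ← Finset.sum_neg_distrib]
  congr 1
  refine Finset.sum_congr rfl fun Q hQ => ?_
  obtain ⟨-, hQp, hQ1⟩ := Finset.mem_filter.1 hQ
  have hk : (QuotientGroup.mk' (Q.subgroupOf (Subgroup.normalizer (Q : Set G)))).ker =
      Q.subgroupOf (Subgroup.normalizer (Q : Set G)) := QuotientGroup.ker_mk' _
  have h1 := fib hF hQp hQ1 (QuotientGroup.mk'_surjective _) hk he
  rw [yq, ← h1, ← hS]
  have h2 : (S.erase {⊥}).filter (fun d => m d = Q) = S.filter (MM Q) := by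
    ext d
    rw [Finset.mem_filter, Finset.mem_filter, Finset.mem_erase]
    constructor
    · rintro ⟨⟨h2, h3⟩, h4⟩
      refine ⟨h3, ?_⟩
      have := hm d (Finset.mem_erase.2 ⟨h2, h3⟩)
      rwa [h4] at this
    · rintro ⟨h3, h4⟩
      have h5 : d ≠ {⊥} := by
        rintro rfl
        exact h4.2.1 (Finset.mem_singleton.1 h4.1)
      exact ⟨⟨h5, h3⟩, (hm d (Finset.mem_erase.2 ⟨h5, h3⟩)).unique h4⟩
  rw [h2]
  refine Finset.sum_congr rfl fun d _ => ?_
  rw [hf]

end Pool.Agent.PP.C2.H56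
end
end -- Pool.Agent.Helper56_C2.REC
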