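import Pool.Agent.Helper12_AWB.B209
import Pool.Agent.Helper12_AWB.B253

/-!
# Merged copies (generated) of the modules

* `Pool.Agent.Helper28_AT3.REC`
* `Pool.Agent.Helper23_AT2.TES`
* `Pool.Agent.Helper53_AT8.TS8`
* `Pool.Agent.Helper23_AT5.TS5`
* `Pool.Agent.Helper31_ASD.L4D`
* `Pool.Agent.Helper4_ASE.KAE`
-/

set_option autoImplicit false

section -- Pool.Agent.Helper28_AT3.REC

/-!
# Squad AT3, row REC: the recursion for the alternating sum
-/

open scoped BigOperators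

set_option linter.unusedSectionVars false

noncomputable section

namespace Pool.Agent.PP.T3.H28

open Pool.Agent.Helper51_AWC Pool.Agent.Helper79_WRA Pool.Agent.PP Pool.Agent.PP.KF
open Pool.Agent.PP.K9 Pool.Agent.PP.K9.H97 Pool.Agent.PP.H75
open Pool.Agent.PP.H94

/-! ### preimages of subgroups (as in `Helper35_K9.CHQ`) -/

section up0

variable {F : Type} [Field F] {G A : Type} [Group G] [Finite G] [Group A] [Finite A]
  {N : Subgroup G}

/-- the preimage in `G` -/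
def up (p : N →* A) (T : Subgroup A) : Subgroup G := (T.comap p).map N.subtype

theorem mem_up {p : N →* A} {T : Subgroup A} {x : G} :
    x ∈ up p T ↔ ∃ h : x ∈ N, p ⟨x, h⟩ ∈ T := by
  constructor
  · rintro ⟨y, hy, rfl⟩
    exact ⟨y.2, hy⟩
  · rintro ⟨h, hx⟩
    exact ⟨⟨x, h⟩, hx, rfl⟩

theorem card_up {p : N →* A} (hp : Function.Surjective p) (T : Subgroup A) :
    Nat.card (up p T) = Nat.card p.ker * Nat.card T := by
  rw [up, Subgroup.card_map_of_injective N.subtype_injective, PP.H75.card_comap hp]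

theorem up_le (p : N →* A) (T : Subgroup A) : up p T ≤ N := by
  rintro _ ⟨y, _, rfl⟩
  exact y.2

theorem up_subgroupOf (p : N →* A) (T : Subgroup A) : (up p T).subgroupOf N = T.comap p :=
  Subgroup.comap_map_eq_self_of_injective N.subtype_injective _

theorem mem_norm_sub {X V : Subgroup G} (hV : V ≤ X) (x : X) :
    x ∈ Subgroup.normalizer ((V.subgroupOf X : Subgroup X) : Set X) ↔
      (x : G) ∈ Subgroup.normalizer (V : Set G) := by
  rw [Subgroup.mem_normalizer_iff, Subgroup.mem_normalizer_iff]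
  constructor
  · intro h y
    constructor
    · intro hy
      have h1 := (h ⟨y, hV hy⟩).1 (Subgroup.mem_subgroupOf.2 hy)
      exact Subgroup.mem_subgroupOf.1 h1
    · intro hy
      have h0 : y ∈ X := by
        have h2 := mul_mem (mul_mem (inv_mem x.2) (hV hy)) x.2
        have h3 : (x : G)⁻¹ * ((x : G) * y * (x : G)⁻¹) * (x : G) = y := by group
        rwa [h3] at h2
      have h1 := (h ⟨y, h0⟩).2 (Subgroup.mem_subgroupOf.2 hy)
      exact Subgroup.mem_subgroupOf.1 h1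
  · intro h y
    rw [Subgroup.mem_subgroupOf, Subgroup.mem_subgroupOf]
    exact h (y : G)

theorem up_norm {p : N →* A} (hp : Function.Surjective p) (T : Subgroup A) :
    up p (Subgroup.normalizer (T : Set A)) = N ⊓ Subgroup.normalizer ((up p T : Subgroup G) : Set G) := by
  ext x
  rw [mem_up, Subgroup.mem_inf]
  constructor
  · rintro ⟨h, hx⟩
    refine ⟨h, ?_⟩
    rw [← PP.H75.normalizer_comap hp T ⟨x, h⟩, ← up_subgroupOf] at hx
    exact (mem_norm_sub (up_le p T) ⟨x, h⟩).1 hx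
  · rintro ⟨h, hx⟩
    refine ⟨h, ?_⟩
    rw [← PP.H75.normalizer_comap hp T ⟨x, h⟩, ← up_subgroupOf]
    exact (mem_norm_sub (up_le p T) ⟨x, h⟩).2 hx

theorem lnum_up {ℓ : ℕ} (hF : GoodF ℓ F) {p : N →* A} (hp : Function.Surjective p)
    (hk : IsPGroup ℓ p.ker) (T : Subgroup A) (a : G → F) :
    lnum (up p T) a = lnum T (PP.H75.push p (fun t : N => a t)) := by
  rw [up, PP.H75.lnum_map _ N.subtype_injective, ← PP.H75.lnum_comap H20.nls hF hp hk]
  rfl

end up0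

section up

variable {F : Type} [Field F] {G A : Type} [Group G] [Finite G] [Group A] [Finite A]
  {Q : Subgroup G} {p : Subgroup.normalizer (Q : Set G) →* A}

theorem up_mono (p : Subgroup.normalizer (Q : Set G) →* A) {S T : Subgroup A} (h : S ≤ T) :
    up p S ≤ up p T := by
  intro x hx
  obtain ⟨a, b⟩ := mem_up.1 hx
  exact mem_up.2 ⟨a, h b⟩

theorem up_le_iff (hp : Function.Surjective p) {S T : Subgroup A} :
    up p S ≤ up p T ↔ S ≤ T := by
  refine ⟨fun h a ha => ?_, up_mono p⟩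
  obtain ⟨x, rfl⟩ := hp a
  obtain ⟨h1, h2⟩ := mem_up.1 (h (mem_up.2 ⟨x.2, ha⟩))
  exact h2

theorem up_inj (hp : Function.Surjective p) : Function.Injective (up p) := fun S T h =>
  le_antisymm ((up_le_iff hp).1 h.le) ((up_le_iff hp).1 h.ge)

theorem up_bot (hk : p.ker = Q.subgroupOf (Subgroup.normalizer (Q : Set G))) :
    up p ⊥ = Q := by
  ext x
  rw [mem_up]
  constructor
  · rintro ⟨h, hx⟩
    rw [Subgroup.mem_bot, ← MonoidHom.mem_ker, hk] at hx
    exact hx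
  · intro hx
    refine ⟨Subgroup.le_normalizer hx, ?_⟩
    rw [Subgroup.mem_bot, ← MonoidHom.mem_ker, hk]
    exact hx

theorem le_up (hk : p.ker = Q.subgroupOf (Subgroup.normalizer (Q : Set G))) (T : Subgroup A) :
    Q ≤ up p T := by
  have h := up_mono p (bot_le : (⊥ : Subgroup A) ≤ T)
  rwa [up_bot hk] at h

theorem up_down (hp : Function.Surjective p)
    (hk : p.ker = Q.subgroupOf (Subgroup.normalizer (Q : Set G))) {W : Subgroup G} (hQW : Q ≤ W)
    (hW : W ≤ Subgroup.normalizer (Q : Set G)) :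
    up p ((W.subgroupOf (Subgroup.normalizer (Q : Set G))).map p) = W := by
  have hcm : ((W.subgroupOf (Subgroup.normalizer (Q : Set G))).map p).comap p =
        W.subgroupOf (Subgroup.normalizer (Q : Set G)) := by
    apply Subgroup.comap_map_eq_self
    rw [hk]
    intro x hx
    exact hQW hx
  rw [up, hcm, Subgroup.subgroupOf_map_subtype, inf_eq_left.2 hW]

theorem isPGroup_up {ℓ : ℕ} [Fact ℓ.Prime] (hp : Function.Surjective p) (hkp : IsPGroup ℓ p.ker)
    (T : Subgroup A) : IsPGroup ℓ (up p T) ↔ IsPGroup ℓ T := by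
  rw [← PP.H75.isPGroup_comap_iff hp hkp T]
  constructor
  · intro h
    have h1 : IsPGroup ℓ ((up p T).subgroupOf (Subgroup.normalizer (Q : Set G))) :=
      h.comap_of_injective _ (Subgroup.subtype_injective _)
    rwa [up_subgroupOf] at h1
  · intro h
    exact h.map _

open Classical in
/-- the preimage of a chain -/
def lift (p : Subgroup.normalizer (Q : Set G) →* A) (d : Finset (Subgroup A)) :
    Finset (Subgroup G) := insert ⊥ (d.image (up p))

theorem mem_lift {d : Finset (Subgroup A)} {D : Subgroup G} :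
    D ∈ lift p d ↔ D = ⊥ ∨ ∃ T ∈ d, up p T = D := by
  classical
  rw [lift, Finset.mem_insert, Finset.mem_image]

theorem bot_notMem (hQ : Q ≠ ⊥) (hk : p.ker = Q.subgroupOf (Subgroup.normalizer (Q : Set G)))
    (d : Finset (Subgroup A)) : ¬ ∃ T ∈ d, up p T = ⊥ := by
  rintro ⟨T, _, h⟩
  exact hQ (le_bot_iff.1 (h ▸ le_up hk T))

theorem card_lift (hQ : Q ≠ ⊥) (hp : Function.Surjective p)
    (hk : p.ker = Q.subgroupOf (Subgroup.normalizer (Q : Set G))) (d : Finset (Subgroup A)) :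
    (lift p d).card = d.card + 1 := by
  classical
  rw [lift, Finset.card_insert_of_notMem, Finset.card_image_of_injective _ (up_inj hp)]
  rw [Finset.mem_image]
  exact bot_notMem hQ hk d

theorem lift_inj (hQ : Q ≠ ⊥) (hp : Function.Surjective p)
    (hk : p.ker = Q.subgroupOf (Subgroup.normalizer (Q : Set G))) {d d' : Finset (Subgroup A)}
    (h : lift p d = lift p d') : d = d' := by
  have key : ∀ {d d' : Finset (Subgroup A)}, lift p d = lift p d' → d ⊆ d' := by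
    intro d d' h T hT
    have h1 : up p T ∈ lift p d' := by
      rw [← h]
      exact mem_lift.2 (Or.inr ⟨T, hT, rfl⟩)
    rcases mem_lift.1 h1 with h2 | ⟨T', hT', h2⟩
    · exact absurd ⟨T, hT, h2⟩ (bot_notMem hQ hk d)
    · rwa [← up_inj hp h2]
  exact Finset.Subset.antisymm (key h) (key h.symm)

theorem stab_lift (hp : Function.Surjective p)
    (hk : p.ker = Q.subgroupOf (Subgroup.normalizer (Q : Set G))) {d : Finset (Subgroup A)}
    (hd : ⊥ ∈ d) : stab (lift p d) = up p (stab d) := by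
  ext x
  rw [mem_stab', mem_up]
  constructor
  · intro h
    have hx : x ∈ Subgroup.normalizer (Q : Set G) := by
      have := h (up p ⊥) (mem_lift.2 (Or.inr ⟨⊥, hd, rfl⟩))
      rwa [up_bot hk] at this
    refine ⟨hx, ?_⟩
    rw [mem_stab']
    intro T hT
    have h1 : x ∈ up p (Subgroup.normalizer (T : Set A)) := by
      rw [up_norm hp]
      exact ⟨hx, h _ (mem_lift.2 (Or.inr ⟨T, hT, rfl⟩))⟩
    exact (mem_up.1 h1).2
  · rintro ⟨hx, h⟩ D hD
    rw [mem_stab'] at h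
    rcases mem_lift.1 hD with rfl | ⟨T, hT, rfl⟩
    · rw [Subgroup.mem_normalizer_iff]
      intro y
      rw [Subgroup.mem_bot, Subgroup.mem_bot]
      constructor
      · rintro rfl
        group
      · intro h1
        have h2 : x * y = x := by rw [← mul_inv_eq_one, h1]
        exact mul_eq_left.1 h2
    · have h1 : x ∈ up p (Subgroup.normalizer (T : Set A)) := mem_up.2 ⟨hx, h T hT⟩
      rw [up_norm hp] at h1
      exact h1.2

theorem top_lift {d : Finset (Subgroup A)} (hd : IsChain (· ≤ ·) (d : Set (Subgroup A)))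
    (hb : ⊥ ∈ d) : top (lift p d) = up p (top d) := by
  obtain ⟨h1, h2⟩ := top_mem hd ⟨_, hb⟩
  refine le_antisymm (sSup_le fun D hD => ?_) (le_sSup (mem_lift.2 (Or.inr ⟨_, h1, rfl⟩)))
  rcases mem_lift.1 hD with rfl | ⟨T, hT, rfl⟩
  · exact bot_le
  · exact up_mono p (h2 T hT)

theorem chain_lift (hp : Function.Surjective p) {d : Finset (Subgroup A)} :
    IsChain (· ≤ ·) (lift p d : Set (Subgroup G)) ↔ IsChain (· ≤ ·) (d : Set (Subgroup A)) := by
  constructor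
  · intro h S hS T hT hne
    have h1 := h (mem_lift.2 (Or.inr ⟨S, hS, rfl⟩)) (mem_lift.2 (Or.inr ⟨T, hT, rfl⟩))
      (fun h' => hne (up_inj hp h'))
    exact h1.imp (up_le_iff hp).1 (up_le_iff hp).1
  · intro h S hS T hT _
    rcases mem_lift.1 hS with rfl | ⟨S', hS', rfl⟩
    · exact Or.inl bot_le
    rcases mem_lift.1 hT with rfl | ⟨T', hT', rfl⟩
    · exact Or.inr bot_le
    exact (chain_total h hS' hT').imp (up_mono p) (up_mono p)

theorem norm_lift (hp : Function.Surjective p) {d : Finset (Subgroup A)}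
    (hd : IsChain (· ≤ ·) (d : Set (Subgroup A))) (hb : ⊥ ∈ d) :
    NormalChain (lift p d) ↔ NormalChain d := by
  unfold NormalChain
  rw [top_lift hd hb]
  constructor
  · intro h T hT
    rw [← up_le_iff hp, up_norm hp]
    exact le_inf (up_le _ _) (h _ (mem_lift.2 (Or.inr ⟨T, hT, rfl⟩)))
  · intro h D hD
    rcases mem_lift.1 hD with rfl | ⟨T, hT, rfl⟩
    · intro x _
      rw [Subgroup.mem_normalizer_iff]
      intro y
      rw [Subgroup.mem_bot, Subgroup.mem_bot]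
      constructor
      · rintro rfl
        group
      · intro h1
        have h2 : x * y = x := by rw [← mul_inv_eq_one, h1]
        exact mul_eq_left.1 h2
    · have h1 := up_mono p (h T hT)
      rw [up_norm hp] at h1
      exact h1.trans inf_le_right

end up

section second

variable {G : Type} [Group G]

/-- `Q` is the smallest nontrivial member of `d`. -/
def Sec (d : Finset (Subgroup G)) (Q : Subgroup G) : Prop :=
  Q ∈ d ∧ Q ≠ ⊥ ∧ ∀ D ∈ d, D ≠ ⊥ → Q ≤ D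

theorem Sec.unique {d : Finset (Subgroup G)} {Q R : Subgroup G} (h : Sec d Q) (h' : Sec d R) :
    Q = R := le_antisymm (h.2.2 R h'.1 h'.2.1) (h'.2.2 Q h.1 h.2.1)

theorem exists_sec {d : Finset (Subgroup G)} (hd : IsChain (· ≤ ·) (d : Set (Subgroup G)))
    (hb : ⊥ ∈ d) (hne : d ≠ {⊥}) : ∃ Q, Sec d Q := by
  classical
  have h1 : (d.erase ⊥).Nonempty := by
    by_contra h
    rw [Finset.not_nonempty_iff_eq_empty] at h
    apply hne
    rw [← Finset.insert_erase hb, h]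
    rfl
  obtain ⟨Q, hQ, hmin⟩ := exists_least (d := d.erase ⊥)
    (hd.mono (fun y hy => Finset.mem_of_mem_erase hy)) h1
  rw [Finset.mem_erase] at hQ
  exact ⟨Q, hQ.2, hQ.1, fun D hD h => hmin D (Finset.mem_erase.2 ⟨h, hD⟩)⟩

end second

section main

variable {F : Type} [Field F] {G A : Type} [Group G] [Finite G] [Group A] [Finite A]

open Classical in
theorem inner {ℓ : ℕ} [Fact ℓ.Prime] (hF : GoodF ℓ F) {e : G → F} (he : IsIdem e)
    {Q : Subgroup G} (hQp : IsPGroup ℓ Q) (hQ : Q ≠ ⊥)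
    {p : Subgroup.normalizer (Q : Set G) →* A} (hp : Function.Surjective p)
    (hk : p.ker = Q.subgroupOf (Subgroup.normalizer (Q : Set G))) :
    ∑ d ∈ ((chainsOn (psubIn ℓ (⊤ : Subgroup G)) ⊥).filter NormalChain).filter (fun d => Sec d Q),
      (-1) ^ (d.card + 1) * ((Nat.card (stab d) : ℤ) * (lnum (stab d) e : ℤ)) =
    - ((Nat.card Q : ℤ) * YY ℓ (⊤ : Subgroup A)
      (push p (fun t : Subgroup.normalizer (Q : Set G) => br Q e t))) := by
  have hkc : Nat.card p.ker = Nat.card Q := by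
    rw [hk]
    exact Nat.card_congr (Subgroup.subgroupOfEquivOfLe Subgroup.le_normalizer).toEquiv
  have hkp : IsPGroup ℓ p.ker := by
    obtain ⟨k, hk'⟩ := IsPGroup.iff_card.1 hQp
    exact IsPGroup.of_card (hkc.trans hk')
  obtain ⟨f', hf'⟩ : ∃ f' : A → F,
      f' = push p (fun t : Subgroup.normalizer (Q : Set G) => br Q e t) := ⟨_, rfl⟩
  rw [← hf']
  unfold YY
  rw [nch ℓ A ⊤ (fun S _ => (Nat.card S : ℤ) * (lnum S f' : ℤ)), Finset.mul_sum,
    ← Finset.sum_neg_distrib]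
  symm
  refine Finset.sum_bij (fun d _ => lift p d) ?_ ?_ ?_ ?_
  · intro d hd
    obtain ⟨h1, h2⟩ := Finset.mem_filter.1 hd
    obtain ⟨h3, h4, h5⟩ := mem_chainsOn.1 h1
    refine Finset.mem_filter.2 ⟨Finset.mem_filter.2 ⟨mem_chainsOn.2 ⟨?_, ?_, ?_⟩, ?_⟩, ?_⟩
    · intro D hD
      refine mem_psubIn.2 ⟨le_top, ?_⟩
      rcases mem_lift.1 hD with rfl | ⟨T, hT, rfl⟩
      · exact IsPGroup.of_bot
      · exact (isPGroup_up hp hkp T).2 (mem_psubIn.1 (h3 hT)).2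
    · exact mem_lift.2 (Or.inl rfl)
    · exact (chain_lift hp).2 h5
    · exact (norm_lift hp h5 h4).2 h2
    · refine ⟨mem_lift.2 (Or.inr ⟨⊥, h4, up_bot hk⟩), hQ, ?_⟩
      intro D hD hne
      rcases mem_lift.1 hD with rfl | ⟨T, hT, rfl⟩
      · exact absurd rfl hne
      · exact le_up hk T
  · intro d _ d' _ h
    exact lift_inj hQ hp hk h
  · intro d hd
    obtain ⟨h0, hsec⟩ := Finset.mem_filter.1 hd
    obtain ⟨h1, h2⟩ := Finset.mem_filter.1 h0
    obtain ⟨h3, h4, h5⟩ := mem_chainsOn.1 h1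
    have htop := (top_mem h5 ⟨_, h4⟩).2
    have hN : ∀ D ∈ d, D ≤ Subgroup.normalizer (Q : Set G) := fun D hD =>
      (htop D hD).trans (h2 Q hsec.1)
    obtain ⟨d', hd'⟩ : ∃ d' : Finset (Subgroup A), d' = (d.erase ⊥).image
        (fun W => (W.subgroupOf (Subgroup.normalizer (Q : Set G))).map p) := ⟨_, rfl⟩
    have hmem : ∀ T : Subgroup A, T ∈ d' ↔ up p T ∈ d := by
      intro T
      rw [hd', Finset.mem_image]
      constructor
      · rintro ⟨W, hW, rfl⟩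
        rw [Finset.mem_erase] at hW
        rw [up_down hp hk (hsec.2.2 W hW.2 hW.1) (hN W hW.2)]
        exact hW.2
      · intro h
        refine ⟨up p T, Finset.mem_erase.2 ⟨?_, h⟩, ?_⟩
        · intro h'
          exact hQ (le_bot_iff.1 (h' ▸ le_up hk T))
        · rw [up_subgroupOf, Subgroup.map_comap_eq_self_of_surjective hp]
    have hl : lift p d' = d := by
      ext D
      rw [mem_lift]
      constructor
      · rintro (rfl | ⟨T, hT, rfl⟩)
        · exact h4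
        · exact (hmem T).1 hT
      · intro hD
        by_cases hb : D = ⊥
        · exact Or.inl hb
        · refine Or.inr ⟨(D.subgroupOf (Subgroup.normalizer (Q : Set G))).map p, ?_,
            up_down hp hk (hsec.2.2 D hD hb) (hN D hD)⟩
          rw [hmem, up_down hp hk (hsec.2.2 D hD hb) (hN D hD)]
          exact hD
    have hb : ⊥ ∈ d' := by
      rw [hmem, up_bot hk]
      exact hsec.1
    have hc : IsChain (· ≤ ·) (d' : Set (Subgroup A)) := by
      rw [← chain_lift hp, hl]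
      exact h5
    refine ⟨d', Finset.mem_filter.2 ⟨mem_chainsOn.2 ⟨?_, hb, hc⟩, ?_⟩, hl⟩
    · intro T hT
      refine mem_psubIn.2 ⟨le_top, ?_⟩
      exact (isPGroup_up hp hkp T).1 (mem_psubIn.1 (h3 ((hmem T).1 hT))).2
    · rw [← norm_lift hp hc hb, hl]
      exact h2
  · intro d hd
    obtain ⟨h1, h2⟩ := Finset.mem_filter.1 hd
    obtain ⟨h3, h4, h5⟩ := mem_chainsOn.1 h1
    have e1 := stab_lift hp hk h4
    have e2 : lnum (stab (lift p d)) e = lnum (stab d) f' := by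
      rw [(H75.lbr ℓ F hF G e he Q (stab (lift p d)) hQp (e1 ▸ le_up hk _)
        (e1 ▸ up_le p _)).1, e1, lnum_up hF hp hkp, hf']
    have e3 : Nat.card (stab (lift p d)) = Nat.card Q * Nat.card (stab d) := by
      rw [e1, card_up hp, hkc]
    rw [e2, e3, card_lift hQ hp hk]
    push_cast
    ring

end main

/-- REC -/
theorem rec_ : RecStmt := by
  classical
  intro ℓ hℓ F _ hF G _ _ e he
  have hfinG : Fintype (Subgroup G) := Fintype.ofFinite _
  have hYY : YY ℓ ⊤ e = ∑ d ∈ (chainsOn (psubIn ℓ (⊤ : Subgroup G)) ⊥).filter NormalChain,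
      (-1) ^ (d.card + 1) * ((Nat.card (stab d) : ℤ) * (lnum (stab d) e : ℤ)) := by
    unfold YY
    exact nch ℓ G ⊤ (fun S _ => (Nat.card S : ℤ) * (lnum S e : ℤ))
  have hst : stab ({⊥} : Finset (Subgroup G)) = ⊤ := by
    rw [eq_top_iff]
    intro x _
    rw [mem_stab']
    intro D hD
    rw [Finset.mem_singleton.1 hD, Subgroup.mem_normalizer_iff]
    intro y
    rw [Subgroup.mem_bot, Subgroup.mem_bot]
    constructor
    · rintro rfl
      group
    · intro h1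
      have h2 : x * y = x := by rw [← mul_inv_eq_one, h1]
      exact mul_eq_left.1 h2
  have hbot : ({⊥} : Finset (Subgroup G)) ∈
      (chainsOn (psubIn ℓ (⊤ : Subgroup G)) ⊥).filter NormalChain := by
    refine Finset.mem_filter.2 ⟨mem_chainsOn.2 ⟨?_, Finset.mem_singleton_self _, ?_⟩, ?_⟩
    · intro D hD
      rw [Finset.mem_singleton.1 hD]
      exact mem_psubIn.2 ⟨le_top, IsPGroup.of_bot⟩
    · rw [Finset.coe_singleton]
      exact Set.subsingleton_singleton.isChain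
    · intro D hD
      have h1 : (⊤ : Subgroup G) ≤ Subgroup.normalizer (D : Set G) := by
        rw [← hst]
        intro x hx
        exact mem_stab'.1 hx D hD
      exact le_top.trans h1
  have hR : ∑ᶠ (Q : Subgroup G) (_ : IsPGroup ℓ Q ∧ Q ≠ ⊥), (Nat.card Q : ℤ) * YQ ℓ e Q =
      ∑ Q : Subgroup G, if IsPGroup ℓ Q ∧ Q ≠ ⊥ then (Nat.card Q : ℤ) * YQ ℓ e Q else 0 := by
    rw [finsum_eq_sum_of_fintype]
    exact Finset.sum_congr rfl fun Q _ => finsum_eq_if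
  rw [hYY, ← Finset.add_sum_erase _ _ hbot, hR, hst, Finset.card_singleton, sub_eq_add_neg,
    Subgroup.card_top, ← Finset.sum_neg_distrib]
  have e1 : ((-1 : ℤ)) ^ (1 + 1) = 1 := by norm_num
  rw [e1, one_mul]
  refine congrArg (fun t : ℤ => (Nat.card G : ℤ) * (lnum (⊤ : Subgroup G) e : ℤ) + t) ?_
  have e2 : ∀ d ∈ ((chainsOn (psubIn ℓ (⊤ : Subgroup G)) ⊥).filter NormalChain).erase {⊥},
      (-1) ^ (d.card + 1) * ((Nat.card (stab d) : ℤ) * (lnum (stab d) e : ℤ)) =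
      ∑ Q : Subgroup G, if Sec d Q then
        (-1) ^ (d.card + 1) * ((Nat.card (stab d) : ℤ) * (lnum (stab d) e : ℤ)) else 0 := by
    intro d hd
    rw [Finset.mem_erase, Finset.mem_filter, mem_chainsOn] at hd
    obtain ⟨Q, hQ⟩ := exists_sec hd.2.1.2.2 hd.2.1.2.1 hd.1
    rw [Finset.sum_eq_single Q]
    · rw [if_pos hQ]
    · intro R _ hR
      rw [if_neg]
      intro h
      exact hR (h.unique hQ)
    · intro h
      exact absurd (Finset.mem_univ Q) h
  rw [Finset.sum_congr rfl e2, Finset.sum_comm]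
  refine Finset.sum_congr rfl fun Q _ => ?_
  rw [← Finset.sum_filter]
  by_cases hQ : IsPGroup ℓ Q ∧ Q ≠ ⊥
  · rw [if_pos hQ]
    have h1 := inner hF he hQ.1 hQ.2 (QuotientGroup.mk'_surjective
      (Q.subgroupOf (Subgroup.normalizer (Q : Set G)))) (QuotientGroup.ker_mk' _)
    rw [YQ, ← h1]
    refine Finset.sum_congr ?_ fun _ _ => rfl
    ext d
    rw [Finset.mem_filter, Finset.mem_filter, Finset.mem_erase]
    constructor
    · rintro ⟨⟨_, h2⟩, h3⟩
      exact ⟨h2, h3⟩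
    · rintro ⟨h2, h3⟩
      refine ⟨⟨?_, h2⟩, h3⟩
      rintro rfl
      exact h3.2.1 (Finset.mem_singleton.1 h3.1)
  · rw [if_neg hQ, neg_zero]
    refine Finset.sum_eq_zero fun d hd => ?_
    exfalso
    rw [Finset.mem_filter, Finset.mem_erase, Finset.mem_filter, mem_chainsOn] at hd
    exact hQ ⟨(mem_psubIn.1 (hd.1.2.1.1 hd.2.1)).2, hd.2.2.1⟩

end Pool.Agent.PP.T3.H28
end
end -- Pool.Agent.Helper28_AT3.REC

section -- Pool.Agent.Helper23_AT2.TES

/-!
# Squad AT2, row TES: the telescoping sum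
-/

open scoped BigOperators

noncomputable section

namespace Pool.Agent.PP.T2.H23

open Pool.Agent.Helper51_AWC Pool.Agent.Helper79_WRA Pool.Agent.PP Pool.Agent.PP.KF
open Pool.Agent.PP.K9 Pool.Agent.PP.K9.H97 Pool.Agent.PP.H75 Pool.Agent.PP.T3

attribute [local instance] Ideal.Quotient.field

section gen

variable {G : Type} [Group G]

theorem mem_conj {g x : G} {P : Subgroup G} : x ∈ conjS g P ↔ g⁻¹ * x * g ∈ P := by
  constructor
  · rintro ⟨y, hy, rfl⟩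
    have h : g⁻¹ * ((MulAut.conj g).toMonoidHom y) * g = y := by
      change g⁻¹ * (g * y * g⁻¹) * g = y
      group
    rw [h]
    exact hy
  · intro h
    refine ⟨g⁻¹ * x * g, h, ?_⟩
    change g * (g⁻¹ * x * g) * g⁻¹ = x
    group

theorem card_conj (g : G) (P : Subgroup G) : Nat.card (conjS g P) = Nat.card P :=
  Subgroup.card_map_of_injective (MulAut.conj g).injective

theorem ln_eq {F : Type} [Field F] [Finite G] (e : G → F) :
    lnum (⊤ : Subgroup G) e = ln e := by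
  rw [PP.H75.lnum_eq]
  exact PP.H75.cnt_equiv Subgroup.topEquiv e

theorem isPGroup_iff_card' [Finite G] {ℓ : ℕ} [Fact ℓ.Prime] {P Q : Subgroup G}
    (h : Nat.card P = Nat.card Q) (hP : IsPGroup ℓ P) : IsPGroup ℓ Q := by
  obtain ⟨n, hn⟩ := (IsPGroup.iff_card (p := ℓ) (G := P)).1 hP
  exact (IsPGroup.iff_card (p := ℓ) (G := Q)).2 ⟨n, by rw [← h, hn]⟩

/-- the inverse map: the subgroup `Q'` of `X`, conjugated -/
def push' (X : Subgroup G) (q : G) (Q' : Subgroup X) : Subgroup G := conjS q (Q'.map X.subtype)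

theorem mem_push' {X : Subgroup G} {q : G} {Q' : Subgroup X} {x : G} :
    x ∈ push' X q Q' ↔ ∃ h : q⁻¹ * x * q ∈ X, (⟨q⁻¹ * x * q, h⟩ : X) ∈ Q' := by
  unfold push'
  rw [mem_conj]
  constructor
  · rintro ⟨y, hy, h⟩
    have h1 : q⁻¹ * x * q ∈ X := by rw [← h]; exact y.2
    refine ⟨h1, ?_⟩
    have h2 : (⟨q⁻¹ * x * q, h1⟩ : X) = y := Subtype.ext h.symm
    rw [h2]
    exact hy
  · rintro ⟨h, hx⟩
    exact ⟨_, hx, rfl⟩

end gen

theorem tes (pwu : PwuStmt) (tea : TeaStmt) (teb : TebStmt) (tex : TexStmt) : TesStmt := by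
  classical
  intro ℓ _ M _ hM G _ _ e V γ hL a ha hex U hU f hf hI
  have hℓ : ℓ.Prime := Fact.out
  have hF : GoodF ℓ (FF M) := H50.fld ℓ hℓ M hM
  obtain ⟨-, hUV, hNN, hCC, -, -, -, hlast⟩ := pwu G (ℓ ^ (a - 1)) V hL.ab
  obtain ⟨hUne, -⟩ := hlast ℓ a ha hex rfl
  rw [← hU] at hUV hNN hCC hUne
  have hUp : IsPGroup ℓ U := hL.tp.pg.to_le hUV
  obtain ⟨X, hX⟩ : ∃ X : Subgroup G, X = Subgroup.normalizer (U : Set G) := ⟨_, rfl⟩
  have hUX : U ≤ X := hX ▸ Subgroup.le_normalizer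
  have hCX : Subgroup.centralizer (U : Set G) ≤ X := by
    rw [hX]
    exact Subgroup.centralizer_le_normalizer _
  have hidf : IsIdem (fun t : X => f t) := by
    subst hX
    exact hf.blk.blk.1
  -- the alternating sum of `X`
  have hYX : YY ℓ (⊤ : Subgroup X) (fun t : X => f t) = 0 := by
    refine H96.yzr ℓ (FF M) hℓ X ⊤ inferInstance (fun h0 => ?_) _
    let W : Subgroup (⊤ : Subgroup X) := (U.subgroupOf X).subgroupOf ⊤
    have hWn : (U.subgroupOf X).Normal := by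
      subst hX
      exact (Subgroup.normal_subgroupOf_iff_le_normalizer Subgroup.le_normalizer).2 le_rfl
    have hW1 : W.Normal := hWn.subgroupOf ⊤
    have hW2 : IsPGroup ℓ W := by
      have h1 : IsPGroup ℓ (U.subgroupOf X) :=
        hUp.comap_of_injective X.subtype X.subtype_injective
      exact h1.comap_of_injective (⊤ : Subgroup X).subtype (Subgroup.subtype_injective _)
    have hW3 : W ≤ opCore ℓ (⊤ : Subgroup X) := le_sSup ⟨hW1, hW2⟩
    rw [h0, le_bot_iff] at hW3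
    apply hUne
    rw [eq_bot_iff]
    intro u hu
    have h2 : (⟨⟨u, hUX hu⟩, Subgroup.mem_top _⟩ : (⊤ : Subgroup X)) ∈ W := hu
    rw [hW3, Subgroup.mem_bot] at h2
    exact congrArg (fun z : (⊤ : Subgroup X) => ((z : X) : G)) h2
  -- recursion for `X`
  have := Fintype.ofFinite (Subgroup G)
  have := Fintype.ofFinite (Subgroup X)
  have := Fintype.ofFinite (G ⧸ X)
  obtain ⟨y, hy⟩ : ∃ y : Subgroup X → ℤ, y = fun Q => YQ ℓ (fun t : X => f t) Q := ⟨_, rfl⟩
  obtain ⟨B, hB⟩ : ∃ B : Finset (Subgroup X), B = Finset.univ.filter (fun Q : Subgroup X =>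
      (IsPGroup ℓ Q ∧ Q ≠ ⊥) ∧ (U.subgroupOf X ≤ Q ∧
        Q ≤ (Subgroup.centralizer (U : Set G)).subgroupOf X)) := ⟨_, rfl⟩
  have hRX : ∑ Q ∈ B, (Nat.card Q : ℤ) * y Q =
      (Nat.card X : ℤ) * (ln (fun t : X => f t) : ℤ) := by
    have h1 := T3.H28.rec_ ℓ (FF M) hF X (fun t : X => f t) hidf
    rw [hYX, ln_eq] at h1
    have h2 : (∑ᶠ (Q : Subgroup X) (_ : IsPGroup ℓ Q ∧ Q ≠ ⊥),
        (Nat.card Q : ℤ) * YQ ℓ (fun t : X => f t) Q) = ∑ Q ∈ B, (Nat.card Q : ℤ) * y Q := by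
      rw [finsum_eq_sum_of_fintype, hB, Finset.sum_filter]
      refine Finset.sum_congr rfl fun Q _ => ?_
      rw [finsum_eq_if]
      by_cases hQ : IsPGroup ℓ Q ∧ Q ≠ ⊥
      · rw [if_pos hQ]
        by_cases hQ2 : U.subgroupOf X ≤ Q ∧ Q ≤ (Subgroup.centralizer (U : Set G)).subgroupOf X
        · rw [if_pos ⟨hQ, hQ2⟩, hy]
        · rw [if_neg (fun h => hQ2 h.2)]
          have h3 : YQ ℓ (fun t : X => f t) Q = 0 := by
            subst hX
            exact tex ℓ M hM G e V γ hL a ha hex U hU f hf hI Q hQ.1 hQ.2 hQ2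
          rw [h3, mul_zero]
      · rw [if_neg hQ, if_neg (fun h => hQ h.1)]
    rw [h2] at h1
    linarith
  -- recursion for `G`
  have hRG : YY ℓ ⊤ e = (Nat.card G : ℤ) * (ln e : ℤ) -
      ∑ q : G ⧸ X, ∑ Q ∈ Finset.univ.filter (fun Q : Subgroup G => (IsPGroup ℓ Q ∧ Q ≠ ⊥) ∧
        Bt U Q q.out), (Nat.card Q : ℤ) * y ((conjS q.out⁻¹ Q).subgroupOf X) := by
    have h1 := T3.H28.rec_ ℓ (FF M) hF G e hL.blk.1
    rw [ln_eq] at h1
    rw [h1]
    congr 1
    rw [finsum_eq_sum_of_fintype]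
    simp only [Finset.sum_filter]
    rw [Finset.sum_comm]
    refine Finset.sum_congr rfl fun Q _ => ?_
    rw [finsum_eq_if]
    by_cases hQ : IsPGroup ℓ Q ∧ Q ≠ ⊥
    · rw [if_pos hQ]
      have h2 : YQ ℓ e Q = ∑ q : G ⧸ X, if Bt U Q q.out then
          y ((conjS q.out⁻¹ Q).subgroupOf X) else 0 := by
        subst hX
        rw [tea ℓ M hM G e V γ hL a ha hex f (by rw [← hU]; exact hf) hI Q hQ.1 hQ.2, ← hU,
          teb ℓ M hM G e V γ hL (ℓ ^ (a - 1)) U hU f hf Q hQ.1, finsum_eq_sum_of_fintype]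
        refine Finset.sum_congr rfl fun q _ => ?_
        rw [finsum_eq_if, hy]
      rw [h2, Finset.mul_sum]
      refine Finset.sum_congr rfl fun q _ => ?_
      by_cases hB1 : Bt U Q q.out
      · rw [if_pos hB1, if_pos ⟨hQ, hB1⟩]
      · rw [if_neg hB1, if_neg (fun h => hB1 h.2), mul_zero]
    · rw [if_neg hQ]
      symm
      refine Finset.sum_eq_zero fun q _ => ?_
      rw [if_neg (fun h => hQ h.1)]
  -- the bijection
  have hbij : ∀ q : G ⧸ X, ∑ Q ∈ Finset.univ.filter (fun Q : Subgroup G =>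
      (IsPGroup ℓ Q ∧ Q ≠ ⊥) ∧ Bt U Q q.out),
        (Nat.card Q : ℤ) * y ((conjS q.out⁻¹ Q).subgroupOf X) =
      ∑ Q ∈ B, (Nat.card Q : ℤ) * y Q := by
    intro q
    obtain ⟨g, hg⟩ : ∃ g : G, g = q.out := ⟨_, rfl⟩
    rw [← hg]
    -- `conjS g⁻¹ Q ≤ C(U)`
    have hle : ∀ Q : Subgroup G, Bt U Q g → ∀ x ∈ conjS g⁻¹ Q,
        x ∈ Subgroup.centralizer (U : Set G) := by
      intro Q hQ x hx
      rw [mem_conj, inv_inv] at hx
      have h1 := Subgroup.mem_centralizer_iff.1 (hQ.2 hx)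
      rw [Subgroup.mem_centralizer_iff]
      intro u hu
      have h2 := h1 (g * u * g⁻¹) (by
        change g * u * g⁻¹ ∈ conjS g U
        rw [mem_conj]
        have h3 : g⁻¹ * (g * u * g⁻¹) * g = u := by group
        rw [h3]
        exact hu)
      have h4 : u * x = g⁻¹ * ((g * u * g⁻¹) * (g * x * g⁻¹)) * g := by group
      have h5 : x * u = g⁻¹ * ((g * x * g⁻¹) * (g * u * g⁻¹)) * g := by group
      rw [h4, h5, h2]
    have hcard : ∀ Q : Subgroup G, Bt U Q g →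
        Nat.card ((conjS g⁻¹ Q).subgroupOf X) = Nat.card Q := by
      intro Q hQ
      have h1 : conjS g⁻¹ Q ≤ X := fun x hx => hCX (hle Q hQ x hx)
      rw [← card_conj g⁻¹ Q]
      exact Nat.card_congr (Subgroup.subgroupOfEquivOfLe h1).toEquiv
    have hcard2 : ∀ Q' : Subgroup X, Nat.card (push' X g Q') = Nat.card Q' := by
      intro Q'
      unfold push'
      rw [card_conj, Subgroup.card_map_of_injective X.subtype_injective]
    have hinv1 : ∀ Q : Subgroup G, Bt U Q g → push' X g ((conjS g⁻¹ Q).subgroupOf X) = Q := by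
      intro Q hQ
      ext x
      rw [mem_push']
      constructor
      · rintro ⟨h, hx⟩
        rw [Subgroup.mem_subgroupOf] at hx
        change g⁻¹ * x * g ∈ conjS g⁻¹ Q at hx
        rw [mem_conj] at hx
        have h3 : g⁻¹⁻¹ * (g⁻¹ * x * g) * g⁻¹ = x := by group
        rwa [h3] at hx
      · intro hx
        have h1 : g⁻¹ * x * g ∈ conjS g⁻¹ Q := by
          rw [mem_conj]
          have h3 : g⁻¹⁻¹ * (g⁻¹ * x * g) * g⁻¹ = x := by group
          rwa [h3]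
        exact ⟨hCX (hle Q hQ _ h1), h1⟩
    have hinv2 : ∀ Q' : Subgroup X, (conjS g⁻¹ (push' X g Q')).subgroupOf X = Q' := by
      intro Q'
      ext x
      rw [Subgroup.mem_subgroupOf, mem_conj, mem_push']
      have h3 : g⁻¹ * (g⁻¹⁻¹ * (x : G) * g⁻¹) * g = x := by group
      constructor
      · rintro ⟨h, hx⟩
        have h4 : (⟨g⁻¹ * (g⁻¹⁻¹ * (x : G) * g⁻¹) * g, h⟩ : X) = x := Subtype.ext h3
        rwa [h4] at hx
      · intro hx
        have h5 : g⁻¹ * (g⁻¹⁻¹ * (x : G) * g⁻¹) * g ∈ X := by rw [h3]; exact x.2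
        refine ⟨h5, ?_⟩
        have h4 : (⟨g⁻¹ * (g⁻¹⁻¹ * (x : G) * g⁻¹) * g, h5⟩ : X) = x := Subtype.ext h3
        rw [h4]
        exact hx
    rw [hB]
    refine Finset.sum_nbij' (fun Q => (conjS g⁻¹ Q).subgroupOf X) (fun Q' => push' X g Q')
      ?_ ?_ ?_ ?_ ?_
    · intro Q hQ
      rw [Finset.mem_filter] at hQ ⊢
      obtain ⟨-, ⟨hQp, hQn⟩, hQB⟩ := hQ
      refine ⟨Finset.mem_univ _, ⟨?_, ?_⟩, ?_, ?_⟩
      · obtain ⟨n, hn⟩ := (IsPGroup.iff_card (p := ℓ) (G := Q)).1 hQp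
        exact (IsPGroup.iff_card (p := ℓ) (G := (conjS g⁻¹ Q).subgroupOf X)).2
          ⟨n, by rw [hcard Q hQB, hn]⟩
      · intro h0
        apply hQn
        rw [← Subgroup.card_eq_one, ← hcard Q hQB, h0, Subgroup.card_bot]
      · intro x hx
        rw [Subgroup.mem_subgroupOf] at hx ⊢
        rw [mem_conj]
        apply hQB.1
        rw [mem_conj]
        have h3 : g⁻¹ * (g⁻¹⁻¹ * (x : G) * g⁻¹) * g = x := by group
        rw [h3]
        exact hx
      · intro x hx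
        exact hle Q hQB _ hx
    · intro Q' hQ'
      rw [Finset.mem_filter] at hQ' ⊢
      obtain ⟨-, ⟨hQp, hQn⟩, hQ1, hQ2⟩ := hQ'
      refine ⟨Finset.mem_univ _, ⟨?_, ?_⟩, ?_, ?_⟩
      · obtain ⟨n, hn⟩ := (IsPGroup.iff_card (p := ℓ) (G := Q')).1 hQp
        exact (IsPGroup.iff_card (p := ℓ) (G := push' X g Q')).2 ⟨n, by rw [hcard2, hn]⟩
      · intro h0
        apply hQn
        rw [← Subgroup.card_eq_one, ← hcard2, h0, Subgroup.card_bot]
      · intro x hx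
        rw [mem_conj] at hx
        rw [mem_push']
        exact ⟨hUX hx, hQ1 hx⟩
      · intro x hx
        rw [mem_push'] at hx
        obtain ⟨h, hx⟩ := hx
        have h1 : g⁻¹ * x * g ∈ Subgroup.centralizer (U : Set G) := hQ2 hx
        rw [Subgroup.mem_centralizer_iff] at h1 ⊢
        intro w hw
        have h2 := h1 (g⁻¹ * w * g) (mem_conj.1 hw)
        have h4 : w * x = g * ((g⁻¹ * w * g) * (g⁻¹ * x * g)) * g⁻¹ := by group
        have h5 : x * w = g * ((g⁻¹ * x * g) * (g⁻¹ * w * g)) * g⁻¹ := by group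
        rw [h4, h5, h2]
    · intro Q hQ
      rw [Finset.mem_filter] at hQ
      exact hinv1 Q hQ.2.2
    · intro Q' _
      exact hinv2 Q'
    · intro Q hQ
      rw [Finset.mem_filter] at hQ
      rw [hcard Q hQ.2.2]
  have hfin : (Nat.card (G ⧸ X) : ℤ) * (Nat.card X : ℤ) = (Nat.card G : ℤ) := by
    rw [← Nat.cast_mul, ← Subgroup.card_eq_card_quotient_mul_card_subgroup]
  rw [hRG, Finset.sum_congr rfl (fun q _ => hbij q), hRX, Finset.sum_const, Finset.card_univ,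
    ← Nat.card_eq_fintype_card, nsmul_eq_mul, ← mul_assoc, hfin, ← mul_sub]
  subst hX
  rfl

end Pool.Agent.PP.T2.H23
end
end -- Pool.Agent.Helper23_AT2.TES

section -- Pool.Agent.Helper53_AT8.TS8

/-!
# Squad AT8, row TS8: the telescoping sum (adapted from `Helper23_AT2/TES`)
-/

set_option autoImplicit false

open scoped BigOperators

noncomputable section

namespace Pool.Agent.PP.T8.H53

open Pool.Agent.Helper51_AWC Pool.Agent.Helper79_WRA Pool.Agent.PP Pool.Agent.PP.KF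
open Pool.Agent.PP.K9 Pool.Agent.PP.K9.H97 Pool.Agent.PP.H75 Pool.Agent.PP.T3 Pool.Agent.PP.T2
open Pool.Agent.PP.T8 Pool.Agent.PP.T2.H23

attribute [local instance] Ideal.Quotient.field

/-- TS8 -/
theorem ts8 (pwu : PwuStmt) (tea : Te8Stmt) (teb : TebStmt) (tex : Tx8Stmt) : Ts8Stmt := by
  classical
  intro ℓ _ M _ hM G _ _ e V γ hL a ha hex U hU f hf hI
  have hℓ : ℓ.Prime := Fact.out
  have hF : GoodF ℓ (FF M) := H50.fld ℓ hℓ M hM
  obtain ⟨-, hUV, hNN, hCC, -, -, -, hlast⟩ := pwu G (ℓ ^ (a - 1)) V hL.ab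
  obtain ⟨hUne, -⟩ := hlast ℓ a ha hex rfl
  rw [← hU] at hUV hNN hCC hUne
  have hUp : IsPGroup ℓ U := hL.tp.pg.to_le hUV
  obtain ⟨X, hX⟩ : ∃ X : Subgroup G, X = Subgroup.normalizer (U : Set G) := ⟨_, rfl⟩
  have hUX : U ≤ X := hX ▸ Subgroup.le_normalizer
  have hCX : Subgroup.centralizer (U : Set G) ≤ X := by
    rw [hX]
    exact Subgroup.centralizer_le_normalizer _
  have hidf : IsIdem (fun t : X => f t) := by
    subst hX
    exact hf.blk.blk.1
  -- the alternating sum of `X`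
  have hYX : YY ℓ (⊤ : Subgroup X) (fun t : X => f t) = 0 := by
    refine H96.yzr ℓ (FF M) hℓ X ⊤ inferInstance (fun h0 => ?_) _
    let W : Subgroup (⊤ : Subgroup X) := (U.subgroupOf X).subgroupOf ⊤
    have hWn : (U.subgroupOf X).Normal := by
      subst hX
      exact (Subgroup.normal_subgroupOf_iff_le_normalizer Subgroup.le_normalizer).2 le_rfl
    have hW1 : W.Normal := hWn.subgroupOf ⊤
    have hW2 : IsPGroup ℓ W := by
      have h1 : IsPGroup ℓ (U.subgroupOf X) :=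
        hUp.comap_of_injective X.subtype X.subtype_injective
      exact h1.comap_of_injective (⊤ : Subgroup X).subtype (Subgroup.subtype_injective _)
    have hW3 : W ≤ opCore ℓ (⊤ : Subgroup X) := le_sSup ⟨hW1, hW2⟩
    rw [h0, le_bot_iff] at hW3
    apply hUne
    rw [eq_bot_iff]
    intro u hu
    have h2 : (⟨⟨u, hUX hu⟩, Subgroup.mem_top _⟩ : (⊤ : Subgroup X)) ∈ W := hu
    rw [hW3, Subgroup.mem_bot] at h2
    exact congrArg (fun z : (⊤ : Subgroup X) => ((z : X) : G)) h2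
  -- recursion for `X`
  have := Fintype.ofFinite (Subgroup G)
  have := Fintype.ofFinite (Subgroup X)
  have := Fintype.ofFinite (G ⧸ X)
  obtain ⟨y, hy⟩ : ∃ y : Subgroup X → ℤ, y = fun Q => YQ ℓ (fun t : X => f t) Q := ⟨_, rfl⟩
  obtain ⟨B, hB⟩ : ∃ B : Finset (Subgroup X), B = Finset.univ.filter (fun Q : Subgroup X =>
      (IsPGroup ℓ Q ∧ Q ≠ ⊥) ∧ (U.subgroupOf X ≤ Q ∧
        Q ≤ (Subgroup.centralizer (U : Set G)).subgroupOf X)) := ⟨_, rfl⟩
  have hRX : ∑ Q ∈ B, (Nat.card Q : ℤ) * y Q =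
      (Nat.card X : ℤ) * (ln (fun t : X => f t) : ℤ) := by
    have h1 := T3.H28.rec_ ℓ (FF M) hF X (fun t : X => f t) hidf
    rw [hYX, ln_eq] at h1
    have h2 : (∑ᶠ (Q : Subgroup X) (_ : IsPGroup ℓ Q ∧ Q ≠ ⊥),
        (Nat.card Q : ℤ) * YQ ℓ (fun t : X => f t) Q) = ∑ Q ∈ B, (Nat.card Q : ℤ) * y Q := by
      rw [finsum_eq_sum_of_fintype, hB, Finset.sum_filter]
      refine Finset.sum_congr rfl fun Q _ => ?_
      rw [finsum_eq_if]
      by_cases hQ : IsPGroup ℓ Q ∧ Q ≠ ⊥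
      · rw [if_pos hQ]
        by_cases hQ2 : U.subgroupOf X ≤ Q ∧ Q ≤ (Subgroup.centralizer (U : Set G)).subgroupOf X
        · rw [if_pos ⟨hQ, hQ2⟩, hy]
        · rw [if_neg (fun h => hQ2 h.2)]
          have h3 : YQ ℓ (fun t : X => f t) Q = 0 := by
            subst hX
            exact tex ℓ M hM G e V γ hL a ha hex U hU f hf hI Q hQ.1 hQ.2 hQ2
          rw [h3, mul_zero]
      · rw [if_neg hQ, if_neg (fun h => hQ h.1)]
    rw [h2] at h1
    linarith
  -- recursion for `G`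
  have hRG : YY ℓ ⊤ e = (Nat.card G : ℤ) * (ln e : ℤ) -
      ∑ q : G ⧸ X, ∑ Q ∈ Finset.univ.filter (fun Q : Subgroup G => (IsPGroup ℓ Q ∧ Q ≠ ⊥) ∧
        Bt U Q q.out), (Nat.card Q : ℤ) * y ((conjS q.out⁻¹ Q).subgroupOf X) := by
    have h1 := T3.H28.rec_ ℓ (FF M) hF G e hL.blk.1
    rw [ln_eq] at h1
    rw [h1]
    congr 1
    rw [finsum_eq_sum_of_fintype]
    simp only [Finset.sum_filter]
    rw [Finset.sum_comm]
    refine Finset.sum_congr rfl fun Q _ => ?_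
    rw [finsum_eq_if]
    by_cases hQ : IsPGroup ℓ Q ∧ Q ≠ ⊥
    · rw [if_pos hQ]
      have h2 : YQ ℓ e Q = ∑ q : G ⧸ X, if Bt U Q q.out then
          y ((conjS q.out⁻¹ Q).subgroupOf X) else 0 := by
        subst hX
        rw [tea ℓ M hM G e V γ hL a ha hex f (by rw [← hU]; exact hf) hI Q hQ.1 hQ.2, ← hU,
          teb ℓ M hM G e V γ hL (ℓ ^ (a - 1)) U hU f hf Q hQ.1, finsum_eq_sum_of_fintype]
        refine Finset.sum_congr rfl fun q _ => ?_
        rw [finsum_eq_if, hy]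
      rw [h2, Finset.mul_sum]
      refine Finset.sum_congr rfl fun q _ => ?_
      by_cases hB1 : Bt U Q q.out
      · rw [if_pos hB1, if_pos ⟨hQ, hB1⟩]
      · rw [if_neg hB1, if_neg (fun h => hB1 h.2), mul_zero]
    · rw [if_neg hQ]
      symm
      refine Finset.sum_eq_zero fun q _ => ?_
      rw [if_neg (fun h => hQ h.1)]
  -- the bijection
  have hbij : ∀ q : G ⧸ X, ∑ Q ∈ Finset.univ.filter (fun Q : Subgroup G =>
      (IsPGroup ℓ Q ∧ Q ≠ ⊥) ∧ Bt U Q q.out),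
        (Nat.card Q : ℤ) * y ((conjS q.out⁻¹ Q).subgroupOf X) =
      ∑ Q ∈ B, (Nat.card Q : ℤ) * y Q := by
    intro q
    obtain ⟨g, hg⟩ : ∃ g : G, g = q.out := ⟨_, rfl⟩
    rw [← hg]
    -- `conjS g⁻¹ Q ≤ C(U)`
    have hle : ∀ Q : Subgroup G, Bt U Q g → ∀ x ∈ conjS g⁻¹ Q,
        x ∈ Subgroup.centralizer (U : Set G) := by
      intro Q hQ x hx
      rw [mem_conj, inv_inv] at hx
      have h1 := Subgroup.mem_centralizer_iff.1 (hQ.2 hx)
      rw [Subgroup.mem_centralizer_iff]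
      intro u hu
      have h2 := h1 (g * u * g⁻¹) (by
        change g * u * g⁻¹ ∈ conjS g U
        rw [mem_conj]
        have h3 : g⁻¹ * (g * u * g⁻¹) * g = u := by group
        rw [h3]
        exact hu)
      have h4 : u * x = g⁻¹ * ((g * u * g⁻¹) * (g * x * g⁻¹)) * g := by group
      have h5 : x * u = g⁻¹ * ((g * x * g⁻¹) * (g * u * g⁻¹)) * g := by group
      rw [h4, h5, h2]
    have hcard : ∀ Q : Subgroup G, Bt U Q g →
        Nat.card ((conjS g⁻¹ Q).subgroupOf X) = Nat.card Q := by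
      intro Q hQ
      have h1 : conjS g⁻¹ Q ≤ X := fun x hx => hCX (hle Q hQ x hx)
      rw [← card_conj g⁻¹ Q]
      exact Nat.card_congr (Subgroup.subgroupOfEquivOfLe h1).toEquiv
    have hcard2 : ∀ Q' : Subgroup X, Nat.card (push' X g Q') = Nat.card Q' := by
      intro Q'
      unfold push'
      rw [card_conj, Subgroup.card_map_of_injective X.subtype_injective]
    have hinv1 : ∀ Q : Subgroup G, Bt U Q g → push' X g ((conjS g⁻¹ Q).subgroupOf X) = Q := by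
      intro Q hQ
      ext x
      rw [mem_push']
      constructor
      · rintro ⟨h, hx⟩
        rw [Subgroup.mem_subgroupOf] at hx
        change g⁻¹ * x * g ∈ conjS g⁻¹ Q at hx
        rw [mem_conj] at hx
        have h3 : g⁻¹⁻¹ * (g⁻¹ * x * g) * g⁻¹ = x := by group
        rwa [h3] at hx
      · intro hx
        have h1 : g⁻¹ * x * g ∈ conjS g⁻¹ Q := by
          rw [mem_conj]
          have h3 : g⁻¹⁻¹ * (g⁻¹ * x * g) * g⁻¹ = x := by group
          rwa [h3]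
        exact ⟨hCX (hle Q hQ _ h1), h1⟩
    have hinv2 : ∀ Q' : Subgroup X, (conjS g⁻¹ (push' X g Q')).subgroupOf X = Q' := by
      intro Q'
      ext x
      rw [Subgroup.mem_subgroupOf, mem_conj, mem_push']
      have h3 : g⁻¹ * (g⁻¹⁻¹ * (x : G) * g⁻¹) * g = x := by group
      constructor
      · rintro ⟨h, hx⟩
        have h4 : (⟨g⁻¹ * (g⁻¹⁻¹ * (x : G) * g⁻¹) * g, h⟩ : X) = x := Subtype.ext h3
        rwa [h4] at hx
      · intro hx
        have h5 : g⁻¹ * (g⁻¹⁻¹ * (x : G) * g⁻¹) * g ∈ X := by rw [h3]; exact x.2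
        refine ⟨h5, ?_⟩
        have h4 : (⟨g⁻¹ * (g⁻¹⁻¹ * (x : G) * g⁻¹) * g, h5⟩ : X) = x := Subtype.ext h3
        rw [h4]
        exact hx
    rw [hB]
    refine Finset.sum_nbij' (fun Q => (conjS g⁻¹ Q).subgroupOf X) (fun Q' => push' X g Q')
      ?_ ?_ ?_ ?_ ?_
    · intro Q hQ
      rw [Finset.mem_filter] at hQ ⊢
      obtain ⟨-, ⟨hQp, hQn⟩, hQB⟩ := hQ
      refine ⟨Finset.mem_univ _, ⟨?_, ?_⟩, ?_, ?_⟩
      · obtain ⟨n, hn⟩ := (IsPGroup.iff_card (p := ℓ) (G := Q)).1 hQp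
        exact (IsPGroup.iff_card (p := ℓ) (G := (conjS g⁻¹ Q).subgroupOf X)).2
          ⟨n, by rw [hcard Q hQB, hn]⟩
      · intro h0
        apply hQn
        rw [← Subgroup.card_eq_one, ← hcard Q hQB, h0, Subgroup.card_bot]
      · intro x hx
        rw [Subgroup.mem_subgroupOf] at hx ⊢
        rw [mem_conj]
        apply hQB.1
        rw [mem_conj]
        have h3 : g⁻¹ * (g⁻¹⁻¹ * (x : G) * g⁻¹) * g = x := by group
        rw [h3]
        exact hx
      · intro x hx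
        exact hle Q hQB _ hx
    · intro Q' hQ'
      rw [Finset.mem_filter] at hQ' ⊢
      obtain ⟨-, ⟨hQp, hQn⟩, hQ1, hQ2⟩ := hQ'
      refine ⟨Finset.mem_univ _, ⟨?_, ?_⟩, ?_, ?_⟩
      · obtain ⟨n, hn⟩ := (IsPGroup.iff_card (p := ℓ) (G := Q')).1 hQp
        exact (IsPGroup.iff_card (p := ℓ) (G := push' X g Q')).2 ⟨n, by rw [hcard2, hn]⟩
      · intro h0
        apply hQn
        rw [← Subgroup.card_eq_one, ← hcard2, h0, Subgroup.card_bot]
      · intro x hx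
        rw [mem_conj] at hx
        rw [mem_push']
        exact ⟨hUX hx, hQ1 hx⟩
      · intro x hx
        rw [mem_push'] at hx
        obtain ⟨h, hx⟩ := hx
        have h1 : g⁻¹ * x * g ∈ Subgroup.centralizer (U : Set G) := hQ2 hx
        rw [Subgroup.mem_centralizer_iff] at h1 ⊢
        intro w hw
        have h2 := h1 (g⁻¹ * w * g) (mem_conj.1 hw)
        have h4 : w * x = g * ((g⁻¹ * w * g) * (g⁻¹ * x * g)) * g⁻¹ := by group
        have h5 : x * w = g * ((g⁻¹ * x * g) * (g⁻¹ * w * g)) * g⁻¹ := by group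
        rw [h4, h5, h2]
    · intro Q hQ
      rw [Finset.mem_filter] at hQ
      exact hinv1 Q hQ.2.2
    · intro Q' _
      exact hinv2 Q'
    · intro Q hQ
      rw [Finset.mem_filter] at hQ
      rw [hcard Q hQ.2.2]
  have hfin : (Nat.card (G ⧸ X) : ℤ) * (Nat.card X : ℤ) = (Nat.card G : ℤ) := by
    rw [← Nat.cast_mul, ← Subgroup.card_eq_card_quotient_mul_card_subgroup]
  rw [hRG, Finset.sum_congr rfl (fun q _ => hbij q), hRX, Finset.sum_const, Finset.card_univ,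
    ← Nat.card_eq_fintype_card, nsmul_eq_mul, ← mul_assoc, hfin, ← mul_sub]
  subst hX
  rfl

end Pool.Agent.PP.T8.H53
end
end -- Pool.Agent.Helper53_AT8.TS8

section -- Pool.Agent.Helper23_AT5.TS5

/-!
# Squad AT5, row TS5: the telescoping sum
-/

open scoped BigOperators

noncomputable section

namespace Pool.Agent.PP.T5.H23

open Pool.Agent.Helper51_AWC Pool.Agent.Helper79_WRA Pool.Agent.PP Pool.Agent.PP.KF
open Pool.Agent.PP.K9 Pool.Agent.PP.K9.H97 Pool.Agent.PP.H75 Pool.Agent.PP.T3 Pool.Agent.PP.T2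
open Pool.Agent.PP.T2.H23

attribute [local instance] Ideal.Quotient.field

theorem ts5 (tb5 : Tb5Stmt) : Ts5Stmt := by
  classical
  intro ℓ _ F _ hF G _ _ e he U f hUp hUne hUo htea htex
  have hℓ : ℓ.Prime := Fact.out
  obtain ⟨X, hX⟩ : ∃ X : Subgroup G, X = Subgroup.normalizer (U : Set G) := ⟨_, rfl⟩
  have hUX : U ≤ X := hX ▸ Subgroup.le_normalizer
  have hCX : Subgroup.centralizer (U : Set G) ≤ X := by
    rw [hX]
    exact Subgroup.centralizer_le_normalizer _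
  have hidf : IsIdem (fun t : X => f t) := by
    subst hX
    exact hUo.ix.idem
  -- the alternating sum of `X`
  have hYX : YY ℓ (⊤ : Subgroup X) (fun t : X => f t) = 0 := by
    refine H96.yzr ℓ F hℓ X ⊤ inferInstance (fun h0 => ?_) _
    let W : Subgroup (⊤ : Subgroup X) := (U.subgroupOf X).subgroupOf ⊤
    have hWn : (U.subgroupOf X).Normal := by
      subst hX
      exact (Subgroup.normal_subgroupOf_iff_le_normalizer Subgroup.le_normalizer).2 le_rfl
    have hW1 : W.Normal := hWn.subgroupOf ⊤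
    have hW2 : IsPGroup ℓ W := by
      have h1 : IsPGroup ℓ (U.subgroupOf X) :=
        hUp.comap_of_injective X.subtype X.subtype_injective
      exact h1.comap_of_injective (⊤ : Subgroup X).subtype (Subgroup.subtype_injective _)
    have hW3 : W ≤ opCore ℓ (⊤ : Subgroup X) := le_sSup ⟨hW1, hW2⟩
    rw [h0, le_bot_iff] at hW3
    apply hUne
    rw [eq_bot_iff]
    intro u hu
    have h2 : (⟨⟨u, hUX hu⟩, Subgroup.mem_top _⟩ : (⊤ : Subgroup X)) ∈ W := hu
    rw [hW3, Subgroup.mem_bot] at h2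
    exact congrArg (fun z : (⊤ : Subgroup X) => ((z : X) : G)) h2
  -- recursion for `X`
  have := Fintype.ofFinite (Subgroup G)
  have := Fintype.ofFinite (Subgroup X)
  have := Fintype.ofFinite (G ⧸ X)
  obtain ⟨y, hy⟩ : ∃ y : Subgroup X → ℤ, y = fun Q => YQ ℓ (fun t : X => f t) Q := ⟨_, rfl⟩
  obtain ⟨B, hB⟩ : ∃ B : Finset (Subgroup X), B = Finset.univ.filter (fun Q : Subgroup X =>
      (IsPGroup ℓ Q ∧ Q ≠ ⊥) ∧ (U.subgroupOf X ≤ Q ∧
        Q ≤ (Subgroup.centralizer (U : Set G)).subgroupOf X)) := ⟨_, rfl⟩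
  have hRX : ∑ Q ∈ B, (Nat.card Q : ℤ) * y Q =
      (Nat.card X : ℤ) * (ln (fun t : X => f t) : ℤ) := by
    have h1 := T3.H28.rec_ ℓ F hF X (fun t : X => f t) hidf
    rw [hYX, ln_eq] at h1
    have h2 : (∑ᶠ (Q : Subgroup X) (_ : IsPGroup ℓ Q ∧ Q ≠ ⊥),
        (Nat.card Q : ℤ) * YQ ℓ (fun t : X => f t) Q) = ∑ Q ∈ B, (Nat.card Q : ℤ) * y Q := by
      rw [finsum_eq_sum_of_fintype, hB, Finset.sum_filter]
      refine Finset.sum_congr rfl fun Q _ => ?_
      rw [finsum_eq_if]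
      by_cases hQ : IsPGroup ℓ Q ∧ Q ≠ ⊥
      · rw [if_pos hQ]
        by_cases hQ2 : U.subgroupOf X ≤ Q ∧ Q ≤ (Subgroup.centralizer (U : Set G)).subgroupOf X
        · rw [if_pos ⟨hQ, hQ2⟩, hy]
        · rw [if_neg (fun h => hQ2 h.2)]
          have h3 : YQ ℓ (fun t : X => f t) Q = 0 := by
            subst hX
            exact htex Q hQ.1 hQ.2 hQ2
          rw [h3, mul_zero]
      · rw [if_neg hQ, if_neg (fun h => hQ h.1)]
    rw [h2] at h1
    linarith
  -- recursion for `G`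
  have hRG : YY ℓ ⊤ e = (Nat.card G : ℤ) * (ln e : ℤ) -
      ∑ q : G ⧸ X, ∑ Q ∈ Finset.univ.filter (fun Q : Subgroup G => (IsPGroup ℓ Q ∧ Q ≠ ⊥) ∧
        Bt U Q q.out), (Nat.card Q : ℤ) * y ((conjS q.out⁻¹ Q).subgroupOf X) := by
    have h1 := T3.H28.rec_ ℓ F hF G e he
    rw [ln_eq] at h1
    rw [h1]
    congr 1
    rw [finsum_eq_sum_of_fintype]
    simp only [Finset.sum_filter]
    rw [Finset.sum_comm]
    refine Finset.sum_congr rfl fun Q _ => ?_
    rw [finsum_eq_if]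
    by_cases hQ : IsPGroup ℓ Q ∧ Q ≠ ⊥
    · rw [if_pos hQ]
      have h2 : YQ ℓ e Q = ∑ q : G ⧸ X, if Bt U Q q.out then
          y ((conjS q.out⁻¹ Q).subgroupOf X) else 0 := by
        subst hX
        rw [htea Q hQ.1 hQ.2, tb5 ℓ F hF G e he U f hUp hUo Q hQ.1, finsum_eq_sum_of_fintype]
        refine Finset.sum_congr rfl fun q _ => ?_
        rw [finsum_eq_if, hy]
      rw [h2, Finset.mul_sum]
      refine Finset.sum_congr rfl fun q _ => ?_
      by_cases hB1 : Bt U Q q.out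
      · rw [if_pos hB1, if_pos ⟨hQ, hB1⟩]
      · rw [if_neg hB1, if_neg (fun h => hB1 h.2), mul_zero]
    · rw [if_neg hQ]
      symm
      refine Finset.sum_eq_zero fun q _ => ?_
      rw [if_neg (fun h => hQ h.1)]
  -- the bijection
  have hbij : ∀ q : G ⧸ X, ∑ Q ∈ Finset.univ.filter (fun Q : Subgroup G =>
      (IsPGroup ℓ Q ∧ Q ≠ ⊥) ∧ Bt U Q q.out),
        (Nat.card Q : ℤ) * y ((conjS q.out⁻¹ Q).subgroupOf X) =
      ∑ Q ∈ B, (Nat.card Q : ℤ) * y Q := by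
    intro q
    obtain ⟨g, hg⟩ : ∃ g : G, g = q.out := ⟨_, rfl⟩
    rw [← hg]
    -- `conjS g⁻¹ Q ≤ C(U)`
    have hle : ∀ Q : Subgroup G, Bt U Q g → ∀ x ∈ conjS g⁻¹ Q,
        x ∈ Subgroup.centralizer (U : Set G) := by
      intro Q hQ x hx
      rw [mem_conj, inv_inv] at hx
      have h1 := Subgroup.mem_centralizer_iff.1 (hQ.2 hx)
      rw [Subgroup.mem_centralizer_iff]
      intro u hu
      have h2 := h1 (g * u * g⁻¹) (by
        change g * u * g⁻¹ ∈ conjS g U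
        rw [mem_conj]
        have h3 : g⁻¹ * (g * u * g⁻¹) * g = u := by group
        rw [h3]
        exact hu)
      have h4 : u * x = g⁻¹ * ((g * u * g⁻¹) * (g * x * g⁻¹)) * g := by group
      have h5 : x * u = g⁻¹ * ((g * x * g⁻¹) * (g * u * g⁻¹)) * g := by group
      rw [h4, h5, h2]
    have hcard : ∀ Q : Subgroup G, Bt U Q g →
        Nat.card ((conjS g⁻¹ Q).subgroupOf X) = Nat.card Q := by
      intro Q hQ
      have h1 : conjS g⁻¹ Q ≤ X := fun x hx => hCX (hle Q hQ x hx)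
      rw [← card_conj g⁻¹ Q]
      exact Nat.card_congr (Subgroup.subgroupOfEquivOfLe h1).toEquiv
    have hcard2 : ∀ Q' : Subgroup X, Nat.card (push' X g Q') = Nat.card Q' := by
      intro Q'
      unfold push'
      rw [card_conj, Subgroup.card_map_of_injective X.subtype_injective]
    have hinv1 : ∀ Q : Subgroup G, Bt U Q g → push' X g ((conjS g⁻¹ Q).subgroupOf X) = Q := by
      intro Q hQ
      ext x
      rw [mem_push']
      constructor
      · rintro ⟨h, hx⟩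
        rw [Subgroup.mem_subgroupOf] at hx
        change g⁻¹ * x * g ∈ conjS g⁻¹ Q at hx
        rw [mem_conj] at hx
        have h3 : g⁻¹⁻¹ * (g⁻¹ * x * g) * g⁻¹ = x := by group
        rwa [h3] at hx
      · intro hx
        have h1 : g⁻¹ * x * g ∈ conjS g⁻¹ Q := by
          rw [mem_conj]
          have h3 : g⁻¹⁻¹ * (g⁻¹ * x * g) * g⁻¹ = x := by group
          rwa [h3]
        exact ⟨hCX (hle Q hQ _ h1), h1⟩
    have hinv2 : ∀ Q' : Subgroup X, (conjS g⁻¹ (push' X g Q')).subgroupOf X = Q' := by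
      intro Q'
      ext x
      rw [Subgroup.mem_subgroupOf, mem_conj, mem_push']
      have h3 : g⁻¹ * (g⁻¹⁻¹ * (x : G) * g⁻¹) * g = x := by group
      constructor
      · rintro ⟨h, hx⟩
        have h4 : (⟨g⁻¹ * (g⁻¹⁻¹ * (x : G) * g⁻¹) * g, h⟩ : X) = x := Subtype.ext h3
        rwa [h4] at hx
      · intro hx
        have h5 : g⁻¹ * (g⁻¹⁻¹ * (x : G) * g⁻¹) * g ∈ X := by rw [h3]; exact x.2
        refine ⟨h5, ?_⟩
        have h4 : (⟨g⁻¹ * (g⁻¹⁻¹ * (x : G) * g⁻¹) * g, h5⟩ : X) = x := Subtype.ext h3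
        rw [h4]
        exact hx
    rw [hB]
    refine Finset.sum_nbij' (fun Q => (conjS g⁻¹ Q).subgroupOf X) (fun Q' => push' X g Q')
      ?_ ?_ ?_ ?_ ?_
    · intro Q hQ
      rw [Finset.mem_filter] at hQ ⊢
      obtain ⟨-, ⟨hQp, hQn⟩, hQB⟩ := hQ
      refine ⟨Finset.mem_univ _, ⟨?_, ?_⟩, ?_, ?_⟩
      · obtain ⟨n, hn⟩ := (IsPGroup.iff_card (p := ℓ) (G := Q)).1 hQp
        exact (IsPGroup.iff_card (p := ℓ) (G := (conjS g⁻¹ Q).subgroupOf X)).2
          ⟨n, by rw [hcard Q hQB, hn]⟩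
      · intro h0
        apply hQn
        rw [← Subgroup.card_eq_one, ← hcard Q hQB, h0, Subgroup.card_bot]
      · intro x hx
        rw [Subgroup.mem_subgroupOf] at hx ⊢
        rw [mem_conj]
        apply hQB.1
        rw [mem_conj]
        have h3 : g⁻¹ * (g⁻¹⁻¹ * (x : G) * g⁻¹) * g = x := by group
        rw [h3]
        exact hx
      · intro x hx
        exact hle Q hQB _ hx
    · intro Q' hQ'
      rw [Finset.mem_filter] at hQ' ⊢
      obtain ⟨-, ⟨hQp, hQn⟩, hQ1, hQ2⟩ := hQ'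
      refine ⟨Finset.mem_univ _, ⟨?_, ?_⟩, ?_, ?_⟩
      · obtain ⟨n, hn⟩ := (IsPGroup.iff_card (p := ℓ) (G := Q')).1 hQp
        exact (IsPGroup.iff_card (p := ℓ) (G := push' X g Q')).2 ⟨n, by rw [hcard2, hn]⟩
      · intro h0
        apply hQn
        rw [← Subgroup.card_eq_one, ← hcard2, h0, Subgroup.card_bot]
      · intro x hx
        rw [mem_conj] at hx
        rw [mem_push']
        exact ⟨hUX hx, hQ1 hx⟩
      · intro x hx
        rw [mem_push'] at hx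
        obtain ⟨h, hx⟩ := hx
        have h1 : g⁻¹ * x * g ∈ Subgroup.centralizer (U : Set G) := hQ2 hx
        rw [Subgroup.mem_centralizer_iff] at h1 ⊢
        intro w hw
        have h2 := h1 (g⁻¹ * w * g) (mem_conj.1 hw)
        have h4 : w * x = g * ((g⁻¹ * w * g) * (g⁻¹ * x * g)) * g⁻¹ := by group
        have h5 : x * w = g * ((g⁻¹ * x * g) * (g⁻¹ * w * g)) * g⁻¹ := by group
        rw [h4, h5, h2]
    · intro Q hQ
      rw [Finset.mem_filter] at hQ
      exact hinv1 Q hQ.2.2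
    · intro Q' _
      exact hinv2 Q'
    · intro Q hQ
      rw [Finset.mem_filter] at hQ
      rw [hcard Q hQ.2.2]
  have hfin : (Nat.card (G ⧸ X) : ℤ) * (Nat.card X : ℤ) = (Nat.card G : ℤ) := by
    rw [← Nat.cast_mul, ← Subgroup.card_eq_card_quotient_mul_card_subgroup]
  rw [hRG, Finset.sum_congr rfl (fun q _ => hbij q), hRX, Finset.sum_const, Finset.card_univ,
    ← Nat.card_eq_fintype_card, nsmul_eq_mul, ← mul_assoc, hfin, ← mul_sub]
  subst hX
  rfl

end Pool.Agent.PP.T5.H23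
end
end -- Pool.Agent.Helper23_AT5.TS5

section -- Pool.Agent.Helper31_ASD.L4D

/-!
# Squad ASD, row L4D: the numbers of modular characters of four groups
-/

open scoped BigOperators

set_option autoImplicit false

noncomputable section

namespace Pool.Agent.PP.SD.H31

open Pool.Agent.Helper51_AWC Pool.Agent.Helper79_WRA Pool.Agent.PP Pool.Agent.PP.KF
open Pool.Agent.PP.K9 Pool.Agent.PP.K9.H97 Pool.Agent.PP.H75 Pool.Agent.PP.T3 Pool.Agent.PP.SO

attribute [local instance] Ideal.Quotient.field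

section gen

variable {V₀ G : Type} [CommGroup V₀] [Group G]

theorem es_one (E₀ : Subgroup (MulAut V₀)) : Nat.card (Es E₀ (1 : V₀)) = Nat.card E₀ := by
  have h : Es E₀ (1 : V₀) = E₀ := by
    ext σ
    constructor
    · intro hσ
      exact hσ.1
    · intro hσ
      exact ⟨hσ, map_one σ⟩
  rw [h]

theorem ln_top {F : Type} [Field F] [Finite G] (e b : G → F) (he : IsBlk e) (X : Subgroup G)
    (hX : X = ⊤) (hb : Bx X b) (hu : mulF (fun t : X => e t) (fun t : X => b t) =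
      fun t : X => b t) : ln (fun t : X => b t) = ln e := by
  subst hX
  have he' : IsBlk (fun t : (⊤ : Subgroup G) => e t) := H20.IsBlk_equiv Subgroup.topEquiv he
  have h1 : (fun t : (⊤ : Subgroup G) => b t) = fun t : (⊤ : Subgroup G) => e t := by
    rcases he'.2.2 _ hb.blk.1 with h | h
    · exact hu.symm.trans h
    · exact absurd (hu.symm.trans h) hb.blk.2.1
  rw [h1]
  exact T2.H23.ln_eq e

variable {ℓ : ℕ} {M : Ideal (integralClosure ℤ ℂ)} [M.IsMaximal]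

theorem c_bot {F : Type} (B : Bk F V₀ G) : B.C ⊥ = ⊤ := by
  unfold Bk.C
  rw [Subgroup.map_bot, eq_top_iff]
  intro x _
  rw [Subgroup.mem_centralizer_iff]
  intro y hy
  have : y = 1 := Subgroup.mem_bot.1 hy
  rw [this, one_mul, mul_one]

theorem ln_bot [Finite G] {E₀ : Subgroup (MulAut V₀)} {B : Bk (FF M) V₀ G} (hB : Sb ℓ M E₀ B) :
    ln (fun t : B.C ⊥ => B.b ⊥ t) = ln B.e :=
  ln_top B.e (B.b ⊥) hB.ld.blk (B.C ⊥) (c_bot B) (hB.lb ⊥).blk (hB.lb ⊥).und

end gen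

/-- L4D -/
theorem l4d (kld : KldStmt) (k4b : K4bStmt) (pch : PchStmt) (dix : DixStmt) : L4dStmt := by
  intro ℓ hℓ M _ hM hl2 V₀ _ _ E₀ A₁ A₂ hD G₀ G₁ G₂ G₃ _ _ _ _ _ _ _ _ B₀ B₁ B₂ B₃ j₁ j₂ j₃ j₄
    h₀ h₁ h₂ h₃ p₁ p₂ p₃ p₄
  have hk := k4b ℓ M hM hl2 V₀ E₀ A₁ A₂ hD G₀ G₁ G₂ G₃ B₀ B₁ B₂ B₃ j₁ j₂ j₃ j₄ h₀ h₁ h₂ h₃
    p₁ p₂ p₃ p₄
  obtain ⟨d1, ⟨hA1, hA2, -, -, -, m1, m2⟩, -⟩ := dix ℓ V₀ E₀ A₁ A₂ hD
  obtain ⟨e₀, o₀⟩ := kld ℓ M hM hl2 V₀ G₀ E₀ hD.toFq B₀ h₀.toSb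
  obtain ⟨e₁, o₁⟩ := kld ℓ M hM hl2 V₀ G₁ E₀ hD.toFq B₁ h₁.toSb
  obtain ⟨e₂, o₂⟩ := kld ℓ M hM hl2 V₀ G₂ E₀ hD.toFq B₂ h₂.toSb
  obtain ⟨e₃, o₃⟩ := kld ℓ M hM hl2 V₀ G₃ E₀ hD.toFq B₃ h₃.toSb
  have q₁ := fun W hW => (pch ℓ M hM hl2 V₀ G₀ G₁ E₀ A₁ B₀ B₁ j₁ h₀.toSb h₁.toSb p₁ W hW).2.2.2.2.2.2.2
  have q₂ := fun W hW => (pch ℓ M hM hl2 V₀ G₀ G₂ E₀ A₂ B₀ B₂ j₂ h₀.toSb h₂.toSb p₂ W hW).2.2.2.2.2.2.2
  have q₃ := fun W hW => (pch ℓ M hM hl2 V₀ G₂ G₃ E₀ A₁ B₂ B₃ j₃ h₂.toSb h₃.toSb p₃ W hW).2.2.2.2.2.2.2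
  have q₄ := fun W hW => (pch ℓ M hM hl2 V₀ G₁ G₃ E₀ A₂ B₁ B₃ j₄ h₁.toSb h₃.toSb p₄ W hW).2.2.2.2.2.2.2
  have b₀ := ln_bot h₀.toSb
  have b₁ := ln_bot h₁.toSb
  have b₂ := ln_bot h₂.toSb
  have b₃ := ln_bot h₃.toSb
  obtain ⟨T₀, hT₀⟩ : ∃ T : Subgroup V₀ → ℕ, T = fun W => ln (fun t : B₀.C W => B₀.b W t) :=
    ⟨_, rfl⟩
  obtain ⟨T₁, hT₁⟩ : ∃ T : Subgroup V₀ → ℕ, T = fun W => ln (fun t : B₁.C W => B₁.b W t) :=
    ⟨_, rfl⟩
  obtain ⟨T₂, hT₂⟩ : ∃ T : Subgroup V₀ → ℕ, T = fun W => ln (fun t : B₂.C W => B₂.b W t) :=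
    ⟨_, rfl⟩
  obtain ⟨T₃, hT₃⟩ : ∃ T : Subgroup V₀ → ℕ, T = fun W => ln (fun t : B₃.C W => B₃.b W t) :=
    ⟨_, rfl⟩
  have s₀ : ∀ W, ln (fun t : B₀.C W => B₀.b W t) = T₀ W := fun W => by rw [hT₀]
  have s₁ : ∀ W, ln (fun t : B₁.C W => B₁.b W t) = T₁ W := fun W => by rw [hT₁]
  have s₂ : ∀ W, ln (fun t : B₂.C W => B₂.b W t) = T₂ W := fun W => by rw [hT₂]
  have s₃ : ∀ W, ln (fun t : B₃.C W => B₃.b W t) = T₃ W := fun W => by rw [hT₃]
  simp only [s₀] at e₀ o₀ q₁ q₂ b₀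
  simp only [s₁] at e₁ o₁ q₁ q₄ b₁
  simp only [s₂] at e₂ o₂ q₂ q₃ b₂
  simp only [s₃] at e₃ o₃ q₃ q₄ b₃
  have : Fintype V₀ := Fintype.ofFinite V₀
  rw [finsum_eq_sum_of_fintype] at e₀ e₁ e₂ e₃
  have hfin : Finite E₀ := inferInstance
  have hE : (Nat.card E₀ : ℤ) ≠ 0 := by
    have : 0 < Nat.card E₀ := Nat.card_pos
    exact_mod_cast this.ne'
  have z₀ : (Nat.card E₀ : ℤ) * ((IrrE M B₀.e).ncard : ℤ) =
      ∑ v : V₀, (Nat.card (Es E₀ v) : ℤ) * (T₀ (Subgroup.zpowers v) : ℤ) := by exact_mod_cast e₀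
  have z₁ : (Nat.card E₀ : ℤ) * ((IrrE M B₁.e).ncard : ℤ) =
      ∑ v : V₀, (Nat.card (Es E₀ v) : ℤ) * (T₁ (Subgroup.zpowers v) : ℤ) := by exact_mod_cast e₁
  have z₂ : (Nat.card E₀ : ℤ) * ((IrrE M B₂.e).ncard : ℤ) =
      ∑ v : V₀, (Nat.card (Es E₀ v) : ℤ) * (T₂ (Subgroup.zpowers v) : ℤ) := by exact_mod_cast e₂
  have z₃ : (Nat.card E₀ : ℤ) * ((IrrE M B₃.e).ncard : ℤ) =
      ∑ v : V₀, (Nat.card (Es E₀ v) : ℤ) * (T₃ (Subgroup.zpowers v) : ℤ) := by exact_mod_cast e₃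
  have key : ∀ v : V₀, v ≠ 1 → (T₀ (Subgroup.zpowers v) : ℤ) - T₁ (Subgroup.zpowers v) -
      T₂ (Subgroup.zpowers v) + T₃ (Subgroup.zpowers v) = 0 := by
    intro v hv
    have hne : Subgroup.zpowers v ≠ ⊥ := fun h => hv (Subgroup.zpowers_eq_bot.1 h)
    by_cases w1 : Subgroup.zpowers v = A₁
    · have r1 := q₁ (Subgroup.zpowers v) w1.ge
      have r3 := q₃ (Subgroup.zpowers v) w1.ge
      rw [r1, r3]
      ring
    · by_cases w2 : Subgroup.zpowers v = A₂
      · have r2 := q₂ (Subgroup.zpowers v) w2.ge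
        have r4 := q₄ (Subgroup.zpowers v) w2.ge
        rw [r2, r4]
        ring
      · have hR := d1 (Subgroup.zpowers v) ⟨hne, w1, w2⟩
        rw [o₀ _ hR, o₁ _ hR, o₂ _ hR, o₃ _ hR]
        norm_num
  have main : (Nat.card E₀ : ℤ) * (((IrrE M B₀.e).ncard : ℤ) - (IrrE M B₁.e).ncard -
      (IrrE M B₂.e).ncard + (IrrE M B₃.e).ncard) =
      (Nat.card E₀ : ℤ) * ((ln B₀.e : ℤ) - ln B₁.e - ln B₂.e + ln B₃.e) := by
    have h1 : (Nat.card E₀ : ℤ) * (((IrrE M B₀.e).ncard : ℤ) - (IrrE M B₁.e).ncard -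
        (IrrE M B₂.e).ncard + (IrrE M B₃.e).ncard) =
        ∑ v : V₀, (Nat.card (Es E₀ v) : ℤ) * ((T₀ (Subgroup.zpowers v) : ℤ) -
          T₁ (Subgroup.zpowers v) - T₂ (Subgroup.zpowers v) + T₃ (Subgroup.zpowers v)) := by
      simp only [mul_sub, mul_add, Finset.sum_add_distrib, Finset.sum_sub_distrib]
      rw [z₀, z₁, z₂, z₃]
    rw [h1, Finset.sum_eq_single (1 : V₀)]
    · rw [es_one, Subgroup.zpowers_one_eq_bot, b₀, b₁, b₂, b₃]
    · intro v _ hv
      rw [key v hv, mul_zero]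
    · intro h
      exact absurd (Finset.mem_univ _) h
  rw [← mul_left_cancel₀ hE main]
  exact hk

end Pool.Agent.PP.SD.H31
end
end -- Pool.Agent.Helper31_ASD.L4D

section -- Pool.Agent.Helper4_ASE.KAE

/-!
# Squad ASE, row KAE: the number of modular characters modulo `ℓ ^ 2`
-/

set_option autoImplicit false

open scoped BigOperators

noncomputable section

namespace Pool.Agent.PP.SE.H4

open Pool.Agent.Helper51_AWC Pool.Agent.Helper79_WRA Pool.Agent.PP Pool.Agent.PP.KF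
open Pool.Agent.PP.K9 Pool.Agent.PP.K9.H97 Pool.Agent.PP.H75 Pool.Agent.PP.T3 Pool.Agent.PP.SO
open Pool.Agent.PP.SD Pool.Agent.PP.SE

attribute [local instance] Ideal.Quotient.field

section gp

variable {V₀ : Type} [CommGroup V₀] [Finite V₀] {ℓ : ℕ} [hℓ : Fact ℓ.Prime]
  {E₀ : Subgroup (MulAut V₀)}

theorem finE : Finite (MulAut V₀) :=
  Finite.of_injective (fun σ : MulAut V₀ => (fun v => σ v : V₀ → V₀)) fun _ _ h =>
    MulEquiv.ext fun v => congrFun h v

theorem nS_pos (W : Subgroup V₀) : 0 < nS E₀ W := by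
  have : Finite (MulAut V₀) := finE
  exact Nat.card_pos

theorem card_of {W : Subgroup V₀} (hF : Fq ℓ V₀ E₀) (h1 : W ≠ ⊥) (h2 : W ≠ ⊤) :
    Nat.card W = ℓ := by
  have h3 : Nat.card W ∣ ℓ ^ 2 := by
    rw [← hF.cd]
    exact Subgroup.card_subgroup_dvd_card W
  obtain ⟨k, hk, hk'⟩ := (Nat.dvd_prime_pow hℓ.out).1 h3
  interval_cases k
  · exfalso
    rw [pow_zero] at hk'
    exact h1 (Subgroup.card_eq_one.1 hk')
  · rw [hk', pow_one]
  · exfalso
    apply h2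
    apply Subgroup.eq_top_of_card_eq
    rw [hk', hF.cd]

theorem rw_or {W : Subgroup V₀} (hF : Fq ℓ V₀ E₀) (h1 : W ≠ ⊥) :
    (Rw E₀ W ∧ nS E₀ W = 1) ∨ W ∈ RL ℓ E₀ := by
  have : Finite (MulAut V₀) := finE
  by_cases h : nS E₀ W = 1
  · left
    refine ⟨⟨h1, fun σ hσ h3 => ?_⟩, h⟩
    have h4 : (⟨σ, hσ, h3⟩ : St E₀ W) = 1 := by
      have h5 : Subsingleton (St E₀ W) := (Nat.card_eq_one_iff_unique.1 h).1
      exact Subsingleton.elim _ _
    exact congrArg Subtype.val h4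
  · right
    refine ⟨?_, ?_⟩
    · apply card_of hF h1
      intro h3
      apply h
      apply Nat.card_eq_one_iff_unique.2
      refine ⟨⟨fun a b => ?_⟩, ⟨1⟩⟩
      apply Subtype.ext
      apply MulEquiv.ext
      intro v
      rw [a.2.2 v (by rw [h3]; trivial), b.2.2 v (by rw [h3]; trivial)]
    · have := nS_pos (E₀ := E₀) W
      omega

end gp

theorem sgn {ℓ : ℕ} [hℓ : Fact ℓ.Prime] (h2 : ℓ ≠ 2) {a q q' : ℚ} (hq : q ∈ SOR.Rl ℓ)
    (hq' : q' ∈ SOR.Rl ℓ) (h : a = 1 + ℓ * q) (h' : -a = 1 + ℓ * q') : False := by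
  have h1 : (2 : ℚ) = ℓ * (-q - q') := by linarith
  obtain ⟨s, hs, hs'⟩ : ∃ s ∈ SOR.Rl ℓ, s = -q - q' :=
    ⟨_, (SOR.Rl ℓ).sub_mem ((SOR.Rl ℓ).neg_mem hq) hq', rfl⟩
  rw [← hs'] at h1
  have h3 : (2 : ℚ) * s.den = ℓ * s.num := by
    rw [h1, mul_assoc, Rat.mul_den_eq_num]
  have h4 : (2 : ℤ) * s.den = ℓ * s.num := by exact_mod_cast h3
  have h5 : (ℓ : ℤ) ∣ 2 * s.den := ⟨_, h4⟩
  have h6 : ℓ ∣ 2 * s.den := by exact_mod_cast h5
  rcases (hℓ.out.dvd_mul).1 h6 with h7 | h7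
  · exact h2 ((Nat.prime_dvd_prime_iff_eq hℓ.out Nat.prime_two).1 h7)
  · exact hs h7

/-- KAE -/
theorem kae (hrsx : RsxStmt) (hcme : CmeStmt) (hlme : LmeStmt) (hfxe : FxeStmt)
    (hcge : CgeStmt) (hxce : XceStmt) (hkld : KldStmt) (hpex : PexStmt) : KaeStmt := by
  intro ℓ _ M _ hM h5 V₀ G _ _ _ _ E₀ hF B hB
  have hℓ : ℓ.Prime := Fact.out
  have h2 : ℓ ≠ 2 := by omega
  obtain ⟨xc, hxc⟩ := hxce ℓ M hM h2 V₀ G E₀ hF B hB
  obtain ⟨D, hD, hDU, hDX, hDs, hDf⟩ := hrsx ℓ M hM h2 V₀ G E₀ hF B hB xc hxc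
  obtain ⟨r, m, hr, hm⟩ := hpex ℓ G
  obtain ⟨K, hK⟩ := hcme ℓ M hM h5 V₀ G E₀ hF B hB D hD r hr ⟨m, hm⟩
  obtain ⟨G', _, _, B', xc', κ, hB', hPE, hLam, hln, hxc', hRw, hRL, hκ⟩ :=
    hcge ℓ M hM h2 V₀ G E₀ hF B hB (K + 1) D.U hD.ut hD.u1 hD.ue
  obtain ⟨D', hD', hDU', hDX', hDs', hDf'⟩ := hrsx ℓ M hM h2 V₀ G' E₀ hF B' hB' xc' hxc'
  -- the numbers `U`
  have hU : ∀ W, W ≠ ⊥ → D'.U W = κ W := by
    intro W hW
    rcases rw_or hF hW with ⟨h, -⟩ | h
    · rw [hDU' W h, hRw W h]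
    · obtain ⟨χ, hχ, he⟩ := hRL W h
      rcases hDX' W h χ hχ with h1 | h1
      · rw [he] at h1
        exact_mod_cast h1
      · exfalso
        rw [he] at h1
        have h3 : D'.U W = -(κ W : ℚ) := by exact_mod_cast h1
        obtain ⟨q, hq, h4⟩ := hD'.u1 W hW
        obtain ⟨q', hq', h6⟩ := hD.u1 W hW
        obtain ⟨s, hs, h7⟩ := hκ W hW
        refine sgn h2 hq (q' := q' - ℓ ^ K * s) ?_ h4 ?_
        · exact (SOR.Rl ℓ).sub_mem hq' ((SOR.Rl ℓ).mul_mem (pow_mem (natCast_mem (SOR.Rl ℓ) ℓ) K) hs)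
        · rw [h3, neg_neg]
          have h8 : (κ W : ℚ) = D.U W - ℓ ^ (K + 1) * s := by linarith
          rw [h8, h6, pow_succ]
          ring
  have hk : ((ℓ ^ 2 : ℕ) : ℤ) ∣ ((IrrE M B.e).ncard : ℤ) - (IrrE M B'.e).ncard := by
    refine hK G' B' D' hB' hD' (hPE r hr ⟨m, hm⟩) ?_ ?_
    · intro W hW
      rw [hU W hW]
      obtain ⟨s, hs, h7⟩ := hκ W hW
      refine ⟨ℓ * s, (SOR.Rl ℓ).mul_mem (natCast_mem (SOR.Rl ℓ) ℓ) hs, ?_⟩
      rw [h7, pow_succ]
      ring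
    · intro W hW g hg hgW
      rcases rw_or hF hW with ⟨-, h⟩ | h
      · rw [(hD.f1 W hW h).2 g, (hD'.f1 W hW h).2 g]
      · by_cases hs : g ∈ St E₀ W
        · rw [hDs W h g hs, hDs' W h g hs]
        · have h1 := hDf W h g hg hgW hs
          have h3 := hDf' W h g hg hgW hs
          have h4 := hfxe ℓ M hM h2 V₀ G G' E₀ hF B B' hB.toSb hB'.toSb hLam W h.1 g hg hgW
          rw [h4] at h1
          linarith
  -- the numbers of characters
  have h3 := (hkld ℓ M hM h2 V₀ G E₀ hF B hB.toSb).1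
  have h4 := (hkld ℓ M hM h2 V₀ G' E₀ hF B' hB'.toSb).1
  obtain ⟨hl1, hl2, -⟩ := hlme ℓ M hM h2 V₀ G E₀ hF B hB.toSb
  obtain ⟨hl1', hl2', -⟩ := hlme ℓ M hM h2 V₀ G' E₀ hF B' hB'.toSb
  have b₀ := H31.ln_bot hB.toSb
  have b₁ := H31.ln_bot hB'.toSb
  obtain ⟨T₀, hT₀⟩ : ∃ T : Subgroup V₀ → ℕ, T = fun W => ln (fun t : B.C W => B.b W t) :=
    ⟨_, rfl⟩
  obtain ⟨T₁, hT₁⟩ : ∃ T : Subgroup V₀ → ℕ, T = fun W => ln (fun t : B'.C W => B'.b W t) :=
    ⟨_, rfl⟩
  have s₀ : ∀ W, ln (fun t : B.C W => B.b W t) = T₀ W := fun W => by rw [hT₀]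
  have s₁ : ∀ W, ln (fun t : B'.C W => B'.b W t) = T₁ W := fun W => by rw [hT₁]
  simp only [s₀] at h3 hl1 b₀
  simp only [s₁] at h4 hl1' b₁
  have hfV : Fintype V₀ := Fintype.ofFinite V₀
  rw [finsum_eq_sum_of_fintype] at h3 h4
  have hfin : Finite (MulAut V₀) := finE
  have hE : (Nat.card E₀ : ℤ) ≠ 0 := by
    have : 0 < Nat.card E₀ := Nat.card_pos
    exact_mod_cast this.ne'
  have z₀ : (Nat.card E₀ : ℤ) * ((IrrE M B.e).ncard : ℤ) =
      ∑ v : V₀, (Nat.card (Es E₀ v) : ℤ) * (T₀ (Subgroup.zpowers v) : ℤ) := by exact_mod_cast h3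
  have z₁ : (Nat.card E₀ : ℤ) * ((IrrE M B'.e).ncard : ℤ) =
      ∑ v : V₀, (Nat.card (Es E₀ v) : ℤ) * (T₁ (Subgroup.zpowers v) : ℤ) := by exact_mod_cast h4
  have key : ∀ v : V₀, v ≠ 1 → (T₀ (Subgroup.zpowers v) : ℤ) = T₁ (Subgroup.zpowers v) := by
    intro v hv
    rw [hl1 v hv, hl1' v hv, hLam (Es E₀ v) (fun σ hσ => hσ.1)]
  have hd : (Nat.card E₀ : ℤ) * (((IrrE M B.e).ncard : ℤ) - (IrrE M B'.e).ncard) =
      (Nat.card E₀ : ℤ) * ((ln B.e : ℤ) - ln B'.e) := by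
    rw [mul_sub, z₀, z₁, ← Finset.sum_sub_distrib, Finset.sum_eq_single (1 : V₀)]
    · rw [H31.es_one, Subgroup.zpowers_one_eq_bot, b₀, b₁]
      ring
    · intro v _ hv
      rw [key v hv]
      ring
    · intro h
      exact absurd (Finset.mem_univ _) h
  have hd' := mul_left_cancel₀ hE hd
  rw [hd', hln, ← hl2', ← hLam E₀ le_rfl, hl2] at hk
  exact hk

end Pool.Agent.PP.SE.H4
end
end -- Pool.Agent.Helper4_ASE.KAE
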