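import Pool.Agent.Helper12_AWB.B123
import Pool.Agent.Helper12_AWB.B145
import Pool.Agent.Helper12_AWB.B167
import Pool.Agent.Helper12_AWB.B170
import Pool.Agent.Helper12_AWB.B254

/-!
# Merged copies (generated) of the modules

* `Pool.Agent.Helper88_AT8.Dor`
* `Pool.Agent.Helper83_AT2.FRS`
* `Pool.Agent.Helper69_AT10.LNK`
* `Pool.Agent.Helper1_ASD.LNT`
* `Pool.Agent.Helper32_AT6.SEC`
* `Pool.Agent.Helper39_AT6.CND`
-/

set_option autoImplicit false

section -- Pool.Agent.Helper88_AT8.Dor

/-! Squad AT8, row DOR: orthogonality of the `vv u`. -/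

open scoped BigOperators

set_option autoImplicit false

noncomputable section

namespace Pool.Agent.PP.T8.H88

open Pool.Agent.Helper51_AWC Pool.Agent.Helper79_WRA Pool.Agent.PP Pool.Agent.PP.KF
open Pool.Agent.PP.K9 Pool.Agent.PP.K9.H97 Pool.Agent.PP.H75 Pool.Agent.PP.T3 Pool.Agent.PP.T2

attribute [local instance] Ideal.Quotient.field

section tools

variable {G : Type} [Group G] [Finite G] {M : Ideal (integralClosure ℤ ℂ)} [M.IsMaximal]

/-- the conjugate of a local block under an element of the inertial group -/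
theorem lc_cj {F : Type} [Field F] {ℓ : ℕ} {e : G → F} {V : Subgroup G} {γ : G → F}
    (hL : Ld ℓ e V γ) {u u' t : G} (ht : t ∈ Tg V γ) (h : t * u' * t⁻¹ = u) {b : G → F}
    (hb : Lc e V γ u' b) : Lc e V γ u (cj t b) := by
  have hbx : Bx (Cu u) (cj t b) := T3.H49.bx_cj h hb.blk
  have hγ : cj t γ = γ := (cj_eq_iff t γ).2 ht.2
  refine ⟨hbx, ?_, ?_⟩
  · have hres : ∀ (X : Subgroup G) (c : G → F), (∀ x, x ∉ X → c x = 0) →
        (fun s : X => mulF e c s) = mulF (fun s : X => e s) (fun s : X => c s) := by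
      intro X c hc
      rw [H20.mulF_comm_of_cl hL.blk.1.1 c, mulF_res X e hc,
        H20.mulF_comm_of_cl (a := fun s : X => e s) (fun x y => hL.blk.1.1 x y)]
    have h1 := hres (Cu u) (cj t b) hbx.supp
    have h2 := hres (Cu u') b hb.blk.supp
    rw [← h1]
    funext s
    have he : cj t e = e := cj_isCl t hL.blk.1.1
    have h3 : mulF e (cj t b) = cj t (mulF e b) := by
      rw [cj_mulF, he]
    have h4 : t⁻¹ * (s : G) * t ∈ Cu u' := (T3.H49.cu_conj h _).2 s.2
    have h5 := congrFun (h2.trans hb.und) ⟨_, h4⟩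
    show mulF e (cj t b) (s : G) = cj t b s
    rw [h3]
    exact h5
  · rw [← T3.H79.cj_br ht.1]
    conv_lhs => rw [← hγ]
    rw [← cj_mulF, hb.gam, hγ]

omit [Finite G] in
theorem irr_conj {χ : G → ℂ} (hχ : χ ∈ Irr G) (x y : G) : χ (y * x * y⁻¹) = χ x := by
  obtain ⟨n, ρ, -, rfl⟩ := hχ
  exact ρ.char_conj x y

/-- `gv` of the conjugate -/
theorem gv_cj {u u' t : G} (h : t * u' * t⁻¹ = u) {b : G → FF M}
    (hb : IsCl (fun s : Cu u' => b s)) {χ : G → ℂ} (hχ : ∀ x y, χ (y * x * y⁻¹) = χ x) :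
    gv M (Cu u) u (cj t b) χ = gv M (Cu u') u' b χ := by
  unfold gv gbv
  have := Fintype.ofFinite G
  classical
  rw [finsum_eq_sum_of_fintype, finsum_eq_sum_of_fintype]
  rw [← Equiv.sum_comp (T3.H62.cjE h).toEquiv]
  refine Finset.sum_congr rfl fun c _ => ?_
  have h1 := T3.H62.eh_equiv (T3.H62.cjE h) hb c
  have h2 : (fun y : Cu u => b (((T3.H62.cjE h).symm y : Cu u') : G)) =
      (fun s : Cu u => cj t b s) := rfl
  rw [h2] at h1
  show eh M (fun s : Cu u => cj t b s) (T3.H62.cjE h c) *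
    χ (u * ((T3.H62.cjE h c : Cu u) : G)) = _
  rw [h1]
  congr 1
  have h3 : ((T3.H62.cjE h c : Cu u) : G) = t * c * t⁻¹ := rfl
  rw [h3, ← hχ (u' * c) t, ← h]
  congr 1
  group

end tools

/-- DOR -/
theorem dor (co1 : T3.Co1Stmt) (co2 : T3.Co2Stmt) (fus : T3.FusStmt) (loc : T3.LocStmt)
    (rgl : T3.RglStmt) : DorStmt := by
  intro ℓ _ M _ hM G _ _ e V γ b d c ε hD u u' hu hu'
  classical
  have hL := hD.ld
  have hF : GoodF ℓ (FF M) := H50.fld ℓ Fact.out M hM
  have : Finite (Irr G) := (T3.H49.irr_fin G).to_subtype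
  have : Fintype (Irr G) := Fintype.ofFinite _
  have hEl : ∀ u, Rg V γ u → El ℓ u := by
    intro u hu
    obtain ⟨n, hn⟩ := hL.tp.pg ⟨u, hu.1⟩
    exact ⟨n, congrArg Subtype.val hn⟩
  have hb := hD.lc u hu
  have hb' := hD.lc u' hu'
  have hdg := hD.dg u hu
  have hdg' := hD.dg u' hu'
  constructor
  · rintro ⟨t, ht, htu⟩
    have h1 : b u = cj t (b u') := (loc ℓ (FF M) hF G e V γ hL u hu.1).2 _ _ hb
      (lc_cj hL ht htu hb')
    have hcl : IsCl (fun s : Cu u' => b u' s) := hb'.blk.blk.1.1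
    -- the degrees
    obtain ⟨b₁, d₁, hb₁, hd₁, hcard, -⟩ := rgl ℓ M hM G e V γ hL u hu
    have hbb : b₁ = b u := (loc ℓ (FF M) hF G e V γ hL u hu.1).2 b₁ (b u) hb₁ hb
    rw [hbb] at hcard
    obtain ⟨b₂, d₂, hb₂, hd₂, hcard', -⟩ := rgl ℓ M hM G e V γ hL u' hu'
    have hbb' : b₂ = b u' := (loc ℓ (FF M) hF G e V γ hL u' hu'.1).2 b₂ (b u') hb₂ hb'
    rw [hbb'] at hcard'
    have hfin : (IrrE M (fun t : Cu u => b u t)).Finite := T3.H49.irrE_fin M _
    have hfin' : (IrrE M (fun t : Cu u' => b u' t)).Finite := T3.H49.irrE_fin M _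
    have hgv : ∀ χ ∈ Irr G, gv M (Cu u) u (b u) χ = gv M (Cu u') u' (b u') χ := by
      intro χ hχ
      rw [h1]
      exact gv_cj htu hcl (irr_conj hχ)
    have c1 := co1 ℓ M hM G u (hEl u hu) (b u) hb.blk.ix
    have c1' := co1 ℓ M hM G u' (hEl u' hu') (b u') hb'.blk.ix
    have s1 : ∑ᶠ κ ∈ IrrE M (fun t : Cu u => b u t), κ 1 ^ 2 =
        (Nat.card V : ℂ) * (d u : ℂ) ^ 2 := by
      rw [T3.H49.finsum_mem_const_eq hfin (fun κ => κ 1 ^ 2) ((d u : ℂ) ^ 2) (by
        intro κ hκ
        rw [hdg.2 κ hκ]), hcard]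
    have s1' : ∑ᶠ κ ∈ IrrE M (fun t : Cu u' => b u' t), κ 1 ^ 2 =
        (Nat.card V : ℂ) * (d u' : ℂ) ^ 2 := by
      rw [T3.H49.finsum_mem_const_eq hfin' (fun κ => κ 1 ^ 2) ((d u' : ℂ) ^ 2) (by
        intro κ hκ
        rw [hdg'.2 κ hκ]), hcard']
    have hV : (Nat.card V : ℂ) ≠ 0 := by
      exact_mod_cast Nat.card_pos.ne'
    have hdd : (d u : ℂ) = d u' := by
      have h2 : (Nat.card V : ℂ) * (d u : ℂ) ^ 2 = (Nat.card V : ℂ) * (d u' : ℂ) ^ 2 := by
        rw [← s1, ← s1', ← c1, ← c1']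
        refine finsum_mem_congr rfl fun χ hχ => ?_
        rw [hgv χ hχ]
      have h3 := mul_left_cancel₀ hV h2
      have h4 : d u ^ 2 = d u' ^ 2 := by exact_mod_cast h3
      have h5 : d u = d u' := Nat.pow_left_injective (by norm_num) h4
      rw [h5]
    have hd0 : (d u' : ℂ) ≠ 0 := by
      exact_mod_cast hdg'.1.ne'
    have e1 : ∑ᶠ χ ∈ Irr G, vv M b d u χ * starRingEnd ℂ (vv M b d u' χ) =
        ∑ᶠ χ ∈ Irr G, (gv M (Cu u') u' (b u') χ * starRingEnd ℂ (gv M (Cu u') u' (b u') χ)) /
          (d u' : ℂ) ^ 2 := by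
      refine finsum_mem_congr rfl fun χ hχ => ?_
      unfold vv
      rw [hgv χ hχ, hdd, map_div₀, Complex.conj_natCast]
      field_simp
    rw [T3.H49.finsum_mem_fintype] at c1'
    rw [e1, T3.H49.finsum_mem_fintype, ← Finset.sum_div, c1', s1']
    field_simp
  · intro hno
    have h1 := co2 ℓ M hM G u u' (hEl u hu) (hEl u' hu') (b u) (b u') hb.blk.ix hb'.blk.ix (by
      intro x hx
      rcases hb.blk.dich (T3.H49.bx_cj hx hb'.blk) with h2 | h2
      · exfalso
        apply hno
        exact fus ℓ M hM G e V γ hL u hu.1 u' hu'.1 (b u) (b u') hb hb' x hx h2.symm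
      · exact h2)
    have e1 : ∑ᶠ χ ∈ Irr G, vv M b d u χ * starRingEnd ℂ (vv M b d u' χ) =
        ∑ᶠ χ ∈ Irr G, (gv M (Cu u) u (b u) χ * starRingEnd ℂ (gv M (Cu u') u' (b u') χ)) /
          ((d u : ℂ) * (d u' : ℂ)) := by
      refine finsum_mem_congr rfl fun χ _ => ?_
      unfold vv
      rw [map_div₀, Complex.conj_natCast, div_mul_div_comm]
    rw [T3.H49.finsum_mem_fintype] at h1
    rw [e1, T3.H49.finsum_mem_fintype, ← Finset.sum_div, h1, zero_div]

end Pool.Agent.PP.T8.H88
end
end -- Pool.Agent.Helper88_AT8.Dor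

section -- Pool.Agent.Helper83_AT2.FRS

/-!
# Squad AT2, row FRS: the theorem of Fong and Reynolds, summed over all blocks of a normal subgroup
-/

open scoped BigOperators

set_option linter.unusedSectionVars false

noncomputable section

namespace Pool.Agent.PP.T2.H83

open Pool.Agent.Helper51_AWC Pool.Agent.Helper79_WRA Pool.Agent.PP Pool.Agent.PP.KF
open Pool.Agent.PP.K9 Pool.Agent.PP.K9.H97 Pool.Agent.PP.H75 Pool.Agent.PP.T3

section fin

variable {F H : Type} [Field F] [Group H] [Finite H]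

/-- a block under a sum of two orthogonal idempotents is under one of them -/
theorem blk_split {b e₁ e₂ : H → F} (hb : IsBlk b) (h1 : IsIdem e₁)
    (hb12 : mulF (e₁ + e₂) b = b) : mulF e₁ b = b ∨ mulF e₂ b = b := by
  rcases hb.2.2 e₁ h1 with h | h
  · left
    rw [H46.mulF_comm h1.1, h]
  · right
    have h3 : mulF e₁ b = 0 := by rw [H46.mulF_comm h1.1, h]
    have h4 : mulF (e₁ + e₂) b = mulF e₁ b + mulF e₂ b := by
      apply ma_injective
      rw [ma_mul, ma_add, ma_add, ma_mul, ma_mul, add_mul]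
    rw [h4, h3, zero_add] at hb12
    exact hb12

/-- a finite group has only finitely many blocks -/
theorem blk_finite : {b : H → F | IsBlk b}.Finite := by
  have key : ∀ e : H → F, IsIdem e → {b : H → F | IsBlk b ∧ mulF e b = b}.Finite := by
    refine H46.idem_induction _ ?_ ?_ ?_
    · refine Set.Finite.subset Set.finite_empty ?_
      rintro b ⟨hb, h⟩
      exact hb.2.1 (by rw [← h, mulF_zero_left])
    · intro e he
      refine Set.Finite.subset (Set.finite_singleton e) ?_
      rintro b ⟨hb, h⟩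
      rcases he.2.2 b hb.1 with h1 | h1
      · rw [Set.mem_singleton_iff, ← h, h1]
      · exact absurd (by rw [← h, h1]) hb.2.1
    · intro e₁ e₂ h1 h2 _ p1 p2
      refine Set.Finite.subset (p1.union p2) ?_
      rintro b ⟨hb, h⟩
      rcases blk_split hb h1 h with h3 | h3
      · exact Or.inl ⟨hb, h3⟩
      · exact Or.inr ⟨hb, h3⟩
  refine (key (dl F 1) H46.isIdem_one).subset ?_
  intro b hb
  exact ⟨hb, H46.one_mulF b⟩

end fin

section main

variable {F A : Type} [Field F] [Group A] [Finite A] {C : Subgroup A}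

theorem bx_finite (C : Subgroup A) : {b : A → F | Bx C b}.Finite := by
  have h1 : ((fun (b : A → F) => fun t : C => b t) '' {b : A → F | Bx C b}).Finite := by
    refine blk_finite.subset ?_
    rintro _ ⟨b, hb, rfl⟩
    exact hb.blk
  refine Set.Finite.of_finite_image h1 ?_
  intro b hb b' hb' h
  exact eq_of_res hb.supp hb'.supp h

/-- under an idempotent of the subgroup which does not annihilate `e` there is a block with the
same property -/
theorem exists_blk {e E : A → F} (hE : ∀ x, x ∉ C → E x = 0)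
    (hEi : IsIdem (fun t : C => E t)) (hne : mulF e E ≠ 0) :
    ∃ b : A → F, Bx C b ∧ mulF E b = b ∧ mulF e b ≠ 0 := by
  have key : ∀ f : C → F, IsIdem f → mulF e (H75.ext0 C f) ≠ 0 →
      ∃ b : A → F, Bx C b ∧ mulF (H75.ext0 C f) b = b ∧ mulF e b ≠ 0 := by
    refine H46.idem_induction _ ?_ ?_ ?_
    · intro h
      exfalso
      apply h
      have : H75.ext0 C (0 : C → F) = 0 := by
        funext x
        by_cases hx : x ∈ C
        · rw [H75.ext0, dif_pos hx]
          rfl
        · rw [H75.ext0, dif_neg hx]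
          rfl
      rw [this, mulF_zero_right]
    · intro b hb h
      refine ⟨H75.ext0 C b, ⟨ext0_supp C b, ?_⟩, ?_, h⟩
      · have : (fun t : C => H75.ext0 C b t) = b := funext (ext0_apply C b)
        rw [this]
        exact hb
      · rw [← ext0_mulF, hb.1.2]
    · intro f₁ f₂ h1 h2 h12 p1 p2 h
      have hadd : H75.ext0 C (f₁ + f₂) = H75.ext0 C f₁ + H75.ext0 C f₂ := by
        funext x
        rw [Pi.add_apply]
        by_cases hx : x ∈ C
        · rw [H75.ext0, H75.ext0, H75.ext0, dif_pos hx, dif_pos hx, dif_pos hx]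
          rfl
        · rw [H75.ext0, H75.ext0, H75.ext0, dif_neg hx, dif_neg hx, dif_neg hx, add_zero]
      have h21 : mulF f₂ f₁ = 0 := by rw [← H46.mulF_comm h1.1, h12]
      have hz : H75.ext0 C (0 : C → F) = 0 := by
        funext x
        by_cases hx : x ∈ C
        · rw [H75.ext0, dif_pos hx]
          rfl
        · rw [H75.ext0, dif_neg hx]
          rfl
      have hd : ∀ b : A → F, mulF (H75.ext0 C (f₁ + f₂)) b =
          mulF (H75.ext0 C f₁) b + mulF (H75.ext0 C f₂) b := by
        intro b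
        rw [hadd]
        apply ma_injective
        rw [ma_mul, ma_add, ma_add, ma_mul, ma_mul, add_mul]
      by_cases h3 : mulF e (H75.ext0 C f₁) = 0
      · have h4 : mulF e (H75.ext0 C f₂) ≠ 0 := by
          intro h4
          apply h
          rw [hadd, H46.mulF_add, h3, h4, add_zero]
        obtain ⟨b, hb1, hb2, hb3⟩ := p2 h4
        refine ⟨b, hb1, ?_, hb3⟩
        have h5 : mulF (H75.ext0 C f₁) b = 0 := by
          rw [← hb2, ← mulF_assoc, ← ext0_mulF, h12, hz, mulF_zero_left]
        rw [hd, h5, hb2, zero_add]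
      · obtain ⟨b, hb1, hb2, hb3⟩ := p1 h3
        refine ⟨b, hb1, ?_, hb3⟩
        have h5 : mulF (H75.ext0 C f₂) b = 0 := by
          rw [← hb2, ← mulF_assoc, ← ext0_mulF, h21, hz, mulF_zero_left]
        rw [hd, h5, hb2, add_zero]
  have h0 : H75.ext0 C (fun t : C => E t) = E := ext0_res C hE
  have := key _ hEi (by rw [h0]; exact hne)
  rwa [h0] at this

theorem bd_of (hC : C.Normal) {b : A → F} (hb : Bx C b) : Bd C b := ⟨hC, hb.supp, hb.blk⟩

/-- the restriction of `e b` to the stabiliser of `b` -/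
theorem rs_cor {b e : A → F} (h : Bd C b) (he : IsIdem e) : H75.Cor (st b) (mulF e b) := by
  have := Fintype.ofFinite (Om b)
  have hcor := (h.fam2 he).cor (omk b 1)
  rwa [om_stab, omk_one] at hcor

/-- the summand -/
def tm (ℓ : ℕ) (e b : A → F) : ℤ := YY ℓ (⊤ : Subgroup (st b)) (fun t : st b => mulF e b t)

theorem tm_zero {ℓ : ℕ} (hF : GoodF ℓ F) {e b : A → F} (h : mulF e b = 0) : tm ℓ e b = 0 := by
  unfold tm
  rw [h]
  have h0 := H9.YY_add hF H94.nch H20.nls H20.brm H20.eig H20.ibf (⊤ : Subgroup (st b))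
    (H46.isIdem_zero (F := F)) H46.isIdem_zero (H46.mulF_zero 0)
  rw [add_zero] at h0
  have h1 : YY ℓ (⊤ : Subgroup (st b)) (0 : st b → F) = 0 := by linarith
  exact h1

theorem tm_add {ℓ : ℕ} (hF : GoodF ℓ F) {e₁ e₂ b : A → F} (h : Bd C b) (h1 : IsIdem e₁)
    (h2 : IsIdem e₂) (h12 : mulF e₁ e₂ = 0) : tm ℓ (e₁ + e₂) b = tm ℓ e₁ b + tm ℓ e₂ b := by
  unfold tm
  have k1 := rs_cor h h1
  have k2 := rs_cor h h2
  have h3 : (fun t : st b => mulF (e₁ + e₂) b t) =
      (fun t : st b => mulF e₁ b t) + fun t : st b => mulF e₂ b t := by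
    funext t
    have : mulF (e₁ + e₂) b = mulF e₁ b + mulF e₂ b := by
      apply ma_injective
      rw [ma_mul, ma_add, ma_add, ma_mul, ma_mul, add_mul]
    rw [this]
    rfl
  have h4 : mulF (fun t : st b => mulF e₁ b t) (fun t : st b => mulF e₂ b t) = 0 := by
    rw [← mulF_res (st b) _ k1.supp]
    have h5 : mulF (mulF e₁ b) (mulF e₂ b) = 0 := by
      rw [mulF_comm_cl h1.1 b, mulF_assoc, ← mulF_assoc e₁ e₂, h12, mulF_zero_left,
        mulF_zero_right]
    rw [h5]
    rfl
  rw [h3, H9.YY_add hF H94.nch H20.nls H20.brm H20.eig H20.ibf ⊤ k1.isIdem k2.isIdem h4]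

theorem top_sub (K : Subgroup A) : (⊤ : Subgroup A).subgroupOf K = ⊤ := by
  ext x
  simp

/-- the summands of conjugate blocks are equal -/
theorem tm_conj {ℓ : ℕ} {e b : A → F} (he : IsIdem e) (g : A) :
    tm ℓ e (cj g b) = tm ℓ e b := by
  have h1 := conj_sum (b := b) (ℓ := ℓ) he (R := ⊤) inferInstance g
  have h2 := conj_sum (b := cj g b) (ℓ := ℓ) he (R := ⊤) inferInstance 1
  rw [cj_one] at h2
  rw [← h2, top_sub, top_sub] at h1
  exact h1.symm

theorem tm_blk {ℓ : ℕ} [Fact ℓ.Prime] (hF : GoodF ℓ F) {e b : A → F} (h : Bd C b) (he : IsBlk e)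
    (hne : mulF e b ≠ 0) : YY ℓ (⊤ : Subgroup A) e = ((st b).index : ℤ) * tm ℓ e b := by
  have h1 := h.yy H94.nch H74.orb H20.nls H20.ibf H20.ibj H20.ibn H20.eig hF he hne
    (R := ⊤) inferInstance
  rw [top_sub] at h1
  exact h1

end main

theorem frs : FrsStmt := by
  intro ℓ _ F _ hF A _ _ C hC E hE hEs
  classical
  have hfin : {b : A → F | Bx C b ∧ mulF E b = b}.Finite :=
    (bx_finite C).subset fun b hb => hb.1
  have hst : ∀ b : A → F, stabF b = st b := by
    intro b
    ext g
    rw [mem_st, cj_eq_iff]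
    rfl
  have hEi : IsIdem (fun t : C => E t) := by
    refine ⟨fun x y => hE.1 x y, ?_⟩
    rw [← mulF_res C E hEs, hE.2]
  -- the sum
  have key : ∀ e : A → F, IsIdem e → mulF E e = e →
      YY ℓ (⊤ : Subgroup A) e = ∑ b ∈ hfin.toFinset, tm ℓ e b := by
    refine H46.idem_induction _ ?_ ?_ ?_
    · intro _
      have h0 := H9.YY_add hF H94.nch H20.nls H20.brm H20.eig H20.ibf (⊤ : Subgroup A)
        (H46.isIdem_zero (F := F)) H46.isIdem_zero (H46.mulF_zero 0)
      rw [add_zero] at h0
      have h1 : YY ℓ (⊤ : Subgroup A) (0 : A → F) = 0 := by linarith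
      rw [h1]
      symm
      refine Finset.sum_eq_zero fun b _ => tm_zero hF (mulF_zero_left b)
    · intro e he hEe
      have hne : mulF e E ≠ 0 := by
        rw [← H46.mulF_comm hE.1, hEe]
        exact he.2.1
      obtain ⟨b, hb1, hb2, hb3⟩ := exists_blk hEs hEi hne
      have hbd : Bd C b := bd_of hC hb1
      have := Fintype.ofFinite (Om b)
      rw [tm_blk hF hbd he hb3, index_st]
      -- the conjugates of `b`
      have hsub : (Finset.univ.image fun f : Om b => f.1) ⊆ hfin.toFinset := by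
        intro b' hb'
        obtain ⟨f, -, rfl⟩ := Finset.mem_image.1 hb'
        obtain ⟨g, rfl⟩ := omk_surj f
        rw [Set.Finite.mem_toFinset]
        refine ⟨hb1.cj ?_, ?_⟩
        · rw [Subgroup.normalizer_eq_top_iff.2 hC]
          trivial
        · change mulF E (cj g b) = cj g b
          conv_lhs => rw [← cj_isCl g hE.1]
          rw [← cj_mulF, hb2]
      rw [← Finset.sum_subset hsub]
      · have h0 : ∑ x ∈ Finset.univ.image (fun f : Om b => f.1), tm ℓ e x =
            ∑ f : Om b, tm ℓ e f.1 :=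
          Finset.sum_image (s := Finset.univ) (g := fun f : Om b => f.1)
            (f := fun x => tm ℓ e x) (fun f _ f' _ h => Subtype.ext h)
        rw [h0]
        have h1 : ∀ f ∈ (Finset.univ : Finset (Om b)), tm ℓ e f.1 = tm ℓ e b := by
          intro f _
          obtain ⟨g, rfl⟩ := omk_surj f
          exact tm_conj he.1 g
        rw [Finset.sum_congr rfl h1, Finset.sum_const, Finset.card_univ, nsmul_eq_mul]
      · intro b' hb' hn
        apply tm_zero hF
        rw [Set.Finite.mem_toFinset] at hb'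
        by_contra hne'
        apply hn
        rw [Finset.mem_image]
        by_contra hall
        apply hne'
        have h2 : ∀ f : Om b, mulF (mulF e f.1) b' = 0 := by
          intro f
          obtain ⟨g, rfl⟩ := omk_surj f
          have h3 : Bx C (cj g b) := hb1.cj (by
            rw [Subgroup.normalizer_eq_top_iff.2 hC]
            trivial)
          rcases h3.dich hb'.1 with h4 | h4
          · exact absurd ⟨omk b g, Finset.mem_univ _, h4⟩ hall
          · change mulF (mulF e (cj g b)) b' = 0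
            rw [mulF_assoc, h4, mulF_zero_right]
        rw [← hbd.sum_eq he hb3]
        apply ma_injective
        rw [ma_mul, ma_finsum, Finset.sum_mul, ma_zero]
        refine Finset.sum_eq_zero fun f _ => ?_
        rw [← ma_mul, h2, ma_zero]
    · intro e₁ e₂ h1 h2 h12 p1 p2 h
      have h21 : mulF e₂ e₁ = 0 := by rw [← H46.mulF_comm h1.1, h12]
      have hE1 : mulF E e₁ = e₁ := by
        have h3 : mulF (mulF E (e₁ + e₂)) e₁ = mulF (e₁ + e₂) e₁ := by rw [h]
        have h4 : mulF (e₁ + e₂) e₁ = e₁ := by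
          apply ma_injective
          rw [ma_mul, ma_add, add_mul, ← ma_mul, ← ma_mul, h1.2, h21, ma_zero, add_zero]
        rwa [mulF_assoc, h4] at h3
      have hE2 : mulF E e₂ = e₂ := by
        have h3 : mulF (mulF E (e₁ + e₂)) e₂ = mulF (e₁ + e₂) e₂ := by rw [h]
        have h4 : mulF (e₁ + e₂) e₂ = e₂ := by
          apply ma_injective
          rw [ma_mul, ma_add, add_mul, ← ma_mul, ← ma_mul, h2.2, h12, ma_zero, zero_add]
        rwa [mulF_assoc, h4] at h3
      rw [H9.YY_add hF H94.nch H20.nls H20.brm H20.eig H20.ibf ⊤ h1 h2 h12, p1 hE1, p2 hE2,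
        ← Finset.sum_add_distrib]
      refine Finset.sum_congr rfl fun b hb => ?_
      rw [Set.Finite.mem_toFinset] at hb
      rw [tm_add hF (bd_of hC hb.1) h1 h2 h12]
  rw [key E hE hE.2]
  have h1 : ∑ᶠ (b : A → F) (_ : Bx C b ∧ mulF E b = b),
      YY ℓ (⊤ : Subgroup (stabF b)) (fun t : stabF b => b t) =
      ∑ b ∈ hfin.toFinset, YY ℓ (⊤ : Subgroup (stabF b)) (fun t : stabF b => b t) :=
    finsum_mem_eq_finite_toFinset_sum
      (fun b : A → F => YY ℓ (⊤ : Subgroup (stabF b)) (fun t : stabF b => b t)) hfin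
  rw [h1]
  refine Finset.sum_congr rfl fun b hb => ?_
  rw [Set.Finite.mem_toFinset] at hb
  unfold tm
  rw [hb.2]
  have h2 : ∀ T T' : Subgroup A, T = T' → YY ℓ (⊤ : Subgroup T) (fun t : T => b t) =
      YY ℓ (⊤ : Subgroup T') (fun t : T' => b t) := by
    intro T T' h
    subst h
    rfl
  exact h2 _ _ (hst b).symm

end Pool.Agent.PP.T2.H83
end
end -- Pool.Agent.Helper83_AT2.FRS

section -- Pool.Agent.Helper69_AT10.LNK

/-!
# AT10, row LNK: the inner product for the family `sb b`
-/

open scoped BigOperators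

set_option autoImplicit false

noncomputable section

namespace Pool.Agent.PP.T10.H69

open Pool.Agent.Helper51_AWC Pool.Agent.Helper79_WRA Pool.Agent.PP Pool.Agent.PP.KF
open Pool.Agent.PP.K9 Pool.Agent.PP.K9.H97 Pool.Agent.PP.H75 Pool.Agent.PP.T3 Pool.Agent.PP.T2
open Pool.Agent.PP.T5 Pool.Agent.PP.TB
open Pool.Agent.PP.T8 (rs pw fv rd Ip Rv)

attribute [local instance] Ideal.Quotient.field

section tools

variable {M : Ideal (integralClosure ℤ ℂ)} [M.IsMaximal] {G : Type} [Group G] [Finite G]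

theorem gv_zero (C : Subgroup G) (w : G) (χ : G → ℂ) : gv M C w (0 : G → FF M) χ = 0 := by
  unfold gv
  have h : (fun t : C => (0 : G → FF M) t) = (0 : C → FF M) := rfl
  rw [h, T3.H98.eh_zero]
  unfold gbv
  have := Fintype.ofFinite C
  rw [finsum_eq_sum_of_fintype, Finset.sum_eq_zero]
  intro t _
  rw [Pi.zero_apply, zero_mul]

/-- the sum of the values on a class -/
theorem class_sum [Fintype G] (z : G) (H : G → ℂ) (h0 : ∀ u, (¬ ∃ q : G, q * z * q⁻¹ = u) → H u = 0) :
    ∑ q : G, H (q * z * q⁻¹) = (Nat.card (Cu z) : ℂ) * ∑ u : G, H u := by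
  classical
  have h1 : ∀ q : G, H (q * z * q⁻¹) = ∑ u : G, if q * z * q⁻¹ = u then H u else 0 := by
    intro q
    rw [Finset.sum_ite_eq Finset.univ (q * z * q⁻¹) H, if_pos (Finset.mem_univ _)]
  rw [Finset.sum_congr rfl fun q _ => h1 q, Finset.sum_comm, Finset.mul_sum]
  refine Finset.sum_congr rfl fun u _ => ?_
  by_cases hu : ∃ q : G, q * z * q⁻¹ = u
  · obtain ⟨q, hq⟩ := hu
    rw [← Equiv.sum_comp (Equiv.mulLeft q)]
    have h2 : ∀ c : G, (if (Equiv.mulLeft q) c * z * ((Equiv.mulLeft q) c)⁻¹ = u then H u else 0) =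
        if c ∈ Cu z then H u else 0 := by
      intro c
      have e : (Equiv.mulLeft q) c * z * ((Equiv.mulLeft q) c)⁻¹ = q * (c * z * c⁻¹) * q⁻¹ := by
        simp only [Equiv.coe_mulLeft]
        group
      rw [e]
      refine if_congr ?_ rfl rfl
      constructor
      · intro h3
        rw [← hq] at h3
        have h4 : c * z * c⁻¹ = z := mul_left_cancel (mul_right_cancel h3)
        rw [Subgroup.mem_centralizer_singleton_iff]
        calc c * z = c * z * c⁻¹ * c := by group
          _ = z * c := by rw [h4]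
      · intro h3
        have h4 : c * z = z * c := T3.H62.comm_Cu h3
        rw [← hq, h4]
        group
    rw [Finset.sum_congr rfl fun c _ => h2 c, Finset.sum_ite, Finset.sum_const_zero, add_zero,
      Finset.sum_const, nsmul_eq_mul]
    have h3 : (Finset.univ.filter fun c : G => c ∈ Cu z).card = Nat.card (Cu z) := by
      rw [Nat.card_eq_fintype_card, Fintype.card_subtype]
    rw [h3]
  · rw [h0 u hu, mul_zero]
    exact Finset.sum_eq_zero fun q _ => by
      rw [ite_self]

end tools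

theorem lnk (hSB : SbeStmt) (hBL : BloStmt) : LnkStmt := by
  classical
  intro ℓ _ M _ hM G _ _ e V Z γ b hZ c χ hχ ψ hψ
  have := Fintype.ofFinite G
  obtain ⟨hE, hconj⟩ := hSB ℓ M hM G e V Z γ b hZ
  have hZp : ∀ z ∈ Z, El ℓ z := by
    intro z hz
    obtain ⟨n, hn⟩ := hZ.tp.pg ⟨z, hZ.le hz⟩
    exact ⟨n, congrArg Subtype.val hn⟩
  have hsb1 : ∀ z ∈ Z, sb b z z = b z := by
    intro z hz
    have h1 := hconj z hz 1
    rw [one_mul, inv_one, mul_one, cj_one] at h1
    exact h1
  have hsb0 : ∀ z u : G, (¬ ∃ q : G, q * z * q⁻¹ = u) → sb b z u = 0 := by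
    intro z u h
    unfold sb
    rw [dif_neg h]
  -- one element of `Z`
  have key : ∀ z ∈ Z, ∑ g : G, ∑ u : G, (if Lp ℓ g u then
      gv M (Cu u) g (sb b z u) χ * starRingEnd ℂ (ψ g) else 0) =
      (Nat.card G : ℂ) * mm M ℓ (Cu z) z (b z) χ ψ := by
    intro z hz
    have hix : Ix (Cu z) (b z) := (hZ.lb z hz).1.bx.ix
    rw [Finset.sum_comm]
    set H : G → ℂ := fun u => ∑ g : G, (if Lp ℓ g u then
      gv M (Cu u) g (sb b z u) χ * starRingEnd ℂ (ψ g) else 0) with hH
    have h0 : ∀ u, (¬ ∃ q : G, q * z * q⁻¹ = u) → H u = 0 := by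
      intro u hu
      rw [hH]
      refine Finset.sum_eq_zero fun g _ => ?_
      rw [hsb0 z u hu, gv_zero, zero_mul, ite_self]
    have h1 := class_sum z H h0
    have h2 : ∀ q : G, H (q * z * q⁻¹) = H z := by
      intro q
      rw [hH]
      change (∑ g : G, (if Lp ℓ g (q * z * q⁻¹) then
        gv M (Cu (q * z * q⁻¹)) g (sb b z (q * z * q⁻¹)) χ * starRingEnd ℂ (ψ g) else 0)) =
        ∑ g : G, (if Lp ℓ g z then gv M (Cu z) g (sb b z z) χ * starRingEnd ℂ (ψ g) else 0)
      rw [← Equiv.sum_comp (MulAut.conj q).toEquiv]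
      refine Finset.sum_congr rfl fun g _ => ?_
      change (if Lp ℓ (q * g * q⁻¹) (q * z * q⁻¹) then
        gv M (Cu (q * z * q⁻¹)) (q * g * q⁻¹) (sb b z (q * z * q⁻¹)) χ *
          starRingEnd ℂ (ψ (q * g * q⁻¹)) else 0) = _
      rw [hconj z hz q, hsb1 z hz, T6.H69.gv_cj hix (T8.H88.irr_conj hχ) q g,
        T8.H88.irr_conj hψ g q]
      exact if_congr (T6.H69.lp_conj_iff q) rfl rfl
    have h3 : H z = (Nat.card (Cu z) : ℂ) * mm M ℓ (Cu z) z (b z) χ ψ := by
      have h4 := hBL ℓ M hM G z z (fun c hc => (T3.H62.comm_Cu hc).symm) (b z) hix χ hχ ψ hψ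
      have hc0 : (Nat.card (Cu z) : ℂ) ≠ 0 := by
        have : 0 < Nat.card (Cu z) := Nat.card_pos
        exact_mod_cast this.ne'
      rw [← h4, ← mul_assoc, mul_inv_cancel₀ hc0, one_mul, finsum_eq_sum_of_fintype, hH]
      change (∑ g : G, (if Lp ℓ g z then
        gv M (Cu z) g (sb b z z) χ * starRingEnd ℂ (ψ g) else 0)) = _
      rw [← Equiv.sum_comp (Equiv.mulLeft z)]
      refine Finset.sum_congr rfl fun s _ => ?_
      rw [finsum_eq_if, hsb1 z hz]
      refine if_congr ?_ rfl rfl
      change Lp ℓ (z * s) z ↔ _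
      constructor
      · intro h5
        have h6 : z * (z * s) = z * s * z := h5.com
        have h7 : z * s = s * z := by
          rw [mul_assoc] at h6
          exact mul_left_cancel h6
        refine ⟨?_, ?_⟩
        · rw [Subgroup.mem_centralizer_singleton_iff]
          exact h7.symm
        · have h8 := h5.reg
          rw [inv_mul_cancel_left] at h8
          exact h8
      · rintro ⟨h5, h6⟩
        have h7 : s * z = z * s := T3.H62.comm_Cu h5
        refine ⟨hZp z hz, ?_, ?_⟩
        · change z * (z * s) = z * s * z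
          rw [mul_assoc, h7]
        · rw [inv_mul_cancel_left]
          exact h6
    rw [Finset.sum_congr rfl fun q _ => h2 q, Finset.sum_const, nsmul_eq_mul, Finset.card_univ,
      ← Nat.card_eq_fintype_card, h3] at h1
    have hc0 : (Nat.card (Cu z) : ℂ) ≠ 0 := by
      have : 0 < Nat.card (Cu z) := Nat.card_pos
      exact_mod_cast this.ne'
    have h5 : (Nat.card (Cu z) : ℂ) * ((Nat.card G : ℂ) * mm M ℓ (Cu z) z (b z) χ ψ) =
        (Nat.card (Cu z) : ℂ) * ∑ u : G, H u := by
      rw [← h1]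
      ring
    exact (mul_left_cancel₀ hc0 h5).symm
  -- the sum
  have hfg : ∀ g : G, fg M ℓ c (fun (z : Z) (u : G) => sb b (z : G) u) χ g =
      ∑ u : G, if Lp ℓ g u then ∑ z : Z, c z * gv M (Cu u) g (sb b (z : G) u) χ else 0 := by
    intro g
    unfold fg fu
    rw [finsum_eq_sum_of_fintype]
    refine Finset.sum_congr rfl fun u _ => ?_
    rw [finsum_eq_if, mul_inv_cancel_left, finsum_eq_sum_of_fintype]
  have hsum : ∑ᶠ g : G, fg M ℓ c (fun (z : Z) (u : G) => sb b (z : G) u) χ g *
      starRingEnd ℂ (ψ g) = (Nat.card G : ℂ) * ∑ z : Z, c z * mm M ℓ (Cu (z : G)) z (b z) χ ψ := by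
    rw [finsum_eq_sum_of_fintype]
    calc ∑ g : G, fg M ℓ c (fun (z : Z) (u : G) => sb b (z : G) u) χ g * starRingEnd ℂ (ψ g)
        = ∑ g : G, ∑ u : G, ∑ z : Z, c z * (if Lp ℓ g u then
            gv M (Cu u) g (sb b (z : G) u) χ * starRingEnd ℂ (ψ g) else 0) := by
          refine Finset.sum_congr rfl fun g _ => ?_
          rw [hfg g, Finset.sum_mul]
          refine Finset.sum_congr rfl fun u _ => ?_
          by_cases h : Lp ℓ g u
          · rw [if_pos h, Finset.sum_mul]
            refine Finset.sum_congr rfl fun z _ => ?_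
            rw [if_pos h, mul_assoc]
          · rw [if_neg h, zero_mul]
            refine (Finset.sum_eq_zero fun z _ => ?_).symm
            rw [if_neg h, mul_zero]
      _ = ∑ z : Z, c z * ∑ g : G, ∑ u : G, (if Lp ℓ g u then
            gv M (Cu u) g (sb b (z : G) u) χ * starRingEnd ℂ (ψ g) else 0) := by
          have h1 : ∀ g : G, ∑ u : G, ∑ z : Z, c z * (if Lp ℓ g u then
            gv M (Cu u) g (sb b (z : G) u) χ * starRingEnd ℂ (ψ g) else 0) =
            ∑ z : Z, ∑ u : G, c z * (if Lp ℓ g u then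
            gv M (Cu u) g (sb b (z : G) u) χ * starRingEnd ℂ (ψ g) else 0) := fun g =>
            Finset.sum_comm
          rw [Finset.sum_congr rfl fun g _ => h1 g, Finset.sum_comm]
          refine Finset.sum_congr rfl fun z _ => ?_
          rw [Finset.mul_sum]
          refine Finset.sum_congr rfl fun g _ => ?_
          rw [Finset.mul_sum]
      _ = _ := by
          rw [Finset.mul_sum]
          refine Finset.sum_congr rfl fun z _ => ?_
          rw [key z z.2]
          ring
  have hG0 : (Nat.card G : ℂ) ≠ 0 := by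
    have : 0 < Nat.card G := Nat.card_pos
    exact_mod_cast this.ne'
  rw [hsum, ← mul_assoc, inv_mul_cancel₀ hG0, one_mul, finsum_eq_sum_of_fintype]

end Pool.Agent.PP.T10.H69
end
end -- Pool.Agent.Helper69_AT10.LNK

section -- Pool.Agent.Helper1_ASD.LNT

/-!
# Squad ASD, row LNT: the theorem of Fong and Reynolds for the number of modular characters
-/

set_option autoImplicit false

open scoped BigOperators

noncomputable section

namespace Pool.Agent.PP.SD.H1

open Pool.Agent.Helper51_AWC Pool.Agent.Helper79_WRA Pool.Agent.PP Pool.Agent.PP.KF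
open Pool.Agent.PP.K9 Pool.Agent.PP.K9.H97 Pool.Agent.PP.H75 Pool.Agent.PP.T3 Pool.Agent.PP.SO
open Pool.Agent.PP.SD

/-- the alternating sum for the trivial subgroup -/
theorem yy_bot {ℓ : ℕ} [Fact ℓ.Prime] {F G : Type} [Field F] [Group G] [Finite G] (e : G → F) :
    YY ℓ (⊥ : Subgroup G) e = (Nat.card G : ℤ) * (ln e : ℤ) := by
  have h1 : chainsOn (psubIn ℓ (⊥ : Subgroup G)) ⊥ = {{⊥}} := by
    ext d
    rw [mem_chainsOn, Finset.mem_singleton]
    constructor
    · rintro ⟨h1, h2, -⟩
      ext D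
      rw [Finset.mem_singleton]
      constructor
      · intro hD
        exact le_bot_iff.1 (mem_psubIn'.1 (h1 hD)).1
      · rintro rfl
        exact h2
    · rintro rfl
      refine ⟨?_, Finset.mem_singleton_self _, ?_⟩
      · intro D hD
        rw [Finset.mem_singleton.1 hD]
        exact mem_psubIn'.2 ⟨le_rfl, IsPGroup.of_bot⟩
      · rw [Finset.coe_singleton]
        exact Set.subsingleton_singleton.isChain
  have h2 : stab ({⊥} : Finset (Subgroup G)) = ⊤ := by
    unfold stab
    rw [Finset.iInf_singleton]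
    exact Subgroup.normalizer_eq_top_iff.2 inferInstance
  unfold YY
  rw [h1, Finset.sum_singleton, h2, Finset.card_singleton, T2.H23.ln_eq, Subgroup.card_top]
  norm_num

theorem lnt : LntStmt := by
  intro ℓ _ F _ hF N _ _ C hC e he b hb heb
  have h : Bd C b := ⟨hC, hb.supp, hb.blk⟩
  have hb0 : b ≠ 0 := by
    rintro rfl
    exact hb.blk.2.1 rfl
  have hne : mulF e b ≠ 0 := by rwa [heb]
  have h1 := h.yy H94.nch H74.orb H20.nls H20.ibf H20.ibj H20.ibn H20.eig hF he hne
    (R := ⊥) inferInstance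
  have h2 : (⊥ : Subgroup N).subgroupOf (st b) = ⊥ := Subgroup.bot_subgroupOf _
  rw [h2, yy_bot, yy_bot, heb, ← mul_assoc] at h1
  have h3 : ((st b).index : ℤ) * (Nat.card (st b) : ℤ) = (Nat.card N : ℤ) := by
    have := (st b).index_mul_card
    exact_mod_cast this
  rw [h3] at h1
  have h4 : (Nat.card N : ℤ) ≠ 0 := by exact_mod_cast Nat.card_pos.ne'
  exact_mod_cast mul_left_cancel₀ h4 h1

end Pool.Agent.PP.SD.H1
end
end -- Pool.Agent.Helper1_ASD.LNT

section -- Pool.Agent.Helper32_AT6.SEC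

/-!
# Squad AT6, row SEC: the decomposition of a class function into sections
-/

open scoped BigOperators

noncomputable section

namespace Pool.Agent.PP.T6.H32

open Pool.Agent.Helper51_AWC Pool.Agent.Helper79_WRA Pool.Agent.PP Pool.Agent.PP.KF
open Pool.Agent.PP.K9 Pool.Agent.PP.K9.H97 Pool.Agent.PP.H75 Pool.Agent.PP.T3 Pool.Agent.PP.T2

attribute [local instance] Ideal.Quotient.field

section dec

variable {F H : Type} [Field F] [Group H] [Finite H]

/-- an additive function of idempotents is the sum over the blocks -/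
theorem sum_blocks (Φ : (H → F) → ℂ) (h0 : Φ 0 = 0)
    (hadd : ∀ f₁ f₂ : H → F, IsIdem f₁ → IsIdem f₂ → mulF f₁ f₂ = 0 →
      Φ (f₁ + f₂) = Φ f₁ + Φ f₂) (f : H → F) (hf : IsIdem f) :
    Φ f = ∑ κ ∈ (T2.H83.blk_finite (F := F) (H := H)).toFinset,
      (open Classical in if mulF f κ = κ then Φ κ else 0) := by
  classical
  refine H46.idem_induction (fun f => Φ f =
    ∑ κ ∈ (T2.H83.blk_finite (F := F) (H := H)).toFinset,
      (if mulF f κ = κ then Φ κ else 0)) ?_ ?_ ?_ f hf
  · show Φ 0 = _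
    rw [h0, Finset.sum_eq_zero]
    intro κ hκ
    rw [Set.Finite.mem_toFinset] at hκ
    rw [if_neg]
    intro h
    exact hκ.2.1 (by rw [← h, mulF_zero_left])
  · intro b hb
    show Φ b = _
    rw [Finset.sum_eq_single b]
    · rw [if_pos hb.1.2]
    · intro κ hκ hne
      rw [Set.Finite.mem_toFinset] at hκ
      rw [if_neg]
      intro h
      rcases hb.2.2 κ hκ.1 with h1 | h1
      · exact hne (by rw [← h, h1])
      · exact hκ.2.1 (by rw [← h, h1])
    · intro h
      exact absurd ((Set.Finite.mem_toFinset (T2.H83.blk_finite (F := F) (H := H))).2 hb) h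
  · intro e₁ e₂ h1 h2 h12 p1 p2
    show Φ (e₁ + e₂) = _
    have p1' : Φ e₁ = _ := p1
    have p2' : Φ e₂ = _ := p2
    rw [hadd e₁ e₂ h1 h2 h12, p1', p2', ← Finset.sum_add_distrib]
    refine Finset.sum_congr rfl fun κ hκ => ?_
    rw [Set.Finite.mem_toFinset] at hκ
    have h21 : mulF e₂ e₁ = 0 := by rw [← H46.mulF_comm h1.1, h12]
    have hs : mulF (e₁ + e₂) κ = mulF e₁ κ + mulF e₂ κ := by
      apply ma_injective
      rw [ma_mul, ma_add, ma_add, ma_mul, ma_mul, add_mul]
    have hx1 : mulF e₁ κ = κ → mulF e₂ κ = 0 := by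
      intro h
      rw [← h, ← mulF_assoc, h21, mulF_zero_left]
    have hx2 : mulF e₂ κ = κ → mulF e₁ κ = 0 := by
      intro h
      rw [← h, ← mulF_assoc, h12, mulF_zero_left]
    by_cases c1 : mulF e₁ κ = κ
    · have c2 : mulF e₂ κ ≠ κ := by
        rw [hx1 c1]
        exact fun h => hκ.2.1 h.symm
      rw [if_pos c1, if_neg c2, if_pos, add_zero]
      rw [hs, c1, hx1 c1, add_zero]
    · by_cases c2 : mulF e₂ κ = κ
      · rw [if_neg c1, if_pos c2, if_pos, zero_add]
        rw [hs, c2, hx2 c2, zero_add]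
      · rw [if_neg c1, if_neg c2, if_neg, add_zero]
        intro h
        rcases T2.H83.blk_split hκ h1 h with h3 | h3
        · exact c1 h3
        · exact c2 h3

end dec

section orb

/-- the sum of the weights over an orbit is one -/
theorem sum_orbit {G : Type} [Group G] [Fintype G] (T : Subgroup G) (v : G) (O : Set G)
    (hO : ∀ w, w ∈ O ↔ ∃ t ∈ T, t * v * t⁻¹ = w) :
    ∑ w : G, (open Classical in if w ∈ O then
      ((Nat.card (T ⊓ Cu w : Subgroup G) : ℂ) / Nat.card T) else 0) = 1 := by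
  classical
  have hT : (Nat.card T : ℂ) ≠ 0 := by
    exact_mod_cast Nat.card_pos.ne'
  have key : ∀ w : G, (if w ∈ O then
      ((Nat.card (T ⊓ Cu w : Subgroup G) : ℂ) / Nat.card T) else 0) =
      (Nat.card T : ℂ)⁻¹ * ∑ t : T, (if (t : G) * v * (t : G)⁻¹ = w then (1 : ℂ) else 0) := by
    intro w
    split_ifs with hw
    · obtain ⟨t₁, ht₁, htw⟩ := (hO w).1 hw
      rw [div_eq_inv_mul]
      congr 1
      rw [Finset.sum_boole]
      have e : Nat.card (T ⊓ Cu w : Subgroup G) =
          (Finset.univ.filter fun t : T => (t : G) * v * (t : G)⁻¹ = w).card := by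
        rw [← Fintype.card_subtype, ← Nat.card_eq_fintype_card]
        refine Nat.card_congr ⟨fun s => ⟨⟨(s : G) * t₁, T.mul_mem s.2.1 ht₁⟩, ?_⟩,
          fun t => ⟨((t : T) : G) * t₁⁻¹, ?_, ?_⟩, ?_, ?_⟩
        · show (s : G) * t₁ * v * ((s : G) * t₁)⁻¹ = w
          have h1 : (s : G) * w = w * s := Subgroup.mem_centralizer_singleton_iff.1 s.2.2
          calc (s : G) * t₁ * v * ((s : G) * t₁)⁻¹ = (s : G) * (t₁ * v * t₁⁻¹) * (s : G)⁻¹ := by
                group
            _ = w := by rw [htw, h1]; group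
        · exact T.mul_mem (t : T).2 (T.inv_mem ht₁)
        · apply Subgroup.mem_centralizer_singleton_iff.2
          have h1 : ((t : T) : G) * v * ((t : T) : G)⁻¹ = w := t.2
          calc ((t : T) : G) * t₁⁻¹ * w = ((t : T) : G) * t₁⁻¹ * (t₁ * v * t₁⁻¹) := by rw [htw]
            _ = (((t : T) : G) * v * ((t : T) : G)⁻¹) * (((t : T) : G) * t₁⁻¹) := by group
            _ = w * (((t : T) : G) * t₁⁻¹) := by rw [h1]
        · intro s
          apply Subtype.ext
          show (s : G) * t₁ * t₁⁻¹ = s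
          group
        · intro t
          apply Subtype.ext
          apply Subtype.ext
          show ((t : T) : G) * t₁⁻¹ * t₁ = t
          group
      rw [e]
    · rw [Finset.sum_eq_zero, mul_zero]
      intro t _
      rw [if_neg]
      intro h
      exact hw ((hO w).2 ⟨t, t.2, h⟩)
  rw [Finset.sum_congr rfl fun w _ => key w, ← Finset.mul_sum, Finset.sum_comm]
  have h2 : ∀ t : T, ∑ w : G, (if (t : G) * v * (t : G)⁻¹ = w then (1 : ℂ) else 0) = 1 := by
    intro t
    simp
  rw [Finset.sum_congr rfl fun t _ => h2 t, Finset.sum_const, Finset.card_univ, nsmul_eq_mul,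
    mul_one, ← Nat.card_eq_fintype_card]
  exact inv_mul_cancel₀ hT

end orb

/-- existence of the `ℓ`-part -/
theorem lp_exists {G : Type} [Group G] [Finite G] {ℓ : ℕ} [Fact ℓ.Prime] (g : G) :
    ∃ x, T5.Lp ℓ g x := by
  obtain ⟨N, hN, -⟩ := H27.prt ℓ G
  refine ⟨(g ^ N)⁻¹ * g, (hN g).2, ?_, ?_⟩
  · exact (((Commute.refl g).pow_left N).inv_left).mul_left (Commute.refl g)
  · have e : ((g ^ N)⁻¹ * g)⁻¹ * g = g ^ N := by
      have h1 : g⁻¹ * g ^ N * g = g ^ N := by
        have h2 : g ^ N * g = g * g ^ N := ((Commute.refl g).pow_left N).eq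
        rw [mul_assoc, h2, inv_mul_cancel_left]
      rw [mul_inv_rev, inv_inv]
      exact h1
    rw [e]
    exact (hN g).1

/-- SEC: the decomposition of a class function into the components in the sections. -/
theorem sec (svv : SvvStmt) (smh : SmhStmt) (lcx : LcxStmt) (loc : T3.LocStmt)
    (fus : T3.FusStmt) : SecStmt := by
  intro ℓ hℓ M _ hM G _ _ e V γ hL b hlc θ hθ g
  classical
  have := Fintype.ofFinite G
  have hF : GoodF ℓ (FF M) := H50.fld ℓ Fact.out M hM
  obtain ⟨x, hx⟩ := lp_exists (ℓ := ℓ) g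
  set C : Subgroup G := Cu x with hC
  have := Fintype.ofFinite C
  obtain ⟨s, hs⟩ : ∃ s, s = x⁻¹ * g := ⟨_, rfl⟩
  have hg : g = x * s := by rw [hs]; group
  have hsC : s ∈ C := by
    apply Subgroup.mem_centralizer_singleton_iff.2
    rw [hs]
    have h1 : x * g = g * x := hx.com
    calc x⁻¹ * g * x = x⁻¹ * (g * x) := by group
      _ = x⁻¹ * (x * g) := by rw [h1]
      _ = x * (x⁻¹ * g) := by group
  have hsr : Reg ℓ s := by rw [hs]; exact hx.reg
  have hE : IsIdem (fun t : C => e t) := T3.H98.idem_cu hF hL.blk.1 hx.el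
  -- the blocks of the centraliser
  set K := (T2.H83.blk_finite (F := FF M) (H := C)).toFinset with hK
  have hKm : ∀ κ, κ ∈ K ↔ IsBlk κ := fun κ => Set.Finite.mem_toFinset _
  have hleft : T8.fv (eh M e) g θ = ∑ κ ∈ K,
      (if mulF (fun t : C => e t) κ = κ then gbv C g (eh M κ) θ else 0) := by
    have h1 := smh ℓ M hM G e hL.blk.1 x hx.el s hsC hsr θ hθ
    rw [← hg] at h1
    rw [h1]
    show gbv C g (eh M fun t : C => e t) θ = _
    refine (sum_blocks (fun κ : C → FF M => gbv C g (eh M κ) θ) ?_ ?_ _ hE).trans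
      (Finset.sum_congr rfl fun κ _ => ?_)
    · show gbv C g (eh M (0 : C → FF M)) θ = 0
      rw [T3.H98.eh_zero]
      unfold gbv
      rw [finsum_eq_sum_of_fintype, Finset.sum_eq_zero]
      intro t _
      rw [Pi.zero_apply, zero_mul]
    · intro f₁ f₂ h1 h2 h12
      show gbv C g (eh M (f₁ + f₂)) θ = gbv C g (eh M f₁) θ + gbv C g (eh M f₂) θ
      rw [T3.H98.eh_add h1 h2 h12]
      unfold gbv
      rw [finsum_eq_sum_of_fintype, finsum_eq_sum_of_fintype, finsum_eq_sum_of_fintype,
        ← Finset.sum_add_distrib]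
      refine Finset.sum_congr rfl fun t _ => ?_
      rw [Pi.add_apply, add_mul]
    · by_cases hc : mulF (fun t : C => e t) κ = κ
      · rw [if_pos hc, if_pos hc]
      · rw [if_neg hc, if_neg hc]
  -- the relation between the elements of `V` and the blocks
  set R : G → (C → FF M) → Prop := fun v κ =>
    v ∈ V ∧ ∃ u : G, x = u * v * u⁻¹ ∧ (fun t : C => cj u (b v) t) = κ with hR
  have hbx : ∀ v ∈ V, ∀ u : G, x = u * v * u⁻¹ → Bx C (cj u (b v)) := by
    intro v hv u hu
    exact T3.H49.bx_cj hu.symm (hlc v hv).blk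
  -- the conjugate block is under the idempotent
  have hund : ∀ v ∈ V, ∀ u : G, x = u * v * u⁻¹ →
      mulF (fun t : C => e t) (fun t : C => cj u (b v) t) = fun t : C => cj u (b v) t := by
    intro v hv u hu
    have hres : ∀ (X : Subgroup G) (c : G → FF M), (∀ x, x ∉ X → c x = 0) →
        (fun s : X => mulF e c s) = mulF (fun s : X => e s) (fun s : X => c s) := by
      intro X c hc
      rw [H20.mulF_comm_of_cl hL.blk.1.1 c, mulF_res X e hc,
        H20.mulF_comm_of_cl (a := fun s : X => e s) (fun x y => hL.blk.1.1 x y)]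
    have h1 := hres C (cj u (b v)) (hbx v hv u hu).supp
    have h2 := hres (Cu v) (b v) (hlc v hv).blk.supp
    rw [← h1]
    funext s
    have he : cj u e = e := cj_isCl u hL.blk.1.1
    have h3 : mulF e (cj u (b v)) = cj u (mulF e (b v)) := by
      rw [cj_mulF, he]
    have h4 : u⁻¹ * (s : G) * u ∈ Cu v := (T3.H49.cu_conj hu.symm _).2 s.2
    have h5 := congrFun (h2.trans (hlc v hv).und) ⟨_, h4⟩
    show mulF e (cj u (b v)) (s : G) = cj u (b v) s
    rw [h3]
    exact h5
  -- uniqueness of the block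
  have huniq : ∀ v ∈ V, ∀ u u' : G, x = u * v * u⁻¹ → x = u' * v * u'⁻¹ →
      cj u' (b v) = cj u (b v) := by
    intro v hv u u' hu hu'
    have hc : u' * u⁻¹ ∈ C := by
      apply Subgroup.mem_centralizer_singleton_iff.2
      calc u' * u⁻¹ * x = u' * u⁻¹ * (u * v * u⁻¹) := by rw [← hu]
        _ = (u' * v * u'⁻¹) * (u' * u⁻¹) := by group
        _ = x * (u' * u⁻¹) := by rw [← hu']
    have h1 := (hbx v hv u hu).ix.inv hc
    have h2 : cj (u' * u⁻¹) (cj u (b v)) = cj u' (b v) := by
      funext t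
      show b v (u⁻¹ * ((u' * u⁻¹)⁻¹ * t * (u' * u⁻¹)) * u) = b v (u'⁻¹ * t * u')
      congr 1
      group
    rw [← h2, h1]
  -- the values of the components
  have hsv : ∀ v ∈ V, ∀ u : G, x = u * v * u⁻¹ →
      sv M ℓ v (b v) θ g = gbv C g (eh M fun t : C => cj u (b v) t) θ := by
    intro v hv u hu
    have hix := (hlc v hv).blk.ix
    have h1 := (svv ℓ M hM G v (b v) hix θ hθ).2.2.2.2 u g
    rw [← hu] at h1
    have h2 := (svv ℓ M hM G x (cj u (b v)) (hbx v hv u hu).ix θ hθ).1 g 1 (by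
      have e1 : (1 : G)⁻¹ * g * 1 = g := by group
      rw [e1]
      exact hx)
    have e1 : (1 : G)⁻¹ * g * 1 = g := by group
    rw [e1] at h2
    rw [← h1, h2]
    rfl
  have hsv0 : ∀ v ∈ V, (∀ u : G, x ≠ u * v * u⁻¹) → sv M ℓ v (b v) θ g = 0 := by
    intro v hv hu
    refine (svv ℓ M hM G v (b v) (hlc v hv).blk.ix θ hθ).2.1 g ?_
    intro u h
    have h1 := T6.H69.lp_conj u h
    have e1 : u * (u⁻¹ * g * u) * u⁻¹ = g := by group
    rw [e1] at h1
    exact hu u (T6.H69.lp_unique hx h1)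
  -- the sum of the weights
  have hw : ∀ κ ∈ K, mulF (fun t : C => e t) κ = κ →
      ∑ v : G, (if R v κ then wt V γ v else 0) = 1 := by
    intro κ hκ hund'
    rw [hKm] at hκ
    set κ' : G → FF M := H75.ext0 C κ with hκ'
    have hres' : (fun t : C => κ' t) = κ := funext (ext0_apply C κ)
    have hBx : Bx C κ' := ⟨ext0_supp C κ, by rw [hres']; exact hκ⟩
    obtain ⟨u, v, hv, hxu, hLc⟩ := lcx ℓ M hM G e V γ hL x hx.el κ' hBx (by
      rw [hres']; exact hund')
    have hbv : b v = cj u⁻¹ κ' := (loc ℓ (FF M) hF G e V γ hL v hv).2 _ _ (hlc v hv) hLc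
    have hκv : cj u (b v) = κ' := by
      rw [hbv]
      funext t
      show κ' (u⁻¹⁻¹ * (u⁻¹ * t * u) * u⁻¹) = κ' t
      congr 1
      group
    have hO : ∀ w, w ∈ {w | R w κ} ↔ ∃ t ∈ Tg V γ, t * v * t⁻¹ = w := by
      intro w
      constructor
      · rintro ⟨hwV, u', hu', hk⟩
        have hk' : cj u' (b w) = κ' := by
          apply eq_of_res (hbx w hwV u' hu').supp hBx.supp
          rw [hk, hres']
        have hg1 : u⁻¹ * u' * w * (u⁻¹ * u')⁻¹ = v := by
          calc u⁻¹ * u' * w * (u⁻¹ * u')⁻¹ = u⁻¹ * (u' * w * u'⁻¹) * u := by group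
            _ = u⁻¹ * (u * v * u⁻¹) * u := by rw [← hu', hxu]
            _ = v := by group
        have hg2 : cj (u⁻¹ * u') (b w) = b v := by
          have e1 : cj (u⁻¹ * u') (b w) = cj u⁻¹ (cj u' (b w)) := by
            funext t
            show b w ((u⁻¹ * u')⁻¹ * t * (u⁻¹ * u')) = b w (u'⁻¹ * (u⁻¹⁻¹ * t * u⁻¹) * u')
            congr 1
            group
          rw [e1, hk', hbv]
        obtain ⟨t, ht, htv⟩ := fus ℓ M hM G e V γ hL v hv w hwV (b v) (b w) (hlc v hv)
          (hlc w hwV) (u⁻¹ * u') hg1 hg2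
        refine ⟨t⁻¹, (Tg V γ).inv_mem ht, ?_⟩
        rw [← htv]
        group
      · rintro ⟨t, ht, htv⟩
        have hwV : w ∈ V := by
          rw [← htv]
          exact (Subgroup.mem_normalizer_iff.1 ht.1 v).1 hv
        have hl : Lc e V γ w (cj t (b v)) := T8.H88.lc_cj hL ht htv (hlc v hv)
        have hbw : b w = cj t (b v) := (loc ℓ (FF M) hF G e V γ hL w hwV).2 _ _ (hlc w hwV) hl
        refine ⟨hwV, u * t⁻¹, ?_, ?_⟩
        · rw [← htv, hxu]
          group
        · rw [hbw]
          have e1 : cj (u * t⁻¹) (cj t (b v)) = cj u (b v) := by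
            funext y
            show b v (t⁻¹ * ((u * t⁻¹)⁻¹ * y * (u * t⁻¹)) * t) = b v (u⁻¹ * y * u)
            congr 1
            group
          rw [e1, hκv, hres']
    have h1 := sum_orbit (Tg V γ) v {w | R w κ} hO
    rw [← h1]
    refine Finset.sum_congr rfl fun w _ => ?_
    by_cases hw : R w κ
    · rw [if_pos hw]
      exact (if_pos (show w ∈ {w | R w κ} from hw)).symm
    · rw [if_neg hw]
      exact (if_neg (show w ∉ {w | R w κ} from hw)).symm
  -- the right side
  have hright : ∑ᶠ (v : G) (_ : v ∈ V), wt V γ v * sv M ℓ v (b v) θ g =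
      ∑ v : G, ∑ κ ∈ K, (if mulF (fun t : C => e t) κ = κ then
        (if R v κ then wt V γ v * gbv C g (eh M κ) θ else 0) else 0) := by
    rw [finsum_eq_sum_of_fintype]
    refine Finset.sum_congr rfl fun v _ => ?_
    rw [finsum_eq_if]
    by_cases hv : v ∈ V
    · rw [if_pos hv]
      by_cases hu : ∃ u : G, x = u * v * u⁻¹
      · obtain ⟨u, hu⟩ := hu
        rw [Finset.sum_eq_single (fun t : C => cj u (b v) t)]
        · rw [if_pos (hund v hv u hu), if_pos ⟨hv, u, hu, rfl⟩, hsv v hv u hu]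
        · intro κ _ hne
          have hnR : ¬ R v κ := by
            rintro ⟨_, u', hu', hk⟩
            apply hne
            rw [← hk, huniq v hv u u' hu hu']
          rw [if_neg hnR]
          split_ifs <;> rfl
        · intro h
          exact absurd ((hKm _).2 (hbx v hv u hu).blk) h
      · rw [hsv0 v hv (fun u h => hu ⟨u, h⟩), mul_zero, Finset.sum_eq_zero]
        intro κ _
        have hnR : ¬ R v κ := by
          rintro ⟨_, u', hu', _⟩
          exact hu ⟨u', hu'⟩
        rw [if_neg hnR]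
        split_ifs <;> rfl
    · rw [if_neg hv, Finset.sum_eq_zero]
      intro κ _
      rw [if_neg (fun h : R v κ => hv h.1)]
      split_ifs <;> rfl
  rw [hleft, hright, Finset.sum_comm]
  refine Finset.sum_congr rfl fun κ hκ => ?_
  by_cases hund' : mulF (fun t : C => e t) κ = κ
  · rw [if_pos hund']
    have h1 : ∀ v : G, (if mulF (fun t : C => e t) κ = κ then
        (if R v κ then wt V γ v * gbv C g (eh M κ) θ else 0) else 0) =
        (if R v κ then wt V γ v else 0) * gbv C g (eh M κ) θ := by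
      intro v
      rw [if_pos hund']
      split_ifs
      · rfl
      · rw [zero_mul]
    rw [Finset.sum_congr rfl fun v _ => h1 v, ← Finset.sum_mul, hw κ hκ hund', one_mul]
  · rw [if_neg hund', Finset.sum_eq_zero]
    intro v _
    rw [if_neg hund']

end Pool.Agent.PP.T6.H32
end
end -- Pool.Agent.Helper32_AT6.SEC

section -- Pool.Agent.Helper39_AT6.CND

/-!
# Squad AT6, row CND: when is the local block of `H` under a conjugate of a local block
-/

open scoped BigOperators

noncomputable section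

namespace Pool.Agent.PP.T6.H39

open Pool.Agent.Helper51_AWC Pool.Agent.Helper79_WRA Pool.Agent.PP Pool.Agent.PP.KF
open Pool.Agent.PP.K9 Pool.Agent.PP.K9.H97 Pool.Agent.PP.H75 Pool.Agent.PP.T3 Pool.Agent.PP.T2

attribute [local instance] Ideal.Quotient.field

section tools

variable {F G : Type} [Field F] [Group G] [Finite G]

/-- a conjugate of a block under `e` is under `e` -/
theorem und_cj {e : G → F} (he : IsCl e) {u u' w : G} (h : w * u' * w⁻¹ = u) {b : G → F}
    (hb : Bx (Cu u') b)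
    (hund : mulF (fun t : Cu u' => e t) (fun t : Cu u' => b t) = fun t : Cu u' => b t) :
    mulF (fun t : Cu u => e t) (fun t : Cu u => cj w b t) = fun t : Cu u => cj w b t := by
  have hbx : Bx (Cu u) (cj w b) := T3.H49.bx_cj h hb
  have hres : ∀ (X : Subgroup G) (c : G → F), (∀ x, x ∉ X → c x = 0) →
      (fun s : X => mulF e c s) = mulF (fun s : X => e s) (fun s : X => c s) := by
    intro X c hc
    rw [H20.mulF_comm_of_cl he c, mulF_res X e hc,
      H20.mulF_comm_of_cl (a := fun s : X => e s) (fun x y => he x y)]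
  have h1 := hres (Cu u) (cj w b) hbx.supp
  have h2 := hres (Cu u') b hb.supp
  rw [← h1]
  funext s
  have he' : cj w e = e := cj_isCl w he
  have h3 : mulF e (cj w b) = cj w (mulF e b) := by
    rw [cj_mulF, he']
  have h4 : w⁻¹ * (s : G) * w ∈ Cu u' := (T3.H49.cu_conj h _).2 s.2
  have h5 := congrFun (h2.trans hund) ⟨_, h4⟩
  show mulF e (cj w b) (s : G) = cj w b s
  rw [h3]
  exact h5

omit [Finite G] in
theorem cent_sub' {H V : Subgroup G} (hVH : V ≤ H) (t : H) :
    t ∈ Subgroup.centralizer ((V.subgroupOf H : Subgroup H) : Set H) ↔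
      (t : G) ∈ Subgroup.centralizer (V : Set G) := by
  rw [Subgroup.mem_centralizer_iff, Subgroup.mem_centralizer_iff]
  constructor
  · intro h q hq
    exact congrArg Subtype.val (h ⟨q, hVH hq⟩ hq)
  · intro h q hq
    exact Subtype.ext (h q hq)

omit [Finite G] in
theorem br_sub {H V : Subgroup G} (hVH : V ≤ H) (a : G → F) :
    (fun t : H => br V a t) = br (V.subgroupOf H) (fun t : H => a t) := by
  funext t
  by_cases ht : (t : G) ∈ Subgroup.centralizer (V : Set G)
  · rw [H66.br_of_mem ht, H66.br_of_mem ((cent_sub' hVH t).2 ht)]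
  · rw [H66.br_of_not_mem ht, H66.br_of_not_mem (fun h => ht ((cent_sub' hVH t).1 h))]

end tools

/-- the core of row CND, for a general name of the subgroup -/
theorem cnd_core (fus : FusStmt) {ℓ : ℕ} [Fact ℓ.Prime] {M : Ideal (integralClosure ℤ ℂ)}
    [M.IsMaximal] (hM : (ℓ : integralClosure ℤ ℂ) ∈ M) {G : Type} [Group G] [Finite G]
    {e : G → FF M} {V : Subgroup G} {γ : G → FF M} (hL : Ld ℓ e V γ) {W : Subgroup G}
    (hWV : W ≤ V) {H : Subgroup G} (hH : H = Subgroup.centralizer (W : Set G)) {f : G → FF M}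
    {v : G} (hv : v ∈ V) {b : G → FF M} (hb : Lc e V γ v b) {v' : H} (hv' : (v' : G) ∈ V)
    {V' : Subgroup H} (hV' : V' = V.subgroupOf H) {γ' : H → FF M} (hγ' : γ' = fun t : H => γ t)
    {g' : H → FF M} (hg' : Lc (fun t : H => f t) V' γ' v' g') {w : G} (hw : w * v * w⁻¹ = v')
    {h : G → FF M} (hh : h = cj w b) :
    ((∃ t ∈ Tg V γ, t * v * t⁻¹ = v') → mulF (fun t : H => h t) g' = g') ∧
      ((¬ ∃ t ∈ Tg V γ, t * v * t⁻¹ = v') → mulF (fun t : H => h t) g' = 0) := by
  have hF : GoodF ℓ (FF M) := H50.fld ℓ Fact.out M hM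
  have hVH : V ≤ H := by
    intro x hx
    rw [hH, Subgroup.mem_centralizer_iff]
    intro q hq
    exact hL.ab q (hWV hq) x hx
  have hCH : Subgroup.centralizer (V : Set G) ≤ H := by
    rw [hH]
    exact Subgroup.centralizer_le (fun x hx => hWV hx)
  have hVC : V ≤ Cu (v' : G) := H88.le_cu hL hv'
  have hWp : IsPGroup ℓ W := hL.tp.pg.to_le hWV
  have hbx : Bx (Cu (v' : G)) h := by
    rw [hh]
    exact T3.H49.bx_cj hw hb.blk
  have hWi : H66.Inv W h := fun p hp => (cj_eq_iff p h).1 (hbx.ix.inv (hVC (hWV hp)))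
  have hres : (fun t : H => br W h t) = fun t : H => h t := by
    funext t
    exact H66.br_of_mem (hH ▸ t.2)
  have hmulH : mulF (fun t : H => h t) (fun t : H => h t) = fun t : H => h t := by
    have h1 := H66.br_mulF hF hWp hWi hWi
    rw [hbx.mul] at h1
    have h2 := mulF_res H (br W h) (a := br W h)
      (fun x hx => H66.br_of_not_mem (by rw [← hH]; exact hx))
    rw [← h1, hres] at h2
    exact h2.symm
  have hsupp : ∀ t : H, t ∉ Cu v' → h t = 0 := by
    intro t ht
    apply hbx.supp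
    intro h1
    apply ht
    rw [Subgroup.mem_centralizer_singleton_iff] at h1 ⊢
    exact Subtype.ext h1
  have hix : Ix (Cu v') (fun t : H => h t) := by
    refine ⟨hsupp, ?_, ?_⟩
    · intro x y
      have hy : ((y : H) : G) ∈ Cu (v' : G) := by
        rw [Subgroup.mem_centralizer_singleton_iff]
        exact congrArg Subtype.val (Subgroup.mem_centralizer_singleton_iff.1 y.2)
      exact (cj_eq_iff _ _).1 (hbx.ix.inv hy) ((x : H) : G)
    · have h1 := mulF_res (Cu v') (fun t : H => h t) (a := fun t : H => h t) hsupp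
      rw [hmulH] at h1
      exact h1.symm
  have hV'p : IsPGroup ℓ V' := by
    rw [hV']
    exact hL.tp.pg.comap_subtype
  have hV'C : V' ≤ Cu v' := by
    intro x hx
    rw [hV'] at hx
    rw [Subgroup.mem_centralizer_singleton_iff]
    exact Subtype.ext (Subgroup.mem_centralizer_singleton_iff.1 (hVC hx))
  have hγ0 : γ' ≠ 0 := by
    intro h0
    apply hL.gam.ne
    apply H75.eq_of_res (N := H) (fun x hx => hL.gam.supp x (fun h1 => hx (hCH h1)))
      (fun _ _ => rfl)
    rw [hγ'] at h0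
    exact h0
  have hbr := H88.br_mul hF hV'p hV'C hix hg'.blk.ix
  have hcomm : mulF (fun t : H => h t) g' = mulF g' (fun t : H => h t) := hix.comm hg'.blk.ix
  have hequiv : mulF (br V' (fun t : H => h t)) γ' = fun t : H => mulF (br V h) γ t := by
    rw [hV', hγ', ← br_sub hVH h]
    exact (mulF_res H γ (a := br V h)
      (fun x hx => H66.br_of_not_mem (fun h1 => hx (hCH h1)))).symm
  refine ⟨?_, ?_⟩
  · rintro ⟨t, ht, htv⟩
    have hcj : h = cj t b := by
      have h1 : t⁻¹ * w ∈ Cu v := by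
        rw [Subgroup.mem_centralizer_singleton_iff]
        have h2 : w * v = v' * w := by
          rw [← hw]
          group
        have h3 : t⁻¹ * v' = v * t⁻¹ := by
          rw [← htv]
          group
        calc t⁻¹ * w * v = t⁻¹ * (w * v) := by group
          _ = (t⁻¹ * v') * w := by rw [h2]; group
          _ = v * (t⁻¹ * w) := by rw [h3]; group
      have h2 := hb.blk.ix.inv h1
      rw [hh]
      conv_rhs => rw [← h2]
      rw [cj_cj]
      congr 1
      group
    have hlc := T8.H88.lc_cj hL ht htv hb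
    rw [← hcj] at hlc
    have h1 : mulF (br V' (fun t : H => h t)) γ' = γ' := by
      rw [hequiv, hlc.gam, hγ']
    rcases hg'.blk.dich' hix with h2 | h2
    · rw [hcomm, h2]
    · exfalso
      apply hγ0
      rw [hcomm, h2, H88.br_zero] at hbr
      calc γ' = mulF (br V' (fun t : H => h t)) (mulF (br V' g') γ') := by rw [hg'.gam, h1]
        _ = mulF (mulF (br V' (fun t : H => h t)) (br V' g')) γ' := (mulF_assoc _ _ _).symm
        _ = 0 := by rw [← hbr, mulF_zero_left]
  · intro hno
    rcases hg'.blk.dich' hix with h2 | h2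
    · exfalso
      apply hno
      have h1 : mulF (br V' (fun t : H => h t)) γ' = γ' := by
        calc mulF (br V' (fun t : H => h t)) γ'
            = mulF (br V' (fun t : H => h t)) (mulF (br V' g') γ') := by rw [hg'.gam]
          _ = mulF (mulF (br V' (fun t : H => h t)) (br V' g')) γ' := (mulF_assoc _ _ _).symm
          _ = γ' := by rw [← hbr, hcomm, h2, hg'.gam]
      rw [hequiv, hγ'] at h1
      have h3 : mulF (br V h) γ = γ :=
        H75.eq_of_res (N := H)
          (mulF_supp H (fun x hx => H66.br_of_not_mem (fun h1 => hx (hCH h1)))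
            (fun x hx => hL.gam.supp x (fun h1 => hx (hCH h1))))
          (fun x hx => hL.gam.supp x (fun h1 => hx (hCH h1))) h1
      exact fus ℓ M hM G e V γ hL (v' : G) hv' v hv h b
        ⟨hbx, by rw [hh]; exact und_cj hL.blk.1.1 hw hb.blk hb.und, h3⟩ hb w hw hh.symm
    · rw [hcomm, h2]

/-- row CND -/
theorem cnd (fus : FusStmt) : CndStmt := by
  intro ℓ _ M _ hM G _ _ e V γ hL W hWV f hf v hv b hb v' hv' g' hg' w hw
  exact cnd_core fus hM hL hWV rfl hv hb hv' rfl rfl hg' hw rfl

end Pool.Agent.PP.T6.H39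
end
end -- Pool.Agent.Helper39_AT6.CND
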