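import Pool.Agent.Helper12_AWB.B168
import Pool.Agent.Helper12_AWB.B182
import Pool.Agent.Helper12_AWB.B255

/-!
# Merged copies (generated) of the modules

* `Pool.Agent.Helper20_ATZ.ONE`
* `Pool.Agent.Helper88_WAT.SMM`
* `Pool.Agent.Helper25_ASO.HFCE`
-/

set_option autoImplicit false

section -- Pool.Agent.Helper20_ATZ.ONE

/-!
# Squad ATZ, row ONE: the section of `1`
-/

open scoped BigOperators

set_option linter.unusedSectionVars false

noncomputable section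

namespace Pool.Agent.PP.TB.H20

open Pool.Agent.Helper51_AWC Pool.Agent.Helper79_WRA Pool.Agent.PP Pool.Agent.PP.KF
open Pool.Agent.PP.K9 Pool.Agent.PP.K9.H97 Pool.Agent.PP.H75 Pool.Agent.PP.T3 Pool.Agent.PP.T2
open Pool.Agent.PP.T5

attribute [local instance] Ideal.Quotient.field

/-- every element centralises `1` -/
theorem mem_cu_one {G : Type} [Group G] (x : G) : x ∈ Cu (1 : G) := by
  rw [Subgroup.mem_centralizer_singleton_iff]
  simp

/-- a block of `C(1)` under the block `e` of `G` is `e` -/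
theorem eq_e {F G : Type} [Field F] [Group G] [Finite G] {e b : G → F} (he : IsBlk e)
    (hb : Bx (Cu (1 : G)) b)
    (hu : mulF (fun t : Cu (1 : G) => e t) (fun t : Cu (1 : G) => b t) =
      fun t : Cu (1 : G) => b t) : b = e := by
  have hcl : IsCl b := by
    intro x y
    exact (cj_eq_iff _ _).1 (hb.ix.inv (mem_cu_one y)) x
  have hid : IsIdem b := ⟨hcl, hb.mul⟩
  have hse : ∀ x, x ∉ Cu (1 : G) → e x = 0 := fun x hx => absurd (mem_cu_one x) hx
  have hsb : ∀ x, x ∉ Cu (1 : G) → mulF e b x = 0 := fun x hx => absurd (mem_cu_one x) hx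
  have h1 : mulF e b = b := by
    apply eq_of_res hsb hb.supp
    rw [mulF_res _ _ hse]
    exact hu
  rcases he.2.2 b hid with h2 | h2
  · rw [← h1, h2]
  · exfalso
    apply hb.ne
    rw [← h1, h2]

/-- ONE: the section of `1`. -/
theorem one : OneStmt := by
  intro ℓ _ M _ _ G _ _ e V Z γ b hZ χ hχ ψ hψ
  have hl := (hZ.lb 1 Z.one_mem).1
  have hb : b 1 = e := eq_e hZ.blk hl.bx hl.und
  have hgv : ∀ (θ : G → ℂ), θ ∈ IrrE M e → ∀ s : G,
      gv M (Cu (1 : G)) (1 * s) (b 1) θ = θ s := by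
    intro θ hθ s
    rw [hb, T6.H16.gv_one e hZ.blk.1.1, one_mul]
    exact (T6.H16.fv_eh e hθ.1 s).1 hθ
  have hcard : Nat.card (Cu (1 : G)) = Nat.card G := by
    have htop : Cu (1 : G) = ⊤ := by
      rw [eq_top_iff]
      exact fun x _ => mem_cu_one x
    rw [htop]
    exact Subgroup.card_top
  unfold mm rip
  rw [hcard]
  refine congrArg _ (finsum_congr fun s => ?_)
  rw [hgv χ hχ, hgv ψ hψ]
  refine finsum_congr_Prop ?_ fun _ => rfl
  exact propext ⟨fun h => h.2, fun h => ⟨mem_cu_one s, h⟩⟩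

end Pool.Agent.PP.TB.H20
end
end -- Pool.Agent.Helper20_ATZ.ONE

section -- Pool.Agent.Helper88_WAT.SMM

/-!
# Squad WAT, row SMM: the sum of the `mm(z)` over the characters of the block
-/

open scoped BigOperators

noncomputable section

namespace Pool.Agent.PP.TV.H88

open Pool.Agent.Helper51_AWC Pool.Agent.Helper79_WRA Pool.Agent.PP Pool.Agent.PP.KF
open Pool.Agent.PP.K9 Pool.Agent.PP.K9.H97 Pool.Agent.PP.H75 Pool.Agent.PP.T3 Pool.Agent.PP.T2
open Pool.Agent.PP.T5 Pool.Agent.PP.TB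

attribute [local instance] Ideal.Quotient.field

section sums

variable {G : Type} [Group G] [Finite G]

/-- a sum over the regular elements of a subgroup -/
theorem sum_reg (ℓ : ℕ) (C : Subgroup G) (f : G → ℂ) :
    ∑ᶠ (s : G) (_ : s ∈ C ∧ Reg ℓ s), f s = ∑ᶠ (s : C) (_ : Reg ℓ s), f s := by
  classical
  rw [H75.sum_sub C (fun s => ∑ᶠ (_ : s ∈ C ∧ Reg ℓ s), f s)
    (fun x hx => by rw [finsum_eq_if, if_neg (fun h => hx h.1)])]
  refine finsum_congr fun s => ?_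
  have h1 : ((s : G) ∈ C ∧ Reg ℓ (s : G)) = Reg ℓ s := by
    apply propext
    unfold Reg
    rw [Subgroup.orderOf_coe]
    exact ⟨fun h => h.2, fun h => ⟨s.2, h⟩⟩
  exact finsum_congr_Prop h1 fun _ => rfl

omit [Group G] [Finite G] in
theorem fin_reg [Fintype G] (P : G → Prop) [DecidablePred P] (f : G → ℂ) :
    ∑ᶠ (s : G) (_ : P s), f s = ∑ s ∈ Finset.univ.filter P, f s := by
  rw [finsum_eq_sum_of_fintype, Finset.sum_filter]
  refine Finset.sum_congr rfl fun s _ => ?_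
  rw [finsum_eq_if]

end sums

theorem el_of {ℓ : ℕ} [Fact ℓ.Prime] {G : Type} [Group G] [Finite G] {F : Type} [Field F]
    {e : G → F} {V Z : Subgroup G} {γ : G → F} {b : G → G → F} (hZ : Zd ℓ e V Z γ b) {z : G}
    (hz : z ∈ Z) : El ℓ z := by
  obtain ⟨n, hn⟩ := hZ.tp.pg ⟨z, hZ.le hz⟩
  exact ⟨n, congrArg Subtype.val hn⟩

theorem smm (hCo3 : T5.Co3Stmt) (hSmg : T3.SmgStmt) (hLrk : T3.LrkStmt) : SmmStmt := by
  classical
  intro ℓ _ M _ hM G _ _ e V γ b hZ z hz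
  have hl := (hZ.lb z hz).1
  have hEl : El ℓ z := el_of hZ hz
  have hix : Ix (Cu z) (b z) := hl.bx.ix
  have hC : (Nat.card (Cu z) : ℂ) ≠ 0 := by exact_mod_cast (Nat.card_pos (α := Cu z)).ne'
  have := Fintype.ofFinite G
  have hfinG : (Irr G).Finite := irr_finite'
  have hfinE : (IrrE M e).Finite := hfinG.subset fun _ h => h.1
  -- the characters outside of the block
  have hout : ∀ s ∈ Cu z, Reg ℓ s → ∀ χ ∈ Irr G, χ ∉ IrrE M e →
      gv M (Cu z) (z * s) (b z) χ = 0 := by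
    intro s hs hr χ hχ hne
    by_cases hz1 : z = 1
    · subst hz1
      have hb : b 1 = e := TB.H20.eq_e hZ.blk hl.bx hl.und
      rw [hb, T6.H16.gv_one e hZ.blk.1.1, one_mul]
      exact (T6.H16.fv_eh e hχ s).2 hne
    · exact (hSmg ℓ M hM G z s hz1 hEl hs hr (fun t : Cu z => b z t) hix.idem e hZ.blk.1).1
        hl.und χ hχ hne
  have hsum : ∀ s ∈ Cu z, Reg ℓ s →
      ∑ᶠ χ ∈ IrrE M e, gv M (Cu z) (z * s) (b z) χ *
        starRingEnd ℂ (gv M (Cu z) (z * s) (b z) χ) = T5.kr M (Cu z) (b z) s s := by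
    intro s hs hr
    rw [← hCo3 ℓ M hM G z hEl (b z) hix s hs hr s hs hr]
    rw [finsum_mem_eq_finite_toFinset_sum _ hfinE, finsum_mem_eq_finite_toFinset_sum _ hfinG]
    refine Finset.sum_subset ?_ ?_
    · intro χ hχ
      rw [Set.Finite.mem_toFinset] at hχ ⊢
      exact hχ.1
    · intro χ hχ hne
      rw [Set.Finite.mem_toFinset] at hχ hne
      rw [hout s hs hr χ hχ hne, zero_mul]
  have hln := hLrk ℓ M hM (Cu z) (fun t : Cu z => b z t) hix.idem
  rw [hln]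
  unfold mm
  rw [finsum_mem_eq_finite_toFinset_sum _ hfinE, ← Finset.mul_sum]
  congr 1
  have hR : ∑ᶠ (s : Cu z) (_ : Reg ℓ s), ∑ᶠ χ ∈ IrrE M (fun t : Cu z => b z t),
      χ s * starRingEnd ℂ (χ s) =
      ∑ᶠ (s : G) (_ : s ∈ Cu z ∧ Reg ℓ s), T5.kr M (Cu z) (b z) s s := by
    rw [sum_reg ℓ (Cu z) (fun s => T5.kr M (Cu z) (b z) s s)]
    refine finsum_congr fun s => finsum_congr fun _ => ?_
    unfold T5.kr
    refine finsum_congr fun κ => finsum_congr fun _ => ?_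
    rw [H75.ext0_apply]
  rw [hR, fin_reg]
  have hL : ∀ χ ∈ hfinE.toFinset, ∑ᶠ (s : G) (_ : s ∈ Cu z ∧ Reg ℓ s),
      gv M (Cu z) (z * s) (b z) χ * starRingEnd ℂ (gv M (Cu z) (z * s) (b z) χ) =
      ∑ s ∈ Finset.univ.filter (fun s => s ∈ Cu z ∧ Reg ℓ s),
      gv M (Cu z) (z * s) (b z) χ * starRingEnd ℂ (gv M (Cu z) (z * s) (b z) χ) :=
    fun χ _ => fin_reg _ _
  rw [Finset.sum_congr rfl hL, Finset.sum_comm]
  refine Finset.sum_congr rfl fun s hs => ?_
  rw [Finset.mem_filter] at hs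
  rw [← hsum s hs.2.1 hs.2.2, finsum_mem_eq_finite_toFinset_sum _ hfinE]

end Pool.Agent.PP.TV.H88
end
end -- Pool.Agent.Helper88_WAT.SMM

section -- Pool.Agent.Helper25_ASO.HFCE

/-!
# Squad ASO, row HFCE
-/

open scoped BigOperators

set_option linter.unusedSectionVars false

noncomputable section

namespace Pool.Agent.PP.SO.H25

open Pool.Agent.Helper51_AWC Pool.Agent.Helper79_WRA Pool.Agent.PP Pool.Agent.PP.KF
open Pool.Agent.PP.K9 Pool.Agent.PP.K9.H97 Pool.Agent.PP.H75 Pool.Agent.PP.T3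
open Pool.Agent.PP.SO

attribute [local instance] Ideal.Quotient.field

section tools

variable {V₀ G : Type} [CommGroup V₀] [Group G] {M : Ideal (integralClosure ℤ ℂ)} [M.IsMaximal]

theorem C_zp (B : Bk (FF M) V₀ G) (c : V₀) : B.C (⊥ ⊔ Subgroup.zpowers c) = Cu (B.i c) := by
  unfold Bk.C
  rw [bot_sup_eq, MonoidHom.map_zpowers]
  ext x
  rw [Subgroup.mem_centralizer_iff, Subgroup.mem_centralizer_singleton_iff]
  constructor
  · intro h
    exact (h (B.i c) (Subgroup.mem_zpowers _)).symm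
  · intro h y hy
    obtain ⟨n, rfl⟩ := Subgroup.mem_zpowers_iff.1 hy
    have hc : Commute x (B.i c) := h
    exact ((hc.zpow_right n).eq).symm

theorem mem_C_bot (B : Bk (FF M) V₀ G) (x : G) : x ∈ B.C ⊥ := by
  unfold Bk.C
  rw [Subgroup.map_bot, Subgroup.mem_centralizer_iff]
  intro y hy
  have hy' : y = 1 := hy
  rw [hy', one_mul, mul_one]

theorem bh_eq (B : Bk (FF M) V₀ G) (W : Subgroup V₀) (X : Subgroup G) (h : B.C W = X) :
    bh B W = PP.ext0 X (eh M (fun t : X => B.b W t)) := by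
  subst h
  rfl

theorem lc_of {ℓ : ℕ} {E₀ : Subgroup (MulAut V₀)} {B : Bk (FF M) V₀ G} (hB : Sb ℓ M E₀ B)
    (c : V₀) : Lc B.e B.i.range B.g (B.i c) (B.b (⊥ ⊔ Subgroup.zpowers c)) := by
  have h := hB.lb (⊥ ⊔ Subgroup.zpowers c)
  have hC : Subgroup.centralizer
      (((⊥ ⊔ Subgroup.zpowers c).map B.i : Subgroup G) : Set G) = Cu (B.i c) := C_zp B c
  have key : ∀ X : Subgroup G, Subgroup.centralizer
      (((⊥ ⊔ Subgroup.zpowers c).map B.i : Subgroup G) : Set G) = X →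
      Bx X (B.b (⊥ ⊔ Subgroup.zpowers c)) ∧
      mulF (fun t : X => B.e t) (fun t : X => B.b (⊥ ⊔ Subgroup.zpowers c) t) =
        fun t : X => B.b (⊥ ⊔ Subgroup.zpowers c) t := by
    rintro X rfl
    exact ⟨h.blk, h.und⟩
  exact ⟨(key _ hC).1, (key _ hC).2, h.gam⟩

theorem ext0_in {X : Subgroup G} {f : X → ℂ} {x : G} (h : x ∈ X) : PP.ext0 X f x = f ⟨x, h⟩ := by
  unfold PP.ext0
  rw [dif_pos h]

theorem ext0_out {X : Subgroup G} {f : X → ℂ} {x : G} (h : x ∉ X) : PP.ext0 X f x = 0 := by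
  unfold PP.ext0
  rw [dif_neg h]

theorem bh_conj [Finite G] (B : Bk (FF M) V₀ G) {c c' : V₀} {t : G}
    (ht : t * B.i c * t⁻¹ = B.i c')
    (hcl : IsCl (fun s : Cu (B.i c) => B.b (⊥ ⊔ Subgroup.zpowers c) s))
    (hb : B.b (⊥ ⊔ Subgroup.zpowers c') = cj t (B.b (⊥ ⊔ Subgroup.zpowers c))) (x : G) :
    bh B (⊥ ⊔ Subgroup.zpowers c') (t * x * t⁻¹) = bh B (⊥ ⊔ Subgroup.zpowers c) x := by
  rw [bh_eq B _ _ (C_zp B c'), bh_eq B _ _ (C_zp B c)]
  by_cases hx : x ∈ Cu (B.i c)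
  · have hx' : t * x * t⁻¹ ∈ Cu (B.i c') := (T3.H62.cjE ht ⟨x, hx⟩).2
    rw [ext0_in hx, ext0_in hx', ← T3.H62.eh_equiv (T3.H62.cjE ht) hcl ⟨x, hx⟩]
    have h2 : (fun y : Cu (B.i c') => B.b (⊥ ⊔ Subgroup.zpowers c')
        (y : G)) = fun y : Cu (B.i c') => B.b (⊥ ⊔ Subgroup.zpowers c)
          (((T3.H62.cjE ht).symm y : Cu (B.i c)) : G) := by
      funext y
      rw [hb]
      rfl
    rw [h2]
    rfl
  · have hx' : t * x * t⁻¹ ∉ Cu (B.i c') := by
      intro h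
      apply hx
      have h1 := ((T3.H62.cjE ht).symm ⟨_, h⟩).2
      have h2 : (((T3.H62.cjE ht).symm ⟨_, h⟩ : Cu (B.i c)) : G) = x := by
        change t⁻¹ * (t * x * t⁻¹) * t = x
        group
      rw [h2] at h1
      exact h1
    rw [ext0_out hx, ext0_out hx']

end tools

/-- HFCE -/
theorem hfce (loc : T3.LocStmt) : HFceStmt := by
  intro ℓ _ M _ hM V₀ _ _ E₀ G _ _ B hB
  classical
  have hF : GoodF ℓ (FF M) := H50.fld ℓ Fact.out M hM
  constructor
  · intro c σ hσ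
    obtain ⟨t, ht, hti⟩ := hB.sur σ hσ
    have h1 := lc_of hB c
    have h2 := lc_of hB (σ c)
    have h3 : Lc B.e B.i.range B.g (B.i (σ c)) (cj t (B.b (⊥ ⊔ Subgroup.zpowers c))) :=
      T8.H88.lc_cj hB.ld ht (hti c) h1
    have h4 := (loc ℓ (FF M) hF G B.e B.i.range B.g hB.ld (B.i (σ c)) ⟨_, rfl⟩).2 _ _ h2 h3
    have hcl : IsCl (fun s : Cu (B.i c) => B.b (⊥ ⊔ Subgroup.zpowers c) s) := h1.blk.blk.1.1
    have hcj := bh_conj B (hti c) hcl h4
    funext g
    unfold fc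
    have hcard : Nat.card (B.C (⊥ ⊔ Subgroup.zpowers (σ c))) =
        Nat.card (B.C (⊥ ⊔ Subgroup.zpowers c)) := by
      rw [C_zp, C_zp]
      exact (Nat.card_congr (T3.H62.cjE (hti c)).toEquiv).symm
    rw [hcard]
    congr 1
    symm
    rw [← finsum_comp_equiv (Equiv.mulRight (⟨t, mem_C_bot B t⟩ : B.C ⊥))]
    refine finsum_congr fun z => ?_
    rw [← hcj]
    congr 1
    rw [← hti c]
    simp only [Equiv.coe_mulRight, Subgroup.coe_mul]
    group
  · intro χ hχ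
    have := Fintype.ofFinite G
    have h1 := lc_of hB (1 : V₀)
    have hi1 : B.i 1 = 1 := map_one _
    rw [hi1] at h1
    have hbe : B.b (⊥ ⊔ Subgroup.zpowers 1) = B.e := TB.H20.eq_e hB.ld.blk h1.blk h1.und
    have hCtop : B.C (⊥ ⊔ Subgroup.zpowers (1 : V₀)) = ⊤ := by
      rw [C_zp, hi1, eq_top_iff]
      exact fun x _ => TB.H20.mem_cu_one x
    have hbh : ∀ x, bh B (⊥ ⊔ Subgroup.zpowers (1 : V₀)) x = eh M B.e x := by
      intro x
      rw [bh_eq B _ _ hCtop, hbe, ext0_in (Subgroup.mem_top x)]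
      have hcl : IsCl (fun t : (⊤ : Subgroup G) => B.e t) := fun x y => hB.ld.blk.1.1 x y
      have h2 := T3.H62.eh_equiv (Subgroup.topEquiv : (⊤ : Subgroup G) ≃* G) hcl
        ⟨x, Subgroup.mem_top x⟩
      exact h2.symm
    have hCbot : B.C ⊥ = ⊤ := by
      rw [eq_top_iff]
      exact fun x _ => mem_C_bot B x
    have hfc : ∀ g, fc B ⊥ 1 g = eh M B.e g := by
      intro g
      unfold fc
      rw [hCtop, hi1]
      have h3 : ∀ z : B.C ⊥, bh B (⊥ ⊔ Subgroup.zpowers (1 : V₀))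
          ((1 : G)⁻¹ * ((z : G)⁻¹ * g * z)) = eh M B.e g := by
        intro z
        rw [hbh, inv_one, one_mul]
        have h4 := K9.H25.eh_cl M B.e g (z : G)⁻¹
        rw [inv_inv] at h4
        exact h4
      rw [finsum_congr h3]
      have := Fintype.ofFinite (B.C ⊥)
      rw [finsum_eq_sum_of_fintype, Finset.sum_const, Finset.card_univ, nsmul_eq_mul,
        ← Nat.card_eq_fintype_card, hCbot, ← mul_assoc, inv_mul_cancel₀, one_mul]
      exact_mod_cast Nat.card_pos.ne'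
    unfold cv
    rw [finsum_eq_sum_of_fintype]
    simp only [hfc]
    rw [K9.H25.eh_chv M B.e hχ.1, if_pos hχ, div_self (irr_one_ne hχ.1)]

end Pool.Agent.PP.SO.H25
end
end -- Pool.Agent.Helper25_ASO.HFCE
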