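import Pool.Agent.Helper12_AWB.B146
import Pool.Agent.Helper12_AWB.B174
import Pool.Agent.Helper12_AWB.B185
import Pool.Agent.Helper12_AWB.B237
import Pool.Agent.Helper12_AWB.B254

/-!
# Merged copies (generated) of the modules

* `Pool.Agent.Helper11_PFD.KXE`
* `Pool.Agent.Helper39_PFD.Rqa`
* `Pool.Agent.Helper52_WAX.KRG`
* `Pool.Agent.Helper66_WAT.TSN`
-/

set_option autoImplicit false

section -- Pool.Agent.Helper11_PFD.KXE

/-!
# PFD, row KXE: the number of the ordinary characters of a block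
-/

open scoped BigOperators

noncomputable section

namespace Pool.Agent.PFD.H11

open Pool.Agent.Helper51_AWC Pool.Agent.Helper79_WRA Pool.Agent.PP Pool.Agent.PP.KF
open Pool.Agent.PP.K9 Pool.Agent.PP.K9.H97 Pool.Agent.PP.H75 Pool.Agent.PP.T3 Pool.Agent.PP.T2

attribute [local instance] Ideal.Quotient.field

/-- an action which induces all the automorphisms of `Ei V γ` is faithful if the orders agree -/
theorem inj_of {G F : Type} [Group G] {V : Subgroup G} {γ : G → F} {V' E : Type} [CommGroup V']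
    [Group E] [Finite E] {ι : V' →* G} {φ : E →* MulAut V'} (hr : ι.range = V)
    (f : E ≃* Ei V γ)
    (h1 : ∀ t ∈ Tg V γ, ∃ x : E, ∀ w, ι (φ x w) = t * ι w * t⁻¹)
    (h2 : ∀ x : E, ∃ t ∈ Tg V γ, ∀ w, ι (φ x w) = t * ι w * t⁻¹) : Function.Injective φ := by
  choose t ht hw using h2
  have hN : ∀ x, t x ∈ Subgroup.normalizer (V : Set G) := fun x => (ht x).1
  obtain ⟨a, ha⟩ : ∃ a : E → Ei V γ, ∀ x, (a x : MulAut V) =
      V.normalizerMonoidHom ⟨t x, hN x⟩ :=
    ⟨fun x => ⟨V.normalizerMonoidHom ⟨t x, hN x⟩, ⟨t x, hN x⟩, ht x, rfl⟩, fun x => rfl⟩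
  have hval : ∀ (s : G) (hs : s ∈ Subgroup.normalizer (V : Set G)) (v : V),
      ((V.normalizerMonoidHom ⟨s, hs⟩ v : V) : G) = s * v * s⁻¹ := fun s hs v => rfl
  have hsur : Function.Surjective a := by
    rintro ⟨_, ⟨s, hs⟩, hs2, rfl⟩
    obtain ⟨x, hx⟩ := h1 s hs2
    refine ⟨x, ?_⟩
    apply Subtype.ext
    rw [ha]
    apply MulEquiv.ext
    intro v
    apply Subtype.ext
    rw [hval, hval]
    obtain ⟨w, hwv⟩ : (v : G) ∈ ι.range := by rw [hr]; exact v.2
    rw [← hwv, ← hw, hx]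
  have hinj : Function.Injective a := by
    have h3 : Function.Surjective (f.symm ∘ a) := f.symm.surjective.comp hsur
    have h4 : Function.Injective (f.symm ∘ a) := Finite.injective_iff_surjective.2 h3
    exact h4.of_comp
  intro x y hxy
  apply hinj
  apply Subtype.ext
  rw [ha, ha]
  apply MulEquiv.ext
  intro v
  apply Subtype.ext
  rw [hval, hval]
  obtain ⟨w, hwv⟩ : (v : G) ∈ ι.range := by rw [hr]; exact v.2
  rw [← hwv, ← hw, ← hw, hxy]

theorem kxe (keg : KegStmt) (trn : TrnStmt) : KxeStmt := by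
  intro ℓ _ M _ hM G _ _ e V γ hL U W hS
  obtain ⟨V', E, i1, i2, i3, i4, ι, φ, h1, h2, h3, h4, h5, h6⟩ := keg ℓ M hM G e V γ hL U W hS
  rw [h6]
  exact trn (FF M) G V γ V' E ι φ h1 h2 h3 h4 h5

end Pool.Agent.PFD.H11
end
end -- Pool.Agent.Helper11_PFD.KXE

section -- Pool.Agent.Helper39_PFD.Rqa

/-! Squad PFD, row RQA: the local alternating sums of a quotient. -/

set_option autoImplicit false
set_option linter.unusedSectionVars false

open scoped BigOperators

noncomputable section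

namespace Pool.Agent.PFD.H39

open Pool.Agent.Helper51_AWC Pool.Agent.Helper79_WRA Pool.Agent.PP Pool.Agent.PP.KF
open Pool.Agent.PP.K9 Pool.Agent.PP.K9.H97 Pool.Agent.PP.H75 Pool.Agent.PP.T3 Pool.Agent.PP.T2
open Pool.Agent.PP.T3.H28

/-- RQA -/
theorem rqa : RqaStmt := by
  intro ℓ hℓ F _ hF G A _ _ _ _ p hp hkp e he R' hR'
  have hR : IsPGroup ℓ (R'.comap p) := (isPGroup_comap_iff hp hkp R').2 hR'
  obtain ⟨R, hRe⟩ : ∃ R, R = R'.comap p := ⟨_, rfl⟩
  rw [← hRe] at hR ⊢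
  have hN : ∀ x : G, x ∈ Subgroup.normalizer (R : Set G) ↔
      p x ∈ Subgroup.normalizer (R' : Set A) := by
    intro x
    rw [hRe]
    exact normalizer_comap hp R' x
  have hRm : ∀ x : G, x ∈ R ↔ p x ∈ R' := by
    intro x
    rw [hRe]
    exact Iff.rfl
  let q : Subgroup.normalizer (R : Set G) →* Subgroup.normalizer (R' : Set A) :=
    (p.comp (Subgroup.normalizer (R : Set G)).subtype).codRestrict _ (fun x => (hN _).1 x.2)
  have hq : ∀ x : Subgroup.normalizer (R : Set G), ((q x : Subgroup.normalizer (R' : Set A)) : A) = p x :=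
    fun x => rfl
  have hqs : Function.Surjective q := by
    intro y
    obtain ⟨x, hx⟩ := hp (y : A)
    exact ⟨⟨x, (hN x).2 (hx ▸ y.2)⟩, Subtype.ext hx⟩
  obtain ⟨π', hπ'⟩ : ∃ π', π' = QuotientGroup.mk'
    (R'.subgroupOf (Subgroup.normalizer (R' : Set A))) := ⟨_, rfl⟩
  have hπs : Function.Surjective π' := by
    rw [hπ']
    exact QuotientGroup.mk'_surjective _
  have hπk : π'.ker = R'.subgroupOf (Subgroup.normalizer (R' : Set A)) := by
    rw [hπ']
    exact QuotientGroup.ker_mk' _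
  obtain ⟨π, hπ⟩ : ∃ π, π = QuotientGroup.mk'
    (R.subgroupOf (Subgroup.normalizer (R : Set G))) := ⟨_, rfl⟩
  have hs : Function.Surjective π := by
    rw [hπ]
    exact QuotientGroup.mk'_surjective _
  have hk : π.ker = R.subgroupOf (Subgroup.normalizer (R : Set G)) := by
    rw [hπ]
    exact QuotientGroup.ker_mk' _
  have hker : (π'.comp q).ker = R.subgroupOf (Subgroup.normalizer (R : Set G)) := by
    ext x
    rw [MonoidHom.mem_ker, MonoidHom.comp_apply, ← MonoidHom.mem_ker, hπk, Subgroup.mem_subgroupOf,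
      Subgroup.mem_subgroupOf, hq]
    exact (hRm _).symm
  let φ : (Subgroup.normalizer (R : Set G) ⧸ R.subgroupOf (Subgroup.normalizer (R : Set G))) ≃*
      (Subgroup.normalizer (R' : Set A) ⧸ R'.subgroupOf (Subgroup.normalizer (R' : Set A))) :=
    (QuotientGroup.quotientMulEquivOfEq hker.symm).trans
      (QuotientGroup.quotientKerEquivOfSurjective (π'.comp q) (hπs.comp hqs))
  have hφ : ∀ x : Subgroup.normalizer (R : Set G), φ (π x) = π' (q x) := by
    intro x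
    rw [hπ]
    rfl
  have hpg : ∀ {H : Type} [Group H] [Finite H] {Q : Subgroup H} {B : Type} [Group B]
      {g : Subgroup.normalizer (Q : Set H) →* B}, IsPGroup ℓ Q →
      g.ker = Q.subgroupOf (Subgroup.normalizer (Q : Set H)) → IsPGroup ℓ g.ker := by
    intro H _ _ Q B _ g hQ hg
    have hc : Nat.card g.ker = Nat.card Q := by
      rw [hg]
      exact Nat.card_congr (Subgroup.subgroupOfEquivOfLe Subgroup.le_normalizer).toEquiv
    obtain ⟨k, hk'⟩ := IsPGroup.iff_card.1 hQ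
    exact IsPGroup.of_card (hc.trans hk')
  have h1 := YY_equiv ℓ φ ⊤ (push π' (fun t : Subgroup.normalizer (R' : Set A) => br R' (push p e) t))
  rw [Subgroup.map_top_of_surjective _ φ.surjective] at h1
  unfold YQ
  rw [← hπ', ← hπ, ← h1]
  unfold YY
  refine Finset.sum_congr rfl fun d _ => ?_
  refine congrArg (fun n : ℕ => (-1 : ℤ) ^ (d.card + 1) * ((Nat.card (stab d) : ℤ) * (n : ℤ))) ?_
  -- the numbers
  have e1 : lnum (stab d) (push π (fun t : Subgroup.normalizer (R : Set G) => br R e t)) =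
      lnum (up π (stab d)) e := by
    rw [← lnum_up hF hs (hpg hR hk) (stab d) (br R e)]
    exact ((H75.lbr ℓ F hF G e he R (up π (stab d)) hR (le_up hk _) (up_le π _)).1).symm
  have e2 : lnum ((stab d).map φ.toMonoidHom)
      (push π' (fun t : Subgroup.normalizer (R' : Set A) => br R' (push p e) t)) =
      lnum (up π' ((stab d).map φ.toMonoidHom)) (push p e) := by
    rw [← lnum_up hF hπs (hpg hR' hπk) _ (br R' (push p e))]
    exact ((H75.lbr ℓ F hF A (push p e) (push_isIdem hp he) R' _ hR' (le_up hπk _)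
      (up_le π' _)).1).symm
  have e3 : (up π' ((stab d).map φ.toMonoidHom)).comap p = up π (stab d) := by
    ext x
    rw [Subgroup.mem_comap, mem_up, mem_up]
    constructor
    · rintro ⟨h, hx⟩
      have hx' : x ∈ Subgroup.normalizer (R : Set G) := (hN x).2 h
      refine ⟨hx', ?_⟩
      obtain ⟨y, hy, hxy⟩ := hx
      have h2 : φ y = φ (π ⟨x, hx'⟩) := by
        rw [hφ]
        exact hxy
      rwa [← φ.injective h2]
    · rintro ⟨h, hx⟩
      exact ⟨(hN x).1 h, ⟨_, hx, hφ ⟨x, h⟩⟩⟩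
  have e4 := lnum_map φ.toMonoidHom φ.injective (stab d)
    (push π' (fun t : Subgroup.normalizer (R' : Set A) => br R' (push p e) t))
  rw [e1, ← e3, lnum_comap H20.nls hF hp hkp, ← e2, e4]
  rfl

end Pool.Agent.PFD.H39
end
end -- Pool.Agent.Helper39_PFD.Rqa

section -- Pool.Agent.Helper52_WAX.KRG

/-!
# Squad WAX, row KRG: the bound if there is a regular element
-/

open scoped BigOperators

noncomputable section

namespace Pool.Agent.PP.TX.H52

open Pool.Agent.Helper51_AWC Pool.Agent.Helper79_WRA Pool.Agent.PP Pool.Agent.PP.KF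
open Pool.Agent.PP.K9 Pool.Agent.PP.K9.H97 Pool.Agent.PP.H75 Pool.Agent.PP.T3 Pool.Agent.PP.TX

attribute [local instance] Ideal.Quotient.field

/-- the number of the numbers below `ℓ ^ b` which are prime to `ℓ` -/
theorem card_pr {ℓ : ℕ} (hℓ : ℓ.Prime) {b : ℕ} (hb : 0 < b) :
    ((Finset.range (ℓ ^ b)).filter (fun j => ¬ ℓ ∣ j)).card = ℓ ^ (b - 1) * (ℓ - 1) := by
  rw [← Nat.totient_prime_pow hℓ hb, Nat.totient_eq_card_coprime]
  congr 1
  apply Finset.filter_congr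
  intro j _
  rw [Nat.coprime_pow_left_iff hb, Nat.Prime.coprime_iff_not_dvd hℓ]

/-- row KRG -/
theorem krg (rgl : T3.RglStmt) (inr : T3.InrStmt) (glp : T3.GlpStmt) (co1 : T3.Co1Stmt)
    (lpw : T3.LpwStmt) (cgr : T3.CgrStmt) (dgc : T3.DgcStmt) (inx : K9.InxStmt)
    (lbd : K9.LbdStmt) : KrgStmt := by
  intro ℓ _ M _ hM G _ _ e V γ hLd ⟨u, hRg⟩
  classical
  have hℓ : ℓ.Prime := Fact.out
  have hF : GoodF ℓ (FF M) := H50.fld ℓ hℓ M hM
  have hfin : (IrrE M e).Finite := T3.H49.irrE_fin M e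
  obtain ⟨b, d, hLc, hDg, hn, -⟩ := rgl ℓ M hM G e V γ hLd u hRg
  -- the order of `u`
  obtain ⟨a, ha⟩ : ∃ a : ℕ, orderOf u = ℓ ^ a := by
    obtain ⟨n, hn⟩ := hLd.tp.pg ⟨u, hRg.1⟩
    have h1 : u ^ ℓ ^ n = 1 := congrArg Subtype.val hn
    obtain ⟨a, -, ha⟩ := (Nat.dvd_prime_pow hℓ).mp (orderOf_dvd_of_pow_eq_one h1)
    exact ⟨a, ha⟩
  have ha0 : 0 < a := by
    apply Nat.pos_of_ne_zero
    rintro rfl
    rw [pow_zero, orderOf_eq_one_iff] at ha
    exact hRg.2.1 ha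
  have huℓ : u ^ ℓ ^ a = 1 := by rw [← ha, pow_orderOf_eq_one]
  have hqpos : 0 < ℓ ^ a := pow_pos hℓ.pos a
  have hd : 0 < d := hDg.1
  have hζ := Complex.isPrimitiveRoot_exp (ℓ ^ a) hqpos.ne'
  obtain ⟨ζ, hζe⟩ : ∃ ζ : ℂ, ζ = Complex.exp (2 * Real.pi * Complex.I / (ℓ ^ a : ℕ)) := ⟨_, rfl⟩
  rw [← hζe] at hζ
  obtain ⟨J, hJ⟩ : ∃ J : Finset ℕ, J = (Finset.range (ℓ ^ a)).filter (fun j => ¬ ℓ ∣ j) := ⟨_, rfl⟩
  have hJc : J.card = ℓ ^ (a - 1) * (ℓ - 1) := by
    rw [hJ]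
    exact card_pr hℓ ha0
  -- the values are not zero
  obtain ⟨c, hc⟩ := dgc ℓ M hM G e V γ hLd
  obtain ⟨ε, hε, hcg⟩ := cgr ℓ M hM G e V γ hLd c hc u hRg b hLc d hDg
  have hix : ¬ ℓ ∣ ix V γ :=
    inx ℓ M hM G e hLd.blk V hLd.tp hLd.ab γ hLd.gam.1 hLd.gam.2 hLd.und
  have hne : ∀ χ ∈ IrrE M e, gv M (Cu u) u b χ ≠ 0 := by
    intro χ hχ h0
    have o2 := (hcg χ hχ).2
    rw [h0, zero_div, zero_mul, rr_zero] at o2
    have := hF.char
    have h1 : ((ε * ix V γ : ℤ) : FF M) = 0 := o2.symm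
    rw [CharP.intCast_eq_zero_iff (FF M) ℓ] at h1
    rcases hε with rfl | rfl
    · rw [one_mul] at h1
      exact hix (by exact_mod_cast h1)
    · rw [neg_one_mul, dvd_neg] at h1
      exact hix (by exact_mod_cast h1)
  -- the lower bound
  have key1 : ∀ χ ∈ IrrE M e, ((ℓ ^ (a - 1) * (ℓ - 1) : ℕ) : ℝ) * (d : ℝ) ^ 2 ≤
      ∑ j ∈ J, Complex.normSq (gv M (Cu u) (u ^ j) b χ) := by
    intro χ hχ
    obtain ⟨m, hm⟩ := inr M G u (ℓ ^ a) hqpos huℓ b hLc.blk.ix d hDg ζ hζ χ hχ.1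
    have h1 : ∑ i ∈ Finset.range (ℓ ^ a), (m i : ℂ) * ζ ^ i ≠ 0 := by
      intro h0
      apply hne χ hχ
      have h2 := hm 1
      rw [pow_one] at h2
      rw [h2]
      simp_rw [mul_one]
      rw [h0, mul_zero]
    have h3 := (glp ℓ a ha0 ζ hζ m h1).1
    rw [← hJ] at h3
    have h4 : ∑ j ∈ J, Complex.normSq (gv M (Cu u) (u ^ j) b χ) = (d : ℝ) ^ 2 *
        ∑ j ∈ J, Complex.normSq (∑ i ∈ Finset.range (ℓ ^ a), (m i : ℂ) * ζ ^ (i * j)) := by
      rw [Finset.mul_sum]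
      refine Finset.sum_congr rfl fun j _ => ?_
      rw [hm j, Complex.normSq_mul, Complex.normSq_natCast]
      ring
    rw [h4]
    have h6 : (0 : ℝ) ≤ (d : ℝ) ^ 2 := sq_nonneg _
    calc ((ℓ ^ (a - 1) * (ℓ - 1) : ℕ) : ℝ) * (d : ℝ) ^ 2
        = (d : ℝ) ^ 2 * ((ℓ ^ (a - 1) * (ℓ - 1) : ℕ) : ℝ) := mul_comm _ _
      _ ≤ _ := mul_le_mul_of_nonneg_left h3 h6
  -- the upper bound
  have hIf : (Irr G).Finite := T3.H49.irr_fin G
  have key2 : ∀ j ∈ J, ∑ χ ∈ hIf.toFinset, Complex.normSq (gv M (Cu u) (u ^ j) b χ) =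
      (Nat.card V : ℝ) * (d : ℝ) ^ 2 := by
    intro j hj
    rw [hJ, Finset.mem_filter] at hj
    obtain ⟨hCu, hLj⟩ := lpw ℓ (FF M) hF G e V γ hLd u hRg.1 b hLc j hj.2
    have h1 := co1 ℓ M hM G (u ^ j) (T3.H88.el_of_mem hLd.tp.pg (pow_mem hRg.1 j)) b hLj.blk.ix
    rw [hCu, finsum_mem_eq_finite_toFinset_sum _ hIf] at h1
    have hIb : (IrrE M (fun t : Cu u => b t)).Finite := T3.H49.irrE_fin M _
    have h2 : ∑ᶠ κ ∈ IrrE M (fun t : Cu u => b t), κ 1 ^ 2 = (Nat.card V : ℂ) * (d : ℂ) ^ 2 := by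
      rw [finsum_mem_congr rfl (fun κ hκ => by rw [hDg.2 κ hκ] :
        ∀ κ ∈ IrrE M (fun t : Cu u => b t), κ 1 ^ 2 = (d : ℂ) ^ 2),
        finsum_mem_eq_finite_toFinset_sum _ hIb, Finset.sum_const,
        ← Set.ncard_eq_toFinset_card _ hIb, hn, nsmul_eq_mul]
    rw [h2] at h1
    have h3 : ((∑ χ ∈ hIf.toFinset, Complex.normSq (gv M (Cu u) (u ^ j) b χ) : ℝ) : ℂ) =
        (((Nat.card V : ℝ) * (d : ℝ) ^ 2 : ℝ) : ℂ) := by
      push_cast
      rw [← h1]
      refine Finset.sum_congr rfl fun χ _ => ?_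
      rw [Complex.mul_conj]
    exact_mod_cast h3
  have hsub : hfin.toFinset ⊆ hIf.toFinset := by
    intro χ hχ
    rw [Set.Finite.mem_toFinset] at hχ ⊢
    exact hχ.1
  have hmain : (hfin.toFinset.card : ℝ) * (((ℓ ^ (a - 1) * (ℓ - 1) : ℕ) : ℝ) * (d : ℝ) ^ 2) ≤
      ((ℓ ^ (a - 1) * (ℓ - 1) : ℕ) : ℝ) * ((Nat.card V : ℝ) * (d : ℝ) ^ 2) := by
    calc (hfin.toFinset.card : ℝ) * (((ℓ ^ (a - 1) * (ℓ - 1) : ℕ) : ℝ) * (d : ℝ) ^ 2)
        = ∑ χ ∈ hfin.toFinset, ((ℓ ^ (a - 1) * (ℓ - 1) : ℕ) : ℝ) * (d : ℝ) ^ 2 := by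
          rw [Finset.sum_const, nsmul_eq_mul]
      _ ≤ ∑ χ ∈ hfin.toFinset, ∑ j ∈ J, Complex.normSq (gv M (Cu u) (u ^ j) b χ) :=
          Finset.sum_le_sum fun χ hχ => key1 χ ((Set.Finite.mem_toFinset hfin).1 hχ)
      _ ≤ ∑ χ ∈ hIf.toFinset, ∑ j ∈ J, Complex.normSq (gv M (Cu u) (u ^ j) b χ) :=
          Finset.sum_le_sum_of_subset_of_nonneg hsub fun χ _ _ =>
            Finset.sum_nonneg fun j _ => Complex.normSq_nonneg _
      _ = ∑ j ∈ J, ∑ χ ∈ hIf.toFinset, Complex.normSq (gv M (Cu u) (u ^ j) b χ) :=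
          Finset.sum_comm
      _ = ∑ j ∈ J, (Nat.card V : ℝ) * (d : ℝ) ^ 2 := Finset.sum_congr rfl key2
      _ = ((ℓ ^ (a - 1) * (ℓ - 1) : ℕ) : ℝ) * ((Nat.card V : ℝ) * (d : ℝ) ^ 2) := by
          rw [Finset.sum_const, hJc, nsmul_eq_mul]
  have hnc : (IrrE M e).ncard = hfin.toFinset.card := Set.ncard_eq_toFinset_card _ hfin
  have hk : (IrrE M e).ncard ≤ Nat.card V := by
    rw [hnc]
    have hp : (0 : ℝ) < ((ℓ ^ (a - 1) * (ℓ - 1) : ℕ) : ℝ) * (d : ℝ) ^ 2 := by
      have h1 : 0 < ℓ - 1 := by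
        have := hℓ.two_le
        omega
      have h2 : (0 : ℝ) < ((ℓ ^ (a - 1) * (ℓ - 1) : ℕ) : ℝ) := by
        exact_mod_cast Nat.mul_pos (pow_pos hℓ.pos _) h1
      have h3 : (0 : ℝ) < (d : ℝ) := by exact_mod_cast hd
      positivity
    have h4 : (hfin.toFinset.card : ℝ) ≤ (Nat.card V : ℝ) := by
      refine le_of_mul_le_mul_right ?_ hp
      refine hmain.trans (le_of_eq ?_)
      ring
    exact_mod_cast h4
  exact (lbd ℓ M hM G e hLd.blk.1 hLd.blk.2.1).2.trans hk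

end Pool.Agent.PP.TX.H52
end
end -- Pool.Agent.Helper52_WAX.KRG

section -- Pool.Agent.Helper66_WAT.TSN

/-!
# Squad WAT, row TSN: the telescoping sum (adapted from the rows TY8, TE8, TX8, TS8 of squad AT8)
-/

open scoped BigOperators

set_option linter.unusedSectionVars false

noncomputable section

namespace Pool.Agent.PP.TV.H66

open Pool.Agent.Helper51_AWC Pool.Agent.Helper79_WRA Pool.Agent.PP Pool.Agent.PP.KF
open Pool.Agent.PP.K9 Pool.Agent.PP.K9.H97 Pool.Agent.PP.H75 Pool.Agent.PP.T3 Pool.Agent.PP.T2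
open Pool.Agent.PP.T8 (Fq Fe Qt3Stmt FqtStmt)

attribute [local instance] Ideal.Quotient.field

/-- the blocks of `N(Q)/Q` which are not over a conjugate of `(U, f)` -/
def TynStmt : Prop := ∀ (ℓ : ℕ) [Fact ℓ.Prime] (M : Ideal (integralClosure ℤ ℂ)) [M.IsMaximal],
  (ℓ : integralClosure ℤ ℂ) ∈ M → ∀ (G : Type) [Group G] [Finite G] (e : G → FF M)
  (V : Subgroup G) (γ : G → FF M), Ld ℓ e V γ → ∀ n : ℕ,
  ∀ f : G → FF M, Fs ℓ e V (Uw n V) γ f → ∀ Q : Subgroup G, IsPGroup ℓ Q →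
  ∀ (A : Type) [Group A] [Finite A] (p : Subgroup.normalizer (Q : Set G) →* A),
  Function.Surjective p → p.ker = Q.subgroupOf (Subgroup.normalizer (Q : Set G)) →
  ∀ f₁ : A → FF M, IsBlk f₁ →
  mulF (push p (fun t : Subgroup.normalizer (Q : Set G) => br Q e t)) f₁ = f₁ →
  (∀ g : G, conjS g (Uw n V) ≤ Q →
    mulF (push p (fun t : Subgroup.normalizer (Q : Set G) => br Q (cj g f) t)) f₁ = 0) →
  ∃ (V' : Subgroup A) (γ' : A → FF M), Ld ℓ f₁ V' γ' ∧ Uw n V' ≠ ⊥ ∧ Fq V γ V' γ'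

/-- only the part over the conjugates of `(U, f)` contributes -/
def TenStmt : Prop := ∀ (ℓ : ℕ) [Fact ℓ.Prime] (M : Ideal (integralClosure ℤ ℂ)) [M.IsMaximal],
  (ℓ : integralClosure ℤ ℂ) ∈ M → ∀ (G : Type) [Group G] [Finite G] (e : G → FF M)
  (V : Subgroup G) (γ : G → FF M), Ld ℓ e V γ → ∀ n : ℕ,
  ∀ f : G → FF M, Fs ℓ e V (Uw n V) γ f →
  Iu M ℓ n (Nat.card G) V γ → ∀ Q : Subgroup G, IsPGroup ℓ Q → Q ≠ ⊥ →
  YQ ℓ e Q = YY ℓ ⊤ (push (QuotientGroup.mk' (Q.subgroupOf (Subgroup.normalizer (Q : Set G))))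
    (fun t : Subgroup.normalizer (Q : Set G) => brU (Uw n V) Q f t))

/-- the subgroups of the normaliser of `U` which do not contain `U` -/
def TxnStmt : Prop := ∀ (ℓ : ℕ) [Fact ℓ.Prime] (M : Ideal (integralClosure ℤ ℂ)) [M.IsMaximal],
  (ℓ : integralClosure ℤ ℂ) ∈ M → ∀ (G : Type) [Group G] [Finite G] (e : G → FF M)
  (V : Subgroup G) (γ : G → FF M), Ld ℓ e V γ → ∀ n : ℕ,
  ∀ U : Subgroup G, U = Uw n V → ∀ f : G → FF M, Fs ℓ e V U γ f →
  Iu M ℓ n (Nat.card G) V γ → ∀ Q : Subgroup (Subgroup.normalizer (U : Set G)),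
  IsPGroup ℓ Q → Q ≠ ⊥ →
  ¬ (U.subgroupOf (Subgroup.normalizer (U : Set G)) ≤ Q ∧
    Q ≤ (Subgroup.centralizer (U : Set G)).subgroupOf (Subgroup.normalizer (U : Set G))) →
  YQ ℓ (fun t : Subgroup.normalizer (U : Set G) => f t) Q = 0

section tyn

open Pool.Agent.PP.T2.H65

/-- row TYN -/
theorem tyn (pwu : PwuStmt) (qt1 : Qt1Stmt) (qt3 : Qt3Stmt) (lcj : LcjStmt) (fqt : FqtStmt) :
    TynStmt := by
  intro ℓ _ M _ hM G _ _ e V γ hLd n f hFs Q hQp A _ _ p hp hker f₁ hf₁ hff hno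
  classical
  have hF : GoodF ℓ (FF M) := H50.fld ℓ Fact.out M hM
  obtain ⟨k, hQk, hTp⟩ := qt1 ℓ M hM G e V γ hLd Q hQp A p hp hker f₁ hf₁ hff
  obtain ⟨hLdk, hixk⟩ := lcj ℓ (FF M) hF G e V γ hLd k
  obtain ⟨γ', hLd', hFe⟩ := qt3 ℓ M hM G e (conjS k V) (cj k γ) hLdk Q hQk A p hp hker f₁ hf₁
    hff hTp
  obtain ⟨q1, q2, -, -⟩ := fqt ℓ (FF M) hF G e V γ hLd
  obtain ⟨-, -, -, q4⟩ := fqt ℓ (FF M) hF G e (conjS k V) (cj k γ) hLdk
  have hfq := q1 _ _ _ _ _ _ (q2 k) (q4 Q hQk A p γ' hFe)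
  obtain ⟨W, hW⟩ : ∃ W : Subgroup G, W = conjS k V := ⟨_, rfl⟩
  rw [← hW] at hQk hTp hLdk hixk hLd' hfq
  have hWp : IsPGroup ℓ W := hLdk.tp.pg
  have hWQ : W ≤ Subgroup.centralizer (Q : Set G) := by
    intro w hw
    rw [Subgroup.mem_centralizer_iff]
    intro x hx
    exact hLdk.ab x (hQk hx) w hw
  have hWN : W ≤ Subgroup.normalizer (Q : Set G) :=
    hWQ.trans (Subgroup.centralizer_le_normalizer _)
  obtain ⟨V₁, hV₁⟩ : ∃ V₁ : Subgroup (Subgroup.normalizer (Q : Set G)),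
    V₁ = W.subgroupOf (Subgroup.normalizer (Q : Set G)) := ⟨_, rfl⟩
  rw [← hV₁] at hTp hLd' hfq
  have hV₁p : IsPGroup ℓ V₁ := by
    rw [hV₁]
    exact hWp.comap_of_injective (Subgroup.normalizer (Q : Set G)).subtype
      (Subgroup.normalizer (Q : Set G)).subtype_injective
  have hV₁c : ∀ t : Subgroup.normalizer (Q : Set G),
      t ∈ Subgroup.centralizer (V₁ : Set (Subgroup.normalizer (Q : Set G))) ↔
        (t : G) ∈ Subgroup.centralizer (W : Set G) := by
    rw [hV₁]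
    exact cent_sub hWN
  have hCWQ : Subgroup.centralizer (W : Set G) ≤ Subgroup.centralizer (Q : Set G) :=
    Subgroup.centralizer_le hQk
  -- `V` is isomorphic to `V₁`
  have hiso : Nonempty (V ≃* V₁) := by
    subst hW
    subst hV₁
    exact ⟨(conjSEquiv k V).trans (Subgroup.subgroupOfEquivOfLe hWN).symm⟩
  obtain ⟨φ⟩ := hiso
  have hV₁ab : ∀ x ∈ V₁, ∀ y ∈ V₁, x * y = y * x := by
    intro x hx y hy
    rw [hV₁] at hx hy
    exact Subtype.ext (hLdk.ab _ (Subgroup.mem_subgroupOf.1 hx) _ (Subgroup.mem_subgroupOf.1 hy))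
  refine ⟨V₁.map p, γ', hLd', ?_, hfq⟩
  · obtain ⟨-, -, -, -, -, h6', -, -⟩ := pwu (Subgroup.normalizer (Q : Set G)) n V₁ hV₁ab
    by_cases h10 : Uw n V₁ ≤ p.ker
    swap
    · rw [h6' A p]
      intro h11
      exact h10 ((Subgroup.map_eq_bot_iff _).1 h11)
    · exfalso
      obtain ⟨-, -, -, -, h5, -, -, -⟩ := pwu G n V hLd.ab
      obtain ⟨-, h2', -, -, -, -, h7, -⟩ := pwu G n W hLdk.ab
      have hUQ : conjS k (Uw n V) ≤ Q := by
        rw [← h5 k, ← hW]
        intro x hx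
        have hxN : x ∈ Subgroup.normalizer (Q : Set G) := hWN (h2' hx)
        have h11 : (⟨x, hxN⟩ : Subgroup.normalizer (Q : Set G)) ∈ Uw n V₁ := by
          rw [hV₁, h7 _ hWN]
          exact Subgroup.mem_subgroupOf.2 hx
        have h12 := h10 h11
        rw [hker] at h12
        exact Subgroup.mem_subgroupOf.1 h12
      have h13 := hno k hUQ
      -- invariance
      have hfinv : ∀ v ∈ V, ∀ x, f (v * x * v⁻¹) = f x := by
        intro v hv x
        have hvX : v ∈ Subgroup.normalizer ((Uw n V : Subgroup G) : Set G) :=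
          hFs.nle (Subgroup.le_normalizer hv)
        exact C2.H3.ix_inv hFs.blk.ix hvX x
      have hkf : H66.Inv W (cj k f) := by
        intro w hw x
        rw [hW] at hw
        have h1 := hfinv _ (mem_conjS.1 hw) (k⁻¹ * x * k)
        change f (k⁻¹ * (w * x * w⁻¹) * k) = f (k⁻¹ * x * k)
        rw [← h1]
        congr 1
        group
      have hbrinv : ∀ b : G → FF M, H66.Inv W b →
          H66.Inv V₁ (fun t : Subgroup.normalizer (Q : Set G) => br Q b t) := by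
        intro b hb w hw x
        rw [hV₁] at hw
        have hw1 : (w : G) ∈ W := Subgroup.mem_subgroupOf.1 hw
        change br Q b ((w : G) * x * (w : G)⁻¹) = br Q b x
        have hwQ := hWQ hw1
        by_cases hx : (x : G) ∈ Subgroup.centralizer (Q : Set G)
        · rw [br_in _ hx, br_in _ (mul_mem (mul_mem hwQ hx) (inv_mem hwQ))]
          exact hb _ hw1 _
        · rw [br_out _ hx, br_out]
          intro h
          apply hx
          have h1 := mul_mem (mul_mem (inv_mem hwQ) h) hwQ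
          have h2 : (w : G)⁻¹ * ((w : G) * x * (w : G)⁻¹) * w = x := by group
          rwa [h2] at h1
      have hbb : ∀ b : G → FF M, br V₁ (fun t : Subgroup.normalizer (Q : Set G) => br Q b t) =
          fun t : Subgroup.normalizer (Q : Set G) => br W b t := by
        intro b
        funext t
        by_cases ht : (t : G) ∈ Subgroup.centralizer (W : Set G)
        · rw [br_in _ ((hV₁c t).2 ht), br_in _ ht, br_in _ (hCWQ ht)]
        · rw [br_out _ (fun h => ht ((hV₁c t).1 h)), br_out _ ht]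
      have hWe : br W (cj k f) = br W e := by
        rw [hW, cj_br, hFs.brV, ← cj_br, cj_isCl k hLd.blk.1.1]
      have heW : H66.Inv W e := H66.IsCl.inv hLd.blk.1.1 W
      obtain ⟨f', hf'⟩ : ∃ f' : A → FF M,
        f' = push p (fun t : Subgroup.normalizer (Q : Set G) => br Q e t) := ⟨_, rfl⟩
      obtain ⟨f'', hf''⟩ : ∃ f'' : A → FF M,
        f'' = push p (fun t : Subgroup.normalizer (Q : Set G) => br Q (cj k f) t) := ⟨_, rfl⟩
      rw [← hf'] at hff
      rw [← hf''] at h13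
      have hbr : br (V₁.map p) f' = br (V₁.map p) f'' := by
        funext y
        by_cases hy : y ∈ Subgroup.centralizer ((V₁.map p : Subgroup A) : Set A)
        · rw [br_in _ hy, br_in _ hy, hf', hf'', push_br_inv hF hV₁p (hbrinv e heW) hy,
            push_br_inv hF hV₁p (hbrinv _ hkf) hy, hbb, hbb, hWe]
        · rw [br_out _ hy, br_out _ hy]
      have hi' : H66.Inv (V₁.map p) f' := by
        rw [hf']
        exact push_inv (hbrinv e heW)
      have hi'' : H66.Inv (V₁.map p) f'' := by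
        rw [hf'']
        exact push_inv (hbrinv _ hkf)
      have hi₁ : H66.Inv (V₁.map p) f₁ := H66.IsCl.inv hf₁.1.1 _
      have hVp : IsPGroup ℓ (V₁.map p) := hTp.pg
      have h14 : br (V₁.map p) f₁ = 0 := by
        rw [← hff, H66.br_mulF hF hVp hi' hi₁, hbr, ← H66.br_mulF hF hVp hi'' hi₁, h13]
        funext t
        by_cases ht : t ∈ Subgroup.centralizer ((V₁.map p : Subgroup A) : Set A)
        · rw [br_in _ ht]
        · rw [br_out _ ht]
          rfl
      exact C2.H3.br_ne_of_gd hTp.gd h14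

end tyn

section ten

open Pool.Agent.PP.T2.H25

theorem ten (ort : OrtStmt) (ty8 : TynStmt) : TenStmt := by
  intro ℓ _ M _ hM G _ _ e V γ hL n f hf hIh Q hQ hQ1
  classical
  have hF : GoodF ℓ (FF M) := H50.fld ℓ Fact.out M hM
  obtain ⟨U, hU⟩ : ∃ U, U = Uw n V := ⟨_, rfl⟩
  have hh : Hf e U f := by rw [hU]; exact hf_of hf
  have ho : ∀ g h : G, Bt U Q g → Bt U Q h → conjS g U ≠ conjS h U →
      mulF (br Q (cj g f)) (br Q (cj h f)) = 0 := by
    rw [hU]
    exact ort ℓ M hM G e V γ hL n f hf Q hQ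
  rw [← hU]
  have heI : IsIdem e := hL.blk.1
  obtain ⟨-, -, b3⟩ := H20.brm ℓ (FF M) hF G Q (Subgroup.normalizer (Q : Set G)) hQ
    (cent_le_norm Q) le_rfl
  obtain ⟨e', he'⟩ : ∃ e' : Subgroup.normalizer (Q : Set G) → FF M,
    e' = fun t : Subgroup.normalizer (Q : Set G) => br Q e t := ⟨_, rfl⟩
  obtain ⟨B, hB⟩ : ∃ B : Subgroup.normalizer (Q : Set G) → FF M,
    B = fun t : Subgroup.normalizer (Q : Set G) => brU U Q f t := ⟨_, rfl⟩
  obtain ⟨p, hp⟩ : ∃ p, p = QuotientGroup.mk' (Q.subgroupOf (Subgroup.normalizer (Q : Set G))) :=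
    ⟨_, rfl⟩
  have hps : Function.Surjective p := by rw [hp]; exact QuotientGroup.mk'_surjective _
  have hpk : p.ker = Q.subgroupOf (Subgroup.normalizer (Q : Set G)) := by
    rw [hp]; exact QuotientGroup.ker_mk' _
  have hbs : ∀ x, x ∉ Subgroup.normalizer (Q : Set G) → br Q e x = 0 := fun x hx =>
    br_out _ fun hx' => hx (cent_le_norm Q hx')
  have heid : IsIdem e' := by rw [he']; exact b3 e heI
  have hBid : IsIdem B := by rw [hB]; exact brU_idem hF hQ hh ho (cent_le_norm Q) le_rfl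
  have heB : mulF e' B = B := by
    rw [he', hB, ← mulF_res _ (brU U Q f) hbs, brU_und hF hQ heI.1 hh]
  unfold YQ
  rw [← hp, ← he', ← hB]
  by_cases hgd : Gd e Q
  · obtain ⟨hE, hBE⟩ := H46.isIdem_sub heid hBid heB
    have hpe : push p e' = push p (e' - B) + push p B := by rw [← push_add, sub_add_cancel]
    have h1 : IsIdem (push p (e' - B)) := push_isIdem hps hE
    have h2 : IsIdem (push p B) := push_isIdem hps hBid
    have h12 : mulF (push p (e' - B)) (push p B) = 0 := by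
      rw [← push_mulF, H46.mulF_comm hE.1, hBE, push_zero]
    rw [hpe, H9.YY_add hF H94.nch H20.nls H20.brm H20.eig H20.ibf ⊤ h1 h2 h12]
    have hz : YY ℓ ⊤ (push p (e' - B)) = 0 := by
      refine H9.addStmt ℓ (FF M) hF _ ⊤ inferInstance _ h1 fun f₁ hf₁ hEf => ?_
      have hef : mulF (push p e') f₁ = f₁ := by
        have h3 : mulF (push p e') (push p (e' - B)) = push p (e' - B) := by
          rw [← push_mulF]
          congr 1
          have h4 : mulF e' e' = mulF e' (e' - B) + mulF e' B := by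
            rw [← H46.mulF_add, sub_add_cancel]
          rw [heid.2, heB] at h4
          exact (sub_eq_of_eq_add h4).symm
        rw [← hEf, ← mulF_assoc, h3]
      have hk : ∀ g : G, conjS g U ≤ Q →
          mulF (push p (fun t : Subgroup.normalizer (Q : Set G) => br Q (cj g f) t)) f₁ = 0 := by
        intro g hg
        have hab := good_ab hM hL hQ hgd
        have hb : Bt U Q g := by
          refine ⟨hg, fun q hq => ?_⟩
          rw [Subgroup.mem_centralizer_iff]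
          intro y hy
          exact hab y (hg hy) q hq
        have hEs : ∀ x, x ∉ Subgroup.normalizer (Q : Set G) → br Q (cj g f) x = 0 := fun x hx =>
          br_out _ fun hx' => hx (cent_le_norm Q hx')
        have k1 : mulF e' (fun t : Subgroup.normalizer (Q : Set G) => br Q (cj g f) t) =
            fun t : Subgroup.normalizer (Q : Set G) => br Q (cj g f) t := by
          rw [he', ← mulF_res _ (br Q (cj g f)) hbs, e_und hF hQ heI.1 hh hb]
        have k2 : mulF (fun t : Subgroup.normalizer (Q : Set G) => br Q (cj g f) t) B =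
            fun t : Subgroup.normalizer (Q : Set G) => br Q (cj g f) t := by
          rw [hB, ← mulF_res _ (brU U Q f) hEs]
          have k3 := en_brU hF hQ hh ho g
          rw [en_of hb] at k3
          rw [k3]
        have k4 : mulF (fun t : Subgroup.normalizer (Q : Set G) => br Q (cj g f) t) (e' - B) =
            0 := by
          have k5 : mulF (fun t : Subgroup.normalizer (Q : Set G) => br Q (cj g f) t) e' =
              mulF (fun t : Subgroup.normalizer (Q : Set G) => br Q (cj g f) t) (e' - B) +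
              mulF (fun t : Subgroup.normalizer (Q : Set G) => br Q (cj g f) t) B := by
            rw [← H46.mulF_add, sub_add_cancel]
          rw [← H46.mulF_comm heid.1, k1, k2] at k5
          exact left_eq_add.1 (by rw [add_comm] at k5; exact k5)
        rw [← hEf, ← mulF_assoc, ← push_mulF, k4, push_zero, zero_mulF]
      have hpe' : mulF (push p (fun t : Subgroup.normalizer (Q : Set G) => br Q e t)) f₁ = f₁ := by
        rw [← he']
        exact hef
      obtain ⟨V', γ', hL', hex', hfq⟩ := ty8 ℓ M hM G e V γ hL n f hf Q hQ _ p hps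
        hpk f₁ hf₁ hpe' (by rw [← hU]; exact hk)
      exact hIh _ (card_quot hQ1) f₁ V' γ' hL' hex' hfq
    rw [hz, zero_add]
  · have h0 : e' = 0 := by
      rw [he']
      funext t
      by_cases ht : (t : G) ∈ Subgroup.centralizer (Q : Set G)
      · rw [br_in _ ht]
        by_contra h
        exact hgd ⟨t, ht, h⟩
      · rw [br_out _ ht]
        rfl
    have h1 : B = 0 := by rw [← heB, h0, zero_mulF]
    rw [h0, h1]

end ten

theorem tx_aux (hPWU : T2.PwuStmt) (hQT1 : T3.Qt1Stmt) (hQT3 : Qt3Stmt) (hLCJ : T3.LcjStmt)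
    (hFQT : FqtStmt)
    (ℓ : ℕ) [hℓ : Fact ℓ.Prime] (M : Ideal (integralClosure ℤ ℂ)) [M.IsMaximal]
    (hM : (ℓ : integralClosure ℤ ℂ) ∈ M) (G : Type) [Group G] [Finite G] (e₀ : G → FF M)
    (V : Subgroup G) (γ₀ : G → FF M) (hL₀ : Ld ℓ e₀ V γ₀) (X : Type) [Group X]
    [Finite X] (f : X → FF M) (W : Subgroup X) (γ : X → FF M) (hL : Ld ℓ f W γ) (m : ℕ)
    (hU : ∀ k : X, conjS k (Uw m W) = Uw m W)
    (hFq : Fq V γ₀ W γ) (n : ℕ) (hn : Nat.card X ≤ n) (hIh : Iu M ℓ m n V γ₀)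
    (Q : Subgroup X) (hQ : IsPGroup ℓ Q) (hQb : Q ≠ ⊥)
    (hno : ¬ (Uw m W ≤ Q ∧
      Q ≤ Subgroup.centralizer (Uw m W : Set X))) : YQ ℓ f Q = 0 := by
  have hF : GoodF ℓ (FF M) := H50.fld ℓ Fact.out M hM
  have hfid : IsIdem (fun t : Subgroup.normalizer (Q : Set X) => br Q f t) :=
    (H20.brm ℓ (FF M) hF X Q (Subgroup.normalizer (Q : Set X)) hQ
      (Subgroup.centralizer_le_normalizer _) le_rfl).2.2 f hL.blk.1
  have hk : (QuotientGroup.mk' (Q.subgroupOf (Subgroup.normalizer (Q : Set X)))).ker =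
    Q.subgroupOf (Subgroup.normalizer (Q : Set X)) := QuotientGroup.ker_mk' _
  have hs := QuotientGroup.mk'_surjective (Q.subgroupOf (Subgroup.normalizer (Q : Set X)))
  unfold YQ
  refine H9.addStmt ℓ (FF M) hF _ ⊤ inferInstance _ (push_isIdem hs hfid) ?_
  intro f₁ hf₁ hff₁
  obtain ⟨k, hQk, hTp⟩ := hQT1 ℓ M hM X f W γ hL Q hQ _ _ hs hk f₁ hf₁ hff₁
  obtain ⟨hLk, -⟩ := hLCJ ℓ (FF M) hF X f W γ hL k
  obtain ⟨γ', hL', hFe⟩ := hQT3 ℓ M hM X f (conjS k W) (cj k γ) hLk Q hQk _ _ hs hk f₁ hf₁ hff₁ hTp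
  have hFq1 : Fq W γ (conjS k W) (cj k γ) := (hFQT ℓ (FF M) hF X f W γ hL).2.1 k
  have hFq2 := (hFQT ℓ (FF M) hF X f (conjS k W) (cj k γ) hLk).2.2.2 Q hQk _ _ γ' hFe
  have hFq3 := (hFQT ℓ (FF M) hF X f W γ hL).1 _ _ _ _ _ _ hFq1 hFq2
  have hFq4 := (hFQT ℓ (FF M) hF G e₀ V γ₀ hL₀).1 _ _ _ _ _ _ hFq hFq3
  -- `U` is not contained in `Q`
  obtain ⟨-, hUW, -, -, hUc, -, -, -⟩ := hPWU X m W hL.ab
  have hUk : Uw m (conjS k W) = Uw m W := by rw [hUc k, hU k]
  have hUWk : Uw m W ≤ conjS k W := by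
    rw [← hUk]
    exact (hPWU X m (conjS k W) hLk.ab).2.1
  have hUQ : ¬ Uw m W ≤ Q := by
    intro h
    refine hno ⟨h, ?_⟩
    intro q hq
    rw [Subgroup.mem_centralizer_iff]
    intro u hu
    exact hLk.ab u (hUWk hu) q (hQk hq)
  -- the conjugate of `W` normalises `Q`
  have hWN : conjS k W ≤ Subgroup.normalizer (Q : Set X) := by
    intro w hw
    rw [Subgroup.mem_normalizer_iff]
    intro q
    constructor
    · intro hq
      have h1 : w * q * w⁻¹ = q := by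
        rw [hLk.ab w hw q (hQk hq), mul_assoc, mul_inv_cancel, mul_one]
      show w * q * w⁻¹ ∈ Q
      rw [h1]
      exact hq
    · intro hq
      have hq' : w * q * w⁻¹ ∈ Q := hq
      have h2 : q = w * q * w⁻¹ := by
        have h3 := hLk.ab w⁻¹ (inv_mem hw) _ (hQk hq')
        have h4 : w⁻¹ * (w * q * w⁻¹) = q * w⁻¹ := by group
        rw [h4] at h3
        have h5 : q * w⁻¹ * w = w * q * w⁻¹ * w⁻¹ * w := by rw [h3]
        have h6 : q * w⁻¹ * w = q := by group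
        have h7 : w * q * w⁻¹ * w⁻¹ * w = w * q * w⁻¹ := by group
        rw [h6, h7] at h5
        exact h5
      show q ∈ Q
      rw [h2]
      exact hq'
  -- the group `conjS k W` in the normaliser
  obtain ⟨W₁, hW₁⟩ : ∃ W₁, W₁ = (conjS k W).subgroupOf (Subgroup.normalizer (Q : Set X)) :=
    ⟨_, rfl⟩
  have τ1 : W ≃* conjS k W := conjSEquiv k W
  have τ2 : conjS k W ≃* W₁ := by
    rw [hW₁]
    exact (Subgroup.subgroupOfEquivOfLe hWN).symm
  have hW₁ab : ∀ a ∈ W₁, ∀ b ∈ W₁, a * b = b * a := by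
    intro a ha b hb
    rw [hW₁, Subgroup.mem_subgroupOf] at ha hb
    exact Subtype.ext (hLk.ab a ha b hb)
  obtain ⟨-, -, -, -, -, h6', -, -⟩ := hPWU (Subgroup.normalizer (Q : Set X)) m W₁ hW₁ab
  obtain ⟨-, -, -, -, -, -, h7, -⟩ := hPWU X m (conjS k W) hLk.ab
  have hexp2 : Uw m (W₁.map
      (QuotientGroup.mk' (Q.subgroupOf (Subgroup.normalizer (Q : Set X))))) ≠ ⊥ := by
    rw [h6']
    intro h0
    have h := (Subgroup.map_eq_bot_iff _).1 h0
    · exfalso
      rw [hk, hW₁, h7 _ hWN, hUk] at h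
      apply hUQ
      intro u hu
      have h10 : (⟨u, hWN (hUWk hu)⟩ : Subgroup.normalizer (Q : Set X)) ∈
          (Uw m W).subgroupOf (Subgroup.normalizer (Q : Set X)) := by
        rw [Subgroup.mem_subgroupOf]
        exact hu
      exact Subgroup.mem_subgroupOf.1 (h h10)
  -- the order
  have hcard : Nat.card (Subgroup.normalizer (Q : Set X) ⧸
      Q.subgroupOf (Subgroup.normalizer (Q : Set X))) < n := by
    have hQ1 : 1 < Nat.card Q := by
      rw [Subgroup.one_lt_card_iff_ne_bot]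
      exact hQb
    have h1 :=
      (Q.subgroupOf (Subgroup.normalizer (Q : Set X))).card_eq_card_quotient_mul_card_subgroup
    have h2 : Nat.card (Q.subgroupOf (Subgroup.normalizer (Q : Set X))) = Nat.card Q :=
      Nat.card_congr (Subgroup.subgroupOfEquivOfLe Subgroup.le_normalizer).toEquiv
    have h3 : Nat.card (Subgroup.normalizer (Q : Set X)) ≤ n :=
      (Subgroup.card_le_card_group _).trans hn
    have h4 : 0 < Nat.card (Subgroup.normalizer (Q : Set X) ⧸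
        Q.subgroupOf (Subgroup.normalizer (Q : Set X))) := Nat.card_pos
    rw [h2] at h1
    nlinarith
  rw [← hW₁] at hL' hFq4
  exact hIh _ hcard f₁ _ γ' hL' hexp2 hFq4

theorem txn (hQT3 : Qt3Stmt) (hFQT : FqtStmt) (hQT1 : T3.Qt1Stmt) (hLCJ : T3.LcjStmt)
    (hPWU : T2.PwuStmt) : TxnStmt := by
  intro ℓ hℓ M _ hM G _ _ e V γ hL m U hU f hf hIh Q hQ hQb hno
  obtain ⟨-, hUV, hNV, hCV, -, -, h7, -⟩ := hPWU G m V hL.ab
  have hVX : V ≤ Subgroup.normalizer (U : Set G) := by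
    rw [hU]
    exact Subgroup.le_normalizer.trans hNV
  have hUX : Uw m (V.subgroupOf (Subgroup.normalizer (U : Set G))) =
      U.subgroupOf (Subgroup.normalizer (U : Set G)) := by
    rw [h7 _ hVX, hU]
  have τ : V ≃* V.subgroupOf (Subgroup.normalizer (U : Set G)) :=
    (Subgroup.subgroupOfEquivOfLe hVX).symm
  have hUn : (U.subgroupOf (Subgroup.normalizer (U : Set G))).Normal := inferInstance
  have hF : GoodF ℓ (FF M) := H50.fld ℓ Fact.out M hM
  have hFq := (hFQT ℓ (FF M) hF G e V γ hL).2.2.1 U f hf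
  refine tx_aux hPWU hQT1 hQT3 hLCJ hFQT ℓ M hM G e V γ hL (Subgroup.normalizer (U : Set G))
    (fun t : Subgroup.normalizer (U : Set G) => f t)
    (V.subgroupOf (Subgroup.normalizer (U : Set G)))
    (fun t : Subgroup.normalizer (U : Set G) => γ t) hf.ld m ?_ hFq (Nat.card G)
    (Subgroup.card_le_card_group _) hIh Q hQ hQb ?_
  · intro k
    rw [hUX]
    ext x
    rw [T3.H62.mem_conjS]
    constructor
    · intro h
      have h1 := hUn.conj_mem _ h k
      have h2 : k * (k⁻¹ * x * k) * k⁻¹ = x := by group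
      rwa [h2] at h1
    · intro h
      have h1 := hUn.conj_mem _ h k⁻¹
      rwa [inv_inv] at h1
  · rw [hUX]
    rintro ⟨h1, h2⟩
    refine hno ⟨h1, ?_⟩
    intro x hx
    rw [Subgroup.mem_subgroupOf, Subgroup.mem_centralizer_iff]
    intro u hu
    have h3 := Subgroup.mem_centralizer_iff.1 (h2 hx)
      ⟨u, Subgroup.le_normalizer hu⟩ (Subgroup.mem_subgroupOf.2 hu)
    exact congrArg Subtype.val h3

section tsn

open Pool.Agent.PP.T2.H23

/-- TSN -/
theorem tsn_aux (pwu : PwuStmt) (tea : TenStmt) (teb : TebStmt) (tex : TxnStmt) : TsnStmt := by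
  classical
  intro ℓ _ M _ hM G _ _ e V γ hL n U hU hUne f hf hI
  have hℓ : ℓ.Prime := Fact.out
  have hF : GoodF ℓ (FF M) := H50.fld ℓ hℓ M hM
  obtain ⟨-, hUV, hNN, hCC, -, -, -, -⟩ := pwu G n V hL.ab
  rw [← hU] at hUV hNN hCC
  have hUp : IsPGroup ℓ U := hL.tp.pg.to_le hUV
  obtain ⟨X, hX⟩ : ∃ X : Subgroup G, X = Subgroup.normalizer (U : Set G) := ⟨_, rfl⟩
  have hUX : U ≤ X := hX ▸ Subgroup.le_normalizer
  have hCX : Subgroup.centralizer (U : Set G) ≤ X := by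
    rw [hX]
    exact Subgroup.centralizer_le_normalizer _
  have hidf : IsIdem (fun t : X => f t) := by
    subst hX
    exact hf.blk.blk.1
  -- the alternating sum of `X`
  have hYX : YY ℓ (⊤ : Subgroup X) (fun t : X => f t) = 0 := by
    refine H96.yzr ℓ (FF M) hℓ X ⊤ inferInstance (fun h0 => ?_) _
    let W : Subgroup (⊤ : Subgroup X) := (U.subgroupOf X).subgroupOf ⊤
    have hWn : (U.subgroupOf X).Normal := by
      subst hX
      exact (Subgroup.normal_subgroupOf_iff_le_normalizer Subgroup.le_normalizer).2 le_rfl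
    have hW1 : W.Normal := hWn.subgroupOf ⊤
    have hW2 : IsPGroup ℓ W := by
      have h1 : IsPGroup ℓ (U.subgroupOf X) :=
        hUp.comap_of_injective X.subtype X.subtype_injective
      exact h1.comap_of_injective (⊤ : Subgroup X).subtype (Subgroup.subtype_injective _)
    have hW3 : W ≤ opCore ℓ (⊤ : Subgroup X) := le_sSup ⟨hW1, hW2⟩
    rw [h0, le_bot_iff] at hW3
    apply hUne
    rw [eq_bot_iff]
    intro u hu
    have h2 : (⟨⟨u, hUX hu⟩, Subgroup.mem_top _⟩ : (⊤ : Subgroup X)) ∈ W := hu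
    rw [hW3, Subgroup.mem_bot] at h2
    exact congrArg (fun z : (⊤ : Subgroup X) => ((z : X) : G)) h2
  -- recursion for `X`
  have := Fintype.ofFinite (Subgroup G)
  have := Fintype.ofFinite (Subgroup X)
  have := Fintype.ofFinite (G ⧸ X)
  obtain ⟨y, hy⟩ : ∃ y : Subgroup X → ℤ, y = fun Q => YQ ℓ (fun t : X => f t) Q := ⟨_, rfl⟩
  obtain ⟨B, hB⟩ : ∃ B : Finset (Subgroup X), B = Finset.univ.filter (fun Q : Subgroup X =>
      (IsPGroup ℓ Q ∧ Q ≠ ⊥) ∧ (U.subgroupOf X ≤ Q ∧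
        Q ≤ (Subgroup.centralizer (U : Set G)).subgroupOf X)) := ⟨_, rfl⟩
  have hRX : ∑ Q ∈ B, (Nat.card Q : ℤ) * y Q =
      (Nat.card X : ℤ) * (ln (fun t : X => f t) : ℤ) := by
    have h1 := T3.H28.rec_ ℓ (FF M) hF X (fun t : X => f t) hidf
    rw [hYX, ln_eq] at h1
    have h2 : (∑ᶠ (Q : Subgroup X) (_ : IsPGroup ℓ Q ∧ Q ≠ ⊥),
        (Nat.card Q : ℤ) * YQ ℓ (fun t : X => f t) Q) = ∑ Q ∈ B, (Nat.card Q : ℤ) * y Q := by
      rw [finsum_eq_sum_of_fintype, hB, Finset.sum_filter]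
      refine Finset.sum_congr rfl fun Q _ => ?_
      rw [finsum_eq_if]
      by_cases hQ : IsPGroup ℓ Q ∧ Q ≠ ⊥
      · rw [if_pos hQ]
        by_cases hQ2 : U.subgroupOf X ≤ Q ∧ Q ≤ (Subgroup.centralizer (U : Set G)).subgroupOf X
        · rw [if_pos ⟨hQ, hQ2⟩, hy]
        · rw [if_neg (fun h => hQ2 h.2)]
          have h3 : YQ ℓ (fun t : X => f t) Q = 0 := by
            subst hX
            exact tex ℓ M hM G e V γ hL n U hU f hf hI Q hQ.1 hQ.2 hQ2
          rw [h3, mul_zero]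
      · rw [if_neg hQ, if_neg (fun h => hQ h.1)]
    rw [h2] at h1
    linarith
  -- recursion for `G`
  have hRG : YY ℓ ⊤ e = (Nat.card G : ℤ) * (ln e : ℤ) -
      ∑ q : G ⧸ X, ∑ Q ∈ Finset.univ.filter (fun Q : Subgroup G => (IsPGroup ℓ Q ∧ Q ≠ ⊥) ∧
        Bt U Q q.out), (Nat.card Q : ℤ) * y ((conjS q.out⁻¹ Q).subgroupOf X) := by
    have h1 := T3.H28.rec_ ℓ (FF M) hF G e hL.blk.1
    rw [ln_eq] at h1
    rw [h1]
    congr 1
    rw [finsum_eq_sum_of_fintype]
    simp only [Finset.sum_filter]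
    rw [Finset.sum_comm]
    refine Finset.sum_congr rfl fun Q _ => ?_
    rw [finsum_eq_if]
    by_cases hQ : IsPGroup ℓ Q ∧ Q ≠ ⊥
    · rw [if_pos hQ]
      have h2 : YQ ℓ e Q = ∑ q : G ⧸ X, if Bt U Q q.out then
          y ((conjS q.out⁻¹ Q).subgroupOf X) else 0 := by
        subst hX
        rw [tea ℓ M hM G e V γ hL n f (by rw [← hU]; exact hf) hI Q hQ.1 hQ.2, ← hU,
          teb ℓ M hM G e V γ hL n U hU f hf Q hQ.1, finsum_eq_sum_of_fintype]
        refine Finset.sum_congr rfl fun q _ => ?_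
        rw [finsum_eq_if, hy]
      rw [h2, Finset.mul_sum]
      refine Finset.sum_congr rfl fun q _ => ?_
      by_cases hB1 : Bt U Q q.out
      · rw [if_pos hB1, if_pos ⟨hQ, hB1⟩]
      · rw [if_neg hB1, if_neg (fun h => hB1 h.2), mul_zero]
    · rw [if_neg hQ]
      symm
      refine Finset.sum_eq_zero fun q _ => ?_
      rw [if_neg (fun h => hQ h.1)]
  -- the bijection
  have hbij : ∀ q : G ⧸ X, ∑ Q ∈ Finset.univ.filter (fun Q : Subgroup G =>
      (IsPGroup ℓ Q ∧ Q ≠ ⊥) ∧ Bt U Q q.out),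
        (Nat.card Q : ℤ) * y ((conjS q.out⁻¹ Q).subgroupOf X) =
      ∑ Q ∈ B, (Nat.card Q : ℤ) * y Q := by
    intro q
    obtain ⟨g, hg⟩ : ∃ g : G, g = q.out := ⟨_, rfl⟩
    rw [← hg]
    -- `conjS g⁻¹ Q ≤ C(U)`
    have hle : ∀ Q : Subgroup G, Bt U Q g → ∀ x ∈ conjS g⁻¹ Q,
        x ∈ Subgroup.centralizer (U : Set G) := by
      intro Q hQ x hx
      rw [mem_conj, inv_inv] at hx
      have h1 := Subgroup.mem_centralizer_iff.1 (hQ.2 hx)
      rw [Subgroup.mem_centralizer_iff]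
      intro u hu
      have h2 := h1 (g * u * g⁻¹) (by
        change g * u * g⁻¹ ∈ conjS g U
        rw [mem_conj]
        have h3 : g⁻¹ * (g * u * g⁻¹) * g = u := by group
        rw [h3]
        exact hu)
      have h4 : u * x = g⁻¹ * ((g * u * g⁻¹) * (g * x * g⁻¹)) * g := by group
      have h5 : x * u = g⁻¹ * ((g * x * g⁻¹) * (g * u * g⁻¹)) * g := by group
      rw [h4, h5, h2]
    have hcard : ∀ Q : Subgroup G, Bt U Q g →
        Nat.card ((conjS g⁻¹ Q).subgroupOf X) = Nat.card Q := by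
      intro Q hQ
      have h1 : conjS g⁻¹ Q ≤ X := fun x hx => hCX (hle Q hQ x hx)
      rw [← card_conj g⁻¹ Q]
      exact Nat.card_congr (Subgroup.subgroupOfEquivOfLe h1).toEquiv
    have hcard2 : ∀ Q' : Subgroup X, Nat.card (push' X g Q') = Nat.card Q' := by
      intro Q'
      unfold push'
      rw [card_conj, Subgroup.card_map_of_injective X.subtype_injective]
    have hinv1 : ∀ Q : Subgroup G, Bt U Q g → push' X g ((conjS g⁻¹ Q).subgroupOf X) = Q := by
      intro Q hQ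
      ext x
      rw [mem_push']
      constructor
      · rintro ⟨h, hx⟩
        rw [Subgroup.mem_subgroupOf] at hx
        change g⁻¹ * x * g ∈ conjS g⁻¹ Q at hx
        rw [mem_conj] at hx
        have h3 : g⁻¹⁻¹ * (g⁻¹ * x * g) * g⁻¹ = x := by group
        rwa [h3] at hx
      · intro hx
        have h1 : g⁻¹ * x * g ∈ conjS g⁻¹ Q := by
          rw [mem_conj]
          have h3 : g⁻¹⁻¹ * (g⁻¹ * x * g) * g⁻¹ = x := by group
          rwa [h3]
        exact ⟨hCX (hle Q hQ _ h1), h1⟩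
    have hinv2 : ∀ Q' : Subgroup X, (conjS g⁻¹ (push' X g Q')).subgroupOf X = Q' := by
      intro Q'
      ext x
      rw [Subgroup.mem_subgroupOf, mem_conj, mem_push']
      have h3 : g⁻¹ * (g⁻¹⁻¹ * (x : G) * g⁻¹) * g = x := by group
      constructor
      · rintro ⟨h, hx⟩
        have h4 : (⟨g⁻¹ * (g⁻¹⁻¹ * (x : G) * g⁻¹) * g, h⟩ : X) = x := Subtype.ext h3
        rwa [h4] at hx
      · intro hx
        have h5 : g⁻¹ * (g⁻¹⁻¹ * (x : G) * g⁻¹) * g ∈ X := by rw [h3]; exact x.2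
        refine ⟨h5, ?_⟩
        have h4 : (⟨g⁻¹ * (g⁻¹⁻¹ * (x : G) * g⁻¹) * g, h5⟩ : X) = x := Subtype.ext h3
        rw [h4]
        exact hx
    rw [hB]
    refine Finset.sum_nbij' (fun Q => (conjS g⁻¹ Q).subgroupOf X) (fun Q' => push' X g Q')
      ?_ ?_ ?_ ?_ ?_
    · intro Q hQ
      rw [Finset.mem_filter] at hQ ⊢
      obtain ⟨-, ⟨hQp, hQn⟩, hQB⟩ := hQ
      refine ⟨Finset.mem_univ _, ⟨?_, ?_⟩, ?_, ?_⟩
      · obtain ⟨n, hn⟩ := (IsPGroup.iff_card (p := ℓ) (G := Q)).1 hQp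
        exact (IsPGroup.iff_card (p := ℓ) (G := (conjS g⁻¹ Q).subgroupOf X)).2
          ⟨n, by rw [hcard Q hQB, hn]⟩
      · intro h0
        apply hQn
        rw [← Subgroup.card_eq_one, ← hcard Q hQB, h0, Subgroup.card_bot]
      · intro x hx
        rw [Subgroup.mem_subgroupOf] at hx ⊢
        rw [mem_conj]
        apply hQB.1
        rw [mem_conj]
        have h3 : g⁻¹ * (g⁻¹⁻¹ * (x : G) * g⁻¹) * g = x := by group
        rw [h3]
        exact hx
      · intro x hx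
        exact hle Q hQB _ hx
    · intro Q' hQ'
      rw [Finset.mem_filter] at hQ' ⊢
      obtain ⟨-, ⟨hQp, hQn⟩, hQ1, hQ2⟩ := hQ'
      refine ⟨Finset.mem_univ _, ⟨?_, ?_⟩, ?_, ?_⟩
      · obtain ⟨n, hn⟩ := (IsPGroup.iff_card (p := ℓ) (G := Q')).1 hQp
        exact (IsPGroup.iff_card (p := ℓ) (G := push' X g Q')).2 ⟨n, by rw [hcard2, hn]⟩
      · intro h0
        apply hQn
        rw [← Subgroup.card_eq_one, ← hcard2, h0, Subgroup.card_bot]
      · intro x hx
        rw [mem_conj] at hx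
        rw [mem_push']
        exact ⟨hUX hx, hQ1 hx⟩
      · intro x hx
        rw [mem_push'] at hx
        obtain ⟨h, hx⟩ := hx
        have h1 : g⁻¹ * x * g ∈ Subgroup.centralizer (U : Set G) := hQ2 hx
        rw [Subgroup.mem_centralizer_iff] at h1 ⊢
        intro w hw
        have h2 := h1 (g⁻¹ * w * g) (mem_conj.1 hw)
        have h4 : w * x = g * ((g⁻¹ * w * g) * (g⁻¹ * x * g)) * g⁻¹ := by group
        have h5 : x * w = g * ((g⁻¹ * x * g) * (g⁻¹ * w * g)) * g⁻¹ := by group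
        rw [h4, h5, h2]
    · intro Q hQ
      rw [Finset.mem_filter] at hQ
      exact hinv1 Q hQ.2.2
    · intro Q' _
      exact hinv2 Q'
    · intro Q hQ
      rw [Finset.mem_filter] at hQ
      rw [hcard Q hQ.2.2]
  have hfin : (Nat.card (G ⧸ X) : ℤ) * (Nat.card X : ℤ) = (Nat.card G : ℤ) := by
    rw [← Nat.cast_mul, ← Subgroup.card_eq_card_quotient_mul_card_subgroup]
  rw [hRG, Finset.sum_congr rfl (fun q _ => hbij q), hRX, Finset.sum_const, Finset.card_univ,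
    ← Nat.card_eq_fintype_card, nsmul_eq_mul, ← mul_assoc, hfin, ← mul_sub]
  subst hX
  rfl

end tsn

/-- row TSN -/
theorem tsn (pwu : PwuStmt) (qt1 : Qt1Stmt) (qt3 : Qt3Stmt) (lcj : LcjStmt) (fqt : FqtStmt)
    (ort : OrtStmt) (teb : TebStmt) : TsnStmt :=
  tsn_aux pwu (ten ort (tyn pwu qt1 qt3 lcj fqt)) teb (txn qt3 fqt qt1 lcj pwu)

end Pool.Agent.PP.TV.H66
end
end -- Pool.Agent.Helper66_WAT.TSN
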