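import Pool.Agent.Helper12_AWB.B159
import Pool.Agent.Helper12_AWB.B182
import Pool.Agent.Helper12_AWB.B254

/-!
# Merged copies (generated) of the modules

* `Pool.Agent.Helper41_AT3.CHA`
* `Pool.Agent.Helper13_C2.CHN`
* `Pool.Agent.Helper27_C2.YQZ`
* `Pool.Agent.Helper21_AT12.CYN`
* `Pool.Agent.Helper39_PFD.Chr`
-/

set_option autoImplicit false

section -- Pool.Agent.Helper41_AT3.CHA

/-!
# Squad AT3, row CHA: the alternating sum if the proper local sums vanish
-/

open scoped BigOperators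

noncomputable section

namespace Pool.Agent.PP.T3.H41

open Pool.Agent.Helper51_AWC Pool.Agent.Helper79_WRA Pool.Agent.PP Pool.Agent.PP.KF
open Pool.Agent.PP.K9 Pool.Agent.PP.K9.H97 Pool.Agent.PP.H75

attribute [local instance] Ideal.Quotient.field

/-- only the trivial chain counts if there is no nontrivial good subgroup -/
theorem yy_of_small {ℓ : ℕ} [Fact ℓ.Prime] {F : Type} [Field F] (hF : GoodF ℓ F) {A : Type}
    [Group A] [Finite A] {f : A → F} (hf : IsIdem f)
    (h : ∀ R : Subgroup A, IsPGroup ℓ R → Gd f R → Nat.card R ≤ 1) :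
    YY ℓ ⊤ f = (Nat.card A : ℤ) * lnum (⊤ : Subgroup A) f := by
  have hpr : ℓ.Prime := Fact.out
  have h1 : 1 ≤ ℓ ^ 2 := Nat.one_le_pow _ _ hpr.pos
  rw [K9.H56.exp ℓ F hF A f hf (fun R hR hg => (h R hR hg).trans h1)]
  have hlt : 1 < ℓ := hpr.one_lt
  have hlt2 : 1 < ℓ ^ 2 := Nat.one_lt_pow two_ne_zero hlt
  have e1 : ∑ᶠ (Q : Subgroup A) (_ : Nat.card Q = ℓ),
        (Nat.card (Subgroup.normalizer (Q : Set A)) : ℤ) *
          lnum (Subgroup.normalizer (Q : Set A)) f = 0 := by
    refine K9.H35.fz fun Q => K9.H35.fz fun hQ => ?_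
    have hp : IsPGroup ℓ Q := IsPGroup.of_card (n := 1) (by rw [hQ, pow_one])
    rw [(K9.H75.lbr ℓ F hF A f hf Q (Subgroup.normalizer (Q : Set A)) hp
      Subgroup.le_normalizer le_rfl).2 (fun hg => by
        have := h Q hp hg
        omega), Nat.cast_zero, mul_zero]
  have e2 : ∑ᶠ (V : Subgroup A) (_ : Nat.card V = ℓ ^ 2),
        (Nat.card (Subgroup.normalizer (V : Set A)) : ℤ) *
          lnum (Subgroup.normalizer (V : Set A)) f = 0 := by
    refine K9.H35.fz fun V => K9.H35.fz fun hV => ?_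
    have hp : IsPGroup ℓ V := IsPGroup.of_card (n := 2) hV
    rw [(K9.H75.lbr ℓ F hF A f hf V (Subgroup.normalizer (V : Set A)) hp
      Subgroup.le_normalizer le_rfl).2 (fun hg => by
        have := h V hp hg
        omega), Nat.cast_zero, mul_zero]
  have e3 : ∑ᶠ (Q : Subgroup A) (_ : Nat.card Q = ℓ), ∑ᶠ (V : Subgroup A)
        (_ : Nat.card V = ℓ ^ 2 ∧ Q ≤ V),
        (Nat.card (Subgroup.normalizer (Q : Set A) ⊓ Subgroup.normalizer (V : Set A) :
          Subgroup A) : ℤ) *
          lnum (Subgroup.normalizer (Q : Set A) ⊓ Subgroup.normalizer (V : Set A)) f = 0 := by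
    refine K9.H35.fz fun Q => K9.H35.fz fun _ => K9.H35.fz fun V => K9.H35.fz fun hV => ?_
    have hp : IsPGroup ℓ V := IsPGroup.of_card (n := 2) hV.1
    rw [(K9.H75.lbr ℓ F hF A f hf V (Subgroup.normalizer (Q : Set A) ⊓
      Subgroup.normalizer (V : Set A)) hp
      (le_inf (K9.H35.le_norm_of_sq hV.1 hV.2) Subgroup.le_normalizer) inf_le_right).2
      (fun hg => by
        have := h V hp hg
        omega), Nat.cast_zero, mul_zero]
  rw [e1, e2, e3, sub_zero, sub_zero, add_zero]

/-- the good subgroups of the quotient -/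
theorem card_good1 {ℓ : ℕ} {F : Type} [Field F] (hF : GoodF ℓ F) {G A : Type} [Group G]
    [Finite G] [Group A] [Finite A] {Q : Subgroup G} (hQp : IsPGroup ℓ Q)
    {p : Subgroup.normalizer (Q : Set G) →* A}
    (hp : Function.Surjective p) (hk : p.ker = Q.subgroupOf (Subgroup.normalizer (Q : Set G)))
    {e : G → F} (hf : IsIdem (fun t : Subgroup.normalizer (Q : Set G) => br Q e t))
    (hmx : ∀ R : Subgroup G, IsPGroup ℓ R → Gd e R → Nat.card R ≤ Nat.card Q)
    (R : Subgroup A) (hR : IsPGroup ℓ R)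
    (hg : Gd (PP.H75.push p (fun t : Subgroup.normalizer (Q : Set G) => br Q e t)) R) :
    Nat.card R ≤ 1 := by
  have hkc : Nat.card p.ker = Nat.card Q := by
    rw [hk]
    exact Nat.card_congr (Subgroup.subgroupOfEquivOfLe Subgroup.le_normalizer).toEquiv
  have hkp : IsPGroup ℓ p.ker := by
    rw [hk]
    exact hQp.of_equiv (Subgroup.subgroupOfEquivOfLe Subgroup.le_normalizer).symm
  have h1 : p.ker ≤ R.comap p := by
    intro x hx
    rw [MonoidHom.mem_ker] at hx
    rw [Subgroup.mem_comap, hx]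
    exact R.one_mem
  have h2 : IsPGroup ℓ (R.comap p) := (PP.H75.isPGroup_comap_iff hp hkp R).2 hR
  have h3 := (K9.H02.pug ℓ F hF _ A p hp hkp _ hf (R.comap p) h1 h2).2 (by
    rw [Subgroup.map_comap_eq_self_of_surjective hp]
    exact hg)
  obtain ⟨x, hx, hx2⟩ := h3
  have h4 : Gd e (K9.H35.up p R) := by
    refine ⟨(x : G), ?_, ?_⟩
    · rw [Subgroup.mem_centralizer_iff]
      rintro _ ⟨y, hy, rfl⟩
      exact congrArg Subtype.val (Subgroup.mem_centralizer_iff.1 hx y hy)
    · intro h0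
      apply hx2
      by_cases hc : (x : G) ∈ Subgroup.centralizer (Q : Set G)
      · change br Q e x = 0
        rw [H66.br_of_mem hc, h0]
      · exact H66.br_of_not_mem hc
  have h5 := hmx (K9.H35.up p R) (h2.map _) h4
  rw [K9.H35.card_up hp, hkc] at h5
  have h6 : 0 < Nat.card Q := Nat.card_pos
  exact Nat.le_of_mul_le_mul_left (h5.trans (mul_one _).ge) h6

/-- the term of a good subgroup of maximal order -/
theorem term_max {ℓ : ℕ} [Fact ℓ.Prime] {F : Type} [Field F] (hF : GoodF ℓ F) {G : Type}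
    [Group G] [Finite G] {e : G → F} (he : IsIdem e) {Q : Subgroup G} (hQp : IsPGroup ℓ Q)
    (hmx : ∀ R : Subgroup G, IsPGroup ℓ R → Gd e R → Nat.card R ≤ Nat.card Q) :
    (Nat.card Q : ℤ) * YQ ℓ e Q =
      (Nat.card (Subgroup.normalizer (Q : Set G)) : ℤ) *
        lnum (Subgroup.normalizer (Q : Set G)) e := by
  have hf : IsIdem (fun t : Subgroup.normalizer (Q : Set G) => br Q e t) :=
    (H20.brm ℓ F hF G Q (Subgroup.normalizer (Q : Set G)) hQp
      (Subgroup.centralizer_le_normalizer _) le_rfl).2.2 e he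
  have hk : (QuotientGroup.mk' (Q.subgroupOf (Subgroup.normalizer (Q : Set G)))).ker =
    Q.subgroupOf (Subgroup.normalizer (Q : Set G)) := QuotientGroup.ker_mk' _
  have hs := QuotientGroup.mk'_surjective (Q.subgroupOf (Subgroup.normalizer (Q : Set G)))
  have h1 := yy_of_small hF (PP.H75.push_isIdem hs hf)
    (card_good1 hF hQp hs hk hf hmx)
  have hkc : Nat.card (QuotientGroup.mk' (Q.subgroupOf (Subgroup.normalizer (Q : Set G)))).ker =
      Nat.card Q := by
    rw [hk]
    exact Nat.card_congr (Subgroup.subgroupOfEquivOfLe Subgroup.le_normalizer).toEquiv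
  have hkp : IsPGroup ℓ
      (QuotientGroup.mk' (Q.subgroupOf (Subgroup.normalizer (Q : Set G)))).ker := by
    rw [hk]
    exact hQp.of_equiv (Subgroup.subgroupOfEquivOfLe Subgroup.le_normalizer).symm
  have h2 := K9.H35.card_up hs (⊤ : Subgroup _)
  have h3 := K9.H35.lnum_up hF hs hkp (⊤ : Subgroup _) (br Q e)
  rw [K9.H35.up_top, hkc, Subgroup.card_top] at h2
  rw [K9.H35.up_top] at h3
  unfold YQ
  rw [h1, (K9.H75.lbr ℓ F hF G e he Q (Subgroup.normalizer (Q : Set G)) hQp
    Subgroup.le_normalizer le_rfl).1, h3, h2]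
  push_cast
  ring

theorem cha (hREC : RecStmt) : ChaStmt := by
  classical
  intro ℓ hℓ M _ hM G _ _ e he V hV hVb hY
  have hF : GoodF ℓ (FF M) := H50.fld ℓ hℓ.out M hM
  have hfin : Fintype (Subgroup G) := Fintype.ofFinite _
  rw [hREC ℓ (FF M) hF G e he.1]
  have hfmg := (K9.H69.fmg ℓ M hM G e he V hV).1
  have hW : ∑ᶠ (Q : Subgroup G) (_ : IsPGroup ℓ Q ∧ Q ≠ ⊥), (Nat.card Q : ℤ) * YQ ℓ e Q =
      (Nat.card G : ℤ) * (lnum (Subgroup.normalizer (V : Set G)) e : ℤ) := by
    rw [finsum_eq_sum_of_fintype]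
    simp only [finsum_eq_if]
    rw [← Finset.sum_filter]
    have h1 : Finset.univ.filter (fun W : Subgroup G => K9.H35.CJ V W) ⊆
        Finset.univ.filter (fun W : Subgroup G => IsPGroup ℓ W ∧ W ≠ ⊥) := by
      intro W hW
      obtain ⟨-, g, rfl⟩ := Finset.mem_filter.1 hW
      refine Finset.mem_filter.2 ⟨Finset.mem_univ _, ?_, ?_⟩
      · exact hV.pg.map _
      · intro h
        apply hVb
        have h2 := card_conjS g V
        rw [h, Subgroup.card_bot] at h2
        exact Subgroup.card_eq_one.1 h2.symm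
    rw [← Finset.sum_subset h1]
    · have h2 : ∀ W ∈ Finset.univ.filter (fun W : Subgroup G => K9.H35.CJ V W),
          (Nat.card W : ℤ) * YQ ℓ e W =
          (Nat.card (Subgroup.normalizer (V : Set G)) : ℤ) *
            lnum (Subgroup.normalizer (V : Set G)) e := by
        intro W hW
        obtain ⟨-, g, rfl⟩ := Finset.mem_filter.1 hW
        rw [term_max hF he.1 (Q := conjS g V) (hV.pg.map _)
          (fun R h3 h4 => (hV.mx R h3 h4).trans (card_conjS g V).ge)]
        rw [BN.H9.norm_conjS, card_conjS, K9.H35.lnum_conjS he.1.1]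
      rw [Finset.sum_congr rfl h2, Finset.sum_const, nsmul_eq_mul, ← mul_assoc,
        ← K9.H35.card_conj V]
      push_cast
      ring
    · intro W hW hW2
      obtain ⟨-, hWp, hWb⟩ := Finset.mem_filter.1 hW
      by_cases hg : Gd e W
      · obtain ⟨g, hg2⟩ := hfmg W hWp hg
        have h3 : Nat.card W < Nat.card V := by
          refine lt_of_le_of_ne (hV.mx W hWp hg) ?_
          intro h4
          apply hW2
          refine Finset.mem_filter.2 ⟨Finset.mem_univ _, g, ?_⟩
          refine Subgroup.eq_of_le_of_card_ge hg2 ?_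
          rw [card_conjS, h4]
        rw [hY W hWp hWb hg h3, mul_zero]
      · have h3 : (fun t : Subgroup.normalizer (W : Set G) => br W e t) = 0 := by
          funext t
          by_cases ht : (t : G) ∈ Subgroup.centralizer (W : Set G)
          · change br W e t = 0
            rw [H66.br_of_mem ht]
            by_contra h4
            exact hg ⟨t, ht, h4⟩
          · exact H66.br_of_not_mem ht
        have h4 : YQ ℓ e W = 0 := by
          unfold YQ
          rw [h3, PP.H75.push_zero, H67.YY_zero hF]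
        rw [h4, mul_zero]
  rw [hW, K9.H35.lnum_top, (K9.H75.lbr ℓ (FF M) hF G e he.1 V (Subgroup.normalizer (V : Set G))
    hV.pg Subgroup.le_normalizer le_rfl).1]
  have h5 : lnum (Subgroup.normalizer (V : Set G)) (br V e) =
      ln (fun t : Subgroup.normalizer (V : Set G) => br V e t) := rfl
  have h6 : {f : G → FF M | f ∈ IBr (FF M) G ∧ actF e f = f}.ncard = ln e := rfl
  rw [← h5, h6]
  ring

end Pool.Agent.PP.T3.H41
end
end -- Pool.Agent.Helper41_AT3.CHA

section -- Pool.Agent.Helper13_C2.CHN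

/-!
# Squad C2, row CHN: the alternating sum is a difference of two numbers of modular characters
-/

open scoped BigOperators

noncomputable section

namespace Pool.Agent.PP.C2.H13

open Pool.Agent.Helper51_AWC Pool.Agent.Helper79_WRA Pool.Agent.PP Pool.Agent.PP.KF
open Pool.Agent.PP.K9

attribute [local instance] Ideal.Quotient.field

/-! ### 1. Invariance under conjugation -/

section inv

variable {F : Type} [Field F]

theorem push_equiv {A A' B B' : Type} [Group A] [Group A'] [Group B] [Group B']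
    (c : A ≃* A') (p : A →* B) (p' : A' →* B') (φ : B ≃* B') (h : ∀ x, p' (c x) = φ (p x))
    (a : A → F) (a' : A' → F) (ha : ∀ x, a' (c x) = a x) (y : B) :
    PP.H75.push p' a' (φ y) = PP.H75.push p a y := by
  unfold PP.H75.push
  rw [← finsum_comp_equiv c.toEquiv]
  refine finsum_congr fun x => ?_
  have h1 : (p' (c.toEquiv x) = φ y) = (p x = y) := by
    apply propext
    change p' (c x) = φ y ↔ _
    rw [h x]
    exact φ.injective.eq_iff
  have h2 : a' (c.toEquiv x) = a x := ha x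
  rw [h2]
  exact finsum_congr_Prop h1 (fun _ => rfl)

/-- the isomorphism of the normalisers -/
def cN {G : Type} [Group G] (g : G) (Q : Subgroup G) :
    Subgroup.normalizer (Q : Set G) ≃* Subgroup.normalizer ((conjS g Q : Subgroup G) : Set G) :=
  ((Subgroup.normalizer (Q : Set G)).equivMapOfInjective (MulAut.conj g).toMonoidHom
    (MulAut.conj g).injective).trans
    (MulEquiv.subgroupCongr (BN.H9.norm_conjS g Q).symm)

theorem cN_coe {G : Type} [Group G] (g : G) (Q : Subgroup G)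
    (x : Subgroup.normalizer (Q : Set G)) : ((cN g Q x : _) : G) = g * x * g⁻¹ := rfl

theorem yq_conj {G : Type} [Group G] [Finite G] (ℓ : ℕ) {e : G → F} (he : IsCl e) (g : G)
    (Q : Subgroup G) : yq ℓ (conjS g Q) e = yq ℓ Q e := by
  have hmap : (Q.subgroupOf (Subgroup.normalizer (Q : Set G))).map (cN g Q).toMonoidHom =
      (conjS g Q).subgroupOf (Subgroup.normalizer ((conjS g Q : Subgroup G) : Set G)) := by
    ext x
    constructor
    · rintro ⟨y, hy, rfl⟩
      change g * (y : G) * g⁻¹ ∈ conjS g Q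
      rw [mem_conjS]
      have h1 : g⁻¹ * (g * (y : G) * g⁻¹) * g = y := by group
      rw [h1]
      exact hy
    · intro hx
      have hx' : (x : G) ∈ conjS g Q := hx
      rw [mem_conjS] at hx'
      refine ⟨(cN g Q).symm x, ?_, (cN g Q).apply_symm_apply x⟩
      have h1 : ((cN g Q ((cN g Q).symm x)) : G) = x := by
        rw [(cN g Q).apply_symm_apply]
      rw [cN_coe] at h1
      change (((cN g Q).symm x : Subgroup.normalizer (Q : Set G)) : G) ∈ Q
      have h2 : (((cN g Q).symm x : Subgroup.normalizer (Q : Set G)) : G) = g⁻¹ * x * g := by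
        rw [← h1]; group
      rw [h2]
      exact hx'
  let φ := QuotientGroup.congr _ _ (cN g Q) hmap
  have h1 : ∀ x, QuotientGroup.mk' ((conjS g Q).subgroupOf
      (Subgroup.normalizer ((conjS g Q : Subgroup G) : Set G))) (cN g Q x) =
      φ (QuotientGroup.mk' (Q.subgroupOf (Subgroup.normalizer (Q : Set G))) x) :=
    fun x => rfl
  have h2 : ∀ x : Subgroup.normalizer (Q : Set G), br (conjS g Q) e (cN g Q x : G) = br Q e x := by
    intro x
    rw [cN_coe]
    have h3 : g * (x : G) * g⁻¹ ∈ Subgroup.centralizer ((conjS g Q : Subgroup G) : Set G) ↔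
        (x : G) ∈ Subgroup.centralizer (Q : Set G) := by
      rw [Subgroup.mem_centralizer_iff, Subgroup.mem_centralizer_iff]
      constructor
      · intro h y hy
        have h4 := h (g * y * g⁻¹) (by
          change g * y * g⁻¹ ∈ conjS g Q
          rw [mem_conjS]
          have h5 : g⁻¹ * (g * y * g⁻¹) * g = y := by group
          rw [h5]
          exact hy)
        calc y * (x : G) = g⁻¹ * (g * y * g⁻¹ * (g * (x : G) * g⁻¹)) * g := by group
          _ = g⁻¹ * (g * (x : G) * g⁻¹ * (g * y * g⁻¹)) * g := by rw [h4]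
          _ = (x : G) * y := by group
      · intro h y hy
        have h4 : g⁻¹ * y * g ∈ Q := mem_conjS.1 hy
        have h5 := h _ h4
        calc y * (g * (x : G) * g⁻¹) = g * (g⁻¹ * y * g * x) * g⁻¹ := by group
          _ = g * (x * (g⁻¹ * y * g)) * g⁻¹ := by rw [h5]
          _ = g * (x : G) * g⁻¹ * y := by group
    by_cases hx : (x : G) ∈ Subgroup.centralizer (Q : Set G)
    · rw [H66.br_of_mem hx, H66.br_of_mem (h3.2 hx), he]
    · rw [H66.br_of_not_mem hx, H66.br_of_not_mem (fun h => hx (h3.1 h))]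
  unfold yq
  have h3 := PP.H75.YY_equiv ℓ φ ⊤ (PP.H75.push (QuotientGroup.mk' ((conjS g Q).subgroupOf
      (Subgroup.normalizer ((conjS g Q : Subgroup G) : Set G))))
    (fun t : Subgroup.normalizer ((conjS g Q : Subgroup G) : Set G) => br (conjS g Q) e t))
  have h4 : (⊤ : Subgroup (Subgroup.normalizer (Q : Set G) ⧸
      Q.subgroupOf (Subgroup.normalizer (Q : Set G)))).map φ.toMonoidHom = ⊤ :=
    Subgroup.map_top_of_surjective φ.toMonoidHom φ.surjective
  rw [h4] at h3
  rw [← h3]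
  congr 1
  funext y
  exact push_equiv (cN g Q) _ _ φ h1 _ _ h2 y

end inv

/-! ### 2. The sum over the conjugates -/

open Classical in
theorem sum_conj {G : Type} [Group G] [Finite G] [Fintype (Subgroup G)] (V : Subgroup G)
    (f : Subgroup G → ℤ) (c : ℤ) (hf : ∀ g : G, f (conjS g V) =
      (Nat.card (Subgroup.normalizer (V : Set G)) : ℤ) * c) :
    ∑ W ∈ Finset.univ.filter (fun W : Subgroup G => K9.H35.CJ V W), f W = (Nat.card G : ℤ) * c := by
  have h2 : ∀ W ∈ Finset.univ.filter (fun W : Subgroup G => K9.H35.CJ V W),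
      f W = (Nat.card (Subgroup.normalizer (V : Set G)) : ℤ) * c := by
    intro W hW
    obtain ⟨-, g, rfl⟩ := Finset.mem_filter.1 hW
    exact hf g
  rw [Finset.sum_congr rfl h2, Finset.sum_const, nsmul_eq_mul, ← mul_assoc, ← K9.H35.card_conj V]
  push_cast
  ring

/-- the subgroup of the `ℓ`-th powers -/
def pwS {G : Type} [Group G] (ℓ : ℕ) (V : Subgroup G) (hV : ∀ a ∈ V, ∀ b ∈ V, a * b = b * a) :
    Subgroup G where
  carrier := {x | ∃ y ∈ V, y ^ ℓ = x}
  mul_mem' := by
    rintro _ _ ⟨y, hy, rfl⟩ ⟨z, hz, rfl⟩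
    exact ⟨y * z, mul_mem hy hz, (show Commute y z from hV y hy z hz).mul_pow ℓ⟩
  one_mem' := ⟨1, one_mem V, one_pow ℓ⟩
  inv_mem' := by
    rintro _ ⟨y, hy, rfl⟩
    exact ⟨y⁻¹, inv_mem hy, inv_pow y ℓ⟩

/-- CHN -/
theorem chn (hrec : RecStmt) (yqz : YqzStmt) (yqn : YqnStmt) (yqv : YqvStmt) : ChnStmt := by
  classical
  intro ℓ hℓ M _ hM n hn hind G _ _ e he V hV hT
  have hF : GoodF ℓ (FF M) := H50.fld ℓ hℓ.out M hM
  have hfin : Fintype (Subgroup G) := Fintype.ofFinite _
  obtain ⟨Q₁, hQ₁⟩ : ∃ Q₁ : Subgroup G, ∀ x, x ∈ Q₁ ↔ ∃ y ∈ V, y ^ ℓ = x :=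
    ⟨pwS ℓ V hT.comm, fun x => Iff.rfl⟩
  obtain ⟨f, hf, hTf, hyn⟩ := yqn ℓ M hM n hn G e he V hV hT Q₁ hQ₁
  obtain ⟨u, hu, huo⟩ := hT.gen
  have hQV : Q₁ ≤ V := by
    intro x hx
    obtain ⟨y, hy, rfl⟩ := (hQ₁ x).1 hx
    exact pow_mem hy ℓ
  have hVN : V ≤ Subgroup.normalizer (Q₁ : Set G) := by
    refine le_trans ?_ (Subgroup.centralizer_le_normalizer _)
    intro a ha
    rw [Subgroup.mem_centralizer_iff]
    intro b hb
    exact hT.comm b (hQV hb) a ha
  have hl2 : 2 ≤ ℓ := hℓ.out.two_le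
  -- `Q₁` is not trivial
  have hQ₁n : Q₁ ≠ ⊥ := by
    intro h0
    have h1 : u ^ ℓ ∈ Q₁ := (hQ₁ _).2 ⟨u, hu, rfl⟩
    rw [h0, Subgroup.mem_bot] at h1
    have h2 : ℓ ^ n ∣ ℓ := by
      rw [← huo]
      exact orderOf_dvd_of_pow_eq_one h1
    have h3 := Nat.le_of_dvd (by omega) h2
    have h4 : ℓ ^ 2 ≤ ℓ ^ n := Nat.pow_le_pow_right (by omega) hn
    nlinarith
  have hVn : V ≠ ⊥ := by
    intro h0
    exact hQ₁n (eq_bot_iff.2 (h0 ▸ hQV))
  have hQ₁c : Nat.card Q₁ ≠ Nat.card V := by
    intro h0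
    have h1 : Q₁ = V := Subgroup.eq_of_le_of_card_ge hQV h0.ge
    have h2 : u ∈ Q₁ := by rw [h1]; exact hu
    obtain ⟨y, hy, hyu⟩ := (hQ₁ u).1 h2
    have h3 : orderOf y = ℓ ^ (n + 1) := by
      apply orderOf_eq_prime_pow
      · intro h4
        have h5 : u ^ ℓ ^ (n - 1) = 1 := by
          rw [← hyu, ← pow_mul, ← pow_succ']
          have h6 : n - 1 + 1 = n := by omega
          rw [h6]
          exact h4
        have h7 := orderOf_dvd_of_pow_eq_one h5
        rw [huo] at h7
        have h8 := (Nat.pow_dvd_pow_iff_le_right (x := ℓ) (by omega)).1 h7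
        omega
      · rw [pow_succ', pow_mul, hyu, ← huo, pow_orderOf_eq_one]
    apply hT.ncyc
    have h4 : orderOf (⟨y, hy⟩ : V) = Nat.card V := by
      rw [Subgroup.orderOf_mk, h3, hT.card]
    exact isCyclic_of_orderOf_eq_card _ h4
  have hQ₁p : IsPGroup ℓ Q₁ := hV.pg.to_le hQV
  refine ⟨Subgroup.normalizer (Q₁ : Set G), inferInstance, inferInstance, f,
    V.subgroupOf (Subgroup.normalizer (Q₁ : Set G)), hf, hTf, ?_, ?_⟩
  · refine ⟨?_, ?_, ?_, ?_⟩
    · intro a ha b hb
      exact Subtype.ext (hT.comm a ha b hb)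
    · rw [Nat.card_congr (Subgroup.subgroupOfEquivOfLe hVN).toEquiv, hT.card]
    · refine ⟨⟨u, hVN hu⟩, hu, ?_⟩
      rw [Subgroup.orderOf_mk, huo]
    · intro hc
      apply hT.ncyc
      exact isCyclic_of_surjective (Subgroup.subgroupOfEquivOfLe hVN).toMonoidHom
        (Subgroup.subgroupOfEquivOfLe hVN).surjective
  -- the sum
  rw [hrec ℓ (FF M) hF G e he.1, K9.H35.lnum_top, finsum_eq_sum_of_fintype]
  simp only [finsum_eq_if]
  rw [← Finset.sum_filter]
  have hsub : Finset.univ.filter (fun W : Subgroup G => K9.H35.CJ Q₁ W) ∪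
      Finset.univ.filter (fun W : Subgroup G => K9.H35.CJ V W) ⊆
      Finset.univ.filter (fun Q : Subgroup G => IsPGroup ℓ Q ∧ Q ≠ ⊥) := by
    intro W hW
    rw [Finset.mem_union, Finset.mem_filter, Finset.mem_filter] at hW
    rw [Finset.mem_filter]
    refine ⟨Finset.mem_univ _, ?_⟩
    rcases hW with ⟨-, g, rfl⟩ | ⟨-, g, rfl⟩
    · exact ⟨hQ₁p.map _, BN.H9.conjS_ne_bot hQ₁n g⟩
    · exact ⟨hV.pg.map _, BN.H9.conjS_ne_bot hVn g⟩
  have hdisj : Disjoint (Finset.univ.filter (fun W : Subgroup G => K9.H35.CJ Q₁ W))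
      (Finset.univ.filter (fun W : Subgroup G => K9.H35.CJ V W)) := by
    rw [Finset.disjoint_left]
    intro W h1 h2
    obtain ⟨-, g, rfl⟩ := Finset.mem_filter.1 h1
    obtain ⟨-, g', hg'⟩ := Finset.mem_filter.1 h2
    apply hQ₁c
    rw [← card_conjS g Q₁, hg', card_conjS]
  rw [← Finset.sum_subset hsub]
  · rw [Finset.sum_union hdisj]
    have s1 := sum_conj Q₁ (fun Q => (Nat.card Q : ℤ) * yq ℓ Q e)
      ((lb f : ℤ) - (lb (fun t : Subgroup.normalizer (V : Set G) => br V e t) : ℤ)) (by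
        intro g
        rw [card_conjS, yq_conj ℓ he.1.1, hyn])
    have s2 := sum_conj V (fun Q => (Nat.card Q : ℤ) * yq ℓ Q e)
      (lb (fun t : Subgroup.normalizer (V : Set G) => br V e t) : ℤ) (by
        intro g
        rw [card_conjS, yq_conj ℓ he.1.1, yqv ℓ M hM G e he V hV V hV.pg rfl,
          (K9.H75.lbr ℓ (FF M) hF G e he.1 V (Subgroup.normalizer (V : Set G)) hV.pg
            Subgroup.le_normalizer le_rfl).1]
        rfl)
    rw [s1, s2]
    change (Nat.card G : ℤ) * (lb e : ℤ) - _ = _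
    ring
  · intro W hW hW2
    obtain ⟨-, hWp, hWn⟩ := Finset.mem_filter.1 hW
    rw [Finset.mem_union, Finset.mem_filter, Finset.mem_filter] at hW2
    push Not at hW2
    obtain ⟨hW3, hW4⟩ := hW2
    have hW3 := hW3 (Finset.mem_univ _)
    have hW4 := hW4 (Finset.mem_univ _)
    by_cases hc : Nat.card W = Nat.card V
    · rw [yqv ℓ M hM G e he V hV W hWp hc]
      have h3 : ¬ Gd e W := by
        intro hg
        obtain ⟨g, hg2⟩ := (K9.H69.fmg ℓ M hM G e he V hV).1 W hWp hg
        apply hW4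
        refine ⟨g, ?_⟩
        refine Subgroup.eq_of_le_of_card_ge hg2 ?_
        rw [card_conjS, hc]
      rw [(K9.H75.lbr ℓ (FF M) hF G e he.1 W (Subgroup.normalizer (W : Set G)) hWp
        Subgroup.le_normalizer le_rfl).2 h3, Nat.cast_zero, mul_zero]
    · rw [yqz ℓ M hM n hn hind G e he V hV hT Q₁ hQ₁ W hWp hWn hc hW3, mul_zero]

end Pool.Agent.PP.C2.H13
end
end -- Pool.Agent.Helper13_C2.CHN

section -- Pool.Agent.Helper27_C2.YQZ

/-!
# Squad C2, row YQZ: the terms which vanish
-/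

open scoped BigOperators

noncomputable section

namespace Pool.Agent.PP.C2.H27

open Pool.Agent.Helper51_AWC Pool.Agent.Helper79_WRA Pool.Agent.PP Pool.Agent.PP.KF
open Pool.Agent.PP.K9 Pool.Agent.PP.C2

attribute [local instance] Ideal.Quotient.field

/-- `V ≃* conjS g V` -/
def eqC {G : Type} [Group G] (g : G) (V : Subgroup G) : V ≃* conjS g V :=
  V.equivMapOfInjective _ (MulAut.conj g).injective

theorem eqC_apply {G : Type} [Group G] (g : G) (V : Subgroup G) (v : V) :
    ((eqC g V v : conjS g V) : G) = g * v * g⁻¹ := rfl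

/-- A block whose defect groups are cyclic and not trivial. -/
theorem yy_cyc {ℓ : ℕ} [Fact ℓ.Prime] {M : Ideal (integralClosure ℤ ℂ)} [M.IsMaximal]
    (hM : (ℓ : integralClosure ℤ ℂ) ∈ M) {A : Type} [Group A] [Finite A] {f : A → FF M}
    (hf : IsBlk f) {R : Subgroup A} (hR : Tp ℓ f R) (hc : IsCyclic R) (h1 : R ≠ ⊥) :
    YY ℓ ⊤ f = 0 := by
  have hpr : ℓ.Prime := Fact.out
  have hF : GoodF ℓ (FF M) := H50.fld ℓ hpr M hM
  have hfin : Finite R := inferInstance
  -- a subgroup of order `ℓ`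
  have hdv : ℓ ∣ Nat.card R := by
    obtain ⟨k, hk⟩ := IsPGroup.iff_card.1 hR.pg
    rw [hk]
    apply dvd_pow_self
    rintro rfl
    rw [pow_zero] at hk
    exact h1 (Subgroup.card_eq_one.1 hk)
  obtain ⟨y, hy⟩ := exists_prime_orderOf_dvd_card' ℓ hdv
  have hy' : orderOf (y : A) = ℓ := by rw [Subgroup.orderOf_coe, hy]
  have hcard : Nat.card (Subgroup.zpowers (y : A)) = ℓ := by rw [Nat.card_zpowers, hy']
  have hle : Subgroup.zpowers (y : A) ≤ R := Subgroup.zpowers_le.2 y.2
  have hg : Gd f (Subgroup.zpowers (y : A)) := by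
    obtain ⟨g, hg, hg2⟩ := hR.gd
    exact ⟨g, Subgroup.centralizer_le hle hg, hg2⟩
  have hpos : Pos ℓ f ⊤ := by
    intro x _ hx
    have h2 : (Subgroup.centralizer ({x} : Set A) ⊓ ⊤ : Subgroup A) =
        Subgroup.centralizer ({x} : Set A) := inf_top_eq _
    rw [h2] at hx
    exact H35.nil_of_good hF hf hcard hg hx
  refine CD2.Asm.d2a_ ℓ (FF M) hF A ⊤ inferInstance f hf.1 hpos
    ⟨f, hf.1, fun x hx => absurd (Subgroup.mem_top x) hx, hf.1.2, fun Q _ hQp hbr => ?_⟩
  have h2 : Gd f Q := by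
    by_contra hcon
    apply hbr
    funext t
    by_cases ht : t ∈ Subgroup.centralizer (Q : Set A)
    · rw [H66.br_of_mem ht]
      by_contra h3
      exact hcon ⟨t, ht, h3⟩
    · rw [H66.br_of_not_mem ht]
      rfl
  obtain ⟨g, hg⟩ := (H69.fmg ℓ M hM A f hf R hR).1 Q hQp h2
  have : IsCyclic (conjS g R) := isCyclic_of_surjective (eqC g R).toMonoidHom (eqC g R).surjective
  exact isCyclic_of_injective (Subgroup.inclusion hg) (Subgroup.inclusion_injective hg)

theorem yqz (duv : DuvStmt) (tyq : TyqStmt) : YqzStmt := by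
  intro ℓ _ M _ hM n hn IH G _ _ e he V hV hT Q₁ hQ₁ Q hQp hQ1 hQV hcj
  have hpr : ℓ.Prime := Fact.out
  have hF : GoodF ℓ (FF M) := H50.fld ℓ hpr M hM
  set p := QuotientGroup.mk' (Q.subgroupOf (Subgroup.normalizer (Q : Set G))) with hp
  have hps : Function.Surjective p := QuotientGroup.mk'_surjective _
  have hpk : p.ker = Q.subgroupOf (Subgroup.normalizer (Q : Set G)) := QuotientGroup.ker_mk' _
  have hpk2 : ∀ t : Subgroup.normalizer (Q : Set G), t ∈ p.ker ↔ (t : G) ∈ Q := by
    intro t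
    rw [hpk]
    exact Subgroup.mem_subgroupOf
  have hid : IsIdem (fun t : Subgroup.normalizer (Q : Set G) => br Q e t) :=
    (H20.brm ℓ (FF M) hF G Q _ hQp (Subgroup.centralizer_le_normalizer _) le_rfl).2.2 e he.1
  have hid2 := H75.push_isIdem hps hid
  refine H9.addStmt ℓ (FF M) hF _ ⊤ inferInstance _ hid2 fun f hf hef => ?_
  obtain ⟨R, hR, g, hg⟩ := duv ℓ M hM G e he V hV hT.comm Q hQp _ p hps hpk f hf hef
  -- the isomorphism
  have E1 : R.comap p ≃* upm p R :=
    (R.comap p).equivMapOfInjective _ (Subgroup.subtype_injective _)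
  have hcardV : Nat.card (R.comap p) = Nat.card V := by
    rw [Nat.card_congr E1.toEquiv, hg, Nat.card_congr (eqC g V).toEquiv.symm]
  have hcardQ : Nat.card p.ker = Nat.card Q := by
    rw [hpk]
    exact Nat.card_congr (Subgroup.subgroupOfEquivOfLe Subgroup.le_normalizer).toEquiv
  have hcardR : Nat.card Q * Nat.card R = Nat.card V := by
    rw [← hcardQ, ← H75.card_comap hps R, hcardV]
  have hRne : R ≠ ⊥ := by
    rintro rfl
    rw [Subgroup.card_bot, mul_one] at hcardR
    exact hQV hcardR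
  by_cases hc : IsCyclic R
  · exact yy_cyc hM hf hR hc hRne
  -- the elements of the preimage
  have hmem : ∀ x : R.comap p, g⁻¹ * ((x : Subgroup.normalizer (Q : Set G)) : G) * g ∈ V := by
    intro x
    rw [← mem_conjS, ← hg]
    exact ⟨x, x.2, rfl⟩
  have hmem2 : ∀ v ∈ V, ∃ x : R.comap p,
      ((x : Subgroup.normalizer (Q : Set G)) : G) = g * v * g⁻¹ := by
    intro v hv
    have h1 : g * v * g⁻¹ ∈ upm p R := by
      rw [hg, mem_conjS]
      have h2 : g⁻¹ * (g * v * g⁻¹) * g = v := by group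
      rwa [h2]
    obtain ⟨x, hx, hx2⟩ := h1
    exact ⟨⟨x, hx⟩, hx2⟩
  have hcomm : ∀ a b : R.comap p, a * b = b * a := by
    intro a b
    have h1 := hT.comm _ (hmem a) _ (hmem b)
    apply Subtype.ext
    apply Subtype.ext
    simp only [Subgroup.coe_mul]
    set a' := ((a : Subgroup.normalizer (Q : Set G)) : G)
    set b' := ((b : Subgroup.normalizer (Q : Set G)) : G)
    calc a' * b' = g * (g⁻¹ * a' * g * (g⁻¹ * b' * g)) * g⁻¹ := by group
      _ = g * (g⁻¹ * b' * g * (g⁻¹ * a' * g)) * g⁻¹ := by rw [h1]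
      _ = b' * a' := by group
  have E2 : V ≃* R.comap p :=
    (eqC g V).trans ((MulEquiv.subgroupCongr hg.symm).trans E1.symm)
  have hord : ∃ u : R.comap p, orderOf u = ℓ ^ n := by
    obtain ⟨u, hu, hu2⟩ := hT.gen
    refine ⟨E2 ⟨u, hu⟩, ?_⟩
    rw [MulEquiv.orderOf_eq, ← hu2]
    exact (Subgroup.orderOf_coe (⟨u, hu⟩ : V)).symm
  have hnc : ¬ IsCyclic (R.comap p) := by
    intro h
    exact hT.ncyc (isCyclic_of_surjective E2.symm.toMonoidHom E2.symm.surjective)
  obtain ⟨i, hi1, hin, hcR, ⟨a, ha⟩, hcommR, hker⟩ := tyq ℓ (R.comap p) R n (by omega) hcomm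
    (by rw [hcardV, hT.card]) hord hnc (p.subgroupComap R)
    (p.subgroupComap_surjective_of_surjective R hps) hc
  have hker2 : ∀ x : R.comap p, x ∈ (p.subgroupComap R).ker ↔
      ((x : Subgroup.normalizer (Q : Set G)) : G) ∈ Q := by
    intro x
    rw [← hpk2, MonoidHom.mem_ker, MonoidHom.mem_ker]
    constructor
    · intro h
      have := congrArg Subtype.val h
      exact this
    · intro h
      exact Subtype.ext h
  have hine : i ≠ n := by
    rintro rfl
    rw [hcR, hT.card] at hcardR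
    have h2 : Nat.card Q = 1 := by
      have h3 : 0 < ℓ ^ (i + 1) := pow_pos hpr.pos _
      exact Nat.eq_of_mul_eq_mul_right h3 (by rw [hcardR, one_mul])
    exact hQ1 (Subgroup.card_eq_one.1 h2)
  by_cases hi : 2 ≤ i
  · refine IH i hi (by omega) _ f hf R hR ⟨?_, hcR, ⟨a, a.2, ?_⟩, hc⟩
    · intro x hx y hy
      exact congrArg Subtype.val (hcommR ⟨x, hx⟩ ⟨y, hy⟩)
    · rw [Subgroup.orderOf_coe, ha]
  · have hi' : i = 1 := by omega
    subst hi'
    exfalso
    apply hcj
    refine ⟨g, ?_⟩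
    ext x
    rw [mem_conjS, hQ₁]
    constructor
    · intro hx
      have hxN : x ∈ Subgroup.normalizer (Q : Set G) := Subgroup.le_normalizer hx
      have hxk : (⟨x, hxN⟩ : Subgroup.normalizer (Q : Set G)) ∈ p.ker := (hpk2 _).2 hx
      have hxP : (⟨x, hxN⟩ : Subgroup.normalizer (Q : Set G)) ∈ R.comap p := by
        rw [Subgroup.mem_comap, (MonoidHom.mem_ker.1 hxk)]
        exact one_mem _
      obtain ⟨y, hy⟩ := (hker ⟨_, hxP⟩).1 ((hker2 _).2 hx)
      refine ⟨_, hmem y, ?_⟩
      have h1 := congrArg (fun z : R.comap p => ((z : Subgroup.normalizer (Q : Set G)) : G)) hy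
      simp only [Subgroup.coe_pow, pow_one] at h1
      have h2 := conj_pow (a := g⁻¹) (b := ((y : Subgroup.normalizer (Q : Set G)) : G)) (i := ℓ)
      rw [inv_inv] at h2
      rw [h2, h1]
    · rintro ⟨v, hv, hv2⟩
      obtain ⟨y, hy⟩ := hmem2 v hv
      have h1 := (hker2 (y ^ ℓ ^ 1)).1 ((hker _).2 ⟨y, rfl⟩)
      simp only [Subgroup.coe_pow, pow_one] at h1
      rw [hy, conj_pow, hv2] at h1
      have h2 : g * (g⁻¹ * x * g) * g⁻¹ = x := by group
      rwa [h2] at h1

end Pool.Agent.PP.C2.H27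
end
end -- Pool.Agent.Helper27_C2.YQZ

section -- Pool.Agent.Helper21_AT12.CYN

/-!
# Squad AT12, row CYN: blocks with cyclic defect groups
-/

open scoped BigOperators

noncomputable section

namespace Pool.Agent.PP.T12.H21

open Pool.Agent.Helper51_AWC Pool.Agent.Helper79_WRA Pool.Agent.PP Pool.Agent.PP.KF
open Pool.Agent.PP.K9 Pool.Agent.PP.C2

attribute [local instance] Ideal.Quotient.field

/-- the terms with `|Q| ≠ |V|` -/
theorem yq_zero (duv : DuvStmt) {ℓ : ℕ} [Fact ℓ.Prime] {M : Ideal (integralClosure ℤ ℂ)}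
    [M.IsMaximal] (hM : (ℓ : integralClosure ℤ ℂ) ∈ M) {G : Type} [Group G] [Finite G]
    {e : G → FF M} (he : IsBlk e) {V : Subgroup G} (hV : Tp ℓ e V) (hcy : IsCyclic V)
    {Q : Subgroup G} (hQp : IsPGroup ℓ Q) (hQV : Nat.card Q ≠ Nat.card V) : yq ℓ Q e = 0 := by
  have hpr : ℓ.Prime := Fact.out
  have hF : GoodF ℓ (FF M) := H50.fld ℓ hpr M hM
  have hcomm : ∀ a ∈ V, ∀ b ∈ V, a * b = b * a := by
    intro a ha b hb
    have h := (IsCyclic.isMulCommutative (α := V)).is_comm.comm ⟨a, ha⟩ ⟨b, hb⟩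
    exact congrArg Subtype.val h
  set p := QuotientGroup.mk' (Q.subgroupOf (Subgroup.normalizer (Q : Set G))) with hp
  have hps : Function.Surjective p := QuotientGroup.mk'_surjective _
  have hpk : p.ker = Q.subgroupOf (Subgroup.normalizer (Q : Set G)) := QuotientGroup.ker_mk' _
  have hid : IsIdem (fun t : Subgroup.normalizer (Q : Set G) => br Q e t) :=
    (H20.brm ℓ (FF M) hF G Q _ hQp (Subgroup.centralizer_le_normalizer _) le_rfl).2.2 e he.1
  have hid2 := H75.push_isIdem hps hid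
  refine H9.addStmt ℓ (FF M) hF _ ⊤ inferInstance _ hid2 fun f hf hef => ?_
  obtain ⟨R, hR, g, hg⟩ := duv ℓ M hM G e he V hV hcomm Q hQp _ p hps hpk f hf hef
  have E1 : R.comap p ≃* upm p R :=
    (R.comap p).equivMapOfInjective _ (Subgroup.subtype_injective _)
  have E2 : V ≃* R.comap p :=
    (C2.H27.eqC g V).trans ((MulEquiv.subgroupCongr hg.symm).trans E1.symm)
  have hcardV : Nat.card (R.comap p) = Nat.card V := (Nat.card_congr E2.toEquiv).symm
  have hcardQ : Nat.card p.ker = Nat.card Q := by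
    rw [hpk]
    exact Nat.card_congr (Subgroup.subgroupOfEquivOfLe Subgroup.le_normalizer).toEquiv
  have hcardR : Nat.card Q * Nat.card R = Nat.card V := by
    rw [← hcardQ, ← H75.card_comap hps R, hcardV]
  have hRne : R ≠ ⊥ := by
    rintro rfl
    rw [Subgroup.card_bot, mul_one] at hcardR
    exact hQV hcardR
  have hc1 : IsCyclic (R.comap p) := isCyclic_of_surjective E2.toMonoidHom E2.surjective
  have hc : IsCyclic R := isCyclic_of_surjective (p.subgroupComap R)
    (p.subgroupComap_surjective_of_surjective R hps)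
  exact C2.H27.yy_cyc hM hf hR hc hRne

/-- CYN -/
theorem cyn (hrec : RecStmt) (duv : DuvStmt) (yqv : YqvStmt) : T12.CynStmt := by
  classical
  intro ℓ hℓ M _ hM G _ _ e he V hV hVn hcy
  have hF : GoodF ℓ (FF M) := H50.fld ℓ hℓ.out M hM
  have hfin : Fintype (Subgroup G) := Fintype.ofFinite _
  have h0 := C2.H27.yy_cyc hM he hV hcy hVn
  rw [hrec ℓ (FF M) hF G e he.1, K9.H35.lnum_top, finsum_eq_sum_of_fintype] at h0
  simp only [finsum_eq_if] at h0
  rw [← Finset.sum_filter] at h0
  have hsub : Finset.univ.filter (fun W : Subgroup G => K9.H35.CJ V W) ⊆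
      Finset.univ.filter (fun Q : Subgroup G => IsPGroup ℓ Q ∧ Q ≠ ⊥) := by
    intro W hW
    obtain ⟨-, g, rfl⟩ := Finset.mem_filter.1 hW
    exact Finset.mem_filter.2 ⟨Finset.mem_univ _, hV.pg.map _, BN.H9.conjS_ne_bot hVn g⟩
  rw [← Finset.sum_subset hsub] at h0
  · have s2 := C2.H13.sum_conj V (fun Q => (Nat.card Q : ℤ) * yq ℓ Q e)
      (lb (fun t : Subgroup.normalizer (V : Set G) => br V e t) : ℤ) (by
        intro g
        rw [card_conjS, C2.H13.yq_conj ℓ he.1.1, yqv ℓ M hM G e he V hV V hV.pg rfl,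
          (K9.H75.lbr ℓ (FF M) hF G e he.1 V (Subgroup.normalizer (V : Set G)) hV.pg
            Subgroup.le_normalizer le_rfl).1]
        rfl)
    rw [s2] at h0
    have h1 : (Nat.card G : ℤ) * (lb e : ℤ) - (Nat.card G : ℤ) *
      (lb (fun t : Subgroup.normalizer (V : Set G) => br V e t) : ℤ) = 0 := h0
    have hG : (Nat.card G : ℤ) ≠ 0 := by
      have : 0 < Nat.card G := Nat.card_pos
      exact_mod_cast this.ne'
    have h6 : (Nat.card G : ℤ) * (lb e : ℤ) = (Nat.card G : ℤ) *
        (lb (fun t : Subgroup.normalizer (V : Set G) => br V e t) : ℤ) := sub_eq_zero.1 h1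
    exact_mod_cast mul_left_cancel₀ hG h6
  · intro W hW hW2
    obtain ⟨-, hWp, hWn⟩ := Finset.mem_filter.1 hW
    by_cases hc : Nat.card W = Nat.card V
    · rw [yqv ℓ M hM G e he V hV W hWp hc]
      have h3 : ¬ Gd e W := by
        intro hg
        obtain ⟨g, hg2⟩ := (K9.H69.fmg ℓ M hM G e he V hV).1 W hWp hg
        apply hW2
        refine Finset.mem_filter.2 ⟨Finset.mem_univ _, g, ?_⟩
        refine Subgroup.eq_of_le_of_card_ge hg2 ?_
        rw [card_conjS, hc]
      rw [(K9.H75.lbr ℓ (FF M) hF G e he.1 W (Subgroup.normalizer (W : Set G)) hWp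
        Subgroup.le_normalizer le_rfl).2 h3, Nat.cast_zero, mul_zero]
    · rw [yq_zero duv hM he hV hcy hWp hc, mul_zero]

end Pool.Agent.PP.T12.H21
end
end -- Pool.Agent.Helper21_AT12.CYN

section -- Pool.Agent.Helper39_PFD.Chr

/-! Squad PFD, row CHR: the alternating sum of a quotient. -/

set_option autoImplicit false
set_option linter.unusedSectionVars false

open scoped BigOperators

noncomputable section

namespace Pool.Agent.PFD.H39

open Pool.Agent.Helper51_AWC Pool.Agent.Helper79_WRA Pool.Agent.PP Pool.Agent.PP.KF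
open Pool.Agent.PP.K9 Pool.Agent.PP.K9.H97 Pool.Agent.PP.H75 Pool.Agent.PP.T3 Pool.Agent.PP.T2
open Pool.Agent.PP.T3.H41

attribute [local instance] Ideal.Quotient.field

/-- CHR -/
theorem chr (hRQA : RqaStmt) : ChrStmt := by
  classical
  intro ℓ hℓ M _ hM G _ _ e he V hV A _ _ p hp hkV hkne hY
  have hF : GoodF ℓ (FF M) := H50.fld ℓ hℓ.out M hM
  have hfin : Fintype (Subgroup G) := Fintype.ofFinite _
  have hfinA : Fintype (Subgroup A) := Fintype.ofFinite _
  have hkp : IsPGroup ℓ p.ker := hV.pg.to_le hkV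
  have hfmg := (K9.H69.fmg ℓ M hM G e he V hV).1
  have hf : IsIdem (push p e) := push_isIdem hp he.1
  rw [Pool.Agent.PP.T3.H28.rec_ ℓ (FF M) hF A (push p e) hf]
  have hkW : ∀ g : G, p.ker ≤ conjS g V := by
    intro g x hx
    rw [mem_conjS]
    apply hkV
    have := (inferInstance : p.ker.Normal).conj_mem x hx g⁻¹
    rwa [inv_inv] at this
  have hcardk : Nat.card p.ker < Nat.card V := by
    refine lt_of_le_of_ne (Subgroup.card_le_of_le hkV) fun h => hkne ?_
    exact Subgroup.eq_of_le_of_card_ge hkV h.ge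
  have hS : (Nat.card p.ker : ℤ) *
      (∑ᶠ (Q : Subgroup A) (_ : IsPGroup ℓ Q ∧ Q ≠ ⊥), (Nat.card Q : ℤ) * YQ ℓ (push p e) Q) =
      (Nat.card G : ℤ) * (lnum (Subgroup.normalizer (V : Set G)) e : ℤ) := by
    rw [finsum_eq_sum_of_fintype]
    simp only [finsum_eq_if]
    rw [← Finset.sum_filter, Finset.mul_sum]
    have h0 : ∀ Q ∈ Finset.univ.filter (fun Q : Subgroup A => IsPGroup ℓ Q ∧ Q ≠ ⊥),
        (Nat.card p.ker : ℤ) * ((Nat.card Q : ℤ) * YQ ℓ (push p e) Q) =
        (fun W : Subgroup G => (Nat.card W : ℤ) * YQ ℓ e W) (Q.comap p) := by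
      intro Q hQ
      obtain ⟨-, hQ1, -⟩ := Finset.mem_filter.1 hQ
      show _ = (Nat.card (Q.comap p) : ℤ) * YQ ℓ e (Q.comap p)
      rw [hRQA ℓ (FF M) hF G A p hp hkp e he.1 Q hQ1, card_comap hp Q]
      push_cast
      ring
    rw [Finset.sum_congr rfl h0,
      ← Finset.sum_image (f := fun W : Subgroup G => (Nat.card W : ℤ) * YQ ℓ e W)
        (g := fun Q : Subgroup A => Q.comap p)
        (fun Q _ Q' _ h => Subgroup.comap_injective hp h)]
    have h1 : Finset.univ.filter (fun W : Subgroup G => K9.H35.CJ V W) ⊆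
        (Finset.univ.filter (fun Q : Subgroup A => IsPGroup ℓ Q ∧ Q ≠ ⊥)).image
          (fun Q : Subgroup A => Q.comap p) := by
      intro W hW
      obtain ⟨-, g, rfl⟩ := Finset.mem_filter.1 hW
      refine Finset.mem_image.2 ⟨(conjS g V).map p, Finset.mem_filter.2 ⟨Finset.mem_univ _, ?_, ?_⟩,
        Subgroup.comap_map_eq_self (hkW g)⟩
      · exact (hV.pg.map _).map _
      · intro h
        have h2 : conjS g V ≤ p.ker := by
          intro x hx
          rw [MonoidHom.mem_ker]
          have h3 : p x ∈ (conjS g V).map p := ⟨x, hx, rfl⟩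
          rwa [h, Subgroup.mem_bot] at h3
        have h3 := Subgroup.card_le_of_le h2
        rw [card_conjS] at h3
        omega
    rw [← Finset.sum_subset h1]
    · have h2 : ∀ W ∈ Finset.univ.filter (fun W : Subgroup G => K9.H35.CJ V W),
          (Nat.card W : ℤ) * YQ ℓ e W =
          (Nat.card (Subgroup.normalizer (V : Set G)) : ℤ) *
            lnum (Subgroup.normalizer (V : Set G)) e := by
        intro W hW
        obtain ⟨-, g, rfl⟩ := Finset.mem_filter.1 hW
        rw [term_max hF he.1 (Q := conjS g V) (hV.pg.map _)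
          (fun R h3 h4 => (hV.mx R h3 h4).trans (card_conjS g V).ge)]
        rw [BN.H9.norm_conjS, card_conjS, K9.H35.lnum_conjS he.1.1]
      rw [Finset.sum_congr rfl h2, Finset.sum_const, nsmul_eq_mul, ← mul_assoc,
        ← K9.H35.card_conj V]
      push_cast
      ring
    · intro W hW hW2
      obtain ⟨Q, hQ, rfl⟩ := Finset.mem_image.1 hW
      obtain ⟨-, hQp, hQb⟩ := Finset.mem_filter.1 hQ
      have hWp : IsPGroup ℓ (Q.comap p) := (isPGroup_comap_iff hp hkp Q).2 hQp
      have hWk : p.ker ≤ Q.comap p := by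
        intro x hx
        rw [MonoidHom.mem_ker] at hx
        rw [Subgroup.mem_comap, hx]
        exact Q.one_mem
      have hWn : p.ker ≠ Q.comap p := by
        intro h
        apply hQb
        apply Subgroup.comap_injective hp
        rw [← h, MonoidHom.comap_bot]
      by_cases hg : Gd e (Q.comap p)
      · obtain ⟨g, hg2⟩ := hfmg (Q.comap p) hWp hg
        have h3 : Nat.card (Q.comap p) < Nat.card V := by
          refine lt_of_le_of_ne (hV.mx (Q.comap p) hWp hg) ?_
          intro h4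
          apply hW2
          refine Finset.mem_filter.2 ⟨Finset.mem_univ _, g, ?_⟩
          refine Subgroup.eq_of_le_of_card_ge hg2 ?_
          rw [card_conjS, h4]
        show (Nat.card (Q.comap p) : ℤ) * YQ ℓ e (Q.comap p) = 0
        rw [hY (Q.comap p) hWp hWk hWn hg h3, mul_zero]
      · have h3 : (fun t : Subgroup.normalizer ((Q.comap p : Subgroup G) : Set G) =>
            br (Q.comap p) e t) = 0 := by
          funext t
          by_cases ht : (t : G) ∈ Subgroup.centralizer ((Q.comap p : Subgroup G) : Set G)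
          · change br (Q.comap p) e t = 0
            rw [H66.br_of_mem ht]
            by_contra h4
            exact hg ⟨t, ht, h4⟩
          · exact H66.br_of_not_mem ht
        have h4 : YQ ℓ e (Q.comap p) = 0 := by
          unfold YQ
          rw [h3, PP.H75.push_zero, H67.YY_zero hF]
        show (Nat.card (Q.comap p) : ℤ) * YQ ℓ e (Q.comap p) = 0
        rw [h4, mul_zero]
  have hGA : (Nat.card G : ℤ) = (Nat.card p.ker : ℤ) * (Nat.card A : ℤ) := by
    have h := card_comap hp (⊤ : Subgroup A)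
    rw [Subgroup.comap_top, Subgroup.card_top, Subgroup.card_top] at h
    rw [h]
    push_cast
    ring
  have hk0 : (Nat.card p.ker : ℤ) ≠ 0 := by
    have : 0 < Nat.card p.ker := Nat.card_pos
    exact_mod_cast this.ne'
  have hS2 : (∑ᶠ (Q : Subgroup A) (_ : IsPGroup ℓ Q ∧ Q ≠ ⊥),
      (Nat.card Q : ℤ) * YQ ℓ (push p e) Q) =
      (Nat.card A : ℤ) * (lnum (Subgroup.normalizer (V : Set G)) e : ℤ) := by
    apply mul_left_cancel₀ hk0
    rw [hS, hGA, mul_assoc]
  have hln : lnum (⊤ : Subgroup A) (push p e) = ln e := by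
    rw [← lnum_comap H20.nls hF hp hkp, Subgroup.comap_top, K9.H35.lnum_top]
    rfl
  have h5 : lnum (Subgroup.normalizer (V : Set G)) e =
      ln (fun t : Subgroup.normalizer (V : Set G) => br V e t) := by
    rw [(K9.H75.lbr ℓ (FF M) hF G e he.1 V (Subgroup.normalizer (V : Set G))
      hV.pg Subgroup.le_normalizer le_rfl).1]
    rfl
  rw [hS2, hln, h5]
  ring

end Pool.Agent.PFD.H39
end
end -- Pool.Agent.Helper39_PFD.Chr
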