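import Pool.Agent.Helper12_AWB.B116
import Pool.Agent.Helper12_AWB.B173
import Pool.Agent.Helper12_AWB.B182
import Pool.Agent.Helper12_AWB.B253

/-!
# Merged copies (generated) of the modules

* `Pool.Agent.Helper25_AT8.TC8`
* `Pool.Agent.Helper37_AT8.FQT`
* `Pool.Agent.Helper82_C2.LBU`
* `Pool.Agent.Helper1_AT12.SYX`
* `Pool.Agent.Helper13_WAT.CLV`
* `Pool.Agent.Helper76_WAX.CLR`
-/

set_option autoImplicit false

section -- Pool.Agent.Helper25_AT8.TC8

/-!
# AT8, row TC8: the types are closed under quotients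
-/

open scoped BigOperators

set_option linter.unusedSectionVars false

noncomputable section

namespace Pool.Agent.PP.T8.H25

open Pool.Agent.Helper51_AWC Pool.Agent.Helper79_WRA Pool.Agent.PP Pool.Agent.PP.KF
open Pool.Agent.PP.K9 Pool.Agent.PP.K9.H97 Pool.Agent.PP.H75 Pool.Agent.PP.T3 Pool.Agent.PP.T2

attribute [local instance] Ideal.Quotient.field

section ind

variable {G A : Type} [Group G] [Group A] {V : Subgroup G} {V' : Subgroup A} (π : V →* V')

/-- `t` induces `t'` -/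
def Ind (t : G) (t' : A) : Prop := ∀ v w : V, (w : G) = t * v * t⁻¹ → (π w : A) = t' * π v * t'⁻¹

variable {π}

theorem Ind.mul {t s : G} {t' s' : A} (ht : Ind π t t') (hs : Ind π s s')
    (hn : s ∈ Subgroup.normalizer (V : Set G)) : Ind π (t * s) (t' * s') := by
  intro v w hw
  have h1 : s * v * s⁻¹ ∈ V := (Subgroup.mem_normalizer_iff.1 hn v).1 v.2
  have h2 := hs v ⟨s * v * s⁻¹, h1⟩ rfl
  have h3 := ht ⟨s * v * s⁻¹, h1⟩ w (by
    rw [hw]
    change t * s * v * (t * s)⁻¹ = t * (s * v * s⁻¹) * t⁻¹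
    group)
  rw [h3, h2]
  group

theorem Ind.inv {t : G} {t' : A} (ht : Ind π t t') : Ind π t⁻¹ t'⁻¹ := by
  intro v w hw
  have h1 := ht w v (by rw [hw]; group)
  rw [h1]
  group

theorem Ind.cent {t : G} {t' : A} (ht : Ind π t t') (hπ : Function.Surjective π)
    (hc : t ∈ Subgroup.centralizer (V : Set G)) : t' ∈ Subgroup.centralizer (V' : Set A) := by
  rw [Subgroup.mem_centralizer_iff]
  intro v' hv'
  obtain ⟨v, hv⟩ := hπ ⟨v', hv'⟩
  have h1 := ht v v (by
    rw [← Subgroup.mem_centralizer_iff.1 hc v v.2, mul_inv_cancel_right])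
  rw [hv] at h1
  change v' = t' * v' * t'⁻¹ at h1
  conv_lhs => rw [h1]
  group

/-- the norm element -/
def nrm (φ : V →* V) (v : V) : ℕ → V
  | 0 => 1
  | i + 1 => nrm φ v i * φ^[i] v

theorem nrm_fix (hab : ∀ a b : V, a * b = b * a) (φ : V →* V) (v : V) (i : ℕ) :
    φ (nrm φ v i) * v = nrm φ v i * φ^[i] v := by
  induction i with
  | zero => rw [nrm, map_one]; rfl
  | succ i ih =>
    rw [nrm, map_mul, ← Function.iterate_succ_apply' (⇑φ) i v, mul_assoc, hab _ v, ← mul_assoc, ih]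

theorem nrm_map {t' : A} (φ : V →* V) (hφ : ∀ x, (π (φ x) : A) = t' * π x * t'⁻¹) (v : V)
    (hc : t' * (π v : A) = π v * t') (i : ℕ) : π (nrm φ v i) = π v ^ i := by
  have h1 : ∀ j, π (φ^[j] v) = π v := by
    intro j
    induction j with
    | zero => rfl
    | succ j ih =>
      rw [Function.iterate_succ_apply']
      apply Subtype.ext
      rw [hφ, ih, hc, mul_inv_cancel_right]
  induction i with
  | zero => rw [nrm, map_one, pow_zero]
  | succ i ih => rw [nrm, map_mul, ih, h1, pow_succ]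

end ind

/-- the index of the powers of a quotient -/
theorem card_quo {G A : Type} [Group G] [Finite G] [Group A] [Finite A] {V : Subgroup G}
    {V' : Subgroup A} (hab : ∀ a ∈ V, ∀ b ∈ V, a * b = b * a)
    (hab' : ∀ a ∈ V', ∀ b ∈ V', a * b = b * a) (π : V →* V') (hπ : Function.Surjective π)
    (n C : ℕ) (h : Nat.card V ≤ C * Nat.card (Uw n V)) :
    Nat.card V' ≤ C * Nat.card (Uw n V') := by
  obtain ⟨p1, p2, -⟩ := T2.H32.pwu G n V hab
  obtain ⟨q1, q2, -⟩ := T2.H32.pwu A n V' hab'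
  obtain ⟨W, hW⟩ : ∃ W : Subgroup V, W = (Uw n V).subgroupOf V := ⟨_, rfl⟩
  have h1 : Nat.card W = Nat.card (Uw n V) := by
    rw [hW]
    exact Nat.card_congr (Subgroup.subgroupOfEquivOfLe p2).toEquiv
  have h2 : Nat.card ((Uw n V').subgroupOf V') = Nat.card (Uw n V') :=
    Nat.card_congr (Subgroup.subgroupOfEquivOfLe q2).toEquiv
  have h3 : W.map π ≤ (Uw n V').subgroupOf V' := by
    rintro _ ⟨w, hw, rfl⟩
    rw [hW] at hw
    obtain ⟨v, hv, hvw⟩ := (p1 _).1 (Subgroup.mem_subgroupOf.1 hw)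
    rw [Subgroup.mem_subgroupOf, q1]
    refine ⟨π ⟨v, hv⟩, (π ⟨v, hv⟩).2, ?_⟩
    have h4 : w = (⟨v, hv⟩ : V) ^ n := Subtype.ext hvw
    rw [h4, map_pow]
    rfl
  have h4 : Nat.card (W.map π) ≤ Nat.card (Uw n V') := by
    rw [← h2]
    exact Subgroup.card_le_of_le h3
  have h5 : (W.map π).index ≤ W.index :=
    Nat.le_of_dvd (Nat.pos_of_ne_zero Subgroup.index_ne_zero_of_finite) (W.index_map_dvd hπ)
  have h6 : W.index ≤ C := by
    have h7 := W.index_mul_card
    rw [← h7, ← h1] at h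
    exact Nat.le_of_mul_le_mul_right h Nat.card_pos
  calc Nat.card V' = (W.map π).index * Nat.card (W.map π) := ((W.map π).index_mul_card).symm
    _ ≤ C * Nat.card (Uw n V') := Nat.mul_le_mul (h5.trans h6) h4

section fq

variable {F F' G A : Type} [Field F] [Field F'] [Group G] [Finite G] [Group A] [Finite A]
  {V : Subgroup G} {γ : G → F} {V' : Subgroup A} {γ' : A → F'}

theorem cent_normal (V : Subgroup G) (T : Subgroup G)
    (hT : T ≤ Subgroup.normalizer (V : Set G)) :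
    ((Subgroup.centralizer (V : Set G)).subgroupOf T).Normal := by
  constructor
  intro c hc t
  rw [Subgroup.mem_subgroupOf, Subgroup.mem_centralizer_iff] at hc ⊢
  intro v hv
  have h1 : (t : G)⁻¹ * v * t ∈ V :=
    (Subgroup.mem_normalizer_iff''.1 (hT t.2) v).1 hv
  have h2 := hc _ h1
  change v * ((t : G) * c * (t : G)⁻¹) = (t : G) * c * (t : G)⁻¹ * v
  calc v * ((t : G) * c * (t : G)⁻¹) = t * ((t : G)⁻¹ * v * t * c) * (t : G)⁻¹ := by group
    _ = t * (c * ((t : G)⁻¹ * v * t)) * (t : G)⁻¹ := by rw [h2]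
    _ = (t : G) * c * (t : G)⁻¹ * v := by group

theorem pow_ix {t : G} (ht : t ∈ Tg V γ) : t ^ ix V γ ∈ Subgroup.centralizer (V : Set G) := by
  have := cent_normal V (Tg V γ) inf_le_left
  have h1 := Subgroup.pow_index_mem ((Subgroup.centralizer (V : Set G)).subgroupOf (Tg V γ))
    (⟨t, ht⟩ : Tg V γ)
  exact Subgroup.mem_subgroupOf.1 h1

/-- the index of a quotient -/
theorem ix_le (h : Fq V γ V' γ') : ix V' γ' ≤ ix V γ := by
  obtain ⟨π, hπ, hq⟩ := h
  have hch : ∀ t' : Tg V' γ', ∃ t : Tg V γ, Ind π (t : G) (t' : A) := fun t' => by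
    obtain ⟨t, ht, h1⟩ := hq t' t'.2
    exact ⟨⟨t, ht⟩, h1⟩
  choose F hF using hch
  unfold ix Subgroup.relIndex Subgroup.index
  refine Nat.card_le_card_of_injective
    (fun c : Tg V' γ' ⧸ (Subgroup.centralizer (V' : Set A)).subgroupOf (Tg V' γ') =>
      (QuotientGroup.mk (F c.out) :
        Tg V γ ⧸ (Subgroup.centralizer (V : Set G)).subgroupOf (Tg V γ))) ?_
  intro c d hcd
  have h1 := QuotientGroup.eq.1 hcd
  rw [Subgroup.mem_subgroupOf] at h1
  have h2 := ((hF c.out).inv.mul (hF d.out) (F d.out).2.1).cent hπ h1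
  rw [← c.out_eq', ← d.out_eq']
  exact QuotientGroup.eq.2 (Subgroup.mem_subgroupOf.2 h2)

theorem fr_quo {ℓ : ℕ} [Fact ℓ.Prime] (hab : ∀ a ∈ V, ∀ b ∈ V, a * b = b * a)
    (hp' : IsPGroup ℓ V') (hix : ¬ ℓ ∣ ix V γ) (h : Fq V γ V' γ') (hfr : Fr V γ) : Fr V' γ' := by
  obtain ⟨π, hπ, hq⟩ := h
  intro t' ht' v' hv' hv1 hc
  obtain ⟨t, ht, hi⟩ := hq t' ht'
  change Ind π t t' at hi
  obtain ⟨v, hv⟩ := hπ ⟨v', hv'⟩
  have hN : ∀ x : V, t * x * t⁻¹ ∈ V := fun x => (Subgroup.mem_normalizer_iff.1 ht.1 x).1 x.2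
  have habV : ∀ a b : V, a * b = b * a := fun a b => Subtype.ext (hab _ a.2 _ b.2)
  obtain ⟨φ, hφ⟩ : ∃ φ : V →* V, ∀ x : V, (φ x : G) = t * x * t⁻¹ :=
    ⟨{ toFun := fun x => ⟨t * x * t⁻¹, hN x⟩
       map_one' := Subtype.ext (by change t * 1 * t⁻¹ = 1; group)
       map_mul' := fun x y => Subtype.ext (by
        change t * (x * y) * t⁻¹ = t * x * t⁻¹ * (t * y * t⁻¹); group) }, fun x => rfl⟩
  have hit : ∀ (j : ℕ) (x : V), ((φ^[j] x : V) : G) = t ^ j * x * (t ^ j)⁻¹ := by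
    intro j
    induction j with
    | zero => intro x; rw [pow_zero]; change (x : G) = 1 * x * 1⁻¹; group
    | succ j ih =>
      intro x
      rw [Function.iterate_succ_apply', hφ, ih, pow_succ']
      group
  have hm : φ^[ix V γ] v = v := by
    apply Subtype.ext
    rw [hit, ← Subgroup.mem_centralizer_iff.1 (pow_ix ht) v v.2, mul_inv_cancel_right]
  have h1 := nrm_fix habV φ v (ix V γ)
  rw [hm] at h1
  have h2 : φ (nrm φ v (ix V γ)) = nrm φ v (ix V γ) := mul_right_cancel h1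
  have h3 : π (nrm φ v (ix V γ)) = π v ^ ix V γ :=
    nrm_map (t' := t') φ (fun x => hi x (φ x) (hφ x)) v (by rw [hv]; exact hc) _
  have h4 : π v ^ ix V γ ≠ 1 := by
    intro h5
    have hcop : ℓ.Coprime (ix V γ) := (Nat.Prime.coprime_iff_not_dvd Fact.out).2 hix
    have h6 : (hp'.powEquiv hcop) (π v) = (hp'.powEquiv hcop) 1 := by
      rw [IsPGroup.powEquiv_apply, IsPGroup.powEquiv_apply, h5, one_pow]
    have h7 := (hp'.powEquiv hcop).injective h6
    rw [hv] at h7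
    exact hv1 (congrArg Subtype.val h7)
  have h5 : ((nrm φ v (ix V γ) : V) : G) ≠ 1 := by
    intro h6
    have h7 : nrm φ v (ix V γ) = 1 := Subtype.ext h6
    rw [h7, map_one] at h3
    exact h4 h3.symm
  have h6 := hfr t ht _ (nrm φ v (ix V γ)).2 h5 (by
    have h7 := hφ (nrm φ v (ix V γ))
    rw [h2] at h7
    conv_rhs => rw [h7]
    group)
  exact hi.cent hπ h6

theorem ei_quo {ℓ : ℕ} [Fact ℓ.Prime] (hab : ∀ a ∈ V, ∀ b ∈ V, a * b = b * a)
    (hp' : IsPGroup ℓ V') (hix : ¬ ℓ ∣ ix V γ) (h : Fq V γ V' γ') (he : Ei ℓ V γ) :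
    Ei ℓ V' γ' := by
  rcases he with he | he | he
  · left
    obtain ⟨π, hπ, hq⟩ := h
    intro s' hs' t' ht'
    obtain ⟨s, hs, his⟩ := hq s' hs'
    obtain ⟨t, ht, hit⟩ := hq t' ht'
    change Ind π s s' at his
    change Ind π t t' at hit
    have hsi := (Tg V γ).inv_mem hs
    have hti := (Tg V γ).inv_mem ht
    exact (((his.mul hit ht.1).mul his.inv hsi.1).mul hit.inv hti.1).cent hπ (he s hs t ht)
  · exact Or.inr (Or.inl (lt_of_le_of_lt (ix_le h) he))
  · exact Or.inr (Or.inr (fr_quo hab hp' hix h he))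

end fq

theorem tc8 : Tc8Stmt := by
  intro ℓ _ F _ hF G A _ _ _ _ e V γ f V' γ' hL hL' hix a hty hexp hfq
  have hab := hL.ab
  have hab' := hL'.ab
  have hp' : IsPGroup ℓ V' := hL'.tp.pg
  obtain ⟨π, hπ, -⟩ := id hfq
  rcases hty with ⟨k, hk⟩ | hb | hf
  · refine Or.inl ⟨k, hk.pos, hk.le, hexp, ?_, ?_, ei_quo hab hp' hix hfq hk.ei⟩
    · rcases hk.hk with h | h | h
      · exact Or.inl (card_quo hab hab' π hπ _ _ h)
      · exact Or.inr (Or.inl (lt_of_le_of_lt (ix_le hfq) h))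
      · exact Or.inr (Or.inr ⟨lt_of_le_of_lt (ix_le hfq) h.1, fr_quo hab hp' hix hfq h.2⟩)
    · exact card_quo hab hab' π hπ _ _ hk.sz
  · refine Or.inr (Or.inl ⟨hb.le, hexp, ?_⟩)
    obtain ⟨x, y, hxy⟩ := hb.gen
    have hx : x ∈ V := by rw [hxy]; exact Subgroup.subset_closure (Or.inl rfl)
    have hy : y ∈ V := by rw [hxy]; exact Subgroup.subset_closure (Or.inr rfl)
    refine ⟨π ⟨x, hx⟩, π ⟨y, hy⟩, ?_⟩
    have h1 : Subgroup.closure {(⟨x, hx⟩ : V), ⟨y, hy⟩} = ⊤ := by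
      apply Subgroup.map_injective V.subtype_injective
      rw [MonoidHom.map_closure, Set.image_pair]
      change Subgroup.closure {x, y} = Subgroup.map V.subtype ⊤
      rw [← hxy, ← MonoidHom.range_eq_map, Subgroup.range_subtype]
    have h2 : Subgroup.closure {π ⟨x, hx⟩, π ⟨y, hy⟩} = ⊤ := by
      have h3 := congrArg (Subgroup.map π) h1
      rw [MonoidHom.map_closure, Set.image_pair, Subgroup.map_top_of_surjective π hπ] at h3
      exact h3
    have h3 := congrArg (Subgroup.map V'.subtype) h2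
    rw [MonoidHom.map_closure, Set.image_pair, ← MonoidHom.range_eq_map,
      Subgroup.range_subtype] at h3
    exact h3.symm
  · exact Or.inr (Or.inr ⟨hf.pos, hexp, fr_quo hab hp' hix hfq hf.fr, (ix_le hfq).trans hf.ix⟩)

end Pool.Agent.PP.T8.H25
end
end -- Pool.Agent.Helper25_AT8.TC8

section -- Pool.Agent.Helper37_AT8.FQT

/-!
# Squad AT8, row FQT: properties of `Fq`
-/

open scoped BigOperators

noncomputable section

namespace Pool.Agent.PP.T8.H37

open Pool.Agent.Helper51_AWC Pool.Agent.Helper79_WRA Pool.Agent.PP Pool.Agent.PP.KF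
open Pool.Agent.PP.K9 Pool.Agent.PP.K9.H97 Pool.Agent.PP.H75 Pool.Agent.PP.T3 Pool.Agent.PP.T2

attribute [local instance] Ideal.Quotient.field

theorem fq_trans {F F' F'' G A B : Type} [Group G] [Group A] [Group B] {V : Subgroup G}
    {γ : G → F} {V' : Subgroup A} {γ' : A → F'} {V'' : Subgroup B} {γ'' : B → F''}
    (h1 : Fq V γ V' γ') (h2 : Fq V' γ' V'' γ'') : Fq V γ V'' γ'' := by
  obtain ⟨π1, hs1, ht1⟩ := h1
  obtain ⟨π2, hs2, ht2⟩ := h2
  refine ⟨π2.comp π1, hs2.comp hs1, fun t'' ht'' => ?_⟩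
  obtain ⟨t', ht', h'⟩ := ht2 t'' ht''
  obtain ⟨t, ht, h⟩ := ht1 t' ht'
  exact ⟨t, ht, fun v w hvw => h' (π1 v) (π1 w) (h v w hvw)⟩

theorem fq_conj {F G : Type} [Field F] [Group G] (V : Subgroup G) (γ : G → F) (g : G) :
    Fq V γ (conjS g V) (cj g γ) := by
  have hp : ∀ v : V, ((conjSEquiv g V v : conjS g V) : G) = g * v * g⁻¹ := fun v => rfl
  refine ⟨(conjSEquiv g V).toMonoidHom, (conjSEquiv g V).surjective, fun t' ht' => ?_⟩
  rw [T3.H62.tg_conjS, T3.H62.mem_conjS] at ht'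
  refine ⟨g⁻¹ * t' * g, ht', fun v w hvw => ?_⟩
  change ((conjSEquiv g V w : conjS g V) : G) = t' * ((conjSEquiv g V v : conjS g V) : G) * t'⁻¹
  rw [hp, hp, hvw]
  group

theorem fq_norm {F G : Type} [Field F] [Group G] [Finite G] {V U : Subgroup G} {γ : G → F}
    (hg : ∀ x, x ∉ Subgroup.centralizer (V : Set G) → γ x = 0)
    (hle : Subgroup.normalizer (V : Set G) ≤ Subgroup.normalizer (U : Set G)) :
    Fq V γ (V.subgroupOf (Subgroup.normalizer (U : Set G)))
      (fun t : Subgroup.normalizer (U : Set G) => γ t) := by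
  have hV : V ≤ Subgroup.normalizer (U : Set G) := Subgroup.le_normalizer.trans hle
  refine ⟨(Subgroup.subgroupOfEquivOfLe hV).symm.toMonoidHom,
    (Subgroup.subgroupOfEquivOfLe hV).symm.surjective, fun t' ht' => ?_⟩
  have hc : ∀ v : V, ((((Subgroup.subgroupOfEquivOfLe hV).symm v :
      V.subgroupOf (Subgroup.normalizer (U : Set G))) : Subgroup.normalizer (U : Set G)) : G) = v :=
    fun v => rfl
  obtain ⟨h1, h2⟩ := Subgroup.mem_inf.1 ht'
  have hn : (t' : G) ∈ Subgroup.normalizer (V : Set G) := by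
    rw [Subgroup.mem_normalizer_iff]
    rw [Subgroup.mem_normalizer_iff] at h1
    intro x
    constructor
    · intro hx
      exact (h1 ⟨x, hV hx⟩).1 hx
    · intro hx
      have hx' : x ∈ Subgroup.normalizer (U : Set G) := by
        have h3 := hV hx
        have h4 := mul_mem (mul_mem (inv_mem t'.2) h3) t'.2
        have e : (t' : G)⁻¹ * (t' * x * (t' : G)⁻¹) * t' = x := by group
        rwa [e] at h4
      exact (h1 ⟨x, hx'⟩).2 hx
  have hs : (t' : G) ∈ stabF γ := by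
    intro x
    by_cases hx : x ∈ Subgroup.centralizer (V : Set G)
    · have hxN : x ∈ Subgroup.normalizer (U : Set G) :=
        hle (Subgroup.centralizer_le_normalizer _ hx)
      exact h2 ⟨x, hxN⟩
    · rw [hg x hx]
      apply hg
      intro h3
      apply hx
      rw [Subgroup.mem_centralizer_iff] at h3 ⊢
      intro v hv
      have h4 : (t' : G) * v * (t' : G)⁻¹ ∈ V := (Subgroup.mem_normalizer_iff.1 hn v).1 hv
      have h5 := h3 _ h4
      have h6 : (t' : G)⁻¹ * ((t' : G) * v * (t' : G)⁻¹ * (t' * x * (t' : G)⁻¹)) * t' =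
        (t' : G)⁻¹ * ((t' * x * (t' : G)⁻¹) * ((t' : G) * v * (t' : G)⁻¹)) * t' := by rw [h5]
      have e1 : (t' : G)⁻¹ * ((t' : G) * v * (t' : G)⁻¹ * (t' * x * (t' : G)⁻¹)) * t' = v * x := by
        group
      have e2 : (t' : G)⁻¹ * ((t' * x * (t' : G)⁻¹) * ((t' : G) * v * (t' : G)⁻¹)) * t' = x * v := by
        group
      rwa [e1, e2] at h6
  refine ⟨t', Subgroup.mem_inf.2 ⟨hn, hs⟩, fun v w hvw => ?_⟩
  apply Subtype.ext
  change ((((Subgroup.subgroupOfEquivOfLe hV).symm w :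
      V.subgroupOf (Subgroup.normalizer (U : Set G))) : Subgroup.normalizer (U : Set G)) : G) =
    t' * ((((Subgroup.subgroupOfEquivOfLe hV).symm v :
      V.subgroupOf (Subgroup.normalizer (U : Set G))) : Subgroup.normalizer (U : Set G)) : G) *
      (t' : G)⁻¹
  rw [hc, hc, hvw]

theorem fq_quot {F F' G A : Type} [Group G] [Group A] {V Q : Subgroup G} {γ : G → F}
    (hab : ∀ a ∈ V, ∀ b ∈ V, a * b = b * a) (hQ : Q ≤ V)
    (p : Subgroup.normalizer (Q : Set G) →* A) (γ' : A → F')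
    (h : Fe V Q γ p ((V.subgroupOf (Subgroup.normalizer (Q : Set G))).map p) γ') :
    Fq V γ ((V.subgroupOf (Subgroup.normalizer (Q : Set G))).map p) γ' := by
  obtain ⟨n, hn, ht⟩ := h
  have hV : V ≤ Subgroup.normalizer (Q : Set G) := by
    intro v hv
    rw [Subgroup.mem_normalizer_iff]
    intro x
    constructor
    · intro hx
      have e : v * x * v⁻¹ = x := by rw [hab v hv x (hQ hx)]; group
      rwa [e]
    · intro hx
      have e : v⁻¹ * (v * x * v⁻¹) * v = v * x * v⁻¹ := by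
        rw [hab v⁻¹ (inv_mem hv) _ (hQ hx)]; group
      have e2 : v⁻¹ * (v * x * v⁻¹) * v = x := by group
      rw [← e2, e]
      exact hx
  have hc : ∀ v ∈ V, n * v * n⁻¹ ∈ V := fun v hv => (Subgroup.mem_normalizer_iff.1 hn v).1 hv
  have hci : ∀ v ∈ V, n⁻¹ * v * n ∈ V := by
    intro v hv
    have := (Subgroup.mem_normalizer_iff.1 (inv_mem hn) v).1 hv
    rwa [inv_inv] at this
  let f : V →* Subgroup.normalizer (Q : Set G) :=
    { toFun := fun v => ⟨n * v * n⁻¹, hV (hc v v.2)⟩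
      map_one' := by
        apply Subtype.ext
        change n * 1 * n⁻¹ = 1
        group
      map_mul' := by
        intro a b
        apply Subtype.ext
        change n * ((a : G) * b) * n⁻¹ = n * a * n⁻¹ * (n * b * n⁻¹)
        group }
  have hf : ∀ v : V, ((f v : Subgroup.normalizer (Q : Set G)) : G) = n * v * n⁻¹ := fun v => rfl
  have hm : ∀ v : V, p (f v) ∈ (V.subgroupOf (Subgroup.normalizer (Q : Set G))).map p :=
    fun v => Subgroup.mem_map_of_mem p (hc v v.2)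
  refine ⟨(p.comp f).codRestrict _ hm, ?_, fun t' ht' => ?_⟩
  · rintro ⟨a, ha⟩
    obtain ⟨z, hz, rfl⟩ := ha
    refine ⟨⟨n⁻¹ * z * n, hci z hz⟩, ?_⟩
    apply Subtype.ext
    change p (f ⟨n⁻¹ * z * n, hci z hz⟩) = p z
    congr 1
    apply Subtype.ext
    rw [hf]
    change n * (n⁻¹ * z * n) * n⁻¹ = z
    group
  · obtain ⟨t, ht1, ht2⟩ := ht t' ht'
    refine ⟨t, ht1, fun v w hvw => ?_⟩
    change p (f w) = t' * p (f v) * t'⁻¹
    refine ht2 v v.2 (f v) (f w) (hf v) ?_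
    rw [hf, hvw]

theorem fqt : FqtStmt := by
  intro ℓ _ F _ hF G _ _ e V γ h
  refine ⟨fun A B _ _ V' γ' V'' γ'' h1 h2 => fq_trans h1 h2, fq_conj V γ,
    fun U f hf => fq_norm h.gam.supp hf.nle, fun Q hQ A _ p γ' hFe => fq_quot h.ab hQ p γ' hFe⟩

end Pool.Agent.PP.T8.H37
end
end -- Pool.Agent.Helper37_AT8.FQT

section -- Pool.Agent.Helper82_C2.LBU

/-!
# Squad C2, row LBU: lower bound for the block of `C(u)`
-/

open scoped BigOperators

set_option linter.unusedSectionVars false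

noncomputable section

namespace Pool.Agent.PP.C2.H82

open Pool.Agent.Helper51_AWC Pool.Agent.Helper79_WRA Pool.Agent.PP Pool.Agent.PP.KF
open Pool.Agent.PP.K9

attribute [local instance] Ideal.Quotient.field

section grp

variable {G : Type} [Group G] [Finite G]

theorem zpowers_normal {z : G} (hz : z ∈ Subgroup.center G) : (Subgroup.zpowers z).Normal := by
  constructor
  intro q hq g
  have h1 : q ∈ Subgroup.center G := (Subgroup.zpowers_le.2 hz) hq
  have h2 : g * q * g⁻¹ = q := by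
    rw [Subgroup.mem_center_iff.1 h1 g, mul_inv_cancel_right]
  rw [h2]
  exact hq

/-- an element which centralises `V / ⟨z⟩` and `⟨z⟩` -/
theorem pow_cent {z : G} (hz : z ∈ Subgroup.center G) {V : Subgroup G} {s : G}
    (hs : ∀ v ∈ V, s * v * s⁻¹ * v⁻¹ ∈ Subgroup.zpowers z) :
    s ^ orderOf z ∈ Subgroup.centralizer (V : Set G) := by
  rw [Subgroup.mem_centralizer_iff]
  intro v hv
  obtain ⟨q, hq⟩ : ∃ q : G, q = s * v * s⁻¹ * v⁻¹ := ⟨_, rfl⟩
  have hq1 : q ∈ Subgroup.zpowers z := by rw [hq]; exact hs v hv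
  have hq2 : q ∈ Subgroup.center G := (Subgroup.zpowers_le.2 hz) hq1
  have hsv : s * v = q * v * s := by rw [hq]; group
  have hj : ∀ j : ℕ, s ^ j * v = q ^ j * v * s ^ j := by
    intro j
    induction j with
    | zero => simp
    | succ j ih =>
      have e1 : s * q ^ j = q ^ j * s :=
        Subgroup.mem_center_iff.1 (pow_mem hq2 j) s
      calc s ^ (j + 1) * v = s * (s ^ j * v) := by rw [pow_succ']; group
        _ = s * q ^ j * v * s ^ j := by rw [ih]; group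
        _ = q ^ j * (s * v) * s ^ j := by rw [e1]; group
        _ = q ^ j * (q * v * s) * s ^ j := by rw [hsv]
        _ = q ^ (j + 1) * v * s ^ (j + 1) := by rw [pow_succ, pow_succ']; group
  have h1 : q ^ orderOf z = 1 := by
    obtain ⟨i, rfl⟩ := Subgroup.mem_zpowers_iff.1 hq1
    rw [← zpow_natCast, ← zpow_mul, mul_comm, zpow_mul, zpow_natCast, pow_orderOf_eq_one,
      one_zpow]
  rw [hj, h1, one_mul]

theorem cyc_act {ℓ : ℕ} [Fact ℓ.Prime] {z : G} (hz : z ∈ Subgroup.center G) {V T : Subgroup G}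
    (hzV : z ∈ V) (hcard : Nat.card V = ℓ * orderOf z) (hpow : IsPGroup ℓ V)
    (hTV : T ≤ Subgroup.normalizer (V : Set G))
    (hidx : ¬ ℓ ∣ (Subgroup.centralizer (V : Set G)).relIndex T) :
    ∃ t₀ ∈ T, ∀ t ∈ T, ∃ k : ℕ, t₀ ^ k * t ∈ Subgroup.centralizer (V : Set G) := by
  have hpr : ℓ.Prime := Fact.out
  have := zpowers_normal hz
  obtain ⟨p, hp⟩ : ∃ p : G →* G ⧸ Subgroup.zpowers z, p = QuotientGroup.mk' _ := ⟨_, rfl⟩
  have hps : Function.Surjective p := by rw [hp]; exact QuotientGroup.mk'_surjective _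
  have hpk : p.ker = Subgroup.zpowers z := by rw [hp]; exact QuotientGroup.ker_mk' _
  have hQV : Subgroup.zpowers z ≤ V := Subgroup.zpowers_le.2 hzV
  have hVc : (V.map p).comap p = V := Subgroup.comap_map_eq_self (by rw [hpk]; exact hQV)
  have hV' : Nat.card (V.map p) = ℓ := by
    have h1 := PP.H75.card_comap hps (V.map p)
    rw [hVc, hcard, hpk, Nat.card_zpowers, mul_comm ℓ] at h1
    exact (Nat.eq_of_mul_eq_mul_left (orderOf_pos z) h1).symm
  have hV'p : (Nat.card (V.map p)).Prime := by rw [hV']; exact hpr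
  have : Fact (Nat.card (V.map p)).Prime := ⟨hV'p⟩
  have hcy : IsCyclic (V.map p) := isCyclic_of_prime_card (p := Nat.card (V.map p)) rfl
  have hcm : IsCyclic (MulAut (V.map p)) :=
    isCyclic_of_surjective (IsCyclic.mulAutMulEquiv (V.map p)).symm
      (IsCyclic.mulAutMulEquiv (V.map p)).symm.surjective
  have hmem : ∀ t ∈ T, p t ∈ Subgroup.normalizer ((V.map p : Subgroup _) : Set _) := by
    intro t ht
    rw [← PP.H75.normalizer_comap hps, hVc]
    exact hTV ht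
  let f : T →* Subgroup.normalizer ((V.map p : Subgroup _) : Set _) :=
    (p.comp T.subtype).codRestrict _ (fun t => hmem t t.2)
  let φ : T →* MulAut (V.map p) := (V.map p).normalizerMonoidHom.comp f
  have hker : ∀ s : T, φ s = 1 → (s : G) ∈ Subgroup.centralizer (V : Set G) := by
    intro s hs
    have h1 : f s ∈ (V.map p).normalizerMonoidHom.ker := hs
    rw [Subgroup.normalizerMonoidHom_ker, Subgroup.mem_subgroupOf] at h1
    have h2 : p (s : G) ∈ Subgroup.centralizer ((V.map p : Subgroup _) : Set _) := h1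
    have h3 : ∀ v ∈ V, (s : G) * v * (s : G)⁻¹ * v⁻¹ ∈ Subgroup.zpowers z := by
      intro v hv
      rw [← hpk, MonoidHom.mem_ker, map_mul, map_mul, map_mul, map_inv, map_inv,
        ← Subgroup.mem_centralizer_iff.1 h2 (p v) ⟨v, hv, rfl⟩]
      group
    have h4 := pow_cent hz h3
    -- the power given by the index
    have hn : ((Subgroup.centralizer (V : Set G)).subgroupOf T).Normal := by
      constructor
      intro c hc t
      rw [Subgroup.mem_subgroupOf] at hc ⊢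
      rw [Subgroup.mem_centralizer_iff] at hc ⊢
      intro v hv
      have h5 : (t : G)⁻¹ * v * (t : G) ∈ V := by
        have := (Subgroup.mem_normalizer_iff.1 (inv_mem (hTV t.2)) v).1 hv
        rwa [inv_inv] at this
      have h6 := hc _ h5
      change v * ((t : G) * c * (t : G)⁻¹) = (t : G) * c * (t : G)⁻¹ * v
      calc v * ((t : G) * c * (t : G)⁻¹) = (t : G) * ((t : G)⁻¹ * v * t * c) * (t : G)⁻¹ := by
            group
        _ = (t : G) * (c * ((t : G)⁻¹ * v * t)) * (t : G)⁻¹ := by rw [h6]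
        _ = (t : G) * c * (t : G)⁻¹ * v := by group
    have h5 : (s : G) ^ (Subgroup.centralizer (V : Set G)).relIndex T ∈
        Subgroup.centralizer (V : Set G) :=
      Subgroup.pow_index_mem ((Subgroup.centralizer (V : Set G)).subgroupOf T) s
    obtain ⟨a, ha⟩ : ∃ a, orderOf z = ℓ ^ a := by
      obtain ⟨a, ha⟩ := IsPGroup.iff_orderOf.1 hpow ⟨z, hzV⟩
      exact ⟨a, by rw [← ha, Subgroup.orderOf_mk]⟩
    have hco : Nat.Coprime (orderOf z) ((Subgroup.centralizer (V : Set G)).relIndex T) := by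
      rw [ha]
      exact Nat.Coprime.pow_left a ((Nat.Prime.coprime_iff_not_dvd hpr).2 hidx)
    have h6 := Nat.gcd_eq_gcd_ab (orderOf z) ((Subgroup.centralizer (V : Set G)).relIndex T)
    rw [hco.gcd_eq_one] at h6
    have h7 : (s : G) = ((s : G) ^ orderOf z) ^ (orderOf z).gcdA
          ((Subgroup.centralizer (V : Set G)).relIndex T) *
        ((s : G) ^ (Subgroup.centralizer (V : Set G)).relIndex T) ^ (orderOf z).gcdB
          ((Subgroup.centralizer (V : Set G)).relIndex T) := by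
      rw [← zpow_natCast, ← zpow_natCast, ← zpow_mul, ← zpow_mul, ← zpow_add, ← h6]
      simp
    rw [h7]
    exact mul_mem (zpow_mem h4 _) (zpow_mem h5 _)
  obtain ⟨⟨_, t0, rfl⟩, h0⟩ := IsCyclic.exists_generator (α := φ.range)
  refine ⟨t0, t0.2, fun t ht => ?_⟩
  have h1 := h0 (⟨φ ⟨t, ht⟩, ⟨⟨t, ht⟩, rfl⟩⟩ : φ.range)⁻¹
  rw [← mem_powers_iff_mem_zpowers] at h1
  obtain ⟨k, hk⟩ := h1
  refine ⟨k, hker (t0 ^ k * ⟨t, ht⟩) ?_⟩
  have h2 := congrArg Subtype.val hk
  rw [map_mul, map_pow]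
  have h3 : φ t0 ^ k = (φ ⟨t, ht⟩)⁻¹ := h2
  rw [h3, inv_mul_cancel]

end grp

theorem lbu (hInu : InuStmt) (hNrm : NrmStmt) (hCyc : CycStmt) (hPsn : PsnStmt) : LbuStmt := by
  intro ℓ hℓ M _ hM G _ _ e V γ T hI u hu hcard β hβ
  have hpr : ℓ.Prime := hℓ.out
  have hF : GoodF ℓ (FF M) := PP.H50.fld ℓ hℓ.out M hM
  have hI1 := hInu ℓ (FF M) hF G e V γ T hI u hu β hβ
  have hVC : V ≤ Cu u := by
    intro v hv
    rw [Subgroup.mem_centralizer_singleton_iff]
    exact hI.comm v hv u hu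
  have hCC : Subgroup.centralizer (V : Set G) ≤ Cu u := by
    intro x hx
    rw [Subgroup.mem_centralizer_singleton_iff]
    exact (Subgroup.mem_centralizer_iff.1 hx u hu).symm
  obtain ⟨z, hz⟩ : ∃ z : Cu u, z = ⟨u, hVC hu⟩ := ⟨_, rfl⟩
  have hzc : z ∈ Subgroup.center (Cu u) := by
    rw [Subgroup.mem_center_iff]
    intro g
    apply Subtype.ext
    rw [hz]
    exact Subgroup.mem_centralizer_singleton_iff.1 g.2
  have hzo : orderOf z = orderOf u := by rw [hz, Subgroup.orderOf_mk]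
  obtain ⟨V1, hV1⟩ : ∃ V1 : Subgroup (Cu u), V1 = V.subgroupOf (Cu u) := ⟨_, rfl⟩
  obtain ⟨T1, hT1⟩ : ∃ T1 : Subgroup (Cu u), T1 = T.subgroupOf (Cu u) := ⟨_, rfl⟩
  obtain ⟨b, hb⟩ : ∃ b : Cu u → FF M, b = fun t : Cu u => β t := ⟨_, rfl⟩
  obtain ⟨g, hg⟩ : ∃ g : Cu u → FF M, g = fun t : Cu u => γ t := ⟨_, rfl⟩
  rw [← hV1, ← hT1, ← hb, ← hg] at hI1
  rw [← hb]
  have hzV : z ∈ V1 := by
    rw [hV1, Subgroup.mem_subgroupOf, hz]
    exact hu
  have hV1c : Nat.card V1 = ℓ * orderOf z := by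
    rw [hzo, ← hcard, hV1]
    exact Nat.card_congr (Subgroup.subgroupOfEquivOfLe hVC).toEquiv
  have hT1N : T1 ≤ Subgroup.normalizer (V1 : Set (Cu u)) := by
    rw [hI1.stb]
    exact inf_le_left
  have hidx : ¬ ℓ ∣ (Subgroup.centralizer (V1 : Set (Cu u))).relIndex T1 := by
    rw [hI1.stb]
    exact H34.inx ℓ M hM (Cu u) b hI1.blk V1 hI1.tp hI1.comm g hI1.gam.off hI1.gam.blk hI1.und
  have hcyc := cyc_act hzc hzV hV1c hI1.tp.pg hT1N hidx
  have h1 := hNrm ℓ M hM (Cu u) b V1 g T1 hI1 hcyc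
  -- the index
  have h2 : (Subgroup.centralizer (V1 : Set (Cu u))).relIndex T1 =
      (Subgroup.centralizer (V : Set G)).relIndex (T ⊓ Cu u) := by
    have e1 : Subgroup.centralizer (V1 : Set (Cu u)) =
        (Subgroup.centralizer (V : Set G)).subgroupOf (Cu u) := by
      ext x
      rw [Subgroup.mem_subgroupOf, Subgroup.mem_centralizer_iff, Subgroup.mem_centralizer_iff]
      constructor
      · intro h v hv
        have := h ⟨v, hVC hv⟩ (by rw [hV1]; exact hv)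
        exact congrArg Subtype.val this
      · intro h v hv
        rw [hV1] at hv
        exact Subtype.ext (h v hv)
    have e2 : T1 = (T ⊓ Cu u).subgroupOf (Cu u) := by
      rw [hT1, Subgroup.inf_subgroupOf_right]
    rw [e1, e2, Subgroup.relIndex_subgroupOf inf_le_right]
  -- the quotient
  have := zpowers_normal hzc
  obtain ⟨p, hp⟩ : ∃ p : Cu u →* Cu u ⧸ Subgroup.zpowers z, p = QuotientGroup.mk' _ := ⟨_, rfl⟩
  have hps : Function.Surjective p := by rw [hp]; exact QuotientGroup.mk'_surjective _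
  have hpk : p.ker = Subgroup.zpowers z := by rw [hp]; exact QuotientGroup.ker_mk' _
  have hQV : p.ker ≤ V1 := by rw [hpk]; exact Subgroup.zpowers_le.2 hzV
  have hVc : (V1.map p).comap p = V1 := Subgroup.comap_map_eq_self hQV
  have hkp : IsPGroup ℓ p.ker := hI1.tp.pg.to_le hQV
  have hkc : p.ker ≤ Subgroup.center (Cu u) := by rw [hpk]; exact Subgroup.zpowers_le.2 hzc
  have hbi : IsIdem b := hI1.blk.1
  have hb' : IsBlk (PP.H75.push p b) := hPsn ℓ (FF M) hF _ _ p hps hkp hkc b hI1.blk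
  have hV'c : Nat.card (V1.map p) = ℓ := by
    have h1 := PP.H75.card_comap hps (V1.map p)
    rw [hVc, hV1c, hpk, Nat.card_zpowers, mul_comm ℓ] at h1
    exact (Nat.eq_of_mul_eq_mul_left (orderOf_pos z) h1).symm
  have hV'g : Gd (PP.H75.push p b) (V1.map p) :=
    (H02.pug ℓ (FF M) hF _ _ p hps hkp b hbi V1 hQV hI1.tp.pg).1 hI1.tp.gd
  have hV't : Tp ℓ (PP.H75.push p b) (V1.map p) := by
    refine ⟨hI1.tp.pg.map p, hV'g, ?_⟩
    intro R hR hRg
    have k1 : p.ker ≤ R.comap p := by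
      intro x hx
      rw [MonoidHom.mem_ker] at hx
      rw [Subgroup.mem_comap, hx]
      exact R.one_mem
    have k2 : IsPGroup ℓ (R.comap p) := (PP.H75.isPGroup_comap_iff hps hkp R).2 hR
    have k3 := (H02.pug ℓ (FF M) hF _ _ p hps hkp b hbi (R.comap p) k1 k2).2 (by
      rw [Subgroup.map_comap_eq_self_of_surjective hps]
      exact hRg)
    have k4 := hI1.tp.mx _ k2 k3
    rw [← hVc, PP.H75.card_comap hps, PP.H75.card_comap hps] at k4
    exact Nat.le_of_mul_le_mul_left k4 Nat.card_pos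
  have h3 := hCyc ℓ M hM _ (PP.H75.push p b) hb' (V1.map p) hV't hV'c
  -- the numbers
  have hV1p : IsPGroup ℓ V1 := hI1.tp.pg
  have n1 : lb (fun t : Subgroup.normalizer (V1 : Set (Cu u)) => br V1 b t) =
      lnum (Subgroup.normalizer (V1 : Set (Cu u))) b :=
    ((K9.H75.lbr ℓ (FF M) hF (Cu u) b hbi V1 (Subgroup.normalizer (V1 : Set (Cu u))) hV1p
      Subgroup.le_normalizer le_rfl).1).symm
  have n2 : lb (fun t : Subgroup.normalizer ((V1.map p : Subgroup (Cu u ⧸ Subgroup.zpowers z)) :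
      Set (Cu u ⧸ Subgroup.zpowers z)) =>
        br (V1.map p) (PP.H75.push p b) t) =
      lnum (Subgroup.normalizer ((V1.map p : Subgroup (Cu u ⧸ Subgroup.zpowers z)) :
      Set (Cu u ⧸ Subgroup.zpowers z))) (PP.H75.push p b) :=
    ((K9.H75.lbr ℓ (FF M) hF _ (PP.H75.push p b) hb'.1 (V1.map p)
      (Subgroup.normalizer ((V1.map p : Subgroup (Cu u ⧸ Subgroup.zpowers z)) :
      Set (Cu u ⧸ Subgroup.zpowers z))) (hV1p.map p)
      Subgroup.le_normalizer le_rfl).1).symm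
  have n3 : (Subgroup.normalizer ((V1.map p : Subgroup (Cu u ⧸ Subgroup.zpowers z)) :
      Set (Cu u ⧸ Subgroup.zpowers z))).comap p =
      Subgroup.normalizer (V1 : Set (Cu u)) := by
    ext x
    rw [Subgroup.mem_comap, ← PP.H75.normalizer_comap hps, hVc]
  have n4 := PP.H75.lnum_comap PP.H20.nls hF hps hkp
    (Subgroup.normalizer ((V1.map p : Subgroup (Cu u ⧸ Subgroup.zpowers z)) :
      Set (Cu u ⧸ Subgroup.zpowers z))) b
  have n5 := PP.H75.lnum_comap PP.H20.nls hF hps hkp ⊤ b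
  rw [Subgroup.comap_top, H35.lnum_top, H35.lnum_top] at n5
  rw [n3] at n4
  have n6 : lb b = lb (PP.H75.push p b) := n5
  rw [n6, h3, n2, ← n4, ← n1, ← h2]
  exact h1

end Pool.Agent.PP.C2.H82
end
end -- Pool.Agent.Helper82_C2.LBU

section -- Pool.Agent.Helper1_AT12.SYX

/-!
# Squad AT12, row SYX: existence of the structure `Sy`
-/

set_option autoImplicit false

open scoped BigOperators

noncomputable section

namespace Pool.Agent.PP.T12.H1

open Pool.Agent.Helper51_AWC Pool.Agent.Helper79_WRA Pool.Agent.PP Pool.Agent.PP.KF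
open Pool.Agent.PP.K9 Pool.Agent.PP.K9.H97 Pool.Agent.PP.H75 Pool.Agent.PP.T3 Pool.Agent.PP.T2
open Pool.Agent.PP.T8 Pool.Agent.PP.T12

attribute [local instance] Ideal.Quotient.field

section quo

variable {A B : Type} [Group A] [Group B]

theorem norm_ker (π : A →* B) : Subgroup.normalizer ((π.ker : Subgroup A) : Set A) = ⊤ := by
  rw [eq_top_iff]
  intro x _
  rw [Subgroup.mem_normalizer_iff]
  intro h
  rw [MonoidHom.mem_ker, MonoidHom.mem_ker, map_mul, map_mul, map_inv]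
  constructor
  · intro h1
    rw [h1, mul_one, mul_inv_cancel]
  · intro h1
    have h2 : π h = (π x)⁻¹ * (π x * π h * (π x)⁻¹) * π x := by group
    rw [h2, h1, mul_one, inv_mul_cancel]

/-- the image of a function under the restriction to the full subgroup -/
theorem push_top {F : Type} [Field F] (π : A →* B) {N : Subgroup A} (hN : N = ⊤) (b : A → F) :
    push (π.comp N.subtype) (fun t : N => b t) = push π b := by
  subst hN
  funext y
  unfold push
  rw [← finsum_comp_equiv (Subgroup.topEquiv : (⊤ : Subgroup A) ≃* A).toEquiv]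
  rfl

theorem map_top (π : A →* B) {N : Subgroup A} (hN : N = ⊤) (V : Subgroup A) :
    (V.subgroupOf N).map (π.comp N.subtype) = V.map π := by
  rw [← Subgroup.map_map, Subgroup.subgroupOf_map_subtype, hN, inf_top_eq]

/-- the image of the defect group -/
theorem tp_quo {F : Type} [Field F] {ℓ : ℕ} [Fact ℓ.Prime] (hF : GoodF ℓ F) [Finite A] [Finite B]
    {p : A →* B} (hps : Function.Surjective p) (hkp : IsPGroup ℓ p.ker) {b : A → F}
    (hb : IsIdem b) {V : Subgroup A} (hV : Tp ℓ b V) (hQV : p.ker ≤ V) :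
    Tp ℓ (push p b) (V.map p) := by
  have hVc : (V.map p).comap p = V := Subgroup.comap_map_eq_self hQV
  have hV'g : Gd (push p b) (V.map p) :=
    (H02.pug ℓ F hF _ _ p hps hkp b hb V hQV hV.pg).1 hV.gd
  refine ⟨hV.pg.map p, hV'g, ?_⟩
  intro R hR hRg
  have k1 : p.ker ≤ R.comap p := by
    intro x hx
    rw [MonoidHom.mem_ker] at hx
    rw [Subgroup.mem_comap, hx]
    exact R.one_mem
  have k2 : IsPGroup ℓ (R.comap p) := (PP.H75.isPGroup_comap_iff hps hkp R).2 hR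
  have k3 := (H02.pug ℓ F hF _ _ p hps hkp b hb (R.comap p) k1 k2).2 (by
    rw [Subgroup.map_comap_eq_self_of_surjective hps]
    exact hRg)
  have k4 := hV.mx _ k2 k3
  rw [← hVc, PP.H75.card_comap hps, PP.H75.card_comap hps] at k4
  exact Nat.le_of_mul_le_mul_left k4 Nat.card_pos

end quo

/-- the structure for a given homomorphism `π` -/
theorem syx_core (lby : LbyStmt) (stf : StfStmt) (lsb : T3.LsbStmt) (psg : T3.PsgStmt)
    (qt3 : T8.Qt3Stmt) (lfr : T8.LfrStmt) (ℓ : ℕ) [Fact ℓ.Prime]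
    (M : Ideal (integralClosure ℤ ℂ)) [M.IsMaximal] (hM : (ℓ : integralClosure ℤ ℂ) ∈ M)
    (hℓ2 : ℓ ≠ 2) (G H : Type) [Group G] [Finite G] [Group H] [Finite H] (e : G → FF M)
    (V : Subgroup G) (γ : G → FF M) (hL : Ld ℓ e V γ) (y w : G) (m : ℕ) (hC : Cs ℓ V γ y w m)
    (β : G → FF M) (hβ : Lc e V γ y β) (π : Cu y →* H) (hQ : C2.Qn (ℓ ^ 2) y π) :
    ∃ (K : ℕ) (g : Fin m → H → ℂ), Sy M ℓ 2 e V γ y β π m K g := by
  have hpr : ℓ.Prime := Fact.out
  have hF : GoodF ℓ (FF M) := H50.fld ℓ Fact.out M hM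
  have hVC : V ≤ Cu y := fun v hv =>
    Subgroup.mem_centralizer_singleton_iff.2 (hL.ab v hv y hC.yV)
  have hCX : Subgroup.centralizer (V : Set G) ≤ Cu y := fun g hg =>
    Subgroup.mem_centralizer_singleton_iff.2 (Subgroup.mem_centralizer_iff.1 hg y hC.yV).symm
  obtain ⟨hL1, hix1, hcard1, -, -⟩ := lsb ℓ M hM G e V γ hL y hC.yV β hβ
  have hTg := T3.H85.Tg_eq hVC hCX hL.gam.supp
  obtain ⟨V1, hV1⟩ : ∃ V1 : Subgroup (Cu y), V1 = V.subgroupOf (Cu y) := ⟨_, rfl⟩
  obtain ⟨b, hb⟩ : ∃ b : Cu y → FF M, b = fun t : Cu y => β t := ⟨_, rfl⟩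
  obtain ⟨g1, hg1⟩ : ∃ g1 : Cu y → FF M, g1 = fun t : Cu y => γ t := ⟨_, rfl⟩
  rw [← hV1, ← hb, ← hg1] at hL1
  rw [← hV1, ← hg1, hC.ind] at hix1
  rw [← hV1, ← hg1] at hTg
  rw [← hV1, hC.card] at hcard1
  -- the kernel
  have hkm : ∀ c : Cu y, c ∈ π.ker ↔ (c : G) ∈ Subgroup.zpowers y := fun c => by
    rw [MonoidHom.mem_ker]
    exact hQ.ker c
  have hyC : y ∈ Cu y := hVC hC.yV
  have hkz : π.ker = Subgroup.zpowers (⟨y, hyC⟩ : Cu y) := by
    ext c
    rw [hkm, Subgroup.mem_zpowers_iff, Subgroup.mem_zpowers_iff]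
    constructor
    · rintro ⟨i, hi⟩
      exact ⟨i, Subtype.ext hi⟩
    · rintro ⟨i, hi⟩
      exact ⟨i, congrArg Subtype.val hi⟩
  have hkc : π.ker ≤ Subgroup.center (Cu y) := by
    rw [hkz, Subgroup.zpowers_le, Subgroup.mem_center_iff]
    intro g
    apply Subtype.ext
    exact Subgroup.mem_centralizer_singleton_iff.1 g.2
  have hQV : π.ker ≤ V1 := by
    rw [hkz, Subgroup.zpowers_le, hV1, Subgroup.mem_subgroupOf]
    exact hC.yV
  have hkp : IsPGroup ℓ π.ker := hL1.tp.pg.to_le hQV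
  have hkcard : Nat.card π.ker = ℓ ^ 2 := by
    rw [hkz, Nat.card_zpowers, Subgroup.orderOf_mk]
    exact hC.oy
  have hbl : IsBlk (push π b) := psg ℓ (FF M) hF (Cu y) H π hQ.sur hkc hkp b hL1.blk
  have hVc : (V1.map π).comap π = V1 := Subgroup.comap_map_eq_self hQV
  have hTp : Tp ℓ (push π b) (V1.map π) := tp_quo hF hQ.sur hkp hL1.blk.1 hL1.tp hQV
  have hW : Nat.card (V1.map π) = ℓ ^ 2 := by
    have h1 := PP.H75.card_comap hQ.sur (V1.map π)
    rw [hVc, hcard1, hkcard] at h1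
    have h2 : ℓ ^ 4 = ℓ ^ 2 * ℓ ^ 2 := by ring
    rw [h2] at h1
    exact (Nat.eq_of_mul_eq_mul_left (pow_pos hpr.pos 2) h1).symm
  have hWcyc : IsCyclic (V1.map π) := by
    have h1 : V1.map π = Subgroup.zpowers (π ⟨w, hVC hC.wV⟩) := by
      apply le_antisymm
      · rintro _ ⟨v, hv, rfl⟩
        rw [hV1] at hv
        obtain ⟨i, k, hik⟩ := hC.gen v hv
        have h2 : v = (⟨y, hyC⟩ : Cu y) ^ i * (⟨w, hVC hC.wV⟩ : Cu y) ^ k := Subtype.ext hik
        have h3 : π (⟨y, hyC⟩ : Cu y) = 1 := (hQ.ker _).2 (Subgroup.mem_zpowers y)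
        rw [h2, map_mul, map_pow, map_pow, h3, one_pow, one_mul]
        exact pow_mem (Subgroup.mem_zpowers _) k
      · rw [Subgroup.zpowers_le]
        exact ⟨⟨w, hVC hC.wV⟩, by rw [hV1]; exact hC.wV, rfl⟩
    rw [h1]
    infer_instance
  have hWne : V1.map π ≠ ⊥ := by
    intro h
    rw [h, Subgroup.card_bot] at hW
    exact absurd hW.symm (Nat.one_lt_pow (by norm_num) hpr.one_lt).ne'
  -- the inertial group
  have hN := norm_ker π
  have hker' : (π.comp (Subgroup.normalizer ((π.ker : Subgroup (Cu y)) : Set (Cu y))).subtype).ker =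
      π.ker.subgroupOf (Subgroup.normalizer ((π.ker : Subgroup (Cu y)) : Set (Cu y))) := by
    ext x
    rw [MonoidHom.mem_ker, Subgroup.mem_subgroupOf, MonoidHom.mem_ker]
    rfl
  have hsur' : Function.Surjective
      (π.comp (Subgroup.normalizer ((π.ker : Subgroup (Cu y)) : Set (Cu y))).subtype) := by
    intro h
    obtain ⟨x, hx⟩ := hQ.sur h
    exact ⟨⟨x, by rw [hN]; exact Subgroup.mem_top x⟩, hx⟩
  have hbr : br π.ker b = b := by
    funext x
    apply H66.br_of_mem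
    rw [Subgroup.mem_centralizer_iff]
    intro z hz
    exact (Subgroup.mem_center_iff.1 (hkc hz) x).symm
  have hpush : push (π.comp
      (Subgroup.normalizer ((π.ker : Subgroup (Cu y)) : Set (Cu y))).subtype)
      (fun t : Subgroup.normalizer ((π.ker : Subgroup (Cu y)) : Set (Cu y)) =>
        br π.ker b t) = push π b := by
    rw [hbr]
    exact push_top π hN b
  have hmap := map_top π hN V1
  obtain ⟨δ, hLδ, hFe⟩ := qt3 ℓ M hM (Cu y) b V1 g1 hL1 π.ker hQV H
    (π.comp (Subgroup.normalizer ((π.ker : Subgroup (Cu y)) : Set (Cu y))).subtype) hsur' hker'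
    (push π b) hbl (by rw [hpush]; exact hbl.1.2) (by rw [hmap]; exact hTp)
  have hFq := T8.H37.fq_quot hL1.ab hQV _ δ hFe
  rw [hmap] at hLδ hFe hFq
  have hle : ix (V1.map π) δ ≤ m := by
    have h1 := T8.H25.ix_le hFq
    rwa [hix1] at h1
  -- freeness
  have hfr : Fr (V1.map π) δ := by
    intro t' ht' v' hv' hv1 hcm
    obtain ⟨n, hn, hFn⟩ := hFe
    obtain ⟨t, ht, hact⟩ := hFn t' ht'
    have htop : ∀ x : Cu y,
        x ∈ Subgroup.normalizer ((π.ker : Subgroup (Cu y)) : Set (Cu y)) := fun x => by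
      rw [hN]
      exact Subgroup.mem_top x
    have hact' : ∀ v ∈ V1, π (n * (t * v * t⁻¹) * n⁻¹) = t' * π (n * v * n⁻¹) * t'⁻¹ :=
      fun v hv => hact v hv ⟨_, htop _⟩ ⟨_, htop _⟩ rfl rfl
    rw [hTg, Subgroup.mem_subgroupOf] at ht
    have htT : (t : G) ∈ Tg V γ := ht.1
    have hty : (t : G) * y = y * t := Subgroup.mem_centralizer_singleton_iff.1 t.2
    obtain ⟨μ, hμ⟩ := hC.act t htT hty
    obtain ⟨x, hx, rfl⟩ := hv'
    obtain ⟨v, hv⟩ : ∃ v : Cu y, v = n⁻¹ * x * n := ⟨_, rfl⟩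
    have hvV : v ∈ V1 := by
      rw [hv]
      have h1 := (Subgroup.mem_normalizer_iff.1 (inv_mem hn) x).1 hx
      rwa [inv_inv] at h1
    have hxv : x = n * v * n⁻¹ := by rw [hv]; group
    have hvV' : (v : G) ∈ V := by
      rw [hV1] at hvV
      exact hvV
    obtain ⟨i, k, hik⟩ := hC.gen v hvV'
    have hvy : v = (⟨y, hyC⟩ : Cu y) ^ i * (⟨w, hVC hC.wV⟩ : Cu y) ^ k := Subtype.ext hik
    have hyk : (⟨y, hyC⟩ : Cu y) ^ i ∈ π.ker := by
      rw [hkz]
      exact pow_mem (Subgroup.mem_zpowers _) i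
    -- `k` is not divisible by `ℓ ^ 2`
    have hk : ¬ ℓ ^ 2 ∣ k := by
      rintro ⟨j, rfl⟩
      apply hv1
      have h1 : (⟨w, hVC hC.wV⟩ : Cu y) ^ (ℓ ^ 2 * j) = 1 := by
        apply Subtype.ext
        change w ^ (ℓ ^ 2 * j) = 1
        rw [pow_mul, ← hC.ow, pow_orderOf_eq_one, one_pow]
      rw [h1, mul_one] at hvy
      have h2 : v ∈ π.ker := by rw [hvy]; exact hyk
      rw [hxv, map_mul, map_mul, MonoidHom.mem_ker.1 h2, mul_one, map_inv, mul_inv_cancel]
    -- `t` fixes the coset of `v`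
    have h1 : π (n * (t * v * t⁻¹) * n⁻¹) = π (n * v * n⁻¹) := by
      rw [hact' v hvV, ← hxv, hcm, mul_inv_cancel_right]
    have h2 : π (t * v * t⁻¹) = π v := by
      rw [map_mul, map_mul π _ n⁻¹, map_mul, map_mul π n v] at h1
      exact mul_left_cancel (mul_right_cancel h1)
    have h3 : (t * v * t⁻¹) * v⁻¹ ∈ π.ker := by
      rw [MonoidHom.mem_ker, map_mul, h2, ← map_mul, mul_inv_cancel, map_one]
    have h4 := (hkm _).1 h3
    have h5 : (t : G) * v * (t : G)⁻¹ * (v : G)⁻¹ ∈ Subgroup.zpowers y := h4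
    have h6 : (t : G) * v * (t : G)⁻¹ = y ^ i * w ^ (μ * k) := by
      rw [hik]
      have h7 : (t : G) * (y ^ i * w ^ k) * (t : G)⁻¹ =
          ((t : G) * y * (t : G)⁻¹) ^ i * ((t : G) * w * (t : G)⁻¹) ^ k := by
        rw [conj_pow, conj_pow]
        group
      rw [h7, hμ, hty, mul_inv_cancel_right, pow_mul]
    -- so it fixes `w ^ k`
    have h8 : ∃ i' : ℕ, y ^ i * w ^ (μ * k) = y ^ i' * w ^ k := by
      rw [← mem_powers_iff_mem_zpowers] at h5
      obtain ⟨j, hj⟩ := h5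
      have hj' : y ^ j = (t : G) * v * (t : G)⁻¹ * (v : G)⁻¹ := hj
      refine ⟨j + i, ?_⟩
      rw [pow_add, mul_assoc, ← hik, hj', inv_mul_cancel_right, h6]
    obtain ⟨i', hi'⟩ := h8
    have h9 := (hC.uni i i' (μ * k) k hi').2
    have h10 : w ^ (μ * k) = w ^ k := by
      rw [← hC.ow] at h9
      exact pow_eq_pow_iff_modEq.2 h9
    have h11 : (t : G) * w ^ k = w ^ k * t := by
      have h12 : (t : G) * w ^ k * (t : G)⁻¹ = w ^ k := by
        rw [← conj_pow, hμ, ← pow_mul, h10]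
      calc (t : G) * w ^ k = ((t : G) * w ^ k * (t : G)⁻¹) * t := by group
        _ = w ^ k * t := by rw [h12]
    have h13 := hC.fre t htT hty k hk h11
    rw [Subgroup.mem_centralizer_iff] at h13 ⊢
    rintro _ ⟨x', hx', rfl⟩
    obtain ⟨v₂, hv₂⟩ : ∃ v : Cu y, v = n⁻¹ * x' * n := ⟨_, rfl⟩
    have hvV₂ : v₂ ∈ V1 := by
      rw [hv₂]
      have h1 := (Subgroup.mem_normalizer_iff.1 (inv_mem hn) x').1 hx'
      rwa [inv_inv] at h1
    have hxv₂ : x' = n * v₂ * n⁻¹ := by rw [hv₂]; group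
    have h14 : t * v₂ * t⁻¹ = v₂ := by
      apply Subtype.ext
      change (t : G) * v₂ * (t : G)⁻¹ = v₂
      have h15 : (v₂ : G) ∈ V := by
        rw [hV1] at hvV₂
        exact hvV₂
      rw [← h13 _ h15, mul_inv_cancel_right]
    have h16 := hact' v₂ hvV₂
    rw [h14, ← hxv₂] at h16
    change π x' * t' = t' * π x'
    calc π x' * t' = t' * π x' * t'⁻¹ * t' := by rw [← h16]
      _ = t' * π x' := by group
  -- the number of the modular characters
  have hlow : m ≤ ln (push π b) := by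
    have h1 := lby ℓ M hM G H e V γ hL y hC.yV 2 π hQ β hβ (by rw [← hV1]; exact hWcyc)
      (by rw [← hV1]; exact hWne) hC.cyc
    rwa [hC.ind, ← hb] at h1
  have hup : ln (push π b) ≤ ix (V1.map π) δ := lfr ℓ M hM hℓ2 H (push π b) _ δ hLδ hWne hfr
  have hixm : ix (V1.map π) δ = m := le_antisymm hle (hlow.trans hup)
  have hml : m ≤ ℓ - 1 := Nat.le_of_dvd (by have := hpr.two_le; omega) hC.dvd
  have h3m : 3 * ix (V1.map π) δ < Nat.card (V1.map π) := by
    rw [hixm, hW]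
    have h1 : 3 ≤ ℓ := by
      have := hpr.two_le
      omega
    have h2 : m + 1 ≤ ℓ := by omega
    nlinarith
  have hcd : ∃ (K : ℕ) (g : Fin m → H → ℂ), Cd M ℓ (push π b) (V1.map π) m K g := by
    rw [← hixm]
    exact stf ℓ M hM hℓ2 H (push π b) (V1.map π) δ hLδ hfr (hle.trans hlow) h3m
  obtain ⟨K, g, hKg⟩ := hcd
  refine ⟨K, g, hL, hC.yV, by norm_num, hQ, hβ, hC.ind, ?_⟩
  rw [← hV1, ← hb]
  exact hKg

/-- SYX -/
theorem syx (lby : LbyStmt) (stf : StfStmt) (lsb : T3.LsbStmt) (loc : T3.LocStmt)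
    (psg : T3.PsgStmt) (qt3 : T8.Qt3Stmt) (lfr : T8.LfrStmt) : SyxStmt := by
  intro ℓ _ M _ hM hℓ2 G _ _ e V γ hL y w m hC
  have hF : GoodF ℓ (FF M) := H50.fld ℓ Fact.out M hM
  obtain ⟨β, hβ⟩ := (loc ℓ (FF M) hF G e V γ hL y hC.yV).1
  have hyC : y ∈ Cu y := Subgroup.mem_centralizer_singleton_iff.2 rfl
  obtain ⟨z, hz⟩ : ∃ z : Cu y, z = ⟨y, hyC⟩ := ⟨_, rfl⟩
  have hzc : z ∈ Subgroup.center (Cu y) := by
    rw [Subgroup.mem_center_iff, hz]
    intro g
    apply Subtype.ext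
    exact Subgroup.mem_centralizer_singleton_iff.1 g.2
  have := C2.H82.zpowers_normal hzc
  have hQ : C2.Qn (ℓ ^ 2) y (QuotientGroup.mk' (Subgroup.zpowers z)) := by
    refine ⟨hC.oy, QuotientGroup.mk'_surjective _, ?_⟩
    intro c
    rw [← MonoidHom.mem_ker, QuotientGroup.ker_mk', Subgroup.mem_zpowers_iff,
      Subgroup.mem_zpowers_iff]
    constructor
    · rintro ⟨i, hi⟩
      refine ⟨i, ?_⟩
      rw [← hi, hz]
      rfl
    · rintro ⟨i, hi⟩
      refine ⟨i, Subtype.ext ?_⟩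
      rw [hz]
      exact hi
  obtain ⟨K, g, h⟩ := syx_core lby stf lsb psg qt3 lfr ℓ M hM hℓ2 G
    (Cu y ⧸ Subgroup.zpowers z) e V γ hL y w m hC β hβ _ hQ
  exact ⟨_, _, inferInstance, β, _, K, g, h⟩

end Pool.Agent.PP.T12.H1
end
end -- Pool.Agent.Helper1_AT12.SYX

section -- Pool.Agent.Helper13_WAT.CLV

/-!
# WAT, row CLV: closure of the classes under quotients
-/

open scoped BigOperators commutatorElement

set_option linter.unusedSectionVars false

noncomputable section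

namespace Pool.Agent.PP.TV.H13

open Pool.Agent.Helper51_AWC Pool.Agent.Helper79_WRA Pool.Agent.PP Pool.Agent.PP.KF
open Pool.Agent.PP.K9 Pool.Agent.PP.K9.H97 Pool.Agent.PP.H75 Pool.Agent.PP.T3 Pool.Agent.PP.T2
open Pool.Agent.PP.T5 Pool.Agent.PP.TB
open Pool.Agent.PP.T8 (Rv Fq Fr)
open Pool.Agent.PP.T8.H25 (Ind nrm nrm_fix nrm_map pow_ix ix_le)

attribute [local instance] Ideal.Quotient.field

section clv

variable {F F' G A : Type} [Field F] [Field F'] [Group G] [Finite G] [Group A] [Finite A]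
  {V : Subgroup G} {γ : G → F} {V' : Subgroup A} {γ' : A → F'}

theorem vc_le : Vc V γ ≤ V := by
  unfold Vc
  rw [Subgroup.commutator_le]
  intro t ht v hv
  have h1 : t * v * t⁻¹ ∈ V := (Subgroup.mem_normalizer_iff.1 ht.1 v).1 hv
  rw [commutatorElement_def]
  exact V.mul_mem h1 (V.inv_mem hv)

theorem vc_conj {t v : G} (ht : t ∈ Tg V γ) (hv : v ∈ Vc V γ) : t * v * t⁻¹ ∈ Vc V γ := by
  have h1 : ⁅t, v⁆ ∈ Vc V γ := Subgroup.commutator_mem_commutator ht (vc_le hv)
  have h2 := (Vc V γ).mul_mem h1 hv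
  rw [commutatorElement_def] at h2
  have h3 : t * v * t⁻¹ * v⁻¹ * v = t * v * t⁻¹ := by group
  rwa [h3] at h2

/-- the commutators of a quotient -/
theorem vc_quo (π : V →* V') (hπ : Function.Surjective π)
    (hq : ∀ t' ∈ Tg V' γ', ∃ t ∈ Tg V γ, ∀ v w : V,
      (w : G) = t * v * t⁻¹ → (π w : A) = t' * π v * t'⁻¹) :
    Vc V' γ' ≤ ((((Vc V γ).subgroupOf V).map π).map V'.subtype) := by
  have h0 : Vc V' γ' = ⁅Tg V' γ', V'⁆ := rfl
  rw [h0, Subgroup.commutator_le]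
  intro t' ht' v' hv'
  obtain ⟨t, ht, hi⟩ := hq t' ht'
  obtain ⟨v, hv⟩ := hπ ⟨v', hv'⟩
  have h1 : t * v * t⁻¹ ∈ V := (Subgroup.mem_normalizer_iff.1 ht.1 v).1 v.2
  have h2 := hi v ⟨t * v * t⁻¹, h1⟩ rfl
  refine ⟨π (⟨t * v * t⁻¹, h1⟩ * v⁻¹), ⟨⟨t * v * t⁻¹, h1⟩ * v⁻¹, ?_, rfl⟩, ?_⟩
  · change (⟨t * v * t⁻¹, h1⟩ * v⁻¹ : V) ∈ (Vc V γ).subgroupOf V
    rw [Subgroup.mem_subgroupOf]
    have h3 : ⁅t, (v : G)⁆ ∈ Vc V γ := Subgroup.commutator_mem_commutator ht v.2
    rw [commutatorElement_def] at h3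
    exact h3
  · rw [map_mul, map_inv]
    change (π ⟨t * v * t⁻¹, h1⟩ : A) * (π v : A)⁻¹ = ⁅t', v'⁆
    rw [h2, hv, commutatorElement_def]

theorem rk2_quo (h : Fq V γ V' γ') (hr : RK2.Rk2 (Vc V γ)) : RK2.Rk2 (Vc V' γ') := by
  obtain ⟨π, hπ, hq⟩ := h
  have h1 := vc_quo (γ := γ) (γ' := γ') π hπ hq
  have h2 : RK2.Rk2 ((Vc V γ).subgroupOf V) :=
    X4.rk2_surj (Subgroup.subgroupOfEquivOfLe (vc_le (V := V) (γ := γ))).symm.toMonoidHom
      (Subgroup.subgroupOfEquivOfLe (vc_le (V := V) (γ := γ))).symm.surjective hr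
  have h3 := X4.rk2_surj (π.subgroupMap ((Vc V γ).subgroupOf V))
    (π.subgroupMap_surjective _) h2
  have h4 := X4.rk2_surj (V'.subtype.subgroupMap (((Vc V γ).subgroupOf V).map π))
    (V'.subtype.subgroupMap_surjective _) h3
  exact RK2.rk2_sub (Subgroup.inclusion h1) (Subgroup.inclusion_injective h1) h4

theorem fc_quo {ℓ : ℕ} [Fact ℓ.Prime] (hab : ∀ a ∈ V, ∀ b ∈ V, a * b = b * a)
    (hp' : IsPGroup ℓ V') (hix : ¬ ℓ ∣ ix V γ) (h : Fq V γ V' γ') (hfr : Fc V γ) :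
    Fc V' γ' := by
  obtain ⟨π, hπ, hq⟩ := h
  intro t' ht' v' hv' hv1 hc
  obtain ⟨t, ht, hi⟩ := hq t' ht'
  change Ind π t t' at hi
  obtain ⟨y, ⟨v, hvK, hvy⟩, hy⟩ := vc_quo (γ := γ) (γ' := γ') π hπ hq hv'
  have hvK' : (v : G) ∈ Vc V γ := Subgroup.mem_subgroupOf.1 hvK
  have hv : ((π v : V') : A) = v' := by rw [hvy]; exact hy
  have hN : ∀ x : V, t * x * t⁻¹ ∈ V := fun x => (Subgroup.mem_normalizer_iff.1 ht.1 x).1 x.2
  have habV : ∀ a b : V, a * b = b * a := fun a b => Subtype.ext (hab _ a.2 _ b.2)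
  obtain ⟨φ, hφ⟩ : ∃ φ : V →* V, ∀ x : V, (φ x : G) = t * x * t⁻¹ :=
    ⟨{ toFun := fun x => ⟨t * x * t⁻¹, hN x⟩
       map_one' := Subtype.ext (by change t * 1 * t⁻¹ = 1; group)
       map_mul' := fun x y => Subtype.ext (by
        change t * (x * y) * t⁻¹ = t * x * t⁻¹ * (t * y * t⁻¹); group) }, fun x => rfl⟩
  have hit : ∀ (j : ℕ) (x : V), ((φ^[j] x : V) : G) = t ^ j * x * (t ^ j)⁻¹ := by
    intro j
    induction j with
    | zero => intro x; rw [pow_zero]; change (x : G) = 1 * x * 1⁻¹; group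
    | succ j ih =>
      intro x
      rw [Function.iterate_succ_apply', hφ, ih, pow_succ']
      group
  have hm : φ^[ix V γ] v = v := by
    apply Subtype.ext
    rw [hit, ← Subgroup.mem_centralizer_iff.1 (pow_ix ht) v v.2, mul_inv_cancel_right]
  have h1 := nrm_fix habV φ v (ix V γ)
  rw [hm] at h1
  have h2 : φ (nrm φ v (ix V γ)) = nrm φ v (ix V γ) := mul_right_cancel h1
  have h3 : π (nrm φ v (ix V γ)) = π v ^ ix V γ :=
    nrm_map (t' := t') φ (fun x => hi x (φ x) (hφ x)) v (by rw [hv]; exact hc) _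
  have h4 : π v ^ ix V γ ≠ 1 := by
    intro h5
    have hcop : ℓ.Coprime (ix V γ) := (Nat.Prime.coprime_iff_not_dvd Fact.out).2 hix
    have h6 : (hp'.powEquiv hcop) (π v) = (hp'.powEquiv hcop) 1 := by
      rw [IsPGroup.powEquiv_apply, IsPGroup.powEquiv_apply, h5, one_pow]
    have h7 := (hp'.powEquiv hcop).injective h6
    exact hv1 (hv.symm.trans (congrArg Subtype.val h7))
  have h5 : ((nrm φ v (ix V γ) : V) : G) ≠ 1 := by
    intro h6
    have h7 : nrm φ v (ix V γ) = 1 := Subtype.ext h6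
    rw [h7, map_one] at h3
    exact h4 h3.symm
  have hK : ∀ j : ℕ, ((φ^[j] v : V) : G) ∈ Vc V γ := by
    intro j
    induction j with
    | zero => exact hvK'
    | succ j ih =>
      rw [Function.iterate_succ_apply', hφ]
      exact vc_conj ht ih
  have hK2 : ∀ j : ℕ, ((nrm φ v j : V) : G) ∈ Vc V γ := by
    intro j
    induction j with
    | zero => exact (Vc V γ).one_mem
    | succ j ih => exact (Vc V γ).mul_mem ih (hK j)
  have h6 := hfr t ht _ (hK2 (ix V γ)) h5 (by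
    have h7 := hφ (nrm φ v (ix V γ))
    rw [h2] at h7
    conv_rhs => rw [h7]
    group)
  exact hi.cent hπ h6

end clv

theorem clv : ClvStmt := by
  intro ℓ _ F _ hF G A _ _ _ _ e V γ f V' γ' hL hL' hix hfq
  exact ⟨rk2_quo hfq, fc_quo hL.ab hL'.tp.pg hix hfq, ix_le hfq⟩

end Pool.Agent.PP.TV.H13
end
end -- Pool.Agent.Helper13_WAT.CLV

section -- Pool.Agent.Helper76_WAX.CLR

/-!
# WAX, row CLR: closure under quotients
-/

open scoped BigOperators

noncomputable section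

namespace Pool.Agent.PP.TX.H76

open Pool.Agent.Helper51_AWC Pool.Agent.Helper79_WRA Pool.Agent.PP Pool.Agent.PP.KF
open Pool.Agent.PP.K9 Pool.Agent.PP.K9.H97 Pool.Agent.PP.H75 Pool.Agent.PP.T3 Pool.Agent.PP.T2
open Pool.Agent.PP.T5 Pool.Agent.PP.TB Pool.Agent.PP.TV
open Pool.Agent.PP.T8 (Rv Fq Fr Ei Hk Rk Fd In)
open Pool.Agent.PP.T8.H25 (Ind card_quo)

theorem clr (uwa : TB.UwaStmt) : ClrStmt := by
  intro ℓ _ F _ hF G A _ _ _ _ e V γ f V' γ' hL hL' hix hfq
  obtain ⟨π, hπ, hq⟩ := hfq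
  refine ⟨?_, ?_⟩
  · intro r hr
    have h1 := TV.H13.vc_quo (γ := γ) (γ' := γ') π hπ hq
    obtain ⟨W, hW⟩ : ∃ W : Subgroup A,
        W = ((((Vc V γ).subgroupOf V).map π).map V'.subtype) := ⟨_, rfl⟩
    rw [← hW] at h1
    have hWV : W ≤ V' := by
      rw [hW]
      rintro _ ⟨y, -, rfl⟩
      exact y.2
    have hle : Vc V γ ≤ V := TV.H13.vc_le
    have habW : ∀ a ∈ W, ∀ b ∈ W, a * b = b * a := fun a ha b hb =>
      hL'.ab a (hWV ha) b (hWV hb)
    have hab : ∀ a ∈ Vc V γ, ∀ b ∈ Vc V γ, a * b = b * a := fun a ha b hb =>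
      hL.ab a (hle ha) b (hle hb)
    have hmem : ∀ x : Vc V γ, ((π (Subgroup.inclusion hle x) : V') : A) ∈ W := by
      intro x
      rw [hW]
      refine ⟨_, ⟨_, ?_, rfl⟩, rfl⟩
      exact Subgroup.mem_subgroupOf.2 x.2
    obtain ⟨ψ, hψ⟩ : ∃ ψ : Vc V γ →* W, ∀ x, ((ψ x : W) : A) = π (Subgroup.inclusion hle x) :=
      ⟨{ toFun := fun x => ⟨_, hmem x⟩
         map_one' := Subtype.ext (by
          change ((π (Subgroup.inclusion hle 1) : V') : A) = 1
          rw [map_one, map_one]; rfl)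
         map_mul' := fun x y => Subtype.ext (by
          change ((π (Subgroup.inclusion hle (x * y)) : V') : A) =
            π (Subgroup.inclusion hle x) * π (Subgroup.inclusion hle y)
          rw [map_mul, map_mul]; rfl) }, fun _ => rfl⟩
    have hsur : Function.Surjective ψ := by
      rintro ⟨w, hw⟩
      have hw' := hw
      rw [hW] at hw'
      obtain ⟨y, ⟨v, hv, hvy⟩, hy⟩ := hw'
      refine ⟨⟨v, Subgroup.mem_subgroupOf.1 hv⟩, Subtype.ext ?_⟩
      rw [hψ]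
      have e1 : Subgroup.inclusion hle ⟨v, Subgroup.mem_subgroupOf.1 hv⟩ = v := rfl
      rw [e1, hvy]
      exact hy
    have h2 := card_quo hab habW ψ hsur ℓ (ℓ ^ r) hr
    have h3 := (uwa A W habW).1 (Vc V' γ') h1 ℓ
    unfold Rr
    have h4 : 0 < Nat.card (Uw ℓ W) := Nat.card_pos
    refine Nat.le_of_mul_le_mul_right ?_ h4
    calc Nat.card (Vc V' γ') * Nat.card (Uw ℓ W) ≤ Nat.card W * Nat.card (Uw ℓ (Vc V' γ')) := h3
      _ ≤ (ℓ ^ r * Nat.card (Uw ℓ W)) * Nat.card (Uw ℓ (Vc V' γ')) := Nat.mul_le_mul_right _ h2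
      _ = ℓ ^ r * Nat.card (Uw ℓ (Vc V' γ')) * Nat.card (Uw ℓ W) := by ring
  · intro hA s' hs' t' ht'
    obtain ⟨s, hs, hsi⟩ := hq s' hs'
    obtain ⟨t, ht, hti⟩ := hq t' ht'
    change Ind π s s' at hsi
    change Ind π t t' at hti
    have h1 := ((hsi.mul hti ht.1).mul hsi.inv (inv_mem hs.1)).mul hti.inv (inv_mem ht.1)
    exact h1.cent hπ (hA s hs t ht)

end Pool.Agent.PP.TX.H76
end
end -- Pool.Agent.Helper76_WAX.CLR
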