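import Pool.Agent.Helper12_AWB.B110
import Pool.Agent.Helper12_AWB.B136
import Pool.Agent.Helper12_AWB.B139
import Pool.Agent.Helper12_AWB.B142
import Pool.Agent.Helper12_AWB.B151
import Pool.Agent.Helper12_AWB.B165
import Pool.Agent.Helper12_AWB.B252

/-!
# Merged copies (generated) of the modules

* `Pool.Agent.Helper4_KF.Cqu`
* `Pool.Agent.Helper66_DF.Dfq`
* `Pool.Agent.Helper66_KF.FinKF`
* `Pool.Agent.Helper99_KF.Gq4`
* `Pool.Agent.Helper66_KF.AsmKF`
-/

set_option autoImplicit false

section -- Pool.Agent.Helper4_KF.Cqu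

/-!
# Squad KF, module CQU
-/

open scoped BigOperators

set_option linter.unusedSectionVars false

noncomputable section

namespace Pool.Agent.PP.KF.H4

open Pool.Agent.Helper51_AWC Pool.Agent.Helper79_WRA Pool.Agent.PP

variable {F A B : Type} [Field F] [Group A] [Group B] [Finite A] [Finite B]

theorem isCl_actF {e f : A → F} (he : IsCl e) (hf : IsCl f) : IsCl (actF e f) := by
  have := Fintype.ofFinite A
  intro x y
  unfold actF
  rw [finsum_eq_sum_of_fintype, finsum_eq_sum_of_fintype,
    ← Equiv.sum_comp (MulAut.conj y).toEquiv]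
  apply Finset.sum_congr rfl
  intro t _
  change e (y * t * y⁻¹) * f (y * t * y⁻¹ * (y * x * y⁻¹)) = _
  have h : y * t * y⁻¹ * (y * x * y⁻¹) = y * (t * x) * y⁻¹ := by group
  rw [he, h, hf]

/-- the fixed class functions -/
theorem mem_img {e f : A → F} (he : IsIdem e) :
    f ∈ (cfs F A).map (actL e) ↔ IsCl f ∧ actF e f = f := by
  constructor
  · rintro ⟨g, hg, rfl⟩
    change IsCl (actF e g) ∧ actF e (actF e g) = actF e g
    refine ⟨isCl_actF he.1 hg, ?_⟩
    rw [← actF_mulF, he.2]
  · rintro ⟨h1, h2⟩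
    exact ⟨f, h1, h2⟩

/-- the pushforward as a linear map -/
def pushL (p : A →* B) : (A → F) →ₗ[F] (B → F) where
  toFun f := H75.push p f
  map_add' f g := by
    classical
    have := Fintype.ofFinite A
    funext y
    rw [Pi.add_apply, H75.push_eq, H75.push_eq, H75.push_eq, ← Finset.sum_add_distrib]
    apply Finset.sum_congr rfl
    intro x _
    split_ifs
    · rfl
    · rw [add_zero]
  map_smul' c f := by
    classical
    have := Fintype.ofFinite A
    funext y
    rw [RingHom.id_apply, Pi.smul_apply, H75.push_eq, H75.push_eq, Finset.smul_sum]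
    apply Finset.sum_congr rfl
    intro x _
    split_ifs
    · rfl
    · rw [smul_zero]

/-- the pull back as a linear map -/
def pullL (p : A →* B) : (B → F) →ₗ[F] (A → F) where
  toFun f x := f (p x)
  map_add' _ _ := rfl
  map_smul' _ _ := rfl

/-- the pushforward is equivariant -/
theorem push_actF {p : A →* B} (hp : Function.Surjective p) (e f : A → F) :
    H75.push p (actF e f) = actF (H75.push p e) (H75.push p f) := by
  classical
  have := Fintype.ofFinite A
  have := Fintype.ofFinite B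
  funext y
  obtain ⟨x₀, rfl⟩ := hp y
  rw [H75.actF_push]
  unfold actF
  rw [H75.push_eq, finsum_eq_sum_of_fintype]
  have h1 : ∀ x : A, (if p x = p x₀ then ∑ᶠ t, e t * f (t * x) else 0) =
      ∑ t, if p x = p x₀ then e t * f (t * x) else 0 := by
    intro x
    split_ifs
    · rw [finsum_eq_sum_of_fintype]
    · rw [Finset.sum_const_zero]
  rw [Finset.sum_congr rfl (fun x _ => h1 x), Finset.sum_comm]
  apply Finset.sum_congr rfl
  intro t _
  change _ = e t * H75.push p f (p (t * x₀))
  rw [H75.push_eq, Finset.mul_sum, ← Equiv.sum_comp (Equiv.mulLeft t)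
    (fun x => e t * if p x = p (t * x₀) then f x else 0)]
  apply Finset.sum_congr rfl
  intro x _
  change _ = e t * (if p (t * x) = p (t * x₀) then f (t * x) else 0)
  rw [map_mul, map_mul]
  simp only [mul_right_inj]
  by_cases h : p x = p x₀
  · rw [if_pos h, if_pos h]
  · rw [if_neg h, if_neg h, mul_zero]

theorem cqu : CquStmt := by
  classical
  intro F _ hF A B _ _ _ _ p hp _ hk e he
  have := Fintype.ofFinite A
  have := Fintype.ofFinite B
  have hchar := hF.char
  have heB : IsIdem (H75.push p e) := H75.push_isIdem hp he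
  -- the kernel
  obtain ⟨z, hz, hz1⟩ : ∃ z : A, z ∈ p.ker ∧ z ≠ 1 := by
    by_contra h
    push Not at h
    have h2 : p.ker = ⊥ := by
      rw [eq_bot_iff]
      intro x hx
      exact Subgroup.mem_bot.2 (h x hx)
    rw [h2, Subgroup.card_bot] at hk
    omega
  have hker : ∀ x, x ∈ p.ker → x = 1 ∨ x = z := by
    intro x hx
    by_contra h
    push Not at h
    have h3 : ({⟨1, one_mem _⟩, ⟨z, hz⟩, ⟨x, hx⟩} : Finset p.ker).card = 3 := by
      rw [Finset.card_eq_three]
      refine ⟨⟨1, one_mem _⟩, ⟨z, hz⟩, ⟨x, hx⟩, ?_, ?_, ?_, rfl⟩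
      · intro h4
        exact hz1 (congrArg Subtype.val h4).symm
      · intro h4
        exact h.1 (congrArg Subtype.val h4).symm
      · intro h4
        exact h.2 (congrArg Subtype.val h4).symm
    have h4 := Finset.card_le_univ ({⟨1, one_mem _⟩, ⟨z, hz⟩, ⟨x, hx⟩} : Finset p.ker)
    rw [h3, ← Nat.card_eq_fintype_card, hk] at h4
    omega
  have hpush : ∀ (f : A → F) (x : A), H75.push p f (p x) = f x + f (z * x) := by
    intro f x
    rw [H75.push_eq, ← Finset.sum_filter]
    have h1 : (Finset.univ.filter (fun t => p t = p x)) = {x, z * x} := by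
      ext t
      rw [Finset.mem_filter, Finset.mem_insert, Finset.mem_singleton]
      constructor
      · rintro ⟨_, ht⟩
        have h2 : t * x⁻¹ ∈ p.ker := by
          rw [MonoidHom.mem_ker, map_mul, map_inv, ht, mul_inv_cancel]
        rcases hker _ h2 with h3 | h3
        · left
          exact mul_inv_eq_one.1 h3
        · right
          rw [← h3, inv_mul_cancel_right]
      · rintro (rfl | rfl)
        · exact ⟨Finset.mem_univ _, rfl⟩
        · refine ⟨Finset.mem_univ _, ?_⟩
          rw [map_mul, (MonoidHom.mem_ker).1 hz, one_mul]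
    rw [h1, Finset.sum_pair]
    intro h2
    apply hz1
    have : 1 * x = z * x := by rw [one_mul]; exact h2
    exact (mul_right_cancel this).symm
  -- the restricted pushforward
  set VA := (cfs F A).map (actL e) with hVA
  set VB := (cfs F B).map (actL (H75.push p e)) with hVB
  set L := (pushL (F := F) p).domRestrict VA with hL
  have hrange : LinearMap.range L ≤ VB := by
    rintro _ ⟨⟨f, hf⟩, rfl⟩
    rw [hVA, mem_img he] at hf
    rw [hVB, mem_img heB]
    change IsCl (H75.push p f) ∧ actF (H75.push p e) (H75.push p f) = H75.push p f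
    refine ⟨H75.push_isCl hp hf.1, ?_⟩
    rw [← push_actF hp, hf.2]
  have hkerL : (LinearMap.ker L).map VA.subtype ≤ VB.map (pullL p) := by
    rintro _ ⟨⟨f, hf⟩, hf0, rfl⟩
    rw [hVA, mem_img he] at hf
    change f ∈ _
    have h0 : H75.push p f = 0 := hf0
    have h1 : ∀ x, f (z * x) = f x := by
      intro x
      have h2 : f x + f (z * x) = 0 := by
        rw [← hpush, h0]
        rfl
      have h3 : f x + f x = 0 := CharTwo.add_self_eq_zero (f x)
      exact add_left_cancel (h2.trans h3.symm)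
    set s : B → A := Function.surjInv hp with hs
    have hps : ∀ y, p (s y) = y := Function.surjInv_eq hp
    have h2 : ∀ x, f (s (p x)) = f x := by
      intro x
      have h3 : s (p x) * x⁻¹ ∈ p.ker := by
        rw [MonoidHom.mem_ker, map_mul, map_inv, hps, mul_inv_cancel]
      rcases hker _ h3 with h4 | h4
      · rw [mul_inv_eq_one.1 h4]
      · rw [mul_inv_eq_iff_eq_mul.1 h4, h1]
    have h3 : (fun x => (fun y => f (s y)) (p x)) = f := by
      funext x
      exact h2 x
    refine ⟨fun y => f (s y), ?_, h3⟩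
    change (fun y => f (s y)) ∈ VB
    rw [hVB, mem_img heB]
    constructor
    · intro y w
      obtain ⟨a, rfl⟩ := hp y
      obtain ⟨b, rfl⟩ := hp w
      change f (s (p b * p a * (p b)⁻¹)) = f (s (p a))
      rw [h2, ← map_inv, ← map_mul, ← map_mul, h2]
      exact hf.1 a b
    · funext y
      obtain ⟨a, rfl⟩ := hp y
      rw [H75.actF_push, h3, hf.2]
      exact (h2 a).symm
  have e1 := LinearMap.finrank_range_add_finrank_ker L
  have e2 : Module.finrank F (LinearMap.range L) ≤ Module.finrank F VB :=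
    Submodule.finrank_mono hrange
  have e3 : Module.finrank F (LinearMap.ker L) ≤ Module.finrank F VB := by
    have h1 : Module.finrank F ((LinearMap.ker L).map VA.subtype) =
        Module.finrank F (LinearMap.ker L) :=
      (Submodule.equivMapOfInjective VA.subtype VA.injective_subtype
        (LinearMap.ker L)).finrank_eq.symm
    have h2 := Submodule.finrank_mono hkerL
    have h3 := Submodule.finrank_map_le (pullL (F := F) p) VB
    omega
  change Module.finrank F VA ≤ 2 * Module.finrank F VB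
  omega

end Pool.Agent.PP.KF.H4
end
end -- Pool.Agent.Helper4_KF.Cqu

section -- Pool.Agent.Helper66_DF.Dfq

/-!
# Squad DF, module DFQ: the quotient by a normal subgroup with a block of defect zero
-/

open scoped BigOperators

set_option linter.unusedSectionVars false

noncomputable section

namespace Pool.Agent.DF

open Pool.Agent.Helper51_AWC Pool.Agent.Helper79_WRA Pool.Agent.PP

section dfq

variable {F G : Type} [Field F] [Group G] [Finite G] {N : Subgroup G} [N.Normal] {n : ℕ}

/-- the value at a conjugated element -/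
theorem ev_conjN (α : G →* Matrix (Fin n) (Fin n) F) (a : N → F) (p : G) :
    ev (α.comp N.subtype) (fun x => a (MulAut.conjNormal p⁻¹ x)) =
      α p * ev (α.comp N.subtype) a * α p⁻¹ := by
  have := Fintype.ofFinite N
  unfold ev
  rw [finsum_eq_sum_of_fintype, finsum_eq_sum_of_fintype, Finset.mul_sum, Finset.sum_mul,
    ← Equiv.sum_comp (MulAut.conjNormal p⁻¹ : MulAut N).toEquiv
      (fun t : N => α p * (a t • (α.comp N.subtype) t) * α p⁻¹)]
  refine Finset.sum_congr rfl fun t _ => ?_
  have e1 : ((MulAut.conjNormal p⁻¹ : MulAut N).toEquiv t : N) = MulAut.conjNormal p⁻¹ t := rfl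
  have e2 : (α.comp N.subtype) (MulAut.conjNormal p⁻¹ t) = α p⁻¹ * α t * α p := by
    rw [MonoidHom.comp_apply, Subgroup.coe_subtype, MulAut.conjNormal_apply, inv_inv, map_mul,
      map_mul]
  have e3 : α p * α p⁻¹ = 1 := by rw [← map_mul, mul_inv_cancel, map_one]
  rw [e1, mul_smul_comm, smul_mul_assoc, e2]
  congr 1
  calc (α.comp N.subtype) t = 1 * α t * 1 := by rw [one_mul, mul_one]; rfl
    _ = (α p * α p⁻¹) * α t * (α p * α p⁻¹) := by rw [e3]
    _ = _ := by simp only [mul_assoc]

/-- the statement DFQ -/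
theorem dfq (hm : MatStmt) : DfqStmt := by
  classical
  intro ℓ F _ hF G _ _ N _ b e n α hNB hρ hρb he heb f hf P hP ⟨x, hx, hfx⟩
  have : Fact ℓ.Prime := ⟨hF.prime⟩
  have := hF.char
  have := Fintype.ofFinite N
  obtain ⟨hPp, -, h₀, hh₀N, hh₀C, hbh₀⟩ := hP
  by_contra hcon
  push Not at hcon
  obtain ⟨-, hbcl, -, hDZ⟩ := hNB
  have hker : ∀ a a' : N → F, ev (α.comp N.subtype) a = ev (α.comp N.subtype) a' →
      mulF a (fun x : N => b x) = mulF a' (fun x : N => b x) := by
    intro a a' h
    have h1 := (hm ℓ F hF N (fun x : N => b x) hDZ).2.1 n (α.comp N.subtype) hρ hρb (a - a')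
      (by rw [H18.ev_sub, h, sub_self])
    have h2 : ma (mulF (a - a') (fun x : N => b x)) = ma (0 : N → F) := by rw [h1]
    rw [ma_mul, ma_sub, sub_mul, ma_zero, ← ma_mul, ← ma_mul, sub_eq_zero] at h2
    exact ma_injective h2
  have hker0 : ∀ a : N → F, ev (α.comp N.subtype) a = 0 → mulF a (fun x : N => b x) = 0 :=
    (hm ℓ F hF N (fun x : N => b x) hDZ).2.1 n (α.comp N.subtype) hρ hρb
  obtain ⟨g, rfl⟩ := QuotientGroup.mk'_surjective N x
  choose c hc using fun y : G => H18.ev_surj hρ (e y • α y)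
  have hbφ : ∀ (p : G) (h : N), b (MulAut.conjNormal p⁻¹ h : N) = b h := by
    intro p h
    rw [MulAut.conjNormal_apply]
    exact hbcl _ _
  -- equivariance
  have hconj : ∀ (p y : G) (h : N), mulF (c (p * y * p⁻¹)) (fun x : N => b x) h =
      mulF (c y) (fun x : N => b x) (MulAut.conjNormal p⁻¹ h) := by
    intro p y h
    have h1 : ev (α.comp N.subtype) (c (p * y * p⁻¹)) =
        ev (α.comp N.subtype) (fun x => c y (MulAut.conjNormal p⁻¹ x)) := by
      rw [ev_conjN, hc, hc, he.1, mul_smul_comm, smul_mul_assoc, map_mul, map_mul]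
    rw [hker _ _ h1]
    have h2 := H18.mulF_aut (c y) (fun x : N => b x) (MulAut.conjNormal p⁻¹ : MulAut N)
    have h3 : (fun x : N => b (MulAut.conjNormal p⁻¹ x : N)) = fun x : N => b x :=
      funext fun x => hbφ p x
    rw [h3] at h2
    rw [h2]
  -- the total sum
  have htot : ∑ k : N, mulF (c (g * k)) (fun x : N => b x) =
      f (g : G ⧸ N) • fun x : N => b x := by
    have h1 : ev (α.comp N.subtype) (∑ k : N, c (g * k)) =
        ev (α.comp N.subtype) (f (g : G ⧸ N) • fun x : N => b x) := by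
      rw [ev_smul, hρb, ev_eq, ma_sum, map_sum]
      have h2 := hf g
      rw [finsum_eq_sum_of_fintype] at h2
      rw [Matrix.smul_one_eq_diagonal, ← Matrix.scalar_apply]
      rw [← h2]
      refine Finset.sum_congr rfl fun k _ => ?_
      rw [← ev_eq, hc]
    have h2 := hker _ _ h1
    have h3 : mulF (f (g : G ⧸ N) • fun x : N => b x) (fun x : N => b x) =
        f (g : G ⧸ N) • fun x : N => b x := by
      apply ma_injective
      rw [ma_mul, ma_smul, smul_mul_assoc, ← ma_mul, hDZ.1.1.2]
    rw [h3] at h2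
    rw [← h2]
    apply ma_injective
    rw [ma_sum, ma_mul, ma_sum, Finset.sum_mul]
    exact Finset.sum_congr rfl fun k _ => ma_mul _ _
  -- the action of `P`
  have hmem : ∀ (p : P) (k : N), g⁻¹ * (p * (g * k) * (p : G)⁻¹) ∈ N := by
    intro p k
    have h1 : (QuotientGroup.mk' N) (p : G) * (QuotientGroup.mk' N) g =
        (QuotientGroup.mk' N) g * (QuotientGroup.mk' N) (p : G) :=
      Subgroup.mem_centralizer_iff.1 hx _ ⟨p, p.2, rfl⟩
    have h2 : (QuotientGroup.mk' N) (g⁻¹ * (p * (g * k) * (p : G)⁻¹)) = 1 := by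
      have h3 : (QuotientGroup.mk' N) (k : G) = 1 := (QuotientGroup.eq_one_iff _).2 k.2
      rw [map_mul, map_mul, map_mul, map_mul, h3, mul_one, h1, map_inv, map_inv]
      group
    exact (QuotientGroup.eq_one_iff _).1 h2
  let _ : MulAction P N :=
    { smul := fun p k => ⟨g⁻¹ * (p * (g * k) * (p : G)⁻¹), hmem p k⟩
      one_smul := fun k => Subtype.ext (by
        change g⁻¹ * (((1 : P) : G) * (g * k) * ((1 : P) : G)⁻¹) = k
        rw [Subgroup.coe_one]
        group)
      mul_smul := fun p q k => Subtype.ext (by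
        change g⁻¹ * (((p * q : P) : G) * (g * k) * ((p * q : P) : G)⁻¹) =
          g⁻¹ * (p * (g * (g⁻¹ * (q * (g * k) * (q : G)⁻¹))) * (p : G)⁻¹)
        rw [Subgroup.coe_mul]
        group) }
  have hsm : ∀ (p : P) (k : N), (g * (p • k : N) : G) = p * (g * k) * (p : G)⁻¹ := by
    intro p k
    change g * (g⁻¹ * (p * (g * k) * (p : G)⁻¹)) = _
    group
  have hV : ∀ v : F, ℓ • v = 0 := fun v => by rw [nsmul_eq_mul, CharP.cast_eq_zero, zero_mul]
  have h1 := H74.orbit_sum (R := P) hPp hV
    (fun k : N => mulF (c (g * k)) (fun x : N => b x) ⟨h₀, hh₀N⟩) (by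
      intro p k
      rw [hsm, hconj]
      congr 1
      apply Subtype.ext
      rw [MulAut.conjNormal_apply]
      have h2 := Subgroup.mem_centralizer_iff.1 hh₀C p p.2
      change (p : G)⁻¹ * h₀ * (p : G)⁻¹⁻¹ = h₀
      rw [inv_inv, mul_assoc, ← h2]
      group)
  have h2 : ∑ k : N, mulF (c (g * k)) (fun x : N => b x) ⟨h₀, hh₀N⟩ = f (g : G ⧸ N) * b h₀ := by
    have h3 := congrFun htot ⟨h₀, hh₀N⟩
    rw [Finset.sum_apply] at h3
    exact h3
  rw [h2, Finset.sum_eq_zero] at h1
  · rcases mul_eq_zero.1 h1 with h4 | h4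
    · exact hfx h4
    · exact hbh₀ h4
  · intro k hk
    have hk1 := (Finset.mem_filter.1 hk).2
    have h3 : e (g * k) = 0 := by
      refine hcon _ (Subgroup.mem_centralizer_iff.2 fun p hp => ?_)
      have h4 := hsm ⟨p, hp⟩ k
      rw [hk1 ⟨p, hp⟩] at h4
      rw [h4]
      change p * (p * (g * k) * p⁻¹) = p * (g * k) * p⁻¹ * p
      rw [inv_mul_cancel_right, ← h4]
    have h4 := hker0 (c (g * k)) (by rw [hc, h3, zero_smul])
    rw [h4]
    rfl

end dfq

theorem dfq_ : DfqStmt := dfq H20.matS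

end Pool.Agent.DF
end
end -- Pool.Agent.Helper66_DF.Dfq

section -- Pool.Agent.Helper66_KF.FinKF

/-!
# Squad KF: the final theorem
-/

open scoped BigOperators

noncomputable section

namespace Pool.Agent.PP.KF

open Pool.Agent.Helper51_AWC Pool.Agent.Helper79_WRA Pool.Agent.PP

theorem v4_subCl : DF.SubCl V4 := by
  rintro Q R _ _ j hj ⟨i, hi⟩
  exact ⟨i.comp j, hi.comp hj⟩

/-- the final theorem for Klein four defect groups -/
theorem finKF (relq : DF.RelQEStmt) (fst : DF.FstStmt) (gq4 : Gq4Stmt) :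
    ∀ (M : Ideal (integralClosure ℤ ℂ)) [M.IsMaximal],
      (2 : integralClosure ℤ ℂ) ∈ M → ∀ (G : Type) [Group G] [Finite G],
      opCore 2 G ≤ Subgroup.center G → ∀ N : Subgroup G, N.Normal →
      ∀ χ ∈ Irr G, ∀ ψ ∈ Irr N, (∑ᶠ n : N, χ n * starRingEnd ℂ (ψ n)) ≠ 0 →
        LargeDefect 2 M ψ →
        (∃ (x : N) (P : Subgroup N), ¬ Cong M (omega (MonoidHom.id N) ψ x) 0 ∧
          P ≤ Subgroup.centralizer ({x} : Set N) ∧ IsPGroup 2 P ∧
          ¬ 2 ∣ P.relIndex (Subgroup.centralizer ({x} : Set N)) ∧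
          ∃ f : P →* Multiplicative (ZMod 2) × Multiplicative (ZMod 2),
            ∀ u : P, f u = 1 ↔ (u : N) ∈ opCore 2 N) →
        altSum 2 M χ = 0 := by
  intro M _ hM G _ _ hc N hN χ hχ ψ hψ hχψ hL hS
  obtain ⟨x, P, hx, hPC, hPp, hPi, f, hf⟩ := hS
  have hM' : ((2 : ℕ) : integralClosure ℤ ℂ) ∈ M := by exact_mod_cast hM
  have hfact : Fact (Nat.Prime 2) := ⟨Nat.prime_two⟩
  have hn := H75.opCore_normal (A := G) 2
  refine DF.finI relq fst Nat.prime_two hM' v4_subCl hc hN ?_ hχ hψ hχψ hL
    ⟨x, P, fun h1 => hx ?_, hPC, hPp, hPi, _, inferInstance, f, ⟨MonoidHom.id _,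
      Function.injective_id⟩, hf⟩
  · intro S _ _ _ _ _ D _ _ _ _ _ _ e he _ hpos hdf
    exact gq4 M hM D e he hpos hdf
  · have hint : IsIntegral ℤ (omega (MonoidHom.id N) ψ x) :=
      Pool.Agent.Helper51_AWC.omega_integral _ hψ x
    rw [← Pool.Agent.Helper79_WRA.red_eq_iff hint isIntegral_zero, h1,
      Pool.Agent.Helper79_WRA.red_zero]

end Pool.Agent.PP.KF
end
end -- Pool.Agent.Helper66_KF.FinKF

section -- Pool.Agent.Helper99_KF.Gq4

/-!
# Squad KF, row GQ4: the hypothesis of the reduction theorem for the class `V4`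
-/

open scoped BigOperators

noncomputable section

namespace Pool.Agent.PP.KF.H99

open Pool.Agent.Helper51_AWC Pool.Agent.Helper79_WRA Pool.Agent.PP

attribute [local instance] Ideal.Quotient.field

/-- a group which embeds into the Klein four group and has not four elements is cyclic -/
theorem cyc_of_V4 {Q : Type} [Group Q] (h : V4 Q) (h4 : Nat.card Q ≠ 4) : IsCyclic Q := by
  obtain ⟨j, hj⟩ := h
  have h1 : Nat.card (Multiplicative (ZMod 2) × Multiplicative (ZMod 2)) = 4 := by
    rw [Nat.card_prod, show Nat.card (Multiplicative (ZMod 2)) = Nat.card (ZMod 2) from rfl,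
      Nat.card_zmod]
  have h2 : Nat.card Q ∣ 4 := h1 ▸ Subgroup.card_dvd_of_injective j hj
  have : Finite Q := Finite.of_injective j hj
  have h3 : Nat.card Q ≤ 4 := Nat.le_of_dvd (by norm_num) h2
  have h5 : 0 < Nat.card Q := Nat.card_pos
  interval_cases h6 : Nat.card Q
  · have := (Nat.card_eq_one_iff_unique.1 h6).1
    exact isCyclic_of_subsingleton
  · exact isCyclic_of_prime_card h6
  · norm_num at h2
  · exact absurd rfl h4

/-- GQ4 -/
theorem gq4 (hC : Ct4Stmt) (hD : CD2.D2aStmt) (hA : AddStmt) : Gq4Stmt := by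
  intro M _ h2M G _ _ e he hp hdf
  have hF : GoodF 2 (FF M) := H50.fld 2 Nat.prime_two M (by exact_mod_cast h2M)
  have : Fact (Nat.Prime 2) := ⟨Nat.prime_two⟩
  refine hA 2 (FF M) hF G ⊤ inferInstance e he fun f hf hef => ?_
  have hfe : mulF f e = f := by rw [H46.mulF_comm hf.1.1, hef]
  have hpf : Pos 2 f ⊤ := H46.pos_mono hf.1 hfe hp
  have hdf' : DF.DfE 2 V4 f ⊤ := DF.DfE.le hF he.1 hf.1.1 hef hdf
  by_cases hV : ∃ V : Subgroup G, Nat.card V = 4 ∧ ∃ g ∈ Subgroup.centralizer (V : Set G), f g ≠ 0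
  · exact hC M h2M G f ⟨hf, hdf', hV⟩
  · refine hD 2 (FF M) hF G ⊤ inferInstance f hf.1 hpf
      ⟨f, hf.1, fun x hx => absurd (Subgroup.mem_top x) hx, hf.1.2, fun Q hQ hQp hbr => ?_⟩
    have h1 : ∃ g ∈ Subgroup.centralizer (Q : Set G), f g ≠ 0 := by
      by_contra hcon
      push Not at hcon
      apply hbr
      funext t
      by_cases ht : t ∈ Subgroup.centralizer (Q : Set G)
      · rw [H66.br_of_mem ht]
        exact hcon t ht
      · rw [H66.br_of_not_mem ht]
        rfl
    exact cyc_of_V4 (hdf' Q hQ hQp h1) fun h4 => hV ⟨Q, h4, h1⟩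

end Pool.Agent.PP.KF.H99
end
end -- Pool.Agent.Helper99_KF.Gq4

section -- Pool.Agent.Helper66_KF.AsmKF

/-!
# Squad KF: assembly
-/

open scoped BigOperators

set_option linter.unusedSectionVars false

noncomputable section

namespace Pool.Agent.PP.KF

open Pool.Agent.Helper51_AWC Pool.Agent.Helper79_WRA Pool.Agent.PP

section asm

theorem lin_ : LinStmt := H60.lin H48.trm H25.idm

theorem sqa_ : SqaStmt := H71.sqa H48.trm H25.idm trc

theorem sqb_ : SqbStmt := H92.sqb H48.trm H25.idm trc

theorem omc_ : OmcStmt := H65.omc H25.idm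

theorem lk_ : LkStmt :=
  H92.lk H30.mul_ sqa_ sqb_ lin_ omc_ H60.hgt trc

theorem st1_ : St1Stmt := H32.st1 H4.cqu H32.cdz lin_ H60.hgt

theorem k4_ : K4Stmt := H69.k4 st1_ (H97.st2 lk_ lin_) lk_

theorem idn_ : IdnStmt := H99.idn k4_ H55.fm4

theorem ct4_ : Ct4Stmt :=
  H56.ct4 idn_ (H24.du4 D1.H9.inv) (PP.H97.knr H63.smt H20.brm H94.nch H20.nls)

theorem gq4_ : Gq4Stmt :=
  H99.gq4 ct4_ CD2.Asm.d2a_ H9.addStmt

theorem fst_ : DF.FstStmt := DF.H43.fst D1.H9.inv

end asm

end Pool.Agent.PP.KF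
end
end -- Pool.Agent.Helper66_KF.AsmKF
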