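import Pool.Agent.Helper12_AWB.B062
import Pool.Agent.Helper12_AWB.B120
import Pool.Agent.Helper12_AWB.B132
import Pool.Agent.Helper12_AWB.B136
import Pool.Agent.Helper12_AWB.B140
import Pool.Agent.Helper12_AWB.B252

/-!
# Merged copies (generated) of the modules

* `Pool.Agent.Helper38_AT3.POS`
* `Pool.Agent.Helper3_AT8.T8A`
* `Pool.Agent.Helper82_C2.Ext`
* `Pool.Agent.Helper82_C2.Cnt`
* `Pool.Agent.Helper82_C2.NRM`
* `Pool.Agent.ATP.Defs`
* `Pool.Agent.ATP.Stmts`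
* `Pool.Agent.Helper43_AT5.T5A`
* `Pool.Agent.Helper86_AT5.ORS`
* `Pool.Agent.Helper39_ATP.ZCF`
* `Pool.Agent.Helper43_ATP.TPA`
-/

set_option autoImplicit false

section -- Pool.Agent.Helper38_AT3.POS

open scoped BigOperators

noncomputable section

namespace Pool.Agent.PP.T3.H38

open Pool.Agent.Helper51_AWC Pool.Agent.Helper79_WRA Pool.Agent.PP Pool.Agent.PP.KF
open Pool.Agent.PP.K9 Pool.Agent.PP.K9.H97 Pool.Agent.PP.H75 Pool.Agent.PP.T3

attribute [local instance] Ideal.Quotient.field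

/-- class sums with centraliser of order prime to `ℓ` are nilpotent on a block with a good
nontrivial `ℓ`-subgroup -/
theorem nil_of_good' {F : Type} [Field F] {K : Type} [Group K] [Finite K] {ℓ : ℕ}
    [Fact ℓ.Prime] (hF : GoodF ℓ F) {γ : K → F} (hγ : IsBlk γ)
    {R : Subgroup K} (hRp : IsPGroup ℓ R) (hR : ℓ ∣ Nat.card R) (hg : Gd γ R) {x : K}
    (hx : ¬ ℓ ∣ Nat.card (Subgroup.centralizer ({x} : Set K))) :
    ∃ n : ℕ, (mulF (clsum F ⊤ x))^[n] γ = 0 := by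
  rcases H50.blk_dich hγ (H50.isCl_clsum (F := F) x) with h | ⟨c, hc, h⟩
  · exact h
  exfalso
  have h1 : br R (clsum F ⊤ x) = (0 : K → F) := by
    funext t
    by_cases ht : t ∈ Subgroup.centralizer (R : Set K)
    · rw [H66.br_of_mem ht]
      unfold clsum
      rw [if_neg]
      · rfl
      rintro ⟨q, _, rfl⟩
      apply hx
      have h2 : conjS q⁻¹ R ≤ Subgroup.centralizer ({x} : Set K) := by
        intro y hy
        rw [mem_conjS] at hy
        have h3 := Subgroup.mem_centralizer_iff.1 ht _ hy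
        rw [Subgroup.mem_centralizer_singleton_iff]
        have h4 : q⁻¹ * (q⁻¹⁻¹ * y * q⁻¹ * (q * x * q⁻¹)) * q = q⁻¹ * (q * x * q⁻¹ * (q⁻¹⁻¹ * y * q⁻¹)) * q := by
          rw [h3]
        have h5 : q⁻¹ * (q⁻¹⁻¹ * y * q⁻¹ * (q * x * q⁻¹)) * q = y * x := by group
        have h6 : q⁻¹ * (q * x * q⁻¹ * (q⁻¹⁻¹ * y * q⁻¹)) * q = x * y := by group
        rw [h5, h6] at h4
        exact h4
      have h3 := Subgroup.card_dvd_of_le h2
      rw [card_conjS] at h3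
      exact hR.trans h3
    · exact H66.br_of_not_mem ht
  have h2 : IsCl (clsum F ⊤ x) := H50.isCl_clsum x
  have h3 : br R (mulF (mulF c (clsum F ⊤ x)) γ) = (0 : K → F) := by
    rw [H66.br_mulF hF hRp (H66.IsCl.inv (H50.isCl_mulF hc h2) R) (H66.IsCl.inv hγ.1.1 R),
      H66.br_mulF hF hRp (H66.IsCl.inv hc R) (H66.IsCl.inv h2 R), h1,
      PP.H75.mulF_zero_right, PP.H75.mulF_zero_left]
  rw [h] at h3
  obtain ⟨t, ht, ht2⟩ := hg
  apply ht2
  rw [← H66.br_of_mem (a := γ) ht, h3]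
  rfl

theorem pos : PosStmt := by
  intro ℓ hℓ F _ hF G _ _ e he V hV hV1 hg x _ hx
  rw [inf_top_eq] at hx
  refine nil_of_good' hF he hV ?_ hg hx
  obtain ⟨n, hn⟩ := (IsPGroup.iff_card).1 hV
  rcases Nat.eq_zero_or_pos n with h0 | h0
  · rw [h0, pow_zero] at hn
    exact absurd (Subgroup.card_eq_one.1 hn) hV1
  · rw [hn]
    exact dvd_pow_self ℓ h0.ne'

end Pool.Agent.PP.T3.H38
end
end -- Pool.Agent.Helper38_AT3.POS

section -- Pool.Agent.Helper3_AT8.T8A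

/-!
# Squad AT8, row T8A: the main theorem for block idempotents
-/

open scoped BigOperators

noncomputable section

namespace Pool.Agent.PP.T8.H3

open Pool.Agent.Helper51_AWC Pool.Agent.Helper79_WRA Pool.Agent.PP Pool.Agent.PP.KF
open Pool.Agent.PP.K9 Pool.Agent.PP.K9.H97 Pool.Agent.PP.H75 Pool.Agent.PP.T3 Pool.Agent.PP.T2

attribute [local instance] Ideal.Quotient.field

theorem ty8_pos {F G : Type} [Group G] {ℓ a : ℕ} {V : Subgroup G} {γ : G → F}
    (h : Ty8 ℓ a V γ) : 0 < a ∧ Monoid.exponent V = ℓ ^ a := by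
  rcases h with ⟨k, h⟩ | h | h
  · exact ⟨h.pos.trans_le h.le, h.exp⟩
  · exact ⟨by have := h.le; omega, h.exp⟩
  · exact ⟨h.pos, h.exp⟩

theorem t8a (hTC : Tc8Stmt) (hFQ : FqtStmt) (hFST : T2.FstStmt) (hTS : Ts8Stmt)
    (hLT : Lt8Stmt) (hDVX : T2.DvxStmt) : T8aStmt := by
  intro ℓ hℓ M _ hM hℓ2 a
  have hF : GoodF ℓ (FF M) := H50.fld ℓ Fact.out M hM
  suffices hmain : ∀ n : ℕ, ∀ (G : Type) [Group G] [Finite G], Nat.card G = n →
      ∀ (e : G → FF M) (V : Subgroup G) (γ : G → FF M), Ld ℓ e V γ → Ty8 ℓ a V γ →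
      YY ℓ ⊤ e = 0 by
    intro G _ _ e V γ h1 h2
    exact hmain _ G rfl e V γ h1 h2
  intro n
  induction n using Nat.strong_induction_on with
  | _ n ih =>
  intro G _ _ hn e V γ hL hT
  obtain ⟨ha, hexp⟩ := ty8_pos hT
  by_cases hO : opCore ℓ G = ⊥
  swap
  · exact H96.yzr ℓ (FF M) hℓ.out G ⊤ inferInstance (opCore_top_ne rfl hO) e
  have hix : ¬ ℓ ∣ ix V γ :=
    K9.H34.inx ℓ M hM G e hL.blk V hL.tp hL.ab γ hL.gam.supp hL.gam.blk hL.und
  have hIq : Iq M ℓ a (Nat.card G) V γ := by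
    intro A _ _ hA f V' γ' hL' he hπ
    exact ih (Nat.card A) (hn ▸ hA) A rfl f V' γ' hL'
      (hTC ℓ (FF M) hF G A e V γ f V' γ' hL hL' hix a hT he hπ)
  obtain ⟨f, hf⟩ := hFST ℓ M hM G e V γ hL (ℓ ^ (a - 1))
  have h1 := hTS ℓ M hM G e V γ hL a ha hexp _ rfl f hf hIq
  set U : Subgroup G := Uw (ℓ ^ (a - 1)) V with hU
  have hVX : V ≤ Subgroup.normalizer (U : Set G) := Subgroup.le_normalizer.trans hf.nle
  have eV : V.subgroupOf (Subgroup.normalizer (U : Set G)) ≃* V :=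
    Subgroup.subgroupOfEquivOfLe hVX
  have hfq := (hFQ ℓ (FF M) hF G e V γ hL).2.2.1 U f hf
  have hT' : Ty8 ℓ a (V.subgroupOf (Subgroup.normalizer (U : Set G)))
      (fun t : Subgroup.normalizer (U : Set G) => γ t) := by
    refine hTC ℓ (FF M) hF G _ e V γ _ _ _ hL hf.ld hix a hT ?_ hfq
    rw [← hexp]
    exact Monoid.exponent_eq_of_mulEquiv eV
  have h2 := hLT ℓ M hM hℓ2 G e V γ hL a hT
  have h3 := hLT ℓ M hM hℓ2 _ _ _ _ hf.ld a hT'
  obtain ⟨a1, -⟩ := K9.H3.lbd ℓ M hM G e hL.blk.1 hL.blk.2.1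
  obtain ⟨b1, -⟩ := K9.H3.lbd ℓ M hM _ _ hf.ld.blk.1 hf.ld.blk.2.1
  have a2 : 1 ≤ ln e := a1
  have b2 : 1 ≤ ln (fun t : Subgroup.normalizer (U : Set G) => f t) := b1
  obtain ⟨z, hz⟩ : ∃ z : V, orderOf z = Monoid.exponent V := by
    let _ : CommGroup V := { (inferInstance : Group V) with
      mul_comm := fun x y => Subtype.ext (hL.ab x x.2 y y.2) }
    exact Monoid.exists_orderOf_eq_exponent (Monoid.ExponentExists.of_finite)
  have hz' : orderOf (z : G) = ℓ ^ a := by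
    rw [← hexp, ← hz, Subgroup.orderOf_coe]
  have hV : V ≠ ⊥ := by
    intro hb
    have h5 : (z : G) = 1 := Subgroup.mem_bot.1 (hb ▸ z.2 : (z : G) ∈ (⊥ : Subgroup G))
    rw [h5, orderOf_one] at hz'
    have h6 : 1 < ℓ ^ a := Nat.one_lt_pow ha.ne' hℓ.out.one_lt
    omega
  obtain ⟨χ, hχ, r1, -, r3⟩ := H75.block_case H20.nls H20.brm H63.smt H94.nch
    (H50.dic H20.ibn H20.nls H20.brm) H50.bid H50.chp H50.ldp H50.fld hℓ.out hM hO hL.blk
    (T3.H38.pos ℓ (FF M) hF G e hL.blk V hL.tp.pg hV hL.tp.gd)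
  have h4 := hDVX ℓ M hM G hO e V γ hL hV χ hχ r1 z z.2
  rw [hz'] at h4
  rw [h1] at r3
  have h7 : (Nat.card G : ℤ) ≠ 0 := by exact_mod_cast Nat.card_pos.ne'
  have h8 := mul_left_cancel₀ h7 r3
  have h9 : (ln e : ℤ) - ln (fun t : Subgroup.normalizer (U : Set G) => f t) = 0 := by
    rw [h8] at h4
    refine Int.eq_zero_of_abs_lt_dvd h4 ?_
    rw [abs_lt]
    push_cast
    have h2' : (ln e : ℤ) ≤ (ℓ : ℤ) ^ a := by exact_mod_cast h2
    have h3' : (ln (fun t : Subgroup.normalizer (U : Set G) => f t) : ℤ) ≤ (ℓ : ℤ) ^ a := by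
      exact_mod_cast h3
    have a2' : (1 : ℤ) ≤ (ln e : ℤ) := by exact_mod_cast a2
    have b2' : (1 : ℤ) ≤ (ln (fun t : Subgroup.normalizer (U : Set G) => f t) : ℤ) := by
      exact_mod_cast b2
    constructor <;> linarith
  rw [h1, h9, mul_zero]

end Pool.Agent.PP.T8.H3
end
end -- Pool.Agent.Helper3_AT8.T8A

section -- Pool.Agent.Helper82_C2.Ext

/-!
# Squad C2, row NRM, part 1: extension of a stable representation to a cyclic extension
-/

open scoped BigOperators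

set_option linter.unusedSectionVars false

noncomputable section

namespace Pool.Agent.PP.C2.H82

open Pool.Agent.Helper51_AWC Pool.Agent.Helper79_WRA Pool.Agent.PP Pool.Agent.PP.KF
open Pool.Agent.PP.K9

section ext

variable {F : Type} [Field F] {S : Type} [Group S] {C : Subgroup S} {n : ℕ}

/-- conjugation by `g` on the normal subgroup `C` -/
def cn (hC : C.Normal) (g : S) (c : C) : C := ⟨g * c * g⁻¹, hC.conj_mem c c.2 g⟩

/-- powers of an intertwiner -/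
theorem pow_move (hC : C.Normal) (σ : C →* Matrix (Fin n) (Fin n) F) {t : S}
    {X : Matrix (Fin n) (Fin n) F} (hX : ∀ c : C, X * σ c = σ (cn hC t c) * X) (j : ℕ) (c : C) :
    X ^ j * σ c = σ (cn hC (t ^ j) c) * X ^ j := by
  induction j generalizing c with
  | zero =>
    have e : cn hC (t ^ 0) c = c := Subtype.ext (by simp [cn])
    rw [e, pow_zero, Matrix.one_mul, Matrix.mul_one]
  | succ j ih =>
    have e : cn hC (t ^ (j + 1)) c = cn hC (t ^ j) (cn hC t c) := by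
      apply Subtype.ext
      change t ^ (j + 1) * (c : S) * (t ^ (j + 1))⁻¹ = t ^ j * (t * c * t⁻¹) * (t ^ j)⁻¹
      rw [pow_succ]
      group
    rw [pow_succ, Matrix.mul_assoc, hX, ← Matrix.mul_assoc, ih, Matrix.mul_assoc, e]

theorem key (hC : C.Normal) (σ : C →* Matrix (Fin n) (Fin n) F) {t : S}
    {X : Matrix (Fin n) (Fin n) F} {s : ℕ} (hs : ∀ j : ℕ, t ^ j ∈ C ↔ s ∣ j)
    (hts : t ^ s ∈ C) (hXs : X ^ s = σ ⟨t ^ s, hts⟩) (i j : ℕ) (c c' : C) (hij : j ≤ i)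
    (h : t ^ i * (c : S) = t ^ j * c') : X ^ i * σ c = X ^ j * σ c' := by
  obtain ⟨d, rfl⟩ := Nat.exists_eq_add_of_le hij
  have h1 : t ^ d * (c : S) = c' := by
    rw [pow_add, mul_assoc] at h
    exact mul_left_cancel h
  have h2 : t ^ d ∈ C := by
    have : t ^ d = (c' : S) * (c : S)⁻¹ := by rw [← h1, mul_inv_cancel_right]
    rw [this]
    exact C.mul_mem c'.2 (C.inv_mem c.2)
  obtain ⟨k, rfl⟩ := (hs d).1 h2
  have h3 : X ^ (s * k) = σ (⟨t ^ s, hts⟩ ^ k) := by rw [pow_mul, hXs, map_pow]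
  have h4 : (⟨t ^ s, hts⟩ ^ k * c : C) = c' := by
    apply Subtype.ext
    change (t ^ s) ^ k * (c : S) = c'
    rw [← pow_mul]
    exact h1
  rw [pow_add, h3, Matrix.mul_assoc, ← map_mul, h4]

theorem exists_ext (hC : C.Normal) (σ : C →* Matrix (Fin n) (Fin n) F) {t : S}
    (hgen : ∀ g : S, ∃ (k : ℕ) (c : C), g = t ^ k * c)
    {X : Matrix (Fin n) (Fin n) F} (hX : ∀ c : C, X * σ c = σ (cn hC t c) * X)
    {s : ℕ} (hs : ∀ j : ℕ, t ^ j ∈ C ↔ s ∣ j)
    (hts : t ^ s ∈ C) (hXs : X ^ s = σ ⟨t ^ s, hts⟩) :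
    ∃ ρ : S →* Matrix (Fin n) (Fin n) F, (∀ c : C, ρ c = σ c) ∧ ρ t = X := by
  have key' : ∀ (i j : ℕ) (c c' : C), t ^ i * (c : S) = t ^ j * c' →
      X ^ i * σ c = X ^ j * σ c' := by
    intro i j c c' h
    rcases le_total j i with hij | hij
    · exact key hC σ hs hts hXs i j c c' hij h
    · exact (key hC σ hs hts hXs j i c' c hij h.symm).symm
  choose k c hkc using hgen
  have hval : ∀ (i : ℕ) (d : C), X ^ k (t ^ i * d) * σ (c (t ^ i * d)) = X ^ i * σ d :=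
    fun i d => key' _ _ _ _ (hkc (t ^ i * d)).symm
  let ρ : S →* Matrix (Fin n) (Fin n) F :=
    { toFun := fun g => X ^ k g * σ (c g)
      map_one' := by
        have h1 := hval 0 1
        have e : t ^ 0 * ((1 : C) : S) = 1 := by simp
        rw [e, pow_zero, map_one, Matrix.mul_one] at h1
        exact h1
      map_mul' := by
        intro a b
        obtain ⟨i, d, rfl⟩ : ∃ (i : ℕ) (d : C), a = t ^ i * d := ⟨k a, c a, hkc a⟩
        obtain ⟨j, d', rfl⟩ : ∃ (j : ℕ) (d : C), b = t ^ j * d := ⟨k b, c b, hkc b⟩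
        rw [hval i d, hval j d']
        have h1 := pow_move hC σ hX j (cn hC (t ^ j)⁻¹ d)
        have e1 : cn hC (t ^ j) (cn hC (t ^ j)⁻¹ d) = d := by
          apply Subtype.ext
          change t ^ j * ((t ^ j)⁻¹ * (d : S) * ((t ^ j)⁻¹)⁻¹) * (t ^ j)⁻¹ = d
          group
        rw [e1] at h1
        have e2 : t ^ i * (d : S) * (t ^ j * d') =
            t ^ (i + j) * ((cn hC (t ^ j)⁻¹ d * d' : C) : S) := by
          change _ = t ^ (i + j) * ((t ^ j)⁻¹ * (d : S) * ((t ^ j)⁻¹)⁻¹ * d')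
          rw [pow_add]
          group
        rw [e2, hval, map_mul, pow_add]
        calc X ^ i * X ^ j * (σ (cn hC (t ^ j)⁻¹ d) * σ d')
            = X ^ i * (X ^ j * σ (cn hC (t ^ j)⁻¹ d)) * σ d' := by
              simp only [Matrix.mul_assoc]
          _ = X ^ i * (σ d * X ^ j) * σ d' := by rw [h1]
          _ = X ^ i * σ d * (X ^ j * σ d') := by simp only [Matrix.mul_assoc] }
  refine ⟨ρ, ?_, ?_⟩
  · intro d
    have h1 := hval 0 d
    have e : t ^ 0 * (d : S) = d := by simp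
    rw [e, pow_zero, Matrix.one_mul] at h1
    exact h1
  · have h1 := hval 1 1
    have e : t ^ 1 * ((1 : C) : S) = t := by simp
    rw [e, pow_one, map_one, Matrix.mul_one] at h1
    exact h1

/-- a matrix which commutes with an irreducible representation is a scalar -/
theorem schur {H : Type} [Group H] {σ : H →* Matrix (Fin n) (Fin n) F} (hσ : IsIrr σ)
    {Z : Matrix (Fin n) (Fin n) F} (hZ : ∀ c, Z * σ c = σ c * Z) :
    ∃ z : F, Z = z • (1 : Matrix (Fin n) (Fin n) F) := by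
  have h1 : ∀ B : Matrix (Fin n) (Fin n) F, Z * B = B * Z := by
    intro B
    have hB : B ∈ Submodule.span F (Set.range σ) := by rw [hσ.2]; trivial
    induction hB using Submodule.span_induction with
    | mem x hx =>
      obtain ⟨c, rfl⟩ := hx
      exact hZ c
    | zero => rw [Matrix.mul_zero, Matrix.zero_mul]
    | add x y _ _ hx hy => rw [Matrix.mul_add, Matrix.add_mul, hx, hy]
    | smul c x _ hx => rw [Matrix.mul_smul, Matrix.smul_mul, hx]
  have h2 : Z ∈ Set.range (Matrix.scalar (Fin n) : F → Matrix (Fin n) (Fin n) F) :=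
    Matrix.mem_range_scalar_of_commute_single (fun i j _ => (h1 _).symm)
  obtain ⟨z, hz⟩ := h2
  exact ⟨z, by rw [← hz, Matrix.smul_one_eq_diagonal]; rfl⟩

/-- the normalised intertwiner -/
theorem exists_X [IsAlgClosed F] (hC : C.Normal) {σ : C →* Matrix (Fin n) (Fin n) F}
    (hσ : IsIrr σ) {t : S} {X₀ Y₀ : Matrix (Fin n) (Fin n) F} (hXY : X₀ * Y₀ = 1)
    (hYX : Y₀ * X₀ = 1) (hX : ∀ c : C, X₀ * σ c = σ (cn hC t c) * X₀) {s : ℕ} (hs : 0 < s)
    (hts : t ^ s ∈ C) : ∃ X : Matrix (Fin n) (Fin n) F,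
      X ≠ 0 ∧ (∀ c : C, X * σ c = σ (cn hC t c) * X) ∧ X ^ s = σ ⟨t ^ s, hts⟩ := by
  obtain ⟨τ, hτ⟩ : ∃ τ : C, τ = ⟨t ^ s, hts⟩ := ⟨_, rfl⟩
  have hconj : ∀ c : C, cn hC (t ^ s) c = τ * c * τ⁻¹ := by
    intro c
    rw [hτ]
    rfl
  have hττ : σ τ * σ τ⁻¹ = 1 := by rw [← map_mul, mul_inv_cancel, map_one]
  have hττ' : σ τ⁻¹ * σ τ = 1 := by rw [← map_mul, inv_mul_cancel, map_one]
  have h1 : ∀ c : C, (σ τ⁻¹ * X₀ ^ s) * σ c = σ c * (σ τ⁻¹ * X₀ ^ s) := by
    intro c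
    rw [Matrix.mul_assoc, pow_move hC σ hX s c, hconj, map_mul, map_mul]
    calc σ τ⁻¹ * (σ τ * σ c * σ τ⁻¹ * X₀ ^ s) = (σ τ⁻¹ * σ τ) * σ c * (σ τ⁻¹ * X₀ ^ s) := by
          simp only [Matrix.mul_assoc]
      _ = σ c * (σ τ⁻¹ * X₀ ^ s) := by rw [hττ', Matrix.one_mul]
  obtain ⟨z, hz⟩ := schur hσ h1
  have h2 : X₀ ^ s = z • σ τ := by
    have e : X₀ ^ s = σ τ * (σ τ⁻¹ * X₀ ^ s) := by
      rw [← Matrix.mul_assoc, hττ, Matrix.one_mul]
    rw [e, hz, Matrix.mul_smul, Matrix.mul_one]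
  have hone : (1 : Matrix (Fin n) (Fin n) F) ≠ 0 := by
    intro h
    have := congrFun (congrFun h ⟨0, hσ.1⟩) ⟨0, hσ.1⟩
    rw [Matrix.one_apply_eq] at this
    exact one_ne_zero this
  have hz0 : z ≠ 0 := by
    intro h0
    have hpow : X₀ ^ s * Y₀ ^ s = 1 := by
      have hcom : Commute X₀ Y₀ := by
        change X₀ * Y₀ = Y₀ * X₀
        rw [hXY, hYX]
      rw [← hcom.mul_pow, hXY, one_pow]
    rw [h2, h0, zero_smul, Matrix.zero_mul] at hpow
    exact hone hpow.symm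
  obtain ⟨w, hw⟩ := IsAlgClosed.exists_pow_nat_eq z⁻¹ hs
  have hw0 : w ≠ 0 := by
    intro h0
    rw [h0, zero_pow hs.ne'] at hw
    exact inv_ne_zero hz0 hw.symm
  have hX0 : X₀ ≠ 0 := by
    intro h0
    rw [h0, Matrix.zero_mul] at hXY
    exact hone hXY.symm
  refine ⟨w • X₀, smul_ne_zero hw0 hX0, ?_, ?_⟩
  · intro c
    rw [Matrix.smul_mul, hX, Matrix.mul_smul]
  · rw [smul_pow, h2, hw, smul_smul, inv_mul_cancel₀ hz0, one_smul, hτ]

end ext

end Pool.Agent.PP.C2.H82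
end
end -- Pool.Agent.Helper82_C2.Ext

section -- Pool.Agent.Helper82_C2.Cnt

/-!
# Squad C2, row NRM, part 2: the representations over a stable representation
-/

open scoped BigOperators

set_option linter.unusedSectionVars false

noncomputable section

namespace Pool.Agent.PP.C2.H82

open Pool.Agent.Helper51_AWC Pool.Agent.Helper79_WRA Pool.Agent.PP Pool.Agent.PP.KF
open Pool.Agent.PP.K9

section cnt

variable {F : Type} [Field F] {S : Type} [Group S] [Finite S] {C : Subgroup S}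

theorem ord_quot (hC : C.Normal) {t : S} (hgen : ∀ g : S, ∃ k : ℕ, t ^ k * g ∈ C) (j : ℕ) :
    t ^ j ∈ C ↔ C.index ∣ j := by
  have h1 : ∀ x : S ⧸ C, x ∈ Subgroup.zpowers (t : S ⧸ C) := by
    intro x
    obtain ⟨g, rfl⟩ := QuotientGroup.mk_surjective x
    obtain ⟨k, hk⟩ := hgen g⁻¹
    refine ⟨k, ?_⟩
    change (t : S ⧸ C) ^ (k : ℤ) = (g : S ⧸ C)
    rw [zpow_natCast]
    have h2 : ((t ^ k * g⁻¹ : S) : S ⧸ C) = 1 := (QuotientGroup.eq_one_iff _).2 hk
    rw [QuotientGroup.mk_mul, QuotientGroup.mk_pow, QuotientGroup.mk_inv] at h2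
    exact mul_inv_eq_one.1 h2
  have h2 : orderOf (t : S ⧸ C) = C.index := orderOf_eq_card_of_forall_mem_zpowers h1
  rw [← h2, orderOf_dvd_iff_pow_eq_one, ← QuotientGroup.mk_pow, QuotientGroup.eq_one_iff]

theorem trace_ne {n : ℕ} {H : Type} [Group H] {σ : H →* Matrix (Fin n) (Fin n) F} (hσ : IsIrr σ)
    {X : Matrix (Fin n) (Fin n) F} (hX : X ≠ 0) : ∃ c, (X * σ c).trace ≠ 0 := by
  by_contra h
  push Not at h
  apply hX
  rw [Matrix.ext_iff_trace_mul_right]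
  intro B
  have hB : B ∈ Submodule.span F (Set.range σ) := by rw [hσ.2]; trivial
  rw [zero_mul, Matrix.trace_zero]
  induction hB using Submodule.span_induction with
  | mem x hx =>
    obtain ⟨y, rfl⟩ := hx
    exact h y
  | zero => rw [mul_zero, Matrix.trace_zero]
  | add x y _ _ hx hy => rw [mul_add, Matrix.trace_add, hx, hy, add_zero]
  | smul c x _ hx => rw [mul_smul_comm, Matrix.trace_smul, hx, smul_zero]

/-- the conjugate representation -/
def crep' (hC : C.Normal) (t : S) {n : ℕ} (σ : C →* Matrix (Fin n) (Fin n) F) :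
    C →* Matrix (Fin n) (Fin n) F where
  toFun c := σ (cn hC t c)
  map_one' := by
    have e : cn hC t 1 = 1 := Subtype.ext (by simp [cn])
    rw [e, map_one]
  map_mul' := by
    intro a b
    have e : cn hC t (a * b) = cn hC t a * cn hC t b := by
      apply Subtype.ext
      change t * ((a : S) * b) * t⁻¹ = t * a * t⁻¹ * (t * b * t⁻¹)
      group
    rw [e, map_mul]

theorem crep_irr (hC : C.Normal) (t : S) {n : ℕ} {σ : C →* Matrix (Fin n) (Fin n) F}
    (hσ : IsIrr σ) : IsIrr (crep' hC t σ) := by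
  refine ⟨hσ.1, ?_⟩
  have e : Set.range (crep' hC t σ) = Set.range σ := by
    ext x
    constructor
    · rintro ⟨c, rfl⟩
      exact ⟨cn hC t c, rfl⟩
    · rintro ⟨c, rfl⟩
      refine ⟨cn hC t⁻¹ c, ?_⟩
      change σ (cn hC t (cn hC t⁻¹ c)) = σ c
      congr 1
      apply Subtype.ext
      change t * (t⁻¹ * (c : S) * t⁻¹⁻¹) * t⁻¹ = c
      group
  rw [e, hσ.2]

theorem count {ℓ : ℕ} (hF : GoodF ℓ F) (hC : C.Normal) {b : S → F}
    (hsupp : ∀ x, x ∉ C → b x = 0) (hcl : IsCl (fun t : C => b t)) {θ : C → F}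
    (hθ : θ ∈ IBr F C) (hbθ : actF (fun t : C => b t) θ = θ) {t₀ : S}
    (hgen : ∀ g : S, ∃ k : ℕ, t₀ ^ k * g ∈ C) (hst : ∀ c : C, θ (cn hC t₀ c) = θ c)
    (hidx : ¬ ℓ ∣ C.index) : C.index ≤ PP.H75.cnt b := by
  classical
  have := hF.closed
  have := hF.char
  obtain ⟨n, σ, hσ, rfl⟩ := hθ
  obtain ⟨s, hs⟩ : ∃ s, s = C.index := ⟨_, rfl⟩
  have hord : ∀ j : ℕ, t₀ ^ j ∈ C ↔ s ∣ j := by rw [hs]; exact ord_quot hC hgen
  have hs0 : 0 < s := by
    rw [hs]
    exact Nat.pos_of_ne_zero Subgroup.index_ne_zero_of_finite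
  have hts : t₀ ^ s ∈ C := (hord s).2 dvd_rfl
  have hgen' : ∀ g : S, ∃ (k : ℕ) (c : C), g = t₀ ^ k * c := by
    intro g
    obtain ⟨k, hk⟩ := hgen g⁻¹
    have h1 : (t₀ ^ k)⁻¹ * (t₀ ^ k * g⁻¹)⁻¹ * ((t₀ ^ k)⁻¹)⁻¹ ∈ C :=
      hC.conj_mem _ (C.inv_mem hk) _
    exact ⟨k, ⟨_, h1⟩, by group⟩
  obtain ⟨X₀, Y₀, -, hXY, hYX, hX₀⟩ := PP.H20.ibc ℓ F hF C n n σ (crep' hC t₀ σ) hσ
    (crep_irr hC t₀ hσ) (by funext c; exact (hst c).symm)
  obtain ⟨X, hXne, hX, hXs⟩ := exists_X hC hσ hXY hYX hX₀ hs0 hts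
  have hsF : NeZero (s : F) := by
    refine ⟨?_⟩
    rw [Ne, CharP.cast_eq_zero_iff F ℓ, hs]
    exact hidx
  obtain ⟨w, hw⟩ : ∃ w : F, IsPrimitiveRoot w s := HasEnoughRootsOfUnity.exists_primitiveRoot F s
  have hX' : ∀ k : ℕ, (∀ c : C, (w ^ k • X) * σ c = σ (cn hC t₀ c) * (w ^ k • X)) ∧
      (w ^ k • X) ^ s = σ ⟨t₀ ^ s, hts⟩ := by
    intro k
    constructor
    · intro c
      rw [Matrix.smul_mul, hX, Matrix.mul_smul]
    · rw [smul_pow, hXs, ← pow_mul, mul_comm, pow_mul, hw.pow_eq_one, one_pow, one_smul]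
  have hex : ∀ k : ℕ, ∃ ρ : S →* Matrix (Fin n) (Fin n) F, (∀ c : C, ρ c = σ c) ∧
      ρ t₀ = w ^ k • X := fun k => exists_ext hC σ hgen' (hX' k).1 hord hts (hX' k).2
  choose ρ hρC hρt using hex
  have hirr : ∀ k, IsIrr (ρ k) := by
    intro k
    refine ⟨hσ.1, ?_⟩
    rw [eq_top_iff, ← hσ.2]
    apply Submodule.span_mono
    rintro _ ⟨c, rfl⟩
    exact ⟨c, hρC k c⟩
  -- the block acts as the identity
  have hev : ev σ (fun t : C => b t) = 1 := by
    obtain ⟨v, hv1, hv2, -⟩ := PP.H20.eig F C n σ hσ _ hcl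
    have h1 : v = 1 := by
      by_contra hne
      apply PP.H75.tr_ne_zero hσ
      have h2 : (v - 1) • tr σ = 0 := by rw [sub_smul, one_smul, ← hv2, hbθ, sub_self]
      exact (smul_eq_zero.1 h2).resolve_left (sub_ne_zero.2 hne)
    rw [hv1, h1, map_one]
  have hev' : ∀ k, ev (ρ k) b = 1 := by
    intro k
    rw [← hev]
    unfold ev
    rw [PP.H75.sum_sub C _ (fun x hx => by rw [hsupp x hx, zero_smul])]
    apply finsum_congr
    intro c
    rw [hρC]
  obtain ⟨c₀, hc₀⟩ := trace_ne hσ hXne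
  have hinj : Function.Injective (fun k : Fin s => tr (ρ k)) := by
    intro k k' h
    have h1 := congrFun h (t₀ * c₀)
    change (ρ k (t₀ * c₀)).trace = (ρ k' (t₀ * c₀)).trace at h1
    rw [map_mul, map_mul, hρt, hρt, hρC, hρC, Matrix.smul_mul, Matrix.smul_mul,
      Matrix.trace_smul, Matrix.trace_smul, smul_eq_mul, smul_eq_mul] at h1
    have h2 := mul_right_cancel₀ hc₀ h1
    exact Fin.ext (hw.pow_inj k.2 k'.2 h2)
  have hfin : {f : S → F | f ∈ IBr F S ∧ actF b f = f}.Finite :=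
    (PP.H20.ibf ℓ F hF S).1.subset (fun f hf => hf.1)
  have h3 : Set.range (fun k : Fin s => tr (ρ k)) ⊆
      {f : S → F | f ∈ IBr F S ∧ actF b f = f} := by
    rintro _ ⟨k, rfl⟩
    exact ⟨⟨n, ρ k, hirr k, rfl⟩, PP.H75.actF_one (hev' k)⟩
  have h4 := Set.ncard_le_ncard h3 hfin
  have h5 : (Set.range (fun k : Fin s => tr (ρ k))).ncard = s := by
    rw [← Set.image_univ, Set.ncard_image_of_injective _ hinj, Set.ncard_univ, Nat.card_fin]
  rw [h5] at h4
  rw [← hs]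
  exact h4

end cnt

end Pool.Agent.PP.C2.H82
end
end -- Pool.Agent.Helper82_C2.Cnt

section -- Pool.Agent.Helper82_C2.NRM

/-!
# Squad C2, row NRM: lower bound for the number of modular characters of the block of `N(V)`
-/

open scoped BigOperators

set_option linter.unusedSectionVars false

noncomputable section

namespace Pool.Agent.PP.C2.H82

open Pool.Agent.Helper51_AWC Pool.Agent.Helper79_WRA Pool.Agent.PP Pool.Agent.PP.KF
open Pool.Agent.PP.K9

attribute [local instance] Ideal.Quotient.field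

/-- a block of `C(V)` has exactly one irreducible modular character -/
theorem cnt_one (hPsn : PsnStmt) {ℓ : ℕ} [Fact ℓ.Prime] {M : Ideal (integralClosure ℤ ℂ)}
    [M.IsMaximal] (hM : (ℓ : integralClosure ℤ ℂ) ∈ M) {G : Type} [Group G] [Finite G]
    {e : G → FF M} {V : Subgroup G} {γ : G → FF M} {T : Subgroup G} (hI : Inr ℓ e V γ T) :
    PP.H75.cnt (fun t : Subgroup.centralizer (V : Set G) => γ t) = 1 := by
  have hF : GoodF ℓ (FF M) := PP.H50.fld ℓ (Fact.out) M hM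
  have hVA : V ≤ Subgroup.centralizer (V : Set G) := by
    intro v hv
    rw [Subgroup.mem_centralizer_iff]
    exact fun w hw => hI.comm w hw v hv
  obtain ⟨Z, hZ⟩ : ∃ Z : Subgroup (Subgroup.centralizer (V : Set G)),
      Z = V.subgroupOf (Subgroup.centralizer (V : Set G)) := ⟨_, rfl⟩
  have hZc : Z ≤ Subgroup.center (Subgroup.centralizer (V : Set G)) := by
    intro z hz
    rw [hZ, Subgroup.mem_subgroupOf] at hz
    rw [Subgroup.mem_center_iff]
    intro g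
    exact Subtype.ext (Subgroup.mem_centralizer_iff.1 g.2 z hz).symm
  have hZn : Z.Normal := by
    constructor
    intro z hz g
    have h1 : g * z * g⁻¹ = z := by
      rw [Subgroup.mem_center_iff.1 (hZc hz) g, mul_inv_cancel_right]
    rw [h1]
    exact hz
  have hZcard : Nat.card Z = Nat.card V := by
    rw [hZ]
    exact Nat.card_congr (Subgroup.subgroupOfEquivOfLe hVA).toEquiv
  have hZp : IsPGroup ℓ Z := by
    rw [hZ]
    exact hI.tp.pg.comap_subtype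
  obtain ⟨p, hp⟩ : ∃ p : Subgroup.centralizer (V : Set G) →* _ ⧸ Z, p = QuotientGroup.mk' Z :=
    ⟨_, rfl⟩
  have hps : Function.Surjective p := by rw [hp]; exact QuotientGroup.mk'_surjective _
  have hpk : p.ker = Z := by rw [hp]; exact QuotientGroup.ker_mk' _
  obtain ⟨g, hg⟩ : ∃ g : Subgroup.centralizer (V : Set G) → FF M,
      g = fun t : Subgroup.centralizer (V : Set G) => γ t := ⟨_, rfl⟩
  have hgb : IsBlk g := by rw [hg]; exact hI.gam.blk
  have hb' : IsBlk (PP.H75.push p g) :=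
    hPsn ℓ (FF M) hF _ _ p hps (by rw [hpk]; exact hZp) (by rw [hpk]; exact hZc) g hgb
  -- the function `e` on `C(V)`
  obtain ⟨a, ha⟩ : ∃ a : Subgroup.centralizer (V : Set G) → FF M,
      a = fun t : Subgroup.centralizer (V : Set G) => br V e t := ⟨_, rfl⟩
  have hai : IsIdem a := by
    rw [ha]
    exact (PP.H20.brm ℓ (FF M) hF G V (Subgroup.centralizer (V : Set G)) hI.tp.pg le_rfl
      (Subgroup.centralizer_le_normalizer _)).2.2 e hI.blk.1
  have hag : mulF a g = g := by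
    rw [ha, hg, ← PP.H75.mulF_res (Subgroup.centralizer (V : Set G)) γ
      (fun x hx => PP.H66.br_of_not_mem hx), hI.und]
  have hgood : ∀ R : Subgroup (Subgroup.centralizer (V : Set G) ⧸ Z), IsPGroup ℓ R →
      Gd (PP.H75.push p g) R → R = ⊥ := by
    intro R hR hRg
    have hk : IsPGroup ℓ p.ker := by rw [hpk]; exact hZp
    have k1 : p.ker ≤ R.comap p := by
      intro x hx
      rw [MonoidHom.mem_ker] at hx
      rw [Subgroup.mem_comap, hx]
      exact R.one_mem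
    have k2 : IsPGroup ℓ (R.comap p) := (PP.H75.isPGroup_comap_iff hps hk R).2 hR
    have k3 := (H02.pug ℓ (FF M) hF _ _ p hps hk g hgb.1 (R.comap p) k1 k2).2 (by
      rw [Subgroup.map_comap_eq_self_of_surjective hps]
      exact hRg)
    have k4 := (PP.H20.brm ℓ (FF M) hF _ (R.comap p)
      (Subgroup.centralizer ((R.comap p : Subgroup _) : Set _)) k2 le_rfl
      (Subgroup.centralizer_le_normalizer _)).1 a g hai.1 hgb.1.1
    rw [hag] at k4
    have k5 : ∃ x, br (R.comap p) a x ≠ 0 := by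
      by_contra hno
      push Not at hno
      have h0 : br (R.comap p) a = 0 := funext hno
      rw [h0, PP.H75.mulF_zero_left] at k4
      obtain ⟨y, hy, hy0⟩ := k3
      apply hy0
      have := congrFun k4 y
      rwa [PP.H66.br_of_mem hy] at this
    obtain ⟨x, hx⟩ := k5
    have hxc : x ∈ Subgroup.centralizer ((R.comap p : Subgroup _) : Set _) := by
      by_contra hno
      exact hx (PP.H66.br_of_not_mem hno)
    rw [PP.H66.br_of_mem hxc, ha] at hx
    have hex : e x ≠ 0 := by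
      intro h0
      apply hx
      change br V e x = 0
      rw [PP.H66.br_of_mem x.2, h0]
    have k6 : Gd e ((R.comap p).map (Subgroup.subtype _)) := by
      refine ⟨x, ?_, hex⟩
      rw [Subgroup.mem_centralizer_iff]
      rintro _ ⟨y, hy, rfl⟩
      exact congrArg Subtype.val (Subgroup.mem_centralizer_iff.1 hxc y hy)
    have k7 := hI.tp.mx _ (k2.map _) k6
    have hkc : Nat.card p.ker = Nat.card V := by rw [hpk, hZcard]
    rw [Subgroup.card_map_of_injective (Subgroup.subtype_injective _), ← hkc] at k7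
    have k8 : p.ker = R.comap p := Subgroup.eq_of_le_of_card_ge k1 k7
    have k9 : R = (R.comap p).map p := (Subgroup.map_comap_eq_self_of_surjective hps R).symm
    rw [k9, ← k8]
    rw [Subgroup.eq_bot_iff_forall]
    rintro _ ⟨y, hy, rfl⟩
    exact hy
  have hwbo : WboStmt := H82W.wbo (H82.trb H53.tra)
  obtain ⟨κ, hκ, -⟩ := H1.dzo hwbo ℓ M hM _ _ hb' hgood
  have hl := H3.lbd ℓ M hM _ _ hb'.1 hb'.2.1
  rw [hκ, Set.ncard_singleton] at hl
  rw [← hg, PP.H75.cnt_push PP.H20.nls hF hps (by rw [hpk]; exact hZp) g]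
  exact le_antisymm hl.2 hl.1

/-- the inertial group as the stabiliser of `γ` in the group `N(V)` -/
theorem st_eq {F : Type} [Field F] {G : Type} [Group G] [Finite G] {V : Subgroup G} {γ : G → F}
    (hoff : ∀ x, x ∉ Subgroup.centralizer (V : Set G) → γ x = 0) :
    PP.H75.st (fun t : Subgroup.normalizer (V : Set G) => γ t) =
      (Subgroup.normalizer (V : Set G) ⊓ stabF γ).subgroupOf (Subgroup.normalizer (V : Set G)) := by
  ext g
  rw [PP.H75.mem_st, PP.H75.cj_eq_iff, Subgroup.mem_subgroupOf, Subgroup.mem_inf]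
  constructor
  · intro h
    refine ⟨g.2, fun x => ?_⟩
    by_cases hx : x ∈ Subgroup.normalizer (V : Set G)
    · exact h ⟨x, hx⟩
    · have h1 : x ∉ Subgroup.centralizer (V : Set G) := fun h' =>
        hx (Subgroup.centralizer_le_normalizer _ h')
      have h2 : (g : G) * x * (g : G)⁻¹ ∉ Subgroup.centralizer (V : Set G) := by
        intro h'
        apply hx
        have h3 := Subgroup.centralizer_le_normalizer _ h'
        have h4 := mul_mem (mul_mem (inv_mem g.2) h3) g.2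
        have e : (g : G)⁻¹ * ((g : G) * x * (g : G)⁻¹) * g = x := by group
        rwa [e] at h4
      rw [hoff _ h1, hoff _ h2]
  · intro h x
    exact h.2 x

theorem nrm (hPsn : PsnStmt) : NrmStmt := by
  classical
  intro ℓ hℓ M _ hM G _ _ e V γ T hI hcyc
  have hF : GoodF ℓ (FF M) := PP.H50.fld ℓ hℓ.out M hM
  have hone := cnt_one hPsn hM hI
  have hCN : Subgroup.centralizer (V : Set G) ≤ Subgroup.normalizer (V : Set G) :=
    Subgroup.centralizer_le_normalizer _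
  have hCT : Subgroup.centralizer (V : Set G) ≤ T := by
    intro x hx
    rw [hI.stb]
    refine ⟨hCN hx, fun y => ?_⟩
    by_cases hy : y ∈ Subgroup.centralizer (V : Set G)
    · exact hI.gam.blk.1.1 ⟨y, hy⟩ ⟨x, hx⟩
    · have h1 : x * y * x⁻¹ ∉ Subgroup.centralizer (V : Set G) := by
        intro h'
        apply hy
        have h4 := mul_mem (mul_mem (inv_mem hx) h') hx
        have e : x⁻¹ * (x * y * x⁻¹) * x = y := by group
        rwa [e] at h4
      rw [hI.gam.off _ hy, hI.gam.off _ h1]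
  have hTN : T ≤ Subgroup.normalizer (V : Set G) := by
    rw [hI.stb]
    exact inf_le_left
  -- the group `N(V)`
  obtain ⟨C₁, hC₁⟩ : ∃ C₁ : Subgroup (Subgroup.normalizer (V : Set G)),
      C₁ = (Subgroup.centralizer (V : Set G)).subgroupOf (Subgroup.normalizer (V : Set G)) :=
    ⟨_, rfl⟩
  obtain ⟨b, hb⟩ : ∃ b : Subgroup.normalizer (V : Set G) → FF M,
      b = fun t : Subgroup.normalizer (V : Set G) => γ t := ⟨_, rfl⟩
  obtain ⟨f, hf⟩ : ∃ f : Subgroup.normalizer (V : Set G) → FF M,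
      f = fun t : Subgroup.normalizer (V : Set G) => br V e t := ⟨_, rfl⟩
  have hC₁n : C₁.Normal := by
    rw [hC₁]
    constructor
    intro c hc t
    rw [Subgroup.mem_subgroupOf] at hc ⊢
    rw [Subgroup.mem_centralizer_iff] at hc ⊢
    intro v hv
    have h5 : (t : G)⁻¹ * v * (t : G) ∈ V := by
      have := (Subgroup.mem_normalizer_iff.1 (inv_mem t.2) v).1 hv
      rwa [inv_inv] at this
    have h6 := hc _ h5
    change v * ((t : G) * c * (t : G)⁻¹) = (t : G) * c * (t : G)⁻¹ * v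
    calc v * ((t : G) * c * (t : G)⁻¹) = (t : G) * ((t : G)⁻¹ * v * t * c) * (t : G)⁻¹ := by
          group
      _ = (t : G) * (c * ((t : G)⁻¹ * v * t)) * (t : G)⁻¹ := by rw [h6]
      _ = (t : G) * c * (t : G)⁻¹ * v := by group
  have hbs : ∀ x, x ∉ C₁ → b x = 0 := by
    intro x hx
    rw [hb]
    apply hI.gam.off
    intro h'
    apply hx
    rw [hC₁, Subgroup.mem_subgroupOf]
    exact h'
  have hbb : IsBlk (fun t : C₁ => b t) := by
    have h1 := PP.H20.IsBlk_equiv (Subgroup.subgroupOfEquivOfLe hCN) hI.gam.blk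
    rw [hb]
    subst hC₁
    exact h1
  have hBd : PP.H75.Bd C₁ b := ⟨hC₁n, hbs, hbb⟩
  have hfi : IsIdem f := by
    rw [hf]
    exact (PP.H20.brm ℓ (FF M) hF G V (Subgroup.normalizer (V : Set G)) hI.tp.pg hCN le_rfl).2.2
      e hI.blk.1
  have hfb : mulF f b = b := by
    rw [hf, hb, ← PP.H75.mulF_res (Subgroup.normalizer (V : Set G)) γ (fun x hx =>
      PP.H66.br_of_not_mem (fun h' => hx (hCN h'))), hI.und]
  have hst : PP.H75.st b = T.subgroupOf (Subgroup.normalizer (V : Set G)) := by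
    rw [hb, st_eq hI.gam.off, ← hI.stb]
  obtain ⟨S, hS⟩ : ∃ S : Subgroup (Subgroup.normalizer (V : Set G)), S = PP.H75.st b := ⟨_, rfl⟩
  have hcor : PP.H75.Cor S b := by
    have := Fintype.ofFinite (PP.H75.Om b)
    have h1 := (hBd.fam2 hfi).cor (PP.H75.omk b 1)
    rw [PP.H75.om_stab, PP.H75.omk_one, hfb, ← hS] at h1
    exact h1
  have h1 := hcor.card PP.H20.ibf PP.H20.ibj PP.H20.ibn PP.H20.eig hF
  have h2 : {φ : Subgroup.normalizer (V : Set G) → FF M |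
      φ ∈ IBr (FF M) (Subgroup.normalizer (V : Set G)) ∧ actF b φ ≠ 0}.ncard ≤ lb f := by
    apply Set.ncard_le_ncard _ ((PP.H20.ibf ℓ (FF M) hF _).1.subset (fun φ hφ => hφ.1))
    rintro φ ⟨⟨n, ρ, hρ, rfl⟩, h0⟩
    refine ⟨⟨n, ρ, hρ, rfl⟩, ?_⟩
    obtain ⟨w, hw1, hw2, hw3⟩ := PP.H20.eig (FF M) _ n ρ hρ f hfi.1
    rcases hw3 hfi with h | h
    · exfalso
      apply h0
      rw [← PP.H75.ev_zero_iff hρ, ← hfb, ev_mulF, hw1, h, map_zero, zero_mul]
    · rw [hw2, h, one_smul]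
  rw [h1] at h2
  rw [← hf]
  refine le_trans ?_ h2
  -- the group `S`
  obtain ⟨C₂, hC₂⟩ : ∃ C₂ : Subgroup S, C₂ = C₁.subgroupOf S := ⟨_, rfl⟩
  have hC₁S : C₁ ≤ S := by rw [hS]; exact hBd.le
  have hC₂n : C₂.Normal := by
    rw [hC₂]
    exact hC₁n.comap _
  have hidx : C₂.index = (Subgroup.centralizer (V : Set G)).relIndex T := by
    rw [hC₂]
    change C₁.relIndex S = _
    rw [hC₁, hS, hst, Subgroup.relIndex_subgroupOf hTN]
  have hnd : ¬ ℓ ∣ C₂.index := by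
    rw [hidx, hI.stb]
    exact H34.inx ℓ M hM G e hI.blk V hI.tp hI.comm γ hI.gam.off hI.gam.blk hI.und
  have hone2 : PP.H75.cnt (fun t : C₂ => b ((t : S) : Subgroup.normalizer (V : Set G))) = 1 := by
    have k1 := PP.H75.cnt_equiv ((Subgroup.subgroupOfEquivOfLe hC₁S).trans
      ((MulEquiv.subgroupCongr hC₁).trans (Subgroup.subgroupOfEquivOfLe hCN)))
      (fun t : Subgroup.centralizer (V : Set G) => γ t)
    rw [hone] at k1
    rw [hb]
    subst hC₂
    exact k1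
  obtain ⟨θ, hθ⟩ := Set.ncard_eq_one.1 hone2
  have hθ1 : θ ∈ IBr (FF M) C₂ ∧
      actF (fun t : C₂ => b ((t : S) : Subgroup.normalizer (V : Set G))) θ = θ := by
    have : θ ∈ ({θ} : Set (C₂ → FF M)) := rfl
    rw [← hθ] at this
    exact this
  obtain ⟨t₀, ht₀, hgen⟩ := hcyc
  have hTS : ∀ t ∈ T, ∃ h : t ∈ Subgroup.normalizer (V : Set G),
      (⟨t, h⟩ : Subgroup.normalizer (V : Set G)) ∈ S := by
    intro t ht
    refine ⟨hTN ht, ?_⟩
    rw [hS, hst, Subgroup.mem_subgroupOf]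
    exact ht
  obtain ⟨h₀, h₀'⟩ := hTS t₀ ht₀
  obtain ⟨s₀, hs₀⟩ : ∃ s₀ : S, s₀ = ⟨⟨t₀, h₀⟩, h₀'⟩ := ⟨_, rfl⟩
  have hinv : ∀ (s : S) (x : Subgroup.normalizer (V : Set G)),
      b ((s : Subgroup.normalizer (V : Set G)) * x *
        (s : Subgroup.normalizer (V : Set G))⁻¹) = b x := by
    intro s x
    have h3 : (s : Subgroup.normalizer (V : Set G)) ∈ PP.H75.st b := by rw [← hS]; exact s.2
    rw [PP.H75.mem_st, PP.H75.cj_eq_iff] at h3
    exact h3 x
  have hstab : ∀ c : C₂, θ (cn hC₂n s₀ c) = θ c := by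
    have k1 := PP.H75.IBr_comp (MulAut.conjNormal s₀ : C₂ ≃* C₂) hθ1.1
    have k2 := PP.H75.actF_comp (MulAut.conjNormal s₀ : C₂ ≃* C₂)
      (fun t : C₂ => b ((t : S) : Subgroup.normalizer (V : Set G))) θ
    have k3 : (fun x : C₂ => (fun t : C₂ => b ((t : S) : Subgroup.normalizer (V : Set G)))
        ((MulAut.conjNormal s₀ : C₂ ≃* C₂) x)) =
        (fun t : C₂ => b ((t : S) : Subgroup.normalizer (V : Set G))) := by
      funext x
      exact hinv s₀ ((x : S) : Subgroup.normalizer (V : Set G))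
    rw [k3, hθ1.2] at k2
    have k4 : (fun x : C₂ => θ ((MulAut.conjNormal s₀ : C₂ ≃* C₂) x)) ∈
        {f : C₂ → FF M | f ∈ IBr (FF M) C₂ ∧
          actF (fun t : C₂ => b ((t : S) : Subgroup.normalizer (V : Set G))) f = f} := ⟨k1, k2⟩
    rw [hθ] at k4
    intro c
    exact congrFun (Set.mem_singleton_iff.1 k4) c
  have hgen2 : ∀ g : S, ∃ k : ℕ, s₀ ^ k * g ∈ C₂ := by
    intro g
    have hg : ((g : Subgroup.normalizer (V : Set G)) : G) ∈ T := by
      have h3 : (g : Subgroup.normalizer (V : Set G)) ∈ PP.H75.st b := by rw [← hS]; exact g.2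
      rw [hst, Subgroup.mem_subgroupOf] at h3
      exact h3
    obtain ⟨k, hk⟩ := hgen _ hg
    refine ⟨k, ?_⟩
    rw [hC₂, Subgroup.mem_subgroupOf, hC₁, Subgroup.mem_subgroupOf, hs₀]
    exact hk
  have h3 := count hF hC₂n (b := fun t : S => b t)
    (fun x hx => by
      apply hbs
      intro h'
      apply hx
      rw [hC₂, Subgroup.mem_subgroupOf]
      exact h')
    (fun x y => hinv y ((x : S) : Subgroup.normalizer (V : Set G))) hθ1.1 hθ1.2 hgen2 hstab hnd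
  rw [hidx] at h3
  exact h3

end Pool.Agent.PP.C2.H82
end
end -- Pool.Agent.Helper82_C2.NRM

section -- Pool.Agent.ATP.Defs

/-!
# Squad ATP: pairs, and Alperin's weight conjecture for defect groups with a large centre: definitions

THEOREM T11.  For all primes `ℓ` and all `r`, `p` there is `a` such that the alternating sum is zero
for all blocks with a defect group `V` which has a central subgroup `Z` with `|Z : Z ^ ℓ| ≤ ℓ ^ r`,
`|V : Z| ≤ ℓ ^ p` (`TB.Cl`), and for which the exponent of the centre of `V` is at least `ℓ ^ a`;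
`a = p + cb ℓ r p`.

This squad does the pairs of Alperin and Broué and the telescoping for nonabelian `V`; the bound
`l(e) ≤ ℓ ^ c` is the hypothesis `Bd` (squad ATZ: `c = cb ℓ r p`).
-/

open scoped BigOperators

noncomputable section

namespace Pool.Agent.PP.TP

open Pool.Agent.Helper51_AWC Pool.Agent.Helper79_WRA Pool.Agent.PP Pool.Agent.PP.KF
open Pool.Agent.PP.K9 Pool.Agent.PP.K9.H97 Pool.Agent.PP.H75 Pool.Agent.PP.T3 Pool.Agent.PP.T2
open Pool.Agent.PP.TB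

attribute [local instance] Ideal.Quotient.field

section defs

variable {G : Type} [Group G] {F : Type} [Field F]

/-- `b` is a block of the centraliser of the `ℓ`-subgroup `Q`. -/
structure Pq (ℓ : ℕ) (Q : Subgroup G) (b : G → F) : Prop where
  pg : IsPGroup ℓ Q
  blk : Bx (Subgroup.centralizer (Q : Set G)) b

/-- The pair `(Q, b)` is normal in the pair `(P, c)`: `Q ≤ P ≤ N(Q)`, `P` stabilises `b` and
`br_P(b) c = c`. -/
structure Nl (Q : Subgroup G) (b : G → F) (P : Subgroup G) (c : G → F) : Prop where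
  le : Q ≤ P
  nor : P ≤ Subgroup.normalizer (Q : Set G)
  inv : ∀ x ∈ P, cj x b = b
  und : mulF (br P b) c = c

/-- The order of Alperin and Broué: there is a chain of normal inclusions of pairs from `(Q, b)` to
`(P, c)`. -/
inductive Le (ℓ : ℕ) (Q : Subgroup G) (b : G → F) : Subgroup G → (G → F) → Prop
  | refl : Le ℓ Q b Q b
  | step (R : Subgroup G) (a : G → F) (P : Subgroup G) (c : G → F) :
      Le ℓ Q b R a → Pq ℓ R a → Pq ℓ P c → Nl R a P c → Le ℓ Q b P c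

theorem Le.one {ℓ : ℕ} {Q P : Subgroup G} {b c : G → F} (hQ : Pq ℓ Q b) (hP : Pq ℓ P c)
    (h : Nl Q b P c) : Le ℓ Q b P c := Le.step Q b P c Le.refl hQ hP h

theorem Le.trans {ℓ : ℕ} {Q R P : Subgroup G} {b a c : G → F} (h : Le ℓ Q b R a)
    (h' : Le ℓ R a P c) : Le ℓ Q b P c := by
  induction h' with
  | refl => exact h
  | step S d P c _ hS hP hn ih => exact Le.step S d P c ih hS hP hn

theorem Le.sub {ℓ : ℕ} {Q P : Subgroup G} {b c : G → F} (h : Le ℓ Q b P c) : Q ≤ P := by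
  induction h with
  | refl => exact le_rfl
  | step S d P c _ _ _ hn ih => exact ih.trans hn.le

/-- the first proper step of a chain -/
theorem Le.first [Finite G] {ℓ : ℕ} {Q P : Subgroup G} {b c : G → F} (hQ : Pq ℓ Q b)
    (h : Le ℓ Q b P c) : (Q = P ∧ b = c) ∨
      ∃ (R : Subgroup G) (a : G → F), Pq ℓ R a ∧ Nl Q b R a ∧ Q < R ∧ Le ℓ R a P c := by
  induction h with
  | refl => exact Or.inl ⟨rfl, rfl⟩
  | step S d P c hS' hS hP hn ih =>
    rcases ih with ⟨rfl, rfl⟩ | ⟨R, a, hR, hna, hlt, hle⟩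
    · rcases eq_or_lt_of_le hn.le with h1 | h1
      · subst h1
        refine Or.inl ⟨rfl, ?_⟩
        have h2 : br Q b = b := by
          funext t
          by_cases ht : t ∈ Subgroup.centralizer (Q : Set G)
          · exact br_in b ht
          · rw [br_out b ht, hQ.blk.supp t ht]
        have h3 := hn.und
        rw [h2] at h3
        rcases hQ.blk.dich hP.blk with h4 | h4
        · exact h4
        · rw [h4] at h3
          exact absurd h3.symm hP.blk.ne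
      · exact Or.inr ⟨P, c, hP, hn, h1, Le.refl⟩
    · exact Or.inr ⟨R, a, hR, hna, hlt, Le.step S d P c hle hS hP hn⟩

/-- the subgroup of the `ℓ ^ (a - 1)`-th powers of the centre of `V` -/
def Uz (ℓ a : ℕ) (V : Subgroup G) : Subgroup G := Uw (ℓ ^ (a - 1)) (Zc V)

/-- `V` is a defect group of the block `e`, the centre of `V` has index at most `ℓ ^ p` in `V` and
exponent `ℓ ^ a`, `p < a`. -/
structure Hz (ℓ a p : ℕ) (e : G → F) (V : Subgroup G) : Prop where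
  blk : IsBlk e
  tp : Tp ℓ e V
  exp : Monoid.exponent (Zc V) = ℓ ^ a
  idx : Nat.card V ≤ ℓ ^ p * Nat.card (Zc V)
  lt : p < a

/-- `f` is the block of `X = N(U)`, `U = Uz ℓ a V`, under `br_U(e)` with `br_V(f) = br_V(e)`. -/
structure Fz (ℓ a : ℕ) (e : G → F) (V : Subgroup G) (f : G → F) : Prop where
  blk : Bx (Subgroup.normalizer (Uz ℓ a V : Set G)) f
  supp : ∀ x, x ∉ Subgroup.centralizer (Uz ℓ a V : Set G) → f x = 0
  und : mulF (br (Uz ℓ a V) e) f = f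
  brV : br V f = br V e
  nle : Subgroup.normalizer (V : Set G) ≤ Subgroup.normalizer (Uz ℓ a V : Set G)
  tp : Tp ℓ (fun t : Subgroup.normalizer (Uz ℓ a V : Set G) => f t)
    (V.subgroupOf (Subgroup.normalizer (Uz ℓ a V : Set G)))

variable (M : Ideal (integralClosure ℤ ℂ)) [M.IsMaximal]

/-- The bound: the blocks with a defect group in the class `Cl ℓ r p` have at most `ℓ ^ c`
irreducible modular characters. -/
def Bd (ℓ r p c : ℕ) : Prop :=
  ∀ (G : Type) [Group G] [Finite G] (e : G → FF M) (V : Subgroup G), IsBlk e → Tp ℓ e V →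
    Cl ℓ r p V → ln e ≤ ℓ ^ c

/-- The hypothesis of the induction. -/
def Ihz (ℓ r p a n : ℕ) : Prop :=
  ∀ (A : Type) [Group A] [Finite A], Nat.card A < n → ∀ f : A → FF M, IsBlk f →
    ∀ V' : Subgroup A, Tp ℓ f V' → Cl ℓ r p V' → (∃ z ∈ Zc V', orderOf z = ℓ ^ a) → YY ℓ ⊤ f = 0

end defs

end Pool.Agent.PP.TP
end
end -- Pool.Agent.ATP.Defs

section -- Pool.Agent.ATP.Stmts

/-!
# Squad ATP: statements

Complete proofs in the docstrings; all rows are independent (a row may take the rows which it uses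
as hypotheses).  `C(Q)`, `N(Q)` are the centraliser and the normaliser.  Tools: `H66.br_mulF`
(`br_P` is multiplicative on `P`-invariant functions), `H66.orb_conj`, `C2.H3.br_br`,
`T2.H65.cj_br`, `H75.cj_mulF`, `Bx.dich`, `Bx.dich'`, `K9.H24.exists_blk` (a block on which an
additive functional is not zero), `C2.H3.gd_of_br'`, `C2.H3.br_ne_of_gd`, `T2.H32.supp_cent` (a
central idempotent of `F N(U)` is supported on `C(U)`), `K9.H69.fmg`, `K9.dun_`, `H97.orb`.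
-/

open scoped BigOperators

noncomputable section

namespace Pool.Agent.PP.TP

open Pool.Agent.Helper51_AWC Pool.Agent.Helper79_WRA Pool.Agent.PP Pool.Agent.PP.KF
open Pool.Agent.PP.K9 Pool.Agent.PP.K9.H97 Pool.Agent.PP.H75 Pool.Agent.PP.T3 Pool.Agent.PP.T2
open Pool.Agent.PP.TB

attribute [local instance] Ideal.Quotient.field

/-! ## 1. Pairs -/

/-- NP1: below a pair `(P, c)` there is exactly one pair `(Q, b)` for each normal subgroup `Q` of
`P`.

Proof.  Uniqueness: for two such `b`, `b'`, `br_P(b b') c = br_P(b) br_P(b') c = c ≠ 0`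
(`H66.br_mulF`, `b`, `b'` are `P`-invariant), so `b b' ≠ 0`, `b = b'` (`Bx.dich`).  Existence: `P` acts
by conjugation on the (finite, orthogonal) set of the blocks of `C(Q)`, whose sum is the identity
`δ_1`.  Let `t ∈ C(P)`.  `(cj x b)(t) = b(x⁻¹ t x) = b(t)` for `x ∈ P`, so `b ↦ b(t)` is constant on the
orbits of `P`; the orbits have `1` or a multiple of `ℓ` elements, so `δ_1(t) = ∑_b b(t)` is the sum over
the blocks `b` fixed by `P`.  So `δ_1 = br_P(δ_1) = ∑_{b fixed} br_P(b)` and `c = ∑ br_P(b) c`; let `b` be fixed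
with `br_P(b) c ≠ 0`.  `br_P(b)` is a central idempotent of `F C(P)` (`C(P) ≤ C(Q)`), so
`br_P(b) c = c`. -/
def Np1Stmt : Prop := ∀ (ℓ : ℕ) (F : Type) [Field F], GoodF ℓ F → ∀ (G : Type) [Group G] [Finite G]
  (Q P : Subgroup G), IsPGroup ℓ P → Q ≤ P → P ≤ Subgroup.normalizer (Q : Set G) →
  ∀ c : G → F, Bx (Subgroup.centralizer (P : Set G)) c →
  ∃ b : G → F, Bx (Subgroup.centralizer (Q : Set G)) b ∧ Nl Q b P c ∧
    ∀ b' : G → F, Bx (Subgroup.centralizer (Q : Set G)) b' → Nl Q b' P c → b' = b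

/-- PCJ: conjugation of pairs; elements of `Q` and of `C(Q)` stabilise `b`.

Proof.  `C(conjS g Q) = conjS g C(Q)`, `N(conjS g Q) = conjS g N(Q)`, `br (conjS g P) (cj g b) =
cj g (br P b)` (`T2.H65.cj_br`), `cj g (mulF a b) = mulF (cj g a) (cj g b)`, and
`cj (g x g⁻¹) (cj g b) = cj g (cj x b)`; blocks go to blocks (`T3.H62.bx_cj`).  The last part: a block
of `C(Q)` is supported on `C(Q)` and it is a class function there. -/
def PcjStmt : Prop := ∀ (ℓ : ℕ) (F : Type) [Field F] (G : Type) [Group G] [Finite G] (g : G),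
  (∀ (Q : Subgroup G) (b : G → F), Pq ℓ Q b → Pq ℓ (conjS g Q) (cj g b)) ∧
  (∀ (Q P : Subgroup G) (b c : G → F), Nl Q b P c → Nl (conjS g Q) (cj g b) (conjS g P) (cj g c)) ∧
  (∀ (Q P : Subgroup G) (b c : G → F), Le ℓ Q b P c →
    Le ℓ (conjS g Q) (cj g b) (conjS g P) (cj g c)) ∧
  ∀ (Q : Subgroup G) (b : G → F), Pq ℓ Q b →
    g ∈ Q ⊔ Subgroup.centralizer (Q : Set G) → cj g b = b

/-- PEX: below a pair `(P, c)` there is a pair `(Q, b)` for each `Q ≤ P`.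

Proof.  Induction on `|P : Q|`.  If `Q = P` take `b = c` (`Nl P c P c`: PCJ, `br P c = c`).  If
`P ≤ N(Q)`: NP1.  Otherwise `R = P ⊓ N(Q)` is larger than `Q` (normalisers grow in the `ℓ`-group `P`);
induction gives `(R, a) ≤ (P, c)`, and NP1 gives `b` with `Nl Q b R a`; `Le.one`, `Le.trans`. -/
def PexStmt : Prop := ∀ (ℓ : ℕ) (F : Type) [Field F], GoodF ℓ F → ∀ (G : Type) [Group G] [Finite G]
  (P : Subgroup G) (c : G → F), Pq ℓ P c → ∀ Q ≤ P, ∃ b : G → F, Pq ℓ Q b ∧ Le ℓ Q b P c ∧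
    (P ≤ Subgroup.normalizer (Q : Set G) → Nl Q b P c)

/-- PUN: uniqueness of the pair below `(P, c)`, and the normal case.

Proof.  Induction on `|P : Q|`, both claims for all `P`, `Q`, `b`, `c` together.
(N) Let `P ≤ N(Q)`, `(Q, b) ≤ (P, c)`.  `Le.first`: if `Q = P`, `b = c`, see PEX.  Otherwise let
`(Q, b) ◁ (R, a) ≤ (P, c)`, `Q < R`.  If `R = P` then `a = c` by the uniqueness for `(P, P)`
(induction, or `Le.first`).  Let `R < P` and let `K` be a maximal subgroup of `P` which contains `R`; it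
is normal in `P`.  PEX: `(K, m)` with `Nl K m P c`, and `(R, a')` with `(R, a') ≤ (K, m) ≤ (P, c)`;
by induction (`|P : R| < |P : Q|`) `a' = a`.  So `(Q, b) ≤ (K, m)`, and by induction
(`|K : Q| < |P : Q|`) `Nl Q b K m`.  For `x ∈ P`: `(Q, cj x b) ≤ (K, cj x m) = (K, m)` (PCJ;
`conjS x Q = Q`, `conjS x K = K`), so `cj x b = b` by induction.  `br_K(b) m = m`; apply `br_P`
(`b`, `m`, `br_K(b)` are `P`-invariant): `br_P(b) br_P(m) = br_P(m)` (`br_P(br_K b) = br_P b`), and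
`br_P(m) c = c`, so `br_P(b) c = c`.
(U) Let `(Q, b) ≤ (P, c)`, `(Q, b') ≤ (P, c)`.  If `P ≤ N(Q)`: (N) and NP1.  Otherwise
`S = P ⊓ N(Q)`, `Q < S < P`.  Let `(S, s) ≤ (P, c)` (PEX).  The first proper step (`Le.first`;
`Q ≠ P`) of the chain of `(Q, b)` is `(Q, b) ◁ (R, a) ≤ (P, c)` with `Q < R ≤ S`.  PEX:
`(R, a') ≤ (S, s)`, and `a' = a` by induction.  So `(Q, b) ≤ (S, s)`, in the same way
`(Q, b') ≤ (S, s)`, and `b = b'` by induction (`|S : Q| < |P : Q|`). -/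
def PunStmt : Prop := ∀ (ℓ : ℕ) (F : Type) [Field F], GoodF ℓ F → ∀ (G : Type) [Group G] [Finite G]
  (P : Subgroup G) (c : G → F), Pq ℓ P c → ∀ (Q : Subgroup G) (b : G → F), Pq ℓ Q b →
  Le ℓ Q b P c →
  (∀ b' : G → F, Pq ℓ Q b' → Le ℓ Q b' P c → b' = b) ∧
  (P ≤ Subgroup.normalizer (Q : Set G) → Nl Q b P c)

/-- PIN: pairs in between.

Proof.  PEX: `(R, a) ≤ (P, c)` and `(Q, b') ≤ (R, a)`; then `(Q, b') ≤ (P, c)` and `b' = b` by PUN. -/
def PinStmt : Prop := ∀ (ℓ : ℕ) (F : Type) [Field F], GoodF ℓ F → ∀ (G : Type) [Group G] [Finite G]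
  (P : Subgroup G) (c : G → F), Pq ℓ P c → ∀ (Q : Subgroup G) (b : G → F), Pq ℓ Q b →
  Le ℓ Q b P c → ∀ R : Subgroup G, Q ≤ R → R ≤ P →
    ∃ a : G → F, Pq ℓ R a ∧ Le ℓ Q b R a ∧ Le ℓ R a P c

/-- PXB: an idempotent `E` of a subgroup `K` which contains `P` and `C(Q)`.

Proof.  Induction on the chain; for one step `Nl R a P c`, `Q ≤ R ≤ P ≤ K`, `C(R) ≤ C(Q) ≤ K`.  `E`
is invariant under `K`, so under `P`.  `br_R(E)` is a central idempotent of `F C(R)` and invariant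
under `P` (`P ≤ N(R)`), `br_P(br_R(E)) = br_P(E)`.  If `br_R(E) a = a`, apply `br_P`:
`br_P(E) br_P(a) = br_P(a)`, multiply by `c`: `br_P(E) c = c`.  Otherwise `br_R(E) a = 0`
(`Bx.dich'`), so `br_P(E) br_P(a) = 0`, `br_P(E) c = br_P(E) br_P(a) c = 0 ≠ c`. -/
def PxbStmt : Prop := ∀ (ℓ : ℕ) (F : Type) [Field F], GoodF ℓ F → ∀ (G : Type) [Group G] [Finite G]
  (K : Subgroup G) (E : G → F), Ix K E → ∀ (P : Subgroup G) (c : G → F), Pq ℓ P c → P ≤ K →
  ∀ (Q : Subgroup G) (b : G → F), Pq ℓ Q b → Subgroup.centralizer (Q : Set G) ≤ K →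
  Le ℓ Q b P c → (mulF (br Q E) b = b ↔ mulF (br P E) c = c)

/-- PMX: every pair under the block `e` is contained in a pair `(D, γ')`, `D` a defect group.

Proof.  Let `(P, c) ≥ (Q, b)` be a pair with `|P|` maximal.  `br_P(e) c = c` (PXB, `K = ⊤`), so `P` is
good for `e` and `|P| ≤ |V|`.  Suppose `|P| < |V|`.  Let `f` be a block of `N = N(P)` with `f c ≠ 0`
(`K9.H24.exists_blk`); `f` is supported on `C(P)` (`T2.H32.supp_cent`), so `f c = c`; `br_P(e) f = f`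
(otherwise it is `0`, but `br_P(e) f c = c`).  `K9.DunStmt`: an `ℓ`-subgroup `R` of `N`, `P < R`, good
for `f`.  Let `c''` be a block of `C(R)` with `br_R(f) c'' = c''`.  NP1: `Nl P c₁ R c''`.
`br_R(c₁ f) c'' = c''`, so `c₁ f ≠ 0`, `f c₁ = c₁`.  `K9.OrbStmt` (`N`, `X = C(P)`, `f`): `c = cj n c₁`
with `n ∈ N`.  PCJ: `Nl P c (conjS n R) (cj n c'')`, a pair larger than `(P, c)`, a contradiction.
So `|P| = |V|`, and `P = conjS x V` by `FmgStmt`. -/
def PmxStmt : Prop := ∀ (ℓ : ℕ) [Fact ℓ.Prime] (M : Ideal (integralClosure ℤ ℂ)) [M.IsMaximal],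
  (ℓ : integralClosure ℤ ℂ) ∈ M → ∀ (G : Type) [Group G] [Finite G] (e : G → FF M)
  (V : Subgroup G), IsBlk e → Tp ℓ e V → ∀ (Q : Subgroup G) (b : G → FF M), Pq ℓ Q b →
  mulF (br Q e) b = b → ∃ (x : G) (γ' : G → FF M), Pq ℓ (conjS x V) γ' ∧ Le ℓ Q b (conjS x V) γ'

/-- PMG: the same with a given block `γ` of `C(V)`.

Proof.  PMX: `(Q, b) ≤ (conjS x V, γ')`.  `br_{conjS x V}(e) γ' = γ'` (PXB), so `cj x⁻¹ γ'` and `γ` are
blocks of `C(V)` under `br_V(e)`, which is a block of `N(V)` (`FmgStmt`) supported on `C(V)`, so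
`cj x⁻¹ γ' = cj n γ` with `n ∈ N(V)` (`K9.OrbStmt`), `γ' = cj (x n) γ`,
`conjS x V = conjS (x n) V`. -/
def PmgStmt : Prop := ∀ (ℓ : ℕ) [Fact ℓ.Prime] (M : Ideal (integralClosure ℤ ℂ)) [M.IsMaximal],
  (ℓ : integralClosure ℤ ℂ) ∈ M → ∀ (G : Type) [Group G] [Finite G] (e : G → FF M)
  (V : Subgroup G), IsBlk e → Tp ℓ e V → ∀ γ : G → FF M,
  Bx (Subgroup.centralizer (V : Set G)) γ → mulF (br V e) γ = γ →
  ∀ (Q : Subgroup G) (b : G → FF M), Pq ℓ Q b → mulF (br Q e) b = b →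
  ∃ g : G, Pq ℓ (conjS g V) (cj g γ) ∧ Le ℓ Q b (conjS g V) (cj g γ)

/-- PTR: the pairs of a subgroup `K` which contains `C(Q)`.

Proof.  First part: `C_K(Q) = C(Q)` as `C(Q) ≤ K`.  Second part: induction on the chain.  For
`Q_K ≤ P'`, `P = P'.map K.subtype ≥ Q`, `C(P) ≤ C(Q) ≤ K`, so the centraliser of `P'` in `K` is
`C(P).subgroupOf K`; `ext0 K c'` is supported on `K`, with restriction `c'`; `br`, `mulF`, `cj` commute
with `ext0 K`; `ext0 K` of the restriction of `b` is `b`. -/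
def PtrStmt : Prop := ∀ (ℓ : ℕ) (F : Type) [Field F] (G : Type) [Group G] [Finite G]
  (K Q : Subgroup G), Q ≤ K → Subgroup.centralizer (Q : Set G) ≤ K → ∀ b : G → F, Pq ℓ Q b →
  Pq ℓ (Q.subgroupOf K) (fun t : K => b t) ∧
  ∀ (P' : Subgroup K) (c' : K → F), Le ℓ (Q.subgroupOf K) (fun t : K => b t) P' c' →
    Pq ℓ (P'.map K.subtype) (H75.ext0 K c') ∧ Le ℓ Q b (P'.map K.subtype) (H75.ext0 K c')

/-- PMK: PMX for the block `f` of a subgroup `K` which contains `C(Q)`.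

Proof.  PMX in the group `K` (`f` restricted to `K`, `V.subgroupOf K`, the pair of the first part of PTR;
`br (Q.subgroupOf K)` of the restriction of `f` is the restriction of `br Q f`, because
`C(Q) ≤ K`), then PTR; `(conjS x (V.subgroupOf K)).map K.subtype = conjS x V`. -/
def PmkStmt : Prop := ∀ (ℓ : ℕ) [Fact ℓ.Prime] (M : Ideal (integralClosure ℤ ℂ)) [M.IsMaximal],
  (ℓ : integralClosure ℤ ℂ) ∈ M → ∀ (G : Type) [Group G] [Finite G] (K V : Subgroup G)
  (f : G → FF M), Bx K f → V ≤ K → Tp ℓ (fun t : K => f t) (V.subgroupOf K) →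
  ∀ (Q : Subgroup G) (b : G → FF M), Pq ℓ Q b → Q ≤ K → Subgroup.centralizer (Q : Set G) ≤ K →
  mulF (br Q f) b = b →
  ∃ x ∈ K, ∃ γ' : G → FF M, Pq ℓ (conjS x V) γ' ∧ Le ℓ Q b (conjS x V) γ'

/-- PCD: `S` is a defect group of the block `b` of `C(Q)`.

Proof.  `C(S ⊔ Q) = C(S) ⊓ C(Q)`.  `Nl`: `S ⊔ Q ≤ Q C(Q)` stabilises `b` (PCJ), and `br_{S ⊔ Q}(b) =
br_S(b)` (`b` is supported on `C(Q)`).  Let `(S ⊔ Q, b₃) ≤ (D, γ)`, `S' = D ⊓ C(Q) ≥ S`.  PIN:
`(S ⊔ Q, b₃) ≤ (S' ⊔ Q, s) ≤ (D, γ)`, so `(Q, b) ≤ (S' ⊔ Q, s)`, and PUN (`S' ⊔ Q ≤ N(Q)`) gives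
`br_{S' ⊔ Q}(b) s = s`, so `b` does not vanish on `C(S')`, `|S'| ≤ |S|`, `S' = S`.  The centre of
`D` is contained in `C(Q)` (`Q ≤ D`) and in `D`, so in `S`, and it centralises `S ≤ D`. -/
def PcdStmt : Prop := ∀ (ℓ : ℕ) [Fact ℓ.Prime] (F : Type) [Field F], GoodF ℓ F → ∀ (G : Type)
  [Group G] [Finite G] (Q S : Subgroup G) (b b₃ : G → F), Pq ℓ Q b →
  S ≤ Subgroup.centralizer (Q : Set G) →
  Tp ℓ (fun t : Subgroup.centralizer (Q : Set G) => b t)
    (S.subgroupOf (Subgroup.centralizer (Q : Set G))) →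
  Bx (Subgroup.centralizer ((S ⊔ Q : Subgroup G) : Set G)) b₃ → mulF (br S b) b₃ = b₃ →
  Pq ℓ (S ⊔ Q) b₃ ∧ Nl Q b (S ⊔ Q) b₃ ∧ ∀ (D : Subgroup G) (γ : G → F), Pq ℓ D γ →
    Le ℓ (S ⊔ Q) b₃ D γ → D ⊓ Subgroup.centralizer (Q : Set G) = S ∧ Zc D ≤ Zc S

/-! ## 2. The blocks of `N(Q)/Q` -/

/-- PQZ: a block `f₁` of `A = N(Q)/Q` under the image of `br_Q(e)`, with defect group `δ`.

Proof (compare `Helper65_AT3/QT1.lean`).  `R` = the preimage of `δ`, an `ℓ`-group.  `q : C(Q) → A`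
the restriction of `π`, its kernel `Q ⊓ C(Q)` is a central `ℓ`-subgroup, its image `C'` is normal in `A`.
For functions `a` supported on `C(Q)`, `push π a = push q a`.
(1) `R` acts on the blocks `b` of `C(Q)` under `e` (`br_Q(e)` is their sum).  For `y ∈ C_A(δ)` the
function `b ↦ push q b y` is constant on the orbits (`push π (cj x b) = cj (π x) (push π b)`), so
`br_δ(push π (br_Q e)) = ∑ br_δ(push q b)` over the `R`-stable `b` (as in NP1).  Multiply by `br_δ(f₁) ≠ 0`: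
`br_δ(f₁) = br_δ(f₁ push π (br_Q e)) = ∑ br_δ(f₁) br_δ(push q b)`.  Fix an `R`-stable `b` with
`br_δ(push q b) br_δ(f₁) ≠ 0`.
(2) `br_δ(push π b) = push π (br_R b)` (`T2.H65.push_br_inv`), and `br_R(b)` is a central idempotent of
`F C(R)`, so there is a block `b₃` of `C(R)` with `br_R(b) b₃ = b₃` and `push π b₃ br_δ(f₁) ≠ 0`
(`K9.H24.exists_blk`).  `Nl Q b R b₃`; `br_R(e) b₃ = b₃` (apply `br_R` to `br_Q(e) b = b`).
(3) Let `(R, b₃) ≤ (D, γ)`, `S = D ⊓ C(Q)`.  PIN and PUN, as in PCD: `b` does not vanish on `C(S)`.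
`b' = push q b` is a block of `C'` (`T3.H43.push_blk`), the image `S'` of `S` is good for `b'`
(`K9.PugStmt`; `S` contains the kernel), `f₁ b' ≠ 0` (`b'` is `δ`-invariant and
`br_δ(f₁ b') ≠ 0`), so `S'` is good for `f₁` (`T3.H65.cover_gd`), `S' ≤ conjS x δ` (`FmgStmt` for `A`),
`|S'| ≤ |conjS x δ ⊓ C'| = |δ ⊓ C'|`.  `δ ⊓ C'` is the image of `R ⊓ C(Q)` (`Q ≤ R`), which is
contained in `S`; so the images of `R ⊓ C(Q)` and of `S` are equal, both contain the kernel of `q`,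
so `S = R ⊓ C(Q)`. -/
def PqzStmt : Prop := ∀ (ℓ : ℕ) [Fact ℓ.Prime] (M : Ideal (integralClosure ℤ ℂ)) [M.IsMaximal],
  (ℓ : integralClosure ℤ ℂ) ∈ M → ∀ (G : Type) [Group G] [Finite G] (e : G → FF M), IsIdem e →
  ∀ Q : Subgroup G, IsPGroup ℓ Q → ∀ (A : Type) [Group A] [Finite A]
  (π : Subgroup.normalizer (Q : Set G) →* A), Function.Surjective π →
  π.ker = Q.subgroupOf (Subgroup.normalizer (Q : Set G)) → ∀ f₁ : A → FF M, IsBlk f₁ →
  mulF (push π (fun t : Subgroup.normalizer (Q : Set G) => br Q e t)) f₁ = f₁ →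
  ∀ δ : Subgroup A, Tp ℓ f₁ δ →
  ∃ (R : Subgroup G) (b b₃ : G → FF M), Q ≤ R ∧ R ≤ Subgroup.normalizer (Q : Set G) ∧
    (R.subgroupOf (Subgroup.normalizer (Q : Set G))).map π = δ ∧
    Pq ℓ Q b ∧ Pq ℓ R b₃ ∧ Nl Q b R b₃ ∧ mulF (br Q e) b = b ∧ mulF (br R e) b₃ = b₃ ∧
    mulF (push π (fun t : Subgroup.normalizer (Q : Set G) => b₃ t)) (br δ f₁) ≠ 0 ∧
    ∀ (D : Subgroup G) (γ : G → FF M), Pq ℓ D γ → Le ℓ R b₃ D γ →
      D ⊓ Subgroup.centralizer (Q : Set G) ≤ R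

/-! ## 3. Groups -/

/-- ZCF: the centre and the subgroup `Uz`.

Proof.  The centre is characteristic; `T2.PwuStmt` for the abelian group `Zc V`.  (The first block:
definitions.  `Uz ℓ a V ≠ ⊥`: otherwise the exponent of `Zc V` divides `ℓ ^ (a - 1)`.) -/
def ZcfStmt : Prop := ∀ (G : Type) [Group G] [Finite G] (V : Subgroup G),
  (Zc V ≤ V ∧ V ≤ Subgroup.centralizer (Zc V : Set G) ∧
    (∀ x ∈ Zc V, ∀ y ∈ Zc V, x * y = y * x) ∧
    Subgroup.normalizer (V : Set G) ≤ Subgroup.normalizer (Zc V : Set G) ∧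
    (∀ g : G, Zc (conjS g V) = conjS g (Zc V)) ∧
    ∀ X : Subgroup G, V ≤ X → Zc (V.subgroupOf X) = (Zc V).subgroupOf X) ∧
  (∀ ℓ a : ℕ, Uz ℓ a V ≤ Zc V ∧ V ≤ Subgroup.centralizer (Uz ℓ a V : Set G) ∧
    Subgroup.normalizer (V : Set G) ≤ Subgroup.normalizer (Uz ℓ a V : Set G) ∧
    (∀ g : G, Uz ℓ a (conjS g V) = conjS g (Uz ℓ a V)) ∧
    (∀ X : Subgroup G, V ≤ X → Uz ℓ a (V.subgroupOf X) = (Uz ℓ a V).subgroupOf X) ∧
    (ℓ.Prime → 0 < a → Monoid.exponent (Zc V) = ℓ ^ a → Uz ℓ a V ≠ ⊥ ∧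
      ∃ z ∈ Zc V, orderOf z = ℓ ^ a)) ∧
  (∀ ℓ r p : ℕ, Cl ℓ r p V → Nat.card V ≤ ℓ ^ p * Nat.card (Zc V) ∧
    (∀ g : G, Cl ℓ r p (conjS g V)) ∧ ∀ X : Subgroup G, V ≤ X → Cl ℓ r p (V.subgroupOf X)) ∧
  ∀ ℓ a : ℕ, ℓ.Prime → IsPGroup ℓ V → (∃ z ∈ Zc V, orderOf z = ℓ ^ a) →
    ∃ a', a ≤ a' ∧ Monoid.exponent (Zc V) = ℓ ^ a'

/-- CTQ: sections `R/Q` with `Zc V ≤ R`.

Proof.  Let `Z ≤ Zc V` be as in `Cl` and `Z'` its image under `φ`; it is central in `V'` (`Z` is central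
in `V ≥ R`), `|V' : Z'| ≤ |R : Z| ≤ |V : Z| ≤ ℓ ^ p` (`Cl` says this without indices), and `Uw ℓ Z'` is the image
of `Uw ℓ Z`, so `|Z' : Uw ℓ Z'| ≤ |Z : Uw ℓ Z|`.  Last claim: the image of `Zc V` is contained in the centre of `V'`; by
`T2.PwuStmt` (for `Zc V`, `φ`; or directly) its exponent is `ℓ ^ a`, and then it has an
element of order `ℓ ^ a` (it is an abelian `ℓ`-group), or `Uz ℓ a V` is in the kernel. -/
def CtqStmt : Prop := ∀ (ℓ : ℕ) [Fact ℓ.Prime] (G A : Type) [Group G] [Finite G] [Group A]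
  [Finite A] (r p : ℕ) (V R N : Subgroup G) (φ : N →* A) (V' : Subgroup A), IsPGroup ℓ V →
  R ≤ V → R ≤ N → Zc V ≤ R → V' = (R.subgroupOf N).map φ →
  (Cl ℓ r p V → Cl ℓ r p V') ∧ ∀ a : ℕ, 0 < a → Monoid.exponent (Zc V) = ℓ ^ a →
    (∃ z ∈ Zc V', orderOf z = ℓ ^ a) ∨ Uz ℓ a V ≤ φ.ker.map N.subtype

/-! ## 4. The block `f` of `N(U)` -/

/-- FSP: existence.

Proof (compare `Helper32_AT2/FST.lean`, `Helper56_AT5/FS5.lean`).  `U = Uz ℓ a V`, `X = N(U) ≥ N(V)`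
(ZCF), `V ≤ C(U)`.  `br_U(e)` is a central idempotent of `F X` (`BrmStmt`), the sum of the blocks `f_i` of
`X` under it.  `br_V(e) = br_V(br_U(e)) = ∑ br_V(f_i)`, orthogonal central idempotents of
`F N(V)`, and `br_V(e)` is a block of `N(V)` (`FmgStmt`), so `br_V(f) = br_V(e)` for exactly one
`f = f_i`.  `supp`: `T2.H32.supp_cent`.  `tp`: `V` is good for `f`, and an `ℓ`-subgroup `P` of `X` good
for `f` is good for `br_U(e)`, so `P U` is good for `e` (or: `P` is good for `e`, since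
`br_U(e)` is `e` on `C(U)` and `f` is supported there), so `|P| ≤ |V|`. -/
def FspStmt : Prop := ∀ (ℓ : ℕ) [Fact ℓ.Prime] (M : Ideal (integralClosure ℤ ℂ)) [M.IsMaximal],
  (ℓ : integralClosure ℤ ℂ) ∈ M → ∀ (G : Type) [Group G] [Finite G] (a p : ℕ) (e : G → FF M)
  (V : Subgroup G), Hz ℓ a p e V → ∃ f, Fz ℓ a e V f

/-- UOP: the idempotents over different conjugates of `U` are orthogonal.

Proof.  `ix`, `supp`, `und` from `Fz`.  `ort`: let `U₁ = conjS g U`, `U₂ = conjS h U`, and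
suppose `E₁ E₂ ≠ 0`, `E₁ = br_Q(cj g f)`, `E₂ = br_Q(cj h f)`.  These are central idempotents of
`F C(Q)` (`C(Q) ≤ C(U₁) ≤ N(U₁)`, `Q ≤ C(U₁)`).  Let `b` be a block of `C(Q)` with `E₁ b = b = E₂ b`.
`br_Q(e) b = b` (`br_Q(e) E₁ = E₁`: conjugate `Fz.und` and apply `br_Q`).  Let `S ≤ C(Q)` be a
defect group of `b` (a good `ℓ`-subgroup of `C(Q)` of maximal order), `b₃` a block of `C(S ⊔ Q)` with
`br_S(b) b₃ = b₃`.  PCD: `Nl Q b (S ⊔ Q) b₃`, so by PXB (`K = N(U₁)`, `E = cj g f`;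
`S ⊔ Q ≤ C(U₁)`) `br_{S ⊔ Q}(cj g f) b₃ = b₃`.  PMK for `K = N(U₁)` (= `conjS g N(U)`), the block
`cj g f`, its defect group `conjS g V` (or for `K = N(U)` and the pair conjugated by `g⁻¹`):
`(S ⊔ Q, b₃) ≤ (D₁, γ₁)`, `D₁ = conjS g₁ V`, `g₁ = x g`, `x ∈ N(U₁)`, so `Uz ℓ a D₁ =
conjS g₁ U = U₁`.  In the same way `(S ⊔ Q, b₃) ≤ (D₂, γ₂)`, `D₂ = conjS g₂ V`, `Uz ℓ a D₂ = U₂`.
PCD: `Zc D₁ ≤ Zc S`, `Zc D₂ ≤ Zc S`.  `W = Uw (ℓ ^ p) (Zc S)`.  `W ≤ Zc D₁`:
`|Zc S : Zc S ⊓ Zc D₁| ≤ |D₁ : Zc D₁| ≤ ℓ ^ p` (`Zc S ≤ D₁`), so the `ℓ ^ p`-th powers of the elements of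
the abelian `ℓ`-group `Zc S` are in `Zc D₁`.  The same for `D₂`.  `U₁ = Uw (ℓ ^ (a - 1)) (Zc D₁) ≤
Uw (ℓ ^ (a - 1)) (Zc S) ≤ W` (`p ≤ a - 1`), and `U₂ ≤ W`.  PEX: `(W, w) ≤ (S ⊔ Q, b₃)`
(`W ≤ S`).  `(W, w) ≤ (D₁, γ₁)`, `D₁ ≤ C(W)`, so PUN: `br_{D₁}(w) γ₁ = γ₁`, `D₁` is
good for `w`; the same for `D₂`.  `br_W(e) w = w` (PXB), so an `ℓ`-subgroup `P` of `C(W)` good for
`w` is good for `e`, `|P| ≤ |V|`.  So `D₁` and `D₂` are defect groups of the block `w` of `C(W)`, and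
`FmgStmt` (for `C(W)`): `D₂ = conjS c D₁`, `c ∈ C(W)`.  Then `U₂ = Uz ℓ a D₂ = conjS c U₁ = U₁`
(`U₁ ≤ W`), a contradiction. -/
def UopStmt : Prop := ∀ (ℓ : ℕ) [Fact ℓ.Prime] (M : Ideal (integralClosure ℤ ℂ)) [M.IsMaximal],
  (ℓ : integralClosure ℤ ℂ) ∈ M → ∀ (G : Type) [Group G] [Finite G] (a p : ℕ) (e : G → FF M)
  (V : Subgroup G), Hz ℓ a p e V → ∀ f, Fz ℓ a e V f → T5.Uo ℓ e (Uz ℓ a V) f

/-- TYP: the blocks of `N(Q)/Q` which are not over a conjugate of `(U, f)`.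

Proof.  Let `V'` be a defect group of `f₁`, and `R`, `b₃` from PQZ (`δ = V'`).  Let `γ` be a block of
`C(V)` with `br_V(e) γ = γ`.  PMG: `(R, b₃) ≤ (D, γ₁)`, `D = conjS g V`, `γ₁ = cj g γ`.  PQZ:
`Zc D ≤ D ⊓ C(Q) ≤ R` (`Q ≤ R ≤ D`).  CTQ (for `D`; ZCF: `Cl ℓ r p D`, the exponent of `Zc D`
is `ℓ ^ a`): `Cl ℓ r p V'`, and `Zc V'` has an element of order `ℓ ^ a` or
`conjS g U = Uz ℓ a D ≤ Q`.  Suppose the latter.  `Bt U Q g` (`Q ≤ D ≤ C(conjS g U)`).
`br_V(f) γ = br_V(e) γ = γ`, so `br_D(cj g f) γ₁ = γ₁`, and PXB (`K = N(conjS g U)`, `E = cj g f`;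
`D ≤ K`, `C(R) ≤ C(Q) ≤ C(conjS g U) ≤ K`): `br_R(cj g f) b₃ = b₃`.  Apply `push π`
(`C(R) ≤ C(Q)`; it is multiplicative): `push π (br_R(cj g f)) push π b₃ = push π b₃`.  The function
`br_Q(cj g f)` is `R`-invariant (`R ≤ N(Q)`, `R ≤ D ≤ N(conjS g U)`), so
`br_{V'}(push π (br_Q(cj g f))) = push π (br_R(cj g f))` (`T2.H65.push_br_inv`, `br_R br_Q = br_R`).
By hypothesis `push π (br_Q(cj g f)) f₁ = 0`, so `br_{V'}(push π (br_Q(cj g f))) br_{V'}(f₁) = 0`, and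
`push π b₃ br_{V'}(f₁) = push π b₃ br_{V'}(push π (br_Q(cj g f))) br_{V'}(f₁) = 0`, which
contradicts PQZ. -/
def TypStmt : Prop := ∀ (ℓ : ℕ) [Fact ℓ.Prime] (M : Ideal (integralClosure ℤ ℂ)) [M.IsMaximal],
  (ℓ : integralClosure ℤ ℂ) ∈ M → ∀ (G : Type) [Group G] [Finite G] (a p r : ℕ) (e : G → FF M)
  (V : Subgroup G), Hz ℓ a p e V → Cl ℓ r p V → ∀ f, Fz ℓ a e V f →
  ∀ Q : Subgroup G, IsPGroup ℓ Q → ∀ (A : Type) [Group A] [Finite A]
  (π : Subgroup.normalizer (Q : Set G) →* A), Function.Surjective π →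
  π.ker = Q.subgroupOf (Subgroup.normalizer (Q : Set G)) → ∀ f₁ : A → FF M, IsBlk f₁ →
  mulF (push π (fun t : Subgroup.normalizer (Q : Set G) => br Q e t)) f₁ = f₁ →
  (∀ g : G, Bt (Uz ℓ a V) Q g →
    mulF (push π (fun t : Subgroup.normalizer (Q : Set G) => br Q (cj g f) t)) f₁ = 0) →
  ∃ V' : Subgroup A, Tp ℓ f₁ V' ∧ Cl ℓ r p V' ∧ ∃ z ∈ Zc V', orderOf z = ℓ ^ a

/-- TXP: the subgroups of `X = N(U)` which are not between `U` and `C(U)`.

Proof.  `AddStmt`: `YQ` is the sum of the `YY ⊤ f₁` over the blocks `f₁` of `A = N_X(Q)/Q` under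
`push (br_Q f_X)` (all in the group `X`).  Let `V'` be a defect group of `f₁`, `R ≤ X` and `b₃` from
PQZ for the group `X` and `e = f_X` (`δ = V'`).  PMX (group `X`, block `f_X`, defect group
`V_X = V.subgroupOf X`, `Fz.tp`): `(R, b₃) ≤ (D, γ')`, `D = conjS x V_X`.  PQZ: `Zc D ≤ R`.  ZCF and
CTQ (for `D`, in `X`): `Cl ℓ r p V'`, and `Zc V'` has an element of order `ℓ ^ a`, or
`Uz ℓ a D = conjS x U_X = U_X ≤ Q` (`U_X` is normal in `X`); in the second case `Q ≤ D ≤ C(U_X)`, which is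
excluded.  So `Zc V'` has an element of order `ℓ ^ a`, and also one of order `ℓ ^ a₀` (a power).
`|A| < |X| ≤ |G|` (`Q ≠ ⊥`), so `YY ⊤ f₁ = 0` by `Ihz`.  (Compare `Helper92_AT5/TX5.lean`.) -/
def TxpStmt : Prop := ∀ (ℓ : ℕ) [Fact ℓ.Prime] (M : Ideal (integralClosure ℤ ℂ)) [M.IsMaximal],
  (ℓ : integralClosure ℤ ℂ) ∈ M → ∀ (G : Type) [Group G] [Finite G] (a p r a₀ : ℕ)
  (e : G → FF M) (V : Subgroup G), Hz ℓ a p e V → Cl ℓ r p V → ∀ f, Fz ℓ a e V f →
  a₀ ≤ a → Ihz M ℓ r p a₀ (Nat.card G) → ∀ (U : Subgroup G), U = Uz ℓ a V →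
  ∀ Q : Subgroup (Subgroup.normalizer (U : Set G)), IsPGroup ℓ Q → Q ≠ ⊥ →
  ¬ (U.subgroupOf (Subgroup.normalizer (U : Set G)) ≤ Q ∧
    Q ≤ (Subgroup.centralizer (U : Set G)).subgroupOf (Subgroup.normalizer (U : Set G))) →
  YQ ℓ (fun t : Subgroup.normalizer (U : Set G) => f t) Q = 0

/-! ## 5. The theorem -/

/-- DVP: divisibility.

Proof.  As `T5.Dv5Stmt` (`Helper23_AT5/DV5.lean`; its proof does not use the order of `V`) with
`B = Zc V`, of index at most `ℓ ^ p`, `u = z ∈ Zc V` of order `ℓ ^ a`. -/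
def DvpStmt : Prop := ∀ (ℓ : ℕ) [Fact ℓ.Prime] (M : Ideal (integralClosure ℤ ℂ)) [M.IsMaximal],
  (ℓ : integralClosure ℤ ℂ) ∈ M → ∀ (G : Type) [Group G] [Finite G], opCore ℓ G = ⊥ →
  ∀ (a p : ℕ) (e : G → FF M) (V : Subgroup G), IsBlk e → Tp ℓ e V → Nat.card V ≤ ℓ ^ p * Nat.card (Zc V) →
  (∃ z ∈ Zc V, orderOf z = ℓ ^ a) →
  ∀ χ ∈ Irr G, res M e χ = 1 → ((ℓ ^ (a - p) : ℕ) : ℤ) ∣ altSum ℓ M χ

/-- TPA: the main theorem for block idempotents, given the bound.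

Proof (compare `Helper43_AT5/T5A.lean`).  Induction on `|G|`.  If `opCore ℓ G ≠ ⊥`: `YzrStmt`.  Let
`opCore ℓ G = ⊥`.  ZCF: `a ≤ a'`, the exponent of `Zc V` is `ℓ ^ a'`; `Hz ℓ a' p e V`.  FSP: `f`.  UOP.
`U = Uz ℓ a' V ≠ ⊥`, an `ℓ`-group.  The first hypothesis of `T5.Ts5Stmt`: `T5.Ta5Stmt` with TYP (an
element of order `ℓ ^ a'` has a power of order `ℓ ^ a`) and the induction hypothesis
(`|N(Q)/Q| < |G|`).  The second one: TXP (`a₀ = a`; `Ihz` is the induction hypothesis).  So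
`YY ⊤ e = |G| (ln e - ln f_X)`, and `1 ≤ ln e, ln f_X ≤ ℓ ^ c` (`K9.LbdStmt`, `Bd` for `e`, `V` and for
`f_X`, `V_X`; ZCF: `Cl ℓ r p V_X`).  `H75.block_case` (with `T3.PosStmt`): `χ` with `res M e χ = 1`,
`|G| altSum χ = YY ⊤ e`, so `|altSum χ| < ℓ ^ c ≤ ℓ ^ (a' - p)`, and `ℓ ^ (a' - p)` divides it (DVP):
`altSum χ = 0`. -/
def TpaStmt : Prop := ∀ (ℓ : ℕ) [Fact ℓ.Prime] (M : Ideal (integralClosure ℤ ℂ)) [M.IsMaximal],
  (ℓ : integralClosure ℤ ℂ) ∈ M → ∀ r p c a : ℕ, Bd M ℓ r p c → c + p ≤ a → p < a →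
  ∀ (G : Type) [Group G] [Finite G] (e : G → FF M) (V : Subgroup G), IsBlk e → Tp ℓ e V →
  Cl ℓ r p V → (∃ z ∈ Zc V, orderOf z = ℓ ^ a) → YY ℓ ⊤ e = 0

/-- FNP: the final theorem, given the bound.  `D` is a defect group of `χ`; `Z ≤ D` is central in `D`
modulo `O_ℓ(G)`, `|D : Z| ≤ ℓ ^ p`, `Z / O_ℓ(G)` is generated by `r` elements, `z ∈ D` is central in `D`
modulo `O_ℓ(G)`, of order `ℓ ^ a` modulo `O_ℓ(G)`.

Proof (compare `Helper43_AT5/FN5.lean`).  `e` the block of `χ` (`H50.bid`), `O = opCore ℓ G`,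
`π : G → G/O`.  `H75.altSum_central`: `|G| altSum χ = |O|² YY ℓ ⊤ (push π e)`.  `T5.Dz5Stmt`:
`Tp ℓ (push π e) D'`, `D' = π(D)`.  `π(Z) ≤ Zc D'`, `|D' : π(Z)| ≤ |D : Z|`, `Uw ℓ (π Z) = π(Uw ℓ Z)`, so
`|π(Z) : Uw ℓ (π Z)| = |Z : Uw ℓ Z ⊔ O| ≤ ℓ ^ r`; `π z ∈ Zc D'` has order `ℓ ^ a`.  TPA. -/
def FnpStmt : Prop := ∀ (ℓ : ℕ) [Fact ℓ.Prime] (M : Ideal (integralClosure ℤ ℂ)) [M.IsMaximal],
  (ℓ : integralClosure ℤ ℂ) ∈ M → ∀ r p c a : ℕ, Bd M ℓ r p c → c + p ≤ a → p < a →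
  ∀ (G : Type) [Group G] [Finite G], opCore ℓ G ≤ Subgroup.center G → ∀ χ ∈ Irr G,
  ∀ D : Subgroup G, ML.IsDef ℓ M χ D → ∀ Z ≤ D, opCore ℓ G ≤ Z →
  (∀ x ∈ Z, ∀ d ∈ D, x * d * x⁻¹ * d⁻¹ ∈ opCore ℓ G) →
  Nat.card Z ≤ ℓ ^ r * Nat.card (Uw ℓ Z ⊔ opCore ℓ G : Subgroup G) →
  Nat.card D ≤ ℓ ^ p * Nat.card Z →
  (∃ z ∈ D, (∀ d ∈ D, z * d * z⁻¹ * d⁻¹ ∈ opCore ℓ G) ∧
    ∀ n : ℕ, z ^ n ∈ opCore ℓ G ↔ ℓ ^ a ∣ n) → altSum ℓ M χ = 0

end Pool.Agent.PP.TP
end
end -- Pool.Agent.ATP.Stmts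

section -- Pool.Agent.Helper43_AT5.T5A

/-!
# Squad AT5, row T5A: the main theorem for block idempotents
-/

open scoped BigOperators

noncomputable section

namespace Pool.Agent.PP.T5.H43

open Pool.Agent.Helper51_AWC Pool.Agent.Helper79_WRA Pool.Agent.PP Pool.Agent.PP.KF
open Pool.Agent.PP.K9 Pool.Agent.PP.K9.H97 Pool.Agent.PP.H75 Pool.Agent.PP.T3 Pool.Agent.PP.T2

attribute [local instance] Ideal.Quotient.field

theorem ep_pos (ℓ : ℕ) : 1 ≤ ep ℓ := by
  unfold ep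
  split_ifs <;> omega

/-- the order of `N(Q) / Q` -/
theorem card_quot_lt {G : Type} [Group G] [Finite G] {Q : Subgroup G} (hQ : Q ≠ ⊥) :
    Nat.card (Subgroup.normalizer (Q : Set G) ⧸ Q.subgroupOf (Subgroup.normalizer (Q : Set G))) <
      Nat.card G := by
  have h1 := Subgroup.card_eq_card_quotient_mul_card_subgroup
    (Q.subgroupOf (Subgroup.normalizer (Q : Set G)))
  have h2 : Nat.card (Q.subgroupOf (Subgroup.normalizer (Q : Set G))) = Nat.card Q :=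
    Nat.card_congr (Subgroup.subgroupOfEquivOfLe Subgroup.le_normalizer).toEquiv
  have h3 : 1 < Nat.card Q := (Subgroup.one_lt_card_iff_ne_bot Q).2 hQ
  have h4 : Nat.card (Subgroup.normalizer (Q : Set G)) ≤ Nat.card G :=
    Subgroup.card_le_card_group _
  have h5 : 0 < Nat.card (Subgroup.normalizer (Q : Set G) ⧸
      Q.subgroupOf (Subgroup.normalizer (Q : Set G))) := Nat.card_pos
  rw [h2] at h1
  refine lt_of_lt_of_le ?_ h4
  rw [h1]
  exact (Nat.lt_mul_iff_one_lt_right h5).2 h3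

theorem t5a (hKIN : KinStmt) (hFS5 : Fs5Stmt) (hUO5 : Uo5Stmt) (hTA5 : Ta5Stmt)
    (hTY5 : Ty5Stmt) (hTX5 : Tx5Stmt) (hTS5 : Ts5Stmt) (hLB5 : Lb5Stmt) (hDV5 : Dv5Stmt)
    (hOMF : OmfStmt) : T5aStmt := by
  intro ℓ hℓ M _ hM a p k hapk
  have hF : GoodF ℓ (FF M) := H50.fld ℓ Fact.out M hM
  have hep := ep_pos ℓ
  suffices hmain : ∀ n : ℕ, ∀ (G : Type) [Group G] [Finite G], Nat.card G = n →
      ∀ (e : G → FF M) (V : Subgroup G), IsBlk e → Tp ℓ e V → Cy ℓ a p k V →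
      YY ℓ ⊤ e = 0 by
    intro G _ _ e V h1 h2 h3
    exact hmain _ G rfl e V h1 h2 h3
  intro n
  induction n using Nat.strong_induction_on with
  | _ n ih =>
  intro G _ _ hn e V he hTp hCy
  by_cases hO : opCore ℓ G = ⊥
  swap
  · exact H96.yzr ℓ (FF M) hℓ.out G ⊤ inferInstance (opCore_top_ne rfl hO) e
  have hIh : Ih5 M ℓ a p k (Nat.card G) := by
    intro A _ _ hA f hf V' hV' hc
    exact ih (Nat.card A) (hn ▸ hA) A rfl f V' hf hV' hc
  have ha : 0 < a := hCy.pos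
  obtain ⟨u, huV, hcen, hord⟩ := hCy.cen
  have hsmall : Nat.card V < ℓ ^ (2 * a) :=
    lt_of_le_of_lt hCy.card (Nat.pow_lt_pow_right hℓ.out.one_lt (by have := hCy.lt; omega))
  obtain ⟨y, hy⟩ := hKIN ℓ M hM G e V u a ha he hTp huV hcen hord hsmall
  obtain ⟨f, hf⟩ := hFS5 ℓ M hM G a e V u y hy
  have hUo := hUO5 ℓ M hM G a e V u y hy f hf
  obtain ⟨o1, -, o3, -⟩ := hOMF ℓ G a u ha hord
  have h1 := hTS5 ℓ (FF M) hF G e he.1 (Om ℓ a u) f o1 o3 hUo
    (fun Q hQ hQ1 => hTA5 ℓ (FF M) hF G e he.1 (Om ℓ a u) f o1 hUo Q hQ (by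
      intro f₁ hf₁ hm hz
      obtain ⟨V', hV', hc'⟩ := hTY5 ℓ M hM G a p k e V u y hy hCy f hf Q hQ _
        (QuotientGroup.mk' (Q.subgroupOf (Subgroup.normalizer (Q : Set G))))
        (QuotientGroup.mk'_surjective _) (QuotientGroup.ker_mk' _) f₁ hf₁ hm hz
      refine hIh _ ?_ f₁ hf₁ V' hV' hc'
      exact card_quot_lt hQ1))
    (fun Q hQ hQ1 hQ2 => hTX5 ℓ M hM G a p k e V u y hy hCy f hf hIh _ rfl Q hQ hQ1 hQ2)
  set U : Subgroup G := Om ℓ a u with hU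
  have hVX : V ≤ Subgroup.normalizer (U : Set G) := Subgroup.le_normalizer.trans hf.nle
  have h2 := hLB5 ℓ M hM G e V u he hTp huV hcen a p ha (by omega) hord hCy.card
  have hcV : Nat.card (V.subgroupOf (Subgroup.normalizer (U : Set G))) = Nat.card V :=
    Nat.card_congr (Subgroup.subgroupOfEquivOfLe hVX).toEquiv
  have h3 := hLB5 ℓ M hM _ _ (V.subgroupOf (Subgroup.normalizer (U : Set G)))
    ⟨u, hVX huV⟩ hf.blk.blk hf.tp (Subgroup.mem_subgroupOf.2 huV)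
    (fun v hv => Subtype.ext (hcen v (Subgroup.mem_subgroupOf.1 hv))) a p ha (by omega)
    (by rw [← hord]; exact (Subgroup.orderOf_mk u (hVX huV)))
    (by rw [hcV]; exact hCy.card)
  obtain ⟨a1, -⟩ := H3.lbd ℓ M hM G e he.1 he.2.1
  obtain ⟨b1, -⟩ := H3.lbd ℓ M hM _ _ hf.blk.blk.1 hf.blk.blk.2.1
  have a2 : 1 ≤ ln e := a1
  have b2 : 1 ≤ ln (fun t : Subgroup.normalizer (U : Set G) => f t) := b1
  have hV : V ≠ ⊥ := by
    intro hb
    have h5 : u = 1 := Subgroup.mem_bot.1 (hb ▸ huV : u ∈ (⊥ : Subgroup G))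
    rw [h5, orderOf_one] at hord
    have h6 : 1 < ℓ ^ a := Nat.one_lt_pow ha.ne' hℓ.out.one_lt
    omega
  obtain ⟨χ, hχ, r1, -, r3⟩ := H75.block_case H20.nls H20.brm H63.smt H94.nch
    (H50.dic H20.ibn H20.nls H20.brm) H50.bid H50.chp H50.ldp H50.fld hℓ.out hM hO he
    (T3.H38.pos ℓ (FF M) hF G e he V hTp.pg hV hTp.gd)
  have h4 := hDV5 ℓ M hM G hO a p k e V he hTp hCy χ hχ r1
  rw [h1] at r3
  have h7 : (Nat.card G : ℤ) ≠ 0 := by exact_mod_cast Nat.card_pos.ne'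
  have h8 := mul_left_cancel₀ h7 r3
  have h9 : (ln e : ℤ) - ln (fun t : Subgroup.normalizer (U : Set G) => f t) = 0 := by
    rw [h8] at h4
    refine Int.eq_zero_of_abs_lt_dvd h4 ?_
    rw [abs_lt]
    push_cast
    have hle : ℓ ^ (3 * p + ep ℓ) ≤ ℓ ^ (a - k) :=
      Nat.pow_le_pow_right hℓ.out.one_lt.le (by omega)
    have h2' : (ln e : ℤ) ≤ (ℓ : ℤ) ^ (a - k) := by exact_mod_cast h2.trans hle
    have h3' : (ln (fun t : Subgroup.normalizer (U : Set G) => f t) : ℤ) ≤ (ℓ : ℤ) ^ (a - k) := by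
      exact_mod_cast h3.trans hle
    have a2' : (1 : ℤ) ≤ (ln e : ℤ) := by exact_mod_cast a2
    have b2' : (1 : ℤ) ≤ (ln (fun t : Subgroup.normalizer (U : Set G) => f t) : ℤ) := by
      exact_mod_cast b2
    constructor <;> linarith
  rw [h1, h9, mul_zero]

end Pool.Agent.PP.T5.H43
end
end -- Pool.Agent.Helper43_AT5.T5A

section -- Pool.Agent.Helper86_AT5.ORS

/-!
# Squad AT5, row ORS: a class fixed by a group of automorphisms of prime power order
-/

open scoped BigOperators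

noncomputable section

namespace Pool.Agent.PP.T5.H86

open Pool.Agent.Helper51_AWC Pool.Agent.Helper79_WRA Pool.Agent.PP Pool.Agent.PP.KF
open Pool.Agent.PP.K9 Pool.Agent.PP.K9.H97 Pool.Agent.PP.H75 Pool.Agent.PP.T3 Pool.Agent.PP.T2

section abs

variable {F H : Type} [Field F] [Group H] [Finite H]

/-- the central character of a block, as a linear form -/
theorem exists_char {ℓ : ℕ} (hF : GoodF ℓ F) {b : H → F} (hb : IsBlk b) :
    ∃ lam : (H → F) →ₗ[F] F, H50.IsChar (fun a : H → F => lam a) ∧ lam b = 1 := by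
  have h1 : ∃ (n : ℕ) (ρ : H →* Matrix (Fin n) (Fin n) F), IsIrr ρ ∧ ev ρ b ≠ 0 := by
    by_contra hcon
    push Not at hcon
    obtain ⟨k, hk⟩ := H20.ibn ℓ F hF H b hcon
    have h2 : ∀ j : ℕ, (mulF b)^[j] b = b := by
      intro j
      induction j with
      | zero => rfl
      | succ j ih => rw [Function.iterate_succ_apply', ih, hb.1.2]
    rw [h2] at hk
    exact hb.2.1 hk
  obtain ⟨n, ρ, hρ, hne⟩ := h1
  let i : Fin n := ⟨0, hρ.1⟩
  let lam : (H → F) →ₗ[F] F := (Matrix.entryLinearMap F F i i) ∘ₗ H94.evL ρ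
  have hlam : ∀ a : H → F, lam a = ev ρ a i i := by
    intro a
    change (H94.evL ρ a) i i = _
    rw [H94.evL_apply]
  have hsc : ∀ a : H → F, IsCl a → ev ρ a = Matrix.scalar (Fin n) (lam a) := by
    intro a ha
    obtain ⟨w, hw, -, -⟩ := H20.eig F H n ρ hρ a ha
    rw [hlam a, hw]
    simp
  refine ⟨lam, ⟨fun a b _ _ => map_sub lam a b, fun c a _ => ?_, fun a b ha hb => ?_⟩, ?_⟩
  · change lam (c • a) = c * lam a
    rw [map_smul, smul_eq_mul]
  · change lam (mulF a b) = lam a * lam b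
    rw [hlam (mulF a b), H20.ev_mulF, hsc a ha, hsc b hb, ← map_mul]
    simp
  · obtain ⟨w, hw, -, h01⟩ := H20.eig F H n ρ hρ b hb.1.1
    rcases h01 hb.1 with h | h
    · exfalso
      apply hne
      rw [hw, h, map_zero]
    · rw [hlam b, hw, h]
      simp

omit [Finite H] in
theorem cl_out {b : H → F} (hb : IsCl b) {x y : H} (h : IsConj x y) : b x = b y := by
  obtain ⟨z, hz⟩ := isConj_iff.1 h
  rw [← hz]
  exact (hb x z).symm

omit [Finite H] in
theorem clsum_congr {x y : H} (h : IsConj x y) :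
    clsum F (⊤ : Subgroup H) x = clsum F (⊤ : Subgroup H) y := by
  classical
  obtain ⟨z, hz⟩ := isConj_iff.1 h
  funext t
  unfold clsum
  have : (∃ q ∈ (⊤ : Subgroup H), t = q * x * q⁻¹) ↔ ∃ q ∈ (⊤ : Subgroup H), t = q * y * q⁻¹ := by
    constructor
    · rintro ⟨q, -, hq⟩
      refine ⟨q * z⁻¹, Subgroup.mem_top _, ?_⟩
      rw [hq, ← hz]
      group
    · rintro ⟨q, -, hq⟩
      refine ⟨q * z, Subgroup.mem_top _, ?_⟩
      rw [hq, ← hz]
      group
  exact if_congr this rfl rfl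

/-- a class function is a combination of the class sums -/
theorem sum_classes [Fintype (ConjClasses H)] {b : H → F} (hb : IsCl b) :
    b = ∑ K : ConjClasses H, b (Quotient.out K) • clsum F (⊤ : Subgroup H) (Quotient.out K) := by
  classical
  funext y
  rw [Finset.sum_apply, Finset.sum_eq_single (ConjClasses.mk y)]
  · have h1 : IsConj (Quotient.out (ConjClasses.mk y)) y :=
      ConjClasses.mk_eq_mk_iff_isConj.1 (Quotient.out_eq (ConjClasses.mk y))
    rw [Pi.smul_apply, cl_out hb h1, clsum_congr h1]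
    unfold clsum
    rw [if_pos ⟨1, Subgroup.mem_top _, by group⟩, smul_eq_mul, mul_one]
  · intro K _ hK
    rw [Pi.smul_apply]
    unfold clsum
    rw [if_neg, smul_zero]
    rintro ⟨q, -, hq⟩
    apply hK
    have h2 : IsConj (Quotient.out K) y := isConj_iff.2 ⟨q, hq.symm⟩
    rw [← ConjClasses.mk_eq_mk_iff_isConj] at h2
    rw [← h2]
    exact (Quotient.out_eq K).symm
  · intro h
    exact absurd (Finset.mem_univ _) h

/-- the action of a group of automorphisms on the classes -/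
def actC {P : Type} [Group P] (φ : P →* MulAut H) : MulAction P (ConjClasses H) where
  smul p c := ConjClasses.map (φ p).toMonoidHom c
  one_smul c := by
    induction c using Quotient.inductionOn with
    | h x =>
      change ConjClasses.mk (φ 1 x) = ConjClasses.mk x
      rw [map_one]
      rfl
  mul_smul p q c := by
    induction c using Quotient.inductionOn with
    | h x =>
      change ConjClasses.mk (φ (p * q) x) = ConjClasses.mk (φ p (φ q x))
      rw [map_mul]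
      rfl

theorem fixed_class {ℓ : ℕ} (hF : GoodF ℓ F) {b : H → F} (hb : IsBlk b) {P : Type} [Group P]
    [Finite P] (hP : IsPGroup ℓ P) (φ : P →* MulAut H) (hφ : ∀ p x, b (φ p x) = b x) :
    ∃ c : H, b c ≠ 0 ∧ Inv (clsum F (⊤ : Subgroup H) c) b ∧ ∀ p, IsConj (φ p c) c := by
  classical
  have := Fintype.ofFinite (ConjClasses H)
  have := hF.char
  have hℓ : Fact ℓ.Prime := ⟨hF.prime⟩
  obtain ⟨lam, hl, h1⟩ := exists_char hF hb
  let inst : MulAction P (ConjClasses H) := actC φ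
  have hinv : ∀ p (x : H), lam (clsum F (⊤ : Subgroup H) (φ p x)) =
      lam (clsum F (⊤ : Subgroup H) x) := by
    intro p x
    have hl' := H34.isChar_comp (φ p) hl
    have h2 := H50.char_uniq hb hl hl' h1 (by
      change lam (fun x => b (φ p x)) = 1
      have h3 : (fun x => b (φ p x)) = b := funext fun x => hφ p x
      rw [h3]
      exact h1) (H50.isCl_clsum (F := F) (φ p x))
    have h4 : (fun z => clsum F (⊤ : Subgroup H) (φ p x) (φ p z)) = clsum F (⊤ : Subgroup H) x := by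
      funext z
      unfold clsum
      have hiff : (∃ q ∈ (⊤ : Subgroup H), φ p z = q * φ p x * q⁻¹) ↔
          ∃ q ∈ (⊤ : Subgroup H), z = q * x * q⁻¹ := by
        constructor
        · rintro ⟨q, -, hq⟩
          refine ⟨(φ p).symm q, Subgroup.mem_top _, (φ p).injective ?_⟩
          rw [map_mul, map_mul, map_inv, MulEquiv.apply_symm_apply]
          exact hq
        · rintro ⟨q, -, hq⟩
          exact ⟨φ p q, Subgroup.mem_top _, by rw [hq, map_mul, map_mul, map_inv]⟩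
      simp only [hiff]
    change lam (clsum F (⊤ : Subgroup H) (φ p x)) =
      lam (fun z => clsum F (⊤ : Subgroup H) (φ p x) (φ p z)) at h2
    rw [h4] at h2
    exact h2
  have hout : ∀ x : H, IsConj (Quotient.out (ConjClasses.mk x)) x := fun x =>
    ConjClasses.mk_eq_mk_iff_isConj.1 (Quotient.out_eq (ConjClasses.mk x))
  have hsum : ∑ K : ConjClasses H, b (Quotient.out K) *
      lam (clsum F (⊤ : Subgroup H) (Quotient.out K)) = 1 := by
    rw [← h1]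
    conv_rhs => rw [sum_classes hb.1.1]
    rw [map_sum]
    exact Finset.sum_congr rfl fun K _ => by rw [map_smul, smul_eq_mul]
  rw [Pool.Agent.PP.H74.orbit_sum_ring hP _ ?_] at hsum
  · obtain ⟨K, hK, hK0⟩ := Finset.exists_ne_zero_of_sum_ne_zero (by rw [hsum]; exact one_ne_zero)
    have hfix := (Finset.mem_filter.1 hK).2
    refine ⟨Quotient.out K, left_ne_zero_of_mul hK0, ?_, ?_⟩
    · rcases H50.blk_dich hb (H50.isCl_clsum (F := F) (Quotient.out K)) with ⟨n, hn⟩ | h3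
      · exfalso
        apply right_ne_zero_of_mul hK0
        exact H50.zero_of_nil hb.1.1 (H50.isCl_clsum _) hl h1 hn
      · exact h3
    · intro p
      rw [← ConjClasses.mk_eq_mk_iff_isConj]
      have h5 : ConjClasses.mk (Quotient.out K) = K := Quotient.out_eq K
      have h6 := hfix p
      rw [← h5] at h6
      exact h6
  · intro p K
    induction K using Quotient.inductionOn with
    | h x =>
      have h2 : IsConj (Quotient.out (ConjClasses.mk (φ p x))) (φ p x) := hout _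
      change b (Quotient.out (ConjClasses.mk (φ p x))) *
        lam (clsum F (⊤ : Subgroup H) (Quotient.out (ConjClasses.mk (φ p x)))) =
        b (Quotient.out (ConjClasses.mk x)) *
        lam (clsum F (⊤ : Subgroup H) (Quotient.out (ConjClasses.mk x)))
      rw [cl_out hb.1.1 h2, cl_out hb.1.1 (hout x), clsum_congr h2, clsum_congr (hout x), hinv p x,
        hφ p x]

end abs

section grp

variable {G : Type} [Group G]

/-- conjugation by an element which normalises `C` -/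
def cjC (C : Subgroup G) (t : G) (ht : t ∈ Subgroup.normalizer (C : Set G)) : C ≃* C where
  toFun x := ⟨t * x * t⁻¹, (Subgroup.mem_normalizer_iff.1 ht x).1 x.2⟩
  invFun x := ⟨t⁻¹ * x * t, by
    have := (Subgroup.mem_normalizer_iff.1 (inv_mem ht) x).1 x.2
    rwa [inv_inv] at this⟩
  left_inv x := Subtype.ext (by change t⁻¹ * (t * x * t⁻¹) * t = x; group)
  right_inv x := Subtype.ext (by change t * (t⁻¹ * x * t) * t⁻¹ = x; group)
  map_mul' x y := Subtype.ext (by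
    change t * (x * y) * t⁻¹ = t * x * t⁻¹ * (t * y * t⁻¹)
    group)

/-- the action of a subgroup of the normaliser -/
def cjH (C P : Subgroup G) (hP : P ≤ Subgroup.normalizer (C : Set G)) : P →* MulAut C where
  toFun p := cjC C p (hP p.2)
  map_one' := by
    apply MulEquiv.ext
    intro x
    apply Subtype.ext
    change ((1 : P) : G) * x * ((1 : P) : G)⁻¹ = x
    simp
  map_mul' p q := by
    apply MulEquiv.ext
    intro x
    apply Subtype.ext
    change ((p * q : P) : G) * x * ((p * q : P) : G)⁻¹ = p * (q * x * (q : G)⁻¹) * (p : G)⁻¹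
    push_cast
    group

end grp

theorem ors : OrsStmt := by
  intro ℓ hℓ F _ hF G _ _ C S hCS hSN hidx β hβ hst
  obtain ⟨n, hn⟩ := hidx
  -- a Sylow subgroup of `S`
  have hCn : (C.subgroupOf S).Normal := by
    constructor
    intro c hc s
    rw [Subgroup.mem_subgroupOf] at hc ⊢
    exact (Subgroup.mem_normalizer_iff.1 (hSN s.2) c).1 hc
  obtain ⟨P₀⟩ : Nonempty (Sylow ℓ S) := inferInstance
  have hsup : (P₀ : Subgroup S) ⊔ C.subgroupOf S = ⊤ := by
    rw [← Subgroup.index_eq_one]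
    have h1 : ((P₀ : Subgroup S) ⊔ C.subgroupOf S).index ∣ (P₀ : Subgroup S).index :=
      Subgroup.index_dvd_of_le le_sup_left
    have h2 : ((P₀ : Subgroup S) ⊔ C.subgroupOf S).index ∣ ℓ ^ n := by
      rw [← hn]
      exact Subgroup.index_dvd_of_le le_sup_right
    have h3 : ¬ ℓ ∣ (P₀ : Subgroup S).index := P₀.not_dvd_index
    obtain ⟨m, -, hm⟩ := (Nat.dvd_prime_pow hℓ.out).1 h2
    rcases Nat.eq_zero_or_pos m with h0 | h0
    · rw [hm, h0, pow_zero]
    · exfalso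
      apply h3
      refine dvd_trans ?_ h1
      rw [hm]
      exact dvd_pow_self ℓ h0.ne'
  let P : Subgroup G := (P₀ : Subgroup S).map S.subtype
  have hPN : P ≤ Subgroup.normalizer (C : Set G) := by
    rintro _ ⟨s, -, rfl⟩
    exact hSN s.2
  have hPp : IsPGroup ℓ P := P₀.isPGroup'.map S.subtype
  obtain ⟨c, hc0, hci, hcf⟩ := fixed_class hF hβ.blk hPp (cjH C P hPN) (by
    intro p x
    obtain ⟨s, hs, hsp⟩ := p.2
    have h1 : cj (p : G) β = β := hst p (by rw [← hsp]; exact s.2)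
    have h2 : β ((p : G) * x * (p : G)⁻¹) = cj (p : G) β ((p : G) * x * (p : G)⁻¹) := by rw [h1]
    have h3 : cj (p : G) β ((p : G) * x * (p : G)⁻¹) = β x := by
      unfold cj
      congr 1
      group
    exact h2.trans h3)
  refine ⟨c, c.2, hc0, ?_, ?_⟩
  · have h1 : (fun t : C => clsum F C (c : G) t) = clsum F (⊤ : Subgroup C) c :=
      H94.clsum_restrict C c
    rw [h1]
    exact hci
  · intro s hs
    have h1 : (⟨s, hs⟩ : S) ∈ (P₀ : Subgroup S) ⊔ C.subgroupOf S := by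
      rw [hsup]
      exact Subgroup.mem_top _
    rw [sup_comm, Subgroup.mem_sup_of_normal_left] at h1
    obtain ⟨x₀, hx₀, p, hp, hxp⟩ := h1
    have hsx : s = x₀ * p := congrArg Subtype.val hxp.symm
    have hpP : (p : G) ∈ P := ⟨p, hp, rfl⟩
    have h2 := hcf ⟨p, hpP⟩
    obtain ⟨z, hz⟩ := isConj_iff.1 h2
    have hz' : (z : G) * (p * c * (p : G)⁻¹) * (z : G)⁻¹ = c := congrArg Subtype.val hz
    refine ⟨z * (x₀ : G)⁻¹, mul_mem z.2 (inv_mem hx₀), ?_⟩
    have h3 : (z : G) * (x₀ : G)⁻¹ * s = z * p := by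
      rw [hsx]
      group
    rw [h3]
    calc (z : G) * p * c = z * (p * c * (p : G)⁻¹) * (z : G)⁻¹ * (z * p) := by group
      _ = c * (z * p) := by rw [hz']

end Pool.Agent.PP.T5.H86
end
end -- Pool.Agent.Helper86_AT5.ORS

section -- Pool.Agent.Helper39_ATP.ZCF

/-!
# Squad ATP, row ZCF: the centre and the subgroup `Uz`
-/

open scoped BigOperators

noncomputable section

namespace Pool.Agent.PP.TP.H39

open Pool.Agent.Helper51_AWC Pool.Agent.Helper79_WRA Pool.Agent.PP Pool.Agent.PP.KF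
open Pool.Agent.PP.K9 Pool.Agent.PP.K9.H97 Pool.Agent.PP.H75 Pool.Agent.PP.T3 Pool.Agent.PP.T2
open Pool.Agent.PP.TB Pool.Agent.PP.TP

section

variable {G : Type} [Group G]

theorem mem_Zc {V : Subgroup G} {x : G} : x ∈ Zc V ↔ x ∈ V ∧ ∀ h ∈ V, h * x = x * h := by
  unfold Zc
  rw [Subgroup.mem_inf, Subgroup.mem_centralizer_iff]
  exact Iff.rfl

theorem mem_cS {g : G} {P : Subgroup G} {x : G} : x ∈ conjS g P ↔ g⁻¹ * x * g ∈ P := by
  unfold conjS
  rw [Subgroup.mem_map]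
  constructor
  · rintro ⟨y, hy, rfl⟩
    have h : g⁻¹ * (MulAut.conj g).toMonoidHom y * g = y := by
      change g⁻¹ * (g * y * g⁻¹) * g = y
      group
    rw [h]
    exact hy
  · intro h
    refine ⟨_, h, ?_⟩
    change g * (g⁻¹ * x * g) * g⁻¹ = x
    group

theorem zc_le (V : Subgroup G) : Zc V ≤ V := inf_le_left

theorem le_cent_zc (V : Subgroup G) : V ≤ Subgroup.centralizer (Zc V : Set G) := by
  intro v hv
  rw [Subgroup.mem_centralizer_iff]
  intro h hh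
  exact ((mem_Zc.mp hh).2 v hv).symm

theorem zc_comm (V : Subgroup G) : ∀ x ∈ Zc V, ∀ y ∈ Zc V, x * y = y * x := by
  intro x hx y hy
  exact (mem_Zc.mp hy).2 x (zc_le V hx)

theorem mem_norm {V : Subgroup G} {n : G} :
    n ∈ Subgroup.normalizer (V : Set G) ↔ ∀ x, x ∈ V ↔ n * x * n⁻¹ ∈ V := by
  exact Subgroup.mem_normalizer_iff

theorem zc_norm (V : Subgroup G) :
    Subgroup.normalizer (V : Set G) ≤ Subgroup.normalizer (Zc V : Set G) := by
  have key : ∀ n ∈ Subgroup.normalizer (V : Set G), ∀ x, x ∈ Zc V → n * x * n⁻¹ ∈ Zc V := by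
    intro n hn x hx
    rw [mem_Zc] at hx ⊢
    refine ⟨(mem_norm.mp hn x).mp hx.1, ?_⟩
    intro h hh
    have h1 : n⁻¹ * h * n ∈ V := by
      have h2 := (mem_norm.mp hn (n⁻¹ * h * n)).mpr
      apply h2
      have h3 : n * (n⁻¹ * h * n) * n⁻¹ = h := by group
      rw [h3]
      exact hh
    have h4 := hx.2 _ h1
    calc h * (n * x * n⁻¹) = n * ((n⁻¹ * h * n) * x) * n⁻¹ := by group
      _ = n * (x * (n⁻¹ * h * n)) * n⁻¹ := by rw [h4]
      _ = n * x * n⁻¹ * h := by group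
  intro n hn
  rw [mem_norm]
  intro x
  refine ⟨key n hn x, ?_⟩
  intro h
  have h1 := key n⁻¹ (inv_mem hn) _ h
  have h2 : n⁻¹ * (n * x * n⁻¹) * n⁻¹⁻¹ = x := by group
  rwa [h2] at h1

theorem zc_conj (V : Subgroup G) (g : G) : Zc (conjS g V) = conjS g (Zc V) := by
  ext x
  rw [mem_Zc, mem_cS, mem_cS, mem_Zc]
  constructor
  · rintro ⟨h1, h2⟩
    refine ⟨h1, ?_⟩
    intro h hh
    have h3 : g * h * g⁻¹ ∈ conjS g V := by
      rw [mem_cS]
      have h4 : g⁻¹ * (g * h * g⁻¹) * g = h := by group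
      rw [h4]
      exact hh
    have h5 := h2 _ h3
    calc h * (g⁻¹ * x * g) = g⁻¹ * (g * h * g⁻¹ * x) * g := by group
      _ = g⁻¹ * (x * (g * h * g⁻¹)) * g := by rw [h5]
      _ = g⁻¹ * x * g * h := by group
  · rintro ⟨h1, h2⟩
    refine ⟨h1, ?_⟩
    intro h hh
    rw [mem_cS] at hh
    have h5 := h2 _ hh
    calc h * x = g * (g⁻¹ * h * g * (g⁻¹ * x * g)) * g⁻¹ := by group
      _ = g * (g⁻¹ * x * g * (g⁻¹ * h * g)) * g⁻¹ := by rw [h5]
      _ = x * h := by group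

theorem zc_sub (V X : Subgroup G) (hX : V ≤ X) :
    Zc (V.subgroupOf X) = (Zc V).subgroupOf X := by
  ext x
  rw [mem_Zc, Subgroup.mem_subgroupOf, Subgroup.mem_subgroupOf, mem_Zc]
  constructor
  · rintro ⟨h1, h2⟩
    refine ⟨h1, ?_⟩
    intro h hh
    have h3 := h2 ⟨h, hX hh⟩ (by rw [Subgroup.mem_subgroupOf]; exact hh)
    exact congrArg Subtype.val h3
  · rintro ⟨h1, h2⟩
    refine ⟨h1, ?_⟩
    intro h hh
    rw [Subgroup.mem_subgroupOf] at hh
    exact Subtype.ext (h2 _ hh)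

end

theorem cent_anti {G : Type} [Group G] {A B : Subgroup G} (h : A ≤ B) :
    Subgroup.centralizer (B : Set G) ≤ Subgroup.centralizer (A : Set G) :=
  Subgroup.centralizer_le h

/-- an abelian finite group has an element whose order is the exponent -/
theorem ex_order {G : Type} [Group G] [Finite G] (V : Subgroup G)
    (hab : ∀ x ∈ V, ∀ y ∈ V, x * y = y * x) : ∃ z ∈ V, orderOf z = Monoid.exponent V := by
  letI : CommGroup V := { (inferInstance : Group V) with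
    mul_comm := fun x y => Subtype.ext (hab x x.2 y y.2) }
  have h1 : ∃ g : V, orderOf g = Monoid.exponent V := by
    have h2 := Monoid.exists_orderOf_eq_exponent (G := V) (Monoid.ExponentExists.of_finite)
    exact h2
  obtain ⟨g, hg⟩ := h1
  refine ⟨g, g.2, ?_⟩
  rw [← hg]
  exact Subgroup.orderOf_coe g

theorem card_conjS {G : Type} [Group G] (g : G) (V : Subgroup G) :
    Nat.card (conjS g V) = Nat.card V := by
  unfold conjS
  exact (Nat.card_congr (V.equivMapOfInjective _ (MulAut.conj g).injective).toEquiv).symm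

theorem card_subOf {G : Type} [Group G] (V X : Subgroup G) (h : V ≤ X) :
    Nat.card (V.subgroupOf X) = Nat.card V :=
  Nat.card_congr (Subgroup.subgroupOfEquivOfLe h).toEquiv

theorem zcf (pwu : T2.PwuStmt) : ZcfStmt := by
  intro G _ _ V
  refine ⟨⟨zc_le V, le_cent_zc V, zc_comm V, zc_norm V, zc_conj V, zc_sub V⟩, ?_, ?_, ?_⟩
  · intro ℓ a
    obtain ⟨p1, p2, p3, p4, p5, p6, p7, p8⟩ := pwu G (ℓ ^ (a - 1)) (Zc V) (zc_comm V)
    have hsub : Uz ℓ a V ≤ Zc V := p2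
    refine ⟨hsub, (le_cent_zc V).trans (cent_anti hsub), (zc_norm V).trans p3, ?_, ?_, ?_⟩
    · intro g
      change Uw (ℓ ^ (a - 1)) (Zc (conjS g V)) = _
      rw [zc_conj V g]
      exact p5 g
    · intro X hX
      change Uw (ℓ ^ (a - 1)) (Zc (V.subgroupOf X)) = _
      rw [zc_sub V X hX]
      exact p7 X ((zc_le V).trans hX)
    · intro hℓ ha hexp
      haveI : Fact ℓ.Prime := ⟨hℓ⟩
      refine ⟨(p8 ℓ a ha hexp rfl).1, ?_⟩
      obtain ⟨z, hz, hz'⟩ := ex_order (Zc V) (zc_comm V)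
      exact ⟨z, hz, hz'.trans hexp⟩
  · intro ℓ r p hCl
    obtain ⟨Z₀, hle, h1, h2⟩ := hCl
    have hab : ∀ x ∈ Z₀, ∀ y ∈ Z₀, x * y = y * x := fun x hx y hy =>
      zc_comm V x (hle hx) y (hle hy)
    obtain ⟨p1, p2, p3, p4, p5, p6, p7, p8⟩ := pwu G ℓ Z₀ hab
    refine ⟨?_, ?_, ?_⟩
    · refine h1.trans (Nat.mul_le_mul_left _ ?_)
      exact Subgroup.card_le_of_le hle
    · intro g
      refine ⟨conjS g Z₀, ?_, ?_, ?_⟩
      · rw [zc_conj V g]
        intro x hx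
        rw [mem_cS] at hx ⊢
        exact hle hx
      · rw [card_conjS, card_conjS]
        exact h1
      · rw [p5 g, card_conjS, card_conjS]
        exact h2
    · intro X hX
      have hZX : Z₀ ≤ X := hle.trans ((zc_le V).trans hX)
      refine ⟨Z₀.subgroupOf X, ?_, ?_, ?_⟩
      · rw [zc_sub V X hX]
        intro x hx
        rw [Subgroup.mem_subgroupOf] at hx ⊢
        exact hle hx
      · rw [card_subOf V X hX, card_subOf Z₀ X hZX]
        exact h1
      · rw [p7 X hZX, card_subOf Z₀ X hZX, card_subOf _ X (p2.trans hZX)]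
        exact h2
  · intro ℓ a hℓ hpg hz
    haveI : Fact ℓ.Prime := ⟨hℓ⟩
    obtain ⟨z, hz, hza⟩ := hz
    obtain ⟨w, hw, hw'⟩ := ex_order (Zc V) (zc_comm V)
    obtain ⟨k, hk⟩ := hpg ⟨w, zc_le V hw⟩
    have hk' : w ^ ℓ ^ k = 1 := by
      have := congrArg Subtype.val hk
      simpa using this
    obtain ⟨a', -, ha'⟩ := (Nat.dvd_prime_pow hℓ).mp (orderOf_dvd_of_pow_eq_one hk')
    refine ⟨a', ?_, by rw [← hw', ha']⟩
    have hd : orderOf z ∣ Monoid.exponent (Zc V) := by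
      have h1 : orderOf (⟨z, hz⟩ : Zc V) ∣ Monoid.exponent (Zc V) := Monoid.order_dvd_exponent _
      rwa [Subgroup.orderOf_mk] at h1
    rw [hza, ← hw', ha'] at hd
    exact (Nat.pow_dvd_pow_iff_le_right hℓ.one_lt).mp hd

end Pool.Agent.PP.TP.H39
end
end -- Pool.Agent.Helper39_ATP.ZCF

section -- Pool.Agent.Helper43_ATP.TPA

/-!
# Squad ATP, row TPA: the main theorem for block idempotents, given the bound
-/

open scoped BigOperators

noncomputable section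

namespace Pool.Agent.PP.TP.H43

open Pool.Agent.Helper51_AWC Pool.Agent.Helper79_WRA Pool.Agent.PP Pool.Agent.PP.KF
open Pool.Agent.PP.K9 Pool.Agent.PP.K9.H97 Pool.Agent.PP.H75 Pool.Agent.PP.T3 Pool.Agent.PP.T2
open Pool.Agent.PP.TB

attribute [local instance] Ideal.Quotient.field

/-- an element of order `ℓ ^ a'` has a power of order `ℓ ^ a` -/
theorem pow_ord {G : Type} [Group G] {ℓ a a' : ℕ} (hℓ : ℓ.Prime) (h : a ≤ a') {V : Subgroup G}
    (hz : ∃ z ∈ V, orderOf z = ℓ ^ a') : ∃ z ∈ V, orderOf z = ℓ ^ a := by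
  obtain ⟨z, hz, ho⟩ := hz
  refine ⟨z ^ ℓ ^ (a' - a), V.pow_mem hz _, ?_⟩
  rw [orderOf_pow_of_dvd (pow_ne_zero _ hℓ.ne_zero) (by
    rw [ho]; exact pow_dvd_pow ℓ (Nat.sub_le a' a)), ho, Nat.pow_div (Nat.sub_le a' a) hℓ.pos]
  congr 1
  omega

theorem tpa (hZCF : ZcfStmt) (hFSP : FspStmt) (hUOP : UopStmt) (hTA5 : T5.Ta5Stmt)
    (hTYP : TypStmt) (hTXP : TxpStmt) (hTS5 : T5.Ts5Stmt) (hDVP : DvpStmt) : TpaStmt := by
  intro ℓ hℓ M _ hM r p c a hBd hca hpa
  have hF : GoodF ℓ (FF M) := H50.fld ℓ Fact.out M hM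
  suffices hmain : ∀ n : ℕ, ∀ (G : Type) [Group G] [Finite G], Nat.card G = n →
      ∀ (e : G → FF M) (V : Subgroup G), IsBlk e → Tp ℓ e V → Cl ℓ r p V →
      (∃ z ∈ Zc V, orderOf z = ℓ ^ a) → YY ℓ ⊤ e = 0 by
    intro G _ _ e V h1 h2 h3 h4
    exact hmain _ G rfl e V h1 h2 h3 h4
  intro n
  induction n using Nat.strong_induction_on with
  | _ n ih =>
  intro G _ _ hn e V he hTp hCl hz
  by_cases hO : opCore ℓ G = ⊥
  swap
  · exact H96.yzr ℓ (FF M) hℓ.out G ⊤ inferInstance (opCore_top_ne rfl hO) e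
  have hIh : Ihz M ℓ r p a (Nat.card G) := by
    intro A _ _ hA f hf V' hV' hc hz'
    exact ih (Nat.card A) (hn ▸ hA) A rfl f V' hf hV' hc hz'
  obtain ⟨z1, z2, z3, z4⟩ := hZCF G V
  obtain ⟨a', haa', hexp⟩ := z4 ℓ a hℓ.out hTp.pg hz
  obtain ⟨c1, c2, c3⟩ := z3 ℓ r p hCl
  have hHz : Hz ℓ a' p e V := ⟨he, hTp, hexp, c1, by omega⟩
  obtain ⟨f, hf⟩ := hFSP ℓ M hM G a' p e V hHz
  have hUo := hUOP ℓ M hM G a' p e V hHz f hf
  obtain ⟨u1, u2, u3, u4, u5, u6⟩ := z2 ℓ a'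
  obtain ⟨u7, hz'⟩ := u6 hℓ.out (by omega) hexp
  have hUV : Uz ℓ a' V ≤ V := u1.trans z1.1
  have o1 : IsPGroup ℓ (Uz ℓ a' V) := hTp.pg.to_le hUV
  have h1 := hTS5 ℓ (FF M) hF G e he.1 (Uz ℓ a' V) f o1 u7 hUo
    (fun Q hQ hQ1 => hTA5 ℓ (FF M) hF G e he.1 (Uz ℓ a' V) f o1 hUo Q hQ (by
      intro f₁ hf₁ hm hg
      obtain ⟨V', hV', hc', hz''⟩ := hTYP ℓ M hM G a' p r e V hHz hCl f hf Q hQ _
        (QuotientGroup.mk' (Q.subgroupOf (Subgroup.normalizer (Q : Set G))))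
        (QuotientGroup.mk'_surjective _) (QuotientGroup.ker_mk' _) f₁ hf₁ hm hg
      refine hIh _ ?_ f₁ hf₁ V' hV' hc' (pow_ord hℓ.out haa' hz'')
      exact T5.H43.card_quot_lt hQ1))
    (fun Q hQ hQ1 hQ2 => hTXP ℓ M hM G a' p r a e V hHz hCl f hf haa' hIh _ rfl Q hQ hQ1 hQ2)
  set U : Subgroup G := Uz ℓ a' V with hU
  have hVX : V ≤ Subgroup.normalizer (U : Set G) := Subgroup.le_normalizer.trans hf.nle
  have h2 : ln e ≤ ℓ ^ c := hBd G e V he hTp hCl
  have h3 := hBd _ _ (V.subgroupOf (Subgroup.normalizer (U : Set G))) hf.blk.blk hf.tp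
    (c3 _ hVX)
  obtain ⟨a1, -⟩ := H3.lbd ℓ M hM G e he.1 he.2.1
  obtain ⟨b1, -⟩ := H3.lbd ℓ M hM _ _ hf.blk.blk.1 hf.blk.blk.2.1
  have a2 : 1 ≤ ln e := a1
  have b2 : 1 ≤ ln (fun t : Subgroup.normalizer (U : Set G) => f t) := b1
  have hV : V ≠ ⊥ := by
    intro hb
    apply u7
    rw [eq_bot_iff, ← hb]
    exact hUV
  obtain ⟨χ, hχ, r1, -, r3⟩ := H75.block_case H20.nls H20.brm H63.smt H94.nch
    (H50.dic H20.ibn H20.nls H20.brm) H50.bid H50.chp H50.ldp H50.fld hℓ.out hM hO he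
    (T3.H38.pos ℓ (FF M) hF G e he V hTp.pg hV hTp.gd)
  have h4 := hDVP ℓ M hM G hO a' p e V he hTp c1 hz' χ hχ r1
  rw [h1] at r3
  have h7 : (Nat.card G : ℤ) ≠ 0 := by exact_mod_cast Nat.card_pos.ne'
  have h8 := mul_left_cancel₀ h7 r3
  have h9 : (ln e : ℤ) - ln (fun t : Subgroup.normalizer (U : Set G) => f t) = 0 := by
    rw [h8] at h4
    refine Int.eq_zero_of_abs_lt_dvd h4 ?_
    rw [abs_lt]
    push_cast
    have hle : ℓ ^ c ≤ ℓ ^ (a' - p) := Nat.pow_le_pow_right hℓ.out.one_lt.le (by omega)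
    have h2' : (ln e : ℤ) ≤ (ℓ : ℤ) ^ (a' - p) := by exact_mod_cast h2.trans hle
    have h3' : (ln (fun t : Subgroup.normalizer (U : Set G) => f t) : ℤ) ≤
        (ℓ : ℤ) ^ (a' - p) := by
      exact_mod_cast h3.trans hle
    have a2' : (1 : ℤ) ≤ (ln e : ℤ) := by exact_mod_cast a2
    have b2' : (1 : ℤ) ≤ (ln (fun t : Subgroup.normalizer (U : Set G) => f t) : ℤ) := by
      exact_mod_cast b2
    constructor <;> linarith
  rw [h1, h9, mul_zero]

end Pool.Agent.PP.TP.H43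
end
end -- Pool.Agent.Helper43_ATP.TPA
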