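import Pool.Agent.Helper12_AWB.B123
import Pool.Agent.Helper12_AWB.B170
import Pool.Agent.Helper12_AWB.B174
import Pool.Agent.Helper12_AWB.B261

/-!
# Merged copies (generated) of the modules

* `Pool.Agent.Helper65_AT3.QT1`
* `Pool.Agent.Helper77_AT5.LBX`
* `Pool.Agent.Helper53_AT10.IXP0`
* `Pool.Agent.Helper53_AT10.IXP`
* `Pool.Agent.Helper76_AT10.SCL`
* `Pool.Agent.Helper31_ATP.PQZ`
-/

set_option autoImplicit false

section -- Pool.Agent.Helper65_AT3.QT1

/-!
# AT3, row QT1: the defect groups of the blocks of `N(Q)/Q`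
-/

open scoped BigOperators

noncomputable section

namespace Pool.Agent.PP.T3.H65

open Pool.Agent.Helper51_AWC Pool.Agent.Helper79_WRA Pool.Agent.PP Pool.Agent.PP.KF
open Pool.Agent.PP.K9 Pool.Agent.PP.K9.H97 Pool.Agent.PP.H75 Pool.Agent.PP.T3

attribute [local instance] Ideal.Quotient.field

set_option linter.unusedSectionVars false

section cov

variable {F A : Type} [Field F] [Group A] [Finite A]

/-- the product with a block of a normal subgroup is supported on its stabiliser -/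
theorem supp_st {C : Subgroup A} {g f : A → F} (hg : Bd C g) (hf : IsIdem f) :
    ∀ x, x ∉ st g → mulF f g x = 0 := by
  intro x hx
  have := Fintype.ofFinite (Om g)
  have h2 : (omk g 1).1 = g := omk_one
  have h1 := (hg.fam2 hf).supp (omk g 1) x (by
    intro h
    rw [om_stab, h2] at h
    exact hx h)
  change mulF f (omk g 1).1 x = 0 at h1
  rwa [h2] at h1

/-- the defect groups of a block of a normal subgroup are good for the blocks over it -/
theorem cover_gd {ℓ : ℕ} (hF : GoodF ℓ F) {C : Subgroup A} {g f : A → F} (hg : Bd C g)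
    (hf : IsIdem f) (hfg : mulF f g ≠ 0) {P : Subgroup A} (hPC : P ≤ C) (hP : IsPGroup ℓ P)
    (hgP : Gd g P) : Gd f P := by
  obtain ⟨S, hS⟩ : ∃ S : Subgroup A, S = st g := ⟨_, rfl⟩
  have hCS : C ≤ S := by
    rw [hS]
    exact hg.le
  have hsup : ∀ x, x ∉ S → mulF f g x = 0 := by
    rw [hS]
    exact supp_st hg hf
  have hidem : mulF (mulF f g) (mulF f g) = mulF f g := by
    rw [smul_mul_idem hf, hg.idem]
  have hcj : ∀ s ∈ S, cj s g = g := by
    intro s hs
    rw [hS] at hs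
    exact hs
  have hcl : ∀ s ∈ S, ∀ x, g (s * x * s⁻¹) = g x := fun s hs =>
    (cj_eq_iff s g).1 (hcj s hs)
  have hI : IsIdem (fun t : S => mulF f g t) := by
    refine ⟨?_, ?_⟩
    · intro x y
      have h1 : cj (y : A) (mulF f g) = mulF f g := by
        rw [cj_mulF, cj_isCl _ hf.1, hcj y y.2]
      exact (cj_eq_iff _ _).1 h1 x
    · rw [← mulF_res S (mulF f g) hsup, hidem]
  have h0 : (fun t : S => mulF f g t) ≠ 0 := by
    intro h
    exact hfg (eq_of_res hsup (fun _ _ => rfl) h)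
  have hm : mulF (fun t : S => mulF f g t) (fun t : S => g t) = fun t : S => mulF f g t := by
    rw [← mulF_res S g hsup, H20.mulF_assoc, hg.idem]
  have hB : SBlk (C.subgroupOf S) (fun t : S => g t) := by
    refine ⟨?_, ?_, ?_⟩
    · intro x hx
      exact hg.supp x (fun h => hx (Subgroup.mem_subgroupOf.2 h))
    · intro x y
      exact hcl y y.2 x
    · exact H20.IsBlk_equiv (Subgroup.subgroupOfEquivOfLe hCS) hg.blk
  have hn : (C.subgroupOf S).Normal := by
    have := hg.normal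
    exact Subgroup.normal_subgroupOf
  have hPS : P ≤ S := hPC.trans hCS
  obtain ⟨x, hx, hx0⟩ := DF.H43.covE ℓ F hF S (C.subgroupOf S) hn _ hB _ hI h0 hm
    (P.subgroupOf S) (fun y hy => Subgroup.mem_subgroupOf.2 (hPC (Subgroup.mem_subgroupOf.1 hy)))
    (hP.comap_of_injective S.subtype S.subtype_injective) (by
      obtain ⟨y, hy, hy0⟩ := hgP
      have hyC : y ∈ C := by
        by_contra h
        exact hy0 (hg.supp y h)
      exact ⟨⟨y, hCS hyC⟩, (cent_sub hPS _).2 hy, hy0⟩)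
  have hinv : H66.Inv P g := fun p hp t => hcl p (hPS hp) t
  have hbr := H66.br_mulF hF hP (H66.IsCl.inv hf.1 P) hinv
  apply C2.H3.gd_of_br'
  intro h
  rw [h, mulF_zero_left] at hbr
  apply hx0
  have h1 := congrFun hbr (x : A)
  rw [H66.br_of_mem ((cent_sub hPS _).1 hx)] at h1
  exact h1

end cov

section pushes

variable {F G A : Type} [Field F] [Group G] [Finite G] [Group A] [Finite A]

/-- the restriction of the image to the range -/
theorem push_range (q : G →* A) (b : G → F) :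
    (fun t : q.range => push q b t) = push q.rangeRestrict b := by
  classical
  have := Fintype.ofFinite G
  funext y
  rw [push_eq, push_eq]
  refine Finset.sum_congr rfl fun x _ => ?_
  have h2 : q x = y ↔ q.rangeRestrict x = y := by
    constructor
    · intro h
      exact Subtype.ext h
    · rintro rfl
      rfl
  by_cases h : q x = y
  · rw [if_pos h, if_pos (h2.1 h)]
  · rw [if_neg h, if_neg (fun h' => h (h2.2 h'))]

end pushes

/-- row QT1 -/
theorem qt1 (dug : DugStmt) (psg : PsgStmt) : Qt1Stmt := by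
  intro ℓ _ M _ hM G _ _ e V γ hLd Q hQp A _ _ p hp hker f hf hff
  classical
  have hF : GoodF ℓ (FF M) := H50.fld ℓ Fact.out M hM
  obtain ⟨C, hC⟩ : ∃ C : Subgroup G, C = Subgroup.centralizer (Q : Set G) := ⟨_, rfl⟩
  have hCN : C ≤ Subgroup.normalizer (Q : Set G) := by
    rw [hC]
    exact Subgroup.centralizer_le_normalizer _
  have he : IsIdem e := hLd.blk.1
  have hmk : ∀ x : Subgroup.normalizer (Q : Set G), p x = 1 ↔ (x : G) ∈ Q := by
    intro x
    rw [← MonoidHom.mem_ker, hker, Subgroup.mem_subgroupOf]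
  have hf0 : f ≠ 0 := hf.2.1
  -- the idempotents
  obtain ⟨f', hf'⟩ : ∃ f' : A → FF M,
    f' = push p (fun t : Subgroup.normalizer (Q : Set G) => br Q e t) := ⟨_, rfl⟩
  have hbrQ : IsIdem (fun t : Subgroup.normalizer (Q : Set G) => br Q e t) :=
    (H20.brm ℓ (FF M) hF G Q _ hQp (by rw [← hC]; exact hCN) le_rfl).2.2 e he
  have hf'I : IsIdem f' := by
    rw [hf']
    exact push_isIdem hp hbrQ
  rw [← hf'] at hff
  -- `Q` is good for `e`
  have hbr0 : br Q e ≠ 0 := by
    intro h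
    apply hf0
    rw [← hff, hf', h]
    have h1 : push p (fun t : Subgroup.normalizer (Q : Set G) => (0 : G → FF M) t) = 0 :=
      push_zero p
    rw [h1, mulF_zero_left]
  have hQe : Gd e Q := C2.H3.gd_of_br' hbr0
  obtain ⟨hfm, -, -⟩ := K9.H69.fmg ℓ M hM G e hLd.blk V hLd.tp
  obtain ⟨g0, hg0⟩ := hfm Q hQp hQe
  have hQab : ∀ a ∈ Q, ∀ b ∈ Q, a * b = b * a := by
    intro a ha b hb
    have h1 := mem_conjS.1 (hg0 ha)
    have h2 := mem_conjS.1 (hg0 hb)
    have h3 := hLd.ab _ h1 _ h2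
    have h4 : g0 * (g0⁻¹ * a * g0 * (g0⁻¹ * b * g0)) * g0⁻¹ = a * b := by group
    have h5 : g0 * (g0⁻¹ * b * g0 * (g0⁻¹ * a * g0)) * g0⁻¹ = b * a := by group
    rw [← h4, ← h5, h3]
  have hQC : Q ≤ C := by
    rw [hC]
    intro a ha
    rw [Subgroup.mem_centralizer_iff]
    intro b hb
    exact hQab b hb a ha
  -- the homomorphism on the centraliser
  obtain ⟨q, hq⟩ : ∃ q : C →* A, q = p.comp (Subgroup.inclusion hCN) := ⟨_, rfl⟩
  have hqk : ∀ c : C, c ∈ q.ker ↔ (c : G) ∈ Q := by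
    intro c
    rw [MonoidHom.mem_ker, hq]
    exact hmk _
  have hqc : q.ker ≤ Subgroup.center C := by
    intro c hc
    rw [Subgroup.mem_center_iff]
    intro d
    apply Subtype.ext
    change (d : G) * c = c * d
    have h1 := hC.le d.2
    rw [Subgroup.mem_centralizer_iff] at h1
    exact (h1 c ((hqk c).1 hc)).symm
  have hqp : IsPGroup ℓ q.ker := by
    refine hQp.of_injective ((Subgroup.subtype C).comp q.ker.subtype |>.codRestrict Q ?_) ?_
    · intro x
      exact (hqk x.1).1 x.2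
    · intro a b hab
      apply Subtype.ext
      apply Subtype.ext
      exact congrArg (fun t : Q => (t : G)) hab
  have hkp : IsPGroup ℓ p.ker := by
    rw [hker]
    exact hQp.comap_of_injective (Subgroup.normalizer (Q : Set G)).subtype
      (Subgroup.normalizer (Q : Set G)).subtype_injective
  have hf'q : f' = push q (fun t : C => e t) := by
    rw [hf', T3.H43.push_res hCN p (a := br Q e) (by
      intro x hx
      rw [hC] at hx
      exact br_out e hx), ← hq]
    congr 1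
    funext t
    apply br_in
    rw [← hC]
    exact t.2
  have hconj : ∀ n ∈ Subgroup.normalizer (Q : Set G), ∀ c ∈ C, n * c * n⁻¹ ∈ C := by
    intro n hn c hc
    rw [hC, Subgroup.mem_centralizer_iff] at hc ⊢
    intro v hv
    have h1 : n⁻¹ * v * n ∈ Q := by
      have h2 := (Subgroup.mem_normalizer_iff.1 (inv_mem hn) v).1 hv
      rwa [inv_inv] at h2
    have h2 := hc _ h1
    calc v * (n * c * n⁻¹) = n * ((n⁻¹ * v * n) * c) * n⁻¹ := by group
      _ = n * (c * (n⁻¹ * v * n)) * n⁻¹ := by rw [h2]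
      _ = (n * c * n⁻¹) * v := by group
  have hnorm : q.range.Normal := by
    refine ⟨?_⟩
    rintro _ ⟨c, rfl⟩ a
    obtain ⟨n, rfl⟩ := hp a
    refine ⟨⟨(n : G) * c * (n : G)⁻¹, hconj n n.2 c c.2⟩, ?_⟩
    rw [hq]
    change p (Subgroup.inclusion hCN _) = p n * p (Subgroup.inclusion hCN c) * (p n)⁻¹
    rw [← map_inv, ← map_mul, ← map_mul]
    rfl
  have hbC : (fun t : C => br Q e t) = fun t : C => e t := by
    funext t
    apply br_in
    rw [← hC]
    exact t.2
  have heC : IsIdem (fun t : C => e t) := by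
    have h1 := (H20.brm ℓ (FF M) hF G Q C hQp hC.ge hCN).2.2 e he
    rwa [hbC] at h1
  -- the block of the centraliser
  obtain ⟨d0, hd0, hd01, hd02⟩ := K9.H24.exists_blk (fun a : C → FF M => mulF f (push q a))
    (by
      change mulF f (push q 0) = 0
      rw [push_zero]
      exact H46.mulF_zero _)
    (fun a b => by
      change mulF f (push q (a + b)) = mulF f (push q a) + mulF f (push q b)
      rw [T3.H43.push_add]
      exact H46.mulF_add _ _ _) heC (by
      change mulF f (push q (fun t : C => e t)) ≠ 0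
      rw [← hf'q, mulF_comm_cl hf.1.1, hff]
      exact hf0)
  change mulF f (push q d0) ≠ 0 at hd02
  obtain ⟨δ, hδ⟩ : ∃ δ : G → FF M, δ = H75.ext0 C d0 := ⟨_, rfl⟩
  have hδs : ∀ x, x ∉ C → δ x = 0 := by
    rw [hδ]
    exact H75.ext0_supp C d0
  have hδC : (fun t : C => δ t) = d0 := by
    rw [hδ]
    exact funext (H75.ext0_apply C d0)
  have hBδ : Bx C δ := ⟨hδs, by rw [hδC]; exact hd0⟩
  have hbs : ∀ x, x ∉ C → br Q e x = 0 := by
    intro x hx
    rw [hC] at hx
    exact br_out e hx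
  have hund : mulF (br Q e) δ = δ := by
    apply eq_of_res (mulF_supp C hbs hδs) hδs
    rw [mulF_res C δ hbs, hδC, hbC, hd01]
  obtain ⟨P, hQP, hPC, hP, hPV, hδP⟩ := dug ℓ M hM G e hLd.blk V hLd.tp hLd.ab Q hQp δ
    (by rw [← hC]; exact hBδ) (by
      rw [← hC, hδC]
      exact hd01)
  rw [← hC] at hPC
  have hPN : P ≤ Subgroup.normalizer (Q : Set G) := hPC.trans hCN
  -- `P` is good for `e`
  have hinvP : H66.Inv P δ := fun p hp t => C2.H3.ix_inv hBδ.ix (hPC hp) t
  have hIQ : Ix C (br Q e) := ⟨hbs, by rw [hbC]; exact heC⟩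
  have hinvQ : H66.Inv P (br Q e) := fun p hp t => C2.H3.ix_inv hIQ (hPC hp) t
  have hPe : mulF (br P e) (br P δ) = br P δ := by
    have h1 := congrArg (br P) hund
    rwa [H66.br_mulF hF hP hinvQ hinvP, C2.H3.br_br hQP] at h1
  have hGe : Gd e P := by
    apply C2.H3.gd_of_br'
    intro h0
    apply C2.H3.br_ne_of_gd hδP
    rw [← hPe, h0, mulF_zero_left]
  obtain ⟨k, hk⟩ := hfm P hP hGe
  have hPk : P = conjS k V := by
    refine Subgroup.eq_of_le_of_card_ge hk ?_
    rw [Pool.Agent.Helper51_AWC.card_conjS, hPV]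
  refine ⟨k, by rw [← hPk]; exact hQP, ?_⟩
  rw [← hPk]
  obtain ⟨P', hP'⟩ : ∃ P' : Subgroup A,
    P' = (P.subgroupOf (Subgroup.normalizer (Q : Set G))).map p := ⟨_, rfl⟩
  rw [← hP']
  have hPNp : IsPGroup ℓ (P.subgroupOf (Subgroup.normalizer (Q : Set G))) :=
    hP.comap_of_injective (Subgroup.normalizer (Q : Set G)).subtype
      (Subgroup.normalizer (Q : Set G)).subtype_injective
  have hP'p : IsPGroup ℓ P' := by
    rw [hP']
    exact hPNp.map p
  have hP'C : P' ≤ q.range := by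
    rw [hP']
    rintro _ ⟨w, hw, rfl⟩
    refine ⟨⟨w, hPC (Subgroup.mem_subgroupOf.1 hw)⟩, ?_⟩
    rw [hq]
    rfl
  -- the block `g'`
  obtain ⟨g', hg'⟩ : ∃ g' : A → FF M, g' = push q d0 := ⟨_, rfl⟩
  have hBg : Bx q.range g' := by
    rw [hg']
    exact T3.H43.push_blk psg hF q hqc hqp hd0
  have hBd : Bd q.range g' := ⟨hnorm, hBg.supp, hBg.blk⟩
  rw [← hg'] at hd02
  have hgP' : Gd g' P' := by
    have h1 : Gd d0 (P.subgroupOf C) := by
      obtain ⟨x, hx, hx0⟩ := hδP
      have hxC : x ∈ C := by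
        by_contra h
        exact hx0 (hδs x h)
      refine ⟨⟨x, hxC⟩, (cent_sub hPC _).2 hx, ?_⟩
      have h2 := congrFun hδC ⟨x, hxC⟩
      rw [← h2]
      exact hx0
    have hkr : IsPGroup ℓ q.rangeRestrict.ker := by
      rw [MonoidHom.ker_rangeRestrict]
      exact hqp
    have h2 := (K9.H02.pug ℓ (FF M) hF C q.range q.rangeRestrict q.rangeRestrict_surjective
      hkr d0 hd0.1 (P.subgroupOf C) (by
        rw [MonoidHom.ker_rangeRestrict]
        intro c hc
        exact Subgroup.mem_subgroupOf.2 (hQP ((hqk c).1 hc)))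
      (hP.comap_of_injective C.subtype C.subtype_injective)).1 h1
    obtain ⟨y, hy, hy0⟩ := h2
    rw [← push_range, ← hg'] at hy0
    refine ⟨y, ?_, hy0⟩
    rw [Subgroup.mem_centralizer_iff] at hy ⊢
    rw [hP']
    rintro _ ⟨w, hw, rfl⟩
    have hwP : (w : G) ∈ P := Subgroup.mem_subgroupOf.1 hw
    have h3 := hy (q.rangeRestrict ⟨w, hPC hwP⟩) ⟨⟨w, hPC hwP⟩, Subgroup.mem_subgroupOf.2 hwP, rfl⟩
    have h4 : ((q.rangeRestrict ⟨w, hPC hwP⟩ : q.range) : A) = p w := by
      change q ⟨w, hPC hwP⟩ = p w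
      rw [hq]
      rfl
    have h5 := congrArg (fun t : q.range => (t : A)) h3
    change ((q.rangeRestrict ⟨w, hPC hwP⟩ : q.range) : A) * y =
      y * ((q.rangeRestrict ⟨w, hPC hwP⟩ : q.range) : A) at h5
    rwa [h4] at h5
  refine ⟨hP'p, cover_gd hF hBd hf.1 hd02 hP'C hP'p hgP', ?_⟩
  intro R' hR' hRf
  have hRf' : Gd f' R' := gd_of_mul hF hf'I.1 hf.1.1 hff hR' hRf
  have hRp : IsPGroup ℓ (R'.comap p) := hR'.comap_of_ker_isPGroup p hkp
  have hkR : p.ker ≤ R'.comap p := by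
    intro x hx
    rw [Subgroup.mem_comap, MonoidHom.mem_ker.1 hx]
    exact R'.one_mem
  have h1 := (K9.H02.pug ℓ (FF M) hF _ A p hp hkp _ hbrQ (R'.comap p) hkR hRp).2 (by
    rw [Subgroup.map_comap_eq_self_of_surjective hp, ← hf']
    exact hRf')
  have h2 : Gd (br Q e) ((R'.comap p).map (Subgroup.normalizer (Q : Set G)).subtype) :=
    gd_map h1
  have h3 : Gd e ((R'.comap p).map (Subgroup.normalizer (Q : Set G)).subtype) := by
    obtain ⟨x, hx, hx0⟩ := h2
    refine ⟨x, hx, ?_⟩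
    by_cases hxQ : x ∈ Subgroup.centralizer (Q : Set G)
    · rwa [br_in e hxQ] at hx0
    · exact absurd (br_out e hxQ) hx0
  have h4 := hLd.tp.mx _ (hRp.map _) h3
  rw [Subgroup.card_map_of_injective (Subgroup.normalizer (Q : Set G)).subtype_injective,
    card_comap hp R'] at h4
  have h5 : Nat.card V = Nat.card p.ker * Nat.card P' := by
    rw [← card_comap hp P', hP', Subgroup.comap_map_eq_self (by
      rw [hker]
      intro x hx
      exact Subgroup.mem_subgroupOf.2 (hQP (Subgroup.mem_subgroupOf.1 hx))),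
      Nat.card_congr (Subgroup.subgroupOfEquivOfLe hPN).toEquiv, hPV]
  rw [h5] at h4
  exact Nat.le_of_mul_le_mul_left h4 Nat.card_pos

end Pool.Agent.PP.T3.H65
end
end -- Pool.Agent.Helper65_AT3.QT1

section -- Pool.Agent.Helper77_AT5.LBX

/-!
Squad AT5, row LBX: the local block.
-/

open scoped BigOperators

set_option autoImplicit false

noncomputable section

namespace Pool.Agent.PP.T5.H77

open Pool.Agent.Helper51_AWC Pool.Agent.Helper79_WRA Pool.Agent.PP Pool.Agent.PP.KF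
open Pool.Agent.PP.K9 Pool.Agent.PP.K9.H97 Pool.Agent.PP.H75 Pool.Agent.PP.T3 Pool.Agent.PP.T2

attribute [local instance] Ideal.Quotient.field

theorem card_sub {G : Type} [Group G] {V C : Subgroup G} (h : V ≤ C) :
    Nat.card (V.subgroupOf C) = Nat.card V :=
  Nat.card_congr (Subgroup.subgroupOfEquivOfLe h).toEquiv

theorem lbx : LbxStmt := by
  intro ℓ _ M _ hM G _ _ e V u he htp huV hcen
  have hF : GoodF ℓ (FF M) := H50.fld ℓ Fact.out M hM
  have hVC : V ≤ Cu u := fun v hv => Subgroup.mem_centralizer_singleton_iff.2 (hcen v hv)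
  have hel : El ℓ u := T3.H88.el_of_mem htp.pg huV
  have hid : IsIdem (fun t : Cu u => e t) := T3.H88.idem_cu hF he.1 hel
  have hcc : Subgroup.centralizer (V : Set G) ≤ Cu u := T3.H88.cent_le_cu huV
  refine ⟨?_, ?_⟩
  · obtain ⟨g, hg1, hg2⟩ := htp.gd
    obtain ⟨b, hb1, hb2, hb3⟩ := KF.H69.exists_blk hid (g := ⟨g, hcc hg1⟩) hg2
    have hres : (fun t : Cu u => H75.ext0 (Cu u) b t) = b := funext (ext0_apply _ b)
    refine ⟨H75.ext0 (Cu u) b, ⟨he, htp, huV, hcen, ⟨ext0_supp _ b, ?_⟩, ?_, ?_⟩⟩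
    · rw [hres]; exact hb1
    · rw [hres]; exact hb2
    · refine ⟨g, hg1, ?_⟩
      have h := ext0_apply (Cu u) b ⟨g, hcc hg1⟩
      change H75.ext0 (Cu u) b g = _ at h
      rw [h]
      exact hb3
  · intro b hb
    refine ⟨⟨?_, ?_, ?_⟩, card_sub hVC⟩
    · exact htp.pg.comap_of_injective (Cu u).subtype (Cu u).subtype_injective
    · obtain ⟨g, hg1, hg2⟩ := hb.gd
      refine ⟨⟨g, hcc hg1⟩, ?_, hg2⟩
      rw [Subgroup.mem_centralizer_iff]
      intro v hv
      exact Subtype.ext (Subgroup.mem_centralizer_iff.1 hg1 v (Subgroup.mem_subgroupOf.1 hv))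
    · intro Q hQ hgd
      have h1 : Gd (fun t : Cu u => e t) Q :=
        gd_of_mul hF hid.1 hb.bx.blk.1.1 hb.und hQ hgd
      have h2 := gd_map h1
      have h3 := htp.mx (Q.map (Cu u).subtype) (hQ.map _) h2
      rw [card_sub hVC]
      rwa [Subgroup.card_map_of_injective (Cu u).subtype_injective] at h3

end Pool.Agent.PP.T5.H77
end
end -- Pool.Agent.Helper77_AT5.LBX

section -- Pool.Agent.Helper53_AT10.IXP0

/-!
# Squad AT10, row IXP: powers and the index
-/

set_option autoImplicit false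

namespace Pool.Agent.PP.T10.H53

theorem ixp0 (ℓ : ℕ) [Fact ℓ.Prime] (G : Type) [Group G] [Finite G]
    (A H : Subgroup G) (p : ℕ) (hA : IsPGroup ℓ A) (hHA : H ≤ A)
    (hc : Nat.card A ≤ ℓ ^ p * Nat.card H) (y : G) (hy : y ∈ A) : y ^ ℓ ^ p ∈ H := by
  have hℓ : ℓ.Prime := Fact.out
  have hH0 : 0 < Nat.card H := Nat.card_pos
  have h1 : H.relIndex A * Nat.card H = Nat.card A := by
    have := Subgroup.relIndex_mul_relIndex ⊥ H A bot_le hHA
    rw [Subgroup.relIndex_bot_left, Subgroup.relIndex_bot_left] at this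
    rw [mul_comm]
    exact this
  have h2 : H.relIndex A ≤ ℓ ^ p := by
    rw [← h1] at hc
    exact Nat.le_of_mul_le_mul_right hc hH0
  have h3 : H.relIndex A ≠ 0 := by
    intro h0
    rw [h0, zero_mul] at h1
    have : 0 < Nat.card A := Nat.card_pos
    omega
  obtain ⟨n, hn0, hn1, hn2⟩ := Subgroup.exists_pow_mem_of_relIndex_ne_zero h3 hy
  obtain ⟨j, hj⟩ := hA ⟨y, hy⟩
  have hj' : y ^ ℓ ^ j = 1 := by
    have := congrArg (Subtype.val) hj
    simpa using this
  obtain ⟨k, hk, hk2⟩ := (Nat.dvd_prime_pow hℓ).1 (Nat.gcd_dvd_right n (ℓ ^ j))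
  have hkp : k ≤ p := by
    have h4 : ℓ ^ k ∣ n := hk2 ▸ Nat.gcd_dvd_left n (ℓ ^ j)
    have h5 : ℓ ^ k ≤ ℓ ^ p := (Nat.le_of_dvd hn0 h4).trans (hn1.trans h2)
    exact (Nat.pow_le_pow_iff_right hℓ.one_lt).1 h5
  have h6 : y ^ ℓ ^ k ∈ H := by
    have h7 : y ^ ((ℓ ^ k : ℕ) : ℤ) ∈ H := by
      rw [← hk2, Nat.gcd_eq_gcd_ab, zpow_add, zpow_mul, zpow_mul]
      refine H.mul_mem (H.zpow_mem ?_ _) (H.zpow_mem ?_ _)
      · rw [zpow_natCast]
        exact hn2.1
      · rw [zpow_natCast, hj']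
        exact H.one_mem
    rwa [zpow_natCast] at h7
  have h8 : y ^ ℓ ^ p = (y ^ ℓ ^ k) ^ ℓ ^ (p - k) := by
    rw [← pow_mul, ← pow_add, Nat.add_sub_cancel' hkp]
  rw [h8]
  exact H.pow_mem h6 _

end Pool.Agent.PP.T10.H53
end -- Pool.Agent.Helper53_AT10.IXP0

section -- Pool.Agent.Helper53_AT10.IXP

/-!
# Squad AT10, row IXP: powers and the index
-/

set_option autoImplicit false

namespace Pool.Agent.PP.T10.H53

theorem ixp : IxpStmt := by
  intro ℓ _ G _ _ A H p hA hHA hc y hy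
  exact ixp0 ℓ G A H p hA hHA hc y hy

end Pool.Agent.PP.T10.H53
end -- Pool.Agent.Helper53_AT10.IXP

section -- Pool.Agent.Helper76_AT10.SCL

/-!
# AT10, row SCL: strong closure of `Z(V) ^ (ℓ ^ p)`
-/

open scoped BigOperators

set_option autoImplicit false

noncomputable section

namespace Pool.Agent.PP.T10.H76

open Pool.Agent.Helper51_AWC Pool.Agent.Helper79_WRA Pool.Agent.PP Pool.Agent.PP.KF
open Pool.Agent.PP.K9 Pool.Agent.PP.K9.H97 Pool.Agent.PP.H75 Pool.Agent.PP.T3 Pool.Agent.PP.T2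
open Pool.Agent.PP.T5 Pool.Agent.PP.TB
open Pool.Agent.PP.T8 (rs pw fv rd Ip Rv)

attribute [local instance] Ideal.Quotient.field

section tools

variable {F G : Type} [Field F] [Group G] [Finite G] {ℓ : ℕ}

theorem mem_cu_conj (q z x : G) : x ∈ Cu (q * z * q⁻¹) ↔ q⁻¹ * x * q ∈ Cu z := by
  rw [Subgroup.mem_centralizer_singleton_iff, Subgroup.mem_centralizer_singleton_iff]
  constructor
  · intro h
    have h1 : q⁻¹ * (x * (q * z * q⁻¹)) * q = q⁻¹ * (q * z * q⁻¹ * x) * q := by rw [h]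
    have e1 : q⁻¹ * (x * (q * z * q⁻¹)) * q = q⁻¹ * x * q * z := by group
    have e2 : q⁻¹ * (q * z * q⁻¹ * x) * q = z * (q⁻¹ * x * q) := by group
    rw [e1, e2] at h1
    exact h1
  · intro h
    have h1 : q * (q⁻¹ * x * q * z) * q⁻¹ = q * (z * (q⁻¹ * x * q)) * q⁻¹ := by rw [h]
    have e1 : q * (q⁻¹ * x * q * z) * q⁻¹ = x * (q * z * q⁻¹) := by group
    have e2 : q * (z * (q⁻¹ * x * q)) * q⁻¹ = q * z * q⁻¹ * x := by group
    rw [e1, e2] at h1
    exact h1

theorem gd_cj {b : G → F} {V : Subgroup G} (h : Gd b V) (q : G) : Gd (H75.cj q b) (conjS q V) := by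
  obtain ⟨x, hx, hb⟩ := h
  have e : q⁻¹ * (q * x * q⁻¹) * q = x := by group
  refine ⟨q * x * q⁻¹, ?_, ?_⟩
  · rw [T3.H62.mem_cent_conjS, e]
    exact hx
  · change b (q⁻¹ * (q * x * q⁻¹) * q) ≠ 0
    rw [e]
    exact hb

theorem tp_conj {e : G → F} (he : IsCl e) {V : Subgroup G} (h : Tp ℓ e V) (q : G) :
    Tp ℓ e (conjS q V) := by
  refine ⟨h.pg.map _, ?_, fun Q hQ hg => ?_⟩
  · have := gd_cj h.gd q
    rwa [cj_isCl q he] at this
  · rw [T3.H62.card_conjS']
    exact h.mx Q hQ hg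

/-- the conjugate of a local block -/
theorem lb_conj {e : G → F} {V : Subgroup G} {z : G} {b : G → F} (h : Lb ℓ e V z b) (q : G) :
    Lb ℓ e (conjS q V) (q * z * q⁻¹) (H75.cj q b) := by
  have hcl : IsCl e := h.blk.1.1
  have hbx : Bx (Cu (q * z * q⁻¹)) (H75.cj q b) := T3.H62.bx_cj (mem_cu_conj q z) h.bx
  refine ⟨h.blk, tp_conj hcl h.tp q, (T3.H62.conjS_mem_iff z).2 h.mem, fun v hv => ?_, hbx, ?_,
    gd_cj h.gd q⟩
  · have h1 := h.cen _ (T3.H62.mem_conjS.1 hv)
    have h2 : q * (q⁻¹ * v * q * z) * q⁻¹ = q * (z * (q⁻¹ * v * q)) * q⁻¹ := by rw [h1]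
    have e1 : q * (q⁻¹ * v * q * z) * q⁻¹ = v * (q * z * q⁻¹) := by group
    have e2 : q * (z * (q⁻¹ * v * q)) * q⁻¹ = q * z * q⁻¹ * v := by group
    rw [e1, e2] at h2
    exact h2
  · have h1 : ∀ (C : Subgroup G) (c : G → F), (∀ x, x ∉ C → c x = 0) →
        mulF (fun t : C => e t) (fun t : C => c t) = fun t : C => mulF c e t := by
      intro C c hc
      have hcl' : IsCl (fun t : C => e t) := fun x y => hcl x y
      rw [mulF_comm_cl hcl', ← mulF_res C e hc]
    have h2 : ∀ t ∈ Cu z, mulF b e t = b t := by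
      intro t ht
      have h3 := h.und
      rw [h1 _ b h.bx.supp] at h3
      exact congrFun h3 ⟨t, ht⟩
    rw [h1 _ _ hbx.supp]
    funext t
    change mulF (H75.cj q b) e t = H75.cj q b t
    have h4 : mulF (H75.cj q b) e = H75.cj q (mulF b e) := by
      rw [cj_mulF, cj_isCl q hcl]
    rw [h4]
    exact h2 _ ((mem_cu_conj q z t).1 t.2)

end tools

/-- SCL -/
theorem scl : SclStmt := by
  intro ℓ _ M _ hM G _ _ e V γ he htp hγ hund p hp β hβ hβV z hz b hLb hbγ u hu q₀ hq₀ hqb₀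
  have hF : GoodF ℓ (FF M) := H50.fld ℓ Fact.out M hM
  have hcz := T3.H88.cu_eq u
  have hzle : Subgroup.zpowers u ≤ V := (Subgroup.zpowers_le).2 hu
  obtain ⟨bu, hbu0⟩ : ∃ x, x = β (Subgroup.zpowers u) := ⟨_, rfl⟩
  rw [← hbu0] at hqb₀
  have hbu : Bx (Cu u) bu := by
    have := hβ.bx (Subgroup.zpowers u) hzle
    rw [hcz] at this
    rw [hbu0]
    exact this
  -- the conjugates of `V`
  have htpq : ∀ q : G, q * z * q⁻¹ = u → H75.cj q b = bu →
      Tp ℓ (fun t : Cu u => bu t) ((conjS q V).subgroupOf (Cu u)) := by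
    intro q hq hqb
    have h1 := lb_conj hLb q
    rw [hq, hqb] at h1
    exact ((T5.H77.lbx ℓ M hM G e (conjS q V) u he h1.tp h1.mem h1.cen).2 bu h1).1
  -- (2)
  have hcuN : Cu u ≤ Subgroup.normalizer (Subgroup.zpowers u : Set G) := by
    rw [← hcz]
    exact Subgroup.centralizer_le_normalizer _
  have huu : u ∈ Cu u := Subgroup.mem_centralizer_singleton_iff.2 rfl
  obtain ⟨R, hR⟩ : ∃ R, R = V ⊓ Cu u := ⟨_, rfl⟩
  have hzR : Subgroup.zpowers u ≤ R := by
    rw [hR]
    exact le_inf hzle ((Subgroup.zpowers_le).2 huu)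
  have hRV : R ≤ V := by
    rw [hR]
    exact inf_le_left
  have hRC : R ≤ Cu u := by
    rw [hR]
    exact inf_le_right
  have huR : u ∈ R := hzR (Subgroup.mem_zpowers u)
  have hbrR := hβ.br (Subgroup.zpowers u) R hzR hRV (hRC.trans hcuN)
  rw [← hbu0] at hbrR
  have hgood : ∃ g ∈ Subgroup.centralizer (R : Set G), bu g ≠ 0 := by
    by_contra hcon
    apply (hβ.bx R hRV).ne
    rw [← hbrR]
    have h0 : br R bu = 0 := by
      funext g
      by_cases hg : g ∈ Subgroup.centralizer (R : Set G)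
      · rw [Pool.Agent.PP.H66.br_of_mem hg]
        by_contra h1
        exact hcon ⟨g, hg, h1⟩
      · rw [Pool.Agent.PP.H66.br_of_not_mem hg]
        rfl
    rw [h0, mulF_zero_left]
  have hgd : Gd (fun t : Cu u => bu t) (R.subgroupOf (Cu u)) := by
    obtain ⟨g, hg, hg0⟩ := hgood
    have hgC : g ∈ Cu u := T3.H88.cent_le_cu huR hg
    refine ⟨⟨g, hgC⟩, ?_, hg0⟩
    rw [Subgroup.mem_centralizer_iff]
    intro x hx
    exact Subtype.ext (Subgroup.mem_centralizer_iff.1 hg x (Subgroup.mem_subgroupOf.1 hx))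
  have hpgR : IsPGroup ℓ (R.subgroupOf (Cu u)) :=
    (htp.pg.to_le hRV).comap_of_injective (Cu u).subtype (Cu u).subtype_injective
  obtain ⟨c, hc⟩ := (H69.fmg ℓ M hM (Cu u) _ hbu.blk _ (htpq q₀ hq₀ hqb₀)).1 _ hpgR hgd
  obtain ⟨q, hqdef⟩ : ∃ x, x = (c : G) * q₀ := ⟨_, rfl⟩
  have hcu : (c : G) * u = u * c := Subgroup.mem_centralizer_singleton_iff.1 c.2
  have hq : q * z * q⁻¹ = u := by
    have h1 : q * z * q⁻¹ = (c : G) * (q₀ * z * q₀⁻¹) * (c : G)⁻¹ := by
      rw [hqdef]
      group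
    rw [h1, hq₀, hcu]
    group
  have hqb : H75.cj q b = bu := by
    rw [hqdef, ← cj_cj, hqb₀]
    exact hbu.ix.inv c.2
  have hRq : R ≤ conjS q V := by
    intro x hx
    have h1 : (⟨x, hRC hx⟩ : Cu u) ∈ R.subgroupOf (Cu u) := hx
    have h2 := hc h1
    rw [T3.H62.mem_conjS, Subgroup.mem_subgroupOf] at h2
    have h3 : (c : G)⁻¹ * x * c ∈ conjS q₀ V := h2
    rw [T3.H62.mem_conjS] at h3 ⊢
    have e1 : q⁻¹ * x * q = q₀⁻¹ * ((c : G)⁻¹ * x * c) * q₀ := by
      rw [hqdef]
      group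
    rw [e1]
    exact h3
  -- (3)
  have hZR : Zc V ≤ R := by
    intro x hx
    rw [hR]
    refine ⟨hx.1, ?_⟩
    exact T3.H88.cent_le_cu hu hx.2
  have hcomm : ∀ x ∈ Zc V, ∀ y ∈ Zc V, x * y = y * x := fun x hx y hy =>
    Subgroup.mem_centralizer_iff.1 hy.2 x hx.1
  obtain ⟨w, hw, hzw⟩ := ((T2.H32.pwu G (ℓ ^ p) (Zc V) hcomm).1 z).1 hz
  have hpow := T10.H53.ixp ℓ G (conjS q V) (Zc V) p (htp.pg.map _) (hZR.trans hRq)
    (by rw [T3.H62.card_conjS']; exact hp)
  have huZ : u ∈ Zc V := by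
    have h1 := hpow (q * w * q⁻¹) ((T3.H62.conjS_mem_iff w).2 hw.1)
    rw [conj_pow, ← hzw, hq] at h1
    exact h1
  -- (4)
  have hVC : V ≤ Cu u := fun v hv =>
    Subgroup.mem_centralizer_singleton_iff.2 (Subgroup.mem_centralizer_iff.1 huZ.2 v hv)
  have hRV' : R = V := by
    rw [hR]
    exact inf_eq_left.2 hVC
  have hVq : V = conjS q V := by
    apply Subgroup.eq_of_le_of_card_ge
    · rw [← hRV']
      rw [hRV']
      intro x hx
      exact hRq (hRV' ▸ hx)
    · rw [T3.H62.card_conjS']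
  have hqN : q ∈ Subgroup.normalizer (V : Set G) := by
    rw [Subgroup.mem_normalizer_iff]
    intro v
    conv_rhs => rw [hVq]
    rw [T3.H62.mem_conjS, show q⁻¹ * (q * v * q⁻¹) * q = v by group]
  -- (5)
  have hXC : Subgroup.centralizer (V : Set G) ≤ Cu u := T3.H88.cent_le_cu hu
  have hXN : Subgroup.centralizer (V : Set G) ≤ Subgroup.normalizer (V : Set G) :=
    Subgroup.centralizer_le_normalizer _
  have htpV : Tp ℓ (fun t : Cu u => bu t) (V.subgroupOf (Cu u)) := by
    have := htpq q hq hqb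
    rwa [← hVq] at this
  obtain ⟨-, ⟨hf2, -⟩, -⟩ := H69.fmg ℓ M hM (Cu u) _ hbu.blk _ htpV
  have hext : PP.ext0 (Cu u) (fun t : Cu u => bu t) = bu := by
    funext x
    by_cases hx : x ∈ Cu u
    · rw [H46.ext0_of_mem _ hx]
    · rw [H46.ext0_of_not_mem _ hx, hbu.supp x hx]
  have hbx := bx_of hVC hXC hXN hf2
  rw [hext] at hbx
  have hbuγ : mulF (br V bu) γ = γ := by
    have h1 := hβ.br (Subgroup.zpowers u) V hzle le_rfl (hVC.trans hcuN)
    rw [← hbu0, hβV] at h1
    exact h1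
  have hqγ : Bx (Subgroup.centralizer (V : Set G)) (H75.cj q γ) :=
    hγ.cj (T3.H79.norm_cent V hqN)
  have hbq : mulF (br V bu) (H75.cj q γ) = H75.cj q γ := by
    have h1 := congrArg (H75.cj q) hbγ
    rw [cj_mulF, T3.H79.cj_br hqN, hqb] at h1
    exact h1
  obtain ⟨m, hm, hmn⟩ := H97.orb_main (N := Subgroup.normalizer (V : Set G) ⊓ Cu u)
    (X := Subgroup.centralizer (V : Set G)) (le_inf hXN hXC)
    (inf_le_left.trans (T3.H79.norm_cent V)) hbx hγ hqγ hbuγ hbq
  refine ⟨m⁻¹ * q, ⟨Subgroup.mul_mem _ (inv_mem hm.1) hqN, ?_⟩, ?_⟩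
  · have h1 : H75.cj (m⁻¹ * q) γ = γ := by
      rw [← cj_cj, hmn, cj_inv_cj]
    exact (cj_eq_iff _ _).1 h1
  · have hmu : m * u = u * m := Subgroup.mem_centralizer_singleton_iff.1 hm.2
    have h1 : m⁻¹ * q * z * (m⁻¹ * q)⁻¹ = m⁻¹ * (q * z * q⁻¹) * m := by group
    rw [h1, hq, mul_assoc, ← hmu]
    group

end Pool.Agent.PP.T10.H76
end
end -- Pool.Agent.Helper76_AT10.SCL

section -- Pool.Agent.Helper31_ATP.PQZ

/-!
# ATP, row PQZ: the blocks of `N(Q)/Q`
-/

open scoped BigOperators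

noncomputable section

namespace Pool.Agent.PP.TP.H31

open Pool.Agent.Helper51_AWC Pool.Agent.Helper79_WRA Pool.Agent.PP Pool.Agent.PP.KF
open Pool.Agent.PP.K9 Pool.Agent.PP.K9.H97 Pool.Agent.PP.H75 Pool.Agent.PP.T3 Pool.Agent.PP.T2
open Pool.Agent.PP.TB

attribute [local instance] Ideal.Quotient.field

set_option linter.unusedSectionVars false

section fix

variable {F G : Type} [Field F] [Group G] [Finite G]

/-- the blocks of `C` under `E` -/
abbrev TT (C : Subgroup G) (E : G → F) : Type := {b : G → F // Bx C b ∧ mulF E b = b}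

/-- an idempotent of `F C` is the sum of the blocks under it -/
theorem sum_blocks {C : Subgroup G} {E : G → F} (hE : Ix C E) :
    Finite (TT C E) ∧ ∀ [Fintype (TT C E)], ∑ b : TT C E, (b : G → F) = E := by
  classical
  obtain ⟨m, f, h1, h2, h3⟩ := CD2.H74.dec (fun t : C => E t) hE.idem
  have hres : ∀ t, (fun x : C => H75.ext0 C (f t) x) = f t := fun t =>
    funext (H75.ext0_apply C (f t))
  have hBx : ∀ t, Bx C (H75.ext0 C (f t)) := fun t =>
    ⟨H75.ext0_supp C (f t), by rw [hres]; exact (h1 t).1⟩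
  have hund : ∀ t, mulF E (H75.ext0 C (f t)) = H75.ext0 C (f t) := by
    intro t
    apply eq_of_res (mulF_supp C hE.supp (H75.ext0_supp C (f t))) (H75.ext0_supp C (f t))
    rw [mulF_res C _ hE.supp, hres, (h1 t).2]
  have hsum : ∑ t, H75.ext0 C (f t) = E := by
    apply eq_of_res (N := C)
    · intro x hx
      rw [Finset.sum_apply]
      exact Finset.sum_eq_zero fun t _ => H75.ext0_supp C (f t) x hx
    · exact hE.supp
    · rw [← h3]
      funext x
      rw [Finset.sum_apply, Finset.sum_apply]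
      exact Finset.sum_congr rfl fun t _ => H75.ext0_apply C (f t) x
  let Φ : Fin m → TT C E := fun t => ⟨H75.ext0 C (f t), hBx t, hund t⟩
  have hinj : Function.Injective Φ := by
    intro t s hts
    by_contra hne
    have h4 : H75.ext0 C (f t) = H75.ext0 C (f s) := congrArg Subtype.val hts
    have h5 : f t = f s := by rw [← hres t, ← hres s, h4]
    have h6 := h2 t s hne
    rw [← h5, (h1 t).1.1.2] at h6
    exact (h1 t).1.2.1 h6
  have hsurj : Function.Surjective Φ := by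
    rintro ⟨b, hb, hEb⟩
    by_contra hne
    push Not at hne
    apply hb.ne
    rw [← hEb, ← hsum]
    have h7 : ∀ s : Finset (Fin m), mulF (∑ t ∈ s, H75.ext0 C (f t)) b = 0 := by
      intro s
      induction s using Finset.induction_on with
      | empty => rw [Finset.sum_empty, H75.mulF_zero_left]
      | insert a s ha ih =>
        rw [Finset.sum_insert ha, K9.H24.mulF_add_l, ih, add_zero]
        rcases (hBx a).dich hb with h8 | h8
        · exact absurd (Subtype.ext h8) (hne a)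
        · exact h8
    exact h7 _
  have hbij : Function.Bijective Φ := ⟨hinj, hsurj⟩
  refine ⟨Finite.of_surjective Φ hsurj, ?_⟩
  intro _
  have h9 : ∑ t, H75.ext0 C (f t) = ∑ b : TT C E, (b : G → F) :=
    Fintype.sum_bijective Φ hbij _ _ fun t => rfl
  exact h9.symm.trans hsum

/-- an additive functional which is invariant under the `ℓ`-group `R` and does not vanish on `E` does
not vanish on a block under `E` which is invariant under `R` -/
theorem fix_blk {ℓ : ℕ} (hF : GoodF ℓ F) {C : Subgroup G} {E : G → F} (hE : Ix C E)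
    {R : Subgroup G} (hR : IsPGroup ℓ R) (hRC : ∀ x ∈ R, ∀ y, y ∈ C ↔ x⁻¹ * y * x ∈ C)
    (hRE : ∀ x ∈ R, cj x E = E) {V : Type} [AddCommGroup V] (hV : ∀ v : V, ℓ • v = 0)
    (L : (G → F) → V) (hL0 : L 0 = 0) (hL : ∀ a b, L (a + b) = L a + L b)
    (hLR : ∀ x ∈ R, ∀ b, L (cj x b) = L b) (h : L E ≠ 0) :
    ∃ b : G → F, Bx C b ∧ mulF E b = b ∧ (∀ x ∈ R, cj x b = b) ∧ L b ≠ 0 := by
  classical
  have hfact : Fact ℓ.Prime := ⟨hF.prime⟩
  obtain ⟨hfin, hsum⟩ := sum_blocks hE
  have hft := Fintype.ofFinite (TT C E)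
  have hs := @hsum hft
  have hLs : ∀ s : Finset (TT C E), L (∑ b ∈ s, (b : G → F)) = ∑ b ∈ s, L b := by
    intro s
    induction s using Finset.induction_on with
    | empty => rw [Finset.sum_empty, Finset.sum_empty, hL0]
    | insert a s ha ih => rw [Finset.sum_insert ha, Finset.sum_insert ha, hL, ih]
  let act : MulAction R (TT C E) :=
    { smul := fun x b => ⟨cj (x : G) b.1, by
        refine ⟨T3.H62.bx_cj (hRC x x.2) b.2.1, ?_⟩
        have h9 := cj_mulF (x : G) E b.1
        rw [b.2.2, hRE x x.2] at h9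
        exact h9.symm⟩
      one_smul := fun b => by
        apply Subtype.ext
        exact cj_one b.1
      mul_smul := fun x y b => by
        apply Subtype.ext
        exact (cj_cj (x : G) (y : G) b.1).symm }
  have h1 := Pool.Agent.PP.H74.orbit_sum hR hV (fun b : TT C E => L b.1) (fun x b => hLR x x.2 b.1)
  rw [← hLs, hs] at h1
  have h2 : ∃ b ∈ Finset.univ.filter (fun b : TT C E => ∀ r : R, r • b = b), L b.1 ≠ 0 := by
    by_contra hne
    push Not at hne
    rw [h1, Finset.sum_eq_zero hne] at h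
    exact h rfl
  obtain ⟨b, hb, hb0⟩ := h2
  refine ⟨b.1, b.2.1, b.2.2, ?_, hb0⟩
  intro x hx
  exact congrArg Subtype.val ((Finset.mem_filter.1 hb).2 ⟨x, hx⟩)

theorem br_add (P : Subgroup G) (a b : G → F) : br P (a + b) = br P a + br P b := by
  funext t
  by_cases ht : t ∈ Subgroup.centralizer (P : Set G)
  · rw [Pi.add_apply, br_in _ ht, br_in _ ht, br_in _ ht, Pi.add_apply]
  · rw [Pi.add_apply, br_out _ ht, br_out _ ht, br_out _ ht, add_zero]

theorem br_zero (P : Subgroup G) : br P (0 : G → F) = 0 := by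
  funext t
  by_cases ht : t ∈ Subgroup.centralizer (P : Set G)
  · rw [br_in _ ht]
  · rw [br_out _ ht]
    rfl

theorem br_cj_mem {P : Subgroup G} {y : G} (hy : y ∈ P) (a : G → F) : br P (cj y a) = br P a := by
  funext t
  by_cases ht : t ∈ Subgroup.centralizer (P : Set G)
  · rw [br_in _ ht, br_in _ ht]
    change a (y⁻¹ * t * y) = a t
    have h1 := Subgroup.mem_centralizer_iff.1 ht y hy
    rw [mul_assoc, ← h1, inv_mul_cancel_left]
  · rw [br_out _ ht, br_out _ ht]

variable {A : Type} [Group A] [Finite A]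

/-- `br_δ` of the image of an invariant function, `δ` the image of `R` -/
theorem br_push {ℓ : ℕ} (hF : GoodF ℓ F) {N R : Subgroup G} (hRN : R ≤ N) (hR : IsPGroup ℓ R)
    (π : N →* A) {a : G → F} (ha : ∀ x ∈ R, cj x a = a) :
    br ((R.subgroupOf N).map π) (push π (fun t : N => a t)) = push π (fun t : N => br R a t) := by
  classical
  have hRp : IsPGroup ℓ (R.subgroupOf N) :=
    hR.comap_of_injective N.subtype N.subtype_injective
  have hbr : br (R.subgroupOf N) (fun t : N => a t) = fun t : N => br R a t := by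
    funext t
    by_cases hc : (t : G) ∈ Subgroup.centralizer (R : Set G)
    · rw [H66.br_of_mem hc, H66.br_of_mem ((cent_sub hRN t).2 hc)]
    · rw [H66.br_of_not_mem hc, H66.br_of_not_mem (fun h => hc ((cent_sub hRN t).1 h))]
  funext y
  by_cases hy : y ∈ Subgroup.centralizer (((R.subgroupOf N).map π : Subgroup A) : Set A)
  · rw [H66.br_of_mem hy, T2.H65.push_br_inv hF hRp (e := fun t : N => a t) (by
      intro q hq t
      exact (cj_eq_iff _ _).1 (ha q (Subgroup.mem_subgroupOf.1 hq)) t) hy, hbr]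
  · rw [H66.br_of_not_mem hy]
    have := Fintype.ofFinite N
    rw [push_eq]
    symm
    apply Finset.sum_eq_zero
    intro x _
    by_cases hx : π x = y
    · rw [if_pos hx]
      by_cases hc : (x : G) ∈ Subgroup.centralizer (R : Set G)
      · exfalso
        apply hy
        rw [Subgroup.mem_centralizer_iff]
        rintro _ ⟨r, hr, rfl⟩
        rw [← hx, ← map_mul, ← map_mul]
        congr 1
        apply Subtype.ext
        exact Subgroup.mem_centralizer_iff.1 hc r (Subgroup.mem_subgroupOf.1 hr)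
      · exact H66.br_of_not_mem hc
    · rw [if_neg hx]

end fix

/-- row PQZ -/
theorem pqz (pin : PinStmt) (pun : PunStmt) (psg : T3.PsgStmt) : PqzStmt := by
  intro ℓ _ M _ hM G _ _ e he Q hQp A _ _ π hπ hker f₁ hf₁ hff δ hδ
  classical
  have hF : GoodF ℓ (FF M) := H50.fld ℓ Fact.out M hM
  have hch := hF.char
  obtain ⟨C, hC⟩ : ∃ C : Subgroup G, C = Subgroup.centralizer (Q : Set G) := ⟨_, rfl⟩
  have hCN : C ≤ Subgroup.normalizer (Q : Set G) := by
    rw [hC]
    exact Subgroup.centralizer_le_normalizer _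
  have hQN : Q ≤ Subgroup.normalizer (Q : Set G) := Subgroup.le_normalizer
  have hmk : ∀ x : Subgroup.normalizer (Q : Set G), π x = 1 ↔ (x : G) ∈ Q := by
    intro x
    rw [← MonoidHom.mem_ker, hker, Subgroup.mem_subgroupOf]
  have hkp : IsPGroup ℓ π.ker := by
    rw [hker]
    exact hQp.comap_of_injective (Subgroup.normalizer (Q : Set G)).subtype
      (Subgroup.normalizer (Q : Set G)).subtype_injective
  -- the preimage of `δ`
  obtain ⟨R, hR⟩ : ∃ R : Subgroup G,
    R = (δ.comap π).map (Subgroup.normalizer (Q : Set G)).subtype := ⟨_, rfl⟩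
  have hRN : R ≤ Subgroup.normalizer (Q : Set G) := by
    rw [hR]
    rintro _ ⟨x, _, rfl⟩
    exact x.2
  have hRs : R.subgroupOf (Subgroup.normalizer (Q : Set G)) = δ.comap π := by
    rw [hR]
    exact Subgroup.comap_map_eq_self_of_injective
      (Subgroup.normalizer (Q : Set G)).subtype_injective _
  have hRmap : (R.subgroupOf (Subgroup.normalizer (Q : Set G))).map π = δ := by
    rw [hRs, Subgroup.map_comap_eq_self_of_surjective hπ]
  have hRmem : ∀ x : Subgroup.normalizer (Q : Set G), (x : G) ∈ R ↔ π x ∈ δ := by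
    intro x
    rw [← Subgroup.mem_subgroupOf, hRs, Subgroup.mem_comap]
  have hRp : IsPGroup ℓ R := by
    rw [hR]
    exact (hδ.pg.comap_of_ker_isPGroup π hkp).map _
  have hQR : Q ≤ R := by
    intro x hx
    have h1 := (hRmem ⟨x, hQN hx⟩).2 (by
      rw [(hmk ⟨x, hQN hx⟩).2 hx]
      exact δ.one_mem)
    exact h1
  have hconj : ∀ n ∈ Subgroup.normalizer (Q : Set G), ∀ c ∈ C, n * c * n⁻¹ ∈ C := by
    intro n hn c hc
    rw [hC, Subgroup.mem_centralizer_iff] at hc ⊢
    intro v hv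
    have h1 : n⁻¹ * v * n ∈ Q := by
      have h2 := (Subgroup.mem_normalizer_iff.1 (inv_mem hn) v).1 hv
      rwa [inv_inv] at h2
    have h2 := hc _ h1
    calc v * (n * c * n⁻¹) = n * ((n⁻¹ * v * n) * c) * n⁻¹ := by group
      _ = n * (c * (n⁻¹ * v * n)) * n⁻¹ := by rw [h2]
      _ = (n * c * n⁻¹) * v := by group
  have hconj' : ∀ n ∈ Subgroup.normalizer (Q : Set G), ∀ y, y ∈ C ↔ n⁻¹ * y * n ∈ C := by
    intro n hn y
    constructor
    · intro h
      have h1 := hconj n⁻¹ (inv_mem hn) y h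
      rwa [inv_inv] at h1
    · intro h
      have h1 := hconj n hn _ h
      have h2 : n * (n⁻¹ * y * n) * n⁻¹ = y := by group
      rwa [h2] at h1
  -- the idempotent `br_Q(e)`
  have hbs : ∀ x, x ∉ C → br Q e x = 0 := by
    intro x hx
    rw [hC] at hx
    exact br_out e hx
  have hIQ : Ix C (br Q e) := ⟨hbs, (H20.brm ℓ (FF M) hF G Q C hQp hC.ge hCN).2.2 e he⟩
  have hbrN : IsIdem (fun t : Subgroup.normalizer (Q : Set G) => br Q e t) :=
    (H20.brm ℓ (FF M) hF G Q _ hQp (by rw [← hC]; exact hCN) le_rfl).2.2 e he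
  have hbrcj : ∀ x ∈ R, cj x (br Q e) = br Q e := by
    intro x hx
    rw [cj_eq_iff]
    intro t
    by_cases ht : t ∈ C
    · have h1 := hconj x (hRN hx) t ht
      rw [hC] at h1 ht
      rw [br_in _ h1, br_in _ ht]
      exact he.1 _ _
    · have h1 : x * t * x⁻¹ ∉ C := by
        intro h
        have h2 := (hconj' x (hRN hx) _).1 h
        have h3 : x⁻¹ * (x * t * x⁻¹) * x = t := by group
        rw [h3] at h2
        exact ht h2
      rw [hbs _ h1, hbs _ ht]
  -- step 1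
  obtain ⟨f', hf'⟩ : ∃ f' : A → FF M,
    f' = push π (fun t : Subgroup.normalizer (Q : Set G) => br Q e t) := ⟨_, rfl⟩
  have hf'I : IsIdem f' := by
    rw [hf']
    exact push_isIdem hπ hbrN
  rw [← hf'] at hff
  have hV : ∀ v : A → FF M, ℓ • v = 0 := by
    intro v
    funext t
    rw [Pi.smul_apply, nsmul_eq_mul, CharP.cast_eq_zero, zero_mul]
    rfl
  have hδ0 : br δ f₁ ≠ 0 := C2.H3.br_ne_of_gd hδ.gd
  obtain ⟨b, hbC, hbe, hbR, hb0⟩ := fix_blk hF hIQ hRp (fun x hx => hconj' x (hRN hx)) hbrcj hV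
    (fun a : G → FF M =>
      mulF (br δ (push π (fun t : Subgroup.normalizer (Q : Set G) => a t))) (br δ f₁))
    (by
      change mulF (br δ (push π (0 : Subgroup.normalizer (Q : Set G) → FF M))) (br δ f₁) = 0
      rw [push_zero, br_zero, mulF_zero_left])
    (fun a b => by
      change mulF (br δ (push π ((fun t : Subgroup.normalizer (Q : Set G) => a t) +
        (fun t : Subgroup.normalizer (Q : Set G) => b t)))) (br δ f₁) = _
      rw [T3.H43.push_add, br_add, K9.H24.mulF_add_l])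
    (fun x hx a => by
      change mulF (br δ (push π (cj (⟨x, hRN hx⟩ : Subgroup.normalizer (Q : Set G))
        (fun t : Subgroup.normalizer (Q : Set G) => a t)))) (br δ f₁) = _
      rw [T3.H43.push_cj, br_cj_mem ((hRmem ⟨x, hRN hx⟩).1 hx)])
    (by
      change mulF (br δ (push π (fun t : Subgroup.normalizer (Q : Set G) => br Q e t)))
        (br δ f₁) ≠ 0
      rw [← hf', ← H66.br_mulF hF hδ.pg (H66.IsCl.inv hf'I.1 δ) (H66.IsCl.inv hf₁.1.1 δ), hff]
      exact hδ0)
  change mulF (br δ (push π (fun t : Subgroup.normalizer (Q : Set G) => b t))) (br δ f₁) ≠ 0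
    at hb0
  have hbp : br δ (push π (fun t : Subgroup.normalizer (Q : Set G) => b t)) =
      push π (fun t : Subgroup.normalizer (Q : Set G) => br R b t) := by
    have h1 := br_push hF hRN hRp π hbR
    rwa [hRmap] at h1
  -- step 2
  have hinvR : H66.Inv R b := fun p hp t => (cj_eq_iff p b).1 (hbR p hp) t
  have hCR : Subgroup.centralizer (R : Set G) ≤ C := by
    rw [hC]
    exact Subgroup.centralizer_le hQR
  have hIR : Ix (Subgroup.centralizer (R : Set G)) (br R b) := by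
    refine ⟨fun x hx => br_out b hx, ?_, ?_⟩
    · intro x y
      change br R b ((y : G) * x * (y : G)⁻¹) = br R b x
      rw [br_in _ (mul_mem (mul_mem y.2 x.2) (inv_mem y.2)), br_in _ x.2]
      exact C2.H3.ix_inv hbC.ix (hCR y.2) x
    · rw [← mulF_res _ _ (fun x hx => br_out b hx), ← H66.br_mulF hF hRp hinvR hinvR, hbC.mul]
  obtain ⟨b₃, hb₃C, hb₃b, -, hb₃0⟩ := fix_blk hF hIR (R := (⊥ : Subgroup G)) IsPGroup.of_bot
    (by
      intro x hx y
      rw [Subgroup.mem_bot.1 hx, inv_one, one_mul, mul_one])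
    (by
      intro x hx
      rw [Subgroup.mem_bot.1 hx, cj_one]) hV
    (fun a : G → FF M =>
      mulF (push π (fun t : Subgroup.normalizer (Q : Set G) => a t)) (br δ f₁))
    (by
      change mulF (push π (0 : Subgroup.normalizer (Q : Set G) → FF M)) (br δ f₁) = 0
      rw [push_zero, mulF_zero_left])
    (fun a b => by
      change mulF (push π ((fun t : Subgroup.normalizer (Q : Set G) => a t) +
        (fun t : Subgroup.normalizer (Q : Set G) => b t))) (br δ f₁) = _
      rw [T3.H43.push_add, K9.H24.mulF_add_l])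
    (by
      intro x hx a
      rw [Subgroup.mem_bot.1 hx, cj_one])
    (by
      change mulF (push π (fun t : Subgroup.normalizer (Q : Set G) => br R b t)) (br δ f₁) ≠ 0
      rw [← hbp]
      exact hb0)
  change mulF (push π (fun t : Subgroup.normalizer (Q : Set G) => b₃ t)) (br δ f₁) ≠ 0 at hb₃0
  have hPb : Pq ℓ Q b := ⟨hQp, by rw [← hC]; exact hbC⟩
  have hPb₃ : Pq ℓ R b₃ := ⟨hRp, hb₃C⟩
  have hNl : Nl Q b R b₃ := ⟨hQR, hRN, hbR, hb₃b⟩
  have heR : mulF (br R e) b₃ = b₃ := by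
    have h1 := congrArg (br R) hbe
    rw [H66.br_mulF hF hRp (fun p hp t => (cj_eq_iff p _).1 (hbrcj p hp) t) hinvR,
      C2.H3.br_br hQR] at h1
    rw [← hb₃b, ← H20.mulF_assoc, h1]
  refine ⟨R, b, b₃, hQR, hRN, hRmap, hPb, hPb₃, hNl, hbe, heR, hb₃0, ?_⟩
  -- step 3
  intro D γ hDγ hle
  obtain ⟨S, hS⟩ : ∃ S : Subgroup G, S = D ⊓ C := ⟨_, rfl⟩
  rw [← hC, ← hS]
  have hRD : R ≤ D := hle.sub
  have hQD : Q ≤ D := hQR.trans hRD
  have hSD : S ≤ D := by
    rw [hS]
    exact inf_le_left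
  have hSC : S ≤ C := by
    rw [hS]
    exact inf_le_right
  have hSp : IsPGroup ℓ S := hDγ.pg.to_le hSD
  obtain ⟨s, hPs, hQs, -⟩ := pin ℓ (FF M) hF G D γ hDγ Q b hPb ((Le.one hPb hPb₃ hNl).trans hle)
    (S ⊔ Q) le_sup_right (sup_le hSD hQD)
  have hNs := (pun ℓ (FF M) hF G (S ⊔ Q) s hPs Q b hPb hQs).2
    (sup_le (hSC.trans hCN) hQN)
  have hbS : br (S ⊔ Q) b ≠ 0 := by
    intro h
    apply hPs.blk.ne
    rw [← hNs.und, h, mulF_zero_left]
  obtain ⟨x, hx, hx0⟩ := C2.H3.gd_of_br' hbS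
  have hxC : x ∈ C := by
    by_contra h
    exact hx0 (hbC.supp x h)
  -- the homomorphism on the centraliser
  obtain ⟨q, hq⟩ : ∃ q : C →* A, q = π.comp (Subgroup.inclusion hCN) := ⟨_, rfl⟩
  have hqk : ∀ c : C, c ∈ q.ker ↔ (c : G) ∈ Q := by
    intro c
    rw [MonoidHom.mem_ker, hq]
    exact hmk _
  have hqc : q.ker ≤ Subgroup.center C := by
    intro c hc
    rw [Subgroup.mem_center_iff]
    intro d
    apply Subtype.ext
    change (d : G) * c = c * d
    have h1 := hC.le d.2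
    rw [Subgroup.mem_centralizer_iff] at h1
    exact (h1 c ((hqk c).1 hc)).symm
  have hqp : IsPGroup ℓ q.ker := by
    refine hQp.of_injective ((Subgroup.subtype C).comp q.ker.subtype |>.codRestrict Q ?_) ?_
    · intro x
      exact (hqk x.1).1 x.2
    · intro a b hab
      apply Subtype.ext
      apply Subtype.ext
      exact congrArg (fun t : Q => (t : G)) hab
  have hnorm : q.range.Normal := by
    refine ⟨?_⟩
    rintro _ ⟨c, rfl⟩ a
    obtain ⟨n, rfl⟩ := hπ a
    refine ⟨⟨(n : G) * c * (n : G)⁻¹, hconj n n.2 c c.2⟩, ?_⟩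
    rw [hq]
    change π (Subgroup.inclusion hCN _) = π n * π (Subgroup.inclusion hCN c) * (π n)⁻¹
    rw [← map_inv, ← map_mul, ← map_mul]
    rfl
  obtain ⟨g', hg'⟩ : ∃ g' : A → FF M, g' = push q (fun t : C => b t) := ⟨_, rfl⟩
  have hg'π : push π (fun t : Subgroup.normalizer (Q : Set G) => b t) = g' := by
    rw [hg', T3.H43.push_res hCN π hbC.supp, ← hq]
  have hBg : Bx q.range g' := by
    rw [hg']
    exact T3.H43.push_blk psg hF q hqc hqp hbC.blk
  have hBd : H75.Bd q.range g' := ⟨hnorm, hBg.supp, hBg.blk⟩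
  have hfg : mulF f₁ g' ≠ 0 := by
    intro h
    apply hb0
    have h1 : H66.Inv δ g' := by
      rw [← hg'π, ← hRmap]
      apply T2.H65.push_inv
      intro r hr t
      exact hinvR r (Subgroup.mem_subgroupOf.1 hr) t
    rw [hg'π, ← H66.br_mulF hF hδ.pg h1 (H66.IsCl.inv hf₁.1.1 δ), ← mulF_comm_cl hf₁.1.1, h,
      br_zero]
  -- the image of `S`
  obtain ⟨S', hS'⟩ : ∃ S' : Subgroup A,
    S' = (S.subgroupOf (Subgroup.normalizer (Q : Set G))).map π := ⟨_, rfl⟩
  have hS'p : IsPGroup ℓ S' := by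
    rw [hS']
    exact (hSp.comap_of_injective (Subgroup.normalizer (Q : Set G)).subtype
      (Subgroup.normalizer (Q : Set G)).subtype_injective).map π
  have hS'C : S' ≤ q.range := by
    rw [hS']
    rintro _ ⟨w, hw, rfl⟩
    refine ⟨⟨w, hSC (Subgroup.mem_subgroupOf.1 hw)⟩, ?_⟩
    rw [hq]
    rfl
  have hgS' : Gd g' S' := by
    have h1 : Gd (fun t : C => b t) (S.subgroupOf C) := by
      refine ⟨⟨x, hxC⟩, (cent_sub hSC _).2 ?_, hx0⟩
      rw [Subgroup.mem_centralizer_iff] at hx ⊢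
      intro y hy
      exact hx y ((le_sup_left : S ≤ S ⊔ Q) hy)
    have hkr : IsPGroup ℓ q.rangeRestrict.ker := by
      rw [MonoidHom.ker_rangeRestrict]
      exact hqp
    have h2 := (K9.H02.pug ℓ (FF M) hF C q.range q.rangeRestrict q.rangeRestrict_surjective
      hkr (fun t : C => b t) hbC.blk.1 (S.subgroupOf C) (by
        rw [MonoidHom.ker_rangeRestrict]
        intro c hc
        rw [Subgroup.mem_subgroupOf, hS]
        exact ⟨hQD ((hqk c).1 hc), c.2⟩)
      (hSp.comap_of_injective C.subtype C.subtype_injective)).1 h1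
    obtain ⟨y, hy, hy0⟩ := h2
    rw [← T3.H65.push_range, ← hg'] at hy0
    refine ⟨y, ?_, hy0⟩
    rw [Subgroup.mem_centralizer_iff] at hy ⊢
    rw [hS']
    rintro _ ⟨w, hw, rfl⟩
    have hwP : (w : G) ∈ S := Subgroup.mem_subgroupOf.1 hw
    have h3 := hy (q.rangeRestrict ⟨w, hSC hwP⟩) ⟨⟨w, hSC hwP⟩, Subgroup.mem_subgroupOf.2 hwP, rfl⟩
    have h4 : ((q.rangeRestrict ⟨w, hSC hwP⟩ : q.range) : A) = π w := by
      change q ⟨w, hSC hwP⟩ = π w
      rw [hq]
      rfl
    have h5 := congrArg (fun t : q.range => (t : A)) h3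
    change ((q.rangeRestrict ⟨w, hSC hwP⟩ : q.range) : A) * y =
      y * ((q.rangeRestrict ⟨w, hSC hwP⟩ : q.range) : A) at h5
    rwa [h4] at h5
  have hfS' : Gd f₁ S' := T3.H65.cover_gd hF hBd hf₁.1 hfg hS'C hS'p hgS'
  obtain ⟨k, hk⟩ := (K9.H69.fmg ℓ M hM A f₁ hf₁ δ hδ).1 S' hS'p hfS'
  -- counting
  obtain ⟨T, hT⟩ : ∃ T : Subgroup A, T = δ ⊓ q.range := ⟨_, rfl⟩
  have hTS : T ≤ S' := by
    rw [hT]
    rintro y ⟨hy1, ⟨c, hc⟩⟩
    have hcR : (c : G) ∈ R := by
      have h1 := (hRmem (Subgroup.inclusion hCN c)).2 (by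
        have h2 : π (Subgroup.inclusion hCN c) = y := by
          rw [← hc, hq]
          rfl
        rw [h2]
        exact hy1)
      exact h1
    rw [hS']
    refine ⟨Subgroup.inclusion hCN c, Subgroup.mem_subgroupOf.2 ?_, ?_⟩
    · rw [hS]
      exact ⟨hRD hcR, c.2⟩
    · rw [← hc, hq]
      rfl
  have hcard : Nat.card S' ≤ Nat.card T := by
    have h1 : S' ≤ conjS k T := by
      intro y hy
      rw [mem_conjS, hT]
      refine ⟨mem_conjS.1 (hk hy), ?_⟩
      have h2 := hnorm.conj_mem y (hS'C hy) k⁻¹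
      rwa [inv_inv] at h2
    calc Nat.card S' ≤ Nat.card (conjS k T) := Subgroup.card_le_of_le h1
      _ = Nat.card T := Pool.Agent.Helper51_AWC.card_conjS k T
  have hTS' : T = S' := Subgroup.eq_of_le_of_card_ge hTS hcard
  intro z hz
  have h1 : π ⟨z, hCN (hSC hz)⟩ ∈ S' := by
    rw [hS']
    exact ⟨_, Subgroup.mem_subgroupOf.2 hz, rfl⟩
  rw [← hTS', hT] at h1
  exact (hRmem ⟨z, hCN (hSC hz)⟩).2 h1.1

end Pool.Agent.PP.TP.H31
end
end -- Pool.Agent.Helper31_ATP.PQZ
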