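import Pool.Agent.Helper12_AWB.B159
import Pool.Agent.Helper12_AWB.B170
import Pool.Agent.Helper12_AWB.B174
import Pool.Agent.Helper12_AWB.B261

/-!
# Merged copies (generated) of the modules

* `Pool.Agent.Helper72_AT2.ORT`
* `Pool.Agent.Helper31_AT5.TY5`
* `Pool.Agent.Helper92_AT5.UO5`
* `Pool.Agent.Helper56_AT5.FS5`
* `Pool.Agent.Helper92_AT5.TX5`
* `Pool.Agent.Helper41_ATP.UOP`
* `Pool.Agent.Helper81_ATP.TXP`
* `Pool.Agent.Helper94_ATP.FSP`
-/

set_option autoImplicit false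

section -- Pool.Agent.Helper72_AT2.ORT

/-!
# Squad AT2, row ORT: the idempotents over different conjugates of `U` are orthogonal
-/

set_option autoImplicit false

open scoped BigOperators

noncomputable section

namespace Pool.Agent.PP.T2.H72

open Pool.Agent.Helper51_AWC Pool.Agent.Helper79_WRA Pool.Agent.PP Pool.Agent.PP.KF
open Pool.Agent.PP.K9 Pool.Agent.PP.K9.H97 Pool.Agent.PP.H75 Pool.Agent.PP.T3

attribute [local instance] Ideal.Quotient.field

section

variable {F G : Type} [Field F] [Group G] [Finite G]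

omit [Finite G] in
theorem br_cj (a : G) (R : Subgroup G) (e : G → F) :
    br (conjS a R) (cj a e) = cj a (br R e) := by
  funext x
  by_cases hx : x ∈ Subgroup.centralizer (conjS a R : Set G)
  · rw [H66.br_of_mem hx]
    change e (a⁻¹ * x * a) = br R e (a⁻¹ * x * a)
    rw [H66.br_of_mem ((T3.H62.mem_cent_conjS x).1 hx)]
  · rw [H66.br_of_not_mem hx]
    change 0 = br R e (a⁻¹ * x * a)
    rw [H66.br_of_not_mem (fun h => hx ((T3.H62.mem_cent_conjS x).2 h))]

/-- the data of one conjugate -/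
theorem conj_data {ℓ : ℕ} (hF : GoodF ℓ F) {e : G → F} (he : IsCl e) {U : Subgroup G} {f : G → F}
    (hf : Bx (Subgroup.normalizer (U : Set G)) f) (hund : mulF (br U e) f = f) {Q : Subgroup G}
    (hQ : IsPGroup ℓ Q) {a : G} (hb : Bt U Q a) :
    Ix (Subgroup.centralizer (Q : Set G)) (br Q (cj a f)) ∧
      mulF (br Q e) (br Q (cj a f)) = br Q (cj a f) := by
  have hX : ∀ x, x ∈ Subgroup.normalizer (conjS a U : Set G) ↔
      a⁻¹ * x * a ∈ Subgroup.normalizer (U : Set G) := fun x => T3.H62.mem_norm_conjS x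
  have hfa : Bx (Subgroup.normalizer (conjS a U : Set G)) (cj a f) := T3.H62.bx_cj hX hf
  have hQN : Q ≤ Subgroup.normalizer (conjS a U : Set G) :=
    hb.2.trans (T3.H85.cent_le_norm _)
  have hCN : Subgroup.centralizer (Q : Set G) ≤ Subgroup.normalizer (conjS a U : Set G) :=
    (Subgroup.centralizer_le (show ((conjS a U : Subgroup G) : Set G) ⊆ Q from hb.1)).trans
      (T3.H85.cent_le_norm _)
  have hinv : H66.Inv Q (cj a f) := fun p hp t => C2.H3.ix_inv hfa.ix (hQN hp) t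
  refine ⟨C2.H3.ix_br hF hQ (fun y hy x => C2.H3.ix_inv hfa.ix (hCN hy) x) hinv hfa.mul, ?_⟩
  have h1 : mulF (br (conjS a U) e) (cj a f) = cj a f := by
    have h2 := congrArg (cj a) hund
    rw [cj_mulF, ← br_cj, cj_isCl a he] at h2
    exact h2
  have hinv2 : H66.Inv Q (br (conjS a U) e) := by
    intro p hp t
    have hpN := hQN hp
    have hiff : p * t * p⁻¹ ∈ Subgroup.centralizer (conjS a U : Set G) ↔
        t ∈ Subgroup.centralizer (conjS a U : Set G) := by
      have hpC : p ∈ Subgroup.centralizer (conjS a U : Set G) := hb.2 hp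
      constructor
      · intro h
        have := mul_mem (mul_mem (inv_mem hpC) h) hpC
        have e1 : p⁻¹ * (p * t * p⁻¹) * p = t := by group
        rwa [e1] at this
      · intro h
        exact mul_mem (mul_mem hpC h) (inv_mem hpC)
    by_cases ht : t ∈ Subgroup.centralizer (conjS a U : Set G)
    · rw [H66.br_of_mem ht, H66.br_of_mem (hiff.2 ht)]
      exact he t p
    · rw [H66.br_of_not_mem ht, H66.br_of_not_mem (fun h => ht (hiff.1 h))]
  have h3 := congrArg (br Q) h1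
  rwa [H66.br_mulF hF hQ hinv2 hinv, C2.H3.br_br hb.1] at h3

end

theorem uniq (pwu : PwuStmt) {ℓ : ℕ} [Fact ℓ.Prime] {M : Ideal (integralClosure ℤ ℂ)}
    [M.IsMaximal] (hM : (ℓ : integralClosure ℤ ℂ) ∈ M) {G : Type} [Group G] [Finite G]
    {e : G → FF M} {V : Subgroup G} {γ : G → FF M} (hL : Ld ℓ e V γ) {n : ℕ} {f : G → FF M}
    (hf : Fs ℓ e V (Uw n V) γ f) {Q P : Subgroup G} (hQP : Q ≤ P)
    (hPC : P ≤ Subgroup.centralizer (Q : Set G)) (hP : IsPGroup ℓ P)
    (hPV : Nat.card P = Nat.card V) {a : G} (hb : Bt (Uw n V) Q a)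
    {b : G → FF M} (hbx : Ix (Subgroup.centralizer (Q : Set G)) b)
    (hI : Ix (Subgroup.centralizer (Q : Set G)) (br Q (cj a f))) (hgb : Gd b P)
    (hab : mulF (br Q (cj a f)) b = b) : Uw n P = conjS a (Uw n V) := by
  have hF : GoodF ℓ (FF M) := H50.fld ℓ Fact.out M hM
  obtain ⟨-, hUV, -, -, hUc, -, -, -⟩ := pwu G n V hL.ab
  have hPN : P ≤ Subgroup.normalizer (conjS a (Uw n V) : Set G) :=
    (hPC.trans (Subgroup.centralizer_le
      (show ((conjS a (Uw n V) : Subgroup G) : Set G) ⊆ Q from hb.1))).trans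
      (T3.H85.cent_le_norm _)
  -- `P` is good for `cj a f`
  have hinv1 : H66.Inv P (br Q (cj a f)) := fun p hp t => C2.H3.ix_inv hI (hPC hp) t
  have hinv2 : H66.Inv P b := fun p hp t => C2.H3.ix_inv hbx (hPC hp) t
  have h1 := congrArg (br P) hab
  rw [H66.br_mulF hF hP hinv1 hinv2, C2.H3.br_br hQP] at h1
  have h2 : br P (cj a f) ≠ 0 := by
    intro h0
    rw [h0, H75.mulF_zero_left] at h1
    exact C2.H3.br_ne_of_gd hgb h1.symm
  obtain ⟨t, ht, hft⟩ := C2.H3.gd_of_br' h2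
  -- the conjugate `P'` of `P` in the normaliser of `U`
  have hP'X : conjS a⁻¹ P ≤ Subgroup.normalizer (Uw n V : Set G) := by
    intro x hx
    rw [T3.H62.mem_conjS, inv_inv] at hx
    have h3 := (T3.H62.mem_norm_conjS _).1 (hPN hx)
    have e1 : a⁻¹ * (a * x * a⁻¹) * a = x := by group
    rwa [e1] at h3
  have hP'p : IsPGroup ℓ ((conjS a⁻¹ P).subgroupOf (Subgroup.normalizer (Uw n V : Set G))) := by
    have h3 : IsPGroup ℓ (conjS a⁻¹ P) := conjS_pgroup hP
    exact h3.of_equiv (Subgroup.subgroupOfEquivOfLe hP'X).symm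
  have hta : f (a⁻¹ * t * a) ≠ 0 := hft
  have htX : a⁻¹ * t * a ∈ Subgroup.normalizer (Uw n V : Set G) := by
    by_contra h
    exact hta (hf.blk.supp _ h)
  have hgd : Gd (fun t : Subgroup.normalizer (Uw n V : Set G) => f t)
      ((conjS a⁻¹ P).subgroupOf (Subgroup.normalizer (Uw n V : Set G))) := by
    refine ⟨⟨a⁻¹ * t * a, htX⟩, ?_, hta⟩
    rw [Subgroup.mem_centralizer_iff]
    rintro x hx
    apply Subtype.ext
    change (x : G) * (a⁻¹ * t * a) = a⁻¹ * t * a * (x : G)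
    have h3 : (x : G) ∈ conjS a⁻¹ P := hx
    rw [T3.H62.mem_conjS, inv_inv] at h3
    have h4 := Subgroup.mem_centralizer_iff.1 ht _ h3
    calc (x : G) * (a⁻¹ * t * a) = a⁻¹ * (a * (x : G) * a⁻¹ * t) * a := by group
      _ = a⁻¹ * (t * (a * (x : G) * a⁻¹)) * a := by rw [h4]
      _ = _ := by group
  obtain ⟨y, hy⟩ := (K9.H69.fmg ℓ M hM _ _ hf.ld.blk _ hf.ld.tp).1 _ hP'p hgd
  have hyN : (y : G) ∈ Subgroup.normalizer (Uw n V : Set G) := y.2
  -- `P ≤ conjS (a y) V`
  have hle : P ≤ conjS (a * y) V := by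
    intro x hx
    have h3 : a⁻¹ * x * a ∈ conjS a⁻¹ P := by
      rw [T3.H62.mem_conjS]
      have e1 : a⁻¹⁻¹ * (a⁻¹ * x * a) * a⁻¹ = x := by group
      rwa [e1]
    have h4 : (⟨a⁻¹ * x * a, hP'X h3⟩ : Subgroup.normalizer (Uw n V : Set G)) ∈
        conjS y (V.subgroupOf (Subgroup.normalizer (Uw n V : Set G))) := hy h3
    rw [T3.H62.mem_conjS, Subgroup.mem_subgroupOf] at h4
    rw [T3.H62.mem_conjS]
    have e2 : (a * (y : G))⁻¹ * x * (a * (y : G)) =
        ((y⁻¹ * ⟨a⁻¹ * x * a, hP'X h3⟩ * y : Subgroup.normalizer (Uw n V : Set G)) : G) := by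
      change _ = (y : G)⁻¹ * (a⁻¹ * x * a) * (y : G)
      group
    rw [e2]
    exact h4
  have hPe : P = conjS (a * y) V := by
    refine Subgroup.eq_of_le_of_card_ge hle ?_
    rw [T3.H62.card_conjS', hPV]
  rw [hPe, hUc, ← conjS_conjS, mem_normalizer_iff_conjS.1 hyN]

/-- ORT -/
theorem ort (pwu : PwuStmt) : OrtStmt := by
  intro ℓ _ M _ hM G _ _ e V γ hL n f hf Q hQ g h hbg hbh hne
  have hF : GoodF ℓ (FF M) := H50.fld ℓ Fact.out M hM
  obtain ⟨hI1, hE1⟩ := conj_data hF hL.blk.1.1 hf.blk hf.und hQ hbg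
  obtain ⟨hI2, -⟩ := conj_data hF hL.blk.1.1 hf.blk hf.und hQ hbh
  by_contra hcon
  have hs : ∀ x, x ∉ Subgroup.centralizer (Q : Set G) →
      mulF (br Q (cj g f)) (br Q (cj h f)) x = 0 := H75.mulF_supp _ hI1.supp hI2.supp
  have hcomm := hI1.comm hI2
  -- `E₁ E₂` is an idempotent
  have hmm : mulF (mulF (br Q (cj g f)) (br Q (cj h f)))
      (mulF (br Q (cj g f)) (br Q (cj h f))) = mulF (br Q (cj g f)) (br Q (cj h f)) := by
    rw [H20.mulF_assoc, ← H20.mulF_assoc (br Q (cj h f)) (br Q (cj g f)), ← hcomm,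
      H20.mulF_assoc (br Q (cj g f)) (br Q (cj h f)), hI2.mul, ← H20.mulF_assoc, hI1.mul]
  have hI : Ix (Subgroup.centralizer (Q : Set G)) (mulF (br Q (cj g f)) (br Q (cj h f))) := by
    refine ⟨hs, ?_, ?_⟩
    · intro x y
      have h1 : cj (y : G)⁻¹ (mulF (br Q (cj g f)) (br Q (cj h f))) =
          mulF (br Q (cj g f)) (br Q (cj h f)) := by
        rw [cj_mulF, hI1.inv (inv_mem y.2), hI2.inv (inv_mem y.2)]
      have h2 := congrFun h1 x
      rw [cj, inv_inv] at h2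
      exact h2
    · rw [← H75.mulF_res _ _ hs, hmm]
  obtain ⟨b₀, hb₀, hgb, -⟩ := K9.H24.exists_blk
    (L := fun a : Subgroup.centralizer (Q : Set G) → FF M => a) rfl
    (fun a b => rfl) hI.idem (by
      intro h0
      apply hcon
      exact H75.eq_of_res hI.supp (fun _ _ => rfl) h0)
  obtain ⟨b, hb⟩ : ∃ b : G → FF M, b = H75.ext0 (Subgroup.centralizer (Q : Set G)) b₀ := ⟨_, rfl⟩
  have hbs : ∀ x, x ∉ Subgroup.centralizer (Q : Set G) → b x = 0 := by
    rw [hb]
    exact H75.ext0_supp _ b₀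
  have hbC : (fun t : Subgroup.centralizer (Q : Set G) => b t) = b₀ := by
    rw [hb]
    exact funext (H75.ext0_apply _ b₀)
  have hBb : Bx (Subgroup.centralizer (Q : Set G)) b := ⟨hbs, by rw [hbC]; exact hb₀⟩
  have hEb : mulF (mulF (br Q (cj g f)) (br Q (cj h f))) b = b := by
    apply H75.eq_of_res (H75.mulF_supp _ hI.supp hbs) hbs
    rw [H75.mulF_res _ b hI.supp, hbC, hgb]
  have h1b : mulF (br Q (cj g f)) b = b := by
    conv_lhs => rw [← hEb]
    rw [← H20.mulF_assoc, ← H20.mulF_assoc, hI1.mul, hEb]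
  have h2b : mulF (br Q (cj h f)) b = b := by
    conv_lhs => rw [← hEb]
    rw [hcomm, ← H20.mulF_assoc, ← H20.mulF_assoc, hI2.mul, ← hcomm, hEb]
  have heb : mulF (br Q e) b = b := by
    rw [← h1b, ← H20.mulF_assoc, hE1]
  obtain ⟨P, hP, hQP, hPC, hPV, hgP⟩ := C2.H3.gdv C2.H3.dug ℓ M hM G e hL.blk V hL.tp hL.ab Q hQ b
    ⟨hBb.supp, hBb.blk⟩ heb
  apply hne
  rw [← uniq pwu hM hL hf hQP hPC hP hPV hbg hBb.ix hI1 hgP h1b,
    ← uniq pwu hM hL hf hQP hPC hP hPV hbh hBb.ix hI2 hgP h2b]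

end Pool.Agent.PP.T2.H72
end
end -- Pool.Agent.Helper72_AT2.ORT

section -- Pool.Agent.Helper31_AT5.TY5

/-!
# Squad AT5, row TY5: the blocks of `N(Q)/Q` which are not over a conjugate of `(U, f)`
-/

open scoped BigOperators

noncomputable section

namespace Pool.Agent.PP.T5.H31

open Pool.Agent.Helper51_AWC Pool.Agent.Helper79_WRA Pool.Agent.PP Pool.Agent.PP.KF
open Pool.Agent.PP.K9 Pool.Agent.PP.K9.H97 Pool.Agent.PP.H75 Pool.Agent.PP.T3 Pool.Agent.PP.T2

attribute [local instance] Ideal.Quotient.field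

set_option linter.unusedSectionVars false

/-! ### 1. Nilpotent elements of the group ring -/

section nil

variable {F H : Type} [Field F] [Group H] [Finite H]

theorem iter_zero_iff (a b : H → F) (n : ℕ) : (mulF a)^[n] b = 0 ↔ ma a ^ n * ma b = 0 := by
  rw [← ma_iterate, ← ma_zero (F := F) (H := H)]
  exact ma_injective.eq_iff.symm

/-- the idempotent `f₁` is central -/
theorem comm_idem {f₁ : H → F} (h : IsCl f₁) (x : MonoidAlgebra F H) : Commute x (ma f₁) :=
  (Subalgebra.mem_center_iff.1 ((isCl_iff f₁).1 h) x)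

theorem ma_pow_idem {f₁ : H → F} (h : IsIdem f₁) (n : ℕ) : ma f₁ ^ (n + 1) = ma f₁ :=
  IsIdempotentElem.pow_succ_eq n ((isIdem_iff f₁).1 h).2

theorem nil_iff {f₁ : H → F} (h : IsIdem f₁) (a : H → F) :
    (∃ n : ℕ, (mulF a)^[n] f₁ = 0) ↔ IsNilpotent (ma a * ma f₁) := by
  have hc := comm_idem h.1 (ma a)
  constructor
  · rintro ⟨n, hn⟩
    rw [iter_zero_iff] at hn
    refine ⟨n + 1, ?_⟩
    rw [hc.mul_pow, ma_pow_idem h, pow_succ', mul_assoc, hn, mul_zero]
  · rintro ⟨n, hn⟩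
    refine ⟨n, ?_⟩
    rw [iter_zero_iff]
    rw [hc.mul_pow] at hn
    have h1 := congrArg (fun x => x * ma f₁) hn
    simp only [zero_mul] at h1
    rw [mul_assoc, ← pow_succ, ma_pow_idem h] at h1
    exact h1

theorem nil_sum {f₁ : H → F} (h : IsIdem f₁) {ι : Type} (s : Finset ι) (w : ι → H → F)
    (hc : ∀ i ∈ s, ∀ j ∈ s, mulF (w i) (w j) = mulF (w j) (w i))
    (hn : ∀ i ∈ s, ∃ n : ℕ, (mulF (w i))^[n] f₁ = 0) :
    ∃ n : ℕ, (mulF (∑ i ∈ s, w i))^[n] f₁ = 0 := by
  rw [nil_iff h, ma_sum, Finset.sum_mul]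
  apply Commute.isNilpotent_sum
  · intro i hi
    rw [← nil_iff h]
    exact hn i hi
  · intro i j hi hj
    have h1 : Commute (ma (w i)) (ma (w j)) := by
      have h2 := congrArg ma (hc i hi j hj)
      rwa [ma_mul, ma_mul] at h2
    have c1 := comm_idem h.1 (ma (w i))
    have c2 := comm_idem h.1 (ma (w j))
    exact (h1.mul_right c1).mul_left (c2.symm.mul_right (Commute.refl _))

/-- the second summand is not nilpotent in `f₁` -/
theorem inv_of_add {f₁ : H → F} (h : IsBlk f₁) {z z₁ z₂ : H → F} (h1 : IsCl z₁) (h2 : IsCl z₂)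
    (hz : z = z₁ + z₂) (hinv : Inv z f₁) (hn : ∃ n : ℕ, (mulF z₁)^[n] f₁ = 0) : Inv z₂ f₁ := by
  rcases H50.blk_dich h h2 with h3 | h3
  · exfalso
    obtain ⟨c, hc, hcz⟩ := hinv
    rw [nil_iff h.1] at h3 hn
    have c1 := comm_idem h1 (ma z₂)
    have c2 := comm_idem h.1.1 (ma z₁)
    have c3 := comm_idem h.1.1 (ma z₂)
    have h4 : IsNilpotent (ma z₁ * ma f₁ + ma z₂ * ma f₁) := by
      apply Commute.isNilpotent_add _ hn h3
      exact (c1.symm.mul_right c2).mul_left (c3.symm.mul_right (Commute.refl _))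
    rw [← add_mul, ← ma_add, ← hz] at h4
    obtain ⟨n, hn'⟩ := h4
    have h5 : ma c * (ma z * ma f₁) = ma f₁ := by
      have h6 := congrArg ma hcz
      rwa [ma_mul, ma_mul, mul_assoc] at h6
    have h7 : Commute (ma c) (ma z * ma f₁) := (comm_idem hc (ma z * ma f₁)).symm
    have h8 : ma f₁ ^ n = 0 := by
      rw [← h5, h7.mul_pow, hn', mul_zero]
    have h9 : ma f₁ = 0 := by
      rw [← ma_pow_idem h.1 n, pow_succ, h8, zero_mul]
    exact h.2.1 (ma_injective (h9.trans ma_zero.symm))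
  · exact h3

end nil

/-! ### 2. The other blocks of `X` -/

section blocks

variable {F G : Type} [Field F] [Group G] [Finite G]

theorem pow_mul_zero_of_le {K b : G → F} {n N : ℕ} (h : (mulF K)^[n] b = 0) (hN : n ≤ N) :
    ma K ^ N * ma b = 0 := by
  rw [iter_zero_iff] at h
  obtain ⟨k, rfl⟩ := Nat.exists_eq_add_of_le' hN
  rw [pow_add, mul_assoc, h, mul_zero]

theorem nil_rest {X : Subgroup G} {E f K : G → F} (hE : Ix X E) (hf : Bx X f)
    (hEf : mulF E f = f)
    (hn : ∀ f', Bx X f' → mulF E f' = f' → f' ≠ f → ∃ n : ℕ, (mulF K)^[n] f' = 0) :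
    ∃ n : ℕ, (mulF K)^[n] (E - f) = 0 := by
  classical
  have hfin := T2.H69.bx_finite (F := F) X
  obtain ⟨m, hm⟩ : ∃ m : (G → F) → ℕ, ∀ f', Bx X f' → mulF E f' = f' → f' ≠ f →
      (mulF K)^[m f'] f' = 0 := by
    have h1 : ∀ f' : G → F, ∃ n : ℕ, Bx X f' → mulF E f' = f' → f' ≠ f →
        (mulF K)^[n] f' = 0 := by
      intro f'
      by_cases h2 : Bx X f' ∧ mulF E f' = f' ∧ f' ≠ f
      · obtain ⟨n, h3⟩ := hn f' h2.1 h2.2.1 h2.2.2
        exact ⟨n, fun _ _ _ => h3⟩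
      · exact ⟨0, fun a b c => absurd ⟨a, b, c⟩ h2⟩
    exact ⟨fun f' => (h1 f').choose, fun f' => (h1 f').choose_spec⟩
  obtain ⟨N, hN⟩ : ∃ N : ℕ, ∀ f', Bx X f' → m f' ≤ N := by
    refine ⟨hfin.toFinset.sup m, fun f' h' => ?_⟩
    exact Finset.le_sup (hfin.mem_toFinset.2 h')
  refine ⟨N, ?_⟩
  rw [iter_zero_iff]
  by_contra hcon
  have hEs : ∀ x, x ∉ X → (E - f) x = 0 := by
    intro x hx
    rw [Pi.sub_apply, hE.supp x hx, hf.supp x hx, sub_zero]
  have hres : (fun t : X => E t) - (fun t : X => f t) = fun t : X => (E - f) t := rfl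
  have hEf' : mulF (fun t : X => E t) (fun t : X => f t) = fun t : X => f t := by
    rw [← mulF_res X f hE.supp, hEf]
  have hid : IsIdem (fun t : X => (E - f) t) := by
    rw [← hres]
    exact (H46.isIdem_sub hE.idem hf.blk.1 hEf').1
  have hext_add : ∀ a b : X → F, H75.ext0 X (a + b) = H75.ext0 X a + H75.ext0 X b := by
    intro a b
    apply eq_of_res (N := X) (ext0_supp X _)
    · intro x hx
      rw [Pi.add_apply, ext0_supp X a x hx, ext0_supp X b x hx, add_zero]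
    · funext t
      rw [Pi.add_apply, ext0_apply, ext0_apply, ext0_apply, Pi.add_apply]
  obtain ⟨b₀, hb₀, hEb, hL⟩ := K9.H24.exists_blk
    (L := fun a : X → F => ma K ^ N * ma (H75.ext0 X a)) (by
      have h1 : H75.ext0 X (0 : X → F) = 0 := by
        apply eq_of_res (N := X) (ext0_supp X _) (fun _ _ => rfl)
        funext t
        rw [ext0_apply]
        rfl
      show ma K ^ N * ma (H75.ext0 X (0 : X → F)) = 0
      rw [h1, ma_zero, mul_zero])
    (by
      intro a b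
      show ma K ^ N * ma (H75.ext0 X (a + b)) = _
      rw [hext_add, ma_add, mul_add]) hid (by
      show ma K ^ N * ma (H75.ext0 X (fun t : X => (E - f) t)) ≠ 0
      have h1 : H75.ext0 X (fun t : X => (E - f) t) = E - f := by
        apply eq_of_res (N := X) (ext0_supp X _) hEs
        funext t
        rw [ext0_apply]
      rw [h1]
      exact hcon)
  apply hL
  show ma K ^ N * ma (H75.ext0 X b₀) = 0
  have hbB : Bx X (H75.ext0 X b₀) := by
    refine ⟨ext0_supp X b₀, ?_⟩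
    have h1 : (fun t : X => H75.ext0 X b₀ t) = b₀ := funext (ext0_apply X b₀)
    rw [h1]
    exact hb₀
  have hEfb : mulF (E - f) (H75.ext0 X b₀) = H75.ext0 X b₀ := by
    apply eq_of_res (mulF_supp X hEs hbB.supp) hbB.supp
    rw [mulF_res X _ hEs]
    have h1 : (fun t : X => H75.ext0 X b₀ t) = b₀ := funext (ext0_apply X b₀)
    rw [h1, hEb]
  have hE1 : mulF E (E - f) = E - f := by
    apply ma_injective
    rw [ma_mul, ma_sub, mul_sub, ← ma_mul, ← ma_mul, hE.mul, hEf]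
  have hEb' : mulF E (H75.ext0 X b₀) = H75.ext0 X b₀ := by
    conv_lhs => rw [← hEfb]
    rw [← mulF_assoc, hE1, hEfb]
  have hne : H75.ext0 X b₀ ≠ f := by
    intro h
    rw [h] at hEfb
    apply hf.ne
    rw [← hEfb]
    apply ma_injective
    rw [ma_mul, ma_sub, sub_mul, ← ma_mul, ← ma_mul, hEf, hf.mul, sub_self, ma_zero]
  exact pow_mul_zero_of_le (hm _ hbB hEb' hne) (hN _ hbB)

end blocks

/-! ### 3. The image of `br_Q` in `N(Q)/Q` -/

section op

variable {F G A : Type} [Field F] [Group G] [Finite G] [Group A] [Finite A]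
variable {ℓ : ℕ} {Q : Subgroup G} (π : Subgroup.normalizer (Q : Set G) →* A)

/-- the image of `br_Q(b)` -/
def T (b : G → F) : A → F := push π (fun t : Subgroup.normalizer (Q : Set G) => br Q b t)

theorem br_supp (b : G → F) : ∀ x, x ∉ Subgroup.normalizer (Q : Set G) → br Q b x = 0 :=
  fun _ hx => H66.br_of_not_mem (fun h => hx (Subgroup.centralizer_le_normalizer _ h))

theorem T_mul (hF : GoodF ℓ F) (hQ : IsPGroup ℓ Q) {b c : G → F} (hb : H66.Inv Q b)
    (hc : H66.Inv Q c) : T π (mulF b c) = mulF (T π b) (T π c) := by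
  unfold T
  rw [← push_mulF, ← mulF_res _ (br Q c) (br_supp b), H66.br_mulF hF hQ hb hc]

theorem inv_mul' {b c : G → F} (hb : H66.Inv Q b) (hc : H66.Inv Q c) : H66.Inv Q (mulF b c) := by
  intro x hx
  rw [← cj_eq_iff, cj_mulF, (cj_eq_iff x b).2 (hb x hx), (cj_eq_iff x c).2 (hc x hx)]

theorem inv_iter {b c : G → F} (hb : H66.Inv Q b) (hc : H66.Inv Q c) (n : ℕ) :
    H66.Inv Q ((mulF b)^[n] c) := by
  induction n with
  | zero => exact hc
  | succ n ih =>
    rw [Function.iterate_succ_apply']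
    exact inv_mul' hb ih

theorem T_iter (hF : GoodF ℓ F) (hQ : IsPGroup ℓ Q) {b c : G → F} (hb : H66.Inv Q b)
    (hc : H66.Inv Q c) (n : ℕ) : T π ((mulF b)^[n] c) = (mulF (T π b))^[n] (T π c) := by
  induction n with
  | zero => rfl
  | succ n ih =>
    rw [Function.iterate_succ_apply', Function.iterate_succ_apply',
      T_mul π hF hQ hb (inv_iter hb hc n), ih]

theorem T_add (b c : G → F) : T π (b + c) = T π b + T π c := by
  unfold T
  rw [← T3.H43.push_add]
  congr 1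
  funext t
  by_cases ht : (t : G) ∈ Subgroup.centralizer (Q : Set G)
  · rw [Pi.add_apply, H66.br_of_mem ht, H66.br_of_mem ht, H66.br_of_mem ht]
    rfl
  · rw [Pi.add_apply, H66.br_of_not_mem ht, H66.br_of_not_mem ht, H66.br_of_not_mem ht, add_zero]

theorem T_zero : T π (0 : G → F) = 0 := by
  have h := T_add π (0 : G → F) 0
  rw [add_zero] at h
  exact left_eq_add.1 h

theorem T_sub (b c : G → F) : T π (b - c) = T π b - T π c := by
  have h := T_add π (b - c) c
  rw [sub_add_cancel] at h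
  rw [h, add_sub_cancel_right]

theorem T_sum {ι : Type} (s : Finset ι) (b : ι → G → F) :
    T π (∑ i ∈ s, b i) = ∑ i ∈ s, T π (b i) := by
  classical
  induction s using Finset.induction_on with
  | empty => rw [Finset.sum_empty, Finset.sum_empty]; exact T_zero π
  | insert i s hi ih => rw [Finset.sum_insert hi, Finset.sum_insert hi, T_add, ih]

theorem T_br {U : Subgroup G} (h : U ≤ Q) (b : G → F) : T π (br U b) = T π b := by
  unfold T
  rw [C2.H3.br_br h]

theorem T_cj (n : Subgroup.normalizer (Q : Set G)) (b : G → F) :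
    T π (cj (n : G) b) = cj (π n) (T π b) := by
  unfold T
  rw [← T3.H43.push_cj, ← T3.H79.cj_br n.2]
  rfl

theorem T_ne {b : G → F} {x : A} (h : T π b x ≠ 0) :
    ∃ n : Subgroup.normalizer (Q : Set G), π n = x ∧
      (n : G) ∈ Subgroup.centralizer (Q : Set G) ∧ b n ≠ 0 := by
  classical
  have := Fintype.ofFinite (Subgroup.normalizer (Q : Set G))
  unfold T at h
  rw [push_eq] at h
  obtain ⟨n, -, hn⟩ := Finset.exists_ne_zero_of_sum_ne_zero h
  have h1 : π n = x := by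
    by_contra h2
    exact hn (if_neg h2)
  rw [if_pos h1] at hn
  have h2 : (n : G) ∈ Subgroup.centralizer (Q : Set G) := by
    by_contra h3
    exact hn (H66.br_of_not_mem h3)
  rw [H66.br_of_mem h2] at hn
  exact ⟨n, h1, h2, hn⟩

theorem T_comm {b c : G → F} (hc : ∀ x ∈ Subgroup.centralizer (Q : Set G), cj x c = c) :
    mulF (T π b) (T π c) = mulF (T π c) (T π b) := by
  have h1 : mulF (br Q b) (br Q c) = mulF (br Q c) (br Q b) := by
    apply mulF_comm_of (K := Subgroup.centralizer (Q : Set G))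
    · intro x hx
      exact H66.br_of_not_mem hx
    · intro k hk
      rw [T3.H79.cj_br (Subgroup.centralizer_le_normalizer _ hk), hc k hk]
  unfold T
  rw [← push_mulF, ← push_mulF, ← mulF_res _ (br Q c) (br_supp b),
    ← mulF_res _ (br Q b) (br_supp c), h1]

theorem T_isCl (hπ : Function.Surjective π) {b : G → F} (hb : IsCl b) : IsCl (T π b) := by
  intro x y
  obtain ⟨n, rfl⟩ := hπ y
  have h1 : cj (π n) (T π b) = T π b := by
    rw [← T_cj, cj_isCl _ hb]
  exact (cj_eq_iff _ _).1 h1 x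

/-- the sum over the conjugates of `U` between which and their centralisers `Q` is -/
theorem sum_isCl (hπ : Function.Surjective π) {U : Subgroup G} {K : G → F}
    (hK : ∀ x ∈ Subgroup.normalizer (U : Set G), cj x K = K) :
    IsCl (∑ q ∈ T2.H69.II U Q, T π (cj q.out K)) := by
  have hcos : ∀ g k : G, g⁻¹ * k ∈ Subgroup.normalizer (U : Set G) → cj g K = cj k K := by
    intro g k H
    have e : k = g * (g⁻¹ * k) := by group
    rw [e, ← cj_cj, hK _ H]
  have key : ∀ m : Subgroup.normalizer (Q : Set G),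
      cj (π m) (∑ k ∈ T2.H69.II U Q, T π (cj k.out K)) = ∑ k ∈ T2.H69.II U Q, T π (cj k.out K) := by
    intro m
    have h2 : cj (π m) (∑ k ∈ T2.H69.II U Q, T π (cj k.out K)) =
        ∑ k ∈ T2.H69.II U Q, cj (π m) (T π (cj k.out K)) := by
      funext z
      rw [Finset.sum_apply]
      show (∑ k ∈ T2.H69.II U Q, T π (cj k.out K)) _ = _
      rw [Finset.sum_apply]
      rfl
    rw [h2]
    have h4 : ∀ (n : G) (k : G ⧸ Subgroup.normalizer (U : Set G)),
        (n * k.out)⁻¹ * (n • k).out ∈ Subgroup.normalizer (U : Set G) := by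
      intro n k
      rw [← QuotientGroup.eq, QuotientGroup.out_eq']
      have h5 : ((n * k.out : G) : G ⧸ Subgroup.normalizer (U : Set G)) =
          n • ((k.out : G) : G ⧸ Subgroup.normalizer (U : Set G)) := rfl
      rw [h5, QuotientGroup.out_eq']
    refine Finset.sum_bij (fun k _ => (m : G) • k) ?_ ?_ ?_ ?_
    · intro k hk
      rw [T2.H69.mem_II] at hk ⊢
      exact (T2.H69.bt_coset (h4 m k)).1 ((T2.H69.bt_mul m.2).2 hk)
    · intro a _ b _ hab
      exact smul_left_cancel (m : G) hab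
    · intro k hk
      refine ⟨(m : G)⁻¹ • k, ?_, smul_inv_smul _ _⟩
      rw [T2.H69.mem_II] at hk ⊢
      exact (T2.H69.bt_coset (h4 (m : G)⁻¹ k)).1 ((T2.H69.bt_mul (inv_mem m.2)).2 hk)
    · intro k hk
      rw [← T_cj, cj_cj, hcos _ _ (h4 m k)]
  intro x y
  obtain ⟨n, rfl⟩ := hπ y
  exact (cj_eq_iff _ _).1 (key n) x

theorem cj_iter (g : G) (a b : G → F) (n : ℕ) :
    cj g ((mulF a)^[n] b) = (mulF (cj g a))^[n] (cj g b) := by
  induction n with
  | zero => rfl
  | succ n ih => rw [Function.iterate_succ_apply', Function.iterate_succ_apply', cj_mulF, ih]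

/-- (1) of the docstring for one conjugate -/
theorem nil_w (hF : GoodF ℓ F) (hQ : IsPGroup ℓ Q) {U : Subgroup G} {e f K : G → F} {g : G}
    (hg : Bt U Q g) (he : IsCl e) (hf : Ix (Subgroup.normalizer (U : Set G)) f)
    (hK : ∀ x ∈ Subgroup.normalizer (U : Set G), cj x K = K) {n : ℕ}
    (hn : (mulF K)^[n] (br U e - f) = 0) {f₁ : A → F} (h1 : mulF (T π e) f₁ = f₁)
    (h2 : mulF (T π (cj g f)) f₁ = 0) : (mulF (T π (cj g K)))^[n] f₁ = 0 := by
  have hinvK : ∀ b : G → F, (∀ x ∈ Subgroup.normalizer (U : Set G), cj x b = b) →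
      H66.Inv Q (cj g b) := by
    intro b hb x hx
    rw [← cj_eq_iff]
    have h3 : g⁻¹ * x * g ∈ Subgroup.normalizer (U : Set G) :=
      (T2.H69.mem_conjX g x).1 (T2.H69.Q_le hg hx)
    have e1 : x * g = g * (g⁻¹ * x * g) := by group
    rw [cj_cj, e1, ← cj_cj, hb _ h3]
  have hbr : ∀ x ∈ Subgroup.normalizer (U : Set G), cj x (br U e) = br U e := by
    intro x hx
    rw [T3.H79.cj_br hx, cj_isCl x he]
  have hd : ∀ x ∈ Subgroup.normalizer (U : Set G), cj x (br U e - f) = br U e - f := by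
    intro x hx
    have h3 : cj x (br U e - f) = cj x (br U e) - cj x f := rfl
    rw [h3, hbr x hx, hf.inv hx]
  have h4 := congrArg (fun b => T π (cj g b)) hn
  rw [cj_iter, T_iter π hF hQ (hinvK K hK) (hinvK _ hd), cj_zero, T_zero] at h4
  have h5 : cj g (br U e - f) = br (conjS g U) e - cj g f := by
    have h6 : cj g (br U e - f) = cj g (br U e) - cj g f := rfl
    rw [h6, ← T2.H72.br_cj, cj_isCl g he]
  rw [h5, T_sub, T_br π hg.1] at h4
  rw [iter_zero_iff] at h4 ⊢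
  have h7 := congrArg (fun x => x * ma f₁) h4
  simp only [zero_mul] at h7
  rw [ma_sub, mul_assoc, sub_mul, ← ma_mul, ← ma_mul, h1, h2, ma_zero, sub_zero] at h7
  exact h7

end op

theorem cj_clsum {F G : Type} [Field F] [Group G] {X : Subgroup G} {w x : G} (hx : x ∈ X) :
    cj x (clsum F X w) = clsum F X w := by
  funext t
  unfold cj clsum
  have h : (∃ q ∈ X, x⁻¹ * t * x = q * w * q⁻¹) ↔ ∃ q ∈ X, t = q * w * q⁻¹ := by
    constructor
    · rintro ⟨q, hq, h⟩
      refine ⟨x * q, mul_mem hx hq, ?_⟩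
      calc t = x * (x⁻¹ * t * x) * x⁻¹ := by group
        _ = x * q * w * (x * q)⁻¹ := by rw [h]; group
    · rintro ⟨q, hq, rfl⟩
      exact ⟨x⁻¹ * q, mul_mem (inv_mem hx) hq, by group⟩
  by_cases h1 : ∃ q ∈ X, t = q * w * q⁻¹
  · rw [if_pos (h.2 h1), if_pos h1]
  · rw [if_neg (fun h2 => h1 (h.1 h2)), if_neg h1]

/-- TY5 -/
theorem ty5 (omf : OmfStmt) (ksp : KspStmt) (zpt : ZptStmt) (qtp : QtpStmt) (cyq : CyqStmt) :
    Ty5Stmt := by
  intro ℓ _ M _ hM G _ _ a p k e V u y hU hcy f hf Q hQ A _ _ π hπ hker f₁ hf₁ hff hno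
  classical
  have hF : GoodF ℓ (FF M) := H50.fld ℓ Fact.out M hM
  have huy : u * y = y * u := Subgroup.mem_centralizer_iff.1 hU.yc u hU.mem
  obtain ⟨hK1, hK2⟩ := ksp ℓ (FF M) G a u y hU.pos hU.ord huy hU.reg
  obtain ⟨hUp, -⟩ := omf ℓ G a u hU.pos hU.ord
  have hfB := hf.blk
  have hfund := hf.und
  have hfnil := hf.nil
  clear hf
  obtain ⟨U, hUdef⟩ : ∃ U, U = Om ℓ a u := ⟨_, rfl⟩
  rw [← hUdef] at hK1 hK2 hUp hfB hfund hfnil hno
  obtain ⟨K, hKdef⟩ : ∃ K : G → FF M,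
    K = clsum (FF M) (Subgroup.normalizer (U : Set G)) (u * y) := ⟨_, rfl⟩
  rw [← hKdef] at hK1 hK2 hfnil
  have hE : Ix (Subgroup.normalizer (U : Set G)) (br U e) :=
    ⟨fun x hx => H66.br_of_not_mem (fun h => hx (Subgroup.centralizer_le_normalizer _ h)),
      (H20.brm ℓ (FF M) hF G U (Subgroup.normalizer (U : Set G)) hUp
        (Subgroup.centralizer_le_normalizer _) le_rfl).2.2 e hU.blk.1⟩
  obtain ⟨n, hn⟩ := nil_rest hE hfB hfund hfnil
  have hKinv : ∀ x ∈ Subgroup.normalizer (U : Set G), cj x K = K := by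
    intro x hx
    rw [hKdef]
    exact cj_clsum hx
  have hff' : mulF (T π e) f₁ = f₁ := hff
  obtain ⟨z, hz⟩ : ∃ z : A → FF M, z = T π (clsum (FF M) (⊤ : Subgroup G) (u * y)) := ⟨_, rfl⟩
  have hzcl : IsCl z := by
    rw [hz]
    exact T_isCl π hπ (H50.isCl_clsum _)
  have hzinv : Inv z f₁ := by
    obtain ⟨c, hc, hce⟩ := hU.inv
    refine ⟨T π c, T_isCl π hπ hc, ?_⟩
    have h1 := congrArg (T π) hce
    have hi : ∀ b : G → FF M, IsCl b → H66.Inv Q b := fun b hb => H66.IsCl.inv hb Q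
    rw [T_mul π hF hQ (hi _ (H50.isCl_mulF hc (H50.isCl_clsum _))) (hi _ hU.blk.1.1),
      T_mul π hF hQ (hi _ hc) (hi _ (H50.isCl_clsum _)), ← hz] at h1
    calc mulF (mulF (T π c) z) f₁ = mulF (mulF (T π c) z) (mulF (T π e) f₁) := by rw [hff']
      _ = mulF (mulF (mulF (T π c) z) (T π e)) f₁ := (mulF_assoc _ _ _).symm
      _ = mulF (T π e) f₁ := by rw [h1]
      _ = f₁ := hff'
  have hft := Fintype.ofFinite (G ⧸ Subgroup.normalizer (U : Set G))
  have hzsum : z = ∑ q : G ⧸ Subgroup.normalizer (U : Set G), T π (cj q.out K) := by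
    rw [hz, ← T_sum]
    congr 1
    funext t
    rw [Finset.sum_apply, ← hK1 t, finsum_eq_sum_of_fintype]
  obtain ⟨z₁, hz1⟩ : ∃ z₁ : A → FF M, z₁ = ∑ q ∈ T2.H69.II U Q, T π (cj q.out K) := ⟨_, rfl⟩
  have hz1cl : IsCl z₁ := by
    rw [hz1]
    exact sum_isCl π hπ hKinv
  obtain ⟨z₂, hz2⟩ : ∃ z₂, z₂ = z - z₁ := ⟨_, rfl⟩
  have hz2cl : IsCl z₂ := by
    rw [hz2]
    exact (cfs (FF M) A).sub_mem hzcl hz1cl
  have hzz : z = z₁ + z₂ := by rw [hz2, add_sub_cancel]
  have hnil1 : ∃ n : ℕ, (mulF z₁)^[n] f₁ = 0 := by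
    rw [hz1]
    apply nil_sum hf₁.1
    · intro i hi j hj
      apply T_comm
      intro x hx
      have h3 := (T2.H69.mem_conjX j.out x).1 (T2.H69.cent_le (T2.H69.mem_II.1 hj) hx)
      have e1 : x * j.out = j.out * (j.out⁻¹ * x * j.out) := by group
      rw [cj_cj, e1, ← cj_cj, hKinv _ h3]
    · intro i hi
      have hb := T2.H69.mem_II.1 hi
      exact ⟨n, nil_w π hF hQ hb hU.blk.1.1 hfB.ix hKinv hn hff' (hno i.out hb)⟩
  have hinv2 : Inv z₂ f₁ := inv_of_add hf₁ hz1cl hz2cl hzz hzinv hnil1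
  obtain ⟨V', hV'⟩ := K9.H57.exists_tp (ℓ := ℓ) hf₁.2.1
  obtain ⟨x, hxC, hzx, hxV⟩ := zpt ℓ M hM A f₁ hf₁ V' hV' z₂ hz2cl hinv2
  have h1 : ∃ q, q ∉ T2.H69.II U Q ∧ T π (cj q.out K) x ≠ 0 := by
    by_contra hcon
    push Not at hcon
    apply hzx
    rw [hz2, Pi.sub_apply, hzsum, hz1, Finset.sum_apply, Finset.sum_apply,
      ← Finset.sum_subset (Finset.subset_univ (T2.H69.II U Q)) (fun q _ hq => hcon q hq),
      sub_self]
  obtain ⟨q, hq, hqx⟩ := h1
  obtain ⟨c, hcx, hcC, hcK⟩ := T_ne π hqx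
  obtain ⟨u', hLp, hord, hOm, ⟨m, hm⟩, -⟩ := hK2 q.out c hcK
  have hu'N : u' ∈ Subgroup.normalizer (Q : Set G) := by
    rw [hm]
    exact pow_mem c.2 m
  have hu'C : u' ∈ Subgroup.centralizer (Q : Set G) := by
    rw [hm]
    exact pow_mem hcC m
  obtain ⟨-, -, -, hOz, -, -, -, hO8⟩ := omf ℓ G a u' hU.pos hord
  have hnot : ¬ conjS q.out U ≤ Q := by
    intro hle
    apply hq
    rw [T2.H69.mem_II]
    refine ⟨hle, ?_⟩
    rw [← hOm]
    intro w hw
    rw [Subgroup.mem_centralizer_iff]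
    intro r hr
    have hrC : r ∈ Subgroup.centralizer (Q : Set G) := (Subgroup.zpowers_le.2 hu'C) (hOz hr)
    exact (Subgroup.mem_centralizer_iff.1 hrC w hw).symm
  have hkm : π.ker.map (Subgroup.normalizer (Q : Set G)).subtype = Q := by
    rw [hker, Subgroup.subgroupOf_map_subtype]
    exact inf_eq_left.2 Subgroup.le_normalizer
  have hordv : orderOf (π ⟨u', hu'N⟩) = ℓ ^ a := by
    apply hO8 A _ π hu'N
    rw [hkm, hOm]
    exact hnot
  have hvx : π ⟨u', hu'N⟩ = x ^ m := by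
    rw [← hcx, ← map_pow]
    congr 1
    exact Subtype.ext hm
  have hLv : Lp ℓ x (π ⟨u', hu'N⟩) := by
    obtain ⟨⟨r, hr⟩, hcom, hreg⟩ := hLp
    refine ⟨⟨r, ?_⟩, ?_, ?_⟩
    · rw [← map_pow]
      have h5 : (⟨u', hu'N⟩ : Subgroup.normalizer (Q : Set G)) ^ ℓ ^ r = 1 := Subtype.ext hr
      rw [h5, map_one]
    · rw [hvx]
      exact (Commute.refl x).pow_left m
    · have h5 : (π ⟨u', hu'N⟩)⁻¹ * x = π ((⟨u', hu'N⟩ : Subgroup.normalizer (Q : Set G))⁻¹ * c) := by
        rw [map_mul, map_inv, hcx]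
      rw [h5]
      unfold Reg at hreg ⊢
      refine Nat.Coprime.coprime_dvd_left (orderOf_map_dvd π _) ?_
      have h6 : orderOf ((⟨u', hu'N⟩ : Subgroup.normalizer (Q : Set G))⁻¹ * c) =
          orderOf (u'⁻¹ * (c : G)) := by
        rw [← Subgroup.orderOf_coe]
        rfl
      rwa [h6]
  have hvV := hxV _ hLv
  obtain ⟨P, g, hQP, hPN, hPV, hV'P⟩ := qtp ℓ M hM G e V hU.blk hU.tp Q hQ A π hπ hker f₁ hf₁ hff
    V' hV'.pg hV'.gd
  refine ⟨V', hV', cyq ℓ G A a p k V P (Subgroup.normalizer (Q : Set G)) g π V' hcy hPV hPN hV'P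
    ⟨π ⟨u', hu'N⟩, hvV, ?_, hordv⟩⟩
  intro w hw
  rw [hvx]
  exact Subgroup.mem_centralizer_iff.1 (pow_mem hxC m) w hw

end Pool.Agent.PP.T5.H31
end
end -- Pool.Agent.Helper31_AT5.TY5

section -- Pool.Agent.Helper92_AT5.UO5

/-!
# Squad AT5, row UO5: the idempotents over different conjugates of `U` are orthogonal
-/

set_option autoImplicit false

open scoped BigOperators

noncomputable section

namespace Pool.Agent.PP.T5.H92

open Pool.Agent.Helper51_AWC Pool.Agent.Helper79_WRA Pool.Agent.PP Pool.Agent.PP.KF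
open Pool.Agent.PP.K9 Pool.Agent.PP.K9.H97 Pool.Agent.PP.H75 Pool.Agent.PP.T3 Pool.Agent.PP.T2

attribute [local instance] Ideal.Quotient.field

section

variable {F G : Type} [Field F] [Group G] [Finite G]

omit [Finite G] in
theorem cj_of_cl {X : Subgroup G} {c : G → F} (hs : ∀ x, x ∉ X → c x = 0)
    (hc : IsCl (fun t : X => c t)) {n : G} (hn : n ∈ X) : cj n c = c := by
  funext x
  change c (n⁻¹ * x * n) = c x
  by_cases hx : x ∈ X
  · have h1 := hc ⟨x, hx⟩ ⟨n⁻¹, X.inv_mem hn⟩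
    change c (n⁻¹ * x * n⁻¹⁻¹) = c x at h1
    rwa [inv_inv] at h1
  · rw [hs x hx, hs]
    intro h'
    apply hx
    have := X.mul_mem (X.mul_mem hn h') (X.inv_mem hn)
    have e : n * (n⁻¹ * x * n) * n⁻¹ = x := by group
    rwa [e] at this

omit [Finite G] in
theorem cj_clsum {X : Subgroup G} (x : G) {n : G} (hn : n ∈ X) :
    cj n (clsum F X x) = clsum F X x := by
  funext t
  change clsum F X x (n⁻¹ * t * n) = clsum F X x t
  have h : (∃ q ∈ X, n⁻¹ * t * n = q * x * q⁻¹) ↔ ∃ q ∈ X, t = q * x * q⁻¹ := by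
    constructor
    · rintro ⟨q, hq, h1⟩
      refine ⟨n * q, X.mul_mem hn hq, ?_⟩
      calc t = n * (n⁻¹ * t * n) * n⁻¹ := by group
        _ = n * q * x * (n * q)⁻¹ := by rw [h1]; group
    · rintro ⟨q, hq, h1⟩
      refine ⟨n⁻¹ * q, X.mul_mem (X.inv_mem hn) hq, ?_⟩
      rw [h1]
      group
  by_cases h2 : ∃ q ∈ X, t = q * x * q⁻¹
  · rw [clsum, clsum, if_pos h2, if_pos (h.2 h2)]
  · rw [clsum, clsum, if_neg h2, if_neg (fun h3 => h2 (h.1 h3))]

omit [Finite G] in
theorem clsum_supp {X : Subgroup G} {x : G} (hx : x ∈ X) : ∀ t, t ∉ X → clsum F X x t = 0 := by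
  intro t ht
  rw [clsum, if_neg]
  rintro ⟨q, hq, h1⟩
  apply ht
  rw [h1]
  exact X.mul_mem (X.mul_mem hq hx) (X.inv_mem hq)

/-- an invertible class function of `N(U)`, conjugated and restricted to `C(Q)` -/
theorem inv_conj {ℓ : ℕ} (hF : GoodF ℓ F) {U : Subgroup G} {z f : G → F}
    (hzs : ∀ x, x ∉ Subgroup.normalizer (U : Set G) → z x = 0)
    (hz : ∀ n ∈ Subgroup.normalizer (U : Set G), cj n z = z)
    (hf : Ix (Subgroup.normalizer (U : Set G)) f)
    (hI : T5.Inv (fun t : Subgroup.normalizer (U : Set G) => z t)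
      (fun t : Subgroup.normalizer (U : Set G) => f t)) {Q : Subgroup G} (hQ : IsPGroup ℓ Q)
    {g : G} (hb : Bt U Q g) {b : G → F} (hfb : mulF (br Q (cj g f)) b = b) :
    IsCl (fun t : Subgroup.centralizer (Q : Set G) => br Q (cj g z) t) ∧
    T5.Inv (fun t : Subgroup.centralizer (Q : Set G) => br Q (cj g z) t)
      (fun t : Subgroup.centralizer (Q : Set G) => b t) := by
  obtain ⟨c₀, hc₀, hcz⟩ := hI
  have hCN : Subgroup.centralizer (Q : Set G) ≤ Subgroup.normalizer (conjS g U : Set G) :=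
    (Subgroup.centralizer_le (show ((conjS g U : Subgroup G) : Set G) ⊆ Q from hb.1)).trans
      (T3.H85.cent_le_norm _)
  have hQN : Q ≤ Subgroup.normalizer (conjS g U : Set G) :=
    hb.2.trans (T3.H85.cent_le_norm _)
  -- the inverse, as a function on `G`
  obtain ⟨c, hcdef⟩ : ∃ c : G → F,
    c = H75.ext0 (Subgroup.normalizer (U : Set G)) c₀ := ⟨_, rfl⟩
  have hcs : ∀ x, x ∉ Subgroup.normalizer (U : Set G) → c x = 0 := by
    rw [hcdef]
    exact H75.ext0_supp _ c₀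
  have hcC : (fun t : Subgroup.normalizer (U : Set G) => c t) = c₀ := by
    rw [hcdef]
    exact funext (H75.ext0_apply _ c₀)
  have hc : ∀ n ∈ Subgroup.normalizer (U : Set G), cj n c = c := fun n hn =>
    cj_of_cl hcs (by rw [hcC]; exact hc₀) hn
  have hczs := H75.mulF_supp (Subgroup.normalizer (U : Set G)) hcs hzs
  have h1 : mulF (mulF c z) f = f := by
    apply H75.eq_of_res (H75.mulF_supp _ hczs hf.supp) hf.supp
    rw [H75.mulF_res _ _ hczs, H75.mulF_res _ _ hcs, hcC]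
    exact hcz
  -- invariance of the conjugates
  have hinv : ∀ w : G → F, (∀ n ∈ Subgroup.normalizer (U : Set G), cj n w = w) →
      ∀ n ∈ Subgroup.normalizer (conjS g U : Set G), ∀ t, cj g w (n * t * n⁻¹) = cj g w t := by
    intro w hw n hn
    rw [← cj_eq_iff, cj_cj]
    have h2 := hw _ ((T3.H62.mem_norm_conjS n).1 hn)
    conv_rhs => rw [← h2]
    rw [cj_cj]
    congr 1
    group
  have hcl : ∀ w : G → F, (∀ n ∈ Subgroup.normalizer (U : Set G), cj n w = w) →
      IsCl (fun t : Subgroup.centralizer (Q : Set G) => br Q (cj g w) t) := by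
    intro w hw x y
    change br Q (cj g w) (y * x * (y : G)⁻¹) = br Q (cj g w) x
    rw [H66.br_of_mem x.2, H66.br_of_mem
      (mul_mem (mul_mem y.2 x.2) (inv_mem y.2))]
    exact hinv w hw _ (hCN y.2) _
  have hf' : ∀ n ∈ Subgroup.normalizer (U : Set G), cj n f = f := fun n hn => hf.inv hn
  have hzc : ∀ n ∈ Subgroup.normalizer (U : Set G), cj n (mulF c z) = mulF c z := by
    intro n hn
    rw [cj_mulF, hc n hn, hz n hn]
  -- apply the Brauer map
  have h3 : mulF (mulF (br Q (cj g c)) (br Q (cj g z))) (br Q (cj g f)) = br Q (cj g f) := by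
    have h4 := congrArg (fun w => br Q (cj g w)) h1
    change br Q (cj g (mulF (mulF c z) f)) = br Q (cj g f) at h4
    rw [cj_mulF, H66.br_mulF hF hQ (fun p hp t => hinv _ hzc p (hQN hp) t)
      (fun p hp t => hinv _ hf' p (hQN hp) t), cj_mulF,
      H66.br_mulF hF hQ (fun p hp t => hinv _ hc p (hQN hp) t)
      (fun p hp t => hinv _ hz p (hQN hp) t)] at h4
    exact h4
  have h5 : mulF (mulF (br Q (cj g c)) (br Q (cj g z))) b = b := by
    have h6 := congrArg (fun w => mulF w b) h3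
    change mulF (mulF _ (br Q (cj g f))) b = mulF (br Q (cj g f)) b at h6
    rw [H20.mulF_assoc, hfb] at h6
    exact h6
  have hs1 : ∀ x, x ∉ Subgroup.centralizer (Q : Set G) → br Q (cj g c) x = 0 :=
    fun x hx => H66.br_of_not_mem hx
  have hs2 : ∀ x, x ∉ Subgroup.centralizer (Q : Set G) → br Q (cj g z) x = 0 :=
    fun x hx => H66.br_of_not_mem hx
  refine ⟨hcl z hz, fun t : Subgroup.centralizer (Q : Set G) => br Q (cj g c) t, hcl c hc, ?_⟩
  rw [← H75.mulF_res _ _ hs1, ← H75.mulF_res _ _ (H75.mulF_supp _ hs1 hs2), h5]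

end

/-- the element of the class of `u y` in the centre of a defect group of a block of `C(Q)` -/
theorem key (zpt : ZptStmt) (ksp : KspStmt) {ℓ : ℕ} [Fact ℓ.Prime]
    {M : Ideal (integralClosure ℤ ℂ)} [M.IsMaximal] (hM : (ℓ : integralClosure ℤ ℂ) ∈ M)
    {G : Type} [Group G] [Finite G] {a : ℕ} (ha : 0 < a) {u y : G} (hou : orderOf u = ℓ ^ a)
    (huy : u * y = y * u) (hy : Reg ℓ y) {f : G → FF M}
    (hf : Ix (Subgroup.normalizer (Om ℓ a u : Set G)) f)
    (huX : u * y ∈ Subgroup.normalizer (Om ℓ a u : Set G))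
    (hI : T5.Inv (fun t : Subgroup.normalizer (Om ℓ a u : Set G) =>
      clsum (FF M) (Subgroup.normalizer (Om ℓ a u : Set G)) (u * y) t)
      (fun t : Subgroup.normalizer (Om ℓ a u : Set G) => f t)) {Q : Subgroup G}
    (hQ : IsPGroup ℓ Q) {g : G} (hb : Bt (Om ℓ a u) Q g) {b : G → FF M}
    (hbx : Bx (Subgroup.centralizer (Q : Set G)) b) (hfb : mulF (br Q (cj g f)) b = b)
    {P : Subgroup (Subgroup.centralizer (Q : Set G))}
    (hP : Tp ℓ (fun t : Subgroup.centralizer (Q : Set G) => b t) P) :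
    ∃ u₁ ∈ P.map (Subgroup.centralizer (Q : Set G)).subtype,
      (∀ w ∈ P.map (Subgroup.centralizer (Q : Set G)).subtype, w * u₁ = u₁ * w) ∧
      orderOf u₁ = ℓ ^ a ∧ Om ℓ a u₁ = conjS g (Om ℓ a u) := by
  have hF : GoodF ℓ (FF M) := H50.fld ℓ Fact.out M hM
  obtain ⟨hcl, hinv⟩ := inv_conj hF (clsum_supp huX) (fun n hn => cj_clsum _ hn) hf hI hQ hb hfb
  obtain ⟨c, hcP, hc0, hcL⟩ := zpt ℓ M hM _ _ hbx.blk P hP _ hcl hinv
  change br Q (cj g _) (c : G) ≠ 0 at hc0
  rw [H66.br_of_mem c.2] at hc0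
  obtain ⟨u', hL, ho, hOm, ⟨n, hn⟩, -⟩ := (ksp ℓ (FF M) G a u y ha hou huy hy).2 g c hc0
  have hmem : c ^ n ∈ P := by
    apply hcL
    refine ⟨?_, Commute.pow_left (Commute.refl c) n, ?_⟩
    · obtain ⟨m, hm⟩ := hL.el
      refine ⟨m, Subtype.ext ?_⟩
      rw [hn] at hm
      exact hm
    · have h1 := hL.reg
      unfold Reg at h1 ⊢
      rw [hn] at h1
      have h2 : ((((c ^ n)⁻¹ * c : Subgroup.centralizer (Q : Set G)) : G)) =
        (((c : G) ^ n)⁻¹ * c : G) := rfl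
      rwa [← h2, Subgroup.orderOf_coe] at h1
  have hcoe : ((c ^ n : Subgroup.centralizer (Q : Set G)) : G) = u' := by
    rw [hn]
    rfl
  refine ⟨u', ⟨c ^ n, hmem, hcoe⟩, ?_, ho, hOm⟩
  rintro _ ⟨w, hw, rfl⟩
  have h3 : w * c = c * w := Subgroup.mem_centralizer_iff.1 hcP w hw
  have h4 : w * c ^ n = c ^ n * w := ((show Commute w c from h3).pow_right n).eq
  have h5 := congrArg Subtype.val h4
  rw [hn]
  exact h5

/-- UO5 -/
theorem uo5 (chr : ChrStmt) (zpt : ZptStmt) (ksp : KspStmt) : Uo5Stmt := by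
  intro ℓ _ M _ hM G _ _ a e V u y hU f hf
  have hF : GoodF ℓ (FF M) := H50.fld ℓ Fact.out M hM
  refine ⟨hf.blk.ix, hf.supp, hf.und, ?_⟩
  intro Q hQ g h hbg hbh hne
  obtain ⟨hI1, hE1⟩ := T2.H72.conj_data hF hU.blk.1.1 hf.blk hf.und hQ hbg
  obtain ⟨hI2, -⟩ := T2.H72.conj_data hF hU.blk.1.1 hf.blk hf.und hQ hbh
  by_contra hcon
  have hs : ∀ x, x ∉ Subgroup.centralizer (Q : Set G) →
      mulF (br Q (cj g f)) (br Q (cj h f)) x = 0 := H75.mulF_supp _ hI1.supp hI2.supp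
  have hcomm := hI1.comm hI2
  -- `E₁ E₂` is an idempotent
  have hmm : mulF (mulF (br Q (cj g f)) (br Q (cj h f)))
      (mulF (br Q (cj g f)) (br Q (cj h f))) = mulF (br Q (cj g f)) (br Q (cj h f)) := by
    rw [H20.mulF_assoc, ← H20.mulF_assoc (br Q (cj h f)) (br Q (cj g f)), ← hcomm,
      H20.mulF_assoc (br Q (cj g f)) (br Q (cj h f)), hI2.mul, ← H20.mulF_assoc, hI1.mul]
  have hI : Ix (Subgroup.centralizer (Q : Set G)) (mulF (br Q (cj g f)) (br Q (cj h f))) := by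
    refine ⟨hs, ?_, ?_⟩
    · intro x y
      have h1 : cj (y : G)⁻¹ (mulF (br Q (cj g f)) (br Q (cj h f))) =
          mulF (br Q (cj g f)) (br Q (cj h f)) := by
        rw [cj_mulF, hI1.inv (inv_mem y.2), hI2.inv (inv_mem y.2)]
      have h2 := congrFun h1 x
      rw [cj, inv_inv] at h2
      exact h2
    · rw [← H75.mulF_res _ _ hs, hmm]
  obtain ⟨b₀, hb₀, hgb, -⟩ := K9.H24.exists_blk
    (L := fun a : Subgroup.centralizer (Q : Set G) → FF M => a) rfl
    (fun a b => rfl) hI.idem (by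
      intro h0
      apply hcon
      exact H75.eq_of_res hI.supp (fun _ _ => rfl) h0)
  obtain ⟨b, hb⟩ : ∃ b : G → FF M, b = H75.ext0 (Subgroup.centralizer (Q : Set G)) b₀ := ⟨_, rfl⟩
  have hbs : ∀ x, x ∉ Subgroup.centralizer (Q : Set G) → b x = 0 := by
    rw [hb]
    exact H75.ext0_supp _ b₀
  have hbC : (fun t : Subgroup.centralizer (Q : Set G) => b t) = b₀ := by
    rw [hb]
    exact funext (H75.ext0_apply _ b₀)
  have hBb : Bx (Subgroup.centralizer (Q : Set G)) b := ⟨hbs, by rw [hbC]; exact hb₀⟩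
  have hEb : mulF (mulF (br Q (cj g f)) (br Q (cj h f))) b = b := by
    apply H75.eq_of_res (H75.mulF_supp _ hI.supp hbs) hbs
    rw [H75.mulF_res _ b hI.supp, hbC, hgb]
  have h1b : mulF (br Q (cj g f)) b = b := by
    conv_lhs => rw [← hEb]
    rw [← H20.mulF_assoc, ← H20.mulF_assoc, hI1.mul, hEb]
  have h2b : mulF (br Q (cj h f)) b = b := by
    conv_lhs => rw [← hEb]
    rw [hcomm, ← H20.mulF_assoc, ← H20.mulF_assoc, hI2.mul, ← hcomm, hEb]
  have heb : mulF (br Q e) b = b := by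
    rw [← h1b, ← H20.mulF_assoc, hE1]
  -- a defect group of `b`
  obtain ⟨P, hP⟩ := K9.H57.exists_tp (ℓ := ℓ) hBb.blk.2.1
  have huy : u * y = y * u := by
    have := Subgroup.mem_centralizer_iff.1 hU.yc u hU.mem
    exact this
  have huX : u * y ∈ Subgroup.normalizer (Om ℓ a u : Set G) := by
    apply T3.H85.cent_le_norm
    rw [Subgroup.mem_centralizer_iff]
    intro w hw
    obtain ⟨k, rfl⟩ := Subgroup.mem_zpowers_iff.1 hw
    have h1 : Commute u (u * y) := by
      change u * (u * y) = u * y * u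
      rw [mul_assoc, huy]
    exact ((h1.pow_left _).zpow_left k).eq
  obtain ⟨u₁, hu₁, hc₁, ho₁, hO₁⟩ := key zpt ksp hM hU.pos hU.ord huy hU.reg hf.blk.ix huX hf.inv
    hQ hbg hBb h1b hP
  obtain ⟨u₂, hu₂, hc₂, ho₂, hO₂⟩ := key zpt ksp hM hU.pos hU.ord huy hU.reg hf.blk.ix huX hf.inv
    hQ hbh hBb h2b hP
  -- the order of the defect group
  have hcard : Nat.card (P.map (Subgroup.centralizer (Q : Set G)).subtype) < ℓ ^ (2 * a) := by
    refine lt_of_le_of_lt (hU.tp.mx _ (hP.pg.map _) ?_) hU.small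
    have hbrcl : IsCl (fun t : Subgroup.centralizer (Q : Set G) => br Q e t) := by
      intro x y
      change br Q e (y * x * (y : G)⁻¹) = br Q e x
      rw [H66.br_of_mem x.2, H66.br_of_mem (mul_mem (mul_mem y.2 x.2) (inv_mem y.2))]
      exact hU.blk.1.1 _ _
    have hbrs : ∀ x, x ∉ Subgroup.centralizer (Q : Set G) → br Q e x = 0 :=
      fun x hx => H66.br_of_not_mem hx
    have h1 := gd_of_mul hF hbrcl hBb.blk.1.1
      (by rw [← H75.mulF_res _ _ hbrs, heb]) hP.pg hP.gd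
    obtain ⟨t, ht, ht0⟩ := gd_map h1
    refine ⟨t, ht, fun h0 => ht0 ?_⟩
    by_cases htc : t ∈ Subgroup.centralizer (Q : Set G)
    · rw [H66.br_of_mem htc, h0]
    · exact hbrs t htc
  apply hne
  rw [← hO₁, ← hO₂]
  exact (chr ℓ G a _ u₁ hU.pos hu₁ hc₁ ho₁ hcard).1 u₂ hu₂ hc₂ ho₂

end Pool.Agent.PP.T5.H92
end
end -- Pool.Agent.Helper92_AT5.UO5

section -- Pool.Agent.Helper56_AT5.FS5

/-!
# Squad AT5, row FS5: the block of the normaliser of `U`
-/

open scoped BigOperators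

noncomputable section

namespace Pool.Agent.PP.T5.H56

open Pool.Agent.Helper51_AWC Pool.Agent.Helper79_WRA Pool.Agent.PP Pool.Agent.PP.KF
open Pool.Agent.PP.K9 Pool.Agent.PP.K9.H97 Pool.Agent.PP.H75 Pool.Agent.PP.T3 Pool.Agent.PP.T2

attribute [local instance] Ideal.Quotient.field

section grp

variable {G : Type} [Group G]

theorem om_le (ℓ a : ℕ) (u : G) : Om ℓ a u ≤ Subgroup.zpowers u := by
  unfold Om
  rw [Subgroup.zpowers_le]
  exact Subgroup.npow_mem_zpowers u _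

theorem om_conj (ℓ a : ℕ) (g u : G) : conjS g (Om ℓ a u) = Om ℓ a (g * u * g⁻¹) := by
  unfold conjS Om
  rw [MonoidHom.map_zpowers]
  congr 1
  change g * u ^ ℓ ^ (a - 1) * g⁻¹ = _
  rw [conj_pow]

theorem mem_norm_of_conjS {g : G} {V : Subgroup G} (h : conjS g V = V) :
    g ∈ Subgroup.normalizer (V : Set G) := by
  rw [Subgroup.mem_normalizer_iff]
  intro x
  constructor
  · intro hx
    have h1 : g * x * g⁻¹ ∈ conjS g V := (T3.H62.conjS_mem_iff x).2 hx
    rwa [h] at h1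
  · intro hx
    have h1 : g * x * g⁻¹ ∈ conjS g V := by
      rw [h]
      exact hx
    exact (T3.H62.conjS_mem_iff x).1 h1

end grp

section tools

variable {F G : Type} [Field F] [Group G] [Finite G] {ℓ : ℕ}

/-- the image of an idempotent of `X` under `br_V` as an idempotent of `N(V)` -/
theorem ix_brN (hF : GoodF ℓ F) {V X : Subgroup G} (hV : IsPGroup ℓ V) (hVX : V ≤ X)
    (hNX : Subgroup.normalizer (V : Set G) ≤ X) {b : G → F} (hb : Ix X b) :
    Ix (Subgroup.normalizer (V : Set G)) (br V b) := by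
  have hsupp : ∀ x, x ∉ Subgroup.normalizer (V : Set G) → br V b x = 0 := fun x hx =>
    H66.br_of_not_mem (fun h => hx (T3.H85.cent_le_norm V h))
  refine ⟨hsupp, ?_, ?_⟩
  · intro x y
    change br V b ((y : G) * x * (y : G)⁻¹) = br V b x
    have h1 : cj (y : G) b = b := hb.inv (hNX y.2)
    have h2 : conjS (y : G) V = V := by
      ext x
      rw [T3.H62.mem_conjS]
      have h3 := Subgroup.mem_normalizer_iff.1 (Subgroup.inv_mem _ y.2) x
      rw [inv_inv] at h3
      exact h3.symm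
    have h3 : cj (y : G) (br V b) = br V b := by
      have h4 := T2.H65.cj_br (y : G) V b
      rw [h1, h2] at h4
      exact h4.symm
    exact (cj_eq_iff _ _).1 h3 x
  · rw [← H75.mulF_res _ _ hsupp, ← T2.H32.br_mul hF hV hVX hb hb, hb.mul]

/-- an invertible element of a commutative algebra is not nilpotent -/
theorem inv_nil {z c e : G → F} (hcz : mulF c z = mulF z c) (h1 : mulF (mulF c z) e = e) {n : ℕ}
    (h2 : (mulF z)^[n] e = 0) : e = 0 := by
  have hST : Function.Commute (mulF c) (mulF z) := by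
    intro x
    rw [← H20.mulF_assoc, hcz, H20.mulF_assoc]
  have h3 : (mulF c ∘ mulF z) e = e := by
    change mulF c (mulF z e) = e
    rw [← H20.mulF_assoc, h1]
  have h4 := Function.iterate_fixed h3 n
  rw [hST.comp_iterate n] at h4
  change (mulF c)^[n] ((mulF z)^[n] e) = e at h4
  rw [h2, Function.iterate_fixed (H75.mulF_zero_right c) n] at h4
  exact h4.symm

theorem br_iter (hF : GoodF ℓ F) {V : Subgroup G} (hV : IsPGroup ℓ V) {z f : G → F}
    (hz : H66.Inv V z) (hf : H66.Inv V f) (n : ℕ) :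
    br V ((mulF z)^[n] f) = (mulF (br V z))^[n] (br V f) := by
  induction n with
  | zero => rfl
  | succ n ih =>
    rw [Function.iterate_succ_apply', Function.iterate_succ_apply',
      H66.br_mulF hF hV hz (H66.Inv.iter hz hf n), ih]

theorem iter_res {X : Subgroup G} {z f : G → F} (hz : ∀ x, x ∉ X → z x = 0)
    (hf : ∀ x, x ∉ X → f x = 0) (n : ℕ) :
    (∀ x, x ∉ X → (mulF z)^[n] f x = 0) ∧
    (fun t : X => (mulF z)^[n] f t) = (mulF (fun t : X => z t))^[n] (fun t : X => f t) := by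
  induction n with
  | zero => exact ⟨hf, rfl⟩
  | succ n ih =>
    rw [Function.iterate_succ_apply', Function.iterate_succ_apply', ← ih.2]
    exact ⟨H75.mulF_supp _ hz ih.1, H75.mulF_res _ _ hz⟩

/-- the trichotomy for a class function of `X` in a block of `X` -/
theorem dich_X {X : Subgroup G} {z f : G → F} (hz : ∀ x, x ∉ X → z x = 0)
    (hcl : IsCl (fun t : X => z t)) (hf : Bx X f) :
    (∃ n : ℕ, (mulF z)^[n] f = 0) ∨ T5.Inv (fun t : X => z t) (fun t : X => f t) := by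
  rcases H50.blk_dich hf.blk hcl with ⟨n, hn⟩ | h
  · left
    refine ⟨n, H75.eq_of_res (iter_res hz hf.supp n).1 (fun _ _ => rfl) ?_⟩
    rw [(iter_res hz hf.supp n).2, hn]
    rfl
  · exact Or.inr h

end tools

/-- two class sums which agree on the centraliser of `V` -/
theorem br_clsum_X {F G : Type} [Field F] [Group G] [Finite G] {ℓ : ℕ} [Fact ℓ.Prime]
    {V X : Subgroup G} (pV : IsPGroup ℓ V) (hNX : Subgroup.normalizer (V : Set G) ≤ X) {x : G}
    (hx : x ∈ Subgroup.centralizer (V : Set G)) (h8 : ¬ ℓ ∣ V.relIndex (Cu x)) :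
    br V (clsum F X x) = br V (clsum F (⊤ : Subgroup G) x) := by
  funext t
  by_cases ht : t ∈ Subgroup.centralizer (V : Set G)
  · rw [H66.br_of_mem ht, H66.br_of_mem ht]
    by_cases h1 : ∃ q ∈ (⊤ : Subgroup G), t = q * x * q⁻¹
    · rw [clsum, clsum, if_pos h1, if_pos]
      have hcN := T3.H85.cent_le_norm V
      have h2 := H69.br_clsum (F := F) pV (y := ⟨x, hcN hx⟩) hx h8
      have h3 := congrFun h2 ⟨t, hcN ht⟩
      change br V (clsum F (⊤ : Subgroup G) x) t = clsum F (⊤ : Subgroup _) _ _ at h3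
      rw [H66.br_of_mem ht, clsum, clsum, if_pos h1] at h3
      by_cases h4 : ∃ q ∈ (⊤ : Subgroup (Subgroup.normalizer (V : Set G))),
          (⟨t, hcN ht⟩ : Subgroup.normalizer (V : Set G)) = q * ⟨x, hcN hx⟩ * q⁻¹
      · obtain ⟨q, -, hq⟩ := h4
        refine ⟨q, hNX q.2, ?_⟩
        have h5 := congrArg Subtype.val hq
        exact h5
      · rw [if_neg h4] at h3
        exact absurd h3 one_ne_zero
    · rw [clsum, clsum, if_neg h1, if_neg]
      rintro ⟨q, -, hq⟩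
      exact h1 ⟨q, Subgroup.mem_top q, hq⟩
  · rw [H66.br_of_not_mem ht, H66.br_of_not_mem ht]

/-- FS5 -/
theorem fs5 (chr : ChrStmt) (zpt : ZptStmt) (ksp : KspStmt) (fmg : FmgStmt) (dun : DunStmt) :
    Fs5Stmt := by
  intro ℓ _ M _ hM G _ _ a e V u y hL
  have hF : GoodF ℓ (FF M) := H50.fld ℓ Fact.out M hM
  obtain ⟨-, hNV⟩ := chr ℓ G a V u hL.pos hL.mem hL.cen hL.ord hL.small
  obtain ⟨U, hU⟩ : ∃ U : Subgroup G, U = Om ℓ a u := ⟨_, rfl⟩
  have hUu : U ≤ Subgroup.zpowers u := by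
    rw [hU]
    exact om_le ℓ a u
  have hUV : U ≤ V := hUu.trans (by rw [Subgroup.zpowers_le]; exact hL.mem)
  have hUp : IsPGroup ℓ U := hL.tp.pg.to_le hUV
  have huy : u * y = y * u := Subgroup.mem_centralizer_iff.1 hL.yc u hL.mem
  -- the normaliser of `U`
  obtain ⟨X, hX⟩ : ∃ X : Subgroup G, X = Subgroup.normalizer (U : Set G) := ⟨_, rfl⟩
  rw [← hU, ← hX] at hNV
  have hCUX : Subgroup.centralizer (U : Set G) ≤ X := by
    rw [hX]
    exact T3.H85.cent_le_norm U
  have hVX : V ≤ X := Subgroup.le_normalizer.trans hNV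
  have hCX : Subgroup.centralizer (V : Set G) ≤ X := (T3.H85.cent_le_norm V).trans hNV
  have hUX : U ≤ X := hUV.trans hVX
  have hCVU : Subgroup.centralizer (V : Set G) ≤ Subgroup.centralizer (U : Set G) :=
    Subgroup.centralizer_le hUV
  have huyC : u * y ∈ Subgroup.centralizer (V : Set G) := by
    rw [Subgroup.mem_centralizer_iff]
    intro v hv
    have h1 := hL.cen v hv
    have h2 := Subgroup.mem_centralizer_iff.1 hL.yc v hv
    calc v * (u * y) = v * u * y := by group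
      _ = u * (v * y) := by rw [h1]; group
      _ = u * y * v := by rw [h2]; group
  have huyX : u * y ∈ X := hCX huyC
  -- the idempotent `br_U(e)` of `X`
  have hEid : IsIdem (fun t : X => br U e t) :=
    (H20.brm ℓ (FF M) hF G U X hUp hCUX (le_of_eq hX)).2.2 e hL.blk.1
  have hEX : Ix X (br U e) :=
    ⟨fun x hx => H66.br_of_not_mem (fun h => hx (hCUX h)), hEid⟩
  have hbrE : ∀ W : Subgroup G, U ≤ W → br W (br U e) = br W e := by
    intro W hUW
    funext g
    by_cases hg : g ∈ Subgroup.centralizer (W : Set G)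
    · rw [H66.br_of_mem hg, H66.br_of_mem hg, H66.br_of_mem (Subgroup.centralizer_le hUW hg)]
    · rw [H66.br_of_not_mem hg, H66.br_of_not_mem hg]
  obtain ⟨fmg1, ⟨hbe, -⟩, -⟩ := fmg ℓ M hM G e hL.blk V hL.tp
  have hBe : Bx (Subgroup.normalizer (V : Set G)) (br V e) :=
    ⟨fun x hx => H66.br_of_not_mem (fun h => hx (T3.H85.cent_le_norm V h)), hbe⟩
  have hbe0 : br V e ≠ 0 := by
    intro h0
    apply hbe.2.1
    rw [h0]
    rfl
  -- blocks of `X` under `br_U(e)` for which `V` is good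
  have key1 : ∀ f' : G → FF M, Bx X f' → mulF (br U e) f' = f' → br V f' ≠ 0 →
      br V f' = br V e := by
    intro f' hf' hund h0
    have h1 := ix_brN hF hL.tp.pg hVX hNV hf'.ix
    have h2 : mulF (br V e) (br V f') = br V f' := by
      have h3 := congrArg (br V) hund
      rw [T2.H32.br_mul hF hL.tp.pg hVX hEX hf'.ix, hbrE V hUV] at h3
      exact h3
    rcases hBe.dich' h1 with h | h
    · rw [← h2, h]
    · exact absurd (by rw [← h2, h]) h0
  have key2 : ∀ f' f'' : G → FF M, Bx X f' → Bx X f'' → br V f' = br V e → br V f'' = br V e →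
      f' = f'' := by
    intro f' f'' hf' hf'' h1 h2
    rcases hf'.dich hf'' with h | h
    · exact h
    · exfalso
      have h3 := congrArg (br V) h
      rw [T2.H32.br_mul hF hL.tp.pg hVX hf'.ix hf''.ix, h1, h2, T2.H32.br_zero, hBe.ix.mul] at h3
      exact hbe0 h3
  -- the block `f`
  have hext_add : ∀ a b : X → FF M, PP.ext0 X (a + b) = PP.ext0 X a + PP.ext0 X b := by
    intro a b
    funext x
    by_cases hx : x ∈ X
    · rw [H46.ext0_of_mem _ hx, Pi.add_apply, Pi.add_apply, H46.ext0_of_mem _ hx,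
        H46.ext0_of_mem _ hx]
    · rw [H46.ext0_of_not_mem _ hx, Pi.add_apply, H46.ext0_of_not_mem _ hx,
        H46.ext0_of_not_mem _ hx, add_zero]
  have hext_zero : PP.ext0 X (0 : X → FF M) = 0 := by
    funext x
    by_cases hx : x ∈ X
    · rw [H46.ext0_of_mem _ hx]
      rfl
    · rw [H46.ext0_of_not_mem _ hx]
      rfl
  have hextE : PP.ext0 X (fun t : X => br U e t) = br U e := by
    funext x
    by_cases hx : x ∈ X
    · rw [H46.ext0_of_mem _ hx]
    · rw [H46.ext0_of_not_mem _ hx, hEX.supp x hx]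
  obtain ⟨b₀, hb₀, heb₀, hL₀⟩ := K9.H24.exists_blk
    (fun a : X → FF M => br V (PP.ext0 X a))
    (by
      show br V (PP.ext0 X 0) = 0
      rw [hext_zero, T2.H32.br_zero])
    (by
      intro a b
      show br V (PP.ext0 X (a + b)) = br V (PP.ext0 X a) + br V (PP.ext0 X b)
      rw [hext_add, T2.H32.br_add])
    hEid
    (by
      show br V (PP.ext0 X (fun t : X => br U e t)) ≠ 0
      rw [hextE, hbrE V hUV]
      exact hbe0)
  have hrestr : (fun t : X => PP.ext0 X b₀ t) = b₀ := H46.restr_ext0 _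
  obtain ⟨f, hf⟩ : ∃ f : G → FF M, f = PP.ext0 X b₀ := ⟨_, rfl⟩
  rw [← hf] at hrestr
  have hfX : Bx X f := by
    refine ⟨fun x hx => ?_, ?_⟩
    · rw [hf]
      exact H46.ext0_of_not_mem _ hx
    · rw [hrestr]
      exact hb₀
  have hund : mulF (br U e) f = f := by
    apply H75.eq_of_res (H75.mulF_supp X hEX.supp hfX.supp) hfX.supp
    rw [H75.mulF_res X f hEX.supp, hrestr]
    exact heb₀
  have hbf : br V f = br V e := key1 f hfX hund (by rw [hf]; exact hL₀)
  have hsupp : ∀ x, x ∉ Subgroup.centralizer (U : Set G) → f x = 0 := by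
    intro x hx
    rw [← T2.H32.supp_cent hF hUp hUX hCUX (le_of_eq hX) hfX.ix]
    exact H66.br_of_not_mem hx
  -- the class sum
  obtain ⟨z, hz⟩ : ∃ z : G → FF M, z = clsum (FF M) X (u * y) := ⟨_, rfl⟩
  have hzs : ∀ x, x ∉ X → z x = 0 := by
    rw [hz]
    exact H92.clsum_supp huyX
  have hzi : ∀ n ∈ X, cj n z = z := by
    rw [hz]
    exact fun n hn => H92.cj_clsum _ hn
  have hzcl : IsCl (fun t : X => z t) := by
    intro s t
    exact (cj_eq_iff _ _).1 (hzi t t.2) s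
  have hbz : br V z = br V (clsum (FF M) (⊤ : Subgroup G) (u * y)) := by
    rw [hz]
    exact br_clsum_X hL.tp.pg hNV huyC hL.syl
  have hinv : T5.Inv (fun t : X => z t) (fun t : X => f t) := by
    rcases dich_X hzs hzcl hfX with ⟨n, hn⟩ | h
    · exfalso
      obtain ⟨c, hc, hcK⟩ := hL.inv
      have hKcl : IsCl (clsum (FF M) (⊤ : Subgroup G) (u * y)) := H50.isCl_clsum _
      have h1 : (mulF (br V z))^[n] (br V e) = 0 := by
        rw [← hbf, ← br_iter hF hL.tp.pg (fun p hp => (cj_eq_iff p z).1 (hzi p (hVX hp)))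
          (fun p hp => (cj_eq_iff p f).1 (hfX.ix.inv (hVX hp))), hn, T2.H32.br_zero]
      rw [hbz] at h1
      apply hbe0
      have h3 := H66.br_mulF hF hL.tp.pg (H66.IsCl.inv hc V) (H66.IsCl.inv hKcl V)
      have h4 := H66.br_mulF hF hL.tp.pg (H66.IsCl.inv hKcl V) (H66.IsCl.inv hc V)
      refine inv_nil (c := br V c) ?_ ?_ h1
      · rw [← h3, ← h4, H75.mulF_comm_cl hc]
      · rw [← h3, ← H66.br_mulF hF hL.tp.pg
          (H66.Inv.mulF (H66.IsCl.inv hc V) (H66.IsCl.inv hKcl V))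
          (H66.IsCl.inv hL.blk.1.1 V), hcK]
    · exact h
  -- good subgroups
  have hVcard : Nat.card (V.subgroupOf X) = Nat.card V :=
    Nat.card_congr (Subgroup.subgroupOfEquivOfLe hVX).toEquiv
  have hVp : IsPGroup ℓ (V.subgroupOf X) :=
    hL.tp.pg.of_equiv (Subgroup.subgroupOfEquivOfLe hVX).symm
  have hgood : ∀ f' : G → FF M, Bx X f' → mulF (br U e) f' = f' → ∀ Q : Subgroup X,
      IsPGroup ℓ Q → Gd (fun t : X => f' t) Q → Gd e (Q.map X.subtype) := by
    intro f' hf' hund' Q hQ hQf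
    have hmul : mulF (fun t : X => br U e t) (fun t : X => f' t) = fun t : X => f' t := by
      rw [← H75.mulF_res X f' hEX.supp, hund']
    obtain ⟨g, hg1, hg2⟩ := gd_map (gd_of_mul hF hEid.1 hf'.blk.1.1 hmul hQ hQf)
    refine ⟨g, hg1, ?_⟩
    intro h0
    apply hg2
    by_cases hg : g ∈ Subgroup.centralizer (U : Set G)
    · rw [H66.br_of_mem hg, h0]
    · rw [H66.br_of_not_mem hg]
  have hTf : Tp ℓ (fun t : X => f t) (V.subgroupOf X) := by
    refine ⟨hVp, ?_, ?_⟩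
    · obtain ⟨g, hg⟩ : ∃ g, br V f g ≠ 0 := by
        by_contra hcon
        push Not at hcon
        apply hbe0
        rw [← hbf]
        exact funext hcon
      have hgV : g ∈ Subgroup.centralizer (V : Set G) := by
        by_contra hcon
        exact hg (H66.br_of_not_mem hcon)
      rw [H66.br_of_mem hgV] at hg
      exact ⟨⟨g, hCX hgV⟩, (cent_sub hVX _).2 hgV, hg⟩
    · intro Q hQ hQf
      have hcard : Nat.card (Q.map X.subtype) = Nat.card Q :=
        (Nat.card_congr (Q.equivMapOfInjective X.subtype X.subtype_injective).toEquiv).symm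
      have h2 := hL.tp.mx _ (hQ.map X.subtype) (hgood f hfX hund Q hQ hQf)
      rw [hcard] at h2
      rw [hVcard]
      exact h2
  -- uniqueness
  have hnil : ∀ f' : G → FF M, Bx X f' → mulF (br U e) f' = f' → f' ≠ f →
      ∃ n : ℕ, (mulF z)^[n] f' = 0 := by
    intro f' hf' hund' hne
    rcases dich_X hzs hzcl hf' with h | hI
    · exact h
    exfalso
    apply hne
    obtain ⟨δ, hδ⟩ := K9.H57.exists_tp (ℓ := ℓ) hf'.blk.2.1
    obtain ⟨c, hcδ, hc0, hcL⟩ := zpt ℓ M hM X _ hf'.blk δ hδ _ hzcl hI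
    obtain ⟨u', hLp, ho, hOm, ⟨n, hn⟩, -⟩ := (ksp ℓ (FF M) G a u y hL.pos hL.ord huy hL.reg).2 1
      c (by rw [cj_one, ← hU, ← hX, ← hz]; exact hc0)
    rw [conjS_one, ← hU] at hOm
    have hmem : c ^ n ∈ δ := by
      apply hcL
      refine ⟨?_, Commute.pow_left (Commute.refl c) n, ?_⟩
      · obtain ⟨m, hm⟩ := hLp.el
        refine ⟨m, Subtype.ext ?_⟩
        rw [hn] at hm
        exact hm
      · have h1 := hLp.reg
        unfold Reg at h1 ⊢
        rw [hn] at h1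
        have h2 : ((((c ^ n)⁻¹ * c : X) : G)) = (((c : G) ^ n)⁻¹ * c : G) := rfl
        rwa [← h2, Subgroup.orderOf_coe] at h1
    have hcoe : ((c ^ n : X) : G) = u' := by
      rw [hn]
      rfl
    obtain ⟨D, hD⟩ : ∃ D : Subgroup G, D = δ.map X.subtype := ⟨_, rfl⟩
    have hu'D : u' ∈ D := by
      rw [hD]
      exact ⟨c ^ n, hmem, hcoe⟩
    have hu'c : ∀ w ∈ D, w * u' = u' * w := by
      rw [hD]
      rintro _ ⟨w, hw, rfl⟩
      have h3 : w * c = c * w := Subgroup.mem_centralizer_iff.1 hcδ w hw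
      have h4 : w * c ^ n = c ^ n * w := ((show Commute w c from h3).pow_right n).eq
      have h5 := congrArg Subtype.val h4
      rw [hn]
      exact h5
    have hUD : U ≤ D := by
      rw [← hOm]
      refine (om_le ℓ a u').trans ?_
      rw [Subgroup.zpowers_le]
      exact hu'D
    have hDg : Gd e D := by
      rw [hD]
      exact hgood f' hf' hund' δ hδ.pg hδ.gd
    have hDp : IsPGroup ℓ D := by
      rw [hD]
      exact hδ.pg.map _
    have hDle := hL.tp.mx D hDp hDg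
    have hDs : Nat.card D < ℓ ^ (2 * a) := lt_of_le_of_lt hDle hL.small
    obtain ⟨chr1, hND⟩ := chr ℓ G a D u' hL.pos hu'D hu'c ho hDs
    rw [hOm, ← hX] at hND
    have hDX : D ≤ X := Subgroup.le_normalizer.trans hND
    have hDδ : D.subgroupOf X = δ := by
      rw [hD]
      exact Subgroup.comap_map_eq_self_of_injective X.subtype_injective δ
    have hcardD : Nat.card D = Nat.card δ := by
      rw [hD]
      exact (Nat.card_congr (δ.equivMapOfInjective X.subtype X.subtype_injective).toEquiv).symm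
    obtain ⟨g, hg, hg0⟩ := hδ.gd
    have hgD : (g : G) ∈ Subgroup.centralizer (D : Set G) := by
      rw [← hDδ] at hg
      exact (cent_sub hDX g).1 hg
    have hbD : br D f' g ≠ 0 := by
      rw [H66.br_of_mem hgD]
      exact hg0
    have hcardV : Nat.card D = Nat.card V := by
      rcases Nat.lt_or_ge (Nat.card D) (Nat.card V) with hlt | hge
      · exfalso
        have hIN := ix_brN hF hDp hDX hND hf'.ix
        obtain ⟨φ, hφ, hφe, -⟩ := K9.H24.exists_blk
          (fun a : Subgroup.normalizer (D : Set G) → FF M => a) rfl (fun a b => rfl) hIN.idem (by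
            intro h0
            have h1 := congrFun h0 ⟨g, T3.H85.cent_le_norm D hgD⟩
            exact hbD h1)
        have hDe : ∀ x, x ∉ Subgroup.normalizer (D : Set G) → br D e x = 0 := fun x hx =>
          H66.br_of_not_mem (fun h => hx (T3.H85.cent_le_norm D h))
        have h2 : mulF (br D e) (br D f') = br D f' := by
          have h3 := congrArg (br D) hund'
          rw [T2.H32.br_mul hF hDp hDX hEX hf'.ix, hbrE D hUD] at h3
          exact h3
        have hun : mulF (fun t : Subgroup.normalizer (D : Set G) => br D e t) φ = φ := by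
          conv_lhs => rw [← hφe]
          rw [← H20.mulF_assoc, ← H75.mulF_res _ _ hDe, h2, hφe]
        obtain ⟨P, hP, hPg, hPlt⟩ := dun ℓ M hM G e hL.blk V hL.tp D hDp hlt φ hφ hun
        obtain ⟨t, ht, ht0⟩ := gd_map (gd_of_mul hF hIN.idem.1 hφ.1.1 hφe hP hPg)
        obtain ⟨P', hP'⟩ : ∃ P' : Subgroup G,
          P' = P.map (Subgroup.normalizer (D : Set G)).subtype := ⟨_, rfl⟩
        rw [← hP'] at ht
        have hP'X : P' ≤ X := by
          rw [hP']
          exact (Subgroup.map_subtype_le P).trans hND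
        have htD : t ∈ Subgroup.centralizer (D : Set G) := by
          by_contra hcon
          exact ht0 (H66.br_of_not_mem hcon)
        rw [H66.br_of_mem htD] at ht0
        have htX : t ∈ X := by
          by_contra hcon
          exact ht0 (hf'.supp t hcon)
        have hP'p : IsPGroup ℓ P' := by
          rw [hP']
          exact hP.map _
        have h4 := hδ.mx (P'.subgroupOf X) (hP'p.of_equiv (Subgroup.subgroupOfEquivOfLe hP'X).symm)
          ⟨⟨t, htX⟩, (cent_sub hP'X _).2 ht, ht0⟩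
        rw [Nat.card_congr (Subgroup.subgroupOfEquivOfLe hP'X).toEquiv, hP',
          ← Nat.card_congr (P.equivMapOfInjective _
            (Subgroup.normalizer (D : Set G)).subtype_injective).toEquiv, ← hcardD] at h4
        have h5 : Nat.card (D.subgroupOf (Subgroup.normalizer (D : Set G))) = Nat.card D :=
          Nat.card_congr (Subgroup.subgroupOfEquivOfLe Subgroup.le_normalizer).toEquiv
        rw [← h5] at h4
        exact hPlt.ne (Subgroup.eq_of_le_of_card_ge hPlt.le h4)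
      · exact le_antisymm hDle hge
    obtain ⟨k, hk⟩ := fmg1 D hDp hDg
    have hDk : D = conjS k V := by
      apply Subgroup.eq_of_le_of_card_ge hk
      rw [card_conjS, hcardV]
    have hkX : k ∈ X := by
      rw [hX]
      apply mem_norm_of_conjS
      rw [hU, om_conj, ← chr1 (k * u * k⁻¹) ?_ ?_ ?_, ← hU, hOm]
      · rw [hDk]
        exact (T3.H62.conjS_mem_iff u).2 hL.mem
      · rw [hDk]
        intro w hw
        have h1 := hL.cen _ (T3.H62.mem_conjS.1 hw)
        calc w * (k * u * k⁻¹) = k * (k⁻¹ * w * k * u) * k⁻¹ := by group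
          _ = k * (u * (k⁻¹ * w * k)) * k⁻¹ := by rw [h1]
          _ = k * u * k⁻¹ * w := by group
      · have h1 := MulEquiv.orderOf_eq (MulAut.conj k) u
        rw [← hL.ord]
        exact h1
    have hbV : br V f' ≠ 0 := by
      intro h0
      apply hbD
      have h1 := T2.H65.cj_br k V f'
      rw [hf'.ix.inv hkX, ← hDk, h0] at h1
      rw [h1]
      rfl
    exact key2 f' f hf' hfX (key1 f' hf' hund' hbV) hbf
  refine ⟨f, ?_⟩
  subst hz
  subst hX
  subst hU
  exact ⟨hfX, hsupp, hund, hNV, hTf, hinv, hnil⟩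

end Pool.Agent.PP.T5.H56
end
end -- Pool.Agent.Helper56_AT5.FS5

section -- Pool.Agent.Helper92_AT5.TX5

/-!
# Squad AT5, row TX5: the subgroups of `X = N(U)` which are not between `U` and `C(U)`
-/

set_option autoImplicit false

open scoped BigOperators

noncomputable section

namespace Pool.Agent.PP.T5.H92

open Pool.Agent.Helper51_AWC Pool.Agent.Helper79_WRA Pool.Agent.PP Pool.Agent.PP.KF
open Pool.Agent.PP.K9 Pool.Agent.PP.K9.H97 Pool.Agent.PP.H75 Pool.Agent.PP.T3 Pool.Agent.PP.T2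

attribute [local instance] Ideal.Quotient.field

/-- the abstract form -/
theorem tx_aux (omf : OmfStmt) (zpt : ZptStmt) (qtp : QtpStmt) (cyq : CyqStmt) {ℓ : ℕ}
    [Fact ℓ.Prime] {M : Ideal (integralClosure ℤ ℂ)} [M.IsMaximal]
    (hM : (ℓ : integralClosure ℤ ℂ) ∈ M) {X : Type} [Group X] [Finite X] {a p k n : ℕ}
    (ha : 0 < a) {fX K₀ : X → FF M} {W : Subgroup X} (hblk : IsBlk fX) (htp : Tp ℓ fX W)
    (hcy : Cy ℓ a p k W) (hKcl : IsCl K₀) (hKinv : T5.Inv K₀ fX) {U : Subgroup X}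
    (hK : ∀ c, K₀ c ≠ 0 → ∃ u', Lp ℓ c u' ∧ orderOf u' = ℓ ^ a ∧ Om ℓ a u' = U ∧
      ∃ m : ℕ, u' = c ^ m) (hn : Nat.card X ≤ n) (hIh : Ih5 M ℓ a p k n) {Q : Subgroup X}
    (hQ : IsPGroup ℓ Q) (hQb : Q ≠ ⊥)
    (hno : ¬ (U ≤ Q ∧ Q ≤ Subgroup.centralizer (U : Set X))) : YQ ℓ fX Q = 0 := by
  classical
  have hF : GoodF ℓ (FF M) := H50.fld ℓ Fact.out M hM
  have hfid : IsIdem (fun t : Subgroup.normalizer (Q : Set X) => br Q fX t) :=
    (H20.brm ℓ (FF M) hF X Q (Subgroup.normalizer (Q : Set X)) hQ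
      (Subgroup.centralizer_le_normalizer _) le_rfl).2.2 fX hblk.1
  have hker : (QuotientGroup.mk' (Q.subgroupOf (Subgroup.normalizer (Q : Set X)))).ker =
    Q.subgroupOf (Subgroup.normalizer (Q : Set X)) := QuotientGroup.ker_mk' _
  have hs := QuotientGroup.mk'_surjective (Q.subgroupOf (Subgroup.normalizer (Q : Set X)))
  unfold YQ
  refine H9.addStmt ℓ (FF M) hF _ ⊤ inferInstance _ (push_isIdem hs hfid) ?_
  intro f₁ hf₁ hff₁
  obtain ⟨π, hπ⟩ : ∃ π, π = QuotientGroup.mk' (Q.subgroupOf (Subgroup.normalizer (Q : Set X))) :=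
    ⟨_, rfl⟩
  rw [← hπ] at hker hs hff₁
  have hff' : mulF (T5.H31.T π fX) f₁ = f₁ := hff₁
  -- the image of `K₀` is invertible in `f₁`
  have hzcl : IsCl (T5.H31.T π K₀) := T5.H31.T_isCl π hs hKcl
  have hzinv : T5.Inv (T5.H31.T π K₀) f₁ := by
    obtain ⟨c, hc, hce⟩ := hKinv
    refine ⟨T5.H31.T π c, T5.H31.T_isCl π hs hc, ?_⟩
    have h1 := congrArg (T5.H31.T π) hce
    have hi : ∀ b : X → FF M, IsCl b → H66.Inv Q b := fun b hb => H66.IsCl.inv hb Q
    rw [T5.H31.T_mul π hF hQ (hi _ (H50.isCl_mulF hc hKcl)) (hi _ hblk.1.1),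
      T5.H31.T_mul π hF hQ (hi _ hc) (hi _ hKcl)] at h1
    calc mulF (mulF (T5.H31.T π c) (T5.H31.T π K₀)) f₁ =
        mulF (mulF (T5.H31.T π c) (T5.H31.T π K₀)) (mulF (T5.H31.T π fX) f₁) := by rw [hff']
      _ = mulF (mulF (mulF (T5.H31.T π c) (T5.H31.T π K₀)) (T5.H31.T π fX)) f₁ :=
          (mulF_assoc _ _ _).symm
      _ = mulF (T5.H31.T π fX) f₁ := by rw [h1]
      _ = f₁ := hff'
  obtain ⟨V', hV'⟩ := K9.H57.exists_tp (ℓ := ℓ) hf₁.2.1
  obtain ⟨x, hxC, hzx, hxV⟩ := zpt ℓ M hM _ f₁ hf₁ V' hV' _ hzcl hzinv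
  obtain ⟨c, hcx, hcC, hcK⟩ := T5.H31.T_ne π hzx
  obtain ⟨u', hLp, hord, hOm, m, hm⟩ := hK c hcK
  have hu'N : u' ∈ Subgroup.normalizer (Q : Set X) := by
    rw [hm]
    exact pow_mem c.2 m
  have hu'C : u' ∈ Subgroup.centralizer (Q : Set X) := by
    rw [hm]
    exact pow_mem hcC m
  obtain ⟨-, -, -, hOz, -, -, -, hO8⟩ := omf ℓ X a u' ha hord
  have hnot : ¬ U ≤ Q := by
    intro hle
    apply hno
    refine ⟨hle, ?_⟩
    intro w hw
    rw [Subgroup.mem_centralizer_iff]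
    intro r hr
    have hrC : r ∈ Subgroup.centralizer (Q : Set X) := by
      rw [SetLike.mem_coe, ← hOm] at hr
      exact (Subgroup.zpowers_le.2 hu'C) (hOz hr)
    exact (Subgroup.mem_centralizer_iff.1 hrC w hw).symm
  have hkm : π.ker.map (Subgroup.normalizer (Q : Set X)).subtype = Q := by
    rw [hker, Subgroup.subgroupOf_map_subtype]
    exact inf_eq_left.2 Subgroup.le_normalizer
  have hordv : orderOf (π ⟨u', hu'N⟩) = ℓ ^ a := by
    apply hO8 _ _ π hu'N
    rw [hkm, hOm]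
    exact hnot
  have hvx : π ⟨u', hu'N⟩ = x ^ m := by
    rw [← hcx, ← map_pow]
    congr 1
    exact Subtype.ext hm
  have hLv : Lp ℓ x (π ⟨u', hu'N⟩) := by
    obtain ⟨⟨r, hr⟩, hcom, hreg⟩ := hLp
    refine ⟨⟨r, ?_⟩, ?_, ?_⟩
    · rw [← map_pow]
      have h5 : (⟨u', hu'N⟩ : Subgroup.normalizer (Q : Set X)) ^ ℓ ^ r = 1 := Subtype.ext hr
      rw [h5, map_one]
    · rw [hvx]
      exact (Commute.refl x).pow_left m
    · have h5 : (π ⟨u', hu'N⟩)⁻¹ * x = π ((⟨u', hu'N⟩ : Subgroup.normalizer (Q : Set X))⁻¹ * c) := by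
        rw [map_mul, map_inv, hcx]
      rw [h5]
      unfold Reg at hreg ⊢
      refine Nat.Coprime.coprime_dvd_left (orderOf_map_dvd π _) ?_
      have h6 : orderOf ((⟨u', hu'N⟩ : Subgroup.normalizer (Q : Set X))⁻¹ * c) =
          orderOf (u'⁻¹ * (c : X)) := by
        rw [← Subgroup.orderOf_coe]
        rfl
      rwa [h6]
  have hvV := hxV _ hLv
  obtain ⟨P, g, hQP, hPN, hPV, hV'P⟩ := qtp ℓ M hM X fX W hblk htp Q hQ _ π hs hker f₁ hf₁ hff₁
    V' hV'.pg hV'.gd
  have hcy' : Cy ℓ a p k V' := cyq ℓ X _ a p k W P (Subgroup.normalizer (Q : Set X)) g π V' hcy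
    hPV hPN hV'P ⟨π ⟨u', hu'N⟩, hvV, by
      intro w hw
      rw [hvx]
      exact Subgroup.mem_centralizer_iff.1 (pow_mem hxC m) w hw, hordv⟩
  -- the order
  have hcard : Nat.card (Subgroup.normalizer (Q : Set X) ⧸
      Q.subgroupOf (Subgroup.normalizer (Q : Set X))) < n := by
    have hQ1 : 1 < Nat.card Q := by
      rw [Subgroup.one_lt_card_iff_ne_bot]
      exact hQb
    have h1 :=
      (Q.subgroupOf (Subgroup.normalizer (Q : Set X))).card_eq_card_quotient_mul_card_subgroup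
    have h2 : Nat.card (Q.subgroupOf (Subgroup.normalizer (Q : Set X))) = Nat.card Q :=
      Nat.card_congr (Subgroup.subgroupOfEquivOfLe Subgroup.le_normalizer).toEquiv
    have h3 : Nat.card (Subgroup.normalizer (Q : Set X)) ≤ n :=
      (Subgroup.card_le_card_group _).trans hn
    have h4 : 0 < Nat.card (Subgroup.normalizer (Q : Set X) ⧸
        Q.subgroupOf (Subgroup.normalizer (Q : Set X))) := Nat.card_pos
    rw [h2] at h1
    nlinarith
  exact hIh _ hcard f₁ hf₁ V' hV' hcy'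

/-- TX5 -/
theorem tx5 (omf : OmfStmt) (ksp : KspStmt) (zpt : ZptStmt) (qtp : QtpStmt) (cyq : CyqStmt) :
    Tx5Stmt := by
  intro ℓ _ M _ hM G _ _ a p k e V u y hU hcy f hf hIh U hUdef Q hQ hQb hno
  classical
  have hF : GoodF ℓ (FF M) := H50.fld ℓ Fact.out M hM
  have huy : u * y = y * u := Subgroup.mem_centralizer_iff.1 hU.yc u hU.mem
  obtain ⟨-, hK2⟩ := ksp ℓ (FF M) G a u y hU.pos hU.ord huy hU.reg
  have hfB := hf.blk
  have hfnle := hf.nle
  have hftp := hf.tp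
  have hfinv := hf.inv
  clear hf
  rw [← hUdef] at hK2 hfB hfnle hftp hfinv
  have hVX : V ≤ Subgroup.normalizer (U : Set G) := Subgroup.le_normalizer.trans hfnle
  -- the group `X`
  obtain ⟨K₀, hK₀⟩ : ∃ K₀ : Subgroup.normalizer (U : Set G) → FF M,
    K₀ = fun t : Subgroup.normalizer (U : Set G) =>
      clsum (FF M) (Subgroup.normalizer (U : Set G)) (u * y) t := ⟨_, rfl⟩
  obtain ⟨fX, hfX⟩ : ∃ fX : Subgroup.normalizer (U : Set G) → FF M,
    fX = fun t : Subgroup.normalizer (U : Set G) => f t := ⟨_, rfl⟩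
  have hblk : IsBlk fX := by rw [hfX]; exact hfB.blk
  rw [← hfX] at hftp hfinv ⊢
  rw [← hK₀] at hfinv
  have hKcl : IsCl K₀ := by
    intro x t
    rw [hK₀]
    have h1 := T5.H31.cj_clsum (F := FF M) (w := u * y) (inv_mem t.2)
    have h2 := congrFun h1 (x : G)
    change clsum (FF M) _ (u * y) ((t : G)⁻¹⁻¹ * x * (t : G)⁻¹) = _ at h2
    rw [inv_inv] at h2
    exact h2
  -- Cy for `V_X`
  have hcyX : Cy ℓ a p k (V.subgroupOf (Subgroup.normalizer (U : Set G))) := by
    refine cyq ℓ G _ a p k V V (Subgroup.normalizer (U : Set G)) 1 (MonoidHom.id _) _ hcy ?_ hVX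
      (Subgroup.map_id _).symm ?_
    · intro x hx
      rw [T3.H62.mem_conjS, inv_one, one_mul, mul_one]
      exact hx
    · refine ⟨⟨u, hVX hU.mem⟩, hU.mem, ?_, ?_⟩
      · intro w hw
        exact Subtype.ext (hU.cen w hw)
      · rw [← hU.ord, ← Subgroup.orderOf_coe]
  refine tx_aux omf zpt qtp cyq hM hU.pos hblk hftp hcyX hKcl hfinv
    (U := U.subgroupOf (Subgroup.normalizer (U : Set G))) ?_ (Subgroup.card_le_card_group _) hIh
    hQ hQb ?_
  · intro c hc
    rw [hK₀] at hc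
    have hc' : cj 1 (clsum (FF M) (Subgroup.normalizer (U : Set G)) (u * y)) (c : G) ≠ 0 := by
      rw [cj_one]
      exact hc
    obtain ⟨u', hL, ho, hOm, ⟨m, hm⟩, -⟩ := hK2 1 c hc'
    have hcoe : ((c ^ m : Subgroup.normalizer (U : Set G)) : G) = u' := by
      rw [hm]
      rfl
    refine ⟨c ^ m, ⟨?_, (Commute.refl c).pow_left m, ?_⟩, ?_, ?_, m, rfl⟩
    · obtain ⟨r, hr⟩ := hL.el
      refine ⟨r, Subtype.ext ?_⟩
      rw [← hcoe] at hr
      exact hr
    · have h1 := hL.reg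
      unfold Reg at h1 ⊢
      rw [← hcoe] at h1
      rw [← Subgroup.orderOf_coe]
      exact h1
    · rw [← Subgroup.orderOf_coe, hcoe, ho]
    · have h1 : conjS (1 : G) U = U := by
        ext t
        rw [T3.H62.mem_conjS, inv_one, one_mul, mul_one]
      rw [h1] at hOm
      have hmemU : ∀ t : G, t ∈ Om ℓ a u' ↔ t ∈ U := fun t => by rw [hOm]
      ext t
      rw [Subgroup.mem_subgroupOf]
      constructor
      · intro ht
        apply (hmemU t).1
        obtain ⟨z, hz⟩ := Subgroup.mem_zpowers_iff.1 ht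
        refine Subgroup.mem_zpowers_iff.2 ⟨z, ?_⟩
        rw [← hz, ← hcoe]
        rfl
      · intro ht
        obtain ⟨z, hz⟩ := Subgroup.mem_zpowers_iff.1 ((hmemU t).2 ht)
        refine Subgroup.mem_zpowers_iff.2 ⟨z, Subtype.ext ?_⟩
        rw [← hz, ← hcoe]
        rfl
  · rintro ⟨h1, h2⟩
    refine hno ⟨h1, ?_⟩
    intro x hx
    rw [Subgroup.mem_subgroupOf, Subgroup.mem_centralizer_iff]
    intro v hv
    have h3 := Subgroup.mem_centralizer_iff.1 (h2 hx)
      ⟨v, Subgroup.le_normalizer hv⟩ (Subgroup.mem_subgroupOf.2 hv)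
    exact congrArg Subtype.val h3

end Pool.Agent.PP.T5.H92
end
end -- Pool.Agent.Helper92_AT5.TX5

section -- Pool.Agent.Helper41_ATP.UOP

/-!
# Squad ATP, row UOP: the idempotents over different conjugates of `U` are orthogonal
-/

set_option autoImplicit false

open scoped BigOperators

noncomputable section

namespace Pool.Agent.PP.TP.H41

open Pool.Agent.Helper51_AWC Pool.Agent.Helper79_WRA Pool.Agent.PP Pool.Agent.PP.KF
open Pool.Agent.PP.K9 Pool.Agent.PP.K9.H97 Pool.Agent.PP.H75 Pool.Agent.PP.T3 Pool.Agent.PP.T2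
open Pool.Agent.PP.TB

attribute [local instance] Ideal.Quotient.field

section grp

variable {G : Type} [Group G]

theorem uw_mono {n : ℕ} {A B : Subgroup G} (h : A ≤ B) : Uw n A ≤ Uw n B :=
  Subgroup.closure_mono (Set.image_mono h)

theorem uw_dvd {m n : ℕ} (h : n ∣ m) (A : Subgroup G) : Uw m A ≤ Uw n A := by
  obtain ⟨k, rfl⟩ := h
  unfold Uw
  rw [Subgroup.closure_le]
  rintro _ ⟨x, hx, rfl⟩
  apply Subgroup.subset_closure
  refine ⟨x ^ k, A.pow_mem hx k, ?_⟩
  show (x ^ k) ^ n = x ^ (n * k)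
  rw [← pow_mul, mul_comm]

theorem card_sub {A B : Subgroup G} (h : A ≤ B) : Nat.card (A.subgroupOf B) = Nat.card A :=
  Nat.card_congr (Subgroup.subgroupOfEquivOfLe h).toEquiv

theorem pow_mem_zc [Finite G] {ℓ p : ℕ} [hl : Fact ℓ.Prime] {D : Subgroup G} (hD : IsPGroup ℓ D)
    (hidx : Nat.card D ≤ ℓ ^ p * Nat.card (Zc D)) {z : G} (hz : z ∈ D) :
    z ^ (ℓ ^ p) ∈ Zc D := by
  have hle : Zc D ≤ D := inf_le_left
  have hn : ((Zc D).subgroupOf D).Normal := by
    refine ⟨?_⟩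
    intro n hn g
    rw [Subgroup.mem_subgroupOf] at hn ⊢
    have h1 := Subgroup.mem_centralizer_iff.1 hn.2 (g : G) g.2
    have h2 : ((g * n * g⁻¹ : D) : G) = n := by
      show (g : G) * n * (g : G)⁻¹ = n
      rw [h1]
      group
    rw [h2]
    exact hn
  have h1 := Subgroup.pow_index_mem ((Zc D).subgroupOf D) (⟨z, hz⟩ : D)
  have h2 := Subgroup.index_mul_card ((Zc D).subgroupOf D)
  rw [card_sub hle] at h2
  obtain ⟨m, hm⟩ := IsPGroup.iff_card.1 hD
  have h3 : ((Zc D).subgroupOf D).index ∣ ℓ ^ m := by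
    rw [← hm, ← h2]
    exact dvd_mul_right _ _
  obtain ⟨i, -, hi⟩ := (Nat.dvd_prime_pow hl.out).1 h3
  have hc : 0 < Nat.card (Zc D) := Nat.card_pos
  have h4 : ℓ ^ i ≤ ℓ ^ p := by
    rw [← h2, hi] at hidx
    exact Nat.le_of_mul_le_mul_right hidx hc
  have h5 : i ≤ p := (Nat.pow_le_pow_iff_right hl.out.one_lt).1 h4
  rw [hi] at h1
  have h6 : z ^ (ℓ ^ i) ∈ Zc D := h1
  have h7 : z ^ (ℓ ^ p) = (z ^ (ℓ ^ i)) ^ (ℓ ^ (p - i)) := by
    rw [← pow_mul, ← pow_add]
    congr 2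
    omega
  rw [h7]
  exact Subgroup.pow_mem _ h6 _

theorem cent_sup {Q S : Subgroup G} {t : G} :
    t ∈ Subgroup.centralizer ((S ⊔ Q : Subgroup G) : Set G) ↔
      t ∈ Subgroup.centralizer (S : Set G) ∧ t ∈ Subgroup.centralizer (Q : Set G) := by
  constructor
  · intro h
    have hS : S ≤ S ⊔ Q := le_sup_left
    have hQ : Q ≤ S ⊔ Q := le_sup_right
    exact ⟨Subgroup.centralizer_le (show (S : Set G) ⊆ ((S ⊔ Q : Subgroup G) : Set G) from hS) h,
      Subgroup.centralizer_le (show (Q : Set G) ⊆ ((S ⊔ Q : Subgroup G) : Set G) from hQ) h⟩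
  · rintro ⟨h1, h2⟩
    have h3 : S ≤ Subgroup.centralizer ({t} : Set G) := by
      intro s hs
      rw [Subgroup.mem_centralizer_iff]
      rintro _ rfl
      exact (Subgroup.mem_centralizer_iff.1 h1 s hs).symm
    have h4 : Q ≤ Subgroup.centralizer ({t} : Set G) := by
      intro s hs
      rw [Subgroup.mem_centralizer_iff]
      rintro _ rfl
      exact (Subgroup.mem_centralizer_iff.1 h2 s hs).symm
    rw [Subgroup.mem_centralizer_iff]
    intro s hs
    have h5 := Subgroup.mem_centralizer_iff.1 (sup_le h3 h4 hs) t rfl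
    exact h5.symm

end grp

section

variable {F G : Type} [Field F] [Group G] [Finite G]

/-- a block under a nonzero idempotent -/
theorem blk_under {X : Subgroup G} {E : G → F} (hE : Ix X E) (h0 : E ≠ 0) :
    ∃ b : G → F, Bx X b ∧ mulF E b = b := by
  obtain ⟨b₀, hb₀, hgb, -⟩ := K9.H24.exists_blk (L := fun a : X → F => a) rfl
    (fun a b => rfl) hE.idem (by
      intro h1
      exact h0 (H75.eq_of_res hE.supp (fun _ _ => rfl) h1))
  refine ⟨H75.ext0 X b₀, ?_, ?_⟩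
  · refine ⟨H75.ext0_supp _ b₀, ?_⟩
    have h1 : (fun t : X => H75.ext0 X b₀ t) = b₀ := funext (H75.ext0_apply _ b₀)
    rw [h1]
    exact hb₀
  · have h1 : (fun t : X => H75.ext0 X b₀ t) = b₀ := funext (H75.ext0_apply _ b₀)
    apply H75.eq_of_res (H75.mulF_supp _ hE.supp (H75.ext0_supp _ b₀)) (H75.ext0_supp _ b₀)
    rw [H75.mulF_res _ _ hE.supp, h1, hgb]

theorem ix_top {e : G → F} (he : IsIdem e) : Ix (⊤ : Subgroup G) e := by
  have hs : ∀ x, x ∉ (⊤ : Subgroup G) → e x = 0 := fun x hx => absurd (Subgroup.mem_top x) hx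
  refine ⟨hs, ?_, ?_⟩
  · intro x y
    exact he.1 _ _
  · rw [← H75.mulF_res _ _ hs, he.2]

/-- a good subgroup of maximal order -/
theorem tp_under {ℓ : ℕ} (hF : GoodF ℓ F) {e : G → F} (he : IsCl e) {V D W : Subgroup G}
    {w : G → F} (hV : Tp ℓ e V) (hcard : Nat.card D = Nat.card V) (hD : IsPGroup ℓ D)
    (hDW : D ≤ Subgroup.centralizer (W : Set G))
    (hw : Bx (Subgroup.centralizer (W : Set G)) w) (hew : mulF (br W e) w = w)
    (hg : br D w ≠ 0) :
    Tp ℓ (fun t : Subgroup.centralizer (W : Set G) => w t)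
      (D.subgroupOf (Subgroup.centralizer (W : Set G))) := by
  refine ⟨hD.comap_of_injective _ (Subgroup.subtype_injective _), ?_, ?_⟩
  · obtain ⟨t, ht, ht0⟩ := C2.H3.gd_of_br' hg
    have htW : t ∈ Subgroup.centralizer (W : Set G) := by
      by_contra h
      exact ht0 (hw.supp t h)
    refine ⟨⟨t, htW⟩, ?_, ht0⟩
    rw [Subgroup.mem_centralizer_iff]
    intro x hx
    exact Subtype.ext (Subgroup.mem_centralizer_iff.1 ht x hx)
  · intro Q hQ hgQ
    rw [card_sub hDW, hcard]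
    have hbrcl : IsCl (fun t : Subgroup.centralizer (W : Set G) => br W e t) := by
      intro x y
      change br W e (y * x * (y : G)⁻¹) = br W e x
      rw [H66.br_of_mem x.2, H66.br_of_mem (mul_mem (mul_mem y.2 x.2) (inv_mem y.2))]
      exact he _ _
    have hbrs : ∀ x, x ∉ Subgroup.centralizer (W : Set G) → br W e x = 0 :=
      fun x hx => H66.br_of_not_mem hx
    have h1 := gd_of_mul hF hbrcl hw.blk.1.1
      (by rw [← H75.mulF_res _ _ hbrs, hew]) hQ hgQ
    obtain ⟨t, ht, ht0⟩ := gd_map h1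
    have h2 := hV.mx _ (hQ.map (Subgroup.centralizer (W : Set G)).subtype) ⟨t, ht, fun h0 => ht0 (by
      by_cases htc : t ∈ Subgroup.centralizer (W : Set G)
      · rw [H66.br_of_mem htc, h0]
      · exact hbrs t htc)⟩
    rw [Subgroup.card_map_of_injective (Subgroup.subtype_injective _)] at h2
    exact h2

end

/-- the pair `(D, γ)` over `(T, b₃)` given by one conjugate of `f` -/
theorem side (zcf : ZcfStmt) (pcj : PcjStmt) (pxb : PxbStmt) (pmk : PmkStmt) {ℓ : ℕ}
    [Fact ℓ.Prime] {M : Ideal (integralClosure ℤ ℂ)} [M.IsMaximal]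
    (hM : (ℓ : integralClosure ℤ ℂ) ∈ M) {G : Type} [Group G] [Finite G] {a : ℕ} {e : G → FF M}
    {V : Subgroup G} {f : G → FF M} (hf : Fz ℓ a e V f) {Q T : Subgroup G} {g : G}
    (hb : Bt (Uz ℓ a V) Q g) {b b₃ : G → FF M} (hQb : Pq ℓ Q b) (hTb : Pq ℓ T b₃)
    (hQT : Nl Q b T b₃) (hTU : T ≤ Subgroup.centralizer (conjS g (Uz ℓ a V) : Set G))
    (hfb : mulF (br Q (cj g f)) b = b) :
    ∃ (y : G) (γ : G → FF M), Pq ℓ (conjS y V) γ ∧ Le ℓ T b₃ (conjS y V) γ ∧
      Uz ℓ a (conjS y V) = conjS g (Uz ℓ a V) := by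
  have hF : GoodF ℓ (FF M) := H50.fld ℓ Fact.out M hM
  have hzU := (zcf G V).2.1 ℓ a
  have hX : ∀ x, x ∈ Subgroup.normalizer (conjS g (Uz ℓ a V) : Set G) ↔
      g⁻¹ * x * g ∈ Subgroup.normalizer (Uz ℓ a V : Set G) := fun x => T3.H62.mem_norm_conjS x
  have hfa : Bx (Subgroup.normalizer (conjS g (Uz ℓ a V) : Set G)) (cj g f) :=
    T3.H62.bx_cj hX hf.blk
  have hCN : Subgroup.centralizer (Q : Set G) ≤
      Subgroup.normalizer (conjS g (Uz ℓ a V) : Set G) :=
    (Subgroup.centralizer_le (show ((conjS g (Uz ℓ a V) : Subgroup G) : Set G) ⊆ Q from hb.1)).trans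
      (T3.H85.cent_le_norm _)
  have h3 : mulF (br T (cj g f)) b₃ = b₃ :=
    (pxb ℓ (FF M) hF G _ (cj g f) hfa.ix T b₃ hTb (hTU.trans (T3.H85.cent_le_norm _)) Q b hQb hCN
      (Le.one hQb hTb hQT)).1 hfb
  -- conjugate by `g⁻¹`
  obtain ⟨pcj1, -, pcj3, -⟩ := pcj ℓ (FF M) G g⁻¹
  have h4 : Pq ℓ (conjS g⁻¹ T) (cj g⁻¹ b₃) := pcj1 T b₃ hTb
  have hgg : ∀ A : Subgroup G, conjS g⁻¹ (conjS g A) = A := by
    intro A
    rw [conjS_conjS, inv_mul_cancel, conjS_one]
  have hgg' : ∀ A : Subgroup G, conjS g (conjS g⁻¹ A) = A := by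
    intro A
    rw [conjS_conjS, mul_inv_cancel, conjS_one]
  have h5 : conjS g⁻¹ T ≤ Subgroup.centralizer (Uz ℓ a V : Set G) := by
    rw [T3.H62.cent_conjS] at hTU
    have h6 := conjS_mono (g := g⁻¹).2 hTU
    rwa [hgg] at h6
  have hUT : Uz ℓ a V ≤ conjS g⁻¹ T := by
    have h6 : conjS g (Uz ℓ a V) ≤ T := hb.1.trans hQT.le
    have h7 := conjS_mono (g := g⁻¹).2 h6
    rwa [hgg] at h7
  have h6 : mulF (br (conjS g⁻¹ T) f) (cj g⁻¹ b₃) = cj g⁻¹ b₃ := by
    have h7 := congrArg (cj g⁻¹) h3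
    rw [cj_mulF, ← T2.H72.br_cj, cj_inv_cj] at h7
    exact h7
  obtain ⟨x, hx, γ', h8, h9⟩ := pmk ℓ M hM G (Subgroup.normalizer (Uz ℓ a V : Set G)) V f hf.blk
    (hzU.2.1.trans (T3.H85.cent_le_norm _)) hf.tp (conjS g⁻¹ T) (cj g⁻¹ b₃) h4
    (h5.trans (T3.H85.cent_le_norm _))
    ((Subgroup.centralizer_le (show (Uz ℓ a V : Set G) ⊆ (conjS g⁻¹ T : Subgroup G) from hUT)).trans
      (T3.H85.cent_le_norm _)) h6
  obtain ⟨pcj1', -, pcj3', -⟩ := pcj ℓ (FF M) G g
  refine ⟨g * x, cj g γ', ?_, ?_, ?_⟩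
  · rw [← conjS_conjS]
    exact pcj1' _ _ h8
  · have h10 := pcj3' _ _ _ _ h9
    rw [hgg', cj_cj_inv, conjS_conjS] at h10
    exact h10
  · rw [((zcf G V).2.1 ℓ a).2.2.2.1, ← conjS_conjS, mem_normalizer_iff_conjS.1 hx]

/-- UOP -/
theorem uop (zcf : ZcfStmt) (pcj : PcjStmt) (pex : PexStmt) (pun : PunStmt) (pxb : PxbStmt)
    (pmk : PmkStmt) (pcd : PcdStmt) (fmg : FmgStmt) : UopStmt := by
  intro ℓ _ M _ hM G _ _ a p e V hU f hf
  have hF : GoodF ℓ (FF M) := H50.fld ℓ Fact.out M hM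
  refine ⟨hf.blk.ix, hf.supp, hf.und, ?_⟩
  intro Q hQ g h hbg hbh hne
  obtain ⟨hI1, hE1⟩ := T2.H72.conj_data hF hU.blk.1.1 hf.blk hf.und hQ hbg
  obtain ⟨hI2, -⟩ := T2.H72.conj_data hF hU.blk.1.1 hf.blk hf.und hQ hbh
  by_contra hcon
  have hs : ∀ x, x ∉ Subgroup.centralizer (Q : Set G) →
      mulF (br Q (cj g f)) (br Q (cj h f)) x = 0 := H75.mulF_supp _ hI1.supp hI2.supp
  have hcomm := hI1.comm hI2
  have hmm : mulF (mulF (br Q (cj g f)) (br Q (cj h f)))
      (mulF (br Q (cj g f)) (br Q (cj h f))) = mulF (br Q (cj g f)) (br Q (cj h f)) := by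
    rw [H20.mulF_assoc, ← H20.mulF_assoc (br Q (cj h f)) (br Q (cj g f)), ← hcomm,
      H20.mulF_assoc (br Q (cj g f)) (br Q (cj h f)), hI2.mul, ← H20.mulF_assoc, hI1.mul]
  have hI : Ix (Subgroup.centralizer (Q : Set G)) (mulF (br Q (cj g f)) (br Q (cj h f))) := by
    refine ⟨hs, ?_, ?_⟩
    · intro x y
      have h1 : cj (y : G)⁻¹ (mulF (br Q (cj g f)) (br Q (cj h f))) =
          mulF (br Q (cj g f)) (br Q (cj h f)) := by
        rw [cj_mulF, hI1.inv (inv_mem y.2), hI2.inv (inv_mem y.2)]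
      have h2 := congrFun h1 x
      rw [cj, inv_inv] at h2
      exact h2
    · rw [← H75.mulF_res _ _ hs, hmm]
  obtain ⟨b, hBb, hEb⟩ := blk_under hI hcon
  have h1b : mulF (br Q (cj g f)) b = b := by
    conv_lhs => rw [← hEb]
    rw [← H20.mulF_assoc, ← H20.mulF_assoc, hI1.mul, hEb]
  have h2b : mulF (br Q (cj h f)) b = b := by
    conv_lhs => rw [← hEb]
    rw [hcomm, ← H20.mulF_assoc, ← H20.mulF_assoc, hI2.mul, ← hcomm, hEb]
  have heb : mulF (br Q e) b = b := by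
    rw [← h1b, ← H20.mulF_assoc, hE1]
  have hQb : Pq ℓ Q b := ⟨hQ, hBb⟩
  -- a defect group of `b`
  obtain ⟨P, hP⟩ := K9.H57.exists_tp (ℓ := ℓ) hBb.blk.2.1
  obtain ⟨S, hSdef⟩ : ∃ S : Subgroup G, S = P.map (Subgroup.centralizer (Q : Set G)).subtype :=
    ⟨_, rfl⟩
  have hSP : S.subgroupOf (Subgroup.centralizer (Q : Set G)) = P := by
    rw [hSdef]
    exact Subgroup.comap_map_eq_self_of_injective (Subgroup.subtype_injective _) P
  have hSC : S ≤ Subgroup.centralizer (Q : Set G) := by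
    rw [hSdef]
    exact Subgroup.map_subtype_le P
  have hSpg : IsPGroup ℓ S := by
    rw [hSdef]
    exact hP.pg.map _
  have hTpg : IsPGroup ℓ (S ⊔ Q : Subgroup G) :=
    hSpg.to_sup_of_normal_right' hQ (hSC.trans (T3.H85.cent_le_norm _))
  have hTQ : (S ⊔ Q : Subgroup G) ≤ Q ⊔ Subgroup.centralizer (Q : Set G) :=
    sup_le (hSC.trans le_sup_right) le_sup_left
  have hbinv : ∀ t ∈ Q ⊔ Subgroup.centralizer (Q : Set G), ∀ x, b (t * x * t⁻¹) = b x := by
    intro t ht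
    exact (cj_eq_iff _ _).1 ((pcj ℓ (FF M) G t).2.2.2 Q b hQb ht)
  have hIT : Ix (Subgroup.centralizer ((S ⊔ Q : Subgroup G) : Set G)) (br (S ⊔ Q) b) := by
    refine C2.H3.ix_br hF hTpg ?_ (fun t ht x => hbinv t (hTQ ht) x) hBb.mul
    intro y hy x
    exact hbinv y (Subgroup.mem_sup_right (cent_sup.1 hy).2) x
  have hbrS : br (S ⊔ Q) b = br S b := by
    funext t
    by_cases ht : t ∈ Subgroup.centralizer (Q : Set G)
    · by_cases hts : t ∈ Subgroup.centralizer (S : Set G)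
      · rw [H66.br_of_mem hts, H66.br_of_mem (cent_sup.2 ⟨hts, ht⟩)]
      · rw [H66.br_of_not_mem hts, H66.br_of_not_mem fun h => hts (cent_sup.1 h).1]
    · rw [H66.br_of_not_mem fun h => ht (cent_sup.1 h).2]
      by_cases hts : t ∈ Subgroup.centralizer (S : Set G)
      · rw [H66.br_of_mem hts, hBb.supp t ht]
      · rw [H66.br_of_not_mem hts]
  have hbr0 : br (S ⊔ Q) b ≠ 0 := by
    rw [hbrS, hSdef]
    exact C2.H3.br_ne_of_gd (gd_map hP.gd)
  obtain ⟨b₃, hB3, hE3⟩ := blk_under hIT hbr0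
  rw [hbrS] at hE3
  obtain ⟨hTb, hNl, hD⟩ := pcd ℓ (FF M) hF G Q S b b₃ hQb hSC (by rw [hSP]; exact hP) hB3 hE3
  have hTU : ∀ x : G, Bt (Uz ℓ a V) Q x →
      (S ⊔ Q : Subgroup G) ≤ Subgroup.centralizer (conjS x (Uz ℓ a V) : Set G) := by
    intro x hx
    exact sup_le (hSC.trans (Subgroup.centralizer_le
      (show ((conjS x (Uz ℓ a V) : Subgroup G) : Set G) ⊆ Q from hx.1))) hx.2
  obtain ⟨y₁, γ₁, hp1, hl1, hu1⟩ := side zcf pcj pxb pmk hM hf hbg hQb hTb hNl (hTU g hbg) h1b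
  obtain ⟨y₂, γ₂, hp2, hl2, hu2⟩ := side zcf pcj pxb pmk hM hf hbh hQb hTb hNl (hTU h hbh) h2b
  -- the subgroup `W`
  obtain ⟨W, hWdef⟩ : ∃ W : Subgroup G, W = Uw (ℓ ^ p) (Zc S) := ⟨_, rfl⟩
  have hWS : W ≤ S := by
    rw [hWdef]
    refine (Subgroup.closure_le _).2 ?_
    rintro _ ⟨z, hz, rfl⟩
    exact S.pow_mem hz.1 _
  have key : ∀ (y : G) (γ : G → FF M) (U' : Subgroup G), Pq ℓ (conjS y V) γ →
      Le ℓ (S ⊔ Q) b₃ (conjS y V) γ → Uz ℓ a (conjS y V) = U' →
      W ≤ Zc (conjS y V) ∧ U' ≤ W := by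
    intro y γ U' h1 h2 h3
    obtain ⟨h4, h5⟩ := hD _ γ h1 h2
    have hSD : S ≤ conjS y V := by
      rw [← h4]
      exact inf_le_left
    have hidx : Nat.card (conjS y V) ≤ ℓ ^ p * Nat.card (Zc (conjS y V)) := by
      rw [(zcf G V).1.2.2.2.2.1, Helper51_AWC.card_conjS, Helper51_AWC.card_conjS]
      exact hU.idx
    constructor
    · rw [hWdef]
      refine (Subgroup.closure_le _).2 ?_
      rintro _ ⟨z, hz, rfl⟩
      exact pow_mem_zc h1.pg hidx (hSD hz.1)
    · rw [← h3, hWdef]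
      unfold Uz
      refine (uw_mono h5).trans (uw_dvd ?_ _)
      exact pow_dvd_pow ℓ (by have := hU.lt; omega)
  obtain ⟨hW1, hUW1⟩ := key y₁ γ₁ _ hp1 hl1 hu1
  obtain ⟨hW2, hUW2⟩ := key y₂ γ₂ _ hp2 hl2 hu2
  obtain ⟨w, hWw, hlw, -⟩ := pex ℓ (FF M) hF G (S ⊔ Q) b₃ hTb W (hWS.trans le_sup_left)
  -- `w` is under `e`
  have hte : Ix (⊤ : Subgroup G) e := ix_top hU.blk.1
  have h3e : mulF (br (S ⊔ Q) e) b₃ = b₃ :=
    (pxb ℓ (FF M) hF G ⊤ e hte (S ⊔ Q) b₃ hTb le_top Q b hQb le_top (Le.one hQb hTb hNl)).1 heb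
  have hwe : mulF (br W e) w = w :=
    (pxb ℓ (FF M) hF G ⊤ e hte (S ⊔ Q) b₃ hTb le_top W w hWw le_top hlw).2 h3e
  have tp : ∀ (y : G) (γ : G → FF M), Pq ℓ (conjS y V) γ →
      Le ℓ (S ⊔ Q) b₃ (conjS y V) γ → W ≤ Zc (conjS y V) →
      conjS y V ≤ Subgroup.centralizer (W : Set G) ∧
      Tp ℓ (fun t : Subgroup.centralizer (W : Set G) => w t)
        ((conjS y V).subgroupOf (Subgroup.centralizer (W : Set G))) := by
    intro y γ h1 h2 h3
    have h4 : conjS y V ≤ Subgroup.centralizer (W : Set G) := by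
      refine ((zcf G (conjS y V)).1.2.1).trans (Subgroup.centralizer_le ?_)
      exact h3
    refine ⟨h4, tp_under hF hU.blk.1.1 hU.tp (Helper51_AWC.card_conjS _ _) h1.pg h4 hWw.blk hwe ?_⟩
    have h5 := (pun ℓ (FF M) hF G (conjS y V) γ h1 W w hWw (hlw.trans h2)).2
      (h4.trans (T3.H85.cent_le_norm _))
    intro h6
    have h7 := h5.und
    rw [h6, H75.mulF_zero_left] at h7
    exact h1.blk.ne h7.symm
  obtain ⟨hc1, ht1⟩ := tp y₁ γ₁ hp1 hl1 hW1
  obtain ⟨hc2, ht2⟩ := tp y₂ γ₂ hp2 hl2 hW2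
  obtain ⟨c, hc⟩ := (fmg ℓ M hM _ _ hWw.blk.blk _ ht1).1 _ ht2.pg ht2.gd
  have hle : conjS y₂ V ≤ conjS (c : G) (conjS y₁ V) := by
    intro x hx
    have h1 := hc (show (⟨x, hc2 hx⟩ : Subgroup.centralizer (W : Set G)) ∈
      (conjS y₂ V).subgroupOf (Subgroup.centralizer (W : Set G)) from hx)
    rw [Helper51_AWC.mem_conjS] at h1 ⊢
    exact h1
  have heq : conjS y₂ V = conjS (c : G) (conjS y₁ V) := by
    apply Subgroup.eq_of_le_of_card_ge hle
    rw [Helper51_AWC.card_conjS, Helper51_AWC.card_conjS, Helper51_AWC.card_conjS]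
  apply hne
  rw [← hu2, heq, ((zcf G (conjS y₁ V)).2.1 ℓ a).2.2.2.1, hu1]
  symm
  apply mem_normalizer_iff_conjS.1
  apply T3.H85.cent_le_norm
  exact Subgroup.centralizer_le (show ((conjS g (Uz ℓ a V) : Subgroup G) : Set G) ⊆ W from hUW1) c.2

end Pool.Agent.PP.TP.H41
end
end -- Pool.Agent.Helper41_ATP.UOP

section -- Pool.Agent.Helper81_ATP.TXP

/-!
# Squad ATP, row TXP: the subgroups of `X = N(U)` which are not between `U` and `C(U)`
-/

set_option autoImplicit false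

open scoped BigOperators

noncomputable section

namespace Pool.Agent.PP.TP.H81

open Pool.Agent.Helper51_AWC Pool.Agent.Helper79_WRA Pool.Agent.PP Pool.Agent.PP.KF
open Pool.Agent.PP.K9 Pool.Agent.PP.K9.H97 Pool.Agent.PP.H75 Pool.Agent.PP.T3 Pool.Agent.PP.T2
open Pool.Agent.PP.TB

attribute [local instance] Ideal.Quotient.field

/-- the abstract form -/
theorem tx_aux (zcf : ZcfStmt) (ctq : CtqStmt) (pqz : PqzStmt) (pmx : PmxStmt) {ℓ : ℕ}
    [Fact ℓ.Prime] {M : Ideal (integralClosure ℤ ℂ)} [M.IsMaximal]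
    (hM : (ℓ : integralClosure ℤ ℂ) ∈ M) {X : Type} [Group X] [Finite X] {a p r a₀ n : ℕ}
    (ha : 0 < a) (ha₀ : a₀ ≤ a) {fX : X → FF M} {W : Subgroup X} (hblk : IsBlk fX)
    (htp : Tp ℓ fX W) (hcl : Cl ℓ r p W) (hexp : Monoid.exponent (Zc W) = ℓ ^ a)
    (hUn : ∀ g : X, conjS g (Uz ℓ a W) = Uz ℓ a W) (hn : Nat.card X ≤ n)
    (hIh : Ihz M ℓ r p a₀ n) {Q : Subgroup X} (hQ : IsPGroup ℓ Q) (hQb : Q ≠ ⊥)
    (hno : ¬ (Uz ℓ a W ≤ Q ∧ Q ≤ Subgroup.centralizer (Uz ℓ a W : Set X))) :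
    YQ ℓ fX Q = 0 := by
  classical
  have hF : GoodF ℓ (FF M) := H50.fld ℓ Fact.out M hM
  have hfid : IsIdem (fun t : Subgroup.normalizer (Q : Set X) => br Q fX t) :=
    (H20.brm ℓ (FF M) hF X Q (Subgroup.normalizer (Q : Set X)) hQ
      (Subgroup.centralizer_le_normalizer _) le_rfl).2.2 fX hblk.1
  have hker : (QuotientGroup.mk' (Q.subgroupOf (Subgroup.normalizer (Q : Set X)))).ker =
    Q.subgroupOf (Subgroup.normalizer (Q : Set X)) := QuotientGroup.ker_mk' _
  have hs := QuotientGroup.mk'_surjective (Q.subgroupOf (Subgroup.normalizer (Q : Set X)))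
  unfold YQ
  refine H9.addStmt ℓ (FF M) hF _ ⊤ inferInstance _ (push_isIdem hs hfid) ?_
  intro f₁ hf₁ hff₁
  obtain ⟨π, hπ⟩ : ∃ π, π = QuotientGroup.mk' (Q.subgroupOf (Subgroup.normalizer (Q : Set X))) :=
    ⟨_, rfl⟩
  rw [← hπ] at hker hs hff₁
  obtain ⟨V', hV'⟩ := K9.H57.exists_tp (ℓ := ℓ) hf₁.2.1
  obtain ⟨R, b, b₃, hQR, hRN, hRV', -, hPb₃, -, -, hbr, -, hmax⟩ :=
    pqz ℓ M hM X fX hblk.1 Q hQ _ π hs hker f₁ hf₁ hff₁ V' hV'
  obtain ⟨x, γ', hPD, hLe⟩ := pmx ℓ M hM X fX W hblk htp R b₃ hPb₃ hbr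
  obtain ⟨⟨zle, zcen, -, -, zconj, -⟩, zU, zCl, -⟩ := zcf X (conjS x W)
  obtain ⟨⟨-, -, -, -, zconjW, -⟩, zUW, zClW, -⟩ := zcf X W
  have hRD : R ≤ conjS x W := hLe.sub
  have hQD : Q ≤ conjS x W := hQR.trans hRD
  have hZC : Zc (conjS x W) ≤ Subgroup.centralizer (Q : Set X) := by
    intro z hz
    rw [Subgroup.mem_centralizer_iff]
    intro q hq
    exact (Subgroup.mem_centralizer_iff.1 (zcen (hQD hq)) z hz).symm
  have hZR : Zc (conjS x W) ≤ R := (le_inf zle hZC).trans (hmax _ _ hPD hLe)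
  have hexpD : Monoid.exponent (Zc (conjS x W)) = ℓ ^ a := by
    rw [zconjW x, ← hexp]
    exact (Monoid.exponent_eq_of_mulEquiv (conjSEquiv x (Zc W))).symm
  have hClD : Cl ℓ r p (conjS x W) := (zClW ℓ r p hcl).2.1 x
  have hUD : Uz ℓ a (conjS x W) = Uz ℓ a W := by
    rw [(zUW ℓ a).2.2.2.1 x, hUn x]
  have hPGD : IsPGroup ℓ (conjS x W) := hPD.pg
  obtain ⟨hCl', hor⟩ := ctq ℓ X _ r p (conjS x W) R (Subgroup.normalizer (Q : Set X)) π V' hPGD
    hRD hRN hZR hRV'.symm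
  have hkm : π.ker.map (Subgroup.normalizer (Q : Set X)).subtype = Q := by
    rw [hker, Subgroup.subgroupOf_map_subtype]
    exact inf_eq_left.2 Subgroup.le_normalizer
  have hz : ∃ z ∈ Zc V', orderOf z = ℓ ^ a := by
    rcases hor a ha hexpD with h | h
    · exact h
    · exfalso
      rw [hkm, hUD] at h
      refine hno ⟨h, hQD.trans ?_⟩
      have h2 := (zU ℓ a).2.1
      rw [hUD] at h2
      exact h2
  obtain ⟨z, hzV, hzo⟩ := hz
  -- the order
  have hcard : Nat.card (Subgroup.normalizer (Q : Set X) ⧸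
      Q.subgroupOf (Subgroup.normalizer (Q : Set X))) < n := by
    have hQ1 : 1 < Nat.card Q := by
      rw [Subgroup.one_lt_card_iff_ne_bot]
      exact hQb
    have h1 :=
      (Q.subgroupOf (Subgroup.normalizer (Q : Set X))).card_eq_card_quotient_mul_card_subgroup
    have h2 : Nat.card (Q.subgroupOf (Subgroup.normalizer (Q : Set X))) = Nat.card Q :=
      Nat.card_congr (Subgroup.subgroupOfEquivOfLe Subgroup.le_normalizer).toEquiv
    have h3 : Nat.card (Subgroup.normalizer (Q : Set X)) ≤ n :=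
      (Subgroup.card_le_card_group _).trans hn
    have h4 : 0 < Nat.card (Subgroup.normalizer (Q : Set X) ⧸
        Q.subgroupOf (Subgroup.normalizer (Q : Set X))) := Nat.card_pos
    rw [h2] at h1
    nlinarith
  have hl0 : 0 < ℓ := (Fact.out : ℓ.Prime).pos
  refine hIh _ hcard f₁ hf₁ V' hV' (hCl' hClD) ⟨z ^ ℓ ^ (a - a₀), pow_mem hzV _, ?_⟩
  have h5 : ℓ ^ (a - a₀) ∣ orderOf z := by
    rw [hzo]
    exact pow_dvd_pow _ (Nat.sub_le _ _)
  rw [orderOf_pow_of_dvd (pow_pos hl0 _).ne' h5, hzo, Nat.pow_div (Nat.sub_le _ _) hl0]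
  congr 1
  omega

theorem txp (zcf : ZcfStmt) (ctq : CtqStmt) (pqz : PqzStmt) (pmx : PmxStmt) : TxpStmt := by
  intro ℓ _ M _ hM G _ _ a p r a₀ e V hH hCl f hf ha₀ hIh U hUdef Q hQ hQb hno
  classical
  have ha : 0 < a := Nat.zero_lt_of_lt hH.lt
  obtain ⟨⟨zle, zcen, zab, znor, zconj, zsub⟩, zU, zCl, -⟩ := zcf G V
  have hfB := hf.blk
  have hfnle := hf.nle
  have hftp := hf.tp
  rw [← hUdef] at hfB hfnle hftp
  have hVX : V ≤ Subgroup.normalizer (U : Set G) := Subgroup.le_normalizer.trans hfnle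
  have hcl : Cl ℓ r p (V.subgroupOf (Subgroup.normalizer (U : Set G))) :=
    (zCl ℓ r p hCl).2.2 _ hVX
  have hexp : Monoid.exponent (Zc (V.subgroupOf (Subgroup.normalizer (U : Set G)))) = ℓ ^ a := by
    rw [zsub _ hVX, ← hH.exp]
    exact Monoid.exponent_eq_of_mulEquiv (Subgroup.subgroupOfEquivOfLe (zle.trans hVX))
  have hUX : Uz ℓ a (V.subgroupOf (Subgroup.normalizer (U : Set G))) =
      U.subgroupOf (Subgroup.normalizer (U : Set G)) := by
    rw [(zU ℓ a).2.2.2.2.1 _ hVX, ← hUdef]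
  refine tx_aux zcf ctq pqz pmx hM ha ha₀ hfB.blk hftp hcl hexp ?_
    (Subgroup.card_le_card_group _) hIh hQ hQb ?_
  · intro g
    rw [hUX]
    ext t
    rw [T3.H62.mem_conjS, Subgroup.mem_subgroupOf, Subgroup.mem_subgroupOf]
    have h1 := Subgroup.mem_normalizer_iff.1 (inv_mem g.2) (t : G)
    rw [inv_inv] at h1
    exact h1.symm
  · rw [hUX]
    rintro ⟨h1, h2⟩
    refine hno ⟨h1, ?_⟩
    intro x hx
    rw [Subgroup.mem_subgroupOf, Subgroup.mem_centralizer_iff]
    intro v hv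
    have h3 := Subgroup.mem_centralizer_iff.1 (h2 hx)
      ⟨v, Subgroup.le_normalizer hv⟩ (Subgroup.mem_subgroupOf.2 hv)
    exact congrArg Subtype.val h3

end Pool.Agent.PP.TP.H81
end
end -- Pool.Agent.Helper81_ATP.TXP

section -- Pool.Agent.Helper94_ATP.FSP

/-!
# Squad ATP, row FSP: the block `f` of `N(U)`
-/

open scoped BigOperators

set_option autoImplicit false

noncomputable section

namespace Pool.Agent.PP.TP.H94

open Pool.Agent.Helper51_AWC Pool.Agent.Helper79_WRA Pool.Agent.PP Pool.Agent.PP.KF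
open Pool.Agent.PP.K9 Pool.Agent.PP.K9.H97 Pool.Agent.PP.H75 Pool.Agent.PP.T3 Pool.Agent.PP.T2
open Pool.Agent.PP.TB Pool.Agent.PP.TP Pool.Agent.PP.T5.H56

attribute [local instance] Ideal.Quotient.field

theorem fsp (zcf : ZcfStmt) (fmg : FmgStmt) : FspStmt := by
  intro ℓ _ M _ hM G _ _ a p e V hL
  have hF : GoodF ℓ (FF M) := H50.fld ℓ Fact.out M hM
  obtain ⟨hz1, hz2, hz3, -⟩ := (zcf G V).2.1 ℓ a
  obtain ⟨U, hU⟩ : ∃ U : Subgroup G, U = Uz ℓ a V := ⟨_, rfl⟩
  have hUV : U ≤ V := by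
    rw [hU]
    exact hz1.trans (zcf G V).1.1
  have hUp : IsPGroup ℓ U := hL.tp.pg.to_le hUV
  -- the normaliser of `U`
  obtain ⟨X, hX⟩ : ∃ X : Subgroup G, X = Subgroup.normalizer (U : Set G) := ⟨_, rfl⟩
  have hNV : Subgroup.normalizer (V : Set G) ≤ X := by
    rw [hX, hU]
    exact hz3
  have hCUX : Subgroup.centralizer (U : Set G) ≤ X := by
    rw [hX]
    exact T3.H85.cent_le_norm U
  have hVX : V ≤ X := Subgroup.le_normalizer.trans hNV
  have hCX : Subgroup.centralizer (V : Set G) ≤ X := (T3.H85.cent_le_norm V).trans hNV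
  have hUX : U ≤ X := hUV.trans hVX
  -- the idempotent `br_U(e)` of `X`
  have hEid : IsIdem (fun t : X => br U e t) :=
    (H20.brm ℓ (FF M) hF G U X hUp hCUX (le_of_eq hX)).2.2 e hL.blk.1
  have hEX : Ix X (br U e) :=
    ⟨fun x hx => H66.br_of_not_mem (fun h => hx (hCUX h)), hEid⟩
  have hbrE : ∀ W : Subgroup G, U ≤ W → br W (br U e) = br W e := by
    intro W hUW
    funext g
    by_cases hg : g ∈ Subgroup.centralizer (W : Set G)
    · rw [H66.br_of_mem hg, H66.br_of_mem hg, H66.br_of_mem (Subgroup.centralizer_le hUW hg)]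
    · rw [H66.br_of_not_mem hg, H66.br_of_not_mem hg]
  obtain ⟨-, ⟨hbe, -⟩, -⟩ := fmg ℓ M hM G e hL.blk V hL.tp
  have hBe : Bx (Subgroup.normalizer (V : Set G)) (br V e) :=
    ⟨fun x hx => H66.br_of_not_mem (fun h => hx (T3.H85.cent_le_norm V h)), hbe⟩
  have hbe0 : br V e ≠ 0 := by
    intro h0
    apply hbe.2.1
    rw [h0]
    rfl
  -- blocks of `X` under `br_U(e)` for which `V` is good
  have key1 : ∀ f' : G → FF M, Bx X f' → mulF (br U e) f' = f' → br V f' ≠ 0 →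
      br V f' = br V e := by
    intro f' hf' hund h0
    have h1 := ix_brN hF hL.tp.pg hVX hNV hf'.ix
    have h2 : mulF (br V e) (br V f') = br V f' := by
      have h3 := congrArg (br V) hund
      rw [T2.H32.br_mul hF hL.tp.pg hVX hEX hf'.ix, hbrE V hUV] at h3
      exact h3
    rcases hBe.dich' h1 with h | h
    · rw [← h2, h]
    · exact absurd (by rw [← h2, h]) h0
  -- the block `f`
  have hext_add : ∀ a b : X → FF M, PP.ext0 X (a + b) = PP.ext0 X a + PP.ext0 X b := by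
    intro a b
    funext x
    by_cases hx : x ∈ X
    · rw [H46.ext0_of_mem _ hx, Pi.add_apply, Pi.add_apply, H46.ext0_of_mem _ hx,
        H46.ext0_of_mem _ hx]
    · rw [H46.ext0_of_not_mem _ hx, Pi.add_apply, H46.ext0_of_not_mem _ hx,
        H46.ext0_of_not_mem _ hx, add_zero]
  have hext_zero : PP.ext0 X (0 : X → FF M) = 0 := by
    funext x
    by_cases hx : x ∈ X
    · rw [H46.ext0_of_mem _ hx]
      rfl
    · rw [H46.ext0_of_not_mem _ hx]
      rfl
  have hextE : PP.ext0 X (fun t : X => br U e t) = br U e := by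
    funext x
    by_cases hx : x ∈ X
    · rw [H46.ext0_of_mem _ hx]
    · rw [H46.ext0_of_not_mem _ hx, hEX.supp x hx]
  obtain ⟨b₀, hb₀, heb₀, hL₀⟩ := K9.H24.exists_blk
    (fun a : X → FF M => br V (PP.ext0 X a))
    (by
      show br V (PP.ext0 X 0) = 0
      rw [hext_zero, T2.H32.br_zero])
    (by
      intro a b
      show br V (PP.ext0 X (a + b)) = br V (PP.ext0 X a) + br V (PP.ext0 X b)
      rw [hext_add, T2.H32.br_add])
    hEid
    (by
      show br V (PP.ext0 X (fun t : X => br U e t)) ≠ 0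
      rw [hextE, hbrE V hUV]
      exact hbe0)
  have hrestr : (fun t : X => PP.ext0 X b₀ t) = b₀ := H46.restr_ext0 _
  obtain ⟨f, hf⟩ : ∃ f : G → FF M, f = PP.ext0 X b₀ := ⟨_, rfl⟩
  rw [← hf] at hrestr
  have hfX : Bx X f := by
    refine ⟨fun x hx => ?_, ?_⟩
    · rw [hf]
      exact H46.ext0_of_not_mem _ hx
    · rw [hrestr]
      exact hb₀
  have hund : mulF (br U e) f = f := by
    apply H75.eq_of_res (H75.mulF_supp X hEX.supp hfX.supp) hfX.supp
    rw [H75.mulF_res X f hEX.supp, hrestr]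
    exact heb₀
  have hbf : br V f = br V e := key1 f hfX hund (by rw [hf]; exact hL₀)
  have hsupp : ∀ x, x ∉ Subgroup.centralizer (U : Set G) → f x = 0 := by
    intro x hx
    rw [← T2.H32.supp_cent hF hUp hUX hCUX (le_of_eq hX) hfX.ix]
    exact H66.br_of_not_mem hx
  -- good subgroups
  have hVcard : Nat.card (V.subgroupOf X) = Nat.card V :=
    Nat.card_congr (Subgroup.subgroupOfEquivOfLe hVX).toEquiv
  have hVp : IsPGroup ℓ (V.subgroupOf X) :=
    hL.tp.pg.of_equiv (Subgroup.subgroupOfEquivOfLe hVX).symm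
  have hgood : ∀ Q : Subgroup X,
      IsPGroup ℓ Q → Gd (fun t : X => f t) Q → Gd e (Q.map X.subtype) := by
    intro Q hQ hQf
    have hmul : mulF (fun t : X => br U e t) (fun t : X => f t) = fun t : X => f t := by
      rw [← H75.mulF_res X f hEX.supp, hund]
    obtain ⟨g, hg1, hg2⟩ := gd_map (gd_of_mul hF hEid.1 hfX.blk.1.1 hmul hQ hQf)
    refine ⟨g, hg1, ?_⟩
    intro h0
    apply hg2
    by_cases hg : g ∈ Subgroup.centralizer (U : Set G)
    · rw [H66.br_of_mem hg, h0]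
    · rw [H66.br_of_not_mem hg]
  have hTf : Tp ℓ (fun t : X => f t) (V.subgroupOf X) := by
    refine ⟨hVp, ?_, ?_⟩
    · obtain ⟨g, hg⟩ : ∃ g, br V f g ≠ 0 := by
        by_contra hcon
        push Not at hcon
        apply hbe0
        rw [← hbf]
        exact funext hcon
      have hgV : g ∈ Subgroup.centralizer (V : Set G) := by
        by_contra hcon
        exact hg (H66.br_of_not_mem hcon)
      rw [H66.br_of_mem hgV] at hg
      exact ⟨⟨g, hCX hgV⟩, (cent_sub hVX _).2 hgV, hg⟩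
    · intro Q hQ hQf
      have hcard : Nat.card (Q.map X.subtype) = Nat.card Q :=
        (Nat.card_congr (Q.equivMapOfInjective X.subtype X.subtype_injective).toEquiv).symm
      have h2 := hL.tp.mx _ (hQ.map X.subtype) (hgood Q hQ hQf)
      rw [hcard] at h2
      rw [hVcard]
      exact h2
  refine ⟨f, ?_⟩
  subst hX
  subst hU
  exact ⟨hfX, hsupp, hund, hbf, hNV, hTf⟩

end Pool.Agent.PP.TP.H94
end
end -- Pool.Agent.Helper94_ATP.FSP
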