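import Pool.Agent.Helper12_AWB.B063
import Pool.Agent.Helper12_AWB.B127
import Pool.Agent.Helper12_AWB.B170
import Pool.Agent.Helper12_AWB.B182
import Pool.Agent.Helper12_AWB.B261

/-!
# Merged copies (generated) of the modules

* `Pool.Agent.Helper53_AT8.RK1`
* `Pool.Agent.Helper41_AT3.T3A`
* `Pool.Agent.Helper17_WAX.GEN`
* `Pool.Agent.Helper38_WAT.ABR`
* `Pool.Agent.Helper39_AT6.LWD`
* `Pool.Agent.Helper84_WAX.LNW`
* `Pool.Agent.Helper33_PFC.FUW`
* `Pool.Agent.Helper44_PFC.NPH`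
* `Pool.Agent.Helper70_PFC.CBR`
* `Pool.Agent.Helper70_PFC.CJJ`
-/

set_option autoImplicit false

section -- Pool.Agent.Helper53_AT8.RK1

/-!
# Squad AT8, row RK1: an idempotent at which the character `κ` does not vanish modulo `M`
-/

set_option autoImplicit false

open scoped BigOperators

noncomputable section

namespace Pool.Agent.PP.T8.H53

open Pool.Agent.Helper51_AWC Pool.Agent.Helper79_WRA Pool.Agent.PP Pool.Agent.PP.KF
open Pool.Agent.PP.K9 Pool.Agent.PP.K9.H97 Pool.Agent.PP.H75 Pool.Agent.PP.T3 Pool.Agent.PP.T2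
open Pool.Agent.PP.T8 Pool.Agent.PP.H74
open Polynomial

attribute [local instance] Ideal.Quotient.field

/-- a large power of an element of a finite dimensional algebra in characteristic `ℓ` is a
combination of idempotents -/
theorem pow_comb {F A : Type} [Field F] [IsAlgClosed F] [Ring A] [Algebra F A]
    [FiniteDimensional F A] (ℓ : ℕ) [Fact ℓ.Prime] [CharP F ℓ] (z : A) :
    ∃ (k : ℕ) (S : Finset F) (j : F → A), (∀ β ∈ S, j β * j β = j β) ∧
      z ^ ℓ ^ k = ∑ β ∈ S, β • j β := by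
  classical
  set m := minpoly F z with hm
  have hmm : m.Monic := minpoly.monic (Algebra.IsIntegral.isIntegral z)
  have hprod : m = (m.roots.map fun a => X - C a).prod :=
    (IsAlgClosed.splits m).eq_prod_roots_of_monic hmm
  set R := m.roots.toFinset with hR
  obtain ⟨k, hk⟩ : ∃ k : ℕ, ∀ a, m.roots.count a ≤ ℓ ^ k := by
    refine ⟨m.natDegree, fun a => ?_⟩
    have h1 : m.roots.count a ≤ m.natDegree :=
      (Multiset.count_le_card _ _).trans (card_roots' m)
    exact h1.trans (Nat.lt_pow_self (Fact.out : ℓ.Prime).one_lt).le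
  have hdvd : m ∣ ∏ a ∈ R, (X - C a) ^ ℓ ^ k := by
    have h1 : m = ∏ a ∈ R, (X - C a) ^ m.roots.count a := by
      conv_lhs => rw [hprod, Finset.prod_multiset_map_count]
    conv_lhs => rw [h1]
    exact Finset.prod_dvd_prod_of_dvd _ _ fun a _ => pow_dvd_pow _ (hk a)
  have hexp : ExpChar F ℓ := ExpChar.prime Fact.out
  have hinj : Function.Injective (fun a : F => a ^ ℓ ^ k) := iterateFrobenius_inj F ℓ k
  set S := R.image (fun a : F => a ^ ℓ ^ k) with hS
  set y := z ^ ℓ ^ k with hy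
  have hA : CharP F[X] ℓ := inferInstance
  -- the separable polynomial kills `y`
  have hkill : aeval y (∏ b ∈ S, (X - C b)) = 0 := by
    have h1 : ∏ b ∈ S, (X - C b) = ∏ a ∈ R, (X - C (a ^ ℓ ^ k)) := by
      rw [hS, Finset.prod_image fun a _ b _ h => hinj h]
    have h2 : ∏ a ∈ R, (X - C a) ^ ℓ ^ k = (∏ a ∈ R, (X - C (a ^ ℓ ^ k))).comp (X ^ ℓ ^ k) := by
      rw [Polynomial.prod_comp]
      refine Finset.prod_congr rfl fun a _ => ?_
      rw [sub_comp, X_comp, C_comp, sub_pow_char_pow, C_pow]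
    have h3 : aeval z (∏ a ∈ R, (X - C a) ^ ℓ ^ k) = 0 := by
      obtain ⟨q, hq⟩ := hdvd
      rw [hq, map_mul, minpoly.aeval, zero_mul]
    rw [h1]
    rw [h2, aeval_comp, map_pow, aeval_X] at h3
    exact h3
  have hzero : ∀ p : F[X], (∀ b ∈ S, p.eval b = 0) → aeval y p = 0 := by
    intro p hp
    have h1 : ∏ b ∈ S, (X - C b) ∣ p := by
      refine Finset.prod_dvd_of_coprime (fun a _ b _ h => ?_) fun b hb => ?_
      · exact pairwise_coprime_X_sub_C Function.injective_id h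
      · exact dvd_iff_isRoot.2 (hp b hb)
    obtain ⟨q, hq⟩ := h1
    rw [hq, map_mul, hkill, zero_mul]
  let L : F → F[X] := fun b => Lagrange.basis S id b
  have hL1 : ∀ b ∈ S, (L b).eval b = 1 := fun b hb =>
    Lagrange.eval_basis_self (v := id) (fun _ _ _ _ h => h) hb
  have hL2 : ∀ b ∈ S, ∀ c ∈ S, b ≠ c → (L b).eval c = 0 := fun b _ c hc h =>
    Lagrange.eval_basis_of_ne (v := id) h hc
  refine ⟨k, S, fun b => aeval y (L b), fun b hb => ?_, ?_⟩
  · have h1 := hzero (L b * L b - L b) (by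
      intro c hc
      rw [eval_sub, eval_mul]
      by_cases h : b = c
      · subst h
        rw [hL1 b hb, mul_one, sub_self]
      · rw [hL2 b hb c hc h, mul_zero, sub_self])
    rw [map_sub, map_mul] at h1
    exact sub_eq_zero.1 h1
  · have h1 := hzero (X - ∑ b ∈ S, C b * L b) (by
      intro c hc
      rw [eval_sub, eval_X, eval_finsetSum, Finset.sum_eq_single c]
      · rw [eval_mul, eval_C, hL1 c hc, mul_one, sub_self]
      · intro b hb hbc
        rw [eval_mul, hL2 b hb c hc hbc, mul_zero]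
      · intro h
        exact absurd hc h)
    rw [map_sub, aeval_X, map_sum] at h1
    have h2 : ∀ b ∈ S, aeval y (C b * L b) = b • aeval y (L b) := fun b _ => by
      rw [map_mul, aeval_C, Algebra.smul_def]
    rw [Finset.sum_congr rfl h2] at h1
    exact sub_eq_zero.1 h1

/-- the general form: a class function which commutes with the `ℓ`-power map -/
theorem rk_gen {F : Type} [Field F] [IsAlgClosed F] {ℓ : ℕ} [Fact ℓ.Prime] [CharP F ℓ] {H : Type}
    [Group H] [Fintype H] (f : H → F) (hfc : ∀ a b, f (a * b) = f (b * a))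
    (hfp : ∀ (t : H) (k : ℕ), f (t ^ ℓ ^ k) = f t ^ ℓ ^ k) (x : H → F) (hx : ∑ h, x h * f h ≠ 0) :
    ∃ j : H → F, mulF j j = j ∧ ∑ h, j h * f h ≠ 0 := by
  have hexp : ExpChar F ℓ := ExpChar.prime Fact.out
  have hpow : ∀ k : ℕ, H74.fl f (H74.ma x ^ ℓ ^ k) = (H74.fl f (H74.ma x)) ^ ℓ ^ k := by
    intro k
    have h1 := H74.fl_pow (Fact.out : ℓ.Prime) hfc x 1 k
    have h2 : (MonoidAlgebra.single (1 : H) (1 : F)) = 1 := rfl
    rw [h2, mul_one] at h1
    rw [h1, H74.fl_ma]
    have h3 : (∑ t, x t * f t) ^ ℓ ^ k = ∑ t, (x t * f t) ^ ℓ ^ k := by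
      rw [← iterateFrobenius_def, map_sum]
      rfl
    rw [h3]
    refine Finset.sum_congr rfl fun t _ => ?_
    rw [mul_one, mul_pow, hfp t k]
  have hx' : H74.fl f (H74.ma x) ≠ 0 := by
    rw [H74.fl_ma]
    exact hx
  have hfd : FiniteDimensional F (MonoidAlgebra F H) := inferInstance
  obtain ⟨k, S, j, hj, hsum⟩ := pow_comb (F := F) ℓ (H74.ma x)
  have h1 : H74.fl f (H74.ma x ^ ℓ ^ k) ≠ 0 := by
    rw [hpow]
    exact pow_ne_zero _ hx'
  rw [hsum, map_sum] at h1
  obtain ⟨β, hβ, h2⟩ := Finset.exists_ne_zero_of_sum_ne_zero h1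
  have h3 : ∀ (c : F) (z : MonoidAlgebra F H), H74.fl f (c • z) = c * H74.fl f z := by
    intro c z
    induction z using MonoidAlgebra.induction_linear with
    | zero => rw [smul_zero, map_zero, mul_zero]
    | add a b ha hb => rw [smul_add, map_add, map_add, ha, hb, mul_add]
    | single t d =>
      rw [MonoidAlgebra.smul_single, H74.fl_single, H74.fl_single, smul_eq_mul, mul_assoc]
  rw [h3] at h2
  refine ⟨fun t => (j β).coeff t, ?_, ?_⟩
  · apply H74.ma_injective
    rw [← H74.ma_mul, H74.ma_coeff, hj β hβ]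
  · have h4 := H74.fl_ma f (fun t => (j β).coeff t)
    rw [H74.ma_coeff] at h4
    rw [← h4]
    exact right_ne_zero_of_mul h2

/-- RK1 -/
theorem rk1 : Rk1Stmt := by
  intro ℓ hℓ M hM hlM H _ _ κ hκ x hx
  have hF : GoodF ℓ (FF M) := H50.fld ℓ hℓ.out M hlM
  have hch : CharP (FF M) ℓ := hF.char
  have hcl : IsAlgClosed (FF M) := hF.closed
  have hFH : Fintype H := Fintype.ofFinite H
  rw [finsum_eq_sum_of_fintype] at hx
  obtain ⟨j, hj, hj'⟩ := rk_gen (ℓ := ℓ) (fun h => rr M (κ h)) (fun a b => by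
    have h1 : κ (a * b) = κ (b * a) := by
      rw [← irr_conj hκ (b * a) a]
      congr 1
      group
    change rr M (κ (a * b)) = rr M (κ (b * a))
    rw [h1]) (fun t k => by
    change rr M (κ (t ^ ℓ ^ k)) = rr M (κ t) ^ ℓ ^ k
    rw [rr_of_int (irr_integral hκ _), rr_of_int (irr_integral hκ _)]
    exact H15.vpow ℓ M hlM H κ hκ t k) x hx
  refine ⟨j, hj, ?_⟩
  rw [finsum_eq_sum_of_fintype]
  exact hj'

end Pool.Agent.PP.T8.H53
end
end -- Pool.Agent.Helper53_AT8.RK1

section -- Pool.Agent.Helper41_AT3.T3A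

/-!
# Squad AT3, row T3A: the main theorem for block idempotents
-/

open scoped BigOperators

noncomputable section

namespace Pool.Agent.PP.T3.H41

open Pool.Agent.Helper51_AWC Pool.Agent.Helper79_WRA Pool.Agent.PP Pool.Agent.PP.KF
open Pool.Agent.PP.K9 Pool.Agent.PP.K9.H97 Pool.Agent.PP.H75

attribute [local instance] Ideal.Quotient.field

theorem t3a (hQTD : QtdStmt) (hCHA : ChaStmt) (hLBE : LbeStmt) (hDVS : DvsStmt) (hPOS : PosStmt)
    (hNVT : NvtStmt) : T3aStmt := by
  intro ℓ hℓ M _ hM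
  have hF : GoodF ℓ (FF M) := H50.fld ℓ Fact.out M hM
  suffices hmain : ∀ n : ℕ, ∀ (G : Type) [Group G] [Finite G], Nat.card G = n →
      ∀ (e : G → FF M) (V : Subgroup G) (γ : G → FF M), Ld ℓ e V γ → V ≠ ⊥ → 5 ≤ ℓ →
      3 * ix V γ ≤ ℓ → YY ℓ ⊤ e = 0 by
    intro G _ _ e V γ h1 h2 h3 h4
    exact hmain _ G rfl e V γ h1 h2 h3 h4
  intro n
  induction n using Nat.strong_induction_on with
  | _ n ih =>
  intro G _ _ hn e V γ hL hV h5 hix
  by_cases hO : opCore ℓ G = ⊥
  swap
  · exact H96.yzr ℓ (FF M) hℓ.out G ⊤ inferInstance (opCore_top_ne rfl hO) e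
  have hY : ∀ Q : Subgroup G, IsPGroup ℓ Q → Q ≠ ⊥ → Gd e Q → Nat.card Q < Nat.card V →
      YQ ℓ e Q = 0 := by
    intro Q hQ hQb hQg hQc
    have hfid : IsIdem (fun t : Subgroup.normalizer (Q : Set G) => br Q e t) :=
      (H20.brm ℓ (FF M) hF G Q (Subgroup.normalizer (Q : Set G)) hQ
        (Subgroup.centralizer_le_normalizer _) le_rfl).2.2 e hL.blk.1
    have hk : (QuotientGroup.mk' (Q.subgroupOf (Subgroup.normalizer (Q : Set G)))).ker =
      Q.subgroupOf (Subgroup.normalizer (Q : Set G)) := QuotientGroup.ker_mk' _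
    have hs := QuotientGroup.mk'_surjective (Q.subgroupOf (Subgroup.normalizer (Q : Set G)))
    unfold YQ
    refine H9.addStmt ℓ (FF M) hF _ ⊤ inferInstance _ (push_isIdem hs hfid) ?_
    intro f hf hff
    obtain ⟨V', γ', hL', hc, hi⟩ := hQTD ℓ M hM G e V γ hL Q hQ _ _ hs hk f hf hff
    have hQ1 : 1 < Nat.card Q := by
      rw [Subgroup.one_lt_card_iff_ne_bot]
      exact hQb
    refine ih _ ?_ _ rfl f V' γ' hL' ?_ h5 ((Nat.mul_le_mul_left 3 hi).trans hix)
    · have h1 := (Q.subgroupOf (Subgroup.normalizer (Q : Set G))).card_eq_card_quotient_mul_card_subgroup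
      have h2 : Nat.card (Q.subgroupOf (Subgroup.normalizer (Q : Set G))) = Nat.card Q :=
        Nat.card_congr (Subgroup.subgroupOfEquivOfLe Subgroup.le_normalizer).toEquiv
      have h3 : Nat.card (Subgroup.normalizer (Q : Set G)) ≤ n := by
        rw [← hn]
        exact Subgroup.card_le_card_group _
      have h4 : 0 < Nat.card (Subgroup.normalizer (Q : Set G) ⧸
          Q.subgroupOf (Subgroup.normalizer (Q : Set G))) := Nat.card_pos
      rw [h2] at h1
      nlinarith
    · intro hb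
      rw [hb, Subgroup.card_bot, one_mul] at hc
      omega
  have h1 := hCHA ℓ M hM G e hL.blk V hL.tp hV hY
  obtain ⟨n1, n2⟩ := hNVT ℓ M hM G e V γ hL
  have h2 := hLBE ℓ M hM G e V γ hL hV h5 hix
  have hVN : V.subgroupOf (Subgroup.normalizer (V : Set G)) ≠ ⊥ := by
    intro h
    have h3 : Nat.card (V.subgroupOf (Subgroup.normalizer (V : Set G))) = Nat.card V :=
      Nat.card_congr (Subgroup.subgroupOfEquivOfLe Subgroup.le_normalizer).toEquiv
    rw [h, Subgroup.card_bot] at h3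
    exact hV (Subgroup.card_eq_one.1 h3.symm)
  have h3 := hLBE ℓ M hM _ _ _ _ n1 hVN h5 (by rw [n2]; exact hix)
  obtain ⟨a1, -⟩ := H3.lbd ℓ M hM G e hL.blk.1 hL.blk.2.1
  obtain ⟨b1, -⟩ := H3.lbd ℓ M hM _ _ n1.blk.1 n1.blk.2.1
  have a2 : 1 ≤ ln e := a1
  have b2 : 1 ≤ ln (fun t : Subgroup.normalizer (V : Set G) => br V e t) := b1
  obtain ⟨χ, hχ, r1, -, r3⟩ := H75.block_case H20.nls H20.brm H63.smt H94.nch
    (H50.dic H20.ibn H20.nls H20.brm) H50.bid H50.chp H50.ldp H50.fld hℓ.out hM hO hL.blk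
    (hPOS ℓ (FF M) hF G e hL.blk V hL.tp.pg hV hL.tp.gd)
  have h4 := (hDVS ℓ M hM G hO e V γ hL hV χ hχ r1).2
  rw [h1] at r3
  have h7 : (Nat.card G : ℤ) ≠ 0 := by exact_mod_cast Nat.card_pos.ne'
  have h8 := mul_left_cancel₀ h7 r3
  have h9 : (ln e : ℤ) - ln (fun t : Subgroup.normalizer (V : Set G) => br V e t) = 0 := by
    rw [h8] at h4
    refine Int.eq_zero_of_abs_lt_dvd h4 ?_
    rw [abs_lt]
    omega
  rw [h1, h9, mul_zero]

end Pool.Agent.PP.T3.H41
end
end -- Pool.Agent.Helper41_AT3.T3A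

section -- Pool.Agent.Helper17_WAX.GEN

/-!
# Squad WAX, row GEN: the recursion for a class of blocks closed under quotients (copy of `Helper3_AT8/T8A.lean`)
-/

open scoped BigOperators

noncomputable section

namespace Pool.Agent.PP.TX.H17

open Pool.Agent.Helper51_AWC Pool.Agent.Helper79_WRA Pool.Agent.PP Pool.Agent.PP.KF
open Pool.Agent.PP.K9 Pool.Agent.PP.K9.H97 Pool.Agent.PP.H75 Pool.Agent.PP.T3 Pool.Agent.PP.T2
open Pool.Agent.PP.T8 (Fq FqtStmt Ts8Stmt Iq)

attribute [local instance] Ideal.Quotient.field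

theorem gen (hFQ : FqtStmt) (hFST : T2.FstStmt) (hTS : Ts8Stmt) (hDVX : T2.DvxStmt) :
    GenStmt := by
  intro ℓ hℓ M _ hM a ha P hcl hbd
  have hF : GoodF ℓ (FF M) := H50.fld ℓ Fact.out M hM
  suffices hmain : ∀ n : ℕ, ∀ (G : Type) [Group G] [Finite G], Nat.card G = n →
      ∀ (e : G → FF M) (V : Subgroup G) (γ : G → FF M), Ld ℓ e V γ →
      Monoid.exponent V = ℓ ^ a → P G e V γ → YY ℓ ⊤ e = 0 by
    intro G _ _ e V γ h1 h2 h3
    exact hmain _ G rfl e V γ h1 h2 h3
  intro n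
  induction n using Nat.strong_induction_on with
  | _ n ih =>
  intro G _ _ hn e V γ hL hexp hT
  by_cases hO : opCore ℓ G = ⊥
  swap
  · exact H96.yzr ℓ (FF M) hℓ.out G ⊤ inferInstance (opCore_top_ne rfl hO) e
  have hix : ¬ ℓ ∣ ix V γ :=
    K9.H34.inx ℓ M hM G e hL.blk V hL.tp hL.ab γ hL.gam.supp hL.gam.blk hL.und
  have hIq : Iq M ℓ a (Nat.card G) V γ := by
    intro A _ _ hA f V' γ' hL' he hπ
    exact ih (Nat.card A) (hn ▸ hA) A rfl f V' γ' hL' he
      (hcl G A e V γ f V' γ' hL hL' hπ hexp he hT)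
  obtain ⟨f, hf⟩ := hFST ℓ M hM G e V γ hL (ℓ ^ (a - 1))
  have h1 := hTS ℓ M hM G e V γ hL a ha hexp _ rfl f hf hIq
  set U : Subgroup G := Uw (ℓ ^ (a - 1)) V with hU
  have hVX : V ≤ Subgroup.normalizer (U : Set G) := Subgroup.le_normalizer.trans hf.nle
  have eV : V.subgroupOf (Subgroup.normalizer (U : Set G)) ≃* V :=
    Subgroup.subgroupOfEquivOfLe hVX
  have hfq := (hFQ ℓ (FF M) hF G e V γ hL).2.2.1 U f hf
  have hexp' : Monoid.exponent (V.subgroupOf (Subgroup.normalizer (U : Set G))) = ℓ ^ a := by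
    rw [← hexp]
    exact Monoid.exponent_eq_of_mulEquiv eV
  have hT' := hcl G _ e V γ _ _ _ hL hf.ld hfq hexp hexp' hT
  have h2 := hbd G e V γ hL hexp hT
  have h3 := hbd _ _ _ _ hf.ld hexp' hT'
  obtain ⟨a1, -⟩ := K9.H3.lbd ℓ M hM G e hL.blk.1 hL.blk.2.1
  obtain ⟨b1, -⟩ := K9.H3.lbd ℓ M hM _ _ hf.ld.blk.1 hf.ld.blk.2.1
  have a2 : 1 ≤ ln e := a1
  have b2 : 1 ≤ ln (fun t : Subgroup.normalizer (U : Set G) => f t) := b1
  obtain ⟨z, hz⟩ : ∃ z : V, orderOf z = Monoid.exponent V := by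
    let _ : CommGroup V := { (inferInstance : Group V) with
      mul_comm := fun x y => Subtype.ext (hL.ab x x.2 y y.2) }
    exact Monoid.exists_orderOf_eq_exponent (Monoid.ExponentExists.of_finite)
  have hz' : orderOf (z : G) = ℓ ^ a := by
    rw [← hexp, ← hz, Subgroup.orderOf_coe]
  have hV : V ≠ ⊥ := by
    intro hb
    have h5 : (z : G) = 1 := Subgroup.mem_bot.1 (hb ▸ z.2 : (z : G) ∈ (⊥ : Subgroup G))
    rw [h5, orderOf_one] at hz'
    have h6 : 1 < ℓ ^ a := Nat.one_lt_pow ha.ne' hℓ.out.one_lt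
    omega
  obtain ⟨χ, hχ, r1, -, r3⟩ := H75.block_case H20.nls H20.brm H63.smt H94.nch
    (H50.dic H20.ibn H20.nls H20.brm) H50.bid H50.chp H50.ldp H50.fld hℓ.out hM hO hL.blk
    (T3.H38.pos ℓ (FF M) hF G e hL.blk V hL.tp.pg hV hL.tp.gd)
  have h4 := hDVX ℓ M hM G hO e V γ hL hV χ hχ r1 z z.2
  rw [hz'] at h4
  rw [h1] at r3
  have h7 : (Nat.card G : ℤ) ≠ 0 := by exact_mod_cast Nat.card_pos.ne'
  have h8 := mul_left_cancel₀ h7 r3
  have h9 : (ln e : ℤ) - ln (fun t : Subgroup.normalizer (U : Set G) => f t) = 0 := by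
    rw [h8] at h4
    refine Int.eq_zero_of_abs_lt_dvd h4 ?_
    rw [abs_lt]
    push_cast
    have h2' : (ln e : ℤ) ≤ (ℓ : ℤ) ^ a := by exact_mod_cast h2
    have h3' : (ln (fun t : Subgroup.normalizer (U : Set G) => f t) : ℤ) ≤ (ℓ : ℤ) ^ a := by
      exact_mod_cast h3
    have a2' : (1 : ℤ) ≤ (ln e : ℤ) := by exact_mod_cast a2
    have b2' : (1 : ℤ) ≤ (ln (fun t : Subgroup.normalizer (U : Set G) => f t) : ℤ) := by
      exact_mod_cast b2
    constructor <;> linarith
  rw [h1, h9, mul_zero]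

end Pool.Agent.PP.TX.H17
end
end -- Pool.Agent.Helper17_WAX.GEN

section -- Pool.Agent.Helper38_WAT.ABR

/-!
# Squad WAT, row ABR: the theorem for blocks
-/

open scoped BigOperators

noncomputable section

namespace Pool.Agent.PP.TV.H38

open Pool.Agent.Helper51_AWC Pool.Agent.Helper79_WRA Pool.Agent.PP Pool.Agent.PP.KF
open Pool.Agent.PP.K9 Pool.Agent.PP.K9.H97 Pool.Agent.PP.H75 Pool.Agent.PP.T3 Pool.Agent.PP.T2
open Pool.Agent.PP.T5 Pool.Agent.PP.TB
open Pool.Agent.PP.T8 (Rv Fq Fr Qt3Stmt FqtStmt)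

attribute [local instance] Ideal.Quotient.field

theorem uw_one {G : Type} [Group G] (V : Subgroup G) : Uw 1 V = V := by
  unfold Uw
  have h : (fun x : G => x ^ 1) '' (V : Set G) = V := by
    ext x
    simp
  rw [h, Subgroup.closure_eq]

/-- passage to a subgroup which contains the centraliser of `V` -/
theorem fq_sub {F G : Type} [Field F] [Group G] {X V : Subgroup G}
    (hVX : V ≤ X) (hCX : Subgroup.centralizer (V : Set G) ≤ X) {γ : G → F}
    (hγ : ∀ x, x ∉ Subgroup.centralizer (V : Set G) → γ x = 0) :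
    Fq V γ (V.subgroupOf X) (fun t : X => γ t) := by
  refine ⟨(Subgroup.subgroupOfEquivOfLe hVX).symm.toMonoidHom,
    (Subgroup.subgroupOfEquivOfLe hVX).symm.surjective, ?_⟩
  intro t' ht'
  rw [T3.H85.Tg_eq hVX hCX hγ] at ht'
  refine ⟨(t' : G), ht'.1, ?_⟩
  intro v w hvw
  apply Subtype.ext
  exact hvw

/-- the elements of `V` which commute with the inertial group, in a subgroup -/
theorem zf_sub {F G : Type} [Field F] [Group G] {X V : Subgroup G}
    (hVX : V ≤ X) (hCX : Subgroup.centralizer (V : Set G) ≤ X) {γ : G → F}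
    (hγ : ∀ x, x ∉ Subgroup.centralizer (V : Set G) → γ x = 0) {z : G} (hz : z ∈ Zf V γ)
    (hzX : z ∈ X) : (⟨z, hzX⟩ : X) ∈ Zf (V.subgroupOf X) (fun t : X => γ t) := by
  refine ⟨hz.1, ?_⟩
  rw [T3.H85.Tg_eq hVX hCX hγ]
  apply Subgroup.mem_centralizer_iff.2
  intro t ht
  exact Subtype.ext (Subgroup.mem_centralizer_iff.1 hz.2 (t : G) ht.1)

/-- a central `ℓ`-element -/
theorem core_ne {ℓ : ℕ} {A : Type} [Group A] [Finite A] {V : Subgroup A} (hV : IsPGroup ℓ V)
    {z : A} (hz : z ∈ V) (h1 : z ≠ 1) (hc : ∀ a : A, a * z = z * a) : opCore ℓ A ≠ ⊥ := by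
  intro h0
  have hn : (Subgroup.zpowers z).Normal := by
    constructor
    intro n hn g
    obtain ⟨k, rfl⟩ := Subgroup.mem_zpowers_iff.1 hn
    have h2 : Commute g z := hc g
    have h3 : Commute g (z ^ k) := h2.zpow_right k
    rw [h3.eq, mul_inv_cancel_right]
    exact hn
  have hp : IsPGroup ℓ (Subgroup.zpowers z) :=
    hV.to_le (by rw [Subgroup.zpowers_le]; exact hz)
  have hle : Subgroup.zpowers z ≤ opCore ℓ A := le_sSup ⟨hn, hp⟩
  rw [h0] at hle
  exact h1 (Subgroup.mem_bot.1 (hle (Subgroup.mem_zpowers z)))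

/-- ABR -/
theorem abr (hW : WatStmt) (hT : TsnStmt) (hN : NlbStmt) (hCl : ClvStmt) (hR : Rb2Stmt)
    (hP : CpvStmt) (h8 : T8.T8aStmt) (hFs : T2.FstStmt) (hLoc : T3.LocStmt)
    (hLsb : T3.LsbStmt) (hIx : K9.InxStmt) : AbrStmt := by
  intro ℓ hℓ M _ hM
  have hF : GoodF ℓ (FF M) := H50.fld ℓ Fact.out M hM
  suffices hmain : ∀ n : ℕ, ∀ (G : Type) [Group G] [Finite G], Nat.card G = n →
      ∀ (e : G → FF M) (V : Subgroup G) (γ : G → FF M), Ld ℓ e V γ → V ≠ ⊥ →
      (RK2.Rk2 (Vc V γ) ∨ (Fc V γ ∧ ix V γ ≤ ℓ)) → YY ℓ ⊤ e = 0 by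
    intro G _ _ e V γ h1 h2 h3
    exact hmain _ G rfl e V γ h1 h2 h3
  intro n
  induction n using Nat.strong_induction_on with
  | _ n ih =>
  intro G _ _ hn e V γ hL hVb hcond
  by_cases hO : opCore ℓ G = ⊥
  swap
  · exact H96.yzr ℓ (FF M) hℓ.out G ⊤ inferInstance (opCore_top_ne rfl hO) e
  have hixg : ∀ (X : Type) [Group X] [Finite X] (e' : X → FF M) (V' : Subgroup X)
      (γ' : X → FF M), Ld ℓ e' V' γ' → ¬ ℓ ∣ ix V' γ' := by
    intro X _ _ e' V' γ' h
    exact hIx ℓ M hM X e' h.blk V' h.tp h.ab γ' h.gam.supp h.gam.blk h.und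
  have hix := hixg G e V γ hL
  have hcl : ∀ (X A : Type) [Group X] [Finite X] [Group A] [Finite A] (e' : X → FF M)
      (V' : Subgroup X) (γ' : X → FF M) (f : A → FF M) (V'' : Subgroup A) (γ'' : A → FF M),
      Ld ℓ e' V' γ' → Ld ℓ f V'' γ'' → Fq V' γ' V'' γ'' →
      (RK2.Rk2 (Vc V' γ') ∨ (Fc V' γ' ∧ ix V' γ' ≤ ℓ)) →
      (RK2.Rk2 (Vc V'' γ'') ∨ (Fc V'' γ'' ∧ ix V'' γ'' ≤ ℓ)) := by
    intro X A _ _ _ _ e' V' γ' f V'' γ'' h1 h2 h3 h4
    obtain ⟨c1, c2, c3⟩ := hCl ℓ (FF M) hF X A e' V' γ' f V'' γ'' h1 h2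
      (hixg X e' V' γ' h1) h3
    rcases h4 with h4 | ⟨h4, h5⟩
    · exact Or.inl (c1 h4)
    · exact Or.inr ⟨c2 h4, c3.trans h5⟩
  have hIu : ∀ (X : Type) [Group X] [Finite X], Nat.card X ≤ n → ∀ (e' : X → FF M)
      (V' : Subgroup X) (γ' : X → FF M), Ld ℓ e' V' γ' →
      (RK2.Rk2 (Vc V' γ') ∨ (Fc V' γ' ∧ ix V' γ' ≤ ℓ)) →
      Iu M ℓ 1 (Nat.card X) V' γ' := by
    intro X _ _ hX e' V' γ' h1 h2 A _ _ hA f V'' γ'' h3 h4 h5
    rw [uw_one] at h4
    exact ih (Nat.card A) (lt_of_lt_of_le hA hX) A rfl f V'' γ'' h3 h4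
      (hcl X A e' V' γ' f V'' γ'' h1 h3 h5 h2)
  by_cases hZ : Zf V γ = ⊥
  · -- the free case
    obtain ⟨p1, -, p3⟩ := hP ℓ (FF M) hF G e V γ hL hix
    have hVc : Vc V γ = V := by
      refine le_antisymm p1 ?_
      intro v hv
      obtain ⟨z, hz, w, hw, rfl⟩ := p3 v hv
      rw [hZ, Subgroup.mem_bot] at hz
      rw [hz, one_mul]
      exact hw
    rw [hVc] at hcond
    rcases hcond with hc | ⟨hfc, hle⟩
    · exact hR ℓ M hM G e V γ hL hVb hc
    · have hfr : Fr V γ := by
        intro t ht v hv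
        exact hfc t ht v (by rw [hVc]; exact hv)
      have hℓ2 : ℓ ≠ 2 := by
        intro h2
        have hi1 : ix V γ = 1 := by
          have h3 : ix V γ ≠ 0 := fun h => hix (by rw [h]; exact dvd_zero ℓ)
          have h4 : ix V γ ≠ 2 := fun h => hix (by rw [h, h2])
          omega
        have h5 : Tg V γ ≤ Subgroup.centralizer (V : Set G) := Subgroup.relIndex_eq_one.1 hi1
        apply hVb
        rw [← le_bot_iff, ← hZ]
        intro v hv
        refine ⟨hv, Subgroup.mem_centralizer_iff.2 ?_⟩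
        intro t ht
        exact (Subgroup.mem_centralizer_iff.1 (h5 ht) v hv).symm
      obtain ⟨k, hk⟩ := IsPGroup.iff_card.1 hL.tp.pg
      have h6 : Monoid.exponent V ∣ ℓ ^ k := by
        rw [← hk]
        exact Group.exponent_dvd_nat_card
      obtain ⟨a, -, ha⟩ := (Nat.dvd_prime_pow hℓ.out).1 h6
      have ha0 : 0 < a := by
        rcases Nat.eq_zero_or_pos a with h0 | h0
        · exfalso
          rw [h0, pow_zero, Monoid.exp_eq_one_iff] at ha
          apply hVb
          rw [Subgroup.eq_bot_iff_forall]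
          intro x hx
          exact congrArg Subtype.val (ha.elim ⟨x, hx⟩ 1)
        · exact h0
      exact h8 ℓ M hM hℓ2 a G e V γ hL (Or.inr (Or.inr ⟨ha0, ha, hfr,
        hle.trans (Nat.le_self_pow ha0.ne' ℓ)⟩))
  · -- an element of `V` which commutes with the inertial group
    obtain ⟨z, hz, hz1⟩ : ∃ z ∈ Zf V γ, z ≠ 1 := by
      by_contra hcon
      push Not at hcon
      exact hZ ((Subgroup.eq_bot_iff_forall _).2 hcon)
    have hzV : z ∈ V := hz.1
    have hne : Cu z ≠ ⊤ := by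
      intro htop
      refine core_ne hL.tp.pg hzV hz1 ?_ hO
      intro a
      have ha : a ∈ Cu z := by rw [htop]; exact Subgroup.mem_top a
      exact Subgroup.mem_centralizer_singleton_iff.1 ha
    have hlt : Nat.card (Cu z) < n := by
      rw [← hn]
      exact (Subgroup.card_le_card_group _).lt_of_ne
        (fun h => hne (Subgroup.eq_top_of_card_eq _ h))
    -- `G`
    obtain ⟨f, hf⟩ := hFs ℓ M hM G e V γ hL 1
    rw [uw_one] at hf
    have h1 := hT ℓ M hM G e V γ hL 1 V (uw_one V).symm hVb f hf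
      (hIu G hn.le e V γ hL hcond)
    obtain ⟨⟨b, hb⟩, -⟩ := hLoc ℓ (FF M) hF G e V γ hL z hzV
    have h2 := hW ℓ M hM G e V γ hL z hz b hb
    -- `N(V)`
    have hVX : V ≤ Subgroup.normalizer (V : Set G) := Subgroup.le_normalizer
    have hCX := T3.H85.cent_le_norm V
    have hzX := zf_sub hVX hCX hL.gam.supp hz (hVX hzV)
    obtain ⟨⟨c, hc⟩, -⟩ := hLoc ℓ (FF M) hF _ _ _ _ hf.ld
      (⟨z, hVX hzV⟩ : Subgroup.normalizer (V : Set G)) hzX.1
    have h3 := hW ℓ M hM _ _ _ _ hf.ld _ hzX c hc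
    -- `C(z)`
    have hVC : V ≤ Cu z := fun v hv => Subgroup.mem_centralizer_singleton_iff.2
      (hL.ab v hv z hzV)
    have hCC : Subgroup.centralizer (V : Set G) ≤ Cu z := fun g hg =>
      Subgroup.mem_centralizer_singleton_iff.2
        (Subgroup.mem_centralizer_iff.1 hg z hzV).symm
    have hLC := (hLsb ℓ M hM G e V γ hL z hzV b hb).1
    have hcondC := hcl G (Cu z) e V γ _ _ _ hL hLC (fq_sub hVC hCC hL.gam.supp) hcond
    obtain ⟨f', hf'⟩ := hFs ℓ M hM (Cu z) _ _ _ hLC 1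
    rw [uw_one] at hf'
    have hzC : (⟨z, hVC hzV⟩ : Cu z) ∈ V.subgroupOf (Cu z) := hzV
    have hz1C : (⟨z, hVC hzV⟩ : Cu z) ≠ 1 := fun h => hz1 (congrArg Subtype.val h)
    have hVCb : V.subgroupOf (Cu z) ≠ ⊥ := by
      intro h
      rw [h, Subgroup.mem_bot] at hzC
      exact hz1C hzC
    have h4 := hT ℓ M hM (Cu z) _ _ _ hLC 1 _ (uw_one _).symm hVCb f' hf'
      (hIu (Cu z) hlt.le _ _ _ hLC hcondC)
    have hOC : opCore ℓ (Cu z) ≠ ⊥ := by
      refine core_ne hLC.tp.pg hzC hz1C ?_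
      intro a
      exact Subtype.ext (Subgroup.mem_centralizer_singleton_iff.1 a.2)
    rw [H96.yzr ℓ (FF M) hℓ.out (Cu z) ⊤ inferInstance (opCore_top_ne rfl hOC) _] at h4
    have h5 := hN ℓ M hM G e V γ hL z hzV b hb V rfl f hf _ rfl c hc _ rfl f' hf'
    have h6 : (Nat.card (Cu z) : ℤ) ≠ 0 := by exact_mod_cast Nat.card_pos.ne'
    have h7 : (ln (fun t : Cu z => b t) : ℤ) -
        (ln (fun t : Subgroup.normalizer ((V.subgroupOf (Cu z) : Subgroup (Cu z)) : Set (Cu z)) =>
          f' t) : ℤ) = 0 := by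
      rcases mul_eq_zero.1 h4.symm with h | h
      · exact absurd h h6
      · exact h
    rw [h1]
    have h8' : (ln e : ℤ) - (ln (fun t : Subgroup.normalizer (V : Set G) => f t) : ℤ) = 0 := by
      rw [← h2, ← h3, h5]
      exact h7
    rw [h8', mul_zero]

end Pool.Agent.PP.TV.H38
end
end -- Pool.Agent.Helper38_WAT.ABR

section -- Pool.Agent.Helper39_AT6.LWD

/-!
# Squad AT6, row LWD: the block of the centraliser of `W`
-/

open scoped BigOperators

noncomputable section

namespace Pool.Agent.PP.T6.H39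

open Pool.Agent.Helper51_AWC Pool.Agent.Helper79_WRA Pool.Agent.PP Pool.Agent.PP.KF
open Pool.Agent.PP.K9 Pool.Agent.PP.K9.H97 Pool.Agent.PP.H75 Pool.Agent.PP.T3 Pool.Agent.PP.T2

attribute [local instance] Ideal.Quotient.field

section tools

variable {F G : Type} [Field F] [Group G] [Finite G] {ℓ : ℕ} [Fact ℓ.Prime]

/-- the restriction to the centraliser of a `p`-subgroup -/
theorem idem_cent (hF : GoodF ℓ F) {e : G → F} (he : IsIdem e) {W X : Subgroup G}
    (hW : IsPGroup ℓ W) (hX : X = Subgroup.centralizer (W : Set G)) :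
    IsIdem (fun t : X => e t) := by
  subst hX
  have hn : Subgroup.centralizer (W : Set G) ≤ Subgroup.normalizer (W : Set G) :=
    Subgroup.centralizer_le_normalizer _
  have h := (H20.brm ℓ F hF G W (Subgroup.centralizer (W : Set G)) hW le_rfl hn).2.2 e he
  have h2 : (fun t : Subgroup.centralizer (W : Set G) => br W e t) =
      fun t : Subgroup.centralizer (W : Set G) => e t := by
    funext t
    exact H66.br_of_mem t.2
  rwa [h2] at h

/-- `br_V` is multiplicative on the idempotents of a subgroup containing `V` -/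
theorem br_mulX (hF : GoodF ℓ F) {V X : Subgroup G} (hV : IsPGroup ℓ V) (hVX : V ≤ X)
    {b c : G → F} (hb : Ix X b) (hc : Ix X c) : br V (mulF b c) = mulF (br V b) (br V c) :=
  H66.br_mulF hF hV (fun p hp => (cj_eq_iff p b).1 (hb.inv (hVX hp)))
    (fun p hp => (cj_eq_iff p c).1 (hc.inv (hVX hp)))

/-- the image of an idempotent of `X` under `br_V` -/
theorem ix_brX (hF : GoodF ℓ F) {V X : Subgroup G} (hV : IsPGroup ℓ V) (hVX : V ≤ X)
    (hCX : Subgroup.centralizer (V : Set G) ≤ X) {b : G → F} (hb : Ix X b) :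
    Ix (Subgroup.centralizer (V : Set G)) (br V b) := by
  refine ⟨fun x hx => H66.br_of_not_mem hx, ?_, ?_⟩
  · intro x y
    change br V b (y * x * (y : G)⁻¹) = br V b x
    have hmem : (y : G) * x * (y : G)⁻¹ ∈ Subgroup.centralizer (V : Set G) :=
      Subgroup.mul_mem _ (Subgroup.mul_mem _ y.2 x.2) (Subgroup.inv_mem _ y.2)
    rw [H66.br_of_mem hmem, H66.br_of_mem x.2]
    exact (cj_eq_iff (y : G) b).1 (hb.inv (hCX y.2)) x
  · rw [← mulF_res (Subgroup.centralizer (V : Set G)) _ (fun x hx => H66.br_of_not_mem hx),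
      ← br_mulX hF hV hVX hb hb, hb.mul]

/-- existence of a block of `X` over `γ` -/
theorem exists_lw (hF : GoodF ℓ F) {e : G → F} {V : Subgroup G} {γ : G → F} (hL : Ld ℓ e V γ)
    {X : Subgroup G} (hVX : V ≤ X) (hCX : Subgroup.centralizer (V : Set G) ≤ X)
    (heI : IsIdem (fun t : X => e t)) : ∃ f, Bx X f ∧ mulF (br V f) γ = γ := by
  have hbrE : br V (PP.ext0 X (fun t : X => e t)) = br V e := by
    funext g
    by_cases hg : g ∈ Subgroup.centralizer (V : Set G)
    · rw [H66.br_of_mem hg, H66.br_of_mem hg, H46.ext0_of_mem _ (hCX hg)]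
    · rw [H66.br_of_not_mem hg, H66.br_of_not_mem hg]
  have hext_add : ∀ a b : X → F, PP.ext0 X (a + b) = PP.ext0 X a + PP.ext0 X b := by
    intro a b
    funext x
    by_cases hx : x ∈ X
    · rw [H46.ext0_of_mem _ hx, Pi.add_apply, Pi.add_apply, H46.ext0_of_mem _ hx,
        H46.ext0_of_mem _ hx]
    · rw [H46.ext0_of_not_mem _ hx, Pi.add_apply, H46.ext0_of_not_mem _ hx,
        H46.ext0_of_not_mem _ hx, add_zero]
  have hext_zero : PP.ext0 X (0 : X → F) = 0 := by
    funext x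
    by_cases hx : x ∈ X
    · rw [H46.ext0_of_mem _ hx]
      rfl
    · rw [H46.ext0_of_not_mem _ hx]
      rfl
  obtain ⟨b₀, hb₀, -, hL₀⟩ := H24.exists_blk
    (fun a : X → F => mulF (br V (PP.ext0 X a)) γ)
    (by
      show mulF (br V (PP.ext0 X 0)) γ = 0
      rw [hext_zero, H88.br_zero, mulF_zero_left])
    (by
      intro a b
      show mulF (br V (PP.ext0 X (a + b))) γ =
        mulF (br V (PP.ext0 X a)) γ + mulF (br V (PP.ext0 X b)) γ
      rw [hext_add, H88.br_add, H24.mulF_add_l])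
    heI
    (by
      show mulF (br V (PP.ext0 X (fun t : X => e t))) γ ≠ 0
      rw [hbrE, hL.und]
      exact hL.gam.ne)
  have hbx : Bx X (PP.ext0 X b₀) := by
    refine ⟨fun x hx => H46.ext0_of_not_mem _ hx, ?_⟩
    rw [H46.restr_ext0]
    exact hb₀
  refine ⟨PP.ext0 X b₀, hbx, ?_⟩
  have hix := ix_brX hF hL.tp.pg hVX hCX hbx.ix
  rw [hix.comm hL.gam.ix]
  rcases hL.gam.dich' hix with h | h
  · exact h
  · exfalso
    apply hL₀
    show mulF (br V (PP.ext0 X b₀)) γ = 0
    rw [hix.comm hL.gam.ix, h]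

/-- a block of `X` over `γ` is under `e` -/
theorem und_lw (hF : GoodF ℓ F) {e : G → F} {V : Subgroup G} {γ : G → F} (hL : Ld ℓ e V γ)
    {X : Subgroup G} (hVX : V ≤ X) (hCX : Subgroup.centralizer (V : Set G) ≤ X)
    (heI : IsIdem (fun t : X => e t)) {f : G → F} (hf : Bx X f) (hfg : mulF (br V f) γ = γ) :
    mulF (fun t : X => e t) (fun t : X => f t) = fun t : X => f t := by
  have hEX : Ix X (PP.ext0 X (fun t : X => e t)) := by
    refine ⟨fun x hx => H46.ext0_of_not_mem _ hx, ?_⟩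
    rw [H46.restr_ext0]
    exact heI
  have hbrE : br V (PP.ext0 X (fun t : X => e t)) = br V e := by
    funext g
    by_cases hg : g ∈ Subgroup.centralizer (V : Set G)
    · rw [H66.br_of_mem hg, H66.br_of_mem hg, H46.ext0_of_mem _ (hCX hg)]
    · rw [H66.br_of_not_mem hg, H66.br_of_not_mem hg]
  have hcomm : mulF f (PP.ext0 X (fun t : X => e t)) =
      mulF (PP.ext0 X (fun t : X => e t)) f := hf.ix.comm hEX
  rcases hf.dich' hEX with h | h
  · rw [hcomm] at h
    have h1 := mulF_res X f (a := PP.ext0 X (fun t : X => e t)) hEX.supp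
    rw [h, H46.restr_ext0] at h1
    exact h1.symm
  · exfalso
    apply hL.gam.ne
    have h1 := br_mulX hF hL.tp.pg hVX hf.ix hEX
    rw [h, H88.br_zero, hbrE] at h1
    calc γ = mulF (br V f) (mulF (br V e) γ) := by rw [hL.und, hfg]
      _ = mulF (mulF (br V f) (br V e)) γ := (mulF_assoc _ _ _).symm
      _ = 0 := by rw [← h1, mulF_zero_left]

/-- transfer of the defect group and of the inertial group -/
theorem ld_lw (hF : GoodF ℓ F) {e : G → F} {V : Subgroup G} {γ : G → F} (hL : Ld ℓ e V γ)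
    {X : Subgroup G} (hVX : V ≤ X) (hCX : Subgroup.centralizer (V : Set G) ≤ X)
    (heI : IsIdem (fun t : X => e t)) {f : G → F} (hf : Bx X f) (hfg : mulF (br V f) γ = γ) :
    Ld ℓ (fun t : X => f t) (V.subgroupOf X) (fun t : X => γ t) ∧
      ∀ t : X, t ∈ Tg (V.subgroupOf X) (fun t : X => γ t) ↔ (t : G) ∈ Tg V γ := by
  have hund := und_lw hF hL hVX hCX heI hf hfg
  have hVcard : Nat.card (V.subgroupOf X) = Nat.card V :=
    Nat.card_congr (Subgroup.subgroupOfEquivOfLe hVX).toEquiv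
  have hVp : IsPGroup ℓ (V.subgroupOf X) :=
    hL.tp.pg.of_equiv (Subgroup.subgroupOfEquivOfLe hVX).symm
  have heC : IsCl (fun t : X => e t) := fun x y => hL.blk.1.1 x y
  have hTb : Tp ℓ (fun t : X => f t) (V.subgroupOf X) := by
    refine ⟨hVp, H85.gd_of_gam hVX hCX hL.gam hfg, ?_⟩
    intro Q hQ hQb
    have h1 := gd_map (gd_of_mul hF heC hf.blk.1.1 hund hQ hQb)
    have hcard : Nat.card (Q.map X.subtype) = Nat.card Q :=
      (Nat.card_congr (Q.equivMapOfInjective X.subtype X.subtype_injective).toEquiv).symm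
    have h2 := hL.tp.mx _ (hQ.map X.subtype) h1
    rw [hcard] at h2
    rw [hVcard]
    exact h2
  refine ⟨H85.ld_of hVX hCX hL.ab hf.blk hL.gam hfg hTb, ?_⟩
  intro t
  rw [H85.Tg_eq hVX hCX hL.gam.supp, Subgroup.mem_subgroupOf]
  exact ⟨fun h => h.1, fun h => ⟨h, t.2⟩⟩

end tools

/-- row LWD -/
theorem lwd : LwdStmt := by
  intro ℓ _ M _ hM G _ _ e V γ hL W hWV
  have hF : GoodF ℓ (FF M) := H50.fld ℓ Fact.out M hM
  have hVX : V ≤ Subgroup.centralizer (W : Set G) := by
    intro x hx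
    rw [Subgroup.mem_centralizer_iff]
    intro q hq
    exact hL.ab q (hWV hq) x hx
  have hCX : Subgroup.centralizer (V : Set G) ≤ Subgroup.centralizer (W : Set G) :=
    Subgroup.centralizer_le (fun x hx => hWV hx)
  have heI := idem_cent hF hL.blk.1 (hL.tp.pg.to_le hWV) (rfl :
    Subgroup.centralizer (W : Set G) = Subgroup.centralizer (W : Set G))
  refine ⟨?_, ?_⟩
  · obtain ⟨f, h1, h2⟩ := exists_lw hF hL hVX hCX heI
    exact ⟨f, h1, h2⟩
  · intro f hf
    exact ld_lw hF hL hVX hCX heI hf.blk hf.gam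

end Pool.Agent.PP.T6.H39
end
end -- Pool.Agent.Helper39_AT6.LWD

section -- Pool.Agent.Helper84_WAX.LNW

/-!
# Squad WAX, row LNW: the reduction to `C_V(T) = 1`
-/

open scoped BigOperators

noncomputable section

namespace Pool.Agent.PP.TX.H84

open Pool.Agent.Helper51_AWC Pool.Agent.Helper79_WRA Pool.Agent.PP Pool.Agent.PP.KF
open Pool.Agent.PP.K9 Pool.Agent.PP.K9.H97 Pool.Agent.PP.H75 Pool.Agent.PP.T3 Pool.Agent.PP.T2
open Pool.Agent.PP.T5 Pool.Agent.PP.TB Pool.Agent.PP.TV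
open Pool.Agent.PP.T8 (Rv Fq Fr Ei Hk Rk Fd In Fe)

attribute [local instance] Ideal.Quotient.field

/-- a block with a central element of its defect group: the quotient -/
theorem step (hPsg : T3.PsgStmt) (hPug : K9.PugStmt) (hQt : T8.Qt3Stmt) (hFqt : T8.FqtStmt)
    {ℓ : ℕ} [hℓ : Fact ℓ.Prime] (M : Ideal (integralClosure ℤ ℂ)) [M.IsMaximal]
    (hM : (ℓ : integralClosure ℤ ℂ) ∈ M) {C : Type} [Group C] [Finite C] {e : C → FF M}
    {V : Subgroup C} {γ : C → FF M} (hL : Ld ℓ e V γ) {z : C} (hzV : z ∈ V) (hz1 : z ≠ 1)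
    (hz : ∀ x : C, x * z = z * x) :
    ∃ (A : Type) (_ : Group A) (_ : Finite A) (f : A → FF M) (V' : Subgroup A) (γ' : A → FF M),
      Nat.card A < Nat.card C ∧ Ld ℓ f V' γ' ∧ ln f = ln e ∧ Fq V γ V' γ' := by
  have hF : GoodF ℓ (FF M) := H50.fld ℓ Fact.out M hM
  let Q : Subgroup C := Subgroup.zpowers z
  have hQV : Q ≤ V := by
    rw [Subgroup.zpowers_le]
    exact hzV
  have hQc : Q ≤ Subgroup.center C := by
    rw [Subgroup.zpowers_le, Subgroup.mem_center_iff]
    exact hz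
  have hQn : Q.Normal := by
    refine ⟨fun x hx g => ?_⟩
    have h1 := Subgroup.mem_center_iff.1 (hQc hx) g
    rw [h1, mul_inv_cancel_right]
    exact hx
  let p : C →* C ⧸ Q := QuotientGroup.mk' Q
  have hp : Function.Surjective p := QuotientGroup.mk'_surjective Q
  have hker : p.ker = Q := QuotientGroup.ker_mk' Q
  have hk : IsPGroup ℓ p.ker := by
    rw [hker]
    exact hL.tp.pg.to_le hQV
  have hblk : IsBlk (push p e) :=
    hPsg ℓ (FF M) hF C (C ⧸ Q) p hp (hker.le.trans hQc) hk _ hL.blk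
  have hkV : p.ker ≤ V := by
    rw [hker]
    exact hQV
  have hcm : (V.map p).comap p = V := Subgroup.comap_map_eq_self hkV
  have hVc : Nat.card V = Nat.card p.ker * Nat.card (V.map p) := by
    have h1 := card_comap hp (V.map p)
    rw [hcm] at h1
    exact h1
  have hkpos : 0 < Nat.card p.ker := Nat.card_pos
  have htp' : Tp ℓ (push p e) (V.map p) := by
    refine ⟨hL.tp.pg.map p, ?_, ?_⟩
    · exact (hPug ℓ (FF M) hF C (C ⧸ Q) p hp hk _ hL.blk.1 _ hkV hL.tp.pg).1 hL.tp.gd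
    · intro R hR hg
      have h1 : IsPGroup ℓ (R.comap p) := (isPGroup_comap_iff hp hk R).2 hR
      have h2 : (R.comap p).map p = R := Subgroup.map_comap_eq_self_of_surjective hp R
      have h3 : Gd e (R.comap p) := by
        refine (hPug ℓ (FF M) hF C (C ⧸ Q) p hp hk _ hL.blk.1 _
          (Subgroup.ker_le_comap p R) h1).2 ?_
        rw [h2]
        exact hg
      have h4 := hL.tp.mx _ h1 h3
      rw [card_comap hp, hVc] at h4
      exact Nat.le_of_mul_le_mul_left h4 hkpos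
  -- the normaliser of `Q`
  obtain ⟨q, hq⟩ : ∃ q : Subgroup.normalizer (Q : Set C) →* C ⧸ Q,
      q = p.comp (Subgroup.normalizer (Q : Set C)).subtype := ⟨_, rfl⟩
  have hnt : Subgroup.normalizer (Q : Set C) = ⊤ := Subgroup.normalizer_eq_top Q
  have hqs : Function.Surjective q := by
    intro y
    obtain ⟨x, hx⟩ := hp y
    refine ⟨⟨x, hnt ▸ Subgroup.mem_top x⟩, ?_⟩
    rw [hq]
    exact hx
  have hqk : q.ker = Q.subgroupOf (Subgroup.normalizer (Q : Set C)) := by
    ext x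
    rw [MonoidHom.mem_ker, Subgroup.mem_subgroupOf, hq]
    have h3 : (x : C) ∈ p.ker ↔ (x : C) ∈ Q := by rw [hker]
    rw [← h3, MonoidHom.mem_ker]
    rfl
  have hbr : br Q e = e := by
    funext t
    unfold br
    rw [if_pos]
    rw [Subgroup.mem_centralizer_iff]
    intro y hy
    exact (Subgroup.mem_center_iff.1 (hQc hy) t).symm
  have hpq : push q (fun t : Subgroup.normalizer (Q : Set C) => br Q e t) = push p e := by
    classical
    have := Fintype.ofFinite C
    have := Fintype.ofFinite (Subgroup.normalizer (Q : Set C))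
    rw [hbr]
    funext y
    rw [push_eq, push_eq]
    refine Fintype.sum_bijective
      (fun x : Subgroup.normalizer (Q : Set C) => (x : C))
      ⟨Subtype.val_injective, fun g => ⟨⟨g, hnt ▸ Subgroup.mem_top g⟩, rfl⟩⟩ _ _ fun x => ?_
    rw [hq]
    rfl
  have hmap : (V.subgroupOf (Subgroup.normalizer (Q : Set C))).map q = V.map p := by
    ext y
    constructor
    · rintro ⟨x, hx, rfl⟩
      rw [hq]
      exact ⟨x, Subgroup.mem_subgroupOf.1 hx, rfl⟩
    · rintro ⟨x, hx, rfl⟩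
      refine ⟨⟨x, hnt ▸ Subgroup.mem_top x⟩, Subgroup.mem_subgroupOf.2 hx, ?_⟩
      rw [hq]
      rfl
  obtain ⟨γ', hV', hFe⟩ := hQt ℓ M hM C e V γ hL Q hQV (C ⧸ Q) q hqs hqk (push p e)
    hblk (by rw [hpq]; exact hblk.1.2) (by rw [hmap]; exact htp')
  have hFq := (hFqt ℓ (FF M) hF C e V γ hL).2.2.2 Q hQV (C ⧸ Q) q γ' hFe
  rw [hmap] at hV' hFq
  refine ⟨C ⧸ Q, inferInstance, inferInstance, push p e, V.map p, γ', ?_, hV', ?_, hFq⟩
  · have h1 : Nat.card C = Nat.card (C ⧸ Q) * Nat.card Q := Subgroup.card_eq_card_quotient_mul_card_subgroup Q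
    have h2 : 1 < Nat.card Q := by
      rw [Subgroup.one_lt_card_iff_ne_bot]
      intro h0
      apply hz1
      have : z ∈ Q := Subgroup.mem_zpowers z
      rw [h0] at this
      exact Subgroup.mem_bot.1 this
    have h3 : 0 < Nat.card (C ⧸ Q) := Nat.card_pos
    rw [h1]
    exact lt_mul_of_one_lt_right h3 h2
  · exact (cnt_push H20.nls hF hp hk _).symm

/-- LNW -/
theorem lnw (hW : TV.WatStmt) (hLoc : T3.LocStmt) (hLsb : T3.LsbStmt) (hPsg : T3.PsgStmt)
    (hQt : T8.Qt3Stmt) (hFqt : T8.FqtStmt) (hPug : K9.PugStmt) : LnwStmt := by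
  intro ℓ hℓ M _ hM
  have hF : GoodF ℓ (FF M) := H50.fld ℓ Fact.out M hM
  suffices hmain : ∀ n : ℕ, ∀ (G : Type) [Group G] [Finite G], Nat.card G = n →
      ∀ (e : G → FF M) (V : Subgroup G) (γ : G → FF M), Ld ℓ e V γ →
      ∃ (A : Type) (_ : Group A) (_ : Finite A) (f : A → FF M) (V' : Subgroup A)
        (γ' : A → FF M), Ld ℓ f V' γ' ∧ ln f = ln e ∧ Fq V γ V' γ' ∧ Zf V' γ' = ⊥ by
    intro G _ _ e V γ h
    exact hmain _ G rfl e V γ h
  intro n
  induction n using Nat.strong_induction_on with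
  | _ n ih =>
  intro G _ _ hn e V γ hL
  by_cases hZ : Zf V γ = ⊥
  · refine ⟨G, inferInstance, inferInstance, e, V, γ, hL, rfl, ?_, hZ⟩
    refine ⟨MonoidHom.id _, Function.surjective_id, ?_⟩
    intro t' ht'
    exact ⟨t', ht', fun v w hvw => hvw⟩
  · obtain ⟨z, hz, hz1⟩ : ∃ z ∈ Zf V γ, z ≠ 1 := by
      by_contra hcon
      push Not at hcon
      exact hZ ((Subgroup.eq_bot_iff_forall _).2 hcon)
    have hzV : z ∈ V := hz.1
    obtain ⟨⟨b, hb⟩, -⟩ := hLoc ℓ (FF M) hF G e V γ hL z hzV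
    have hWz := hW ℓ M hM G e V γ hL z hz b hb
    have hVC : V ≤ Cu z := fun v hv => Subgroup.mem_centralizer_singleton_iff.2
      (hL.ab v hv z hzV)
    have hCC : Subgroup.centralizer (V : Set G) ≤ Cu z := fun g hg =>
      Subgroup.mem_centralizer_singleton_iff.2
        (Subgroup.mem_centralizer_iff.1 hg z hzV).symm
    have hLC := (hLsb ℓ M hM G e V γ hL z hzV b hb).1
    have hfq := TV.H38.fq_sub hVC hCC hL.gam.supp
    have hzC : (⟨z, hVC hzV⟩ : Cu z) ∈ V.subgroupOf (Cu z) := hzV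
    have hz1C : (⟨z, hVC hzV⟩ : Cu z) ≠ 1 := fun h => hz1 (congrArg Subtype.val h)
    obtain ⟨A, _, _, f, V', γ', hlt, hA, hln, hfq'⟩ := step hPsg hPug hQt hFqt M hM hLC hzC hz1C
      (fun x => Subtype.ext (Subgroup.mem_centralizer_singleton_iff.1 x.2))
    have hlt' : Nat.card A < n := by
      rw [← hn]
      exact lt_of_lt_of_le hlt (Subgroup.card_le_card_group _)
    obtain ⟨B, _, _, f', V'', γ'', hB, hln', hfq'', hZ'⟩ := ih (Nat.card A) hlt' A rfl f V' γ' hA
    refine ⟨B, inferInstance, inferInstance, f', V'', γ'', hB, ?_, ?_, hZ'⟩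
    · rw [hln', hln, hWz]
    · have h1 := (hFqt ℓ (FF M) hF G e V γ hL).1 (Cu z) A (V.subgroupOf (Cu z))
        (fun t : Cu z => γ t) V' γ' hfq hfq'
      exact (hFqt ℓ (FF M) hF G e V γ hL).1 A B V' γ' V'' γ'' h1 hfq''

end Pool.Agent.PP.TX.H84
end
end -- Pool.Agent.Helper84_WAX.LNW

section -- Pool.Agent.Helper33_PFC.FUW

/-!
# Squad PFC, row FUW: the inertial group controls the fusion of the subgroups of `V`
-/

open scoped BigOperators

noncomputable section

namespace Pool.Agent.PFC.H33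

open Pool.Agent.Helper51_AWC Pool.Agent.Helper79_WRA Pool.Agent.PP Pool.Agent.PP.KF
open Pool.Agent.PP.K9 Pool.Agent.PP.K9.H97 Pool.Agent.PP.H75 Pool.Agent.PP.T3 Pool.Agent.PP.T2

attribute [local instance] Ideal.Quotient.field

/-- FUW -/
theorem fuw : FuwStmt := by
  intro ℓ _ M _ hM G _ _ e V γ hL Q Q' hQV hQV' b b' hb hb' g hg hgb
  have hVC : V ≤ Subgroup.centralizer (Q : Set G) := fun v hv =>
    Subgroup.mem_centralizer_iff.2 fun u hu => hL.ab u (hQV hu) v hv
  have hVC' : V ≤ Subgroup.centralizer (Q' : Set G) := fun v hv =>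
    Subgroup.mem_centralizer_iff.2 fun u hu => hL.ab u (hQV' hu) v hv
  have hXC : Subgroup.centralizer (V : Set G) ≤ Subgroup.centralizer (Q : Set G) :=
    Subgroup.centralizer_le hQV
  have hXN : Subgroup.centralizer (V : Set G) ≤ Subgroup.normalizer (V : Set G) :=
    Subgroup.centralizer_le_normalizer _
  obtain ⟨hLb, -⟩ := (T6.H39.lwd ℓ M hM G e V γ hL Q hQV).2 b hb
  obtain ⟨hf1, ⟨hf2, -⟩, -⟩ :=
    H69.fmg ℓ M hM (Subgroup.centralizer (Q : Set G)) _ hLb.blk _ hLb.tp
  -- `br_V b` is a block of `N(V) ∩ C(Q)`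
  have hext : PP.ext0 (Subgroup.centralizer (Q : Set G))
      (fun t : Subgroup.centralizer (Q : Set G) => b t) = b := by
    funext x
    by_cases hx : x ∈ Subgroup.centralizer (Q : Set G)
    · rw [H46.ext0_of_mem _ hx]
    · rw [H46.ext0_of_not_mem _ hx, hb.blk.supp x hx]
  have hbx := bx_of hVC hXC hXN hf2
  rw [hext] at hbx
  -- a good element
  obtain ⟨x, hxV, hxb⟩ : ∃ x ∈ Subgroup.centralizer (V : Set G), b' x ≠ 0 := by
    by_contra hno
    push Not at hno
    apply hL.gam.ne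
    rw [← hb'.gam]
    have h0 : br V b' = 0 := by
      funext t
      by_cases ht : t ∈ Subgroup.centralizer (V : Set G)
      · rw [H66.br_of_mem ht, hno t ht]
        rfl
      · rw [H66.br_of_not_mem ht]
        rfl
    rw [h0]
    funext t
    simp [mulF]
  -- conjugates
  have hQC : conjS g V ≤ Subgroup.centralizer (Q : Set G) := by
    intro y hy
    rw [mem_conjS] at hy
    rw [Subgroup.mem_centralizer_iff]
    intro u hu
    have hu' : g⁻¹ * u * g ∈ Q' := by
      rw [hg, show g * (g⁻¹ * u * g) * g⁻¹ = u by group]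
      exact hu
    have h1 := Subgroup.mem_centralizer_iff.1 (hVC' hy) _ hu'
    have h2 : u * y = g * ((g⁻¹ * u * g) * (g⁻¹ * y * g)) * g⁻¹ := by group
    rw [h2, h1]
    group
  set P : Subgroup (Subgroup.centralizer (Q : Set G)) :=
    (conjS g V).subgroupOf (Subgroup.centralizer (Q : Set G)) with hP
  have hQp : IsPGroup ℓ P :=
    (hL.tp.pg.map (MulAut.conj g).toMonoidHom).of_equiv (Subgroup.subgroupOfEquivOfLe hQC).symm
  have hgxg : ∀ y ∈ conjS g V, y * (g * x * g⁻¹) = (g * x * g⁻¹) * y := by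
    intro y hy
    rw [mem_conjS] at hy
    have h1 := Subgroup.mem_centralizer_iff.1 hxV _ hy
    have h2 : y * (g * x * g⁻¹) = g * ((g⁻¹ * y * g) * x) * g⁻¹ := by group
    rw [h2, h1]
    group
  have hgx : g * x * g⁻¹ ∈ Subgroup.centralizer (Q : Set G) := by
    rw [Subgroup.mem_centralizer_iff]
    intro u hu
    have h1 : u ∈ conjS g V := by
      rw [mem_conjS]
      apply hQV'
      rw [hg, show g * (g⁻¹ * u * g) * g⁻¹ = u by group]
      exact hu
    exact hgxg u h1
  have hQg : Gd (fun t : Subgroup.centralizer (Q : Set G) => b t) P := by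
    refine ⟨⟨g * x * g⁻¹, hgx⟩, ?_, ?_⟩
    · rw [Subgroup.mem_centralizer_iff]
      intro y hy
      exact Subtype.ext (hgxg y hy)
    · show b (g * x * g⁻¹) ≠ 0
      rw [← hgb]
      show b' (g⁻¹ * (g * x * g⁻¹) * g) ≠ 0
      rwa [show g⁻¹ * (g * x * g⁻¹) * g = x by group]
  obtain ⟨c, hc⟩ := hf1 P hQp hQg
  -- `n = c⁻¹ g` normalises `V`
  set n : G := (c : G)⁻¹ * g with hn
  have h4 : ∀ v ∈ V, n * v * n⁻¹ ∈ V := by
    intro v hv
    have h5 : g * v * g⁻¹ ∈ conjS g V := by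
      rw [mem_conjS, show g⁻¹ * (g * v * g⁻¹) * g = v by group]
      exact hv
    have h6 : (⟨g * v * g⁻¹, hQC h5⟩ : Subgroup.centralizer (Q : Set G)) ∈ P := h5
    have h7 := hc h6
    rw [mem_conjS] at h7
    have h8 : (c : G)⁻¹ * (g * v * g⁻¹) * c ∈ V := h7
    rwa [show n * v * n⁻¹ = (c : G)⁻¹ * (g * v * g⁻¹) * c by rw [hn]; group]
  have hnN : n ∈ Subgroup.normalizer (V : Set G) := by
    have h9 : conjS n V = V := by
      apply Subgroup.eq_of_le_of_card_ge
      · intro y hy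
        rw [mem_conjS] at hy
        have := h4 _ hy
        rwa [show n * (n⁻¹ * y * n) * n⁻¹ = y by group] at this
      · exact (Nat.card_congr (V.equivMapOfInjective (MulAut.conj n).toMonoidHom
          (MulAut.conj n).injective).toEquiv).le
    rw [Subgroup.mem_normalizer_iff]
    intro v
    conv_rhs => rw [← h9]
    rw [mem_conjS, show n⁻¹ * (n * v * n⁻¹) * n = v by group]
  have hcu : ∀ u ∈ Q, u * (c : G) = c * u := fun u hu =>
    Subgroup.mem_centralizer_iff.1 c.2 u hu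
  have hnu : ∀ u' ∈ Q', n * u' * n⁻¹ = g * u' * g⁻¹ := by
    intro u' hu'
    have h1 : n * u' * n⁻¹ = (c : G)⁻¹ * ((g * u' * g⁻¹) * c) := by rw [hn]; group
    rw [h1, hcu _ ((hg u').1 hu')]
    group
  have hnb : H75.cj n b' = b := by
    rw [hn, ← cj_cj, hgb]
    exact hb.blk.ix.inv (inv_mem c.2)
  -- the block `cj n γ`
  have hnγ : Bx (Subgroup.centralizer (V : Set G)) (H75.cj n γ) :=
    hL.gam.cj (T3.H79.norm_cent V hnN)
  have hbn : mulF (br V b) (H75.cj n γ) = H75.cj n γ := by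
    have h1 := congrArg (H75.cj n) hb'.gam
    rw [cj_mulF, T3.H79.cj_br hnN, hnb] at h1
    exact h1
  obtain ⟨m, hm, hmn⟩ := H97.orb_main
    (N := Subgroup.normalizer (V : Set G) ⊓ Subgroup.centralizer (Q : Set G))
    (X := Subgroup.centralizer (V : Set G)) (le_inf hXN hXC)
    (inf_le_left.trans (T3.H79.norm_cent V)) hbx hL.gam hnγ hb.gam hbn
  refine ⟨m⁻¹ * n, ⟨Subgroup.mul_mem _ (inv_mem hm.1) hnN, ?_⟩, ?_⟩
  · have h1 : H75.cj (m⁻¹ * n) γ = γ := by
      rw [← cj_cj, hmn, cj_inv_cj]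
    exact (cj_eq_iff _ _).1 h1
  · intro u' hu'
    have hmu := Subgroup.mem_centralizer_iff.1 hm.2 _ ((hg u').1 hu')
    have h1 : m⁻¹ * n * u' * (m⁻¹ * n)⁻¹ = m⁻¹ * ((n * u' * n⁻¹) * m) := by group
    rw [h1, hnu u' hu', hmu]
    group

end Pool.Agent.PFC.H33
end
end -- Pool.Agent.Helper33_PFC.FUW

section -- Pool.Agent.Helper44_PFC.NPH

/-!
# Squad PFC, row NPH: a modular character vanishes at the nilpotent elements
-/

set_option autoImplicit false

open scoped BigOperators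

noncomputable section

namespace Pool.Agent.PFC.H44

open Pool.Agent.Helper51_AWC Pool.Agent.Helper79_WRA Pool.Agent.PP Pool.Agent.PP.KF
open Pool.Agent.PP.K9 Pool.Agent.PP.K9.H97 Pool.Agent.PP.H75 Pool.Agent.PP.T3 Pool.Agent.PP.T2
open Pool.Agent.PP.T8 (Fr rs pw)

attribute [local instance] Ideal.Quotient.field

theorem ma_pw {F H : Type} [Field F] [Group H] [Fintype H] (x : H → F) (n : ℕ) :
    PP.H74.ma (pw x n) = PP.H74.ma x ^ n := by
  induction n with
  | zero =>
    rw [pow_zero]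
    apply MonoidAlgebra.ext
    apply Finsupp.ext
    intro t
    rw [PP.H74.coeff_ma, MonoidAlgebra.one_def, MonoidAlgebra.coeff_single]
    by_cases h : t = 1
    · subst h
      unfold pw
      simp
    · unfold pw
      rw [if_neg h]
      simp [Ne.symm h]
  | succ n ih =>
    show PP.H74.ma (mulF x (pw x n)) = _
    rw [← PP.H74.ma_mul, ih, pow_succ']

/-- the general form -/
theorem gen {F : Type} [Field F] {ℓ : ℕ} [Fact ℓ.Prime] [CharP F ℓ] {H : Type}
    [Group H] [Fintype H] (f : H → F) (hfc : ∀ a b, f (a * b) = f (b * a))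
    (hfp : ∀ (t : H) (k : ℕ), f (t ^ ℓ ^ k) = f t ^ ℓ ^ k) (x : H → F) (n : ℕ)
    (hx : pw x n = 0) : ∑ h, x h * f h = 0 := by
  have hexp : ExpChar F ℓ := ExpChar.prime Fact.out
  have hpow : ∀ k : ℕ, PP.H74.fl f (PP.H74.ma x ^ ℓ ^ k) =
      (PP.H74.fl f (PP.H74.ma x)) ^ ℓ ^ k := by
    intro k
    have h1 := PP.H74.fl_pow (Fact.out : ℓ.Prime) hfc x 1 k
    have h2 : (MonoidAlgebra.single (1 : H) (1 : F)) = 1 := rfl
    rw [h2, mul_one] at h1
    rw [h1, PP.H74.fl_ma]
    have h3 : (∑ t, x t * f t) ^ ℓ ^ k = ∑ t, (x t * f t) ^ ℓ ^ k := by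
      rw [← iterateFrobenius_def, map_sum]
      rfl
    rw [h3]
    refine Finset.sum_congr rfl fun t _ => ?_
    rw [mul_one, mul_pow, hfp t k]
  have h0 : PP.H74.ma x ^ n = 0 := by
    rw [← ma_pw, hx, PP.H74.ma_zero]
  have hn : n ≤ ℓ ^ n := (Nat.lt_pow_self (Fact.out : ℓ.Prime).one_lt).le
  have h1 : PP.H74.ma x ^ ℓ ^ n = 0 := pow_eq_zero_of_le hn h0
  have h2 := hpow n
  rw [h1, map_zero] at h2
  have h3 : PP.H74.fl f (PP.H74.ma x) = 0 :=
    (pow_eq_zero_iff (pow_ne_zero n (Fact.out : ℓ.Prime).ne_zero)).mp h2.symm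
  rwa [PP.H74.fl_ma] at h3

theorem nph : NphStmt := by
  intro ℓ hℓ M hM hlM H _ _ κ hκ
  have hF : GoodF ℓ (FF M) := H50.fld ℓ hℓ.out M hlM
  have hch : CharP (FF M) ℓ := hF.char
  have hFH : Fintype H := Fintype.ofFinite H
  have hfc : ∀ a b : H, rr M (κ (a * b)) = rr M (κ (b * a)) := by
    intro a b
    have h1 : κ (a * b) = κ (b * a) := by
      rw [← irr_conj hκ (b * a) a]
      congr 1
      group
    rw [h1]
  have hfp : ∀ (t : H) (k : ℕ), rr M (κ (t ^ ℓ ^ k)) = rr M (κ t) ^ ℓ ^ k := by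
    intro t k
    rw [rr_of_int (irr_integral hκ _), rr_of_int (irr_integral hκ _)]
    exact H15.vpow ℓ M hlM H κ hκ t k
  constructor
  · intro x n hx
    rw [finsum_eq_sum_of_fintype]
    exact gen (ℓ := ℓ) (fun h => rr M (κ h)) hfc hfp x n hx
  · intro a b
    rw [finsum_eq_sum_of_fintype, finsum_eq_sum_of_fintype]
    have h1 := PP.H74.fl_mul_comm (f := fun h => rr M (κ h)) hfc (PP.H74.ma a) (PP.H74.ma b)
    rw [PP.H74.ma_mul, PP.H74.ma_mul, PP.H74.fl_ma, PP.H74.fl_ma] at h1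
    exact h1

end Pool.Agent.PFC.H44
end
end -- Pool.Agent.Helper44_PFC.NPH

section -- Pool.Agent.Helper70_PFC.CBR

/-!
# Squad PFC, row CBR: the Brauer map of the corner
-/

open scoped BigOperators

noncomputable section

namespace Pool.Agent.PFC.H70

open Pool.Agent.Helper51_AWC Pool.Agent.Helper79_WRA Pool.Agent.PP Pool.Agent.PP.KF
open Pool.Agent.PP.K9 Pool.Agent.PP.K9.H97 Pool.Agent.PP.H75 Pool.Agent.PP.T3 Pool.Agent.PP.T2
open Pool.Agent.PP.T8 (Fr rs pw)

attribute [local instance] Ideal.Quotient.field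

section res

variable {F G : Type} [Field F] [Group G] [Finite G]

/-- sums over the group of invariant functions -/
theorem sum_inv {ℓ : ℕ} (hℓ : ℓ.Prime) (hF : CharP F ℓ) {P : Subgroup G} (hP : IsPGroup ℓ P)
    (h : G → F) (hh : ∀ p ∈ P, ∀ t, h (p * t * p⁻¹) = h t) :
    ∑ᶠ t, h t = ∑ᶠ t : Subgroup.centralizer (P : Set G), h t := by
  have h1 := H74.orb ℓ F F P (CT G) hℓ hF hP (fun t => h t.val) (fun r t => hh r r.2 t.val)
  have h2 : ∑ᶠ t : Subgroup.centralizer (P : Set G), h t =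
      ∑ᶠ (t : G) (_ : t ∈ (Subgroup.centralizer (P : Set G) : Set G)), h t :=
    finsum_set_coe_eq_finsum_mem _
  rw [h2, ← finsum_comp_equiv (ctE G)]
  refine h1.trans ?_
  rw [← finsum_comp_equiv (ctE G)]
  apply finsum_congr
  intro t
  have h3 := propext (ct_fixed P t.val)
  exact congrArg (fun p : Prop => ∑ᶠ (_ : p), h t.val) h3

/-- the restriction to the centraliser is multiplicative on invariant elements -/
theorem res_mulF {ℓ : ℕ} (hℓ : ℓ.Prime) (hF : CharP F ℓ) {P : Subgroup G} (hP : IsPGroup ℓ P)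
    {a c : G → F} (ha : ∀ p ∈ P, ∀ t, a (p * t * p⁻¹) = a t)
    (hc : ∀ p ∈ P, ∀ t, c (p * t * p⁻¹) = c t) :
    (fun t : Subgroup.centralizer (P : Set G) => mulF a c t) =
      mulF (fun t : Subgroup.centralizer (P : Set G) => a t)
        (fun t : Subgroup.centralizer (P : Set G) => c t) := by
  funext x
  unfold mulF
  rw [sum_inv hℓ hF hP (fun t => a t * c (t⁻¹ * x))]
  · rfl
  · intro p hp t
    rw [ha p hp t]
    congr 1
    rw [← hc p hp (t⁻¹ * x)]
    congr 1
    have h2 := Subgroup.mem_centralizer_iff.1 x.2 p hp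
    have h3 : p⁻¹ * (x : G) = x * p⁻¹ := by
      rw [inv_mul_eq_iff_eq_mul, ← mul_assoc, h2, mul_inv_cancel_right]
    calc (p * t * p⁻¹)⁻¹ * (x : G) = p * t⁻¹ * (p⁻¹ * x) := by group
      _ = p * (t⁻¹ * x) * p⁻¹ := by rw [h3]; group

theorem inv_mulF {g : G} {a c : G → F} (ha : ∀ t, a (g * t * g⁻¹) = a t)
    (hc : ∀ t, c (g * t * g⁻¹) = c t) : ∀ t, mulF a c (g * t * g⁻¹) = mulF a c t := by
  have h1 : mulF (dl F g) (mulF a c) = mulF (mulF a c) (dl F g) := by
    rw [← H20.mulF_assoc, dl_comm ha, H20.mulF_assoc, dl_comm hc, ← H20.mulF_assoc]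
  intro t
  have h2 := congrFun h1 (g * t)
  rw [mulF_dl_l, mulF_dl_r] at h2
  simp only [inv_mul_cancel_left] at h2
  exact h2.symm

end res

/-- CBR -/
theorem cbr (hCps : CpsStmt) : CbrStmt := by
  intro ℓ hℓ F _ hchar G W _ _ _ _ ι hι hW j hj hv Q
  let P : Subgroup G := Q.map ι
  have hP : IsPGroup ℓ P := (hW.to_subgroup Q).map ι
  have hjP : ∀ p ∈ P, ∀ t, j (p * t * p⁻¹) = j t := by
    rintro p ⟨w, -, rfl⟩ t
    exact hv w t
  have hPC : P ≤ Subgroup.centralizer (P : Set G) := by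
    rintro p ⟨w, -, rfl⟩
    rw [Subgroup.mem_centralizer_iff]
    rintro p' ⟨w', -, rfl⟩
    rw [← map_mul, mul_comm, map_mul]
  have hc : mulF (fun t : Subgroup.centralizer (P : Set G) => j t)
      (fun t : Subgroup.centralizer (P : Set G) => j t) =
      (fun t : Subgroup.centralizer (P : Set G) => j t) := by
    rw [← res_mulF hℓ.out hchar hP hjP hjP, hj]
  -- the elements of the centraliser are invariant
  have hinv : ∀ a : Cz F (jal hj ι hv) Q, ∀ p ∈ P, ∀ t,
      cv (a : Crn hj) (p * t * p⁻¹) = cv (a : Crn hj) t := by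
    rintro a p ⟨w, hw, rfl⟩ t
    have h1 : jal hj ι hv w * (a : Crn hj) = (a : Crn hj) * jal hj ι hv w :=
      (Subalgebra.mem_centralizer_iff F).1 a.2 _ ⟨w, hw, rfl⟩
    have h2 := congrArg cv h1
    rw [cv_mul, cv_mul, cv_jal, H20.mulF_assoc, cv_l, dl_comm (hv w), ← H20.mulF_assoc, cv_r,
      mulF_dl_l, mulF_dl_r] at h2
    have h3 := congrFun h2 (ι w * t)
    simp only [inv_mul_cancel_left] at h3
    exact h3.symm
  have hmem : ∀ a : Cz F (jal hj ι hv) Q,
      mulF (fun t : Subgroup.centralizer (P : Set G) => j t)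
        (fun t : Subgroup.centralizer (P : Set G) => cv (a : Crn hj) t) =
        (fun t : Subgroup.centralizer (P : Set G) => cv (a : Crn hj) t) ∧
      mulF (fun t : Subgroup.centralizer (P : Set G) => cv (a : Crn hj) t)
        (fun t : Subgroup.centralizer (P : Set G) => j t) =
        (fun t : Subgroup.centralizer (P : Set G) => cv (a : Crn hj) t) := by
    intro a
    rw [← res_mulF hℓ.out hchar hP hjP (hinv a), ← res_mulF hℓ.out hchar hP (hinv a) hjP, cv_l,
      cv_r]
    exact ⟨rfl, rfl⟩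
  let β₀ : Cz F (jal hj ι hv) Q →ₗ[F] Crn hc :=
    { toFun := fun a => mkc hc (fun t => cv (a : Crn hj) t) (hmem a)
      map_add' := fun a b => rfl
      map_smul' := fun c a => rfl }
  have hβ₀ : ∀ a t, cv (β₀ a) t = cv (a : Crn hj) t := fun a t => rfl
  let β : Cz F (jal hj ι hv) Q →ₐ[F] Crn hc := AlgHom.ofLinearMap β₀
    (by
      apply cv_inj
      rfl)
    (by
      intro a b
      apply cv_inj
      rw [cv_mul]
      have h1 := res_mulF hℓ.out hchar hP (hinv a) (hinv b)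
      exact h1)
  have hβ : ∀ a t, cv (β a) t = cv (a : Crn hj) t := fun a t => rfl
  refine ⟨hc, β, ?_, hβ, ?_⟩
  · intro x
    classical
    obtain ⟨x', hx'⟩ : ∃ x' : G → F, x' = fun g =>
      if h : g ∈ Subgroup.centralizer (P : Set G) then cv x ⟨g, h⟩ else 0 := ⟨_, rfl⟩
    have hxr : (fun t : Subgroup.centralizer (P : Set G) => x' t) = cv x := by
      funext t
      rw [hx']
      exact dif_pos t.2
    have hxi : ∀ p ∈ P, ∀ t, x' (p * t * p⁻¹) = x' t := by
      intro p hp t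
      by_cases ht : t ∈ Subgroup.centralizer (P : Set G)
      · have h1 : p * t * p⁻¹ = t := by
          rw [mul_inv_eq_iff_eq_mul]
          exact Subgroup.mem_centralizer_iff.1 ht p hp
        rw [h1]
      · have h1 : p * t * p⁻¹ ∉ Subgroup.centralizer (P : Set G) := by
          intro h
          apply ht
          have h2 := Subgroup.mul_mem _ (Subgroup.mul_mem _ (Subgroup.inv_mem _ (hPC hp)) h)
            (hPC hp)
          have h3 : p⁻¹ * (p * t * p⁻¹) * p = t := by group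
          rwa [h3] at h2
        rw [hx']
        simp only [dif_neg h1, dif_neg ht]
    have hai : ∀ p ∈ P, ∀ t, cv (mkj hj x') (p * t * p⁻¹) = cv (mkj hj x') t := by
      intro p hp
      rw [cv_mkj]
      exact inv_mulF (hjP p hp) (inv_mulF (hxi p hp) (hjP p hp))
    have hmemC : mkj hj x' ∈ Cz F (jal hj ι hv) Q := by
      refine (Subalgebra.mem_centralizer_iff F).2 ?_
      rintro _ ⟨w, hw, rfl⟩
      apply cv_inj
      rw [cv_mul, cv_mul, cv_jal, H20.mulF_assoc, cv_l, dl_comm (hv w), ← H20.mulF_assoc, cv_r]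
      exact dl_comm (hai (ι w) ⟨w, hw, rfl⟩)
    refine ⟨⟨mkj hj x', hmemC⟩, ?_⟩
    apply cv_inj
    funext t
    rw [hβ]
    change cv (mkj hj x') t = cv x t
    rw [cv_mkj]
    have h1 := res_mulF hℓ.out hchar hP (hxi) hjP
    have h2 := res_mulF hℓ.out hchar hP hjP
      (fun p hp => inv_mulF (hxi p hp) (hjP p hp))
    rw [h1, hxr] at h2
    have h3 := cv_r hc x
    have h4 := cv_l hc x
    rw [h3, h4] at h2
    exact congrFun h2 t
  · intro a
    have hfx : (a : Crn hj) ∈ Fx (PFC.cj F (jal hj ι hv)) Q := by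
      intro w hw
      have h1 : jal hj ι hv w * (a : Crn hj) = (a : Crn hj) * jal hj ι hv w :=
        (Subalgebra.mem_centralizer_iff F).1 a.2 _ ⟨w, hw, rfl⟩
      change jal hj ι hv w * ((a : Crn hj) * jal hj ι hv w⁻¹) = a
      rw [← mul_assoc, h1, mul_assoc, ← map_mul, mul_inv_cancel, map_one, mul_one]
    rw [(hCps ℓ F G W ι hι hW j hj hv).2.2 Q a hfx]
    constructor
    · intro h g hg
      have h1 := hβ a ⟨g, hg⟩
      rw [h] at h1
      exact h1.symm
    · intro h
      apply cv_inj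
      funext t
      rw [hβ]
      exact h t t.2

end Pool.Agent.PFC.H70
end
end -- Pool.Agent.Helper70_PFC.CBR

section -- Pool.Agent.Helper70_PFC.CJJ

/-!
# Squad PFC, row CJJ: two coherent local idempotents are conjugate
-/

open scoped BigOperators

noncomputable section

set_option linter.unusedSectionVars false

namespace Pool.Agent.PFC.H70

open Pool.Agent.Helper51_AWC Pool.Agent.Helper79_WRA Pool.Agent.PP Pool.Agent.PP.KF
open Pool.Agent.PP.K9 Pool.Agent.PP.K9.H97 Pool.Agent.PP.H75 Pool.Agent.PP.T3 Pool.Agent.PP.T2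
open Pool.Agent.PP.T8 (Fr rs pw)

attribute [local instance] Ideal.Quotient.field

section mat

variable {F : Type} [Field F] {N : ℕ}

theorem trace_single (A : Matrix (Fin N) (Fin N) F) (m i : Fin N) :
    (A * Matrix.single m i 1).trace = A i m := by
  classical
  rw [Matrix.trace, Finset.sum_eq_single i]
  · rw [Matrix.diag_apply, Matrix.mul_apply, Finset.sum_eq_single m]
    · simp [Matrix.single]
    · intro b _ hb
      simp [Matrix.single, hb.symm]
    · intro h
      exact absurd (Finset.mem_univ _) h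
  · intro b _ hb
    rw [Matrix.diag_apply, Matrix.mul_apply]
    apply Finset.sum_eq_zero
    intro x _
    simp [Matrix.single, hb.symm]
  · intro h
    exact absurd (Finset.mem_univ _) h

theorem mid_single (A B : Matrix (Fin N) (Fin N) F) (i k l m : Fin N) :
    (A * Matrix.single k l (1 : F) * B : Matrix (Fin N) (Fin N) F) i m = A i k * B l m := by
  classical
  rw [Matrix.mul_apply, Finset.sum_eq_single l]
  · rw [Matrix.mul_apply, Finset.sum_eq_single k]
    · simp [Matrix.single]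
    · intro b _ hb
      simp [Matrix.single, hb.symm]
    · intro h
      exact absurd (Finset.mem_univ _) h
  · intro b _ hb
    rw [Matrix.mul_apply, Finset.sum_eq_zero, zero_mul]
    intro x _
    simp [Matrix.single, hb.symm]
  · intro h
    exact absurd (Finset.mem_univ _) h

theorem exists_trace {P P' : Matrix (Fin N) (Fin N) F} (hP : P ≠ 0) (hP' : P' ≠ 0) :
    ∃ X Y : Matrix (Fin N) (Fin N) F, (P * (X * (P' * Y))).trace ≠ 0 := by
  classical
  obtain ⟨i, k, hik⟩ : ∃ i k, P i k ≠ 0 := by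
    by_contra h
    push Not at h
    exact hP (by ext i k; exact h i k)
  obtain ⟨l, m, hlm⟩ : ∃ l m, P' l m ≠ 0 := by
    by_contra h
    push Not at h
    exact hP' (by ext i k; exact h i k)
  refine ⟨Matrix.single k l 1, Matrix.single m i 1, ?_⟩
  rw [← Matrix.mul_assoc, ← Matrix.mul_assoc, trace_single, mid_single]
  exact mul_ne_zero hik hlm

end mat

section alg

variable {F G : Type} [Field F] [Group G] [Finite G]

theorem dl_one_mul (a : G → F) : mulF (dl F (1 : G)) a = a := by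
  rw [mulF_dl_l]
  funext y
  simp

theorem mul_dl_one (a : G → F) : mulF a (dl F (1 : G)) = a := by
  rw [mulF_dl_r]
  funext y
  simp

theorem pw_zero' (x : G → F) : pw x 0 = dl F (1 : G) := rfl

theorem pw_succ' (x : G → F) (n : ℕ) : pw x (n + 1) = mulF x (pw x n) := rfl

theorem pw_idem {x : G → F} (hx : mulF x x = x) : ∀ n : ℕ, pw x (n + 1) = x := by
  intro n
  induction n with
  | zero => rw [pw_succ', pw_zero', mul_dl_one]
  | succ n ih => rw [pw_succ', ih, hx]

theorem it_idem {x : G → F} (hx : mulF x x = x) : ∀ n : ℕ, (mulF x)^[n] x = x := by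
  intro n
  induction n with
  | zero => rfl
  | succ n ih => rw [Function.iterate_succ_apply', ih, hx]

theorem ev_pw {N : ℕ} (ρ : G →* Matrix (Fin N) (Fin N) F) (x : G → F) :
    ∀ n : ℕ, ev ρ (pw x (n + 1)) = ev ρ x ^ (n + 1) := by
  intro n
  induction n with
  | zero => rw [pw_succ', pw_zero', mul_dl_one, zero_add, pow_one]
  | succ n ih => rw [pw_succ', H20.ev_mulF, ih, ← pow_succ']

/-- the extension by zero of a function on the centraliser is invariant -/
theorem inv_ext {V : Subgroup G} (hV : V ≤ Subgroup.centralizer (V : Set G)) {x : G → F}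
    (hx : ∀ g, g ∉ Subgroup.centralizer (V : Set G) → x g = 0) :
    ∀ p ∈ V, ∀ t, x (p * t * p⁻¹) = x t := by
  intro p hp t
  by_cases ht : t ∈ Subgroup.centralizer (V : Set G)
  · have h1 : p * t * p⁻¹ = t := by
      rw [mul_inv_eq_iff_eq_mul]
      exact Subgroup.mem_centralizer_iff.1 ht p hp
    rw [h1]
  · have h1 : p * t * p⁻¹ ∉ Subgroup.centralizer (V : Set G) := by
      intro h
      apply ht
      have h2 := Subgroup.mul_mem _ (Subgroup.mul_mem _ (Subgroup.inv_mem _ (hV hp)) h) (hV hp)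
      have h3 : p⁻¹ * (p * t * p⁻¹) * p = t := by group
      rwa [h3] at h2
    rw [hx _ h1, hx _ ht]

theorem res_pw {ℓ : ℕ} (hℓ : ℓ.Prime) (hF : CharP F ℓ) {P : Subgroup G} (hP : IsPGroup ℓ P)
    {a : G → F} (ha : ∀ p ∈ P, ∀ t, a (p * t * p⁻¹) = a t) : ∀ n : ℕ,
    (∀ p ∈ P, ∀ t, pw a n (p * t * p⁻¹) = pw a n t) ∧
    (fun t : Subgroup.centralizer (P : Set G) => pw a n t) =
      pw (fun t : Subgroup.centralizer (P : Set G) => a t) n := by
  intro n
  induction n with
  | zero =>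
    constructor
    · intro p hp t
      rw [pw_zero']
      unfold dl
      by_cases h : t = 1
      · subst h
        simp
      · rw [if_neg h, if_neg]
        intro h'
        apply h
        rw [mul_inv_eq_one] at h'
        exact mul_eq_left.1 h'
    · funext t
      rw [pw_zero', pw_zero']
      unfold dl
      by_cases h : t = 1
      · subst h
        simp
      · rw [if_neg h, if_neg]
        intro h'
        exact h (Subtype.ext h')
  | succ n ih =>
    rw [pw_succ']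
    refine ⟨fun p hp => inv_mulF (ha p hp) (ih.1 p hp), ?_⟩
    rw [res_mulF hℓ hF hP ha ih.1, ih.2]
    rfl

end alg

/-- CJJ -/
theorem cjj (hLno : LnoStmt) (hRep : RepStmt) (hLwd : T6.LwdStmt) : CjjStmt := by
  intro ℓ hℓ M _ hM G _ _ e V γ hL j j' hj hj'
  have hF : GoodF ℓ (FF M) := H50.fld ℓ Fact.out M hM
  have hV := hL.tp.pg
  have hVC : V ≤ Subgroup.centralizer (V : Set G) := by
    intro v hv
    rw [Subgroup.mem_centralizer_iff]
    intro w hw
    exact hL.ab w hw v hv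
  -- the local block of `V` is `γ`
  have hbrγ : br V γ = γ := by
    funext t
    by_cases ht : t ∈ Subgroup.centralizer (V : Set G)
    · exact H66.br_of_mem ht
    · rw [H66.br_of_not_mem ht, hL.gam.supp t ht]
  have hLw : T6.Lw V γ V γ := ⟨hL.gam, by rw [hbrγ, hL.gam.mul]⟩
  have hLC := ((hLwd ℓ M hM G e V γ hL V le_rfl).2 γ hLw).1
  have hix : ix (V.subgroupOf (Subgroup.centralizer (V : Set G)))
      (fun t : Subgroup.centralizer (V : Set G) => γ t) = 1 := by
    rw [T3.H85.ix_eq hVC le_rfl hL.gam.supp]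
    exact Subgroup.relIndex_eq_one.2 inf_le_right
  have hln := hLno ℓ M hM (Subgroup.centralizer (V : Set G)) _ _ _ hLC hix
  obtain ⟨N, ρ, hρ, -, hnil, -⟩ := hRep ℓ (FF M) hF (Subgroup.centralizer (V : Set G)) _
    hLC.blk.1 hln
  obtain ⟨κ₀, hκ₀⟩ := T8.H14.irrE_nonempty M hLC.blk.1 hLC.blk.2.1
  -- the matrices of the idempotents are not zero
  have hne : ∀ i : G → FF M, Jd M V γ i →
      ev ρ (fun t : Subgroup.centralizer (V : Set G) => i t) ≠ 0 := by
    intro i hi h0
    have h1 := hi.lb V le_rfl γ hLw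
    have h2 : mulF (fun t : Subgroup.centralizer (V : Set G) => γ t)
        (fun t : Subgroup.centralizer (V : Set G) => i t) =
        fun t : Subgroup.centralizer (V : Set G) => i t := by
      rw [H20.mulF_comm_of_cl hLC.blk.1.1]
      have h3 := mulF_res (Subgroup.centralizer (V : Set G)) γ
        (fun x hx => H66.br_of_not_mem (a := i) hx)
      rw [h1] at h3
      have h4 : (fun t : Subgroup.centralizer (V : Set G) => br V i t) =
          fun t : Subgroup.centralizer (V : Set G) => i t := by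
        funext t
        exact H66.br_of_mem t.2
      rw [h4] at h3
      exact h3.symm
    obtain ⟨k, hk⟩ := hnil _ h2 h0
    have h5 : mulF (fun t : Subgroup.centralizer (V : Set G) => i t)
        (fun t : Subgroup.centralizer (V : Set G) => i t) =
        fun t : Subgroup.centralizer (V : Set G) => i t := by
      rw [← res_mulF hF.prime hF.char hV hi.iv hi.iv, hi.id]
    rw [it_idem h5] at hk
    apply hi.nz κ₀ hκ₀
    apply finsum_eq_zero_of_forall_eq_zero
    intro t
    have h6 := congrFun hk t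
    change i t = 0 at h6
    rw [h6, zero_mul]
  obtain ⟨X, Y, hXY⟩ := exists_trace (hne j hj) (hne j' hj')
  obtain ⟨x₀, hx₀⟩ := H33.ev_surj hρ X
  obtain ⟨y₀, hy₀⟩ := H33.ev_surj hρ Y
  -- the elements of the group ring of `G`
  obtain ⟨x, hxs, hx⟩ : ∃ x : G → FF M, (∀ g, g ∉ Subgroup.centralizer (V : Set G) → x g = 0) ∧
      (fun t : Subgroup.centralizer (V : Set G) => x t) = x₀ :=
    ⟨PP.ext0 (Subgroup.centralizer (V : Set G)) x₀, H75.ext0_supp _ x₀, by
      funext t
      exact H75.ext0_apply _ x₀ t⟩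
  obtain ⟨y, hys, hy⟩ : ∃ y : G → FF M, (∀ g, g ∉ Subgroup.centralizer (V : Set G) → y g = 0) ∧
      (fun t : Subgroup.centralizer (V : Set G) => y t) = y₀ :=
    ⟨PP.ext0 (Subgroup.centralizer (V : Set G)) y₀, H75.ext0_supp _ y₀, by
      funext t
      exact H75.ext0_apply _ y₀ t⟩
  have hxi := inv_ext hVC hxs
  have hyi := inv_ext hVC hys
  have hJ : ∀ t : G → FF M, mulF j (mulF j t) = mulF j t := fun t => by
    rw [← H20.mulF_assoc, hj.id]
  have hJ' : ∀ t : G → FF M, mulF j' (mulF j' t) = mulF j' t := fun t => by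
    rw [← H20.mulF_assoc, hj'.id]
  obtain ⟨u, hu⟩ : ∃ u, u = mulF j (mulF x (mulF j' (mulF y j))) := ⟨_, rfl⟩
  have hui : ∀ p ∈ V, ∀ t, u (p * t * p⁻¹) = u t := by
    intro p hp
    rw [hu]
    exact inv_mulF (hj.iv p hp) (inv_mulF (hxi p hp) (inv_mulF (hj'.iv p hp)
      (inv_mulF (hyi p hp) (hj.iv p hp))))
  have hju : mulF j u = u := by
    rw [hu, hJ]
  have huj : mulF u j = u := by
    rw [hu]
    simp only [H20.mulF_assoc, hj.id]
  -- `u` is not nilpotent
  have hevu : ev ρ (fun t : Subgroup.centralizer (V : Set G) => u t) =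
      ev ρ (fun t : Subgroup.centralizer (V : Set G) => j t) * (X *
        (ev ρ (fun t : Subgroup.centralizer (V : Set G) => j' t) * (Y *
          ev ρ (fun t : Subgroup.centralizer (V : Set G) => j t)))) := by
    have h1 : ∀ p ∈ V, ∀ t, mulF y j (p * t * p⁻¹) = mulF y j t :=
      fun p hp => inv_mulF (hyi p hp) (hj.iv p hp)
    have h2 : ∀ p ∈ V, ∀ t, mulF j' (mulF y j) (p * t * p⁻¹) = mulF j' (mulF y j) t :=
      fun p hp => inv_mulF (hj'.iv p hp) (h1 p hp)
    have h3 : ∀ p ∈ V, ∀ t, mulF x (mulF j' (mulF y j)) (p * t * p⁻¹) =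
        mulF x (mulF j' (mulF y j)) t := fun p hp => inv_mulF (hxi p hp) (h2 p hp)
    rw [hu, res_mulF hF.prime hF.char hV hj.iv h3, res_mulF hF.prime hF.char hV hxi h2,
      res_mulF hF.prime hF.char hV hj'.iv h1, res_mulF hF.prime hF.char hV hyi hj.iv,
      H20.ev_mulF, H20.ev_mulF, H20.ev_mulF, H20.ev_mulF, hx, hy, hx₀, hy₀]
  have hPP : ev ρ (fun t : Subgroup.centralizer (V : Set G) => j t) *
      ev ρ (fun t : Subgroup.centralizer (V : Set G) => j t) =
      ev ρ (fun t : Subgroup.centralizer (V : Set G) => j t) := by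
    rw [← H20.ev_mulF, ← res_mulF hF.prime hF.char hV hj.iv hj.iv, hj.id]
  have htr : (ev ρ (fun t : Subgroup.centralizer (V : Set G) => u t)).trace ≠ 0 := by
    rw [hevu]
    have h1 : ∀ P A B C : Matrix (Fin N) (Fin N) (FF M), P * P = P →
        (P * (A * (B * (C * P)))).trace = (P * (A * (B * C))).trace := by
      intro P A B C hP
      have h2 : P * (A * (B * (C * P))) = (P * (A * (B * C))) * P := by
        simp only [Matrix.mul_assoc]
      rw [h2, Matrix.trace_mul_comm, ← Matrix.mul_assoc, hP]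
    rw [h1 _ _ _ _ hPP]
    exact hXY
  obtain ⟨n, hn, hun⟩ := hj.lo u hui hju huj
  obtain ⟨m, rfl⟩ := Nat.exists_eq_succ_of_ne_zero hn.ne'
  have hum : pw u (m + 1) = j := by
    rcases hun with h | h
    · exact h
    · exfalso
      apply htr
      have h1 := (res_pw hF.prime hF.char hV hui (m + 1)).2
      rw [h] at h1
      have h2 := ev_pw ρ (fun t : Subgroup.centralizer (V : Set G) => u t) m
      rw [← h1] at h2
      have h3 : ev ρ (fun t : Subgroup.centralizer (V : Set G) => (0 : G → FF M) t) = 0 := by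
        unfold ev
        apply finsum_eq_zero_of_forall_eq_zero
        intro t
        change (0 : FF M) • ρ t = 0
        exact zero_smul (FF M) (ρ t)
      rw [h3] at h2
      have h4 : IsNilpotent (ev ρ (fun t : Subgroup.centralizer (V : Set G) => u t)) :=
        ⟨m + 1, h2.symm⟩
      exact (Matrix.isNilpotent_trace_of_isNilpotent h4).eq_zero
  have humi := (res_pw hF.prime hF.char hV hui m).1
  -- `j` commutes with the powers of `u`
  have hjpw : ∀ k : ℕ, mulF (mulF j (pw u k)) j = mulF j (pw u k) := by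
    intro k
    cases k with
    | zero => rw [pw_zero', mul_dl_one, hj.id]
    | succ k =>
      have h1 : ∀ k : ℕ, mulF (pw u (k + 1)) j = pw u (k + 1) := by
        intro k
        induction k with
        | zero => rw [pw_succ', pw_zero', mul_dl_one, huj]
        | succ k ih => rw [pw_succ' u (k + 1), H20.mulF_assoc, ih]
      rw [H20.mulF_assoc, h1]
  obtain ⟨a, ha⟩ : ∃ a, a = mulF j (mulF x j') := ⟨_, rfl⟩
  obtain ⟨b, hb⟩ : ∃ b, b = mulF j' (mulF y (mulF j (pw u m))) := ⟨_, rfl⟩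
  have hai : ∀ p ∈ V, ∀ t, a (p * t * p⁻¹) = a t := by
    intro p hp
    rw [ha]
    exact inv_mulF (hj.iv p hp) (inv_mulF (hxi p hp) (hj'.iv p hp))
  have hbi : ∀ p ∈ V, ∀ t, b (p * t * p⁻¹) = b t := by
    intro p hp
    rw [hb]
    exact inv_mulF (hj'.iv p hp) (inv_mulF (hyi p hp) (inv_mulF (hj.iv p hp) (humi p hp)))
  have hja : mulF j a = a := by rw [ha, hJ]
  have haj : mulF a j' = a := by
    rw [ha]
    simp only [H20.mulF_assoc, hj'.id]
  have hjb : mulF j' b = b := by rw [hb, hJ']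
  have hbj : mulF b j = b := by
    have h1 := hjpw m
    rw [H20.mulF_assoc] at h1
    rw [hb]
    simp only [H20.mulF_assoc]
    rw [h1]
  have hab : mulF a b = j := by
    rw [← hum, pw_succ']
    have h1 : mulF a b = mulF (mulF j (mulF x (mulF j' (mulF y j)))) (pw u m) := by
      rw [ha, hb]
      simp only [H20.mulF_assoc, hJ']
    rw [h1, ← hu]
  have hz : mulF (mulF b a) (mulF b a) = mulF b a := by
    rw [H20.mulF_assoc, ← H20.mulF_assoc a b a, hab, hja]
  have hzi : ∀ p ∈ V, ∀ t, mulF b a (p * t * p⁻¹) = mulF b a t :=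
    fun p hp => inv_mulF (hbi p hp) (hai p hp)
  obtain ⟨n', hn', hzn⟩ := hj'.lo (mulF b a) hzi (by rw [← H20.mulF_assoc, hjb])
    (by rw [H20.mulF_assoc, haj])
  obtain ⟨m', rfl⟩ := Nat.exists_eq_succ_of_ne_zero hn'.ne'
  rw [Nat.succ_eq_add_one, pw_idem hz] at hzn
  have hba : mulF b a = j' := by
    rcases hzn with h | h
    · exact h
    · exfalso
      have h1 : j = 0 := by
        have h2 : mulF (mulF a b) (mulF a b) = 0 := by
          rw [H20.mulF_assoc, ← H20.mulF_assoc b a b, h, mulF_zero_left, mulF_zero_right]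
        rw [hab, hj.id] at h2
        exact h2
      apply hj.nz κ₀ hκ₀
      apply finsum_eq_zero_of_forall_eq_zero
      intro t
      rw [h1]
      exact zero_mul _
  exact ⟨a, b, hai, hbi, hja, haj, hjb, hbj, hab, hba⟩

end Pool.Agent.PFC.H70
end
end -- Pool.Agent.Helper70_PFC.CJJ
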