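import Pool.Agent.Helper12_AWB.B183
import Pool.Agent.Helper12_AWB.B196
import Pool.Agent.Helper12_AWB.B213
import Pool.Agent.Helper12_AWB.B264

/-!
# Merged copies (generated) of the modules

* `Pool.Agent.Helper86_ASO.ONB`
* `Pool.Agent.Helper13_ASE.BRE`
* `Pool.Agent.Helper91_ASE.BLG`
* `Pool.Agent.Helper91_ASE.IND`
* `Pool.Agent.Helper75_PFC.Cjl`
* `Pool.Agent.Helper75_PFC.Fsn`
* `Pool.Agent.Helper75_PFC.Jcj`
* `Pool.Agent.Helper41_PSS.NKW`
* `Pool.Agent.Helper41_PSS.JNW`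
-/

set_option autoImplicit false

section -- Pool.Agent.Helper86_ASO.ONB

/-!
# Squad ASO, row ONB: a group with a normal `ℓ`-subgroup which contains its centraliser has one block
-/

open scoped BigOperators

noncomputable section

namespace Pool.Agent.PP.SO.H86

open Pool.Agent.Helper51_AWC Pool.Agent.Helper79_WRA Pool.Agent.PP Pool.Agent.PP.KF
open Pool.Agent.PP.K9 Pool.Agent.PP.K9.H97 Pool.Agent.PP.H75 Pool.Agent.PP.T3

attribute [local instance] Ideal.Quotient.field

section one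

variable {F A : Type} [Field F] [Group A]

theorem one1_one : (one1 : A → F) 1 = 1 := by
  unfold one1
  rw [if_pos rfl]

theorem one1_ne {x : A} (hx : x ≠ 1) : (one1 : A → F) x = 0 := by
  unfold one1
  rw [if_neg hx]

theorem one1_cl : IsCl (one1 : A → F) := by
  intro x y
  by_cases hx : x = 1
  · subst hx
    rw [mul_one, mul_inv_cancel]
  · have h1 : y * x * y⁻¹ ≠ 1 := by
      intro h
      apply hx
      have h2 : x = y⁻¹ * (y * x * y⁻¹) * y := by group
      rw [h2, h]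
      group
    rw [one1_ne hx, one1_ne h1]

theorem one1_mul (b : A → F) : mulF one1 b = b := by
  funext x
  unfold mulF
  rw [finsum_eq_single _ (1 : A)]
  · rw [one1_one, inv_one, one_mul, one_mul]
  · intro t ht
    rw [one1_ne ht, zero_mul]

theorem one1_idem : IsIdem (one1 : A → F) := ⟨one1_cl, one1_mul _⟩

theorem one1_ne_zero : (one1 : A → F) ≠ 0 := by
  intro h
  have h1 := congrFun h (1 : A)
  rw [one1_one] at h1
  exact one_ne_zero h1

/-- an idempotent which vanishes at all elements `≠ 1` -/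
theorem idem_dich {g : A → F} (hg : IsIdem g) (h0 : ∀ x, x ≠ 1 → g x = 0) :
    g = 0 ∨ g = one1 := by
  have h1 := congrFun hg.2 (1 : A)
  unfold mulF at h1
  rw [finsum_eq_single _ (1 : A) (fun t ht => by rw [h0 t ht, zero_mul]), inv_one, one_mul] at h1
  have h2 : g 1 * (g 1 - 1) = 0 := by
    rw [mul_sub, h1, mul_one, sub_self]
  rcases mul_eq_zero.1 h2 with h | h
  · left
    funext x
    by_cases hx : x = 1
    · rw [hx, h]
      rfl
    · rw [h0 x hx]
      rfl
  · right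
    funext x
    by_cases hx : x = 1
    · rw [hx, one1_one, sub_eq_zero.1 h]
    · rw [h0 x hx, one1_ne hx]

end one

/-- row ONB -/
theorem onb : OnbStmt := by
  intro ℓ _ M _ hM A _ _ P hP hPp hCP
  have hF : GoodF ℓ (FF M) := H50.fld ℓ Fact.out M hM
  have hdich : ∀ g : A → FF M, IsIdem g → g = 0 ∨ g = one1 := by
    intro g hg
    refine idem_dich hg fun x hx => ?_
    have hix : Ix (⊤ : Subgroup A) g := by
      refine ⟨fun x hx => absurd (Subgroup.mem_top x) hx, ?_, ?_⟩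
      · intro x y
        exact hg.1 x y
      · rw [← H75.mulF_res (⊤ : Subgroup A) g (fun x hx => absurd (Subgroup.mem_top x) hx), hg.2]
    have hnorm : (⊤ : Subgroup A) ≤ Subgroup.normalizer (P : Set A) := by
      rw [Subgroup.normalizer_eq_top]
    have hbr : br P g = g := T2.H32.supp_cent hF hPp le_top le_top hnorm hix
    by_contra hgx
    have hxC : x ∈ Subgroup.centralizer (P : Set A) := by
      by_contra h
      apply hgx
      rw [← hbr]
      exact br_out g h
    have hxP : x ∈ P := hCP hxC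
    have hreg : Reg ℓ x := by
      by_contra h
      exact hgx (H47O.osi H63.sma H74.rgl ℓ (FF M) hF A g hg x h)
    obtain ⟨n, hn⟩ := hPp ⟨x, hxP⟩
    have hn' : x ^ ℓ ^ n = 1 := by
      have h1 := congrArg Subtype.val hn
      exact h1
    apply hx
    have h2 : orderOf x ∣ ℓ ^ n := orderOf_dvd_of_pow_eq_one hn'
    have h3 : (orderOf x).Coprime (ℓ ^ n) := Nat.Coprime.pow_right n hreg
    have h4 : orderOf x = 1 := Nat.Coprime.eq_one_of_dvd h3 h2
    exact orderOf_eq_one_iff.1 h4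
  have hblk : IsBlk (one1 : A → FF M) := by
    refine ⟨one1_idem, one1_ne_zero, fun g hg => ?_⟩
    rcases hdich g hg with h | h
    · right
      rw [one1_mul, h]
    · left
      rw [one1_mul, h]
  refine ⟨hblk, ?_⟩
  ext χ
  constructor
  · intro h
    exact h.1
  · intro hχ
    refine ⟨hχ, ?_⟩
    obtain ⟨e, he, h1⟩ := H50.exists_block (M := M) hχ
    rcases hdich e he.1 with h | h
    · exact absurd h he.2.1
    · rw [← h]
      exact h1

end Pool.Agent.PP.SO.H86
end
end -- Pool.Agent.Helper86_ASO.ONB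

section -- Pool.Agent.Helper13_ASE.BRE

/-!
# Squad ASE, row BRE (helper13): the block `1 × θ` of `V₀ ⋊ S₁`
-/

set_option autoImplicit false

open scoped BigOperators

noncomputable section

namespace Pool.Agent.PP.SE.H13

open Pool.Agent.Helper51_AWC Pool.Agent.Helper79_WRA Pool.Agent.PP Pool.Agent.PP.KF
open Pool.Agent.PP.K9 Pool.Agent.PP.K9.H97 Pool.Agent.PP.H75 Pool.Agent.PP.T3 Pool.Agent.PP.SO
open Pool.Agent.PP.SD

attribute [local instance] Ideal.Quotient.field

/-- the product with a function supported in the image of an injective homomorphism -/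
theorem mulF_inj {F A K : Type} [Field F] [Group A] [Finite A] [Group K] (ι : K →* A)
    (hι : Function.Injective ι) {f : A → F} (g : A → F) (hf : ∀ a, a ∉ ι.range → f a = 0) (a : A) :
    mulF f g a = ∑ᶠ k : K, f (ι k) * g (ι k⁻¹ * a) := by
  unfold mulF
  rw [sum_sub ι.range _ (fun x hx => by rw [hf x hx, zero_mul])]
  symm
  refine finsum_eq_of_bijective ι.rangeRestrict ⟨?_, ι.rangeRestrict_surjective⟩ fun k => ?_
  · intro x y h
    exact hι (congrArg Subtype.val h)
  · rw [map_inv]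
    rfl

theorem sd_conj_left {V₀ S : Type} [CommGroup V₀] [Group S] (φ : S →* MulAut V₀)
    (x y : V₀ ⋊[φ] S) (hx : φ x.right = 1) : (y * x * y⁻¹).left = φ y.right x.left := by
  have h1 : φ (y.right * x.right) = φ y.right := by rw [map_mul, hx, mul_one]
  rw [SemidirectProduct.mul_left, SemidirectProduct.mul_left, SemidirectProduct.mul_right, h1,
    SemidirectProduct.inv_left, ← MulAut.mul_apply, ← map_mul, mul_inv_cancel, map_one,
    MulAut.one_apply, mul_comm y.left, mul_assoc, mul_inv_cancel, mul_one]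

theorem sd_conj_right {V₀ S : Type} [CommGroup V₀] [Group S] (φ : S →* MulAut V₀)
    (x y : V₀ ⋊[φ] S) : (y * x * y⁻¹).right = y.right * x.right * y.right⁻¹ := by
  rw [SemidirectProduct.mul_right, SemidirectProduct.mul_right, SemidirectProduct.inv_right]

/-- `eR` is a class function -/
theorem eR_cl {F V₀ S : Type} [Field F] [CommGroup V₀] [Group S] (φ : S →* MulAut V₀)
    {θ : S → F} (hs : ∀ x, x ∉ φ.ker → θ x = 0) (hc : IsCl θ) : IsCl (eR φ θ) := by
  intro x y
  unfold eR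
  by_cases hx : φ x.right = 1
  · rw [sd_conj_left φ x y hx, sd_conj_right, hc]
    by_cases h1 : x.left = 1
    · rw [if_pos h1, if_pos (by rw [h1, map_one])]
    · rw [if_neg h1, if_neg (fun h2 => h1 (by
        rwa [map_eq_one_iff _ (MulEquiv.injective _)] at h2))]
  · have h1 : θ x.right = 0 := hs _ (fun h => hx (MonoidHom.mem_ker.1 h))
    rw [sd_conj_right, hc, h1]
    simp only [ite_self]

/-- powers of an element which acts trivially -/
theorem sd_pow {V₀ S : Type} [CommGroup V₀] [Group S] (φ : S →* MulAut V₀)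
    (x : V₀ ⋊[φ] S) (hx : φ x.right = 1) (n : ℕ) : (x ^ n).left = x.left ^ n ∧
      (x ^ n).right = x.right ^ n := by
  induction n with
  | zero =>
    rw [pow_zero, pow_zero, pow_zero]
    exact ⟨rfl, rfl⟩
  | succ n ih =>
    rw [pow_succ, SemidirectProduct.mul_left, SemidirectProduct.mul_right, ih.1, ih.2, map_pow, hx,
      one_pow, MulAut.one_apply, pow_succ, pow_succ]
    exact ⟨rfl, rfl⟩

theorem bre_gen {ℓ : ℕ} [hℓ : Fact ℓ.Prime] {M : Ideal (integralClosure ℤ ℂ)} [M.IsMaximal]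
    (hM : (ℓ : integralClosure ℤ ℂ) ∈ M) {V₀ S A : Type} [CommGroup V₀] [Finite V₀] [Group S]
    [Finite S] [Group A] [Finite A] (φ : S →* MulAut V₀) (θ : S → FF M)
    (hex : ∀ v : V₀, v ^ ℓ = 1) (hbx : Bx φ.ker θ) (hcl : IsCl θ) (p : A →* V₀ ⋊[φ] S)
    (hp : Function.Injective p) (ι : φ.ker →* A)
    (hι : ∀ s, p (ι s) = SemidirectProduct.inr (s : S)) (η : V₀ →* A)
    (hη : ∀ v, p (η v) = SemidirectProduct.inl v) :
    IsBlk (fun a : A => eR φ θ (p a)) := by
  have hF : GoodF ℓ (FF M) := H50.fld ℓ Fact.out M hM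
  have hecl := eR_cl φ hbx.supp hcl
  obtain ⟨f, hf⟩ : ∃ f : A → FF M, f = fun a : A => eR φ θ (p a) := ⟨_, rfl⟩
  rw [← hf]
  have hιi : Function.Injective ι := by
    intro s t h
    have h1 := congrArg p h
    rw [hι, hι] at h1
    exact Subtype.ext (SemidirectProduct.inr_injective h1)
  have hfι : ∀ s : φ.ker, f (ι s) = θ s := by
    intro s
    rw [hf]
    change eR φ θ (p (ι s)) = θ s
    rw [hι]
    unfold eR
    rw [if_pos (SemidirectProduct.left_inr _), SemidirectProduct.right_inr]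
  -- elements outside of the image of `ι`
  have hrange : ∀ a : A, (p a).left = 1 → (p a).right ∈ φ.ker → a ∈ ι.range := by
    intro a h1 h2
    refine ⟨⟨_, h2⟩, hp ?_⟩
    rw [hι]
    refine SemidirectProduct.ext ?_ ?_
    · rw [SemidirectProduct.left_inr, h1]
    · rw [SemidirectProduct.right_inr]
  have hfs : ∀ a, a ∉ ι.range → f a = 0 := by
    intro a ha
    rw [hf]
    change eR φ θ (p a) = 0
    unfold eR
    by_cases h1 : (p a).left = 1
    · rw [if_pos h1]
      exact hbx.supp _ fun h2 => ha (hrange a h1 h2)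
    · rw [if_neg h1]
  -- the restriction of a function supported in the image of `ι`
  have hres : ∀ h : A → FF M, ∀ k : A → FF M, (∀ a, a ∉ ι.range → h a = 0) →
      (fun s : φ.ker => mulF h k (ι s)) = mulF (fun s => h (ι s)) (fun s => k (ι s)) := by
    intro h k hh
    funext s
    rw [mulF_inj ι hιi k hh]
    unfold mulF
    refine finsum_congr fun t => ?_
    change h (ι t) * k (ι t⁻¹ * ι s) = h (ι t) * k (ι (t⁻¹ * s))
    rw [map_mul]
  have hsupp : ∀ h k : A → FF M, (∀ a, a ∉ ι.range → h a = 0) → (∀ a, a ∉ ι.range → k a = 0) →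
      ∀ a, a ∉ ι.range → mulF h k a = 0 := fun h k => mulF_supp ι.range
  have hext : ∀ h k : A → FF M, (∀ a, a ∉ ι.range → h a = 0) → (∀ a, a ∉ ι.range → k a = 0) →
      (∀ s, h (ι s) = k (ι s)) → h = k := by
    intro h k hh hk he
    funext a
    by_cases ha : a ∈ ι.range
    · obtain ⟨s, rfl⟩ := ha
      exact he s
    · rw [hh a ha, hk a ha]
  have hθ : (fun s : φ.ker => f (ι s)) = fun s : φ.ker => θ s := funext hfι
  have hfcl : IsCl f := by
    intro x y
    rw [hf]
    change eR φ θ (p (y * x * y⁻¹)) = eR φ θ (p x)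
    rw [map_mul, map_mul, map_inv]
    exact hecl _ _
  have hfidem : IsIdem f := by
    refine ⟨hfcl, hext _ _ (hsupp f f hfs hfs) hfs fun s => ?_⟩
    have h1 := congrFun (hres f f hfs) s
    rw [hθ, hbx.blk.1.2] at h1
    exact h1.trans (hfι s).symm
  have hf0 : f ≠ 0 := by
    intro h0
    apply hbx.blk.2.1
    funext s
    have h1 := hfι s
    rw [h0] at h1
    exact h1.symm
  refine ⟨hfidem, hf0, fun g hg => ?_⟩
  have hh : IsIdem (mulF f g) := H46.isIdem_mul hfidem hg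
  obtain ⟨h, hhd⟩ : ∃ h : A → FF M, h = mulF f g := ⟨_, rfl⟩
  rw [← hhd] at hh ⊢
  have hfh : mulF f h = h := by
    rw [hhd, ← mulF_assoc, hfidem.2]
  -- the normal subgroup
  have hPp : IsPGroup ℓ η.range := by
    rintro ⟨a, v, rfl⟩
    refine ⟨1, Subtype.ext ?_⟩
    change (η v) ^ ℓ ^ 1 = 1
    rw [pow_one, ← map_pow, hex, map_one]
  have hnorm : (⊤ : Subgroup A) ≤ Subgroup.normalizer (η.range : Set A) := by
    have hN : η.range.Normal := by
      refine ⟨?_⟩
      rintro _ ⟨v, rfl⟩ a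
      refine ⟨φ (p a).right v, hp ?_⟩
      rw [hη, map_mul, map_mul, map_inv, hη]
      refine SemidirectProduct.ext ?_ ?_
      · rw [sd_conj_left φ _ _ (by rw [SemidirectProduct.right_inl, map_one]),
          SemidirectProduct.left_inl, SemidirectProduct.left_inl]
      · rw [sd_conj_right, SemidirectProduct.right_inl, SemidirectProduct.right_inl, mul_one,
          mul_inv_cancel]
    rw [Subgroup.normalizer_eq_top]
  have hix : Ix (⊤ : Subgroup A) h := by
    refine ⟨fun x hx => absurd (Subgroup.mem_top x) hx, ?_, ?_⟩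
    · intro x y
      exact hh.1 x y
    · rw [← H75.mulF_res (⊤ : Subgroup A) h (fun x hx => absurd (Subgroup.mem_top x) hx), hh.2]
  have hbr : br η.range h = h := T2.H32.supp_cent hF hPp le_top le_top hnorm hix
  -- the support of `h`
  have hhs : ∀ a, a ∉ ι.range → h a = 0 := by
    intro a ha
    by_contra hha
    have haC : a ∈ Subgroup.centralizer (η.range : Set A) := by
      by_contra hc
      apply hha
      rw [← hbr]
      exact br_out h hc
    have hker : φ (p a).right = 1 := by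
      ext v
      have h1 := Subgroup.mem_centralizer_iff.1 haC (η v) ⟨v, rfl⟩
      have h2 := congrArg p h1
      rw [map_mul, map_mul, hη] at h2
      have h3 := congrArg SemidirectProduct.left h2
      rw [SemidirectProduct.mul_left, SemidirectProduct.mul_left, SemidirectProduct.left_inl,
        SemidirectProduct.right_inl, map_one, MulAut.one_apply, mul_comm v] at h3
      rw [MulAut.one_apply]
      exact (mul_left_cancel h3).symm
    have hreg : Reg ℓ a := by
      by_contra hc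
      exact hha (H47O.osi H63.sma H74.rgl ℓ (FF M) hF A h hh a hc)
    have hleft : (p a).left = 1 := by
      obtain ⟨h1, -⟩ := sd_pow φ (p a) hker (orderOf a)
      rw [← map_pow, pow_orderOf_eq_one, map_one, SemidirectProduct.one_left] at h1
      have h2 : orderOf (p a).left ∣ orderOf a := orderOf_dvd_of_pow_eq_one h1.symm
      have h3 : orderOf (p a).left ∣ ℓ := orderOf_dvd_of_pow_eq_one (hex _)
      have h4 : orderOf (p a).left ∣ 1 := by
        have h5 : (orderOf a).Coprime ℓ := hreg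
        rw [← Nat.Coprime.gcd_eq_one h5]
        exact Nat.dvd_gcd h2 h3
      exact orderOf_eq_one_iff.1 (Nat.dvd_one.1 h4)
    exact ha (hrange a hleft (MonoidHom.mem_ker.2 hker))
  -- the restriction of `h`
  have hh' : IsIdem (fun s : φ.ker => h (ι s)) := by
    refine ⟨fun x y => ?_, ?_⟩
    · change h (ι (y * x * y⁻¹)) = h (ι x)
      rw [map_mul, map_mul, map_inv]
      exact hh.1 _ _
    · rw [← hres h h hhs, hh.2]
  have hfh' : mulF (fun s : φ.ker => θ s) (fun s : φ.ker => h (ι s)) =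
      fun s : φ.ker => h (ι s) := by
    have h1 := hres f h hfs
    rw [hfh, hθ] at h1
    exact h1.symm
  rcases hbx.blk.2.2 _ hh' with h1 | h1
  · left
    rw [hfh'] at h1
    refine hext _ _ hhs hfs fun s => ?_
    rw [hfι]
    exact congrFun h1 s
  · right
    rw [hfh'] at h1
    refine hext _ _ hhs (fun _ _ => rfl) fun s => ?_
    exact congrFun h1 s

theorem bre : BreStmt := by
  intro ℓ hℓ M _ hM V₀ S _ _ _ _ φ θ κ d hq hth
  have hfin : Finite (V₀ ⋊[φ] S) := Finite.of_equiv _ SemidirectProduct.equivProd.symm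
  refine ⟨eR_cl φ hth.bx.supp hth.cl, ?_, ?_⟩
  · exact bre_gen hM φ θ hq.ex hth.bx hth.cl (MonoidHom.id _) Function.injective_id
      (SemidirectProduct.inr.comp φ.ker.subtype) (fun s => rfl) SemidirectProduct.inl (fun v => rfl)
  · intro S₁ hS₁
    have h1 : ∀ s : φ.ker, (SemidirectProduct.inr (s : S) : V₀ ⋊[φ] S) ∈ RS φ S₁ := fun s =>
      hS₁ s.2
    have h2 : ∀ v : V₀, (SemidirectProduct.inl v : V₀ ⋊[φ] S) ∈ RS φ S₁ := by
      intro v
      unfold RS
      rw [Subgroup.mem_comap, SemidirectProduct.rightHom_inl]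
      exact S₁.one_mem
    exact bre_gen hM φ θ hq.ex hth.bx hth.cl (RS φ S₁).subtype (Subgroup.subtype_injective _)
      ((SemidirectProduct.inr.comp φ.ker.subtype).codRestrict (RS φ S₁) h1) (fun s => rfl)
      (SemidirectProduct.inl.codRestrict (RS φ S₁) h2) (fun v => rfl)

end Pool.Agent.PP.SE.H13
end
end -- Pool.Agent.Helper13_ASE.BRE

section -- Pool.Agent.Helper91_ASE.BLG

/-!
# Squad ASE, row BLG: the blocks of the comparison group
-/

set_option autoImplicit false

open scoped BigOperators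

noncomputable section

namespace Pool.Agent.PP.SE.H91

open Pool.Agent.Helper51_AWC Pool.Agent.Helper79_WRA Pool.Agent.PP Pool.Agent.PP.KF
open Pool.Agent.PP.K9 Pool.Agent.PP.K9.H97 Pool.Agent.PP.H75 Pool.Agent.PP.T3 Pool.Agent.PP.SO
open Pool.Agent.PP.SD

attribute [local instance] Ideal.Quotient.field

namespace BLG

/-- the number of elements of `N` is `1` modulo `ℓ` if `1` is the only fixed point of `V` -/
theorem card_one {G : Type} [Group G] [Finite G] {ℓ : ℕ} [Fact ℓ.Prime] {V N : Subgroup G}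
    (hV : IsPGroup ℓ V) (hN : ∀ v ∈ V, ∀ x ∈ N, v * x * v⁻¹ ∈ N)
    (hfix : ∀ x ∈ N, (∀ v ∈ V, v * x = x * v) → x = 1) : Nat.card N ≡ 1 [MOD ℓ] := by
  let act : MulAction V N :=
    { smul := fun v x => ⟨v * x * (v : G)⁻¹, hN v v.2 x x.2⟩
      one_smul := fun x => Subtype.ext (by change ((1 : V) : G) * x * ((1 : V) : G)⁻¹ = x; simp)
      mul_smul := fun v w x => Subtype.ext (by
        change ((v * w : V) : G) * x * ((v * w : V) : G)⁻¹ = v * (w * x * (w : G)⁻¹) * (v : G)⁻¹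
        push_cast
        group) }
  have h1 := hV.card_modEq_card_fixedPoints N
  have h2 : Nat.card (MulAction.fixedPoints V N) = 1 := by
    rw [Nat.card_eq_one_iff_unique]
    refine ⟨⟨?_⟩, ⟨⟨1, ?_⟩⟩⟩
    · have hone : ∀ a : MulAction.fixedPoints V N, ((a : N) : G) = 1 := by
        intro a
        refine hfix a a.1.2 fun v hv => ?_
        have h3 := congrArg (fun y : N => (y : G)) (a.2 ⟨v, hv⟩)
        change v * ((a : N) : G) * v⁻¹ = ((a : N) : G) at h3
        rw [← mul_inv_eq_iff_eq_mul]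
        exact h3
      intro a b
      exact Subtype.ext (Subtype.ext ((hone a).trans (hone b).symm))
    · intro v
      apply Subtype.ext
      change (v : G) * ((1 : N) : G) * (v : G)⁻¹ = ((1 : N) : G)
      simp
  rw [h2] at h1
  exact h1

variable {ℓ : ℕ} [Fact ℓ.Prime] {M : Ideal (integralClosure ℤ ℂ)} [M.IsMaximal]

/-- inflation along a surjective homomorphism whose kernel has `1` modulo `ℓ` elements -/
theorem gen (inf : SO.InfStmt) (hM : (ℓ : integralClosure ℤ ℂ) ∈ M) {A B : Type} [Group A]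
    [Finite A] [Group B] [Finite B] (ρ : A →* B) (hs : Function.Surjective ρ)
    (hk : Nat.card ρ.ker ≡ 1 [MOD ℓ]) {a : B → FF M} (ha : IsBlk a) :
    IsBlk (fun x : A => a (ρ x)) ∧
      IrrE M (fun x : A => a (ρ x)) = {χ | ∃ κ ∈ IrrE M a, χ = fun x => κ (ρ x)} := by
  have hF : GoodF ℓ (FF M) := H50.fld ℓ Fact.out M hM
  have := hF.char
  have h1 : (Nat.card ρ.ker : FF M) = 1 := by
    rw [(CharP.natCast_eq_natCast (FF M) ℓ).2 hk, Nat.cast_one]
  have h2 : ¬ ℓ ∣ Nat.card ρ.ker := by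
    intro h
    have h3 := (Nat.modEq_zero_iff_dvd.2 h).symm.trans hk
    have h4 : ℓ ∣ 1 := Nat.modEq_zero_iff_dvd.1 h3.symm
    exact (Fact.out : ℓ.Prime).one_lt.ne' (Nat.dvd_one.1 h4)
  obtain ⟨-, -, h3, h4⟩ := inf ℓ M hM A B ρ hs h2
  have h5 : infl ρ a = fun x => a (ρ x) := by
    funext x
    unfold infl
    rw [h1, inv_one, one_mul]
  rw [← h5]
  exact ⟨h3 a ha, h4 a ha.1⟩

end BLG

open BLG in
/-- BLG -/
theorem blg (bre : BreStmt) (inf : SO.InfStmt) : BlgStmt := by
  intro ℓ _ M _ hM V₀ S G _ _ _ _ _ _ φ θ κ d π j hq hth hC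
  have hfin : Finite (V₀ ⋊[φ] S) := Finite.of_equiv _ SemidirectProduct.equivProd.symm
  obtain ⟨-, hb1, hb2⟩ := bre ℓ M hM V₀ S φ θ κ d hq hth
  have hV : IsPGroup ℓ (iG j).range := by
    rintro ⟨x, v, rfl⟩
    refine ⟨1, ?_⟩
    apply Subtype.ext
    show iG j v ^ ℓ ^ 1 = 1
    rw [pow_one, ← map_pow, hq.ex, map_one]
  have hfx : ∀ x : G, π x = 1 → (∀ v ∈ (iG j).range, v * x = x * v) → x = 1 := by
    intro x hx h
    exact hC.fix x hx fun v => h _ ⟨v, rfl⟩
  have hsur : Function.Surjective π := fun y => ⟨j y, hC.sec y⟩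
  have hk : Nat.card π.ker ≡ 1 [MOD ℓ] := by
    refine card_one hV ?_ ?_
    · intro v _ x hx
      rw [MonoidHom.mem_ker] at hx ⊢
      rw [map_mul, map_mul, hx, mul_one, map_inv, mul_inv_cancel]
    · intro x hx h
      exact hfx x (MonoidHom.mem_ker.1 hx) h
  obtain ⟨h1, h2⟩ := gen inf hM π hsur hk hb1
  refine ⟨h1, ?_, ?_⟩
  · rw [h2]
    have h3 : {χ : G → ℂ | ∃ κ ∈ IrrE M (eR φ θ), χ = fun x => κ (π x)} =
        (fun (κ : V₀ ⋊[φ] S → ℂ) (x : G) => κ (π x)) '' IrrE M (eR φ θ) := by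
      ext χ
      constructor
      · rintro ⟨κ, hκ, rfl⟩
        exact ⟨κ, hκ, rfl⟩
      · rintro ⟨κ, hκ, rfl⟩
        exact ⟨κ, hκ, rfl⟩
    rw [h3]
    apply Set.ncard_image_of_injective
    intro κ κ' h
    funext y
    have h4 := congrFun h (j y)
    simp only [hC.sec] at h4
    exact h4
  · intro C hiC S₁ hS₁ hCS
    have hmem : ∀ t : C, π t ∈ RS φ S₁ := fun t => hCS ▸ Subgroup.mem_map_of_mem π t.2
    obtain ⟨ρ, hρ⟩ : ∃ ρ : C →* RS φ S₁, ∀ t, (ρ t : V₀ ⋊[φ] S) = π t :=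
      ⟨(π.comp C.subtype).codRestrict (RS φ S₁) hmem, fun _ => rfl⟩
    have hρs : Function.Surjective ρ := by
      intro y
      have h3 : (y : V₀ ⋊[φ] S) ∈ C.map π := by
        rw [hCS]
        exact y.2
      obtain ⟨t, ht, hty⟩ := Subgroup.mem_map.1 h3
      exact ⟨⟨t, ht⟩, Subtype.ext ((hρ _).trans hty)⟩
    have hρk : Nat.card ρ.ker ≡ 1 [MOD ℓ] := by
      rw [← Subgroup.card_map_of_injective (Subgroup.subtype_injective C)]
      have h3 : ∀ x : G, x ∈ ρ.ker.map C.subtype ↔ x ∈ C ∧ π x = 1 := by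
        intro x
        rw [Subgroup.mem_map]
        constructor
        · rintro ⟨t, ht, rfl⟩
          refine ⟨t.2, ?_⟩
          rw [MonoidHom.mem_ker] at ht
          show π (t : G) = 1
          rw [← hρ, ht]
          rfl
        · rintro ⟨hx, hx1⟩
          refine ⟨⟨x, hx⟩, ?_, rfl⟩
          rw [MonoidHom.mem_ker]
          apply Subtype.ext
          rw [hρ]
          exact hx1
      refine card_one hV ?_ ?_
      · intro v hv x hx
        rw [h3] at hx ⊢
        refine ⟨C.mul_mem (C.mul_mem (hiC hv) hx.1) (C.inv_mem (hiC hv)), ?_⟩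
        rw [map_mul, map_mul, hx.2, mul_one, map_inv, mul_inv_cancel]
      · intro x hx h
        exact hfx x ((h3 x).1 hx).2 h
    obtain ⟨h3, h4⟩ := gen inf hM ρ hρs hρk (hb2 S₁ hS₁)
    have h5 : (fun t : C => eR φ θ (π t)) = fun t : C => eR φ θ (ρ t : V₀ ⋊[φ] S) := by
      funext t
      rw [hρ]
    rw [h5]
    refine ⟨h3, ?_, ?_⟩
    · intro ψ hψ
      rw [h4]
      refine ⟨_, hψ, ?_⟩
      funext t
      rw [hρ]
    · intro χ hχ
      rw [h4] at hχ
      obtain ⟨κ', hκ', rfl⟩ := hχ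
      classical
      obtain ⟨ψ, hψ⟩ : ∃ ψ : V₀ ⋊[φ] S → ℂ, ∀ y, ψ y = if h : y ∈ RS φ S₁ then κ' ⟨y, h⟩ else 0 :=
        ⟨_, fun _ => rfl⟩
      have h6 : (fun y : RS φ S₁ => ψ y) = κ' := by
        funext y
        show ψ (y : V₀ ⋊[φ] S) = κ' y
        rw [hψ, dif_pos y.2]
      refine ⟨ψ, ?_, ?_, ?_⟩
      · intro y hy
        rw [hψ, dif_neg hy]
      · rw [h6]
        exact hκ'
      · funext t
        rw [← hρ, ← congrFun h6 (ρ t)]

end Pool.Agent.PP.SE.H91
end
end -- Pool.Agent.Helper91_ASE.BLG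

section -- Pool.Agent.Helper91_ASE.IND

/-!
# Squad ASE, row IND: induced characters
-/

set_option autoImplicit false

open scoped BigOperators

noncomputable section

namespace Pool.Agent.PP.SE.H91

open Pool.Agent.Helper51_AWC Pool.Agent.Helper79_WRA Pool.Agent.PP Pool.Agent.PP.KF
open Pool.Agent.PP.K9 Pool.Agent.PP.K9.H97 Pool.Agent.PP.H75 Pool.Agent.PP.T3 Pool.Agent.PP.SO
open Pool.Agent.PP.SD

attribute [local instance] Ideal.Quotient.field

/-- the multiplicity of an irreducible character in the restriction is a natural number -/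
theorem mult_nat {C H : Type} [Group C] [Fintype C] [Group H] (j : C →* H) {χ : H → ℂ}
    (hχ : χ ∈ Irr H) {θ : C → ℂ} (hθ : θ ∈ Irr C) :
    ∃ m : ℕ, ∑ c : C, θ c * χ (j c)⁻¹ = m * Fintype.card C := by
  obtain ⟨n, ρ, hρ, rfl⟩ := hχ
  obtain ⟨n', σ, hσ, rfl⟩ := hθ
  have hc : (Nat.card C : ℂ) ≠ 0 := by exact_mod_cast Nat.card_pos.ne'
  have := invertibleOfNonzero hc
  obtain ⟨τ, hτ⟩ : ∃ τ : Representation ℂ C (Fin n → ℂ), τ = ρ.comp j := ⟨_, rfl⟩
  have h := Representation.card_inv_mul_sum_char_mul_char_eq_finrank σ τ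
  refine ⟨Module.finrank ℂ (Representation.IntertwiningMap σ τ), ?_⟩
  rw [← h, ← Nat.card_eq_fintype_card, mul_comm, ← mul_assoc, mul_inv_cancel₀ hc, one_mul,
    ← Equiv.sum_comp (Equiv.inv C)]
  refine Finset.sum_congr rfl fun c _ => ?_
  rw [hτ]
  show σ.character c⁻¹ * ρ.character (j c⁻¹)⁻¹ = ρ.character (j c) * σ.character c⁻¹
  rw [map_inv, inv_inv, mul_comm]

section sd

variable {V₀ S : Type} [CommGroup V₀] [Group S] (φ : S →* MulAut V₀)

/-- coordinates -/
def eqv (S₁ : Subgroup S) : V₀ × S₁ ≃ RS φ S₁ where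
  toFun p := ⟨⟨p.1, (p.2 : S)⟩, p.2.2⟩
  invFun y := (y.1.left, ⟨y.1.right, y.2⟩)
  left_inv _ := rfl
  right_inv _ := rfl

theorem card_RS (S₁ : Subgroup S) : Nat.card (RS φ S₁) = Nat.card V₀ * Nat.card S₁ := by
  rw [← Nat.card_congr (eqv φ S₁), Nat.card_prod]

theorem card_S {S₁ : Subgroup S} (h : φ.ker ≤ S₁) :
    Nat.card S₁ = Nat.card φ.ker * Nat.card (S₁.map φ) := by
  have h1 := Subgroup.card_mul_index (φ.comp S₁.subtype).ker
  rw [Subgroup.index_ker] at h1
  have h2 : (φ.comp S₁.subtype).range = S₁.map φ := by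
    rw [MonoidHom.range_comp, Subgroup.range_subtype]
  have h3 : (φ.comp S₁.subtype).ker = φ.ker.subgroupOf S₁ := by
    ext x
    rfl
  rw [h2, h3, Nat.card_congr (Subgroup.subgroupOfEquivOfLe h).toEquiv] at h1
  exact h1.symm

theorem left_mul {x y : V₀ ⋊[φ] S} (hx : φ x.right = 1) : (x * y).left = x.left * y.left := by
  rw [SemidirectProduct.mul_left, hx, MulAut.one_apply]

theorem left_inv {x : V₀ ⋊[φ] S} (hx : φ x.right = 1) : (x⁻¹).left = (x.left)⁻¹ := by
  rw [SemidirectProduct.inv_left, map_inv φ, hx, inv_one, MulAut.one_apply]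

theorem ker_le {S₁ : Subgroup S} (h : φ.ker ≤ S₁) : RS φ φ.ker ≤ RS φ S₁ := fun _ hy => h hy

variable {φ}

theorem lin_ne {lam : V₀ → ℂ} (hl : lam ∈ lin V₀) (v : V₀) : lam v * lam v⁻¹ = 1 := by
  rw [← hl.2, mul_inv_cancel, hl.1]

theorem lin_inj {lam : V₀ → ℂ} (hl : lam ∈ lin V₀) {mu : V₀ → ℂ} (hm : mu ∈ lin V₀)
    [Fintype V₀] : ((∀ v, mu v = lam v) → ∑ v, lam v * mu v⁻¹ = Fintype.card V₀) ∧
    ((¬ ∀ v, mu v = lam v) → ∑ v, lam v * mu v⁻¹ = 0) := by
  constructor
  · intro h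
    rw [Finset.sum_congr rfl (fun v _ => by rw [h, lin_ne hl]), Finset.sum_const,
      Finset.card_univ, nsmul_eq_mul, mul_one]
  · intro h
    obtain ⟨v₀, hv₀⟩ := not_forall.1 h
    have e1 : ∑ v, lam v * mu v⁻¹ = lam v₀ * mu v₀⁻¹ * ∑ v, lam v * mu v⁻¹ := by
      conv_lhs => rw [← Equiv.sum_comp (Equiv.mulLeft v₀)]
      rw [Finset.mul_sum]
      refine Finset.sum_congr rfl fun v _ => ?_
      show lam (v₀ * v) * mu (v₀ * v)⁻¹ = _
      rw [mul_inv, hl.2, hm.2]
      ring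
    have e2 : (1 - lam v₀ * mu v₀⁻¹) * ∑ v, lam v * mu v⁻¹ = 0 := by
      rw [sub_mul, one_mul, ← e1, sub_self]
    rcases mul_eq_zero.1 e2 with h1 | h1
    · exfalso
      apply hv₀
      have h2 : lam v₀ * mu v₀⁻¹ = 1 := (sub_eq_zero.1 h1).symm
      have h3 := lin_ne hm v₀
      calc mu v₀ = mu v₀ * (lam v₀ * mu v₀⁻¹) := by rw [h2, mul_one]
        _ = lam v₀ * (mu v₀ * mu v₀⁻¹) := by ring
        _ = lam v₀ := by rw [h3, mul_one]
    · exact h1

variable {κ : S → ℂ}

/-- the character `lam × κ` of `V₀ × ker φ` -/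
theorem psi_irr [Finite V₀] [Finite S] (hk : (fun t : φ.ker => κ t) ∈ Irr φ.ker) {lam : V₀ → ℂ}
    (hl : lam ∈ lin V₀) :
    (fun y : RS φ φ.ker => lam (y : V₀ ⋊[φ] S).left * κ (y : V₀ ⋊[φ] S).right) ∈
      Irr (RS φ φ.ker) := by
  classical
  have := Fintype.ofFinite V₀
  have := Fintype.ofFinite φ.ker
  have : Finite (RS φ φ.ker) := Finite.of_equiv _ (eqv φ φ.ker)
  have := Fintype.ofFinite (RS φ φ.ker)
  obtain ⟨n, ρ, hρ, hρκ⟩ := hk
  obtain ⟨ρ', hρ'⟩ : ∃ ρ' : Representation ℂ (RS φ φ.ker) (Fin n → ℂ),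
      ∀ y, ρ' y = lam (y : V₀ ⋊[φ] S).left • ρ ⟨(y : V₀ ⋊[φ] S).right, y.2⟩ := by
    refine ⟨{ toFun := fun y => lam (y : V₀ ⋊[φ] S).left • ρ ⟨(y : V₀ ⋊[φ] S).right, y.2⟩
              map_one' := ?_
              map_mul' := ?_ }, fun y => rfl⟩
    · have h1 : ((1 : RS φ φ.ker) : V₀ ⋊[φ] S).left = 1 := rfl
      have h2 : (⟨((1 : RS φ φ.ker) : V₀ ⋊[φ] S).right, (1 : RS φ φ.ker).2⟩ : φ.ker) = 1 := rfl
      rw [h1, h2, hl.1, one_smul, map_one]
    · intro x y
      have h1 : ((x * y : RS φ φ.ker) : V₀ ⋊[φ] S).left =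
          (x : V₀ ⋊[φ] S).left * (y : V₀ ⋊[φ] S).left := left_mul φ (MonoidHom.mem_ker.1 x.2)
      have h2 : (⟨((x * y : RS φ φ.ker) : V₀ ⋊[φ] S).right, (x * y : RS φ φ.ker).2⟩ : φ.ker) =
          ⟨(x : V₀ ⋊[φ] S).right, x.2⟩ * ⟨(y : V₀ ⋊[φ] S).right, y.2⟩ := rfl
      rw [h1, h2, hl.2, map_mul, smul_mul_smul_comm]
  have hch : ∀ y, ρ'.character y = lam (y : V₀ ⋊[φ] S).left * κ (y : V₀ ⋊[φ] S).right := by
    intro y
    show LinearMap.trace ℂ _ (ρ' y) = _
    rw [hρ', map_smul, smul_eq_mul]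
    congr 1
    exact congrFun hρκ ⟨(y : V₀ ⋊[φ] S).right, y.2⟩
  rw [← show ρ'.character = _ from funext hch]
  apply mem_Irr_of_norm
  have h1 : ∀ y : RS φ φ.ker, ρ'.character y * ρ'.character y⁻¹ =
      κ (y : V₀ ⋊[φ] S).right * κ ((y : V₀ ⋊[φ] S).right)⁻¹ := by
    intro y
    rw [hch, hch]
    have h2 : ((y⁻¹ : RS φ φ.ker) : V₀ ⋊[φ] S).left = ((y : V₀ ⋊[φ] S).left)⁻¹ :=
      left_inv φ (MonoidHom.mem_ker.1 y.2)
    have h3 : ((y⁻¹ : RS φ φ.ker) : V₀ ⋊[φ] S).right = ((y : V₀ ⋊[φ] S).right)⁻¹ := rfl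
    rw [h2, h3]
    have h4 := lin_ne hl (y : V₀ ⋊[φ] S).left
    calc _ = (lam (y : V₀ ⋊[φ] S).left * lam ((y : V₀ ⋊[φ] S).left)⁻¹) *
        (κ (y : V₀ ⋊[φ] S).right * κ ((y : V₀ ⋊[φ] S).right)⁻¹) := by ring
      _ = _ := by rw [h4, one_mul]
  rw [Finset.sum_congr rfl (fun y _ => h1 y), ← Equiv.sum_comp (eqv φ φ.ker),
    Fintype.sum_prod_type]
  have h5 := irr_orth_self (mem_Irr_of_irreducible ρ)
  rw [hρκ] at h5
  have h6 : ∀ v : V₀, ∑ s : φ.ker, κ ((eqv φ φ.ker (v, s) : RS φ φ.ker) : V₀ ⋊[φ] S).right *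
      κ (((eqv φ φ.ker (v, s) : RS φ φ.ker) : V₀ ⋊[φ] S).right)⁻¹ = Fintype.card φ.ker :=
    fun v => h5
  rw [Finset.sum_congr rfl (fun v _ => h6 v), Finset.sum_const, Finset.card_univ, nsmul_eq_mul]
  have h7 := card_RS φ φ.ker
  rw [Nat.card_eq_fintype_card, Nat.card_eq_fintype_card, Nat.card_eq_fintype_card] at h7
  rw [h7]
  push_cast
  rfl

/-- reciprocity -/
theorem frob [Finite V₀] [Finite S] (hz : ∀ x, x ∉ φ.ker → κ x = 0)
    (hc : ∀ x y, κ (y * x * y⁻¹) = κ x) {S₁ : Subgroup S} (hS : φ.ker ≤ S₁) (lam : V₀ → ℂ)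
    [Fintype (RS φ S₁)] [Fintype (RS φ φ.ker)] (χ : RS φ S₁ → ℂ)
    (hχ : ∀ g h, χ (h * g * h⁻¹) = χ g) :
    ∑ g : RS φ S₁, xiL φ κ S₁ lam g * χ g⁻¹ = Nat.card (S₁.map φ) *
      ∑ n : RS φ φ.ker, lam (n : V₀ ⋊[φ] S).left * κ (n : V₀ ⋊[φ] S).right *
        χ (Subgroup.inclusion (ker_le φ hS) n)⁻¹ := by
  classical
  have := Fintype.ofFinite (S₁.map φ)
  have h1 : ∀ g : RS φ S₁, xiL φ κ S₁ lam g * χ g⁻¹ = ∑ τ : S₁.map φ,
      lam ((τ : MulAut V₀) (g : V₀ ⋊[φ] S).left) * κ (g : V₀ ⋊[φ] S).right * χ g⁻¹ := by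
    intro g
    unfold xiL
    rw [finsum_eq_sum_of_fintype, Finset.mul_sum, Finset.sum_mul]
    exact Finset.sum_congr rfl fun τ _ => by ring
  rw [Finset.sum_congr rfl (fun g _ => h1 g), Finset.sum_comm]
  have h2 : ∀ τ : S₁.map φ, ∑ g : RS φ S₁, lam ((τ : MulAut V₀) (g : V₀ ⋊[φ] S).left) *
      κ (g : V₀ ⋊[φ] S).right * χ g⁻¹ = ∑ n : RS φ φ.ker, lam (n : V₀ ⋊[φ] S).left *
        κ (n : V₀ ⋊[φ] S).right * χ (Subgroup.inclusion (ker_le φ hS) n)⁻¹ := by
    intro τ
    obtain ⟨t, ht, hτ⟩ := τ.2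
    have h3 : ∑ g : RS φ S₁, lam ((τ : MulAut V₀) (g : V₀ ⋊[φ] S).left) *
        κ (g : V₀ ⋊[φ] S).right * χ g⁻¹ = ∑ g : RS φ S₁, lam (g : V₀ ⋊[φ] S).left *
        κ (g : V₀ ⋊[φ] S).right * χ g⁻¹ := by
      obtain ⟨c, hcc⟩ : ∃ c : RS φ S₁, (c : V₀ ⋊[φ] S) = SemidirectProduct.inr t :=
        ⟨⟨SemidirectProduct.inr t, ht⟩, rfl⟩
      have hcr : (c : V₀ ⋊[φ] S).right = t := by rw [hcc, SemidirectProduct.right_inr]
      rw [← Equiv.sum_comp (MulAut.conj c).toEquiv (fun g : RS φ S₁ =>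
        lam (g : V₀ ⋊[φ] S).left * κ (g : V₀ ⋊[φ] S).right * χ g⁻¹)]
      refine Finset.sum_congr rfl fun g _ => ?_
      show _ = lam ((c : V₀ ⋊[φ] S) * g * (c : V₀ ⋊[φ] S)⁻¹).left *
        κ ((c : V₀ ⋊[φ] S) * g * (c : V₀ ⋊[φ] S)⁻¹).right * χ (c * g * c⁻¹)⁻¹
      rw [H13.sd_conj_right, hc]
      have h4 : χ (c * g * c⁻¹)⁻¹ = χ g⁻¹ := by
        have e : (c * g * c⁻¹)⁻¹ = c * g⁻¹ * c⁻¹ := by group
        rw [e, hχ]
      rw [h4]
      by_cases hk : φ (g : V₀ ⋊[φ] S).right = 1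
      · rw [H13.sd_conj_left φ _ _ hk, hcr, hτ]
      · rw [hz _ (fun h => hk (MonoidHom.mem_ker.1 h)), mul_zero, mul_zero]
    rw [h3]
    symm
    refine Fintype.sum_of_injective (Subgroup.inclusion (ker_le φ hS))
      (Subgroup.inclusion_injective (ker_le φ hS)) _ _ ?_ ?_
    · intro g hg
      have : (g : V₀ ⋊[φ] S).right ∉ φ.ker := by
        intro h
        apply hg
        exact ⟨⟨g, h⟩, rfl⟩
      rw [hz _ this, mul_zero, zero_mul]
    · intro n
      rfl
  rw [Finset.sum_congr rfl (fun τ _ => h2 τ), Finset.sum_const, Finset.card_univ, nsmul_eq_mul,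
    Nat.card_eq_fintype_card]

/-- `xiL` is a class function -/
theorem xi_cl [Finite V₀] [Finite S] (hz : ∀ x, x ∉ φ.ker → κ x = 0)
    (hc : ∀ x y, κ (y * x * y⁻¹) = κ x) {S₁ : Subgroup S} (lam : V₀ → ℂ) (g h : RS φ S₁) :
    xiL φ κ S₁ lam ((h * g * h⁻¹ : RS φ S₁) : V₀ ⋊[φ] S) = xiL φ κ S₁ lam (g : V₀ ⋊[φ] S) := by
  show xiL φ κ S₁ lam ((h : V₀ ⋊[φ] S) * g * (h : V₀ ⋊[φ] S)⁻¹) = _
  unfold xiL
  rw [H13.sd_conj_right, hc]
  by_cases hk : φ (g : V₀ ⋊[φ] S).right = 1
  · rw [H13.sd_conj_left φ _ _ hk]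
    congr 1
    obtain ⟨σ, hσ⟩ : ∃ σ : S₁.map φ, (σ : MulAut V₀) = φ (h : V₀ ⋊[φ] S).right :=
      ⟨⟨_, _, h.2, rfl⟩, rfl⟩
    symm
    rw [← finsum_comp_equiv (Equiv.mulRight σ)]
    refine finsum_congr fun τ => ?_
    show lam (((τ * σ : S₁.map φ) : MulAut V₀) (g : V₀ ⋊[φ] S).left) =
      lam ((τ : MulAut V₀) (φ (h : V₀ ⋊[φ] S).right (g : V₀ ⋊[φ] S).left))
    rw [← hσ]
    rfl
  · rw [hz _ (fun h => hk (MonoidHom.mem_ker.1 h)), zero_mul, zero_mul]

end sd

theorem ind : IndStmt := by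
  classical
  intro ℓ hℓ M _ hM V₀ S _ _ _ _ φ θ κ d hF hT S₁ hS lam hl hst
  have := Fintype.ofFinite V₀
  have := Fintype.ofFinite φ.ker
  have := Fintype.ofFinite (S₁.map φ)
  have hfR : Finite (RS φ S₁) := Finite.of_equiv _ (eqv φ S₁)
  have := Fintype.ofFinite (RS φ S₁)
  have hfN : Finite (RS φ φ.ker) := Finite.of_equiv _ (eqv φ φ.ker)
  have := Fintype.ofFinite (RS φ φ.ker)
  have hkE : (fun t : φ.ker => κ t) ∈ IrrE M (fun t : φ.ker => θ t) := by
    rw [hT.ki]
    exact Set.mem_singleton _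
  have hκi := hkE.1
  have hz := hT.kz
  have hc := hT.kc
  have hxc := xi_cl (φ := φ) hz hc (S₁ := S₁) lam
  have hcard : (Fintype.card (RS φ S₁) : ℂ) =
      Nat.card (S₁.map φ) * Fintype.card (RS φ φ.ker) := by
    have h1 := card_RS φ S₁
    have h2 := card_RS φ φ.ker
    rw [card_S φ hS] at h1
    rw [← Nat.card_eq_fintype_card, ← Nat.card_eq_fintype_card, h1, h2]
    push_cast
    ring
  -- irreducible
  have hirr : (fun y : RS φ S₁ => xiL φ κ S₁ lam y) ∈ Irr (RS φ S₁) := by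
    apply H44.mem_Irr_of_mult
    · exact hxc
    · intro χ hχ
      rw [frob hz hc hS lam χ (fun g h => irr_conj hχ g h)]
      obtain ⟨m, hm⟩ := mult_nat (Subgroup.inclusion (ker_le φ hS)) hχ (psi_irr hκi hl)
      refine ⟨m, ?_⟩
      rw [hm, hcard]
      ring
    · rw [frob hz hc hS lam (fun y : RS φ S₁ => xiL φ κ S₁ lam y) hxc, hcard]
      congr 1
      rw [← Equiv.sum_comp (eqv φ φ.ker), Fintype.sum_prod_type, Finset.sum_comm]
      have h1 : ∀ (s : φ.ker) (v : V₀),
          lam ((eqv φ φ.ker (v, s) : RS φ φ.ker) : V₀ ⋊[φ] S).left *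
            κ ((eqv φ φ.ker (v, s) : RS φ φ.ker) : V₀ ⋊[φ] S).right *
            xiL φ κ S₁ lam (((Subgroup.inclusion (ker_le φ hS) (eqv φ φ.ker (v, s)))⁻¹ :
              RS φ S₁) : V₀ ⋊[φ] S) =
          κ s * κ (s : S)⁻¹ * ∑ τ : S₁.map φ, lam v * lam ((τ : MulAut V₀) v⁻¹) := by
        intro s v
        have e1 : (((Subgroup.inclusion (ker_le φ hS) (eqv φ φ.ker (v, s)))⁻¹ :
              RS φ S₁) : V₀ ⋊[φ] S).left = v⁻¹ :=
          left_inv φ (x := (⟨v, (s : S)⟩ : V₀ ⋊[φ] S)) (MonoidHom.mem_ker.1 s.2)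
        have e2 : (((Subgroup.inclusion (ker_le φ hS) (eqv φ φ.ker (v, s)))⁻¹ :
              RS φ S₁) : V₀ ⋊[φ] S).right = (s : S)⁻¹ := rfl
        unfold xiL
        rw [e1, e2, finsum_eq_sum_of_fintype, Finset.mul_sum, Finset.mul_sum, Finset.mul_sum]
        refine Finset.sum_congr rfl fun τ _ => ?_
        show lam v * κ s * (κ (s : S)⁻¹ * lam ((τ : MulAut V₀) v⁻¹)) = _
        ring
      have h2 : ∀ s : φ.ker, ∑ v : V₀, κ s * κ (s : S)⁻¹ *
          ∑ τ : S₁.map φ, lam v * lam ((τ : MulAut V₀) v⁻¹) =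
            κ s * κ (s : S)⁻¹ * Fintype.card V₀ := by
        intro s
        rw [← Finset.mul_sum, Finset.sum_comm]
        congr 1
        have h3 : ∀ τ : S₁.map φ, ∑ v, lam v * lam ((τ : MulAut V₀) v⁻¹) =
            if τ = 1 then (Fintype.card V₀ : ℂ) else 0 := by
          intro τ
          have hm : (fun v => lam ((τ : MulAut V₀) v)) ∈ lin V₀ := by
            refine ⟨?_, fun v w => ?_⟩
            · show lam ((τ : MulAut V₀) 1) = 1
              rw [map_one, hl.1]
            · show lam ((τ : MulAut V₀) (v * w)) = _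
              rw [map_mul, hl.2]
          obtain ⟨l1, l2⟩ := lin_inj hl hm
          split_ifs with h
          · exact l1 (fun v => by rw [h]; rfl)
          · refine l2 (fun h' => h ?_)
            obtain ⟨t, ht, hτ⟩ := τ.2
            have h4 := hst t ht (fun v => by rw [hτ]; exact h' v)
            apply Subtype.ext
            rw [← hτ]
            exact h4
        rw [Finset.sum_congr rfl (fun τ _ => h3 τ), Finset.sum_ite_eq', if_pos (Finset.mem_univ _)]
      rw [Finset.sum_congr rfl (fun s _ => (Finset.sum_congr rfl (fun v _ => h1 s v)).trans (h2 s)),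
        ← Finset.sum_mul]
      have h5 := irr_orth_self hκi
      have h6 : ∑ s : φ.ker, κ s * κ (s : S)⁻¹ = Fintype.card φ.ker := h5
      have h7 := card_RS φ φ.ker
      rw [Nat.card_eq_fintype_card, Nat.card_eq_fintype_card, Nat.card_eq_fintype_card] at h7
      rw [h6, h7]
      push_cast
      ring
  refine ⟨hirr, ?_⟩
  -- the block
  have hcl : IsCl (eR φ θ) := H13.eR_cl φ hT.bx.supp hT.cl
  have hred0 : red M (0 : ℂ) = 0 := by
    have := red_of (M := M) (z := (0 : ℂ)) isIntegral_zero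
    rw [this]
    exact map_zero _
  obtain ⟨L, hL⟩ : ∃ L : FF M → ℂ, ∀ x, L x = if x = 0 then 0 else lf M x := ⟨_, fun _ => rfl⟩
  have hLi : ∀ x, IsIntegral ℤ (L x) := by
    intro x
    rw [hL]
    split_ifs
    · exact isIntegral_zero
    · exact lf_integral x
  have hLr : ∀ x, red M (L x) = x := by
    intro x
    rw [hL]
    split_ifs with h
    · rw [hred0, h]
    · exact red_lf x
  have r1 := res_eq_red (M := M) hirr (A := fun y : RS φ S₁ => L (eR φ θ y))
    (fun g h => congrArg L (hcl g h)) (fun g => hLi _) (fun y : RS φ S₁ => eR φ θ y)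
    (fun g => hLr _)
  have r2 := res_eq_red (M := M) hκi (A := fun s : φ.ker => L (θ s))
    (fun g h => congrArg L (hT.cl g h)) (fun g => hLi _) (fun s : φ.ker => θ s)
    (fun g => hLr _)
  rw [r1.2]
  have r3 := hkE.2
  rw [r2.2] at r3
  rw [← r3]
  congr 1
  unfold wC
  have hm0 : (Nat.card (S₁.map φ) : ℂ) ≠ 0 := Nat.cast_ne_zero.2 Nat.card_pos.ne'
  have hκ1 : κ 1 ≠ 0 := irr_one_ne (χ := fun t : φ.ker => κ t) hκi
  have hval : ∀ s : S, xiL φ κ S₁ lam (⟨1, s⟩ : V₀ ⋊[φ] S) = κ s * Nat.card (S₁.map φ) := by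
    intro s
    unfold xiL
    rw [finsum_eq_sum_of_fintype]
    congr 1
    rw [Finset.sum_congr rfl (fun τ _ => by
      show lam ((τ : MulAut V₀) 1) = 1
      rw [map_one, hl.1]), Finset.sum_const, Finset.card_univ, nsmul_eq_mul, mul_one,
      Nat.card_eq_fintype_card]
  have hone : xiL φ κ S₁ lam ((1 : RS φ S₁) : V₀ ⋊[φ] S) = κ 1 * Nat.card (S₁.map φ) := hval 1
  have hs : ∑ t : RS φ S₁, L (eR φ θ t) * xiL φ κ S₁ lam t =
      (∑ t : φ.ker, L (θ t) * κ t) * Nat.card (S₁.map φ) := by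
    rw [Finset.sum_mul]
    symm
    refine Fintype.sum_of_injective (fun s : φ.ker => (⟨⟨1, (s : S)⟩, hS s.2⟩ : RS φ S₁))
      (fun s s' h => Subtype.ext (congrArg (fun y : RS φ S₁ => (y : V₀ ⋊[φ] S).right) h)) _ _
      ?_ ?_
    · intro y hy
      have h1 : eR φ θ (y : V₀ ⋊[φ] S) = 0 := by
        unfold eR
        split_ifs with h
        · apply hT.bx.supp
          intro h'
          apply hy
          refine ⟨⟨(y : V₀ ⋊[φ] S).right, h'⟩, ?_⟩
          apply Subtype.ext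
          exact SemidirectProduct.ext h.symm rfl
        · rfl
      rw [h1, hL, if_pos rfl, zero_mul]
    · intro s
      show L (θ s) * κ s * _ = L (eR φ θ (⟨1, (s : S)⟩ : V₀ ⋊[φ] S)) *
        xiL φ κ S₁ lam (⟨1, (s : S)⟩ : V₀ ⋊[φ] S)
      rw [hval]
      have h1 : eR φ θ (⟨1, (s : S)⟩ : V₀ ⋊[φ] S) = θ s := by
        unfold eR
        rw [if_pos rfl]
      rw [h1]
      ring
  show (∑ t : RS φ S₁, L (eR φ θ t) * xiL φ κ S₁ lam t) /
    xiL φ κ S₁ lam ((1 : RS φ S₁) : V₀ ⋊[φ] S) =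
    (∑ t : φ.ker, L (θ t) * κ t) / κ ((1 : φ.ker) : S)
  rw [hone, hs]
  show _ = (∑ t : φ.ker, L (θ t) * κ t) / κ 1
  field_simp

end Pool.Agent.PP.SE.H91
end
end -- Pool.Agent.Helper91_ASE.IND

section -- Pool.Agent.Helper75_PFC.Cjl

/-!
# Squad PFC, block B6: conjugation lemmas (helper75)
-/

open scoped BigOperators

noncomputable section

namespace Pool.Agent.PFC.H75

open Pool.Agent.Helper51_AWC Pool.Agent.Helper79_WRA Pool.Agent.PP Pool.Agent.PP.KF
open Pool.Agent.PP.K9 Pool.Agent.PP.K9.H97 Pool.Agent.PP.H75 Pool.Agent.PP.T3 Pool.Agent.PP.T2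
open Pool.Agent.PP.T8 (Fr rs pw)

attribute [local instance] Ideal.Quotient.field

section gen

variable {F G : Type} [Field F] [Group G] [Finite G]

omit [Finite G] in
/-- conjugation as an isomorphism between conjugate subgroups -/
def eX {X Y : Subgroup G} (g : G) (h : ∀ x, x ∈ Y ↔ g⁻¹ * x * g ∈ X) : Y ≃* X where
  toFun x := ⟨g⁻¹ * x * g, (h x).1 x.2⟩
  invFun x := ⟨g * x * g⁻¹, (h _).2 (by
    have e : g⁻¹ * (g * (x : G) * g⁻¹) * g = x := by group
    rw [e]
    exact x.2)⟩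
  left_inv x := by
    apply Subtype.ext
    change g * (g⁻¹ * (x : G) * g) * g⁻¹ = x
    group
  right_inv x := by
    apply Subtype.ext
    change g⁻¹ * (g * (x : G) * g⁻¹) * g = x
    group
  map_mul' x y := by
    apply Subtype.ext
    change g⁻¹ * ((x : G) * y) * g = g⁻¹ * (x : G) * g * (g⁻¹ * (y : G) * g)
    group

omit [Finite G] in
/-- the conjugate of a block of a subgroup -/
theorem Bx_cj {X Y : Subgroup G} {b : G → F} (h : Bx X b) (g : G)
    (hY : ∀ x, x ∈ Y ↔ g⁻¹ * x * g ∈ X) : Bx Y (H75.cj g b) where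
  supp := fun x hx => h.supp _ fun hc => hx ((hY x).2 hc)
  blk := H20.IsBlk_equiv (eX g hY) h.blk

omit [Finite G] in
/-- the centraliser of a conjugate subgroup -/
theorem mem_cent_conj {W W' : Subgroup G} (g : G) (h : ∀ x, x ∈ W ↔ g⁻¹ * x * g ∈ W') (x : G) :
    x ∈ Subgroup.centralizer (W : Set G) ↔
      g⁻¹ * x * g ∈ Subgroup.centralizer (W' : Set G) := by
  rw [Subgroup.mem_centralizer_iff, Subgroup.mem_centralizer_iff]
  constructor
  · intro hx w hw
    have h1 : g * w * g⁻¹ ∈ (W : Set G) := by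
      refine (h _).2 ?_
      have e : g⁻¹ * (g * w * g⁻¹) * g = w := by group
      rw [e]
      exact hw
    have h2 := hx _ h1
    calc w * (g⁻¹ * x * g) = g⁻¹ * ((g * w * g⁻¹) * x) * g := by group
      _ = g⁻¹ * (x * (g * w * g⁻¹)) * g := by rw [h2]
      _ = g⁻¹ * x * g * w := by group
  · intro hx w hw
    have h2 := hx _ ((h w).1 hw)
    calc w * x = g * ((g⁻¹ * w * g) * (g⁻¹ * x * g)) * g⁻¹ := by group
      _ = g * ((g⁻¹ * x * g) * (g⁻¹ * w * g)) * g⁻¹ := by rw [h2]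
      _ = x * w := by group

/-- the Brauer map and conjugation -/
theorem br_cj {W W' : Subgroup G} (g : G) (h : ∀ x, x ∈ W ↔ g⁻¹ * x * g ∈ W') (a : G → F) :
    br W (H75.cj g a) = H75.cj g (br W' a) := by
  funext x
  by_cases hx : x ∈ Subgroup.centralizer (W : Set G)
  · rw [H75.br_in _ hx]
    exact (H75.br_in _ ((mem_cent_conj g h x).1 hx)).symm
  · rw [H75.br_out _ hx]
    exact (H75.br_out _ fun hc => hx ((mem_cent_conj g h x).2 hc)).symm

omit [Finite G] in
theorem norm_iff {V : Subgroup G} {t : G} (ht : t ∈ Subgroup.normalizer (V : Set G)) (x : G) :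
    x ∈ V ↔ t⁻¹ * x * t ∈ V := by
  have h := Subgroup.mem_normalizer_iff.1 ht (t⁻¹ * x * t)
  rw [show t * (t⁻¹ * x * t) * t⁻¹ = x by group] at h
  exact h.symm

theorem cj_stabF {γ : G → F} {t : G} (ht : t ∈ stabF γ) : H75.cj t γ = γ :=
  (cj_eq_iff t γ).2 ht

theorem cj_stabF_inv {γ : G → F} {t : G} (ht : t ∈ stabF γ) : H75.cj t⁻¹ γ = γ :=
  cj_stabF ((stabF γ).inv_mem ht)

open Classical in
theorem pw_cj (g : G) (a : G → F) (n : ℕ) : pw (H75.cj g a) n = H75.cj g (pw a n) := by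
  induction n with
  | zero =>
    funext x
    change (if x = 1 then (1 : F) else 0) = if g⁻¹ * x * g = 1 then 1 else 0
    by_cases hx : x = 1
    · subst hx
      simp
    · rw [if_neg hx, if_neg]
      intro h
      apply hx
      have e : x = g * (g⁻¹ * x * g) * g⁻¹ := by group
      rw [e, h]
      group
  | succ n ih =>
    change mulF (H75.cj g a) (pw (H75.cj g a) n) = H75.cj g (mulF a (pw a n))
    rw [ih, cj_mulF]

end gen

section loc

variable {M : Ideal (integralClosure ℤ ℂ)}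

theorem wC_equiv {A B : Type} [Group A] [Group B] [Fintype A] [Fintype B] (φ : A ≃* B)
    (a κ : B → ℂ) : wC (fun x => a (φ x)) (fun x => κ (φ x)) = wC a κ := by
  unfold wC
  have h1 : (∑ t, a (φ t) * κ (φ t)) = ∑ t, a t * κ t :=
    Equiv.sum_comp φ.toEquiv (fun t => a t * κ t)
  change (∑ t, a (φ t) * κ (φ t)) / κ (φ 1) = _
  rw [h1, map_one]

theorem res_equiv {A B : Type} [Group A] [Finite A] [Group B] [Finite B] (φ : A ≃* B)
    {a : B → FF M} (ha : IsCl a) {κ : B → ℂ} (hκ : κ ∈ Irr B) :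
    res M (fun x => a (φ x)) (fun x => κ (φ x)) = res M a κ := by
  have := Fintype.ofFinite A
  have := Fintype.ofFinite B
  have h1 := (res_eq_red hκ (A := fun g => lf M (a g))
    (fun g h => by rw [ha g h]) (fun g => lf_integral _) a
    (fun g => red_lf _)).2
  have h2 := (res_eq_red (irr_comp_equiv φ hκ) (A := fun g => lf M (a (φ g)))
    (fun g h => by rw [map_mul, map_mul, map_inv, ha (φ g) (φ h)]) (fun g => lf_integral _)
    (fun x => a (φ x)) (fun g => red_lf _)).2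
  rw [h1, h2, wC_equiv φ (fun g => lf M (a g)) κ]

theorem IrrE_equiv [M.IsMaximal] {A B : Type} [Group A] [Finite A] [Group B] [Finite B]
    (φ : A ≃* B) {a : B → FF M} (ha : IsCl a) {κ : B → ℂ} (hκ : κ ∈ IrrE M a) :
    (fun x => κ (φ x)) ∈ IrrE M (fun x => a (φ x)) :=
  ⟨irr_comp_equiv φ hκ.1, by rw [res_equiv φ ha hκ.1]; exact hκ.2⟩

end loc

end Pool.Agent.PFC.H75
end
end -- Pool.Agent.Helper75_PFC.Cjl

section -- Pool.Agent.Helper75_PFC.Fsn

/-!
# Squad PFC, block B6: row FSN (helper75)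

`y = x g⁻¹` commutes with `Q = g Q' g⁻¹`, `Q' = {v ∈ V | g v g⁻¹ ∈ V}`, and `y = j y (g j g⁻¹)`; the
Brauer map at `Q` gives `br_Q(y) = br_Q(j) br_Q(y) g br_{Q'}(j) g⁻¹ ≠ 0`, so the local block of `Q` and
the conjugate of the local block of `Q'` are equal.
-/

open scoped BigOperators

noncomputable section

namespace Pool.Agent.PFC.H75

open Pool.Agent.Helper51_AWC Pool.Agent.Helper79_WRA Pool.Agent.PP Pool.Agent.PP.KF
open Pool.Agent.PP.K9 Pool.Agent.PP.K9.H97 Pool.Agent.PP.H75 Pool.Agent.PP.T3 Pool.Agent.PP.T2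
open Pool.Agent.PP.T8 (Fr rs pw)

attribute [local instance] Ideal.Quotient.field

theorem fsn (hfuw : FuwStmt) : FsnStmt := by
  intro ℓ _ M _ hM G _ _ e V γ hL j hj g x hx1 hx2 hx3 hx4
  have hF : GoodF ℓ (FF M) := H50.fld ℓ Fact.out M hM
  have orb : PP.OrbStmt := H74.orb
  -- the subgroups
  set Q' : Subgroup G := V ⊓ V.comap (MulAut.conj g).toMonoidHom with hQ'
  have hmQ' : ∀ v, v ∈ Q' ↔ v ∈ V ∧ g * v * g⁻¹ ∈ V := by
    intro v
    rw [hQ', Subgroup.mem_inf, Subgroup.mem_comap]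
    rfl
  set Q : Subgroup G := Q'.map (MulAut.conj g).toMonoidHom with hQ
  have hmQ : ∀ v, v ∈ Q ↔ g⁻¹ * v * g ∈ Q' := by
    intro v
    rw [hQ, Subgroup.mem_map]
    constructor
    · rintro ⟨w, hw, hwv⟩
      change g * w * g⁻¹ = v at hwv
      rw [← hwv]
      have e : g⁻¹ * (g * w * g⁻¹) * g = w := by group
      rw [e]
      exact hw
    · intro h
      refine ⟨_, h, ?_⟩
      change g * (g⁻¹ * v * g) * g⁻¹ = v
      group
  have hQV : Q ≤ V := by
    intro v hv
    have h1 := ((hmQ' _).1 ((hmQ v).1 hv)).2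
    have e : g * (g⁻¹ * v * g) * g⁻¹ = v := by group
    rwa [e] at h1
  have hQ'V : Q' ≤ V := fun v hv => ((hmQ' v).1 hv).1
  have hPQ : IsPGroup ℓ Q := hL.tp.pg.to_le hQV
  -- the local blocks
  obtain ⟨f, hf⟩ := (T6.H39.lwd ℓ M hM G e V γ hL Q hQV).1
  obtain ⟨f', hf'⟩ := (T6.H39.lwd ℓ M hM G e V γ hL Q' hQ'V).1
  -- y = x g⁻¹
  set y : G → FF M := fun h => x (h * g) with hy
  have hyx : y = mulF x (dl (FF M) g⁻¹) := by
    rw [mulF_dl_r, inv_inv]
  have hy1 : mulF j y = y := by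
    rw [hyx, ← H20.mulF_assoc, hx1]
  have hy2 : mulF y (H75.cj g j) = y := by
    have h1 : mulF (dl (FF M) g⁻¹) (H75.cj g j) = mulF j (dl (FF M) g⁻¹) := by
      rw [dl_move, cj_inv_cj]
    rw [hyx, H20.mulF_assoc, h1, ← H20.mulF_assoc, hx2]
  -- invariance under Q
  have hyQ : ∀ q ∈ Q, H75.cj q y = y := by
    intro q hq
    rw [cj_eq_iff]
    intro h
    change x (q * h * q⁻¹ * g) = x (h * g)
    set v := g⁻¹ * q * g with hv
    have hv1 := (hmQ' v).1 ((hmQ q).1 hq)
    have h1 := hx3 v hv1.1 hv1.2 (h * g)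
    rw [← h1]
    congr 1
    rw [hv]
    group
  have hjQ : ∀ q ∈ Q, H75.cj q j = j := by
    intro q hq
    rw [cj_eq_iff]
    exact hj.iv q (hQV hq)
  have hjgQ : ∀ q ∈ Q, H75.cj q (H75.cj g j) = H75.cj g j := by
    intro q hq
    have h1 : H75.cj (g⁻¹ * q * g) j = j := by
      rw [cj_eq_iff]
      exact hj.iv _ (hQ'V ((hmQ q).1 hq))
    have h2 : q * g = g * (g⁻¹ * q * g) := by group
    rw [cj_cj, h2, ← cj_cj, h1]
  have hyjQ : ∀ q ∈ Q, H75.cj q (mulF y (H75.cj g j)) = mulF y (H75.cj g j) := by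
    intro q hq
    rw [cj_mulF, hyQ q hq, hjgQ q hq]
  set Y : G → FF M := br Q y with hY
  have hY1 : mulF (br Q j) Y = Y := by
    rw [hY, ← br_mulF orb hF hPQ hjQ hyQ, hy1]
  have hcj : br Q (H75.cj g j) = H75.cj g (br Q' j) := br_cj g hmQ j
  have hY2 : mulF Y (H75.cj g (br Q' j)) = Y := by
    rw [hY, ← hcj, ← br_mulF orb hF hPQ hyQ hjgQ, hy2]
  have hY0 : Y ≠ 0 := by
    obtain ⟨h, hh1, hh2⟩ := hx4
    intro h0
    apply hh2
    have hk : h * g⁻¹ ∈ Subgroup.centralizer (Q : Set G) := by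
      rw [Subgroup.mem_centralizer_iff]
      intro q hq
      set v := g⁻¹ * q * g with hv
      have hv1 := (hmQ' v).1 ((hmQ q).1 hq)
      have h1 := hh1 v hv1.1 hv1.2
      have h2 : g * v * g⁻¹ = q := by rw [hv]; group
      rw [h2] at h1
      calc q * (h * g⁻¹) = q * h * g⁻¹ := by group
        _ = h * v * g⁻¹ := by rw [h1]
        _ = h * g⁻¹ * q := by rw [hv]; group
    have h3 : Y (h * g⁻¹) = y (h * g⁻¹) := br_in _ hk
    rw [h0] at h3
    change (0 : FF M) = x (h * g⁻¹ * g) at h3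
    rw [inv_mul_cancel_right] at h3
    exact h3.symm
  -- the blocks
  set b : G → FF M := H75.cj g f' with hb
  have hbB : Bx (Subgroup.centralizer (Q : Set G)) b := Bx_cj hf'.blk g (mem_cent_conj g hmQ)
  have hYs : ∀ z, z ∉ Subgroup.centralizer (Q : Set G) → Y z = 0 := fun z hz => br_out _ hz
  have hjs : ∀ z, z ∉ Subgroup.centralizer (Q : Set G) → br Q j z = 0 := fun z hz => br_out _ hz
  have hfY : mulF f Y = Y := by
    have h1 := hj.lb Q hQV f hf
    have h2 : mulF (br Q j) f = mulF f (br Q j) :=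
      mulF_comm_of hjs (fun k hk => hf.blk.ix.inv hk)
    calc mulF f Y = mulF f (mulF (br Q j) Y) := by rw [hY1]
      _ = mulF (mulF (br Q j) f) Y := by rw [h2, H20.mulF_assoc]
      _ = Y := by rw [h1, hY1]
  have hYb : mulF Y b = Y := by
    have h1 := congrArg (H75.cj g) (hj.lb Q' hQ'V f' hf')
    rw [cj_mulF] at h1
    calc mulF Y b = mulF (mulF Y (H75.cj g (br Q' j))) b := by rw [hY2]
      _ = mulF Y (mulF (H75.cj g (br Q' j)) b) := by rw [H20.mulF_assoc]
      _ = Y := by rw [hb, h1, hY2]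
  have hbY : mulF b Y = Y := by
    rw [← mulF_comm_of hYs (fun k hk => hbB.ix.inv hk), hYb]
  have hfb : f = b := by
    rcases hf.blk.dich hbB with h | h
    · exact h
    · exfalso
      apply hY0
      calc Y = mulF f (mulF b Y) := by rw [hbY, hfY]
        _ = mulF (mulF f b) Y := by rw [H20.mulF_assoc]
        _ = 0 := by rw [h, mulF_zero_left]
  obtain ⟨t, ht, ht2⟩ := hfuw ℓ M hM G e V γ hL Q Q' hQV hQ'V f f' hf hf' g (by
    intro z
    rw [hmQ]
    have e : g⁻¹ * (g * z * g⁻¹) * g = z := by group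
    rw [e]) hfb.symm
  exact ⟨t, ht, fun v hv hgv => ht2 v ((hmQ' v).2 ⟨hv, hgv⟩)⟩

end Pool.Agent.PFC.H75
end
end -- Pool.Agent.Helper75_PFC.Fsn

section -- Pool.Agent.Helper75_PFC.Jcj

/-!
# Squad PFC, block B6: row JCJ (helper75)
-/

open scoped BigOperators

noncomputable section

namespace Pool.Agent.PFC.H75

open Pool.Agent.Helper51_AWC Pool.Agent.Helper79_WRA Pool.Agent.PP Pool.Agent.PP.KF
open Pool.Agent.PP.K9 Pool.Agent.PP.K9.H97 Pool.Agent.PP.H75 Pool.Agent.PP.T3 Pool.Agent.PP.T2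
open Pool.Agent.PP.T8 (Fr rs pw)

attribute [local instance] Ideal.Quotient.field

/-- Transport of the local blocks under an element of the inertial group. -/
theorem Lw_cj {F G : Type} [Field F] [Group G] [Finite G] {V : Subgroup G} {γ : G → F} {t : G}
    (ht : t ∈ Tg V γ) {W W' : Subgroup G} (h : ∀ x, x ∈ W ↔ t⁻¹ * x * t ∈ W') {f : G → F}
    (hf : T6.Lw V γ W' f) : T6.Lw V γ W (H75.cj t f) where
  blk := Bx_cj hf.blk t (mem_cent_conj t h)
  gam := by
    rw [br_cj t (norm_iff ht.1)]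
    conv_lhs => rw [← cj_stabF ht.2]
    rw [← cj_mulF, hf.gam]
    exact cj_stabF ht.2

theorem jcj : JcjStmt := by
  intro ℓ _ M _ hM G _ _ e V γ hL j hj t ht
  have ht' : t⁻¹ ∈ Tg V γ := (Tg V γ).inv_mem ht
  have hVt := norm_iff ht.1
  refine ⟨?_, ?_, ?_, ?_, ?_⟩
  · rw [← cj_mulF, hj.id]
  · intro v hv x
    change j (t⁻¹ * (v * x * v⁻¹) * t) = j (t⁻¹ * x * t)
    have h1 := hj.iv (t⁻¹ * v * t) ((hVt v).1 hv) (t⁻¹ * x * t)
    rw [← h1]
    congr 1
    group
  · intro W hW f hf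
    -- the conjugate subgroup
    set W' : Subgroup G := W.map (MulAut.conj t⁻¹).toMonoidHom with hW'
    have hmem : ∀ x, x ∈ W ↔ t⁻¹ * x * t ∈ W' := by
      intro x
      rw [hW', Subgroup.mem_map]
      constructor
      · intro hx
        exact ⟨x, hx, by
          change t⁻¹ * x * t⁻¹⁻¹ = _
          rw [inv_inv]⟩
      · rintro ⟨y, hy, hyx⟩
        change t⁻¹ * y * t⁻¹⁻¹ = _ at hyx
        rw [inv_inv] at hyx
        have : y = x := mul_left_cancel (mul_right_cancel hyx)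
        rw [← this]
        exact hy
    have hmem' : ∀ x, x ∈ W' ↔ t⁻¹⁻¹ * x * t⁻¹ ∈ W := by
      intro x
      rw [hmem, inv_inv]
      have e : t⁻¹ * (t * x * t⁻¹) * t = x := by group
      rw [e]
    have hW'V : W' ≤ V := by
      intro x hx
      have h1 := hW ((hmem' x).1 hx)
      rw [inv_inv] at h1
      have h2 := (hVt _).1 h1
      have e : t⁻¹ * (t * x * t⁻¹) * t = x := by group
      rw [e] at h2
      exact h2
    have hf' : T6.Lw V γ W' (H75.cj t⁻¹ f) := Lw_cj ht' hmem' hf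
    have h1 := hj.lb W' hW'V _ hf'
    have h2 := congrArg (H75.cj t) h1
    rw [cj_mulF, cj_cj_inv, ← br_cj t hmem] at h2
    exact h2
  · intro κ hκ
    have hC : ∀ x, x ∈ Subgroup.centralizer (V : Set G) ↔
        t⁻¹⁻¹ * x * t⁻¹ ∈ Subgroup.centralizer (V : Set G) :=
      mem_cent_conj t⁻¹ (norm_iff ht'.1)
    set φ : Subgroup.centralizer (V : Set G) ≃* Subgroup.centralizer (V : Set G) :=
      eX t⁻¹ hC with hφ
    have hφa : ∀ s, ((φ s : Subgroup.centralizer (V : Set G)) : G) = t * s * t⁻¹ := by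
      intro s
      change t⁻¹⁻¹ * (s : G) * t⁻¹ = _
      rw [inv_inv]
    have hκ' : (fun s => κ (φ s)) ∈ IrrE M (fun s : Subgroup.centralizer (V : Set G) => γ s) := by
      have h1 := IrrE_equiv φ hL.gam.blk.1.1 hκ
      have h2 : (fun x => (fun t : Subgroup.centralizer (V : Set G) => γ t) (φ x)) =
          fun s : Subgroup.centralizer (V : Set G) => γ s := by
        funext s
        change γ ((φ s : Subgroup.centralizer (V : Set G)) : G) = γ s
        rw [hφa]
        exact ht.2 s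
      rw [h2] at h1
      exact h1
    have h3 := hj.nz _ hκ'
    intro h0
    apply h3
    rw [← h0]
    have h4 := finsum_comp_equiv φ.toEquiv
      (f := fun s : Subgroup.centralizer (V : Set G) => H75.cj t j s * rr M (κ s))
    refine Eq.trans ?_ h4
    apply finsum_congr
    intro s
    change j s * rr M (κ (φ s)) = H75.cj t j ((φ s : Subgroup.centralizer (V : Set G)) : G) *
      rr M (κ (φ s))
    congr 1
    change j s = j (t⁻¹ * ((φ s : Subgroup.centralizer (V : Set G)) : G) * t)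
    rw [hφa]
    congr 1
    group
  · intro w hw h1 h2
    have h3 : ∀ v ∈ V, ∀ x, H75.cj t⁻¹ w (v * x * v⁻¹) = H75.cj t⁻¹ w x := by
      intro v hv x
      change w (t⁻¹⁻¹ * (v * x * v⁻¹) * t⁻¹) = w (t⁻¹⁻¹ * x * t⁻¹)
      have h4 := hw (t * v * t⁻¹) (by
        have h5 := (norm_iff ht'.1 v).1 hv
        rw [inv_inv] at h5
        exact h5) (t * x * t⁻¹)
      rw [inv_inv, ← h4]
      congr 1
      group
    have h6 : mulF j (H75.cj t⁻¹ w) = H75.cj t⁻¹ w := by
      have h7 := congrArg (H75.cj t⁻¹) h1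
      rw [cj_mulF, cj_inv_cj] at h7
      exact h7
    have h8 : mulF (H75.cj t⁻¹ w) j = H75.cj t⁻¹ w := by
      have h7 := congrArg (H75.cj t⁻¹) h2
      rw [cj_mulF, cj_inv_cj] at h7
      exact h7
    obtain ⟨n, hn, h9⟩ := hj.lo _ h3 h6 h8
    refine ⟨n, hn, ?_⟩
    rw [pw_cj] at h9
    rcases h9 with h9 | h9
    · left
      have := congrArg (H75.cj t) h9
      rw [cj_cj_inv] at this
      exact this
    · right
      have := congrArg (H75.cj t) h9
      rw [cj_cj_inv] at this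
      exact this

end Pool.Agent.PFC.H75
end
end -- Pool.Agent.Helper75_PFC.Jcj

section -- Pool.Agent.Helper41_PSS.NKW

/-!
# Squad PSS, rows NKW and SGW
-/

set_option autoImplicit false

open scoped BigOperators

noncomputable section

namespace Pool.Agent.PSS.H41

open Pool.Agent.Helper51_AWC Pool.Agent.Helper79_WRA Pool.Agent.PP Pool.Agent.PP.KF
open Pool.Agent.PP.T8 (pw)

section

variable {F H : Type} [Field F] [Group H] [Finite H]

theorem ev_br {ℓ : ℕ} (hF : GoodF ℓ F) (R : Subgroup H) (hN : R.Normal) (hR : IsPGroup ℓ R)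
    (a : H → F) (ha : ∀ r ∈ R, ∀ x, a (r * x * r⁻¹) = a x) {n : ℕ}
    (ρ : H →* Matrix (Fin n) (Fin n) F) (hρ : IsIrr ρ) : ev ρ a = ev ρ (br R a) := by
  have hch := hF.char
  have htr := H20.nls_triv hF.prime hF.char R hN hR ρ hρ
  have hfin := Fintype.ofFinite H
  classical
  unfold ev
  rw [finsum_eq_sum_of_fintype, finsum_eq_sum_of_fintype]
  have hV : ∀ v : Matrix (Fin n) (Fin n) F, ℓ • v = 0 := by
    intro v
    ext i j
    rw [Matrix.smul_apply, nsmul_eq_mul, CharP.cast_eq_zero, zero_mul, Matrix.zero_apply]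
  rw [H20.conj_sum hF.prime hV R hR (fun t => a t • ρ t) (fun r hr t => by
    show a (r * t * r⁻¹) • ρ (r * t * r⁻¹) = a t • ρ t
    rw [ha r hr, map_mul, map_mul, htr r hr, htr r⁻¹ (R.inv_mem hr), one_mul, mul_one])]
  apply Finset.sum_congr rfl
  intro t _
  by_cases ht : t ∈ Subgroup.centralizer (R : Set H)
  · simp only [br, if_pos ht]
  · simp only [br, if_neg ht, zero_smul]

theorem toMA_pw (a : H → F) (k : ℕ) : H20.toMA (pw a k) = H20.toMA a ^ k := by
  induction k with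
  | zero =>
    rw [pow_zero]
    apply MonoidAlgebra.ext
    apply Finsupp.ext
    intro x
    rw [H20.toMA_coeff, MonoidAlgebra.one_def, MonoidAlgebra.coeff_single]
    change (open Classical in if x = 1 then (1 : F) else 0) = _
    by_cases hx : x = 1
    · subst hx
      rw [if_pos rfl, Finsupp.single_eq_same]
    · rw [if_neg hx, Finsupp.single_eq_of_ne hx]
  | succ k ih =>
    change H20.toMA (mulF a (pw a k)) = _
    rw [H20.toMA_mulF, ih, pow_succ']

theorem nil_of_br {ℓ : ℕ} (hF : GoodF ℓ F) (R : Subgroup H) (hN : R.Normal) (hR : IsPGroup ℓ R)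
    (a : H → F) (ha : ∀ r ∈ R, ∀ x, a (r * x * r⁻¹) = a x) (hb : br R a = 0) :
    ∃ k : ℕ, H20.toMA a ^ (k + 1) = 0 := by
  obtain ⟨k, hk⟩ := H20.ibn ℓ F hF H a (fun n ρ hρ => by
    rw [ev_br hF R hN hR a ha ρ hρ, hb]
    unfold ev
    simp)
  refine ⟨k, ?_⟩
  have h1 := congrArg H20.toMA hk
  rw [H20.mulF_iterate, H20.toMA_zero, ← pow_succ] at h1
  exact h1

end

theorem nkw : NkwStmt := by
  intro ℓ _ F _ hF H _ _ R hN hR a ha hb
  obtain ⟨k, hk⟩ := nil_of_br hF R hN hR a ha hb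
  refine ⟨k + 1, by omega, H20.toMA_injective ?_⟩
  rw [toMA_pw, hk, H20.toMA_zero]

theorem sgw : SgwStmt := by
  intro ℓ _ F _ hF H _ _ R hN hR f hf x hx
  have hcl : IsCl (br R f) := by
    intro u y
    have hy : y ∈ Subgroup.normalizer (R : Set H) := by
      rw [Subgroup.mem_normalizer_iff]
      intro r
      constructor
      · intro hr
        exact hN.conj_mem r hr y
      · intro hr
        have h := hN.conj_mem _ hr y⁻¹
        have e : y⁻¹ * (y * r * y⁻¹) * y⁻¹⁻¹ = r := by group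
        rwa [e] at h
    by_cases hu : u ∈ Subgroup.centralizer (R : Set H)
    · have hu' := (H20.cent_conj_iff (x := u) hy).2 hu
      simp only [br, if_pos hu, if_pos hu']
      exact hf.1 u y
    · have hu' := fun h => hu ((H20.cent_conj_iff (x := u) hy).1 h)
      simp only [br, if_neg hu, if_neg hu']
  have hmul : mulF (br R f) (br R f) = br R f := by
    have h := (H20.brm ℓ F hF H R ⊤ hR le_top (by
      intro y _
      rw [Subgroup.mem_normalizer_iff]
      intro r
      constructor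
      · intro hr
        exact hN.conj_mem r hr y
      · intro hr
        have h := hN.conj_mem _ hr y⁻¹
        have e : y⁻¹ * (y * r * y⁻¹) * y⁻¹⁻¹ = r := by group
        rwa [e] at h)).1 f f hf.1 hf.1
    rw [← h, hf.2]
  have hbb : br R (br R f) = br R f := by
    funext u
    by_cases hu : u ∈ Subgroup.centralizer (R : Set H)
    · simp only [br, if_pos hu]
    · simp only [br, if_neg hu]
  have hd : br R (f - br R f) = 0 := by
    funext u
    by_cases hu : u ∈ Subgroup.centralizer (R : Set H)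
    · simp only [br, if_pos hu, Pi.sub_apply, sub_self, Pi.zero_apply]
    · simp only [br, if_neg hu, Pi.zero_apply]
  have hdc : IsCl (f - br R f) := H20.isCl_sub hf.1 hcl
  obtain ⟨k, hk⟩ := nil_of_br hF R hN hR (f - br R f) (fun r _ x => hdc x r) hd
  rw [H20.toMA_sub] at hk
  have h1 : H20.toMA f * H20.toMA f = H20.toMA f := by rw [← H20.toMA_mulF, hf.2]
  have h2 : H20.toMA (br R f) * H20.toMA (br R f) = H20.toMA (br R f) := by
    rw [← H20.toMA_mulF, hmul]
  have h3 : H20.toMA f * H20.toMA (br R f) = H20.toMA (br R f) * H20.toMA f := by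
    rw [← H20.toMA_mulF, ← H20.toMA_mulF, H20.mulF_comm_of_cl hf.1]
  generalize hp : H20.toMA f = p at hk h1 h2 h3
  generalize hq : H20.toMA (br R f) = q at hk h2 h3
  have h4 : (p - q) * (p - q) * (p - q) = p - q := by
    have e1 : (p - q) * (p - q) = p + q - 2 * (p * q) := by
      have : (p - q) * (p - q) = p * p - p * q - q * p + q * q := by noncomm_ring
      rw [this, h1, h2, ← h3]
      noncomm_ring
    have e2 : p * q * p = p * q := by rw [mul_assoc, ← h3, ← mul_assoc, h1]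
    have e3 : p * q * q = p * q := by rw [mul_assoc, h2]
    rw [e1]
    have e4 : (p + q - 2 * (p * q)) * (p - q) =
        p * p - p * q + q * p - q * q - 2 * (p * q * p) + 2 * (p * q * q) := by noncomm_ring
    rw [e4, h1, h2, e2, e3, ← h3]
    noncomm_ring
  have h5 : ∀ m : ℕ, (p - q) ^ (2 * m + 1) = p - q := by
    intro m
    induction m with
    | zero => simp
    | succ m ih =>
      rw [show 2 * (m + 1) + 1 = (2 * m + 1) + 2 by ring, pow_add, ih, pow_two, ← mul_assoc, h4]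
  have h6 : p - q = 0 := by
    rw [← h5 k, show 2 * k + 1 = (k + 1) + k by ring, pow_add, hk, zero_mul]
  have h7 : H20.toMA f = H20.toMA (br R f) := by rw [hp, hq]; exact sub_eq_zero.1 h6
  have h8 := congrFun (H20.toMA_injective h7) x
  rw [h8]
  simp only [br, if_neg hx]

end Pool.Agent.PSS.H41
end
end -- Pool.Agent.Helper41_PSS.NKW

section -- Pool.Agent.Helper41_PSS.JNW

/-!
# Squad PSS, row JNW
-/

set_option autoImplicit false

open scoped BigOperators

noncomputable section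

namespace Pool.Agent.PSS.H41

open Pool.Agent.Helper51_AWC Pool.Agent.Helper79_WRA Pool.Agent.PP Pool.Agent.PP.KF
open Pool.Agent.PP.K9 Pool.Agent.PP.K9.H97 Pool.Agent.PP.H75 Pool.Agent.PP.T3 Pool.Agent.PP.T2
open Pool.Agent.PP.T8 (pw)
open Pool.Agent.PFC (Jd)

attribute [local instance] Ideal.Quotient.field

section tools

variable {F G : Type} [Field F] [Group G] [Finite G]

omit [Finite G] in
theorem br_sub {N V : Subgroup G} (hVN : V ≤ N) (a : G → F) :
    br (V.subgroupOf N) (fun t : N => a t) = fun t : N => br V a t := by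
  funext t
  by_cases ht : (t : G) ∈ Subgroup.centralizer (V : Set G)
  · rw [H66.br_of_mem ht, H66.br_of_mem ((cent_sub hVN t).2 ht)]
  · rw [H66.br_of_not_mem ht, H66.br_of_not_mem (fun h => ht ((cent_sub hVN t).1 h))]

omit [Finite G] in
theorem br_br (V : Subgroup G) (a : G → F) : br V (br V a) = br V a := by
  funext t
  by_cases ht : t ∈ Subgroup.centralizer (V : Set G)
  · rw [H66.br_of_mem ht]
  · rw [H66.br_of_not_mem ht, H66.br_of_not_mem ht]

omit [Finite G] in
theorem cent_sup (A B : Subgroup G) (x : G) :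
    x ∈ Subgroup.centralizer ((A ⊔ B : Subgroup G) : Set G) ↔
      x ∈ Subgroup.centralizer (A : Set G) ∧ x ∈ Subgroup.centralizer (B : Set G) := by
  constructor
  · intro h
    rw [Subgroup.mem_centralizer_iff] at h
    exact ⟨Subgroup.mem_centralizer_iff.2 fun y hy => h y (Subgroup.mem_sup_left hy),
      Subgroup.mem_centralizer_iff.2 fun y hy => h y (Subgroup.mem_sup_right hy)⟩
  · rintro ⟨h1, h2⟩
    have h3 : A ⊔ B ≤ Subgroup.centralizer ({x} : Set G) := by
      refine sup_le (fun y hy => ?_) (fun y hy => ?_)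
      · rw [Subgroup.mem_centralizer_singleton_iff]
        exact (Subgroup.mem_centralizer_iff.1 h1 y hy)
      · rw [Subgroup.mem_centralizer_singleton_iff]
        exact (Subgroup.mem_centralizer_iff.1 h2 y hy)
    rw [Subgroup.mem_centralizer_iff]
    intro y hy
    exact (Subgroup.mem_centralizer_singleton_iff.1 (h3 hy))

theorem pw_ext0 (N : Subgroup G) (b : N → F) (n : ℕ) :
    pw (H75.ext0 N b) n = H75.ext0 N (pw b n) := by
  induction n with
  | zero =>
    funext x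
    change dl F (1 : G) x = H75.ext0 N (dl F (1 : N)) x
    by_cases hx : x ∈ N
    · have e := H75.ext0_apply N (dl F (1 : N)) ⟨x, hx⟩
      change H75.ext0 N (dl F (1 : N)) x = _ at e
      rw [e]
      unfold dl
      by_cases h1 : x = 1
      · rw [if_pos h1, if_pos (Subtype.ext h1)]
      · rw [if_neg h1, if_neg]
        intro h
        exact h1 (congrArg Subtype.val h)
    · rw [H75.ext0_supp N _ x hx]
      unfold dl
      rw [if_neg]
      rintro rfl
      exact hx (one_mem _)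
  | succ n ih =>
    change mulF (H75.ext0 N b) (pw (H75.ext0 N b) n) = H75.ext0 N (mulF b (pw b n))
    rw [ih, H75.ext0_mulF]

omit [Finite G] in
theorem char_pow {ℓ : ℕ} [Fact ℓ.Prime] [CharP F ℓ] {X J : MonoidAlgebra F G} (hJ : J * J = J)
    (h1 : J * X = X) (h2 : X * J = X) {k : ℕ} (hk : (X - J) ^ k = 0) : ∃ m : ℕ, X ^ ℓ ^ m = J := by
  have hp : 1 < ℓ := (Fact.out : ℓ.Prime).one_lt
  have hch : CharP (MonoidAlgebra F G) ℓ :=
    charP_of_injective_algebraMap (algebraMap F (MonoidAlgebra F G)).injective ℓ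
  refine ⟨k, ?_⟩
  have hle : k ≤ ℓ ^ k := (Nat.lt_pow_self hp).le
  have hc : Commute (X - J) J := by
    change (X - J) * J = J * (X - J)
    rw [sub_mul, mul_sub, h1, h2]
  have e : X = (X - J) + J := by abel
  calc X ^ ℓ ^ k = ((X - J) + J) ^ ℓ ^ k := by rw [← e]
    _ = (X - J) ^ ℓ ^ k + J ^ ℓ ^ k := add_pow_char_pow_of_commute _ _ hc
    _ = J := by
      rw [pow_eq_zero_of_le hle hk, zero_add, T8.H84.idem_pow hJ (by positivity)]

end tools

section main

variable {F G : Type} [Field F] [Group G] [Finite G] {ℓ : ℕ} [Fact ℓ.Prime]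

/-- the local block condition -/
theorem jnw_lb (hF : GoodF ℓ F) {V W : Subgroup G} (hV : IsPGroup ℓ V)
    (hab : ∀ a ∈ V, ∀ b ∈ V, a * b = b * a) (hWV : W ≤ V) {γ : G → F}
    (hg : Bx (Subgroup.centralizer (V : Set G)) γ) {j : G → F}
    (hlw : ∀ P : Subgroup G, P ≤ V → ∃ f, T6.Lw V γ P f ∧ mulF (br P j) f = br P j)
    (Q : Subgroup (Subgroup.normalizer (W : Set G)))
    (hQ : Q ≤ V.subgroupOf (Subgroup.normalizer (W : Set G)))
    (f : Subgroup.normalizer (W : Set G) → F)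
    (hf : T6.Lw (V.subgroupOf (Subgroup.normalizer (W : Set G)))
      (fun t : Subgroup.normalizer (W : Set G) => γ t) Q f) :
    mulF (br Q (fun t : Subgroup.normalizer (W : Set G) => br W j t)) f =
      br Q (fun t : Subgroup.normalizer (W : Set G) => br W j t) := by
  have hCWN : Subgroup.centralizer (W : Set G) ≤ Subgroup.normalizer (W : Set G) :=
    Subgroup.centralizer_le_normalizer _
  have hCVW : Subgroup.centralizer (V : Set G) ≤ Subgroup.centralizer (W : Set G) :=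
    Subgroup.centralizer_le hWV
  have hCVN := hCVW.trans hCWN
  have hVCV : V ≤ Subgroup.centralizer (V : Set G) := fun a ha =>
    Subgroup.mem_centralizer_iff.2 fun b hb => hab b hb a ha
  have hVN : V ≤ Subgroup.normalizer (W : Set G) := (hVCV.trans hCVN)
  have hWN : W ≤ Subgroup.normalizer (W : Set G) := hWV.trans hVN
  -- `Q` as a subgroup of `G`
  obtain ⟨Q₁, hQ₁V, rfl⟩ : ∃ Q₁ : Subgroup G, Q₁ ≤ V ∧
      Q = Q₁.subgroupOf (Subgroup.normalizer (W : Set G)) := by
    refine ⟨Q.map (Subgroup.normalizer (W : Set G)).subtype, ?_, ?_⟩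
    · rintro x ⟨y, hy, rfl⟩
      exact Subgroup.mem_subgroupOf.1 (hQ hy)
    · exact (Subgroup.comap_map_eq_self_of_injective
        (Subgroup.normalizer (W : Set G)).subtype_injective Q).symm
  have hQ₁N := hQ₁V.trans hVN
  have hPV : Q₁ ⊔ W ≤ V := sup_le hQ₁V hWV
  have hPp : IsPGroup ℓ (Q₁ ⊔ W : Subgroup G) := hV.to_le hPV
  have hWp : IsPGroup ℓ W := hV.to_le hWV
  obtain ⟨f₂, hf₂, hjf⟩ := hlw _ hPV
  -- the support of `f`
  set H : Subgroup (Subgroup.normalizer (W : Set G)) :=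
    Subgroup.centralizer ((Q₁.subgroupOf (Subgroup.normalizer (W : Set G)) :
      Subgroup (Subgroup.normalizer (W : Set G))) :
      Set (Subgroup.normalizer (W : Set G))) with hH
  have hHiff : ∀ t : Subgroup.normalizer (W : Set G), t ∈ H ↔
      (t : G) ∈ Subgroup.centralizer (Q₁ : Set G) := fun t => cent_sub hQ₁N t
  set W' := W.subgroupOf (Subgroup.normalizer (W : Set G)) with hW'
  have hW'H : W' ≤ H := by
    intro w hw
    rw [hHiff, Subgroup.mem_centralizer_iff]
    intro q hq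
    exact hab q (hQ₁V hq) _ (hWV (Subgroup.mem_subgroupOf.1 hw))
  have hW'n : W'.Normal := Subgroup.normal_in_normalizer
  have hRn : (W'.subgroupOf H).Normal := inferInstance
  have hW'p : IsPGroup ℓ W' := hWp.comap_of_injective _
    (Subgroup.normalizer (W : Set G)).subtype_injective
  have hRp : IsPGroup ℓ (W'.subgroupOf H) := hW'p.comap_of_injective _ H.subtype_injective
  have hsup : ∀ t : Subgroup.normalizer (W : Set G), t ∈ H →
      (t : G) ∉ Subgroup.centralizer (W : Set G) → f t = 0 := by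
    intro t ht htW
    refine sgw ℓ F hF H (W'.subgroupOf H) hRn hRp (fun t : H => f t) hf.blk.ix.idem ⟨t, ht⟩ ?_
    intro hc
    apply htW
    have h1 := (cent_sub hW'H (⟨t, ht⟩ : H)).1 hc
    exact (cent_sub hWN t).1 h1
  -- `f` extended by zero
  set g : G → F := H75.ext0 (Subgroup.normalizer (W : Set G)) f with hgd
  have hgN : (fun t : Subgroup.normalizer (W : Set G) => g t) = f :=
    funext (H75.ext0_apply _ f)
  have hPN : Subgroup.centralizer ((Q₁ ⊔ W : Subgroup G) : Set G) ≤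
      Subgroup.normalizer (W : Set G) := fun x hx => hCWN ((cent_sup Q₁ W x).1 hx).2
  have hgs : ∀ x, x ∉ Subgroup.centralizer ((Q₁ ⊔ W : Subgroup G) : Set G) → g x = 0 := by
    intro x hx
    by_cases hxN : x ∈ Subgroup.normalizer (W : Set G)
    · have e := congrFun hgN ⟨x, hxN⟩
      change g x = _ at e
      rw [e]
      by_cases hxH : (⟨x, hxN⟩ : Subgroup.normalizer (W : Set G)) ∈ H
      · refine hsup _ hxH fun hxW => hx ?_
        exact (cent_sup Q₁ W x).2 ⟨(hHiff _).1 hxH, hxW⟩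
      · exact hf.blk.supp _ hxH
    · exact H75.ext0_supp _ f x hxN
  have hgi : Ix (Subgroup.centralizer ((Q₁ ⊔ W : Subgroup G) : Set G)) g := by
    refine ⟨hgs, ?_, ?_⟩
    · intro x y
      have hy : (⟨y, hPN y.2⟩ : Subgroup.normalizer (W : Set G)) ∈ H :=
        (hHiff _).2 ((cent_sup Q₁ W y).1 y.2).1
      have h1 := (cj_eq_iff _ f).1 (hf.blk.ix.inv hy) ⟨x, hPN x.2⟩
      have e1 := congrFun hgN (⟨y, hPN y.2⟩ * ⟨x, hPN x.2⟩ * ⟨y, hPN y.2⟩⁻¹)
      have e2 := congrFun hgN ⟨x, hPN x.2⟩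
      rw [← e1, ← e2] at h1
      exact h1
    · rw [← mulF_res _ _ hgs]
      have h1 : mulF g g = g := by
        rw [hgd, ← H75.ext0_mulF, hf.blk.ix.mul]
      rw [h1]
  -- `f₂ g = f₂`
  have hbg : mulF (br V g) γ = γ := by
    apply eq_of_res (N := Subgroup.normalizer (W : Set G))
      (mulF_supp _ (fun x hx => H66.br_of_not_mem (fun h => hx (hCVN h)))
        (fun x hx => hg.supp x (fun h => hx (hCVN h))))
      (fun x hx => hg.supp x (fun h => hx (hCVN h)))
    rw [mulF_res _ _ (fun x hx => H66.br_of_not_mem (fun h => hx (hCVN h))), ← br_sub hVN, hgN]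
    exact hf.gam
  have hVP : V ≤ Subgroup.centralizer ((Q₁ ⊔ W : Subgroup G) : Set G) :=
    hVCV.trans (Subgroup.centralizer_le hPV)
  have hff : mulF f₂ g = f₂ := by
    rcases hf₂.blk.dich' hgi with h | h
    · exact h
    · exfalso
      apply hg.ne
      have h1 := T6.H39.br_mulX hF hV hVP hf₂.blk.ix hgi
      rw [h, H88.br_zero] at h1
      calc γ = mulF (br V f₂) (mulF (br V g) γ) := by rw [hbg, hf₂.gam]
        _ = mulF (mulF (br V f₂) (br V g)) γ := (mulF_assoc _ _ _).symm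
        _ = 0 := by rw [← h1, mulF_zero_left]
  have hjg : mulF (br (Q₁ ⊔ W) j) g = br (Q₁ ⊔ W) j := by
    calc mulF (br (Q₁ ⊔ W) j) g = mulF (mulF (br (Q₁ ⊔ W) j) f₂) g := by rw [hjf]
      _ = mulF (br (Q₁ ⊔ W) j) (mulF f₂ g) := mulF_assoc _ _ _
      _ = br (Q₁ ⊔ W) j := by rw [hff, hjf]
  have hbQ : br (Q₁.subgroupOf (Subgroup.normalizer (W : Set G)))
      (fun t : Subgroup.normalizer (W : Set G) => br W j t) =
      fun t : Subgroup.normalizer (W : Set G) => br (Q₁ ⊔ W) j t := by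
    rw [br_sub hQ₁N]
    funext t
    by_cases h1 : (t : G) ∈ Subgroup.centralizer (Q₁ : Set G)
    · rw [H66.br_of_mem h1]
      by_cases h2 : (t : G) ∈ Subgroup.centralizer (W : Set G)
      · rw [H66.br_of_mem h2, H66.br_of_mem ((cent_sup Q₁ W t).2 ⟨h1, h2⟩)]
      · rw [H66.br_of_not_mem h2,
          H66.br_of_not_mem (fun h => h2 ((cent_sup Q₁ W t).1 h).2)]
    · rw [H66.br_of_not_mem h1, H66.br_of_not_mem (fun h => h1 ((cent_sup Q₁ W t).1 h).1)]
  rw [hbQ]
  conv_lhs => rw [← hgN]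
  rw [← mulF_res _ _ (fun x hx => H66.br_of_not_mem (fun h => hx (hPN h))), hjg]

/-- the local condition -/
theorem jnw_lo (hF : GoodF ℓ F) {V W : Subgroup G} (hV : IsPGroup ℓ V)
    (hab : ∀ a ∈ V, ∀ b ∈ V, a * b = b * a) (hWV : W ≤ V) {j : G → F} (hj : mulF j j = j)
    (hjv : ∀ v ∈ V, ∀ x, j (v * x * v⁻¹) = j x)
    (hlo : ∀ w : G → F, (∀ v ∈ V, ∀ x, w (v * x * v⁻¹) = w x) → mulF j w = w → mulF w j = w →
      ∃ n : ℕ, 0 < n ∧ (pw w n = j ∨ pw w n = 0))
    (w : Subgroup.normalizer (W : Set G) → F)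
    (hwv : ∀ v ∈ V.subgroupOf (Subgroup.normalizer (W : Set G)), ∀ x, w (v * x * v⁻¹) = w x)
    (hw1 : mulF (fun t : Subgroup.normalizer (W : Set G) => br W j t) w = w)
    (hw2 : mulF w (fun t : Subgroup.normalizer (W : Set G) => br W j t) = w) :
    ∃ n : ℕ, 0 < n ∧ (pw w n = (fun t : Subgroup.normalizer (W : Set G) => br W j t) ∨
      pw w n = 0) := by
  have hch := hF.char
  have hCWN : Subgroup.centralizer (W : Set G) ≤ Subgroup.normalizer (W : Set G) :=
    Subgroup.centralizer_le_normalizer _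
  have hCVW : Subgroup.centralizer (V : Set G) ≤ Subgroup.centralizer (W : Set G) :=
    Subgroup.centralizer_le hWV
  have hVCV : V ≤ Subgroup.centralizer (V : Set G) := fun a ha =>
    Subgroup.mem_centralizer_iff.2 fun b hb => hab b hb a ha
  have hVCW : V ≤ Subgroup.centralizer (W : Set G) := hVCV.trans hCVW
  have hVN : V ≤ Subgroup.normalizer (W : Set G) := hVCW.trans hCWN
  have hWN : W ≤ Subgroup.normalizer (W : Set G) := hWV.trans hVN
  have hWp : IsPGroup ℓ W := hV.to_le hWV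
  set W' := W.subgroupOf (Subgroup.normalizer (W : Set G)) with hW'
  have hW'n : W'.Normal := Subgroup.normal_in_normalizer
  have hW'p : IsPGroup ℓ W' := hWp.comap_of_injective _
    (Subgroup.normalizer (W : Set G)).subtype_injective
  set j' : Subgroup.normalizer (W : Set G) → F := fun t => br W j t with hj'
  have hjW : H66.Inv W j := fun p hp t => hjv p (hWV hp) t
  have hsW : ∀ x, x ∉ Subgroup.normalizer (W : Set G) → br W j x = 0 := fun x hx =>
    H66.br_of_not_mem (fun h => hx (hCWN h))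
  have hj'j' : mulF j' j' = j' := by
    rw [hj', ← mulF_res _ _ hsW, ← H66.br_mulF hF hWp hjW hjW, hj]
  -- conjugation by `V` preserves `C(W)`
  have hcv : ∀ v ∈ V, ∀ x, v * x * v⁻¹ ∈ Subgroup.centralizer (W : Set G) ↔
      x ∈ Subgroup.centralizer (W : Set G) := fun v hv x => H20.cent_conj_iff (hVN hv)
  have hbrj' : br W' j' = j' := by
    rw [hW', hj', br_sub hWN, br_br]
  have hj'W : H66.Inv W' j' := by
    intro p hp t
    have hp' : (p : G) ∈ W := Subgroup.mem_subgroupOf.1 hp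
    change br W j ((p : G) * t * (p : G)⁻¹) = br W j t
    by_cases ht : (t : G) ∈ Subgroup.centralizer (W : Set G)
    · rw [H66.br_of_mem ht, H66.br_of_mem ((hcv p (hWV hp') t).2 ht)]
      exact hjv p (hWV hp') t
    · rw [H66.br_of_not_mem ht, H66.br_of_not_mem (fun h => ht ((hcv p (hWV hp') t).1 h))]
  have hwW : H66.Inv W' w := fun p hp t => hwv p (Subgroup.mem_subgroupOf.2
    (hWV (Subgroup.mem_subgroupOf.1 hp))) t
  set b := br W' w with hb
  have hb1 : mulF j' b = b := by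
    have h := congrArg (br W') hw1
    rw [H66.br_mulF hF hW'p hj'W hwW, hbrj'] at h
    exact h
  have hb2 : mulF b j' = b := by
    have h := congrArg (br W') hw2
    rw [H66.br_mulF hF hW'p hwW hj'W, hbrj'] at h
    exact h
  -- the extension
  set B : G → F := H75.ext0 (Subgroup.normalizer (W : Set G)) b with hB
  have hBN : (fun t : Subgroup.normalizer (W : Set G) => B t) = b :=
    funext (H75.ext0_apply _ b)
  have hBW : br W B = B := by
    funext x
    by_cases hx : x ∈ Subgroup.centralizer (W : Set G)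
    · rw [H66.br_of_mem hx]
    · rw [H66.br_of_not_mem hx]
      by_cases hxN : x ∈ Subgroup.normalizer (W : Set G)
      · have e := congrFun hBN ⟨x, hxN⟩
        change B x = _ at e
        rw [e, hb, H66.br_of_not_mem]
        intro h
        exact hx ((cent_sub hWN ⟨x, hxN⟩).1 h)
      · exact (H75.ext0_supp _ b x hxN).symm
  have hBV : H66.Inv V B := by
    intro v hv x
    by_cases hx : x ∈ Subgroup.normalizer (W : Set G)
    · have e1 := congrFun hBN ⟨x, hx⟩
      have e2 := congrFun hBN (⟨v, hVN hv⟩ * ⟨x, hx⟩ * ⟨v, hVN hv⟩⁻¹)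
      change B x = _ at e1
      change B (v * x * v⁻¹) = _ at e2
      rw [e1, e2, hb]
      have hvx : (⟨v, hVN hv⟩ * ⟨x, hx⟩ * ⟨v, hVN hv⟩⁻¹ : Subgroup.normalizer (W : Set G)) ∈
          Subgroup.centralizer (W' : Set (Subgroup.normalizer (W : Set G))) ↔
          (⟨x, hx⟩ : Subgroup.normalizer (W : Set G)) ∈
          Subgroup.centralizer (W' : Set (Subgroup.normalizer (W : Set G))) := by
        rw [cent_sub hWN, cent_sub hWN]
        exact hcv v hv x
      by_cases hc : (⟨x, hx⟩ : Subgroup.normalizer (W : Set G)) ∈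
          Subgroup.centralizer (W' : Set (Subgroup.normalizer (W : Set G)))
      · rw [H66.br_of_mem hc, H66.br_of_mem (hvx.2 hc)]
        exact hwv ⟨v, hVN hv⟩ (Subgroup.mem_subgroupOf.2 hv) ⟨x, hx⟩
      · rw [H66.br_of_not_mem hc, H66.br_of_not_mem (fun h => hc (hvx.1 h))]
    · rw [hB, H75.ext0_supp _ b x hx, H75.ext0_supp]
      intro h
      apply hx
      have := Subgroup.mul_mem _ (Subgroup.mul_mem _ (Subgroup.inv_mem _ (hVN hv)) h) (hVN hv)
      have e : v⁻¹ * (v * x * v⁻¹) * v = x := by group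
      rwa [e] at this
  have hjV : H66.Inv V j := hjv
  have hBWi : H66.Inv W B := fun p hp t => hBV p (hWV hp) t
  obtain ⟨n, hn, hpw⟩ := hlo (mulF j (mulF B j)) (hjV.mulF (hBV.mulF hjV))
    (by rw [← mulF_assoc, hj]) (by rw [mulF_assoc, mulF_assoc, hj])
  have hbrw : br W (mulF j (mulF B j)) = B := by
    rw [H66.br_mulF hF hWp hjW (hBWi.mulF hjW), H66.br_mulF hF hWp hBWi hjW, hBW]
    have e1 : br W j = H75.ext0 (Subgroup.normalizer (W : Set G)) j' :=
      (H75.ext0_res _ hsW).symm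
    rw [e1, hB, ← H75.ext0_mulF, ← H75.ext0_mulF, hb2, hb1]
  have hpB : br W (pw (mulF j (mulF B j)) n) = pw B n := by
    rw [T8.H84.br_pw hF hWp (hjW.mulF (hBWi.mulF hjW)), hbrw]
  have hpb : pw b n = j' ∨ pw b n = 0 := by
    have e2 : (fun t : Subgroup.normalizer (W : Set G) => pw B n t) = pw b n := by
      rw [hB, pw_ext0]
      exact funext (H75.ext0_apply _ _)
    rcases hpw with h | h
    · left
      rw [← e2, ← hpB, h]
    · right
      rw [← e2, ← hpB, h, H88.br_zero]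
      rfl
  have hbw : br W' (pw w n) = pw b n := T8.H84.br_pw hF hW'p hwW n
  have hwn := T8.H84.inv_pw hwW n
  rcases hpb with h | h
  · obtain ⟨k, hk, hk'⟩ := nkw ℓ F hF _ W' hW'n hW'p (pw w n - j') (by
      intro r hr x
      rw [Pi.sub_apply, Pi.sub_apply, hwn r hr x, hj'W r hr x]) (by
      have e3 : br W' (pw w n - j') = br W' (pw w n) - br W' j' := by
        funext x
        by_cases hx : x ∈ Subgroup.centralizer (W' : Set (Subgroup.normalizer (W : Set G)))
        · rw [Pi.sub_apply, H66.br_of_mem hx, H66.br_of_mem hx, H66.br_of_mem hx, Pi.sub_apply]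
        · rw [Pi.sub_apply, H66.br_of_not_mem hx, H66.br_of_not_mem hx, H66.br_of_not_mem hx,
            sub_zero]
      rw [e3, hbw, h, hbrj', sub_self])
    have hJ : ma j' * ma j' = ma j' := by rw [← ma_mul, hj'j']
    have hX1 : ma j' * ma w ^ n = ma w ^ n := by
      obtain ⟨n', rfl⟩ := Nat.exists_eq_succ_of_ne_zero hn.ne'
      rw [pow_succ', ← mul_assoc, ← ma_mul, hw1]
    have hX2 : ma w ^ n * ma j' = ma w ^ n := by
      obtain ⟨n', rfl⟩ := Nat.exists_eq_succ_of_ne_zero hn.ne'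
      rw [pow_succ, mul_assoc, ← ma_mul, hw2]
    obtain ⟨m, hm⟩ := char_pow (ℓ := ℓ) hJ hX1 hX2 (k := k) (by
      rw [← T8.H84.ma_pw, ← ma_sub, ← T8.H84.ma_pw, hk', ma_zero])
    refine ⟨n * ℓ ^ m, Nat.mul_pos hn (pow_pos (Fact.out : ℓ.Prime).pos m), Or.inl ?_⟩
    apply ma_injective
    rw [T8.H84.ma_pw, pow_mul, hm]
  · obtain ⟨k, hk, hk'⟩ := nkw ℓ F hF _ W' hW'n hW'p (pw w n) hwn (by rw [hbw, h])
    refine ⟨n * k, Nat.mul_pos hn hk, Or.inr ?_⟩
    apply ma_injective
    rw [T8.H84.ma_pw, pow_mul, ← T8.H84.ma_pw, ← T8.H84.ma_pw, hk']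

end main

/-- row JNW -/
theorem jnw : JnwStmt := by
  intro ℓ _ M _ hM G _ _ e V γ hL W hWV c hc j hj
  have hF : GoodF ℓ (FF M) := H50.fld ℓ Fact.out M hM
  have hCWN : Subgroup.centralizer (W : Set G) ≤ Subgroup.normalizer (W : Set G) :=
    Subgroup.centralizer_le_normalizer _
  have hCVW : Subgroup.centralizer (V : Set G) ≤ Subgroup.centralizer (W : Set G) :=
    Subgroup.centralizer_le hWV
  have hCVN := hCVW.trans hCWN
  have hVCV : V ≤ Subgroup.centralizer (V : Set G) := fun a ha =>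
    Subgroup.mem_centralizer_iff.2 fun b hb => hL.ab b hb a ha
  have hVN : V ≤ Subgroup.normalizer (W : Set G) := hVCV.trans hCVN
  have hWp : IsPGroup ℓ W := hL.tp.pg.to_le hWV
  have hjW : H66.Inv W j := fun p hp t => hj.iv p (hWV hp) t
  refine ⟨?_, ?_, ?_, ?_, ?_⟩
  · rw [← mulF_res _ _ (fun x hx => H66.br_of_not_mem (fun h => hx (hCWN h))),
      ← H66.br_mulF hF hWp hjW hjW, hj.id]
  · intro v hv x
    have hv' : (v : G) ∈ V := Subgroup.mem_subgroupOf.1 hv
    have hcv := H20.cent_conj_iff (x := (x : G)) (hVN hv')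
    change br W j ((v : G) * x * (v : G)⁻¹) = br W j x
    by_cases ht : (x : G) ∈ Subgroup.centralizer (W : Set G)
    · rw [H66.br_of_mem ht, H66.br_of_mem (hcv.2 ht)]
      exact hj.iv v hv' x
    · rw [H66.br_of_not_mem ht, H66.br_of_not_mem (fun h => ht (hcv.1 h))]
  · intro Q hQ f hf
    refine jnw_lb hF hL.tp.pg hL.ab hWV hL.gam ?_ Q hQ f hf
    intro P hP
    obtain ⟨f, hf⟩ := (T6.H39.lwd ℓ M hM G e V γ hL P hP).1
    exact ⟨f, hf, hj.lb P hP f hf⟩
  · intro κ hκ
    have h1 := PFC.H75.IrrE_equiv (M := M) (T3.H85.cequiv hVN hCVN).symm hc.gam.blk.1.1 hκ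
    have h2 := hj.nz _ h1
    rw [← finsum_comp_equiv (T3.H85.cequiv hVN hCVN).symm.toEquiv]
    have e : ∀ t : Subgroup.centralizer (V : Set G),
        br W j (((T3.H85.cequiv hVN hCVN).symm t : Subgroup.normalizer (W : Set G)) : G) =
        j t := fun t => H66.br_of_mem (hCVW t.2)
    have e2 : (∑ᶠ t : Subgroup.centralizer (V : Set G),
        br W j (((T3.H85.cequiv hVN hCVN).symm t : Subgroup.normalizer (W : Set G)) : G) *
        rr M (κ ((T3.H85.cequiv hVN hCVN).symm t))) =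
        ∑ᶠ t : Subgroup.centralizer (V : Set G), j t *
        rr M (κ ((T3.H85.cequiv hVN hCVN).symm t)) := finsum_congr fun t => by rw [e t]
    exact fun h => h2 (e2.symm.trans h)
  · intro w hwv hw1 hw2
    exact jnw_lo hF hL.tp.pg hL.ab hWV hj.id hj.iv hj.lo w hwv hw1 hw2

end Pool.Agent.PSS.H41
end
end -- Pool.Agent.Helper41_PSS.JNW
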