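import Pool.Agent.Helper12_AWB.B127
import Pool.Agent.Helper12_AWB.B165
import Pool.Agent.Helper12_AWB.B261

/-!
# Merged copies (generated) of the modules

* `Pool.Agent.AT6.Stmts4`
* `Pool.Agent.Helper15_AT6.IXB`
* `Pool.Agent.Helper64_ATZ.IZB`
* `Pool.Agent.Helper41_AT6.FN6`
* `Pool.Agent.Helper55_AT6.T6A`
* `Pool.Agent.Helper66_AT6.LB6`
* `Pool.Agent.Helper95_AT6.RKA`
-/

set_option autoImplicit false

section -- Pool.Agent.AT6.Stmts4

/-!
# Squad AT6, part 4: the induction on the rank, the theorem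

Theorem T6.  Complete proofs in the docstrings.
-/

open scoped BigOperators

noncomputable section

namespace Pool.Agent.PP.T6

open Pool.Agent.Helper51_AWC Pool.Agent.Helper79_WRA Pool.Agent.PP Pool.Agent.PP.KF
open Pool.Agent.PP.K9 Pool.Agent.PP.K9.H97 Pool.Agent.PP.H75 Pool.Agent.PP.T3 Pool.Agent.PP.T2

attribute [local instance] Ideal.Quotient.field

/-! ## 11. Abelian `ℓ`-groups and the local blocks of the elements of maximal order -/

/-- RKA: the condition `|V : V ^ ℓ| ≤ ℓ ^ r`.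

Proof.  `V ^ n := Uw n V` is the set of the `n`-th powers (`T2.PwuStmt`).  (i) The map
`v ↦ v ^ (ℓ ^ i)` is a surjection `V → V ^ (ℓ ^ i)` which maps `V ^ ℓ` onto `V ^ (ℓ ^ (i+1))`, so
`|V ^ (ℓ ^ i) : V ^ (ℓ ^ (i+1))| ≤ |V : V ^ ℓ|`; multiply for `i < n`.  (ii) If `V = V ^ ℓ` then
`V = V ^ (ℓ ^ n)` for all `n`, so `V = 1`.  (iii) `π` induces a surjection `V/V ^ ℓ → V'/V' ^ ℓ`.
(iv) Let `V' = p(V) ≅ V/⟨v⟩`.  `v` is not in `V ^ ℓ` (otherwise `v = w ^ ℓ` and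
`v ^ (ℓ ^ (a-1)) = w ^ (ℓ ^ a) = 1`), so `|V' : V' ^ ℓ| = |V : V ^ ℓ ⟨v⟩| ≤ |V : V ^ ℓ|/ℓ ≤ ℓ ^ (r-1)`
(all these are powers of `ℓ`; `r ≥ 1` by (ii)). -/
def RkaStmt : Prop := ∀ (ℓ : ℕ) [Fact ℓ.Prime] (G : Type) [Group G] [Finite G] (V : Subgroup G),
  IsPGroup ℓ V → (∀ a ∈ V, ∀ b ∈ V, a * b = b * a) → ∀ r : ℕ,
  Nat.card V ≤ ℓ ^ r * Nat.card (Uw ℓ V) →
  (∀ n : ℕ, Nat.card V ≤ ℓ ^ (r * n) * Nat.card (Uw (ℓ ^ n) V)) ∧ (r = 0 → V = ⊥) ∧
  (∀ (H : Type) [Group H] [Finite H] (V' : Subgroup H), (∃ π : V →* V', Function.Surjective π) →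
    Nat.card V' ≤ ℓ ^ r * Nat.card (Uw ℓ V')) ∧
  ∀ a : ℕ, 0 < a → Monoid.exponent V = ℓ ^ a → ∀ v ∈ V, orderOf v = ℓ ^ a → ∀ C : Subgroup G,
    V ≤ C → ∀ (A : Type) [Group A] [Finite A] (p : C →* A),
    (∀ x : C, p x = 1 ↔ (x : G) ∈ Subgroup.zpowers v) →
    Nat.card ((V.subgroupOf C).map p) ≤ ℓ ^ (r - 1) * Nat.card (Uw ℓ ((V.subgroupOf C).map p))

/-- IXB: the bound for the inertial index.

Proof.  `T/C(V)` acts faithfully on `V`.  Let `S` be the subgroup of the `t ∈ T` which act trivially on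
`V/V ^ ℓ`; for `t ∈ S` some power `t ^ (ℓ ^ k)` is in `C(V)` (`(t - 1) V ≤ V ^ (ℓ ^ i)` implies
`(t ^ ℓ - 1) V ≤ V ^ (ℓ ^ (i+1))`, as in `T2.Ux2Stmt`), and `t ^ m ∈ C(V)`, `m = ix V γ` prime to `ℓ`, so
`S = C(V)`.  So `ix V γ` is at most the number of the automorphisms of `V/V ^ ℓ`, an elementary
abelian group of order at most `ℓ ^ r`, generated by `r` elements: at most `(ℓ ^ r) ^ r`. -/
def IxbStmt : Prop := ∀ (ℓ : ℕ) [Fact ℓ.Prime] (F : Type) [Field F], GoodF ℓ F → ∀ (G : Type)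
  [Group G] [Finite G] (e : G → F) (V : Subgroup G) (γ : G → F), Ld ℓ e V γ → ¬ ℓ ∣ ix V γ →
  ∀ r : ℕ, Nat.card V ≤ ℓ ^ r * Nat.card (Uw ℓ V) → ix V γ ≤ ℓ ^ r ^ 2

/-- LNC: the local block of `v` and its image in `C(v)/⟨v⟩`.

Proof.  `C = C(v)`, `b₁ = b|C`, a block with defect group `V` (LSB), `Z = ⟨v⟩` central in `C`,
`A = C/Z`, `p` the projection, `f = push p b₁`.  `f` is a block (PSG).  A subgroup `R'` good for `f` has
the preimage `R ≥ Z` good for `b₁` (`K9.PugStmt`), `|R'| |Z| = |R| ≤ |V|`, and `p(V)` is good for `f`,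
of order `|V|/|Z|`; so `Tp`.  `p(V)` is abelian.  `γ'`: a block of `C_A(p(V))` under
`br(f) ≠ 0`.  `ln f = ln b₁`: the central `ℓ`-subgroup `Z` acts trivially on the irreducible modular
representations of `C` (`cnt_push`; see `T5.LnbStmt`). -/
def LncStmt : Prop := ∀ (ℓ : ℕ) [Fact ℓ.Prime] (M : Ideal (integralClosure ℤ ℂ)) [M.IsMaximal],
  (ℓ : integralClosure ℤ ℂ) ∈ M → ∀ (G : Type) [Group G] [Finite G] (e : G → FF M)
  (V : Subgroup G) (γ : G → FF M), Ld ℓ e V γ → ∀ v ∈ V, ∀ b, Lc e V γ v b →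
  ∃ (A : Type) (_ : Group A) (_ : Finite A) (p : Cu v →* A), Function.Surjective p ∧
    (∀ x : Cu v, p x = 1 ↔ (x : G) ∈ Subgroup.zpowers v) ∧
    (∃ γ' : A → FF M, Ld ℓ (push p (fun t : Cu v => b t)) ((V.subgroupOf (Cu v)).map p) γ') ∧
    ln (push p (fun t : Cu v => b t)) = ln (fun t : Cu v => b t)

/-! ## 12. The bound for the number of modular characters -/

/-- LB6: the bound for the number of modular characters.

Proof.  Induction on `r`, for all groups.  If `V = ⊥` (in particular if `r = 0`, RKA (ii)) then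
`IrrE e` has one element (`K9.DzoStmt`) and `ln e ≤ 1` (`K9.LbdStmt`).  Let `V ≠ ⊥`, `R = r + 1 ≥ 1`,
the exponent of `V` is `ℓ ^ a`, `a > 0`.  `c = 2 R ^ 2 + 10`: `512 ix ^ 2 < ℓ ^ 10 ℓ ^ (2 R ^ 2) = ℓ ^ c` (IXB,
`K9.InxStmt`).  For `v ∈ V` of order `ℓ ^ a` with local block `b`: `ln b = ln f`, `f` a block of
`C(v)/⟨v⟩` whose defect group `V'` satisfies `|V' : V' ^ ℓ| ≤ ℓ ^ r` (LNC, RKA (iv)), so by induction
`ln b ≤ β = ℓ ^ (2 r ^ 4 + 39 r ^ 2)`.  `N` from `T5.Pr5Stmt`, `ln e ≤ |T5.Rf M N e|` by `T5.Fx5Stmt`.  FBD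
and `|V| ≤ ℓ ^ (R (3 c + 1)) |Uw (ℓ ^ (3 c + 1)) V|` (RKA (i)), `8 ≤ ℓ ^ 3`:
`ln e ≤ ℓ ^ (3 + 2 r ^ 4 + 39 r ^ 2 + R ^ 2 + R (6 R ^ 2 + 31))`, and the exponent is at most
`2 R ^ 4 + 39 R ^ 2` (the difference is `2 r ^ 3 - 7 r ^ 2 + 35 r ≥ 0`). -/
def Lb6Stmt : Prop := ∀ (ℓ : ℕ) [Fact ℓ.Prime] (M : Ideal (integralClosure ℤ ℂ)) [M.IsMaximal],
  (ℓ : integralClosure ℤ ℂ) ∈ M → ∀ (r : ℕ) (G : Type) [Group G] [Finite G] (e : G → FF M)
  (V : Subgroup G) (γ : G → FF M), Ld ℓ e V γ → Nat.card V ≤ ℓ ^ r * Nat.card (Uw ℓ V) →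
    ln e ≤ ℓ ^ (2 * r ^ 4 + 39 * r ^ 2)

/-! ## 13. The theorem -/

/-- T6A: the main theorem for block idempotents.

Proof (compare `T2.T2aStmt`, `Helper92_AT2/T2A.lean`).  Induction on `|G|`.  If `opCore ℓ G ≠ ⊥`:
`YzrStmt`.  Let `opCore ℓ G = ⊥`.  `T2.Ih M ℓ a |G| V (ix V γ)` holds by induction and RKA (iii).
`T2.FstStmt`: `f`; `T2.TesStmt`: `YY ⊤ e = |G| (ln e - ln f_X)`, `X = N(U)`.
`1 ≤ ln e, ln f_X ≤ ℓ ^ a` (`K9.LbdStmt`; LB6 for `G` and for `X`, `f_X`, `V_X ≅ V`).  `V` has an element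
of order `ℓ ^ a`, `V ≠ ⊥`.  `H75.block_case` (with POS) gives `χ` with `res M e χ = 1` and
`|G| altSum χ = YY`, so `altSum χ = ln e - ln f_X`, of absolute value smaller than `ℓ ^ a` and divisible
by `ℓ ^ a` (`T2.DvxStmt`), so `0`. -/
def T6aStmt : Prop := ∀ (ℓ : ℕ) [Fact ℓ.Prime] (M : Ideal (integralClosure ℤ ℂ)) [M.IsMaximal],
  (ℓ : integralClosure ℤ ℂ) ∈ M → ∀ (a r : ℕ), 0 < a → 2 * r ^ 4 + 39 * r ^ 2 ≤ a → ∀ (G : Type)
  [Group G] [Finite G] (e : G → FF M) (V : Subgroup G) (γ : G → FF M), Ld ℓ e V γ →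
  Monoid.exponent V = ℓ ^ a → Nat.card V ≤ ℓ ^ r * Nat.card (Uw ℓ V) → YY ℓ ⊤ e = 0

/-- FN6: the final theorem, alternating sums.

Proof.  `e` the block of `χ` (`H50.bid`), `Z = opCore ℓ G`.  `H75.altSum_central`:
`|G| altSum χ = |Z|² YY ℓ ⊤ (push p e)`.  `T2.DzaStmt`: `Ld ℓ (push p e) (D.map p) γ`.  T6A.
(Compare `T2.Fn2Stmt`, `Helper53_AT2/FN2.lean`.) -/
def Fn6Stmt : Prop := ∀ (ℓ : ℕ) [Fact ℓ.Prime] (M : Ideal (integralClosure ℤ ℂ)) [M.IsMaximal],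
  (ℓ : integralClosure ℤ ℂ) ∈ M → ∀ (G : Type) [Group G] [Finite G],
  opCore ℓ G ≤ Subgroup.center G → ∀ χ ∈ Irr G, ∀ D : Subgroup G, ML.IsDef ℓ M χ D →
  (∀ x ∈ D, ∀ y ∈ D, x * y * x⁻¹ * y⁻¹ ∈ opCore ℓ G) → ∀ (A : Type) [Group A] [Finite A]
  (p : G →* A), Function.Surjective p → p.ker = opCore ℓ G → ∀ a r : ℕ, 0 < a →
  Monoid.exponent (D.map p) = ℓ ^ a → Nat.card (D.map p) ≤ ℓ ^ r * Nat.card (Uw ℓ (D.map p)) →
  2 * r ^ 4 + 39 * r ^ 2 ≤ a → altSum ℓ M χ = 0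

open Classical in
/-- FN7: the final theorem, the number of modular characters: the dimension of the space spanned by
the restrictions to the regular elements of the characters in the block of `χ`.

Proof.  `e` the block of `χ`: the `ψ` in the set are the elements of `IrrE M e` (as in
`T3.FltStmt`, `H50.char_uniq`).  `Tp ℓ e D` (`T2.H24.tp_of_isDef`), `γ` a block of `C(D)` under
`br_D(e) ≠ 0`, so `Ld ℓ e D γ`.  DIM: the space is contained in the span of the `ln e` functions `Q i`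
(set to `0` at the singular elements), so its dimension is at most `ln e`.  LB6. -/
def Fn7Stmt : Prop := ∀ (ℓ : ℕ) [Fact ℓ.Prime] (M : Ideal (integralClosure ℤ ℂ)) [M.IsMaximal],
  (ℓ : integralClosure ℤ ℂ) ∈ M → ∀ (G : Type) [Group G] [Finite G], ∀ χ ∈ Irr G,
  ∀ D : Subgroup G, ML.IsDef ℓ M χ D → (∀ x ∈ D, ∀ y ∈ D, x * y = y * x) → ∀ r : ℕ,
  Nat.card D ≤ ℓ ^ r * Nat.card (Uw ℓ D) →
  Module.finrank ℂ (Submodule.span ℂ {f : G → ℂ | ∃ ψ ∈ IrrBlock M (MonoidHom.id G) χ,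
    f = fun g => if (orderOf g).Coprime ℓ then ψ g else 0}) ≤ ℓ ^ (2 * r ^ 4 + 39 * r ^ 2)

end Pool.Agent.PP.T6
end
end -- Pool.Agent.AT6.Stmts4

section -- Pool.Agent.Helper15_AT6.IXB

/-!
# Squad AT6, row IXB: the inertial index is at most `ℓ ^ (r ^ 2)`
-/

noncomputable section

namespace Pool.Agent.PP.T6.H15

section abstract

variable {V : Type} [CommGroup V]

/-- powers mod the group of the `ℓ`-th powers -/
theorem fr_mem {ℓ m : ℕ} (hm : Nat.Coprime ℓ m) (Φ : Subgroup V) (hΦ : ∀ v : V, v ^ ℓ ∈ Φ)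
    {w : V} (h : w ^ m ∈ Φ) : w ∈ Φ := by
  have h1 : (w : V) = (w ^ ℓ) ^ (Nat.gcdA ℓ m) * (w ^ m) ^ (Nat.gcdB ℓ m) := by
    rw [← zpow_natCast w ℓ, ← zpow_natCast w m, ← zpow_mul, ← zpow_mul, ← zpow_add]
    have h2 := Nat.gcd_eq_gcd_ab ℓ m
    rw [hm] at h2
    rw [← h2]
    simp
  rw [h1]
  exact Φ.mul_mem (Φ.zpow_mem (hΦ w) _) (Φ.zpow_mem h _)

/-- the Frattini argument -/
theorem fr_top {ℓ a : ℕ} (W Φ : Subgroup V) (hΦ : ∀ v ∈ Φ, ∃ z : V, v = z ^ ℓ)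
    (ha : ∀ v : V, v ^ ℓ ^ a = 1) (h : ∀ v : V, ∃ w ∈ W, ∃ f ∈ Φ, v = w * f) (v : V) : v ∈ W := by
  have key : ∀ k : ℕ, ∀ v : V, ∃ w ∈ W, ∃ z : V, v = w * z ^ ℓ ^ k := by
    intro k
    induction k with
    | zero => exact fun v => ⟨1, W.one_mem, v, by simp⟩
    | succ k ih =>
      intro v
      obtain ⟨w, hw, z, rfl⟩ := ih v
      obtain ⟨w', hw', f, hf, rfl⟩ := h z
      obtain ⟨z', rfl⟩ := hΦ f hf
      refine ⟨w * w' ^ ℓ ^ k, W.mul_mem hw (W.pow_mem hw' _), z', ?_⟩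
      rw [mul_pow, ← pow_mul, pow_succ', mul_assoc]
  obtain ⟨w, hw, z, hz⟩ := key a v
  rw [ha, mul_one] at hz
  rw [hz]
  exact hw

/-- the fixed points -/
def fx (r : MulAut V) : Subgroup V where
  carrier := {v | r v = v}
  one_mem' := map_one r
  mul_mem' := by
    intro u v hu hv
    change r (u * v) = u * v
    rw [map_mul, show r u = u from hu, show r v = v from hv]
  inv_mem' := by
    intro u hu
    change r u⁻¹ = u⁻¹
    rw [map_inv, show r u = u from hu]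

theorem mem_fx {r : MulAut V} {v : V} : v ∈ fx r ↔ r v = v := Iff.rfl

/-- the norm is a fixed point -/
theorem norm_mem (r : MulAut V) (m : ℕ) (hr : r ^ m = 1) (v : V) :
    (∏ i ∈ Finset.range m, (r ^ i) v) ∈ fx r := by
  rw [mem_fx, map_prod]
  have h1 : ∀ i, r ((r ^ i) v) = (r ^ (i + 1)) v := by
    intro i
    rw [pow_succ']
    rfl
  simp only [h1]
  have h2 := Finset.prod_range_succ (fun i => (r ^ i) v) m
  have h3 := Finset.prod_range_succ' (fun i => (r ^ i) v) m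
  rw [h2] at h3
  simp only [hr, pow_zero] at h3
  exact (mul_right_cancel h3).symm

/-- an element fixed modulo `Φ` is in `W Φ` -/
theorem fix_mod {ℓ m : ℕ} (hm : Nat.Coprime ℓ m) (r : MulAut V) (hr : r ^ m = 1)
    (Φ : Subgroup V) (hΦ : ∀ v : V, v ^ ℓ ∈ Φ) (hrΦ : ∀ v ∈ Φ, r v ∈ Φ) {v : V} {f : V}
    (hf : f ∈ Φ) (hv : r v = v * f) : v ∈ fx r ⊔ Φ := by
  have h1 : ∀ i : ℕ, ∃ g ∈ Φ, (r ^ i) v = v * g := by
    intro i
    induction i with
    | zero => exact ⟨1, Φ.one_mem, by simp⟩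
    | succ i ih =>
      obtain ⟨g, hg, h⟩ := ih
      refine ⟨f * r g, Φ.mul_mem hf (hrΦ g hg), ?_⟩
      rw [pow_succ', MulAut.mul_apply, h, map_mul, hv, mul_assoc]
  choose g hg h using h1
  have h2 : ∏ i ∈ Finset.range m, (r ^ i) v = v ^ m * ∏ i ∈ Finset.range m, g i := by
    rw [Finset.prod_congr rfl fun i _ => h i, Finset.prod_mul_distrib]
    simp
  have h3 : v ^ m ∈ fx r ⊔ Φ := by
    have h4 : v ^ m = (∏ i ∈ Finset.range m, (r ^ i) v) * (∏ i ∈ Finset.range m, g i)⁻¹ := by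
      rw [h2, mul_inv_cancel_right]
    rw [h4]
    refine Subgroup.mul_mem _ (Subgroup.mem_sup_left (norm_mem r m hr v))
      (Subgroup.mem_sup_right (Φ.inv_mem (Φ.prod_mem fun i _ => hg i)))
  exact fr_mem hm _ (fun u => Subgroup.mem_sup_right (hΦ u)) h3

/-- a proper subgroup of a finite `ℓ`-group has index at least `ℓ` in a larger one -/
theorem card_le {ℓ : ℕ} [hℓ : Fact ℓ.Prime] [Finite V] (hp : IsPGroup ℓ V) (H K : Subgroup V)
    (hHK : H ≤ K) {x : V} (hxK : x ∈ K) (hx : x ∉ H) : ℓ * Nat.card H ≤ Nat.card K := by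
  have hpK : IsPGroup ℓ K := hp.to_subgroup K
  obtain ⟨k, hk⟩ := (IsPGroup.iff_card).1 hpK
  have h0 : Nat.card H * H.relIndex K = Nat.card K := by
    have h2 := Subgroup.card_mul_index (H.subgroupOf K)
    rw [Nat.card_congr (Subgroup.subgroupOfEquivOfLe hHK).toEquiv] at h2
    exact h2
  have h1 : H.relIndex K ∣ ℓ ^ k := by
    rw [← hk, ← h0]
    exact dvd_mul_left _ _
  obtain ⟨j, -, hj⟩ := (Nat.dvd_prime_pow hℓ.out).1 h1
  have h2 : j ≠ 0 := by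
    intro h0
    rw [h0, pow_zero, Subgroup.relIndex_eq_one] at hj
    exact hx (hj hxK)
  have h3 : ℓ ≤ H.relIndex K := by
    rw [hj]
    exact Nat.le_self_pow h2 ℓ
  rw [← h0, mul_comm]
  exact Nat.mul_le_mul_left _ h3

/-- a small set of generators modulo `Φ` -/
theorem gens {ℓ : ℕ} [hℓ : Fact ℓ.Prime] [Finite V] (hp : IsPGroup ℓ V) (Φ : Subgroup V) :
    ∃ S : Finset V, ℓ ^ S.card * Nat.card Φ ≤ Nat.card V ∧
      Subgroup.closure (S : Set V) ⊔ Φ = ⊤ := by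
  classical
  have key : ∀ n : ℕ, (∃ S : Finset V, ℓ ^ S.card * Nat.card Φ ≤ Nat.card V ∧
      Subgroup.closure (S : Set V) ⊔ Φ = ⊤) ∨ ∃ S : Finset V, S.card = n ∧
        ℓ ^ S.card * Nat.card Φ ≤
          Nat.card (Subgroup.closure (S : Set V) ⊔ Φ : Subgroup V) := by
    intro n
    induction n with
    | zero =>
      right
      refine ⟨∅, rfl, ?_⟩
      rw [Finset.card_empty, pow_zero, one_mul, Finset.coe_empty, Subgroup.closure_empty,
        bot_sup_eq]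
    | succ n ih =>
      rcases ih with h | ⟨S, hS, h⟩
      · exact Or.inl h
      · by_cases htop : Subgroup.closure (S : Set V) ⊔ Φ = ⊤
        · left
          refine ⟨S, ?_, htop⟩
          rw [htop, Subgroup.card_top] at h
          exact h
        · right
          obtain ⟨x, hx⟩ : ∃ x, x ∉ Subgroup.closure (S : Set V) ⊔ Φ := by
            by_contra hc
            push Not at hc
            exact htop (eq_top_iff.2 fun y _ => hc y)
          have hxS : x ∉ S := fun h1 =>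
            hx (Subgroup.mem_sup_left (Subgroup.subset_closure (Finset.mem_coe.2 h1)))
          refine ⟨insert x S, by rw [Finset.card_insert_of_notMem hxS, hS], ?_⟩
          have h2 := card_le hp (Subgroup.closure (S : Set V) ⊔ Φ)
            (Subgroup.closure ((insert x S : Finset V) : Set V) ⊔ Φ)
            (sup_le_sup_right (Subgroup.closure_mono (Finset.coe_subset.2
              (Finset.subset_insert x S))) Φ)
            (Subgroup.mem_sup_left (Subgroup.subset_closure (Finset.mem_coe.2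
              (Finset.mem_insert_self x S)))) hx
          rw [Finset.card_insert_of_notMem hxS, pow_succ']
          refine le_trans ?_ h2
          rw [mul_assoc]
          exact Nat.mul_le_mul_left _ h
  rcases key (Nat.card V) with h | ⟨S, hS, h⟩
  · exact h
  · exfalso
    have h1 : Nat.card (Subgroup.closure (S : Set V) ⊔ Φ : Subgroup V) ≤ Nat.card V :=
      Subgroup.card_le_card_group _
    have h2 : Nat.card V < ℓ ^ Nat.card V := Nat.lt_pow_self hℓ.out.one_lt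
    have h3 : ℓ ^ S.card * 1 ≤ ℓ ^ S.card * Nat.card Φ :=
      Nat.mul_le_mul_left _ Nat.card_pos
    rw [hS] at h h3
    omega

/-- a group of automorphisms of order prime to `ℓ` is small -/
theorem aut_card {ℓ r : ℕ} [hℓ : Fact ℓ.Prime] [Finite V] (hp : IsPGroup ℓ V) (Φ : Subgroup V)
    (hΦ : ∀ v : V, v ^ ℓ ∈ Φ) (hΦ' : ∀ v ∈ Φ, ∃ z : V, v = z ^ ℓ)
    (hr : Nat.card V ≤ ℓ ^ r * Nat.card Φ) (A : Subgroup (MulAut V)) (hA : ¬ ℓ ∣ Nat.card A) :
    Nat.card A ≤ ℓ ^ r ^ 2 := by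
  classical
  have hcop : Nat.Coprime ℓ (Nat.card A) := (Nat.Prime.coprime_iff_not_dvd hℓ.out).2 hA
  have hpow : ∀ t ∈ A, t ^ Nat.card A = 1 := by
    intro t ht
    have h1 : (⟨t, ht⟩ : A) ^ Nat.card A = 1 := pow_card_eq_one'
    exact congrArg Subtype.val h1
  have hrΦ : ∀ (r : MulAut V), ∀ v ∈ Φ, r v ∈ Φ := by
    intro r v hv
    obtain ⟨z, rfl⟩ := hΦ' v hv
    rw [map_pow]
    exact hΦ _
  obtain ⟨a, ha⟩ := (IsPGroup.iff_card).1 hp
  have ha' : ∀ v : V, v ^ ℓ ^ a = 1 := fun v => by rw [← ha]; exact pow_card_eq_one'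
  obtain ⟨S, hS, hgen⟩ := gens hp Φ
  have hPpos : 0 < Nat.card Φ := Nat.card_pos
  have hSr : S.card ≤ r := by
    have h1 := Nat.le_of_mul_le_mul_right (hS.trans hr) hPpos
    exact (Nat.pow_le_pow_iff_right hℓ.out.one_lt).1 h1
  have hq : Nat.card (V ⧸ Φ) ≤ ℓ ^ r := by
    have h1 : Nat.card (V ⧸ Φ) * Nat.card Φ = Nat.card V :=
      (Subgroup.card_eq_card_quotient_mul_card_subgroup Φ).symm
    rw [← h1] at hr
    exact Nat.le_of_mul_le_mul_right hr hPpos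
  let f : A → (S → V ⧸ Φ) := fun t x => QuotientGroup.mk ((t : MulAut V) (x : V))
  have hf : Function.Injective f := by
    intro t t' htt
    have h1 : ∀ x ∈ S, x ∈ fx ((t' : MulAut V)⁻¹ * (t : MulAut V)) ⊔ Φ := by
      intro x hx
      have h2 : (QuotientGroup.mk ((t' : MulAut V) x) : V ⧸ Φ) =
          QuotientGroup.mk ((t : MulAut V) x) := (congrFun htt ⟨x, hx⟩).symm
      rw [QuotientGroup.eq] at h2
      refine fix_mod hcop _ (hpow _ (A.mul_mem (A.inv_mem t'.2) t.2)) Φ hΦ (hrΦ _)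
        (f := (t' : MulAut V)⁻¹ (((t' : MulAut V) x)⁻¹ * (t : MulAut V) x)) (hrΦ _ _ h2) ?_
      rw [MulAut.mul_apply, map_mul, map_inv, MulAut.inv_apply_self, mul_inv_cancel_left]
    have h3 : fx ((t' : MulAut V)⁻¹ * (t : MulAut V)) ⊔ Φ = ⊤ := by
      rw [eq_top_iff, ← hgen]
      refine sup_le ?_ le_sup_right
      rw [Subgroup.closure_le]
      exact fun x hx => h1 x (Finset.mem_coe.1 hx)
    have h4 : ∀ v : V, v ∈ fx ((t' : MulAut V)⁻¹ * (t : MulAut V)) := by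
      refine fr_top (ℓ := ℓ) (a := a) _ Φ hΦ' ha' fun v => ?_
      have h5 : v ∈ fx ((t' : MulAut V)⁻¹ * (t : MulAut V)) ⊔ Φ := by
        rw [h3]; exact Subgroup.mem_top v
      obtain ⟨w, hw, p, hp, h7⟩ := Subgroup.mem_sup.1 h5
      exact ⟨w, hw, p, hp, h7.symm⟩
    have h5 : (t' : MulAut V)⁻¹ * (t : MulAut V) = 1 := by
      ext v
      exact h4 v
    exact Subtype.ext (eq_of_inv_mul_eq_one h5).symm
  have h6 := Nat.card_le_card_of_injective f hf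
  have h7 : Nat.card (S → V ⧸ Φ) = Nat.card (V ⧸ Φ) ^ S.card := by
    rw [Nat.card_fun, Nat.card_eq_fintype_card (α := S), Fintype.card_coe]
  rw [h7] at h6
  calc Nat.card A ≤ Nat.card (V ⧸ Φ) ^ S.card := h6
    _ ≤ (ℓ ^ r) ^ S.card := Nat.pow_le_pow_left hq _
    _ ≤ (ℓ ^ r) ^ r := Nat.pow_le_pow_right (pow_pos hℓ.out.pos r) hSr
    _ = ℓ ^ r ^ 2 := by rw [← pow_mul, sq]

end abstract

/-- the group theoretic statement -/
theorem grp {G : Type} [Group G] [Finite G] {ℓ : ℕ} [hℓ : Fact ℓ.Prime] (V T : Subgroup G)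
    (hT : T ≤ Subgroup.normalizer (V : Set G)) (hab : ∀ a ∈ V, ∀ b ∈ V, a * b = b * a)
    (hp : IsPGroup ℓ V) (hw : T2.PwuStmt)
    (hi : ¬ ℓ ∣ (Subgroup.centralizer (V : Set G)).relIndex T) {r : ℕ}
    (hr : Nat.card V ≤ ℓ ^ r * Nat.card (T2.Uw ℓ V)) :
    (Subgroup.centralizer (V : Set G)).relIndex T ≤ ℓ ^ r ^ 2 := by
  obtain ⟨w1, w2, -⟩ := hw G ℓ V hab
  let _ : CommGroup V := { (inferInstance : Group V) with
    mul_comm := fun x y => Subtype.ext (hab x x.2 y y.2) }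
  set A : Subgroup (MulAut V) :=
    (T.subgroupOf (Subgroup.normalizer (V : Set G))).map V.normalizerMonoidHom with hA
  have hAc : Nat.card A = (Subgroup.centralizer (V : Set G)).relIndex T := by
    rw [hA, ← Subgroup.relIndex_ker, Subgroup.normalizerMonoidHom_ker,
      Subgroup.relIndex_subgroupOf hT]
  have hc : Nat.card ((T2.Uw ℓ V).subgroupOf V) = Nat.card (T2.Uw ℓ V) :=
    Nat.card_congr (Subgroup.subgroupOfEquivOfLe w2).toEquiv
  rw [← hAc] at hi ⊢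
  refine aut_card hp ((T2.Uw ℓ V).subgroupOf V) (fun v => ?_) (fun v hv => ?_) ?_ A hi
  · rw [Subgroup.mem_subgroupOf, w1]
    exact ⟨v, v.2, rfl⟩
  · rw [Subgroup.mem_subgroupOf, w1] at hv
    obtain ⟨z, hz, h⟩ := hv
    exact ⟨⟨z, hz⟩, Subtype.ext h⟩
  · rw [hc]; exact hr

open Pool.Agent.Helper51_AWC Pool.Agent.Helper79_WRA Pool.Agent.PP Pool.Agent.PP.KF
open Pool.Agent.PP.K9 Pool.Agent.PP.K9.H97 Pool.Agent.PP.H75 Pool.Agent.PP.T3

/-- Row IXB. -/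
theorem ixb (hw : T2.PwuStmt) : IxbStmt := by
  intro ℓ _ F _ hF G _ _ e V γ hL hi r hr
  exact grp V (Tg V γ) inf_le_left hL.ab hL.tp.pg hw hi hr

end Pool.Agent.PP.T6.H15
end
end -- Pool.Agent.Helper15_AT6.IXB

section -- Pool.Agent.Helper64_ATZ.IZB

/-!
# Squad ATZ, module IZB: the order of `E`
-/

open scoped BigOperators

noncomputable section

namespace Pool.Agent.PP.TB.H64

open Pool.Agent.Helper51_AWC Pool.Agent.Helper79_WRA Pool.Agent.PP Pool.Agent.PP.KF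
open Pool.Agent.PP.K9 Pool.Agent.PP.K9.H97 Pool.Agent.PP.H75 Pool.Agent.PP.T3 Pool.Agent.PP.T2
open Pool.Agent.PP.T5

attribute [local instance] Ideal.Quotient.field

/-- IZB -/
theorem izb (zcp : ZcpStmt) (hw : T2.PwuStmt) : IzbStmt := by
  intro ℓ _ M _ hM G _ _ e V Z γ b h r hr
  obtain ⟨-, -, -, -, hi, -, -⟩ := zcp ℓ M hM G e V Z γ b h
  have hT : Tg V γ ≤ Subgroup.normalizer (Z : Set G) := by
    intro t ht
    rw [Subgroup.mem_normalizer_iff]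
    intro z
    constructor
    · exact fun hz => h.nrm t ht z hz
    · intro hz
      have h1 := h.nrm t⁻¹ (inv_mem ht) _ hz
      rw [inv_inv] at h1
      have h2 : t⁻¹ * (t * z * t⁻¹) * t = z := by group
      rw [h2] at h1
      exact h1
  have hab : ∀ x ∈ Z, ∀ y ∈ Z, x * y = y * x := fun x hx y hy => h.cen y hy x (h.le hx)
  have hiz : iz V Z γ = (Subgroup.centralizer (Z : Set G)).relIndex (Tg V γ) :=
    Subgroup.inf_relIndex_right _ _
  rw [hiz] at hi ⊢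
  have h3 := T6.H15.grp Z (Tg V γ) hT hab (h.tp.pg.to_le h.le) hw hi hr
  rw [sq] at h3
  exact h3

end Pool.Agent.PP.TB.H64
end
end -- Pool.Agent.Helper64_ATZ.IZB

section -- Pool.Agent.Helper41_AT6.FN6

/-!
# Squad AT6, module FN6: the final theorem, alternating sums
-/

open scoped BigOperators

noncomputable section

namespace Pool.Agent.PP.T6.H41

open Pool.Agent.Helper51_AWC Pool.Agent.Helper79_WRA Pool.Agent.PP Pool.Agent.PP.KF
open Pool.Agent.PP.K9 Pool.Agent.PP.K9.H97 Pool.Agent.PP.H75 Pool.Agent.PP.T3 Pool.Agent.PP.T2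

attribute [local instance] Ideal.Quotient.field

/-- FN6 -/
theorem fn6 (hT6A : T6aStmt) (hDZA : DzaStmt) : Fn6Stmt := by
  classical
  intro ℓ hfact M _ hM G _ _ hc χ hχ D hD hcomm A _ _ p hsurj hker a r ha hexp hcard hra
  have hℓ : ℓ.Prime := hfact.out
  have hF : GoodF ℓ (FF M) := H50.fld ℓ hℓ M hM
  have hn : (opCore ℓ G).Normal := H75.opCore_normal (A := G) ℓ
  obtain ⟨e, he, h1, h2⟩ := H50.bid ℓ hℓ M hM G χ hχ
  have hkp : IsPGroup ℓ p.ker := by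
    rw [hker]
    exact H75.opCore_isPGroup hℓ
  have hkc : p.ker ≤ Subgroup.center G := by
    rw [hker]
    exact hc
  obtain ⟨hblk, -, -, γ, hL⟩ := hDZA ℓ M hM G hc χ hχ D hD hcomm e he h1 A p hsurj hker
  have heq := H75.altSum_central H20.nls H20.brm H63.smt H94.nch
    (H50.dic H20.ibn H20.nls H20.brm) hℓ M hM hF hsurj hker hkp hkc χ hχ e he h1 h2
  have h0 : YY ℓ (⊤ : Subgroup A) (push p e) = 0 :=
    hT6A ℓ M hM a r ha hra A (push p e) (D.map p) γ hL hexp hcard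
  rw [h0, mul_zero] at heq
  rcases mul_eq_zero.1 heq with h | h
  · exact absurd h (by exact_mod_cast (Nat.card_pos (α := G)).ne')
  · exact h

end Pool.Agent.PP.T6.H41
end
end -- Pool.Agent.Helper41_AT6.FN6

section -- Pool.Agent.Helper55_AT6.T6A

/-!
# Squad AT6, row T6A: the main theorem for block idempotents
-/

open scoped BigOperators

noncomputable section

namespace Pool.Agent.PP.T6.H55

open Pool.Agent.Helper51_AWC Pool.Agent.Helper79_WRA Pool.Agent.PP Pool.Agent.PP.KF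
open Pool.Agent.PP.K9 Pool.Agent.PP.K9.H97 Pool.Agent.PP.H75 Pool.Agent.PP.T3 Pool.Agent.PP.T2

attribute [local instance] Ideal.Quotient.field

theorem t6a (hLB6 : Lb6Stmt) (hRKA : RkaStmt) (hFST : T2.FstStmt) (hTES : T2.TesStmt)
    (hDVX : T2.DvxStmt) : T6aStmt := by
  intro ℓ hℓ M _ hM a r ha har
  have hF : GoodF ℓ (FF M) := H50.fld ℓ Fact.out M hM
  suffices hmain : ∀ n : ℕ, ∀ (G : Type) [Group G] [Finite G], Nat.card G = n →
      ∀ (e : G → FF M) (V : Subgroup G) (γ : G → FF M), Ld ℓ e V γ → Monoid.exponent V = ℓ ^ a →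
      Nat.card V ≤ ℓ ^ r * Nat.card (Uw ℓ V) → YY ℓ ⊤ e = 0 by
    intro G _ _ e V γ h1 h2 h3
    exact hmain _ G rfl e V γ h1 h2 h3
  intro n
  induction n using Nat.strong_induction_on with
  | _ n ih =>
  intro G _ _ hn e V γ hL hE hR
  by_cases hO : opCore ℓ G = ⊥
  swap
  · exact H96.yzr ℓ (FF M) hℓ.out G ⊤ inferInstance (opCore_top_ne rfl hO) e
  have hq : ∀ (H : Type) [Group H] [Finite H] (V' : Subgroup H),
      (∃ π : V →* V', Function.Surjective π) → Nat.card V' ≤ ℓ ^ r * Nat.card (Uw ℓ V') :=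
    (hRKA ℓ G V hL.tp.pg hL.ab r hR).2.2.1
  have hIh : Ih M ℓ a (Nat.card G) V (ix V γ) := by
    intro A _ _ hA f V' γ' hL' he hπ _
    exact ih (Nat.card A) (hn ▸ hA) A rfl f V' γ' hL' he (hq A V' hπ)
  obtain ⟨f, hf⟩ := hFST ℓ M hM G e V γ hL (ℓ ^ (a - 1))
  have h1 := hTES ℓ M hM G e V γ hL a ha hE _ rfl f hf hIh
  set U : Subgroup G := Uw (ℓ ^ (a - 1)) V with hU
  have hVX : V ≤ Subgroup.normalizer (U : Set G) := Subgroup.le_normalizer.trans hf.nle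
  have eV : V.subgroupOf (Subgroup.normalizer (U : Set G)) ≃* V :=
    Subgroup.subgroupOfEquivOfLe hVX
  have hR' : Nat.card (V.subgroupOf (Subgroup.normalizer (U : Set G))) ≤
      ℓ ^ r * Nat.card (Uw ℓ (V.subgroupOf (Subgroup.normalizer (U : Set G)))) :=
    hq _ _ ⟨eV.symm.toMonoidHom, eV.symm.surjective⟩
  have hpow : ℓ ^ (2 * r ^ 4 + 39 * r ^ 2) ≤ ℓ ^ a :=
    Nat.pow_le_pow_right hℓ.out.pos har
  have h2 := (hLB6 ℓ M hM r G e V γ hL hR).trans hpow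
  have h3 := (hLB6 ℓ M hM r _ _ _ _ hf.ld hR').trans hpow
  obtain ⟨a1, -⟩ := H3.lbd ℓ M hM G e hL.blk.1 hL.blk.2.1
  obtain ⟨b1, -⟩ := H3.lbd ℓ M hM _ _ hf.ld.blk.1 hf.ld.blk.2.1
  have a2 : 1 ≤ ln e := a1
  have b2 : 1 ≤ ln (fun t : Subgroup.normalizer (U : Set G) => f t) := b1
  obtain ⟨z, hz⟩ : ∃ z : V, orderOf z = Monoid.exponent V := by
    let _ : CommGroup V := { (inferInstance : Group V) with
      mul_comm := fun x y => Subtype.ext (hL.ab x x.2 y y.2) }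
    exact Monoid.exists_orderOf_eq_exponent (Monoid.ExponentExists.of_finite)
  have hz' : orderOf (z : G) = ℓ ^ a := by
    rw [← hE, ← hz, Subgroup.orderOf_coe]
  have hV : V ≠ ⊥ := by
    intro hb
    have h5 : (z : G) = 1 := Subgroup.mem_bot.1 (hb ▸ z.2 : (z : G) ∈ (⊥ : Subgroup G))
    rw [h5, orderOf_one] at hz'
    have h6 : 1 < ℓ ^ a := Nat.one_lt_pow ha.ne' hℓ.out.one_lt
    omega
  obtain ⟨χ, hχ, r1, -, r3⟩ := H75.block_case H20.nls H20.brm H63.smt H94.nch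
    (H50.dic H20.ibn H20.nls H20.brm) H50.bid H50.chp H50.ldp H50.fld hℓ.out hM hO hL.blk
    (T3.H38.pos ℓ (FF M) hF G e hL.blk V hL.tp.pg hV hL.tp.gd)
  have h4 := hDVX ℓ M hM G hO e V γ hL hV χ hχ r1 z z.2
  rw [hz'] at h4
  rw [h1] at r3
  have h7 : (Nat.card G : ℤ) ≠ 0 := by exact_mod_cast Nat.card_pos.ne'
  have h8 := mul_left_cancel₀ h7 r3
  have h9 : (ln e : ℤ) - ln (fun t : Subgroup.normalizer (U : Set G) => f t) = 0 := by
    rw [h8] at h4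
    refine Int.eq_zero_of_abs_lt_dvd h4 ?_
    rw [abs_lt]
    push_cast
    have h2' : (ln e : ℤ) ≤ (ℓ : ℤ) ^ a := by exact_mod_cast h2
    have h3' : (ln (fun t : Subgroup.normalizer (U : Set G) => f t) : ℤ) ≤ (ℓ : ℤ) ^ a := by
      exact_mod_cast h3
    have a2' : (1 : ℤ) ≤ (ln e : ℤ) := by exact_mod_cast a2
    have b2' : (1 : ℤ) ≤ (ln (fun t : Subgroup.normalizer (U : Set G) => f t) : ℤ) := by
      exact_mod_cast b2
    constructor <;> linarith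
  rw [h1, h9, mul_zero]

end Pool.Agent.PP.T6.H55
end
end -- Pool.Agent.Helper55_AT6.T6A

section -- Pool.Agent.Helper66_AT6.LB6

/-!
# Squad AT6, row LB6: the bound for the number of modular characters, induction on the rank
-/

open scoped BigOperators

noncomputable section

namespace Pool.Agent.PP.T6.H66

open Pool.Agent.Helper51_AWC Pool.Agent.Helper79_WRA Pool.Agent.PP Pool.Agent.PP.KF
open Pool.Agent.PP.K9 Pool.Agent.PP.K9.H97 Pool.Agent.PP.H75 Pool.Agent.PP.T3 Pool.Agent.PP.T2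

attribute [local instance] Ideal.Quotient.field

theorem expo (r : ℕ) : 3 + (2 * r ^ 4 + 39 * r ^ 2) + (r + 1) ^ 2 +
    (r + 1) * (3 * (2 * (r + 1) ^ 2 + 10) + 1) ≤ 2 * (r + 1) ^ 4 + 39 * (r + 1) ^ 2 := by
  have h : (7 : ℤ) * r ^ 2 ≤ 2 * r ^ 3 + 35 * r := by
    have h0 : (0 : ℤ) ≤ r := Int.natCast_nonneg r
    nlinarith [mul_nonneg h0 (sq_nonneg (4 * (r : ℤ) - 7))]
  zify
  nlinarith [h]

theorem ln_le_one (dzo : K9.DzoStmt) (lbd : K9.LbdStmt) (ℓ : ℕ) [Fact ℓ.Prime]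
    (M : Ideal (integralClosure ℤ ℂ)) [M.IsMaximal] (hM : (ℓ : integralClosure ℤ ℂ) ∈ M)
    (G : Type) [Group G] [Finite G] (e : G → FF M) (he : IsBlk e)
    (ht : Tp ℓ e (⊥ : Subgroup G)) : ln e ≤ 1 := by
  obtain ⟨κ, hκ, _⟩ := dzo ℓ M hM G e he (fun Q hQ hg => by
    have h1 := ht.mx Q hQ hg
    rw [Subgroup.card_bot] at h1
    exact Subgroup.eq_bot_of_card_le Q h1)
  have h2 := (lbd ℓ M hM G e he.1 he.2.1).2
  rw [hκ, Set.ncard_singleton] at h2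
  exact h2

theorem lb6 (rka : RkaStmt) (ixb : IxbStmt) (lnc : LncStmt) (fbd : FbdStmt)
    (pr5 : T5.Pr5Stmt) (fx5 : T5.Fx5Stmt) (dzo : K9.DzoStmt) (lbd : K9.LbdStmt) : Lb6Stmt := by
  intro ℓ _ M _ hM r
  have hpr : ℓ.Prime := Fact.out
  have hF : GoodF ℓ (FF M) := H50.fld ℓ Fact.out M hM
  induction r with
  | zero =>
    intro G _ _ e V γ hL hr
    have hV := (rka ℓ G V hL.tp.pg hL.ab 0 hr).2.1 rfl
    have ht := hL.tp
    rw [hV] at ht
    have := ln_le_one dzo lbd ℓ M hM G e hL.blk ht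
    simpa using this
  | succ r ih =>
    intro G _ _ e V γ hL hr
    by_cases hV : V = ⊥
    · have ht := hL.tp
      rw [hV] at ht
      exact (ln_le_one dzo lbd ℓ M hM G e hL.blk ht).trans (Nat.one_le_pow _ _ hpr.pos)
    obtain ⟨R1, _, _, R4⟩ := rka ℓ G V hL.tp.pg hL.ab (r + 1) hr
    -- the exponent
    obtain ⟨k, hk⟩ := IsPGroup.iff_card.1 hL.tp.pg
    have hexd : Monoid.exponent V ∣ ℓ ^ k := by
      rw [← hk]
      exact Group.exponent_dvd_nat_card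
    obtain ⟨a, _, ha⟩ := (Nat.dvd_prime_pow hpr).1 hexd
    have ha0 : 0 < a := by
      rcases Nat.eq_zero_or_pos a with h0 | h0
      · exfalso
        rw [h0, pow_zero, Monoid.exp_eq_one_iff] at ha
        have := ha
        exact hV (Subgroup.eq_bot_of_subsingleton V)
      · exact h0
    have hix : ¬ ℓ ∣ ix V γ :=
      H34.inx ℓ M hM G e hL.blk V hL.tp hL.ab γ hL.gam.supp hL.gam.blk hL.und
    have hixb : ix V γ ≤ ℓ ^ (r + 1) ^ 2 := ixb ℓ (FF M) hF G e V γ hL hix (r + 1) hr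
    obtain ⟨N, hN⟩ := pr5 ℓ G
    have h1 := fx5 ℓ M hM G N hN e hL.blk.1
    set c : ℕ := 2 * (r + 1) ^ 2 + 10 with hc
    have hcc : 512 * ix V γ ^ 2 < ℓ ^ c := by
      have e1 : ix V γ ^ 2 ≤ ℓ ^ (2 * (r + 1) ^ 2) := by
        calc ix V γ ^ 2 ≤ (ℓ ^ (r + 1) ^ 2) ^ 2 := Nat.pow_le_pow_left hixb 2
          _ = ℓ ^ (2 * (r + 1) ^ 2) := by rw [← pow_mul, mul_comm]
      have e2 : 512 < ℓ ^ 10 := by
        calc 512 < 2 ^ 10 := by norm_num
          _ ≤ ℓ ^ 10 := Nat.pow_le_pow_left hpr.two_le 10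
      calc 512 * ix V γ ^ 2 ≤ 512 * ℓ ^ (2 * (r + 1) ^ 2) := Nat.mul_le_mul_left _ e1
        _ < ℓ ^ 10 * ℓ ^ (2 * (r + 1) ^ 2) :=
            Nat.mul_lt_mul_of_pos_right e2 (pow_pos hpr.pos _)
        _ = ℓ ^ c := by rw [← pow_add, hc, add_comm]
    have hβ : ∀ v ∈ V, orderOf v = ℓ ^ a → ∀ b, Lc e V γ v b →
        ln (fun t : Cu v => b t) ≤ ℓ ^ (2 * r ^ 4 + 39 * r ^ 2) := by
      intro v hv hva b hb
      obtain ⟨A, iA, fA, p, hp, hker, ⟨γ', hγ'⟩, hln⟩ := lnc ℓ M hM G e V γ hL v hv b hb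
      rw [← hln]
      apply ih A _ _ γ' hγ'
      have h4 := R4 a ha0 ha v hv hva (Cu v) (fun x hx => by
        rw [Subgroup.mem_centralizer_singleton_iff]
        exact hL.ab x hx v hv) A p hker
      rwa [Nat.add_sub_cancel] at h4
    have h2 := fbd ℓ M hM G N hN e V γ hL a ha0 ha c hcc _ hβ
    have h3 := R1 (3 * c + 1)
    have hW : 0 < Nat.card (Uw (ℓ ^ (3 * c + 1)) V) := Nat.card_pos
    have h5 : (T5.Rf M N e).ncard * Nat.card (Uw (ℓ ^ (3 * c + 1)) V) ≤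
        (8 * ℓ ^ (2 * r ^ 4 + 39 * r ^ 2) * ix V γ * ℓ ^ ((r + 1) * (3 * c + 1))) *
          Nat.card (Uw (ℓ ^ (3 * c + 1)) V) := by
      calc _ ≤ _ := h2
        _ ≤ 8 * ℓ ^ (2 * r ^ 4 + 39 * r ^ 2) * ix V γ *
            (ℓ ^ ((r + 1) * (3 * c + 1)) * Nat.card (Uw (ℓ ^ (3 * c + 1)) V)) :=
          Nat.mul_le_mul_left _ h3
        _ = _ := by ring
    have h6 := Nat.le_of_mul_le_mul_right h5 hW
    calc ln e ≤ (T5.Rf M N e).ncard := h1
      _ ≤ 8 * ℓ ^ (2 * r ^ 4 + 39 * r ^ 2) * ix V γ * ℓ ^ ((r + 1) * (3 * c + 1)) := h6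
      _ ≤ ℓ ^ 3 * ℓ ^ (2 * r ^ 4 + 39 * r ^ 2) * ℓ ^ (r + 1) ^ 2 *
          ℓ ^ ((r + 1) * (3 * c + 1)) := by
        apply Nat.mul_le_mul_right
        apply Nat.mul_le_mul _ hixb
        apply Nat.mul_le_mul_right
        calc 8 = 2 ^ 3 := by norm_num
          _ ≤ ℓ ^ 3 := Nat.pow_le_pow_left hpr.two_le 3
      _ = ℓ ^ (3 + (2 * r ^ 4 + 39 * r ^ 2) + (r + 1) ^ 2 + (r + 1) * (3 * c + 1)) := by
        rw [pow_add _ (3 + _ + _), pow_add _ (3 + _), pow_add _ 3]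
      _ ≤ ℓ ^ (2 * (r + 1) ^ 4 + 39 * (r + 1) ^ 2) := by
        apply Nat.pow_le_pow_right hpr.pos
        rw [hc]
        exact expo r

end Pool.Agent.PP.T6.H66
end
end -- Pool.Agent.Helper66_AT6.LB6

section -- Pool.Agent.Helper95_AT6.RKA

/-!
# RKA: the condition `|V : V ^ ℓ| ≤ ℓ ^ r`
-/

set_option autoImplicit false
set_option linter.unusedSectionVars false
set_option linter.style.haveILetI false

noncomputable section

namespace Pool.Agent.PP.T6.H95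

open Pool.Agent.Helper51_AWC Pool.Agent.Helper79_WRA Pool.Agent.PP Pool.Agent.PP.KF
open Pool.Agent.PP.K9 Pool.Agent.PP.K9.H97 Pool.Agent.PP.H75 Pool.Agent.PP.T3 Pool.Agent.PP.T2

section

variable {G : Type} [Group G] [Finite G]

/-- the map `v ↦ v ^ n` -/
def pw {V : Subgroup G} (hV : ∀ a ∈ V, ∀ b ∈ V, a * b = b * a) (n : ℕ) : V →* V where
  toFun v := v ^ n
  map_one' := one_pow n
  map_mul' a b := by
    have h : Commute a b := by
      ext
      exact hV a a.2 b b.2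
    exact h.mul_pow n

theorem Uw_range (hPWU : PwuStmt) {V : Subgroup G} (hV : ∀ a ∈ V, ∀ b ∈ V, a * b = b * a) (n : ℕ) :
    (Uw n V).subgroupOf V = (pw hV n).range := by
  obtain ⟨h1, h2, -⟩ := hPWU G n V hV
  ext x
  rw [Subgroup.mem_subgroupOf, h1, MonoidHom.mem_range]
  constructor
  · rintro ⟨v, hv, h⟩
    exact ⟨⟨v, hv⟩, Subtype.ext h.symm⟩
  · rintro ⟨v, rfl⟩
    exact ⟨v, v.2, rfl⟩

theorem Uw_card (hPWU : PwuStmt) {V : Subgroup G} (hV : ∀ a ∈ V, ∀ b ∈ V, a * b = b * a) (n : ℕ) :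
    Nat.card (Uw n V) = Nat.card (pw hV n).range := by
  obtain ⟨h1, h2, -⟩ := hPWU G n V hV
  rw [← Uw_range hPWU hV n]
  exact (Nat.card_congr (Subgroup.subgroupOfEquivOfLe h2).toEquiv).symm

/-- the condition in terms of the index -/
theorem idx_iff (hPWU : PwuStmt) {V : Subgroup G} (hV : ∀ a ∈ V, ∀ b ∈ V, a * b = b * a) (n k : ℕ) :
    Nat.card V ≤ k * Nat.card (Uw n V) ↔ (pw hV n).range.index ≤ k := by
  rw [Uw_card hPWU hV n, ← Subgroup.card_mul_index (pw hV n).range, mul_comm]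
  have h : 0 < Nat.card (pw hV n).range := Nat.card_pos
  exact Nat.mul_le_mul_right_iff h

theorem ker_le (hPWU : PwuStmt) {V : Subgroup G} (hV : ∀ a ∈ V, ∀ b ∈ V, a * b = b * a)
    {n k : ℕ} (h : Nat.card V ≤ k * Nat.card (Uw n V)) : Nat.card (pw hV n).ker ≤ k := by
  rw [Uw_card hPWU hV n, ← Subgroup.card_mul_index (pw hV n).ker, Subgroup.index_ker] at h
  have h0 : 0 < Nat.card (pw hV n).range := Nat.card_pos
  exact (Nat.mul_le_mul_right_iff h0).1 h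

theorem step (hPWU : PwuStmt) {V : Subgroup G} (hV : ∀ a ∈ V, ∀ b ∈ V, a * b = b * a)
    {ℓ k : ℕ} (h : Nat.card V ≤ k * Nat.card (Uw ℓ V)) (n : ℕ) :
    Nat.card (Uw n V) ≤ k * Nat.card (Uw (n * ℓ) V) := by
  rw [Uw_card hPWU hV, Uw_card hPWU hV]
  set S := (pw hV n).range with hS
  have h1 : ((pw hV ℓ).comp S.subtype).range = (pw hV (n * ℓ)).range := by
    ext x
    constructor
    · rintro ⟨⟨_, ⟨y, rfl⟩⟩, rfl⟩
      exact ⟨y, pow_mul y n ℓ⟩
    · rintro ⟨y, rfl⟩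
      exact ⟨⟨pw hV n y, ⟨y, rfl⟩⟩, (pow_mul y n ℓ).symm⟩
  have h2 : Nat.card S = Nat.card ((pw hV ℓ).comp S.subtype).ker *
      Nat.card (pw hV (n * ℓ)).range := by
    rw [← h1, ← Subgroup.index_ker ((pw hV ℓ).comp S.subtype), Subgroup.card_mul_index]
  rw [h2]
  refine Nat.mul_le_mul_right _ (le_trans ?_ (ker_le hPWU hV h))
  refine Nat.card_le_card_of_injective
    (fun x => (⟨x.1.1, x.2⟩ : (pw hV ℓ).ker)) ?_
  intro x y hxy
  apply Subtype.ext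
  apply Subtype.ext
  exact congrArg (fun z : (pw hV ℓ).ker => (z : V)) hxy

theorem part1 (hPWU : PwuStmt) {V : Subgroup G} (hV : ∀ a ∈ V, ∀ b ∈ V, a * b = b * a)
    {ℓ r : ℕ} (h : Nat.card V ≤ ℓ ^ r * Nat.card (Uw ℓ V)) (n : ℕ) :
    Nat.card V ≤ ℓ ^ (r * n) * Nat.card (Uw (ℓ ^ n) V) := by
  induction n with
  | zero =>
    have h1 : (pw hV 1).range = ⊤ := by
      rw [eq_top_iff]
      rintro x -
      exact ⟨x, pow_one x⟩
    rw [mul_zero, pow_zero, one_mul, Uw_card hPWU hV, h1, Subgroup.card_top]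
  | succ n ih =>
    refine le_trans ih ?_
    have h1 := step hPWU hV h (ℓ ^ n)
    rw [mul_add, mul_one, pow_add, mul_assoc, pow_succ]
    exact Nat.mul_le_mul_left _ h1

theorem part2 (hPWU : PwuStmt) {V : Subgroup G} (hV : ∀ a ∈ V, ∀ b ∈ V, a * b = b * a)
    {ℓ : ℕ} [Fact ℓ.Prime] (hP : IsPGroup ℓ V) (h : Nat.card V ≤ 1 * Nat.card (Uw ℓ V)) :
    V = ⊥ := by
  by_contra hne
  have h1 := ker_le hPWU hV h
  obtain ⟨n, hn⟩ := (IsPGroup.iff_card (p := ℓ) (G := V)).1 hP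
  have hn0 : n ≠ 0 := by
    rintro rfl
    rw [pow_zero] at hn
    exact hne (Subgroup.card_eq_one.1 hn)
  have hd : ℓ ∣ Nat.card V := by
    rw [hn]
    exact dvd_pow_self ℓ hn0
  obtain ⟨x, hx⟩ := exists_prime_orderOf_dvd_card' ℓ hd
  have hx1 : x ∈ (pw hV ℓ).ker := by
    rw [MonoidHom.mem_ker]
    show x ^ ℓ = 1
    rw [← hx, pow_orderOf_eq_one]
  have h2 : (⟨x, hx1⟩ : (pw hV ℓ).ker) = 1 := by
    haveI : Subsingleton (pw hV ℓ).ker := by
      rw [← Finite.card_le_one_iff_subsingleton]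
      exact h1
    exact Subsingleton.elim _ _
  have h3 : x = 1 := congrArg Subtype.val h2
  rw [h3, orderOf_one] at hx
  exact (Fact.out : ℓ.Prime).one_lt.ne hx

theorem comm_img {V : Subgroup G} (hV : ∀ a ∈ V, ∀ b ∈ V, a * b = b * a) {H : Type} [Group H]
    {V' : Subgroup H} {π : V →* V'} (hπ : Function.Surjective π) :
    ∀ a ∈ V', ∀ b ∈ V', a * b = b * a := by
  intro a ha b hb
  obtain ⟨x, hx⟩ := hπ ⟨a, ha⟩
  obtain ⟨y, hy⟩ := hπ ⟨b, hb⟩
  have h1 : x * y = y * x := Subtype.ext (hV x x.2 y y.2)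
  have h2 : (⟨a, ha⟩ : V') * ⟨b, hb⟩ = ⟨b, hb⟩ * ⟨a, ha⟩ := by
    rw [← hx, ← hy, ← map_mul, h1, map_mul]
  exact congrArg Subtype.val h2

theorem le_comap {V : Subgroup G} (hV : ∀ a ∈ V, ∀ b ∈ V, a * b = b * a) {H : Type} [Group H]
    {V' : Subgroup H} (hV' : ∀ a ∈ V', ∀ b ∈ V', a * b = b * a) (π : V →* V') (n : ℕ) :
    (pw hV n).range ≤ ((pw hV' n).range).comap π := by
  rintro x ⟨y, rfl⟩
  exact ⟨π y, (map_pow π y n).symm⟩

theorem part3 (hPWU : PwuStmt) {V : Subgroup G} (hV : ∀ a ∈ V, ∀ b ∈ V, a * b = b * a)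
    {n k : ℕ} (h : Nat.card V ≤ k * Nat.card (Uw n V)) {H : Type} [Group H] [Finite H]
    {V' : Subgroup H} {π : V →* V'} (hπ : Function.Surjective π) :
    Nat.card V' ≤ k * Nat.card (Uw n V') := by
  have hV' := comm_img hV hπ
  rw [idx_iff hPWU hV'] 
  rw [idx_iff hPWU hV] at h
  refine le_trans ?_ h
  rw [← Subgroup.index_comap_of_surjective _ hπ]
  refine Nat.le_of_dvd ?_ (Subgroup.index_dvd_of_le (le_comap hV hV' π n))
  exact Nat.pos_of_ne_zero Subgroup.index_ne_zero_of_finite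

theorem part4 (hPWU : PwuStmt) {V : Subgroup G} (hV : ∀ a ∈ V, ∀ b ∈ V, a * b = b * a)
    {ℓ r : ℕ} [Fact ℓ.Prime] (hP : IsPGroup ℓ V) (h : Nat.card V ≤ ℓ ^ r * Nat.card (Uw ℓ V))
    {a : ℕ} (ha : 0 < a) (hexp : Monoid.exponent V = ℓ ^ a) {v : V} (hv : orderOf v = ℓ ^ a)
    {H : Type} [Group H] [Finite H] {V' : Subgroup H} {π : V →* V'} (hπ : Function.Surjective π)
    (hv1 : π v = 1) : Nat.card V' ≤ ℓ ^ (r - 1) * Nat.card (Uw ℓ V') := by
  have hℓ : ℓ.Prime := Fact.out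
  have hV' := comm_img hV hπ
  rw [idx_iff hPWU hV'] 
  rw [idx_iff hPWU hV] at h
  rw [← Subgroup.index_comap_of_surjective _ hπ]
  have hle := le_comap hV hV' π ℓ
  have hvn : v ∉ (pw hV ℓ).range := by
    rintro ⟨w, hw⟩
    have hw' : v = w ^ ℓ := hw.symm
    have h1 : v ^ ℓ ^ (a - 1) = 1 := by
      rw [hw', ← pow_mul, ← pow_succ', Nat.sub_add_cancel ha, ← hexp, Monoid.pow_exponent_eq_one]
    have h2 := orderOf_dvd_of_pow_eq_one h1
    rw [hv] at h2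
    have h3 := Nat.le_of_dvd (pow_pos hℓ.pos _) h2
    have h4 := (Nat.pow_le_pow_iff_right hℓ.one_lt).1 h3
    omega
  have hne : ((pw hV' ℓ).range.comap π).index ≠ (pw hV ℓ).range.index := by
    intro heq
    have h1 := Subgroup.card_mul_index ((pw hV' ℓ).range.comap π)
    rw [heq, ← Subgroup.card_mul_index (pw hV ℓ).range] at h1
    have h2 : Nat.card ((pw hV' ℓ).range.comap π) = Nat.card (pw hV ℓ).range :=
      Nat.eq_of_mul_eq_mul_right (Nat.pos_of_ne_zero Subgroup.index_ne_zero_of_finite) h1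
    have h3 : (pw hV ℓ).range = (pw hV' ℓ).range.comap π :=
      Subgroup.eq_of_le_of_card_ge hle h2.le
    apply hvn
    rw [h3, Subgroup.mem_comap, hv1]
    exact one_mem _
  obtain ⟨n, hn⟩ := (IsPGroup.iff_card (p := ℓ) (G := V)).1 hP
  have hd1 : (pw hV ℓ).range.index ∣ ℓ ^ n := by
    rw [← hn]
    exact Subgroup.index_dvd_card _
  obtain ⟨s, -, hs⟩ := (Nat.dvd_prime_pow hℓ).1 hd1
  have hd2 := Subgroup.index_dvd_of_le hle
  rw [hs] at hd2
  obtain ⟨t, ht1, ht⟩ := (Nat.dvd_prime_pow hℓ).1 hd2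
  rw [ht]
  rw [hs, ht] at hne
  rw [hs] at h
  have h5 := (Nat.pow_le_pow_iff_right hℓ.one_lt).1 h
  refine Nat.pow_le_pow_right hℓ.pos ?_
  have h6 : t ≠ s := fun h => hne (by rw [h])
  omega

end

theorem rka (hPWU : PwuStmt) : RkaStmt := by
  intro ℓ hℓ G _ _ V hP hV r h
  refine ⟨part1 hPWU hV h, ?_, ?_, ?_⟩
  · rintro rfl
    rw [pow_zero] at h
    exact part2 hPWU hV hP h
  · rintro H _ _ V' ⟨π, hπ⟩
    exact part3 hPWU hV h hπ
  · intro a ha hexp v hv hvo C hC A _ _ p hp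
    let π : V →* (V.subgroupOf C).map p :=
      { toFun := fun x => ⟨p ⟨x, hC x.2⟩, Subgroup.mem_map.2 ⟨⟨x, hC x.2⟩,
          Subgroup.mem_subgroupOf.2 x.2, rfl⟩⟩
        map_one' := by
          ext
          exact map_one p
        map_mul' := by
          intro x y
          ext
          exact map_mul p ⟨x, hC x.2⟩ ⟨y, hC y.2⟩ }
    have hπ : Function.Surjective π := by
      rintro ⟨y, hy⟩
      obtain ⟨x, hx, rfl⟩ := Subgroup.mem_map.1 hy
      exact ⟨⟨x, Subgroup.mem_subgroupOf.1 hx⟩, rfl⟩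
    have hv1 : π ⟨v, hv⟩ = 1 := by
      ext
      exact (hp ⟨v, hC hv⟩).2 (Subgroup.mem_zpowers v)
    have hvo' : orderOf (⟨v, hv⟩ : V) = ℓ ^ a := by
      rw [← hvo, Subgroup.orderOf_mk]
    exact part4 hPWU hV hP h ha hexp hvo' hπ hv1

end Pool.Agent.PP.T6.H95
end
end -- Pool.Agent.Helper95_AT6.RKA
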