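import Pool.Agent.Helper12_AWB.B102
import Pool.Agent.Helper12_AWB.B105
import Pool.Agent.Helper12_AWB.B109
import Pool.Agent.Helper12_AWB.B252

/-!
# Merged copies (generated) of the modules

* `Pool.Agent.Helper32_ML.Wdv`
* `Pool.Agent.Helper60_ML.Wda`
* `Pool.Agent.Helper17_ML.MOB`
* `Pool.Agent.Helper19_ML.LAM`
* `Pool.Agent.Helper24_ML.REG`
* `Pool.Agent.Helper60_ML.T1`
* `Pool.Agent.Helper66_ML.Asm1`
* `Pool.Agent.Helper90_ML.MobK`
-/

set_option autoImplicit false

section -- Pool.Agent.Helper32_ML.Wdv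

/-!
# Squad ML: row WDV
-/

set_option autoImplicit false

open scoped BigOperators

noncomputable section

namespace Pool.Agent.PP.ML.H32

open Pool.Agent.Helper51_AWC Pool.Agent.Helper79_WRA Pool.Agent.PP Pool.Agent.Helper98_CC
  Pool.Agent.PP.ML

/-- the chains with a given parity of the number of members -/
def XX (ℓ : ℕ) (G : Type) [Group G] (b : ℕ) : Type :=
  {d : Finset (Subgroup G) // d ∈ pChains ℓ G ∧ d.card % 2 = b}

variable {ℓ : ℕ} {G : Type} [Group G] {b : ℕ}

theorem pChains_map (g : G) {d : Finset (Subgroup G)} (hd : d ∈ pChains ℓ G) :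
    d.map ⟨conjS g, conjS_injective g⟩ ∈ pChains ℓ G := by
  refine ⟨?_, ?_⟩
  · intro D hD
    obtain ⟨E, hE, rfl⟩ := Finset.mem_map.1 hD
    refine ⟨?_, conjS_pgroup (hd.1 E hE).2⟩
    intro h
    apply (hd.1 E hE).1
    apply conjS_injective g
    show conjS g E = conjS g ⊥
    rw [show conjS g (⊥ : Subgroup G) = ⊥ from Subgroup.map_bot _]
    exact h
  · intro D hD E hE hne
    rw [Finset.mem_coe] at hD hE
    obtain ⟨D', hD', rfl⟩ := Finset.mem_map.1 hD
    obtain ⟨E', hE', rfl⟩ := Finset.mem_map.1 hE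
    rcases chain_total hd.2 hD' hE' with h | h
    · left; exact conjS_mono.2 h
    · right; exact conjS_mono.2 h

instance : MulAction G (XX ℓ G b) where
  smul g d := ⟨d.1.map ⟨conjS g, conjS_injective g⟩, pChains_map g d.2.1, by
    rw [Finset.card_map]; exact d.2.2⟩
  one_smul := by
    intro d
    apply Subtype.ext
    show d.1.map ⟨conjS 1, conjS_injective 1⟩ = d.1
    ext D
    simp [conjS_one]
  mul_smul := by
    intro g h d
    apply Subtype.ext
    show d.1.map ⟨conjS (g * h), conjS_injective (g * h)⟩ =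
      (d.1.map ⟨conjS h, conjS_injective h⟩).map ⟨conjS g, conjS_injective g⟩
    ext D
    simp [conjS_conjS]

theorem smul_val (g : G) (d : XX ℓ G b) :
    (g • d).1 = d.1.map ⟨conjS g, conjS_injective g⟩ := rfl

theorem smul_eq_iff [Finite G] (g : G) (d : XX ℓ G b) : g • d = d ↔ g ∈ stab d.1 := by
  rw [mem_stab]
  constructor
  · intro h D hD
    have h1 : conjS g D ∈ d.1 := by
      have h2 : conjS g D ∈ (g • d).1 := by
        rw [smul_val, Finset.mem_map]
        exact ⟨D, hD, rfl⟩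
      rwa [h] at h2
    rcases chain_total d.2.1.2 h1 hD with h2 | h2
    · exact Subgroup.eq_of_le_of_card_ge h2 (card_conjS g D).ge
    · exact (Subgroup.eq_of_le_of_card_ge h2 (card_conjS g D).le).symm
  · intro h
    apply Subtype.ext
    rw [smul_val]
    ext D
    rw [Finset.mem_map]
    constructor
    · rintro ⟨E, hE, rfl⟩
      show conjS g E ∈ d.1
      rw [h E hE]; exact hE
    · intro hD
      exact ⟨D, hD, h D hD⟩

/-- the pairs with commutator `g` in the stabiliser of a chain -/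
def Cm (ℓ : ℕ) (g : G) (d : Finset (Subgroup G)) (p : G × G) : Prop :=
  d ∈ pChains ℓ G ∧ p.1 ∈ stab d ∧ p.2 ∈ stab d ∧ p.1 * p.2 * p.1⁻¹ * p.2⁻¹ = g

/-- the bad pairs -/
def Bad (R : Subgroup G) (d : Finset (Subgroup G)) (p : G × G) : Prop :=
  ∃ U : Subgroup G, U ≠ ⊥ ∧ U ≤ R ∧ U ≤ stab d ∧ (∀ u ∈ U, p.1 * u * p.1⁻¹ ∈ U) ∧
    ∀ u ∈ U, p.2 * u * p.2⁻¹ ∈ U

theorem inOm_iff [Finite G] (R : Subgroup G) (g : G) (w : XX ℓ G b × G × G) :
    InOm R g w ↔ Cm ℓ g w.1.1 w.2 ∧ ¬ Bad R w.1.1 w.2 := by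
  constructor
  · intro h
    refine ⟨⟨w.1.2.1, (smul_eq_iff _ _).1 h.sx, (smul_eq_iff _ _).1 h.sy, h.cm⟩, ?_⟩
    rintro ⟨U, h1, h2, h3, h4, h5⟩
    exact h1 (h.tr U h2 (fun u hu => (smul_eq_iff _ _).2 (h3 hu)) h4 h5)
  · rintro ⟨⟨h1, h2, h3, h4⟩, h5⟩
    refine ⟨(smul_eq_iff _ _).2 h2, (smul_eq_iff _ _).2 h3, h4, ?_⟩
    intro U h6 h7 h8 h9
    by_contra h10
    exact h5 ⟨U, h10, h6, fun u hu => (smul_eq_iff _ _).1 (h7 u hu), h8, h9⟩

open Classical in
theorem torusSum_eq [Fintype G] [Fintype (Finset (Subgroup G))] (g : G) :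
    torusSum ℓ g = ∑ d : Finset (Subgroup G), ∑ p : G × G,
      if Cm ℓ g d p then (-1 : ℤ) ^ d.card else 0 := by
  unfold torusSum
  rw [finsum_eq_sum_of_fintype]
  apply Finset.sum_congr rfl
  intro d _
  rw [finsum_eq_if]
  split_ifs with h
  · have h1 : comm2 (stab d) g = (Finset.univ.filter (fun p : G × G => Cm ℓ g d p)).card := by
      unfold comm2
      rw [Nat.card_eq_fintype_card, Fintype.card_subtype]
      congr 1
      ext p
      simp [Cm, h]
    rw [h1, ← Finset.sum_filter, Finset.sum_const, nsmul_eq_mul, mul_comm]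
  · symm
    apply Finset.sum_eq_zero
    intro p _
    rw [if_neg]
    intro h1
    exact h h1.1

open Classical in
theorem good_card [Fintype G] [Fintype (Finset (Subgroup G))] (R : Subgroup G) (g : G) (b : ℕ) :
    {w : XX ℓ G b × G × G | InOm R g w}.ncard =
      (Finset.univ.filter (fun q : Finset (Subgroup G) × G × G =>
        (Cm ℓ g q.1 q.2 ∧ ¬ Bad R q.1 q.2) ∧ q.1.card % 2 = b)).card := by
  have hinj : Function.Injective
      (fun w : XX ℓ G b × G × G => ((w.1.1, w.2) : Finset (Subgroup G) × G × G)) := by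
    intro w w' h
    have h1 := congrArg Prod.fst h
    have h2 := congrArg Prod.snd h
    exact Prod.ext (Subtype.ext h1) h2
  rw [← Set.ncard_image_of_injective _ hinj, ← Set.ncard_coe_finset]
  congr 1
  ext q
  simp only [Set.mem_image, Set.mem_ofPred_eq, Finset.coe_filter, Finset.mem_univ, true_and]
  constructor
  · rintro ⟨w, hw, rfl⟩
    exact ⟨(inOm_iff R g w).1 hw, w.1.2.2⟩
  · rintro ⟨h1, h2⟩
    exact ⟨(⟨q.1, h1.1.1, h2⟩, q.2), (inOm_iff R g _).2 h1, rfl⟩

theorem wdv (T1 : T1Stmt) (MOB : MobStmt) : WdvStmt := by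
  classical
  intro ℓ _ G A _ _ _ R g ρ hR hc k hk
  have : Fintype G := Fintype.ofFinite G
  have : Fintype (Finset (Subgroup G)) := Fintype.ofFinite _
  have hT : ∀ b : ℕ, ((orderOf (ρ ⟨g ^ k, hk⟩) * Nat.card R : ℕ) : ℤ) ∣
      ((Finset.univ.filter (fun q : Finset (Subgroup G) × G × G =>
        (Cm ℓ g q.1 q.2 ∧ ¬ Bad R q.1 q.2) ∧ q.1.card % 2 = b)).card : ℤ) := by
    intro b
    have : Finite (XX ℓ G b) := by
      unfold XX
      infer_instance
    have h1 := T1 G (XX ℓ G b) A R g ρ hc k hk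
    rw [good_card] at h1
    exact_mod_cast h1
  rw [torusSum_eq]
  have hsplit : ∀ (d : Finset (Subgroup G)) (p : G × G),
      (if Cm ℓ g d p then (-1 : ℤ) ^ d.card else 0) =
        ((if (Cm ℓ g d p ∧ ¬ Bad R d p) ∧ d.card % 2 = 0 then 1 else 0) -
        (if (Cm ℓ g d p ∧ ¬ Bad R d p) ∧ d.card % 2 = 1 then 1 else 0)) +
        (if Cm ℓ g d p ∧ Bad R d p then (-1 : ℤ) ^ d.card else 0) := by
    intro d p
    by_cases h1 : Cm ℓ g d p
    · by_cases h2 : Bad R d p
      · simp [h1, h2]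
      · rcases Nat.mod_two_eq_zero_or_one d.card with h3 | h3
        · have h4 : (-1 : ℤ) ^ d.card = 1 := Even.neg_one_pow (Nat.even_iff.2 h3)
          simp [h1, h2, h3, h4]
        · have h4 : (-1 : ℤ) ^ d.card = -1 := Odd.neg_one_pow (Nat.odd_iff.2 h3)
          simp [h1, h2, h3, h4]
    · simp [h1]
  have hbad : ∑ d : Finset (Subgroup G), ∑ p : G × G,
      (if Cm ℓ g d p ∧ Bad R d p then (-1 : ℤ) ^ d.card else 0) = 0 := by
    rw [Finset.sum_comm]
    apply Finset.sum_eq_zero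
    intro p _
    by_cases hp : p.1 * p.2 * p.1⁻¹ * p.2⁻¹ = g
    · have h1 := MOB ℓ G R hR p.1 p.2
      rw [finsum_eq_sum_of_fintype] at h1
      refine Eq.trans ?_ h1
      apply Finset.sum_congr rfl
      intro d _
      rw [finsum_eq_if]
      apply if_congr _ rfl rfl
      constructor
      · rintro ⟨⟨h2, h3, h4, -⟩, h5⟩
        exact ⟨h2, h3, h4, h5⟩
      · rintro ⟨h2, h3, h4, h5⟩
        exact ⟨⟨h2, h3, h4, hp⟩, h5⟩
    · apply Finset.sum_eq_zero
      intro d _
      rw [if_neg]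
      intro h
      exact hp h.1.2.2.2
  have hcard : ∀ b : ℕ, ∑ d : Finset (Subgroup G), ∑ p : G × G,
      (if (Cm ℓ g d p ∧ ¬ Bad R d p) ∧ d.card % 2 = b then (1 : ℤ) else 0) =
      ((Finset.univ.filter (fun q : Finset (Subgroup G) × G × G =>
        (Cm ℓ g q.1 q.2 ∧ ¬ Bad R q.1 q.2) ∧ q.1.card % 2 = b)).card : ℤ) := by
    intro b
    rw [Finset.card_filter, Fintype.sum_prod_type]
    push_cast
    rfl
  rw [Finset.sum_congr rfl fun d _ => Finset.sum_congr rfl fun p _ => hsplit d p]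
  simp only [Finset.sum_add_distrib, Finset.sum_sub_distrib]
  rw [hbad, add_zero, hcard, hcard]
  exact dvd_sub (hT 0) (hT 1)

end Pool.Agent.PP.ML.H32
end
end -- Pool.Agent.Helper32_ML.Wdv

section -- Pool.Agent.Helper60_ML.Wda

/-!
# Squad ML, stage 2, row WDA: from the sets of tuples to the sums over the chains
-/

set_option autoImplicit false

open scoped BigOperators

noncomputable section

namespace Pool.Agent.PP.ML.H60.Wda

open Pool.Agent.Helper51_AWC Pool.Agent.Helper79_WRA Pool.Agent.PP Pool.Agent.Helper98_CC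
  Pool.Agent.PP.ML Pool.Agent.PP.ML.H32

variable {ℓ : ℕ} {G : Type} [Group G] {b m : ℕ}

/-- tuples with lists of bounded length -/
def jj (p : G × G × List.Vector G m) : G × G × List G := (p.1, p.2.1, p.2.2.1)

theorem jj_inj : Function.Injective (jj : G × G × List.Vector G m → G × G × List G) := by
  intro p q h
  have h1 := congrArg Prod.fst h
  have h2 := congrArg (fun v => v.2.1) h
  have h3 := congrArg (fun v => v.2.2) h
  exact Prod.ext h1 (Prod.ext h2 (Subtype.ext h3))

/-- the group generated by the tuple -/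
def KK (p : G × G × List G) : Subgroup G :=
  Subgroup.closure (insert p.1 (insert p.2.1 {z | z ∈ p.2.2}))

theorem KK_le (p : G × G × List G) (H : Subgroup G) :
    KK p ≤ H ↔ p.1 ∈ H ∧ p.2.1 ∈ H ∧ ∀ z ∈ p.2.2, z ∈ H := by
  unfold KK
  rw [Subgroup.closure_le, Set.insert_subset_iff, Set.insert_subset_iff]
  rfl

/-- the tuples with the relation in the stabiliser of a chain -/
def Cm (ℓ : ℕ) (Cs : List (Set G)) (g : G) (d : Finset (Subgroup G)) (p : G × G × List G) : Prop :=
  d ∈ pChains ℓ G ∧ p.1 ∈ stab d ∧ p.2.1 ∈ stab d ∧ (∀ z ∈ p.2.2, z ∈ stab d) ∧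
    List.Forall₂ (fun z K => z ∈ K) p.2.2 Cs ∧
    p.1 * p.2.1 * p.1⁻¹ * p.2.1⁻¹ = g * p.2.2.prod

/-- the bad tuples -/
def Bad (R : Subgroup G) (d : Finset (Subgroup G)) (p : G × G × List G) : Prop :=
  ∃ U : Subgroup G, U ≠ ⊥ ∧ U ≤ R ∧ U ≤ stab d ∧ ∀ x ∈ KK p, ∀ u ∈ U, x * u * x⁻¹ ∈ U

theorem conj_inv [Finite G] (U : Subgroup G) (x : G) (h : ∀ u ∈ U, x * u * x⁻¹ ∈ U) :
    ∀ u ∈ U, x⁻¹ * u * x⁻¹⁻¹ ∈ U := by
  intro u hu
  let f : U → U := fun v => ⟨x * v.1 * x⁻¹, h v.1 v.2⟩
  have hf : Function.Injective f := by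
    intro v w hvw
    have h1 : x * v.1 * x⁻¹ = x * w.1 * x⁻¹ := congrArg Subtype.val hvw
    have h2 : v.1 = w.1 := mul_left_cancel (mul_right_cancel h1)
    exact Subtype.ext h2
  obtain ⟨v, hv⟩ := (Finite.injective_iff_surjective.mp hf) ⟨u, hu⟩
  have h3 : x * v.1 * x⁻¹ = u := congrArg Subtype.val hv
  have h4 : x⁻¹ * u * x⁻¹⁻¹ = v.1 := by
    rw [← h3]
    group
  rw [h4]
  exact v.2

theorem norm_closure [Finite G] (U : Subgroup G) (S : Set G)
    (h : ∀ x ∈ S, ∀ u ∈ U, x * u * x⁻¹ ∈ U) :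
    ∀ x ∈ Subgroup.closure S, ∀ u ∈ U, x * u * x⁻¹ ∈ U := by
  intro x hx
  induction hx using Subgroup.closure_induction with
  | mem x hx => exact h x hx
  | one => intro u hu; simpa using hu
  | mul x y _ _ h1 h2 =>
    intro u hu
    have h3 : x * y * u * (x * y)⁻¹ = x * (y * u * y⁻¹) * x⁻¹ := by group
    rw [h3]
    exact h1 _ (h2 u hu)
  | inv x _ h1 => exact conj_inv U x h1

theorem inOm_iff [Finite G] (R : Subgroup G) (Cs : List (Set G)) (g : G)
    (w : XX ℓ G b × G × G × List G) :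
    InOmL R g Cs w ↔ Cm ℓ Cs g w.1.1 w.2 ∧ ¬ Bad R w.1.1 w.2 := by
  constructor
  · intro h
    refine ⟨⟨w.1.2.1, (smul_eq_iff _ _).1 h.sx, (smul_eq_iff _ _).1 h.sy,
      fun z hz => (smul_eq_iff _ _).1 (h.sl z hz), h.ml, h.cm⟩, ?_⟩
    rintro ⟨U, h1, h2, h3, h4⟩
    refine h1 (h.tr U h2 (fun u hu => (smul_eq_iff _ _).2 (h3 hu)) (h4 _ ?_) (h4 _ ?_) ?_)
    · exact Subgroup.subset_closure (Set.mem_insert _ _)
    · exact Subgroup.subset_closure (Set.mem_insert_of_mem _ (Set.mem_insert _ _))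
    · intro z hz
      exact h4 z (Subgroup.subset_closure (Set.mem_insert_of_mem _ (Set.mem_insert_of_mem _ hz)))
  · rintro ⟨⟨_, h2, h3, h4, h5, h6⟩, h7⟩
    refine ⟨(smul_eq_iff _ _).2 h2, (smul_eq_iff _ _).2 h3,
      fun z hz => (smul_eq_iff _ _).2 (h4 z hz), h5, h6, ?_⟩
    intro U k1 k2 k3 k4 k5
    by_contra k6
    refine h7 ⟨U, k6, k1, fun u hu => (smul_eq_iff _ _).1 (k2 u hu), ?_⟩
    refine norm_closure U _ ?_
    intro x hx
    rcases hx with rfl | rfl | hx
    · exact k3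
    · exact k4
    · exact k5 x hx

open Classical in
theorem torusL_eq [Fintype G] [Fintype (Finset (Subgroup G))] (Cs : List (Set G)) (g : G) :
    torusL ℓ Cs g = ∑ d : Finset (Subgroup G), ∑ p : G × G × List.Vector G Cs.length,
      if Cm ℓ Cs g d (jj p) then (-1 : ℤ) ^ d.card else 0 := by
  unfold torusL
  rw [finsum_eq_sum_of_fintype]
  apply Finset.sum_congr rfl
  intro d _
  rw [finsum_eq_if]
  split_ifs with h
  · have h1 : commL (stab d) Cs g =
        (Finset.univ.filter (fun p : G × G × List.Vector G Cs.length =>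
          Cm ℓ Cs g d (jj p))).card := by
      have h2 : commL (stab d) Cs g = {p : G × G × List G | Cm ℓ Cs g d p}.ncard := by
        rw [← Nat.card_coe_set_eq]
        unfold commL
        refine Nat.card_congr (Equiv.subtypeEquivRight fun p => ?_)
        constructor
        · intro hp
          exact ⟨h, hp.1, hp.2.1, hp.2.2.1, hp.2.2.2.1, hp.2.2.2.2⟩
        · intro hp
          exact ⟨hp.2.1, hp.2.2.1, hp.2.2.2.1, hp.2.2.2.2.1, hp.2.2.2.2.2⟩
      rw [h2, ← Set.ncard_coe_finset, ← Set.ncard_image_of_injective _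
        (jj_inj : Function.Injective (jj : G × G × List.Vector G Cs.length → _))]
      congr 1
      ext q
      simp only [Set.mem_image, Set.mem_ofPred_eq, Finset.coe_filter, Finset.mem_univ, true_and]
      constructor
      · intro hq
        exact ⟨(q.1, q.2.1, ⟨q.2.2, hq.2.2.2.2.1.length_eq⟩), hq, rfl⟩
      · rintro ⟨p, hp, rfl⟩
        exact hp
    rw [h1, ← Finset.sum_filter, Finset.sum_const, nsmul_eq_mul, mul_comm]
  · symm
    apply Finset.sum_eq_zero
    intro p _
    rw [if_neg]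
    intro h1
    exact h h1.1

open Classical in
theorem good_card [Fintype G] [Fintype (Finset (Subgroup G))] (R : Subgroup G)
    (Cs : List (Set G)) (g : G) (b : ℕ) :
    {w : XX ℓ G b × G × G × List G | InOmL R g Cs w}.ncard =
      (Finset.univ.filter (fun q : Finset (Subgroup G) × G × G × List.Vector G Cs.length =>
        (Cm ℓ Cs g q.1 (jj q.2) ∧ ¬ Bad R q.1 (jj q.2)) ∧ q.1.card % 2 = b)).card := by
  have hinj : Function.Injective
      (fun w : XX ℓ G b × G × G × List G =>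
        ((w.1.1, w.2) : Finset (Subgroup G) × G × G × List G)) := by
    intro w w' h
    have h1 := congrArg Prod.fst h
    have h2 := congrArg Prod.snd h
    exact Prod.ext (Subtype.ext h1) h2
  have hinj2 : Function.Injective
      (fun q : Finset (Subgroup G) × G × G × List.Vector G Cs.length =>
        ((q.1, jj q.2) : Finset (Subgroup G) × G × G × List G)) := by
    intro w w' h
    have h1 := congrArg Prod.fst h
    have h2 := congrArg Prod.snd h
    exact Prod.ext h1 (jj_inj h2)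
  rw [← Set.ncard_image_of_injective _ hinj, ← Set.ncard_coe_finset,
    ← Set.ncard_image_of_injective _ hinj2]
  congr 1
  ext q
  simp only [Set.mem_image, Set.mem_ofPred_eq, Finset.coe_filter, Finset.mem_univ, true_and]
  constructor
  · rintro ⟨w, hw, rfl⟩
    have h1 := (inOm_iff R Cs g w).1 hw
    exact ⟨(w.1.1, w.2.1, w.2.2.1, ⟨w.2.2.2, hw.ml.length_eq⟩), ⟨h1, w.1.2.2⟩, rfl⟩
  · rintro ⟨p, ⟨h1, h2⟩, rfl⟩
    exact ⟨(⟨p.1, h1.1.1, h2⟩, jj p.2), (inOm_iff R Cs g _).2 h1, rfl⟩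

/-- WDA. -/
theorem wda (MOB : MobKStmt) : WdaStmt := by
  classical
  intro ℓ _ G _ _ R g hR Cs m hm
  have : Fintype G := Fintype.ofFinite G
  have : Fintype (Finset (Subgroup G)) := Fintype.ofFinite _
  have hT : ∀ b : ℕ, (m : ℤ) ∣
      ((Finset.univ.filter (fun q : Finset (Subgroup G) × G × G × List.Vector G Cs.length =>
        (Cm ℓ Cs g q.1 (jj q.2) ∧ ¬ Bad R q.1 (jj q.2)) ∧ q.1.card % 2 = b)).card : ℤ) := by
    intro b
    have : Finite (XX ℓ G b) := by
      unfold XX
      infer_instance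
    have h1 := hm (XX ℓ G b)
    rw [good_card] at h1
    exact_mod_cast h1
  rw [torusL_eq]
  have hsplit : ∀ (d : Finset (Subgroup G)) (p : G × G × List.Vector G Cs.length),
      (if Cm ℓ Cs g d (jj p) then (-1 : ℤ) ^ d.card else 0) =
        ((if (Cm ℓ Cs g d (jj p) ∧ ¬ Bad R d (jj p)) ∧ d.card % 2 = 0 then 1 else 0) -
        (if (Cm ℓ Cs g d (jj p) ∧ ¬ Bad R d (jj p)) ∧ d.card % 2 = 1 then 1 else 0)) +
        (if Cm ℓ Cs g d (jj p) ∧ Bad R d (jj p) then (-1 : ℤ) ^ d.card else 0) := by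
    intro d p
    by_cases h1 : Cm ℓ Cs g d (jj p)
    · by_cases h2 : Bad R d (jj p)
      · simp [h1, h2]
      · rcases Nat.mod_two_eq_zero_or_one d.card with h3 | h3
        · have h4 : (-1 : ℤ) ^ d.card = 1 := Even.neg_one_pow (Nat.even_iff.2 h3)
          simp [h1, h2, h3, h4]
        · have h4 : (-1 : ℤ) ^ d.card = -1 := Odd.neg_one_pow (Nat.odd_iff.2 h3)
          simp [h1, h2, h3, h4]
    · simp [h1]
  have hbad : ∑ d : Finset (Subgroup G), ∑ p : G × G × List.Vector G Cs.length,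
      (if Cm ℓ Cs g d (jj p) ∧ Bad R d (jj p) then (-1 : ℤ) ^ d.card else 0) = 0 := by
    rw [Finset.sum_comm]
    apply Finset.sum_eq_zero
    intro p _
    by_cases hp : List.Forall₂ (fun z K => z ∈ K) (jj p).2.2 Cs ∧
        (jj p).1 * (jj p).2.1 * (jj p).1⁻¹ * (jj p).2.1⁻¹ = g * (jj p).2.2.prod
    · have h1 := MOB ℓ G R hR (KK (jj p))
      rw [finsum_eq_sum_of_fintype] at h1
      refine Eq.trans ?_ h1
      apply Finset.sum_congr rfl
      intro d _
      rw [finsum_eq_if]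
      apply if_congr _ rfl rfl
      constructor
      · rintro ⟨⟨h2, h3, h4, h5, -⟩, h6⟩
        exact ⟨h2, (KK_le _ _).2 ⟨h3, h4, h5⟩, h6⟩
      · rintro ⟨h2, h3, h6⟩
        obtain ⟨h3, h4, h5⟩ := (KK_le _ _).1 h3
        exact ⟨⟨h2, h3, h4, h5, hp.1, hp.2⟩, h6⟩
    · apply Finset.sum_eq_zero
      intro d _
      rw [if_neg]
      intro h
      exact hp ⟨h.1.2.2.2.2.1, h.1.2.2.2.2.2⟩
  have hcard : ∀ b : ℕ, ∑ d : Finset (Subgroup G), ∑ p : G × G × List.Vector G Cs.length,
      (if (Cm ℓ Cs g d (jj p) ∧ ¬ Bad R d (jj p)) ∧ d.card % 2 = b then (1 : ℤ) else 0) =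
      ((Finset.univ.filter (fun q : Finset (Subgroup G) × G × G × List.Vector G Cs.length =>
        (Cm ℓ Cs g q.1 (jj q.2) ∧ ¬ Bad R q.1 (jj q.2)) ∧ q.1.card % 2 = b)).card : ℤ) := by
    intro b
    rw [Finset.card_filter, Fintype.sum_prod_type]
    push_cast
    rfl
  rw [Finset.sum_congr rfl fun d _ => Finset.sum_congr rfl fun p _ => hsplit d p]
  simp only [Finset.sum_add_distrib, Finset.sum_sub_distrib]
  rw [hbad, add_zero, hcard, hcard]
  exact dvd_sub (hT 0) (hT 1)

end Pool.Agent.PP.ML.H60.Wda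
end
end -- Pool.Agent.Helper60_ML.Wda

section -- Pool.Agent.Helper17_ML.MOB

/-!
# ML, row MOB: the chains fixed by `x`, `y` and a nontrivial subgroup of `R`

Moebius argument: `V` is the join of all subgroups of `R` which are normalised by `x` and `y`;
for a chain `d` fixed by `x` and `y` the condition is `V ⊓ stab d ≠ ⊥`, and for every `W ≠ ⊥` the
signed number of the chains with `W ≤ V ⊓ stab d` is zero by COX.
-/

open scoped BigOperators

noncomputable section

namespace Pool.Agent.PP.ML.H17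

open Pool.Agent.Helper51_AWC Pool.Agent.Helper79_WRA Pool.Agent.PP Pool.Agent.Helper98_CC

open Classical in
theorem fsum_eq {α : Type*} [Fintype α] (p : α → Prop) (f : α → ℤ) :
    ∑ᶠ (d : α) (_ : p d), f d = ∑ d ∈ Finset.univ.filter p, f d := by
  have h := finsum_mem_finset_eq_sum f (Finset.univ.filter p)
  rw [← h]
  simp

open Classical in
theorem moeb {α P : Type*} [Fintype P] [PartialOrder P] (F : Finset α) (g : α → P) (s : α → ℤ)
    (b : P) (hb : ∀ W, b ≤ W)
    (h : ∀ W, W ≠ b → (∑ d ∈ F.filter (fun d => W ≤ g d), s d = 0) ∨ ∀ d ∈ F, g d ≠ W) :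
    ∑ d ∈ F.filter (fun d => g d ≠ b), s d = 0 := by
  have key : ∀ W : P, W ≠ b → ∑ d ∈ F.filter (fun d => g d = W), s d = 0 := by
    intro W
    induction W using (wellFounded_gt (α := P)).induction with
    | _ W ih =>
      intro hW
      rcases h W hW with h1 | h1
      · have h2 := Finset.sum_fiberwise_of_maps_to (s := F.filter (fun d => W ≤ g d))
          (t := Finset.univ.filter (fun W' => W ≤ W')) (g := g)
          (fun d hd => by simpa using (Finset.mem_filter.1 hd).2) s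
        rw [h1] at h2
        have h3 : ∀ W' ∈ Finset.univ.filter (fun W' => W ≤ W'), W' ≠ W →
            ∑ d ∈ (F.filter (fun d => W ≤ g d)).filter (fun d => g d = W'), s d = 0 := by
          intro W' hW' hne
          have hle : W ≤ W' := (Finset.mem_filter.1 hW').2
          have hlt : W < W' := lt_of_le_of_ne hle (Ne.symm hne)
          have hW'b : W' ≠ b := by
            rintro rfl
            exact hW (le_antisymm hle (hb W))
          rw [← ih W' hlt hW'b]
          apply Finset.sum_congr _ (fun _ _ => rfl)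
          ext d
          simp only [Finset.mem_filter]
          constructor
          · rintro ⟨⟨h4, h5⟩, h6⟩
            exact ⟨h4, h6⟩
          · rintro ⟨h4, h6⟩
            exact ⟨⟨h4, h6 ▸ hle⟩, h6⟩
        rw [Finset.sum_eq_single_of_mem W (by simp) h3] at h2
        rw [← h2]
        apply Finset.sum_congr _ (fun _ _ => rfl)
        ext d
        simp only [Finset.mem_filter]
        constructor
        · rintro ⟨h4, h6⟩
          exact ⟨⟨h4, h6 ▸ le_rfl⟩, h6⟩
        · rintro ⟨⟨h4, h5⟩, h6⟩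
          exact ⟨h4, h6⟩
      · apply Finset.sum_eq_zero
        intro d hd
        exact absurd (Finset.mem_filter.1 hd).2 (h1 d (Finset.mem_filter.1 hd).1)
  have h2 := Finset.sum_fiberwise_of_maps_to (s := F.filter (fun d => g d ≠ b))
    (t := Finset.univ.filter (fun W' => W' ≠ b)) (g := g)
    (fun d hd => by simpa using (Finset.mem_filter.1 hd).2) s
  rw [← h2]
  apply Finset.sum_eq_zero
  intro W hW
  have hWb : W ≠ b := (Finset.mem_filter.1 hW).2
  rw [← key W hWb]
  apply Finset.sum_congr _ (fun _ _ => rfl)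
  ext d
  simp only [Finset.mem_filter]
  constructor
  · rintro ⟨⟨h4, h5⟩, h6⟩
    exact ⟨h4, h6⟩
  · rintro ⟨h4, h6⟩
    exact ⟨⟨h4, h6 ▸ hWb⟩, h6⟩

variable {G : Type} [Group G]

/-- normalised by `x` and `y` -/
def Nm (x y : G) (U : Subgroup G) : Prop :=
  (∀ u ∈ U, x * u * x⁻¹ ∈ U) ∧ ∀ u ∈ U, y * u * y⁻¹ ∈ U

/-- the join of all subgroups of `R` normalised by `x` and `y` -/
def VV (R : Subgroup G) (x y : G) : Subgroup G := sSup {U | U ≤ R ∧ Nm x y U}

theorem VV_le (R : Subgroup G) (x y : G) : VV R x y ≤ R := sSup_le fun _ h => h.1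

theorem le_VV {R : Subgroup G} {x y : G} {U : Subgroup G} (h1 : U ≤ R) (h2 : Nm x y U) :
    U ≤ VV R x y := le_sSup ⟨h1, h2⟩

theorem VV_aux (R : Subgroup G) (x y z : G)
    (hz : ∀ U : Subgroup G, U ≤ R → Nm x y U → ∀ u ∈ U, z * u * z⁻¹ ∈ U) :
    ∀ u ∈ VV R x y, z * u * z⁻¹ ∈ VV R x y := by
  have h : VV R x y ≤ (VV R x y).comap (MulAut.conj z).toMonoidHom := by
    apply sSup_le
    intro U hU u hu
    rw [Subgroup.mem_comap]
    have h1 := hz U hU.1 hU.2 u hu
    exact le_VV hU.1 hU.2 (by simpa using h1)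
  intro u hu
  have := h hu
  rw [Subgroup.mem_comap] at this
  simpa using this

theorem Nm_VV (R : Subgroup G) (x y : G) : Nm x y (VV R x y) :=
  ⟨VV_aux R x y x fun _ _ h => h.1, VV_aux R x y y fun _ _ h => h.2⟩

theorem Nm_inf {x y : G} {U S : Subgroup G} (h : Nm x y U) (hx : x ∈ S) (hy : y ∈ S) :
    Nm x y (U ⊓ S) :=
  ⟨fun u hu => ⟨h.1 u hu.1, S.mul_mem (S.mul_mem hx hu.2) (S.inv_mem hx)⟩,
    fun u hu => ⟨h.2 u hu.1, S.mul_mem (S.mul_mem hy hu.2) (S.inv_mem hy)⟩⟩

/-- MOB from COX. -/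
theorem mob (cox : CoxStmt) : MobStmt := by
  classical
  intro ℓ _ G _ _ R hR x y
  have := Fintype.ofFinite (Subgroup G)
  rw [fsum_eq]
  let F : Finset (Finset (Subgroup G)) :=
    Finset.univ.filter (fun d => d ∈ pChains ℓ G ∧ x ∈ stab d ∧ y ∈ stab d)
  let g : Finset (Subgroup G) → Subgroup G := fun d => VV R x y ⊓ stab d
  have hm := moeb F g (fun d => (-1 : ℤ) ^ d.card) ⊥ (fun W => bot_le) (by
    intro W hW
    by_cases hn : W ≤ VV R x y ∧ Nm x y W
    · left
      have hc := cox ℓ G (Subgroup.closure {x, y} ⊔ W) W hW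
        (hR.to_le (hn.1.trans (VV_le R x y))) le_sup_right
        (sup_le ((Subgroup.closure_le _).2 (by
          intro z hz
          rcases hz with rfl | rfl
          · exact Subgroup.mem_normalizer_fintype fun n hn' => hn.2.1 n hn'
          · exact Subgroup.mem_normalizer_fintype fun n hn' => hn.2.2 n hn'))
          Subgroup.le_normalizer)
      rw [fsum_eq] at hc
      rw [← hc]
      apply Finset.sum_congr _ (fun _ _ => rfl)
      ext d
      simp only [Finset.mem_filter, Finset.mem_univ, true_and, F, g, le_inf_iff, sup_le_iff,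
        Subgroup.closure_le]
      constructor
      · rintro ⟨⟨h1, h2, h3⟩, h4, h5⟩
        refine ⟨h1, ?_, h5⟩
        intro z hz
        rcases hz with rfl | rfl
        · exact h2
        · exact h3
      · rintro ⟨h1, h2, h3⟩
        exact ⟨⟨h1, h2 (by simp), h2 (by simp)⟩, hn.1, h3⟩
    · right
      intro d hd he
      apply hn
      have hd' := (Finset.mem_filter.1 hd).2
      rw [← he]
      exact ⟨inf_le_left, Nm_inf (Nm_VV R x y) hd'.2.1 hd'.2.2⟩)
  rw [← hm]
  apply Finset.sum_congr _ (fun _ _ => rfl)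
  ext d
  simp only [Finset.mem_filter, Finset.mem_univ, true_and, F, g]
  constructor
  · rintro ⟨h1, h2, h3, U, hU, h4, h5, h6, h7⟩
    refine ⟨⟨h1, h2, h3⟩, fun h => hU ?_⟩
    rw [eq_bot_iff, ← h]
    exact le_inf (le_VV h4 ⟨h6, h7⟩) h5
  · rintro ⟨⟨h1, h2, h3⟩, h⟩
    have hN := Nm_inf (Nm_VV R x y) h2 h3
    exact ⟨h1, h2, h3, VV R x y ⊓ stab d, h, inf_le_left.trans (VV_le R x y), inf_le_right,
      hN.1, hN.2⟩

end Pool.Agent.PP.ML.H17
end
end -- Pool.Agent.Helper17_ML.MOB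

section -- Pool.Agent.Helper19_ML.LAM

/-!
# Squad ML, module LAM: the sum of the `ℓ`-elements is nilpotent on blocks of positive defect
-/

set_option autoImplicit false

open scoped BigOperators

noncomputable section

namespace Pool.Agent.PP.ML.H19

open Pool.Agent.Helper51_AWC Pool.Agent.Helper79_WRA Pool.Agent.PP

variable {ℓ : ℕ} {F H : Type} [Field F] [Group H]

theorem ellS_congr {x y : H} (h : ∀ n : ℕ, x ^ ℓ ^ n = 1 ↔ y ^ ℓ ^ n = 1) :
    ellS ℓ F x = ellS ℓ F y := by
  classical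
  unfold ellS
  simp only [h]

theorem ellS_cl : IsCl (ellS ℓ F : H → F) := by
  intro x y
  apply ellS_congr
  intro n
  rw [conj_pow]
  constructor
  · intro h
    have h2 : x ^ ℓ ^ n = y⁻¹ * (y * x ^ ℓ ^ n * y⁻¹) * y := by group
    rw [h2, h]
    group
  · intro h
    rw [h]
    group

/-- multiplication with a commuting `ℓ`-element -/
theorem ellS_mul {z s : H} (hz : z ^ ℓ = 1) (hc : Commute z s) :
    ellS ℓ F (z * s) = ellS ℓ F s := by
  classical
  unfold ellS
  have e : (∃ n : ℕ, (z * s) ^ ℓ ^ n = 1) ↔ ∃ n : ℕ, s ^ ℓ ^ n = 1 := by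
    have hz' : ∀ n : ℕ, z ^ ℓ ^ (n + 1) = 1 := by
      intro n
      rw [pow_succ', pow_mul, hz, one_pow]
    constructor
    · rintro ⟨n, hn⟩
      refine ⟨n + 1, ?_⟩
      have h1 : (z * s) ^ ℓ ^ (n + 1) = 1 := by
        rw [pow_succ, pow_mul, hn, one_pow]
      rw [hc.mul_pow, hz', one_mul] at h1
      exact h1
    · rintro ⟨n, hn⟩
      refine ⟨n + 1, ?_⟩
      rw [hc.mul_pow, hz', one_mul, pow_succ, pow_mul, hn, one_pow]
  simp only [e]

/-- If `b (z s) = b s` for `s` commuting with `z` and `a` is supported on the centraliser, the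
product is invariant under `z`. -/
theorem mulF_left_inv {z : H} {a b : H → F} (ha : ∀ t, a t ≠ 0 → Commute z t)
    (hb : ∀ s, b (z * s) = b s) (x : H) : mulF a b (z * x) = mulF a b x := by
  unfold mulF
  apply finsum_congr
  intro t
  by_cases h : a t = 0
  · rw [h, zero_mul, zero_mul]
  · have h1 : t⁻¹ * (z * x) = z * (t⁻¹ * x) := by
      have h2 : Commute z t⁻¹ := (ha t h).inv_right
      rw [← mul_assoc, ← h2.eq, mul_assoc]
    rw [h1, hb]

/-- left translation of the first factor -/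
theorem mulF_left_inv' {z : H} {a b : H → F} (ha : ∀ t, a (z * t) = a t) (x : H) :
    mulF a b (z * x) = mulF a b x := by
  unfold mulF
  rw [← finsum_comp_equiv (Equiv.mulLeft z)]
  apply finsum_congr
  intro t
  rw [Equiv.coe_mulLeft, ha]
  congr 2
  group

/-- a sum over `H` of a function which is invariant under an element of order `ℓ` is zero -/
theorem sum_inv [Finite H] (hF : GoodF ℓ F) {z : H} (hz : orderOf z = ℓ) (h : H → F)
    (hi : ∀ t, h (z * t) = h t) : ∑ᶠ t, h t = 0 := by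
  classical
  have := Fintype.ofFinite H
  have : Fact ℓ.Prime := ⟨hF.prime⟩
  have := hF.char
  have hQ : IsPGroup ℓ (Subgroup.zpowers z) := by
    apply IsPGroup.of_card (n := 1)
    rw [Nat.card_zpowers, hz, pow_one]
  have hinv : ∀ (r : Subgroup.zpowers z) (t : H), h (r • t) = h t := by
    rintro ⟨r, hr⟩ t
    obtain ⟨k, rfl⟩ := Subgroup.mem_zpowers_iff.1 hr
    change h (z ^ k * t) = h t
    have hn : ∀ n : ℕ, ∀ t, h (z ^ n * t) = h t := by
      intro n
      induction n with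
      | zero => intro t; rw [pow_zero, one_mul]
      | succ n ih => intro t; rw [pow_succ, mul_assoc, ih, hi]
    obtain ⟨n, hn' | hn'⟩ := k.eq_nat_or_neg
    · rw [hn', zpow_natCast, hn]
    · rw [hn', zpow_neg, zpow_natCast]
      rw [← hn n (((z ^ n)⁻¹) * t), mul_inv_cancel_left]
  rw [finsum_eq_sum_of_fintype, Pool.Agent.PP.H74.orbit_sum_ring hQ h hinv]
  apply Finset.sum_eq_zero
  intro t ht
  exfalso
  have h1 := (Finset.mem_filter.1 ht).2 ⟨z, Subgroup.mem_zpowers z⟩
  have h2 : z * t = t := h1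
  have h3 : z = 1 := mul_eq_right.1 h2
  rw [h3, orderOf_one] at hz
  exact hF.prime.one_lt.ne hz

/-- LAM -/
theorem lam (inv : Pool.Agent.PP.InvStmt) : LamStmt := by
  classical
  intro ℓ F _ hF H _ _ e he hp
  by_contra hcon
  have hΛ : IsCl (ellS ℓ F : H → F) := ellS_cl
  have : Fact ℓ.Prime := ⟨hF.prime⟩
  obtain ⟨u, hu, hinv⟩ := inv ℓ F hF H e (ellS ℓ F) he hΛ (fun n h => hcon ⟨n, h⟩)
  -- an element of the support with centraliser of order divisible by `ℓ`
  have hg : ∃ g : H, e g ≠ 0 ∧ ℓ ∣ Nat.card (Subgroup.centralizer ({g} : Set H)) := by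
    by_contra hno
    apply he.2.1
    refine H46.pos_dzb (b := e) he.1 hp he.1.2 (fun x hx => absurd (Subgroup.mem_top x) hx)
      (fun q _ x => he.1.1 x q) ?_
    intro x _ hx
    by_contra h
    exact hno ⟨x, h, by rwa [inf_top_eq] at hx⟩
  obtain ⟨g, hg0, hgd⟩ := hg
  obtain ⟨c, hc⟩ := exists_prime_orderOf_dvd_card' ℓ hgd
  set z : H := (c : H) with hzdef
  have hz : orderOf z = ℓ := by rw [hzdef, Subgroup.orderOf_coe, hc]
  have hzl : z ^ ℓ = 1 := by rw [← hz]; exact pow_orderOf_eq_one z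
  have hQ : IsPGroup ℓ (Subgroup.zpowers z) := by
    apply IsPGroup.of_card (n := 1)
    rw [Nat.card_zpowers, hz, pow_one]
  have hcen : ∀ t : H, t ∈ Subgroup.centralizer ((Subgroup.zpowers z : Subgroup H) : Set H) ↔
      Commute z t := by
    intro t
    rw [Subgroup.mem_centralizer_iff]
    constructor
    · intro h
      exact h z (Subgroup.mem_zpowers z)
    · rintro h _ ⟨k, rfl⟩
      exact (h.zpow_left k).eq
  have hgz : g ∈ Subgroup.centralizer ((Subgroup.zpowers z : Subgroup H) : Set H) := by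
    rw [hcen]
    have h1 := Subgroup.mem_centralizer_singleton_iff.1 c.2
    exact h1
  set ε : H → F := br (Subgroup.zpowers z) e with hε
  set Λ' : H → F := br (Subgroup.zpowers z) (ellS ℓ F) with hΛ'
  set u' : H → F := br (Subgroup.zpowers z) u with hu'
  have hε1 : ε = mulF (mulF ε Λ') u' := by
    have h1 : H66.Inv (Subgroup.zpowers z) e := H66.IsCl.inv he.1.1 _
    have h2 : H66.Inv (Subgroup.zpowers z) (ellS ℓ F) := H66.IsCl.inv hΛ _
    have h3 : H66.Inv (Subgroup.zpowers z) u := H66.IsCl.inv hu _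
    have h4 : br (Subgroup.zpowers z) (mulF e (mulF (ellS ℓ F) u)) = mulF ε (mulF Λ' u') := by
      rw [H66.br_mulF hF hQ h1 (h2.mulF h3), H66.br_mulF hF hQ h2 h3]
    rw [hinv] at h4
    rw [mulF_assoc]
    exact h4
  have hεs : ∀ t, ε t ≠ 0 → Commute z t := by
    intro t ht
    by_contra h
    apply ht
    exact H66.br_of_not_mem (fun h' => h ((hcen t).1 h'))
  have hΛz : ∀ s, Λ' (z * s) = Λ' s := by
    intro s
    by_cases h : Commute z s
    · have h1 : z * s ∈ Subgroup.centralizer ((Subgroup.zpowers z : Subgroup H) : Set H) := by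
        rw [hcen]
        exact (Commute.refl z).mul_right h
      rw [hΛ', H66.br_of_mem h1, H66.br_of_mem ((hcen s).2 h)]
      exact ellS_mul hzl h
    · have h1 : z * s ∉ Subgroup.centralizer ((Subgroup.zpowers z : Subgroup H) : Set H) := by
        rw [hcen]
        intro h'
        apply h
        have h2 : s = z⁻¹ * (z * s) := by group
        rw [h2]
        exact (Commute.refl z).inv_right.mul_right h'
      rw [hΛ', H66.br_of_not_mem h1, H66.br_of_not_mem (fun h' => h ((hcen s).1 h'))]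
  have hKz : ∀ x, mulF ε Λ' (z * x) = mulF ε Λ' x := mulF_left_inv hεs hΛz
  have hεz : ∀ x, ε (z * x) = ε x := by
    intro x
    rw [hε1]
    exact mulF_left_inv' hKz x
  have hK0 : mulF ε Λ' = 0 := by
    funext x
    change ∑ᶠ t, ε t * Λ' (t⁻¹ * x) = 0
    apply sum_inv hF hz
    intro t
    rw [hεz]
    by_cases h : ε t = 0
    · rw [h, zero_mul, zero_mul]
    · have h2 : Commute z t := hεs t h
      have h3 : z * ((z * t)⁻¹ * x) = t⁻¹ * x := by
        rw [h2.eq]
        group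
      rw [← hΛz ((z * t)⁻¹ * x), h3]
  have hε0 : ε = 0 := by
    rw [hε1, hK0]
    funext x
    change ∑ᶠ t : H, (0 : H → F) t * u' (t⁻¹ * x) = 0
    simp
  apply hg0
  have h5 : ε g = e g := H66.br_of_mem hgz
  rw [← h5, hε0]
  rfl

end Pool.Agent.PP.ML.H19
end
end -- Pool.Agent.Helper19_ML.LAM

section -- Pool.Agent.Helper24_ML.REG

/-!
# Squad ML, row REG (helper24)

Multiplication with the sum of the `ℓ`-elements does not change the coefficients of a central
idempotent at the `ℓ`-regular elements.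
-/

open scoped BigOperators

noncomputable section

namespace Pool.Agent.PP.ML.H24

open Pool.Agent.Helper51_AWC Pool.Agent.Helper79_WRA Pool.Agent.PP Pool.Agent.Helper98_CC

section

variable {ℓ : ℕ} {F H : Type} [Field F] [Group H] [Finite H]

theorem isCl_dl_one : IsCl (dl F (1 : H)) := by
  classical
  intro x y
  unfold dl
  have : (y * x * y⁻¹ = 1) ↔ x = 1 := by
    constructor
    · intro h
      have h2 : y * x = y := by
        have := congrArg (fun t => t * y) h
        simpa using this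
      exact mul_eq_left.1 h2
    · rintro rfl
      simp
  by_cases h : x = 1
  · rw [if_pos h, if_pos (this.2 h)]
  · rw [if_neg h, if_neg (fun h' => h (this.1 h'))]

theorem fl_dl_one (a : H → F) : fl (dl F (1 : H)) (ma a) = a 1 := by
  classical
  have := Fintype.ofFinite H
  rw [fl_ma, finsum_eq_sum_of_fintype, Finset.sum_eq_single 1]
  · unfold dl
    rw [if_pos rfl, mul_one]
  · intro b _ hb
    unfold dl
    rw [if_neg hb, mul_zero]
  · intro h
    exact absurd (Finset.mem_univ _) h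

/-- the coefficient at `1` of an `ℓ ^ n`-th power -/
theorem coef_pow (hp : ℓ.Prime) (hc : CharP F ℓ) (a : H → F) (n : ℕ) :
    fl (dl F (1 : H)) (ma a ^ (ℓ ^ n))
      = (∑ᶠ (t : H) (_ : t ^ (ℓ ^ n) = 1), a t) ^ (ℓ ^ n) := by
  classical
  have := Fintype.ofFinite H
  have : Fact ℓ.Prime := ⟨hp⟩
  have := hc
  have hV : ∀ v : F, ℓ • v = 0 := fun v => by
    rw [nsmul_eq_mul, CharP.cast_eq_zero, zero_mul]
  have h1 := H74.pow_sum (l := ℓ) hV (fl (dl F (1 : H))).toAddMonoidHom
    (fun x y => fl_comm isCl_dl_one x y) (fun t : H => MonoidAlgebra.single t (a t)) n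
  rw [← finsum_eq_sum_of_fintype, ← ma_eq_sum] at h1
  change fl (dl F (1 : H)) (ma a ^ (ℓ ^ n)) = ∑ t : H,
    fl (dl F (1 : H)) ((MonoidAlgebra.single t (a t) : MonoidAlgebra F H) ^ (ℓ ^ n)) at h1
  rw [h1]
  have h2 : (∑ᶠ (t : H) (_ : t ^ (ℓ ^ n) = 1), a t)
      = ∑ t : H, if t ^ (ℓ ^ n) = 1 then a t else 0 := by
    rw [finsum_eq_sum_of_fintype]
    apply Finset.sum_congr rfl
    intro t _
    by_cases h : t ^ (ℓ ^ n) = 1
    · rw [if_pos h, finsum_eq_if, if_pos h]
    · rw [if_neg h, finsum_eq_if, if_neg h]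
  rw [h2, sum_pow_char_pow]
  apply Finset.sum_congr rfl
  intro t _
  rw [MonoidAlgebra.single_pow, fl_single]
  unfold dl
  by_cases h : t ^ (ℓ ^ n) = 1
  · rw [if_pos h, if_pos h, mul_one]
  · rw [if_neg h, if_neg h, mul_zero, zero_pow (pow_ne_zero _ hp.ne_zero)]

/-- the value of the product at `g` -/
theorem mulF_ellS {e : H → F} (he : IsCl e) (g : H) {n : ℕ}
    (hn : ∀ u : H, (∃ m : ℕ, u ^ ℓ ^ m = 1) → u ^ ℓ ^ n = 1) :
    mulF e (ellS ℓ F) g = ∑ᶠ (u : H) (_ : u ^ (ℓ ^ n) = 1), e (u * g) := by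
  classical
  have := Fintype.ofFinite H
  have h2 : (∑ᶠ (u : H) (_ : u ^ (ℓ ^ n) = 1), e (u * g))
      = ∑ u : H, if u ^ (ℓ ^ n) = 1 then e (u * g) else 0 := by
    rw [finsum_eq_sum_of_fintype]
    apply Finset.sum_congr rfl
    intro t _
    by_cases h : t ^ (ℓ ^ n) = 1
    · rw [if_pos h, finsum_eq_if, if_pos h]
    · rw [if_neg h, finsum_eq_if, if_neg h]
  rw [h2]
  unfold mulF
  rw [finsum_eq_sum_of_fintype]
  -- substitute `t = g u⁻¹... `
  rw [← (Equiv.sum_comp ((Equiv.inv H).trans (Equiv.mulLeft g))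
    (fun t : H => e t * ellS ℓ F (t⁻¹ * g)))]
  rw [← (Equiv.sum_comp (Equiv.inv H) (fun u : H => if u ^ (ℓ ^ n) = 1 then e (u * g) else 0))]
  apply Finset.sum_congr rfl
  intro u _
  have e1 : ((Equiv.inv H).trans (Equiv.mulLeft g)) u = g * u⁻¹ := rfl
  have e2 : (Equiv.inv H) u = u⁻¹ := rfl
  rw [e1, e2]
  have e3 : (g * u⁻¹)⁻¹ * g = u := by group
  have e4 : e (g * u⁻¹) = e (u⁻¹ * g) := by
    have := he (u⁻¹ * g) g
    rw [← this]
    congr 1
    group
  rw [e3, e4]
  unfold ellS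
  by_cases h : u ^ (ℓ ^ n) = 1
  · rw [if_pos ⟨n, h⟩, if_pos (by rw [inv_pow, h, inv_one]), mul_one]
  · rw [if_neg (fun h' => h (hn u h')), if_neg (fun h' => h (by
      rw [inv_pow] at h'
      exact inv_eq_one.1 h')), mul_zero]

/-- The power: `(mulF e ellS g) ^ q = e g` for suitable `q`. -/
theorem key (hp : ℓ.Prime) (hc : CharP F ℓ) {e : H → F} (he : IsIdem e) (g : H) {n : ℕ}
    (hn : ∀ u : H, (∃ m : ℕ, u ^ ℓ ^ m = 1) → u ^ ℓ ^ n = 1) (hg : g ^ (ℓ ^ n) = g) :
    mulF e (ellS ℓ F) g ^ (ℓ ^ n) = e g := by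
  classical
  have := Fintype.ofFinite H
  obtain ⟨hcen, hid⟩ := (isIdem_iff e).1 he
  have hval : ∀ u : H, mulF e (dl F g⁻¹) u = e (u * g) := by
    intro u
    unfold mulF
    rw [finsum_eq_sum_of_fintype, Finset.sum_eq_single (u * g)]
    · unfold dl
      rw [if_pos (by group), mul_one]
    · intro b _ hb
      unfold dl
      rw [if_neg (fun h => hb (by
        have h2 : b * (b⁻¹ * u) * g = b * g⁻¹ * g := by rw [h]
        rw [mul_inv_cancel_left, inv_mul_cancel_right] at h2
        exact h2.symm)), mul_zero]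
    · intro h
      exact absurd (Finset.mem_univ _) h
  have h1 := coef_pow hp hc (mulF e (dl F g⁻¹)) n
  have h2 : ma (mulF e (dl F g⁻¹)) ^ (ℓ ^ n) = ma (mulF e (dl F g⁻¹)) := by
    rw [ma_mul]
    have hcom : Commute (ma e) (ma (dl F g⁻¹)) := (Subalgebra.mem_center_iff.1 hcen _).symm
    rw [hcom.mul_pow]
    have h3 : ma e ^ (ℓ ^ n) = ma e := by
      obtain ⟨k, hk⟩ := Nat.exists_eq_succ_of_ne_zero (pow_ne_zero n hp.ne_zero)
      rw [hk]
      exact hid.pow_succ_eq k
    rw [h3, ma_dl, MonoidAlgebra.single_pow, one_pow, inv_pow, hg]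
  rw [h2, fl_dl_one, hval, one_mul] at h1
  rw [h1]
  congr 1
  rw [mulF_ellS he.1 g hn]
  apply finsum_congr
  intro u
  apply finsum_congr
  intro _
  rw [hval]

end

theorem reg : RegStmt := by
  intro ℓ F _ hF H _ _ e he g hg
  have hp := hF.prime
  have hc := hF.char
  have hcop : Nat.Coprime ℓ (orderOf g) := hg.symm
  have hpos : 0 < orderOf g := orderOf_pos g
  have hcard : 0 < Nat.card H := Nat.card_pos
  -- the exponent
  obtain ⟨n, hn⟩ : ∃ n : ℕ, n = Nat.totient (orderOf g) * Nat.card H := ⟨_, rfl⟩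
  have hle : Nat.card H ≤ n := by
    rw [hn]
    exact Nat.le_mul_of_pos_left _ (Nat.totient_pos.2 hpos)
  have hg1 : g ^ (ℓ ^ n) = g := by
    have h1 : ℓ ^ n ≡ 1 [MOD orderOf g] := by
      rw [hn, pow_mul]
      have := (Nat.ModEq.pow_totient hcop).pow (Nat.card H)
      rwa [one_pow] at this
    have h2 := (pow_eq_pow_iff_modEq (x := g)).2 h1
    rwa [pow_one] at h2
  have hg2 : g ^ (ℓ ^ (2 * n)) = g := by
    rw [two_mul, pow_add, pow_mul, hg1, hg1]
  have hu : ∀ k, Nat.card H ≤ k → ∀ u : H, (∃ m : ℕ, u ^ ℓ ^ m = 1) → u ^ ℓ ^ k = 1 := by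
    rintro k hk u ⟨m, hm⟩
    obtain ⟨j, _, hj⟩ := (Nat.dvd_prime_pow hp).1 (orderOf_dvd_of_pow_eq_one hm)
    have h1 : j < ℓ ^ j := Nat.lt_pow_self hp.one_lt
    have h2 : orderOf u ≤ Nat.card H := orderOf_le_card
    have h3 : ℓ ^ j ∣ ℓ ^ k := pow_dvd_pow _ (by omega)
    rw [← hj] at h3
    exact orderOf_dvd_iff_pow_eq_one.1 h3
  have h1 := key hp hc he g (hu n hle) hg1
  have h2 := key hp hc he g (hu (2 * n) (by omega)) hg2
  have h3 : e g ^ (ℓ ^ n) = e g := by
    rw [two_mul, pow_add, pow_mul, h1] at h2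
    exact h2
  have : Fact ℓ.Prime := ⟨hp⟩
  have h4 : (mulF e (ellS ℓ F) g - e g) ^ (ℓ ^ n) = 0 := by
    rw [sub_pow_char_pow, h1, h3, sub_self]
  exact sub_eq_zero.1 (pow_eq_zero_iff (pow_ne_zero n hp.ne_zero) |>.1 h4)

end Pool.Agent.PP.ML.H24
end
end -- Pool.Agent.Helper24_ML.REG

section -- Pool.Agent.Helper60_ML.T1

/-!
# Squad ML, row T1: the divisibility from the transfer of the braid relations
-/

open scoped BigOperators

noncomputable section

namespace Pool.Agent.PP.ML.H60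

open Pool.Agent.PP.ML

section

variable {G X : Type} [Group G] [MulAction G X]

theorem cjt_one (w : X × G × G) : cjt (1 : G) w = w := by
  simp [cjt]

theorem cjt_mul (r r' : G) (w : X × G × G) : cjt (r * r') w = cjt r (cjt r' w) := by
  simp only [cjt, mul_smul, mul_inv_rev, mul_assoc]

theorem rm_one (w : X × G × G) : rm w (1 : G) = w := by
  simp [rm]

theorem aa_rm (w : X × G × G) (m : G) (h : m * w.2.1 = w.2.1 * m) :
    aa (rm w m) = rm w (m * w.2.1) := by
  simp only [aa, rm, mul_assoc]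

theorem mem_cls_rm (R : Subgroup G) (w : X × G × G) {m : G} (hm : m ∈ mul R w) :
    rm w m ∈ cls R w := ⟨1, R.one_mem, m, hm, (cjt_one _).symm⟩

theorem mem_cls_self (R : Subgroup G) (w : X × G × G) : w ∈ cls R w :=
  ⟨1, R.one_mem, 1, (mul R w).one_mem, by rw [rm_one, cjt_one]⟩

theorem x_mem (R : Subgroup G) (w : X × G × G) : w.2.1 ∈ mul R w :=
  (le_sup_left : Subgroup.zpowers w.2.1 ≤ mul R w) (Subgroup.mem_zpowers _)

end

theorem t1 (tau : TauStmt) (clo : CloStmt) (brd : BrdStmt) : T1Stmt := by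
  intro G X A _ _ _ _ _ R g ρ hR k hk
  obtain ⟨b1, b2, b3, b4⟩ := brd G X R g hR
  have c1 := clo G X R g hR
  let Om : Type := {w : X × G × G // InOm R g w}
  have hfin : Finite Om := Subtype.finite
  let act : MulAction R Om :=
    { smul := fun r w => ⟨cjt r.1 w.1, (b1 w.1 w.2).2.2.1 r.1 r.2⟩
      one_smul := fun w => Subtype.ext (cjt_one w.1)
      mul_smul := fun r r' w => Subtype.ext (cjt_mul r.1 r'.1 w.1) }
  have hsm : ∀ (r : R) (w : Om), (r • w).1 = cjt r.1 w.1 := fun _ _ => rfl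
  have hfree : ∀ (r : R) (w : Om), r • w = w → r = 1 := by
    intro r w h
    exact Subtype.ext ((b1 w.1 w.2).2.2.2.1 r.1 r.2 (congrArg Subtype.val h))
  obtain ⟨τ, t1, t2, t3⟩ := tau Om R A ρ hfree
  let fa : Om → Om := fun w => ⟨aa w.1, (b1 w.1 w.2).1⟩
  let fb : Om → Om := fun w => ⟨bb w.1, (b1 w.1 w.2).2.1⟩
  have ha : Function.Bijective fa := by
    refine Finite.injective_iff_bijective.mp ?_
    intro w w' h
    exact Subtype.ext (b2 (congrArg Subtype.val h))
  have hb : Function.Bijective fb := by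
    refine Finite.injective_iff_bijective.mp ?_
    intro w w' h
    exact Subtype.ext (b3 (congrArg Subtype.val h))
  have har : ∀ (r : R) w, fa (r • w) = r • fa w := fun r w => Subtype.ext ((b4 r.1 w.1).1).symm
  have hbr : ∀ (r : R) w, fb (r • w) = r • fb w := fun r w => Subtype.ext ((b4 r.1 w.1).2).symm
  -- the transfer of the first generator
  have hta : τ fa = 1 := by
    refine t3 fa ha har (fun w => {w' : Om | w'.1 ∈ cls R w.1}) ?_ ?_ ?_
    · intro w
      exact mem_cls_self R w.1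
    · intro w w' h
      have h1 := ((c1 w.1 w.2).1 w'.1 h).2
      ext v
      exact iff_of_eq (congrArg (fun s => v.1 ∈ s) h1)
    · intro w
      obtain ⟨d1, d2, d3, N, d4, d5⟩ := c1 w.1 w.2
      have hIn : ∀ m : mul R w.1, InOm R g (rm w.1 m.1) := fun m =>
        (d1 _ (mem_cls_rm R w.1 m.2)).1
      refine ⟨mul R w.1, { (inferInstance : Group (mul R w.1)) with
          mul_comm := fun a b => Subtype.ext (d2 a.1 a.2 b.1 b.2) }, inferInstance,
        ⟨w.1.2.1, x_mem R w.1⟩, fun m => ⟨rm w.1 m.1, hIn m⟩, N, ?_, ?_, ?_, ?_, ?_, ?_⟩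
      · exact Subtype.ext (rm_one w.1)
      · intro m
        exact Subtype.ext (aa_rm w.1 m.1 (d2 m.1 m.2 _ (x_mem R w.1)))
      · intro m m' m'' r h
        exact Subtype.ext (d3 m.1 m.2 m'.1 m'.2 m''.1 m''.2 r.1 r.2 (congrArg Subtype.val h))
      · intro w'
        constructor
        · rintro ⟨r, hr, m, hm, h⟩
          exact ⟨⟨r, hr⟩, ⟨m, hm⟩, Subtype.ext h⟩
        · rintro ⟨r, m, h⟩
          exact ⟨r.1, r.2, m.1, m.2, congrArg Subtype.val h⟩
      · have h1 : (Subtype.val '' {w' : Om | w'.1 ∈ cls R w.1}) = cls R w.1 := by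
          ext v
          constructor
          · rintro ⟨v', h, rfl⟩
            exact h
          · intro h
            exact ⟨⟨v, (d1 v h).1⟩, h, rfl⟩
        have h2 := Set.ncard_image_of_injective {w' : Om | w'.1 ∈ cls R w.1}
          Subtype.val_injective
        rw [h1] at h2
        exact h2.symm.trans d4
      · exact Subtype.ext d5
  -- the braid relation
  have hab : Function.Bijective (fa ∘ fb) := ha.comp hb
  have hba : Function.Bijective (fb ∘ fa) := hb.comp ha
  have habr : ∀ (r : R) w, (fa ∘ fb) (r • w) = r • (fa ∘ fb) w := by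
    intro r w
    simp only [Function.comp, hbr, har]
  have hbar : ∀ (r : R) w, (fb ∘ fa) (r • w) = r • (fb ∘ fa) w := by
    intro r w
    simp only [Function.comp, hbr, har]
  have hbraid : fa ∘ (fb ∘ fa) = fb ∘ (fa ∘ fb) := by
    funext w
    exact Subtype.ext (b1 w.1 w.2).2.2.2.2.1
  have htb : τ fb = 1 := by
    have e1 := t1 fa (fb ∘ fa) ha hba har hbar
    have e2 := t1 fb fa hb ha hbr har
    have e3 := t1 fb (fa ∘ fb) hb hab hbr habr
    have e4 := t1 fa fb ha hb har hbr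
    rw [hbraid, e3, e4, e2, hta, one_mul, one_mul, mul_one] at e1
    exact mul_eq_right.mp e1
  -- products
  let P : (Om → Om) → Prop := fun f => Function.Bijective f ∧ (∀ (r : R) w, f (r • w) = r • f w) ∧
    τ f = 1
  have hP1 : P id := by
    refine ⟨Function.bijective_id, fun _ _ => rfl, ?_⟩
    have e1 := t1 id id Function.bijective_id Function.bijective_id (fun _ _ => rfl)
      (fun _ _ => rfl)
    rw [Function.comp_id] at e1
    exact (mul_eq_left.mp e1.symm)
  have hPm : ∀ f h, P f → P h → P (f ∘ h) := by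
    intro f h hf hh
    refine ⟨hf.1.comp hh.1, ?_, ?_⟩
    · intro r w
      simp only [Function.comp, hh.2.1, hf.2.1]
    · rw [t1 f h hf.1 hh.1 hf.2.1 hh.2.1, hf.2.2, hh.2.2, one_mul]
  have hPit : ∀ f, P f → ∀ j : ℕ, P (f^[j]) := by
    intro f hf j
    induction j with
    | zero => exact hP1
    | succ j ih =>
      rw [Function.iterate_succ]
      exact hPm _ _ ih hf
  have hPa : P fa := ⟨ha, har, hta⟩
  have hPb : P fb := ⟨hb, hbr, htb⟩
  have hPd : P (fun v => fa (fb (fa v))) := hPm fa (fb ∘ fa) hPa (hPm fb fa hPb hPa)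
  have hPc : P (((fun v => fa (fb (fa v)))^[4])^[k]) := hPit _ (hPit _ hPd 4) k
  have hval : ∀ (j : ℕ) (w : Om), ((fun v => fa (fb (fa v)))^[j] w).1 =
      (fun v : X × G × G => aa (bb (aa v)))^[j] w.1 := by
    intro j
    induction j with
    | zero => intro w; rfl
    | succ j ih =>
      intro w
      rw [Function.iterate_succ_apply, Function.iterate_succ_apply, ih]
  have hconj : ∀ (j : ℕ) (w : Om), ((((fun v => fa (fb (fa v)))^[4])^[j]) w).1 =
      cjt (g ^ j)⁻¹ w.1 := by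
    intro j
    induction j with
    | zero =>
      intro w
      rw [pow_zero, inv_one, cjt_one]
      rfl
    | succ j ih =>
      intro w
      rw [Function.iterate_succ_apply', hval 4, (b1 _ (Subtype.property _)).2.2.2.2.2.1, ih,
        ← cjt_mul, pow_succ', mul_inv_rev, ← mul_inv_rev, ← mul_inv_rev, pow_mul_comm']
  let c : R := ⟨g ^ k, hk⟩
  have hc : ((((fun v => fa (fb (fa v)))^[4])^[k]) : Om → Om) = fun w => c⁻¹ • w := by
    funext w
    exact Subtype.ext (hconj k w)
  have hcen : ∀ r' : R, c⁻¹ * r' = r' * c⁻¹ := by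
    intro r'
    have h1 : r'.1 * g ^ k = g ^ k * r'.1 := (show Commute r'.1 g from hR r'.1 r'.2).pow_right k
    have h2 : c * r' = r' * c := Subtype.ext h1.symm
    exact (show Commute c r' from h2).inv_left
  have h5 := t2 c⁻¹ hcen
  rw [← hc, hPc.2.2, map_inv] at h5
  have h6 : ρ c ^ (Nat.card Om / Nat.card R) = 1 := by
    rw [inv_pow] at h5
    exact inv_eq_one.mp h5.symm
  have h7 : orderOf (ρ c) ∣ Nat.card Om / Nat.card R := orderOf_dvd_of_pow_eq_one h6
  have h8 : Nat.card R ∣ Nat.card Om := by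
    have hst : ∀ w : Om, MulAction.stabilizer R w = ⊥ := by
      intro w
      rw [eq_bot_iff]
      intro r hr
      exact hfree r w hr
    have e := MulAction.selfEquivOrbitsQuotientProd (G := R) (X := Om) hst
    rw [Nat.card_congr e, Nat.card_prod]
    exact dvd_mul_left _ _
  have h9 : {w : X × G × G | InOm R g w}.ncard = Nat.card Om := rfl
  rw [h9]
  obtain ⟨q, hq⟩ := h8
  have hpos : 0 < Nat.card R := Nat.card_pos
  rw [hq] at h7 ⊢
  rw [Nat.mul_div_cancel_left _ hpos] at h7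
  rw [mul_comm]
  exact Nat.mul_dvd_mul_left _ h7

end Pool.Agent.PP.ML.H60
end
end -- Pool.Agent.Helper60_ML.T1

section -- Pool.Agent.Helper66_ML.Asm1

/-!
# Squad ML: assembly, stage 1
-/

noncomputable section

namespace Pool.Agent.PP.ML

theorem clo_ : CloStmt := H30.clo H71.pur

theorem t1_ : T1Stmt := H60.t1 H71.tauS clo_ H84.brd

theorem mob_ : MobStmt := H17.mob H3.cox

theorem wdv_ : WdvStmt := H32.wdv t1_ mob_

theorem lam_ : LamStmt := H19.lam D1.H9.inv

theorem glu_ : GluStmt := H10.glu Pool.Agent.Helper98_CC.labAll wdv_ lam_ H24.reg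

end Pool.Agent.PP.ML
end
end -- Pool.Agent.Helper66_ML.Asm1

section -- Pool.Agent.Helper90_ML.MobK

/-!
# ML stage 2, row MOBK: the chains fixed by a group `K` and a nontrivial subgroup of `R`

The proof is the one of `Pool.Agent.Helper17_ML.MOB` with the group `K` in place of `x`, `y`.
-/

open scoped BigOperators

noncomputable section

namespace Pool.Agent.PP.ML.H90

open Pool.Agent.Helper51_AWC Pool.Agent.Helper79_WRA Pool.Agent.PP Pool.Agent.Helper98_CC
open Pool.Agent.PP.ML.H17 (fsum_eq moeb)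

variable {G : Type} [Group G]

/-- normalised by `K` -/
def NmK (K U : Subgroup G) : Prop := ∀ x ∈ K, ∀ u ∈ U, x * u * x⁻¹ ∈ U

/-- the join of all subgroups of `R` normalised by `K` -/
def VK (R K : Subgroup G) : Subgroup G := sSup {U | U ≤ R ∧ NmK K U}

theorem VK_le (R K : Subgroup G) : VK R K ≤ R := sSup_le fun _ h => h.1

theorem le_VK {R K U : Subgroup G} (h1 : U ≤ R) (h2 : NmK K U) : U ≤ VK R K := le_sSup ⟨h1, h2⟩

theorem NmK_VK (R K : Subgroup G) : NmK K (VK R K) := by
  intro z hz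
  have h : VK R K ≤ (VK R K).comap (MulAut.conj z).toMonoidHom := by
    apply sSup_le
    intro U hU u hu
    rw [Subgroup.mem_comap]
    have h1 := hU.2 z hz u hu
    exact le_VK hU.1 hU.2 (by simpa using h1)
  intro u hu
  have := h hu
  rw [Subgroup.mem_comap] at this
  simpa using this

theorem NmK_inf {K U S : Subgroup G} (h : NmK K U) (hK : K ≤ S) : NmK K (U ⊓ S) :=
  fun x hx u hu => ⟨h x hx u hu.1, S.mul_mem (S.mul_mem (hK hx) hu.2) (S.inv_mem (hK hx))⟩

/-- MOBK from COX. -/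
theorem mobK (cox : CoxStmt) : MobKStmt := by
  classical
  intro ℓ _ G _ _ R hR K
  have := Fintype.ofFinite (Subgroup G)
  rw [fsum_eq]
  let F : Finset (Finset (Subgroup G)) :=
    Finset.univ.filter (fun d => d ∈ pChains ℓ G ∧ K ≤ stab d)
  let g : Finset (Subgroup G) → Subgroup G := fun d => VK R K ⊓ stab d
  have hm := moeb F g (fun d => (-1 : ℤ) ^ d.card) ⊥ (fun W => bot_le) (by
    intro W hW
    by_cases hn : W ≤ VK R K ∧ NmK K W
    · left
      have hc := cox ℓ G (K ⊔ W) W hW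
        (hR.to_le (hn.1.trans (VK_le R K))) le_sup_right
        (sup_le (fun z hz => Subgroup.mem_normalizer_fintype fun n hn' => hn.2 z hz n hn')
          Subgroup.le_normalizer)
      rw [fsum_eq] at hc
      rw [← hc]
      apply Finset.sum_congr _ (fun _ _ => rfl)
      ext d
      simp only [Finset.mem_filter, Finset.mem_univ, true_and, F, g, le_inf_iff, sup_le_iff]
      constructor
      · rintro ⟨⟨h1, h2⟩, h4, h5⟩
        exact ⟨h1, h2, h5⟩
      · rintro ⟨h1, h2, h3⟩
        exact ⟨⟨h1, h2⟩, hn.1, h3⟩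
    · right
      intro d hd he
      apply hn
      have hd' := (Finset.mem_filter.1 hd).2
      rw [← he]
      exact ⟨inf_le_left, NmK_inf (NmK_VK R K) hd'.2⟩)
  rw [← hm]
  apply Finset.sum_congr _ (fun _ _ => rfl)
  ext d
  simp only [Finset.mem_filter, Finset.mem_univ, true_and, F, g]
  constructor
  · rintro ⟨h1, h2, U, hU, h4, h5, h6⟩
    refine ⟨⟨h1, h2⟩, fun h => hU ?_⟩
    rw [eq_bot_iff, ← h]
    exact le_inf (le_VK h4 h6) h5
  · rintro ⟨⟨h1, h2⟩, h⟩
    have hN := NmK_inf (NmK_VK R K) h2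
    exact ⟨h1, h2, VK R K ⊓ stab d, h, inf_le_left.trans (VK_le R K), inf_le_right, hN⟩

end Pool.Agent.PP.ML.H90
end
end -- Pool.Agent.Helper90_ML.MobK
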