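import Pool.Agent.Helper12_AWB.B103
import Pool.Agent.Helper12_AWB.B106
import Pool.Agent.Helper12_AWB.B107
import Pool.Agent.Helper12_AWB.B108
import Pool.Agent.Helper12_AWB.B116
import Pool.Agent.Helper12_AWB.B130
import Pool.Agent.Helper12_AWB.B138
import Pool.Agent.Helper12_AWB.B141
import Pool.Agent.Helper12_AWB.B159
import Pool.Agent.Helper12_AWB.B167
import Pool.Agent.Helper12_AWB.B253
import Pool.Agent.Helper12_AWB.B260
import Pool.Agent.Helper12_AWB.B267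

/-!
# Merged copies (generated) of the modules

* `Pool.Agent.Helper43_ML.Gen`
* `Pool.Agent.Helper66_ML.Asm2`
* `Pool.Agent.Helper66_K9.Asm`
* `Pool.Agent.Helper10_ASO.LAC`
* `Pool.Agent.Helper82_ASO.GPR`
-/

set_option autoImplicit false

section -- Pool.Agent.Helper43_ML.Gen

/-!
# Squad ML, stage 2, row GEN (helper43, adapted from helper77): from `O_ℓ(G) = 1` to central
`O_ℓ(G)`, for a class of groups closed under subgroups
-/

open scoped BigOperators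

set_option linter.unusedSectionVars false

noncomputable section

namespace Pool.Agent.PP.ML.H43

open Pool.Agent.Helper51_AWC Pool.Agent.Helper79_WRA Pool.Agent.PP Pool.Agent.PP.ML

/-- Row GEN. -/
theorem gen : GenStmt := by
  classical
  intro ℓ hfact M _ hM 𝒟 m h𝒟 hgood G _ _ hc χ hχ hL hS
  let _ := Ideal.Quotient.field M
  have hℓ : ℓ.Prime := hfact.out
  have hF : GoodF ℓ (FF M) := H50.fld ℓ hℓ M hM
  have hn : (opCore ℓ G).Normal := H75.opCore_normal (A := G) ℓ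
  obtain ⟨e, he, h1, h2⟩ := H50.bid ℓ hℓ M hM G χ hχ
  set p : G →* G ⧸ opCore ℓ G := QuotientGroup.mk' (opCore ℓ G) with hp
  have hker : p.ker = opCore ℓ G := QuotientGroup.ker_mk' _
  have hsurj : Function.Surjective p := QuotientGroup.mk'_surjective (opCore ℓ G)
  have hkp : IsPGroup ℓ p.ker := by
    rw [hker]
    exact H75.opCore_isPGroup hℓ
  have hkc : p.ker ≤ Subgroup.center G := by
    rw [hker]
    exact hc
  have hO : opCore ℓ (G ⧸ opCore ℓ G) = ⊥ := H77.opCore_quot ℓ G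
  have hpos : Pos ℓ (H75.push p e) (⊤ : Subgroup (G ⧸ opCore ℓ G)) :=
    H75.pos_push hℓ hM hsurj hker hkp hkc hχ he h1 hL
  have heq := H75.altSum_central H20.nls H20.brm H63.smt H94.nch
    (H50.dic H20.ibn H20.nls H20.brm) hℓ M hM hF hsurj hker hkp hkc χ hχ e he h1 h2
  have hsub : DF.SubCl 𝒟 := fun Q R _ _ j hj hR => h𝒟 Q R j hj hR
  have hdi : DF.DfIn ℓ M 𝒟 χ := by
    obtain ⟨x, P, hx, hP⟩ := hS
    refine ⟨x, P, fun hr => hx ?_, hP⟩
    have hint : IsIntegral ℤ (omega (MonoidHom.id G) χ x) :=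
      Pool.Agent.Helper51_AWC.omega_integral _ hχ x
    rw [← Pool.Agent.Helper79_WRA.red_eq_iff hint isIntegral_zero, hr,
      Pool.Agent.Helper79_WRA.red_zero]
  have hdf : DF.DfE ℓ 𝒟 (H75.push p e) (⊤ : Subgroup (G ⧸ opCore ℓ G)) := by
    rintro Q - hQ ⟨g, hg, hg'⟩
    refine DF.H43.core3 D1.H9.inv hℓ hM H50.fld hsub hsurj hker hχ he h1 hdi Q hQ ?_
    intro h0
    apply hg'
    have h3 := congrFun h0 g
    unfold Pool.Agent.PP.br at h3
    rwa [if_pos hg] at h3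
  have hidem : IsIdem (H75.push p e) := H75.push_isIdem hsurj he.1
  have hdiv : ((m * Nat.card (G ⧸ opCore ℓ G) : ℕ) : ℤ) ∣
      YY ℓ (⊤ : Subgroup (G ⧸ opCore ℓ G)) (H75.push p e) := by
    apply H77.add_dvd hF _ _ _ hidem
    intro f hf hef
    have hfe : mulF f (H75.push p e) = f := by
      rw [H75.mulF_comm_cl hf.1.1]
      exact hef
    have hposf : Pos ℓ f ⊤ := H46.pos_mono hf.1 hfe hpos
    have hdff : DF.DfE ℓ 𝒟 f ⊤ := DF.DfE.le hF hidem.1 hf.1.1 hef hdf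
    obtain ⟨ϑ, hϑ, k1, k2, k3⟩ := H75.block_case H20.nls H20.brm H63.smt H94.nch
      (H50.dic H20.ibn H20.nls H20.brm) H50.bid H50.chp H50.ldp H50.fld hℓ hM hO hf hposf
    obtain ⟨c, hcc⟩ := hgood (G ⧸ opCore ℓ G) hO f hf hposf hdff ϑ hϑ k1
    refine ⟨c, ?_⟩
    rw [← k3, hcc]
    push_cast
    ring
  obtain ⟨c, hcc⟩ := hdiv
  have hcard : Nat.card G = Nat.card (G ⧸ opCore ℓ G) * Nat.card (opCore ℓ G) :=
    Subgroup.card_eq_card_quotient_mul_card_subgroup (opCore ℓ G)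
  rw [hcc, hker, hcard] at heq
  have hq : ((Nat.card (G ⧸ opCore ℓ G) : ℕ) : ℤ) ≠ 0 := by
    exact_mod_cast (Nat.card_pos (α := G ⧸ opCore ℓ G)).ne'
  have hz : ((Nat.card (opCore ℓ G) : ℕ) : ℤ) ≠ 0 := by
    exact_mod_cast (Nat.card_pos (α := opCore ℓ G)).ne'
  refine ⟨c, mul_left_cancel₀ (mul_ne_zero hq hz) ?_⟩
  push_cast at heq ⊢
  rw [heq]
  ring

end Pool.Agent.PP.ML.H43
end
end -- Pool.Agent.Helper43_ML.Gen

section -- Pool.Agent.Helper66_ML.Asm2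

/-!
# Squad ML: assembly, stage 2
-/

noncomputable section

namespace Pool.Agent.PP.ML

theorem wda_ : WdaStmt := H60.Wda.wda (H90.mobK H3.cox)

theorem wdvL_ : WdvLStmt := H48.wdvL wda_ (H98.tl1 H24.core)

theorem wdv3_ : Wdv3Stmt := H48.wdv3 wda_ (H71.tl3 H24.core)

theorem wdv2_ : Wdv2Stmt := H48.wdv2 wda_ H24.tl2'

theorem dvr_ : DvrStmt := H92.dvr wdvL_ wdv3_ wdv2_

theorem num_ : NumStmt := H90.num H10.lls

theorem sel_ : SelStmt := H51.sel H50.bid Pool.Agent.Helper79_WRA.labelAll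

theorem nn3_ : Nn3Stmt :=
  H86.nn3 num_ H62.alb H43.tei H90.lda dvr_ H62.chp (H35.cub H43.tei H90.lda) lam_ H24.reg

theorem nn2_ : Nn2Stmt :=
  H27.nn2 num_ H62.alb H43.tei H90.lda dvr_ H62.chp (H35.sqr H43.tei H90.lda) lam_ H24.reg

theorem exg_ : ExgStmt := H65.exg H28.lyo

theorem finML_ : FinMLStmt := H77.fin glu_

theorem gen_ : GenStmt := H43.gen

end Pool.Agent.PP.ML
end
end -- Pool.Agent.Helper66_ML.Asm2

section -- Pool.Agent.Helper66_K9.Asm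

/-!
# Squad K9: assembly
-/

open scoped BigOperators

noncomputable section

namespace Pool.Agent.PP.K9

open Pool.Agent.Helper51_AWC Pool.Agent.Helper79_WRA Pool.Agent.PP Pool.Agent.PP.KF

theorem trb_ : TrbStmt := H82.trb H53.tra

theorem wbo_ : WboStmt := H82W.wbo trb_

theorem ada_ : AdaStmt := H25.ada H20.adp

theorem int__ : IntStmt := H77.int_ ada_ H27.prt

theorem sm2_ : Sm2Stmt := H10.sm2 trb_

theorem rot_ : RotStmt := H25.rot wbo_

theorem azr_ : AzrStmt := H65.azr rot_ sm2_ H3.psi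

theorem ce0_ : Ce0Stmt := H86.ce0 wbo_ ada_ H3.psi

theorem dun_ : DunStmt := H24.dun H69.fmg

theorem duc_ : DucStmt := H24.duc dun_

theorem chq_ : ChqStmt := H35.chq H56.exp H75.lbr H02.pug duc_

theorem chv_ : ChvStmt := H35.chv H56.exp chq_ H75.lbr H69.fmg

theorem dzo_ : DzoStmt := H1.dzo wbo_

theorem kap_ : KapStmt := H69.kap dzo_ H02.pug

theorem val_ : ValStmt := H88.val H69.fmg sm2_ ce0_ kap_

theorem nzr_ : NzrStmt := H97.nzr H69.fmg H97.orb H34.inx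

theorem nz_ : NzStmt := H6.nz H19.omg nzr_

theorem prg_ : PrgStmt := H25.prg wbo_ H3.psi

theorem dt3_ : Dt3Stmt :=
  H11.dt3 kap_ val_ H41.eis H86.sec H90.cnj int__ azr_ nz_ prg_

theorem k9_ : K9Stmt := H11.k9 dt3_ H02.pug int__ H86.sec azr_ nz_ prg_

theorem ct9_ : Ct9Stmt := H27.ct9 ML.nn3_ k9_ chv_ H3.lbd H69.fmg

theorem gq9_ : Gq9Stmt := H57.gq9 ct9_ H69.fmg CD2.Asm.d2a_ H9.addStmt

end Pool.Agent.PP.K9
end
end -- Pool.Agent.Helper66_K9.Asm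

section -- Pool.Agent.Helper10_ASO.LAC

/-!
# Row LAC of the squad ASO: integrality of the total sum
-/

open scoped BigOperators

noncomputable section

namespace Pool.Agent.PP.SO.H10L

open Pool.Agent.Helper51_AWC Pool.Agent.Helper79_WRA Pool.Agent.PP Pool.Agent.PP.KF
open Pool.Agent.PP.K9 Pool.Agent.PP.K9.H97 Pool.Agent.PP.H75 Pool.Agent.PP.T3
open Pool.Agent.PP.SO

attribute [local instance] Ideal.Quotient.field

/-! ### sums over classes -/

/-- the sum of an invariant function -/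
theorem osum {Γ X : Type} [Group Γ] [Finite Γ] [Fintype X] [MulAction Γ X] (R : Subring ℂ)
    (φ : X → ℂ) (hinv : ∀ (γ : Γ) x, φ (γ • x) = φ x)
    (hR : ∀ x, (Nat.card (MulAction.orbit Γ x) : ℂ) * φ x ∈ R) : ∑ x, φ x ∈ R := by
  classical
  have e := Finset.sum_partition (s := Finset.univ) (f := φ) (MulAction.orbitRel Γ X)
  rw [e]
  apply Subring.sum_mem
  intro q hq
  rw [Finset.mem_image] at hq
  obtain ⟨x, -, rfl⟩ := hq
  have h1 : ∀ y ∈ Finset.univ.filter (fun y => Quotient.mk (MulAction.orbitRel Γ X) y =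
      Quotient.mk (MulAction.orbitRel Γ X) x), φ y = φ x := by
    intro y hy
    rw [Finset.mem_filter] at hy
    have h2 := Quotient.exact hy.2
    obtain ⟨γ, hγ⟩ := h2
    have h3 : γ • x = y := hγ
    rw [← h3, hinv]
  rw [Finset.sum_congr rfl h1, Finset.sum_const, nsmul_eq_mul]
  have h4 : (Finset.univ.filter (fun y => Quotient.mk (MulAction.orbitRel Γ X) y =
      Quotient.mk (MulAction.orbitRel Γ X) x)).card = Nat.card (MulAction.orbit Γ x) := by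
    rw [Nat.card_eq_fintype_card, ← Set.toFinset_card]
    congr 1
    ext y
    rw [Finset.mem_filter, Set.mem_toFinset]
    constructor
    · intro h
      exact Quotient.exact h.2
    · intro h
      exact ⟨Finset.mem_univ _, Quotient.sound h⟩
  rw [h4]
  exact hR x

/-- the group `G` with the conjugation of subgroups -/
def Cj (G : Type) : Type := G

/-- conjugation -/
def cjf {G : Type} [Group G] (z s : G) : G := z * s * z⁻¹

theorem cjf_one {G : Type} [Group G] (s : G) : cjf 1 s = s := by simp [cjf]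

theorem cjf_mul {G : Type} [Group G] (x y s : G) : cjf (x * y) s = cjf x (cjf y s) := by
  simp only [cjf]
  group

instance cjAct {G : Type} [Group G] (H : Subgroup G) : MulAction H (Cj G) where
  smul z s := cjf (G := G) z s
  one_smul s := cjf_one (G := G) s
  mul_smul x y s := cjf_mul (G := G) x y s

theorem csum {G : Type} [Group G] [Fintype G] (R : Subring ℂ) (H : Subgroup G) (φ : G → ℂ)
    (hinv : ∀ z ∈ H, ∀ s, φ (z * s * z⁻¹) = φ s)
    (hR : ∀ s, (Nat.card H : ℂ) * φ s / Nat.card (H ⊓ Cu s : Subgroup G) ∈ R) :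
    ∑ s, φ s ∈ R := by
  classical
  let iF : Fintype (Cj G) := (inferInstance : Fintype G)
  have h0 : ∑ s : Cj G, φ s ∈ R := by
    refine osum (Γ := H) (X := Cj G) R φ (fun γ x => ?_) (fun s => ?_)
    · exact hinv γ.1 γ.2 x
    have h1 := MulAction.card_orbit_mul_card_stabilizer_eq_card_group H s
    have h2 : Fintype.card (MulAction.stabilizer H s) = Nat.card (H ⊓ Cu (show G from s) :
        Subgroup G) := by
      rw [← Nat.card_eq_fintype_card]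
      refine Nat.card_congr ⟨fun z => ⟨z.1.1, z.1.2, ?_⟩, fun z => ⟨⟨z.1, z.2.1⟩, ?_⟩, ?_, ?_⟩
      · have h3 : (z.1 : G) * (show G from s) * (z.1 : G)⁻¹ = s := z.2
        show (z.1 : G) ∈ Cu (show G from s)
        rw [Subgroup.mem_centralizer_singleton_iff]
        exact mul_inv_eq_iff_eq_mul.1 h3
      · have h3 : z.1 ∈ Cu (show G from s) := z.2.2
        rw [Subgroup.mem_centralizer_singleton_iff] at h3
        show (z.1 : G) * (show G from s) * (z.1 : G)⁻¹ = s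
        exact mul_inv_eq_iff_eq_mul.2 h3
      · intro z
        rfl
      · intro z
        rfl
    rw [h2] at h1
    have h3 : (Nat.card (MulAction.orbit H s) : ℂ) * Nat.card (H ⊓ Cu (show G from s) :
        Subgroup G) = Nat.card H := by
      rw [Nat.card_eq_fintype_card (α := MulAction.orbit H s), Nat.card_eq_fintype_card (α := H),
        ← h1]
      push_cast
      ring
    have h4 : (Nat.card (H ⊓ Cu (show G from s) : Subgroup G) : ℂ) ≠ 0 := by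
      have h5 : 0 < Nat.card (H ⊓ Cu (show G from s) : Subgroup G) := Nat.card_pos
      exact_mod_cast h5.ne'
    have h5 := hR s
    have h6 : (Nat.card H : ℂ) * φ s / Nat.card (H ⊓ Cu (show G from s) : Subgroup G) =
        Nat.card (MulAction.orbit H s) * φ s := by
      rw [← h3]
      field_simp
    rw [h6] at h5
    exact h5
  exact h0

/-! ### the weights -/

section wts

variable {V₀ G : Type} [CommGroup V₀] [Group G] [Finite G] {M : Ideal (integralClosure ℤ ℂ)}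
  [M.IsMaximal]

omit [Finite G] in
theorem C_top (B : Bk (FF M) V₀ G) (W : Subgroup V₀) : B.C ⊤ ≤ B.C W := by
  unfold Bk.C
  exact Subgroup.centralizer_le (SetLike.coe_subset_coe.2 (Subgroup.map_mono le_top))

theorem bh_conj (B : Bk (FF M) V₀ G) (W : Subgroup V₀) (z : G) (hz : z ∈ B.C W) (s : G) :
    bh B W (z * s * z⁻¹) = bh B W s := by
  classical
  have := Fintype.ofFinite (B.C W)
  unfold bh PP.ext0
  by_cases hs : s ∈ B.C W
  · have h1 : z * s * z⁻¹ ∈ B.C W := (B.C W).mul_mem ((B.C W).mul_mem hz hs) ((B.C W).inv_mem hz)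
    rw [dif_pos h1, dif_pos hs]
    have h2 := K9.H25.eh_cl M (fun t : B.C W => B.b W t) ⟨s, hs⟩ ⟨z, hz⟩
    exact h2
  · have h1 : z * s * z⁻¹ ∉ B.C W := by
      intro h
      apply hs
      have h2 := (B.C W).mul_mem ((B.C W).mul_mem ((B.C W).inv_mem hz) h) hz
      have e : z⁻¹ * (z * s * z⁻¹) * z = s := by group
      rwa [e] at h2
    rw [dif_neg h1, dif_neg hs]

omit [Finite G] in
theorem bh_supp (B : Bk (FF M) V₀ G) (W : Subgroup V₀) (s : G) (hs : s ∉ B.C W) :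
    bh B W s = 0 := by
  unfold bh PP.ext0
  rw [dif_neg hs]

theorem bh_sing (ℓ : ℕ) [Fact ℓ.Prime] (hM : (ℓ : integralClosure ℤ ℂ) ∈ M)
    {E₀ : Subgroup (MulAut V₀)} {B : Bk (FF M) V₀ G} (hB : Sy ℓ M E₀ B) (W : Subgroup V₀) (s : G)
    (hs : ¬ Reg ℓ s) : bh B W s = 0 := by
  classical
  have := Fintype.ofFinite (B.C W)
  unfold bh PP.ext0
  by_cases h : s ∈ B.C W
  · rw [dif_pos h]
    refine K9.H25.eh_sing wbo_ ℓ M hM (fun t : B.C W => B.b W t) (hB.lb W).blk.blk.1 ⟨s, h⟩ ?_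
    intro h1
    apply hs
    have h2 : orderOf (⟨s, h⟩ : B.C W) = orderOf s := by
      rw [← Subgroup.orderOf_coe]
    have h3 : (orderOf (⟨s, h⟩ : B.C W)).Coprime ℓ := h1
    show (orderOf s).Coprime ℓ
    rw [← h2]
    exact h3
  · rw [dif_neg h]

theorem wt_conj (B : Bk (FF M) V₀ G) (c : V₀) (f : Bool) (z : G) (hz : z ∈ B.C (frm c f)) (s : G) :
    wt B c f (z * s * z⁻¹) = wt B c f s := by
  unfold wt
  cases f with
  | true =>
    have hz' : z ∈ B.C ⊤ := hz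
    simp only [if_true]
    rw [bh_conj B ⊤ z hz']
  | false =>
    have hz' : z ∈ B.C (Subgroup.zpowers c) := hz
    simp only [Bool.false_eq_true, if_false]
    rw [bh_conj B _ z hz']
    congr 3
    rw [← finsum_comp_equiv (Equiv.mulLeft (⟨z, hz'⟩ : B.C (Subgroup.zpowers c)))]
    apply finsum_congr
    intro y
    congr 1
    show ((z * (y : G) : G))⁻¹ * (z * s * z⁻¹) * (z * (y : G)) = _
    group

theorem wt_supp (B : Bk (FF M) V₀ G) (c : V₀) (f : Bool) (s : G) (hs : s ∉ B.C (frm c f)) :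
    wt B c f s = 0 := by
  unfold wt
  cases f with
  | true =>
    have hs' : s ∉ B.C ⊤ := hs
    simp only [if_true]
    rw [bh_supp B ⊤ s hs', mul_zero]
  | false =>
    have hs' : s ∉ B.C (Subgroup.zpowers c) := hs
    simp only [Bool.false_eq_true, if_false]
    rw [bh_supp B _ s hs']
    have h1 : ∀ z : B.C (Subgroup.zpowers c), bh B ⊤ ((z : G)⁻¹ * s * z) = 0 := by
      intro z
      apply bh_supp
      intro h
      apply hs'
      have h2 := C_top B (Subgroup.zpowers c) h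
      have h3 := (B.C (Subgroup.zpowers c)).mul_mem ((B.C (Subgroup.zpowers c)).mul_mem z.2 h2)
        ((B.C (Subgroup.zpowers c)).inv_mem z.2)
      have e : (z : G) * ((z : G)⁻¹ * s * z) * (z : G)⁻¹ = s := by group
      rwa [e] at h3
    simp only [h1, finsum_zero, mul_zero, sub_zero]

theorem wt_sing (ℓ : ℕ) [Fact ℓ.Prime] (hM : (ℓ : integralClosure ℤ ℂ) ∈ M)
    {E₀ : Subgroup (MulAut V₀)} {B : Bk (FF M) V₀ G} (hB : Sy ℓ M E₀ B) (c : V₀) (f : Bool) (s : G)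
    (hs : ¬ Reg ℓ s) : wt B c f s = 0 := by
  unfold wt
  cases f with
  | true =>
    simp only [if_true]
    rw [bh_sing ℓ hM hB ⊤ s hs, mul_zero]
  | false =>
    simp only [Bool.false_eq_true, if_false]
    rw [bh_sing ℓ hM hB _ s hs]
    have h1 : ∀ z : B.C (Subgroup.zpowers c), bh B ⊤ ((z : G)⁻¹ * s * z) = 0 := by
      intro z
      apply bh_sing ℓ hM hB
      intro h
      apply hs
      unfold Reg at h ⊢
      have e : orderOf ((z : G)⁻¹ * s * z) = orderOf s := by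
        have h2 := (MulAut.conj (z : G)⁻¹).orderOf_eq s
        rwa [MulAut.conj_apply, inv_inv] at h2
      rwa [e] at h
    simp only [h1, finsum_zero, mul_zero, sub_zero]

end wts

/-! ### the sums over the triples -/

section ys

variable {V₀ G : Type} [CommGroup V₀] [Group G] {n m : ℕ} {ι : V₀ →* G}

/-- the sum over the triples -/
def Yg (n m : ℕ) (ι : V₀ →* G) (P Q : Subgroup V₀) (F₁₃ F₁₂ : Set (SS n V₀) → ℚ) (g h : G) : ℚ :=
  ∑ᶠ w : XX g h, (F₁₃ (t13 n m ι P Q g w.1.1 w.1.2.1 w.1.2.2) +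
    F₁₂ (t12 n m ι P Q w.1.1 w.1.2.1 w.1.2.2))

theorem conj_eq {z a : G} (h : z * a = a * z) (x y : G) :
    z * x * z⁻¹ = a * (z * y * z⁻¹) * a⁻¹ ↔ x = a * y * a⁻¹ := by
  have e : a * (z * y * z⁻¹) * a⁻¹ = z * (a * y * a⁻¹) * z⁻¹ := by
    have h1 : a * z = z * a := h.symm
    have h2 : z⁻¹ * a⁻¹ = a⁻¹ * z⁻¹ := by rw [← mul_inv_rev, ← mul_inv_rev, h1]
    calc a * (z * y * z⁻¹) * a⁻¹ = (a * z) * y * (z⁻¹ * a⁻¹) := by group
      _ = (z * a) * y * (a⁻¹ * z⁻¹) := by rw [h1, h2]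
      _ = z * (a * y * a⁻¹) * z⁻¹ := by group
  rw [e]
  constructor
  · intro h1
    exact mul_left_cancel (mul_right_cancel h1)
  · intro h1
    rw [← h1]

theorem c13_conj {z : G} {g x y u : G} {i j : ℕ} {p q : V₀} (h : z * ι p = ι p * z) :
    c13 m ι (z * g * z⁻¹) (z * x * z⁻¹) (z * y * z⁻¹) (z * u) i j p q ↔ c13 m ι g x y u i j p q := by
  unfold c13
  have e1 : (z * g * z⁻¹)⁻¹ * (z * x * z⁻¹) = z * (g⁻¹ * x) * z⁻¹ := by group
  have e2 : (((z * g * z⁻¹)⁻¹ * (z * x * z⁻¹)) ^ m) ^ j = z * ((g⁻¹ * x) ^ m) ^ j * z⁻¹ := by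
    rw [e1, conj_pow, conj_pow]
  have e3 : ((z * x * z⁻¹) ^ m) ^ i = z * (x ^ m) ^ i * z⁻¹ := by rw [conj_pow, conj_pow]
  rw [e2, e3, conj_eq h]
  have e4 : z * ((g⁻¹ * x) ^ m) ^ j * z⁻¹ * (z * y * z⁻¹) * (z * (x ^ m) ^ i * z⁻¹) =
      z * (((g⁻¹ * x) ^ m) ^ j * y * (x ^ m) ^ i) * z⁻¹ := by group
  rw [e4, conj_eq h]
  have e5 : z * ((g⁻¹ * x) ^ m) ^ j * z⁻¹ * (z * u) = z * (((g⁻¹ * x) ^ m) ^ j * u) := by group
  have e6 : ι p * (z * u) * (ι q)⁻¹ = z * (ι p * u * (ι q)⁻¹) := by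
    calc ι p * (z * u) * (ι q)⁻¹ = (ι p * z) * u * (ι q)⁻¹ := by group
      _ = (z * ι p) * u * (ι q)⁻¹ := by rw [h]
      _ = z * (ι p * u * (ι q)⁻¹) := by group
  rw [e5, e6, mul_right_inj]

theorem c12_conj {z : G} {x y u : G} {i k : ℕ} {p q : V₀} (h : z * ι p = ι p * z) :
    c12 m ι (z * x * z⁻¹) (z * y * z⁻¹) (z * u) i k p q ↔ c12 m ι x y u i k p q := by
  unfold c12
  have e1 : kap (z * x * z⁻¹) (z * y * z⁻¹) = z * kap x y * z⁻¹ := by
    unfold kap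
    group
  have e2 : (kap (z * x * z⁻¹) (z * y * z⁻¹) ^ m) ^ k = z * (kap x y ^ m) ^ k * z⁻¹ := by
    rw [e1, conj_pow, conj_pow]
  have e3 : ((z * x * z⁻¹) ^ m) ^ i = z * (x ^ m) ^ i * z⁻¹ := by rw [conj_pow, conj_pow]
  rw [e2, e3]
  have e4 : (z * (kap x y ^ m) ^ k * z⁻¹)⁻¹ * (z * x * z⁻¹) * (z * (kap x y ^ m) ^ k * z⁻¹) =
      z * (((kap x y ^ m) ^ k)⁻¹ * x * (kap x y ^ m) ^ k) * z⁻¹ := by group
  have e5 : (z * (kap x y ^ m) ^ k * z⁻¹)⁻¹ * (z * y * z⁻¹ * (z * (x ^ m) ^ i * z⁻¹)) *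
      (z * (kap x y ^ m) ^ k * z⁻¹) =
      z * (((kap x y ^ m) ^ k)⁻¹ * (y * (x ^ m) ^ i) * (kap x y ^ m) ^ k) * z⁻¹ := by group
  have e6 : ι p * (z * u) * (ι q)⁻¹ = z * (ι p * u * (ι q)⁻¹) := by
    calc ι p * (z * u) * (ι q)⁻¹ = (ι p * z) * u * (ι q)⁻¹ := by group
      _ = (z * ι p) * u * (ι q)⁻¹ := by rw [h]
      _ = z * (ι p * u * (ι q)⁻¹) := by group
  rw [e4, e5, e6, conj_eq h, conj_eq h, mul_right_inj]

theorem mul_eq_r {z b : G} (h : z * b = b * z) (A u c : G) :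
    A * (u * z⁻¹) = c * (u * z⁻¹) * b⁻¹ ↔ A * u = c * u * b⁻¹ := by
  have h2 : z⁻¹ * b⁻¹ = b⁻¹ * z⁻¹ := by rw [← mul_inv_rev, ← mul_inv_rev, h]
  have e1 : A * (u * z⁻¹) = (A * u) * z⁻¹ := by group
  have e2 : c * (u * z⁻¹) * b⁻¹ = (c * u * b⁻¹) * z⁻¹ := by
    calc c * (u * z⁻¹) * b⁻¹ = c * u * (z⁻¹ * b⁻¹) := by group
      _ = c * u * (b⁻¹ * z⁻¹) := by rw [h2]
      _ = (c * u * b⁻¹) * z⁻¹ := by group
  rw [e1, e2, mul_left_inj]

theorem c13_mul {z : G} {g x y u : G} {i j : ℕ} {p q : V₀} (h : z * ι q = ι q * z) :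
    c13 m ι g x y (u * z⁻¹) i j p q ↔ c13 m ι g x y u i j p q := by
  unfold c13
  rw [mul_eq_r h]

theorem c12_mul {z : G} {x y u : G} {i k : ℕ} {p q : V₀} (h : z * ι q = ι q * z) :
    c12 m ι x y (u * z⁻¹) i k p q ↔ c12 m ι x y u i k p q := by
  unfold c12
  have e := mul_eq_r h 1 u (ι p)
  rw [one_mul, one_mul] at e
  rw [e]

/-- the left conjugation -/
def eL (z g h : G) : XX g h ≃ XX (z * g * z⁻¹) h where
  toFun w := ⟨(z * w.1.1 * z⁻¹, z * w.1.2.1 * z⁻¹, z * w.1.2.2), by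
    have h1 := w.2
    show z * w.1.1 * z⁻¹ * (z * w.1.2.1 * z⁻¹) * (z * w.1.1 * z⁻¹)⁻¹ *
      (z * w.1.2.1 * z⁻¹)⁻¹ = z * g * z⁻¹ * (z * w.1.2.2 * h * (z * w.1.2.2)⁻¹)
    have e1 : z * w.1.1 * z⁻¹ * (z * w.1.2.1 * z⁻¹) * (z * w.1.1 * z⁻¹)⁻¹ *
      (z * w.1.2.1 * z⁻¹)⁻¹ = z * (w.1.1 * w.1.2.1 * w.1.1⁻¹ * w.1.2.1⁻¹) * z⁻¹ := by group
    rw [e1, h1]
    group⟩
  invFun w := ⟨(z⁻¹ * w.1.1 * z, z⁻¹ * w.1.2.1 * z, z⁻¹ * w.1.2.2), by
    have h1 := w.2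
    show z⁻¹ * w.1.1 * z * (z⁻¹ * w.1.2.1 * z) * (z⁻¹ * w.1.1 * z)⁻¹ *
      (z⁻¹ * w.1.2.1 * z)⁻¹ = g * (z⁻¹ * w.1.2.2 * h * (z⁻¹ * w.1.2.2)⁻¹)
    have e1 : z⁻¹ * w.1.1 * z * (z⁻¹ * w.1.2.1 * z) * (z⁻¹ * w.1.1 * z)⁻¹ *
      (z⁻¹ * w.1.2.1 * z)⁻¹ = z⁻¹ * (w.1.1 * w.1.2.1 * w.1.1⁻¹ * w.1.2.1⁻¹) * z := by group
    rw [e1, h1]
    group⟩
  left_inv w := by
    apply Subtype.ext
    refine Prod.ext ?_ (Prod.ext ?_ ?_)
    · show z⁻¹ * (z * w.1.1 * z⁻¹) * z = w.1.1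
      group
    · show z⁻¹ * (z * w.1.2.1 * z⁻¹) * z = w.1.2.1
      group
    · show z⁻¹ * (z * w.1.2.2) = w.1.2.2
      group
  right_inv w := by
    apply Subtype.ext
    refine Prod.ext ?_ (Prod.ext ?_ ?_)
    · show z * (z⁻¹ * w.1.1 * z) * z⁻¹ = w.1.1
      group
    · show z * (z⁻¹ * w.1.2.1 * z) * z⁻¹ = w.1.2.1
      group
    · show z * (z⁻¹ * w.1.2.2) = w.1.2.2
      group

/-- the right multiplication -/
def eR (z g h : G) : XX g h ≃ XX g (z * h * z⁻¹) where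
  toFun w := ⟨(w.1.1, w.1.2.1, w.1.2.2 * z⁻¹), by
    have h1 := w.2
    show w.1.1 * w.1.2.1 * w.1.1⁻¹ * w.1.2.1⁻¹ =
      g * (w.1.2.2 * z⁻¹ * (z * h * z⁻¹) * (w.1.2.2 * z⁻¹)⁻¹)
    rw [h1]
    group⟩
  invFun w := ⟨(w.1.1, w.1.2.1, w.1.2.2 * z), by
    have h1 := w.2
    show w.1.1 * w.1.2.1 * w.1.1⁻¹ * w.1.2.1⁻¹ = g * (w.1.2.2 * z * h * (w.1.2.2 * z)⁻¹)
    rw [h1]
    group⟩
  left_inv w := by
    apply Subtype.ext
    refine Prod.ext rfl (Prod.ext rfl ?_)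
    show w.1.2.2 * z⁻¹ * z = w.1.2.2
    group
  right_inv w := by
    apply Subtype.ext
    refine Prod.ext rfl (Prod.ext rfl ?_)
    show w.1.2.2 * z * z⁻¹ = w.1.2.2
    group

theorem Yg_left (P Q : Subgroup V₀) (F₁₃ F₁₂ : Set (SS n V₀) → ℚ) (g h z : G)
    (hz : ∀ p ∈ P, z * ι p = ι p * z) :
    Yg n m ι P Q F₁₃ F₁₂ (z * g * z⁻¹) h = Yg n m ι P Q F₁₃ F₁₂ g h := by
  unfold Yg
  rw [← finsum_comp_equiv (eL z g h)]
  apply finsum_congr
  intro w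
  have e1 : t13 n m ι P Q (z * g * z⁻¹) (eL z g h w).1.1 (eL z g h w).1.2.1 (eL z g h w).1.2.2 =
      t13 n m ι P Q g w.1.1 w.1.2.1 w.1.2.2 := by
    ext s
    constructor
    · rintro ⟨h1, h2, h3⟩
      exact ⟨h1, h2, (c13_conj (hz _ h1)).1 h3⟩
    · rintro ⟨h1, h2, h3⟩
      exact ⟨h1, h2, (c13_conj (hz _ h1)).2 h3⟩
  have e2 : t12 n m ι P Q (eL z g h w).1.1 (eL z g h w).1.2.1 (eL z g h w).1.2.2 =
      t12 n m ι P Q w.1.1 w.1.2.1 w.1.2.2 := by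
    ext s
    constructor
    · rintro ⟨h1, h2, h3⟩
      exact ⟨h1, h2, (c12_conj (hz _ h1)).1 h3⟩
    · rintro ⟨h1, h2, h3⟩
      exact ⟨h1, h2, (c12_conj (hz _ h1)).2 h3⟩
  rw [e1, e2]

theorem Yg_right (P Q : Subgroup V₀) (F₁₃ F₁₂ : Set (SS n V₀) → ℚ) (g h z : G)
    (hz : ∀ q ∈ Q, z * ι q = ι q * z) :
    Yg n m ι P Q F₁₃ F₁₂ g (z * h * z⁻¹) = Yg n m ι P Q F₁₃ F₁₂ g h := by
  unfold Yg
  rw [← finsum_comp_equiv (eR z g h)]
  apply finsum_congr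
  intro w
  have e1 : t13 n m ι P Q g (eR z g h w).1.1 (eR z g h w).1.2.1 (eR z g h w).1.2.2 =
      t13 n m ι P Q g w.1.1 w.1.2.1 w.1.2.2 := by
    ext s
    constructor
    · rintro ⟨h1, h2, h3⟩
      exact ⟨h1, h2, (c13_mul (hz _ h2)).1 h3⟩
    · rintro ⟨h1, h2, h3⟩
      exact ⟨h1, h2, (c13_mul (hz _ h2)).2 h3⟩
  have e2 : t12 n m ι P Q (eR z g h w).1.1 (eR z g h w).1.2.1 (eR z g h w).1.2.2 =
      t12 n m ι P Q w.1.1 w.1.2.1 w.1.2.2 := by
    ext s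
    constructor
    · rintro ⟨h1, h2, h3⟩
      exact ⟨h1, h2, (c12_mul (hz _ h2)).1 h3⟩
    · rintro ⟨h1, h2, h3⟩
      exact ⟨h1, h2, (c12_mul (hz _ h2)).2 h3⟩
  rw [e1, e2]

end ys

/-! ### the main statement -/

theorem rl_mem {M : Ideal (integralClosure ℤ ℂ)} [M.IsMaximal] (ℓ : ℕ) [Fact ℓ.Prime]
    (hM : (ℓ : integralClosure ℤ ℂ) ∈ M) {q : ℚ} (hq : q ∈ SOR.Rl ℓ) : ((q : ℚ) : ℂ) ∈ RM M := by
  have h1 : ¬ ℓ ∣ q.den := hq
  have h2 := inv_nat_RM (Fact.out : ℓ.Prime) hM h1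
  have h3 := (rr_int (M := M) q.num).1
  have h4 := (RM M).mul_mem h3 h2
  have e : ((q : ℚ) : ℂ) = (q.num : ℂ) * (q.den : ℂ)⁻¹ := by
    rw [← div_eq_mul_inv]
    exact Rat.cast_def q
  rw [e]
  exact h4

section main

variable {V₀ G : Type} [CommGroup V₀] [Group G] {F : Type}

theorem mem_C (B : Bk F V₀ G) (P : Subgroup V₀) (z : G) (hz : z ∈ B.C P) (p : V₀) (hp : p ∈ P) :
    z * B.i p = B.i p * z := by
  have h1 : z ∈ Subgroup.centralizer ((P.map B.i : Subgroup G) : Set G) := hz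
  rw [Subgroup.mem_centralizer_iff] at h1
  exact (h1 (B.i p) ⟨p, hp, rfl⟩).symm

theorem c_mem (c : V₀) (f : Bool) : c ∈ frm c f := by
  cases f with
  | true => exact Subgroup.mem_top c
  | false => exact Subgroup.mem_zpowers c

end main

/-- Row LAC. -/
theorem lac (hC : CngStmt) : LacStmt := by
  classical
  intro ℓ _ M _ hM hℓ V₀ G _ _ _ _ E₀ hF B hB n m c d hc hd F₁₃ F₁₂ hR
  have : Fintype G := Fintype.ofFinite G
  unfold TS
  apply Subring.sum_mem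
  intro f _
  apply Subring.sum_mem
  intro f' _
  rw [finsum_eq_sum_of_fintype, Fintype.sum_prod_type]
  -- abbreviations
  obtain ⟨P, hP⟩ : ∃ P, P = frm c f := ⟨_, rfl⟩
  obtain ⟨Q, hQ⟩ : ∃ Q, Q = frm d f' := ⟨_, rfl⟩
  have hcP : c ∈ P := hP ▸ c_mem c f
  have hdQ : d ∈ Q := hQ ▸ c_mem d f'
  obtain ⟨Y, hY⟩ : ∃ Y : G → G → ℚ, Y = fun s t => Yg n m B.i P Q F₁₃ F₁₂ (B.i c * s) (B.i d * t) :=
    ⟨_, rfl⟩
  have hgoal : ∀ s t : G, ((∑ᶠ z : XX (B.i c * s) (B.i d * t),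
      (F₁₃ (t13 n m B.i (frm c f) (frm d f') (B.i c * s) z.1.1 z.1.2.1 z.1.2.2) +
        F₁₂ (t12 n m B.i (frm c f) (frm d f') z.1.1 z.1.2.1 z.1.2.2)) : ℚ) : ℂ) =
      ((Y s t : ℚ) : ℂ) := by
    intro s t
    rw [hY, hP, hQ]
    rfl
  simp only [hgoal]
  have hYl : ∀ z ∈ B.C P, ∀ s t, Y (z * s * z⁻¹) t = Y s t := by
    intro z hz s t
    have h1 := mem_C B P z hz
    rw [hY]
    show Yg n m B.i P Q F₁₃ F₁₂ (B.i c * (z * s * z⁻¹)) (B.i d * t) = _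
    have e : B.i c * (z * s * z⁻¹) = z * (B.i c * s) * z⁻¹ := by
      calc B.i c * (z * s * z⁻¹) = (B.i c * z) * s * z⁻¹ := by group
        _ = (z * B.i c) * s * z⁻¹ := by rw [h1 c hcP]
        _ = z * (B.i c * s) * z⁻¹ := by group
    rw [e]
    exact Yg_left P Q F₁₃ F₁₂ _ _ z h1
  have hYr : ∀ z ∈ B.C Q, ∀ s t, Y s (z * t * z⁻¹) = Y s t := by
    intro z hz s t
    have h1 := mem_C B Q z hz
    rw [hY]
    show Yg n m B.i P Q F₁₃ F₁₂ (B.i c * s) (B.i d * (z * t * z⁻¹)) = _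
    have e : B.i d * (z * t * z⁻¹) = z * (B.i d * t) * z⁻¹ := by
      calc B.i d * (z * t * z⁻¹) = (B.i d * z) * t * z⁻¹ := by group
        _ = (z * B.i d) * t * z⁻¹ := by rw [h1 d hdQ]
        _ = z * (B.i d * t) * z⁻¹ := by group
    rw [e]
    exact Yg_right P Q F₁₃ F₁₂ _ _ z h1
  have hYv : ∀ s ∈ B.C P, ∀ t ∈ B.C Q, Reg ℓ s → Reg ℓ t →
      ∃ x ∈ SOR.Rl ℓ, Y s t = Nat.card P * Nat.card Q * x := by
    intro s hs t ht hrs hrt
    obtain ⟨x, hx, h⟩ := hR P Q hcP hdQ s t hrs hrt (fun p hp => (mem_C B P s hs p hp).symm)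
      (fun q hq => (mem_C B Q t ht q hq).symm)
    refine ⟨x, hx, ?_⟩
    rw [hY]
    exact h
  have hPc : (Nat.card P : ℂ) ≠ 0 := by
    have h : 0 < Nat.card P := Nat.card_pos
    exact_mod_cast h.ne'
  -- the inner sums
  have hin : ∀ s ∈ B.C P, Reg ℓ s → ∑ t, wt B d f' t * ((Y s t : ℂ) / Nat.card P) ∈ RM M := by
    intro s hs hrs
    refine csum (RM M) (B.C Q) (fun t => wt B d f' t * ((Y s t : ℂ) / Nat.card P)) ?_ ?_
    · intro z hz t
      have hz' : z ∈ B.C (frm d f') := hQ ▸ hz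
      show wt B d f' (z * t * z⁻¹) * ((Y s (z * t * z⁻¹) : ℂ) / Nat.card P) = _
      rw [wt_conj B d f' z hz' t, hYr z hz s t]
    · intro t
      by_cases ht : t ∈ B.C Q
      · by_cases hrt : Reg ℓ t
        · obtain ⟨x, hx, h⟩ := hYv s hs t ht hrs hrt
          have h1 := hC ℓ M hM hℓ V₀ G E₀ hF B hB d hd f' t (hQ ▸ ht)
          rw [← hQ] at h1
          have h2 := (RM M).mul_mem h1 (rl_mem ℓ hM hx)
          have e : (Nat.card (B.C Q) : ℂ) * (wt B d f' t * ((Y s t : ℂ) / Nat.card P)) /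
              Nat.card (B.C Q ⊓ Cu t : Subgroup G) =
              (Nat.card Q : ℂ) * (Nat.card (B.C Q) * wt B d f' t) /
                Nat.card (B.C Q ⊓ Cu t : Subgroup G) * ((x : ℚ) : ℂ) := by
            rw [h]
            push_cast
            field_simp
          show (Nat.card (B.C Q) : ℂ) * (wt B d f' t * ((Y s t : ℂ) / Nat.card P)) /
              Nat.card (B.C Q ⊓ Cu t : Subgroup G) ∈ RM M
          rw [e]
          exact h2
        · show (Nat.card (B.C Q) : ℂ) * (wt B d f' t * ((Y s t : ℂ) / Nat.card P)) /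
              Nat.card (B.C Q ⊓ Cu t : Subgroup G) ∈ RM M
          rw [wt_sing ℓ hM hB d f' t hrt, zero_mul, mul_zero, zero_div]
          exact (RM M).zero_mem
      · show (Nat.card (B.C Q) : ℂ) * (wt B d f' t * ((Y s t : ℂ) / Nat.card P)) /
              Nat.card (B.C Q ⊓ Cu t : Subgroup G) ∈ RM M
        rw [wt_supp B d f' t (hQ ▸ ht), zero_mul, mul_zero, zero_div]
        exact (RM M).zero_mem
  -- the outer sum
  have hs0 : ∑ s, ∑ t, wt B c f s * wt B d f' t * (Y s t : ℂ) =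
      ∑ s, wt B c f s * ∑ t, wt B d f' t * (Y s t : ℂ) := by
    refine Finset.sum_congr rfl fun s _ => ?_
    rw [Finset.mul_sum]
    exact Finset.sum_congr rfl fun t _ => by ring
  rw [hs0]
  refine csum (RM M) (B.C P) (fun s => wt B c f s * ∑ t, wt B d f' t * (Y s t : ℂ)) ?_ ?_
  · intro z hz s
    have hz' : z ∈ B.C (frm c f) := hP ▸ hz
    show wt B c f (z * s * z⁻¹) * ∑ t, wt B d f' t * (Y (z * s * z⁻¹) t : ℂ) = _
    rw [wt_conj B c f z hz' s]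
    simp only [hYl z hz]
  · intro s
    show (Nat.card (B.C P) : ℂ) * (wt B c f s * ∑ t, wt B d f' t * (Y s t : ℂ)) /
      Nat.card (B.C P ⊓ Cu s : Subgroup G) ∈ RM M
    by_cases hs : s ∈ B.C P
    · by_cases hrs : Reg ℓ s
      · have h1 := hC ℓ M hM hℓ V₀ G E₀ hF B hB c hc f s (hP ▸ hs)
        rw [← hP] at h1
        have h2 := (RM M).mul_mem h1 (hin s hs hrs)
        have e0 : ∑ t, wt B d f' t * (Y s t : ℂ) =
            Nat.card P * ∑ t, wt B d f' t * ((Y s t : ℂ) / Nat.card P) := by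
          rw [Finset.mul_sum]
          refine Finset.sum_congr rfl fun t _ => ?_
          field_simp
        have e : (Nat.card (B.C P) : ℂ) * (wt B c f s * ∑ t, wt B d f' t * (Y s t : ℂ)) /
            Nat.card (B.C P ⊓ Cu s : Subgroup G) =
            (Nat.card P : ℂ) * (Nat.card (B.C P) * wt B c f s) /
              Nat.card (B.C P ⊓ Cu s : Subgroup G) *
              ∑ t, wt B d f' t * ((Y s t : ℂ) / Nat.card P) := by
          rw [e0]
          ring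
        rw [e]
        exact h2
      · rw [wt_sing ℓ hM hB c f s hrs, zero_mul, mul_zero, zero_div]
        exact (RM M).zero_mem
    · rw [wt_supp B c f s (hP ▸ hs), zero_mul, mul_zero, zero_div]
      exact (RM M).zero_mem

end Pool.Agent.PP.SO.H10L
end
end -- Pool.Agent.Helper10_ASO.LAC

section -- Pool.Agent.Helper82_ASO.GPR

/-!
# Squad ASO, row GPR: the product of the elements `f_x`, `f_(x'⁻¹)` under the conditions of `L`
-/

open scoped BigOperators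

set_option autoImplicit false

noncomputable section

namespace Pool.Agent.PP.SO.H82

open Pool.Agent.Helper51_AWC Pool.Agent.Helper79_WRA Pool.Agent.PP Pool.Agent.PP.KF
open Pool.Agent.PP.K9 Pool.Agent.PP.K9.H97 Pool.Agent.PP.H75 Pool.Agent.PP.T3

attribute [local instance] Ideal.Quotient.field

section gen

variable {F V₀ G : Type} [CommGroup V₀] [Group G]

theorem memC (B : Bk F V₀ G) (W : Subgroup V₀) (x : G) :
    x ∈ B.C W ↔ ∀ v ∈ W, B.i v * x = x * B.i v := by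
  unfold Bk.C
  rw [Subgroup.mem_centralizer_iff]
  constructor
  · intro h v hv
    exact h _ ⟨v, hv, rfl⟩
  · rintro h _ ⟨v, hv, rfl⟩
    exact h v hv

/-- `w i(v) w⁻¹ = i(v)` for `w ∈ C W` -/
theorem conj_of_mem (B : Bk F V₀ G) {W : Subgroup V₀} {c : G} (hc : c ∈ B.C W) {v : V₀}
    (hv : v ∈ W) : c * B.i v * c⁻¹ = B.i v := by
  rw [← (memC B W c).1 hc v hv, mul_inv_cancel_right]

theorem mem_of_conj (B : Bk F V₀ G) {W : Subgroup V₀} {c : G}
    (h : ∀ v ∈ W, c * B.i v * c⁻¹ = B.i v) : c ∈ B.C W := by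
  rw [memC]
  intro v hv
  conv_lhs => rw [← h v hv]
  rw [inv_mul_cancel_right]

/-- the isomorphism of `C'` with `C = w C' w⁻¹` -/
def cjW {C C' : Subgroup G} {w : G} (h : ∀ x, x ∈ C ↔ w⁻¹ * x * w ∈ C') : C' ≃* C where
  toFun c := ⟨w * c * w⁻¹, by
    rw [h]
    have e : w⁻¹ * (w * (c : G) * w⁻¹) * w = c := by group
    rw [e]
    exact c.2⟩
  invFun c := ⟨w⁻¹ * c * w, (h c).1 c.2⟩
  left_inv c := Subtype.ext (by
    change w⁻¹ * (w * (c : G) * w⁻¹) * w = c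
    group)
  right_inv c := Subtype.ext (by
    change w * (w⁻¹ * (c : G) * w) * w⁻¹ = c
    group)
  map_mul' c d := Subtype.ext (by
    change w * ((c : G) * d) * w⁻¹ = w * c * w⁻¹ * (w * d * w⁻¹)
    group)

end gen

section blk

variable {V₀ G : Type} [CommGroup V₀] [Group G] [Finite G] {ℓ : ℕ}
  {M : Ideal (integralClosure ℤ ℂ)} [M.IsMaximal] {E₀ : Subgroup (MulAut V₀)}
  {B : Bk (FF M) V₀ G}

/-- the lift of the conjugate block -/
theorem bh_cj (hB : Sb ℓ M E₀ B) {W W' : Subgroup V₀} {w : G}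
    (hC : ∀ x, x ∈ B.C W ↔ w⁻¹ * x * w ∈ B.C W') :
    (fun t : B.C W => H75.cj w (bh B W') t) = eh M (fun t : B.C W => H75.cj w (B.b W') t) := by
  funext t
  have hb' : IsIdem (fun t : B.C W' => B.b W' t) := (hB.lb W').blk.blk.1
  have h3 := T3.H62.eh_equiv (M := M) (cjW hC) hb'.1 ((cjW hC).symm t)
  rw [(cjW hC).apply_symm_apply] at h3
  have h4 : (fun y : B.C W => B.b W' (((cjW hC).symm y : B.C W') : G)) =
      fun t : B.C W => H75.cj w (B.b W') t := rfl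
  rw [h4] at h3
  rw [h3]
  change bh B W' (w⁻¹ * (t : G) * w) = _
  have h5 : w⁻¹ * (t : G) * w ∈ B.C W' := (hC t).1 t.2
  unfold bh PP.ext0
  rw [dif_pos h5]
  rfl

/-- the sum over `s` for two blocks -/
theorem prod_eq (hB : Sb ℓ M E₀ B) {W W' : Subgroup V₀} {w : G}
    (hC : ∀ x, x ∈ B.C W ↔ w⁻¹ * x * w ∈ B.C W') [Decidable (H75.cj w (B.b W') = B.b W)] :
    ∑ᶠ s, bh B W s * bh B W' (w⁻¹ * s⁻¹ * w) =
      if H75.cj w (B.b W') = B.b W then bh B W 1 else 0 := by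
  have := Fintype.ofFinite (B.C W)
  have h0 : ∑ᶠ s, bh B W s * bh B W' (w⁻¹ * s⁻¹ * w) =
      mulF (bh B W) (H75.cj w (bh B W')) 1 := by
    unfold mulF H75.cj
    apply finsum_congr
    intro s
    rw [mul_one]
  rw [h0]
  have hs1 : ∀ z, z ∉ B.C W → bh B W z = 0 := fun z hz => H10L.bh_supp B W z hz
  have hs2 : ∀ z, z ∉ B.C W → H75.cj w (bh B W') z = 0 := by
    intro z hz
    change bh B W' (w⁻¹ * z * w) = 0
    apply H10L.bh_supp
    intro h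
    exact hz ((hC z).2 h)
  have hbW : (fun t : B.C W => bh B W t) = eh M (fun t : B.C W => B.b W t) := by
    funext t
    unfold bh PP.ext0
    rw [dif_pos t.2]
  have hB1 : Bx (B.C W) (B.b W) := (hB.lb W).blk
  have hB2 : Bx (B.C W) (H75.cj w (B.b W')) := T3.H62.bx_cj hC (hB.lb W').blk
  split_ifs with h
  · have h2 : mulF (bh B W) (H75.cj w (bh B W')) = bh B W := by
      apply eq_of_res (mulF_supp (B.C W) hs1 hs2) hs1
      rw [mulF_res (B.C W) _ hs1, bh_cj hB hC, h, hbW]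
      exact (KF.H25.eh_idem _).2
    rw [h2]
  · have h2 : mulF (bh B W) (H75.cj w (bh B W')) = 0 := by
      apply eq_of_res (mulF_supp (B.C W) hs1 hs2) (fun _ _ => rfl)
      rw [mulF_res (B.C W) _ hs1, bh_cj hB hC, hbW]
      refine T3.H62.eh_orth hB1.blk.1 hB2.blk.1 ?_
      rcases hB1.dich hB2 with h3 | h3
      · exact absurd h3.symm h
      · rw [← mulF_res (B.C W) (H75.cj w (B.b W')) hB1.supp, h3]
        rfl
    rw [h2]
    rfl

/-- the set of the `w` which map `(x', q)` to `(x, p x^k)` -/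
def TT (B : Bk (FF M) V₀ G) (L : Set (V₀ × V₀ × ℤ)) (x x' : V₀) : Set G :=
  {w | w * B.i x' * w⁻¹ = B.i x ∧ ∀ s ∈ L, w * B.i s.2.1 * w⁻¹ = B.i (s.1 * x ^ s.2.2)}

section maps

variable {L : Set (V₀ × V₀ × ℤ)} {x x' : V₀} {w : G}

omit [Finite G] in
theorem TT_fwd (hw : w ∈ TT B L x x') : ∀ v ∈ p2 L ⊔ Subgroup.zpowers x',
    ∃ u ∈ p1 L ⊔ Subgroup.zpowers x, w * B.i v * w⁻¹ = B.i u := by
  have hle : p2 L ⊔ Subgroup.zpowers x' ≤
      ((p1 L ⊔ Subgroup.zpowers x).map B.i).comap ((MulAut.conj w).toMonoidHom.comp B.i) := by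
    have hx : x ∈ p1 L ⊔ Subgroup.zpowers x :=
      Subgroup.mem_sup_right (Subgroup.mem_zpowers x)
    rw [sup_le_iff]
    constructor
    · unfold p2
      rw [Subgroup.closure_le]
      rintro q ⟨s, hs, rfl⟩
      refine ⟨s.1 * x ^ s.2.2, ?_, (hw.2 s hs).symm⟩
      refine Subgroup.mul_mem _ (Subgroup.mem_sup_left (Subgroup.subset_closure ⟨s, hs, rfl⟩))
        (Subgroup.zpow_mem _ hx _)
    · rw [Subgroup.zpowers_le]
      exact ⟨x, hx, hw.1.symm⟩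
  intro v hv
  obtain ⟨u, hu, hu2⟩ := hle hv
  exact ⟨u, hu, hu2.symm⟩

omit [Finite G] in
theorem TT_bwd (hw : w ∈ TT B L x x') : ∀ u ∈ p1 L ⊔ Subgroup.zpowers x,
    ∃ v ∈ p2 L ⊔ Subgroup.zpowers x', w * B.i v * w⁻¹ = B.i u := by
  have hle : p1 L ⊔ Subgroup.zpowers x ≤
      ((p2 L ⊔ Subgroup.zpowers x').map ((MulAut.conj w).toMonoidHom.comp B.i)).comap B.i := by
    have hx : x ∈ ((p2 L ⊔ Subgroup.zpowers x').map
        ((MulAut.conj w).toMonoidHom.comp B.i)).comap B.i :=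
      ⟨x', Subgroup.mem_sup_right (Subgroup.mem_zpowers x'), hw.1⟩
    rw [sup_le_iff]
    constructor
    · unfold p1
      rw [Subgroup.closure_le]
      rintro p ⟨s, hs, rfl⟩
      have h1 : s.1 * x ^ s.2.2 ∈ ((p2 L ⊔ Subgroup.zpowers x').map
          ((MulAut.conj w).toMonoidHom.comp B.i)).comap B.i :=
        ⟨s.2.1, Subgroup.mem_sup_left (Subgroup.subset_closure ⟨s, hs, rfl⟩), hw.2 s hs⟩
      have h2 := Subgroup.mul_mem _ h1 (Subgroup.inv_mem _ (Subgroup.zpow_mem _ hx s.2.2))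
      rw [mul_inv_cancel_right] at h2
      exact h2
    · rw [Subgroup.zpowers_le]
      exact hx
  intro u hu
  obtain ⟨v, hv, hv2⟩ := hle hu
  exact ⟨v, hv, hv2⟩

omit [Finite G] in
theorem TT_C (hw : w ∈ TT B L x x') (y : G) :
    y ∈ B.C (p1 L ⊔ Subgroup.zpowers x) ↔ w⁻¹ * y * w ∈ B.C (p2 L ⊔ Subgroup.zpowers x') := by
  rw [memC, memC]
  constructor
  · intro h v hv
    obtain ⟨u, hu, e⟩ := TT_fwd hw v hv
    have h1 := h u hu
    rw [← e] at h1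
    have h2 : B.i v * (w⁻¹ * y * w) = w⁻¹ * (w * B.i v * w⁻¹ * y) * w := by group
    rw [h2, h1]
    group
  · intro h u hu
    obtain ⟨v, hv, e⟩ := TT_bwd hw u hu
    have h1 := h v hv
    rw [← e]
    have h2 : w * B.i v * w⁻¹ * y = w * (B.i v * (w⁻¹ * y * w)) * w⁻¹ := by group
    rw [h2, h1]
    group

end maps

section count

variable {L : Set (V₀ × V₀ × ℤ)} {x x' : V₀}

/-- the number of the `w` -/
theorem card_TT (fuw : FuwStmt) (cjt : CjtStmt) [Fact ℓ.Prime]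
    (hM : (ℓ : integralClosure ℤ ℂ) ∈ M) (hℓ : ℓ ≠ 2) [Finite V₀] (hF : Fr ℓ V₀ E₀)
    (hB : Sy ℓ M E₀ B) (hne : p2 L ⊔ Subgroup.zpowers x' ≠ ⊥) :
    Nat.card {w : G // w ∈ TT B L x x' ∧ H75.cj w (B.b (p2 L ⊔ Subgroup.zpowers x')) =
      B.b (p1 L ⊔ Subgroup.zpowers x)} =
    Nat.card (B.C (p2 L ⊔ Subgroup.zpowers x')) *
      {τ : MulAut V₀ | τ ∈ E₀ ∧ τ x = x' ∧ ∀ s ∈ L, τ (s.1 * x ^ s.2.2) = s.2.1}.ncard := by
  classical
  obtain ⟨W, hW⟩ : ∃ W, W = p1 L ⊔ Subgroup.zpowers x := ⟨_, rfl⟩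
  obtain ⟨W', hW'⟩ : ∃ W', W' = p2 L ⊔ Subgroup.zpowers x' := ⟨_, rfl⟩
  obtain ⟨A, hA⟩ : ∃ A : Set (MulAut V₀),
      A = {τ : MulAut V₀ | τ ∈ E₀ ∧ τ x = x' ∧ ∀ s ∈ L, τ (s.1 * x ^ s.2.2) = s.2.1} := ⟨_, rfl⟩
  have hA' : ∀ τ : MulAut V₀, τ ∈ A ↔ τ ∈ E₀ ∧ τ x = x' ∧
      ∀ s ∈ L, τ (s.1 * x ^ s.2.2) = s.2.1 := by
    intro τ
    rw [hA]
    rfl
  rw [← hW, ← hW', ← hA]
  rw [← hW'] at hne
  have hx' : x' ∈ W' := by
    rw [hW']; exact Subgroup.mem_sup_right (Subgroup.mem_zpowers x')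
  have hq : ∀ s ∈ L, s.2.1 ∈ W' := by
    intro s hs
    rw [hW']
    exact Subgroup.mem_sup_left (Subgroup.subset_closure ⟨s, hs, rfl⟩)
  have hfwd : ∀ w ∈ TT B L x x', ∀ v ∈ W', ∃ u ∈ W, w * B.i v * w⁻¹ = B.i u := by
    intro w hw
    rw [hW, hW']
    exact TT_fwd hw
  have hbwd : ∀ w ∈ TT B L x x', ∀ u ∈ W, ∃ v ∈ W', w * B.i v * w⁻¹ = B.i u := by
    intro w hw
    rw [hW, hW']
    exact TT_bwd hw
  have hAE : ∀ τ : A, (τ : MulAut V₀)⁻¹ ∈ E₀ := by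
    intro τ
    exact E₀.inv_mem ((hA' _).1 τ.2).1
  have hch : ∀ τ : A, ∃ t ∈ Tg B.i.range B.g, ∀ v, t * B.i v * t⁻¹ = B.i ((τ : MulAut V₀)⁻¹ v) :=
    fun τ => hB.sur _ (hAE τ)
  choose t htT ht using hch
  have hkey : ∀ (τ : A) (c : G), c ∈ B.C W' → ∀ v ∈ W',
      (t τ * c) * B.i v * (t τ * c)⁻¹ = B.i ((τ : MulAut V₀)⁻¹ v) := by
    intro τ c hc v hv
    rw [← ht τ v]
    have h1 := conj_of_mem B hc hv
    have h2 : (t τ * c) * B.i v * (t τ * c)⁻¹ = t τ * (c * B.i v * c⁻¹) * (t τ)⁻¹ := by group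
    rw [h2, h1]
  have hTT : ∀ (τ : A) (c : G), c ∈ B.C W' → t τ * c ∈ TT B L x x' := by
    intro τ c hc
    obtain ⟨-, hτx, hτL⟩ := (hA' _).1 τ.2
    constructor
    · rw [hkey τ c hc x' hx', ← hτx]
      rw [MulAut.inv_apply_self]
    · intro s hs
      rw [hkey τ c hc _ (hq s hs), ← hτL s hs, MulAut.inv_apply_self]
  have hmap : ∀ τ : A, W'.map ((τ : MulAut V₀)⁻¹).toMonoidHom = W := by
    intro τ
    have h1 := hTT τ 1 (B.C W').one_mem
    ext u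
    constructor
    · rintro ⟨v, hv, rfl⟩
      obtain ⟨u, hu, e⟩ := hfwd _ h1 v hv
      rw [hkey τ 1 (B.C W').one_mem v hv] at e
      have h2 := hB.inj e
      change (τ : MulAut V₀)⁻¹ v ∈ W
      rw [h2]
      exact hu
    · intro hu
      obtain ⟨v, hv, e⟩ := hbwd _ h1 u hu
      rw [hkey τ 1 (B.C W').one_mem v hv] at e
      exact ⟨v, hv, hB.inj e⟩
  have hcj : ∀ (τ : A) (c : G), c ∈ B.C W' → H75.cj (t τ * c) (B.b W') = B.b W := by
    intro τ c hc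
    rw [← cj_cj, ((hB.lb W').blk.ix).inv hc]
    have h1 := (cjt ℓ M hM hℓ V₀ G E₀ hF B hB _ (hAE τ) (t τ) (htT τ) (ht τ) W').1
    rw [hmap τ] at h1
    exact h1
  have huniq : ∀ σ ∈ E₀, ∀ σ' ∈ E₀, (∀ v ∈ W', σ v = σ' v) → σ = σ' := by
    intro σ hσ σ' hσ' h
    obtain ⟨v, hv⟩ := Subgroup.ne_bot_iff_exists_ne_one.1 hne
    by_contra hcon
    have h2 : σ'⁻¹ * σ ≠ 1 := by
      intro h3
      exact hcon (inv_mul_eq_one.1 h3).symm
    apply hv
    apply Subtype.ext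
    refine hF.fr _ (E₀.mul_mem (E₀.inv_mem hσ') hσ) h2 v ?_
    rw [MulAut.mul_apply, h v v.2, MulAut.inv_apply_self]
  have hbij : Function.Bijective (fun p : B.C W' × A =>
      (⟨t p.2 * p.1, hTT p.2 p.1 p.1.2, hcj p.2 p.1 p.1.2⟩ :
        {w : G // w ∈ TT B L x x' ∧ H75.cj w (B.b W') = B.b W})) := by
    constructor
    · rintro ⟨c, τ⟩ ⟨c', τ'⟩ h
      have h1 : t τ * c = t τ' * c' := congrArg Subtype.val h
      have h2 : (τ : MulAut V₀)⁻¹ = (τ' : MulAut V₀)⁻¹ := by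
        refine huniq _ (hAE τ) _ (hAE τ') ?_
        intro v hv
        apply hB.inj
        rw [← hkey τ c c.2 v hv, ← hkey τ' c' c'.2 v hv, h1]
      have h3 : τ = τ' := Subtype.ext (inv_injective h2)
      subst h3
      have h4 : c = c' := Subtype.ext (mul_left_cancel h1)
      rw [h4]
    · rintro ⟨w, hw, hwb⟩
      have hf : ∀ v ∈ W', ∃ u ∈ W, w * B.i v * w⁻¹ = B.i u := hfwd w hw
      obtain ⟨f, hf'⟩ : ∃ f : V₀ → V₀, ∀ v ∈ W', f v ∈ W ∧ w * B.i v * w⁻¹ = B.i (f v) := by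
        refine ⟨fun v => if h : v ∈ W' then (hf v h).choose else 1, fun v hv => ?_⟩
        simp only [dif_pos hv]
        exact (hf v hv).choose_spec
      obtain ⟨σ, hσ, hfσ, -⟩ := fuw ℓ M hM V₀ G E₀ hF B hB.toSb W W' w f
        (fun v hv => (hf' v hv).2) (fun v hv => (hf' v hv).1) (fun u hu => by
          obtain ⟨v, hv, e⟩ := hbwd w hw u hu
          refine ⟨v, hv, ?_⟩
          apply hB.inj
          rw [← (hf' v hv).2, e]) hwb
      have hσv : ∀ v ∈ W', w * B.i v * w⁻¹ = B.i (σ v) := by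
        intro v hv
        rw [(hf' v hv).2, hfσ v hv]
      have hσx : σ x' = x := by
        apply hB.inj
        rw [← hσv x' hx', hw.1]
      have hσL : ∀ s ∈ L, σ s.2.1 = s.1 * x ^ s.2.2 := by
        intro s hs
        apply hB.inj
        rw [← hσv _ (hq s hs), hw.2 s hs]
      have hmem : σ⁻¹ ∈ A := by
        rw [hA']
        refine ⟨E₀.inv_mem hσ, ?_, ?_⟩
        · rw [← hσx, MulAut.inv_apply_self]
        · intro s hs
          rw [← hσL s hs, MulAut.inv_apply_self]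
      have hcm : (t ⟨σ⁻¹, hmem⟩)⁻¹ * w ∈ B.C W' := by
        apply mem_of_conj
        intro v hv
        have h1 := ht ⟨σ⁻¹, hmem⟩ v
        have h2 : ((⟨σ⁻¹, hmem⟩ : A) : MulAut V₀)⁻¹ = σ := inv_inv σ
        rw [h2, ← hσv v hv] at h1
        have h3 : (t ⟨σ⁻¹, hmem⟩)⁻¹ * w * B.i v * ((t ⟨σ⁻¹, hmem⟩)⁻¹ * w)⁻¹ =
            (t ⟨σ⁻¹, hmem⟩)⁻¹ * (w * B.i v * w⁻¹) * t ⟨σ⁻¹, hmem⟩ := by group
        rw [h3, ← h1]
        group
      refine ⟨(⟨_, hcm⟩, ⟨σ⁻¹, hmem⟩), ?_⟩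
      apply Subtype.ext
      change t ⟨σ⁻¹, hmem⟩ * ((t ⟨σ⁻¹, hmem⟩)⁻¹ * w) = w
      rw [mul_inv_cancel_left]
  rw [← Nat.card_congr (Equiv.ofBijective _ hbij), Nat.card_prod]
  rfl

end count

omit [Finite G] in
/-- the `m`-th power of `i(x) s` -/
theorem pow_m {n m : ℕ} (hF : Fr ℓ V₀ E₀) (hPE : PE ℓ n m G) {W : Subgroup V₀} {x : V₀}
    (hx : x ∈ W) {s : G} (hs : s ∈ B.C W) (hr : Reg ℓ s) : (B.i x * s) ^ m = B.i x := by
  have h1 : Commute (B.i x) s := (memC B W s).1 hs x hx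
  rw [h1.mul_pow, hPE.rg s hr, mul_one]
  refine (hPE.el (B.i x) ⟨1, ?_⟩).1
  rw [pow_one, ← map_pow, hF.ex, map_one]

end blk

/-- GPR -/
theorem gpr (nsv : NsvStmt) (fuw : FuwStmt) (cjt : CjtStmt) : GprStmt := by
  intro ℓ _ M _ hM hℓ V₀ G _ _ _ _ E₀ hFr B hSy n m hPE L hL1 hL2 x x'
  classical
  have := Fintype.ofFinite G
  have := Fintype.ofFinite (B.C (p1 L))
  have := Fintype.ofFinite (B.C (p2 L))
  obtain ⟨W, hW⟩ : ∃ W, W = p1 L ⊔ Subgroup.zpowers x := ⟨_, rfl⟩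
  obtain ⟨W', hW'⟩ : ∃ W', W' = p2 L ⊔ Subgroup.zpowers x' := ⟨_, rfl⟩
  have hx : x ∈ W := by
    rw [hW]; exact Subgroup.mem_sup_right (Subgroup.mem_zpowers x)
  have hx' : x' ∈ W' := by
    rw [hW']; exact Subgroup.mem_sup_right (Subgroup.mem_zpowers x')
  have hWne : W ≠ ⊥ := by
    intro h
    apply hL1
    rw [hW] at h
    exact (sup_eq_bot_iff.1 h).1
  have hWne' : W' ≠ ⊥ := by
    intro h
    apply hL2
    rw [hW'] at h
    exact (sup_eq_bot_iff.1 h).1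
  have hreg : ∀ (U : Subgroup V₀) (s : G), bh B U s ≠ 0 → s ∈ B.C U ∧ Reg ℓ s := by
    intro U s hs
    constructor
    · by_contra h
      exact hs (H10L.bh_supp B U s h)
    · by_contra h
      exact hs (H10L.bh_sing ℓ hM hSy U s h)
  -- the terms
  have key : ∀ s w : G, (if (∀ r ∈ L, w * B.i r.2.1 * w⁻¹ =
        B.i r.1 * ((B.i x * s) ^ m) ^ r.2.2) then
      bh B W s * bh B W' (B.i x' * (w⁻¹ * (s⁻¹ * (B.i x)⁻¹) * w)) else 0) =
      if w ∈ TT B L x x' then bh B W s * bh B W' (w⁻¹ * s⁻¹ * w) else 0 := by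
    intro s w
    by_cases hs : bh B W s = 0
    · rw [hs, zero_mul, zero_mul, ite_self, ite_self]
    obtain ⟨hsC, hsR⟩ := hreg W s hs
    have hp : (B.i x * s) ^ m = B.i x := pow_m hFr hPE hx hsC hsR
    have hcond : (∀ r ∈ L, w * B.i r.2.1 * w⁻¹ = B.i r.1 * ((B.i x * s) ^ m) ^ r.2.2) ↔
        ∀ r ∈ L, w * B.i r.2.1 * w⁻¹ = B.i (r.1 * x ^ r.2.2) := by
      rw [hp]
      constructor
      · intro h r hr
        rw [h r hr, map_mul, map_zpow]
      · intro h r hr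
        rw [h r hr, map_mul, map_zpow]
    by_cases hc : ∀ r ∈ L, w * B.i r.2.1 * w⁻¹ = B.i (r.1 * x ^ r.2.2)
    · rw [if_pos (hcond.2 hc)]
      by_cases hxx : w * B.i x' * w⁻¹ = B.i x
      · rw [if_pos (show w ∈ TT B L x x' from ⟨hxx, hc⟩)]
        congr 2
        have h1 : Commute (B.i x) s := (memC B W s).1 hsC x hx
        have h2 : B.i x' = w⁻¹ * B.i x * w := by rw [← hxx]; group
        have h3 : B.i x * (s⁻¹ * (B.i x)⁻¹) = s⁻¹ := by
          rw [← mul_assoc, (h1.inv_right).eq, mul_inv_cancel_right]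
        rw [h2]
        calc w⁻¹ * B.i x * w * (w⁻¹ * (s⁻¹ * (B.i x)⁻¹) * w)
            = w⁻¹ * (B.i x * (s⁻¹ * (B.i x)⁻¹)) * w := by group
          _ = w⁻¹ * s⁻¹ * w := by rw [h3]
      · rw [if_neg (show w ∉ TT B L x x' from fun h => hxx h.1)]
        rw [mul_eq_zero]
        right
        by_contra hne
        obtain ⟨hC', hR'⟩ := hreg W' _ hne
        obtain ⟨s', hs'⟩ : ∃ s', s' = B.i x' * (w⁻¹ * (s⁻¹ * (B.i x)⁻¹) * w) := ⟨_, rfl⟩
        rw [← hs'] at hC' hR'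
        have h1 : B.i x'⁻¹ * s' = w⁻¹ * (s⁻¹ * (B.i x)⁻¹) * w := by
          rw [hs', map_inv, inv_mul_cancel_left]
        have h2 : (B.i x'⁻¹ * s') ^ m = B.i x'⁻¹ :=
          pow_m hFr hPE (W'.inv_mem hx') hC' hR'
        have h3 : (s⁻¹ * (B.i x)⁻¹) ^ m = (B.i x)⁻¹ := by
          rw [← mul_inv_rev, inv_pow, hp]
        have h4 : (w⁻¹ * (s⁻¹ * (B.i x)⁻¹) * w) ^ m = w⁻¹ * (B.i x)⁻¹ * w := by
          have h5 := conj_pow (a := w⁻¹) (b := s⁻¹ * (B.i x)⁻¹) (i := m)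
          rw [inv_inv, h3] at h5
          exact h5
        rw [h1, h4, map_inv] at h2
        apply hxx
        have h6 : B.i x' = w⁻¹ * B.i x * w := by
          rw [← inv_inj, ← h2]
          group
        rw [h6]
        group
    · rw [if_neg (fun h => hc (hcond.1 h)), if_neg (fun h => hc h.2)]
  -- the functions `fc`
  have hf1 : ∀ g, fc B (p1 L) x g = (Nat.card (B.C W) : ℂ)⁻¹ *
      ∑ z : B.C (p1 L), bh B W ((B.i x)⁻¹ * ((z : G)⁻¹ * g * z)) := by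
    intro g
    unfold fc
    rw [finsum_eq_sum_of_fintype, hW]
  have hf2 : ∀ g, fc B (p2 L) x'⁻¹ g = (Nat.card (B.C W') : ℂ)⁻¹ *
      ∑ z : B.C (p2 L), bh B W' (B.i x' * ((z : G)⁻¹ * g * z)) := by
    intro g
    unfold fc
    rw [finsum_eq_sum_of_fintype, Subgroup.zpowers_inv, ← hW', map_inv, inv_inv]
  obtain ⟨K, hK⟩ : ∃ K : ℂ, K = ∑ p : G × G, if p.2 ∈ TT B L x x' then
    bh B W p.1 * bh B W' (p.2⁻¹ * p.1⁻¹ * p.2) else 0 := ⟨_, rfl⟩
  -- the substitution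
  have hsub : ∀ (z : B.C (p1 L)) (z' : B.C (p2 L)), (∑ w : G × G,
      if w ∈ {w : G × G | ∀ s ∈ L, w.2 * B.i s.2.1 * w.2⁻¹ = B.i s.1 * (w.1 ^ m) ^ s.2.2} then
        bh B W ((B.i x)⁻¹ * ((z : G)⁻¹ * w.1 * z)) *
          bh B W' (B.i x' * ((z' : G)⁻¹ * (w.2⁻¹ * w.1⁻¹ * w.2) * z')) else 0) = K := by
    intro z z'
    let e : G × G ≃ G × G :=
      { toFun := fun p => ((z : G) * (B.i x * p.1) * (z : G)⁻¹, (z : G) * p.2 * (z' : G)⁻¹)
        invFun := fun p => ((B.i x)⁻¹ * ((z : G)⁻¹ * p.1 * z), (z : G)⁻¹ * p.2 * z')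
        left_inv := fun p => Prod.ext (by dsimp only; group) (by dsimp only; group)
        right_inv := fun p => Prod.ext (by dsimp only; group) (by dsimp only; group) }
    rw [hK, ← e.sum_comp]
    refine Finset.sum_congr rfl fun p _ => ?_
    rw [← key p.1 p.2]
    have e1 : (e p).1 = (z : G) * (B.i x * p.1) * (z : G)⁻¹ := rfl
    have e2 : (e p).2 = (z : G) * p.2 * (z' : G)⁻¹ := rfl
    have hc : (e p ∈ {w : G × G | ∀ s ∈ L, w.2 * B.i s.2.1 * w.2⁻¹ =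
        B.i s.1 * (w.1 ^ m) ^ s.2.2}) ↔ ∀ r ∈ L, p.2 * B.i r.2.1 * p.2⁻¹ =
        B.i r.1 * ((B.i x * p.1) ^ m) ^ r.2.2 := by
      rw [Set.mem_setOf_eq, e1, e2]
      refine forall₂_congr fun r hr => ?_
      have h1 : r.1 ∈ p1 L := Subgroup.subset_closure ⟨r, hr, rfl⟩
      have h2 : r.2.1 ∈ p2 L := Subgroup.subset_closure ⟨r, hr, rfl⟩
      have h3 := conj_of_mem B z.2 h1
      have h4 := conj_of_mem B ((B.C (p2 L)).inv_mem z'.2) h2
      rw [inv_inv] at h4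
      have h5 : (z : G) * p.2 * (z' : G)⁻¹ * B.i r.2.1 * ((z : G) * p.2 * (z' : G)⁻¹)⁻¹ =
          (z : G) * (p.2 * ((z' : G)⁻¹ * B.i r.2.1 * z') * p.2⁻¹) * (z : G)⁻¹ := by group
      have h6 : ((z : G) * (B.i x * p.1) * (z : G)⁻¹) ^ m =
          (z : G) * (B.i x * p.1) ^ m * (z : G)⁻¹ := conj_pow
      rw [h5, h4, h6, conj_zpow]
      constructor
      · intro h
        have h7 : p.2 * B.i r.2.1 * p.2⁻¹ = (z : G)⁻¹ * ((z : G) *
          (p.2 * B.i r.2.1 * p.2⁻¹) * (z : G)⁻¹) * z := by group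
        rw [h7, h]
        have h8 : (z : G)⁻¹ * (B.i r.1 * ((z : G) * ((B.i x * p.1) ^ m) ^ r.2.2 * (z : G)⁻¹)) * z =
          ((z : G)⁻¹ * B.i r.1 * z) * ((B.i x * p.1) ^ m) ^ r.2.2 := by group
        rw [h8]
        congr 1
        conv_lhs => rw [← h3]
        group
      · intro h
        rw [h]
        conv_rhs => rw [← h3]
        group
    by_cases h : ∀ r ∈ L, p.2 * B.i r.2.1 * p.2⁻¹ = B.i r.1 * ((B.i x * p.1) ^ m) ^ r.2.2
    · rw [if_pos (hc.2 h), if_pos h, e1, e2]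
      congr 2
      · group
      · group
    · rw [if_neg (fun h' => h (hc.1 h')), if_neg h]
  -- the value of `K`
  have hKval : K = (Nat.card {w : G // w ∈ TT B L x x' ∧ H75.cj w (B.b W') = B.b W} : ℂ) *
      bh B W 1 := by
    rw [hK, Fintype.sum_prod_type_right]
    have h1 : ∀ w : G, (∑ s : G, if w ∈ TT B L x x' then
        bh B W s * bh B W' (w⁻¹ * s⁻¹ * w) else 0) =
        if w ∈ TT B L x x' ∧ H75.cj w (B.b W') = B.b W then bh B W 1 else 0 := by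
      intro w
      by_cases hw : w ∈ TT B L x x'
      · simp only [if_pos hw]
        have hC : ∀ y, y ∈ B.C W ↔ w⁻¹ * y * w ∈ B.C W' := by
          rw [hW, hW']
          exact TT_C hw
        rw [← finsum_eq_sum_of_fintype, prod_eq hSy.toSb hC]
        by_cases hb : H75.cj w (B.b W') = B.b W
        · rw [if_pos hb, if_pos ⟨hw, hb⟩]
        · rw [if_neg hb, if_neg (fun h => hb h.2)]
      · rw [if_neg (fun h => hw h.1)]
        refine Finset.sum_eq_zero fun s _ => ?_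
        rw [if_neg hw]
    rw [Finset.sum_congr rfl fun w _ => h1 w, ← Finset.sum_filter, Finset.sum_const, nsmul_eq_mul,
      Nat.card_eq_fintype_card, Fintype.card_subtype]
  have hcard := card_TT (B := B) (L := L) (x := x) (x' := x') fuw cjt hM hℓ hFr hSy
    (by rw [← hW']; exact hWne')
  rw [← hW, ← hW'] at hcard
  have hbh : bh B W 1 = ℓ ^ 2 * B.D W ^ 2 / Nat.card (B.C W) :=
    (nsv ℓ M hM hℓ V₀ G E₀ hFr B hSy W hWne).2.2.2.2.2.2
  -- assembly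
  rw [← hW, finsum_mem_def, finsum_eq_sum_of_fintype]
  have hexp : ∀ w : G × G, Set.indicator {w : G × G | ∀ s ∈ L, w.2 * B.i s.2.1 * w.2⁻¹ =
      B.i s.1 * (w.1 ^ m) ^ s.2.2} (fun w : G × G => fc B (p1 L) x w.1 *
        fc B (p2 L) x'⁻¹ (w.2⁻¹ * w.1⁻¹ * w.2)) w =
      (Nat.card (B.C W) : ℂ)⁻¹ * (Nat.card (B.C W') : ℂ)⁻¹ * ∑ z : B.C (p1 L),
        ∑ z' : B.C (p2 L),
        if w ∈ {w : G × G | ∀ s ∈ L, w.2 * B.i s.2.1 * w.2⁻¹ = B.i s.1 * (w.1 ^ m) ^ s.2.2} then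
        bh B W ((B.i x)⁻¹ * ((z : G)⁻¹ * w.1 * z)) *
          bh B W' (B.i x' * ((z' : G)⁻¹ * (w.2⁻¹ * w.1⁻¹ * w.2) * z')) else 0 := by
    intro w
    rw [Set.indicator_apply]
    by_cases h : w ∈ {w : G × G | ∀ s ∈ L, w.2 * B.i s.2.1 * w.2⁻¹ = B.i s.1 * (w.1 ^ m) ^ s.2.2}
    · simp only [if_pos h]
      rw [hf1, hf2, mul_mul_mul_comm, Finset.sum_mul_sum]
    · simp only [if_neg h, Finset.sum_const_zero, mul_zero]
  rw [Finset.sum_congr rfl fun w _ => hexp w, ← Finset.mul_sum, Finset.sum_comm]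
  have hin : ∀ z : B.C (p1 L), (∑ w : G × G, ∑ z' : B.C (p2 L),
        if w ∈ {w : G × G | ∀ s ∈ L, w.2 * B.i s.2.1 * w.2⁻¹ = B.i s.1 * (w.1 ^ m) ^ s.2.2} then
        bh B W ((B.i x)⁻¹ * ((z : G)⁻¹ * w.1 * z)) *
          bh B W' (B.i x' * ((z' : G)⁻¹ * (w.2⁻¹ * w.1⁻¹ * w.2) * z')) else 0) =
      Nat.card (B.C (p2 L)) * K := by
    intro z
    rw [Finset.sum_comm, Finset.sum_congr rfl fun z' _ => hsub z z', Finset.sum_const,
      nsmul_eq_mul, Nat.card_eq_fintype_card]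
    rfl
  rw [Finset.sum_congr rfl fun z _ => hin z, Finset.sum_const, nsmul_eq_mul, hKval, hcard, hbh]
  have hn1 : (Nat.card (B.C W) : ℂ) ≠ 0 := by
    exact_mod_cast (Nat.card_pos (α := B.C W)).ne'
  have hn2 : (Nat.card (B.C W') : ℂ) ≠ 0 := by
    exact_mod_cast (Nat.card_pos (α := B.C W')).ne'
  have hcu : (Finset.univ : Finset (B.C (p1 L))).card = Nat.card (B.C (p1 L)) := by
    rw [Nat.card_eq_fintype_card]
    rfl
  rw [hcu]
  push_cast
  field_simp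

end Pool.Agent.PP.SO.H82
end
end -- Pool.Agent.Helper82_ASO.GPR
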