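import Pool.Agent.Helper12_AWB.B268

/-!
# Merged copies (generated) of the modules

* `Pool.Agent.Helper38_AT3.LPW`
* `Pool.Agent.Helper76_AT3.GSM`
* `Pool.Agent.Helper88_AT3.Cgz`
-/

set_option autoImplicit false

section -- Pool.Agent.Helper38_AT3.LPW

open scoped BigOperators

noncomputable section

namespace Pool.Agent.PP.T3.H38

open Pool.Agent.Helper51_AWC Pool.Agent.Helper79_WRA Pool.Agent.PP Pool.Agent.PP.KF
open Pool.Agent.PP.K9 Pool.Agent.PP.K9.H97 Pool.Agent.PP.H75 Pool.Agent.PP.T3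

attribute [local instance] Ideal.Quotient.field

theorem lc_congr {G : Type} [Group G] {F : Type} [Field F] {e : G → F} {V : Subgroup G}
    {γ : G → F} {u v : G} {b : G → F} (h : Cu v = Cu u) (hL : Lc e V γ u b) : Lc e V γ v b := by
  obtain ⟨h1, h2, h3⟩ := hL
  have key : ∀ C : Subgroup G, C = Cu u → Bx C b ∧
      mulF (fun t : C => e t) (fun t : C => b t) = fun t : C => b t := by
    rintro C rfl
    exact ⟨h1, h2⟩
  obtain ⟨k1, k2⟩ := key (Cu v) h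
  exact ⟨k1, k2, h3⟩

theorem lpw : LpwStmt := by
  intro ℓ hℓ F _ hF G _ _ e V γ hL u hu b hb j hj
  have hp : ℓ.Prime := hℓ.out
  have hcop : j.Coprime (orderOf u) := by
    obtain ⟨n, hn⟩ := hL.tp.pg ⟨u, hu⟩
    have h1 : u ^ ℓ ^ n = 1 := congrArg Subtype.val hn
    have h2 : orderOf u ∣ ℓ ^ n := orderOf_dvd_of_pow_eq_one h1
    have h3 : j.Coprime (ℓ ^ n) := Nat.Coprime.pow_right n ((Nat.Prime.coprime_iff_not_dvd hp).2 hj).symm
    exact h3.coprime_dvd_right h2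
  obtain ⟨m, hm⟩ := exists_pow_eq_self_of_coprime hcop
  have hC : Cu (u ^ j) = Cu u := by
    ext g
    rw [Subgroup.mem_centralizer_singleton_iff, Subgroup.mem_centralizer_singleton_iff]
    constructor
    · intro h
      have h1 : Commute g (u ^ j) := h
      have h2 := h1.pow_right m
      rw [hm] at h2
      exact h2
    · intro h
      have h1 : Commute g u := h
      exact h1.pow_right j
  exact ⟨hC, lc_congr hC hb⟩

end Pool.Agent.PP.T3.H38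
end
end -- Pool.Agent.Helper38_AT3.LPW

section -- Pool.Agent.Helper76_AT3.GSM

/-!
# Squad AT3, row GSM: the sum over a set stable under the powers prime to `ℓ`
-/

open scoped BigOperators

noncomputable section

namespace Pool.Agent.PP.T3.H76

open Pool.Agent.Helper51_AWC Pool.Agent.Helper79_WRA Pool.Agent.PP Pool.Agent.PP.KF
open Pool.Agent.PP.K9 Pool.Agent.PP.K9.H97 Pool.Agent.PP.H75 Pool.Agent.PP.T3

attribute [local instance] Ideal.Quotient.field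

/-- the degree is determined by the block -/
theorem dg_unique (M : Ideal (integralClosure ℤ ℂ)) [M.IsMaximal] {H : Type} [Group H]
    {C C' : Subgroup H} (h : C = C') {b : H → FF M} {d d' : ℕ}
    (hne : (IrrE M (fun t : C => b t)).Nonempty)
    (h1 : Dg M (fun t : C => b t) d) (h2 : Dg M (fun t : C' => b t) d') : d = d' := by
  subst h
  obtain ⟨χ, hχ⟩ := hne
  have h := (h1.2 χ hχ).symm.trans (h2.2 χ hχ)
  exact_mod_cast h

/-- averaging over the powers prime to `ℓ` -/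
theorem avg {H : Type} [Group H] (ℓ : ℕ) [Fact ℓ.Prime] (a : ℕ) (ha : 0 < a) (S : Finset H)
    (hq : ∀ x ∈ S, x ^ ℓ ^ a = 1) (hS : ∀ x ∈ S, ∀ j : ℕ, ¬ ℓ ∣ j → x ^ j ∈ S) (f : H → ℝ)
    (h1 : ∀ x ∈ S, ((ℓ ^ (a - 1) * (ℓ - 1) : ℕ) : ℝ) ≤
      ∑ j ∈ (Finset.range (ℓ ^ a)).filter (fun j => ¬ ℓ ∣ j), f (x ^ j))
    (h2 : ∀ x ∈ S, ∑ j ∈ (Finset.range (ℓ ^ a)).filter (fun j => ¬ ℓ ∣ j), f (x ^ j) =
      ((ℓ ^ (a - 1) * (ℓ - 1) : ℕ) : ℝ) → f x = 1) :
    (S.card : ℝ) ≤ ∑ x ∈ S, f x ∧ (∑ x ∈ S, f x = S.card → ∀ x ∈ S, f x = 1) := by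
  have hp : ℓ.Prime := Fact.out
  have hq1 : 1 < ℓ ^ a := Nat.one_lt_pow ha.ne' hp.one_lt
  obtain ⟨J, hJ⟩ : ∃ J, J = (Finset.range (ℓ ^ a)).filter (fun j => ¬ ℓ ∣ j) := ⟨_, rfl⟩
  have hcard : J.card = ℓ ^ (a - 1) * (ℓ - 1) := by
    rw [← Nat.totient_prime_pow hp ha, Nat.totient_eq_card_coprime, hJ]
    congr 1
    apply Finset.filter_congr
    intro j _
    rw [Nat.coprime_pow_left_iff ha, hp.coprime_iff_not_dvd]
  rw [← hJ] at h1 h2
  rw [← hcard] at h1 h2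
  have hpos : (0 : ℝ) < J.card := by
    rw [hcard]
    have h3 : 0 < ℓ ^ (a - 1) * (ℓ - 1) :=
      Nat.mul_pos (pow_pos hp.pos _) (Nat.sub_pos_of_lt hp.one_lt)
    exact_mod_cast h3
  have hbij : ∀ j ∈ J, ∑ x ∈ S, f (x ^ j) = ∑ x ∈ S, f x := by
    intro j hj
    rw [hJ, Finset.mem_filter] at hj
    have hco : Nat.Coprime j (ℓ ^ a) := by
      rw [Nat.coprime_comm, Nat.coprime_pow_left_iff ha, hp.coprime_iff_not_dvd]
      exact hj.2
    obtain ⟨m, -, hm⟩ := Nat.exists_mul_mod_eq_one_of_coprime hco hq1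
    have hm' : ¬ ℓ ∣ m := by
      intro hd
      have h4 : ℓ ∣ j * m % ℓ ^ a := (Nat.dvd_mod_iff (dvd_pow_self ℓ ha.ne')).2
        (Dvd.dvd.mul_left hd j)
      rw [hm] at h4
      exact hp.one_lt.ne' (Nat.dvd_one.1 h4)
    have hpow : ∀ x ∈ S, x ^ (j * m) = x := by
      intro x hx
      rw [← Nat.div_add_mod (j * m) (ℓ ^ a), hm, pow_add, pow_mul, hq x hx, one_pow, one_mul,
        pow_one]
    refine Finset.sum_nbij' (fun x => x ^ j) (fun x => x ^ m) ?_ ?_ ?_ ?_ ?_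
    · intro x hx
      exact hS x hx j hj.2
    · intro x hx
      exact hS x hx m hm'
    · intro x hx
      show (x ^ j) ^ m = x
      rw [← pow_mul]
      exact hpow x hx
    · intro x hx
      show (x ^ m) ^ j = x
      rw [← pow_mul, mul_comm]
      exact hpow x hx
    · intro x _
      rfl
  have hdouble : ∑ x ∈ S, ∑ j ∈ J, f (x ^ j) = J.card * ∑ x ∈ S, f x := by
    rw [Finset.sum_comm, Finset.sum_congr rfl hbij, Finset.sum_const, nsmul_eq_mul]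
  have hconst : ∑ _x ∈ S, (J.card : ℝ) = J.card * S.card := by
    rw [Finset.sum_const, nsmul_eq_mul, mul_comm]
  refine ⟨?_, ?_⟩
  · have h5 : ∑ _x ∈ S, (J.card : ℝ) ≤ ∑ x ∈ S, ∑ j ∈ J, f (x ^ j) := Finset.sum_le_sum h1
    rw [hdouble, hconst] at h5
    exact le_of_mul_le_mul_left h5 hpos
  · intro he x hx
    have h6 : ∑ _x ∈ S, (J.card : ℝ) = ∑ x ∈ S, ∑ j ∈ J, f (x ^ j) := by
      rw [hdouble, hconst, he]
    exact h2 x hx (((Finset.sum_eq_sum_iff_of_le h1).1 h6) x hx).symm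

/-- GSM -/
theorem gsm (hLOC : LocStmt) (hLSB : LsbStmt) (hLPW : LpwStmt) (hINR : InrStmt)
    (hGLP : GlpStmt) : GsmStmt := by
  intro ℓ hℓ M hMx hM H _ _ b V γ hL S hS1 hS2 c d hc κ hκ
  by_cases hSe : S = ∅
  · subst hSe
    simp
  obtain ⟨x₀, hx₀⟩ := Finset.nonempty_iff_ne_empty.2 hSe
  obtain ⟨a, ha⟩ := (IsPGroup.iff_card).1 hL.tp.pg
  have hq : ∀ x ∈ V, x ^ ℓ ^ a = 1 := by
    intro x hx
    have h1 : (⟨x, hx⟩ : V) ^ Nat.card V = 1 := pow_card_eq_one'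
    rw [ha] at h1
    have h2 := congrArg Subtype.val h1
    simpa using h2
  have hapos : 0 < a := by
    rcases Nat.eq_zero_or_pos a with h | h
    · exfalso
      apply (hS1 x₀ hx₀).2
      have h3 := hq x₀ (hS1 x₀ hx₀).1
      rw [h, pow_zero, pow_one] at h3
      exact h3
    · exact h
  have hgf : GoodF ℓ (FF M) := H50.fld ℓ hℓ.out M hM
  have hζ := Complex.isPrimitiveRoot_exp (ℓ ^ a) (pow_ne_zero a hℓ.out.ne_zero)
  obtain ⟨ζ, hζe⟩ : ∃ ζ, ζ = Complex.exp (2 * Real.pi * Complex.I / (ℓ ^ a : ℕ)) := ⟨_, rfl⟩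
  rw [← hζe] at hζ
  have hnz : ∀ x ∈ S, gv M (Cu x) x (c x) κ ≠ 0 := by
    intro x hx
    have hLx := (hc x hx).1
    exact nz_ ℓ M hM H b hL.blk V hL.tp hL.ab x (hS1 x hx).1 (fun t : Cu x => c x t)
      hLx.blk.blk hLx.und (hLSB ℓ M hM H b V γ hL x (hS1 x hx).1 (c x) hLx).1.tp.gd x
      (Subgroup.mem_zpowers x) κ hκ
  have hne : ∀ x ∈ S, (IrrE M (fun t : Cu x => c x t)).Nonempty := by
    intro x hx
    by_contra hem
    rw [Set.not_nonempty_iff_eq_empty] at hem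
    apply hnz x hx
    unfold gv gbv eh
    rw [hem]
    simp
  have key : ∀ x ∈ S, ∀ j, ¬ ℓ ∣ j →
      gv M (Cu (x ^ j)) (x ^ j) (c (x ^ j)) κ / d (x ^ j) =
        gv M (Cu x) (x ^ j) (c x) κ / d x := by
    intro x hx j hj
    have hxj := hS2 x hx j hj
    obtain ⟨hC, hLj⟩ := hLPW ℓ (FF M) hgf H b V γ hL x (hS1 x hx).1 (c x) (hc x hx).1 j hj
    have hcc : c (x ^ j) = c x :=
      (hLOC ℓ (FF M) hgf H b V γ hL (x ^ j) (hS1 _ hxj).1).2 _ _ (hc _ hxj).1 hLj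
    have hdd : d (x ^ j) = d x := by
      have h1 := (hc _ hxj).2
      have h2 := (hc x hx).2
      have h3 := hne _ hxj
      rw [hcc] at h1 h3
      exact dg_unique M hC h3 h1 h2
    rw [hcc, hdd, hC]
  have hm : ∀ x ∈ S, ∃ m : ℕ → ℤ, (∀ j : ℕ, gv M (Cu x) (x ^ j) (c x) κ / d x =
      ∑ i ∈ Finset.range (ℓ ^ a), (m i : ℂ) * ζ ^ (i * j)) ∧
      ∑ i ∈ Finset.range (ℓ ^ a), (m i : ℂ) * ζ ^ i ≠ 0 := by
    intro x hx
    obtain ⟨m, hm⟩ := hINR M H x (ℓ ^ a) (pow_pos hℓ.out.pos a) (hq x (hS1 x hx).1) (c x)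
      (hc x hx).1.blk.ix (d x) (hc x hx).2 ζ hζ κ hκ.1
    have hd : (d x : ℂ) ≠ 0 := by
      have := (hc x hx).2.1
      exact_mod_cast this.ne'
    refine ⟨m, fun j => ?_, fun h0 => ?_⟩
    · rw [hm j, mul_div_cancel_left₀ _ hd]
    · apply hnz x hx
      have h1 := hm 1
      simp only [pow_one, mul_one] at h1
      rw [h1, h0, mul_zero]
  apply avg ℓ a hapos S (fun x hx => hq x (hS1 x hx).1) hS2
    (fun x => Complex.normSq (gv M (Cu x) x (c x) κ / d x))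
  · intro x hx
    obtain ⟨m, hm1, hm2⟩ := hm x hx
    have hs : ∑ j ∈ (Finset.range (ℓ ^ a)).filter (fun j => ¬ ℓ ∣ j),
        Complex.normSq (gv M (Cu (x ^ j)) (x ^ j) (c (x ^ j)) κ / d (x ^ j)) =
        ∑ j ∈ (Finset.range (ℓ ^ a)).filter (fun j => ¬ ℓ ∣ j),
      Complex.normSq (∑ i ∈ Finset.range (ℓ ^ a), (m i : ℂ) * ζ ^ (i * j)) := by
      apply Finset.sum_congr rfl
      intro j hj
      rw [key x hx j (Finset.mem_filter.1 hj).2, hm1 j]
    show _ ≤ ∑ j ∈ (Finset.range (ℓ ^ a)).filter (fun j => ¬ ℓ ∣ j),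
        Complex.normSq (gv M (Cu (x ^ j)) (x ^ j) (c (x ^ j)) κ / d (x ^ j))
    rw [hs]
    exact (hGLP ℓ a hapos ζ hζ m hm2).1
  · intro x hx he
    obtain ⟨m, hm1, hm2⟩ := hm x hx
    have hs : ∑ j ∈ (Finset.range (ℓ ^ a)).filter (fun j => ¬ ℓ ∣ j),
        Complex.normSq (gv M (Cu (x ^ j)) (x ^ j) (c (x ^ j)) κ / d (x ^ j)) =
        ∑ j ∈ (Finset.range (ℓ ^ a)).filter (fun j => ¬ ℓ ∣ j),
      Complex.normSq (∑ i ∈ Finset.range (ℓ ^ a), (m i : ℂ) * ζ ^ (i * j)) := by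
      apply Finset.sum_congr rfl
      intro j hj
      rw [key x hx j (Finset.mem_filter.1 hj).2, hm1 j]
    have he' : ∑ j ∈ (Finset.range (ℓ ^ a)).filter (fun j => ¬ ℓ ∣ j),
        Complex.normSq (gv M (Cu (x ^ j)) (x ^ j) (c (x ^ j)) κ / d (x ^ j)) =
        ((ℓ ^ (a - 1) * (ℓ - 1) : ℕ) : ℝ) := he
    rw [hs] at he'
    have h1 := (hGLP ℓ a hapos ζ hζ m hm2).2 he' 1
      (fun h => hℓ.out.one_lt.ne' (Nat.dvd_one.1 h))
    have h2 := hm1 1
    rw [pow_one] at h2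
    show Complex.normSq (gv M (Cu x) x (c x) κ / d x) = 1
    rw [h2]
    exact h1

end Pool.Agent.PP.T3.H76
end
end -- Pool.Agent.Helper76_AT3.GSM

section -- Pool.Agent.Helper88_AT3.Cgz

/-!
Squad AT3, row CGZ: the congruences between the integers of two regular elements.
-/

open scoped BigOperators

set_option autoImplicit false

noncomputable section

namespace Pool.Agent.PP.T3.H88

open Pool.Agent.Helper51_AWC Pool.Agent.Helper79_WRA Pool.Agent.PP Pool.Agent.PP.KF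
open Pool.Agent.PP.K9 Pool.Agent.PP.K9.H97 Pool.Agent.PP.H75

attribute [local instance] Ideal.Quotient.field

/-- CGZ -/
theorem cgz (cgr : CgrStmt) (dgc : DgcStmt) (loc : LocStmt) : CgzStmt := by
  intro ℓ _ M _ hM G _ _ e V γ hL
  have hℓ : ℓ.Prime := Fact.out
  have hF : GoodF ℓ (FF M) := H50.fld ℓ hℓ M hM
  obtain ⟨c, hc⟩ := dgc ℓ M hM G e V γ hL
  -- the degree of a local block is unique
  have huniq : ∀ u : G, ∀ b : G → FF M, Bx (Cu u) b → ∀ d d' : ℕ,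
      Dg M (fun t : Cu u => b t) d → Dg M (fun t : Cu u => b t) d' → d = d' := by
    intro u b hb d d' hd hd'
    obtain ⟨κ, hκ, hκ', -⟩ := H50.exists_irr_blk hb.blk
    have h1 := hd.2 κ ⟨hκ, hκ'⟩
    have h2 := hd'.2 κ ⟨hκ, hκ'⟩
    rw [h1] at h2
    exact_mod_cast h2
  -- the signs
  have hsign : ∀ u : G, ∃ ε : ℤ, (ε = 1 ∨ ε = -1) ∧ (Rg V γ u → ∀ b, Lc e V γ u b → ∀ d : ℕ,
      Dg M (fun t : Cu u => b t) d → ∀ χ ∈ IrrE M e,
      (gv M (Cu u) u b χ / d * ((Nat.card G * c : ℂ) /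
        (Nat.card (Subgroup.centralizer (V : Set G)) * χ 1))) ∈ RM M ∧
      rr M (gv M (Cu u) u b χ / d * ((Nat.card G * c : ℂ) /
        (Nat.card (Subgroup.centralizer (V : Set G)) * χ 1))) = ((ε * ix V γ : ℤ) : FF M)) := by
    intro u
    by_cases h : Rg V γ u ∧ ∃ b, Lc e V γ u b ∧ ∃ d : ℕ, Dg M (fun t : Cu u => b t) d
    · obtain ⟨hu, b, hb, d, hd⟩ := h
      obtain ⟨ε, hε, h2⟩ := cgr ℓ M hM G e V γ hL c hc u hu b hb d hd
      refine ⟨ε, hε, fun _ b' hb' d' hd' χ hχ => ?_⟩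
      have h3 : b' = b := (loc ℓ (FF M) hF G e V γ hL u hu.1).2 b' b hb' hb
      subst h3
      have h4 : d' = d := huniq u b' hb'.blk d' d hd' hd
      subst h4
      exact h2 χ hχ
    · refine ⟨1, Or.inl rfl, fun hu b hb d hd => ?_⟩
      exact absurd ⟨hu, b, hb, d, hd⟩ h
  choose ε hε hmain using hsign
  refine ⟨ε, hε, ?_⟩
  intro u u' hu hu' b b' hb hb' d d' hd hd' χ hχ z z' hz hz'
  obtain ⟨h1, h2⟩ := hmain u hu b hb d hd χ hχ
  obtain ⟨h3, h4⟩ := hmain u' hu' b' hb' d' hd' χ hχ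
  have hd0 : (d : ℂ) ≠ 0 := by
    exact_mod_cast hd.1.ne'
  have hd0' : (d' : ℂ) ≠ 0 := by
    exact_mod_cast hd'.1.ne'
  rw [hz, mul_div_cancel_left₀ _ hd0] at h1 h2
  rw [hz', mul_div_cancel_left₀ _ hd0'] at h3 h4
  obtain ⟨ρ, hρ⟩ : ∃ ρ : ℂ, ρ = (Nat.card G * c : ℂ) /
    (Nat.card (Subgroup.centralizer (V : Set G)) * χ 1) := ⟨_, rfl⟩
  rw [← hρ] at h1 h2 h3 h4
  -- compare the residues
  have h5 : rr M ((z : ℂ) * ρ * (z' : ℂ)) = rr M ((z' : ℂ) * ρ * (z : ℂ)) := by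
    congr 1
    ring
  rw [rr_mul h1 (rr_int z').1, rr_mul h3 (rr_int z).1, h2, h4, (rr_int z').2, (rr_int z).2] at h5
  have hix : ((ix V γ : ℕ) : FF M) ≠ 0 := by
    intro h0
    have h6 := H34.inx ℓ M hM G e hL.blk V hL.tp hL.ab γ hL.gam.supp hL.gam.blk hL.und
    apply h6
    have h7 : rr M (((ix V γ : ℕ) : ℤ) : ℂ) = 0 := by
      rw [(rr_int ((ix V γ : ℕ) : ℤ)).2]
      exact_mod_cast h0
    have h8 := (dvd_of_rr hℓ hM).1 h7
    exact_mod_cast h8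
  push_cast at h5
  have h6 : (ε u : FF M) * (z' : FF M) = (ε u' : FF M) * (z : FF M) := by
    apply mul_right_cancel₀ hix
    linear_combination h5
  have hs : ∀ w, (ε w : FF M) * (ε w : FF M) = 1 := by
    intro w
    rcases hε w with h | h <;> rw [h] <;> push_cast <;> ring
  have h7 : rr M ((ε u * z - ε u' * z' : ℤ) : ℂ) = 0 := by
    rw [(rr_int _).2]
    push_cast
    have h8 := hs u
    have h9 := hs u'
    linear_combination (-(ε u : FF M) * (ε u' : FF M)) * h6 + (ε u' : FF M) * (z' : FF M) * h8 -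
      (ε u : FF M) * (z : FF M) * h9
  exact (dvd_of_rr hℓ hM).1 h7

end Pool.Agent.PP.T3.H88
end
end -- Pool.Agent.Helper88_AT3.Cgz
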