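import Pool.Agent.Helper12_AWB.B210
import Pool.Agent.Helper12_AWB.B222
import Pool.Agent.Helper12_AWB.B268

/-!
# Merged copies (generated) of the modules

* `Pool.Agent.Helper15_ASD.LNH`
* `Pool.Agent.Helper86_ASD.LNJ`
* `Pool.Agent.Helper30_ASE.XWD`
* `Pool.Agent.Helper43_ASE.YYE2`
* `Pool.Agent.Helper49_ASE.LMB`
* `Pool.Agent.Helper60_ASE.S2F`
* `Pool.Agent.Helper92_ASE.FXS`
* `Pool.Agent.Helper86_ASE.CNT`
-/

set_option autoImplicit false

section -- Pool.Agent.Helper15_ASD.LNH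

/-!
# Squad ASD, row LNH: groups with a normal `ℓ`-subgroup
-/

namespace Pool.Agent.PP.SD.H15

open Pool.Agent.Helper51_AWC Pool.Agent.Helper79_WRA Pool.Agent.PP Pool.Agent.PP.KF
open Pool.Agent.PP.K9 Pool.Agent.PP.K9.H97 Pool.Agent.PP.H75 Pool.Agent.PP.T3 Pool.Agent.PP.SO

attribute [local instance] Ideal.Quotient.field

theorem lnh (hLnn : LnnStmt) (hChv : K9.ChvStmt) : LnhStmt := by
  intro ℓ hℓf M _ hM V₀ G _ _ _ _ E₀ hF B hB A hA hN
  have hℓ : ℓ.Prime := hℓf.out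
  have hV : IsPGroup ℓ V₀ := IsPGroup.of_card hF.cd
  -- the normal subgroup
  have hcore : opCore ℓ (⊤ : Subgroup G) ≠ ⊥ := by
    have hle : (A.map B.i).subgroupOf ⊤ ≤ opCore ℓ (⊤ : Subgroup G) := by
      refine le_sSup ⟨?_, ?_⟩
      · exact hN.subgroupOf ⊤
      · exact ((hV.to_subgroup A).map B.i).comap_subtype
    obtain ⟨⟨a, haA⟩, ha⟩ := Subgroup.ne_bot_iff_exists_ne_one.1 hA
    have ha1 : a ≠ 1 := fun h' => ha (Subtype.ext h')
    intro hbot
    have h1 : (⟨B.i a, Subgroup.mem_top _⟩ : (⊤ : Subgroup G)) ∈ opCore ℓ (⊤ : Subgroup G) :=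
      hle (Subgroup.mem_subgroupOf.2 (Subgroup.mem_map_of_mem B.i haA))
    rw [hbot, Subgroup.mem_bot] at h1
    have h2 : B.i a = 1 := congrArg Subtype.val h1
    exact ha1 (hB.inj (h2.trans (map_one B.i).symm))
  have h0 : YY ℓ (⊤ : Subgroup G) B.e = 0 :=
    H96.yzr ℓ (FF M) hℓ G ⊤ inferInstance hcore B.e
  have hcard : Nat.card B.i.range = ℓ ^ 2 := by
    rw [← hF.cd]
    exact Nat.card_congr (MonoidHom.ofInjective hB.inj).toEquiv.symm
  have h1 := hChv ℓ M hM G B.e hB.ld.blk B.i.range hB.ld.tp hcard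
  rw [h0] at h1
  have h2 := hLnn ℓ M hM V₀ G E₀ B hB
  rw [← h2]
  have hG : (Nat.card G : ℤ) ≠ 0 := by
    exact_mod_cast Nat.card_pos.ne'
  have h3 : (Nat.card G : ℤ) * (ln B.e : ℤ) = (Nat.card G : ℤ) *
      (ln (fun t : Subgroup.normalizer (B.i.range : Set G) => br B.i.range B.e t) : ℤ) := by
    unfold ln
    linarith
  exact_mod_cast mul_left_cancel₀ hG h3

end Pool.Agent.PP.SD.H15
end -- Pool.Agent.Helper15_ASD.LNH

section -- Pool.Agent.Helper86_ASD.LNJ

/-!
# Squad ASD, row LNJ: the inertial groups of a pair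
-/

open scoped BigOperators

set_option autoImplicit false

noncomputable section

namespace Pool.Agent.PP.SD.H86

open Pool.Agent.Helper51_AWC Pool.Agent.Helper79_WRA Pool.Agent.PP Pool.Agent.PP.KF
open Pool.Agent.PP.K9 Pool.Agent.PP.K9.H97 Pool.Agent.PP.H75 Pool.Agent.PP.T3 Pool.Agent.PP.SO
open Pool.Agent.PP.SD

attribute [local instance] Ideal.Quotient.field

/-- transport of the number of modular characters along an isomorphism -/
theorem lnj_ln {F X Y : Type} [Field F] [Group X] [Group Y] (e : X ≃* Y) (a : X → F) (b : Y → F)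
    (hab : ∀ x, a x = b (e x)) : ln a = ln b := by
  symm
  unfold ln
  have hact : ∀ f : Y → F, ∀ x : X, actF a (fun t : X => f (e t)) x = actF b f (e x) := by
    intro f x
    unfold actF
    rw [← finsum_comp_equiv e.toEquiv]
    apply finsum_congr
    intro s
    change a s * f (e (s * x)) = b (e s) * f (e s * e x)
    rw [hab, map_mul]
  refine Set.ncard_congr (fun f _ => fun t : X => f (e t)) ?_ ?_ ?_
  · rintro f ⟨h1, h2⟩
    refine ⟨(H20.IBr_equiv e).2 h1, ?_⟩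
    funext t
    rw [hact, h2]
  · intro f f' _ _ he
    funext y
    have h1 := congrFun he (e.symm y)
    simp only [MulEquiv.apply_symm_apply] at h1
    exact h1
  · rintro f ⟨h1, h2⟩
    have e1 : (fun t : X => (fun y : Y => f (e.symm y)) (e t)) = f := by
      funext t
      change f (e.symm (e t)) = f t
      rw [e.symm_apply_apply]
    refine ⟨fun y => f (e.symm y), ⟨?_, ?_⟩, e1⟩
    · rw [← H20.IBr_equiv e, e1]
      exact h1
    · funext y
      have h3 := hact (fun y : Y => f (e.symm y)) (e.symm y)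
      rw [e1, h2, e.apply_symm_apply] at h3
      exact h3.symm

/-- an element acting on the image as an automorphism normalises the image -/
theorem lnj_nor {V₀ G : Type} [CommGroup V₀] [Group G] (i : V₀ →* G) (σ : MulAut V₀) (t : G)
    (h : ∀ v, t * i v * t⁻¹ = i (σ v)) : t ∈ Subgroup.normalizer (i.range : Set G) := by
  rw [Subgroup.mem_normalizer_iff]
  intro x
  constructor
  · rintro ⟨v, rfl⟩
    exact ⟨σ v, (h v).symm⟩
  · rintro ⟨w, hw⟩
    refine ⟨σ⁻¹ w, ?_⟩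
    have h1 := h (σ⁻¹ w)
    have h2 : σ (σ⁻¹ w) = w := MulAut.apply_inv_self V₀ σ w
    rw [h2, hw] at h1
    exact mul_left_cancel (mul_right_cancel h1)

theorem lnj : LnjStmt := by
  intro ℓ _ M _ hM V₀ G H _ _ _ _ _ _ E₀ A B B' j hB hB' hP
  -- the centraliser of `V` is in the image of `j`
  have hcent : ∀ x, x ∈ Subgroup.centralizer (B.i.range : Set G) → ∃ h, j h = x := by
    intro x hx
    apply hP.cen x
    unfold Bk.C
    rw [Subgroup.mem_centralizer_iff] at hx ⊢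
    rintro y ⟨v, -, rfl⟩
    exact hx _ ⟨v, rfl⟩
  have hgsupp : ∀ x, x ∉ Set.range j → B.g x = 0 := by
    intro x hx
    apply hB.ld.gam.supp
    intro h
    exact hx (hcent x h)
  have hfwd : ∀ t ∈ Tg B'.i.range B'.g, j t ∈ Tg B.i.range B.g := by
    intro t ht
    obtain ⟨σ, -, hσ⟩ := hB'.act t ht
    refine ⟨lnj_nor B.i σ (j t) fun v => ?_, fun x => ?_⟩
    · rw [← hP.i, ← hP.i, ← map_mul, ← map_inv, ← map_mul, hσ]
    · by_cases hx : x ∈ Set.range j
      · obtain ⟨h, rfl⟩ := hx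
        rw [← map_mul, ← map_inv, ← map_mul, ← hP.g, ← hP.g]
        exact ht.2 h
      · rw [hgsupp x hx, hgsupp]
        rintro ⟨h, hh⟩
        apply hx
        refine ⟨t⁻¹ * h * t, ?_⟩
        rw [map_mul, map_mul, map_inv, hh]
        group
  have hbwd : ∀ t ∈ Tg B.i.range B.g, ∃ t' ∈ Tg B'.i.range B'.g, j t' = t := by
    intro t ht
    obtain ⟨σ, hσE, hσ⟩ := hB.act t ht
    obtain ⟨t₀, ht₀, hσ₀⟩ := hB'.sur σ hσE
    have hc : (j t₀)⁻¹ * t ∈ Subgroup.centralizer (B.i.range : Set G) := by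
      rw [Subgroup.mem_centralizer_iff]
      rintro y ⟨v, rfl⟩
      have h1 : j t₀ * B.i v * (j t₀)⁻¹ = t * B.i v * t⁻¹ := by
        rw [hσ, ← hP.i, ← hP.i, ← map_mul, ← map_inv, ← map_mul, hσ₀]
      have h2 : t * B.i v = j t₀ * B.i v * (j t₀)⁻¹ * t := by
        rw [h1]
        group
      rw [mul_assoc (j t₀)⁻¹, h2]
      group
    obtain ⟨h, hh⟩ := hcent _ hc
    have hj : j (t₀ * h) = t := by
      rw [map_mul, hh]
      group
    refine ⟨t₀ * h, ⟨lnj_nor B'.i σ _ fun v => ?_, fun x => ?_⟩, hj⟩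
    · apply hP.inj
      rw [map_mul, map_mul, map_inv, hj, hP.i, hP.i, hσ]
    · rw [hP.g, hP.g, map_mul, map_mul, map_inv, hj]
      exact ht.2 _
  let f : Tg B'.i.range B'.g →* Tg B.i.range B.g :=
    { toFun := fun t => ⟨j (t : H), hfwd t t.2⟩
      map_one' := Subtype.ext (map_one j)
      map_mul' := fun a b => Subtype.ext (map_mul j (a : H) (b : H)) }
  have hf : Function.Bijective f := by
    constructor
    · intro a b hab
      exact Subtype.ext (hP.inj (congrArg Subtype.val hab))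
    · rintro ⟨t, ht⟩
      obtain ⟨t', ht', hj⟩ := hbwd t ht
      exact ⟨⟨t', ht'⟩, Subtype.ext hj⟩
  unfold lT
  refine lnj_ln (MulEquiv.ofBijective f hf) _ _ fun x => ?_
  exact hP.g x

end Pool.Agent.PP.SD.H86
end
end -- Pool.Agent.Helper86_ASD.LNJ

section -- Pool.Agent.Helper30_ASE.XWD

/-!
# Squad ASE, row XWD: the block `b W` of the group `T_(E₁) C(W)`
-/

open scoped BigOperators

set_option autoImplicit false
set_option linter.unusedSectionVars false

noncomputable section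

namespace Pool.Agent.PP.SE.H30

open Pool.Agent.Helper51_AWC Pool.Agent.Helper79_WRA Pool.Agent.PP Pool.Agent.PP.KF
open Pool.Agent.PP.K9 Pool.Agent.PP.K9.H97 Pool.Agent.PP.H75 Pool.Agent.PP.T3 Pool.Agent.PP.SO
open Pool.Agent.PP.SD
open Pool.Agent.PP.SD.H89 (bx_up ld_iso)
open Pool.Agent.PP.SO.H82 (conj_of_mem)

attribute [local instance] Ideal.Quotient.field

section grp

variable {F V₀ G : Type} [CommGroup V₀] [Group G]

/-- the elements of the product of two subgroups -/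
theorem sup_dec {X C : Subgroup G} (h : ∀ t ∈ X, ∀ c ∈ C, t * c * t⁻¹ ∈ C) {x : G}
    (hx : x ∈ X ⊔ C) : ∃ t ∈ X, t⁻¹ * x ∈ C := by
  let Y : Subgroup G :=
    { carrier := {x | ∃ t ∈ X, t⁻¹ * x ∈ C}
      one_mem' := ⟨1, X.one_mem, by rw [inv_one, one_mul]; exact C.one_mem⟩
      mul_mem' := by
        rintro a b ⟨t, ht, h1⟩ ⟨u, hu, h2⟩
        refine ⟨t * u, X.mul_mem ht hu, ?_⟩
        have e : (t * u)⁻¹ * (a * b) = (u⁻¹ * (t⁻¹ * a) * u⁻¹⁻¹) * (u⁻¹ * b) := by group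
        rw [e]
        exact C.mul_mem (h _ (X.inv_mem hu) _ h1) h2
      inv_mem' := by
        rintro a ⟨t, ht, h1⟩
        refine ⟨t⁻¹, X.inv_mem ht, ?_⟩
        have e : t⁻¹⁻¹ * a⁻¹ = t * (t⁻¹ * a)⁻¹ * t⁻¹ := by group
        rw [e]
        exact h _ ht _ (C.inv_mem h1) }
  have hle : X ⊔ C ≤ Y := sup_le
    (fun t ht => ⟨t, ht, by rw [inv_mul_cancel]; exact C.one_mem⟩)
    (fun c hc => ⟨1, X.one_mem, by rw [inv_one, one_mul]; exact hc⟩)
  exact hle hx

variable {E₁ : Subgroup (MulAut V₀)} {W : Subgroup V₀}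

omit [Group G] in
theorem map_W (hinv : ∀ σ ∈ E₁, ∀ w ∈ W, σ w ∈ W) {σ : MulAut V₀} (hσ : σ ∈ E₁) :
    W.map σ.toMonoidHom = W := by
  apply le_antisymm
  · rintro _ ⟨w, hw, rfl⟩
    exact hinv σ hσ w hw
  · intro w hw
    exact ⟨σ⁻¹ w, hinv σ⁻¹ (E₁.inv_mem hσ) w hw, MulAut.apply_inv_self V₀ σ w⟩

variable {B : Bk F V₀ G}

theorem c_nor {c : G} (hc : c ∈ B.C W) :
    c ∈ Subgroup.normalizer ((W.map B.i : Subgroup G) : Set G) := by
  rw [Subgroup.mem_normalizer_iff]
  intro x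
  constructor
  · rintro ⟨w, hw, rfl⟩
    exact ⟨w, hw, (conj_of_mem B hc hw).symm⟩
  · rintro ⟨w, hw, hx⟩
    refine ⟨w, hw, ?_⟩
    have h2 : x = c⁻¹ * (c * x * c⁻¹) * c := by group
    rw [h2, ← hx]
    have h3 := conj_of_mem B ((B.C W).inv_mem hc) hw
    rw [inv_inv] at h3
    exact h3.symm

end grp

section te

variable {V₀ G : Type} [CommGroup V₀] [Group G] {M : Ideal (integralClosure ℤ ℂ)} [M.IsMaximal]
  {E₁ : Subgroup (MulAut V₀)} {W : Subgroup V₀} {B : Bk (FF M) V₀ G}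

theorem te_nor (hinv : ∀ σ ∈ E₁, ∀ w ∈ W, σ w ∈ W) {t : G} (ht : t ∈ TE B E₁) :
    t ∈ Subgroup.normalizer ((W.map B.i : Subgroup G) : Set G) := by
  obtain ⟨-, σ, hσ, h⟩ := ht
  rw [Subgroup.mem_normalizer_iff]
  intro x
  constructor
  · rintro ⟨w, hw, rfl⟩
    exact ⟨σ w, hinv σ hσ w hw, (h w).symm⟩
  · rintro ⟨w, hw, hx⟩
    refine ⟨σ⁻¹ w, hinv σ⁻¹ (E₁.inv_mem hσ) w hw, ?_⟩
    have h1 := h (σ⁻¹ w)
    rw [MulAut.apply_inv_self] at h1
    have h2 : B.i (σ⁻¹ w) = t⁻¹ * (t * B.i (σ⁻¹ w) * t⁻¹) * t := by group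
    rw [h2, h1, hx]
    group

end te

/-- XWD -/
theorem xwd (syd : SydStmt) (cjd : CjdStmt) : XwdStmt := by
  intro ℓ _ M _ hM hℓ2 V₀ G H _ _ _ _ _ _ E₀ hFq B hB W hW0 E₁ hE hSt hinv j hj hr
  have hF : GoodF ℓ (FF M) := H50.fld ℓ Fact.out M hM
  have hFq1 : Fq ℓ V₀ E₁ := ⟨hFq.ex, hFq.cd, fun h => hFq.cp (h.trans (Subgroup.card_dvd_of_le hE))⟩
  refine ⟨hFq1, ?_⟩
  have hL := hB.ld
  have hlb := hB.lb W
  -- the group `X`
  have hTC : ∀ t ∈ TE B E₁, ∀ c, t * c * t⁻¹ ∈ B.C W ↔ c ∈ B.C W := by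
    rintro t ⟨htT, σ, hσ, ht⟩ c
    have h1 := (cjd ℓ M hM hℓ2 V₀ G E₀ hFq B hB σ (hE hσ) t htT ht W).2.1 c
    rw [map_W hinv hσ] at h1
    exact h1
  have hTb : ∀ t ∈ TE B E₁, t ∈ stabF (B.b W) := by
    rintro t ⟨htT, σ, hσ, ht⟩
    have h1 := (cjd ℓ M hM hℓ2 V₀ G E₀ hFq B hB σ (hE hσ) t htT ht W).1
    rw [map_W hinv hσ] at h1
    exact (cj_eq_iff t _).1 h1
  have hcT : ∀ c ∈ Tg B.i.range B.g, c ∈ B.C W → c ∈ TE B E₁ := by
    intro c hcT hcW
    obtain ⟨σ, hσ, h⟩ := hB.act c hcT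
    refine ⟨hcT, σ, hSt ⟨hσ, fun w hw => ?_⟩, h⟩
    apply hB.inj
    rw [← h w]
    exact conj_of_mem B hcW hw
  obtain ⟨X, hXdef⟩ : ∃ X, X = j.range := ⟨_, rfl⟩
  rw [← hXdef] at hr
  have hTX' : TE B E₁ ≤ X := by
    rw [hr]
    exact le_sup_left
  have hCAX : B.C W ≤ X := by
    rw [hr]
    exact le_sup_right
  have hTint : ∀ x ∈ X, x ∈ Tg B.i.range B.g → x ∈ TE B E₁ := by
    intro x hx hxT
    rw [hr] at hx
    obtain ⟨t, ht, h1⟩ := sup_dec (fun t ht c hc => (hTC t ht c).2 hc) hx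
    have h2 : t⁻¹ * x ∈ TE B E₁ :=
      hcT _ (Subgroup.mul_mem _ (Subgroup.inv_mem _ ht.1) hxT) h1
    have h3 := (TE B E₁).mul_mem ht h2
    rw [mul_inv_cancel_left] at h3
    exact h3
  have hVX : B.i.range ≤ X := by
    rintro _ ⟨v, rfl⟩
    exact hCAX (SD.H49.i_mem B W v)
  -- the isomorphism
  obtain ⟨φ, hφ⟩ : ∃ φ : H ≃* X, ∀ h, ((φ h : X) : G) = j h := by
    subst hXdef
    exact ⟨MonoidHom.ofInjective hj, fun h => rfl⟩
  have hXN : X ≤ Subgroup.normalizer ((W.map B.i : Subgroup G) : Set G) := by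
    rw [hr]
    exact sup_le (fun t ht => te_nor hinv ht) (fun c hc => c_nor hc)
  have hXst : X ≤ stabF (B.b W) := by
    rw [hr]
    exact sup_le hTb (fun c hc => (cj_eq_iff c _).1 (hlb.blk.ix.inv hc))
  have hUV : W.map B.i ≤ B.i.range := by
    rintro _ ⟨v, _, rfl⟩
    exact ⟨v, rfl⟩
  have hUp : IsPGroup ℓ (W.map B.i : Subgroup G) := hL.tp.pg.to_le hUV
  have hCX : Subgroup.centralizer (B.i.range : Set G) ≤ X := by
    refine le_trans (Subgroup.centralizer_le ?_) hCAX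
    rintro _ ⟨w, _, rfl⟩
    exact ⟨w, rfl⟩
  -- the block of `X`
  have hbX : Bx X (B.b W) := bx_up hF hUp (hUV.trans hVX) hCAX hXN hlb.blk hXst
  have hE' : Ix X (br (W.map B.i : Subgroup G) B.e) := by
    refine ⟨fun x hx => H66.br_of_not_mem (fun h => hx (hCAX h)), ?_⟩
    exact (H20.brm ℓ (FF M) hF G (W.map B.i : Subgroup G) X hUp hCAX hXN).2.2 B.e hL.blk.1
  have hund : mulF (br (W.map B.i : Subgroup G) B.e) (B.b W) = B.b W := by
    have hs : ∀ x, x ∉ B.C W → br (W.map B.i : Subgroup G) B.e x = 0 := fun x hx =>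
      H66.br_of_not_mem hx
    apply eq_of_res (mulF_supp (B.C W) hs hlb.blk.supp) hlb.blk.supp
    rw [mulF_res (B.C W) _ hs]
    have h1 : (fun t : B.C W => br (W.map B.i : Subgroup G) B.e t) = fun t : B.C W => B.e t := by
      funext t
      exact H66.br_of_mem t.2
    rw [h1]
    exact hlb.und
  have hVcard : Nat.card (B.i.range.subgroupOf X) = Nat.card B.i.range :=
    Nat.card_congr (Subgroup.subgroupOfEquivOfLe hVX).toEquiv
  have hVp : IsPGroup ℓ (B.i.range.subgroupOf X) :=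
    hL.tp.pg.of_equiv (Subgroup.subgroupOfEquivOfLe hVX).symm
  have hTf : Tp ℓ (fun t : X => B.b W t) (B.i.range.subgroupOf X) := by
    refine ⟨hVp, T3.H85.gd_of_gam hVX hCX hL.gam hlb.gam, ?_⟩
    intro Q hQ hQf
    have hmul : mulF (fun t : X => br (W.map B.i : Subgroup G) B.e t) (fun t : X => B.b W t) =
        fun t : X => B.b W t := by
      rw [← mulF_res X _ hE'.supp, hund]
    have h1 := gd_map (gd_of_mul hF hE'.idem.1 hbX.blk.1.1 hmul hQ hQf)
    have h1' : Gd B.e (Q.map X.subtype) := by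
      obtain ⟨g, hg1, hg2⟩ := h1
      refine ⟨g, hg1, ?_⟩
      intro h0
      apply hg2
      by_cases hg : g ∈ Subgroup.centralizer ((W.map B.i : Subgroup G) : Set G)
      · rw [H66.br_of_mem hg, h0]
      · rw [H66.br_of_not_mem hg]
    have hcard : Nat.card (Q.map X.subtype) = Nat.card Q :=
      (Nat.card_congr (Q.equivMapOfInjective X.subtype X.subtype_injective).toEquiv).symm
    have h2 := hL.tp.mx _ (hQ.map X.subtype) h1'
    rw [hcard] at h2
    rw [hVcard]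
    exact h2
  have hLX : Ld ℓ (fun t : X => B.b W t) (B.i.range.subgroupOf X) (fun t : X => B.g t) :=
    T3.H85.ld_of hVX hCX hL.ab hbX.blk hL.gam hlb.gam hTf
  -- the embedding of the defect group
  let i' : V₀ →* H := (φ.symm : X →* H).comp (B.i.codRestrict X (fun v => hVX ⟨v, rfl⟩))
  have hi' : ∀ v, j (i' v) = B.i v := by
    intro v
    rw [← hφ]
    change ((φ (φ.symm (B.i.codRestrict X (fun v => hVX ⟨v, rfl⟩) v)) : X) : G) = B.i v
    rw [φ.apply_symm_apply]
    rfl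
  have hi'inj : Function.Injective i' := by
    intro v w h
    apply hB.inj
    rw [← hi', ← hi', h]
  have hVi : ∀ a, a ∈ i'.range ↔ φ a ∈ B.i.range.subgroupOf X := by
    intro a
    rw [Subgroup.mem_subgroupOf, hφ]
    constructor
    · rintro ⟨v, rfl⟩
      exact ⟨v, (hi' v).symm⟩
    · rintro ⟨v, hv⟩
      refine ⟨v, hj ?_⟩
      rw [hi', hv]
  have hVi2 : ∀ a, a ∈ i'.range ↔ j a ∈ B.i.range := by
    intro a
    rw [hVi, Subgroup.mem_subgroupOf, hφ]
  have hLH : Ld ℓ (fun h => B.b W (j h)) i'.range (fun h => B.g (j h)) := by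
    have h1 := ld_iso φ hVi hLX
    have h2 : (fun a => B.b W ((φ a : X) : G)) = fun h => B.b W (j h) := by
      funext a
      rw [hφ]
    have h3 : (fun a => B.g ((φ a : X) : G)) = fun h => B.g (j h) := by
      funext a
      rw [hφ]
    rw [h2, h3] at h1
    exact h1
  have hXr : ∀ x ∈ X, ∃ h, j h = x := by
    intro x hx
    refine ⟨φ.symm ⟨x, hx⟩, ?_⟩
    rw [← hφ, φ.apply_symm_apply]
  have hjX : ∀ h, j h ∈ X := by
    intro h
    rw [hXdef]
    exact ⟨h, rfl⟩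
  -- the inertial group
  have hTg : ∀ h, j h ∈ Tg B.i.range B.g ↔ h ∈ Tg i'.range (fun h => B.g (j h)) := by
    intro h
    have h1 : h ∈ Subgroup.normalizer (i'.range : Set H) ↔
        j h ∈ Subgroup.normalizer (B.i.range : Set G) := by
      rw [Subgroup.mem_normalizer_iff, Subgroup.mem_normalizer_iff]
      constructor
      · intro hn x
        constructor
        · intro hx
          obtain ⟨a, rfl⟩ := hXr x (hVX hx)
          have h2 := (hn a).1 ((hVi2 a).2 hx)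
          rw [hVi2, map_mul, map_mul, map_inv] at h2
          exact h2
        · intro hx
          obtain ⟨a, ha⟩ := hXr _ (hVX hx)
          have h2 : x = j (h⁻¹ * a * h) := by
            rw [map_mul, map_mul, map_inv, ha]
            group
          rw [h2, ← hVi2]
          apply (hn _).2
          rw [hVi2, map_mul, map_mul, map_mul, map_mul, map_inv, ha]
          have h3 : j h * ((j h)⁻¹ * (j h * x * (j h)⁻¹) * j h) * (j h)⁻¹ =
              j h * x * (j h)⁻¹ := by group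
          rw [h3]
          exact hx
      · intro hn a
        rw [hVi2, hVi2, map_mul, map_mul, map_inv]
        exact hn (j a)
    have h2 : h ∈ stabF (fun h => B.g (j h)) ↔ j h ∈ stabF B.g := by
      constructor
      · intro hs x
        by_cases hx : x ∈ X
        · obtain ⟨a, rfl⟩ := hXr x hx
          have h3 := hs a
          change B.g (j (h * a * h⁻¹)) = B.g (j a) at h3
          rw [map_mul, map_mul, map_inv] at h3
          exact h3
        · have h4 : j h ∈ X := hjX h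
          rw [hL.gam.supp x (fun h' => hx (hCX h')), hL.gam.supp]
          intro h'
          apply hx
          have h3 := X.mul_mem (X.mul_mem (X.inv_mem h4) (hCX h')) h4
          have e : (j h)⁻¹ * (j h * x * (j h)⁻¹) * j h = x := by group
          rwa [e] at h3
      · intro hs a
        change B.g (j (h * a * h⁻¹)) = B.g (j a)
        rw [map_mul, map_mul, map_inv]
        exact hs (j a)
    constructor
    · rintro ⟨ha, hb⟩
      exact ⟨h1.2 ha, h2.2 hb⟩
    · rintro ⟨ha, hb⟩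
      exact ⟨h1.1 ha, h2.1 hb⟩
  have hact : ∀ t ∈ Tg i'.range (fun h => B.g (j h)), ∃ σ ∈ E₁, ∀ v, t * i' v * t⁻¹ = i' (σ v) := by
    intro t ht
    obtain ⟨-, σ, hσ, h1⟩ := hTint (j t) (hjX t) ((hTg t).2 ht)
    refine ⟨σ, hσ, fun v => hj ?_⟩
    rw [map_mul, map_mul, map_inv, hi', hi']
    exact h1 v
  have hsur : ∀ σ ∈ E₁, ∃ t ∈ Tg i'.range (fun h => B.g (j h)), ∀ v,
      t * i' v * t⁻¹ = i' (σ v) := by
    intro σ hσ
    obtain ⟨t, ht, h1⟩ := hB.sur σ (hE hσ)
    obtain ⟨h, rfl⟩ := hXr t (hTX' ⟨ht, σ, hσ, h1⟩)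
    refine ⟨h, (hTg h).1 ht, fun v => hj ?_⟩
    rw [map_mul, map_mul, map_inv, hi', hi']
    exact h1 v
  obtain ⟨B', he, hg, hi, hSd⟩ := syd ℓ M hM V₀ H E₁ hFq1 (fun h => B.b W (j h))
    (fun h => B.g (j h)) i' hi'inj hLH hact hsur
  have hi2 : ∀ v, j (B'.i v) = B.i v := by
    rw [hi]
    exact hi'
  have hTE : ∀ E₂ : Subgroup (MulAut V₀), ∀ h, j h ∈ TE B E₂ ↔ h ∈ TE B' E₂ := by
    intro E₂ h
    have h1 : h ∈ Tg B'.i.range B'.g ↔ j h ∈ Tg B.i.range B.g := by
      rw [hg, hi]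
      exact (hTg h).symm
    constructor
    · rintro ⟨ha, σ, hσ, hb⟩
      refine ⟨h1.2 ha, σ, hσ, fun v => hj ?_⟩
      rw [map_mul, map_mul, map_inv, hi2, hi2]
      exact hb v
    · rintro ⟨ha, σ, hσ, hb⟩
      refine ⟨h1.1 ha, σ, hσ, fun v => ?_⟩
      have h2 := congrArg j (hb v)
      rw [map_mul, map_mul, map_inv, hi2, hi2] at h2
      exact h2
  refine ⟨B', hSd, ⟨hj, hi2, fun x hx => hXr x (hCAX hx), fun h => by rw [hg], ?_⟩,
    fun h => by rw [he], ?_, hTE E₁, ?_⟩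
  · -- the local blocks
    intro W' hAW h
    have hb' := hSd.lb W'
    have hlbG := hB.lb W'
    have hCWA : B.C W' ≤ B.C W := by
      refine Subgroup.centralizer_le ?_
      rintro _ ⟨w, hw, rfl⟩
      exact ⟨w, hAW hw, rfl⟩
    have hCWX : B.C W' ≤ X := hCWA.trans hCAX
    have hmem : ∀ a, a ∈ Subgroup.centralizer ((W'.map B'.i : Subgroup H) : Set H) ↔
        j a ∈ B.C W' := by
      intro a
      rw [SD.H49.mem_C, Subgroup.mem_centralizer_iff]
      constructor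
      · intro h1 w hw
        have h2 := congrArg j (h1 (B'.i w) ⟨w, hw, rfl⟩)
        rw [map_mul, map_mul, hi2] at h2
        exact h2
      · rintro h1 _ ⟨w, hw, rfl⟩
        apply hj
        rw [map_mul, map_mul, hi2]
        exact h1 w hw
    obtain ⟨β, hβdef⟩ : ∃ β, β = H75.ext0 X (fun t : X => B'.b W' (φ.symm t)) := ⟨_, rfl⟩
    have hβX : ∀ x, x ∉ X → β x = 0 := by
      rw [hβdef]
      exact ext0_supp X _
    have hβt : ∀ t : X, β t = B'.b W' (φ.symm t) := by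
      intro t
      rw [hβdef]
      exact ext0_apply X _ t
    have hβj : ∀ a, β (j a) = B'.b W' a := by
      intro a
      have h1 := hβt (φ a)
      rw [φ.symm_apply_apply, hφ] at h1
      exact h1
    have hbx : Bx (B.C W') β := by
      constructor
      · intro x hx
        by_cases hxX : x ∈ X
        · obtain ⟨a, rfl⟩ := hXr x hxX
          rw [hβj]
          apply hb'.blk.supp
          intro h'
          exact hx ((hmem a).1 h')
        · exact hβX x hxX
      · -- the centraliser in `X`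
        have h1 : ∀ t : X, φ.symm t ∈ Subgroup.centralizer ((W'.map B'.i : Subgroup H) : Set H) ↔
            (t : G) ∈ B.C W' := by
          intro t
          rw [hmem, ← hφ, φ.apply_symm_apply]
        let ψ : B.C W' ≃* Subgroup.centralizer ((W'.map B'.i : Subgroup H) : Set H) :=
          { toFun := fun t => ⟨φ.symm ⟨t, hCWX t.2⟩, (h1 _).2 t.2⟩
            invFun := fun t => ⟨((φ (t : H) : X) : G), by rw [hφ]; exact (hmem t).1 t.2⟩
            left_inv := fun t => Subtype.ext (by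
              change ((φ (φ.symm ⟨t, hCWX t.2⟩) : X) : G) = t
              rw [φ.apply_symm_apply])
            right_inv := fun t => Subtype.ext (by
              change φ.symm ⟨((φ (t : H) : X) : G), _⟩ = (t : H)
              exact φ.symm_apply_apply (t : H))
            map_mul' := fun a b => Subtype.ext (by
              change φ.symm ⟨((a * b : B.C W') : G), _⟩ =
                φ.symm ⟨(a : G), _⟩ * φ.symm ⟨(b : G), _⟩
              rw [← map_mul]
              rfl) }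
        have h2 : (fun t : B.C W' => β t) = fun t : B.C W' => B'.b W' (ψ t) := by
          funext t
          exact hβt ⟨t, hCWX t.2⟩
        rw [h2]
        exact H20.IsBlk_equiv ψ hb'.blk.blk
    have hgam : mulF (br B.i.range β) B.g = B.g := by
      have hs : ∀ x, x ∉ X → br B.i.range β x = 0 := fun x hx =>
        H66.br_of_not_mem (fun h' => hx (hCX h'))
      have hgs : ∀ x, x ∉ X → B.g x = 0 := fun x hx => hL.gam.supp x (fun h' => hx (hCX h'))
      apply eq_of_res (mulF_supp X hs hgs) hgs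
      rw [mulF_res X _ hs]
      have h0 := hb'.gam
      have hcen : ∀ a, a ∈ Subgroup.centralizer (B'.i.range : Set H) ↔
          j a ∈ Subgroup.centralizer (B.i.range : Set G) := by
        intro a
        rw [Subgroup.mem_centralizer_iff, Subgroup.mem_centralizer_iff]
        constructor
        · rintro h1 _ ⟨v, rfl⟩
          have h2 := congrArg j (h1 (B'.i v) ⟨v, rfl⟩)
          rw [map_mul, map_mul, hi2] at h2
          exact h2
        · rintro h1 _ ⟨v, rfl⟩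
          apply hj
          rw [map_mul, map_mul, hi2]
          exact h1 _ ⟨v, rfl⟩
      have h1 : (fun t : X => br B.i.range β t) =
          fun t : X => br B'.i.range (B'.b W') (φ.symm t) := by
        funext t
        have ht : (t : G) = j (φ.symm t) := by rw [← hφ, φ.apply_symm_apply]
        by_cases htc : (t : G) ∈ Subgroup.centralizer (B.i.range : Set G)
        · have htc' : φ.symm t ∈ Subgroup.centralizer (B'.i.range : Set H) := by
            rw [hcen, ← ht]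
            exact htc
          rw [H66.br_of_mem htc, H66.br_of_mem htc', hβt]
        · have htc' : φ.symm t ∉ Subgroup.centralizer (B'.i.range : Set H) := by
            rw [hcen, ← ht]
            exact htc
          rw [H66.br_of_not_mem htc, H66.br_of_not_mem htc']
      have h2 : (fun t : X => B.g t) = fun t : X => B'.g (φ.symm t) := by
        funext t
        rw [hg]
        change B.g t = B.g (j (φ.symm t))
        rw [← hφ, φ.apply_symm_apply]
      rw [h1, h2, H20.mulF_equiv φ.symm, h0]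
    have hVle : B.i.range ≤ B.C W' := by
      rintro _ ⟨v, rfl⟩
      exact SD.H49.i_mem B _ v
    have hfin : β = B.b W' :=
      SD.H49.uniq1 hF hL.tp.pg hVle hL.gam.ne hbx hlbG.blk hgam hlbG.gam
    rw [← hfin, hβj]
  · -- `W` is normal
    refine ⟨?_⟩
    rintro _ ⟨v, hv, rfl⟩ h
    have h1 := (Subgroup.mem_normalizer_iff.1 (hXN (hjX h)) (B.i v)).1 ⟨v, hv, rfl⟩
    obtain ⟨w, hw, hw2⟩ := h1
    refine ⟨w, hw, hj ?_⟩
    rw [map_mul, map_mul, map_inv, hi2, hi2]
    exact hw2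
  · -- the numbers of modular characters
    intro E₂ hE2
    have hsub : TE B E₂ ≤ X := by
      rintro t ⟨ha, σ, hσ, hb⟩
      exact hTX' ⟨ha, σ, hE2 hσ, hb⟩
    let e0 : TE B' E₂ →* TE B E₂ :=
      (j.comp (TE B' E₂).subtype).codRestrict (TE B E₂) (fun t => (hTE E₂ t).2 t.2)
    have he0 : ∀ t : TE B' E₂, ((e0 t : TE B E₂) : G) = j t := fun t => rfl
    have hbij : Function.Bijective e0 := by
      constructor
      · intro a b hab
        apply Subtype.ext
        apply hj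
        rw [← he0, ← he0, hab]
      · rintro ⟨x, hx⟩
        obtain ⟨h, rfl⟩ := hXr x (hsub hx)
        exact ⟨⟨h, (hTE E₂ h).1 hx⟩, Subtype.ext rfl⟩
    unfold Lam
    refine SD.H86.lnj_ln (MulEquiv.ofBijective e0 hbij) _ _ fun x => ?_
    rw [hg]
    rfl

end Pool.Agent.PP.SE.H30
end
end -- Pool.Agent.Helper30_ASE.XWD

section -- Pool.Agent.Helper43_ASE.YYE2

/-!
# Squad ASE, row YYE: the theorem for the datum of a block, from `KaeStmt`

The proof is helper35's (`Helper35_ASE/YYE.lean`, from `KceStmt`), with the first part replaced.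
-/

open scoped BigOperators

noncomputable section

namespace Pool.Agent.PP.SE.H43Y

open Pool.Agent.Helper51_AWC Pool.Agent.Helper79_WRA Pool.Agent.PP Pool.Agent.PP.KF
open Pool.Agent.PP.K9 Pool.Agent.PP.K9.H97 Pool.Agent.PP.H75 Pool.Agent.PP.T3 Pool.Agent.PP.SO
open Pool.Agent.PP.SD Pool.Agent.PP.SE

attribute [local instance] Ideal.Quotient.field

/-- Row YYE. -/
theorem yye2 (kae : KaeStmt) (lme : LmeStmt) (lmb : LmbStmt) (kl : K9.KlStmt) (lbd : K9.LbdStmt)
    (chv : K9.ChvStmt) (nvt : T3.NvtStmt) : YyeStmt := by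
  intro ℓ hℓ M _ hM h5 V₀ G _ _ _ _ E₀ hFq B hSd
  have hl2 : ℓ ≠ 2 := by omega
  have hSb : Sb ℓ M E₀ B := hSd.toSb
  have hL : Ld ℓ B.e B.i.range B.g := hSb.ld
  have hdv := kae ℓ M hM h5 V₀ G E₀ hFq B hSd
  obtain ⟨-, h0, -⟩ := lme ℓ M hM hl2 V₀ G E₀ hFq B hSb
  obtain ⟨-, -, h3, -, -⟩ := lmb ℓ M hM hl2 V₀ G E₀ hFq B hSb
  rw [← h0] at hdv
  have hcd : Nat.card B.i.range = ℓ ^ 2 := by
    rw [← hFq.cd]
    exact (Nat.card_congr (MonoidHom.ofInjective hSb.inj).toEquiv).symm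
  have hVX : B.i.range ≤ Subgroup.normalizer (B.i.range : Set G) := Subgroup.le_normalizer
  obtain ⟨hLN, -⟩ := nvt ℓ M hM G B.e B.i.range B.g hL
  have hcdN : Nat.card (B.i.range.subgroupOf (Subgroup.normalizer (B.i.range : Set G))) =
      ℓ ^ 2 := by
    rw [← hcd]
    exact Nat.card_congr (Subgroup.subgroupOfEquivOfLe hVX).toEquiv
  have hc1 := lbd ℓ M hM G B.e hL.blk.1 hL.blk.2.1
  have hc2 := lbd ℓ M hM _ _ hLN.blk.1 hLN.blk.2.1
  have hk1 := kl ℓ M hM G B.e hL.blk B.i.range hL.tp hcd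
  have hk2 := kl ℓ M hM _ _ hLN.blk _ hLN.tp hcdN
  have hchv := chv ℓ M hM G B.e hL.blk B.i.range hL.tp hcd
  change 1 ≤ ln B.e ∧ ln B.e ≤ _ at hc1
  change 1 ≤ ln (fun t : Subgroup.normalizer (B.i.range : Set G) => br B.i.range B.e t) ∧
    ln (fun t : Subgroup.normalizer (B.i.range : Set G) => br B.i.range B.e t) ≤ _ at hc2
  change YY ℓ ⊤ B.e = (Nat.card G : ℤ) * (ln B.e : ℤ) - (Nat.card G : ℤ) *
    (ln (fun t : Subgroup.normalizer (B.i.range : Set G) => br B.i.range B.e t) : ℤ) at hchv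
  rw [h3] at hchv hc2
  have hb1 : ln B.e ≤ ℓ ^ 2 := hc1.2.trans hk1
  have hb2 : Lam B E₀ ≤ ℓ ^ 2 := hc2.2.trans hk2
  have e4 : (ln B.e : ℤ) - Lam B E₀ = 0 := by
    refine Int.eq_zero_of_abs_lt_dvd hdv ?_
    have h6 : ((Lam B E₀ : ℕ) : ℤ) ≤ ((ℓ ^ 2 : ℕ) : ℤ) := by exact_mod_cast hb2
    have h7 : ((ln B.e : ℕ) : ℤ) ≤ ((ℓ ^ 2 : ℕ) : ℤ) := by exact_mod_cast hb1
    have h8 : (1 : ℤ) ≤ ln B.e := by exact_mod_cast hc1.1
    have h9 : (1 : ℤ) ≤ Lam B E₀ := by exact_mod_cast hc2.1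
    rw [abs_lt]
    constructor
    · linarith
    · linarith
  rw [hchv, ← mul_sub, e4, mul_zero]

end Pool.Agent.PP.SE.H43Y
end
end -- Pool.Agent.Helper43_ASE.YYE2

section -- Pool.Agent.Helper49_ASE.LMB

/-!
# Squad ASE, row LMB: the numbers of modular characters of the local blocks
-/

open scoped BigOperators

set_option autoImplicit false

noncomputable section

namespace Pool.Agent.PP.SE.H49

open Pool.Agent.Helper51_AWC Pool.Agent.Helper79_WRA Pool.Agent.PP Pool.Agent.PP.KF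
open Pool.Agent.PP.K9 Pool.Agent.PP.K9.H97 Pool.Agent.PP.H75 Pool.Agent.PP.T3 Pool.Agent.PP.SO
open Pool.Agent.PP.SD

attribute [local instance] Ideal.Quotient.field

/-- transport of the number of modular characters along an isomorphism -/
theorem ln_iso {F X Y : Type} [Field F] [Group X] [Group Y] (e : X ≃* Y) (a : X → F) (b : Y → F)
    (hab : ∀ x, a x = b (e x)) : ln a = ln b := by
  symm
  unfold ln
  have hact : ∀ f : Y → F, ∀ x : X, actF a (fun t : X => f (e t)) x = actF b f (e x) := by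
    intro f x
    unfold actF
    rw [← finsum_comp_equiv e.toEquiv]
    apply finsum_congr
    intro s
    change a s * f (e (s * x)) = b (e s) * f (e s * e x)
    rw [hab, map_mul]
  refine Set.ncard_congr (fun f _ => fun t : X => f (e t)) ?_ ?_ ?_
  · rintro f ⟨h1, h2⟩
    refine ⟨(H20.IBr_equiv e).2 h1, ?_⟩
    funext t
    rw [hact, h2]
  · intro f f' _ _ he
    funext y
    have h1 := congrFun he (e.symm y)
    simp only [MulEquiv.apply_symm_apply] at h1
    exact h1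
  · rintro f ⟨h1, h2⟩
    have e1 : (fun t : X => (fun y : Y => f (e.symm y)) (e t)) = f := by
      funext t
      change f (e.symm (e t)) = f t
      rw [e.symm_apply_apply]
    refine ⟨fun y => f (e.symm y), ⟨?_, ?_⟩, e1⟩
    · rw [← H20.IBr_equiv e, e1]
      exact h1
    · funext y
      have h3 := hact (fun y : Y => f (e.symm y)) (e.symm y)
      rw [e1, h2, e.apply_symm_apply] at h3
      exact h3.symm

/-- a block of the whole group under the block `e` -/
theorem ln_top {F G : Type} [Field F] [Group G] [Finite G] (e b : G → F) (he : IsBlk e)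
    (X : Subgroup G) (hX : X = ⊤) (hb : Bx X b) (hu : mulF (fun t : X => e t) (fun t : X => b t) =
      fun t : X => b t) : ln (fun t : X => b t) = ln e := by
  subst hX
  have he' : IsBlk (fun t : (⊤ : Subgroup G) => e t) := H20.IsBlk_equiv Subgroup.topEquiv he
  have h1 : (fun t : (⊤ : Subgroup G) => b t) = fun t : (⊤ : Subgroup G) => e t := by
    rcases he'.2.2 _ hb.blk.1 with h | h
    · exact hu.symm.trans h
    · exact absurd (hu.symm.trans h) hb.blk.2.1
  rw [h1]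
  exact ln_iso Subgroup.topEquiv _ _ (fun _ => rfl)

/-- an idempotent of a subgroup in a group which fixes it -/
theorem ix_up {F G : Type} [Field F] [Group G] [Finite G] {C X : Subgroup G} {g : G → F}
    (h : Ix C g) (hC : C ≤ X) (hX : X ≤ stabF g) : Ix X g := by
  have h1 : ∀ x, x ∉ X → g x = 0 := fun x hx => h.supp x (fun h' => hx (hC h'))
  refine ⟨h1, ?_, ?_⟩
  · intro x y
    exact hX y.2 x
  · rw [← mulF_res X g h1, h.mul]

section gen

variable {V₀ G : Type} [CommGroup V₀] [Group G]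

theorem es_one (E₀ : Subgroup (MulAut V₀)) : Es E₀ (1 : V₀) = E₀ := by
  ext σ
  constructor
  · intro hσ
    exact hσ.1
  · intro hσ
    exact ⟨hσ, map_one σ⟩

theorem st_zp (E₀ : Subgroup (MulAut V₀)) (c : V₀) : St E₀ (Subgroup.zpowers c) = Es E₀ c := by
  ext σ
  constructor
  · rintro ⟨h1, h2⟩
    exact ⟨h1, h2 c (Subgroup.mem_zpowers c)⟩
  · rintro ⟨h1, h2⟩
    refine ⟨h1, ?_⟩
    intro w hw
    obtain ⟨k, rfl⟩ := Subgroup.mem_zpowers_iff.1 hw
    rw [map_zpow, h2]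

theorem mem_CW {F : Type} (B : Bk F V₀ G) (W : Subgroup V₀) (x : G) :
    x ∈ B.C W ↔ ∀ w ∈ W, B.i w * x = x * B.i w := by
  constructor
  · intro h w hw
    exact Subgroup.mem_centralizer_iff.1 h (B.i w) ⟨w, hw, rfl⟩
  · intro h
    refine Subgroup.mem_centralizer_iff.2 ?_
    rintro _ ⟨w, hw, rfl⟩
    exact h w hw

theorem c_bot {F : Type} (B : Bk F V₀ G) : B.C ⊥ = ⊤ := by
  rw [eq_top_iff]
  intro x _
  rw [mem_CW]
  intro w hw
  rw [Subgroup.mem_bot.1 hw, map_one, one_mul, mul_one]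

variable {ℓ : ℕ} {M : Ideal (integralClosure ℤ ℂ)} [M.IsMaximal]

theorem te_top {E₀ : Subgroup (MulAut V₀)} {B : Bk (FF M) V₀ G} (hB : Sb ℓ M E₀ B) :
    TE B E₀ = Tg B.i.range B.g := by
  ext t
  constructor
  · intro h
    exact h.1
  · intro h
    exact ⟨h, hB.act t h⟩

theorem te_le (B : Bk (FF M) V₀ G) (E' : Subgroup (MulAut V₀)) :
    TE B E' ≤ Tg B.i.range B.g := fun _ h => h.1

theorem te_mono (B : Bk (FF M) V₀ G) {E' E'' : Subgroup (MulAut V₀)} (h : E' ≤ E'') :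
    TE B E' ≤ TE B E'' := by
  rintro t ⟨h1, σ, h2, h3⟩
  exact ⟨h1, σ, h h2, h3⟩

/-- the elements of the inertial group in the centraliser of `W` -/
theorem te_st {E₀ : Subgroup (MulAut V₀)} {B : Bk (FF M) V₀ G} (hB : Sb ℓ M E₀ B)
    (W : Subgroup V₀) (t : G) : t ∈ TE B (St E₀ W) ↔ t ∈ Tg B.i.range B.g ∧ t ∈ B.C W := by
  constructor
  · rintro ⟨h1, σ, h2, h3⟩
    refine ⟨h1, ?_⟩
    rw [mem_CW]
    intro w hw
    have h4 := h3 w
    rw [h2.2 w hw] at h4
    calc B.i w * t = t * B.i w * t⁻¹ * t := by rw [h4]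
      _ = t * B.i w := by group
  · rintro ⟨h1, h2⟩
    obtain ⟨σ, h3, h4⟩ := hB.act t h1
    refine ⟨h1, σ, ⟨h3, fun w hw => ?_⟩, h4⟩
    apply hB.inj
    rw [← h4, ← (mem_CW B W t).1 h2 w hw, mul_inv_cancel_right]

theorem cent_le_tg [Finite G] {E₀ : Subgroup (MulAut V₀)} {B : Bk (FF M) V₀ G}
    (hB : Sb ℓ M E₀ B) : Subgroup.centralizer (B.i.range : Set G) ≤ Tg B.i.range B.g := by
  intro t ht
  refine ⟨Subgroup.centralizer_le_normalizer _ ht, ?_⟩
  have h1 := hB.ld.gam.ix.inv ht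
  rw [cj_eq_iff] at h1
  exact h1

/-- `C(V)` is in every `TE B E'` -/
theorem cent_le_te [Finite G] {E₀ : Subgroup (MulAut V₀)} {B : Bk (FF M) V₀ G}
    (hB : Sb ℓ M E₀ B) (E' : Subgroup (MulAut V₀)) :
    Subgroup.centralizer (B.i.range : Set G) ≤ TE B E' := by
  intro t ht
  refine ⟨cent_le_tg hB ht, 1, E'.one_mem, fun v => ?_⟩
  rw [MulAut.one_apply, ← Subgroup.mem_centralizer_iff.1 ht (B.i v) ⟨v, rfl⟩,
    mul_inv_cancel_right]

theorem sum_ne_one [Finite V₀] (f : V₀ → ℕ) :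
    ∑ᶠ v, f v = f 1 + ∑ᶠ v ∈ {v : V₀ | v ≠ 1}, f v := by
  rw [← finsum_mem_insert f (s := {v : V₀ | v ≠ 1}) (fun h => h rfl) (Set.toFinite _),
    ← finsum_mem_univ]
  congr 1
  have h : insert (1 : V₀) {v : V₀ | v ≠ 1} = Set.univ := by
    ext v
    simp only [Set.mem_insert_iff, Set.mem_ofPred_eq, Set.mem_univ, iff_true]
    exact em (v = 1)
  rw [h]

end gen

/-- LMB -/
theorem lmb (kld : KldStmt) (lnh : LnhStmt) (lnn : LnnStmt) (rda : RdaStmt)
    (k9 : K9.LbdStmt) : LmbStmt := by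
  classical
  intro ℓ hℓ M _ hM h2 V₀ G _ _ _ _ E₀ hFq B hB
  have hT := te_top hB
  have hLam : Lam B E₀ = lT B := by
    unfold Lam lT
    rw [hT]
  -- the local blocks
  have key : ∀ W, W ≠ ⊥ → ln (fun t : B.C W => B.b W t) = Lam B (St E₀ W) := by
    intro W hW
    obtain ⟨hFq', B', hB', he, hg, hi, -⟩ := rda ℓ M hM h2 V₀ G E₀ hFq B hB W
    have hN : (W.map B'.i).Normal := by
      constructor
      rintro _ ⟨w, hw, rfl⟩ x
      refine ⟨w, hw, ?_⟩
      apply Subtype.ext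
      have h1 := (mem_CW B W x).1 x.2 w hw
      rw [Subgroup.coe_mul, Subgroup.coe_mul, Subgroup.coe_inv, hi, ← h1, mul_inv_cancel_right]
    have h1 := lnh ℓ M hM V₀ (B.C W) (St E₀ W) hFq' B' hB' W hW hN
    have h3 : B'.e = fun t : B.C W => B.b W t := funext he
    have hg' : B'.g = fun t : B.C W => B.g t := funext hg
    have hVX : B.i.range ≤ B.C W := by
      rintro _ ⟨v, rfl⟩
      rw [mem_CW]
      intro w _
      rw [← map_mul, ← map_mul, mul_comm]
    have hCX : Subgroup.centralizer (B.i.range : Set G) ≤ B.C W := by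
      refine Subgroup.centralizer_le ?_
      rintro _ ⟨w, _, rfl⟩
      exact ⟨w, rfl⟩
    have hr : B'.i.range = B.i.range.subgroupOf (B.C W) := by
      ext t
      rw [Subgroup.mem_subgroupOf]
      constructor
      · rintro ⟨v, rfl⟩
        exact ⟨v, (hi v).symm⟩
      · rintro ⟨v, hv⟩
        exact ⟨v, Subtype.ext ((hi v).trans hv)⟩
    have hmem : ∀ t : B.C W, t ∈ Tg B'.i.range B'.g ↔ (t : G) ∈ TE B (St E₀ W) := by
      intro t
      rw [hr, hg', T3.H85.Tg_eq hVX hCX hB.ld.gam.supp, Subgroup.mem_subgroupOf, te_st hB W]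
      exact Iff.rfl
    let φ : Tg B'.i.range B'.g ≃* TE B (St E₀ W) :=
      { toFun := fun t => ⟨((t : B.C W) : G), (hmem t).1 t.2⟩
        invFun := fun t => ⟨⟨(t : G), ((te_st hB W t).1 t.2).2⟩, (hmem _).2 t.2⟩
        left_inv := fun _ => rfl
        right_inv := fun _ => rfl
        map_mul' := fun _ _ => rfl }
    rw [← h3, h1]
    unfold lT Lam
    exact ln_iso φ _ _ (fun x => hg x)
  refine ⟨key, ?_, ?_, ?_, ?_⟩
  · intro W hW hN
    rw [hLam]
    exact lnh ℓ M hM V₀ G E₀ hFq B hB W hW hN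
  · rw [hLam]
    exact lnn ℓ M hM V₀ G E₀ B hB
  · have h1 := (kld ℓ M hM h2 V₀ G E₀ hFq B hB).1
    rw [h1, sum_ne_one, es_one, Subgroup.zpowers_one_eq_bot]
    congr 1
    · congr 1
      exact ln_top B.e (B.b ⊥) hB.ld.blk (B.C ⊥) (c_bot B) (hB.lb ⊥).blk (hB.lb ⊥).und
    · refine finsum_mem_congr rfl fun v hv => ?_
      rw [key _ (fun h => hv (Subgroup.zpowers_eq_bot.1 h)), st_zp]
  · intro E' _
    have hix : Ix (TE B E') B.g := ix_up hB.ld.gam.ix (cent_le_te hB E')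
      (fun t ht => (te_le B E' ht).2)
    have hne : (fun t : TE B E' => B.g t) ≠ 0 := by
      intro h
      apply hB.ld.gam.blk.2.1
      funext t
      exact congrFun h ⟨t, cent_le_te hB E' t.2⟩
    exact (k9 ℓ M hM (TE B E') (fun t => B.g t) hix.idem hne).1

end Pool.Agent.PP.SE.H49
end
end -- Pool.Agent.Helper49_ASE.LMB

section -- Pool.Agent.Helper60_ASE.S2F

/-!
# Squad ASE, row S2F: the theorem for block idempotents with elementary abelian defect groups
-/

open scoped BigOperators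

noncomputable section

namespace Pool.Agent.PP.SE.H60

open Pool.Agent.Helper51_AWC Pool.Agent.Helper79_WRA Pool.Agent.PP Pool.Agent.PP.KF
open Pool.Agent.PP.K9 Pool.Agent.PP.K9.H97 Pool.Agent.PP.H75 Pool.Agent.PP.T3 Pool.Agent.PP.SO
open Pool.Agent.PP.SD

attribute [local instance] Ideal.Quotient.field

theorem s2f (yye : YyeStmt) (esd : SD.EsdStmt) (syd : SD.SydStmt) : S2fStmt := by
  intro ℓ _ M _ hM h5 G _ _ e V γ hL hex hcd
  obtain ⟨V₀, _, _, E₀, i, hFq, hinj, hran, hact, hsur, _, _⟩ := esd ℓ M hM G e V γ hL hex hcd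
  subst hran
  obtain ⟨B, hBe, -, -, hSd⟩ := syd ℓ M hM V₀ G E₀ hFq e γ i hinj hL hact hsur
  have h := yye ℓ M hM h5 V₀ G E₀ hFq B hSd
  rwa [hBe] at h

end Pool.Agent.PP.SE.H60
end
end -- Pool.Agent.Helper60_ASE.S2F

section -- Pool.Agent.Helper92_ASE.FXS

/-!
# Squad ASE, row FXS: the sum of the numbers of fixed characters of `b W`
-/

open scoped BigOperators

noncomputable section

namespace Pool.Agent.PP.SE.H92

open Pool.Agent.Helper51_AWC Pool.Agent.Helper79_WRA Pool.Agent.PP Pool.Agent.PP.KF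
open Pool.Agent.PP.K9 Pool.Agent.PP.K9.H97 Pool.Agent.PP.H75 Pool.Agent.PP.T3 Pool.Agent.PP.SO
open Pool.Agent.PP.SD

attribute [local instance] Ideal.Quotient.field

/-! ## 1. Double counting -/

section count

variable {A X : Type} [Fintype A] [Fintype X] (R : A → X → Prop) {n m : ℕ}

open Classical in
theorem count1 (h1 : ∀ x, (Finset.univ.filter (fun a => R a x)).card = n)
    (h2 : ∀ a, (Finset.univ.filter (R a)).card = m) (f : A → ℕ) (g : X → ℕ)
    (h : ∀ a x, R a x → g x = f a) : n * ∑ x, g x = m * ∑ a, f a := by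
  have e1 : n * ∑ x, g x = ∑ x, ∑ a, if R a x then g x else 0 := by
    rw [Finset.mul_sum]
    refine Finset.sum_congr rfl fun x _ => ?_
    rw [← Finset.sum_filter, Finset.sum_const, h1, smul_eq_mul]
  have e2 : m * ∑ a, f a = ∑ a, ∑ x, if R a x then f a else 0 := by
    rw [Finset.mul_sum]
    refine Finset.sum_congr rfl fun a _ => ?_
    rw [← Finset.sum_filter, Finset.sum_const, h2, smul_eq_mul]
  rw [e1, e2, Finset.sum_comm]
  refine Finset.sum_congr rfl fun a _ => Finset.sum_congr rfl fun x _ => ?_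
  by_cases hr : R a x
  · rw [if_pos hr, if_pos hr, h a x hr]
  · rw [if_neg hr, if_neg hr]

open Classical in
theorem count2 (h1 : ∀ x, (Finset.univ.filter (fun a => R a x)).card = n)
    (h2 : ∀ a, (Finset.univ.filter (R a)).card = m) (f : A → A → ℕ) (g : X → X → ℕ)
    (h : ∀ a x b y, R a x → R b y → g x y = f a b) :
    n * (n * ∑ x, ∑ y, g x y) = m * (m * ∑ a, ∑ b, f a b) := by
  have e : n * ∑ x, n * ∑ y, g x y = m * ∑ a, m * ∑ b, f a b :=
    count1 R h1 h2 _ _ fun a x hr => count1 R h1 h2 _ _ fun b y hs => h a x b y hr hs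
  rw [← Finset.mul_sum, ← Finset.mul_sum] at e
  exact e

end count

section grp

variable {V₀ G : Type} [CommGroup V₀] [Group G] {M : Ideal (integralClosure ℤ ℂ)} [M.IsMaximal]

/-- `x` acts on `i(W)` as `σ` -/
def Rel (B : Bk (FF M) V₀ G) (W : Subgroup V₀) (σ : MulAut V₀) (x : G) : Prop :=
  ∀ w ∈ W, x * B.i w * x⁻¹ = B.i (σ w)

theorem mem_C {B : Bk (FF M) V₀ G} {W : Subgroup V₀} {x : G} :
    x ∈ B.C W ↔ ∀ w ∈ W, x * B.i w * x⁻¹ = B.i w := by
  unfold Bk.C
  rw [Subgroup.mem_centralizer_iff]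
  constructor
  · intro h w hw
    rw [← h (B.i w) (Subgroup.mem_map_of_mem _ hw), mul_inv_cancel_right]
  · rintro h _ ⟨w, hw, rfl⟩
    have := h w hw
    rw [mul_inv_eq_iff_eq_mul] at this
    exact this.symm

theorem rel_mul {B : Bk (FF M) V₀ G} {W : Subgroup V₀} {σ τ : MulAut V₀} {x y : G}
    (hx : Rel B W σ x) (hy : Rel B W τ y) (hτ : ∀ w ∈ W, τ w ∈ W) : Rel B W (σ * τ) (x * y) := by
  intro w hw
  rw [MulAut.mul_apply, ← hx _ (hτ w hw), ← hy w hw]
  group

theorem rel_inv {B : Bk (FF M) V₀ G} {W : Subgroup V₀} {σ : MulAut V₀} {x : G}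
    (hx : Rel B W σ x) (hσ : ∀ w ∈ W, σ⁻¹ w ∈ W) : Rel B W σ⁻¹ x⁻¹ := by
  intro w hw
  have h := hx _ (hσ w hw)
  rw [MulAut.apply_inv_self] at h
  rw [← h]
  group

theorem tt_spec {B : Bk (FF M) V₀ G} {σ : MulAut V₀}
    (h : ∃ t ∈ Tg B.i.range B.g, ∀ v, t * B.i v * t⁻¹ = B.i (σ v)) :
    tt B σ ∈ Tg B.i.range B.g ∧ ∀ v, tt B σ * B.i v * (tt B σ)⁻¹ = B.i (σ v) := by
  unfold tt
  rw [dif_pos h]
  exact h.choose_spec

theorem ch_conj {B : Bk (FF M) V₀ G} {W : Subgroup V₀} {χ : G → ℂ} (hχ : χ ∈ Ch B W) {c : G}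
    (hc : c ∈ B.C W) (z : G) : χ (c * z * c⁻¹) = χ z := by
  by_cases hz : z ∈ B.C W
  · exact irr_conj hχ.2.1 ⟨z, hz⟩ ⟨c, hc⟩
  · rw [hχ.1 z hz, hχ.1]
    intro h
    apply hz
    have := (B.C W).mul_mem ((B.C W).mul_mem ((B.C W).inv_mem hc) h) hc
    have e : c⁻¹ * (c * z * c⁻¹) * c = z := by group
    rwa [e] at this

theorem fix_iff {B : Bk (FF M) V₀ G} {W : Subgroup V₀} {χ : G → ℂ} (hχ : χ ∈ Ch B W)
    {σ : MulAut V₀} {x : G} (h : (tt B σ)⁻¹ * x ∈ B.C W) :
    (∀ y, χ (x * y * x⁻¹) = χ y) ↔ ac B σ χ = χ := by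
  set t := tt B σ with ht
  set c := t⁻¹ * x with hc
  have hx : x = t * c := by rw [hc]; group
  constructor
  · intro h1
    funext z
    show χ (t⁻¹ * z * t) = χ z
    have h2 := h1 (c⁻¹ * (t⁻¹ * z * t) * c)
    have e : x * (c⁻¹ * (t⁻¹ * z * t) * c) * x⁻¹ = z := by
      rw [hx]
      group
    rw [e] at h2
    rw [h2]
    have h3 := ch_conj hχ ((B.C W).inv_mem h) (t⁻¹ * z * t)
    rw [inv_inv] at h3
    exact h3.symm
  · intro h1 y
    have h2 := congrFun h1 (x * y * x⁻¹)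
    have e : ac B σ χ (x * y * x⁻¹) = χ (c * y * c⁻¹) := by
      show χ (t⁻¹ * (x * y * x⁻¹) * t) = χ (c * y * c⁻¹)
      congr 1
      rw [hx]
      group
    rw [e, ch_conj hχ h] at h2
    exact h2.symm

/-- transport of the sets of fixed characters to a subgroup `X ≥ C W` -/
theorem fixset [Finite G] {B : Bk (FF M) V₀ G} {W : Subgroup V₀} (X : Subgroup G)
    (hC : B.C W ≤ X)
    (hcl : IsCl (fun t : B.C W => B.b W t)) (b : X → FF M) (hb : ∀ h : X, b h = B.b W h)
    (hclX : IsCl b) (x y : X) :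
    {χ : X → ℂ | (∀ z, z ∉ (B.C W).subgroupOf X → χ z = 0) ∧
      (fun t : (B.C W).subgroupOf X => χ t) ∈ IrrE M (fun t : (B.C W).subgroupOf X => b t) ∧
      (∀ z, χ (x * z * x⁻¹) = χ z) ∧ ∀ z, χ (y * z * y⁻¹) = χ z}.ncard =
    {χ : G → ℂ | χ ∈ Ch B W ∧ (∀ z, χ ((x : G) * z * (x : G)⁻¹) = χ z) ∧
      ∀ z, χ ((y : G) * z * (y : G)⁻¹) = χ z}.ncard := by
  classical
  set N := (B.C W).subgroupOf X with hN
  set φ : N ≃* B.C W := Subgroup.subgroupOfEquivOfLe hC with hφ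
  set r : (G → ℂ) → (X → ℂ) := fun χ z => χ z with hr
  have hX : ∀ (x : X) (z : G), z ∉ X → (x : G) * z * (x : G)⁻¹ ∉ X := by
    intro x z hz h
    apply hz
    have := X.mul_mem (X.mul_mem (X.inv_mem x.2) h) x.2
    have e : (x : G)⁻¹ * ((x : G) * z * (x : G)⁻¹) * x = z := by group
    rwa [e] at this
  have himg : {χ : X → ℂ | (∀ z, z ∉ N → χ z = 0) ∧
      (fun t : N => χ t) ∈ IrrE M (fun t : N => b t) ∧
      (∀ z, χ (x * z * x⁻¹) = χ z) ∧ ∀ z, χ (y * z * y⁻¹) = χ z} =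
      r '' {χ : G → ℂ | χ ∈ Ch B W ∧ (∀ z, χ ((x : G) * z * (x : G)⁻¹) = χ z) ∧
        ∀ z, χ ((y : G) * z * (y : G)⁻¹) = χ z} := by
    ext χ
    constructor
    · rintro ⟨h1, h2, h3, h4⟩
      set ψ : G → ℂ := fun g => if h : g ∈ X then χ ⟨g, h⟩ else 0 with hψ
      have hψX : ∀ z : X, ψ z = χ z := fun z => by
        rw [hψ]
        simp only [z.2, dif_pos]
      have hψ0 : ∀ z, z ∉ X → ψ z = 0 := fun z hz => by
        rw [hψ]
        simp only [hz, dif_neg, not_false_iff]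
      have hfx : ∀ w : X, (∀ z, χ (w * z * w⁻¹) = χ z) →
          ∀ z, ψ ((w : G) * z * (w : G)⁻¹) = ψ z := by
        intro w hw z
        by_cases hz : z ∈ X
        · have := hw ⟨z, hz⟩
          rw [← hψX, ← hψX] at this
          exact this
        · rw [hψ0 z hz, hψ0 _ (hX w z hz)]
      refine ⟨ψ, ⟨⟨?_, ?_⟩, hfx x h3, hfx y h4⟩, ?_⟩
      · intro g hg
        by_cases hgX : g ∈ X
        · have e := hψX ⟨g, hgX⟩
          rw [h1 ⟨g, hgX⟩ (fun h => hg h)] at e
          exact e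
        · exact hψ0 g hgX
      · have hclN : IsCl (fun t : N => b t) := fun s t => hclX _ _
        have h5 := T5.H89.irrE_equiv φ hclN h2
        have e1 : (fun t : B.C W => ψ t) = fun t => χ (φ.symm t) := by
          funext t
          exact hψX ⟨t, hC t.2⟩
        have e2 : (fun t : B.C W => B.b W t) = fun t => b (φ.symm t) := by
          funext t
          rw [hb]
          rfl
        rw [e1, e2]
        exact h5
      · funext z
        exact hψX z
    · rintro ⟨ψ, ⟨h1, h3, h4⟩, rfl⟩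
      refine ⟨fun z hz => h1.1 z hz, ?_, fun z => h3 z, fun z => h4 z⟩
      have h5 := T5.H89.irrE_equiv φ.symm hcl h1.2
      have e2 : (fun t : N => b t) = fun t => B.b W (φ.symm.symm t) := by
        funext t
        rw [hb]
        rfl
      rw [e2]
      exact h5
  rw [himg, Set.InjOn.ncard_image]
  intro χ hχ ψ hψ he
  funext g
  by_cases hg : g ∈ X
  · exact congrFun he ⟨g, hg⟩
  · rw [hχ.1.1 g (fun h => hg (hC h)), hψ.1.1 g (fun h => hg (hC h))]

end grp

theorem fxs (xwd : XwdStmt) (lmb : LmbStmt) (f1s : F1sStmt) : FxsStmt := by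
  intro ℓ _ M _ hM hℓ V₀ G _ _ _ _ E₀ hFq B hB W hW E₁ hE hSt hEW
  classical
  have hp : ℓ.Prime := Fact.out
  have hWb : W ≠ ⊥ := by
    rintro rfl
    rw [Subgroup.card_bot] at hW
    exact hp.one_lt.ne hW
  have hEi : ∀ σ ∈ E₁, ∀ w ∈ W, σ⁻¹ w ∈ W := fun σ hσ w hw => hEW _ (E₁.inv_mem hσ) w hw
  set X : Subgroup G := TE B E₁ ⊔ B.C W with hX
  have hCX : B.C W ≤ X := le_sup_right
  have hTX : TE B E₁ ≤ X := le_sup_left
  have hrel : ∀ x ∈ X, ∃ σ ∈ E₁, Rel B W σ x := by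
    intro x hx
    rw [hX, ← SetLike.mem_coe, Subgroup.sup_eq_closure, SetLike.mem_coe] at hx
    refine Subgroup.closure_induction (p := fun x _ => ∃ σ ∈ E₁, Rel B W σ x) ?_ ?_ ?_ ?_ hx
    · rintro x (h | h)
      · obtain ⟨-, σ, hσ, h1⟩ := h
        exact ⟨σ, hσ, fun w _ => h1 w⟩
      · refine ⟨1, E₁.one_mem, fun w hw => ?_⟩
        rw [MulAut.one_apply]
        exact mem_C.1 h w hw
    · exact ⟨1, E₁.one_mem, fun w _ => by rw [one_mul, inv_one, mul_one, MulAut.one_apply]⟩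
    · rintro x y - - ⟨σ, hσ, h1⟩ ⟨τ, hτ, h2⟩
      exact ⟨σ * τ, E₁.mul_mem hσ hτ, rel_mul h1 h2 (hEW τ hτ)⟩
    · rintro x - ⟨σ, hσ, h1⟩
      exact ⟨σ⁻¹, E₁.inv_mem hσ, rel_inv h1 (hEi σ hσ)⟩
  have htt : ∀ σ ∈ E₁, tt B σ ∈ Tg B.i.range B.g ∧ ∀ v, tt B σ * B.i v * (tt B σ)⁻¹ = B.i (σ v) :=
    fun σ hσ => tt_spec (hB.sur σ (hE hσ))
  have htX : ∀ σ ∈ E₁, tt B σ ∈ X := fun σ hσ =>
    hTX ⟨(htt σ hσ).1, σ, hσ, (htt σ hσ).2⟩
  have hrelC : ∀ σ ∈ E₁, ∀ x, Rel B W σ x ↔ (tt B σ)⁻¹ * x ∈ B.C W := by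
    intro σ hσ x
    rw [mem_C]
    refine forall_congr' fun w => forall_congr' fun hw => ?_
    have h1 := (htt σ hσ).2 w
    constructor
    · intro h
      have e : (tt B σ)⁻¹ * x * B.i w * ((tt B σ)⁻¹ * x)⁻¹ =
          (tt B σ)⁻¹ * (x * B.i w * x⁻¹) * tt B σ := by group
      rw [e, h, ← h1]
      group
    · intro h
      rw [← h1]
      have e : x * B.i w * x⁻¹ = tt B σ * ((tt B σ)⁻¹ * x * B.i w * ((tt B σ)⁻¹ * x)⁻¹) *
          (tt B σ)⁻¹ := by group
      rw [e, h]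
  -- the datum of `X`
  obtain ⟨hFq1, B', hB', hPr, he', hnor, -, hLam⟩ := xwd ℓ M hM hℓ V₀ G X E₀ hFq B hB W hWb E₁ hE
    hSt hEW X.subtype X.subtype_injective X.range_subtype
  obtain ⟨-, l2, -, l4, -⟩ := lmb ℓ M hM hℓ V₀ X E₁ hFq1 B' hB'.toSb
  have hln := l2 W hWb hnor
  set k := (IrrE M B'.e).ncard with hk
  have hEs1 : Es E₁ (1 : V₀) = E₁ := by
    ext σ
    exact ⟨fun h => h.1, fun h => ⟨h, map_one σ⟩⟩
  have hEsle : ∀ v : V₀, Es E₁ v ≤ E₁ := fun v σ h => h.1
  have hsum : ∑ᶠ v : V₀, Nat.card (Es E₁ v) * Lam B (Es E₁ v) = Nat.card E₁ * k := by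
    have hV : Fintype V₀ := Fintype.ofFinite _
    rw [l4, hln, hLam E₁ le_rfl]
    have e1 : (∑ᶠ v ∈ {v : V₀ | v ≠ 1}, Nat.card (Es E₁ v) * Lam B' (Es E₁ v)) =
        ∑ᶠ v ∈ {v : V₀ | v ≠ 1}, Nat.card (Es E₁ v) * Lam B (Es E₁ v) :=
      finsum_mem_congr rfl fun v _ => by rw [hLam _ (hEsle v)]
    rw [e1]
    have e2 : {v : V₀ | v ≠ 1} = ((Finset.univ.erase (1 : V₀) : Finset V₀) : Set V₀) := by
      ext v
      simp
    rw [e2, finsum_mem_coe_finset, finsum_eq_sum_of_fintype,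
      ← Finset.add_sum_erase _ _ (Finset.mem_univ (1 : V₀)), hEs1]
  rw [hsum]
  -- the subgroup `N`
  set N : Subgroup X := (B.C W).subgroupOf X with hN
  have hNn : N.Normal := by
    refine ⟨fun c hc x => ?_⟩
    obtain ⟨σ, hσ, h1⟩ := hrel x x.2
    rw [hN, Subgroup.mem_subgroupOf] at hc ⊢
    rw [mem_C] at hc ⊢
    intro w hw
    have h2 := h1 _ (hEi σ hσ w hw)
    rw [MulAut.apply_inv_self] at h2
    have h3 := hc _ (hEi σ hσ w hw)
    show (x : G) * c * (x : G)⁻¹ * B.i w * ((x : G) * c * (x : G)⁻¹)⁻¹ = B.i w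
    rw [← h2]
    have e : (x : G) * c * (x : G)⁻¹ * ((x : G) * B.i (σ⁻¹ w) * (x : G)⁻¹) *
        ((x : G) * c * (x : G)⁻¹)⁻¹ = (x : G) * (c * B.i (σ⁻¹ w) * (c : G)⁻¹) * (x : G)⁻¹ := by
      group
    rw [e, h3]
  have hcyc : ∃ t : X, ∀ x : X, ∃ i : ℕ, (t ^ i)⁻¹ * x ∈ N := by
    set P : Subgroup G := W.map B.i with hP
    have hXn : X ≤ Subgroup.normalizer (P : Set G) := by
      intro x hx
      obtain ⟨σ, hσ, h1⟩ := hrel x hx
      rw [Subgroup.mem_normalizer_iff]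
      intro g
      constructor
      · rintro ⟨w, hw, rfl⟩
        rw [h1 w hw]
        exact ⟨σ w, hEW σ hσ w hw, rfl⟩
      · rintro ⟨w, hw, h2⟩
        refine ⟨σ⁻¹ w, hEi σ hσ w hw, ?_⟩
        have h3 := h1 _ (hEi σ hσ w hw)
        rw [MulAut.apply_inv_self] at h3
        have h4 : x * B.i (σ⁻¹ w) * x⁻¹ = x * g * x⁻¹ := by rw [h3, ← h2]
        exact mul_left_cancel (mul_right_cancel h4)
    have hPc : Nat.card P = ℓ := by
      rw [hP, ← hW]
      exact (Nat.card_congr (W.equivMapOfInjective B.i hB.inj).toEquiv).symm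
    have hcP : IsCyclic P := isCyclic_of_prime_card hPc
    have hcA : IsCyclic (MulAut P) := by
      have e := IsCyclic.mulAutMulEquiv P
      rw [hPc] at e
      exact isCyclic_of_surjective e.symm e.symm.surjective
    set ψ : X →* MulAut P := P.normalizerMonoidHom.comp (Subgroup.inclusion hXn) with hψ
    have hker : ∀ x : X, ψ x = 1 ↔ x ∈ N := by
      intro x
      have h1 : ψ x = 1 ↔ Subgroup.inclusion hXn x ∈ P.normalizerMonoidHom.ker := Iff.rfl
      rw [h1, Subgroup.normalizerMonoidHom_ker]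
      rfl
    obtain ⟨⟨_, t, rfl⟩, ht⟩ := IsCyclic.exists_monoid_generator (α := ψ.range)
    refine ⟨t, fun x => ?_⟩
    obtain ⟨i, hi⟩ := Submonoid.mem_powers_iff _ _ |>.1 (ht ⟨ψ x, x, rfl⟩)
    refine ⟨i, (hker _).1 ?_⟩
    have h2 := congrArg Subtype.val hi
    have h3 : ψ t ^ i = ψ x := h2
    rw [map_mul, map_inv, map_pow, h3, inv_mul_cancel]
  have hb0 : ∀ x : X, x ∉ N → B'.e x = 0 := by
    intro x hx
    rw [he' x]
    exact (hB.lb W).blk.supp _ fun h => hx h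
  have hcl : IsCl B'.e := hB'.ld.blk.1.1
  have hclC : IsCl (fun t : B.C W => B.b W t) := (hB.lb W).blk.blk.1.1
  have hidem : IsIdem (fun t : N => B'.e t) := by
    have h1 := (H20.IsBlk_equiv (Subgroup.subgroupOfEquivOfLe hCX) (hB.lb W).blk.blk).1
    have e1 : (fun t : N => B'.e t) =
        fun t => B.b W ((Subgroup.subgroupOfEquivOfLe hCX t : B.C W) : G) := by
      funext t
      rw [he']
      rfl
    rw [e1]
    exact h1
  have hF := f1s ℓ M hM X N hNn hcyc B'.e hb0 (fun x y => hcl y x) hidem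
  -- counting
  have hXf : Fintype X := Fintype.ofFinite _
  have hVf : Finite (MulAut V₀) := by
    refine Finite.of_injective (fun (σ : MulAut V₀) (v : V₀) => σ v) ?_
    intro σ τ h
    ext v
    exact congrFun h v
  have hEf : Fintype E₁ := Fintype.ofFinite _
  set R : E₁ → X → Prop := fun σ x => Rel B W σ x with hR
  set m := Nat.card (B.C W) with hm
  have c1 : ∀ x, (Finset.univ.filter (fun a => R a x)).card = nS E₀ W := by
    intro x
    obtain ⟨σ, hσ, h1⟩ := hrel x x.2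
    have hSf : Fintype (St E₀ W) := Fintype.ofFinite _
    rw [nS, Nat.card_eq_fintype_card, ← Finset.card_univ]
    symm
    refine Finset.card_bij (fun (τ : St E₀ W) _ => (⟨σ * τ, E₁.mul_mem hσ (hSt τ.2)⟩ : E₁)) ?_ ?_ ?_
    · intro τ _
      rw [Finset.mem_filter]
      refine ⟨Finset.mem_univ _, fun w hw => ?_⟩
      show (x : G) * B.i w * (x : G)⁻¹ = B.i ((σ * (τ : MulAut V₀)) w)
      rw [MulAut.mul_apply, τ.2.2 w hw]
      exact h1 w hw
    · intro τ _ τ' _ h
      have h2 : σ * (τ : MulAut V₀) = σ * τ' := congrArg Subtype.val h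
      exact Subtype.ext (mul_left_cancel h2)
    · intro ρ hρ
      rw [Finset.mem_filter] at hρ
      have h2 : Rel B W ρ x := hρ.2
      have h3 : σ⁻¹ * (ρ : MulAut V₀) ∈ St E₀ W := by
        refine ⟨E₀.mul_mem (E₀.inv_mem (hE hσ)) (hE ρ.2), fun w hw => ?_⟩
        have h4 : B.i ((ρ : MulAut V₀) w) = B.i (σ w) := by rw [← h2 w hw, ← h1 w hw]
        rw [MulAut.mul_apply, hB.inj h4, MulAut.inv_apply_self]
      refine ⟨⟨_, h3⟩, Finset.mem_univ _, ?_⟩
      apply Subtype.ext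
      show σ * (σ⁻¹ * (ρ : MulAut V₀)) = ρ
      group
  have c2 : ∀ a, (Finset.univ.filter (R a)).card = m := by
    intro σ
    have hCf : Fintype (B.C W) := Fintype.ofFinite _
    rw [hm, Nat.card_eq_fintype_card, ← Finset.card_univ]
    symm
    refine Finset.card_bij (fun (c : B.C W) _ => (⟨tt B σ * c, X.mul_mem (htX σ σ.2) (hCX c.2)⟩ : X))
      ?_ ?_ ?_
    · intro c _
      rw [Finset.mem_filter]
      refine ⟨Finset.mem_univ _, (hrelC σ σ.2 _).2 ?_⟩
      show (tt B σ)⁻¹ * (tt B σ * (c : G)) ∈ B.C W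
      rw [inv_mul_cancel_left]
      exact c.2
    · intro c _ c' _ h
      have h2 : tt B σ * (c : G) = tt B σ * c' := congrArg Subtype.val h
      exact Subtype.ext (mul_left_cancel h2)
    · intro x hx
      rw [Finset.mem_filter] at hx
      have h2 := (hrelC σ σ.2 _).1 hx.2
      refine ⟨⟨_, h2⟩, Finset.mem_univ _, ?_⟩
      apply Subtype.ext
      show tt B σ * ((tt B σ)⁻¹ * (x : G)) = x
      rw [mul_inv_cancel_left]
  have hfx : ∀ (σ : E₁) (x : X) (τ : E₁) (y : X), R σ x → R τ y →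
      {χ : X → ℂ | (∀ z, z ∉ N → χ z = 0) ∧
        (fun t : N => χ t) ∈ IrrE M (fun t : N => B'.e t) ∧
        (∀ z, χ (x * z * x⁻¹) = χ z) ∧ ∀ z, χ (y * z * y⁻¹) = χ z}.ncard =
      {χ | χ ∈ Ch B W ∧ ac B σ χ = χ ∧ ac B τ χ = χ}.ncard := by
    intro σ x τ y hx hy
    rw [fixset X hCX hclC B'.e (fun h => he' h) hcl x y]
    congr 1
    ext χ
    refine and_congr_right fun hχ => ?_
    rw [fix_iff hχ ((hrelC σ σ.2 _).1 hx), fix_iff hχ ((hrelC τ τ.2 _).1 hy)]
  have k2 := count2 R c1 c2 _ _ hfx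
  have k1 := count1 R c1 c2 (fun _ => 1) (fun _ => 1) (fun _ _ _ => rfl)
  rw [Finset.sum_const, Finset.sum_const, smul_eq_mul, smul_eq_mul, mul_one, mul_one,
    Finset.card_univ, Finset.card_univ, ← Nat.card_eq_fintype_card,
    ← Nat.card_eq_fintype_card] at k1
  have hNc : Nat.card N = m := Nat.card_congr (Subgroup.subgroupOfEquivOfLe hCX).toEquiv
  rw [finsum_eq_sum_of_fintype, Fintype.sum_prod_type, hNc, ← hk] at hF
  rw [finsum_eq_sum_of_fintype, Fintype.sum_prod_type]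
  dsimp only at hF ⊢
  rw [← hF] at k2
  have hm0 : 0 < m := Nat.card_pos
  set S := ∑ σ : E₁, ∑ τ : E₁, {χ | χ ∈ Ch B W ∧ ac B σ χ = χ ∧ ac B τ χ = χ}.ncard with hS
  have k3 : m * (m * S) = m * (m * (nS E₀ W * (Nat.card E₁ * k))) := by
    rw [← k2]
    have e1 : nS E₀ W * (nS E₀ W * (Nat.card X * m * k)) =
        (nS E₀ W * Nat.card X) * (m * nS E₀ W * k) := by ring
    rw [e1, k1]
    ring
  exact Nat.eq_of_mul_eq_mul_left hm0 (Nat.eq_of_mul_eq_mul_left hm0 k3)

end Pool.Agent.PP.SE.H92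
end
end -- Pool.Agent.Helper92_ASE.FXS

section -- Pool.Agent.Helper86_ASE.CNT

/-!
# Squad ASE, row CNT: the number of characters of `b W`
-/

open scoped BigOperators

set_option autoImplicit false

noncomputable section

namespace Pool.Agent.PP.SE.H86

open Pool.Agent.Helper51_AWC Pool.Agent.Helper79_WRA Pool.Agent.PP Pool.Agent.PP.KF
open Pool.Agent.PP.K9 Pool.Agent.PP.K9.H97 Pool.Agent.PP.H75 Pool.Agent.PP.T3 Pool.Agent.PP.SO
open Pool.Agent.PP.SD Pool.Agent.PP.SE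

attribute [local instance] Ideal.Quotient.field

theorem cnt (gea : GeaStmt) (lnc : LncStmt) (rda : SD.RdaStmt) (kld : SD.KldStmt)
    (lnh : SD.LnhStmt) : CntStmt := by
  classical
  intro ℓ _ M _ hM hℓ V₀ G _ _ _ _ E₀ hE B hB W hW
  have _i : Fintype V₀ := Fintype.ofFinite V₀
  have _j : Fintype G := Fintype.ofFinite G
  have hlp : ℓ.Prime := Fact.out
  obtain ⟨⟨-, -, hcyc, -, -, -, hWb, -⟩, -, -, -, -, -, -, -, -, hreg⟩ := gea ℓ V₀ E₀ hE W hW
  obtain ⟨hS, B', hB', he, -, hi, hb, hC, -, -, hCh, -⟩ := rda ℓ M hM hℓ V₀ G E₀ hE B hB W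
  obtain ⟨h1, h2⟩ := kld ℓ M hM hℓ V₀ (B.C W) (St E₀ W) hS B' hB'
  -- the number of modular characters of `B'.e`
  have hnor : (W.map B'.i).Normal := by
    refine ⟨?_⟩
    rintro _ ⟨w, hw, rfl⟩ g
    have hg : B.i w * (g : G) = (g : G) * B.i w := by
      have h3 := g.2
      unfold Bk.C at h3
      exact Subgroup.mem_centralizer_iff.1 h3 _ ⟨w, hw, rfl⟩
    have h4 : g * B'.i w * g⁻¹ = B'.i w := by
      apply Subtype.ext
      change (g : G) * (B'.i w : G) * ((g : G))⁻¹ = (B'.i w : G)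
      rw [hi, ← hg, mul_inv_cancel_right]
    rw [h4]
    exact ⟨w, hw, rfl⟩
  have hln : ln B'.e = nS E₀ W := by
    rw [lnh ℓ M hM V₀ (B.C W) (St E₀ W) hS B' hB' W hWb hnor]
    exact lnc ℓ M hM hℓ V₀ (B.C W) (St E₀ W) hS B' hB' hcyc
  have hterm : ∀ v : V₀, Nat.card (Es (St E₀ W) v) *
      ln (fun t : B'.C (Subgroup.zpowers v) => B'.b (Subgroup.zpowers v) t) =
      if v ∈ W then nS E₀ W * nS E₀ W else 1 := by
    intro v
    by_cases hv : v ∈ W
    · rw [if_pos hv]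
      have hsup : W ⊔ Subgroup.zpowers v = W := sup_eq_left.2 (by
        rw [Subgroup.zpowers_le]
        exact hv)
      have hE1 : Es (St E₀ W) v = St E₀ W := by
        ext σ
        constructor
        · exact fun h => h.1
        · exact fun h => ⟨h, h.2 v hv⟩
      have htop : ∀ t : B.C W, t ∈ B'.C (Subgroup.zpowers v) := by
        intro t
        rw [hC, hsup]
        exact t.2
      have htop' : B'.C (Subgroup.zpowers v) = ⊤ := by
        rw [eq_top_iff]
        exact fun t _ => htop t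
      have hl : ln (fun t : B'.C (Subgroup.zpowers v) => B'.b (Subgroup.zpowers v) t) =
          ln B'.e := by
        refine SD.H86.lnj_ln ((MulEquiv.subgroupCongr htop').trans Subgroup.topEquiv) _ _ ?_
        intro t
        rw [hb, hsup, ← he]
        rfl
      rw [hE1, hl, hln]
      rfl
    · rw [if_neg hv]
      have hE1 : Es (St E₀ W) v = ⊥ := by
        rw [Subgroup.eq_bot_iff_forall]
        exact fun σ hσ => (hreg v hv).2 σ hσ.1 hσ.2
      have hR : Rw (St E₀ W) (Subgroup.zpowers v) := by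
        refine ⟨?_, fun σ hσ h => (hreg v hv).2 σ hσ (h v (Subgroup.mem_zpowers v))⟩
        intro h
        rw [Subgroup.zpowers_eq_bot] at h
        exact hv (h ▸ W.one_mem)
      rw [hE1, Subgroup.card_bot, h2 _ hR]
  have hcardW : (Finset.univ.filter (fun y => y ∈ W)).card = ℓ := by
    rw [← hW.1]
    rw [Nat.card_eq_fintype_card, Fintype.card_subtype]
  have hcardV : (Finset.univ : Finset V₀).card = ℓ ^ 2 := by
    rw [Finset.card_univ, ← Nat.card_eq_fintype_card, hE.cd]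
  have hsumcard : (Finset.univ.filter (fun y => y ∈ W)).card +
      (Finset.univ.filter (fun y => ¬ y ∈ W)).card = (Finset.univ : Finset V₀).card :=
    Finset.card_filter_add_card_filter_not (fun y => y ∈ W)
  rw [finsum_eq_sum_of_fintype, Finset.sum_congr rfl fun v _ => hterm v, Finset.sum_ite,
    Finset.sum_const, Finset.sum_const, hcardW, smul_eq_mul, smul_eq_mul, mul_one] at h1
  -- the characters
  have hfin : (IrrE M B'.e).Finite := by
    have h3 : (Irr (B.C W)).Finite := irr_finite'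
    exact h3.subset fun θ hθ => hθ.1
  let ex : (B.C W → ℂ) → G → ℂ := fun θ g => if h : g ∈ B.C W then θ ⟨g, h⟩ else 0
  have hex : ∀ θ : B.C W → ℂ, (fun t : B.C W => ex θ t) = θ := by
    intro θ
    funext t
    exact dif_pos t.2
  have hbij : Set.BijOn ex (IrrE M B'.e) (Ch B W) := by
    refine ⟨?_, ?_, ?_⟩
    · intro θ hθ
      rw [(hCh (ex θ) fun t ht => dif_neg ht).1, hex]
      exact hθ
    · intro θ _ θ' _ h
      rw [← hex θ, ← hex θ', h]
    · intro χ hχ
      refine ⟨fun t => χ t, (((hCh χ hχ.1).1).1 hχ), ?_⟩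
      funext g
      by_cases hg : g ∈ B.C W
      · exact dif_pos hg
      · change (if h : g ∈ B.C W then χ g else 0) = χ g
        rw [dif_neg hg, hχ.1 g hg]
  have hcard : (Ch B W).ncard = (IrrE M B'.e).ncard := by
    rw [← hbij.image_eq]
    exact Set.InjOn.ncard_image hbij.injOn
  refine ⟨hbij.image_eq ▸ hfin.image ex, ?_⟩
  rw [hcard]
  change Nat.card (St E₀ W) * (IrrE M B'.e).ncard = _
  rw [h1]
  rw [hcardW, hcardV] at hsumcard
  have h5 : (Finset.univ.filter (fun y => ¬ y ∈ W)).card = ℓ ^ 2 - ℓ := by omega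
  rw [h5, mul_add, sq, sq, Nat.mul_sub, mul_one]

end Pool.Agent.PP.SE.H86
end
end -- Pool.Agent.Helper86_ASE.CNT
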