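import Pool.Agent.Helper12_AWB.B171
import Pool.Agent.Helper12_AWB.B227
import Pool.Agent.Helper12_AWB.B268

/-!
# Merged copies (generated) of the modules

* `Pool.Agent.Helper82_ASD.GPD`
* `Pool.Agent.Helper91_ASD.Star`
* `Pool.Agent.Helper91_ASD.Fib`
* `Pool.Agent.Helper98_ASE.X2C`
-/

set_option autoImplicit false

section -- Pool.Agent.Helper82_ASD.GPD

/-!
# Squad ASD, row GPD: the product of the elements `f_x`, `f_(x'⁻¹)` under the conditions of `L`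
-/

open scoped BigOperators

set_option autoImplicit false

noncomputable section

namespace Pool.Agent.PP.SD.H82

open Pool.Agent.Helper51_AWC Pool.Agent.Helper79_WRA Pool.Agent.PP Pool.Agent.PP.KF
open Pool.Agent.PP.K9 Pool.Agent.PP.K9.H97 Pool.Agent.PP.H75 Pool.Agent.PP.T3 Pool.Agent.PP.SO
open Pool.Agent.PP.SO.H82 (memC conj_of_mem mem_of_conj prod_eq TT_fwd TT_bwd TT_C)

attribute [local instance] Ideal.Quotient.field

theorem rw_mono {V₀ : Type} [CommGroup V₀] {E₀ : Subgroup (MulAut V₀)} {W W' : Subgroup V₀}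
    (h : Rw E₀ W) (hle : W ≤ W') : Rw E₀ W' := by
  refine ⟨fun hb => h.1 (le_bot_iff.1 (hb ▸ hle)), fun σ hσ hfix => ?_⟩
  exact h.2 σ hσ fun w hw => hfix w (hle hw)

section blk

variable {V₀ G : Type} [CommGroup V₀] [Group G] [Finite G] {ℓ : ℕ}
  {M : Ideal (integralClosure ℤ ℂ)} [M.IsMaximal] {E₀ : Subgroup (MulAut V₀)}
  {B : Bk (FF M) V₀ G}

theorem bh_sing [Fact ℓ.Prime] (hM : (ℓ : integralClosure ℤ ℂ) ∈ M) (hB : Sb ℓ M E₀ B)
    (W : Subgroup V₀) (s : G) (hs : ¬ Reg ℓ s) : bh B W s = 0 := by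
  classical
  have := Fintype.ofFinite (B.C W)
  unfold bh PP.ext0
  by_cases h : s ∈ B.C W
  · rw [dif_pos h]
    refine K9.H25.eh_sing T3.H62.wbo_ ℓ M hM (fun t : B.C W => B.b W t) (hB.lb W).blk.blk.1
      ⟨s, h⟩ ?_
    intro h1
    apply hs
    have h2 : orderOf (⟨s, h⟩ : B.C W) = orderOf s := by
      rw [← Subgroup.orderOf_coe]
    have h3 : (orderOf (⟨s, h⟩ : B.C W)).Coprime ℓ := h1
    show (orderOf s).Coprime ℓ
    rw [← h2]
    exact h3
  · rw [dif_neg h]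

section count

variable {L : Set (V₀ × V₀ × ℤ)} {x x' : V₀}

/-- the number of the `w` -/
theorem card_TT (fuw : FudStmt) (cjt : CjdStmt) [Fact ℓ.Prime]
    (hM : (ℓ : integralClosure ℤ ℂ) ∈ M) (hℓ : ℓ ≠ 2) [Finite V₀] (hF : Fq ℓ V₀ E₀)
    (hB : Sb ℓ M E₀ B) (hne : Rw E₀ (p2 L ⊔ Subgroup.zpowers x')) :
    Nat.card {w : G // w ∈ SO.H82.TT B L x x' ∧ H75.cj w (B.b (p2 L ⊔ Subgroup.zpowers x')) =
      B.b (p1 L ⊔ Subgroup.zpowers x)} =
    Nat.card (B.C (p2 L ⊔ Subgroup.zpowers x')) *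
      {τ : MulAut V₀ | τ ∈ E₀ ∧ τ x = x' ∧ ∀ s ∈ L, τ (s.1 * x ^ s.2.2) = s.2.1}.ncard := by
  classical
  obtain ⟨W, hW⟩ : ∃ W, W = p1 L ⊔ Subgroup.zpowers x := ⟨_, rfl⟩
  obtain ⟨W', hW'⟩ : ∃ W', W' = p2 L ⊔ Subgroup.zpowers x' := ⟨_, rfl⟩
  obtain ⟨A, hA⟩ : ∃ A : Set (MulAut V₀),
      A = {τ : MulAut V₀ | τ ∈ E₀ ∧ τ x = x' ∧ ∀ s ∈ L, τ (s.1 * x ^ s.2.2) = s.2.1} := ⟨_, rfl⟩
  have hA' : ∀ τ : MulAut V₀, τ ∈ A ↔ τ ∈ E₀ ∧ τ x = x' ∧
      ∀ s ∈ L, τ (s.1 * x ^ s.2.2) = s.2.1 := by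
    intro τ
    rw [hA]
    rfl
  rw [← hW, ← hW', ← hA]
  rw [← hW'] at hne
  have hx' : x' ∈ W' := by
    rw [hW']; exact Subgroup.mem_sup_right (Subgroup.mem_zpowers x')
  have hq : ∀ s ∈ L, s.2.1 ∈ W' := by
    intro s hs
    rw [hW']
    exact Subgroup.mem_sup_left (Subgroup.subset_closure ⟨s, hs, rfl⟩)
  have hfwd : ∀ w ∈ SO.H82.TT B L x x', ∀ v ∈ W', ∃ u ∈ W, w * B.i v * w⁻¹ = B.i u := by
    intro w hw
    rw [hW, hW']
    exact TT_fwd hw
  have hbwd : ∀ w ∈ SO.H82.TT B L x x', ∀ u ∈ W, ∃ v ∈ W', w * B.i v * w⁻¹ = B.i u := by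
    intro w hw
    rw [hW, hW']
    exact TT_bwd hw
  have hAE : ∀ τ : A, (τ : MulAut V₀)⁻¹ ∈ E₀ := by
    intro τ
    exact E₀.inv_mem ((hA' _).1 τ.2).1
  have hch : ∀ τ : A, ∃ t ∈ Tg B.i.range B.g, ∀ v, t * B.i v * t⁻¹ = B.i ((τ : MulAut V₀)⁻¹ v) :=
    fun τ => hB.sur _ (hAE τ)
  choose t htT ht using hch
  have hkey : ∀ (τ : A) (c : G), c ∈ B.C W' → ∀ v ∈ W',
      (t τ * c) * B.i v * (t τ * c)⁻¹ = B.i ((τ : MulAut V₀)⁻¹ v) := by
    intro τ c hc v hv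
    rw [← ht τ v]
    have h1 := conj_of_mem B hc hv
    have h2 : (t τ * c) * B.i v * (t τ * c)⁻¹ = t τ * (c * B.i v * c⁻¹) * (t τ)⁻¹ := by group
    rw [h2, h1]
  have hTT : ∀ (τ : A) (c : G), c ∈ B.C W' → t τ * c ∈ SO.H82.TT B L x x' := by
    intro τ c hc
    obtain ⟨-, hτx, hτL⟩ := (hA' _).1 τ.2
    constructor
    · rw [hkey τ c hc x' hx', ← hτx]
      rw [MulAut.inv_apply_self]
    · intro s hs
      rw [hkey τ c hc _ (hq s hs), ← hτL s hs, MulAut.inv_apply_self]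
  have hmap : ∀ τ : A, W'.map ((τ : MulAut V₀)⁻¹).toMonoidHom = W := by
    intro τ
    have h1 := hTT τ 1 (B.C W').one_mem
    ext u
    constructor
    · rintro ⟨v, hv, rfl⟩
      obtain ⟨u, hu, e⟩ := hfwd _ h1 v hv
      rw [hkey τ 1 (B.C W').one_mem v hv] at e
      have h2 := hB.inj e
      change (τ : MulAut V₀)⁻¹ v ∈ W
      rw [h2]
      exact hu
    · intro hu
      obtain ⟨v, hv, e⟩ := hbwd _ h1 u hu
      rw [hkey τ 1 (B.C W').one_mem v hv] at e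
      exact ⟨v, hv, hB.inj e⟩
  have hcj : ∀ (τ : A) (c : G), c ∈ B.C W' → H75.cj (t τ * c) (B.b W') = B.b W := by
    intro τ c hc
    rw [← cj_cj, ((hB.lb W').blk.ix).inv hc]
    have h1 := (cjt ℓ M hM hℓ V₀ G E₀ hF B hB _ (hAE τ) (t τ) (htT τ) (ht τ) W').1
    rw [hmap τ] at h1
    exact h1
  have huniq : ∀ σ ∈ E₀, ∀ σ' ∈ E₀, (∀ v ∈ W', σ v = σ' v) → σ = σ' := by
    intro σ hσ σ' hσ' h
    have h2 : σ'⁻¹ * σ = 1 := by
      refine hne.2 _ (E₀.mul_mem (E₀.inv_mem hσ') hσ) fun w hw => ?_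
      rw [MulAut.mul_apply, h w hw, MulAut.inv_apply_self]
    exact (inv_mul_eq_one.1 h2).symm
  have hbij : Function.Bijective (fun p : B.C W' × A =>
      (⟨t p.2 * p.1, hTT p.2 p.1 p.1.2, hcj p.2 p.1 p.1.2⟩ :
        {w : G // w ∈ SO.H82.TT B L x x' ∧ H75.cj w (B.b W') = B.b W})) := by
    constructor
    · rintro ⟨c, τ⟩ ⟨c', τ'⟩ h
      have h1 : t τ * c = t τ' * c' := congrArg Subtype.val h
      have h2 : (τ : MulAut V₀)⁻¹ = (τ' : MulAut V₀)⁻¹ := by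
        refine huniq _ (hAE τ) _ (hAE τ') ?_
        intro v hv
        apply hB.inj
        rw [← hkey τ c c.2 v hv, ← hkey τ' c' c'.2 v hv, h1]
      have h3 : τ = τ' := Subtype.ext (inv_injective h2)
      subst h3
      have h4 : c = c' := Subtype.ext (mul_left_cancel h1)
      rw [h4]
    · rintro ⟨w, hw, hwb⟩
      have hf : ∀ v ∈ W', ∃ u ∈ W, w * B.i v * w⁻¹ = B.i u := hfwd w hw
      obtain ⟨f, hf'⟩ : ∃ f : V₀ → V₀, ∀ v ∈ W', f v ∈ W ∧ w * B.i v * w⁻¹ = B.i (f v) := by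
        refine ⟨fun v => if h : v ∈ W' then (hf v h).choose else 1, fun v hv => ?_⟩
        simp only [dif_pos hv]
        exact (hf v hv).choose_spec
      obtain ⟨σ, hσ, hfσ, -⟩ := fuw ℓ M hM V₀ G E₀ hF B hB W W' w f
        (fun v hv => (hf' v hv).2) (fun v hv => (hf' v hv).1) (fun u hu => by
          obtain ⟨v, hv, e⟩ := hbwd w hw u hu
          refine ⟨v, hv, ?_⟩
          apply hB.inj
          rw [← (hf' v hv).2, e]) hwb
      have hσv : ∀ v ∈ W', w * B.i v * w⁻¹ = B.i (σ v) := by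
        intro v hv
        rw [(hf' v hv).2, hfσ v hv]
      have hσx : σ x' = x := by
        apply hB.inj
        rw [← hσv x' hx', hw.1]
      have hσL : ∀ s ∈ L, σ s.2.1 = s.1 * x ^ s.2.2 := by
        intro s hs
        apply hB.inj
        rw [← hσv _ (hq s hs), hw.2 s hs]
      have hmem : σ⁻¹ ∈ A := by
        rw [hA']
        refine ⟨E₀.inv_mem hσ, ?_, ?_⟩
        · rw [← hσx, MulAut.inv_apply_self]
        · intro s hs
          rw [← hσL s hs, MulAut.inv_apply_self]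
      have hcm : (t ⟨σ⁻¹, hmem⟩)⁻¹ * w ∈ B.C W' := by
        apply mem_of_conj
        intro v hv
        have h1 := ht ⟨σ⁻¹, hmem⟩ v
        have h2 : ((⟨σ⁻¹, hmem⟩ : A) : MulAut V₀)⁻¹ = σ := inv_inv σ
        rw [h2, ← hσv v hv] at h1
        have h3 : (t ⟨σ⁻¹, hmem⟩)⁻¹ * w * B.i v * ((t ⟨σ⁻¹, hmem⟩)⁻¹ * w)⁻¹ =
            (t ⟨σ⁻¹, hmem⟩)⁻¹ * (w * B.i v * w⁻¹) * t ⟨σ⁻¹, hmem⟩ := by group
        rw [h3, ← h1]
        group
      refine ⟨(⟨_, hcm⟩, ⟨σ⁻¹, hmem⟩), ?_⟩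
      apply Subtype.ext
      change t ⟨σ⁻¹, hmem⟩ * ((t ⟨σ⁻¹, hmem⟩)⁻¹ * w) = w
      rw [mul_inv_cancel_left]
  rw [← Nat.card_congr (Equiv.ofBijective _ hbij), Nat.card_prod]
  rfl

end count

omit [Finite G] in
/-- the `m`-th power of `i(x) s` -/
theorem pow_m {n m : ℕ} (hF : Fq ℓ V₀ E₀) (hPE : PE ℓ n m G) {W : Subgroup V₀} {x : V₀}
    (hx : x ∈ W) {s : G} (hs : s ∈ B.C W) (hr : Reg ℓ s) : (B.i x * s) ^ m = B.i x := by
  have h1 : Commute (B.i x) s := (memC B W s).1 hs x hx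
  rw [h1.mul_pow, hPE.rg s hr, mul_one]
  refine (hPE.el (B.i x) ⟨1, ?_⟩).1
  rw [pow_one, ← map_pow, hF.ex, map_one]

end blk

/-- GPD -/
theorem gpd (nsv : NsdStmt) (fuw : FudStmt) (cjt : CjdStmt) : GpdStmt := by
  intro ℓ _ M _ hM hℓ V₀ G _ _ _ _ E₀ hFr B hSy n m hPE L hL1 hL2 x x'
  classical
  have := Fintype.ofFinite G
  have := Fintype.ofFinite (B.C (p1 L))
  have := Fintype.ofFinite (B.C (p2 L))
  obtain ⟨W, hW⟩ : ∃ W, W = p1 L ⊔ Subgroup.zpowers x := ⟨_, rfl⟩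
  obtain ⟨W', hW'⟩ : ∃ W', W' = p2 L ⊔ Subgroup.zpowers x' := ⟨_, rfl⟩
  have hx : x ∈ W := by
    rw [hW]; exact Subgroup.mem_sup_right (Subgroup.mem_zpowers x)
  have hx' : x' ∈ W' := by
    rw [hW']; exact Subgroup.mem_sup_right (Subgroup.mem_zpowers x')
  have hWne : Rw E₀ W := by
    rw [hW]
    exact rw_mono hL1 le_sup_left
  have hWne' : Rw E₀ W' := by
    rw [hW']
    exact rw_mono hL2 le_sup_left
  have hreg : ∀ (U : Subgroup V₀) (s : G), bh B U s ≠ 0 → s ∈ B.C U ∧ Reg ℓ s := by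
    intro U s hs
    constructor
    · by_contra h
      exact hs (SO.H10L.bh_supp B U s h)
    · by_contra h
      exact hs (bh_sing hM hSy.toSb U s h)
  -- the terms
  have key : ∀ s w : G, (if (∀ r ∈ L, w * B.i r.2.1 * w⁻¹ =
        B.i r.1 * ((B.i x * s) ^ m) ^ r.2.2) then
      bh B W s * bh B W' (B.i x' * (w⁻¹ * (s⁻¹ * (B.i x)⁻¹) * w)) else 0) =
      if w ∈ SO.H82.TT B L x x' then bh B W s * bh B W' (w⁻¹ * s⁻¹ * w) else 0 := by
    intro s w
    by_cases hs : bh B W s = 0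
    · rw [hs, zero_mul, zero_mul, ite_self, ite_self]
    obtain ⟨hsC, hsR⟩ := hreg W s hs
    have hp : (B.i x * s) ^ m = B.i x := pow_m hFr hPE hx hsC hsR
    have hcond : (∀ r ∈ L, w * B.i r.2.1 * w⁻¹ = B.i r.1 * ((B.i x * s) ^ m) ^ r.2.2) ↔
        ∀ r ∈ L, w * B.i r.2.1 * w⁻¹ = B.i (r.1 * x ^ r.2.2) := by
      rw [hp]
      constructor
      · intro h r hr
        rw [h r hr, map_mul, map_zpow]
      · intro h r hr
        rw [h r hr, map_mul, map_zpow]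
    by_cases hc : ∀ r ∈ L, w * B.i r.2.1 * w⁻¹ = B.i (r.1 * x ^ r.2.2)
    · rw [if_pos (hcond.2 hc)]
      by_cases hxx : w * B.i x' * w⁻¹ = B.i x
      · rw [if_pos (show w ∈ SO.H82.TT B L x x' from ⟨hxx, hc⟩)]
        congr 2
        have h1 : Commute (B.i x) s := (memC B W s).1 hsC x hx
        have h2 : B.i x' = w⁻¹ * B.i x * w := by rw [← hxx]; group
        have h3 : B.i x * (s⁻¹ * (B.i x)⁻¹) = s⁻¹ := by
          rw [← mul_assoc, (h1.inv_right).eq, mul_inv_cancel_right]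
        rw [h2]
        calc w⁻¹ * B.i x * w * (w⁻¹ * (s⁻¹ * (B.i x)⁻¹) * w)
            = w⁻¹ * (B.i x * (s⁻¹ * (B.i x)⁻¹)) * w := by group
          _ = w⁻¹ * s⁻¹ * w := by rw [h3]
      · rw [if_neg (show w ∉ SO.H82.TT B L x x' from fun h => hxx h.1)]
        rw [mul_eq_zero]
        right
        by_contra hne
        obtain ⟨hC', hR'⟩ := hreg W' _ hne
        obtain ⟨s', hs'⟩ : ∃ s', s' = B.i x' * (w⁻¹ * (s⁻¹ * (B.i x)⁻¹) * w) := ⟨_, rfl⟩
        rw [← hs'] at hC' hR'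
        have h1 : B.i x'⁻¹ * s' = w⁻¹ * (s⁻¹ * (B.i x)⁻¹) * w := by
          rw [hs', map_inv, inv_mul_cancel_left]
        have h2 : (B.i x'⁻¹ * s') ^ m = B.i x'⁻¹ :=
          pow_m hFr hPE (W'.inv_mem hx') hC' hR'
        have h3 : (s⁻¹ * (B.i x)⁻¹) ^ m = (B.i x)⁻¹ := by
          rw [← mul_inv_rev, inv_pow, hp]
        have h4 : (w⁻¹ * (s⁻¹ * (B.i x)⁻¹) * w) ^ m = w⁻¹ * (B.i x)⁻¹ * w := by
          have h5 := conj_pow (a := w⁻¹) (b := s⁻¹ * (B.i x)⁻¹) (i := m)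
          rw [inv_inv, h3] at h5
          exact h5
        rw [h1, h4, map_inv] at h2
        apply hxx
        have h6 : B.i x' = w⁻¹ * B.i x * w := by
          rw [← inv_inj, ← h2]
          group
        rw [h6]
        group
    · rw [if_neg (fun h => hc (hcond.1 h)), if_neg (fun h => hc h.2)]
  -- the functions `fc`
  have hf1 : ∀ g, fc B (p1 L) x g = (Nat.card (B.C W) : ℂ)⁻¹ *
      ∑ z : B.C (p1 L), bh B W ((B.i x)⁻¹ * ((z : G)⁻¹ * g * z)) := by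
    intro g
    unfold fc
    rw [finsum_eq_sum_of_fintype, hW]
  have hf2 : ∀ g, fc B (p2 L) x'⁻¹ g = (Nat.card (B.C W') : ℂ)⁻¹ *
      ∑ z : B.C (p2 L), bh B W' (B.i x' * ((z : G)⁻¹ * g * z)) := by
    intro g
    unfold fc
    rw [finsum_eq_sum_of_fintype, Subgroup.zpowers_inv, ← hW', map_inv, inv_inv]
  obtain ⟨K, hK⟩ : ∃ K : ℂ, K = ∑ p : G × G, if p.2 ∈ SO.H82.TT B L x x' then
    bh B W p.1 * bh B W' (p.2⁻¹ * p.1⁻¹ * p.2) else 0 := ⟨_, rfl⟩
  -- the substitution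
  have hsub : ∀ (z : B.C (p1 L)) (z' : B.C (p2 L)), (∑ w : G × G,
      if w ∈ {w : G × G | ∀ s ∈ L, w.2 * B.i s.2.1 * w.2⁻¹ = B.i s.1 * (w.1 ^ m) ^ s.2.2} then
        bh B W ((B.i x)⁻¹ * ((z : G)⁻¹ * w.1 * z)) *
          bh B W' (B.i x' * ((z' : G)⁻¹ * (w.2⁻¹ * w.1⁻¹ * w.2) * z')) else 0) = K := by
    intro z z'
    let e : G × G ≃ G × G :=
      { toFun := fun p => ((z : G) * (B.i x * p.1) * (z : G)⁻¹, (z : G) * p.2 * (z' : G)⁻¹)
        invFun := fun p => ((B.i x)⁻¹ * ((z : G)⁻¹ * p.1 * z), (z : G)⁻¹ * p.2 * z')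
        left_inv := fun p => Prod.ext (by dsimp only; group) (by dsimp only; group)
        right_inv := fun p => Prod.ext (by dsimp only; group) (by dsimp only; group) }
    rw [hK, ← e.sum_comp]
    refine Finset.sum_congr rfl fun p _ => ?_
    rw [← key p.1 p.2]
    have e1 : (e p).1 = (z : G) * (B.i x * p.1) * (z : G)⁻¹ := rfl
    have e2 : (e p).2 = (z : G) * p.2 * (z' : G)⁻¹ := rfl
    have hc : (e p ∈ {w : G × G | ∀ s ∈ L, w.2 * B.i s.2.1 * w.2⁻¹ =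
        B.i s.1 * (w.1 ^ m) ^ s.2.2}) ↔ ∀ r ∈ L, p.2 * B.i r.2.1 * p.2⁻¹ =
        B.i r.1 * ((B.i x * p.1) ^ m) ^ r.2.2 := by
      rw [Set.mem_setOf_eq, e1, e2]
      refine forall₂_congr fun r hr => ?_
      have h1 : r.1 ∈ p1 L := Subgroup.subset_closure ⟨r, hr, rfl⟩
      have h2 : r.2.1 ∈ p2 L := Subgroup.subset_closure ⟨r, hr, rfl⟩
      have h3 := conj_of_mem B z.2 h1
      have h4 := conj_of_mem B ((B.C (p2 L)).inv_mem z'.2) h2
      rw [inv_inv] at h4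
      have h5 : (z : G) * p.2 * (z' : G)⁻¹ * B.i r.2.1 * ((z : G) * p.2 * (z' : G)⁻¹)⁻¹ =
          (z : G) * (p.2 * ((z' : G)⁻¹ * B.i r.2.1 * z') * p.2⁻¹) * (z : G)⁻¹ := by group
      have h6 : ((z : G) * (B.i x * p.1) * (z : G)⁻¹) ^ m =
          (z : G) * (B.i x * p.1) ^ m * (z : G)⁻¹ := conj_pow
      rw [h5, h4, h6, conj_zpow]
      constructor
      · intro h
        have h7 : p.2 * B.i r.2.1 * p.2⁻¹ = (z : G)⁻¹ * ((z : G) *
          (p.2 * B.i r.2.1 * p.2⁻¹) * (z : G)⁻¹) * z := by group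
        rw [h7, h]
        have h8 : (z : G)⁻¹ * (B.i r.1 * ((z : G) * ((B.i x * p.1) ^ m) ^ r.2.2 * (z : G)⁻¹)) * z =
          ((z : G)⁻¹ * B.i r.1 * z) * ((B.i x * p.1) ^ m) ^ r.2.2 := by group
        rw [h8]
        congr 1
        conv_lhs => rw [← h3]
        group
      · intro h
        rw [h]
        conv_rhs => rw [← h3]
        group
    by_cases h : ∀ r ∈ L, p.2 * B.i r.2.1 * p.2⁻¹ = B.i r.1 * ((B.i x * p.1) ^ m) ^ r.2.2
    · rw [if_pos (hc.2 h), if_pos h, e1, e2]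
      congr 2
      · group
      · group
    · rw [if_neg (fun h' => h (hc.1 h')), if_neg h]
  -- the value of `K`
  have hKval : K = (Nat.card {w : G // w ∈ SO.H82.TT B L x x' ∧ H75.cj w (B.b W') = B.b W} : ℂ) *
      bh B W 1 := by
    rw [hK, Fintype.sum_prod_type_right]
    have h1 : ∀ w : G, (∑ s : G, if w ∈ SO.H82.TT B L x x' then
        bh B W s * bh B W' (w⁻¹ * s⁻¹ * w) else 0) =
        if w ∈ SO.H82.TT B L x x' ∧ H75.cj w (B.b W') = B.b W then bh B W 1 else 0 := by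
      intro w
      by_cases hw : w ∈ SO.H82.TT B L x x'
      · simp only [if_pos hw]
        have hC : ∀ y, y ∈ B.C W ↔ w⁻¹ * y * w ∈ B.C W' := by
          rw [hW, hW']
          exact TT_C hw
        rw [← finsum_eq_sum_of_fintype, prod_eq hSy.toSb hC]
        by_cases hb : H75.cj w (B.b W') = B.b W
        · rw [if_pos hb, if_pos ⟨hw, hb⟩]
        · rw [if_neg hb, if_neg (fun h => hb h.2)]
      · rw [if_neg (fun h => hw h.1)]
        refine Finset.sum_eq_zero fun s _ => ?_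
        rw [if_neg hw]
    rw [Finset.sum_congr rfl fun w _ => h1 w, ← Finset.sum_filter, Finset.sum_const, nsmul_eq_mul,
      Nat.card_eq_fintype_card, Fintype.card_subtype]
  have hcard := card_TT (B := B) (L := L) (x := x) (x' := x') fuw cjt hM hℓ hFr hSy.toSb
    (by rw [← hW']; exact hWne')
  rw [← hW, ← hW'] at hcard
  have hbh : bh B W 1 = ℓ ^ 2 * B.D W ^ 2 / Nat.card (B.C W) :=
    (nsv ℓ M hM hℓ V₀ G E₀ hFr B hSy W hWne).2.2.2.2.2.2
  -- assembly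
  rw [← hW, finsum_mem_def, finsum_eq_sum_of_fintype]
  have hexp : ∀ w : G × G, Set.indicator {w : G × G | ∀ s ∈ L, w.2 * B.i s.2.1 * w.2⁻¹ =
      B.i s.1 * (w.1 ^ m) ^ s.2.2} (fun w : G × G => fc B (p1 L) x w.1 *
        fc B (p2 L) x'⁻¹ (w.2⁻¹ * w.1⁻¹ * w.2)) w =
      (Nat.card (B.C W) : ℂ)⁻¹ * (Nat.card (B.C W') : ℂ)⁻¹ * ∑ z : B.C (p1 L),
        ∑ z' : B.C (p2 L),
        if w ∈ {w : G × G | ∀ s ∈ L, w.2 * B.i s.2.1 * w.2⁻¹ = B.i s.1 * (w.1 ^ m) ^ s.2.2} then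
        bh B W ((B.i x)⁻¹ * ((z : G)⁻¹ * w.1 * z)) *
          bh B W' (B.i x' * ((z' : G)⁻¹ * (w.2⁻¹ * w.1⁻¹ * w.2) * z')) else 0 := by
    intro w
    rw [Set.indicator_apply]
    by_cases h : w ∈ {w : G × G | ∀ s ∈ L, w.2 * B.i s.2.1 * w.2⁻¹ = B.i s.1 * (w.1 ^ m) ^ s.2.2}
    · simp only [if_pos h]
      rw [hf1, hf2, mul_mul_mul_comm, Finset.sum_mul_sum]
    · simp only [if_neg h, Finset.sum_const_zero, mul_zero]
  rw [Finset.sum_congr rfl fun w _ => hexp w, ← Finset.mul_sum, Finset.sum_comm]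
  have hin : ∀ z : B.C (p1 L), (∑ w : G × G, ∑ z' : B.C (p2 L),
        if w ∈ {w : G × G | ∀ s ∈ L, w.2 * B.i s.2.1 * w.2⁻¹ = B.i s.1 * (w.1 ^ m) ^ s.2.2} then
        bh B W ((B.i x)⁻¹ * ((z : G)⁻¹ * w.1 * z)) *
          bh B W' (B.i x' * ((z' : G)⁻¹ * (w.2⁻¹ * w.1⁻¹ * w.2) * z')) else 0) =
      Nat.card (B.C (p2 L)) * K := by
    intro z
    rw [Finset.sum_comm, Finset.sum_congr rfl fun z' _ => hsub z z', Finset.sum_const,
      nsmul_eq_mul, Nat.card_eq_fintype_card]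
    rfl
  rw [Finset.sum_congr rfl fun z _ => hin z, Finset.sum_const, nsmul_eq_mul, hKval, hcard, hbh]
  have hn1 : (Nat.card (B.C W) : ℂ) ≠ 0 := by
    exact_mod_cast (Nat.card_pos (α := B.C W)).ne'
  have hn2 : (Nat.card (B.C W') : ℂ) ≠ 0 := by
    exact_mod_cast (Nat.card_pos (α := B.C W')).ne'
  have hcu : (Finset.univ : Finset (B.C (p1 L))).card = Nat.card (B.C (p1 L)) := by
    rw [Nat.card_eq_fintype_card]
    rfl
  rw [hcu]
  push_cast
  field_simp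

end Pool.Agent.PP.SD.H82
end
end -- Pool.Agent.Helper82_ASD.GPD

section -- Pool.Agent.Helper91_ASD.Star

/-!
# Squad ASD: `W12` as a sum over the `u` (first part of W12A, W2A, W2X)
-/

open scoped BigOperators

set_option autoImplicit false

noncomputable section

namespace Pool.Agent.PP.SD.H91

open Pool.Agent.Helper51_AWC Pool.Agent.Helper79_WRA Pool.Agent.PP Pool.Agent.PP.KF
open Pool.Agent.PP.K9 Pool.Agent.PP.K9.H97 Pool.Agent.PP.H75 Pool.Agent.PP.T3 Pool.Agent.PP.SO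

attribute [local instance] Ideal.Quotient.field

section count

variable {V₀ G : Type} [CommGroup V₀] [Group G] {n : ℕ}

/-- the conditions for `(x, y)` with the commutator `κ` -/
def cn (m : ℕ) (ι : V₀ →* G) (L : Set (SO.SS n V₀)) (κ x y : G) : Prop :=
  ∀ s ∈ L, ((κ ^ m) ^ (s.2.1 : ℕ))⁻¹ * x * (κ ^ m) ^ (s.2.1 : ℕ) = ι s.2.2.1 * x * (ι s.2.2.1)⁻¹ ∧
    ((κ ^ m) ^ (s.2.1 : ℕ))⁻¹ * (y * (x ^ m) ^ (s.1 : ℕ)) * (κ ^ m) ^ (s.2.1 : ℕ) =
      ι s.2.2.1 * y * (ι s.2.2.1)⁻¹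

/-- the pairs with the commutator `κ` and the conditions -/
def Ps (m : ℕ) (ι : V₀ →* G) (L : Set (SO.SS n V₀)) (κ : G) : Set (G × G) :=
  {w | SO.kap w.1 w.2 = κ ∧ cn m ι L κ w.1 w.2}

/-- the number of the pairs -/
def Rk (m : ℕ) (ι : V₀ →* G) (L : Set (SO.SS n V₀)) (κ : G) : ℂ := ((Ps m ι L κ).ncard : ℂ)

/-- the elements `u` with `u q u⁻¹ = p` for all of `L` -/
def UU (ι : V₀ →* G) (L : Set (SO.SS n V₀)) : Set G :=
  {u | ∀ s ∈ L, u = ι s.2.2.1 * u * (ι s.2.2.2)⁻¹}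

/-- a number as a sum -/
theorem ncard_sum {A : Type} [Fintype A] (T : Set A) [DecidablePred (· ∈ T)] :
    (T.ncard : ℂ) = ∑ a, if a ∈ T then (1 : ℂ) else 0 := by
  classical
  have h1 : T = ((Finset.univ.filter (· ∈ T) : Finset A) : Set A) := by
    ext a
    simp
  rw [Finset.sum_boole]
  conv_lhs => rw [h1, Set.ncard_coe_finset]

open Classical in
/-- the number of the triples as a sum over `u` -/
theorem count [Fintype G] (m : ℕ) (ι : V₀ →* G) (L : Set (SO.SS n V₀)) (g h : G) :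
    ({z : XX g h | ∀ s ∈ L,
      c12 m ι z.1.1 z.1.2.1 z.1.2.2 s.1 s.2.1 s.2.2.1 s.2.2.2}.ncard : ℂ) =
      ∑ u : G, if u ∈ UU ι L then Rk m ι L (g * (u * h * u⁻¹)) else 0 := by
  obtain ⟨S, hS⟩ : ∃ S : Set (XX g h), S = {z : XX g h | ∀ s ∈ L,
      c12 m ι z.1.1 z.1.2.1 z.1.2.2 s.1 s.2.1 s.2.2.1 s.2.2.2} := ⟨_, rfl⟩
  obtain ⟨T, hT⟩ : ∃ T : Set (G × G × G), T = {w : G × G × G |
      w.1 * w.2.1 * w.1⁻¹ * w.2.1⁻¹ = g * (w.2.2 * h * w.2.2⁻¹) ∧ ∀ s ∈ L,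
      c12 m ι w.1 w.2.1 w.2.2 s.1 s.2.1 s.2.2.1 s.2.2.2} := ⟨_, rfl⟩
  have h1 : (fun z : XX g h => (z.1 : G × G × G)) '' S = T := by
    ext w
    rw [hS, hT]
    constructor
    · rintro ⟨z, hz, rfl⟩
      exact ⟨z.2, hz⟩
    · rintro ⟨hw1, hw2⟩
      exact ⟨⟨w, hw1⟩, hw2, rfl⟩
  have hinj : Function.Injective (fun z : XX g h => (z.1 : G × G × G)) :=
    fun a b hab => Subtype.ext hab
  rw [← hS, ← Set.ncard_image_of_injective S hinj, h1, ncard_sum]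
  let e : G × (G × G) ≃ G × G × G :=
    { toFun := fun p => (p.2.1, p.2.2, p.1)
      invFun := fun w => (w.2.2, (w.1, w.2.1))
      left_inv := fun _ => rfl
      right_inv := fun _ => rfl }
  rw [← e.sum_comp, Fintype.sum_prod_type]
  refine Finset.sum_congr rfl fun u _ => ?_
  have hiff : ∀ p : G × G, e (u, p) ∈ T ↔ u ∈ UU ι L ∧ p ∈ Ps m ι L (g * (u * h * u⁻¹)) := by
    intro p
    rw [hT]
    constructor
    · rintro ⟨h2, h3⟩
      have h2' : SO.kap p.1 p.2 = g * (u * h * u⁻¹) := h2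
      refine ⟨fun s hs => (h3 s hs).2.2, h2', fun s hs => ?_⟩
      have h4 := (h3 s hs).1
      have h5 := (h3 s hs).2.1
      change ((SO.kap p.1 p.2 ^ m) ^ (s.2.1 : ℕ))⁻¹ * p.1 * (SO.kap p.1 p.2 ^ m) ^ (s.2.1 : ℕ) =
        ι s.2.2.1 * p.1 * (ι s.2.2.1)⁻¹ at h4
      change ((SO.kap p.1 p.2 ^ m) ^ (s.2.1 : ℕ))⁻¹ * (p.2 * (p.1 ^ m) ^ (s.1 : ℕ)) *
        (SO.kap p.1 p.2 ^ m) ^ (s.2.1 : ℕ) = ι s.2.2.1 * p.2 * (ι s.2.2.1)⁻¹ at h5
      rw [h2'] at h4 h5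
      exact ⟨h4, h5⟩
    · rintro ⟨h2, h3, h4⟩
      refine ⟨h3, fun s hs => ?_⟩
      obtain ⟨h5, h6⟩ := h4 s hs
      rw [← h3] at h5 h6
      exact ⟨h5, h6, h2 s hs⟩
  by_cases hu : u ∈ UU ι L
  · rw [if_pos hu]
    unfold Rk
    rw [ncard_sum]
    refine Finset.sum_congr rfl fun p _ => ?_
    by_cases hp : p ∈ Ps m ι L (g * (u * h * u⁻¹))
    · rw [if_pos hp, if_pos ((hiff p).2 ⟨hu, hp⟩)]
    · rw [if_neg hp, if_neg fun h => hp ((hiff p).1 h).2]
  · rw [if_neg hu]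
    refine Finset.sum_eq_zero fun p _ => ?_
    rw [if_neg fun h => hu ((hiff p).1 h).1]

theorem kap_conj (φ : G ≃* G) (x y : G) : SO.kap (φ x) (φ y) = φ (SO.kap x y) := by
  unfold SO.kap
  simp only [map_mul, map_inv]

/-- conjugation with the elements which commute with all `p` -/
theorem Rk_conj (m : ℕ) (ι : V₀ →* G) (L : Set (SO.SS n V₀)) (z κ : G)
    (hz : ∀ s ∈ L, z * ι s.2.2.1 * z⁻¹ = ι s.2.2.1) :
    Rk m ι L (z * κ * z⁻¹) = Rk m ι L κ := by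
  obtain ⟨φ, hφ⟩ : ∃ φ : G ≃* G, ∀ x, φ x = z * x * z⁻¹ := ⟨MulAut.conj z, fun x => rfl⟩
  have hp : ∀ s ∈ L, φ (ι s.2.2.1) = ι s.2.2.1 := fun s hs => by rw [hφ, hz s hs]
  have hcn : ∀ x y, cn m ι L (φ κ) (φ x) (φ y) ↔ cn m ι L κ x y := by
    intro x y
    unfold cn
    refine forall₂_congr fun s hs => ?_
    constructor
    · rintro ⟨h1, h2⟩
      constructor
      · apply φ.injective
        simp only [map_mul, map_inv, map_pow, hp s hs]
        exact h1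
      · apply φ.injective
        simp only [map_mul, map_inv, map_pow, hp s hs]
        exact h2
    · rintro ⟨h1, h2⟩
      have h3 := congrArg φ h1
      have h4 := congrArg φ h2
      simp only [map_mul, map_inv, map_pow, hp s hs] at h3 h4
      exact ⟨h3, h4⟩
  have hP : (fun w : G × G => (φ w.1, φ w.2)) '' Ps m ι L κ = Ps m ι L (φ κ) := by
    ext w
    constructor
    · rintro ⟨w', ⟨h1, h2⟩, rfl⟩
      refine ⟨?_, (hcn _ _).2 h2⟩
      change SO.kap (φ w'.1) (φ w'.2) = φ κ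
      rw [kap_conj, h1]
    · rintro ⟨h1, h2⟩
      refine ⟨(φ.symm w.1, φ.symm w.2), ⟨?_, ?_⟩, ?_⟩
      · apply φ.injective
        rw [← kap_conj]
        simpa using h1
      · apply (hcn _ _).1
        simpa using h2
      · simp
  have hinj : Function.Injective (fun w : G × G => (φ w.1, φ w.2)) := by
    intro a b hab
    have h1 : φ a.1 = φ b.1 := congrArg Prod.fst hab
    have h2 : φ a.2 = φ b.2 := congrArg Prod.snd hab
    exact Prod.ext (φ.injective h1) (φ.injective h2)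
  unfold Rk
  rw [← hφ, ← hP, Set.ncard_image_of_injective _ hinj]

theorem UU_move (ι : V₀ →* G) (L : Set (SO.SS n V₀)) (z z' u : G)
    (hz : ∀ s ∈ L, z * ι s.2.2.1 * z⁻¹ = ι s.2.2.1)
    (hz' : ∀ s ∈ L, z' * ι s.2.2.2 * z'⁻¹ = ι s.2.2.2) :
    z * u * z'⁻¹ ∈ UU ι L ↔ u ∈ UU ι L := by
  refine forall₂_congr fun s hs => ?_
  have h1 : ι s.2.2.1 * z = z * ι s.2.2.1 := by
    conv_lhs => rw [← hz s hs]
    group
  have h2 : z'⁻¹ * (ι s.2.2.2)⁻¹ = (ι s.2.2.2)⁻¹ * z'⁻¹ := by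
    have h3 : ι s.2.2.2 * z' = z' * ι s.2.2.2 := by
      conv_lhs => rw [← hz' s hs]
      group
    rw [← mul_inv_rev, h3, mul_inv_rev]
  have h4 : ι s.2.2.1 * (z * u * z'⁻¹) * (ι s.2.2.2)⁻¹ =
      z * (ι s.2.2.1 * u * (ι s.2.2.2)⁻¹) * z'⁻¹ := by
    calc ι s.2.2.1 * (z * u * z'⁻¹) * (ι s.2.2.2)⁻¹
        = (ι s.2.2.1 * z) * u * (z'⁻¹ * (ι s.2.2.2)⁻¹) := by group
      _ = _ := by rw [h1, h2]; group
  rw [h4]
  constructor
  · intro h
    exact mul_left_cancel (mul_right_cancel h)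
  · intro h
    rw [← h]

open Classical in
/-- the sum over `u` -/
def Th [Fintype G] (m : ℕ) (ι : V₀ →* G) (L : Set (SO.SS n V₀)) (g h : G) : ℂ :=
  ∑ u : G, if u ∈ UU ι L then Rk m ι L (g * (u * h * u⁻¹)) else 0

theorem Th_conj [Fintype G] (m : ℕ) (ι : V₀ →* G) (L : Set (SO.SS n V₀)) (z z' g h : G)
    (hz : ∀ s ∈ L, z * ι s.2.2.1 * z⁻¹ = ι s.2.2.1)
    (hz' : ∀ s ∈ L, z' * ι s.2.2.2 * z'⁻¹ = ι s.2.2.2) :
    Th m ι L (z * g * z⁻¹) (z' * h * z'⁻¹) = Th m ι L g h := by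
  unfold Th
  rw [← ((Equiv.mulLeft z).trans (Equiv.mulRight z'⁻¹)).sum_comp]
  refine Finset.sum_congr rfl fun u _ => ?_
  have e1 : ((Equiv.mulLeft z).trans (Equiv.mulRight z'⁻¹)) u = z * u * z'⁻¹ := rfl
  rw [e1]
  have h1 : z * g * z⁻¹ * (z * u * z'⁻¹ * (z' * h * z'⁻¹) * (z * u * z'⁻¹)⁻¹) =
      z * (g * (u * h * u⁻¹)) * z⁻¹ := by group
  rw [h1, Rk_conj m ι L z _ hz]
  by_cases hu : u ∈ UU ι L
  · rw [if_pos hu, if_pos ((UU_move ι L z z' u hz hz').2 hu)]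
  · rw [if_neg hu, if_neg fun h => hu ((UU_move ι L z z' u hz hz').1 h)]

end count

section blk

variable {V₀ G : Type} [CommGroup V₀] [Group G] [Finite G] {n : ℕ}
  {M : Ideal (integralClosure ℤ ℂ)} [M.IsMaximal]

/-- sums with `fc` and a function invariant under conjugation with `C W` -/
theorem fc_Psi [Fintype G] (B : Bk (FF M) V₀ G) (W : Subgroup V₀) (c : V₀) (Ψ : G → ℂ)
    (hΨ : ∀ z ∈ B.C W, ∀ g, Ψ (z * g * z⁻¹) = Ψ g) :
    ∑ g, fc B W c g * Ψ g = (Nat.card (B.C W) : ℂ) *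
      (Nat.card (B.C (W ⊔ Subgroup.zpowers c)) : ℂ)⁻¹ *
        ∑ s, bh B (W ⊔ Subgroup.zpowers c) s * Ψ (B.i c * s) := by
  classical
  have := Fintype.ofFinite (B.C W)
  have h1 : ∀ g, fc B W c g * Ψ g = (Nat.card (B.C (W ⊔ Subgroup.zpowers c)) : ℂ)⁻¹ *
      ∑ z : B.C W, bh B (W ⊔ Subgroup.zpowers c) ((B.i c)⁻¹ * ((z : G)⁻¹ * g * z)) * Ψ g := by
    intro g
    unfold fc
    rw [finsum_eq_sum_of_fintype, mul_assoc, Finset.sum_mul]
  rw [Finset.sum_congr rfl fun g _ => h1 g, ← Finset.mul_sum, Finset.sum_comm]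
  have h2 : ∀ z : B.C W,
      ∑ g, bh B (W ⊔ Subgroup.zpowers c) ((B.i c)⁻¹ * ((z : G)⁻¹ * g * z)) * Ψ g =
      ∑ s, bh B (W ⊔ Subgroup.zpowers c) s * Ψ (B.i c * s) := by
    intro z
    let e : G ≃ G :=
      { toFun := fun s => (z : G) * (B.i c * s) * (z : G)⁻¹
        invFun := fun g => (B.i c)⁻¹ * ((z : G)⁻¹ * g * z)
        left_inv := fun s => by group
        right_inv := fun g => by group }
    rw [← e.sum_comp]
    refine Finset.sum_congr rfl fun s _ => ?_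
    have e1 : e s = (z : G) * (B.i c * s) * (z : G)⁻¹ := rfl
    rw [e1, hΨ z z.2]
    congr 2
    group
  have h3 : (Finset.univ : Finset (B.C W)).card = Nat.card (B.C W) := by
    rw [Nat.card_eq_fintype_card]
    rfl
  rw [Finset.sum_congr rfl fun z _ => h2 z, Finset.sum_const, nsmul_eq_mul, h3]
  ring

omit [Finite G] [M.IsMaximal] in
theorem comm_p (B : Bk (FF M) V₀ G) (L : Set (SO.SS n V₀)) {z : G} (hz : z ∈ B.C (pL L)) :
    ∀ s ∈ L, z * B.i s.2.2.1 * z⁻¹ = B.i s.2.2.1 := by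
  intro s hs
  unfold Bk.C at hz
  rw [Subgroup.mem_centralizer_iff] at hz
  have h1 := hz (B.i s.2.2.1) ⟨s.2.2.1, Subgroup.subset_closure ⟨s, hs, rfl⟩, rfl⟩
  rw [← h1, mul_inv_cancel_right]

omit [Finite G] [M.IsMaximal] in
theorem comm_q (B : Bk (FF M) V₀ G) (L : Set (SO.SS n V₀)) {z : G} (hz : z ∈ B.C (qL L)) :
    ∀ s ∈ L, z * B.i s.2.2.2 * z⁻¹ = B.i s.2.2.2 := by
  intro s hs
  unfold Bk.C at hz
  rw [Subgroup.mem_centralizer_iff] at hz
  have h1 := hz (B.i s.2.2.2) ⟨s.2.2.2, Subgroup.subset_closure ⟨s, hs, rfl⟩, rfl⟩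
  rw [← h1, mul_inv_cancel_right]

open Classical in
/-- `W12` as a sum over the `u` -/
theorem star [Fintype G] (B : Bk (FF M) V₀ G) (m : ℕ) (c d : V₀) (L : Set (SO.SS n V₀)) :
    (Nat.card (B.C (pL L)) : ℂ) * Nat.card (B.C (qL L)) * W12 B m c d L =
      ∑ u : G, if u ∈ UU B.i L then
        ∑ κ, mulF (fc B (pL L) c) (H75.cj u (fc B (qL L) d)) κ * Rk m B.i L κ else 0 := by
  -- left side
  have hW : W12 B m c d L = ((Nat.card (B.C (pL L ⊔ Subgroup.zpowers c)) : ℂ) *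
      Nat.card (B.C (qL L ⊔ Subgroup.zpowers d)))⁻¹ *
      ∑ s, bh B (pL L ⊔ Subgroup.zpowers c) s * ∑ t, bh B (qL L ⊔ Subgroup.zpowers d) t *
        Th m B.i L (B.i c * s) (B.i d * t) := by
    unfold W12
    rw [finsum_eq_sum_of_fintype, Fintype.sum_prod_type]
    congr 1
    refine Finset.sum_congr rfl fun s _ => ?_
    rw [Finset.mul_sum]
    refine Finset.sum_congr rfl fun t _ => ?_
    rw [← mul_assoc]
    congr 1
    exact count m B.i L _ _
  -- the sum with `fc`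
  have h1 : ∑ g, fc B (pL L) c g * (∑ h, fc B (qL L) d h * Th m B.i L g h) =
      (Nat.card (B.C (pL L)) : ℂ) * Nat.card (B.C (qL L)) * W12 B m c d L := by
    have h2 : ∀ g, ∑ h, fc B (qL L) d h * Th m B.i L g h = (Nat.card (B.C (qL L)) : ℂ) *
        (Nat.card (B.C (qL L ⊔ Subgroup.zpowers d)) : ℂ)⁻¹ *
        ∑ t, bh B (qL L ⊔ Subgroup.zpowers d) t * Th m B.i L g (B.i d * t) := by
      intro g
      refine fc_Psi B (qL L) d (Th m B.i L g) fun z hz h => ?_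
      have h3 := Th_conj m B.i L 1 z g h (fun s _ => by group) (comm_q B L hz)
      rw [one_mul, inv_one, mul_one] at h3
      exact h3
    have h3 : ∑ g, fc B (pL L) c g * (∑ t, bh B (qL L ⊔ Subgroup.zpowers d) t *
        Th m B.i L g (B.i d * t)) = (Nat.card (B.C (pL L)) : ℂ) *
      (Nat.card (B.C (pL L ⊔ Subgroup.zpowers c)) : ℂ)⁻¹ *
        ∑ s, bh B (pL L ⊔ Subgroup.zpowers c) s * ∑ t, bh B (qL L ⊔ Subgroup.zpowers d) t *
          Th m B.i L (B.i c * s) (B.i d * t) := by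
      refine fc_Psi B (pL L) c (fun g => ∑ t, bh B (qL L ⊔ Subgroup.zpowers d) t *
        Th m B.i L g (B.i d * t)) fun z hz g => ?_
      refine Finset.sum_congr rfl fun t _ => ?_
      have h4 := Th_conj m B.i L z 1 g (B.i d * t) (comm_p B L hz) (fun s _ => by group)
      rw [one_mul, inv_one, mul_one] at h4
      rw [h4]
    calc ∑ g, fc B (pL L) c g * (∑ h, fc B (qL L) d h * Th m B.i L g h)
        = (Nat.card (B.C (qL L)) : ℂ) * (Nat.card (B.C (qL L ⊔ Subgroup.zpowers d)) : ℂ)⁻¹ *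
          ∑ g, fc B (pL L) c g * (∑ t, bh B (qL L ⊔ Subgroup.zpowers d) t *
            Th m B.i L g (B.i d * t)) := by
          rw [Finset.mul_sum]
          refine Finset.sum_congr rfl fun g _ => ?_
          rw [h2]
          ring
      _ = _ := by
          rw [h3, hW, mul_inv]
          ring
  rw [← h1]
  -- exchange of the sums
  unfold Th
  have h2 : ∀ g, fc B (pL L) c g * (∑ h, fc B (qL L) d h *
      ∑ u : G, (if u ∈ UU B.i L then Rk m B.i L (g * (u * h * u⁻¹)) else 0)) =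
      ∑ u : G, if u ∈ UU B.i L then
        ∑ h, fc B (pL L) c g * (fc B (qL L) d h * Rk m B.i L (g * (u * h * u⁻¹))) else 0 := by
    intro g
    have h3 : ∀ h, fc B (qL L) d h *
        ∑ u : G, (if u ∈ UU B.i L then Rk m B.i L (g * (u * h * u⁻¹)) else 0) =
        ∑ u : G, if u ∈ UU B.i L then fc B (qL L) d h * Rk m B.i L (g * (u * h * u⁻¹)) else 0 := by
      intro h
      rw [Finset.mul_sum]
      refine Finset.sum_congr rfl fun u _ => ?_
      rw [mul_ite, mul_zero]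
    rw [Finset.sum_congr rfl fun h _ => h3 h, Finset.sum_comm, Finset.mul_sum]
    refine Finset.sum_congr rfl fun u _ => ?_
    by_cases hu : u ∈ UU B.i L
    · simp only [if_pos hu]
      rw [Finset.mul_sum]
    · simp only [if_neg hu, Finset.sum_const_zero, mul_zero]
  rw [Finset.sum_congr rfl fun g _ => h2 g, Finset.sum_comm]
  refine Finset.sum_congr rfl fun u _ => ?_
  by_cases hu : u ∈ UU B.i L
  · simp only [if_pos hu]
    have h4 : ∀ κ, mulF (fc B (pL L) c) (H75.cj u (fc B (qL L) d)) κ * Rk m B.i L κ =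
        ∑ g, fc B (pL L) c g * (fc B (qL L) d (u⁻¹ * (g⁻¹ * κ) * u) * Rk m B.i L κ) := by
      intro κ
      unfold mulF
      rw [finsum_eq_sum_of_fintype, Finset.sum_mul]
      refine Finset.sum_congr rfl fun g _ => ?_
      rw [mul_assoc]
      rfl
    have h5 : ∑ κ, mulF (fc B (pL L) c) (H75.cj u (fc B (qL L) d)) κ * Rk m B.i L κ =
        ∑ g, ∑ κ, fc B (pL L) c g *
          (fc B (qL L) d (u⁻¹ * (g⁻¹ * κ) * u) * Rk m B.i L κ) := by
      rw [Finset.sum_congr rfl fun κ _ => h4 κ]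
      exact Finset.sum_comm
    rw [h5]
    refine Finset.sum_congr rfl fun g _ => ?_
    let e : G ≃ G :=
      { toFun := fun h => g * (u * h * u⁻¹)
        invFun := fun κ => u⁻¹ * (g⁻¹ * κ) * u
        left_inv := fun h => by group
        right_inv := fun κ => by group }
    rw [← e.sum_comp (fun κ => fc B (pL L) c g *
      (fc B (qL L) d (u⁻¹ * (g⁻¹ * κ) * u) * Rk m B.i L κ))]
    refine Finset.sum_congr rfl fun h _ => ?_
    have e1 : e h = g * (u * h * u⁻¹) := rfl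
    have e2 : u⁻¹ * (g⁻¹ * (g * (u * h * u⁻¹))) * u = h := by group
    rw [e1, e2]
  · simp only [if_neg hu, Finset.sum_const_zero]

end blk

end Pool.Agent.PP.SD.H91
end
end -- Pool.Agent.Helper91_ASD.Star

section -- Pool.Agent.Helper91_ASD.Fib

/-!
# Squad ASD: the terms of the sum over `u` (second part of W12A, W2A, W2X)
-/

open scoped BigOperators

set_option autoImplicit false

noncomputable section

namespace Pool.Agent.PP.SD.H91

open Pool.Agent.Helper51_AWC Pool.Agent.Helper79_WRA Pool.Agent.PP Pool.Agent.PP.KF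
open Pool.Agent.PP.K9 Pool.Agent.PP.K9.H97 Pool.Agent.PP.H75 Pool.Agent.PP.T3 Pool.Agent.PP.SO
open Pool.Agent.PP.SO.H82 (memC conj_of_mem mem_of_conj bh_cj)

attribute [local instance] Ideal.Quotient.field

section maps

variable {F V₀ G : Type} [CommGroup V₀] [Group G] {n : ℕ} {B : Bk F V₀ G}
  {L : Set (SO.SS n V₀)} {u : G}

theorem mem_UU : u ∈ UU B.i L ↔ ∀ s ∈ L, u * B.i s.2.2.2 * u⁻¹ = B.i s.2.2.1 := by
  refine forall₂_congr fun s _ => ?_
  constructor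
  · intro h
    rw [mul_inv_eq_iff_eq_mul]
    conv_lhs => rw [h]
    rw [inv_mul_cancel_right]
  · intro h
    rw [eq_mul_inv_iff_mul_eq, ← h, inv_mul_cancel_right]

theorem UU_fwd (hu : u ∈ UU B.i L) : ∀ v ∈ qL L, ∃ w ∈ pL L, u * B.i v * u⁻¹ = B.i w := by
  have hle : qL L ≤ ((pL L).map B.i).comap ((MulAut.conj u).toMonoidHom.comp B.i) := by
    unfold qL
    rw [Subgroup.closure_le]
    rintro q ⟨s, hs, rfl⟩
    exact ⟨s.2.2.1, Subgroup.subset_closure ⟨s, hs, rfl⟩, (mem_UU.1 hu s hs).symm⟩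
  intro v hv
  obtain ⟨w, hw, hw2⟩ := hle hv
  exact ⟨w, hw, hw2.symm⟩

theorem UU_bwd (hu : u ∈ UU B.i L) : ∀ w ∈ pL L, ∃ v ∈ qL L, u * B.i v * u⁻¹ = B.i w := by
  have hle : pL L ≤ ((qL L).map ((MulAut.conj u).toMonoidHom.comp B.i)).comap B.i := by
    unfold pL
    rw [Subgroup.closure_le]
    rintro p ⟨s, hs, rfl⟩
    exact ⟨s.2.2.2, Subgroup.subset_closure ⟨s, hs, rfl⟩, mem_UU.1 hu s hs⟩
  intro w hw
  obtain ⟨v, hv, hv2⟩ := hle hw
  exact ⟨v, hv, hv2⟩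

theorem UU_C (hu : u ∈ UU B.i L) (y : G) :
    y ∈ B.C (pL L) ↔ u⁻¹ * y * u ∈ B.C (qL L) := by
  rw [memC, memC]
  constructor
  · intro h v hv
    obtain ⟨w, hw, e⟩ := UU_fwd hu v hv
    have h1 := h w hw
    rw [← e] at h1
    have h2 : B.i v * (u⁻¹ * y * u) = u⁻¹ * (u * B.i v * u⁻¹ * y) * u := by group
    rw [h2, h1]
    group
  · intro h w hw
    obtain ⟨v, hv, e⟩ := UU_bwd hu w hw
    have h1 := h v hv
    rw [← e]
    have h2 : u * B.i v * u⁻¹ * y = u * (B.i v * (u⁻¹ * y * u)) * u⁻¹ := by group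
    rw [h2, h1]
    group

/-- `σ ∈ EL` acts on `qL` as every `u ∈ UU` -/
theorem EL_act {E₀ : Subgroup (MulAut V₀)} (hu : u ∈ UU B.i L) {σ : MulAut V₀}
    (hσ : σ ∈ EL E₀ L) : ∀ v ∈ qL L, u * B.i v * u⁻¹ = B.i (σ v) := by
  have hle : qL L ≤ ((MulAut.conj u).toMonoidHom.comp B.i).eqLocus
      (B.i.comp σ.toMonoidHom) := by
    unfold qL
    rw [Subgroup.closure_le]
    rintro q ⟨s, hs, rfl⟩
    change u * B.i s.2.2.2 * u⁻¹ = B.i (σ s.2.2.2)
    rw [hσ.2 s hs, mem_UU.1 hu s hs]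
  intro v hv
  exact hle hv

theorem EL_map {E₀ : Subgroup (MulAut V₀)} {σ : MulAut V₀} (hσ : σ ∈ EL E₀ L) :
    (qL L).map σ.toMonoidHom = pL L := by
  unfold qL pL
  rw [MonoidHom.map_closure]
  congr 1
  ext p
  constructor
  · rintro ⟨q, ⟨s, hs, rfl⟩, rfl⟩
    exact ⟨s, hs, (hσ.2 s hs).symm⟩
  · rintro ⟨s, hs, rfl⟩
    exact ⟨s.2.2.2, ⟨s, hs, rfl⟩, hσ.2 s hs⟩

/-- if `t` acts as `σ ∈ EL` then `UU = t C(qL)` -/
theorem UU_eq {E₀ : Subgroup (MulAut V₀)} {σ : MulAut V₀} (hσ : σ ∈ EL E₀ L) {t : G}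
    (ht : ∀ v, t * B.i v * t⁻¹ = B.i (σ v)) : u ∈ UU B.i L ↔ t⁻¹ * u ∈ B.C (qL L) := by
  constructor
  · intro hu
    apply mem_of_conj
    intro v hv
    have h1 := EL_act hu hσ v hv
    rw [← ht v] at h1
    have h2 : t⁻¹ * u * B.i v * (t⁻¹ * u)⁻¹ = t⁻¹ * (u * B.i v * u⁻¹) * t := by group
    rw [h2, h1]
    group
  · intro h
    rw [mem_UU]
    intro s hs
    have hq : s.2.2.2 ∈ qL L := Subgroup.subset_closure ⟨s, hs, rfl⟩
    have h1 := conj_of_mem B h hq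
    have h2 : u * B.i s.2.2.2 * u⁻¹ =
        t * (t⁻¹ * u * B.i s.2.2.2 * (t⁻¹ * u)⁻¹) * t⁻¹ := by group
    rw [h2, h1, ht, hσ.2 s hs]

/-- the groups generated by `κ` -/
theorem aL_sup (κ : V₀) (L : Set (SO.SS n V₀)) :
    aL κ L ⊔ Subgroup.zpowers κ = pL L ⊔ Subgroup.zpowers κ := by
  have hk : ∀ W : Subgroup V₀, κ ∈ W ⊔ Subgroup.zpowers κ := fun W =>
    Subgroup.mem_sup_right (Subgroup.mem_zpowers κ)
  apply le_antisymm
  · rw [sup_le_iff]
    refine ⟨?_, le_sup_right⟩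
    unfold aL
    rw [Subgroup.closure_le]
    rintro a ⟨s, hs, rfl⟩
    exact Subgroup.mul_mem _ (Subgroup.pow_mem _ (hk _) _)
      (Subgroup.mem_sup_left (Subgroup.subset_closure ⟨s, hs, rfl⟩))
  · rw [sup_le_iff]
    refine ⟨?_, le_sup_right⟩
    unfold pL
    rw [Subgroup.closure_le]
    rintro p ⟨s, hs, rfl⟩
    have h1 : κ ^ (s.2.1 : ℕ) * s.2.2.1 ∈ aL κ L ⊔ Subgroup.zpowers κ :=
      Subgroup.mem_sup_left (Subgroup.subset_closure ⟨s, hs, rfl⟩)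
    have h2 := Subgroup.mul_mem _
      (Subgroup.inv_mem _ (Subgroup.pow_mem _ (hk (aL κ L)) (s.2.1 : ℕ))) h1
    rw [inv_mul_cancel_left] at h2
    exact h2

end maps

section blk

variable {V₀ G : Type} [CommGroup V₀] [Group G] [Finite G] {n : ℕ} {ℓ : ℕ}
  {M : Ideal (integralClosure ℤ ℂ)} [M.IsMaximal] {E₀ : Subgroup (MulAut V₀)}
  {B : Bk (FF M) V₀ G} {L : Set (SO.SS n V₀)} {u : G}

/-- the lifts of different blocks are orthogonal -/
theorem orth (hB : Sb ℓ M E₀ B) {W W' : Subgroup V₀} {w : G}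
    (hC : ∀ x, x ∈ B.C W ↔ w⁻¹ * x * w ∈ B.C W') (h : H75.cj w (B.b W') ≠ B.b W) :
    mulF (bh B W) (H75.cj w (bh B W')) = 0 := by
  have := Fintype.ofFinite (B.C W)
  have hs1 : ∀ z, z ∉ B.C W → bh B W z = 0 := fun z hz => H10L.bh_supp B W z hz
  have hs2 : ∀ z, z ∉ B.C W → H75.cj w (bh B W') z = 0 := by
    intro z hz
    change bh B W' (w⁻¹ * z * w) = 0
    apply H10L.bh_supp
    intro h
    exact hz ((hC z).2 h)
  have hbW : (fun t : B.C W => bh B W t) = eh M (fun t : B.C W => B.b W t) := by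
    funext t
    unfold bh PP.ext0
    rw [dif_pos t.2]
  have hB1 : Bx (B.C W) (B.b W) := (hB.lb W).blk
  have hB2 : Bx (B.C W) (H75.cj w (B.b W')) := T3.H62.bx_cj hC (hB.lb W').blk
  apply eq_of_res (mulF_supp (B.C W) hs1 hs2) (fun _ _ => rfl)
  rw [mulF_res (B.C W) _ hs1, bh_cj hB hC, hbW]
  refine T3.H62.eh_orth hB1.blk.1 hB2.blk.1 ?_
  rcases hB1.dich hB2 with h3 | h3
  · exact absurd h3.symm h
  · rw [← mulF_res (B.C W) (H75.cj w (B.b W')) hB1.supp, h3]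
    rfl

/-- the term of `u` vanishes if `cj u (b q) ≠ b p` -/
theorem term_zero [Fact ℓ.Prime] (fcd : FcdStmt) (hM : (ℓ : integralClosure ℤ ℂ) ∈ M)
    (hℓ : ℓ ≠ 2) [Finite V₀] (hF : Fq ℓ V₀ E₀) (hB : Sb ℓ M E₀ B) (hu : u ∈ UU B.i L)
    (hb : H75.cj u (B.b (qL L)) ≠ B.b (pL L)) (c d : V₀) :
    mulF (fc B (pL L) c) (H75.cj u (fc B (qL L) d)) = 0 := by
  have hC : ∀ x, x ∈ B.C (pL L) ↔ u⁻¹ * x * u ∈ B.C (qL L) := UU_C hu
  have h1 : mulF (fc B (pL L) c) (bh B (pL L)) = fc B (pL L) c :=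
    funext ((fcd ℓ M hM V₀ G E₀ hF B hB (pL L)).2 c)
  have h2 : mulF (fc B (qL L) d) (bh B (qL L)) = fc B (qL L) d :=
    funext ((fcd ℓ M hM V₀ G E₀ hF B hB (qL L)).2 d)
  have h3 : H75.cj u (fc B (qL L) d) =
      mulF (H75.cj u (bh B (qL L))) (H75.cj u (fc B (qL L) d)) := by
    conv_lhs => rw [← h2]
    rw [cj_mulF]
    refine mulF_comm_of (K := B.C (pL L)) ?_ ?_
    · intro x hx
      change fc B (qL L) d (u⁻¹ * x * u) = 0
      exact SO.H3.fc_supp B _ d _ fun h => hx ((hC x).2 h)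
    · intro k hk
      funext x
      change bh B (qL L) (u⁻¹ * (k⁻¹ * x * k) * u) = bh B (qL L) (u⁻¹ * x * u)
      have hk' : (u⁻¹ * k * u)⁻¹ ∈ B.C (qL L) := (B.C (qL L)).inv_mem ((hC k).1 hk)
      have h4 := H10L.bh_conj B (qL L) _ hk' (u⁻¹ * x * u)
      rw [← h4]
      congr 1
      group
  have h5 : mulF (bh B (pL L)) (H75.cj u (bh B (qL L))) = 0 := orth hB hC hb
  rw [h3]
  conv_lhs => rw [← h1]
  apply ma_injective
  rw [ma_mul, ma_mul, ma_mul, ma_zero]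
  have h6 := congrArg ma h5
  rw [ma_mul, ma_zero] at h6
  rw [mul_assoc, ← mul_assoc (ma (bh B (pL L))), h6, zero_mul, mul_zero]

/-- the term of `u ∈ UU` if `EL` is not empty -/
theorem term_EL [Fact ℓ.Prime] (cjd : CjdStmt) (hM : (ℓ : integralClosure ℤ ℂ) ∈ M)
    (hℓ : ℓ ≠ 2) [Finite V₀] (hF : Fq ℓ V₀ E₀) (hB : Sb ℓ M E₀ B) (hu : u ∈ UU B.i L)
    {σ : MulAut V₀} (hσ : σ ∈ EL E₀ L) (d : V₀) :
    H75.cj u (fc B (qL L) d) = fc B (pL L) (σ d) := by
  obtain ⟨t, htT, ht⟩ := hB.sur σ hσ.1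
  have h1 : t⁻¹ * u ∈ B.C (qL L) := (UU_eq hσ ht).1 hu
  have h2 := (cjd ℓ M hM hℓ V₀ G E₀ hF B hB σ hσ.1 t htT ht (qL L)).2.2.2.2.1
  rw [EL_map hσ] at h2
  funext x
  have h3 := h2 d (t⁻¹ * x * t)
  have e1 : t * (t⁻¹ * x * t) * t⁻¹ = x := by group
  rw [e1] at h3
  rw [h3]
  change fc B (qL L) d (u⁻¹ * x * u) = _
  have h4 := SO.H3.fc_cl B (qL L) d ⟨(t⁻¹ * u)⁻¹, (B.C (qL L)).inv_mem h1⟩ (t⁻¹ * x * t)
  rw [← h4]
  congr 1
  change _ = (t⁻¹ * u)⁻¹ * (t⁻¹ * x * t) * ((t⁻¹ * u)⁻¹)⁻¹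
  group

/-- if `EL` is empty all terms vanish -/
theorem term_empty [Fact ℓ.Prime] (fcd : FcdStmt) (fud : FudStmt)
    (hM : (ℓ : integralClosure ℤ ℂ) ∈ M) (hℓ : ℓ ≠ 2) [Finite V₀] (hF : Fq ℓ V₀ E₀)
    (hB : Sb ℓ M E₀ B) (hu : u ∈ UU B.i L) (hE : EL E₀ L = ∅) (c d : V₀) :
    mulF (fc B (pL L) c) (H75.cj u (fc B (qL L) d)) = 0 := by
  classical
  refine term_zero fcd hM hℓ hF hB hu (fun hb => ?_) c d
  have hf : ∀ v ∈ qL L, ∃ w ∈ pL L, u * B.i v * u⁻¹ = B.i w := UU_fwd hu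
  obtain ⟨f, hf'⟩ : ∃ f : V₀ → V₀, ∀ v ∈ qL L, f v ∈ pL L ∧ u * B.i v * u⁻¹ = B.i (f v) := by
    refine ⟨fun v => if h : v ∈ qL L then (hf v h).choose else 1, fun v hv => ?_⟩
    simp only [dif_pos hv]
    exact (hf v hv).choose_spec
  obtain ⟨σ, hσ, hfσ, -⟩ := fud ℓ M hM V₀ G E₀ hF B hB (pL L) (qL L) u f
    (fun v hv => (hf' v hv).2) (fun v hv => (hf' v hv).1) (fun w hw => by
      obtain ⟨v, hv, e⟩ := UU_bwd hu w hw
      refine ⟨v, hv, ?_⟩
      apply hB.inj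
      rw [← (hf' v hv).2, e]) hb
  have hmem : σ ∈ EL E₀ L := by
    refine ⟨hσ, fun s hs => ?_⟩
    have hq : s.2.2.2 ∈ qL L := Subgroup.subset_closure ⟨s, hs, rfl⟩
    rw [← hfσ _ hq]
    apply hB.inj
    rw [← (hf' _ hq).2, mem_UU.1 hu s hs]
  rw [hE] at hmem
  exact hmem

omit [Finite G] [M.IsMaximal] in
/-- the conditions for `κ = i(κ) s` -/
theorem cn_iff (κ : V₀) {m : ℕ} {g x y : G} (hg : g ^ m = B.i κ) :
    cn m B.i L g x y ↔ ∀ s ∈ L,
      B.i (κ ^ (s.2.1 : ℕ) * s.2.2.1) * x = x * B.i (κ ^ (s.2.1 : ℕ) * s.2.2.1) ∧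
      y⁻¹ * B.i (κ ^ (s.2.1 : ℕ) * s.2.2.1) * y =
        B.i (κ ^ (s.2.1 : ℕ) * s.2.2.1) * (x ^ m) ^ (s.1 : ℕ) := by
  refine forall₂_congr fun s _ => ?_
  rw [hg, ← map_pow]
  obtain ⟨K, hK⟩ : ∃ K, K = B.i (κ ^ (s.2.1 : ℕ)) := ⟨_, rfl⟩
  obtain ⟨P, hP⟩ : ∃ P, P = B.i s.2.2.1 := ⟨_, rfl⟩
  obtain ⟨X, hX⟩ : ∃ X, X = (x ^ m) ^ (s.1 : ℕ) := ⟨_, rfl⟩
  have hKP : K * P = P * K := by rw [hK, hP, ← map_mul, ← map_mul, mul_comm]
  rw [map_mul, ← hK, ← hP, ← hX]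
  have h1 : K⁻¹ * x * K = P * x * P⁻¹ ↔ K * P * x = x * (K * P) := by
    constructor
    · intro h
      have h2 : x * K = K * (P * x * P⁻¹) := by rw [← h]; group
      have h3 : x * K * P = K * P * x := by rw [h2]; group
      rw [← h3, mul_assoc]
    · intro h
      have h2 : x * K * P = K * P * x := by rw [h, mul_assoc]
      have h3 : x * K = K * P * x * P⁻¹ := by rw [← h2, mul_inv_cancel_right]
      rw [mul_assoc, h3]
      group
  have h2 : K⁻¹ * (y * X) * K = P * y * P⁻¹ ↔ y * X * (K * P) = K * P * y := by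
    constructor
    · intro h
      have h2 : y * X * K = K * (P * y * P⁻¹) := by rw [← h]; group
      have h3 : y * X * K * P = K * P * y := by rw [h2]; group
      rw [← h3, mul_assoc (y * X)]
    · intro h
      have h2 : y * X * K * P = K * P * y := by rw [← h, mul_assoc (y * X)]
      have h3 : y * X * K = K * P * y * P⁻¹ := by rw [← h2, mul_inv_cancel_right]
      rw [mul_assoc K⁻¹, h3]
      group
  rw [h1, h2]
  refine and_congr_right fun hx => ?_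
  have hc : Commute (K * P) X := by
    rw [hX]
    exact (Commute.pow_right (Commute.pow_right hx m) _)
  constructor
  · intro h
    have h3 : y⁻¹ * (K * P) * y = X * (K * P) := by
      rw [mul_assoc, ← h]
      group
    rw [h3, hc.eq]
  · intro h
    have h3 : K * P * y = y * (y⁻¹ * (K * P) * y) := by group
    rw [h3, h, hc.eq]
    group

/-- the sum with `fc` is `HK` -/
theorem sum_HK [Fact ℓ.Prime] [Fintype G] {n' m : ℕ} (hM : (ℓ : integralClosure ℤ ℂ) ∈ M)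
    (hF : Fq ℓ V₀ E₀) (hB : Sb ℓ M E₀ B) (hPE : PE ℓ n' m G) (κ : V₀) :
    ∑ g, fc B (pL L) κ g * Rk m B.i L g = (Nat.card (B.C (pL L)) : ℂ) * HK B m κ L := by
  rw [fc_Psi B (pL L) κ (Rk m B.i L) fun z hz g => Rk_conj m B.i L z g (comm_p B L hz)]
  unfold HK
  rw [aL_sup, finsum_eq_sum_of_fintype, mul_assoc]
  congr 2
  refine Finset.sum_congr rfl fun s _ => ?_
  by_cases hs : bh B (pL L ⊔ Subgroup.zpowers κ) s = 0
  · rw [hs, zero_mul, zero_mul]
  have hsC : s ∈ B.C (pL L ⊔ Subgroup.zpowers κ) := by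
    by_contra h
    exact hs (H10L.bh_supp B _ s h)
  have hsR : Reg ℓ s := by
    by_contra h
    exact hs (SD.H82.bh_sing hM hB _ s h)
  have hp : (B.i κ * s) ^ m = B.i κ := SD.H82.pow_m hF hPE
    (Subgroup.mem_sup_right (Subgroup.mem_zpowers κ)) hsC hsR
  congr 1
  unfold Rk
  congr 2
  ext w
  exact and_congr_right fun _ => cn_iff κ hp

end blk

end Pool.Agent.PP.SD.H91
end
end -- Pool.Agent.Helper91_ASD.Fib

section -- Pool.Agent.Helper98_ASE.X2C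

/-!
# Squad ASE, row X2C: `X12` in terms of `HX` (helper80)
-/

open scoped BigOperators

set_option autoImplicit false

noncomputable section

namespace Pool.Agent.PP.SE.H98X

open Pool.Agent.Helper51_AWC Pool.Agent.Helper79_WRA Pool.Agent.PP Pool.Agent.PP.KF
open Pool.Agent.PP.K9 Pool.Agent.PP.K9.H97 Pool.Agent.PP.H75 Pool.Agent.PP.T3 Pool.Agent.PP.SO
open Pool.Agent.PP.SD Pool.Agent.PP.SD.H91
open Pool.Agent.PP.SO.H82 (memC conj_of_mem mem_of_conj bh_cj)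

attribute [local instance] Ideal.Quotient.field

section blk

variable {V₀ G : Type} [CommGroup V₀] [Group G] [Finite G] {n : ℕ} {ℓ : ℕ}
  {M : Ideal (integralClosure ℤ ℂ)} [M.IsMaximal] {E₀ : Subgroup (MulAut V₀)}
  {B : Bk (FF M) V₀ G} {L : Set (SO.SS n V₀)} {u : G}

/-- an element of the centre of the block is fixed by the lift of the block -/
theorem cz_mul (B : Bk (FF M) V₀ G) (W : Subgroup V₀) {a : G → ℂ} (ha : Cz B W a) :
    mulF a (bh B W) = a := by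
  classical
  have hfin : Fintype (B.C W) := Fintype.ofFinite _
  apply eq_of_res (N := B.C W) (mulF_supp (B.C W) ha.sup
    (fun x hx => SO.H3.bh_supp B W hx)) ha.sup
  rw [mulF_res (B.C W) _ ha.sup]
  have hcl : ∀ (x y : B.C W), (fun t : B.C W => a t) (y * x * y⁻¹) =
      (fun t : B.C W => a t) x := fun x y => ha.cls y y.2 x
  have hbcl : ∀ (x y : B.C W), (fun t : B.C W => bh B W t) (y * x * y⁻¹) =
      (fun t : B.C W => bh B W t) x := by
    intro x y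
    show bh B W ((y * x * y⁻¹ : B.C W) : G) = bh B W (x : G)
    rw [SO.H33.bh_W, SO.H33.bh_W, K9.H25.eh_cl]
  have hm : mulF (fun t : B.C W => a t) (fun t : B.C W => bh B W t) =
      fun y => ∑ h, (fun t : B.C W => a t) h * (fun t : B.C W => bh B W t) (h⁻¹ * y) := by
    funext y
    unfold mulF
    rw [finsum_eq_sum_of_fintype]
  rw [hm, ← sub_eq_zero]
  apply irr_complete
  · intro g h
    rw [Pi.sub_apply, Pi.sub_apply]
    congr 1
    · rw [← Equiv.sum_comp (MulAut.conj h).toEquiv]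
      refine Finset.sum_congr rfl fun t _ => ?_
      have e1 : (MulAut.conj h).toEquiv t = h * t * h⁻¹ := rfl
      rw [e1]
      congr 1
      · exact hcl t h
      · have e2 : (h * t * h⁻¹)⁻¹ * (h * g * h⁻¹) = h * (t⁻¹ * g) * h⁻¹ := by group
        rw [e2]
        exact hbcl (t⁻¹ * g) h
    · exact hcl g h
  · intro χ' hχ'
    set χ : G → ℂ := H75.ext0 (B.C W) χ' with hχ
    have hχs : ∀ x, x ∉ B.C W → χ x = 0 := H75.ext0_supp _ _
    have hχr : (fun t : B.C W => χ t) = χ' := funext (H75.ext0_apply _ _)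
    have hχi : (fun t : B.C W => χ t) ∈ Irr (B.C W) := by rw [hχr]; exact hχ'
    have hne : χ' 1 ≠ 0 := irr_one_ne hχ'
    have hcv : SO.cv a χ = H50.om (fun t : B.C W => a t) χ' := by
      rw [← hχr]
      unfold SO.cv H50.om
      rw [H75.sum_sub (B.C W) _ (fun x hx => by rw [ha.sup x hx, zero_mul]),
        finsum_eq_sum_of_fintype]
      rfl
    have hmul := H50.om_mul (a := fun t : B.C W => a t)
      (b := fun t : B.C W => bh B W t) hbcl hχ'
    have hom : ∀ a : B.C W → ℂ, ∑ t, a t * χ' t = H50.om a χ' * χ' 1 := by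
      intro a
      unfold H50.om
      rw [div_mul_cancel₀ _ hne]
    have hbval : H50.om (fun t : B.C W => bh B W t) χ' =
        if χ' ∈ IrrE M (fun t : B.C W => B.b W t) then 1 else 0 := by
      have h2 : (fun t : B.C W => bh B W t) = eh M (fun t : B.C W => B.b W t) :=
        funext fun s => SO.H33.bh_W B W s
      rw [h2]
      unfold H50.om
      rw [H25.eh_chv M _ hχ']
      split_ifs
      · exact div_self hne
      · exact zero_div _
    have hval : H50.om (fun t : B.C W => a t) χ' *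
        H50.om (fun t : B.C W => bh B W t) χ' = H50.om (fun t : B.C W => a t) χ' := by
      rw [hbval]
      split_ifs with hin
      · rw [mul_one]
      · rw [← hcv, ha.blk χ hχs hχi (fun h => hin (hχr ▸ h.2)), zero_mul]
    simp only [Pi.sub_apply, sub_mul, Finset.sum_sub_distrib]
    rw [sub_eq_zero]
    have e1 : ∑ x : B.C W, (∑ h : B.C W, a (h : G) *
          bh B W ((h⁻¹ * x : B.C W) : G)) * χ' x =
        H50.om (fun t : B.C W => a t) χ' * H50.om (fun t : B.C W => bh B W t) χ' *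
          χ' 1 := by
      rw [← hmul, ← hom]
    have e2 : ∑ x : B.C W, a (x : G) * χ' x =
        H50.om (fun t : B.C W => a t) χ' * χ' 1 := by
      rw [← hom]
    rw [e1, e2, hval]

open Classical in
/-- `X12` as a sum over the `u` -/
theorem star' [Fintype G] (B : Bk (FF M) V₀ G) (m : ℕ) (a b : Subgroup V₀ → G → ℂ)
    (L : Set (SO.SS n V₀)) :
    (Nat.card (B.C (pL L)) : ℂ) * Nat.card (B.C (qL L)) * X12 B m a b L =
      ∑ u : G, if u ∈ UU B.i L then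
        ∑ κ, mulF (a (pL L)) (H75.cj u (b (qL L))) κ * Rk m B.i L κ else 0 := by
  have hn1 : (Nat.card (B.C (pL L)) : ℂ) ≠ 0 := by
    exact_mod_cast (Nat.card_pos (α := B.C (pL L))).ne'
  have hn2 : (Nat.card (B.C (qL L)) : ℂ) ≠ 0 := by
    exact_mod_cast (Nat.card_pos (α := B.C (qL L))).ne'
  obtain ⟨f, hf⟩ : ∃ f, f = a (pL L) := ⟨_, rfl⟩
  obtain ⟨k, hk⟩ : ∃ k, k = b (qL L) := ⟨_, rfl⟩
  have h1 : (Nat.card (B.C (pL L)) : ℂ) * Nat.card (B.C (qL L)) * X12 B m a b L =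
      ∑ g, f g * (∑ h, k h * Th m B.i L g h) := by
    unfold X12
    rw [mul_inv_cancel_left₀ (mul_ne_zero hn1 hn2), finsum_eq_sum_of_fintype,
      Fintype.sum_prod_type, ← hf, ← hk]
    refine Finset.sum_congr rfl fun s _ => ?_
    rw [Finset.mul_sum]
    refine Finset.sum_congr rfl fun t _ => ?_
    rw [← mul_assoc]
    congr 1
    exact count m B.i L _ _
  rw [h1, ← hf, ← hk]
  -- exchange of the sums
  unfold Th
  have h2 : ∀ g, f g * (∑ h, k h *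
      ∑ u : G, (if u ∈ UU B.i L then Rk m B.i L (g * (u * h * u⁻¹)) else 0)) =
      ∑ u : G, if u ∈ UU B.i L then
        ∑ h, f g * (k h * Rk m B.i L (g * (u * h * u⁻¹))) else 0 := by
    intro g
    have h3 : ∀ h, k h *
        ∑ u : G, (if u ∈ UU B.i L then Rk m B.i L (g * (u * h * u⁻¹)) else 0) =
        ∑ u : G, if u ∈ UU B.i L then k h * Rk m B.i L (g * (u * h * u⁻¹)) else 0 := by
      intro h
      rw [Finset.mul_sum]
      refine Finset.sum_congr rfl fun u _ => ?_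
      rw [mul_ite, mul_zero]
    rw [Finset.sum_congr rfl fun h _ => h3 h, Finset.sum_comm, Finset.mul_sum]
    refine Finset.sum_congr rfl fun u _ => ?_
    by_cases hu : u ∈ UU B.i L
    · simp only [if_pos hu]
      rw [Finset.mul_sum]
    · simp only [if_neg hu, Finset.sum_const_zero, mul_zero]
  rw [Finset.sum_congr rfl fun g _ => h2 g, Finset.sum_comm]
  refine Finset.sum_congr rfl fun u _ => ?_
  by_cases hu : u ∈ UU B.i L
  · simp only [if_pos hu]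
    have h4 : ∀ κ, mulF f (H75.cj u k) κ * Rk m B.i L κ =
        ∑ g, f g * (k (u⁻¹ * (g⁻¹ * κ) * u) * Rk m B.i L κ) := by
      intro κ
      unfold mulF
      rw [finsum_eq_sum_of_fintype, Finset.sum_mul]
      refine Finset.sum_congr rfl fun g _ => ?_
      rw [mul_assoc]
      rfl
    have h5 : ∑ κ, mulF f (H75.cj u k) κ * Rk m B.i L κ =
        ∑ g, ∑ κ, f g * (k (u⁻¹ * (g⁻¹ * κ) * u) * Rk m B.i L κ) := by
      rw [Finset.sum_congr rfl fun κ _ => h4 κ]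
      exact Finset.sum_comm
    rw [h5]
    refine Finset.sum_congr rfl fun g _ => ?_
    let e : G ≃ G :=
      { toFun := fun h => g * (u * h * u⁻¹)
        invFun := fun κ => u⁻¹ * (g⁻¹ * κ) * u
        left_inv := fun h => by group
        right_inv := fun κ => by group }
    rw [← e.sum_comp (fun κ => f g * (k (u⁻¹ * (g⁻¹ * κ) * u) * Rk m B.i L κ))]
    refine Finset.sum_congr rfl fun h _ => ?_
    have e1 : e h = g * (u * h * u⁻¹) := rfl
    have e2 : u⁻¹ * (g⁻¹ * (g * (u * h * u⁻¹))) * u = h := by group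
    rw [e1, e2]
  · simp only [if_neg hu, Finset.sum_const_zero]

omit [Finite G] in
/-- the conditions for `g ∈ C(pL)` -/
theorem cn_iff' {m : ℕ} {g x y : G} (hg : g ∈ B.C (pL L)) :
    cn m B.i L g x y ↔ ∀ s ∈ L,
      ((g ^ m) ^ (s.2.1 : ℕ) * B.i s.2.2.1) * x = x * ((g ^ m) ^ (s.2.1 : ℕ) * B.i s.2.2.1) ∧
      y⁻¹ * ((g ^ m) ^ (s.2.1 : ℕ) * B.i s.2.2.1) * y =
        (g ^ m) ^ (s.2.1 : ℕ) * B.i s.2.2.1 * (x ^ m) ^ (s.1 : ℕ) := by
  refine forall₂_congr fun s hs => ?_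
  have hKP' : Commute ((g ^ m) ^ (s.2.1 : ℕ)) (B.i s.2.2.1) := by
    refine Commute.pow_left (Commute.pow_left ?_ m) _
    have h1 := comm_p B L hg s hs
    exact mul_inv_eq_iff_eq_mul.1 h1
  obtain ⟨K, hK⟩ : ∃ K, K = (g ^ m) ^ (s.2.1 : ℕ) := ⟨_, rfl⟩
  obtain ⟨P, hP⟩ : ∃ P, P = B.i s.2.2.1 := ⟨_, rfl⟩
  obtain ⟨X, hX⟩ : ∃ X, X = (x ^ m) ^ (s.1 : ℕ) := ⟨_, rfl⟩
  have hKP : K * P = P * K := by rw [hK, hP]; exact hKP'.eq
  rw [← hK, ← hP, ← hX]
  have h1 : K⁻¹ * x * K = P * x * P⁻¹ ↔ K * P * x = x * (K * P) := by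
    constructor
    · intro h
      have h2 : x * K = K * (P * x * P⁻¹) := by rw [← h]; group
      have h3 : x * K * P = K * P * x := by rw [h2]; group
      rw [← h3, mul_assoc]
    · intro h
      have h2 : x * K * P = K * P * x := by rw [h, mul_assoc]
      have h3 : x * K = K * P * x * P⁻¹ := by rw [← h2, mul_inv_cancel_right]
      rw [mul_assoc, h3]
      group
  have h2 : K⁻¹ * (y * X) * K = P * y * P⁻¹ ↔ y * X * (K * P) = K * P * y := by
    constructor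
    · intro h
      have h2 : y * X * K = K * (P * y * P⁻¹) := by rw [← h]; group
      have h3 : y * X * K * P = K * P * y := by rw [h2]; group
      rw [← h3, mul_assoc (y * X)]
    · intro h
      have h2 : y * X * K * P = K * P * y := by rw [← h, mul_assoc (y * X)]
      have h3 : y * X * K = K * P * y * P⁻¹ := by rw [← h2, mul_inv_cancel_right]
      rw [mul_assoc K⁻¹, h3]
      group
  rw [h1, h2]
  refine and_congr_right fun hx => ?_
  have hc : Commute (K * P) X := by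
    rw [hX]
    exact (Commute.pow_right (Commute.pow_right hx m) _)
  constructor
  · intro h
    have h3 : y⁻¹ * (K * P) * y = X * (K * P) := by
      rw [mul_assoc, ← h]
      group
    rw [h3, hc.eq]
  · intro h
    have h3 : K * P * y = y * (y⁻¹ * (K * P) * y) := by group
    rw [h3, h, hc.eq]
    group

/-- `HX` with the numbers `Rk` -/
theorem hx_eq [Fintype G] (B : Bk (FF M) V₀ G) (m : ℕ) (L : Set (SO.SS n V₀)) {f : G → ℂ}
    (hf : ∀ g, g ∉ B.C (pL L) → f g = 0) :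
    (Nat.card (B.C (pL L)) : ℂ) * HX B m (pL L) f L = ∑ g, f g * Rk m B.i L g := by
  have hn1 : (Nat.card (B.C (pL L)) : ℂ) ≠ 0 := by
    exact_mod_cast (Nat.card_pos (α := B.C (pL L))).ne'
  unfold HX
  rw [mul_inv_cancel_left₀ hn1, finsum_eq_sum_of_fintype]
  refine Finset.sum_congr rfl fun g _ => ?_
  by_cases hg : g ∈ B.C (pL L)
  · unfold Rk
    congr 3
    ext w
    exact and_congr_right fun _ => (cn_iff' hg).symm
  · rw [hf g hg, zero_mul, zero_mul]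

/-- the term of `u` vanishes if `cj u (b q) ≠ b p` -/
theorem term_zero' (hB : Sb ℓ M E₀ B) (hu : u ∈ UU B.i L)
    (hb : H75.cj u (B.b (qL L)) ≠ B.b (pL L)) {f k : G → ℂ} (hf : Cz B (pL L) f)
    (hk : Cz B (qL L) k) : mulF f (H75.cj u k) = 0 := by
  have hC : ∀ x, x ∈ B.C (pL L) ↔ u⁻¹ * x * u ∈ B.C (qL L) := UU_C hu
  have h1 : mulF f (bh B (pL L)) = f := cz_mul B (pL L) hf
  have h2 : mulF k (bh B (qL L)) = k := cz_mul B (qL L) hk
  have h3 : H75.cj u k = mulF (H75.cj u (bh B (qL L))) (H75.cj u k) := by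
    conv_lhs => rw [← h2]
    rw [cj_mulF]
    refine mulF_comm_of (K := B.C (pL L)) ?_ ?_
    · intro x hx
      change k (u⁻¹ * x * u) = 0
      exact hk.sup _ fun h => hx ((hC x).2 h)
    · intro z hz
      funext x
      change bh B (qL L) (u⁻¹ * (z⁻¹ * x * z) * u) = bh B (qL L) (u⁻¹ * x * u)
      have hz' : (u⁻¹ * z * u)⁻¹ ∈ B.C (qL L) := (B.C (qL L)).inv_mem ((hC z).1 hz)
      have h4 := H10L.bh_conj B (qL L) _ hz' (u⁻¹ * x * u)
      rw [← h4]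
      congr 1
      group
  have h5 : mulF (bh B (pL L)) (H75.cj u (bh B (qL L))) = 0 := orth hB hC hb
  rw [h3]
  conv_lhs => rw [← h1]
  apply ma_injective
  rw [ma_mul, ma_mul, ma_mul, ma_zero]
  have h6 := congrArg ma h5
  rw [ma_mul, ma_zero] at h6
  rw [mul_assoc, ← mul_assoc (ma (bh B (pL L))), h6, zero_mul, mul_zero]

/-- if `EL` is empty all terms vanish -/
theorem term_empty' [Fact ℓ.Prime] (fud : SD.FudStmt)
    (hM : (ℓ : integralClosure ℤ ℂ) ∈ M) [Finite V₀] (hF : Fq ℓ V₀ E₀)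
    (hB : Sb ℓ M E₀ B) (hu : u ∈ UU B.i L) (hE : EL E₀ L = ∅) {a k : G → ℂ}
    (ha : Cz B (pL L) a) (hk : Cz B (qL L) k) :
    mulF a (H75.cj u k) = 0 := by
  classical
  refine term_zero' hB hu (fun hb => ?_) ha hk
  have hf : ∀ v ∈ qL L, ∃ w ∈ pL L, u * B.i v * u⁻¹ = B.i w := UU_fwd hu
  obtain ⟨f, hf'⟩ : ∃ f : V₀ → V₀, ∀ v ∈ qL L, f v ∈ pL L ∧ u * B.i v * u⁻¹ = B.i (f v) := by
    refine ⟨fun v => if h : v ∈ qL L then (hf v h).choose else 1, fun v hv => ?_⟩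
    simp only [dif_pos hv]
    exact (hf v hv).choose_spec
  obtain ⟨σ, hσ, hfσ, -⟩ := fud ℓ M hM V₀ G E₀ hF B hB (pL L) (qL L) u f
    (fun v hv => (hf' v hv).2) (fun v hv => (hf' v hv).1) (fun w hw => by
      obtain ⟨v, hv, e⟩ := UU_bwd hu w hw
      refine ⟨v, hv, ?_⟩
      apply hB.inj
      rw [← (hf' v hv).2, e]) hb
  have hmem : σ ∈ EL E₀ L := by
    refine ⟨hσ, fun s hs => ?_⟩
    have hq : s.2.2.2 ∈ qL L := Subgroup.subset_closure ⟨s, hs, rfl⟩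
    rw [← hfσ _ hq]
    apply hB.inj
    rw [← (hf' _ hq).2, mem_UU.1 hu s hs]
  rw [hE] at hmem
  exact hmem

/-- the number of the elements of `EL` -/
theorem el_card {σ₀ : MulAut V₀} (h₀ : σ₀ ∈ EL E₀ L) :
    (EL E₀ L).ncard = nS E₀ (pL L) := by
  unfold nS
  rw [← Nat.card_coe_set_eq]
  refine Nat.card_congr
    { toFun := fun σ => ⟨σ.1 * σ₀⁻¹, E₀.mul_mem σ.2.1 (E₀.inv_mem h₀.1), ?_⟩
      invFun := fun τ => ⟨τ.1 * σ₀, E₀.mul_mem τ.2.1 h₀.1, ?_⟩
      left_inv := fun σ => Subtype.ext (inv_mul_cancel_right _ _)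
      right_inv := fun τ => Subtype.ext (mul_inv_cancel_right _ _) }
  · have hle : pL L ≤ (σ.1 * σ₀⁻¹ : MulAut V₀).toMonoidHom.eqLocus (MonoidHom.id V₀) := by
      unfold pL
      rw [Subgroup.closure_le]
      rintro p ⟨s, hs, rfl⟩
      change (σ.1 * σ₀⁻¹ : MulAut V₀) s.2.2.1 = s.2.2.1
      rw [MulAut.mul_apply]
      conv_lhs => rw [← h₀.2 s hs]
      rw [MulAut.inv_apply_self, σ.2.2 s hs]
    intro w hw
    exact hle hw
  · intro s hs
    rw [MulAut.mul_apply, h₀.2 s hs]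
    exact τ.2.2 _ (Subgroup.subset_closure ⟨s, hs, rfl⟩)

end blk

/-- X2C -/
theorem x2c (acb : AcbStmt) (fud : SD.FudStmt) : X2cStmt := by
  intro ℓ _ M _ hM hℓ V₀ G _ _ _ _ E₀ hF B hB n m hPE L a b
  classical
  have := Fintype.ofFinite G
  have hn1 : (Nat.card (B.C (pL L)) : ℂ) ≠ 0 := by
    exact_mod_cast (Nat.card_pos (α := B.C (pL L))).ne'
  have hn2 : (Nat.card (B.C (qL L)) : ℂ) ≠ 0 := by
    exact_mod_cast (Nat.card_pos (α := B.C (qL L))).ne'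
  have hst := star' B m a b L
  have hzero : (∀ u ∈ UU B.i L, mulF (a (pL L)) (H75.cj u (b (qL L))) = 0) →
      X12 B m a b L = 0 := by
    intro h
    have h1 : (Nat.card (B.C (pL L)) : ℂ) * Nat.card (B.C (qL L)) * X12 B m a b L = 0 := by
      rw [hst]
      refine Finset.sum_eq_zero fun u _ => ?_
      by_cases hu : u ∈ UU B.i L
      · rw [if_pos hu, h u hu]
        refine Finset.sum_eq_zero fun κ _ => ?_
        rw [Pi.zero_apply, zero_mul]
      · rw [if_neg hu]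
    rcases mul_eq_zero.1 h1 with h2 | h2
    · exact absurd h2 (mul_ne_zero hn1 hn2)
    · exact h2
  refine ⟨fun hpq => hzero fun u hu => ?_, fun ha hb _ => ?_⟩
  · exfalso
    rcases hpq with ⟨hp, hq⟩ | ⟨hp, hq⟩
    · apply hq
      rw [eq_bot_iff]
      intro v hv
      obtain ⟨w, hw, e⟩ := UU_fwd hu v hv
      rw [hp, Subgroup.mem_bot] at hw
      rw [hw, map_one, mul_inv_eq_one] at e
      have h3 : B.i v = B.i 1 := by
        rw [map_one]
        exact mul_eq_left.1 e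
      rw [Subgroup.mem_bot]
      exact hB.inj h3
    · apply hp
      rw [eq_bot_iff]
      intro w hw
      obtain ⟨v, hv, e⟩ := UU_bwd hu w hw
      rw [hq, Subgroup.mem_bot] at hv
      rw [hv, map_one, mul_one, mul_inv_cancel] at e
      have h3 : B.i w = B.i 1 := by
        rw [map_one]
        exact e.symm
      rw [Subgroup.mem_bot]
      exact hB.inj h3
  · rcases Set.eq_empty_or_nonempty (EL E₀ L) with hE | ⟨σ₀, hσ₀⟩
    · rw [hE, finsum_mem_empty, mul_zero]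
      exact hzero fun u hu => term_empty' fud hM hF hB hu hE ha hb
    -- every term is equal to `X12`
    have hterm : ∀ σ ∈ EL E₀ L,
        HX B m (pL L) (fun g => mulF (a (pL L)) (ac B σ (b (qL L))) g) L = X12 B m a b L := by
      intro σ hσ
      obtain ⟨t, htT, ht⟩ := hB.sur σ hσ.1
      have hac : ∀ x, ac B σ (b (qL L)) x = b (qL L) (t⁻¹ * x * t) :=
        ((acb ℓ M hM hℓ V₀ G E₀ hF B hB).2 (qL L) σ hσ.1).1 t htT ht (b (qL L)) hb.sup hb.cls
      have hcj : ∀ u ∈ UU B.i L, H75.cj u (b (qL L)) = ac B σ (b (qL L)) := by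
        intro u hu
        have h1 : t⁻¹ * u ∈ B.C (qL L) := (UU_eq hσ ht).1 hu
        funext x
        rw [hac x]
        change b (qL L) (u⁻¹ * x * u) = _
        have h4 := hb.cls (t⁻¹ * u)⁻¹ ((B.C (qL L)).inv_mem h1) (t⁻¹ * x * t)
        rw [← h4]
        congr 1
        group
      have hsup : ∀ g, g ∉ B.C (pL L) → mulF (a (pL L)) (ac B σ (b (qL L))) g = 0 := by
        refine mulF_supp (B.C (pL L)) ha.sup ?_
        intro x hx
        rw [hac x]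
        apply hb.sup
        intro h
        apply hx
        have htU : t ∈ UU B.i L := (UU_eq hσ ht).2 (by rw [inv_mul_cancel]; exact Subgroup.one_mem _)
        exact (UU_C htU x).2 h
      have hcard : (Finset.univ.filter (· ∈ UU B.i L)).card = Nat.card (B.C (qL L)) := by
        rw [← Fintype.card_subtype, ← Nat.card_eq_fintype_card]
        refine Nat.card_congr
          { toFun := fun u => ⟨t⁻¹ * u, (UU_eq hσ ht).1 u.2⟩
            invFun := fun x => ⟨t * x, (UU_eq hσ ht).2 (by rw [inv_mul_cancel_left]; exact x.2)⟩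
            left_inv := fun u => Subtype.ext (mul_inv_cancel_left t u)
            right_inv := fun x => Subtype.ext (inv_mul_cancel_left t x) }
      have h1 : (Nat.card (B.C (pL L)) : ℂ) * Nat.card (B.C (qL L)) * X12 B m a b L =
          (Nat.card (B.C (pL L)) : ℂ) * Nat.card (B.C (qL L)) *
          HX B m (pL L) (fun g => mulF (a (pL L)) (ac B σ (b (qL L))) g) L := by
        rw [hst, ← Finset.sum_filter]
        rw [Finset.sum_congr rfl fun u hu => by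
          rw [hcj u (Finset.mem_filter.1 hu).2], Finset.sum_const, nsmul_eq_mul, hcard,
          ← hx_eq B m L hsup]
        ring
      exact (mul_left_cancel₀ (mul_ne_zero hn1 hn2) h1).symm
    have hfin : (EL E₀ L).Finite := by
      have hfm : Finite (MulAut V₀) := Finite.of_injective (fun σ : MulAut V₀ => (σ : V₀ → V₀))
        DFunLike.coe_injective
      exact Set.toFinite _
    have hpos : (nS E₀ (pL L) : ℂ) ≠ 0 := by
      rw [← el_card hσ₀]
      have h2 : 0 < (EL E₀ L).ncard := (Set.ncard_pos hfin).2 ⟨σ₀, hσ₀⟩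
      exact_mod_cast h2.ne'
    rw [finsum_mem_congr rfl hterm, finsum_mem_eq_finite_toFinset_sum _ hfin, Finset.sum_const,
      nsmul_eq_mul, ← Set.ncard_eq_toFinset_card _ hfin, el_card hσ₀,
      inv_mul_cancel_left₀ hpos]

end Pool.Agent.PP.SE.H98X
end
end -- Pool.Agent.Helper98_ASE.X2C
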