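import Pool.Agent.Helper12_AWB.B218
import Pool.Agent.Helper12_AWB.B228
import Pool.Agent.Helper12_AWB.B271

/-!
# Merged copies (generated) of the modules

* `Pool.Agent.Helper30_ASD.SMX1`
* `Pool.Agent.Helper30_ASD.SMX2`
* `Pool.Agent.Helper30_ASD.SMX3`
* `Pool.Agent.Helper69_ASO.CJT`
* `Pool.Agent.Helper94_ASE.ACB`
* `Pool.Agent.Helper3_ASE.RNC`
* `Pool.Agent.Helper69_ASD.CJD`
-/

set_option autoImplicit false

section -- Pool.Agent.Helper30_ASD.SMX1

/-!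
# Squad ASD, row SMX, part 1: the second main theorem in the subgroup `C W`, uniqueness of the block
-/

open scoped BigOperators

set_option autoImplicit false

noncomputable section

namespace Pool.Agent.PP.SD.H30

open Pool.Agent.Helper51_AWC Pool.Agent.Helper79_WRA Pool.Agent.PP Pool.Agent.PP.KF
open Pool.Agent.PP.K9 Pool.Agent.PP.K9.H97 Pool.Agent.PP.H75 Pool.Agent.PP.T3 Pool.Agent.PP.SO

attribute [local instance] Ideal.Quotient.field

section smg

variable {G : Type} [Group G] [Finite G] {ℓ : ℕ} {M : Ideal (integralClosure ℤ ℂ)} [M.IsMaximal]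

omit [Finite G] in
theorem mulF_comm_cl {F H : Type} [Field F] [Group H] [Finite H] {a b : H → F} (hb : IsCl b) :
    mulF a b = mulF b a :=
  mulF_comm_of (K := ⊤) (fun _ hx => absurd (Subgroup.mem_top _) hx) (fun k _ => cj_isCl k hb)

/-- the isomorphism of `H ∩ C(z)` with the centraliser of `z` in `H` -/
def phi {H X : Subgroup G} {z : G} (hz : z ∈ H) (hX : ∀ y, y ∈ X ↔ y ∈ H ∧ y * z = z * y) :
    X ≃* Cu (⟨z, hz⟩ : H) where
  toFun c := ⟨⟨c, ((hX c).1 c.2).1⟩, Subgroup.mem_centralizer_singleton_iff.2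
    (Subtype.ext ((hX c).1 c.2).2)⟩
  invFun c := ⟨(c : H), (hX _).2 ⟨(c : H).2,
    congrArg Subtype.val (Subgroup.mem_centralizer_singleton_iff.1 c.2)⟩⟩
  left_inv _ := rfl
  right_inv _ := rfl
  map_mul' _ _ := rfl

/-- the second main theorem for the element `z` of the subgroup `H` -/
theorem smg_sub (hSmg : T3.SmgStmt) [Fact ℓ.Prime] (hM : (ℓ : integralClosure ℤ ℂ) ∈ M)
    {H X : Subgroup G} {z : G} (hz : z ∈ H) (hzE : El ℓ z)
    (hX : ∀ y, y ∈ X ↔ y ∈ H ∧ y * z = z * y) {e β : G → FF M} (he : Bx H e) (hβ : Bx X β)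
    (hne : mulF (fun t : X => e t) (fun t : X => β t) ≠ fun t : X => β t) {χ : G → ℂ}
    (hχ : (fun t : H => χ t) ∈ IrrE M (fun t : H => e t)) :
    ∑ᶠ y : G, PP.ext0 X (eh M (fun t : X => β t)) y * χ (z * y) = 0 := by
  classical
  have hF : GoodF ℓ (FF M) := H50.fld ℓ Fact.out M hM
  obtain ⟨y₀, hy₀⟩ : ∃ y₀ : H, y₀ = ⟨z, hz⟩ := ⟨_, rfl⟩
  set φ := phi hz hX with hφ
  set b : Cu (⟨z, hz⟩ : H) → FF M := fun c => β ((c : H) : G) with hb
  have hbb : IsBlk b := by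
    have h := H20.IsBlk_equiv φ.symm hβ.blk
    exact h
  have hy₀E : El ℓ (⟨z, hz⟩ : H) := by
    obtain ⟨n, hn⟩ := hzE
    exact ⟨n, Subtype.ext hn⟩
  have hgi : IsIdem (fun t : Cu (⟨z, hz⟩ : H) => (fun t : H => e t) t) :=
    T3.H88.idem_cu hF he.blk.1 hy₀E
  -- the product of the two idempotents
  have hprod : mulF (fun t : Cu (⟨z, hz⟩ : H) => (fun t : H => e t) t) b = 0 := by
    rw [mulF_comm_cl hbb.1.1]
    rcases hbb.2.2 _ hgi with h | h
    · exfalso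
      apply hne
      rw [← mulF_comm_cl hbb.1.1] at h
      have h2 := H20.mulF_equiv φ (fun t : Cu (⟨z, hz⟩ : H) => (fun t : H => e t) t) b
      have h3 : (fun h : X => (mulF (fun t : Cu (⟨z, hz⟩ : H) => (fun t : H => e t) t) b) (φ h)) =
          fun t : X => β t := by
        rw [h]
        rfl
      exact h2.trans h3
    · exact h
  have hsum : ∑ᶠ y : G, PP.ext0 X (eh M (fun t : X => β t)) y * χ (z * y) =
      ∑ᶠ c : Cu (⟨z, hz⟩ : H), eh M b c * χ (z * ((c : H) : G)) := by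
    rw [H75.sum_sub X _ (fun x hx => by
      have : PP.ext0 X (eh M (fun t : X => β t)) x = 0 := by
        unfold PP.ext0
        rw [dif_neg hx]
      rw [this, zero_mul])]
    rw [← finsum_comp_equiv φ.toEquiv]
    apply finsum_congr
    intro c
    have h4 : PP.ext0 X (eh M (fun t : X => β t)) (c : G) = eh M (fun t : X => β t) c := by
      unfold PP.ext0
      rw [dif_pos c.2]
    have h5 := T3.H62.eh_equiv (M := M) φ (b := fun t : X => β t) hβ.blk.1.1 c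
    rw [h4, ← h5]
    rfl
  rw [hsum]
  by_cases hz1 : z = 1
  · -- two different blocks of `H`
    subst hz1
    have hHX : ∀ y, y ∈ X ↔ y ∈ H := fun y => by rw [hX y]; simp
    have hXH : X = H := Subgroup.ext hHX
    subst hXH
    rw [← hsum]
    have hne' : e ≠ β := by
      rintro rfl
      exact hne he.blk.1.2
    have horth : mulF (eh M (fun t : X => β t)) (eh M (fun t : X => e t)) = 0 := by
      refine T3.H62.eh_orth hβ.blk.1 he.blk.1 ?_
      rcases hβ.dich he with h3 | h3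
      · exact absurd h3.symm hne'
      · rw [← mulF_res X e hβ.supp, h3]
        rfl
    have := Fintype.ofFinite X
    have h1 : H50.om (eh M (fun t : X => β t)) (fun t : X => χ t) = 0 := by
      refine (KF.H25.eh_om (M := M) (fun t : X => β t) hχ.1).2 ?_
      intro hχβ
      have h2 := KF.H25.chv_eh (M := M) (fun t : X => β t) hχ.1 (eh M (fun t : X => e t))
      rw [horth, (KF.H25.eh_om (M := M) (fun t : X => β t) hχ.1).1 hχβ, one_mul] at h2
      have h3 := (KF.H25.eh_om (M := M) (fun t : X => e t) hχ.1).1 hχ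
      rw [H50.om] at h3
      have h4 : chv (eh M (fun t : X => e t)) (fun t : X => χ t) = 0 := by
        rw [← h2, chv]
        simp
      rw [chv, finsum_eq_sum_of_fintype] at h4
      rw [h4, zero_div] at h3
      exact zero_ne_one h3
    rw [H50.om, div_eq_zero_iff] at h1
    rcases h1 with h1 | h1
    · rw [H75.sum_sub X _ (fun x hx => by
        have : PP.ext0 X (eh M (fun t : X => β t)) x = 0 := by
          unfold PP.ext0
          rw [dif_neg hx]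
        rw [this, zero_mul]), finsum_eq_sum_of_fintype, ← h1]
      refine Finset.sum_congr rfl fun c _ => ?_
      have h4 : PP.ext0 X (eh M (fun t : X => β t)) (c : G) = eh M (fun t : X => β t) c := by
        unfold PP.ext0
        rw [dif_pos c.2]
      rw [h4, one_mul]
    · exact absurd h1 (irr_one_ne (χ := fun t : X => χ t) hχ.1)
  · have hy1 : (⟨z, hz⟩ : H) ≠ 1 := fun h => hz1 (congrArg Subtype.val h)
    have h := (hSmg ℓ M hM H ⟨z, hz⟩ 1 hy1 hy₀E (Subgroup.one_mem _) (by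
      unfold Reg
      rw [orderOf_one]
      exact Nat.coprime_one_left ℓ) b hbb.1 (fun t : H => e t) he.blk.1).2 hprod
      (fun t : H => χ t) hχ
    unfold gbv at h
    rw [← h]
    apply finsum_congr
    intro c
    rw [mul_one]
    rfl

end smg

end Pool.Agent.PP.SD.H30
end
end -- Pool.Agent.Helper30_ASD.SMX1

section -- Pool.Agent.Helper30_ASD.SMX2

/-!
# Squad ASD, row SMX, part 2: uniqueness of the block, the maps
-/

open scoped BigOperators

set_option autoImplicit false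
set_option linter.unusedSectionVars false

noncomputable section

namespace Pool.Agent.PP.SD.H30

open Pool.Agent.Helper51_AWC Pool.Agent.Helper79_WRA Pool.Agent.PP Pool.Agent.PP.KF
open Pool.Agent.PP.K9 Pool.Agent.PP.K9.H97 Pool.Agent.PP.H75 Pool.Agent.PP.T3 Pool.Agent.PP.SO
open Pool.Agent.PP.SO.H82 (memC conj_of_mem mem_of_conj)
open Pool.Agent.PP.SO.H59 (C_mono i_mem_C fc_out)

attribute [local instance] Ideal.Quotient.field

section blk

variable {V₀ G : Type} [CommGroup V₀] [Group G] [Finite G] {ℓ : ℕ}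
  {M : Ideal (integralClosure ℤ ℂ)} [M.IsMaximal] {E₀ : Subgroup (MulAut V₀)}
  {B : Bk (FF M) V₀ G}

omit [Finite G] in
theorem cent_le (W : Subgroup V₀) : Subgroup.centralizer (B.i.range : Set G) ≤ B.C W := by
  unfold Bk.C
  refine Subgroup.centralizer_le ?_
  rintro _ ⟨v, -, rfl⟩
  exact ⟨v, rfl⟩

/-- uniqueness of the block over `b W'` -/
theorem uniq_blk [Finite V₀] [Fact ℓ.Prime] (hM : (ℓ : integralClosure ℤ ℂ) ∈ M) (hB : Sb ℓ M E₀ B)
    {W W' : Subgroup V₀} (hle : W ≤ W') {b' : G → FF M} (hb' : Bx (B.C W) b')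
    (h : mulF (fun t : B.C W' => b' t) (fun t : B.C W' => B.b W' t) =
      fun t : B.C W' => B.b W' t) : b' = B.b W := by
  classical
  have hF : GoodF ℓ (FF M) := H50.fld ℓ Fact.out M hM
  have hV : IsPGroup ℓ B.i.range := hB.ld.tp.pg
  have hCC : B.C W' ≤ B.C W := C_mono hle
  have hVC : ∀ p ∈ B.i.range, ∀ U : Subgroup V₀, p ∈ B.C U := by
    rintro _ ⟨v, rfl⟩ U
    exact i_mem_C v U
  have hWb : Bx (B.C W') (B.b W') := (hB.lb W').blk
  have hW : Bx (B.C W) (B.b W) := (hB.lb W).blk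
  set r : G → FF M := H75.ext0 (B.C W') (fun t : B.C W' => b' t) with hr
  have hr1 : ∀ x ∈ B.C W', r x = b' x := fun x hx => ext0_apply (B.C W') _ ⟨x, hx⟩
  have hr0 : ∀ x, x ∉ B.C W' → r x = 0 := ext0_supp _ _
  have hmul : mulF r (B.b W') = B.b W' := by
    apply eq_of_res (mulF_supp (B.C W') hr0 hWb.supp) hWb.supp
    rw [mulF_res (B.C W') _ hr0]
    have h1 : (fun t : B.C W' => r t) = fun t : B.C W' => b' t :=
      funext fun t => hr1 t t.2
    rw [h1]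
    exact h
  have hinv : ∀ {U : Subgroup V₀} {c : G → FF M}, Bx (B.C U) c → ∀ p ∈ B.i.range, ∀ x,
      c (p * x * p⁻¹) = c x := fun {U c} hc p hp =>
    (cj_eq_iff p c).1 (hc.ix.inv (hVC p hp U))
  have hinvr : ∀ p ∈ B.i.range, ∀ x, r (p * x * p⁻¹) = r x := by
    intro p hp x
    by_cases hx : x ∈ B.C W'
    · have hx' : p * x * p⁻¹ ∈ B.C W' :=
        (B.C W').mul_mem ((B.C W').mul_mem (hVC p hp W') hx) ((B.C W').inv_mem (hVC p hp W'))
      rw [hr1 _ hx, hr1 _ hx', hinv hb' p hp x]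
    · have hx' : p * x * p⁻¹ ∉ B.C W' := by
        intro h'
        apply hx
        have h2 := (B.C W').mul_mem ((B.C W').mul_mem ((B.C W').inv_mem (hVC p hp W')) h')
          (hVC p hp W')
        have e : p⁻¹ * (p * x * p⁻¹) * p = x := by group
        rwa [e] at h2
      rw [hr0 _ hx, hr0 _ hx']
  have hbr : br B.i.range r = br B.i.range b' := by
    funext x
    by_cases hx : x ∈ Subgroup.centralizer (B.i.range : Set G)
    · rw [H66.br_of_mem hx, H66.br_of_mem hx, hr1 x (cent_le W' hx)]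
    · rw [H66.br_of_not_mem hx, H66.br_of_not_mem hx]
  have h1 : mulF (br B.i.range b') B.g = B.g := by
    have h2 := H66.br_mulF hF hV hinvr (hinv hWb)
    rw [hmul, hbr] at h2
    calc mulF (br B.i.range b') B.g
        = mulF (br B.i.range b') (mulF (br B.i.range (B.b W')) B.g) := by rw [(hB.lb W').gam]
      _ = mulF (mulF (br B.i.range b') (br B.i.range (B.b W'))) B.g := (mulF_assoc _ _ _).symm
      _ = B.g := by rw [← h2, (hB.lb W').gam]
  rcases hb'.dich hW with h2 | h2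
  · exact h2
  · exfalso
    apply hB.ld.gam.ne
    have h3 := H66.br_mulF hF hV (hinv hb') (hinv hW)
    rw [h2, T3.H88.br_zero] at h3
    calc B.g = mulF (br B.i.range b') (mulF (br B.i.range (B.b W)) B.g) := by
          rw [(hB.lb W).gam, h1]
      _ = mulF (mulF (br B.i.range b') (br B.i.range (B.b W))) B.g := (mulF_assoc _ _ _).symm
      _ = 0 := by rw [← h3, mulF_zero_left]

end blk

section maps

variable {F V₀ G : Type} [CommGroup V₀] [Group G] {B : Bk F V₀ G}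

/-- the subgroup generated by the `q x^(-k)` -/
def Wx (L : Set (V₀ × V₀ × ℤ)) (x : V₀) : Subgroup V₀ :=
  Subgroup.closure {v | ∃ s ∈ L, s.2.1 * (x ^ s.2.2)⁻¹ = v}

/-- the elements which map the `q x^(-k)` to the `p` -/
def TX (B : Bk F V₀ G) (L : Set (V₀ × V₀ × ℤ)) (x : V₀) : Set G :=
  {w | ∀ s ∈ L, w * B.i (s.2.1 * (x ^ s.2.2)⁻¹) * w⁻¹ = B.i s.1}

variable {L : Set (V₀ × V₀ × ℤ)} {x : V₀} {w : G}

theorem TX_fwd (hw : w ∈ TX B L x) : ∀ v ∈ Wx L x, ∃ u ∈ p1 L, w * B.i v * w⁻¹ = B.i u := by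
  have hle : Wx L x ≤ ((p1 L).map B.i).comap ((MulAut.conj w).toMonoidHom.comp B.i) := by
    unfold Wx
    rw [Subgroup.closure_le]
    rintro _ ⟨s, hs, rfl⟩
    exact ⟨s.1, Subgroup.subset_closure ⟨s, hs, rfl⟩, (hw s hs).symm⟩
  intro v hv
  obtain ⟨u, hu, hu2⟩ := hle hv
  exact ⟨u, hu, hu2.symm⟩

theorem TX_bwd (hw : w ∈ TX B L x) : ∀ u ∈ p1 L, ∃ v ∈ Wx L x, w * B.i v * w⁻¹ = B.i u := by
  have hle : p1 L ≤ ((Wx L x).map ((MulAut.conj w).toMonoidHom.comp B.i)).comap B.i := by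
    unfold p1
    rw [Subgroup.closure_le]
    rintro _ ⟨s, hs, rfl⟩
    exact ⟨s.2.1 * (x ^ s.2.2)⁻¹, Subgroup.subset_closure ⟨s, hs, rfl⟩, hw s hs⟩
  intro u hu
  obtain ⟨v, hv, hv2⟩ := hle hu
  exact ⟨v, hv, hv2⟩

theorem TX_C (hw : w ∈ TX B L x) (y : G) : y ∈ B.C (p1 L) ↔ w⁻¹ * y * w ∈ B.C (Wx L x) := by
  rw [memC, memC]
  constructor
  · intro h v hv
    obtain ⟨u, hu, e⟩ := TX_fwd hw v hv
    have h1 := h u hu
    rw [← e] at h1
    have h2 : B.i v * (w⁻¹ * y * w) = w⁻¹ * (w * B.i v * w⁻¹ * y) * w := by group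
    rw [h2, h1]
    group
  · intro h u hu
    obtain ⟨v, hv, e⟩ := TX_bwd hw u hu
    have h1 := h v hv
    rw [← e]
    have h2 : w * B.i v * w⁻¹ * y = w * (B.i v * (w⁻¹ * y * w)) * w⁻¹ := by group
    rw [h2, h1]
    group

omit [Group G] in
theorem Wx_sup (L : Set (V₀ × V₀ × ℤ)) (x : V₀) :
    Wx L x ⊔ Subgroup.zpowers x = p2 L ⊔ Subgroup.zpowers x := by
  have hx1 : x ∈ p2 L ⊔ Subgroup.zpowers x :=
    Subgroup.mem_sup_right (Subgroup.mem_zpowers x)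
  have hx2 : x ∈ Wx L x ⊔ Subgroup.zpowers x :=
    Subgroup.mem_sup_right (Subgroup.mem_zpowers x)
  apply le_antisymm
  · apply sup_le _ le_sup_right
    unfold Wx
    rw [Subgroup.closure_le]
    rintro _ ⟨s, hs, rfl⟩
    exact Subgroup.mul_mem _ (Subgroup.mem_sup_left (Subgroup.subset_closure ⟨s, hs, rfl⟩))
      (Subgroup.inv_mem _ (Subgroup.zpow_mem _ hx1 _))
  · apply sup_le _ le_sup_right
    unfold p2
    rw [Subgroup.closure_le]
    rintro _ ⟨s, hs, rfl⟩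
    have h1 : s.2.1 * (x ^ s.2.2)⁻¹ ∈ Wx L x ⊔ Subgroup.zpowers x :=
      Subgroup.mem_sup_left (Subgroup.subset_closure ⟨s, hs, rfl⟩)
    have h2 := Subgroup.mul_mem _ h1 (Subgroup.zpow_mem _ hx2 s.2.2)
    rw [inv_mul_cancel_right] at h2
    exact h2

/-- the centraliser of `W'` -/
theorem mem_C_sup (W : Subgroup V₀) (x : V₀) (y : G) :
    y ∈ B.C (W ⊔ Subgroup.zpowers x) ↔ y ∈ B.C W ∧ B.i x * y = y * B.i x := by
  constructor
  · intro h
    exact ⟨(memC B W y).2 fun v hv => (memC B _ y).1 h v (Subgroup.mem_sup_left hv),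
      (memC B _ y).1 h x (Subgroup.mem_sup_right (Subgroup.mem_zpowers x))⟩
  · rintro ⟨h1, h2⟩
    have hle : W ⊔ Subgroup.zpowers x ≤ (Subgroup.centralizer ({y} : Set G)).comap B.i := by
      rw [sup_le_iff, Subgroup.zpowers_le]
      refine ⟨fun v hv => ?_, ?_⟩
      · exact Subgroup.mem_centralizer_singleton_iff.2 ((memC B W y).1 h1 v hv)
      · exact Subgroup.mem_centralizer_singleton_iff.2 h2
    rw [memC]
    intro v hv
    exact Subgroup.mem_centralizer_singleton_iff.1 (hle hv)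

/-- `Σ(x)` -/
def Sx (E₀ : Subgroup (MulAut V₀)) (L : Set (V₀ × V₀ × ℤ)) (x : V₀) : Set (MulAut V₀) :=
  {σ | σ ∈ E₀ ∧ ∀ s ∈ L, σ (s.2.1 * (x ^ s.2.2)⁻¹) = s.1}

variable {E₀ : Subgroup (MulAut V₀)} {σ : MulAut V₀}

omit [Group G] in
theorem Sx_map (hσ : σ ∈ Sx E₀ L x) : (Wx L x).map σ.toMonoidHom = p1 L := by
  unfold Wx p1
  rw [MonoidHom.map_closure]
  congr 1
  ext u
  constructor
  · rintro ⟨_, ⟨s, hs, rfl⟩, rfl⟩
    exact ⟨s, hs, (hσ.2 s hs).symm⟩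
  · rintro ⟨s, hs, rfl⟩
    exact ⟨_, ⟨s, hs, rfl⟩, hσ.2 s hs⟩

omit [Group G] in
theorem Sx_map2 (hσ : σ ∈ Sx E₀ L x) : (p2 L ⊔ Subgroup.zpowers x).map σ.toMonoidHom =
    p1 L ⊔ Subgroup.zpowers (σ x) := by
  rw [← Wx_sup, Subgroup.map_sup, Sx_map hσ]
  congr 1
  exact MonoidHom.map_zpowers _ _

/-- the number of the elements of `Σ(x)` -/
theorem Sx_card (hne : (Sx E₀ L x).Nonempty) : (Sx E₀ L x).ncard = Nat.card (St E₀ (p1 L)) := by
  obtain ⟨σ₀, hσ₀⟩ := hne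
  rw [← Nat.card_coe_set_eq]
  refine Nat.card_congr
    { toFun := fun σ => ⟨σ.1 * σ₀⁻¹, E₀.mul_mem σ.2.1 (E₀.inv_mem hσ₀.1), ?_⟩
      invFun := fun τ => ⟨τ.1 * σ₀, E₀.mul_mem τ.2.1 hσ₀.1, ?_⟩
      left_inv := fun σ => Subtype.ext (by simp)
      right_inv := fun τ => Subtype.ext (by simp) }
  · have hle : p1 L ≤ (MonoidHom.eqLocus (σ.1 * σ₀⁻¹ : MulAut V₀).toMonoidHom
        (MonoidHom.id V₀)) := by
      unfold p1
      rw [Subgroup.closure_le]
      rintro _ ⟨s, hs, rfl⟩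
      show (σ.1 * σ₀⁻¹ : MulAut V₀) s.1 = s.1
      rw [MulAut.mul_apply]
      have h1 : σ₀⁻¹ s.1 = s.2.1 * (x ^ s.2.2)⁻¹ := by
        rw [← hσ₀.2 s hs, MulAut.inv_apply_self]
      rw [h1, σ.2.2 s hs]
    exact fun w hw => hle hw
  · intro s hs
    rw [MulAut.mul_apply, hσ₀.2 s hs]
    exact τ.2.2 _ (Subgroup.subset_closure ⟨s, hs, rfl⟩)

end maps

end Pool.Agent.PP.SD.H30
end
end -- Pool.Agent.Helper30_ASD.SMX2

section -- Pool.Agent.Helper30_ASD.SMX3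

/-!
# Squad ASD, row SMX, part 3: the sum over the `w`
-/

open scoped BigOperators

set_option autoImplicit false
set_option linter.unusedSectionVars false

noncomputable section

namespace Pool.Agent.PP.SD.H30

open Pool.Agent.Helper51_AWC Pool.Agent.Helper79_WRA Pool.Agent.PP Pool.Agent.PP.KF
open Pool.Agent.PP.K9 Pool.Agent.PP.K9.H97 Pool.Agent.PP.H75 Pool.Agent.PP.T3 Pool.Agent.PP.SO
open Pool.Agent.PP.SO.H82 (memC conj_of_mem mem_of_conj)
open Pool.Agent.PP.SO.H59 (C_mono i_mem_C fc_out finsum_mem_ite)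

attribute [local instance] Ideal.Quotient.field

section blk

variable {V₀ G : Type} [CommGroup V₀] [Group G] [Finite G] {ℓ : ℕ}
  {M : Ideal (integralClosure ℤ ℂ)} [M.IsMaximal] {E₀ : Subgroup (MulAut V₀)}
  {B : Bk (FF M) V₀ G} {L : Set (V₀ × V₀ × ℤ)} {x : V₀} {χ : G → ℂ}

theorem ch_conj {W : Subgroup V₀} (hχ : χ ∈ Ch B W) {h : G} (hh : h ∈ B.C W) (y : G) :
    χ (h * y * h⁻¹) = χ y := by
  by_cases hy : y ∈ B.C W
  · exact irr_conj hχ.2.1 (⟨y, hy⟩ : B.C W) ⟨h, hh⟩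
  · have hy' : h * y * h⁻¹ ∉ B.C W := by
      intro h'
      apply hy
      have h2 := (B.C W).mul_mem ((B.C W).mul_mem ((B.C W).inv_mem hh) h') hh
      have e : h⁻¹ * (h * y * h⁻¹) * h = y := by group
      rwa [e] at h2
    rw [hχ.1 y hy, hχ.1 _ hy']

/-- the inner sum -/
def gW (B : Bk (FF M) V₀ G) (W' : Subgroup V₀) (x : V₀) (χ : G → ℂ) (w : G) : ℂ :=
  ∑ᶠ s, bh B W' s * χ (w * (B.i x * s) * w⁻¹)

/-- the lift of the conjugate block -/
theorem bh_cjX (hB : Sb ℓ M E₀ B) {X : Subgroup G} {W' : Subgroup V₀} {w : G}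
    (hC : ∀ y, y ∈ X ↔ w⁻¹ * y * w ∈ B.C W') (y : G) :
    bh B W' (w⁻¹ * y * w) = PP.ext0 X (eh M (fun t : X => H75.cj w (B.b W') t)) y := by
  classical
  by_cases hy : y ∈ X
  · have hb' : IsIdem (fun t : B.C W' => B.b W' t) := (hB.lb W').blk.blk.1
    have h3 := T3.H62.eh_equiv (M := M) (SO.H82.cjW hC) hb'.1 ((SO.H82.cjW hC).symm ⟨y, hy⟩)
    rw [(SO.H82.cjW hC).apply_symm_apply] at h3
    have h4 : (fun y : X => B.b W' (((SO.H82.cjW hC).symm y : B.C W') : G)) =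
        fun t : X => H75.cj w (B.b W') t := rfl
    rw [h4] at h3
    have h5 : PP.ext0 X (eh M (fun t : X => H75.cj w (B.b W') t)) y =
        eh M (fun t : X => H75.cj w (B.b W') t) ⟨y, hy⟩ := by
      unfold PP.ext0
      rw [dif_pos hy]
    rw [h5, h3]
    have h6 : w⁻¹ * y * w ∈ B.C W' := (hC y).1 hy
    unfold bh PP.ext0
    rw [dif_pos h6]
    rfl
  · rw [SO.H10L.bh_supp B W' _ (fun h => hy ((hC y).2 h))]
    unfold PP.ext0
    rw [dif_neg hy]

/-- if the inner sum is not zero then the block is the right one -/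
theorem gW_blk [Finite V₀] (hSmg : T3.SmgStmt) [Fact ℓ.Prime] (hM : (ℓ : integralClosure ℤ ℂ) ∈ M)
    (hF : ∀ v : V₀, v ^ ℓ = 1) (hB : Sb ℓ M E₀ B) {w : G} (hw : w ∈ TX B L x)
    (hχ : χ ∈ Ch B (p1 L)) (h : gW B (p2 L ⊔ Subgroup.zpowers x) x χ w ≠ 0) :
    H75.cj w (B.b (Wx L x)) = B.b (p1 L) := by
  classical
  obtain ⟨z, hz⟩ : ∃ z, z = w * B.i x * w⁻¹ := ⟨_, rfl⟩
  obtain ⟨X, hX⟩ : ∃ X : Subgroup G, X = B.C (p1 L) ⊓ Cu z := ⟨_, rfl⟩
  have hX1 : ∀ y, y ∈ X ↔ y ∈ B.C (p1 L) ∧ y * z = z * y := by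
    intro y
    rw [hX, Subgroup.mem_inf]
    exact and_congr_right fun _ => Subgroup.mem_centralizer_singleton_iff
  have hX2 : ∀ y, y ∈ X ↔ w⁻¹ * y * w ∈ B.C (p2 L ⊔ Subgroup.zpowers x) := by
    intro y
    rw [hX1, ← Wx_sup, mem_C_sup, ← TX_C hw]
    refine and_congr_right fun _ => ?_
    rw [hz]
    constructor
    · intro h1
      have h2 : B.i x * (w⁻¹ * y * w) = w⁻¹ * (w * B.i x * w⁻¹ * y) * w := by group
      rw [h2, ← h1]
      group
    · intro h1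
      have h2 : y * (w * B.i x * w⁻¹) = w * (w⁻¹ * y * w * B.i x) * w⁻¹ := by group
      rw [h2, ← h1]
      group
  have hzC : z ∈ B.C (p1 L) := by
    rw [TX_C hw, hz]
    have e : w⁻¹ * (w * B.i x * w⁻¹) * w = B.i x := by group
    rw [e]
    exact i_mem_C x _
  have hzE : El ℓ z := by
    refine ⟨1, ?_⟩
    rw [pow_one, hz, conj_pow, ← map_pow, hF, map_one, mul_one, mul_inv_cancel]
  have hβ : Bx X (H75.cj w (B.b (p2 L ⊔ Subgroup.zpowers x))) :=
    T3.H62.bx_cj hX2 (hB.lb _).blk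
  -- the inner sum
  have hsum : gW B (p2 L ⊔ Subgroup.zpowers x) x χ w = ∑ᶠ y : G, PP.ext0 X (eh M (fun t : X =>
      H75.cj w (B.b (p2 L ⊔ Subgroup.zpowers x)) t)) y * χ (z * y) := by
    unfold gW
    rw [← finsum_comp_equiv (MulAut.conj w).symm.toEquiv]
    apply finsum_congr
    intro y
    have e1 : (MulAut.conj w).symm.toEquiv y = w⁻¹ * y * w := rfl
    rw [e1, bh_cjX hB hX2 y, hz]
    congr 2
    group
  have h1 : mulF (fun t : X => B.b (p1 L) t) (fun t : X =>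
      H75.cj w (B.b (p2 L ⊔ Subgroup.zpowers x)) t) =
      fun t : X => H75.cj w (B.b (p2 L ⊔ Subgroup.zpowers x)) t := by
    by_contra hne
    apply h
    rw [hsum]
    exact smg_sub hSmg hM hzC hzE hX1 (hB.lb _).blk hβ hne hχ.2
  -- back to `C W'`
  have hb' : Bx (B.C (Wx L x)) (H75.cj w⁻¹ (B.b (p1 L))) := by
    refine T3.H62.bx_cj (fun y => ?_) (hB.lb _).blk
    change y ∈ B.C (Wx L x) ↔ w⁻¹⁻¹ * y * w⁻¹ ∈ B.C (p1 L)
    rw [TX_C hw]
    have e : w⁻¹ * (w⁻¹⁻¹ * y * w⁻¹) * w = y := by group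
    rw [e]
  have hle : Wx L x ≤ p2 L ⊔ Subgroup.zpowers x := by
    rw [← Wx_sup]
    exact le_sup_left
  have h2 := uniq_blk hM hB hle hb' (by
    have h3 := H20.mulF_equiv (SO.H82.cjW hX2) (fun t : X => B.b (p1 L) t)
      (fun t : X => H75.cj w (B.b (p2 L ⊔ Subgroup.zpowers x)) t)
    rw [h1] at h3
    have e1 : (fun h => (fun t : X => B.b (p1 L) t) ((SO.H82.cjW hX2) h)) =
        fun t : B.C (p2 L ⊔ Subgroup.zpowers x) => H75.cj w⁻¹ (B.b (p1 L)) t := by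
      funext t
      change B.b (p1 L) (w * (t : G) * w⁻¹) = B.b (p1 L) (w⁻¹⁻¹ * (t : G) * w⁻¹)
      rw [inv_inv]
    have e2 : (fun h => (fun t : X => H75.cj w (B.b (p2 L ⊔ Subgroup.zpowers x)) t)
        ((SO.H82.cjW hX2) h)) =
        fun t : B.C (p2 L ⊔ Subgroup.zpowers x) => B.b (p2 L ⊔ Subgroup.zpowers x) t := by
      funext t
      change B.b _ (w⁻¹ * (w * (t : G) * w⁻¹) * w) = B.b _ (t : G)
      congr 1
      group
    rw [e1, e2] at h3
    exact h3)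
  rw [← h2, cj_cj_inv]

/-- then there is `σ ∈ Σ(x)` -/
theorem gW_ne (hSmg : T3.SmgStmt) (fud : FudStmt) [Fact ℓ.Prime]
    (hM : (ℓ : integralClosure ℤ ℂ) ∈ M) [Finite V₀] (hF : Fq ℓ V₀ E₀) (hB : Sb ℓ M E₀ B) {w : G}
    (hw : w ∈ TX B L x) (hχ : χ ∈ Ch B (p1 L))
    (h : gW B (p2 L ⊔ Subgroup.zpowers x) x χ w ≠ 0) : (Sx E₀ L x).Nonempty := by
  classical
  have hcj := gW_blk hSmg hM hF.ex hB hw hχ h
  have hf := TX_fwd hw
  obtain ⟨f, hf'⟩ : ∃ f : V₀ → V₀, ∀ v ∈ Wx L x, f v ∈ p1 L ∧ w * B.i v * w⁻¹ = B.i (f v) := by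
    refine ⟨fun v => if h : v ∈ Wx L x then (hf v h).choose else 1, fun v hv => ?_⟩
    simp only [dif_pos hv]
    exact (hf v hv).choose_spec
  obtain ⟨σ, hσ, hfσ, -⟩ := fud ℓ M hM V₀ G E₀ hF B hB (p1 L) (Wx L x) w f
    (fun v hv => (hf' v hv).2) (fun v hv => (hf' v hv).1) (fun u hu => by
      obtain ⟨v, hv, e⟩ := TX_bwd hw u hu
      refine ⟨v, hv, ?_⟩
      apply hB.inj
      rw [← (hf' v hv).2, e]) hcj
  refine ⟨σ, hσ, fun s hs => ?_⟩
  have hv : s.2.1 * (x ^ s.2.2)⁻¹ ∈ Wx L x := Subgroup.subset_closure ⟨s, hs, rfl⟩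
  rw [← hfσ _ hv]
  apply hB.inj
  rw [← (hf' _ hv).2]
  exact hw s hs

variable {σ : MulAut V₀} {t : G}

omit [Finite G] in
theorem TX_iff (hσ : σ ∈ Sx E₀ L x) (ht : ∀ v, t * B.i v * t⁻¹ = B.i (σ v)) (w : G) :
    w ∈ TX B L x ↔ t⁻¹ * w ∈ B.C (Wx L x) := by
  constructor
  · intro hw
    have hle : Wx L x ≤ MonoidHom.eqLocus ((MulAut.conj w).toMonoidHom.comp B.i)
        ((MulAut.conj t).toMonoidHom.comp B.i) := by
      unfold Wx
      rw [Subgroup.closure_le]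
      rintro _ ⟨s, hs, rfl⟩
      show w * B.i (s.2.1 * (x ^ s.2.2)⁻¹) * w⁻¹ = t * B.i (s.2.1 * (x ^ s.2.2)⁻¹) * t⁻¹
      rw [ht, hσ.2 s hs]
      exact hw s hs
    apply mem_of_conj
    intro v hv
    have h1 : w * B.i v * w⁻¹ = t * B.i v * t⁻¹ := hle hv
    have h2 : t⁻¹ * w * B.i v * (t⁻¹ * w)⁻¹ = t⁻¹ * (w * B.i v * w⁻¹) * t := by group
    rw [h2, h1]
    group
  · intro hw s hs
    have hv : s.2.1 * (x ^ s.2.2)⁻¹ ∈ Wx L x := Subgroup.subset_closure ⟨s, hs, rfl⟩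
    have h1 := conj_of_mem B hw hv
    have h2 : w * B.i (s.2.1 * (x ^ s.2.2)⁻¹) * w⁻¹ =
        t * (t⁻¹ * w * B.i (s.2.1 * (x ^ s.2.2)⁻¹) * (t⁻¹ * w)⁻¹) * t⁻¹ := by group
    rw [h2, h1, ht, hσ.2 s hs]

/-- the value for `w` -/
theorem gW_eq (hχ : χ ∈ Ch B (p1 L)) (hσ : σ ∈ Sx E₀ L x)
    (ht : ∀ v, t * B.i v * t⁻¹ = B.i (σ v)) (W' : Subgroup V₀) {w : G} (hw : w ∈ TX B L x) :
    gW B W' x χ w = gW B W' x χ t := by
  unfold gW
  apply finsum_congr
  intro s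
  have hc := (TX_iff hσ ht w).1 hw
  have htm : t ∈ TX B L x := (TX_iff hσ ht t).2 (by rw [inv_mul_cancel]; exact Subgroup.one_mem _)
  have h1 : w * t⁻¹ ∈ B.C (p1 L) := by
    rw [TX_C htm]
    have e : t⁻¹ * (w * t⁻¹) * t = t⁻¹ * w := by group
    rw [e]
    exact hc
  have h2 : w * (B.i x * s) * w⁻¹ = (w * t⁻¹) * (t * (B.i x * s) * t⁻¹) * (w * t⁻¹)⁻¹ := by group
  rw [h2, ch_conj hχ h1]

/-- the value for `t` -/
theorem gW_t (cjd : CjdStmt) [Fact ℓ.Prime] (hM : (ℓ : integralClosure ℤ ℂ) ∈ M) (hℓ : ℓ ≠ 2)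
    [Finite V₀] (hF : Fq ℓ V₀ E₀) (hB : Sb ℓ M E₀ B) (hσ : σ ∈ Sx E₀ L x)
    (htT : t ∈ Tg B.i.range B.g) (ht : ∀ v, t * B.i v * t⁻¹ = B.i (σ v)) :
    gW B (p2 L ⊔ Subgroup.zpowers x) x χ t =
      ∑ᶠ s, bh B (p1 L ⊔ Subgroup.zpowers (σ x)) s * χ (B.i (σ x) * s) := by
  unfold gW
  rw [← finsum_comp_equiv (MulAut.conj t).symm.toEquiv]
  apply finsum_congr
  intro y
  have e1 : (MulAut.conj t).symm.toEquiv y = t⁻¹ * y * t := rfl
  have h1 := (cjd ℓ M hM hℓ V₀ G E₀ hF B hB σ hσ.1 t htT ht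
    (p2 L ⊔ Subgroup.zpowers x)).2.2.2.1 (t⁻¹ * y * t)
  have e2 : t * (t⁻¹ * y * t) * t⁻¹ = y := by group
  rw [e2, Sx_map2 hσ] at h1
  rw [e1, ← h1]
  congr 2
  rw [← ht x]
  group

/-- the sum over the `w` -/
theorem sum_TX (hSmg : T3.SmgStmt) (fud : FudStmt) (cjd : CjdStmt) [Fact ℓ.Prime]
    (hM : (ℓ : integralClosure ℤ ℂ) ∈ M) (hℓ : ℓ ≠ 2) [Finite V₀] (hF : Fq ℓ V₀ E₀)
    (hB : Sb ℓ M E₀ B) (hχ : χ ∈ Ch B (p1 L)) :
    ∑ᶠ w ∈ TX B L x, gW B (p2 L ⊔ Subgroup.zpowers x) x χ w =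
      (Nat.card (B.C (p1 L)) : ℂ) / Nat.card (St E₀ (p1 L)) *
        ∑ᶠ σ ∈ Sx E₀ L x, ∑ᶠ s, bh B (p1 L ⊔ Subgroup.zpowers (σ x)) s * χ (B.i (σ x) * s) := by
  classical
  obtain ⟨T, hT⟩ : ∃ T, T = ∑ᶠ w ∈ TX B L x, gW B (p2 L ⊔ Subgroup.zpowers x) x χ w := ⟨_, rfl⟩
  obtain ⟨R, hR⟩ : ∃ R : MulAut V₀ → ℂ, R = fun σ =>
    ∑ᶠ s, bh B (p1 L ⊔ Subgroup.zpowers (σ x)) s * χ (B.i (σ x) * s) := ⟨_, rfl⟩
  have hC0 : (Nat.card (B.C (p1 L)) : ℂ) ≠ 0 := by exact_mod_cast Nat.card_pos.ne'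
  have hfin : Finite (MulAut V₀) := inferInstance
  have hS0 : (Nat.card (St E₀ (p1 L)) : ℂ) ≠ 0 := by exact_mod_cast Nat.card_pos.ne'
  have hval : ∀ σ ∈ Sx E₀ L x, T = (Nat.card (B.C (p1 L)) : ℂ) * R σ := by
    intro σ hσ
    obtain ⟨t, htT, ht⟩ := hB.sur σ hσ.1
    have h1 : ∀ w ∈ TX B L x, gW B (p2 L ⊔ Subgroup.zpowers x) x χ w = R σ := by
      intro w hw
      rw [gW_eq hχ hσ ht _ hw, gW_t cjd hM hℓ hF hB hσ htT ht, hR]
    rw [hT, finsum_mem_congr rfl h1, finsum_mem_eq_finite_toFinset_sum _ (Set.toFinite _),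
      Finset.sum_const, nsmul_eq_mul, ← Set.ncard_eq_toFinset_card]
    congr 2
    have h2 := (cjd ℓ M hM hℓ V₀ G E₀ hF B hB σ hσ.1 t htT ht (Wx L x)).2.2.1
    rw [Sx_map hσ] at h2
    rw [h2, ← Nat.card_coe_set_eq]
    exact Nat.card_congr
      { toFun := fun w => ⟨t⁻¹ * w.1, (TX_iff hσ ht w.1).1 w.2⟩
        invFun := fun c => ⟨t * c.1, (TX_iff hσ ht _).2 (by rw [inv_mul_cancel_left]; exact c.2)⟩
        left_inv := fun w => Subtype.ext (mul_inv_cancel_left _ _)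
        right_inv := fun c => Subtype.ext (inv_mul_cancel_left _ _) }
  rw [← hT]
  change T = _ * ∑ᶠ σ ∈ Sx E₀ L x, (fun σ : MulAut V₀ =>
    ∑ᶠ s, bh B (p1 L ⊔ Subgroup.zpowers (σ x)) s * χ (B.i (σ x) * s)) σ
  rw [← hR]
  by_cases hne : (Sx E₀ L x).Nonempty
  · have h1 : ∀ σ ∈ Sx E₀ L x, R σ = T / Nat.card (B.C (p1 L)) := by
      intro σ hσ
      rw [hval σ hσ, mul_div_cancel_left₀ _ hC0]
    rw [finsum_mem_congr rfl h1, finsum_mem_eq_finite_toFinset_sum _ (Set.toFinite _),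
      Finset.sum_const, nsmul_eq_mul, ← Set.ncard_eq_toFinset_card, Sx_card hne]
    field_simp
  · have h1 : Sx E₀ L x = ∅ := Set.not_nonempty_iff_eq_empty.1 hne
    rw [h1, finsum_mem_empty, mul_zero, hT]
    apply finsum_mem_eq_zero_of_forall_eq_zero
    intro w hw
    by_contra h
    exact hne (gW_ne hSmg fud hM hF hB hw hχ h)

end blk

end Pool.Agent.PP.SD.H30
end
end -- Pool.Agent.Helper30_ASD.SMX3

section -- Pool.Agent.Helper69_ASO.CJT

/-!
# Squad ASO, row CJT: conjugation with the inertial group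
-/

open scoped BigOperators

noncomputable section

namespace Pool.Agent.PP.SO.H69

open Pool.Agent.Helper51_AWC Pool.Agent.Helper79_WRA Pool.Agent.PP Pool.Agent.PP.KF
open Pool.Agent.PP.K9 Pool.Agent.PP.K9.H97 Pool.Agent.PP.H75 Pool.Agent.PP.T3

attribute [local instance] Ideal.Quotient.field

section tools

variable {F V₀ G : Type} [Field F] [CommGroup V₀] [Group G]

omit [Field F] in
theorem map_act {i : V₀ →* G} {σ : MulAut V₀} {t : G} (h : ∀ v, t * i v * t⁻¹ = i (σ v))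
    (W : Subgroup V₀) : (W.map σ.toMonoidHom).map i = conjS t (W.map i) := by
  ext x
  constructor
  · rintro ⟨_, ⟨w, hw, rfl⟩, rfl⟩
    exact ⟨i w, ⟨w, hw, rfl⟩, h w⟩
  · rintro ⟨_, ⟨w, hw, rfl⟩, rfl⟩
    exact ⟨σ w, ⟨w, hw, rfl⟩, (h w).symm⟩

omit [Field F] in
theorem C_act (B : Bk F V₀ G) {σ : MulAut V₀} {t : G} (h : ∀ v, t * B.i v * t⁻¹ = B.i (σ v))
    (W : Subgroup V₀) : B.C (W.map σ.toMonoidHom) = conjS t (B.C W) := by
  unfold Bk.C
  rw [map_act h, H62.cent_conjS]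

omit [Field F] in
theorem mem_C_act (B : Bk F V₀ G) {σ : MulAut V₀} {t : G}
    (h : ∀ v, t * B.i v * t⁻¹ = B.i (σ v)) (W : Subgroup V₀) (x : G) :
    x ∈ B.C (W.map σ.toMonoidHom) ↔ t⁻¹ * x * t ∈ B.C W := by
  rw [C_act B h, H62.mem_conjS]

/-- the isomorphism of the centralisers -/
def ph (B : Bk F V₀ G) {σ : MulAut V₀} {t : G} (h : ∀ v, t * B.i v * t⁻¹ = B.i (σ v))
    (W : Subgroup V₀) : B.C W ≃* B.C (W.map σ.toMonoidHom) :=
  (conjSEquiv t (B.C W)).trans (MulEquiv.subgroupCongr (C_act B h W).symm)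

omit [Field F] in
theorem ph_coe (B : Bk F V₀ G) {σ : MulAut V₀} {t : G} (h : ∀ v, t * B.i v * t⁻¹ = B.i (σ v))
    (W : Subgroup V₀) (x : B.C W) : ((ph B h W x : B.C (W.map σ.toMonoidHom)) : G) =
      t * x * t⁻¹ := rfl

omit [Field F] in
theorem ph_symm_coe (B : Bk F V₀ G) {σ : MulAut V₀} {t : G}
    (h : ∀ v, t * B.i v * t⁻¹ = B.i (σ v)) (W : Subgroup V₀) (y : B.C (W.map σ.toMonoidHom)) :
    (((ph B h W).symm y : B.C W) : G) = t⁻¹ * y * t := by
  have h1 := ph_coe B h W ((ph B h W).symm y)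
  rw [MulEquiv.apply_symm_apply] at h1
  rw [h1]
  group

theorem br_cj' [Finite G] {t : G} {V : Subgroup G} (ht : t ∈ Subgroup.normalizer (V : Set G))
    (b : G → F) : br V (cj t b) = cj t (br V b) := by
  classical
  funext x
  change _ = br V b (t⁻¹ * x * t)
  have hc : t⁻¹ * x * t ∈ Subgroup.centralizer (V : Set G) ↔
      x ∈ Subgroup.centralizer (V : Set G) := by
    rw [← H62.mem_cent_conjS]
    have : conjS t V = V := by
      ext y
      rw [H62.mem_conjS]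
      exact conj_mem_iff ht y
    rw [this]
  unfold br
  by_cases h : x ∈ Subgroup.centralizer (V : Set G)
  · rw [if_pos h, if_pos (hc.2 h)]
    rfl
  · rw [if_neg h, if_neg (fun h' => h (hc.1 h'))]

/-- the conjugate of the local block is the local block -/
theorem lb_act [Finite G] {e g : G → F} {i : V₀ →* G} {σ : MulAut V₀} {t : G}
    (h : ∀ v, t * i v * t⁻¹ = i (σ v)) (ht : t ∈ Tg i.range g) (he : IsCl e) {W : Subgroup V₀}
    {b : G → F} (hb : Lb e g i W b) : Lb e g i (W.map σ.toMonoidHom) (cj t b) := by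
  have hX : ∀ x, x ∈ Subgroup.centralizer
      (((W.map σ.toMonoidHom).map i : Subgroup G) : Set G) ↔
      t⁻¹ * x * t ∈ Subgroup.centralizer ((W.map i : Subgroup G) : Set G) := by
    intro x
    rw [map_act h, H62.mem_cent_conjS]
  refine ⟨H62.bx_cj hX hb.blk, ?_, ?_⟩
  · have h1 := hb.und
    have heX : IsCl (fun s : Subgroup.centralizer ((W.map i : Subgroup G) : Set G) => e s) :=
      fun x y => he x y
    have heX' : IsCl (fun s : Subgroup.centralizer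
        (((W.map σ.toMonoidHom).map i : Subgroup G) : Set G) => e s) := fun x y => he x y
    rw [mulF_comm_cl heX, ← mulF_res _ e hb.blk.supp] at h1
    rw [mulF_comm_cl heX', ← mulF_res _ e (H62.bx_cj hX hb.blk).supp]
    have h2 : mulF (cj t b) e = cj t (mulF b e) := by
      rw [cj_mulF, cj_isCl t he]
    rw [h2]
    funext s
    exact congrFun h1 ⟨t⁻¹ * s * t, (hX _).1 s.2⟩
  · have hg : cj t g = g := (cj_eq_iff t g).2 ht.2
    rw [br_cj' ht.1]
    conv_lhs => rw [← hg]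
    rw [← cj_mulF, hb.gam, hg]

end tools

theorem cjt (hLbu : LbuStmt) : CjtStmt := by
  intro ℓ _ M _ hM hℓ2 V₀ G _ _ _ _ E₀ hFr B hB σ hσ t ht hact W
  have hF : GoodF ℓ (FF M) := H50.fld ℓ Fact.out M hM
  have hld := hB.ld
  have hcj : ∀ W : Subgroup V₀, cj t (B.b W) = B.b (W.map σ.toMonoidHom) := by
    intro W
    exact (hLbu ℓ (FF M) hF V₀ G B.e B.g B.i hB.inj hld).2.1 _ _ _
      (lb_act hact ht hld.blk.1.1 (hB.lb W)) (hB.lb _)
  have hmem : ∀ (W : Subgroup V₀) (x : G), t * x * t⁻¹ ∈ B.C (W.map σ.toMonoidHom) ↔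
      x ∈ B.C W := by
    intro W x
    rw [mem_C_act B hact]
    have : t⁻¹ * (t * x * t⁻¹) * t = x := by group
    rw [this]
  have hcard : ∀ W : Subgroup V₀, Nat.card (B.C (W.map σ.toMonoidHom)) = Nat.card (B.C W) :=
    fun W => (Nat.card_congr (ph B hact W).toEquiv).symm
  have hfun : ∀ W : Subgroup V₀, (fun y : B.C (W.map σ.toMonoidHom) =>
      (fun s : B.C W => B.b W s) ((ph B hact W).symm y)) =
      fun y : B.C (W.map σ.toMonoidHom) => B.b (W.map σ.toMonoidHom) y := by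
    intro W
    funext y
    rw [← hcj W]
    change B.b W (((ph B hact W).symm y : B.C W) : G) = B.b W (t⁻¹ * y * t)
    rw [ph_symm_coe]
  have hblk : ∀ W : Subgroup V₀, IsBlk (fun s : B.C W => B.b W s) := fun W => (hB.lb W).blk.blk
  have hbh : ∀ (W : Subgroup V₀) (x : G), bh B (W.map σ.toMonoidHom) (t * x * t⁻¹) =
      bh B W x := by
    intro W x
    unfold bh
    by_cases hx : x ∈ B.C W
    · rw [H46.ext0_of_mem _ ((hmem W x).2 hx), H46.ext0_of_mem _ hx]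
      have h1 := H62.eh_equiv (M := M) (ph B hact W) (hblk W).1.1 ⟨x, hx⟩
      rw [hfun W] at h1
      exact h1
    · rw [H46.ext0_of_not_mem _ (fun h' => hx ((hmem W x).1 h')), H46.ext0_of_not_mem _ hx]
  refine ⟨hcj W, hmem W, hcard W, hbh W, ?_, ?_⟩
  · intro c x
    have hsup : W.map σ.toMonoidHom ⊔ Subgroup.zpowers (σ c) =
        (W ⊔ Subgroup.zpowers c).map σ.toMonoidHom := by
      rw [Subgroup.map_sup, MonoidHom.map_zpowers]
      rfl
    unfold fc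
    rw [hsup, hcard]
    congr 1
    rw [← finsum_comp_equiv (ph B hact W).toEquiv]
    apply finsum_congr
    intro z
    change bh B ((W ⊔ Subgroup.zpowers c).map σ.toMonoidHom)
      ((B.i (σ c))⁻¹ * ((t * (z : G) * t⁻¹)⁻¹ * (t * x * t⁻¹) * (t * (z : G) * t⁻¹))) = _
    rw [← hbh (W ⊔ Subgroup.zpowers c) ((B.i c)⁻¹ * ((z : G)⁻¹ * x * z)), ← hact c]
    congr 1
    group
  · intro hW
    have hW' : W.map σ.toMonoidHom ≠ ⊥ := by
      intro h0
      apply hW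
      exact (Subgroup.map_eq_bot_iff_of_injective W
        (f := σ.toMonoidHom) σ.injective).1 h0
    have hD : B.D (W.map σ.toMonoidHom) = B.D W := by
      have h1 := H85.dg_equiv (ph B hact W) (hblk W).1.1 (hB.dg W hW)
      rw [hfun W] at h1
      exact H41.dg_uniq M hM (hblk _) (hB.dg _ hW') h1
    have hUU : B.S (W.map σ.toMonoidHom) = B.S W → B.U (W.map σ.toMonoidHom) = B.U W := by
      intro hS
      unfold Bk.U
      rw [hS, hcard, hD]
    have hS : B.S (W.map σ.toMonoidHom) = B.S W := by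
      by_contra hne
      have hneg : B.S (W.map σ.toMonoidHom) = - B.S W := by
        rcases hB.sg W hW with h1 | h1 <;> rcases hB.sg _ hW' with h2 | h2 <;>
          rw [h1, h2] at hne ⊢ <;> first | rfl | exact absurd rfl hne | norm_num
      have hUn : B.U (W.map σ.toMonoidHom) = - B.U W := by
        unfold Bk.U
        rw [hneg, hcard, hD]
        push_cast
        ring
      obtain ⟨r, hr, hr'⟩ := hB.un W hW
      obtain ⟨r', hr1, hr1'⟩ := hB.un _ hW'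
      rw [hUn, hr'] at hr1'
      have h2 : (2 : ℚ) = ℓ * (-(r + r')) := by linarith
      have h3 : -(r + r') ∈ SOR.Rl ℓ := neg_mem (add_mem hr hr1)
      obtain ⟨s, hs⟩ : ∃ s, s = -(r + r') := ⟨_, rfl⟩
      rw [← hs] at h2 h3
      have h4 : ¬ ℓ ∣ s.den := h3
      have hℓ : ℓ.Prime := Fact.out
      have h5 : (2 : ℚ) * s.den = ℓ * s.num := by
        rw [h2]
        have := Rat.mul_den_eq_num s
        rw [mul_assoc, this]
      have h6 : (2 : ℤ) * s.den = ℓ * s.num := by exact_mod_cast h5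
      have h7 : (ℓ : ℤ) ∣ 2 * s.den := ⟨s.num, h6⟩
      have h8 : ℓ ∣ 2 * s.den := by exact_mod_cast h7
      rcases (hℓ.dvd_mul).1 h8 with h9 | h9
      · exact hℓ2 ((Nat.prime_dvd_prime_iff_eq hℓ Nat.prime_two).1 h9)
      · exact h4 h9
    exact ⟨hD, hS, hUU hS⟩

end Pool.Agent.PP.SO.H69
end
end -- Pool.Agent.Helper69_ASO.CJT

section -- Pool.Agent.Helper94_ASE.ACB

/-!
# ASE row ACB: conjugation with `tt`
-/

open scoped BigOperators

set_option autoImplicit false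
set_option linter.unusedSectionVars false

noncomputable section

namespace Pool.Agent.PP.SE.H94

open Pool.Agent.Helper51_AWC Pool.Agent.Helper79_WRA Pool.Agent.PP Pool.Agent.PP.KF
open Pool.Agent.PP.K9 Pool.Agent.PP.K9.H97 Pool.Agent.PP.H75 Pool.Agent.PP.T3 Pool.Agent.PP.SO
open Pool.Agent.PP.SD

attribute [local instance] Ideal.Quotient.field

section tools

variable {V₀ G : Type} [CommGroup V₀] [Group G] [Finite G] {ℓ : ℕ}
  {M : Ideal (integralClosure ℤ ℂ)} [M.IsMaximal] {E₀ : Subgroup (MulAut V₀)}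
  {B : Bk (FF M) V₀ G}

/-- conjugation of functions -/
def cc (t : G) (a : G → ℂ) : G → ℂ := fun x => a (t⁻¹ * x * t)

theorem cc_mul (t t' : G) (a : G → ℂ) : cc t' (cc t a) = cc (t' * t) a := by
  funext x
  show a (t⁻¹ * (t'⁻¹ * x * t') * t) = a ((t' * t)⁻¹ * x * (t' * t))
  congr 1
  group

theorem cc_one (a : G → ℂ) : cc 1 a = a := by
  funext x
  show a (1⁻¹ * x * 1) = a x
  congr 1
  group

theorem act_inv {i : V₀ →* G} {σ : MulAut V₀} {t : G} (h : ∀ v, t * i v * t⁻¹ = i (σ v)) :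
    ∀ v, t⁻¹ * i v * t⁻¹⁻¹ = i (σ⁻¹ v) := by
  intro v
  have h1 := h (σ⁻¹ v)
  rw [show σ (σ⁻¹ v) = v from MulEquiv.apply_symm_apply _ _] at h1
  rw [← h1]
  group

theorem act_mul {i : V₀ →* G} {σ σ' : MulAut V₀} {t t' : G} (h : ∀ v, t * i v * t⁻¹ = i (σ v))
    (h' : ∀ v, t' * i v * t'⁻¹ = i (σ' v)) : ∀ v, (t' * t) * i v * (t' * t)⁻¹ = i ((σ' * σ) v) := by
  intro v
  rw [MulAut.mul_apply, ← h', ← h]
  group

theorem cv_cc (t : G) (a χ : G → ℂ) : SO.cv (cc t a) (cc t χ) = SO.cv a χ := by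
  unfold SO.cv
  congr 1
  · rw [← finsum_comp_equiv (MulAut.conj t).toEquiv]
    apply finsum_congr
    intro g
    show a (t⁻¹ * (t * g * t⁻¹) * t) * χ (t⁻¹ * (t * g * t⁻¹) * t) = a g * χ g
    have : t⁻¹ * (t * g * t⁻¹) * t = g := by group
    rw [this]
  · show χ (t⁻¹ * 1 * t) = χ 1
    congr 1
    group

/-- the conjugates of the characters -/
theorem ch_cc {σ : MulAut V₀} {t : G} (hact : ∀ v, t * B.i v * t⁻¹ = B.i (σ v))
    {W : Subgroup V₀} (hb : IsCl (fun s : B.C W => B.b W s))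
    (hcj : cj t (B.b W) = B.b (mp σ W)) {χ : G → ℂ} (hχ : χ ∈ Ch B W) :
    cc t χ ∈ Ch B (mp σ W) := by
  have hmem : ∀ x : G, x ∈ B.C (mp σ W) ↔ t⁻¹ * x * t ∈ B.C W := SO.H69.mem_C_act B hact W
  refine ⟨fun g hg => hχ.1 _ (fun h => hg ((hmem g).2 h)), ?_, ?_⟩
  · have h1 := irr_comp_equiv (SO.H69.ph B hact W).symm hχ.2.1
    have h2 : (fun g : B.C (W.map σ.toMonoidHom) =>
        (fun t : B.C W => χ t) ((SO.H69.ph B hact W).symm g)) =
        fun y : B.C (W.map σ.toMonoidHom) => cc t χ y := by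
      funext y
      show χ (((SO.H69.ph B hact W).symm y : B.C W) : G) = _
      rw [SO.H69.ph_symm_coe]
      rfl
    rw [h2] at h1
    exact h1
  · have h1 := SO.H63.res_iso (M := M) (SO.H69.ph B hact W).symm hb hχ.2.1
    have h2 : (fun g : B.C (W.map σ.toMonoidHom) =>
        (fun t : B.C W => χ t) ((SO.H69.ph B hact W).symm g)) =
        fun y : B.C (W.map σ.toMonoidHom) => cc t χ y := by
      funext y
      show χ (((SO.H69.ph B hact W).symm y : B.C W) : G) = _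
      rw [SO.H69.ph_symm_coe]
      rfl
    have h3 : (fun g : B.C (W.map σ.toMonoidHom) =>
        (fun t : B.C W => B.b W t) ((SO.H69.ph B hact W).symm g)) =
        fun y : B.C (W.map σ.toMonoidHom) => B.b (mp σ W) y := by
      funext y
      show B.b W (((SO.H69.ph B hact W).symm y : B.C W) : G) = _
      rw [SO.H69.ph_symm_coe, ← hcj]
      rfl
    rw [h2, h3] at h1
    exact h1.trans hχ.2.2

end tools

theorem acb (cjd : CjdStmt) : AcbStmt := by
  intro ℓ _ M _ hM hℓ2 V₀ G _ _ _ _ E₀ hFq B hB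
  have htt : ∀ σ ∈ E₀, tt B σ ∈ Tg B.i.range B.g ∧ ∀ v, tt B σ * B.i v * (tt B σ)⁻¹ = B.i (σ v) := by
    intro σ hσ
    obtain ⟨t, ht, h⟩ := hB.sur σ hσ
    have hex : ∃ t ∈ Tg B.i.range B.g, ∀ v, t * B.i v * t⁻¹ = B.i (σ v) := ⟨t, ht, h⟩
    have h1 : tt B σ = hex.choose := by
      unfold tt
      rw [dif_pos hex]
    rw [h1]
    exact hex.choose_spec
  refine ⟨htt, ?_⟩
  intro W σ hσ
  have hcl : ∀ W : Subgroup V₀, IsCl (fun s : B.C W => B.b W s) :=
    fun W => (hB.lb W).blk.blk.1.1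
  have hC : ∀ (W : Subgroup V₀) (σ : MulAut V₀) (t : G), (∀ v, t * B.i v * t⁻¹ = B.i (σ v)) →
      ∀ x : G, x ∈ B.C (mp σ W) ↔ t⁻¹ * x * t ∈ B.C W :=
    fun W σ t h => SO.H69.mem_C_act B h W
  -- independence of the element
  have hA : ∀ (W : Subgroup V₀), ∀ σ ∈ E₀, ∀ t : G, (∀ v, t * B.i v * t⁻¹ = B.i (σ v)) →
      ∀ a : G → ℂ, (∀ z ∈ B.C W, ∀ g, a (z * g * z⁻¹) = a g) → ac B σ a = cc t a := by
    intro W σ hσ t hact a ha
    obtain ⟨-, h0⟩ := htt σ hσ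
    funext x
    show a ((tt B σ)⁻¹ * x * tt B σ) = a (t⁻¹ * x * t)
    have hz : (tt B σ)⁻¹ * t ∈ B.C W := by
      rw [SO.H63.mem_C]
      intro p _
      have h1 := (h0 p).trans (hact p).symm
      calc (tt B σ)⁻¹ * t * B.i p = (tt B σ)⁻¹ * (t * B.i p * t⁻¹) * t := by group
        _ = (tt B σ)⁻¹ * (tt B σ * B.i p * (tt B σ)⁻¹) * t := by rw [h1]
        _ = B.i p * ((tt B σ)⁻¹ * t) := by group
    have h2 := ha _ hz (t⁻¹ * x * t)
    rw [← h2]
    congr 1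
    group
  have hch : ∀ (W : Subgroup V₀) (χ : G → ℂ), χ ∈ Ch B W →
      ∀ z ∈ B.C W, ∀ g, χ (z * g * z⁻¹) = χ g :=
    fun W χ hχ z hz g => SD.H30.ch_conj hχ hz g
  obtain ⟨hT, hact⟩ := htt σ hσ
  have hcjt := fun W => cjd ℓ M hM hℓ2 V₀ G E₀ hFq B hB σ hσ (tt B σ) hT hact W
  have hch1 : ∀ χ ∈ Ch B W, cc (tt B σ) χ ∈ Ch B (mp σ W) :=
    fun χ hχ => ch_cc hact (hcl W) (hcjt W).1 hχ
  have hmm : mp σ⁻¹ (mp σ W) = W := by
    ext v
    constructor
    · rintro ⟨_, ⟨w, hw, rfl⟩, rfl⟩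
      have : σ⁻¹ (σ w) = w := MulEquiv.symm_apply_apply _ _
      show σ⁻¹ (σ w) ∈ W
      rw [this]; exact hw
    · intro hv
      exact ⟨σ v, ⟨v, hv, rfl⟩, MulEquiv.symm_apply_apply _ _⟩
  have hch2 : ∀ χ ∈ Ch B (mp σ W), cc (tt B σ)⁻¹ χ ∈ Ch B W := by
    intro χ hχ
    have hT' := (Tg B.i.range B.g).inv_mem hT
    have h1 := (cjd ℓ M hM hℓ2 V₀ G E₀ hFq B hB σ⁻¹ (E₀.inv_mem hσ) (tt B σ)⁻¹ hT'
      (act_inv hact) (mp σ W)).1
    have h2 := ch_cc (act_inv hact) (hcl (mp σ W)) h1 hχ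
    rw [hmm] at h2
    exact h2
  have h11 : ∀ a : G → ℂ, (∀ z ∈ B.C W, ∀ g, a (z * g * z⁻¹) = a g) → ac B 1 a = a := by
    intro a ha
    rw [hA W 1 E₀.one_mem 1 (by intro v; simp) a ha, cc_one]
  have hcomp : ∀ a : G → ℂ, (∀ z ∈ B.C W, ∀ g, a (z * g * z⁻¹) = a g) →
      ∀ σ' ∈ E₀, ac B (σ' * σ) a = ac B σ' (ac B σ a) := by
    intro a ha σ' hσ'
    rw [hA W (σ' * σ) (E₀.mul_mem hσ' hσ) (tt B σ' * tt B σ) (act_mul hact (htt σ' hσ').2) a ha]
    exact (cc_mul _ _ _).symm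
  refine ⟨?_, ?_, ?_, ?_, ?_, ?_, ?_, ?_⟩
  · intro t _ hact' a _ ha x
    exact congrFun (hA W σ hσ t hact' a ha) x
  · intro a ha
    refine ⟨⟨?_, ?_, ?_⟩, h11 a ha.cls, hcomp a ha.cls⟩
    · intro g hg
      exact ha.sup _ (fun h => hg ((hC W σ _ hact g).2 h))
    · intro z hz g
      have h1 := (hC W σ _ hact z).1 hz
      have h2 := ha.cls _ h1 ((tt B σ)⁻¹ * g * tt B σ)
      show a ((tt B σ)⁻¹ * (z * g * z⁻¹) * tt B σ) = a ((tt B σ)⁻¹ * g * tt B σ)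
      rw [← h2]
      congr 1
      group
    · intro ψ hψ1 hψ2 hψ3
      have e1 : cc (tt B σ) (cc (tt B σ)⁻¹ ψ) = ψ := by
        rw [cc_mul, mul_inv_cancel, cc_one]
      show SO.cv (cc (tt B σ) a) ψ = 0
      rw [← e1, cv_cc]
      apply ha.blk
      · intro g hg
        apply hψ1
        intro h
        apply hg
        have h2 := (hC W σ _ hact _).1 h
        have e2 : (tt B σ)⁻¹ * ((tt B σ)⁻¹⁻¹ * g * (tt B σ)⁻¹) * tt B σ = g := by group
        rwa [e2] at h2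
      · have h1 := irr_comp_equiv (SO.H69.ph B hact W) hψ2
        have e2 : (fun g : B.C W => (fun t : B.C (mp σ W) => ψ t) (SO.H69.ph B hact W g)) =
            fun t : B.C W => cc (tt B σ)⁻¹ ψ t := by
          funext y
          show ψ (tt B σ * (y : G) * (tt B σ)⁻¹) = ψ ((tt B σ)⁻¹⁻¹ * (y : G) * (tt B σ)⁻¹)
          rw [inv_inv]
        rw [e2] at h1
        exact h1
      · intro h
        apply hψ3
        rw [← e1]
        exact hch1 _ h
  · intro χ hχ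
    refine ⟨hch1 χ hχ, h11 χ (hch W χ hχ), hcomp χ (hch W χ hχ), ?_, ?_⟩
    · intro w
      unfold nu
      show χ ((tt B σ)⁻¹ * B.i (σ w) * tt B σ) / χ ((tt B σ)⁻¹ * 1 * tt B σ) = _
      rw [← hact w]
      congr 2 <;> group
    · intro a _
      exact cv_cc _ _ _
  · refine ⟨fun χ hχ => hch1 χ hχ, ?_, ?_⟩
    · intro χ _ χ' _ h
      have h1 : cc (tt B σ) χ = cc (tt B σ) χ' := h
      have h2 := congrArg (cc (tt B σ)⁻¹) h1
      rwa [cc_mul, cc_mul, inv_mul_cancel, cc_one, cc_one] at h2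
    · intro χ hχ
      refine ⟨cc (tt B σ)⁻¹ χ, hch2 χ hχ, ?_⟩
      show cc (tt B σ) (cc (tt B σ)⁻¹ χ) = χ
      rw [cc_mul, mul_inv_cancel, cc_one]
  · intro c
    funext x
    have h1 := (hcjt W).2.2.2.2.1 c ((tt B σ)⁻¹ * x * tt B σ)
    have e1 : tt B σ * ((tt B σ)⁻¹ * x * tt B σ) * (tt B σ)⁻¹ = x := by group
    rw [e1] at h1
    exact h1.symm
  · funext x
    have h1 := (hcjt W).2.2.2.1 ((tt B σ)⁻¹ * x * tt B σ)
    have e1 : tt B σ * ((tt B σ)⁻¹ * x * tt B σ) * (tt B σ)⁻¹ = x := by group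
    rw [e1] at h1
    exact h1.symm
  · exact (hcjt W).2.2.1
  · intro κ a _
    funext x
    show a ((B.i κ)⁻¹ * ((tt B σ)⁻¹ * x * tt B σ)) =
      a ((tt B σ)⁻¹ * ((B.i (σ κ))⁻¹ * x) * tt B σ)
    rw [← hact κ]
    congr 1
    group

end Pool.Agent.PP.SE.H94
end
end -- Pool.Agent.Helper94_ASE.ACB

section -- Pool.Agent.Helper3_ASE.RNC

/-!
# Row RNC: equivariance for `Rw E₀ W`
-/

open scoped BigOperators

noncomputable section

namespace Pool.Agent.PP.SE.H3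

open Pool.Agent.Helper51_AWC Pool.Agent.Helper79_WRA Pool.Agent.PP Pool.Agent.PP.KF
open Pool.Agent.PP.K9 Pool.Agent.PP.K9.H97 Pool.Agent.PP.H75 Pool.Agent.PP.T3 Pool.Agent.PP.SO
open Pool.Agent.PP.SD

attribute [local instance] Ideal.Quotient.field

/-- RNC -/
theorem rnc (hCjd : CjdStmt) (hRwd : RwdStmt) : RncStmt := by
  classical
  intro ℓ _ M _ hM h2 V₀ G _ _ _ _ E₀ hFq B hB W hW σ hσ t ht hact D hD hD'
  obtain ⟨c1, c2, c3, c4, c5, c6⟩ := hCjd ℓ M hM h2 V₀ G E₀ hFq B hB.toSb σ hσ t ht hact W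
  obtain ⟨-, d2, d3⟩ := c6 hB hW
  have hRw : Rw E₀ (mp σ W) := ((hRwd ℓ V₀ E₀ hFq).2.1 σ hσ W).2 hW
  refine ⟨?_, hRw, ?_⟩
  · rw [hD'.dU, hD.dU]
    exact d3
  · intro χ hχ
    have h1 : (fun g => χ (t⁻¹ * g * t)) ∈ Ch B (mp σ W) :=
      H94.ch_cc hact (hB.lb W).blk.blk.1.1 c1 hχ
    refine ⟨h1, fun x => ?_⟩
    rw [hD'.dD _ h1, hD.dD χ hχ]
    have hS : B.S (mp σ W) = B.S W := d2
    have hU : B.U (mp σ W) = B.U W := d3
    have hfc : fc B (mp σ W) (σ x) = H94.cc t (fc B W x) := by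
      funext g
      have h3 := c5 x (t⁻¹ * g * t)
      have e : t * (t⁻¹ * g * t) * t⁻¹ = g := by group
      rw [e] at h3
      exact h3
    have hmem : σ x ∈ mp σ W ↔ x ∈ W := by
      constructor
      · rintro ⟨w, hw, hwx⟩
        have h3 : w = x := σ.injective hwx
        exact h3 ▸ hw
      · intro h
        exact ⟨x, h, rfl⟩
    have hux : ux B.U (mp σ W) (σ x) = ux B.U W x := by
      unfold ux
      rw [hU]
      by_cases h : x ∈ W
      · rw [if_pos h, if_pos (hmem.2 h)]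
      · rw [if_neg h, if_neg fun h' => h (hmem.1 h')]
    rw [hS]
    congr 1
    unfold lam
    rw [hfc, hux]
    congr 1
    exact H94.cv_cc t (fc B W x) χ

end Pool.Agent.PP.SE.H3
end
end -- Pool.Agent.Helper3_ASE.RNC

section -- Pool.Agent.Helper69_ASD.CJD

/-!
# Squad ASD, row CJD: conjugation with the inertial group
-/

open scoped BigOperators

noncomputable section

namespace Pool.Agent.PP.SD.H69

open Pool.Agent.Helper51_AWC Pool.Agent.Helper79_WRA Pool.Agent.PP Pool.Agent.PP.KF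
open Pool.Agent.PP.K9 Pool.Agent.PP.K9.H97 Pool.Agent.PP.H75 Pool.Agent.PP.T3 Pool.Agent.PP.SO
open Pool.Agent.PP.SO.H69

attribute [local instance] Ideal.Quotient.field

theorem rw_map {V₀ : Type} [CommGroup V₀] {E₀ : Subgroup (MulAut V₀)} {σ : MulAut V₀}
    (hσ : σ ∈ E₀) {W : Subgroup V₀} (hW : Rw E₀ W) : Rw E₀ (W.map σ.toMonoidHom) := by
  refine ⟨?_, ?_⟩
  · intro h0
    exact hW.1 ((Subgroup.map_eq_bot_iff_of_injective W (f := σ.toMonoidHom) σ.injective).1 h0)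
  · intro τ hτ h
    have h1 : σ⁻¹ * τ * σ = 1 := by
      refine hW.2 _ (E₀.mul_mem (E₀.mul_mem (E₀.inv_mem hσ) hτ) hσ) ?_
      intro w hw
      have h2 := h (σ w) ⟨w, hw, rfl⟩
      rw [MulAut.mul_apply, MulAut.mul_apply, h2, MulAut.inv_apply, MulEquiv.symm_apply_apply]
    have h3 : τ = σ * (σ⁻¹ * τ * σ) * σ⁻¹ := by group
    rw [h3, h1]
    group

theorem cjd (hLbu : LbuStmt) : CjdStmt := by
  intro ℓ _ M _ hM hℓ2 V₀ G _ _ _ _ E₀ _ B hB0 σ hσ t ht hact W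
  have hF : GoodF ℓ (FF M) := H50.fld ℓ Fact.out M hM
  have hld := hB0.ld
  have hcj : ∀ W : Subgroup V₀, cj t (B.b W) = B.b (W.map σ.toMonoidHom) := by
    intro W
    exact (hLbu ℓ (FF M) hF V₀ G B.e B.g B.i hB0.inj hld).2.1 _ _ _
      (lb_act hact ht hld.blk.1.1 (hB0.lb W)) (hB0.lb _)
  have hmem : ∀ (W : Subgroup V₀) (x : G), t * x * t⁻¹ ∈ B.C (W.map σ.toMonoidHom) ↔
      x ∈ B.C W := by
    intro W x
    rw [mem_C_act B hact]
    have : t⁻¹ * (t * x * t⁻¹) * t = x := by group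
    rw [this]
  have hcard : ∀ W : Subgroup V₀, Nat.card (B.C (W.map σ.toMonoidHom)) = Nat.card (B.C W) :=
    fun W => (Nat.card_congr (ph B hact W).toEquiv).symm
  have hfun : ∀ W : Subgroup V₀, (fun y : B.C (W.map σ.toMonoidHom) =>
      (fun s : B.C W => B.b W s) ((ph B hact W).symm y)) =
      fun y : B.C (W.map σ.toMonoidHom) => B.b (W.map σ.toMonoidHom) y := by
    intro W
    funext y
    rw [← hcj W]
    change B.b W (((ph B hact W).symm y : B.C W) : G) = B.b W (t⁻¹ * y * t)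
    rw [ph_symm_coe]
  have hblk : ∀ W : Subgroup V₀, IsBlk (fun s : B.C W => B.b W s) := fun W => (hB0.lb W).blk.blk
  have hbh : ∀ (W : Subgroup V₀) (x : G), bh B (W.map σ.toMonoidHom) (t * x * t⁻¹) =
      bh B W x := by
    intro W x
    unfold bh
    by_cases hx : x ∈ B.C W
    · rw [H46.ext0_of_mem _ ((hmem W x).2 hx), H46.ext0_of_mem _ hx]
      have h1 := H62.eh_equiv (M := M) (ph B hact W) (hblk W).1.1 ⟨x, hx⟩
      rw [hfun W] at h1
      exact h1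
    · rw [H46.ext0_of_not_mem _ (fun h' => hx ((hmem W x).1 h')), H46.ext0_of_not_mem _ hx]
  refine ⟨hcj W, hmem W, hcard W, hbh W, ?_, ?_⟩
  · intro c x
    have hsup : W.map σ.toMonoidHom ⊔ Subgroup.zpowers (σ c) =
        (W ⊔ Subgroup.zpowers c).map σ.toMonoidHom := by
      rw [Subgroup.map_sup, MonoidHom.map_zpowers]
      rfl
    unfold fc
    rw [hsup, hcard]
    congr 1
    rw [← finsum_comp_equiv (ph B hact W).toEquiv]
    apply finsum_congr
    intro z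
    change bh B ((W ⊔ Subgroup.zpowers c).map σ.toMonoidHom)
      ((B.i (σ c))⁻¹ * ((t * (z : G) * t⁻¹)⁻¹ * (t * x * t⁻¹) * (t * (z : G) * t⁻¹))) = _
    rw [← hbh (W ⊔ Subgroup.zpowers c) ((B.i c)⁻¹ * ((z : G)⁻¹ * x * z)), ← hact c]
    congr 1
    group
  · intro hB hW
    have hW' : Rw E₀ (W.map σ.toMonoidHom) := rw_map hσ hW
    have hD : B.D (W.map σ.toMonoidHom) = B.D W := by
      have h1 := H85.dg_equiv (ph B hact W) (hblk W).1.1 (hB.dg W hW)
      rw [hfun W] at h1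
      exact H41.dg_uniq M hM (hblk _) (hB.dg _ hW') h1
    have hUU : B.S (W.map σ.toMonoidHom) = B.S W → B.U (W.map σ.toMonoidHom) = B.U W := by
      intro hS
      unfold Bk.U
      rw [hS, hcard, hD]
    have hS : B.S (W.map σ.toMonoidHom) = B.S W := by
      by_contra hne
      have hneg : B.S (W.map σ.toMonoidHom) = - B.S W := by
        rcases hB.sg W hW with h1 | h1 <;> rcases hB.sg _ hW' with h2 | h2 <;>
          rw [h1, h2] at hne ⊢ <;> first | rfl | exact absurd rfl hne | norm_num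
      have hUn : B.U (W.map σ.toMonoidHom) = - B.U W := by
        unfold Bk.U
        rw [hneg, hcard, hD]
        push_cast
        ring
      obtain ⟨r, hr, hr'⟩ := hB.un W hW
      obtain ⟨r', hr1, hr1'⟩ := hB.un _ hW'
      rw [hUn, hr'] at hr1'
      have h2 : (2 : ℚ) = ℓ * (-(r + r')) := by linarith
      have h3 : -(r + r') ∈ SOR.Rl ℓ := neg_mem (add_mem hr hr1)
      obtain ⟨s, hs⟩ : ∃ s, s = -(r + r') := ⟨_, rfl⟩
      rw [← hs] at h2 h3
      have h4 : ¬ ℓ ∣ s.den := h3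
      have hℓ : ℓ.Prime := Fact.out
      have h5 : (2 : ℚ) * s.den = ℓ * s.num := by
        rw [h2]
        have := Rat.mul_den_eq_num s
        rw [mul_assoc, this]
      have h6 : (2 : ℤ) * s.den = ℓ * s.num := by exact_mod_cast h5
      have h7 : (ℓ : ℤ) ∣ 2 * s.den := ⟨s.num, h6⟩
      have h8 : ℓ ∣ 2 * s.den := by exact_mod_cast h7
      rcases (hℓ.dvd_mul).1 h8 with h9 | h9
      · exact hℓ2 ((Nat.prime_dvd_prime_iff_eq hℓ Nat.prime_two).1 h9)
      · exact h4 h9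
    exact ⟨hD, hS, hUU hS⟩

end Pool.Agent.PP.SD.H69
end
end -- Pool.Agent.Helper69_ASD.CJD
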