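import Pool.Agent.Helper12_AWB.B212
import Pool.Agent.Helper12_AWB.B222
import Pool.Agent.Helper12_AWB.B232
import Pool.Agent.Helper12_AWB.B272

/-!
# Merged copies (generated) of the modules

* `Pool.Agent.Helper40_ASE.FBR1`
* `Pool.Agent.Helper40_ASE.FBR2`
* `Pool.Agent.Helper40_ASE.FBR3`
* `Pool.Agent.Helper40_ASE.FBR4`
* `Pool.Agent.Helper40_ASE.FBR5`
* `Pool.Agent.Helper40_ASE.FBR6`
* `Pool.Agent.Helper40_ASE.FBR`
-/

set_option autoImplicit false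

section -- Pool.Agent.Helper40_ASE.FBR1

/-!
# Squad ASE, row FBR, part 1: the value of a character at `z x`, decomposed into the local blocks

Author: helper40.
-/

open scoped BigOperators

set_option autoImplicit false
set_option linter.unusedSectionVars false

noncomputable section

namespace Pool.Agent.PP.SE.H40

open Pool.Agent.Helper51_AWC Pool.Agent.Helper79_WRA Pool.Agent.PP Pool.Agent.PP.KF
open Pool.Agent.PP.K9 Pool.Agent.PP.K9.H97 Pool.Agent.PP.H75 Pool.Agent.PP.T3 Pool.Agent.PP.SO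
open Pool.Agent.PP.SD
open Pool.Agent.PP.SO.H82 (memC conj_of_mem mem_of_conj cjW)
open Pool.Agent.PP.SO.H59 (C_mono i_mem_C)

attribute [local instance] Ideal.Quotient.field

section blk

variable {V₀ G : Type} [CommGroup V₀] [Group G] [Finite G] {ℓ : ℕ}
  {M : Ideal (integralClosure ℤ ℂ)} [M.IsMaximal] {E₀ : Subgroup (MulAut V₀)}
  {B : Bk (FF M) V₀ G}

/-- `b W` is over `b Y` for `W ≤ Y` -/
theorem und_le [Finite V₀] [Fact ℓ.Prime] (hM : (ℓ : integralClosure ℤ ℂ) ∈ M) (hℓ : ℓ ≠ 2)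
    (hF : Fq ℓ V₀ E₀) (hB : Sb ℓ M E₀ B) {W Y : Subgroup V₀} (hle : W ≤ Y) :
    mulF (fun t : B.C Y => B.b W t) (fun t : B.C Y => B.b Y t) = fun t : B.C Y => B.b Y t := by
  obtain ⟨-, B', hB', he, -, -, hb, hC, -⟩ := SD.H49.rda ℓ M hM hℓ V₀ G E₀ hF B hB W
  have hWY : W ⊔ Y = Y := sup_eq_right.2 hle
  have hC' : ∀ t : B.C W, t ∈ B'.C Y ↔ (t : G) ∈ B.C Y := by
    intro t
    rw [hC Y t, hWY]
  obtain ⟨φ, hφ⟩ : ∃ φ : B.C Y ≃* B'.C Y, ∀ t : B.C Y, (((φ t : B'.C Y) : B.C W) : G) = t :=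
    ⟨{ toFun := fun t => ⟨⟨t, C_mono hle t.2⟩, (hC' _).2 t.2⟩
       invFun := fun t => ⟨((t : B.C W) : G), (hC' _).1 t.2⟩
       left_inv := fun _ => rfl
       right_inv := fun _ => rfl
       map_mul' := fun _ _ => rfl }, fun _ => rfl⟩
  have h1 : mulF (fun t : B'.C Y => B'.e t) (fun t : B'.C Y => B'.b Y t) =
      fun t : B'.C Y => B'.b Y t := (hB'.lb Y).und
  have h2 := H20.mulF_equiv φ (fun t : B'.C Y => B'.e t) (fun t : B'.C Y => B'.b Y t)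
  rw [h1] at h2
  have e1 : (fun t : B.C Y => (fun t : B'.C Y => B'.e t) (φ t)) = fun t : B.C Y => B.b W t := by
    funext t
    show B'.e ((φ t : B'.C Y) : B.C W) = _
    rw [he, hφ]
  have e2 : (fun t : B.C Y => (fun t : B'.C Y => B'.b Y t) (φ t)) =
      fun t : B.C Y => B.b Y t := by
    funext t
    show B'.b Y ((φ t : B'.C Y) : B.C W) = _
    rw [hb, hφ, hWY]
  rw [e1, e2] at h2
  exact h2

/-- the value at `z s` as a sum over the centraliser -/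
theorem val_sum (smg : T3.SmgStmt) [Fact ℓ.Prime] (hM : (ℓ : integralClosure ℤ ℂ) ∈ M)
    {X K : Subgroup G} [Fintype K]
    {b : G → FF M} (hb : IsIdem (fun t : X => b t)) {χ : G → ℂ}
    (hχ : (fun t : X => χ t) ∈ IrrE M (fun t : X => b t)) {z : G} (hz : z ∈ X) (hel : El ℓ z)
    (hK : ∀ x, x ∈ K ↔ x ∈ X ∧ x * z = z * x) :
    IsIdem (fun t : K => b t) ∧ ∀ s : K, Reg ℓ s →
      χ (z * s) = ∑ t : K, eh M (fun t : K => b t) t * χ (z * s * t) := by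
  classical
  have hF : GoodF ℓ (FF M) := H50.fld ℓ Fact.out M hM
  obtain ⟨z', hz'⟩ : ∃ z' : X, (z' : G) = z := ⟨⟨z, hz⟩, rfl⟩
  have hel' : El ℓ z' := by
    obtain ⟨n, hn⟩ := hel
    exact ⟨n, Subtype.ext (by rw [Subgroup.coe_pow, hz', hn]; rfl)⟩
  have hmem : ∀ x : X, x ∈ Cu z' ↔ (x : G) ∈ K := by
    intro x
    rw [Subgroup.mem_centralizer_singleton_iff, hK]
    constructor
    · intro h
      refine ⟨x.2, ?_⟩
      have h1 := congrArg Subtype.val h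
      rw [← hz']
      exact h1
    · rintro ⟨-, h⟩
      apply Subtype.ext
      rw [← hz'] at h
      exact h
  obtain ⟨φ, hφ⟩ : ∃ φ : Cu z' ≃* K, ∀ k : K, (((φ.symm k : Cu z') : X) : G) = k :=
    ⟨{ toFun := fun t => ⟨((t : X) : G), (hmem t).1 t.2⟩
       invFun := fun t => ⟨⟨t, ((hK t).1 t.2).1⟩, (hmem _).2 t.2⟩
       left_inv := fun _ => rfl
       right_inv := fun _ => rfl
       map_mul' := fun _ _ => rfl }, fun _ => rfl⟩
  have := Fintype.ofFinite G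
  have := Fintype.ofFinite (Cu z')
  obtain ⟨b', hb'⟩ : ∃ b' : Cu z' → FF M, b' = fun t : Cu z' => b ((t : X) : G) := ⟨_, rfl⟩
  have hid : IsIdem b' := by
    rw [hb']
    exact T3.H98.idem_cu hF hb hel'
  have hbK : (fun t : K => b t) = fun t : K => b' (φ.symm t) := by
    rw [hb']
    funext t
    exact congrArg b (hφ t).symm
  have hχ' := hχ.1
  obtain ⟨ψ, hψ⟩ : ∃ ψ : X → ℂ, ψ = fun t : X => χ t := ⟨_, rfl⟩
  rw [← hψ] at hχ hχ'
  have hψc : ∀ x y : X, ψ (y * x * y⁻¹) = ψ x := fun x y => irr_conj hχ' x y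
  refine ⟨?_, ?_⟩
  · rw [hbK]
    exact H18.idem_equiv φ.symm hid
  · intro s hs
    have hs' : Reg ℓ ((φ.symm s : Cu z') : X) := by
      rw [← H95.reg_coe, hφ, H95.reg_coe]
      exact hs
    have h1 := T6.H16.smh smg ℓ M hM X (fun t : X => b t) hb z' hel' _ (φ.symm s).2 hs' ψ hψc
    rw [(T6.H16.fv_eh _ hχ' _).1 hχ] at h1
    have h2 : ψ (z' * ((φ.symm s : Cu z') : X)) = χ (z * s) := by
      rw [hψ]
      show χ ((z' : G) * (((φ.symm s : Cu z') : X) : G)) = _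
      rw [hφ, hz']
    rw [← h2, h1]
    unfold gv gbv
    rw [finsum_eq_sum_of_fintype, ← Equiv.sum_comp φ.symm.toEquiv]
    refine Finset.sum_congr rfl fun t _ => ?_
    have h3 : eh M (fun t : K => b t) t = eh M b' (φ.symm t) := by
      have h4 := T3.H62.eh_equiv (M := M) φ (b := b') hid.1 (φ.symm t)
      rw [φ.apply_symm_apply] at h4
      rw [hbK]
      exact h4
    have h5 : ψ (z' * ((φ.symm s : Cu z') : X) * ((φ.symm t : Cu z') : X)) = χ (z * s * t) := by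
      rw [hψ]
      show χ ((z' : G) * (((φ.symm s : Cu z') : X) : G) * (((φ.symm t : Cu z') : X) : G)) = _
      rw [hφ, hφ, hz']
    rw [h3, ← h5, hb']
    rfl

end blk

end Pool.Agent.PP.SE.H40
end
end -- Pool.Agent.Helper40_ASE.FBR1

section -- Pool.Agent.Helper40_ASE.FBR2

/-!
# Squad ASE, row FBR, part 2: counting

Author: helper40.
-/

open scoped BigOperators

set_option autoImplicit false
set_option linter.unusedSectionVars false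

noncomputable section

namespace Pool.Agent.PP.SE.H40

open Pool.Agent.Helper51_AWC Pool.Agent.Helper79_WRA Pool.Agent.PP Pool.Agent.PP.KF
open Pool.Agent.PP.K9 Pool.Agent.PP.K9.H97 Pool.Agent.PP.H75 Pool.Agent.PP.T3 Pool.Agent.PP.SO
open Pool.Agent.PP.SD
open Pool.Agent.PP.SO.H82 (memC conj_of_mem mem_of_conj cjW TT_fwd TT_bwd TT_C)
open Pool.Agent.PP.SO.H59 (C_mono i_mem_C)

attribute [local instance] Ideal.Quotient.field

section blk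

variable {V₀ G : Type} [CommGroup V₀] [Group G] {ℓ : ℕ}
  {M : Ideal (integralClosure ℤ ℂ)} [M.IsMaximal] {E₀ : Subgroup (MulAut V₀)}
  {B : Bk (FF M) V₀ G}

theorem tt_spec (hB : Sb ℓ M E₀ B) {σ : MulAut V₀} (hσ : σ ∈ E₀) :
    tt B σ ∈ Tg B.i.range B.g ∧ ∀ v, tt B σ * B.i v * (tt B σ)⁻¹ = B.i (σ v) := by
  have h := hB.sur σ hσ
  unfold tt
  rw [dif_pos h]
  exact h.choose_spec

theorem tt_inv (hB : Sb ℓ M E₀ B) {σ : MulAut V₀} (hσ : σ ∈ E₀) (v : V₀) :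
    (tt B σ)⁻¹ * B.i v * tt B σ = B.i (σ⁻¹ v) := by
  have h := (tt_spec hB hσ).2 (σ⁻¹ v)
  rw [MulAut.apply_inv_self] at h
  rw [← h]
  group

/-- the set of the `ρ` -/
def AL (E₀ : Subgroup (MulAut V₀)) (L : Set (V₀ × V₀ × ℤ)) (y : V₀) : Set (MulAut V₀) :=
  {ρ | ρ ∈ E₀ ∧ ∀ s ∈ L, ρ s.2.1 = s.1 * y ^ s.2.2}

theorem AL_map {L : Set (V₀ × V₀ × ℤ)} {y : V₀} {ρ : MulAut V₀} (hρ : ρ ∈ AL E₀ L y) :
    (p2 L ⊔ Subgroup.zpowers (ρ⁻¹ y)).map ρ.toMonoidHom = p1 L ⊔ Subgroup.zpowers y := by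
  have hy : y ∈ p1 L ⊔ Subgroup.zpowers y := Subgroup.mem_sup_right (Subgroup.mem_zpowers y)
  have hy' : ρ⁻¹ y ∈ p2 L ⊔ Subgroup.zpowers (ρ⁻¹ y) :=
    Subgroup.mem_sup_right (Subgroup.mem_zpowers _)
  apply le_antisymm
  · rw [Subgroup.map_le_iff_le_comap, sup_le_iff]
    constructor
    · unfold p2
      rw [Subgroup.closure_le]
      rintro _ ⟨s, hs, rfl⟩
      show ρ s.2.1 ∈ p1 L ⊔ Subgroup.zpowers y
      rw [hρ.2 s hs]
      exact Subgroup.mul_mem _ (Subgroup.mem_sup_left (Subgroup.subset_closure ⟨s, hs, rfl⟩))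
        (Subgroup.zpow_mem _ hy _)
    · rw [Subgroup.zpowers_le]
      show ρ (ρ⁻¹ y) ∈ p1 L ⊔ Subgroup.zpowers y
      rw [MulAut.apply_inv_self]
      exact hy
  · rw [sup_le_iff]
    constructor
    · unfold p1
      rw [Subgroup.closure_le]
      rintro _ ⟨s, hs, rfl⟩
      refine ⟨s.2.1 * ((ρ⁻¹ y) ^ s.2.2)⁻¹, ?_, ?_⟩
      · exact Subgroup.mul_mem _ (Subgroup.mem_sup_left (Subgroup.subset_closure ⟨s, hs, rfl⟩))
          (Subgroup.inv_mem _ (Subgroup.zpow_mem _ hy' _))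
      · show ρ (s.2.1 * ((ρ⁻¹ y) ^ s.2.2)⁻¹) = s.1
        rw [map_mul, map_inv, map_zpow, MulAut.apply_inv_self, hρ.2 s hs, mul_inv_cancel_right]
    · rw [Subgroup.zpowers_le]
      exact ⟨ρ⁻¹ y, hy', MulAut.apply_inv_self _ _ _⟩

theorem St_AL {L : Set (V₀ × V₀ × ℤ)} {y : V₀} {ρ τ : MulAut V₀} (hρ : ρ ∈ AL E₀ L y)
    (hτ : τ ∈ St E₀ (p1 L ⊔ Subgroup.zpowers y)) : τ * ρ ∈ AL E₀ L y := by
  refine ⟨E₀.mul_mem hτ.1 hρ.1, fun s hs => ?_⟩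
  rw [MulAut.mul_apply, hρ.2 s hs]
  exact hτ.2 _ (Subgroup.mul_mem _ (Subgroup.mem_sup_left (Subgroup.subset_closure ⟨s, hs, rfl⟩))
    (Subgroup.zpow_mem _ (Subgroup.mem_sup_right (Subgroup.mem_zpowers y)) _))

/-- the order of the stabiliser of a conjugate -/
theorem nS_map {σ : MulAut V₀} (hσ : σ ∈ E₀) (W : Subgroup V₀) :
    nS E₀ (W.map σ.toMonoidHom) = nS E₀ W := by
  unfold nS
  refine Nat.card_congr
    { toFun := fun τ => ⟨σ⁻¹ * τ.1 * σ, E₀.mul_mem (E₀.mul_mem (E₀.inv_mem hσ) τ.2.1) hσ, ?_⟩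
      invFun := fun τ => ⟨σ * τ.1 * σ⁻¹, E₀.mul_mem (E₀.mul_mem hσ τ.2.1) (E₀.inv_mem hσ), ?_⟩
      left_inv := fun τ => Subtype.ext (by
        show σ * (σ⁻¹ * τ.1 * σ) * σ⁻¹ = τ.1
        group)
      right_inv := fun τ => Subtype.ext (by
        show σ⁻¹ * (σ * τ.1 * σ⁻¹) * σ = τ.1
        group) }
  · intro w hw
    rw [MulAut.mul_apply, MulAut.mul_apply, τ.2.2 (σ w) ⟨w, hw, rfl⟩, MulAut.inv_apply_self]
  · rintro _ ⟨w, hw, rfl⟩
    show (σ * τ.1 * σ⁻¹) (σ w) = σ w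
    rw [MulAut.mul_apply, MulAut.mul_apply, MulAut.inv_apply_self, τ.2.2 w hw]

/-- the elements which conjugate `b Y'` to `b Y` -/
theorem TT_iff [Finite G] [Finite V₀] [Fact ℓ.Prime] (fud : FudStmt) (cjd : CjdStmt)
    (hM : (ℓ : integralClosure ℤ ℂ) ∈ M) (hℓ : ℓ ≠ 2) (hF : Fq ℓ V₀ E₀) (hB : Sb ℓ M E₀ B)
    {L : Set (V₀ × V₀ × ℤ)} {y y' : V₀} {τ : G} :
    (τ ∈ SO.H82.TT B L y y' ∧ H75.cj τ (B.b (p2 L ⊔ Subgroup.zpowers y')) =
      B.b (p1 L ⊔ Subgroup.zpowers y)) ↔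
    ∃ ρ ∈ AL E₀ L y, τ * (tt B ρ)⁻¹ ∈ B.C (p1 L ⊔ Subgroup.zpowers y) ∧ ρ⁻¹ y = y' := by
  classical
  have hy : y ∈ p1 L ⊔ Subgroup.zpowers y := Subgroup.mem_sup_right (Subgroup.mem_zpowers y)
  have hy' : y' ∈ p2 L ⊔ Subgroup.zpowers y' := Subgroup.mem_sup_right (Subgroup.mem_zpowers _)
  have hq : ∀ s ∈ L, s.2.1 ∈ p2 L ⊔ Subgroup.zpowers y' := fun s hs =>
    Subgroup.mem_sup_left (Subgroup.subset_closure ⟨s, hs, rfl⟩)
  constructor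
  · rintro ⟨hτ, hcj⟩
    obtain ⟨f, hf⟩ : ∃ f : V₀ → V₀, ∀ v ∈ p2 L ⊔ Subgroup.zpowers y',
        f v ∈ p1 L ⊔ Subgroup.zpowers y ∧ τ * B.i v * τ⁻¹ = B.i (f v) := by
      refine ⟨fun v => if h : v ∈ p2 L ⊔ Subgroup.zpowers y' then (TT_fwd hτ v h).choose else 1,
        fun v hv => ?_⟩
      simp only [dif_pos hv]
      exact (TT_fwd hτ v hv).choose_spec
    have hsurj : ∀ v ∈ p1 L ⊔ Subgroup.zpowers y, ∃ v' ∈ p2 L ⊔ Subgroup.zpowers y',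
        f v' = v := by
      intro u hu
      obtain ⟨v, hv, e⟩ := TT_bwd hτ u hu
      refine ⟨v, hv, ?_⟩
      apply hB.inj
      rw [← (hf v hv).2, e]
    obtain ⟨ρ, hρ, hfρ, -⟩ := fud ℓ M hM V₀ G E₀ hF B hB _ _ τ f
      (fun v hv => (hf v hv).2) (fun v hv => (hf v hv).1) hsurj hcj
    refine ⟨ρ, ⟨hρ, fun s hs => ?_⟩, ?_, ?_⟩
    · apply hB.inj
      rw [← hfρ _ (hq s hs), ← (hf _ (hq s hs)).2]
      exact hτ.2 s hs
    · apply mem_of_conj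
      intro v hv
      obtain ⟨v', hv', e⟩ := hsurj v hv
      have h1 := tt_inv hB hρ v
      have h2 : ρ⁻¹ v = v' := by
        rw [← e, hfρ v' hv', MulAut.inv_apply_self]
      rw [h2] at h1
      have h3 : τ * (tt B ρ)⁻¹ * B.i v * (τ * (tt B ρ)⁻¹)⁻¹ =
          τ * ((tt B ρ)⁻¹ * B.i v * tt B ρ) * τ⁻¹ := by group
      rw [h3, h1, (hf v' hv').2, e]
    · have h1 : f y' = y := by
        apply hB.inj
        rw [← (hf y' hy').2]
        exact hτ.1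
      rw [← h1, hfρ y' hy', MulAut.inv_apply_self]
  · rintro ⟨ρ, hρ, hc, rfl⟩
    obtain ⟨c, hcd⟩ : ∃ c, c = τ * (tt B ρ)⁻¹ := ⟨_, rfl⟩
    have hτc : τ = c * tt B ρ := by
      rw [hcd]
      group
    rw [← hcd] at hc
    have hkey : ∀ v, ρ v ∈ p1 L ⊔ Subgroup.zpowers y → τ * B.i v * τ⁻¹ = B.i (ρ v) := by
      intro v hv
      have h1 : τ * B.i v * τ⁻¹ = c * (tt B ρ * B.i v * (tt B ρ)⁻¹) * c⁻¹ := by
        rw [hτc]
        group
      rw [h1, (tt_spec hB hρ.1).2 v]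
      exact conj_of_mem B hc hv
    refine ⟨⟨?_, fun s hs => ?_⟩, ?_⟩
    · rw [hkey _ (by rw [MulAut.apply_inv_self]; exact hy), MulAut.apply_inv_self]
    · rw [hkey _ (by
        rw [hρ.2 s hs]
        exact Subgroup.mul_mem _ (Subgroup.mem_sup_left (Subgroup.subset_closure ⟨s, hs, rfl⟩))
          (Subgroup.zpow_mem _ hy _)), hρ.2 s hs]
    · rw [hτc, ← cj_cj, (cjd ℓ M hM hℓ V₀ G E₀ hF B hB ρ hρ.1 (tt B ρ) (tt_spec hB hρ.1).1
        (tt_spec hB hρ.1).2 _).1, AL_map hρ]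
      exact ((hB.lb _).blk.ix).inv hc

/-- the sum over the cosets -/
theorem cos [Fintype G] [Fintype (MulAut V₀)] (hB : Sb ℓ M E₀ B)
    {Y : Subgroup V₀} [Fintype (B.C Y)] {y : V₀} (hy : y ∈ Y) (A : Finset (MulAut V₀))
    (hA : ∀ ρ ∈ A, ρ ∈ E₀) (hSt : ∀ τ ∈ St E₀ Y, ∀ ρ ∈ A, τ * ρ ∈ A) (Ψ : G → V₀ → ℂ)
    (T : Finset (G × V₀))
    (hT : ∀ p : G × V₀, p ∈ T ↔ ∃ ρ ∈ A, p.1 * (tt B ρ)⁻¹ ∈ B.C Y ∧ ρ⁻¹ y = p.2) :
    ∑ ρ ∈ A, ∑ k : B.C Y, Ψ (k * tt B ρ) (ρ⁻¹ y) = (nS E₀ Y : ℂ) * ∑ p ∈ T, Ψ p.1 p.2 := by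
  classical
  have h1 : ∑ ρ ∈ A, ∑ k : B.C Y, Ψ (k * tt B ρ) (ρ⁻¹ y) =
      ∑ a ∈ A ×ˢ (Finset.univ : Finset (B.C Y)), Ψ (a.2 * tt B a.1) (a.1⁻¹ y) := by
    rw [Finset.sum_product]
  obtain ⟨f, hf⟩ : ∃ f : MulAut V₀ × B.C Y → G × V₀, f = fun a => (a.2 * tt B a.1, a.1⁻¹ y) :=
    ⟨_, rfl⟩
  have hmaps : ∀ a ∈ A ×ˢ (Finset.univ : Finset (B.C Y)), f a ∈ T := by
    intro a ha
    rw [hT, hf]
    refine ⟨a.1, (Finset.mem_product.1 ha).1, ?_, rfl⟩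
    show (a.2 : G) * tt B a.1 * (tt B a.1)⁻¹ ∈ B.C Y
    rw [mul_inv_cancel_right]
    exact a.2.2
  rw [h1, ← Finset.sum_fiberwise_of_maps_to hmaps, Finset.mul_sum]
  refine Finset.sum_congr rfl fun p hp => ?_
  have h2 : ∀ a ∈ (A ×ˢ (Finset.univ : Finset (B.C Y))).filter (fun a => f a = p),
      Ψ (a.2 * tt B a.1) (a.1⁻¹ y) = Ψ p.1 p.2 := by
    intro a ha
    rw [← (Finset.mem_filter.1 ha).2, hf]
  rw [Finset.sum_congr rfl h2, Finset.sum_const, nsmul_eq_mul]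
  congr 2
  -- the number of the elements of a fibre
  obtain ⟨ρ₀, hρ₀, hc₀, hy₀⟩ := (hT p).1 hp
  have hst : ∀ {ρ ρ' : MulAut V₀}, ρ ∈ E₀ → ρ' ∈ E₀ → ∀ v,
      tt B ρ * (tt B ρ')⁻¹ * B.i v * (tt B ρ * (tt B ρ')⁻¹)⁻¹ = B.i (ρ (ρ'⁻¹ v)) := by
    intro ρ ρ' hρ hρ' v
    have e : tt B ρ * (tt B ρ')⁻¹ * B.i v * (tt B ρ * (tt B ρ')⁻¹)⁻¹ =
        tt B ρ * ((tt B ρ')⁻¹ * B.i v * tt B ρ') * (tt B ρ)⁻¹ := by group
    rw [e, tt_inv hB hρ', (tt_spec hB hρ).2]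
  have hmul : ∀ {ρ : MulAut V₀}, ρ ∈ A → p.1 * (tt B ρ)⁻¹ ∈ B.C Y → ρ * ρ₀⁻¹ ∈ St E₀ Y := by
    intro ρ hρ hc
    refine ⟨E₀.mul_mem (hA ρ hρ) (E₀.inv_mem (hA _ hρ₀)), fun v hv => ?_⟩
    have h3 : tt B ρ * (tt B ρ₀)⁻¹ ∈ B.C Y := by
      have h4 := (B.C Y).mul_mem ((B.C Y).inv_mem hc) hc₀
      have e : (p.1 * (tt B ρ)⁻¹)⁻¹ * (p.1 * (tt B ρ₀)⁻¹) = tt B ρ * (tt B ρ₀)⁻¹ := by group
      rw [e] at h4
      exact h4
    apply hB.inj
    rw [MulAut.mul_apply, ← hst (hA ρ hρ) (hA _ hρ₀)]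
    exact conj_of_mem B h3 hv
  have hin : ∀ {τ : MulAut V₀}, τ ∈ St E₀ Y → p.1 * (tt B (τ * ρ₀))⁻¹ ∈ B.C Y := by
    intro τ hτ
    have h3 : tt B ρ₀ * (tt B (τ * ρ₀))⁻¹ ∈ B.C Y := by
      apply mem_of_conj
      intro v hv
      rw [hst (hA _ hρ₀) (hA _ (hSt τ hτ _ hρ₀))]
      congr 1
      rw [mul_inv_rev, MulAut.mul_apply, MulAut.apply_inv_self]
      exact ((St E₀ Y).inv_mem hτ).2 v hv
    have h4 := (B.C Y).mul_mem hc₀ h3
    have e : p.1 * (tt B ρ₀)⁻¹ * (tt B ρ₀ * (tt B (τ * ρ₀))⁻¹) = p.1 * (tt B (τ * ρ₀))⁻¹ := by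
      group
    rw [e] at h4
    exact h4
  unfold nS
  rw [← Nat.card_eq_fintype_card.trans (Fintype.card_coe _)]
  symm
  refine Nat.card_congr
    { toFun := fun τ => ⟨(τ.1 * ρ₀, ⟨p.1 * (tt B (τ.1 * ρ₀))⁻¹, hin τ.2⟩), ?_⟩
      invFun := fun a => ⟨a.1.1 * ρ₀⁻¹, ?_⟩
      left_inv := fun τ => Subtype.ext (by
        show τ.1 * ρ₀ * ρ₀⁻¹ = τ.1
        group)
      right_inv := fun a => ?_ }
  · rw [Finset.mem_filter, Finset.mem_product]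
    refine ⟨⟨hSt _ τ.2 _ hρ₀, Finset.mem_univ _⟩, ?_⟩
    rw [hf]
    refine Prod.ext ?_ ?_
    · show p.1 * (tt B (τ.1 * ρ₀))⁻¹ * tt B (τ.1 * ρ₀) = p.1
      group
    · show (τ.1 * ρ₀)⁻¹ y = p.2
      rw [mul_inv_rev, MulAut.mul_apply, ((St E₀ Y).inv_mem τ.2).2 y hy]
      exact hy₀
  · have ha := Finset.mem_filter.1 a.2
    have h6 : (a.1.2 : G) * tt B a.1.1 = p.1 := by
      have h7 := congrArg Prod.fst ha.2
      rw [show f a.1 = _ from congrFun hf a.1] at h7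
      exact h7
    refine hmul (Finset.mem_product.1 ha.1).1 ?_
    rw [← h6, mul_inv_cancel_right]
    exact a.1.2.2
  · have ha := Finset.mem_filter.1 a.2
    have h6 : (a.1.2 : G) * tt B a.1.1 = p.1 := by
      have h7 := congrArg Prod.fst ha.2
      rw [show f a.1 = _ from congrFun hf a.1] at h7
      exact h7
    have h7 : a.1.1 * ρ₀⁻¹ * ρ₀ = a.1.1 := by group
    refine Subtype.ext (Prod.ext h7 (Subtype.ext ?_))
    show p.1 * (tt B (a.1.1 * ρ₀⁻¹ * ρ₀))⁻¹ = a.1.2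
    rw [h7, ← h6, mul_inv_cancel_right]

end blk

end Pool.Agent.PP.SE.H40
end
end -- Pool.Agent.Helper40_ASE.FBR2

section -- Pool.Agent.Helper40_ASE.FBR3

/-!
# Squad ASE, row FBR, part 3: the value of a character at `z x` as a sum over the pairs `(g, y)`

Author: helper40.
-/

open scoped BigOperators

set_option autoImplicit false
set_option linter.unusedSectionVars false

noncomputable section

namespace Pool.Agent.PP.SE.H40

open Pool.Agent.Helper51_AWC Pool.Agent.Helper79_WRA Pool.Agent.PP Pool.Agent.PP.KF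
open Pool.Agent.PP.K9 Pool.Agent.PP.K9.H97 Pool.Agent.PP.H75 Pool.Agent.PP.T3 Pool.Agent.PP.SO
open Pool.Agent.PP.SD
open Pool.Agent.PP.SO.H82 (memC conj_of_mem mem_of_conj cjW TT_fwd TT_bwd TT_C)
open Pool.Agent.PP.SO.H59 (C_mono i_mem_C)
open Pool.Agent.PP.SD.H30 (mem_C_sup bh_cjX ch_conj)

attribute [local instance] Ideal.Quotient.field

section blk

variable {V₀ G : Type} [CommGroup V₀] [Group G] {ℓ : ℕ}
  {M : Ideal (integralClosure ℤ ℂ)} [M.IsMaximal] {E₀ : Subgroup (MulAut V₀)}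
  {B : Bk (FF M) V₀ G}

/-- the triples `(w, w, 0)` -/
def LW (W : Subgroup V₀) : Set (V₀ × V₀ × ℤ) := {s | ∃ w ∈ W, s = (w, w, 0)}

theorem LW_p1 (W : Subgroup V₀) : p1 (LW W) = W := by
  unfold p1
  have h : {p | ∃ s ∈ LW W, s.1 = p} = (W : Set V₀) := by
    ext p
    constructor
    · rintro ⟨_, ⟨w, hw, rfl⟩, rfl⟩
      exact hw
    · intro hp
      exact ⟨(p, p, 0), ⟨p, hp, rfl⟩, rfl⟩
  rw [h, Subgroup.closure_eq]

theorem LW_p2 (W : Subgroup V₀) : p2 (LW W) = W := by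
  unfold p2
  have h : {p | ∃ s ∈ LW W, s.2.1 = p} = (W : Set V₀) := by
    ext p
    constructor
    · rintro ⟨_, ⟨w, hw, rfl⟩, rfl⟩
      exact hw
    · intro hp
      exact ⟨(p, p, 0), ⟨p, hp, rfl⟩, rfl⟩
  rw [h, Subgroup.closure_eq]

theorem AL_LW {W : Subgroup V₀} {y : V₀} {ρ : MulAut V₀} :
    ρ ∈ AL E₀ (LW W) y ↔ ρ ∈ St E₀ W := by
  constructor
  · rintro ⟨h1, h2⟩
    refine ⟨h1, fun w hw => ?_⟩
    have h3 := h2 (w, w, 0) ⟨w, hw, rfl⟩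
    rw [zpow_zero, mul_one] at h3
    exact h3
  · rintro ⟨h1, h2⟩
    refine ⟨h1, ?_⟩
    rintro _ ⟨w, hw, rfl⟩
    rw [zpow_zero, mul_one]
    exact h2 w hw

theorem TT_LW {W : Subgroup V₀} {y y' : V₀} {τ : G} :
    τ ∈ SO.H82.TT B (LW W) y y' ↔ τ ∈ B.C W ∧ τ * B.i y' * τ⁻¹ = B.i y := by
  constructor
  · rintro ⟨h1, h2⟩
    refine ⟨mem_of_conj B fun w hw => ?_, h1⟩
    have h3 := h2 (w, w, 0) ⟨w, hw, rfl⟩
    rw [zpow_zero, mul_one] at h3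
    exact h3
  · rintro ⟨h1, h2⟩
    refine ⟨h2, ?_⟩
    rintro _ ⟨w, hw, rfl⟩
    rw [zpow_zero, mul_one]
    exact conj_of_mem B h1 hw

variable (E₀ B) in
/-- the weights -/
def wg (W : Subgroup V₀) (y : V₀) : ℂ := (nS E₀ (W ⊔ Subgroup.zpowers y) : ℂ) /
  ((nS E₀ W : ℂ) * Nat.card (B.C (W ⊔ Subgroup.zpowers y)))

/-- the orders for `ρ ∈ AL` -/
theorem cards [Finite G] [Finite V₀] [Fact ℓ.Prime] (cjd : CjdStmt)
    (hM : (ℓ : integralClosure ℤ ℂ) ∈ M) (hℓ : ℓ ≠ 2) (hF : Fq ℓ V₀ E₀) (hB : Sb ℓ M E₀ B)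
    {L : Set (V₀ × V₀ × ℤ)} {y : V₀} {ρ : MulAut V₀} (hρ : ρ ∈ AL E₀ L y) :
    wg E₀ B (p2 L) (ρ⁻¹ y) = (nS E₀ (p1 L ⊔ Subgroup.zpowers y) : ℂ) /
      ((nS E₀ (p2 L) : ℂ) * Nat.card (B.C (p1 L ⊔ Subgroup.zpowers y))) := by
  have h1 := (cjd ℓ M hM hℓ V₀ G E₀ hF B hB ρ hρ.1 (tt B ρ) (tt_spec hB hρ.1).1
    (tt_spec hB hρ.1).2 (p2 L ⊔ Subgroup.zpowers (ρ⁻¹ y))).2.2.1
  have h2 := nS_map hρ.1 (p2 L ⊔ Subgroup.zpowers (ρ⁻¹ y))
  rw [AL_map hρ] at h1 h2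
  unfold wg
  rw [h1, h2]

theorem nS_ne [Finite V₀] (W : Subgroup V₀) : (nS E₀ W : ℂ) ≠ 0 := by
  have : Finite (St E₀ W) := inferInstance
  exact Nat.cast_ne_zero.2 Nat.card_pos.ne'

theorem card_ne [Finite G] (X : Subgroup G) : (Nat.card X : ℂ) ≠ 0 :=
  Nat.cast_ne_zero.2 Nat.card_pos.ne'

open Classical in
/-- the sum of the weights over a fibre -/
theorem one [Fintype G] [Fintype V₀] [Fact ℓ.Prime] (fud : FudStmt) (cjd : CjdStmt)
    (hM : (ℓ : integralClosure ℤ ℂ) ∈ M) (hℓ : ℓ ≠ 2) (hF : Fq ℓ V₀ E₀) (hB : Sb ℓ M E₀ B)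
    (W : Subgroup V₀) (y₀ : V₀) :
    ∑ p ∈ Finset.univ.filter (fun p : G × V₀ => p.1 ∈ B.C W ∧ p.1 * B.i p.2 * p.1⁻¹ = B.i y₀ ∧
      H75.cj p.1 (B.b (W ⊔ Subgroup.zpowers p.2)) = B.b (W ⊔ Subgroup.zpowers y₀)),
      wg E₀ B W p.2 = 1 := by
  have := Fintype.ofFinite (MulAut V₀)
  have h1 := cos hB (Y := W ⊔ Subgroup.zpowers y₀) (y := y₀)
    (Subgroup.mem_sup_right (Subgroup.mem_zpowers y₀))
    (Finset.univ.filter (fun ρ : MulAut V₀ => ρ ∈ AL E₀ (LW W) y₀))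
    (fun ρ hρ => ((Finset.mem_filter.1 hρ).2).1) (fun τ hτ ρ hρ => by
      rw [Finset.mem_filter] at hρ ⊢
      refine ⟨Finset.mem_univ _, ?_⟩
      refine St_AL hρ.2 ?_
      rw [LW_p1]
      exact hτ) (fun _ y' => wg E₀ B W y')
    (Finset.univ.filter (fun p : G × V₀ => p.1 ∈ B.C W ∧ p.1 * B.i p.2 * p.1⁻¹ = B.i y₀ ∧
      H75.cj p.1 (B.b (W ⊔ Subgroup.zpowers p.2)) = B.b (W ⊔ Subgroup.zpowers y₀)))
    (fun p => by
      rw [Finset.mem_filter]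
      have h2 := TT_iff fud cjd hM hℓ hF hB (L := LW W) (y := y₀) (y' := p.2) (τ := p.1)
      rw [TT_LW, LW_p1, LW_p2, and_assoc] at h2
      constructor
      · rintro ⟨-, h3⟩
        obtain ⟨ρ, hρ, h4⟩ := h2.1 h3
        exact ⟨ρ, Finset.mem_filter.2 ⟨Finset.mem_univ _, hρ⟩, h4⟩
      · rintro ⟨ρ, hρ, h4⟩
        exact ⟨Finset.mem_univ _, h2.2 ⟨ρ, (Finset.mem_filter.1 hρ).2, h4⟩⟩)
  have h3 : ∀ ρ ∈ Finset.univ.filter (fun ρ : MulAut V₀ => ρ ∈ AL E₀ (LW W) y₀),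
      ∑ _k : B.C (W ⊔ Subgroup.zpowers y₀), wg E₀ B W (ρ⁻¹ y₀) =
        (nS E₀ (W ⊔ Subgroup.zpowers y₀) : ℂ) / (nS E₀ W : ℂ) := by
    intro ρ hρ
    have h4 := cards cjd hM hℓ hF hB (Finset.mem_filter.1 hρ).2
    rw [LW_p1, LW_p2] at h4
    rw [h4, Finset.sum_const, nsmul_eq_mul, Finset.card_univ, ← Nat.card_eq_fintype_card]
    have h5 := card_ne (B.C (W ⊔ Subgroup.zpowers y₀))
    have h6 := nS_ne (E₀ := E₀) W
    field_simp
  rw [Finset.sum_congr rfl h3, Finset.sum_const, nsmul_eq_mul] at h1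
  have h7 : (Finset.univ.filter (fun ρ : MulAut V₀ => ρ ∈ AL E₀ (LW W) y₀)).card = nS E₀ W := by
    unfold nS
    rw [← Fintype.card_coe, ← Nat.card_eq_fintype_card]
    refine Nat.card_congr (Equiv.subtypeEquivRight fun ρ => ?_)
    rw [Finset.mem_filter, AL_LW]
    exact and_iff_right (Finset.mem_univ _)
  have h8 := nS_ne (E₀ := E₀) W
  have h9 := nS_ne (E₀ := E₀) (W ⊔ Subgroup.zpowers y₀)
  rw [h7, mul_div_cancel₀ _ h8] at h1
  exact (mul_left_cancel₀ h9 (by rw [mul_one]; exact h1)).symm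

end blk

end Pool.Agent.PP.SE.H40
end
end -- Pool.Agent.Helper40_ASE.FBR3

section -- Pool.Agent.Helper40_ASE.FBR4

/-!
# Squad ASE, row FBR, part 4: the value of a character at `z x`

Author: helper40.
-/

open scoped BigOperators

set_option autoImplicit false
set_option linter.unusedSectionVars false

noncomputable section

namespace Pool.Agent.PP.SE.H40

open Pool.Agent.Helper51_AWC Pool.Agent.Helper79_WRA Pool.Agent.PP Pool.Agent.PP.KF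
open Pool.Agent.PP.K9 Pool.Agent.PP.K9.H97 Pool.Agent.PP.H75 Pool.Agent.PP.T3 Pool.Agent.PP.SO
open Pool.Agent.PP.SD
open Pool.Agent.PP.SO.H82 (memC conj_of_mem mem_of_conj cjW TT_fwd TT_bwd TT_C)
open Pool.Agent.PP.SO.H59 (C_mono i_mem_C)
open Pool.Agent.PP.SD.H30 (mem_C_sup bh_cjX ch_conj)

attribute [local instance] Ideal.Quotient.field

section blk

variable {V₀ G : Type} [CommGroup V₀] [Group G] {ℓ : ℕ}
  {M : Ideal (integralClosure ℤ ℂ)} [M.IsMaximal] {E₀ : Subgroup (MulAut V₀)}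
  {B : Bk (FF M) V₀ G}

theorem conj_mem_iff {X : Subgroup G} {g x : G} (hg : g ∈ X) : g⁻¹ * x * g ∈ X ↔ x ∈ X := by
  constructor
  · intro h
    have h1 := X.mul_mem (X.mul_mem hg h) (X.inv_mem hg)
    have e : g * (g⁻¹ * x * g) * g⁻¹ = x := by group
    rw [e] at h1
    exact h1
  · intro h
    exact X.mul_mem (X.mul_mem (X.inv_mem hg) h) hg

/-- the block of a pair -/
theorem fib_blk [Finite G] [Finite V₀] [Fact ℓ.Prime] (hM : (ℓ : integralClosure ℤ ℂ) ∈ M)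
    (hℓ : ℓ ≠ 2) (hF : Fq ℓ V₀ E₀) (hB : Sb ℓ M E₀ B) {W : Subgroup V₀} {χ : G → ℂ}
    (hχ : χ ∈ Ch B W) {z : G} {K : Subgroup G} (hK : ∀ x, x ∈ K ↔ x ∈ B.C W ∧ x * z = z * x)
    [Fintype K] {g : G} (hg : g ∈ B.C W) {y : V₀} (hy : g * B.i y * g⁻¹ = z) :
    Bx K (H75.cj g (B.b (W ⊔ Subgroup.zpowers y))) ∧
    mulF (fun t : K => B.b W t) (fun t : K => H75.cj g (B.b (W ⊔ Subgroup.zpowers y)) t) =
      (fun t : K => H75.cj g (B.b (W ⊔ Subgroup.zpowers y)) t) ∧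
    ∀ x : G, ∑ t : K, eh M (fun t : K => H75.cj g (B.b (W ⊔ Subgroup.zpowers y)) t) t *
        χ (z * x * t) = cx B (W ⊔ Subgroup.zpowers y) y χ (g⁻¹ * x * g) := by
  have hC : ∀ x, x ∈ K ↔ g⁻¹ * x * g ∈ B.C (W ⊔ Subgroup.zpowers y) := by
    intro x
    rw [hK, mem_C_sup, conj_mem_iff hg]
    refine and_congr_right fun _ => ?_
    rw [← hy]
    constructor
    · intro h
      have e : B.i y * (g⁻¹ * x * g) = g⁻¹ * (g * B.i y * g⁻¹ * x) * g := by group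
      rw [e, ← h]
      group
    · intro h
      have e : x * (g * B.i y * g⁻¹) = g * (g⁻¹ * x * g * B.i y) * g⁻¹ := by group
      rw [e, ← h]
      group
  refine ⟨T3.H62.bx_cj hC (hB.lb _).blk, ?_, fun x => ?_⟩
  · have h1 := H20.mulF_equiv (cjW hC).symm (fun t : B.C (W ⊔ Subgroup.zpowers y) => B.b W t)
      (fun t : B.C (W ⊔ Subgroup.zpowers y) => B.b (W ⊔ Subgroup.zpowers y) t)
    rw [und_le hM hℓ hF hB le_sup_left] at h1
    have e1 : (fun t : K => (fun t : B.C (W ⊔ Subgroup.zpowers y) => B.b W t)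
        ((cjW hC).symm t)) = fun t : K => B.b W t := by
      funext t
      exact congrFun (((hB.lb W).blk.ix).inv hg) t
    rw [e1] at h1
    exact h1
  · symm
    unfold cx
    rw [← finsum_comp_equiv (MulAut.conj g).symm.toEquiv]
    have h1 : ∀ r : G, bh B (W ⊔ Subgroup.zpowers y) ((MulAut.conj g).symm.toEquiv r) *
        χ (B.i y * (g⁻¹ * x * g) * (MulAut.conj g).symm.toEquiv r) =
        PP.ext0 K (eh M (fun t : K => H75.cj g (B.b (W ⊔ Subgroup.zpowers y)) t)) r *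
          χ (z * x * r) := by
      intro r
      have e1 : (MulAut.conj g).symm.toEquiv r = g⁻¹ * r * g := rfl
      rw [e1, bh_cjX hB hC r, ← ch_conj hχ hg (B.i y * (g⁻¹ * x * g) * (g⁻¹ * r * g))]
      congr 2
      rw [← hy]
      group
    rw [finsum_congr h1, H75.sum_sub K _ (fun r hr => by
      unfold PP.ext0
      rw [dif_neg hr, zero_mul]), finsum_eq_sum_of_fintype]
    refine Finset.sum_congr rfl fun t _ => ?_
    unfold PP.ext0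
    rw [dif_pos t.2]

open Classical in
/-- the value of `χ` at `z x` -/
theorem val_exp' [Fintype G] [Fintype V₀] [Fact ℓ.Prime] (psc : PscStmt) (fud : FudStmt)
    (cjd : CjdStmt) (smg : T3.SmgStmt) (hM : (ℓ : integralClosure ℤ ℂ) ∈ M) (hℓ : ℓ ≠ 2)
    (hF : Fq ℓ V₀ E₀) (hB : Sb ℓ M E₀ B) {W : Subgroup V₀} {χ : G → ℂ} (hχ : χ ∈ Ch B W) {z x : G}
    (hz : El ℓ z) (hx : Reg ℓ x) (hc : x * z = z * x) (hzW : z ∈ B.C W) (hxW : x ∈ B.C W) :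
    χ (z * x) = ∑ p ∈ Finset.univ.filter (fun p : G × V₀ => p.1 ∈ B.C W ∧
      p.1 * B.i p.2 * p.1⁻¹ = z), wg E₀ B W p.2 *
        cx B (W ⊔ Subgroup.zpowers p.2) p.2 χ (p.1⁻¹ * x * p.1) := by
  obtain ⟨K, hK0⟩ : ∃ K : Subgroup G, K = B.C W ⊓ Cu z := ⟨_, rfl⟩
  have hK : ∀ x, x ∈ K ↔ x ∈ B.C W ∧ x * z = z * x := by
    intro x
    rw [hK0, Subgroup.mem_inf, Subgroup.mem_centralizer_singleton_iff]
  have := Fintype.ofFinite K
  obtain ⟨hid, hval⟩ := val_sum smg hM (hB.lb W).blk.blk.1 hχ.2 hzW hz hK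
  have hxK : x ∈ K := (hK x).2 ⟨hxW, hc⟩
  have h1 := hval ⟨x, hxK⟩ (SD.H95.reg_coe.1 hx)
  obtain ⟨hfin, hsum⟩ := SO.H13.blk_sum (M := M) _ hid
  rw [finsum_mem_eq_finite_toFinset_sum _ hfin] at hsum
  obtain ⟨V, hV⟩ : ∃ V : (K → FF M) → ℂ, V = fun β => ∑ t : K, eh M β t * χ (z * x * t) :=
    ⟨_, rfl⟩
  have h2 : χ (z * x) = ∑ β ∈ hfin.toFinset, V β := by
    rw [hV]
    rw [Finset.sum_comm]
    refine h1.trans (Finset.sum_congr rfl fun t _ => ?_)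
    rw [hsum, Finset.sum_apply, Finset.sum_mul]
  obtain ⟨φ, hφ⟩ : ∃ φ : G × V₀ → K → FF M, ∀ p, φ p =
      fun t : K => H75.cj p.1 (B.b (W ⊔ Subgroup.zpowers p.2)) t := ⟨_, fun _ => rfl⟩
  have hmaps : ∀ p ∈ Finset.univ.filter (fun p : G × V₀ => p.1 ∈ B.C W ∧
      p.1 * B.i p.2 * p.1⁻¹ = z), φ p ∈ hfin.toFinset := by
    intro p hp
    have hp2 := (Finset.mem_filter.1 hp).2
    obtain ⟨h3, h4, -⟩ := fib_blk hM hℓ hF hB hχ hK hp2.1 hp2.2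
    rw [Set.Finite.mem_toFinset, hφ]
    exact ⟨h3.blk, h4⟩
  rw [h2, ← Finset.sum_fiberwise_of_maps_to hmaps]
  refine Finset.sum_congr rfl fun β hβ => ?_
  rw [Set.Finite.mem_toFinset] at hβ
  have hβe : (fun t : K => H75.ext0 K β t) = β := funext (H75.ext0_apply K β)
  have hβB : Bx K (H75.ext0 K β) := ⟨H75.ext0_supp K β, by rw [hβe]; exact hβ.1⟩
  obtain ⟨g₀, hg₀, y₀, hy₀, hβ₀⟩ := psc ℓ M hM hℓ V₀ G E₀ hF B hB W z hzW hz (H75.ext0 K β)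
    (by rw [← hK0]; exact hβB) (by
      have h5 : mulF (fun t : K => B.b W t) (fun t : K => H75.ext0 K β t) =
          fun t : K => H75.ext0 K β t := by
        rw [hβe]
        exact hβ.2
      subst hK0
      exact h5)
  have h3 : ∀ p ∈ (Finset.univ.filter (fun p : G × V₀ => p.1 ∈ B.C W ∧
      p.1 * B.i p.2 * p.1⁻¹ = z)).filter (fun p => φ p = β), wg E₀ B W p.2 *
        cx B (W ⊔ Subgroup.zpowers p.2) p.2 χ (p.1⁻¹ * x * p.1) = wg E₀ B W p.2 * V β := by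
    intro p hp
    obtain ⟨hp1, hp2⟩ := Finset.mem_filter.1 hp
    have hp3 := (Finset.mem_filter.1 hp1).2
    obtain ⟨-, -, h4⟩ := fib_blk hM hℓ hF hB hχ hK hp3.1 hp3.2
    rw [← h4 x, hV, ← hp2, hφ]
  rw [Finset.sum_congr rfl h3, ← Finset.sum_mul]
  have h4 : ∑ p ∈ (Finset.univ.filter (fun p : G × V₀ => p.1 ∈ B.C W ∧
      p.1 * B.i p.2 * p.1⁻¹ = z)).filter (fun p => φ p = β), wg E₀ B W p.2 = 1 := by
    rw [← one fud cjd hM hℓ hF hB W y₀]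
    refine Finset.sum_nbij' (fun p => (g₀⁻¹ * p.1, p.2)) (fun p => (g₀ * p.1, p.2)) ?_ ?_ ?_ ?_ ?_
    · intro p hp
      obtain ⟨hp1, hp2⟩ := Finset.mem_filter.1 hp
      obtain ⟨-, hp3, hp4⟩ := Finset.mem_filter.1 hp1
      rw [Finset.mem_filter]
      refine ⟨Finset.mem_univ _, (B.C W).mul_mem ((B.C W).inv_mem hg₀) hp3, ?_, ?_⟩
      · show g₀⁻¹ * p.1 * B.i p.2 * (g₀⁻¹ * p.1)⁻¹ = B.i y₀
        have e : g₀⁻¹ * p.1 * B.i p.2 * (g₀⁻¹ * p.1)⁻¹ = g₀⁻¹ * (p.1 * B.i p.2 * p.1⁻¹) * g₀ := by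
          group
        rw [e, hp4, hy₀]
        group
      · show H75.cj (g₀⁻¹ * p.1) (B.b (W ⊔ Subgroup.zpowers p.2)) = _
        obtain ⟨h5, -, -⟩ := fib_blk hM hℓ hF hB hχ hK hp3 hp4
        have h6 : H75.cj p.1 (B.b (W ⊔ Subgroup.zpowers p.2)) = H75.ext0 K β := by
          apply eq_of_res h5.supp (H75.ext0_supp K β)
          rw [hβe, ← hp2, hφ]
        rw [← cj_cj, h6, hβ₀, cj_inv_cj]
    · intro p hp
      obtain ⟨-, hp3, hp4, hp5⟩ := Finset.mem_filter.1 hp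
      have hp6 : g₀ * p.1 ∈ B.C W := (B.C W).mul_mem hg₀ hp3
      have hp7 : g₀ * p.1 * B.i p.2 * (g₀ * p.1)⁻¹ = z := by
        have e : g₀ * p.1 * B.i p.2 * (g₀ * p.1)⁻¹ = g₀ * (p.1 * B.i p.2 * p.1⁻¹) * g₀⁻¹ := by
          group
        rw [e, hp4, hy₀]
      rw [Finset.mem_filter, Finset.mem_filter]
      refine ⟨⟨Finset.mem_univ _, hp6, hp7⟩, ?_⟩
      rw [hφ]
      show (fun t : K => H75.cj (g₀ * p.1) (B.b (W ⊔ Subgroup.zpowers p.2)) t) = β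
      rw [← cj_cj, hp5, ← hβ₀, hβe]
    · intro p _
      show (g₀ * (g₀⁻¹ * p.1), p.2) = p
      rw [mul_inv_cancel_left]
    · intro p _
      show (g₀⁻¹ * (g₀ * p.1), p.2) = p
      rw [inv_mul_cancel_left]
    · intro p _
      rfl
  rw [h4, one_mul]

end blk

end Pool.Agent.PP.SE.H40
end
end -- Pool.Agent.Helper40_ASE.FBR4

section -- Pool.Agent.Helper40_ASE.FBR5

/-!
# Squad ASE, row FBR, part 5: sums over the pairs of commuting elements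

Author: helper40.
-/

open scoped BigOperators

set_option autoImplicit false
set_option linter.unusedSectionVars false

noncomputable section

namespace Pool.Agent.PP.SE.H40

open Pool.Agent.Helper51_AWC Pool.Agent.Helper79_WRA Pool.Agent.PP Pool.Agent.PP.KF
open Pool.Agent.PP.K9 Pool.Agent.PP.K9.H97 Pool.Agent.PP.H75 Pool.Agent.PP.T3 Pool.Agent.PP.SO
open Pool.Agent.PP.SD
open Pool.Agent.PP.SO.H82 (memC conj_of_mem mem_of_conj cjW TT_fwd TT_bwd TT_C)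
open Pool.Agent.PP.SO.H59 (C_mono i_mem_C)
open Pool.Agent.PP.SD.H30 (mem_C_sup bh_cjX ch_conj)

attribute [local instance] Ideal.Quotient.field

open Classical in
/-- the decomposition of the elements -/
theorem jordan {G : Type} [Group G] [Fintype G] {ℓ n m : ℕ} [Fact ℓ.Prime] (h : PE ℓ n m G)
    (F : G → ℂ) : ∑ X : G, F X =
      ∑ z : G, ∑ x : G, if El ℓ z ∧ Reg ℓ x ∧ x * z = z * x then F (z * x) else 0 := by
  have h1 : ∀ z : G, ∑ x : G, (if El ℓ z ∧ Reg ℓ x ∧ x * z = z * x then F (z * x) else 0) =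
      ∑ X : G, if X ^ m = z then F X else 0 := by
    intro z
    rw [← Equiv.sum_comp (Equiv.mulLeft z) (fun X : G => if X ^ m = z then F X else 0)]
    refine Finset.sum_congr rfl fun x _ => ?_
    show _ = if (z * x) ^ m = z then F (z * x) else 0
    by_cases hz : El ℓ z
    · have h2 := SD.H45.part_iff h hz (x := x)
      by_cases h3 : (z * x) ^ m = z
      · rw [if_pos h3, if_pos ⟨hz, (h2.1 h3).2, (h2.1 h3).1⟩]
      · rw [if_neg h3, if_neg (fun h4 => h3 (h2.2 ⟨h4.2.2, h4.2.1⟩))]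
    · rw [if_neg (fun h4 => hz h4.1), if_neg (fun h4 => hz (by
        rw [← h4]
        exact SO.H70.el_pow h _))]
  rw [Finset.sum_congr rfl fun z _ => h1 z, Finset.sum_comm]
  refine Finset.sum_congr rfl fun X _ => ?_
  rw [Finset.sum_ite_eq, if_pos (Finset.mem_univ _)]

theorem re4 {A₁ A₂ A₃ A₄ : Type} [Fintype A₁] [Fintype A₂] [Fintype A₃] [Fintype A₄]
    (T : A₁ → A₂ → A₃ → A₄ → ℂ) :
    ∑ a, ∑ b, ∑ c, ∑ d, T a b c d = ∑ c, ∑ d, ∑ b, ∑ a, T a b c d := by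
  calc ∑ a, ∑ b, ∑ c, ∑ d, T a b c d = ∑ a, ∑ c, ∑ b, ∑ d, T a b c d :=
        Finset.sum_congr rfl fun a _ => Finset.sum_comm
    _ = ∑ c, ∑ a, ∑ b, ∑ d, T a b c d := Finset.sum_comm
    _ = ∑ c, ∑ a, ∑ d, ∑ b, T a b c d :=
        Finset.sum_congr rfl fun c _ => Finset.sum_congr rfl fun a _ => Finset.sum_comm
    _ = ∑ c, ∑ d, ∑ a, ∑ b, T a b c d := Finset.sum_congr rfl fun c _ => Finset.sum_comm
    _ = ∑ c, ∑ d, ∑ b, ∑ a, T a b c d :=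
        Finset.sum_congr rfl fun c _ => Finset.sum_congr rfl fun d _ => Finset.sum_comm

section blk

variable {V₀ G : Type} [CommGroup V₀] [Group G] {ℓ : ℕ}
  {M : Ideal (integralClosure ℤ ℂ)} [M.IsMaximal] {E₀ : Subgroup (MulAut V₀)}
  {B : Bk (FF M) V₀ G}

/-- `cx` vanishes outside of `C W` -/
theorem cx_out [Finite G] [Finite V₀] {W : Subgroup V₀} {χ : G → ℂ} (hχ : χ ∈ Ch B W) {y : V₀} {s : G}
    (hs : s ∉ B.C W) : cx B (W ⊔ Subgroup.zpowers y) y χ s = 0 := by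
  unfold cx
  refine (finsum_congr fun r => ?_).trans finsum_zero
  by_cases hr : r ∈ B.C (W ⊔ Subgroup.zpowers y)
  · rw [hχ.1 _ (fun h => hs ?_), mul_zero]
    have h1 := (B.C W).mul_mem ((B.C W).mul_mem ((B.C W).inv_mem (i_mem_C y W)) h)
      ((B.C W).inv_mem (C_mono le_sup_left hr))
    have e : (B.i y)⁻¹ * (B.i y * s * r) * r⁻¹ = s := by group
    rw [e] at h1
    exact h1
  · rw [SO.H10L.bh_supp B _ _ hr, zero_mul]

/-- `cx` is a class function -/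
theorem cx_conj [Finite G] {W : Subgroup V₀} {χ : G → ℂ} (hχ : χ ∈ Ch B W) {y : V₀} {k : G}
    (hk : k ∈ B.C (W ⊔ Subgroup.zpowers y)) (s : G) :
    cx B (W ⊔ Subgroup.zpowers y) y χ (k * s * k⁻¹) =
      cx B (W ⊔ Subgroup.zpowers y) y χ s := by
  unfold cx
  rw [← finsum_comp_equiv (MulAut.conj k).toEquiv]
  refine finsum_congr fun r => ?_
  have e1 : (MulAut.conj k).toEquiv r = k * r * k⁻¹ := rfl
  have hk1 := (mem_C_sup W y k).1 hk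
  rw [e1, SO.H10L.bh_conj B _ k hk]
  congr 1
  rw [← ch_conj hχ hk1.1 (B.i y * s * r)]
  congr 1
  have e2 : B.i y * (k * s * k⁻¹) * (k * r * k⁻¹) = B.i y * k * s * r * k⁻¹ := by group
  rw [e2, hk1.2]
  group

open Classical in
/-- the value of `χ` at `z x` -/
theorem val_exp [Fintype G] [Fintype V₀] [Fact ℓ.Prime] (psc : PscStmt) (fud : FudStmt)
    (cjd : CjdStmt) (smg : T3.SmgStmt) (hM : (ℓ : integralClosure ℤ ℂ) ∈ M) (hℓ : ℓ ≠ 2)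
    (hF : Fq ℓ V₀ E₀) (hB : Sb ℓ M E₀ B) {n m : ℕ} (hPE : PE ℓ n m G) {W : Subgroup V₀}
    {χ : G → ℂ} (hχ : χ ∈ Ch B W) {z x : G} (hz : El ℓ z) (hx : Reg ℓ x) (hc : x * z = z * x) :
    χ (z * x) = ∑ g : G, ∑ y : V₀, if g ∈ B.C W ∧ g * B.i y * g⁻¹ = z then wg E₀ B W y *
        cx B (W ⊔ Subgroup.zpowers y) y χ (g⁻¹ * x * g) else 0 := by
  by_cases hW : z ∈ B.C W ∧ x ∈ B.C W
  · rw [val_exp' psc fud cjd smg hM hℓ hF hB hχ hz hx hc hW.1 hW.2, Finset.sum_filter,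
      Fintype.sum_prod_type]
  · have h1 : z * x ∉ B.C W := by
      intro h2
      apply hW
      have h3 : z ∈ B.C W := by
        rw [← (SD.H45.part_iff hPE hz).2 ⟨hc, hx⟩]
        exact (B.C W).pow_mem h2 m
      refine ⟨h3, ?_⟩
      have h4 := (B.C W).mul_mem ((B.C W).inv_mem h3) h2
      rw [inv_mul_cancel_left] at h4
      exact h4
    rw [hχ.1 _ h1]
    symm
    refine Finset.sum_eq_zero fun g _ => Finset.sum_eq_zero fun y _ => ?_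
    by_cases h2 : g ∈ B.C W ∧ g * B.i y * g⁻¹ = z
    · rw [if_pos h2, cx_out hχ, mul_zero]
      intro h3
      apply hW
      refine ⟨?_, (conj_mem_iff h2.1).1 h3⟩
      rw [← h2.2]
      exact (B.C W).mul_mem ((B.C W).mul_mem h2.1 (i_mem_C y W)) ((B.C W).inv_mem h2.1)
    · rw [if_neg h2]

theorem el_i (hF : Fq ℓ V₀ E₀) (y : V₀) : El ℓ (B.i y) :=
  ⟨1, by rw [pow_one, ← map_pow, hF.ex, map_one]⟩

theorem reg_conj {g s : G} : Reg ℓ (g * s * g⁻¹) ↔ Reg ℓ s := by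
  unfold Reg
  have h : orderOf (g * s * g⁻¹) = orderOf s := by
    have h1 := MulEquiv.orderOf_eq (MulAut.conj g) s
    rw [MulAut.conj_apply] at h1
    exact h1
  rw [h]

open Classical in
/-- the sums over the commuting pairs -/
theorem expn [Fintype G] [Fintype V₀] [Fact ℓ.Prime] (psc : PscStmt) (fud : FudStmt)
    (cjd : CjdStmt) (smg : T3.SmgStmt) (hM : (ℓ : integralClosure ℤ ℂ) ∈ M) (hℓ : ℓ ≠ 2)
    (hF : Fq ℓ V₀ E₀) (hB : Sb ℓ M E₀ B) {n m : ℕ} (hPE : PE ℓ n m G) {W : Subgroup V₀}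
    {χ : G → ℂ} (hχ : χ ∈ Ch B W) (Θ : G → G → ℂ)
    (hΘ : ∀ g ∈ B.C W, ∀ z x, Θ (g * z * g⁻¹) (g * x * g⁻¹) = Θ z x) :
    ∑ z : G, ∑ x : G, (if El ℓ z ∧ Reg ℓ x ∧ x * z = z * x then χ (z * x) * Θ z x else 0) =
      (Nat.card (B.C W) : ℂ) * ∑ y : V₀, wg E₀ B W y *
        ∑ s : G, (if s ∈ B.C (W ⊔ Subgroup.zpowers y) ∧ Reg ℓ s then
          cx B (W ⊔ Subgroup.zpowers y) y χ s * Θ (B.i y) s else 0) := by
  obtain ⟨T, hT⟩ : ∃ T : G → G → G → V₀ → ℂ, ∀ z x g y, T z x g y =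
      if El ℓ z ∧ Reg ℓ x ∧ x * z = z * x then (if g ∈ B.C W ∧ g * B.i y * g⁻¹ = z then
        wg E₀ B W y * cx B (W ⊔ Subgroup.zpowers y) y χ (g⁻¹ * x * g) * Θ z x else 0) else 0 :=
    ⟨_, fun _ _ _ _ => rfl⟩
  have h1 : ∀ z x : G, (if El ℓ z ∧ Reg ℓ x ∧ x * z = z * x then χ (z * x) * Θ z x else 0) =
      ∑ g : G, ∑ y : V₀, T z x g y := by
    intro z x
    by_cases h2 : El ℓ z ∧ Reg ℓ x ∧ x * z = z * x
    · rw [if_pos h2, val_exp psc fud cjd smg hM hℓ hF hB hPE hχ h2.1 h2.2.1 h2.2.2,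
        Finset.sum_mul]
      refine Finset.sum_congr rfl fun g _ => ?_
      rw [Finset.sum_mul]
      refine Finset.sum_congr rfl fun y _ => ?_
      rw [hT, if_pos h2, ite_mul, zero_mul]
    · rw [if_neg h2]
      symm
      refine Finset.sum_eq_zero fun g _ => Finset.sum_eq_zero fun y _ => ?_
      rw [hT, if_neg h2]
  rw [Finset.sum_congr rfl fun z _ => Finset.sum_congr rfl fun x _ => h1 z x, re4]
  have h2 : ∀ g : G, ∀ y : V₀, ∑ x : G, ∑ z : G, T z x g y = if g ∈ B.C W then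
      wg E₀ B W y * ∑ s : G, (if s ∈ B.C (W ⊔ Subgroup.zpowers y) ∧ Reg ℓ s then
          cx B (W ⊔ Subgroup.zpowers y) y χ s * Θ (B.i y) s else 0) else 0 := by
    intro g y
    by_cases hg : g ∈ B.C W
    · rw [if_pos hg, ← Equiv.sum_comp (MulAut.conj g).toEquiv, Finset.mul_sum]
      refine Finset.sum_congr rfl fun s _ => ?_
      have e1 : (MulAut.conj g).toEquiv s = g * s * g⁻¹ := rfl
      rw [e1, Finset.sum_eq_single (g * B.i y * g⁻¹)]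
      · rw [hT]
        have e2 : g⁻¹ * (g * s * g⁻¹) * g = s := by group
        rw [if_pos (⟨hg, rfl⟩ : g ∈ B.C W ∧ g * B.i y * g⁻¹ = g * B.i y * g⁻¹), e2,
          hΘ g hg (B.i y) s]
        have h3 : El ℓ (g * B.i y * g⁻¹) := by
          obtain ⟨j, hj⟩ := el_i (B := B) hF y
          exact ⟨j, by rw [conj_pow, hj, mul_one, mul_inv_cancel]⟩
        have h4 : g * s * g⁻¹ * (g * B.i y * g⁻¹) = g * B.i y * g⁻¹ * (g * s * g⁻¹) ↔
            B.i y * s = s * B.i y := by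
          have e3 : g * s * g⁻¹ * (g * B.i y * g⁻¹) = g * (s * B.i y) * g⁻¹ := by group
          have e4 : g * B.i y * g⁻¹ * (g * s * g⁻¹) = g * (B.i y * s) * g⁻¹ := by group
          rw [e3, e4]
          constructor
          · intro h
            exact (mul_left_cancel (mul_right_cancel h)).symm
          · intro h
            rw [h]
        by_cases hs : s ∈ B.C W
        · by_cases h5 : s ∈ B.C (W ⊔ Subgroup.zpowers y) ∧ Reg ℓ s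
          · rw [if_pos h5, if_pos ⟨h3, reg_conj.2 h5.2, h4.2 ((mem_C_sup W y s).1 h5.1).2⟩]
            ring
          · rw [if_neg h5, if_neg (fun h6 => h5 ⟨(mem_C_sup W y s).2 ⟨hs, h4.1 h6.2.2⟩,
              reg_conj.1 h6.2.1⟩), mul_zero]
        · rw [cx_out hχ hs, mul_zero, zero_mul, ite_self, ite_self, mul_zero]
      · intro z _ hz
        rw [hT, if_neg (fun h : g ∈ B.C W ∧ g * B.i y * g⁻¹ = z => hz h.2.symm), ite_self]
      · intro h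
        exact absurd (Finset.mem_univ _) h
    · rw [if_neg hg]
      refine Finset.sum_eq_zero fun x _ => Finset.sum_eq_zero fun z _ => ?_
      rw [hT, if_neg (fun h : g ∈ B.C W ∧ g * B.i y * g⁻¹ = z => hg h.1), ite_self]
  rw [Finset.sum_congr rfl fun g _ => Finset.sum_congr rfl fun y _ => h2 g y]
  have h3 : ∀ g : G, ∑ y : V₀, (if g ∈ B.C W then
      wg E₀ B W y * ∑ s : G, (if s ∈ B.C (W ⊔ Subgroup.zpowers y) ∧ Reg ℓ s then
          cx B (W ⊔ Subgroup.zpowers y) y χ s * Θ (B.i y) s else 0) else 0) =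
      if g ∈ B.C W then ∑ y : V₀, wg E₀ B W y * ∑ s : G,
        (if s ∈ B.C (W ⊔ Subgroup.zpowers y) ∧ Reg ℓ s then
          cx B (W ⊔ Subgroup.zpowers y) y χ s * Θ (B.i y) s else 0) else 0 := by
    intro g
    by_cases hg : g ∈ B.C W
    · rw [if_pos hg]
      exact Finset.sum_congr rfl fun y _ => if_pos hg
    · rw [if_neg hg]
      exact Finset.sum_eq_zero fun y _ => if_neg hg
  rw [Finset.sum_congr rfl fun g _ => h3 g, ← Finset.sum_filter, Finset.sum_const, nsmul_eq_mul]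
  congr 2
  rw [Nat.card_eq_fintype_card, Fintype.card_subtype]

end blk

end Pool.Agent.PP.SE.H40
end
end -- Pool.Agent.Helper40_ASE.FBR5

section -- Pool.Agent.Helper40_ASE.FBR6

/-!
# Squad ASE, row FBR, part 6: the sums `SL`

Author: helper40.
-/

open scoped BigOperators

set_option autoImplicit false
set_option linter.unusedSectionVars false

noncomputable section

namespace Pool.Agent.PP.SE.H40

open Pool.Agent.Helper51_AWC Pool.Agent.Helper79_WRA Pool.Agent.PP Pool.Agent.PP.KF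
open Pool.Agent.PP.K9 Pool.Agent.PP.K9.H97 Pool.Agent.PP.H75 Pool.Agent.PP.T3 Pool.Agent.PP.SO
open Pool.Agent.PP.SD
open Pool.Agent.PP.SO.H82 (memC conj_of_mem mem_of_conj cjW TT_fwd TT_bwd TT_C)
open Pool.Agent.PP.SO.H59 (C_mono i_mem_C)
open Pool.Agent.PP.SD.H30 (mem_C_sup bh_cjX ch_conj)

attribute [local instance] Ideal.Quotient.field

section blk

variable {V₀ G : Type} [CommGroup V₀] [Group G] {ℓ : ℕ}
  {M : Ideal (integralClosure ℤ ℂ)} [M.IsMaximal] {E₀ : Subgroup (MulAut V₀)}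
  {B : Bk (FF M) V₀ G}

theorem ch_star [Finite G] {W : Subgroup V₀} {χ : G → ℂ} (hχ : χ ∈ Ch B W) (g : G) :
    χ g⁻¹ = starRingEnd ℂ (χ g) := by
  by_cases hg : g ∈ B.C W
  · exact (H94.irr_star hχ.2.1 ⟨g, hg⟩).symm
  · rw [hχ.1 g hg, hχ.1 g⁻¹ (fun h => hg ((Subgroup.inv_mem_iff _).1 h)), map_zero]

theorem wg_star (W : Subgroup V₀) (y : V₀) : starRingEnd ℂ (wg E₀ B W y) = wg E₀ B W y := by
  unfold wg
  rw [map_div₀, map_mul, Complex.conj_natCast, Complex.conj_natCast, Complex.conj_natCast]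

/-- the condition -/
def cnd (B : Bk (FF M) V₀ G) (L : Set (V₀ × V₀ × ℤ)) (z u : G) : Prop :=
  ∀ s ∈ L, u * B.i s.2.1 * u⁻¹ = B.i s.1 * z ^ s.2.2

theorem cnd_mul {L : Set (V₀ × V₀ × ℤ)} {g : G} (hg : g ∈ B.C (p1 L)) (z v : G) :
    cnd B L (g * z * g⁻¹) (g * v) ↔ cnd B L z v := by
  unfold cnd
  refine forall₂_congr fun s hs => ?_
  have h1 : g * B.i s.1 * g⁻¹ = B.i s.1 :=
    conj_of_mem B hg (Subgroup.subset_closure ⟨s, hs, rfl⟩)
  have e1 : g * v * B.i s.2.1 * (g * v)⁻¹ = g * (v * B.i s.2.1 * v⁻¹) * g⁻¹ := by group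
  have e2 : B.i s.1 * (g * z * g⁻¹) ^ s.2.2 = g * (B.i s.1 * z ^ s.2.2) * g⁻¹ := by
    conv_lhs => rw [← h1]
    rw [conj_zpow]
    group
  rw [e1, e2]
  constructor
  · intro h
    exact mul_left_cancel (mul_right_cancel h)
  · intro h
    rw [h]

theorem cnd_TT {L : Set (V₀ × V₀ × ℤ)} {g : G} (hg : g ∈ B.C (p2 L)) (y y' : V₀) (τ : G) :
    (cnd B L (B.i y) (τ * g⁻¹) ∧ g * B.i y' * g⁻¹ = (τ * g⁻¹)⁻¹ * B.i y * (τ * g⁻¹)) ↔
      τ ∈ SO.H82.TT B L y y' := by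
  unfold cnd SO.H82.TT
  rw [Set.mem_ofPred_eq, and_comm]
  refine and_congr ?_ ?_
  · have e : (τ * g⁻¹)⁻¹ * B.i y * (τ * g⁻¹) = g * (τ⁻¹ * B.i y * τ) * g⁻¹ := by group
    rw [e]
    constructor
    · intro h
      rw [mul_left_cancel (mul_right_cancel h)]
      group
    · intro h
      rw [← h]
      group
  · refine forall₂_congr fun s hs => ?_
    have h1 : g⁻¹ * B.i s.2.1 * g = B.i s.2.1 := by
      have h2 := conj_of_mem B ((B.C (p2 L)).inv_mem hg)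
        (Subgroup.subset_closure ⟨s, hs, rfl⟩ : s.2.1 ∈ p2 L)
      rw [inv_inv] at h2
      exact h2
    have e1 : τ * g⁻¹ * B.i s.2.1 * (τ * g⁻¹)⁻¹ = τ * (g⁻¹ * B.i s.2.1 * g) * τ⁻¹ := by group
    rw [e1, h1, map_mul, map_zpow]

open Classical in
/-- the inner sum -/
def Th (B : Bk (FF M) V₀ G) [Fintype G] (L : Set (V₀ × V₀ × ℤ)) (χ' : G → ℂ) (z x : G) : ℂ :=
  ∑ u : G, if cnd B L z u then starRingEnd ℂ (χ' (u⁻¹ * (z * x) * u)) else 0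

theorem Th_conj [Fintype G] {L : Set (V₀ × V₀ × ℤ)} {χ' : G → ℂ} {g : G}
    (hg : g ∈ B.C (p1 L)) (z x : G) :
    Th B L χ' (g * z * g⁻¹) (g * x * g⁻¹) = Th B L χ' z x := by
  classical
  unfold Th
  rw [← Equiv.sum_comp (Equiv.mulLeft g)]
  refine Finset.sum_congr rfl fun v _ => ?_
  have e0 : (Equiv.mulLeft g) v = g * v := rfl
  have e1 : (g * v)⁻¹ * (g * z * g⁻¹ * (g * x * g⁻¹)) * (g * v) = v⁻¹ * (z * x) * v := by group
  rw [e0, e1]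
  by_cases h : cnd B L z v
  · rw [if_pos h, if_pos ((cnd_mul hg z v).2 h)]
  · rw [if_neg h, if_neg (fun h' => h ((cnd_mul hg z v).1 h'))]

open Classical in
/-- the inner sum at `i(y)` -/
theorem Th_eq [Fintype G] [Fintype V₀] [Fact ℓ.Prime] (psc : PscStmt) (fud : FudStmt)
    (cjd : CjdStmt) (smg : T3.SmgStmt) (hM : (ℓ : integralClosure ℤ ℂ) ∈ M) (hℓ : ℓ ≠ 2)
    (hF : Fq ℓ V₀ E₀) (hB : Sb ℓ M E₀ B) {n m : ℕ} (hPE : PE ℓ n m G)
    {L : Set (V₀ × V₀ × ℤ)} {χ' : G → ℂ} (hχ' : χ' ∈ Ch B (p2 L)) {y : V₀} {s : G}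
    (hs : B.i y * s = s * B.i y) (hr : Reg ℓ s) :
    Th B L χ' (B.i y) s = (Nat.card (B.C (p2 L)) : ℂ) * ∑ y' : V₀, ∑ τ : G,
      if τ ∈ SO.H82.TT B L y y' then wg E₀ B (p2 L) y' *
        starRingEnd ℂ (cx B (p2 L ⊔ Subgroup.zpowers y') y' χ' (τ⁻¹ * s * τ)) else 0 := by
  obtain ⟨T, hT⟩ : ∃ T : G → G → V₀ → ℂ, ∀ u g y', T u g y' =
      if g ∈ B.C (p2 L) then (if cnd B L (B.i y) u ∧ g * B.i y' * g⁻¹ = u⁻¹ * B.i y * u then
        wg E₀ B (p2 L) y' * starRingEnd ℂ (cx B (p2 L ⊔ Subgroup.zpowers y') y' χ'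
          (g⁻¹ * (u⁻¹ * s * u) * g)) else 0) else 0 :=
    ⟨_, fun _ _ _ => rfl⟩
  have h1 : ∀ u : G, (if cnd B L (B.i y) u then
      starRingEnd ℂ (χ' (u⁻¹ * (B.i y * s) * u)) else 0) = ∑ g : G, ∑ y' : V₀, T u g y' := by
    intro u
    by_cases hu : cnd B L (B.i y) u
    · have e : u⁻¹ * (B.i y * s) * u = (u⁻¹ * B.i y * u) * (u⁻¹ * s * u) := by group
      have hz : El ℓ (u⁻¹ * B.i y * u) := by
        obtain ⟨j, hj⟩ := el_i (B := B) hF y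
        refine ⟨j, ?_⟩
        have h2 := conj_pow (i := ℓ ^ j) (a := u⁻¹) (b := B.i y)
        rw [inv_inv] at h2
        rw [h2, hj]
        group
      have hx : Reg ℓ (u⁻¹ * s * u) := by
        have h2 := reg_conj (ℓ := ℓ) (g := u⁻¹) (s := s)
        rw [inv_inv] at h2
        exact h2.2 hr
      have hc : (u⁻¹ * s * u) * (u⁻¹ * B.i y * u) = (u⁻¹ * B.i y * u) * (u⁻¹ * s * u) := by
        have e1 : (u⁻¹ * s * u) * (u⁻¹ * B.i y * u) = u⁻¹ * (s * B.i y) * u := by group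
        rw [e1, ← hs]
        group
      rw [if_pos hu, e, val_exp psc fud cjd smg hM hℓ hF hB hPE hχ' hz hx hc, map_sum]
      refine Finset.sum_congr rfl fun g _ => ?_
      rw [map_sum]
      refine Finset.sum_congr rfl fun y' _ => ?_
      rw [hT]
      by_cases hg : g ∈ B.C (p2 L)
      · rw [if_pos hg]
        by_cases h2 : g * B.i y' * g⁻¹ = u⁻¹ * B.i y * u
        · rw [if_pos ⟨hg, h2⟩, if_pos ⟨hu, h2⟩, map_mul, wg_star]
        · rw [if_neg (fun h => h2 h.2), if_neg (fun h => h2 h.2), map_zero]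
      · rw [if_neg hg, if_neg (fun h => hg h.1), map_zero]
    · rw [if_neg hu]
      symm
      refine Finset.sum_eq_zero fun g _ => Finset.sum_eq_zero fun y' _ => ?_
      rw [hT, if_neg (fun h : cnd B L (B.i y) u ∧ _ => hu h.1), ite_self]
  unfold Th
  rw [Finset.sum_congr rfl fun u _ => h1 u, Finset.sum_comm]
  obtain ⟨R, hR⟩ : ∃ R : V₀ → ℂ, R = fun y' => ∑ τ : G,
      if τ ∈ SO.H82.TT B L y y' then wg E₀ B (p2 L) y' *
        starRingEnd ℂ (cx B (p2 L ⊔ Subgroup.zpowers y') y' χ' (τ⁻¹ * s * τ)) else 0 := ⟨_, rfl⟩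
  have h2 : ∀ g : G, ∑ u : G, ∑ y' : V₀, T u g y' = if g ∈ B.C (p2 L) then ∑ y', R y' else 0 := by
    intro g
    rw [Finset.sum_comm]
    by_cases hg : g ∈ B.C (p2 L)
    · rw [if_pos hg]
      refine Finset.sum_congr rfl fun y' _ => ?_
      rw [hR, ← Equiv.sum_comp (Equiv.mulRight g⁻¹)]
      refine Finset.sum_congr rfl fun τ _ => ?_
      have e0 : (Equiv.mulRight g⁻¹) τ = τ * g⁻¹ := rfl
      have e1 : g⁻¹ * ((τ * g⁻¹)⁻¹ * s * (τ * g⁻¹)) * g = τ⁻¹ * s * τ := by group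
      rw [e0, hT, if_pos hg, e1]
      by_cases h3 : τ ∈ SO.H82.TT B L y y'
      · rw [if_pos h3, if_pos ((cnd_TT hg y y' τ).2 h3)]
      · rw [if_neg h3, if_neg (fun h => h3 ((cnd_TT hg y y' τ).1 h))]
    · rw [if_neg hg]
      refine Finset.sum_eq_zero fun y' _ => Finset.sum_eq_zero fun u _ => ?_
      rw [hT, if_neg hg]
  rw [Finset.sum_congr rfl fun g _ => h2 g, ← Finset.sum_filter, Finset.sum_const, nsmul_eq_mul,
    Nat.card_eq_fintype_card, Fintype.card_subtype, hR]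

open Classical in
/-- the regular sum -/
def JJ (ℓ : ℕ) (B : Bk (FF M) V₀ G) [Fintype G] (L : Set (V₀ × V₀ × ℤ)) (χ χ' : G → ℂ)
    (y y' : V₀) (τ : G) : ℂ :=
  ∑ s : G, if s ∈ B.C (p1 L ⊔ Subgroup.zpowers y) ∧ Reg ℓ s then
    cx B (p1 L ⊔ Subgroup.zpowers y) y χ s *
      starRingEnd ℂ (cx B (p2 L ⊔ Subgroup.zpowers y') y' χ' (τ⁻¹ * s * τ)) else 0

open Classical in
/-- the sum `SL` -/
theorem SL_eq [Fintype G] [Fintype V₀] [Fact ℓ.Prime] (psc : PscStmt) (fud : FudStmt)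
    (cjd : CjdStmt) (smg : T3.SmgStmt) (hM : (ℓ : integralClosure ℤ ℂ) ∈ M) (hℓ : ℓ ≠ 2)
    (hF : Fq ℓ V₀ E₀) (hB : Sb ℓ M E₀ B) {n m : ℕ} (hPE : PE ℓ n m G)
    {L : Set (V₀ × V₀ × ℤ)} {χ χ' : G → ℂ} (hχ : χ ∈ Ch B (p1 L)) (hχ' : χ' ∈ Ch B (p2 L)) :
    SL B m L χ χ' = (Nat.card (B.C (p1 L)) : ℂ) * Nat.card (B.C (p2 L)) *
      ∑ y : V₀, wg E₀ B (p1 L) y * ∑ y' : V₀, ∑ τ : G,
        if τ ∈ SO.H82.TT B L y y' then wg E₀ B (p2 L) y' * JJ ℓ B L χ χ' y y' τ else 0 := by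
  have h0 : SL B m L χ χ' = ∑ X : G, ∑ u : G, if cnd B L (X ^ m) u then
      χ X * starRingEnd ℂ (χ' (u⁻¹ * X * u)) else 0 := by
    unfold SL
    have h1 := SO.H59.finsum_mem_ite (fun w : G × G => cnd B L (w.1 ^ m) w.2)
      (fun w => χ w.1 * χ' (w.2⁻¹ * w.1⁻¹ * w.2))
    refine h1.trans ?_
    rw [Fintype.sum_prod_type]
    refine Finset.sum_congr rfl fun X _ => Finset.sum_congr rfl fun u _ => ?_
    have e : u⁻¹ * X⁻¹ * u = (u⁻¹ * X * u)⁻¹ := by group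
    show (if cnd B L (X ^ m) u then χ X * χ' (u⁻¹ * X⁻¹ * u) else 0) = _
    rw [e, ch_star hχ']
  rw [h0, jordan hPE]
  have h1 : ∀ z x : G, (if El ℓ z ∧ Reg ℓ x ∧ x * z = z * x then
      (∑ u : G, if cnd B L ((z * x) ^ m) u then
        χ (z * x) * starRingEnd ℂ (χ' (u⁻¹ * (z * x) * u)) else 0) else 0) =
      if El ℓ z ∧ Reg ℓ x ∧ x * z = z * x then χ (z * x) * Th B L χ' z x else 0 := by
    intro z x
    by_cases h2 : El ℓ z ∧ Reg ℓ x ∧ x * z = z * x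
    · rw [if_pos h2, if_pos h2, (SD.H45.part_iff hPE h2.1).2 ⟨h2.2.2, h2.2.1⟩]
      unfold Th
      rw [Finset.mul_sum]
      refine Finset.sum_congr rfl fun u _ => ?_
      rw [mul_ite, mul_zero]
    · rw [if_neg h2, if_neg h2]
  rw [Finset.sum_congr rfl fun z _ => Finset.sum_congr rfl fun x _ => h1 z x,
    expn psc fud cjd smg hM hℓ hF hB hPE hχ _ (fun g hg z x => Th_conj hg z x), mul_assoc]
  congr 1
  rw [Finset.mul_sum]
  refine Finset.sum_congr rfl fun y _ => ?_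
  rw [mul_left_comm]
  congr 1
  have h2 : ∀ s : G, (if s ∈ B.C (p1 L ⊔ Subgroup.zpowers y) ∧ Reg ℓ s then
      cx B (p1 L ⊔ Subgroup.zpowers y) y χ s * Th B L χ' (B.i y) s else 0) =
      (Nat.card (B.C (p2 L)) : ℂ) * ∑ y' : V₀, ∑ τ : G, if τ ∈ SO.H82.TT B L y y' then
        wg E₀ B (p2 L) y' * (if s ∈ B.C (p1 L ⊔ Subgroup.zpowers y) ∧ Reg ℓ s then
    cx B (p1 L ⊔ Subgroup.zpowers y) y χ s *
      starRingEnd ℂ (cx B (p2 L ⊔ Subgroup.zpowers y') y' χ' (τ⁻¹ * s * τ)) else 0) else 0 := by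
    intro s
    by_cases h3 : s ∈ B.C (p1 L ⊔ Subgroup.zpowers y) ∧ Reg ℓ s
    · rw [if_pos h3, Th_eq psc fud cjd smg hM hℓ hF hB hPE hχ' ((mem_C_sup _ y s).1 h3.1).2 h3.2,
        mul_left_comm]
      congr 1
      rw [Finset.mul_sum]
      refine Finset.sum_congr rfl fun y' _ => ?_
      rw [Finset.mul_sum]
      refine Finset.sum_congr rfl fun τ _ => ?_
      rw [if_pos h3, mul_ite, mul_zero]
      congr 1
      ring
    · rw [if_neg h3]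
      symm
      rw [mul_eq_zero]
      right
      refine Finset.sum_eq_zero fun y' _ => Finset.sum_eq_zero fun τ _ => ?_
      rw [if_neg h3, mul_zero, ite_self]
  rw [Finset.sum_congr rfl fun s _ => h2 s, ← Finset.mul_sum]
  congr 1
  rw [Finset.sum_comm]
  refine Finset.sum_congr rfl fun y' _ => ?_
  rw [Finset.sum_comm]
  refine Finset.sum_congr rfl fun τ _ => ?_
  by_cases h3 : τ ∈ SO.H82.TT B L y y'
  · rw [if_pos h3]
    unfold JJ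
    rw [Finset.mul_sum]
    exact Finset.sum_congr rfl fun s _ => if_pos h3
  · rw [if_neg h3]
    exact Finset.sum_eq_zero fun s _ => if_neg h3

end blk

end Pool.Agent.PP.SE.H40
end
end -- Pool.Agent.Helper40_ASE.FBR6

section -- Pool.Agent.Helper40_ASE.FBR

/-!
# Squad ASE, row FBR: the sums `SL` as sums over the fibres

Author: helper40.
-/

open scoped BigOperators

set_option autoImplicit false
set_option linter.unusedSectionVars false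

noncomputable section

namespace Pool.Agent.PP.SE.H40

open Pool.Agent.Helper51_AWC Pool.Agent.Helper79_WRA Pool.Agent.PP Pool.Agent.PP.KF
open Pool.Agent.PP.K9 Pool.Agent.PP.K9.H97 Pool.Agent.PP.H75 Pool.Agent.PP.T3 Pool.Agent.PP.SO
open Pool.Agent.PP.SD
open Pool.Agent.PP.SO.H82 (memC conj_of_mem mem_of_conj cjW TT_fwd TT_bwd TT_C)
open Pool.Agent.PP.SO.H59 (C_mono i_mem_C)
open Pool.Agent.PP.SD.H30 (mem_C_sup bh_cjX ch_conj)

attribute [local instance] Ideal.Quotient.field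

section blk

variable {V₀ G : Type} [CommGroup V₀] [Group G] {ℓ : ℕ}
  {M : Ideal (integralClosure ℤ ℂ)} [M.IsMaximal] {E₀ : Subgroup (MulAut V₀)}
  {B : Bk (FF M) V₀ G}

/-- `cx` is a combination of the characters of the block -/
theorem cx_span [Finite G] [Finite V₀] {W : Subgroup V₀} {χ : G → ℂ} (hχ : χ ∈ Ch B W) (y : V₀) :
    (fun c : B.C (W ⊔ Subgroup.zpowers y) => cx B (W ⊔ Subgroup.zpowers y) y χ c) ∈
      Submodule.span ℂ (IrrE M (fun c : B.C (W ⊔ Subgroup.zpowers y) =>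
        B.b (W ⊔ Subgroup.zpowers y) c)) := by
  classical
  have := Fintype.ofFinite (B.C (W ⊔ Subgroup.zpowers y))
  have h1 : (fun c : B.C (W ⊔ Subgroup.zpowers y) => χ c) ∈
      Submodule.span ℂ (Irr (B.C (W ⊔ Subgroup.zpowers y))) := by
    apply T3.H98.span_irr
    intro x z
    exact ch_conj hχ (C_mono le_sup_left z.2) x
  obtain ⟨z, hz⟩ : ∃ z : B.C (W ⊔ Subgroup.zpowers y), (z : G) = B.i y :=
    ⟨⟨B.i y, i_mem_C y _⟩, rfl⟩
  have h2 := T3.H98.mem_span_blk (M := M) (fun c : B.C (W ⊔ Subgroup.zpowers y) =>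
    B.b (W ⊔ Subgroup.zpowers y) c) (z := z) (fun c => by
      apply Subtype.ext
      show (z : G) * c = c * z
      rw [hz]
      exact ((mem_C_sup (B := B) W y (c : G)).1 c.2).2) h1
  have h3 : (fun c : B.C (W ⊔ Subgroup.zpowers y) => cx B (W ⊔ Subgroup.zpowers y) y χ c) =
      fun c : B.C (W ⊔ Subgroup.zpowers y) => ∑ t, eh M (fun c : B.C (W ⊔ Subgroup.zpowers y) =>
        B.b (W ⊔ Subgroup.zpowers y) c) t * (fun c : B.C (W ⊔ Subgroup.zpowers y) => χ c)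
          (z * c * t) := by
    funext c
    unfold cx
    rw [H75.sum_sub (B.C (W ⊔ Subgroup.zpowers y)) _ (fun r hr => by
      rw [SO.H10L.bh_supp B _ _ hr, zero_mul]), finsum_eq_sum_of_fintype]
    refine Finset.sum_congr rfl fun t _ => ?_
    have e1 : (((z * c * t : B.C (W ⊔ Subgroup.zpowers y))) : G) = B.i y * c * t := by
      rw [Subgroup.coe_mul, Subgroup.coe_mul, hz]
    show _ = _ * χ ((z * c * t : B.C (W ⊔ Subgroup.zpowers y)) : G)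
    rw [e1]
    congr 1
    unfold bh PP.ext0
    rw [dif_pos t.2]
  rw [h3]
  exact h2

/-- different blocks -/
theorem JJ_zero [Fintype G] [Finite V₀] [Fact ℓ.Prime] (rot : K9.RotStmt)
    (hM : (ℓ : integralClosure ℤ ℂ) ∈ M) (hB : Sb ℓ M E₀ B) {L : Set (V₀ × V₀ × ℤ)}
    {χ χ' : G → ℂ} (hχ : χ ∈ Ch B (p1 L)) (hχ' : χ' ∈ Ch B (p2 L)) {y y' : V₀} {τ : G}
    (hτ : τ ∈ SO.H82.TT B L y y') (hne : H75.cj τ (B.b (p2 L ⊔ Subgroup.zpowers y')) ≠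
      B.b (p1 L ⊔ Subgroup.zpowers y)) : JJ ℓ B L χ χ' y y' τ = 0 := by
  classical
  have := Fintype.ofFinite (B.C (p1 L ⊔ Subgroup.zpowers y))
  have hC := TT_C hτ
  have hB1 : Bx (B.C (p1 L ⊔ Subgroup.zpowers y)) (B.b (p1 L ⊔ Subgroup.zpowers y)) :=
    (hB.lb _).blk
  have hB2 : Bx (B.C (p1 L ⊔ Subgroup.zpowers y))
      (H75.cj τ (B.b (p2 L ⊔ Subgroup.zpowers y'))) := T3.H62.bx_cj hC (hB.lb _).blk
  have hmul : mulF (fun t : B.C (p1 L ⊔ Subgroup.zpowers y) =>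
      B.b (p1 L ⊔ Subgroup.zpowers y) t) (fun t : B.C (p1 L ⊔ Subgroup.zpowers y) =>
        H75.cj τ (B.b (p2 L ⊔ Subgroup.zpowers y')) t) = 0 := by
    rcases hB1.dich hB2 with h3 | h3
    · exact absurd h3.symm hne
    · rw [← mulF_res (B.C (p1 L ⊔ Subgroup.zpowers y))
        (H75.cj τ (B.b (p2 L ⊔ Subgroup.zpowers y'))) hB1.supp, h3]
      rfl
  have h1 := cx_span hχ y
  have h2 : (fun c : B.C (p1 L ⊔ Subgroup.zpowers y) =>
      cx B (p2 L ⊔ Subgroup.zpowers y') y' χ' (τ⁻¹ * c * τ)) ∈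
      Submodule.span ℂ (IrrE M (fun c : B.C (p1 L ⊔ Subgroup.zpowers y) =>
        H75.cj τ (B.b (p2 L ⊔ Subgroup.zpowers y')) c)) := by
    have h3 := cx_span hχ' y'
    have h4 : ∀ f ∈ Submodule.span ℂ (IrrE M (fun c : B.C (p2 L ⊔ Subgroup.zpowers y') =>
        B.b (p2 L ⊔ Subgroup.zpowers y') c)), (fun k : B.C (p1 L ⊔ Subgroup.zpowers y) =>
          f ((cjW hC).symm k)) ∈ Submodule.span ℂ (IrrE M
            (fun k : B.C (p1 L ⊔ Subgroup.zpowers y) =>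
              (fun c : B.C (p2 L ⊔ Subgroup.zpowers y') =>
                B.b (p2 L ⊔ Subgroup.zpowers y') c) ((cjW hC).symm k))) := by
      intro f hf
      induction hf using Submodule.span_induction with
      | mem f hf => exact Submodule.subset_span (T5.H89.irrE_equiv (cjW hC)
          (hB.lb _).blk.blk.1.1 hf)
      | zero => exact Submodule.zero_mem _
      | add f g _ _ h1 h2 => exact Submodule.add_mem _ h1 h2
      | smul c f _ h1 => exact Submodule.smul_mem _ c h1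
    exact h4 _ h3
  have h5 := SD.H95.dis rot hM hB1.blk.1 (fun θ h3 h4 =>
    T5.H89.irrE_disj hB1.blk.1 hB2.blk.1 hmul h4 h3) h1 h2
  rw [← h5]
  unfold JJ
  rw [← SO.H59.finsum_mem_ite (fun s : G => s ∈ B.C (p1 L ⊔ Subgroup.zpowers y) ∧ Reg ℓ s)]
  exact T6.H32.sumC ℓ (B.C (p1 L ⊔ Subgroup.zpowers y)) (fun s =>
    cx B (p1 L ⊔ Subgroup.zpowers y) y χ s *
      starRingEnd ℂ (cx B (p2 L ⊔ Subgroup.zpowers y') y' χ' (τ⁻¹ * s * τ)))

/-- multiplication with an element of the centraliser -/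
theorem JJ_mul [Fintype G] {L : Set (V₀ × V₀ × ℤ)} {χ χ' : G → ℂ} (hχ : χ ∈ Ch B (p1 L))
    {y y' : V₀} {k : G} (hk : k ∈ B.C (p1 L ⊔ Subgroup.zpowers y)) (τ : G) :
    JJ ℓ B L χ χ' y y' (k * τ) = JJ ℓ B L χ χ' y y' τ := by
  classical
  unfold JJ
  rw [← Equiv.sum_comp (MulAut.conj k).toEquiv]
  refine Finset.sum_congr rfl fun s _ => ?_
  have e0 : (MulAut.conj k).toEquiv s = k * s * k⁻¹ := rfl
  have e1 : (k * τ)⁻¹ * (k * s * k⁻¹) * (k * τ) = τ⁻¹ * s * τ := by group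
  have h1 : k * s * k⁻¹ ∈ B.C (p1 L ⊔ Subgroup.zpowers y) ↔
      s ∈ B.C (p1 L ⊔ Subgroup.zpowers y) := by
    have h2 := conj_mem_iff (X := B.C (p1 L ⊔ Subgroup.zpowers y)) (g := k⁻¹) (x := s)
      ((B.C _).inv_mem hk)
    rw [inv_inv] at h2
    exact h2
  rw [e0, e1, cx_conj hχ hk]
  by_cases h3 : s ∈ B.C (p1 L ⊔ Subgroup.zpowers y) ∧ Reg ℓ s
  · rw [if_pos h3, if_pos ⟨h1.2 h3.1, reg_conj.2 h3.2⟩]
  · rw [if_neg h3, if_neg (fun h => h3 ⟨h1.1 h.1, reg_conj.1 h.2⟩)]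

open Classical in
/-- the sum over the `τ` -/
theorem sum_τ [Fintype G] [Fintype V₀] [Fintype (MulAut V₀)] [Fact ℓ.Prime] (fud : FudStmt)
    (cjd : CjdStmt) (rot : K9.RotStmt) (hM : (ℓ : integralClosure ℤ ℂ) ∈ M) (hℓ : ℓ ≠ 2)
    (hF : Fq ℓ V₀ E₀) (hB : Sb ℓ M E₀ B) {L : Set (V₀ × V₀ × ℤ)} {χ χ' : G → ℂ}
    (hχ : χ ∈ Ch B (p1 L)) (hχ' : χ' ∈ Ch B (p2 L)) (y : V₀) :
    (∑ y' : V₀, ∑ τ : G, if τ ∈ SO.H82.TT B L y y' then
      wg E₀ B (p2 L) y' * JJ ℓ B L χ χ' y y' τ else 0) =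
    ∑ ρ : MulAut V₀, if ρ ∈ AL E₀ L y then
      (nS E₀ (p2 L) : ℂ)⁻¹ * JJ ℓ B L χ χ' y (ρ⁻¹ y) (tt B ρ) else 0 := by
  have h1 := cos hB (Y := p1 L ⊔ Subgroup.zpowers y) (y := y)
    (Subgroup.mem_sup_right (Subgroup.mem_zpowers y))
    (Finset.univ.filter (fun ρ : MulAut V₀ => ρ ∈ AL E₀ L y))
    (fun ρ hρ => ((Finset.mem_filter.1 hρ).2).1) (fun τ hτ ρ hρ => by
      rw [Finset.mem_filter] at hρ ⊢
      exact ⟨Finset.mem_univ _, St_AL hρ.2 hτ⟩)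
    (fun τ y' => wg E₀ B (p2 L) y' * JJ ℓ B L χ χ' y y' τ)
    (Finset.univ.filter (fun p : G × V₀ => p.1 ∈ SO.H82.TT B L y p.2 ∧
      H75.cj p.1 (B.b (p2 L ⊔ Subgroup.zpowers p.2)) = B.b (p1 L ⊔ Subgroup.zpowers y)))
    (fun p => by
      rw [Finset.mem_filter]
      have h2 := TT_iff fud cjd hM hℓ hF hB (L := L) (y := y) (y' := p.2) (τ := p.1)
      constructor
      · rintro ⟨-, h3⟩
        obtain ⟨ρ, hρ, h4⟩ := h2.1 h3
        exact ⟨ρ, Finset.mem_filter.2 ⟨Finset.mem_univ _, hρ⟩, h4⟩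
      · rintro ⟨ρ, hρ, h4⟩
        exact ⟨Finset.mem_univ _, h2.2 ⟨ρ, (Finset.mem_filter.1 hρ).2, h4⟩⟩)
  have h9 := nS_ne (E₀ := E₀) (p1 L ⊔ Subgroup.zpowers y)
  have h3 : ∀ ρ ∈ Finset.univ.filter (fun ρ : MulAut V₀ => ρ ∈ AL E₀ L y),
      ∑ k : B.C (p1 L ⊔ Subgroup.zpowers y), (wg E₀ B (p2 L) (ρ⁻¹ y) *
        JJ ℓ B L χ χ' y (ρ⁻¹ y) (k * tt B ρ)) =
        (nS E₀ (p1 L ⊔ Subgroup.zpowers y) : ℂ) * ((nS E₀ (p2 L) : ℂ)⁻¹ *
          JJ ℓ B L χ χ' y (ρ⁻¹ y) (tt B ρ)) := by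
    intro ρ hρ
    have h4 : ∀ k : B.C (p1 L ⊔ Subgroup.zpowers y), wg E₀ B (p2 L) (ρ⁻¹ y) *
        JJ ℓ B L χ χ' y (ρ⁻¹ y) (k * tt B ρ) = wg E₀ B (p2 L) (ρ⁻¹ y) *
        JJ ℓ B L χ χ' y (ρ⁻¹ y) (tt B ρ) := fun k => by rw [JJ_mul hχ k.2]
    rw [Finset.sum_congr rfl fun k _ => h4 k, Finset.sum_const, nsmul_eq_mul, Finset.card_univ,
      ← Nat.card_eq_fintype_card, cards cjd hM hℓ hF hB (Finset.mem_filter.1 hρ).2]
    have h5 := card_ne (B.C (p1 L ⊔ Subgroup.zpowers y))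
    have h6 := nS_ne (E₀ := E₀) (p2 L)
    field_simp
  rw [Finset.sum_congr rfl h3, ← Finset.mul_sum] at h1
  have h7 := mul_left_cancel₀ h9 h1
  rw [Finset.sum_filter, Finset.sum_filter] at h7
  rw [h7, Fintype.sum_prod_type, Finset.sum_comm]
  refine Finset.sum_congr rfl fun τ _ => Finset.sum_congr rfl fun y' _ => ?_
  show _ = if τ ∈ SO.H82.TT B L y y' ∧ H75.cj τ (B.b (p2 L ⊔ Subgroup.zpowers y')) =
    B.b (p1 L ⊔ Subgroup.zpowers y) then wg E₀ B (p2 L) y' * JJ ℓ B L χ χ' y y' τ else 0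
  by_cases h8 : τ ∈ SO.H82.TT B L y y'
  · rw [if_pos h8]
    by_cases h10 : H75.cj τ (B.b (p2 L ⊔ Subgroup.zpowers y')) = B.b (p1 L ⊔ Subgroup.zpowers y)
    · rw [if_pos ⟨h8, h10⟩]
    · rw [if_neg (fun h => h10 h.2), JJ_zero rot hM hB hχ hχ' h8 h10, mul_zero]
  · rw [if_neg h8, if_neg (fun h => h8 h.1)]

/-- the function `cx` of the conjugate character -/
theorem cx_ac [Finite G] [Finite V₀] [Fact ℓ.Prime] (cjd : CjdStmt)
    (hM : (ℓ : integralClosure ℤ ℂ) ∈ M) (hℓ : ℓ ≠ 2) (hF : Fq ℓ V₀ E₀) (hB : Sb ℓ M E₀ B)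
    {L : Set (V₀ × V₀ × ℤ)} {χ' : G → ℂ} {y : V₀} {ρ : MulAut V₀} (hρ : ρ ∈ AL E₀ L y) (s : G) :
    cx B (p2 L ⊔ Subgroup.zpowers (ρ⁻¹ y)) (ρ⁻¹ y) χ' ((tt B ρ)⁻¹ * s * tt B ρ) =
      cx B (p1 L ⊔ Subgroup.zpowers y) y (ac B ρ χ') s := by
  unfold cx
  rw [← finsum_comp_equiv (MulAut.conj (tt B ρ)).symm.toEquiv]
  refine finsum_congr fun r => ?_
  have e1 : (MulAut.conj (tt B ρ)).symm.toEquiv r = (tt B ρ)⁻¹ * r * tt B ρ := rfl
  have h1 := (cjd ℓ M hM hℓ V₀ G E₀ hF B hB ρ hρ.1 (tt B ρ) (tt_spec hB hρ.1).1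
    (tt_spec hB hρ.1).2 (p2 L ⊔ Subgroup.zpowers (ρ⁻¹ y))).2.2.2.1 ((tt B ρ)⁻¹ * r * tt B ρ)
  have e2 : tt B ρ * ((tt B ρ)⁻¹ * r * tt B ρ) * (tt B ρ)⁻¹ = r := by group
  rw [AL_map hρ, e2] at h1
  rw [e1, ← h1, ← tt_inv hB hρ.1 y]
  unfold ac
  congr 2
  group

end blk

/-- FBR -/
theorem fbr (psc : PscStmt) (fud : FudStmt) (cjd : CjdStmt) (smg : T3.SmgStmt)
    (rot : K9.RotStmt) : FbrStmt := by
  intro ℓ _ M _ hM hℓ V₀ G _ _ _ _ E₀ hF B hB n m hPE L _ _ χ hχ χ' hχ'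
  classical
  have := Fintype.ofFinite G
  have := Fintype.ofFinite V₀
  have := Fintype.ofFinite (MulAut V₀)
  rw [SL_eq psc fud cjd smg hM hℓ hF hB hPE hχ hχ']
  congr 1
  have hQ : ∀ w : MulAut V₀ × V₀, w ∈ QL E₀ L ↔ w.1⁻¹ ∈ AL E₀ L w.2 := by
    intro w
    unfold QL AL
    rw [Set.mem_ofPred_eq, Set.mem_ofPred_eq]
    refine and_congr (Subgroup.inv_mem_iff E₀).symm (forall₂_congr fun s _ => ?_)
    constructor
    · intro h
      rw [← h, MulAut.inv_apply_self]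
    · intro h
      rw [← h, MulAut.apply_inv_self]
  have h1 := SO.H59.finsum_mem_ite (fun w : MulAut V₀ × V₀ => w ∈ QL E₀ L) (fun w =>
      (nS E₀ (p1 L ⊔ Subgroup.zpowers w.2) : ℂ) / ((nS E₀ (p1 L) : ℂ) * nS E₀ (p2 L) *
        Nat.card (B.C (p1 L ⊔ Subgroup.zpowers w.2))) *
      ∑ᶠ s ∈ {s : G | s ∈ B.C (p1 L ⊔ Subgroup.zpowers w.2) ∧ Reg ℓ s},
        cx B (p1 L ⊔ Subgroup.zpowers w.2) w.2 χ s *
          starRingEnd ℂ (cx B (p1 L ⊔ Subgroup.zpowers w.2) w.2 (ac B w.1⁻¹ χ') s))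
  refine Eq.trans ?_ h1.symm
  rw [Fintype.sum_prod_type, Finset.sum_comm]
  refine Finset.sum_congr rfl fun y _ => ?_
  rw [sum_τ fud cjd rot hM hℓ hF hB hχ hχ' y, Finset.mul_sum, ← Equiv.sum_comp (Equiv.inv _)]
  refine Finset.sum_congr rfl fun σ _ => ?_
  have e0 : (Equiv.inv (MulAut V₀)) σ = σ⁻¹ := rfl
  rw [e0]
  show wg E₀ B (p1 L) y * (if σ⁻¹ ∈ AL E₀ L y then
      (nS E₀ (p2 L) : ℂ)⁻¹ * JJ ℓ B L χ χ' y (σ⁻¹⁻¹ y) (tt B σ⁻¹) else 0) =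
    if (σ, y) ∈ QL E₀ L then (nS E₀ (p1 L ⊔ Subgroup.zpowers y) : ℂ) /
        ((nS E₀ (p1 L) : ℂ) * nS E₀ (p2 L) * Nat.card (B.C (p1 L ⊔ Subgroup.zpowers y))) *
      ∑ᶠ s ∈ {s : G | s ∈ B.C (p1 L ⊔ Subgroup.zpowers y) ∧ Reg ℓ s},
        cx B (p1 L ⊔ Subgroup.zpowers y) y χ s *
          starRingEnd ℂ (cx B (p1 L ⊔ Subgroup.zpowers y) y (ac B σ⁻¹ χ') s) else 0
  by_cases h2 : σ⁻¹ ∈ AL E₀ L y
  · rw [if_pos h2, if_pos ((hQ (σ, y)).2 h2)]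
    have h3 : JJ ℓ B L χ χ' y (σ⁻¹⁻¹ y) (tt B σ⁻¹) =
        ∑ᶠ s ∈ {s : G | s ∈ B.C (p1 L ⊔ Subgroup.zpowers y) ∧ Reg ℓ s},
          cx B (p1 L ⊔ Subgroup.zpowers y) y χ s *
            starRingEnd ℂ (cx B (p1 L ⊔ Subgroup.zpowers y) y (ac B σ⁻¹ χ') s) := by
      rw [SO.H59.finsum_mem_ite (fun s : G => s ∈ B.C (p1 L ⊔ Subgroup.zpowers y) ∧ Reg ℓ s)]
      unfold JJ
      refine Finset.sum_congr rfl fun s _ => ?_
      rw [cx_ac cjd hM hℓ hF hB h2]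
    rw [h3]
    unfold wg
    have h5 := card_ne (B.C (p1 L ⊔ Subgroup.zpowers y))
    have h6 := nS_ne (E₀ := E₀) (p2 L)
    have h7 := nS_ne (E₀ := E₀) (p1 L)
    field_simp
  · rw [if_neg h2, if_neg (fun h => h2 ((hQ (σ, y)).1 h)), mul_zero]

end Pool.Agent.PP.SE.H40
end
end -- Pool.Agent.Helper40_ASE.FBR
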