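import Pool.Agent.Helper12_AWB.B143
import Pool.Agent.Helper12_AWB.B221
import Pool.Agent.Helper12_AWB.B268

/-!
# Merged copies (generated) of the modules

* `Pool.Agent.Helper24_ASE.DCR`
* `Pool.Agent.Helper24_K9.TRN`
* `Pool.Agent.Helper2_K9.KL`
* `Pool.Agent.Helper86_K9.GRM`
* `Pool.Agent.Helper9_K9.DTL`
* `Pool.Agent.Helper43_ASE.KL`
* `Pool.Agent.Helper72_ASE.MATi`
* `Pool.Agent.Helper72_ASE.MAT`
* `Pool.Agent.Helper76_ASE.IBV`
-/

set_option autoImplicit false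

section -- Pool.Agent.Helper24_ASE.DCR

/-!
# Squad ASE, row DCR: reduction to the trivial central character
-/

open scoped BigOperators

noncomputable section

namespace Pool.Agent.PP.SE.H24

open Pool.Agent.Helper51_AWC Pool.Agent.Helper79_WRA Pool.Agent.PP Pool.Agent.PP.KF
open Pool.Agent.PP.K9 Pool.Agent.PP.K9.H97 Pool.Agent.PP.H75 Pool.Agent.PP.T3 Pool.Agent.PP.SO
open Pool.Agent.PP.SD

attribute [local instance] Ideal.Quotient.field

theorem finsum_true' {p : Prop} (h : p) (x : ℂ) : ∑ᶠ _ : p, x = x := by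
  classical
  rw [finsum_eq_if, if_pos h]

theorem finsum_false' {p : Prop} (h : ¬ p) (x : ℂ) : ∑ᶠ _ : p, x = 0 := by
  classical
  rw [finsum_eq_if, if_neg h]

section core

variable {H : Type} [Group H] [Fintype H]

/-- expansion of a class function with integral inner products -/
theorem expand (θ : H → ℂ) (hθ : ∀ g h, θ (h * g * h⁻¹) = θ g) (z : (H → ℂ) → ℤ)
    (hz : ∀ ψ ∈ Irr H, ipn θ ψ = z ψ) (g : H) :
    θ g = ∑ ψ ∈ (irr_finite' (G := H)).toFinset, (z ψ : ℂ) * ψ g := by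
  classical
  have hc : (Fintype.card H : ℂ) ≠ 0 := by exact_mod_cast Fintype.card_ne_zero
  have h1 : (θ - fun g => ∑ ψ ∈ (irr_finite' (G := H)).toFinset, (z ψ : ℂ) * ψ g) = 0 := by
    apply irr_complete'
    · intro g h
      rw [Pi.sub_apply, Pi.sub_apply, hθ]
      congr 1
      refine Finset.sum_congr rfl fun ψ hψ => ?_
      rw [Set.Finite.mem_toFinset] at hψ
      rw [irr_conj hψ]
    · intro χ hχ
      simp only [Pi.sub_apply, sub_mul, Finset.sum_sub_distrib]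
      have e1 : ∑ g, θ g * χ g⁻¹ = Fintype.card H * z χ := by
        have h2 := hz χ hχ
        rw [H11.ipn_eq, Nat.card_eq_fintype_card] at h2
        rw [← h2, ← mul_assoc, mul_inv_cancel₀ hc, one_mul]
        exact Finset.sum_congr rfl fun x _ => by rw [H94.irr_star hχ]
      have e2 : ∑ g, (∑ ψ ∈ (irr_finite' (G := H)).toFinset, (z ψ : ℂ) * ψ g) * χ g⁻¹ =
          Fintype.card H * z χ := by
        simp only [Finset.sum_mul]
        rw [Finset.sum_comm, Finset.sum_eq_single_of_mem χ]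
        · simp_rw [mul_assoc]
          rw [← Finset.mul_sum, irr_orth_self hχ]
          ring
        · rw [Set.Finite.mem_toFinset]
          exact hχ
        · intro ψ hψ hne
          rw [Set.Finite.mem_toFinset] at hψ
          simp_rw [mul_assoc]
          rw [← Finset.mul_sum, irr_orth_ne hψ hχ hne, mul_zero]
      rw [e1, e2, sub_self]
  have h2 := congrFun h1 g
  rw [Pi.sub_apply, Pi.zero_apply] at h2
  exact sub_eq_zero.1 h2

/-- the inner product with a character whose central character is different -/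
theorem ipn_zero (θ : H → ℂ) {x : H} (hx : x ∈ Subgroup.center H) (hθ : ∀ g, θ (x * g) = θ g)
    {ψ : H → ℂ} (hψ : ψ ∈ Irr H) (hne : ψ x / ψ 1 ≠ 1) : ipn θ ψ = 0 := by
  rw [H11.ipn_eq]
  have h1 : ∑ g, θ g * starRingEnd ℂ (ψ g) =
      starRingEnd ℂ (ψ x / ψ 1) * ∑ g, θ g * starRingEnd ℂ (ψ g) := by
    conv_lhs => rw [← Equiv.sum_comp (Equiv.mulLeft x)]
    rw [Finset.mul_sum]
    refine Finset.sum_congr rfl fun g _ => ?_
    rw [Equiv.coe_mulLeft, hθ, KF.H32.central_mul hψ hx g, map_mul]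
    ring
  have h2 : (1 - starRingEnd ℂ (ψ x / ψ 1)) * ∑ g, θ g * starRingEnd ℂ (ψ g) = 0 := by
    rw [sub_mul, one_mul, ← h1, sub_self]
  rcases mul_eq_zero.1 h2 with h3 | h3
  · exfalso
    apply hne
    have h4 : starRingEnd ℂ (ψ x / ψ 1) = 1 := (sub_eq_zero.1 h3).symm
    have h5 := congrArg (starRingEnd ℂ) h4
    rwa [Complex.conj_conj, map_one] at h5
  · rw [h3, mul_zero]

variable {ℓ : ℕ} [Fact ℓ.Prime] {M : Ideal (integralClosure ℤ ℂ)} [M.IsMaximal]

open Classical in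
/-- the core of DCR, in one group -/
theorem core (hM : (ℓ : integralClosure ℤ ℂ) ∈ M) (hprt : K9.PrtStmt) (hada : K9.AdaStmt)
    (hrot : K9.RotStmt) {b : H → FF M} (hb : IsIdem b) (Z : Set H)
    (hZ : ∀ x ∈ Z, x ∈ Subgroup.center H ∧ ∃ n : ℕ, x ^ ℓ ^ n = 1) {χ : H → ℂ}
    (hχ : χ ∈ IrrE M b) :
    ∃ z : (H → ℂ) → ℤ, ∀ g, Reg ℓ g →
      χ g = ∑ᶠ ψ ∈ {ψ | ψ ∈ IrrE M b ∧ ∀ x ∈ Z, ψ x / ψ 1 = 1}, (z ψ : ℂ) * ψ g := by
  obtain ⟨N, hN1, hN2⟩ := hprt ℓ H
  set θ : H → ℂ := fun g => χ (g ^ N) with hθdef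
  have hcl : ∀ g h, θ (h * g * h⁻¹) = θ g := by
    intro g h
    simp only [hθdef]
    rw [conj_pow, irr_conj hχ.1]
  have hcomm : ∀ g : H, Commute (g ^ N) ((g ^ N)⁻¹ * g) := by
    intro g
    have h1 : Commute (g ^ N) g := Commute.pow_left (Commute.refl g) N
    exact (Commute.refl (g ^ N)).inv_right.mul_right h1
  have hθZ : ∀ x ∈ Z, ∀ g, θ (x * g) = θ g := by
    intro x hx g
    obtain ⟨hxc, m, hm⟩ := hZ x hx
    obtain ⟨n, hn⟩ := (hN1 g).2
    have hxg : ∀ y : H, Commute x y := fun y => (Subgroup.mem_center_iff.1 hxc y).symm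
    have h1 : x * g = g ^ N * (x * ((g ^ N)⁻¹ * g)) := by
      rw [← mul_assoc, ← (hxg (g ^ N)).eq, mul_assoc, mul_inv_cancel_left]
    have h2 : (x * g) ^ N = g ^ N := by
      conv_lhs => rw [h1]
      refine hN2 _ _ ?_ (hN1 g).1 ⟨m + n, ?_⟩
      · exact ((hxg (g ^ N)).symm).mul_right (hcomm g)
      · rw [(hxg _).mul_pow, pow_add, pow_mul, hm, one_pow, one_mul, mul_comm (ℓ ^ m), pow_mul,
          hn, one_pow]
    simp only [hθdef]
    rw [h2]
  have hreg : ∀ g, Reg ℓ g → θ g = χ g := by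
    intro g hg
    have h1 := hN2 g 1 (Commute.one_right g) hg ⟨0, one_pow _⟩
    rw [mul_one] at h1
    simp only [hθdef]
    rw [h1]
  have hint : ∀ ψ : H → ℂ, ∃ m : ℤ, ψ ∈ Irr H → ipn θ ψ = m := by
    intro ψ
    by_cases hψ : ψ ∈ Irr H
    · obtain ⟨m, hm⟩ := hada H N χ (AddSubgroup.subset_closure hχ.1) ψ
        (AddSubgroup.subset_closure hψ)
      exact ⟨m, fun _ => hm⟩
    · exact ⟨0, fun h => absurd h hψ⟩
  choose z hz using hint
  have hexp := expand θ hcl z hz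
  set S := (irr_finite' (G := H)).toFinset with hS
  have hmS : ∀ ψ, ψ ∈ S ↔ ψ ∈ Irr H := fun ψ => Set.Finite.mem_toFinset _
  have hz0 : ∀ ψ ∈ Irr H, ¬ (∀ x ∈ Z, ψ x / ψ 1 = 1) → z ψ = 0 := by
    intro ψ hψ h
    push Not at h
    obtain ⟨x, hx, hne⟩ := h
    have h1 := ipn_zero θ (hZ x hx).1 (hθZ x hx) hψ hne
    rw [hz ψ hψ] at h1
    exact_mod_cast h1
  -- the two parts
  set E := S.filter (fun ψ => ψ ∈ IrrE M b) with hE
  set O := S.filter (fun ψ => ψ ∉ IrrE M b) with hO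
  have hsplit : ∀ g, θ g = ∑ ψ ∈ E, (z ψ : ℂ) * ψ g + ∑ ψ ∈ O, (z ψ : ℂ) * ψ g := by
    intro g
    rw [hexp g, hE, hO, Finset.sum_filter_add_sum_filter_not]
  set f₀ : H → ℂ := χ - ∑ ψ ∈ E, (z ψ : ℂ) • ψ with hf₀
  have hf₀s : f₀ ∈ Submodule.span ℂ (IrrE M b) := by
    refine Submodule.sub_mem _ (Submodule.subset_span hχ) (Submodule.sum_mem _ ?_)
    intro ψ hψ
    exact Submodule.smul_mem _ _ (Submodule.subset_span (Finset.mem_filter.1 hψ).2)
  have hf₀g : ∀ g, Reg ℓ g → f₀ g = ∑ ψ ∈ O, (z ψ : ℂ) * ψ g := by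
    intro g hg
    have h1 := hsplit g
    rw [hreg g hg] at h1
    have h2 : f₀ g = χ g - ∑ ψ ∈ E, (z ψ : ℂ) * ψ g := by
      rw [hf₀, Pi.sub_apply, Finset.sum_apply]
      rfl
    rw [h2, h1, add_sub_cancel_left]
  obtain ⟨hr1, hr2⟩ := hrot ℓ M hM H b hb
  have hF := hr1 f₀ hf₀s
  set F : H → ℂ := fun g => if Reg ℓ g then f₀ g else 0 with hFdef
  have hort : ∀ ψ ∈ Irr H, ψ ∉ IrrE M b → ∀ f ∈ Submodule.span ℂ (IrrE M b),
      ∑ s : H, (if Reg ℓ s then f s * starRingEnd ℂ (ψ s) else 0) = 0 := by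
    intro ψ hψ hψn f hf
    induction hf using Submodule.span_induction with
    | mem f hf =>
      have h1 := hr2 f hf ψ hψ hψn
      rw [finsum_eq_sum_of_fintype] at h1
      refine Eq.trans ?_ h1
      refine Finset.sum_congr rfl fun s _ => ?_
      by_cases hs : Reg ℓ s
      · rw [if_pos hs, finsum_true' hs]
      · rw [if_neg hs, finsum_false' hs]
    | zero =>
      refine Finset.sum_eq_zero fun s _ => ?_
      rw [Pi.zero_apply, zero_mul, ite_self]
    | add f f' _ _ h h' =>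
      have e : ∑ s : H, (if Reg ℓ s then (f + f') s * starRingEnd ℂ (ψ s) else 0) =
          ∑ s : H, (if Reg ℓ s then f s * starRingEnd ℂ (ψ s) else 0) +
          ∑ s : H, (if Reg ℓ s then f' s * starRingEnd ℂ (ψ s) else 0) := by
        rw [← Finset.sum_add_distrib]
        refine Finset.sum_congr rfl fun s _ => ?_
        split_ifs
        · rw [Pi.add_apply, add_mul]
        · rw [add_zero]
      rw [e, h, h', add_zero]
    | smul c f _ h =>
      have e : ∑ s : H, (if Reg ℓ s then (c • f) s * starRingEnd ℂ (ψ s) else 0) =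
          c * ∑ s : H, (if Reg ℓ s then f s * starRingEnd ℂ (ψ s) else 0) := by
        rw [Finset.mul_sum]
        refine Finset.sum_congr rfl fun s _ => ?_
        split_ifs
        · rw [Pi.smul_apply, smul_eq_mul, mul_assoc]
        · rw [mul_zero]
      rw [e, h, mul_zero]
  have hnorm : ∑ s : H, Complex.normSq (F s) = 0 := by
    have h1 : ((∑ s : H, Complex.normSq (F s) : ℝ) : ℂ) = 0 := by
      push_cast
      have h2 : ∀ s : H, ((Complex.normSq (F s) : ℝ) : ℂ) =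
          ∑ ψ ∈ O, (z ψ : ℂ) * (if Reg ℓ s then F s * starRingEnd ℂ (ψ s) else 0) := by
        intro s
        rw [← Complex.mul_conj]
        by_cases hs : Reg ℓ s
        · simp only [if_pos hs]
          have h3 : F s = ∑ ψ ∈ O, (z ψ : ℂ) * ψ s := by
            rw [hFdef]
            simp only [if_pos hs]
            exact hf₀g s hs
          conv_lhs => rw [h3]
          rw [map_sum, ← h3, Finset.mul_sum]
          refine Finset.sum_congr rfl fun ψ _ => ?_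
          rw [map_mul, map_intCast]
          ring
        · have h3 : F s = 0 := by
            rw [hFdef]
            simp only [if_neg hs]
          rw [h3]
          simp [if_neg hs]
      rw [Finset.sum_congr rfl fun s _ => h2 s, Finset.sum_comm]
      refine Finset.sum_eq_zero fun ψ hψ => ?_
      rw [← Finset.mul_sum, hort ψ ((hmS ψ).1 (Finset.mem_filter.1 hψ).1)
        (Finset.mem_filter.1 hψ).2 F hF, mul_zero]
    exact_mod_cast h1
  have hF0 : ∀ s : H, F s = 0 := by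
    intro s
    have h1 := (Finset.sum_eq_zero_iff_of_nonneg (fun s _ => Complex.normSq_nonneg (F s))).1
      hnorm s (Finset.mem_univ s)
    exact Complex.normSq_eq_zero.1 h1
  refine ⟨z, fun g hg => ?_⟩
  have h1 : f₀ g = 0 := by
    have h2 := hF0 g
    rw [hFdef] at h2
    simpa only [if_pos hg] using h2
  have h2 : f₀ g = χ g - ∑ ψ ∈ E, (z ψ : ℂ) * ψ g := by
    rw [hf₀, Pi.sub_apply, Finset.sum_apply]
    rfl
  have h3 : χ g = ∑ ψ ∈ E, (z ψ : ℂ) * ψ g := by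
    rw [h2] at h1
    exact sub_eq_zero.1 h1
  rw [h3]
  have h4 : {ψ | ψ ∈ IrrE M b ∧ ∀ x ∈ Z, ψ x / ψ 1 = 1} =
      ((E.filter (fun ψ => ∀ x ∈ Z, ψ x / ψ 1 = 1) : Finset (H → ℂ)) : Set (H → ℂ)) := by
    ext ψ
    simp only [Set.mem_setOf_eq, Finset.coe_filter, hE, Finset.mem_filter, hmS]
    constructor
    · rintro ⟨ha, hb'⟩
      exact ⟨⟨ha.1, ha⟩, hb'⟩
    · rintro ⟨⟨_, ha⟩, hb'⟩
      exact ⟨ha, hb'⟩
  rw [h4, finsum_mem_coe_finset]
  symm
  refine Finset.sum_filter_of_ne ?_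
  intro ψ hψ hne
  by_contra hcon
  apply hne
  rw [hz0 ψ ((hmS ψ).1 (Finset.mem_filter.1 hψ).1) hcon]
  simp

end core

open Classical in
/-- **DCR**. -/
theorem dcr (hprt : K9.PrtStmt) (hada : K9.AdaStmt) (hrot : K9.RotStmt) : DcrStmt := by
  intro ℓ _ M _ hM hℓ V₀ G _ _ _ _ E₀ hFq B hB W hW χ hχ
  have hF := Fintype.ofFinite (B.C W)
  have hb : IsIdem (fun t : B.C W => B.b W t) := (hB.lb W).blk.blk.1
  have hmem : ∀ v : V₀, B.i v ∈ B.C W := by
    intro v
    unfold Bk.C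
    rw [Subgroup.mem_centralizer_iff]
    rintro _ ⟨w, _, rfl⟩
    rw [← map_mul, ← map_mul, mul_comm]
  obtain ⟨z, hz⟩ := core hM hprt hada hrot hb {t : B.C W | ∃ w ∈ W, (t : G) = B.i w} (by
    rintro x ⟨w, hw, hx⟩
    refine ⟨?_, 1, ?_⟩
    · rw [Subgroup.mem_center_iff]
      intro y
      apply Subtype.ext
      change (y : G) * x = x * y
      rw [hx]
      have hy := y.2
      unfold Bk.C at hy
      rw [Subgroup.mem_centralizer_iff] at hy
      exact (hy (B.i w) ⟨w, hw, rfl⟩).symm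
    · apply Subtype.ext
      rw [pow_one]
      push_cast
      rw [hx, ← map_pow]
      have h1 : (⟨w, hw⟩ : W) ^ Nat.card W = 1 := pow_card_eq_one'
      rw [hW.1] at h1
      have h2 := congrArg (fun t : W => (t : V₀)) h1
      have h3 : w ^ ℓ = 1 := by simpa using h2
      rw [h3, map_one]) hχ.2
  refine ⟨fun ψ => z (fun t : B.C W => ψ t), fun g hg hr => ?_⟩
  have hr' : Reg ℓ (⟨g, hg⟩ : B.C W) := by
    unfold Reg at hr ⊢
    rwa [Subgroup.orderOf_mk]
  have h1 := hz ⟨g, hg⟩ hr'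
  change χ g = _ at h1
  rw [h1]
  symm
  refine finsum_mem_eq_of_bijOn (fun (ψ : G → ℂ) (t : B.C W) => ψ t) ⟨?_, ?_, ?_⟩ ?_
  · rintro ψ ⟨hψ1, hψ2⟩
    refine ⟨hψ1.2, ?_⟩
    rintro x ⟨w, hw, hx⟩
    have h3 := hψ2 w hw
    unfold nu at h3
    change ψ x / ψ ((1 : B.C W) : G) = 1
    rw [hx]
    exact h3
  · rintro ψ ⟨hψ1, _⟩ φ ⟨hφ1, _⟩ he
    funext g
    by_cases hg : g ∈ B.C W
    · exact congrFun he ⟨g, hg⟩
    · rw [hψ1.1 g hg, hφ1.1 g hg]
  · rintro ψ ⟨hψ1, hψ2⟩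
    have hr : (fun t : B.C W => (if h : (t : G) ∈ B.C W then ψ ⟨t, h⟩ else 0)) = ψ := by
      funext t
      rw [dif_pos t.2]
    refine ⟨fun g => if h : g ∈ B.C W then ψ ⟨g, h⟩ else 0, ⟨⟨?_, ?_⟩, ?_⟩, hr⟩
    · intro g hg
      change (if h : g ∈ B.C W then ψ ⟨g, h⟩ else 0) = 0
      rw [dif_neg hg]
    · change (fun t : B.C W => (if h : (t : G) ∈ B.C W then ψ ⟨t, h⟩ else 0)) ∈
        IrrE M (fun t : B.C W => B.b W t)
      rw [hr]
      exact hψ1
    · intro w hw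
      unfold nu
      have h3 := hψ2 ⟨B.i w, hmem w⟩ ⟨w, hw, rfl⟩
      change (if h : B.i w ∈ B.C W then ψ ⟨B.i w, h⟩ else 0) /
        (if h : (1 : G) ∈ B.C W then ψ ⟨1, h⟩ else 0) = 1
      rw [dif_pos (hmem w), dif_pos (B.C W).one_mem]
      exact h3
  · rintro ψ _
    rfl

end Pool.Agent.PP.SE.H24
end
end -- Pool.Agent.Helper24_ASE.DCR

section -- Pool.Agent.Helper24_K9.TRN

/-!
# Squad K9, part KL, row TRN (helper24): the blocks of the centraliser of `v` are conjugate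

Text: `AWC_KL.md`.
-/

open scoped BigOperators

set_option linter.unusedSectionVars false

noncomputable section

namespace Pool.Agent.PP.K9.H24

open Pool.Agent.Helper51_AWC Pool.Agent.Helper79_WRA Pool.Agent.PP Pool.Agent.PP.KF
open Pool.Agent.PP.K9

attribute [local instance] Ideal.Quotient.field

theorem push_equiv {F A : Type} [Field F] [Group A] [Finite A] (c : A ≃* A) (a : A → F) (y : A) :
    H75.push c.toMonoidHom a (c y) = a y := by
  classical
  unfold H75.push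
  rw [finsum_eq_single _ y]
  · rw [finsum_eq_if]
    exact if_pos rfl
  · intro x hx
    rw [finsum_eq_if, if_neg]
    intro h
    exact hx (c.injective h)

/-- KL_TRN -/
theorem trn (fmg : FmgStmt) (orb : OrbStmt) (psi : PsiStmt) : TrnStmt := by
  intro ℓ hfact M _ hM G H _ _ _ _ e he v hV π hQ γ γ' hγ hγ' heγ heγ' κ κ' hκ hκ' w hw hw1
  have hF : GoodF ℓ (FF M) := H50.fld ℓ hfact.out M hM
  obtain ⟨V, hVdef⟩ : ∃ V : Subgroup G, V = Subgroup.zpowers v := ⟨_, rfl⟩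
  rw [← hVdef] at hV
  have hCdef : Cu v = Subgroup.centralizer (V : Set G) := by
    rw [hVdef]
    exact H88.cu_cent v
  have hCN : Cu v ≤ Subgroup.normalizer (V : Set G) := by
    rw [hCdef]
    exact Subgroup.centralizer_le_normalizer _
  have hconjV : ∀ n ∈ Subgroup.normalizer (V : Set G), ∀ q, q ∈ V ↔ n * q * n⁻¹ ∈ V := by
    intro n hn q
    exact Subgroup.mem_normalizer_iff.1 hn q
  have hconjC0 : ∀ n ∈ Subgroup.normalizer (V : Set G), ∀ x ∈ Cu v, n * x * n⁻¹ ∈ Cu v := by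
    intro n hn x hx
    rw [hCdef, Subgroup.mem_centralizer_iff] at hx ⊢
    intro q hq
    have h1 : n⁻¹ * q * n ∈ V := by
      have h2 := (hconjV n⁻¹ (Subgroup.inv_mem _ hn) q).1 hq
      rwa [inv_inv] at h2
    have h2 := hx _ h1
    calc q * (n * x * n⁻¹) = n * ((n⁻¹ * q * n) * x) * n⁻¹ := by group
      _ = n * (x * (n⁻¹ * q * n)) * n⁻¹ := by rw [h2]
      _ = (n * x * n⁻¹) * q := by group
  have hconjC : ∀ n ∈ Subgroup.normalizer (V : Set G), ∀ x, x ∈ Cu v ↔ n * x * n⁻¹ ∈ Cu v := by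
    intro n hn x
    refine ⟨hconjC0 n hn x, fun h => ?_⟩
    have h1 := hconjC0 n⁻¹ (Subgroup.inv_mem _ hn) _ h
    have h2 : n⁻¹ * (n * x * n⁻¹) * n⁻¹⁻¹ = x := by group
    rwa [h2] at h1
  have hNC : Subgroup.normalizer (V : Set G) ≤ Subgroup.normalizer (Cu v : Set G) := by
    intro n hn
    rw [Subgroup.mem_normalizer_iff]
    exact hconjC n hn
  obtain ⟨_, ⟨hblkN, _⟩, _⟩ := fmg ℓ M hM G e he V hV
  have hbrs : ∀ x, x ∉ Cu v → br V e x = 0 := by
    intro x hx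
    rw [hCdef] at hx
    exact H66.br_of_not_mem hx
  have hbrC : (fun t : Cu v => br V e t) = fun t : Cu v => e t := by
    funext t
    apply H66.br_of_mem
    rw [← hCdef]
    exact t.2
  -- extension by zero
  have hext : ∀ γ : Cu v → FF M, mulF (fun t : Cu v => e t) γ = γ →
      mulF (br V e) (H75.ext0 (Cu v) γ) = H75.ext0 (Cu v) γ := by
    intro γ heγ
    have hs := H75.ext0_supp (Cu v) γ
    have hr : (fun t : Cu v => H75.ext0 (Cu v) γ t) = γ := funext (H75.ext0_apply (Cu v) γ)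
    apply H75.eq_of_res (H75.mulF_supp (Cu v) hbrs hs) hs
    rw [H75.mulF_res (Cu v) (H75.ext0 (Cu v) γ) hbrs, hbrC, hr, heγ]
  have hres : ∀ γ : Cu v → FF M, (fun t : Cu v => H75.ext0 (Cu v) γ t) = γ :=
    fun γ => funext (H75.ext0_apply (Cu v) γ)
  obtain ⟨n, hn, hnx⟩ := orb ℓ (FF M) hF G (Subgroup.normalizer (V : Set G)) (Cu v) hCN hNC
    (br V e) hbrs hblkN (H75.ext0 (Cu v) γ) (H75.ext0 (Cu v) γ') (H75.ext0_supp (Cu v) γ)
    (H75.ext0_supp (Cu v) γ') (by rw [hres]; exact hγ) (by rw [hres]; exact hγ')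
    (hext γ heγ) (hext γ' heγ')
  have hc1 : ∀ c ∈ Cu v, n * c * n⁻¹ ∈ Cu v := fun c hc => (hconjC n hn c).1 hc
  have hc2 : ∀ c ∈ Cu v, n⁻¹ * c * n ∈ Cu v := by
    intro c hc
    have h1 := (hconjC n⁻¹ (Subgroup.inv_mem _ hn) c).1 hc
    rwa [inv_inv] at h1
  obtain ⟨c, hc⟩ : ∃ c : Cu v ≃* Cu v, ∀ t : Cu v, ((c t : Cu v) : G) = n * t * n⁻¹ :=
    ⟨H90.cj (Cu v) n hc1 hc2, fun _ => rfl⟩
  have hγc : ∀ t : Cu v, γ' t = γ (c t) := by
    intro t
    have h1 := hnx (t : G)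
    rw [H75.ext0_apply (Cu v) γ' t, ← hc t, H75.ext0_apply (Cu v) γ (c t)] at h1
    exact h1
  have hpush : H75.push c.toMonoidHom γ' = γ := by
    funext y
    obtain ⟨t, rfl⟩ := c.surjective y
    rw [push_equiv, hγc]
  have hmemV : ∀ z, z ∈ Subgroup.zpowers v ↔ n * z * n⁻¹ ∈ Subgroup.zpowers v := by
    intro z
    rw [← hVdef]
    exact hconjV n hn z
  obtain ⟨τ, hτ⟩ := H90.exists_desc π hQ.sur c (by
    intro t
    rw [hQ.ker, hQ.ker, hc]
    exact hmemV t)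
  -- the characters
  have hcs : Function.Surjective c.toMonoidHom := c.surjective
  have hτs : Function.Surjective τ.toMonoidHom := τ.surjective
  have h1 : κ ∈ IrrE M (H75.push π γ) := by rw [hκ]; exact rfl
  rw [(psi M (Cu v) H π hQ.sur γ hγ.1.1).1] at h1
  have h2 : (fun a => κ (π a)) ∈ IrrE M (H75.push c.toMonoidHom γ') := by
    rw [hpush]
    exact h1.2
  rw [(psi M (Cu v) (Cu v) c.toMonoidHom hcs γ' hγ'.1.1).1] at h2
  have h3 : (fun h => κ (τ h)) ∈ Irr H :=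
    (psi M H H τ.toMonoidHom hτs (fun _ => 0) (fun _ _ => rfl)).2 κ h1.1
  have h4 : (fun h => κ (τ h)) ∈ IrrE M (H75.push π γ') := by
    rw [(psi M (Cu v) H π hQ.sur γ' hγ'.1.1).1]
    refine ⟨h3, ?_⟩
    have h5 : (fun a : Cu v => κ (τ (π a))) = fun a => κ (π (c a)) := by
      funext a
      rw [hτ]
    show (fun a : Cu v => κ (τ (π a))) ∈ IrrE M γ'
    rw [h5]
    exact h2.2
  have h5 : (fun h => κ (τ h)) = κ' := by
    rw [hκ'] at h4
    exact h4
  refine ⟨n * w * n⁻¹, (hmemV w).1 hw, ?_, fun χ hχ => ?_⟩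
  · intro h
    apply hw1
    have h6 : w = n⁻¹ * (n * w * n⁻¹) * n := by group
    rw [h6, h]
    group
  · unfold Av
    rw [← finsum_comp_equiv c.toEquiv (f := fun s : Cu v => ∑ᶠ (_ : Reg ℓ s),
      χ (n * w * n⁻¹ * s) * starRingEnd ℂ (κ (π s)))]
    refine congrArg _ (finsum_congr fun s => ?_)
    have hreg : Reg ℓ (c.toEquiv s) ↔ Reg ℓ s := by
      unfold Reg
      rw [show (c.toEquiv s) = c s from rfl, MulEquiv.orderOf_eq]
    have hval : χ (n * w * n⁻¹ * ((c.toEquiv s : Cu v) : G)) = χ (w * s) := by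
      have e1 : n * w * n⁻¹ * ((c.toEquiv s : Cu v) : G) = (n * (w * s)) * n⁻¹ := by
        rw [show ((c.toEquiv s : Cu v) : G) = n * s * n⁻¹ from hc s]
        group
      rw [e1, irr_mul_comm hχ]
      have e2 : n⁻¹ * (n * (w * (s : G))) = w * s := by group
      rw [e2]
    have hp : κ (π (c.toEquiv s)) = κ' (π s) := by
      rw [← h5]
      show κ (π (c s)) = κ (τ (π s))
      rw [hτ]
    rw [hval, hp]
    exact finsum_congr_Prop (propext hreg.symm) (fun _ => rfl)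

end Pool.Agent.PP.K9.H24
end
end -- Pool.Agent.Helper24_K9.TRN

section -- Pool.Agent.Helper2_K9.KL

/-!
# Squad K9, module KL_KL: a block with a defect group of order `ℓ ^ 2` has at most `ℓ ^ 2`
characters
-/

open scoped BigOperators

noncomputable section

namespace Pool.Agent.PP.K9.H02

open Pool.Agent.Helper51_AWC Pool.Agent.Helper79_WRA Pool.Agent.PP Pool.Agent.PP.KF H11

attribute [local instance] Ideal.Quotient.field

/-- counting: the contribution of one character -/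
theorem count_ge {n : ℕ} {m : ℕ} (hm : 0 < m) (L : ℝ) (hL : 0 ≤ L) (N : Fin n → ℝ)
    (R : Fin n → Fin n → ℝ) (hN0 : ∀ i, 0 ≤ N i) (hR0 : ∀ i k, 0 ≤ R i k) (J : Fin n → Prop)
    (hN : ∀ i, J i → L ≤ N i) (hR : ∀ i k, ¬ J i → J k → L ≤ R i k ∧ L ≤ R k i)
    (hJ : ∃ k, J k) : 2 * n * L ≤ 2 * ∑ i, N i + m * ∑ i, ∑ k, R i k := by
  classical
  obtain ⟨k₀, hk₀⟩ := hJ
  set A := Finset.univ.filter J with hA
  set B := Finset.univ.filter (fun i => ¬ J i) with hB
  have hcard : (A.card : ℝ) + B.card = n := by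
    have h := Finset.card_filter_add_card_filter_not (s := (Finset.univ : Finset (Fin n))) J
    rw [Finset.card_univ, Fintype.card_fin] at h
    exact_mod_cast h
  have h1 : (A.card : ℝ) * L ≤ ∑ i, N i := by
    have h2 : ∑ i ∈ A, L ≤ ∑ i ∈ A, N i := Finset.sum_le_sum fun i hi =>
      hN i (Finset.mem_filter.1 hi).2
    rw [Finset.sum_const, nsmul_eq_mul] at h2
    exact h2.trans (Finset.sum_le_sum_of_subset_of_nonneg (Finset.subset_univ _)
      fun i _ _ => hN0 i)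
  have h3 : (B.card : ℝ) * L ≤ ∑ i ∈ B, ∑ k, R i k := by
    have h2 : ∑ i ∈ B, L ≤ ∑ i ∈ B, ∑ k, R i k := Finset.sum_le_sum fun i hi =>
      ((hR i k₀ (Finset.mem_filter.1 hi).2 hk₀).1).trans
        (Finset.single_le_sum (fun k _ => hR0 i k) (Finset.mem_univ k₀))
    rwa [Finset.sum_const, nsmul_eq_mul] at h2
  have h4 : (B.card : ℝ) * L ≤ ∑ i ∈ A, ∑ k, R i k := by
    have h2 : ∑ k ∈ B, L ≤ ∑ k ∈ B, R k₀ k := Finset.sum_le_sum fun k hk =>
      (hR k k₀ (Finset.mem_filter.1 hk).2 hk₀).2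
    rw [Finset.sum_const, nsmul_eq_mul] at h2
    have h5 : ∑ k ∈ B, R k₀ k ≤ ∑ k, R k₀ k :=
      Finset.sum_le_sum_of_subset_of_nonneg (Finset.subset_univ _) fun k _ _ => hR0 k₀ k
    have h6 : ∑ k, R k₀ k ≤ ∑ i ∈ A, ∑ k, R i k :=
      Finset.single_le_sum (f := fun i => ∑ k, R i k)
        (fun i _ => Finset.sum_nonneg fun k _ => hR0 i k)
        (Finset.mem_filter.2 ⟨Finset.mem_univ k₀, hk₀⟩)
    exact h2.trans (h5.trans h6)
  have h7 : ∑ i, ∑ k, R i k = ∑ i ∈ A, ∑ k, R i k + ∑ i ∈ B, ∑ k, R i k :=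
    (Finset.sum_filter_add_sum_filter_not Finset.univ J _).symm
  have h8 : 0 ≤ ∑ i, ∑ k, R i k :=
    Finset.sum_nonneg fun i _ => Finset.sum_nonneg fun k _ => hR0 i k
  have h9 : ∑ i, ∑ k, R i k ≤ m * ∑ i, ∑ k, R i k := by
    have hm1 : (1 : ℝ) ≤ m := by exact_mod_cast hm
    calc ∑ i, ∑ k, R i k = 1 * ∑ i, ∑ k, R i k := (one_mul _).symm
      _ ≤ _ := mul_le_mul_of_nonneg_right hm1 h8
  calc 2 * n * L = 2 * (A.card * L) + (B.card * L + B.card * L) := by
        rw [← hcard]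
        ring
    _ ≤ 2 * ∑ i, N i + (∑ i ∈ A, ∑ k, R i k + ∑ i ∈ B, ∑ k, R i k) := by
        linarith
    _ ≤ _ := by
        rw [← h7]
        linarith

theorem Av_sum {G H : Type} [Group G] [Group H] [Finite G] {C : Subgroup G} (ℓ : ℕ) (π : C →* H)
    (w : G) (χ : G → ℂ) {ι : Type} (s : Finset ι) (p : ι → H → ℂ) :
    Av ℓ π w (∑ i ∈ s, p i) χ = ∑ i ∈ s, Av ℓ π w (p i) χ := by
  classical
  induction s using Finset.induction_on with
  | empty =>
    rw [Finset.sum_empty, Finset.sum_empty]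
    have h := Av_smul ℓ π w 0 (0 : H → ℂ) χ
    rw [zero_smul, map_zero, zero_mul] at h
    exact h
  | insert a s ha ih => rw [Finset.sum_insert ha, Finset.sum_insert ha, Av_add, ih]

theorem kl (dtl : DtlStmt) (pug : PugStmt) (int : IntStmt) (sec : SecStmt) (azr : AzrStmt)
    (nz : NzStmt) (prg : PrgStmt) (gal : GalStmt) : KlStmt := by
  intro ℓ hℓ M _ hM G _ _ e he V hV hV9
  classical
  have hp : ℓ.Prime := hℓ.out
  have hF : GoodF ℓ (FF M) := H50.fld ℓ hp M hM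
  -- `V` is abelian
  have hab : ∀ a ∈ V, ∀ b ∈ V, a * b = b * a := by
    intro a ha b hb
    have h1 := IsPGroup.commutative_of_card_eq_prime_sq (G := V) (p := ℓ) hV9 ⟨a, ha⟩ ⟨b, hb⟩
    exact congrArg Subtype.val h1
  -- an element of order `ℓ`
  obtain ⟨u, huV, hu⟩ : ∃ u ∈ V, orderOf u = ℓ := by
    obtain ⟨x, hx⟩ := exists_prime_orderOf_dvd_card' (G := V) ℓ (by
      rw [hV9]
      exact dvd_pow_self ℓ two_ne_zero)
    exact ⟨x, x.2, by rw [Subgroup.orderOf_coe, hx]⟩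
  have hπ : Qt ℓ u (pq u) := qt hu
  have hfin : Finite (Hq u) := inferInstance
  have huu : orderOf (uc u) = ℓ := by
    rw [← hu]
    exact Subgroup.orderOf_mk u _
  have hVC : V ≤ Cu u := fun x hx => Subgroup.mem_centralizer_singleton_iff.2 (hab x hx u huV)
  have heC : IsIdem (fun t : Cu u => e t) := idem_cu hF he.1 hu
  -- the block of the centraliser
  obtain ⟨g, hg, hge⟩ := hV.gd
  have hgC : g ∈ Cu u := Subgroup.mem_centralizer_singleton_iff.2
    (Subgroup.mem_centralizer_iff.1 hg u huV).symm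
  obtain ⟨b, hb, hbe, hbg⟩ := H69.exists_blk heC (g := ⟨g, hgC⟩) hge
  have hbV : Gd b (V.subgroupOf (Cu u)) := by
    refine ⟨⟨g, hgC⟩, ?_, hbg⟩
    rw [Subgroup.mem_centralizer_iff]
    intro x hx
    apply Subtype.ext
    exact Subgroup.mem_centralizer_iff.1 hg x.1 (Subgroup.mem_subgroupOf.1 hx)
  -- the quotient
  have hker : (pq u).ker = Subgroup.zpowers (uc u) := QuotientGroup.ker_mk' _
  have hkc : Nat.card (pq u).ker = ℓ := by rw [hker, Nat.card_zpowers, huu]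
  have hkp : IsPGroup ℓ (pq u).ker := IsPGroup.of_card (n := 1) (by rw [hkc, pow_one])
  have hb' : IsBlk (H75.push (pq u) b) :=
    CD2.H24.psb ℓ (FF M) hF (Cu u) (Hq u) (pq u) hπ.sur (uc u) huu (uc_center u) hker b hb
  have hkV : (pq u).ker ≤ V.subgroupOf (Cu u) := by
    rw [hker, Subgroup.zpowers_le]
    exact huV
  have hVp : IsPGroup ℓ (V.subgroupOf (Cu u)) :=
    hV.pg.of_equiv (Subgroup.subgroupOfEquivOfLe hVC).symm
  have hVc : Nat.card (V.subgroupOf (Cu u)) = ℓ ^ 2 := by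
    rw [← hV9]
    exact Nat.card_congr (Subgroup.subgroupOfEquivOfLe hVC).toEquiv
  have hcard : ∀ Q : Subgroup (Hq u), Nat.card (Q.comap (pq u)) = ℓ * Nat.card Q := by
    intro Q
    have := H75.card_comap (p := pq u) hπ.sur Q
    rw [this, hkc]
  have hcm : ((V.subgroupOf (Cu u)).map (pq u)).comap (pq u) = V.subgroupOf (Cu u) :=
    Subgroup.comap_map_eq_self hkV
  have hV' : Nat.card ((V.subgroupOf (Cu u)).map (pq u)) = ℓ := by
    have h1 := hcard ((V.subgroupOf (Cu u)).map (pq u))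
    rw [hcm, hVc, pow_two] at h1
    exact (Nat.eq_of_mul_eq_mul_left hp.pos h1).symm
  have hTp : Tp ℓ (H75.push (pq u) b) ((V.subgroupOf (Cu u)).map (pq u)) := by
    refine ⟨hVp.map _, (pug ℓ (FF M) hF (Cu u) (Hq u) (pq u) hπ.sur hkp b hb.1 _ hkV hVp).1 hbV, ?_⟩
    intro Q hQ hQb
    have h1 : Q = (Q.comap (pq u)).map (pq u) :=
      (Subgroup.map_comap_eq_self_of_surjective hπ.sur Q).symm
    have h2 : IsPGroup ℓ (Q.comap (pq u)) := by
      obtain ⟨n, hn⟩ := (IsPGroup.iff_card).1 hQ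
      exact IsPGroup.of_card (n := n + 1) (by rw [hcard, hn, pow_succ, mul_comm])
    have h3 : (pq u).ker ≤ Q.comap (pq u) := by
      intro x hx
      rw [Subgroup.mem_comap, MonoidHom.mem_ker.1 hx]
      exact Q.one_mem
    rw [h1] at hQb
    have h4 := (pug ℓ (FF M) hF (Cu u) (Hq u) (pq u) hπ.sur hkp b hb.1 _ h3 h2).2 hQb
    have h5 := gd_sub (gd_factor hF heC.1 hb.1.1 hbe h2 h4)
    have h6 := hV.mx _ (h2.map _) h5
    have h7 : Nat.card ((Q.comap (pq u)).map (Cu u).subtype) = Nat.card (Q.comap (pq u)) :=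
      (Nat.card_congr ((Q.comap (pq u)).equivMapOfInjective _
        (Subgroup.subtype_injective _)).toEquiv).symm
    rw [h7, hcard, hV9, pow_two] at h6
    rw [hV']
    exact Nat.le_of_mul_le_mul_left h6 hp.pos
  -- the characters of `e`
  have hfi : (Irr G).Finite := by
    have := Fintype.ofFinite G
    exact irr_finite'
  have := (hfi.subset (irrE_sub M e)).fintype
  have hirr := irrE_sub M e
  obtain ⟨ζ, hζ⟩ : ∃ ζ : ℂ, IsPrimitiveRoot ζ ℓ :=
    ⟨_, Complex.isPrimitiveRoot_exp ℓ hp.ne_zero⟩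
  have huz : ∀ j : ℕ, u ^ j ∈ Subgroup.zpowers u := fun j => Subgroup.npow_mem_zpowers u j
  have hu1 : ∀ j ∈ Finset.Ico 1 ℓ, u ^ j ≠ 1 := by
    intro j hj h
    rw [Finset.mem_Ico] at hj
    have h1 : orderOf u ∣ j := orderOf_dvd_of_pow_eq_one h
    rw [hu] at h1
    have h2 := Nat.le_of_dvd (by omega) h1
    omega
  have h1m : 1 ∈ Finset.Ico 1 ℓ := by
    rw [Finset.mem_Ico]
    exact ⟨le_rfl, hp.one_lt⟩
  have hout : ∀ p ∈ ZE M (H75.push (pq u) b), Rc ℓ p → ∀ j ∈ Finset.Ico 1 ℓ, ∀ χ ∈ Irr G,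
      χ ∉ IrrE M e → Av ℓ (pq u) (u ^ j) p χ = 0 := by
    intro p hp hr j hj χ hχ hχ'
    exact azr ℓ M hM G (Hq u) u (pq u) hπ e he.1 b hb.1 hbe p (ze_span M _ hp) hr _ (huz j)
      (hu1 j hj) χ hχ hχ'
  have hne : ∀ θ : IrrE M e, Av ℓ (pq u) (u ^ 1) (pr M (H75.push (pq u) b)) θ.1 ≠ 0 := by
    intro θ
    rw [(prg ℓ M hM).2 G (Hq u) u (pq u) hπ b hb.1 _ (huz 1) θ.1 (hirr θ.2)]
    exact nz ℓ M hM G e he V hV hab u huV b hb hbe hbV _ (huz 1) θ.1 θ.2
  -- the sums of the norms of the conjugates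
  set NN : (Hq u → ℂ) → IrrE M e → ℝ := fun p θ =>
    ∑ j ∈ Finset.Ico 1 ℓ, Complex.normSq (Av ℓ (pq u) (u ^ j) p θ.1) with hNN
  have hN0 : ∀ p θ, 0 ≤ NN p θ := fun p θ =>
    Finset.sum_nonneg fun j _ => Complex.normSq_nonneg _
  have hN1 : ∀ p ∈ ZE M (H75.push (pq u) b), Rc ℓ p → ∀ θ : IrrE M e,
      Av ℓ (pq u) (u ^ 1) p θ.1 ≠ 0 → ((ℓ : ℝ) - 1) ≤ NN p θ := by
    intro p hp hr θ h0
    obtain ⟨a, ha⟩ := int ℓ G (Hq u) u (pq u) hπ p (ze_zi M _ hp) hr θ.1 (hirr θ.2) ζ hζ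
    have h2 := gal ℓ ζ hζ a (by
      intro h3
      apply h0
      rw [ha 1, ← h3]
      exact Finset.sum_congr rfl fun i _ => by rw [mul_one])
    refine h2.trans (le_of_eq ?_)
    exact Finset.sum_congr rfl fun j _ => by rw [ha j]
  have hsum : ∀ p ∈ ZE M (H75.push (pq u) b), Rc ℓ p →
      ∑ θ : IrrE M e, NN p θ = ((ℓ : ℝ) - 1) * (ℓ * (ipn p p).re) := by
    intro p hp' hr
    have h1 : ∀ j ∈ Finset.Ico 1 ℓ,
        ∑ θ : IrrE M e, Complex.normSq (Av ℓ (pq u) (u ^ j) p θ.1) = ℓ * (ipn p p).re := by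
      intro j hj
      have h2 := (sec ℓ G (Hq u) u (pq u) hπ p p hr hr _ (huz j) (hu1 j hj)).1
      rw [sum_irr hirr _ (fun χ hχ hχ' => by rw [hout p hp' hr j hj χ hχ hχ', zero_mul])] at h2
      have h3 : ((∑ θ : IrrE M e, Complex.normSq (Av ℓ (pq u) (u ^ j) p θ.1) : ℝ) : ℂ) =
          ℓ * ipn p p := by
        rw [← h2, Complex.ofReal_sum]
        exact Finset.sum_congr rfl fun θ _ => (Complex.mul_conj _).symm
      have h4 := congrArg Complex.re h3
      rw [Complex.ofReal_re, ← Complex.ofReal_natCast, Complex.re_ofReal_mul] at h4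
      exact h4
    rw [hNN]
    change ∑ θ : IrrE M e, ∑ j ∈ Finset.Ico 1 ℓ, _ = _
    rw [Finset.sum_comm, Finset.sum_congr rfl h1, Finset.sum_const, Nat.card_Ico, nsmul_eq_mul,
      Nat.cast_sub hp.one_lt.le, Nat.cast_one]
  have hk : (IrrE M e).ncard = Fintype.card (IrrE M e) := by
    rw [← Nat.card_coe_set_eq, Nat.card_eq_fintype_card]
  rw [hk]
  obtain ⟨n, m, c, w, f, h, hn, hm, hc, hw, hf, hh, hrel, hgram, d, hd⟩ :=
    dtl ℓ M hM (Hq u) (H75.push (pq u) b) hb' _ hTp hV'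
  have hL : (0 : ℝ) < (ℓ : ℝ) - 1 := by
    have h1 : (1 : ℝ) < ℓ := by exact_mod_cast hp.one_lt
    linarith
  -- the contribution of one character
  have hone : ∀ θ : IrrE M e, 2 * n * ((ℓ : ℝ) - 1) ≤
      2 * ∑ i, NN (f i) θ + m * ∑ i, ∑ k, NN (h i k) θ := by
    intro θ
    refine count_ge hm _ hL.le _ _ (fun i => hN0 _ _) (fun i k => hN0 _ _)
      (fun i => Av ℓ (pq u) (u ^ 1) (f i) θ.1 ≠ 0) (fun i hi => hN1 _ (hf i).1 (hf i).2 θ hi)
      ?_ ?_
    · intro i k hi hk'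
      rw [not_not] at hi
      have key : ∀ a a' : Fin n, (c : ℂ) * Av ℓ (pq u) (u ^ 1) (h a a') θ.1 =
          w a' * Av ℓ (pq u) (u ^ 1) (f a) θ.1 - w a * Av ℓ (pq u) (u ^ 1) (f a') θ.1 := by
        intro a a'
        have h1 := congrArg (fun p => Av ℓ (pq u) (u ^ 1) p θ.1) (hrel a a')
        change Av ℓ (pq u) (u ^ 1) _ θ.1 = Av ℓ (pq u) (u ^ 1) _ θ.1 at h1
        rw [Av_smul, Av_sub, Av_smul, Av_smul, map_intCast, map_intCast, map_intCast] at h1
        exact h1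
      constructor
      · refine hN1 _ (hh i k).1 (hh i k).2 θ ?_
        intro h0
        have h1 := key i k
        rw [h0, hi, mul_zero, mul_zero, zero_sub, eq_comm, neg_eq_zero, mul_eq_zero] at h1
        rcases h1 with h1 | h1
        · exact hw i (by exact_mod_cast h1)
        · exact hk' h1
      · refine hN1 _ (hh k i).1 (hh k i).2 θ ?_
        intro h0
        have h1 := key k i
        rw [h0, hi, mul_zero, mul_zero, sub_zero, eq_comm, mul_eq_zero] at h1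
        rcases h1 with h1 | h1
        · exact hw i (by exact_mod_cast h1)
        · exact hk' h1
    · by_contra hcon
      push Not at hcon
      apply hne θ
      rw [hd, Av_sum]
      refine Finset.sum_eq_zero fun i _ => ?_
      rw [Av_smul, hcon i, mul_zero]
  have htot : ∑ θ : IrrE M e, (2 * ∑ i, NN (f i) θ + m * ∑ i, ∑ k, NN (h i k) θ) =
      ((ℓ : ℝ) - 1) * (ℓ * (2 * n * ℓ)) := by
    have h1 : ((2 : ℝ) * ∑ i, (ipn (f i) (f i)).re + m * ∑ i, ∑ k, (ipn (h i k) (h i k)).re) =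
        2 * n * ℓ := by
      have h2 := congrArg Complex.re hgram
      rw [Complex.add_re, show (2 : ℂ) = ((2 : ℝ) : ℂ) by norm_num, Complex.re_ofReal_mul,
        Complex.re_sum, ← Complex.ofReal_natCast m, Complex.re_ofReal_mul, Complex.re_sum,
        ← Complex.ofReal_natCast n, ← Complex.ofReal_natCast ℓ, ← Complex.ofReal_mul,
        ← Complex.ofReal_mul, Complex.ofReal_re] at h2
      rw [← h2]
      congr 2
      exact Finset.sum_congr rfl fun i _ => (Complex.re_sum _ _).symm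
    rw [Finset.sum_add_distrib, ← Finset.mul_sum, ← Finset.mul_sum, Finset.sum_comm,
      Finset.sum_congr rfl fun i _ => hsum (f i) (hf i).1 (hf i).2, Finset.sum_comm]
    have h3 : ∀ i : Fin n, ∑ θ : IrrE M e, ∑ k, NN (h i k) θ =
        ∑ k, ((ℓ : ℝ) - 1) * (ℓ * (ipn (h i k) (h i k)).re) := by
      intro i
      rw [Finset.sum_comm]
      exact Finset.sum_congr rfl fun k _ => hsum (h i k) (hh i k).1 (hh i k).2
    rw [Finset.sum_congr rfl fun i _ => h3 i, ← h1]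
    simp only [← Finset.mul_sum]
    ring
  have hfinal : (Fintype.card (IrrE M e) : ℝ) * (2 * n * ((ℓ : ℝ) - 1)) ≤
      ((ℓ : ℝ) - 1) * (ℓ * (2 * n * ℓ)) := by
    rw [← htot, ← Finset.card_univ, ← nsmul_eq_mul, ← Finset.sum_const]
    exact Finset.sum_le_sum fun θ _ => hone θ
  have hn' : (0 : ℝ) < n := by exact_mod_cast hn
  have h5 : (Fintype.card (IrrE M e) : ℝ) ≤ (ℓ : ℝ) ^ 2 := by
    have h6 : 0 < 2 * n * ((ℓ : ℝ) - 1) := by positivity
    refine le_of_mul_le_mul_right (hfinal.trans (le_of_eq ?_)) h6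
    ring
  exact_mod_cast h5

end Pool.Agent.PP.K9.H02
end
end -- Pool.Agent.Helper2_K9.KL

section -- Pool.Agent.Helper86_K9.GRM

/-!
# Squad K9, part KL, row GRM: the vectors `g_i`, `h_ij`
-/

open scoped BigOperators

set_option linter.unusedSectionVars false

noncomputable section

namespace Pool.Agent.PP.K9.H86M

open Pool.Agent.PP.K9

section vec

variable {ι : Type} [Fintype ι] [DecidableEq ι] {n m : ℕ} (p : Fin n → ι) (r : Fin m → ι)

/-- the sum over `ι` is the sum over the `p k` and the `r j` -/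
theorem split (hp : Function.Injective p) (hr : Function.Injective r) (hpr : ∀ k j, p k ≠ r j)
    (hs : ∀ x, (∃ k, p k = x) ∨ ∃ j, r j = x) {R : Type} [AddCommMonoid R] (f : ι → R) :
    ∑ x, f x = ∑ k, f (p k) + ∑ j, f (r j) := by
  have hb : Function.Bijective (Sum.elim p r) := by
    constructor
    · rintro (k | j) (k' | j') h
      · rw [Sum.elim_inl, Sum.elim_inl] at h
        rw [hp h]
      · exact absurd h (hpr k j')
      · exact absurd h.symm (hpr k' j)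
      · rw [Sum.elim_inr, Sum.elim_inr] at h
        rw [hr h]
    · intro x
      rcases hs x with ⟨k, hk⟩ | ⟨j, hj⟩
      · exact ⟨Sum.inl k, hk⟩
      · exact ⟨Sum.inr j, hj⟩
  rw [← Equiv.sum_comp (Equiv.ofBijective _ hb), Fintype.sum_sum_type]
  rfl

/-- the sum of the signed unit vectors -/
def FF' (σ : Fin m → ℤ) (x : ι) : ℤ := ∑ j, if x = r j then σ j else 0

/-- the vectors `g` -/
def gg (σ : Fin m → ℤ) (c : ℤ) (w : Fin n → ℤ) (k : Fin n) (x : ι) : ℤ :=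
  c * (if x = p k then 1 else 0) - w k * FF' r σ x

/-- the vectors `h` -/
def hh (w : Fin n → ℤ) (k l : Fin n) (x : ι) : ℤ :=
  w l * (if x = p k then 1 else 0) - w k * (if x = p l then 1 else 0)

variable {p r}

theorem F_r (hr : Function.Injective r) (σ : Fin m → ℤ) (j : Fin m) : FF' r σ (r j) = σ j := by
  unfold FF'
  rw [Finset.sum_eq_single j]
  · rw [if_pos rfl]
  · intro i _ hi
    rw [if_neg]
    intro h
    exact hi (hr h).symm
  · intro h
    exact absurd (Finset.mem_univ _) h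

theorem F_p (hpr : ∀ k j, p k ≠ r j) (σ : Fin m → ℤ) (k : Fin n) : FF' r σ (p k) = 0 := by
  unfold FF'
  exact Finset.sum_eq_zero fun j _ => if_neg (hpr k j)

theorem g_p (hp : Function.Injective p) (hpr : ∀ k j, p k ≠ r j) (σ : Fin m → ℤ) (c : ℤ)
    (w : Fin n → ℤ) (k l : Fin n) : gg p r σ c w k (p l) = if l = k then c else 0 := by
  unfold gg
  rw [F_p hpr, mul_zero, sub_zero]
  by_cases h : l = k
  · rw [if_pos h, if_pos (by rw [h]), mul_one]
  · rw [if_neg h, if_neg (fun h' => h (hp h')), mul_zero]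

theorem g_r (hr : Function.Injective r) (hpr : ∀ k j, p k ≠ r j) (σ : Fin m → ℤ) (c : ℤ)
    (w : Fin n → ℤ) (k : Fin n) (j : Fin m) : gg p r σ c w k (r j) = -(w k * σ j) := by
  unfold gg
  rw [F_r hr, if_neg (Ne.symm (hpr k j)), mul_zero, zero_sub]

theorem h_p (hp : Function.Injective p) (w : Fin n → ℤ) (k l q : Fin n) :
    hh p w k l (p q) = (if q = k then w l else 0) - (if q = l then w k else 0) := by
  unfold hh
  congr 1
  · by_cases h : q = k
    · rw [if_pos h, if_pos (by rw [h]), mul_one]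
    · rw [if_neg h, if_neg (fun h' => h (hp h')), mul_zero]
  · by_cases h : q = l
    · rw [if_pos h, if_pos (by rw [h]), mul_one]
    · rw [if_neg h, if_neg (fun h' => h (hp h')), mul_zero]

theorem h_r (hpr : ∀ k j, p k ≠ r j) (w : Fin n → ℤ) (k l : Fin n) (j : Fin m) :
    hh p w k l (r j) = 0 := by
  unfold hh
  rw [if_neg (Ne.symm (hpr k j)), if_neg (Ne.symm (hpr l j)), mul_zero, mul_zero, sub_zero]

end vec

theorem grm (gra : GraStmt) (grb : GrbStmt) : GrmStmt := by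
  intro ℓ hℓ ι _ ζ hζ a deg δ hdeg hδ h1 h2
  classical
  obtain ⟨m, e, b, cl, hm, hme, hab, hgram, hbne, hbdeg⟩ := gra ℓ ι ζ hζ a deg δ hδ h1 h2
  obtain ⟨r, σ, t, W, hr, hσ, hbW, hWr, hc⟩ := grb m e hm ι b hgram
  obtain ⟨n, φ⟩ : ∃ n : ℕ, Nonempty (Fin n ≃ {x : ι // ∀ j, x ≠ r j}) :=
    ⟨_, ⟨(Fintype.equivFin _).symm⟩⟩
  obtain ⟨φ⟩ := φ
  obtain ⟨p, hpdef⟩ : ∃ p : Fin n → ι, p = fun k => ((φ k : {x : ι // ∀ j, x ≠ r j}) : ι) :=
    ⟨_, rfl⟩
  have hp : Function.Injective p := by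
    rw [hpdef]
    intro k l h
    exact φ.injective (Subtype.ext h)
  have hpr : ∀ k j, p k ≠ r j := by
    rw [hpdef]
    exact fun k j => (φ k).2 j
  have hs : ∀ x, (∃ k, p k = x) ∨ ∃ j, r j = x := by
    intro x
    by_cases h : ∀ j, x ≠ r j
    · left
      refine ⟨φ.symm ⟨x, h⟩, ?_⟩
      rw [hpdef]
      simp
    · right
      push Not at h
      obtain ⟨j, hj⟩ := h
      exact ⟨j, hj.symm⟩
  have sp : ∀ {R : Type} [AddCommMonoid R] (f : ι → R),
      ∑ x, f x = ∑ k, f (p k) + ∑ j, f (r j) := fun f => split p r hp hr hpr hs f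
  obtain ⟨c, hcdef⟩ : ∃ c : ℤ, c = (m : ℤ) * t + 1 := ⟨_, rfl⟩
  rw [← hcdef] at hc
  obtain ⟨w, hwdef⟩ : ∃ w : Fin n → ℤ, w = fun k => W (p k) := ⟨_, rfl⟩
  have hbp : ∀ j k, b j (p k) = w k := by
    intro j k
    rw [hbW, if_neg (hpr k j), add_zero, hwdef]
  have hbr : ∀ j i, b j (r i) = t * σ i + if i = j then σ j else 0 := by
    intro j i
    rw [hbW, hWr]
    congr 1
    by_cases h : i = j
    · rw [if_pos h, if_pos (by rw [h])]
    · rw [if_neg h, if_neg (fun h' => h (hr h'))]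
  have hσs : ∑ j, σ j * σ j = (m : ℤ) := by
    rw [Finset.sum_congr rfl fun j _ => hσ j]
    simp
  have hσj : ∀ j, ∑ i, σ i * (if i = j then σ j else 0) = 1 := by
    intro j
    rw [Finset.sum_eq_single j]
    · rw [if_pos rfl, hσ]
    · intro i _ hi
      rw [if_neg hi, mul_zero]
    · intro h
      exact absurd (Finset.mem_univ _) h
  -- orthogonality to the `b j`
  have hgb : ∀ k j, ∑ x, gg p r σ c w k x * b j x = 0 := by
    intro k j
    rw [sp]
    have e1 : ∑ l, gg p r σ c w k (p l) * b j (p l) = c * w k := by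
      rw [Finset.sum_eq_single k]
      · rw [g_p hp hpr, if_pos rfl, hbp]
      · intro l _ hl
        rw [g_p hp hpr, if_neg hl, zero_mul]
      · intro h
        exact absurd (Finset.mem_univ _) h
    have e2 : ∑ i, gg p r σ c w k (r i) * b j (r i) = -(w k * c) := by
      have e3 : ∀ i, gg p r σ c w k (r i) * b j (r i) =
          -(w k) * (t * (σ i * σ i) + σ i * (if i = j then σ j else 0)) := by
        intro i
        rw [g_r hr hpr, hbr]
        ring
      rw [Finset.sum_congr rfl fun i _ => e3 i, ← Finset.mul_sum, Finset.sum_add_distrib,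
        ← Finset.mul_sum, hσs, hσj, hcdef]
      ring
    rw [e1, e2]
    ring
  have hhb : ∀ k l j, ∑ x, hh p w k l x * b j x = 0 := by
    intro k l j
    rw [sp]
    have e1 : ∑ q, hh p w k l (p q) * b j (p q) = w l * w k - w k * w l := by
      have e3 : ∀ q, hh p w k l (p q) * b j (p q) =
          (if q = k then w l * w k else 0) - (if q = l then w k * w l else 0) := by
        intro q
        rw [h_p hp, hbp, sub_mul]
        congr 1
        · by_cases h : q = k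
          · rw [if_pos h, if_pos h, h]
          · rw [if_neg h, if_neg h, zero_mul]
        · by_cases h : q = l
          · rw [if_pos h, if_pos h, h]
          · rw [if_neg h, if_neg h, zero_mul]
      rw [Finset.sum_congr rfl fun q _ => e3 q, Finset.sum_sub_distrib, Finset.sum_ite_eq',
        Finset.sum_ite_eq', if_pos (Finset.mem_univ _), if_pos (Finset.mem_univ _)]
    have e2 : ∑ i, hh p w k l (r i) * b j (r i) = 0 :=
      Finset.sum_eq_zero fun i _ => by rw [h_r hpr, zero_mul]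
    rw [e1, e2]
    ring
  -- orthogonality to the `δ`
  have hort : ∀ v : ι → ℤ, (∀ j, ∑ x, v x * b j x = 0) → ∀ j ∈ Finset.Ico 1 ℓ,
      ∑ x, (v x : ℂ) * δ j x = 0 := by
    intro v hv j hj
    have hℓ1 : 1 ≤ ℓ := hℓ.out.one_lt.le
    have hζ0 : ∑ s ∈ Finset.range ℓ, ζ ^ (s * j) = 0 := by
      have h3 : ∀ s, ζ ^ (s * j) = (ζ ^ j) ^ s := fun s => by rw [mul_comm, pow_mul]
      rw [Finset.sum_congr rfl fun s _ => h3 s]
      have h4 := geom_sum_mul (ζ ^ j) ℓ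
      rw [← pow_mul, mul_comm j ℓ, pow_mul, hζ.pow_eq_one, one_pow, sub_self] at h4
      rcases mul_eq_zero.1 h4 with h5 | h5
      · exact h5
      · exfalso
        have h6 := (hζ.pow_eq_one_iff_dvd j).1 (sub_eq_zero.1 h5)
        rw [Finset.mem_Ico] at hj
        exact absurd (Nat.le_of_dvd hj.1 h6) (not_le.2 hj.2)
    have hδ' : ∀ x, δ j x = ∑ s ∈ Finset.Ico 1 ℓ, (b (cl s) x : ℂ) * ζ ^ (s * j) := by
      intro x
      rw [hδ]
      have h3 : ∑ s ∈ Finset.range ℓ, (a x s : ℂ) * ζ ^ (s * j) =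
          ∑ s ∈ Finset.range ℓ, ((a x s : ℂ) - (a x 0 : ℂ)) * ζ ^ (s * j) := by
        simp_rw [sub_mul]
        rw [Finset.sum_sub_distrib, ← Finset.mul_sum, hζ0, mul_zero, sub_zero]
      rw [h3, Finset.range_eq_Ico, Finset.sum_eq_sum_Ico_succ_bot hℓ1, sub_self, zero_mul,
        zero_add, zero_add]
      refine Finset.sum_congr rfl fun s hs' => ?_
      rw [← hab s hs' x]
      push_cast
      rfl
    calc ∑ x, (v x : ℂ) * δ j x
        = ∑ x, ∑ s ∈ Finset.Ico 1 ℓ, ζ ^ (s * j) * ((v x : ℂ) * (b (cl s) x : ℂ)) := by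
          refine Finset.sum_congr rfl fun x _ => ?_
          rw [hδ', Finset.mul_sum]
          exact Finset.sum_congr rfl fun s _ => by ring
      _ = ∑ s ∈ Finset.Ico 1 ℓ, ζ ^ (s * j) * ∑ x, ((v x : ℂ) * (b (cl s) x : ℂ)) := by
          rw [Finset.sum_comm]
          exact Finset.sum_congr rfl fun s _ => by rw [Finset.mul_sum]
      _ = 0 := by
          refine Finset.sum_eq_zero fun s _ => ?_
          have h3 := hv (cl s)
          have h4 : ∑ x, ((v x : ℂ) * (b (cl s) x : ℂ)) = 0 := by exact_mod_cast h3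
          rw [h4, mul_zero]
  -- the degrees
  have hdegsum : ∀ j, ∑ k, w k * (deg (p k) : ℤ) + t * ∑ i, σ i * (deg (r i) : ℤ) +
      σ j * (deg (r j) : ℤ) = 0 := by
    intro j
    have h3 := hbdeg j
    rw [sp] at h3
    have e1 : ∀ k, b j (p k) * (deg (p k) : ℤ) = w k * (deg (p k) : ℤ) := fun k => by rw [hbp]
    have e2 : ∀ i, b j (r i) * (deg (r i) : ℤ) = t * (σ i * (deg (r i) : ℤ)) +
        (if i = j then σ j * (deg (r j) : ℤ) else 0) := by
      intro i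
      rw [hbr]
      by_cases h : i = j
      · rw [if_pos h, if_pos h, h]
        ring
      · rw [if_neg h, if_neg h]
        ring
    rw [Finset.sum_congr rfl fun k _ => e1 k, Finset.sum_congr rfl fun i _ => e2 i,
      Finset.sum_add_distrib, ← Finset.mul_sum, Finset.sum_ite_eq', if_pos (Finset.mem_univ _)]
      at h3
    linarith
  obtain ⟨j0⟩ : Nonempty (Fin m) := ⟨⟨0, hm⟩⟩
  obtain ⟨y, hy⟩ : ∃ y : ℤ, y = σ j0 * (deg (r j0) : ℤ) := ⟨_, rfl⟩
  have hyj : ∀ j, σ j * (deg (r j) : ℤ) = y := by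
    intro j
    have h3 := hdegsum j
    have h4 := hdegsum j0
    rw [hy]
    linarith
  have hwy : ∑ k, w k * (deg (p k) : ℤ) = -(c * y) := by
    have h3 := hdegsum j0
    rw [Finset.sum_congr rfl fun i _ => hyj i, Finset.sum_const, Finset.card_univ,
      Fintype.card_fin, nsmul_eq_mul, hyj] at h3
    rw [hcdef]
    linarith
  have hdr : ∀ j, (deg (r j) : ℤ) = σ j * y := by
    intro j
    rw [← hyj j, ← mul_assoc, hσ, one_mul]
  have hn : 0 < n := by
    by_contra h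
    have h0 : n = 0 := by omega
    subst h0
    rw [Finset.univ_eq_empty, Finset.sum_empty] at hwy
    have h3 : c * y = 0 := by linarith
    rcases mul_eq_zero.1 h3 with h4 | h4
    · exact hc h4
    · have h5 := hdr j0
      rw [h4, mul_zero] at h5
      exact hdeg (r j0) (by exact_mod_cast h5)
  have hwne : ∀ k, w k ≠ 0 := by
    intro k
    obtain ⟨j, hj⟩ := hbne (p k)
    rwa [hbp] at hj
  -- the norms
  obtain ⟨N, hN⟩ : ∃ N : ℤ, N = ∑ k, w k * w k := ⟨_, rfl⟩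
  have hnorm : c * c + m * N = ℓ := by
    have h3 := hgram j0 j0
    rw [if_pos rfl, sp] at h3
    have e1 : ∀ k, b j0 (p k) * b j0 (p k) = w k * w k := fun k => by rw [hbp]
    have e2 : ∀ i, b j0 (r i) * b j0 (r i) = t * t * (σ i * σ i) +
        (if i = j0 then 2 * t * (σ j0 * σ j0) + σ j0 * σ j0 else 0) := by
      intro i
      rw [hbr]
      by_cases h : i = j0
      · rw [if_pos h, if_pos h, h]
        ring
      · rw [if_neg h, if_neg h]
        ring
    rw [Finset.sum_congr rfl fun k _ => e1 k, Finset.sum_congr rfl fun i _ => e2 i,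
      Finset.sum_add_distrib, ← Finset.mul_sum, Finset.sum_ite_eq', if_pos (Finset.mem_univ _),
      ← hN, hσs, hσ] at h3
    have h4 : (m : ℤ) * e = ℓ - 1 := by
      have h5 : ((m * e : ℕ) : ℤ) = ((ℓ - 1 : ℕ) : ℤ) := by rw [hme]
      rw [Nat.cast_sub hℓ.out.one_lt.le] at h5
      push_cast at h5
      exact h5
    have h5 : N = e - m * (t * t) - 2 * t := by linarith
    rw [hcdef, h5]
    linear_combination h4
  have hg2 : ∀ k, ∑ x, gg p r σ c w k x * gg p r σ c w k x = c * c + m * (w k * w k) := by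
    intro k
    rw [sp]
    have e1 : ∑ l, gg p r σ c w k (p l) * gg p r σ c w k (p l) = c * c := by
      rw [Finset.sum_eq_single k]
      · rw [g_p hp hpr, if_pos rfl]
      · intro l _ hl
        rw [g_p hp hpr, if_neg hl, zero_mul]
      · intro h
        exact absurd (Finset.mem_univ _) h
    have e2 : ∑ i, gg p r σ c w k (r i) * gg p r σ c w k (r i) = m * (w k * w k) := by
      have e3 : ∀ i, gg p r σ c w k (r i) * gg p r σ c w k (r i) =
          (w k * w k) * (σ i * σ i) := by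
        intro i
        rw [g_r hr hpr]
        ring
      rw [Finset.sum_congr rfl fun i _ => e3 i, ← Finset.mul_sum, hσs]
      ring
    rw [e1, e2]
  have hh2 : ∀ k l, ∑ x, hh p w k l x * hh p w k l x =
      w l * w l + w k * w k - (if k = l then 2 * (w k * w k) else 0) := by
    intro k l
    rw [sp]
    have e1 : ∑ q, hh p w k l (p q) * hh p w k l (p q) =
        w l * w l + w k * w k - (if k = l then 2 * (w k * w k) else 0) := by
      have e3 : ∀ q, hh p w k l (p q) * hh p w k l (p q) =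
          (if q = k then w l * w l else 0) + (if q = l then w k * w k else 0) -
            (if q = k then (if k = l then 2 * (w k * w k) else 0) else 0) := by
        intro q
        rw [h_p hp]
        by_cases h : q = k
        · by_cases h' : k = l
          · have h'' : q = l := h.trans h'
            rw [if_pos h, if_pos h'', if_pos h, if_pos h'', if_pos h, if_pos h', ← h']
            ring
          · have h'' : ¬ q = l := fun h3 => h' (h.symm.trans h3)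
            rw [if_pos h, if_neg h'', if_pos h, if_neg h'', if_pos h, if_neg h']
            ring
        · rw [if_neg h, if_neg h, if_neg h]
          by_cases h' : q = l
          · rw [if_pos h', if_pos h']
            ring
          · rw [if_neg h', if_neg h']
            ring
      rw [Finset.sum_congr rfl fun q _ => e3 q, Finset.sum_sub_distrib, Finset.sum_add_distrib,
        Finset.sum_ite_eq', Finset.sum_ite_eq', Finset.sum_ite_eq',
        if_pos (Finset.mem_univ _), if_pos (Finset.mem_univ _), if_pos (Finset.mem_univ _)]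
    have e2 : ∑ i, hh p w k l (r i) * hh p w k l (r i) = 0 :=
      Finset.sum_eq_zero fun i _ => by rw [h_r hpr, zero_mul]
    rw [e1, e2, add_zero]
  refine ⟨n, m, c, w, gg p r σ c w, hh p w, hn, hm, hc, hwne, ?_, ?_, ?_, ?_⟩
  · intro k l x
    unfold hh gg
    ring
  · intro j hj
    exact ⟨fun k => hort _ (hgb k) j hj, fun k l => hort _ (hhb k l) j hj⟩
  · rw [Finset.sum_congr rfl fun k _ => hg2 k]
    have e1 : ∀ k, ∑ l, ∑ x, hh p w k l x * hh p w k l x =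
        N + n * (w k * w k) - 2 * (w k * w k) := by
      intro k
      rw [Finset.sum_congr rfl fun l _ => hh2 k l, Finset.sum_sub_distrib,
        Finset.sum_add_distrib, ← hN, Finset.sum_const, Finset.card_univ, Fintype.card_fin,
        nsmul_eq_mul, Finset.sum_ite_eq, if_pos (Finset.mem_univ _)]
    have e2 : ∀ q : ℤ, ∑ k, q * (w k * w k) = q * N := fun q => by rw [← Finset.mul_sum, ← hN]
    rw [Finset.sum_congr rfl fun k _ => e1 k, Finset.sum_sub_distrib, Finset.sum_add_distrib,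
      Finset.sum_add_distrib, e2, e2, e2,
      Finset.sum_const, Finset.sum_const, Finset.card_univ, Fintype.card_fin, nsmul_eq_mul,
      nsmul_eq_mul]
    linear_combination 2 * (n : ℤ) * hnorm
  · refine ⟨fun k => (deg (p k) : ℂ) / c, fun x => ?_⟩
    have hcC : (c : ℂ) ≠ 0 := by exact_mod_cast hc
    rcases hs x with ⟨l, rfl⟩ | ⟨j, rfl⟩
    · rw [Finset.sum_eq_single l]
      · rw [g_p hp hpr, if_pos rfl]
        field_simp
      · intro k _ hk
        rw [g_p hp hpr, if_neg (Ne.symm hk), Int.cast_zero, mul_zero]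
      · intro h
        exact absurd (Finset.mem_univ _) h
    · have e1 : ∀ k, (deg (p k) : ℂ) / c * ((gg p r σ c w k (r j) : ℤ) : ℂ) =
          -(σ j : ℂ) / c * ((w k * (deg (p k) : ℤ) : ℤ) : ℂ) := by
        intro k
        rw [g_r hr hpr]
        push_cast
        ring
      rw [Finset.sum_congr rfl fun k _ => e1 k, ← Finset.mul_sum, ← Int.cast_sum, hwy]
      have e2 : (deg (r j) : ℂ) = (σ j : ℂ) * y := by exact_mod_cast hdr j
      rw [e2]
      push_cast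
      field_simp

end Pool.Agent.PP.K9.H86M
end
end -- Pool.Agent.Helper86_K9.GRM

section -- Pool.Agent.Helper9_K9.DTL

/-!
# Squad K9, part KL, module KL_DTL (helper9): blocks with defect groups of order `ℓ`

Adapted from helper11's DT3.
-/

set_option autoImplicit false

open scoped BigOperators

noncomputable section

namespace Pool.Agent.PP.K9.H9

open Pool.Agent.Helper51_AWC Pool.Agent.Helper79_WRA Pool.Agent.PP Pool.Agent.PP.KF
open Pool.Agent.PP.K9.H11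

attribute [local instance] Ideal.Quotient.field

/-- `Rc` and automorphisms -/
theorem rc_comp' {ℓ : ℕ} {H : Type} [Group H] {κ : H → ℂ} (h : Rc ℓ κ) (τ : H ≃* H) :
    Rc ℓ (fun x => κ (τ x)) where
  cl x y := by
    rw [map_mul, map_mul, map_inv, h.cl]
  sg x hx := by
    apply h.sg
    intro h1
    apply hx
    unfold Reg at h1 ⊢
    rwa [MulEquiv.orderOf_eq] at h1

/-- the elements different from one of a cyclic group of order `ℓ` -/
theorem pow_of_ne' {G : Type} [Group G] [Finite G] {v w : G} {ℓ : ℕ} (hv : orderOf v = ℓ)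
    (hw : w ∈ Subgroup.zpowers v) (hw1 : w ≠ 1) : ∃ j ∈ Finset.Ico 1 ℓ, w = v ^ j := by
  classical
  rw [mem_zpowers_iff_mem_range_orderOf, Finset.mem_image] at hw
  obtain ⟨j, hj, rfl⟩ := hw
  rw [Finset.mem_range, hv] at hj
  refine ⟨j, Finset.mem_Ico.2 ⟨?_, hj⟩, rfl⟩
  rcases Nat.eq_zero_or_pos j with h | h
  · rw [h, pow_zero] at hw1
    exact absurd rfl hw1
  · exact h

theorem pow_ne' {G : Type} [Group G] {v : G} {ℓ : ℕ} (hv : orderOf v = ℓ) {j : ℕ}
    (hj : j ∈ Finset.Ico 1 ℓ) : v ^ j ≠ 1 := by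
  rw [Finset.mem_Ico] at hj
  exact pow_ne_one_of_lt_orderOf (by omega) (by omega)

theorem dtl (kap : KapStmt) (val : ValStmt) (grm : GrmStmt) (sec : SecStmt) (cnj : CnjStmt)
    (int : IntStmt) (azr : AzrStmt) (nz : NzStmt) (prg : PrgStmt) (trn : TrnStmt) : DtlStmt := by
  intro ℓ _ M _ hM G _ _ e he V hV hVl
  classical
  have hF : GoodF ℓ (FF M) := H50.fld ℓ Fact.out M hM
  -- a generator of `V`
  obtain ⟨v, hv, rfl⟩ : ∃ v : G, orderOf v = ℓ ∧ Subgroup.zpowers v = V := by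
    obtain ⟨x, hx⟩ := exists_prime_orderOf_dvd_card' (G := V) ℓ (by rw [hVl])
    refine ⟨x, by rw [Subgroup.orderOf_coe, hx], ?_⟩
    apply Subgroup.eq_of_le_of_card_ge
    · rw [Subgroup.zpowers_le]
      exact x.2
    · rw [hVl, Nat.card_zpowers, Subgroup.orderOf_coe, hx]
  have hπ : Qt ℓ v (pq v) := qt hv
  have hfin : Finite (Hq v) := inferInstance
  have hc' : Cu v ≤ Subgroup.centralizer (Subgroup.zpowers v : Set G) := by
    intro x hx
    rw [Subgroup.mem_centralizer_iff]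
    rintro _ ⟨k, rfl⟩
    have : Commute x v := Subgroup.mem_centralizer_singleton_iff.1 hx
    exact (this.zpow_right k).eq.symm
  have hab : ∀ a ∈ Subgroup.zpowers v, ∀ b ∈ Subgroup.zpowers v, a * b = b * a := by
    rintro _ ⟨i, rfl⟩ _ ⟨j, rfl⟩
    exact ((Commute.refl v).zpow_zpow i j).eq
  have heC : IsIdem (fun t : Cu v => e t) := idem_cu hF he.1 hv
  -- a block of the centraliser
  obtain ⟨g, hg, hge⟩ := hV.gd
  have hgC : g ∈ Cu v := Subgroup.mem_centralizer_singleton_iff.2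
    (Subgroup.mem_centralizer_iff.1 hg v (Subgroup.mem_zpowers v)).symm
  obtain ⟨γ, hγ, hγe, -⟩ := H69.exists_blk heC (g := ⟨g, hgC⟩) hge
  obtain ⟨κ, hk, hr⟩ := kap ℓ M hM G (Hq v) e he v hV (pq v) hπ γ hγ hγe
  have hki : κ ∈ Irr (Hq v) := by
    have h2 : κ ∈ IrrE M (H75.push (pq v) γ) := by rw [hk]; rfl
    exact h2.1
  have hfi : (Irr G).Finite := by
    have := Fintype.ofFinite G
    exact irr_finite'
  have := (hfi.subset (irrE_sub M e)).fintype
  have hirr := irrE_sub M e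
  -- a primitive root of unity
  obtain ⟨ζ, hζ⟩ : ∃ ζ : ℂ, IsPrimitiveRoot ζ ℓ :=
    ⟨_, Complex.isPrimitiveRoot_exp ℓ (Fact.out : ℓ.Prime).ne_zero⟩
  -- degrees
  have hdeg : ∀ θ : IrrE M e, ∃ d : ℕ, 0 < d ∧ θ.1 1 = d := fun θ => irr_one (hirr θ.2)
  choose deg hd0 hd using hdeg
  have hpw : ∀ j ∈ Finset.Ico 1 ℓ, v ^ j ≠ 1 := fun j hj => pow_ne' hv hj
  have hpz : ∀ j : ℕ, v ^ j ∈ Subgroup.zpowers v := fun j => Subgroup.npow_mem_zpowers v j
  -- the values outside the block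
  have hout : ∀ w ∈ Subgroup.zpowers v, w ≠ 1 →
      ∀ χ ∈ Irr G, χ ∉ IrrE M e → Av ℓ (pq v) w κ χ = 0 := by
    intro w hw hw1 χ hχ hχ'
    exact azr ℓ M hM G (Hq v) v (pq v) hπ e he.1 γ hγ.1 hγe κ
      (Submodule.subset_span (by rw [hk]; rfl)) hr w hw hw1 χ hχ hχ'
  -- integers
  have hint : ∀ θ : IrrE M e, ∃ m : ℕ → ℤ, ∀ j : ℕ,
      Av ℓ (pq v) (v ^ j) κ θ.1 = ∑ i ∈ Finset.range ℓ, (m i : ℂ) * ζ ^ (i * j) := fun θ =>
    int ℓ G (Hq v) v (pq v) hπ κ (AddSubgroup.subset_closure hki) hr θ.1 (hirr θ.2) ζ hζ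
  choose a ha using hint
  have hmain := grm ℓ (IrrE M e) ζ hζ a deg (fun j θ => Av ℓ (pq v) (v ^ j) κ θ.1)
    (fun θ => (hd0 θ).ne') (fun j θ => ha θ j) ?_ ?_
  rotate_left
  · intro j hj
    have hsec := sec ℓ G (Hq v) v (pq v) hπ κ κ hr hr _ (hpz j) (hpw j hj)
    refine ⟨fun θ => ?_, ?_, ?_⟩
    · intro h0
      have h1 := (prg ℓ M hM).2 G (Hq v) v (pq v) hπ γ hγ.1 _ (hpz j) θ.1 (hirr θ.2)
      rw [pr_single hk, Av_smul, h0, mul_zero] at h1
      refine nz ℓ M hM G e he _ hV hab v (Subgroup.mem_zpowers v) γ hγ hγe ?_ _ (hpz j)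
        θ.1 θ.2 h1.symm
      obtain ⟨c, hc⟩ : ∃ c, γ c ≠ 0 := by
        by_contra hcon
        push Not at hcon
        exact hγ.2.1 (funext hcon)
      refine ⟨c, ?_, hc⟩
      rw [Subgroup.mem_centralizer_iff]
      intro x hx
      apply Subtype.ext
      exact Subgroup.mem_centralizer_iff.1 (hc' c.2) x.1 (Subgroup.mem_subgroupOf.1 hx)
    · have h1 := hsec.1
      rw [ipn_self hki, mul_one, sum_irr hirr _ (fun χ hχ hχ' => by
        rw [hout _ (hpz j) (hpw j hj) χ hχ hχ', zero_mul])] at h1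
      exact h1
    · have h1 := hsec.2.1
      rw [sum_irr hirr _ (fun χ hχ hχ' => by
        rw [hout _ (hpz j) (hpw j hj) χ hχ hχ', zero_mul])] at h1
      rw [← h1]
      exact Finset.sum_congr rfl fun θ _ => by rw [hd θ]
  · intro j hj j' hj'
    by_cases hcj : ∃ t : G, v ^ j' = t * v ^ j * t⁻¹
    · obtain ⟨t, ht⟩ := hcj
      obtain ⟨τ, hτ⟩ := cnj ℓ G (Hq v) v (pq v) hπ _ (hpz j) (hpw j hj) _ (hpz j') t ht
      have h3 : ∀ θ : IrrE M e, Av ℓ (pq v) (v ^ j') κ θ.1 =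
          Av ℓ (pq v) (v ^ j) (fun h => κ (τ h)) θ.1 := fun θ => hτ κ θ.1 (hirr θ.2)
      by_cases hne : κ = fun h => κ (τ h)
      · left
        intro θ
        rw [h3, ← hne]
      · right
        change ∑ θ : IrrE M e, Av ℓ (pq v) (v ^ j) κ θ.1 *
          starRingEnd ℂ (Av ℓ (pq v) (v ^ j') κ θ.1) = 0
        simp only [h3]
        have h1 := (sec ℓ G (Hq v) v (pq v) hπ κ _ hr (rc_comp' hr τ) _ (hpz j) (hpw j hj)).1
        rw [ipn_ne (irr_comp hki τ) hki (Ne.symm hne), mul_zero,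
          sum_irr hirr _ (fun χ hχ hχ' => by
            rw [hout _ (hpz j) (hpw j hj) χ hχ hχ', zero_mul])] at h1
        exact h1
    · right
      have h1 := (sec ℓ G (Hq v) v (pq v) hπ κ κ hr hr _ (hpz j) (hpw j hj)).2.2 _ (hpz j')
        (hpw j' hj') hcj
      rw [sum_irr hirr _ (fun χ hχ hχ' => by
        rw [hout _ (hpz j) (hpw j hj) χ hχ hχ', zero_mul])] at h1
      exact h1
  obtain ⟨n, m, c, w, g, h, hn, hm, hc, hw, hch, hgh, hsum, d, hdd⟩ := hmain
  -- the virtual characters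
  have hmem : ∀ b : IrrE M e → ℤ, (∑ θ : IrrE M e, b θ • (θ : G → ℂ)) ∈ ZE M e := fun b =>
    AddSubgroup.sum_mem _ fun θ _ => AddSubgroup.zsmul_mem _ (AddSubgroup.subset_closure θ.2) _
  have hRc : ∀ b : IrrE M e → ℤ,
      (∀ j ∈ Finset.Ico 1 ℓ, ∑ θ, (b θ : ℂ) * Av ℓ (pq v) (v ^ j) κ θ.1 = 0) →
      Rc ℓ (∑ θ : IrrE M e, b θ • (θ : G → ℂ)) := by
    intro b hb
    refine ⟨?_, ?_⟩
    · intro x y
      rw [Finset.sum_apply, Finset.sum_apply]
      refine Finset.sum_congr rfl fun θ _ => ?_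
      rw [Pi.smul_apply, Pi.smul_apply, irr_conj (hirr θ.2)]
    · refine val ℓ M hM G (Hq v) e he v hV (pq v) hπ _ (ze_span M e (hmem b)) ?_
      intro γ' hγ' hγe' κ' hk' w hw hw1
      obtain ⟨κ'', hk'', -⟩ := kap ℓ M hM G (Hq v) e he v hV (pq v) hπ γ' hγ' hγe'
      have h1 : κ' = κ'' := by rw [hk''] at hk'; exact hk'
      subst h1
      obtain ⟨w', hw', hw1', hA⟩ := trn ℓ M hM G (Hq v) e he v hV (pq v) hπ γ γ' hγ hγ' hγe hγe'
        κ κ' hk hk'' w hw hw1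
      obtain ⟨j, hj, rfl⟩ := pow_of_ne' hv hw' hw1'
      rw [Av_comb, ← hb j hj]
      exact Finset.sum_congr rfl fun θ _ => by rw [hA θ.1 (hirr θ.2)]
  have hap : ∀ (b : IrrE M e → ℤ) (x : G), (∑ θ : IrrE M e, b θ • (θ : G → ℂ)) x =
      ∑ θ : IrrE M e, (b θ : ℂ) * (θ : G → ℂ) x := by
    intro b x
    rw [Finset.sum_apply]
    exact Finset.sum_congr rfl fun θ _ => by rw [Pi.smul_apply, zsmul_eq_mul]
  have hpr : pr M e = fun g => ∑ θ : IrrE M e, (deg θ : ℂ) * (θ : G → ℂ) g := by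
    funext g
    rw [pr, ← finsum_set_coe_eq_finsum_mem (IrrE M e) (f := fun χ : G → ℂ => χ 1 * χ g),
      finsum_eq_sum_of_fintype]
    exact Finset.sum_congr rfl fun θ _ => by rw [hd θ]
  refine ⟨n, m, c, w, fun r => ∑ θ : IrrE M e, g r θ • (θ : G → ℂ),
    fun r s => ∑ θ : IrrE M e, h r s θ • (θ : G → ℂ), hn, hm, hc, hw,
    fun r => ⟨hmem _, hRc _ fun j hj => (hgh j hj).1 r⟩,
    fun r s => ⟨hmem _, hRc _ fun j hj => (hgh j hj).2 r s⟩, ?_, ?_, d, ?_⟩
  · intro r s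
    funext x
    rw [Pi.smul_apply, Pi.sub_apply, Pi.smul_apply, Pi.smul_apply]
    beta_reduce
    rw [hap, hap, hap, smul_eq_mul,
      smul_eq_mul, smul_eq_mul, Finset.mul_sum, Finset.mul_sum, Finset.mul_sum,
      ← Finset.sum_sub_distrib]
    refine Finset.sum_congr rfl fun θ _ => ?_
    have h1 : ((c * h r s θ : ℤ) : ℂ) = ((w s * g r θ - w r * g s θ : ℤ) : ℂ) := by
      rw [hch r s θ]
    push_cast at h1
    linear_combination (θ : G → ℂ) x * h1
  · simp only [ipn_comb hirr]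
    have h1 := congrArg (fun z : ℤ => (z : ℂ)) hsum
    push_cast at h1
    push_cast
    exact h1
  · rw [hpr]
    funext x
    rw [Finset.sum_apply]
    have h2 : ∀ r : Fin n, (d r • (∑ θ : IrrE M e, g r θ • (θ : G → ℂ))) x =
        ∑ θ : IrrE M e, d r * ((g r θ : ℂ) * (θ : G → ℂ) x) := by
      intro r
      rw [Pi.smul_apply, hap, smul_eq_mul, Finset.mul_sum]
    simp only [h2]
    rw [Finset.sum_comm]
    refine Finset.sum_congr rfl fun θ _ => ?_
    rw [hdd θ, Finset.sum_mul]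
    exact Finset.sum_congr rfl fun r _ => by ring

end Pool.Agent.PP.K9.H9
end
end -- Pool.Agent.Helper9_K9.DTL

section -- Pool.Agent.Helper43_ASE.KL

/-!
# Squad ASE: the bound for the number of the characters of a block with a defect group of order `ℓ ^ 2`
-/

open scoped BigOperators

noncomputable section

namespace Pool.Agent.PP.SE.H43A

open Pool.Agent.Helper51_AWC Pool.Agent.Helper79_WRA Pool.Agent.PP Pool.Agent.PP.KF
open Pool.Agent.PP.K9

theorem grm_ : K9.GrmStmt := H86M.grm H6.gra H25.grb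

theorem trn_ : K9.TrnStmt := H24.trn H69.fmg H97.orb H3.psi

theorem dtl_ : K9.DtlStmt := K9.H9.dtl kap_ val_ grm_ H86.sec H90.cnj int__ azr_ nz_ prg_ trn_

theorem kl_ : K9.KlStmt := H02.kl dtl_ H02.pug int__ H86.sec azr_ nz_ prg_ H65g.gal

end Pool.Agent.PP.SE.H43A
end
end -- Pool.Agent.Helper43_ASE.KL

section -- Pool.Agent.Helper72_ASE.MATi

/-!
# Squad ASE, row MAT: the integer part
-/

namespace Pool.Agent.PP.SE.H72

/-- case (1), `ℓ ∣ A - 1` -/
theorem int1 {ℓ n m A Q : ℤ} (hℓ : 2 ≤ ℓ) (hm : 1 ≤ m) (hn : 1 ≤ n) (hmn : m * n = ℓ - 1)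
    (hc : A ^ 2 ≤ n * Q) (h : ℓ * Q = ℓ + m * (A ^ 2 - 1)) (hd : ℓ ∣ A - 1) :
    Q = 1 ∨ ∃ σ : ℤ, (σ = 1 ∨ σ = -1) ∧ A = σ * n ∧ Q = n := by
  obtain ⟨k, hk⟩ := hd
  have hA2 : A ^ 2 ≤ ℓ * (n - 1) + 1 := by
    have e1 : n * (ℓ * Q) = n * ℓ + (m * n) * (A ^ 2 - 1) := by rw [h]; ring
    rw [hmn] at e1
    have e2 : ℓ * A ^ 2 ≤ ℓ * (n * Q) := mul_le_mul_of_nonneg_left hc (by linarith)
    nlinarith
  have hnl : n ≤ ℓ - 1 := by nlinarith
  have hA3 : A ^ 2 ≤ (ℓ - 1) ^ 2 := by nlinarith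
  have hA4 : |A| ≤ ℓ - 1 := abs_le_of_sq_le_sq hA3 (by linarith)
  obtain ⟨hA5, hA6⟩ := abs_le.mp hA4
  have hk1 : k ≤ 0 := by
    by_contra hcon
    have : 1 ≤ k := by omega
    nlinarith
  have hk2 : -1 ≤ k := by
    by_contra hcon
    have : k ≤ -2 := by omega
    nlinarith
  have hk3 : k = 0 ∨ k = -1 := by omega
  rcases hk3 with rfl | rfl
  · left
    have hA : A = 1 := by linarith
    subst hA
    have : ℓ * Q = ℓ * 1 := by rw [h]; ring
    exact mul_left_cancel₀ (by omega) this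
  · right
    have hA : A = 1 - ℓ := by linarith
    subst hA
    have hn2 : ℓ - 1 ≤ n := by
      by_contra hcon
      have : n - 1 + 1 ≤ ℓ - 2 := by omega
      nlinarith
    have hn3 : n = ℓ - 1 := by omega
    subst hn3
    have hm1 : m = 1 := by
      have : (m - 1) * (ℓ - 1) = 0 := by linarith
      rcases mul_eq_zero.mp this with h1 | h1
      · omega
      · omega
    subst hm1
    refine ⟨-1, Or.inr rfl, by ring, ?_⟩
    have : ℓ * Q = ℓ * (ℓ - 1) := by rw [h]; ring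
    exact mul_left_cancel₀ (by omega) this

/-- case (2), `ℓ ∣ A - n` -/
theorem int2 {ℓ n m A Q : ℤ} (hℓ : 2 ≤ ℓ) (hm : 1 ≤ m) (hn : 1 ≤ n) (hmn : m * n = ℓ - 1)
    (hc : A ^ 2 ≤ n * Q) (h : ℓ * Q = n + m * A ^ 2) (hd : ℓ ∣ A - n) :
    Q = 1 ∨ ∃ σ : ℤ, (σ = 1 ∨ σ = -1) ∧ A = σ * n ∧ Q = n := by
  obtain ⟨k, hk⟩ := hd
  have hA2 : A ^ 2 ≤ n ^ 2 := by
    have e1 : n * (ℓ * Q) = n ^ 2 + (m * n) * A ^ 2 := by rw [h]; ring
    rw [hmn] at e1
    have e2 : ℓ * A ^ 2 ≤ ℓ * (n * Q) := mul_le_mul_of_nonneg_left hc (by linarith)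
    nlinarith
  have hnl : n ≤ ℓ - 1 := by nlinarith
  have hA4 : |A| ≤ n := abs_le_of_sq_le_sq hA2 (by linarith)
  obtain ⟨hA5, hA6⟩ := abs_le.mp hA4
  have hk1 : k ≤ 0 := by
    by_contra hcon
    have : 1 ≤ k := by omega
    nlinarith
  have hk2 : -1 ≤ k := by
    by_contra hcon
    have : k ≤ -2 := by omega
    nlinarith
  have hk3 : k = 0 ∨ k = -1 := by omega
  rcases hk3 with rfl | rfl
  · right
    have hA : A = n := by linarith
    subst hA
    refine ⟨1, Or.inl rfl, by ring, ?_⟩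
    have : ℓ * Q = ℓ * A := by
      rw [h]
      linear_combination A * hmn
    exact mul_left_cancel₀ (by omega) this
  · left
    have hA : A = n - ℓ := by linarith
    have hm1 : m = 1 := by
      by_contra hcon
      have : 2 ≤ m := by omega
      nlinarith
    subst hm1
    have hn3 : n = ℓ - 1 := by linarith
    have hA1 : A = -1 := by rw [hA, hn3]; ring
    rw [hA1, hn3] at h
    have : ℓ * Q = ℓ * 1 := by rw [h]; ring
    exact mul_left_cancel₀ (by omega) this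

theorem int_core {ι : Type*} (s : Finset ι) (a : ι → ℤ) {ℓ n m : ℕ} (hp : ℓ.Prime)
    (hmn : m * n = ℓ - 1) (hc : s.card = n)
    (h : (ℓ : ℤ) * ∑ i ∈ s, a i ^ 2 = ℓ + m * ((∑ i ∈ s, a i) ^ 2 - 1) ∨
      (ℓ : ℤ) * ∑ i ∈ s, a i ^ 2 = n + m * (∑ i ∈ s, a i) ^ 2) :
    (∃ i ∈ s, (a i = 1 ∨ a i = -1) ∧ ∀ j ∈ s, j ≠ i → a j = 0) ∨
      ∃ σ : ℤ, (σ = 1 ∨ σ = -1) ∧ ∀ i ∈ s, a i = σ := by
  have hℓ2 := hp.two_le
  have hm1 : 1 ≤ m := by
    rcases Nat.eq_zero_or_pos m with h0 | h0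
    · subst h0; omega
    · exact h0
  have hn1 : 1 ≤ n := by
    rcases Nat.eq_zero_or_pos n with h0 | h0
    · subst h0; omega
    · exact h0
  have hmnZ : (m : ℤ) * n = ℓ - 1 := by
    have : ((m * n : ℕ) : ℤ) = ((ℓ - 1 : ℕ) : ℤ) := by rw [hmn]
    push_cast [Nat.cast_sub (by omega : 1 ≤ ℓ)] at this
    exact this
  have hcs : (∑ i ∈ s, a i) ^ 2 ≤ (n : ℤ) * ∑ i ∈ s, a i ^ 2 := by
    have := sq_sum_le_card_mul_sum_sq (s := s) (f := a)
    rwa [hc] at this
  have hpZ : Prime (ℓ : ℤ) := Nat.prime_iff_prime_int.mp hp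
  set A := ∑ i ∈ s, a i with hA
  set Q := ∑ i ∈ s, a i ^ 2 with hQ
  have key : Q = 1 ∨ ∃ σ : ℤ, (σ = 1 ∨ σ = -1) ∧ A = σ * n ∧ Q = n := by
    have flip : (Q = 1 ∨ ∃ σ : ℤ, (σ = 1 ∨ σ = -1) ∧ -A = σ * n ∧ Q = n) →
        (Q = 1 ∨ ∃ σ : ℤ, (σ = 1 ∨ σ = -1) ∧ A = σ * n ∧ Q = n) := by
      rintro (h1 | ⟨σ, h1, h2, h3⟩)
      · exact Or.inl h1
      · refine Or.inr ⟨-σ, ?_, by linarith, h3⟩
        rcases h1 with h1 | h1
        · right; rw [h1]
        · left; rw [h1]; ring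
    rcases h with h | h
    · have hd : (ℓ : ℤ) ∣ m * ((A - 1) * (A + 1)) := ⟨Q - 1, by linarith⟩
      have hnm : ¬ (ℓ : ℤ) ∣ m := by
        intro hcon
        have := Int.le_of_dvd (by exact_mod_cast hm1) hcon
        have h2 : (m : ℤ) ≤ ℓ - 1 := by
          have : (1 : ℤ) ≤ n := by exact_mod_cast hn1
          have : (1 : ℤ) ≤ m := by exact_mod_cast hm1
          nlinarith
        linarith
      rcases hpZ.dvd_or_dvd hd with h1 | h1
      · exact absurd h1 hnm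
      rcases hpZ.dvd_or_dvd h1 with h2 | h2
      · exact int1 (by exact_mod_cast hℓ2) (by exact_mod_cast hm1) (by exact_mod_cast hn1) hmnZ
          hcs h h2
      · apply flip
        refine int1 (A := -A) (by exact_mod_cast hℓ2) (by exact_mod_cast hm1)
          (by exact_mod_cast hn1) hmnZ (by rw [neg_sq]; exact hcs) (by rw [neg_sq]; exact h) ?_
        obtain ⟨c, hc'⟩ := h2
        exact ⟨-c, by linarith⟩
    · have hd : (ℓ : ℤ) ∣ (A - n) * (A + n) := by
        refine ⟨A ^ 2 - n * Q, ?_⟩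
        have e1 : (n : ℤ) * (ℓ * Q) = n ^ 2 + (m * n) * A ^ 2 := by rw [h]; ring
        rw [hmnZ] at e1
        linear_combination e1
      rcases hpZ.dvd_or_dvd hd with h2 | h2
      · exact int2 (by exact_mod_cast hℓ2) (by exact_mod_cast hm1) (by exact_mod_cast hn1) hmnZ
          hcs h h2
      · apply flip
        refine int2 (A := -A) (by exact_mod_cast hℓ2) (by exact_mod_cast hm1)
          (by exact_mod_cast hn1) hmnZ (by rw [neg_sq]; exact hcs) (by rw [neg_sq]; exact h) ?_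
        obtain ⟨c, hc'⟩ := h2
        exact ⟨-c, by linarith⟩
  rcases key with h1 | ⟨σ, h1, h2, h3⟩
  · left
    obtain ⟨i, hi, hi0⟩ : ∃ i ∈ s, a i ≠ 0 := by
      by_contra hcon
      push Not at hcon
      have : Q = 0 := Finset.sum_eq_zero fun i hi => by rw [hcon i hi]; ring
      omega
    classical
    have hsplit : a i ^ 2 + ∑ j ∈ s.erase i, a j ^ 2 = 1 := by
      rw [← h1, hQ, Finset.add_sum_erase s (fun j => a j ^ 2) hi]
    have hnn : 0 ≤ ∑ j ∈ s.erase i, a j ^ 2 := Finset.sum_nonneg fun j _ => sq_nonneg _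
    have hpos : 0 < a i ^ 2 := by positivity
    have hai : a i ^ 2 = 1 := by omega
    have hz : ∑ j ∈ s.erase i, a j ^ 2 = 0 := by omega
    refine ⟨i, hi, sq_eq_one_iff.mp hai, ?_⟩
    intro j hj hji
    have := (Finset.sum_eq_zero_iff_of_nonneg (fun j _ => sq_nonneg (a j))).mp hz j
      (Finset.mem_erase.mpr ⟨hji, hj⟩)
    exact pow_eq_zero_iff (two_ne_zero) |>.mp this
  · right
    refine ⟨σ, h1, ?_⟩
    have hσ2 : σ ^ 2 = 1 := by rcases h1 with rfl | rfl <;> norm_num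
    have hz : ∑ i ∈ s, (a i - σ) ^ 2 = 0 := by
      have : ∑ i ∈ s, (a i - σ) ^ 2 = Q - 2 * σ * A + n * σ ^ 2 := by
        rw [hQ, hA, Finset.mul_sum, ← Finset.sum_sub_distrib]
        have hn' : (n : ℤ) * σ ^ 2 = ∑ i ∈ s, σ ^ 2 := by
          rw [Finset.sum_const, hc, nsmul_eq_mul]
        rw [hn', ← Finset.sum_add_distrib]
        refine Finset.sum_congr rfl fun i _ => by ring
      rw [this, h2, h3]
      linear_combination (-(n : ℤ)) * hσ2
    intro i hi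
    have := (Finset.sum_eq_zero_iff_of_nonneg (fun j _ => sq_nonneg (a j - σ))).mp hz i hi
    have := (pow_eq_zero_iff (two_ne_zero)).mp this
    linarith

end Pool.Agent.PP.SE.H72
end -- Pool.Agent.Helper72_ASE.MATi

section -- Pool.Agent.Helper72_ASE.MAT

/-!
# Squad ASE, row MAT
-/

open scoped BigOperators

noncomputable section

namespace Pool.Agent.PP.SE.H72

open Pool.Agent.Helper51_AWC Pool.Agent.Helper79_WRA Pool.Agent.PP Pool.Agent.PP.KF
open Pool.Agent.PP.K9 Pool.Agent.PP.K9.H97 Pool.Agent.PP.H75 Pool.Agent.PP.T3 Pool.Agent.PP.SO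
open Pool.Agent.PP.SD Pool.Agent.PP.SE

attribute [local instance] Ideal.Quotient.field

section

variable {V₀ G : Type} [CommGroup V₀] [Group G] {M : Ideal (integralClosure ℤ ℂ)} [M.IsMaximal]

/-- `rip` depends only on the values at the regular elements and is sesquilinear. -/
theorem rip_sum [Finite G] (ℓ : ℕ) (B : Bk (FF M) V₀ G) (W : Subgroup V₀) {ι : Type*}
    (s : Finset ι) (a : ι → ℤ) (f : ι → G → ℂ) (χ : G → ℂ)
    (h : ∀ g ∈ B.C W, Reg ℓ g → χ g = ∑ i ∈ s, (a i : ℂ) * f i g) :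
    rip ℓ B W χ χ = ∑ i ∈ s, ∑ j ∈ s, (a i : ℂ) * (a j : ℂ) * rip ℓ B W (f i) (f j) := by
  classical
  have hR : ({t : G | t ∈ B.C W ∧ Reg ℓ t}).Finite := Set.toFinite _
  have key : ∀ φ ψ : G → ℂ, rip ℓ B W φ ψ = (Nat.card (B.C W) : ℂ)⁻¹ *
      ∑ t ∈ hR.toFinset, φ t * starRingEnd ℂ (ψ t) := by
    intro φ ψ
    unfold rip
    rw [finsum_mem_eq_finite_toFinset_sum _ hR]
  rw [key]
  have e1 : ∑ t ∈ hR.toFinset, χ t * starRingEnd ℂ (χ t) =
      ∑ t ∈ hR.toFinset, ∑ i ∈ s, ∑ j ∈ s,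
        (a i : ℂ) * (a j : ℂ) * (f i t * starRingEnd ℂ (f j t)) := by
    refine Finset.sum_congr rfl fun t ht => ?_
    obtain ⟨h1, h2⟩ := (Set.Finite.mem_toFinset hR).mp ht
    rw [h t h1 h2, map_sum, Finset.sum_mul_sum]
    refine Finset.sum_congr rfl fun i _ => Finset.sum_congr rfl fun j _ => ?_
    rw [map_mul, map_intCast]
    ring
  rw [e1, Finset.sum_comm]
  rw [Finset.mul_sum]
  refine Finset.sum_congr rfl fun i _ => ?_
  rw [Finset.sum_comm, Finset.mul_sum]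
  refine Finset.sum_congr rfl fun j _ => ?_
  rw [key, Finset.mul_sum, Finset.mul_sum, Finset.mul_sum]
  refine Finset.sum_congr rfl fun t _ => ?_
  ring

/-- the double sum -/
theorem dsum {ι : Type*} [DecidableEq ι] (s : Finset ι) (a : ι → ℤ) (x y : ℂ) :
    ∑ i ∈ s, ∑ j ∈ s, (a i : ℂ) * (a j : ℂ) * ((if i = j then 1 else 0) * x + y) =
      x * ((∑ i ∈ s, a i ^ 2 : ℤ) : ℂ) + y * ((∑ i ∈ s, a i : ℤ) : ℂ) ^ 2 := by
  have e1 : ∀ i ∈ s, ∑ j ∈ s, (a i : ℂ) * (a j : ℂ) * ((if i = j then 1 else 0) * x + y) =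
      x * (a i : ℂ) ^ 2 + y * ((a i : ℂ) * ∑ j ∈ s, (a j : ℂ)) := by
    intro i hi
    have : ∀ j ∈ s, (a i : ℂ) * (a j : ℂ) * ((if i = j then 1 else 0) * x + y) =
        (if i = j then x * ((a i : ℂ) * (a j : ℂ)) else 0) + y * ((a i : ℂ) * (a j : ℂ)) := by
      intro j _
      split_ifs
      · ring
      · ring
    rw [Finset.sum_congr rfl this, Finset.sum_add_distrib, Finset.sum_ite_eq s i, if_pos hi,
      ← Finset.mul_sum, ← Finset.mul_sum]
    ring
  rw [Finset.sum_congr rfl e1, Finset.sum_add_distrib, ← Finset.mul_sum, ← Finset.mul_sum,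
    ← Finset.sum_mul]
  push_cast
  ring

theorem ch_pos {B : Bk (FF M) V₀ G} {W : Subgroup V₀} {χ : G → ℂ} (h : χ ∈ Ch B W) :
    ∃ d : ℕ, 0 < d ∧ χ 1 = d := by
  have h1 : (fun t : B.C W => χ t) ∈ Irr (B.C W) := h.2.1
  obtain ⟨d, hd, e⟩ := irr_one h1
  exact ⟨d, hd, by simpa using e⟩

theorem reg_one (ℓ : ℕ) : Reg ℓ (1 : G) := by
  unfold Reg
  simp

end

theorem mat (str : StrStmt) (xir : XirStmt) (rpv : RpvStmt) (dcr : DcrStmt) (vxm : VxmStmt) :
    MatStmt := by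
  classical
  intro ℓ _ M _ hM hℓ2 V₀ G _ _ _ _ E₀ hF B hB W hW χ hχ
  have hp : ℓ.Prime := Fact.out
  set n := nS E₀ W with hn
  have hn1 : 1 < n := hW.2
  obtain ⟨ν, hν, hχν⟩ := (vxm ℓ M hM hℓ2 V₀ G E₀ hF B hB W hW χ hχ).2.1.2.2.2.1
  have h1k : (fun _ : V₀ => (1 : ℂ)) ∈ lk (kW E₀ W) :=
    ⟨⟨rfl, fun _ _ => by simp⟩, fun _ _ => rfl⟩
  -- the structures
  have hex : ∀ ν ∈ lk (kW E₀ W), ∃ N e O, Lv E₀ B W ν N e O := by
    intro ν hν
    obtain ⟨c1, c2, c3⟩ := str ℓ M hM hℓ2 V₀ G E₀ hF B hB W hW ν hν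
    by_cases hc : nS E₀ W = ℓ - 1
    · have hne : (Iv B W ν).Nonempty := by
        by_contra hcon
        rw [Set.not_nonempty_iff_eq_empty] at hcon
        rw [hcon, Set.ncard_empty, mul_zero] at c1
        have := hp.two_le
        have : nS E₀ W ^ 2 + (ℓ - 1) = 0 := c1.symm
        omega
      obtain ⟨χ₀, hχ₀⟩ := hne
      obtain ⟨e, O, hL, _⟩ := c3 hc χ₀ hχ₀
      exact ⟨_, e, O, hL⟩
    · obtain ⟨e, O, hL⟩ := c2 hc
      exact ⟨_, e, O, hL⟩
  obtain ⟨N', e', O', hL'⟩ := hex ν hν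
  obtain ⟨N, e, O, hL⟩ := hex _ h1k
  obtain ⟨c1, -, -⟩ := str ℓ M hM hℓ2 V₀ G E₀ hF B hB W hW _ h1k
  rw [← hn] at c1
  -- the sets
  have hIfin : (Iv B W (fun _ => 1)).Finite := by
    apply Set.finite_of_ncard_pos
    rcases Nat.eq_zero_or_pos (Iv B W (fun _ => 1)).ncard with h0 | h0
    · rw [h0, mul_zero] at c1
      have := hp.two_le
      omega
    · exact h0
  set I := hIfin.toFinset with hI
  set P := I.filter (fun ψ => ψ ∈ N) with hP
  set T := I.filter (fun ψ => ψ ∉ N) with hT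
  have hPc : P.card = n := by
    have := hL.cN
    rw [hn, ← this, ← Set.ncard_coe_finset]
    congr 1
    ext ψ
    simp [hP, hI]
  have hIc : I.card = (Iv B W (fun _ => 1)).ncard := by
    rw [hI, ← Set.ncard_eq_toFinset_card _ hIfin]
  have hPT : P.card + T.card = I.card := by
    rw [hP, hT]
    exact Finset.card_filter_add_card_filter_not _
  have hmn : T.card * n = ℓ - 1 := by
    rw [← hIc, ← hPT, hPc] at c1
    have : n * (n + T.card) = n * n + T.card * n := by ring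
    rw [this] at c1
    have : n ^ 2 = n * n := by ring
    omega
  set m := T.card with hm
  have hm1 : 1 ≤ m := by
    rcases Nat.eq_zero_or_pos m with h0 | h0
    · rw [h0] at hmn
      have := hp.two_le
      omega
    · exact h0
  -- the decomposition
  obtain ⟨z, hz⟩ := dcr ℓ M hM hℓ2 V₀ G E₀ hF B hB W hW χ hχ
  have hmemP : ∀ ψ ∈ P, ψ ∈ Iv B W (fun _ => 1) ∧ ψ ∈ N := by
    intro ψ hψ
    rw [hP, Finset.mem_filter, hI, Set.Finite.mem_toFinset] at hψ
    exact hψ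
  have hmemT : ∀ ψ ∈ T, ψ ∈ Iv B W (fun _ => 1) ∧ ψ ∉ N := by
    intro ψ hψ
    rw [hT, Finset.mem_filter, hI, Set.Finite.mem_toFinset] at hψ
    exact hψ
  have hesq : ∀ ψ ∈ Iv B W (fun _ => 1), (e ψ : ℂ) * e ψ = 1 := by
    intro ψ hψ
    rcases hL.sg ψ hψ with h | h
    · rw [h]; norm_num
    · rw [h]; norm_num
  have hxi : ∀ ψ ∈ T, ∀ g ∈ B.C W, Reg ℓ g →
      ∑ θ ∈ P, (e θ : ℂ) * θ g = e ψ * ψ g := by
    intro ψ hψ g hg hr
    obtain ⟨h1, h2⟩ := hmemT ψ hψ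
    rw [← xir ℓ M hM hℓ2 V₀ G E₀ hF B hB W hW _ h1k N e O hL ψ h1 h2 g hg hr]
    have hfin : ({χ | χ ∈ Iv B W (fun _ => 1) ∧ χ ∈ N}).Finite :=
      hIfin.subset fun _ h => h.1
    rw [finsum_mem_eq_finite_toFinset_sum _ hfin]
    refine Finset.sum_congr ?_ fun _ _ => rfl
    ext θ
    simp [hP, hI]
  set c : ℤ := ∑ ψ ∈ T, z ψ * e ψ with hc
  set a : (G → ℂ) → ℤ := fun ψ => z ψ * e ψ + c with ha
  have hdec : ∀ g ∈ B.C W, Reg ℓ g → χ g = ∑ ψ ∈ P, (a ψ : ℂ) * ((e ψ : ℂ) * ψ g) := by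
    intro g hg hr
    rw [hz g hg hr, finsum_mem_eq_finite_toFinset_sum _ hIfin, ← hI,
      ← Finset.sum_filter_add_sum_filter_not I (fun ψ => ψ ∈ N), ← hP, ← hT]
    have t1 : ∑ ψ ∈ P, (z ψ : ℂ) * ψ g = ∑ ψ ∈ P, ((z ψ * e ψ : ℤ) : ℂ) * ((e ψ : ℂ) * ψ g) := by
      refine Finset.sum_congr rfl fun ψ hψ => ?_
      have := hesq ψ (hmemP ψ hψ).1
      push_cast
      linear_combination (-(z ψ : ℂ) * ψ g) * this
    have t2 : ∑ ψ ∈ T, (z ψ : ℂ) * ψ g = (c : ℂ) * ∑ θ ∈ P, (e θ : ℂ) * θ g := by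
      rw [hc, Int.cast_sum, Finset.sum_mul]
      refine Finset.sum_congr rfl fun ψ hψ => ?_
      rw [hxi ψ hψ g hg hr]
      have := hesq ψ (hmemT ψ hψ).1
      push_cast
      linear_combination (-(z ψ : ℂ) * ψ g) * this
    rw [t1, t2, Finset.mul_sum, ← Finset.sum_add_distrib]
    refine Finset.sum_congr rfl fun ψ _ => ?_
    rw [ha]
    push_cast
    ring
  -- the norm
  have hℓ0 : (ℓ : ℂ) ≠ 0 := by exact_mod_cast hp.ne_zero
  have hn0 : (n : ℂ) ≠ 0 := by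
    have : n ≠ 0 := by omega
    exact_mod_cast this
  have hm0 : (m : ℂ) ≠ 0 := by
    have : m ≠ 0 := by omega
    exact_mod_cast this
  have hmnC : (m : ℂ) * n = ℓ - 1 := by
    have h1 : m * n + 1 = ℓ := by
      have := hp.two_le
      omega
    have : ((m * n + 1 : ℕ) : ℂ) = ℓ := by rw [h1]
    push_cast at this
    linear_combination this
  have hripf : ∀ ψ ∈ P, ∀ θ ∈ P,
      rip ℓ B W (fun g => (e ψ : ℂ) * ψ g) (fun g => (e θ : ℂ) * θ g) =
        (if ψ = θ then 1 else 0) * (ℓ : ℂ)⁻¹ + (((n : ℂ) * ℓ ^ 2)⁻¹ - (n * ℓ : ℂ)⁻¹) := by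
    intro ψ hψ θ hθ
    obtain ⟨h1, h2⟩ := hmemP ψ hψ
    obtain ⟨h3, h4⟩ := hmemP θ hθ
    have hr := (rpv ℓ M hM hℓ2 V₀ G E₀ hF B hB W hW _ h1k N e O hL ψ h1 θ h3).1 h2 h4
    have hlin : rip ℓ B W (fun g => (e ψ : ℂ) * ψ g) (fun g => (e θ : ℂ) * θ g) =
        (e ψ : ℂ) * e θ * rip ℓ B W ψ θ := by
      unfold rip
      have : ∀ s : G, (e ψ : ℂ) * ψ s * starRingEnd ℂ ((e θ : ℂ) * θ s) =
          ((e ψ : ℂ) * e θ) * (ψ s * starRingEnd ℂ (θ s)) := by
        intro s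
        rw [map_mul, map_intCast]
        ring
      have hRf : ({t : G | t ∈ B.C W ∧ Reg ℓ t}).Finite := Set.toFinite _
      rw [finsum_mem_eq_finite_toFinset_sum _ hRf, finsum_mem_eq_finite_toFinset_sum _ hRf,
        Finset.sum_congr rfl fun s _ => this s, ← Finset.mul_sum]
      ring
    rw [hlin, hr, ← hn]
    have e1 := hesq ψ h1
    have e2 := hesq θ h3
    have e3 : (e ψ : ℂ) * e θ * (e ψ * e θ) = 1 := by
      linear_combination (e θ : ℂ) * e θ * e1 + e2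
    rw [← mul_assoc, e3, one_mul]
    field_simp
    ring
  have hnorm : rip ℓ B W χ χ = (ℓ : ℂ)⁻¹ * ((∑ ψ ∈ P, a ψ ^ 2 : ℤ) : ℂ) +
      (((n : ℂ) * ℓ ^ 2)⁻¹ - (n * ℓ : ℂ)⁻¹) * ((∑ ψ ∈ P, a ψ : ℤ) : ℂ) ^ 2 := by
    rw [rip_sum ℓ B W P a (fun ψ g => (e ψ : ℂ) * ψ g) χ hdec, ← dsum]
    refine Finset.sum_congr rfl fun ψ hψ => Finset.sum_congr rfl fun θ hθ => ?_
    rw [hripf ψ hψ θ hθ]
  have hrp := rpv ℓ M hM hℓ2 V₀ G E₀ hF B hB W hW ν hν N' e' O' hL' χ hχν χ hχν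
  have hesq' : (e' χ : ℂ) * e' χ = 1 := by
    rcases hL'.sg χ hχν with h | h
    · rw [h]; norm_num
    · rw [h]; norm_num
  set Q : ℤ := ∑ ψ ∈ P, a ψ ^ 2 with hQ
  set A : ℤ := ∑ ψ ∈ P, a ψ with hA
  have hint : (ℓ : ℤ) * Q = ℓ + m * (A ^ 2 - 1) ∨ (ℓ : ℤ) * Q = n + m * A ^ 2 := by
    by_cases hN : χ ∈ N'
    · left
      have hr := hrp.1 hN hN
      rw [hnorm, if_pos rfl, hesq', one_mul, ← hn] at hr
      have h2 : (n : ℂ) * ((ℓ : ℂ) * Q) = n * ℓ + (ℓ - 1) * (A ^ 2 - 1) := by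
        field_simp at hr
        have hh : (ℓ : ℂ) * ((n : ℂ) * ((ℓ : ℂ) * Q)) =
            ℓ * (n * ℓ + (ℓ - 1) * (A ^ 2 - 1)) := by
          linear_combination (ℓ : ℂ) * hr
        exact mul_left_cancel₀ hℓ0 hh
      rw [← hmnC] at h2
      have h3 : (ℓ : ℂ) * Q = ℓ + m * (A ^ 2 - 1) := by
        apply mul_left_cancel₀ hn0
        linear_combination h2
      exact_mod_cast h3
    · right
      have hr := hrp.2.2 hN hN
      rw [hnorm, hesq', one_mul, ← hn] at hr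
      have h2 : (n : ℂ) * ((ℓ : ℂ) * Q) = n * n + (ℓ - 1) * A ^ 2 := by
        field_simp at hr
        have hh : (ℓ : ℂ) * ((n : ℂ) * ((ℓ : ℂ) * Q)) =
            ℓ * (n * n + (ℓ - 1) * A ^ 2) := by
          linear_combination (ℓ : ℂ) * hr
        exact mul_left_cancel₀ hℓ0 hh
      rw [← hmnC] at h2
      have h3 : (ℓ : ℂ) * Q = n + m * A ^ 2 := by
        apply mul_left_cancel₀ hn0
        linear_combination h2
      exact_mod_cast h3
  -- the conclusion up to the sign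
  have hconc : ∃ ψ ∈ Iv B W (fun _ => 1), ∃ ε : ℤ, (ε = 1 ∨ ε = -1) ∧
      ∀ g ∈ B.C W, Reg ℓ g → χ g = ε * ψ g := by
    rcases int_core P a hp hmn hPc hint with ⟨ψ, hψ, h1, h2⟩ | ⟨σ, h1, h2⟩
    · have hψI := (hmemP ψ hψ).1
      refine ⟨ψ, hψI, a ψ * e ψ, ?_, ?_⟩
      · rcases h1 with h1 | h1 <;> rcases hL.sg ψ hψI with h3 | h3 <;> rw [h1, h3] <;> simp
      · intro g hg hr
        rw [hdec g hg hr, Finset.sum_eq_single ψ]
        · push_cast
          ring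
        · intro θ hθ hne
          rw [h2 θ hθ hne]
          simp
        · intro hcon
          exact absurd hψ hcon
    · obtain ⟨ψ, hψ⟩ : T.Nonempty := Finset.card_pos.mp (by omega)
      have hψI := (hmemT ψ hψ).1
      refine ⟨ψ, hψI, σ * e ψ, ?_, ?_⟩
      · rcases h1 with h1 | h1 <;> rcases hL.sg ψ hψI with h3 | h3 <;> rw [h1, h3] <;> simp
      · intro g hg hr
        rw [hdec g hg hr]
        have : ∑ θ ∈ P, (a θ : ℂ) * ((e θ : ℂ) * θ g) = σ * ∑ θ ∈ P, (e θ : ℂ) * θ g := by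
          rw [Finset.mul_sum]
          refine Finset.sum_congr rfl fun θ hθ => ?_
          rw [h2 θ hθ]
        rw [this, hxi ψ hψ g hg hr]
        push_cast
        ring
  obtain ⟨ψ, hψ, ε, hε, hval⟩ := hconc
  refine ⟨ψ, hψ, ?_⟩
  have hone := hval 1 (B.C W).one_mem (reg_one ℓ)
  obtain ⟨d, hd, hd'⟩ := ch_pos hχ
  obtain ⟨d2, hd2, hd2'⟩ := ch_pos hψ.1
  have hε1 : ε = 1 := by
    rcases hε with h | h
    · exact h
    · exfalso
      rw [hd', hd2', h] at hone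
      have : ((d : ℤ) : ℂ) = ((-1 * (d2 : ℤ) : ℤ) : ℂ) := by
        push_cast
        push_cast at hone
        exact hone
      have := Int.cast_injective this
      omega
  intro g hg hr
  rw [hval g hg hr, hε1]
  push_cast
  ring

end Pool.Agent.PP.SE.H72
end
end -- Pool.Agent.Helper72_ASE.MAT

section -- Pool.Agent.Helper76_ASE.IBV

/-!
# Squad ASE, row IBV: integral vectors
-/

open scoped BigOperators

set_option autoImplicit false

noncomputable section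

namespace Pool.Agent.PP.SE.H76

open Pool.Agent.Helper51_AWC Pool.Agent.Helper79_WRA Pool.Agent.PP Pool.Agent.PP.KF
open Pool.Agent.PP.K9 Pool.Agent.PP.K9.H97 Pool.Agent.PP.H75 Pool.Agent.PP.T3 Pool.Agent.PP.SO
open Pool.Agent.PP.SD

attribute [local instance] Ideal.Quotient.field

section gram

variable {V₀ X : Type} [CommGroup V₀] [DecidableEq V₀]

theorem gram_calc (K : Finset V₀) (SS : Finset (MulAut V₀))
    (hst : ∀ τ ∈ SS, ∀ x ∈ K, τ x ∈ K) (FI : Finset X) (v : X → V₀ → ℂ) (β β' : X → ℤ)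
    (p p' : V₀ → ℂ) (l : ℕ) (hp : p 1 = 1)
    (hβ : ∀ χ ∈ FI, (l : ℂ) * β χ = ∑ y ∈ K.erase 1, v χ y * (starRingEnd ℂ (p y) - 1))
    (hβ' : ∀ χ ∈ FI, (l : ℂ) * β' χ = ∑ y ∈ K.erase 1, v χ y * (starRingEnd ℂ (p' y) - 1))
    (hv : ∀ x ∈ K.erase 1, ∀ y ∈ K.erase 1, ∑ χ ∈ FI, v χ x * starRingEnd ℂ (v χ y) =
      l * ∑ τ ∈ SS, if τ x = y then (1 : ℂ) else 0) :
    (l : ℂ) ^ 2 * ∑ χ ∈ FI, (β χ : ℂ) * β' χ =
      l * ∑ τ ∈ SS, ∑ x ∈ K, (starRingEnd ℂ (p x) - 1) * (p' (τ x) - 1) := by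
  have h1 : ∀ χ ∈ FI, (l : ℂ) ^ 2 * ((β χ : ℂ) * β' χ) =
      ∑ x ∈ K.erase 1, ∑ y ∈ K.erase 1, (starRingEnd ℂ (p x) - 1) * (p' y - 1) *
        (v χ x * starRingEnd ℂ (v χ y)) := by
    intro χ hχ
    have e1 : (l : ℂ) * β' χ = ∑ y ∈ K.erase 1, starRingEnd ℂ (v χ y) * (p' y - 1) := by
      have e2 := congrArg (starRingEnd ℂ) (hβ' χ hχ)
      rw [map_mul, map_natCast, map_intCast, map_sum] at e2
      rw [e2]
      exact Finset.sum_congr rfl fun y _ => by
        rw [map_mul, map_sub, map_one, Complex.conj_conj]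
    have e3 : (l : ℂ) ^ 2 * ((β χ : ℂ) * β' χ) = (l * β χ) * (l * β' χ) := by ring
    rw [e3, hβ χ hχ, e1, Finset.sum_mul_sum]
    exact Finset.sum_congr rfl fun x _ => Finset.sum_congr rfl fun y _ => by ring
  rw [Finset.mul_sum, Finset.sum_congr rfl h1, Finset.sum_comm]
  have h2 : ∀ x ∈ K.erase 1, ∑ χ ∈ FI, ∑ y ∈ K.erase 1,
      (starRingEnd ℂ (p x) - 1) * (p' y - 1) * (v χ x * starRingEnd ℂ (v χ y)) =
      l * ∑ τ ∈ SS, (starRingEnd ℂ (p x) - 1) * (p' (τ x) - 1) := by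
    intro x hx
    rw [Finset.sum_comm]
    have h3 : ∀ y ∈ K.erase 1, ∑ χ ∈ FI,
        (starRingEnd ℂ (p x) - 1) * (p' y - 1) * (v χ x * starRingEnd ℂ (v χ y)) =
        l * ∑ τ ∈ SS, if τ x = y then (starRingEnd ℂ (p x) - 1) * (p' y - 1) else 0 := by
      intro y hy
      rw [← Finset.mul_sum, hv x hx y hy, Finset.mul_sum, Finset.mul_sum, Finset.mul_sum]
      refine Finset.sum_congr rfl fun τ _ => ?_
      split_ifs <;> ring
    rw [Finset.sum_congr rfl h3, ← Finset.mul_sum, Finset.sum_comm]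
    congr 1
    refine Finset.sum_congr rfl fun τ hτ => ?_
    have h4 : τ x ∈ K.erase 1 := by
      rw [Finset.mem_erase] at hx ⊢
      exact ⟨fun h => hx.1 ((map_eq_one_iff τ τ.injective).1 h), hst τ hτ x hx.2⟩
    rw [Finset.sum_ite_eq (K.erase 1) (τ x), if_pos h4]
  rw [Finset.sum_congr rfl h2, ← Finset.mul_sum, Finset.sum_comm]
  congr 1
  refine Finset.sum_congr rfl fun τ _ => ?_
  by_cases h1K : (1 : V₀) ∈ K
  · rw [← Finset.sum_erase_add _ _ h1K, hp, map_one, sub_self, zero_mul, add_zero]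
  · rw [Finset.erase_eq_of_notMem h1K]

end gram

section lin

variable {V₀ : Type} [CommGroup V₀] [Finite V₀]

omit [Finite V₀] in
theorem lin_pow {s : V₀ → ℂ} (hs : s ∈ lin V₀) (v : V₀) (n : ℕ) : s (v ^ n) = s v ^ n := by
  induction n with
  | zero => rw [pow_zero, pow_zero]; exact hs.1
  | succ n ih => rw [pow_succ, pow_succ, hs.2, ih]

theorem lin_norm {s : V₀ → ℂ} (hs : s ∈ lin V₀) (v : V₀) : s v * starRingEnd ℂ (s v) = 1 := by
  have h1 : s v ^ Nat.card V₀ = 1 := by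
    rw [← lin_pow hs, pow_card_eq_one', hs.1]
  have h2 : ‖s v‖ = 1 := Complex.norm_eq_one_of_pow_eq_one h1 Nat.card_pos.ne'
  rw [Complex.mul_conj, Complex.normSq_eq_norm_sq, h2]
  norm_num

theorem lin_ne {s : V₀ → ℂ} (hs : s ∈ lin V₀) (v : V₀) : s v ≠ 0 := by
  intro h
  have := lin_norm hs v
  rw [h, zero_mul] at this
  exact zero_ne_one this

omit [Finite V₀] in
theorem lk_div {W : Subgroup V₀} {s s' : V₀ → ℂ} (hs : s ∈ lk W) (hs' : s' ∈ lk W) :
    (fun v => s' v * starRingEnd ℂ (s v)) ∈ lk W := by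
  refine ⟨⟨?_, fun v w => ?_⟩, fun w hw => ?_⟩
  · show s' 1 * starRingEnd ℂ (s 1) = 1
    rw [hs.1.1, hs'.1.1, map_one, mul_one]
  · show s' (v * w) * starRingEnd ℂ (s (v * w)) = _
    rw [hs.1.2, hs'.1.2, map_mul]
    ring
  · show s' w * starRingEnd ℂ (s w) = 1
    rw [hs.2 w hw, hs'.2 w hw, map_one, mul_one]

omit [Finite V₀] in
theorem one_lk (W : Subgroup V₀) : (fun _ => (1 : ℂ)) ∈ lk W :=
  ⟨⟨rfl, fun _ _ => (mul_one 1).symm⟩, fun _ _ => rfl⟩

end lin

section fin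

variable {V₀ G : Type} [CommGroup V₀] [Group G] [Finite G] {M : Ideal (integralClosure ℤ ℂ)}
  [M.IsMaximal]

omit [M.IsMaximal] in
theorem ch_fin (B : Bk (FF M) V₀ G) (A : Subgroup V₀) : (Ch B A).Finite := by
  have := Fintype.ofFinite (B.C A)
  have h1 : (Irr (B.C A)).Finite := irr_finite'
  refine Set.Finite.of_injOn (f := fun χ : G → ℂ => fun t : B.C A => χ t) (t := Irr (B.C A)) ?_ ?_ h1
  · intro χ hχ
    exact hχ.2.1
  · intro χ hχ ψ hψ h
    funext g
    by_cases hg : g ∈ B.C A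
    · exact congrFun h ⟨g, hg⟩
    · rw [hχ.1 g hg, hψ.1 g hg]

end fin

section stab

variable {V₀ : Type} [CommGroup V₀]

theorem kW_stable (E₀ : Subgroup (MulAut V₀)) (W : Subgroup V₀) {τ : MulAut V₀}
    (hτ : τ ∈ St E₀ W) {y : V₀} (hy : y ∈ kW E₀ W) : τ y ∈ kW E₀ W := by
  have hgen : ∀ σ ∈ St E₀ W, ∀ v, σ v * v⁻¹ ∈ kW E₀ W := fun σ hσ v =>
    Subgroup.subset_closure ⟨σ, hσ, v, rfl⟩
  have h : kW E₀ W ≤ (kW E₀ W).comap (τ : V₀ ≃* V₀).toMonoidHom := by
    refine (Subgroup.closure_le _).2 ?_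
    rintro _ ⟨σ, hσ, v, rfl⟩
    show τ (σ v * v⁻¹) ∈ kW E₀ W
    have e1 : τ (σ v * v⁻¹) = ((τ * σ) v * v⁻¹) * (τ v * v⁻¹)⁻¹ := by
      rw [map_mul, map_inv, MulAut.mul_apply]
      rw [mul_inv, inv_inv]
      rw [mul_mul_mul_comm, inv_mul_cancel, mul_one]
    rw [e1]
    exact mul_mem (hgen _ (mul_mem hτ hσ) v) (inv_mem (hgen τ hτ v))
  exact h hy

end stab

section main

theorem ibv (hGEA : GeaStmt) (hGEC : GecStmt) (hVXM : VxmStmt) (hVXO : VxoStmt) : IbvStmt := by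
  classical
  intro ℓ _ M _ hℓM hℓ2 V₀ G _ _ _ _ E₀ hFq B hB W hW ν hν
  have hℓ : ℓ.Prime := Fact.out
  have hfV : Fintype V₀ := Fintype.ofFinite V₀
  obtain ⟨⟨-, -, -, a4, a5, -, -, -⟩, a8, -, -, -, -, -, -, -, -⟩ := hGEA ℓ V₀ E₀ hFq W hW
  obtain ⟨-, -, g3, -, g5, g6, g7, -, g9, -, g11, g12, -, -⟩ := hGEC ℓ V₀ E₀ hFq W hW
  obtain ⟨-, -, o3, -⟩ := hVXO ℓ M hℓM hℓ2 V₀ G E₀ hFq B hB W hW
  have hv := hVXM ℓ M hℓM hℓ2 V₀ G E₀ hFq B hB W hW
  have hℓ0 : (ℓ : ℂ) ≠ 0 := Nat.cast_ne_zero.2 hℓ.pos.ne'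
  -- the finite sets
  obtain ⟨K, hK⟩ : ∃ K : Finset V₀, ∀ x, x ∈ K ↔ x ∈ kW E₀ W :=
    ⟨(kW E₀ W : Set V₀).toFinset, fun x => by rw [Set.mem_toFinset]; exact Iff.rfl⟩
  have hKset : (kW E₀ W : Set V₀) = (K : Set V₀) := by
    ext x
    exact (hK x).symm
  have hKc : K.card = ℓ := by
    rw [← a4, ← SetLike.coe_sort_coe, Nat.card_coe_set_eq, hKset, Set.ncard_coe_finset]
  have hKs : ∀ f : V₀ → ℂ, ∑ᶠ y ∈ (kW E₀ W : Set V₀), f y = ∑ y ∈ K, f y := by
    intro f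
    rw [hKset, finsum_mem_coe_finset]
  obtain ⟨SS, hSS⟩ : ∃ SS : Finset (MulAut V₀), ∀ τ, τ ∈ SS ↔ τ ∈ St E₀ W :=
    ⟨(Set.toFinite (St E₀ W : Set (MulAut V₀))).toFinset, fun τ => by
      rw [Set.Finite.mem_toFinset]; exact Iff.rfl⟩
  have hSc : SS.card = nS E₀ W := by
    rw [nS, ← SetLike.coe_sort_coe, Nat.card_coe_set_eq, ← Set.ncard_coe_finset]
    congr 1
    ext x
    exact hSS x
  obtain ⟨LW, hLW⟩ : ∃ LW : Finset (V₀ → ℂ), ∀ s, s ∈ LW ↔ s ∈ lk W :=
    ⟨g3.toFinset, fun s => g3.mem_toFinset⟩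
  have hLset : (lk W : Set (V₀ → ℂ)) = (LW : Set (V₀ → ℂ)) := by
    ext x
    exact (hLW x).symm
  have hIv : (Iv B W ν).Finite := (ch_fin B W).subset fun χ hχ => hχ.1
  obtain ⟨FI, hFI⟩ : ∃ FI : Finset (G → ℂ), ∀ χ, χ ∈ FI ↔ χ ∈ Iv B W ν :=
    ⟨hIv.toFinset, fun s => hIv.mem_toFinset⟩
  have hFset : (Iv B W ν : Set (G → ℂ)) = (FI : Set (G → ℂ)) := by
    ext x
    exact (hFI x).symm
  have h1K : (1 : V₀) ∈ K := (hK 1).2 (one_mem _)
  have hstab : ∀ τ ∈ SS, ∀ x ∈ K, τ x ∈ K := fun τ hτ x hx =>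
    (hK _).2 (kW_stable E₀ W ((hSS τ).1 hτ) ((hK x).1 hx))
  -- orthogonality on `k`
  have horth : ∀ s ∈ lk W, ∀ s' ∈ lk W, ∑ y ∈ K, s' y * starRingEnd ℂ (s y) =
      if s' = s then (ℓ : ℂ) else 0 := by
    intro s hs s' hs'
    split_ifs with h
    · subst h
      rw [Finset.sum_congr rfl fun y _ => lin_norm hs.1 y, Finset.sum_const, hKc, nsmul_eq_mul,
        mul_one]
    · have h1 := g12 _ (lk_div hs hs') (fun h2 => h (funext fun v => by
        have h3 : s' v * starRingEnd ℂ (s v) = 1 := congrFun h2 v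
        have h4 := lin_norm hs.1 v
        have h5 : starRingEnd ℂ (s v) ≠ 0 := fun h6 => by
          rw [h6, mul_zero] at h4
          exact zero_ne_one h4
        exact mul_right_cancel₀ h5 (h3.trans h4.symm)))
      rw [hKs] at h1
      exact h1
  have honeW : (fun _ => (1 : ℂ)) ∈ lk W := one_lk W
  -- the multiplicities
  have hmex : ∀ χ : G → ℂ, ∃ m : (V₀ → ℂ) → ℕ, χ ∈ Iv B W ν →
      (∀ x, vx B χ x = ∑ᶠ μ ∈ lin V₀, (m μ : ℂ) * μ x) ∧
      (∀ τ ∈ St E₀ W, ∀ μ ∈ lin V₀, m (fun v => μ (τ v)) = m μ) ∧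
      ∀ μ ∈ lin V₀, m μ ≠ 0 → ∀ w ∈ W, μ w = nu B χ w := by
    intro χ
    by_cases hχ : χ ∈ Iv B W ν
    · obtain ⟨m, hm⟩ := (hv χ hχ.1).1
      exact ⟨m, fun _ => hm⟩
    · exact ⟨fun _ => 0, fun h => absurd h hχ⟩
  choose m hm using hmex
  obtain ⟨b, hb⟩ : ∃ b : (G → ℂ) → (V₀ → ℂ) → ℤ, ∀ χ s, b χ s =
      (m χ (fun v => ν v * s v) : ℤ) - m χ ν := ⟨_, fun _ _ => rfl⟩
  have hb1 : ∀ χ, b χ (fun _ => 1) = 0 := by
    intro χ
    rw [hb]
    have : (fun v => ν v * (1 : ℂ)) = ν := funext fun v => mul_one _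
    rw [this, sub_self]
  -- the expansion
  have hexp : ∀ χ ∈ Iv B W ν, ∀ y ∈ kW E₀ W, vx B χ y =
      ∑ s ∈ LW, (m χ (fun v => ν v * s v) : ℂ) * s y := by
    intro χ hχ y hy
    obtain ⟨h1, -, h3⟩ := hm χ hχ
    rw [h1 y]
    have hinj : Set.InjOn (fun s : V₀ → ℂ => fun v => ν v * s v) (lk W) := by
      intro s _ s' _ h
      funext v
      exact mul_left_cancel₀ (lin_ne hν.1 v) (congrFun h v)
    have h4 : ∑ᶠ μ ∈ lin V₀, (m χ μ : ℂ) * μ y =
        ∑ᶠ μ ∈ (fun s : V₀ → ℂ => fun v => ν v * s v) '' (lk W), (m χ μ : ℂ) * μ y := by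
      refine finsum_mem_inter_support_eq _ _ _ ?_
      ext μ
      constructor
      · rintro ⟨hμ, hs⟩
        refine ⟨?_, hs⟩
        have hmμ : m χ μ ≠ 0 := by
          intro h
          apply hs
          show (m χ μ : ℂ) * μ y = 0
          rw [h, Nat.cast_zero, zero_mul]
        refine ⟨fun v => μ (v * (pr ℓ E₀ W v)⁻¹), (g5 μ hμ).2, funext fun v => ?_⟩
        have e1 : μ (pr ℓ E₀ W v) = ν (pr ℓ E₀ W v) := by
          rw [h3 μ hμ hmμ _ (a8 v).1, hχ.2 _ (a8 v).1]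
        show ν v * μ (v * (pr ℓ E₀ W v)⁻¹) = μ v
        rw [← (g7 ν hν v).1, ← e1, ← hμ.2]
        congr 1
        rw [mul_comm, mul_assoc, inv_mul_cancel, mul_one]
      · rintro ⟨⟨s, hs, rfl⟩, h⟩
        exact ⟨g6 ν hν s hs, h⟩
    rw [h4, finsum_mem_image hinj, hLset, finsum_mem_coe_finset]
    refine Finset.sum_congr rfl fun s _ => ?_
    show (m χ (fun v => ν v * s v) : ℂ) * (ν y * s y) = _
    rw [hν.2 y hy, one_mul]
  have hsum0 : ∀ y ∈ kW E₀ W, y ≠ 1 → ∑ s ∈ LW, s y = 0 := by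
    intro y hy hy1
    have := g11 y hy hy1
    rwa [hLset, finsum_mem_coe_finset] at this
  have hF : ∀ χ ∈ Iv B W ν, ∀ y ∈ kW E₀ W, y ≠ 1 → vx B χ y = ∑ s ∈ LW, (b χ s : ℂ) * s y := by
    intro χ hχ y hy hy1
    have h1 : ∑ s ∈ LW, (b χ s : ℂ) * s y = ∑ s ∈ LW, (m χ (fun v => ν v * s v) : ℂ) * s y -
        (m χ ν : ℂ) * ∑ s ∈ LW, s y := by
      rw [Finset.mul_sum, ← Finset.sum_sub_distrib]
      refine Finset.sum_congr rfl fun s _ => ?_
      rw [hb]
      push_cast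
      ring
    rw [h1, hsum0 y hy hy1, mul_zero, sub_zero]
    exact hexp χ hχ y hy
  have hβ : ∀ s ∈ lk W, ∀ χ ∈ FI, (ℓ : ℂ) * b χ s =
      ∑ y ∈ K.erase 1, vx B χ y * (starRingEnd ℂ (s y) - 1) := by
    intro s hs χ hχ
    have hχ' := (hFI χ).1 hχ
    have h1 : ∑ y ∈ K.erase 1, vx B χ y * (starRingEnd ℂ (s y) - 1) =
        ∑ y ∈ K, (∑ s' ∈ LW, (b χ s' : ℂ) * s' y) * (starRingEnd ℂ (s y) - 1) := by
      rw [← Finset.sum_erase_add K _ h1K, hs.1.1, map_one, sub_self, mul_zero, add_zero]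
      refine Finset.sum_congr rfl fun y hy => ?_
      rw [Finset.mem_erase] at hy
      rw [hF χ hχ' y ((hK y).1 hy.2) hy.1]
    have h2 : ∀ y ∈ K, (∑ s' ∈ LW, (b χ s' : ℂ) * s' y) * (starRingEnd ℂ (s y) - 1) =
        ∑ s' ∈ LW, (b χ s' : ℂ) * (s' y * starRingEnd ℂ (s y) -
          s' y * starRingEnd ℂ ((fun _ : V₀ => (1 : ℂ)) y)) := by
      intro y _
      rw [Finset.sum_mul]
      refine Finset.sum_congr rfl fun s' _ => ?_
      rw [map_one]
      ring
    rw [h1, Finset.sum_congr rfl h2, Finset.sum_comm]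
    have h3 : ∀ s' ∈ LW, ∑ y ∈ K, (b χ s' : ℂ) * (s' y * starRingEnd ℂ (s y) -
          s' y * starRingEnd ℂ ((fun _ : V₀ => (1 : ℂ)) y)) =
        (if s' = s then (ℓ : ℂ) * b χ s else 0) := by
      intro s' hs'
      rw [← Finset.mul_sum, Finset.sum_sub_distrib, horth s hs s' ((hLW s').1 hs'),
        horth _ honeW s' ((hLW s').1 hs')]
      by_cases e1 : s' = fun _ => 1
      · by_cases e2 : s' = s
        · rw [if_pos e2, if_pos e1, if_pos e2, sub_self, mul_zero, ← e2, e1, hb1, Int.cast_zero,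
            mul_zero]
        · rw [if_neg e2, if_pos e1, if_neg e2, e1, hb1, Int.cast_zero, zero_mul]
      · by_cases e2 : s' = s
        · rw [if_pos e2, if_neg e1, if_pos e2, sub_zero, mul_comm, e2]
        · rw [if_neg e2, if_neg e1, if_neg e2, sub_zero, mul_zero]
    rw [Finset.sum_congr rfl h3, Finset.sum_ite_eq' LW s, if_pos ((hLW s).2 hs)]
  have hvv : ∀ x ∈ K.erase 1, ∀ y ∈ K.erase 1, ∑ χ ∈ FI, vx B χ x * starRingEnd ℂ (vx B χ y) =
      ℓ * ∑ τ ∈ SS, if τ x = y then (1 : ℂ) else 0 := by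
    intro x hx y hy
    rw [Finset.mem_erase] at hx hy
    have h1 := o3 ν hν x ((hK x).1 hx.2) hx.1 y ((hK y).1 hy.2) hy.1
    rw [hFset, finsum_mem_coe_finset] at h1
    rw [h1, Finset.sum_boole]
    congr 2
    rw [← Set.ncard_coe_finset]
    congr 1
    ext τ
    rw [Finset.mem_coe, Finset.mem_filter, hSS]
    exact Iff.rfl
  -- the inner sums
  have hin : ∀ s ∈ lk W, s ≠ (fun _ => 1) → ∀ s' ∈ lk W, s' ≠ (fun _ => 1) → ∀ τ ∈ SS,
      ∑ x ∈ K, (starRingEnd ℂ (s x) - 1) * (s' (τ x) - 1) =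
        (ℓ : ℂ) * ((if (fun v => s' (τ v)) = s then (1 : ℂ) else 0) + 1) := by
    intro s hs hs1 s' hs' hs1' τ hτ
    have hτ' := (hSS τ).1 hτ
    obtain ⟨h1, h2⟩ := g9 s' hs' τ hτ'
    have e1 : ∑ x ∈ K, (starRingEnd ℂ (s x) - 1) * (s' (τ x) - 1) =
        ∑ x ∈ K, s' (τ x) * starRingEnd ℂ (s x) - ∑ x ∈ K, s' (τ x) -
          ∑ x ∈ K, (fun _ : V₀ => (1 : ℂ)) x * starRingEnd ℂ (s x) + ∑ x ∈ K, (1 : ℂ) := by
      rw [← Finset.sum_sub_distrib, ← Finset.sum_sub_distrib, ← Finset.sum_add_distrib]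
      exact Finset.sum_congr rfl fun x _ => by ring
    have e2 := horth s hs _ h1
    have e3 := horth s hs _ honeW
    rw [if_neg (fun h => hs1 h.symm)] at e3
    have e4 := g12 _ h1 (h2 hs1').1
    rw [hKs] at e4
    rw [e1, e3, e4, e2, Finset.sum_const, hKc, nsmul_eq_mul]
    split_ifs <;> ring
  have hgram : ∀ s ∈ lk W, s ≠ (fun _ => 1) → ∀ s' ∈ lk W, s' ≠ (fun _ => 1) →
      ∑ᶠ χ ∈ Iv B W ν, b χ s * b χ s' =
        ((SS.filter (fun τ => (fun v => s' (τ v)) = s)).card : ℤ) + nS E₀ W := by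
    intro s hs hs1 s' hs' hs1'
    have h1 := gram_calc K SS hstab FI (vx B) (fun χ => b χ s) (fun χ => b χ s') s s' ℓ hs.1.1
      (hβ s hs) (hβ s' hs') hvv
    rw [Finset.sum_congr rfl (hin s hs hs1 s' hs' hs1'), ← Finset.mul_sum,
      Finset.sum_add_distrib, Finset.sum_boole, Finset.sum_const, nsmul_eq_mul, mul_one, hSc,
      ← mul_assoc, ← sq] at h1
    have h2 := mul_left_cancel₀ (pow_ne_zero 2 hℓ0) h1
    rw [hFset, finsum_mem_coe_finset]
    have h3 : (((∑ χ ∈ FI, b χ s * b χ s' : ℤ)) : ℂ) =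
        (((SS.filter (fun τ => (fun v => s' (τ v)) = s)).card : ℤ) + nS E₀ W : ℤ) := by
      push_cast
      exact h2
    exact_mod_cast h3
  refine ⟨b, ?_, ?_⟩
  · intro χ hχ
    have hLe : {s | s ∈ lk W ∧ s ≠ fun _ => 1} =
        ((LW.erase (fun _ => 1) : Finset (V₀ → ℂ)) : Set (V₀ → ℂ)) := by
      ext s
      rw [Finset.mem_coe, Finset.mem_erase, hLW]
      exact and_comm
    have hA : ∀ y ∈ kW E₀ W, y ≠ 1 → vx B χ y =
        ∑ᶠ s ∈ {s | s ∈ lk W ∧ s ≠ fun _ => 1}, (b χ s : ℂ) * s y := by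
      intro y hy hy1
      rw [hF χ hχ y hy hy1, hLe, finsum_mem_coe_finset,
        ← Finset.sum_erase_add LW _ ((hLW _).2 honeW), hb1, Int.cast_zero, zero_mul, add_zero]
    refine ⟨hA, ?_, ?_⟩
    · intro s hs τ hτ
      rw [hb, hb]
      have h1 := (hm χ hχ).2.1 τ hτ (fun v => ν v * s v) (g6 ν hν s hs)
      have h2 : (fun v => ν v * s (τ v)) = fun v => ν (τ v) * s (τ v) := by
        funext v
        rw [(g7 ν hν v).2 τ hτ]
      rw [h2, h1]
    · -- not all are zero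
      have hcard : 1 < K.card := by
        rw [hKc]
        exact hℓ.one_lt
      obtain ⟨y, hy, hy1⟩ := Finset.exists_mem_ne hcard 1
      have hyk := (hK y).1 hy
      have hyW : y ∉ W := by
        intro h
        have : y ∈ W ⊓ kW E₀ W := ⟨h, hyk⟩
        rw [a5] at this
        exact hy1 (Subgroup.mem_bot.1 this)
      have h1 := ((hv χ hχ.1).2.2 y hyW).2.2.2
      by_contra hcon
      push Not at hcon
      apply h1
      rw [hF χ hχ y hyk hy1]
      refine Finset.sum_eq_zero fun s hs => ?_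
      by_cases hs1 : s = fun _ => 1
      · rw [hs1, hb1, Int.cast_zero, zero_mul]
      · rw [hcon s ((hLW s).1 hs) hs1, Int.cast_zero, zero_mul]
  · intro s hs hs1 s' hs' hs1'
    have h1 := hgram s hs hs1 s' hs' hs1'
    refine ⟨fun ho => ?_, fun ho => ?_⟩
    · obtain ⟨τ₀, hτ₀, h2⟩ := ho
      have hc : (SS.filter (fun τ => (fun v => s' (τ v)) = s)) = {τ₀⁻¹} := by
        ext τ
        rw [Finset.mem_filter, Finset.mem_singleton, hSS]
        constructor
        · rintro ⟨h3, h4⟩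
          have h5 : (fun v => s ((τ₀ * τ) v)) = s := by
            rw [← h4]
            funext v
            show s' (τ ((τ₀ * τ) v)) = s' (τ v)
            rw [h4.symm] at h2
            have h6 := congrFun h2 (τ v)
            exact h6.symm
          by_contra hne
          have h6 : τ₀ * τ ≠ 1 := fun h => hne (eq_inv_of_mul_eq_one_right h)
          exact ((g9 s hs (τ₀ * τ) (mul_mem hτ₀ h3)).2 hs1).2 h6 h5
        · rintro rfl
          refine ⟨inv_mem hτ₀, ?_⟩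
          rw [h2]
          funext v
          show s (τ₀ (τ₀⁻¹ v)) = s v
          rw [← MulAut.mul_apply, mul_inv_cancel, MulAut.one_apply]
      rw [h1, hc, Finset.card_singleton]
      norm_num
    · have hc : (SS.filter (fun τ => (fun v => s' (τ v)) = s)) = ∅ := by
        rw [Finset.filter_eq_empty_iff]
        intro τ hτ h2
        apply ho
        refine ⟨τ⁻¹, inv_mem ((hSS τ).1 hτ), ?_⟩
        rw [← h2]
        funext v
        show s' v = s' (τ (τ⁻¹ v))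
        rw [← MulAut.mul_apply, mul_inv_cancel, MulAut.one_apply]
      rw [h1, hc, Finset.card_empty]
      norm_num

end main

end Pool.Agent.PP.SE.H76
end
end -- Pool.Agent.Helper76_ASE.IBV
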