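import Pool.Agent.Helper12_AWB.B210
import Pool.Agent.Helper12_AWB.B268

/-!
# Merged copies (generated) of the modules

* `Pool.Agent.Helper66_ML.Mn1`
* `Pool.Agent.Helper66_ML.Asm3`
* `Pool.Agent.Helper66_ML.Mn4`
* `Pool.Agent.Helper24_AT3.DVS`
* `Pool.Agent.Helper24_AT2.DZA`
* `Pool.Agent.Helper23_AT5.DZ5`
* `Pool.Agent.Helper16_ASE.YYF`
-/

set_option autoImplicit false

section -- Pool.Agent.Helper66_ML.Mn1

/-!
# Squad ML, stage 2, row MN1: the main theorem for trivial `O_ℓ(G)`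
-/

open scoped BigOperators

noncomputable section

namespace Pool.Agent.PP.ML.H66

open Pool.Agent.Helper51_AWC Pool.Agent.Helper79_WRA Pool.Agent.PP Pool.Agent.Helper98_CC
open Pool.Agent.Helper90_CC Pool.Agent.Helper97_CC

/-- MN1. -/
theorem mn1 (hA : AlbStmt) (hSel : SelStmt) (hLim : LimStmt) (hLd : LdaStmt) (hOrd : OrdStmt) :
    Mn1Stmt := by
  intro ℓ hp M hM hℓ G _ _ hop χ hχ g hg n hDV
  classical
  obtain ⟨E, hE0, hE⟩ := hOrd ℓ M hℓ _ hg
  obtain ⟨f, hfc, hfi, hf⟩ := hSel ℓ M hℓ G χ hχ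
  have hft := Fintype.ofFinite (PChain ℓ G)
  -- the numbers `z_a`
  let z : (G → ℂ) → ℂ := fun a => omega (MonoidHom.id G) a g ^ E * omF f a
  have hN : ∀ a ∈ Finset.univ.biUnion (fun d : PChain ℓ G => IR (stab d.mem)),
      ∃ N₀ : ℕ, ∀ N ≥ N₀, LD M (ℓ ^ n)
        (z a ^ ℓ ^ N - if labF M a = labF M χ then 1 else 0) := by
    intro a ha
    rw [Finset.mem_biUnion] at ha
    obtain ⟨d, -, ha⟩ := ha
    have ha' := mem_IR.1 ha
    obtain ⟨h1, h2, h3⟩ := hf d.mem d.pgroup d.chain a ha'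
    have hio : IsIntegral ℤ (omega (MonoidHom.id G) a g) := omega_IrrS_integral ha' g
    have hiz : IsIntegral ℤ (z a) := (hio.pow E).mul h1
    have hrz : red M (z a) = red M (omega (MonoidHom.id G) a g) ^ E * red M (omF f a) := by
      show red M (omega (MonoidHom.id G) a g ^ E * omF f a) = _
      rw [red_mul (hio.pow E) h1, red_pow hio]
    obtain ⟨k1, k2⟩ := hLim ℓ M hℓ n (z a) hiz
    by_cases h : labF M a = labF M χ
    · have h4 : red M (omega (MonoidHom.id G) a g) = red M (omega (MonoidHom.id G) χ g) :=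
        congrFun h g
      have h5 : red M (z a) = 1 := by
        rw [hrz, h4, hE, h2 h, one_mul]
      obtain ⟨N₀, hN₀⟩ := k2 h5
      refine ⟨N₀, fun N hN => ?_⟩
      rw [if_pos h]
      exact hN₀ N hN
    · have h5 : red M (z a) = 0 := by
        rw [hrz, h3 h, mul_zero]
      obtain ⟨N₀, hN₀⟩ := k1 h5
      refine ⟨N₀, fun N hN => ?_⟩
      rw [if_neg h, sub_zero]
      exact hN₀ N hN
  choose! N₀ hN₀ using hN
  obtain ⟨N, hNge⟩ : ∃ N : ℕ, ∀ a ∈ Finset.univ.biUnion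
      (fun d : PChain ℓ G => IR (stab d.mem)), N₀ a ≤ N :=
    ⟨Finset.sup _ N₀, fun a ha => Finset.le_sup ha⟩
  -- the sum over the chains
  have h1 : LD M (ℓ ^ n) (altF ℓ fun a => z a ^ ℓ ^ N) := by
    have h2 := H90.num_aux (M := M) H10.lls hℓ hop (ℓ ^ n) g (List.replicate (ℓ ^ N) f)
      (List.replicate (E * ℓ ^ N - 1) g) (fun h hh => by
        rw [List.eq_of_mem_replicate hh]
        exact ⟨hfc, hfi⟩) (hDV _)
    have h3 : (fun a : G → ℂ => omega (MonoidHom.id G) a g *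
        ((List.replicate (E * ℓ ^ N - 1) g).map fun b => omega (MonoidHom.id G) a b).prod *
        ((List.replicate (ℓ ^ N) f).map fun h => omF h a).prod) = fun a => z a ^ ℓ ^ N := by
      funext a
      rw [List.map_replicate, List.map_replicate, List.prod_replicate, List.prod_replicate]
      have h4 : 0 < E * ℓ ^ N := Nat.mul_pos hE0 (pow_pos hp.out.pos N)
      rw [← pow_succ', Nat.sub_add_cancel h4]
      show omega (MonoidHom.id G) a g ^ (E * ℓ ^ N) * omF f a ^ ℓ ^ N =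
        (omega (MonoidHom.id G) a g ^ E * omF f a) ^ ℓ ^ N
      rw [mul_pow, pow_mul]
    rw [h3] at h2
    exact h2
  have h2 : ∀ d : PChain ℓ G, LD M (ℓ ^ n) (∑ a ∈ IR (stab d.mem), z a ^ ℓ ^ N +
      ((-1 : ℤ) : ℂ) * (((IR (stab d.mem)).filter fun a => labF M a = labF M χ).card : ℂ)) := by
    intro d
    have h3 : ∑ a ∈ IR (stab d.mem), z a ^ ℓ ^ N +
      ((-1 : ℤ) : ℂ) * (((IR (stab d.mem)).filter fun a => labF M a = labF M χ).card : ℂ) =
      ∑ a ∈ IR (stab d.mem), (z a ^ ℓ ^ N - if labF M a = labF M χ then 1 else 0) := by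
      rw [Finset.sum_sub_distrib, Finset.sum_boole]
      push_cast
      ring
    rw [h3]
    apply H27.ld_sum hLd hℓ
    intro a ha
    have ha' : a ∈ Finset.univ.biUnion (fun d : PChain ℓ G => IR (stab d.mem)) :=
      Finset.mem_biUnion.2 ⟨d, Finset.mem_univ _, ha⟩
    exact hN₀ a ha' N (hNge a ha')
  have h3 := H27.comb (ℓ := ℓ) hLd hA hℓ hop hχ _ (-1) (by norm_num) h1 h2
  exact (hLd ℓ M hℓ).2.2.2.2 n (altSum ℓ M χ) h3

end Pool.Agent.PP.ML.H66
end
end -- Pool.Agent.Helper66_ML.Mn1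

section -- Pool.Agent.Helper66_ML.Asm3

/-!
# Squad ML: assembly, the main theorems
-/

noncomputable section

namespace Pool.Agent.PP.ML

theorem mn1_ : Mn1Stmt := H66.mn1 H62.alb sel_ (H51.lim H90.lda) H90.lda H43.ord

theorem mn2_ : Mn2Stmt := H9.mn2 mn1_ dvr_

theorem mn3_ : Mn3Stmt := H6.mn3 mn2_ exg_

theorem dex_ : DexStmt := H65x.dex

theorem exr_ : ExrStmt := H86.exr H28.lyo

theorem idq_ : IdqStmt := H10D.idq dex_ exr_

end Pool.Agent.PP.ML
end
end -- Pool.Agent.Helper66_ML.Asm3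

section -- Pool.Agent.Helper66_ML.Mn4

/-!
# Squad ML, stage 2, row MN4: elements central modulo `O_ℓ(G)`
-/

open scoped BigOperators

noncomputable section

namespace Pool.Agent.PP.ML.H66

open Pool.Agent.Helper51_AWC Pool.Agent.Helper79_WRA Pool.Agent.PP Pool.Agent.Helper98_CC
open Pool.Agent.PP.ML.H9

/-- MN4. -/
theorem mn4 (mn3 : Mn3Stmt) (idq : IdqStmt) : Mn4Stmt := by
  intro ℓ _ M _ hM G _ _ hcen χ hχ D hD A _ ρ hρ z hz
  let _ := Ideal.Quotient.field M
  have hℓ : ℓ.Prime := Fact.out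
  have hF : GoodF ℓ (FF M) := H50.fld ℓ hℓ M hM
  have hn := H75.opCore_normal (A := G) ℓ
  obtain ⟨e, he, h1, h2⟩ := H50.bid ℓ hℓ M hM G χ hχ
  set p : G →* G ⧸ opCore ℓ G := QuotientGroup.mk' (opCore ℓ G) with hp
  have hker : p.ker = opCore ℓ G := QuotientGroup.ker_mk' _
  have hsurj : Function.Surjective p := QuotientGroup.mk'_surjective (opCore ℓ G)
  have hkp : IsPGroup ℓ p.ker := by
    rw [hker]
    exact H75.opCore_isPGroup hℓ
  have hkc : p.ker ≤ Subgroup.center G := by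
    rw [hker]
    exact hcen
  have heq := H75.altSum_central H20.nls H20.brm H63.smt H94.nch
    (H50.dic H20.ibn H20.nls H20.brm) hℓ M hM hF hsurj hker hkp hkc χ hχ e he h1 h2
  have hOB : opCore ℓ (G ⧸ opCore ℓ G) = ⊥ := core_quot hsurj hker
  have main : ((Nat.card (G ⧸ opCore ℓ G) : ℤ) * ((orderOf (ρ z) : ℕ) : ℤ)) ∣
      YY ℓ (⊤ : Subgroup (G ⧸ opCore ℓ G)) (H75.push p e) := by
    apply dvd_YY hF _ _ (H75.push_isIdem hsurj he.1)
    intro f hf hef
    obtain ⟨ψ, hψ, hf1, hsum⟩ := block_sum hℓ hM hOB hf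
    rw [← hsum]
    apply mul_dvd_mul_left
    -- the central characters
    have hlabs : ∀ g : G, red M (omega (MonoidHom.id G) (fun a => ψ (p a)) g) =
        red M (omega (MonoidHom.id G) χ g) := by
      intro g
      have h3 : res M (H75.push p (clsum (FF M) ⊤ g)) ψ = labF M χ g := by
        rw [res_push hsurj hχ he h1 hf hef hψ hf1 (isCl_clsum g), H75.res_clsum g]
      by_cases hst : H10D.stZ p hkc g = ⊥
      · have hxu : ∀ u ∈ p.ker, (∃ w : G, w * g * w⁻¹ = g * u) → u = 1 := by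
          intro u hu hw
          have h4 : u ∈ H10D.stZ p hkc g := H10D.mem_stZ.2 ⟨hu, isConj_iff.2 hw⟩
          rw [hst] at h4
          exact Subgroup.mem_bot.1 h4
        rw [push_clsum hsurj hxu, H75.res_clsum (p g)] at h3
        rw [H10D.omega_comp_one hsurj hst]
        exact h3
      · obtain ⟨u, hu, hu1⟩ : ∃ u ∈ H10D.stZ p hkc g, u ≠ 1 := by
          by_contra hall
          push Not at hall
          exact hst ((Subgroup.eq_bot_iff_forall _).2 hall)
        obtain ⟨hu2, hu3⟩ := H10D.mem_stZ.1 hu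
        obtain ⟨w, hw⟩ := isConj_iff.1 hu3
        rw [push_zero hF hkp hkc hu2 hu1 hw, H75.res_zero] at h3
        by_contra hne
        apply hst
        apply H10D.stZ_bot hM hsurj hkp hkc hψ
        intro hcong
        apply hne
        have hint : IsIntegral ℤ (omega (MonoidHom.id G) (fun a => ψ (p a)) g) := by
          rw [H10D.omega_comp p hsurj hkc g ψ]
          exact (isIntegral_natCast _).mul (omega_integral _ hψ _)
        have h5 := (red_eq_iff hint isIntegral_zero).2 hcong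
        rw [h5, red_zero]
        exact h3
    have hdef := idq ℓ M hM G (G ⧸ opCore ℓ G) p hsurj hkp hkc χ hχ D hD ψ hψ hlabs
    -- the homomorphism on the quotient
    have hq : Function.Surjective (p.subgroupMap D) := p.subgroupMap_surjective D
    have hρker : (p.subgroupMap D).ker ≤ ρ.ker := by
      intro r hr
      rw [MonoidHom.mem_ker] at hr ⊢
      apply hρ
      have h4 : p (r : G) = 1 := congrArg Subtype.val hr
      rw [← hker]
      exact MonoidHom.mem_ker.2 h4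
    obtain ⟨ρ', hρ'⟩ : ∃ ρ' : (D.map p) →* A, ∀ r : D, ρ' (p.subgroupMap D r) = ρ r := by
      refine ⟨(p.subgroupMap D).liftOfSurjective hq ⟨ρ, hρker⟩, fun r => ?_⟩
      exact (p.subgroupMap D).liftOfRightInverse_comp_apply _ _ ⟨ρ, hρker⟩ r
    have h6 := mn3 ℓ M hM (G ⧸ opCore ℓ G) (by rw [hOB]; exact bot_le) ψ hψ (D.map p) hdef A ρ'
      (fun r hr => by
        rw [hOB, Subgroup.mem_bot] at hr
        have h7 : r = 1 := Subtype.ext hr
        rw [h7, map_one]) (p.subgroupMap D z) (fun d => by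
          obtain ⟨d', rfl⟩ := hq d
          rw [← map_mul, ← map_mul]
          apply Subtype.ext
          show p ((z * d' : D) : G) = p ((d' * z : D) : G)
          have h8 := hz d'
          rw [← hker] at h8
          have h9 := MonoidHom.mem_ker.1 h8
          rw [map_mul, map_mul, map_mul, map_inv, map_inv] at h9
          rw [mul_inv_eq_one, mul_inv_eq_iff_eq_mul] at h9
          rw [Subgroup.coe_mul, Subgroup.coe_mul, map_mul, map_mul]
          exact h9)
    rw [hρ', hOB, Subgroup.card_bot, mul_one] at h6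
    exact h6
  obtain ⟨s, hs⟩ := main
  rw [hs] at heq
  have hcard : (Nat.card G : ℤ) = Nat.card (opCore ℓ G) * Nat.card (G ⧸ opCore ℓ G) := by
    rw [Subgroup.card_eq_card_quotient_mul_card_subgroup (opCore ℓ G)]
    push_cast
    ring
  rw [hker] at heq
  have hne : (Nat.card G : ℤ) ≠ 0 := by exact_mod_cast (Nat.card_pos (α := G)).ne'
  have hfin : altSum ℓ M χ = (Nat.card (opCore ℓ G) : ℤ) * (((orderOf (ρ z) : ℕ) : ℤ) * s) := by
    apply mul_left_cancel₀ hne
    rw [heq]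
    rw [hcard]
    ring
  rw [hfin]
  push_cast
  exact ⟨s, by ring⟩

end Pool.Agent.PP.ML.H66

namespace Pool.Agent.PP.ML

theorem mn4_ : Mn4Stmt := H66.mn4 mn3_ idq_

end Pool.Agent.PP.ML
end
end -- Pool.Agent.Helper66_ML.Mn4

section -- Pool.Agent.Helper24_AT3.DVS

/-!
# Squad AT3, row DVS: `V` is a defect group of the characters in `e`; `ℓ` divides the alternating sum
-/

open scoped BigOperators

noncomputable section

namespace Pool.Agent.PP.T3.H24

open Pool.Agent.Helper51_AWC Pool.Agent.Helper79_WRA Pool.Agent.PP Pool.Agent.PP.KF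
open Pool.Agent.PP.K9 Pool.Agent.PP.K9.H97 Pool.Agent.PP.H75 Pool.Agent.Helper98_CC

attribute [local instance] Ideal.Quotient.field

/-- maximal good `ℓ`-subgroups are defect groups -/
theorem isDef_of_tp {ℓ : ℕ} [Fact ℓ.Prime] {M : Ideal (integralClosure ℤ ℂ)} [M.IsMaximal]
    (hM : (ℓ : integralClosure ℤ ℂ) ∈ M) {G : Type} [Group G] [Finite G] {e : G → FF M}
    (he : IsBlk e) {V : Subgroup G} (hV : Tp ℓ e V) {χ : G → ℂ} (hχ : χ ∈ Irr G)
    (h1 : res M e χ = 1) : ML.IsDef ℓ M χ V := by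
  have := Fintype.ofFinite G
  have hℓ : ℓ.Prime := Fact.out
  have hF : GoodF ℓ (FF M) := H50.fld ℓ hℓ M hM
  have key : ∀ y : G, ¬ Cong M (omega (MonoidHom.id G) χ y) 0 ↔
      res M (clsum (FF M) (⊤ : Subgroup G) y) χ ≠ 0 := by
    intro y
    rw [H50.res_clsum, labF, ← red_eq_iff (omega_integral _ hχ y) isIntegral_zero, red_zero]
  refine ⟨hV.pg, ?_, ?_⟩
  · obtain ⟨-, -, y, hy, -, hnd, c, hc, hcy⟩ := K9.H69.fmg ℓ M hM G e he V hV
    refine ⟨y, ?_, ?_, hnd⟩
    · rw [key]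
      intro h0
      have hk := H50.isCl_clsum (F := FF M) y
      have h2 := congrArg (fun f => res M f χ) hcy
      rw [H50.res_mul (H50.isCl_mulF hc hk) he.1.1 hχ, H50.res_mul hc hk hχ, h0, h1, mul_zero,
        zero_mul] at h2
      exact zero_ne_one h2
    · intro v hv
      rw [Subgroup.mem_centralizer_singleton_iff]
      exact Subgroup.mem_centralizer_iff.1 hy v hv
  · intro y hy
    rw [key] at hy
    have hk := H50.isCl_clsum (F := FF M) y
    rcases H50.blk_dich he hk with ⟨n, hn⟩ | ⟨c, hc, hcy⟩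
    · exfalso
      have h2 := (H50.res_iterate hk he.1.1 hχ n).2
      rw [hn, H50.res_zero, h1, mul_one] at h2
      exact hy (eq_zero_of_pow_eq_zero h2.symm)
    · obtain ⟨r, hr⟩ := K9.H69.below hF he.1.1 hc hcy hV.pg hV.gd
      refine ⟨r, fun d hd => ?_⟩
      have h3 : r * d * r⁻¹ ∈ conjS r V := by
        rw [mem_conjS]
        have h4 : r⁻¹ * (r * d * r⁻¹) * r = d := by group
        rwa [h4]
      exact Subgroup.mem_centralizer_singleton_iff.1 (hr h3)

theorem dvs : DvsStmt := by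
  intro ℓ _ M _ hM G _ _ hO e V γ hL hV χ hχ h1
  have hD := isDef_of_tp hM hL.blk hL.tp hχ h1
  refine ⟨hD, ?_⟩
  have hℓ : ℓ.Prime := Fact.out
  have hdv : ℓ ∣ Nat.card V := by
    obtain ⟨n, hn⟩ := (IsPGroup.iff_card (p := ℓ) (G := V)).1 hL.tp.pg
    rw [hn]
    refine dvd_pow_self ℓ ?_
    rintro rfl
    apply hV
    rw [pow_zero] at hn
    exact Subgroup.card_eq_one.1 hn
  obtain ⟨z, hz⟩ := exists_prime_orderOf_dvd_card' ℓ hdv
  let A : CommGroup V := { (inferInstance : Group V) with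
    mul_comm := fun a b => Subtype.ext (hL.ab a a.2 b b.2) }
  have h2 := ML.mn4_ ℓ M hM G (by rw [hO]; exact bot_le) χ hχ V hD V (MonoidHom.id V) (by
      intro r hr
      rw [hO, Subgroup.mem_bot] at hr
      exact Subtype.ext hr) z (by
      intro d
      rw [hO, Subgroup.mem_bot, hL.ab z z.2 d d.2]
      group)
  rw [MonoidHom.id_apply, hz, hO, Subgroup.card_bot, mul_one] at h2
  exact h2

end Pool.Agent.PP.T3.H24
end
end -- Pool.Agent.Helper24_AT3.DVS

section -- Pool.Agent.Helper24_AT2.DZA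

/-!
# Squad AT2, row DZA: the defect group modulo `O_ℓ(G)`
-/

open scoped BigOperators

noncomputable section

namespace Pool.Agent.PP.T2.H24

open Pool.Agent.Helper51_AWC Pool.Agent.Helper79_WRA Pool.Agent.PP Pool.Agent.PP.KF
open Pool.Agent.PP.K9 Pool.Agent.PP.K9.H97 Pool.Agent.PP.H75 Pool.Agent.PP.T3
open Pool.Agent.Helper98_CC

attribute [local instance] Ideal.Quotient.field

/-- a defect group in the sense of `IsDef` is a good `ℓ`-subgroup of maximal order -/
theorem tp_of_isDef {ℓ : ℕ} [Fact ℓ.Prime] {M : Ideal (integralClosure ℤ ℂ)} [M.IsMaximal]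
    (hM : (ℓ : integralClosure ℤ ℂ) ∈ M) {G : Type} [Group G] [Finite G] {e : G → FF M}
    (he : IsBlk e) {χ : G → ℂ} (hχ : χ ∈ Irr G) (h1 : res M e χ = 1) {D : Subgroup G}
    (hD : ML.IsDef ℓ M χ D) : Tp ℓ e D := by
  -- a good subgroup of maximal order
  have hne : {Q : Subgroup G | IsPGroup ℓ Q ∧ Gd e Q}.Nonempty := by
    refine ⟨⊥, IsPGroup.of_bot, ?_⟩
    obtain ⟨z, hz⟩ : ∃ z, e z ≠ 0 := by
      by_contra hcon
      push Not at hcon
      exact he.2.1 (funext hcon)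
    refine ⟨z, ?_, hz⟩
    rw [Subgroup.mem_centralizer_iff]
    intro x hx
    have hx1 : x = 1 := hx
    rw [hx1, one_mul, mul_one]
  obtain ⟨V, hV, hmax⟩ := Set.exists_max_image {Q : Subgroup G | IsPGroup ℓ Q ∧ Gd e Q}
    (fun Q => Nat.card Q) (Set.toFinite _) hne
  have hTp : Tp ℓ e V := ⟨hV.1, hV.2, fun Q h2 h3 => hmax Q ⟨h2, h3⟩⟩
  have hVd := T3.H24.isDef_of_tp hM he hTp hχ h1
  have pconj : ∀ (g : G) (Q : Subgroup G), IsPGroup ℓ Q → IsPGroup ℓ (conjS g Q) := by
    intro g Q hQ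
    exact hQ.of_equiv (Q.equivMapOfInjective (MulAut.conj g).toMonoidHom (MulAut.conj g).injective)
  have hcen : ∀ (g : G) (Q : Subgroup G) (y : G), (∀ d ∈ Q, g * d * g⁻¹ * y = y * (g * d * g⁻¹)) →
      conjS g Q ≤ Subgroup.centralizer ({y} : Set G) := by
    intro g Q y h x hx
    rw [mem_conjS] at hx
    rw [Subgroup.mem_centralizer_singleton_iff]
    have h2 := h _ hx
    have h3 : g * (g⁻¹ * x * g) * g⁻¹ = x := by group
    rwa [h3] at h2
  obtain ⟨yD, hyD1, hyD2, hyD3⟩ := hD.2.1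
  obtain ⟨yV, hyV1, hyV2, hyV3⟩ := hVd.2.1
  obtain ⟨g, hg⟩ := hD.2.2 yV hyV1
  obtain ⟨g', hg'⟩ := hVd.2.2 yD hyD1
  obtain ⟨c, -, hc⟩ := K9.H69.conj_le hyV2 (hcen g D yV hg) hVd.1 hyV3 (pconj g D hD.1)
  obtain ⟨c', -, hc'⟩ := K9.H69.conj_le hyD2 (hcen g' V yD hg') hD.1 hyD3 (pconj g' V hVd.1)
  have hle1 : Nat.card D ≤ Nat.card V := by
    have := Nat.card_le_card_of_injective (Subgroup.inclusion hc) (Subgroup.inclusion_injective hc)
    rwa [K9.H69.card_conj, K9.H69.card_conj] at this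
  have hle2 : Nat.card V ≤ Nat.card D := by
    have := Nat.card_le_card_of_injective (Subgroup.inclusion hc')
      (Subgroup.inclusion_injective hc')
    rwa [K9.H69.card_conj, K9.H69.card_conj] at this
  have heq : conjS g D = conjS c V :=
    Subgroup.eq_of_le_of_card_ge hc (by rw [K9.H69.card_conj, K9.H69.card_conj]; exact hle2)
  refine ⟨hD.1, ?_, ?_⟩
  · obtain ⟨z, hz, hz0⟩ := hTp.gd
    refine ⟨g⁻¹ * c * z * (g⁻¹ * c)⁻¹, ?_, ?_⟩
    · rw [Subgroup.mem_centralizer_iff]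
      intro d hd
      have h2 : g * d * g⁻¹ ∈ conjS c V := by
        rw [← heq, mem_conjS]
        have h3 : g⁻¹ * (g * d * g⁻¹) * g = d := by group
        rwa [h3]
      rw [mem_conjS] at h2
      have h4 := Subgroup.mem_centralizer_iff.1 hz _ h2
      calc d * (g⁻¹ * c * z * (g⁻¹ * c)⁻¹)
          = g⁻¹ * c * (c⁻¹ * (g * d * g⁻¹) * c * z) * (g⁻¹ * c)⁻¹ := by group
        _ = g⁻¹ * c * (z * (c⁻¹ * (g * d * g⁻¹) * c)) * (g⁻¹ * c)⁻¹ := by rw [h4]
        _ = g⁻¹ * c * z * (g⁻¹ * c)⁻¹ * d := by group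
    · rw [he.1.1]
      exact hz0
  · intro Q h2 h3
    exact (hmax Q ⟨h2, h3⟩).trans hle2

theorem dza (hPsg : PsgStmt) : DzaStmt := by
  intro ℓ _ M _ hM G _ _ hcen χ hχ D hD hDc e he h1 A _ _ p hp hker
  have hℓ : ℓ.Prime := Fact.out
  have hF : GoodF ℓ (FF M) := H50.fld ℓ hℓ M hM
  have hZ : IsPGroup ℓ (opCore ℓ G) := H75.opCore_isPGroup hℓ
  have hTp := tp_of_isDef hM he hχ h1 hD
  have hf : IsBlk (push p e) := hPsg ℓ (FF M) hF G A p hp (by rw [hker]; exact hcen)
    (by rw [hker]; exact hZ) e he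
  have hZD : opCore ℓ G ≤ D := by
    have hn : (opCore ℓ G).Normal := H75.opCore_normal (A := G) ℓ
    have h2 : IsPGroup ℓ (opCore ℓ G ⊔ D : Subgroup G) := hZ.to_sup_of_normal_left hTp.pg
    obtain ⟨z, hz, hz0⟩ := hTp.gd
    have h3 : Gd e (opCore ℓ G ⊔ D) := by
      refine ⟨z, ?_, hz0⟩
      have h4 : opCore ℓ G ⊔ D ≤ Subgroup.centralizer ({z} : Set G) := by
        rw [sup_le_iff]
        constructor
        · intro x hx
          rw [Subgroup.mem_centralizer_singleton_iff]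
          exact (Subgroup.mem_center_iff.1 (hcen hx) z).symm
        · intro x hx
          rw [Subgroup.mem_centralizer_singleton_iff]
          exact Subgroup.mem_centralizer_iff.1 hz x hx
      rw [Subgroup.mem_centralizer_iff]
      intro x hx
      exact Subgroup.mem_centralizer_singleton_iff.1 (h4 hx)
    have h5 := Subgroup.eq_of_le_of_card_ge (le_sup_right : D ≤ opCore ℓ G ⊔ D) (hTp.mx _ h2 h3)
    rw [h5]
    exact le_sup_left
  have hcard : Nat.card (D.map p) * Nat.card (opCore ℓ G) = Nat.card D := by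
    rw [H6.card_map p D, hker, inf_eq_right.2 hZD]
  refine ⟨hf, hZD, hcard, ?_⟩
  have hkp : IsPGroup ℓ p.ker := by rw [hker]; exact hZ
  have hTpf : Tp ℓ (push p e) (D.map p) := by
    refine ⟨hTp.pg.map p, ?_, ?_⟩
    · exact (_root_.Pool.Agent.PP.K9.H02.pug ℓ (FF M) hF G A p hp hkp e he.1 D (by rw [hker]; exact hZD) hTp.pg).1 hTp.gd
    · intro Q' hQ' hQ'g
      have h2 : IsPGroup ℓ (Q'.comap p) := hQ'.comap_of_ker_isPGroup p hkp
      have h3 : p.ker ≤ Q'.comap p := fun x hx => by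
        rw [Subgroup.mem_comap, MonoidHom.mem_ker.1 hx]
        exact Q'.one_mem
      have h4 : (Q'.comap p).map p = Q' := Subgroup.map_comap_eq_self_of_surjective hp Q'
      have h5 := (_root_.Pool.Agent.PP.K9.H02.pug ℓ (FF M) hF G A p hp hkp e he.1 (Q'.comap p) h3 h2).2
        (by rw [h4]; exact hQ'g)
      have h6 := hTp.mx _ h2 h5
      rw [H75.card_comap hp Q', hker, ← hcard, mul_comm] at h6
      exact Nat.le_of_mul_le_mul_right h6 Nat.card_pos
  -- the block of the centraliser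
  have hbr : br (D.map p) (push p e) ≠ 0 := K9.H69.gd_br hTpf.gd
  obtain ⟨γ, hγ1, hγ2, hγ3⟩ := H46.exists_blk hbr (Subgroup.centralizer ((D.map p : Subgroup A) : Set A))
  have hBx : Bx (Subgroup.centralizer ((D.map p : Subgroup A) : Set A)) γ := ⟨hγ1, hγ2⟩
  have hIx : Ix (Subgroup.centralizer ((D.map p : Subgroup A) : Set A))
      (br (D.map p) (push p e)) :=
    ⟨fun x hx => H66.br_of_not_mem hx,
      (H20.brm ℓ (FF M) hF A (D.map p) _ hTpf.pg le_rfl (K9.H69.cent_le_norm _)).2.2 _ hf.1⟩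
  refine ⟨γ, hf, hTpf, ?_, hBx, ?_⟩
  · rintro _ ⟨a, ha, rfl⟩ _ ⟨b, hb, rfl⟩
    have h2 := hDc a ha b hb
    rw [← hker, MonoidHom.mem_ker, map_mul, map_mul, map_mul, map_inv, map_inv] at h2
    rw [mul_inv_eq_one, mul_inv_eq_iff_eq_mul] at h2
    exact h2
  · rw [hIx.comm hBx.ix]
    rcases hBx.dich' hIx with h2 | h2
    · exact h2
    · exfalso
      apply hγ3
      rw [hIx.comm hBx.ix, h2]

end Pool.Agent.PP.T2.H24
end
end -- Pool.Agent.Helper24_AT2.DZA

section -- Pool.Agent.Helper23_AT5.DZ5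

/-!
# Squad AT5, row DZ5: the defect group modulo `O_ℓ(G)`
-/

open scoped BigOperators

noncomputable section

namespace Pool.Agent.PP.T5.H23

open Pool.Agent.Helper51_AWC Pool.Agent.Helper79_WRA Pool.Agent.PP Pool.Agent.PP.KF
open Pool.Agent.PP.K9 Pool.Agent.PP.K9.H97 Pool.Agent.PP.H75 Pool.Agent.PP.T3 Pool.Agent.PP.T2
open Pool.Agent.Helper98_CC

attribute [local instance] Ideal.Quotient.field

theorem dz5 (hPsg : T3.PsgStmt) : Dz5Stmt := by
  intro ℓ _ M _ hM G _ _ hcen χ hχ D hD e he h1 A _ _ p hp hker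
  have hℓ : ℓ.Prime := Fact.out
  have hF : GoodF ℓ (FF M) := H50.fld ℓ hℓ M hM
  have hZ : IsPGroup ℓ (opCore ℓ G) := H75.opCore_isPGroup hℓ
  have hTp := T2.H24.tp_of_isDef hM he hχ h1 hD
  have hf : IsBlk (push p e) := hPsg ℓ (FF M) hF G A p hp (by rw [hker]; exact hcen)
    (by rw [hker]; exact hZ) e he
  have hZD : opCore ℓ G ≤ D := by
    have hn : (opCore ℓ G).Normal := H75.opCore_normal (A := G) ℓ
    have h2 : IsPGroup ℓ (opCore ℓ G ⊔ D : Subgroup G) := hZ.to_sup_of_normal_left hTp.pg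
    obtain ⟨z, hz, hz0⟩ := hTp.gd
    have h3 : Gd e (opCore ℓ G ⊔ D) := by
      refine ⟨z, ?_, hz0⟩
      have h4 : opCore ℓ G ⊔ D ≤ Subgroup.centralizer ({z} : Set G) := by
        rw [sup_le_iff]
        constructor
        · intro x hx
          rw [Subgroup.mem_centralizer_singleton_iff]
          exact (Subgroup.mem_center_iff.1 (hcen hx) z).symm
        · intro x hx
          rw [Subgroup.mem_centralizer_singleton_iff]
          exact Subgroup.mem_centralizer_iff.1 hz x hx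
      rw [Subgroup.mem_centralizer_iff]
      intro x hx
      exact Subgroup.mem_centralizer_singleton_iff.1 (h4 hx)
    have h5 := Subgroup.eq_of_le_of_card_ge (le_sup_right : D ≤ opCore ℓ G ⊔ D) (hTp.mx _ h2 h3)
    rw [h5]
    exact le_sup_left
  have hcard : Nat.card (D.map p) * Nat.card (opCore ℓ G) = Nat.card D := by
    rw [H6.card_map p D, hker, inf_eq_right.2 hZD]
  refine ⟨hf, hZD, hcard, ?_⟩
  have hkp : IsPGroup ℓ p.ker := by rw [hker]; exact hZ
  refine ⟨hTp.pg.map p, ?_, ?_⟩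
  · exact (_root_.Pool.Agent.PP.K9.H02.pug ℓ (FF M) hF G A p hp hkp e he.1 D
      (by rw [hker]; exact hZD) hTp.pg).1 hTp.gd
  · intro Q' hQ' hQ'g
    have h2 : IsPGroup ℓ (Q'.comap p) := hQ'.comap_of_ker_isPGroup p hkp
    have h3 : p.ker ≤ Q'.comap p := fun x hx => by
      rw [Subgroup.mem_comap, MonoidHom.mem_ker.1 hx]
      exact Q'.one_mem
    have h4 : (Q'.comap p).map p = Q' := Subgroup.map_comap_eq_self_of_surjective hp Q'
    have h5 := (_root_.Pool.Agent.PP.K9.H02.pug ℓ (FF M) hF G A p hp hkp e he.1 (Q'.comap p) h3 h2).2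
      (by rw [h4]; exact hQ'g)
    have h6 := hTp.mx _ h2 h5
    rw [H75.card_comap hp Q', hker, ← hcard, mul_comm] at h6
    exact Nat.le_of_mul_le_mul_right h6 Nat.card_pos

end Pool.Agent.PP.T5.H23
end
end -- Pool.Agent.Helper23_AT5.DZ5

section -- Pool.Agent.Helper16_ASE.YYF

/-!
# Squad ASE, row YYF: the theorem for block idempotents with defect groups of order `ℓ ^ 2`
-/

open scoped BigOperators

noncomputable section

namespace Pool.Agent.PP.SE.H16

open Pool.Agent.Helper51_AWC Pool.Agent.Helper79_WRA Pool.Agent.PP Pool.Agent.PP.KF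
open Pool.Agent.PP.K9 Pool.Agent.PP.K9.H97 Pool.Agent.PP.H75 Pool.Agent.PP.T3

attribute [local instance] Ideal.Quotient.field

/-- a block with a commutative defect group is a part of a datum `Ld` -/
theorem exists_ld {ℓ : ℕ} [Fact ℓ.Prime] {M : Ideal (integralClosure ℤ ℂ)} [M.IsMaximal]
    (hM : (ℓ : integralClosure ℤ ℂ) ∈ M) {G : Type} [Group G] [Finite G] {e : G → FF M}
    (he : IsBlk e) {V : Subgroup G} (hV : Tp ℓ e V) (hab : ∀ a ∈ V, ∀ b ∈ V, a * b = b * a) :
    ∃ γ : G → FF M, Ld ℓ e V γ := by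
  have hℓ : ℓ.Prime := Fact.out
  have hF : GoodF ℓ (FF M) := H50.fld ℓ hℓ M hM
  have hbr : br V e ≠ 0 := K9.H69.gd_br hV.gd
  obtain ⟨γ, hγ1, hγ2, hγ3⟩ := H46.exists_blk hbr (Subgroup.centralizer (V : Set G))
  have hBx : Bx (Subgroup.centralizer (V : Set G)) γ := ⟨hγ1, hγ2⟩
  have hIx : Ix (Subgroup.centralizer (V : Set G)) (br V e) :=
    ⟨fun x hx => H66.br_of_not_mem hx,
      (H20.brm ℓ (FF M) hF G V _ hV.pg le_rfl (K9.H69.cent_le_norm _)).2.2 _ he.1⟩
  refine ⟨γ, he, hV, hab, hBx, ?_⟩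
  rw [hIx.comm hBx.ix]
  rcases hBx.dich' hIx with h2 | h2
  · exact h2
  · exfalso
    apply hγ3
    rw [hIx.comm hBx.ix, h2]

/-- YYF -/
theorem yyf (s2f : S2fStmt) (t5a : T5.T5aStmt) : YyfStmt := by
  intro ℓ _ M _ hM h5 G _ _ e he V hV hcV
  have hℓ : ℓ.Prime := Fact.out
  have hab : ∀ a ∈ V, ∀ b ∈ V, a * b = b * a := by
    intro a ha b hb
    have h1 := (IsPGroup.isMulCommutative_of_card_eq_prime_sq (G := V) hcV).is_comm.comm
      ⟨a, ha⟩ ⟨b, hb⟩
    exact congrArg Subtype.val h1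
  by_cases hexp : ∀ v ∈ V, v ^ ℓ = 1
  · obtain ⟨γ, hγ⟩ := exists_ld hM he hV hab
    exact s2f ℓ M hM h5 G e V γ hγ hexp hcV
  · push Not at hexp
    obtain ⟨v, hv, hv1⟩ := hexp
    have hord : orderOf v = ℓ ^ 2 := by
      have h1 : orderOf v ∣ ℓ ^ 2 := by
        rw [← hcV]
        have := orderOf_dvd_natCard (⟨v, hv⟩ : V)
        rwa [Subgroup.orderOf_mk] at this
      obtain ⟨i, hi, hi'⟩ := (Nat.dvd_prime_pow hℓ).1 h1
      have h2 : ¬ i ≤ 1 := by
        intro h3
        apply hv1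
        apply orderOf_dvd_iff_pow_eq_one.1
        rw [hi']
        exact (pow_dvd_pow ℓ h3).trans (by rw [pow_one])
      have h3 : i = 2 := by omega
      rw [hi', h3]
    refine t5a ℓ M hM 2 0 0 ?_ _ e V he hV ⟨by norm_num, by norm_num, ⟨v, hv, ?_, hord⟩,
      ?_, ⟨V, le_rfl, hab, ?_⟩⟩
    · unfold T5.ep
      rw [if_neg (by omega)]
      norm_num
    · intro w hw
      exact hab w hw v hv
    · rw [hcV]
    · rw [Subgroup.relIndex_self, pow_zero]

end Pool.Agent.PP.SE.H16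
end
end -- Pool.Agent.Helper16_ASE.YYF
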