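import Pool.Agent.Helper12_AWB.B170
import Pool.Agent.Helper12_AWB.B266
import Pool.Agent.Helper12_AWB.B275

/-!
# Merged copies (generated) of the modules

* `Pool.Agent.Helper69_AT3.Flt`
* `Pool.Agent.Helper87_AT6.FN7`
-/

set_option autoImplicit false

section -- Pool.Agent.Helper69_AT3.Flt

/-!
# Squad AT3, row FLT: from characters to block idempotents
-/

open scoped BigOperators

noncomputable section

namespace Pool.Agent.PP.T3.H69

open Pool.Agent.Helper51_AWC Pool.Agent.Helper79_WRA Pool.Agent.PP Pool.Agent.PP.KF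
open Pool.Agent.PP.K9 Pool.Agent.PP.K9.H97 Pool.Agent.PP.H75

attribute [local instance] Ideal.Quotient.field

section tools

variable {H : Type} [Group H] [Finite H] {M : Ideal (integralClosure ℤ ℂ)} [hM : M.IsMaximal]

/-- transport of the residue along an automorphism -/
theorem res_comp (α : H ≃* H) {b : H → FF M} (hb : IsCl b) {θ : H → ℂ} (hθ : θ ∈ Irr H) :
    res M (fun x => b (α x)) (fun x => θ (α x)) = res M b θ := by
  classical
  have := Fintype.ofFinite H
  obtain ⟨a, ha, ea⟩ := H50.exists_lift (M := M) hb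
  have hθ' : (fun x => θ (α x)) ∈ Irr H := irr_comp_equiv α hθ
  have h1 : (fun t => Ideal.Quotient.mk M (a t)) = b := funext ea
  have h2 : (fun t => Ideal.Quotient.mk M (a (α t))) = fun x => b (α x) := by
    funext t
    exact ea (α t)
  have ha' : H50.Cl (fun t => a (α t)) := by
    intro x y
    show a (α (y * x * y⁻¹)) = a (α x)
    rw [map_mul, map_mul, map_inv]
    exact ha _ _
  rw [← h2, ← h1]
  rw [(H50.res_irr a ha hθ).1, (H50.res_irr (fun t => a (α t)) ha' hθ').1]
  congr 1
  unfold H50.om
  congr 1
  · exact Equiv.sum_comp α.toEquiv (fun t => (a t : ℂ) * θ t)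
  · show θ (α 1) = θ 1
    rw [map_one]

/-- blocks with a common character are equal -/
theorem blk_eq {b c : H → FF M} (hb : IsBlk b) (hc : IsBlk c) {θ : H → ℂ} (hθ : θ ∈ Irr H)
    (h1 : res M b θ = 1) (h2 : res M c θ = 1) : b = c := by
  have := Fintype.ofFinite H
  have hne : mulF b c ≠ 0 := by
    intro h0
    have h3 := H50.res_mul hb.1.1 hc.1.1 hθ
    rw [h0, H50.res_zero, h1, h2, mul_one] at h3
    exact zero_ne_one h3
  have h3 : mulF b c = b := (hb.2.2 c hc.1).resolve_right hne
  have hcomm : mulF b c = mulF c b := H46.mulF_comm hb.1.1 c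
  have h4 : mulF c b = c := by
    refine (hc.2.2 b hb.1).resolve_right ?_
    rw [← hcomm]
    exact hne
  rw [← h3, hcomm, h4]

end tools

/-- FLT -/
theorem flt : FltStmt := by
  intro ℓ _ M _ hM G _ _ χ hχ e he h1 D hD hab θ hθ
  have hF : GoodF ℓ (FF M) := H50.fld ℓ Fact.out M hM
  have hTp : Tp ℓ e D := T2.H24.tp_of_isDef hM he hχ h1 hD
  have hCN : Subgroup.centralizer (D : Set G) ≤ Subgroup.normalizer (D : Set G) :=
    Subgroup.centralizer_le_normalizer _
  have := Fintype.ofFinite (Subgroup.centralizer (D : Set G))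
  -- the residue of `e` on the centraliser
  have he1 : res M (fun t : Subgroup.centralizer (D : Set G) => e t) θ = 1 := by
    obtain ⟨a, ha, hax⟩ := exists_IrrS (Subgroup.centralizer (D : Set G)) hθ.1
    have hfun : (fun x : Subgroup.centralizer (D : Set G) => a x) = θ := funext hax
    have hlab : labF M a = labF M χ := by
      rw [Helper79_WRA.H83.labF_eq_iff ha (mem_IrrS_top.2 hχ)]
      intro g
      rw [omega_IrrS ha, hfun]
      exact hθ.2 g
    rw [← hfun, ← H50.res_restr ha he.1.1, H50.res_of_lab hlab, h1]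
  have hbrC : (fun t : Subgroup.centralizer (D : Set G) => br D e t) =
      fun t : Subgroup.centralizer (D : Set G) => e t := by
    funext t
    rw [H66.br_of_mem t.2]
  have hid : IsIdem (fun t : Subgroup.centralizer (D : Set G) => e t) := by
    rw [← hbrC]
    exact (H20.brm ℓ (FF M) hF G D (Subgroup.centralizer (D : Set G)) hTp.pg le_rfl hCN).2.2 e he.1
  -- the block of `θ`
  obtain ⟨b, hb, hb1⟩ := H50.exists_block (M := M) hθ.1
  have hext : (fun t : Subgroup.centralizer (D : Set G) => H75.ext0 _ b t) = b :=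
    funext (ext0_apply _ b)
  have hBx : Bx (Subgroup.centralizer (D : Set G)) (H75.ext0 _ b) := by
    refine ⟨ext0_supp _ b, ?_⟩
    rw [hext]
    exact hb
  have hund : mulF (fun t : Subgroup.centralizer (D : Set G) => e t) b = b := by
    rw [H46.mulF_comm hid.1]
    refine (hb.2.2 _ hid).resolve_right ?_
    intro h0
    have h3 := H50.res_mul hb.1.1 hid.1 hθ.1
    rw [h0, H50.res_zero, hb1, he1, mul_one] at h3
    exact zero_ne_one h3
  refine ⟨H75.ext0 _ b, ⟨he, hTp, hab, hBx, ?_⟩, ?_⟩
  · have hs : ∀ x, x ∉ Subgroup.centralizer (D : Set G) → br D e x = 0 :=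
      fun x hx => H66.br_of_not_mem hx
    apply eq_of_res (mulF_supp _ hs hBx.supp) hBx.supp
    rw [mulF_res _ _ hs, hbrC, hext, hund]
  · -- the stabiliser
    ext t
    have key : ∀ ht : t ∈ Subgroup.normalizer (D : Set G),
        (t ∈ stabF (H75.ext0 (Subgroup.centralizer (D : Set G)) b) ↔
          ∀ c c' : Subgroup.centralizer (D : Set G), (c' : G) = t * c * t⁻¹ →
            Cong M (omega (MonoidHom.id _) θ c') (omega (MonoidHom.id _) θ c)) := by
      intro ht
      have hmem : ∀ x, x ∈ Subgroup.centralizer (D : Set G) ↔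
          t * x * t⁻¹ ∈ Subgroup.centralizer (D : Set G) := fun x =>
        Subgroup.mem_normalizer_iff.1 (H79.norm_cent D ht) x
      let α : Subgroup.centralizer (D : Set G) ≃* Subgroup.centralizer (D : Set G) :=
        { toFun := fun x => ⟨t * x * t⁻¹, (hmem x).1 x.2⟩
          invFun := fun x => ⟨t⁻¹ * x * t, (hmem _).2 (by
            have h2 : t * (t⁻¹ * (x : G) * t) * t⁻¹ = x := by group
            rw [h2]
            exact x.2)⟩
          left_inv := fun x => Subtype.ext (by
            show t⁻¹ * (t * (x : G) * t⁻¹) * t = x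
            group)
          right_inv := fun x => Subtype.ext (by
            show t * (t⁻¹ * (x : G) * t) * t⁻¹ = x
            group)
          map_mul' := fun x y => Subtype.ext (by
            show t * ((x : G) * y) * t⁻¹ = t * x * t⁻¹ * (t * y * t⁻¹)
            group) }
      have hα : ∀ x, ((α x : Subgroup.centralizer (D : Set G)) : G) = t * x * t⁻¹ := fun _ => rfl
      have hθα : (fun x => θ (α x)) ∈ Irr (Subgroup.centralizer (D : Set G)) :=
        irr_comp_equiv α hθ.1
      have hbα : IsBlk (fun x => b (α x)) := H20.IsBlk_equiv α hb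
      have hstab : t ∈ stabF (H75.ext0 (Subgroup.centralizer (D : Set G)) b) ↔
          (fun x => b (α x)) = b := by
        constructor
        · intro h
          funext x
          have h2 := h (x : G)
          rw [← ext0_apply _ b (α x), hα, h2, ext0_apply]
        · intro h y
          by_cases hy : y ∈ Subgroup.centralizer (D : Set G)
          · have h2 := congrFun h ⟨y, hy⟩
            have h3 := ext0_apply _ b (α ⟨y, hy⟩)
            have h4 := ext0_apply _ b ⟨y, hy⟩
            rw [hα] at h3
            rw [h3, h4]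
            exact h2
          · rw [ext0_supp _ b y hy, ext0_supp _ b]
            exact fun h' => hy ((hmem y).2 h')
      have hlab : (∀ c c' : Subgroup.centralizer (D : Set G), (c' : G) = t * c * t⁻¹ →
            Cong M (omega (MonoidHom.id _) θ c') (omega (MonoidHom.id _) θ c)) ↔
          labF M (fun x => θ (α x)) = labF M θ := by
        have h2 : ∀ c, omega (MonoidHom.id _) (fun x => θ (α x)) c =
            omega (MonoidHom.id (Subgroup.centralizer (D : Set G))) θ (α c) := by
          intro c
          have h3 := omega_equiv (MonoidHom.id (Subgroup.centralizer (D : Set G)))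
            α.symm.toMonoidHom α (fun h => by
              have h4 : α.symm.toMonoidHom (α h) = h := α.symm_apply_apply h
              rw [h4]
              exact IsConj.refl h) θ c
          rw [h3]
          unfold omega
          congr 1
          apply finsum_congr
          intro h
          have h5 : IsConj c (α.symm.toMonoidHom h) ↔ IsConj (α c) (MonoidHom.id _ h) := by
            constructor
            · intro h6
              obtain ⟨z, hz⟩ := isConj_iff.1 h6
              refine isConj_iff.2 ⟨α z, ?_⟩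
              have h7 : α (z * c * z⁻¹) = α (α.symm.toMonoidHom h) := by rw [hz]
              rw [map_mul, map_mul, map_inv] at h7
              rw [h7]
              exact α.apply_symm_apply h
            · intro h6
              obtain ⟨z, hz⟩ := isConj_iff.1 h6
              refine isConj_iff.2 ⟨α.symm z, ?_⟩
              have h7 : α.symm (z * α c * z⁻¹) = α.symm (MonoidHom.id _ h) := by rw [hz]
              rw [map_mul, map_mul, map_inv, α.symm_apply_apply] at h7
              rw [h7]
              rfl
          rw [show (IsConj c (α.symm.toMonoidHom h)) = IsConj (α c) (MonoidHom.id _ h) from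
            propext h5]
        constructor
        · intro h
          funext c
          show red M (omega (MonoidHom.id _) (fun x => θ (α x)) c) =
            red M (omega (MonoidHom.id _) θ c)
          rw [h2, red_eq_iff (omega_integral _ hθ.1 _) (omega_integral _ hθ.1 _)]
          exact h c (α c) (hα c)
        · intro h c c' hcc
          have h5 : c' = α c := Subtype.ext (by rw [hα, hcc])
          rw [h5, ← red_eq_iff (omega_integral _ hθ.1 _) (omega_integral _ hθ.1 _), ← h2]
          exact congrFun h c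
      rw [hstab, hlab]
      constructor
      · intro h
        funext c
        rw [← H50.res_clsum]
        have h3 : res M b (fun x => θ (α x)) = 1 := by
          rw [← h, res_comp α hb.1.1 hθ.1, hb1]
        exact H50.lab_of_res hb (H50.isChar_res hθα) h3 hθ.1 hb1 c
      · intro h
        have h3 : res M b (fun x => θ (α x)) = 1 := by
          rw [H50.res_of_lab h, hb1]
        exact blk_eq hbα hb hθα (by rw [res_comp α hb.1.1 hθ.1, hb1]) h3
    constructor
    · intro ht
      exact ⟨ht.1, (key ht.1).1 ht.2⟩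
    · intro ht
      exact ⟨ht.1, (key ht.1).2 ht.2⟩

end Pool.Agent.PP.T3.H69
end
end -- Pool.Agent.Helper69_AT3.Flt

section -- Pool.Agent.Helper87_AT6.FN7

/-!
# Squad AT6, row FN7: the final theorem, the number of modular characters
-/

set_option autoImplicit false

open scoped BigOperators

noncomputable section

namespace Pool.Agent.PP.T6.H87

open Pool.Agent.Helper51_AWC Pool.Agent.Helper79_WRA Pool.Agent.PP Pool.Agent.PP.KF
open Pool.Agent.PP.K9 Pool.Agent.PP.K9.H97 Pool.Agent.PP.H75 Pool.Agent.PP.T3 Pool.Agent.PP.T2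

attribute [local instance] Ideal.Quotient.field

/-- from a defect group in the sense of `IsDef` to `Ld` -/
theorem ld_of_isDef {ℓ : ℕ} [Fact ℓ.Prime] {M : Ideal (integralClosure ℤ ℂ)} [M.IsMaximal]
    (hM : (ℓ : integralClosure ℤ ℂ) ∈ M) {G : Type} [Group G] [Finite G] {e : G → FF M}
    (he : IsBlk e) {χ : G → ℂ} (hχ : χ ∈ Irr G) (h1 : res M e χ = 1) {D : Subgroup G}
    (hD : ML.IsDef ℓ M χ D) (hab : ∀ x ∈ D, ∀ y ∈ D, x * y = y * x) :
    ∃ γ : G → FF M, Ld ℓ e D γ := by
  have hF : GoodF ℓ (FF M) := H50.fld ℓ Fact.out M hM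
  have hTp : Tp ℓ e D := T2.H24.tp_of_isDef hM he hχ h1 hD
  have hbr : br D e ≠ 0 := K9.H69.gd_br hTp.gd
  obtain ⟨γ, hγ1, hγ2, hγ3⟩ := H46.exists_blk hbr (Subgroup.centralizer (D : Set G))
  have hBx : Bx (Subgroup.centralizer (D : Set G)) γ := ⟨hγ1, hγ2⟩
  have hIx : Ix (Subgroup.centralizer (D : Set G)) (br D e) :=
    ⟨fun x hx => H66.br_of_not_mem hx,
      (H20.brm ℓ (FF M) hF G D _ hTp.pg le_rfl (K9.H69.cent_le_norm _)).2.2 _ he.1⟩
  refine ⟨γ, he, hTp, hab, hBx, ?_⟩
  rw [hIx.comm hBx.ix]
  rcases hBx.dich' hIx with h2 | h2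
  · exact h2
  · exfalso
    apply hγ3
    rw [hIx.comm hBx.ix, h2]

theorem fn7 (hLB6 : Lb6Stmt) (hDIM : DimStmt) : Fn7Stmt := by
  classical
  intro ℓ hℓ M _ hM G _ _ χ hχ D hD hab r hr
  obtain ⟨e, he, h1, -⟩ := H50.bid ℓ hℓ.out M hM G χ hχ
  obtain ⟨γ, hL⟩ := ld_of_isDef hM he hχ h1 hD hab
  obtain ⟨Q, -, hQ⟩ := hDIM ℓ M hM G e he.1
  let Q' : Fin (ln e) → G → ℂ := fun i g => if (orderOf g).Coprime ℓ then Q i g else 0
  have hle : Submodule.span ℂ {f : G → ℂ | ∃ ψ ∈ IrrBlock M (MonoidHom.id G) χ,
      f = fun g => if (orderOf g).Coprime ℓ then ψ g else 0} ≤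
      Submodule.span ℂ (Set.range Q') := by
    rw [Submodule.span_le]
    rintro f ⟨ψ, hψ, rfl⟩
    have hlab : labF M ψ = labF M χ := by
      funext c
      show red M (omega (MonoidHom.id _) ψ c) = red M (omega (MonoidHom.id _) χ c)
      rw [red_eq_iff (omega_integral _ hψ.1 _) (omega_integral _ hχ _)]
      exact hψ.2 c
    have hψe : ψ ∈ IrrE M e := ⟨hψ.1, by rw [H50.res_of_lab hlab, h1]⟩
    have h2 : (fun g => if (orderOf g).Coprime ℓ then ψ g else 0) =
        ∑ i, T5.rip ℓ ψ (Q i) • Q' i := by
      funext g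
      rw [Finset.sum_apply]
      by_cases hg : (orderOf g).Coprime ℓ
      · rw [if_pos hg, hQ ψ hψe g hg]
        refine Finset.sum_congr rfl fun i _ => ?_
        simp only [Q', Pi.smul_apply, smul_eq_mul, if_pos hg]
      · rw [if_neg hg]
        symm
        refine Finset.sum_eq_zero fun i _ => ?_
        simp only [Q', Pi.smul_apply, smul_eq_mul, if_neg hg, mul_zero]
    rw [SetLike.mem_coe, h2]
    exact Submodule.sum_mem _ fun i _ =>
      Submodule.smul_mem _ _ (Submodule.subset_span ⟨i, rfl⟩)
  have hfin : FiniteDimensional ℂ (Submodule.span ℂ (Set.range Q')) :=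
    FiniteDimensional.span_of_finite ℂ (Set.finite_range Q')
  calc Module.finrank ℂ (Submodule.span ℂ {f : G → ℂ | ∃ ψ ∈ IrrBlock M (MonoidHom.id G) χ,
        f = fun g => if (orderOf g).Coprime ℓ then ψ g else 0})
      ≤ Module.finrank ℂ (Submodule.span ℂ (Set.range Q')) := Submodule.finrank_mono hle
    _ ≤ Fintype.card (Fin (ln e)) := finrank_range_le_card Q'
    _ = ln e := Fintype.card_fin _
    _ ≤ ℓ ^ (2 * r ^ 4 + 39 * r ^ 2) := hLB6 ℓ M hM r G e D γ hL hr

end Pool.Agent.PP.T6.H87
end
end -- Pool.Agent.Helper87_AT6.FN7
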