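import Pool.Agent.Helper12_AWB.B117
import Pool.Agent.Helper12_AWB.B143
import Pool.Agent.Helper12_AWB.B168
import Pool.Agent.Helper12_AWB.B172
import Pool.Agent.Helper12_AWB.B176
import Pool.Agent.Helper12_AWB.B180
import Pool.Agent.Helper12_AWB.B184
import Pool.Agent.Helper12_AWB.B204
import Pool.Agent.Helper12_AWB.B213
import Pool.Agent.Helper12_AWB.B237
import Pool.Agent.Helper12_AWB.B239
import Pool.Agent.Helper12_AWB.B255
import Pool.Agent.Helper12_AWB.B258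
import Pool.Agent.Helper12_AWB.B262
import Pool.Agent.Helper12_AWB.B263
import Pool.Agent.Helper12_AWB.B264
import Pool.Agent.Helper12_AWB.B269
import Pool.Agent.Helper12_AWB.B276

/-!
# Merged copies (generated) of the modules

* `Pool.Agent.Helper23_AT2.DVX`
* `Pool.Agent.Helper60_AT2.PR2`
* `Pool.Agent.Helper81_AT2.TYQ`
* `Pool.Agent.Helper92_AT2.T2A`
* `Pool.Agent.Helper98_AT2.FXY`
* `Pool.Agent.Helper98_AT3.Asm3`
* `Pool.Agent.Helper98_AT2.Asm2`
-/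

set_option autoImplicit false

section -- Pool.Agent.Helper23_AT2.DVX

/-!
# Squad AT2, row DVX: the exponent of the defect group divides the alternating sum
-/

open scoped BigOperators

noncomputable section

namespace Pool.Agent.PP.T2.H23

open Pool.Agent.Helper51_AWC Pool.Agent.Helper79_WRA Pool.Agent.PP Pool.Agent.PP.KF
open Pool.Agent.PP.K9 Pool.Agent.PP.K9.H97 Pool.Agent.PP.H75 Pool.Agent.PP.T3

attribute [local instance] Ideal.Quotient.field

theorem dvx : DvxStmt := by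
  intro ℓ _ M _ hM G _ _ hO e V γ hL hV χ hχ h1 z hz
  have hD := T3.H24.isDef_of_tp hM hL.blk hL.tp hχ h1
  let A : CommGroup V := { (inferInstance : Group V) with
    mul_comm := fun a b => Subtype.ext (hL.ab a a.2 b b.2) }
  have h2 := ML.mn4_ ℓ M hM G (by rw [hO]; exact bot_le) χ hχ V hD V (MonoidHom.id V) (by
      intro r hr
      rw [hO, Subgroup.mem_bot] at hr
      exact Subtype.ext hr) ⟨z, hz⟩ (by
      intro d
      rw [hO, Subgroup.mem_bot, hL.ab z hz d d.2]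
      group)
  rw [MonoidHom.id_apply, Subgroup.orderOf_mk, hO, Subgroup.card_bot, mul_one] at h2
  exact h2

end Pool.Agent.PP.T2.H23
end
end -- Pool.Agent.Helper23_AT2.DVX

section -- Pool.Agent.Helper60_AT2.PR2

/-! Squad AT2, row PR2: existence of the exponent `N`. -/

open scoped BigOperators

noncomputable section

namespace Pool.Agent.PP.T2.H60

open Pool.Agent.Helper51_AWC Pool.Agent.Helper79_WRA Pool.Agent.PP Pool.Agent.PP.KF
open Pool.Agent.PP.K9 Pool.Agent.PP.K9.H97 Pool.Agent.PP.H75 Pool.Agent.PP.T3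

/-- the units which are one modulo an odd prime are the powers of `1 + ℓ` -/
theorem units_pow {ℓ : ℕ} (hp : ℓ.Prime) (hℓ2 : ℓ ≠ 2) (a j j' : ℕ) (hj : ¬ ℓ ∣ j)
    (hjj : j ≡ j' [MOD ℓ]) : ∃ k : ℕ, j * (1 + ℓ) ^ k ≡ j' [MOD ℓ ^ (a + 1)] := by
  have : NeZero (ℓ ^ (a + 1)) := ⟨pow_ne_zero _ hp.ne_zero⟩
  have : NeZero ℓ := ⟨hp.ne_zero⟩
  have : Fact ℓ.Prime := ⟨hp⟩
  have hd : ℓ ∣ ℓ ^ (a + 1) := dvd_pow_self ℓ (by omega)
  have hj' : ¬ ℓ ∣ j' := by
    intro h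
    exact hj ((hjj.dvd_iff (dvd_refl ℓ)).2 h)
  have hjc : Nat.Coprime j (ℓ ^ (a + 1)) :=
    Nat.Coprime.pow_right _ ((Nat.Prime.coprime_iff_not_dvd hp).2 hj).symm
  have hjc' : Nat.Coprime j' (ℓ ^ (a + 1)) :=
    Nat.Coprime.pow_right _ ((Nat.Prime.coprime_iff_not_dvd hp).2 hj').symm
  have hwc : Nat.Coprime (1 + ℓ) (ℓ ^ (a + 1)) := by
    apply Nat.Coprime.pow_right
    rw [Nat.coprime_add_self_left]
    exact Nat.coprime_one_left ℓ
  obtain ⟨u, hu⟩ := (ZMod.isUnit_iff_coprime j (ℓ ^ (a + 1))).2 hjc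
  obtain ⟨u', hu'⟩ := (ZMod.isUnit_iff_coprime j' (ℓ ^ (a + 1))).2 hjc'
  obtain ⟨w, hw⟩ := (ZMod.isUnit_iff_coprime (1 + ℓ) (ℓ ^ (a + 1))).2 hwc
  have how : orderOf w = ℓ ^ a := by
    rw [← orderOf_units, hw, Nat.cast_add, Nat.cast_one]
    exact ZMod.orderOf_one_add_prime hp hℓ2 a
  set π := ZMod.unitsMap hd with hπ
  have hval : ∀ (x : (ZMod (ℓ ^ (a + 1)))ˣ) (i : ℕ), (x : ZMod (ℓ ^ (a + 1))) = (i : ZMod (ℓ ^ (a + 1))) →
      ((π x : (ZMod ℓ)ˣ) : ZMod ℓ) = (i : ZMod ℓ) := by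
    intro x i hx
    rw [hπ, ZMod.unitsMap_val, hx]
    simp
  have hwk : w ∈ π.ker := by
    rw [MonoidHom.mem_ker]
    ext
    rw [hval w (1 + ℓ) hw]
    simp
  have hck : u' * u⁻¹ ∈ π.ker := by
    rw [MonoidHom.mem_ker, map_mul, map_inv, mul_inv_eq_one]
    ext
    rw [hval u' j' hu', hval u j hu]
    exact ((ZMod.natCast_eq_natCast_iff _ _ _).2 hjj).symm
  have hle : Subgroup.zpowers w ≤ π.ker := by
    rw [Subgroup.zpowers_le]
    exact hwk
  have hcard : Nat.card π.ker = ℓ ^ a := by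
    have h1 := Subgroup.card_mul_index π.ker
    have h2 : π.ker.index = Nat.card (ZMod ℓ)ˣ := by
      rw [Subgroup.index_ker, MonoidHom.range_eq_top.2 (ZMod.unitsMap_surjective hd)]
      exact Nat.card_congr Subgroup.topEquiv.toEquiv
    have h3 : Nat.card (ZMod ℓ)ˣ = ℓ - 1 := by
      rw [Nat.card_eq_fintype_card, ZMod.card_units]
    have h4 : Nat.card (ZMod (ℓ ^ (a + 1)))ˣ = ℓ ^ a * (ℓ - 1) := by
      rw [Nat.card_eq_fintype_card, ZMod.card_units_eq_totient, Nat.totient_prime_pow_succ hp]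
    rw [h2, h3, h4] at h1
    have h5 : 0 < ℓ - 1 := by
      have := hp.two_le
      omega
    exact Nat.eq_of_mul_eq_mul_right h5 h1
  have heq : Subgroup.zpowers w = π.ker := by
    apply Subgroup.eq_of_le_of_card_ge hle
    rw [hcard, Nat.card_zpowers, how]
  rw [← heq] at hck
  obtain ⟨k, hk⟩ := mem_powers_iff_mem_zpowers.2 hck
  refine ⟨k, ?_⟩
  rw [← ZMod.natCast_eq_natCast_iff, Nat.cast_mul, Nat.cast_pow, ← hu, ← hu', ← hw]
  have h1 : u * w ^ k = u' := by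
    have h2 : w ^ k = u' * u⁻¹ := hk
    rw [h2, mul_comm u', ← mul_assoc, mul_inv_cancel, one_mul]
  rw [← h1]
  simp

theorem pr2 : Pr2Stmt := by
  intro ℓ hℓ hℓ2 G _ _
  have hp : ℓ.Prime := hℓ.out
  set n := Nat.card G with hn
  have hn0 : n ≠ 0 := Nat.card_pos.ne'
  set a := n.factorization ℓ with ha
  set m := n / ℓ ^ a with hm
  have hnm : ℓ ^ a * m = n := Nat.ordProj_mul_ordCompl_eq_self n ℓ
  have hcop : Nat.Coprime ℓ m := Nat.coprime_ordCompl hp hn0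
  have hc2 : Nat.Coprime (ℓ ^ (a + 1)) m := Nat.Coprime.pow_left _ hcop
  obtain ⟨N, hN1, hN2⟩ := Nat.chineseRemainder hc2 (1 + ℓ) 1
  have hNl1 : Nat.Coprime N ℓ := by
    have h1 : N ≡ 1 + ℓ [MOD ℓ] := hN1.of_dvd (dvd_pow_self ℓ (by omega))
    have h2 := h1.gcd_eq
    have h3 : Nat.gcd (1 + ℓ) ℓ = 1 := by
      have : Nat.Coprime (1 + ℓ) ℓ := by
        rw [Nat.coprime_add_self_left]
        exact Nat.coprime_one_left ℓ
      exact this
    rw [h3] at h2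
    exact h2
  have hNm : Nat.Coprime N m := by
    have := hN2.gcd_eq
    rw [Nat.gcd_one_left] at this
    exact this
  have hord : ∀ y : G, El ℓ y → orderOf y ∣ ℓ ^ (a + 1) := by
    intro y hy
    obtain ⟨i, hi⟩ := hy
    have h3 : orderOf y ∣ ℓ ^ i := orderOf_dvd_of_pow_eq_one hi
    have h4 : orderOf y ∣ ℓ ^ a * m := by
      rw [hnm]
      exact orderOf_dvd_natCard y
    have h5 : Nat.Coprime (orderOf y) m :=
      Nat.Coprime.coprime_dvd_left h3 (Nat.Coprime.pow_left _ hcop)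
    exact (h5.dvd_of_dvd_mul_right h4).trans (pow_dvd_pow _ (by omega))
  refine ⟨N, ?_, ?_, ?_, ?_⟩
  · rw [← hn, ← hnm]
    exact Nat.Coprime.mul_right (Nat.Coprime.pow_right _ hNl1) hNm
  · intro g hg
    have h1 : orderOf g ∣ m := by
      have h2 : orderOf g ∣ ℓ ^ a * m := by
        rw [hnm]
        exact orderOf_dvd_natCard g
      exact (Nat.Coprime.pow_right a hg).dvd_of_dvd_mul_left h2
    have h2 : g ^ N = g ^ 1 := pow_eq_pow_iff_modEq.2 (hN2.of_dvd h1)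
    rw [h2, pow_one]
  · intro y hy
    exact pow_eq_pow_iff_modEq.2 (hN1.of_dvd (hord y hy))
  · intro j j' hj hjj
    obtain ⟨k, hk⟩ := units_pow hp hℓ2 a j j' hj hjj
    refine ⟨k, fun y hy => ?_⟩
    rw [← pow_mul]
    apply pow_eq_pow_iff_modEq.2
    have h1 : j * N ^ k ≡ j * (1 + ℓ) ^ k [MOD ℓ ^ (a + 1)] :=
      (Nat.ModEq.refl j).mul (hN1.pow k)
    exact (h1.trans hk).of_dvd (hord y hy)

end Pool.Agent.PP.T2.H60
end
end -- Pool.Agent.Helper60_AT2.PR2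

section -- Pool.Agent.Helper81_AT2.TYQ

/-!
# Squad AT2, row TYQ: the type of a quotient
-/

set_option autoImplicit false

noncomputable section

namespace Pool.Agent.PP.T2.H81

open Pool.Agent.PP.T2

/-- TYQ -/
theorem tyq : TyqStmt := by
  intro ℓ a G A _ _ _ _ V V' i i' hT hexp ⟨π, hπ⟩ hi
  refine ⟨hT.pos, hexp, lt_of_le_of_lt (Nat.card_le_card_of_surjective π hπ) hT.small, ?_⟩
  rcases hT.gen with h | ⟨x, y, hxy⟩
  · exact Or.inl (lt_of_le_of_lt hi h)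
  · right
    have hx : x ∈ V := by
      rw [hxy]
      exact Subgroup.subset_closure (by simp)
    have hy : y ∈ V := by
      rw [hxy]
      exact Subgroup.subset_closure (by simp)
    refine ⟨(π ⟨x, hx⟩ : A), (π ⟨y, hy⟩ : A), ?_⟩
    have h1 : Subgroup.closure ({⟨x, hx⟩, ⟨y, hy⟩} : Set V) = ⊤ := by
      have h2 : (Subgroup.closure ({⟨x, hx⟩, ⟨y, hy⟩} : Set V)).map V.subtype = V := by
        rw [MonoidHom.map_closure, Set.image_pair]
        exact hxy.symm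
      rw [eq_top_iff]
      intro v _
      have h3 : (v : G) ∈ (Subgroup.closure ({⟨x, hx⟩, ⟨y, hy⟩} : Set V)).map V.subtype := by
        rw [h2]
        exact v.2
      obtain ⟨w, hw, hwv⟩ := h3
      rwa [← Subtype.ext hwv]
    have h4 : (⊤ : Subgroup V).map (V'.subtype.comp π) = V' := by
      ext z
      constructor
      · rintro ⟨v, -, rfl⟩
        exact (π v).2
      · intro hz
        obtain ⟨v, hv⟩ := hπ ⟨z, hz⟩
        exact ⟨v, Subgroup.mem_top _, by rw [MonoidHom.comp_apply, hv]; rfl⟩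
    calc V' = (⊤ : Subgroup V).map (V'.subtype.comp π) := h4.symm
      _ = (Subgroup.closure ({⟨x, hx⟩, ⟨y, hy⟩} : Set V)).map (V'.subtype.comp π) := by rw [h1]
      _ = Subgroup.closure {(π ⟨x, hx⟩ : A), (π ⟨y, hy⟩ : A)} := by
        rw [MonoidHom.map_closure, Set.image_pair]
        rfl

end Pool.Agent.PP.T2.H81
end
end -- Pool.Agent.Helper81_AT2.TYQ

section -- Pool.Agent.Helper92_AT2.T2A

/-!
# Squad AT2, row T2A: the main theorem for block idempotents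
-/

open scoped BigOperators

noncomputable section

namespace Pool.Agent.PP.T2.H92

open Pool.Agent.Helper51_AWC Pool.Agent.Helper79_WRA Pool.Agent.PP Pool.Agent.PP.KF
open Pool.Agent.PP.K9 Pool.Agent.PP.K9.H97 Pool.Agent.PP.H75 Pool.Agent.PP.T3

attribute [local instance] Ideal.Quotient.field

theorem t2a (hTYQ : TyqStmt) (hFST : FstStmt) (hTES : TesStmt) (hLB2 : Lb2Stmt)
    (hDVX : DvxStmt) : T2aStmt := by
  intro ℓ hℓ M _ hM hℓ2 a
  have hF : GoodF ℓ (FF M) := H50.fld ℓ Fact.out M hM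
  suffices hmain : ∀ n : ℕ, ∀ (G : Type) [Group G] [Finite G], Nat.card G = n →
      ∀ (e : G → FF M) (V : Subgroup G) (γ : G → FF M), Ld ℓ e V γ → Ty ℓ a V (ix V γ) →
      YY ℓ ⊤ e = 0 by
    intro G _ _ e V γ h1 h2
    exact hmain _ G rfl e V γ h1 h2
  intro n
  induction n using Nat.strong_induction_on with
  | _ n ih =>
  intro G _ _ hn e V γ hL hT
  by_cases hO : opCore ℓ G = ⊥
  swap
  · exact H96.yzr ℓ (FF M) hℓ.out G ⊤ inferInstance (opCore_top_ne rfl hO) e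
  have hIh : Ih M ℓ a (Nat.card G) V (ix V γ) := by
    intro A _ _ hA f V' γ' hL' he hπ hi
    exact ih (Nat.card A) (hn ▸ hA) A rfl f V' γ' hL'
      (hTYQ ℓ a G A V V' (ix V γ) (ix V' γ') hT he hπ hi)
  obtain ⟨f, hf⟩ := hFST ℓ M hM G e V γ hL (ℓ ^ (a - 1))
  have h1 := hTES ℓ M hM G e V γ hL a hT.pos hT.exp _ rfl f hf hIh
  set U : Subgroup G := Uw (ℓ ^ (a - 1)) V with hU
  have hVX : V ≤ Subgroup.normalizer (U : Set G) := Subgroup.le_normalizer.trans hf.nle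
  have eV : V.subgroupOf (Subgroup.normalizer (U : Set G)) ≃* V :=
    Subgroup.subgroupOfEquivOfLe hVX
  have hT' : Ty ℓ a (V.subgroupOf (Subgroup.normalizer (U : Set G)))
      (ix (V.subgroupOf (Subgroup.normalizer (U : Set G)))
        (fun t : Subgroup.normalizer (U : Set G) => γ t)) := by
    refine hTYQ ℓ a G _ V _ (ix V γ) _ hT ?_ ⟨eV.symm.toMonoidHom, eV.symm.surjective⟩
      (le_of_eq hf.ix)
    rw [← hT.exp]
    exact Monoid.exponent_eq_of_mulEquiv eV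
  have h2 := hLB2 ℓ M hM hℓ2 G e V γ hL a hT
  have h3 := hLB2 ℓ M hM hℓ2 _ _ _ _ hf.ld a hT'
  obtain ⟨a1, -⟩ := H3.lbd ℓ M hM G e hL.blk.1 hL.blk.2.1
  obtain ⟨b1, -⟩ := H3.lbd ℓ M hM _ _ hf.ld.blk.1 hf.ld.blk.2.1
  have a2 : 1 ≤ ln e := a1
  have b2 : 1 ≤ ln (fun t : Subgroup.normalizer (U : Set G) => f t) := b1
  obtain ⟨z, hz⟩ : ∃ z : V, orderOf z = Monoid.exponent V := by
    let _ : CommGroup V := { (inferInstance : Group V) with
      mul_comm := fun x y => Subtype.ext (hL.ab x x.2 y y.2) }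
    exact Monoid.exists_orderOf_eq_exponent (Monoid.ExponentExists.of_finite)
  have hz' : orderOf (z : G) = ℓ ^ a := by
    rw [← hT.exp, ← hz, Subgroup.orderOf_coe]
  have hV : V ≠ ⊥ := by
    intro hb
    have h5 : (z : G) = 1 := Subgroup.mem_bot.1 (hb ▸ z.2 : (z : G) ∈ (⊥ : Subgroup G))
    rw [h5, orderOf_one] at hz'
    have h6 : 1 < ℓ ^ a := Nat.one_lt_pow hT.pos.ne' hℓ.out.one_lt
    omega
  obtain ⟨χ, hχ, r1, -, r3⟩ := H75.block_case H20.nls H20.brm H63.smt H94.nch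
    (H50.dic H20.ibn H20.nls H20.brm) H50.bid H50.chp H50.ldp H50.fld hℓ.out hM hO hL.blk
    (T3.H38.pos ℓ (FF M) hF G e hL.blk V hL.tp.pg hV hL.tp.gd)
  have h4 := hDVX ℓ M hM G hO e V γ hL hV χ hχ r1 z z.2
  rw [hz'] at h4
  rw [h1] at r3
  have h7 : (Nat.card G : ℤ) ≠ 0 := by exact_mod_cast Nat.card_pos.ne'
  have h8 := mul_left_cancel₀ h7 r3
  have h9 : (ln e : ℤ) - ln (fun t : Subgroup.normalizer (U : Set G) => f t) = 0 := by
    rw [h8] at h4
    refine Int.eq_zero_of_abs_lt_dvd h4 ?_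
    rw [abs_lt]
    push_cast
    have h2' : (ln e : ℤ) ≤ (ℓ : ℤ) ^ a := by exact_mod_cast h2
    have h3' : (ln (fun t : Subgroup.normalizer (U : Set G) => f t) : ℤ) ≤ (ℓ : ℤ) ^ a := by
      exact_mod_cast h3
    have a2' : (1 : ℤ) ≤ (ln e : ℤ) := by exact_mod_cast a2
    have b2' : (1 : ℤ) ≤ (ln (fun t : Subgroup.normalizer (U : Set G) => f t) : ℤ) := by
      exact_mod_cast b2
    constructor <;> linarith
  rw [h1, h9, mul_zero]

end Pool.Agent.PP.T2.H92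
end
end -- Pool.Agent.Helper92_AT2.T2A

section -- Pool.Agent.Helper98_AT2.FXY

/-!
# Squad AT2, row FXY
-/

open scoped BigOperators

noncomputable section

namespace Pool.Agent.PP.T2.H98

open Pool.Agent.Helper51_AWC Pool.Agent.Helper79_WRA Pool.Agent.PP Pool.Agent.PP.KF
open Pool.Agent.PP.K9 Pool.Agent.PP.K9.H97 Pool.Agent.PP.H75 Pool.Agent.PP.T3

theorem fxy (trg : T3.TrgStmt) (cyc : T3.CycStmt) (smg : T3.SmgStmt) (rot : K9.RotStmt) :
    T2.FxyStmt := by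
  intro ℓ _ M _ hM G _ _ N hN e he y hy1 hy hcj
  have := Fintype.ofFinite G
  exact T3.H98.fxy_sum trg cyc smg rot ℓ M hM G N hN e he y hy1 hy hcj

end Pool.Agent.PP.T2.H98
end
end -- Pool.Agent.Helper98_AT2.FXY

section -- Pool.Agent.Helper98_AT3.Asm3

/-!
# Squad AT3: the statements, closed
-/

noncomputable section

namespace Pool.Agent.PP.T3

theorem trg_ : TrgStmt := H23.trg
theorem cyc_ : CycStmt := H89.cyc
theorem smg_ : SmgStmt := H56.smg trg_ cyc_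
theorem fix_ : FixStmt := H98.fix trg_ cyc_ smg_ K9.rot_ K9.ada_ K9.wbo_ KF.H25.idm
theorem ari_ : AriStmt := H72.ari
theorem bes_ : BesStmt := H89.bes
theorem co1_ : Co1Stmt := H83.co1
theorem co2_ : Co2Stmt := H62.co2
theorem lsb_ : LsbStmt := H85.lsb
theorem nvt_ : NvtStmt := H85.nvt
theorem fus_ : FusStmt := H79.fus lsb_
theorem psg_ : PsgStmt := H53.psg
theorem cen_ : CenStmt := H86.cen psg_
theorem loc_ : LocStmt := H88.loc
theorem lpw_ : LpwStmt := H38.lpw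
theorem inr_ : InrStmt := H63.inr
theorem glp_ : GlpStmt := H56.glp
theorem gsm_ : GsmStmt := H76.gsm loc_ lsb_ lpw_ inr_ glp_
theorem nib_ : NibStmt := H72.nib fus_ co1_ co2_ bes_
theorem nil_ : NilStmt := H41.nil loc_ lsb_ cen_ gsm_ nib_ co1_
theorem rgl_ : RglStmt := H41.rgl loc_ lsb_ nil_
theorem brg_ : BrgStmt := H49.brg co1_ co2_ fus_ bes_ rgl_ loc_
theorem rsv_ : RsvStmt := H17.rsv
theorem nit_ : NitStmt := H41.nit loc_ lsb_ nil_ inr_ rsv_
theorem cgr_ : CgrStmt := H88.cgr rsv_ nit_ lsb_ rgl_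
theorem dgc_ : DgcStmt := H41.dgc cen_
theorem cgz_ : CgzStmt := H88.cgz cgr_ dgc_ loc_
theorem rec__ : RecStmt := H28.rec_
theorem cha_ : ChaStmt := H41.cha rec__
theorem cnt_ : CntStmt := H49.cnt
theorem dug_ : DugStmt := H3.dug
theorem lcj_ : LcjStmt := H62.lcj
theorem gch_ : GchStmt := H38.gch lcj_
theorem nst_ : NstStmt := H3.nst dug_ fus_ gch_ lcj_ lpw_
theorem dvs_ : DvsStmt := H24.dvs
theorem flt_ : FltStmt := H69.flt
theorem prm_ : PrmStmt := H49.prm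
theorem lrk_ : LrkStmt := H43.lrk K9.rot_
theorem rin_ : RinStmt := H14.rin K9.wbo_ inr_
theorem pos_ : PosStmt := H38.pos
theorem qt1_ : Qt1Stmt := H65.qt1 dug_ psg_
theorem qt2_ : Qt2Stmt := H43.qt2 psg_ gch_
theorem qtd_ : QtdStmt := H41.qtd qt1_ lcj_ qt2_
theorem lbe_ : LbeStmt := H49.lbe prm_ fix_ nst_ lrk_ rgl_ rin_ cgz_ brg_ cnt_ ari_ lsb_ K9.nz_
theorem t3a_ : T3aStmt := H41.t3a qtd_ cha_ lbe_ dvs_ pos_ nvt_
theorem fnt_ : FntStmt := H66.fnt psg_ flt_ qtd_ qt1_ t3a_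

end Pool.Agent.PP.T3
end
end -- Pool.Agent.Helper98_AT3.Asm3

section -- Pool.Agent.Helper98_AT2.Asm2

/-!
# Squad AT2: the statements, closed
-/

noncomputable section

namespace Pool.Agent.PP.T2

theorem pr2_ : Pr2Stmt := H60.pr2
theorem fxy_ : FxyStmt := H98.fxy T3.trg_ T3.cyc_ T3.smg_ K9.rot_
theorem fxs_ : FxsStmt := H67.fxs fxy_ T3.lrk_
theorem ux1_ : Ux1Stmt := H48.ux1
theorem ux2_ : Ux2Stmt := H10.ux2
theorem vjc_ : VjcStmt := H39.vjc
theorem orj_ : OrjStmt := H60.orj T3.co2_ T3.lpw_ T3.fus_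
theorem bjc_ : BjcStmt := H94.bjc T3.co1_ T3.bes_ T3.rgl_ T3.loc_ T3.lpw_ orj_ vjc_
theorem bn2_ : Bn2Stmt := H94.bn2 T3.inr_ T3.glp_ T3.lsb_ K9.nz_ T3.rgl_ bjc_
theorem stg_ : StgStmt := H81.stg T3.dug_ T3.lpw_ T3.fus_ T3.lcj_
theorem lb2_ : Lb2Stmt := H39.lb2 pr2_ ux1_ ux2_ fxs_ stg_ bn2_
theorem pwu_ : PwuStmt := H32.pwu
theorem fst_ : FstStmt := H32.fst
theorem ort_ : OrtStmt := H72.ort pwu_
theorem frs_ : FrsStmt := H83.frs
theorem tya_ : TyaStmt := H65.tya pwu_ T3.qt1_ T3.qt2_ T3.lcj_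
theorem tea_ : TeaStmt := H25.tea ort_ tya_
theorem teb_ : TebStmt := H69.teb ort_ frs_
theorem tex_ : TexStmt := H86.tex pwu_ T3.qt1_ T3.qt2_ T3.lcj_
theorem tes_ : TesStmt := H23.tes pwu_ tea_ teb_ tex_
theorem tyq_ : TyqStmt := H81.tyq
theorem dvx_ : DvxStmt := H23.dvx
theorem t2a_ : T2aStmt := H92.t2a tyq_ fst_ tes_ lb2_ dvx_
theorem dza_ : DzaStmt := H24.dza T3.psg_
theorem fn2_ : Fn2Stmt := H53.fn2 t2a_ dza_
theorem fn3_ : Fn3Stmt := H69.fn3 T3.psg_ T3.flt_ T3.qt1_ T3.lcj_ T3.qt2_ t2a_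

end Pool.Agent.PP.T2
end
end -- Pool.Agent.Helper98_AT2.Asm2
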