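import Pool.Agent.Helper12_AWB.B175
import Pool.Agent.Helper12_AWB.B212
import Pool.Agent.Helper12_AWB.B219
import Pool.Agent.Helper12_AWB.B233
import Pool.Agent.Helper12_AWB.B256
import Pool.Agent.Helper12_AWB.B277

/-!
# Merged copies (generated) of the modules

* `Pool.Agent.Helper32_ASO.HIXE`
* `Pool.Agent.Helper63_ASO.HOMR`
* `Pool.Agent.Helper65_ASO.HKB`
* `Pool.Agent.Helper97_ASO.HTA`
* `Pool.Agent.Helper66_ASO.AsmH`
-/

set_option autoImplicit false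

section -- Pool.Agent.Helper32_ASO.HIXE

/-!
# Squad ASO, row HIXE: the inertial index

Author: helper32.
-/

open scoped BigOperators

noncomputable section

namespace Pool.Agent.PP.SO.H32

open Pool.Agent.Helper51_AWC Pool.Agent.Helper79_WRA Pool.Agent.PP Pool.Agent.PP.KF
open Pool.Agent.PP.K9 Pool.Agent.PP.K9.H97 Pool.Agent.PP.H75 Pool.Agent.PP.T3

attribute [local instance] Ideal.Quotient.field

section gen

variable {V₀ G : Type} [CommGroup V₀] [Group G]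

/-- the homomorphism `T → E₀` -/
theorem exists_hom (i : V₀ →* G) (hi : Function.Injective i) (E₀ : Subgroup (MulAut V₀))
    (T : Subgroup G) (hact : ∀ t ∈ T, ∃ σ ∈ E₀, ∀ v, t * i v * t⁻¹ = i (σ v))
    (hsur : ∀ σ ∈ E₀, ∃ t ∈ T, ∀ v, t * i v * t⁻¹ = i (σ v)) :
    ∃ θ : T →* E₀, Function.Surjective θ ∧
      ∀ (t : T) (v : V₀), (t : G) * i v * (t : G)⁻¹ = i ((θ t : MulAut V₀) v) := by
  choose f hf hfv using hact
  have huniq : ∀ σ τ : MulAut V₀, (∀ v, i (σ v) = i (τ v)) → σ = τ := by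
    intro σ τ h
    ext v
    exact hi (h v)
  let θ : T →* E₀ := MonoidHom.mk' (fun t => ⟨f t.1 t.2, hf t.1 t.2⟩) (by
    intro s t
    apply Subtype.ext
    apply huniq
    intro v
    have h1 := hfv (s * t).1 (s * t).2 v
    have h2 : ((s * t : T) : G) = (s : G) * (t : G) := rfl
    have h3 : (((s * t : T) : G)) * i v * (((s * t : T) : G))⁻¹ =
        (s : G) * ((t : G) * i v * (t : G)⁻¹) * (s : G)⁻¹ := by
      rw [h2]
      group
    rw [hfv t.1 t.2 v, hfv s.1 s.2] at h3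
    exact h1.symm.trans h3)
  refine ⟨θ, ?_, fun t v => hfv t.1 t.2 v⟩
  rintro ⟨σ, hσ⟩
  obtain ⟨t, ht, htv⟩ := hsur σ hσ
  refine ⟨⟨t, ht⟩, Subtype.ext (huniq _ _ fun v => ?_)⟩
  rw [← htv v]
  exact (hfv t ht v).symm

theorem mem_cent_range (i : V₀ →* G) (t : G) :
    t ∈ Subgroup.centralizer (i.range : Set G) ↔ ∀ v, t * i v * t⁻¹ = i v := by
  rw [Subgroup.mem_centralizer_iff]
  constructor
  · intro h v
    have h1 := h (i v) ⟨v, rfl⟩
    rw [← h1]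
    group
  · rintro h _ ⟨v, rfl⟩
    have h1 := h v
    rw [mul_inv_eq_iff_eq_mul] at h1
    exact h1.symm

theorem mem_Cu_iff (u t : G) : t ∈ Cu u ↔ t * u * t⁻¹ = u := by
  rw [Subgroup.mem_centralizer_iff]
  constructor
  · intro h
    rw [← h u rfl]
    group
  · rintro h x hx
    have hx' : x = u := hx
    rw [hx']
    rw [mul_inv_eq_iff_eq_mul] at h
    exact h.symm

theorem mem_Es {E₀ : Subgroup (MulAut V₀)} {c : V₀} {σ : MulAut V₀} :
    σ ∈ Es E₀ c ↔ σ ∈ E₀ ∧ σ c = c := Iff.rfl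

theorem Es_le (E₀ : Subgroup (MulAut V₀)) (c : V₀) : Es E₀ c ≤ E₀ := fun _ h => h.1

theorem nE_mul [Finite V₀] (E₀ : Subgroup (MulAut V₀)) (c : V₀) :
    (Es E₀ c).relIndex E₀ = nE E₀ c ∧ nE E₀ c * Nat.card (Es E₀ c) = Nat.card E₀ := by
  have hfin : Finite (MulAut V₀) :=
    Finite.of_injective (fun σ : MulAut V₀ => (σ : V₀ → V₀)) DFunLike.coe_injective
  have h1 := Subgroup.relIndex_mul_relIndex ⊥ (Es E₀ c) E₀ bot_le (Es_le E₀ c)
  rw [Subgroup.relIndex_bot_left, Subgroup.relIndex_bot_left] at h1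
  have hpos : 0 < Nat.card (Es E₀ c) := Nat.card_pos
  have h2 : nE E₀ c = (Es E₀ c).relIndex E₀ := by
    unfold nE
    rw [← h1]
    exact Nat.mul_div_cancel_left _ hpos
  refine ⟨h2.symm, ?_⟩
  rw [h2, mul_comm]
  exact h1

theorem Es_reg {E₀ : Subgroup (MulAut V₀)} {c : V₀} (h : Rgl E₀ c) : Es E₀ c = ⊥ := by
  rw [eq_bot_iff]
  intro σ hσ
  exact h.2 σ hσ.1 hσ.2

end gen

theorem hixe (hinx : K9.InxStmt) : HIxeStmt := by
  intro ℓ _ M _ hℓ V₀ _ _ E₀ G _ _ B hB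
  obtain ⟨θ, hθs, hθ⟩ := exists_hom B.i hB.inj E₀ (Tg B.i.range B.g) hB.act hB.sur
  have hker : (Subgroup.centralizer (B.i.range : Set G)).subgroupOf (Tg B.i.range B.g) = θ.ker := by
    ext t
    rw [Subgroup.mem_subgroupOf, mem_cent_range, MonoidHom.mem_ker]
    constructor
    · intro h
      apply Subtype.ext
      ext v
      apply hB.inj
      rw [← hθ t v, h v]
      rfl
    · intro h v
      rw [hθ t v, h]
      rfl
  have hix : ix B.i.range B.g = Nat.card E₀ := by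
    unfold ix Subgroup.relIndex
    rw [hker, Subgroup.index_ker, MonoidHom.range_eq_top.mpr hθs, Subgroup.card_top]
  refine ⟨hix, ?_, ?_, fun c => ⟨?_, (nE_mul E₀ c).2, fun hc => ?_, fun hc => ?_⟩⟩
  · rw [← hix]
    exact hinx ℓ M hℓ G B.e hB.ld.blk B.i.range hB.ld.tp hB.ld.ab B.g hB.ld.gam.supp hB.ld.gam.blk
      hB.ld.und
  · unfold Bk.C
    rw [MonoidHom.range_eq_map]
  · have hcm : (Cu (B.i c)).subgroupOf (Tg B.i.range B.g) = ((Es E₀ c).subgroupOf E₀).comap θ := by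
      ext t
      rw [Subgroup.mem_subgroupOf, mem_Cu_iff, hθ t c, Subgroup.mem_comap, Subgroup.mem_subgroupOf,
        mem_Es]
      constructor
      · intro h
        exact ⟨(θ t).2, hB.inj h⟩
      · intro h
        rw [h.2]
    rw [← (nE_mul E₀ c).1]
    unfold Subgroup.relIndex
    rw [hcm, Subgroup.index_comap_of_surjective _ hθs]
  · refine ⟨⟨c, rfl⟩, fun h => hc.1 (hB.inj (by rw [h, map_one])), fun t ht => ?_⟩
    have h1 : (θ ⟨t, ht.1⟩ : MulAut V₀) = 1 := by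
      apply hc.2 _ (θ ⟨t, ht.1⟩).2
      apply hB.inj
      rw [← hθ ⟨t, ht.1⟩ c]
      exact (mem_Cu_iff _ _).mp ht.2
    rw [mem_cent_range]
    intro v
    rw [hθ ⟨t, ht.1⟩ v, h1]
    rfl
  · unfold nE
    rw [Es_reg hc, Subgroup.card_bot, Nat.div_one]

end Pool.Agent.PP.SO.H32
end
end -- Pool.Agent.Helper32_ASO.HIXE

section -- Pool.Agent.Helper63_ASO.HOMR

/-!
# Squad ASO, row HOMR: the residue of the central character at `f_c`
-/

open scoped BigOperators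

noncomputable section

namespace Pool.Agent.PP.SO.H63

open Pool.Agent.Helper51_AWC Pool.Agent.Helper79_WRA Pool.Agent.PP Pool.Agent.PP.KF
open Pool.Agent.PP.K9 Pool.Agent.PP.K9.H97 Pool.Agent.PP.H75 Pool.Agent.PP.T3

attribute [local instance] Ideal.Quotient.field

theorem homr (hL : HLnkStmt) (hI : HIxeStmt) (hO : K9.OmgStmt) (hR : T3.RsvStmt) : HOmrStmt := by
  intro ℓ _ M _ hM V₀ _ _ E₀ G _ _ B hB c χ hχ
  obtain ⟨h1, h2, h3⟩ := hL ℓ M hM V₀ E₀ G B hB c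
  obtain ⟨-, -, -, h4⟩ := hI ℓ M hM V₀ E₀ G B hB
  obtain ⟨h5, -⟩ := h4 c
  have hid : IsIdem (fun t : Cu (B.i c) => B.b (Subgroup.zpowers c) t) := h2.blk.2.1
  obtain ⟨-, h6⟩ := hO M G (B.i c) (fun t : Cu (B.i c) => B.b (Subgroup.zpowers c) t) hid (B.i c)
    (Subgroup.mem_zpowers _)
  obtain ⟨h7, h8⟩ := h6 χ hχ.1
  have h9 := hR ℓ M hM G B.e B.i.range B.g hB.ld (B.i c) ⟨c, rfl⟩ _ h2 χ hχ
  have h10 : cv (fc B ⊥ c) χ = Nat.card G *
      gbv (Cu (B.i c)) (B.i c) (eh M (fun t : Cu (B.i c) => B.b (Subgroup.zpowers c) t)) χ /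
        (Nat.card (Cu (B.i c)) * χ 1) := by
    rw [h3 χ hχ.1, ← h1]
    rfl
  rw [h10]
  refine ⟨h7, ?_⟩
  rw [h8, h9, h5]

end Pool.Agent.PP.SO.H63
end
end -- Pool.Agent.Helper63_ASO.HOMR

section -- Pool.Agent.Helper65_ASO.HKB

/-!
# ASO, row HKB: the number of the characters of the block is at most `ℓ ^ 2`
-/

open scoped BigOperators

noncomputable section

namespace Pool.Agent.PP.SO.H65

open Pool.Agent.Helper51_AWC Pool.Agent.Helper79_WRA Pool.Agent.PP Pool.Agent.PP.KF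
open Pool.Agent.PP.K9 Pool.Agent.PP.K9.H97 Pool.Agent.PP.H75 Pool.Agent.PP.T3

attribute [local instance] Ideal.Quotient.field

/-- a central idempotent which is not zero has a character -/
theorem irrE_nonempty (M : Ideal (integralClosure ℤ ℂ)) [M.IsMaximal] {H : Type} [Group H]
    [Finite H] {b : H → FF M} (hb : IsIdem b) (h0 : b ≠ 0) : ∃ κ, κ ∈ IrrE M b := by
  by_contra hcon
  push Not at hcon
  apply h0
  funext g
  have h1 := ((KF.H25.idm M H b hb).1 g).2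
  rw [← h1]
  have h2 : IrrE M b = ∅ := Set.eq_empty_of_forall_notMem hcon
  rw [eh, h2, finsum_mem_empty, mul_zero, rr_zero]
  rfl

/-- the numbers below `ℓ` which are prime to `ℓ` -/
theorem card_pr {ℓ : ℕ} (hℓ : ℓ.Prime) :
    ((Finset.range (ℓ ^ 1)).filter (fun j => ¬ ℓ ∣ j)).card = ℓ - 1 := by
  have h1 : (Finset.range (ℓ ^ 1)).filter (fun j => ¬ ℓ ∣ j) = (Finset.range ℓ).erase 0 := by
    ext j
    rw [pow_one, Finset.mem_filter, Finset.mem_erase, Finset.mem_range]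
    constructor
    · rintro ⟨h2, h3⟩
      refine ⟨?_, h2⟩
      rintro rfl
      exact h3 (dvd_zero ℓ)
    · rintro ⟨h2, h3⟩
      exact ⟨h3, fun h4 => absurd (Nat.le_of_dvd (Nat.pos_of_ne_zero h2) h4) (by omega)⟩
  rw [h1, Finset.card_erase_of_mem (Finset.mem_range.2 hℓ.pos), Finset.card_range]

/-- row HKB -/
theorem hkb (hlnk : HLnkStmt) (hixe : HIxeStmt) (homr : HOmrStmt) (rgl : T3.RglStmt)
    (inr : T3.InrStmt) (glp : T3.GlpStmt) (co1 : T3.Co1Stmt) (lpw : T3.LpwStmt) : HKbStmt := by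
  intro ℓ _ M _ hM V₀ _ _ hexp hcard E₀ G _ _ B hB c hc
  classical
  have hℓ : ℓ.Prime := Fact.out
  have hF : GoodF ℓ (FF M) := H50.fld ℓ hℓ M hM
  have hfin : (IrrE M B.e).Finite := T3.H49.irrE_fin M B.e
  obtain ⟨-, x2, -, x4⟩ := hixe ℓ M hM V₀ E₀ G B hB
  obtain ⟨-, -, x5, x6⟩ := x4 c
  have hRg : Rg B.i.range B.g (B.i c) := x5 hc
  obtain ⟨b, d, hLc, hDg, hn, -⟩ := rgl ℓ M hM G B.e B.i.range B.g hB.ld (B.i c) hRg
  obtain ⟨-, y2, y3⟩ := hlnk ℓ M hM V₀ E₀ G B hB c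
  have hbb : B.b (Subgroup.zpowers c) = b :=
    (T3.H88.loc ℓ (FF M) hF G B.e B.i.range B.g hB.ld (B.i c) hRg.1).2 _ _ y2 hLc
  rw [hbb] at y3
  have hV : Nat.card B.i.range = ℓ ^ 2 := by
    rw [← hcard]
    exact (Nat.card_congr (MonoidHom.ofInjective hB.inj).toEquiv).symm
  rw [hV] at hn
  obtain ⟨u, hu⟩ : ∃ u : G, u = B.i c := ⟨_, rfl⟩
  rw [← hu] at hRg hLc y3
  have hDg' : Dg M (fun t : Cu u => b t) d := by
    rw [hu]
    exact hDg
  have hn' : (IrrE M (fun t : Cu u => b t)).ncard = ℓ ^ 2 := by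
    rw [hu]
    exact hn
  have huℓ : u ^ ℓ = 1 := by
    rw [hu, ← map_pow, hexp c, map_one]
  have hd : 0 < d := hDg'.1
  have hζ := Complex.isPrimitiveRoot_exp ℓ hℓ.pos.ne'
  obtain ⟨ζ, hζe⟩ : ∃ ζ : ℂ, ζ = Complex.exp (2 * Real.pi * Complex.I / ℓ) := ⟨_, rfl⟩
  rw [← hζe] at hζ
  obtain ⟨J, hJ⟩ : ∃ J : Finset ℕ, J = (Finset.range (ℓ ^ 1)).filter (fun j => ¬ ℓ ∣ j) := ⟨_, rfl⟩
  have hJc : J.card = ℓ - 1 := by
    rw [hJ]
    exact card_pr hℓ
  -- the values are not zero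
  have hne : ∀ χ ∈ IrrE M B.e, gv M (Cu u) u b χ ≠ 0 := by
    intro χ hχ h0
    obtain ⟨-, o2⟩ := homr ℓ M hM V₀ E₀ G B hB c χ hχ
    rw [y3 χ hχ.1, h0, mul_zero, zero_div, rr_zero, x6 hc] at o2
    have := hF.char
    exact x2 ((CharP.cast_eq_zero_iff (FF M) ℓ _).1 o2.symm)
  -- the lower bound
  have key1 : ∀ χ ∈ IrrE M B.e, ((ℓ - 1 : ℕ) : ℝ) * (d : ℝ) ^ 2 ≤
      ∑ j ∈ J, Complex.normSq (gv M (Cu u) (u ^ j) b χ) := by
    intro χ hχ
    obtain ⟨m, hm⟩ := inr M G u ℓ hℓ.pos huℓ b hLc.blk.ix d hDg' ζ hζ χ hχ.1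
    have h1 : ∑ i ∈ Finset.range (ℓ ^ 1), (m i : ℂ) * ζ ^ i ≠ 0 := by
      intro h0
      apply hne χ hχ
      have h2 := hm 1
      rw [pow_one] at h2 h0
      rw [h2]
      simp_rw [mul_one]
      rw [h0, mul_zero]
    have h3 := (glp ℓ 1 one_pos ζ (by rw [pow_one]; exact hζ) m h1).1
    rw [← hJ] at h3
    have h4 : ∑ j ∈ J, Complex.normSq (gv M (Cu u) (u ^ j) b χ) = (d : ℝ) ^ 2 *
        ∑ j ∈ J, Complex.normSq (∑ i ∈ Finset.range (ℓ ^ 1), (m i : ℂ) * ζ ^ (i * j)) := by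
      rw [Finset.mul_sum]
      refine Finset.sum_congr rfl fun j _ => ?_
      rw [hm j, pow_one, Complex.normSq_mul, Complex.normSq_natCast]
      ring
    rw [h4]
    have h5 : ((ℓ ^ (1 - 1) * (ℓ - 1) : ℕ) : ℝ) = ((ℓ - 1 : ℕ) : ℝ) := by
      rw [Nat.sub_self, pow_zero, one_mul]
    rw [h5] at h3
    have h6 : (0 : ℝ) ≤ (d : ℝ) ^ 2 := sq_nonneg _
    nlinarith
  -- the upper bound
  have hIf : (Irr G).Finite := T3.H49.irr_fin G
  have key2 : ∀ j ∈ J, ∑ χ ∈ hIf.toFinset, Complex.normSq (gv M (Cu u) (u ^ j) b χ) =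
      (ℓ : ℝ) ^ 2 * (d : ℝ) ^ 2 := by
    intro j hj
    rw [hJ, Finset.mem_filter] at hj
    obtain ⟨hCu, hLj⟩ := lpw ℓ (FF M) hF G B.e B.i.range B.g hB.ld u hRg.1 b hLc j hj.2
    have h1 := co1 ℓ M hM G (u ^ j) (T3.H88.el_of_mem hB.ld.tp.pg (pow_mem hRg.1 j)) b hLj.blk.ix
    rw [hCu, finsum_mem_eq_finite_toFinset_sum _ hIf] at h1
    have hIb : (IrrE M (fun t : Cu u => b t)).Finite := T3.H49.irrE_fin M _
    have h2 : ∑ᶠ κ ∈ IrrE M (fun t : Cu u => b t), κ 1 ^ 2 = (ℓ : ℂ) ^ 2 * (d : ℂ) ^ 2 := by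
      rw [finsum_mem_congr rfl (fun κ hκ => by rw [hDg'.2 κ hκ] :
        ∀ κ ∈ IrrE M (fun t : Cu u => b t), κ 1 ^ 2 = (d : ℂ) ^ 2),
        finsum_mem_eq_finite_toFinset_sum _ hIb, Finset.sum_const,
        ← Set.ncard_eq_toFinset_card _ hIb, hn', nsmul_eq_mul]
      push_cast
      ring
    rw [h2] at h1
    have h3 : ((∑ χ ∈ hIf.toFinset, Complex.normSq (gv M (Cu u) (u ^ j) b χ) : ℝ) : ℂ) =
        (((ℓ : ℝ) ^ 2 * (d : ℝ) ^ 2 : ℝ) : ℂ) := by
      push_cast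
      rw [← h1]
      refine Finset.sum_congr rfl fun χ _ => ?_
      rw [Complex.mul_conj]
    exact_mod_cast h3
  have hsub : hfin.toFinset ⊆ hIf.toFinset := by
    intro χ hχ
    rw [Set.Finite.mem_toFinset] at hχ ⊢
    exact hχ.1
  have hmain : (hfin.toFinset.card : ℝ) * (((ℓ - 1 : ℕ) : ℝ) * (d : ℝ) ^ 2) ≤
      ((ℓ - 1 : ℕ) : ℝ) * ((ℓ : ℝ) ^ 2 * (d : ℝ) ^ 2) := by
    calc (hfin.toFinset.card : ℝ) * (((ℓ - 1 : ℕ) : ℝ) * (d : ℝ) ^ 2)
        = ∑ χ ∈ hfin.toFinset, ((ℓ - 1 : ℕ) : ℝ) * (d : ℝ) ^ 2 := by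
          rw [Finset.sum_const, nsmul_eq_mul]
      _ ≤ ∑ χ ∈ hfin.toFinset, ∑ j ∈ J, Complex.normSq (gv M (Cu u) (u ^ j) b χ) :=
          Finset.sum_le_sum fun χ hχ => key1 χ ((Set.Finite.mem_toFinset hfin).1 hχ)
      _ ≤ ∑ χ ∈ hIf.toFinset, ∑ j ∈ J, Complex.normSq (gv M (Cu u) (u ^ j) b χ) :=
          Finset.sum_le_sum_of_subset_of_nonneg hsub fun χ _ _ =>
            Finset.sum_nonneg fun j _ => Complex.normSq_nonneg _
      _ = ∑ j ∈ J, ∑ χ ∈ hIf.toFinset, Complex.normSq (gv M (Cu u) (u ^ j) b χ) :=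
          Finset.sum_comm
      _ = ∑ j ∈ J, (ℓ : ℝ) ^ 2 * (d : ℝ) ^ 2 := Finset.sum_congr rfl key2
      _ = ((ℓ - 1 : ℕ) : ℝ) * ((ℓ : ℝ) ^ 2 * (d : ℝ) ^ 2) := by
          rw [Finset.sum_const, hJc, nsmul_eq_mul]
  have hnc : (IrrE M B.e).ncard = hfin.toFinset.card := Set.ncard_eq_toFinset_card _ hfin
  refine ⟨hfin, ?_, ?_⟩
  · rw [Set.ncard_pos hfin]
    exact irrE_nonempty M hB.ld.blk.1 hB.ld.blk.2.1
  · rw [hnc]
    have hp : (0 : ℝ) < ((ℓ - 1 : ℕ) : ℝ) * (d : ℝ) ^ 2 := by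
      have h1 : 0 < ℓ - 1 := by
        have := hℓ.two_le
        omega
      have h2 : (0 : ℝ) < ((ℓ - 1 : ℕ) : ℝ) := by exact_mod_cast h1
      have h3 : (0 : ℝ) < (d : ℝ) := by exact_mod_cast hd
      positivity
    have h4 : (hfin.toFinset.card : ℝ) ≤ (ℓ : ℝ) ^ 2 := by
      refine le_of_mul_le_mul_right ?_ hp
      refine hmain.trans (le_of_eq ?_)
      ring
    exact_mod_cast h4

end Pool.Agent.PP.SO.H65
end
end -- Pool.Agent.Helper65_ASO.HKB

section -- Pool.Agent.Helper97_ASO.HTA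

/-!
# Squad ASO, row HTA: the degree of the characters of `γ`
-/

open scoped BigOperators

noncomputable section

namespace Pool.Agent.PP.SO.H97

open Pool.Agent.Helper51_AWC Pool.Agent.Helper79_WRA Pool.Agent.PP Pool.Agent.PP.KF
open Pool.Agent.PP.K9 Pool.Agent.PP.K9.H97 Pool.Agent.PP.H75 Pool.Agent.PP.T3
open Pool.Agent.PP.SO

attribute [local instance] Ideal.Quotient.field

/-- a character which vanishes at the singular elements has a degree divisible by the order of a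
Sylow subgroup -/
theorem syl_dvd (ℓ : ℕ) [Fact ℓ.Prime] (H : Type) [Group H] [Finite H] {κ : H → ℂ}
    (hκ : κ ∈ Irr H) (hv : ∀ x, ¬ Reg ℓ x → κ x = 0) :
    ∃ a : ℕ, κ 1 = ((ℓ ^ (Nat.card H).factorization ℓ * a : ℕ) : ℂ) := by
  classical
  obtain ⟨n, ρ, hρ, rfl⟩ := hκ
  obtain ⟨S⟩ : Nonempty (Sylow ℓ H) := inferInstance
  have hS := S.card_eq_multiplicity
  have := Fintype.ofFinite (S : Subgroup H)
  have hne : (Nat.card (S : Subgroup H) : ℂ) ≠ 0 := by exact_mod_cast Nat.card_pos.ne'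
  have hinv : Invertible (Nat.card (S : Subgroup H) : ℂ) := invertibleOfNonzero hne
  obtain ⟨ρ', hρ'⟩ : ∃ ρ' : Representation ℂ (S : Subgroup H) (Fin n → ℂ),
      ρ' = ρ.comp (S : Subgroup H).subtype := ⟨_, rfl⟩
  have h1 := Representation.card_inv_mul_sum_char_eq_finrank ρ'
  refine ⟨Module.finrank ℂ (Representation.invariants ρ'), ?_⟩
  have h2 : ∀ s : (S : Subgroup H), s ≠ 1 → ρ'.character s = 0 := by
    intro s hs
    have h0 : ρ'.character s = ρ.character (s : H) := by rw [hρ']; rfl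
    rw [h0]
    refine hv _ fun hr => hs ?_
    obtain ⟨k, hk⟩ := S.isPGroup' s
    have h3 : orderOf (s : H) ∣ ℓ ^ k := by
      apply orderOf_dvd_of_pow_eq_one
      have := congrArg Subtype.val hk
      simpa using this
    have h4 : Nat.Coprime (ℓ ^ k) (orderOf (s : H)) := Nat.Coprime.pow_left k (Nat.Coprime.symm hr)
    have h5 := Nat.eq_one_of_dvd_coprimes h4 h3 dvd_rfl
    exact Subtype.ext (orderOf_eq_one_iff.1 h5)
  rw [Finset.sum_eq_single_of_mem (1 : (S : Subgroup H)) (Finset.mem_univ _)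
    (fun s _ hs => h2 s hs)] at h1
  have h3 : ρ'.character 1 = ρ.character 1 := by rw [hρ']; rfl
  rw [h3, inv_mul_eq_iff_eq_mul₀ hne, hS] at h1
  rw [h1]
  push_cast
  rfl

theorem hta (psg : T3.PsgStmt) (pug : K9.PugStmt) (dzo : K9.DzoStmt) (psi : K9.PsiStmt) : HTaStmt := by
  intro ℓ hℓ M _ hM G _ _ e V γ hL d hd
  have hF : GoodF ℓ (FF M) := H50.fld ℓ Fact.out M hM
  obtain ⟨C, hC⟩ : ∃ C : Subgroup G, C = Subgroup.centralizer (V : Set G) := ⟨_, rfl⟩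
  have hVC : V ≤ C := by
    intro v hv
    rw [hC, Subgroup.mem_centralizer_iff]
    intro w hw
    exact hL.ab w hw v hv
  have hbx : Bx C γ := by rw [hC]; exact hL.gam
  have hVz : V.subgroupOf C ≤ Subgroup.center C := by
    intro v hv
    rw [Subgroup.mem_center_iff]
    intro g
    have h1 : (g : G) ∈ Subgroup.centralizer (V : Set G) := by rw [← hC]; exact g.2
    exact Subtype.ext (Subgroup.mem_centralizer_iff.1 h1 v hv).symm
  have hVcard : Nat.card (V.subgroupOf C) = Nat.card V :=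
    Nat.card_congr (Subgroup.subgroupOfEquivOfLe hVC).toEquiv
  have hbrcl : IsCl (fun t : C => br V e t) := by
    intro x y
    have h1 : ∀ t : C, br V e t = e t := fun t =>
      H66.br_of_mem (by rw [← hC]; exact t.2)
    have h2 := h1 (y * x * y⁻¹)
    have h3 := h1 x
    change br V e ((y * x * y⁻¹ : C) : G) = br V e (x : G)
    rw [h2, h3]
    exact hL.blk.1.1 _ _
  have hmul : mulF (fun t : C => br V e t) (fun t : C => γ t) = fun t : C => γ t := by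
    have hs : ∀ x, x ∉ C → br V e x = 0 := fun x hx => H66.br_of_not_mem (by rw [← hC]; exact hx)
    rw [← mulF_res C γ hs, hL.und]
  have hT : Tp ℓ (fun t : C => γ t) (V.subgroupOf C) := by
    refine ⟨hL.tp.pg.of_equiv (Subgroup.subgroupOfEquivOfLe hVC).symm, ?_, ?_⟩
    · have hne : (fun t : C => γ t) ≠ 0 := hbx.blk.2.1
      obtain ⟨t, ht⟩ := Function.ne_iff.1 hne
      refine ⟨t, ?_, ht⟩
      rw [Subgroup.mem_centralizer_iff]
      intro v hv
      exact (Subgroup.mem_center_iff.1 (hVz hv) t).symm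
    · intro Q hQ hQg
      have h1 := gd_of_mul hF hbrcl hbx.blk.1.1 hmul hQ hQg
      have h2 : Gd (fun t : C => e t) Q := by
        obtain ⟨g, hg1, hg2⟩ := h1
        refine ⟨g, hg1, ?_⟩
        change br V e (g : G) ≠ 0 at hg2
        rw [H66.br_of_mem (by rw [← hC]; exact g.2)] at hg2
        exact hg2
      have hcard : Nat.card (Q.map C.subtype) = Nat.card Q :=
        (Nat.card_congr (Q.equivMapOfInjective C.subtype C.subtype_injective).toEquiv).symm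
      have h3 := hL.tp.mx _ (hQ.map C.subtype) (gd_map h2)
      rw [hcard] at h3
      rw [hVcard]
      exact h3
  subst hC
  -- the quotient by `V`
  obtain ⟨K, hK⟩ : ∃ K : Subgroup (Subgroup.centralizer (V : Set G)),
      K = V.subgroupOf (Subgroup.centralizer (V : Set G)) := ⟨_, rfl⟩
  rw [← hK] at hVz hVcard hT
  obtain ⟨b, hb⟩ : ∃ b : Subgroup.centralizer (V : Set G) → FF M,
      b = fun t : Subgroup.centralizer (V : Set G) => γ t := ⟨_, rfl⟩
  have hbb : IsBlk b := by rw [hb]; exact hbx.blk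
  rw [← hb] at hd hT
  have hn : K.Normal := ⟨fun n hn g => by
    have h1 := Subgroup.mem_center_iff.1 (hVz hn) g
    rw [h1, mul_assoc, mul_inv_cancel, mul_one]
    exact hn⟩
  obtain ⟨p, hpd⟩ : ∃ p : Subgroup.centralizer (V : Set G) →*
    Subgroup.centralizer (V : Set G) ⧸ K, p = QuotientGroup.mk' K := ⟨_, rfl⟩
  have hker : p.ker = K := by rw [hpd, QuotientGroup.ker_mk']
  have hp : Function.Surjective p := by rw [hpd]; exact QuotientGroup.mk'_surjective K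
  have hkp : IsPGroup ℓ p.ker := by rw [hker]; exact hT.pg
  have hkc : p.ker ≤ Subgroup.center _ := by rw [hker]; exact hVz
  have hb' : IsBlk (H75.push p b) := psg ℓ (FF M) hF _ _ p hp hkc hkp b hbb
  have hgood : ∀ Q : Subgroup (Subgroup.centralizer (V : Set G) ⧸ K), IsPGroup ℓ Q →
      Gd (H75.push p b) Q → Q = ⊥ := by
    intro Q hQ hQb
    have h1 : Q = (Q.comap p).map p := (Subgroup.map_comap_eq_self_of_surjective hp Q).symm
    have hcard : Nat.card (Q.comap p) = Nat.card K * Nat.card Q := by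
      have := H75.card_comap (p := p) hp Q
      rw [this, hker]
    have h2 : IsPGroup ℓ (Q.comap p) := by
      obtain ⟨n, hn⟩ := (IsPGroup.iff_card).1 hQ
      obtain ⟨m, hm⟩ := (IsPGroup.iff_card).1 hT.pg
      exact IsPGroup.of_card (n := m + n) (by rw [hcard, hn, hm, pow_add])
    have h3 : p.ker ≤ Q.comap p := by
      intro x hx
      rw [Subgroup.mem_comap, MonoidHom.mem_ker.1 hx]
      exact Q.one_mem
    rw [h1] at hQb
    have h4 := (pug ℓ (FF M) hF _ _ p hp hkp b hbb.1 _ h3 h2).2 hQb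
    have h6 := hT.mx _ h2 h4
    rw [hcard] at h6
    have h7 : 0 < Nat.card K := Nat.card_pos
    have h8 : 0 < Nat.card Q := Nat.card_pos
    have h9 : Nat.card Q = 1 := by
      have : Nat.card K * Nat.card Q ≤ Nat.card K * 1 := by rw [mul_one]; exact h6
      have := Nat.le_of_mul_le_mul_left this h7
      omega
    exact Subgroup.card_eq_one.1 h9
  obtain ⟨κ₀, hκ₀, hrc⟩ := dzo ℓ M hM _ (H75.push p b) hb' hgood
  obtain ⟨hpsi1, hpsi2⟩ := psi M _ _ p hp b hbb.1.1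
  rw [hκ₀] at hpsi1
  have hκ₀B : κ₀ ∈ Irr (Subgroup.centralizer (V : Set G) ⧸ K) ∧
      (fun a => κ₀ (p a)) ∈ IrrE M b := by
    have : κ₀ ∈ ({κ₀} : Set (Subgroup.centralizer (V : Set G) ⧸ K → ℂ)) := rfl
    rw [hpsi1] at this
    exact this
  have hdeg : κ₀ 1 = (d : ℂ) := by
    have h1 := hd.2 _ hκ₀B.2
    change κ₀ (p 1) = d at h1
    rw [map_one] at h1
    exact h1
  -- the order
  obtain ⟨a, ha⟩ := syl_dvd ℓ _ hκ₀B.1 hrc.sg
  obtain ⟨u, hu⟩ := Pool.Agent.Helper79_WRA.H15.codeg_nat hκ₀B.1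
  have hcK : Nat.card (Subgroup.centralizer (V : Set G)) =
      Nat.card K * Nat.card (Subgroup.centralizer (V : Set G) ⧸ K) := by
    rw [mul_comm]
    exact Subgroup.card_eq_card_quotient_mul_card_subgroup K
  obtain ⟨N, hN⟩ : ∃ N, N = Nat.card (Subgroup.centralizer (V : Set G) ⧸ K) := ⟨_, rfl⟩
  rw [← hN] at ha hu hcK
  have hN0 : N ≠ 0 := by rw [hN]; exact Nat.card_pos.ne'
  rw [hdeg] at ha hu
  have hd0 : (d : ℂ) ≠ 0 := by exact_mod_cast hd.1.ne'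
  have h1 : N = d * u := by
    have : (N : ℂ) = d * u := by rw [← hu]; field_simp
    exact_mod_cast this
  have h2 : d = ℓ ^ N.factorization ℓ * a := by exact_mod_cast ha
  refine ⟨u, ?_, ?_⟩
  · rintro ⟨w, hw⟩
    apply Nat.pow_succ_factorization_not_dvd hN0 hℓ.out
    refine ⟨a * w, ?_⟩
    rw [pow_succ]
    calc N = d * u := h1
      _ = (ℓ ^ N.factorization ℓ * a) * (ℓ * w) := by rw [← h2, hw]
      _ = _ := by ring
  · rw [hcK, hVcard, h1, mul_assoc]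

end Pool.Agent.PP.SO.H97
end
end -- Pool.Agent.Helper97_ASO.HTA

section -- Pool.Agent.Helper66_ASO.AsmH

/-!
# Squad ASO, block H: the statements, closed
-/

noncomputable section

namespace Pool.Agent.PP.SO

open Pool.Agent.PP Pool.Agent.PP.K9

theorem rtc_ : T3.RtcStmt := T3.H23.rtc K9.ada_ K9.wbo_ KF.H25.idm

theorem hlnk_ : HLnkStmt := H32.hlnk
theorem hixe_ : HIxeStmt := H32.hixe K9.H34.inx
theorem homr_ : HOmrStmt := H63.homr hlnk_ hixe_ K9.H19.omg T3.rsv_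
theorem hfce_ : HFceStmt := H25.hfce T3.loc_
theorem hta_ : HTaStmt := H97.hta T3.psg_ K9.H02.pug K9.dzo_ K9.H3.psi
theorem htz_ : HTzStmt := H92.htz hixe_ hta_ T3.rgl_ T3.cgr_ T3.dgc_ T3.inr_ T3.glp_ T3.co1_
  T3.lpw_ K9.prg_
theorem hkb_ : HKbStmt := H65.hkb hlnk_ hixe_ homr_ T3.rgl_ T3.inr_ T3.glp_ T3.co1_ T3.lpw_
theorem hrat_ : HRatStmt := H24.hrat hlnk_ hixe_ homr_
theorem hl12_ : HL12Stmt := H15.hl12 K9.wbo_ hlnk_ hfce_ homr_ T3.prm_ rtc_
theorem hfro_ : HFroStmt := H34.hfro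
theorem hfpr_ : HFprStmt := H13.hfpr hlnk_ hixe_ T3.smg_ T3.dug_ T3.fus_ T3.loc_
theorem hsm_ : HSmStmt := H45.hsm hkb_ hrat_ hfro_ hfpr_ htz_ hfce_ hixe_
theorem hco_ : HCoStmt := H77.hco htz_ hsm_ hl12_

end Pool.Agent.PP.SO
end
end -- Pool.Agent.Helper66_ASO.AsmH
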