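import Pool.Agent.Helper12_AWB.B117
import Pool.Agent.Helper12_AWB.B143
import Pool.Agent.Helper12_AWB.B168
import Pool.Agent.Helper12_AWB.B172
import Pool.Agent.Helper12_AWB.B180
import Pool.Agent.Helper12_AWB.B184
import Pool.Agent.Helper12_AWB.B213
import Pool.Agent.Helper12_AWB.B239
import Pool.Agent.Helper12_AWB.B258
import Pool.Agent.Helper12_AWB.B262
import Pool.Agent.Helper12_AWB.B264
import Pool.Agent.Helper12_AWB.B269
import Pool.Agent.Helper12_AWB.B276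

/-!
# Merged copies (generated) of the modules

* `Pool.Agent.AT3.Asm`
* `Pool.Agent.Helper94_PFD.BNR`
* `Pool.Agent.Helper1_ASO.SYE`
* `Pool.Agent.Helper3_ASD.SYD`
* `Pool.Agent.Helper33_ASO.NSVA`
* `Pool.Agent.Helper81_ASO.ISO`
* `Pool.Agent.Helper7_ASD.NSD`
-/

set_option autoImplicit false

section -- Pool.Agent.AT3.Asm

/-!
# Squad AT3: assembly of all the rows

The final theorem is `fnt_ : FntStmt` (abelian defect groups, `3 |E| ≤ ℓ`, `5 ≤ ℓ`).
-/

open scoped BigOperators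

noncomputable section

namespace Pool.Agent.PP.T3.Asm

open Pool.Agent.Helper51_AWC Pool.Agent.Helper79_WRA Pool.Agent.PP Pool.Agent.PP.KF
open Pool.Agent.PP.K9 Pool.Agent.PP.T3

theorem idm_ : KF.IdmStmt := KF.H25.idm

theorem psg_ : PsgStmt := H53.psg

theorem loc_ : LocStmt := H88.loc

theorem lsb_ : LsbStmt := H85.lsb

theorem nvt_ : NvtStmt := H85.nvt

theorem lpw_ : LpwStmt := H38.lpw

theorem inr_ : InrStmt := H63.inr

theorem glp_ : GlpStmt := H56.glp

theorem gsm_ : GsmStmt := H76.gsm loc_ lsb_ lpw_ inr_ glp_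

theorem fus_ : FusStmt := H79.fus lsb_

theorem co1_ : Co1Stmt := H83.co1

theorem co2_ : Co2Stmt := H62.co2

theorem bes_ : BesStmt := H89.bes

theorem nib_ : NibStmt := H72.nib fus_ co1_ co2_ bes_

theorem cen_ : CenStmt := H86.cen psg_

theorem nil_ : NilStmt := H41.nil loc_ lsb_ cen_ gsm_ nib_ co1_

theorem rsv_ : RsvStmt := H17.rsv

theorem nit_ : NitStmt := H41.nit loc_ lsb_ nil_ inr_ rsv_

theorem rgl_ : RglStmt := H41.rgl loc_ lsb_ nil_

theorem cgr_ : CgrStmt := H88.cgr rsv_ nit_ lsb_ rgl_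

theorem dgc_ : DgcStmt := H41.dgc cen_

theorem cgz_ : CgzStmt := H88.cgz cgr_ dgc_ loc_

theorem brg_ : BrgStmt := H49.brg co1_ co2_ fus_ bes_ rgl_ loc_

theorem cnt_ : CntStmt := H49.cnt

theorem ari_ : AriStmt := H72.ari

theorem prm_ : PrmStmt := H49.prm

theorem trg_ : TrgStmt := H23.trg

theorem cyc_ : CycStmt := H89.cyc

theorem smg_ : SmgStmt := H56.smg trg_ cyc_

theorem fix_ : FixStmt := H98.fix trg_ cyc_ smg_ rot_ ada_ wbo_ idm_

theorem rtc_ : RtcStmt := H23.rtc ada_ wbo_ idm_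

theorem dug_ : DugStmt := H3.dug

theorem lcj_ : LcjStmt := H62.lcj

theorem gch_ : GchStmt := H38.gch lcj_

theorem nst_ : NstStmt := H3.nst dug_ fus_ gch_ lcj_ lpw_

theorem lrk_ : LrkStmt := H43.lrk rot_

theorem rin_ : RinStmt := H14.rin wbo_ inr_

theorem lbe_ : LbeStmt :=
  H49.lbe prm_ fix_ nst_ lrk_ rgl_ rin_ cgz_ brg_ cnt_ ari_ lsb_ nz_

theorem rec__ : RecStmt := H28.rec_

theorem cha_ : ChaStmt := H41.cha rec__

theorem dvs_ : DvsStmt := H24.dvs

theorem pos_ : PosStmt := H38.pos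

theorem flt_ : FltStmt := H69.flt

theorem qt1_ : Qt1Stmt := H65.qt1 dug_ psg_

theorem qt2_ : Qt2Stmt := H43.qt2 psg_ gch_

theorem qtd_ : QtdStmt := H41.qtd qt1_ lcj_ qt2_

theorem t3a_ : T3aStmt := H41.t3a qtd_ cha_ lbe_ dvs_ pos_ nvt_

theorem fnt_ : FntStmt := H66.fnt psg_ flt_ qtd_ qt1_ t3a_

end Pool.Agent.PP.T3.Asm
end
end -- Pool.Agent.AT3.Asm

section -- Pool.Agent.Helper94_PFD.BNR

/-!
# Squad PFD, row BNR: the blocks of `N(R)` under `br_R(e)`
-/

open scoped BigOperators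

noncomputable section

namespace Pool.Agent.PFD.H94b

open Pool.Agent.Helper51_AWC Pool.Agent.Helper79_WRA Pool.Agent.PP Pool.Agent.PP.KF
open Pool.Agent.PP.K9 Pool.Agent.PP.K9.H97 Pool.Agent.PP.H75 Pool.Agent.PP.T3
open Pool.Agent.PP.T3.H65 Pool.Agent.PFD

attribute [local instance] Ideal.Quotient.field

/-- row QT1, for `p.ker ≤ Q` -/
theorem qt1g (dug : DugStmt) (psg : PsgStmt) (ℓ : ℕ) [Fact ℓ.Prime]
    (M : Ideal (integralClosure ℤ ℂ)) [M.IsMaximal] (hM : (ℓ : integralClosure ℤ ℂ) ∈ M)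
    (G : Type) [Group G] [Finite G] (e : G → FF M) (V : Subgroup G) (γ : G → FF M)
    (hLd : Ld ℓ e V γ) (Q : Subgroup G) (hQp : IsPGroup ℓ Q) (A : Type) [Group A] [Finite A]
    (p : Subgroup.normalizer (Q : Set G) →* A) (hp : Function.Surjective p)
    (hker : p.ker ≤ Q.subgroupOf (Subgroup.normalizer (Q : Set G))) (f : A → FF M) (hf : IsBlk f)
    (hff : mulF (push p (fun t : Subgroup.normalizer (Q : Set G) => br Q e t)) f = f) :
    ∃ k : G, Q ≤ conjS k V ∧ conjS k V ≤ Subgroup.centralizer (Q : Set G) ∧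
      Tp ℓ f (((conjS k V).subgroupOf (Subgroup.normalizer (Q : Set G))).map p) := by
  classical
  have hF : GoodF ℓ (FF M) := H50.fld ℓ Fact.out M hM
  obtain ⟨C, hC⟩ : ∃ C : Subgroup G, C = Subgroup.centralizer (Q : Set G) := ⟨_, rfl⟩
  have hCN : C ≤ Subgroup.normalizer (Q : Set G) := by
    rw [hC]
    exact Subgroup.centralizer_le_normalizer _
  have he : IsIdem e := hLd.blk.1
  have hmk : ∀ x : Subgroup.normalizer (Q : Set G), p x = 1 → (x : G) ∈ Q := by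
    intro x hx
    rw [← MonoidHom.mem_ker] at hx
    exact Subgroup.mem_subgroupOf.1 (hker hx)
  have hf0 : f ≠ 0 := hf.2.1
  -- the idempotents
  obtain ⟨f', hf'⟩ : ∃ f' : A → FF M,
    f' = push p (fun t : Subgroup.normalizer (Q : Set G) => br Q e t) := ⟨_, rfl⟩
  have hbrQ : IsIdem (fun t : Subgroup.normalizer (Q : Set G) => br Q e t) :=
    (H20.brm ℓ (FF M) hF G Q _ hQp (by rw [← hC]; exact hCN) le_rfl).2.2 e he
  have hf'I : IsIdem f' := by
    rw [hf']
    exact push_isIdem hp hbrQ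
  rw [← hf'] at hff
  -- `Q` is good for `e`
  have hbr0 : br Q e ≠ 0 := by
    intro h
    apply hf0
    rw [← hff, hf', h]
    have h1 : push p (fun t : Subgroup.normalizer (Q : Set G) => (0 : G → FF M) t) = 0 :=
      push_zero p
    rw [h1, mulF_zero_left]
  have hQe : Gd e Q := C2.H3.gd_of_br' hbr0
  obtain ⟨hfm, -, -⟩ := K9.H69.fmg ℓ M hM G e hLd.blk V hLd.tp
  obtain ⟨g0, hg0⟩ := hfm Q hQp hQe
  have hQab : ∀ a ∈ Q, ∀ b ∈ Q, a * b = b * a := by
    intro a ha b hb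
    have h1 := mem_conjS.1 (hg0 ha)
    have h2 := mem_conjS.1 (hg0 hb)
    have h3 := hLd.ab _ h1 _ h2
    have h4 : g0 * (g0⁻¹ * a * g0 * (g0⁻¹ * b * g0)) * g0⁻¹ = a * b := by group
    have h5 : g0 * (g0⁻¹ * b * g0 * (g0⁻¹ * a * g0)) * g0⁻¹ = b * a := by group
    rw [← h4, ← h5, h3]
  have hQC : Q ≤ C := by
    rw [hC]
    intro a ha
    rw [Subgroup.mem_centralizer_iff]
    intro b hb
    exact hQab b hb a ha
  -- the homomorphism on the centraliser
  obtain ⟨q, hq⟩ : ∃ q : C →* A, q = p.comp (Subgroup.inclusion hCN) := ⟨_, rfl⟩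
  have hqk : ∀ c : C, c ∈ q.ker → (c : G) ∈ Q := by
    intro c hc
    rw [MonoidHom.mem_ker, hq] at hc
    exact hmk _ hc
  have hqc : q.ker ≤ Subgroup.center C := by
    intro c hc
    rw [Subgroup.mem_center_iff]
    intro d
    apply Subtype.ext
    change (d : G) * c = c * d
    have h1 := hC.le d.2
    rw [Subgroup.mem_centralizer_iff] at h1
    exact (h1 c (hqk c hc)).symm
  have hqp : IsPGroup ℓ q.ker := by
    refine hQp.of_injective ((Subgroup.subtype C).comp q.ker.subtype |>.codRestrict Q ?_) ?_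
    · intro x
      exact hqk x.1 x.2
    · intro a b hab
      apply Subtype.ext
      apply Subtype.ext
      exact congrArg (fun t : Q => (t : G)) hab
  have hkp : IsPGroup ℓ p.ker := by
    have h1 : IsPGroup ℓ (Q.subgroupOf (Subgroup.normalizer (Q : Set G))) :=
      hQp.comap_of_injective (Subgroup.normalizer (Q : Set G)).subtype
        (Subgroup.normalizer (Q : Set G)).subtype_injective
    exact h1.to_le hker
  have hf'q : f' = push q (fun t : C => e t) := by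
    rw [hf', T3.H43.push_res hCN p (a := br Q e) (by
      intro x hx
      rw [hC] at hx
      exact br_out e hx), ← hq]
    congr 1
    funext t
    apply br_in
    rw [← hC]
    exact t.2
  have hconj : ∀ n ∈ Subgroup.normalizer (Q : Set G), ∀ c ∈ C, n * c * n⁻¹ ∈ C := by
    intro n hn c hc
    rw [hC, Subgroup.mem_centralizer_iff] at hc ⊢
    intro v hv
    have h1 : n⁻¹ * v * n ∈ Q := by
      have h2 := (Subgroup.mem_normalizer_iff.1 (inv_mem hn) v).1 hv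
      rwa [inv_inv] at h2
    have h2 := hc _ h1
    calc v * (n * c * n⁻¹) = n * ((n⁻¹ * v * n) * c) * n⁻¹ := by group
      _ = n * (c * (n⁻¹ * v * n)) * n⁻¹ := by rw [h2]
      _ = (n * c * n⁻¹) * v := by group
  have hnorm : q.range.Normal := by
    refine ⟨?_⟩
    rintro _ ⟨c, rfl⟩ a
    obtain ⟨n, rfl⟩ := hp a
    refine ⟨⟨(n : G) * c * (n : G)⁻¹, hconj n n.2 c c.2⟩, ?_⟩
    rw [hq]
    change p (Subgroup.inclusion hCN _) = p n * p (Subgroup.inclusion hCN c) * (p n)⁻¹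
    rw [← map_inv, ← map_mul, ← map_mul]
    rfl
  have hbC : (fun t : C => br Q e t) = fun t : C => e t := by
    funext t
    apply br_in
    rw [← hC]
    exact t.2
  have heC : IsIdem (fun t : C => e t) := by
    have h1 := (H20.brm ℓ (FF M) hF G Q C hQp hC.ge hCN).2.2 e he
    rwa [hbC] at h1
  -- the block of the centraliser
  obtain ⟨d0, hd0, hd01, hd02⟩ := K9.H24.exists_blk (fun a : C → FF M => mulF f (push q a))
    (by
      change mulF f (push q 0) = 0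
      rw [push_zero]
      exact H46.mulF_zero _)
    (fun a b => by
      change mulF f (push q (a + b)) = mulF f (push q a) + mulF f (push q b)
      rw [T3.H43.push_add]
      exact H46.mulF_add _ _ _) heC (by
      change mulF f (push q (fun t : C => e t)) ≠ 0
      rw [← hf'q, mulF_comm_cl hf.1.1, hff]
      exact hf0)
  change mulF f (push q d0) ≠ 0 at hd02
  obtain ⟨δ, hδ⟩ : ∃ δ : G → FF M, δ = H75.ext0 C d0 := ⟨_, rfl⟩
  have hδs : ∀ x, x ∉ C → δ x = 0 := by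
    rw [hδ]
    exact H75.ext0_supp C d0
  have hδC : (fun t : C => δ t) = d0 := by
    rw [hδ]
    exact funext (H75.ext0_apply C d0)
  have hBδ : Bx C δ := ⟨hδs, by rw [hδC]; exact hd0⟩
  have hbs : ∀ x, x ∉ C → br Q e x = 0 := by
    intro x hx
    rw [hC] at hx
    exact br_out e hx
  have hund : mulF (br Q e) δ = δ := by
    apply eq_of_res (mulF_supp C hbs hδs) hδs
    rw [mulF_res C δ hbs, hδC, hbC, hd01]
  obtain ⟨P, hQP, hPC, hP, hPV, hδP⟩ := dug ℓ M hM G e hLd.blk V hLd.tp hLd.ab Q hQp δ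
    (by rw [← hC]; exact hBδ) (by
      rw [← hC, hδC]
      exact hd01)
  rw [← hC] at hPC
  have hPN : P ≤ Subgroup.normalizer (Q : Set G) := hPC.trans hCN
  -- `P` is good for `e`
  have hinvP : H66.Inv P δ := fun p hp t => C2.H3.ix_inv hBδ.ix (hPC hp) t
  have hIQ : Ix C (br Q e) := ⟨hbs, by rw [hbC]; exact heC⟩
  have hinvQ : H66.Inv P (br Q e) := fun p hp t => C2.H3.ix_inv hIQ (hPC hp) t
  have hPe : mulF (br P e) (br P δ) = br P δ := by
    have h1 := congrArg (br P) hund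
    rwa [H66.br_mulF hF hP hinvQ hinvP, C2.H3.br_br hQP] at h1
  have hGe : Gd e P := by
    apply C2.H3.gd_of_br'
    intro h0
    apply C2.H3.br_ne_of_gd hδP
    rw [← hPe, h0, mulF_zero_left]
  obtain ⟨k, hk⟩ := hfm P hP hGe
  have hPk : P = conjS k V := by
    refine Subgroup.eq_of_le_of_card_ge hk ?_
    rw [Pool.Agent.Helper51_AWC.card_conjS, hPV]
  refine ⟨k, by rw [← hPk]; exact hQP, by rw [← hPk, ← hC]; exact hPC, ?_⟩
  rw [← hPk]
  obtain ⟨P', hP'⟩ : ∃ P' : Subgroup A,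
    P' = (P.subgroupOf (Subgroup.normalizer (Q : Set G))).map p := ⟨_, rfl⟩
  rw [← hP']
  have hPNp : IsPGroup ℓ (P.subgroupOf (Subgroup.normalizer (Q : Set G))) :=
    hP.comap_of_injective (Subgroup.normalizer (Q : Set G)).subtype
      (Subgroup.normalizer (Q : Set G)).subtype_injective
  have hP'p : IsPGroup ℓ P' := by
    rw [hP']
    exact hPNp.map p
  have hP'C : P' ≤ q.range := by
    rw [hP']
    rintro _ ⟨w, hw, rfl⟩
    refine ⟨⟨w, hPC (Subgroup.mem_subgroupOf.1 hw)⟩, ?_⟩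
    rw [hq]
    rfl
  -- the block `g'`
  obtain ⟨g', hg'⟩ : ∃ g' : A → FF M, g' = push q d0 := ⟨_, rfl⟩
  have hBg : Bx q.range g' := by
    rw [hg']
    exact T3.H43.push_blk psg hF q hqc hqp hd0
  have hBd : Bd q.range g' := ⟨hnorm, hBg.supp, hBg.blk⟩
  rw [← hg'] at hd02
  have hgP' : Gd g' P' := by
    have h1 : Gd d0 (P.subgroupOf C) := by
      obtain ⟨x, hx, hx0⟩ := hδP
      have hxC : x ∈ C := by
        by_contra h
        exact hx0 (hδs x h)
      refine ⟨⟨x, hxC⟩, (cent_sub hPC _).2 hx, ?_⟩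
      have h2 := congrFun hδC ⟨x, hxC⟩
      rw [← h2]
      exact hx0
    have hkr : IsPGroup ℓ q.rangeRestrict.ker := by
      rw [MonoidHom.ker_rangeRestrict]
      exact hqp
    have h2 := (K9.H02.pug ℓ (FF M) hF C q.range q.rangeRestrict q.rangeRestrict_surjective
      hkr d0 hd0.1 (P.subgroupOf C) (by
        rw [MonoidHom.ker_rangeRestrict]
        intro c hc
        exact Subgroup.mem_subgroupOf.2 (hQP (hqk c hc)))
      (hP.comap_of_injective C.subtype C.subtype_injective)).1 h1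
    obtain ⟨y, hy, hy0⟩ := h2
    rw [← push_range, ← hg'] at hy0
    refine ⟨y, ?_, hy0⟩
    rw [Subgroup.mem_centralizer_iff] at hy ⊢
    rw [hP']
    rintro _ ⟨w, hw, rfl⟩
    have hwP : (w : G) ∈ P := Subgroup.mem_subgroupOf.1 hw
    have h3 := hy (q.rangeRestrict ⟨w, hPC hwP⟩) ⟨⟨w, hPC hwP⟩, Subgroup.mem_subgroupOf.2 hwP, rfl⟩
    have h4 : ((q.rangeRestrict ⟨w, hPC hwP⟩ : q.range) : A) = p w := by
      change q ⟨w, hPC hwP⟩ = p w
      rw [hq]
      rfl
    have h5 := congrArg (fun t : q.range => (t : A)) h3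
    change ((q.rangeRestrict ⟨w, hPC hwP⟩ : q.range) : A) * y =
      y * ((q.rangeRestrict ⟨w, hPC hwP⟩ : q.range) : A) at h5
    rwa [h4] at h5
  refine ⟨hP'p, cover_gd hF hBd hf.1 hd02 hP'C hP'p hgP', ?_⟩
  intro R' hR' hRf
  have hRf' : Gd f' R' := gd_of_mul hF hf'I.1 hf.1.1 hff hR' hRf
  have hRp : IsPGroup ℓ (R'.comap p) := hR'.comap_of_ker_isPGroup p hkp
  have hkR : p.ker ≤ R'.comap p := by
    intro x hx
    rw [Subgroup.mem_comap, MonoidHom.mem_ker.1 hx]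
    exact R'.one_mem
  have h1 := (K9.H02.pug ℓ (FF M) hF _ A p hp hkp _ hbrQ (R'.comap p) hkR hRp).2 (by
    rw [Subgroup.map_comap_eq_self_of_surjective hp, ← hf']
    exact hRf')
  have h2 : Gd (br Q e) ((R'.comap p).map (Subgroup.normalizer (Q : Set G)).subtype) :=
    gd_map h1
  have h3 : Gd e ((R'.comap p).map (Subgroup.normalizer (Q : Set G)).subtype) := by
    obtain ⟨x, hx, hx0⟩ := h2
    refine ⟨x, hx, ?_⟩
    by_cases hxQ : x ∈ Subgroup.centralizer (Q : Set G)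
    · rwa [br_in e hxQ] at hx0
    · exact absurd (br_out e hxQ) hx0
  have h4 := hLd.tp.mx _ (hRp.map _) h3
  rw [Subgroup.card_map_of_injective (Subgroup.normalizer (Q : Set G)).subtype_injective,
    card_comap hp R'] at h4
  have h5 : Nat.card V = Nat.card p.ker * Nat.card P' := by
    rw [← card_comap hp P', hP', Subgroup.comap_map_eq_self (by
      intro x hx
      exact Subgroup.mem_subgroupOf.2 (hQP (Subgroup.mem_subgroupOf.1 (hker hx)))),
      Nat.card_congr (Subgroup.subgroupOfEquivOfLe hPN).toEquiv, hPV]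
  rw [h5] at h4
  exact Nat.le_of_mul_le_mul_left h4 Nat.card_pos


theorem bnr : BnrStmt := by
  intro ℓ _ M _ hM G _ _ e V γ hLd R hR c hc hcc
  classical
  have hF : GoodF ℓ (FF M) := H50.fld ℓ Fact.out M hM
  obtain ⟨N, hN⟩ : ∃ N : Subgroup G, N = Subgroup.normalizer (R : Set G) := ⟨_, rfl⟩
  -- the defect group
  obtain ⟨k, hRP, hPC, hT⟩ := qt1g Asm.dug_ Asm.psg_ ℓ M hM G e V γ hLd R hR
    (Subgroup.normalizer (R : Set G))
    ((MulEquiv.refl (Subgroup.normalizer (R : Set G)) :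
      Subgroup.normalizer (R : Set G) ≃* Subgroup.normalizer (R : Set G)) :
      Subgroup.normalizer (R : Set G) →* Subgroup.normalizer (R : Set G))
    (fun x => ⟨x, rfl⟩) (by
      intro x hx
      have h1 : x = 1 := hx
      rw [h1]
      exact Subgroup.one_mem _) c hc (by
      rw [H85.push_equiv']
      exact hcc)
  have hT' : Tp ℓ c ((conjS k V).subgroupOf (Subgroup.normalizer (R : Set G))) := by
    have h1 : ((conjS k V).subgroupOf (Subgroup.normalizer (R : Set G))).map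
        ((MulEquiv.refl (Subgroup.normalizer (R : Set G)) :
        Subgroup.normalizer (R : Set G) ≃* Subgroup.normalizer (R : Set G)) :
        Subgroup.normalizer (R : Set G) →* Subgroup.normalizer (R : Set G)) =
        (conjS k V).subgroupOf (Subgroup.normalizer (R : Set G)) := by
      ext x
      constructor
      · rintro ⟨y, hy, rfl⟩
        exact hy
      · intro hx
        exact ⟨x, hx, rfl⟩
    rwa [h1] at hT
  obtain ⟨P, hP⟩ : ∃ P : Subgroup G, P = conjS k V := ⟨_, rfl⟩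
  rw [← hP] at hRP hPC hT'
  have hL := (Asm.lcj_ ℓ (FF M) hF G e V γ hLd k).1
  rw [← hP] at hL
  have hCN : Subgroup.centralizer (R : Set G) ≤ Subgroup.normalizer (R : Set G) :=
    Subgroup.centralizer_le_normalizer _
  have hPN : P ≤ Subgroup.normalizer (R : Set G) := hPC.trans hCN
  have hCPN : Subgroup.centralizer (P : Set G) ≤ Subgroup.normalizer (R : Set G) :=
    (Subgroup.centralizer_le (show (R : Set G) ⊆ P from hRP)).trans hCN
  -- the extension of `c` by zero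
  obtain ⟨δ, hδ⟩ : ∃ δ : G → FF M, δ = H75.ext0 (Subgroup.normalizer (R : Set G)) c := ⟨_, rfl⟩
  have hδs : ∀ x, x ∉ Subgroup.normalizer (R : Set G) → δ x = 0 := by
    rw [hδ]
    exact H75.ext0_supp _ c
  have hδC : (fun t : Subgroup.normalizer (R : Set G) => δ t) = c := by
    rw [hδ]
    exact funext (H75.ext0_apply _ c)
  have hBδ : Bx (Subgroup.normalizer (R : Set G)) δ := ⟨hδs, by rw [hδC]; exact hc⟩
  have hbrR : IsIdem (fun t : Subgroup.normalizer (R : Set G) => br R e t) :=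
    (H20.brm ℓ (FF M) hF G R _ hR hCN le_rfl).2.2 e hLd.blk.1
  have hbs : ∀ x, x ∉ Subgroup.normalizer (R : Set G) → br R e x = 0 := by
    intro x hx
    exact br_out e (fun h => hx (hCN h))
  have hIR : Ix (Subgroup.normalizer (R : Set G)) (br R e) := ⟨hbs, hbrR⟩
  have hund : mulF (br R e) δ = δ := by
    apply eq_of_res (mulF_supp _ hbs hδs) hδs
    rw [mulF_res _ δ hbs, hδC, hcc]
  have hinvP : H66.Inv P δ := fun p hp t => C2.H3.ix_inv hBδ.ix (hPN hp) t
  have hinvR : H66.Inv P (br R e) := fun p hp t => C2.H3.ix_inv hIR (hPN hp) t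
  have hPe : mulF (br P e) (br P δ) = br P δ := by
    have h1 := congrArg (br P) hund
    rwa [H66.br_mulF hF hL.tp.pg hinvR hinvP, C2.H3.br_br hRP] at h1
  -- the block `γ₁`
  have hne : br P δ ≠ 0 := by
    apply C2.H3.br_ne_of_gd
    obtain ⟨x, hx, hx0⟩ := hT'.gd
    refine ⟨x, (cent_sub hPN x).1 hx, ?_⟩
    have h1 := congrFun hδC x
    rw [h1]
    exact hx0
  obtain ⟨γ₁, hγ1, hγ2, hγ3⟩ := H46.exists_blk hne (Subgroup.centralizer (P : Set G))
  have hBx : Bx (Subgroup.centralizer (P : Set G)) γ₁ := ⟨hγ1, hγ2⟩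
  have hIx : Ix (Subgroup.centralizer (P : Set G)) (br P δ) := by
    refine ⟨fun x hx => H66.br_of_not_mem hx, ?_⟩
    have hPp : IsPGroup ℓ (P.subgroupOf (Subgroup.normalizer (R : Set G))) := hT'.pg
    have h1 := (H20.brm ℓ (FF M) hF (Subgroup.normalizer (R : Set G))
      (P.subgroupOf (Subgroup.normalizer (R : Set G))) _ hPp le_rfl
      (Subgroup.centralizer_le_normalizer _)).2.2 _ hc.1
    have h2 : (fun t : Subgroup.centralizer (P : Set G) => br P δ t) = fun t =>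
        br (P.subgroupOf (Subgroup.normalizer (R : Set G))) c
          ((H85.cequiv hPN hCPN).symm t : Subgroup.normalizer (R : Set G)) := by
      funext t
      rw [H66.br_of_mem t.2, H66.br_of_mem ((H85.cequiv hPN hCPN).symm t).2]
      rw [← hδC]
      rfl
    rw [h2]
    exact (H20.IsIdem_equiv (H85.cequiv hPN hCPN).symm).2 h1
  have hγc : mulF (br P δ) γ₁ = γ₁ := by
    rw [hIx.comm hBx.ix]
    rcases hBx.dich' hIx with h2 | h2
    · exact h2
    · exfalso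
      apply hγ3
      rw [hIx.comm hBx.ix, h2]
  have hγe : mulF (br P e) γ₁ = γ₁ := by
    rw [← hγc, ← H20.mulF_assoc, hPe]
  -- conjugation
  obtain ⟨-, ⟨hb, -⟩, -⟩ := K9.H69.fmg ℓ M hM G e hL.blk P hL.tp
  have hXN : Subgroup.centralizer (P : Set G) ≤ Subgroup.normalizer (P : Set G) :=
    Subgroup.centralizer_le_normalizer _
  have hNX : Subgroup.normalizer (P : Set G) ≤
      Subgroup.normalizer ((Subgroup.centralizer (P : Set G) : Subgroup G) : Set G) := by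
    intro n hn
    have key : ∀ m : G, m ∈ Subgroup.normalizer (P : Set G) → ∀ c,
        c ∈ Subgroup.centralizer (P : Set G) → m * c * m⁻¹ ∈ Subgroup.centralizer (P : Set G) := by
      intro m hm c hc
      rw [Subgroup.mem_centralizer_iff]
      intro v hv
      have h1 : m⁻¹ * v * m ∈ P := by
        have := (Subgroup.mem_normalizer_iff.1 (Subgroup.inv_mem _ hm) v).1 hv
        rwa [inv_inv] at this
      have h2 := Subgroup.mem_centralizer_iff.1 hc _ h1
      have h3 : m * (m⁻¹ * v * m * c) * m⁻¹ = m * (c * (m⁻¹ * v * m)) * m⁻¹ := by rw [h2]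
      have h4 : m * (m⁻¹ * v * m * c) * m⁻¹ = v * (m * c * m⁻¹) := by group
      have h5 : m * (c * (m⁻¹ * v * m)) * m⁻¹ = m * c * m⁻¹ * v := by group
      rw [h4, h5] at h3
      exact h3
    rw [Subgroup.mem_normalizer_iff]
    intro c
    refine ⟨key n hn c, fun hc => ?_⟩
    have h1 := key n⁻¹ (Subgroup.inv_mem _ hn) _ hc
    have h2 : n⁻¹ * (n * c * n⁻¹) * n⁻¹⁻¹ = c := by group
    rwa [h2] at h1
  obtain ⟨n, hn, hγn⟩ := orb_main hXN hNX (f := br P e)
    ⟨fun x hx => H66.br_of_not_mem fun h2 => hx (hXN h2), hb⟩ hL.gam hBx hL.und hγe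
  have hconj : conjS (n * k) V = P := by
    ext x
    have h1 : conjS n P = P := mem_normalizer_iff_conjS.1 hn
    rw [← h1, hP, mem_conjS, mem_conjS, mem_conjS]
    have e1 : (n * k)⁻¹ * x * (n * k) = k⁻¹ * (n⁻¹ * x * n) * k := by group
    rw [e1]
  have hcj : cj (n * k) γ = γ₁ := by
    rw [hγn, cj_cj]
  refine ⟨n * k, by rw [hconj]; exact hRP, ?_⟩
  rw [hconj, hcj]
  have h1 := H85.ld_of hPN hCPN hL.ab (b := δ) (γ := γ₁) (by rw [hδC]; exact hc) hBx hγc
    (by rw [hδC]; exact hT')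
  rw [hδC] at h1
  exact h1

end Pool.Agent.PFD.H94b
end
end -- Pool.Agent.Helper94_PFD.BNR

section -- Pool.Agent.Helper1_ASO.SYE

/-!
# Squad ASO, row SYE: existence of the local data
-/

open scoped BigOperators

noncomputable section

namespace Pool.Agent.PP.SO.H1

open Pool.Agent.Helper51_AWC Pool.Agent.Helper79_WRA Pool.Agent.PP Pool.Agent.PP.KF
open Pool.Agent.PP.K9 Pool.Agent.PP.K9.H97 Pool.Agent.PP.H75 Pool.Agent.PP.T3

attribute [local instance] Ideal.Quotient.field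

section rat

variable {M : Ideal (integralClosure ℤ ℂ)} [M.IsMaximal]

/-- a rational number in the local ring has a denominator prime to `ℓ` -/
theorem rat_RM {ℓ : ℕ} [hℓ : Fact ℓ.Prime] (hM : (ℓ : integralClosure ℤ ℂ) ∈ M) {q : ℚ}
    (h : (q : ℂ) ∈ RM M) : q ∈ SOR.Rl ℓ := by
  intro hd
  have e1 : (q.num : ℂ) = (q : ℂ) * ((q.den : ℤ) : ℂ) := by
    have h1 : (q : ℚ) * q.den = q.num := Rat.mul_den_eq_num q
    have h2 := congrArg (fun r : ℚ => (r : ℂ)) h1
    push_cast at h2 ⊢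
    exact h2.symm
  have e2 : rr M ((q.den : ℤ) : ℂ) = 0 := by
    rw [dvd_of_rr hℓ.out hM]
    exact_mod_cast hd
  have e3 : rr M (q.num : ℂ) = 0 := by
    rw [e1, rr_mul h (rr_int _).1, e2, mul_zero]
  rw [dvd_of_rr hℓ.out hM] at e3
  have h3 : ℓ ∣ q.num.natAbs := Int.natCast_dvd.1 e3
  have h4 := Nat.Coprime.eq_one_of_dvd
    (Nat.Coprime.coprime_dvd_left h3 q.reduced) hd
  exact hℓ.out.one_lt.ne' h4

/-- a rational number in the local ring with residue `1` -/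
theorem rat_one {ℓ : ℕ} [hℓ : Fact ℓ.Prime] (hM : (ℓ : integralClosure ℤ ℂ) ∈ M) {q : ℚ}
    (h : (q : ℂ) ∈ RM M) (h1 : rr M (q : ℂ) = 1) : ∃ q' ∈ SOR.Rl ℓ, q = 1 + ℓ * q' := by
  have hden : ¬ ℓ ∣ q.den := rat_RM hM h
  have e1 : (q.num : ℂ) = (q : ℂ) * ((q.den : ℤ) : ℂ) := by
    have h1 : (q : ℚ) * q.den = q.num := Rat.mul_den_eq_num q
    have h2 := congrArg (fun r : ℚ => (r : ℂ)) h1
    push_cast at h2 ⊢
    exact h2.symm
  have e3 : rr M (q.num : ℂ) = rr M ((q.den : ℤ) : ℂ) := by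
    rw [e1, rr_mul h (rr_int _).1, h1, one_mul]
  have e4 : rr M (((q.num - (q.den : ℤ) : ℤ)) : ℂ) = 0 := by
    rw [Int.cast_sub, rr_sub (rr_int _).1 (rr_int _).1, e3, sub_self]
  rw [dvd_of_rr hℓ.out hM] at e4
  obtain ⟨k, hk⟩ := e4
  have hd0 : (q.den : ℚ) ≠ 0 := Nat.cast_ne_zero.2 q.den_ne_zero
  refine ⟨(k : ℚ) / q.den, ?_, ?_⟩
  · apply rat_RM hM
    have e5 : (((k : ℚ) / q.den : ℚ) : ℂ) = (k : ℂ) * ((q.den : ℂ))⁻¹ := by
      push_cast
      rw [div_eq_mul_inv]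
    rw [e5]
    exact (RM M).mul_mem (rr_int _).1 (inv_nat_RM hℓ.out hM hden)
  · have e6 : (q.num : ℚ) = q.den + ℓ * k := by
      have : q.num = (q.den : ℤ) + (ℓ : ℤ) * k := by linarith
      rw [this]
      push_cast
      ring
    have e7 : q * q.den = q.num := Rat.mul_den_eq_num q
    have e8 : q = (q.den + ℓ * k) / q.den := by
      rw [← e6, ← e7]
      field_simp
    have e9 : (q.den + ℓ * k) / q.den = 1 + ℓ * ((k : ℚ) / q.den) := by
      field_simp
    rw [← e9, ← e8]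

end rat

/-- SYE -/
theorem sye (hLbu : LbuStmt) (hLbg : LbgStmt) : SyeStmt := by
  intro ℓ hℓ M _ hM V₀ G _ _ _ _ E₀ hFr e g i hinj hL hact hsur
  have hF : GoodF ℓ (FF M) := H50.fld ℓ Fact.out M hM
  obtain ⟨hex, huni, htop, -, -⟩ := hLbu ℓ (FF M) hF V₀ G e g i hinj hL
  choose b hb using hex
  have hbtop : b ⊤ = g := huni ⊤ _ _ (hb ⊤) htop
  let B₀ : Bk (FF M) V₀ G := ⟨e, g, i, b, fun _ => 1, fun _ => 1⟩
  have hS₀ : Sb ℓ M E₀ B₀ := ⟨hinj, hL, hact, hsur, hb⟩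
  have hlbg := hLbg ℓ M hM V₀ G E₀ hFr B₀ hS₀
  have hD : ∀ W : Subgroup V₀, ∃ d : ℕ, W ≠ ⊥ → Dg M (fun t : B₀.C W => b W t) d := by
    intro W
    by_cases hW : W = ⊥
    · exact ⟨0, fun h => absurd hW h⟩
    · obtain ⟨h1, h2⟩ := hlbg W hW
      obtain ⟨⟨d, hd⟩, -⟩ := T3.Asm.nil_ ℓ M hM (B₀.C W) _ _ _ h1 h2
      exact ⟨d, fun _ => hd⟩
  choose D hD using hD
  have htb : (⊤ : Subgroup V₀) ≠ ⊥ := by
    intro h
    have h1 : Nat.card V₀ = 1 := by
      rw [← Subgroup.card_top, h, Subgroup.card_bot]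
    rw [hFr.cd] at h1
    have h2 := hℓ.out.one_lt
    have h3 : 1 < ℓ ^ 2 := Nat.one_lt_pow two_ne_zero h2
    omega
  have hCtop : B₀.C ⊤ = Subgroup.centralizer (i.range : Set G) := by
    show Subgroup.centralizer (((⊤ : Subgroup V₀).map i : Subgroup G) : Set G) = _
    rw [← MonoidHom.range_eq_map]
  have hDtop : Dg M (fun t : Subgroup.centralizer (i.range : Set G) => g t) (D ⊤) := by
    have h1 := hD ⊤ htb
    rw [hbtop] at h1
    have h2 : ∀ C : Subgroup G, B₀.C ⊤ = C → Dg M (fun t : C => g t) (D ⊤) := by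
      rintro _ rfl
      exact h1
    exact h2 _ hCtop
  have hS : ∀ W : Subgroup V₀, ∃ ε : ℤ, W ≠ ⊥ → (ε = 1 ∨ ε = -1) ∧ ∃ q ∈ SOR.Rl ℓ,
      (ε * Nat.card (B₀.C W) * D ⊤ / (Nat.card (B₀.C ⊤) * D W) : ℚ) = 1 + ℓ * q := by
    intro W
    by_cases hW : W = ⊥
    · exact ⟨0, fun h => absurd hW h⟩
    · obtain ⟨h1, h2⟩ := hlbg W hW
      have hWV : (W.map i : Subgroup G) ≤ i.range := by
        rw [MonoidHom.range_eq_map]
        exact Subgroup.map_mono le_top
      have hVX : i.range ≤ B₀.C W := by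
        intro v hv
        show v ∈ Subgroup.centralizer ((W.map i : Subgroup G) : Set G)
        rw [Subgroup.mem_centralizer_iff]
        intro w hw
        exact hL.ab w (hWV hw) v hv
      have hCX : Subgroup.centralizer (i.range : Set G) ≤ B₀.C W :=
        Subgroup.centralizer_le hWV
      have hc := T3.H85.dg_equiv (T3.H85.cequiv hVX hCX).symm hL.gam.blk.1.1 hDtop
      obtain ⟨ε, hε, r1, r2⟩ := T3.Asm.nit_ ℓ M hM (B₀.C W) _ _ _ h1 h2 (D W) (D ⊤)
        (hD W hW) hc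
      have hcard : Nat.card (Subgroup.centralizer
          ((B₀.i.range.subgroupOf (B₀.C W) : Subgroup (B₀.C W)) : Set (B₀.C W))) =
          Nat.card (B₀.C ⊤) := by
        rw [hCtop]
        exact Nat.card_congr (T3.H85.cequiv hVX hCX).toEquiv
      rw [hcard] at r1 r2
      refine ⟨ε, fun _ => ⟨hε, ?_⟩⟩
      have e1 : (((ε * Nat.card (B₀.C W) * D ⊤ / (Nat.card (B₀.C ⊤) * D W) : ℚ)) : ℂ) =
          (ε : ℂ) * ((Nat.card (B₀.C W) * D ⊤ : ℂ) / (Nat.card (B₀.C ⊤) * D W)) := by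
        push_cast
        ring
      have e2 : ((ε : FF M)) * ε = 1 := by
        rcases hε with h | h <;> rw [h] <;> norm_num
      apply rat_one hM
      · rw [e1]
        exact (RM M).mul_mem (rr_int _).1 r1
      · rw [e1, rr_mul (rr_int _).1 r1, r2, (rr_int ε).2, e2]
  choose S hS using hS
  exact ⟨⟨e, g, i, b, D, S⟩, rfl, rfl, rfl, ⟨⟨hinj, hL, hact, hsur, hb⟩, hD,
    fun W hW => (hS W hW).1, fun W hW => (hS W hW).2⟩⟩

end Pool.Agent.PP.SO.H1
end
end -- Pool.Agent.Helper1_ASO.SYE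

section -- Pool.Agent.Helper3_ASD.SYD

/-!
# Squad ASD, row SYD: existence of the local data (after `Helper1_ASO/SYE.lean`)
-/

open scoped BigOperators

noncomputable section

namespace Pool.Agent.PP.SD.H3

open Pool.Agent.Helper51_AWC Pool.Agent.Helper79_WRA Pool.Agent.PP Pool.Agent.PP.KF
open Pool.Agent.PP.K9 Pool.Agent.PP.K9.H97 Pool.Agent.PP.H75 Pool.Agent.PP.T3 Pool.Agent.PP.SO
open Pool.Agent.PP.SD

attribute [local instance] Ideal.Quotient.field

/-- SYD -/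
theorem syd (hLbu : LbuStmt) (hLbd : LbdStmt) : SydStmt := by
  classical
  intro ℓ hℓ M _ hM V₀ G _ _ _ _ E₀ hFr e g i hinj hL hact hsur
  have hF : GoodF ℓ (FF M) := H50.fld ℓ Fact.out M hM
  obtain ⟨hex, huni, htop, -, -⟩ := hLbu ℓ (FF M) hF V₀ G e g i hinj hL
  choose b hb using hex
  have hbtop : b ⊤ = g := huni ⊤ _ _ (hb ⊤) htop
  let B₀ : Bk (FF M) V₀ G := ⟨e, g, i, b, fun _ => 1, fun _ => 1⟩
  have hS₀ : Sb ℓ M E₀ B₀ := ⟨hinj, hL, hact, hsur, hb⟩
  have hlbg := hLbd ℓ M hM V₀ G E₀ hFr B₀ hS₀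
  have hD : ∀ W : Subgroup V₀, ∃ d : ℕ, Rw E₀ W → Dg M (fun t : B₀.C W => b W t) d := by
    intro W
    by_cases hW : Rw E₀ W
    · obtain ⟨h1, -, h2⟩ := hlbg W
      obtain ⟨⟨d, hd⟩, -⟩ := T3.Asm.nil_ ℓ M hM (B₀.C W) _ _ _ h1 (h2 hW)
      exact ⟨d, fun _ => hd⟩
    · exact ⟨0, fun h => absurd h hW⟩
  choose D hD using hD
  have htb : Rw E₀ (⊤ : Subgroup V₀) := by
    refine ⟨?_, fun σ _ h => MulEquiv.ext fun v => h v (Subgroup.mem_top v)⟩
    intro h
    have h1 : Nat.card V₀ = 1 := by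
      rw [← Subgroup.card_top, h, Subgroup.card_bot]
    rw [hFr.cd] at h1
    have h2 := hℓ.out.one_lt
    have h3 : 1 < ℓ ^ 2 := Nat.one_lt_pow two_ne_zero h2
    omega
  have hCtop : B₀.C ⊤ = Subgroup.centralizer (i.range : Set G) := by
    show Subgroup.centralizer (((⊤ : Subgroup V₀).map i : Subgroup G) : Set G) = _
    rw [← MonoidHom.range_eq_map]
  have hDtop : Dg M (fun t : Subgroup.centralizer (i.range : Set G) => g t) (D ⊤) := by
    have h1 := hD ⊤ htb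
    rw [hbtop] at h1
    have h2 : ∀ C : Subgroup G, B₀.C ⊤ = C → Dg M (fun t : C => g t) (D ⊤) := by
      rintro _ rfl
      exact h1
    exact h2 _ hCtop
  have hS : ∀ W : Subgroup V₀, ∃ ε : ℤ, Rw E₀ W → (ε = 1 ∨ ε = -1) ∧ ∃ q ∈ SOR.Rl ℓ,
      (ε * Nat.card (B₀.C W) * D ⊤ / (Nat.card (B₀.C ⊤) * D W) : ℚ) = 1 + ℓ * q := by
    intro W
    by_cases hW : Rw E₀ W
    · obtain ⟨h1, -, h2⟩ := hlbg W
      have hWV : (W.map i : Subgroup G) ≤ i.range := by
        rw [MonoidHom.range_eq_map]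
        exact Subgroup.map_mono le_top
      have hVX : i.range ≤ B₀.C W := by
        intro v hv
        show v ∈ Subgroup.centralizer ((W.map i : Subgroup G) : Set G)
        rw [Subgroup.mem_centralizer_iff]
        intro w hw
        exact hL.ab w (hWV hw) v hv
      have hCX : Subgroup.centralizer (i.range : Set G) ≤ B₀.C W :=
        Subgroup.centralizer_le hWV
      have hc := T3.H85.dg_equiv (T3.H85.cequiv hVX hCX).symm hL.gam.blk.1.1 hDtop
      obtain ⟨ε, hε, r1, r2⟩ := T3.Asm.nit_ ℓ M hM (B₀.C W) _ _ _ h1 (h2 hW) (D W) (D ⊤)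
        (hD W hW) hc
      have hcard : Nat.card (Subgroup.centralizer
          ((B₀.i.range.subgroupOf (B₀.C W) : Subgroup (B₀.C W)) : Set (B₀.C W))) =
          Nat.card (B₀.C ⊤) := by
        rw [hCtop]
        exact Nat.card_congr (T3.H85.cequiv hVX hCX).toEquiv
      rw [hcard] at r1 r2
      refine ⟨ε, fun _ => ⟨hε, ?_⟩⟩
      have e1 : (((ε * Nat.card (B₀.C W) * D ⊤ / (Nat.card (B₀.C ⊤) * D W) : ℚ)) : ℂ) =
          (ε : ℂ) * ((Nat.card (B₀.C W) * D ⊤ : ℂ) / (Nat.card (B₀.C ⊤) * D W)) := by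
        push_cast
        ring
      have e2 : ((ε : FF M)) * ε = 1 := by
        rcases hε with h | h <;> rw [h] <;> norm_num
      apply SO.H1.rat_one hM
      · rw [e1]
        exact (RM M).mul_mem (rr_int _).1 r1
      · rw [e1, rr_mul (rr_int _).1 r1, r2, (rr_int ε).2, e2]
    · exact ⟨0, fun h => absurd h hW⟩
  choose S hS using hS
  exact ⟨⟨e, g, i, b, D, S⟩, rfl, rfl, rfl, ⟨⟨hinj, hL, hact, hsur, hb⟩, hD,
    fun W hW => (hS W hW).1, fun W hW => (hS W hW).2⟩⟩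

end Pool.Agent.PP.SD.H3
end
end -- Pool.Agent.Helper3_ASD.SYD

section -- Pool.Agent.Helper33_ASO.NSVA

/-!
# Row NSV: final form
-/

namespace Pool.Agent.PP.SO.H33

open Pool.Agent.PP.T3

/-- NSV -/
theorem nsv (hLbg : LbgStmt) (hIso : IsoStmt) : NsvStmt :=
  nsv_of Asm.nil_ Asm.inr_ Asm.rsv_ Asm.smg_ hLbg hIso

end Pool.Agent.PP.SO.H33
end -- Pool.Agent.Helper33_ASO.NSVA

section -- Pool.Agent.Helper81_ASO.ISO

/-!
# ISO (squad ASO): an integral function on a cyclic group of prime order with `|m^(j)| = 1` for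
`j ≠ 0`
-/

open scoped BigOperators ComplexConjugate

noncomputable section

namespace Pool.Agent.PP.SO.H81

theorem parseval (ℓ : ℕ) (hℓ : 0 < ℓ) (ζ : ℂ) (hζ : IsPrimitiveRoot ζ ℓ) (m : Fin ℓ → ℤ) :
    ∑ j ∈ Finset.range ℓ, Complex.normSq (∑ k : Fin ℓ, (m k : ℂ) * ζ ^ ((k : ℕ) * j)) =
      ℓ * ∑ k, (m k : ℝ) ^ 2 := by
  have hn : ‖ζ‖ = 1 := Complex.norm_eq_one_of_pow_eq_one hζ.pow_eq_one hℓ.ne'
  have hz0 : ζ ≠ 0 := hζ.ne_zero hℓ.ne'
  have hconj : conj ζ = ζ⁻¹ := (Complex.inv_eq_conj hn).symm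
  have hgeo : ∀ k' k : Fin ℓ, ∑ j ∈ Finset.range ℓ, ((ζ⁻¹) ^ (k' : ℕ) * ζ ^ (k : ℕ)) ^ j =
      if k' = k then (ℓ : ℂ) else 0 := by
    intro k' k
    split_ifs with h
    · subst h
      have h1 : (ζ⁻¹) ^ (k' : ℕ) * ζ ^ (k' : ℕ) = 1 := by
        rw [← mul_pow, inv_mul_cancel₀ hz0, one_pow]
      rw [h1]
      simp
    · set w := (ζ⁻¹) ^ (k' : ℕ) * ζ ^ (k : ℕ) with hw
      have hw1 : w ≠ 1 := by
        intro h1
        apply h
        have h2 : ζ ^ (k : ℕ) = ζ ^ (k' : ℕ) := by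
          rw [hw, inv_pow] at h1
          have h3 := pow_ne_zero (k' : ℕ) hz0
          field_simp at h1
          exact h1
        exact Fin.ext (hζ.pow_inj k.2 k'.2 h2).symm
      have hwl : w ^ ℓ = 1 := by
        rw [hw, mul_pow, ← pow_mul, ← pow_mul, mul_comm (k' : ℕ), mul_comm (k : ℕ), pow_mul,
          pow_mul, inv_pow, hζ.pow_eq_one]
        simp
      have h2 := geom_sum_mul w ℓ
      rw [hwl, sub_self] at h2
      rcases mul_eq_zero.1 h2 with h3 | h3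
      · exact h3
      · exact absurd (sub_eq_zero.1 h3) hw1
  have hC : ((∑ j ∈ Finset.range ℓ, Complex.normSq
      (∑ k : Fin ℓ, (m k : ℂ) * ζ ^ ((k : ℕ) * j)) : ℝ) : ℂ) = ((ℓ * ∑ k, (m k : ℝ) ^ 2 : ℝ) : ℂ) := by
    rw [Complex.ofReal_sum]
    have h1 : ∀ j ∈ Finset.range ℓ, ((Complex.normSq
        (∑ k : Fin ℓ, (m k : ℂ) * ζ ^ ((k : ℕ) * j)) : ℝ) : ℂ) =
        ∑ k' : Fin ℓ, ∑ k : Fin ℓ, (m k' : ℂ) * m k * ((ζ⁻¹) ^ (k' : ℕ) * ζ ^ (k : ℕ)) ^ j := by
      intro j _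
      rw [Complex.normSq_eq_conj_mul_self, map_sum, Finset.sum_mul_sum]
      apply Finset.sum_congr rfl
      intro k' _
      apply Finset.sum_congr rfl
      intro k _
      rw [map_mul, map_intCast, map_pow, hconj, mul_pow, ← pow_mul, ← pow_mul]
      ring
    rw [Finset.sum_congr rfl h1, Finset.sum_comm]
    have h2 : ∀ k' : Fin ℓ, ∑ j ∈ Finset.range ℓ, ∑ k : Fin ℓ,
        (m k' : ℂ) * m k * ((ζ⁻¹) ^ (k' : ℕ) * ζ ^ (k : ℕ)) ^ j = ℓ * (m k' : ℂ) ^ 2 := by
      intro k'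
      rw [Finset.sum_comm]
      have h3 : ∀ k : Fin ℓ, ∑ j ∈ Finset.range ℓ,
          (m k' : ℂ) * m k * ((ζ⁻¹) ^ (k' : ℕ) * ζ ^ (k : ℕ)) ^ j =
          if k' = k then (ℓ : ℂ) * (m k' * m k) else 0 := by
        intro k
        rw [← Finset.mul_sum, hgeo]
        split_ifs
        · ring
        · ring
      rw [Finset.sum_congr rfl (fun k _ => h3 k), Finset.sum_ite_eq]
      simp only [Finset.mem_univ, if_true]
      ring
    rw [Finset.sum_congr rfl (fun k' _ => h2 k'), ← Finset.mul_sum]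
    push_cast
    rfl
  exact_mod_cast hC

theorem iso : IsoStmt := by
  intro ℓ _ ζ hζ m hm
  have hp : ℓ.Prime := Fact.out
  have hpar := parseval ℓ hp.pos ζ hζ m
  have hsplit : ∑ j ∈ Finset.range ℓ, Complex.normSq
      (∑ k : Fin ℓ, (m k : ℂ) * ζ ^ ((k : ℕ) * j)) =
      ((∑ k, m k : ℤ) : ℝ) ^ 2 + ((ℓ : ℝ) - 1) := by
    obtain ⟨n, rfl⟩ : ∃ n, ℓ = n + 1 := ⟨ℓ - 1, (Nat.succ_pred_eq_of_pos hp.pos).symm⟩
    rw [Finset.sum_range_succ']
    have h1 : ∀ j ∈ Finset.range n, Complex.normSq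
        (∑ k : Fin (n + 1), (m k : ℂ) * ζ ^ ((k : ℕ) * (j + 1))) = 1 := by
      intro j hj
      apply hm
      intro hd
      have := Nat.le_of_dvd (by omega) hd
      have := Finset.mem_range.1 hj
      omega
    rw [Finset.sum_congr rfl h1]
    have h2 : ∑ k : Fin (n + 1), (m k : ℂ) * ζ ^ ((k : ℕ) * 0) = (((∑ k, m k : ℤ) : ℝ) : ℂ) := by
      push_cast
      simp
    rw [h2, Complex.normSq_ofReal]
    simp
    ring
  rw [hsplit] at hpar
  set S : ℤ := ∑ k, m k with hS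
  have hint : S ^ 2 + ((ℓ : ℤ) - 1) = ℓ * ∑ k, m k ^ 2 := by exact_mod_cast hpar
  have hdvd : (ℓ : ℤ) ∣ (S - 1) * (S + 1) := by
    refine ⟨∑ k, m k ^ 2 - 1, ?_⟩
    linear_combination hint
  have hprime : Prime (ℓ : ℤ) := Nat.prime_iff_prime_int.1 hp
  obtain ⟨ε, c, hε, hSc⟩ : ∃ ε c : ℤ, (ε = 1 ∨ ε = -1) ∧ S = ε + ℓ * c := by
    rcases hprime.dvd_or_dvd hdvd with ⟨c, hc⟩ | ⟨c, hc⟩
    · exact ⟨1, c, Or.inl rfl, by linarith⟩
    · exact ⟨-1, c, Or.inr rfl, by linarith⟩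
  have hε2 : ε ^ 2 = 1 := by rcases hε with rfl | rfl <;> norm_num
  -- the shifted function
  have hsum1 : ∑ k, (m k - c) = ε := by
    rw [Finset.sum_sub_distrib, Finset.sum_const, Finset.card_univ, Fintype.card_fin,
      nsmul_eq_mul, ← hS, hSc]
    ring
  have hsum2 : ∑ k, (m k - c) ^ 2 = 1 := by
    have h1 : ∑ k, (m k - c) ^ 2 = ∑ k, m k ^ 2 - 2 * c * S + ℓ * c ^ 2 := by
      have h2 : ∀ k, (m k - c) ^ 2 = m k ^ 2 - 2 * c * m k + c ^ 2 := fun k => by ring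
      rw [Finset.sum_congr rfl (fun k _ => h2 k), Finset.sum_add_distrib,
        Finset.sum_sub_distrib, ← Finset.mul_sum, Finset.sum_const, Finset.card_univ,
        Fintype.card_fin, nsmul_eq_mul]
    have hl0 : (ℓ : ℤ) ≠ 0 := by exact_mod_cast hp.ne_zero
    apply mul_left_cancel₀ hl0
    rw [h1]
    have h3 : (ℓ : ℤ) * (∑ k, m k ^ 2 - 2 * c * S + ℓ * c ^ 2) =
        S ^ 2 + ((ℓ : ℤ) - 1) - 2 * ℓ * c * S + ℓ ^ 2 * c ^ 2 := by
      rw [hint]
      ring
    rw [h3, hSc]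
    linear_combination hε2
  have hex : ∃ j₀, m j₀ - c ≠ 0 := by
    by_contra h
    push Not at h
    rw [Finset.sum_congr rfl (fun k _ => by rw [h k])] at hsum2
    simp at hsum2
  obtain ⟨j₀, hj₀⟩ := hex
  have hoth : ∀ k, k ≠ j₀ → m k - c = 0 := by
    intro k hk
    by_contra hne
    have h1 : (m j₀ - c) ^ 2 + (m k - c) ^ 2 ≤ ∑ k, (m k - c) ^ 2 := by
      rw [← Finset.add_sum_erase _ _ (Finset.mem_univ j₀)]
      have h2 : (m k - c) ^ 2 ≤ ∑ x ∈ Finset.univ.erase j₀, (m x - c) ^ 2 :=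
        Finset.single_le_sum (f := fun x => (m x - c) ^ 2) (fun x _ => sq_nonneg _)
          (Finset.mem_erase.2 ⟨hk, Finset.mem_univ k⟩)
      linarith
    have h3 : 0 < (m j₀ - c) ^ 2 := by positivity
    have h4 : 0 < (m k - c) ^ 2 := by positivity
    rw [hsum2] at h1
    omega
  have hval : m j₀ - c = ε := by
    rw [← hsum1, ← Finset.add_sum_erase _ _ (Finset.mem_univ j₀)]
    rw [Finset.sum_eq_zero (fun x hx => hoth x (Finset.mem_erase.1 hx).1), add_zero]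
  refine ⟨j₀, ε, c, hε, ?_⟩
  intro k
  split_ifs with h
  · subst h
    linarith
  · linarith [hoth k h]

end Pool.Agent.PP.SO.H81
end
end -- Pool.Agent.Helper81_ASO.ISO

section -- Pool.Agent.Helper7_ASD.NSD

/-!
# Row NSD: the values of the central characters in the local blocks with `Rw E₀ W`
-/

open scoped BigOperators

noncomputable section

namespace Pool.Agent.PP.SD.H7

open Pool.Agent.Helper51_AWC Pool.Agent.Helper79_WRA Pool.Agent.PP Pool.Agent.PP.KF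
open Pool.Agent.PP.K9 Pool.Agent.PP.K9.H97 Pool.Agent.PP.H75 Pool.Agent.PP.T3 Pool.Agent.PP.SO
open Pool.Agent.PP.SO.H33

attribute [local instance] Ideal.Quotient.field

section tr

variable {ℓ : ℕ} [hℓ : Fact ℓ.Prime] {M : Ideal (integralClosure ℤ ℂ)} [M.IsMaximal]
  {V₀ G : Type} [CommGroup V₀] [Group G] {E₀ : Subgroup (MulAut V₀)} (B : Bk (FF M) V₀ G)
  [Finite G] [Finite V₀]

omit [Finite V₀] in
theorem rw_top {W : Subgroup V₀} (hW : Rw E₀ W) : Rw E₀ ⊤ :=
  ⟨fun h => hW.1 (eq_bot_iff.2 (h ▸ le_top)),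
    fun _ _ h => MulEquiv.ext fun v => h v (Subgroup.mem_top v)⟩

/-- the data of the local block -/
theorem hd_ofD (hM : (ℓ : integralClosure ℤ ℂ) ∈ M) (hFr : Fq ℓ V₀ E₀)
    (hLbg : LbdStmt) (hB : Sd ℓ M E₀ B) {W : Subgroup V₀} (hRw : Rw E₀ W) :
    HD ℓ M W (jW B W) (fun t : B.C W => B.b W t) (fun t : B.C W => B.g t) (B.D W) (B.D ⊤)
      (B.S W) ∧ ((B.U W : ℚ) : ℂ) = B.S W * Nat.card (B.C W) * B.D ⊤ /
        (Nat.card (Subgroup.centralizer ((jW B W).range : Set (B.C W))) * B.D W) := by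
  have hW : W ≠ ⊥ := hRw.1
  have hVX := i_le_C B W
  have hCX := C_top_le B W
  obtain ⟨l1, _, l3⟩ := hLbg ℓ M hM V₀ G E₀ hFr B hB.toSb W
  have l2 := l3 hRw
  have hcardC : Nat.card (Subgroup.centralizer ((jW B W).range : Set (B.C W))) =
      Nat.card (B.C ⊤) := by
    rw [C_top, jW_range]
    exact Nat.card_congr (H85.cequiv hVX hCX).toEquiv
  have hU : ((B.U W : ℚ) : ℂ) = B.S W * Nat.card (B.C W) * B.D ⊤ /
        (Nat.card (Subgroup.centralizer ((jW B W).range : Set (B.C W))) * B.D W) := by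
    rw [hcardC]
    unfold Bk.U
    push_cast
    ring
  have htop : Rw E₀ (⊤ : Subgroup V₀) := rw_top hRw
  have hdc : Dg M (fun t : Subgroup.centralizer ((jW B W).range : Set (B.C W)) =>
      B.g ((t : B.C W) : G)) (B.D ⊤) := by
    have h1 := hB.dg ⊤ htop
    rw [b_top B hB.toSb] at h1
    have h2 : Dg M (fun t : Subgroup.centralizer (B.i.range : Set G) => B.g t) (B.D ⊤) := by
      have h3 : ∀ X : Subgroup G, X = Subgroup.centralizer (B.i.range : Set G) →
          Dg M (fun t : X => B.g t) (B.D ⊤) →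
          Dg M (fun t : Subgroup.centralizer (B.i.range : Set G) => B.g t) (B.D ⊤) := by
        rintro X rfl h
        exact h
      exact h3 _ (C_top B) h1
    have h4 := H85.dg_equiv (H85.cequiv hVX hCX).symm hB.ld.gam.blk.1.1 h2
    rw [jW_range]
    exact h4
  obtain ⟨q, hq, hUq⟩ := hB.un W hRw
  obtain ⟨u1, u2⟩ := unit_RM hM hq hUq
  rw [hU] at u1 u2
  refine ⟨{ ex := hFr.ex, cd := hFr.cd, nb := hW, inj := ?_, cen := fun w hw => jW_cen B W hw,
            ld := ?_, ix1 := ?_, dd := hB.dg W hRw, dc := hdc, sg := hB.sg W hRw,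
            un := u1, un1 := u2 }, hU⟩
  · intro v w h
    exact hB.inj (congrArg Subtype.val h)
  · rw [jW_range]
    exact l1
  · rw [jW_range]
    exact l2

end tr

/-- NSD, from the library -/
theorem nsd_of (hNil : NilStmt) (hInr : InrStmt) (hRsv : RsvStmt) (hSmg : SmgStmt)
    (hLbg : LbdStmt) (hIso : SO.IsoStmt) : NsdStmt := by
  classical
  intro ℓ _ M _ hM h2 V₀ G _ _ _ _ E₀ hFr B hB W hRw
  have hW : W ≠ ⊥ := hRw.1
  have := Fintype.ofFinite G
  have := Fintype.ofFinite V₀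
  have := Fintype.ofFinite (B.C W)
  obtain ⟨hd, hU⟩ := hd_ofD B hM hFr hLbg hB hRw
  obtain ⟨μ, m1, m2, m3, m4, m5, m6, m7⟩ :=
    hd.main hM h2 hNil hInr hRsv hIso hSmg hU
  -- notation
  have hux : ∀ x, ((ux B.U W x : ℚ) : ℂ) = UX W ((B.U W : ℚ) : ℂ) x := by
    intro x
    unfold ux UX
    split_ifs
    · exact Rat.cast_one
    · rfl
  have hU0 : ((B.U W : ℚ) : ℂ) ≠ 0 := by
    have h3 := (unit_RM hM (hB.un W hRw).choose_spec.1 (hB.un W hRw).choose_spec.2).2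
    intro h0
    rw [h0, rr_zero] at h3
    exact zero_ne_one h3
  have hux0 : ∀ x, ((ux B.U W x : ℚ) : ℂ) ≠ 0 := by
    intro x
    rw [hux]
    unfold UX
    split_ifs
    · exact one_ne_zero
    · exact hU0
  have hcv : ∀ χ : G → ℂ, (∀ x, x ∉ B.C W → χ x = 0) → ∀ x, SO.cv (fc B W x) χ =
      (∑ t : B.C W, FX M W (jW B W) (fun t : B.C W => B.b W t) (fun t : B.C W => B.g t) x t *
        χ t) / χ 1 := by
    intro χ hχ x
    unfold SO.cv
    rw [sum_supp B W hχ]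
    simp_rw [fc_eq B hFr.cd hB.toSb hW]
  have hin : ∀ χ ∈ Ch B W, ∀ x, SO.cv (fc B W x) χ =
      ((ux B.U W x : ℚ) : ℂ) * μ (fun t : B.C W => χ t) x := by
    intro χ hχ x
    have h3 := m2 (fun t : B.C W => χ t) hχ.2 x
    have h4 : χ 1 ≠ 0 := by
      have h5 := irr_one_ne hχ.2.1
      exact h5
    rw [hcv χ hχ.1, h3, hux]
    show χ 1 * _ / χ 1 = _
    field_simp
  have hlam : ∀ χ ∈ Ch B W, lam B W χ = μ (fun t : B.C W => χ t) := by
    intro χ hχ
    funext x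
    unfold lam
    rw [hin χ hχ x, mul_div_cancel_left₀ _ (hux0 x)]
  have hout : ∀ χ : G → ℂ, (∀ x, x ∉ B.C W → χ x = 0) →
      (fun t : B.C W => χ t) ∈ Irr (B.C W) → χ ∉ Ch B W →
      (fun t : B.C W => χ t) ∉ IrrE M (fun t : B.C W => B.b W t) :=
    fun χ h3 _ h5 h6 => h5 ⟨h3, h6⟩
  have htopsum : ∀ χ : G → ℂ, (∀ x, x ∉ B.C W → χ x = 0) → ∑ᶠ s, bh B ⊤ s * χ s =
      ∑ t : B.C W, EG M (Subgroup.centralizer ((jW B W).range : Set (B.C W)))
        (fun t : B.C W => B.g t) t * χ t := by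
    intro χ hχ
    rw [sum_supp B W hχ]
    simp_rw [bh_top B hB.toSb W]
  refine ⟨⟨?_, ?_, ?_⟩, ?_, ?_, ?_, ?_, ?_, ?_⟩
  · intro χ hχ
    rw [hlam χ hχ]
    exact m1.mapsTo hχ.2
  · intro χ hχ χ' hχ' h
    rw [hlam χ hχ, hlam χ' hχ'] at h
    have h3 := m1.injOn hχ.2 hχ'.2 h
    funext x
    by_cases hx : x ∈ B.C W
    · exact congrFun h3 ⟨x, hx⟩
    · rw [hχ.1 x hx, hχ'.1 x hx]
  · intro f hf
    obtain ⟨ψ, hψ, hψf⟩ := m1.surjOn hf
    have h3 : (fun t : B.C W => PP.ext0 (B.C W) ψ t) = ψ := by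
      funext t
      unfold PP.ext0
      rw [dif_pos t.2]
    have h4 : PP.ext0 (B.C W) ψ ∈ Ch B W := by
      refine ⟨?_, ?_⟩
      · intro x hx
        unfold PP.ext0
        rw [dif_neg hx]
      · rw [h3]
        exact hψ
    refine ⟨PP.ext0 (B.C W) ψ, h4, ?_⟩
    rw [hlam _ h4, h3]
    exact hψf
  · intro χ hχ x
    rw [hin χ hχ x, hlam χ hχ]
  · intro χ h3 h4 h5 x
    rw [hcv χ h3, m3 _ h4 (hout χ h3 h4 h5) x, zero_div]
  · intro χ hχ y hy
    have h3 := m4 _ hχ.2 ⟨y, hy⟩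
    rw [hlam χ hχ, finsum_eq_sum_of_fintype]
    refine h3.trans ?_
    congr 1
    refine Finset.sum_congr rfl fun x _ => ?_
    rw [hux, ← fc_eq B hFr.cd hB.toSb hW x (⟨y, hy⟩⁻¹ : B.C W)]
    rfl
  · intro χ hχ
    obtain ⟨m₀, h3⟩ := m5 _ hχ.2
    refine ⟨m₀, ?_⟩
    rw [htopsum χ hχ.1]
    rcases h3 with h3 | ⟨h3, h4⟩
    · exact Or.inl h3
    · refine Or.inr ⟨?_, h4⟩
      rw [C_top]
      refine le_antisymm ?_ (C_top_le B W)
      intro y hy
      have h5 : (⟨y, hy⟩ : B.C W) ∈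
          Subgroup.centralizer ((jW B W).range : Set (B.C W)) := by
        rw [h3]
        exact Subgroup.mem_top _
      rw [jW_range] at h5
      exact (cent_sub (i_le_C B W) _).1 h5
  · intro χ h3 h4 h5
    obtain ⟨m₀, h6⟩ := m6 _ h4 (hout χ h3 h4 h5)
    exact ⟨m₀, by rw [htopsum χ h3]; exact h6⟩
  · have h3 := bh_W B W (1 : B.C W)
    rw [m7] at h3
    exact h3

/-- NSD -/
theorem nsd (hLbd : LbdStmt) : NsdStmt :=
  nsd_of Asm.nil_ Asm.inr_ Asm.rsv_ Asm.smg_ hLbd SO.H81.iso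

end Pool.Agent.PP.SD.H7
end
end -- Pool.Agent.Helper7_ASD.NSD
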