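import Pool.Agent.Helper12_AWB.B166
import Pool.Agent.Helper12_AWB.B184
import Pool.Agent.Helper12_AWB.B275

/-!
# Merged copies (generated) of the modules

* `Pool.Agent.Helper21_AT12.LBY`
* `Pool.Agent.Helper64_PFD.YAD`
* `Pool.Agent.Helper86_PSS.QLN`
* `Pool.Agent.Helper66_WAT.FNW`
* `Pool.Agent.Helper66_PFD.Fne`
* `Pool.Agent.Helper95_PFD.FND`
* `Pool.Agent.Helper20_WAX.FNX`
* `Pool.Agent.Helper66_PSS.Fns`
-/

set_option autoImplicit false

section -- Pool.Agent.Helper21_AT12.LBY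

/-!
# Squad AT12, row LBY: lower bound for the number of modular characters of the image of the block
-/

open scoped BigOperators

noncomputable section

namespace Pool.Agent.PP.T12.H21

open Pool.Agent.Helper51_AWC Pool.Agent.Helper79_WRA Pool.Agent.PP Pool.Agent.PP.KF
open Pool.Agent.PP.K9 Pool.Agent.PP.C2

attribute [local instance] Ideal.Quotient.field

/-- LBY -/
theorem lby (hInu : InuStmt) (hNrm : NrmStmt) (hPsn : PsnStmt) (hCyn : T12.CynStmt) :
    T12.LbyStmt := by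
  intro ℓ hℓ M _ hM G H _ _ _ _ e V γ hL y hy a π hπ β hβ hcyc hne ht₀
  have hpr : ℓ.Prime := hℓ.out
  have hF : GoodF ℓ (FF M) := PP.H50.fld ℓ hℓ.out M hM
  have hI : Inr ℓ e V γ (T3.Tg V γ) :=
    ⟨hL.blk, hL.tp, hL.ab, ⟨hL.gam.supp, hL.gam.blk⟩, hL.und, rfl⟩
  have hA : Ab V γ y β := ⟨⟨hβ.blk.supp, hβ.blk.blk⟩, hβ.gam⟩
  have hI1 := hInu ℓ (FF M) hF G e V γ _ hI y hy β hA
  have hVC : V ≤ Cu y := by
    intro v hv
    rw [Subgroup.mem_centralizer_singleton_iff]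
    exact hI.comm v hv y hy
  have hCC : Subgroup.centralizer (V : Set G) ≤ Cu y := by
    intro x hx
    rw [Subgroup.mem_centralizer_singleton_iff]
    exact (Subgroup.mem_centralizer_iff.1 hx y hy).symm
  obtain ⟨T, hT⟩ : ∃ T : Subgroup G, T = T3.Tg V γ := ⟨_, rfl⟩
  rw [← hT] at hI hI1 ht₀ ⊢
  obtain ⟨V1, hV1⟩ : ∃ V1 : Subgroup (Cu y), V1 = V.subgroupOf (Cu y) := ⟨_, rfl⟩
  obtain ⟨T1, hT1⟩ : ∃ T1 : Subgroup (Cu y), T1 = T.subgroupOf (Cu y) := ⟨_, rfl⟩
  obtain ⟨b, hb⟩ : ∃ b : Cu y → FF M, b = fun t : Cu y => β t := ⟨_, rfl⟩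
  obtain ⟨g, hg⟩ : ∃ g : Cu y → FF M, g = fun t : Cu y => γ t := ⟨_, rfl⟩
  rw [← hV1, ← hT1, ← hb, ← hg] at hI1
  rw [← hb]
  rw [← hV1] at hcyc hne
  have e1 : Subgroup.centralizer (V1 : Set (Cu y)) =
      (Subgroup.centralizer (V : Set G)).subgroupOf (Cu y) := by
    ext x
    rw [Subgroup.mem_subgroupOf, Subgroup.mem_centralizer_iff, Subgroup.mem_centralizer_iff]
    constructor
    · intro h v hv
      have := h ⟨v, hVC hv⟩ (by rw [hV1]; exact hv)
      exact congrArg Subtype.val this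
    · intro h v hv
      rw [hV1] at hv
      exact Subtype.ext (h v hv)
  have hcyc1 : ∃ t₀ ∈ T1, ∀ t ∈ T1, ∃ k : ℕ,
      t₀ ^ k * t ∈ Subgroup.centralizer (V1 : Set (Cu y)) := by
    obtain ⟨t₀, ⟨ht1, ht2⟩, h⟩ := ht₀
    refine ⟨⟨t₀, ht2⟩, ?_, ?_⟩
    · rw [hT1, Subgroup.mem_subgroupOf]
      exact ht1
    · intro t ht
      rw [hT1, Subgroup.mem_subgroupOf] at ht
      obtain ⟨k, hk⟩ := h t ⟨ht, t.2⟩
      refine ⟨k, ?_⟩
      rw [e1, Subgroup.mem_subgroupOf]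
      exact hk
  have h1 := hNrm ℓ M hM (Cu y) b V1 g T1 hI1 hcyc1
  have h2 : (Subgroup.centralizer (V1 : Set (Cu y))).relIndex T1 =
      (Subgroup.centralizer (V : Set G)).relIndex (T ⊓ Cu y) := by
    have e2 : T1 = (T ⊓ Cu y).subgroupOf (Cu y) := by
      rw [hT1, Subgroup.inf_subgroupOf_right]
    rw [e1, e2, Subgroup.relIndex_subgroupOf inf_le_right]
  -- the kernel
  obtain ⟨z, hz⟩ : ∃ z : Cu y, z = ⟨y, hVC hy⟩ := ⟨_, rfl⟩
  have hzc : z ∈ Subgroup.center (Cu y) := by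
    rw [Subgroup.mem_center_iff]
    intro g
    apply Subtype.ext
    rw [hz]
    exact Subgroup.mem_centralizer_singleton_iff.1 g.2
  have hzV : z ∈ V1 := by
    rw [hV1, Subgroup.mem_subgroupOf, hz]
    exact hy
  have hps : Function.Surjective π := hπ.sur
  have hpk : π.ker = Subgroup.zpowers z := by
    ext c
    rw [MonoidHom.mem_ker, hπ.ker, Subgroup.mem_zpowers_iff, Subgroup.mem_zpowers_iff]
    constructor
    · rintro ⟨k, hk⟩
      refine ⟨k, Subtype.ext ?_⟩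
      rw [hz, ← hk]
      rfl
    · rintro ⟨k, hk⟩
      refine ⟨k, ?_⟩
      rw [← hk, hz]
      rfl
  have hQV : π.ker ≤ V1 := by rw [hpk]; exact Subgroup.zpowers_le.2 hzV
  have hVc : (V1.map π).comap π = V1 := Subgroup.comap_map_eq_self hQV
  have hkp : IsPGroup ℓ π.ker := hI1.tp.pg.to_le hQV
  have hkc : π.ker ≤ Subgroup.center (Cu y) := by rw [hpk]; exact Subgroup.zpowers_le.2 hzc
  have hbi : IsIdem b := hI1.blk.1
  have hb' : IsBlk (PP.H75.push π b) := hPsn ℓ (FF M) hF _ _ π hps hkp hkc b hI1.blk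
  have hV'g : Gd (PP.H75.push π b) (V1.map π) :=
    (H02.pug ℓ (FF M) hF _ _ π hps hkp b hbi V1 hQV hI1.tp.pg).1 hI1.tp.gd
  have hV't : Tp ℓ (PP.H75.push π b) (V1.map π) := by
    refine ⟨hI1.tp.pg.map π, hV'g, ?_⟩
    intro R hR hRg
    have k1 : π.ker ≤ R.comap π := by
      intro x hx
      rw [MonoidHom.mem_ker] at hx
      rw [Subgroup.mem_comap, hx]
      exact R.one_mem
    have k2 : IsPGroup ℓ (R.comap π) := (PP.H75.isPGroup_comap_iff hps hkp R).2 hR
    have k3 := (H02.pug ℓ (FF M) hF _ _ π hps hkp b hbi (R.comap π) k1 k2).2 (by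
      rw [Subgroup.map_comap_eq_self_of_surjective hps]
      exact hRg)
    have k4 := hI1.tp.mx _ k2 k3
    rw [← hVc, PP.H75.card_comap hps, PP.H75.card_comap hps] at k4
    exact Nat.le_of_mul_le_mul_left k4 Nat.card_pos
  have h3 := hCyn ℓ M hM _ (PP.H75.push π b) hb' (V1.map π) hV't hne hcyc
  -- the numbers
  have hV1p : IsPGroup ℓ V1 := hI1.tp.pg
  have n1 : lb (fun t : Subgroup.normalizer (V1 : Set (Cu y)) => br V1 b t) =
      lnum (Subgroup.normalizer (V1 : Set (Cu y))) b :=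
    ((K9.H75.lbr ℓ (FF M) hF (Cu y) b hbi V1 (Subgroup.normalizer (V1 : Set (Cu y))) hV1p
      Subgroup.le_normalizer le_rfl).1).symm
  have n2 : lb (fun t : Subgroup.normalizer ((V1.map π : Subgroup H) : Set H) =>
        br (V1.map π) (PP.H75.push π b) t) =
      lnum (Subgroup.normalizer ((V1.map π : Subgroup H) : Set H)) (PP.H75.push π b) :=
    ((K9.H75.lbr ℓ (FF M) hF _ (PP.H75.push π b) hb'.1 (V1.map π)
      (Subgroup.normalizer ((V1.map π : Subgroup H) : Set H)) (hV1p.map π)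
      Subgroup.le_normalizer le_rfl).1).symm
  have n3 : (Subgroup.normalizer ((V1.map π : Subgroup H) : Set H)).comap π =
      Subgroup.normalizer (V1 : Set (Cu y)) := by
    ext x
    rw [Subgroup.mem_comap, ← PP.H75.normalizer_comap hps, hVc]
  have n4 := PP.H75.lnum_comap PP.H20.nls hF hps hkp
    (Subgroup.normalizer ((V1.map π : Subgroup H) : Set H)) b
  rw [n3] at n4
  change _ ≤ lb (PP.H75.push π b)
  rw [h3, n2, ← n4, ← n1, ← h2]
  exact h1

end Pool.Agent.PP.T12.H21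
end
end -- Pool.Agent.Helper21_AT12.LBY

section -- Pool.Agent.Helper64_PFD.YAD

/-!
# Squad PFD, row YAD: additivity of the alternating sum of `push p f`
-/

open scoped BigOperators

noncomputable section

namespace Pool.Agent.PFD.H64

open Pool.Agent.Helper51_AWC Pool.Agent.Helper79_WRA Pool.Agent.PP Pool.Agent.PP.KF
open Pool.Agent.PP.K9 Pool.Agent.PP.K9.H97 Pool.Agent.PP.H75 Pool.Agent.PP.T3 Pool.Agent.PP.T2

/-- YAD -/
theorem yad : YadStmt := by
  intro ℓ F _ hF N A _ _ _ _ p hp f hf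
  have : Fact ℓ.Prime := ⟨hF.prime⟩
  refine H46.idem_induction (fun f : N → F => (∀ c : N → F, IsBlk c → mulF f c = c →
    YY ℓ ⊤ (push p c) = 0) → YY ℓ ⊤ (push p f) = 0) ?_ ?_ ?_ f hf
  · intro _
    rw [push_zero]
    exact H67.YY_zero hF ⊤
  · intro b hb h
    exact h b hb hb.1.2
  · intro e₁ e₂ h1 h2 h12 p1 p2 h
    have h21 : mulF e₂ e₁ = 0 := by rw [← H46.mulF_comm h1.1, h12]
    have hd : ∀ f : N → F, mulF (e₁ + e₂) f = mulF e₁ f + mulF e₂ f := by
      intro f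
      apply ma_injective
      rw [ma_mul, ma_add, ma_add, ma_mul, ma_mul, add_mul]
    have hz : ∀ f : N → F, mulF (0 : N → F) f = 0 := by
      intro f
      apply ma_injective
      rw [ma_mul, ma_zero, zero_mul]
    have hp12 : mulF (push p e₁) (push p e₂) = 0 := by rw [← push_mulF, h12, push_zero]
    rw [T3.H43.push_add, H9.YY_add hF H94.nch H20.nls H20.brm H20.eig H20.ibf ⊤
      (push_isIdem hp h1) (push_isIdem hp h2) hp12, p1, p2, add_zero]
    · intro f hf hfe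
      apply h f hf
      rw [hd, hfe]
      have : mulF e₁ f = 0 := by rw [← hfe, ← mulF_assoc, h12, hz]
      rw [this, zero_add]
    · intro f hf hfe
      apply h f hf
      rw [hd, hfe]
      have : mulF e₂ f = 0 := by rw [← hfe, ← mulF_assoc, h21, hz]
      rw [this, add_zero]

end Pool.Agent.PFD.H64
end
end -- Pool.Agent.Helper64_PFD.YAD

section -- Pool.Agent.Helper86_PSS.QLN

/-!
# Squad PSS, row QLN: the number of the modular characters in a quotient
-/

set_option autoImplicit false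

open scoped BigOperators

noncomputable section

namespace Pool.Agent.PSS.H86

open Pool.Agent.Helper51_AWC Pool.Agent.Helper79_WRA Pool.Agent.PP Pool.Agent.PP.KF
open Pool.Agent.PP.K9 Pool.Agent.PP.K9.H97 Pool.Agent.PP.H75 Pool.Agent.PP.T3 Pool.Agent.PP.T2

theorem ln_zero {ℓ : ℕ} {F : Type} [Field F] (hF : GoodF ℓ F) {X : Type} [Group X] [Finite X] :
    ln (0 : X → F) = 0 := by
  have h := H9.ncard_add hF H20.eig H20.ibf (H46.isIdem_zero (F := F) (H := X))
    H46.isIdem_zero (H46.mulF_zero 0)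
  rw [add_zero] at h
  unfold ln
  omega

/-- the number of the modular characters of `N(Q)` in an idempotent of `A` -/
theorem ln_ind {ℓ : ℕ} {F : Type} [Field F] (hF : GoodF ℓ F) {A : Type} [Group A] [Finite A]
    {Q : Subgroup A} (hQ : IsPGroup ℓ Q) : ∀ f : A → F, IsIdem f →
    (∀ c : A → F, IsBlk c → mulF f c = c → ln c = lnum (Subgroup.normalizer (Q : Set A)) c) →
    ln f = lnum (Subgroup.normalizer (Q : Set A)) f := by
  have : Fact ℓ.Prime := ⟨hF.prime⟩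
  refine H46.idem_induction (fun f : A → F => (∀ c : A → F, IsBlk c → mulF f c = c →
    ln c = lnum (Subgroup.normalizer (Q : Set A)) c) →
    ln f = lnum (Subgroup.normalizer (Q : Set A)) f) ?_ ?_ ?_
  · intro _
    rw [ln_zero hF]
    exact (ln_zero hF (X := Subgroup.normalizer (Q : Set A))).symm
  · intro b hb h
    exact h b hb hb.1.2
  · intro e₁ e₂ h1 h2 h12 p1 p2 h
    have h21 : mulF e₂ e₁ = 0 := by rw [← H46.mulF_comm h1.1, h12]
    have hd : ∀ f : A → F, mulF (e₁ + e₂) f = mulF e₁ f + mulF e₂ f := by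
      intro f
      apply ma_injective
      rw [ma_mul, ma_add, ma_add, ma_mul, ma_mul, add_mul]
    have hz : ∀ f : A → F, mulF (0 : A → F) f = 0 := by
      intro f
      apply ma_injective
      rw [ma_mul, ma_zero, zero_mul]
    have k1 : ln (e₁ + e₂) = ln e₁ + ln e₂ := H9.ncard_add hF H20.eig H20.ibf h1 h2 h12
    have k2 := H9.lnum_add hF H20.nls H20.brm H20.eig H20.ibf hQ
      (Subgroup.le_normalizer (H := Q)) (Subgroup.centralizer_le_normalizer _) le_rfl h1 h2 h12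
    rw [k1, k2, p1, p2]
    · intro f hf hfe
      apply h f hf
      rw [hd, hfe]
      have : mulF e₁ f = 0 := by rw [← hfe, ← mulF_assoc, h12, hz]
      rw [this, zero_add]
    · intro f hf hfe
      apply h f hf
      rw [hd, hfe]
      have : mulF e₂ f = 0 := by rw [← hfe, ← mulF_assoc, h21, hz]
      rw [this, add_zero]

/-- QLN -/
theorem qln : QlnStmt := by
  intro ℓ _ F _ hF G A _ _ _ _ p hp V hV hk e he h
  have hkp : IsPGroup ℓ p.ker := hV.to_le hk
  have hQ : IsPGroup ℓ (V.map p : Subgroup A) := hV.map p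
  have h1 : lnum (⊤ : Subgroup A) (push p e) = ln e := by
    rw [← lnum_comap H20.nls hF hp hkp, Subgroup.comap_top, K9.H35.lnum_top]
    rfl
  have h2 : lnum (⊤ : Subgroup A) (push p e) = ln (push p e) := by
    rw [K9.H35.lnum_top]
    rfl
  have h3 : ln (push p e) = lnum (Subgroup.normalizer ((V.map p : Subgroup A) : Set A))
      (push p e) := by
    refine ln_ind hF hQ (push p e) (push_isIdem hp he) fun c hc hce => ?_
    rw [h c hc hce, (K9.H75.lbr ℓ F hF A c hc.1 (V.map p)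
      (Subgroup.normalizer ((V.map p : Subgroup A) : Set A)) hQ Subgroup.le_normalizer le_rfl).1]
    rfl
  have h4 : (Subgroup.normalizer ((V.map p : Subgroup A) : Set A)).comap p =
      Subgroup.normalizer (V : Set G) := by
    ext x
    rw [Subgroup.mem_comap, ← normalizer_comap hp, Subgroup.comap_map_eq_self hk]
  have h5 : lnum (Subgroup.normalizer (V : Set G)) e =
      ln (fun t : Subgroup.normalizer (V : Set G) => br V e t) := by
    rw [(K9.H75.lbr ℓ F hF G e he V (Subgroup.normalizer (V : Set G))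
      hV Subgroup.le_normalizer le_rfl).1]
    rfl
  rw [← h1, h2, h3, ← lnum_comap H20.nls hF hp hkp, h4, h5]

end Pool.Agent.PSS.H86
end
end -- Pool.Agent.Helper86_PSS.QLN

section -- Pool.Agent.Helper66_WAT.FNW

/-!
# Squad WAT, row FNW

The final theorem for characters (adapted from `Helper24_AT8/FN8`, `Helper7_AT12/FNC`).
-/

open scoped BigOperators

set_option autoImplicit false

noncomputable section

namespace Pool.Agent.PP.TV.H66

open Pool.Agent.Helper51_AWC Pool.Agent.Helper79_WRA Pool.Agent.PP Pool.Agent.PP.KF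
open Pool.Agent.PP.K9 Pool.Agent.PP.K9.H97 Pool.Agent.PP.H75 Pool.Agent.PP.T3 Pool.Agent.PP.T2
open Pool.Agent.PP.T8 Pool.Agent.PP.T8.H24

attribute [local instance] Ideal.Quotient.field

/-- the passage to the quotient by the core -/
theorem core (hF : T3.FltStmt) (hZ : T2.DzaStmt) (hQ : T8.Qt3Stmt) (hInx : K9.InxStmt)
    (ℓ : ℕ) [hfact : Fact ℓ.Prime] (M : Ideal (integralClosure ℤ ℂ)) [M.IsMaximal]
    (hM : (ℓ : integralClosure ℤ ℂ) ∈ M) (G : Type) [Group G] [Finite G]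
    (hc : opCore ℓ G ≤ Subgroup.center G) (χ : G → ℂ) (hχ : χ ∈ Irr G) (D : Subgroup G)
    (hD : ML.IsDef ℓ M χ D) (hab : ∀ x ∈ D, ∀ y ∈ D, x * y = y * x)
    (θ : Subgroup.centralizer (D : Set G) → ℂ)
    (hθ : θ ∈ IrrBlock M (Subgroup.centralizer (D : Set G)).subtype χ)
    (A : Type) [Group A] [Finite A] (p : G →* A) (hsurj : Function.Surjective p)
    (hker : p.ker = opCore ℓ G) :
    ∃ (e γ : G → FF M) (γ' : A → FF M), Ld ℓ e D γ ∧ (Tg D γ : Set G) = Iner M D θ ∧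
      Ld ℓ (push p e) (D.map p) γ' ∧ (∃ P : G →* A, Tr D γ (D.map p) γ' P) ∧
      Fq D γ (D.map p) γ' ∧ (D ≠ opCore ℓ G → D.map p ≠ ⊥) ∧ ¬ ℓ ∣ ix D γ ∧
      (Fd ℓ M D θ → Fr (D.map p) γ') ∧ (YY ℓ ⊤ (push p e) = 0 → altSum ℓ M χ = 0) := by
  have hℓ := hfact.out
  have hGF : GoodF ℓ (FF M) := H50.fld ℓ hℓ M hM
  obtain ⟨e, he, h1, h2⟩ := H50.bid ℓ hℓ M hM G χ hχ
  have hn : (opCore ℓ G).Normal := H75.opCore_normal (A := G) ℓ
  have hkp : IsPGroup ℓ p.ker := by
    rw [hker]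
    exact H75.opCore_isPGroup hℓ
  have hkc : p.ker ≤ Subgroup.center G := by
    rw [hker]
    exact hc
  have heq := H75.altSum_central H20.nls H20.brm H63.smt H94.nch
    (H50.dic H20.ibn H20.nls H20.brm) hℓ M hM hGF hsurj hker hkp hkc χ hχ e he h1 h2
  obtain ⟨hbf, hZD, hcardD, γ₀, hγ₀⟩ := hZ ℓ M hM G hc χ hχ D hD (fun x hx y hy => by
    rw [hab x hx y hy, mul_inv_cancel_right, mul_inv_cancel]
    exact (opCore ℓ G).one_mem) e he h1 A p hsurj hker
  obtain ⟨γ, hγ, hTg⟩ := hF ℓ M hM G χ hχ e he h1 D hD hab θ hθ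
  have hmemT : ∀ t, t ∈ Tg D γ ↔ t ∈ Iner M D θ := by
    intro t
    rw [← hTg]
    rfl
  -- the normaliser of the core
  obtain ⟨q, hq⟩ : ∃ q : Subgroup.normalizer (opCore ℓ G : Set G) →* A,
      q = p.comp (Subgroup.normalizer (opCore ℓ G : Set G)).subtype := ⟨_, rfl⟩
  have hnt : Subgroup.normalizer (opCore ℓ G : Set G) = ⊤ :=
    Subgroup.normalizer_eq_top (opCore ℓ G)
  have hqs : Function.Surjective q := by
    intro y
    obtain ⟨x, hx⟩ := hsurj y
    refine ⟨⟨x, hnt ▸ Subgroup.mem_top x⟩, ?_⟩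
    rw [hq]
    exact hx
  have hqk : q.ker = (opCore ℓ G).subgroupOf (Subgroup.normalizer (opCore ℓ G : Set G)) := by
    ext x
    rw [MonoidHom.mem_ker, Subgroup.mem_subgroupOf, hq]
    have h3 : (x : G) ∈ p.ker ↔ (x : G) ∈ opCore ℓ G := by rw [hker]
    rw [← h3, MonoidHom.mem_ker]
    rfl
  have hbr : br (opCore ℓ G) e = e := by
    funext t
    unfold br
    rw [if_pos]
    rw [Subgroup.mem_centralizer_iff]
    intro z hz
    exact (Subgroup.mem_center_iff.1 (hc hz) t).symm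
  have hpq : push q (fun t : Subgroup.normalizer (opCore ℓ G : Set G) => br (opCore ℓ G) e t) =
      push p e := by
    classical
    have := Fintype.ofFinite G
    have := Fintype.ofFinite (Subgroup.normalizer (opCore ℓ G : Set G))
    rw [hbr]
    funext y
    rw [push_eq, push_eq]
    refine Fintype.sum_bijective
      (fun x : Subgroup.normalizer (opCore ℓ G : Set G) => (x : G))
      ⟨Subtype.val_injective, fun g => ⟨⟨g, hnt ▸ Subgroup.mem_top g⟩, rfl⟩⟩ _ _ fun x => ?_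
    rw [hq]
    rfl
  have hmap : (D.subgroupOf (Subgroup.normalizer (opCore ℓ G : Set G))).map q = D.map p := by
    ext y
    constructor
    · rintro ⟨x, hx, rfl⟩
      rw [hq]
      exact ⟨x, Subgroup.mem_subgroupOf.1 hx, rfl⟩
    · rintro ⟨x, hx, rfl⟩
      refine ⟨⟨x, hnt ▸ Subgroup.mem_top x⟩, Subgroup.mem_subgroupOf.2 hx, ?_⟩
      rw [hq]
      rfl
  obtain ⟨γ', hV', n, hnD, hact⟩ := hQ ℓ M hM G e D γ hγ (opCore ℓ G) hZD A q hqs hqk (push p e)
    hbf (by rw [hpq]; exact hbf.1.2) (by rw [hmap]; exact hγ₀.tp)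
  rw [hmap] at hV' hact
  have hnD' : ∀ v, v ∈ D ↔ n * v * n⁻¹ ∈ D := Subgroup.mem_normalizer_iff.1 hnD
  -- the transfer
  have hTr : Tr D γ (D.map p) γ' (p.comp (MulAut.conj n).toMonoidHom) := by
    refine ⟨hab, ?_, ?_⟩
    · rintro y ⟨x, hx, rfl⟩
      refine ⟨n⁻¹ * x * n, ?_, ?_⟩
      · rw [hnD']
        have e1 : n * (n⁻¹ * x * n) * n⁻¹ = x := by group
        rw [e1]
        exact hx
      · show p (n * (n⁻¹ * x * n) * n⁻¹) = p x
        congr 1
        group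
    · intro t' ht'
      obtain ⟨t, ht, h3⟩ := hact t' ht'
      refine ⟨t, ht, fun v hv => ?_⟩
      have h4 := h3 v hv ⟨n * v * n⁻¹, hnt ▸ Subgroup.mem_top _⟩
        ⟨n * (t * v * t⁻¹) * n⁻¹, hnt ▸ Subgroup.mem_top _⟩ rfl rfl
      rw [hq] at h4
      exact h4
  have hcop : ¬ ℓ ∣ ix D γ := hInx ℓ M hM G e he D hγ.tp hab γ hγ.gam.supp hγ.gam.blk hγ.und
  have hFr : Fd ℓ M D θ → Fr (D.map p) γ' := by
    intro hfd t' ht' v' hv' hne hcom
    obtain ⟨v, hv, rfl⟩ := hTr.sur v' hv'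
    obtain ⟨t, ht, h3⟩ := hTr.act t' ht'
    obtain ⟨w, hw, hw1, hw2⟩ := hTr.fix ht h3 hv hcom (pow_ix ht)
    have hwZ : w ∉ opCore ℓ G := by
      intro hwz
      have e1 : n * w * n⁻¹ ∈ opCore ℓ G := hn.conj_mem _ hwz n
      rw [← hker, MonoidHom.mem_ker] at e1
      have e2 : (p.comp (MulAut.conj n).toMonoidHom) w = 1 := e1
      rw [e2] at hw2
      obtain ⟨y, hy⟩ : ∃ y : D.map p, (y : A) = (p.comp (MulAut.conj n).toMonoidHom) v :=
        ⟨⟨_, hv'⟩, rfl⟩
      obtain ⟨k, hk⟩ := hV'.tp.pg y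
      have e3 : orderOf y ∣ ℓ ^ k := orderOf_dvd_of_pow_eq_one hk
      have e4 : orderOf y ∣ ix D γ := by
        apply orderOf_dvd_of_pow_eq_one
        apply Subtype.ext
        rw [Subgroup.coe_pow, hy, ← hw2]
        rfl
      have e5 : Nat.Coprime (ℓ ^ k) (ix D γ) :=
        Nat.Coprime.pow_left _ ((Nat.Prime.coprime_iff_not_dvd hℓ).2 hcop)
      have e6 : orderOf y = 1 := Nat.eq_one_of_dvd_coprimes e5 e3 e4
      rw [orderOf_eq_one_iff] at e6
      apply hne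
      rw [← hy, e6]
      rfl
    have htC := hfd t ((hmemT t).1 ht) w hw hwZ hw1
    rw [Subgroup.mem_centralizer_iff]
    intro y hy
    obtain ⟨u, hu, rfl⟩ := hTr.sur y hy
    have e7 := h3 u hu
    rw [← Subgroup.mem_centralizer_iff.1 htC u hu, mul_inv_cancel_right] at e7
    have e8 := mul_inv_eq_iff_eq_mul.1 e7.symm
    exact e8.symm
  have hFq : Fq D γ (D.map p) γ' := by
    refine ⟨((p.comp (MulAut.conj n).toMonoidHom).comp D.subtype).codRestrict (D.map p)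
      (fun x => ⟨n * x * n⁻¹, (hnD' x).1 x.2, rfl⟩), ?_, ?_⟩
    · rintro ⟨y, hy⟩
      obtain ⟨v, hv, hvy⟩ := hTr.sur y hy
      exact ⟨⟨v, hv⟩, Subtype.ext hvy⟩
    · intro t' ht'
      obtain ⟨t, ht, h3⟩ := hTr.act t' ht'
      refine ⟨t, ht, fun v w hvw => ?_⟩
      have h4 := h3 v v.2
      rw [← hvw] at h4
      exact h4
  refine ⟨e, γ, γ', hγ, hTg, hV', ⟨_, hTr⟩, hFq, ?_, hcop, hFr, ?_⟩
  · intro hne h0
    apply hne
    refine le_antisymm ?_ hZD
    rw [← hker]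
    exact (Subgroup.map_eq_bot_iff _).1 h0
  · intro h0
    rw [h0, mul_zero] at heq
    rcases mul_eq_zero.1 heq with h | h
    · exact absurd h (by exact_mod_cast (Nat.card_pos (α := G)).ne')
    · exact h

/-- row FNW -/
theorem fnw (hF : T3.FltStmt) (hZ : T2.DzaStmt) (hQ : T8.Qt3Stmt) (hInx : K9.InxStmt)
    (hT : T12.TcaStmt) (h3a : T3.T3aStmt) (hABR : AbrStmt) (hCLV : ClvStmt) : FnwStmt := by
  intro ℓ hfact M _ hM G _ _ hc χ hχ D hD hDO hab θ hθ hty
  have hℓ := hfact.out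
  have hGF : GoodF ℓ (FF M) := H50.fld ℓ hℓ M hM
  have hn : (opCore ℓ G).Normal := H75.opCore_normal (A := G) ℓ
  -- the common part of the first three cases
  have key : (∀ γ : G → FF M, ∀ e : G → FF M, Ld ℓ e D γ → (Tg D γ : Set G) = Iner M D θ →
      ¬ ℓ ∣ ix D γ → RK2.Rk2 (Vc D γ) ∨ (Fc D γ ∧ ix D γ ≤ ℓ) ∨ (5 ≤ ℓ ∧ 3 * ix D γ ≤ ℓ)) →
      altSum ℓ M χ = 0 := by
    intro hkey
    obtain ⟨e, γ, γ', hγ, hTg, hV', -, hFq, hne, hcop, -, hfin⟩ :=
      core hF hZ hQ hInx ℓ M hM G hc χ hχ D hD hab θ hθ (G ⧸ opCore ℓ G)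
        (QuotientGroup.mk' (opCore ℓ G)) (QuotientGroup.mk'_surjective _)
        (QuotientGroup.ker_mk' _)
    obtain ⟨c1, c2, c3⟩ := hCLV ℓ (FF M) hGF G _ e D γ _ _ γ' hγ hV' hcop hFq
    apply hfin
    rcases hkey γ e hγ hTg hcop with h | ⟨h, h'⟩ | ⟨h, h'⟩
    · exact hABR ℓ M hM _ _ _ γ' hV' (hne hDO) (Or.inl (c1 h))
    · exact hABR ℓ M hM _ _ _ γ' hV' (hne hDO) (Or.inr ⟨c2 h, c3.trans h'⟩)
    · exact h3a ℓ M hM _ _ _ γ' hV' (hne hDO) h (by omega)
  have hVD : ∀ γ : G → FF M, (Tg D γ : Set G) = Iner M D θ → Vc D γ ≤ Dc M D θ := by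
    intro γ hTg
    unfold Vc
    rw [Subgroup.commutator_le]
    intro t ht d hd
    refine Subgroup.subset_closure ⟨t, ?_, d, hd, rfl⟩
    rw [← hTg]
    exact ht
  have hIn : ∀ γ e : G → FF M, Ld ℓ e D γ → (Tg D γ : Set G) = Iner M D θ →
      (Iner M D θ).ncard = ix D γ * Nat.card (Subgroup.centralizer (D : Set G)) := by
    intro γ e hγ hTg
    rw [card_Tg hγ, ← hTg]
    rfl
  have hCpos : 0 < Nat.card (Subgroup.centralizer (D : Set G)) := Nat.card_pos
  rcases hty with ⟨a, ha, b, hb, hle⟩ | ⟨hI, hfree⟩ | h3 | ⟨h2l, A, _, _, p, a, hsurj, hker, hexp,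
    hty⟩
  · refine key fun γ e hγ hTg hcop => Or.inl ?_
    have h1 : RK2.Rk2 (Subgroup.closure ({a, b} : Set G)) := by
      have hcl : Subgroup.closure ({a, b} : Set G) ≤ D := by
        rw [Subgroup.closure_le]
        rintro z (rfl | hz)
        · exact ha
        · rw [Set.mem_singleton_iff.1 hz]
          exact hb
      refine ⟨fun x y => Subtype.ext (hab x (hcl x.2) y (hcl y.2)),
        ⟨a, Subgroup.subset_closure (Set.mem_insert _ _)⟩,
        ⟨b, Subgroup.subset_closure (Set.mem_insert_of_mem _ rfl)⟩, ?_⟩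
      apply Subgroup.map_injective (Subgroup.subtype_injective (Subgroup.closure ({a, b} : Set G)))
      rw [MonoidHom.map_closure, Set.image_pair, ← MonoidHom.range_eq_map, Subgroup.range_subtype]
      rfl
    exact RK2.rk2_sub (Subgroup.inclusion ((hVD γ hTg).trans hle))
      (Subgroup.inclusion_injective _) h1
  · refine key fun γ e hγ hTg hcop => Or.inr (Or.inl ⟨?_, ?_⟩)
    · intro t ht v hv hne hcom
      refine hfree t ?_ v (hVD γ hTg hv) hne hcom
      rw [← hTg]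
      exact ht
    · have h4 : (Iner M D θ).ncard < (ℓ + 1) * Nat.card (Subgroup.centralizer (D : Set G)) := hI
      rw [hIn γ e hγ hTg] at h4
      have h5 := Nat.lt_of_mul_lt_mul_right h4
      omega
  · refine key fun γ e hγ hTg hcop => ?_
    rw [hIn γ e hγ hTg, ← mul_assoc] at h3
    have h4 : 3 * ix D γ ≤ ℓ := Nat.le_of_mul_le_mul_right h3 hCpos
    by_cases h5 : 5 ≤ ℓ
    · exact Or.inr (Or.inr ⟨h5, h4⟩)
    · left
      have hpos : ix D γ ≠ 0 := by
        intro h0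
        rw [h0] at hcop
        exact hcop (dvd_zero _)
      have h1 : ix D γ = 1 := by omega
      have hTC : Tg D γ ≤ Subgroup.centralizer (D : Set G) := by
        unfold ix at h1
        exact Subgroup.relIndex_eq_one.1 h1
      have hbot : Vc D γ = ⊥ := by
        unfold Vc
        rw [eq_bot_iff, Subgroup.commutator_le]
        intro t ht d hd
        rw [Subgroup.mem_bot, commutatorElement_eq_one_iff_mul_comm]
        exact (Subgroup.mem_centralizer_iff.1 (hTC ht) d hd).symm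
      rw [hbot]
      have hs : ∀ x : (⊥ : Subgroup G), x = 1 := fun x => Subtype.ext (Subgroup.mem_bot.1 x.2)
      refine ⟨fun x y => by rw [hs x, hs y], 1, 1, ?_⟩
      rw [Subgroup.eq_top_iff']
      intro x
      rw [hs x]
      exact Subgroup.one_mem _
  · obtain ⟨e, γ, γ', hγ, hTg, hV', ⟨P, hTr⟩, hFq, hne, hcop, hFr, hfin⟩ :=
      core hF hZ hQ hInx ℓ M hM G hc χ hχ D hD hab θ hθ A p hsurj hker
    have hixle : ix (D.map p) γ' ≤ ix D γ := hTr.ix_le
    have hmemT : ∀ t, t ∈ Tg D γ ↔ t ∈ Iner M D θ := by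
      intro t
      rw [← hTg]
      rfl
    have hIn' : ∀ n : ℕ, In M D θ n → ix D γ < n := by
      intro n hI
      unfold In at hI
      rw [hIn γ e hγ hTg] at hI
      exact Nat.lt_of_mul_lt_mul_right hI
    apply hfin
    refine hT ℓ M hM h2l a A (push p e) (D.map p) γ' hV' ?_
    rcases hty with ⟨k, hk0, hka, hk, hsz, hei⟩ | ⟨ha, hfd, hin⟩
    · refine Or.inl (Or.inl ⟨k, hk0, hka, hexp, ?_, hsz, ?_⟩)
      · rcases hk with hk | hk | ⟨hk, hfd⟩
        · exact Or.inl hk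
        · exact Or.inr (Or.inl (lt_of_le_of_lt hixle (hIn' _ hk)))
        · exact Or.inr (Or.inr ⟨lt_of_le_of_lt hixle (hIn' _ hk), hFr hfd⟩)
      · rcases hei with hei | hei | hei
        · exact Or.inl (hTr.abel fun s hs t ht => hei s ((hmemT s).1 hs) t ((hmemT t).1 ht))
        · exact Or.inr (Or.inl (lt_of_le_of_lt hixle (hIn' _ hei)))
        · exact Or.inr (Or.inr (hFr hei))
    · exact Or.inl (Or.inr (Or.inr
        ⟨ha, hexp, hFr hfd, hixle.trans (Nat.lt_succ_iff.1 (hIn' _ hin))⟩))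

end Pool.Agent.PP.TV.H66
end
end -- Pool.Agent.Helper66_WAT.FNW

section -- Pool.Agent.Helper66_PFD.Fne

/-!
# Squad PFD: the final theorem for the blocks which are abelian modulo a part of `O_ℓ(G)`
-/

open scoped BigOperators

set_option autoImplicit false

noncomputable section

namespace Pool.Agent.PFD.H66

open Pool.Agent.Helper51_AWC Pool.Agent.Helper79_WRA Pool.Agent.PP Pool.Agent.PP.KF
open Pool.Agent.PP.K9 Pool.Agent.PP.K9.H97 Pool.Agent.PP.H75 Pool.Agent.PP.T3 Pool.Agent.PP.T2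

attribute [local instance] Ideal.Quotient.field

/-- FNE: the theorem for characters.  `p : G → H` is surjective, its kernel is contained in
`O_ℓ(G) ≤ Z(G)`, the block of `ψ ∈ Irr(H)` is contained in the block of `χ`.  `D` is an abelian defect
group of the block of `ψ`, different from the image of `O_ℓ(G)`, `th` belongs to a block of `C(D)` under
the block of `ψ`, `Iner M D th` is its inertial group; it normalises a nontrivial subgroup `U` of `D`,
and `Iner M D th / C(D)` acts freely on `U - 1`. -/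
def FneStmt : Prop := ∀ (ℓ : ℕ) [Fact ℓ.Prime] (M : Ideal (integralClosure ℤ ℂ)) [M.IsMaximal],
  (ℓ : integralClosure ℤ ℂ) ∈ M → ∀ (G : Type) [Group G] [Finite G],
  opCore ℓ G ≤ Subgroup.center G → ∀ χ ∈ Irr G, ∀ (H : Type) [Group H] (p : G →* H),
  Function.Surjective p → p.ker ≤ opCore ℓ G → ∀ ψ ∈ Irr H,
  (∀ g : G, Cong M (omega (MonoidHom.id G) (fun x => ψ (p x)) g)
    (omega (MonoidHom.id G) χ g)) →
  ∀ D : Subgroup H, ML.IsDef ℓ M ψ D → D ≠ (opCore ℓ G).map p →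
  (∀ x ∈ D, ∀ y ∈ D, x * y = y * x) →
  ∀ th ∈ IrrBlock M (Subgroup.centralizer (D : Set H)).subtype ψ,
  ∀ U : Subgroup H, U ≤ D → U ≠ ⊥ →
  (∀ t ∈ Iner M D th, ∀ u ∈ U, t * u * t⁻¹ ∈ U) →
  (∀ t ∈ Iner M D th, ∀ u ∈ U, u ≠ 1 → t * u = u * t →
    t ∈ Subgroup.centralizer (D : Set H)) → altSum ℓ M χ = 0

/-- a central `ℓ`-subgroup is contained in the defect groups -/
theorem cen_le {ℓ : ℕ} {F : Type} [Field F] {H : Type} [Group H] [Finite H] {e : H → F}
    {V : Subgroup H} (h : Tp ℓ e V) (Z : Subgroup H) (hZ : IsPGroup ℓ Z)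
    (hc : Z ≤ Subgroup.center H) : Z ≤ V := by
  have hn : Z.Normal := by
    refine ⟨fun n hz g => ?_⟩
    have h1 := Subgroup.mem_center_iff.1 (hc hz) g
    rw [h1, mul_inv_cancel_right]
    exact hz
  have h2 : IsPGroup ℓ (Z ⊔ V : Subgroup H) := hZ.to_sup_of_normal_left h.pg
  obtain ⟨z, hz, hz0⟩ := h.gd
  have h3 : Gd e (Z ⊔ V) := by
    refine ⟨z, ?_, hz0⟩
    have h4 : Z ⊔ V ≤ Subgroup.centralizer ({z} : Set H) := by
      rw [sup_le_iff]
      constructor
      · intro x hx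
        rw [Subgroup.mem_centralizer_singleton_iff]
        exact (Subgroup.mem_center_iff.1 (hc hx) z).symm
      · intro x hx
        rw [Subgroup.mem_centralizer_singleton_iff]
        exact Subgroup.mem_centralizer_iff.1 hz x hx
    rw [Subgroup.mem_centralizer_iff]
    intro x hx
    exact Subgroup.mem_centralizer_singleton_iff.1 (h4 hx)
  have h5 := Subgroup.eq_of_le_of_card_ge (le_sup_right : V ≤ Z ⊔ V) (h.mx _ h2 h3)
  rw [h5]
  exact le_sup_left

theorem fne (hMny : MnyStmt) (hSpe : SpeStmt) (hF : T3.FltStmt) (hP : T3.PsgStmt) :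
    FneStmt := by
  intro ℓ hfact M _ hM G _ _ hc χ hχ H _ p hp hpk ψ hψ hψχ D hD hDO hab θ hθ U₀ hU₀ hU₀n hU₀s
    hU₀f
  have hℓ := hfact.out
  have hGF : GoodF ℓ (FF M) := H50.fld ℓ hℓ M hM
  have hfH : Finite H := Finite.of_surjective p hp
  obtain ⟨e, he, h1, h2⟩ := H50.bid ℓ hℓ M hM G χ hχ
  have hn : (opCore ℓ G).Normal := H75.opCore_normal (A := G) ℓ
  have hOp : IsPGroup ℓ (opCore ℓ G) := H75.opCore_isPGroup hℓ
  -- the block of `H`
  have hkp : IsPGroup ℓ p.ker := hOp.to_le hpk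
  have hkc : p.ker ≤ Subgroup.center G := hpk.trans hc
  have hb : IsBlk (push p e) := hP ℓ (FF M) hGF G H p hp hkc hkp e he
  have hlab : labF M (fun x => ψ (p x)) = labF M χ := by
    funext g
    exact (red_eq_iff (omega_integral _ (H3.irr_infl hp hψ) g) (omega_integral _ hχ g)).2
      (hψχ g)
  have hr : res M (push p e) ψ = 1 := by
    rw [H3.res_push hp he.1.1 hψ, H50.res_of_lab hlab e]
    exact h1
  obtain ⟨γ, hγ, hTg⟩ := hF ℓ M hM H ψ hψ (push p e) hb hr D hD hab θ hθ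
  have hmemT : ∀ t, t ∈ Tg D γ ↔ t ∈ Iner M D θ := by
    intro t
    rw [← hTg]
    rfl
  obtain ⟨U, W, hS⟩ := hSpe ℓ M hM H (push p e) D γ hγ U₀ hU₀ hU₀n
    (fun t ht => hU₀s t ((hmemT t).1 ht)) (fun t ht => hU₀f t ((hmemT t).1 ht))
  -- the quotient by the image of `O_ℓ(G)`
  have hcO : (opCore ℓ G).map p ≤ Subgroup.center H := by
    rintro _ ⟨x, hx, rfl⟩
    rw [Subgroup.mem_center_iff]
    intro y
    obtain ⟨g, rfl⟩ := hp y
    rw [← map_mul, ← map_mul, Subgroup.mem_center_iff.1 (hc hx) g]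
  have hle : (opCore ℓ G).map p ≤ D := cen_le hγ.tp _ (hOp.map p) hcO
  have hn2 : ((opCore ℓ G).map p).Normal := hn.map p hp
  obtain ⟨q, hq⟩ : ∃ q : H →* H ⧸ (opCore ℓ G).map p,
    q = QuotientGroup.mk' ((opCore ℓ G).map p) := ⟨_, rfl⟩
  have hqk : q.ker = (opCore ℓ G).map p := by
    rw [hq]
    exact QuotientGroup.ker_mk' _
  have hqs : Function.Surjective q := by
    rw [hq]
    exact QuotientGroup.mk'_surjective _
  have hrs : Function.Surjective (q.comp p) := hqs.comp hp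
  have hrk : (q.comp p).ker = opCore ℓ G := by
    rw [← MonoidHom.comap_ker, hqk, Subgroup.comap_map_eq, sup_eq_left.2 hpk]
  have heq := H75.altSum_central H20.nls H20.brm H63.smt H94.nch
    (H50.dic H20.ibn H20.nls H20.brm) hℓ M hM hGF hrs hrk (by rw [hrk]; exact hOp)
    (by rw [hrk]; exact hc) χ hχ e he h1 h2
  have h0 : YY ℓ (⊤ : Subgroup (H ⧸ (opCore ℓ G).map p)) (push q (push p e)) = 0 :=
    hMny ℓ M hM H (push p e) D γ hγ U W hS (H ⧸ (opCore ℓ G).map p) q hqs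
      (by rw [hqk]; exact hle) (by rw [hqk]; exact fun h => hDO h.symm)
  rw [H32.push_comp, h0, mul_zero] at heq
  rcases mul_eq_zero.1 heq with h | h
  · exact absurd h (by exact_mod_cast (Nat.card_pos (α := G)).ne')
  · exact h

end Pool.Agent.PFD.H66
end
end -- Pool.Agent.Helper66_PFD.Fne

section -- Pool.Agent.Helper95_PFD.FND

/-!
# Squad PFD, row FND: the theorem for characters
-/

open scoped BigOperators

set_option autoImplicit false

noncomputable section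

namespace Pool.Agent.PFD.H95

open Pool.Agent.Helper51_AWC Pool.Agent.Helper79_WRA Pool.Agent.PP Pool.Agent.PP.KF
open Pool.Agent.PP.K9 Pool.Agent.PP.K9.H97 Pool.Agent.PP.H75 Pool.Agent.PP.T3 Pool.Agent.PP.T2

attribute [local instance] Ideal.Quotient.field

theorem fnd (hMny : MnyStmt) (hSpe : SpeStmt) (hF : T3.FltStmt) (hZ : T2.DzaStmt) :
    FndStmt := by
  intro ℓ hfact M _ hM G _ _ hc χ hχ D hD hDO hab θ hθ U₀ hU₀ hU₀n hU₀s hU₀f
  have hℓ := hfact.out
  have hGF : GoodF ℓ (FF M) := H50.fld ℓ hℓ M hM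
  obtain ⟨e, he, h1, h2⟩ := H50.bid ℓ hℓ M hM G χ hχ
  have hn : (opCore ℓ G).Normal := H75.opCore_normal (A := G) ℓ
  obtain ⟨p, hp⟩ : ∃ p : G →* G ⧸ opCore ℓ G, p = QuotientGroup.mk' (opCore ℓ G) := ⟨_, rfl⟩
  have hker : p.ker = opCore ℓ G := by
    rw [hp]
    exact QuotientGroup.ker_mk' _
  have hsurj : Function.Surjective p := by
    rw [hp]
    exact QuotientGroup.mk'_surjective (opCore ℓ G)
  have hkp : IsPGroup ℓ p.ker := by
    rw [hker]
    exact H75.opCore_isPGroup hℓ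
  have hkc : p.ker ≤ Subgroup.center G := by
    rw [hker]
    exact hc
  have heq := H75.altSum_central H20.nls H20.brm H63.smt H94.nch
    (H50.dic H20.ibn H20.nls H20.brm) hℓ M hM hGF hsurj hker hkp hkc χ hχ e he h1 h2
  obtain ⟨-, hZD, -, -⟩ := hZ ℓ M hM G hc χ hχ D hD (fun x hx y hy => by
    rw [hab x hx y hy, mul_inv_cancel_right, mul_inv_cancel]
    exact (opCore ℓ G).one_mem) e he h1 _ p hsurj hker
  obtain ⟨γ, hγ, hTg⟩ := hF ℓ M hM G χ hχ e he h1 D hD hab θ hθ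
  have hmemT : ∀ t, t ∈ Tg D γ ↔ t ∈ Iner M D θ := by
    intro t
    rw [← hTg]
    rfl
  obtain ⟨U, W, hS⟩ := hSpe ℓ M hM G e D γ hγ U₀ hU₀ hU₀n
    (fun t ht => hU₀s t ((hmemT t).1 ht)) (fun t ht => hU₀f t ((hmemT t).1 ht))
  have h0 : YY ℓ (⊤ : Subgroup (G ⧸ opCore ℓ G)) (push p e) = 0 :=
    hMny ℓ M hM G e D γ hγ U W hS (G ⧸ opCore ℓ G) p hsurj (by rw [hker]; exact hZD)
      (by rw [hker]; exact fun h => hDO h.symm)
  rw [h0, mul_zero] at heq
  rcases mul_eq_zero.1 heq with h | h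
  · exact absurd h (by exact_mod_cast (Nat.card_pos (α := G)).ne')
  · exact h

end Pool.Agent.PFD.H95
end
end -- Pool.Agent.Helper95_PFD.FND

section -- Pool.Agent.Helper20_WAX.FNX

/-!
# Squad WAX, row FNX
-/

open scoped BigOperators

set_option autoImplicit false

noncomputable section

namespace Pool.Agent.PP.TX.H20

open Pool.Agent.Helper51_AWC Pool.Agent.Helper79_WRA Pool.Agent.PP Pool.Agent.PP.KF
open Pool.Agent.PP.K9 Pool.Agent.PP.K9.H97 Pool.Agent.PP.H75 Pool.Agent.PP.T3 Pool.Agent.PP.T2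
open Pool.Agent.PP.T5 Pool.Agent.PP.TB Pool.Agent.PP.TV Pool.Agent.PP.TX
open Pool.Agent.PP.T8 (Rv Fq Fr Ei Hk Rk Fd In)

attribute [local instance] Ideal.Quotient.field

theorem gen1 (W : Type) [CommGroup W] [Finite W] (ℓ r : ℕ) (hℓ : 1 ≤ ℓ) (U : Subgroup W)
    (hU : ∀ x : W, x ^ ℓ ∈ U) (hr : Group.rank W ≤ r) : Nat.card W ≤ ℓ ^ r * Nat.card U := by
  have h1 : ∀ q : W ⧸ U, q ^ ℓ = 1 := by
    intro q
    induction q using QuotientGroup.induction_on with
    | H x =>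
      rw [← QuotientGroup.mk_pow]
      exact (QuotientGroup.eq_one_iff _).2 (hU x)
  have h2 : Nat.card (W ⧸ U) ∣ ℓ ^ Group.rank (W ⧸ U) := card_dvd_exponent_pow_rank' (W ⧸ U) h1
  have h3 : Group.rank (W ⧸ U) ≤ r :=
    (Group.rank_le_of_surjective (QuotientGroup.mk' U) (QuotientGroup.mk'_surjective U)).trans hr
  have h4 : Nat.card (W ⧸ U) ≤ ℓ ^ r :=
    (Nat.le_of_dvd (pow_pos (by omega) _) h2).trans (Nat.pow_le_pow_right hℓ h3)
  rw [Subgroup.card_eq_card_quotient_mul_card_subgroup U]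
  exact Nat.mul_le_mul_right _ h4

theorem uw_le {G : Type} [Group G] (n : ℕ) (W : Subgroup G) : Uw n W ≤ W := by
  unfold Uw
  rw [Subgroup.closure_le]
  rintro _ ⟨x, hx, rfl⟩
  exact W.pow_mem hx n

theorem rr_gen {G : Type} [Group G] [Finite G] (ℓ r : ℕ) (hℓ : 1 ≤ ℓ) (s : Fin r → G)
    (W : Subgroup G) (hW : W = Subgroup.closure (Set.range s))
    (hab : ∀ x ∈ W, ∀ y ∈ W, x * y = y * x) : Rr ℓ r W := by
  let _ : CommGroup W :=
    { (inferInstance : Group W) with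
      mul_comm := fun x y => Subtype.ext (hab x x.2 y y.2) }
  have h1 : Group.rank W ≤ r := by
    subst hW
    refine (Subgroup.rank_closure_finite_le_nat_card (Set.range s)).trans ?_
    have h2 := Finite.card_range_le s
    rwa [Nat.card_eq_fintype_card (α := Fin r), Fintype.card_fin] at h2
  have h2 := gen1 W ℓ r hℓ ((Uw ℓ W).subgroupOf W) (fun x => by
    rw [Subgroup.mem_subgroupOf, Subgroup.coe_pow]
    exact Subgroup.subset_closure ⟨x, x.2, rfl⟩) h1
  rw [Nat.card_congr (Subgroup.subgroupOfEquivOfLe (uw_le ℓ W)).toEquiv] at h2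
  exact h2

theorem rr_sub (hUWA : TB.UwaStmt) {G : Type} [Group G] [Finite G] (ℓ r : ℕ) (A B : Subgroup G)
    (hab : ∀ x ∈ A, ∀ y ∈ A, x * y = y * x) (hBA : B ≤ A) (hA : Rr ℓ r A) : Rr ℓ r B := by
  have h1 := (hUWA G A hab).1 B hBA ℓ
  have h2 : 0 < Nat.card (Uw ℓ A) := Nat.card_pos
  unfold Rr at hA ⊢
  refine Nat.le_of_mul_le_mul_right ?_ h2
  calc Nat.card B * Nat.card (Uw ℓ A) ≤ Nat.card A * Nat.card (Uw ℓ B) := h1
    _ ≤ ℓ ^ r * Nat.card (Uw ℓ A) * Nat.card (Uw ℓ B) := Nat.mul_le_mul_right _ hA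
    _ = ℓ ^ r * Nat.card (Uw ℓ B) * Nat.card (Uw ℓ A) := by ring

theorem tx_mono {G F : Type} [Group G] (ℓ a a' : ℕ) (hℓ : 1 ≤ ℓ) (haa : a ≤ a') (V : Subgroup G)
    (γ : G → F) (h : Tx ℓ a V γ) : Tx ℓ a' V γ := by
  rcases h with ⟨h1, h2, h3⟩ | ⟨r, hr, h⟩
  · exact Or.inl ⟨h1, h2, h3.trans (Nat.pow_le_pow_right hℓ haa)⟩
  · refine Or.inr ⟨r, hr, ?_⟩
    rcases h with ⟨h1, h2⟩ | ⟨h1, h2, h3⟩ | h1
    · exact Or.inl ⟨h1, h2.trans haa⟩
    · exact Or.inr (Or.inl ⟨h1, h2, by omega⟩)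
    · exact Or.inr (Or.inr (by omega))

/-- row FNX -/
theorem fnx (hFNW : TV.FnwStmt) (hF : T3.FltStmt) (hZ : T2.DzaStmt) (hQ : T8.Qt3Stmt)
    (hInx : K9.InxStmt) (hUWA : TB.UwaStmt) (hCTX : CtxStmt) (hTXA : TxaStmt) : FnxStmt := by
  intro ℓ hfact M _ hM G _ _ hc χ hχ D hD hDO hab θ hθ a ha hexp r hs hty
  have hℓ := hfact.out
  have hℓ1 : 1 ≤ ℓ := hℓ.one_lt.le
  have hGF : GoodF ℓ (FF M) := H50.fld ℓ hℓ M hM
  have hn : (opCore ℓ G).Normal := H75.opCore_normal (A := G) ℓ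
  obtain ⟨s, hsD, hDc⟩ := hs
  have hclD : Subgroup.closure (Set.range s) ≤ D := by
    rw [Subgroup.closure_le]
    rintro _ ⟨i, rfl⟩
    exact hsD i
  -- the cases of FNW
  by_cases hr2 : r ≤ 2
  · refine hFNW ℓ M hM G hc χ hχ D hD hDO hab θ hθ (Or.inl ?_)
    obtain ⟨x, hx⟩ : ∃ x : ℕ → G, x = fun i => if h : i < r then s ⟨i, h⟩ else 1 := ⟨_, rfl⟩
    have hxD : ∀ i, x i ∈ D := by
      intro i
      rw [hx]
      dsimp only
      split_ifs with h
      · exact hsD _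
      · exact D.one_mem
    refine ⟨x 0, hxD 0, x 1, hxD 1, hDc.trans ?_⟩
    rw [Subgroup.closure_le]
    rintro _ ⟨⟨i, hi⟩, rfl⟩
    have hi2 : i = 0 ∨ i = 1 := by omega
    have hxi : x i = s ⟨i, hi⟩ := by
      rw [hx]
      dsimp only
      rw [dif_pos hi]
    rw [← hxi]
    rcases hi2 with rfl | rfl
    · exact Subgroup.subset_closure (Set.mem_insert _ _)
    · exact Subgroup.subset_closure (Set.mem_insert_of_mem _ rfl)
  by_cases h3 : 3 * (Iner M D θ).ncard ≤ ℓ * Nat.card (Subgroup.centralizer (D : Set G))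
  · exact hFNW ℓ M hM G hc χ hχ D hD hDO hab θ hθ (Or.inr (Or.inr (Or.inl h3)))
  obtain ⟨e, γ, γ', hγ, hTg, hV', -, hFq, hne, hcop, -, hfin⟩ :=
    TV.H66.core hF hZ hQ hInx ℓ M hM G hc χ hχ D hD hab θ hθ (G ⧸ opCore ℓ G)
      (QuotientGroup.mk' (opCore ℓ G)) (QuotientGroup.mk'_surjective _)
      (QuotientGroup.ker_mk' _)
  apply hfin
  -- facts about the inertial group
  have hVD : Vc D γ ≤ Dc M D θ := by
    unfold Vc
    rw [Subgroup.commutator_le]
    intro t ht d hd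
    refine Subgroup.subset_closure ⟨t, ?_, d, hd, rfl⟩
    rw [← hTg]
    exact ht
  have hmemT : ∀ t, t ∈ Tg D γ ↔ t ∈ Iner M D θ := by
    intro t
    rw [← hTg]
    rfl
  have hIn : (Iner M D θ).ncard = ix D γ * Nat.card (Subgroup.centralizer (D : Set G)) := by
    rw [T8.H24.card_Tg hγ, ← hTg]
    rfl
  have hIn' : ∀ n : ℕ, In M D θ n → ix D γ < n := by
    intro n hI
    unfold In at hI
    rw [hIn] at hI
    exact Nat.lt_of_mul_lt_mul_right hI
  have hRr : Rr ℓ r (Vc D γ) := by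
    have habc : ∀ x ∈ Subgroup.closure (Set.range s), ∀ y ∈ Subgroup.closure (Set.range s),
        x * y = y * x := fun x hx y hy => hab x (hclD hx) y (hclD hy)
    exact rr_sub hUWA ℓ r _ _ habc (hVD.trans hDc) (rr_gen ℓ r hℓ1 s _ rfl habc)
  have hTx : Tx ℓ a D γ := by
    rcases hty with h | h | ⟨h1, h2⟩ | ⟨h1, h2, h4⟩ | h | ⟨h1, h2, h4⟩
    · exact absurd h hr2
    · exact absurd h h3
    · exact Or.inr ⟨r, hRr, Or.inl ⟨hIn' _ h1, h2⟩⟩
    · exact Or.inr ⟨r, hRr, Or.inr (Or.inl ⟨h1, fun u hu t ht =>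
        h2 u ((hmemT u).1 hu) t ((hmemT t).1 ht), h4⟩)⟩
    · exact Or.inr ⟨r, hRr, Or.inr (Or.inr h)⟩
    · refine Or.inl ⟨h1, fun t ht v hv hv1 hcom =>
        h4 t ((hmemT t).1 ht) v (hVD hv) hv1 hcom, ?_⟩
      exact Nat.lt_succ_iff.1 (hIn' _ h2)
  have hTx' := hCTX ℓ (FF M) hGF G _ e D γ _ _ γ' hγ hV' hcop hFq a hTx
  -- the exponent
  obtain ⟨V', hVV⟩ : ∃ V' : Subgroup (G ⧸ opCore ℓ G),
      V' = D.map (QuotientGroup.mk' (opCore ℓ G)) := ⟨_, rfl⟩
  obtain ⟨a₀, ha₀⟩ : ∃ a₀ : ℕ, Monoid.exponent V' = ℓ ^ a₀ := by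
    have hpg : IsPGroup ℓ V' := by rw [hVV]; exact hV'.tp.pg
    obtain ⟨n, hn⟩ := IsPGroup.iff_card.1 hpg
    have h1 : Monoid.exponent V' ∣ ℓ ^ n := by
      rw [← hn]
      exact Group.exponent_dvd_nat_card
    obtain ⟨k, -, hk⟩ := (Nat.dvd_prime_pow hℓ).1 h1
    exact ⟨k, hk⟩
  have haa : a ≤ a₀ := by
    by_contra hlt
    obtain ⟨d, hd, hd'⟩ := hexp
    apply hd'
    have h1 : (⟨QuotientGroup.mk' (opCore ℓ G) d, by rw [hVV]; exact ⟨d, hd, rfl⟩⟩ : V') ^
        Monoid.exponent V' = 1 := Monoid.pow_exponent_eq_one _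
    have h2 : (QuotientGroup.mk' (opCore ℓ G) d) ^ ℓ ^ a₀ = 1 := by
      rw [ha₀] at h1
      exact congrArg Subtype.val h1
    have h4 : (QuotientGroup.mk' (opCore ℓ G) d) ^ ℓ ^ (a - 1) = 1 := by
      obtain ⟨c, hc'⟩ := Nat.exists_eq_add_of_le (show a₀ ≤ a - 1 by omega)
      rw [hc', pow_add, pow_mul, h2, one_pow]
    rw [← map_pow] at h4
    exact (QuotientGroup.eq_one_iff _).1 h4
  refine hTXA ℓ M hM _ _ _ γ' hV' a₀ (lt_of_lt_of_le ha haa) (hVV ▸ ha₀) ?_
  exact tx_mono ℓ a a₀ hℓ1 haa _ γ' hTx'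

end Pool.Agent.PP.TX.H20
end
end -- Pool.Agent.Helper20_WAX.FNX

section -- Pool.Agent.Helper66_PSS.Fns

/-!
# Squad PSS, row FNS: the final theorem
-/

open scoped BigOperators

set_option autoImplicit false

noncomputable section

namespace Pool.Agent.PSS.H66

open Pool.Agent.Helper51_AWC Pool.Agent.Helper79_WRA Pool.Agent.PP Pool.Agent.PP.KF
open Pool.Agent.PP.K9 Pool.Agent.PP.K9.H97 Pool.Agent.PP.H75 Pool.Agent.PP.T3 Pool.Agent.PP.T2

attribute [local instance] Ideal.Quotient.field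

theorem fns (hMnn : MnnFor KS) (hCln : ClnStmt) (hF : T3.FltStmt) (hP : T3.PsgStmt) :
    FnsStmt := by
  intro ℓ hfact M _ hM G _ _ hc χ hχ H _ p hp hpk ψ hψ hψχ D hD hDO hab θ hθ s Y W U
    hC
  have hℓ := hfact.out
  have hGF : GoodF ℓ (FF M) := H50.fld ℓ hℓ M hM
  have hfH : Finite H := Finite.of_surjective p hp
  obtain ⟨e, he, h1, h2⟩ := H50.bid ℓ hℓ M hM G χ hχ
  have hn : (opCore ℓ G).Normal := H75.opCore_normal (A := G) ℓ
  have hOp : IsPGroup ℓ (opCore ℓ G) := H75.opCore_isPGroup hℓ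
  -- the block of `H`
  have hkp : IsPGroup ℓ p.ker := hOp.to_le hpk
  have hkc : p.ker ≤ Subgroup.center G := hpk.trans hc
  have hb : IsBlk (push p e) := hP ℓ (FF M) hGF G H p hp hkc hkp e he
  have hlab : labF M (fun x => ψ (p x)) = labF M χ := by
    funext g
    exact (red_eq_iff (omega_integral _ (H3.irr_infl hp hψ) g) (omega_integral _ hχ g)).2
      (hψχ g)
  have hr : res M (push p e) ψ = 1 := by
    rw [H3.res_push hp he.1.1 hψ, H50.res_of_lab hlab e]
    exact h1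
  obtain ⟨γ, hγ, hTg⟩ := hF ℓ M hM H ψ hψ (push p e) hb hr D hD hab θ hθ
  rw [← hTg] at hC
  -- the quotient by the image of `O_ℓ(G)`
  have hcO : (opCore ℓ G).map p ≤ Subgroup.center H := by
    rintro _ ⟨x, hx, rfl⟩
    rw [Subgroup.mem_center_iff]
    intro y
    obtain ⟨g, rfl⟩ := hp y
    rw [← map_mul, ← map_mul, Subgroup.mem_center_iff.1 (hc hx) g]
  have hle : (opCore ℓ G).map p ≤ D := PFD.H66.cen_le hγ.tp _ (hOp.map p) hcO
  have hDb : D ≠ ⊥ := by
    rintro rfl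
    exact hDO (le_antisymm bot_le hle)
  obtain ⟨W₀, hS⟩ := hCln ℓ M hM H (push p e) D γ hγ hDb s Y W U hC
  have hn2 : ((opCore ℓ G).map p).Normal := hn.map p hp
  obtain ⟨q, hq⟩ : ∃ q : H →* H ⧸ (opCore ℓ G).map p,
    q = QuotientGroup.mk' ((opCore ℓ G).map p) := ⟨_, rfl⟩
  have hqk : q.ker = (opCore ℓ G).map p := by
    rw [hq]
    exact QuotientGroup.ker_mk' _
  have hqs : Function.Surjective q := by
    rw [hq]
    exact QuotientGroup.mk'_surjective _
  have hrs : Function.Surjective (q.comp p) := hqs.comp hp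
  have hrk : (q.comp p).ker = opCore ℓ G := by
    rw [← MonoidHom.comap_ker, hqk, Subgroup.comap_map_eq, sup_eq_left.2 hpk]
  have heq := H75.altSum_central H20.nls H20.brm H63.smt H94.nch
    (H50.dic H20.ibn H20.nls H20.brm) hℓ M hM hGF hrs hrk (by rw [hrk]; exact hOp)
    (by rw [hrk]; exact hc) χ hχ e he h1 h2
  have h0 : YY ℓ (⊤ : Subgroup (H ⧸ (opCore ℓ G).map p)) (push q (push p e)) = 0 :=
    hMnn ℓ M hM H (push p e) D γ hγ W₀ hS (H ⧸ (opCore ℓ G).map p) q hqs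
      (by rw [hqk]; exact hle) (by rw [hqk]; exact fun h => hDO h.symm)
  rw [H32.push_comp, h0, mul_zero] at heq
  rcases mul_eq_zero.1 heq with h | h
  · exact absurd h (by exact_mod_cast (Nat.card_pos (α := G)).ne')
  · exact h

end Pool.Agent.PSS.H66
end
end -- Pool.Agent.Helper66_PSS.Fns
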