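import Pool.Agent.Helper12_AWB.B123
import Pool.Agent.Helper12_AWB.B261
import Pool.Agent.Helper12_AWB.B275

/-!
# Merged copies (generated) of the modules

* `Pool.Agent.Helper23_AT5.DV5`
* `Pool.Agent.Helper32_AT5.CYS`
* `Pool.Agent.Helper44_AT10.SPS`
* `Pool.Agent.Helper65_ATP.DVP`
-/

set_option autoImplicit false

section -- Pool.Agent.Helper23_AT5.DV5

/-!
# Squad AT5, row DV5: divisibility of the alternating sum
-/

open scoped BigOperators

noncomputable section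

namespace Pool.Agent.PP.T5.H23

open Pool.Agent.Helper51_AWC Pool.Agent.Helper79_WRA Pool.Agent.PP Pool.Agent.PP.KF
open Pool.Agent.PP.K9 Pool.Agent.PP.K9.H97 Pool.Agent.PP.H75 Pool.Agent.PP.T3 Pool.Agent.PP.T2

attribute [local instance] Ideal.Quotient.field

/-- a homomorphism to an abelian group under which a central element keeps most of its order -/
theorem exists_transfer {V : Type} [Group V] [Finite V] {ℓ a k : ℕ} (hℓ : ℓ.Prime)
    (hV : ∃ n, Nat.card V = ℓ ^ n) (B : Subgroup V) (hB : ∀ x ∈ B, ∀ y ∈ B, x * y = y * x)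
    (hk : B.index ≤ ℓ ^ k) (u : V) (hu : ∀ v : V, v * u = u * v) (ho : orderOf u = ℓ ^ a) :
    ∃ (A : Type) (_ : CommGroup A) (ρ : V →* A), ℓ ^ (a - k) ∣ orderOf (ρ u) := by
  let iB : CommGroup B := { (inferInstance : Group B) with
    mul_comm := fun a b => Subtype.ext (hB a a.2 b b.2) }
  have key : ∀ (k : ℕ) (g₀ : V), g₀⁻¹ * u ^ k * g₀ ∈ B → g₀⁻¹ * u ^ k * g₀ = u ^ k := by
    intro j g₀ _
    have h1 : Commute g₀ (u ^ j) := (show Commute g₀ u from hu g₀).pow_right j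
    have h2 : g₀ * u ^ j = u ^ j * g₀ := h1
    rw [mul_assoc, ← h2, ← mul_assoc, inv_mul_cancel, one_mul]
  refine ⟨B, iB, MonoidHom.transfer (MonoidHom.id B), ?_⟩
  have h3 := MonoidHom.transfer_eq_pow (MonoidHom.id B) u key
  rw [h3, MonoidHom.id_apply]
  have h4 : orderOf (⟨u ^ B.index, MonoidHom.transfer_eq_pow_aux u key⟩ : B) =
      orderOf (u ^ B.index) := Subgroup.orderOf_mk _ _
  rw [h4]
  obtain ⟨n, hn⟩ := hV
  obtain ⟨j, -, hj⟩ := (Nat.dvd_prime_pow hℓ).1 (hn ▸ B.index_dvd_card)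
  rw [hj] at hk ⊢
  have hjk : j ≤ k := (Nat.pow_le_pow_iff_right hℓ.one_lt).1 hk
  rcases le_or_gt a j with haj | haj
  · have h5 : a - k = 0 := by omega
    rw [h5, pow_zero]
    exact one_dvd _
  · have h6 : ℓ ^ j ∣ orderOf u := by
      rw [ho]
      exact pow_dvd_pow ℓ haj.le
    rw [orderOf_pow_of_dvd (pow_pos hℓ.pos j).ne' h6, ho, Nat.pow_div haj.le hℓ.pos]
    exact pow_dvd_pow ℓ (by omega)

theorem dv5 : Dv5Stmt := by
  intro ℓ _ M _ hM G _ _ hO a p k e V he hT hC χ hχ h1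
  have hℓ : ℓ.Prime := Fact.out
  have hD := T3.H24.isDef_of_tp hM he hT hχ h1
  obtain ⟨u, huV, hcen, ho⟩ := hC.cen
  obtain ⟨B, -, hBc, hBi⟩ := hC.ab
  obtain ⟨A, iA, ρ, hρ⟩ := exists_transfer (V := V) (a := a) (k := k) hℓ
    ((IsPGroup.iff_card (p := ℓ) (G := V)).1 hT.pg) (B.subgroupOf V)
    (fun x hx y hy => Subtype.ext (hBc x (Subgroup.mem_subgroupOf.1 hx) y
      (Subgroup.mem_subgroupOf.1 hy))) hBi ⟨u, huV⟩ (fun v => Subtype.ext (hcen v v.2))
    (by rw [Subgroup.orderOf_mk, ho])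
  have h2 := ML.mn3_ ℓ M hM G (by rw [hO]; exact bot_le) χ hχ V hD A ρ (by
      intro r hr
      rw [hO, Subgroup.mem_bot] at hr
      have h7 : r = 1 := Subtype.ext hr
      rw [h7, map_one]) ⟨u, huV⟩ (fun d => Subtype.ext (hcen d d.2).symm)
  rw [hO, Subgroup.card_bot, mul_one] at h2
  exact (Int.natCast_dvd_natCast.2 hρ).trans h2

end Pool.Agent.PP.T5.H23
end
end -- Pool.Agent.Helper23_AT5.DV5

section -- Pool.Agent.Helper32_AT5.CYS

/-!
# Squad AT5, row CYS: the sum of the twisted traces of the powers of `g` is not negative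
-/

open scoped BigOperators

set_option linter.unusedSectionVars false

noncomputable section

namespace Pool.Agent.PP.T5.H32

open Pool.Agent.Helper51_AWC Pool.Agent.Helper79_WRA Pool.Agent.PP Pool.Agent.PP.KF
open Pool.Agent.PP.K9 Pool.Agent.PP.K9.H97 Pool.Agent.PP.H75 Pool.Agent.PP.T3 Pool.Agent.PP.T2

attribute [local instance] Ideal.Quotient.field

/-! ### sums over cyclic groups -/

theorem cyc {Q : Type} [Group Q] [Finite Q] {q : Q} (hq : ∀ x, x ∈ Subgroup.zpowers q)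
    (F : Q → ℂ) {n : ℕ} (hn : q ^ n = 1) :
    (Nat.card Q : ℂ) * ∑ j ∈ Finset.range n, F (q ^ j) = (n : ℂ) * ∑ᶠ x, F x := by
  classical
  have := Fintype.ofFinite Q
  have h0 : orderOf q = Nat.card Q := orderOf_eq_card_of_forall_mem_zpowers hq
  have h1 : ∑ j ∈ Finset.range (orderOf q), F (q ^ j) = ∑ᶠ x, F x := by
    rw [finsum_eq_sum_of_fintype, ← IsCyclic.image_range_orderOf hq, Finset.sum_image]
    intro i hi j hj hij
    exact pow_injOn_Iio_orderOf (Finset.mem_range.1 hi) (Finset.mem_range.1 hj) hij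
  obtain ⟨t, rfl⟩ := orderOf_dvd_of_pow_eq_one hn
  have h2 : ∀ t : ℕ, ∑ j ∈ Finset.range (orderOf q * t), F (q ^ j) = (t : ℂ) * ∑ᶠ x, F x := by
    intro t
    induction t with
    | zero => simp
    | succ t ih =>
      rw [mul_add, mul_one, Finset.sum_range_add, ih]
      have h3 : ∀ j, F (q ^ (orderOf q * t + j)) = F (q ^ j) := by
        intro j
        rw [pow_add, pow_mul, pow_orderOf_eq_one, one_pow, one_mul]
      simp only [h3]
      rw [h1]
      push_cast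
      ring
  rw [h2, ← h0]
  push_cast
  ring

/-! ### the twisted trace depends only on the coset -/

section twl

variable {ℓ : ℕ} {G : Type} [Group G] [Finite G] {M : Ideal (integralClosure ℤ ℂ)} [M.IsMaximal]
  {C : Subgroup G} {E : G → FF M}

theorem reg_cj (x c : G) : Reg ℓ (c * x * c⁻¹) ↔ Reg ℓ x := by
  unfold Reg
  have h : orderOf (c * x * c⁻¹) = orderOf x := (MulAut.conj c).orderOf_eq x
  rw [h]

theorem mem_cj {c : G} (hc : c ∈ C) (x : G) : c * x * c⁻¹ ∈ C ↔ x ∈ C := by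
  constructor
  · intro h
    have h1 := C.mul_mem (C.mul_mem (C.inv_mem hc) h) hc
    have e : c⁻¹ * (c * x * c⁻¹) * c = x := by group
    rwa [e] at h1
  · intro h
    exact C.mul_mem (C.mul_mem hc h) (C.inv_mem hc)

theorem ext0_cj {κ : C → ℂ} (hκ : κ ∈ Irr C) {c : G} (hc : c ∈ C) (x : G) :
    H75.ext0 C κ (c * x * c⁻¹) = H75.ext0 C κ x := by
  unfold H75.ext0
  by_cases hx : x ∈ C
  · rw [dif_pos ((mem_cj hc x).2 hx), dif_pos hx]
    exact irr_conj hκ ⟨x, hx⟩ ⟨c, hc⟩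
  · rw [dif_neg (fun h => hx ((mem_cj hc x).1 h)), dif_neg hx]

theorem kr_right {c : G} (hc : c ∈ C) (s s' : G) :
    kr M C E s (c * s' * c⁻¹) = kr M C E s s' := by
  unfold kr
  refine finsum_congr fun κ => finsum_congr fun hκ => ?_
  rw [ext0_cj hκ.1 hc]

theorem tw_mul_right {c : G} (hc : c ∈ C) (h : G) : tw M ℓ C E (h * c) = tw M ℓ C E h := by
  unfold tw
  congr 1
  rw [← finsum_comp_equiv (MulAut.conj c).toEquiv
    (f := fun s => ∑ᶠ (_ : s ∈ C ∧ Reg ℓ s), kr M C E (h * s * h⁻¹) s)]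
  refine finsum_congr fun s => ?_
  have e0 : (MulAut.conj c).toEquiv s = c * s * c⁻¹ := rfl
  rw [e0]
  have e1 : (c * s * c⁻¹ ∈ C ∧ Reg ℓ (c * s * c⁻¹)) = (s ∈ C ∧ Reg ℓ s) := by
    rw [mem_cj hc, reg_cj]
  rw [e1]
  refine finsum_congr fun _ => ?_
  rw [kr_right hc]
  congr 1
  group

end twl

/-! ### the group generated by `C` and `g` -/

section grp

variable {G : Type} [Group G] {C : Subgroup G} {g : G}

/-- the group generated by `C` and the element `g` of the normaliser -/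
def AA (C : Subgroup G) (g : G) (hg : g ∈ Subgroup.normalizer (C : Set G)) : Subgroup G where
  carrier := {x | ∃ k : ℤ, x * (g ^ k)⁻¹ ∈ C}
  one_mem' := ⟨0, by simp⟩
  mul_mem' := by
    rintro x y ⟨k, hk⟩ ⟨l, hl⟩
    refine ⟨k + l, ?_⟩
    have h1 : g ^ k ∈ Subgroup.normalizer (C : Set G) := Subgroup.zpow_mem _ hg k
    have h2 := (Subgroup.mem_normalizer_iff.1 h1 (y * (g ^ l)⁻¹)).1 hl
    have h3 := C.mul_mem hk h2
    have e : x * (g ^ k)⁻¹ * (g ^ k * (y * (g ^ l)⁻¹) * (g ^ k)⁻¹) = x * y * (g ^ (k + l))⁻¹ := by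
      rw [zpow_add, mul_inv_rev]
      group
    rwa [e] at h3
  inv_mem' := by
    rintro x ⟨k, hk⟩
    refine ⟨-k, ?_⟩
    have h1 : (g ^ k)⁻¹ ∈ Subgroup.normalizer (C : Set G) :=
      Subgroup.inv_mem _ (Subgroup.zpow_mem _ hg k)
    have h2 := (Subgroup.mem_normalizer_iff.1 h1 _).1 (C.inv_mem hk)
    have e : (g ^ k)⁻¹ * (x * (g ^ k)⁻¹)⁻¹ * ((g ^ k)⁻¹)⁻¹ = x⁻¹ * (g ^ (-k))⁻¹ := by
      group
    rwa [e] at h2

theorem mem_AA {hg : g ∈ Subgroup.normalizer (C : Set G)} {x : G} :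
    x ∈ AA C g hg ↔ ∃ k : ℤ, x * (g ^ k)⁻¹ ∈ C := Iff.rfl

theorem le_AA (hg : g ∈ Subgroup.normalizer (C : Set G)) : C ≤ AA C g hg := by
  intro c hc
  exact ⟨0, by simpa using hc⟩

theorem g_mem_AA (hg : g ∈ Subgroup.normalizer (C : Set G)) : g ∈ AA C g hg :=
  ⟨1, by simp⟩

theorem AA_le (hg : g ∈ Subgroup.normalizer (C : Set G)) {B : Subgroup G} (hC : C ≤ B)
    (hB : g ∈ B) : AA C g hg ≤ B := by
  rintro x ⟨k, hk⟩
  have h1 := B.mul_mem (hC hk) (B.zpow_mem hB k)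
  have e : x * (g ^ k)⁻¹ * g ^ k = x := by group
  rwa [e] at h1

theorem AA_le_normalizer (hg : g ∈ Subgroup.normalizer (C : Set G)) :
    AA C g hg ≤ Subgroup.normalizer (C : Set G) := AA_le hg Subgroup.le_normalizer hg

/-- `A / C` is cyclic -/
theorem AA_cyclic (hg : g ∈ Subgroup.normalizer (C : Set G))
    [(C.subgroupOf (AA C g hg)).Normal] (x : AA C g hg ⧸ C.subgroupOf (AA C g hg)) :
    x ∈ Subgroup.zpowers
      (QuotientGroup.mk (⟨g⁻¹, (AA C g hg).inv_mem (g_mem_AA hg)⟩ : AA C g hg) :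
        AA C g hg ⧸ C.subgroupOf (AA C g hg)) := by
  induction x using QuotientGroup.induction_on with
  | H a =>
    obtain ⟨k, hk⟩ := a.2
    refine ⟨-k, ?_⟩
    show (QuotientGroup.mk (⟨g⁻¹, (AA C g hg).inv_mem (g_mem_AA hg)⟩ : AA C g hg) :
        AA C g hg ⧸ C.subgroupOf (AA C g hg)) ^ (-k) = QuotientGroup.mk a
    rw [← QuotientGroup.mk_zpow, QuotientGroup.eq, Subgroup.mem_subgroupOf]
    have h1 : (g ^ k)⁻¹ ∈ Subgroup.normalizer (C : Set G) :=
      Subgroup.inv_mem _ (Subgroup.zpow_mem _ hg k)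
    have h2 := (Subgroup.mem_normalizer_iff.1 h1 _).1 hk
    have e : (((⟨g⁻¹, (AA C g hg).inv_mem (g_mem_AA hg)⟩ : AA C g hg) ^ (-k))⁻¹ * a : AA C g hg) =
        ((g ^ k)⁻¹ * ((a : G) * (g ^ k)⁻¹) * ((g ^ k)⁻¹)⁻¹ : G) := by
      rw [Subgroup.coe_mul, Subgroup.coe_inv, Subgroup.coe_zpow]
      show ((g⁻¹) ^ (-k))⁻¹ * (a : G) = _
      rw [inv_zpow', neg_neg]
      group
    rw [e]
    exact h2

/-- the group generated by `A₁ = ⟨C, g ^ ℓ⟩` and `g` is `A` -/
theorem AA_AA (hg : g ∈ Subgroup.normalizer (C : Set G)) {n : ℕ}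
    (hn : g ^ n ∈ Subgroup.normalizer (C : Set G))
    (hg' : g ∈ Subgroup.normalizer (AA C (g ^ n) hn : Set G)) :
    AA (AA C (g ^ n) hn) g hg' = AA C g hg := by
  apply le_antisymm
  · exact AA_le _ (AA_le _ (le_AA hg) ((AA C g hg).pow_mem (g_mem_AA hg) n)) (g_mem_AA hg)
  · exact AA_le _ ((le_AA hn).trans (le_AA hg')) (g_mem_AA hg')

theorem g_norm (hg : g ∈ Subgroup.normalizer (C : Set G)) {n : ℕ}
    (hn : g ^ n ∈ Subgroup.normalizer (C : Set G)) :
    g ∈ Subgroup.normalizer (AA C (g ^ n) hn : Set G) := by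
  rw [Subgroup.mem_normalizer_iff]
  intro x
  have key : ∀ k : ℤ, g * x * g⁻¹ * ((g ^ n) ^ k)⁻¹ = g * (x * ((g ^ n) ^ k)⁻¹) * g⁻¹ := by
    intro k
    have hcomm : Commute g ((g ^ n) ^ k)⁻¹ :=
      (((Commute.refl g).pow_right n).zpow_right k).inv_right
    have h2 : g⁻¹ * ((g ^ n) ^ k)⁻¹ = ((g ^ n) ^ k)⁻¹ * g⁻¹ := hcomm.inv_left.eq
    rw [mul_assoc (g * x), h2]
    group
  constructor
  · rintro ⟨k, hk⟩
    exact ⟨k, by rw [key]; exact (Subgroup.mem_normalizer_iff.1 hg _).1 hk⟩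
  · rintro ⟨k, hk⟩
    refine ⟨k, ?_⟩
    rw [key] at hk
    exact (Subgroup.mem_normalizer_iff.1 hg _).2 hk

end grp

/-! ### the block on `A` -/

section blk

variable {F G : Type} [Field F] [Group G] [Finite G] {C : Subgroup G} {E : G → F} {g : G}

theorem cj_zpow_eq (hE : cj g E = E) (k : ℤ) : cj (g ^ k) E = E := by
  have h1 : ∀ n : ℕ, cj (g ^ n) E = E := by
    intro n
    induction n with
    | zero => ext x; simp [H75.cj]
    | succ n ih =>
      have : cj (g ^ (n + 1)) E = cj (g ^ n) (cj g E) := by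
        ext x
        show E _ = E _
        congr 1
        rw [pow_succ]
        group
      rw [this, hE, ih]
  cases k with
  | ofNat n => simpa using h1 n
  | negSucc n =>
    have h2 := congrArg (cj (g ^ (n + 1))⁻¹) (h1 (n + 1))
    rw [H75.cj_inv_cj] at h2
    rw [zpow_negSucc]
    exact h2.symm

theorem cj_AA (hI : Ix C E) (hg : g ∈ Subgroup.normalizer (C : Set G)) (hE : cj g E = E)
    {y : G} (hy : y ∈ AA C g hg) (x : G) : E (y * x * y⁻¹) = E x := by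
  obtain ⟨k, hk⟩ := hy
  have h1 := (cj_eq_iff _ _).1 (hI.inv hk)
  have h2 := (cj_eq_iff _ _).1 (cj_zpow_eq hE k)
  rw [← h2 x, ← h1 (g ^ k * x * (g ^ k)⁻¹)]
  congr 1
  group

theorem ix_AA (hI : Ix C E) (hg : g ∈ Subgroup.normalizer (C : Set G)) (hE : cj g E = E) :
    Ix (AA C g hg) E := by
  have hs : ∀ x, x ∉ AA C g hg → E x = 0 := fun x hx => hI.supp x fun h => hx (le_AA hg h)
  refine ⟨hs, ?_, ?_⟩
  · intro x y
    exact cj_AA hI hg hE y.2 (x : G)
  · rw [← mulF_res (AA C g hg) E hs, hI.mul]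

end blk

section main

variable {ℓ : ℕ} [Fact ℓ.Prime] {G : Type} [Group G] [Finite G]
  {M : Ideal (integralClosure ℤ ℂ)} [M.IsMaximal] {C : Subgroup G} {E : G → FF M} {g : G}

theorem relIndex_AA (hg : g ∈ Subgroup.normalizer (C : Set G)) {n : ℕ} (hn : g ^ n ∈ C) :
    C.relIndex (AA C g hg) ∣ n := by
  have hN : (C.subgroupOf (AA C g hg)).Normal :=
    Subgroup.normal_subgroupOf_of_le_normalizer (AA_le_normalizer hg)
  have h1 := orderOf_eq_card_of_forall_mem_zpowers (AA_cyclic hg)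
  have h2 : C.relIndex (AA C g hg) = Nat.card (AA C g hg ⧸ C.subgroupOf (AA C g hg)) := rfl
  rw [h2, ← h1]
  apply orderOf_dvd_of_pow_eq_one
  rw [← QuotientGroup.mk_pow, QuotientGroup.eq_one_iff, Subgroup.mem_subgroupOf]
  show ((⟨g⁻¹, _⟩ : AA C g hg) ^ n : AA C g hg).1 ∈ C
  rw [Subgroup.coe_pow]
  show (g⁻¹) ^ n ∈ C
  rw [inv_pow]
  exact C.inv_mem hn

/-- the sum over all powers -/
theorem sumAll (hT : TwtStmt) (hM : (ℓ : integralClosure ℤ ℂ) ∈ M) (hI : Ix C E)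
    (hg : g ∈ Subgroup.normalizer (C : Set G)) (hE : cj g E = E) {r : ℕ} (hr : g ^ ℓ ^ r ∈ C) :
    ∑ j ∈ Finset.range (ℓ ^ r), tw M ℓ C E (g ^ j)⁻¹ =
      ((ℓ ^ r : ℕ) : ℂ) * (ln (fun t : AA C g hg => E t) : ℂ) := by
  classical
  have hp : ℓ.Prime := Fact.out
  have hN : (C.subgroupOf (AA C g hg)).Normal :=
    Subgroup.normal_subgroupOf_of_le_normalizer (AA_le_normalizer hg)
  obtain ⟨n, -, hn⟩ := (Nat.dvd_prime_pow hp).1 (relIndex_AA hg hr)
  have h1 := hT ℓ M hM G C (AA C g hg) (le_AA hg) (AA_le_normalizer hg) ⟨n, hn⟩ E (ix_AA hI hg hE)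
    hI.supp
  have hq : ((QuotientGroup.mk (⟨g⁻¹, (AA C g hg).inv_mem (g_mem_AA hg)⟩ : AA C g hg) :
        AA C g hg ⧸ C.subgroupOf (AA C g hg))) ^ ℓ ^ r = 1 := by
    rw [← QuotientGroup.mk_pow, QuotientGroup.eq_one_iff, Subgroup.mem_subgroupOf]
    show ((⟨g⁻¹, _⟩ : AA C g hg) ^ ℓ ^ r : AA C g hg).1 ∈ C
    rw [Subgroup.coe_pow]
    show (g⁻¹) ^ ℓ ^ r ∈ C
    rw [inv_pow]
    exact C.inv_mem hr
  have h2 := cyc (AA_cyclic hg)
    (fun h : AA C g hg ⧸ C.subgroupOf (AA C g hg) => tw M ℓ C E ((h.out : AA C g hg) : G)) hq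
  have h3 : C.relIndex (AA C g hg) = Nat.card (AA C g hg ⧸ C.subgroupOf (AA C g hg)) := rfl
  rw [← h1, ← h3] at h2
  have h0 : ((C.relIndex (AA C g hg) : ℕ) : ℂ) ≠ 0 := by
    rw [hn]
    exact_mod_cast pow_ne_zero n hp.ne_zero
  have h4 : ∀ j : ℕ, tw M ℓ C E (((((QuotientGroup.mk
      (⟨g⁻¹, (AA C g hg).inv_mem (g_mem_AA hg)⟩ : AA C g hg) :
        AA C g hg ⧸ C.subgroupOf (AA C g hg))) ^ j).out : AA C g hg) : G) =
        tw M ℓ C E (g ^ j)⁻¹ := by
    intro j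
    rw [← QuotientGroup.mk_pow]
    obtain ⟨c, hc⟩ := QuotientGroup.mk_out_eq_mul (C.subgroupOf (AA C g hg))
      ((⟨g⁻¹, (AA C g hg).inv_mem (g_mem_AA hg)⟩ : AA C g hg) ^ j)
    rw [hc, Subgroup.coe_mul, Subgroup.coe_pow]
    have e : ((⟨g⁻¹, (AA C g hg).inv_mem (g_mem_AA hg)⟩ : AA C g hg) : G) = g⁻¹ := rfl
    rw [e, inv_pow]
    exact tw_mul_right (Subgroup.mem_subgroupOf.1 c.2) _
  simp only [h4] at h2
  have h5 : ((C.relIndex (AA C g hg) : ℕ) : ℂ) * ∑ j ∈ Finset.range (ℓ ^ r),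
      tw M ℓ C E (g ^ j)⁻¹ = ((C.relIndex (AA C g hg) : ℕ) : ℂ) *
      (((ℓ ^ r : ℕ) : ℂ) * (ln (fun t : AA C g hg => E t) : ℂ)) := by
    rw [h2]
    ring
  exact mul_left_cancel₀ h0 h5

end main

/-- CYS -/
theorem cys (hT : TwtStmt) (hN : NclStmt) : CysStmt := by
  classical
  intro ℓ hℓ M hM1 hM G _ _ C E hI g hg hE r hr hgr
  have hp : ℓ.Prime := Fact.out
  have hF : GoodF ℓ (FF M) := H50.fld ℓ Fact.out M hM
  obtain ⟨r, rfl⟩ := Nat.exists_eq_succ_of_ne_zero hr.ne'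
  have hgn : g ^ ℓ ∈ Subgroup.normalizer (C : Set G) := Subgroup.pow_mem _ hg ℓ
  have hEn : cj (g ^ ℓ) E = E := by
    have := cj_zpow_eq hE (ℓ : ℤ)
    rwa [zpow_natCast] at this
  have hg1 := g_norm hg hgn
  have hgr' : (g ^ ℓ) ^ ℓ ^ r ∈ C := by
    rw [← pow_mul, ← pow_succ']
    exact hgr
  have h1 := sumAll hT hM hI hg hE hgr
  have h2 := sumAll hT hM hI hgn hEn hgr'
  -- the multiples of `ℓ`
  have h3 : ∑ j ∈ (Finset.range (ℓ ^ (r + 1))).filter (fun j => ℓ ∣ j), tw M ℓ C E (g ^ j)⁻¹ =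
      ∑ j ∈ Finset.range (ℓ ^ r), tw M ℓ C E ((g ^ ℓ) ^ j)⁻¹ := by
    symm
    apply Finset.sum_bij (fun j _ => ℓ * j)
    · intro j hj
      rw [Finset.mem_filter, Finset.mem_range]
      refine ⟨?_, Dvd.intro j rfl⟩
      rw [pow_succ']
      exact Nat.mul_lt_mul_of_pos_left (Finset.mem_range.1 hj) hp.pos
    · intro i _ j _ hij
      exact Nat.eq_of_mul_eq_mul_left hp.pos hij
    · intro j hj
      rw [Finset.mem_filter, Finset.mem_range] at hj
      obtain ⟨hj, i, rfl⟩ := hj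
      refine ⟨i, ?_, rfl⟩
      rw [pow_succ'] at hj
      exact Finset.mem_range.2 (Nat.lt_of_mul_lt_mul_left hj)
    · intro j _
      rw [← pow_mul]
  have h4 := Finset.sum_filter_add_sum_filter_not (Finset.range (ℓ ^ (r + 1))) (fun j => ℓ ∣ j)
    (fun j => tw M ℓ C E (g ^ j)⁻¹)
  rw [h3, h2, h1] at h4
  refine ⟨((ℓ ^ (r + 1) : ℕ) : ℝ) * (ln (fun t : AA C g hg => E t) : ℝ) -
    ((ℓ ^ r : ℕ) : ℝ) * (ln (fun t : AA C (g ^ ℓ) hgn => E t) : ℝ), ?_, ?_⟩
  · -- the index of `A₁` in `A`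
    have h5 : (AA C (g ^ ℓ) hgn).relIndex (AA C g hg) ∣ ℓ := by
      have := relIndex_AA hg1 (g_mem_AA hgn)
      rwa [AA_AA hg hgn hg1] at this
    have hle : AA C (g ^ ℓ) hgn ≤ AA C g hg :=
      AA_le hgn (le_AA hg) ((AA C g hg).pow_mem (g_mem_AA hg) ℓ)
    have h6 : ln (fun t : AA C (g ^ ℓ) hgn => E t) ≤ ℓ * ln (fun t : AA C g hg => E t) := by
      rcases (Nat.dvd_prime hp).1 h5 with h | h
      · have h7 : AA C g hg ≤ AA C (g ^ ℓ) hgn := Subgroup.relIndex_eq_one.1 h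
        have h8 : AA C (g ^ ℓ) hgn = AA C g hg := le_antisymm hle h7
        rw [h8]
        exact Nat.le_mul_of_pos_left _ hp.pos
      · refine hN ℓ (FF M) hF G (AA C (g ^ ℓ) hgn) (AA C g hg) hle ?_ h E (ix_AA hI hg hE) ?_
        · exact AA_le hg ((le_AA hgn).trans Subgroup.le_normalizer) hg1
        · intro x hx
          exact hI.supp x fun h => hx (le_AA hgn h)
    have h7 : (ln (fun t : AA C (g ^ ℓ) hgn => E t) : ℝ) ≤
        ℓ * (ln (fun t : AA C g hg => E t) : ℝ) := by exact_mod_cast h6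
    have h8 : (0 : ℝ) ≤ ((ℓ ^ r : ℕ) : ℝ) := Nat.cast_nonneg _
    have h9 := mul_le_mul_of_nonneg_left h7 h8
    have e : ((ℓ ^ (r + 1) : ℕ) : ℝ) = ((ℓ ^ r : ℕ) : ℝ) * ℓ := by push_cast; ring
    rw [e, mul_assoc]
    linarith
  · rw [eq_sub_of_add_eq' h4, Nat.succ_eq_add_one]
    push_cast
    ring

end Pool.Agent.PP.T5.H32
end
end -- Pool.Agent.Helper32_AT5.CYS

section -- Pool.Agent.Helper44_AT10.SPS

/-!
# Squad AT10, row SPS: from idempotents to regular elements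
-/

set_option autoImplicit false

open scoped BigOperators

noncomputable section

namespace Pool.Agent.PP.T10.H44

open Pool.Agent.Helper51_AWC Pool.Agent.Helper79_WRA Pool.Agent.PP Pool.Agent.PP.KF
open Pool.Agent.PP.K9 Pool.Agent.PP.K9.H97 Pool.Agent.PP.H75 Pool.Agent.PP.T3 Pool.Agent.PP.T2
open Pool.Agent.PP.T5 Pool.Agent.PP.TB Pool.Agent.PP.T10
open Pool.Agent.PP.T8 (rs pw fv rd Ip Rv)

attribute [local instance] Ideal.Quotient.field

set_option linter.unusedSectionVars false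

section grp

variable {G : Type} [Group G]

/-- the powers of `s` with exponents modulo `m` -/
def sp (s : G) (m : ℕ) (k : ZMod m) : G := s ^ k.val

theorem sp_add {s : G} {m : ℕ} [NeZero m] (hm : orderOf s = m) (k l : ZMod m) :
    sp s m (k + l) = sp s m k * sp s m l := by
  subst hm
  unfold sp
  rw [ZMod.val_add, ← pow_add, pow_mod_orderOf]

theorem sp_one {s : G} {m : ℕ} [NeZero m] (hm : orderOf s = m) : sp s m 1 = s := by
  subst hm
  unfold sp
  rcases Nat.lt_or_ge 1 (orderOf s) with h | h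
  · have : Fact (1 < orderOf s) := ⟨h⟩
    rw [ZMod.val_one, pow_one]
  · have h1 : orderOf s = 1 := le_antisymm h (NeZero.one_le)
    have h2 : s = 1 := orderOf_eq_one_iff.1 h1
    rw [h2, one_pow]

/-- the character of `ZMod m` -/
abbrev ch (m : ℕ) [NeZero m] (a : ZMod m) : ℂ := ZMod.stdAddChar a

/-- the idempotent of the eigenvalue `ch a` of `s` -/
def ep (s : G) (m : ℕ) [NeZero m] (a : ZMod m) : G → ℂ :=
  ∑ k : ZMod m, ((m : ℂ)⁻¹ * ch m (-(a * k))) • dl ℂ (sp s m k)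

open Classical in
theorem dl_apply (z x : G) : dl ℂ z x = if x = z then 1 else 0 := rfl

theorem ep_apply (s : G) (m : ℕ) [NeZero m] (a : ZMod m) (g : G) :
    ep s m a g = ∑ k : ZMod m, ((m : ℂ)⁻¹ * ch m (-(a * k))) * dl ℂ (sp s m k) g := by
  unfold ep
  rw [Finset.sum_apply]
  rfl

theorem ep_supp {s : G} {m : ℕ} [NeZero m] (a : ZMod m) {K : Subgroup G} (hs : s ∈ K) {g : G}
    (hg : g ∉ K) : ep s m a g = 0 := by
  rw [ep_apply]
  apply Finset.sum_eq_zero
  intro k _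
  rw [dl_apply, if_neg, mul_zero]
  rintro rfl
  exact hg (K.pow_mem hs _)

theorem ep_inv {s : G} {m : ℕ} [NeZero m] (a : ZMod m) {v : G} (hv : v * s = s * v) (x : G) :
    ep s m a (v * x * v⁻¹) = ep s m a x := by
  rw [ep_apply, ep_apply]
  apply Finset.sum_congr rfl
  intro k _
  rw [dl_apply, dl_apply]
  have h : Commute v (sp s m k) := (show Commute v s from hv).pow_right _
  have h1 : v * x * v⁻¹ = sp s m k ↔ x = sp s m k := by
    constructor
    · intro h2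
      have h3 : x = v⁻¹ * sp s m k * v := by rw [← h2]; group
      rw [h3, mul_assoc, ← h.eq, inv_mul_cancel_left]
    · rintro rfl
      rw [h.eq, mul_inv_cancel_right]
  by_cases hx : x = sp s m k
  · rw [if_pos (h1.2 hx), if_pos hx]
  · rw [if_neg (mt h1.1 hx), if_neg hx]

variable [Finite G]

theorem ep_idem {s : G} {m : ℕ} [NeZero m] (hm : orderOf s = m) (a : ZMod m) :
    mulF (ep s m a) (ep s m a) = ep s m a := by
  have hm0 : (m : ℂ) ≠ 0 := Nat.cast_ne_zero.2 (NeZero.ne m)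
  apply ma_injective
  rw [ma_mul]
  have h0 : ma (ep s m a) = ∑ k : ZMod m, ((m : ℂ)⁻¹ * ch m (-(a * k))) •
      (MonoidAlgebra.single (sp s m k) 1 : MonoidAlgebra ℂ G) := by
    unfold ep
    rw [ma_sum]
    apply Finset.sum_congr rfl
    intro k _
    rw [ma_smul, ma_dl]
  rw [h0, Finset.sum_mul]
  simp only [Finset.mul_sum, smul_mul_smul_comm, MonoidAlgebra.single_mul_single, mul_one]
  have h1 : ∀ k : ZMod m, ∑ l : ZMod m, ((m : ℂ)⁻¹ * ch m (-(a * k)) *
      ((m : ℂ)⁻¹ * ch m (-(a * l)))) •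
        (MonoidAlgebra.single (sp s m k * sp s m l) 1 : MonoidAlgebra ℂ G) =
      ∑ j : ZMod m, ((m : ℂ)⁻¹ * ((m : ℂ)⁻¹ * ch m (-(a * j)))) •
        (MonoidAlgebra.single (sp s m j) 1 : MonoidAlgebra ℂ G) := by
    intro k
    rw [← Equiv.sum_comp (Equiv.addLeft k)
      (fun j => ((m : ℂ)⁻¹ * ((m : ℂ)⁻¹ * ch m (-(a * j)))) •
        (MonoidAlgebra.single (sp s m j) 1 : MonoidAlgebra ℂ G))]
    apply Finset.sum_congr rfl
    intro l _
    rw [Equiv.coe_addLeft, sp_add hm]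
    congr 1
    have h2 : ch m (-(a * (k + l))) = ch m (-(a * k)) * ch m (-(a * l)) := by
      unfold ch
      rw [← AddChar.map_add_eq_mul]
      congr 1
      ring
    rw [h2]
    ring
  rw [Finset.sum_congr rfl fun k _ => h1 k, Finset.sum_const, Finset.card_univ, ZMod.card,
    ← Nat.cast_smul_eq_nsmul ℂ, Finset.smul_sum]
  apply Finset.sum_congr rfl
  intro k _
  rw [smul_smul, ← mul_assoc, mul_inv_cancel₀ hm0, one_mul]

/-- `s` is the combination of the idempotents. -/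
theorem ep_sum {s : G} {m : ℕ} [NeZero m] (hm : orderOf s = m) (Φ : G → ℂ) :
    ∑ a : ZMod m, ch m a * ∑ᶠ t, ep s m a t * Φ t = Φ s := by
  classical
  have hm0 : (m : ℂ) ≠ 0 := Nat.cast_ne_zero.2 (NeZero.ne m)
  have hF : Fintype G := Fintype.ofFinite G
  have h1 : ∀ a : ZMod m, ∑ᶠ t, ep s m a t * Φ t =
      ∑ k : ZMod m, ((m : ℂ)⁻¹ * ch m (-(a * k))) * Φ (sp s m k) := by
    intro a
    rw [finsum_eq_sum_of_fintype]
    have h2 : ∀ t, ep s m a t * Φ t = ∑ k : ZMod m,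
        ((m : ℂ)⁻¹ * ch m (-(a * k))) * (if t = sp s m k then Φ t else 0) := by
      intro t
      rw [ep_apply, Finset.sum_mul]
      apply Finset.sum_congr rfl
      intro k _
      rw [dl_apply]
      split_ifs <;> ring
    rw [Finset.sum_congr rfl fun t _ => h2 t, Finset.sum_comm]
    apply Finset.sum_congr rfl
    intro k _
    rw [← Finset.mul_sum, Finset.sum_ite_eq' Finset.univ (sp s m k) Φ, if_pos (Finset.mem_univ _)]
  simp only [h1, Finset.mul_sum]
  rw [Finset.sum_comm]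
  have h3 : ∀ k : ZMod m, ∑ a : ZMod m, ch m a * ((m : ℂ)⁻¹ * ch m (-(a * k)) * Φ (sp s m k)) =
      if k = 1 then Φ (sp s m k) else 0 := by
    intro k
    have h4 : ∀ a : ZMod m, ch m a * ((m : ℂ)⁻¹ * ch m (-(a * k)) * Φ (sp s m k)) =
        ch m (a * (1 - k)) * ((m : ℂ)⁻¹ * Φ (sp s m k)) := by
      intro a
      have h5 : ch m (a * (1 - k)) = ch m a * ch m (-(a * k)) := by
        unfold ch
        rw [← AddChar.map_add_eq_mul]
        congr 1
        ring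
      rw [h5]
      ring
    rw [Finset.sum_congr rfl fun a _ => h4 a, ← Finset.sum_mul]
    have h6 := AddChar.sum_mulShift (1 - k) (ZMod.isPrimitive_stdAddChar m)
    unfold ch
    rw [h6]
    by_cases hk : k = 1
    · rw [if_pos hk, if_pos (by rw [hk, sub_self]), ZMod.card, ← mul_assoc, mul_inv_cancel₀ hm0,
        one_mul]
    · rw [if_neg hk, if_neg (fun h => hk (sub_eq_zero.1 h).symm), Nat.cast_zero, zero_mul]
  rw [Finset.sum_congr rfl fun k _ => h3 k, Finset.sum_ite_eq' Finset.univ (1 : ZMod m),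
    if_pos (Finset.mem_univ _), sp_one hm]

end grp

section lring

variable {M : Ideal (integralClosure ℤ ℂ)} [M.IsMaximal] {G : Type} [Group G] [Finite G]

theorem ch_int (m : ℕ) [NeZero m] (a : ZMod m) : IsIntegral ℤ (ch m a) := by
  apply IsIntegral.of_pow (n := m) (NeZero.pos m)
  have h : ch m a ^ m = 1 := by
    unfold ch
    rw [← AddChar.map_nsmul_eq_pow]
    have : m • a = 0 := by rw [nsmul_eq_mul, ZMod.natCast_self, zero_mul]
    rw [this, AddChar.map_zero_eq_one]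
  rw [h]
  exact isIntegral_one

theorem ch_RM (m : ℕ) [NeZero m] (a : ZMod m) : ch m a ∈ RM M := RM_of_int (ch_int m a)

theorem ch_conj (m : ℕ) [NeZero m] (a : ZMod m) : starRingEnd ℂ (ch m a) = ch m (-a) :=
  (AddChar.map_neg_eq_conj _ a).symm

theorem ep_RM {ℓ : ℕ} (hℓ : ℓ.Prime) (hlM : (ℓ : integralClosure ℤ ℂ) ∈ M) {s : G} {m : ℕ}
    [NeZero m] (hm : ¬ ℓ ∣ m) (a : ZMod m) (g : G) : ep s m a g ∈ RM M := by
  rw [ep_apply]
  apply Subring.sum_mem
  intro k _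
  apply (RM M).mul_mem ((RM M).mul_mem (inv_nat_RM hℓ hlM hm) (ch_RM m _))
  rw [dl_apply]
  split_ifs
  · exact (RM M).one_mem
  · exact (RM M).zero_mem

theorem mulF_RM {a c : G → ℂ} (ha : ∀ g, a g ∈ RM M) (hc : ∀ g, c g ∈ RM M) (g : G) :
    mulF a c g ∈ RM M := by
  have := Fintype.ofFinite G
  unfold mulF
  rw [finsum_eq_sum_of_fintype]
  exact Subring.sum_mem _ fun t _ => (RM M).mul_mem (ha t) (hc _)

theorem rd_mulF {a c : G → ℂ} (ha : ∀ g, a g ∈ RM M) (hc : ∀ g, c g ∈ RM M) :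
    rd M (mulF a c) = mulF (rd M a) (rd M c) := by
  have := Fintype.ofFinite G
  funext x
  unfold rd mulF
  rw [finsum_eq_sum_of_fintype, finsum_eq_sum_of_fintype,
    rr_sum _ _ fun t _ => (RM M).mul_mem (ha t) (hc _)]
  exact Finset.sum_congr rfl fun t _ => rr_mul (ha t) (hc _)

theorem rs_supp {F : Type} [Zero F] {C : Subgroup G} {a : G → F} (ha : ∀ x, x ∉ C → a x = 0) :
    rs C a = a := by
  funext x
  unfold rs
  split_ifs with h
  · rfl
  · exact (ha x h).symm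

theorem rd_zero_of {a : G → ℂ} {x : G} (h : a x = 0) : rd M a x = 0 := by
  unfold rd
  rw [h, rr_zero]

end lring

section main

variable {M : Ideal (integralClosure ℤ ℂ)} [M.IsMaximal] {G : Type} [Group G] [Finite G]

/-- `χ(u a b)` for `a b` the product in the group ring -/
theorem fv_mulF (a b : G → ℂ) (u : G) (χ : G → ℂ) :
    fv (mulF a b) u χ = ∑ᶠ t, a t * ∑ᶠ h, b h * χ (u * t * h) := by
  have hF : Fintype G := Fintype.ofFinite G
  unfold fv mulF
  simp only [finsum_eq_sum_of_fintype]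
  simp only [Finset.sum_mul]
  rw [Finset.sum_comm]
  apply Finset.sum_congr rfl
  intro t _
  rw [Finset.mul_sum, ← Equiv.sum_comp (Equiv.mulLeft t)]
  apply Finset.sum_congr rfl
  intro h _
  rw [Equiv.coe_mulLeft, inv_mul_cancel_left, mul_assoc, mul_assoc u t h]

theorem mem_Cu {u x : G} : x ∈ Cu u ↔ u * x = x * u := by
  unfold Cu
  rw [Subgroup.mem_centralizer_iff]
  simp

/-- the properties of the extended lift -/
theorem lift_props (hI : Pool.Agent.PP.KF.IdmStmt) {u : G} {b : G → FF M} (hb : Ix (Cu u) b) :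
    (∀ g, g ∉ Cu u → H75.ext0 (Cu u) (eh M fun t : Cu u => b t) g = 0) ∧
    (∀ g, H75.ext0 (Cu u) (eh M fun t : Cu u => b t) g ∈ RM M) ∧
    rd M (H75.ext0 (Cu u) (eh M fun t : Cu u => b t)) = b ∧
    mulF (H75.ext0 (Cu u) (eh M fun t : Cu u => b t)) (H75.ext0 (Cu u) (eh M fun t : Cu u => b t))
      = H75.ext0 (Cu u) (eh M fun t : Cu u => b t) ∧
    ∀ k ∈ Cu u, cj k (H75.ext0 (Cu u) (eh M fun t : Cu u => b t)) =
      H75.ext0 (Cu u) (eh M fun t : Cu u => b t) := by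
  obtain ⟨h1, h2, -⟩ := hI M (Cu u) (fun t : Cu u => b t) hb.idem
  have hs := ext0_supp (Cu u) (eh M fun t : Cu u => b t)
  have hsupp : ∀ g, g ∉ Cu u → H75.ext0 (Cu u) (eh M fun t : Cu u => b t) g = 0 := hs
  refine ⟨hsupp, ?_, ?_, ?_, ?_⟩
  · intro g
    by_cases hg : g ∈ Cu u
    · rw [show H75.ext0 (Cu u) (eh M fun t : Cu u => b t) g =
        H75.ext0 (Cu u) (eh M fun t : Cu u => b t) ((⟨g, hg⟩ : Cu u) : G) from rfl, ext0_apply]
      exact (h1 _).1
    · rw [hsupp g hg]; exact (RM M).zero_mem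
  · funext g
    by_cases hg : g ∈ Cu u
    · unfold rd
      rw [show H75.ext0 (Cu u) (eh M fun t : Cu u => b t) g =
        H75.ext0 (Cu u) (eh M fun t : Cu u => b t) ((⟨g, hg⟩ : Cu u) : G) from rfl, ext0_apply]
      exact (h1 _).2
    · rw [rd_zero_of (hsupp g hg), hb.supp g hg]
  · rw [← ext0_mulF, h2.2]
  · intro k hk
    rw [cj_eq_iff]
    intro x
    by_cases hx : x ∈ Cu u
    · have hkx : k * x * k⁻¹ ∈ Cu u := (Cu u).mul_mem ((Cu u).mul_mem hk hx) ((Cu u).inv_mem hk)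
      rw [show H75.ext0 (Cu u) (eh M fun t : Cu u => b t) (k * x * k⁻¹) =
        H75.ext0 (Cu u) (eh M fun t : Cu u => b t) ((⟨k * x * k⁻¹, hkx⟩ : Cu u) : G) from rfl,
        ext0_apply]
      rw [show H75.ext0 (Cu u) (eh M fun t : Cu u => b t) x =
        H75.ext0 (Cu u) (eh M fun t : Cu u => b t) ((⟨x, hx⟩ : Cu u) : G) from rfl,
        ext0_apply]
      exact h2.1 ⟨x, hx⟩ ⟨k, hk⟩
    · rw [hsupp x hx, hsupp]
      intro h
      apply hx
      have h3 := (Cu u).mul_mem ((Cu u).mul_mem ((Cu u).inv_mem hk) h) hk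
      rwa [show k⁻¹ * (k * x * k⁻¹) * k = x by group] at h3

/-- the lift of the product -/
theorem il_of {ℓ : ℕ} (hℓ : ℓ.Prime) (hlM : (ℓ : integralClosure ℤ ℂ) ∈ M)
    (hI : Pool.Agent.PP.KF.IdmStmt) {s : G} {m : ℕ} [NeZero m] (hm : orderOf s = m)
    (hml : ¬ ℓ ∣ m) {u : G} (hus : u * s = s * u) {b : G → FF M} (hb : Ix (Cu u) b)
    (a : ZMod m) :
    Il M u (mulF (rs (Cu u) (rd M (ep s m a))) b)
      (mulF (ep s m a) (H75.ext0 (Cu u) (eh M fun t : Cu u => b t))) := by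
  obtain ⟨h1, h2, h3, h4, h5⟩ := lift_props hI hb
  set B := H75.ext0 (Cu u) (eh M fun t : Cu u => b t) with hB
  have hsC : s ∈ Cu u := mem_Cu.2 hus
  have huC : u ∈ Cu u := mem_Cu.2 rfl
  have hes : ∀ g, g ∉ Cu u → ep s m a g = 0 := fun g hg => ep_supp a hsC hg
  have heR : ∀ g, ep s m a g ∈ RM M := ep_RM hℓ hlM hml a
  have hcomm : mulF (ep s m a) B = mulF B (ep s m a) := mulF_comm_of hes h5
  refine ⟨mulF_RM heR h2, ?_, ?_, ?_⟩
  · calc mulF (mulF (ep s m a) B) (mulF (ep s m a) B)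
        = mulF (ep s m a) (mulF (mulF B (ep s m a)) B) := by
          rw [mulF_assoc, mulF_assoc]
      _ = mulF (ep s m a) (mulF (mulF (ep s m a) B) B) := by rw [← hcomm]
      _ = mulF (mulF (ep s m a) (ep s m a)) (mulF B B) := by
          rw [mulF_assoc, mulF_assoc]
      _ = mulF (ep s m a) B := by rw [ep_idem hm, h4]
  · have h6 : cj u (mulF (ep s m a) B) = mulF (ep s m a) B := by
      rw [cj_mulF, h5 u huC, (cj_eq_iff u _).2 (fun x => ep_inv a hus x)]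
    exact (cj_eq_iff u _).1 h6
  · rw [rs_supp (a := rd M (mulF (ep s m a) B)) (fun x hx => rd_zero_of (mulF_supp _ hes h1 x hx)),
      rs_supp (a := rd M (ep s m a)) (fun x hx => rd_zero_of (hes x hx)), rd_mulF heR h2, h3]

end main

/-- SPS -/
theorem sps (hT : TvsStmt) (hF : FczStmt) (hZ : T5.ZimStmt) (hI : Pool.Agent.PP.KF.IdmStmt) :
    SpsStmt := by
  intro ℓ hℓ M _ hlM G _ _ ι _ c β hβ χ hχ hH ψ hψ P hP s hs hr κ hκ
  classical
  have hFG : Fintype G := Fintype.ofFinite G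
  have hFP : Fintype P := Fintype.ofFinite P
  have hFι : Fintype ι := Fintype.ofFinite ι
  obtain ⟨m, hm⟩ : ∃ m, orderOf s = m := ⟨_, rfl⟩
  have hm0 : m ≠ 0 := by rw [← hm]; exact (orderOf_pos s).ne'
  have : NeZero m := ⟨hm0⟩
  have hml : ¬ ℓ ∣ m := by
    intro h
    have h1 : (orderOf s).Coprime ℓ := hr
    rw [hm] at h1
    exact hℓ.out.one_lt.ne' (Nat.eq_one_of_dvd_coprimes h1 h dvd_rfl)
  have hcomm : ∀ u ∈ P, u * s = s * u := fun u hu => Subgroup.mem_centralizer_iff.1 hs u hu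
  have hcl : ∀ x y : G, χ (y * x * y⁻¹) = χ x := fun x y => irr_conj hχ x y
  have hEl : ∀ u ∈ P, El ℓ u := by
    intro u hu
    obtain ⟨n, hn⟩ := hP ⟨u, hu⟩
    exact ⟨n, by simpa using congrArg Subtype.val hn⟩
  -- the function `fu`
  have h1 : ∀ u ∈ P, fu M c β χ u s = ∑ a : ZMod m, ch m a * fi M c β (rd M (ep s m a)) χ u := by
    intro u hu
    unfold fu fi
    simp only [finsum_eq_sum_of_fintype, Finset.mul_sum]
    rw [Finset.sum_comm]
    apply Finset.sum_congr rfl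
    intro k _
    have h2 : ∀ a : ZMod m, tv M u (mulF (rs (Cu u) (rd M (ep s m a))) (β k u)) χ =
        ∑ᶠ t, ep s m a t * ∑ᶠ h, H75.ext0 (Cu u) (eh M fun t : Cu u => β k u t) h *
          χ (u * t * h) := by
      intro a
      rw [(hT ℓ M hlM G u (hEl u hu)).2.1 _ _
        (il_of hℓ.out hlM hI hm hml (hcomm u hu) (hβ.ix k u) a) χ hcl, fv_mulF]
    have h3 := ep_sum hm (fun t => ∑ᶠ h, H75.ext0 (Cu u) (eh M fun t : Cu u => β k u t) h *
          χ (u * t * h))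
    have h4 : gv M (Cu u) (u * s) (β k u) χ =
        ∑ᶠ h, H75.ext0 (Cu u) (eh M fun t : Cu u => β k u t) h * χ (u * s * h) := by
      unfold gv gbv
      rw [sum_sub (Cu u) (fun h => H75.ext0 (Cu u) (eh M fun t : Cu u => β k u t) h *
        χ (u * s * h)) (fun x hx => by rw [ext0_supp _ _ x hx, zero_mul])]
      apply finsum_congr
      intro t
      rw [ext0_apply]
    rw [h4, ← h3, Finset.mul_sum]
    apply Finset.sum_congr rfl
    intro a _
    rw [h2 a]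
    ring
  have h5 : ∀ u ∈ P, ψ (u * s) = ∑ a : ZMod m, ch m a * fv (ep s m a) u ψ := by
    intro u _
    exact (ep_sum hm (fun t => ψ (u * t))).symm
  have hIp : ∀ a : ZMod m, Ip M P (ep s m a) := fun a =>
    ⟨ep_RM hℓ.out hlM hml a, ep_idem hm a, fun v hv x => ep_inv a (hcomm v hv) x⟩
  have hfi : ∀ a : ZMod m, Cf M P (fi M c β (rd M (ep s m a)) χ) := by
    intro a
    apply hH P hP
    · rw [← rd_mulF (hIp a).rm (hIp a).rm, (hIp a).id]
    · intro v hv x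
      unfold rd
      rw [(hIp a).iv v hv x]
  have hz : ∀ b : ZMod m, (fun u : P => starRingEnd ℂ (fv (ep s m b) (u : G) ψ) * κ u) ∈ ZI P := by
    intro b
    have h6 := (hZ P _ (hF M G P _ (hIp b) ψ hψ) κ hκ).2
    exact (hZ P _ h6 κ hκ).1
  have h7 : (Nat.card P : ℂ)⁻¹ * ∑ᶠ u : P, fu M c β χ u s * starRingEnd ℂ (ψ (u * s)) * κ u =
      ∑ a : ZMod m, ∑ b : ZMod m, ch m a * ch m (-b) * ((Nat.card P : ℂ)⁻¹ *
        ∑ᶠ u : P, fi M c β (rd M (ep s m a)) χ u *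
          (starRingEnd ℂ (fv (ep s m b) (u : G) ψ) * κ u)) := by
    simp only [finsum_eq_sum_of_fintype, Finset.mul_sum]
    have h8 : ∀ u : P, (Nat.card P : ℂ)⁻¹ * (fu M c β χ u s * starRingEnd ℂ (ψ (u * s)) * κ u) =
        ∑ a : ZMod m, ∑ b : ZMod m, ch m a * ch m (-b) * ((Nat.card P : ℂ)⁻¹ *
          (fi M c β (rd M (ep s m a)) χ u *
            (starRingEnd ℂ (fv (ep s m b) (u : G) ψ) * κ u))) := by
      intro u
      rw [h1 u u.2, h5 u u.2, map_sum]
      simp only [map_mul, ch_conj]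
      rw [Finset.sum_mul_sum, Finset.sum_mul, Finset.mul_sum]
      apply Finset.sum_congr rfl
      intro a _
      rw [Finset.sum_mul, Finset.mul_sum]
      apply Finset.sum_congr rfl
      intro b _
      ring
    rw [Finset.sum_congr rfl fun u _ => h8 u, Finset.sum_comm]
    apply Finset.sum_congr rfl
    intro a _
    rw [Finset.sum_comm]
  rw [h7]
  apply Subring.sum_mem
  intro a _
  apply Subring.sum_mem
  intro b _
  exact (RM M).mul_mem ((RM M).mul_mem (ch_RM m a) (ch_RM m (-b))) (hfi a _ (hz b))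

end Pool.Agent.PP.T10.H44
end
end -- Pool.Agent.Helper44_AT10.SPS

section -- Pool.Agent.Helper65_ATP.DVP

/-!
# Squad ATP, row DVP: divisibility of the alternating sum
-/

open scoped BigOperators

noncomputable section

namespace Pool.Agent.PP.TP.H65

open Pool.Agent.Helper51_AWC Pool.Agent.Helper79_WRA Pool.Agent.PP Pool.Agent.PP.KF
open Pool.Agent.PP.K9 Pool.Agent.PP.K9.H97 Pool.Agent.PP.H75 Pool.Agent.PP.T3 Pool.Agent.PP.T2
open Pool.Agent.PP.TB

attribute [local instance] Ideal.Quotient.field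

theorem dvp : DvpStmt := by
  intro ℓ _ M _ hM G _ _ hO a p e V he hT hC hz χ hχ h1
  have hℓ : ℓ.Prime := Fact.out
  have hD := T3.H24.isDef_of_tp hM he hT hχ h1
  obtain ⟨u, huZ, ho⟩ := hz
  have huV : u ∈ V := huZ.1
  have hcen : ∀ v ∈ V, v * u = u * v := fun v hv => Subgroup.mem_centralizer_iff.1 huZ.2 v hv
  have hZV : Zc V ≤ V := inf_le_left
  have hBi : ((Zc V).subgroupOf V).index ≤ ℓ ^ p := by
    have h2 := Subgroup.index_mul_card ((Zc V).subgroupOf V)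
    have h3 : Nat.card ((Zc V).subgroupOf V) = Nat.card (Zc V) :=
      Nat.card_congr (Subgroup.subgroupOfEquivOfLe hZV).toEquiv
    rw [h3] at h2
    have h4 : 0 < Nat.card (Zc V) := Nat.card_pos
    have h5 : ((Zc V).subgroupOf V).index * Nat.card (Zc V) ≤ ℓ ^ p * Nat.card (Zc V) := by
      rw [h2]
      exact hC
    exact Nat.le_of_mul_le_mul_right h5 h4
  obtain ⟨A, iA, ρ, hρ⟩ := T5.H23.exists_transfer (V := V) (a := a) (k := p) hℓ
    ((IsPGroup.iff_card (p := ℓ) (G := V)).1 hT.pg) ((Zc V).subgroupOf V)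
    (fun x hx y hy => by
      have hx1 := Subgroup.mem_subgroupOf.1 hx
      exact (Subgroup.mem_centralizer_iff.1 (Subgroup.mem_subgroupOf.1 hy).2 x
        hx1.1 |> fun h => Subtype.ext h)) hBi ⟨u, huV⟩ (fun v => Subtype.ext (hcen v v.2))
    (by rw [Subgroup.orderOf_mk, ho])
  have h2 := ML.mn3_ ℓ M hM G (by rw [hO]; exact bot_le) χ hχ V hD A ρ (by
      intro r hr
      rw [hO, Subgroup.mem_bot] at hr
      have h7 : r = 1 := Subtype.ext hr
      rw [h7, map_one]) ⟨u, huV⟩ (fun d => Subtype.ext (hcen d d.2).symm)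
  rw [hO, Subgroup.card_bot, mul_one] at h2
  exact (Int.natCast_dvd_natCast.2 hρ).trans h2

end Pool.Agent.PP.TP.H65
end
end -- Pool.Agent.Helper65_ATP.DVP
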