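import Pool.Agent.Helper12_AWB.B175
import Pool.Agent.Helper12_AWB.B211
import Pool.Agent.Helper12_AWB.B222
import Pool.Agent.Helper12_AWB.B236
import Pool.Agent.Helper12_AWB.B277
import Pool.Agent.Helper12_AWB.B281

/-!
# Merged copies (generated) of the modules

* `Pool.Agent.Helper13_AT5.OMF`
* `Pool.Agent.Helper17_AT5.VJ5`
* `Pool.Agent.Helper18_AT5.LNB`
* `Pool.Agent.Helper11_AT5.Asm5`
* `Pool.Agent.Helper43_AT5.Fin5`
-/

set_option autoImplicit false

section -- Pool.Agent.Helper13_AT5.OMF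

/-!
# Squad AT5, row OMF: the subgroup of order `ℓ` of `⟨u⟩`
-/

set_option autoImplicit false

noncomputable section

namespace Pool.Agent.PP.T5.H13

open Pool.Agent.Helper51_AWC Pool.Agent.PP Pool.Agent.PP.KF Pool.Agent.PP.T5

theorem omf : OmfStmt := by
  intro ℓ hℓ G _ _ a u ha hu
  have hp : ℓ.Prime := hℓ.out
  have hdvd : ℓ ^ (a - 1) ∣ orderOf u := by
    rw [hu]
    exact pow_dvd_pow ℓ (by omega)
  have hw : orderOf (u ^ ℓ ^ (a - 1)) = ℓ := by
    rw [orderOf_pow_of_dvd (pow_ne_zero _ hp.ne_zero) hdvd, hu, Nat.pow_div (by omega) hp.pos]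
    have h1 : a - (a - 1) = 1 := by omega
    rw [h1, pow_one]
  have hcard : Nat.card (Om ℓ a u) = ℓ := by
    unfold Om
    rw [Nat.card_zpowers, hw]
  have hle : Om ℓ a u ≤ Subgroup.zpowers u := by
    unfold Om
    rw [Subgroup.zpowers_le]
    exact Subgroup.pow_mem _ (Subgroup.mem_zpowers u) _
  refine ⟨?_, hcard, ?_, hle, ?_, ?_, ?_, ?_⟩
  · refine IsPGroup.of_card (n := 1) ?_
    rw [hcard, pow_one]
  · intro h
    rw [h, Subgroup.card_bot] at hcard
    exact hp.one_lt.ne hcard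
  · intro c hc
    have hc' : Commute c u := Subgroup.mem_centralizer_singleton_iff.1 hc
    rw [Subgroup.mem_centralizer_iff]
    intro h hh
    obtain ⟨k, rfl⟩ := Subgroup.mem_zpowers_iff.1 (hle hh)
    exact (hc'.zpow_right k).symm.eq
  · intro g
    have hg : (MulAut.conj g).toMonoidHom u = g * u * g⁻¹ := rfl
    constructor
    · unfold conjS Om
      rw [MonoidHom.map_zpowers, map_pow, hg]
    · rw [← hg, ← hu]
      exact orderOf_injective _ (MulAut.conj g).injective u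
  · intro v hv hv1
    obtain ⟨j, hj⟩ := (Submonoid.mem_powers_iff _ _).1 (mem_powers_iff_mem_zpowers.2 hv)
    have hj0 : j ≠ 0 := by
      intro h0
      rw [h0, pow_zero] at hj
      exact hv1 hj.symm
    obtain ⟨c, m, hm, hjm⟩ := Nat.exists_eq_pow_mul_and_not_dvd hj0 ℓ hp.ne_one
    have hca : c < a := by
      by_contra h
      push Not at h
      apply hv1
      rw [← hj, hjm, ← orderOf_dvd_iff_pow_eq_one, hu]
      exact (pow_dvd_pow ℓ h).trans (Dvd.intro _ rfl)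
    have h1 : v ^ ℓ ^ (a - 1 - c) = (u ^ ℓ ^ (a - 1)) ^ m := by
      rw [← hj, ← pow_mul, hjm, ← pow_mul]
      congr 1
      have h2 : ℓ ^ (a - 1) = ℓ ^ c * ℓ ^ (a - 1 - c) := by
        rw [← pow_add]
        congr 1
        omega
      rw [h2]
      ring
    have hcop : Nat.Coprime m ℓ := ((Nat.Prime.coprime_iff_not_dvd hp).2 hm).symm
    obtain ⟨m', -, hm'⟩ := Nat.exists_mul_mod_eq_one_of_coprime hcop hp.one_lt
    unfold Om
    rw [Subgroup.zpowers_le]
    have h3 : (v ^ ℓ ^ (a - 1 - c)) ^ m' = u ^ ℓ ^ (a - 1) := by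
      rw [h1, ← pow_mul, ← pow_mod_orderOf, hw, hm', pow_one]
    rw [← h3]
    exact Subgroup.pow_mem _ (Subgroup.pow_mem _ (Subgroup.mem_zpowers v) _) _
  · intro H _ N φ huN hnot
    have h1 : φ ⟨u, huN⟩ ^ ℓ ^ (a - 1) ≠ 1 := by
      intro h
      apply hnot
      unfold Om
      rw [Subgroup.zpowers_le]
      refine ⟨⟨u, huN⟩ ^ ℓ ^ (a - 1), ?_, rfl⟩
      show φ (⟨u, huN⟩ ^ ℓ ^ (a - 1)) = 1
      rw [map_pow, h]
    have h2 : φ ⟨u, huN⟩ ^ ℓ ^ (a - 1 + 1) = 1 := by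
      rw [Nat.sub_add_cancel ha, ← map_pow]
      have h3 : (⟨u, huN⟩ : N) ^ ℓ ^ a = 1 := by
        apply Subtype.ext
        show u ^ ℓ ^ a = 1
        rw [← hu]
        exact pow_orderOf_eq_one u
      rw [h3, map_one]
    have h4 := orderOf_eq_prime_pow h1 h2
    rw [Nat.sub_add_cancel ha] at h4
    exact h4

end Pool.Agent.PP.T5.H13
end
end -- Pool.Agent.Helper13_AT5.OMF

section -- Pool.Agent.Helper17_AT5.VJ5

/-!
# Squad AT5, row VJ5: the values of the fixed characters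
-/

open scoped BigOperators

noncomputable section

namespace Pool.Agent.PP.T5.H17

open Pool.Agent.Helper51_AWC Pool.Agent.Helper79_WRA Pool.Agent.PP Pool.Agent.PP.KF
open Pool.Agent.PP.K9 Pool.Agent.PP.K9.H97 Pool.Agent.PP.H75 Pool.Agent.PP.T3
open Pool.Agent.PP.T2 Pool.Agent.PP.T5

theorem vj5 (ker : KerStmt) : Vj5Stmt := by
  intro ℓ _ M _ hM G _ _ N hN u hu b hb χ hχ hfix s hs hsr j j' hj hjj
  obtain ⟨k, hk⟩ := hN.gen j j' hj hjj
  have hcw : ∀ i : ℕ, ∀ c ∈ Cu u, u ^ i * c = c * u ^ i := by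
    intro i c hc
    have hcomm : Commute u c := (Subgroup.mem_centralizer_singleton_iff.1 hc).symm
    exact (hcomm.pow_left i).eq
  rw [ker ℓ M hM G u (u ^ j) (hcw j) b hb s hs hsr χ hχ,
    ker ℓ M hM G u (u ^ j') (hcw j') b hb s hs hsr χ hχ]
  congr 1
  refine finsum_congr fun c => finsum_congr fun hc => ?_
  congr 1
  have key : ∀ i : ℕ, χ ((u ^ j) ^ N ^ i * c) = χ (u ^ j * c) := by
    intro i
    induction i with
    | zero => rw [pow_zero, pow_one]
    | succ i ih =>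
      have hcomm : Commute u c := (Subgroup.mem_centralizer_singleton_iff.1 hc.1).symm
      have h1 : Commute ((u ^ j) ^ N ^ i) c := (hcomm.pow_left j).pow_left _
      rw [← ih, ← hfix ((u ^ j) ^ N ^ i * c), h1.mul_pow, hN.reg c hc.2, ← pow_mul (u ^ j),
        ← pow_succ]
  rw [← hk u hu, key]

end Pool.Agent.PP.T5.H17
end
end -- Pool.Agent.Helper17_AT5.VJ5

section -- Pool.Agent.Helper18_AT5.LNB

/-!
# Squad AT5, row LNB: the number of modular characters of the local block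
-/

open scoped BigOperators

noncomputable section

namespace Pool.Agent.PP.T5.H18

open Pool.Agent.Helper51_AWC Pool.Agent.Helper79_WRA Pool.Agent.PP Pool.Agent.PP.KF
open Pool.Agent.PP.K9 Pool.Agent.PP.K9.H97 Pool.Agent.PP.H75 Pool.Agent.PP.T3 Pool.Agent.PP.T2

attribute [local instance] Ideal.Quotient.field

/-- LNB: the number of modular characters of the local block. -/
theorem lnb (psg : T3.PsgStmt) (kbf : KbfStmt) (lbx : LbxStmt) (pug : K9.PugStmt)
    (lbd : K9.LbdStmt) : LnbStmt := by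
  intro ℓ hℓ M hMx hM G _ _ e V u b hb a n ha hV
  have hF : GoodF ℓ (FF M) := H50.fld ℓ hℓ.out M hM
  obtain ⟨htp, hcard⟩ := (lbx ℓ M hM G e V u hb.blk hb.tp hb.mem hb.cen).2 b hb
  have huC : u ∈ Cu u := by
    rw [Subgroup.mem_centralizer_iff]
    intro x hx
    rw [Set.mem_singleton_iff.1 hx]
  have hz : ∀ x : Cu u, (⟨u, huC⟩ : Cu u) * x = x * ⟨u, huC⟩ := by
    intro x
    apply Subtype.ext
    have h1 := Subgroup.mem_centralizer_iff.1 x.2 u (Set.mem_singleton u)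
    exact h1
  let N : Subgroup (Cu u) := Subgroup.zpowers (⟨u, huC⟩ : Cu u)
  have hNc : N ≤ Subgroup.center (Cu u) := by
    rw [Subgroup.zpowers_le, Subgroup.mem_center_iff]
    intro g
    exact (hz g).symm
  have hNn : N.Normal := by
    refine ⟨fun x hx g => ?_⟩
    have h1 := Subgroup.mem_center_iff.1 (hNc hx) g
    rw [h1, mul_inv_cancel_right]
    exact hx
  have hNcard : Nat.card N = ℓ ^ a := by
    rw [Nat.card_zpowers, ← ha]
    exact Subgroup.orderOf_mk u huC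
  let p : Cu u →* Cu u ⧸ N := QuotientGroup.mk' N
  have hp : Function.Surjective p := QuotientGroup.mk'_surjective N
  have hker : p.ker = N := QuotientGroup.ker_mk' N
  have hk : IsPGroup ℓ p.ker := by
    rw [hker]
    exact IsPGroup.of_card hNcard
  have hblk : IsBlk (push p (fun t : Cu u => b t)) :=
    psg ℓ (FF M) hF (Cu u) (Cu u ⧸ N) p hp (hker.le.trans hNc) hk _ hb.bx.blk
  have hkV : p.ker ≤ V.subgroupOf (Cu u) := by
    rw [hker, Subgroup.zpowers_le, Subgroup.mem_subgroupOf]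
    exact hb.mem
  have hcm : ((V.subgroupOf (Cu u)).map p).comap p = V.subgroupOf (Cu u) :=
    Subgroup.comap_map_eq_self hkV
  have hVc : Nat.card (V.subgroupOf (Cu u)) =
      Nat.card p.ker * Nat.card ((V.subgroupOf (Cu u)).map p) := by
    have h1 := card_comap hp ((V.subgroupOf (Cu u)).map p)
    rw [hcm] at h1
    exact h1
  have hkpos : 0 < Nat.card p.ker := Nat.card_pos
  have htp' : Tp ℓ (push p (fun t : Cu u => b t)) ((V.subgroupOf (Cu u)).map p) := by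
    refine ⟨htp.pg.map p, ?_, ?_⟩
    · exact (pug ℓ (FF M) hF (Cu u) (Cu u ⧸ N) p hp hk _ hb.bx.blk.1 _ hkV htp.pg).1 htp.gd
    · intro Q hQ hg
      have h1 : IsPGroup ℓ (Q.comap p) := (isPGroup_comap_iff hp hk Q).2 hQ
      have h2 : (Q.comap p).map p = Q := Subgroup.map_comap_eq_self_of_surjective hp Q
      have h3 : Gd (fun t : Cu u => b t) (Q.comap p) := by
        refine (pug ℓ (FF M) hF (Cu u) (Cu u ⧸ N) p hp hk _ hb.bx.blk.1 _
          (Subgroup.ker_le_comap p Q) h1).2 ?_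
        rw [h2]
        exact hg
      have h4 := htp.mx _ h1 h3
      rw [card_comap hp, hVc] at h4
      exact Nat.le_of_mul_le_mul_left h4 hkpos
  have e1 : ln (fun t : Cu u => b t) = ln (push p (fun t : Cu u => b t)) :=
    cnt_push H20.nls hF hp hk _
  have e2 : ln (push p (fun t : Cu u => b t)) ≤ (IrrE M (push p (fun t : Cu u => b t))).ncard :=
    (lbd ℓ M hM (Cu u ⧸ N) _ hblk.1 hblk.2.1).2
  have e3 := kbf ℓ M hM (Cu u ⧸ N) _ hblk _ htp'
  have e4 : Nat.card ((V.subgroupOf (Cu u)).map p) ≤ ℓ ^ n := by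
    rw [hcard, hker, hNcard] at hVc
    rw [hVc, pow_add] at hV
    exact Nat.le_of_mul_le_mul_left hV (pow_pos hℓ.out.pos _)
  calc ln (fun t : Cu u => b t) ≤ Nat.card ((V.subgroupOf (Cu u)).map p) ^ 2 := by
        rw [e1]
        exact e2.trans e3
    _ ≤ (ℓ ^ n) ^ 2 := Nat.pow_le_pow_left e4 2
    _ = ℓ ^ (2 * n) := by rw [← pow_mul, mul_comm]

end Pool.Agent.PP.T5.H18
end
end -- Pool.Agent.Helper18_AT5.LNB

section -- Pool.Agent.Helper11_AT5.Asm5

/-!
# Squad AT5: the statements, closed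

Theorem T5 and its rows, with all their hypotheses discharged.
-/

noncomputable section

namespace Pool.Agent.PP.T5

open Pool.Agent.PP

theorem ors_ : OrsStmt := H86.ors
theorem inc_ : IncStmt := H39.inc ors_
theorem ix5_ : Ix5Stmt := H83.ix5 ors_
theorem pr5_ : Pr5Stmt := H60.pr5
theorem ker_ : KerStmt := H45.ker
theorem co5_ : Co5Stmt := H89.co5 ker_
theorem co3_ : Co3Stmt := H48.co3 ker_
theorem lbx_ : LbxStmt := H77.lbx
theorem vj5_ : Vj5Stmt := H17.vj5 ker_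
theorem oj5_ : Oj5Stmt := H6.oj5 co5_ inc_
theorem bs5_ : Bs5Stmt := H6.bs5 oj5_ co3_ vj5_ T3.bes_ T3.lrk_
theorem zim_ : ZimStmt := H32.zim
theorem deg_ : DegStmt := H39.deg K9.H69.fmg
theorem sei_ : SeiStmt := H81.sei K9.ada_ K9.H27.prt
theorem inq_ : InqStmt := H24.inq sei_ zim_ deg_
theorem nz5_ : Nz5Stmt := H56.nz5 ix5_ K9.H69.fmg K9.H19.omg
theorem nzm_ : NzmStmt := H23.nzm sei_ K9.wbo_
theorem kbf_ : KbfStmt := H15.kbf nzm_ inq_
theorem lnb_ : LnbStmt := H18.lnb T3.psg_ kbf_ lbx_ K9.H02.pug K9.H3.lbd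
theorem gl5_ : Gl5Stmt := H92.gl5 inq_ nz5_ lbx_
theorem twt_ : TwtStmt := H48.twt T3.lrk_
theorem twy_ : TwyStmt := H48.twy T3.smg_ co3_
theorem ncl_ : NclStmt := H82.ncl (PP.H74.brt PP.H20.ibf PP.H20.ibc PP.H20.ibj PP.H20.ibn)
  K9.H3.rnk_ PP.H20.eig
theorem cys_ : CysStmt := H32.cys twt_ ncl_
theorem fx5_ : Fx5Stmt := H46.fx5 T2.fxy_ T3.lrk_ twy_ cys_
theorem lb5_ : Lb5Stmt := H72.lb5 pr5_ lbx_ gl5_ bs5_ lnb_ fx5_
theorem omf_ : OmfStmt := H13.omf
theorem chr_ : ChrStmt := H41.chr omf_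
theorem cyq_ : CyqStmt := H41.cyq
theorem kin_ : KinStmt := H76.kin
theorem zpt_ : ZptStmt := H18Z.zpt T3.psg_ K9.H02.pug K9.dzo_
theorem ksp_ : KspStmt := H35.ksp omf_
theorem fs5_ : Fs5Stmt := H56.fs5 chr_ zpt_ ksp_ K9.H69.fmg K9.dun_
theorem uo5_ : Uo5Stmt := H92.uo5 chr_ zpt_ ksp_
theorem qtp_ : QtpStmt := H62.qtp K9.H02.pug K9.H69.fmg
theorem ty5_ : Ty5Stmt := H31.ty5 omf_ ksp_ zpt_ qtp_ cyq_
theorem ta5_ : Ta5Stmt := H16.ta5
theorem tb5_ : Tb5Stmt := H70.tb5 T2.frs_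
theorem tx5_ : Tx5Stmt := H92.tx5 omf_ ksp_ zpt_ qtp_ cyq_
theorem ts5_ : Ts5Stmt := H23.ts5 tb5_
theorem dv5_ : Dv5Stmt := H23.dv5
theorem t5a_ : T5aStmt := H43.t5a kin_ fs5_ uo5_ ta5_ ty5_ tx5_ ts5_ lb5_ dv5_ omf_
theorem dz5_ : Dz5Stmt := H23.dz5 T3.psg_
theorem fn5_ : Fn5Stmt := H43.fn5 t5a_ dz5_

end Pool.Agent.PP.T5
end
end -- Pool.Agent.Helper11_AT5.Asm5

section -- Pool.Agent.Helper43_AT5.Fin5

/-!
# Squad AT5: the theorem without auxiliary definitions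
-/

open scoped BigOperators

noncomputable section

namespace Pool.Agent.PP.T5.H43

open Pool.Agent.Helper51_AWC Pool.Agent.Helper79_WRA Pool.Agent.PP Pool.Agent.PP.KF
open Pool.Agent.PP.K9 Pool.Agent.PP.K9.H97 Pool.Agent.PP.H75 Pool.Agent.PP.T3 Pool.Agent.PP.T2

attribute [local instance] Ideal.Quotient.field

theorem card_rel {G : Type} [Group G] {B D : Subgroup G} (h : B ≤ D) :
    B.relIndex D * Nat.card B = Nat.card D := by
  rw [← Nat.card_congr (Subgroup.subgroupOfEquivOfLe h).toEquiv, mul_comm]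
  exact Subgroup.card_mul_index (B.subgroupOf D)

/-- a large cyclic subgroup, central modulo `O_ℓ(G)`, and an abelian subgroup -/
theorem fin5 : ∀ (ℓ : ℕ) [Fact ℓ.Prime] (M : Ideal (integralClosure ℤ ℂ)) [M.IsMaximal],
    (ℓ : integralClosure ℤ ℂ) ∈ M → ∀ (G : Type) [Group G] [Finite G],
    opCore ℓ G ≤ Subgroup.center G → ∀ χ ∈ Irr G, ∀ D : Subgroup G, ML.IsDef ℓ M χ D →
    ∀ z ∈ D, (∀ d ∈ D, z * d * z⁻¹ * d⁻¹ ∈ opCore ℓ G) →
    ∀ B ≤ D, (∀ x ∈ B, ∀ y ∈ B, x * y * x⁻¹ * y⁻¹ ∈ opCore ℓ G) →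
    ∀ q m : ℕ, (∀ n : ℕ, z ^ n ∈ opCore ℓ G ↔ q ∣ n) → Nat.card D = m * q * Nat.card (opCore ℓ G) →
    (if ℓ = 2 then 4 else ℓ) * m ^ 3 * B.relIndex D ≤ q → altSum ℓ M χ = 0 := by
  intro ℓ _ M _ hM G _ _ hc χ hχ D hD z hz hzc B hB hBc q m hq hcard hle
  refine fn5_ ℓ M hM G hc χ hχ D hD z hz hzc B hB hBc q m hq hcard ?_
  have h1 : ℓ ^ ep ℓ = if ℓ = 2 then 4 else ℓ := by
    unfold ep
    split_ifs with h
    · rw [h]
      norm_num
    · rw [pow_one]
  rw [h1]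
  exact hle

/-- the case of `B = ⟨z⟩ O_ℓ(G)` -/
theorem fin5' : ∀ (ℓ : ℕ) [Fact ℓ.Prime] (M : Ideal (integralClosure ℤ ℂ)) [M.IsMaximal],
    (ℓ : integralClosure ℤ ℂ) ∈ M → ∀ (G : Type) [Group G] [Finite G],
    opCore ℓ G ≤ Subgroup.center G → ∀ χ ∈ Irr G, ∀ D : Subgroup G, ML.IsDef ℓ M χ D →
    ∀ z ∈ D, (∀ d ∈ D, z * d * z⁻¹ * d⁻¹ ∈ opCore ℓ G) →
    ∀ q m : ℕ, (∀ n : ℕ, z ^ n ∈ opCore ℓ G ↔ q ∣ n) → Nat.card D = m * q * Nat.card (opCore ℓ G) →
    (if ℓ = 2 then 4 else ℓ) * m ^ 4 ≤ q → altSum ℓ M χ = 0 := by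
  intro ℓ _ M _ hM G _ _ hc χ hχ D hD z hz hzc q m hq hcard hle
  obtain ⟨e, he, h1, h2⟩ := H50.bid ℓ Fact.out M hM G χ hχ
  have hn : (opCore ℓ G).Normal := H75.opCore_normal (A := G) ℓ
  obtain ⟨-, hOD, -, -⟩ := dz5_ ℓ M hM G hc χ hχ D hD e he h1
    (G ⧸ opCore ℓ G) (QuotientGroup.mk' (opCore ℓ G)) (QuotientGroup.mk'_surjective (opCore ℓ G))
    (QuotientGroup.ker_mk' _)
  obtain ⟨B, hB⟩ : ∃ B : Subgroup G, B = Subgroup.zpowers z ⊔ opCore ℓ G := ⟨_, rfl⟩
  have hBD : B ≤ D := by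
    rw [hB]
    exact sup_le (by rwa [Subgroup.zpowers_le]) hOD
  have hzC : z ∈ Subgroup.centralizer ({z} : Set G) := Subgroup.mem_centralizer_singleton_iff.2 rfl
  have hgen : ∀ x : G, z * x = x * z → B ≤ Subgroup.centralizer ({x} : Set G) := by
    intro x hx
    rw [hB, sup_le_iff, Subgroup.zpowers_le]
    refine ⟨Subgroup.mem_centralizer_singleton_iff.2 hx, fun o ho => ?_⟩
    exact Subgroup.mem_centralizer_singleton_iff.2 (Subgroup.mem_center_iff.1 (hc ho) x).symm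
  have hab : ∀ x ∈ B, ∀ y ∈ B, x * y = y * x := by
    intro x hx y hy
    have h3 := Subgroup.mem_centralizer_singleton_iff.1 (hgen z rfl hx)
    exact (Subgroup.mem_centralizer_singleton_iff.1 (hgen x h3.symm hy)).symm
  have hBi : B.relIndex D = m := by
    have hq0 : q ≠ 0 := by
      intro h0
      rw [h0] at hcard
      simp only [mul_zero, zero_mul] at hcard
      exact (Nat.card_pos (α := D)).ne' hcard
    have h3 : B.relIndex D * Nat.card B = Nat.card D := card_rel hBD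
    have h5 : (opCore ℓ G).relIndex B = q := by
      have h6 : B = Subgroup.zpowers z ⊔ opCore ℓ G := hB
      rw [h6, Subgroup.relIndex_sup_right]
      have h7 : (opCore ℓ G).relIndex (Subgroup.zpowers z) =
          orderOf ((QuotientGroup.mk' (opCore ℓ G)) z) := by
        rw [← Nat.card_zpowers, ← MonoidHom.map_zpowers]
        have h8 : (opCore ℓ G).relIndex (Subgroup.zpowers z) =
            (QuotientGroup.mk' (opCore ℓ G)).ker.relIndex (Subgroup.zpowers z) := by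
          rw [QuotientGroup.ker_mk']
        rw [h8, Subgroup.relIndex_ker]
      rw [h7]
      apply Nat.dvd_antisymm
      · rw [orderOf_dvd_iff_pow_eq_one, ← map_pow]
        exact (QuotientGroup.eq_one_iff _).2 ((hq q).2 dvd_rfl)
      · rw [← hq]
        refine (QuotientGroup.eq_one_iff _).1 ?_
        exact (map_pow (QuotientGroup.mk' (opCore ℓ G)) z _).trans (pow_orderOf_eq_one _)
    have h6 : Nat.card B = q * Nat.card (opCore ℓ G) := by
      rw [← h5]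
      exact (card_rel (hB ▸ le_sup_right)).symm
    rw [h6, hcard] at h3
    have h9 : 0 < q * Nat.card (opCore ℓ G) :=
      Nat.mul_pos (Nat.pos_of_ne_zero hq0) Nat.card_pos
    have h10 : B.relIndex D * (q * Nat.card (opCore ℓ G)) = m * (q * Nat.card (opCore ℓ G)) := by
      rw [h3, mul_assoc]
    exact Nat.eq_of_mul_eq_mul_right h9 h10
  refine fin5 ℓ M hM G hc χ hχ D hD z hz hzc B hBD ?_ q m hq hcard ?_
  · intro x hx y hy
    have h3 : x * y * x⁻¹ * y⁻¹ = 1 := by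
      rw [hab x hx y hy, mul_inv_cancel_right, mul_inv_cancel]
    rw [h3]
    exact one_mem _
  · rw [hBi]
    calc (if ℓ = 2 then 4 else ℓ) * m ^ 3 * m = (if ℓ = 2 then 4 else ℓ) * m ^ 4 := by ring
      _ ≤ q := hle

end Pool.Agent.PP.T5.H43
end
end -- Pool.Agent.Helper43_AT5.Fin5
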