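import Pool.Agent.Helper12_AWB.B177
import Pool.Agent.Helper12_AWB.B201
import Pool.Agent.Helper12_AWB.B206
import Pool.Agent.Helper12_AWB.B235
import Pool.Agent.Helper12_AWB.B282

/-!
# Merged copies (generated) of the modules

* `Pool.Agent.Helper11_ZAS.ONE`
* `Pool.Agent.Helper13_ATZ.LNZ`
* `Pool.Agent.Helper17_ATZ.IVZ`
* `Pool.Agent.Helper11_ZAS.AsmZ`
-/

set_option autoImplicit false

section -- Pool.Agent.Helper11_ZAS.ONE

/-!
# Squad ATZ, row ONE: the section of `1`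
-/

open scoped BigOperators

noncomputable section

namespace Pool.Agent.PP.TB.H11

open Pool.Agent.Helper51_AWC Pool.Agent.Helper79_WRA Pool.Agent.PP Pool.Agent.PP.KF
open Pool.Agent.PP.K9 Pool.Agent.PP.K9.H97 Pool.Agent.PP.H75 Pool.Agent.PP.T3 Pool.Agent.PP.T2
open Pool.Agent.PP.T5

attribute [local instance] Ideal.Quotient.field

/-- ONE: the section of `1`. -/
theorem one : OneStmt := by
  intro ℓ hℓ M _ hM G _ _ e V Z γ b hZ χ hχ ψ hψ
  classical
  have := Fintype.ofFinite G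
  have htop : Cu (1 : G) = ⊤ := by
    rw [eq_top_iff]
    intro x _
    rw [Subgroup.mem_centralizer_singleton_iff]
    simp
  obtain ⟨φ, hφ⟩ : ∃ φ : Cu (1 : G) ≃* G, ∀ t : Cu (1 : G), φ t = (t : G) :=
    ⟨(MulEquiv.subgroupCongr htop).trans Subgroup.topEquiv, fun t => rfl⟩
  have hlb := (hZ.lb 1 Z.one_mem).1
  have hsupp : ∀ x, x ∉ Cu (1 : G) → e x = 0 := by
    intro x hx
    exact absurd (htop ▸ Subgroup.mem_top x) hx
  have hblk : IsBlk (fun t : Cu (1 : G) => e t) := by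
    have h1 := H9.blk_tr φ hZ.blk
    have h2 : (fun x : Cu (1 : G) => e (φ x)) = fun t : Cu (1 : G) => e t := by
      funext x
      rw [hφ]
    rw [h2] at h1
    exact h1
  have he : Bx (Cu (1 : G)) e := ⟨hsupp, hblk⟩
  have hbe : b 1 = e := by
    rcases hlb.bx.dich he with h | h
    · exact h
    · exfalso
      have h1 := hlb.und
      rw [← mulF_res (Cu (1 : G)) (b 1) hsupp] at h1
      have h2 : mulF e (b 1) = 0 := by
        rw [← hlb.bx.ix.comm he.ix]
        exact h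
      rw [h2] at h1
      exact hlb.bx.blk.2.1 h1.symm
  have hgv : ∀ κ ∈ IrrE M e, ∀ s : G, gv M (Cu (1 : G)) (1 * s) (b 1) κ = κ s := by
    intro κ hκ s
    rw [hbe, one_mul, T6.H16.gv_one e hZ.blk.1.1]
    exact (T6.H16.fv_eh e hκ.1 s).1 hκ
  unfold mm rip
  have hcard : Nat.card (Cu (1 : G)) = Nat.card G := Nat.card_congr φ.toEquiv
  rw [hcard]
  congr 1
  refine finsum_congr fun s => ?_
  rw [hgv χ hχ, hgv ψ hψ]
  have h3 : (s ∈ Cu (1 : G) ∧ Reg ℓ s) = Reg ℓ s := by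
    rw [htop]
    simp
  rw [h3]

end Pool.Agent.PP.TB.H11
end
end -- Pool.Agent.Helper11_ZAS.ONE

section -- Pool.Agent.Helper13_ATZ.LNZ

/-! Squad ATZ, row LNZ: the bound for the number of modular characters. -/

open scoped BigOperators

noncomputable section

namespace Pool.Agent.PP.TB.H13

open Pool.Agent.Helper51_AWC Pool.Agent.Helper79_WRA Pool.Agent.PP Pool.Agent.PP.KF
open Pool.Agent.PP.K9 Pool.Agent.PP.K9.H97 Pool.Agent.PP.H75 Pool.Agent.PP.T3 Pool.Agent.PP.T2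
open Pool.Agent.PP.T5 Pool.Agent.PP.TB

attribute [local instance] Ideal.Quotient.field

theorem lnz (hB : BfzStmt) (hP : T5.Pr5Stmt) (hF : T5.Fx5Stmt) : LnzStmt := by
  intro ℓ _ M _ hM G _ _ e V Z γ b hZ hS k hk
  obtain ⟨N, hN⟩ := hP ℓ G
  exact le_trans (Nat.mul_le_mul_right _ (hF ℓ M hM G N hN e hZ.blk.1))
    (hB ℓ M hM G e V Z γ b hZ hS N hN k hk)

end Pool.Agent.PP.TB.H13
end
end -- Pool.Agent.Helper13_ATZ.LNZ

section -- Pool.Agent.Helper17_ATZ.IVZ

/-!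
# Squad ATZ, row IVZ: invariance of `Az` under the power map
-/

open scoped BigOperators

set_option autoImplicit false

noncomputable section

namespace Pool.Agent.PP.TB.H17

open Pool.Agent.Helper51_AWC Pool.Agent.Helper79_WRA Pool.Agent.PP Pool.Agent.PP.KF
open Pool.Agent.PP.K9 Pool.Agent.PP.K9.H97 Pool.Agent.PP.H75 Pool.Agent.PP.T3 Pool.Agent.PP.T2
open Pool.Agent.PP.T5 Pool.Agent.PP.TB

attribute [local instance] Ideal.Quotient.field

theorem ivz (h1 : ZcpStmt) (h2 : T5.KerStmt) : IvzStmt := by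
  intro ℓ _ M _ hM G _ _ e V Z γ b hZ N hN z hz χ hχ hχN ψ hψ hψN
  rcases eq_or_ne z 1 with rfl | hz1
  · rw [one_pow]
  have hp : ℓ.Prime := Fact.out
  have hN' : ¬ ℓ ∣ N := by
    have hzV : z ∈ V := hZ.le hz
    obtain ⟨n, hn⟩ := hZ.tp.pg ⟨z, hzV⟩
    have hn' : z ^ ℓ ^ n = 1 := congrArg Subtype.val hn
    obtain ⟨k, -, hk⟩ := (Nat.dvd_prime_pow hp).1 (orderOf_dvd_of_pow_eq_one hn')
    have hk0 : k ≠ 0 := by
      rintro rfl
      rw [pow_zero, orderOf_eq_one_iff] at hk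
      exact hz1 hk
    have hd : ℓ ∣ Nat.card G := (dvd_pow_self ℓ hk0).trans (hk ▸ orderOf_dvd_natCard z)
    intro h
    have h3 := Nat.dvd_gcd h hd
    rw [hN.cop.gcd_eq_one] at h3
    exact hp.one_lt.ne' (Nat.dvd_one.1 h3)
  obtain ⟨c1, c2, c3⟩ := (h1 ℓ M hM G e V Z γ b hZ).2.1 z hz N hN'
  have hix : Ix (Cu z) (b z) := (hZ.lb z hz).1.bx.ix
  have key : ∀ s ∈ Cu z, Reg ℓ s → ∀ κ ∈ Irr G, (∀ g, κ (g ^ N) = κ g) →
      gv M (Cu z) (z ^ N * s) (b z) κ = gv M (Cu z) (z * s) (b z) κ := by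
    intro s hs hsr κ hκ hκN
    rw [h2 ℓ M hM G z (z ^ N) (fun c hc => by
        have h4 : Commute c z := Subgroup.mem_centralizer_singleton_iff.1 hc
        exact (h4.pow_right N).symm.eq) (b z) hix s hs hsr κ hκ,
      h2 ℓ M hM G z z (fun c hc => (Subgroup.mem_centralizer_singleton_iff.1 hc).symm) (b z) hix
        s hs hsr κ hκ]
    congr 1
    apply finsum_congr
    intro c
    apply finsum_congr_Prop rfl
    rintro ⟨hc, hcr⟩
    congr 1
    have h4 : Commute z c := (Subgroup.mem_centralizer_singleton_iff.1 hc).symm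
    rw [← hκN (z * c), h4.mul_pow, hN.reg c hcr]
  unfold Az
  rw [c1, c2, c3]
  congr 1
  unfold mm
  congr 1
  apply finsum_congr
  intro s
  apply finsum_congr_Prop rfl
  rintro ⟨hs, hsr⟩
  rw [key s hs hsr χ hχ hχN, key s hs hsr ψ hψ hψN]

end Pool.Agent.PP.TB.H17
end
end -- Pool.Agent.Helper17_ATZ.IVZ

section -- Pool.Agent.Helper11_ZAS.AsmZ

/-!
# Squad ATZ: the statements, closed

`bnd_ : BndStmt`: the bound for the number of modular characters of a block whose defect group has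
a large centre, under the theorem of Broué and Puig for a central subgroup (STAR block).
-/

noncomputable section

namespace Pool.Agent.PP.TB

open Pool.Agent.PP

theorem zcp_ : ZcpStmt := H17.zcp T5.ix5_
theorem xch_ : XchStmt := H3.xch
theorem one_ : OneStmt := H11.one
theorem nzf_ : NzfStmt := H90.nzf T5.sei_ K9.wbo_ K9.ada_ KF.H25.idm
theorem zin_ : ZinStmt := H76.zin zcp_ T5.inq_ T5.lbx_
theorem poz_ : PozStmt := H92.poz T5.nz5_
theorem mmo_ : MmoStmt := H45.mmo zcp_ T5.co3_ T5.co5_ T5.ker_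
theorem pjz_ : PjzStmt := H89.pjz zcp_ mmo_ poz_
theorem ivz_ : IvzStmt := H17.ivz zcp_ T5.ker_
theorem avz_ : AvzStmt := H31.avz
theorem nrz_ : NrzStmt := H25.nrz
theorem htz_ : HtzStmt := H62.htz zcp_ xch_ zin_ poz_ pjz_ nrz_
theorem giz_ : GizStmt := H31.giz zcp_ zin_
theorem bfz_ : BfzStmt := H65.bfz zcp_ one_ nzf_ pjz_ ivz_ avz_ htz_ giz_
theorem lnz_ : LnzStmt := H13.lnz bfz_ T5.pr5_ T5.fx5_
theorem zab_ : ZabStmt := H82.zab
theorem uwa_ : UwaStmt := H77.uwa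
theorem clz_ : ClzStmt := H65.clz uwa_
theorem izb_ : IzbStmt := H64.izb zcp_ T2.pwu_
theorem bnd_ : BndStmt := H52.bnd clz_ izb_ lnz_ uwa_

end Pool.Agent.PP.TB
end
end -- Pool.Agent.Helper11_ZAS.AsmZ
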