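import Pool.Agent.Helper12_AWB.B182
import Pool.Agent.Helper12_AWB.B266
import Pool.Agent.Helper12_AWB.B275

/-!
# Merged copies (generated) of the modules

* `Pool.Agent.Helper24_AT6.LNC`
* `Pool.Agent.ATW.Rank2`
* `Pool.Agent.ATW.Rank2b`
* `Pool.Agent.Helper47_WAT.RB2`
-/

set_option autoImplicit false

section -- Pool.Agent.Helper24_AT6.LNC

/-!
# Squad AT6, row LNC: the local block of `v` and its image in `C(v)/⟨v⟩`
-/

open scoped BigOperators

set_option autoImplicit false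

noncomputable section

namespace Pool.Agent.PP.T6.H24

open Pool.Agent.Helper51_AWC Pool.Agent.Helper79_WRA Pool.Agent.PP Pool.Agent.PP.KF
open Pool.Agent.PP.K9 Pool.Agent.PP.K9.H97 Pool.Agent.PP.H75 Pool.Agent.PP.T3 Pool.Agent.PP.T2

attribute [local instance] Ideal.Quotient.field

/-- a block of the centraliser of a good subgroup -/
theorem exists_gam {ℓ : ℕ} {F : Type} [Field F] (hF : GoodF ℓ F) {A : Type} [Group A] [Finite A]
    {f : A → F} {W : Subgroup A} (hf : IsBlk f) (hT : Tp ℓ f W)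
    (hab : ∀ a ∈ W, ∀ b ∈ W, a * b = b * a) : ∃ γ : A → F, Ld ℓ f W γ := by
  have hbr : br W f ≠ 0 := K9.H69.gd_br hT.gd
  obtain ⟨γ, hγ1, hγ2, hγ3⟩ := H46.exists_blk hbr (Subgroup.centralizer (W : Set A))
  have hBx : Bx (Subgroup.centralizer (W : Set A)) γ := ⟨hγ1, hγ2⟩
  have hIx : Ix (Subgroup.centralizer (W : Set A)) (br W f) :=
    ⟨fun x hx => H66.br_of_not_mem hx,
      (H20.brm ℓ F hF A W _ hT.pg le_rfl (K9.H69.cent_le_norm _)).2.2 _ hf.1⟩
  refine ⟨γ, hf, hT, hab, hBx, ?_⟩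
  rw [hIx.comm hBx.ix]
  rcases hBx.dich' hIx with h2 | h2
  · exact h2
  · exfalso
    apply hγ3
    rw [hIx.comm hBx.ix, h2]

theorem lnc (psg : T3.PsgStmt) (pug : K9.PugStmt) (lsb : T3.LsbStmt) : LncStmt := by
  intro ℓ hℓ M hMx hM G _ _ e V γ hL u hu b hb
  have hF : GoodF ℓ (FF M) := H50.fld ℓ hℓ.out M hM
  obtain ⟨hLb, -, -, -, -⟩ := lsb ℓ M hM G e V γ hL u hu b hb
  have htp := hLb.tp
  have huC : u ∈ Cu u := by
    rw [Subgroup.mem_centralizer_iff]
    intro x hx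
    rw [Set.mem_singleton_iff.1 hx]
  have hz : ∀ x : Cu u, (⟨u, huC⟩ : Cu u) * x = x * ⟨u, huC⟩ := by
    intro x
    apply Subtype.ext
    have h1 := Subgroup.mem_centralizer_iff.1 x.2 u (Set.mem_singleton u)
    exact h1
  let N : Subgroup (Cu u) := Subgroup.zpowers (⟨u, huC⟩ : Cu u)
  have hNc : N ≤ Subgroup.center (Cu u) := by
    rw [Subgroup.zpowers_le, Subgroup.mem_center_iff]
    intro g
    exact (hz g).symm
  have hNn : N.Normal := by
    refine ⟨fun x hx g => ?_⟩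
    have h1 := Subgroup.mem_center_iff.1 (hNc hx) g
    rw [h1, mul_inv_cancel_right]
    exact hx
  let p : Cu u →* Cu u ⧸ N := QuotientGroup.mk' N
  have hp : Function.Surjective p := QuotientGroup.mk'_surjective N
  have hker : p.ker = N := QuotientGroup.ker_mk' N
  have hkV : p.ker ≤ V.subgroupOf (Cu u) := by
    rw [hker, Subgroup.zpowers_le, Subgroup.mem_subgroupOf]
    exact hu
  have hk : IsPGroup ℓ p.ker := htp.pg.to_le hkV
  have hblk : IsBlk (push p (fun t : Cu u => b t)) :=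
    psg ℓ (FF M) hF (Cu u) (Cu u ⧸ N) p hp (hker.le.trans hNc) hk _ hb.blk.blk
  have hcm : ((V.subgroupOf (Cu u)).map p).comap p = V.subgroupOf (Cu u) :=
    Subgroup.comap_map_eq_self hkV
  have hVc : Nat.card (V.subgroupOf (Cu u)) =
      Nat.card p.ker * Nat.card ((V.subgroupOf (Cu u)).map p) := by
    have h1 := card_comap hp ((V.subgroupOf (Cu u)).map p)
    rw [hcm] at h1
    exact h1
  have hkpos : 0 < Nat.card p.ker := Nat.card_pos
  have htp' : Tp ℓ (push p (fun t : Cu u => b t)) ((V.subgroupOf (Cu u)).map p) := by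
    refine ⟨htp.pg.map p, ?_, ?_⟩
    · exact (pug ℓ (FF M) hF (Cu u) (Cu u ⧸ N) p hp hk _ hb.blk.blk.1 _ hkV htp.pg).1 htp.gd
    · intro Q hQ hg
      have h1 : IsPGroup ℓ (Q.comap p) := hQ.comap_of_ker_isPGroup p hk
      have h2 : (Q.comap p).map p = Q := Subgroup.map_comap_eq_self_of_surjective hp Q
      have h3 : Gd (fun t : Cu u => b t) (Q.comap p) := by
        refine (pug ℓ (FF M) hF (Cu u) (Cu u ⧸ N) p hp hk _ hb.blk.blk.1 _
          (Subgroup.ker_le_comap p Q) h1).2 ?_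
        rw [h2]
        exact hg
      have h4 := htp.mx _ h1 h3
      rw [card_comap hp, hVc] at h4
      exact Nat.le_of_mul_le_mul_left h4 hkpos
  have hab : ∀ x ∈ (V.subgroupOf (Cu u)).map p, ∀ y ∈ (V.subgroupOf (Cu u)).map p,
      x * y = y * x := by
    rintro _ ⟨x, hx, rfl⟩ _ ⟨y, hy, rfl⟩
    rw [← map_mul, ← map_mul, hLb.ab x hx y hy]
  refine ⟨Cu u ⧸ N, inferInstance, inferInstance, p, hp, ?_, exists_gam hF hblk htp' hab, ?_⟩
  · intro x
    rw [← MonoidHom.mem_ker, hker, Subgroup.mem_zpowers_iff, Subgroup.mem_zpowers_iff]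
    constructor
    · rintro ⟨k, hk⟩
      refine ⟨k, ?_⟩
      rw [← hk]
      rfl
    · rintro ⟨k, hk⟩
      refine ⟨k, ?_⟩
      apply Subtype.ext
      rw [← hk]
      rfl
  · exact (H75.cnt_push H20.nls hF hp hk (fun t : Cu u => b t)).symm

end Pool.Agent.PP.T6.H24
end
end -- Pool.Agent.Helper24_AT6.LNC

section -- Pool.Agent.ATW.Rank2

/-!
# Squad ATW: the class of the abelian groups with two generators, and the reduction theorem

`R2 ℓ`: finite abelian `ℓ`-groups with at most `ℓ ^ 2` elements `x` with `x ^ ℓ = 1`.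
-/

open scoped BigOperators

noncomputable section

namespace Pool.Agent.PP.TW

open Pool.Agent.Helper51_AWC Pool.Agent.Helper79_WRA Pool.Agent.PP Pool.Agent.PP.KF
open Pool.Agent.PP.K9 Pool.Agent.PP.K9.H97 Pool.Agent.PP.H75 Pool.Agent.PP.T3 Pool.Agent.PP.T2

attribute [local instance] Ideal.Quotient.field

/-- finite abelian `ℓ`-groups with at most `ℓ ^ 2` elements `x` with `x ^ ℓ = 1` -/
def R2 (ℓ : ℕ) : (Q : Type) → [Group Q] → Prop := fun Q _ =>
  Finite Q ∧ IsPGroup ℓ Q ∧ (∀ a b : Q, a * b = b * a) ∧ {x : Q | x ^ ℓ = 1}.ncard ≤ ℓ ^ 2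

/-- the class is closed under subgroups -/
theorem r2_subCl (ℓ : ℕ) : DF.SubCl (R2 ℓ) := by
  intro Q R _ _ j hj hR
  obtain ⟨h1, h2, h3, h4⟩ := hR
  refine ⟨Finite.of_injective j hj, h2.of_injective j hj, fun a b => hj ?_, ?_⟩
  · rw [map_mul, map_mul, h3]
  · refine le_trans ?_ h4
    rw [← Set.ncard_image_of_injective _ hj]
    refine Set.ncard_le_ncard ?_ (Set.toFinite _)
    rintro _ ⟨x, hx, rfl⟩
    change j x ^ ℓ = 1
    rw [← map_pow, show x ^ ℓ = 1 from hx, map_one]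

/-- the number of the elements with `x ^ ℓ = 1` is the index of the group of the powers -/
theorem ncard_pow {Q : Type} [CommGroup Q] [Finite Q] (ℓ : ℕ) :
    {x : Q | x ^ ℓ = 1}.ncard = (powMonoidHom ℓ : Q →* Q).range.index := by
  have h1 : Nat.card (powMonoidHom ℓ : Q →* Q).ker * Nat.card (powMonoidHom ℓ : Q →* Q).range =
      Nat.card Q := by
    rw [mul_comm, ← Subgroup.card_mul_index (powMonoidHom ℓ : Q →* Q).ker, mul_comm]
    congr 1
    rw [Subgroup.index_ker]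
  have h2 : Nat.card (powMonoidHom ℓ : Q →* Q).range *
      (powMonoidHom ℓ : Q →* Q).range.index = Nat.card Q := Subgroup.card_mul_index _
  have h3 : 0 < Nat.card (powMonoidHom ℓ : Q →* Q).range := Nat.card_pos
  have h4 : {x : Q | x ^ ℓ = 1}.ncard = Nat.card (powMonoidHom ℓ : Q →* Q).ker := by
    rw [← Nat.card_coe_set_eq]
    exact Nat.card_congr (Equiv.setCongr (by
      ext x
      simp [MonoidHom.mem_ker]))
  rw [h4]
  have h5 : Nat.card (powMonoidHom ℓ : Q →* Q).range * Nat.card (powMonoidHom ℓ : Q →* Q).ker =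
      Nat.card (powMonoidHom ℓ : Q →* Q).range * (powMonoidHom ℓ : Q →* Q).range.index := by
    rw [h2, mul_comm, h1]
  exact Nat.eq_of_mul_eq_mul_left h3 h5

/-- two generators: at most `ℓ ^ 2` elements of order dividing `ℓ` -/
theorem ncard_le {Q : Type} [CommGroup Q] [Finite Q] {ℓ : ℕ} (hℓ : 0 < ℓ) {x y : Q}
    (h : ∀ q : Q, q ∈ Subgroup.closure ({x, y} : Set Q)) :
    {x : Q | x ^ ℓ = 1}.ncard ≤ ℓ ^ 2 := by
  rw [ncard_pow]
  set A := (powMonoidHom ℓ : Q →* Q).range with hA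
  have hmem : ∀ q : Q, q ^ ℓ ∈ A := fun q => ⟨q, rfl⟩
  change Nat.card (Q ⧸ A) ≤ ℓ ^ 2
  let F : Fin ℓ × Fin ℓ → Q ⧸ A := fun ij => ((x ^ (ij.1 : ℕ) * y ^ (ij.2 : ℕ) : Q) : Q ⧸ A)
  have hF : Function.Surjective F := by
    intro q
    obtain ⟨q, rfl⟩ := QuotientGroup.mk_surjective q
    obtain ⟨m, n, rfl⟩ := Subgroup.mem_closure_pair.1 (h q)
    have key : ∀ (z : Q) (m : ℤ), ∃ i : Fin ℓ, ((z ^ (i : ℕ) : Q) : Q ⧸ A) = ((z ^ m : Q) : Q ⧸ A) := by
      intro z m
      have h0 : 0 ≤ m % (ℓ : ℤ) := Int.emod_nonneg _ (by exact_mod_cast hℓ.ne')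
      have h1 : m % (ℓ : ℤ) < ℓ := Int.emod_lt_of_pos _ (by exact_mod_cast hℓ)
      refine ⟨⟨(m % (ℓ : ℤ)).toNat, by omega⟩, ?_⟩
      rw [QuotientGroup.eq]
      have h2 : (z ^ (m % (ℓ : ℤ)).toNat)⁻¹ * z ^ m = (z ^ (m / (ℓ : ℤ))) ^ ℓ := by
        rw [← zpow_natCast z, Int.toNat_of_nonneg h0, ← zpow_neg, ← zpow_add, ← zpow_natCast,
          ← zpow_mul]
        congr 1
        have := Int.emod_add_mul_ediv m ℓ
        have h4 : m / (ℓ : ℤ) * ℓ = ℓ * (m / (ℓ : ℤ)) := mul_comm _ _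
        omega
      change (z ^ (m % (ℓ : ℤ)).toNat)⁻¹ * z ^ m ∈ A
      rw [h2]
      exact hmem _
    obtain ⟨i, hi⟩ := key x m
    obtain ⟨j, hj⟩ := key y n
    refine ⟨(i, j), ?_⟩
    change ((x ^ (i : ℕ) * y ^ (j : ℕ) : Q) : Q ⧸ A) = ((x ^ m * y ^ n : Q) : Q ⧸ A)
    rw [QuotientGroup.mk_mul, QuotientGroup.mk_mul, hi, hj]
  have h1 := Nat.card_le_card_of_surjective F hF
  rw [Nat.card_prod, Nat.card_eq_fintype_card (α := Fin ℓ), Fintype.card_fin, ← sq] at h1
  exact h1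

/-- a subgroup which generates `Q` together with the `ℓ`-th powers is everything -/
theorem frat {Q : Type} [CommGroup Q] [Finite Q] {ℓ : ℕ} [hℓ : Fact ℓ.Prime] (hp : IsPGroup ℓ Q)
    (H : Subgroup Q) (h : H ⊔ (powMonoidHom ℓ : Q →* Q).range = ⊤) : H = ⊤ := by
  by_contra hne
  have hsur : Function.Surjective (fun q : Q ⧸ H => q ^ ℓ) := by
    intro q
    obtain ⟨q, rfl⟩ := QuotientGroup.mk_surjective q
    have hq : q ∈ H ⊔ (powMonoidHom ℓ : Q →* Q).range := h ▸ Subgroup.mem_top q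
    obtain ⟨a, ha, _, ⟨b, rfl⟩, rfl⟩ := Subgroup.mem_sup.1 hq
    refine ⟨(b : Q ⧸ H), ?_⟩
    change ((b : Q ⧸ H)) ^ ℓ = ((a * b ^ ℓ : Q) : Q ⧸ H)
    rw [QuotientGroup.mk_mul, QuotientGroup.mk_pow, (QuotientGroup.eq_one_iff a).2 ha, one_mul]
  have hinj := Finite.injective_iff_surjective.2 hsur
  have hpQ : IsPGroup ℓ (Q ⧸ H) := hp.to_quotient H
  obtain ⟨n, hn⟩ := IsPGroup.iff_card.1 hpQ
  have hn0 : n ≠ 0 := by
    rintro rfl
    apply hne
    rw [← Subgroup.index_eq_one]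
    exact hn.trans (pow_zero _)
  have hdvd : ℓ ∣ Nat.card (Q ⧸ H) := hn ▸ dvd_pow_self ℓ hn0
  obtain ⟨z, hz⟩ := exists_prime_orderOf_dvd_card' ℓ hdvd
  have h1 : z ^ ℓ = 1 := hz ▸ pow_orderOf_eq_one z
  have h2 : z = 1 := hinj (by
    change z ^ ℓ = 1 ^ ℓ
    rw [h1, one_pow])
  rw [h2, orderOf_one] at hz
  exact hℓ.out.one_lt.ne hz

/-- at most `ℓ ^ 2` elements of order dividing `ℓ`: two generators -/
theorem gen_of {Q : Type} [CommGroup Q] [Finite Q] {ℓ : ℕ} [hℓ : Fact ℓ.Prime]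
    (hp : IsPGroup ℓ Q) (h : {x : Q | x ^ ℓ = 1}.ncard ≤ ℓ ^ 2) :
    ∃ x y : Q, Subgroup.closure ({x, y} : Set Q) = ⊤ := by
  rw [ncard_pow] at h
  set A := (powMonoidHom ℓ : Q →* Q).range with hA
  -- a strict inclusion
  have hstep : ∀ B C : Subgroup Q, B < C → ℓ * C.index ≤ B.index := by
    intro B C hBC
    rw [← Subgroup.relIndex_mul_index hBC.le]
    refine Nat.mul_le_mul_right _ ?_
    have h1 : B.relIndex C ≠ 1 := fun h2 => hBC.not_ge (Subgroup.relIndex_eq_one.1 h2)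
    obtain ⟨n, hn⟩ := IsPGroup.iff_card.1 hp
    have h2 : B.relIndex C ∣ ℓ ^ n := by
      rw [← hn]
      exact (Subgroup.relIndex_dvd_card B C).trans (Subgroup.card_subgroup_dvd_card C)
    obtain ⟨k, -, hk⟩ := (Nat.dvd_prime_pow hℓ.out).1 h2
    rw [hk] at h1 ⊢
    have hk0 : k ≠ 0 := by
      rintro rfl
      exact h1 (pow_zero _)
    calc ℓ = ℓ ^ 1 := (pow_one ℓ).symm
      _ ≤ ℓ ^ k := Nat.pow_le_pow_right hℓ.out.pos (Nat.one_le_iff_ne_zero.2 hk0)
  have hx : ∃ x : Q, A ⊔ Subgroup.closure {x} = ⊤ ∨ A < A ⊔ Subgroup.closure {x} := by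
    by_cases hT : A = ⊤
    · exact ⟨1, Or.inl (by rw [hT, top_sup_eq])⟩
    · obtain ⟨x, -, hx⟩ := SetLike.exists_of_lt (lt_top_iff_ne_top.2 hT)
      refine ⟨x, Or.inr (lt_of_le_of_ne le_sup_left fun h1 => hx ?_)⟩
      rw [h1]
      exact Subgroup.mem_sup_right (Subgroup.subset_closure (Set.mem_singleton x))
  obtain ⟨x, hx⟩ := hx
  set B := A ⊔ Subgroup.closure {x} with hB
  have hy : ∃ y : Q, B ⊔ Subgroup.closure {y} = ⊤ := by
    by_cases hT : B = ⊤
    · exact ⟨1, by rw [hT, top_sup_eq]⟩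
    · obtain ⟨y, -, hy⟩ := SetLike.exists_of_lt (lt_top_iff_ne_top.2 hT)
      have hlt : B < B ⊔ Subgroup.closure {y} := by
        refine lt_of_le_of_ne le_sup_left fun h1 => hy ?_
        rw [h1]
        exact Subgroup.mem_sup_right (Subgroup.subset_closure (Set.mem_singleton y))
      refine ⟨y, ?_⟩
      have h1 := hstep _ _ (hx.resolve_left hT)
      have h2 := hstep _ _ hlt
      have h3 : ℓ * (ℓ * (B ⊔ Subgroup.closure {y}).index) ≤ ℓ ^ 2 :=
        ((Nat.mul_le_mul_left ℓ h2).trans h1).trans h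
      rw [← Subgroup.index_eq_one]
      have h4 : 0 < (B ⊔ Subgroup.closure {y}).index :=
        Nat.pos_of_ne_zero Subgroup.index_ne_zero_of_finite
      have h5 : ℓ ^ 2 * (B ⊔ Subgroup.closure {y}).index ≤ ℓ ^ 2 * 1 := by
        rw [mul_one, sq, mul_assoc, ← sq]
        exact h3
      have h6 := Nat.le_of_mul_le_mul_left h5 (pow_pos hℓ.out.pos 2)
      omega
  obtain ⟨y, hy⟩ := hy
  refine ⟨x, y, frat hp _ ?_⟩
  have h7 : Subgroup.closure ({x, y} : Set Q) = Subgroup.closure {x} ⊔ Subgroup.closure {y} := by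
    rw [← Subgroup.closure_union, Set.singleton_union]
  rw [h7, ← hA, sup_comm, ← sup_assoc]
  exact hy

end Pool.Agent.PP.TW
end
end -- Pool.Agent.ATW.Rank2

section -- Pool.Agent.ATW.Rank2b

/-!
# Squad ATW: blocks with abelian defect groups of rank at most two, relative to a normal subgroup

`rk2`: the alternating sum of every central idempotent all of whose defect groups are abelian and
generated by two elements; `fin2`: the final theorem.  The hypotheses are the theorem for exponent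
`ℓ ^ a`, `a ≥ 2` (`Tt`), and the second order theorem (`SE.S2fStmt`).
-/

open scoped BigOperators

noncomputable section

namespace Pool.Agent.PP.TW

open Pool.Agent.Helper51_AWC Pool.Agent.Helper79_WRA Pool.Agent.PP Pool.Agent.PP.KF
open Pool.Agent.PP.K9 Pool.Agent.PP.K9.H97 Pool.Agent.PP.H75 Pool.Agent.PP.T3 Pool.Agent.PP.T2

attribute [local instance] Ideal.Quotient.field

/-- a block of the class `R2` -/
theorem rk2_blk (hT : ∀ (ℓ : ℕ) [Fact ℓ.Prime], Tt ℓ) (hS : SE.S2fStmt) {ℓ : ℕ}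
    [hℓ : Fact ℓ.Prime] (M : Ideal (integralClosure ℤ ℂ)) [M.IsMaximal]
    (hM : (ℓ : integralClosure ℤ ℂ) ∈ M) {G : Type} [Group G] [Finite G] (f : G → FF M)
    (hf : IsBlk f) (hpf : Pos ℓ f ⊤) (V : Subgroup G) (hV : Tp ℓ f V) (hR : R2 ℓ V) :
    YY ℓ ⊤ f = 0 := by
  have hF : GoodF ℓ (FF M) := H50.fld ℓ hℓ.out M hM
  have hfm : ∀ Q : Subgroup G, IsPGroup ℓ Q → Gd f Q → ∃ g, Q ≤ conjS g V :=
    (H69.fmg ℓ M hM G f hf V hV).1
  by_cases hO : opCore ℓ G = ⊥
  swap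
  · exact H96.yzr ℓ (FF M) hℓ.out G ⊤ inferInstance (opCore_top_ne rfl hO) f
  by_cases hcyc : IsCyclic V
  · refine CD2.Asm.d2a_ ℓ (FF M) hF G ⊤ inferInstance f hf.1 hpf
      ⟨f, hf.1, fun x hx => absurd (Subgroup.mem_top x) hx, hf.1.2, fun Q hQ hQp hbr => ?_⟩
    have h1 : Gd f Q := by
      by_contra hcon
      apply hbr
      funext t
      by_cases ht : t ∈ Subgroup.centralizer (Q : Set G)
      · rw [H66.br_of_mem ht]
        by_contra h2
        exact hcon ⟨t, ht, h2⟩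
      · rw [H66.br_of_not_mem ht]
        rfl
    obtain ⟨g, hg⟩ := hfm Q hQp h1
    have e1 : V ≃* conjS g V := V.equivMapOfInjective _ (MulAut.conj g).injective
    have : IsCyclic (conjS g V) := isCyclic_of_surjective e1.toMonoidHom e1.surjective
    exact isCyclic_of_injective (Subgroup.inclusion hg) (Subgroup.inclusion_injective hg)
  · obtain ⟨-, hVp, hVab, hVn⟩ := hR
    have hab : ∀ a ∈ V, ∀ b ∈ V, a * b = b * a := fun a ha b hb =>
      congrArg Subtype.val (hVab ⟨a, ha⟩ ⟨b, hb⟩)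
    letI : CommGroup V := { (inferInstance : Group V) with mul_comm := hVab }
    obtain ⟨γ, hγ⟩ := T6.H24.exists_gam hF hf hV hab
    obtain ⟨n, hn⟩ := IsPGroup.iff_card.1 hVp
    have hexp : ∃ a : ℕ, Monoid.exponent V = ℓ ^ a := by
      have h1 : Monoid.exponent V ∣ ℓ ^ n := hn ▸ Group.exponent_dvd_nat_card
      obtain ⟨a, -, ha⟩ := (Nat.dvd_prime_pow hℓ.out).1 h1
      exact ⟨a, ha⟩
    obtain ⟨a, ha⟩ := hexp
    by_cases ha2 : 2 ≤ a
    · refine hT ℓ M hM a ha2 G f V γ hγ ha ?_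
      obtain ⟨x, y, hxy⟩ := gen_of hVp hVn
      refine ⟨x, y, ?_⟩
      have h1 := congrArg (Subgroup.map V.subtype) hxy
      rw [MonoidHom.map_closure, ← MonoidHom.range_eq_map, Subgroup.range_subtype,
        Set.image_pair] at h1
      exact h1.symm
    · have hel : ∀ v ∈ V, v ^ ℓ = 1 := by
        intro v hv
        have h1 : (⟨v, hv⟩ : V) ^ Monoid.exponent V = 1 := Monoid.pow_exponent_eq_one _
        have h2 : (⟨v, hv⟩ : V) ^ ℓ = 1 := by
          have ha1 : a = 0 ∨ a = 1 := by omega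
          rcases ha1 with h | h
          · rw [ha, h, pow_zero, pow_one] at h1
            rw [h1, one_pow]
          · rw [ha, h, pow_one] at h1
            exact h1
        exact congrArg Subtype.val h2
      have hle : Nat.card V ≤ ℓ ^ 2 := by
        rw [← Set.ncard_univ]
        refine le_trans (Set.ncard_le_ncard ?_ (Set.toFinite _)) hVn
        intro x _
        exact Subtype.ext (hel x x.2)
      have hcard : Nat.card V = ℓ ^ 2 := by
        rw [hn] at hle ⊢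
        have hn2 : n ≤ 2 := (Nat.pow_le_pow_iff_right hℓ.out.one_lt).1 hle
        have hn0 : n ≠ 0 := by
          rintro rfl
          apply hcyc
          rw [pow_zero] at hn
          have := (Nat.card_eq_one_iff_unique.1 hn).1
          exact isCyclic_of_subsingleton
        have hn1 : n ≠ 1 := by
          rintro rfl
          apply hcyc
          rw [pow_one] at hn
          exact isCyclic_of_prime_card hn
        rw [show n = 2 by omega]
      by_cases h5 : 5 ≤ ℓ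
      · exact hS ℓ M hM h5 G f V γ hγ hel hcard
      · have hl : ℓ = 2 ∨ ℓ = 3 := by
          have h2 := hℓ.out.two_le
          have h4 : ℓ ≠ 4 := by
            intro h
            have := hℓ.out
            rw [h] at this
            exact absurd this (by decide)
          omega
        have hdv : ∀ Q : Subgroup G, IsPGroup ℓ Q → Gd f Q → Nat.card Q ∣ ℓ ^ 2 := by
          intro Q hQ hg
          have h1 := hV.mx Q hQ hg
          obtain ⟨k, hk⟩ := IsPGroup.iff_card.1 hQ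
          rw [hk, hcard] at h1
          rw [hk]
          exact pow_dvd_pow ℓ ((Nat.pow_le_pow_iff_right hℓ.out.one_lt).1 h1)
        rcases hl with rfl | rfl
        · exact H57.gq4' KF.gq4_ H69.fmg CD2.Asm.d2a_ H9.addStmt M (by exact_mod_cast hM) G f hf.1
            hpf fun Q _ hQp h1 => by
              change Nat.card Q ∣ 4
              exact hdv Q hQp h1
        · exact gq9_ M hM G hO f hf.1 hpf fun Q _ hQp h1 => by
            change Nat.card Q ∣ 9
            exact hdv Q hQp h1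

/-- the theorem for central idempotents -/
theorem rk2 (hT : ∀ (ℓ : ℕ) [Fact ℓ.Prime], Tt ℓ) (hS : SE.S2fStmt) {ℓ : ℕ}
    [hℓ : Fact ℓ.Prime] (M : Ideal (integralClosure ℤ ℂ)) [M.IsMaximal]
    (hM : (ℓ : integralClosure ℤ ℂ) ∈ M) {G : Type} [Group G] [Finite G] (e : G → FF M)
    (he : IsIdem e) (hp : Pos ℓ e ⊤) (hdf : DF.DfE ℓ (R2 ℓ) e ⊤) : YY ℓ ⊤ e = 0 := by
  have hF : GoodF ℓ (FF M) := H50.fld ℓ hℓ.out M hM
  refine H9.addStmt ℓ (FF M) hF G ⊤ inferInstance e he fun f hf hef => ?_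
  have hfe : mulF f e = f := by rw [H46.mulF_comm hf.1.1, hef]
  have hpf : Pos ℓ f ⊤ := H46.pos_mono hf.1 hfe hp
  have hdf' : DF.DfE ℓ (R2 ℓ) f ⊤ := DF.DfE.le hF he.1 hf.1.1 hef hdf
  obtain ⟨V, hV⟩ := H57.exists_tp (ℓ := ℓ) hf.2.1
  exact rk2_blk hT hS M hM f hf hpf V hV (hdf' V le_top hV.pg hV.gd)

/-- the final theorem: `G` finite with `O_ℓ(G) ≤ Z(G)`, `N` a normal subgroup, `χ` over `ψ`, the
defect groups of the block of `ψ` are larger than `O_ℓ(N)`, and modulo `O_ℓ(N)` they are abelian and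
generated by two elements -/
theorem fin2 (hT : ∀ (ℓ : ℕ) [Fact ℓ.Prime], Tt ℓ) (hS : SE.S2fStmt) :
    ∀ (ℓ : ℕ), ℓ.Prime → ∀ (M : Ideal (integralClosure ℤ ℂ)) [M.IsMaximal],
      (ℓ : integralClosure ℤ ℂ) ∈ M → ∀ (G : Type) [Group G] [Finite G],
      opCore ℓ G ≤ Subgroup.center G → ∀ N : Subgroup G, N.Normal →
      ∀ χ ∈ Irr G, ∀ ψ ∈ Irr N, (∑ᶠ n : N, χ n * starRingEnd ℂ (ψ n)) ≠ 0 →
        LargeDefect ℓ M ψ →
        (∃ (x : N) (P : Subgroup N), ¬ Cong M (omega (MonoidHom.id N) ψ x) 0 ∧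
          P ≤ Subgroup.centralizer ({x} : Set N) ∧ IsPGroup ℓ P ∧
          ¬ ℓ ∣ P.relIndex (Subgroup.centralizer ({x} : Set N)) ∧
          (∀ u ∈ P, ∀ v ∈ P, u * v * u⁻¹ * v⁻¹ ∈ opCore ℓ N) ∧
          ∃ a b : N, P ≤ Subgroup.closure ({a, b} : Set N) ⊔ opCore ℓ N ∧ a ∈ P ∧ b ∈ P) →
        altSum ℓ M χ = 0 := by
  intro ℓ hℓ M _ hM G _ _ hc N hN χ hχ ψ hψ hχψ hL hS'
  obtain ⟨x, P, hx, hPC, hPp, hPi, hab, a, b, hgen, haP, hbP⟩ := hS'
  have hfact : Fact ℓ.Prime := ⟨hℓ⟩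
  have hn := H75.opCore_normal (A := G) ℓ
  have hnN : (opCore ℓ N).Normal := H75.opCore_normal (A := N) ℓ
  refine DF.finI (DF.relQE_ DF.dfq_ DF.H43.covE DF.dbl_) KF.fst_ hℓ hM (r2_subCl ℓ) hc hN ?_ hχ hψ
    hχψ hL ⟨x, P, fun h1 => hx ?_, hPC, hPp, hPi, _, inferInstance,
      QuotientGroup.mk' ((opCore ℓ N).subgroupOf P), ?_, ?_⟩
  · intro S _ _ _ _ _ D _ _ _ _ _ _ e he _ hpos hdf
    exact rk2 hT hS M hM e he hpos hdf
  · have hint : IsIntegral ℤ (omega (MonoidHom.id N) ψ x) :=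
      Pool.Agent.Helper51_AWC.omega_integral _ hψ x
    rw [← Pool.Agent.Helper79_WRA.red_eq_iff hint isIntegral_zero, h1,
      Pool.Agent.Helper79_WRA.red_zero]
  · set A := (opCore ℓ N).subgroupOf P with hA
    have hcomm : ∀ q q' : P ⧸ A, q * q' = q' * q := by
      intro q q'
      obtain ⟨u, rfl⟩ := QuotientGroup.mk_surjective q
      obtain ⟨v, rfl⟩ := QuotientGroup.mk_surjective q'
      rw [← QuotientGroup.mk_mul, ← QuotientGroup.mk_mul, QuotientGroup.eq, hA,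
        Subgroup.mem_subgroupOf]
      have h1 := hab (v : N)⁻¹ (P.inv_mem v.2) (u : N)⁻¹ (P.inv_mem u.2)
      have h2 : (((u * v)⁻¹ * (v * u) : P) : N) =
          (v : N)⁻¹ * (u : N)⁻¹ * (v : N)⁻¹⁻¹ * (u : N)⁻¹⁻¹ := by
        push_cast
        group
      rw [h2]
      exact h1
    refine ⟨inferInstance, hPp.to_quotient A, hcomm, ?_⟩
    letI : CommGroup (P ⧸ A) := { (inferInstance : Group (P ⧸ A)) with mul_comm := hcomm }
    refine ncard_le hℓ.pos (x := QuotientGroup.mk' A ⟨a, haP⟩) (y := QuotientGroup.mk' A ⟨b, hbP⟩)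
      fun q => ?_
    obtain ⟨u, rfl⟩ := QuotientGroup.mk'_surjective A q
    have h1 : (u : N) ∈ Subgroup.closure ({a, b} : Set N) ⊔ opCore ℓ N := hgen u.2
    rw [Subgroup.mem_sup_of_normal_right] at h1
    obtain ⟨c, hc1, d, hd1, hcd⟩ := h1
    have hcP : Subgroup.closure ({a, b} : Set N) ≤ P := by
      rw [Subgroup.closure_le]
      rintro z hz
      rcases hz with rfl | hz
      · exact haP
      · rw [Set.mem_singleton_iff.1 hz]
        exact hbP
    have hdP : d ∈ P := by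
      have : d = c⁻¹ * u := by rw [← hcd]; group
      rw [this]
      exact P.mul_mem (P.inv_mem (hcP hc1)) u.2
    have h3 : u = (⟨c, hcP hc1⟩ : P) * ⟨d, hdP⟩ := Subtype.ext hcd.symm
    have h4 : QuotientGroup.mk' A (⟨d, hdP⟩ : P) = 1 := by
      rw [QuotientGroup.mk'_apply, QuotientGroup.eq_one_iff]
      exact Subgroup.mem_subgroupOf.2 hd1
    rw [h3, map_mul, h4, mul_one]
    have h5 : (⟨c, hcP hc1⟩ : P) ∈ Subgroup.closure ({⟨a, haP⟩, ⟨b, hbP⟩} : Set P) := by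
      have h6 : (Subgroup.closure ({⟨a, haP⟩, ⟨b, hbP⟩} : Set P)).map P.subtype =
          Subgroup.closure ({a, b} : Set N) := by
        rw [MonoidHom.map_closure, Set.image_pair]
        rfl
      rw [← h6] at hc1
      obtain ⟨c', hc', rfl⟩ := hc1
      exact hc'
    have h7 := Subgroup.mem_map_of_mem (QuotientGroup.mk' A) h5
    rw [MonoidHom.map_closure, Set.image_pair] at h7
    exact h7
  · intro u
    rw [QuotientGroup.mk'_apply, QuotientGroup.eq_one_iff]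
    exact Subgroup.mem_subgroupOf

end Pool.Agent.PP.TW
end
end -- Pool.Agent.ATW.Rank2b

section -- Pool.Agent.Helper47_WAT.RB2

/-!
# Squad WAT: row RB2

The theorem for blocks with an abelian defect group which is generated by two elements.
-/

noncomputable section

namespace Pool.Agent.PP.TV.H47

open Pool.Agent.Helper51_AWC Pool.Agent.Helper79_WRA Pool.Agent.PP Pool.Agent.PP.KF
open Pool.Agent.PP.K9 Pool.Agent.PP.K9.H97 Pool.Agent.PP.H75 Pool.Agent.PP.T3

attribute [local instance] Ideal.Quotient.field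

/-- an abelian group with two generators which is an `ℓ`-group is in the class `R2` -/
theorem r2_of_rk2 {ℓ : ℕ} [hℓ : Fact ℓ.Prime] {Q : Type} [Group Q] [Finite Q]
    (hp : IsPGroup ℓ Q) (hR : RK2.Rk2 Q) : TW.R2 ℓ Q := by
  obtain ⟨hc, x, y, hxy⟩ := hR
  refine ⟨inferInstance, hp, hc, ?_⟩
  letI : CommGroup Q := { (inferInstance : Group Q) with mul_comm := hc }
  exact TW.ncard_le hℓ.out.pos (x := x) (y := y) fun q => by
    rw [hxy]
    exact Subgroup.mem_top q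

theorem rb2 (hT : ∀ (ℓ : ℕ) [Fact ℓ.Prime], TW.Tt ℓ) (hS : SE.S2fStmt) : Rb2Stmt := by
  intro ℓ hℓ M _ hM G _ _ e V γ hL hV hR
  have hF : GoodF ℓ (FF M) := H50.fld ℓ hℓ.out M hM
  exact TW.rk2_blk hT hS M hM e hL.blk
    (T3.H38.pos ℓ (FF M) hF G e hL.blk V hL.tp.pg hV hL.tp.gd) V hL.tp
    (r2_of_rk2 hL.tp.pg hR)

end Pool.Agent.PP.TV.H47
end
end -- Pool.Agent.Helper47_WAT.RB2
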