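import Pool.Agent.Helper12_AWB.B021
import Pool.Agent.Helper12_AWB.B022
import Pool.Agent.Helper12_AWB.B030
import Pool.Agent.Helper12_AWB.B183
import Pool.Agent.Helper12_AWB.B185
import Pool.Agent.Helper12_AWB.B284

/-!
# Merged copies (generated) of the modules

* `Pool.Agent.PST.DefsGR`
* `Pool.Agent.PST.DefsGS`
* `Pool.Agent.PST.StmtsGS`
* `Pool.Agent.PSS.StmtsBR`
* `Pool.Agent.PST.StmtsGR`
* `Pool.Agent.PST.StmtsGU`
* `Pool.Agent.PST.StmtsGV`
* `Pool.Agent.Helper10_PSS.RCT`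
* `Pool.Agent.Helper11_PST.ATQ`
* `Pool.Agent.Helper44_PSS.CLN`
* `Pool.Agent.Helper63_PFD.EGX`
* `Pool.Agent.Helper68_PST.STL`
* `Pool.Agent.Helper97_PST.CLP`
-/

set_option autoImplicit false

section -- Pool.Agent.PST.DefsGR

/-!
# Squad PST, block GR (group level of theorem (S+)): definitions (helper11)

* `Chn ℓ n V E φ W`: a chain of `n` steps from `V` down to `W`; one step is `Cyf` (a cyclic factor) or `Chf`
  (`ℓ ≠ 2`, `V / W'` elementary abelian, `E` abelian on `V`, free on `V / W' - 1`).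
* `AtqStmt`: the theorem for algebras.
* `StA`, `ChA ℓ E P W`: the same chains of subgroups of a fixed group `V` with `E ≤ Aut V`.
* `Frw E W U X`: `W = U × X`, and an element of `E` which fixes some `u ≠ 1` in `U` fixes `W`.
* `KT`: the class of theorem (S+): `V` abelian, a chain from `V` down to `W`, `Frw`.
* `ClT`: the clean hypotheses of the final theorem.
-/

open scoped BigOperators

noncomputable section

namespace Pool.Agent.PST

open Pool.Agent.PSS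

/-! ## Algebras -/

/-- a chain of `n` steps from `V` down to `W` -/
def Chn (ℓ : ℕ) : ℕ → ∀ (V E : Type) [CommGroup V] [Group E] (_ : E →* MulAut V)
    (_ : Subgroup V), Prop
  | 0, _, _, _, _, _, W => W = ⊤
  | n + 1, V, E, _, _, φ, W => ∃ (W' : Subgroup V) (ψ : E →* MulAut W'),
      ((∃ Y : Subgroup V, Cyf φ Y W') ∨ Chf ℓ φ W') ∧ W ≤ W' ∧ IsRs φ W' ψ ∧
      Chn ℓ n W' E ψ (W.subgroupOf W')

/-- ATQ: the theorem for algebras -/
def AtqStmt : Prop :=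
  ∀ (n ℓ : ℕ) [Fact ℓ.Prime] (F V E A B : Type) [Field F] [IsAlgClosed F] [CharP F ℓ]
    [CommGroup V] [Fintype V] [Group E] [Fintype E] [Ring A] [Algebra F A] [Ring B] [Algebra F B]
    (φ : E →* MulAut V) (α : V →* A) (W : Subgroup V) (ψ : E →* MulAut W),
    IsPGroup ℓ V → ¬ ℓ ∣ Nat.card E → Chn ℓ n V E φ W → IsRs φ W ψ →
    (W = ⊥ ∨ Fre ψ) → Cl F φ α → IsNW F α W B →
    Module.finrank F (Subalgebra.center F A) = Module.finrank F (Subalgebra.center F B)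

/-! ## Groups -/

/-- one step in a fixed group `V` -/
structure StA (ℓ : ℕ) {V : Type} [Group V] (E : Subgroup (MulAut V)) (P P' : Subgroup V) :
    Prop where
  le : P' ≤ P
  st : ∀ a ∈ E, ∀ u ∈ P', a u ∈ P'
  tp : (∃ Y : Subgroup V, Y ⊓ P' = ⊥ ∧ Y ⊔ P' = P ∧ (∃ y ∈ Y, ∀ x ∈ Y, ∃ k : ℤ, x = y ^ k) ∧
      ∀ a ∈ E, ∀ y ∈ Y, a y ∈ Y) ∨
    (ℓ ≠ 2 ∧ (∀ v ∈ P, v ^ ℓ ∈ P') ∧
      (∀ a ∈ E, ∀ v ∈ P, v ∉ P' → a v * v⁻¹ ∈ P' → ∀ w ∈ P, a w * w⁻¹ ∈ P') ∧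
      ∀ a ∈ E, ∀ b ∈ E, ∀ v ∈ P, a (b v) = b (a v))

/-- a chain of steps from `P` down to `W` -/
inductive ChA (ℓ : ℕ) {V : Type} [Group V] (E : Subgroup (MulAut V)) :
    Subgroup V → Subgroup V → Prop
  | refl (P : Subgroup V) : ChA ℓ E P P
  | step (P P' W : Subgroup V) : StA ℓ E P P' → ChA ℓ E P' W → ChA ℓ E P W

/-- `W = U × X`, both factors are stable, `U ≠ 1`, and an element of `E` which fixes some `u ≠ 1` in `U`
fixes `W` pointwise. -/
structure Frw {V : Type} [Group V] (E : Subgroup (MulAut V)) (W U X : Subgroup V) : Prop where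
  ux : U ⊓ X = ⊥
  uw : U ⊔ X = W
  nt : U ≠ ⊥
  su : ∀ a ∈ E, ∀ u ∈ U, a u ∈ U
  sx : ∀ a ∈ E, ∀ x ∈ X, a x ∈ X
  fr : ∀ a ∈ E, ∀ u ∈ U, u ≠ 1 → a u = u → ∀ w ∈ W, a w = w

/-- the class of theorem (S+) -/
def KT : Kl := fun ℓ V _ E W => (∀ a b : V, a * b = b * a) ∧ ChA ℓ E ⊤ W ∧
  ∃ U X : Subgroup V, Frw E W U X

/-- The clean hypotheses: a chain `D = P 0 ≥ P 1 ≥ .. ≥ P n` of subgroups normalised by `T`; either
`P i = Y × P (i + 1)` with `Y` cyclic and normalised by `T`, or `ℓ ≠ 2`, `T` acts on `P i` through an abelian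
group, `P i / P (i + 1)` is elementary abelian, and an element of `T` which fixes a nontrivial
element of it acts trivially on it; and `P n = 1`, or `T` normalises a subgroup `U ≠ 1` of `P n` and an
element of `T` which commutes with some `u ≠ 1` in `U` centralises `P n`. -/
structure ClT (ℓ : ℕ) {H : Type} [Group H] (T : Set H) (D : Subgroup H) (n : ℕ)
    (P : ℕ → Subgroup H) (U : Subgroup H) : Prop where
  p0 : P 0 = D
  st : ∀ i ≤ n, ∀ t ∈ T, ∀ x ∈ P i, t * x * t⁻¹ ∈ P i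
  le : ∀ i < n, P (i + 1) ≤ P i
  tp : ∀ i < n, (∃ Y : Subgroup H, Y ⊓ P (i + 1) = ⊥ ∧ Y ⊔ P (i + 1) = P i ∧
      (∃ y ∈ Y, ∀ x ∈ Y, ∃ k : ℤ, x = y ^ k) ∧ ∀ t ∈ T, ∀ y ∈ Y, t * y * t⁻¹ ∈ Y) ∨
    (ℓ ≠ 2 ∧ (∀ x ∈ P i, x ^ ℓ ∈ P (i + 1)) ∧
      (∀ t ∈ T, ∀ x ∈ P i, x ∉ P (i + 1) → t * x * t⁻¹ * x⁻¹ ∈ P (i + 1) →
        ∀ y ∈ P i, t * y * t⁻¹ * y⁻¹ ∈ P (i + 1)) ∧
      ∀ s ∈ T, ∀ t ∈ T, ∀ x ∈ P i, s * t * x * (s * t)⁻¹ = t * s * x * (t * s)⁻¹)
  uw : U ≤ P n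
  su : ∀ t ∈ T, ∀ u ∈ U, t * u * t⁻¹ ∈ U
  nt : U = ⊥ → P n = ⊥
  fr : ∀ t ∈ T, ∀ u ∈ U, u ≠ 1 → t * u = u * t → t ∈ Subgroup.centralizer (P n : Set H)

end Pool.Agent.PST
end
end -- Pool.Agent.PST.DefsGR

section -- Pool.Agent.PST.DefsGS

/-!
# Squad PST, block GS (group level of theorem (S++)): definitions (helper11)

* `StB`, `ChB ℓ E P W`: chains of subgroups of a fixed group `V` with `E ≤ Aut V`; one step: `P / P'`
  elementary abelian, `E` abelian on `P / P'` and free on `P / P' - 1`, and `P'` contains a regular element.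
* `KP`: the class of theorem (S++): `V` abelian, `[E, E]` centralises `V / W`, `Frw`.
* `ClP`: the clean hypotheses of the final theorem.
-/

open scoped BigOperators

noncomputable section

namespace Pool.Agent.PST

open Pool.Agent.PSS

/-- one step in a fixed group `V` -/
structure StB (ℓ : ℕ) {V : Type} [Group V] (E : Subgroup (MulAut V)) (P P' : Subgroup V) :
    Prop where
  le : P' ≤ P
  st : ∀ a ∈ E, ∀ u ∈ P', a u ∈ P'
  pw : ∀ v ∈ P, v ^ ℓ ∈ P'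
  fr : ∀ a ∈ E, ∀ v ∈ P, v ∉ P' → a v * v⁻¹ ∈ P' → ∀ w ∈ P, a w * w⁻¹ ∈ P'
  am : ∀ a ∈ E, ∀ b ∈ E, ∀ v ∈ P, a (b v) * (b (a v))⁻¹ ∈ P'
  rg : ∃ u ∈ P', ∀ a ∈ E, a u = u → ∀ w ∈ P', a w = w

/-- a chain of steps from `P` down to `W` -/
inductive ChB (ℓ : ℕ) {V : Type} [Group V] (E : Subgroup (MulAut V)) :
    Subgroup V → Subgroup V → Prop
  | refl (P : Subgroup V) : ChB ℓ E P P
  | step (P P' W : Subgroup V) : StB ℓ E P P' → ChB ℓ E P' W → ChB ℓ E P W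

/-- the class of theorem (S++) -/
def KP : Kl := fun _ V _ E W => (∀ a b : V, a * b = b * a) ∧
  (∀ a ∈ E, ∀ b ∈ E, ∀ v : V, a (b v) * (b (a v))⁻¹ ∈ W) ∧ ∃ U X : Subgroup V, Frw E W U X

/-- The clean hypotheses (`ℓ` is not used): `W ≤ D` is normalised by `T`; the commutators of `T` centralise
`D / W`; and `W = 1`, or `T` normalises a subgroup `U ≠ 1` of `W` and an element of `T` which commutes with
some `u ≠ 1` in `U` centralises `W`. -/
structure ClP (ℓ : ℕ) {H : Type} [Group H] (T : Set H) (D W U : Subgroup H) : Prop where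
  wd : W ≤ D
  sw : ∀ t ∈ T, ∀ w ∈ W, t * w * t⁻¹ ∈ W
  cm : ∀ s ∈ T, ∀ t ∈ T, ∀ x ∈ D,
    s * t * s⁻¹ * t⁻¹ * x * (s * t * s⁻¹ * t⁻¹)⁻¹ * x⁻¹ ∈ W
  uw : U ≤ W
  su : ∀ t ∈ T, ∀ u ∈ U, t * u * t⁻¹ ∈ U
  nt : U = ⊥ → W = ⊥
  fr : ∀ t ∈ T, ∀ u ∈ U, u ≠ 1 → t * u = u * t → t ∈ Subgroup.centralizer (W : Set H)

end Pool.Agent.PST
end
end -- Pool.Agent.PST.DefsGS

section -- Pool.Agent.PST.StmtsGS

/-!
# Squad PST, block GS: the group level of theorem (S++) (helper11)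

1. REA, REB: regular elements.  MSU: a minimal stable subgroup.
2. ECB: existence of the chain.  KNG, STL: from the class `KP` to the chains of `ATQ`; STO for `KP`.
3. ADP: `KP` is admissible.
4. CLP, FNP: the final theorem.

Complete proofs in the docstrings; a row may take the rows which it uses as hypotheses.
-/

open scoped BigOperators

noncomputable section

namespace Pool.Agent.PST

open Pool.Agent.Helper51_AWC Pool.Agent.Helper79_WRA Pool.Agent.PP Pool.Agent.PP.KF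
open Pool.Agent.PP.K9 Pool.Agent.PP.K9.H97 Pool.Agent.PP.H75 Pool.Agent.PP.T3 Pool.Agent.PP.T2
open Pool.Agent.PFD (Ei)
open Pool.Agent.PSS

attribute [local instance] Ideal.Quotient.field

/-! ## 1. Regular elements -/

/-- REA: a commutative group of operators has a regular element.

Proof.  Choose `q ∈ Q` such that the order of `C = {a ∈ E | a q = q}` is minimal (`Q`, `E` are finite).  Suppose
that some `c ∈ C` moves some `w ∈ Q`.  `|C|` divides `|E|`, so it is prime to `ℓ`, and there is `m` with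
`v ^ (m * |C|) = v` for all `v ∈ V` (`V` is a finite `ℓ`-group).  `p v = ∏ c ∈ C, c (v ^ m)` (product over the
subgroup `C`) is a homomorphism on `V` (`V` is commutative); for `v ∈ Q`: `p v ∈ Q`, `c (p v) = p v` for
`c ∈ C` (reindex), `p v = v` if all `c ∈ C` fix `v`, `a (p v) = p (a v)` for `a ∈ E`.  So `p (p v) = p v`.
`y = w * (p w)⁻¹`: `p y = 1`, and `c y = c w * (p w)⁻¹ ≠ y`.  If `a ∈ E` fixes `q * y` then
`a q = a (p (q y)) = p (a (q y)) = p (q y) = q`, so `a y = y`.  So the stabiliser of `q * y` is contained in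
`C` and does not contain `c`, a contradiction. -/
def ReaStmt : Prop := ∀ (ℓ : ℕ) (V : Type) [CommGroup V] [Finite V] (E : Subgroup (MulAut V))
  (Q : Subgroup V), ℓ.Prime → IsPGroup ℓ V → ¬ ℓ ∣ Nat.card E → (∀ a ∈ E, ∀ u ∈ Q, a u ∈ Q) →
  (∀ a ∈ E, ∀ b ∈ E, ∀ v ∈ Q, a (b v) = b (a v)) →
  ∃ q ∈ Q, ∀ a ∈ E, a q = q → ∀ w ∈ Q, a w = w

/-- REB (uses REA): regular elements in the class `KP`.

Proof.  `K = {a ∈ E | ∀ v ∈ P, a v * v⁻¹ ∈ W}` is a subgroup (`W` is stable: `W = U ⊔ X`), and for `a, b ∈ E`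
the element `(b a)⁻¹ (a b)` is in `K` (apply the stable `W` to `a (b v) * (b (a v))⁻¹ ∈ W`); `K` is normalised
by `E`.  `Q = {v ∈ P | ∀ k ∈ K, k v = v}` is stable: `k (a v) = a ((a⁻¹ k a) v) = a v`.  `E` is commutative on
`Q`: `a (b v) = b (a (k v))`, `k = (b a)⁻¹ (a b) ∈ K`.  `P = Q W`: there is `m` with `v ^ (m * |K|) = v` for all
`v`, `p v = ∏ k ∈ K, k (v ^ m)` is in `Q` for `v ∈ P`, and `p v * v⁻¹ ∈ W`.  REA: `q` for `Q`.  If all `k ∈ K` fix
`W` pointwise then `W ≤ Q`, `P = Q` and `u = q`.  Otherwise let `k ∈ K` move some `w ∈ W`; choose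
`u₀ ∈ U`, `u₀ ≠ 1` (`nt`); an element of `Q ⊓ U` is fixed by `k`, so it is `1` by `Frw.fr`.  `u = q * u₀`: if
`a u = u` then `q⁻¹ * a q = u₀ * (a u₀)⁻¹ ∈ Q ⊓ U` (`U` is stable), so `a q = q`, `a u₀ = u₀`, and `a` fixes `Q` and
`W` (`Frw.fr`), so it fixes `P = Q W`. -/
def RebStmt : Prop := ∀ (ℓ : ℕ) (V : Type) [CommGroup V] [Finite V] (E : Subgroup (MulAut V))
  (W U X P : Subgroup V), ℓ.Prime → IsPGroup ℓ V → ¬ ℓ ∣ Nat.card E → Frw E W U X →
  (∀ a ∈ E, ∀ b ∈ E, ∀ v : V, a (b v) * (b (a v))⁻¹ ∈ W) → W ≤ P →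
  (∀ a ∈ E, ∀ u ∈ P, a u ∈ P) → ∃ u ∈ P, ∀ a ∈ E, a u = u → ∀ w ∈ P, a w = w

/-- MSU: a minimal stable subgroup.

Proof.  `W` = a stable subgroup `≠ ⊥` of minimal order (`⊤` is one).  `U = W`, `X = ⊥`.  If `a ∈ E` fixes `u ≠ 1`
in `W` then `{v ∈ W | a v = v}` is a subgroup, stable (`a (b v) = b (a v) = b v`), not `⊥`, so it is `W`. -/
def MsuStmt : Prop := ∀ (V : Type) [Group V] [Finite V] (E : Subgroup (MulAut V)),
  (∃ v : V, v ≠ 1) → (∀ a ∈ E, ∀ b ∈ E, ∀ v : V, a (b v) = b (a v)) →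
  ∃ W : Subgroup V, Frw E W W ⊥

/-! ## 2. The class KP and the chains -/

/-- ECB (uses REB): the chain.

Proof.  Claim: `ChB ℓ E P W` for all stable `P ≥ W`, strong induction on
`Nat.card P`.  `P = W`: `refl`.  Otherwise choose a stable `P'`, `W ≤ P' < P`, of maximal order; every stable
`Q` with `P' < Q ≤ P` is `P`.  `StB ℓ E P P'`: `pw`: the subgroup `{v ∈ P | v ^ ℓ ∈ P'}` (`V` is commutative) is
stable, contains `P'`, and is not `P'`: take `v ∈ P`, `v ∉ P'`, and the least `k` with `v ^ (ℓ ^ k) ∈ P'`,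
`k ≥ 1`, and `v ^ (ℓ ^ (k - 1))`.  `fr`: for `a ∈ E` the subgroup `{v ∈ P | a v * v⁻¹ ∈ P'}` is stable
(`b (a v * v⁻¹) = b (a v) * (b v)⁻¹`, and `a (b v) * (b (a v))⁻¹ ∈ W ≤ P'`) and contains `P'`; if it
contains some `v ∉ P'` then it is `P`.  `am`: `W ≤ P'`.  `rg`: REB for `P'`. -/
def EcbStmt : Prop := ∀ (ℓ : ℕ) (V : Type) [CommGroup V] [Finite V] (E : Subgroup (MulAut V))
  (W : Subgroup V), ℓ.Prime → IsPGroup ℓ V → ¬ ℓ ∣ Nat.card E → KP ℓ V E W → ChB ℓ E ⊤ W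

/-- KNG: from `ChB`, `Frw` to `Chn`, `Fre`.

Proof.  Edit of `H10.knf` (`Helper10_PST/KNF.lean`): only steps `Chf` (`Or.inr`), with the new fields `am`, `rg`
of `Chf` from `StB.am`, `StB.rg` (`w₀` = the preimage under `i` of the regular element, `P' ≤ P = i.range`). -/
def KngStmt : Prop := ∀ (ℓ : ℕ) (V : Type) [CommGroup V] [Finite V] (E : Subgroup (MulAut V))
  (W U X : Subgroup V), ChB ℓ E ⊤ W → Frw E W U X →
  ∃ (n : ℕ) (ψ : E →* MulAut W), Chn ℓ n V E E.subtype W ∧ IsRs E.subtype W ψ ∧ Fre ψ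

/-- STL (uses ECB KNG): the input of the group level, for the class `KP`.

Proof.  Edit of `H20.stk` (`Helper20_PST/STK.lean`): the chain from ECB (`hL.tp.pg`, `hix`). -/
def StlStmt : Prop := AtqStmt → StoFor KP

/-! ## 3. The class is admissible -/

/-- ADP (uses MSU): the class `KP` is admissible.

Proof.  `nt`: `U ≤ W`, `U ≠ ⊥`.  `st`: `W = U ⊔ X`.  `iso`: images under `π` (as in `Helper77_PST/ADT.lean`).
`quo`: `E'` is commutative: `a' (b' (π v)) = π (a (b v))`,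
`π (a (b v) * (b (a v))⁻¹) = 1`; MSU: `W'`. -/
def AdpStmt : Prop := ∀ ℓ : ℕ, ℓ.Prime → Adm ℓ KP

/-! ## 4. The final theorem -/

/-- CLP (uses MSU): from the clean hypotheses to the class.

Proof.  As `H56.clt` (`Helper56_PST/CLT.lean`) and `H44.cab` (`Helper44_PST/CAB.lean`): `E = Ei V γ`; `w =
W.subgroupOf V` is stable; `a, b ∈ E` are induced by `s, t ∈ Tg V γ`, and `cm` for `x = t (s v s⁻¹) t⁻¹`:
`(s t s⁻¹ t⁻¹) x (..)⁻¹ = (s t) v (s t)⁻¹`, so `a (b v) * (b (a v))⁻¹ ∈ w`.  `W ≠ ⊥`: `U ≠ ⊥`, `relEdf`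
(`Helper44_PSS/CLN.lean`) for `U.subgroupOf V ≤ w` gives `U'`, `X'`.  `W = ⊥`: `E` is commutative on
`V`, MSU. -/
def ClpStmt : Prop := ∀ (ℓ : ℕ) [Fact ℓ.Prime] (M : Ideal (integralClosure ℤ ℂ)) [M.IsMaximal],
  (ℓ : integralClosure ℤ ℂ) ∈ M → ∀ (G : Type) [Group G] [Finite G] (e : G → FF M)
  (V : Subgroup G) (γ : G → FF M), Ld ℓ e V γ → V ≠ ⊥ → ∀ W U : Subgroup G,
  ClP ℓ (Tg V γ : Set G) V W U → ∃ W₀ : Subgroup V, KP ℓ V (Ei V γ) W₀

/-- FNP: the final theorem.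

Proof.  Edit of `PSS.H66.fns` (`Helper66_PSS/Fns.lean`) / of the row FNT: hypotheses `MnnFor KP`,
`ClpStmt`, `T3.FltStmt`, `T3.PsgStmt`; `hTg` rewrites `Iner M D th` to `Tg D γ`. -/
def FnpStmt : Prop := ∀ (ℓ : ℕ) [Fact ℓ.Prime] (M : Ideal (integralClosure ℤ ℂ)) [M.IsMaximal],
  (ℓ : integralClosure ℤ ℂ) ∈ M → ∀ (G : Type) [Group G] [Finite G],
  opCore ℓ G ≤ Subgroup.center G → ∀ χ ∈ Irr G, ∀ (H : Type) [Group H] (p : G →* H),
  Function.Surjective p → p.ker ≤ opCore ℓ G → ∀ ψ ∈ Irr H,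
  (∀ g : G, Cong M (omega (MonoidHom.id G) (fun x => ψ (p x)) g)
    (omega (MonoidHom.id G) χ g)) →
  ∀ D : Subgroup H, ML.IsDef ℓ M ψ D → D ≠ (opCore ℓ G).map p →
  (∀ x ∈ D, ∀ y ∈ D, x * y = y * x) →
  ∀ th ∈ IrrBlock M (Subgroup.centralizer (D : Set H)).subtype ψ,
  (∃ W U : Subgroup H, ClP ℓ (Iner M D th) D W U) → altSum ℓ M χ = 0

end Pool.Agent.PST
end
end -- Pool.Agent.PST.StmtsGS

section -- Pool.Agent.PSS.StmtsBR

/-!
# Squad PSS: theorem (R) as a base case (helper79)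

`V = W × U`, both factors `E`-stable, `|W| = ℓ`, `U ≠ 1`, and an element of `E` which is trivial on `W` and
fixes some `u ≠ 1` in `U` is trivial on `V` (`Rtp`).  Goal BSR: `dim Z(A) = dim Z(N_W(A))` for `A` in the
class `Cl`.

Plan: RDL reduces to local algebras `Y` in `Lc`, `Y' = N_W(Y)` is in `Lc` (LNW).  The formula of `PFE.RinStmt`
(`dim Z(Y) = dim Z(S) + ((ℓ-1)/|C|) dim Z(S0)`) holds for `Y` and for `Y'` (LRN), and `Y`, `Y'` have the same
graded algebras `S`, `S0` (SNW).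

Complete proofs in the docstrings.  We write `v` for `α v` (`v ∈ V1` for `α (i v)`).
-/

open scoped BigOperators

noncomputable section

namespace Pool.Agent.PSS.BR

open Pool.Agent.PFC (Cz Lcq)
open Pool.Agent.PFE (SG Nt It Tr tj Ctn)
open Pool.Agent.PSS.S5

/-- The property of theorem (R). -/
def Rtp : PrV := fun V E _ _ φ W => (Nat.card W).Prime ∧ ∃ U : Subgroup V, IsCompl W U ∧ U ≠ ⊥ ∧
  (∀ e : E, ∀ w ∈ W, φ e w ∈ W) ∧ (∀ e : E, ∀ u ∈ U, φ e u ∈ U) ∧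
  ∀ e : E, (∀ w ∈ W, φ e w = w) → ∀ u ∈ U, u ≠ 1 → φ e u = u → φ e = 1

/-- RTV: the property is invariant under isomorphisms.

Proof.  `U ↦ U.comap s`; `W.comap s` is isomorphic to `W` (`trs`).  `φ e (s u) = s (ψ e u)`. -/
def RtvStmt : Prop := Rtp.Inv

/-- SGX: the graded algebra `S(A)` exists.

Proof.  As `nwe` (`PSS/Nwe.lean`: `gsub`, `gidl`, `gsg`), with `MonoidAlgebra A C` instead of
`MonoidAlgebra A (MulAut W)`: the subalgebra of the `f` with `f.coeff c ∈ N_c` (`N_c = Nt F α i (θ c)`) and its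
two-sided ideal of the `f` with `f.coeff c ∈ I_c` (`I_c = It F α i (θ c)`).  `TwlStmt` (proved: see the row TWL of
`PFE/StmtsS.lean`): `N_c N_d ≤ N_(cd)` (`C` is commutative), `a Tr m = Tr (a m)`, `Tr m b = Tr (m b)`; for
`a ∈ N_c`, `b ∈ N_d`: `a (v b - b) = (v' (a b) - a b)`, `v' = θ_c⁻¹ v` (`a v = v' a`), `(v b - b) a = v (b a) - b a`.
`q c` = a linear extension (`LinearMap.exists_extend`) of `N_c → S`, `a ↦` the class of `single c a`. -/
def SgxStmt : Prop := ∀ (F V V1 C A : Type) [Field F] [CommGroup V] [CommGroup V1] [Fintype V1]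
  [CommGroup C] [Fintype C] [Ring A] [Algebra F A] (α : V →* A) (i : V1 →* V)
  (θ : C →* MulAut V1),
  ∃ (S : Type) (_ : Ring S) (_ : Algebra F S) (q : C → (A →ₗ[F] S)), SG F α i θ q

/-- SNL: elements fixed by `V1` are traces.

Proof.  `e2`: `b = ∑_k ∑_v lam (b (x_k v)) • (v⁻¹ y_k)`.  For `u ∈ V1`: `lam (b x_k (u v)) = lam (u v b x_k) =
lam (v (u b) x_k) = lam (b x_k v)` (`sym`; `V` is commutative, write `i u` for `u`).  Let `T` be a transversal of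
`i.range` in `V`; `V1 × T → V`, `(u, t) ↦ (i u)⁻¹ t` is a bijection, so `b = ∑_(u ∈ V1) u b'` with
`b' = ∑_k ∑_(t ∈ T) lam (b (x_k t)) • (t⁻¹ y_k)`. -/
def SnlStmt : Prop := ∀ (F V V1 B K : Type) [Field F] [CommGroup V] [Fintype V] [CommGroup V1]
  [Fintype V1] [Ring B] [Algebra F B] [Fintype K] (α : V →* B) (i : V1 →* V)
  (lam : B →ₗ[F] F) (x y : K → B), Function.Injective i → RF F α lam x y →
  ∀ b : B, (∀ v, α (i v) * b = b) → ∃ b' : B, b = ∑ v, α (i v) * b'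

/-- SNW: `S(N_W(A)) = S(A)`, `W = i(V1)`.

Proof.  For `c ∈ C` let `ε_c` be the automorphism of `W` with `ε_c (i v) = i (θ_c⁻¹ v)`.  `FxR (bw F α) (twW W ε_c)` =
`N_c(A)` (`mem_tw`), `ε_(cd) = ε_c ε_d`, `ε_1 = 1`.  `BKR (bw F α) (twW W ε_c)` = the set of the `Tr F α i (θ c) m` (a proper
subgroup of a group of prime order is `⊥`; compare `PttStmt`, row PTT of `PFE/StmtsS.lean`, proved), so it is in
`It F α i (θ c)`.
`B = ⊕ D_ε`, `D_ε` = the `β ε a`, `a ∈ FxR (bw F α) (twW W ε)` (`ind`, `spn`; `MulAut W` is finite), `D_ε D_δ ≤ D_(εδ)`,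
`nwh v D_ε ≤ D_ε`, and `b (nwh w) = nwh (ε w) b` for `b ∈ D_ε`, `w ∈ W`.
(1) Let `b ∈ N_c(B)`, `ε ≠ ε_c`.  The component `b_ε` of `b` satisfies `v b_ε = b_ε θ_c(v) = ε(θ_c v) b_ε`; the
homomorphism `h : v ↦ v⁻¹ ε(θ_c v)` of `V1` is not trivial, so it is bijective (`|V1| = ℓ`), and `h(v) b_ε = b_ε` gives
`v b_ε = b_ε` for all `v ∈ V1`.  SNL: `b_ε = ∑_v v b'`, and we may take `b' ∈ D_ε` (its component).
`∑_v v b' θ_c(v)⁻¹ = ∑_v v ε(θ_c v)⁻¹ b' = ∑_v h(v)⁻¹ b' = ∑_v v b'`: so `b_ε` is in `It F nwh i (θ c)`.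
(2) The component in `D_(ε_c)` of a trace `∑_v v b θ_c(v)⁻¹` is `∑_v v ε_c(θ_c(v))⁻¹ b_(ε_c) = ℓ b_(ε_c) = 0`; the component of
`v b - b` is `v b_(ε_c) - b_(ε_c)`.
(3) `q' c b = q c a` if `b_(ε_c) = β ε_c a`, `a ∈ N_c(A)`: well defined, because `q c` kills `Tr` (`SG.ker` for a family
supported at `c`), linear.  (To construct it: the graph; or a linear section `B → FxR (bw F α) (twW W ε_c)` of the
projection to `D_(ε_c)`.)
`sur`: `q' c (β ε_c a) = q c a`.  `ker`: `∑_c q' c (b_c) = ∑_c q c (a_c) = 0` iff all `a_c ∈ I_c(A)`.  If `a_c ∈ I_c(A)`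
then `β ε_c a_c ∈ I_c(B)` (a trace goes to `0`, `v a - a` to `v β a - β a`), and the other components of `b_c` are
in `I_c(B)` by (1).  If `b_c ∈ I_c(B)` then by (2) `β ε_c a_c = ∑ (v_j - 1) β ε_c (m_j)` with `m_j ∈ N_c(A)` (`m_j` from the
component of an element of `N_c(B)`), so `a_c - ∑ (v_j m_j - m_j)` is in `BKR`, and `a_c ∈ I_c(A)`.
`mul`: for `b ∈ N_c(B)`, `b' ∈ N_d(B)` the component of `b b'` in `ε_(cd)` is the sum of the `b_ε b'_δ`, `εδ = ε_(cd)`; for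
`ε ≠ ε_c`: `b_ε b'_δ = ∑_v v z`, `z ∈ D_(ε_(cd))`, and `q'` of it is `∑_v q'(v z) = ℓ q'(z) = 0` (`q c` kills `v a - a`);
the term `b_(ε_c) b'_(ε_d) = β (a a')` gives `q (c d) (a a') = q c a * q d a'`.  `one`: `1 = β 1 1`. -/
def SnwStmt : Prop := ∀ (ℓ : ℕ) [Fact ℓ.Prime] (F V V1 C A S B K : Type) [Field F] [CharP F ℓ]
  [CommGroup V] [Fintype V] [CommGroup V1] [Fintype V1] [CommGroup C] [Fintype C] [Ring A]
  [Algebra F A] [Ring S] [Algebra F S] [Ring B] [Algebra F B] [Fintype K] (α : V →* A)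
  (i : V1 →* V) (θ : C →* MulAut V1) (q : C → (A →ₗ[F] S)) (N : IsNW F α i.range B)
  (lam : B →ₗ[F] F) (x y : K → B), Nat.card V1 = ℓ → Function.Injective i →
  RF F N.nwh lam x y → SG F α i θ q →
  ∃ q' : C → (B →ₗ[F] S), SG F N.nwh i θ q'

/-- RCT: the groups.

Proof.  `U` from `Rtp`; `E'` is stable on `W`, `U`; an element `a = φ e` of `E'` which is trivial on `W` and fixes
some `u ≠ 1` in `U` is `1`.  `|W|` is a prime which divides a power of `ℓ`, so it is `ℓ`.  `Ctn`: `cop`: `|E'|`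
divides `|φ.range|`, which divides `|E|`.  `top`: `W ≠ ⊤` (`U ≠ ⊥`), `U ≠ ⊤`.  `up`, `st` clear (`Q.map a ≤ W` iff
`Q ≤ W`).  `cf`: `a` fixes `Q` pointwise, `Q` is not in `W` and not in `U`.  An element `x = w u ∈ Q` (`w ∈ W`, `u ∈ U`)
gives `a w = w`, `a u = u`.  There is `x ∈ Q` with `w ≠ 1` (`Q` not in `U`): `w` generates `W` (prime order), so
`a` is trivial on `W`; there is `x' ∈ Q` with `u' ≠ 1` (`Q` not in `W`), so `a = 1`.
`C` = the image of the restriction `E' → MulAut W` (a subgroup of `MulAut W`).  `W` is cyclic of order `ℓ`, `MulAut W` is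
isomorphic to the group of units of `ZMod ℓ` (`IsCyclic.mulAutMulEquiv` or so), a cyclic group, so `C` is cyclic
(`Subgroup.isCyclic`), commutative (`IsCyclic.commGroup`).  `θ` = the inclusion. -/
def RctStmt : Prop := ∀ (ℓ : ℕ) [Fact ℓ.Prime] (V E : Type) [CommGroup V] [Finite V] [Group E]
  [Finite E] (φ : E →* MulAut V) (W : Subgroup V) (E' : Subgroup (MulAut V)), IsPGroup ℓ V →
  ¬ ℓ ∣ Nat.card E → Rtp V E φ W → E' ≤ φ.range →
  Nat.card W = ℓ ∧ ∃ U : Subgroup V, W ⊓ U = ⊥ ∧ W ⊔ U = ⊤ ∧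
    (∀ e : E', ∀ u ∈ U, E'.subtype e u ∈ U) ∧
    Ctn ℓ E'.subtype (fun Q => ¬ Q ≤ W ∧ ¬ Q ≤ U) ∧
    ∃ (C : Type) (_ : CommGroup C) (_ : Fintype C) (_ : IsCyclic C) (θ : C →* MulAut W),
      (∀ c, θ c = 1 → c = 1) ∧ (∀ c, ∃ e : E', ∀ v : W, E'.subtype e (v : V) = (θ c v : V)) ∧
      ∀ e : E', ∃ c, ∀ v : W, E'.subtype e (v : V) = (θ c v : V)

/-- LRN: the dimension formula for the algebras in `Lc` (assembly).

Proof.  `PInN F E'.subtype NN α`, `NN Q = ¬ Q ≤ W ∧ ¬ Q ≤ U`, by LCP; the local conditions by LKC (`Ctn.cf`).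
`PFE.RinStmt` with `i = W.subtype` (its `W` is `U`). -/
def LrnStmt : Prop := ∀ (ℓ : ℕ) [Fact ℓ.Prime] (F V C A S S0 : Type) [Field F] [IsAlgClosed F]
  [CharP F ℓ] [CommGroup V] [Fintype V] [CommGroup C] [Fintype C] [IsCyclic C] [Ring A]
  [Algebra F A] [Ring S] [Algebra F S] [Ring S0] [Algebra F S0] (E' : Subgroup (MulAut V))
  (α : V →* A) (W U : Subgroup V) [Fintype W] (θ : C →* MulAut W) (q : C → (A →ₗ[F] S))
  (q0 : Unit → (A →ₗ[F] S0)), Nat.card W = ℓ → W ⊓ U = ⊥ → W ⊔ U = ⊤ →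
  (∀ e : E', ∀ u ∈ U, E'.subtype e u ∈ U) → Ctn ℓ E'.subtype (fun Q => ¬ Q ≤ W ∧ ¬ Q ≤ U) →
  (∀ c, θ c = 1 → c = 1) → (∀ c, ∃ e : E', ∀ v : W, E'.subtype e (v : V) = (θ c v : V)) →
  (∀ e : E', ∃ c, ∀ v : W, E'.subtype e (v : V) = (θ c v : V)) → Lc F E'.subtype α →
  SG F α W.subtype θ q → SG F α W.subtype (1 : Unit →* MulAut W) q0 →
  Module.finrank F (Subalgebra.center F A) = Module.finrank F (Subalgebra.center F S) +
    (ℓ - 1) / Fintype.card C * Module.finrank F (Subalgebra.center F S0)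

/-- BSR: the base case (assembly).

Proof.  RDL (`W` is `E`-stable).  For `E'`, `Y`, `Y'`, `αY`, `N : IsNW F αY W Y'`: RCT; SGX for `Y` (`i = W.subtype`,
`θ` and `1 : Unit →* MulAut W`): `S`, `q`, `S0`, `q0`.  LNW: `Y'` with `N.nwh` is in `Lc`, `Lc.frm` gives a relative
Frobenius system; SNW twice (rewrite `W` as `W.subtype.range`: generalise `W` or use
`Subgroup.range_subtype`): the models `q'`, `q0'` of `Y'`.  LRN for `Y` and for `Y'`. -/
def BsrStmt : Prop := BsgStmt Rtp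

end Pool.Agent.PSS.BR
end
end -- Pool.Agent.PSS.StmtsBR

section -- Pool.Agent.PST.StmtsGR

/-!
# Squad PST, block GR: from the steps to the group level

1. ATQ: the theorem for algebras from the steps STP, STQ and the base case BAS.
2. KNF, STK: from the class `KT` to the chains of `ATQ`; STO for `KT`.
3. MCA, LST, ADT: `KT` is admissible.  ECA: existence of the chain if `E` is abelian.
4. CLT, CAB, FNT: the final theorem.

Complete proofs in the docstrings; a row may take the rows which it uses as hypotheses.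
-/

open scoped BigOperators

noncomputable section

namespace Pool.Agent.PST

open Pool.Agent.Helper51_AWC Pool.Agent.Helper79_WRA Pool.Agent.PP Pool.Agent.PP.KF
open Pool.Agent.PP.K9 Pool.Agent.PP.K9.H97 Pool.Agent.PP.H75 Pool.Agent.PP.T3 Pool.Agent.PP.T2
open Pool.Agent.PFD (Ei)
open Pool.Agent.PSS

attribute [local instance] Ideal.Quotient.field

/-! ## 1. Algebras -/

/-- ATQ: the iteration.

Proof.  Edit of `PSS.ats` (`Pool/Agent/PSS/Ats.lean`): the step `n + 1` gives `W'`, `ψ'` and either `Y` with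
`Cyf φ Y W'` (use `stp`) or `Chf ℓ φ W'` (use `stq`, the same output). -/
def AtqRow : Prop := StpStmt → StqStmt → BasStmt → AtqStmt

/-! ## 2. The class KT and the chains -/

/-- KNF: from `ChA`, `Frw` to `Chn`, `Fre`.

Proof.  Claim by induction on `ChA ℓ E P W` (as `claim` in `Helper69_PSS/CYP.lean`): for every commutative
group `V₁`, `φ : E₁ →* MulAut V₁`, injective `i : V₁ →* V` with `i.range = P`, such that
`∀ x, ∃ a ∈ E, ∀ v, i (φ x v) = a (i v)`, there is `n` with `Chn ℓ n V₁ E₁ φ (W.comap i)`.  `refl`: `n = 0`.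
`step P P' W`: `W' = P'.comap i` (it is stable: `StA.st`), `ψ` the restriction of `φ` to `W'` (`rsh` in
`Helper69_PSS/CYP.lean`).  Cyclic case: `Cyf φ (Y.comap i) W'` (as in `claim` there; `Y ≤ P = i.range`).  Other
case: `Chf ℓ φ W'`: `pw` from `v ^ ℓ ∈ P'`, `fr`: `i (φ e v * v⁻¹) = a (i v) * (i v)⁻¹`; `ab`: `i` is
injective, `i (φ e (φ f v)) = a (b (i v))`.  `W.comap i ≤ W'` as `W ≤ P'` (an induction on `ChA`).  The
induction hypothesis for `W'`, `i.comp W'.subtype` (its range is `P'`, as `P' ≤ P`), and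
`W.comap (i.comp W'.subtype) = (W.comap i).subgroupOf W'`.  Apply the claim to `V₁ = V`, `i = id`, `P = ⊤`.
`ψ = rsh E.subtype W _` (`W = U ⊔ X` is stable), `Fre ψ` with `U.subgroupOf W`, `X.subgroupOf W`: as in the
last part of `cyp` there. -/
def KnfStmt : Prop := ∀ (ℓ : ℕ) (V : Type) [CommGroup V] [Finite V] (E : Subgroup (MulAut V))
  (W U X : Subgroup V), ChA ℓ E ⊤ W → Frw E W U X →
  ∃ (n : ℕ) (ψ : E →* MulAut W), Chn ℓ n V E E.subtype W ∧ IsRs E.subtype W ψ ∧ Fre ψ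

/-- STK: the input of the group level, for the class `KT`.

Proof.  Edit of `stoalg` (`Helper4_PSS/STO.lean`): `KnfStmt` instead of `CypStmt`, `AtqStmt` instead of
`AtsStmt` (hypotheses ClgStmt JnwStmt NwgStmt DzcStmt PFC.JexStmt as there, KnfStmt). -/
def StkStmt : Prop := AtqStmt → StoFor KT

/-! ## 3. The class is admissible -/

/-- MCA: the image of a chain.

Proof.  `W ≤ P'` for every intermediate `P'` (induction on `ChA`), so `π.ker ≤ P'`.  Induction on `ChA`: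
`StA ℓ E P P'` and `π.ker ≤ P'` imply `StA ℓ E' (P.map π) (P'.map π)`.  `st`: `Qr.lif`.  Cyclic case: `Y.map π`;
if `π y = π p'` then `y ∈ P' ker π = P'`, so `y = 1`; `(Y ⊔ P').map π = Y.map π ⊔ P'.map π`.  Other case:
`π v ∈ P'.map π` implies `v ∈ P'` (as `π.ker ≤ P'`); `a' (π v) = π (a v)`,
`a' (b' (π v)) = π (a (b v)) = π (b (a v))`. -/
def McaStmt : Prop := ∀ (ℓ : ℕ) (V V' : Type) [Group V] [Group V'] (E : Subgroup (MulAut V))
  (E' : Subgroup (MulAut V')) (π : V →* V'), Qr E E' π → ∀ P W : Subgroup V, ChA ℓ E P W →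
  π.ker ≤ W → ChA ℓ E' (P.map π) (W.map π)

/-- LST: a chain down to `1` can be stopped at a subgroup with a free action.

Proof.  Induction on `ChA ℓ E P ⊥` (generalise `⊥` to `W` with `W = ⊥`).  `refl`: `P = ⊥`, excluded.
`step P P' ⊥`: if `P' ≠ ⊥` use the induction hypothesis for `P'` (stable by `StA.st`) and `ChA.step`.  Let
`P' = ⊥`; `W = U = P`, `X = ⊥`, `ChA.refl`.  `fr`: let `a ∈ E` fix `u ≠ 1` in `P`.  Cyclic case: `P = Y` is cyclic
with the generator `y`, `a y = y ^ k`, `u = y ^ j`, so `a y = y` by `H49.fix_cyc` (`Helper49_PSS/TWN.lean`) and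
`a` fixes `P`.  Other case: `a u * u⁻¹ = 1 ∈ ⊥`, so `a w * w⁻¹ ∈ ⊥` for all `w ∈ P`. -/
def LstStmt : Prop := ∀ (ℓ : ℕ) (V : Type) [Group V] [Finite V] (E : Subgroup (MulAut V)),
  ℓ.Prime → IsPGroup ℓ V → ¬ ℓ ∣ Nat.card E → ∀ P : Subgroup V, P ≠ ⊥ →
  (∀ a ∈ E, ∀ u ∈ P, a u ∈ P) → ChA ℓ E P ⊥ → ∃ W U X : Subgroup V, ChA ℓ E P W ∧ Frw E W U X

/-- ADT: the class `KT` is admissible.

Proof.  As `H10.ads` (`Helper10_PSS/ADS.lean`, with the lemmas `qr_comm`, `qr_card`).  `nt`: `U ≤ W`, `U ≠ ⊥`.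
`st`: `W = U ⊔ X`.  `iso`: MCA for `π.toMonoidHom` (`π.ker = ⊥`, `(⊤ : Subgroup V).map π = ⊤`), and the
image of `Frw`.  `quo`: MCA gives `ChA ℓ E' ⊤ (W.map π) = ChA ℓ E' ⊤ ⊥` (`π.ker = W`); LST for `P = ⊤`
(`¬ ℓ ∣ Nat.card E'`: `qr_card`; `V'` is an `ℓ`-group: `IsPGroup.of_surjective`). -/
def AdtStmt : Prop := ∀ ℓ : ℕ, ℓ.Prime → Adm ℓ KT

/-- ECA: the chain for an abelian group of operators.

Proof.  Strong induction on `Nat.card P`.  (1) Suppose that there is no stable subgroup `Q` with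
`⊥ < Q < P`.  `W = U = P`, `X = ⊥`; if `a ∈ E` fixes `u ≠ 1` in `P` then `{v ∈ P | a v = v}` is a subgroup, stable
(`a (b v) = b (a v)`), not `⊥`, so it is `P`.  (2) Otherwise choose a stable `P'`, `⊥ < P' < P`, of maximal
order.  Every stable `Q` with `P' < Q ≤ P` is `P`.  `StA ℓ E P P'` (second case): the subgroup
`{v ∈ P | v ^ ℓ ∈ P'}` (`V` is commutative) is stable, contains `P'`, and is not `P'`: take `v ∈ P`, `v ∉ P'`, and
the least `k` with `v ^ (ℓ ^ k) ∈ P'` (`V` is an `ℓ`-group), `k ≥ 1`, and `v ^ (ℓ ^ (k - 1))`.  So it is `P`.  For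
`a ∈ E` the subgroup `{v ∈ P | a v * v⁻¹ ∈ P'}` is stable (`b (a v * v⁻¹) = a (b v) * (b v)⁻¹`) and contains `P'`;
if it contains some `v ∉ P'` then it is `P`.  Induction hypothesis for `P'`. -/
def EcaStmt : Prop := ∀ (ℓ : ℕ) (V : Type) [Group V] [Finite V] (E : Subgroup (MulAut V)),
  ℓ.Prime → ℓ ≠ 2 → IsPGroup ℓ V → (∀ a b : V, a * b = b * a) →
  (∀ a ∈ E, ∀ b ∈ E, ∀ v, a (b v) = b (a v)) → ∀ P : Subgroup V, P ≠ ⊥ →
  (∀ a ∈ E, ∀ u ∈ P, a u ∈ P) → ∃ W U X : Subgroup V, ChA ℓ E P W ∧ Frw E W U X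

/-! ## 4. The final theorem -/

/-- CLT: from the clean hypotheses to the class.

Proof.  As `H44.cln` (`Helper44_PSS/CLN.lean`): `E = Ei V γ`, `¬ ℓ ∣ Nat.card E`; every `a ∈ E` is induced by
some `t ∈ Tg V γ`, so a subgroup of `G` normalised by `Tg V γ` has a stable trace on `V`.  `p i =
(P i).subgroupOf V` for `i ≤ n` (`P i ≤ P 0 = V`), `StA ℓ E (p i) (p (i + 1))` for `i < n` (`Y.subgroupOf V`,
`Y ≤ P i ≤ V`; `(Y ⊔ P (i + 1)).subgroupOf V = Y.subgroupOf V ⊔ ..`: `Subgroup.subgroupOf_sup`;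
`a (b v) = s t v (s t)⁻¹`), `p 0 = ⊤`, so `ChA ℓ E ⊤ (p n)` (show
`ChA ℓ E (p i) (p n)` for `i ≤ n` by downward induction, or `∀ k ≤ n, ChA ℓ E (p (n - k)) (p n)`).  If
`P n = ⊥`: `p n = ⊥`, LST for `P = ⊤` (`V ≠ ⊥`).  If `P n ≠ ⊥`: `U ≠ ⊥`; `relEdf` in `Helper44_PSS/CLN.lean`
(from `PFD.EdfStmt`) for `U.subgroupOf V ≤ p n` gives `Frw E (p n) U' X'`. -/
def CltStmt : Prop := ∀ (ℓ : ℕ) [Fact ℓ.Prime] (M : Ideal (integralClosure ℤ ℂ)) [M.IsMaximal],
  (ℓ : integralClosure ℤ ℂ) ∈ M → ∀ (G : Type) [Group G] [Finite G] (e : G → FF M)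
  (V : Subgroup G) (γ : G → FF M), Ld ℓ e V γ → V ≠ ⊥ → ∀ (n : ℕ) (P : ℕ → Subgroup G)
  (U : Subgroup G), ClT ℓ (Tg V γ : Set G) V n P U → ∃ W₀ : Subgroup V, KT ℓ V (Ei V γ) W₀

/-- CAB: an abelian inertial quotient.

Proof.  ECA for `V`, `E = Ei V γ`, `P = ⊤` (`V ≠ ⊥`; `hL.tp.pg`; `hL.ab`): `a`, `b ∈ E` are induced by `s`, `t ∈
Tg V γ`, and `(s t) v (s t)⁻¹ = (t s) v (t s)⁻¹` because `s t = c t s` with `c = s t s⁻¹ t⁻¹ ∈ C(V)` and
`t s` normalises `V`. -/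
def CabStmt : Prop := ∀ (ℓ : ℕ) [Fact ℓ.Prime] (M : Ideal (integralClosure ℤ ℂ)) [M.IsMaximal],
  (ℓ : integralClosure ℤ ℂ) ∈ M → ℓ ≠ 2 → ∀ (G : Type) [Group G] [Finite G] (e : G → FF M)
  (V : Subgroup G) (γ : G → FF M), Ld ℓ e V γ → V ≠ ⊥ →
  (∀ s ∈ Tg V γ, ∀ t ∈ Tg V γ, s * t * s⁻¹ * t⁻¹ ∈ Subgroup.centralizer (V : Set G)) →
  ∃ W₀ : Subgroup V, KT ℓ V (Ei V γ) W₀

/-- FNT: the final theorem.

Proof.  Edit of `PSS.H66.fns` (`Helper66_PSS/Fns.lean`): hypotheses `MnnFor KT`, `CltStmt`, `CabStmt`,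
`T3.FltStmt`, `T3.PsgStmt`; `hTg` rewrites `Iner M D th` to `Tg D γ` in both cases. -/
def FntStmt : Prop := ∀ (ℓ : ℕ) [Fact ℓ.Prime] (M : Ideal (integralClosure ℤ ℂ)) [M.IsMaximal],
  (ℓ : integralClosure ℤ ℂ) ∈ M → ∀ (G : Type) [Group G] [Finite G],
  opCore ℓ G ≤ Subgroup.center G → ∀ χ ∈ Irr G, ∀ (H : Type) [Group H] (p : G →* H),
  Function.Surjective p → p.ker ≤ opCore ℓ G → ∀ ψ ∈ Irr H,
  (∀ g : G, Cong M (omega (MonoidHom.id G) (fun x => ψ (p x)) g)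
    (omega (MonoidHom.id G) χ g)) →
  ∀ D : Subgroup H, ML.IsDef ℓ M ψ D → D ≠ (opCore ℓ G).map p →
  (∀ x ∈ D, ∀ y ∈ D, x * y = y * x) →
  ∀ th ∈ IrrBlock M (Subgroup.centralizer (D : Set H)).subtype ψ,
  ((∃ (n : ℕ) (P : ℕ → Subgroup H) (U : Subgroup H), ClT ℓ (Iner M D th) D n P U) ∨
    (ℓ ≠ 2 ∧ ∀ s ∈ Iner M D th, ∀ t ∈ Iner M D th,
      s * t * s⁻¹ * t⁻¹ ∈ Subgroup.centralizer (D : Set H))) →
  altSum ℓ M χ = 0

end Pool.Agent.PST
end
end -- Pool.Agent.PST.StmtsGR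

section -- Pool.Agent.PST.StmtsGU

/-!
# Squad PST, block GU (helper3): the group level of the union with theorem (R)

* `Kt`: classes of pairs `(V, E)` (terminal classes), `AdT ℓ L`: closed under quotients; `YkFor L`: the
  alternating sum of every block with the defect group `V ≠ 1` and `(V, E)` in `L` is zero.  Example `LR`:
  abelian groups of rank at most two (`TW.rk2_blk`).
* `Kf L`: `W = V`, `(V, E) ∈ L`.
* `K3 L`: `V = C × W × U`, `C` is a direct product of `E`-stable groups of order `ℓ`, `|W| = ℓ`, `(U, E) ∈ L`,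
  and the centraliser in `E` of every factor of `C × W` acts freely on `U` (`Yu`).
* `KU K L`: the union of the admissible class `K` (`KS` or `KT`) with `Kf L`, `K3 L`.

1. YKR: the known theorem for `LR`.  YMT, LET, STT: from `YkFor L` to `StoFor (Kf L)`.
2. K3R, STR: `StoFor (K3 L)` from theorem (R) for algebras.
3. YUM, CYM, RSQ, SUI, SUQ, ADV: `KU K L` is admissible.
4. CLU: clean hypotheses.  FNK: the final theorem for a class `K`; FVS, KSK, FVT: the final theorems.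

Complete proofs in the docstrings; a row may take the rows which it uses as hypotheses.
-/

open scoped BigOperators

noncomputable section

namespace Pool.Agent.PST.GU

open Pool.Agent.Helper51_AWC Pool.Agent.Helper79_WRA Pool.Agent.PP Pool.Agent.PP.KF
open Pool.Agent.PP.K9 Pool.Agent.PP.K9.H97 Pool.Agent.PP.H75 Pool.Agent.PP.T3 Pool.Agent.PP.T2
open Pool.Agent.PFD (Ei)
open Pool.Agent.PSS

attribute [local instance] Ideal.Quotient.field

/-! ## Definitions -/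

/-- a class of pairs `(V, E)`, for every prime `ℓ` -/
abbrev Kt : Type 1 := ℕ → ∀ (V : Type) [Group V], Subgroup (MulAut V) → Prop

/-- the class is closed under isomorphisms, subgroups of `E` and quotients -/
structure AdT (ℓ : ℕ) (L : Kt) : Prop where
  iso : ∀ (V V' : Type) [Group V] [Group V'] (E : Subgroup (MulAut V)) (E' : Subgroup (MulAut V'))
    (π : V ≃* V'), Qr E E' π.toMonoidHom → L ℓ V E → L ℓ V' E'
  quo : ∀ (V V' : Type) [Group V] [Finite V] [Group V'] [Finite V'] (E : Subgroup (MulAut V))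
    (E' : Subgroup (MulAut V')) (π : V →* V'), IsPGroup ℓ V → ¬ ℓ ∣ Nat.card E →
    (∀ a b : V, a * b = b * a) → Qr E E' π → L ℓ V E → (∃ v : V', v ≠ 1) → L ℓ V' E'

/-- the theorem is known for the class `L` -/
def YkFor (L : Kt) : Prop := ∀ (ℓ : ℕ) [Fact ℓ.Prime] (M : Ideal (integralClosure ℤ ℂ))
  [M.IsMaximal], (ℓ : integralClosure ℤ ℂ) ∈ M → ∀ (G : Type) [Group G] [Finite G]
  (e : G → FF M) (V : Subgroup G) (γ : G → FF M), Ld ℓ e V γ → V ≠ ⊥ → L ℓ V (Ei V γ) →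
  YY ℓ ⊤ e = 0

/-- the conclusion of YMT -/
def MntFor (L : Kt) : Prop := ∀ (ℓ : ℕ) [Fact ℓ.Prime] (M : Ideal (integralClosure ℤ ℂ))
  [M.IsMaximal], (ℓ : integralClosure ℤ ℂ) ∈ M → ∀ (G : Type) [Group G] [Finite G]
  (e : G → FF M) (V : Subgroup G) (γ : G → FF M), Ld ℓ e V γ → L ℓ V (Ei V γ) →
  ∀ (A : Type) [Group A] [Finite A] (p : G →* A), Function.Surjective p → p.ker ≤ V →
  p.ker ≠ V → YY ℓ ⊤ (push p e) = 0

/-- the conclusion of LET -/
def LetFor (L : Kt) : Prop := ∀ (ℓ : ℕ) [Fact ℓ.Prime] (M : Ideal (integralClosure ℤ ℂ))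
  [M.IsMaximal], (ℓ : integralClosure ℤ ℂ) ∈ M → ∀ (G : Type) [Group G] [Finite G]
  (e : G → FF M) (V : Subgroup G) (γ : G → FF M), Ld ℓ e V γ → L ℓ V (Ei V γ) →
  ln e = ln (fun t : Subgroup.normalizer (V : Set G) => br V e t)

/-- the terminal class as a class of triples: `W = V` -/
def Kf (L : Kt) : Kl := fun ℓ V _ E W => W = ⊤ ∧ W ≠ ⊥ ∧ L ℓ V E

/-- abelian `ℓ`-groups of rank at most two -/
def LR : Kt := fun ℓ V _ _ => TW.R2 ℓ V

/-- the automorphisms of the stable subgroup `U` which are induced by elements of `E` -/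
def rse {V : Type} [Group V] (E : Subgroup (MulAut V)) (U : Subgroup V) :
    Subgroup (MulAut U) where
  carrier := {a' | ∃ a ∈ E, ∀ u : U, ((a' u : U) : V) = a u}
  one_mem' := ⟨1, E.one_mem, fun _ => rfl⟩
  mul_mem' := by
    rintro x y ⟨a, ha, h1⟩ ⟨b, hb, h2⟩
    refine ⟨a * b, E.mul_mem ha hb, fun u => ?_⟩
    rw [MulAut.mul_apply, MulAut.mul_apply, h1, h2]
  inv_mem' := by
    rintro x ⟨a, ha, h1⟩
    refine ⟨a⁻¹, E.inv_mem ha, fun u => ?_⟩
    have h2 : x (x⁻¹ u) = u := by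
      rw [← MulAut.mul_apply, mul_inv_cancel, MulAut.one_apply]
    have h3 := h1 (x⁻¹ u)
    rw [h2] at h3
    rw [h3, ← MulAut.mul_apply, inv_mul_cancel, MulAut.one_apply]

/-- `Y` is `E`-stable of order `ℓ`, and its centraliser in `E` acts freely on `U` -/
structure Yu (ℓ : ℕ) {V : Type} [Group V] (E : Subgroup (MulAut V)) (U Y : Subgroup V) :
    Prop where
  cd : Nat.card Y = ℓ
  st : ∀ a ∈ E, ∀ y ∈ Y, a y ∈ Y
  fr : ∀ a ∈ E, (∀ y ∈ Y, a y = y) → ∀ u ∈ U, u ≠ 1 → a u = u → ∀ x ∈ U, a x = x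

/-- a direct product of subgroups `Y` with `Yu` -/
inductive Cyu (ℓ : ℕ) {V : Type} [Group V] (E : Subgroup (MulAut V)) (U : Subgroup V) :
    Subgroup V → Prop
  | bot : Cyu ℓ E U ⊥
  | mul (C Y : Subgroup V) : Cyu ℓ E U C → Yu ℓ E U Y → C ⊓ Y = ⊥ → Cyu ℓ E U (C ⊔ Y)

/-- `V = C × W × U` -/
structure Su (L : Kt) (ℓ : ℕ) {V : Type} [Group V] (E : Subgroup (MulAut V))
    (C W U : Subgroup V) : Prop where
  ab : ∀ a b : V, a * b = b * a
  cy : Cyu ℓ E U C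
  yw : Yu ℓ E U W
  su : ∀ a ∈ E, ∀ u ∈ U, a u ∈ U
  nt : U ≠ ⊥
  cw : C ⊓ W = ⊥
  cu : (C ⊔ W) ⊓ U = ⊥
  jn : C ⊔ W ⊔ U = ⊤
  tm : L ℓ U (rse E U)

/-- the class of theorem (R) over the terminal class `L` -/
def K3 (L : Kt) : Kl := fun ℓ _ _ E W => ∃ C U, Su L ℓ E C W U

/-- the union -/
def KU (K : Kl) (L : Kt) : Kl := fun ℓ V _ E W => K ℓ V E W ∨ Kf L ℓ V E W ∨ K3 L ℓ V E W

/-- The clean hypotheses: `D` is the direct product of the subgroups `Y i` of order `ℓ` and of `U`, which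
has two generators, all factors are normalised by `T`, and an element of `T` which centralises some `Y i`
and commutes with some `u ≠ 1` in `U` centralises `U`. -/
structure ClU (ℓ : ℕ) {H : Type} [Group H] (T : Set H) (D : Subgroup H) (s : ℕ)
    (Y : Fin s → Subgroup H) (U : Subgroup H) : Prop where
  jn : (⨆ i, Y i) ⊔ U = D
  dy : ∀ i, Y i ⊓ (⨆ j, ⨆ (_ : j < i), Y j) = ⊥
  du : (⨆ i, Y i) ⊓ U = ⊥
  cd : ∀ i, Nat.card (Y i) = ℓ
  gn : ∃ x y : H, U = Subgroup.closure {x, y}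
  sy : ∀ i, ∀ t ∈ T, ∀ y ∈ Y i, t * y * t⁻¹ ∈ Y i
  su : ∀ t ∈ T, ∀ u ∈ U, t * u * t⁻¹ ∈ U
  fr : ∀ i, ∀ t ∈ T, (∀ y ∈ Y i, t * y = y * t) → ∀ u ∈ U, u ≠ 1 → t * u = u * t →
    t ∈ Subgroup.centralizer (U : Set H)

/-! ## 1. Terminal classes -/

/-- YKR: the known theorem for the groups of rank at most two.

Proof.  `TW.rk2_blk` (`Pool/Agent/ATW/Rank2b.lean`) with `hT := fun ℓ => TW.tt_ ℓ` (`ATW/AsmT.lean`; a
hypothesis `∀ ℓ [Fact ℓ.Prime], TW.Tt ℓ` is also fine) and `hS : SE.S2fStmt` (hypothesis, or `SE.s2f_`,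
`Helper98_ASE/Asm.lean`).  `Pos ℓ e ⊤`: `T3.PosStmt` (`V ≠ ⊥`, `hL.tp.pg`, `hL.tp.gd`). -/
def YkrStmt : Prop := YkFor LR

/-- ADR: the class of the groups of rank at most two is closed under quotients.

Proof.  `iso`: `TW.r2_subCl ℓ` for `π.symm`.  `quo`: `V` is commutative; `TW.gen_of`: two generators
`x`, `y` of `V`; `π x`, `π y` generate `V'`; `TW.ncard_le`; `V'` is finite, commutative, an `ℓ`-group
(`IsPGroup.of_surjective`).  (`ℓ` is a prime.) -/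
def AdrStmt : Prop := ∀ ℓ : ℕ, ℓ.Prime → AdT ℓ LR

/-- YMT: the images of a block under `G → G/Q`, `Q < V`.

Proof.  `PFD.YadStmt` (as in `Helper16_PSS/MNN.lean`) for `p`, `e`: let `f` be a block of `A`,
`mulF (push p e) f = f`.  `QrqStmt` for `W = p.ker` (normal, `≤ V`): `γ'`, `π : V →* V.map p` with
`π.ker = p.ker.subgroupOf V`, `Qr (Ei V γ) (Ei (V.map p) γ') π`.  `V.map p ≠ ⊥` because `p.ker ≠ V` (if `V.map p = ⊥`
then `V ≤ p.ker`).  `AdT.quo` (`¬ ℓ ∣ Nat.card (Ei V γ)`: as in the case `W` normal in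
`Helper11_PSS/LEN.lean`, from `PFD.LkeStmt`, `K9.InxStmt`), `YkFor L`. -/
def YmtStmt : Prop := ∀ L : Kt, (∀ ℓ : ℕ, ℓ.Prime → AdT ℓ L) → YkFor L → MntFor L

/-- LET: the number of modular characters.

Proof.  As `Helper16_PSS/MNN.lean` for `A = G`, `p = MonoidHom.id G`.  `V = ⊥`: see the first case in
`Helper11_PSS/LEN.lean`.  `V ≠ ⊥`: `YY ℓ ⊤ e = 0` by `MntFor L` for the identity (`p.ker = ⊥ ≠ V`;
`push id e = e`, or work with `push (MonoidHom.id G) e`).  `hY`: for an `ℓ`-subgroup `R ≠ ⊥`, `Nat.card R < Nat.card V`,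
`YQ ℓ e R = 0`: YAD, BNR and the class of `(conjS g V).subgroupOf N(R)` as in MNN (QRJ, QRX, `AdT.iso`), and
instead of the induction hypothesis `MntFor L` for `N(R)`, `c` and `N(R) → N(R)/R`.  `PFD.ChrStmt`:
`0 = YY ℓ ⊤ (push p e) = |A| (ln e - ln (br_V e|N(V)))`, so `ln e = ln ..` (`|A| ≠ 0`). -/
def LetStmt : Prop := ∀ L : Kt, (∀ ℓ : ℕ, ℓ.Prime → AdT ℓ L) → MntFor L → LetFor L

/-- STT: the numbers of ordinary characters (`W = V`, `N(W) = N(V)`).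

Proof.  `Kf L`: `(W.subgroupOf V) = ⊤`, so `W = V`; `subst`.  Let `N = N(V)`, `c` as in `StoFor`.  The reverse of the
case `W` not normal of `Helper11_PSS/LEN.lean`: `TW.StaStmt` for `e` and for `c`: `b`, `b'`; KSM for both: `iz
|Irr e| = ∑_v cz(v) ln (b v)`, `iz' |Irr c| = ∑_v' cz'(v') ln (b' v')`; `iz = iz'`, `cz' = cz` (IZX for `X = N ≥ Tg V
γ`: `T` normalises `V`).  For every `v ∈ V`: `ln (b v) = lnum (Tg V γ ⊓ Cu v) γ` (the lemma `claim` of LEN, with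
`LetFor L` instead of the induction hypothesis: LSB, QRX, `AdT.iso`, FRT, LTX), and in the same way
`ln (b' (π v)) = lnum (Tg V γ ⊓ Cu v) γ` (`hK2` there).  So `iz |Irr e| = iz |Irr c|`, `iz > 0`. -/
def SttStmt : Prop := ∀ L : Kt, (∀ ℓ : ℕ, ℓ.Prime → AdT ℓ L) → LetFor L → StoFor (Kf L)

/-! ## 2. The input from theorem (R) -/

/-- the property of `AtgStmt Rtp` as a property of `(V, E, W)` -/
def Rt3 : PrV := fun V E _ _ φ W => ∃ (n : ℕ) (T : Subgroup V) (ψ : E →* MulAut T), W ≤ T ∧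
  (∀ e : E, ∀ w ∈ W, φ e w ∈ W) ∧ Cyp n V E φ T ∧ IsRs φ T ψ ∧
  BR.Rtp T E ψ (W.subgroupOf T)

/-- K3R: from the class `K3 L` to the property `Rt3`.

Proof.  `C`, `U` with `Su L ℓ E C W U`; `letI` the structure of a commutative group is given.  `Cyc E C`: by
induction on `Cyu ℓ E U C` (a group of prime order is cyclic: `isCyclic_of_prime_card`; `ℓ` is a prime).
`T = W ⊔ U`, stable; `C ⊓ T = ⊥` (`c = w u` implies `u = w⁻¹ c ∈ (C ⊔ W) ⊓ U = ⊥`, `c = w ∈ C ⊓ W = ⊥`), `C ⊔ T = ⊤`.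
`H69.claim` (`Helper69_PSS/CYP.lean`) for `V₁ = V`, `i = id`, `W₁ = T` (see `H69.cyp` there): `n` with `Cyp n V E
E.subtype T`.  `ψ = H69.rsh E.subtype T _`.  `Rtp T E ψ (W.subgroupOf T)`: `Nat.card (W.subgroupOf T) = ℓ`; the
complement `U.subgroupOf T` (`W ⊓ U = ⊥`, as in `H69.cyp`), not `⊥`; stable; if `e` is trivial on `W` and
fixes `u ≠ 1` in `U` then it is trivial on `U` (`Yu.fr`) and so on `T = W ⊔ U`. -/
def K3rStmt : Prop := ∀ (L : Kt) (ℓ : ℕ) (V : Type) [CommGroup V] [Finite V]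
  (E : Subgroup (MulAut V)) (W : Subgroup V), ℓ.Prime → IsPGroup ℓ V → ¬ ℓ ∣ Nat.card E →
  K3 L ℓ V E W → Rt3 V E E.subtype W

/-- STR: the input of the group level for the class `K3 L`.

Proof.  `AllS6.stogen_ Rt3 (K3 L)` (`Pool/Agent/PSS/AllS6.lean`): its first hypothesis is K3R (if `ℓ` is not
available as a prime there: from `Yu.cd`, `Nat.card W = ℓ`, `W ≤ V`, `IsPGroup ℓ V` one gets `ℓ = 1` or a prime;
see the note below), `BsgStmt Rt3` from `AtgStmt BR.Rtp`: unfold.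

Note: `stogen_` has the hypothesis `∀ ℓ V E W, IsPGroup ℓ V → ¬ ℓ ∣ Nat.card E → K ℓ V E W → P V E E.subtype W` without
`ℓ.Prime`.  Apply it to the class `K' := fun ℓ V _ E W => ℓ.Prime ∧ K3 L ℓ V E W`; `StoFor K'` implies `StoFor (K3 L)`
(`StoFor` has `[Fact ℓ.Prime]`). -/
def StrStmt : Prop := AtgStmt BR.Rtp → ∀ L : Kt, StoFor (K3 L)

/-! ## 3. The union is admissible -/

/-- YUM: the image of a factor.

Proof.  `π` is injective on `Y ⊔ U` (kernel `⊥`).  `cd`: `Y ≃ Y.map π`.  `st`: `Qr.lif`.  `fr`: `a'` is induced by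
`a ∈ E`; if `a'` is trivial on `π(Y)` then `π (a y) = π y`, `a y ∈ Y`, so `a y = y`; in the same way for `U`. -/
def YumStmt : Prop := ∀ (ℓ : ℕ) (V V' : Type) [Group V] [Group V'] (E : Subgroup (MulAut V))
  (E' : Subgroup (MulAut V')) (π : V →* V'), Qr E E' π → ∀ U Y : Subgroup V,
  (∀ a ∈ E, ∀ u ∈ U, a u ∈ U) → Yu ℓ E U Y → Y ⊓ π.ker = ⊥ → U ⊓ π.ker = ⊥ →
  Yu ℓ E' (U.map π) (Y.map π)

/-- CYM: the image of a product, and the last factor.

Proof.  (1) Induction on `Cyu`: `(C ⊔ Y).map π = C.map π ⊔ Y.map π`; YUM (`Y ≤ C ⊔ Y`, so `Y ⊓ π.ker = ⊥`);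
`C.map π ⊓ Y.map π = ⊥`: `π c = π y` gives `c⁻¹ y ∈ (C ⊔ Y) ⊓ π.ker = ⊥`, `c = y ∈ C ⊓ Y = ⊥`.  (2) Cases. -/
def CymStmt : Prop := (∀ (ℓ : ℕ) (V V' : Type) [Group V] [Group V'] (E : Subgroup (MulAut V))
    (E' : Subgroup (MulAut V')) (π : V →* V'), Qr E E' π → ∀ U : Subgroup V,
    (∀ a ∈ E, ∀ u ∈ U, a u ∈ U) → U ⊓ π.ker = ⊥ → ∀ C : Subgroup V, Cyu ℓ E U C →
    C ⊓ π.ker = ⊥ → Cyu ℓ E' (U.map π) (C.map π)) ∧
  ∀ (ℓ : ℕ) (V : Type) [Group V] (E : Subgroup (MulAut V)) (U C : Subgroup V), Cyu ℓ E U C →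
    C ≠ ⊥ → ∃ C₁ Y₁ : Subgroup V, Cyu ℓ E U C₁ ∧ Yu ℓ E U Y₁ ∧ C₁ ⊓ Y₁ = ⊥ ∧ C₁ ⊔ Y₁ = C

/-- RSQ: the image of the stable subgroup `U`, `π` injective on `U`.

Proof.  `U ≃* U.map π` (`Subgroup.equivMapOfInjective` needs `π` injective; use `MulEquiv.ofBijective` of the
restriction `U → U.map π`).  `lif`: let `b' ∈ rse E' (U.map π)`, induced by `a' ∈ E'`, which is induced by
`a ∈ E`; `a` stabilises `U`, its restriction to `U` (an automorphism: the inverse is the restriction of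
`a⁻¹`) is in `rse E U` and induces `b'`. -/
def RsqStmt : Prop := ∀ (V V' : Type) [Group V] [Group V'] (E : Subgroup (MulAut V))
  (E' : Subgroup (MulAut V')) (π : V →* V'), Qr E E' π → ∀ U : Subgroup V,
  (∀ a ∈ E, ∀ u ∈ U, a u ∈ U) → U ⊓ π.ker = ⊥ →
  ∃ τ : U ≃* U.map π, (∀ u : U, ((τ u : U.map π) : V') = π u) ∧
    Qr (rse E U) (rse E' (U.map π)) τ.toMonoidHom

/-- SUI: the image of the decomposition under an isomorphism.

Proof.  `ab`: `π` is bijective.  CYM (1), YUM (`π.ker = ⊥`), `su`: `Qr.lif`; `nt`, `cw`, `cu`, `jn`: maps of `⊓`, `⊔` under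
an injective homomorphism (`Subgroup.map_inf_eq`, `Subgroup.map_sup`); `tm`: RSQ and `AdT.iso`. -/
def SuiStmt : Prop := ∀ (L : Kt) (ℓ : ℕ), AdT ℓ L → ∀ (V V' : Type) [Group V] [Group V']
  (E : Subgroup (MulAut V)) (E' : Subgroup (MulAut V')) (π : V ≃* V'), Qr E E' π.toMonoidHom →
  ∀ C W U : Subgroup V, Su L ℓ E C W U →
  Su L ℓ E' (C.map π.toMonoidHom) (W.map π.toMonoidHom) (U.map π.toMonoidHom)

/-- SUQ: the quotient by `W`.

Proof.  `π.ker = W`.  First `C ⊓ W = ⊥`, `U ⊓ W = ⊥`, `(C ⊔ U) ⊓ W = ⊥` (`w = c u` gives `u = c⁻¹ w ∈ (C ⊔ W) ⊓ U = ⊥`,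
`w = c ∈ C ⊓ W = ⊥`).  (1) `C = ⊥`: `V = W ⊔ U`, so `U.map π = ⊤`.  RSQ: `τ : U ≃* U.map π`; the inclusion of
`U.map π = ⊤` in `V'` gives an isomorphism `U ≃* V'` with `Qr (rse E U) E' _` (surjective; `a' ∈ E'` is induced by
`a ∈ E`, and by the restriction of `a` to `U`), `AdT.iso`: `L ℓ V' E'`; so `Kf L ℓ V' E' ⊤` (`⊤ ≠ ⊥` by hypothesis).
(2) `C ≠ ⊥`: CYM (2): `C₁`, `Y₁`; `Su L ℓ E' (C₁.map π) (Y₁.map π) (U.map π)`: `ab` (surjective), CYM (1), YUM, `su`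
(`Qr.lif`), `nt` (`U ⊓ π.ker = ⊥`), `cw`: `π c = π y` gives `c⁻¹ y ∈ C ⊓ W = ⊥`; `cu`: `π (c y) = π u` gives
`(c y)⁻¹ u ∈ (C ⊔ U) ⊓ W = ⊥`, so `u ∈ (C ⊔ W) ⊓ U = ⊥`; `jn`: `⊤ = (C ⊔ W ⊔ U).map π`, `W.map π = ⊥`; `tm`: RSQ, `AdT.iso`. -/
def SuqStmt : Prop := ∀ (L : Kt) (ℓ : ℕ), AdT ℓ L → ∀ (V V' : Type) [Group V] [Group V']
  (E : Subgroup (MulAut V)) (E' : Subgroup (MulAut V')) (π : V →* V'), Qr E E' π →
  ∀ C W U : Subgroup V, Su L ℓ E C W U → π.ker = W → (∃ v : V', v ≠ 1) →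
  ∃ W' : Subgroup V', Kf L ℓ V' E' W' ∨ K3 L ℓ V' E' W'

/-- ADV: the union is admissible.

Proof.  `nt`: `Adm.nt`; `Kf`: clear; `K3`: `Nat.card W = ℓ ≠ 1`.  `st`: `Adm.st`; `W = ⊤`; `Yu.st`.  `iso`: `Adm.iso`; `Kf`:
`(⊤ : Subgroup V).map π = ⊤`, not `⊥`, `AdT.iso`; SUI.  `quo`: `Adm.quo`; `Kf`: `π.ker = ⊤` contradicts the
existence of `v ≠ 1` in `V'` (`Qr.sur`); SUQ. -/
def AdvStmt : Prop := ∀ (K : Kl) (L : Kt) (ℓ : ℕ), ℓ.Prime → Adm ℓ K → AdT ℓ L →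
  Adm ℓ (KU K L)

/-! ## 4. The final theorems -/

/-- CLU: from the clean hypotheses to the class.

Proof.  `U = ⊥`: `ClnStmt` for `s`, `Y`, `W = ⊥`, `U = ⊥` (a group of prime order is cyclic; `fr` is empty):
`KS`.  `U ≠ ⊥`: `E = Ei V γ`; every `a ∈ E` is induced by some `t ∈ Tg V γ`, so the traces `y i = (Y i).subgroupOf V`,
`u = U.subgroupOf V` are stable (as in `H44.cln`, `Helper44_PSS/CLN.lean`).  `Yu ℓ E u (y i)`: an automorphism induced by
`t` is trivial on `y i` iff `t` commutes with `Y i`.  `Cyu ℓ E u (⨆ i < n, y i)` for `n ≤ s` by induction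
(as there).  `LR`: `U` has two generators, `TW.ncard_le`.  `s = 0`: `u = ⊤`, `Kf LR`, `W₀ = ⊤` (`LR ℓ V E`
does not depend on `E`; `V = U`).  `s = n + 1`: `W₀` = the last `y i`, `C` = the product of the others. -/
def CluStmt : Prop := ∀ (ℓ : ℕ) [Fact ℓ.Prime] (M : Ideal (integralClosure ℤ ℂ)) [M.IsMaximal],
  (ℓ : integralClosure ℤ ℂ) ∈ M → ∀ (G : Type) [Group G] [Finite G] (e : G → FF M)
  (V : Subgroup G) (γ : G → FF M), Ld ℓ e V γ → V ≠ ⊥ → ∀ (s : ℕ) (Y : Fin s → Subgroup G)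
  (U : Subgroup G), ClU ℓ (Tg V γ : Set G) V s Y U → ∃ W₀ : Subgroup V, KU KS LR ℓ V (Ei V γ) W₀

/-- FNK: the final theorem for a class `K`.

Proof.  As `PSS.H66.fns` (`Helper66_PSS/Fns.lean`): `hTg` is the hypothesis of `hK`; hypotheses `T3.FltStmt`,
`T3.PsgStmt`. -/
def FnkStmt : Prop := ∀ K : Kl, MnnFor K → ∀ (ℓ : ℕ) [Fact ℓ.Prime]
  (M : Ideal (integralClosure ℤ ℂ)) [M.IsMaximal],
  (ℓ : integralClosure ℤ ℂ) ∈ M → ∀ (G : Type) [Group G] [Finite G],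
  opCore ℓ G ≤ Subgroup.center G → ∀ χ ∈ Irr G, ∀ (H : Type) [Group H] [Finite H] (p : G →* H),
  Function.Surjective p → p.ker ≤ opCore ℓ G → ∀ ψ ∈ Irr H,
  (∀ g : G, Cong M (omega (MonoidHom.id G) (fun x => ψ (p x)) g)
    (omega (MonoidHom.id G) χ g)) →
  ∀ D : Subgroup H, ML.IsDef ℓ M ψ D → D ≠ (opCore ℓ G).map p →
  (∀ x ∈ D, ∀ y ∈ D, x * y = y * x) →
  ∀ th ∈ IrrBlock M (Subgroup.centralizer (D : Set H)).subtype ψ,
  (∀ e γ : H → FF M, Ld ℓ e D γ → (Tg D γ : Set H) = Iner M D th → D ≠ ⊥ →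
    ∃ W₀ : Subgroup D, K ℓ D (Ei D γ) W₀) →
  altSum ℓ M χ = 0

/-- FVS: the final theorem for the union of (A) + (S) and (R).

Proof.  FNK for `K = KU KS LR`; `ClnStmt` (class `KS`), CLU. -/
def FvsStmt : Prop := ∀ (ℓ : ℕ) [Fact ℓ.Prime] (M : Ideal (integralClosure ℤ ℂ)) [M.IsMaximal],
  (ℓ : integralClosure ℤ ℂ) ∈ M → ∀ (G : Type) [Group G] [Finite G],
  opCore ℓ G ≤ Subgroup.center G → ∀ χ ∈ Irr G, ∀ (H : Type) [Group H] (p : G →* H),
  Function.Surjective p → p.ker ≤ opCore ℓ G → ∀ ψ ∈ Irr H,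
  (∀ g : G, Cong M (omega (MonoidHom.id G) (fun x => ψ (p x)) g)
    (omega (MonoidHom.id G) χ g)) →
  ∀ D : Subgroup H, ML.IsDef ℓ M ψ D → D ≠ (opCore ℓ G).map p →
  (∀ x ∈ D, ∀ y ∈ D, x * y = y * x) →
  ∀ th ∈ IrrBlock M (Subgroup.centralizer (D : Set H)).subtype ψ,
  ((∃ (s : ℕ) (Y : Fin s → Subgroup H) (W U : Subgroup H), Cln (Iner M D th) D s Y W U) ∨
    ∃ (s : ℕ) (Y : Fin s → Subgroup H) (U : Subgroup H), ClU ℓ (Iner M D th) D s Y U) →
  altSum ℓ M χ = 0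

/-- KSK: the class (A) + (S) is contained in the class (S+).

Proof.  `Cyc E C`, `C ⊓ W = ⊥` imply `ChA ℓ E (C ⊔ W) W` for every stable `W` (commutative `V`), by induction
on `Cyc`: `bot`: `refl`; `mul C Y`: `(C ⊔ Y) ⊔ W = Y ⊔ (C ⊔ W)`, `step` with `P' = C ⊔ W` (stable; `Y ⊓ (C ⊔ W) = ⊥`:
`y = c w` gives `w ∈ (C ⊔ Y) ⊓ W = ⊥`, `y = c ∈ C ⊓ Y = ⊥`), then the induction hypothesis.  `Frw` from `Sx`. -/
def KskStmt : Prop := ∀ (ℓ : ℕ) (V : Type) [Group V] (E : Subgroup (MulAut V)) (W : Subgroup V),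
  KS ℓ V E W → KT ℓ V E W

/-- FVT: the final theorem for the union of (S+) and (R).

Proof.  FNK for `K = KU KT LR`; `CltStmt`, `CabStmt`; CLU gives `KU KS LR`, and KSK. -/
def FvtStmt : Prop := ∀ (ℓ : ℕ) [Fact ℓ.Prime] (M : Ideal (integralClosure ℤ ℂ)) [M.IsMaximal],
  (ℓ : integralClosure ℤ ℂ) ∈ M → ∀ (G : Type) [Group G] [Finite G],
  opCore ℓ G ≤ Subgroup.center G → ∀ χ ∈ Irr G, ∀ (H : Type) [Group H] (p : G →* H),
  Function.Surjective p → p.ker ≤ opCore ℓ G → ∀ ψ ∈ Irr H,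
  (∀ g : G, Cong M (omega (MonoidHom.id G) (fun x => ψ (p x)) g)
    (omega (MonoidHom.id G) χ g)) →
  ∀ D : Subgroup H, ML.IsDef ℓ M ψ D → D ≠ (opCore ℓ G).map p →
  (∀ x ∈ D, ∀ y ∈ D, x * y = y * x) →
  ∀ th ∈ IrrBlock M (Subgroup.centralizer (D : Set H)).subtype ψ,
  ((∃ (n : ℕ) (P : ℕ → Subgroup H) (U : Subgroup H), ClT ℓ (Iner M D th) D n P U) ∨
    (ℓ ≠ 2 ∧ ∀ s ∈ Iner M D th, ∀ t ∈ Iner M D th,
      s * t * s⁻¹ * t⁻¹ ∈ Subgroup.centralizer (D : Set H)) ∨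
    ∃ (s : ℕ) (Y : Fin s → Subgroup H) (U : Subgroup H), ClU ℓ (Iner M D th) D s Y U) →
  altSum ℓ M χ = 0

end Pool.Agent.PST.GU
end
end -- Pool.Agent.PST.StmtsGU

section -- Pool.Agent.PST.StmtsGV

/-!
# Squad PST, block GV (helper3): the group level of the union of (S++) with theorem (R)

`V = P × U`, `E` commutative on `P`, `P` has an `E`-stable series `1 < W < .. < P` with factors of order `ℓ`
whose centralisers in `E` act freely on `U`, `(U, E)` in the terminal class `L` (`Kt`, `StmtsGU.lean`; `LR` =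
rank at most two): the class `K4 L`.  `V` has a chain of steps `StB` (`DefsGS.lean`) down to
`T = W × U`, and theorem (R) (`BR.Rtp`, `PSS/StmtsBR.lean`) is the base case.

1. AGQ: the generic iteration.  RGV, ECG, KNH: the chain.  K4R, STV: `StoFor (K4 L)`.
2. SRQ, SVI, SVQ, ADW: the class `KV K L` = `K` or `Kf L` or `K4 L` is admissible.
3. SRY: the series of a cyclic factor.  CLV: clean hypotheses.  FVX: the final theorem.

Complete proofs in the docstrings; a row may take the rows which it uses as hypotheses.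
-/

open scoped BigOperators

noncomputable section

namespace Pool.Agent.PST.GU

open Pool.Agent.Helper51_AWC Pool.Agent.Helper79_WRA Pool.Agent.PP Pool.Agent.PP.KF
open Pool.Agent.PP.K9 Pool.Agent.PP.K9.H97 Pool.Agent.PP.H75 Pool.Agent.PP.T3 Pool.Agent.PP.T2
open Pool.Agent.PFD (Ei)
open Pool.Agent.PSS

attribute [local instance] Ideal.Quotient.field

/-! ## Definitions -/

/-- one step of the series: `Q'` is stable, `|Q' : Q| = ℓ`, and the centraliser of `Q' / Q` in `E` acts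
freely on `U` -/
structure Sp (ℓ : ℕ) {V : Type} [Group V] (E : Subgroup (MulAut V)) (U Q Q' : Subgroup V) :
    Prop where
  le : Q ≤ Q'
  ix : Q.relIndex Q' = ℓ
  st : ∀ a ∈ E, ∀ v ∈ Q', a v ∈ Q'
  fr : ∀ a ∈ E, (∀ v ∈ Q', a v * v⁻¹ ∈ Q) → ∀ u ∈ U, u ≠ 1 → a u = u → ∀ x ∈ U, a x = x

/-- a series from `Q` up to `P` -/
def Sr (ℓ : ℕ) {V : Type} [Group V] (E : Subgroup (MulAut V)) (U Q P : Subgroup V) : Prop :=
  Relation.ReflTransGen (Sp ℓ E U) Q P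

/-- `V = P × U`, `W` is the first term of the series -/
structure Sw (L : Kt) (ℓ : ℕ) {V : Type} [Group V] (E : Subgroup (MulAut V))
    (P W U : Subgroup V) : Prop where
  ab : ∀ a b : V, a * b = b * a
  cm : ∀ a ∈ E, ∀ b ∈ E, ∀ v ∈ P, a (b v) = b (a v)
  w1 : Sp ℓ E U ⊥ W
  wp : Sr ℓ E U W P
  su : ∀ a ∈ E, ∀ u ∈ U, a u ∈ U
  nt : U ≠ ⊥
  pu : P ⊓ U = ⊥
  jn : P ⊔ U = ⊤
  tm : L ℓ U (rse E U)

/-- the class of theorem (R) over the terminal class `L` -/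
def K4 (L : Kt) : Kl := fun ℓ _ _ E W => ∃ P U, Sw L ℓ E P W U

/-- the union -/
def KV (K : Kl) (L : Kt) : Kl := fun ℓ V _ E W => K ℓ V E W ∨ Kf L ℓ V E W ∨ K4 L ℓ V E W

/-- The clean hypotheses: `D` is the direct product of the cyclic subgroups `Y i` and of `U`, which has two
generators, all factors are normalised by `T`, and an element of `T` which centralises some `Y i ≠ 1` and
commutes with some `u ≠ 1` in `U` centralises `U`. -/
structure ClV {H : Type} [Group H] (T : Set H) (D : Subgroup H) (s : ℕ)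
    (Y : Fin s → Subgroup H) (U : Subgroup H) : Prop where
  jn : (⨆ i, Y i) ⊔ U = D
  dy : ∀ i, Y i ⊓ (⨆ j, ⨆ (_ : j < i), Y j) = ⊥
  du : (⨆ i, Y i) ⊓ U = ⊥
  cy : ∀ i, ∃ y ∈ Y i, ∀ x ∈ Y i, ∃ k : ℤ, x = y ^ k
  gn : ∃ x y : H, U = Subgroup.closure {x, y}
  sy : ∀ i, ∀ t ∈ T, ∀ y ∈ Y i, t * y * t⁻¹ ∈ Y i
  su : ∀ t ∈ T, ∀ u ∈ U, t * u * t⁻¹ ∈ U
  fr : ∀ i, Y i ≠ ⊥ → ∀ t ∈ T, (∀ y ∈ Y i, t * y = y * t) → ∀ u ∈ U, u ≠ 1 →
    t * u = u * t → t ∈ Subgroup.centralizer (U : Set H)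

/-! ## 1. The input from the algebras -/

/-- the theorem for algebras with the chains `Chn` and the base property `P` -/
def AgqStmt (P : PrV) : Prop :=
  ∀ (n ℓ : ℕ) [Fact ℓ.Prime] (F V E A B : Type) [Field F] [IsAlgClosed F] [CharP F ℓ]
    [CommGroup V] [Fintype V] [Group E] [Fintype E] [Ring A] [Algebra F A] [Ring B] [Algebra F B]
    (φ : E →* MulAut V) (α : V →* A) (T W : Subgroup V) (ψ : E →* MulAut T),
    IsPGroup ℓ V → ¬ ℓ ∣ Nat.card E → W ≤ T → (∀ e : E, ∀ w ∈ W, φ e w ∈ W) →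
    Chn ℓ n V E φ T → IsRs φ T ψ → P T E ψ (W.subgroupOf T) → Cl F φ α → IsNW F α W B →
    Module.finrank F (Subalgebra.center F A) = Module.finrank F (Subalgebra.center F B)

/-- AGQ: the generic iteration.

Proof.  Edit of `PSS.atg` (`Pool/Agent/PSS/Atg.lean`) with the chain of `PST.H11.atq`
(`Helper11_PST/ATQ.lean`): the step `n + 1` gives `W'`, `ψ'` and either `Cyf` (use `stp`) or `Chf` (use `stq`,
the same output). -/
def AgqRow : Prop := ∀ P : PrV, P.Inv → StpStmt → StqStmt → BsgStmt P → AgqStmt P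

/-- RGV: regular elements.

Proof.  `U ≤ Q`, so `Q = (Q ⊓ P) ⊔ U` (`q = p u` with `p ∈ P`, `u ∈ U`, `p = q u⁻¹ ∈ Q`).  `ReaStmt` for `Q ⊓ P`
(stable, `E` commutative on `P`): `q ∈ Q ⊓ P`.  `u₀ ∈ U`, `u₀ ≠ 1`.  `q * u₀ ∈ Q`: if `a (q * u₀) = q * u₀` then
`q⁻¹ * a q = u₀ * (a u₀)⁻¹ ∈ P ⊓ U = ⊥`, so `a q = q`, `a u₀ = u₀`; `a` fixes `Q ⊓ P ≥ W` pointwise, so
`a v * v⁻¹ = 1 ∈ ⊥` for `v ∈ W`, and by `Sp.fr` (for `⊥`, `W`) `a` fixes `U` pointwise; so it fixes `Q`. -/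
def RgvStmt : Prop := ∀ (ℓ : ℕ) (V : Type) [CommGroup V] [Finite V] (E : Subgroup (MulAut V))
  (P W U Q : Subgroup V), ℓ.Prime → IsPGroup ℓ V → ¬ ℓ ∣ Nat.card E →
  (∀ a ∈ E, ∀ b ∈ E, ∀ v ∈ P, a (b v) = b (a v)) → Sp ℓ E U ⊥ W →
  (∀ a ∈ E, ∀ v ∈ P, a v ∈ P) → W ≤ P → (∀ a ∈ E, ∀ u ∈ U, a u ∈ U) → U ≠ ⊥ → P ⊓ U = ⊥ →
  P ⊔ U = ⊤ → W ⊔ U ≤ Q → (∀ a ∈ E, ∀ v ∈ Q, a v ∈ Q) →
  ∃ u ∈ Q, ∀ a ∈ E, a u = u → ∀ w ∈ Q, a w = w

/-- ECG: the chain if all stable subgroups above `T` have regular elements.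

Proof.  Edit of the row ECB (`StmtsGS.lean`), with `T` in place of `W` and the last hypothesis instead of
REB.  Claim: `ChB ℓ E P T` for all stable `P ≥ T`, strong induction on `Nat.card P`.  `P = T`: `refl`.
Otherwise choose a stable `P'`, `T ≤ P' < P`, of maximal order.  `pw`: `{v ∈ P | v ^ ℓ ∈ P'}` is stable and
larger than `P'`, so it is `P`.  `fr`: `{v ∈ P | a v * v⁻¹ ∈ P'}` is stable (`E` is commutative modulo `T`) and
contains `P'`.  `am`: `T ≤ P'`.  `rg`: hypothesis. -/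
def EcgStmt : Prop := ∀ (ℓ : ℕ) (V : Type) [CommGroup V] [Finite V] (E : Subgroup (MulAut V))
  (T : Subgroup V), ℓ.Prime → IsPGroup ℓ V → (∀ a ∈ E, ∀ v ∈ T, a v ∈ T) →
  (∀ a ∈ E, ∀ b ∈ E, ∀ v : V, a (b v) * (b (a v))⁻¹ ∈ T) →
  (∀ P : Subgroup V, T ≤ P → (∀ a ∈ E, ∀ v ∈ P, a v ∈ P) →
    ∃ u ∈ P, ∀ a ∈ E, a u = u → ∀ w ∈ P, a w = w) → ChB ℓ E ⊤ T

/-- KNH: from `ChB` to `Chn`.

Proof.  The first part of the row KNG (`StmtsGS.lean`), an edit of `H10.claim` (`Helper10_PST/KNF.lean`). -/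
def KnhStmt : Prop := ∀ (ℓ : ℕ) (V : Type) [CommGroup V] [Finite V] (E : Subgroup (MulAut V))
  (T : Subgroup V), ChB ℓ E ⊤ T → ∃ n : ℕ, Chn ℓ n V E E.subtype T

/-- the property of `AgqStmt Rtp` as a property of `(V, E, W)` (`ℓ = |W|`) -/
def Rt4 : PrV := fun V E _ _ φ W => ∃ (n : ℕ) (T : Subgroup V) (ψ : E →* MulAut T), W ≤ T ∧
  (∀ e : E, ∀ w ∈ W, φ e w ∈ W) ∧ Chn (Nat.card W) n V E φ T ∧ IsRs φ T ψ ∧
  BR.Rtp T E ψ (W.subgroupOf T)

/-- K4R: from the class `K4 L` to the property `Rt4`.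

Proof.  `P`, `U` with `Sw L ℓ E P W U`.  `W ≤ P` and `P` is stable (induction on the series: `W` is stable by
`Sp.st`).  `Nat.card W = ℓ` (`Subgroup.relIndex_bot_left`).  `T = W ⊔ U`, stable; `E` is commutative modulo `T`:
`v = p u`, `a (b v) * (b (a v))⁻¹ = a (b u) * (b (a u))⁻¹ ∈ U ≤ T`.  RGV, ECG: `ChB ℓ E ⊤ T`; KNH: `n`.
`ψ = H69.rsh E.subtype T _` (`Helper69_PSS/CYP.lean`).  `Rtp T E ψ (W.subgroupOf T)`: `Nat.card = ℓ`; the
complement `U.subgroupOf T` (`W ⊓ U ≤ P ⊓ U = ⊥`), not `⊥`; if `e` is trivial on `W` and fixes `u ≠ 1` in `U` then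
by `Sp.fr` it is trivial on `U`, and so on `T`. -/
def K4rStmt : Prop := ∀ (L : Kt) (ℓ : ℕ) (V : Type) [CommGroup V] [Finite V]
  (E : Subgroup (MulAut V)) (W : Subgroup V), ℓ.Prime → IsPGroup ℓ V → ¬ ℓ ∣ Nat.card E →
  K4 L ℓ V E W → Rt4 V E E.subtype W

/-- STV: the input of the group level for the class `K4 L`.

Proof.  As STR (`StmtsGU.lean`): `AllS6.stogen_ Rt4 K'`, `K' := fun ℓ V _ E W => ℓ.Prime ∧ K4 L ℓ V E W`, K4R.
`BsgStmt Rt4` from `AgqStmt BR.Rtp`: `Nat.card W` is a prime (`Rtp`: `Nat.card (W.subgroupOf T) = Nat.card W` as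
`W ≤ T`) and a power of `ℓ`, so it is `ℓ`; rewrite. -/
def StvStmt : Prop := AgqStmt BR.Rtp → ∀ L : Kt, StoFor (K4 L)

/-! ## 2. The union is admissible -/

/-- SRQ: the image of a step and of a series.

Proof.  `U ⊓ π.ker = ⊥`: `π` is injective on `U`.  Step: `Subgroup.relIndex_map_map` (`π.ker ≤ Q ≤ Q'`).  `st`:
`Qr.lif`.  `fr`: `a'` is induced by `a ∈ E`; `π (a v * v⁻¹) ∈ Q.map π` implies `a v * v⁻¹ ∈ Q` (as `π.ker ≤ Q`);
`a' (π u) = π u` implies `a u * u⁻¹ ∈ U ⊓ π.ker = ⊥`.  Series: induction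
(`Relation.ReflTransGen.head_induction_on` or the recursor; the lower end grows, so it contains `π.ker`). -/
def SrqStmt : Prop := ∀ (ℓ : ℕ) (V V' : Type) [Group V] [Group V'] (E : Subgroup (MulAut V))
  (E' : Subgroup (MulAut V')) (π : V →* V'), Qr E E' π → ∀ U : Subgroup V,
  (∀ a ∈ E, ∀ u ∈ U, a u ∈ U) → U ⊓ π.ker = ⊥ →
  (∀ Q Q' : Subgroup V, π.ker ≤ Q → Sp ℓ E U Q Q' →
    Sp ℓ E' (U.map π) (Q.map π) (Q'.map π)) ∧
  ∀ Q P : Subgroup V, π.ker ≤ Q → Sr ℓ E U Q P → Sr ℓ E' (U.map π) (Q.map π) (P.map π)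

/-- SVI: the image under an isomorphism.

Proof.  `ab`, `cm` (`Qr.lif`), SRQ (`π.ker = ⊥`, `(⊥ : Subgroup V).map π = ⊥`), `su`: `Qr.lif`; `nt`, `pu`, `jn`: maps
of `⊓`, `⊔` under an injective homomorphism; `tm`: `RsqStmt` and `AdT.iso`. -/
def SviStmt : Prop := ∀ (L : Kt) (ℓ : ℕ), AdT ℓ L → ∀ (V V' : Type) [Group V] [Group V']
  (E : Subgroup (MulAut V)) (E' : Subgroup (MulAut V')) (π : V ≃* V'), Qr E E' π.toMonoidHom →
  ∀ P W U : Subgroup V, Sw L ℓ E P W U →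
  Sw L ℓ E' (P.map π.toMonoidHom) (W.map π.toMonoidHom) (U.map π.toMonoidHom)

/-- SVQ: the quotient by `W`.

Proof.  `π.ker = W ≤ P`, so `U ⊓ π.ker = ⊥`.  The series `W → P`: (1) `P = W` (`Relation.ReflTransGen.cases_head`):
`V = W ⊔ U`, so `U.map π = ⊤`; RSQ and `AdT.iso` give `L ℓ V' E'` (as in the case (1) of SUQ, `StmtsGU.lean`),
`Kf L ℓ V' E' ⊤`.  (2) `Sp ℓ E U W Q`, `Sr ℓ E U Q P`: `W' = Q.map π`, `P' = P.map π`, `U' = U.map π`; `w1`:
`W.map π = ⊥`, SRQ; `wp`: SRQ; `pu`: `π p = π u` gives `p⁻¹ u ∈ W`, `u ∈ P`; `jn`: `⊤.map π = ⊤`; `cm`: `Qr.lif`; `tm`: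
RSQ, `AdT.iso`. -/
def SvqStmt : Prop := ∀ (L : Kt) (ℓ : ℕ), AdT ℓ L → ∀ (V V' : Type) [Group V] [Group V']
  (E : Subgroup (MulAut V)) (E' : Subgroup (MulAut V')) (π : V →* V'), Qr E E' π →
  ∀ P W U : Subgroup V, Sw L ℓ E P W U → π.ker = W → (∃ v : V', v ≠ 1) →
  ∃ W' : Subgroup V', Kf L ℓ V' E' W' ∨ K4 L ℓ V' E' W'

/-- ADW: the union is admissible.

Proof.  As ADV (`StmtsGU.lean`).  `nt` for `K4`: `Nat.card W = ℓ ≠ 1` (`Subgroup.relIndex_bot_left`).  `st`: `Sp.st`.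
`iso`: SVI.  `quo`: SVQ. -/
def AdwStmt : Prop := ∀ (K : Kl) (L : Kt) (ℓ : ℕ), ℓ.Prime → Adm ℓ K → AdT ℓ L →
  Adm ℓ (KV K L)

/-! ## 3. The final theorem -/

/-- SRY: the series of a cyclic factor.

Proof.  Strong induction on `Nat.card Y`.  `Y = ⊥`: `refl`.  Otherwise let `y` be the generator of `Y`,
`Y₁ = {x ^ ℓ | x ∈ Y}` = the group generated by `y ^ ℓ`; it is stable, cyclic, of index `ℓ` in `Y` (`Y` is a
nontrivial cyclic `ℓ`-group), `C ⊓ Y₁ = ⊥`.  Key: if `a ∈ E`, `a y = y ^ k` and `ℓ` divides `k - 1` then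
`a y = y` (see the proof of `H49.fix_cyc` in `Helper49_PSS/TWN.lean`: the order of `a` on `Y` is a power of `ℓ` and
divides the order of `a`; or: if `Y₁ ≠ ⊥`, the element `y ^ (|Y| / ℓ)` of order `ℓ` is fixed, and `fix_cyc`
applies; if `Y₁ = ⊥` then `y ^ ℓ = 1` and `y ^ (k - 1) = 1`).  So `a` is trivial on `Y` if it is trivial on
`Y₁ ≠ ⊥` or on `Y / Y₁`.  Induction hypothesis: `Sr ℓ E U C (C ⊔ Y₁)` (its hypothesis `fr` for `Y₁ ≠ ⊥`: by
`fix_cyc` `a` is trivial on `Y`).  Last step `Sp ℓ E U (C ⊔ Y₁) (C ⊔ Y)`: `ix`: `(C ⊔ Y₁).relIndex (C ⊔ Y) =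
Y₁.relIndex Y = ℓ` (`C ⊔ Y = (C ⊔ Y₁) ⊔ Y`, `Subgroup.relIndex_sup_left` or similar, `(C ⊔ Y₁) ⊓ Y = Y₁`); `fr`: `a y * y⁻¹
∈ (C ⊔ Y₁) ⊓ Y = Y₁`, so `a y = y`. -/
def SryStmt : Prop := ∀ (ℓ : ℕ) (V : Type) [CommGroup V] [Finite V] (E : Subgroup (MulAut V))
  (U C Y : Subgroup V), ℓ.Prime → IsPGroup ℓ V → ¬ ℓ ∣ Nat.card E →
  (∀ a ∈ E, ∀ v ∈ C, a v ∈ C) → (∀ a ∈ E, ∀ v ∈ Y, a v ∈ Y) →
  (∃ y ∈ Y, ∀ x ∈ Y, ∃ k : ℤ, x = y ^ k) → C ⊓ Y = ⊥ →
  (Y ≠ ⊥ → ∀ a ∈ E, (∀ y ∈ Y, a y = y) → ∀ u ∈ U, u ≠ 1 → a u = u → ∀ x ∈ U, a x = x) →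
  Sr ℓ E U C (C ⊔ Y)

/-- CLV: from the clean hypotheses to the class.

Proof.  `E = Ei V γ`; traces `y i = (Y i).subgroupOf V`, `u = U.subgroupOf V` (stable, see `H44.cln`,
`Helper44_PSS/CLN.lean`, and CLU); an automorphism induced by `t` is trivial on a trace iff `t` commutes
with the subgroup; `E` is commutative on `P = ⨆ i, y i` (automorphisms `x ↦ x ^ k` of a cyclic group).
(1) `U = ⊥`: `V = P`, `MsuStmt`: `KP`.  (2) `U ≠ ⊥`, all `Y i = ⊥`: `V = U`, `Kf LR`, `W₀ = ⊤`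
(`TW.ncard_le`).  (3) `U ≠ ⊥`, some `Y i ≠ ⊥`: `Sr ℓ E u ⊥ (⨆ i < n, y i)` for `n ≤ s` by induction (SRY), so `Sr ℓ E u ⊥ P`, `P ≠ ⊥`;
`Relation.ReflTransGen.cases_head`: `W₀` with `Sp ℓ E u ⊥ W₀`, `Sr ℓ E u W₀ P`.  `K4 LR`. -/
def ClvStmt : Prop := ∀ (ℓ : ℕ) [Fact ℓ.Prime] (M : Ideal (integralClosure ℤ ℂ)) [M.IsMaximal],
  (ℓ : integralClosure ℤ ℂ) ∈ M → ∀ (G : Type) [Group G] [Finite G] (e : G → FF M)
  (V : Subgroup G) (γ : G → FF M), Ld ℓ e V γ → V ≠ ⊥ → ∀ (s : ℕ) (Y : Fin s → Subgroup G)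
  (U : Subgroup G), ClV (Tg V γ : Set G) V s Y U → ∃ W₀ : Subgroup V, KV KP LR ℓ V (Ei V γ) W₀

/-- FVX: the final theorem.

Proof.  FNK for `K = KV KP LR`; `ClpStmt`, CLV. -/
def FvxStmt : Prop := ∀ (ℓ : ℕ) [Fact ℓ.Prime] (M : Ideal (integralClosure ℤ ℂ)) [M.IsMaximal],
  (ℓ : integralClosure ℤ ℂ) ∈ M → ∀ (G : Type) [Group G] [Finite G],
  opCore ℓ G ≤ Subgroup.center G → ∀ χ ∈ Irr G, ∀ (H : Type) [Group H] (p : G →* H),
  Function.Surjective p → p.ker ≤ opCore ℓ G → ∀ ψ ∈ Irr H,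
  (∀ g : G, Cong M (omega (MonoidHom.id G) (fun x => ψ (p x)) g)
    (omega (MonoidHom.id G) χ g)) →
  ∀ D : Subgroup H, ML.IsDef ℓ M ψ D → D ≠ (opCore ℓ G).map p →
  (∀ x ∈ D, ∀ y ∈ D, x * y = y * x) →
  ∀ th ∈ IrrBlock M (Subgroup.centralizer (D : Set H)).subtype ψ,
  ((∃ W U : Subgroup H, ClP ℓ (Iner M D th) D W U) ∨
    ∃ (s : ℕ) (Y : Fin s → Subgroup H) (U : Subgroup H), ClV (Iner M D th) D s Y U) →
  altSum ℓ M χ = 0

end Pool.Agent.PST.GU
end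
end -- Pool.Agent.PST.StmtsGV

section -- Pool.Agent.Helper10_PSS.RCT

open scoped BigOperators

noncomputable section

namespace Pool.Agent.Helper10.PSS.RCT

open Pool.Agent.PFE (Ctn)
open Pool.Agent.PSS.BR

/-- The restriction of a group of automorphisms to a stable subgroup. -/
def rst {V : Type} [CommGroup V] (W : Subgroup V) (E' : Subgroup (MulAut V))
    (hW : ∀ e ∈ E', ∀ w ∈ W, e w ∈ W) : E' →* MulAut W where
  toFun e :=
    { toFun := fun w => ⟨(e : MulAut V) w, hW _ e.2 _ w.2⟩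
      invFun := fun w => ⟨((e : MulAut V)⁻¹ : MulAut V) w, hW _ (E'.inv_mem e.2) _ w.2⟩
      left_inv := fun w => Subtype.ext (by
        show ((e : MulAut V)⁻¹ : MulAut V) ((e : MulAut V) (w : V)) = w
        rw [← MulAut.mul_apply, inv_mul_cancel, MulAut.one_apply])
      right_inv := fun w => Subtype.ext (by
        show (e : MulAut V) (((e : MulAut V)⁻¹ : MulAut V) (w : V)) = w
        rw [← MulAut.mul_apply, mul_inv_cancel, MulAut.one_apply])
      map_mul' := fun a b => Subtype.ext (map_mul (e : MulAut V) (a : V) (b : V)) }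
  map_one' := by
    apply MulEquiv.ext
    intro w
    rfl
  map_mul' a b := by
    apply MulEquiv.ext
    intro w
    rfl

theorem rst_val {V : Type} [CommGroup V] (W : Subgroup V) (E' : Subgroup (MulAut V))
    (hW : ∀ e ∈ E', ∀ w ∈ W, e w ∈ W) (e : E') (w : W) :
    (rst W E' hW e w : V) = (e : MulAut V) w := rfl

/-- `MulAut` of a group of prime order is cyclic. -/
theorem cyc {W : Type} [Group W] {ℓ : ℕ} [Fact ℓ.Prime] (h : Nat.card W = ℓ) :
    IsCyclic (MulAut W) := by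
  have : IsCyclic W := isCyclic_of_prime_card h
  have e := IsCyclic.mulAutMulEquiv W
  subst h
  exact isCyclic_of_surjective e.symm e.symm.surjective

/-- A subgroup of prime order with two elements. -/
theorem tri {V : Type} [CommGroup V] {W : Subgroup V} {ℓ : ℕ} [Fact ℓ.Prime] (h : Nat.card W = ℓ)
    (a : MulAut V) (w : V) (hw : w ∈ W) (h1 : w ≠ 1) (ha : a w = w) : ∀ v ∈ W, a v = v := by
  intro v hv
  have hz : (⟨v, hv⟩ : W) ∈ Subgroup.zpowers (⟨w, hw⟩ : W) := by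
    rw [zpowers_eq_top_of_prime_card h (by
      intro h2
      exact h1 (congrArg Subtype.val h2))]
    exact Subgroup.mem_top _
  rcases Subgroup.mem_zpowers_iff.1 hz with ⟨k, hk⟩
  have hk' : w ^ k = v := by
    have := congrArg Subtype.val hk
    rwa [SubgroupClass.coe_zpow] at this
  rw [← hk', map_zpow, ha]

theorem rct : RctStmt := by
  intro ℓ hℓ V E _ _ _ _ φ W E' hp hE hR hE'
  rcases hR with ⟨hWp, U, hc, hU, hWs, hUs, hf⟩
  have hW' : ∀ e ∈ E', ∀ w ∈ W, e w ∈ W := by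
    intro e he w hw
    rcases hE' he with ⟨g, rfl⟩
    exact hWs g w hw
  have hU' : ∀ e ∈ E', ∀ w ∈ U, e w ∈ U := by
    intro e he w hw
    rcases hE' he with ⟨g, rfl⟩
    exact hUs g w hw
  have hcard : Nat.card W = ℓ := by
    have : Finite W := inferInstance
    have h1 : IsPGroup ℓ W := hp.to_subgroup W
    rcases IsPGroup.iff_card.1 h1 with ⟨n, hn⟩
    have h2 : Nat.card W ∣ ℓ ^ n := by rw [hn]
    have h3 := hWp.dvd_of_dvd_pow h2
    exact (Nat.prime_dvd_prime_iff_eq hWp hℓ.out).1 h3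
  have hWb : W ≠ ⊥ := by
    intro h
    rw [h, Subgroup.card_bot] at hWp
    exact Nat.not_prime_one hWp
  have hWt : ¬ (⊤ : Subgroup V) ≤ W := by
    intro h
    apply hU
    have := hc.inf_eq_bot
    rwa [top_le_iff.1 h, top_inf_eq] at this
  have hUt : ¬ (⊤ : Subgroup V) ≤ U := by
    intro h
    apply hWb
    have := hc.inf_eq_bot
    rwa [top_le_iff.1 h, inf_top_eq] at this
  have hst : ∀ (X : Subgroup V), (∀ e ∈ E', ∀ w ∈ X, e w ∈ X) → ∀ (e : E') (Q : Subgroup V),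
      ¬ Q ≤ X → ¬ Q.map (E'.subtype e).toMonoidHom ≤ X := by
    intro X hX e Q hQ h
    apply hQ
    intro x hx
    have h1 : (e : MulAut V) x ∈ X := h (Subgroup.mem_map_of_mem _ hx)
    have h2 := hX ((e : MulAut V)⁻¹) (E'.inv_mem e.2) _ h1
    rwa [← MulAut.mul_apply, inv_mul_cancel, MulAut.one_apply] at h2
  refine ⟨hcard, U, hc.inf_eq_bot, hc.sup_eq_top, fun e u hu => hU' _ e.2 u hu, ?_, ?_⟩
  · refine ⟨hℓ.out, hp, ?_, ⟨hWt, hUt⟩, fun h => h.1 bot_le,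
      fun Q S h hQS => ⟨fun h1 => h.1 (hQS.trans h1), fun h1 => h.2 (hQS.trans h1)⟩,
      fun e Q h => ⟨hst W hW' e Q h.1, hst U hU' e Q h.2⟩, ?_⟩
    · intro h
      apply hE
      have h1 : Nat.card E' ∣ Nat.card φ.range := Subgroup.card_dvd_of_le hE'
      have h2 : Nat.card φ.range ∣ Nat.card E := Subgroup.card_range_dvd φ
      exact h.trans (h1.trans h2)
    · rintro Q ⟨hQ1, hQ2⟩ e he
      rcases SetLike.not_le_iff_exists.1 hQ1 with ⟨x, hx, hxW⟩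
      rcases SetLike.not_le_iff_exists.1 hQ2 with ⟨y, hy, hyU⟩
      have hdec : ∀ z : V, ∃ w ∈ W, ∃ u ∈ U, w * u = z := by
        intro z
        have : z ∈ W ⊔ U := by rw [hc.sup_eq_top]; exact Subgroup.mem_top z
        exact Subgroup.mem_sup.1 this
      have hfix : ∀ z ∈ Q, ∀ w ∈ W, ∀ u ∈ U, w * u = z → (e : MulAut V) w = w ∧ (e : MulAut V) u = u := by
        intro z hz w hw u hu hwu
        have h1 : (e : MulAut V) z = z := he z hz
        rw [← hwu, map_mul] at h1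
        have h2 : (w⁻¹ * (e : MulAut V) w) = u * ((e : MulAut V) u)⁻¹ := by
          have h3 : (e : MulAut V) w = w * u * ((e : MulAut V) u)⁻¹ := by
            rw [eq_mul_inv_iff_mul_eq]
            exact h1
          rw [h3, mul_assoc, inv_mul_cancel_left]
        have h4 : (w⁻¹ * (e : MulAut V) w) ∈ W ⊓ U := by
          refine ⟨W.mul_mem (W.inv_mem hw) (hW' _ e.2 _ hw), ?_⟩
          rw [h2]
          exact U.mul_mem hu (U.inv_mem (hU' _ e.2 _ hu))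
        rw [hc.inf_eq_bot, Subgroup.mem_bot] at h4
        have h5 : (e : MulAut V) w = w := by
          rw [inv_mul_eq_one] at h4
          exact h4.symm
        refine ⟨h5, ?_⟩
        rw [h5] at h1
        exact mul_left_cancel h1
      rcases hdec y with ⟨w, hw, u, hu, hwu⟩
      rcases hdec x with ⟨w', hw', u', hu', hwu'⟩
      have hw1 : w ≠ 1 := by
        rintro rfl
        apply hyU
        rw [← hwu, one_mul]
        exact hu
      have hu1 : u' ≠ 1 := by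
        rintro rfl
        apply hxW
        rw [← hwu', mul_one]
        exact hw'
      have ha := tri hcard (e : MulAut V) w hw hw1 (hfix y hy w hw u hu hwu).1
      have hb := (hfix x hx w' hw' u' hu' hwu').2
      rcases hE' e.2 with ⟨g, hg⟩
      have hg1 : φ g = 1 := by
        apply hf g (by rw [hg]; exact ha) u' hu' hu1
        rw [hg]
        exact hb
      apply Subtype.ext
      rw [← hg, hg1]
      rfl
  · have : IsCyclic (MulAut W) := cyc hcard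
    have : Finite (MulAut W) := inferInstance
    have : IsCyclic (rst W E' hW').range := Subgroup.isCyclic _
    refine ⟨(rst W E' hW').range, IsCyclic.commGroup, Fintype.ofFinite _, inferInstance,
      (rst W E' hW').range.subtype, ?_, ?_, ?_⟩
    · intro c hc1
      exact Subtype.ext hc1
    · rintro ⟨c, e, rfl⟩
      exact ⟨e, fun v => rfl⟩
    · intro e
      exact ⟨⟨_, e, rfl⟩, fun v => rfl⟩

end Pool.Agent.Helper10.PSS.RCT
end
end -- Pool.Agent.Helper10_PSS.RCT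

section -- Pool.Agent.Helper11_PST.ATQ

/-!
# Squad PST, row ATQ: the theorem for algebras from the steps and the base case
-/

noncomputable section

namespace Pool.Agent.PST.H11

open Pool.Agent.PSS

theorem atq : AtqRow := by
  intro stp stq bas n
  induction n with
  | zero =>
    intro ℓ _ F V E A B _ _ _ _ _ _ _ _ _ _ _ φ α W ψ hp hE hc hr hw hA hB
    change W = ⊤ at hc
    subst hc
    refine bas ℓ F V E A B φ α hp hE ?_ hA hB
    rcases hw with hw | hw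
    · left
      have : Subsingleton V := by
        constructor
        intro a b
        have ha : a ∈ (⊥ : Subgroup V) := hw ▸ Subgroup.mem_top a
        have hb : b ∈ (⊥ : Subgroup V) := hw ▸ Subgroup.mem_top b
        rw [Subgroup.mem_bot.1 ha, Subgroup.mem_bot.1 hb]
      exact Nat.card_unique
    · right
      refine Fre.tr (Subgroup.topEquiv (G := V)) (φ := ψ) (ψ := φ) ?_ hw
      intro e v
      exact (hr e v).symm
  | succ n ih =>
    intro ℓ _ F V E A B _ _ _ _ _ _ _ _ _ _ _ φ α W ψ hp hE hc hr hw hA hB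
    obtain ⟨W', ψ', hY, hWW, hr', hc'⟩ := hc
    have hst : ∀ e : E, ∀ w ∈ W, φ e w ∈ W := by
      intro e w hw'
      have := hr e ⟨w, hw'⟩
      rw [← this]
      exact (ψ e ⟨w, hw'⟩).2
    have : Fintype W' := Fintype.ofFinite W'
    have key : ∃ (F' C B' : Type) (_ : Field F') (_ : IsAlgClosed F') (_ : CharP F' ℓ)
        (_ : Ring C) (_ : Algebra F' C) (_ : Ring B') (_ : Algebra F' B') (γ : W' →* C)
        (_ : IsNW F' γ (W.subgroupOf W') B'), Cl F' ψ' γ ∧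
        Module.finrank F' (Subalgebra.center F' C) = Module.finrank F (Subalgebra.center F A) ∧
        Module.finrank F' (Subalgebra.center F' B') =
          Module.finrank F (Subalgebra.center F B) := by
      rcases hY with ⟨Y, hY⟩ | hY
      · exact stp ℓ F V E A B φ α Y W' W ψ' hp hE hY hr' hWW hst hA hB
      · exact stq ℓ F V E A B φ α W' W ψ' hp hE hY hr' hWW hst hA hB
    obtain ⟨F', C, B', i1, i2, i3, i4, i5, i6, i7, γ, nw, hC, h1, h2⟩ := key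
    let s : W ≃* (W.subgroupOf W') := (Subgroup.subgroupOfEquivOfLe hWW).symm
    have hs : ∀ w : W, (((s w : W.subgroupOf W') : W') : V) = w := by
      intro w
      rfl
    have hrs : IsRs ψ' (W.subgroupOf W') (trA s ψ) := by
      intro e w
      apply Subtype.ext
      rw [hr']
      obtain ⟨v, rfl⟩ := s.surjective w
      rw [trA_apply, s.symm_apply_apply, hs, hs]
      exact hr e v
    have hfin := ih ℓ F' W' E C B' ψ' γ (W.subgroupOf W') (trA s ψ)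
      (hp.to_subgroup W') hE hc' hrs ?_ hC nw
    · rw [← h1, ← h2]
      exact hfin
    · rcases hw with hw | hw
      · left
        subst hw
        exact Subgroup.bot_subgroupOf W'
      · right
        refine Fre.tr s (φ := ψ) ?_ hw
        intro e v
        rw [trA_apply, s.symm_apply_apply]

end Pool.Agent.PST.H11
end
end -- Pool.Agent.Helper11_PST.ATQ

section -- Pool.Agent.Helper44_PSS.CLN

/-!
# Squad PSS, row CLN: from the clean hypotheses to the class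
-/

set_option autoImplicit false

open scoped BigOperators

noncomputable section

namespace Pool.Agent.PSS.H44

open Pool.Agent.PSS
open Pool.Agent.Helper51_AWC Pool.Agent.Helper79_WRA Pool.Agent.PP Pool.Agent.PP.KF
open Pool.Agent.PP.K9 Pool.Agent.PP.K9.H97 Pool.Agent.PP.H75 Pool.Agent.PP.T3 Pool.Agent.PP.T2
open Pool.Agent.PP.TB (Zd Star iz cz)
open Pool.Agent.PFD (Ei)

attribute [local instance] Ideal.Quotient.field

/-- the automorphisms of a stable subgroup -/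
def resAut {V : Type} [Group V] (E : Subgroup (MulAut V)) (W : Subgroup V)
    (sW : ∀ a ∈ E, ∀ w ∈ W, a w ∈ W) : E →* MulAut W where
  toFun := fun a =>
    { toFun := fun w => ⟨(a : MulAut V) w, sW a a.2 w w.2⟩
      invFun := fun w => ⟨((a⁻¹ : E) : MulAut V) w, sW _ (a⁻¹).2 w w.2⟩
      left_inv := fun w => Subtype.ext (MulAut.inv_apply_self V (a : MulAut V) w)
      right_inv := fun w => Subtype.ext (MulAut.apply_inv_self V (a : MulAut V) w)
      map_mul' := fun v w => Subtype.ext (map_mul (a : MulAut V) (v : V) w) }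
  map_one' := by
    apply MulEquiv.ext
    intro w
    rfl
  map_mul' := by
    intro a b
    apply MulEquiv.ext
    intro w
    rfl

theorem resAut_apply {V : Type} [Group V] (E : Subgroup (MulAut V)) (W : Subgroup V)
    (sW : ∀ a ∈ E, ∀ w ∈ W, a w ∈ W) (a : E) (w : W) :
    ((resAut E W sW a w : W) : V) = (a : MulAut V) w := rfl

/-- EDF for a stable subgroup -/
theorem relEdf (edf : PFD.EdfStmt) {ℓ : ℕ} {V : Type} [Group V] [Finite V] (hℓ : ℓ.Prime)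
    (hV : IsPGroup ℓ V) (hab : ∀ a b : V, a * b = b * a) (E : Subgroup (MulAut V))
    (hE : ¬ ℓ ∣ Nat.card E) (U W : Subgroup V) (hUW : U ≤ W) (hU : U ≠ ⊥)
    (sU : ∀ a ∈ E, ∀ u ∈ U, a u ∈ U) (sW : ∀ a ∈ E, ∀ w ∈ W, a w ∈ W)
    (fr : ∀ a ∈ E, ∀ u ∈ U, u ≠ 1 → a u = u → ∀ w ∈ W, a w = w) :
    ∃ U' X' : Subgroup V, U' ⊓ X' = ⊥ ∧ U' ⊔ X' = W ∧ U' ≠ ⊥ ∧
      (∀ a ∈ E, ∀ u ∈ U', a u ∈ U') ∧ (∀ a ∈ E, ∀ x ∈ X', a x ∈ X') ∧
      ∀ a ∈ E, ∀ u ∈ U', u ≠ 1 → a u = u → ∀ w ∈ W, a w = w := by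
  let _ : CommGroup W :=
    { (inferInstance : Group W) with
      mul_comm := fun a b => Subtype.ext (hab a b) }
  have : Finite (MulAut V) := Finite.of_injective (fun f : MulAut V => (f : V → V))
    (fun f g h => MulEquiv.ext (congrFun h))
  have : Finite (MulAut W) := Finite.of_injective (fun f : MulAut W => (f : W → W))
    (fun f g h => MulEquiv.ext (congrFun h))
  have hcard : ¬ ℓ ∣ Nat.card (resAut E W sW).range := fun h =>
    hE (h.trans (Subgroup.card_dvd_of_surjective _ (resAut E W sW).rangeRestrict_surjective))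
  obtain ⟨U', X', h1, h2, h3, h4, h5⟩ := edf ℓ W (resAut E W sW).range
    (resAut E W sW).range.subtype hℓ (hV.to_subgroup W) hcard (U.subgroupOf W)
    (by
      intro h
      apply hU
      rw [eq_bot_iff]
      intro u hu
      have h6 : (⟨u, hUW hu⟩ : W) ∈ U.subgroupOf W := Subgroup.mem_subgroupOf.2 hu
      rw [h, Subgroup.mem_bot] at h6
      rw [Subgroup.mem_bot]
      exact congrArg Subtype.val h6)
    (by
      rintro ⟨_, ⟨a, rfl⟩⟩ u hu
      rw [Subgroup.mem_subgroupOf]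
      exact sU a a.2 u (Subgroup.mem_subgroupOf.1 hu))
    (by
      rintro ⟨_, ⟨a, rfl⟩⟩ u hu hfix
      have h7 : (a : MulAut V) (u : V) = u := congrArg Subtype.val hfix
      by_cases hu1 : u = 1
      · exact Or.inr hu1
      · left
        apply Subtype.ext
        apply MulEquiv.ext
        intro w
        apply Subtype.ext
        exact fr a a.2 u (Subgroup.mem_subgroupOf.1 hu) (fun h => hu1 (Subtype.ext h)) h7 w w.2)
  have hinj := W.subtype_injective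
  refine ⟨U'.map W.subtype, X'.map W.subtype, ?_, ?_, ?_, ?_, ?_, ?_⟩
  · rw [← Subgroup.map_inf_eq _ _ _ hinj, h2.inf_eq_bot, Subgroup.map_bot]
  · rw [← Subgroup.map_sup, h2.sup_eq_top, ← MonoidHom.range_eq_map, W.range_subtype]
  · intro h
    exact h1 ((Subgroup.map_eq_bot_iff_of_injective _ hinj).1 h)
  · rintro a ha _ ⟨u, hu, rfl⟩
    exact ⟨_, h3 ⟨resAut E W sW ⟨a, ha⟩, ⟨_, rfl⟩⟩ u hu, rfl⟩
  · rintro a ha _ ⟨u, hu, rfl⟩
    exact ⟨_, h4 ⟨resAut E W sW ⟨a, ha⟩, ⟨_, rfl⟩⟩ u hu, rfl⟩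
  · rintro a ha _ ⟨u, hu, rfl⟩ hu1 hfix w hw
    have h6 : (⟨resAut E W sW ⟨a, ha⟩, ⟨_, rfl⟩⟩ : (resAut E W sW).range) = 1 ∨ u = 1 := by
      apply h5 _ u hu
      apply Subtype.ext
      exact hfix
    rcases h6 with h6 | h6
    · have h7 := congrArg (fun f : (resAut E W sW).range => (((f : MulAut W) ⟨w, hw⟩ : W) : V)) h6
      exact h7
    · exact absurd (by rw [h6]; rfl) hu1

theorem cln (cyq : CyqStmt) (edf : PFD.EdfStmt) (lke : PFD.LkeStmt) (inx : K9.InxStmt) :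
    ClnStmt := by
  intro ℓ hℓ M _ hM G _ _ e V γ hL hV s Y W U h
  have hT : Tg V γ ≤ Subgroup.normalizer (V : Set G) := inf_le_left
  have hab : ∀ a b : V, a * b = b * a := fun a b => Subtype.ext (hL.ab a a.2 b b.2)
  -- the order of `Ei`
  have hcop : ¬ ℓ ∣ Nat.card (Ei V γ) := by
    have h1 := (lke ℓ (FF M) G e V γ hL).1
    rw [← h1]
    have h2 := inx ℓ M hM G e hL.blk V hL.tp hL.ab γ hL.gam.supp hL.gam.blk hL.und
    have h3 : iz V V γ = (Subgroup.centralizer (V : Set G)).relIndex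
        (Subgroup.normalizer (V : Set G) ⊓ stabF γ) := by
      unfold iz
      rw [Subgroup.inf_relIndex_right]
      rfl
    rw [h3]
    exact h2
  -- stable subgroups
  have hst : ∀ Z : Subgroup G, (∀ t ∈ Tg V γ, ∀ z ∈ Z, t * z * t⁻¹ ∈ Z) →
      ∀ a ∈ Ei V γ, ∀ z ∈ Z.subgroupOf V, a z ∈ Z.subgroupOf V := by
    rintro Z hZ _ ⟨⟨t, htn⟩, ht, rfl⟩ z hz
    rw [Subgroup.mem_subgroupOf]
    exact hZ t (Subgroup.mem_subgroupOf.1 ht) z (Subgroup.mem_subgroupOf.1 hz)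
  have hYV : ∀ i, Y i ≤ V := fun i => (le_iSup Y i).trans (le_sup_left.trans h.jn.le)
  have hWV : W ≤ V := le_sup_right.trans h.jn.le
  -- the product of the cyclic subgroups
  have hD : ∀ n : ℕ, n ≤ s →
      Cyc (Ei V γ) ((⨆ j : Fin s, ⨆ (_ : (j : ℕ) < n), Y j).subgroupOf V) := by
    intro n
    induction n with
    | zero =>
      intro _
      have h0 : (⨆ j : Fin s, ⨆ (_ : (j : ℕ) < 0), Y j) = ⊥ := by
        rw [eq_bot_iff]
        refine iSup_le fun j => iSup_le fun hj => ?_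
        omega
      rw [h0, Subgroup.bot_subgroupOf]
      exact Cyc.bot
    | succ n ih =>
      intro hn
      have h0 : (⨆ j : Fin s, ⨆ (_ : (j : ℕ) < n + 1), Y j) =
          (⨆ j : Fin s, ⨆ (_ : (j : ℕ) < n), Y j) ⊔ Y ⟨n, hn⟩ := by
        apply le_antisymm
        · refine iSup_le fun j => iSup_le fun hj => ?_
          rcases Nat.lt_or_ge (j : ℕ) n with h1 | h1
          · exact (le_iSup₂ (f := fun (j : Fin s) (_ : (j : ℕ) < n) => Y j) j h1).trans le_sup_left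
          · have h2 : j = ⟨n, hn⟩ := Fin.ext (by show (j : ℕ) = n; omega)
            rw [h2]
            exact le_sup_right
        · refine sup_le ?_ ?_
          · refine iSup_le fun j => iSup_le fun hj => ?_
            exact le_iSup₂_of_le j (Nat.lt_succ_of_lt hj) le_rfl
          · exact le_iSup₂_of_le (⟨n, hn⟩ : Fin s) (Nat.lt_succ_self n) le_rfl
      have hle : (⨆ j : Fin s, ⨆ (_ : (j : ℕ) < n), Y j) ≤ V :=
        iSup_le fun j => iSup_le fun _ => hYV j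
      rw [h0, Subgroup.subgroupOf_sup hle (hYV _)]
      refine Cyc.mul _ _ (ih (by omega)) ?_ ?_ ?_
      · obtain ⟨y, hy, hy'⟩ := h.cy ⟨n, hn⟩
        refine ⟨⟨y, hYV _ hy⟩, Subgroup.mem_subgroupOf.2 hy, ?_⟩
        intro x hx
        obtain ⟨k, hk⟩ := hy' x (Subgroup.mem_subgroupOf.1 hx)
        exact ⟨k, Subtype.ext hk⟩
      · exact hst _ (h.sy ⟨n, hn⟩)
      · rw [eq_bot_iff]
        rintro ⟨x, hxV⟩ ⟨hx1, hx2⟩
        have h3 : x ∈ Y ⟨n, hn⟩ ⊓ (⨆ j, ⨆ (_ : j < (⟨n, hn⟩ : Fin s)), Y j) :=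
          ⟨Subgroup.mem_subgroupOf.1 hx2, Subgroup.mem_subgroupOf.1 hx1⟩
        rw [h.dy, Subgroup.mem_bot] at h3
        rw [Subgroup.mem_bot]
        exact Subtype.ext h3
  have hC : Cyc (Ei V γ) ((⨆ i, Y i).subgroupOf V) := by
    have h1 := hD s le_rfl
    have h2 : (⨆ j : Fin s, ⨆ (_ : (j : ℕ) < s), Y j) = ⨆ i, Y i := by
      apply le_antisymm
      · exact iSup_le fun j => iSup_le fun _ => le_iSup Y j
      · exact iSup_le fun j => le_iSup₂_of_le j j.2 le_rfl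
    rw [h2] at h1
    exact h1
  have hCV : (⨆ i, Y i) ≤ V := iSup_le hYV
  by_cases hW : W = ⊥
  · -- `W = 1`
    have htop : (⨆ i, Y i).subgroupOf V = ⊤ := by
      rw [Subgroup.subgroupOf_eq_top]
      have h1 := h.jn
      rw [hW, sup_bot_eq] at h1
      exact h1.ge
    rw [htop] at hC
    have hne : (⊤ : Subgroup V) ≠ ⊥ := by
      intro h1
      apply hV
      rw [eq_bot_iff]
      intro x hx
      have h2 : (⟨x, hx⟩ : V) ∈ (⊤ : Subgroup V) := trivial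
      rw [h1, Subgroup.mem_bot] at h2
      rw [Subgroup.mem_bot]
      exact congrArg Subtype.val h2
    obtain ⟨C₁, Y₁, c1, c2, c3, c4, c5, c6⟩ := cyq.2 ℓ V (Ei V γ) Fact.out hL.tp.1 hcop hab ⊤ hC hne
    exact ⟨Y₁, C₁, Y₁, ⊥,
      { ab := hab
        cy := c1
        cw := c2
        jn := c3
        ux := inf_bot_eq _
        uw := sup_bot_eq _
        nt := c4
        su := c5
        sx := by
          intro a _ x hx
          rw [Subgroup.mem_bot] at hx ⊢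
          rw [hx, map_one]
        fr := c6 }⟩
  · have hU : U ≠ ⊥ := fun h1 => hW (h.nt h1)
    have hUV : U ≤ V := h.uw.trans hWV
    obtain ⟨U', X', x1, x2, x3, x4, x5, x6⟩ := relEdf edf Fact.out hL.tp.1 hab (Ei V γ) hcop
      (U.subgroupOf V) (W.subgroupOf V)
      (fun u hu => Subgroup.mem_subgroupOf.2 (h.uw (Subgroup.mem_subgroupOf.1 hu)))
      (by
        intro h1
        apply hU
        rw [eq_bot_iff]
        intro u hu
        have h6 : (⟨u, hUV hu⟩ : V) ∈ U.subgroupOf V := Subgroup.mem_subgroupOf.2 hu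
        rw [h1, Subgroup.mem_bot] at h6
        rw [Subgroup.mem_bot]
        exact congrArg Subtype.val h6)
      (hst U h.su) (hst W h.sw)
      (by
        rintro _ ⟨⟨t, htn⟩, ht, rfl⟩ u hu hu1 hfix w hw
        have h7 : t * (u : G) * t⁻¹ = u := congrArg Subtype.val hfix
        have h8 := h.fr t (Subgroup.mem_subgroupOf.1 ht) u (Subgroup.mem_subgroupOf.1 hu)
          (fun h => hu1 (Subtype.ext h)) (mul_inv_eq_iff_eq_mul.1 h7)
        apply Subtype.ext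
        show t * (w : G) * t⁻¹ = w
        have h9 : (w : G) * t = t * w :=
          (Subgroup.mem_centralizer_iff.1 h8) w (Subgroup.mem_subgroupOf.1 hw)
        rw [← h9, mul_inv_cancel_right])
    refine ⟨W.subgroupOf V, (⨆ i, Y i).subgroupOf V, U', X',
      { ab := hab
        cy := hC
        cw := ?_
        jn := ?_
        ux := x1
        uw := x2
        nt := x3
        su := x4
        sx := x5
        fr := x6 }⟩
    · rw [eq_bot_iff]
      rintro ⟨x, hxV⟩ ⟨hx1, hx2⟩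
      have h3 : x ∈ (⨆ i, Y i) ⊓ W := ⟨Subgroup.mem_subgroupOf.1 hx1, Subgroup.mem_subgroupOf.1 hx2⟩
      rw [h.dw, Subgroup.mem_bot] at h3
      rw [Subgroup.mem_bot]
      exact Subtype.ext h3
    · rw [← Subgroup.subgroupOf_sup hCV hWV, h.jn, Subgroup.subgroupOf_self]

end Pool.Agent.PSS.H44
end
end -- Pool.Agent.Helper44_PSS.CLN

section -- Pool.Agent.Helper63_PFD.EGX

/-!
# Squad PFD, row EGX: the groups
-/

open scoped BigOperators

noncomputable section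

namespace Pool.Agent.PFD.H63

open Pool.Agent.Helper51_AWC Pool.Agent.Helper79_WRA Pool.Agent.PP Pool.Agent.PP.KF
open Pool.Agent.PP.K9 Pool.Agent.PP.K9.H97 Pool.Agent.PP.H75 Pool.Agent.PP.T3 Pool.Agent.PP.T2
open Pool.Agent.PFC (Jd Crn jal Pj PIn Ctf ls Cz cv)

attribute [local instance] Ideal.Quotient.field

theorem card_Ei {F : Type} {G : Type} [Group G] (V : Subgroup G) (γ : G → F) :
    Nat.card (Ei V γ) = ix V γ := by
  have h1 := Subgroup.relIndex_ker ((Tg V γ).subgroupOf (Subgroup.normalizer (V : Set G)))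
    V.normalizerMonoidHom
  rw [Subgroup.normalizerMonoidHom_ker] at h1
  have h2 : Tg V γ ≤ Subgroup.normalizer (V : Set G) := inf_le_left
  rw [Subgroup.relIndex_subgroupOf h2] at h1
  exact h1.symm

/-- Row EGX. -/
theorem egx (spf : SpfStmt) : EgxStmt := by
  intro ℓ hℓ M hMm hM G _ _ e V γ hL U W hS
  have hix : ¬ ℓ ∣ ix V γ :=
    K9.H34.inx ℓ M hM G e hL.blk V hL.tp hL.ab γ hL.gam.supp hL.gam.blk hL.und
  let iC : CommGroup V := { (inferInstance : Group V) with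
    mul_comm := fun a b => Subtype.ext (hL.ab a a.2 b b.2) }
  have hfin : Finite V := inferInstance
  have hfinM : Finite (MulAut V) := Finite.of_injective (fun f : MulAut V => (f : V → V))
    DFunLike.coe_injective
  have hmap : ∀ x : Ei V γ, ∃ t ∈ Tg V γ, ∀ w : V, (((x : MulAut V) w : V) : G) =
      t * w * t⁻¹ := by
    rintro ⟨x, t, ht, rfl⟩
    exact ⟨t, ht, fun w => rfl⟩
  have hmap2 : ∀ t ∈ Tg V γ, ∃ x : Ei V γ, ∀ w : V, (((x : MulAut V) w : V) : G) =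
      t * w * t⁻¹ := by
    intro t ht
    have h2 : t ∈ Subgroup.normalizer (V : Set G) := (Subgroup.mem_inf.1 ht).1
    exact ⟨⟨V.normalizerMonoidHom ⟨t, h2⟩, ⟨⟨t, h2⟩, ht, rfl⟩⟩, fun w => rfl⟩
  have hW : (W.subgroupOf V).map V.subtype = W := Subgroup.map_subgroupOf_eq_of_le hS.lw
  refine ⟨V, Ei V γ, iC, Fintype.ofFinite V, inferInstance, Fintype.ofFinite _, V.subtype,
    (Ei V γ).subtype, W.subgroupOf V, Subtype.val_injective, V.range_subtype, hW, ?_,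
    ⟨MulEquiv.refl _⟩, hmap2, hmap⟩
  refine ⟨hℓ.out, hL.tp.pg, ?_, ?_, ?_, ?_, ?_⟩
  · obtain ⟨u, hu1⟩ := Subgroup.ne_bot_iff_exists_ne_one.1 hS.nt
    refine ⟨⟨u, hS.lu u.2⟩, fun h => hu1 ?_⟩
    have h1 : (u : G) ∈ U ⊓ W := Subgroup.mem_inf.2 ⟨u.2, Subgroup.mem_subgroupOf.1 h⟩
    rw [hS.dj] at h1
    exact Subtype.ext (Subgroup.mem_bot.1 h1)
  · rw [card_Ei]
    exact hix
  · intro x u hu
    obtain ⟨t, ht, h1⟩ := hmap x
    have h2 := hS.sw t ht u (Subgroup.mem_subgroupOf.1 hu)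
    rw [← h1 u] at h2
    exact h2
  · refine ⟨U.subgroupOf V, ⟨?_, ?_⟩, ?_⟩
    · rw [disjoint_iff]
      refine (Subgroup.eq_bot_iff_forall _).2 fun u hu => ?_
      have h1 := Subgroup.mem_inf.1 hu
      have h2 : (u : G) ∈ U ⊓ W := Subgroup.mem_inf.2
        ⟨Subgroup.mem_subgroupOf.1 h1.1, Subgroup.mem_subgroupOf.1 h1.2⟩
      rw [hS.dj] at h2
      exact Subtype.ext (Subgroup.mem_bot.1 h2)
    · rw [codisjoint_iff]
      have h1 := Subgroup.subgroupOf_sup hS.lu hS.lw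
      rw [hS.jn, Subgroup.subgroupOf_self] at h1
      exact h1.symm
    · intro x u hu
      obtain ⟨t, ht, h1⟩ := hmap x
      have h2 := hS.su t ht u (Subgroup.mem_subgroupOf.1 hu)
      rw [← h1 u] at h2
      exact h2
  · intro x u hxu
    obtain ⟨t, ht, h1⟩ := hmap x
    have h2 : t * (u : G) = u * t := by
      have h3 := h1 u
      have h4 : (((x : MulAut V) u : V) : G) = u := congrArg Subtype.val hxu
      rw [h4] at h3
      calc t * (u : G) = t * u * t⁻¹ * t := by group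
        _ = u * t := by rw [← h3]
    rcases spf ℓ (FF M) G e V γ hL U W hS t ht u u.2 h2 with h3 | h3
    · left
      apply Subtype.ext
      apply MulEquiv.ext
      intro w
      apply Subtype.ext
      have h4 := h1 w
      rw [h4, ← (Subgroup.mem_centralizer_iff.1 h3 w w.2)]
      simp
    · right
      exact Subgroup.mem_subgroupOf.2 h3

end Pool.Agent.PFD.H63
end
end -- Pool.Agent.Helper63_PFD.EGX

section -- Pool.Agent.Helper68_PST.STL

/-!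
# Squad PST, row STL: the input of the group level from the theorem for algebras, class KP
-/

set_option autoImplicit false

noncomputable section

namespace Pool.Agent.PST.H68

open Pool.Agent.Helper51_AWC Pool.Agent.Helper79_WRA Pool.Agent.PP Pool.Agent.PP.KF
open Pool.Agent.PP.K9 Pool.Agent.PP.K9.H97 Pool.Agent.PP.H75 Pool.Agent.PP.T3 Pool.Agent.PP.T2
open Pool.Agent.PFD (Ei)
open Pool.Agent.PFC (Jd Crn jal Cz cv)
open Pool.Agent.PSS

attribute [local instance] Ideal.Quotient.field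

/-- row STL -/
theorem stl (ecb : EcbStmt) (kng : KngStmt) (clg : ClgStmt) (jnw : JnwStmt) (nwg : NwgStmt) (dzc : DzcStmt)
    (jex : PFC.JexStmt) : StlStmt := by
  intro ats ℓ hℓ M iM hM G iG iFG e V γ hL W hWV hK c hc
  have hg : GoodF ℓ (FF M) := H50.fld ℓ hℓ.out M hM
  have : CharP (FF M) ℓ := hg.char
  have : IsAlgClosed (FF M) := hg.closed
  have hix : ¬ ℓ ∣ ix V γ :=
    K9.H34.inx ℓ M hM G e hL.blk V hL.tp hL.ab γ hL.gam.supp hL.gam.blk hL.und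
  let iC : CommGroup V := { (inferInstance : Group V) with
    mul_comm := fun a b => Subtype.ext (hL.ab a a.2 b b.2) }
  have hfin : Finite V := inferInstance
  let iFV : Fintype V := Fintype.ofFinite V
  have hfinM : Finite (MulAut V) := Finite.of_injective (fun f : MulAut V => (f : V → V))
    DFunLike.coe_injective
  let iFE : Fintype (Ei V γ) := Fintype.ofFinite _
  have hmap : ∀ x : Ei V γ, ∃ t ∈ Tg V γ, ∀ w : V, V.subtype ((Ei V γ).subtype x w) =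
      t * V.subtype w * t⁻¹ := by
    rintro ⟨x, t, ht, rfl⟩
    exact ⟨t, ht, fun w => rfl⟩
  have hmap2 : ∀ t ∈ Tg V γ, ∃ x : Ei V γ, ∀ w : V, V.subtype ((Ei V γ).subtype x w) =
      t * V.subtype w * t⁻¹ := by
    intro t ht
    have h2 : t ∈ Subgroup.normalizer (V : Set G) := (Subgroup.mem_inf.1 ht).1
    exact ⟨⟨V.normalizerMonoidHom ⟨t, h2⟩, ⟨⟨t, h2⟩, ht, rfl⟩⟩, fun w => rfl⟩
  have hW : (W.subgroupOf V).map V.subtype = W := Subgroup.map_subgroupOf_eq_of_le hWV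
  have hcop : ¬ ℓ ∣ Nat.card (Ei V γ) := by
    rw [PFD.H63.card_Ei]
    exact hix
  have hCh := ecb ℓ V (Ei V γ) (W.subgroupOf V) hℓ.out hL.tp.pg hcop hK
  obtain ⟨_, _, U, X, hS⟩ := hK
  obtain ⟨n, ψ, hchn, hrs, hfre⟩ := kng ℓ V (Ei V γ) (W.subgroupOf V) U X hCh hS
  obtain ⟨j, hj⟩ := jex ℓ M hM G e V γ hL
  have hv : ∀ (w : V) x, j (V.subtype w * x * (V.subtype w)⁻¹) = j x :=
    fun w x => hj.iv w w.2 x
  have hA := clg ℓ M hM G e V γ hL j hj V (Ei V γ) V.subtype Subtype.val_injective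
    V.range_subtype (Ei V γ).subtype hmap2 hmap hj.id hv
  have hj' := jnw ℓ M hM G e V γ hL W hWV c hc j hj
  obtain ⟨nw⟩ := nwg ℓ (FF M) G V V.subtype Subtype.val_injective hL.tp.pg (W.subgroupOf V) W hW
    j hj.id hv hj'.id
  have h := ats n ℓ (FF M) V (Ei V γ) (Crn hj.id) (Crn hj'.id) (Ei V γ).subtype
    (jal hj.id V.subtype hv) (W.subgroupOf V) ψ hL.tp.pg hcop hchn hrs (Or.inr hfre) hA nw
  rw [dzc ℓ M hM G e V γ hL j hj hj.id, dzc ℓ M hM _ c _ _ hc _ hj' hj'.id] at h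
  exact h

end Pool.Agent.PST.H68
end
end -- Pool.Agent.Helper68_PST.STL

section -- Pool.Agent.Helper97_PST.CLP

/-!
# Squad PST, row CLP (helper97): from the clean hypotheses to the class `KP`
-/

set_option autoImplicit false

open scoped BigOperators

noncomputable section

namespace Pool.Agent.PST.H97

open Pool.Agent.PST
open Pool.Agent.Helper51_AWC Pool.Agent.Helper79_WRA Pool.Agent.PP Pool.Agent.PP.KF
open Pool.Agent.PP.K9 Pool.Agent.PP.K9.H97 Pool.Agent.PP.H75 Pool.Agent.PP.T3 Pool.Agent.PP.T2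
open Pool.Agent.PP.TB (Zd Star iz cz)
open Pool.Agent.PFD (Ei)
open Pool.Agent.PSS

attribute [local instance] Ideal.Quotient.field

theorem ne_bot_of {G : Type} [Group G] {U V : Subgroup G} (hUV : U ≤ V) (hU : U ≠ ⊥) :
    U.subgroupOf V ≠ ⊥ := by
  intro h1
  apply hU
  rw [eq_bot_iff]
  intro u hu
  have h6 : (⟨u, hUV hu⟩ : V) ∈ U.subgroupOf V := Subgroup.mem_subgroupOf.2 hu
  rw [h1, Subgroup.mem_bot] at h6
  rw [Subgroup.mem_bot]
  exact congrArg Subtype.val h6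

theorem clp (msu : MsuStmt) (edf : PFD.EdfStmt) (lke : PFD.LkeStmt) (inx : K9.InxStmt) :
    ClpStmt := by
  intro ℓ hℓ M _ hM G _ _ e V γ hL hV W U h
  have hab : ∀ a b : V, a * b = b * a := fun a b => Subtype.ext (hL.ab a a.2 b b.2)
  -- the order of `Ei`
  have hcop : ¬ ℓ ∣ Nat.card (Ei V γ) := by
    have h1 := (lke ℓ (FF M) G e V γ hL).1
    rw [← h1]
    have h2 := inx ℓ M hM G e hL.blk V hL.tp hL.ab γ hL.gam.supp hL.gam.blk hL.und
    have h3 : iz V V γ = (Subgroup.centralizer (V : Set G)).relIndex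
        (Subgroup.normalizer (V : Set G) ⊓ stabF γ) := by
      unfold iz
      rw [Subgroup.inf_relIndex_right]
      rfl
    rw [h3]
    exact h2
  -- stable subgroups
  have hst : ∀ Z : Subgroup G, (∀ t ∈ Tg V γ, ∀ z ∈ Z, t * z * t⁻¹ ∈ Z) →
      ∀ a ∈ Ei V γ, ∀ z ∈ Z.subgroupOf V, a z ∈ Z.subgroupOf V := by
    rintro Z hZ _ ⟨⟨t, htn⟩, ht, rfl⟩ z hz
    rw [Subgroup.mem_subgroupOf]
    exact hZ t (Subgroup.mem_subgroupOf.1 ht) z (Subgroup.mem_subgroupOf.1 hz)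
  -- commutators
  have hcm : ∀ a ∈ Ei V γ, ∀ b ∈ Ei V γ, ∀ v : V, a (b v) * (b (a v))⁻¹ ∈ W.subgroupOf V := by
    intro a ha b hb v
    obtain ⟨⟨s, hsn⟩, hs, hsa⟩ := ha
    obtain ⟨⟨t, htn⟩, ht, htb⟩ := hb
    have ea : ∀ u : V, ((a u : V) : G) = s * (u : G) * s⁻¹ := by
      intro u
      rw [← hsa]
      rfl
    have eb : ∀ u : V, ((b u : V) : G) = t * (u : G) * t⁻¹ := by
      intro u
      rw [← htb]
      rfl
    rw [Subgroup.mem_subgroupOf]
    have h1 := h.cm s (Subgroup.mem_subgroupOf.1 hs) t (Subgroup.mem_subgroupOf.1 ht)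
      ((b (a v) : V) : G) (b (a v)).2
    have h2 : s * t * s⁻¹ * t⁻¹ * ((b (a v) : V) : G) * (s * t * s⁻¹ * t⁻¹)⁻¹ *
        ((b (a v) : V) : G)⁻¹ = ((a (b v) * (b (a v))⁻¹ : V) : G) := by
      rw [Subgroup.coe_mul, Subgroup.coe_inv, ea (b v), eb v, eb (a v), ea v]
      group
    rw [h2] at h1
    exact h1
  by_cases hU : U = ⊥
  · -- `W = 1`
    have hW : W = ⊥ := h.nt hU
    have hEc : ∀ a ∈ Ei V γ, ∀ b ∈ Ei V γ, ∀ v : V, a (b v) = b (a v) := by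
      intro a ha b hb v
      have h1 := hcm a ha b hb v
      rw [hW, Subgroup.bot_subgroupOf, Subgroup.mem_bot] at h1
      exact mul_inv_eq_one.1 h1
    have hne : ∃ v : V, v ≠ 1 := by
      by_contra hc
      push Not at hc
      apply hV
      rw [eq_bot_iff]
      intro x hx
      have h1 := hc ⟨x, hx⟩
      rw [Subgroup.mem_bot]
      exact congrArg Subtype.val h1
    obtain ⟨W', h1⟩ := msu V (Ei V γ) hne hEc
    refine ⟨W', hab, ?_, W', ⊥, h1⟩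
    intro a ha b hb v
    rw [hEc a ha b hb v, mul_inv_cancel]
    exact one_mem W'
  · have hUV : U ≤ V := h.uw.trans h.wd
    obtain ⟨U', X', x1, x2, x3, x4, x5, x6⟩ := Pool.Agent.PSS.H44.relEdf edf Fact.out hL.tp.1 hab
      (Ei V γ) hcop (U.subgroupOf V) (W.subgroupOf V)
      (fun u hu => Subgroup.mem_subgroupOf.2 (h.uw (Subgroup.mem_subgroupOf.1 hu)))
      (ne_bot_of hUV hU) (hst U h.su) (hst W h.sw)
      (by
        rintro _ ⟨⟨t, htn⟩, ht, rfl⟩ u hu hu1 hfix w hw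
        have h7 : t * (u : G) * t⁻¹ = u := congrArg Subtype.val hfix
        have h8 := h.fr t (Subgroup.mem_subgroupOf.1 ht) u (Subgroup.mem_subgroupOf.1 hu)
          (fun h => hu1 (Subtype.ext h)) (mul_inv_eq_iff_eq_mul.1 h7)
        apply Subtype.ext
        show t * (w : G) * t⁻¹ = w
        have h9 : (w : G) * t = t * w :=
          (Subgroup.mem_centralizer_iff.1 h8) w (Subgroup.mem_subgroupOf.1 hw)
        rw [← h9, mul_inv_cancel_right])
    exact ⟨W.subgroupOf V, hab, hcm, U', X',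
      { ux := x1
        uw := x2
        nt := x3
        su := x4
        sx := x5
        fr := x6 }⟩

end Pool.Agent.PST.H97
end
end -- Pool.Agent.Helper97_PST.CLP
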