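import Pool.Agent.Helper12_AWB.B184
import Pool.Agent.Helper12_AWB.B264
import Pool.Agent.Helper12_AWB.B285

/-!
# Merged copies (generated) of the modules

* `Pool.Agent.Helper13_WAT.WAT`
* `Pool.Agent.Helper11_PFD.LEQ`
* `Pool.Agent.Helper11_PFD.MNY`
* `Pool.Agent.Helper11_PSS.LEN`
* `Pool.Agent.Helper3_PST.STT`
-/

set_option autoImplicit false

section -- Pool.Agent.Helper13_WAT.WAT

/-!
# WAT, row WAT: the theorem of Watanabe
-/

open scoped BigOperators commutatorElement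

noncomputable section

namespace Pool.Agent.PP.TV.H13

open Pool.Agent.Helper51_AWC Pool.Agent.Helper79_WRA Pool.Agent.PP Pool.Agent.PP.KF
open Pool.Agent.PP.K9 Pool.Agent.PP.K9.H97 Pool.Agent.PP.H75 Pool.Agent.PP.T3 Pool.Agent.PP.T2
open Pool.Agent.PP.T5 Pool.Agent.PP.TB
open Pool.Agent.PP.T8 (Rv Fq Fr Qt3Stmt FqtStmt)

attribute [local instance] Ideal.Quotient.field

section lem

variable {F G : Type} [Field F] [Group G] [Finite G]

omit [Finite G] in
/-- an element of `V` which commutes with the inertial group, in a subgroup -/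
theorem zf_sub' {X V : Subgroup G}
    (hVX : V ≤ X) (hCX : Subgroup.centralizer (V : Set G) ≤ X) {γ : G → F}
    (hγ : ∀ x, x ∉ Subgroup.centralizer (V : Set G) → γ x = 0) {z : G} (hz : z ∈ Zf V γ)
    (hzX : z ∈ X) : (⟨z, hzX⟩ : X) ∈ Zf (V.subgroupOf X) (fun t : X => γ t) := by
  refine ⟨hz.1, ?_⟩
  rw [T3.H85.Tg_eq hVX hCX hγ]
  apply Subgroup.mem_centralizer_iff.2
  intro t ht
  exact Subtype.ext (Subgroup.mem_centralizer_iff.1 hz.2 (t : G) ht.1)

omit [Field F] [Finite G] in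
/-- the centraliser of `z w` in the inertial group -/
theorem tz_eq {V : Subgroup G} {γ : G → F} {z : G} (hz : z ∈ Zf V γ) (w : G) :
    Tg V γ ⊓ Cu (z * w) = Tg V γ ⊓ Cu w := by
  ext t
  rw [Subgroup.mem_inf, Subgroup.mem_inf]
  refine and_congr_right ?_
  intro ht
  have h1 : t * z = z * t := Subgroup.mem_centralizer_iff.1 hz.2 t ht
  rw [Subgroup.mem_centralizer_singleton_iff, Subgroup.mem_centralizer_singleton_iff]
  constructor
  · intro h
    have h2 : z * (t * w) = z * (w * t) := by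
      rw [← mul_assoc, ← h1, mul_assoc, h, mul_assoc]
    exact mul_left_cancel h2
  · intro h
    rw [← mul_assoc, h1, mul_assoc, h, mul_assoc]

omit [Finite G] in
/-- the centralisers of `z` in the centralisers of `w` and of `z w` -/
theorem cu_eq (z w : G) : Cu w ⊓ Cu z = Cu (z * w) ⊓ Cu z := by
  ext t
  rw [Subgroup.mem_inf, Subgroup.mem_inf]
  rw [Subgroup.mem_centralizer_singleton_iff, Subgroup.mem_centralizer_singleton_iff,
    Subgroup.mem_centralizer_singleton_iff]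
  constructor
  · rintro ⟨h1, h2⟩
    refine ⟨?_, h2⟩
    rw [← mul_assoc, h2, mul_assoc, h1, mul_assoc]
  · rintro ⟨h1, h2⟩
    refine ⟨?_, h2⟩
    have h3 : z * (t * w) = z * (w * t) := by
      rw [← mul_assoc, ← h2, mul_assoc, h1, mul_assoc]
    exact mul_left_cancel h3

omit [Finite G] in
theorem cu_one : (Cu (1 : G)) = ⊤ := by
  rw [eq_top_iff]
  intro t _
  rw [Subgroup.mem_centralizer_singleton_iff, mul_one, one_mul]

omit [Finite G] in
/-- the local block at `1` -/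
theorem lc_one {ℓ : ℕ} {e : G → F} {V : Subgroup G} {γ : G → F} (hL : Ld ℓ e V γ) :
    Lc e V γ 1 e := by
  obtain ⟨φ, hφ⟩ : ∃ φ : Cu (1 : G) ≃* G, ∀ t, φ t = (t : G) :=
    ⟨(MulEquiv.subgroupCongr cu_one).trans Subgroup.topEquiv, fun t => rfl⟩
  have h1 : (fun t : Cu (1 : G) => e t) = fun t => e (φ t) := by
    funext t
    rw [hφ]
  refine ⟨⟨?_, ?_⟩, ?_, hL.und⟩
  · intro x hx
    exact absurd (by rw [cu_one]; exact Subgroup.mem_top x) hx
  · rw [h1]
    exact H20.IsBlk_equiv φ hL.blk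
  · rw [h1]
    exact (H20.IsBlk_equiv φ hL.blk).1.2

omit [Finite G] in
theorem ln_one (e : G → F) : ln (fun t : Cu (1 : G) => e t) = ln e := by
  obtain ⟨φ, hφ⟩ : ∃ φ : Cu (1 : G) ≃* G, ∀ t, φ t = (t : G) :=
    ⟨(MulEquiv.subgroupCongr cu_one).trans Subgroup.topEquiv, fun t => rfl⟩
  have h1 : (fun t : Cu (1 : G) => e t) = fun t => e (φ t) := by
    funext t
    rw [hφ]
  rw [h1]
  exact Pool.Agent.PP.H97.ncard_comp φ e

/-- exchange of two finite sums -/
theorem sum_swap {V X : Type} [Finite V] {S : Set X} (hS : S.Finite) (g : V → X → ℂ) :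
    ∑ᶠ v : V, ∑ᶠ χ ∈ S, g v χ = ∑ᶠ χ ∈ S, ∑ᶠ v : V, g v χ := by
  have := Fintype.ofFinite V
  rw [finsum_mem_eq_finite_toFinset_sum _ hS]
  have h1 : ∀ v, ∑ᶠ χ ∈ S, g v χ = ∑ χ ∈ hS.toFinset, g v χ := fun v =>
    finsum_mem_eq_finite_toFinset_sum _ hS
  simp only [h1, finsum_eq_sum_of_fintype]
  exact Finset.sum_comm

end lem

/-- the Fourier argument -/
theorem four {V : Type} [CommGroup V] [Finite V] (fou : FouStmt) (V₀ : Subgroup V) (f : V → ℂ)
    (h : ∀ lam : V →* ℂ, (∀ v ∈ V₀, lam v = 1) → (∃ v, lam v ≠ 1) → ∑ᶠ v : V, f v * lam v = 0)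
    (z : V) (hz : ∀ w ∈ V₀, w ≠ 1 → f (z * w) = f w) : f z = f 1 := by
  have h1 := fou V V₀ f h z
  have h2 : ∑ᶠ w : V₀, (f (z * w) - f w) = 0 := by
    rw [finsum_sub_distrib (Set.toFinite _) (Set.toFinite _), h1, sub_self]
  rw [finsum_eq_single _ (1 : V₀)] at h2
  · have h3 := sub_eq_zero.1 h2
    rwa [Subgroup.coe_one, mul_one] at h3
  · intro w hw
    rw [hz w w.2, sub_self]
    intro h'
    exact hw (Subtype.ext h')

/-- WAT -/
theorem wat (sta : TW.StaStmt) (tva : TvaStmt) (smm : SmmStmt) (fou : FouStmt) (cpv : CpvStmt)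
    (dbl : DblStmt) (loc : T3.LocStmt) (lsb : T3.LsbStmt) (zcp : TB.ZcpStmt)
    (inx : K9.InxStmt) : WatStmt := by
  intro ℓ hℓ M _ hM
  have hF : GoodF ℓ (FF M) := H50.fld ℓ Fact.out M hM
  suffices hmain : ∀ n : ℕ, ∀ (G : Type) [Group G] [Finite G], Nat.card G = n →
      ∀ (e : G → FF M) (V : Subgroup G) (γ : G → FF M), Ld ℓ e V γ → ∀ z ∈ Zf V γ,
      ∀ b : G → FF M, Lc e V γ z b → ln (fun t : Cu z => b t) = ln e by
    intro G _ _ e V γ h1 z hz b hb
    exact hmain _ G rfl e V γ h1 z hz b hb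
  intro n
  induction n using Nat.strong_induction_on with
  | _ n ih =>
  intro G _ _ hn e V γ hL z hz b hb
  obtain ⟨b', hZ, hS⟩ := sta ℓ M hM G e V γ hL
  have hlc : ∀ v ∈ V, Lc e V γ v (b' v) := fun v hv =>
    ⟨(hZ.lb v hv).1.bx, (hZ.lb v hv).1.und, (hZ.lb v hv).2⟩
  have hzV : z ∈ V := hz.1
  have hbz : b = b' z := (loc ℓ (FF M) hF G e V γ hL z hzV).2 _ _ hb (hlc z hzV)
  have hb1 : b' 1 = e := (loc ℓ (FF M) hF G e V γ hL 1 V.one_mem).2 _ _ (hlc 1 V.one_mem)
    (lc_one hL)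
  have hix : ¬ ℓ ∣ ix V γ := inx ℓ M hM G e hL.blk V hL.tp hL.ab γ hL.gam.supp hL.gam.blk hL.und
  obtain ⟨c1, c2, -⟩ := cpv ℓ (FF M) hF G e V γ hL hix
  obtain ⟨-, -, -, -, -, q6, -⟩ := zcp ℓ M hM G e V V γ b' hZ
  -- the local blocks in the centralisers
  have hprop : ∀ u ∈ V, Cu u ≠ ⊤ → ∃ (hzu : z ∈ Cu u) (c : Cu u → FF M),
      Lc (fun t : Cu u => b' u t) (V.subgroupOf (Cu u)) (fun t : Cu u => γ t) ⟨z, hzu⟩ c ∧
      ln (fun t : Cu (⟨z, hzu⟩ : Cu u) => c t) = ln (fun t : Cu u => b' u t) := by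
    intro u hu hne
    have hzu : z ∈ Cu u := Subgroup.mem_centralizer_singleton_iff.2 (hL.ab z hzV u hu)
    have hVX : V ≤ Cu u := fun v hv => Subgroup.mem_centralizer_singleton_iff.2 (hL.ab v hv u hu)
    have hCX : Subgroup.centralizer (V : Set G) ≤ Cu u := fun g hg =>
      Subgroup.mem_centralizer_singleton_iff.2 (Subgroup.mem_centralizer_iff.1 hg u hu).symm
    obtain ⟨l1, -⟩ := lsb ℓ M hM G e V γ hL u hu (b' u) (hlc u hu)
    have hz' := zf_sub' hVX hCX hL.gam.supp hz hzu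
    obtain ⟨c, hc⟩ := (loc ℓ (FF M) hF (Cu u) _ _ _ l1 ⟨z, hzu⟩ hz'.1).1
    refine ⟨hzu, c, hc, ?_⟩
    have hlt : Nat.card (Cu u) < n := by
      rw [← hn]
      exact lt_of_le_of_ne (Subgroup.card_le_card_group _)
        (fun h => hne (Subgroup.card_eq_iff_eq_top _ |>.1 h))
    exact ih _ hlt (Cu u) rfl _ _ _ l1 _ hz' c hc
  -- the terms for `w ≠ 1` are equal
  have hterm : ∀ w ∈ Vc V γ, w ≠ 1 →
      ln (fun t : Cu (z * w) => b' (z * w) t) = ln (fun t : Cu w => b' w t) := by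
    intro w hw hw1
    have hwV : w ∈ V := c1 hw
    have hzwV : z * w ∈ V := V.mul_mem hzV hwV
    have hnz : w ∉ Zf V γ := by
      intro h
      apply hw1
      rw [← Subgroup.mem_bot, ← c2]
      exact ⟨h, hw⟩
    have hn1 : Cu w ≠ ⊤ := by
      intro h
      apply hnz
      refine ⟨hwV, Subgroup.mem_centralizer_iff.2 ?_⟩
      intro t _
      have h1 : t ∈ Cu w := by rw [h]; exact Subgroup.mem_top t
      exact Subgroup.mem_centralizer_singleton_iff.1 h1
    have hn2 : Cu (z * w) ≠ ⊤ := by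
      intro h
      apply hnz
      refine ⟨hwV, Subgroup.mem_centralizer_iff.2 ?_⟩
      intro t ht
      have h1 : t ∈ Tg V γ ⊓ Cu (z * w) := ⟨ht, by rw [h]; exact Subgroup.mem_top t⟩
      rw [tz_eq hz] at h1
      exact Subgroup.mem_centralizer_singleton_iff.1 h1.2
    obtain ⟨hz1, d1, hd1, he1⟩ := hprop w hwV hn1
    obtain ⟨hz2, d2, hd2, he2⟩ := hprop (z * w) hzwV hn2
    rw [← he1, ← he2]
    exact (dbl ℓ M hM G e V γ hL w hwV (z * w) hzwV (b' w) (b' (z * w)) (hlc w hwV)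
      (hlc _ hzwV) ⟨z, hz1⟩ ⟨z, hz2⟩ hzV hzV (cu_eq z w) d1 d2 hd1 hd2).symm
  -- Fourier inversion
  let _ : CommGroup V := { (inferInstance : Group V) with
    mul_comm := fun a b => Subtype.ext (hL.ab _ a.2 _ b.2) }
  have hfin : (IrrE M e).Finite := T3.H41.irrE_fin M e
  have hcz : ∀ w : G, cz V V γ (z * w) = cz V V γ w := by
    intro w
    unfold cz
    rw [tz_eq hz]
  have hfo := four fou ((Vc V γ).subgroupOf V)
    (fun v : V => (cz V V γ (v : G) : ℂ) * (ln (fun t : Cu (v : G) => b' v t) : ℂ)) ?_ ⟨z, hzV⟩ ?_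
  · have h1 : ((cz V V γ z : ℕ) : ℂ) * (ln (fun t : Cu z => b' z t) : ℂ) =
        ((cz V V γ (1 : G) : ℕ) : ℂ) * (ln (fun t : Cu (1 : G) => b' 1 t) : ℂ) := hfo
    have h2 := hcz 1
    rw [mul_one] at h2
    rw [h2] at h1
    have h3 : ((cz V V γ (1 : G) : ℕ) : ℂ) ≠ 0 := by
      have := q6 1 V.one_mem
      exact_mod_cast this.ne'
    have h4 := mul_left_cancel₀ h3 h1
    have h5 : ln (fun t : Cu z => b' z t) = ln (fun t : Cu (1 : G) => b' 1 t) := by
      exact_mod_cast h4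
    rw [hbz, h5, hb1, ln_one]
  · intro lam hl1 hl2
    have hLi : Li V γ lam := by
      intro t ht v w hw
      have h1 : w * v⁻¹ ∈ (Vc V γ).subgroupOf V := by
        rw [Subgroup.mem_subgroupOf]
        have h2 : ⁅t, (v : G)⁆ ∈ Vc V γ := Subgroup.commutator_mem_commutator ht v.2
        rw [commutatorElement_def, ← hw] at h2
        exact h2
      have h2 := hl1 _ h1
      have h3 : w = w * v⁻¹ * v := by group
      rw [h3, map_mul, h2, one_mul]
    have h1 : ∀ v : V, (cz V V γ (v : G) : ℂ) * (ln (fun t : Cu (v : G) => b' v t) : ℂ) *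
        lam v = ∑ᶠ χ ∈ IrrE M e, (cz V V γ (v : G) : ℂ) * lam v *
          mm M ℓ (Cu (v : G)) v (b' v) χ χ := by
      intro v
      rw [← smm ℓ M hM G e V γ b' hZ v v.2, ← mul_finsum_mem]
      ring
    rw [finsum_congr h1, sum_swap hfin]
    apply finsum_mem_eq_zero_of_forall_eq_zero
    intro χ hχ
    exact tva ℓ M hM G e V γ b' hZ hS lam hLi hl2 χ hχ
  · intro w hw hw1
    have hw' : (w : G) ∈ Vc V γ := Subgroup.mem_subgroupOf.1 hw
    have hw1' : (w : G) ≠ 1 := fun h => hw1 (Subtype.ext h)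
    change (cz V V γ (z * w : G) : ℂ) * (ln (fun t : Cu (z * w : G) => b' (z * w) t) : ℂ) =
      (cz V V γ (w : G) : ℂ) * (ln (fun t : Cu (w : G) => b' w t) : ℂ)
    rw [hcz, hterm _ hw' hw1']

end Pool.Agent.PP.TV.H13
end
end -- Pool.Agent.Helper13_WAT.WAT

section -- Pool.Agent.Helper11_PFD.LEQ

/-!
# PFD, row LEQ: the number of the modular characters
-/

open scoped BigOperators

noncomputable section

namespace Pool.Agent.PFD.H11

open Pool.Agent.Helper51_AWC Pool.Agent.Helper79_WRA Pool.Agent.PP Pool.Agent.PP.KF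
open Pool.Agent.PP.K9 Pool.Agent.PP.K9.H97 Pool.Agent.PP.H75 Pool.Agent.PP.T3 Pool.Agent.PP.T2
open Pool.Agent.PP.TB (Zd Star iz cz)

attribute [local instance] Ideal.Quotient.field

/-- isomorphic groups have the same number of conjugacy classes -/
theorem card_cc {A B : Type} [Group A] [Group B] (f : A ≃* B) :
    Nat.card (ConjClasses A) = Nat.card (ConjClasses B) := by
  refine Nat.card_congr ⟨ConjClasses.map (f : A →* B), ConjClasses.map (f.symm : B →* A),
    ?_, ?_⟩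
  · intro x
    induction x using Quotient.inductionOn with
    | _ x =>
      change ConjClasses.mk (f.symm (f x)) = ConjClasses.mk x
      rw [f.symm_apply_apply]
  · intro x
    induction x using Quotient.inductionOn with
    | _ x =>
      change ConjClasses.mk (f (f.symm x)) = ConjClasses.mk x
      rw [f.apply_symm_apply]

theorem fxs_top {V E : Type} [Group V] [Group E] (φ : E →* MulAut V) (v : V)
    (h : ∀ e, φ e v = v) : Fxs φ v = ⊤ := by
  rw [eq_top_iff]
  intro e _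
  exact h e

/-- comparison of two sums -/
theorem cmp {V : Type} [Fintype V] (Z : V → Prop) (F L K : V → ℕ) (f a b : ℕ) (hf : 0 < f)
    (v0 : V) (h0 : Z v0) (hZF : ∀ v, Z v → F v = f) (hZL : ∀ v, Z v → L v = a)
    (hZK : ∀ v, Z v → K v = b) (hn : ∀ v, ¬ Z v → L v = K v)
    (h : ∑ v, F v * L v = ∑ v, F v * K v) : a = b := by
  classical
  rw [← Finset.sum_filter_add_sum_filter_not Finset.univ Z,
    ← Finset.sum_filter_add_sum_filter_not Finset.univ Z (fun v => F v * K v)] at h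
  have h1 : ∑ v ∈ Finset.univ.filter (fun v => ¬ Z v), F v * L v =
      ∑ v ∈ Finset.univ.filter (fun v => ¬ Z v), F v * K v := by
    apply Finset.sum_congr rfl
    intro v hv
    rw [hn v (Finset.mem_filter.1 hv).2]
  have h2 : ∑ v ∈ Finset.univ.filter (fun v => Z v), F v * L v =
      (Finset.univ.filter (fun v => Z v)).card * (f * a) := by
    rw [← smul_eq_mul, ← Finset.sum_const]
    apply Finset.sum_congr rfl
    intro v hv
    rw [hZF v (Finset.mem_filter.1 hv).2, hZL v (Finset.mem_filter.1 hv).2]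
  have h3 : ∑ v ∈ Finset.univ.filter (fun v => Z v), F v * K v =
      (Finset.univ.filter (fun v => Z v)).card * (f * b) := by
    rw [← smul_eq_mul, ← Finset.sum_const]
    apply Finset.sum_congr rfl
    intro v hv
    rw [hZF v (Finset.mem_filter.1 hv).2, hZK v (Finset.mem_filter.1 hv).2]
  rw [h1, h2, h3] at h
  have h4 := Nat.add_right_cancel h
  have h5 : 0 < (Finset.univ.filter (fun v => Z v)).card :=
    Finset.card_pos.2 ⟨v0, Finset.mem_filter.2 ⟨Finset.mem_univ _, h0⟩⟩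
  exact Nat.eq_of_mul_eq_mul_left hf (Nat.eq_of_mul_eq_mul_left h5 h4)

theorem leq (kxe : KxeStmt) (ncg : NcgStmt) (ksm : KsmStmt) (lke : LkeStmt) (lnt : LntStmt)
    (spx : SpxStmt) (sta : TW.StaStmt) (lsb : T3.LsbStmt) (inx : K9.InxStmt) : LeqStmt := by
  intro ℓ hℓ M _ hM
  have hF : GoodF ℓ (FF M) := H50.fld ℓ Fact.out M hM
  suffices hmain : ∀ n : ℕ, ∀ (G : Type) [Group G] [Finite G], Nat.card G = n →
      ∀ (e : G → FF M) (V : Subgroup G) (γ : G → FF M), Ld ℓ e V γ → ∀ U W : Subgroup G,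
      Sp V γ U W → ln e = ke V γ by
    intro G _ _ e V γ h1 U W h2
    exact hmain _ G rfl e V γ h1 U W h2
  intro n
  induction n using Nat.strong_induction_on with
  | _ n ih =>
  intro G _ _ hn e V γ hL U W hS
  obtain ⟨b, hZ, hSt⟩ := sta ℓ M hM G e V γ hL
  have hlc : ∀ v ∈ V, Lc e V γ v (b v) := fun v hv =>
    ⟨(hZ.lb v hv).1.bx, (hZ.lb v hv).1.und, (hZ.lb v hv).2⟩
  obtain ⟨l1, l2⟩ := lke ℓ (FF M) G e V γ hL
  have hk : (IrrE M e).ncard = Nat.card (ConjClasses (V ⋊[(Ei V γ).subtype] Ei V γ)) :=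
    kxe ℓ M hM G e V γ hL U W hS
  have hCT := T3.H66.cent_le_Tg hL
  have hix : ¬ ℓ ∣ ix V γ := inx ℓ M hM G e hL.blk V hL.tp hL.ab γ hL.gam.supp hL.gam.blk hL.und
  have hiz : iz V V γ = ix V γ := by
    unfold iz ix
    rw [inf_eq_left.2 hCT]
  have hab : ∀ a c : V, a * c = c * a := fun a c => Subtype.ext (hL.ab _ a.2 _ c.2)
  have hco : (Nat.card V).Coprime (Nat.card (Ei V γ)) := by
    obtain ⟨k, hk'⟩ := IsPGroup.iff_card.1 hL.tp.pg
    rw [hk', ← l1, hiz]
    exact Nat.Coprime.pow_left _ ((Nat.Prime.coprime_iff_not_dvd hℓ.out).2 hix)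
  have hN := ncg V (Ei V γ) (Ei V γ).subtype hab hco
  have hK := ksm ℓ M hM G e V γ b hZ hSt
  rw [l1, hk, hN] at hK
  have := Fintype.ofFinite V
  rw [finsum_eq_sum_of_fintype, finsum_eq_sum_of_fintype] at hK
  have hK2 : ∑ v : V, Nat.card (Fxs (Ei V γ).subtype v) *
        ln (fun t : Cu (v : G) => b v t) =
      ∑ v : V, Nat.card (Fxs (Ei V γ).subtype v) *
        Nat.card (ConjClasses (Fxs (Ei V γ).subtype v)) := by
    rw [hK]
    apply Finset.sum_congr rfl
    intro v _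
    rw [(l2 v).1]
  have hZc : ∀ v : V, (v : G) ∈ Subgroup.center G → Fxs (Ei V γ).subtype v = ⊤ := by
    intro v hv
    apply fxs_top
    rintro ⟨_, t, -, rfl⟩
    apply Subtype.ext
    change (t : G) * v * (t : G)⁻¹ = v
    rw [Subgroup.mem_center_iff.1 hv, mul_inv_cancel_right]
  refine cmp (fun v : V => (v : G) ∈ Subgroup.center G) _ _ _ (Nat.card (Ei V γ)) (ln e)
    (ke V γ) Nat.card_pos 1 (Subgroup.one_mem _) ?_ ?_ ?_ ?_ hK2
  · intro v hv
    change Nat.card (Fxs (Ei V γ).subtype v) = _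
    rw [hZc v hv]
    exact Subgroup.card_top
  · intro v hv
    exact lnt ℓ (FF M) hF G e V γ hL v v.2 hv (b v) (hlc v v.2)
  · intro v hv
    change Nat.card (ConjClasses (Fxs (Ei V γ).subtype v)) = _
    rw [hZc v hv]
    exact card_cc Subgroup.topEquiv
  · intro v hv
    have hCX : Subgroup.centralizer (V : Set G) ≤ Cu (v : G) := fun g hg =>
      Subgroup.mem_centralizer_singleton_iff.2
        (Subgroup.mem_centralizer_iff.1 hg v v.2).symm
    have hlt : Nat.card (Cu (v : G)) < n := by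
      rw [← hn]
      refine lt_of_le_of_ne (Subgroup.card_le_card_group _) (fun h => hv ?_)
      rw [Subgroup.mem_center_iff]
      intro g
      have h1 : g ∈ Cu (v : G) := by
        rw [(Subgroup.card_eq_iff_eq_top _).1 h]
        exact Subgroup.mem_top g
      exact Subgroup.mem_centralizer_singleton_iff.1 h1
    obtain ⟨m1, -⟩ := lsb ℓ M hM G e V γ hL v v.2 (b v) (hlc v v.2)
    have h2 := ih _ hlt (Cu (v : G)) rfl _ _ _ m1 _ _ (spx ℓ (FF M) G e V γ hL U W hS _ hCX)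
    change ln (fun t : Cu (v : G) => b v t) = _
    rw [h2]
    exact (l2 v).2

end Pool.Agent.PFD.H11
end
end -- Pool.Agent.Helper11_PFD.LEQ

section -- Pool.Agent.Helper11_PFD.MNY

/-!
# PFD, row MNY: the alternating sums of the images are zero
-/

open scoped BigOperators

noncomputable section

namespace Pool.Agent.PFD.H11

open Pool.Agent.Helper51_AWC Pool.Agent.Helper79_WRA Pool.Agent.PP Pool.Agent.PP.KF
open Pool.Agent.PP.K9 Pool.Agent.PP.K9.H97 Pool.Agent.PP.H75 Pool.Agent.PP.T3 Pool.Agent.PP.T2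

attribute [local instance] Ideal.Quotient.field

theorem mny (chr : ChrStmt) (yad : YadStmt) (bnr : BnrStmt) (leq : LeqStmt) (spx : SpxStmt)
    (spj : SpjStmt) (eix : EixStmt) (nvt : T3.NvtStmt) (lcj : T3.LcjStmt) : MnyStmt := by
  intro ℓ hℓ M _ hM
  have hF : GoodF ℓ (FF M) := H50.fld ℓ Fact.out M hM
  suffices hmain : ∀ n : ℕ, ∀ (G : Type) [Group G] [Finite G] (e : G → FF M) (V : Subgroup G)
      (γ : G → FF M), Ld ℓ e V γ → ∀ U W : Subgroup G, Sp V γ U W →
      ∀ (A : Type) [Group A] [Finite A], Nat.card A = n → ∀ p : G →* A, Function.Surjective p →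
      p.ker ≤ V → p.ker ≠ V → YY ℓ ⊤ (push p e) = 0 by
    intro G _ _ e V γ h1 U W h2 A _ _ p h3 h4 h5
    exact hmain _ G e V γ h1 U W h2 A rfl p h3 h4 h5
  intro n
  induction n using Nat.strong_induction_on with
  | _ n ih =>
  intro G _ _ e V γ hL U W hS A _ _ hn p hp hK hKV
  have hY : ∀ R : Subgroup G, IsPGroup ℓ R → p.ker ≤ R → p.ker ≠ R → Gd e R →
      Nat.card R < Nat.card V → YQ ℓ e R = 0 := by
    intro R hR hKR hne _ hRV
    have hfid : IsIdem (fun t : Subgroup.normalizer (R : Set G) => br R e t) :=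
      (H20.brm ℓ (FF M) hF G R (Subgroup.normalizer (R : Set G)) hR
        (Subgroup.centralizer_le_normalizer _) le_rfl).2.2 e hL.blk.1
    unfold YQ
    refine yad ℓ (FF M) hF _ _ _ (QuotientGroup.mk'_surjective _) _ hfid ?_
    intro c hc1 hc2
    obtain ⟨g, hg, hL1⟩ := bnr ℓ M hM G e V γ hL R hR c hc1 hc2
    have hL' : Ld ℓ e (conjS g V) (cj g γ) := (lcj ℓ (FF M) hF G e V γ hL g).1
    have hCN : Subgroup.centralizer ((conjS g V : Subgroup G) : Set G) ≤
        Subgroup.normalizer (R : Set G) :=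
      (Subgroup.centralizer_le hg).trans (Subgroup.centralizer_le_normalizer _)
    have hVN : conjS g V ≤ Subgroup.normalizer (R : Set G) := by
      intro x hx
      apply hCN
      rw [Subgroup.mem_centralizer_iff]
      intro y hy
      exact hL'.ab y hy x hx
    have hS1 := spx ℓ (FF M) G e _ _ hL' _ _ (spj (FF M) G V γ U W hS g) _ hCN
    have hRN : R ≤ Subgroup.normalizer (R : Set G) := Subgroup.le_normalizer
    have hcR : Nat.card (R.subgroupOf (Subgroup.normalizer (R : Set G))) = Nat.card R :=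
      Nat.card_congr (Subgroup.subgroupOfEquivOfLe hRN).toEquiv
    have hlt : Nat.card (Subgroup.normalizer (R : Set G) ⧸
        R.subgroupOf (Subgroup.normalizer (R : Set G))) < n := by
      have h1 := (R.subgroupOf
        (Subgroup.normalizer (R : Set G))).card_eq_card_quotient_mul_card_subgroup
      have h2 : Nat.card (Subgroup.normalizer (R : Set G)) ≤ Nat.card G :=
        Subgroup.card_le_card_group _
      have h3 : Nat.card G = Nat.card A * Nat.card p.ker := by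
        rw [p.ker.card_eq_card_quotient_mul_card_subgroup]
        rw [Nat.card_congr (QuotientGroup.quotientKerEquivOfSurjective p hp).toEquiv]
      have h4 : Nat.card p.ker < Nat.card R := by
        refine lt_of_le_of_ne (Subgroup.card_le_of_le hKR) (fun h => hne ?_)
        exact Subgroup.eq_of_le_of_card_ge hKR h.ge
      have h5 : 0 < Nat.card A := Nat.card_pos
      rw [hcR] at h1
      rw [h1, h3, hn] at h2
      rw [hn] at h5
      by_contra h6
      have h7 : n * Nat.card R ≤ Nat.card (Subgroup.normalizer (R : Set G) ⧸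
          R.subgroupOf (Subgroup.normalizer (R : Set G))) * Nat.card R :=
        Nat.mul_le_mul_right _ (not_lt.1 h6)
      have h8 : n * Nat.card p.ker < n * Nat.card R := Nat.mul_lt_mul_of_pos_left h4 h5
      omega
    refine ih _ hlt _ c _ _ hL1 _ _ hS1 _ rfl _ (QuotientGroup.mk'_surjective _) ?_ ?_
    · rw [QuotientGroup.ker_mk']
      intro x hx
      exact Subgroup.mem_subgroupOf.2 (hg (Subgroup.mem_subgroupOf.1 hx))
    · rw [QuotientGroup.ker_mk']
      intro h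
      have h1 : Nat.card ((conjS g V).subgroupOf (Subgroup.normalizer (R : Set G))) =
          Nat.card V := by
        rw [Nat.card_congr (Subgroup.subgroupOfEquivOfLe hVN).toEquiv,
          Pool.Agent.Helper51_AWC.card_conjS]
      rw [← h, hcR] at h1
      omega
  rw [chr ℓ M hM G e hL.blk V hL.tp A p hp hK hKV hY]
  obtain ⟨n1, -⟩ := nvt ℓ M hM G e V γ hL
  have hCN : Subgroup.centralizer (V : Set G) ≤ Subgroup.normalizer (V : Set G) :=
    Subgroup.centralizer_le_normalizer _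
  have h1 := leq ℓ M hM G e V γ hL U W hS
  have h2 := leq ℓ M hM _ _ _ _ n1 _ _ (spx ℓ (FF M) G e V γ hL U W hS _ hCN)
  obtain ⟨f⟩ := eix ℓ (FF M) G e V γ hL _ hCN
  have h3 : Eix V γ (Subgroup.normalizer (V : Set G)) = Ei V γ := by
    have h0 : Tg V γ ⊓ Subgroup.normalizer (V : Set G) = Tg V γ :=
      inf_eq_left.2 (inf_le_left : Tg V γ ≤ Subgroup.normalizer (V : Set G))
    unfold Eix Ei
    rw [h0]
  have h4 : ke (V.subgroupOf (Subgroup.normalizer (V : Set G)))
      (fun t : Subgroup.normalizer (V : Set G) => γ t) = ke V γ := by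
    unfold ke
    rw [card_cc f, h3]
  rw [h1, h2, h4, sub_self, mul_zero]

end Pool.Agent.PFD.H11
end
end -- Pool.Agent.Helper11_PFD.MNY

section -- Pool.Agent.Helper11_PSS.LEN

/-!
Squad PSS, row LEN (helper11): the number of the modular characters of a block and of its Brauer
correspondent.
-/

open scoped BigOperators

noncomputable section

namespace Pool.Agent.PSS.H11

open Pool.Agent.Helper51_AWC Pool.Agent.Helper79_WRA Pool.Agent.PP Pool.Agent.PP.KF
open Pool.Agent.PP.K9 Pool.Agent.PP.K9.H97 Pool.Agent.PP.H75 Pool.Agent.PP.T3 Pool.Agent.PP.T2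
open Pool.Agent.PP.TB (Zd Star iz cz)
open Pool.Agent.PFD (Ei KsmStmt LntStmt LkeStmt)

attribute [local instance] Ideal.Quotient.field

theorem cen_le_Cu {G : Type} [Group G] {V : Subgroup G} {v : G} (hv : v ∈ V) :
    Subgroup.centralizer (V : Set G) ≤ Cu v := fun g hg =>
  Subgroup.mem_centralizer_singleton_iff.2 (Subgroup.mem_centralizer_iff.1 hg v hv).symm

theorem Cu_top {G : Type} [Group G] {v : G} (hv : v ∈ Subgroup.center G) : Cu v = ⊤ := by
  rw [eq_top_iff]
  intro g _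
  exact Subgroup.mem_centralizer_singleton_iff.2 (Subgroup.mem_center_iff.1 hv g)

theorem Cu_lt {G : Type} [Group G] [Finite G] {v : G} (hv : v ∉ Subgroup.center G) :
    Nat.card (Cu v) < Nat.card G := by
  refine lt_of_le_of_ne (Subgroup.card_le_card_group _) (fun h => hv ?_)
  rw [Subgroup.mem_center_iff]
  intro g
  have h1 : g ∈ Cu v := by
    rw [(Subgroup.card_eq_iff_eq_top _).1 h]
    exact Subgroup.mem_top g
  exact Subgroup.mem_centralizer_singleton_iff.1 h1

theorem len (qrx : QrxStmt) (qrq : QrqStmt) (twn : TwnStmt) (exc : ExcStmt) (frt : FrtStmt)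
    (ltx : LtxStmt) (izx : IzxStmt) (qln : QlnStmt) (ksm : KsmStmt) (lnt : LntStmt)
    (lke : LkeStmt) (lsb : T3.LsbStmt) (sta : TW.StaStmt) (inx : K9.InxStmt)
    (lbr : K9.LbrStmt) : LenStmt := by
  intro K hK sto ℓ hℓ M _ hM
  have hF : GoodF ℓ (FF M) := H50.fld ℓ Fact.out M hM
  have hA : Adm ℓ K := hK ℓ hℓ.out
  suffices hmain : ∀ n : ℕ, ∀ (G : Type) [Group G] [Finite G], Nat.card G = n →
      ∀ (e : G → FF M) (V : Subgroup G) (γ : G → FF M), Ld ℓ e V γ →
      (V = ⊥ ∨ ∃ W : Subgroup V, K ℓ V (Ei V γ) W) →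
      ln e = ln (fun t : Subgroup.normalizer (V : Set G) => br V e t) by
    intro G _ _ e V γ h1 h2
    exact hmain _ G rfl e V γ h1 h2
  intro n
  induction n using Nat.strong_induction_on with
  | _ n ih =>
  -- the local blocks
  have claim : ∀ (H : Type) [Group H] [Finite H] (e : H → FF M) (V : Subgroup H) (γ : H → FF M),
      Ld ℓ e V γ → (∃ W : Subgroup V, K ℓ V (Ei V γ) W) → ∀ v ∈ V, Nat.card (Cu v) < n →
      ∀ b : H → FF M, Lc e V γ v b → ln (fun t : Cu v => b t) = lnum (Tg V γ ⊓ Cu v) γ := by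
    intro H _ _ e V γ hL hc v hv hlt b hb
    obtain ⟨W, hW⟩ := hc
    obtain ⟨m1, -⟩ := lsb ℓ M hM H e V γ hL v hv b hb
    obtain ⟨π, -, hq⟩ := qrx ℓ (FF M) H e V γ hL (Cu v) (cen_le_Cu hv)
    have h3 := hA.iso V _ (Ei V γ) _ W π hq hW
    rw [ih _ hlt (Cu v) rfl _ _ _ m1 (Or.inr ⟨_, h3⟩), frt ℓ M hM (Cu v) _ _ _ m1]
    exact (ltx ℓ (FF M) H e V γ hL (Cu v) (cen_le_Cu hv)).1
  intro G _ _ hn e V γ hL hc
  have hVC : V ≤ Subgroup.centralizer (V : Set G) := by
    intro v hv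
    rw [Subgroup.mem_centralizer_iff]
    intro w hw
    exact hL.ab w hw v hv
  rcases hc with hV | ⟨W₀, hW₀⟩
  · -- `V = ⊥`
    have h1 := (lbr ℓ (FF M) hF G e hL.blk.1 V (Subgroup.normalizer (V : Set G)) hL.tp.pg
      Subgroup.le_normalizer le_rfl).1
    have hN : Subgroup.normalizer (V : Set G) = ⊤ := by
      have hnV : V.Normal := by
        rw [hV]
        exact Subgroup.normal_bot
      exact Subgroup.normalizer_eq_top_iff.2 hnV
    have h2 : ln e = lnum (Subgroup.normalizer (V : Set G)) e := by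
      rw [hN]
      exact (H35.lnum_top e).symm
    rw [h2, h1]
    rfl
  -- the subgroup `W`
  obtain ⟨W, hWV, hWs⟩ : ∃ W : Subgroup G, W ≤ V ∧ W.subgroupOf V = W₀ :=
    ⟨W₀.map V.subtype, Subgroup.map_subtype_le _,
      Subgroup.comap_map_eq_self_of_injective V.subtype_injective W₀⟩
  have hne : W ≠ ⊥ := by
    rintro rfl
    apply hA.nt V (Ei V γ) W₀ hW₀
    rw [← hWs]
    exact Subgroup.bot_subgroupOf V
  subst hWs
  have hst := hA.st V (Ei V γ) _ hW₀
  have hTN : Tg V γ ≤ Subgroup.normalizer (W : Set G) := twn (FF M) G V γ W hWV hst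
  by_cases hWn : W.Normal
  · -- `W` normal
    have hlt : Nat.card (G ⧸ W) < n := by
      rw [← hn, Subgroup.card_eq_card_quotient_mul_card_subgroup W]
      have h1 : 1 < Nat.card W := by
        rw [Subgroup.one_lt_card_iff_ne_bot]
        exact hne
      have h2 : 0 < Nat.card (G ⧸ W) := Nat.card_pos
      nlinarith
    have hker : (QuotientGroup.mk' W).ker = W := QuotientGroup.ker_mk' W
    apply qln ℓ (FF M) hF G (G ⧸ W) (QuotientGroup.mk' W) (QuotientGroup.mk'_surjective W) V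
      hL.tp.pg (by rw [hker]; exact hWV) e hL.blk.1
    intro f hf hfe
    obtain ⟨γ', hL', π, hπ, hq⟩ := qrq ℓ M hM G e V γ hL W hWV hWn (G ⧸ W) (QuotientGroup.mk' W)
      (QuotientGroup.mk'_surjective W) hker f hf hfe
    refine ih _ hlt (G ⧸ W) rfl f _ γ' hL' ?_
    by_cases hb : V.map (QuotientGroup.mk' W) = ⊥
    · exact Or.inl hb
    · refine Or.inr (hA.quo V (V.map (QuotientGroup.mk' W)) (Ei V γ) _ _ π hL.tp.pg ?_ ?_ hq hW₀
        hπ ?_)
      · obtain ⟨l1, -⟩ := lke ℓ (FF M) G e V γ hL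
        have hix : ¬ ℓ ∣ ix V γ :=
          inx ℓ M hM G e hL.blk V hL.tp hL.ab γ hL.gam.supp hL.gam.blk hL.und
        have hiz : iz V V γ = ix V γ := by
          unfold iz ix
          rw [inf_eq_left.2 (T3.H66.cent_le_Tg hL)]
        rw [← l1, hiz]
        exact hix
      · exact fun a c => Subtype.ext (hL.ab _ a.2 _ c.2)
      · exact Subgroup.ne_bot_iff_exists_ne_one.1 hb
  · -- `W` not normal
    have hltN : Nat.card (Subgroup.normalizer (W : Set G)) < n := by
      rw [← hn]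
      refine lt_of_le_of_ne (Subgroup.card_le_card_group _) (fun h => hWn ?_)
      exact Subgroup.normalizer_eq_top_iff.1 ((Subgroup.card_eq_iff_eq_top _).1 h)
    obtain ⟨c, hLc⟩ := exc ℓ M hM G e V γ hL W hWV
    have hirr := sto ℓ M hM G e V γ hL W hWV hW₀ c hLc
    obtain ⟨b, hZ, hSt⟩ := sta ℓ M hM G e V γ hL
    have hlc : ∀ v ∈ V, Lc e V γ v (b v) := fun v hv =>
      ⟨(hZ.lb v hv).1.bx, (hZ.lb v hv).1.und, (hZ.lb v hv).2⟩
    obtain ⟨b', hZ', hSt'⟩ := sta ℓ M hM _ c _ _ hLc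
    have hlc' : ∀ v ∈ V.subgroupOf (Subgroup.normalizer (W : Set G)), Lc c _ _ v (b' v) :=
      fun v hv => ⟨(hZ'.lb v hv).1.bx, (hZ'.lb v hv).1.und, (hZ'.lb v hv).2⟩
    have k1 := ksm ℓ M hM G e V γ b hZ hSt
    have k2 := ksm ℓ M hM _ c _ _ b' hZ' hSt'
    obtain ⟨z1, z2⟩ := izx ℓ (FF M) G e V γ hL _ hTN
    have hCN : Subgroup.centralizer (V : Set G) ≤ Subgroup.normalizer (W : Set G) :=
      (T3.H66.cent_le_Tg hL).trans hTN
    obtain ⟨π, hπ, hq⟩ := qrx ℓ (FF M) G e V γ hL _ hCN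
    obtain ⟨-, x2⟩ := ltx ℓ (FF M) G e V γ hL _ hCN
    have hcl : ∃ W' : Subgroup (V.subgroupOf (Subgroup.normalizer (W : Set G))),
        K ℓ _ (Ei (V.subgroupOf (Subgroup.normalizer (W : Set G)))
          (fun t : Subgroup.normalizer (W : Set G) => γ t)) W' :=
      ⟨_, hA.iso V _ (Ei V γ) _ _ π hq hW₀⟩
    have := Fintype.ofFinite V
    have h3 : ∑ v : V, cz V V γ (v : G) * ln (fun t : Cu (v : G) => b v t) =
        ∑ v : V, cz V V γ (v : G) *
          ln (fun t : Cu ((π v : V.subgroupOf (Subgroup.normalizer (W : Set G))) :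
            Subgroup.normalizer (W : Set G)) => b' ((π v : V.subgroupOf _) :
            Subgroup.normalizer (W : Set G)) t) := by
      rw [← finsum_eq_sum_of_fintype, ← finsum_eq_sum_of_fintype, ← k1, hirr, ← z1, k2]
      rw [← finsum_comp_equiv π.toEquiv]
      apply finsum_congr
      intro v
      have h4 : (π.toEquiv v : V.subgroupOf (Subgroup.normalizer (W : Set G))) = π v := rfl
      rw [h4, z2, hπ]
    have hK2 : ∀ v : V, ln (fun t : Cu ((π v : V.subgroupOf (Subgroup.normalizer (W : Set G))) :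
            Subgroup.normalizer (W : Set G)) => b' ((π v : V.subgroupOf _) :
            Subgroup.normalizer (W : Set G)) t) = lnum (Tg V γ ⊓ Cu (v : G)) γ := by
      intro v
      rw [claim _ c _ _ hLc hcl _ (π v).2
        (lt_of_le_of_lt (Subgroup.card_le_card_group _) hltN) _ (hlc' _ (π v).2), x2, hπ,
        inf_eq_left.2 hTN]
    rw [frt ℓ M hM G e V γ hL]
    refine PFD.H11.cmp (fun v : V => (v : G) ∈ Subgroup.center G) _ _ _ (iz V V γ) (ln e)
      (lnum (Tg V γ) γ) ?_ 1 (Subgroup.one_mem _) ?_ ?_ ?_ ?_ h3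
    · unfold iz
      exact Nat.pos_of_ne_zero (Subgroup.FiniteIndex.index_ne_zero)
    · intro v hv
      change (Subgroup.centralizer (V : Set G) ⊓ Tg V γ).relIndex (Tg V γ ⊓ Cu (v : G)) = _
      rw [Cu_top hv, inf_top_eq]
      rfl
    · intro v hv
      exact lnt ℓ (FF M) hF G e V γ hL v v.2 hv (b v) (hlc v v.2)
    · intro v hv
      rw [hK2, Cu_top hv, inf_top_eq]
    · intro v hv
      rw [hK2]
      refine claim G e V γ hL ⟨_, hW₀⟩ v v.2 ?_ _ (hlc v v.2)
      rw [← hn]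
      exact Cu_lt hv

end Pool.Agent.PSS.H11
end
end -- Pool.Agent.Helper11_PSS.LEN

section -- Pool.Agent.Helper3_PST.STT

/-!
# PST, block GU, row STT: the numbers of ordinary characters for a terminal class
-/

open scoped BigOperators

noncomputable section

namespace Pool.Agent.PST.GU.H3

open Pool.Agent.Helper51_AWC Pool.Agent.Helper79_WRA Pool.Agent.PP Pool.Agent.PP.KF
open Pool.Agent.PP.K9 Pool.Agent.PP.K9.H97 Pool.Agent.PP.H75 Pool.Agent.PP.T3 Pool.Agent.PP.T2
open Pool.Agent.PP.TB (Zd Star iz cz)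
open Pool.Agent.PFD (Ei KsmStmt LntStmt LkeStmt)
open Pool.Agent.PSS
open Pool.Agent.PSS.H11 (cen_le_Cu)

attribute [local instance] Ideal.Quotient.field

theorem tg_le {F G : Type} [Group G] {V : Subgroup G} {γ : G → F} :
    Tg V γ ≤ Subgroup.normalizer (V : Set G) := inf_le_left

theorem stt (qrx : QrxStmt) (frt : FrtStmt) (ltx : LtxStmt) (izx : IzxStmt) (ksm : KsmStmt)
    (lsb : T3.LsbStmt) (sta : TW.StaStmt) : SttStmt := by
  intro L hAdm hLet ℓ hℓ M _ hM
  have hA : AdT ℓ L := hAdm ℓ hℓ.out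
  -- the local blocks
  have claim : ∀ (H : Type) [Group H] [Finite H] (e : H → FF M) (V : Subgroup H) (γ : H → FF M),
      Ld ℓ e V γ → L ℓ V (Ei V γ) → ∀ v ∈ V,
      ∀ b : H → FF M, Lc e V γ v b → ln (fun t : Cu v => b t) = lnum (Tg V γ ⊓ Cu v) γ := by
    intro H _ _ e V γ hL hc v hv b hb
    obtain ⟨m1, -⟩ := lsb ℓ M hM H e V γ hL v hv b hb
    obtain ⟨π, -, hq⟩ := qrx ℓ (FF M) H e V γ hL (Cu v) (cen_le_Cu hv)
    have h3 := hA.iso V _ (Ei V γ) _ π hq hc
    rw [hLet ℓ M hM (Cu v) _ _ _ m1 h3, frt ℓ M hM (Cu v) _ _ _ m1]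
    exact (ltx ℓ (FF M) H e V γ hL (Cu v) (cen_le_Cu hv)).1
  intro G _ _ e V γ hL W hWV hc c hLc
  obtain ⟨hW, -, hc⟩ := hc
  have hWV' : W = V := le_antisymm hWV (by
    intro v hv
    have h1 : (⟨v, hv⟩ : V) ∈ W.subgroupOf V := by
      rw [hW]
      exact Subgroup.mem_top _
    exact Subgroup.mem_subgroupOf.1 h1)
  subst hWV'
  have hTN : Tg W γ ≤ Subgroup.normalizer (W : Set G) := tg_le
  obtain ⟨b, hZ, hSt⟩ := sta ℓ M hM G e W γ hL
  have hlc : ∀ v ∈ W, Lc e W γ v (b v) := fun v hv =>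
    ⟨(hZ.lb v hv).1.bx, (hZ.lb v hv).1.und, (hZ.lb v hv).2⟩
  obtain ⟨b', hZ', hSt'⟩ := sta ℓ M hM _ c _ _ hLc
  have hlc' : ∀ v ∈ W.subgroupOf (Subgroup.normalizer (W : Set G)), Lc c _ _ v (b' v) :=
    fun v hv => ⟨(hZ'.lb v hv).1.bx, (hZ'.lb v hv).1.und, (hZ'.lb v hv).2⟩
  have k1 := ksm ℓ M hM G e W γ b hZ hSt
  have k2 := ksm ℓ M hM _ c _ _ b' hZ' hSt'
  obtain ⟨z1, z2⟩ := izx ℓ (FF M) G e W γ hL _ hTN
  have hCN : Subgroup.centralizer (W : Set G) ≤ Subgroup.normalizer (W : Set G) :=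
    (T3.H66.cent_le_Tg hL).trans hTN
  obtain ⟨π, hπ, hq⟩ := qrx ℓ (FF M) G e W γ hL _ hCN
  obtain ⟨-, x2⟩ := ltx ℓ (FF M) G e W γ hL _ hCN
  have hcl : L ℓ (W.subgroupOf (Subgroup.normalizer (W : Set G)))
      (Ei (W.subgroupOf (Subgroup.normalizer (W : Set G)))
        (fun t : Subgroup.normalizer (W : Set G) => γ t)) :=
    hA.iso W _ (Ei W γ) _ π hq hc
  have := Fintype.ofFinite W
  have hK1 : ∀ v : W, ln (fun t : Cu (v : G) => b v t) = lnum (Tg W γ ⊓ Cu (v : G)) γ :=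
    fun v => claim G e W γ hL hc v v.2 _ (hlc v v.2)
  have hK2 : ∀ v : W, ln (fun t : Cu ((π v : W.subgroupOf (Subgroup.normalizer (W : Set G))) :
          Subgroup.normalizer (W : Set G)) => b' ((π v : W.subgroupOf _) :
          Subgroup.normalizer (W : Set G)) t) = lnum (Tg W γ ⊓ Cu (v : G)) γ := by
    intro v
    rw [claim _ c _ _ hLc hcl _ (π v).2 _ (hlc' _ (π v).2), x2, hπ, inf_eq_left.2 hTN]
  have h3 : iz W W γ * (IrrE M e).ncard = iz W W γ * (IrrE M c).ncard := by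
    rw [k1, ← z1, k2, ← finsum_comp_equiv π.toEquiv]
    apply finsum_congr
    intro v
    have h4 : (π.toEquiv v : W.subgroupOf (Subgroup.normalizer (W : Set G))) = π v := rfl
    rw [h4, z2, hπ, hK1, hK2]
  have h5 : 0 < iz W W γ := by
    unfold iz
    exact Nat.pos_of_ne_zero (Subgroup.FiniteIndex.index_ne_zero)
  exact Nat.eq_of_mul_eq_mul_left h5 h3

end Pool.Agent.PST.GU.H3
end
end -- Pool.Agent.Helper3_PST.STT
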