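import Pool.Agent.Helper12_AWB.B175
import Pool.Agent.Helper12_AWB.B177
import Pool.Agent.Helper12_AWB.B202
import Pool.Agent.Helper12_AWB.B206
import Pool.Agent.Helper12_AWB.B211
import Pool.Agent.Helper12_AWB.B222
import Pool.Agent.Helper12_AWB.B277
import Pool.Agent.Helper12_AWB.B281
import Pool.Agent.Helper12_AWB.B284

/-!
# Merged copies (generated) of the modules

* `Pool.Agent.Helper25_AT6.PSV`
* `Pool.Agent.Helper28_AT6.NRP`
* `Pool.Agent.Helper33_AT6.ISO`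
* `Pool.Agent.Helper41_AT6.DIM`
* `Pool.Agent.Helper62_AT6.CNB`
* `Pool.Agent.Helper64_AT6.GEO`
* `Pool.Agent.Helper72_AT6.EQM`
* `Pool.Agent.Helper85_AT6.PIG`
* `Pool.Agent.Helper66_AT6.Asm`
-/

set_option autoImplicit false

section -- Pool.Agent.Helper25_AT6.PSV

/-!
# Squad AT6, row PSV: positivity and the inequality of Cauchy and Schwarz
-/

open scoped BigOperators

noncomputable section

namespace Pool.Agent.PP.T6.H25

open Pool.Agent.Helper51_AWC Pool.Agent.Helper79_WRA Pool.Agent.PP Pool.Agent.PP.KF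
open Pool.Agent.PP.K9 Pool.Agent.PP.K9.H97 Pool.Agent.PP.H75 Pool.Agent.PP.T3 Pool.Agent.PP.T2

attribute [local instance] Ideal.Quotient.field

/-- `V` is good for the local block `b`. -/
theorem good {G : Type} [Group G] {F : Type} [Field F] {ℓ : ℕ} {e : G → F} {V : Subgroup G}
    {γ : G → F} (hL : Ld ℓ e V γ) {v : G} (hv : v ∈ V) {b : G → F} (hb : Lc e V γ v b) :
    Gd (fun t : Cu v => b t) (V.subgroupOf (Cu v)) := by
  classical
  have h1 : ∃ y ∈ Subgroup.centralizer (V : Set G), b y ≠ 0 := by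
    by_contra h
    push Not at h
    have h2 : br V b = 0 := by
      funext x
      change (if x ∈ Subgroup.centralizer (V : Set G) then b x else 0) = 0
      by_cases hx : x ∈ Subgroup.centralizer (V : Set G)
      · rw [if_pos hx]
        exact h x hx
      · rw [if_neg hx]
    apply hL.gam.ne
    rw [← hb.gam, h2]
    funext x
    simp [mulF]
  obtain ⟨y, hy, hy0⟩ := h1
  have hyv : y ∈ Cu v := by
    rw [Subgroup.mem_centralizer_singleton_iff]
    exact (Subgroup.mem_centralizer_iff.1 hy v hv).symm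
  refine ⟨⟨y, hyv⟩, ?_, hy0⟩
  rw [Subgroup.mem_centralizer_iff]
  intro w hw
  apply Subtype.ext
  exact Subgroup.mem_centralizer_iff.1 hy w (Subgroup.mem_subgroupOf.1 hw)

theorem psv (nz : K9.NzStmt) : PsvStmt := by
  intro ℓ hℓ M _ hM G _ _ e V γ hL v hv b hb
  classical
  have := Fintype.ofFinite G
  let S : Finset G := Finset.univ.filter (fun s => s ∈ Cu v ∧ Reg ℓ s)
  let f : (G → ℂ) → G → ℂ := fun χ s => gv M (Cu v) (v * s) b χ
  have hPm : ∀ χ χ' : G → ℂ, Pm M ℓ v b χ χ' =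
      (Nat.card (Cu v) : ℂ)⁻¹ * ∑ s ∈ S, f χ s * starRingEnd ℂ (f χ' s) := by
    intro χ χ'
    unfold Pm
    congr 1
    rw [finsum_eq_sum_of_fintype, Finset.sum_filter]
    refine Finset.sum_congr rfl fun s _ => ?_
    rw [finsum_eq_if]
  let K : ℝ := Nat.card V *
    ((Subgroup.centralizer (V : Set G)).relIndex (Tg V γ ⊓ Cu v) : ℕ) * (Nat.card (Cu v) : ℝ)⁻¹
  have hK : 0 < K := by
    have h1 : 0 < Nat.card V := Nat.card_pos
    have h2 : 0 < Nat.card (Cu v) := Nat.card_pos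
    have h3 : (Subgroup.centralizer (V : Set G)).relIndex (Tg V γ ⊓ Cu v) ≠ 0 :=
      Subgroup.index_ne_zero_of_finite
    have h4 : 0 < (Subgroup.centralizer (V : Set G)).relIndex (Tg V γ ⊓ Cu v) :=
      Nat.pos_of_ne_zero h3
    positivity
  have hMm : ∀ χ χ' : G → ℂ, Mm M ℓ V γ v b χ χ' =
      (K : ℂ) * ∑ s ∈ S, f χ s * starRingEnd ℂ (f χ' s) := by
    intro χ χ'
    unfold Mm
    rw [hPm, ← mul_assoc]
    congr 1
    simp only [K, Complex.ofReal_mul, Complex.ofReal_inv, Complex.ofReal_natCast]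
  have hd : ∀ χ : G → ℂ, ∑ s ∈ S, f χ s * starRingEnd ℂ (f χ s) =
      ((∑ s ∈ S, ‖f χ s‖ ^ 2 : ℝ) : ℂ) := by
    intro χ
    rw [Complex.ofReal_sum]
    refine Finset.sum_congr rfl fun s _ => ?_
    rw [Complex.mul_conj, Complex.normSq_eq_norm_sq]
  have hs0 : ∀ χ : G → ℂ, 0 ≤ ∑ s ∈ S, ‖f χ s‖ ^ 2 := fun χ =>
    Finset.sum_nonneg fun s _ => by positivity
  have hn : ∀ χ : G → ℂ, ‖Mm M ℓ V γ v b χ χ‖ = K * ∑ s ∈ S, ‖f χ s‖ ^ 2 := by
    intro χ
    rw [hMm, hd, ← Complex.ofReal_mul, Complex.norm_real, Real.norm_eq_abs,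
      abs_of_nonneg (mul_nonneg hK.le (hs0 χ))]
  refine ⟨fun χ => ?_, fun χ hχ => ?_, fun χ χ' => ?_⟩
  · rw [hn, hMm, hd, ← Complex.ofReal_mul]
  · intro h0
    have h1 := hn χ
    rw [h0, norm_zero] at h1
    have h2 : ∑ s ∈ S, ‖f χ s‖ ^ 2 = 0 := by
      rcases mul_eq_zero.1 h1.symm with h | h
      · exact absurd h hK.ne'
      · exact h
    have h3 : (1 : G) ∈ S := by
      simp only [S, Finset.mem_filter, Finset.mem_univ, true_and]
      refine ⟨(Cu v).one_mem, ?_⟩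
      change (orderOf (1 : G)).Coprime ℓ
      rw [orderOf_one]
      exact Nat.coprime_one_left ℓ
    have h4 := (Finset.sum_eq_zero_iff_of_nonneg (fun s _ => by positivity)).1 h2 1 h3
    have h5 : f χ 1 = 0 := by
      have := pow_eq_zero_iff (two_ne_zero) |>.1 h4
      exact norm_eq_zero.1 this
    have h6 := nz ℓ M hM G e hL.blk V hL.tp hL.ab v hv (fun t : Cu v => b t) hb.blk.blk hb.und
      (good hL hv hb) v (Subgroup.mem_zpowers v) χ hχ
    apply h6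
    have h7 : f χ 1 = gbv (Cu v) (v * 1) (eh M (fun t : Cu v => b t)) χ := rfl
    rw [mul_one] at h7
    rw [← h7, h5]
  · rw [hn, hn, hMm, norm_mul, mul_pow]
    have h1 : ‖∑ s ∈ S, f χ s * starRingEnd ℂ (f χ' s)‖ ≤ ∑ s ∈ S, ‖f χ s‖ * ‖f χ' s‖ := by
      refine (norm_sum_le _ _).trans (le_of_eq ?_)
      refine Finset.sum_congr rfl fun s _ => ?_
      rw [norm_mul, RCLike.norm_conj]
    have h2 := Finset.sum_mul_sq_le_sq_mul_sq S (fun s => ‖f χ s‖) (fun s => ‖f χ' s‖)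
    have h3 : ‖(K : ℂ)‖ = K := by
      rw [Complex.norm_real, Real.norm_eq_abs, abs_of_pos hK]
    rw [h3]
    have h4 : ‖∑ s ∈ S, f χ s * starRingEnd ℂ (f χ' s)‖ ^ 2 ≤
        (∑ s ∈ S, ‖f χ s‖ ^ 2) * ∑ s ∈ S, ‖f χ' s‖ ^ 2 := by
      refine le_trans ?_ h2
      exact pow_le_pow_left₀ (norm_nonneg _) h1 2
    calc K ^ 2 * ‖∑ s ∈ S, f χ s * starRingEnd ℂ (f χ' s)‖ ^ 2 ≤
        K ^ 2 * ((∑ s ∈ S, ‖f χ s‖ ^ 2) * ∑ s ∈ S, ‖f χ' s‖ ^ 2) :=
          mul_le_mul_of_nonneg_left h4 (by positivity)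
      _ = _ := by ring

end Pool.Agent.PP.T6.H25
end
end -- Pool.Agent.Helper25_AT6.PSV

section -- Pool.Agent.Helper28_AT6.NRP

/-!
# Squad AT6, NRP: the product of the conjugates of an element divisible by a power of `ℓ`
-/

open scoped BigOperators

noncomputable section

namespace Pool.Agent.PP.T6.H28

open Pool.Agent.PP.KF

/-- the primitive roots are the powers of one of them -/
theorem prod_un {ℓ a : ℕ} (hℓ : ℓ.Prime) (ha : 0 < a) {ζ : ℂ} (hζ : IsPrimitiveRoot ζ (ℓ ^ a))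
    (F : ℂ → ℂ) : ∏ j ∈ un ℓ a, F (ζ ^ j) = ∏ ρ ∈ primitiveRoots (ℓ ^ a) ℂ, F ρ := by
  classical
  have hn : 0 < ℓ ^ a := pow_pos hℓ.pos _
  have hcop : ∀ j : ℕ, ¬ ℓ ∣ j ↔ j.Coprime (ℓ ^ a) := by
    intro j
    rw [Nat.coprime_pow_right_iff ha, Nat.coprime_comm, hℓ.coprime_iff_not_dvd]
  refine Finset.prod_bij (fun j _ => ζ ^ j) ?_ ?_ ?_ ?_
  · intro j hj
    rw [un, Finset.mem_filter] at hj
    rw [mem_primitiveRoots hn]
    exact hζ.pow_of_coprime j ((hcop j).1 hj.2)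
  · intro j hj k hk hjk
    rw [un, Finset.mem_filter, Finset.mem_range] at hj hk
    exact hζ.pow_inj hj.1 hk.1 hjk
  · intro ρ hρ
    rw [mem_primitiveRoots hn] at hρ
    have : NeZero (ℓ ^ a) := ⟨hn.ne'⟩
    obtain ⟨j, hj, hj2, rfl⟩ := hζ.isPrimitiveRoot_iff.1 hρ
    refine ⟨j, ?_, rfl⟩
    rw [un, Finset.mem_filter, Finset.mem_range]
    exact ⟨hj, (hcop j).2 hj2⟩
  · intro j _
    rfl

/-- the product of the conjugates is an integer, not zero if one conjugate is not zero -/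
theorem norm_int_gen {n : ℕ} [NeZero n] {K : Type} [Field K] [Algebra ℚ K]
    [IsCyclotomicExtension {n} ℚ K] {ζ : K} (hζ : IsPrimitiveRoot ζ n) (f : Polynomial ℤ) {ρ₀ : ℂ}
    (h0 : IsPrimitiveRoot ρ₀ n) (hf : Polynomial.aeval ρ₀ f ≠ 0) :
    ∃ z : ℤ, z ≠ 0 ∧ ∏ ρ ∈ primitiveRoots n ℂ, Polynomial.aeval ρ f = (z : ℂ) := by
  classical
  have hirr : Irreducible (Polynomial.cyclotomic n ℚ) :=
    Polynomial.cyclotomic.irreducible_rat (NeZero.pos n)
  have hfd : FiniteDimensional ℚ K := IsCyclotomicExtension.finiteDimensional {n} ℚ K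
  have hch : CharZero K := algebraRat.charZero K
  have hσ : ∀ σ : K →ₐ[ℚ] ℂ, σ (Polynomial.aeval ζ f) = Polynomial.aeval (σ ζ) f := by
    intro σ
    rw [Polynomial.aeval_def, Polynomial.aeval_def]
    have h1 := Polynomial.hom_eval₂ f (algebraMap ℤ K) (σ : K →+* ℂ) ζ
    have h2 : (σ : K →+* ℂ).comp (algebraMap ℤ K) = algebraMap ℤ ℂ := RingHom.ext_int _ _
    rw [h2] at h1
    exact h1
  have hprod : ∏ ρ ∈ primitiveRoots n ℂ, Polynomial.aeval ρ f =
      ∏ σ : K →ₐ[ℚ] ℂ, σ (Polynomial.aeval ζ f) := by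
    rw [← Finset.prod_coe_sort (primitiveRoots n ℂ) (fun ρ => Polynomial.aeval ρ f)]
    rw [← Equiv.prod_comp (hζ.embeddingsEquivPrimitiveRoots ℂ hirr)]
    refine Finset.prod_congr rfl fun σ _ => ?_
    rw [hσ, IsPrimitiveRoot.embeddingsEquivPrimitiveRoots_apply_coe]
  have hint : IsIntegral ℤ (Polynomial.aeval ζ f) := by
    have h1 : IsIntegral ℤ ζ := hζ.isIntegral (NeZero.pos n)
    have h2 : Polynomial.aeval ζ f ∈ Algebra.adjoin ℤ {ζ} := by
      rw [Algebra.adjoin_singleton_eq_range_aeval]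
      exact ⟨f, rfl⟩
    exact IsIntegral.of_mem_of_fg _ h1.fg_adjoin_singleton _ h2
  obtain ⟨z, hz⟩ := IsIntegrallyClosed.isIntegral_iff.1 (Algebra.isIntegral_norm ℚ hint)
  have hxne : Polynomial.aeval ζ f ≠ 0 := by
    intro h
    have h1 := hσ ((hζ.embeddingsEquivPrimitiveRoots ℂ hirr).symm
      ⟨ρ₀, (mem_primitiveRoots (NeZero.pos n)).2 h0⟩)
    rw [h, map_zero] at h1
    have h2 := IsPrimitiveRoot.embeddingsEquivPrimitiveRoots_apply_coe hζ ℂ hirr
      ((hζ.embeddingsEquivPrimitiveRoots ℂ hirr).symm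
        ⟨ρ₀, (mem_primitiveRoots (NeZero.pos n)).2 h0⟩)
    rw [Equiv.apply_symm_apply] at h2
    rw [← h2] at h1
    exact hf h1.symm
  refine ⟨z, ?_, ?_⟩
  · rintro rfl
    rw [map_zero] at hz
    exact hxne (Algebra.norm_eq_zero_iff.1 hz.symm)
  · rw [hprod, ← Algebra.norm_eq_prod_embeddings, ← hz]
    simp

theorem norm_int {n : ℕ} [NeZero n] (f : Polynomial ℤ) {ρ₀ : ℂ}
    (h0 : IsPrimitiveRoot ρ₀ n) (hf : Polynomial.aeval ρ₀ f ≠ 0) :
    ∃ z : ℤ, z ≠ 0 ∧ ∏ ρ ∈ primitiveRoots n ℂ, Polynomial.aeval ρ f = (z : ℂ) := by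
  have : NeZero ((n : ℕ) : ℚ) := ⟨Nat.cast_ne_zero.2 (NeZero.ne n)⟩
  have hc := CyclotomicField.isCyclotomicExtension n ℚ
  obtain ⟨ζ, hζ⟩ := hc.exists_isPrimitiveRoot (Set.mem_singleton n) (NeZero.ne n)
  exact @norm_int_gen n _ (CyclotomicField n ℚ) _ _ hc ζ hζ f ρ₀ h0 hf

/-- an integer divisible by `ℓ ^ N` in the local ring -/
theorem dvd_of_RM {ℓ : ℕ} (hℓ : ℓ.Prime) {M : Ideal (integralClosure ℤ ℂ)} [M.IsMaximal]
    (hM : (ℓ : integralClosure ℤ ℂ) ∈ M) (N : ℕ) : ∀ (z : ℤ) (t : ℂ), t ∈ RM M →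
    (z : ℂ) = (ℓ : ℂ) ^ N * t → (ℓ : ℤ) ^ N ∣ z := by
  induction N with
  | zero =>
    intro z t _ _
    rw [pow_zero]
    exact one_dvd z
  | succ N ih =>
    intro z t ht hz
    have hl0 : (ℓ : ℂ) ≠ 0 := Nat.cast_ne_zero.2 hℓ.ne_zero
    have h1 : (ℓ : ℂ) ^ N * t ∈ RM M :=
      (RM M).mul_mem ((RM M).pow_mem (rr_nat ℓ).1 N) ht
    have h2 : rr M (z : ℂ) = 0 := by
      have e1 : (z : ℂ) = (ℓ : ℂ) * ((ℓ : ℂ) ^ N * t) := by
        rw [hz, pow_succ]
        ring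
      have e2 : rr M ((ℓ : ℂ)) = 0 := by
        have h3 := (dvd_of_rr (M := M) hℓ hM (n := (ℓ : ℤ))).2 dvd_rfl
        rwa [Int.cast_natCast] at h3
      rw [e1, rr_mul (rr_nat ℓ).1 h1, e2, zero_mul]
    obtain ⟨w, rfl⟩ := (dvd_of_rr hℓ hM).1 h2
    have h4 : (w : ℂ) = (ℓ : ℂ) ^ N * t := by
      apply mul_left_cancel₀ hl0
      rw [← mul_assoc, ← pow_succ', ← hz]
      push_cast
      ring
    rw [pow_succ']
    exact mul_dvd_mul_left _ (ih w t ht h4)

theorem nrp : NrpStmt := by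
  intro ℓ _ M _ hM a c ha ζ hζ m hdv j₀ hj₀ hne
  have hℓ : ℓ.Prime := Fact.out
  have hn : ℓ ^ a ≠ 0 := pow_ne_zero _ hℓ.ne_zero
  have : NeZero (ℓ ^ a) := ⟨hn⟩
  let f : Polynomial ℤ := ∑ i ∈ Finset.range (ℓ ^ a), Polynomial.C (m i) * Polynomial.X ^ i
  have hf : ∀ ρ : ℂ, Polynomial.aeval ρ f = ∑ i ∈ Finset.range (ℓ ^ a), (m i : ℂ) * ρ ^ i := by
    intro ρ
    change Polynomial.aeval ρ (∑ i ∈ Finset.range (ℓ ^ a),
      Polynomial.C (m i) * Polynomial.X ^ i) = _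
    rw [map_sum]
    refine Finset.sum_congr rfl fun i _ => ?_
    rw [map_mul, Polynomial.aeval_C, map_pow, Polynomial.aeval_X]
    rfl
  have hfj : ∀ j : ℕ, Polynomial.aeval (ζ ^ j) f =
      ∑ i ∈ Finset.range (ℓ ^ a), (m i : ℂ) * ζ ^ (i * j) := by
    intro j
    rw [hf]
    refine Finset.sum_congr rfl fun i _ => ?_
    rw [← pow_mul, mul_comm j i]
  have hcop : j₀.Coprime (ℓ ^ a) := by
    rw [Nat.coprime_pow_right_iff ha, Nat.coprime_comm, hℓ.coprime_iff_not_dvd]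
    exact hj₀
  obtain ⟨z, hz0, hz⟩ := norm_int f (hζ.pow_of_coprime j₀ hcop) (by rw [hfj]; exact hne)
  rw [← prod_un hℓ ha hζ (fun ρ => Polynomial.aeval ρ f)] at hz
  have hz1 : ∏ j ∈ un ℓ a, ∑ i ∈ Finset.range (ℓ ^ a), (m i : ℂ) * ζ ^ (i * j) = (z : ℂ) := by
    rw [← hz]
    exact Finset.prod_congr rfl fun j _ => (hfj j).symm
  have hun : ∀ j ∈ un ℓ a, ¬ ℓ ∣ j := by
    intro j hj
    rw [un, Finset.mem_filter] at hj
    exact hj.2
  choose! t ht1 ht2 using hdv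
  have hz2 : (z : ℂ) = (ℓ : ℂ) ^ (c * (un ℓ a).card) * ∏ j ∈ un ℓ a, t j := by
    rw [← hz1, Finset.prod_congr rfl fun j hj => ht2 j (hun j hj), Finset.prod_mul_distrib,
      Finset.prod_const, ← pow_mul]
  have hdvd := dvd_of_RM hℓ hM (c * (un ℓ a).card) z (∏ j ∈ un ℓ a, t j)
    (Subring.prod_mem _ fun j hj => ht1 j (hun j hj)) hz2
  have h5 : ∏ j ∈ un ℓ a, ‖∑ i ∈ Finset.range (ℓ ^ a), (m i : ℂ) * ζ ^ (i * j)‖ = |(z : ℝ)| := by
    rw [← norm_prod, hz1, Complex.norm_intCast]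
  rw [h5, ← pow_mul]
  have h6 : ((ℓ : ℤ) ^ (c * (un ℓ a).card)) ≤ |z| := by
    apply Int.le_of_dvd (abs_pos.2 hz0)
    rwa [dvd_abs]
  have h7 : (((ℓ : ℤ) ^ (c * (un ℓ a).card) : ℤ) : ℝ) ≤ ((|z| : ℤ) : ℝ) := Int.cast_le.2 h6
  rw [Int.cast_abs] at h7
  refine le_trans (le_of_eq ?_) h7
  push_cast
  rfl

end Pool.Agent.PP.T6.H28
end
end -- Pool.Agent.Helper28_AT6.NRP

section -- Pool.Agent.Helper33_AT6.ISO

/-!
# Squad AT6, row ISO
-/

open scoped BigOperators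

noncomputable section

namespace Pool.Agent.PP.T6.H33

theorem iso_core (β : ℕ) (X : Type) [Fintype X] (p q : X → Fin β → ℂ)
    (h : ∀ χ χ', ∑ k, p χ k * starRingEnd ℂ (p χ' k) = ∑ k, q χ k * starRingEnd ℂ (q χ' k)) :
    ∃ U : Matrix (Fin β) (Fin β) ℂ, U.conjTranspose * U = 1 ∧ ∀ χ, U.mulVec (p χ) = q χ := by
  classical
  let P : X → EuclideanSpace ℂ (Fin β) := fun χ => WithLp.toLp 2 (p χ)
  let Q : X → EuclideanSpace ℂ (Fin β) := fun χ => WithLp.toLp 2 (q χ)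
  have hin : ∀ x y : EuclideanSpace ℂ (Fin β), inner ℂ x y = ∑ k, y k * starRingEnd ℂ (x k) := by
    intro x y
    rw [PiLp.inner_apply]
    rfl
  have hPQ : ∀ χ χ', inner ℂ (P χ') (P χ) = inner ℂ (Q χ') (Q χ) := by
    intro χ χ'
    rw [hin, hin]
    exact h χ χ'
  let A : (X → ℂ) →ₗ[ℂ] EuclideanSpace ℂ (Fin β) := Fintype.linearCombination ℂ P
  let B : (X → ℂ) →ₗ[ℂ] EuclideanSpace ℂ (Fin β) := Fintype.linearCombination ℂ Q
  have hA : ∀ c, A c = ∑ χ, c χ • P χ := fun c => Fintype.linearCombination_apply ℂ P c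
  have hB : ∀ c, B c = ∑ χ, c χ • Q χ := fun c => Fintype.linearCombination_apply ℂ Q c
  have hAB : ∀ c, inner ℂ (A c) (A c) = inner ℂ (B c) (B c) := by
    intro c
    rw [hA, hB]
    simp only [sum_inner, inner_sum, inner_smul_left, inner_smul_right, hPQ]
  have hn : ∀ c, ‖A c‖ = ‖B c‖ := by
    intro c
    have h1 := hAB c
    rw [inner_self_eq_norm_sq_to_K, inner_self_eq_norm_sq_to_K] at h1
    have h2 : ‖A c‖ ^ 2 = ‖B c‖ ^ 2 := by exact_mod_cast h1
    exact (pow_left_inj₀ (norm_nonneg _) (norm_nonneg _) two_ne_zero).1 h2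
  have hker : LinearMap.ker A ≤ LinearMap.ker B := by
    intro c hc
    rw [LinearMap.mem_ker] at hc ⊢
    rw [← norm_eq_zero, ← hn, hc, norm_zero]
  let L0 : LinearMap.range A →ₗ[ℂ] EuclideanSpace ℂ (Fin β) :=
    ((LinearMap.ker A).liftQ B hker).comp (A.quotKerEquivRange.symm : _ →ₗ[ℂ] _)
  have hL0 : ∀ c, L0 ⟨A c, LinearMap.mem_range_self A c⟩ = B c := by
    intro c
    have e : A.quotKerEquivRange.symm ⟨A c, LinearMap.mem_range_self A c⟩ =
        (LinearMap.ker A).mkQ c := by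
      rw [LinearEquiv.symm_apply_eq]
      rfl
    change (LinearMap.ker A).liftQ B hker (A.quotKerEquivRange.symm _) = _
    rw [e]
    rfl
  let L : LinearMap.range A →ₗᵢ[ℂ] EuclideanSpace ℂ (Fin β) :=
    ⟨L0, by
      rintro ⟨x, c, rfl⟩
      rw [hL0, ← hn]
      rfl⟩
  let f := L.extend
  have hf : ∀ χ, f (P χ) = Q χ := by
    intro χ
    have e1 : A (Pi.single χ 1) = P χ := by
      rw [hA, Finset.sum_eq_single χ]
      · simp
      · intro b _ hb
        rw [Pi.single_eq_of_ne hb, zero_smul]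
      · intro h
        exact absurd (Finset.mem_univ _) h
    have e2 : B (Pi.single χ 1) = Q χ := by
      rw [hB, Finset.sum_eq_single χ]
      · simp
      · intro b _ hb
        rw [Pi.single_eq_of_ne hb, zero_smul]
      · intro h
        exact absurd (Finset.mem_univ _) h
    have e3 := L.extend_apply ⟨A (Pi.single χ 1), LinearMap.mem_range_self A _⟩
    have e4 : L ⟨A (Pi.single χ 1), LinearMap.mem_range_self A _⟩ = B (Pi.single χ 1) := hL0 _
    rw [e4, e2] at e3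
    rw [← e1]
    exact e3
  refine ⟨Matrix.of fun i j => f (EuclideanSpace.single j 1) i, ?_, ?_⟩
  · ext i j
    rw [Matrix.mul_apply]
    have e1 : inner ℂ (f (EuclideanSpace.single i 1)) (f (EuclideanSpace.single j 1)) =
        inner ℂ (EuclideanSpace.single i (1 : ℂ)) (EuclideanSpace.single j (1 : ℂ)) :=
      f.inner_map_map _ _
    rw [hin] at e1
    have e2 : ∀ k, (Matrix.of fun i j => f (EuclideanSpace.single j 1) i).conjTranspose i k *
        (Matrix.of fun i j => f (EuclideanSpace.single j 1) i) k j =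
        f (EuclideanSpace.single j 1) k * starRingEnd ℂ (f (EuclideanSpace.single i 1) k) := by
      intro k
      rw [Matrix.conjTranspose_apply, Matrix.of_apply, Matrix.of_apply, mul_comm]
      rfl
    rw [Finset.sum_congr rfl fun k _ => e2 k, e1, EuclideanSpace.inner_single_left,
      Matrix.one_apply]
    by_cases hij : i = j
    · subst hij
      simp
    · simp [hij]
  · intro χ
    ext i
    have e1 : P χ = ∑ j, p χ j • EuclideanSpace.single j (1 : ℂ) := by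
      ext k
      simp [P, Pi.single_apply]
    have e2 : f (P χ) i = ∑ j, p χ j * f (EuclideanSpace.single j 1) i := by
      rw [e1, map_sum]
      simp
    rw [hf] at e2
    have e3 : q χ i = Q χ i := rfl
    rw [e3, e2, Matrix.mulVec, dotProduct]
    refine Finset.sum_congr rfl fun j _ => ?_
    rw [Matrix.of_apply, mul_comm]

theorem iso : IsoStmt := fun β X _ p q h => iso_core β X p q h

end Pool.Agent.PP.T6.H33
end
end -- Pool.Agent.Helper33_AT6.ISO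

section -- Pool.Agent.Helper41_AT6.DIM

/-!
# Squad AT6, module DIM: an orthonormal basis of the functions on the regular elements spanned by
the characters in a block
-/

open scoped BigOperators InnerProductSpace

noncomputable section

namespace Pool.Agent.PP.T6.H41

open Pool.Agent.Helper51_AWC Pool.Agent.Helper79_WRA Pool.Agent.PP Pool.Agent.PP.KF
open Pool.Agent.PP.K9 Pool.Agent.PP.K9.H97 Pool.Agent.PP.H75 Pool.Agent.PP.T3 Pool.Agent.PP.T2

attribute [local instance] Ideal.Quotient.field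

/-- the sum over the regular elements as a sum over a type -/
theorem sum_reg {H : Type} [Group H] (ℓ : ℕ) [Fintype {s : H // Reg ℓ s}] (f : H → ℂ) :
    ∑ᶠ (s : H) (_ : Reg ℓ s), f s = ∑ s : {s : H // Reg ℓ s}, f s := by
  rw [← finsum_eq_sum_of_fintype]
  exact (finsum_subtype_eq_finsum_cond (f := f) (Reg ℓ)).symm

/-- abstract form: the span of finitely many functions with a reproducing kernel -/
theorem onb {R : Type} [Fintype R] [DecidableEq R] {I : Type} [Fintype I] (F : I → R → ℂ) (c : ℂ)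
    (n : ℕ)
    (hrep : ∀ i s, ∑ s' : R, (c * ∑ k, F k s * starRingEnd ℂ (F k s')) * F i s' = F i s)
    (htr : (n : ℂ) = ∑ s : R, c * ∑ k, F k s * starRingEnd ℂ (F k s)) :
    ∃ B : Fin n → R → ℂ, (∀ i k, ∑ s, B i s * starRingEnd ℂ (B k s) = if i = k then 1 else 0) ∧
      ∀ i s, F i s = ∑ k, (∑ s', F i s' * starRingEnd ℂ (B k s')) * B k s := by
  classical
  let A : Matrix R R ℂ := Matrix.of fun s s' => c * ∑ k, F k s * starRingEnd ℂ (F k s')
  let S' : Submodule ℂ (R → ℂ) := Submodule.span ℂ (Set.range F)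
  have hA : ∀ x : R → ℂ, Matrix.toLin' A x ∈ S' := by
    intro x
    have h1 : Matrix.toLin' A x = ∑ k, (c * ∑ s', starRingEnd ℂ (F k s') * x s') • F k := by
      funext s
      rw [Matrix.toLin'_apply, Matrix.mulVec, dotProduct, Finset.sum_apply]
      simp only [A, Matrix.of_apply, Pi.smul_apply, smul_eq_mul]
      simp only [Finset.mul_sum, Finset.sum_mul]
      rw [Finset.sum_comm]
      refine Finset.sum_congr rfl fun k _ => Finset.sum_congr rfl fun s' _ => ?_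
      ring
    rw [h1]
    exact Submodule.sum_mem _ fun k _ => Submodule.smul_mem _ _ (Submodule.subset_span ⟨k, rfl⟩)
  have hfix : ∀ x ∈ S', Matrix.toLin' A x = x := by
    intro x hx
    induction hx using Submodule.span_induction with
    | mem x hx =>
        obtain ⟨i, rfl⟩ := hx
        funext s
        rw [Matrix.toLin'_apply, Matrix.mulVec, dotProduct]
        simp only [A, Matrix.of_apply]
        exact hrep i s
    | zero => exact map_zero _
    | add x y _ _ hx hy => rw [map_add, hx, hy]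
    | smul a x _ hx => rw [map_smul, hx]
  have hproj : LinearMap.IsProj S' (Matrix.toLin' A) := ⟨hA, hfix⟩
  have htr2 : (Module.finrank ℂ S' : ℂ) = (n : ℂ) := by
    rw [← hproj.trace, Matrix.trace_toLin'_eq, htr, Matrix.trace]
    simp only [A, Matrix.diag_apply, Matrix.of_apply]
  have hfr : Module.finrank ℂ S' = n := by exact_mod_cast htr2
  let L : (R → ℂ) ≃ₗ[ℂ] EuclideanSpace ℂ R := (WithLp.linearEquiv 2 ℂ (R → ℂ)).symm
  let S : Submodule ℂ (EuclideanSpace ℂ R) := S'.map (L : (R → ℂ) →ₗ[ℂ] EuclideanSpace ℂ R)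
  have hS : Module.finrank ℂ S = n := by
    rw [← hfr]
    exact LinearEquiv.finrank_map_eq L S'
  let B0 : OrthonormalBasis (Fin n) ℂ S := (stdOrthonormalBasis ℂ S).reindex (finCongr hS)
  refine ⟨fun i s => (B0 i : EuclideanSpace ℂ R) s, ?_, ?_⟩
  · intro i k
    have h1 := B0.inner_eq_ite k i
    have h2 : ⟪B0 k, B0 i⟫_ℂ = ∑ s, (B0 i : EuclideanSpace ℂ R) s *
        starRingEnd ℂ ((B0 k : EuclideanSpace ℂ R) s) := by
      rw [Submodule.coe_inner, PiLp.inner_apply]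
      refine Finset.sum_congr rfl fun s _ => ?_
      rw [RCLike.inner_apply]
    rw [← h2, h1]
    by_cases h : i = k
    · rw [if_pos h, if_pos h.symm]
    · rw [if_neg h, if_neg (Ne.symm h)]
  · intro i s
    have hmem : L (F i) ∈ S := ⟨F i, Submodule.subset_span ⟨i, rfl⟩, rfl⟩
    have h1 := B0.sum_repr' ⟨L (F i), hmem⟩
    have h2 := congrArg (fun x : S => (x : EuclideanSpace ℂ R) s) h1
    have h3 : (((∑ k, ⟪B0 k, (⟨L (F i), hmem⟩ : S)⟫_ℂ • B0 k : S) : EuclideanSpace ℂ R)) s =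
        ∑ k, ⟪B0 k, (⟨L (F i), hmem⟩ : S)⟫_ℂ * (B0 k : EuclideanSpace ℂ R) s := by
      rw [Submodule.coe_sum, WithLp.ofLp_sum, Finset.sum_apply]
      exact Finset.sum_congr rfl fun k _ => rfl
    have h4 : F i s = ∑ k, ⟪B0 k, (⟨L (F i), hmem⟩ : S)⟫_ℂ * (B0 k : EuclideanSpace ℂ R) s := by
      rw [← h3]
      exact h2.symm
    rw [h4]
    refine Finset.sum_congr rfl fun k _ => ?_
    congr 1

/-- DIM -/
theorem dim (hWBO : WboStmt) (hLRK : LrkStmt) : DimStmt := by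
  classical
  intro ℓ _ M _ hM H _ _ b hb
  have := Fintype.ofFinite H
  have hfin : (IrrE M b).Finite := irr_finite'.subset fun χ hχ => hχ.1
  let I := {κ : H → ℂ // κ ∈ IrrE M b}
  have : Finite I := hfin.to_subtype
  have := Fintype.ofFinite I
  let R := {s : H // Reg ℓ s}
  let F : I → R → ℂ := fun κ s => κ.1 s
  have hc : (Nat.card H : ℂ) ≠ 0 := by exact_mod_cast Nat.card_pos.ne'
  have hsum : ∀ f : (H → ℂ) → ℂ, ∑ᶠ χ ∈ IrrE M b, f χ = ∑ κ : I, f κ.1 := by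
    intro f
    rw [← finsum_eq_sum_of_fintype]
    exact (finsum_subtype_eq_finsum_cond (f := f) (fun χ => χ ∈ IrrE M b)).symm
  obtain ⟨B, hB1, hB2⟩ := onb F (Nat.card H : ℂ)⁻¹ (ln b) (by
    intro i s
    -- the sum over all elements
    have h0 : ∀ g : H, ¬ Reg ℓ g → ∑ k : I, k.1 s * starRingEnd ℂ (k.1 g) = 0 := by
      intro g hg
      have h1 := hWBO ℓ M hM H b hb s g s.2 hg
      rw [hsum (fun χ => χ (s : H)⁻¹ * χ g)] at h1
      have h2 := congrArg (starRingEnd ℂ) h1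
      rw [map_sum, map_zero] at h2
      rw [← h2]
      refine Finset.sum_congr rfl fun k _ => ?_
      rw [map_mul, ← H94.irr_star k.2.1 (s : H), Complex.conj_conj]
    let G0 : H → ℂ := fun g =>
      ((Nat.card H : ℂ)⁻¹ * ∑ k : I, k.1 s * starRingEnd ℂ (k.1 g)) * i.1 g
    have h1 : ∑ s' : R, G0 s' = ∑ g : H, G0 g := by
      rw [← Finset.sum_subtype (Finset.univ.filter (Reg ℓ))
        (fun x => by rw [Finset.mem_filter]; exact ⟨fun h => h.2, fun h => ⟨Finset.mem_univ _, h⟩⟩)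
        G0]
      apply Finset.sum_filter_of_ne
      intro g _ hne
      by_contra h
      apply hne
      show ((Nat.card H : ℂ)⁻¹ * ∑ k : I, k.1 s * starRingEnd ℂ (k.1 g)) * i.1 g = 0
      rw [h0 g h, mul_zero, zero_mul]
    have h2 : ∑ g : H, G0 g = (Nat.card H : ℂ)⁻¹ * ∑ k : I, k.1 s *
        ∑ g : H, i.1 g * k.1 g⁻¹ := by
      simp only [G0, Finset.mul_sum, Finset.sum_mul]
      rw [Finset.sum_comm]
      refine Finset.sum_congr rfl fun k _ => Finset.sum_congr rfl fun g _ => ?_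
      rw [H94.irr_star k.2.1]
      ring
    have h3 : ∑ k : I, k.1 (s : H) * ∑ g : H, i.1 g * k.1 g⁻¹ = i.1 s * Nat.card H := by
      rw [Finset.sum_eq_single i]
      · rw [irr_orth_self i.2.1, Nat.card_eq_fintype_card]
      · intro k _ hk
        rw [irr_orth_ne i.2.1 k.2.1 (fun h => hk (Subtype.ext h.symm)), mul_zero]
      · intro h
        exact absurd (Finset.mem_univ _) h
    show ∑ s' : R, G0 s' = i.1 s
    rw [h1, h2, h3]
    field_simp)
    (by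
      rw [hLRK ℓ M hM H b hb, sum_reg, Finset.mul_sum]
      refine Finset.sum_congr rfl fun s _ => ?_
      rw [hsum (fun χ => χ (s : H) * starRingEnd ℂ (χ s))])
  let r : ℂ := ((Real.sqrt (Nat.card H) : ℝ) : ℂ)
  have hrr : r * r = Nat.card H := by
    show ((Real.sqrt (Nat.card H) : ℝ) : ℂ) * ((Real.sqrt (Nat.card H) : ℝ) : ℂ) = _
    rw [← Complex.ofReal_mul, Real.mul_self_sqrt (Nat.cast_nonneg _)]
    push_cast
    rfl
  have hrs : starRingEnd ℂ r = r := Complex.conj_ofReal _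
  let Q : Fin (ln b) → H → ℂ := fun i s => if h : Reg ℓ s then r * B i ⟨s, h⟩ else 0
  have hQ : ∀ i (s : R), Q i s = r * B i s := by
    intro i s
    show (if h : Reg ℓ (s : H) then r * B i ⟨s, h⟩ else 0) = _
    rw [dif_pos s.2]
  refine ⟨Q, ?_, ?_⟩
  · intro i k
    unfold T5.rip
    rw [sum_reg, ← hB1 i k, Finset.mul_sum]
    refine Finset.sum_congr rfl fun s _ => ?_
    rw [hQ, hQ, map_mul, hrs]
    calc (Nat.card H : ℂ)⁻¹ * (r * B i s * (r * starRingEnd ℂ (B k s))) =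
        (Nat.card H : ℂ)⁻¹ * (r * r) * (B i s * starRingEnd ℂ (B k s)) := by ring
      _ = _ := by rw [hrr, inv_mul_cancel₀ hc, one_mul]
  · intro κ hκ s hs
    have h1 := hB2 ⟨κ, hκ⟩ ⟨s, hs⟩
    have h2 : κ s = F ⟨κ, hκ⟩ ⟨s, hs⟩ := rfl
    rw [h2, h1]
    refine Finset.sum_congr rfl fun k _ => ?_
    unfold T5.rip
    rw [sum_reg, hQ k ⟨s, hs⟩]
    have h3 : ∑ s' : R, κ s' * starRingEnd ℂ (Q k s') =
        r * ∑ s' : R, F ⟨κ, hκ⟩ s' * starRingEnd ℂ (B k s') := by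
      rw [Finset.mul_sum]
      refine Finset.sum_congr rfl fun s' _ => ?_
      rw [hQ, map_mul, hrs]
      show κ s' * (r * starRingEnd ℂ (B k s')) = r * (κ s' * starRingEnd ℂ (B k s'))
      ring
    rw [h3]
    calc (∑ s' : R, F ⟨κ, hκ⟩ s' * starRingEnd ℂ (B k s')) * B k ⟨s, hs⟩ =
        (Nat.card H : ℂ)⁻¹ * (Nat.card H : ℂ) *
          ((∑ s' : R, F ⟨κ, hκ⟩ s' * starRingEnd ℂ (B k s')) * B k ⟨s, hs⟩) := by
          rw [inv_mul_cancel₀ hc, one_mul]
      _ = _ := by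
          rw [← hrr]
          ring

end Pool.Agent.PP.T6.H41
end
end -- Pool.Agent.Helper41_AT6.DIM

section -- Pool.Agent.Helper62_AT6.CNB

/-!
# Squad AT6, row CNB: congruences for an element of the group ring which commutes with `w`
-/

open scoped BigOperators

noncomputable section

namespace Pool.Agent.PP.T6.H62

open Pool.Agent.Helper51_AWC Pool.Agent.Helper79_WRA Pool.Agent.PP Pool.Agent.PP.KF
open Pool.Agent.PP.K9 Pool.Agent.PP.K9.H97 Pool.Agent.PP.H75 Pool.Agent.PP.T3 Pool.Agent.PP.T2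
open Pool.Agent.PP.T6

attribute [local instance] Ideal.Quotient.field

/-- a function which is invariant under the conjugation with `w` is invariant under the conjugation
with all powers of `w` -/
theorem inv_zpowers {G A : Type} [Group G] (a : G → A) {w : G} (h : ∀ x, a (w * x * w⁻¹) = a x)
    {d : G} (hd : d ∈ Subgroup.zpowers w) (x : G) : a (d * x * d⁻¹) = a x := by
  obtain ⟨n, rfl⟩ := Subgroup.mem_zpowers_iff.1 hd
  have h1 : ∀ (n : ℕ) (x : G), a (w ^ n * x * (w ^ n)⁻¹) = a x := by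
    intro n
    induction n with
    | zero =>
      intro x
      simp
    | succ n ih =>
      intro x
      have e : w ^ (n + 1) * x * (w ^ (n + 1))⁻¹ = w * (w ^ n * x * (w ^ n)⁻¹) * w⁻¹ := by
        rw [pow_succ']
        group
      rw [e, h, ih]
  rcases Int.eq_nat_or_neg n with ⟨m, rfl | rfl⟩
  · rw [zpow_natCast]
    exact h1 m x
  · have h2 := h1 m ((w ^ m)⁻¹ * x * w ^ m)
    have e : w ^ m * ((w ^ m)⁻¹ * x * w ^ m) * (w ^ m)⁻¹ = x := by group
    rw [e] at h2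
    rw [zpow_neg, zpow_natCast, inv_inv]
    exact h2.symm

theorem cnb (hobz : ObzStmt) : CnbStmt := by
  intro ℓ hℓ M _ G _ _ θ hθ a ha w k hw hwk haw c
  classical
  have := Fintype.ofFinite G
  have hpr : ℓ.Prime := Fact.out
  set D : Subgroup G := Subgroup.zpowers w with hD
  set z : G := w ^ ℓ ^ (c + 1) with hz
  set F : G → ℂ := fun x => a x * (θ (k * z * x) - θ (k * x)) with hF
  have hFR : ∀ x, F x ∈ RM M := fun x =>
    (RM M).mul_mem (ha x) ((RM M).sub_mem (hθ.rm _) (hθ.rm _))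
  have hdk : ∀ d ∈ D, d * k = k * d := by
    intro d hd
    obtain ⟨n, rfl⟩ := Subgroup.mem_zpowers_iff.1 hd
    exact (Commute.zpow_left (show Commute w k from hwk) n).eq
  have hdd : ∀ d ∈ D, ∀ d' ∈ D, d * d' = d' * d := by
    intro d hd d' hd'
    obtain ⟨n, rfl⟩ := Subgroup.mem_zpowers_iff.1 hd
    obtain ⟨m, rfl⟩ := Subgroup.mem_zpowers_iff.1 hd'
    exact (Commute.zpow_zpow_self w n m).eq
  have hzD : z ∈ D := Subgroup.pow_mem _ (Subgroup.mem_zpowers w) _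
  have hinv : ∀ d ∈ D, ∀ x, F (d * x * d⁻¹) = F x := by
    intro d hd x
    have e1 : k * z * (d * x * d⁻¹) = d * (k * z * x) * d⁻¹ := by
      have e2 : d * (k * z) = k * z * d := by
        rw [← mul_assoc, hdk d hd, mul_assoc, hdd d hd z hzD, mul_assoc]
      calc k * z * (d * x * d⁻¹) = k * z * d * x * d⁻¹ := by group
        _ = d * (k * z) * x * d⁻¹ := by rw [e2]
        _ = d * (k * z * x) * d⁻¹ := by group
    have e3 : k * (d * x * d⁻¹) = d * (k * x) * d⁻¹ := by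
      calc k * (d * x * d⁻¹) = k * d * x * d⁻¹ := by group
        _ = d * k * x * d⁻¹ := by rw [hdk d hd]
        _ = d * (k * x) * d⁻¹ := by group
    simp only [hF]
    rw [inv_zpowers a haw hd x, e1, e3, hθ.cl, hθ.cl]
  have key := hobz M G D Set.univ (fun _ _ _ _ => Set.mem_univ _) F hinv ((ℓ : ℂ) ^ c) (by
    intro x _
    -- the index
    obtain ⟨N, hN⟩ := hw
    have hDp : IsPGroup ℓ D := by
      intro d
      obtain ⟨n, hn⟩ := Subgroup.mem_zpowers_iff.1 d.2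
      refine ⟨N, Subtype.ext ?_⟩
      change (d : G) ^ ℓ ^ N = 1
      rw [← hn, ← zpow_natCast, ← zpow_mul, mul_comm, zpow_mul, zpow_natCast, hN, one_zpow]
    set K : Subgroup D := (D ⊓ Cu x).subgroupOf D with hK
    have hKn : K.Normal := by
      refine ⟨fun n hn g => ?_⟩
      have e : g * n * g⁻¹ = n := by
        apply Subtype.ext
        change (g : G) * n * (g : G)⁻¹ = n
        rw [hdd g g.2 n n.2, mul_inv_cancel_right]
      rw [e]
      exact hn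
    obtain ⟨p, hp⟩ := hDp.index K
    have hp' : (D ⊓ Cu x).relIndex D = ℓ ^ p := hp
    have hwx : w ^ ℓ ^ p ∈ Cu x := by
      have h1 := Subgroup.pow_index_mem K (⟨w, Subgroup.mem_zpowers w⟩ : D)
      rw [hp, hK, Subgroup.mem_subgroupOf] at h1
      exact h1.2
    have hwx' : w ^ ℓ ^ p * x = x * w ^ ℓ ^ p := Subgroup.mem_centralizer_singleton_iff.1 hwx
    rw [hp']
    rcases le_or_gt c p with hcp | hcp
    · refine ⟨((ℓ ^ (p - c) : ℕ) : ℂ) * F x, (RM M).mul_mem (natCast_mem (RM M) _) (hFR x), ?_⟩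
      have e : ((ℓ ^ p : ℕ) : ℂ) = (ℓ : ℂ) ^ c * ((ℓ ^ (p - c) : ℕ) : ℂ) := by
        push_cast
        rw [← pow_add, Nat.add_sub_cancel' hcp]
      rw [e, mul_assoc]
    · have hzw : z = (w ^ ℓ ^ p) ^ ℓ ^ (c - p + 1) := by
        rw [hz, ← pow_mul, ← pow_add]
        congr 2
        omega
      have hzx : k * z * x = k * x * (w ^ ℓ ^ p) ^ ℓ ^ (c - p + 1) := by
        rw [hzw, mul_assoc, mul_assoc]
        congr 1
        exact (Commute.pow_left (show Commute (w ^ ℓ ^ p) x from hwx') _).eq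
      have hel : El ℓ (w ^ ℓ ^ p) := ⟨N, by rw [← pow_mul, mul_comm, pow_mul, hN, one_pow]⟩
      have hcomm : w ^ ℓ ^ p * (k * x) = k * x * w ^ ℓ ^ p := by
        have h1 : w ^ ℓ ^ p * k = k * w ^ ℓ ^ p :=
          hdk _ (Subgroup.pow_mem _ (Subgroup.mem_zpowers w) _)
        rw [← mul_assoc, h1, mul_assoc, hwx', mul_assoc]
      obtain ⟨t, ht, h2⟩ := hθ.cg (k * x) (w ^ ℓ ^ p) hel hcomm (c - p)
      refine ⟨a x * t, (RM M).mul_mem (ha x) ht, ?_⟩
      have e : (ℓ : ℂ) ^ c = (ℓ : ℂ) ^ p * (ℓ : ℂ) ^ (c - p) := by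
        rw [← pow_add, Nat.add_sub_cancel' hcp.le]
      simp only [hF]
      rw [hzx, h2, e]
      push_cast
      ring)
  rw [finsum_mem_univ] at key
  have e : T8.fv a (k * z) θ - T8.fv a k θ = ∑ᶠ x, F x := by
    unfold T8.fv
    rw [finsum_eq_sum_of_fintype, finsum_eq_sum_of_fintype, finsum_eq_sum_of_fintype,
      ← Finset.sum_sub_distrib]
    refine Finset.sum_congr rfl fun x _ => ?_
    simp only [hF]
    ring
  rw [e]
  exact key

end Pool.Agent.PP.T6.H62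
end
end -- Pool.Agent.Helper62_AT6.CNB

section -- Pool.Agent.Helper64_AT6.GEO

/-!
# Squad AT6, module GEO: the average of the square roots of the diagonal entries
-/

open scoped BigOperators

noncomputable section

namespace Pool.Agent.PP.T6.H64

open Pool.Agent.Helper51_AWC Pool.Agent.Helper79_WRA Pool.Agent.PP Pool.Agent.PP.KF
open Pool.Agent.PP.K9 Pool.Agent.PP.K9.H97 Pool.Agent.PP.H75 Pool.Agent.PP.T3 Pool.Agent.PP.T2

attribute [local instance] Ideal.Quotient.field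

/-- if the product of non-negative numbers is at least one, so is their average -/
theorem card_le_sum {ι : Type*} (s : Finset ι) (x : ι → ℝ) (h0 : ∀ i ∈ s, 0 ≤ x i)
    (h : 1 ≤ ∏ i ∈ s, x i) : (s.card : ℝ) ≤ ∑ i ∈ s, x i := by
  have hpos : ∀ i ∈ s, 0 < x i := fun i hi => lt_of_le_of_ne (h0 i hi) (fun h1 => by
    have h2 : ∏ i ∈ s, x i = 0 := Finset.prod_eq_zero hi h1.symm
    rw [h2] at h
    linarith)
  have h1 : 0 ≤ ∑ i ∈ s, Real.log (x i) := by
    rw [← Real.log_prod (fun i hi => (hpos i hi).ne')]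
    exact Real.log_nonneg h
  have h2 : ∑ i ∈ s, (1 + Real.log (x i)) ≤ ∑ i ∈ s, x i := Finset.sum_le_sum fun i hi => by
    have h3 := Real.log_le_sub_one_of_pos (hpos i hi)
    linarith
  rw [Finset.sum_add_distrib, Finset.sum_const, nsmul_eq_mul, mul_one] at h2
  linarith

/-- GEO -/
theorem geo (inm : InmStmt) (psv : PsvStmt) (nrp : NrpStmt) : GeoStmt := by
  intro ℓ _ M _ hM G _ _ e V γ hL v hv b hb a ha hva χ hχ
  have hℓ : ℓ.Prime := Fact.out
  have hζ := Complex.isPrimitiveRoot_exp (ℓ ^ a) (pow_ne_zero _ hℓ.ne_zero)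
  set ζ : ℂ := Complex.exp (2 * Real.pi * Complex.I / ((ℓ ^ a : ℕ) : ℂ)) with hζd
  obtain ⟨n, hn⟩ := inm ℓ M hM G e V γ hL v hv b hb a hva ζ hζ χ hχ.1 χ hχ.1
  have hne : Mm M ℓ V γ v b χ χ ≠ 0 := (psv ℓ M hM G e V γ hL v hv b hb).2.1 χ hχ
  have h11 : ¬ ℓ ∣ 1 := hℓ.not_dvd_one
  have hint : IsIntegral ℤ ζ := hζ.isIntegral (pow_pos hℓ.pos a)
  have h1 := nrp ℓ M hM a 0 ha ζ hζ n
    (fun j _ => ⟨_, RM_of_int (IsIntegral.sum _ fun i _ =>
      (isIntegral_algebraMap (R := ℤ) (A := ℂ) (x := n i)).mul (hint.pow (i * j))), by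
        rw [pow_zero, one_mul]; rfl⟩) 1 h11
    (by rw [← hn 1 h11, pow_one]; exact hne)
  rw [pow_zero, one_pow] at h1
  have h2 : ∏ j ∈ un ℓ a, ‖∑ i ∈ Finset.range (ℓ ^ a), (n i : ℂ) * ζ ^ (i * j)‖ =
      ∏ j ∈ un ℓ a, ‖Mm M ℓ V γ (v ^ j) b χ χ‖ :=
    Finset.prod_congr rfl fun j hj => by rw [hn j (Finset.mem_filter.1 hj).2]
  rw [h2] at h1
  refine card_le_sum _ _ (fun j _ => Real.sqrt_nonneg _) ?_
  have h3 : (∏ j ∈ un ℓ a, Real.sqrt ‖Mm M ℓ V γ (v ^ j) b χ χ‖) ^ 2 =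
      ∏ j ∈ un ℓ a, ‖Mm M ℓ V γ (v ^ j) b χ χ‖ := by
    rw [← Finset.prod_pow]
    exact Finset.prod_congr rfl fun j _ => Real.sq_sqrt (norm_nonneg _)
  have h4 : 0 ≤ ∏ j ∈ un ℓ a, Real.sqrt ‖Mm M ℓ V γ (v ^ j) b χ χ‖ :=
    Finset.prod_nonneg fun j _ => Real.sqrt_nonneg _
  nlinarith

end Pool.Agent.PP.T6.H64
end
end -- Pool.Agent.Helper64_AT6.GEO

section -- Pool.Agent.Helper72_AT6.EQM

/-!
# Squad AT6, row EQM: equality of the numbers `Mm (v z)` and `Mm v`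
-/

set_option autoImplicit false

open scoped BigOperators

noncomputable section

namespace Pool.Agent.PP.T6.H72

open Pool.Agent.Helper51_AWC Pool.Agent.Helper79_WRA Pool.Agent.PP Pool.Agent.PP.KF
open Pool.Agent.PP.K9 Pool.Agent.PP.K9.H97 Pool.Agent.PP.H75 Pool.Agent.PP.T3 Pool.Agent.PP.T2

attribute [local instance] Ideal.Quotient.field

theorem uw_le {G : Type} [Group G] (n : ℕ) (V : Subgroup G) : Uw n V ≤ V := by
  unfold Uw
  rw [Subgroup.closure_le]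
  rintro _ ⟨x, hx, rfl⟩
  exact V.pow_mem hx n

theorem mem_un {ℓ a j : ℕ} (h : j ∈ un ℓ a) : ¬ ℓ ∣ j := by
  unfold un at h
  exact (Finset.mem_filter.1 h).2

theorem un_pos {ℓ a : ℕ} (hℓ : ℓ.Prime) (ha : 0 < a) : 0 < (un ℓ a).card := by
  apply Finset.card_pos.2
  refine ⟨1, ?_⟩
  unfold un
  rw [Finset.mem_filter, Finset.mem_range]
  refine ⟨Nat.one_lt_pow ha.ne' hℓ.one_lt, ?_⟩
  intro h
  exact hℓ.one_lt.ne' (Nat.dvd_one.1 h)

/-- arithmetic and geometric mean -/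
theorem amgm {ι : Type} (s : Finset ι) (hs : 0 < s.card) (f : ι → ℝ) (hf : ∀ i ∈ s, 0 ≤ f i)
    (c : ℝ) (hc : 0 ≤ c) (h : c ^ s.card ≤ ∏ i ∈ s, f i) : c * s.card ≤ ∑ i ∈ s, f i := by
  have hm : (0 : ℝ) < s.card := by exact_mod_cast hs
  have h1 := Real.geom_mean_le_arith_mean_weighted s (fun _ => (s.card : ℝ)⁻¹) f
    (fun i _ => by positivity) (by
      rw [Finset.sum_const, nsmul_eq_mul]
      exact mul_inv_cancel₀ hm.ne') hf
  rw [Real.finsetProd_rpow s f hf, ← Finset.mul_sum] at h1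
  have h2 : c ≤ (∏ i ∈ s, f i) ^ ((s.card : ℝ)⁻¹) := by
    have h3 : (c ^ s.card) ^ ((s.card : ℝ)⁻¹) = c := Real.pow_rpow_inv_natCast hc hs.ne'
    rw [← h3]
    exact Real.rpow_le_rpow (pow_nonneg hc _) h (by positivity)
  have h4 := h2.trans h1
  rw [inv_mul_eq_div, le_div_iff₀ hm] at h4
  exact h4

/-- EQM. -/
theorem eqm (inm : InmStmt) (psv : PsvStmt) (nrp : NrpStmt) (apx : ApxStmt) (lpw : T3.LpwStmt) :
    EqmStmt := by
  intro ℓ hℓ M hMm hM G _ _ N hG5 e V γ hLd c a ha K hK v hv hva z hz hza b b' hb hb' χ hχ χ' hχ'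
    s1 s2 s3 s4 j₀ hj₀
  have hF : GoodF ℓ (FF M) := H50.fld ℓ Fact.out M hM
  have hzV : z ∈ V := uw_le _ V hz
  have hvz : v * z = z * v := hLd.ab v hv z hzV
  have hvzV : v * z ∈ V := V.mul_mem hv hzV
  have hvza : (v * z) ^ ℓ ^ a = 1 := by
    rw [(show Commute v z from hvz).mul_pow, hva, hza, one_mul]
  have hL1 : ∀ j : ℕ, ¬ ℓ ∣ j → Lc e V γ (v ^ j) b := fun j hj =>
    (lpw ℓ (FF M) hF G e V γ hLd v hv b hb j hj).2
  have hL2 : ∀ j : ℕ, ¬ ℓ ∣ j → Lc e V γ ((v * z) ^ j) b' := fun j hj =>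
    (lpw ℓ (FF M) hF G e V γ hLd (v * z) hvzV b' hb' j hj).2
  have hI : χ ∈ Irr G := hχ.1.1
  have hI' : χ' ∈ Irr G := hχ'.1.1
  obtain ⟨ζ, hζ⟩ : ∃ ζ : ℂ, IsPrimitiveRoot ζ (ℓ ^ a) :=
    ⟨_, Complex.isPrimitiveRoot_exp (ℓ ^ a) (pow_ne_zero a hℓ.out.ne_zero)⟩
  obtain ⟨n1, hn1⟩ := inm ℓ M hM G e V γ hLd v hv b hb a hva ζ hζ χ hI χ' hI'
  obtain ⟨n2, hn2⟩ := inm ℓ M hM G e V γ hLd (v * z) hvzV b' hb' a hvza ζ hζ χ hI χ' hI'
  have hy : ∀ j : ℕ, ¬ ℓ ∣ j →
      ∑ i ∈ Finset.range (ℓ ^ a), (((fun i => n2 i - n1 i) i : ℤ) : ℂ) * ζ ^ (i * j) =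
        Mm M ℓ V γ ((v * z) ^ j) b' χ χ' - Mm M ℓ V γ (v ^ j) b χ χ' := by
    intro j hj
    rw [hn1 j hj, hn2 j hj, ← Finset.sum_sub_distrib]
    apply Finset.sum_congr rfl
    intro i _
    push_cast
    ring
  have hD : ∀ j : ℕ, ¬ ℓ ∣ j → Dv M ((ℓ : ℂ) ^ c)
      (∑ i ∈ Finset.range (ℓ ^ a), (((fun i => n2 i - n1 i) i : ℤ) : ℂ) * ζ ^ (i * j)) := by
    intro j hj
    rw [hy j hj]
    have hpow : (v * z) ^ j = v ^ j * z ^ j := (show Commute v z from hvz).mul_pow j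
    have h2 := hL2 j hj
    rw [hpow] at h2 ⊢
    exact apx ℓ M hM G N hG5 e V γ hLd c χ hχ χ' hχ' (v ^ j) (V.pow_mem hv j) (z ^ j)
      ((Uw (ℓ ^ (3 * c + 1)) V).pow_mem hz j) b b' (hL1 j hj) h2
  by_contra hne
  have hne' : ∑ i ∈ Finset.range (ℓ ^ a), (((fun i => n2 i - n1 i) i : ℤ) : ℂ) * ζ ^ (i * j₀) ≠
      0 := by
    rw [hy j₀ hj₀]
    exact sub_ne_zero.2 hne
  have hP := nrp ℓ M hM a c ha ζ hζ (fun i => n2 i - n1 i) hD j₀ hj₀ hne'
  have hcard := un_pos hℓ.out ha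
  have hA := amgm (un ℓ a) hcard
    (fun j => ‖∑ i ∈ Finset.range (ℓ ^ a), (((fun i => n2 i - n1 i) i : ℤ) : ℂ) * ζ ^ (i * j)‖)
    (fun j _ => norm_nonneg _) ((ℓ : ℝ) ^ c) (by positivity) hP
  have hB : ∑ j ∈ un ℓ a,
      ‖∑ i ∈ Finset.range (ℓ ^ a), (((fun i => n2 i - n1 i) i : ℤ) : ℂ) * ζ ^ (i * j)‖ ≤
      ∑ j ∈ un ℓ a, ((‖Mm M ℓ V γ ((v * z) ^ j) b' χ χ‖ + ‖Mm M ℓ V γ ((v * z) ^ j) b' χ' χ'‖) / 2
        + (‖Mm M ℓ V γ (v ^ j) b χ χ‖ + ‖Mm M ℓ V γ (v ^ j) b χ' χ'‖) / 2) := by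
    apply Finset.sum_le_sum
    intro j hj
    have hj' := mem_un hj
    rw [hy j hj']
    refine (norm_sub_le _ _).trans ?_
    have hcs : ∀ x p q : ℝ, 0 ≤ x → 0 ≤ p → 0 ≤ q → x ^ 2 ≤ p * q → x ≤ (p + q) / 2 := by
      intro x p q hx hp hq h
      have h1 : x ^ 2 ≤ ((p + q) / 2) ^ 2 := by nlinarith [sq_nonneg (p - q)]
      exact (pow_le_pow_iff_left₀ hx (by positivity) two_ne_zero).1 h1
    have e1 := (psv ℓ M hM G e V γ hLd ((v * z) ^ j) (V.pow_mem hvzV j) b' (hL2 j hj')).2.2 χ χ'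
    have e2 := (psv ℓ M hM G e V γ hLd (v ^ j) (V.pow_mem hv j) b (hL1 j hj')).2.2 χ χ'
    exact add_le_add (hcs _ _ _ (norm_nonneg _) (norm_nonneg _) (norm_nonneg _) e1)
      (hcs _ _ _ (norm_nonneg _) (norm_nonneg _) (norm_nonneg _) e2)
  rw [Finset.sum_add_distrib, ← Finset.sum_div, ← Finset.sum_div, Finset.sum_add_distrib,
    Finset.sum_add_distrib] at hB
  have hm : (0 : ℝ) < (un ℓ a).card := by exact_mod_cast hcard
  have hfin : (ℓ : ℝ) ^ c * (un ℓ a).card ≤ 2 * K * (un ℓ a).card := by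
    refine (hA.trans hB).trans ?_
    linarith
  exact absurd (le_of_mul_le_mul_right hfin hm) (not_le.2 hK)

end Pool.Agent.PP.T6.H72
end
end -- Pool.Agent.Helper72_AT6.EQM

section -- Pool.Agent.Helper85_AT6.PIG

/-! Squad AT6, row PIG. -/

set_option autoImplicit false

namespace Pool.Agent.PP.T6.H85

theorem fsum_sub {G : Type} [Group G] [Fintype G] (W : Subgroup G) [DecidablePred (· ∈ W)]
    (f : G → ℝ) : (∑ᶠ (z : G) (_ : z ∈ W), f z) = ∑ z ∈ Finset.univ.filter (· ∈ W), f z := by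
  rw [finsum_eq_sum_of_fintype, Finset.sum_filter]
  refine Finset.sum_congr rfl fun z _ => ?_
  rw [finsum_eq_if]

theorem card_sub {G : Type} [Group G] [Fintype G] (W : Subgroup G) [DecidablePred (· ∈ W)] :
    Nat.card W = (Finset.univ.filter (· ∈ W)).card := by
  rw [Nat.card_eq_fintype_card]
  exact Fintype.card_subtype _

theorem pig : PigStmt := by
  intro ℓ hℓ G _ _ V hV a ha hexp W hW hWa F hF
  classical
  have : Fintype G := Fintype.ofFinite G
  have hp : ℓ.Prime := hℓ.out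
  set VF : Finset G := Finset.univ.filter (· ∈ V) with hVF
  set WF : Finset G := Finset.univ.filter (· ∈ W) with hWF
  set VP : Finset G := VF.filter (fun v => v ^ ℓ ^ (a - 1) ≠ 1) with hVP
  set VK : Finset G := VF.filter (fun v => ¬ v ^ ℓ ^ (a - 1) ≠ 1) with hVK
  have hpow : ∀ v ∈ V, v ^ ℓ ^ a = 1 := by
    intro v hv
    have h1 : (⟨v, hv⟩ : V) ^ Monoid.exponent V = 1 := Monoid.pow_exponent_eq_one _
    rw [hexp] at h1
    have h2 := congrArg (Subtype.val : V → G) h1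
    simpa using h2
  have hord : ∀ v ∈ V, v ^ ℓ ^ (a - 1) ≠ 1 → orderOf v = ℓ ^ a := by
    intro v hv hne
    obtain ⟨b, rfl⟩ : ∃ b, a = b + 1 := ⟨a - 1, by omega⟩
    rw [Nat.add_sub_cancel] at hne
    exact orderOf_eq_prime_pow hne (hpow v hv)
  -- an element of order ℓ ^ a
  obtain ⟨u, huV, hu⟩ : ∃ u ∈ V, u ^ ℓ ^ (a - 1) ≠ 1 := by
    by_contra hcon
    push Not at hcon
    have h1 : Monoid.exponent V ∣ ℓ ^ (a - 1) := by
      apply Monoid.exponent_dvd_of_forall_pow_eq_one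
      intro g
      apply Subtype.ext
      simpa using hcon g.1 g.2
    rw [hexp] at h1
    have h2 := (Nat.pow_dvd_pow_iff_le_right hp.one_lt).1 h1
    omega
  have hmulpow : ∀ x ∈ V, ∀ y ∈ V, ∀ n : ℕ, (x * y) ^ n = x ^ n * y ^ n := by
    intro x hx y hy n
    exact (show Commute x y from hV x hx y hy).mul_pow n
  -- the map v ↦ u v sends VK into VP
  have hcard : VF.card ≤ 2 * VP.card := by
    have h1 : VP.card + VK.card = VF.card := Finset.card_filter_add_card_filter_not _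
    have h2 : VK.card ≤ VP.card := by
      apply Finset.card_le_card_of_injOn (fun v => u * v)
      · intro v hv
        have hv' : v ∈ VK := hv
        rw [hVK, Finset.mem_filter, hVF, Finset.mem_filter] at hv'
        have hvV := hv'.1.2
        have hv1 : v ^ ℓ ^ (a - 1) = 1 := not_not.1 hv'.2
        show u * v ∈ VP
        rw [hVP, Finset.mem_filter, hVF, Finset.mem_filter]
        refine ⟨⟨Finset.mem_univ _, V.mul_mem huV hvV⟩, ?_⟩
        rw [hmulpow u huV v hvV, hv1, mul_one]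
        exact hu
      · intro x _ y _ hxy
        exact mul_left_cancel hxy
    omega
  have hVPne : VP.Nonempty := by
    refine ⟨u, ?_⟩
    rw [hVP, Finset.mem_filter, hVF, Finset.mem_filter]
    exact ⟨⟨Finset.mem_univ _, huV⟩, hu⟩
  -- double counting
  have hshift : ∀ z ∈ WF, ∑ v ∈ VP, F (v * z) = ∑ v ∈ VP, F v := by
    intro z hz
    rw [hWF, Finset.mem_filter] at hz
    have hzW := hz.2
    have hzV := hW hzW
    refine Finset.sum_bij (fun v _ => v * z) ?_ ?_ ?_ ?_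
    · intro v hv
      rw [hVP, Finset.mem_filter, hVF, Finset.mem_filter] at hv ⊢
      refine ⟨⟨Finset.mem_univ _, V.mul_mem hv.1.2 hzV⟩, ?_⟩
      rw [hmulpow v hv.1.2 z hzV, hWa z hzW, mul_one]
      exact hv.2
    · intro x _ y _ hxy
      exact mul_right_cancel hxy
    · intro v hv
      rw [hVP, Finset.mem_filter, hVF, Finset.mem_filter] at hv
      refine ⟨v * z⁻¹, ?_, by group⟩
      rw [hVP, Finset.mem_filter, hVF, Finset.mem_filter]
      refine ⟨⟨Finset.mem_univ _, V.mul_mem hv.1.2 (V.inv_mem hzV)⟩, ?_⟩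
      rw [hmulpow v hv.1.2 z⁻¹ (V.inv_mem hzV), hWa z⁻¹ (W.inv_mem hzW), mul_one]
      exact hv.2
    · intro v _
      rfl
  have hsum : ∑ v ∈ VP, ∑ z ∈ WF, F (v * z) = WF.card * ∑ v ∈ VP, F v := by
    rw [Finset.sum_comm, Finset.sum_congr rfl hshift, Finset.sum_const, nsmul_eq_mul]
  have hle : ∑ v ∈ VP, F v ≤ ∑ v ∈ VF, F v := by
    apply Finset.sum_le_sum_of_subset_of_nonneg (Finset.filter_subset _ _)
    intro v hv _
    rw [hVF, Finset.mem_filter] at hv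
    exact hF v hv.2
  obtain ⟨v₀, hv₀, hmin⟩ : ∃ v₀ ∈ VP, (VP.card : ℝ) * ∑ z ∈ WF, F (v₀ * z) ≤
      WF.card * ∑ v ∈ VP, F v := by
    by_contra hcon
    push Not at hcon
    have h1 : ∑ v ∈ VP, (WF.card * ∑ w ∈ VP, F w : ℝ) <
        ∑ v ∈ VP, (VP.card : ℝ) * ∑ z ∈ WF, F (v * z) :=
      Finset.sum_lt_sum_of_nonempty hVPne hcon
    rw [Finset.sum_const, nsmul_eq_mul, ← Finset.mul_sum, hsum] at h1
    exact lt_irrefl _ h1
  have hv₀' := hv₀
  rw [hVP, Finset.mem_filter, hVF, Finset.mem_filter] at hv₀'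
  have hv₀V : v₀ ∈ V := hv₀'.1.2
  refine ⟨v₀, hv₀V, fun z hz => ?_, ?_⟩
  · apply hord _ (V.mul_mem hv₀V (hW hz))
    rw [hmulpow v₀ hv₀V z (hW hz), hWa z hz, mul_one]
    exact hv₀'.2
  · rw [fsum_sub, fsum_sub, card_sub, card_sub]
    rw [← hVF, ← hWF]
    have hnn : 0 ≤ ∑ z ∈ WF, F (v₀ * z) := by
      apply Finset.sum_nonneg
      intro z hz
      rw [hWF, Finset.mem_filter] at hz
      exact hF _ (V.mul_mem hv₀V (hW hz.2))
    have hc : (VF.card : ℝ) ≤ 2 * VP.card := by exact_mod_cast hcard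
    calc (∑ z ∈ WF, F (v₀ * z)) * (VF.card : ℝ) ≤ (∑ z ∈ WF, F (v₀ * z)) * (2 * VP.card) :=
          mul_le_mul_of_nonneg_left hc hnn
      _ = 2 * ((VP.card : ℝ) * ∑ z ∈ WF, F (v₀ * z)) := by ring
      _ ≤ 2 * (WF.card * ∑ v ∈ VP, F v) := by linarith
      _ ≤ 2 * (WF.card * ∑ v ∈ VF, F v) := by
          have : (WF.card : ℝ) * ∑ v ∈ VP, F v ≤ WF.card * ∑ v ∈ VF, F v :=
            mul_le_mul_of_nonneg_left hle (by positivity)
          linarith
      _ = 2 * (WF.card : ℝ) * ∑ v ∈ VF, F v := by ring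

end Pool.Agent.PP.T6.H85
end -- Pool.Agent.Helper85_AT6.PIG

section -- Pool.Agent.Helper66_AT6.Asm

/-!
# Squad AT6: the assembly, THEOREM T6
-/

noncomputable section

namespace Pool.Agent.PP.T6

open Pool.Agent.Helper51_AWC Pool.Agent.Helper79_WRA Pool.Agent.PP Pool.Agent.PP.KF
open Pool.Agent.PP.K9 Pool.Agent.PP.K9.H97 Pool.Agent.PP.H75 Pool.Agent.PP.T3 Pool.Agent.PP.T2

theorem ker5_ : T5.KerStmt := T5.H45.ker
theorem co3_ : T5.Co3Stmt := T5.H48.co3 ker5_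
theorem co5_ : T5.Co5Stmt := T5.H89.co5 ker5_
theorem twy_ : T5.TwyStmt := T5.H48.twy T3.smg_ co3_
theorem twt_ : T5.TwtStmt := T5.H48.twt T3.lrk_
theorem ncl_ : T5.NclStmt :=
  T5.H82.ncl (H74.brt H20.ibf H20.ibc H20.ibj H20.ibn) K9.H3.rnk_ H20.eig
theorem cys_ : T5.CysStmt := T5.H32.cys twt_ ncl_
theorem pr5_ : T5.Pr5Stmt := T5.H60.pr5
theorem fx5_ : T5.Fx5Stmt := T5.H46.fx5 T2.fxy_ T3.lrk_ twy_ cys_
theorem inq_ : T5.InqStmt :=
  T5.H24.inq (T5.H81.sei K9.ada_ K9.H27.prt) T5.H32.zim (T5.H39.deg K9.H69.fmg)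
theorem omi_ : T8.OmiStmt := T8.H17.omi
theorem rva_ : T8.RvaStmt := T8.H21.rva
theorem fch_ : T8.FchStmt := T8.H53.fch

theorem obz_ : ObzStmt := H17.obz
theorem or6_ : Or6Stmt := H45.or6 obz_
theorem cnb_ : CnbStmt := H62.cnb obz_
theorem svv_ : SvvStmt := H69.svv
theorem krf_ : KrfStmt := H89.krf
theorem lwd_ : LwdStmt := H39.lwd
theorem cnd_ : CndStmt := H39.cnd T3.fus_
theorem clc_ : ClcStmt := H17.clc svv_ krf_
theorem trn_ : TrnStmt := H66.trn svv_ cnb_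
theorem yex_ : YexStmt := H35.yex omi_ K9.H69.fmg K9.H34.inx
theorem inm_ : InmStmt := H33.inm inq_ T3.lsb_ T3.lpw_
theorem psv_ : PsvStmt := H25.psv K9.nz_
theorem nrp_ : NrpStmt := H28.nrp
theorem geo_ : GeoStmt := H64.geo inm_ psv_ nrp_
theorem dim_ : DimStmt := H41.dim K9.wbo_ T3.lrk_
theorem pgr_ : PgrStmt := H81.pgr dim_
theorem iso_ : IsoStmt := H33.iso
theorem pig_ : PigStmt := H85.pig
theorem rka_ : RkaStmt := H95.rka T2.pwu_
theorem ixb_ : IxbStmt := H15.ixb T2.pwu_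
theorem lnc_ : LncStmt := H24.lnc T3.psg_ K9.H02.pug T3.lsb_

theorem pwn_ : PwnStmt := H83.pwn
theorem div_ : DivStmt := H69.div pwn_ or6_
theorem cna_ : CnaStmt := H56.cna
theorem smh_ : SmhStmt := H16.smh T3.smg_
theorem lcx_ : LcxStmt := H46.lcx T3.dug_
theorem sec_ : SecStmt := H32.sec svv_ smh_ lcx_ T3.loc_ T3.fus_
theorem ips_ : IpsStmt := H32.ips K9.rot_
theorem yid_ : YidStmt := H88.yid ips_ svv_
theorem cpl_ : CplStmt := H81.cpl sec_ ips_
theorem blk_ : BlkStmt := H94.blk svv_ clc_ cnd_ div_ T2.pwu_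
theorem aps_ : ApsStmt := H56.aps yid_ or6_ sec_ blk_ lwd_ svv_ K9.H34.inx
theorem apx_ : ApxStmt := H3.apx cna_ lwd_ yex_ trn_ aps_ T3.loc_ T2.pwu_ K9.H34.inx
theorem eqm_ : EqmStmt := H72.eqm inm_ psv_ nrp_ apx_ T3.lpw_
theorem bsl_ : BslStmt := H9.bsl co3_ co5_ T3.fus_
theorem avg_ : AvgStmt := H94.avg iso_
theorem fbd_ : FbdStmt :=
  H41.fbd cpl_ psv_ geo_ eqm_ pgr_ bsl_ avg_ pig_ T3.loc_ T3.lpw_ T2.pwu_
theorem lb6_ : Lb6Stmt := H66.lb6 rka_ ixb_ lnc_ fbd_ pr5_ fx5_ K9.dzo_ K9.H3.lbd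
theorem t6a_ : T6aStmt := H55.t6a lb6_ rka_ T2.fst_ T2.tes_ T2.dvx_

/-- THEOREM T6 -/
theorem fn6_ : Fn6Stmt := H41.fn6 t6a_ T2.dza_

/-- the bound for the number of the irreducible modular characters -/
theorem fn7_ : Fn7Stmt := H87.fn7 lb6_ dim_

end Pool.Agent.PP.T6
end
end -- Pool.Agent.Helper66_AT6.Asm
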