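import Pool.Agent.Helper12_AWB.B227
import Pool.Agent.Helper12_AWB.B268

/-!
# Merged copies (generated) of the modules

* `Pool.Agent.ASO.DefsA`
* `Pool.Agent.ASO.Stmts1`
* `Pool.Agent.Helper10_ASO.NTM`
* `Pool.Agent.Helper35_ASO.CNG`
* `Pool.Agent.Helper20_ASE.RNB`
* `Pool.Agent.Helper27_ASO.GAU`
* `Pool.Agent.Helper59_ASO.PRJ`
* `Pool.Agent.Helper97_ASO.BRD`
-/

set_option autoImplicit false

section -- Pool.Agent.ASO.DefsA

/-!
# Squad ASO, definitions, part A: lifted permutations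

Squad ASO: blocks with elementary abelian defect groups of order `ℓ ^ 2` and free inertial action
(second order).  This part needs Mathlib only.  Text: `AWC_SO.md`.
-/

open scoped BigOperators

noncomputable section

namespace Pool.Agent.PP.SO

/-- the rational numbers with denominator prime to `ℓ` -/
def zl (ℓ : ℕ) [hp : Fact ℓ.Prime] : Subring ℚ where
  carrier := {q | ∃ (a : ℤ) (b : ℕ), ¬ ℓ ∣ b ∧ (b : ℚ) * q = a}
  one_mem' := ⟨1, 1, fun h => hp.out.one_lt.ne' (Nat.dvd_one.1 h), by simp⟩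
  zero_mem' := ⟨0, 1, fun h => hp.out.one_lt.ne' (Nat.dvd_one.1 h), by simp⟩
  mul_mem' := by
    rintro x y ⟨a, b, hb, h⟩ ⟨a', b', hb', h'⟩
    refine ⟨a * a', b * b', fun h0 => ?_, ?_⟩
    · rcases hp.out.dvd_mul.1 h0 with h1 | h1
      · exact hb h1
      · exact hb' h1
    · push_cast
      rw [← h, ← h']
      ring
  add_mem' := by
    rintro x y ⟨a, b, hb, h⟩ ⟨a', b', hb', h'⟩
    refine ⟨a * b' + a' * b, b * b', fun h0 => ?_, ?_⟩
    · rcases hp.out.dvd_mul.1 h0 with h1 | h1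
      · exact hb h1
      · exact hb' h1
    · push_cast
      rw [← h, ← h']
      ring
  neg_mem' := by
    rintro x ⟨a, b, hb, h⟩
    refine ⟨-a, b, hb, ?_⟩
    push_cast
    rw [← h]
    ring

/-- A permutation `p` of `Z` with three rational functions: `r` and `e` are lifts of the values at
`p` of two cocycles, `t` is the value of the pairing cochain. -/
@[ext] structure HZ (Z : Type) where
  p : Equiv.Perm Z
  r : Z → ℚ
  e : Z → ℚ
  t : Z → ℚ

namespace HZ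

variable {Z : Type}

instance : Mul (HZ Z) := ⟨fun x y => ⟨x.p * y.p, fun z => x.r (y.p z) + y.r z,
  fun z => x.e (y.p z) + y.e z, fun z => x.t (y.p z) + y.t z + x.r (y.p z) * y.e z⟩⟩

instance : One (HZ Z) := ⟨⟨1, fun _ => 0, fun _ => 0, fun _ => 0⟩⟩

instance : Inv (HZ Z) := ⟨fun x => ⟨x.p⁻¹, fun z => - x.r (x.p⁻¹ z), fun z => - x.e (x.p⁻¹ z),
  fun z => - x.t (x.p⁻¹ z) + x.r (x.p⁻¹ z) * x.e (x.p⁻¹ z)⟩⟩

@[simp] theorem mul_p (x y : HZ Z) : (x * y).p = x.p * y.p := rfl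
@[simp] theorem mul_r (x y : HZ Z) (z : Z) : (x * y).r z = x.r (y.p z) + y.r z := rfl
@[simp] theorem mul_e (x y : HZ Z) (z : Z) : (x * y).e z = x.e (y.p z) + y.e z := rfl
@[simp] theorem mul_t (x y : HZ Z) (z : Z) :
    (x * y).t z = x.t (y.p z) + y.t z + x.r (y.p z) * y.e z := rfl
@[simp] theorem one_p : (1 : HZ Z).p = 1 := rfl
@[simp] theorem one_r (z : Z) : (1 : HZ Z).r z = 0 := rfl
@[simp] theorem one_e (z : Z) : (1 : HZ Z).e z = 0 := rfl
@[simp] theorem one_t (z : Z) : (1 : HZ Z).t z = 0 := rfl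
@[simp] theorem inv_p (x : HZ Z) : (x⁻¹).p = x.p⁻¹ := rfl
@[simp] theorem inv_r (x : HZ Z) (z : Z) : (x⁻¹).r z = - x.r (x.p⁻¹ z) := rfl
@[simp] theorem inv_e (x : HZ Z) (z : Z) : (x⁻¹).e z = - x.e (x.p⁻¹ z) := rfl
@[simp] theorem inv_t (x : HZ Z) (z : Z) :
    (x⁻¹).t z = - x.t (x.p⁻¹ z) + x.r (x.p⁻¹ z) * x.e (x.p⁻¹ z) := rfl

instance : Group (HZ Z) where
  mul_assoc x y w := by
    ext z
    · rfl
    · simp only [mul_r, mul_p, Equiv.Perm.mul_apply]; ring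
    · simp only [mul_e, mul_p, Equiv.Perm.mul_apply]; ring
    · simp only [mul_t, mul_r, mul_e, mul_p, Equiv.Perm.mul_apply]; ring
  one_mul x := by
    ext z
    · rfl
    · simp
    · simp
    · simp
  mul_one x := by
    ext z
    · rfl
    · simp
    · simp
    · simp
  inv_mul_cancel x := by
    ext z
    · simp
    · simp
    · simp
    · simp

/-- equality modulo `R` of the permutations and of the functions `r` and `e` -/
structure cg (R : Subring ℚ) (x y : HZ Z) : Prop where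
  p : x.p = y.p
  r : ∀ z, x.r z - y.r z ∈ R
  e : ∀ z, x.e z - y.e z ∈ R

variable {R : Subring ℚ}

theorem cg.refl (x : HZ Z) : cg R x x := ⟨rfl, fun z => by simp [R.zero_mem], fun z => by
  simp [R.zero_mem]⟩

theorem cg.symm {x y : HZ Z} (h : cg R x y) : cg R y x :=
  ⟨h.p.symm, fun z => by rw [← neg_sub]; exact R.neg_mem (h.r z),
    fun z => by rw [← neg_sub]; exact R.neg_mem (h.e z)⟩

theorem cg.trans {x y w : HZ Z} (h : cg R x y) (h' : cg R y w) : cg R x w :=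
  ⟨h.p.trans h'.p, fun z => by
      have := R.add_mem (h.r z) (h'.r z)
      rwa [sub_add_sub_cancel] at this, fun z => by
      have := R.add_mem (h.e z) (h'.e z)
      rwa [sub_add_sub_cancel] at this⟩

theorem cg.mul {x y x' y' : HZ Z} (h : cg R x y) (h' : cg R x' y') : cg R (x * x') (y * y') := by
  refine ⟨?_, fun z => ?_, fun z => ?_⟩
  · rw [mul_p, mul_p, h.p, h'.p]
  · have := R.add_mem (h.r (y'.p z)) (h'.r z)
    rw [mul_r, mul_r, h'.p, add_sub_add_comm]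
    exact this
  · have := R.add_mem (h.e (y'.p z)) (h'.e z)
    rw [mul_e, mul_e, h'.p, add_sub_add_comm]
    exact this

theorem cg.inv {x y : HZ Z} (h : cg R x y) : cg R x⁻¹ y⁻¹ := by
  refine ⟨?_, fun z => ?_, fun z => ?_⟩
  · rw [inv_p, inv_p, h.p]
  · rw [inv_r, inv_r, h.p, ← neg_sub']
    exact R.neg_mem (h.r (y.p⁻¹ z))
  · rw [inv_e, inv_e, h.p, ← neg_sub']
    exact R.neg_mem (h.e (y.p⁻¹ z))

variable (Z R) in
/-- the congruence `cg R`; `(cgc Z R).Quotient` is a group -/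
def cgc : Con (HZ Z) where
  r := cg R
  iseqv := ⟨cg.refl, cg.symm, cg.trans⟩
  mul' h h' := cg.mul h h'

end HZ

/-- `A = a c⁻¹` -/
def AA {Z : Type} (a c : HZ Z) : HZ Z := a * c⁻¹

/-- `B = b A⁻¹ b⁻¹` -/
def BB {Z : Type} (a b c : HZ Z) : HZ Z := b * (c * a⁻¹) * b⁻¹

/-- `C = B⁻¹ A⁻¹ B A` -/
def CC {Z : Type} (a b c : HZ Z) : HZ Z := (BB a b c)⁻¹ * (AA a c)⁻¹ * BB a b c * AA a c

/-- The value at `A` of the cocycle `a ρ₁` and of the cocycle `ε_a = a ρ₂ - ρ₂ - δ g`, where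
`g(z) = ρ₂(a⁻¹, z)`, `(a ρ)(h, z) = ρ(a⁻¹ h a, a⁻¹ z)`, `a⁻¹ A a = A`, `a⁻¹ B a = A⁻¹ B`. -/
def X1 {Z : Type} (a c : HZ Z) : HZ Z :=
  ⟨(AA a c).p, fun z => (AA a c).r (a.p⁻¹ z), fun z => (AA a c).e (a.p⁻¹ z) - (AA a c).e z -
    (a⁻¹.e ((AA a c).p z) - a⁻¹.e z), fun _ => 0⟩

/-- The value at `B` of the cocycles `a ρ₁` and `ε_a`. -/
def Y1 {Z : Type} (a b c : HZ Z) : HZ Z :=
  ⟨(BB a b c).p, fun z => ((AA a c)⁻¹ * BB a b c).r (a.p⁻¹ z),
    fun z => ((AA a c)⁻¹ * BB a b c).e (a.p⁻¹ z) - (BB a b c).e z -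
    (a⁻¹.e ((BB a b c).p z) - a⁻¹.e z), fun _ => 0⟩

/-- `τ(a) = I(a ρ₁, ε_a) - ∑ h₁ g - ∑ g₁ j₂`, `h₁ = κ₁ - r₁`, `g₁(z) = ρ₁(a⁻¹, z)`,
`j₂ = κ₂ - r₂ - ρ₂(C, ·)`. -/
def tau {Z : Type} (a b c : HZ Z) (r₁ r₂ : ℚ) (κ₁ κ₂ : Z → ℚ) : ℚ :=
  ∑ᶠ z, ((Y1 a b c)⁻¹ * (X1 a c)⁻¹ * Y1 a b c * X1 a c).t z -
    ∑ᶠ z, (κ₁ z - r₁) * a⁻¹.e z - ∑ᶠ z, a⁻¹.r z * (κ₂ z - r₂ - (CC a b c).e z)

/-- The lifts `a`, `b`, `c` of three permutations satisfy modulo `R` the braid relations, the value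
of `(a b c) ^ 4` is `(r₁, r₂)` and the value of `(a b) ^ 6` is `(κ₁, κ₂)`, functions invariant under
`a` and `b`. -/
structure Bra (R : Subring ℚ) {Z : Type} (a b c : HZ Z) (r₁ r₂ : ℚ) (κ₁ κ₂ : Z → ℚ) : Prop where
  aba : HZ.cg R (a * b * a) (b * a * b)
  cbc : HZ.cg R (c * b * c) (b * c * b)
  ac : HZ.cg R (a * c) (c * a)
  tw : HZ.cg R ((a * b * c) ^ 4) ⟨1, fun _ => r₁, fun _ => r₂, fun _ => 0⟩
  t6 : HZ.cg R ((a * b) ^ 6) ⟨((a * b) ^ 6).p, κ₁, κ₂, fun _ => 0⟩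
  k1a : ∀ z, κ₁ (a.p z) = κ₁ z
  k1b : ∀ z, κ₁ (b.p z) = κ₁ z
  k2a : ∀ z, κ₂ (a.p z) = κ₂ z
  k2b : ∀ z, κ₂ (b.p z) = κ₂ z

end Pool.Agent.PP.SO
end
end -- Pool.Agent.ASO.DefsA

section -- Pool.Agent.ASO.Stmts1

/-!
# Squad ASO, statements 1: the exact relation for lifted permutations

This part needs Mathlib only.  Complete proofs in the docstrings.  Text: `AWC_SO.md`.

A *cocycle* of a group `Γ` acting on `Z` with values in `ℚ/R` is a function with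
`ρ(g h, z) = ρ(g, h z) + ρ(h, z)`.  An element `(p, r, e, t)` of `HZ Z` carries the values at `p` of
two cocycles `ρ₁` (`r`), `ρ₂` (`e`).  `(δ g)(h, z) = g(h z) - g(z)`.
-/

open scoped BigOperators

noncomputable section

namespace Pool.Agent.PP.SO

/-! ## 1. The braid group -/

/-- BRD: identities in a group with elements `a`, `b`, `c` which satisfy the braid relations.

Proof.  (1) `a A a⁻¹ = A` is clear.  `b A b⁻¹ = B⁻¹` is the definition of `B = b A⁻¹ b⁻¹`.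
`B a = c B`: `B = b c a⁻¹ b⁻¹`, `a⁻¹ b⁻¹ a b a = b`, so `B a = b c (a⁻¹ b⁻¹ a b a) a⁻¹ b⁻¹ =
b c b a⁻¹ b⁻¹ = c b c a⁻¹ b⁻¹ = c B`.  `a B a⁻¹ = a c⁻¹ B = A B` (`B a⁻¹ = c⁻¹ B`).
`c B c⁻¹ = B a c⁻¹ = B A`.  `(a b a) A (a b a)⁻¹ = (b a b) A (b a b)⁻¹`: the left side is
`a B⁻¹ a⁻¹ = (A B)⁻¹`, the right side is `b a B⁻¹ a⁻¹ b⁻¹ = b (A B)⁻¹ b⁻¹ = (b B b⁻¹)⁻¹ B`, so
`b B b⁻¹ = B A B`.
(2) `C = B⁻¹ A⁻¹ B A` commutes with `a` and with `b` (insert (1)).
(3) `Δ = a b a`, `w = a b c`.  `A B a = A c B = a B`, `B b = b c a⁻¹`, so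
`A B Δ = a B b a = a b c a⁻¹ a = w`.
`Δ A Δ⁻¹ = (A B)⁻¹`, `Δ B Δ⁻¹ = a b (A B) b⁻¹ a⁻¹ = a (B⁻¹ B A B) a⁻¹ = A A B`, so
`w² = A B (Δ A B Δ⁻¹) Δ² = A B (A B)⁻¹ A A B Δ² = A A B Δ²`.
`Δ² A Δ⁻² = ((A B)⁻¹ A A B)⁻¹ = B⁻¹ A⁻¹ B`, `Δ² B Δ⁻² = (A B)⁻¹ (A B)⁻¹ A A B = B⁻¹ A⁻¹ B⁻¹ A B`.
`w⁴ = A A B (Δ² A A B Δ⁻²) Δ⁴ = A A B · B⁻¹ A⁻¹ A⁻¹ B · B⁻¹ A⁻¹ B⁻¹ A B · Δ⁴ = A⁻¹ B⁻¹ A B Δ⁴
= C⁻¹ Δ⁴`, and `Δ⁴ = (a b) ^ 6` (`Δ² = (a b) ^ 3`), it commutes with `a`, `b` (`Δ a = b Δ`,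
`Δ b = a Δ`).
(4) `w⁴ = C⁻¹ Δ⁴` commutes with `a` and `b` by (2), (3), and so with `c = w b w⁻¹`
(`w b w⁻¹ = a (b c b c⁻¹ b⁻¹) a⁻¹ = a (c b c c⁻¹ b⁻¹) a⁻¹ = a c a⁻¹ = c`). -/
def BrdStmt : Prop := ∀ (Γ : Type) [Group Γ] (a b c A B C : Γ), a * b * a = b * a * b →
  c * b * c = b * c * b → a * c = c * a → A = a * c⁻¹ → B = b * (c * a⁻¹) * b⁻¹ →
  C = B⁻¹ * A⁻¹ * B * A →
  a * A * a⁻¹ = A ∧ a * B * a⁻¹ = A * B ∧ b * A * b⁻¹ = B⁻¹ ∧ b * B * b⁻¹ = B * A * B ∧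
  B * a = c * B ∧ c * B * c⁻¹ = B * A ∧ a * C = C * a ∧ b * C = C * b ∧
  (a * b) ^ 6 = C * (a * b * c) ^ 4 ∧ (a * b) ^ 6 * a = a * (a * b) ^ 6 ∧
  (a * b) ^ 6 * b = b * (a * b) ^ 6 ∧ (a * b * c) ^ 4 * a = a * (a * b * c) ^ 4 ∧
  (a * b * c) ^ 4 * b = b * (a * b * c) ^ 4 ∧ (a * b * c) ^ 4 * c = c * (a * b * c) ^ 4

/-! ## 2. The pairing and the homomorphism `τ` -/

/-- TAU: the homomorphism `τ` on the group generated by `a` and `b`.

Proof.  `F` is the free group on `A`, `B`, `Π` the group generated by `a`, `b` (BRD in the quotient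
group `(HZ.cgc Z R).Quotient`).  `ρ₁`, `ρ₂`: the cocycles of the group generated by `a`, `b`, `c`
with values in `ℚ/R`; `ρ~₂` the `ℚ`-valued cocycle of `F` with the values `(AA a c).e`,
`(BB a b c).e`, `ρ~₁` in the same way.
*Pairing.*  For `ℚ`-valued cocycles `ρ`, `ρ'` of `F` let `x, y ∈ HZ Z` be lifts of `A`, `B` with
`r = ρ`, `e = ρ'`, and `I(ρ, ρ') = ∑_z (y⁻¹ x⁻¹ y x).t z`.  It does not depend on the functions `t`
of `x`, `y` (an element `(1, 0, 0, t)` is moved by conjugation to `(1, 0, 0, t ∘ π)`, its sum does not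
change, and `x`, `y` both occur once with exponent `1` and once with `-1`).  `I` is the sum of
`θ(C, z)` for any `θ` with `θ(g h, z) = θ(g, h z) + θ(h, z) + ρ(g, h z) ρ'(h, z)`.  It is additive in
`ρ` and in `ρ'`.  (F1) `I(δ g, ρ') = ∑ g(C z) ρ'(C, z)` (`θ(h, z) = g(h z) ρ'(h, z)`).  (F2)
`I(ρ, δ g) = - ∑ ρ(C, z) g(z)` (`θ(h, z) = - ρ(h, z) g(z)`).  (F3) Let `x ∈ Π` be a word in
`a`, `b` and `φ` the automorphism `g ↦ x⁻¹ g x` of the free group `F` (generated by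
`φ_a : A ↦ A, B ↦ A⁻¹ B` and `φ_b : A ↦ A B A, B ↦ A⁻¹`; both fix the element `C` of the free
group), `(x ρ)(g, z) = ρ(φ(g), x⁻¹ z)`; then `I(x ρ, x ρ') = I(ρ, ρ')`: conjugation with
`(x, 0, 0, 0)` and `φ(C) = C`, `I` computed with the lifts `φ(A)`, `φ(B)`.  If `ρ'` has values in `R`
then `I(ρ, ρ')` modulo `R` depends only on `ρ` modulo `R`.
*The gauge.*  `C = (a b) ^ 6 (a b c) ^ -4` modulo `R` (BRD), so `ρ_i(C, z) = h_i(z) = κ_i(z) - r_i`
modulo `R`, invariant under `Π`, and `C` acts on `Z` as `T = (a b) ^ 6`.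
For `x ∈ Π` let `g_{i,x}(z) = ρ_i(x⁻¹, z)`, `g~_{2,x}` any lift of `g_{2,x}`.  The cocycle identity
gives `(x ρ_i)(g, z) = ρ_i(g, z) + g_{i,x}(g z) - g_{i,x}(z)`, so
`ε_x = x ρ~₂ - ρ~₂ - δ g~_{2,x}` has values in `R`.  `C` commutes with `x`, so `g_{i,x}(C z) =
g_{i,x}(z)` modulo `R`.  Let `j₂ = h₂ - ρ~₂(C, ·)` (`h₂ = κ₂ - r₂` exactly), with values in `R`.
`ε_x(C, z) = j₂(z) - j₂(x⁻¹ z) - (g~_{2,x}(C z) - g~_{2,x}(z))`.
`τ(x) = I(x ρ₁, ε_x) - ∑ h₁ g~_{2,x} - ∑ g_{1,x} j₂` in `ℚ/R`.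
(i) Independence of the lift: for `g~ + n`, `n` with values in `R`, the first term changes by
`∑ (x ρ₁)(C, z) n(z) = ∑ h₁(x⁻¹ z) n(z) = ∑ h₁ n`, and the second by the negative.
(ii) `τ(x x') = τ(x) + τ(x')`: take `g~_{x x'} = g~_x + x g~_{x'}` (`(x g)(z) = g(x⁻¹ z)`).  Then
`ε_{x x'} = x ε_{x'} + ε_x`, `I(x x' ρ₁, ε_{x x'}) = I(x' ρ₁, ε_{x'}) + I(x ρ₁, ε_x) +
∑ (x g_{1,x'})(C z) ε_x(C, z)` (F1, F3, `x x' ρ₁ = x ρ₁ + δ(x g_{1,x'})`).  The last sum is
`∑ g_{1,x'}(x⁻¹ z) j₂(z) - ∑ g_{1,x'}(z) j₂(z)` (for the part `g~(C z) - g~(z)`: if `f(C z) - f(z)`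
and `g(C z) - g(z)` are in `R` for all `z` then `∑ f(z) (g(C z) - g(z)) ∈ R`, since `f` is
congruent to a `C`-invariant function).  Now compare with `∑ g_{1,x x'} j₂ = ∑ g_{1,x} j₂ +
∑ (x g_{1,x'}) j₂` and `∑ h₁ (x g~_{x'}) = ∑ h₁ g~_{x'}`.
(iii) `T`: `φ_T(g) = C⁻¹ g C` in the free group: for `ψ_a : A ↦ A, B ↦ A B` and
`ψ_b : A ↦ B⁻¹, B ↦ B A B` (`ψ_x(g) = x g x⁻¹`), `(ψ_a ψ_b) ^ 6` is `A ↦ C A C⁻¹, B ↦ C B C⁻¹` (a
computation on words, checked by program; with `Δ`: `ψ_Δ = ψ_a ψ_b ψ_a : A ↦ (A B)⁻¹, B ↦ A A B`,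
`ψ_Δ² : A ↦ B⁻¹ A⁻¹ B, B ↦ B⁻¹ A⁻¹ B⁻¹ A B`, `(ψ_Δ²)² = (ψ_a ψ_b) ^ 6`).  So `T ρ~₂ - ρ~₂ = δ(ρ~₂(C⁻¹, ·))`, `ρ~₂(C⁻¹, z) = - ρ~₂(C, C⁻¹ z) =
- h₂(z) + j₂(C⁻¹ z)`; with `g~_{2,T} = - κ₂`: `ε_T = δ(κ₂ + ρ~₂(C⁻¹, ·)) = δ(r₂ + j₂ ∘ C⁻¹) =
δ(j₂ ∘ C⁻¹)`.  (F2): `I(T ρ₁, ε_T) = - ∑ h₁(z) j₂(C⁻¹ z) = - ∑ h₁ j₂`.  So
`τ(T) = - ∑ h₁ j₂ + ∑ h₁ κ₂ + ∑ κ₁ j₂ = ∑ h₁ κ₂ + r₁ ∑ j₂`, and
`∑ j₂ = ∑ κ₂ - |Z| r₂ - ∑ ρ~₂(C, z)`, the last sum is `0` (`C` is a commutator).  So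
`τ(T) = ∑ κ₁ κ₂ - |Z| r₁ r₂`.
(iv) `T = (a b) ^ 6` and `τ(b) = τ(a)` (`a b a = b a b`), so `τ(T) = 12 τ(a)`; the number `tau` is
`τ(a)` for the lift `g~(z) = a⁻¹.e z` (`φ_a(A) = A`, `φ_a(B) = A⁻¹ B`). -/
def TauStmt : Prop := ∀ (R : Subring ℚ) (Z : Type) [Finite Z] (a b c : HZ Z) (r₁ r₂ : ℚ)
  (κ₁ κ₂ : Z → ℚ), Bra R a b c r₁ r₂ κ₁ κ₂ →
  (Nat.card Z * r₁ * r₂ - ∑ᶠ z, κ₁ z * κ₂ z) + 12 * tau a b c r₁ r₂ κ₁ κ₂ ∈ R

/-- EVA: evaluation of `τ(a)` with local functions.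

Proof.  Notation: `α = a.r`, `α₃ = c.r`, `β = (BB a b c).r`, `α' = a.e`, `α₃' = c.e`,
`β' = (BB a b c).e` (functions), `A* = B⁻¹ A B`, `a* = B⁻¹ a B`; on `Z`: `C = A*⁻¹ A`,
`A* = a* a⁻¹`, `a = B⁻¹ c B`, `A*` commutes with `a` (BRD).  All congruences are modulo `R`.
(1) `a` and `c` commute exactly in `e`, so `ε_a(A) = 0` (`X1.e = 0`).  If `ε(A) = 0` then
`I(ρ, ε) = ∑_z ε(B, z) ρ(A*⁻¹, z)` (with `θ(A) = θ(B) = 0`: `∑ θ(C, z) = ∑ θ(A*⁻¹, z) =
∑ (ρ(B⁻¹ A⁻¹, B z) - ρ(B⁻¹, B z)) ε(B, z)`).  `ε_a(B, a z) = ε^(z)` with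
`ε^(z) = α₃'(B z) + β'(z) - β'(a z) - α'(z)` (`a⁻¹ B a = A⁻¹ B`, `B a = c B`), in `R`.
`(a ρ₁)(A*⁻¹, a z) = ρ₁(A*⁻¹, z)`.  So `τ ≡ P + T₂ + T₃`, `P = ∑ ε^(z) ρ₁(A*⁻¹, z)`,
`T₂ = ∑ h₁(z) α'(z)`, `T₃ = ∑ α(z) j₂(a z)` (`a⁻¹.e z = - α'(a⁻¹ z)`, `h₁` is `a`-invariant).
(2) `φ' = u ∘ B - β`; then modulo `R`: `ρ₁(a, z) = α₃(B z) + β(z) - β(a z) ≡ n₁(B z) + φ'(a z) -
φ'(z)` and `n₁(B z) = m₁(z)`; `ρ₁(a*, z) ≡ (m₁ - η)(B z) + φ'(a* z) - φ'(z)`.  Write `f*` for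
`f ∘ B`.  So `ρ₁(A*⁻¹, z) = ρ₁(a a*⁻¹, z) ≡ (m₁ - m₁* + η*)(z) + φ'(A*⁻¹ z) - φ'(z)`.  The same for
`ρ₂` with exact equalities for the lifts: `χ = v ∘ B - β'`, `ω = χ - v`:
`ε^ = ω(a z) - ω(z) - ζ*(z)`, `ρ~₂(A*⁻¹, z) = (m₂ - ζ* - m₂*)(z) + χ(A*⁻¹ z) - χ(z)`,
`ρ~₂(A, z) = (m₂ - n₂ + ζ)(z) + v(A z) - v(z)`.
All of `m_i, n_i, η, ζ, m_i*, η*, ζ*` are invariant under `a`; `m_i`, `n_i`, `η`, `ζ` under `c`;
`m_i*, η*, ζ*` under `a*` and so under `A*`; `m_i` under `C`.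
(3) `P ≡ ∑ ε^ (m₁ - m₁* + η*) + ∑ ε^(z)(φ'(A*⁻¹ z) - φ'(z))
= - ∑ ζ*(m₁ - m₁* + η*) - ∑ ω(a z)[δ_a φ'(A*⁻¹ z) - δ_a φ'(z)]`, `δ_a f(z) = f(a z) - f(z)`
(sums of `δ_a ω` against `a`-invariant functions vanish; `ζ*` is `A*`-invariant).
(4) `T₂ = ∑ h₁ m₂ = ∑ (κ₁ - r₁) m₂` (`h₁` is `a`-invariant).
(5) `T₃`: `j₂` has values in `R`, so `α` may be replaced by `m₁ + δ_a φ'`.
`j₂(a z) = h₂(z) - ρ~₂(C, a z)`, `ρ~₂(C, w) = (m₂ - ζ* - m₂*)(A w) + (m₂ - n₂ + ζ)(w) + χ(C w) -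
ω(A w) - v(w)`.  `∑ (m₁ + δ_a φ') h₂ = ∑ m₁ (κ₂ - r₂)`.  The sums of `m₁` against the differences of
`χ`, `v` vanish (`m₁` is invariant under `a`, `A`, `C`), the sums of `δ_a φ'` against `a`-invariant
functions vanish.  So `T₃ ≡ ∑ m₁ (κ₂ - r₂) - ∑ m₁ (2 m₂ - n₂ - m₂* + ζ - ζ*) -
∑ δ_a φ'(z) [χ(C a z) - ω(A a z) - v(a z)]`.
(6) The sum of the quadratic terms of (3) and (5) is
`Q = ∑ δ_a φ'(z) [ω(a A z) - ω(a A* z) + χ(a z) - χ(a C z)]`, and `A z = A* C z`, so with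
`f(z) = ω(a A* z) - χ(a z)`: `Q = ∑ δ_a φ'(z) (f(C z) - f(z)) = - ∑ N(z) f(C z)`,
`N(z) = δ_a φ'(C z) - δ_a φ'(z)`, which is in `R` (`δ_a φ' ≡ α - m₁` is `C`-invariant modulo `R`: `C`
commutes with `a` and `ρ₁(C, ·) = h₁` is `a`-invariant).  From the formula for `ρ~₂(C, a z)` modulo `R`
(`≡ h₂(z)`): `f(C z) = ω(a A z) - χ(a C z) ≡ - h₂(z) + [a`-invariant functions`] - v(a z)`.
`∑ N h₂ = 0` (`h₂` is `C`-invariant), `∑ N (a`-invariant`) = 0` (`N = δ_a` of `φ'(C z) - φ'(z)`).  So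
`Q ≡ ∑ N(z) v(a z)`.
(7) `Q` may be computed with any `φ` with `δ_a φ ≡ α - m₁`: let `ψ = φ - φ'`, `D = δ_a ψ ∈ R`; the
difference is `∑ (D(C z) - D(z)) v(a z) = ∑ D(z) w(z)`, `w(z) = v(a C⁻¹ z) - v(a z)`, and
`δ_a w ∈ R` (`δ_a v ≡ α' - m₂` is `C`-invariant modulo `R`); `ψ` is the sum of an `a`-invariant
function and a function with values in `R`, so `∑ δ_a ψ · w = - ∑ ψ(z) (w(z) - w(a⁻¹ z)) ∈ R`.
(8) Collect: `- ∑ ζ*(m₁ - m₁* + η*) - ∑ m₁(ζ - ζ*) = - ∑ η ζ` (`∑ f* g* = ∑ f g`),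
`∑ m₁ m₂* = ∑ n₁ m₂` (`n_i ∘ B = m_i`), so `- ∑ m₁ (2 m₂ - n₂ - m₂*) = - ∑ (m₁ - n₁)(m₂ - n₂)`
(`∑ n₁ n₂ = ∑ m₁ m₂`). -/
def EvaStmt : Prop := ∀ (R : Subring ℚ) (Z : Type) [Finite Z] (a b c : HZ Z) (r₁ r₂ : ℚ)
  (κ₁ κ₂ : Z → ℚ), Bra R a b c r₁ r₂ κ₁ κ₂ → ∀ (m₁ m₂ n₁ n₂ η ζ u v φ : Z → ℚ),
  (∀ f : Z → ℚ, f = m₁ ∨ f = m₂ ∨ f = n₁ ∨ f = n₂ ∨ f = η ∨ f = ζ →
    ∀ z, f (a.p z) = f z ∧ f (c.p z) = f z) →
  (∀ z, m₁ (((a * b) ^ 6).p z) = m₁ z ∧ m₂ (((a * b) ^ 6).p z) = m₂ z) →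
  (∀ z, n₁ ((BB a b c).p z) = m₁ z ∧ n₂ ((BB a b c).p z) = m₂ z) →
  (∀ z, a.r z - (m₁ z - η z) - (u (a.p z) - u z) ∈ R ∧ c.r z - n₁ z - (u (c.p z) - u z) ∈ R) →
  (∀ z, a.e z = m₂ z + (v (a.p z) - v z) ∧ c.e z = n₂ z - ζ z + (v (c.p z) - v z)) →
  (∀ z, a.r z - m₁ z - (φ (a.p z) - φ z) ∈ R) →
  tau a b c r₁ r₂ κ₁ κ₂ + ∑ᶠ z, ((m₁ z - n₁ z) * (m₂ z - n₂ z) + (r₁ - κ₁ z) * m₂ z +
    m₁ z * (r₂ - κ₂ z) + η z * ζ z) -
    ∑ᶠ z, ((φ (a.p (((a * b) ^ 6).p z)) - φ (((a * b) ^ 6).p z)) - (φ (a.p z) - φ z)) *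
      v (a.p z) ∈ R

/-- NTM: the term of the pairs of commuting permutations.

Proof.  It is enough to consider one orbit `O` of the group generated by `a`, `C`.  Let `n` be the
length of the `a`-orbits in `O`, `k` the least positive number with `C ^ k z ∈ ⟨a⟩ z` (the same for
all `z ∈ O`), `C ^ k z = a ^ k' z` (`k'` modulo `n`, the same for all `z`).  `|O| = n k`.  Summing over
an `a`-orbit, `n μ_i ∈ R`.
(1) The sum modulo `R` does not change if `p₁`, `p₂` are changed by functions with values in `R`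
(`N = δ_C δ_a p₁` is in `R`, because `μ₁` is invariant; for a change of `p₁` by `q` with values in `R`
move the differences to `p₂(a z)`).  So let `z₀ ∈ O`, and for `0 ≤ s < k`, `0 ≤ t < n`:
`p₁(C^s a^t z₀) = t μ₁ + f(s)`, and `p₂(C^s a^t z₀) ≡ t μ₂ + g(s)`.  Then `δ_a p₁ = μ₁ - n μ₁ [t = n-1]`,
`N = 0` for `s < k - 1`, and for `s = k - 1`: `N = - n μ₁ ([t + k' ≡ n - 1] - [t = n - 1])` (mod `n`).
`∑ N(z) p₂(a z) = - n μ₁ (p₂(C^(k-1) a^(-k') z₀) - p₂(C^(k-1) z₀)) ≡ n μ₁ k' μ₂`.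
(2) For `z ∈ O`: `k₀(z) = s k` with a natural number `s`, and `k/k₀(z) ∈ R`, so `s` is a unit of `R`;
`k₁(z) = s k' + t n` with an integer `t`, and
`(k₁/k₀) n k μ₁ μ₂ = n k' μ₁ μ₂ + (t/s) (n μ₁) (n μ₂)`, the last term is in `R`. -/
def NtmStmt : Prop := ∀ (R : Subring ℚ) (Z : Type) [Finite Z] (a C : Equiv.Perm Z),
  a * C = C * a → ∀ (p₁ p₂ μ₁ μ₂ : Z → ℚ) (k₀ k₁ : Z → ℕ),
  (∀ z, μ₁ (a z) = μ₁ z ∧ μ₁ (C z) = μ₁ z ∧ μ₂ (a z) = μ₂ z ∧ μ₂ (C z) = μ₂ z) →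
  (∀ z, k₀ (a z) = k₀ z ∧ k₀ (C z) = k₀ z ∧ k₁ (a z) = k₁ z ∧ k₁ (C z) = k₁ z) →
  (∀ z, p₁ (a z) - p₁ z - μ₁ z ∈ R ∧ p₂ (a z) - p₂ z - μ₂ z ∈ R) →
  (∀ z, 0 < k₀ z ∧ (C ^ k₀ z) z = (a ^ k₁ z) z ∧
    ∀ k j : ℕ, (C ^ k) z = (a ^ j) z → (k : ℚ) / k₀ z ∈ R) →
  ∑ᶠ z, ((p₁ (a (C z)) - p₁ (C z)) - (p₁ (a z) - p₁ z)) * p₂ (a z) -
    ∑ᶠ z, (k₁ z : ℚ) / k₀ z * μ₁ z * μ₂ z ∈ R

/-- RTO: the exact relation.

Proof.  TAU, EVA, NTM.  Let `a'`, `c'` be `a`, `c` with the functions `e` replaced by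
`m₂ + δ_a v`, `n₂ - ζ + δ_c v`; they are congruent to `a`, `c`, so `Bra` holds for `a'`, `b`, `c'`.
Let `φ = t₁ + q₁` where `q₁` is a function with `q₁(a z) - q₁(z) ≡ M₁ - m₁`: (it exists: by EVA's proof
`φ = u ∘ B - (BB).r` satisfies `δ_a φ ≡ a.r - m₁`; put `q₁ = φ - t₁`), and `q₂ = v - t₂`.  `t_i` is
`T`-invariant, so in the last sum of EVA `φ` may be replaced by `q₁` (in the difference
`φ(T z) - φ(z)`) and then `v` by `q₂` (`∑ (f(T z) - f(z)) t₂(a z) = 0`).  NTM for `p_i = q_i`,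
`μ_i = M_i - m_i`, `C = T = ((a b) ^ 6).p` (it commutes with `a.p`, BRD for the permutations). -/
def RtoStmt : Prop := ∀ (R : Subring ℚ) (Z : Type) [Finite Z] (a b c : HZ Z) (r₁ r₂ : ℚ)
  (κ₁ κ₂ : Z → ℚ), Bra R a b c r₁ r₂ κ₁ κ₂ →
  ∀ (m₁ m₂ n₁ n₂ η ζ M₁ M₂ u v t₁ t₂ : Z → ℚ) (k₀ k₁ : Z → ℕ),
  (∀ f : Z → ℚ, f = m₁ ∨ f = m₂ ∨ f = n₁ ∨ f = n₂ ∨ f = η ∨ f = ζ →
    ∀ z, f (a.p z) = f z ∧ f (c.p z) = f z) →
  (∀ f : Z → ℚ, f = m₁ ∨ f = m₂ ∨ f = M₁ ∨ f = M₂ →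
    ∀ z, f (a.p z) = f z ∧ f (((a * b) ^ 6).p z) = f z) →
  (∀ z, n₁ ((BB a b c).p z) = m₁ z ∧ n₂ ((BB a b c).p z) = m₂ z) →
  (∀ z, a.r z - (m₁ z - η z) - (u (a.p z) - u z) ∈ R ∧ c.r z - n₁ z - (u (c.p z) - u z) ∈ R) →
  (∀ z, a.e z - m₂ z - (v (a.p z) - v z) ∈ R ∧
    c.e z - (n₂ z - ζ z) - (v (c.p z) - v z) ∈ R) →
  (∀ z, t₁ (((a * b) ^ 6).p z) = t₁ z ∧ t₂ (((a * b) ^ 6).p z) = t₂ z) →
  (∀ z, a.r z - M₁ z - (t₁ (a.p z) - t₁ z) ∈ R ∧ a.e z - M₂ z - (t₂ (a.p z) - t₂ z) ∈ R) →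
  (∀ z, k₀ (a.p z) = k₀ z ∧ k₀ (((a * b) ^ 6).p z) = k₀ z ∧
    k₁ (a.p z) = k₁ z ∧ k₁ (((a * b) ^ 6).p z) = k₁ z) →
  (∀ z, 0 < k₀ z ∧ (((a * b) ^ 6).p ^ k₀ z) z = (a.p ^ k₁ z) z ∧
    ∀ k j : ℕ, (((a * b) ^ 6).p ^ k) z = (a.p ^ j) z → (k : ℚ) / k₀ z ∈ R) →
  ∑ᶠ z, (r₁ * r₂ - κ₁ z * κ₂ z - 12 * ((m₁ z - n₁ z) * (m₂ z - n₂ z) + (r₁ - κ₁ z) * m₂ z +
    m₁ z * (r₂ - κ₂ z) + η z * ζ z -
    (k₁ z : ℚ) / k₀ z * (M₁ z - m₁ z) * (M₂ z - m₂ z))) ∈ R

/-- GAU: a cocycle of two commuting permutations with given holonomy.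

Proof.  One orbit of `⟨a, c⟩` at a time.  Fix `z₀`.  Every point is `a^i c^j z₀`; put
`u(a^i c^j z₀) = (sum of the cocycle along a^i c^j) - (i μ + j ν)`.  By the hypothesis and the cocycle
identity it is well defined modulo `R` (if `a^i c^j z₀ = a^i' c^j' z₀` then compare with the
holonomy of `a^(i-i') c^(j-j')`; add multiples of the orders of `a`, `c` to have natural
exponents); choose representatives in `ℚ`.  Then `u(a z) - u(z) ≡ α(z) - μ` and
`u(c z) - u(z) ≡ γ(z) - ν`. -/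
def GauStmt : Prop := ∀ (R : Subring ℚ) (Z : Type) [Finite Z] (a c : Equiv.Perm Z),
  a * c = c * a → ∀ (α γ μ ν : Z → ℚ), (∀ z, α (c z) + γ z - (γ (a z) + α z) ∈ R) →
  (∀ z, μ (a z) = μ z ∧ μ (c z) = μ z ∧ ν (a z) = ν z ∧ ν (c z) = ν z) →
  (∀ (z : Z) (i j : ℕ), (a ^ i * c ^ j) z = z →
    (∑ s ∈ Finset.range i, α ((a ^ s * c ^ j) z) + ∑ s ∈ Finset.range j, γ ((c ^ s) z)) -
      (i * μ z + j * ν z) ∈ R) →
  ∃ u : Z → ℚ, ∀ z, α z - μ z - (u (a z) - u z) ∈ R ∧ γ z - ν z - (u (c z) - u z) ∈ R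

end Pool.Agent.PP.SO
end
end -- Pool.Agent.ASO.Stmts1

section -- Pool.Agent.Helper10_ASO.NTM

/-!
# Row NTM of the squad ASO: the term of the pairs of commuting permutations

The proof does not use orbits: `b z` is a representative of the orbit of `z` under `a`,
`z = a ^ (t z) (b z)`, and `w z = 1 - t (a z) + t z` satisfies `a ^ (w z) z = z` and
`∑ w F = ∑ F` for all `a`-invariant functions `F`.
-/

open scoped BigOperators

noncomputable section

namespace Pool.Agent.PP.SO.H10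

/-- representatives of the orbits of a permutation -/
theorem bt {Z : Type} (a : Equiv.Perm Z) :
    ∃ (b : Z → Z) (t : Z → ℤ), (∀ z, (a ^ t z) (b z) = z) ∧ ∀ z, b (a z) = b z := by
  classical
  have hex : ∀ z : Z, Equiv.Perm.SameCycle a
      (Quotient.out (Quotient.mk (Equiv.Perm.SameCycle.setoid a) z)) z := by
    intro z
    have h := Quotient.mk_out (s := Equiv.Perm.SameCycle.setoid a) z
    exact h
  choose t ht using hex
  refine ⟨fun z => Quotient.out (Quotient.mk (Equiv.Perm.SameCycle.setoid a) z), t, ht, ?_⟩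
  intro z
  have h : Quotient.mk (Equiv.Perm.SameCycle.setoid a) (a z) =
      Quotient.mk (Equiv.Perm.SameCycle.setoid a) z := by
    apply Quotient.sound
    have h1 : Equiv.Perm.SameCycle a (a z) z := ⟨-1, by simp⟩
    exact h1
  simp only [h]

/-- an invariant function is invariant under all powers -/
theorem invz {Z W : Type} (a : Equiv.Perm Z) (f : Z → W) (hf : ∀ z, f (a z) = f z) (m : ℤ) (z : Z) :
    f ((a ^ m) z) = f z := by
  induction m using Int.induction_on generalizing z with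
  | zero => simp
  | succ n ih =>
    rw [zpow_add, zpow_one, Equiv.Perm.mul_apply, ih, hf]
  | pred n ih =>
    rw [zpow_sub, zpow_one, Equiv.Perm.mul_apply, ih]
    have h := hf (a⁻¹ z)
    rw [← h]
    simp

/-- the values of `p` along an orbit -/
theorem pz {Z : Type} (R : Subring ℚ) (a : Equiv.Perm Z) (p μ : Z → ℚ) (hμ : ∀ z, μ (a z) = μ z)
    (hp : ∀ z, p (a z) - p z - μ z ∈ R) (m : ℤ) (z : Z) : p ((a ^ m) z) - p z - m * μ z ∈ R := by
  induction m using Int.induction_on generalizing z with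
  | zero => simp [R.zero_mem]
  | succ n ih =>
    rw [zpow_add, zpow_one, Equiv.Perm.mul_apply]
    have h := R.add_mem (ih (a z)) (hp z)
    rw [hμ] at h
    have e : p ((a ^ (n : ℤ)) (a z)) - p z - ((n : ℤ) + 1 : ℤ) * μ z =
        p ((a ^ (n : ℤ)) (a z)) - p (a z) - (n : ℤ) * μ z + (p (a z) - p z - μ z) := by
      push_cast
      ring
    rw [e]
    exact h
  | pred n ih =>
    rw [zpow_sub, zpow_one, Equiv.Perm.mul_apply]
    have h1 := ih (a⁻¹ z)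
    have h2 := hp (a⁻¹ z)
    have h3 : a (a⁻¹ z) = z := by simp
    have h4 : μ (a⁻¹ z) = μ z := by
      have h := hμ (a⁻¹ z)
      rw [h3] at h
      exact h.symm
    rw [h3, h4] at h2
    rw [h4] at h1
    have h := R.sub_mem h1 h2
    have e : p ((a ^ (-(n : ℤ))) (a⁻¹ z)) - p z - ((-(n : ℤ) - 1 : ℤ) : ℚ) * μ z =
        p ((a ^ (-(n : ℤ))) (a⁻¹ z)) - p (a⁻¹ z) - ((-(n : ℤ) : ℤ) : ℚ) * μ z -
          (p z - p (a⁻¹ z) - μ z) := by
      push_cast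
      ring
    rw [e]
    exact h

/-- the weighted sum -/
theorem wsum {Z : Type} [Fintype Z] (g : Equiv.Perm Z) (t F : Z → ℚ) (hF : ∀ z, F (g z) = F z) :
    ∑ z, (1 - t (g z) + t z) * F z = ∑ z, F z := by
  have h1 : ∑ z, t (g z) * F z = ∑ z, t z * F z := by
    rw [← Equiv.sum_comp g (fun z => t z * F z)]
    apply Finset.sum_congr rfl
    intro z _
    rw [hF]
  have h2 : ∑ z, (1 - t (g z) + t z) * F z = ∑ z, F z - ∑ z, t (g z) * F z + ∑ z, t z * F z := by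
    rw [← Finset.sum_sub_distrib, ← Finset.sum_add_distrib]
    apply Finset.sum_congr rfl
    intro z _
    ring
  rw [h2, h1]
  ring

/-- the sum of a function which is invariant under `a` and `C` -/
theorem sum_inv {Z : Type} [Fintype Z] (R : Subring ℚ) (a C : Equiv.Perm Z) (hc : a * C = C * a)
    (h : Z → ℚ) (ha : ∀ z, h (a z) = h z) (hC : ∀ z, h (C z) = h z)
    (H : ∀ (z : Z) (n k j : ℤ), (a ^ n) z = z → (C ^ k) z = (a ^ j) z → n * k * h z ∈ R) :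
    ∑ z, h z ∈ R := by
  classical
  obtain ⟨b, t, hb, hba⟩ := bt a
  have hco : ∀ (m n : ℤ) (z : Z), (C ^ m) ((a ^ n) z) = (a ^ n) ((C ^ m) z) := by
    intro m n z
    have h1 : Commute a C := hc
    have h2 := (h1.zpow_zpow n m).eq
    have h3 := congrArg (fun g : Equiv.Perm Z => g z) h2
    simpa using h3.symm
  -- the permutation of the orbits of `a`
  let S := Equiv.Perm.SameCycle.setoid a
  let Cq : Equiv.Perm (Quotient S) := Quotient.congr C (by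
    intro x y
    constructor
    · rintro ⟨i, hi⟩
      refine ⟨i, ?_⟩
      have h1 := hco 1 i x
      rw [zpow_one] at h1
      rw [← h1, hi]
    · rintro ⟨i, hi⟩
      refine ⟨i, ?_⟩
      have h1 := hco 1 i x
      rw [zpow_one] at h1
      rw [← h1] at hi
      exact C.injective hi)
  have hCq : ∀ z, Cq (Quotient.mk S z) = Quotient.mk S (C z) := fun z => rfl
  have hCqz : ∀ (m : ℤ) z, (Cq ^ m) (Quotient.mk S z) = Quotient.mk S ((C ^ m) z) := by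
    intro m
    induction m using Int.induction_on with
    | zero => intro z; simp
    | succ n ih =>
      intro z
      rw [zpow_add, zpow_one, Equiv.Perm.mul_apply, hCq, ih, zpow_add, zpow_one,
        Equiv.Perm.mul_apply]
    | pred n ih =>
      intro z
      have h1 : Cq⁻¹ (Quotient.mk S z) = Quotient.mk S (C⁻¹ z) := by
        rw [Equiv.Perm.inv_eq_iff_eq, hCq]
        simp
      rw [zpow_sub, zpow_one, Equiv.Perm.mul_apply, h1, ih, zpow_sub, zpow_one,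
        Equiv.Perm.mul_apply]
  obtain ⟨b', t', hb', hba'⟩ := bt Cq
  have e1 : ∑ z, h z = ∑ z, (1 - (t' (Quotient.mk S (C z)) : ℚ) + t' (Quotient.mk S z)) * h z :=
    (wsum C (fun z => (t' (Quotient.mk S z) : ℚ)) h hC).symm
  have hmk : ∀ z, Quotient.mk S (a z) = Quotient.mk S z := by
    intro z
    apply Quotient.sound
    have h1 : Equiv.Perm.SameCycle a (a z) z := ⟨-1, by simp⟩
    exact h1
  have hmk2 : ∀ z, Quotient.mk S (C (a z)) = Quotient.mk S (C z) := by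
    intro z
    have h1 := hco 1 1 z
    rw [zpow_one, zpow_one] at h1
    rw [h1]
    exact hmk _
  have e2 := wsum a (fun z => (t z : ℚ))
    (fun z => (1 - (t' (Quotient.mk S (C z)) : ℚ) + t' (Quotient.mk S z)) * h z) (by
      intro z
      simp only [hmk, hmk2, ha])
  rw [e1, ← e2]
  apply Subring.sum_mem
  intro z _
  have h1 : (a ^ (1 - t (a z) + t z)) z = z := by
    have h2 := hb z
    have h3 := hb (a z)
    rw [hba] at h3
    have h4 : (a ^ (1 - t (a z) + t z)) (b z) = b z := by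
      have e : (1 - t (a z) + t z : ℤ) = - t (a z) + (1 + t z) := by ring
      rw [e, zpow_add, zpow_add, zpow_one, Equiv.Perm.mul_apply, Equiv.Perm.mul_apply, h2, zpow_neg,
        Equiv.Perm.inv_eq_iff_eq, h3]
    have h5 : (a ^ (1 - t (a z) + t z)) ((a ^ t z) (b z)) = (a ^ t z) (b z) := by
      rw [← Equiv.Perm.mul_apply, ← zpow_add, add_comm, zpow_add, Equiv.Perm.mul_apply, h4]
    rw [h2] at h5
    exact h5
  have h2 : ∃ j : ℤ, (C ^ (1 - t' (Quotient.mk S (C z)) + t' (Quotient.mk S z))) z = (a ^ j) z := by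
    have g2 := hb' (Quotient.mk S z)
    have g3 := hb' (Cq (Quotient.mk S z))
    rw [hba'] at g3
    have g4 : (Cq ^ (1 - t' (Cq (Quotient.mk S z)) + t' (Quotient.mk S z))) (b' (Quotient.mk S z)) =
        b' (Quotient.mk S z) := by
      have e : (1 - t' (Cq (Quotient.mk S z)) + t' (Quotient.mk S z) : ℤ) =
        - t' (Cq (Quotient.mk S z)) + (1 + t' (Quotient.mk S z)) := by ring
      rw [e, zpow_add, zpow_add, zpow_one, Equiv.Perm.mul_apply, Equiv.Perm.mul_apply, g2, zpow_neg,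
        Equiv.Perm.inv_eq_iff_eq, g3]
    have g5 : (Cq ^ (1 - t' (Cq (Quotient.mk S z)) + t' (Quotient.mk S z)))
        ((Cq ^ t' (Quotient.mk S z)) (b' (Quotient.mk S z))) =
        (Cq ^ t' (Quotient.mk S z)) (b' (Quotient.mk S z)) := by
      rw [← Equiv.Perm.mul_apply, ← zpow_add, add_comm, zpow_add, Equiv.Perm.mul_apply, g4]
    rw [g2, hCqz, hCq] at g5
    have g6 := Quotient.exact g5
    obtain ⟨i, hi⟩ := g6
    refine ⟨-i, ?_⟩
    rw [zpow_neg, Equiv.Perm.eq_inv_iff_eq]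
    exact hi
  obtain ⟨j, hj⟩ := h2
  have h3 := H z _ _ j h1 hj
  have e : ((1 - t (a z) + t z : ℤ) : ℚ) *
      ((1 - t' (Quotient.mk S (C z)) + t' (Quotient.mk S z) : ℤ) : ℚ) * h z =
      (1 - (t (a z) : ℚ) + t z) *
        ((1 - (t' (Quotient.mk S (C z)) : ℚ) + t' (Quotient.mk S z)) * h z) := by
    push_cast
    ring
  rw [e] at h3
  exact h3

/-- an integer exponent can be replaced by a natural one -/
theorem nat_exp {Z : Type} [Finite Z] (a : Equiv.Perm Z) (j : ℤ) : ∃ n : ℕ, a ^ n = a ^ j := by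
  classical
  have h1 : 0 < orderOf a := orderOf_pos a
  refine ⟨(j % (orderOf a : ℤ)).toNat, ?_⟩
  have h2 : 0 ≤ j % (orderOf a : ℤ) := Int.emod_nonneg _ (by positivity)
  rw [← zpow_natCast, Int.toNat_of_nonneg h2, zpow_mod_orderOf]

/-- Row NTM. -/
theorem ntm : NtmStmt := by
  intro R Z _ a C hc p₁ p₂ μ₁ μ₂ k₀ k₁ hμ hk hp hkk
  classical
  have : Fintype Z := Fintype.ofFinite Z
  rw [finsum_eq_sum_of_fintype, finsum_eq_sum_of_fintype]
  obtain ⟨b, t, hb, hba⟩ := bt a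
  have hcz : ∀ (m n : ℤ) (z : Z), (C ^ m) ((a ^ n) z) = (a ^ n) ((C ^ m) z) := by
    intro m n z
    have h1 : Commute a C := hc
    have h2 := (h1.zpow_zpow n m).eq
    have h3 := congrArg (fun g : Equiv.Perm Z => g z) h2
    simpa using h3.symm
  have hca : ∀ z, C (a z) = a (C z) := by
    intro z
    have h := hcz 1 1 z
    simpa using h
  -- the orbit map
  have hbz : ∀ (m : ℤ) z, b ((a ^ m) z) = b z := fun m z => invz a b hba m z
  have hbb : ∀ z, b (b z) = b z := by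
    intro z
    have h := hbz (t z) (b z)
    rw [hb] at h
    exact h.symm
  have hfb : ∀ (f : Z → ℚ), (∀ z, f (a z) = f z) → ∀ z, f (b z) = f z := by
    intro f hf z
    have h := invz a f hf (t z) (b z)
    rw [hb] at h
    exact h.symm
  have hkb : ∀ (f : Z → ℕ), (∀ z, f (a z) = f z) → ∀ z, f (b z) = f z := by
    intro f hf z
    have h := invz a f hf (t z) (b z)
    rw [hb] at h
    exact h.symm
  -- the difference `d`
  let d : Z → ℤ := fun z => t (C (b z))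
  have hbC : ∀ z, b (C (b z)) = b (C z) := by
    intro z
    have h1 := hcz 1 (t z) (b z)
    rw [zpow_one, hb] at h1
    rw [h1, hbz]
  have hd : ∀ z, (a ^ d z) (b (C z)) = C (b z) := by
    intro z
    have h := hb (C (b z))
    rw [hbC] at h
    exact h
  have hda : ∀ z, d (a z) = d z := by
    intro z
    simp only [d, hba]
  -- the weight
  let w : Z → ℤ := fun z => 1 - t (a z) + t z
  have hw : ∀ z, (a ^ w z) z = z := by
    intro z
    have h2 := hb z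
    have h3 := hb (a z)
    rw [hba] at h3
    have h4 : (a ^ w z) (b z) = b z := by
      have e : w z = - t (a z) + (1 + t z) := by simp only [w]; ring
      rw [e, zpow_add, zpow_add, zpow_one, Equiv.Perm.mul_apply, Equiv.Perm.mul_apply, h2, zpow_neg,
        Equiv.Perm.inv_eq_iff_eq, h3]
    have h5 : (a ^ w z) ((a ^ t z) (b z)) = (a ^ t z) (b z) := by
      rw [← Equiv.Perm.mul_apply, ← zpow_add, add_comm, zpow_add, Equiv.Perm.mul_apply, h4]
    rw [h2] at h5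
    exact h5
  have hfix1 : ∀ (m : ℤ) z, (a ^ m) z = z → m * μ₁ z ∈ R := by
    intro m z h
    have h1 := pz R a p₁ μ₁ (fun z => (hμ z).1) (fun z => (hp z).1) m z
    rw [h] at h1
    have h2 := R.neg_mem h1
    have e : -(p₁ z - p₁ z - m * μ₁ z) = m * μ₁ z := by ring
    rwa [e] at h2
  have hfix2 : ∀ (m : ℤ) z, (a ^ m) z = z → m * μ₂ z ∈ R := by
    intro m z h
    have h1 := pz R a p₂ μ₂ (fun z => (hμ z).2.2.1) (fun z => (hp z).2) m z
    rw [h] at h1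
    have h2 := R.neg_mem h1
    have e : -(p₂ z - p₂ z - m * μ₂ z) = m * μ₂ z := by ring
    rwa [e] at h2
  -- `n₁ = p₁ ∘ C - p₁`
  let n₁ : Z → ℚ := fun z => p₁ (C z) - p₁ z
  have hn : ∀ z, n₁ (a z) - n₁ z ∈ R := by
    intro z
    have h1 := (hp (C z)).1
    have h2 := (hp z).1
    rw [(hμ z).2.1] at h1
    have h := R.sub_mem h1 h2
    have e : n₁ (a z) - n₁ z = p₁ (a (C z)) - p₁ (C z) - μ₁ z - (p₁ (a z) - p₁ z - μ₁ z) := by
      simp only [n₁, hca]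
      ring
    rw [e]
    exact h
  have hnb : ∀ z, n₁ z - n₁ (b z) ∈ R := by
    intro z
    have h := pz R a n₁ (fun _ => 0) (fun _ => rfl) (fun z => by
      rw [sub_zero]
      exact hn z) (t z) (b z)
    rw [hb] at h
    simpa using h
  -- step 1
  have s1 : ∑ z, ((p₁ (a (C z)) - p₁ (C z)) - (p₁ (a z) - p₁ z)) * p₂ (a z) -
      ∑ z, (n₁ (a z) - n₁ z) * (t (a z) * μ₂ z + p₂ (b z)) ∈ R := by
    rw [← Finset.sum_sub_distrib]
    apply Subring.sum_mem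
    intro z _
    have h1 := pz R a p₂ μ₂ (fun z => (hμ z).2.2.1) (fun z => (hp z).2) (t (a z)) (b (a z))
    rw [hb, hba, hfb μ₂ (fun z => (hμ z).2.2.1)] at h1
    have h2 := R.mul_mem (hn z) h1
    have e : ((p₁ (a (C z)) - p₁ (C z)) - (p₁ (a z) - p₁ z)) * p₂ (a z) -
        (n₁ (a z) - n₁ z) * (t (a z) * μ₂ z + p₂ (b z)) =
        (n₁ (a z) - n₁ z) * (p₂ (a z) - p₂ (b z) - t (a z) * μ₂ z) := by
      simp only [n₁, hca]
      ring
    rw [e]
    exact h2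
  -- step 2
  have s2 : ∑ z, (n₁ (a z) - n₁ z) * (t (a z) * μ₂ z + p₂ (b z)) =
      ∑ z, n₁ z * (w z * μ₂ z) := by
    have e1 : ∑ z, n₁ (a z) * (t (a z) * μ₂ z + p₂ (b z)) =
        ∑ z, n₁ z * (t z * μ₂ z + p₂ (b z)) := by
      rw [← Equiv.sum_comp a (fun z => n₁ z * (t z * μ₂ z + p₂ (b z)))]
      apply Finset.sum_congr rfl
      intro z _
      rw [hba, (hμ z).2.2.1]
    have e2 : ∑ z, n₁ z * μ₂ z = 0 := by
      have e3 : ∑ z, p₁ (C z) * μ₂ z = ∑ z, p₁ z * μ₂ z := by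
        rw [← Equiv.sum_comp C (fun z => p₁ z * μ₂ z)]
        apply Finset.sum_congr rfl
        intro z _
        rw [(hμ z).2.2.2]
      have e4 : ∑ z, n₁ z * μ₂ z = ∑ z, p₁ (C z) * μ₂ z - ∑ z, p₁ z * μ₂ z := by
        rw [← Finset.sum_sub_distrib]
        apply Finset.sum_congr rfl
        intro z _
        simp only [n₁]
        ring
      rw [e4, e3]
      ring
    have e5 : ∑ z, (n₁ (a z) - n₁ z) * (t (a z) * μ₂ z + p₂ (b z)) =
        ∑ z, n₁ (a z) * (t (a z) * μ₂ z + p₂ (b z)) -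
        ∑ z, n₁ z * (t (a z) * μ₂ z + p₂ (b z)) := by
      rw [← Finset.sum_sub_distrib]
      apply Finset.sum_congr rfl
      intro z _
      ring
    rw [e5, e1, ← Finset.sum_sub_distrib, ← add_zero (∑ z, n₁ z * (w z * μ₂ z)), ← neg_zero, ← e2,
      ← Finset.sum_neg_distrib, ← Finset.sum_add_distrib]
    apply Finset.sum_congr rfl
    intro z _
    simp only [w]
    push_cast
    ring
  -- step 3
  have s3 : ∑ z, n₁ z * (w z * μ₂ z) -
      ∑ z, (p₁ (b (C z)) + d z * μ₁ z - p₁ (b z)) * (w z * μ₂ z) ∈ R := by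
    rw [← Finset.sum_sub_distrib]
    apply Subring.sum_mem
    intro z _
    have h1 := pz R a p₁ μ₁ (fun z => (hμ z).1) (fun z => (hp z).1) (d z) (b (C z))
    rw [hd, hfb μ₁ (fun z => (hμ z).1), (hμ z).2.1] at h1
    have h2 := R.mul_mem (R.add_mem (hnb z) h1) (hfix2 (w z) z (hw z))
    have e : n₁ z * (w z * μ₂ z) - (p₁ (b (C z)) + d z * μ₁ z - p₁ (b z)) * (w z * μ₂ z) =
        (n₁ z - n₁ (b z) + (p₁ (C (b z)) - p₁ (b (C z)) - d z * μ₁ z)) * (w z * μ₂ z) := by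
      simp only [n₁]
      ring
    rw [e]
    exact h2
  -- step 4
  have s4 : ∑ z, (p₁ (b (C z)) + d z * μ₁ z - p₁ (b z)) * (w z * μ₂ z) =
      ∑ z, d z * (μ₁ z * μ₂ z) := by
    have e1 := wsum a (fun z => (t z : ℚ))
      (fun z => (p₁ (b (C z)) + d z * μ₁ z - p₁ (b z)) * μ₂ z) (by
        intro z
        simp only [hba, hda, (hμ z).1, (hμ z).2.2.1, hca])
    have e2 : ∑ z, (p₁ (b (C z)) + d z * μ₁ z - p₁ (b z)) * (w z * μ₂ z) =
        ∑ z, (1 - (t (a z) : ℚ) + t z) * ((p₁ (b (C z)) + d z * μ₁ z - p₁ (b z)) * μ₂ z) := by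
      apply Finset.sum_congr rfl
      intro z _
      simp only [w]
      push_cast
      ring
    have e3 : ∑ z, p₁ (b (C z)) * μ₂ z = ∑ z, p₁ (b z) * μ₂ z := by
      rw [← Equiv.sum_comp C (fun z => p₁ (b z) * μ₂ z)]
      apply Finset.sum_congr rfl
      intro z _
      rw [(hμ z).2.2.2]
    have e4 : ∑ z, (p₁ (b (C z)) + d z * μ₁ z - p₁ (b z)) * μ₂ z =
        ∑ z, p₁ (b (C z)) * μ₂ z + ∑ z, d z * (μ₁ z * μ₂ z) - ∑ z, p₁ (b z) * μ₂ z := by
      rw [← Finset.sum_add_distrib, ← Finset.sum_sub_distrib]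
      apply Finset.sum_congr rfl
      intro z _
      ring
    rw [e2, e1, e4, e3]
    ring
  -- the second half
  let D : Z → ℤ := fun z => ∑ s ∈ Finset.range (k₀ z), d ((C ^ s) z)
  have hD : ∀ (m : ℕ) z, (C ^ m) (b z) =
      (a ^ (∑ s ∈ Finset.range m, d ((C ^ s) z))) (b ((C ^ m) z)) := by
    intro m
    induction m with
    | zero => intro z; simp
    | succ m ih =>
      intro z
      rw [pow_succ', Equiv.Perm.mul_apply, ih, Finset.sum_range_succ, Equiv.Perm.mul_apply]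
      have h1 := hcz 1 (∑ s ∈ Finset.range m, d ((C ^ s) z)) (b ((C ^ m) z))
      rw [zpow_one] at h1
      rw [h1, ← hd, zpow_add, Equiv.Perm.mul_apply]
  let e : Z → ℤ := fun z => k₁ z - D z
  have heb : ∀ z, (a ^ e z) (b z) = b z := by
    intro z
    have h1 := hD (k₀ z) z
    have h2 := (hkk (b z)).2.1
    rw [hkb k₀ (fun z => (hk z).1), hkb k₁ (fun z => (hk z).2.2.1)] at h2
    have h3 : b ((C ^ k₀ z) z) = b z := by
      rw [(hkk z).2.1]
      have h := hbz (k₁ z : ℤ) z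
      rw [zpow_natCast] at h
      exact h
    rw [h3] at h1
    rw [h1] at h2
    have h4 : (a ^ (k₁ z : ℤ)) (b z) = (a ^ D z) (b z) := by
      rw [zpow_natCast]
      exact h2.symm
    have e1 : e z = - D z + (k₁ z : ℤ) := by simp only [e]; ring
    rw [e1, zpow_add, Equiv.Perm.mul_apply, h4, zpow_neg, Equiv.Perm.inv_eq_iff_eq]
  have hez : ∀ z, (a ^ e z) z = z := by
    intro z
    have h5 : (a ^ e z) ((a ^ t z) (b z)) = (a ^ t z) (b z) := by
      rw [← Equiv.Perm.mul_apply, ← zpow_add, add_comm, zpow_add, Equiv.Perm.mul_apply, heb]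
    rw [hb] at h5
    exact h5
  have hCs : ∀ (s : ℕ) z, (C ^ s) (a z) = a ((C ^ s) z) := by
    intro s z
    have h := hcz s 1 z
    simpa using h
  have hDa : ∀ z, D (a z) = D z := by
    intro z
    simp only [D, (hk z).1, hCs, hda]
  have hDC : ∀ z, D (C z) = D z := by
    intro z
    simp only [D, (hk z).2.1]
    have h1 : ∀ s, (C ^ s) (C z) = (C ^ (s + 1)) z := by
      intro s
      rw [pow_succ, Equiv.Perm.mul_apply]
    simp only [h1]
    have h2 := Finset.sum_range_succ (fun s => d ((C ^ s) z)) (k₀ z)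
    have h3 := Finset.sum_range_succ' (fun s => d ((C ^ s) z)) (k₀ z)
    have h4 : d ((C ^ k₀ z) z) = d z := by
      rw [(hkk z).2.1]
      have h := invz a d hda (k₁ z : ℤ) z
      rw [zpow_natCast] at h
      exact h
    simp only [h4] at h2
    simp only [pow_zero, Equiv.Perm.coe_one, id_eq] at h3
    rw [h2] at h3
    exact (add_right_cancel h3).symm
  -- the sum of `D`
  have s5 : ∑ z, (D z : ℚ) * (μ₁ z * μ₂ z / k₀ z) = ∑ z, d z * (μ₁ z * μ₂ z) := by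
    let K : ℕ := ∑ z, k₀ z
    have hK : ∀ z, k₀ z ≤ K := fun z => Finset.single_le_sum (fun _ _ => Nat.zero_le _)
      (Finset.mem_univ z)
    have e1 : ∀ (f : Z → ℕ → ℚ) z, ∑ s ∈ Finset.range (k₀ z), f z s =
        ∑ s ∈ Finset.range K, if s < k₀ z then f z s else 0 := by
      intro f z
      rw [← Finset.sum_filter]
      apply Finset.sum_congr _ (fun _ _ => rfl)
      ext s
      simp only [Finset.mem_range, Finset.mem_filter]
      constructor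
      · intro h
        exact ⟨lt_of_lt_of_le h (hK z), h⟩
      · intro h
        exact h.2
    have e2 : ∀ z, (D z : ℚ) * (μ₁ z * μ₂ z / k₀ z) = ∑ s ∈ Finset.range K,
        if s < k₀ z then (d ((C ^ s) z) : ℚ) * (μ₁ z * μ₂ z / k₀ z) else 0 := by
      intro z
      rw [← e1 (fun z s => (d ((C ^ s) z) : ℚ) * (μ₁ z * μ₂ z / k₀ z)) z]
      simp only [D]
      push_cast
      rw [Finset.sum_mul]
    have e3 : ∀ z, d z * (μ₁ z * μ₂ z) = ∑ s ∈ Finset.range K,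
        if s < k₀ z then (d z : ℚ) * (μ₁ z * μ₂ z / k₀ z) else 0 := by
      intro z
      rw [← e1 (fun z _ => (d z : ℚ) * (μ₁ z * μ₂ z / k₀ z)) z]
      rw [Finset.sum_const, Finset.card_range, nsmul_eq_mul]
      have h0 : (k₀ z : ℚ) ≠ 0 := by
        have := (hkk z).1
        positivity
      field_simp
    simp only [e2, e3]
    rw [Finset.sum_comm]
    conv_rhs => rw [Finset.sum_comm]
    apply Finset.sum_congr rfl
    intro s _
    rw [← Equiv.sum_comp (C ^ s) (fun z =>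
      if s < k₀ z then (d z : ℚ) * (μ₁ z * μ₂ z / k₀ z) else 0)]
    apply Finset.sum_congr rfl
    intro z _
    have g1 : k₀ ((C ^ s) z) = k₀ z := by
      have h := invz C k₀ (fun z => (hk z).2.1) (s : ℤ) z
      rw [zpow_natCast] at h
      exact h
    have g2 : μ₁ ((C ^ s) z) = μ₁ z := by
      have h := invz C μ₁ (fun z => (hμ z).2.1) (s : ℤ) z
      rw [zpow_natCast] at h
      exact h
    have g3 : μ₂ ((C ^ s) z) = μ₂ z := by
      have h := invz C μ₂ (fun z => (hμ z).2.2.2) (s : ℤ) z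
      rw [zpow_natCast] at h
      exact h
    rw [g1, g2, g3]
  -- the sum of `e`
  have s6 : ∑ z, (e z : ℚ) * (μ₁ z * μ₂ z / k₀ z) ∈ R := by
    apply sum_inv R a C hc (fun z => (e z : ℚ) * (μ₁ z * μ₂ z / k₀ z))
    · intro z
      simp only [e, hDa, (hk z).1, (hk z).2.2.1, (hμ z).1, (hμ z).2.2.1]
    · intro z
      simp only [e, hDC, (hk z).2.1, (hk z).2.2.2, (hμ z).2.1, (hμ z).2.2.2]
    · intro z n k j hn1 hkj
      have h1 := hfix1 n z hn1
      have h2 := hfix2 (e z) z (hez z)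
      have h3 : (k : ℚ) / k₀ z ∈ R := by
        have key : ∀ (k : ℕ) (j : ℤ), (C ^ (k : ℤ)) z = (a ^ j) z → (k : ℚ) / k₀ z ∈ R := by
          intro k j h
          obtain ⟨n, hn2⟩ := nat_exp a j
          rw [zpow_natCast, ← hn2] at h
          exact (hkk z).2.2 k n h
        rcases Int.eq_nat_or_neg k with ⟨m, rfl | rfl⟩
        · have := key m j hkj
          simpa using this
        · have h4 : (C ^ (m : ℤ)) z = (a ^ (-j)) z := by
            rw [zpow_neg, Equiv.Perm.inv_eq_iff_eq, hcz] at hkj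
            rw [zpow_neg, Equiv.Perm.eq_inv_iff_eq]
            exact hkj.symm
          have := R.neg_mem (key m (-j) h4)
          have e1 : (((-(m : ℤ) : ℤ) : ℚ)) / k₀ z = -((m : ℚ) / k₀ z) := by
            push_cast
            ring
          rw [e1]
          exact this
      have h4 := R.mul_mem (R.mul_mem h1 h2) h3
      have e1 : (n : ℚ) * k * ((e z : ℚ) * (μ₁ z * μ₂ z / k₀ z)) =
          n * μ₁ z * (e z * μ₂ z) * (k / k₀ z) := by ring
      rw [e1]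
      exact h4
  have s7 : ∑ z, (k₁ z : ℚ) / k₀ z * μ₁ z * μ₂ z = ∑ z, d z * (μ₁ z * μ₂ z) +
      ∑ z, (e z : ℚ) * (μ₁ z * μ₂ z / k₀ z) := by
    rw [← s5, ← Finset.sum_add_distrib]
    apply Finset.sum_congr rfl
    intro z _
    simp only [e]
    push_cast
    ring
  rw [s7]
  rw [s2] at s1
  rw [s4] at s3
  have hfin := R.sub_mem (R.add_mem s1 s3) s6
  have e0 : ∑ z, ((p₁ (a (C z)) - p₁ (C z)) - (p₁ (a z) - p₁ z)) * p₂ (a z) -
      (∑ z, d z * (μ₁ z * μ₂ z) + ∑ z, (e z : ℚ) * (μ₁ z * μ₂ z / k₀ z)) =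
      ∑ z, ((p₁ (a (C z)) - p₁ (C z)) - (p₁ (a z) - p₁ z)) * p₂ (a z) -
      ∑ z, n₁ z * (w z * μ₂ z) + (∑ z, n₁ z * (w z * μ₂ z) - ∑ z, d z * (μ₁ z * μ₂ z)) -
      ∑ z, (e z : ℚ) * (μ₁ z * μ₂ z / k₀ z) := by ring
  rw [e0]
  exact hfin

end Pool.Agent.PP.SO.H10
end
end -- Pool.Agent.Helper10_ASO.NTM

section -- Pool.Agent.Helper35_ASO.CNG

/-!
# Squad ASO, row CNG: integrality of the weights of the frames
-/

open scoped BigOperators

noncomputable section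

namespace Pool.Agent.PP.SO.H35

open Pool.Agent.Helper51_AWC Pool.Agent.Helper79_WRA Pool.Agent.PP Pool.Agent.PP.KF
open Pool.Agent.PP.K9 Pool.Agent.PP.K9.H97 Pool.Agent.PP.H75 Pool.Agent.PP.T3 Pool.Agent.PP.SO

attribute [local instance] Ideal.Quotient.field

/-- the dual character -/
theorem irr_inv {H : Type} [Group H] [Finite H] {χ : H → ℂ} (hχ : χ ∈ Irr H) :
    (fun h => χ h⁻¹) ∈ Irr H := by
  classical
  have := Fintype.ofFinite H
  obtain ⟨n, r, r1, r2, r3⟩ := irr_coeff hχ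
  refine mem_Irr_of_coeff (fun g a b => r g⁻¹ b a) ?_ ?_ _ (fun g => r3 g⁻¹) ?_
  · intro a b
    rw [inv_one, r1]
    by_cases h : a = b
    · rw [if_pos h, if_pos h.symm]
    · rw [if_neg h, if_neg (Ne.symm h)]
  · intro g h a b
    rw [mul_inv_rev, r2]
    exact Finset.sum_congr rfl fun c _ => mul_comm _ _
  · simp only [inv_inv]
    rw [← irr_orth_self hχ]
    exact Finset.sum_congr rfl fun g _ => mul_comm _ _

theorem sum_supp {G : Type} [Group G] [Fintype G] (H : Subgroup G) [Fintype H] (φ : G → ℂ)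
    (h : ∀ x, x ∉ H → φ x = 0) : ∑ x, φ x = ∑ x : H, φ x := by
  classical
  rw [← Finset.sum_subtype (Finset.univ.filter fun x => x ∈ H) (fun x => by simp) φ]
  symm
  apply Finset.sum_filter_of_ne
  intro x _ hx
  by_contra h1
  exact hx (h x h1)

theorem card_cu {G : Type} [Group G] (H : Subgroup G) (s : G) (hs : s ∈ H) :
    Nat.card (Cu (⟨s, hs⟩ : H)) = Nat.card (H ⊓ Cu s : Subgroup G) := by
  refine Nat.card_congr
    { toFun := fun z => ⟨z.1.1, z.1.2, ?_⟩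
      invFun := fun z => ⟨⟨z.1, z.2.1⟩, ?_⟩
      left_inv := fun z => rfl
      right_inv := fun z => rfl }
  · have h1 := Subgroup.mem_centralizer_singleton_iff.1 z.2
    exact Subgroup.mem_centralizer_singleton_iff.2 (congrArg Subtype.val h1)
  · have h1 := Subgroup.mem_centralizer_singleton_iff.1 z.2.2
    exact Subgroup.mem_centralizer_singleton_iff.2 (Subtype.ext h1)

section bk

variable {V₀ G : Type} [CommGroup V₀] [Group G] {M : Ideal (integralClosure ℤ ℂ)} [M.IsMaximal]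

theorem bh_mem (B : Bk (FF M) V₀ G) (W : Subgroup V₀) (t : B.C W) :
    bh B W t = eh M (fun t : B.C W => B.b W t) t := by
  unfold bh
  rw [ext0, dif_pos t.2]

theorem bh_off (B : Bk (FF M) V₀ G) (W : Subgroup V₀) {g : G} (hg : g ∉ B.C W) :
    bh B W g = 0 := by
  unfold bh
  rw [ext0, dif_neg hg]

theorem bh_sing {ℓ : ℕ} [Fact ℓ.Prime] (hM : (ℓ : integralClosure ℤ ℂ) ∈ M) [Finite G]
    {E₀ : Subgroup (MulAut V₀)} {B : Bk (FF M) V₀ G} (hB : Sb ℓ M E₀ B) (W : Subgroup V₀) {g : G}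
    (hg : ¬ Reg ℓ g) : bh B W g = 0 := by
  by_cases h : g ∈ B.C W
  · have := Fintype.ofFinite (B.C W)
    have h1 := bh_mem B W ⟨g, h⟩
    rw [show ((⟨g, h⟩ : B.C W) : G) = g from rfl] at h1
    rw [h1]
    have hid : IsIdem (fun t : B.C W => B.b W t) := (hB.lb W).blk.blk.1
    refine K9.H25.eh_sing wbo_ ℓ M hM _ hid _ ?_
    intro h2
    apply hg
    unfold Reg at h2 ⊢
    rwa [← Subgroup.orderOf_coe] at h2
  · exact bh_off B W h

theorem bh_cl [Finite G] (B : Bk (FF M) V₀ G) (W : Subgroup V₀) (x y : B.C W) :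
    bh B W ((y * x * y⁻¹ : B.C W) : G) = bh B W x := by
  have := Fintype.ofFinite (B.C W)
  rw [bh_mem, bh_mem, K9.H25.eh_cl]

open Classical in
theorem bh_chv [Fintype G] (B : Bk (FF M) V₀ G) (W : Subgroup V₀) [Fintype (B.C W)] {ψ : B.C W → ℂ}
    (hψ : ψ ∈ Irr (B.C W)) :
    ∑ t : B.C W, bh B W t * ψ t = if ψ ∈ IrrE M (fun t : B.C W => B.b W t) then ψ 1 else 0 := by
  rw [← K9.H25.eh_chv M _ hψ]
  exact Finset.sum_congr rfl fun t _ => by rw [bh_mem]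

theorem C_anti (B : Bk (FF M) V₀ G) {W W' : Subgroup V₀} (h : W ≤ W') : B.C W' ≤ B.C W := by
  unfold Bk.C
  exact Subgroup.centralizer_le (SetLike.coe_subset_coe.2 (Subgroup.map_mono h))

theorem irr_cast {X Y : Subgroup G} (h : X = Y) (Ψ : G → ℂ) (hΨ : (fun t : X => Ψ t) ∈ Irr X) :
    (fun t : Y => Ψ t) ∈ Irr Y := by
  subst h
  exact hΨ

end bk

theorem rat_RM {ℓ : ℕ} [Fact ℓ.Prime] {M : Ideal (integralClosure ℤ ℂ)} [M.IsMaximal]
    (hM : (ℓ : integralClosure ℤ ℂ) ∈ M) {q : ℚ} (hq : q ∈ SOR.Rl ℓ) : ((q : ℚ) : ℂ) ∈ RM M := by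
  have h1 : ¬ ℓ ∣ q.den := hq
  have h2 := inv_nat_RM (M := M) (Fact.out : ℓ.Prime) hM h1
  have h3 : ((q : ℚ) : ℂ) = (q.num : ℂ) * ((q.den : ℕ) : ℂ)⁻¹ := by
    rw [← div_eq_mul_inv]
    exact_mod_cast (Rat.num_div_den q).symm
  rw [h3]
  exact (RM M).mul_mem (intCast_mem _ _) h2

theorem cng (prj : PrjStmt) (nsv : NsvStmt) (dgv : DgvStmt) : CngStmt := by
  classical
  intro ℓ hℓ M _ hM h2 V₀ G _ _ _ _ E₀ hFr B hB c hc f s hs
  have hFG := Fintype.ofFinite G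
  have hp : ℓ.Prime := Fact.out
  have htop : (⊤ : Subgroup V₀) ≠ ⊥ := by
    intro h
    have h1 : Nat.card (⊤ : Subgroup V₀) = 1 := by rw [h, Subgroup.card_bot]
    rw [Subgroup.card_top, hFr.cd] at h1
    have h3 := hp.two_le
    nlinarith
  have hFT : Fintype (B.C ⊤) := Fintype.ofFinite _
  have hcT : (Nat.card (B.C ⊤) : ℂ) ≠ 0 := by exact_mod_cast Nat.card_pos.ne'
  cases f with
  | true =>
    have hfr : frm c true = (⊤ : Subgroup V₀) := rfl
    rw [hfr] at hs ⊢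
    have hw : wt B c true s = (Nat.card (B.C ⊤) : ℂ)⁻¹ * bh B ⊤ s := by
      unfold wt
      rw [if_pos rfl]
    rw [hw, ← mul_assoc (Nat.card (B.C ⊤) : ℂ), mul_inv_cancel₀ hcT, one_mul, Subgroup.card_top,
      hFr.cd, ← card_cu (B.C ⊤) s hs]
    have key := prj ℓ M hM (B.C ⊤) (fun t => ((ℓ ^ 2 : ℕ) : ℂ) * bh B ⊤ t) ?_ ?_ ?_ ⟨s, hs⟩
    · exact key
    · intro x y
      change ((ℓ ^ 2 : ℕ) : ℂ) * bh B ⊤ ((y * x * y⁻¹ : B.C ⊤) : G) = _
      rw [bh_cl]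
    · intro x hx
      change ((ℓ ^ 2 : ℕ) : ℂ) * bh B ⊤ x = 0
      rw [bh_sing hM hB.toSb ⊤, mul_zero]
      intro h1
      apply hx
      unfold Reg at h1 ⊢
      rwa [← Subgroup.orderOf_coe]
    · intro χ hχ
      rw [finsum_eq_sum_of_fintype]
      have h3 : ∑ t : B.C ⊤, ((ℓ ^ 2 : ℕ) : ℂ) * bh B ⊤ t * χ t⁻¹ = ((ℓ ^ 2 : ℕ) : ℂ) *
          if (fun t => χ t⁻¹) ∈ IrrE M (fun t : B.C ⊤ => B.b ⊤ t) then (fun t => χ t⁻¹) 1 else 0 := by
        rw [← bh_chv B ⊤ (irr_inv hχ), Finset.mul_sum]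
        exact Finset.sum_congr rfl fun t _ => by ring
      rw [h3]
      by_cases h4 : (fun t => χ t⁻¹) ∈ IrrE M (fun t : B.C ⊤ => B.b ⊤ t)
      · have h7 : (fun t : B.C ⊤ => χ t⁻¹) 1 = (B.D ⊤ : ℂ) := (hB.dg ⊤ htop).2 _ h4
        rw [if_pos h4, h7]
        have h5 := (dgv ℓ M hM V₀ G E₀ hFr B hB ⊤ htop).1
        have h6 : (Nat.card (B.C ⊤) : ℂ)⁻¹ * (((ℓ ^ 2 : ℕ) : ℂ) * (B.D ⊤ : ℂ)) =
            (ℓ ^ 2 * B.D ⊤ / Nat.card (B.C ⊤) : ℂ) := by
          push_cast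
          field_simp
        rw [h6]
        exact h5
      · rw [if_neg h4, mul_zero, mul_zero]
        exact (RM M).zero_mem
  | false =>
    obtain ⟨W, hW⟩ : ∃ W, W = Subgroup.zpowers c := ⟨_, rfl⟩
    have hfr : frm c false = W := by rw [hW]; rfl
    rw [hfr] at hs ⊢
    have hWb : W ≠ ⊥ := by
      rw [hW, Ne, Subgroup.zpowers_eq_bot]
      exact hc
    have hWc : Nat.card W = ℓ := by
      rw [hW, Nat.card_zpowers]
      exact orderOf_eq_prime (hFr.ex c) hc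
    have hFW : Fintype (B.C W) := Fintype.ofFinite _
    have hcW : (Nat.card (B.C W) : ℂ) ≠ 0 := by exact_mod_cast Nat.card_pos.ne'
    have hTW : B.C ⊤ ≤ B.C W := C_anti B le_top
    have hw : wt B c false s = (Nat.card (B.C W) : ℂ)⁻¹ * (bh B W s -
        (Nat.card (B.C ⊤) : ℂ)⁻¹ * ∑ᶠ z : B.C W, bh B ⊤ ((z : G)⁻¹ * s * z)) := by
      unfold wt
      rw [if_neg (by simp), hW]
    rw [hw, ← mul_assoc (Nat.card (B.C W) : ℂ), mul_inv_cancel₀ hcW, one_mul, hWc,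
      ← card_cu (B.C W) s hs]
    have key := prj ℓ M hM (B.C W) (fun t => (ℓ : ℂ) * (bh B W t -
      (Nat.card (B.C ⊤) : ℂ)⁻¹ * ∑ᶠ z : B.C W, bh B ⊤ ((z : G)⁻¹ * t * z))) ?_ ?_ ?_ ⟨s, hs⟩
    · exact key
    · intro x y
      change (ℓ : ℂ) * (bh B W ((y * x * y⁻¹ : B.C W) : G) - (Nat.card (B.C ⊤) : ℂ)⁻¹ *
        ∑ᶠ z : B.C W, bh B ⊤ ((z : G)⁻¹ * ((y * x * y⁻¹ : B.C W) : G) * z)) =
        (ℓ : ℂ) * (bh B W x - (Nat.card (B.C ⊤) : ℂ)⁻¹ *
        ∑ᶠ z : B.C W, bh B ⊤ ((z : G)⁻¹ * x * z))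
      rw [bh_cl]
      congr 3
      rw [finsum_eq_sum_of_fintype, finsum_eq_sum_of_fintype,
        ← Equiv.sum_comp (Equiv.mulLeft y)
          (fun z : B.C W => bh B ⊤ ((z : G)⁻¹ * ((y * x * y⁻¹ : B.C W) : G) * z))]
      refine Finset.sum_congr rfl fun z _ => ?_
      congr 1
      rw [Equiv.coe_mulLeft]
      push_cast
      group
    · intro x hx
      have hx' : ¬ Reg ℓ (x : G) := by
        intro h1
        apply hx
        unfold Reg at h1 ⊢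
        rwa [← Subgroup.orderOf_coe]
      change (ℓ : ℂ) * (bh B W x - (Nat.card (B.C ⊤) : ℂ)⁻¹ *
        ∑ᶠ z : B.C W, bh B ⊤ ((z : G)⁻¹ * x * z)) = 0
      have h3 : ∀ z : B.C W, bh B ⊤ ((z : G)⁻¹ * x * z) = 0 := by
        intro z
        apply bh_sing hM hB.toSb
        intro h4
        apply hx'
        unfold Reg at h4 ⊢
        have h5 : orderOf ((z : G)⁻¹ * x * z) = orderOf (x : G) := by
          have h6 := MulEquiv.orderOf_eq (MulAut.conj ((z : G)⁻¹)) (x : G)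
          rwa [MulAut.conj_apply, inv_inv] at h6
        rwa [h5] at h4
      rw [bh_sing hM hB.toSb W hx']
      simp only [h3]
      rw [finsum_zero, mul_zero, sub_zero, mul_zero]
    · intro χ hχ
      obtain ⟨ψ, hψdef⟩ : ∃ ψ : B.C W → ℂ, ψ = fun h => χ h⁻¹ := ⟨_, rfl⟩
      have hψ : ψ ∈ Irr (B.C W) := by rw [hψdef]; exact irr_inv hχ
      obtain ⟨Ψ, hΨdef⟩ : ∃ Ψ : G → ℂ, Ψ = PP.ext0 (B.C W) ψ := ⟨_, rfl⟩
      have hΨ0 : ∀ x, x ∉ B.C W → Ψ x = 0 := by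
        intro x hx
        rw [hΨdef, PP.ext0, dif_neg hx]
      have hΨ1 : ∀ t : B.C W, Ψ t = ψ t := by
        intro t
        rw [hΨdef, PP.ext0, dif_pos t.2]
      have hΨ2 : (fun t : B.C W => Ψ t) = ψ := funext hΨ1
      have hΨi : (fun t : B.C W => Ψ t) ∈ Irr (B.C W) := by rw [hΨ2]; exact hψ
      -- the two sums
      obtain ⟨S2, hS2⟩ : ∃ S2 : ℂ, S2 = ∑ᶠ s, bh B ⊤ s * Ψ s := ⟨_, rfl⟩
      have hS2' : S2 = ∑ t : B.C W, bh B ⊤ t * ψ t := by
        rw [hS2, finsum_eq_sum_of_fintype, sum_supp (B.C W)]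
        · exact Finset.sum_congr rfl fun t _ => by rw [hΨ1]
        · intro x hx
          rw [hΨ0 x hx, mul_zero]
      have hsum : (Nat.card (B.C W) : ℂ)⁻¹ * ∑ᶠ h : B.C W, (fun t : B.C W => (ℓ : ℂ) *
          (bh B W t - (Nat.card (B.C ⊤) : ℂ)⁻¹ * ∑ᶠ z : B.C W, bh B ⊤ ((z : G)⁻¹ * t * z))) h *
            χ h⁻¹ = (Nat.card (B.C W) : ℂ)⁻¹ * ((ℓ : ℂ) *
          ((if ψ ∈ IrrE M (fun t : B.C W => B.b W t) then ψ 1 else 0) -
            (Nat.card (B.C ⊤) : ℂ)⁻¹ * (Nat.card (B.C W) * S2))) := by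
        congr 1
        rw [finsum_eq_sum_of_fintype, ← bh_chv B W hψ]
        have e1 : ∀ h : B.C W, (fun t : B.C W => (ℓ : ℂ) *
          (bh B W t - (Nat.card (B.C ⊤) : ℂ)⁻¹ * ∑ᶠ z : B.C W, bh B ⊤ ((z : G)⁻¹ * t * z))) h *
            χ h⁻¹ = (ℓ : ℂ) * (bh B W h * ψ h) - (ℓ : ℂ) * ((Nat.card (B.C ⊤) : ℂ)⁻¹ *
              ∑ z : B.C W, bh B ⊤ ((z : G)⁻¹ * h * z) * ψ h) := by
          intro h
          rw [hψdef]
          change (ℓ : ℂ) * (bh B W h - (Nat.card (B.C ⊤) : ℂ)⁻¹ *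
            ∑ᶠ z : B.C W, bh B ⊤ ((z : G)⁻¹ * h * z)) * χ h⁻¹ =
            (ℓ : ℂ) * (bh B W h * χ h⁻¹) - (ℓ : ℂ) * ((Nat.card (B.C ⊤) : ℂ)⁻¹ *
              ∑ z : B.C W, bh B ⊤ ((z : G)⁻¹ * h * z) * χ h⁻¹)
          rw [finsum_eq_sum_of_fintype, ← Finset.sum_mul]
          ring
        rw [Finset.sum_congr rfl fun h _ => e1 h, Finset.sum_sub_distrib, ← Finset.mul_sum,
          ← Finset.mul_sum, ← Finset.mul_sum, Finset.sum_comm, mul_sub]
        congr 3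
        rw [hS2']
        have e2 : ∀ z : B.C W, ∑ h : B.C W, bh B ⊤ ((z : G)⁻¹ * h * z) * ψ h =
            ∑ t : B.C W, bh B ⊤ t * ψ t := by
          intro z
          rw [← Equiv.sum_comp (MulAut.conj z).toEquiv
            (fun h : B.C W => bh B ⊤ ((z : G)⁻¹ * h * z) * ψ h)]
          refine Finset.sum_congr rfl fun h _ => ?_
          have e3 : (MulAut.conj z).toEquiv h = z * h * z⁻¹ := rfl
          rw [e3, irr_conj hψ]
          congr 2
          push_cast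
          group
        rw [Finset.sum_congr rfl fun z _ => e2 z, Finset.sum_const, Finset.card_univ,
          nsmul_eq_mul, Nat.card_eq_fintype_card]
      rw [hsum]
      obtain ⟨-, -, -, -, n5, n6, -⟩ := nsv ℓ M hM h2 V₀ G E₀ hFr B hB W hWb
      by_cases hin : ψ ∈ IrrE M (fun t : B.C W => B.b W t)
      · have hdW : ψ 1 = (B.D W : ℂ) := (hB.dg W hWb).2 _ hin
        have hDW : (B.D W : ℂ) ≠ 0 := by exact_mod_cast (hB.dg W hWb).1.ne'
        rw [if_pos hin, hdW]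
        have hCh : Ψ ∈ Ch B W := ⟨hΨ0, by rw [hΨ2]; exact hin⟩
        obtain ⟨m₀, h3 | ⟨h3, h4⟩⟩ := n5 Ψ hCh
        · rw [← hS2] at h3
          obtain ⟨q, hq, hU⟩ := hB.un W hWb
          have hU' : (B.S W : ℂ) * Nat.card (B.C W) * B.D ⊤ =
              (1 + ℓ * (q : ℂ)) * (Nat.card (B.C ⊤) * B.D W) := by
            unfold Bk.U at hU
            have h5 : ((Nat.card (B.C ⊤) : ℚ) * B.D W) ≠ 0 := by
              refine mul_ne_zero ?_ ?_
              · exact_mod_cast Nat.card_pos.ne'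
              · exact_mod_cast (hB.dg W hWb).1.ne'
            rw [div_eq_iff h5] at hU
            exact_mod_cast hU
          have hSS : (B.S W : ℂ) * B.S W = 1 := by
            rcases hB.sg W hWb with h5 | h5
            · rw [h5]; norm_num
            · rw [h5]; norm_num
          have h6 : (Nat.card (B.C W) : ℂ)⁻¹ * ((ℓ : ℂ) * (B.D W -
              (Nat.card (B.C ⊤) : ℂ)⁻¹ * (Nat.card (B.C W) * S2))) =
              (ℓ ^ 2 * B.D W / Nat.card (B.C W) : ℂ) *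
                (-((q : ℂ) + B.S W * m₀ + ℓ * (q : ℂ) * (B.S W * m₀))) := by
            rw [h3]
            have h7 : (Nat.card (B.C ⊤) : ℂ)⁻¹ * (Nat.card (B.C W) *
                (B.D ⊤ * (ℓ * m₀ + B.S W))) = (1 + ℓ * (q : ℂ)) * B.D W *
                  (B.S W * (ℓ * m₀) + 1) := by
              have h8 : (Nat.card (B.C ⊤) : ℂ)⁻¹ * (Nat.card (B.C W) *
                (B.D ⊤ * (ℓ * m₀ + B.S W))) = (Nat.card (B.C ⊤) : ℂ)⁻¹ *
                  ((B.S W : ℂ) * Nat.card (B.C W) * B.D ⊤) * (B.S W * (ℓ * m₀) + 1) := by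
                linear_combination (-(Nat.card (B.C ⊤) : ℂ)⁻¹ * (Nat.card (B.C W) *
                  (B.D ⊤ * (ℓ * m₀)))) * hSS
              rw [h8, hU']
              field_simp
            rw [h7]
            field_simp
            ring
          rw [h6]
          refine (RM M).mul_mem (dgv ℓ M hM V₀ G E₀ hFr B hB W hWb).1 ((RM M).neg_mem ?_)
          have hqR := rat_RM hM hq
          have hSm : (B.S W : ℂ) * m₀ ∈ RM M :=
            (RM M).mul_mem (intCast_mem _ _) (intCast_mem _ _)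
          exact (RM M).add_mem ((RM M).add_mem hqR hSm)
            ((RM M).mul_mem ((RM M).mul_mem (natCast_mem _ _) hqR) hSm)
        · rw [← hS2] at h4
          have hΨT : (fun t : B.C ⊤ => Ψ t) ∈ Irr (B.C ⊤) := irr_cast h3 Ψ hΨi
          have h5 : S2 = if (fun t : B.C ⊤ => Ψ t) ∈ IrrE M (fun t : B.C ⊤ => B.b ⊤ t) then
              (fun t : B.C ⊤ => Ψ t) 1 else 0 := by
            rw [← bh_chv B ⊤ hΨT, hS2, finsum_eq_sum_of_fintype, sum_supp (B.C ⊤)]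
            intro x hx
            rw [bh_off B ⊤ hx, zero_mul]
          have hDT : (B.D ⊤ : ℂ) ≠ 0 := by exact_mod_cast (hB.dg ⊤ htop).1.ne'
          have h6 : (fun t : B.C ⊤ => Ψ t) ∈ IrrE M (fun t : B.C ⊤ => B.b ⊤ t) := by
            by_contra h7
            rw [if_neg h7, h4] at h5
            exact hDT h5
          have h7 : (fun t : B.C ⊤ => Ψ t) 1 = (B.D ⊤ : ℂ) := (hB.dg ⊤ htop).2 _ h6
          have h8 : (B.D W : ℂ) = B.D ⊤ := by
            rw [← hdW, ← h7, ← hΨ1]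
            rfl
          rw [h4, h8, h3]
          have h9 : (Nat.card (B.C ⊤) : ℂ)⁻¹ * ((ℓ : ℂ) * (B.D ⊤ -
              (Nat.card (B.C ⊤) : ℂ)⁻¹ * (Nat.card (B.C ⊤) * B.D ⊤))) = 0 := by
            rw [inv_mul_cancel_left₀ hcT, sub_self, mul_zero, mul_zero]
          rw [h9]
          exact (RM M).zero_mem
      · rw [if_neg hin]
        have hCh : Ψ ∉ Ch B W := by
          rintro ⟨-, h3⟩
          rw [hΨ2] at h3
          exact hin h3
        obtain ⟨m₀, h3⟩ := n6 Ψ hΨ0 hΨi hCh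
        rw [← hS2] at h3
        rw [h3]
        have h6 : (Nat.card (B.C W) : ℂ)⁻¹ * ((ℓ : ℂ) * (0 -
            (Nat.card (B.C ⊤) : ℂ)⁻¹ * (Nat.card (B.C W) * (B.D ⊤ * (ℓ * m₀))))) =
            (ℓ ^ 2 * B.D ⊤ / Nat.card (B.C ⊤) : ℂ) * (-m₀) := by
          field_simp
          ring
        rw [h6]
        exact (RM M).mul_mem (dgv ℓ M hM V₀ G E₀ hFr B hB ⊤ htop).1
          ((RM M).neg_mem (intCast_mem _ _))

end Pool.Agent.PP.SO.H35
end
end -- Pool.Agent.Helper35_ASO.CNG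

section -- Pool.Agent.Helper20_ASE.RNB

/-!
# Squad ASE, row RNB: `d5`, `h1`, `u1` for `Rw E₀ W`
-/

open scoped BigOperators

set_option autoImplicit false

noncomputable section

namespace Pool.Agent.PP.SE.H20

open Pool.Agent.Helper51_AWC Pool.Agent.Helper79_WRA Pool.Agent.PP Pool.Agent.PP.KF
open Pool.Agent.PP.K9 Pool.Agent.PP.K9.H97 Pool.Agent.PP.H75 Pool.Agent.PP.T3 Pool.Agent.PP.SO
open Pool.Agent.PP.SD Pool.Agent.PP.SE

attribute [local instance] Ideal.Quotient.field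

section blk

variable {V₀ G : Type} [CommGroup V₀] [Group G] [Finite G] {ℓ : ℕ}
  {M : Ideal (integralClosure ℤ ℂ)} [M.IsMaximal] {E₀ : Subgroup (MulAut V₀)}
  {B : Bk (FF M) V₀ G}

/-- `fc W 1` is the idempotent -/
theorem rnb_fc_one (B : Bk (FF M) V₀ G) (W : Subgroup V₀) : fc B W 1 = bh B W := by
  funext g
  have h1 : W ⊔ Subgroup.zpowers (1 : V₀) = W := by
    rw [Subgroup.zpowers_one_eq_bot, sup_bot_eq]
  unfold fc
  rw [h1]
  have := Fintype.ofFinite (B.C W)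
  have h2 : ∀ z : B.C W, bh B W ((B.i 1)⁻¹ * ((z : G)⁻¹ * g * z)) = bh B W g := by
    intro z
    rw [map_one, inv_one, one_mul]
    by_cases hg : g ∈ B.C W
    · have h3 := SO.H35.bh_cl B W ⟨g, hg⟩ z⁻¹
      have h4 : ((z⁻¹ * ⟨g, hg⟩ * z⁻¹⁻¹ : B.C W) : G) = (z : G)⁻¹ * g * z := by
        show (z : G)⁻¹ * g * ((z : G)⁻¹)⁻¹ = _
        rw [inv_inv]
      rw [h4] at h3
      exact h3
    · rw [SO.H35.bh_off B W hg, SO.H35.bh_off B W]
      intro h
      apply hg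
      have h5 := (B.C W).mul_mem ((B.C W).mul_mem z.2 h) ((B.C W).inv_mem z.2)
      have h6 : (z : G) * ((z : G)⁻¹ * g * z) * (z : G)⁻¹ = g := by group
      rwa [h6] at h5
  rw [finsum_congr h2, finsum_eq_sum_of_fintype, Finset.sum_const, Finset.card_univ,
    ← Nat.card_eq_fintype_card, nsmul_eq_mul, ← mul_assoc, inv_mul_cancel₀, one_mul]
  rw [Nat.card_eq_fintype_card]
  exact_mod_cast Fintype.card_ne_zero

/-- `fc W x` vanishes at the regular elements for `x ≠ 1` -/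
theorem rnb_fc_reg [Fact ℓ.Prime] (hM : (ℓ : integralClosure ℤ ℂ) ∈ M) [Finite V₀]
    (hF : Fq ℓ V₀ E₀) (hB : Sb ℓ M E₀ B) (W : Subgroup V₀) {x : V₀} (hx : x ≠ 1) {g : G}
    (hg : Reg ℓ g) : fc B W x g = 0 := by
  unfold fc
  rw [finsum_eq_zero_of_forall_eq_zero, mul_zero]
  intro z
  obtain ⟨u, hu⟩ : ∃ u, u = (B.i x)⁻¹ * ((z : G)⁻¹ * g * z) := ⟨_, rfl⟩
  rw [← hu]
  by_contra hne
  have hur : Reg ℓ u := by
    by_contra h
    exact hne (SO.H35.bh_sing hM hB _ h)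
  have huC : u ∈ B.C (W ⊔ Subgroup.zpowers x) := by
    by_contra h
    exact hne (SO.H35.bh_off B _ h)
  have hcomm : B.i x * u = u * B.i x :=
    (SO.H82.memC B _ u).1 huC x (Subgroup.mem_sup_right (Subgroup.mem_zpowers x))
  have hg2 : (z : G)⁻¹ * g * z = B.i x * u := by
    rw [hu]
    group
  have hp : ℓ.Prime := Fact.out
  -- the order of the conjugate
  have hro : orderOf ((z : G)⁻¹ * g * z) = orderOf g := by
    have h1 : (z : G)⁻¹ * g * z = MulAut.conj (z : G)⁻¹ g := by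
      rw [MulAut.conj_apply, inv_inv]
    rw [h1]
    exact orderOf_injective (MulAut.conj (z : G)⁻¹).toMonoidHom
      (MulAut.conj (z : G)⁻¹).injective g
  have hn : (orderOf g).Coprime ℓ := hg
  have hm : (orderOf u).Coprime ℓ := hur
  have h1 : (B.i x) ^ (orderOf g * orderOf u) = 1 := by
    have h2 : (B.i x * u) ^ (orderOf g) = 1 := by
      rw [← hg2, ← hro]
      exact pow_orderOf_eq_one _
    have h3 : (B.i x * u) ^ (orderOf g * orderOf u) = 1 := by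
      rw [pow_mul, h2, one_pow]
    have hc : Commute (B.i x) u := hcomm
    rw [hc.mul_pow] at h3
    have h4 : u ^ (orderOf g * orderOf u) = 1 := by
      rw [mul_comm, pow_mul, pow_orderOf_eq_one, one_pow]
    rwa [h4, mul_one] at h3
  have h2 : (B.i x) ^ ℓ = 1 := by rw [← map_pow, hF.ex, map_one]
  have h3 : (orderOf g * orderOf u).Coprime ℓ := Nat.Coprime.mul_left hn hm
  have h4 : B.i x = 1 := by
    have h5 : orderOf (B.i x) ∣ 1 := by
      rw [← Nat.Coprime.gcd_eq_one h3]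
      exact Nat.dvd_gcd (orderOf_dvd_of_pow_eq_one h1) (orderOf_dvd_of_pow_eq_one h2)
    exact orderOf_eq_one_iff.1 (Nat.dvd_one.1 h5)
  exact hx (hB.inj (h4.trans (map_one B.i).symm))

/-- the idempotent -/
theorem rnb_bh_one (hB : Sb ℓ M E₀ B) (W : Subgroup V₀) :
    ∑ᶠ s, bh B W s * bh B W s⁻¹ = bh B W 1 := by
  classical
  have h := SO.H82.prod_eq hB (W := W) (W' := W) (w := 1) (fun x => by simp)
  have h1 : H75.cj 1 (B.b W) = B.b W := by
    funext g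
    unfold H75.cj
    simp
  rw [if_pos h1] at h
  rw [← h]
  exact finsum_congr fun s => by simp

end blk

theorem rnb (hNSD : SD.NsdStmt) (hDGD : SD.DgdStmt) : RnbStmt := by
  classical
  intro ℓ _ M _ hM hℓ V₀ G _ _ _ _ E₀ hF B hB W hW D hD
  have hp : ℓ.Prime := Fact.out
  obtain ⟨n1, n2, n3, n4, n5, n6, n7⟩ := hNSD ℓ M hM hℓ V₀ G E₀ hF B hB W hW
  obtain ⟨g1, g2⟩ := hDGD ℓ M hM V₀ G E₀ hF B hB W hW
  have hdeg : ∀ χ ∈ Ch B W, χ 1 = B.D W := fun χ hχ => (hB.dg W hW).2 _ hχ.2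
  have hDpos : 0 < B.D W := (hB.dg W hW).1
  have hD0 : (B.D W : ℂ) ≠ 0 := by exact_mod_cast hDpos.ne'
  have hl0 : (ℓ : ℂ) ≠ 0 := by exact_mod_cast hp.ne_zero
  have hC0 : (Nat.card (B.C W) : ℂ) ≠ 0 := by
    have : 0 < Nat.card (B.C W) := Nat.card_pos
    exact_mod_cast this.ne'
  have hnS : nS E₀ W = 1 := by
    unfold nS
    have h1 : St E₀ W = ⊥ := by
      rw [eq_bot_iff]
      intro σ hσ
      rw [Subgroup.mem_bot]
      exact hW.2 σ hσ.1 hσ.2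
    rw [h1, Subgroup.card_bot]
  have hlam : ∀ χ ∈ Ch B W, lam B W χ 1 = 1 := fun χ hχ => (n1.mapsTo hχ).1
  have hS : (B.S W : ℂ) * B.S W = 1 := by
    rcases hB.sg W hW with h | h <;> rw [h] <;> norm_num
  refine ⟨fun χ hχ ψ hψ => ?_, fun χ hχ => ?_, ?_⟩
  · -- values at the regular elements
    obtain ⟨c, hc⟩ : ∃ c : ℂ, c = (Nat.card (B.C W) : ℂ) / (ℓ ^ 2 * B.D W) := ⟨_, rfl⟩
    have hval : ∀ χ ∈ Ch B W, ∀ h ∈ B.C W, Reg ℓ h → χ h = c * bh B W h⁻¹ := by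
      intro χ hχ h hh hr
      rw [n4 χ hχ h hh, ← hc]
      congr 1
      have hr' : Reg ℓ h⁻¹ := by
        unfold Reg at hr ⊢
        rwa [orderOf_inv]
      rw [finsum_eq_single _ (1 : V₀)]
      · rw [hlam χ hχ, rnb_fc_one]
        have : ux B.U W (1 : V₀) = 1 := by
          unfold ux
          rw [if_pos W.one_mem]
        rw [this]
        simp
      · intro x hx
        rw [rnb_fc_reg hM hF hB.toSb W hx hr', mul_zero]
    have hconj : ∀ h ∈ B.C W, Reg ℓ h → starRingEnd ℂ (ψ h) = c * bh B W h := by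
      intro h hh hr
      have h1 : starRingEnd ℂ (ψ h) = ψ h⁻¹ := PP.H94.irr_star hψ.2.1 (⟨h, hh⟩ : B.C W)
      rw [h1, hval ψ hψ h⁻¹ ((B.C W).inv_mem hh) (by
        unfold Reg at hr ⊢
        rwa [orderOf_inv]), inv_inv]
    have hsum : ∑ᶠ s ∈ {s : G | s ∈ B.C W ∧ Reg ℓ s}, χ s * starRingEnd ℂ (ψ s) =
        c ^ 2 * bh B W 1 := by
      rw [← rnb_bh_one hB.toSb W]
      have h1 : ∀ s, (∑ᶠ (_ : s ∈ {s : G | s ∈ B.C W ∧ Reg ℓ s}), χ s * starRingEnd ℂ (ψ s)) =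
          c ^ 2 * (bh B W s * bh B W s⁻¹) := by
        intro s
        by_cases hs : s ∈ {s : G | s ∈ B.C W ∧ Reg ℓ s}
        · rw [finsum_eq_if, if_pos hs, hval χ hχ s hs.1 hs.2, hconj s hs.1 hs.2]
          ring
        · rw [finsum_eq_if, if_neg hs]
          have h2 : bh B W s = 0 := by
            by_cases h3 : s ∈ B.C W
            · exact SO.H35.bh_sing hM hB.toSb W fun h4 => hs ⟨h3, h4⟩
            · exact SO.H35.bh_off B W h3
          rw [h2, zero_mul, mul_zero]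
      rw [finsum_congr h1]
      have := Fintype.ofFinite G
      rw [finsum_eq_sum_of_fintype, finsum_eq_sum_of_fintype, Finset.mul_sum]
    rw [hsum, hD.dR, hD.dD χ hχ, hD.dD ψ hψ, hlam χ hχ, hlam ψ hψ, hnS, n7, hc]
    have e1 : starRingEnd ℂ ((B.S W : ℂ) * 1) = B.S W := by
      rw [mul_one]
      exact map_intCast _ _
    rw [e1, mul_one, hS]
    field_simp
    ring
  · rw [hdeg χ hχ]
    exact ⟨g1, g2⟩
  · rw [hD.dU]
    exact hB.un W hW

end Pool.Agent.PP.SE.H20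
end
end -- Pool.Agent.Helper20_ASE.RNB

section -- Pool.Agent.Helper27_ASO.GAU

/-!
# Squad ASO, row GAU: a cocycle of two commuting permutations with given holonomy
-/

open scoped BigOperators

noncomputable section

namespace Pool.Agent.PP.SO.H27

open Pool.Agent.PP.SO

section path

variable {Z : Type} (a c : Equiv.Perm Z) (α γ : Z → ℚ)

/-- the sum along `a ^ i` -/
def PA (f : Z → ℚ) (p : Equiv.Perm Z) (i : ℕ) (z : Z) : ℚ := ∑ s ∈ Finset.range i, f ((p ^ s) z)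

/-- the sum along `a ^ i c ^ j` -/
def PS (i j : ℕ) (z : Z) : ℚ := PA α a i ((c ^ j) z) + PA γ c j z

theorem PA_add (f : Z → ℚ) (p : Equiv.Perm Z) (i j : ℕ) (z : Z) :
    PA f p (i + j) z = PA f p j z + PA f p i ((p ^ j) z) := by
  unfold PA
  rw [add_comm i j, Finset.sum_range_add]
  congr 1
  refine Finset.sum_congr rfl fun s _ => ?_
  rw [add_comm j s, pow_add, Equiv.Perm.mul_apply]

theorem PA_succ (f : Z → ℚ) (p : Equiv.Perm Z) (i : ℕ) (z : Z) :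
    PA f p (i + 1) z = PA f p i z + f ((p ^ i) z) := Finset.sum_range_succ _ _

variable {a c α γ} {R : Subring ℚ}

theorem cpow (hac : a * c = c * a) (i j : ℕ) (z : Z) :
    (a ^ i) ((c ^ j) z) = (c ^ j) ((a ^ i) z) := by
  rw [← Equiv.Perm.mul_apply, ← Equiv.Perm.mul_apply]
  have h : Commute a c := hac
  rw [(h.pow_pow i j).eq]

theorem comm1 (hac : a * c = c * a) (h : ∀ z, α (c z) + γ z - (γ (a z) + α z) ∈ R) (i : ℕ)
    (z : Z) : PA α a i (c z) + γ z - (γ ((a ^ i) z) + PA α a i z) ∈ R := by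
  induction i with
  | zero =>
    unfold PA
    simp [R.zero_mem]
  | succ i ih =>
    rw [PA_succ, PA_succ]
    have h1 := h ((a ^ i) z)
    have h2 : (a ^ i) (c z) = c ((a ^ i) z) := by
      have := cpow hac i 1 z
      rwa [pow_one] at this
    have h3 : a ((a ^ i) z) = (a ^ (i + 1)) z := by
      rw [pow_succ', Equiv.Perm.mul_apply]
    rw [h3] at h1
    rw [h2]
    have e : PA α a i (c z) + α (c ((a ^ i) z)) + γ z -
        (γ ((a ^ (i + 1)) z) + (PA α a i z + α ((a ^ i) z))) =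
        (PA α a i (c z) + γ z - (γ ((a ^ i) z) + PA α a i z)) +
        (α (c ((a ^ i) z)) + γ ((a ^ i) z) - (γ ((a ^ (i + 1)) z) + α ((a ^ i) z))) := by ring
    rw [e]
    exact R.add_mem ih h1

theorem comm2 (hac : a * c = c * a) (h : ∀ z, α (c z) + γ z - (γ (a z) + α z) ∈ R) (i j : ℕ)
    (z : Z) : PA α a i ((c ^ j) z) + PA γ c j z - (PA γ c j ((a ^ i) z) + PA α a i z) ∈ R := by
  induction j with
  | zero =>
    have e : PA α a i ((c ^ 0) z) + PA γ c 0 z - (PA γ c 0 ((a ^ i) z) + PA α a i z) = 0 := by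
      unfold PA
      simp
    rw [e]
    exact R.zero_mem
  | succ j ih =>
    rw [PA_succ, PA_succ]
    have h1 := comm1 hac h i ((c ^ j) z)
    have h3 : c ((c ^ j) z) = (c ^ (j + 1)) z := by
      rw [pow_succ', Equiv.Perm.mul_apply]
    rw [h3, cpow hac] at h1
    have e : PA α a i ((c ^ (j + 1)) z) + (PA γ c j z + γ ((c ^ j) z)) -
        (PA γ c j ((a ^ i) z) + γ ((c ^ j) ((a ^ i) z)) + PA α a i z) =
        (PA α a i ((c ^ j) z) + PA γ c j z - (PA γ c j ((a ^ i) z) + PA α a i z)) +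
        (PA α a i ((c ^ (j + 1)) z) + γ ((c ^ j) z) -
          (γ ((c ^ j) ((a ^ i) z)) + PA α a i ((c ^ j) z))) := by ring
    rw [e]
    exact R.add_mem ih h1

theorem PS_add (hac : a * c = c * a) (h : ∀ z, α (c z) + γ z - (γ (a z) + α z) ∈ R)
    (i j i' j' : ℕ) (z : Z) :
    PS a c α γ i j ((a ^ i') ((c ^ j') z)) + PS a c α γ i' j' z -
      PS a c α γ (i + i') (j + j') z ∈ R := by
  unfold PS
  have h1 := comm2 hac h i' j ((c ^ j') z)
  have h2 : (c ^ (j + j')) z = (c ^ j) ((c ^ j') z) := by rw [pow_add, Equiv.Perm.mul_apply]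
  rw [PA_add α, PA_add γ, h2, cpow hac i' j]
  have e : PA α a i ((c ^ j) ((a ^ i') ((c ^ j') z))) + PA γ c j ((a ^ i') ((c ^ j') z)) +
      (PA α a i' ((c ^ j') z) + PA γ c j' z) -
      (PA α a i' ((c ^ j) ((c ^ j') z)) + PA α a i ((c ^ j) ((a ^ i') ((c ^ j') z))) +
        (PA γ c j' z + PA γ c j ((c ^ j') z))) =
      -(PA α a i' ((c ^ j) ((c ^ j') z)) + PA γ c j ((c ^ j') z) -
        (PA γ c j ((a ^ i') ((c ^ j') z)) + PA α a i' ((c ^ j') z))) := by ring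
  rw [e]
  exact R.neg_mem h1

/-- the sum depends only on the end point -/
theorem PS_end (hac : a * c = c * a) (h : ∀ z, α (c z) + γ z - (γ (a z) + α z) ∈ R)
    (hol : ∀ (z : Z) (i j : ℕ), (a ^ i * c ^ j) z = z → PS a c α γ i j z ∈ R) {N : ℕ}
    (hN : 0 < N) (hNa : a ^ N = 1) (hNc : c ^ N = 1) (i j i' j' : ℕ) (z : Z)
    (he : (a ^ i * c ^ j) z = (a ^ i' * c ^ j') z) :
    PS a c α γ i j z - PS a c α γ i' j' z ∈ R := by
  obtain ⟨n, rfl⟩ : ∃ n, N = n + 1 := ⟨N - 1, by omega⟩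
  have hback : (a ^ (n * i) * c ^ (n * j)) ((a ^ i * c ^ j) z) = z := by
    rw [← Equiv.Perm.mul_apply]
    have h1 : Commute a c := hac
    have e : a ^ (n * i) * c ^ (n * j) * (a ^ i * c ^ j) = 1 := by
      have h2 := (h1.symm.pow_pow (n * j) i).eq
      calc a ^ (n * i) * c ^ (n * j) * (a ^ i * c ^ j)
          = a ^ (n * i) * (c ^ (n * j) * a ^ i) * c ^ j := by simp only [mul_assoc]
        _ = a ^ (n * i) * (a ^ i * c ^ (n * j)) * c ^ j := by rw [h2]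
        _ = (a ^ (n * i) * a ^ i) * (c ^ (n * j) * c ^ j) := by simp only [mul_assoc]
        _ = 1 := by
          rw [← pow_add, ← pow_add]
          have e1 : n * i + i = (n + 1) * i := by ring
          have e2 : n * j + j = (n + 1) * j := by ring
          rw [e1, e2, pow_mul, pow_mul, hNa, hNc, one_pow, one_pow, one_mul]
    rw [e]
    rfl
  have k1 := PS_add hac h (n * i) (n * j) i j z
  have k2 := PS_add hac h (n * i) (n * j) i' j' z
  rw [← Equiv.Perm.mul_apply (a ^ i), he] at k1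
  rw [← Equiv.Perm.mul_apply (a ^ i')] at k2
  have l1 : (a ^ (n * i + i) * c ^ (n * j + j)) z = z := by
    have e : a ^ (n * i + i) * c ^ (n * j + j) = a ^ (n * i) * c ^ (n * j) * (a ^ i * c ^ j) := by
      have h1 : Commute a c := hac
      have h2 := (h1.symm.pow_pow (n * j) i).eq
      rw [pow_add, pow_add, mul_assoc, ← mul_assoc (a ^ i), ← h2]
      simp only [mul_assoc]
    rw [e, Equiv.Perm.mul_apply, hback]
  have l2 : (a ^ (n * i + i') * c ^ (n * j + j')) z = z := by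
    have e : a ^ (n * i + i') * c ^ (n * j + j') =
        a ^ (n * i) * c ^ (n * j) * (a ^ i' * c ^ j') := by
      have h1 : Commute a c := hac
      have h2 := (h1.symm.pow_pow (n * j) i').eq
      rw [pow_add, pow_add, mul_assoc, ← mul_assoc (a ^ i'), ← h2]
      simp only [mul_assoc]
    rw [e, Equiv.Perm.mul_apply, ← he, hback]
  have m1 := hol _ _ _ l1
  have m2 := hol _ _ _ l2
  obtain ⟨X, hX⟩ : ∃ X, X = PS a c α γ (n * i) (n * j) ((a ^ i' * c ^ j') z) := ⟨_, rfl⟩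
  rw [← hX] at k1 k2
  have e : PS a c α γ i j z - PS a c α γ i' j' z =
      (X + PS a c α γ i j z - PS a c α γ (n * i + i) (n * j + j) z) +
      PS a c α γ (n * i + i) (n * j + j) z -
      (X + PS a c α γ i' j' z - PS a c α γ (n * i + i') (n * j + j') z) -
      PS a c α γ (n * i + i') (n * j + j') z := by ring
  rw [e]
  exact R.sub_mem (R.sub_mem (R.add_mem k1 m1) k2) m2

end path

/-- the case of trivial holonomy -/
theorem gau0 (R : Subring ℚ) (Z : Type) [Finite Z] (a c : Equiv.Perm Z) (hac : a * c = c * a)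
    (α γ : Z → ℚ) (h : ∀ z, α (c z) + γ z - (γ (a z) + α z) ∈ R)
    (hol : ∀ (z : Z) (i j : ℕ), (a ^ i * c ^ j) z = z → PS a c α γ i j z ∈ R) :
    ∃ u : Z → ℚ, ∀ z, α z - (u (a z) - u z) ∈ R ∧ γ z - (u (c z) - u z) ∈ R := by
  classical
  have hcm : Commute a c := hac
  obtain ⟨N, hN, hNa, hNc⟩ : ∃ N, 0 < N ∧ a ^ N = 1 ∧ c ^ N = 1 := by
    refine ⟨orderOf a * orderOf c, Nat.mul_pos (orderOf_pos a) (orderOf_pos c), ?_, ?_⟩
    · rw [pow_mul, pow_orderOf_eq_one, one_pow]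
    · rw [mul_comm, pow_mul, pow_orderOf_eq_one, one_pow]
  have hmul : ∀ i j i' j' : ℕ, (a ^ i * c ^ j) * (a ^ i' * c ^ j') =
      a ^ (i + i') * c ^ (j + j') := by
    intro i j i' j'
    have h2 := (hcm.symm.pow_pow j i').eq
    rw [pow_add, pow_add, mul_assoc, ← mul_assoc (c ^ j), h2]
    simp only [mul_assoc]
  let s : Setoid Z :=
    { r := fun z w => ∃ i j : ℕ, (a ^ i * c ^ j) z = w
      iseqv := by
        refine ⟨fun z => ⟨0, 0, by simp⟩, ?_, ?_⟩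
        · rintro z w ⟨i, j, rfl⟩
          obtain ⟨n, rfl⟩ : ∃ n, N = n + 1 := ⟨N - 1, by omega⟩
          refine ⟨n * i, n * j, ?_⟩
          rw [← Equiv.Perm.mul_apply, hmul]
          have e1 : n * i + i = (n + 1) * i := by ring
          have e2 : n * j + j = (n + 1) * j := by ring
          rw [e1, e2, pow_mul, pow_mul, hNa, hNc, one_pow, one_pow, one_mul]
          rfl
        · rintro z w v ⟨i, j, rfl⟩ ⟨i', j', rfl⟩
          exact ⟨i' + i, j' + j, by rw [← hmul, Equiv.Perm.mul_apply]⟩ }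
  obtain ⟨rep, hrep1, hrep2⟩ : ∃ rep : Z → Z,
      (∀ z, ∃ i j : ℕ, (a ^ i * c ^ j) (rep z) = z) ∧
      (∀ z w, (∃ i j : ℕ, (a ^ i * c ^ j) z = w) → rep z = rep w) := by
    refine ⟨fun z => (Quotient.mk s z).out, fun z => ?_, fun z w hzw => ?_⟩
    · exact Quotient.mk_out (s := s) z
    · have h1 : Quotient.mk s z = Quotient.mk s w := Quotient.sound (s := s) hzw
      simp only [h1]
  choose I J hIJ using hrep1
  refine ⟨fun z => PS a c α γ (I z) (J z) (rep z), fun z => ⟨?_, ?_⟩⟩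
  · have h1 : rep z = rep (a z) := hrep2 z (a z) ⟨1, 0, by simp⟩
    have h2 : (a ^ I (a z) * c ^ J (a z)) (rep z) = (a ^ (I z + 1) * c ^ J z) (rep z) := by
      have h3 := hIJ (a z)
      rw [← h1] at h3
      rw [h3, pow_succ', mul_assoc, Equiv.Perm.mul_apply, hIJ z]
    have h4 := PS_end hac h hol hN hNa hNc _ _ _ _ _ h2
    have h5 : PS a c α γ (I z + 1) (J z) (rep z) = PS a c α γ (I z) (J z) (rep z) + α z := by
      unfold PS
      rw [PA_succ, ← Equiv.Perm.mul_apply (a ^ I z), hIJ z]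
      ring
    rw [h5] at h4
    simp only [← h1]
    have e : α z - (PS a c α γ (I (a z)) (J (a z)) (rep z) - PS a c α γ (I z) (J z) (rep z)) =
        -(PS a c α γ (I (a z)) (J (a z)) (rep z) -
          (PS a c α γ (I z) (J z) (rep z) + α z)) := by ring
    rw [e]
    exact R.neg_mem h4
  · have h1 : rep z = rep (c z) := hrep2 z (c z) ⟨0, 1, by simp⟩
    have hpc : (a ^ I z * c ^ (J z + 1)) (rep z) = c z := by
      have e : a ^ I z * c ^ (J z + 1) = c * (a ^ I z * c ^ J z) := by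
        have h2 := (hcm.symm.pow_right (I z)).eq
        rw [pow_succ', ← mul_assoc, ← h2, mul_assoc]
      rw [e, Equiv.Perm.mul_apply, hIJ z]
    have h2 : (a ^ I (c z) * c ^ J (c z)) (rep z) = (a ^ I z * c ^ (J z + 1)) (rep z) := by
      have h3 := hIJ (c z)
      rw [← h1] at h3
      rw [h3, hpc]
    have h4 := PS_end hac h hol hN hNa hNc _ _ _ _ _ h2
    have h5 : PS a c α γ (I z) (J z + 1) (rep z) - (PS a c α γ (I z) (J z) (rep z) + γ z) ∈ R := by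
      unfold PS
      rw [PA_succ]
      have k1 := comm1 hac h (I z) ((c ^ J z) (rep z))
      have k2 : c ((c ^ J z) (rep z)) = (c ^ (J z + 1)) (rep z) := by
        rw [pow_succ', Equiv.Perm.mul_apply]
      rw [k2, ← Equiv.Perm.mul_apply (a ^ I z), hIJ z] at k1
      have e : PA α a (I z) ((c ^ (J z + 1)) (rep z)) +
          (PA γ c (J z) (rep z) + γ ((c ^ J z) (rep z))) -
          (PA α a (I z) ((c ^ J z) (rep z)) + PA γ c (J z) (rep z) + γ z) =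
          PA α a (I z) ((c ^ (J z + 1)) (rep z)) + γ ((c ^ J z) (rep z)) -
            (γ z + PA α a (I z) ((c ^ J z) (rep z))) := by ring
      rw [e]
      exact k1
    simp only [← h1]
    have e : γ z - (PS a c α γ (I (c z)) (J (c z)) (rep z) - PS a c α γ (I z) (J z) (rep z)) =
        -(PS a c α γ (I (c z)) (J (c z)) (rep z) - PS a c α γ (I z) (J z + 1) (rep z)) -
        (PS a c α γ (I z) (J z + 1) (rep z) - (PS a c α γ (I z) (J z) (rep z) + γ z)) := by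
      ring
    rw [e]
    exact R.sub_mem (R.neg_mem h4) h5

/-- GAU -/
theorem gau : GauStmt := by
  intro R Z _ a c hac α γ μ ν h hinv hol
  have pow_inv : ∀ (f : Z → ℚ) (p : Equiv.Perm Z), (∀ z, f (p z) = f z) →
      ∀ (n : ℕ) (z : Z), f ((p ^ n) z) = f z := by
    intro f p hf n
    induction n with
    | zero => intro z; simp
    | succ n ih =>
      intro z
      rw [pow_succ', Equiv.Perm.mul_apply, hf, ih]
  obtain ⟨u, hu⟩ := gau0 R Z a c hac (fun z => α z - μ z) (fun z => γ z - ν z) (by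
    intro z
    obtain ⟨h1, h2, h3, h4⟩ := hinv z
    have e : α (c z) - μ (c z) + (γ z - ν z) - (γ (a z) - ν (a z) + (α z - μ z)) =
        α (c z) + γ z - (γ (a z) + α z) := by
      rw [h2, h3]
      ring
    simp only [e]
    exact h z) (by
    intro z i j hz
    have h1 := hol z i j hz
    have e : PS a c (fun z => α z - μ z) (fun z => γ z - ν z) i j z =
        (∑ s ∈ Finset.range i, α ((a ^ s * c ^ j) z) + ∑ s ∈ Finset.range j, γ ((c ^ s) z)) -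
          (i * μ z + j * ν z) := by
      unfold PS PA
      rw [Finset.sum_sub_distrib, Finset.sum_sub_distrib]
      have e1 : ∑ s ∈ Finset.range i, μ ((a ^ s) ((c ^ j) z)) = i * μ z := by
        rw [Finset.sum_congr rfl fun s _ => (pow_inv μ a (fun z => (hinv z).1) s _).trans
          (pow_inv μ c (fun z => (hinv z).2.1) j z), Finset.sum_const, Finset.card_range,
          nsmul_eq_mul]
      have e2 : ∑ s ∈ Finset.range j, ν ((c ^ s) z) = j * ν z := by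
        rw [Finset.sum_congr rfl fun s _ => pow_inv ν c (fun z => (hinv z).2.2.2) s z,
          Finset.sum_const, Finset.card_range, nsmul_eq_mul]
      rw [e1, e2]
      simp only [Equiv.Perm.mul_apply]
      ring
    rw [e]
    exact h1)
  exact ⟨u, hu⟩

end Pool.Agent.PP.SO.H27
end
end -- Pool.Agent.Helper27_ASO.GAU

section -- Pool.Agent.Helper59_ASO.PRJ

open scoped BigOperators

noncomputable section

namespace Pool.Agent.PP.SO.H59

open Pool.Agent.Helper51_AWC Pool.Agent.Helper79_WRA Pool.Agent.PP Pool.Agent.PP.KF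
open Pool.Agent.PP.K9 Pool.Agent.PP.K9.H97 Pool.Agent.PP.H75 Pool.Agent.PP.T3 Pool.Agent.PP.SO

/-- the trace of an operator with `T ^ (n + 1) = T` is an algebraic integer -/
theorem trace_integral {n : ℕ} (T : Module.End ℂ (Fin n → ℂ)) (k : ℕ) (hk : 0 < k)
    (hT : T ^ (k + 1) = T) : IsIntegral ℤ (LinearMap.trace ℂ _ T) := by
  have hs : T.charpoly.Splits := IsAlgClosed.splits _
  rw [Module.End.trace_eq_sum_roots_charpoly_of_splits hs]
  apply IsIntegral.multiset_sum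
  intro μ hμ
  have h1 : T.charpoly.IsRoot μ := (Polynomial.mem_roots'.1 hμ).2
  have h2 := (Module.End.hasEigenvalue_iff_isRoot_charpoly T μ).2 h1
  obtain ⟨v, hv⟩ := h2.exists_hasEigenvector
  have h3 : μ ^ (k + 1) = μ := by
    have h4 : (T ^ (k + 1)) v = μ ^ (k + 1) • v := hv.pow_apply _
    have h4' : T v = μ • v := hv.apply_eq_smul
    rw [hT, h4'] at h4
    have h5 : (μ - μ ^ (k + 1)) • v = 0 := by
      rw [sub_smul, ← h4, sub_self]
    rcases smul_eq_zero.1 h5 with h6 | h6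
    · exact (sub_eq_zero.1 h6).symm
    · exact absurd h6 hv.2
  by_cases h0 : μ = 0
  · rw [h0]
    exact isIntegral_zero
  · have h4 : μ ^ k = 1 := by
      rw [pow_succ] at h3
      exact mul_right_cancel₀ h0 (by rw [h3, one_mul])
    apply IsIntegral.of_pow (n := k) hk
    rw [h4]
    exact isIntegral_one

/-- the average of a character over a coset of a subgroup of the centraliser -/
theorem avg_integral {H : Type} [Group H] [Finite H] {χ : H → ℂ} (hχ : χ ∈ Irr H) (s : H)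
    (P : Subgroup H) [Fintype P] (hP : ∀ x ∈ P, s * x = x * s) :
    IsIntegral ℤ ((Fintype.card P : ℂ)⁻¹ * ∑ x : P, χ (s * x)) := by
  obtain ⟨n, ρ, hρ, rfl⟩ := hχ
  have hc : (Fintype.card P : ℂ) ≠ 0 := by exact_mod_cast Fintype.card_ne_zero
  obtain ⟨E, hE⟩ : ∃ E : Module.End ℂ (Fin n → ℂ), E = (Fintype.card P : ℂ)⁻¹ • ∑ x : P, ρ x :=
    ⟨_, rfl⟩
  have hxE : ∀ x : P, ρ x * E = E := by
    intro x
    rw [hE, mul_smul_comm, Finset.mul_sum]
    congr 1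
    rw [← Equiv.sum_comp (Equiv.mulLeft x) (fun y : P => ρ y)]
    refine Finset.sum_congr rfl fun y _ => ?_
    rw [← map_mul]
    rfl
  have hEE : E * E = E := by
    have h1 : E * E = ((Fintype.card P : ℂ)⁻¹ • ∑ x : P, ρ x) * E := by rw [← hE]
    rw [h1, smul_mul_assoc, Finset.sum_mul, Finset.sum_congr rfl fun x _ => hxE x,
      Finset.sum_const, Finset.card_univ, ← Nat.cast_smul_eq_nsmul ℂ, smul_smul,
      inv_mul_cancel₀ hc, one_smul]
  have hsE : ρ s * E = E * ρ s := by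
    rw [hE, mul_smul_comm, smul_mul_assoc, Finset.mul_sum, Finset.sum_mul]
    congr 1
    refine Finset.sum_congr rfl fun x _ => ?_
    rw [← map_mul, ← map_mul, hP x x.2]
  have hpow : ∀ k : ℕ, (ρ s * E) ^ (k + 1) = ρ (s ^ (k + 1)) * E := by
    intro k
    induction k with
    | zero => rw [zero_add, pow_one, pow_one]
    | succ k ih =>
      rw [pow_succ, ih]
      calc ρ (s ^ (k + 1)) * E * (ρ s * E) = ρ (s ^ (k + 1)) * (E * ρ s) * E := by
            simp only [mul_assoc]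
        _ = ρ (s ^ (k + 1)) * (ρ s * E) * E := by rw [hsE]
        _ = ρ (s ^ (k + 1)) * ρ s * (E * E) := by simp only [mul_assoc]
        _ = ρ (s ^ (k + 1 + 1)) * E := by rw [hEE, ← map_mul, ← pow_succ]
  have hT : (ρ s * E) ^ (orderOf s + 1) = ρ s * E := by
    rw [hpow, pow_succ, pow_orderOf_eq_one, one_mul]
  have h1 := trace_integral (ρ s * E) (orderOf s) (orderOf_pos s) hT
  have h2 : LinearMap.trace ℂ _ (ρ s * E) =
      (Fintype.card P : ℂ)⁻¹ * ∑ x : P, ρ.character (s * x) := by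
    rw [hE, mul_smul_comm, Finset.mul_sum, map_smul, map_sum, smul_eq_mul]
    congr 1
    refine Finset.sum_congr rfl fun x _ => ?_
    rw [← map_mul]
    rfl
  rw [← h2]
  exact h1

theorem prj : PrjStmt := by
  intro ℓ hℓ M hM hℓM H _ _ f hcl hsing hint s
  classical
  have hH : Fintype H := Fintype.ofFinite H
  by_cases hfs : f s = 0
  · rw [hfs, zero_div]
    exact (RM M).zero_mem
  have hreg : Reg ℓ s := by
    by_contra h
    exact hfs (hsing s h)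
  have hI : Fintype (Irr H) := Fintype.ofFinite _
  have hcH : (Nat.card H : ℂ) ≠ 0 := by exact_mod_cast Nat.card_pos.ne'
  -- the expansion
  obtain ⟨c, hc⟩ : ∃ c : Irr H → ℂ,
      c = fun χ : Irr H => (Nat.card H : ℂ)⁻¹ * ∑ h : H, f h * χ.1 h⁻¹ := ⟨_, rfl⟩
  have hcM : ∀ χ, c χ ∈ RM M := by
    intro χ
    have := hint χ χ.2
    rw [finsum_eq_sum_of_fintype] at this
    rw [hc]
    exact this
  have hexp : f = fun x => ∑ χ : Irr H, c χ * (χ : H → ℂ) x := by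
    have : (fun x => f x - ∑ χ : Irr H, c χ * (χ : H → ℂ) x) = 0 := by
      apply irr_complete'
      · intro g h
        rw [hcl]
        congr 1
        refine Finset.sum_congr rfl fun χ _ => ?_
        rw [irr_conj χ.2]
      · intro ψ hψ
        have e : ∑ g : H, (∑ χ : Irr H, c χ * (χ : H → ℂ) g) * ψ g⁻¹ =
            c ⟨ψ, hψ⟩ * (Fintype.card H : ℂ) := by
          simp only [Finset.sum_mul]
          rw [Finset.sum_comm, Finset.sum_eq_single_of_mem ⟨ψ, hψ⟩ (Finset.mem_univ _)]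
          · simp_rw [mul_assoc]
            rw [← Finset.mul_sum, irr_orth_self hψ]
          · intro χ _ hne
            simp_rw [mul_assoc]
            rw [← Finset.mul_sum, irr_orth_ne χ.2 hψ (fun h => hne (Subtype.ext h)), mul_zero]
        have e2 : ∑ g : H, f g * ψ g⁻¹ = c ⟨ψ, hψ⟩ * (Fintype.card H : ℂ) := by
          rw [hc]
          change ∑ g : H, f g * ψ g⁻¹ =
            (Nat.card H : ℂ)⁻¹ * (∑ h : H, f h * ψ h⁻¹) * (Fintype.card H : ℂ)
          rw [← Nat.card_eq_fintype_card, mul_comm ((Nat.card H : ℂ)⁻¹), mul_assoc,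
            inv_mul_cancel₀ hcH, mul_one]
        have e3 : ∑ g : H, (f g - ∑ χ : Irr H, c χ * (χ : H → ℂ) g) * ψ g⁻¹ =
            ∑ g : H, f g * ψ g⁻¹ - ∑ g : H, (∑ χ : Irr H, c χ * (χ : H → ℂ) g) * ψ g⁻¹ := by
          rw [← Finset.sum_sub_distrib]
          exact Finset.sum_congr rfl fun g _ => sub_mul _ _ _
        rw [e3, e, e2, sub_self]
    funext x
    exact sub_eq_zero.1 (congrFun this x)
  -- the Sylow subgroup
  obtain ⟨P⟩ := Sylow.nonempty (p := ℓ) (G := Cu s)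
  obtain ⟨Q, hQ⟩ : ∃ Q : Subgroup H, Q = (P : Subgroup (Cu s)).map (Cu s).subtype := ⟨_, rfl⟩
  have hQF : Fintype Q := Fintype.ofFinite Q
  have hQs : ∀ x ∈ Q, s * x = x * s := by
    intro x hx
    rw [hQ] at hx
    obtain ⟨y, hy, rfl⟩ := hx
    exact (Subgroup.mem_centralizer_singleton_iff.1 y.2).symm
  have hQp : IsPGroup ℓ Q := by
    rw [hQ]
    exact P.2.map _
  have hcardQ : Nat.card Q = Nat.card P := by
    rw [hQ]
    exact Nat.card_congr ((P : Subgroup (Cu s)).equivMapOfInjective _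
      (Subgroup.subtype_injective _)).symm.toEquiv
  -- the sum
  have hsum : ∑ x : Q, f (s * x) = f s := by
    rw [Finset.sum_eq_single_of_mem (1 : Q) (Finset.mem_univ _)]
    · rw [OneMemClass.coe_one, mul_one]
    · intro x _ hx
      apply hsing
      intro hr
      have hcomm : Commute s (x : H) := hQs x x.2
      obtain ⟨n, hn⟩ := (IsPGroup.iff_orderOf.1 hQp) x
      have hn' : orderOf (x : H) = ℓ ^ n := by
        rw [Subgroup.orderOf_coe]
        exact hn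
      have hn0 : n ≠ 0 := by
        rintro rfl
        rw [pow_zero, orderOf_eq_one_iff] at hn'
        exact hx (Subtype.ext hn')
      have hcop : (orderOf s).Coprime (orderOf (x : H)) := by
        rw [hn']
        exact Nat.Coprime.pow_right n hreg
      have ho := hcomm.orderOf_mul_eq_mul_orderOf_of_coprime hcop
      have h1 : ℓ ∣ orderOf (s * x) := by
        rw [ho, hn']
        exact Dvd.dvd.mul_left (dvd_pow_self ℓ hn0) _
      have h2 : (orderOf (s * x)).Coprime ℓ := hr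
      have h3 := Nat.Coprime.eq_one_of_dvd h2.symm h1
      exact hℓ.out.one_lt.ne' h3
  have hmain : (Nat.card Q : ℂ)⁻¹ * f s ∈ RM M := by
    rw [← hsum, hexp]
    simp only
    rw [Finset.sum_comm, Finset.mul_sum]
    refine (RM M).sum_mem fun χ _ => ?_
    rw [← Finset.mul_sum, mul_left_comm]
    refine (RM M).mul_mem (hcM χ) (RM_of_int ?_)
    have := avg_integral χ.2 s Q hQs
    rw [Nat.card_eq_fintype_card]
    exact this
  -- the index
  obtain ⟨m, hm⟩ : Nat.card P ∣ Nat.card (Cu s) := Subgroup.card_subgroup_dvd_card _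
  have hml : ¬ ℓ ∣ m := by
    have h1 := P.not_dvd_index
    have h2 := Subgroup.card_mul_index (P : Subgroup (Cu s))
    have h3 : (P : Subgroup (Cu s)).index = m := by
      have : 0 < Nat.card P := Nat.card_pos
      exact Nat.eq_of_mul_eq_mul_left this (h2.trans hm)
    rw [h3] at h1
    exact h1
  have hmM : (m : integralClosure ℤ ℂ) ∉ M := by
    intro h
    have hcop : Nat.Coprime m ℓ := (Nat.coprime_comm.1 ((Nat.Prime.coprime_iff_not_dvd hℓ.out).2 hml))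
    have hb := Nat.gcd_eq_gcd_ab m ℓ
    rw [hcop.gcd_eq_one] at hb
    have h1 : (1 : integralClosure ℤ ℂ) = m * (Nat.gcdA m ℓ : ℤ) + ℓ * (Nat.gcdB m ℓ : ℤ) := by
      exact_mod_cast congrArg (fun z : ℤ => (z : integralClosure ℤ ℂ)) hb
    apply one_notMem (M := M)
    rw [h1]
    exact M.add_mem (M.mul_mem_right _ h) (M.mul_mem_right _ hℓM)
  have hm0 : (m : ℂ) ≠ 0 := by
    intro h
    have : m = 0 := by exact_mod_cast h
    exact hml (this ▸ dvd_zero ℓ)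
  have hmi : (m : ℂ)⁻¹ ∈ RM M := by
    refine ⟨m, 1, hmM, ?_⟩
    push_cast
    exact mul_inv_cancel₀ hm0
  have hQ0 : (Nat.card Q : ℂ) ≠ 0 := by exact_mod_cast Nat.card_pos.ne'
  have heq : f s / Nat.card (Cu s) = (m : ℂ)⁻¹ * ((Nat.card Q : ℂ)⁻¹ * f s) := by
    rw [hm, ← hcardQ]
    push_cast
    field_simp
  rw [heq]
  exact (RM M).mul_mem hmi hmain

end Pool.Agent.PP.SO.H59
end
end -- Pool.Agent.Helper59_ASO.PRJ

section -- Pool.Agent.Helper97_ASO.BRD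

/-!
ASO, row BRD: identities in the braid group.
-/

namespace Pool.Agent.PP.SO.H97

theorem brd : BrdStmt := by
  intro Γ _ a b c A B C h1 h2 h3 hA hB hC
  have r1 : SemiconjBy a A A := by
    rw [hA]
    exact (Commute.refl a).mul_right (Commute.inv_right h3)
  have r2 : SemiconjBy b A B⁻¹ := by
    rw [SemiconjBy, hA, hB]
    group
  have h4 : B * a = c * B := by
    have h5 : B * a * (b * a) = c * B * (b * a) := by
      calc B * a * (b * a) = b * c * a⁻¹ * b⁻¹ * (a * b * a) := by rw [hB]; group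
        _ = b * c * a⁻¹ * b⁻¹ * (b * a * b) := by rw [h1]
        _ = b * c * b := by group
        _ = c * b * c := h2.symm
        _ = c * B * (b * a) := by rw [hB]; group
    exact mul_right_cancel h5
  have h6 : B * a⁻¹ = c⁻¹ * B := by
    rw [mul_inv_eq_iff_eq_mul, mul_assoc, h4, inv_mul_cancel_left]
  have r3 : SemiconjBy a B (A * B) := by
    rw [SemiconjBy, hA, mul_assoc a c⁻¹ B, ← h6]
    group
  have r5 : SemiconjBy c B (B * A) := by
    rw [SemiconjBy, hA, ← h4]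
    group
  have r4 : SemiconjBy b B (B * A * B) := by
    have e1 : SemiconjBy (a * b * a) A (A * B)⁻¹ := (r3.inv_right.mul_left r2).mul_left r1
    have e2 : SemiconjBy (b * a * b) A (B⁻¹ * (b * B * b⁻¹))⁻¹ := by
      have e3 : SemiconjBy b (A * B) (B⁻¹ * (b * B * b⁻¹)) := by
        refine r2.mul_right ?_
        rw [SemiconjBy]
        group
      exact (e3.inv_right.mul_left r3.inv_right).mul_left r2
    rw [SemiconjBy, h1, e2.eq] at e1
    have e4 := inv_injective (mul_right_cancel e1)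
    have e5 : b * B * b⁻¹ = B * (A * B) := by
      rw [← e4]
      group
    rw [SemiconjBy, ← mul_inv_eq_iff_eq_mul, e5, mul_assoc]
  -- `C` commutes with `a` and `b`
  have ca : SemiconjBy a C C := by
    have := (((r3.inv_right.mul_right r1.inv_right).mul_right r3).mul_right r1)
    rw [← hC] at this
    have e : (A * B)⁻¹ * A⁻¹ * (A * B) * A = C := by rw [hC]; group
    rwa [e] at this
  have cb : SemiconjBy b C C := by
    have := (((r4.inv_right.mul_right r2.inv_right).mul_right r4).mul_right r2)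
    rw [← hC] at this
    have e : (B * A * B)⁻¹ * B⁻¹⁻¹ * (B * A * B) * B⁻¹ = C := by rw [hC]; group
    rwa [e] at this
  -- `Δ = a b a`
  obtain ⟨Dl, hD⟩ : ∃ Dl : Γ, Dl = a * b * a := ⟨_, rfl⟩
  have da : SemiconjBy Dl a b := by
    rw [SemiconjBy, hD]
    calc a * b * a * a = (b * a * b) * a := by rw [h1]
      _ = b * (a * b * a) := by group
  have db : SemiconjBy Dl b a := by
    rw [SemiconjBy, hD]
    calc a * b * a * b = a * (b * a * b) := by group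
      _ = a * (a * b * a) := by rw [h1]
  have dda : SemiconjBy (Dl * Dl) a a := db.mul_left da
  have ddb : SemiconjBy (Dl * Dl) b b := da.mul_left db
  have hw : a * b * c = A * B * Dl := by
    calc a * b * c = a * (b * (c * a⁻¹) * b⁻¹) * b * a := by group
      _ = a * B * b * a := by rw [hB]
      _ = A * B * a * b * a := by rw [r3.eq]
      _ = A * B * Dl := by rw [hD]; group
  have dA : SemiconjBy Dl A (A * B)⁻¹ := by
    rw [hD]; exact (r3.inv_right.mul_left r2).mul_left r1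
  have dB : SemiconjBy Dl B (A * A * B) := by
    have e1 : SemiconjBy b (A * B) (B⁻¹ * (B * A * B)) := r2.mul_right r4
    have e2 : B⁻¹ * (B * A * B) = A * B := by group
    rw [e2] at e1
    have e3 : SemiconjBy a (A * B) (A * (A * B)) := r1.mul_right r3
    have e4 : A * (A * B) = A * A * B := by group
    rw [e4] at e3
    rw [hD]
    exact (e3.mul_left e1).mul_left r3
  have ab3 : (a * b) ^ 3 = Dl * Dl := by
    calc (a * b) ^ 3 = (a * b * a) * (b * a * b) := by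
          simp only [pow_succ, pow_zero, one_mul, mul_assoc]
      _ = Dl * Dl := by rw [← h1, hD]
  have ab6 : (a * b) ^ 6 = Dl * Dl * (Dl * Dl) := by
    rw [show (6 : ℕ) = 3 + 3 from rfl, pow_add, ab3]
  have dAB : SemiconjBy Dl (A * B) ((A * B)⁻¹ * (A * A * B)) := dA.mul_right dB
  have w2 : (a * b * c) * (a * b * c) = A * A * B * (Dl * Dl) := by
    rw [hw]
    calc A * B * Dl * (A * B * Dl) = A * B * (Dl * (A * B)) * Dl := by group
      _ = A * B * ((A * B)⁻¹ * (A * A * B) * Dl) * Dl := by rw [dAB.eq]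
      _ = A * A * B * (Dl * Dl) := by group
  have ddA : SemiconjBy (Dl * Dl) A (B⁻¹ * A⁻¹ * B) := by
    have e1 := dAB.inv_right.mul_left dA
    have e2 : ((A * B)⁻¹ * (A * A * B))⁻¹ = B⁻¹ * A⁻¹ * B := by group
    rwa [e2] at e1
  have ddB : SemiconjBy (Dl * Dl) B (B⁻¹ * A⁻¹ * B⁻¹ * A * B) := by
    have e1 : SemiconjBy Dl (A * A * B) ((A * B)⁻¹ * (A * B)⁻¹ * (A * A * B)) :=
      (dA.mul_right dA).mul_right dB
    have e2 := e1.mul_left dB
    have e3 : (A * B)⁻¹ * (A * B)⁻¹ * (A * A * B) = B⁻¹ * A⁻¹ * B⁻¹ * A * B := by group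
    rwa [e3] at e2
  have ddAAB : SemiconjBy (Dl * Dl) (A * A * B)
      (B⁻¹ * A⁻¹ * B * (B⁻¹ * A⁻¹ * B) * (B⁻¹ * A⁻¹ * B⁻¹ * A * B)) :=
    (ddA.mul_right ddA).mul_right ddB
  have w4 : (a * b * c) ^ 4 = C⁻¹ * (a * b) ^ 6 := by
    have e0 : (a * b * c) ^ 4 = (a * b * c) * (a * b * c) * ((a * b * c) * (a * b * c)) := by
      simp only [pow_succ, pow_zero, one_mul, mul_assoc]
    rw [e0, w2, ab6, hC]
    calc A * A * B * (Dl * Dl) * (A * A * B * (Dl * Dl))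
        = A * A * B * ((Dl * Dl) * (A * A * B)) * (Dl * Dl) := by group
      _ = A * A * B * (B⁻¹ * A⁻¹ * B * (B⁻¹ * A⁻¹ * B) * (B⁻¹ * A⁻¹ * B⁻¹ * A * B) *
            (Dl * Dl)) * (Dl * Dl) := by rw [ddAAB.eq]
      _ = (B⁻¹ * A⁻¹ * B * A)⁻¹ * (Dl * Dl * (Dl * Dl)) := by group
  have k6a : SemiconjBy ((a * b) ^ 6) a a := by rw [ab6]; exact dda.mul_left dda
  have k6b : SemiconjBy ((a * b) ^ 6) b b := by rw [ab6]; exact ddb.mul_left ddb
  have Ca : Commute C⁻¹ a := Commute.inv_left (Commute.symm ca)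
  have Cb : Commute C⁻¹ b := Commute.inv_left (Commute.symm cb)
  have w4a : SemiconjBy ((a * b * c) ^ 4) a a := by
    rw [w4]; exact SemiconjBy.mul_left Ca k6a
  have w4b : SemiconjBy ((a * b * c) ^ 4) b b := by
    rw [w4]; exact SemiconjBy.mul_left Cb k6b
  have wb : a * b * c * b = c * (a * b * c) := by
    calc a * b * c * b = a * (b * c * b) := by group
      _ = a * (c * b * c) := by rw [h2]
      _ = (a * c) * b * c := by group
      _ = (c * a) * b * c := by rw [h3]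
      _ = c * (a * b * c) := by group
  have w4c : SemiconjBy ((a * b * c) ^ 4) c c := by
    have e1 : c = (a * b * c) * b * (a * b * c)⁻¹ := by
      rw [eq_mul_inv_iff_mul_eq, wb]
    have e2 : Commute ((a * b * c) ^ 4) (a * b * c) := (Commute.refl _).pow_left 4
    have e3 : Commute ((a * b * c) ^ 4) ((a * b * c) * b * (a * b * c)⁻¹) :=
      (e2.mul_right w4b).mul_right e2.inv_right
    rw [← e1] at e3
    exact e3
  refine ⟨?_, ?_, ?_, ?_, h4, ?_, ca, cb, ?_, k6a, k6b, w4a, w4b, w4c⟩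
  · rw [r1.eq]; group
  · rw [r3.eq]; group
  · rw [r2.eq]; group
  · rw [r4.eq]; group
  · rw [r5.eq]; group
  · rw [w4]; group

end Pool.Agent.PP.SO.H97
end -- Pool.Agent.Helper97_ASO.BRD
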