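import Pool.Agent.Helper12_AWB.B232
import Pool.Agent.Helper12_AWB.B268

/-!
# Merged copies (generated) of the modules

* `Pool.Agent.Helper17_ASD.LAD`
* `Pool.Agent.Helper63_ASE.LMN`
* `Pool.Agent.Helper13_ASE.FWD`
* `Pool.Agent.Helper79_ASE.FRI`
-/

set_option autoImplicit false

section -- Pool.Agent.Helper17_ASD.LAD

/-!
# Row LAD of the squad ASD: integrality of the total sum

Adaptation of `Helper10_ASO/LAC.lean` (helper10), whose general lemmas are used.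
-/

open scoped BigOperators

noncomputable section

namespace Pool.Agent.PP.SD.H17

open Pool.Agent.Helper51_AWC Pool.Agent.Helper79_WRA Pool.Agent.PP Pool.Agent.PP.KF
open Pool.Agent.PP.K9 Pool.Agent.PP.K9.H97 Pool.Agent.PP.H75 Pool.Agent.PP.T3
open Pool.Agent.PP.SO Pool.Agent.PP.SD
open Pool.Agent.PP.SO.H10L (C_top bh_conj bh_supp Yg Yg_left Yg_right rl_mem mem_C c_mem)

attribute [local instance] Ideal.Quotient.field

/-! ### the weights -/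

section wts

variable {V₀ G : Type} [CommGroup V₀] [Group G] [Finite G] {M : Ideal (integralClosure ℤ ℂ)}
  [M.IsMaximal]

theorem bh_sing (ℓ : ℕ) [Fact ℓ.Prime] (hM : (ℓ : integralClosure ℤ ℂ) ∈ M)
    {E₀ : Subgroup (MulAut V₀)} {B : Bk (FF M) V₀ G} (hB : Sb ℓ M E₀ B) (W : Subgroup V₀) (s : G)
    (hs : ¬ Reg ℓ s) : bh B W s = 0 := by
  classical
  have := Fintype.ofFinite (B.C W)
  unfold bh PP.ext0
  by_cases h : s ∈ B.C W
  · rw [dif_pos h]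
    refine K9.H25.eh_sing wbo_ ℓ M hM (fun t : B.C W => B.b W t) (hB.lb W).blk.blk.1 ⟨s, h⟩ ?_
    intro h1
    apply hs
    have h2 : orderOf (⟨s, h⟩ : B.C W) = orderOf s := by
      rw [← Subgroup.orderOf_coe]
    have h3 : (orderOf (⟨s, h⟩ : B.C W)).Coprime ℓ := h1
    show (orderOf s).Coprime ℓ
    rw [← h2]
    exact h3
  · rw [dif_neg h]

theorem wt_conj (E₀ : Subgroup (MulAut V₀)) (B : Bk (FF M) V₀ G) (c : V₀) (f : Bool) (z : G) (hz : z ∈ B.C (frm c f)) (s : G) :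
    wtD E₀ B c f (z * s * z⁻¹) = wtD E₀ B c f s := by
  unfold wtD
  cases f with
  | true =>
    have hz' : z ∈ B.C ⊤ := hz
    simp only [if_true]
    rw [bh_conj B ⊤ z hz']
  | false =>
    have hz' : z ∈ B.C (Subgroup.zpowers c) := hz
    simp only [Bool.false_eq_true, if_false]
    rw [bh_conj B _ z hz']
    congr 3
    rw [← finsum_comp_equiv (Equiv.mulLeft (⟨z, hz'⟩ : B.C (Subgroup.zpowers c)))]
    apply finsum_congr
    intro y
    congr 1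
    show ((z * (y : G) : G))⁻¹ * (z * s * z⁻¹) * (z * (y : G)) = _
    group

theorem wt_supp (E₀ : Subgroup (MulAut V₀)) (B : Bk (FF M) V₀ G) (c : V₀) (f : Bool) (s : G) (hs : s ∉ B.C (frm c f)) :
    wtD E₀ B c f s = 0 := by
  unfold wtD
  cases f with
  | true =>
    have hs' : s ∉ B.C ⊤ := hs
    simp only [if_true]
    rw [bh_supp B ⊤ s hs', mul_zero]
  | false =>
    have hs' : s ∉ B.C (Subgroup.zpowers c) := hs
    simp only [Bool.false_eq_true, if_false]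
    rw [bh_supp B _ s hs']
    have h1 : ∀ z : B.C (Subgroup.zpowers c), bh B ⊤ ((z : G)⁻¹ * s * z) = 0 := by
      intro z
      apply bh_supp
      intro h
      apply hs'
      have h2 := C_top B (Subgroup.zpowers c) h
      have h3 := (B.C (Subgroup.zpowers c)).mul_mem ((B.C (Subgroup.zpowers c)).mul_mem z.2 h2)
        ((B.C (Subgroup.zpowers c)).inv_mem z.2)
      have e : (z : G) * ((z : G)⁻¹ * s * z) * (z : G)⁻¹ = s := by group
      rwa [e] at h3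
    simp only [h1, finsum_zero, mul_zero, sub_zero]

theorem wt_sing (ℓ : ℕ) [Fact ℓ.Prime] (hM : (ℓ : integralClosure ℤ ℂ) ∈ M)
    {E₀ : Subgroup (MulAut V₀)} {B : Bk (FF M) V₀ G} (hB : Sb ℓ M E₀ B) (c : V₀) (f : Bool) (s : G)
    (hs : ¬ Reg ℓ s) : wtD E₀ B c f s = 0 := by
  unfold wtD
  cases f with
  | true =>
    simp only [if_true]
    rw [bh_sing ℓ hM hB ⊤ s hs, mul_zero]
  | false =>
    simp only [Bool.false_eq_true, if_false]
    rw [bh_sing ℓ hM hB _ s hs]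
    have h1 : ∀ z : B.C (Subgroup.zpowers c), bh B ⊤ ((z : G)⁻¹ * s * z) = 0 := by
      intro z
      apply bh_sing ℓ hM hB
      intro h
      apply hs
      unfold Reg at h ⊢
      have e : orderOf ((z : G)⁻¹ * s * z) = orderOf s := by
        have h2 := (MulAut.conj (z : G)⁻¹).orderOf_eq s
        rwa [MulAut.conj_apply, inv_inv] at h2
      rwa [e] at h
    simp only [h1, finsum_zero, mul_zero, sub_zero]

end wts

/-- Row LAD. -/
theorem lad (hC : CndStmt) : LadStmt := by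
  classical
  intro ℓ _ M _ hM hℓ V₀ G _ _ _ _ E₀ hF B hB n m c d hc hd F₁₃ F₁₂ hR
  have : Fintype G := Fintype.ofFinite G
  unfold TSD
  apply Subring.sum_mem
  intro f _
  apply Subring.sum_mem
  intro f' _
  rw [finsum_eq_sum_of_fintype, Fintype.sum_prod_type]
  -- abbreviations
  obtain ⟨P, hP⟩ : ∃ P, P = frm c f := ⟨_, rfl⟩
  obtain ⟨Q, hQ⟩ : ∃ Q, Q = frm d f' := ⟨_, rfl⟩
  have hcP : c ∈ P := hP ▸ c_mem c f
  have hdQ : d ∈ Q := hQ ▸ c_mem d f'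
  obtain ⟨Y, hY⟩ : ∃ Y : G → G → ℚ, Y = fun s t => Yg n m B.i P Q F₁₃ F₁₂ (B.i c * s) (B.i d * t) :=
    ⟨_, rfl⟩
  have hgoal : ∀ s t : G, ((∑ᶠ z : XX (B.i c * s) (B.i d * t),
      (F₁₃ (t13 n m B.i (frm c f) (frm d f') (B.i c * s) z.1.1 z.1.2.1 z.1.2.2) +
        F₁₂ (t12 n m B.i (frm c f) (frm d f') z.1.1 z.1.2.1 z.1.2.2)) : ℚ) : ℂ) =
      ((Y s t : ℚ) : ℂ) := by
    intro s t
    rw [hY, hP, hQ]
    rfl
  simp only [hgoal]
  have hYl : ∀ z ∈ B.C P, ∀ s t, Y (z * s * z⁻¹) t = Y s t := by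
    intro z hz s t
    have h1 := mem_C B P z hz
    rw [hY]
    show Yg n m B.i P Q F₁₃ F₁₂ (B.i c * (z * s * z⁻¹)) (B.i d * t) = _
    have e : B.i c * (z * s * z⁻¹) = z * (B.i c * s) * z⁻¹ := by
      calc B.i c * (z * s * z⁻¹) = (B.i c * z) * s * z⁻¹ := by group
        _ = (z * B.i c) * s * z⁻¹ := by rw [h1 c hcP]
        _ = z * (B.i c * s) * z⁻¹ := by group
    rw [e]
    exact Yg_left P Q F₁₃ F₁₂ _ _ z h1
  have hYr : ∀ z ∈ B.C Q, ∀ s t, Y s (z * t * z⁻¹) = Y s t := by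
    intro z hz s t
    have h1 := mem_C B Q z hz
    rw [hY]
    show Yg n m B.i P Q F₁₃ F₁₂ (B.i c * s) (B.i d * (z * t * z⁻¹)) = _
    have e : B.i d * (z * t * z⁻¹) = z * (B.i d * t) * z⁻¹ := by
      calc B.i d * (z * t * z⁻¹) = (B.i d * z) * t * z⁻¹ := by group
        _ = (z * B.i d) * t * z⁻¹ := by rw [h1 d hdQ]
        _ = z * (B.i d * t) * z⁻¹ := by group
    rw [e]
    exact Yg_right P Q F₁₃ F₁₂ _ _ z h1
  have hYv : ∀ s ∈ B.C P, ∀ t ∈ B.C Q, Reg ℓ s → Reg ℓ t →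
      ∃ x ∈ SOR.Rl ℓ, Y s t = Nat.card P * Nat.card Q * x := by
    intro s hs t ht hrs hrt
    obtain ⟨x, hx, h⟩ := hR P Q hcP hdQ s t hrs hrt (fun p hp => (mem_C B P s hs p hp).symm)
      (fun q hq => (mem_C B Q t ht q hq).symm)
    refine ⟨x, hx, ?_⟩
    rw [hY]
    exact h
  have hPc : (Nat.card P : ℂ) ≠ 0 := by
    have h : 0 < Nat.card P := Nat.card_pos
    exact_mod_cast h.ne'
  -- the inner sums
  have hin : ∀ s ∈ B.C P, Reg ℓ s → ∑ t, wtD E₀ B d f' t * ((Y s t : ℂ) / Nat.card P) ∈ RM M := by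
    intro s hs hrs
    refine Pool.Agent.PP.SO.H10L.csum (RM M) (B.C Q) (fun t => wtD E₀ B d f' t * ((Y s t : ℂ) / Nat.card P)) ?_ ?_
    · intro z hz t
      have hz' : z ∈ B.C (frm d f') := hQ ▸ hz
      show wtD E₀ B d f' (z * t * z⁻¹) * ((Y s (z * t * z⁻¹) : ℂ) / Nat.card P) = _
      rw [wt_conj E₀ B d f' z hz' t, hYr z hz s t]
    · intro t
      by_cases ht : t ∈ B.C Q
      · by_cases hrt : Reg ℓ t
        · obtain ⟨x, hx, h⟩ := hYv s hs t ht hrs hrt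
          have h1 := hC ℓ M hM hℓ V₀ G E₀ hF B hB d hd f' t (hQ ▸ ht)
          rw [← hQ] at h1
          have h2 := (RM M).mul_mem h1 (rl_mem ℓ hM hx)
          have e : (Nat.card (B.C Q) : ℂ) * (wtD E₀ B d f' t * ((Y s t : ℂ) / Nat.card P)) /
              Nat.card (B.C Q ⊓ Cu t : Subgroup G) =
              (Nat.card Q : ℂ) * (Nat.card (B.C Q) * wtD E₀ B d f' t) /
                Nat.card (B.C Q ⊓ Cu t : Subgroup G) * ((x : ℚ) : ℂ) := by
            rw [h]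
            push_cast
            field_simp
          show (Nat.card (B.C Q) : ℂ) * (wtD E₀ B d f' t * ((Y s t : ℂ) / Nat.card P)) /
              Nat.card (B.C Q ⊓ Cu t : Subgroup G) ∈ RM M
          rw [e]
          exact h2
        · show (Nat.card (B.C Q) : ℂ) * (wtD E₀ B d f' t * ((Y s t : ℂ) / Nat.card P)) /
              Nat.card (B.C Q ⊓ Cu t : Subgroup G) ∈ RM M
          rw [wt_sing ℓ hM hB.toSb d f' t hrt, zero_mul, mul_zero, zero_div]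
          exact (RM M).zero_mem
      · show (Nat.card (B.C Q) : ℂ) * (wtD E₀ B d f' t * ((Y s t : ℂ) / Nat.card P)) /
              Nat.card (B.C Q ⊓ Cu t : Subgroup G) ∈ RM M
        rw [wt_supp E₀ B d f' t (hQ ▸ ht), zero_mul, mul_zero, zero_div]
        exact (RM M).zero_mem
  -- the outer sum
  have hs0 : ∑ s, ∑ t, wtD E₀ B c f s * wtD E₀ B d f' t * (Y s t : ℂ) =
      ∑ s, wtD E₀ B c f s * ∑ t, wtD E₀ B d f' t * (Y s t : ℂ) := by
    refine Finset.sum_congr rfl fun s _ => ?_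
    rw [Finset.mul_sum]
    exact Finset.sum_congr rfl fun t _ => by ring
  rw [hs0]
  refine Pool.Agent.PP.SO.H10L.csum (RM M) (B.C P) (fun s => wtD E₀ B c f s * ∑ t, wtD E₀ B d f' t * (Y s t : ℂ)) ?_ ?_
  · intro z hz s
    have hz' : z ∈ B.C (frm c f) := hP ▸ hz
    show wtD E₀ B c f (z * s * z⁻¹) * ∑ t, wtD E₀ B d f' t * (Y (z * s * z⁻¹) t : ℂ) = _
    rw [wt_conj E₀ B c f z hz' s]
    simp only [hYl z hz]
  · intro s
    show (Nat.card (B.C P) : ℂ) * (wtD E₀ B c f s * ∑ t, wtD E₀ B d f' t * (Y s t : ℂ)) /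
      Nat.card (B.C P ⊓ Cu s : Subgroup G) ∈ RM M
    by_cases hs : s ∈ B.C P
    · by_cases hrs : Reg ℓ s
      · have h1 := hC ℓ M hM hℓ V₀ G E₀ hF B hB c hc f s (hP ▸ hs)
        rw [← hP] at h1
        have h2 := (RM M).mul_mem h1 (hin s hs hrs)
        have e0 : ∑ t, wtD E₀ B d f' t * (Y s t : ℂ) =
            Nat.card P * ∑ t, wtD E₀ B d f' t * ((Y s t : ℂ) / Nat.card P) := by
          rw [Finset.mul_sum]
          refine Finset.sum_congr rfl fun t _ => ?_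
          field_simp
        have e : (Nat.card (B.C P) : ℂ) * (wtD E₀ B c f s * ∑ t, wtD E₀ B d f' t * (Y s t : ℂ)) /
            Nat.card (B.C P ⊓ Cu s : Subgroup G) =
            (Nat.card P : ℂ) * (Nat.card (B.C P) * wtD E₀ B c f s) /
              Nat.card (B.C P ⊓ Cu s : Subgroup G) *
              ∑ t, wtD E₀ B d f' t * ((Y s t : ℂ) / Nat.card P) := by
          rw [e0]
          ring
        rw [e]
        exact h2
      · rw [wt_sing ℓ hM hB.toSb c f s hrs, zero_mul, mul_zero, zero_div]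
        exact (RM M).zero_mem
    · rw [wt_supp E₀ B c f s (hP ▸ hs), zero_mul, mul_zero, zero_div]
      exact (RM M).zero_mem

end Pool.Agent.PP.SD.H17
end
end -- Pool.Agent.Helper17_ASD.LAD

section -- Pool.Agent.Helper63_ASE.LMN

open scoped BigOperators

noncomputable section

namespace Pool.Agent.PP.SE.H63

open Pool.Agent.Helper51_AWC Pool.Agent.Helper79_WRA Pool.Agent.PP Pool.Agent.PP.KF
open Pool.Agent.PP.K9 Pool.Agent.PP.K9.H97 Pool.Agent.PP.H75 Pool.Agent.PP.T3 Pool.Agent.PP.SO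
open Pool.Agent.PP.SD
open Pool.Agent.PP.SO.H10L (mem_C c_mem)

attribute [local instance] Ideal.Quotient.field

section aux

variable {V₀ G : Type} [CommGroup V₀] [Finite V₀] [Group G] [Finite G]
  {M : Ideal (integralClosure ℤ ℂ)} [M.IsMaximal]

/-! The next two lemmas are copied from `Helper72_ASD/LBX.lean` (helper72). -/

theorem sup_top {ℓ : ℕ} (hℓ : ℓ.Prime) {E₀ : Subgroup (MulAut V₀)} (hFr : Fq ℓ V₀ E₀) {c : V₀}
    (hc : c ≠ 1) {P : Subgroup V₀} (hP : ¬ P ≤ Subgroup.zpowers c) :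
    P ⊔ Subgroup.zpowers c = ⊤ := by
  have : Fact ℓ.Prime := ⟨hℓ⟩
  have ho : orderOf c = ℓ := orderOf_eq_prime (hFr.ex c) hc
  have h1 : Nat.card (Subgroup.zpowers c) = ℓ := by rw [Nat.card_zpowers, ho]
  have h2 : Subgroup.zpowers c < P ⊔ Subgroup.zpowers c := by
    refine lt_of_le_of_ne le_sup_right fun h => hP ?_
    rw [h]
    exact le_sup_left
  have h3 : Nat.card (Subgroup.zpowers c) ∣ Nat.card (P ⊔ Subgroup.zpowers c : Subgroup V₀) :=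
    Subgroup.card_dvd_of_le h2.le
  have h4 : Nat.card (P ⊔ Subgroup.zpowers c : Subgroup V₀) ∣ ℓ ^ 2 := by
    rw [← hFr.cd]
    exact Subgroup.card_subgroup_dvd_card _
  obtain ⟨k, hk, hk2⟩ := (Nat.dvd_prime_pow hℓ).1 h4
  apply Subgroup.eq_top_of_card_eq
  rw [hFr.cd]
  have h5 : k = 2 := by
    have h6 : Nat.card (P ⊔ Subgroup.zpowers c : Subgroup V₀) ≠ ℓ := by
      intro h7
      have h8 := Subgroup.eq_of_le_of_card_ge h2.le (by rw [h7, h1])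
      exact h2.ne h8
    interval_cases k
    · exfalso
      rw [hk2, pow_zero, h1] at h3
      exact hℓ.one_lt.ne' (Nat.dvd_one.1 h3)
    · exfalso
      rw [hk2, pow_one] at h6
      exact h6 rfl
    · rfl
  rw [hk2, h5]

open Classical in
/-- the key lemma for one variable -/
theorem one_var {ℓ : ℕ} (hℓ : ℓ.Prime) {E₀ : Subgroup (MulAut V₀)} (hFr : Fq ℓ V₀ E₀)
    (B : Bk (FF M) V₀ G) [Fintype G] {c : V₀} (hc : c ≠ 1) (P : Subgroup V₀) (Y : G → ℂ)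
    (hY : P ≤ Subgroup.zpowers c → ∀ z ∈ B.C (Subgroup.zpowers c), ∀ s, Y (z * s * z⁻¹) = Y s) :
    ∑ f : Bool, (if P ≤ frm c f then ∑ s, wtD E₀ B c f s * Y s else 0) =
      ((kf E₀ P c : ℚ) : ℂ) * ((Nat.card (B.C (P ⊔ Subgroup.zpowers c)) : ℂ)⁻¹ *
        ∑ s, bh B (P ⊔ Subgroup.zpowers c) s * Y s) := by
  rw [Fintype.sum_bool]
  have ht : P ≤ frm c true := by
    show P ≤ (⊤ : Subgroup V₀)
    exact le_top
  rw [if_pos ht]
  have hwt : ∀ s, wtD E₀ B c true s = ((kE E₀ c : ℂ) * Nat.card (B.C ⊤))⁻¹ * bh B ⊤ s :=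
    fun s => rfl
  by_cases hP : P ≤ Subgroup.zpowers c
  · have hf : P ≤ frm c false := hP
    have hk : kf E₀ P c = 1 := by
      unfold kf
      rw [if_pos hP]
    rw [if_pos hf, sup_eq_right.2 hP, hk, Rat.cast_one, one_mul]
    have := Fintype.ofFinite (B.C (Subgroup.zpowers c))
    have hwf : ∀ s, wtD E₀ B c false s = (Nat.card (B.C (Subgroup.zpowers c)) : ℂ)⁻¹ *
        (bh B (Subgroup.zpowers c) s - ((kE E₀ c : ℂ) * Nat.card (B.C ⊤))⁻¹ *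
          ∑ z : B.C (Subgroup.zpowers c), bh B ⊤ ((z : G)⁻¹ * s * z)) := by
      intro s
      rw [← finsum_eq_sum_of_fintype]
      rfl
    have h1 : ∑ s, (∑ z : B.C (Subgroup.zpowers c), bh B ⊤ ((z : G)⁻¹ * s * z)) * Y s =
        Nat.card (B.C (Subgroup.zpowers c)) * ∑ s, bh B ⊤ s * Y s := by
      simp only [Finset.sum_mul]
      rw [Finset.sum_comm]
      have h2 : ∀ z : B.C (Subgroup.zpowers c), ∑ s, bh B ⊤ ((z : G)⁻¹ * s * z) * Y s =
          ∑ s, bh B ⊤ s * Y s := by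
        intro z
        rw [← Equiv.sum_comp (MulAut.conj (z : G)).toEquiv]
        refine Finset.sum_congr rfl fun s _ => ?_
        have e1 : (MulAut.conj (z : G)).toEquiv s = z * s * (z : G)⁻¹ := rfl
        rw [e1, hY hP z z.2]
        have e2 : (z : G)⁻¹ * (z * s * (z : G)⁻¹) * z = s := by group
        rw [e2]
      rw [Finset.sum_congr rfl fun z _ => h2 z, Finset.sum_const, nsmul_eq_mul, Finset.card_univ,
        Nat.card_eq_fintype_card]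
    have h3 : (Nat.card (B.C (Subgroup.zpowers c)) : ℂ) ≠ 0 := by
      exact_mod_cast Nat.card_pos.ne'
    obtain ⟨K, hK⟩ : ∃ K : ℂ, K = ((kE E₀ c : ℂ) * Nat.card (B.C ⊤))⁻¹ := ⟨_, rfl⟩
    rw [← hK] at hwf hwt
    have h4 : ∑ s, wtD E₀ B c false s * Y s = (Nat.card (B.C (Subgroup.zpowers c)) : ℂ)⁻¹ *
        (∑ s, bh B (Subgroup.zpowers c) s * Y s) - K *
          ∑ s, bh B ⊤ s * Y s := by
      have h5 : ∀ s, wtD E₀ B c false s * Y s = (Nat.card (B.C (Subgroup.zpowers c)) : ℂ)⁻¹ *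
          (bh B (Subgroup.zpowers c) s * Y s) - (Nat.card (B.C (Subgroup.zpowers c)) : ℂ)⁻¹ *
          K *
          ((∑ z : B.C (Subgroup.zpowers c), bh B ⊤ ((z : G)⁻¹ * s * z)) * Y s) := by
        intro s
        rw [hwf]
        ring
      rw [Finset.sum_congr rfl fun s _ => h5 s, Finset.sum_sub_distrib, ← Finset.mul_sum,
        ← Finset.mul_sum, h1]
      field_simp
    have h6 : ∑ s, wtD E₀ B c true s * Y s = K * ∑ s, bh B ⊤ s * Y s := by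
      rw [Finset.mul_sum]
      refine Finset.sum_congr rfl fun s _ => ?_
      rw [hwt]
      ring
    rw [h4, h6]
    ring
  · have hf : ¬ P ≤ frm c false := hP
    have hk : ((kf E₀ P c : ℚ) : ℂ) = (kE E₀ c : ℂ)⁻¹ := by
      unfold kf
      rw [if_neg hP]
      push_cast
      rfl
    rw [if_neg hf, add_zero, sup_top hℓ hFr hc hP, hk, Finset.mul_sum, Finset.mul_sum]
    refine Finset.sum_congr rfl fun s _ => ?_
    rw [hwt, mul_inv]
    ring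

/-- the frames of `mnl` -/
theorem frm_lmn (cnd : SD.CndStmt) (ℓ : ℕ) [Fact ℓ.Prime] (hM : (ℓ : integralClosure ℤ ℂ) ∈ M)
    (hℓ : ℓ ≠ 2) (E₀ : Subgroup (MulAut V₀)) (hF : Fq ℓ V₀ E₀) (B : Bk (FF M) V₀ G)
    (hB : Sd ℓ M E₀ B) (c : V₀) (hc : c ≠ 1) (f : Bool) :
    Frm ℓ B (frm c f) c (fun s => (kE E₀ c : ℂ) * wtD E₀ B c f s) where
  mem := c_mem c f
  sup s hs := by
    show (kE E₀ c : ℂ) * wtD E₀ B c f s = 0
    rw [SD.H17.wt_supp E₀ B c f s hs, mul_zero]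
  reg s hs := by
    show (kE E₀ c : ℂ) * wtD E₀ B c f s = 0
    rw [SD.H17.wt_sing ℓ hM hB.toSb c f s hs, mul_zero]
  cls z hz s := by
    show (kE E₀ c : ℂ) * wtD E₀ B c f (z * s * z⁻¹) = (kE E₀ c : ℂ) * wtD E₀ B c f s
    rw [SD.H17.wt_conj E₀ B c f z hz s]
  int s hs := by
    have h1 := cnd ℓ M hM hℓ V₀ G E₀ hF B hB c hc f s hs
    have h2 : ((kE E₀ c : ℕ) : ℂ) ∈ RM M := natCast_mem (RM M) _
    have h3 := (RM M).mul_mem h2 h1
    have e : (Nat.card (frm c f) : ℂ) * (Nat.card (B.C (frm c f)) *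
        ((kE E₀ c : ℂ) * wtD E₀ B c f s)) / Nat.card (B.C (frm c f) ⊓ Cu s : Subgroup G) =
        (kE E₀ c : ℂ) * ((Nat.card (frm c f) : ℂ) * (Nat.card (B.C (frm c f)) *
        wtD E₀ B c f s) / Nat.card (B.C (frm c f) ⊓ Cu s : Subgroup G)) := by ring
    show (Nat.card (frm c f) : ℂ) * (Nat.card (B.C (frm c f)) *
        ((kE E₀ c : ℂ) * wtD E₀ B c f s)) / Nat.card (B.C (frm c f) ⊓ Cu s : Subgroup G) ∈ RM M
    rw [e]
    exact h3

theorem sum_fc [Fintype G] (B : Bk (FF M) V₀ G) (W : Subgroup V₀) (c : V₀) (N : G → ℂ)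
    (hN : ∀ z ∈ B.C W, ∀ g, N (z * g * z⁻¹) = N g) :
    (Nat.card (B.C W) : ℂ)⁻¹ * ∑ g, fc B W c g * N g =
      (Nat.card (B.C (W ⊔ Subgroup.zpowers c)) : ℂ)⁻¹ *
        ∑ s, bh B (W ⊔ Subgroup.zpowers c) s * N (B.i c * s) := by
  have := Fintype.ofFinite (B.C W)
  have h1 : ∀ g, fc B W c g = (Nat.card (B.C (W ⊔ Subgroup.zpowers c)) : ℂ)⁻¹ *
      ∑ z : B.C W, bh B (W ⊔ Subgroup.zpowers c) ((B.i c)⁻¹ * ((z : G)⁻¹ * g * z)) := by
    intro g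
    rw [← finsum_eq_sum_of_fintype]
    rfl
  have h2 : ∀ z : B.C W, ∑ g, bh B (W ⊔ Subgroup.zpowers c) ((B.i c)⁻¹ * ((z : G)⁻¹ * g * z)) *
      N g = ∑ s, bh B (W ⊔ Subgroup.zpowers c) s * N (B.i c * s) := by
    intro z
    rw [← Equiv.sum_comp ((Equiv.mulLeft (B.i c)).trans (MulAut.conj (z : G)).toEquiv)]
    refine Finset.sum_congr rfl fun s _ => ?_
    have e1 : ((Equiv.mulLeft (B.i c)).trans (MulAut.conj (z : G)).toEquiv) s =
      z * (B.i c * s) * (z : G)⁻¹ := rfl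
    rw [e1, hN z z.2]
    have e2 : (B.i c)⁻¹ * ((z : G)⁻¹ * (z * (B.i c * s) * (z : G)⁻¹) * z) = s := by group
    rw [e2]
  have h3 : (Nat.card (B.C W) : ℂ) ≠ 0 := by
    exact_mod_cast Nat.card_pos.ne'
  have h4 : ∑ g, fc B W c g * N g = (Nat.card (B.C (W ⊔ Subgroup.zpowers c)) : ℂ)⁻¹ *
      (Nat.card (B.C W) * ∑ s, bh B (W ⊔ Subgroup.zpowers c) s * N (B.i c * s)) := by
    have h5 : ∀ g, fc B W c g * N g = (Nat.card (B.C (W ⊔ Subgroup.zpowers c)) : ℂ)⁻¹ *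
        ∑ z : B.C W, bh B (W ⊔ Subgroup.zpowers c) ((B.i c)⁻¹ * ((z : G)⁻¹ * g * z)) * N g := by
      intro g
      rw [h1, mul_assoc, Finset.sum_mul]
    rw [Finset.sum_congr rfl fun g _ => h5 g, ← Finset.mul_sum, Finset.sum_comm,
      Finset.sum_congr rfl fun z _ => h2 z, Finset.sum_const, nsmul_eq_mul, Finset.card_univ,
      Nat.card_eq_fintype_card (α := B.C W)]
  rw [h4]
  field_simp

end aux

theorem lmn (cnd : SD.CndStmt) : LmnStmt := by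
  intro ℓ _ M _ hM hℓ V₀ G _ _ _ _ E₀ hF B hB c hc
  classical
  refine ⟨2, fun j => frm c (decide (j = 0)),
    fun j s => (kE E₀ c : ℂ) * wtD E₀ B c (decide (j = 0)) s,
    fun j => frm_lmn cnd ℓ hM hℓ E₀ hF B hB c hc _, ?_⟩
  intro W N hN
  have := Fintype.ofFinite G
  have hk : (kE E₀ c : ℂ) ≠ 0 := by
    have : 0 < kE E₀ c := Nat.card_pos
    exact_mod_cast this.ne'
  have hmono : W ≤ Subgroup.zpowers c → B.C (Subgroup.zpowers c) ≤ B.C W := by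
    intro h z hz
    refine Subgroup.mem_centralizer_iff.2 fun y hy => ?_
    obtain ⟨p, hp, rfl⟩ := hy
    exact (mem_C B _ z hz p (h hp)).symm
  have key := one_var (Fact.out : ℓ.Prime) hF B hc W (fun s => N (B.i c * s))
    (fun h z hz s => by
      have hcz := mem_C B _ z hz c (Subgroup.mem_zpowers c)
      have e1 : B.i c * (z * s * z⁻¹) = z * (B.i c * s) * z⁻¹ := by
        rw [← mul_assoc, ← mul_assoc, ← hcz]
        group
      show N (B.i c * (z * s * z⁻¹)) = N (B.i c * s)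
      rw [e1, hN z (hmono h hz)])
  rw [Fintype.sum_bool] at key
  rw [Fin.sum_univ_two]
  have e0 : decide ((0 : Fin 2) = 0) = true := rfl
  have e1 : decide ((1 : Fin 2) = 0) = false := rfl
  have hL : ∀ f : Bool, (if W ≤ frm c f then
      ∑ᶠ s : G, (kE E₀ c : ℂ) * wtD E₀ B c f s * N (B.i c * s) else 0) =
      (kE E₀ c : ℂ) * (if W ≤ frm c f then ∑ s, wtD E₀ B c f s * N (B.i c * s) else 0) := by
    intro f
    by_cases h : W ≤ frm c f
    · rw [if_pos h, if_pos h, finsum_eq_sum_of_fintype, Finset.mul_sum]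
      exact Finset.sum_congr rfl fun s _ => mul_assoc _ _ _
    · rw [if_neg h, if_neg h, mul_zero]
  have hL0 := hL true
  have hL1 := hL false
  have hR : (Nat.card (B.C W) : ℂ)⁻¹ * ∑ᶠ g : G, mnl E₀ B c W g * N g =
      (if W ≤ Subgroup.zpowers c then (kE E₀ c : ℂ) else 1) *
      ((Nat.card (B.C W) : ℂ)⁻¹ * ∑ g, fc B W c g * N g) := by
    rw [finsum_eq_sum_of_fintype, Finset.mul_sum, Finset.mul_sum, Finset.mul_sum]
    refine Finset.sum_congr rfl fun g _ => ?_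
    show _ * ((if W ≤ Subgroup.zpowers c then (kE E₀ c : ℂ) else 1) * fc B W c g * N g) = _
    ring
  show (if W ≤ frm c (decide ((0 : Fin 2) = 0)) then _ else _) +
    (if W ≤ frm c (decide ((1 : Fin 2) = 0)) then _ else _) = _
  rw [hR, sum_fc B W c N hN]
  have hkf : (kE E₀ c : ℂ) * ((kf E₀ W c : ℚ) : ℂ) =
      if W ≤ Subgroup.zpowers c then (kE E₀ c : ℂ) else 1 := by
    unfold kf
    by_cases h : W ≤ Subgroup.zpowers c
    · rw [if_pos h, if_pos h, Rat.cast_one, mul_one]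
    · rw [if_neg h, if_neg h]
      push_cast
      exact mul_inv_cancel₀ hk
  rw [← hkf, mul_assoc, ← key, mul_add]
  exact congrArg₂ (· + ·) hL0 hL1

end Pool.Agent.PP.SE.H63
end
end -- Pool.Agent.Helper63_ASE.LMN

section -- Pool.Agent.Helper13_ASE.FWD

/-!
# Squad ASE, row FWD (helper13): the values of `FWS`
-/

set_option autoImplicit false

open scoped BigOperators

noncomputable section

namespace Pool.Agent.PP.SE.H13

open Pool.Agent.Helper51_AWC Pool.Agent.Helper79_WRA Pool.Agent.PP Pool.Agent.PP.KF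
open Pool.Agent.PP.K9 Pool.Agent.PP.K9.H97 Pool.Agent.PP.H75 Pool.Agent.PP.T3 Pool.Agent.PP.SO
open Pool.Agent.PP.SD

attribute [local instance] Ideal.Quotient.field

theorem fsum_mem {α : Type} [Fintype α] (P : α → Prop) [DecidablePred P] (f : α → ℂ) :
    ∑ᶠ x ∈ {x : α | P x}, f x = ∑ x, if P x then f x else 0 := by
  classical
  rw [finsum_eq_sum_of_fintype]
  refine Finset.sum_congr rfl fun x _ => ?_
  rw [finsum_eq_if]
  rfl

/-- `τ⁻¹ ζ ζ⁻¹` determines `ζ ∈ a` if `τ` does not fix `a` pointwise. -/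
theorem zeta_inj {ℓ : ℕ} [hℓ : Fact ℓ.Prime] {V₀ : Type} [CommGroup V₀] [Finite V₀]
    {E₀ : Subgroup (MulAut V₀)} {τ : MulAut V₀} {a : Subgroup V₀} (ha : Nat.card a = ℓ)
    (hτ : τ ∈ E₀) (hτa : τ ∉ St E₀ a) {ζ ζ' : V₀} (hζ : ζ ∈ a) (hζ' : ζ' ∈ a)
    (h : τ⁻¹ ζ * ζ⁻¹ = τ⁻¹ ζ' * ζ'⁻¹) : ζ = ζ' := by
  by_contra hne
  have h1 : τ⁻¹ (ζ * ζ'⁻¹) = ζ * ζ'⁻¹ := by
    rw [map_mul, map_inv]
    have h2 : τ⁻¹ ζ * (τ⁻¹ ζ')⁻¹ = (τ⁻¹ ζ * ζ⁻¹) * (τ⁻¹ ζ' * ζ'⁻¹)⁻¹ * (ζ * ζ'⁻¹) := by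
      rw [mul_inv, inv_inv]
      calc τ⁻¹ ζ * (τ⁻¹ ζ')⁻¹ = τ⁻¹ ζ * (τ⁻¹ ζ')⁻¹ * (ζ⁻¹ * ζ) * (ζ' * ζ'⁻¹) := by
            rw [inv_mul_cancel, mul_inv_cancel, mul_one, mul_one]
        _ = τ⁻¹ ζ * ζ⁻¹ * ((τ⁻¹ ζ')⁻¹ * ζ') * (ζ * ζ'⁻¹) := by
            simp only [mul_assoc, mul_left_comm, mul_comm]
    rw [h2, h, mul_inv_cancel, one_mul]
  have h3 : ζ * ζ'⁻¹ ≠ 1 := fun h4 => hne (mul_inv_eq_one.1 h4)
  have h4 : ζ * ζ'⁻¹ ∈ a := a.mul_mem hζ (a.inv_mem hζ')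
  obtain ⟨ξ, hξ⟩ : ∃ ξ : V₀, ξ = ζ * ζ'⁻¹ := ⟨_, rfl⟩
  rw [← hξ] at h1 h3 h4
  have h5 : τ ξ = ξ := by
    have h6 := congrArg τ h1
    rw [← MulAut.mul_apply, mul_inv_cancel, MulAut.one_apply] at h6
    exact h6.symm
  refine hτa ⟨hτ, fun w hw => ?_⟩
  -- `a` is generated by `ξ`
  have h6 : Subgroup.zpowers (⟨ξ, h4⟩ : a) = ⊤ :=
    zpowers_eq_top_of_prime_card ha (fun h7 => h3 (congrArg Subtype.val h7))
  have h7 : (⟨w, hw⟩ : a) ∈ Subgroup.zpowers (⟨ξ, h4⟩ : a) := by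
    rw [h6]
    exact Subgroup.mem_top _
  obtain ⟨k, hk⟩ := Subgroup.mem_zpowers_iff.1 h7
  have h8 : ξ ^ k = w := congrArg Subtype.val hk
  rw [← h8, map_zpow, h5]

theorem fwd (fwa : FwaStmt) (fwb : FwbStmt) (brv : BrvStmt) (wta : WtaStmt) (fva : FvaStmt) :
    FwdStmt := by
  intro ℓ hℓ M _ hM h2 V₀ G _ _ _ _ E₀ hq B hB D hD n m hpe ρ₁ ρ₂ x₁ x₂ hρ₁ hρ₂ hx₁ hx₂
    F₁₃ Ψ M₁ M₂ K hFE kc kd a ha κ hκ σ hσ
  classical
  have hfa : Finite (MulAut V₀) :=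
    Finite.of_injective (fun σ : MulAut V₀ => (σ : V₀ → V₀)) DFunLike.coe_injective
  have := Fintype.ofFinite V₀
  have := Fintype.ofFinite (MulAut V₀)
  have hn0 : 0 < n := by
    obtain ⟨r, -, rfl⟩ := hpe.pw
    exact pow_pos hℓ.out.pos r
  have hρ₁1 : ρ₁ 1 = 0 := by
    have h := hρ₁ 1 1
    rw [mul_one] at h
    exact left_eq_add.1 h
  have hx₁1 : x₁ 1 = 0 := (hx₁ 1).2 hρ₁1
  have hρ₂1 : ρ₂ 1 = 0 := by
    have h := hρ₂ 1 1
    rw [mul_one] at h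
    exact left_eq_add.1 h
  obtain ⟨F, hF⟩ : ∃ F : Set (SO.SS n V₀) → ℚ, F = F12 ℓ x₁ x₂ Ψ M₁ M₂ K kc kd := ⟨_, rfl⟩
  obtain ⟨hfv1, hfv2, hfv3, -, -, -⟩ := fva ℓ V₀ hq.ex n ρ₁ ρ₂ hpe.pw hρ₁ hρ₂ x₁ x₂ hx₁ hx₂
    F₁₃ Ψ M₁ M₂ K hFE kc kd
  have hbr := fun (τ : MulAut V₀) (y : V₀) (hτ : τ ∈ E₀) => brv ℓ V₀ E₀ hq n ρ₁ ρ₂ hpe.pw hρ₁ hρ₂
    x₁ x₂ hx₁ hx₂ F₁₃ Ψ M₁ M₂ K hFE kc kd σ τ a κ y ha.1 hσ hτ hκ
  obtain ⟨hw1, -, -⟩ := wta ℓ M hM h2 V₀ G E₀ hq B hB D hD a ha κ hκ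
  have hfwa := fwa ℓ M hM h2 V₀ G E₀ hq B hB D hD n m hpe a ha κ hκ σ hσ F
  rw [← hF] at hfv1 hfv2 hfv3 hbr ⊢
  rw [hfwa]
  obtain ⟨Wt, hWt⟩ : ∃ Wt : MulAut V₀ → V₀ → ℂ, ∀ τ y, Wt τ y = wtE ℓ E₀ B D a κ τ y :=
    ⟨_, fun _ _ => rfl⟩
  obtain ⟨h, hh⟩ : ∃ h : ℂ, h = ((x₁ kc⁻¹ * x₂ kd⁻¹ - x₁ κ⁻¹ * x₂ (σ⁻¹ κ)⁻¹ : ℤ) : ℂ) /
    (ℓ : ℂ) ^ 2 := ⟨_, rfl⟩
  obtain ⟨bf, hbf⟩ : ∃ bf : V₀ → ℂ, ∀ ζ, bf ζ = ((BrF ℓ x₁ x₂ kc kd κ σ ζ : ℚ) : ℂ) :=
    ⟨_, fun _ => rfl⟩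
  -- the first part
  have hP1 : ∑ᶠ w ∈ {w : MulAut V₀ × V₀ | w.1 ∈ E₀}, wtE ℓ E₀ B D a κ w.1 w.2 *
      ((Br F κ (TA σ a κ w.1 w.2) : ℚ) : ℂ) =
      ∑ᶠ ζ ∈ {ζ : V₀ | ζ ∈ a ∧ ζ ≠ 1}, LW ℓ E₀ B D a κ ζ * bf ζ - h * SE1 B D a κ := by
    rw [← hw1, fsum_mem, fsum_mem, fsum_mem, Fintype.sum_prod_type, Fintype.sum_prod_type]
    have hLW : ∀ ζ, LW ℓ E₀ B D a κ ζ = ∑ τ, if τ ∈ E₀ ∧ τ ∉ St E₀ a then
        Wt τ (τ⁻¹ ζ * ζ⁻¹) else 0 := by
      intro ζ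
      unfold LW
      rw [fsum_mem]
      refine Finset.sum_congr rfl fun τ _ => ?_
      rw [hWt]
    have hR : ∑ ζ : V₀, (if ζ ∈ a ∧ ζ ≠ 1 then LW ℓ E₀ B D a κ ζ * bf ζ else 0) =
        ∑ τ, ∑ ζ : V₀, if τ ∈ E₀ ∧ τ ∉ St E₀ a then
          (if ζ ∈ a ∧ ζ ≠ 1 then Wt τ (τ⁻¹ ζ * ζ⁻¹) * bf ζ else 0) else 0 := by
      rw [Finset.sum_comm]
      refine Finset.sum_congr rfl fun ζ _ => ?_
      by_cases hζ : ζ ∈ a ∧ ζ ≠ 1
      · simp only [if_pos hζ]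
        rw [hLW, Finset.sum_mul]
        refine Finset.sum_congr rfl fun τ _ => ?_
        by_cases hτ : τ ∈ E₀ ∧ τ ∉ St E₀ a
        · rw [if_pos hτ, if_pos hτ]
        · rw [if_neg hτ, if_neg hτ, zero_mul]
      · simp only [if_neg hζ, ite_self]
        rw [Finset.sum_const_zero]
    rw [hR, Finset.mul_sum, ← Finset.sum_sub_distrib]
    refine Finset.sum_congr rfl fun τ _ => ?_
    rw [Finset.mul_sum, ← Finset.sum_sub_distrib]
    by_cases hτ : τ ∈ E₀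
    · by_cases hτa : τ ∈ St E₀ a
      · refine Finset.sum_congr rfl fun y _ => ?_
        rw [if_pos hτ, if_neg (fun h' => h'.2 hτa), if_pos hτa, (hbr τ y hτ).1 hτa, hh]
        push_cast
        ring
      · have hτ2 : τ ∈ E₀ ∧ τ ∉ St E₀ a := ⟨hτ, hτa⟩
        simp only [if_pos hτ, if_pos hτ2, if_neg hτa, mul_zero, sub_zero]
        -- the values of the alternating sum
        have hv : ∀ y : V₀, ((Br F κ (TA σ a κ τ y) : ℚ) : ℂ) =
            ∑ ζ : V₀, if ζ ∈ a ∧ ζ ≠ 1 then (if y = τ⁻¹ ζ * ζ⁻¹ then bf ζ else 0) else 0 := by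
          intro y
          by_cases hy : ∃ ζ ∈ a, ζ ≠ 1 ∧ y = τ⁻¹ ζ * ζ⁻¹
          · obtain ⟨ζ, hζ, hζ1, hyζ⟩ := hy
            rw [(hbr τ y hτ).2.1 hτa ζ hζ hζ1 hyζ, Finset.sum_eq_single ζ]
            · rw [if_pos ⟨hζ, hζ1⟩, if_pos hyζ, hbf]
            · intro ζ' _ hne
              by_cases hζ' : ζ' ∈ a ∧ ζ' ≠ 1
              · rw [if_pos hζ', if_neg]
                intro hy'
                exact hne (zeta_inj ha.1 hτ hτa hζ'.1 hζ (hy'.symm.trans hyζ))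
              · rw [if_neg hζ']
            · intro h'
              exact absurd (Finset.mem_univ _) h'
          · push Not at hy
            rw [(hbr τ y hτ).2.2 hτa hy, Rat.cast_zero]
            symm
            refine Finset.sum_eq_zero fun ζ _ => ?_
            by_cases hζ : ζ ∈ a ∧ ζ ≠ 1
            · rw [if_pos hζ, if_neg (hy ζ hζ.1 hζ.2)]
            · rw [if_neg hζ]
        have e1 : ∑ y : V₀, wtE ℓ E₀ B D a κ τ y * ((Br F κ (TA σ a κ τ y) : ℚ) : ℂ) =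
            ∑ y : V₀, ∑ ζ : V₀, Wt τ y * (if ζ ∈ a ∧ ζ ≠ 1 then
              (if y = τ⁻¹ ζ * ζ⁻¹ then bf ζ else 0) else 0) := by
          refine Finset.sum_congr rfl fun y _ => ?_
          rw [hv, Finset.mul_sum, ← hWt]
        rw [e1, Finset.sum_comm]
        refine Finset.sum_congr rfl fun ζ _ => ?_
        by_cases hζ : ζ ∈ a ∧ ζ ≠ 1
        · simp only [if_pos hζ]
          rw [Finset.sum_eq_single (τ⁻¹ ζ * ζ⁻¹)]
          · rw [if_pos rfl]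
          · intro y _ hne
            rw [if_neg hne, mul_zero]
          · intro h'
            exact absurd (Finset.mem_univ _) h'
        · simp only [if_neg hζ, mul_zero]
          rw [Finset.sum_const_zero]
    · refine Finset.sum_congr rfl fun y _ => ?_
      rw [if_neg hτ, if_neg (fun h' => hτ h'.1), if_neg (fun h' : τ ∈ St E₀ a => hτ h'.1), mul_zero,
        sub_zero]
  -- the second part
  have hfb := fwb ℓ M hM h2 V₀ G E₀ hq B hB D hD n m hn0 hpe a ha κ hκ σ hσ F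
    ((x₁ kc⁻¹ * x₂ kd⁻¹ : ℤ) / (ℓ : ℚ) ^ 2)
    ((x₁ kc⁻¹ * x₂ kd⁻¹ - x₁ κ⁻¹ * x₂ (σ⁻¹ κ)⁻¹ : ℤ) / (ℓ : ℚ) ^ 2)
    (fun τ hτ hs => hfv2 τ hτ fun s hs' => by
      rw [(hs s hs').1, (hs s hs').2]
      exact ⟨hρ₁1, hρ₂1⟩)
    (fun I hI => hfv3 κ⁻¹ (σ⁻¹ κ)⁻¹ I hI)
  have hP2 : ∑ᶠ L ∈ {L : Set (SO.SS n V₀) | pL L = a ∧ (∀ s ∈ L, σ s.2.2.2 = s.2.2.1) ∧
      ∀ s ∈ L, κ ^ (s.2.1 : ℕ) * s.2.2.1 = 1}, ((mob F L : ℚ) : ℂ) * HX B m a (tk B κ (D.et a)) L =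
      -(((x₁ κ⁻¹ * x₂ (σ⁻¹ κ)⁻¹ : ℤ) : ℂ) / (ℓ : ℂ) ^ 2) * LL B (etl B D a κ ⊥) := by
    by_cases hκ1 : κ = 1
    · rw [hfb.1 hκ1, hκ1, inv_one, hx₁1, zero_mul, Int.cast_zero, zero_div, neg_zero, zero_mul]
    · rw [hfb.2 hκ1]
      congr 1
      push_cast
      ring
  rw [hP1, hP2]
  simp only [hbf]
  rw [hh]
  ring

end Pool.Agent.PP.SE.H13
end
end -- Pool.Agent.Helper13_ASE.FWD

section -- Pool.Agent.Helper79_ASE.FRI

/-!
# Row FRI of the squad ASE: integrality for two frames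
-/

open scoped BigOperators

noncomputable section

namespace Pool.Agent.PP.SE.H79

open Pool.Agent.Helper51_AWC Pool.Agent.Helper79_WRA Pool.Agent.PP Pool.Agent.PP.KF
open Pool.Agent.PP.K9 Pool.Agent.PP.K9.H97 Pool.Agent.PP.H75 Pool.Agent.PP.T3 Pool.Agent.PP.SO
open Pool.Agent.PP.SD Pool.Agent.PP.SE
open Pool.Agent.PP.SO.H10L

attribute [local instance] Ideal.Quotient.field

/-- Row FRI. -/
theorem fri : FriStmt := by
  classical
  intro ℓ _ M _ hM V₀ G _ _ _ _ B n m P Q c d w w' hw hw' F₁₃ F₁₂ hR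
  have : Fintype G := Fintype.ofFinite G
  unfold SFr
  rw [finsum_eq_sum_of_fintype, Fintype.sum_prod_type]
  have hcP : c ∈ P := hw.mem
  have hdQ : d ∈ Q := hw'.mem
  obtain ⟨Y, hY⟩ : ∃ Y : G → G → ℚ, Y = fun s t => Yg n m B.i P Q F₁₃ F₁₂ (B.i c * s) (B.i d * t) :=
    ⟨_, rfl⟩
  have hgoal : ∀ s t : G, ((∑ᶠ z : XX (B.i c * s) (B.i d * t),
      (F₁₃ (t13 n m B.i P Q (B.i c * s) z.1.1 z.1.2.1 z.1.2.2) +
        F₁₂ (t12 n m B.i P Q z.1.1 z.1.2.1 z.1.2.2)) : ℚ) : ℂ) =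
      ((Y s t : ℚ) : ℂ) := by
    intro s t
    rw [hY]
    rfl
  simp only [hgoal]
  have hYl : ∀ z ∈ B.C P, ∀ s t, Y (z * s * z⁻¹) t = Y s t := by
    intro z hz s t
    have h1 := mem_C B P z hz
    rw [hY]
    show Yg n m B.i P Q F₁₃ F₁₂ (B.i c * (z * s * z⁻¹)) (B.i d * t) = _
    have e : B.i c * (z * s * z⁻¹) = z * (B.i c * s) * z⁻¹ := by
      calc B.i c * (z * s * z⁻¹) = (B.i c * z) * s * z⁻¹ := by group
        _ = (z * B.i c) * s * z⁻¹ := by rw [h1 c hcP]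
        _ = z * (B.i c * s) * z⁻¹ := by group
    rw [e]
    exact Yg_left P Q F₁₃ F₁₂ _ _ z h1
  have hYr : ∀ z ∈ B.C Q, ∀ s t, Y s (z * t * z⁻¹) = Y s t := by
    intro z hz s t
    have h1 := mem_C B Q z hz
    rw [hY]
    show Yg n m B.i P Q F₁₃ F₁₂ (B.i c * s) (B.i d * (z * t * z⁻¹)) = _
    have e : B.i d * (z * t * z⁻¹) = z * (B.i d * t) * z⁻¹ := by
      calc B.i d * (z * t * z⁻¹) = (B.i d * z) * t * z⁻¹ := by group
        _ = (z * B.i d) * t * z⁻¹ := by rw [h1 d hdQ]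
        _ = z * (B.i d * t) * z⁻¹ := by group
    rw [e]
    exact Yg_right P Q F₁₃ F₁₂ _ _ z h1
  have hYv : ∀ s ∈ B.C P, ∀ t ∈ B.C Q, Reg ℓ s → Reg ℓ t →
      ∃ x ∈ SOR.Rl ℓ, Y s t = Nat.card P * Nat.card Q * x := by
    intro s hs t ht hrs hrt
    obtain ⟨x, hx, h⟩ := hR P Q hcP hdQ s t hrs hrt (fun p hp => (mem_C B P s hs p hp).symm)
      (fun q hq => (mem_C B Q t ht q hq).symm)
    refine ⟨x, hx, ?_⟩
    rw [hY]
    exact h
  have hPc : (Nat.card P : ℂ) ≠ 0 := by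
    have h : 0 < Nat.card P := Nat.card_pos
    exact_mod_cast h.ne'
  -- the inner sums
  have hin : ∀ s ∈ B.C P, Reg ℓ s → ∑ t, w' t * ((Y s t : ℂ) / Nat.card P) ∈ RM M := by
    intro s hs hrs
    refine Pool.Agent.PP.SO.H10L.csum (RM M) (B.C Q) (fun t => w' t * ((Y s t : ℂ) / Nat.card P)) ?_ ?_
    · intro z hz t
      show w' (z * t * z⁻¹) * ((Y s (z * t * z⁻¹) : ℂ) / Nat.card P) = _
      rw [hw'.cls z hz t, hYr z hz s t]
    · intro t
      show (Nat.card (B.C Q) : ℂ) * (w' t * ((Y s t : ℂ) / Nat.card P)) /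
          Nat.card (B.C Q ⊓ Cu t : Subgroup G) ∈ RM M
      by_cases ht : t ∈ B.C Q
      · by_cases hrt : Reg ℓ t
        · obtain ⟨x, hx, h⟩ := hYv s hs t ht hrs hrt
          have h2 := (RM M).mul_mem (hw'.int t ht) (rl_mem ℓ hM hx)
          have e : (Nat.card (B.C Q) : ℂ) * (w' t * ((Y s t : ℂ) / Nat.card P)) /
              Nat.card (B.C Q ⊓ Cu t : Subgroup G) =
              (Nat.card Q : ℂ) * (Nat.card (B.C Q) * w' t) /
                Nat.card (B.C Q ⊓ Cu t : Subgroup G) * ((x : ℚ) : ℂ) := by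
            rw [h]
            push_cast
            field_simp
          rw [e]
          exact h2
        · rw [hw'.reg t hrt, zero_mul, mul_zero, zero_div]
          exact (RM M).zero_mem
      · rw [hw'.sup t ht, zero_mul, mul_zero, zero_div]
        exact (RM M).zero_mem
  -- the outer sum
  have hs0 : ∑ s, ∑ t, w s * w' t * (Y s t : ℂ) = ∑ s, w s * ∑ t, w' t * (Y s t : ℂ) := by
    refine Finset.sum_congr rfl fun s _ => ?_
    rw [Finset.mul_sum]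
    exact Finset.sum_congr rfl fun t _ => by ring
  rw [hs0]
  refine Pool.Agent.PP.SO.H10L.csum (RM M) (B.C P) (fun s => w s * ∑ t, w' t * (Y s t : ℂ)) ?_ ?_
  · intro z hz s
    show w (z * s * z⁻¹) * ∑ t, w' t * (Y (z * s * z⁻¹) t : ℂ) = _
    rw [hw.cls z hz s]
    simp only [hYl z hz]
  · intro s
    show (Nat.card (B.C P) : ℂ) * (w s * ∑ t, w' t * (Y s t : ℂ)) /
      Nat.card (B.C P ⊓ Cu s : Subgroup G) ∈ RM M
    by_cases hs : s ∈ B.C P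
    · by_cases hrs : Reg ℓ s
      · have h2 := (RM M).mul_mem (hw.int s hs) (hin s hs hrs)
        have e0 : ∑ t, w' t * (Y s t : ℂ) =
            Nat.card P * ∑ t, w' t * ((Y s t : ℂ) / Nat.card P) := by
          rw [Finset.mul_sum]
          refine Finset.sum_congr rfl fun t _ => ?_
          field_simp
        have e : (Nat.card (B.C P) : ℂ) * (w s * ∑ t, w' t * (Y s t : ℂ)) /
            Nat.card (B.C P ⊓ Cu s : Subgroup G) =
            (Nat.card P : ℂ) * (Nat.card (B.C P) * w s) /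
              Nat.card (B.C P ⊓ Cu s : Subgroup G) *
              ∑ t, w' t * ((Y s t : ℂ) / Nat.card P) := by
          rw [e0]
          ring
        rw [e]
        exact h2
      · rw [hw.reg s hrs, zero_mul, mul_zero, zero_div]
        exact (RM M).zero_mem
    · rw [hw.sup s hs, zero_mul, mul_zero, zero_div]
      exact (RM M).zero_mem

end Pool.Agent.PP.SE.H79
end
end -- Pool.Agent.Helper79_ASE.FRI
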