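import Pool.Agent.Helper12_AWB.B181
import Pool.Agent.Helper12_AWB.B268

/-!
# Merged copies (generated) of the modules

* `Pool.Agent.Helper10_AT8.COH`
* `Pool.Agent.Helper3_AT8.SMI`
* `Pool.Agent.Helper62_AT8.PRJ`
* `Pool.Agent.Helper1_AT12.CO2`
-/

set_option autoImplicit false

section -- Pool.Agent.Helper10_AT8.COH

/-!
# Squad AT8, row COH: the coherence theorem (assembly)
-/

open scoped BigOperators

noncomputable section

namespace Pool.Agent.PP.T8.H10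

open Pool.Agent.Helper51_AWC Pool.Agent.Helper79_WRA Pool.Agent.PP Pool.Agent.PP.KF
open Pool.Agent.PP.K9 Pool.Agent.PP.K9.H97 Pool.Agent.PP.H75 Pool.Agent.PP.T3 Pool.Agent.PP.T2

attribute [local instance] Ideal.Quotient.field

variable (M : Ideal (integralClosure ℤ ℂ)) [M.IsMaximal] {G : Type} [Group G] [Finite G]

/-- finite sums of functions of the class `Rv` -/
theorem rv_sum (rva : RvaStmt) (V : Subgroup G) (hab : ∀ a ∈ V, ∀ b ∈ V, a * b = b * a) {ι : Type}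
    (s : Finset ι) (f : ι → G → ℂ) (h : ∀ i ∈ s, Rv M V (f i)) :
    Rv M V (fun x => ∑ i ∈ s, f i x) := by
  classical
  obtain ⟨h1, h2, -⟩ := rva M G V hab
  induction s using Finset.induction_on with
  | empty =>
    have h3 := h1 0 (RM M).zero_mem
    simp only [Finset.sum_empty]
    exact h3
  | insert a s ha ih =>
    have h3 := (h2 (f a) (fun x => ∑ i ∈ s, f i x) (h a (Finset.mem_insert_self _ _))
      (ih fun i hi => h i (Finset.mem_insert_of_mem hi))).1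
    simp only [Finset.sum_insert ha]
    exact h3

/-- conjugation in the normaliser is a bijection of `V` -/
theorem sum_conj (V : Subgroup G) {t : G} (ht : t ∈ Subgroup.normalizer (V : Set G)) (f : G → ℂ) :
    ∑ᶠ v : V, f (t * v * t⁻¹) = ∑ᶠ v : V, f v := by
  have hm : ∀ v : V, t * v * t⁻¹ ∈ V := fun v => (Subgroup.mem_normalizer_iff.1 ht v).1 v.2
  have hm' : ∀ v : V, t⁻¹ * v * t ∈ V := fun v => by
    have := (Subgroup.mem_normalizer_iff.1 (inv_mem ht) v).1 v.2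
    rwa [inv_inv] at this
  let σ : V ≃ V :=
    { toFun := fun v => ⟨t * v * t⁻¹, hm v⟩
      invFun := fun v => ⟨t⁻¹ * v * t, hm' v⟩
      left_inv := fun v => by
        apply Subtype.ext
        show t⁻¹ * (t * v * t⁻¹) * t = v
        group
      right_inv := fun v => by
        apply Subtype.ext
        show t * (t⁻¹ * v * t) * t⁻¹ = v
        group }
  exact finsum_comp_equiv σ (f := fun v : V => f v)

/-- the power map is a bijection of `V` -/
theorem sum_pow (V : Subgroup G) {N : ℕ} (hN : N.Coprime (Nat.card G)) (f : G → ℂ) :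
    ∑ᶠ v : V, f ((v : G) ^ N) = ∑ᶠ v : V, f v := by
  have hN' : N.Coprime (Nat.card V) := hN.coprime_dvd_right (Subgroup.card_subgroup_dvd_card V)
  have h1 := finsum_comp_equiv (powCoprime hN'.symm) (f := fun v : V => f v)
  rw [← h1]
  refine finsum_congr fun v => ?_
  rw [powCoprime_apply, Subgroup.coe_pow]

/-- COH -/
theorem coh (cid : CidStmt) (csq : CsqStmt) (fch : FchStmt) (rva : RvaStmt) (geq : GeqStmt)
    (ser : SerStmt) (dpw : DpwStmt) : CohStmt := by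
  classical
  intro ℓ hℓ M _ hlM hℓ2 G _ _ N gs e V γ b d c ε D χ hχ
  have hab := D.ld.ab
  obtain ⟨rconst, rring, rcard, rval, rconj, rcongr⟩ := rva M G V hab
  by_cases hreg : ∃ u₀, Rg V γ u₀
  swap
  · refine ⟨fun _ => 0, rconst 0 (RM M).zero_mem, fun u hu => absurd ⟨u, hu⟩ hreg,
      fun _ _ _ => rfl⟩
  obtain ⟨u₀, hu₀⟩ := hreg
  obtain ⟨i, hi⟩ := cid ℓ M hlM G e V γ D.ld
  obtain ⟨R, hR⟩ := csq ℓ M hlM hℓ2 G e V γ b d c ε D i hi
  obtain ⟨κ, hκ, hκ1, -⟩ := H50.exists_irr_blk D.ld.gam.blk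
  have hκE : κ ∈ IrrE M (fun t : Subgroup.centralizer (V : Set G) => γ t) := ⟨hκ, hκ1⟩
  have hnz := hi.nz κ hκE
  set ρ := rr M (∑ᶠ t : Subgroup.centralizer (V : Set G), i t * κ t) with hρ
  have := Fintype.ofFinite G
  have := Fintype.ofFinite (Tg V γ ⧸ (Subgroup.centralizer (V : Set G)).subgroupOf (Tg V γ))
  have hfin : (Irr G).Finite := Set.toFinite _
  -- the inertial index
  have hix : ¬ ℓ ∣ ix V γ := H34.inx ℓ M hlM G e D.ld.blk V D.ld.tp hab γ D.ld.gam.supp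
    D.ld.gam.blk D.ld.und
  have hixF : (ix V γ : FF M) ≠ 0 := by
    intro h
    apply hix
    have h1 := (dvd_of_rr (M := M) hℓ.out hlM (n := (ix V γ : ℤ))).1 (by
      rw [(rr_int (M := M) _).2]
      exact_mod_cast h)
    exact_mod_cast h1
  have hix0 : (ix V γ : ℂ) ≠ 0 := by
    intro h
    apply hix
    have h1 : ix V γ = 0 := by exact_mod_cast h
    rw [h1]
    exact dvd_zero _
  have hTN : ∀ q : Tg V γ, (q : G) ∈ Subgroup.normalizer (V : Set G) := fun q => q.2.1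
  -- the functions `fs`
  have hfv : ∀ ψ ∈ Irr G, Rv M V (fun z => fv i z ψ) := by
    intro ψ hψ lam
    obtain ⟨m, hm⟩ := fch M G V hab i hi.ip ψ hψ lam
    rw [hm]
    exact (rr_nat (M := M) m).1
  have hfseq : ∀ ψ : G → ℂ, ∀ z, fs V γ i z ψ =
      ∑ q : Tg V γ ⧸ (Subgroup.centralizer (V : Set G)).subgroupOf (Tg V γ),
        fv i ((q.out : G) * z * (q.out : G)⁻¹) ψ := fun ψ z => by
    unfold fs
    rw [finsum_eq_sum_of_fintype]
  have hfs : ∀ ψ ∈ Irr G, Rv M V (fun z => fs V γ i z ψ) := by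
    intro ψ hψ
    have h1 := rv_sum M rva V hab Finset.univ
      (fun (q : Tg V γ ⧸ (Subgroup.centralizer (V : Set G)).subgroupOf (Tg V γ)) z =>
        fv i ((q.out : G) * z * (q.out : G)⁻¹) ψ)
      (fun q _ => rconj _ (hfv ψ hψ) _ (hTN q.out))
    have h2 : (fun z => fs V γ i z ψ) = fun z =>
        ∑ q : Tg V γ ⧸ (Subgroup.centralizer (V : Set G)).subgroupOf (Tg V γ),
          fv i ((q.out : G) * z * (q.out : G)⁻¹) ψ := funext fun z => hfseq ψ z
    rw [h2]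
    exact h1
  -- the mean values
  have hmean : ∀ ψ ∈ Irr G, ((Nat.card V : ℂ)⁻¹ * ∑ᶠ v : V, fs V γ i v ψ) ∈ RM M := by
    intro ψ hψ
    obtain ⟨m, hm⟩ := fch M G V hab i hi.ip ψ hψ 1
    have h1 : ∑ᶠ v : V, fs V γ i v ψ =
        ∑ q : Tg V γ ⧸ (Subgroup.centralizer (V : Set G)).subgroupOf (Tg V γ),
          ∑ᶠ v : V, fv i v ψ := by
      have := Fintype.ofFinite V
      rw [finsum_eq_sum_of_fintype]
      simp_rw [hfseq]
      rw [Finset.sum_comm]
      refine Finset.sum_congr rfl fun q _ => ?_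
      rw [← sum_conj V (hTN q.out) (fun z => fv i z ψ), finsum_eq_sum_of_fintype]
    have h2 : ∑ᶠ v : V, fv i v ψ * (1 : V →* ℂ) v⁻¹ = ∑ᶠ v : V, fv i v ψ :=
      finsum_congr fun v => by rw [MonoidHom.one_apply, mul_one]
    rw [h2] at hm
    rw [h1, Finset.sum_const, nsmul_eq_mul, mul_left_comm, hm]
    exact (RM M).mul_mem (rr_nat (M := M) _).1 (rr_nat (M := M) _).1
  have hcceq : ∀ z, cc V γ i z = ∑ ψ ∈ hfin.toFinset,
      ((Nat.card V : ℂ)⁻¹ * ∑ᶠ v : V, fs V γ i v ψ) * fs V γ i z ψ := by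
    intro z
    unfold cc
    rw [finsum_mem_eq_finite_toFinset_sum _ hfin]
  have hcc : Rv M V (fun z => cc V γ i z) := by
    have h2 : (fun z => cc V γ i z) = fun z => ∑ ψ ∈ hfin.toFinset,
        ((Nat.card V : ℂ)⁻¹ * ∑ᶠ v : V, fs V γ i v ψ) * fs V γ i z ψ := funext hcceq
    rw [h2]
    refine rv_sum M rva V hab _ _ fun ψ hψ => ?_
    have hψ' := hfin.mem_toFinset.1 hψ
    exact (rring _ _ (rconst _ (hmean ψ hψ')) (hfs ψ hψ')).2
  set g : G → ℂ := fun z => (ix V γ : ℂ)⁻¹ * cc V γ i z with hg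
  have hgR : Rv M V g := (rring _ _ (rconst _ (inv_nat_RM hℓ.out hlM hix)) hcc).2
  -- the integers `R'`
  have hε : ∀ u, Rg V γ u → ε u * ε u = 1 := fun u hu => by
    rcases D.sg u hu with h | h <;> rw [h] <;> norm_num
  set R' : G → ℤ := fun u => ε u * R u with hR'
  have hRρ : ∀ u, Rg V γ u → rr M ((R' u : ℤ) : ℂ) = ix V γ * ρ := by
    intro u hu
    rw [(rr_int (M := M) _).2, ← (hR u hu).2.1 κ hκE]
    rw [hR', mul_comm]
  have hn : ¬ (ℓ : ℤ) ∣ R' u₀ := by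
    intro h
    have h1 := (dvd_of_rr (M := M) hℓ.out hlM (n := R' u₀)).2 h
    rw [hRρ u₀ hu₀] at h1
    exact mul_ne_zero hixF hnz h1
  have hX : ∀ y ∈ {u | Rg V γ u}, y ∈ V ∧ g y = (R' y : ℂ) ^ 2 ∧ (ℓ : ℤ) ∣ R' y - R' u₀ := by
    intro y hy
    have hy' : Rg V γ y := hy
    refine ⟨hy'.1, ?_, ?_⟩
    · have h1 := hε y hy'
      have h2 : (ε y : ℂ) * (ε y : ℂ) = 1 := by exact_mod_cast h1
      rw [hg, hR']
      show (ix V γ : ℂ)⁻¹ * cc V γ i y = ((ε y * R y : ℤ) : ℂ) ^ 2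
      rw [(hR y hy').2.2, inv_mul_cancel_left₀ hix0]
      push_cast
      rw [mul_pow, pow_two (ε y : ℂ), h2, one_mul]
    · refine (dvd_of_rr (M := M) hℓ.out hlM).1 ?_
      push_cast
      rw [rr_sub (M := M) (rr_int (M := M) _).1 (rr_int (M := M) _).1, hRρ y hy', hRρ u₀ hu₀,
        sub_self]
  obtain ⟨s, hsR, hs1, hs2⟩ := ser ℓ M hlM hℓ2 G V D.ld.tp.pg hab g hgR {u | Rg V γ u} R' (R' u₀)
    hn hX
  refine ⟨fun z => fs V γ i z χ * s z, (rring _ _ (hfs χ hχ) hsR).2, fun u hu => ?_, ?_⟩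
  · have h1 := hs1 u hu
    have h2 : (ε u : ℂ) * (ε u : ℂ) = 1 := by exact_mod_cast hε u hu
    have h3 : s u * R u = ε u := by
      have h4 : s u * ((ε u : ℂ) * R u) = 1 := by
        rw [← h1, hR']
        push_cast
        rfl
      calc s u * R u = ((ε u : ℂ) * ε u) * (s u * R u) := by rw [h2, one_mul]
        _ = ε u * (s u * ((ε u : ℂ) * R u)) := by ring
        _ = ε u := by rw [h4, mul_one]
    show fs V γ i u χ * s u = _
    rw [(hR u hu).1 χ hχ, ← h3]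
    ring
  -- the power map
  · intro hχN v hv
    have hpw : ∀ ψ ∈ Irr G, ∀ z ∈ V, fs V γ i (z ^ N) ψ = fs V γ i z (fun g => ψ (g ^ N)) := by
      intro ψ hψ z hz
      rw [hfseq, hfseq]
      refine Finset.sum_congr rfl fun q _ => ?_
      have h1 : (q.out : G) * z ^ N * (q.out : G)⁻¹ = ((q.out : G) * z * (q.out : G)⁻¹) ^ N :=
        conj_pow.symm
      rw [h1]
      exact geq ℓ M hlM G N gs V D.ld.tp.pg hab i hi.ip ψ hψ _
        ((Subgroup.mem_normalizer_iff.1 (hTN q.out) z).1 hz)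
    have hchi : (fun g => χ (g ^ N)) = χ := funext hχN
    have hgN : ∀ v ∈ V, g (v ^ N) = g v := by
      intro v hv
      rw [hg]
      show (ix V γ : ℂ)⁻¹ * cc V γ i (v ^ N) = (ix V γ : ℂ)⁻¹ * cc V γ i v
      rw [hcceq, hcceq]
      congr 1
      have hinj : Set.InjOn (fun (ψ : G → ℂ) (g : G) => ψ (g ^ N)) (Irr G) := by
        intro ψ₁ _ ψ₂ _ h
        funext x
        obtain ⟨y, hy⟩ := (H23.pow_bij gs.cop).2 x
        have h1 := congrFun h y
        have hy' : y ^ N = x := hy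
        simp only [hy'] at h1
        exact h1
      have hmaps : ∀ ψ ∈ hfin.toFinset, (fun g : G => ψ (g ^ N)) ∈ hfin.toFinset := fun ψ hψ =>
        hfin.mem_toFinset.2 (H23.irr_pow ada_ gs.cop (hfin.mem_toFinset.1 hψ))
      have himg : hfin.toFinset.image (fun (ψ : G → ℂ) (g : G) => ψ (g ^ N)) = hfin.toFinset := by
        refine Finset.eq_of_subset_of_card_le ?_ ?_
        · intro ψ hψ
          obtain ⟨ψ', h1, h2⟩ := Finset.mem_image.1 hψ
          rw [← h2]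
          exact hmaps ψ' h1
        · rw [Finset.card_image_of_injOn]
          intro a ha b hb h
          exact hinj (hfin.mem_toFinset.1 ha) (hfin.mem_toFinset.1 hb) h
      have h3 : ∑ ψ ∈ hfin.toFinset, ((Nat.card V : ℂ)⁻¹ * ∑ᶠ w : V, fs V γ i w ψ) *
          fs V γ i v ψ = ∑ ψ ∈ hfin.toFinset, ((Nat.card V : ℂ)⁻¹ * ∑ᶠ w : V,
            fs V γ i w (fun g => ψ (g ^ N))) * fs V γ i v (fun g => ψ (g ^ N)) := by
        conv_lhs => rw [← himg]
        rw [Finset.sum_image]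
        intro a ha b hb h
        exact hinj (hfin.mem_toFinset.1 ha) (hfin.mem_toFinset.1 hb) h
      rw [h3]
      refine Finset.sum_congr rfl fun ψ hψ => ?_
      have hψ' := hfin.mem_toFinset.1 hψ
      rw [hpw ψ hψ' v hv]
      have h4 : ∑ᶠ w : V, fs V γ i w (fun g => ψ (g ^ N)) = ∑ᶠ w : V, fs V γ i w ψ := by
        rw [← sum_pow V gs.cop (fun z => fs V γ i z ψ)]
        exact finsum_congr fun w => (hpw ψ hψ' w w.2).symm
      rw [h4]
    have hlN : ¬ ℓ ∣ N := by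
      intro h
      have h1 : ℓ ∣ Nat.card V := by
        have h2 : Nat.card V ≠ 1 := by
          intro h2
          have h3 := Subgroup.eq_bot_of_card_eq V h2
          rw [h3] at hu₀
          exact hu₀.2.1 (Subgroup.mem_bot.1 hu₀.1)
        obtain ⟨n, hn⟩ := IsPGroup.iff_card.1 D.ld.tp.pg
        rw [hn] at h2 ⊢
        have h3 : n ≠ 0 := fun h => h2 (by rw [h, pow_zero])
        exact dvd_pow_self ℓ h3
      have h2 := gs.cop
      have h3 := Nat.dvd_gcd h (h1.trans (Subgroup.card_subgroup_dvd_card V))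
      rw [h2] at h3
      exact hℓ.out.one_lt.ne' (Nat.dvd_one.1 h3)
    have hXN : ∀ v ∈ V, v ^ N ∈ {u | Rg V γ u} ↔ v ∈ {u | Rg V γ u} := fun v hv =>
      (dpw ℓ M hlM hℓ2 G e V γ b d c ε D).2.2 v hv N hlN
    show fs V γ i (v ^ N) χ * s (v ^ N) = fs V γ i v χ * s v
    rw [hs2 N hgN hXN v hv, hpw χ hχ v hv, hchi]

end Pool.Agent.PP.T8.H10
end
end -- Pool.Agent.Helper10_AT8.COH

section -- Pool.Agent.Helper3_AT8.SMI

/-!
# Squad AT8, row SMI: the second main theorem for idempotents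
-/

open scoped BigOperators

set_option linter.unusedSectionVars false

noncomputable section

namespace Pool.Agent.PP.T8.H3

open Pool.Agent.Helper51_AWC Pool.Agent.Helper79_WRA Pool.Agent.PP Pool.Agent.PP.KF
open Pool.Agent.PP.K9 Pool.Agent.PP.KF.H71 Pool.Agent.PP.KF.H92 Pool.Agent.PP.K9.H10
open Pool.Agent.PP.T3 Pool.Agent.PP.T2

attribute [local instance] Ideal.Quotient.field

section grp

variable {G : Type} [Group G]

/-- the `ℓ`-part and the `ℓ`-regular part of an element -/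
theorem parts' [Finite G] {ℓ : ℕ} (hℓ : ℓ.Prime) (g : G) : ∃ y s : G, ∃ m : ℕ, 0 < m ∧
      ¬ ℓ ∣ m ∧ s ^ m = 1 ∧ y * s = g ∧ Commute y s := by
  have hpos : orderOf g ≠ 0 := (orderOf_pos g).ne'
  obtain ⟨a, m, hm, ham⟩ := Nat.exists_eq_pow_mul_and_not_dvd hpos ℓ hℓ.ne_one
  have hcop : Nat.Coprime (ℓ ^ a) m :=
    Nat.Coprime.pow_left a ((Nat.Prime.coprime_iff_not_dvd hℓ).2 hm)
  obtain ⟨N, hN1, hN2⟩ := Nat.chineseRemainder hcop 1 0
  obtain ⟨N', hN1', hN2'⟩ := Nat.chineseRemainder hcop 0 1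
  have hlN' : ℓ ^ a ∣ N' := (Nat.modEq_zero_iff_dvd).1 hN1'
  have hs : (g ^ N') ^ m = 1 := by
    rw [← pow_mul]
    apply orderOf_dvd_iff_pow_eq_one.1
    rw [ham]
    exact Nat.mul_dvd_mul hlN' dvd_rfl
  have hys : g ^ N * g ^ N' = g := by
    rw [← pow_add]
    have h1 : N + N' ≡ 1 [MOD orderOf g] := by
      rw [ham]
      refine (Nat.modEq_and_modEq_iff_modEq_mul hcop).1 ⟨?_, ?_⟩
      · exact hN1.add hN1'
      · exact hN2.add hN2'
    have h2 := pow_eq_pow_iff_modEq.2 h1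
    rw [pow_one] at h2
    exact h2
  have hm0 : 0 < m := by
    rcases Nat.eq_zero_or_pos m with h | h
    · exact absurd (h ▸ dvd_zero ℓ) hm
    · exact h
  exact ⟨g ^ N, g ^ N', m, hm0, hm, hs, hys, (Commute.refl g).pow_pow N N'⟩

theorem conj_pow_inv {F : Type} (z : G) (a : G → F) (h : ∀ x, a (z * x * z⁻¹) = a x) (k : ℕ) :
    ∀ x, a (z ^ k * x * (z ^ k)⁻¹) = a x := by
  induction k with
  | zero => intro x; simp
  | succ k ih =>
    intro x
    have e1 : z ^ (k + 1) * x * (z ^ (k + 1))⁻¹ = z ^ k * (z * x * z⁻¹) * (z ^ k)⁻¹ := by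
      rw [pow_succ]
      group
    rw [e1, ih, h]

theorem mem_cu_conj (z x : G) (k : ℕ) : z ^ k * x * (z ^ k)⁻¹ ∈ Cu z ↔ x ∈ Cu z := by
  have key : ∀ w y : G, Commute w z → y ∈ Cu z → w * y * w⁻¹ ∈ Cu z := by
    intro w y hw hy
    rw [Subgroup.mem_centralizer_singleton_iff] at hy ⊢
    have h1 : y * z = z * y := hy
    have h2 : w * z = z * w := hw
    have h3 : w⁻¹ * z = z * w⁻¹ := hw.inv_left.eq
    calc w * y * w⁻¹ * z = w * y * (w⁻¹ * z) := by group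
      _ = w * (y * z) * w⁻¹ := by rw [h3]; group
      _ = (w * z) * y * w⁻¹ := by rw [h1]; group
      _ = z * (w * y * w⁻¹) := by rw [h2]; group
  have hc : Commute (z ^ k) z := (Commute.refl z).pow_left k
  constructor
  · intro h
    have h1 := key (z ^ k)⁻¹ _ hc.inv_left h
    have e1 : (z ^ k)⁻¹ * (z ^ k * x * (z ^ k)⁻¹) * ((z ^ k)⁻¹)⁻¹ = x := by group
    rwa [e1] at h1
  · exact key (z ^ k) x hc

end grp

section ring

variable {F : Type} [Field F] {G : Type} [Group G] [Fintype G] [DecidableEq G]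

theorem Km_pow2 (a b : G) (k : ℕ) :
    Km (dl F a) (dl F b) ^ k = Km (dl F (a ^ k)) (dl F (b ^ k)) := by
  induction k with
  | zero => rw [pow_zero, pow_zero, pow_zero, Km_one]
  | succ k ih => rw [pow_succ, ih, Km_mul, dl_dl, dl_dl, pow_succ, pow_succ']

theorem Km_sum2 (q : ℕ) (a : G → F) (b : ℕ → G → F) :
    ∑ i ∈ Finset.range q, Km a (b i) = Km a (∑ i ∈ Finset.range q, b i) := by
  ext x y
  rw [Matrix.sum_apply]
  simp only [Km_apply, Finset.sum_apply, Finset.mul_sum]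
  rw [Finset.sum_comm]

theorem Km_sub2 (a b c : G → F) : Km a b - Km a c = Km a (b - c) := by
  ext x y
  rw [Matrix.sub_apply]
  simp only [Km_apply, Pi.sub_apply, mul_sub, Finset.sum_sub_distrib]

theorem mul_one_dl (a : G → F) : mulF a (dl F (1 : G)) = a := by
  rw [← H20.mulF_comm_of_cl dl_cl, dl_one_mulF]

theorem cm_dl (z : G) (a : G → F) (h : ∀ x, a (z * x * z⁻¹) = a x) :
    mulF (dl F z) a = mulF a (dl F z) := by
  funext x
  rw [H75.mulF_dl_left, H75.mulF_dl_right]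
  have e1 := h (z⁻¹ * x)
  have e2 : z * (z⁻¹ * x) * z⁻¹ = x * z⁻¹ := by group
  rw [e2] at e1
  exact e1.symm

theorem tr_Km (h z : G) (a : G → F) :
    (Km (dl F h⁻¹) (mulF a (dl F z))).trace = ∑ x, a (x⁻¹ * h * x * z⁻¹) := by
  rw [Matrix.trace]
  refine Finset.sum_congr rfl fun x _ => ?_
  rw [Matrix.diag_apply, Km_apply, Finset.sum_eq_single h⁻¹]
  · rw [dl, if_pos rfl, one_mul, H75.mulF_dl_right, inv_inv]
  · intro g _ hg
    rw [dl, if_neg hg, zero_mul]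
  · intro hh
    exact absurd (Finset.mem_univ _) hh

end ring

/-- the values of the idempotents at the conjugates of all elements have the same sums -/
theorem main (tr2 : Tr2Stmt) (cyc : T3.CycStmt) (ℓ : ℕ) [Fact ℓ.Prime]
    (M : Ideal (integralClosure ℤ ℂ)) [M.IsMaximal] (hM : (ℓ : integralClosure ℤ ℂ) ∈ M)
    (G : Type) [Group G] [Fintype G] (z : G) (hz : El ℓ z) (i j : G → ℂ)
    (hi : ∀ g, i g ∈ RM M) (hii : mulF i i = i) (hiz : ∀ x, i (z * x * z⁻¹) = i x)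
    (hj : ∀ g, j g ∈ RM M) (hjj : mulF j j = j) (hjz : ∀ g, g ∉ Cu z → j g = 0)
    (hij : ∀ g ∈ Cu z, rr M (j g) = rr M (i g)) (h : G) :
    ∑ x, i (x⁻¹ * h * x * z⁻¹) = ∑ x, j (x⁻¹ * h * x * z⁻¹) := by
  classical
  have hℓ : ℓ.Prime := Fact.out
  obtain ⟨y, s, m, hm0, hml, hsm, hys, hcomm⟩ := parts' hℓ h
  obtain ⟨n, hzn⟩ := hz
  have hjz' : ∀ x, j (z * x * z⁻¹) = j x := by
    intro x
    have e1 := mem_cu_conj z x 1
    rw [pow_one] at e1
    by_cases hx : x ∈ Cu z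
    · rw [Subgroup.mem_centralizer_singleton_iff] at hx
      have e2 : z * x * z⁻¹ = x := by
        rw [← hx]
        group
      rw [e2]
    · rw [hjz x hx, hjz _ fun h' => hx (e1.1 h')]
  set σ : Equiv.Perm G := MulAut.toPerm G (MulAut.conj z) with hσdef
  have hσ : ∀ (k : ℕ) (x : G), (σ ^ k) x = z ^ k * x * (z ^ k)⁻¹ := by
    intro k x
    rw [hσdef, ← map_pow, ← map_pow]
    rfl
  obtain ⟨c, hc01, hcl, hcs⟩ := cyc ℓ G σ n (by
    ext x
    rw [hσ, hzn]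
    simp)
  have hcl' : ∀ x, c (z ^ ℓ * x * (z ^ ℓ)⁻¹) = c x := by
    intro x
    rw [← hσ]
    exact hcl x
  set i' : G → ℂ := fun g => if g ∈ Cu z then 0 else (c g : ℂ) * i g with hi'
  set P₁ : Matrix G G ℂ := Km (dl ℂ (1 : G)) i with hP₁
  set P₂ : Matrix G G ℂ := Km (dl ℂ (1 : G)) j with hP₂
  set U : Matrix G G ℂ := Km (dl ℂ y⁻¹) (dl ℂ z) with hU
  set W : Matrix G G ℂ := Km (dl ℂ y) (dl ℂ z⁻¹) with hW
  set V : Matrix G G ℂ := Km (dl ℂ s⁻¹) (dl ℂ (1 : G)) with hV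
  set X : Matrix G G ℂ := Km (dl ℂ (1 : G)) i' with hX
  have hi'R : ∀ g, i' g ∈ RM M := by
    intro g
    simp only [hi']
    split_ifs
    · exact (RM M).zero_mem
    · rcases hc01 g with h' | h'
      · rw [h', Nat.cast_zero, zero_mul]
        exact (RM M).zero_mem
      · rw [h', Nat.cast_one, one_mul]
        exact hi g
  have hi'r : ∀ g, rr M (i' g) = if g ∈ Cu z then 0 else (c g : FF M) * rr M (i g) := by
    intro g
    simp only [hi']
    split_ifs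
    · exact rr_zero
    · rcases hc01 g with h' | h'
      · rw [h', Nat.cast_zero, zero_mul, Nat.cast_zero, zero_mul]
        exact rr_zero
      · rw [h', Nat.cast_one, one_mul, Nat.cast_one, one_mul]
  have hdR : ∀ w g : G, dl ℂ w g ∈ RM M := fun w g => (dl_RM w g).1
  have hdlr : ∀ w : G, (fun g => rr M (dl ℂ w g)) = dl (FF M) w := fun w =>
    funext fun g => (dl_RM w g).2
  -- the matrices
  have e1 : P₁ * P₁ = P₁ := by rw [hP₁, Km_mul, dl_dl, hii, one_mul]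
  have e2 : P₂ * P₂ = P₂ := by rw [hP₂, Km_mul, dl_dl, hjj, one_mul]
  have e3 : U * W = 1 := by
    rw [hU, hW, Km_mul, dl_dl, dl_dl, inv_mul_cancel, inv_mul_cancel, Km_one]
  have e4 : V ^ m = 1 := by
    rw [hV, Km_pow2, inv_pow, hsm, inv_one, one_pow, Km_one]
  have e5 : U * P₁ = P₁ * U := by
    rw [hU, hP₁, Km_mul, Km_mul, dl_dl, dl_dl, one_mul, mul_one, cm_dl z i hiz]
  have e6 : U * P₂ = P₂ * U := by
    rw [hU, hP₂, Km_mul, Km_mul, dl_dl, dl_dl, one_mul, mul_one, cm_dl z j hjz']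
  have e7 : V * P₁ = P₁ * V := by
    rw [hV, hP₁, Km_mul, Km_mul, dl_dl, dl_dl, one_mul, mul_one, mul_one_dl, dl_one_mulF]
  have e8 : V * P₂ = P₂ * V := by
    rw [hV, hP₂, Km_mul, Km_mul, dl_dl, dl_dl, one_mul, mul_one, mul_one_dl, dl_one_mulF]
  have e9 : U * V = V * U := by
    rw [hU, hV, Km_mul, Km_mul, dl_dl, dl_dl, dl_dl, dl_dl, one_mul, mul_one, ← mul_inv_rev,
      ← mul_inv_rev, hcomm.eq]
  have hi'z : ∀ x, i' (z ^ ℓ * x * (z ^ ℓ)⁻¹) = i' x := by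
    intro x
    simp only [hi', mem_cu_conj z x ℓ, hcl' x, conj_pow_inv z i hiz ℓ x]
  have e10 : X * U ^ ℓ = U ^ ℓ * X := by
    rw [hX, hU, Km_pow2, Km_mul, Km_mul, dl_dl, dl_dl, one_mul, mul_one,
      cm_dl (z ^ ℓ) i' hi'z]
  have hUm : U.map (rr M) = Km (dl (FF M) y⁻¹) (dl (FF M) z) := by
    rw [hU, Km_map (hdR _) (hdR _), hdlr, hdlr]
  have hWm : W.map (rr M) = Km (dl (FF M) y) (dl (FF M) z⁻¹) := by
    rw [hW, Km_map (hdR _) (hdR _), hdlr, hdlr]
  have hXm : X.map (rr M) = Km (dl (FF M) (1 : G)) (fun g => rr M (i' g)) := by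
    rw [hX, Km_map (hdR _) hi'R, hdlr]
  have hP₁m : P₁.map (rr M) = Km (dl (FF M) (1 : G)) (fun g => rr M (i g)) := by
    rw [hP₁, Km_map (hdR _) hi, hdlr]
  have hP₂m : P₂.map (rr M) = Km (dl (FF M) (1 : G)) (fun g => rr M (j g)) := by
    rw [hP₂, Km_map (hdR _) hj, hdlr]
  have hterm : ∀ k : ℕ, U.map (rr M) ^ k * X.map (rr M) * W.map (rr M) ^ k =
      Km (dl (FF M) (1 : G)) (fun g => rr M (i' (z ^ k * g * (z ^ k)⁻¹))) := by
    intro k
    rw [hUm, hWm, hXm, Km_pow2, Km_pow2, Km_mul, Km_mul, dl_dl, dl_dl, mul_one, inv_pow,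
      inv_mul_cancel]
    congr 1
    funext x
    rw [H75.mulF_dl_left, H75.mulF_dl_right, inv_pow, inv_inv]
  have e11 : ∑ k ∈ Finset.range ℓ, U.map (rr M) ^ k * X.map (rr M) * W.map (rr M) ^ k =
      P₁.map (rr M) - P₂.map (rr M) := by
    rw [Finset.sum_congr rfl fun k _ => hterm k, Km_sum2, hP₁m, hP₂m, Km_sub2]
    congr 1
    funext g
    rw [Finset.sum_apply, Pi.sub_apply]
    simp only [hi'r, mem_cu_conj z g, conj_pow_inv z i hiz]
    by_cases hg : g ∈ Cu z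
    · simp only [if_pos hg, Finset.sum_const_zero]
      rw [hij g hg, sub_self]
    · simp only [if_neg hg]
      rw [hjz g hg, rr_zero, sub_zero, ← Finset.sum_mul, ← Nat.cast_sum]
      have q1 : σ g ≠ g := by
        intro h'
        apply hg
        rw [Subgroup.mem_centralizer_singleton_iff]
        have q2 := hσ 1 g
        rw [pow_one, pow_one, h'] at q2
        have q3 : g * z = z * g := by
          conv_lhs => rw [q2]
          group
        exact q3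
      have q2 := hcs g q1
      have q3 : ∑ k ∈ Finset.range ℓ, c (z ^ k * g * (z ^ k)⁻¹) = 1 := by
        rw [← q2]
        exact Finset.sum_congr rfl fun k _ => by rw [hσ]
      rw [q3, Nat.cast_one, one_mul]
  have key := tr2 ℓ M hM G P₁ P₂ U W V X m hm0 hml (Km_RM (hdR _) hi) (Km_RM (hdR _) hj)
    (Km_RM (hdR _) (hdR _)) (Km_RM (hdR _) (hdR _)) (Km_RM (hdR _) (hdR _))
    (Km_RM (hdR _) hi'R) e1 e2 e3 e4 e5 e6 e7 e8 e9 e10 e11
  have hUV : ∀ a : G → ℂ, U * V * Km (dl ℂ (1 : G)) a = Km (dl ℂ h⁻¹) (mulF a (dl ℂ z)) := by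
    intro a
    rw [hU, hV, Km_mul, Km_mul, dl_dl, dl_dl, dl_dl, mul_one, one_mul, ← mul_inv_rev,
      ← hcomm.eq, hys]
  rw [hP₁, hP₂, hUV, hUV, tr_Km, tr_Km] at key
  exact key

theorem fv_sum {G : Type} [Group G] [Fintype G] (i : G → ℂ) (z : G) (th : G → ℂ)
    (hth : ∀ x y, th (y * x * y⁻¹) = th x) :
    ∑ h, (∑ x, i (x⁻¹ * h * x * z⁻¹)) * th h = Fintype.card G * fv i z th := by
  simp only [Finset.sum_mul]
  rw [Finset.sum_comm]
  have e1 : ∀ x : G, ∑ h, i (x⁻¹ * h * x * z⁻¹) * th h = fv i z th := by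
    intro x
    unfold fv
    rw [finsum_eq_sum_of_fintype, ← Equiv.sum_comp (MulAut.conj x).toEquiv,
      ← Equiv.sum_comp (Equiv.mulRight z)]
    refine Finset.sum_congr rfl fun g _ => ?_
    change i (x⁻¹ * (x * (g * z) * x⁻¹) * x * z⁻¹) * th (x * (g * z) * x⁻¹) = i g * th (z * g)
    have q1 : x⁻¹ * (x * (g * z) * x⁻¹) * x * z⁻¹ = g := by group
    have q2 : th (g * z) = th (z * g) := by
      have q3 := hth (z * g) z⁻¹
      rw [inv_inv, inv_mul_cancel_left] at q3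
      exact q3
    rw [q1, hth, q2]
  rw [Finset.sum_congr rfl fun x _ => e1 x, Finset.sum_const, Finset.card_univ, nsmul_eq_mul]

theorem smi (tr2 : Tr2Stmt) (cyc : T3.CycStmt) : SmiStmt := by
  intro ℓ _ M _ hM G _ _ z hz i j hi hii hiz hj hjj hjz hij th hth
  have := Fintype.ofFinite G
  have h1 := fv_sum i z th hth
  have h2 := fv_sum j z th hth
  rw [Finset.sum_congr rfl fun h _ => by
    rw [main tr2 cyc ℓ M hM G z hz i j hi hii hiz hj hjj hjz hij h], h2] at h1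
  have h3 : (Fintype.card G : ℂ) ≠ 0 := Nat.cast_ne_zero.2 Fintype.card_ne_zero
  exact (mul_left_cancel₀ h3 h1).symm

end Pool.Agent.PP.T8.H3
end
end -- Pool.Agent.Helper3_AT8.SMI

section -- Pool.Agent.Helper62_AT8.PRJ

/-!
# Squad AT8, row PRJ: class functions which vanish at the regular elements vanish at idempotents
-/

open scoped BigOperators

set_option linter.unusedSectionVars false

noncomputable section

namespace Pool.Agent.PP.T8.H62

open Pool.Agent.Helper51_AWC Pool.Agent.Helper79_WRA Pool.Agent.PP Pool.Agent.PP.KF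
open Pool.Agent.PP.K9 Pool.Agent.PP.KF.H71 Pool.Agent.PP.KF.H92 Pool.Agent.PP.K9.H10
open Pool.Agent.PP.T3

attribute [local instance] Ideal.Quotient.field

section ring

variable {F : Type} [Field F] {G : Type} [Group G] [Fintype G] [DecidableEq G]

/-- the matrix of the left multiplication with `z` -/
theorem Km_left (z : G) (x y : G) :
    Km (dl F z) (dl F (1 : G)) x y = if x = z * y then 1 else 0 := by
  rw [Km_apply, Finset.sum_eq_single z]
  · rw [dl, if_pos rfl, one_mul, dl]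
    have h0 : (y⁻¹ * z⁻¹ * x = 1) ↔ x = z * y := by
      rw [← mul_inv_rev, inv_mul_eq_one]
      exact eq_comm
    by_cases h : x = z * y
    · rw [if_pos (h0.2 h), if_pos h]
    · rw [if_neg (fun h' => h (h0.1 h')), if_neg h]
  · intro t _ ht
    rw [dl, if_neg ht, zero_mul]
  · intro h
    exact absurd (Finset.mem_univ _) h

theorem Km_left_pow (z : G) (k : ℕ) :
    Km (dl F z) (dl F (1 : G)) ^ k = Km (dl F (z ^ k)) (dl F (1 : G)) := by
  induction k with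
  | zero => rw [pow_zero, pow_zero, Km_one]
  | succ k ih => rw [pow_succ, ih, Km_mul, dl_dl, dl_dl, mul_one, pow_succ]

theorem conj_diag (z : G) (d : G → F) :
    Km (dl F z) (dl F (1 : G)) * Matrix.diagonal d * Km (dl F z⁻¹) (dl F (1 : G)) =
      Matrix.diagonal fun x => d (z⁻¹ * x) := by
  ext x w
  rw [Matrix.mul_apply, Finset.sum_eq_single (z⁻¹ * x)]
  · rw [Matrix.mul_diagonal, Km_left, Km_left, if_pos (by rw [mul_inv_cancel_left]), one_mul]
    by_cases h : x = w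
    · rw [h, if_pos rfl, mul_one, Matrix.diagonal_apply_eq]
    · rw [if_neg (fun h' => h (mul_left_cancel h')), mul_zero, Matrix.diagonal_apply_ne _ h]
  · intro t _ ht
    rw [Matrix.mul_diagonal, Km_left, if_neg, zero_mul, zero_mul]
    intro h
    apply ht
    rw [h, inv_mul_cancel_left]
  · intro h
    exact absurd (Finset.mem_univ _) h

theorem diag_comm (z : G) (d : G → F) (h : ∀ x, d (z * x) = d x) :
    Matrix.diagonal d * Km (dl F z) (dl F (1 : G)) =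
      Km (dl F z) (dl F (1 : G)) * Matrix.diagonal d := by
  ext x w
  rw [Matrix.diagonal_mul, Matrix.mul_diagonal, Km_left]
  by_cases h' : x = z * w
  · rw [if_pos h', h', h, mul_comm]
  · rw [if_neg h', mul_zero, zero_mul]

end ring

/-- the trace of `x ↦ g⁻¹ x i` -/
theorem key (trg : T3.TrgStmt) (cyc : T3.CycStmt) (ℓ : ℕ) [Fact ℓ.Prime]
    (M : Ideal (integralClosure ℤ ℂ)) [M.IsMaximal] (hM : (ℓ : integralClosure ℤ ℂ) ∈ M)
    (H : Type) [Group H] [Fintype H] (i : H → ℂ) (hiR : ∀ g, i g ∈ RM M)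
    (hii : mulF i i = i) (g : H) (hg : ¬ Reg ℓ g) : ∑ x, i (x⁻¹ * g * x) = 0 := by
  classical
  have hℓ : ℓ.Prime := Fact.out
  obtain ⟨N, hN, -⟩ := K9.H27.prt ℓ H
  obtain ⟨hsr, n, hyn⟩ := hN g
  set s : H := g ^ N with hs
  set y : H := s⁻¹ * g with hy
  have hsg : Commute s g := Commute.pow_left (Commute.refl g) N
  have hys : Commute y s := (Commute.inv_left (Commute.refl s)).mul_left hsg.symm
  have hgy : g = y * s := by
    rw [hys.eq, hy, mul_inv_cancel_left]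
  have hy1 : y ≠ 1 := by
    intro h
    apply hg
    rw [hgy, h, one_mul]
    exact hsr
  have hml : ¬ ℓ ∣ orderOf s := (Nat.Prime.coprime_iff_not_dvd hℓ).1 (Nat.Coprime.symm hsr)
  obtain ⟨c, hc01, hcl, hcs⟩ := cyc ℓ H (Equiv.mulLeft y) n (by
    ext x
    rw [Equiv.pow_mulLeft, hyn]
    exact one_mul x)
  have hcl' : ∀ x, c (y ^ ℓ * x) = c x := by
    intro x
    have h := hcl x
    rwa [Equiv.pow_mulLeft, Equiv.coe_mulLeft] at h
  have hcs' : ∀ x, ∑ k ∈ Finset.range ℓ, c (y ^ k * x) = 1 := by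
    intro x
    have h := hcs x (by
      rw [Equiv.coe_mulLeft]
      intro h
      exact hy1 (mul_eq_right.1 h))
    simpa only [Equiv.pow_mulLeft, Equiv.coe_mulLeft] using h
  set P : Matrix H H ℂ := Km (dl ℂ (1 : H)) i with hP
  set U : Matrix H H ℂ := Km (dl ℂ y⁻¹) (dl ℂ (1 : H)) with hU
  set W : Matrix H H ℂ := Km (dl ℂ y) (dl ℂ (1 : H)) with hW
  set V : Matrix H H ℂ := Km (dl ℂ s⁻¹) (dl ℂ (1 : H)) with hV
  set X : Matrix H H ℂ := Matrix.diagonal fun x => (c x : ℂ) with hX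
  have hone : mulF i (dl ℂ (1 : H)) = i := by
    funext x
    rw [H75.mulF_dl_right, inv_one, mul_one]
  have hLP : ∀ z : H, Km (dl ℂ z) (dl ℂ (1 : H)) * P = Km (dl ℂ z) i := by
    intro z
    rw [hP, Km_mul, dl_dl, mul_one, hone]
  have hPL : ∀ z : H, P * Km (dl ℂ z) (dl ℂ (1 : H)) = Km (dl ℂ z) i := by
    intro z
    rw [hP, Km_mul, dl_dl, one_mul, dl_one_mulF]
  have hdlr : ∀ z : H, (fun x => rr M (dl ℂ z x)) = dl (FF M) z := fun z =>
    funext fun x => (dl_RM z x).2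
  have hzR : ∀ z : H, ∀ a b, Km (dl ℂ z) (dl ℂ (1 : H)) a b ∈ RM M := fun z a b =>
    Km_RM (fun x => (dl_RM z x).1) (fun x => (dl_RM 1 x).1) a b
  have hPR : ∀ a b, P a b ∈ RM M := fun a b => Km_RM (fun x => (dl_RM 1 x).1) hiR a b
  have hXR : ∀ a b, X a b ∈ RM M := by
    intro a b
    rw [hX, Matrix.diagonal_apply]
    split_ifs
    · rcases hc01 a with h | h
      · rw [h, Nat.cast_zero]
        exact (RM M).zero_mem
      · rw [h, Nat.cast_one]
        exact (RM M).one_mem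
    · exact (RM M).zero_mem
  have hzm : ∀ z : H, (Km (dl ℂ z) (dl ℂ (1 : H))).map (rr M) =
      Km (dl (FF M) z) (dl (FF M) (1 : H)) := by
    intro z
    rw [Km_map (fun x => (dl_RM z x).1) (fun x => (dl_RM 1 x).1), hdlr, hdlr]
  have hPm : P.map (rr M) = Km (dl (FF M) (1 : H)) (fun x => rr M (i x)) := by
    rw [hP, Km_map (fun x => (dl_RM 1 x).1) hiR, hdlr]
  have hXm : X.map (rr M) = Matrix.diagonal fun x => (c x : FF M) := by
    ext a b
    rw [Matrix.map_apply, hX, Matrix.diagonal_apply, Matrix.diagonal_apply]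
    split_ifs
    · rcases hc01 a with h | h
      · rw [h, Nat.cast_zero, Nat.cast_zero, rr_zero]
      · rw [h, Nat.cast_one, Nat.cast_one, rr_one]
    · exact rr_zero
  have hterm : ∀ k : ℕ, U.map (rr M) ^ k * X.map (rr M) * W.map (rr M) ^ k =
      Matrix.diagonal fun x => (c (y ^ k * x) : FF M) := by
    intro k
    have h := conj_diag (F := FF M) ((y⁻¹) ^ k) fun x => (c x : FF M)
    rw [inv_pow, inv_inv] at h
    rw [hU, hW, hzm, hzm, hXm, Km_left_pow, Km_left_pow, inv_pow]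
    exact h
  have hsum : ∑ k ∈ Finset.range ℓ, U.map (rr M) ^ k * X.map (rr M) * W.map (rr M) ^ k = 1 := by
    rw [Finset.sum_congr rfl fun k _ => hterm k]
    ext a b
    rw [Matrix.sum_apply]
    by_cases h : a = b
    · rw [← h, Matrix.one_apply_eq]
      simp only [Matrix.diagonal_apply_eq]
      rw [← Nat.cast_sum, hcs', Nat.cast_one]
    · rw [Matrix.one_apply_ne h]
      exact Finset.sum_eq_zero fun k _ => Matrix.diagonal_apply_ne _ h
  have htr := trg ℓ M hM H P U W V X (orderOf s) (orderOf_pos s) hml hPR (hzR _) (hzR _) (hzR _)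
    hXR (by rw [hP, Km_mul, dl_dl, mul_one, hii])
    (by rw [hU, hW, Km_mul, dl_dl, dl_dl, inv_mul_cancel, mul_one, Km_one])
    (by rw [hV, Km_left_pow, inv_pow, pow_orderOf_eq_one, inv_one, Km_one])
    (by rw [hU, hLP, hPL]) (by rw [hV, hLP, hPL])
    (by
      rw [hU, hV, Km_mul, Km_mul, dl_dl, dl_dl, dl_dl, ← mul_inv_rev, ← mul_inv_rev, hys.eq])
    (by
      rw [hX, hU, Km_left_pow]
      refine diag_comm _ _ fun x => ?_
      have h := hcl' ((y⁻¹) ^ ℓ * x)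
      rw [inv_pow, mul_inv_cancel_left] at h
      rw [inv_pow, ← h])
    (by
      rw [hsum, Matrix.mul_one, hPm, Km_mul, dl_dl, mul_one]
      congr 1
      funext x
      rw [← (mulF_RM hiR hiR x).2, hii])
  rw [Matrix.mul_assoc, hV, hLP, hU, Km_mul, dl_dl, ← mul_inv_rev] at htr
  have hone' : mulF i (dl ℂ (1 : H)) = i := hone
  rw [hone', hys.symm.eq, ← hgy] at htr
  rw [← htr, Matrix.trace]
  refine Finset.sum_congr rfl fun x _ => ?_
  rw [Matrix.diag_apply, Km_apply, Finset.sum_eq_single g⁻¹]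
  · rw [dl, if_pos rfl, one_mul, inv_inv]
  · intro t _ ht
    rw [dl, if_neg ht, zero_mul]
  · intro h
    exact absurd (Finset.mem_univ _) h

theorem prj (trg : T3.TrgStmt) (cyc : T3.CycStmt) : PrjStmt := by
  intro ℓ _ M _ hM H _ _ i hiR hii th hth hreg
  classical
  have := Fintype.ofFinite H
  rw [finsum_eq_sum_of_fintype]
  have h1 : ∑ g : H, th g * ∑ x : H, i (x⁻¹ * g * x) =
      (Fintype.card H : ℂ) * ∑ h, i h * th h := by
    simp only [Finset.mul_sum]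
    rw [Finset.sum_comm]
    have h2 : ∀ x : H, ∑ g : H, th g * i (x⁻¹ * g * x) = ∑ h, i h * th h := by
      intro x
      refine Fintype.sum_equiv (MulAut.conj x⁻¹).toEquiv _ _ fun g => ?_
      have h3 : (MulAut.conj x⁻¹).toEquiv g = x⁻¹ * g * x := by
        change x⁻¹ * g * (x⁻¹)⁻¹ = _
        rw [inv_inv]
      have h4 : th (x⁻¹ * g * x) = th g := by
        have h5 := hth g x⁻¹
        rwa [inv_inv] at h5
      rw [h3, h4, mul_comm]
    rw [Finset.sum_congr rfl fun x _ => h2 x, Finset.sum_const, Finset.card_univ, nsmul_eq_mul,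
      Finset.mul_sum]
  have h6 : ∑ g : H, th g * ∑ x : H, i (x⁻¹ * g * x) = 0 := by
    refine Finset.sum_eq_zero fun g _ => ?_
    by_cases hg : Reg ℓ g
    · rw [hreg g hg, zero_mul]
    · rw [key trg cyc ℓ M hM H i hiR hii g hg, mul_zero]
  rw [h6] at h1
  rcases mul_eq_zero.1 h1.symm with h | h
  · exact absurd h (Nat.cast_ne_zero.2 Fintype.card_ne_zero)
  · exact h

end Pool.Agent.PP.T8.H62
end
end -- Pool.Agent.Helper62_AT8.PRJ

section -- Pool.Agent.Helper1_AT12.CO2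

/-!
# Squad AT12, row CO2: the coherence theorem at the powers of `y`
-/

set_option autoImplicit false

open scoped BigOperators

noncomputable section

namespace Pool.Agent.PP.T12.H1

open Pool.Agent.Helper51_AWC Pool.Agent.Helper79_WRA Pool.Agent.PP Pool.Agent.PP.KF
open Pool.Agent.PP.K9 Pool.Agent.PP.K9.H97 Pool.Agent.PP.H75 Pool.Agent.PP.T3 Pool.Agent.PP.T2
open Pool.Agent.PP.T8 Pool.Agent.PP.T8.H10 Pool.Agent.PP.T12

attribute [local instance] Ideal.Quotient.field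

section sq

variable {ℓ : ℕ} [hℓ : Fact ℓ.Prime] {M : Ideal (integralClosure ℤ ℂ)} [M.IsMaximal]

theorem two_th (hlM : (ℓ : integralClosure ℤ ℂ) ∈ M) (hℓ2 : ℓ ≠ 2) {θ : ℤ}
    (hθ : θ = 1 ∨ θ = -1) : ((θ : FF M) + (θ : FF M)) ≠ 0 := by
  intro h
  have h1 : rr M (((2 * θ : ℤ)) : ℂ) = 0 := by
    rw [(rr_int (M := M) _).2]
    push_cast
    rw [two_mul]
    exact h
  have h2 := (dvd_of_rr (M := M) hℓ.out hlM).1 h1
  have h3 : (ℓ : ℤ) ∣ 2 := by
    rcases hθ with h | h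
    · rwa [h, mul_one] at h2
    · rw [h] at h2
      have : (2 : ℤ) * -1 = -2 := by norm_num
      rwa [this, Int.dvd_neg] at h2
  have h4 : ℓ ∣ 2 := by exact_mod_cast h3
  exact hℓ2 ((Nat.prime_dvd_prime_iff_eq hℓ.out Nat.prime_two).1 h4)

/-- the square root of a number near `1` -/
theorem sq_root (hlM : (ℓ : integralClosure ℤ ℂ) ∈ M) (hℓ2 : ℓ ≠ 2) {x z : ℂ} (hx : x ∈ RM M)
    (hz : z ∈ RM M) {L : ℕ} (h : x ^ 2 = 1 + L * z) {θ : ℤ} (hθ : θ = 1 ∨ θ = -1)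
    (hr : rr M x = (θ : FF M)) : ∃ w ∈ RM M, x = θ + L * w := by
  have hu : x + θ ∈ RM M := add_mem hx (rr_int (M := M) θ).1
  have hru : rr M (x + θ) ≠ 0 := by
    rw [rr_add hx (rr_int (M := M) θ).1, hr, (rr_int (M := M) θ).2]
    exact two_th hlM hℓ2 hθ
  obtain ⟨h1, h2⟩ := inv_RM hu hru
  refine ⟨z * (x + θ)⁻¹, mul_mem hz h1, ?_⟩
  have hθ2 : (θ : ℂ) ^ 2 = 1 := by
    rcases hθ with h | h <;> rw [h] <;> norm_num
  have h3 : (x - θ) * (x + θ) = L * z := by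
    have : (x - θ) * (x + θ) = x ^ 2 - (θ : ℂ) ^ 2 := by ring
    rw [this, h, hθ2]
    ring
  have h4 : x - θ = L * (z * (x + θ)⁻¹) := by
    rw [← mul_assoc, ← h3, mul_assoc, mul_inv_cancel₀ h2, mul_one]
  rw [← h4]
  ring

theorem sq_res (hlM : (ℓ : integralClosure ℤ ℂ) ∈ M) {x z : ℂ} (hx : x ∈ RM M)
    (hz : z ∈ RM M) {L : ℕ} (hL : ℓ ∣ L) (h : x ^ 2 = 1 + L * z) :
    ∃ θ : ℤ, (θ = 1 ∨ θ = -1) ∧ rr M x = (θ : FF M) := by
  have h1 : rr M x * rr M x = 1 := by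
    have h2 : rr M (L : ℂ) = 0 := by
      have := (dvd_of_rr (M := M) hℓ.out hlM (n := (L : ℤ))).2 (by exact_mod_cast hL)
      exact_mod_cast this
    rw [← rr_mul hx hx, ← sq, h, rr_add (one_mem _) (mul_mem (rr_nat (M := M) L).1 hz), rr_one,
      rr_mul (rr_nat (M := M) L).1 hz, h2, zero_mul, add_zero]
  rcases mul_self_eq_one_iff.1 h1 with h | h
  · exact ⟨1, Or.inl rfl, by rw [h]; push_cast; rfl⟩
  · exact ⟨-1, Or.inr rfl, by rw [h]; push_cast; rfl⟩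

end sq

/-- the numbers `Av` are in the local ring -/
theorem av_RM (int2 : C2.Int2Stmt) {ℓ : ℕ} [hℓ : Fact ℓ.Prime]
    {M : Ideal (integralClosure ℤ ℂ)} [M.IsMaximal] {G H : Type} [Group G] [Finite G] [Group H]
    [Finite H] {a : ℕ} {y : G} {π : Cu y →* H} (hq : C2.Qn (ℓ ^ a) y π) {f : H → FF M}
    {p : H → ℂ} (hp : p ∈ ZE M f) (hr : Rc ℓ p) {χ : G → ℂ} (hχ : χ ∈ Irr G) (j : ℕ) :
    Av ℓ π (y ^ j) p χ ∈ RM M := by
  have hζ := Complex.isPrimitiveRoot_exp (ℓ ^ a) (pow_ne_zero a hℓ.out.ne_zero)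
  have hp' : p ∈ ZI H := by
    refine AddSubgroup.closure_mono ?_ hp
    exact fun χ h => h.1
  obtain ⟨n, hn⟩ := int2 ℓ a G H y π hq p hp' hr χ hχ _ hζ
  rw [hn j]
  have hζR : Complex.exp (2 * Real.pi * Complex.I / ((ℓ ^ a : ℕ) : ℂ)) ∈ RM M :=
    RM_of_int (hζ.isIntegral (Nat.pos_of_ne_zero (pow_ne_zero a hℓ.out.ne_zero)))
  exact sum_mem fun i _ => mul_mem (rr_int (M := M) _).1 (pow_mem hζR _)

/-- the value at the powers of `y` -/
theorem ypart (fsy : FsyStmt) (ccy : CcyStmt) (int2 : C2.Int2Stmt) {ℓ : ℕ} [hℓ : Fact ℓ.Prime]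
    {M : Ideal (integralClosure ℤ ℂ)} [M.IsMaximal] (hlM : (ℓ : integralClosure ℤ ℂ) ∈ M)
    (hℓ2 : ℓ ≠ 2) {G H : Type} [Group G] [Finite G] [Group H] [Finite H] {a : ℕ} {e : G → FF M}
    {V : Subgroup G} {γ : G → FF M} (hix : ¬ ℓ ∣ ix V γ) (hab : ∀ a ∈ V, ∀ b ∈ V, a * b = b * a)
    {y : G} {β : G → FF M} {π : Cu y →* H} {m K : ℕ} {g : Fin m → H → ℂ}
    (S : Sy M ℓ a e V γ y β π m K g) {i : G → ℂ} (hi : Ci M e V γ i) {s : G → ℂ}
    (hs3 : ∀ v ∈ V, ∃ r ∈ RM M, s v ^ 2 * ((ix V γ : ℂ)⁻¹ * T8.cc V γ i v) = 1 + Nat.card V * r)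
    (hs4 : ∀ v ∈ V, s v ∈ RM M ∧ rr M (s v) = rr M (s 1)) :
    ∃ θ : ℤ, (θ = 1 ∨ θ = -1) ∧ ∀ χ ∈ Irr G, (∀ v ∈ V, fs V γ i v χ ∈ RM M) → ∀ j : ℕ, ¬ ℓ ∣ j →
      (fs V γ i (y ^ j) χ * s (y ^ j) - θ * bq ℓ π g (y ^ j) χ) / ((m * K + 1 : ℕ) : ℂ) ∈ RM M := by
  classical
  obtain ⟨L, hL⟩ : ∃ L : ℕ, L = m * K + 1 := ⟨_, rfl⟩
  rw [← hL]
  have hyV : ∀ j : ℕ, y ^ j ∈ V := fun j => V.pow_mem S.mem j
  have hav : ∀ p, ∀ χ ∈ Irr G, ∀ j, Av ℓ π (y ^ j) (g p) χ ∈ RM M := fun p χ hχ j =>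
    av_RM int2 S.qn (S.cd.ze p) (S.cd.rc p) hχ j
  have hbq : ∀ χ ∈ Irr G, ∀ j, bq ℓ π g (y ^ j) χ ∈ RM M := fun χ hχ j =>
    sum_mem fun p _ => hav p χ hχ j
  rcases Nat.eq_or_lt_of_le (show 1 ≤ L by omega) with h1 | h1
  · refine ⟨1, Or.inl rfl, fun χ hχ hf j _ => ?_⟩
    rw [← h1, Nat.cast_one, div_one]
    exact sub_mem (mul_mem (hf _ (hyV j)) (hs4 _ (hyV j)).1)
      (mul_mem (rr_int (M := M) 1).1 (hbq χ hχ j))
  -- the order of the defect group of the quotient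
  have hm : 0 < m := by
    rcases Nat.eq_zero_or_pos m with h | h
    · rw [h, zero_mul] at hL
      omega
    · exact h
  have hLV : L ∣ Nat.card V := by
    have h2 : V ≤ Cu y := fun v hv => by
      rw [Subgroup.mem_centralizer_iff]
      rintro x hx
      rw [Set.mem_singleton_iff.1 hx]
      exact hab y S.mem v hv
    rw [hL, S.cd.mul, ← Nat.card_congr (Subgroup.subgroupOfEquivOfLe h2).toEquiv]
    exact Subgroup.card_map_dvd _ _
  have hℓL : ℓ ∣ L := by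
    obtain ⟨n, hn⟩ := IsPGroup.iff_card.1 S.ld.tp.pg
    rw [hn] at hLV
    obtain ⟨k, -, hk⟩ := (Nat.dvd_prime_pow hℓ.out).1 hLV
    rw [hk] at h1 ⊢
    apply dvd_pow_self
    rintro rfl
    rw [pow_zero] at h1
    exact lt_irrefl _ h1
  have hℓm : ¬ ℓ ∣ m := by
    intro h
    have h2 : ℓ ∣ m * K + 1 := hL ▸ hℓL
    have h3 := (Nat.dvd_add_right (h.mul_right K)).1 h2
    exact hℓ.out.one_lt.ne' (Nat.dvd_one.1 h3)
  obtain ⟨q, hq⟩ := hLV
  obtain ⟨Rp, hRp1, hRp2⟩ := fsy ℓ M hlM G H a e V γ y β π m K g S i hi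
  have hcc := ccy ℓ M hlM G H a e V γ y β π m K g S i hi Rp hRp2
  rw [← hL] at hRp1
  obtain ⟨R₀, hR₀⟩ : ∃ R₀ : ℤ, R₀ = Rp ⟨0, hm⟩ := ⟨_, rfl⟩
  have hdv : ∀ p, ∃ t : ℤ, Rp p = R₀ + L * t := by
    intro p
    obtain ⟨t, ht⟩ := hRp1 p ⟨0, hm⟩
    exact ⟨t, by rw [hR₀]; linarith⟩
  choose r hr using hdv
  have hix0 : (ix V γ : ℂ) ≠ 0 := by
    intro h
    apply hix
    have h1 : ix V γ = 0 := by exact_mod_cast h
    rw [h1]
    exact dvd_zero _
  have hm0 : (m : ℂ) ≠ 0 := by exact_mod_cast hm.ne'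
  have hL0 : (L : ℂ) ≠ 0 := by exact_mod_cast (by omega : L ≠ 0)
  have hLc : (L : ℂ) = m * K + 1 := by rw [hL]; push_cast; rfl
  -- the values of the norm
  obtain ⟨r', hr'⟩ : ∃ r' : ℤ, ∀ j : ℕ, ¬ ℓ ∣ j →
      (ix V γ : ℂ)⁻¹ * T8.cc V γ i (y ^ j) = (R₀ : ℂ) ^ 2 + L * ((m : ℂ)⁻¹ * r') := by
    refine ⟨2 * R₀ * (∑ p, r p) + ∑ p, r p ^ 2 + K * (∑ p, r p) ^ 2, fun j hj => ?_⟩
    have h2 := hcc j hj
    rw [← hL] at h2
    have h3 : ∑ p, (Rp p : ℂ) = m * R₀ + L * ∑ p, (r p : ℂ) := by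
      have : ∀ p, (Rp p : ℂ) = R₀ + L * (r p : ℂ) := fun p => by rw [hr p]; push_cast; rfl
      rw [Finset.sum_congr rfl fun p _ => this p, Finset.sum_add_distrib, Finset.sum_const,
        Finset.card_univ, Fintype.card_fin, nsmul_eq_mul, Finset.mul_sum]
    have h4 : ∑ p, (Rp p : ℂ) ^ 2 =
        m * (R₀ : ℂ) ^ 2 + 2 * L * R₀ * (∑ p, (r p : ℂ)) + (L : ℂ) ^ 2 * ∑ p, (r p : ℂ) ^ 2 := by
      have : ∀ p, (Rp p : ℂ) ^ 2 = (R₀ : ℂ) ^ 2 + 2 * L * R₀ * (r p : ℂ) +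
          (L : ℂ) ^ 2 * (r p : ℂ) ^ 2 := fun p => by
        rw [hr p]
        push_cast
        ring
      rw [Finset.sum_congr rfl fun p _ => this p, Finset.sum_add_distrib, Finset.sum_add_distrib,
        Finset.sum_const, Finset.card_univ, Fintype.card_fin, nsmul_eq_mul, Finset.mul_sum,
        Finset.mul_sum]
    rw [h3, h4] at h2
    have h5 : T8.cc V γ i (y ^ j) = ix V γ * ((m * (R₀ : ℂ) ^ 2 + 2 * L * R₀ * (∑ p, (r p : ℂ)) +
        (L : ℂ) ^ 2 * (∑ p, (r p : ℂ) ^ 2) + K * (m * R₀ + L * ∑ p, (r p : ℂ)) ^ 2) / (m * L)) := by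
      field_simp
      linear_combination h2
    rw [h5, inv_mul_cancel_left₀ hix0]
    push_cast
    generalize ∑ p, (r p : ℂ) = ρ
    generalize ∑ p, (r p : ℂ) ^ 2 = ρ₂
    field_simp
    rw [hLc]
    ring
  -- the square
  have hsq : ∀ j : ℕ, ¬ ℓ ∣ j → ∃ z ∈ RM M, (s (y ^ j) * R₀) ^ 2 = 1 + L * z := by
    intro j hj
    obtain ⟨t, ht, h2⟩ := hs3 (y ^ j) (hyV j)
    rw [hr' j hj] at h2
    refine ⟨q * t - s (y ^ j) ^ 2 * ((m : ℂ)⁻¹ * r'), sub_mem (mul_mem (rr_nat (M := M) q).1 ht)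
      (mul_mem (pow_mem (hs4 _ (hyV j)).1 2) (mul_mem (inv_nat_RM hℓ.out hlM hℓm)
        (rr_int (M := M) _).1)), ?_⟩
    have h3 : ((Nat.card V : ℕ) : ℂ) = L * q := by rw [hq]; push_cast; rfl
    rw [h3] at h2
    linear_combination h2
  have hsR : ∀ j : ℕ, s (y ^ j) * R₀ ∈ RM M := fun j =>
    mul_mem (hs4 _ (hyV j)).1 (rr_int (M := M) _).1
  have hone : ¬ ℓ ∣ 1 := fun h => hℓ.out.one_lt.ne' (Nat.dvd_one.1 h)
  obtain ⟨z₁, hz₁, hz₁'⟩ := hsq 1 hone
  obtain ⟨θ, hθ, hθr⟩ := sq_res hlM (hsR 1) hz₁ hℓL hz₁'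
  refine ⟨θ, hθ, fun χ hχ hf j hj => ?_⟩
  have hres : rr M (s (y ^ j) * R₀) = (θ : FF M) := by
    rw [← hθr, rr_mul (hs4 _ (hyV j)).1 (rr_int (M := M) _).1,
      rr_mul (hs4 _ (hyV 1)).1 (rr_int (M := M) _).1, (hs4 _ (hyV j)).2, (hs4 _ (hyV 1)).2]
  obtain ⟨z, hz, hz'⟩ := hsq j hj
  obtain ⟨w, hw, hw'⟩ := sq_root hlM hℓ2 (hsR j) hz hz' hθ hres
  have h2 : (fs V γ i (y ^ j) χ * s (y ^ j) - θ * bq ℓ π g (y ^ j) χ) / (L : ℂ) =
      w * bq ℓ π g (y ^ j) χ + s (y ^ j) * ∑ p, (r p : ℂ) * Av ℓ π (y ^ j) (g p) χ := by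
    rw [div_eq_iff hL0, hRp2 j hj χ hχ]
    have h3 : ∑ p, (Rp p : ℂ) * Av ℓ π (y ^ j) (g p) χ = R₀ * bq ℓ π g (y ^ j) χ +
        L * ∑ p, (r p : ℂ) * Av ℓ π (y ^ j) (g p) χ := by
      unfold bq
      rw [Finset.mul_sum, Finset.mul_sum, ← Finset.sum_add_distrib]
      refine Finset.sum_congr rfl fun p _ => ?_
      rw [hr p]
      push_cast
      ring
    rw [h3]
    linear_combination (bq ℓ π g (y ^ j) χ) * hw'
  rw [h2]
  exact add_mem (mul_mem hw (hbq χ hχ j)) (mul_mem (hs4 _ (hyV j)).1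
    (sum_mem fun p _ => mul_mem (rr_int (M := M) _).1 (hav p χ hχ j)))

/-- CO2 -/
theorem co2 (se2 : Se2Stmt) (fsy : FsyStmt) (ccy : CcyStmt) (cid : CidStmt) (csq : CsqStmt)
    (fch : FchStmt) (rva : RvaStmt) (geq : GeqStmt) (dpw : DpwStmt) (int2 : C2.Int2Stmt) :
    Co2Stmt := by
  classical
  intro ℓ hℓ M _ hlM hℓ2 G H _ _ _ _ N gs e V γ b d c ε D hex a y β π m K g S
  have hab := D.ld.ab
  obtain ⟨rconst, rring, rcard, rval, rconj, rcongr⟩ := rva M G V hab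
  obtain ⟨u₀, hu₀⟩ := hex
  obtain ⟨i, hi⟩ := cid ℓ M hlM G e V γ D.ld
  obtain ⟨R, hR⟩ := csq ℓ M hlM hℓ2 G e V γ b d c ε D i hi
  obtain ⟨κ, hκ, hκ1, -⟩ := H50.exists_irr_blk D.ld.gam.blk
  have hκE : κ ∈ IrrE M (fun t : Subgroup.centralizer (V : Set G) => γ t) := ⟨hκ, hκ1⟩
  have hnz := hi.nz κ hκE
  set ρ := rr M (∑ᶠ t : Subgroup.centralizer (V : Set G), i t * κ t) with hρ
  have := Fintype.ofFinite G
  have := Fintype.ofFinite (Tg V γ ⧸ (Subgroup.centralizer (V : Set G)).subgroupOf (Tg V γ))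
  have hfin : (Irr G).Finite := Set.toFinite _
  -- the inertial index
  have hix : ¬ ℓ ∣ ix V γ := H34.inx ℓ M hlM G e D.ld.blk V D.ld.tp hab γ D.ld.gam.supp
    D.ld.gam.blk D.ld.und
  have hixF : (ix V γ : FF M) ≠ 0 := by
    intro h
    apply hix
    have h1 := (dvd_of_rr (M := M) hℓ.out hlM (n := (ix V γ : ℤ))).1 (by
      rw [(rr_int (M := M) _).2]
      exact_mod_cast h)
    exact_mod_cast h1
  have hix0 : (ix V γ : ℂ) ≠ 0 := by
    intro h
    apply hix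
    have h1 : ix V γ = 0 := by exact_mod_cast h
    rw [h1]
    exact dvd_zero _
  have hTN : ∀ q : Tg V γ, (q : G) ∈ Subgroup.normalizer (V : Set G) := fun q => q.2.1
  -- the functions `fs`
  have hfv : ∀ ψ ∈ Irr G, Rv M V (fun z => fv i z ψ) := by
    intro ψ hψ lam
    obtain ⟨m, hm⟩ := fch M G V hab i hi.ip ψ hψ lam
    rw [hm]
    exact (rr_nat (M := M) m).1
  have hfseq : ∀ ψ : G → ℂ, ∀ z, fs V γ i z ψ =
      ∑ q : Tg V γ ⧸ (Subgroup.centralizer (V : Set G)).subgroupOf (Tg V γ),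
        fv i ((q.out : G) * z * (q.out : G)⁻¹) ψ := fun ψ z => by
    unfold fs
    rw [finsum_eq_sum_of_fintype]
  have hfs : ∀ ψ ∈ Irr G, Rv M V (fun z => fs V γ i z ψ) := by
    intro ψ hψ
    have h1 := rv_sum M rva V hab Finset.univ
      (fun (q : Tg V γ ⧸ (Subgroup.centralizer (V : Set G)).subgroupOf (Tg V γ)) z =>
        fv i ((q.out : G) * z * (q.out : G)⁻¹) ψ)
      (fun q _ => rconj _ (hfv ψ hψ) _ (hTN q.out))
    have h2 : (fun z => fs V γ i z ψ) = fun z =>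
        ∑ q : Tg V γ ⧸ (Subgroup.centralizer (V : Set G)).subgroupOf (Tg V γ),
          fv i ((q.out : G) * z * (q.out : G)⁻¹) ψ := funext fun z => hfseq ψ z
    rw [h2]
    exact h1
  -- the mean values
  have hmean : ∀ ψ ∈ Irr G, ((Nat.card V : ℂ)⁻¹ * ∑ᶠ v : V, fs V γ i v ψ) ∈ RM M := by
    intro ψ hψ
    obtain ⟨m, hm⟩ := fch M G V hab i hi.ip ψ hψ 1
    have h1 : ∑ᶠ v : V, fs V γ i v ψ =
        ∑ q : Tg V γ ⧸ (Subgroup.centralizer (V : Set G)).subgroupOf (Tg V γ),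
          ∑ᶠ v : V, fv i v ψ := by
      have := Fintype.ofFinite V
      rw [finsum_eq_sum_of_fintype]
      simp_rw [hfseq]
      rw [Finset.sum_comm]
      refine Finset.sum_congr rfl fun q _ => ?_
      rw [← sum_conj V (hTN q.out) (fun z => fv i z ψ), finsum_eq_sum_of_fintype]
    have h2 : ∑ᶠ v : V, fv i v ψ * (1 : V →* ℂ) v⁻¹ = ∑ᶠ v : V, fv i v ψ :=
      finsum_congr fun v => by rw [MonoidHom.one_apply, mul_one]
    rw [h2] at hm
    rw [h1, Finset.sum_const, nsmul_eq_mul, mul_left_comm, hm]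
    exact (RM M).mul_mem (rr_nat (M := M) _).1 (rr_nat (M := M) _).1
  have hcceq : ∀ z, T8.cc V γ i z = ∑ ψ ∈ hfin.toFinset,
      ((Nat.card V : ℂ)⁻¹ * ∑ᶠ v : V, fs V γ i v ψ) * fs V γ i z ψ := by
    intro z
    unfold T8.cc
    rw [finsum_mem_eq_finite_toFinset_sum _ hfin]
  have hcc : Rv M V (fun z => T8.cc V γ i z) := by
    have h2 : (fun z => T8.cc V γ i z) = fun z => ∑ ψ ∈ hfin.toFinset,
        ((Nat.card V : ℂ)⁻¹ * ∑ᶠ v : V, fs V γ i v ψ) * fs V γ i z ψ := funext hcceq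
    rw [h2]
    refine rv_sum M rva V hab _ _ fun ψ hψ => ?_
    have hψ' := hfin.mem_toFinset.1 hψ
    exact (rring _ _ (rconst _ (hmean ψ hψ')) (hfs ψ hψ')).2
  set g₀ : G → ℂ := fun z => (ix V γ : ℂ)⁻¹ * T8.cc V γ i z with hg
  have hgR : Rv M V g₀ := (rring _ _ (rconst _ (inv_nat_RM hℓ.out hlM hix)) hcc).2
  -- the integers `R'`
  have hε : ∀ u, Rg V γ u → ε u * ε u = 1 := fun u hu => by
    rcases D.sg u hu with h | h <;> rw [h] <;> norm_num
  set R' : G → ℤ := fun u => ε u * R u with hR'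
  have hRρ : ∀ u, Rg V γ u → rr M ((R' u : ℤ) : ℂ) = ix V γ * ρ := by
    intro u hu
    rw [(rr_int (M := M) _).2, ← (hR u hu).2.1 κ hκE]
    rw [hR', mul_comm]
  have hn : ¬ (ℓ : ℤ) ∣ R' u₀ := by
    intro h
    have h1 := (dvd_of_rr (M := M) hℓ.out hlM (n := R' u₀)).2 h
    rw [hRρ u₀ hu₀] at h1
    exact mul_ne_zero hixF hnz h1
  have hX : ∀ y ∈ {u | Rg V γ u}, y ∈ V ∧ g₀ y = (R' y : ℂ) ^ 2 ∧ (ℓ : ℤ) ∣ R' y - R' u₀ := by
    intro y hy
    have hy' : Rg V γ y := hy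
    refine ⟨hy'.1, ?_, ?_⟩
    · have h1 := hε y hy'
      have h2 : (ε y : ℂ) * (ε y : ℂ) = 1 := by exact_mod_cast h1
      rw [hg, hR']
      show (ix V γ : ℂ)⁻¹ * T8.cc V γ i y = ((ε y * R y : ℤ) : ℂ) ^ 2
      rw [(hR y hy').2.2, inv_mul_cancel_left₀ hix0]
      push_cast
      rw [mul_pow, pow_two (ε y : ℂ), h2, one_mul]
    · refine (dvd_of_rr (M := M) hℓ.out hlM).1 ?_
      push_cast
      rw [rr_sub (M := M) (rr_int (M := M) _).1 (rr_int (M := M) _).1, hRρ y hy', hRρ u₀ hu₀,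
        sub_self]
  obtain ⟨s, hsR, hs1, hs3, hs4, hs2⟩ := se2 ℓ M hlM hℓ2 G V D.ld.tp.pg hab g₀ hgR
    {u | Rg V γ u} R' (R' u₀) hn ⟨u₀, hu₀⟩ hX
  obtain ⟨θ, hθ, hθy⟩ := ypart fsy ccy int2 hlM hℓ2 hix D.ld.ab S hi hs3 hs4
  refine ⟨θ, hθ, fun χ hχ => ?_⟩
  refine ⟨fun z => fs V γ i z χ * s z, (rring _ _ (hfs χ hχ) hsR).2, fun u hu => ?_, ?_, ?_⟩
  · have h1 := hs1 u hu
    have h2 : (ε u : ℂ) * (ε u : ℂ) = 1 := by exact_mod_cast hε u hu
    have h3 : s u * R u = ε u := by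
      have h4 : s u * ((ε u : ℂ) * R u) = 1 := by
        rw [← h1, hR']
        push_cast
        rfl
      calc s u * R u = ((ε u : ℂ) * ε u) * (s u * R u) := by rw [h2, one_mul]
        _ = ε u * (s u * ((ε u : ℂ) * R u)) := by ring
        _ = ε u := by rw [h4, mul_one]
    show fs V γ i u χ * s u = _
    rw [(hR u hu).1 χ hχ, ← h3]
    ring
  -- the power map
  · intro hχN v hv
    have hpw : ∀ ψ ∈ Irr G, ∀ z ∈ V, fs V γ i (z ^ N) ψ = fs V γ i z (fun g => ψ (g ^ N)) := by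
      intro ψ hψ z hz
      rw [hfseq, hfseq]
      refine Finset.sum_congr rfl fun q _ => ?_
      have h1 : (q.out : G) * z ^ N * (q.out : G)⁻¹ = ((q.out : G) * z * (q.out : G)⁻¹) ^ N :=
        conj_pow.symm
      rw [h1]
      exact geq ℓ M hlM G N gs V D.ld.tp.pg hab i hi.ip ψ hψ _
        ((Subgroup.mem_normalizer_iff.1 (hTN q.out) z).1 hz)
    have hchi : (fun g => χ (g ^ N)) = χ := funext hχN
    have hgN : ∀ v ∈ V, g₀ (v ^ N) = g₀ v := by
      intro v hv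
      rw [hg]
      show (ix V γ : ℂ)⁻¹ * T8.cc V γ i (v ^ N) = (ix V γ : ℂ)⁻¹ * T8.cc V γ i v
      rw [hcceq, hcceq]
      congr 1
      have hinj : Set.InjOn (fun (ψ : G → ℂ) (g : G) => ψ (g ^ N)) (Irr G) := by
        intro ψ₁ _ ψ₂ _ h
        funext x
        obtain ⟨y, hy⟩ := (H23.pow_bij gs.cop).2 x
        have h1 := congrFun h y
        have hy' : y ^ N = x := hy
        simp only [hy'] at h1
        exact h1
      have hmaps : ∀ ψ ∈ hfin.toFinset, (fun g : G => ψ (g ^ N)) ∈ hfin.toFinset := fun ψ hψ =>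
        hfin.mem_toFinset.2 (H23.irr_pow ada_ gs.cop (hfin.mem_toFinset.1 hψ))
      have himg : hfin.toFinset.image (fun (ψ : G → ℂ) (g : G) => ψ (g ^ N)) = hfin.toFinset := by
        refine Finset.eq_of_subset_of_card_le ?_ ?_
        · intro ψ hψ
          obtain ⟨ψ', h1, h2⟩ := Finset.mem_image.1 hψ
          rw [← h2]
          exact hmaps ψ' h1
        · rw [Finset.card_image_of_injOn]
          intro a ha b hb h
          exact hinj (hfin.mem_toFinset.1 ha) (hfin.mem_toFinset.1 hb) h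
      have h3 : ∑ ψ ∈ hfin.toFinset, ((Nat.card V : ℂ)⁻¹ * ∑ᶠ w : V, fs V γ i w ψ) *
          fs V γ i v ψ = ∑ ψ ∈ hfin.toFinset, ((Nat.card V : ℂ)⁻¹ * ∑ᶠ w : V,
            fs V γ i w (fun g => ψ (g ^ N))) * fs V γ i v (fun g => ψ (g ^ N)) := by
        conv_lhs => rw [← himg]
        rw [Finset.sum_image]
        intro a ha b hb h
        exact hinj (hfin.mem_toFinset.1 ha) (hfin.mem_toFinset.1 hb) h
      rw [h3]
      refine Finset.sum_congr rfl fun ψ hψ => ?_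
      have hψ' := hfin.mem_toFinset.1 hψ
      rw [hpw ψ hψ' v hv]
      have h4 : ∑ᶠ w : V, fs V γ i w (fun g => ψ (g ^ N)) = ∑ᶠ w : V, fs V γ i w ψ := by
        rw [← sum_pow V gs.cop (fun z => fs V γ i z ψ)]
        exact finsum_congr fun w => (hpw ψ hψ' w w.2).symm
      rw [h4]
    have hlN : ¬ ℓ ∣ N := by
      intro h
      have h1 : ℓ ∣ Nat.card V := by
        have h2 : Nat.card V ≠ 1 := by
          intro h2
          have h3 := Subgroup.eq_bot_of_card_eq V h2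
          rw [h3] at hu₀
          exact hu₀.2.1 (Subgroup.mem_bot.1 hu₀.1)
        obtain ⟨n, hn⟩ := IsPGroup.iff_card.1 D.ld.tp.pg
        rw [hn] at h2 ⊢
        have h3 : n ≠ 0 := fun h => h2 (by rw [h, pow_zero])
        exact dvd_pow_self ℓ h3
      have h2 := gs.cop
      have h3 := Nat.dvd_gcd h (h1.trans (Subgroup.card_subgroup_dvd_card V))
      rw [h2] at h3
      exact hℓ.out.one_lt.ne' (Nat.dvd_one.1 h3)
    have hXN : ∀ v ∈ V, v ^ N ∈ {u | Rg V γ u} ↔ v ∈ {u | Rg V γ u} := fun v hv =>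
      (dpw ℓ M hlM hℓ2 G e V γ b d c ε D).2.2 v hv N hlN
    show fs V γ i (v ^ N) χ * s (v ^ N) = fs V γ i v χ * s v
    rw [hs2 N hgN hXN v hv, hpw χ hχ v hv, hchi]
  · intro j hj
    have hyV : y ^ j ∈ V := V.pow_mem S.mem j
    exact hθy χ hχ (fun v hv => rval _ (hfs χ hχ) v hv) j hj

end Pool.Agent.PP.T12.H1
end
end -- Pool.Agent.Helper1_AT12.CO2
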