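import Pool.Agent.Helper12_AWB.B195
import Pool.Agent.Helper12_AWB.B196
import Pool.Agent.Helper12_AWB.B201
import Pool.Agent.Helper12_AWB.B203
import Pool.Agent.Helper12_AWB.B205
import Pool.Agent.Helper12_AWB.B206
import Pool.Agent.Helper12_AWB.B207
import Pool.Agent.Helper12_AWB.B222
import Pool.Agent.Helper12_AWB.B238
import Pool.Agent.Helper12_AWB.B259
import Pool.Agent.Helper12_AWB.B277
import Pool.Agent.Helper12_AWB.B291

/-!
# Merged copies (generated) of the modules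

* `Pool.Agent.Helper10_AT8.RTR`
* `Pool.Agent.Helper39_AT8.AV2`
* `Pool.Agent.Helper45_AT8.RGS`
* `Pool.Agent.Helper84_AT8.CID`
* `Pool.Agent.Helper8_AT8.DAT`
* `Pool.Agent.Helper92_AT8.CPR`
* `Pool.Agent.AT8.Asm`
-/

set_option autoImplicit false

section -- Pool.Agent.Helper10_AT8.RTR

/-! Squad AT8, row RTR (helper10): regular elements of `V` from the abstract rows. -/

open scoped BigOperators

noncomputable section

namespace Pool.Agent.PP.T8.H10

open Pool.Agent.Helper51_AWC Pool.Agent.Helper79_WRA Pool.Agent.PP Pool.Agent.PP.KF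
open Pool.Agent.PP.K9 Pool.Agent.PP.K9.H97 Pool.Agent.PP.H75 Pool.Agent.PP.T3 Pool.Agent.PP.T2
open Pool.Agent.PP.T8

/-- the averaging argument -/
theorem fixed (ℓ : ℕ) [hℓ : Fact ℓ.Prime] (V : Type) [CommGroup V] [Finite V] (a : ℕ) (ha : 0 < a)
    (hexp : Monoid.exponent V = ℓ ^ a) (y : V) (hy : orderOf y = ℓ ^ a) (φ : MulAut V) (m : ℕ)
    (hm : ¬ ℓ ∣ m) (hφ : φ ^ m = 1) (v : V) (hv : φ y = y * v ^ ℓ) :
    ∃ y' : V, y' ≠ 1 ∧ φ y' = y' := by
  have hp : ∀ i : ℕ, ∃ w : V, (φ ^ i) y = y * w ^ ℓ := by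
    intro i
    induction i with
    | zero => exact ⟨1, by simp⟩
    | succ i ih =>
      obtain ⟨w, hw⟩ := ih
      refine ⟨v * φ w, ?_⟩
      rw [pow_succ', MulAut.mul_apply, hw, map_mul, map_pow, hv, mul_pow, mul_assoc]
  choose w hw using hp
  have hmp : 0 < m := Nat.pos_of_ne_zero fun h => hm (h ▸ dvd_zero ℓ)
  refine ⟨∏ i ∈ Finset.range m, (φ ^ i) y, ?_, ?_⟩
  · intro h1
    have h2 : y ^ m * (∏ i ∈ Finset.range m, w i) ^ ℓ = 1 := by
      rw [← h1, Finset.prod_congr rfl fun i _ => hw i, Finset.prod_mul_distrib, Finset.prod_const,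
        Finset.card_range, Finset.prod_pow]
    have h3 : y ^ m = ((∏ i ∈ Finset.range m, w i)⁻¹) ^ ℓ := by
      rw [inv_pow]
      exact eq_inv_of_mul_eq_one_left h2
    have hcop : m.Coprime (orderOf y) := by
      rw [hy]
      exact Nat.Coprime.pow_right a ((Nat.Prime.coprime_iff_not_dvd hℓ.out).2 hm).symm
    obtain ⟨k, hk⟩ := exists_pow_eq_self_of_coprime hcop
    have h4 : y = (((∏ i ∈ Finset.range m, w i)⁻¹) ^ k) ^ ℓ := by
      rw [← hk, h3, ← pow_mul, ← pow_mul, mul_comm ℓ k]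
    have h5 : y ^ ℓ ^ (a - 1) = 1 := by
      rw [h4, ← pow_mul]
      have h6 : ℓ * ℓ ^ (a - 1) = Monoid.exponent V := by
        rw [hexp, ← pow_succ', Nat.sub_add_cancel ha]
      rw [h6]
      exact Monoid.pow_exponent_eq_one _
    have h7 := orderOf_dvd_of_pow_eq_one h5
    rw [hy] at h7
    have h8 := (Nat.pow_dvd_pow_iff_le_right hℓ.out.one_lt).1 h7
    omega
  · rw [map_prod]
    have h1 : ∀ i, φ ((φ ^ i) y) = (φ ^ (i + 1)) y := fun i => by
      rw [pow_succ', MulAut.mul_apply]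
    simp only [h1]
    obtain ⟨m', rfl⟩ : ∃ m', m = m' + 1 := ⟨m - 1, by omega⟩
    rw [Finset.prod_range_succ, Finset.prod_range_succ' (fun i => (φ ^ i) y), hφ]
    simp

theorem rtr (hA : RgaStmt) (hS : RgsStmt) (hB : RgbStmt) : RtrStmt := by
  intro ℓ hℓ F _ hF G _ _ e V γ hL hix a hexp
  have hab : ∀ a b : V, a * b = b * a := fun a b => Subtype.ext (hL.ab a a.2 b b.2)
  letI : CommGroup V := { (inferInstance : Group V) with mul_comm := hab }
  have hTN : Tg V γ ≤ Subgroup.normalizer (V : Set G) := inf_le_left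
  let f : Tg V γ →* MulAut V := (V.normalizerMonoidHom).comp (Subgroup.inclusion hTN)
  have hfv : ∀ (t : Tg V γ) (v : V), ((f t v : V) : G) = t * v * (t : G)⁻¹ := fun t v => rfl
  have hker : ∀ t : Tg V γ, f t = 1 ↔ (t : G) ∈ Subgroup.centralizer (V : Set G) := by
    intro t
    constructor
    · intro h
      rw [Subgroup.mem_centralizer_iff]
      intro v hv
      have h1 : f t ⟨v, hv⟩ = ⟨v, hv⟩ := by rw [h]; rfl
      have h2 := congrArg (fun z : V => (z : G)) h1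
      have h3 : (t : G) * v * (t : G)⁻¹ = v := (hfv t ⟨v, hv⟩).symm.trans h2
      calc v * (t : G) = ((t : G) * v * (t : G)⁻¹) * t := by rw [h3]
        _ = t * v := by group
    · intro h
      ext v
      rw [hfv]
      have h1 := (Subgroup.mem_centralizer_iff.1 h) v v.2
      change (t : G) * v * (t : G)⁻¹ = v
      rw [← h1]
      group
  have hkk : f.ker = (Subgroup.centralizer (V : Set G)).subgroupOf (Tg V γ) := by
    ext t
    rw [MonoidHom.mem_ker, hker, Subgroup.mem_subgroupOf]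
  have hcard : Nat.card f.range = ix V γ := by
    rw [← Subgroup.index_ker, hkk]
    rfl
  have hreg : ∀ (k : ℕ) (y : V), orderOf y = ℓ ^ a →
      (∀ s ∈ f.range, ∀ v : V, s y = y * v ^ ℓ ^ k → s = 1) → Rk ℓ a k V γ (y : G) := by
    intro k y hy h
    refine ⟨y.2, ?_, ?_⟩
    · rw [Subgroup.orderOf_coe]
      exact hy
    · intro t ht v hv htv
      refine (hker ⟨t, ht⟩).1 (h _ ⟨⟨t, ht⟩, rfl⟩ ⟨v, hv⟩ ?_)
      exact Subtype.ext htv
  refine ⟨?_, ?_⟩
  · intro ha hE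
    rcases hE with hE | hE | hE
    · obtain ⟨y, hy, h⟩ := hA ℓ V a ha hexp f.range (by rw [hcard]; exact hix) (by
        rintro s ⟨s', rfl⟩ t ⟨t', rfl⟩
        have h1 := (hker (s' * t' * s'⁻¹ * t'⁻¹)).2 (hE s' s'.2 t' t'.2)
        rw [map_mul, map_mul, map_mul, map_inv, map_inv] at h1
        calc f s' * f t' = (f s' * f t' * (f s')⁻¹ * (f t')⁻¹) * (f t' * f s') := by group
          _ = f t' * f s' := by rw [h1, one_mul])
      exact ⟨y, hreg 1 y hy (by simpa only [pow_one] using h)⟩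
    · obtain ⟨y, hy, h⟩ := hS ℓ V a ha hexp f.range (by rw [hcard]; exact hE)
      exact ⟨y, hreg 1 y hy (by simpa only [pow_one] using h)⟩
    · obtain ⟨y, hy, -⟩ := hA ℓ V a ha hexp ⊥ (by
        rw [Nat.card_eq_one_iff_unique.2 ⟨inferInstance, inferInstance⟩]
        exact fun h => hℓ.out.one_lt.ne' (Nat.dvd_one.1 h)) (by
        intro s hs t ht
        rw [Subgroup.mem_bot.1 hs, Subgroup.mem_bot.1 ht])
      refine ⟨y, hreg 1 y hy ?_⟩
      rintro s ⟨t, rfl⟩ v hv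
      rw [pow_one] at hv
      have hm : (f t) ^ (ix V γ) = 1 := by
        have h1 := Subgroup.pow_mem f.range (⟨t, rfl⟩ : f t ∈ f.range) 1
        have h2 : (⟨f t, ⟨t, rfl⟩⟩ : f.range) ^ Nat.card f.range = 1 := pow_card_eq_one'
        have h3 := congrArg (fun z : f.range => (z : MulAut V)) h2
        rw [hcard] at h3
        exact h3
      obtain ⟨y', hy1, hy2⟩ := fixed ℓ V a ha hexp y hy (f t) (ix V γ) hix hm v hv
      rw [hker]
      refine hE t t.2 y' y'.2 (fun h => hy1 (Subtype.ext h)) ?_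
      have h1 : (t : G) * y' * (t : G)⁻¹ = y' := by
        rw [← hfv, hy2]
      calc (t : G) * y' = ((t : G) * y' * (t : G)⁻¹) * t := by group
        _ = y' * t := by rw [h1]
  · rintro ha ⟨x, z, hxz⟩
    have hx : x ∈ V := by
      rw [hxz]; exact Subgroup.subset_closure (Set.mem_insert _ _)
    have hz : z ∈ V := by
      rw [hxz]; exact Subgroup.subset_closure (Set.mem_insert_of_mem _ rfl)
    obtain ⟨y, hy, h⟩ := hB ℓ V a ha hexp ⟨⟨x, hx⟩, ⟨z, hz⟩, by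
      apply Subgroup.map_injective V.subtype_injective
      rw [← MonoidHom.range_eq_map, Subgroup.range_subtype, MonoidHom.map_closure, Set.image_pair]
      exact hxz⟩ f.range (by rw [hcard]; exact hix)
    exact ⟨y, hreg 2 y hy h⟩

end Pool.Agent.PP.T8.H10
end
end -- Pool.Agent.Helper10_AT8.RTR

section -- Pool.Agent.Helper39_AT8.AV2

/-!
# Squad AT8, row AV2: the averages for a fixed character are in the field of the `ℓ`-th roots of unity
-/

open scoped BigOperators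

noncomputable section

namespace Pool.Agent.PP.T8.H39

open Pool.Agent.Helper51_AWC Pool.Agent.Helper79_WRA Pool.Agent.PP Pool.Agent.PP.KF
open Pool.Agent.PP.K9 Pool.Agent.PP.K9.H97 Pool.Agent.PP.H75 Pool.Agent.PP.T3 Pool.Agent.PP.T2

attribute [local instance] Ideal.Quotient.field

/-- a geometric sum of roots of unity -/
theorem geo {ℓ a : ℕ} (hℓ : ℓ.Prime) (ha : 0 < a) {ζ : ℂ} (hζ : IsPrimitiveRoot ζ (ℓ ^ a)) (i : ℕ) :
    ∑ t ∈ Finset.range (ℓ ^ (a - 1)), ζ ^ (i * (ℓ * t)) =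
      if ℓ ^ (a - 1) ∣ i then (ℓ : ℂ) ^ (a - 1) else 0 := by
  have hpow : ℓ ^ a = ℓ ^ (a - 1) * ℓ := by
    rw [← pow_succ, Nat.sub_add_cancel ha]
  have h1 : ∀ t : ℕ, ζ ^ (i * (ℓ * t)) = (ζ ^ (i * ℓ)) ^ t := by
    intro t
    rw [← pow_mul]
    ring_nf
  simp only [h1]
  split_ifs with h
  · obtain ⟨c, rfl⟩ := h
    have h2 : ζ ^ (ℓ ^ (a - 1) * c * ℓ) = 1 := by
      have e1 : ℓ ^ (a - 1) * c * ℓ = ℓ ^ a * c := by rw [hpow]; ring
      rw [e1, pow_mul, hζ.pow_eq_one, one_pow]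
    rw [h2]
    simp
  · have h2 : ζ ^ (i * ℓ) ≠ 1 := by
      intro h3
      rw [hζ.pow_eq_one_iff_dvd, hpow] at h3
      exact h (Nat.dvd_of_mul_dvd_mul_right hℓ.pos h3)
    have h3 := geom_sum_mul (ζ ^ (i * ℓ)) (ℓ ^ (a - 1))
    have h4 : (ζ ^ (i * ℓ)) ^ ℓ ^ (a - 1) = 1 := by
      have e1 : i * ℓ * ℓ ^ (a - 1) = ℓ ^ a * i := by rw [hpow]; ring
      rw [← pow_mul, e1, pow_mul, hζ.pow_eq_one, one_pow]
    rw [h4, sub_self] at h3
    rcases mul_eq_zero.1 h3 with h5 | h5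
    · exact h5
    · exact absurd (sub_eq_zero.1 h5) h2

/-- a function of `j` modulo `ℓ` which is a combination of the powers of `ζ` is a combination of the
powers of `ζ ^ (ℓ ^ (a - 1))` -/
theorem avg {ℓ a : ℕ} (hℓ : ℓ.Prime) (ha : 0 < a) {ζ : ℂ} (hζ : IsPrimitiveRoot ζ (ℓ ^ a))
    (n : ℕ → ℤ) (g : ℕ → ℂ)
    (hg : ∀ j, ¬ ℓ ∣ j → g j = ∑ i ∈ Finset.range (ℓ ^ a), (n i : ℂ) * ζ ^ (i * j))
    (hper : ∀ j j', ¬ ℓ ∣ j → j ≡ j' [MOD ℓ] → g j = g j') (j : ℕ) (hj : ¬ ℓ ∣ j) :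
    g j = ∑ i ∈ Finset.range ℓ, (n (i * ℓ ^ (a - 1)) : ℂ) * (ζ ^ ℓ ^ (a - 1)) ^ (i * j) := by
  have hpow : ℓ ^ a = ℓ ^ (a - 1) * ℓ := by
    rw [← pow_succ, Nat.sub_add_cancel ha]
  have hq : 0 < ℓ ^ (a - 1) := pow_pos hℓ.pos _
  have hqc : (ℓ : ℂ) ^ (a - 1) ≠ 0 := pow_ne_zero _ (by exact_mod_cast hℓ.ne_zero)
  have h1 : ∀ t : ℕ, g j = ∑ i ∈ Finset.range (ℓ ^ a), (n i : ℂ) * ζ ^ (i * j) *
      ζ ^ (i * (ℓ * t)) := by
    intro t
    have hmod : j ≡ j + ℓ * t [MOD ℓ] := by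
      unfold Nat.ModEq
      rw [Nat.add_mul_mod_self_left]
    have hnd : ¬ ℓ ∣ j + ℓ * t := by
      intro h
      exact hj ((Nat.dvd_add_left (dvd_mul_right ℓ t)).1 h)
    rw [hper j (j + ℓ * t) hj hmod, hg _ hnd]
    refine Finset.sum_congr rfl fun i _ => ?_
    rw [mul_add, pow_add]
    ring
  have h2 : (ℓ : ℂ) ^ (a - 1) * g j = ∑ i ∈ Finset.range (ℓ ^ a), (n i : ℂ) * ζ ^ (i * j) *
      (if ℓ ^ (a - 1) ∣ i then (ℓ : ℂ) ^ (a - 1) else 0) := by
    have h3 : ∑ t ∈ Finset.range (ℓ ^ (a - 1)), g j = (ℓ : ℂ) ^ (a - 1) * g j := by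
      rw [Finset.sum_const, Finset.card_range, nsmul_eq_mul]
      push_cast
      rfl
    rw [← h3, Finset.sum_congr rfl fun t _ => h1 t, Finset.sum_comm]
    refine Finset.sum_congr rfl fun i _ => ?_
    rw [← Finset.mul_sum, geo hℓ ha hζ i]
  have h4 : ∑ i ∈ Finset.range (ℓ ^ a), (n i : ℂ) * ζ ^ (i * j) *
      (if ℓ ^ (a - 1) ∣ i then (ℓ : ℂ) ^ (a - 1) else 0) =
      (ℓ : ℂ) ^ (a - 1) * ∑ i ∈ (Finset.range (ℓ ^ a)).filter (fun i => ℓ ^ (a - 1) ∣ i),
        (n i : ℂ) * ζ ^ (i * j) := by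
    rw [Finset.mul_sum, Finset.sum_filter]
    refine Finset.sum_congr rfl fun i _ => ?_
    split_ifs <;> ring
  rw [h4] at h2
  rw [mul_left_cancel₀ hqc h2]
  refine Finset.sum_nbij' (fun i => i / ℓ ^ (a - 1)) (fun i => i * ℓ ^ (a - 1)) ?_ ?_ ?_ ?_ ?_
  · intro i hi
    obtain ⟨hi1, -⟩ := Finset.mem_filter.1 hi
    rw [Finset.mem_range] at hi1 ⊢
    rw [hpow, mul_comm] at hi1
    exact Nat.div_lt_of_lt_mul (by rwa [mul_comm])
  · intro i hi
    rw [Finset.mem_range] at hi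
    rw [Finset.mem_filter, Finset.mem_range, hpow, mul_comm i]
    exact ⟨Nat.mul_lt_mul_of_pos_left hi hq, dvd_mul_right _ _⟩
  · intro i hi
    exact Nat.div_mul_cancel (Finset.mem_filter.1 hi).2
  · intro i _
    exact Nat.mul_div_cancel i hq
  · intro i hi
    obtain ⟨c, rfl⟩ := (Finset.mem_filter.1 hi).2
    have e1 : ℓ ^ (a - 1) * c / ℓ ^ (a - 1) = c := Nat.mul_div_cancel_left c hq
    rw [e1, mul_comm c (ℓ ^ (a - 1)), ← pow_mul, ← mul_assoc]

theorem cu_pow {G : Type} [Group G] {u : G} {j : ℕ} (h : j.Coprime (orderOf u)) :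
    Cu (u ^ j) = Cu u := by
  obtain ⟨m, hm⟩ := exists_pow_eq_self_of_coprime h
  ext g
  rw [Subgroup.mem_centralizer_singleton_iff, Subgroup.mem_centralizer_singleton_iff]
  constructor
  · intro h1
    have h2 : Commute g ((u ^ j) ^ m) := (show Commute g (u ^ j) from h1).pow_right m
    rw [hm] at h2
    exact h2
  · intro h1
    exact (show Commute g u from h1).pow_right j

/-- row AV2 -/
theorem av2 (inr : InrStmt) (vjc : VjcStmt) (dpw : DpwStmt) (rkx : RkxStmt) (pwu : PwuStmt)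
    (inx : K9.InxStmt) : Av2Stmt := by
  intro ℓ _ M _ hM hℓ2 G _ _ N hN e V γ b d c ε hD a k hk hka hexp y hy χ hχ hfix ζ hζ
  have hℓ : ℓ.Prime := Fact.out
  have hF : GoodF ℓ (FF M) := H50.fld ℓ hℓ M hM
  have hix : ¬ ℓ ∣ ix V γ :=
    inx ℓ M hM G e hD.ld.blk V hD.ld.tp hD.ld.ab γ hD.ld.gam.supp hD.ld.gam.blk hD.ld.und
  obtain ⟨-, h2, -, -⟩ := rkx ℓ (FF M) hF G e V γ hD.ld hix a k hk hka hexp y hy
  obtain ⟨-, h3, -⟩ := dpw ℓ M hM hℓ2 G e V γ b d c ε hD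
  have hWV : Uw (ℓ ^ k) V ≤ V := (pwu G (ℓ ^ k) V hD.ld.ab).2.1
  set W := Uw (ℓ ^ k) V with hW
  have := Fintype.ofFinite W
  have hu : ∀ w : W, Rg V γ (y * w) ∧ orderOf (y * w) = ℓ ^ a := fun w => h2 w w.2
  have hq : 0 < ℓ ^ a := pow_pos hℓ.pos a
  have hcop : ∀ j : ℕ, ¬ ℓ ∣ j → ∀ n : ℕ, j.Coprime (ℓ ^ n) := fun j hj n =>
    Nat.Coprime.pow_right n ((Nat.Prime.coprime_iff_not_dvd hℓ).2 hj).symm
  have hWc : ∀ j : ℕ, ¬ ℓ ∣ j → (Nat.card W).Coprime j := by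
    intro j hj
    have hp : IsPGroup ℓ W := hD.ld.tp.pg.to_le hWV
    obtain ⟨n, hn⟩ := IsPGroup.iff_card.1 hp
    rw [hn]
    exact (hcop j hj n).symm
  choose m hm using fun w : W => inr M G (y * w) (ℓ ^ a) hq
    (by rw [← (hu w).2]; exact pow_orderOf_eq_one _) (b (y * w)) (hD.lc _ (hu w).1).blk.ix
    (d (y * w)) (hD.dg _ (hu w).1) ζ hζ χ hχ.1
  have key : ∀ j, ¬ ℓ ∣ j → (Nat.card W : ℂ) * av M b d ε W (y ^ j) χ =
      ∑ w : W, (ε (y * w) : ℂ) *
        (gv M (Cu (y * w)) ((y * w) ^ j) (b (y * w)) χ / d (y * w)) := by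
    intro j hj
    have hWn : (Nat.card W : ℂ) ≠ 0 := by exact_mod_cast Nat.card_pos.ne'
    rw [av, finsum_eq_sum_of_fintype, mul_inv_cancel_left₀ hWn]
    refine (Fintype.sum_equiv (powCoprime (hWc j hj)) _ _ fun w => ?_).symm
    have hyw : y * (w : G) = w * y := hD.ld.ab y hy.mem w (hWV w.2)
    have e1 : y ^ j * ((powCoprime (hWc j hj) w : W) : G) = (y * w) ^ j := by
      rw [(show Commute y (w : G) from hyw).mul_pow]
      rfl
    obtain ⟨-, hb, hd, he⟩ := h3 (y * w) (hu w).1 j hj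
    rw [e1, he, vv, hb, hd, cu_pow]
    rw [(hu w).2]
    exact hcop j hj a
  have hd0 : ∀ w : W, (d (y * w) : ℂ) ≠ 0 := fun w => by
    exact_mod_cast (hD.dg _ (hu w).1).1.ne'
  refine ⟨fun i => ∑ w : W, ε (y * w) * m w (i * ℓ ^ (a - 1)), fun j hj => ?_⟩
  have hmain := avg hℓ (hk.trans_le hka) hζ (fun i => ∑ w : W, ε (y * w) * m w i)
    (fun j => (Nat.card W : ℂ) * av M b d ε W (y ^ j) χ) ?_ ?_ j hj
  · exact hmain
  · intro j hj
    rw [key j hj]
    have h4 : ∀ w : W, (ε (y * w) : ℂ) *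
        (gv M (Cu (y * w)) ((y * w) ^ j) (b (y * w)) χ / d (y * w)) =
        ∑ i ∈ Finset.range (ℓ ^ a), (ε (y * w) : ℂ) * ((m w i : ℂ) * ζ ^ (i * j)) := by
      intro w
      rw [hm w j, mul_div_cancel_left₀ _ (hd0 w), Finset.mul_sum]
    rw [Finset.sum_congr rfl fun w _ => h4 w, Finset.sum_comm]
    refine Finset.sum_congr rfl fun i _ => ?_
    push_cast
    rw [Finset.sum_mul]
    refine Finset.sum_congr rfl fun w _ => ?_
    ring
  · intro j j' hj hjj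
    have hj' : ¬ ℓ ∣ j' := fun h => hj ((hjj.dvd_iff dvd_rfl).2 h)
    rw [key j hj, key j' hj']
    refine Finset.sum_congr rfl fun w _ => ?_
    have hel : El ℓ (y * (w : G)) := ⟨a, by rw [← (hu w).2]; exact pow_orderOf_eq_one _⟩
    rw [vjc ℓ M hM G N hN (y * w) hel (b (y * w)) (hD.lc _ (hu w).1).blk.ix χ hχ.1 hfix j j' hj hjj]

end Pool.Agent.PP.T8.H39
end
end -- Pool.Agent.Helper39_AT8.AV2

section -- Pool.Agent.Helper45_AT8.RGS

/-!
# Squad AT8, row RGS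
-/

open scoped BigOperators

noncomputable section

namespace Pool.Agent.PP.T8.H45

/-- the automorphisms which act trivially modulo the `n`-th powers -/
def trv (V : Type) [CommGroup V] (n : ℕ) : Subgroup (MulAut V) where
  carrier := {t | ∀ v : V, ∃ w, t v = v * w ^ n}
  one_mem' := fun v => ⟨1, by simp⟩
  mul_mem' := by
    intro t t' ht ht' v
    obtain ⟨w, hw⟩ := ht' v
    obtain ⟨u, hu⟩ := ht v
    refine ⟨u * t w, ?_⟩
    rw [MulAut.mul_apply, hw, map_mul, map_pow, hu, mul_pow, mul_assoc]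
  inv_mem' := by
    intro t ht v
    obtain ⟨w, hw⟩ := ht (t⁻¹ v)
    refine ⟨w⁻¹, ?_⟩
    rw [MulAut.apply_inv_self] at hw
    rw [inv_pow, eq_mul_inv_iff_mul_eq]
    exact hw.symm

/-- the elements fixed by `s` modulo the `n`-th powers -/
def fxd (V : Type) [CommGroup V] (n : ℕ) (s : MulAut V) : Subgroup V where
  carrier := {v | ∃ w, s v = v * w ^ n}
  one_mem' := ⟨1, by simp⟩
  mul_mem' := by
    rintro v v' ⟨w, hw⟩ ⟨w', hw'⟩
    refine ⟨w * w', ?_⟩
    rw [map_mul, hw, hw', mul_pow, mul_mul_mul_comm]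
  inv_mem' := by
    rintro v ⟨w, hw⟩
    refine ⟨w⁻¹, ?_⟩
    rw [map_inv, hw, inv_pow, mul_inv]

/-- the elements of order dividing `n` -/
def tor (V : Type) [CommGroup V] (n : ℕ) : Subgroup V where
  carrier := {v | v ^ n = 1}
  one_mem' := one_pow n
  mul_mem' := by
    intro v v' hv hv'
    show (v * v') ^ n = 1
    rw [mul_pow, (show v ^ n = 1 from hv), (show v' ^ n = 1 from hv'), one_mul]
  inv_mem' := by
    intro v hv
    show v⁻¹ ^ n = 1
    rw [inv_pow, (show v ^ n = 1 from hv), inv_one]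

theorem index_ge {ℓ : ℕ} (hℓ : ℓ.Prime) {V : Type} [CommGroup V] [Finite V]
    (hV : ∃ n, Nat.card V = ℓ ^ n) (D : Subgroup V) (hD : D ≠ ⊤) :
    ℓ * Nat.card D ≤ Nat.card V := by
  obtain ⟨n, hn⟩ := hV
  have h1 := D.card_mul_index
  have h2 : D.index ∣ ℓ ^ n := by
    rw [← hn]
    exact ⟨Nat.card D, by rw [← h1, mul_comm]⟩
  obtain ⟨k, -, hk⟩ := (Nat.dvd_prime_pow hℓ).1 h2
  have hk0 : k ≠ 0 := by
    rintro rfl
    rw [pow_zero, Subgroup.index_eq_one] at hk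
    exact hD hk
  have h3 : ℓ ≤ D.index := by
    rw [hk]
    exact Nat.le_self_pow hk0 ℓ
  rw [← h1, mul_comm]
  exact Nat.mul_le_mul_left _ h3

theorem rgs (cpr : CprStmt) : RgsStmt := by
  classical
  intro ℓ hℓ V _ _ a ha hexp E hE
  have hp : ℓ.Prime := hℓ.out
  have hpg : IsPGroup ℓ V := fun g => ⟨a, by rw [← hexp]; exact Monoid.pow_exponent_eq_one g⟩
  have hV : ∃ n, Nat.card V = ℓ ^ n := IsPGroup.iff_card.1 hpg
  by_contra hcon
  have hcon' : ∀ y : V, orderOf y = ℓ ^ a → ∃ s ∈ E, s ≠ 1 ∧ ∃ v : V, s y = y * v ^ ℓ := by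
    intro y hy
    by_contra hy'
    refine hcon ⟨y, hy, fun s hs v hsv => ?_⟩
    by_contra hs1
    exact hy' ⟨s, hs, hs1, v, hsv⟩
  haveI : Finite E := inferInstance
  letI : Fintype E := Fintype.ofFinite E
  letI : Fintype V := Fintype.ofFinite V
  let D : E → Subgroup V := fun s => if s = 1 then tor V (ℓ ^ (a - 1)) else fxd V ℓ s
  have hD : ∀ s, D s ≠ ⊤ := by
    intro s
    by_cases hs : s = 1
    · simp only [D, if_pos hs]
      intro h
      have h1 : Monoid.exponent V ∣ ℓ ^ (a - 1) := by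
        apply Monoid.exponent_dvd_of_forall_pow_eq_one
        intro g
        have : g ∈ tor V (ℓ ^ (a - 1)) := h ▸ Subgroup.mem_top g
        exact this
      rw [hexp, Nat.pow_dvd_pow_iff_le_right hp.one_lt] at h1
      omega
    · simp only [D, if_neg hs]
      intro h
      apply hs
      have h1 : Subgroup.zpowers (s : MulAut V) ≤ trv V ℓ := by
        rw [Subgroup.zpowers_le]
        intro v
        have : v ∈ fxd V ℓ s := h ▸ Subgroup.mem_top v
        exact this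
      have h2 : Subgroup.zpowers (s : MulAut V) ≤ E := by
        rw [Subgroup.zpowers_le]
        exact s.2
      have h3 : ¬ ℓ ∣ Nat.card (Subgroup.zpowers (s : MulAut V)) := by
        intro hd
        have h4 := Nat.le_of_dvd Nat.card_pos hd
        have h5 := Subgroup.card_le_of_le h2
        omega
      have h4 := (cpr ℓ V a hexp _ h3).2 fun t ht v => h1 ht v
      rw [Subgroup.zpowers_eq_bot] at h4
      exact Subtype.ext h4
  have hcov : ∀ y : V, ∃ s : E, y ∈ D s := by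
    intro y
    by_cases hy : orderOf y = ℓ ^ a
    · obtain ⟨s, hs, hs1, v, hv⟩ := hcon' y hy
      refine ⟨⟨s, hs⟩, ?_⟩
      have : (⟨s, hs⟩ : E) ≠ 1 := fun h => hs1 (congrArg Subtype.val h)
      simp only [D, if_neg this]
      exact ⟨v, hv⟩
    · refine ⟨1, ?_⟩
      simp only [D, if_true]
      have h1 : orderOf y ∣ ℓ ^ a := by
        rw [← hexp]
        exact Monoid.order_dvd_exponent y
      obtain ⟨k, hk, hk'⟩ := (Nat.dvd_prime_pow hp).1 h1
      have h2 : k ≤ a - 1 := by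
        rcases Nat.lt_or_ge k a with h | h
        · omega
        · exact absurd (by rw [hk', le_antisymm hk h]) hy
      show y ^ ℓ ^ (a - 1) = 1
      rw [← orderOf_dvd_iff_pow_eq_one, hk']
      exact pow_dvd_pow _ h2
  have h1 : Nat.card V ≤ ∑ s : E, Nat.card (D s) := by
    have h2 : (Finset.univ : Finset V) ⊆
        Finset.univ.biUnion fun s : E => Finset.univ.filter fun y => y ∈ D s := by
      intro y _
      obtain ⟨s, hs⟩ := hcov y
      rw [Finset.mem_biUnion]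
      exact ⟨s, Finset.mem_univ _, Finset.mem_filter.2 ⟨Finset.mem_univ _, hs⟩⟩
    have h3 := (Finset.card_le_card h2).trans Finset.card_biUnion_le
    rw [Finset.card_univ] at h3
    rw [Nat.card_eq_fintype_card]
    refine h3.trans (Finset.sum_le_sum fun s _ => le_of_eq ?_)
    rw [Nat.card_eq_fintype_card, Fintype.card_subtype]
  have h2 : ℓ * Nat.card V ≤ Nat.card E * Nat.card V := by
    calc ℓ * Nat.card V ≤ ℓ * ∑ s : E, Nat.card (D s) := Nat.mul_le_mul_left _ h1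
      _ = ∑ s : E, ℓ * Nat.card (D s) := Finset.mul_sum _ _ _
      _ ≤ ∑ _s : E, Nat.card V := Finset.sum_le_sum fun s _ => index_ge hp hV _ (hD s)
      _ = Nat.card E * Nat.card V := by
        rw [Finset.sum_const, Finset.card_univ, smul_eq_mul, Nat.card_eq_fintype_card (α := E)]
  have h3 := Nat.le_of_mul_le_mul_right h2 Nat.card_pos
  omega

end Pool.Agent.PP.T8.H45
end
end -- Pool.Agent.Helper45_AT8.RGS

section -- Pool.Agent.Helper84_AT8.CID

/-!
# Squad AT8, row CID: existence of a coherent idempotent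
-/

open scoped BigOperators

noncomputable section

namespace Pool.Agent.PP.T8.H84

open Pool.Agent.Helper51_AWC Pool.Agent.Helper79_WRA Pool.Agent.PP Pool.Agent.PP.KF
open Pool.Agent.PP.K9 Pool.Agent.PP.K9.H97 Pool.Agent.PP.H75 Pool.Agent.PP.T3 Pool.Agent.PP.T2

attribute [local instance] Ideal.Quotient.field

theorem cid (min : MinStmt) (lft : LftStmt) : CidStmt := by
  intro ℓ _ M _ hM G _ _ e V γ hL
  obtain ⟨j, hj, hji, hjg, hjb, hjn⟩ := min ℓ M hM G e V γ hL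
  obtain ⟨i, hi, _, hr⟩ := lft M G V ⊤ j hj (fun g hg => absurd (Subgroup.mem_top g) hg) hji
  refine ⟨i, hi, ?_, ?_, ?_⟩
  · rw [hr]
    exact hjg
  · intro z hz b hb
    rw [hr]
    exact hjb z hz b hb
  · intro κ hκ
    have := Fintype.ofFinite (Subgroup.centralizer (V : Set G))
    have h1 := hjn κ hκ
    have hκR : ∀ t : Subgroup.centralizer (V : Set G), κ t ∈ RM M :=
      fun t => RM_of_int (irr_integral hκ.1 t)
    rw [finsum_eq_sum_of_fintype] at h1 ⊢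
    rw [rr_sum _ _ (fun (t : Subgroup.centralizer (V : Set G)) _ =>
      (RM M).mul_mem (hi.rm (t : G)) (hκR t))]
    intro h2
    apply h1
    rw [← h2]
    refine Finset.sum_congr rfl fun t _ => ?_
    rw [rr_mul (hi.rm t) (hκR t), ← hr]
    rfl

end Pool.Agent.PP.T8.H84
end
end -- Pool.Agent.Helper84_AT8.CID

section -- Pool.Agent.Helper8_AT8.DAT

/-!
# Squad AT8, row DAT: existence of the data of the regular elements
-/

open scoped BigOperators

noncomputable section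

namespace Pool.Agent.PP.T8.H8

open Pool.Agent.Helper51_AWC Pool.Agent.Helper79_WRA Pool.Agent.PP Pool.Agent.PP.KF
open Pool.Agent.PP.K9 Pool.Agent.PP.K9.H97 Pool.Agent.PP.H75 Pool.Agent.PP.T3 Pool.Agent.PP.T2
open Pool.Agent.PP.T8

attribute [local instance] Ideal.Quotient.field

/-- row DAT -/
theorem dat (hRGL : T3.RglStmt) (hDGC : T3.DgcStmt) (hLSB : T3.LsbStmt) (hNIT : T3.NitStmt) :
    DatStmt := by
  classical
  intro ℓ _ M _ hM G _ _ e V γ h
  obtain ⟨c, hc⟩ := hDGC ℓ M hM G e V γ h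
  have key : ∀ u : G, ∃ (b : G → FF M) (d : ℕ) (ε : ℤ), Rg V γ u → Lc e V γ u b ∧
      Dg M (fun t : Cu u => b t) d ∧ (ε = 1 ∨ ε = -1) ∧
      ((Nat.card (Cu u) * c : ℂ) /
        (Nat.card (Subgroup.centralizer (V : Set G)) * d)) ∈ RM M ∧
      rr M ((Nat.card (Cu u) * c : ℂ) /
        (Nat.card (Subgroup.centralizer (V : Set G)) * d)) = (ε : FF M) := by
    intro u
    by_cases hu : Rg V γ u
    · obtain ⟨b, d, hb, hd, -, hix⟩ := hRGL ℓ M hM G e V γ h u hu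
      obtain ⟨hld, -, -, hcard, hdg⟩ := hLSB ℓ M hM G e V γ h u hu.1 b hb
      obtain ⟨ε, hε, h1, h2⟩ := hNIT ℓ M hM (Cu u) (fun t : Cu u => b t) (V.subgroupOf (Cu u))
        (fun t : Cu u => γ t) hld hix d c hd (hdg c hc)
      rw [hcard] at h1 h2
      exact ⟨b, d, ε, fun _ => ⟨hb, hd, hε, h1, h2⟩⟩
    · exact ⟨0, 0, 0, fun h => absurd h hu⟩
  choose b d ε hk using key
  exact ⟨b, d, c, ε, h, hc, fun u hu => (hk u hu).1, fun u hu => (hk u hu).2.1,
    fun u hu => (hk u hu).2.2.1, fun u hu => (hk u hu).2.2.2⟩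

end Pool.Agent.PP.T8.H8
end
end -- Pool.Agent.Helper8_AT8.DAT

section -- Pool.Agent.Helper92_AT8.CPR

/-!
# Squad AT8, row CPR: coprime action on an abelian `ℓ`-group
-/

set_option autoImplicit false

open scoped BigOperators

noncomputable section

namespace Pool.Agent.PP.T8.H92

/-- CPR -/
theorem cpr : CprStmt := by
  intro ℓ hℓ V _ _ a ha S hS
  classical
  have : Finite (MulAut V) := Finite.of_injective (fun g : MulAut V => (g : V → V))
    (fun g h hgh => MulEquiv.ext (fun x => congrFun hgh x))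
  have := Fintype.ofFinite S
  have hexp : ∀ v : V, v ^ ℓ ^ a = 1 := by
    intro v
    rw [← ha]
    exact Monoid.pow_exponent_eq_one v
  obtain ⟨P, hP⟩ : ∃ P : V →* V, ∀ v, P v = ∏ s : S, (s : MulAut V) v := by
    refine ⟨{ toFun := fun v => ∏ s : S, (s : MulAut V) v, map_one' := ?_, map_mul' := ?_ },
      fun v => rfl⟩
    · simp
    · intro v w
      simp [Finset.prod_mul_distrib]
  have hP1 : ∀ v, ∀ s ∈ S, s (P v) = P v := by
    intro v s hs
    rw [hP, map_prod]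
    refine Fintype.prod_equiv (Equiv.mulLeft (⟨s, hs⟩ : S)) _ _ fun t => ?_
    rfl
  have hP2 : ∀ v, ∀ s ∈ S, P (s v) = P v := by
    intro v s hs
    rw [hP, hP]
    refine Fintype.prod_equiv (Equiv.mulRight (⟨s, hs⟩ : S)) _ _ fun t => ?_
    rfl
  -- the inverse of the order
  obtain ⟨m', hm'⟩ : ∃ m' : ℕ, ∀ v : V, (v ^ Nat.card S) ^ m' = v := by
    have hco : Nat.Coprime (Nat.card S) (ℓ ^ a) :=
      (((Nat.Prime.coprime_iff_not_dvd hℓ.out).2 hS).symm).pow_right a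
    obtain ⟨m', hm'⟩ : ∃ m' : ℕ, Nat.card S * m' ≡ 1 [MOD ℓ ^ a] := by
      rcases Nat.eq_zero_or_pos a with h0 | h0
      · refine ⟨0, ?_⟩
        rw [h0, pow_zero]
        exact Nat.modEq_one
      · have hk : 1 < ℓ ^ a := Nat.one_lt_pow h0.ne' hℓ.out.one_lt
        obtain ⟨m', -, h⟩ := Nat.exists_mul_mod_eq_one_of_coprime hco hk
        refine ⟨m', ?_⟩
        unfold Nat.ModEq
        rw [h, Nat.mod_eq_of_lt hk]
    refine ⟨m', fun v => ?_⟩
    rw [← pow_mul]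
    have h1 : Nat.card S * m' ≡ 1 [MOD orderOf v] :=
      hm'.of_dvd (orderOf_dvd_of_pow_eq_one (hexp v))
    have h2 := pow_eq_pow_iff_modEq.2 h1
    rwa [pow_one] at h2
  obtain ⟨π, hπ⟩ : ∃ π : V →* V, ∀ v, π v = P v ^ m' :=
    ⟨(powMonoidHom m').comp P, fun v => rfl⟩
  have h1 : ∀ v, ∀ s ∈ S, s (π v) = π v ∧ π (s v) = π v := by
    intro v s hs
    rw [hπ, hπ, map_pow, hP1 v s hs, hP2 v s hs]
    exact ⟨rfl, rfl⟩
  have h2 : ∀ v, (∀ s ∈ S, s v = v) → π v = v := by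
    intro v hv
    have e : P v = v ^ Nat.card S := by
      rw [hP, Finset.prod_congr rfl (fun (s : S) _ => hv s s.2), Finset.prod_const,
        Finset.card_univ, Nat.card_eq_fintype_card]
    rw [hπ, e, hm']
  have h3 : ∀ g : MulAut V, (∀ s ∈ S, g * s * g⁻¹ ∈ S) → ∀ v, g (π v) = π (g v) := by
    intro g hg v
    rw [hπ, hπ, map_pow]
    congr 1
    rw [hP, hP, map_prod]
    have hinj : Function.Injective (fun t : S => (⟨g * t * g⁻¹, hg t t.2⟩ : S)) := by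
      intro t t' htt
      have := congrArg Subtype.val htt
      apply Subtype.ext
      exact mul_left_cancel (mul_right_cancel this)
    refine Fintype.prod_bijective _ (Finite.injective_iff_bijective.1 hinj) _ _ fun t => ?_
    change g ((t : MulAut V) v) = (g * t * g⁻¹) (g v)
    rw [MulAut.mul_apply, MulAut.mul_apply, MulAut.inv_apply_self]
  have h4 : ∀ (n : ℕ) (v : V), (∀ s ∈ S, ∃ w, s v = v * w ^ n) → ∃ w, π v = v * w ^ n := by
    intro n v hv
    choose! w hw using hv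
    refine ⟨(∏ s : S, w s) ^ m', ?_⟩
    have e : P v = v ^ Nat.card S * (∏ s : S, w s) ^ n := by
      rw [hP, Finset.prod_congr rfl (fun (s : S) _ => hw s s.2), Finset.prod_mul_distrib,
        Finset.prod_const, Finset.card_univ, Nat.card_eq_fintype_card, Finset.prod_pow]
    rw [hπ, e, mul_pow, hm', ← pow_mul, ← pow_mul, mul_comm n m']
  refine ⟨⟨π, h1, h2, h3, h4⟩, ?_⟩
  intro hV
  have hit : ∀ (i : ℕ) (v : V), ∃ r w : V, v = π r * w ^ ℓ ^ i := by
    intro i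
    induction i with
    | zero =>
      intro v
      exact ⟨1, v, by rw [map_one, one_mul, pow_zero, pow_one]⟩
    | succ i ih =>
      intro v
      obtain ⟨r, w, hrw⟩ := ih v
      obtain ⟨x, hx⟩ := h4 ℓ w (fun s hs => hV s hs w)
      refine ⟨r * w ^ ℓ ^ i, x⁻¹, ?_⟩
      have e : w = π w * x⁻¹ ^ ℓ := by
        rw [hx, inv_pow, mul_inv_cancel_right]
      calc v = π r * w ^ ℓ ^ i := hrw
        _ = π r * (π w * x⁻¹ ^ ℓ) ^ ℓ ^ i := by rw [← e]
        _ = π (r * w ^ ℓ ^ i) * x⁻¹ ^ ℓ ^ (i + 1) := by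
            rw [mul_pow, map_mul, map_pow, ← pow_mul, ← pow_succ', mul_assoc]
  rw [Subgroup.eq_bot_iff_forall]
  intro s hs
  apply MulEquiv.ext
  intro v
  obtain ⟨r, w, hrw⟩ := hit a v
  rw [hexp, mul_one] at hrw
  rw [hrw, (h1 r s hs).1]
  rfl

end Pool.Agent.PP.T8.H92
end
end -- Pool.Agent.Helper92_AT8.CPR

section -- Pool.Agent.AT8.Asm

/-!
# Squad AT8: assembly of all the rows

`fn8_ : Fn8Stmt`.
-/

open scoped BigOperators

noncomputable section

namespace Pool.Agent.PP.T8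

theorem idp_ : IdpStmt := H25.idp

theorem lft_ : LftStmt := H27.lft

theorem rk1_ : Rk1Stmt := H53.rk1

theorem tr2_ : Tr2Stmt := H33.tr2

theorem prj_ : PrjStmt := H62.prj T3.trg_ T3.cyc_

theorem smi_ : SmiStmt := H3.smi tr2_ T3.cyc_

theorem fch_ : FchStmt := H53.fch

theorem geq_ : GeqStmt := H60.geq lft_ smi_ prj_

theorem omi_ : OmiStmt := H17.omi

theorem rg1_ : Rg1Stmt := H72.rg1 T3.loc_ T3.lsb_ T3.nil_ T3.smg_ T3.co1_ T3.co2_ T3.fus_

theorem knz_ : KnzStmt := H87.knz rg1_ T3.cen_ T3.psg_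

theorem min_ : MinStmt := H84.min idp_ rk1_ knz_ T3.dgc_ KF.H25.idm

theorem cid_ : CidStmt := H84.cid min_ lft_

theorem lcl_ : LclStmt := H28.lcl lft_ smi_ KF.H25.idm

theorem dat_ : DatStmt := H8.dat T3.rgl_ T3.dgc_ T3.lsb_ T3.nit_

theorem dpw_ : DpwStmt := H8.dpw T3.loc_ T3.lpw_

theorem dor_ : DorStmt := H88.dor T3.co1_ T3.co2_ T3.fus_ T3.loc_ T3.rgl_

theorem dcg_ : DcgStmt := H88.dcg T3.rsv_

theorem fry_ : FryStmt := H14.fry lcl_ rg1_ prj_ omi_ knz_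

theorem ori_ : OriStmt := H8.ori lcl_ prj_ T3.loc_ T3.fus_

theorem csq_ : CsqStmt := H2.csq fry_ ori_ fch_ dor_ dpw_

theorem rva_ : RvaStmt := H21.rva

theorem rvc_ : RvcStmt := H21.rvc

theorem ser_ : SerStmt := H21.ser

theorem coh_ : CohStmt := H10.coh cid_ csq_ fch_ rva_ geq_ ser_ dpw_

theorem nrm_ : NrmStmt := H45.nrm

theorem sbs_ : SbsStmt := H99.sbs dor_ dpw_ T3.smg_ K9.wbo_

theorem rkx_ : RkxStmt := H45.rkx

theorem xct_ : XctStmt := H45.xct

theorem hkx_ : HkxStmt := H20.hkx xct_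

theorem hgt_ : HgtStmt := H18.hgt dcg_ dpw_ T3.inr_ nrm_ sbs_ K9.H34.inx

theorem avb_ : AvbStmt := H95.avb T2.pwu_

theorem av1_ : Av1Stmt := H32.av1 coh_ avb_ rkx_ T2.pwu_ K9.H34.inx

theorem av2_ : Av2Stmt := H39.av2 T3.inr_ T2.vjc_ dpw_ rkx_ T2.pwu_ K9.H34.inx

theorem avo_ : AvoStmt := H99.avo dor_ rkx_ av1_ T3.bes_ T2.pwu_ K9.H34.inx

theorem bn8_ : Bn8Stmt := H45.bn8 av1_ av2_ avo_

theorem lb8_ : Lb8Stmt := H76.lb8 T2.pr2_ T2.fxs_ T2.stg_ dat_ hgt_ bn8_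

theorem cpr_ : CprStmt := H92.cpr

theorem rga_ : RgaStmt := H24.rga cpr_

theorem rgs_ : RgsStmt := H45.rgs cpr_

theorem rgb_ : RgbStmt := H24.rgb cpr_

theorem fni_ : FniStmt := H72.fni coh_ T3.inr_ dpw_ T3.lpw_

theorem fnz_ : FnzStmt := H68.fnz dpw_ dcg_ T3.smg_ K9.H34.inx

theorem fgr_ : FgrStmt := H62.fgr dor_ dpw_

theorem fkl_ : FklStmt := H76.fkl dor_ T3.lrk_ T3.smg_

theorem for__ : ForStmt := H37.for_

theorem lfr_ : LfrStmt := H6.lfr T2.pr2_ dat_ fni_ fnz_ fgr_ fkl_ for__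

theorem fqt_ : FqtStmt := H37.fqt

theorem tc8_ : Tc8Stmt := H25.tc8

theorem qt3_ : Qt3Stmt := H86.qt3 T3.psg_

theorem ty8_ : Ty8aStmt := H25.ty8 T2.pwu_ T3.qt1_ qt3_ T3.lcj_ fqt_

theorem te8_ : Te8Stmt := H25.te8 T2.ort_ ty8_

theorem tx8_ : Tx8Stmt := H86.tx8 qt3_ fqt_ T3.qt1_ T3.lcj_ T2.pwu_

theorem ts8_ : Ts8Stmt := H53.ts8 T2.pwu_ te8_ T2.teb_ tx8_

theorem rtr_ : RtrStmt := H10.rtr rga_ rgs_ rgb_

theorem lt8_ : Lt8Stmt := H77.lt8 rtr_ hkx_ lb8_ xct_ lfr_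

theorem t8a_ : T8aStmt := H3.t8a tc8_ fqt_ T2.fst_ ts8_ lt8_ T2.dvx_

theorem fn8_ : Fn8Stmt := H24.fn8 T3.flt_ T2.dza_ qt3_ K9.H34.inx t8a_

end Pool.Agent.PP.T8
end
end -- Pool.Agent.AT8.Asm
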