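import Pool.Agent.Helper12_AWB.B280
import Pool.Agent.Helper12_AWB.B292

/-!
# Merged copies (generated) of the modules

* `Pool.Agent.Helper17_AT12.AVL`
* `Pool.Agent.Helper32_AT12.LTC`
* `Pool.Agent.Helper38_AT12.AVN`
* `Pool.Agent.Helper59_AT12.TCA`
* `Pool.Agent.Helper62_AT12.TCC`
* `Pool.Agent.Helper82_AT12.QFV`
* `Pool.Agent.Helper83_AT12.QAV`
* `Pool.Agent.AT12.Asm0`
* `Pool.Agent.AT12.Asm1`
* `Pool.Agent.AT12.Asm`
-/

set_option autoImplicit false

section -- Pool.Agent.Helper17_AT12.AVL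

/-!
# Squad AT12, row AVL: the number `aa` is an integer at `M`, not divisible by `ℓ` for height zero
-/

open scoped BigOperators

noncomputable section

namespace Pool.Agent.PP.T12.H17

open Pool.Agent.Helper51_AWC Pool.Agent.Helper79_WRA Pool.Agent.PP Pool.Agent.PP.KF
open Pool.Agent.PP.K9 Pool.Agent.PP.K9.H97 Pool.Agent.PP.H75 Pool.Agent.PP.T3 Pool.Agent.PP.T2
open Pool.Agent.PP.T8 Pool.Agent.PP.T12

attribute [local instance] Ideal.Quotient.field

/-- the order of the image of `V` in `C(y)/⟨y⟩` -/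
theorem card_im {G H : Type} [Group G] [Finite G] [Group H] {ℓ : ℕ} (hℓ : 0 < ℓ) {V : Subgroup G}
    (hab : ∀ a ∈ V, ∀ b ∈ V, a * b = b * a) {y : G} (hy : y ∈ V) (hc : Nat.card V = ℓ ^ 4)
    {π : Cu y →* H} (hQ : C2.Qn (ℓ ^ 2) y π) :
    Nat.card ((V.subgroupOf (Cu y)).map π) = ℓ ^ 2 := by
  have hVC : V ≤ Cu y := by
    intro v hv
    show v ∈ Subgroup.centralizer ({y} : Set G)
    rw [Subgroup.mem_centralizer_singleton_iff]
    exact hab v hv y hy
  have hzV : Subgroup.zpowers y ≤ V := by rwa [Subgroup.zpowers_le]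
  have hker : π.ker = (Subgroup.zpowers y).subgroupOf (Cu y) := by
    ext c
    rw [MonoidHom.mem_ker, hQ.ker, Subgroup.mem_subgroupOf]
  have h1 : Nat.card π.ker = ℓ ^ 2 := by
    rw [hker, Nat.card_congr (Subgroup.subgroupOfEquivOfLe (hzV.trans hVC)).toEquiv,
      Nat.card_zpowers, hQ.ord]
  have h2 : Nat.card (V.subgroupOf (Cu y)) = ℓ ^ 4 := by
    rw [Nat.card_congr (Subgroup.subgroupOfEquivOfLe hVC).toEquiv, hc]
  have hle : π.ker ≤ V.subgroupOf (Cu y) := by
    rw [hker]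
    exact Subgroup.comap_mono hzV
  have h3 := Subgroup.relIndex_mul_relIndex (⊥ : Subgroup (Cu y)) π.ker (V.subgroupOf (Cu y))
    bot_le hle
  rw [Subgroup.relIndex_bot_left, Subgroup.relIndex_bot_left, Subgroup.relIndex_ker, h1, h2] at h3
  have h4 : ℓ ^ 2 * Nat.card ((V.subgroupOf (Cu y)).map π) = ℓ ^ 2 * ℓ ^ 2 := by
    rw [h3]
    ring
  exact Nat.eq_of_mul_eq_mul_left (by positivity) h4

theorem avl (hCsm : CsmStmt) (hCrg : CrgStmt) (hAvb : T8.AvbStmt) : AvlStmt := by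
  classical
  intro ℓ _ M _ hM G H _ _ _ _ N e V γ b d c ε y w β π m K g θ hS χ hχ j hj
  have hp : ℓ.Prime := Fact.out
  have hF : GoodF ℓ (FF M) := H50.fld ℓ Fact.out M hM
  have hL := hS.dat.ld
  have hV : IsPGroup ℓ V := hL.tp.1
  have hab := hL.ab
  have hcs := hS.cs
  obtain ⟨f, hf⟩ := hS.coh χ hχ.1.1
  have hfN := hf.inv hχ.2
  obtain ⟨hR, -, -⟩ := hCrg ℓ (FF M) hF hS.odd G e V γ hL y w m hcs
  obtain ⟨-, hsm⟩ := hCsm ℓ (FF M) hF hS.odd G N hS.gs e V γ hL y w m hcs f hfN j hj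
  have hyj : y ^ j ∈ V := V.pow_mem hcs.yV j
  have hB := hAvb ℓ M hM G N hS.gs V hV hab f hf.rv hfN 1 (Uw (ℓ ^ 1) V) rfl (y ^ j) hyj
  obtain ⟨A, hA⟩ : ∃ A : ℂ, A = (Nat.card (Uw (ℓ ^ 1) V) : ℂ)⁻¹ *
    ∑ᶠ v : Uw (ℓ ^ 1) V, f (y ^ j * v) := ⟨_, rfl⟩
  have hAR : A ∈ RM M := by rw [hA]; exact hB.1
  have hℓ0 : (ℓ : ℂ) ≠ 0 := by exact_mod_cast hp.ne_zero
  -- the average
  have hvk : ∀ k ∈ Finset.Ico 1 ℓ, f (y ^ j * w ^ (ℓ * k)) = vk M ℓ b d ε y w j k χ := by
    intro k hk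
    rw [Finset.mem_Ico] at hk
    have hk' : ¬ ℓ ∣ k := fun h => absurd (Nat.le_of_dvd (by omega) h) (by omega)
    rw [hf.reg _ (hR j k hj hk')]
    rfl
  have hA2 : A = (ℓ : ℂ)⁻¹ * (f (y ^ j) + ∑ k ∈ Finset.Ico 1 ℓ, vk M ℓ b d ε y w j k χ) := by
    rw [hA, hsm, Finset.range_eq_Ico, Finset.sum_eq_sum_Ico_succ_bot hp.pos, mul_zero, pow_zero,
      mul_one, Finset.sum_congr rfl hvk]
  -- the difference
  obtain ⟨r, hr⟩ : ∃ r : ℂ, r = (f (y ^ j) - θ * bq ℓ π g (y ^ j) χ) / ((m * K + 1 : ℕ) : ℂ) :=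
    ⟨_, rfl⟩
  have hrR : r ∈ RM M := by rw [hr]; exact hf.y j hj
  have hmK : ((m * K + 1 : ℕ) : ℂ) = (ℓ : ℂ) ^ 2 := by
    rw [hS.sy.cd.mul, card_im hp.pos hab hcs.yV hcs.card hS.sy.qn]
    push_cast
    ring
  have hdiff : A - aa M ℓ b d ε y w π g θ j χ = ℓ * r := by
    rw [hr, hmK, hA2]
    unfold aa
    field_simp
    ring
  have hℓR : (ℓ : ℂ) ∈ RM M := by
    have h1 := (rr_int (M := M) (ℓ : ℤ)).1
    simpa using h1
  refine ⟨?_, fun hno h0 => ?_⟩
  · have h1 : aa M ℓ b d ε y w π g θ j χ = A - ℓ * r := by rw [← hdiff]; ring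
    rw [h1]
    exact sub_mem hAR ((RM M).mul_mem hℓR hrR)
  · -- the point `u`
    have h1ℓ : ¬ ℓ ∣ 1 := fun h => hp.one_lt.ne' (Nat.dvd_one.1 h)
    have hu := hR j 1 hj h1ℓ
    rw [mul_one] at hu
    have hAd : A / ℓ ∈ RM M := by
      have h1 : A / ℓ = aa M ℓ b d ε y w π g θ j χ / ℓ + r := by
        have h2 : A = aa M ℓ b d ε y w π g θ j χ + ℓ * r := by rw [← hdiff]; ring
        rw [h2]
        field_simp
      rw [h1]
      exact add_mem h0 hrR
    have hwU : w ^ ℓ ∈ Uw (ℓ ^ 1) V := by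
      rw [pow_one]
      exact Subgroup.subset_closure ⟨w, hcs.wV, rfl⟩
    have hBu := (hAvb ℓ M hM G N hS.gs V hV hab f hf.rv hfN 1 (Uw (ℓ ^ 1) V) rfl (y ^ j * w ^ ℓ)
      hu.1).2
    have hsame : ∑ᶠ v : Uw (ℓ ^ 1) V, f (y ^ j * w ^ ℓ * v) =
        ∑ᶠ v : Uw (ℓ ^ 1) V, f (y ^ j * v) := by
      rw [← finsum_comp_equiv (Equiv.mulLeft (⟨w ^ ℓ, hwU⟩ : Uw (ℓ ^ 1) V))
        (f := fun v : Uw (ℓ ^ 1) V => f (y ^ j * v))]
      refine finsum_congr fun v => ?_
      show f (y ^ j * w ^ ℓ * v) = f (y ^ j * (w ^ ℓ * v))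
      rw [mul_assoc]
    rw [hsame, ← hA] at hBu
    have h3 : f (y ^ j * w ^ ℓ) / ℓ ∈ RM M := by
      have h4 : f (y ^ j * w ^ ℓ) / ℓ = (f (y ^ j * w ^ ℓ) - A) / (ℓ : ℂ) ^ 1 + A / ℓ := by
        rw [pow_one]
        ring
      rw [h4]
      exact add_mem hBu hAd
    rw [hf.reg _ hu] at h3
    apply hno _ hu
    rcases hS.dat.sg _ hu with h | h
    · rw [h] at h3
      simpa using h3
    · rw [h] at h3
      have h4 := neg_mem h3
      have e2 : -(((-1 : ℤ) : ℂ) * vv M b d (y ^ j * w ^ ℓ) χ / (ℓ : ℂ)) =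
          vv M b d (y ^ j * w ^ ℓ) χ / (ℓ : ℂ) := by
        push_cast
        ring
      rwa [e2] at h4

end Pool.Agent.PP.T12.H17
end
end -- Pool.Agent.Helper17_AT12.AVL

section -- Pool.Agent.Helper32_AT12.LTC

open scoped BigOperators

noncomputable section

namespace Pool.Agent.PP.T12.H32

open Pool.Agent.Helper51_AWC Pool.Agent.Helper79_WRA Pool.Agent.PP Pool.Agent.PP.KF
open Pool.Agent.PP.K9 Pool.Agent.PP.K9.H97 Pool.Agent.PP.H75 Pool.Agent.PP.T3 Pool.Agent.PP.T2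
open Pool.Agent.PP.T8 Pool.Agent.PP.T12

attribute [local instance] Ideal.Quotient.field

/-- an abelian group with two generators and exponent `n` has at most `n * n` elements -/
theorem card_le {G : Type} [Group G] [Finite G] (V : Subgroup G)
    (hab : ∀ a ∈ V, ∀ b ∈ V, a * b = b * a) (x y : G) (hV : V = Subgroup.closure {x, y})
    (n : ℕ) (hn : 0 < n) (hexp : Monoid.exponent V = n) : Nat.card V ≤ n * n := by
  have hx : x ∈ V := by
    rw [hV]; exact Subgroup.subset_closure (Set.mem_insert _ _)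
  have hy : y ∈ V := by
    rw [hV]; exact Subgroup.subset_closure (Set.mem_insert_of_mem _ rfl)
  have hxn : x ^ n = 1 := by
    have h := Monoid.pow_exponent_eq_one (⟨x, hx⟩ : V)
    rw [hexp] at h
    exact congrArg Subtype.val h
  have hyn : y ^ n = 1 := by
    have h := Monoid.pow_exponent_eq_one (⟨y, hy⟩ : V)
    rw [hexp] at h
    exact congrArg Subtype.val h
  have hc : Commute x y := hab x hx y hy
  have key : ∀ v ∈ V, ∃ i j : ℕ, v = x ^ i * y ^ j := by
    intro v hv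
    rw [hV] at hv
    induction hv using Subgroup.closure_induction with
    | mem z hz =>
      rcases hz with hz | hz
      · exact ⟨1, 0, by rw [hz, pow_one, pow_zero, mul_one]⟩
      · rw [Set.mem_singleton_iff] at hz
        exact ⟨0, 1, by rw [hz, pow_one, pow_zero, one_mul]⟩
    | one => exact ⟨0, 0, by rw [pow_zero, pow_zero, mul_one]⟩
    | mul a b _ _ ha hb =>
      obtain ⟨i, j, rfl⟩ := ha
      obtain ⟨k, l, rfl⟩ := hb
      refine ⟨i + k, j + l, ?_⟩
      have h1 : y ^ j * x ^ k = x ^ k * y ^ j := (hc.pow_pow k j).eq.symm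
      rw [pow_add, pow_add]
      calc x ^ i * y ^ j * (x ^ k * y ^ l) = x ^ i * (y ^ j * x ^ k) * y ^ l := by
            simp only [mul_assoc]
        _ = x ^ i * (x ^ k * y ^ j) * y ^ l := by rw [h1]
        _ = x ^ i * x ^ k * (y ^ j * y ^ l) := by simp only [mul_assoc]
    | inv a _ ha =>
      obtain ⟨i, j, rfl⟩ := ha
      refine ⟨i * (n - 1), j * (n - 1), ?_⟩
      have hcij : Commute (x ^ i) (y ^ j) := hc.pow_pow i j
      rw [inv_eq_iff_mul_eq_one, pow_mul, pow_mul, ← hcij.mul_pow, ← pow_succ',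
        Nat.sub_add_cancel hn, hcij.mul_pow, ← pow_mul, ← pow_mul, mul_comm i n, mul_comm j n,
        pow_mul, pow_mul, hxn, hyn, one_pow, one_pow, mul_one]
  let φ : Fin n × Fin n → V := fun p =>
    ⟨x ^ (p.1 : ℕ) * y ^ (p.2 : ℕ), V.mul_mem (V.pow_mem hx _) (V.pow_mem hy _)⟩
  have hφ : Function.Surjective φ := by
    rintro ⟨v, hv⟩
    obtain ⟨i, j, hij⟩ := key v hv
    refine ⟨(⟨i % n, Nat.mod_lt _ hn⟩, ⟨j % n, Nat.mod_lt _ hn⟩), ?_⟩
    apply Subtype.ext
    show x ^ (i % n) * y ^ (j % n) = v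
    rw [hij, ← pow_eq_pow_mod i hxn, ← pow_eq_pow_mod j hyn]
  have h := Nat.card_le_card_of_surjective φ hφ
  rwa [Nat.card_prod, Nat.card_fin] at h

theorem ltc (hC : LbcStmt) (h8 : T8.Lt8Stmt) (h2 : T2.Lb2Stmt) : LtcStmt := by
  intro ℓ hℓ M hM hm hodd G _ _ e V γ hld a hty
  rcases hty with h | h
  · exact h8 ℓ M hm hodd G e V γ hld a h
  · rcases Nat.lt_or_ge 2 a with h3 | h3
    · exact h8 ℓ M hm hodd G e V γ hld a (Or.inr (Or.inl ⟨h3, h.exp, h.gen⟩))
    · have ha : a = 2 := le_antisymm h3 h.le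
      subst ha
      have hp : 0 < ℓ := hℓ.out.pos
      obtain ⟨x, y, hxy⟩ := h.gen
      have hcard : Nat.card V ≤ ℓ ^ 4 := by
        have h4 := card_le V hld.ab x y hxy (ℓ ^ 2) (Nat.pow_pos hp) h.exp
        rwa [← pow_add] at h4
      rcases Nat.lt_or_eq_of_le hcard with h5 | h5
      · exact h2 ℓ M hm hodd G e V γ hld 2
          ⟨Nat.two_pos, h.exp, h5, Or.inr h.gen⟩
      · exact hC ℓ M hm hodd G e V γ hld h.exp h5 h.gen

end Pool.Agent.PP.T12.H32
end
end -- Pool.Agent.Helper32_AT12.LTC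

section -- Pool.Agent.Helper38_AT12.AVN

/-!
# Squad AT12, row AVN: the numbers of a fixed character depend only on `j` modulo `ℓ`
-/

open scoped BigOperators

noncomputable section

namespace Pool.Agent.PP.T12.H38

open Pool.Agent.Helper51_AWC Pool.Agent.Helper79_WRA Pool.Agent.PP Pool.Agent.PP.KF
open Pool.Agent.PP.K9 Pool.Agent.PP.K9.H97 Pool.Agent.PP.H75 Pool.Agent.PP.T3 Pool.Agent.PP.T2
open Pool.Agent.PP.T8

attribute [local instance] Ideal.Quotient.field

theorem avn (csm : CsmStmt) (crg : CrgStmt) : AvnStmt := by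
  intro ℓ _ M _ hM G H _ _ _ _ N e V γ b d c ε y w β π m K g θ hS χ hχ j j' hj hjj
  have hF : GoodF ℓ (FF M) := H50.fld ℓ Fact.out M hM
  refine ⟨fun p => ?_, fun k hk => ?_⟩
  · obtain ⟨r, hr⟩ := hS.gs.gen j j' hj hjj
    have hEy : El ℓ y := ⟨2, by rw [← hS.cs.oy]; exact pow_orderOf_eq_one y⟩
    have hchi : ∀ (n : ℕ) (x : G), χ (x ^ N ^ n) = χ x := by
      intro n
      induction n with
      | zero => intro x; rw [pow_zero, pow_one]
      | succ n ih => intro x; rw [pow_succ, pow_mul, hχ.2, ih]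
    have hreg : ∀ (n : ℕ) (x : G), Reg ℓ x → x ^ N ^ n = x := by
      intro n
      induction n with
      | zero => intro x _; rw [pow_zero, pow_one]
      | succ n ih => intro x hx; rw [pow_succ, pow_mul, ih x hx, hS.gs.reg x hx]
    unfold Av
    congr 1
    refine finsum_congr fun s => finsum_congr fun hs => ?_
    congr 1
    have hc : Commute (y ^ j) (s : G) := by
      have h1 : Commute (s : G) y := Subgroup.mem_centralizer_singleton_iff.1 s.2
      exact (h1.pow_right j).symm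
    have hs' : Reg ℓ (s : G) := by
      have h2 : Reg ℓ s := hs
      unfold Reg at h2 ⊢
      rwa [Subgroup.orderOf_coe]
    have h3 : (y ^ j * (s : G)) ^ N ^ r = y ^ j' * s := by
      rw [hc.mul_pow, hr y hEy, hreg r _ hs']
    rw [← h3, hchi]
  · obtain ⟨f, hf⟩ := hS.coh χ hχ.1.1
    have hj' : ¬ ℓ ∣ j' := fun h => hj ((Nat.ModEq.dvd_iff hjj dvd_rfl).2 h)
    have hc := crg ℓ (FF M) hF hS.odd G e V γ hS.sy.ld y w m hS.cs
    have h1 := (csm ℓ (FF M) hF hS.odd G N hS.gs e V γ hS.sy.ld y w m hS.cs f (hf.inv hχ.2)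
      j hj).1 j' k hjj
    have h2 := hf.reg _ (hc.1 j k hj hk)
    have h3 := hf.reg _ (hc.1 j' k hj' hk)
    unfold vk
    rw [← h2, ← h3, h1]

end Pool.Agent.PP.T12.H38
end
end -- Pool.Agent.Helper38_AT12.AVN

section -- Pool.Agent.Helper59_AT12.TCA

/-!
# Squad AT12, row TCA: the main theorem for block idempotents

Adapted from `Pool/Agent/Helper3_AT8/T8A.lean`.
-/

open scoped BigOperators

noncomputable section

namespace Pool.Agent.PP.T12.H59

open Pool.Agent.Helper51_AWC Pool.Agent.Helper79_WRA Pool.Agent.PP Pool.Agent.PP.KF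
open Pool.Agent.PP.K9 Pool.Agent.PP.K9.H97 Pool.Agent.PP.H75 Pool.Agent.PP.T3 Pool.Agent.PP.T2
open Pool.Agent.PP.T8

attribute [local instance] Ideal.Quotient.field

theorem ty12_pos {F G : Type} [Group G] {ℓ a : ℕ} {V : Subgroup G} {γ : G → F}
    (h : Ty12 ℓ a V γ) : 0 < a ∧ Monoid.exponent V = ℓ ^ a := by
  rcases h with (⟨k, h⟩ | h | h) | h
  · exact ⟨h.pos.trans_le h.le, h.exp⟩
  · exact ⟨by have := h.le; omega, h.exp⟩
  · exact ⟨h.pos, h.exp⟩
  · exact ⟨by have := h.le; omega, h.exp⟩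

theorem tca (hLT : LtcStmt) (hTC : TccStmt) (hFQ : T8.FqtStmt) (hTS : T8.Ts8Stmt)
    (hFST : T2.FstStmt) (hDVX : T2.DvxStmt) : TcaStmt := by
  intro ℓ hℓ M _ hM hℓ2 a
  have hF : GoodF ℓ (FF M) := H50.fld ℓ Fact.out M hM
  suffices hmain : ∀ n : ℕ, ∀ (G : Type) [Group G] [Finite G], Nat.card G = n →
      ∀ (e : G → FF M) (V : Subgroup G) (γ : G → FF M), Ld ℓ e V γ → Ty12 ℓ a V γ →
      YY ℓ ⊤ e = 0 by
    intro G _ _ e V γ h1 h2
    exact hmain _ G rfl e V γ h1 h2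
  intro n
  induction n using Nat.strong_induction_on with
  | _ n ih =>
  intro G _ _ hn e V γ hL hT
  obtain ⟨ha, hexp⟩ := ty12_pos hT
  by_cases hO : opCore ℓ G = ⊥
  swap
  · exact H96.yzr ℓ (FF M) hℓ.out G ⊤ inferInstance (opCore_top_ne rfl hO) e
  have hix : ¬ ℓ ∣ ix V γ :=
    K9.H34.inx ℓ M hM G e hL.blk V hL.tp hL.ab γ hL.gam.supp hL.gam.blk hL.und
  have hIq : Iq M ℓ a (Nat.card G) V γ := by
    intro A _ _ hA f V' γ' hL' he hπ
    exact ih (Nat.card A) (hn ▸ hA) A rfl f V' γ' hL'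
      (hTC ℓ (FF M) hF G A e V γ f V' γ' hL hL' hix a hT he hπ)
  obtain ⟨f, hf⟩ := hFST ℓ M hM G e V γ hL (ℓ ^ (a - 1))
  have h1 := hTS ℓ M hM G e V γ hL a ha hexp _ rfl f hf hIq
  set U : Subgroup G := Uw (ℓ ^ (a - 1)) V with hU
  have hVX : V ≤ Subgroup.normalizer (U : Set G) := Subgroup.le_normalizer.trans hf.nle
  have eV : V.subgroupOf (Subgroup.normalizer (U : Set G)) ≃* V :=
    Subgroup.subgroupOfEquivOfLe hVX
  have hfq := (hFQ ℓ (FF M) hF G e V γ hL).2.2.1 U f hf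
  have hT' : Ty12 ℓ a (V.subgroupOf (Subgroup.normalizer (U : Set G)))
      (fun t : Subgroup.normalizer (U : Set G) => γ t) := by
    refine hTC ℓ (FF M) hF G _ e V γ _ _ _ hL hf.ld hix a hT ?_ hfq
    rw [← hexp]
    exact Monoid.exponent_eq_of_mulEquiv eV
  have h2 := hLT ℓ M hM hℓ2 G e V γ hL a hT
  have h3 := hLT ℓ M hM hℓ2 _ _ _ _ hf.ld a hT'
  obtain ⟨a1, -⟩ := K9.H3.lbd ℓ M hM G e hL.blk.1 hL.blk.2.1
  obtain ⟨b1, -⟩ := K9.H3.lbd ℓ M hM _ _ hf.ld.blk.1 hf.ld.blk.2.1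
  have a2 : 1 ≤ ln e := a1
  have b2 : 1 ≤ ln (fun t : Subgroup.normalizer (U : Set G) => f t) := b1
  obtain ⟨z, hz⟩ : ∃ z : V, orderOf z = Monoid.exponent V := by
    let _ : CommGroup V := { (inferInstance : Group V) with
      mul_comm := fun x y => Subtype.ext (hL.ab x x.2 y y.2) }
    exact Monoid.exists_orderOf_eq_exponent (Monoid.ExponentExists.of_finite)
  have hz' : orderOf (z : G) = ℓ ^ a := by
    rw [← hexp, ← hz, Subgroup.orderOf_coe]
  have hV : V ≠ ⊥ := by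
    intro hb
    have h5 : (z : G) = 1 := Subgroup.mem_bot.1 (hb ▸ z.2 : (z : G) ∈ (⊥ : Subgroup G))
    rw [h5, orderOf_one] at hz'
    have h6 : 1 < ℓ ^ a := Nat.one_lt_pow ha.ne' hℓ.out.one_lt
    omega
  obtain ⟨χ, hχ, r1, -, r3⟩ := H75.block_case H20.nls H20.brm H63.smt H94.nch
    (H50.dic H20.ibn H20.nls H20.brm) H50.bid H50.chp H50.ldp H50.fld hℓ.out hM hO hL.blk
    (T3.H38.pos ℓ (FF M) hF G e hL.blk V hL.tp.pg hV hL.tp.gd)
  have h4 := hDVX ℓ M hM G hO e V γ hL hV χ hχ r1 z z.2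
  rw [hz'] at h4
  rw [h1] at r3
  have h7 : (Nat.card G : ℤ) ≠ 0 := by exact_mod_cast Nat.card_pos.ne'
  have h8 := mul_left_cancel₀ h7 r3
  have h9 : (ln e : ℤ) - ln (fun t : Subgroup.normalizer (U : Set G) => f t) = 0 := by
    rw [h8] at h4
    refine Int.eq_zero_of_abs_lt_dvd h4 ?_
    rw [abs_lt]
    push_cast
    have h2' : (ln e : ℤ) ≤ (ℓ : ℤ) ^ a := by exact_mod_cast h2
    have h3' : (ln (fun t : Subgroup.normalizer (U : Set G) => f t) : ℤ) ≤ (ℓ : ℤ) ^ a := by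
      exact_mod_cast h3
    have a2' : (1 : ℤ) ≤ (ln e : ℤ) := by exact_mod_cast a2
    have b2' : (1 : ℤ) ≤ (ln (fun t : Subgroup.normalizer (U : Set G) => f t) : ℤ) := by
      exact_mod_cast b2
    constructor <;> linarith
  rw [h1, h9, mul_zero]

end Pool.Agent.PP.T12.H59
end
end -- Pool.Agent.Helper59_AT12.TCA

section -- Pool.Agent.Helper62_AT12.TCC

/-!
# AT12, row TCC: the types are closed under quotients
-/

open scoped BigOperators

noncomputable section

namespace Pool.Agent.PP.T12.H62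

open Pool.Agent.Helper51_AWC Pool.Agent.Helper79_WRA Pool.Agent.PP Pool.Agent.PP.KF
open Pool.Agent.PP.K9 Pool.Agent.PP.K9.H97 Pool.Agent.PP.H75 Pool.Agent.PP.T3 Pool.Agent.PP.T2
open Pool.Agent.PP.T8

theorem tcc (tc8 : T8.Tc8Stmt) : TccStmt := by
  intro ℓ _ F _ hF G A _ _ _ _ e V γ f V' γ' hL hL' hix a hty hexp hfq
  rcases hty with h8 | hb
  · exact Or.inl (tc8 ℓ F hF G A e V γ f V' γ' hL hL' hix a h8 hexp hfq)
  · obtain ⟨π, hπ, -⟩ := hfq
    refine Or.inr ⟨hb.le, hexp, ?_⟩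
    obtain ⟨x, y, hxy⟩ := hb.gen
    have hx : x ∈ V := by rw [hxy]; exact Subgroup.subset_closure (Or.inl rfl)
    have hy : y ∈ V := by rw [hxy]; exact Subgroup.subset_closure (Or.inr rfl)
    refine ⟨π ⟨x, hx⟩, π ⟨y, hy⟩, ?_⟩
    have h1 : Subgroup.closure {(⟨x, hx⟩ : V), ⟨y, hy⟩} = ⊤ := by
      apply Subgroup.map_injective V.subtype_injective
      rw [MonoidHom.map_closure, Set.image_pair]
      change Subgroup.closure {x, y} = Subgroup.map V.subtype ⊤
      rw [← hxy, ← MonoidHom.range_eq_map, Subgroup.range_subtype]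
    have h2 : Subgroup.closure {π ⟨x, hx⟩, π ⟨y, hy⟩} = ⊤ := by
      have h3 := congrArg (Subgroup.map π) h1
      rw [MonoidHom.map_closure, Set.image_pair, Subgroup.map_top_of_surjective π hπ] at h3
      exact h3
    have h3 := congrArg (Subgroup.map V'.subtype) h2
    rw [MonoidHom.map_closure, Set.image_pair, ← MonoidHom.range_eq_map,
      Subgroup.range_subtype] at h3
    exact h3.symm

end Pool.Agent.PP.T12.H62
end
end -- Pool.Agent.Helper62_AT12.TCC

section -- Pool.Agent.Helper82_AT12.QFV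

/-!
# Squad AT12, QFV: the numbers `fv i z` are values at class functions of the centraliser
-/

open scoped BigOperators

noncomputable section

namespace Pool.Agent.PP.T12.H82

open Pool.Agent.Helper51_AWC Pool.Agent.Helper79_WRA Pool.Agent.PP Pool.Agent.PP.KF
open Pool.Agent.PP.K9 Pool.Agent.PP.K9.H97 Pool.Agent.PP.H75 Pool.Agent.PP.T3 Pool.Agent.PP.T2
open Pool.Agent.PP.T8

attribute [local instance] Ideal.Quotient.field

/-- conjugation does not change regularity -/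
theorem reg_conj {H : Type} [Group H] {ℓ : ℕ} {x : H} (s : H) (h : Reg ℓ (x * s * x⁻¹)) :
    Reg ℓ s := by
  have e : orderOf (x * s * x⁻¹) = orderOf s := by
    have := orderOf_injective (MulAut.conj x).toMonoidHom (MulAut.conj x).injective s
    simpa using this
  unfold Reg at h ⊢
  rwa [e] at h

/-- the average of a function over the conjugates -/
def avg {H : Type} [Group H] (j : H → ℂ) : H → ℂ :=
  fun s => (Nat.card H : ℂ)⁻¹ * ∑ᶠ x : H, j (x * s * x⁻¹)

section one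

variable {H : Type} [Group H] [Finite H]

theorem avg_cl (j : H → ℂ) (x y : H) : avg j (y * x * y⁻¹) = avg j x := by
  have := Fintype.ofFinite H
  unfold avg
  congr 1
  rw [finsum_eq_sum_of_fintype, finsum_eq_sum_of_fintype]
  rw [← Equiv.sum_comp (Equiv.mulRight y) (fun t => j (t * x * t⁻¹))]
  apply Finset.sum_congr rfl
  intro t _
  congr 1
  simp only [Equiv.coe_mulRight]
  group

theorem avg_mul (j E : H → ℂ) (hE : ∀ x y, E (y * x * y⁻¹) = E x) (hj : mulF j E = j) :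
    mulF (avg j) E = avg j := by
  have := Fintype.ofFinite H
  funext s
  have h1 : ∀ x : H, ∑ t : H, j (x * t * x⁻¹) * E (t⁻¹ * s) = j (x * s * x⁻¹) := by
    intro x
    have h2 : j (x * s * x⁻¹) = ∑ t : H, j t * E (t⁻¹ * (x * s * x⁻¹)) := by
      conv_lhs => rw [← hj]
      unfold mulF
      rw [finsum_eq_sum_of_fintype]
    rw [h2]
    rw [← Equiv.sum_comp (MulAut.conj x).toEquiv (fun t => j t * E (t⁻¹ * (x * s * x⁻¹)))]
    apply Finset.sum_congr rfl
    intro t _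
    have e1 : (MulAut.conj x).toEquiv t = x * t * x⁻¹ := rfl
    rw [e1]
    congr 1
    rw [← hE (t⁻¹ * s) x]
    congr 1
    group
  unfold mulF avg
  rw [finsum_eq_sum_of_fintype, finsum_eq_sum_of_fintype]
  have h3 : ∀ t : H, (Nat.card H : ℂ)⁻¹ * (∑ᶠ x : H, j (x * t * x⁻¹)) * E (t⁻¹ * s) =
      (Nat.card H : ℂ)⁻¹ * ∑ x : H, j (x * t * x⁻¹) * E (t⁻¹ * s) := by
    intro t
    rw [finsum_eq_sum_of_fintype, mul_assoc, Finset.sum_mul]
  rw [Finset.sum_congr rfl fun t _ => h3 t, ← Finset.mul_sum, Finset.sum_comm]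
  congr 1
  exact Finset.sum_congr rfl fun x _ => h1 x

/-- sum against a class function of the group, translated by a central element -/
theorem avg_sum (j : H → ℂ) (th : H → ℂ) (hth : ∀ x y, th (y * x * y⁻¹) = th x) :
    ∑ᶠ s : H, avg j s * th s = ∑ᶠ s : H, j s * th s := by
  have := Fintype.ofFinite H
  rw [finsum_eq_sum_of_fintype, finsum_eq_sum_of_fintype]
  have h3 : ∀ t : H, avg j t * th t =
      (Nat.card H : ℂ)⁻¹ * ∑ x : H, j (x * t * x⁻¹) * th t := by
    intro t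
    unfold avg
    rw [finsum_eq_sum_of_fintype, mul_assoc, Finset.sum_mul]
  simp only [h3]
  rw [← Finset.mul_sum, Finset.sum_comm]
  have h4 : ∀ x : H, ∑ t : H, j (x * t * x⁻¹) * th t = ∑ s : H, j s * th s := by
    intro x
    rw [← Equiv.sum_comp (MulAut.conj x).toEquiv (fun t => j t * th t)]
    apply Finset.sum_congr rfl
    intro t _
    have e1 : (MulAut.conj x).toEquiv t = x * t * x⁻¹ := rfl
    rw [e1, hth]
  simp only [h4]
  rw [Finset.sum_const, Finset.card_univ, nsmul_eq_mul, Nat.card_eq_fintype_card, ← mul_assoc,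
    inv_mul_cancel₀, one_mul]
  exact Nat.cast_ne_zero.2 Fintype.card_ne_zero

end one

theorem qfv (hL : T8.LclStmt) (hP : T8.PrjStmt) : QfvStmt := by
  classical
  intro ℓ _ M _ hM G _ _ e V γ hld i hi z hz b hb
  obtain ⟨j, hj, hoff, -, hjb, hth⟩ := hL ℓ M hM G e V γ hld i hi z hz b hb
  have hFG := Fintype.ofFinite G
  have hFC := Fintype.ofFinite (Cu z)
  let J : Cu z → ℂ := fun t => j t
  have hJJ : mulF J J = J := by
    have h1 := mulF_res (Cu z) j hoff
    rw [hj.id] at h1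
    exact h1.symm
  have hJE : mulF J (eh M (fun t : Cu z => b t)) = J := by
    have h1 := mulF_res (Cu z) (PP.ext0 (Cu z) (eh M (fun t : Cu z => b t))) hoff
    rw [hjb] at h1
    have h2 : (fun t : Cu z => PP.ext0 (Cu z) (eh M (fun t : Cu z => b t)) t) =
        eh M (fun t : Cu z => b t) := by
      funext t
      unfold PP.ext0
      rw [dif_pos t.2]
    rw [h2] at h1
    exact h1.symm
  refine ⟨avg J, ⟨fun x y => avg_cl J x y, ?_⟩, ?_, ?_⟩
  · -- vanishing at the singular elements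
    intro s hs
    let th : Cu z → ℂ := fun h => ∑ x : Cu z, if x * s * x⁻¹ = h then 1 else 0
    have h1 := hP ℓ M hM (Cu z) J (fun g => hj.rm g) hJJ th ?_ ?_
    · have h2 : ∑ᶠ h, J h * th h = ∑ᶠ x : Cu z, J (x * s * x⁻¹) := by
        rw [finsum_eq_sum_of_fintype, finsum_eq_sum_of_fintype]
        have h3 : ∀ h : Cu z, J h * th h = ∑ x : Cu z, if x * s * x⁻¹ = h then J h else 0 := by
          intro h
          simp only [th, Finset.mul_sum]
          apply Finset.sum_congr rfl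
          intro x _
          split_ifs <;> simp
        simp only [h3]
        rw [Finset.sum_comm]
        apply Finset.sum_congr rfl
        intro x _
        rw [Finset.sum_ite_eq]
        simp
      unfold avg
      rw [← h2, h1, mul_zero]
    · intro x y
      simp only [th]
      rw [← Equiv.sum_comp (Equiv.mulLeft y) (fun t => if t * s * t⁻¹ = y * x * y⁻¹ then (1 : ℂ) else 0)]
      apply Finset.sum_congr rfl
      intro t _
      have e1 : ((Equiv.mulLeft y) t * s * ((Equiv.mulLeft y) t)⁻¹ = y * x * y⁻¹) ↔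
          (t * s * t⁻¹ = x) := by
        simp only [Equiv.coe_mulLeft]
        constructor
        · intro h
          have e2 : y * t * s * (y * t)⁻¹ = y * (t * s * t⁻¹) * y⁻¹ := by group
          rw [e2] at h
          exact mul_left_cancel (mul_right_cancel h)
        · intro h
          rw [← h]
          group
      simp only [e1]
    · intro x hx
      simp only [th]
      apply Finset.sum_eq_zero
      intro t _
      rw [if_neg]
      intro h
      apply hs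
      apply reg_conj (x := t) s
      rw [h]
      exact hx
  · exact avg_mul J _ (fun x y => KF.H25.eh_cl _ x y) hJE
  · intro th hcl
    rw [hth th hcl]
    unfold fv gbv
    rw [avg_sum J (fun c : Cu z => th (z * c))]
    · rw [sum_sub (Cu z) (fun g => j g * th (z * g)) (fun x hx => by rw [hoff x hx, zero_mul])]
    · intro x y
      have hy : z * (y : G) = y * z := (Subgroup.mem_centralizer_singleton_iff.1 y.2).symm
      have e1 : z * ((y * x * y⁻¹ : Cu z) : G) = y * (z * x) * (y : G)⁻¹ := by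
        push_cast
        rw [← mul_assoc, ← mul_assoc, hy]
        group
      rw [e1, hcl]

end Pool.Agent.PP.T12.H82
end
end -- Pool.Agent.Helper82_AT12.QFV

section -- Pool.Agent.Helper83_AT12.QAV

/-!
# Squad AT12, row QAV: the numbers `Av` as `gbv`
-/

open scoped BigOperators

set_option linter.unusedSectionVars false

noncomputable section

namespace Pool.Agent.PP.T12.H83

open Pool.Agent.Helper51_AWC Pool.Agent.Helper79_WRA Pool.Agent.PP Pool.Agent.PP.KF
open Pool.Agent.PP.K9 Pool.Agent.PP.K9.H97 Pool.Agent.PP.H75 Pool.Agent.PP.T3 Pool.Agent.PP.T2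
open Pool.Agent.PP.T8

attribute [local instance] Ideal.Quotient.field

theorem reg_conj {ℓ : ℕ} {A : Type} [Group A] (x y : A) : Reg ℓ (y * x * y⁻¹) ↔ Reg ℓ x := by
  unfold Reg
  have h : orderOf (y * x * y⁻¹) = orderOf x := by
    have h1 := orderOf_injective (MulAut.conj y).toMonoidHom (MulAut.conj y).injective x
    exact h1
  rw [h]

theorem qav (psi : K9.PsiStmt) (rot : K9.RotStmt) : QavStmt := by
  intro ℓ _ M _ hl G H _ _ _ _ u n π hπ β hβ p hp hRc
  classical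
  have := Fintype.ofFinite (Cu u)
  set b : Cu u → FF M := fun t : Cu u => β t with hb
  have hbi : IsIdem b := hβ.idem
  -- the pull-back of `p`
  have hpull : (fun c : Cu u => p (π c)) ∈ Submodule.span ℂ (IrrE M b) := by
    have hset := (psi M (Cu u) H π hπ.sur b hbi.1).1
    rw [hset] at hp
    clear hRc
    induction hp using Submodule.span_induction with
    | mem θ hθ => exact Submodule.subset_span hθ.2
    | zero => exact Submodule.zero_mem _
    | add f g _ _ hf hg => exact Submodule.add_mem _ hf hg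
    | smul a f _ hf => exact Submodule.smul_mem _ a hf
  obtain ⟨q, hq⟩ : ∃ q : Cu u → ℂ, q = fun g => if Reg ℓ g then p (π g) else 0 := ⟨_, rfl⟩
  have hqs : q ∈ Submodule.span ℂ (IrrE M b) := by
    rw [hq]
    exact (rot ℓ M hl (Cu u) b hbi).1 _ hpull
  refine ⟨fun s => (Nat.card H : ℂ)⁻¹ * starRingEnd ℂ (q s), ⟨?_, ?_⟩, ?_, ?_⟩
  · intro x y
    show (Nat.card H : ℂ)⁻¹ * starRingEnd ℂ (q (y * x * y⁻¹)) =
      (Nat.card H : ℂ)⁻¹ * starRingEnd ℂ (q x)
    have h1 : q (y * x * y⁻¹) = q x := by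
      rw [hq]
      show (if Reg ℓ (y * x * y⁻¹) then p (π (y * x * y⁻¹)) else 0) =
        (if Reg ℓ x then p (π x) else 0)
      rw [map_mul, map_mul, map_inv, hRc.cl]
      simp only [reg_conj]
    rw [h1]
  · intro x hx
    show (Nat.card H : ℂ)⁻¹ * starRingEnd ℂ (q x) = 0
    rw [hq]
    show (Nat.card H : ℂ)⁻¹ * starRingEnd ℂ (if Reg ℓ x then p (π x) else 0) = 0
    rw [if_neg hx, map_zero, mul_zero]
  · funext x
    unfold mulF
    rw [finsum_eq_sum_of_fintype]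
    have h1 := K9.H65.eh_act b hqs x
    rw [← Equiv.sum_comp (Equiv.divLeft x)]
    simp only [Equiv.divLeft_apply]
    rw [← h1, Finset.mul_sum]
    refine Finset.sum_congr rfl fun c _ => ?_
    have e : (x / c)⁻¹ * x = c := by
      rw [div_eq_mul_inv]
      group
    rw [e, div_eq_mul_inv]
    ring
  · intro x χ
    unfold Av gbv
    rw [finsum_eq_sum_of_fintype, finsum_eq_sum_of_fintype, Finset.mul_sum]
    refine Finset.sum_congr rfl fun s _ => ?_
    rw [finsum_eq_if, hq]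
    by_cases hs : Reg ℓ s
    · simp only [if_pos hs]
      ring
    · simp only [if_neg hs]
      rw [map_zero]
      ring

end Pool.Agent.PP.T12.H83
end
end -- Pool.Agent.Helper83_AT12.QAV

section -- Pool.Agent.AT12.Asm0

/-!
# Squad AT12: assembly of the rows, up to the rows CYN, LBY, CST
-/

open scoped BigOperators

noncomputable section

namespace Pool.Agent.PP.T12

theorem cms_ : CmsStmt := H77.cms

theorem ann_ : AnnStmt := H56.ann T8.fni_ T8.fgr_ T8.fnz_ T8.fkl_ T3.lrk_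

theorem stf_ : StfStmt :=
  H56.stf ann_ cms_ T2.pr2_ T8.dat_ T8.for__ T8.fni_ T8.fgr_ T8.fnz_ T8.prj_ T8.smi_ T8.fch_
    T8.lft_ KF.H25.idm

theorem qor_ : QorStmt := H45.qor

theorem qav_ : QavStmt := H83.qav K9.H3.psi K9.rot_

theorem qfv_ : QfvStmt := H82.qfv T8.lcl_ T8.prj_

theorem oav_ : OavStmt := H33.oav qor_ qav_ qfv_ T3.lpw_ T3.fus_ T3.loc_ C2.H25.sec2

theorem avi_ : AviStmt := H38.avi T8.lcl_ T8.smi_ T8.prj_

theorem fsy_ : FsyStmt := H84.fsy avi_

theorem ccy_ : CcyStmt := H3.ccy oav_ T8.fch_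

theorem se2_ : Se2Stmt := H32.se2

theorem co2_ : Co2Stmt :=
  H1.co2 se2_ fsy_ ccy_ T8.cid_ T8.csq_ T8.fch_ T8.rva_ T8.geq_ T8.dpw_ C2.H48.int2

theorem cpy_ : CpyStmt := H15.cpy T8.cpr_

theorem crg_ : CrgStmt := H67.crg

theorem csm_ : CsmStmt := H87.csm T2.pwu_

theorem avn_ : AvnStmt := H38.avn csm_ crg_

theorem avl_ : AvlStmt := H17.avl csm_ crg_ T8.avb_

theorem gal_ : GalStmt := H76.gal crg_ C2.H48.int2 T3.inr_ T8.dpw_

theorem bsf_ : BsfStmt := H86.bsf

theorem grm_ : GrmStmt := H65.grm oav_ crg_ T8.dor_ T8.dpw_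

theorem be2_ : Be2Stmt := H13.be2 bsf_ grm_ avn_ crg_ T8.dpw_

theorem cnb_ : CnbStmt := H91.cnb

theorem fx1_ : Fx1Stmt := H13.fx1 T2.fxy_ T2.stg_ K9.nz_ T3.lrk_ T3.loc_ T3.lsb_

theorem lbz_ : LbzStmt := H13.lbz cnb_ be2_ gal_ avl_ crg_ T8.nrm_ T8.dcg_ K9.H34.inx

theorem lbc_of (cst : CstStmt) (syx : SyxStmt) : LbcStmt :=
  H86.lbc cst syx co2_ crg_ lbz_ fx1_ T8.lb8_ T8.xct_ T8.dat_ T2.pr2_

theorem syx_of (lby : LbyStmt) : SyxStmt :=
  H1.syx lby stf_ T3.lsb_ T3.loc_ T3.psg_ T8.qt3_ T8.lfr_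

theorem tcc_ : TccStmt := H62.tcc T8.tc8_

theorem ltc_of (lbc : LbcStmt) : LtcStmt := H32.ltc lbc T8.lt8_ T2.lb2_

theorem tca_of (ltc : LtcStmt) : TcaStmt := H59.tca ltc tcc_ T8.fqt_ T8.ts8_ T2.fst_ T2.dvx_

theorem fnc_of (tca : TcaStmt) : FncStmt := H7.fnc T3.flt_ T2.dza_ T8.qt3_ K9.H34.inx tca

theorem fnc_of_rows (lby : LbyStmt) (cst : CstStmt) : FncStmt :=
  fnc_of (tca_of (ltc_of (lbc_of cst (syx_of lby))))

end Pool.Agent.PP.T12
end
end -- Pool.Agent.AT12.Asm0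

section -- Pool.Agent.AT12.Asm1

/-!
# Squad AT12: assembly of the rows, up to the row CST
-/

open scoped BigOperators

noncomputable section

namespace Pool.Agent.PP.T12

theorem psn_ : C2.PsnStmt := C2.H3.psn

theorem nrm_ : C2.NrmStmt := C2.H82.nrm psn_

theorem inu_ : C2.InuStmt := C2.H81.inu C2.H11.exb

theorem gdv_ : C2.GdvStmt := C2.H3.gdv C2.H3.dug

theorem duv_ : C2.DuvStmt := C2.H92.duv gdv_ C2.H52.covn psn_

theorem cyn_ : CynStmt := H21.cyn C2.H56.rec_ duv_ C2.H39.yqv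

theorem lby_ : LbyStmt := H21.lby inu_ nrm_ psn_ cyn_

theorem syx_ : SyxStmt := syx_of lby_

theorem fnc_of_cst (cst : CstStmt) : FncStmt := fnc_of_rows lby_ cst

end Pool.Agent.PP.T12
end
end -- Pool.Agent.AT12.Asm1

section -- Pool.Agent.AT12.Asm

/-!
# Squad AT12: assembly, the theorem for block idempotents for odd primes
-/

open scoped BigOperators

noncomputable section

namespace Pool.Agent.PP.T12

theorem cst_ : CstStmt := H64.cst cpy_

theorem lbc_ : LbcStmt := lbc_of cst_ syx_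

theorem ltc_ : LtcStmt := ltc_of lbc_

theorem tca_ : TcaStmt := tca_of ltc_

theorem fnc_ : FncStmt := fnc_of tca_

end Pool.Agent.PP.T12
end
end -- Pool.Agent.AT12.Asm
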