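import Pool.Agent.Helper12_AWB.B283
import Pool.Agent.Helper12_AWB.B294

/-!
# Merged copies (generated) of the modules

* `Pool.Agent.Helper15_ATP.PCD`
* `Pool.Agent.Helper16_ATP.PMX`
* `Pool.Agent.Helper19_ATP.PTR`
* `Pool.Agent.Helper27_ATP.PCJ`
* `Pool.Agent.Helper32_ATP.PEX`
* `Pool.Agent.Helper43_ATP.FNP`
* `Pool.Agent.Helper49_ATP.PXB`
* `Pool.Agent.Helper64_ATP.PUN`
* `Pool.Agent.Helper65_ATP.TYP`
* `Pool.Agent.Helper82_ATP.PMK`
* `Pool.Agent.Helper86_ATP.PMG`
* `Pool.Agent.Helper94_ATP.CTQ`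
* `Pool.Agent.Helper95_ATP.NP1`
* `Pool.Agent.Helper43_ATP.Asm`
* `Pool.Agent.Helper43_ATP.Fin11`
-/

set_option autoImplicit false

section -- Pool.Agent.Helper15_ATP.PCD

/-!
# Squad ATP, row PCD: the defect group of the block of `C(Q)`
-/

open scoped BigOperators

noncomputable section

namespace Pool.Agent.PP.TP.H15

open Pool.Agent.Helper51_AWC Pool.Agent.Helper79_WRA Pool.Agent.PP Pool.Agent.PP.KF
open Pool.Agent.PP.K9 Pool.Agent.PP.K9.H97 Pool.Agent.PP.H75 Pool.Agent.PP.T3 Pool.Agent.PP.T2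
open Pool.Agent.PP.TB

section

variable {G : Type} [Group G]

theorem mem_cent_sup (S Q : Subgroup G) (t : G) :
    t ∈ Subgroup.centralizer ((S ⊔ Q : Subgroup G) : Set G) ↔
      t ∈ Subgroup.centralizer (S : Set G) ∧ t ∈ Subgroup.centralizer (Q : Set G) := by
  constructor
  · intro h
    rw [Subgroup.mem_centralizer_iff] at h
    exact ⟨Subgroup.mem_centralizer_iff.2 fun s hs => h s (Subgroup.mem_sup_left hs),
      Subgroup.mem_centralizer_iff.2 fun s hs => h s (Subgroup.mem_sup_right hs)⟩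
  · rintro ⟨h1, h2⟩
    have h3 : S ⊔ Q ≤ Subgroup.centralizer ({t} : Set G) := by
      apply sup_le
      · intro s hs
        rw [Subgroup.mem_centralizer_iff]
        intro x hx
        rw [Set.mem_singleton_iff.1 hx]
        exact (Subgroup.mem_centralizer_iff.1 h1 s hs).symm
      · intro s hs
        rw [Subgroup.mem_centralizer_iff]
        intro x hx
        rw [Set.mem_singleton_iff.1 hx]
        exact (Subgroup.mem_centralizer_iff.1 h2 s hs).symm
    rw [Subgroup.mem_centralizer_iff]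
    intro s hs
    exact (Subgroup.mem_centralizer_iff.1 (h3 hs) t rfl).symm

theorem br_sup [Finite G] {F : Type} [Field F] (S Q : Subgroup G) (b : G → F)
    (hb : ∀ x, x ∉ Subgroup.centralizer (Q : Set G) → b x = 0) : br (S ⊔ Q) b = br S b := by
  funext t
  by_cases h1 : t ∈ Subgroup.centralizer (S : Set G)
  · by_cases h2 : t ∈ Subgroup.centralizer (Q : Set G)
    · rw [br_in b h1, br_in b ((mem_cent_sup S Q t).2 ⟨h1, h2⟩)]
    · rw [br_in b h1, br_out b (fun h => h2 ((mem_cent_sup S Q t).1 h).2), hb t h2]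
  · rw [br_out b h1, br_out b (fun h => h1 ((mem_cent_sup S Q t).1 h).1)]

theorem cent_le_norm (Q : Subgroup G) :
    Subgroup.centralizer (Q : Set G) ≤ Subgroup.normalizer (Q : Set G) := by
  intro x hx
  rw [Subgroup.mem_normalizer_iff]
  intro q
  rw [Subgroup.mem_centralizer_iff] at hx
  constructor
  · intro hq
    have : x * q * x⁻¹ = q := by rw [← hx q hq]; group
    rw [this]; exact hq
  · intro hq
    have h2 := hx _ hq
    have h3 : x * q * x⁻¹ = q := by
      have : x * q * x⁻¹ * x = x * (x * q * x⁻¹) := h2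
      have h4 : x * q = x * (x * q * x⁻¹) := by
        rw [← this]; group
      exact (mul_left_cancel h4).symm
    rw [← h3]; exact hq

end

theorem pcd (hpin : PinStmt) (hpun : PunStmt) (hpcj : PcjStmt) : PcdStmt := by
  intro ℓ _ F _ hF G _ _ Q S b b₃ hQ hS hT hb₃ hu
  have hSp : IsPGroup ℓ S := by
    have h1 := hT.pg
    have h2 := h1.map (Subgroup.centralizer (Q : Set G)).subtype
    rwa [Subgroup.map_subgroupOf_eq_of_le hS] at h2
  have hSN : S ≤ Subgroup.normalizer (Q : Set G) := hS.trans (cent_le_norm Q)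
  have hpg : ∀ S' : Subgroup G, IsPGroup ℓ S' → S' ≤ Subgroup.centralizer (Q : Set G) →
      IsPGroup ℓ (S' ⊔ Q : Subgroup G) := fun S' h1 h2 =>
    IsPGroup.to_sup_of_normal_right' h1 hQ.pg (h2.trans (cent_le_norm Q))
  have hP : Pq ℓ (S ⊔ Q) b₃ := ⟨hpg S hSp hS, hb₃⟩
  have hN : Nl Q b (S ⊔ Q) b₃ := by
    refine ⟨le_sup_right, sup_le hSN Subgroup.le_normalizer, ?_, ?_⟩
    · intro x hx
      refine (hpcj ℓ F G x).2.2.2 Q b hQ ?_
      have h1 : S ⊔ Q ≤ Q ⊔ Subgroup.centralizer (Q : Set G) :=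
        sup_le (hS.trans le_sup_right) le_sup_left
      exact h1 hx
    · rw [br_sup S Q b hQ.blk.supp]
      exact hu
  refine ⟨hP, hN, ?_⟩
  intro D γ hD hle
  have hSD : S ≤ D := le_sup_left.trans hle.sub
  have hQD : Q ≤ D := le_sup_right.trans hle.sub
  have hSS : S ≤ D ⊓ Subgroup.centralizer (Q : Set G) := le_inf hSD hS
  have hcard : Nat.card (D ⊓ Subgroup.centralizer (Q : Set G) : Subgroup G) ≤ Nat.card S := by
    have hS'p : IsPGroup ℓ (D ⊓ Subgroup.centralizer (Q : Set G) : Subgroup G) :=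
      hD.pg.to_le inf_le_left
    obtain ⟨s, hs, hs1, hs2⟩ := hpin ℓ F hF G D γ hD (S ⊔ Q) b₃ hP hle
      ((D ⊓ Subgroup.centralizer (Q : Set G)) ⊔ Q) (sup_le_sup_right hSS Q)
      (sup_le inf_le_left hQD)
    have hQs : Le ℓ Q b ((D ⊓ Subgroup.centralizer (Q : Set G)) ⊔ Q) s :=
      (Le.one hQ hP hN).trans hs1
    have hNs : Nl Q b ((D ⊓ Subgroup.centralizer (Q : Set G)) ⊔ Q) s :=
      (hpun ℓ F hF G _ s hs Q b hQ hQs).2
        (sup_le (inf_le_right.trans (cent_le_norm Q)) Subgroup.le_normalizer)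
    have hgd : ∃ t, t ∈ Subgroup.centralizer
        ((D ⊓ Subgroup.centralizer (Q : Set G) : Subgroup G) : Set G) ∧
        t ∈ Subgroup.centralizer (Q : Set G) ∧ b t ≠ 0 := by
      by_contra hcon
      push Not at hcon
      have h0 : br ((D ⊓ Subgroup.centralizer (Q : Set G)) ⊔ Q) b = 0 := by
        rw [br_sup _ Q b hQ.blk.supp]
        funext t
        by_cases ht : t ∈ Subgroup.centralizer
            ((D ⊓ Subgroup.centralizer (Q : Set G) : Subgroup G) : Set G)
        · rw [br_in b ht]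
          by_cases ht2 : t ∈ Subgroup.centralizer (Q : Set G)
          · exact hcon t ht ht2
          · exact hQ.blk.supp t ht2
        · rw [br_out b ht]; rfl
      have h1 := hNs.und
      rw [h0] at h1
      apply hs.blk.ne
      rw [← h1]
      funext t
      unfold mulF
      simp
    obtain ⟨t, ht1, ht2, ht3⟩ := hgd
    have h2 := hT.mx ((D ⊓ Subgroup.centralizer (Q : Set G)).subgroupOf
      (Subgroup.centralizer (Q : Set G))) (by
        exact hS'p.comap_of_injective _ (Subgroup.subtype_injective _)) (by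
        refine ⟨⟨t, ht2⟩, ?_, ht3⟩
        rw [Subgroup.mem_centralizer_iff] at ht1 ⊢
        intro y hy
        apply Subtype.ext
        exact ht1 y (Subgroup.mem_subgroupOf.1 hy))
    rw [Nat.card_congr (Subgroup.subgroupOfEquivOfLe inf_le_right).toEquiv,
      Nat.card_congr (Subgroup.subgroupOfEquivOfLe hS).toEquiv] at h2
    exact h2
  have heq : D ⊓ Subgroup.centralizer (Q : Set G) = S :=
    (Subgroup.eq_of_le_of_card_ge hSS hcard).symm
  refine ⟨heq, ?_⟩
  have h3 : Zc D ≤ S := by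
    rw [← heq]
    exact inf_le_inf_left D (Subgroup.centralizer_le (SetLike.coe_subset_coe.2 hQD))
  exact le_inf h3 (inf_le_right.trans (Subgroup.centralizer_le (SetLike.coe_subset_coe.2 hSD)))

end Pool.Agent.PP.TP.H15
end
end -- Pool.Agent.Helper15_ATP.PCD

section -- Pool.Agent.Helper16_ATP.PMX

/-!
# ATP, row PMX: every pair under the block `e` is contained in a pair of a defect group
-/

open scoped BigOperators

noncomputable section

namespace Pool.Agent.PP.TP.H16

open Pool.Agent.Helper51_AWC Pool.Agent.Helper79_WRA Pool.Agent.PP Pool.Agent.PP.KF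
open Pool.Agent.PP.K9 Pool.Agent.PP.K9.H97 Pool.Agent.PP.H75 Pool.Agent.PP.T3 Pool.Agent.PP.T2
open Pool.Agent.PP.TB

attribute [local instance] Ideal.Quotient.field

set_option linter.unusedSectionVars false

section tools

variable {F G : Type} [Field F] [Group G] [Finite G]

/-- a block of `K` under the idempotent `E` on which an additive map does not vanish -/
theorem blk_over {K : Subgroup G} {E : G → F} (hE : Ix K E) {A : Type} [AddCommGroup A]
    (L : (G → F) → A) (hL0 : L 0 = 0) (hL : ∀ a b, L (a + b) = L a + L b) (h : L E ≠ 0) :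
    ∃ b : G → F, Bx K b ∧ mulF E b = b ∧ L b ≠ 0 := by
  have hadd : ∀ a b : K → F, H75.ext0 K (a + b) = H75.ext0 K a + H75.ext0 K b := by
    intro a b
    funext x
    by_cases hx : x ∈ K
    · have h1 := H75.ext0_apply K (a + b) ⟨x, hx⟩
      have h2 := H75.ext0_apply K a ⟨x, hx⟩
      have h3 := H75.ext0_apply K b ⟨x, hx⟩
      change H75.ext0 K (a + b) x = _ at h1
      change H75.ext0 K a x = _ at h2
      change H75.ext0 K b x = _ at h3
      rw [h1, Pi.add_apply, Pi.add_apply, h2, h3]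
    · rw [Pi.add_apply, H75.ext0_supp K _ x hx, H75.ext0_supp K _ x hx, H75.ext0_supp K _ x hx,
        add_zero]
  have h0 : H75.ext0 K (0 : K → F) = 0 := by
    funext x
    by_cases hx : x ∈ K
    · exact H75.ext0_apply K (0 : K → F) ⟨x, hx⟩
    · exact H75.ext0_supp K _ x hx
  obtain ⟨b, hb, hb2, hb3⟩ := K9.H24.exists_blk (fun a : K → F => L (H75.ext0 K a))
    (by rw [h0, hL0]) (fun a b => by rw [hadd, hL]) hE.idem
    (by
      rw [H75.ext0_res K hE.supp]
      exact h)
  refine ⟨H75.ext0 K b, ⟨H75.ext0_supp K b, ?_⟩, ?_, hb3⟩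
  · rw [show (fun t : K => H75.ext0 K b t) = b from funext (H75.ext0_apply K b)]
    exact hb
  · have h1 := H75.ext0_mulF K (fun t : K => E t) b
    rw [hb2, H75.ext0_res K hE.supp] at h1
    exact h1.symm

theorem res_ext0 {K : Subgroup G} (b : K → F) : (fun t : K => H75.ext0 K b t) = b :=
  funext (H75.ext0_apply K b)

end tools

/-- the induction -/
theorem pmx_aux (np1 : Np1Stmt) (pcj : PcjStmt) (pxb : PxbStmt) (ℓ : ℕ) [Fact ℓ.Prime]
    (M : Ideal (integralClosure ℤ ℂ)) [M.IsMaximal] (hM : (ℓ : integralClosure ℤ ℂ) ∈ M)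
    (G : Type) [Group G] [Finite G] (e : G → FF M) (V : Subgroup G) (he : IsBlk e)
    (hV : Tp ℓ e V) : ∀ (m : ℕ) (P : Subgroup G) (c : G → FF M), Nat.card V - Nat.card P ≤ m →
      Pq ℓ P c → mulF (br P e) c = c →
      ∃ (x : G) (γ' : G → FF M), Pq ℓ (conjS x V) γ' ∧ Le ℓ P c (conjS x V) γ' := by
  intro m
  induction m with
  | zero =>
    intro P c hm hP hc
    have hPe : Gd e P := C2.H3.gd_of_br' (by
      intro h0
      rw [h0, H75.mulF_zero_left] at hc
      exact hP.blk.ne hc.symm)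
    obtain ⟨hfm, -, -⟩ := K9.H69.fmg ℓ M hM G e he V hV
    obtain ⟨g, hg⟩ := hfm P hP.pg hPe
    have hcard : Nat.card P = Nat.card V := by
      have h1 := hV.mx P hP.pg hPe
      omega
    have hPV : P = conjS g V := by
      apply Subgroup.eq_of_le_of_card_ge hg
      rw [K9.H69.card_conj, hcard]
    refine ⟨g, c, hPV ▸ hP, ?_⟩
    rw [← hPV]
    exact Le.refl
  | succ m ih =>
    intro P c hm hP hc
    have hF : GoodF ℓ (FF M) := H50.fld ℓ Fact.out M hM
    have hPe : Gd e P := C2.H3.gd_of_br' (by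
      intro h0
      rw [h0, H75.mulF_zero_left] at hc
      exact hP.blk.ne hc.symm)
    by_cases hlt : Nat.card P < Nat.card V
    swap
    · exact ih P c (by omega) hP hc
    obtain ⟨N, hN⟩ : ∃ N : Subgroup G, N = Subgroup.normalizer (P : Set G) := ⟨_, rfl⟩
    obtain ⟨C, hC⟩ : ∃ C : Subgroup G, C = Subgroup.centralizer (P : Set G) := ⟨_, rfl⟩
    have hCN : C ≤ N := by
      rw [hC, hN]
      exact Subgroup.centralizer_le_normalizer _
    have hPN : P ≤ N := by
      rw [hN]
      exact Subgroup.le_normalizer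
    have hcB : Bx C c := hC ▸ hP.blk
    -- the idempotent `br_P(e)` of `N`
    have hbrP : Ix N (br P e) := by
      refine ⟨fun x hx => br_out e (fun h => hx (hCN (hC ▸ h))), ?_⟩
      rw [hN]
      exact (H20.brm ℓ (FF M) hF G P _ hP.pg (Subgroup.centralizer_le_normalizer _) le_rfl).2.2 e
        he.1
    obtain ⟨f, hf, hff, hfc⟩ := blk_over hbrP (fun a : G → FF M => mulF a c)
      (H75.mulF_zero_left c) (fun a b => K9.H24.mulF_add_l a b c) (by
        change mulF (br P e) c ≠ 0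
        rw [hc]
        exact hP.blk.ne)
    -- `f` is supported on `C(P)`
    have hfs : br P f = f := T2.H32.supp_cent hF hP.pg hPN (hC ▸ hCN) (hN ▸ le_rfl) hf.ix
    have hfC : Ix C f := by
      have h1 := T2.H32.ix_br hF hP.pg hPN (hC ▸ hCN) hf.ix
      rw [hfs] at h1
      exact hC ▸ h1
    have hfcc : mulF f c = c := by
      rcases hcB.dich' hfC with h1 | h1
      · rw [hfC.comm hcB.ix, h1]
      · exfalso
        apply hfc
        change mulF f c = 0
        rw [hfC.comm hcB.ix, h1]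
    -- a larger good subgroup
    obtain ⟨P', hP', hgd, hPP'⟩ := K9.H24.dun K9.H69.fmg ℓ M hM G e he V hV P hP.pg hlt
      (fun t : Subgroup.normalizer (P : Set G) => f t) (by
        have := hf.blk
        subst hN
        exact this) (by
        have h1 := H75.mulF_res (Subgroup.normalizer (P : Set G)) (a := br P e) f
          (fun x hx => hbrP.supp x (fun h => hx (hN ▸ h)))
        rw [hff] at h1
        exact h1.symm)
    obtain ⟨R, hR⟩ : ∃ R : Subgroup G,
      R = P'.map (Subgroup.normalizer (P : Set G)).subtype := ⟨_, rfl⟩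
    have hRp : IsPGroup ℓ R := by
      rw [hR]
      exact hP'.map _
    have hPR : P < R := by
      rw [hR]
      have h1 := (Subgroup.map_lt_map_iff_of_injective
        (f := (Subgroup.normalizer (P : Set G)).subtype)
        (Subgroup.normalizer (P : Set G)).subtype_injective).2 hPP'
      rwa [Subgroup.map_subgroupOf_eq_of_le (hN ▸ hPN)] at h1
    have hRN : R ≤ N := by
      rw [hR, hN]
      exact Subgroup.map_subtype_le _
    have hRN' : R ≤ Subgroup.normalizer (P : Set G) := hN ▸ hRN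
    have hRC : Subgroup.centralizer (R : Set G) ≤ C := by
      rw [hC]
      exact Subgroup.centralizer_le hPR.le
    have hgd' : Gd f R := by
      obtain ⟨t, ht, ht2⟩ := hgd
      refine ⟨t, ?_, ht2⟩
      rw [Subgroup.mem_centralizer_iff] at ht ⊢
      intro y hy
      rw [hR] at hy
      obtain ⟨s, hs, rfl⟩ := hy
      exact congrArg Subtype.val (ht s hs)
    have hbrR : Ix (Subgroup.centralizer (R : Set G)) (br R f) :=
      T2.H32.ix_br hF hRp hRN (hRC.trans hCN) hf.ix
    obtain ⟨c'', hc'', hfc'', -⟩ := blk_over hbrR (fun a : G → FF M => a) rfl (fun _ _ => rfl)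
      (C2.H3.br_ne_of_gd hgd')
    obtain ⟨c₁, hc₁, hnl, -⟩ := np1 ℓ (FF M) hF G P R hRp hPR.le hRN' c'' hc''
    -- `f c₁ = c₁`
    have hinv₁ : H66.Inv R c₁ := fun x hx => (cj_eq_iff x c₁).1 (hnl.inv x hx)
    have hinvf : H66.Inv R f := fun x hx => (cj_eq_iff x f).1 (hf.ix.inv (hRN hx))
    have hc₁C : Bx C c₁ := hC ▸ hc₁
    have hfc₁ : mulF f c₁ = c₁ := by
      rcases hc₁C.dich' hfC with h1 | h1
      · rw [hfC.comm hc₁C.ix, h1]
      · exfalso
        have h2 : mulF (br R (mulF c₁ f)) c'' = c'' := by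
          rw [H66.br_mulF hF hRp hinv₁ hinvf, H20.mulF_assoc, hfc'', hnl.und]
        rw [h1] at h2
        have h3 : br R (0 : G → FF M) = 0 := by
          funext t
          by_cases ht : t ∈ Subgroup.centralizer (R : Set G)
          · rw [br_in _ ht]
          · rw [br_out _ ht]
            rfl
        rw [h3, H75.mulF_zero_left] at h2
        exact hc''.ne h2.symm
    -- conjugation
    have hNC : N ≤ Subgroup.normalizer (C : Set G) := by
      rw [hN, hC]
      intro g hg
      rw [Subgroup.mem_normalizer_iff]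
      have key : ∀ g ∈ Subgroup.normalizer (P : Set G), ∀ y : G,
          y ∈ Subgroup.centralizer (P : Set G) →
          g * y * g⁻¹ ∈ Subgroup.centralizer (P : Set G) := by
        intro g hg y hy
        rw [Subgroup.mem_centralizer_iff] at hy ⊢
        intro r hr
        have h2 : g⁻¹ * r * g ∈ P := by
          have := (Subgroup.mem_normalizer_iff.1 (Subgroup.inv_mem _ hg) r).1 hr
          rwa [inv_inv] at this
        have h3 := hy _ h2
        calc r * (g * y * g⁻¹) = g * (g⁻¹ * r * g * y) * g⁻¹ := by group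
          _ = g * (y * (g⁻¹ * r * g)) * g⁻¹ := by rw [h3]
          _ = g * y * g⁻¹ * r := by group
      intro y
      refine ⟨key g hg y, fun h => ?_⟩
      have h1 := key g⁻¹ (inv_mem hg) _ h
      have h2 : g⁻¹ * (g * y * g⁻¹) * g⁻¹⁻¹ = y := by group
      rwa [h2] at h1
    obtain ⟨n, hn, hnc⟩ := K9.H97.orb ℓ (FF M) hF G N C hCN hNC f hfC.supp hf.blk c₁ c
      hc₁C.supp hcB.supp hc₁C.blk hcB.blk hfc₁ hfcc
    have hcj : cj n⁻¹ c₁ = c := by
      funext x
      rw [hnc x]
      unfold cj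
      rw [inv_inv]
    have hconj : conjS n⁻¹ P = P := by
      ext x
      rw [mem_conjS, inv_inv]
      exact (Subgroup.mem_normalizer_iff.1 (hN ▸ hn) x).symm
    obtain ⟨pc1, pc2, -, -⟩ := pcj ℓ (FF M) G n⁻¹
    have hR' := pc1 R c'' ⟨hRp, hc''⟩
    have hnl' := pc2 P R c₁ c'' hnl
    rw [hcj, hconj] at hnl'
    have hle := Le.one hP hR' hnl'
    have hixe : Ix (⊤ : Subgroup G) e := by
      refine ⟨fun x hx => absurd (Subgroup.mem_top x) hx, ?_, ?_⟩
      · intro x y
        exact he.1.1 x y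
      · rw [← H75.mulF_res (⊤ : Subgroup G) e (fun x hx => absurd (Subgroup.mem_top x) hx), he.1.2]
    have hce := (pxb ℓ (FF M) hF G ⊤ e hixe _ _ hR' le_top P c hP le_top hle).1 hc
    have hcard : Nat.card P < Nat.card R := by
      have h1 : (P : Set G) ⊂ (R : Set G) := hPR
      have h2 := Set.ncard_lt_ncard h1 (Set.toFinite _)
      exact h2
    obtain ⟨x, γ', hx1, hx2⟩ := ih (conjS n⁻¹ R) (cj n⁻¹ c'') (by
      rw [K9.H69.card_conj]
      omega) hR' hce
    exact ⟨x, γ', hx1, hle.trans hx2⟩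

/-- row PMX -/
theorem pmx (np1 : Np1Stmt) (pcj : PcjStmt) (pxb : PxbStmt) : PmxStmt := by
  intro ℓ _ M _ hM G _ _ e V he hV Q b hQ hb
  exact pmx_aux np1 pcj pxb ℓ M hM G e V he hV _ Q b le_rfl hQ hb

end Pool.Agent.PP.TP.H16
end
end -- Pool.Agent.Helper16_ATP.PMX

section -- Pool.Agent.Helper19_ATP.PTR

/-!
# Squad ATP, row PTR: the pairs of a subgroup which contains `C(Q)`
-/

open scoped BigOperators

noncomputable section

namespace Pool.Agent.PP.TP.H19

open Pool.Agent.Helper51_AWC Pool.Agent.Helper79_WRA Pool.Agent.PP Pool.Agent.PP.KF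
open Pool.Agent.PP.K9 Pool.Agent.PP.K9.H97 Pool.Agent.PP.H75 Pool.Agent.PP.T3 Pool.Agent.PP.T2
open Pool.Agent.PP.TB

section

variable {F G : Type} [Field F] [Group G] [Finite G] {K : Subgroup G}

/-- the centraliser of a subgroup of `K` in `K` -/
theorem cent_map (P : Subgroup K) (t : K) :
    t ∈ Subgroup.centralizer (P : Set K) ↔
      (t : G) ∈ Subgroup.centralizer ((P.map K.subtype : Subgroup G) : Set G) := by
  rw [Subgroup.mem_centralizer_iff, Subgroup.mem_centralizer_iff]
  constructor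
  · rintro h _ ⟨p, hp, rfl⟩
    exact congrArg Subtype.val (h p hp)
  · intro h p hp
    exact Subtype.ext (h (p : G) ⟨p, hp, rfl⟩)

theorem cent_map_eq (P : Subgroup K) :
    Subgroup.centralizer (P : Set K) =
      (Subgroup.centralizer ((P.map K.subtype : Subgroup G) : Set G)).subgroupOf K := by
  ext t
  exact cent_map P t

/-- restriction of a block of `C ≤ K` to `K` -/
theorem bx_res {C : Subgroup G} (hCK : C ≤ K) {b : G → F} (hb : Bx C b) :
    Bx (C.subgroupOf K) (fun t : K => b t) :=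
  ⟨fun x hx => hb.supp x hx, H20.IsBlk_equiv (Subgroup.subgroupOfEquivOfLe hCK) hb.blk⟩

theorem bx_ext {C : Subgroup G} (hCK : C ≤ K) {b' : K → F} (hb : Bx (C.subgroupOf K) b') :
    Bx C (H75.ext0 K b') := by
  have hs : ∀ x, x ∉ C → H75.ext0 K b' x = 0 := by
    intro x hx
    by_cases hxK : x ∈ K
    · have := ext0_apply K b' ⟨x, hxK⟩
      rw [this]
      exact hb.supp _ hx
    · exact ext0_supp K b' x hxK
  refine ⟨hs, ?_⟩
  have h1 := H20.IsBlk_equiv (Subgroup.subgroupOfEquivOfLe hCK).symm hb.blk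
  have h2 : (fun t : C => H75.ext0 K b' t) =
      fun t : C => b' (((Subgroup.subgroupOfEquivOfLe hCK).symm t : C.subgroupOf K) : K) := by
    funext t
    exact ext0_apply K b' ⟨(t : G), hCK t.2⟩
  rw [h2]
  exact h1

/-- conjugation and extension by zero -/
theorem cj_ext0 (k : K) (a : K → F) : cj (k : G) (H75.ext0 K a) = H75.ext0 K (cj k a) := by
  funext x
  by_cases hx : x ∈ K
  · have h1 : (k : G)⁻¹ * x * k = ((k⁻¹ * ⟨x, hx⟩ * k : K) : G) := rfl
    change H75.ext0 K a ((k : G)⁻¹ * x * k) = H75.ext0 K (cj k a) ((⟨x, hx⟩ : K) : G)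
    rw [h1, ext0_apply, ext0_apply]
    rfl
  · rw [ext0_supp K _ x hx]
    apply ext0_supp
    intro h
    apply hx
    have h2 := K.mul_mem (K.mul_mem k.2 h) (K.inv_mem k.2)
    have e : (k : G) * ((k : G)⁻¹ * x * k) * (k : G)⁻¹ = x := by group
    rwa [e] at h2

/-- the Brauer map and extension by zero -/
theorem br_ext0 (P : Subgroup K) (a : K → F) :
    br (P.map K.subtype) (H75.ext0 K a) = H75.ext0 K (br P a) := by
  funext x
  by_cases hx : x ∈ K
  · change br (P.map K.subtype) (H75.ext0 K a) ((⟨x, hx⟩ : K) : G) =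
      H75.ext0 K (br P a) ((⟨x, hx⟩ : K) : G)
    rw [ext0_apply]
    unfold br
    by_cases ht : (⟨x, hx⟩ : K) ∈ Subgroup.centralizer (P : Set K)
    · rw [if_pos ht, if_pos ((cent_map P _).1 ht), ext0_apply]
    · rw [if_neg ht, if_neg (fun h => ht ((cent_map P _).2 h))]
  · rw [ext0_supp K _ x hx]
    unfold br
    rw [ext0_supp K a x hx, ite_self]

end

theorem ptr : PtrStmt := by
  intro ℓ F _ G _ _ K Q hQK hCK b hb
  have hs : ∀ x, x ∉ K → b x = 0 := fun x hx => hb.blk.supp x (fun h => hx (hCK h))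
  have hcs : Subgroup.centralizer ((Q.subgroupOf K : Subgroup K) : Set K) =
      (Subgroup.centralizer (Q : Set G)).subgroupOf K := by
    rw [cent_map_eq, Subgroup.subgroupOf_map_subtype, inf_eq_left.2 hQK]
  refine ⟨⟨hb.pg.comap_subtype, ?_⟩, ?_⟩
  · rw [hcs]
    exact bx_res hCK hb.blk
  · intro P' c' hle
    induction hle with
    | refl =>
      rw [Subgroup.subgroupOf_map_subtype, inf_eq_left.2 hQK, ext0_res K hs]
      exact ⟨hb, Le.refl⟩
    | step R a P c h hR hP hn ih =>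
      obtain ⟨ih1, ih2⟩ := ih
      have hQP : Q.subgroupOf K ≤ P := h.sub.trans hn.le
      have hQP' : Q ≤ P.map K.subtype := by
        intro q hq
        exact ⟨⟨q, hQK hq⟩, hQP hq, rfl⟩
      have hCP : Subgroup.centralizer ((P.map K.subtype : Subgroup G) : Set G) ≤ K :=
        (Subgroup.centralizer_le hQP').trans hCK
      have h1 : Pq ℓ (P.map K.subtype) (H75.ext0 K c) := by
        refine ⟨hP.pg.map K.subtype, bx_ext hCP ?_⟩
        rw [← cent_map_eq]
        exact hP.blk
      have h2 : Nl (R.map K.subtype) (H75.ext0 K a) (P.map K.subtype) (H75.ext0 K c) := by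
        refine ⟨Subgroup.map_mono hn.le, ?_, ?_, ?_⟩
        · rintro _ ⟨p, hp, rfl⟩
          have hp' := hn.nor hp
          rw [Subgroup.mem_normalizer_iff] at hp' ⊢
          intro x
          constructor
          · rintro ⟨r, hr, rfl⟩
            exact ⟨p * r * p⁻¹, (hp' r).1 hr, rfl⟩
          · rintro ⟨r, hr, hrx⟩
            refine ⟨p⁻¹ * r * p, ?_, ?_⟩
            · have h3 := (hp' (p⁻¹ * r * p)).2
              apply h3
              have e : p * (p⁻¹ * r * p) * p⁻¹ = r := by group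
              rw [e]
              exact hr
            · have h4 : (r : G) = (p : G) * x * (p : G)⁻¹ := hrx
              change ((p⁻¹ * r * p : K) : G) = x
              push_cast
              rw [h4]
              group
        · rintro _ ⟨p, hp, rfl⟩
          change cj (p : G) (H75.ext0 K a) = H75.ext0 K a
          rw [cj_ext0, hn.inv p hp]
        · rw [br_ext0, ← ext0_mulF, hn.und]
      exact ⟨h1, Le.step _ _ _ _ ih2 ih1 h1 h2⟩

end Pool.Agent.PP.TP.H19
end
end -- Pool.Agent.Helper19_ATP.PTR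

section -- Pool.Agent.Helper27_ATP.PCJ

/-!
# Squad ATP, row PCJ: conjugation of pairs
-/

open scoped BigOperators

noncomputable section

namespace Pool.Agent.PP.TP.H27

open Pool.Agent.Helper51_AWC Pool.Agent.Helper79_WRA Pool.Agent.PP Pool.Agent.PP.KF
open Pool.Agent.PP.K9 Pool.Agent.PP.K9.H97 Pool.Agent.PP.H75 Pool.Agent.PP.T3 Pool.Agent.PP.T2
open Pool.Agent.PP.TB

attribute [local instance] Ideal.Quotient.field

/-- the stabiliser of a function -/
def stb {G F : Type} [Group G] (b : G → F) : Subgroup G where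
  carrier := {n | ∀ t, b (n * t * n⁻¹) = b t}
  mul_mem' := by
    intro x y hx hy t
    have e : x * y * t * (x * y)⁻¹ = x * (y * t * y⁻¹) * x⁻¹ := by group
    rw [e, hx, hy]
  one_mem' := by
    intro t
    simp
  inv_mem' := by
    intro x hx t
    have h := hx (x⁻¹ * t * x⁻¹⁻¹)
    have e : x * (x⁻¹ * t * x⁻¹⁻¹) * x⁻¹ = t := by group
    rw [e] at h
    exact h.symm

/-- PCJ -/
theorem pcj : PcjStmt := by
  intro ℓ F _ G _ _ g
  have hpq : ∀ (Q : Subgroup G) (b : G → F), Pq ℓ Q b → Pq ℓ (conjS g Q) (cj g b) := by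
    intro Q b h
    refine ⟨?_, ?_⟩
    · exact h.pg.map _
    · exact T3.H62.bx_cj (fun x => T3.H62.mem_cent_conjS x) h.blk
  have hnl : ∀ (Q P : Subgroup G) (b c : G → F), Nl Q b P c →
      Nl (conjS g Q) (cj g b) (conjS g P) (cj g c) := by
    intro Q P b c h
    refine ⟨?_, ?_, ?_, ?_⟩
    · exact Subgroup.map_mono h.le
    · intro x hx
      rw [Subgroup.mem_normalizer_iff]
      intro y
      rw [T3.H62.mem_conjS, T3.H62.mem_conjS]
      have h1 := Subgroup.mem_normalizer_iff.1 (h.nor (T3.H62.mem_conjS.1 hx)) (g⁻¹ * y * g)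
      have e : g⁻¹ * x * g * (g⁻¹ * y * g) * (g⁻¹ * x * g)⁻¹ = g⁻¹ * (x * y * x⁻¹) * g := by group
      rw [e] at h1
      exact h1
    · intro x hx
      have h1 := (cj_eq_iff _ _).1 (h.inv _ (T3.H62.mem_conjS.1 hx))
      rw [cj_eq_iff]
      intro t
      change b (g⁻¹ * (x * t * x⁻¹) * g) = b (g⁻¹ * t * g)
      rw [← h1 (g⁻¹ * t * g)]
      congr 1
      group
    · rw [T2.H65.cj_br, ← cj_mulF, h.und]
  refine ⟨hpq, hnl, ?_, ?_⟩
  · intro Q P b c h
    induction h with
    | refl => exact Le.refl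
    | step R a P c _ hR hP hn ih => exact Le.step _ _ _ _ ih (hpq _ _ hR) (hpq _ _ hP) (hnl _ _ _ _ hn)
  · intro Q b h hg
    rw [cj_eq_iff]
    have h1 : Q ⊔ Subgroup.centralizer (Q : Set G) ≤ stb b := by
      refine sup_le ?_ ?_
      · intro q hq t
        by_cases ht : t ∈ Subgroup.centralizer (Q : Set G)
        · congr 1
          have h2 := Subgroup.mem_centralizer_iff.1 ht q hq
          rw [h2, mul_inv_cancel_right]
        · rw [h.blk.supp t ht, h.blk.supp]
          intro h2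
          apply ht
          have h3 := Subgroup.mem_centralizer_iff.1 h2 q hq
          have h4 : t = q⁻¹ * (q * t * q⁻¹) * q := by group
          have h5 : q * t * q⁻¹ = t := by
            have h6 : q⁻¹ * (q * (q * t * q⁻¹)) * q = q⁻¹ * (q * t * q⁻¹ * q) * q := by rw [h3]
            have e1 : q⁻¹ * (q * (q * t * q⁻¹)) * q = q * t := by group
            have e2 : q⁻¹ * (q * t * q⁻¹ * q) * q = t * q := by group
            rw [e1, e2] at h6
            rw [h6, mul_inv_cancel_right]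
          rw [← h5]
          exact h2
      · intro x hx
        exact (cj_eq_iff _ _).1 (h.blk.ix.inv hx)
    exact h1 hg

end Pool.Agent.PP.TP.H27
end
end -- Pool.Agent.Helper27_ATP.PCJ

section -- Pool.Agent.Helper32_ATP.PEX

/-!
# Squad ATP, row PEX: existence of the pair below
-/

set_option autoImplicit false

noncomputable section

namespace Pool.Agent.PP.TP.H32

open Pool.Agent.Helper51_AWC Pool.Agent.Helper79_WRA Pool.Agent.PP Pool.Agent.PP.KF
open Pool.Agent.PP.K9 Pool.Agent.PP.K9.H97 Pool.Agent.PP.H75 Pool.Agent.PP.T3 Pool.Agent.PP.T2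
open Pool.Agent.PP.TB

/-- PEX -/
theorem pex (np1 : Np1Stmt) (pcj : PcjStmt) : PexStmt := by
  intro ℓ F _ hF G _ _ P c hP
  have : Fact ℓ.Prime := ⟨hF.prime⟩
  intro Q
  induction Q using WellFoundedGT.induction with
  | ind Q ih =>
    intro hQP
    have hQg : IsPGroup ℓ Q := hP.pg.to_le hQP
    rcases eq_or_lt_of_le hQP with rfl | hlt
    · refine ⟨c, hP, Le.refl, fun hn => ⟨le_rfl, hn, ?_, ?_⟩⟩
      · intro x hx
        exact (pcj ℓ F G x).2.2.2 Q c hP (Subgroup.mem_sup_left hx)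
      · have h2 : br Q c = c := by
          funext t
          by_cases ht : t ∈ Subgroup.centralizer (Q : Set G)
          · exact br_in c ht
          · rw [br_out c ht, hP.blk.supp t ht]
        rw [h2]
        exact hP.blk.ix.mul
    · by_cases hn : P ≤ Subgroup.normalizer (Q : Set G)
      · obtain ⟨b, hb, hbn, _⟩ := np1 ℓ F hF G Q P hP.pg hQP hn c hP.blk
        have hbP : Pq ℓ Q b := ⟨hQg, hb⟩
        exact ⟨b, hbP, Le.one hbP hP hbn, fun _ => hbn⟩
      · obtain ⟨x, hxP, hxQ, hxN⟩ := H94.grow hP.pg hlt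
        have hRP : P ⊓ Subgroup.normalizer (Q : Set G) ≤ P := inf_le_left
        have hRN : P ⊓ Subgroup.normalizer (Q : Set G) ≤ Subgroup.normalizer (Q : Set G) :=
          inf_le_right
        have hQR : Q ≤ P ⊓ Subgroup.normalizer (Q : Set G) :=
          le_inf hQP Subgroup.le_normalizer
        have hQRlt : Q < P ⊓ Subgroup.normalizer (Q : Set G) := by
          refine lt_of_le_of_ne hQR ?_
          intro h
          exact hxQ (by
            rw [h]
            exact ⟨hxP, hxN⟩)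
        obtain ⟨a, haP, hale, _⟩ := ih (P ⊓ Subgroup.normalizer (Q : Set G)) hQRlt hRP
        obtain ⟨b, hb, hbn, _⟩ := np1 ℓ F hF G Q (P ⊓ Subgroup.normalizer (Q : Set G)) haP.pg
          hQR hRN a haP.blk
        have hbP : Pq ℓ Q b := ⟨hQg, hb⟩
        exact ⟨b, hbP, Le.trans (Le.one hbP haP hbn) hale, fun h => absurd h hn⟩

end Pool.Agent.PP.TP.H32
end
end -- Pool.Agent.Helper32_ATP.PEX

section -- Pool.Agent.Helper43_ATP.FNP

/-!
# Squad ATP, row FNP: the final theorem, given the bound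
-/

open scoped BigOperators

noncomputable section

namespace Pool.Agent.PP.TP.H43

open Pool.Agent.Helper51_AWC Pool.Agent.Helper79_WRA Pool.Agent.PP Pool.Agent.PP.KF
open Pool.Agent.PP.K9 Pool.Agent.PP.K9.H97 Pool.Agent.PP.H75 Pool.Agent.PP.T3 Pool.Agent.PP.T2
open Pool.Agent.PP.TB

attribute [local instance] Ideal.Quotient.field

theorem uw_map {A B : Type} [Group A] [Group B] (p : A →* B) (n : ℕ) (Z : Subgroup A) :
    Uw n (Z.map p) = (Uw n Z).map p := by
  unfold Uw
  rw [MonoidHom.map_closure]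
  congr 1
  ext y
  constructor
  · rintro ⟨_, ⟨x, hx, rfl⟩, rfl⟩
    exact ⟨x ^ n, ⟨x, hx, rfl⟩, map_pow p x n⟩
  · rintro ⟨_, ⟨x, hx, rfl⟩, rfl⟩
    exact ⟨p x, ⟨x, hx, rfl⟩, (map_pow p x n).symm⟩

theorem card_map_ker {A B : Type} [Group A] [Group B] [Finite A] (p : A →* B) {S : Subgroup A}
    (h : p.ker ≤ S) : Nat.card (S.map p) * Nat.card p.ker = Nat.card S := by
  have h1 : (p.subgroupMap S).ker = p.ker.subgroupOf S := by
    ext x
    rw [MonoidHom.mem_ker, Subgroup.mem_subgroupOf, MonoidHom.mem_ker]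
    constructor
    · intro h2
      exact congrArg Subtype.val h2
    · intro h2
      exact Subtype.ext h2
  have h2 := Subgroup.card_eq_card_quotient_mul_card_subgroup (p.subgroupMap S).ker
  rw [h2]
  have h3 : Nat.card (S ⧸ (p.subgroupMap S).ker) = Nat.card (S.map p) :=
    Nat.card_congr
      (QuotientGroup.quotientKerEquivOfSurjective _ (p.subgroupMap_surjective S)).toEquiv
  have h4 : Nat.card (p.subgroupMap S).ker = Nat.card p.ker := by
    rw [h1]
    exact Nat.card_congr (Subgroup.subgroupOfEquivOfLe h).toEquiv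
  rw [h3, h4]

/-- FNP -/
theorem fnp (hTPA : TpaStmt) (hDZ5 : T5.Dz5Stmt) : FnpStmt := by
  classical
  intro ℓ hfact M _ hM r p₀ c a hBd hca hpa G _ _ hc χ hχ D hD Z hZ hOZ hZc hZr hZp hz
  have hℓ : ℓ.Prime := hfact.out
  have hF : GoodF ℓ (FF M) := H50.fld ℓ hℓ M hM
  have hn : (opCore ℓ G).Normal := H75.opCore_normal (A := G) ℓ
  obtain ⟨e, he, h1, h2⟩ := H50.bid ℓ hℓ M hM G χ hχ
  let p : G →* G ⧸ opCore ℓ G := QuotientGroup.mk' (opCore ℓ G)
  have hker : p.ker = opCore ℓ G := QuotientGroup.ker_mk' _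
  have hsurj : Function.Surjective p := QuotientGroup.mk'_surjective (opCore ℓ G)
  have hkp : IsPGroup ℓ p.ker := by
    rw [hker]
    exact H75.opCore_isPGroup hℓ
  have hkc : p.ker ≤ Subgroup.center G := by
    rw [hker]
    exact hc
  obtain ⟨hblk, hOD, hcm, hTp⟩ := hDZ5 ℓ M hM G hc χ hχ D hD e he h1
    (G ⧸ opCore ℓ G) p hsurj hker
  have heq := H75.altSum_central H20.nls H20.brm H63.smt H94.nch
    (H50.dic H20.ibn H20.nls H20.brm) hℓ M hM hF hsurj hker hkp hkc χ hχ e he h1 h2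
  have hmem : ∀ x : G, p x = 1 ↔ x ∈ opCore ℓ G := by
    intro x
    rw [← MonoidHom.mem_ker]
    exact iff_of_eq (congrArg (fun S : Subgroup G => x ∈ S) hker)
  have hcomm : ∀ x y : G, x * y * x⁻¹ * y⁻¹ ∈ opCore ℓ G → p x * p y = p y * p x := by
    intro x y h
    have h3 := (hmem _).2 h
    rw [map_mul, map_mul, map_mul, map_inv, map_inv] at h3
    have h4 : p x * p y * (p x)⁻¹ = p y := mul_inv_eq_one.1 h3
    exact mul_inv_eq_iff_eq_mul.1 h4
  have hzc : ∀ x ∈ D, (∀ d ∈ D, x * d * x⁻¹ * d⁻¹ ∈ opCore ℓ G) → p x ∈ Zc (D.map p) := by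
    intro x hx h
    refine Subgroup.mem_inf.2 ⟨Subgroup.mem_map_of_mem p hx, ?_⟩
    refine Subgroup.mem_centralizer_iff.2 ?_
    rintro _ ⟨d, hd, rfl⟩
    exact (hcomm x d (h d hd)).symm
  have hO0 : 0 < Nat.card p.ker := Nat.card_pos
  have hkZ : p.ker ≤ Z := hker.le.trans hOZ
  have hkD : p.ker ≤ D := hkZ.trans hZ
  have hkU : p.ker ≤ Uw ℓ Z ⊔ opCore ℓ G := hker.le.trans le_sup_right
  have hUmap : Uw ℓ (Z.map p) = (Uw ℓ Z ⊔ opCore ℓ G).map p := by
    rw [uw_map, Subgroup.map_sup]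
    refine (sup_eq_left.2 ?_).symm
    rintro _ ⟨x, hx, rfl⟩
    rw [(hmem x).2 hx]
    exact one_mem _
  have hCl : Cl ℓ r p₀ (D.map p) := by
    refine ⟨Z.map p, ?_, ?_, ?_⟩
    · rintro _ ⟨x, hx, rfl⟩
      exact hzc x (hZ hx) (hZc x hx)
    · refine Nat.le_of_mul_le_mul_right ?_ hO0
      rw [mul_assoc, card_map_ker p hkD, card_map_ker p hkZ]
      exact hZp
    · refine Nat.le_of_mul_le_mul_right ?_ hO0
      rw [mul_assoc, hUmap, card_map_ker p hkU, card_map_ker p hkZ]
      exact hZr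
  obtain ⟨z, hzD, hzc', hzo⟩ := hz
  have hord : orderOf (p z) = ℓ ^ a := by
    apply Nat.dvd_antisymm
    · rw [orderOf_dvd_iff_pow_eq_one, ← map_pow, hmem, hzo]
    · rw [← hzo, ← hmem, map_pow]
      exact pow_orderOf_eq_one _
  have h0 : YY ℓ (⊤ : Subgroup (G ⧸ opCore ℓ G)) (push p e) = 0 :=
    hTPA ℓ M hM r p₀ c a hBd hca hpa (G ⧸ opCore ℓ G) (push p e) (D.map p) hblk hTp hCl
      ⟨p z, hzc z hzD hzc', hord⟩
  rw [h0, mul_zero] at heq
  rcases mul_eq_zero.1 heq with h | h
  · exact absurd h (by exact_mod_cast (Nat.card_pos (α := G)).ne')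
  · exact h

end Pool.Agent.PP.TP.H43
end
end -- Pool.Agent.Helper43_ATP.FNP

section -- Pool.Agent.Helper49_ATP.PXB

/-!
# Squad ATP, rows PXB and PIN
-/

open scoped BigOperators

noncomputable section

namespace Pool.Agent.PP.TP.H49

open Pool.Agent.Helper51_AWC Pool.Agent.Helper79_WRA Pool.Agent.PP Pool.Agent.PP.KF
open Pool.Agent.PP.K9 Pool.Agent.PP.K9.H97 Pool.Agent.PP.H75 Pool.Agent.PP.T3 Pool.Agent.PP.T2
open Pool.Agent.PP.TB Pool.Agent.PP.TP

attribute [local instance] Ideal.Quotient.field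

variable {G : Type} [Group G] [Finite G] {F : Type} [Field F] {ℓ : ℕ}

theorem cent_anti {Q R : Subgroup G} (h : Q ≤ R) :
    Subgroup.centralizer (R : Set G) ≤ Subgroup.centralizer (Q : Set G) :=
  Subgroup.centralizer_le (by exact_mod_cast h)

theorem ix_ap {K : Subgroup G} {E : G → F} (hE : Ix K E) {n : G} (hn : n ∈ K) (t : G) :
    E (n * t * n⁻¹) = E t := (cj_eq_iff _ _).1 (hE.inv hn) t

theorem br_mem {P : Subgroup G} {a : G → F} {t : G}
    (h : t ∈ Subgroup.centralizer (P : Set G)) : br P a t = a t := by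
  classical
  unfold br
  rw [if_pos h]

theorem br_nmem {P : Subgroup G} {a : G → F} {t : G}
    (h : t ∉ Subgroup.centralizer (P : Set G)) : br P a t = 0 := by
  classical
  unfold br
  rw [if_neg h]

theorem br_br' {Q P : Subgroup G} (h : Q ≤ P) (a : G → F) : br P (br Q a) = br P a := by
  funext t
  by_cases ht : t ∈ Subgroup.centralizer (P : Set G)
  · rw [br_mem ht, br_mem ht, br_mem (cent_anti h ht)]
  · rw [br_nmem ht, br_nmem ht]

theorem ix_br (hF : GoodF ℓ F) {K R : Subgroup G} {E : G → F} (hE : Ix K E) (hR : IsPGroup ℓ R)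
    (hRK : R ≤ K) (hCK : Subgroup.centralizer (R : Set G) ≤ K) :
    Ix (Subgroup.centralizer (R : Set G)) (br R E) := by
  have hs : ∀ x, x ∉ Subgroup.centralizer (R : Set G) → br R E x = 0 := fun x hx => br_nmem hx
  have hi : H66.Inv R E := fun p hp t => ix_ap hE (hRK hp) t
  refine ⟨hs, ?_, ?_⟩
  · intro x y
    change br R E ((y : G) * x * (y : G)⁻¹) = br R E x
    rw [br_mem x.2, br_mem (mul_mem (mul_mem y.2 x.2) (inv_mem y.2))]
    exact ix_ap hE (hCK y.2) x
  · rw [← mulF_res _ _ hs, ← H66.br_mulF hF hR hi hi, hE.mul]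

/-- centralisers of a subgroup are permuted by the normaliser -/
theorem cent_conj {R : Subgroup G} {x t : G} (hx : x ∈ Subgroup.normalizer (R : Set G)) :
    x * t * x⁻¹ ∈ Subgroup.centralizer (R : Set G) ↔ t ∈ Subgroup.centralizer (R : Set G) := by
  have key : ∀ {x t : G}, x ∈ Subgroup.normalizer (R : Set G) →
      t ∈ Subgroup.centralizer (R : Set G) → x * t * x⁻¹ ∈ Subgroup.centralizer (R : Set G) := by
    intro x t hx ht
    rw [Subgroup.mem_centralizer_iff] at ht ⊢
    intro h hh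
    have h1 : x⁻¹ * h * x ∈ (R : Set G) := by
      have := (Subgroup.mem_normalizer_iff.1 hx (x⁻¹ * h * x)).2
      apply this
      have e : x * (x⁻¹ * h * x) * x⁻¹ = h := by group
      rw [e]
      exact hh
    have h2 := ht _ h1
    calc h * (x * t * x⁻¹) = x * ((x⁻¹ * h * x) * t) * x⁻¹ := by group
      _ = x * (t * (x⁻¹ * h * x)) * x⁻¹ := by rw [h2]
      _ = x * t * x⁻¹ * h := by group
  constructor
  · intro h
    have := key (inv_mem hx) h
    have e : x⁻¹ * (x * t * x⁻¹) * x⁻¹⁻¹ = t := by group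
    rwa [e] at this
  · exact key hx

theorem inv_br {K P R : Subgroup G} {E : G → F} (hE : Ix K E) (hPK : P ≤ K)
    (hN : P ≤ Subgroup.normalizer (R : Set G)) : H66.Inv P (br R E) := by
  intro p hp t
  by_cases ht : t ∈ Subgroup.centralizer (R : Set G)
  · rw [br_mem ht, br_mem ((cent_conj (hN hp)).2 ht)]
    exact ix_ap hE (hPK hp) t
  · rw [br_nmem ht, br_nmem fun h => ht ((cent_conj (hN hp)).1 h)]

theorem pxb_step (hF : GoodF ℓ F) {K R P : Subgroup G} {E a c : G → F} (hE : Ix K E)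
    (hR : Pq ℓ R a) (hP : Pq ℓ P c) (hn : Nl R a P c) (hPK : P ≤ K)
    (hCK : Subgroup.centralizer (R : Set G) ≤ K) :
    mulF (br R E) a = a ↔ mulF (br P E) c = c := by
  have hIx := ix_br hF hE hR.pg (hn.le.trans hPK) hCK
  have h1 : mulF (br P (br R E)) (br P a) = br P (mulF (br R E) a) :=
    (H66.br_mulF hF hP.pg (inv_br hE hPK hn.nor)
      (fun p hp t => (cj_eq_iff _ _).1 (hn.inv p hp) t)).symm
  rw [br_br' hn.le] at h1
  constructor
  · intro h
    rw [h] at h1
    calc mulF (br P E) c = mulF (br P E) (mulF (br P a) c) := by rw [hn.und]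
      _ = mulF (mulF (br P E) (br P a)) c := (Pool.Agent.PP.mulF_assoc _ _ _).symm
      _ = mulF (br P a) c := by rw [h1]
      _ = c := hn.und
  · intro h
    rcases hR.blk.dich' hIx with h2 | h2
    · rw [hIx.comm hR.blk.ix, h2]
    · exfalso
      rw [hIx.comm hR.blk.ix, h2] at h1
      have h3 : br P (0 : G → F) = 0 := by
        funext t
        by_cases ht : t ∈ Subgroup.centralizer (P : Set G)
        · rw [br_mem ht]
        · rw [br_nmem ht]; rfl
      rw [h3] at h1
      apply hP.blk.ne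
      calc c = mulF (br P E) c := h.symm
        _ = mulF (br P E) (mulF (br P a) c) := by rw [hn.und]
        _ = mulF (mulF (br P E) (br P a)) c := (Pool.Agent.PP.mulF_assoc _ _ _).symm
        _ = 0 := by rw [h1, mulF_zero_left]

theorem pxb : PxbStmt := by
  intro ℓ F _ hF G _ _ K E hE P c hP hPK Q b hQ hCK hle
  induction hle with
  | refl => exact Iff.rfl
  | step R a P c hle hR hP' hn ih =>
    exact (ih hR (hn.le.trans hPK)).trans
      (pxb_step hF hE hR hP' hn hPK ((cent_anti hle.sub).trans hCK))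

theorem pin (hPex : PexStmt) (hPun : PunStmt) : PinStmt := by
  intro ℓ F _ hF G _ _ P c hP Q b hQ hle R hQR hRP
  obtain ⟨a, ha, hale, -⟩ := hPex ℓ F hF G P c hP R hRP
  obtain ⟨b', hb', hble, -⟩ := hPex ℓ F hF G R a ha Q hQR
  have h1 := (hPun ℓ F hF G P c hP Q b hQ hle).1 b' hb' (hble.trans hale)
  subst h1
  exact ⟨a, ha, hble, hale⟩

end Pool.Agent.PP.TP.H49
end
end -- Pool.Agent.Helper49_ATP.PXB

section -- Pool.Agent.Helper64_ATP.PUN

/-!
# Squad ATP, row PUN: uniqueness of the pair below, and the normal case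
-/

open scoped BigOperators

noncomputable section

namespace Pool.Agent.PP.TP.H64

open Pool.Agent.Helper51_AWC Pool.Agent.Helper79_WRA Pool.Agent.PP Pool.Agent.PP.KF
open Pool.Agent.PP.K9 Pool.Agent.PP.K9.H97 Pool.Agent.PP.H75 Pool.Agent.PP.T3 Pool.Agent.PP.T2
open Pool.Agent.PP.TB

attribute [local instance] Ideal.Quotient.field

variable {ℓ : ℕ} {G F : Type} [Group G] [Finite G] [Field F]

/-- a pair over the same subgroup -/
theorem le_self {P : Subgroup G} {a c : G → F} (ha : Pq ℓ P a) (h : Le ℓ P a P c) : a = c := by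
  rcases h.first ha with ⟨-, h1⟩ | ⟨R, a', hR, hn, hlt, hle⟩
  · exact h1
  · exact absurd hle.sub (not_le_of_gt hlt)

/-- normalisers grow -/
theorem grow_inf [Fact ℓ.Prime] {K P : Subgroup G} (hP : IsPGroup ℓ P) (h : K < P) :
    K < P ⊓ Subgroup.normalizer (K : Set G) := by
  obtain ⟨x, hxP, hxK, hxN⟩ := H94.grow hP h
  refine lt_of_le_of_ne (le_inf h.le Subgroup.le_normalizer) ?_
  intro heq
  apply hxK
  rw [heq]
  exact ⟨hxP, hxN⟩

/-- a maximal subgroup over a given one; it is normal -/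
theorem exists_max [Fact ℓ.Prime] {R P : Subgroup G} (hP : IsPGroup ℓ P) (h : R < P) :
    ∃ K : Subgroup G, R ≤ K ∧ K < P ∧ P ≤ Subgroup.normalizer (K : Set G) := by
  have hfin : (Set.univ : Set (Subgroup G)).Finite := Set.toFinite _
  have hs : {K : Subgroup G | R ≤ K ∧ K < P}.Finite := hfin.subset (Set.subset_univ _)
  obtain ⟨K, hK⟩ := hs.exists_maximal ⟨R, le_rfl, h⟩
  have hKmem : R ≤ K ∧ K < P := hK.prop
  refine ⟨K, hKmem.1, hKmem.2, ?_⟩
  have hg := grow_inf hP hKmem.2
  by_contra hcon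
  have hlt : P ⊓ Subgroup.normalizer (K : Set G) < P := by
    refine lt_of_le_of_ne inf_le_left ?_
    intro heq
    exact hcon (inf_eq_left.1 heq)
  have h1 : R ≤ P ⊓ Subgroup.normalizer (K : Set G) ∧ P ⊓ Subgroup.normalizer (K : Set G) < P :=
    ⟨hKmem.1.trans hg.le, hlt⟩
  exact absurd (hK.le_of_ge h1 hg.le) (not_le_of_gt hg)

theorem card_lt {H K : Subgroup G} (h : H < K) : Nat.card H < Nat.card K := by
  have h1 : Nat.card H ≤ Nat.card K := Subgroup.card_le_of_le h.le
  refine lt_of_le_of_ne h1 ?_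
  intro heq
  exact h.ne (Subgroup.eq_of_le_of_card_ge h.le heq.ge)

/-- PUN -/
theorem pun (np1 : Np1Stmt) (pcj : PcjStmt) (pex : PexStmt) : PunStmt := by
  intro ℓ F _ hF G _ _
  have hpr : Fact ℓ.Prime := ⟨hF.prime⟩
  have main : ∀ (n : ℕ) (P : Subgroup G) (c : G → F), Pq ℓ P c → ∀ (Q : Subgroup G) (b : G → F),
      Pq ℓ Q b → Le ℓ Q b P c → Nat.card P - Nat.card Q = n →
      (∀ b' : G → F, Pq ℓ Q b' → Le ℓ Q b' P c → b' = b) ∧
      (P ≤ Subgroup.normalizer (Q : Set G) → Nl Q b P c) := by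
    intro n
    induction n using Nat.strong_induction_on with
    | _ n ih =>
    intro P c hP Q b hQ hle hn
    have hQP : Q ≤ P := hle.sub
    -- the normal case, for all b
    have hN : ∀ b : G → F, Pq ℓ Q b → Le ℓ Q b P c →
        P ≤ Subgroup.normalizer (Q : Set G) → Nl Q b P c := by
      intro b hQ hle hnor
      rcases hle.first hQ with ⟨h1, h2⟩ | ⟨R, a, hR, hna, hlt, hRP⟩
      · subst h1
        obtain ⟨b1, hb1, hb1le, hb1n⟩ := pex ℓ F hF G Q c hP Q le_rfl
        have h3 : b1 = c := le_self hb1 hb1le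
        rw [h2, ← h3]
        have h4 := hb1n hnor
        rw [← h3] at h4
        exact h4
      · have hRle : R ≤ P := hRP.sub
        rcases eq_or_lt_of_le hRle with h1 | h1
        · subst h1
          have h2 : a = c := le_self hR hRP
          rw [← h2]
          exact hna
        · obtain ⟨K, hRK, hKP, hKn⟩ := exists_max hP.pg h1
          obtain ⟨m, hm, hmle, hmn⟩ := pex ℓ F hF G P c hP K hKP.le
          have hNm : Nl K m P c := hmn hKn
          obtain ⟨a', ha', ha'le, -⟩ := pex ℓ F hF G K m hm R hRK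
          have cQR : Nat.card Q < Nat.card R := card_lt hlt
          have cRP : Nat.card R < Nat.card P := card_lt h1
          have cKP : Nat.card K < Nat.card P := card_lt hKP
          have cRK : Nat.card R ≤ Nat.card K := Subgroup.card_le_of_le hRK
          have haa : a' = a :=
            (ih (Nat.card P - Nat.card R) (by omega) P c hP R a hR hRP rfl).1 a' ha'
              (ha'le.trans hmle)
          have hQK : Le ℓ Q b K m := by
            rw [haa] at ha'le
            exact (Le.one hQ hR hna).trans ha'le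
          obtain ⟨hU, hNK⟩ := ih (Nat.card K - Nat.card Q) (by omega) K m hm Q b hQ hQK rfl
          have hbm : Nl Q b K m := hNK (hKP.le.trans hnor)
          have hinv : ∀ x ∈ P, cj x b = b := by
            intro x hx
            have hxQ : conjS x Q = Q := mem_normalizer_iff_conjS.1 (hnor hx)
            have hxK : conjS x K = K := mem_normalizer_iff_conjS.1 (hKn hx)
            obtain ⟨p1, -, p3, -⟩ := pcj ℓ F G x
            have h3 := p3 Q K b m hQK
            have h4 := p1 Q b hQ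
            rw [hxQ, hxK, hNm.inv x hx] at h3
            rw [hxQ] at h4
            exact hU _ h4 h3
          refine ⟨hQP, hnor, hinv, ?_⟩
          have i1 : H66.Inv P (br K b) := by
            intro x hx
            have hxK : conjS x K = K := mem_normalizer_iff_conjS.1 (hKn hx)
            have h3 : cj x (br K b) = br K b := by
              rw [← T2.H65.cj_br, hxK, hinv x hx]
            exact (cj_eq_iff _ _).1 h3
          have i2 : H66.Inv P m := fun x hx => (cj_eq_iff _ _).1 (hNm.inv x hx)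
          have h5 := H66.br_mulF hF hP.pg i1 i2
          rw [hbm.und, C2.H3.br_br hKP.le] at h5
          calc mulF (br P b) c = mulF (br P b) (mulF (br P m) c) := by rw [hNm.und]
            _ = mulF (mulF (br P b) (br P m)) c := by rw [mulF_assoc]
            _ = mulF (br P m) c := by rw [← h5]
            _ = c := hNm.und
    refine ⟨?_, hN b hQ hle⟩
    intro b' hQ' hle'
    by_cases hnor : P ≤ Subgroup.normalizer (Q : Set G)
    · obtain ⟨b0, -, -, huni⟩ := np1 ℓ F hF G Q P hP.pg hQP hnor c hP.blk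
      rw [huni b hQ.blk (hN b hQ hle hnor), huni b' hQ'.blk (hN b' hQ' hle' hnor)]
    · have hlt : Q < P := by
        refine lt_of_le_of_ne hQP ?_
        intro heq
        apply hnor
        rw [← heq]
        exact Subgroup.le_normalizer
      have hQS : Q < P ⊓ Subgroup.normalizer (Q : Set G) := grow_inf hP.pg hlt
      have hSP : P ⊓ Subgroup.normalizer (Q : Set G) < P := by
        refine lt_of_le_of_ne inf_le_left ?_
        intro heq
        exact hnor (inf_eq_left.1 heq)
      obtain ⟨s, hs, hsle, -⟩ := pex ℓ F hF G P c hP _ hSP.le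
      have cSP : Nat.card (P ⊓ Subgroup.normalizer (Q : Set G) : Subgroup G) < Nat.card P :=
        card_lt hSP
      have cQS : Nat.card Q < Nat.card (P ⊓ Subgroup.normalizer (Q : Set G) : Subgroup G) :=
        card_lt hQS
      have hS : ∀ b : G → F, Pq ℓ Q b → Le ℓ Q b P c →
          Le ℓ Q b (P ⊓ Subgroup.normalizer (Q : Set G)) s := by
        intro b hQ hle
        rcases hle.first hQ with ⟨h1, -⟩ | ⟨R, a, hR, hna, hltR, hRP⟩
        · exact absurd h1 hlt.ne
        · have hRS : R ≤ P ⊓ Subgroup.normalizer (Q : Set G) := le_inf hRP.sub hna.nor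
          obtain ⟨a', ha', ha'le, -⟩ := pex ℓ F hF G _ s hs R hRS
          have cQR : Nat.card Q < Nat.card R := card_lt hltR
          have cRP : Nat.card R ≤ Nat.card P := Subgroup.card_le_of_le hRP.sub
          have haa : a' = a :=
            (ih (Nat.card P - Nat.card R) (by omega) P c hP R a hR hRP rfl).1 a' ha'
              (ha'le.trans hsle)
          rw [haa] at ha'le
          exact (Le.one hQ hR hna).trans ha'le
      exact (ih (Nat.card (P ⊓ Subgroup.normalizer (Q : Set G) : Subgroup G) - Nat.card Q)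
        (by omega) _ s hs Q b hQ (hS b hQ hle) rfl).1 b' hQ' (hS b' hQ' hle')
  intro P c hP Q b hQ hle
  exact main _ P c hP Q b hQ hle rfl

end Pool.Agent.PP.TP.H64
end
end -- Pool.Agent.Helper64_ATP.PUN

section -- Pool.Agent.Helper65_ATP.TYP

/-!
# Squad ATP, row TYP: the blocks of `N(Q)/Q` which are not over a conjugate of `(U, f)`
-/

open scoped BigOperators

noncomputable section

namespace Pool.Agent.PP.TP.H65

open Pool.Agent.Helper51_AWC Pool.Agent.Helper79_WRA Pool.Agent.PP Pool.Agent.PP.KF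
open Pool.Agent.PP.K9 Pool.Agent.PP.K9.H97 Pool.Agent.PP.H75 Pool.Agent.PP.T3 Pool.Agent.PP.T2
open Pool.Agent.PP.TB

attribute [local instance] Ideal.Quotient.field

set_option linter.unusedSectionVars false

section tools

variable {F G : Type} [Field F] [Group G] [Finite G] {ℓ : ℕ}

/-- the image of a central idempotent under the Brauer map -/
theorem brx (hF : GoodF ℓ F) {P : Subgroup G} (hP : IsPGroup ℓ P) {e : G → F} (he : IsIdem e) :
    Ix (Subgroup.centralizer (P : Set G)) (br P e) :=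
  ⟨fun _ hx => H66.br_of_not_mem hx,
    (H20.brm ℓ F hF G P (Subgroup.centralizer (P : Set G)) hP le_rfl
      (Subgroup.centralizer_le_normalizer _)).2.2 e he⟩

/-- a block of `C(V)` under `br_V(e)` -/
theorem gam_ex (hF : GoodF ℓ F) {e : G → F} {V : Subgroup G} (hblk : IsBlk e) (htp : Tp ℓ e V) :
    ∃ γ : G → F, Bx (Subgroup.centralizer (V : Set G)) γ ∧ mulF (br V e) γ = γ := by
  have hX := brx hF htp.pg hblk.1
  obtain ⟨g, hg, hg0⟩ := htp.gd
  obtain ⟨c, hc, hec, -⟩ := K9.H24.exists_blk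
    (fun a : Subgroup.centralizer (V : Set G) → F => a)
    rfl (fun _ _ => rfl) hX.idem (by
      intro h0
      have h1 := congrFun h0 ⟨g, hg⟩
      change br V e g = 0 at h1
      rw [H66.br_of_mem hg] at h1
      exact hg0 h1)
  have hrestr : (fun t : Subgroup.centralizer (V : Set G) =>
      PP.ext0 (Subgroup.centralizer (V : Set G)) c t) = c := H46.restr_ext0 _
  have hbx : Bx (Subgroup.centralizer (V : Set G))
      (PP.ext0 (Subgroup.centralizer (V : Set G)) c) := by
    refine ⟨fun x hx => H46.ext0_of_not_mem _ hx, ?_⟩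
    rw [hrestr]
    exact hc
  refine ⟨_, hbx, ?_⟩
  apply eq_of_res (mulF_supp _ hX.supp hbx.supp) hbx.supp
  rw [mulF_res _ _ hX.supp, hrestr]
  exact hec

/-- the normaliser of a conjugate -/
theorem mem_nor_conjS (g : G) (U : Subgroup G) (x : G) :
    x ∈ Subgroup.normalizer ((conjS g U : Subgroup G) : Set G) ↔
      g⁻¹ * x * g ∈ Subgroup.normalizer (U : Set G) := by
  constructor
  · intro h
    rw [Subgroup.mem_normalizer_iff] at h ⊢
    intro n
    have h1 := h (g * n * g⁻¹)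
    rw [mem_conjS, mem_conjS] at h1
    have e1 : g⁻¹ * (g * n * g⁻¹) * g = n := by group
    have e2 : g⁻¹ * (x * (g * n * g⁻¹) * x⁻¹) * g = g⁻¹ * x * g * n * (g⁻¹ * x * g)⁻¹ := by group
    rw [e1, e2] at h1
    exact h1
  · intro h
    rw [Subgroup.mem_normalizer_iff] at h ⊢
    intro n
    have h1 := h (g⁻¹ * n * g)
    have e2 : g⁻¹ * x * g * (g⁻¹ * n * g) * (g⁻¹ * x * g)⁻¹ = g⁻¹ * (x * n * x⁻¹) * g := by group
    rw [e2] at h1
    rw [mem_conjS, mem_conjS]
    exact h1

/-- the normaliser of `Q` normalises the centraliser of `Q` -/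
theorem nor_cent {Q : Subgroup G} {w : G} (hw : w ∈ Subgroup.normalizer (Q : Set G)) (y : G) :
    w * y * w⁻¹ ∈ Subgroup.centralizer (Q : Set G) ↔ y ∈ Subgroup.centralizer (Q : Set G) := by
  have key : ∀ v : G, v ∈ Subgroup.normalizer (Q : Set G) → ∀ z : G,
      z ∈ Subgroup.centralizer (Q : Set G) → v * z * v⁻¹ ∈ Subgroup.centralizer (Q : Set G) := by
    intro v hv z hz
    rw [Subgroup.mem_centralizer_iff] at hz ⊢
    intro q hq
    have h1 : v⁻¹ * q * v ∈ Q := by
      have h2 := (Subgroup.mem_normalizer_iff.1 hv (v⁻¹ * q * v)).2 (by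
        have e : v * (v⁻¹ * q * v) * v⁻¹ = q := by group
        rw [e]
        exact hq)
      exact h2
    have h3 := hz _ h1
    calc q * (v * z * v⁻¹) = v * ((v⁻¹ * q * v) * z) * v⁻¹ := by group
      _ = v * (z * (v⁻¹ * q * v)) * v⁻¹ := by rw [h3]
      _ = v * z * v⁻¹ * q := by group
  refine ⟨fun h => ?_, key w hw y⟩
  have h1 := key w⁻¹ (inv_mem hw) _ h
  have e : w⁻¹ * (w * y * w⁻¹) * w⁻¹⁻¹ = y := by group
  rwa [e] at h1

end tools

/-- row TYP -/
theorem typ (zcf : ZcfStmt) (ctq : CtqStmt) (pqz : PqzStmt) (pmg : PmgStmt) (pxb : PxbStmt) :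
    TypStmt := by
  intro ℓ _ M _ hM G _ _ a p r e V hH hCl f hFz Q hQp A _ _ π hπ hker f₁ hf₁ hff hno
  classical
  have hℓ : ℓ.Prime := Fact.out
  have hF : GoodF ℓ (FF M) := H50.fld ℓ Fact.out M hM
  obtain ⟨V', hV'⟩ := K9.H57.exists_tp (ℓ := ℓ) (f := f₁) hf₁.2.1
  obtain ⟨R, b, b₃, hQR, hRN, hRV', -, hR, -, -, hRe, hne, hin⟩ :=
    pqz ℓ M hM G e hH.blk.1 Q hQp A π hπ hker f₁ hf₁ hff V' hV'
  obtain ⟨γ, hγ, hγe⟩ := gam_ex hF hH.blk hH.tp
  obtain ⟨g, hD, hle⟩ := pmg ℓ M hM G e V hH.blk hH.tp γ hγ hγe R b₃ hR hRe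
  obtain ⟨D, hDg⟩ : ∃ D : Subgroup G, D = conjS g V := ⟨_, rfl⟩
  obtain ⟨γ₁, hγ₁⟩ : ∃ γ₁ : G → FF M, γ₁ = cj g γ := ⟨_, rfl⟩
  rw [← hDg, ← hγ₁] at hD hle
  have hRD : R ≤ D := hle.sub
  have hQD : Q ≤ D := hQR.trans hRD
  have hZR : Zc D ≤ R := by
    refine le_trans ?_ (hin D γ₁ hD hle)
    exact le_inf inf_le_left (inf_le_right.trans (Subgroup.centralizer_le hQD))
  obtain ⟨-, z2, z3, -⟩ := zcf G V
  obtain ⟨⟨-, -, -, -, -, -⟩, z2D, -, -⟩ := zcf G D
  obtain ⟨z1V, -⟩ := zcf G V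
  obtain ⟨-, -, -, -, z15, -⟩ := z1V
  obtain ⟨-, -, -, z24, -, -⟩ := z2 ℓ a
  obtain ⟨-, zD2, -⟩ := z2D ℓ a
  obtain ⟨-, z3b, -⟩ := z3 ℓ r p hCl
  have hClD : Cl ℓ r p D := by
    rw [hDg]
    exact z3b g
  have hUD : Uz ℓ a D = conjS g (Uz ℓ a V) := by
    rw [hDg]
    exact z24 g
  have hexpD : Monoid.exponent (Zc D) = ℓ ^ a := by
    rw [← hH.exp, hDg, z15 g]
    exact (Monoid.exponent_eq_of_mulEquiv (conjSEquiv g (Zc V))).symm
  have ha : 0 < a := lt_of_le_of_lt (Nat.zero_le p) hH.lt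
  obtain ⟨c1, c2⟩ := ctq ℓ G A r p D R (Subgroup.normalizer (Q : Set G)) π V' hD.pg hRD hRN hZR
    hRV'.symm
  refine ⟨V', hV', c1 hClD, ?_⟩
  rcases c2 a ha hexpD with h | h
  · exact h
  exfalso
  have hUQ : conjS g (Uz ℓ a V) ≤ Q := by
    rw [← hUD]
    refine h.trans ?_
    rw [hker, Subgroup.map_subgroupOf_eq_of_le Subgroup.le_normalizer]
  have hDU : D ≤ Subgroup.centralizer ((conjS g (Uz ℓ a V) : Subgroup G) : Set G) := by
    rw [← hUD]
    exact zD2
  have h13 := hno g ⟨hUQ, hQD.trans hDU⟩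
  obtain ⟨K, hK⟩ : ∃ K : Subgroup G,
    K = Subgroup.normalizer ((conjS g (Uz ℓ a V) : Subgroup G) : Set G) := ⟨_, rfl⟩
  have hDK : D ≤ K := by
    rw [hK]
    exact hDU.trans (Subgroup.centralizer_le_normalizer _)
  have hRQ : Subgroup.centralizer (R : Set G) ≤ Subgroup.centralizer (Q : Set G) :=
    Subgroup.centralizer_le hQR
  have hCRK : Subgroup.centralizer (R : Set G) ≤ K := by
    rw [hK]
    exact hRQ.trans ((Subgroup.centralizer_le hUQ).trans (Subgroup.centralizer_le_normalizer _))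
  have hEK : Bx K (cj g f) := by
    refine T3.H62.bx_cj (X := Subgroup.normalizer (Uz ℓ a V : Set G)) ?_ hFz.blk
    intro x
    rw [hK]
    exact mem_nor_conjS g _ x
  have hbD : mulF (br D (cj g f)) γ₁ = γ₁ := by
    rw [hDg, hγ₁, T2.H65.cj_br, ← cj_mulF, hFz.brV, hγe]
  have hbR : mulF (br R (cj g f)) b₃ = b₃ :=
    (pxb ℓ (FF M) hF G K (cj g f) hEK.ix D γ₁ hD hDK R b₃ hR hCRK hle).2 hbD
  obtain ⟨E, hE⟩ : ∃ E : G → FF M, E = cj g f := ⟨_, rfl⟩
  rw [← hE] at h13 hEK hbD hbR
  -- restriction to `N(Q)`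
  have hCRN : Subgroup.centralizer (R : Set G) ≤ Subgroup.normalizer (Q : Set G) :=
    hRQ.trans (Subgroup.centralizer_le_normalizer _)
  obtain ⟨R₁, hR₁⟩ : ∃ R₁ : Subgroup (Subgroup.normalizer (Q : Set G)),
    R₁ = R.subgroupOf (Subgroup.normalizer (Q : Set G)) := ⟨_, rfl⟩
  rw [← hR₁] at hRV'
  have hR₁p : IsPGroup ℓ R₁ := by
    rw [hR₁]
    exact hR.pg.comap_of_injective (Subgroup.normalizer (Q : Set G)).subtype
      (Subgroup.normalizer (Q : Set G)).subtype_injective
  have hR₁c : ∀ t : Subgroup.normalizer (Q : Set G),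
      t ∈ Subgroup.centralizer (R₁ : Set (Subgroup.normalizer (Q : Set G))) ↔
        (t : G) ∈ Subgroup.centralizer (R : Set G) := by
    rw [hR₁]
    exact cent_sub hRN
  have hEinv : ∀ w ∈ K, ∀ x, E (w * x * w⁻¹) = E x := fun w hw =>
    (cj_eq_iff w E).1 (hEK.ix.inv hw)
  have hbrinv : H66.Inv R₁ (fun t : Subgroup.normalizer (Q : Set G) => br Q E t) := by
    intro w hw x
    rw [hR₁] at hw
    have hw1 : (w : G) ∈ R := Subgroup.mem_subgroupOf.1 hw
    change br Q E ((w : G) * x * (w : G)⁻¹) = br Q E x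
    have hwC := nor_cent (Q := Q) w.2
    by_cases hx : (x : G) ∈ Subgroup.centralizer (Q : Set G)
    · rw [br_in _ hx, br_in _ ((hwC x).2 hx)]
      exact hEinv _ (hDK (hRD hw1)) _
    · rw [br_out _ hx, br_out _ (fun h' => hx ((hwC x).1 h'))]
  have hbb : br R₁ (fun t : Subgroup.normalizer (Q : Set G) => br Q E t) =
      fun t : Subgroup.normalizer (Q : Set G) => br R E t := by
    funext t
    by_cases ht : (t : G) ∈ Subgroup.centralizer (R : Set G)
    · rw [br_in _ ((hR₁c t).2 ht), br_in _ ht, br_in _ (hRQ ht)]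
    · rw [br_out _ (fun h => ht ((hR₁c t).1 h)), br_out _ ht]
  obtain ⟨B, hB⟩ : ∃ B : A → FF M,
    B = push π (fun t : Subgroup.normalizer (Q : Set G) => br R E t) := ⟨_, rfl⟩
  have hBV : br V' (push π (fun t : Subgroup.normalizer (Q : Set G) => br Q E t)) = B := by
    funext y
    by_cases hy : y ∈ Subgroup.centralizer (V' : Set A)
    · rw [← hRV'] at hy ⊢
      rw [br_in _ hy, T2.H65.push_br_inv hF hR₁p hbrinv hy, hbb, hB]
    · rw [br_out _ hy, hB]
      have := Fintype.ofFinite (Subgroup.normalizer (Q : Set G))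
      rw [push_eq]
      symm
      refine Finset.sum_eq_zero fun t _ => ?_
      split_ifs with h1
      · apply br_out
        intro h2
        apply hy
        rw [Subgroup.mem_centralizer_iff]
        rintro v hv
        rw [SetLike.mem_coe, ← hRV'] at hv
        obtain ⟨s, hs, rfl⟩ := hv
        rw [← h1, ← map_mul, ← map_mul]
        have h3 := Subgroup.mem_centralizer_iff.1 ((hR₁c t).2 h2) s hs
        rw [h3]
      · rfl
  have hi₁ : H66.Inv V' f₁ := H66.IsCl.inv hf₁.1.1 _
  have hi₂ : H66.Inv V' (push π (fun t : Subgroup.normalizer (Q : Set G) => br Q E t)) := by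
    rw [← hRV']
    exact T2.H65.push_inv hbrinv
  have h14 : mulF B (br V' f₁) = 0 := by
    rw [← hBV, ← H66.br_mulF hF hV'.pg hi₂ hi₁, h13]
    funext t
    by_cases ht : t ∈ Subgroup.centralizer (V' : Set A)
    · rw [br_in _ ht]
    · rw [br_out _ ht]
      rfl
  have hcomm : mulF (br R E) b₃ = mulF b₃ (br R E) :=
    mulF_comm_of (K := Subgroup.centralizer (R : Set G)) (fun x hx => br_out _ hx)
      (fun k hk => hR.blk.ix.inv hk)
  have h15 : mulF (push π (fun t : Subgroup.normalizer (Q : Set G) => b₃ t)) B =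
      push π (fun t : Subgroup.normalizer (Q : Set G) => b₃ t) := by
    rw [hB, ← push_mulF, ← mulF_res (Subgroup.normalizer (Q : Set G)) (br R E)
      (fun x hx => hR.blk.supp x (fun h => hx (hCRN h))), ← hcomm, hbR]
  apply hne
  rw [← h15, H20.mulF_assoc, h14]
  exact mulF_zero_right _

end Pool.Agent.PP.TP.H65
end
end -- Pool.Agent.Helper65_ATP.TYP

section -- Pool.Agent.Helper82_ATP.PMK

/-!
# Squad ATP, row PMK: PMX for a block of a subgroup which contains `C(Q)`
-/

noncomputable section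

namespace Pool.Agent.PP.TP.H82

open Pool.Agent.Helper51_AWC Pool.Agent.Helper79_WRA Pool.Agent.PP Pool.Agent.PP.KF
open Pool.Agent.PP.K9 Pool.Agent.PP.K9.H97 Pool.Agent.PP.H75 Pool.Agent.PP.T3 Pool.Agent.PP.T2
open Pool.Agent.PP.TB

attribute [local instance] Ideal.Quotient.field

theorem mem_cen_sub {G : Type} [Group G] {K Q : Subgroup G} (hQK : Q ≤ K) (t : K) :
    t ∈ Subgroup.centralizer ((Q.subgroupOf K : Subgroup K) : Set K) ↔
      (t : G) ∈ Subgroup.centralizer (Q : Set G) := by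
  rw [Subgroup.mem_centralizer_iff, Subgroup.mem_centralizer_iff]
  constructor
  · intro h q hq
    have h1 := h ⟨q, hQK hq⟩ (Subgroup.mem_subgroupOf.2 hq)
    exact congrArg Subtype.val h1
  · intro h q hq
    have h1 := h (q : G) (Subgroup.mem_subgroupOf.1 hq)
    exact Subtype.ext h1

theorem br_sub {F G : Type} [Field F] [Group G] {K Q : Subgroup G} (hQK : Q ≤ K) (f : G → F) :
    br (Q.subgroupOf K) (fun t : K => f t) = fun t : K => br Q f t := by
  funext t
  unfold br
  by_cases h : (t : G) ∈ Subgroup.centralizer (Q : Set G)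
  · rw [if_pos ((mem_cen_sub hQK t).2 h), if_pos h]
  · rw [if_neg (fun h' => h ((mem_cen_sub hQK t).1 h')), if_neg h]

theorem conj_map {G : Type} [Group G] {K V : Subgroup G} (hVK : V ≤ K) (x : K) :
    (conjS x (V.subgroupOf K)).map K.subtype = conjS (x : G) V := by
  ext g
  constructor
  · rintro ⟨y, ⟨v, hv, rfl⟩, rfl⟩
    exact ⟨(v : G), Subgroup.mem_subgroupOf.1 hv, rfl⟩
  · rintro ⟨v, hv, rfl⟩
    exact ⟨x * ⟨v, hVK hv⟩ * x⁻¹, ⟨⟨v, hVK hv⟩, Subgroup.mem_subgroupOf.2 hv, rfl⟩, rfl⟩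

theorem pmk (hPMX : PmxStmt) (hPTR : PtrStmt) : PmkStmt := by
  intro ℓ _ M _ hM G _ _ K V f hf hVK hT Q b hQ hQK hCK hund
  obtain ⟨hq, hlift⟩ := hPTR ℓ (FF M) G K Q hQK hCK b hQ
  have hbr : mulF (br (Q.subgroupOf K) (fun t : K => f t)) (fun t : K => b t) =
      fun t : K => b t := by
    rw [br_sub hQK f]
    have hs : ∀ x, x ∉ K → br Q f x = 0 := by
      intro x hx
      unfold br
      rw [if_neg (fun h => hx (hCK h))]
    rw [← mulF_res K b hs, hund]
  obtain ⟨x, γ', hpq, hle⟩ := hPMX ℓ M hM K (fun t : K => f t) (V.subgroupOf K) hf.blk hT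
    (Q.subgroupOf K) (fun t : K => b t) hq hbr
  obtain ⟨h1, h2⟩ := hlift (conjS x (V.subgroupOf K)) γ' hle
  rw [conj_map hVK x] at h1 h2
  exact ⟨x, x.2, _, h1, h2⟩

end Pool.Agent.PP.TP.H82
end
end -- Pool.Agent.Helper82_ATP.PMK

section -- Pool.Agent.Helper86_ATP.PMG

/-!
# ATP, row PMG: every pair under the block `e` is contained in a conjugate of `(V, γ)`
-/

open scoped BigOperators

noncomputable section

namespace Pool.Agent.PP.TP.H86

open Pool.Agent.Helper51_AWC Pool.Agent.Helper79_WRA Pool.Agent.PP Pool.Agent.PP.KF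
open Pool.Agent.PP.K9 Pool.Agent.PP.K9.H97 Pool.Agent.PP.H75 Pool.Agent.PP.T3 Pool.Agent.PP.T2
open Pool.Agent.PP.TB

attribute [local instance] Ideal.Quotient.field

set_option linter.unusedSectionVars false

section tools

variable {F G : Type} [Field F] [Group G] [Finite G]

theorem cj_cj (g h : G) (a : G → F) : cj g (cj h a) = cj (g * h) a := by
  funext x
  unfold cj
  congr 1
  group

theorem cj_one' (a : G → F) : cj (1 : G) a = a := by
  funext x
  unfold cj
  congr 1
  group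

end tools

/-- row PMG -/
theorem pmg (hPMX : PmxStmt) (hPXB : PxbStmt) (hFMG : K9.FmgStmt) (hORB : K9.OrbStmt) :
    PmgStmt := by
  intro ℓ _ M _ hM G _ _ e V he hV γ hγ hγe Q b hQ hQb
  have hF : GoodF ℓ (FF M) := H50.fld ℓ Fact.out M hM
  obtain ⟨x, γ', hP, hle⟩ := hPMX ℓ M hM G e V he hV Q b hQ hQb
  have hixe : Ix (⊤ : Subgroup G) e := by
    refine ⟨fun x hx => absurd (Subgroup.mem_top x) hx, ?_, ?_⟩
    · intro x y
      exact he.1.1 x y
    · rw [← H75.mulF_res (⊤ : Subgroup G) e (fun x hx => absurd (Subgroup.mem_top x) hx), he.1.2]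
  have hce : mulF (br (conjS x V) e) γ' = γ' :=
    (hPXB ℓ (FF M) hF G ⊤ e hixe _ _ hP le_top Q b hQ le_top hle).1 hQb
  -- conjugate back
  obtain ⟨N, hN⟩ : ∃ N : Subgroup G, N = Subgroup.normalizer (V : Set G) := ⟨_, rfl⟩
  obtain ⟨C, hC⟩ : ∃ C : Subgroup G, C = Subgroup.centralizer (V : Set G) := ⟨_, rfl⟩
  have hCN : C ≤ N := by
    rw [hC, hN]
    exact Subgroup.centralizer_le_normalizer _
  have hγC : Bx C γ := hC ▸ hγ
  have hcent : ∀ t : G, t ∈ C ↔ x⁻¹⁻¹ * t * x⁻¹ ∈ Subgroup.centralizer ((conjS x V : Subgroup G) : Set G) := by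
    intro t
    rw [hC, inv_inv, Subgroup.mem_centralizer_iff, Subgroup.mem_centralizer_iff]
    constructor
    · intro h v hv
      have h2 := h (x⁻¹ * v * x) (mem_conjS.1 hv)
      calc v * (x * t * x⁻¹) = x * ((x⁻¹ * v * x) * t) * x⁻¹ := by group
        _ = x * (t * (x⁻¹ * v * x)) * x⁻¹ := by rw [h2]
        _ = x * t * x⁻¹ * v := by group
    · intro h v hv
      have h2 := h (x * v * x⁻¹) (mem_conjS.2 (by
        have h3 : x⁻¹ * (x * v * x⁻¹) * x = v := by group
        rwa [h3]))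
      calc v * t = x⁻¹ * ((x * v * x⁻¹) * (x * t * x⁻¹)) * x := by group
        _ = x⁻¹ * ((x * t * x⁻¹) * (x * v * x⁻¹)) * x := by rw [h2]
        _ = t * v := by group
  have hγ1 : Bx C (cj x⁻¹ γ') := T3.H62.bx_cj hcent hP.blk
  have hγ1e : mulF (br V e) (cj x⁻¹ γ') = cj x⁻¹ γ' := by
    have h1 := congrArg (cj x⁻¹) hce
    have he2 : cj x e = e := (cj_eq_iff x e).2 (fun t => he.1.1 t x)
    have h2 : br (conjS x V) e = cj x (br V e) := by
      rw [← T2.H65.cj_br, he2]
    rw [H75.cj_mulF, h2, cj_cj, inv_mul_cancel, cj_one'] at h1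
    exact h1
  -- `br_V(e)` is a block of `N`, supported on `C`
  obtain ⟨-, ⟨hblk, -⟩, -⟩ := hFMG ℓ M hM G e he V hV
  have hNC : N ≤ Subgroup.normalizer (C : Set G) := by
    rw [hN, hC]
    intro g hg
    rw [Subgroup.mem_normalizer_iff]
    have key : ∀ g ∈ Subgroup.normalizer (V : Set G), ∀ y : G,
        y ∈ Subgroup.centralizer (V : Set G) →
        g * y * g⁻¹ ∈ Subgroup.centralizer (V : Set G) := by
      intro g hg y hy
      rw [Subgroup.mem_centralizer_iff] at hy ⊢
      intro r hr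
      have h2 : g⁻¹ * r * g ∈ V := by
        have := (Subgroup.mem_normalizer_iff.1 (Subgroup.inv_mem _ hg) r).1 hr
        rwa [inv_inv] at this
      have h3 := hy _ h2
      calc r * (g * y * g⁻¹) = g * (g⁻¹ * r * g * y) * g⁻¹ := by group
        _ = g * (y * (g⁻¹ * r * g)) * g⁻¹ := by rw [h3]
        _ = g * y * g⁻¹ * r := by group
    intro y
    refine ⟨key g hg y, fun h => ?_⟩
    have h1 := key g⁻¹ (inv_mem hg) _ h
    have h2 : g⁻¹ * (g * y * g⁻¹) * g⁻¹⁻¹ = y := by group
    rwa [h2] at h1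
  have hbs : ∀ t, t ∉ C → br V e t = 0 := fun t ht => br_out e (fun h => ht (hC ▸ h))
  have hblk' : IsBlk (fun t : N => br V e t) := by
    subst hN
    exact hblk
  obtain ⟨n, hn, hnc⟩ := hORB ℓ (FF M) hF G N C hCN hNC (br V e) hbs hblk' γ (cj x⁻¹ γ')
    hγC.supp hγ1.supp hγC.blk hγ1.blk hγe hγ1e
  have hcj : cj x⁻¹ γ' = cj n⁻¹ γ := by
    funext t
    rw [hnc t]
    unfold cj
    rw [inv_inv]
  have hγ' : γ' = cj (x * n⁻¹) γ := by
    rw [← cj_cj, ← hcj, cj_cj, mul_inv_cancel, cj_one']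
  have hconj : conjS (x * n⁻¹) V = conjS x V := by
    ext t
    rw [mem_conjS, mem_conjS]
    have h1 : (x * n⁻¹)⁻¹ * t * (x * n⁻¹) = n * (x⁻¹ * t * x) * n⁻¹ := by group
    rw [h1]
    exact (Subgroup.mem_normalizer_iff.1 (hN ▸ hn) _).symm
  refine ⟨x * n⁻¹, ?_, ?_⟩
  · rw [hconj, ← hγ']
    exact hP
  · rw [hconj, ← hγ']
    exact hle

/-- row PMG, with the proved statements -/
theorem pmg' (hPMX : PmxStmt) (hPXB : PxbStmt) : PmgStmt :=
  pmg hPMX hPXB K9.H69.fmg K9.H97.orb

end Pool.Agent.PP.TP.H86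
end
end -- Pool.Agent.Helper86_ATP.PMG

section -- Pool.Agent.Helper94_ATP.CTQ

/-!
# Squad ATP, row CTQ: sections `R/Q` with `Zc V ≤ R`
-/

open scoped BigOperators

set_option autoImplicit false

noncomputable section

namespace Pool.Agent.PP.TP.H94

open Pool.Agent.Helper51_AWC Pool.Agent.Helper79_WRA Pool.Agent.PP Pool.Agent.PP.KF
open Pool.Agent.PP.K9 Pool.Agent.PP.K9.H97 Pool.Agent.PP.H75 Pool.Agent.PP.T3 Pool.Agent.PP.T2
open Pool.Agent.PP.TB Pool.Agent.PP.TP

section tools

theorem map_card {N H : Type} [Group N] [Finite N] [Group H] (φ : N →* H) {A B : Subgroup N}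
    (hAB : A ≤ B) : Nat.card (B.map φ) * Nat.card A ≤ Nat.card (A.map φ) * Nat.card B := by
  have h1 : Nat.card A * A.relIndex B = Nat.card B := by
    rw [← Subgroup.relIndex_bot_left, ← Subgroup.relIndex_bot_left]
    exact Subgroup.relIndex_mul_relIndex ⊥ A B bot_le hAB
  have h2 : Nat.card (A.map φ) * (A.map φ).relIndex (B.map φ) = Nat.card (B.map φ) := by
    rw [← Subgroup.relIndex_bot_left, ← Subgroup.relIndex_bot_left]
    exact Subgroup.relIndex_mul_relIndex ⊥ _ _ bot_le (Subgroup.map_mono hAB)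
  have h3 : (A.map φ).relIndex (B.map φ) ∣ A.relIndex B := by
    rw [← Subgroup.relIndex_comap]
    exact Subgroup.relIndex_dvd_of_le_left _ (Subgroup.le_comap_map φ A)
  have h4 : A.relIndex B ≠ 0 := by
    intro h
    rw [h, mul_zero] at h1
    exact Nat.card_pos.ne h1
  have h5 := Nat.le_of_dvd (Nat.pos_of_ne_zero h4) h3
  rw [← h1, ← h2]
  calc Nat.card (A.map φ) * (A.map φ).relIndex (B.map φ) * Nat.card A
      ≤ Nat.card (A.map φ) * A.relIndex B * Nat.card A :=
        Nat.mul_le_mul_right _ (Nat.mul_le_mul_left _ h5)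
    _ = Nat.card (A.map φ) * (Nat.card A * A.relIndex B) := by ring

theorem card_sub {G : Type} [Group G] [Finite G] {A N : Subgroup G} (h : A ≤ N) :
    Nat.card (A.subgroupOf N) = Nat.card A :=
  Nat.card_congr (Subgroup.subgroupOfEquivOfLe h).toEquiv

end tools

theorem ctq (pwu : T2.PwuStmt) : CtqStmt := by
  intro ℓ _ G A _ _ _ _ r p V R N φ V' hV hRV hRN hZR hV'
  have hp : ℓ.Prime := Fact.out
  have hZN : Zc V ≤ N := hZR.trans hRN
  have hZab : ∀ a ∈ Zc V, ∀ b ∈ Zc V, a * b = b * a := by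
    intro a ha b hb
    have h1 := Subgroup.mem_centralizer_iff.1 (Subgroup.mem_inf.1 hb).2 a (Subgroup.mem_inf.1 ha).1
    exact h1
  -- the images of the subgroups of the centre
  have hcen : ∀ Z : Subgroup G, Z ≤ Zc V → (Z.subgroupOf N).map φ ≤ Zc V' := by
    intro Z hZ
    rintro _ ⟨z, hz, rfl⟩
    have hz' : (z : G) ∈ Zc V := hZ hz
    refine Subgroup.mem_inf.2 ⟨?_, ?_⟩
    · rw [hV']
      exact ⟨z, hZR hz', rfl⟩
    · rw [Subgroup.mem_centralizer_iff]
      intro y hy
      rw [hV'] at hy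
      obtain ⟨v, hv, rfl⟩ := hy
      have hv' : (v : G) ∈ R := hv
      rw [← map_mul, ← map_mul]
      congr 1
      apply Subtype.ext
      exact Subgroup.mem_centralizer_iff.1 (Subgroup.mem_inf.1 hz').2 v (hRV hv')
  refine ⟨?_, ?_⟩
  · rintro ⟨Z, hZ, h1, h2⟩
    have hZN' : Z ≤ N := hZ.trans hZN
    have hab : ∀ a ∈ Z, ∀ b ∈ Z, a * b = b * a := fun a ha b hb => hZab a (hZ ha) b (hZ hb)
    have hUZ : Uw ℓ Z ≤ Z := (pwu G ℓ Z hab).2.1
    have hUs : Uw ℓ (Z.subgroupOf N) = (Uw ℓ Z).subgroupOf N :=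
      (pwu G ℓ Z hab).2.2.2.2.2.2.1 N hZN'
    have hab' : ∀ a ∈ Z.subgroupOf N, ∀ b ∈ Z.subgroupOf N, a * b = b * a := by
      intro a ha b hb
      apply Subtype.ext
      exact hab _ ha _ hb
    have hUm : Uw ℓ ((Z.subgroupOf N).map φ) = ((Uw ℓ Z).subgroupOf N).map φ := by
      rw [(pwu N ℓ (Z.subgroupOf N) hab').2.2.2.2.2.1 A φ, hUs]
    refine ⟨(Z.subgroupOf N).map φ, hcen Z hZ, ?_, ?_⟩
    · have h3 := map_card φ (A := Z.subgroupOf N) (B := R.subgroupOf N)
        (fun x hx => hZR (hZ hx))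
      rw [card_sub hZN', card_sub hRN, ← hV'] at h3
      have h4 : Nat.card R ≤ Nat.card V := Subgroup.card_le_of_le hRV
      have h5 : 0 < Nat.card Z := Nat.card_pos
      refine Nat.le_of_mul_le_mul_right ?_ h5
      calc Nat.card V' * Nat.card Z ≤ Nat.card ((Z.subgroupOf N).map φ) * Nat.card R := h3
        _ ≤ Nat.card ((Z.subgroupOf N).map φ) * (ℓ ^ p * Nat.card Z) :=
            Nat.mul_le_mul_left _ (h4.trans h1)
        _ = ℓ ^ p * Nat.card ((Z.subgroupOf N).map φ) * Nat.card Z := by ring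
    · have h3 := map_card φ (A := (Uw ℓ Z).subgroupOf N) (B := Z.subgroupOf N)
        (fun x hx => hUZ hx)
      rw [card_sub (hUZ.trans hZN'), card_sub hZN'] at h3
      have h5 : 0 < Nat.card (Uw ℓ Z) := Nat.card_pos
      rw [hUm]
      refine Nat.le_of_mul_le_mul_right ?_ h5
      calc Nat.card ((Z.subgroupOf N).map φ) * Nat.card (Uw ℓ Z)
          ≤ Nat.card (((Uw ℓ Z).subgroupOf N).map φ) * Nat.card Z := h3
        _ ≤ Nat.card (((Uw ℓ Z).subgroupOf N).map φ) * (ℓ ^ r * Nat.card (Uw ℓ Z)) :=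
            Nat.mul_le_mul_left _ h2
        _ = ℓ ^ r * Nat.card (((Uw ℓ Z).subgroupOf N).map φ) * Nat.card (Uw ℓ Z) := by ring
  · intro a ha hexp
    have hab' : ∀ a ∈ (Zc V).subgroupOf N, ∀ b ∈ (Zc V).subgroupOf N, a * b = b * a := by
      intro a ha b hb
      apply Subtype.ext
      exact hZab _ ha _ hb
    have hexp' : Monoid.exponent ((Zc V).subgroupOf N) = ℓ ^ a := by
      rw [← hexp]
      exact Monoid.exponent_eq_of_mulEquiv (Subgroup.subgroupOfEquivOfLe hZN)
    have h1 := ((pwu N (ℓ ^ (a - 1)) ((Zc V).subgroupOf N) hab').2.2.2.2.2.2.2 ℓ a ha hexp'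
      rfl).2 A φ
    rcases h1 with h1 | h1
    · left
      obtain ⟨W, hW⟩ : ∃ W : Subgroup A, W = ((Zc V).subgroupOf N).map φ := ⟨_, rfl⟩
      rw [← hW] at h1
      have hWle : W ≤ Zc V' := by
        rw [hW]
        exact hcen _ le_rfl
      have h2 : ∃ w : W, w ^ ℓ ^ (a - 1) ≠ 1 := by
        by_contra hcon
        push Not at hcon
        have h3 := Monoid.exponent_dvd_iff_forall_pow_eq_one.2 hcon
        rw [h1] at h3
        have h4 := (Nat.pow_dvd_pow_iff_le_right hp.one_lt).1 h3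
        omega
      obtain ⟨w, hw⟩ := h2
      refine ⟨w, hWle w.2, ?_⟩
      rw [Subgroup.orderOf_coe]
      have h3 : w ^ ℓ ^ (a - 1 + 1) = 1 := by
        rw [Nat.sub_add_cancel ha, ← h1]
        exact Monoid.pow_exponent_eq_one w
      rw [orderOf_eq_prime_pow hw h3, Nat.sub_add_cancel ha]
    · right
      have h2 : Uw (ℓ ^ (a - 1)) ((Zc V).subgroupOf N) = (Uz ℓ a V).subgroupOf N :=
        (pwu G (ℓ ^ (a - 1)) (Zc V) hZab).2.2.2.2.2.2.1 N hZN
      have h3 : Uz ℓ a V ≤ Zc V := (pwu G (ℓ ^ (a - 1)) (Zc V) hZab).2.1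
      intro x hx
      have hxN : x ∈ N := hZN (h3 hx)
      refine ⟨⟨x, hxN⟩, h1 ?_, rfl⟩
      rw [h2]
      exact hx

end Pool.Agent.PP.TP.H94
end
end -- Pool.Agent.Helper94_ATP.CTQ

section -- Pool.Agent.Helper95_ATP.NP1

/-!
# Squad ATP, row NP1: the unique stable block below a pair, normal case
-/

open scoped BigOperators

set_option linter.unusedSectionVars false

noncomputable section

namespace Pool.Agent.PP.TP.H95

open Pool.Agent.Helper51_AWC Pool.Agent.Helper79_WRA Pool.Agent.PP Pool.Agent.PP.KF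
open Pool.Agent.PP.K9 Pool.Agent.PP.K9.H97 Pool.Agent.PP.H75 Pool.Agent.PP.T3 Pool.Agent.PP.T2
open Pool.Agent.PP.TB

section tools

variable {F G : Type} [Field F] [Group G] [Finite G]

theorem fsum_mulF {ι : Type*} (s : Finset ι) (a : ι → G → F) (c : G → F) :
    mulF (∑ i ∈ s, a i) c = ∑ i ∈ s, mulF (a i) c := by
  classical
  induction s using Finset.induction_on with
  | empty => simp [H20.zero_mulF]
  | insert i s hi ih => rw [Finset.sum_insert hi, Finset.sum_insert hi, H20.add_mulF, ih]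

/-- The blocks of a subgroup sum to the identity. -/
theorem sum_blocks (C : Subgroup G) [Fintype {b : G → F // Bx C b}] :
    ∑ b : {b : G → F // Bx C b}, b.1 = dl F 1 := by
  classical
  obtain ⟨m, f, hf, ho, hs⟩ := CD2.H74.dec (dl F (1 : C)) H46.isIdem_one
  have hres : ∀ t, (fun x : C => ext0 C (f t) x) = f t := fun t => funext (ext0_apply C (f t))
  have hbx : ∀ t, Bx C (ext0 C (f t)) := fun t => ⟨ext0_supp C (f t), by rw [hres]; exact (hf t).1⟩
  let φ : Fin m → {b : G → F // Bx C b} := fun t => ⟨ext0 C (f t), hbx t⟩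
  have hφ : Function.Bijective φ := by
    constructor
    · intro t s hts
      by_contra hne
      have h1 : f t = f s := by
        rw [← hres t, ← hres s]
        have h2 : ext0 C (f t) = ext0 C (f s) := congrArg Subtype.val hts
        rw [h2]
      have h3 := ho t s hne
      rw [← h1, (hf t).1.1.2] at h3
      exact (hf t).1.2.1 h3
    · rintro ⟨b, hb⟩
      have hb' : IsBlk (fun x : C => b x) := hb.blk
      have h1 : ∑ t, mulF (f t) (fun x : C => b x) = fun x : C => b x := by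
        rw [← fsum_mulF, hs, H46.one_mulF]
      obtain ⟨t, ht⟩ : ∃ t, mulF (f t) (fun x : C => b x) ≠ 0 := by
        by_contra hcon
        push Not at hcon
        apply hb'.2.1
        rw [← h1]
        exact Finset.sum_eq_zero fun t _ => hcon t
      refine ⟨t, Subtype.ext ?_⟩
      have h2 : f t = fun x : C => b x := by
        rcases (hf t).1.2.2 _ hb'.1 with h3 | h3
        · rcases hb'.2.2 _ (hf t).1.1 with h4 | h4
          · exact h3.symm.trans ((H46.mulF_comm (hf t).1.1.1 _).trans h4)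
          · exfalso
            apply ht
            rw [H46.mulF_comm (hf t).1.1.1, h4]
        · exact absurd h3 ht
      exact eq_of_res (hbx t).supp hb.supp (by rw [hres, h2])
  rw [← hφ.sum_comp (fun b => b.1)]
  funext x
  rw [Finset.sum_apply]
  by_cases hx : x ∈ C
  · have h1 : ∀ t, (φ t).1 x = f t ⟨x, hx⟩ := fun t => by
      change ext0 C (f t) x = _
      rw [ext0, dif_pos hx]
    simp only [h1]
    have h2 := congrFun hs ⟨x, hx⟩
    rw [Finset.sum_apply] at h2
    rw [h2]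
    unfold dl
    by_cases h3 : x = 1
    · rw [if_pos h3, if_pos (Subtype.ext h3)]
    · rw [if_neg h3, if_neg]
      intro h4
      exact h3 (congrArg Subtype.val h4)
  · have h1 : ∀ t, (φ t).1 x = 0 := fun t => (hbx t).supp x hx
    simp only [h1]
    unfold dl
    rw [if_neg, Finset.sum_const_zero]
    intro h3
    rw [h3] at hx
    exact hx C.one_mem

theorem cent_normalizes {Q P : Subgroup G} (hPN : P ≤ Subgroup.normalizer (Q : Set G)) {x : G}
    (hx : x ∈ P) : x ∈ Subgroup.normalizer (Subgroup.centralizer (Q : Set G) : Set G) := by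
  have hxN := Subgroup.mem_normalizer_iff.1 (hPN hx)
  rw [Subgroup.mem_normalizer_iff]
  intro y
  rw [Subgroup.mem_centralizer_iff, Subgroup.mem_centralizer_iff]
  constructor
  · intro h q hq
    have h1 : x⁻¹ * q * x ∈ Q := by
      have := (hxN (x⁻¹ * q * x)).2 (by
        rw [show x * (x⁻¹ * q * x) * x⁻¹ = q by group]; exact hq)
      exact this
    have h2 := h _ h1
    have h3 : x * (x⁻¹ * q * x * y) * x⁻¹ = x * (y * (x⁻¹ * q * x)) * x⁻¹ := by rw [h2]
    calc q * (x * y * x⁻¹) = x * (x⁻¹ * q * x * y) * x⁻¹ := by group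
      _ = x * (y * (x⁻¹ * q * x)) * x⁻¹ := h3
      _ = x * y * x⁻¹ * q := by group
  · intro h q hq
    have h1 : x * q * x⁻¹ ∈ Q := (hxN q).1 hq
    have h2 := h _ h1
    have h3 : x⁻¹ * (x * q * x⁻¹ * (x * y * x⁻¹)) * x =
        x⁻¹ * (x * y * x⁻¹ * (x * q * x⁻¹)) * x := by rw [h2]
    calc q * y = x⁻¹ * (x * q * x⁻¹ * (x * y * x⁻¹)) * x := by group
      _ = x⁻¹ * (x * y * x⁻¹ * (x * q * x⁻¹)) * x := h3
      _ = y * q := by group

theorem inv_of_cj {P : Subgroup G} {b : G → F} (h : ∀ x ∈ P, cj x b = b) : H66.Inv P b := by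
  intro p hp t
  exact (cj_eq_iff p b).1 (h p hp) t

/-- the Brauer image of an invariant block -/
theorem ix_br {ℓ : ℕ} (hF : GoodF ℓ F) {Q P : Subgroup G} (hP : IsPGroup ℓ P) (hQP : Q ≤ P)
    {b : G → F} (hb : Bx (Subgroup.centralizer (Q : Set G)) b) (hi : ∀ x ∈ P, cj x b = b) :
    Ix (Subgroup.centralizer (P : Set G)) (br P b) := by
  have hsupp : ∀ x, x ∉ Subgroup.centralizer (P : Set G) → br P b x = 0 := fun x hx => br_out b hx
  refine ⟨hsupp, ?_, ?_⟩
  · intro x y
    have hx := x.2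
    have hy := y.2
    have h1 : ((y * x * y⁻¹ : Subgroup.centralizer (P : Set G)) : G) ∈
      Subgroup.centralizer (P : Set G) := (y * x * y⁻¹).2
    change br P b ((y * x * y⁻¹ : Subgroup.centralizer (P : Set G)) : G) = br P b x
    rw [br_in b h1, br_in b hx]
    have hle : Subgroup.centralizer (P : Set G) ≤ Subgroup.centralizer (Q : Set G) :=
      Subgroup.centralizer_le hQP
    exact hb.blk.1.1 ⟨x, hle hx⟩ ⟨y, hle hy⟩
  · rw [← mulF_res _ _ hsupp, ← H66.br_mulF hF hP (inv_of_cj hi) (inv_of_cj hi), hb.mul]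

end tools

theorem np1 : Np1Stmt := by
  classical
  intro ℓ F _ hF G _ _ Q P hP hQP hPN c hc
  have hlp : Fact ℓ.Prime := ⟨hF.prime⟩
  have hch := hF.char
  have huniq : ∀ b b' : G → F, Bx (Subgroup.centralizer (Q : Set G)) b → Nl Q b P c →
      Bx (Subgroup.centralizer (Q : Set G)) b' → Nl Q b' P c → b' = b := by
    intro b b' hb hn hb' hn'
    rcases hb'.dich hb with h | h
    · exact h
    · exfalso
      have h1 : br P (mulF b' b) = mulF (br P b') (br P b) :=
        H66.br_mulF hF hP (inv_of_cj hn'.inv) (inv_of_cj hn.inv)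
      have h2 : mulF (br P (mulF b' b)) c = c := by
        rw [h1, H20.mulF_assoc, hn.und, hn'.und]
      rw [h] at h2
      have h3 : br P (0 : G → F) = 0 := by
        funext t
        by_cases ht : t ∈ Subgroup.centralizer (P : Set G)
        · rw [br_in _ ht]
        · rw [br_out _ ht]; rfl
      rw [h3, H20.zero_mulF] at h2
      exact hc.ne h2.symm
  -- existence
  let X := Subgroup.centralizer (Q : Set G)
  let T := {b : G → F // Bx X b}
  have hTfin : Finite T := (H83.bx_finite (F := F) X).to_subtype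
  let _ : Fintype T := Fintype.ofFinite T
  let _ : MulAction P T :=
    { smul := fun r b => ⟨cj (r : G) b.1, b.2.cj (cent_normalizes hPN r.2)⟩
      one_smul := fun b => Subtype.ext (cj_one b.1)
      mul_smul := fun r s b => Subtype.ext (cj_cj (r : G) (s : G) b.1).symm }
  have hsm : ∀ (r : P) (b : T), ((r • b : T) : G → F) = cj (r : G) b.1 := fun _ _ => rfl
  have hsum : ∀ t, t ∈ Subgroup.centralizer (P : Set G) →
      ∑ b : T, b.1 t = ∑ b : T with (∀ r : P, r • b = b), b.1 t := by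
    intro t ht
    refine H74.orbit_sum_ring (T := T) hP (fun b => b.1 t) ?_
    intro r b
    rw [hsm]
    change b.1 ((r : G)⁻¹ * t * r) = b.1 t
    have := Subgroup.mem_centralizer_iff.1 ht r r.2
    rw [mul_assoc, ← this, inv_mul_cancel_left]
  have hbr : ∑ b : T with (∀ r : P, r • b = b), br P b.1 = dl F 1 := by
    funext t
    rw [Finset.sum_apply]
    by_cases ht : t ∈ Subgroup.centralizer (P : Set G)
    · simp only [br_in _ ht]
      rw [← hsum t ht, ← sum_blocks (F := F) X, Finset.sum_apply]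
    · simp only [br_out _ ht]
      unfold dl
      rw [if_neg, Finset.sum_const_zero]
      intro h3
      rw [h3] at ht
      exact ht (Subgroup.one_mem _)
  have hc1 : ∑ b : T with (∀ r : P, r • b = b), mulF (br P b.1) c = c := by
    rw [← fsum_mulF, hbr, H46.one_mulF]
  obtain ⟨b, hbm, hb0⟩ : ∃ b ∈ (Finset.univ : Finset T).filter (fun b => ∀ r : P, r • b = b),
      mulF (br P b.1) c ≠ 0 := by
    by_contra hcon
    push Not at hcon
    apply hc.ne
    rw [← hc1]
    exact Finset.sum_eq_zero hcon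
  have hfix : ∀ x ∈ P, cj x b.1 = b.1 := by
    intro x hx
    have := (Finset.mem_filter.1 hbm).2 ⟨x, hx⟩
    exact congrArg Subtype.val this
  have hix := ix_br hF hP hQP b.2 hfix
  have hund : mulF (br P b.1) c = c := by
    rcases hc.dich' hix with h | h
    · rw [hix.comm hc.ix]
      exact h
    · exfalso
      apply hb0
      rw [hix.comm hc.ix]
      exact h
  have hnl : Nl Q b.1 P c := ⟨hQP, hPN, hfix, hund⟩
  exact ⟨b.1, b.2, hnl, fun b' hb' hn' => huniq b.1 b' b.2 hnl hb' hn'⟩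

end Pool.Agent.PP.TP.H95
end
end -- Pool.Agent.Helper95_ATP.NP1

section -- Pool.Agent.Helper43_ATP.Asm

/-!
# Squad ATP: the statements, closed

`fnp_ : FnpStmt`: Alperin's weight conjecture for the blocks whose defect group has a large centre,
given the bound `Bd` for the number of modular characters.
-/

noncomputable section

namespace Pool.Agent.PP.TP

open Pool.Agent.PP

theorem np1_ : Np1Stmt := H95.np1
theorem pcj_ : PcjStmt := H27.pcj
theorem pex_ : PexStmt := H32.pex np1_ pcj_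
theorem pun_ : PunStmt := H64.pun np1_ pcj_ pex_
theorem pin_ : PinStmt := H49.pin pex_ pun_
theorem pxb_ : PxbStmt := H49.pxb
theorem pmx_ : PmxStmt := H16.pmx np1_ pcj_ pxb_
theorem pmg_ : PmgStmt := H86.pmg' pmx_ pxb_
theorem ptr_ : PtrStmt := H19.ptr
theorem pmk_ : PmkStmt := H82.pmk pmx_ ptr_
theorem pcd_ : PcdStmt := H15.pcd pin_ pun_ pcj_
theorem pqz_ : PqzStmt := H31.pqz pin_ pun_ T3.psg_
theorem zcf_ : ZcfStmt := H39.zcf T2.pwu_
theorem ctq_ : CtqStmt := H94.ctq T2.pwu_
theorem fsp_ : FspStmt := H94.fsp zcf_ K9.H69.fmg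
theorem uop_ : UopStmt := H41.uop zcf_ pcj_ pex_ pun_ pxb_ pmk_ pcd_ K9.H69.fmg
theorem typ_ : TypStmt := H65.typ zcf_ ctq_ pqz_ pmg_ pxb_
theorem txp_ : TxpStmt := H81.txp zcf_ ctq_ pqz_ pmx_
theorem dvp_ : DvpStmt := H65.dvp
theorem tpa_ : TpaStmt := H43.tpa zcf_ fsp_ uop_ T5.ta5_ typ_ txp_ T5.ts5_ dvp_
theorem fnp_ : FnpStmt := H43.fnp tpa_ T5.dz5_

end Pool.Agent.PP.TP
end
end -- Pool.Agent.Helper43_ATP.Asm

section -- Pool.Agent.Helper43_ATP.Fin11

/-!
# Theorem T11: the final form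
-/

open scoped BigOperators

noncomputable section

namespace Pool.Agent.PP.TP.H43

open Pool.Agent.Helper51_AWC Pool.Agent.Helper79_WRA Pool.Agent.PP Pool.Agent.PP.KF
open Pool.Agent.PP.K9 Pool.Agent.PP.K9.H97 Pool.Agent.PP.H75 Pool.Agent.PP.T3 Pool.Agent.PP.T2
open Pool.Agent.PP.TB

attribute [local instance] Ideal.Quotient.field

/-- the bound for all blocks of the class -/
theorem bd (stf : T10.StfStmt) (ℓ : ℕ) [Fact ℓ.Prime] (M : Ideal (integralClosure ℤ ℂ))
    [M.IsMaximal] (hM : (ℓ : integralClosure ℤ ℂ) ∈ M) (r p : ℕ) : Bd M ℓ r p (cb ℓ r p) :=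
  fun G _ _ e V he hT hC =>
    bnd_ ℓ M hM G e V r p he hT hC (stf ℓ M hM G e V r p he hT hC)

/-- T11: `D` has a subgroup `Z`, central modulo `O_ℓ(G)`, with `|D : Z| ≤ ℓ ^ p` and
`|Z : Z ^ ℓ O_ℓ(G)| ≤ ℓ ^ r`, and an element which is central modulo `O_ℓ(G)` and has order `ℓ ^ a`
modulo `O_ℓ(G)`, `a ≥ p + cb ℓ r p`. -/
theorem fin11 :
    ∀ (ℓ : ℕ) [Fact ℓ.Prime] (M : Ideal (integralClosure ℤ ℂ)) [M.IsMaximal],
    (ℓ : integralClosure ℤ ℂ) ∈ M → ∀ r p a : ℕ, 0 < a →
    3 * p + 2 * r * p + 2 * r * (p + r * p + r * r + (if ℓ = 2 then 2 else 1)) ≤ a →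
    ∀ (G : Type) [Group G] [Finite G], opCore ℓ G ≤ Subgroup.center G → ∀ χ ∈ Irr G,
    ∀ D : Subgroup G, ML.IsDef ℓ M χ D → ∀ Z ≤ D, opCore ℓ G ≤ Z →
    (∀ x ∈ Z, ∀ d ∈ D, x * d * x⁻¹ * d⁻¹ ∈ opCore ℓ G) →
    Nat.card Z ≤ ℓ ^ r *
      Nat.card (Subgroup.closure ((fun x : G => x ^ ℓ) '' (Z : Set G)) ⊔ opCore ℓ G :
        Subgroup G) →
    Nat.card D ≤ ℓ ^ p * Nat.card Z →
    (∃ z ∈ D, (∀ d ∈ D, z * d * z⁻¹ * d⁻¹ ∈ opCore ℓ G) ∧
      ∀ n : ℕ, z ^ n ∈ opCore ℓ G ↔ ℓ ^ a ∣ n) → altSum ℓ M χ = 0 := by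
  intro ℓ _ M _ hM r p a ha hle G _ _ hc χ hχ D hD Z hZ hOZ hZc hZr hZp hz
  have h1 : T5.ep ℓ = if ℓ = 2 then 2 else 1 := rfl
  have h2 : cb ℓ r p + p ≤ a := by
    unfold cb
    rw [h1]
    nlinarith [hle]
  have h3 : p < a := by
    by_contra h4
    have h5 : a ≤ p := not_lt.1 h4
    have h6 : 3 * p ≤ a := by
      have h7 : 3 * p ≤ 3 * p + 2 * r * p +
        2 * r * (p + r * p + r * r + (if ℓ = 2 then 2 else 1)) := by
        rw [add_assoc]
        exact Nat.le_add_right _ _
      exact h7.trans hle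
    omega
  exact fnp_ ℓ M hM r p (cb ℓ r p) a (bd T10.stf_ ℓ M hM r p) h2 h3 G hc χ hχ D hD Z hZ hOZ hZc hZr
    hZp hz

end Pool.Agent.PP.TP.H43
end
end -- Pool.Agent.Helper43_ATP.Fin11
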