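import Pool.Agent.Helper12_AWB.B124
import Pool.Agent.Helper12_AWB.B283
import Pool.Agent.Helper12_AWB.B293
import Pool.Agent.Helper12_AWB.B294

/-!
# Merged copies (generated) of the modules

* `Pool.Agent.Helper20_ATW.BWS`
* `Pool.Agent.Helper30_ATW.TWA`
* `Pool.Agent.Helper45_ATW.LW2`
* `Pool.Agent.Helper65_ATW.STA`
* `Pool.Agent.ATW.Asm0`
* `Pool.Agent.Helper61_ATW.HCO`
* `Pool.Agent.ATW.Asm`
* `Pool.Agent.ATW.TtOdd`
* `Pool.Agent.ATW.AsmT`
-/

set_option autoImplicit false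

section -- Pool.Agent.Helper20_ATW.BWS

/-!
# Squad ATW, row BWS: the norm of the sum
-/

open scoped BigOperators

set_option autoImplicit false

noncomputable section

namespace Pool.Agent.PP.TW.H20

open Pool.Agent.Helper51_AWC Pool.Agent.Helper79_WRA Pool.Agent.PP Pool.Agent.PP.KF
open Pool.Agent.PP.K9 Pool.Agent.PP.K9.H97 Pool.Agent.PP.H75 Pool.Agent.PP.T3 Pool.Agent.PP.T2
open Pool.Agent.PP.T5 Pool.Agent.PP.TB Pool.Agent.PP.TW
open Pool.Agent.PP.T8 (rs pw fv rd Ip Rv vv Dat Fr)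

attribute [local instance] Ideal.Quotient.field

theorem card_odd (a : ℕ) (ha : 2 ≤ a) :
    ((Finset.range (2 ^ a)).filter (fun j => ¬ 2 ∣ j)).card = 2 ^ (a - 1) := by
  have h1 : (Finset.range (2 ^ a)).filter (fun j => ¬ 2 ∣ j) =
      (Finset.range (2 ^ (a - 1))).image (fun k => 2 * k + 1) := by
    have h2 : 2 ^ a = 2 * 2 ^ (a - 1) := by
      rw [← pow_succ']
      congr 1
      omega
    ext j
    simp only [Finset.mem_filter, Finset.mem_range, Finset.mem_image]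
    constructor
    · rintro ⟨h3, h4⟩
      exact ⟨j / 2, by omega, by omega⟩
    · rintro ⟨k, h3, h4⟩
      constructor <;> omega
  rw [h1, Finset.card_image_of_injective _ (fun x y h => by
    have h' : 2 * x + 1 = 2 * y + 1 := h
    omega), Finset.card_range]

theorem bws (hRGW : RgwStmt) (hDOR : T8.DorStmt) : BwsStmt := by
  classical
  intro M _ hM G _ _ a e V γ b d c ε y w hS s hs
  obtain ⟨r1, r2, r3, r4⟩ := hRGW M hM G a e V γ b d c ε y w hS
  have _i : Fintype G := Fintype.ofFinite G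
  have hA : (Irr G).Finite := irr_finite'
  have conv : ∀ f : (G → ℂ) → ℂ, ∑ᶠ χ ∈ Irr G, f χ = ∑ χ ∈ hA.toFinset, f χ := fun f =>
    finsum_mem_eq_finite_toFinset_sum f hA
  obtain ⟨J, hJ⟩ : ∃ J, J = (Finset.range (2 ^ a)).filter (fun j => ¬ 2 ∣ j) := ⟨_, rfl⟩
  obtain ⟨I, hI⟩ : ∃ I, I = J ×ˢ Finset.range 2 := ⟨_, rfl⟩
  obtain ⟨co, hco⟩ : ∃ co : ℕ × ℕ → ℂ, ∀ p, co p = if p.2 = 0 then 1 else (s : ℂ) :=
    ⟨_, fun _ => rfl⟩
  obtain ⟨v, hv⟩ : ∃ v : ℕ × ℕ → (G → ℂ) → ℂ, ∀ p χ, v p χ = vv M b d (y ^ p.1 * w ^ p.2) χ :=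
    ⟨_, fun _ _ => rfl⟩
  have hJm : ∀ j ∈ J, j < 2 ^ a ∧ ¬ 2 ∣ j := by
    intro j hj
    rw [hJ, Finset.mem_filter, Finset.mem_range] at hj
    exact hj
  have hIm : ∀ p ∈ I, p.1 < 2 ^ a ∧ ¬ 2 ∣ p.1 ∧ p.2 < 2 := by
    intro p hp
    rw [hI, Finset.mem_product, Finset.mem_range] at hp
    exact ⟨(hJm _ hp.1).1, (hJm _ hp.1).2, hp.2⟩
  have hcc : ∀ p, co p * starRingEnd ℂ (co p) = 1 := by
    intro p
    rw [hco]
    split_ifs with h
    · simp
    · rcases hs with rfl | rfl <;> simp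
  have hW : ∀ χ, ∑ j ∈ J, (vv M b d (y ^ j) χ + s * vv M b d ((y * w) ^ j) χ) =
      ∑ p ∈ I, co p * v p χ := by
    intro χ
    rw [hI, Finset.sum_product]
    refine Finset.sum_congr rfl fun j hj => ?_
    rw [Finset.sum_range_succ, Finset.sum_range_succ, Finset.sum_range_zero, hco, hco, hv, hv]
    rw [r4 j (hJm j hj).2]
    simp
  have horth : ∀ p ∈ I, ∀ q ∈ I, ∑ χ ∈ hA.toFinset, v p χ * starRingEnd ℂ (v q χ) =
      if p = q then (Nat.card V : ℂ) else 0 := by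
    intro p hp q hq
    obtain ⟨p1, p2, p3⟩ := hIm p hp
    obtain ⟨q1, q2, q3⟩ := hIm q hq
    have hD := hDOR 2 M hM G e V γ b d c ε hS.dat (y ^ p.1 * w ^ p.2) (y ^ q.1 * w ^ q.2)
      (r1 _ _ p2) (r1 _ _ q2)
    simp only [hv]
    rw [← conv]
    by_cases hpq : p = q
    · rw [if_pos hpq]
      exact hD.1 ⟨1, one_mem _, by rw [hpq]; group⟩
    · rw [if_neg hpq]
      refine hD.2 fun ⟨t, ht, h⟩ => hpq ?_
      have h1 := r2 q.1 p.1 q.2 p.2 q2 p2 t ht h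
      obtain ⟨h2, h3⟩ := r3 q.1 p.1 q.2 p.2 h1
      exact Prod.ext (h2.eq_of_lt_of_lt q1 p1).symm (h3.eq_of_lt_of_lt q3 p3).symm
  have hcard : (I.card : ℂ) = 2 ^ a := by
    have h1 : I.card = 2 ^ a := by
      rw [hI, Finset.card_product, Finset.card_range, hJ, card_odd a hS.le, ← pow_succ]
      congr 1
      have := hS.le
      omega
    rw [h1]
    push_cast
    rfl
  have h1 : ∑ χ ∈ hA.toFinset, (∑ p ∈ I, co p * v p χ) * starRingEnd ℂ (∑ p ∈ I, co p * v p χ) =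
      (2 ^ a : ℂ) * Nat.card V := by
    have e1 : ∀ χ : G → ℂ, (∑ p ∈ I, co p * v p χ) * starRingEnd ℂ (∑ p ∈ I, co p * v p χ) =
        ∑ p ∈ I, ∑ q ∈ I, co p * starRingEnd ℂ (co q) * (v p χ * starRingEnd ℂ (v q χ)) := by
      intro χ
      rw [map_sum, Finset.sum_mul_sum]
      refine Finset.sum_congr rfl fun p _ => Finset.sum_congr rfl fun q _ => ?_
      rw [map_mul]
      ring
    rw [Finset.sum_congr rfl fun χ _ => e1 χ, Finset.sum_comm]
    have e2 : ∀ p ∈ I, ∑ χ ∈ hA.toFinset, ∑ q ∈ I,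
        co p * starRingEnd ℂ (co q) * (v p χ * starRingEnd ℂ (v q χ)) = (Nat.card V : ℂ) := by
      intro p hp
      rw [Finset.sum_comm, Finset.sum_eq_single p]
      · rw [← Finset.mul_sum, horth p hp p hp, if_pos rfl, hcc, one_mul]
      · intro q hq hqp
        rw [← Finset.mul_sum, horth p hp q hq, if_neg (Ne.symm hqp), mul_zero]
      · intro h
        exact absurd hp h
    rw [Finset.sum_congr rfl e2, Finset.sum_const, nsmul_eq_mul, hcard]
  rw [finsum_mem_eq_finite_toFinset_sum _ hA]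
  have h2 : ((∑ χ ∈ hA.toFinset, Complex.normSq (∑ j ∈ (Finset.range (2 ^ a)).filter
      (fun j => ¬ 2 ∣ j), (vv M b d (y ^ j) χ + s * vv M b d ((y * w) ^ j) χ)) : ℝ) : ℂ) =
      ((2 ^ a * Nat.card V : ℝ) : ℂ) := by
    rw [Complex.ofReal_sum]
    push_cast
    rw [← h1]
    refine Finset.sum_congr rfl fun χ _ => ?_
    rw [← hJ, hW χ]
    exact (Complex.mul_conj _).symm
  exact_mod_cast h2

end Pool.Agent.PP.TW.H20
end
end -- Pool.Agent.Helper20_ATW.BWS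

section -- Pool.Agent.Helper30_ATW.TWA

/-!
# Squad ATW, row TWA: the main theorem for block idempotents, the prime 2
-/

open scoped BigOperators

noncomputable section

namespace Pool.Agent.PP.TW.H30

open Pool.Agent.Helper51_AWC Pool.Agent.Helper79_WRA Pool.Agent.PP Pool.Agent.PP.KF
open Pool.Agent.PP.K9 Pool.Agent.PP.K9.H97 Pool.Agent.PP.H75 Pool.Agent.PP.T3 Pool.Agent.PP.T2

attribute [local instance] Ideal.Quotient.field

/-- the image of a subgroup with two generators has two generators -/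
theorem gen2 {G A : Type} [Group G] [Group A] (V : Subgroup G) (V' : Subgroup A)
    (π : V →* V') (hπ : Function.Surjective π) (h : ∃ x y : G, V = Subgroup.closure {x, y}) :
    ∃ x y : A, V' = Subgroup.closure {x, y} := by
  obtain ⟨x, y, hxy⟩ := h
  have hx : x ∈ V := by
    rw [hxy]
    exact Subgroup.subset_closure (by simp)
  have hy : y ∈ V := by
    rw [hxy]
    exact Subgroup.subset_closure (by simp)
  refine ⟨(π ⟨x, hx⟩ : A), (π ⟨y, hy⟩ : A), ?_⟩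
  have h1 : Subgroup.closure ({⟨x, hx⟩, ⟨y, hy⟩} : Set V) = ⊤ := by
    have h2 : (Subgroup.closure ({⟨x, hx⟩, ⟨y, hy⟩} : Set V)).map V.subtype = V := by
      rw [MonoidHom.map_closure, Set.image_pair]
      exact hxy.symm
    rw [eq_top_iff]
    intro v _
    have h3 : (v : G) ∈ (Subgroup.closure ({⟨x, hx⟩, ⟨y, hy⟩} : Set V)).map V.subtype := by
      rw [h2]
      exact v.2
    obtain ⟨w, hw, hwv⟩ := h3
    rwa [← Subtype.ext hwv]
  have h4 : (⊤ : Subgroup V).map (V'.subtype.comp π) = V' := by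
    ext z
    constructor
    · rintro ⟨v, -, rfl⟩
      exact (π v).2
    · intro hz
      obtain ⟨v, hv⟩ := hπ ⟨z, hz⟩
      exact ⟨v, Subgroup.mem_top _, by rw [MonoidHom.comp_apply, hv]; rfl⟩
  calc V' = (⊤ : Subgroup V).map (V'.subtype.comp π) := h4.symm
    _ = (Subgroup.closure ({⟨x, hx⟩, ⟨y, hy⟩} : Set V)).map (V'.subtype.comp π) := by rw [h1]
    _ = Subgroup.closure {(π ⟨x, hx⟩ : A), (π ⟨y, hy⟩ : A)} := by
      rw [MonoidHom.map_closure, Set.image_pair]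
      rfl

/-- TWA -/
theorem twa (hLW2 : Lw2Stmt) (hFST : FstStmt) (hTES : TesStmt) (hDVX : DvxStmt) : TwaStmt := by
  intro M _ hM a ha
  have hp2 : Nat.Prime 2 := Nat.prime_two
  have hF : GoodF 2 (FF M) := H50.fld 2 hp2 M hM
  suffices hmain : ∀ n : ℕ, ∀ (G : Type) [Group G] [Finite G], Nat.card G = n →
      ∀ (e : G → FF M) (V : Subgroup G) (γ : G → FF M), Ld 2 e V γ →
      Monoid.exponent V = 2 ^ a → (∃ x y : G, V = Subgroup.closure {x, y}) →
      YY 2 ⊤ e = 0 by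
    intro G _ _ e V γ h1 h2 h3
    exact hmain _ G rfl e V γ h1 h2 h3
  intro n
  induction n using Nat.strong_induction_on with
  | _ n ih =>
  intro G _ _ hn e V γ hL hexp hgen
  by_cases hO : opCore 2 G = ⊥
  swap
  · exact H96.yzr 2 (FF M) hp2 G ⊤ inferInstance (opCore_top_ne rfl hO) e
  have hIh : Ih M 2 a (Nat.card G) V (ix V γ) := by
    intro A _ _ hA f V' γ' hL' he hπ hi
    obtain ⟨π, hπ⟩ := hπ
    exact ih (Nat.card A) (hn ▸ hA) A rfl f V' γ' hL' he (gen2 V V' π hπ hgen)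
  obtain ⟨f, hf⟩ := hFST 2 M hM G e V γ hL (2 ^ (a - 1))
  have hpos : 0 < a := by omega
  have h1 := hTES 2 M hM G e V γ hL a hpos hexp _ rfl f hf hIh
  set U : Subgroup G := Uw (2 ^ (a - 1)) V with hU
  have hVX : V ≤ Subgroup.normalizer (U : Set G) := Subgroup.le_normalizer.trans hf.nle
  have eV : V.subgroupOf (Subgroup.normalizer (U : Set G)) ≃* V :=
    Subgroup.subgroupOfEquivOfLe hVX
  have hexp' : Monoid.exponent (V.subgroupOf (Subgroup.normalizer (U : Set G))) = 2 ^ a := by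
    rw [← hexp]
    exact Monoid.exponent_eq_of_mulEquiv eV
  have hgen' : ∃ x y : Subgroup.normalizer (U : Set G),
      V.subgroupOf (Subgroup.normalizer (U : Set G)) = Subgroup.closure {x, y} :=
    gen2 V _ eV.symm.toMonoidHom eV.symm.surjective hgen
  have h2 := hLW2 M hM G e V γ hL a ha hexp hgen
  have h3 := hLW2 M hM _ _ _ _ hf.ld a ha hexp' hgen'
  obtain ⟨a1, -⟩ := H3.lbd 2 M hM G e hL.blk.1 hL.blk.2.1
  obtain ⟨b1, -⟩ := H3.lbd 2 M hM _ _ hf.ld.blk.1 hf.ld.blk.2.1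
  have a2 : 1 ≤ ln e := a1
  have b2 : 1 ≤ ln (fun t : Subgroup.normalizer (U : Set G) => f t) := b1
  obtain ⟨z, hz⟩ : ∃ z : V, orderOf z = Monoid.exponent V := by
    let _ : CommGroup V := { (inferInstance : Group V) with
      mul_comm := fun x y => Subtype.ext (hL.ab x x.2 y y.2) }
    exact Monoid.exists_orderOf_eq_exponent (Monoid.ExponentExists.of_finite)
  have hz' : orderOf (z : G) = 2 ^ a := by
    rw [← hexp, ← hz, Subgroup.orderOf_coe]
  have hV : V ≠ ⊥ := by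
    intro hb
    have h5 : (z : G) = 1 := Subgroup.mem_bot.1 (hb ▸ z.2 : (z : G) ∈ (⊥ : Subgroup G))
    rw [h5, orderOf_one] at hz'
    have h6 : 1 < 2 ^ a := Nat.one_lt_pow hpos.ne' hp2.one_lt
    omega
  obtain ⟨χ, hχ, r1, -, r3⟩ := H75.block_case H20.nls H20.brm H63.smt H94.nch
    (H50.dic H20.ibn H20.nls H20.brm) H50.bid H50.chp H50.ldp H50.fld hp2 hM hO hL.blk
    (T3.H38.pos 2 (FF M) hF G e hL.blk V hL.tp.pg hV hL.tp.gd)
  have h4 := hDVX 2 M hM G hO e V γ hL hV χ hχ r1 z z.2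
  rw [hz'] at h4
  rw [h1] at r3
  have h7 : (Nat.card G : ℤ) ≠ 0 := by exact_mod_cast Nat.card_pos.ne'
  have h8 := mul_left_cancel₀ h7 r3
  have h9 : (ln e : ℤ) - ln (fun t : Subgroup.normalizer (U : Set G) => f t) = 0 := by
    rw [h8] at h4
    refine Int.eq_zero_of_abs_lt_dvd h4 ?_
    rw [abs_lt]
    push_cast
    have h2' : (ln e : ℤ) ≤ (2 : ℤ) ^ a := by exact_mod_cast h2
    have h3' : (ln (fun t : Subgroup.normalizer (U : Set G) => f t) : ℤ) ≤ (2 : ℤ) ^ a := by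
      exact_mod_cast h3
    have a2' : (1 : ℤ) ≤ (ln e : ℤ) := by exact_mod_cast a2
    have b2' : (1 : ℤ) ≤ (ln (fun t : Subgroup.normalizer (U : Set G) => f t) : ℤ) := by
      exact_mod_cast b2
    constructor <;> linarith
  rw [h1, h9, mul_zero]

end Pool.Agent.PP.TW.H30
end
end -- Pool.Agent.Helper30_ATW.TWA

section -- Pool.Agent.Helper45_ATW.LW2

/-!
# Squad ATW, row LW2: the bound for the number of modular characters
-/

open scoped BigOperators

set_option autoImplicit false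

noncomputable section

namespace Pool.Agent.PP.TW.H45

open Pool.Agent.Helper51_AWC Pool.Agent.Helper79_WRA Pool.Agent.PP Pool.Agent.PP.KF
open Pool.Agent.PP.K9 Pool.Agent.PP.K9.H97 Pool.Agent.PP.H75 Pool.Agent.PP.T3 Pool.Agent.PP.T2
open Pool.Agent.PP.T5 Pool.Agent.PP.TB
open Pool.Agent.PP.T8 (rs pw fv rd Ip Rv vv Dat Fr)

attribute [local instance] Ideal.Quotient.field

theorem lw2 (inx : K9.InxStmt) (gtp : GtpStmt) (ln1 : Ln1Stmt) (dat : T8.DatStmt) (pr3 : Pr3Stmt)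
    (fx3 : Fx3Stmt) (st3 : St3Stmt) (nr3 : Nr3Stmt) : Lw2Stmt := by
  intro M _ hM G _ _ e V γ hL a ha hexp hgen
  have hF : GoodF 2 (FF M) := H50.fld 2 Nat.prime_two M hM
  have hix : ¬ 2 ∣ ix V γ :=
    inx 2 M hM G e hL.blk V hL.tp hL.ab γ hL.gam.supp hL.gam.blk hL.und
  rcases gtp (FF M) hF G e V γ hL hix a ha hexp hgen with h1 | h3
  · rw [ln1 2 M hM G e V γ hL h1]
    exact Nat.one_le_two_pow
  · obtain ⟨h3, hfr, hcard, y, w, hy, hoy, hw, hw2, hwy⟩ := h3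
    obtain ⟨b, d, c, ε, hD⟩ := dat 2 M hM G e V γ hL
    obtain ⟨N, hN⟩ := pr3 G
    have hsw : Sw M a e V γ b d c ε y w :=
      { dat := hD, fr := hfr, i3 := h3.le, le := ha, exp := hexp, card := hcard, yV := hy,
        oy := hoy, wV := hw, w2 := hw2, wy := hwy }
    exact (fx3 M hM G N hN e hL.blk.1 (fun y hy hy2 b hb heb g hg =>
      st3 M hM G N hN e V γ hL y hy hy2 b hb heb g hg)).trans
      (nr3 M hM G N hN a e V γ b d c ε y w hsw)

end Pool.Agent.PP.TW.H45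
end
end -- Pool.Agent.Helper45_ATW.LW2

section -- Pool.Agent.Helper65_ATW.STA

/-! Squad ATW, row STA: the theorem of Broué and Puig for an abelian defect group. -/

open scoped BigOperators

noncomputable section

namespace Pool.Agent.PP.TW.H65

open Pool.Agent.Helper51_AWC Pool.Agent.Helper79_WRA Pool.Agent.PP Pool.Agent.PP.KF
open Pool.Agent.PP.K9 Pool.Agent.PP.K9.H97 Pool.Agent.PP.H75 Pool.Agent.PP.T3 Pool.Agent.PP.T2
open Pool.Agent.PP.T5 Pool.Agent.PP.TB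

attribute [local instance] Ideal.Quotient.field

/-- STA -/
theorem sta (hZlo : T10.ZloStmt) (hStr : T10.StrStmt) : StaStmt := by
  intro ℓ _ M _ hM G _ _ e V γ hL
  have hZc : Zc V = V := by
    unfold Zc
    refine le_antisymm inf_le_left (le_inf le_rfl fun x hx => ?_)
    rw [Subgroup.mem_centralizer_iff]
    intro y hy
    exact hL.ab y hy x hx
  have hU : Uw (ℓ ^ 0) (Zc V) = V := by
    rw [hZc]
    unfold Uw
    have : (fun x : G => x ^ ℓ ^ 0) '' (V : Set G) = (V : Set G) := by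
      simp
    rw [this]
    exact Subgroup.closure_eq V
  obtain ⟨b', hb, hlo⟩ := hZlo ℓ M hM G e V γ hL.blk hL.tp hL.gam hL.und 0 (by
    rw [hZc, pow_zero, one_mul])
  rw [hU] at hb hlo
  exact ⟨b', hb, hStr ℓ M hM G e V V γ b' hb hlo⟩

end Pool.Agent.PP.TW.H65
end
end -- Pool.Agent.Helper65_ATW.STA

section -- Pool.Agent.ATW.Asm0

/-!
# Squad ATW: assembly of the rows, up to the rows HCO, AVP, VAL, NR3
-/

open scoped BigOperators

noncomputable section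

namespace Pool.Agent.PP.TW

theorem p3m_ : P3mStmt := H77.p3m

theorem pr3_ : Pr3Stmt := H65.pr3 p3m_

theorem fx3_ : Fx3Stmt := H77.fx3 T2.fxy_ T3.lrk_

theorem st3_ : St3Stmt := H86.st3 T3.dug_ T3.lpw_ T3.fus_ T3.lcj_

theorem ln1_ : Ln1Stmt := H9.ln1 T3.nil_ T8.rg1_ T3.lrk_ K9.rot_

theorem dpv_ : DpvStmt := H65.dpv T3.loc_ T3.lpw_

theorem mmv_ : MmvStmt := H3.mmv ln1_ T3.lsb_ T3.nil_ T8.rg1_ T5.ker_ T3.lrk_

theorem sta_ : StaStmt := H65.sta T10.zlo_ T10.str_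

theorem pyp_ : PypStmt := H53P.pyp_ T8.cpr_

theorem gtp_ : GtpStmt := H76.gtp pyp_

theorem rgw_ : RgwStmt := H84.rgw

theorem ht2_ : Ht2Stmt :=
  H23.ht2 TB.zab_ TB.pjz_ TB.poz_ TB.zcp_ mmv_ T3.inr_ T8.dcg_ T8.nrm_ K9.H34.inx dpv_ T3.loc_

theorem zi2_ : Zi2Stmt := H53.zi2_ p3m_

theorem arw_ : ArwStmt := H32.arw

theorem bws_ : BwsStmt := H20.bws rgw_ T8.dor_

theorem bdv_of (hco : HcoStmt) (avp : AvpStmt) : BdvStmt := H34.bdv hco avp rgw_

theorem lw2_of (nr3 : Nr3Stmt) : Lw2Stmt :=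
  H45.lw2 K9.H34.inx gtp_ ln1_ T8.dat_ pr3_ fx3_ st3_ nr3

theorem twa_of (nr3 : Nr3Stmt) : TwaStmt := H30.twa (lw2_of nr3) T2.fst_ T2.tes_ T2.dvx_

theorem fnz_ : FnzStmt := H74.fnz T2.dza_

end Pool.Agent.PP.TW
end
end -- Pool.Agent.ATW.Asm0

section -- Pool.Agent.Helper61_ATW.HCO

/-!
# HCO: the function of a pair of characters
-/

set_option autoImplicit false
set_option linter.unusedSectionVars false

open scoped BigOperators

noncomputable section

namespace Pool.Agent.PP.TW.H61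

open Pool.Agent.Helper51_AWC Pool.Agent.Helper79_WRA Pool.Agent.PP Pool.Agent.PP.KF
open Pool.Agent.PP.K9 Pool.Agent.PP.K9.H97 Pool.Agent.PP.H75 Pool.Agent.PP.T3 Pool.Agent.PP.T2
open Pool.Agent.PP.T5 Pool.Agent.PP.TB
open Pool.Agent.PP.T8 (rs pw fv rd Ip Rv vv Dat Fr)

attribute [local instance] Ideal.Quotient.field

theorem ivz' (h1 : TB.ZcpStmt) (h2 : T5.KerStmt) (ℓ : ℕ) [Fact ℓ.Prime]
    (M : Ideal (integralClosure ℤ ℂ)) [M.IsMaximal] (hM : (ℓ : integralClosure ℤ ℂ) ∈ M)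
    (G : Type) [Group G] [Finite G] (e : G → FF M) (V Z : Subgroup G) (γ : G → FF M)
    (b : G → G → FF M) (hZ : Zd ℓ e V Z γ b) (N : ℕ) (hNc : N.Coprime (Nat.card G))
    (hNr : ∀ g : G, Reg ℓ g → g ^ N = g) (z : G) (hz : z ∈ Z) (χ : G → ℂ) (hχ : χ ∈ Irr G)
    (hχN : ∀ g, χ (g ^ N) = χ g) (ψ : G → ℂ) (hψ : ψ ∈ Irr G) (hψN : ∀ g, ψ (g ^ N) = ψ g) :
    Az M ℓ V Z γ b χ ψ (z ^ N) = Az M ℓ V Z γ b χ ψ z := by
  rcases eq_or_ne z 1 with rfl | hz1
  · rw [one_pow]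
  have hp : ℓ.Prime := Fact.out
  have hN' : ¬ ℓ ∣ N := by
    have hzV : z ∈ V := hZ.le hz
    obtain ⟨n, hn⟩ := hZ.tp.pg ⟨z, hzV⟩
    have hn' : z ^ ℓ ^ n = 1 := congrArg Subtype.val hn
    obtain ⟨k, -, hk⟩ := (Nat.dvd_prime_pow hp).1 (orderOf_dvd_of_pow_eq_one hn')
    have hk0 : k ≠ 0 := by
      rintro rfl
      rw [pow_zero, orderOf_eq_one_iff] at hk
      exact hz1 hk
    have hd : ℓ ∣ Nat.card G := (dvd_pow_self ℓ hk0).trans (hk ▸ orderOf_dvd_natCard z)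
    intro h
    have h3 := Nat.dvd_gcd h hd
    rw [hNc.gcd_eq_one] at h3
    exact hp.one_lt.ne' (Nat.dvd_one.1 h3)
  obtain ⟨c1, c2, c3⟩ := (h1 ℓ M hM G e V Z γ b hZ).2.1 z hz N hN'
  have hix : Ix (Cu z) (b z) := (hZ.lb z hz).1.bx.ix
  have key : ∀ s ∈ Cu z, Reg ℓ s → ∀ κ ∈ Irr G, (∀ g, κ (g ^ N) = κ g) →
      gv M (Cu z) (z ^ N * s) (b z) κ = gv M (Cu z) (z * s) (b z) κ := by
    intro s hs hsr κ hκ hκN
    rw [h2 ℓ M hM G z (z ^ N) (fun c hc => by
        have h4 : Commute c z := Subgroup.mem_centralizer_singleton_iff.1 hc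
        exact (h4.pow_right N).symm.eq) (b z) hix s hs hsr κ hκ,
      h2 ℓ M hM G z z (fun c hc => (Subgroup.mem_centralizer_singleton_iff.1 hc).symm) (b z) hix
        s hs hsr κ hκ]
    congr 1
    apply finsum_congr
    intro c
    apply finsum_congr_Prop rfl
    rintro ⟨hc, hcr⟩
    congr 1
    have h4 : Commute z c := (Subgroup.mem_centralizer_singleton_iff.1 hc).symm
    rw [← hκN (z * c), h4.mul_pow, hNr c hcr]
  unfold Az
  rw [c1, c2, c3]
  congr 1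
  unfold mm
  congr 1
  apply finsum_congr
  intro s
  apply finsum_congr_Prop rfl
  rintro ⟨hs, hsr⟩
  rw [key s hs hsr χ hχ hχN, key s hs hsr ψ hψ hψN]

theorem hco (hSTA : StaStmt) (hMMV : MmvStmt) (hZCP : TB.ZcpStmt) (hKER : T5.KerStmt)
    (hLOC : T3.LocStmt) : HcoStmt := by
  intro ℓ hℓ M hM hlM G _ _ e V γ b d c ε hD χ hχ ψ hψ
  obtain ⟨b', hZd, hSt⟩ := hSTA ℓ M hlM G e V γ hD.ld
  refine ⟨Az M ℓ V V γ b' χ ψ, hSt χ hχ ψ hψ, ?_, ?_⟩
  · intro u hu
    have hb : b' u = b u := by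
      refine (hLOC ℓ (FF M) (H50.fld ℓ Fact.out M hlM) G e V γ hD.ld u hu.1).2 _ _ ?_ (hD.lc u hu)
      exact ⟨(hZd.lb u hu.1).1.bx, (hZd.lb u hu.1).1.und, (hZd.lb u hu.1).2⟩
    have hc : cz V V γ u = 1 := by
      rw [cz, Subgroup.relIndex_eq_one]
      exact le_inf hu.2.2 inf_le_left
    rw [Az, hb, hc, Nat.cast_one, mul_one]
    exact hMMV ℓ M hlM G e V γ b d c ε hD u hu χ hχ.1 ψ hψ.1
  · intro N hNc hNr hχN hψN v hv
    exact ivz' hZCP hKER ℓ M hlM G e V V γ b' hZd N hNc hNr v hv χ hχ.1 hχN ψ hψ.1 hψN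

end Pool.Agent.PP.TW.H61
end
end -- Pool.Agent.Helper61_ATW.HCO

section -- Pool.Agent.ATW.Asm

/-!
# Squad ATW: assembly, the theorem for block idempotents for the prime 2
-/

open scoped BigOperators

noncomputable section

namespace Pool.Agent.PP.TW

theorem avp_ : AvpStmt := H61.avp

theorem hco_ : HcoStmt := H61.hco sta_ mmv_ TB.zcp_ T5.ker_ T3.loc_

theorem val_ : ValStmt := H61.val T3.inr_ dpv_ zi2_ ht2_

theorem bdv_ : BdvStmt := bdv_of hco_ avp_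

theorem nr3_ : Nr3Stmt := H61.nr3 val_ bdv_ arw_ bws_ rgw_

theorem twa_ : TwaStmt := twa_of nr3_

end Pool.Agent.PP.TW
end
end -- Pool.Agent.ATW.Asm

section -- Pool.Agent.ATW.TtOdd

/-!
# Squad ATW: the theorem for block idempotents for odd primes, from squad AT12
-/

noncomputable section

namespace Pool.Agent.PP.TW

open Pool.Agent.Helper51_AWC Pool.Agent.Helper79_WRA Pool.Agent.PP Pool.Agent.PP.KF
open Pool.Agent.PP.K9 Pool.Agent.PP.T3

attribute [local instance] Ideal.Quotient.field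

theorem tt_of (tca : T12.TcaStmt) (twa : TwaStmt) : ∀ (ℓ : ℕ) [Fact ℓ.Prime], Tt ℓ := by
  intro ℓ hℓ
  by_cases h2 : ℓ = 2
  · subst h2
    exact twa
  · intro M _ hM a ha G _ _ e V γ hL hexp hgen
    exact tca ℓ M hM h2 a G e V γ hL (Or.inr ⟨ha, hexp, hgen⟩)

end Pool.Agent.PP.TW
end
end -- Pool.Agent.ATW.TtOdd

section -- Pool.Agent.ATW.AsmT

/-!
# The theorem for block idempotents, two-generator abelian defect groups, all primes
-/

noncomputable section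

namespace Pool.Agent.PP.TW

open Pool.Agent.Helper51_AWC Pool.Agent.Helper79_WRA Pool.Agent.PP Pool.Agent.PP.KF
open Pool.Agent.PP.K9 Pool.Agent.PP.T3

theorem tt_ : ∀ (ℓ : ℕ) [Fact ℓ.Prime], Tt ℓ := tt_of T12.tca_ twa_

end Pool.Agent.PP.TW
end
end -- Pool.Agent.ATW.AsmT
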