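import Pool.Agent.Helper12_AWB.B214
import Pool.Agent.Helper12_AWB.B223
import Pool.Agent.Helper12_AWB.B225
import Pool.Agent.Helper12_AWB.B226
import Pool.Agent.Helper12_AWB.B230
import Pool.Agent.Helper12_AWB.B231
import Pool.Agent.Helper12_AWB.B232
import Pool.Agent.Helper12_AWB.B234
import Pool.Agent.Helper12_AWB.B265
import Pool.Agent.Helper12_AWB.B270
import Pool.Agent.Helper12_AWB.B272
import Pool.Agent.Helper12_AWB.B274
import Pool.Agent.Helper12_AWB.B278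
import Pool.Agent.Helper12_AWB.B279
import Pool.Agent.Helper12_AWB.B283
import Pool.Agent.Helper12_AWB.B288
import Pool.Agent.Helper12_AWB.B289
import Pool.Agent.Helper12_AWB.B292

/-!
# Merged copies (generated) of the modules

* `Pool.Agent.Helper38_ASE.RFH`
* `Pool.Agent.Helper38_ASE.RFN`
* `Pool.Agent.Helper40_ASO.LBG`
* `Pool.Agent.Helper43_ASO.Asm`
* `Pool.Agent.Helper43_ASE.AsmC`
* `Pool.Agent.Helper46_ASE.RFL`
* `Pool.Agent.Helper64_ASD.RWD`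
* `Pool.Agent.Helper69_ASE.LNC`
* `Pool.Agent.Helper98_ASE.AsmS`
* `Pool.Agent.Helper98_ASE.AsmR`
-/

set_option autoImplicit false

section -- Pool.Agent.Helper38_ASE.RFH

/-!
# Squad ASE, row RFH: the fields `e3`, `e4`, `e9`, `h1` at a reflection line
-/

open scoped BigOperators

set_option autoImplicit false
set_option linter.unusedSectionVars false

noncomputable section

namespace Pool.Agent.PP.SE.H38

open Pool.Agent.Helper51_AWC Pool.Agent.Helper79_WRA Pool.Agent.PP Pool.Agent.PP.KF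
open Pool.Agent.PP.K9 Pool.Agent.PP.K9.H97 Pool.Agent.PP.H75 Pool.Agent.PP.T3 Pool.Agent.PP.SO
open Pool.Agent.PP.SD

attribute [local instance] Ideal.Quotient.field

section local_ring

variable {M : Ideal (integralClosure ℤ ℂ)} [M.IsMaximal]

/-- natural numbers prime to `ℓ` are units of the local ring -/
theorem inv_mem {ℓ : ℕ} (hℓ : ℓ.Prime)
    (hM : (ℓ : integralClosure ℤ ℂ) ∈ M) {n : ℕ} (hn : ¬ ℓ ∣ n) : ((n : ℂ))⁻¹ ∈ RM M := by
  have h1 : rr M ((n : ℤ) : ℂ) ≠ 0 := by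
    intro h
    exact hn (by exact_mod_cast (dvd_of_rr hℓ hM).1 h)
  have h2 := (inv_RM (rr_int (M := M) (n : ℤ)).1 h1).1
  simpa using h2

/-- rational numbers with denominator prime to `ℓ` are in the local ring -/
theorem rl_mem {ℓ : ℕ} [Fact ℓ.Prime]
    (hM : (ℓ : integralClosure ℤ ℂ) ∈ M) {q : ℚ} (hq : q ∈ SOR.Rl ℓ) : (q : ℂ) ∈ RM M := by
  have h1 : ¬ ℓ ∣ q.den := hq
  rw [Rat.cast_def, div_eq_mul_inv]
  exact Subring.mul_mem _ (intCast_mem (RM M) _) (inv_mem Fact.out hM h1)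

/-- `1 + ℓ q` is not zero -/
theorem rl_ne {ℓ : ℕ} [Fact ℓ.Prime] {q : ℚ} (hq : q ∈ SOR.Rl ℓ) : (1 + ℓ * q : ℚ) ≠ 0 := by
  have hℓ : ℓ.Prime := Fact.out
  have h1 : ¬ ℓ ∣ q.den := hq
  intro h
  have hd : (q.den : ℚ) ≠ 0 := by exact_mod_cast q.den_nz
  have h2 : (q.den : ℚ) + ℓ * q.num = 0 := by
    have h3 : (q : ℚ) * q.den = q.num := Rat.mul_den_eq_num q
    have h4 : (q.den : ℚ) * (1 + ℓ * q) = q.den + ℓ * q.num := by
      rw [← h3]; ring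
    rw [← h4, h, mul_zero]
  have h5 : ((q.den : ℤ) + ℓ * q.num : ℤ) = 0 := by exact_mod_cast h2
  have h6 : (ℓ : ℤ) ∣ (q.den : ℤ) := by
    have : (q.den : ℤ) = ℓ * (-q.num) := by linarith
    rw [this]
    exact dvd_mul_right _ _
  exact h1 (by exact_mod_cast h6)

/-- `(1 + ℓ q)⁻¹` is in the local ring -/
theorem rl_inv {ℓ : ℕ} [Fact ℓ.Prime]
    (hM : (ℓ : integralClosure ℤ ℂ) ∈ M) {q : ℚ} (hq : q ∈ SOR.Rl ℓ) :
    (((1 + ℓ * q : ℚ) : ℂ))⁻¹ ∈ RM M := by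
  have hℓ : ℓ.Prime := Fact.out
  have h1 : ¬ ℓ ∣ q.den := hq
  have hd : (q.den : ℂ) ≠ 0 := by exact_mod_cast q.den_nz
  have hn : ¬ (ℓ : ℤ) ∣ ((q.den : ℤ) + ℓ * q.num) := by
    intro h
    have h2 : (ℓ : ℤ) ∣ (q.den : ℤ) := (Int.dvd_add_left (Dvd.intro _ rfl)).1 h
    exact h1 (by exact_mod_cast h2)
  have h3 : (((1 + ℓ * q : ℚ) : ℂ))⁻¹ = (q.den : ℂ) * (((q.den : ℤ) + ℓ * q.num : ℤ) : ℂ)⁻¹ := by
    have h4 : (((1 + ℓ * q : ℚ) : ℂ)) = (((q.den : ℤ) + ℓ * q.num : ℤ) : ℂ) * (q.den : ℂ)⁻¹ := by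
      push_cast
      rw [show (q : ℂ) = (q.num : ℂ) / (q.den : ℂ) from Rat.cast_def q]
      field_simp
    rw [h4, mul_inv, inv_inv, mul_comm]
  rw [h3]
  refine Subring.mul_mem _ (natCast_mem (RM M) _) ?_
  have h5 : rr M (((q.den : ℤ) + ℓ * q.num : ℤ) : ℂ) ≠ 0 := by
    intro h
    exact hn ((dvd_of_rr hℓ hM).1 h)
  exact (inv_RM (rr_int (M := M) _).1 h5).1

theorem sgn_mem {e : ℤ} (he : e = 1 ∨ e = -1) : (e : ℂ) ∈ RM M ∧ (e : ℂ) * e = 1 := by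
  rcases he with rfl | rfl
  · refine ⟨by rw [Int.cast_one]; exact one_mem _, by norm_num⟩
  · refine ⟨by rw [Int.cast_neg, Int.cast_one]; exact neg_mem (one_mem _), by norm_num⟩

end local_ring

section geo

variable {V₀ : Type} [CommGroup V₀] [Finite V₀] {ℓ : ℕ} [Fact ℓ.Prime]
  {E₀ : Subgroup (MulAut V₀)}

theorem ns_ndvd (hF : Fq ℓ V₀ E₀) (W : Subgroup V₀) : ¬ ℓ ∣ nS E₀ W := by
  intro h
  have h1 : St E₀ W ≤ E₀ := fun σ hσ => hσ.1
  exact hF.cp (h.trans (Subgroup.card_dvd_of_le h1))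

theorem rw_top (hF : Fq ℓ V₀ E₀) : Rw E₀ (⊤ : Subgroup V₀) := by
  refine ⟨?_, fun σ _ h => MulEquiv.ext fun v => h v (Subgroup.mem_top v)⟩
  intro h
  have hℓ : ℓ.Prime := Fact.out
  have h1 : Nat.card (⊤ : Subgroup V₀) = 1 := by rw [h]; simp
  rw [Subgroup.card_top, hF.cd] at h1
  have := hℓ.one_lt
  nlinarith

end geo

/-- the arithmetic of `h1` -/
theorem h1_aux {M : Ideal (integralClosure ℤ ℂ)} [M.IsMaximal] {e : ℤ} (he : e = 1 ∨ e = -1)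
    {w d n t x l u : ℂ} (hu0 : u ≠ 0) (h : (e : ℂ) * w * d / (n * t * x) = u)
    (hl : l ≠ 0) (ha : l ^ 2 * d / t ∈ RM M) (ha' : t / (l ^ 2 * d) ∈ RM M)
    (hu : u ∈ RM M) (hu' : u⁻¹ ∈ RM M) (hn : n ∈ RM M) (hn' : n⁻¹ ∈ RM M) :
    l ^ 2 * x / w ∈ RM M ∧ w / (l ^ 2 * x) ∈ RM M := by
  obtain ⟨hem, hee⟩ := sgn_mem (M := M) he
  have h1 : (e : ℂ) * w * d ≠ 0 := by
    intro h0
    rw [h0, zero_div] at h
    exact hu0 h.symm
  have h2 : n * t * x ≠ 0 := by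
    intro h0
    rw [h0, div_zero] at h
    exact hu0 h.symm
  have hw : w ≠ 0 := fun h0 => h1 (by rw [h0]; ring)
  have hd : d ≠ 0 := fun h0 => h1 (by rw [h0]; ring)
  have hn0 : n ≠ 0 := fun h0 => h2 (by rw [h0]; ring)
  have ht : t ≠ 0 := fun h0 => h2 (by rw [h0]; ring)
  have hx : x ≠ 0 := fun h0 => h2 (by rw [h0]; ring)
  have h3 : (e : ℂ) * w * d = u * (n * t * x) := by
    rw [div_eq_iff h2] at h
    exact h
  have h4 : w * d = (e : ℂ) * u * n * t * x := by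
    linear_combination (e : ℂ) * h3 - w * d * hee
  constructor
  · have : l ^ 2 * x / w = (e : ℂ) * (l ^ 2 * d / t) * n⁻¹ * u⁻¹ := by
      field_simp
      linear_combination -(e : ℂ) * h4 - u * n * t * x * hee
    rw [this]
    exact mul_mem (mul_mem (mul_mem hem ha) hn') hu'
  · have : w / (l ^ 2 * x) = (e : ℂ) * u * n * (t / (l ^ 2 * d)) := by
      field_simp
      linear_combination h4
    rw [this]
    exact mul_mem (mul_mem (mul_mem hem hu) hn) ha'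

theorem rfh (val : ValStmt) (dgd : SD.DgdStmt) (vxm : VxmStmt) : RfhStmt := by
  intro ℓ _ M _ hM h2 V₀ G _ _ _ _ E₀ hF B hB W hW N e O hC D hD
  have hℓ : ℓ.Prime := Fact.out
  have hl0 : (ℓ : ℂ) ≠ 0 := by exact_mod_cast hℓ.ne_zero
  obtain ⟨-, ⟨qU, hqU, hU⟩, -, hN, hX⟩ := val ℓ M hM h2 V₀ G E₀ hF B hB W hW N e O hC D hD
  have hsg : ∀ χ ∈ Ch B W, e χ = 1 ∨ e χ = -1 := by
    intro χ hχ
    obtain ⟨-, ⟨-, -, -, ⟨ν, hν, hχν⟩, -⟩, -⟩ := vxm ℓ M hM h2 V₀ G E₀ hF B hB W hW χ hχ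
    exact (hC.lv ν hν).sg χ hχν
  refine ⟨?_, ?_, ?_, ?_⟩
  · intro χ hχ hne c
    by_cases hm : χ ∈ N
    · exact (hN χ hχ hm).2 c
    · exact absurd (hX χ hχ hm).1 hne
  · intro χ hχ
    by_cases hm : χ ∈ N
    · obtain ⟨⟨u, ⟨q, hq, hu⟩, -, h3⟩, -⟩ := hN χ hχ hm
      rw [h3, hu, hU]
      have : (((nS E₀ W * ((1 + ℓ * q) - (1 + ℓ * qU)) : ℚ) : ℂ)) / ℓ =
          ((nS E₀ W * (q - qU) : ℚ) : ℂ) := by
        push_cast
        field_simp
        ring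
      rw [this]
      exact rl_mem hM (mul_mem (natCast_mem _ _) (sub_mem hq hqU))
    · rw [(hX χ hχ hm).1, zero_div]
      exact zero_mem _
  · intro χ hχ
    by_cases hm : χ ∈ N
    · obtain ⟨⟨u, -, -, h3⟩, -⟩ := hN χ hχ hm
      exact ⟨_, h3⟩
    · exact ⟨0, by rw [(hX χ hχ hm).1, Rat.cast_zero]⟩
  · intro χ hχ
    obtain ⟨ha, ha'⟩ := dgd ℓ M hM V₀ G E₀ hF B hB ⊤ (rw_top hF)
    by_cases hm : χ ∈ N
    · obtain ⟨⟨u, ⟨q, hq, hu⟩, h4, -⟩, -⟩ := hN χ hχ hm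
      have hu0 : (u : ℂ) ≠ 0 := by
        rw [hu]
        exact_mod_cast rl_ne hq
      refine h1_aux (hsg χ hχ) hu0 h4 hl0 ha ha' ?_ ?_ (natCast_mem _ _)
        (inv_mem hℓ hM (ns_ndvd hF W))
      · rw [hu]
        exact rl_mem hM (add_mem (one_mem _) (mul_mem (natCast_mem _ _) hq))
      · rw [hu]
        exact rl_inv hM hq
    · have h4 := hD.dU χ hχ hm
      have hu0 : (D.U W : ℂ) ≠ 0 := by
        rw [hU]
        exact_mod_cast rl_ne hqU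
      refine h1_aux (n := 1) (hsg χ hχ) hu0 (by rw [one_mul]; exact h4) hl0 ha ha' ?_ ?_
        (one_mem _) (by rw [inv_one]; exact one_mem _)
      · rw [hU]
        exact rl_mem hM (add_mem (one_mem _) (mul_mem (natCast_mem _ _) hqU))
      · rw [hU]
        exact rl_inv hM hqU

end Pool.Agent.PP.SE.H38
end
end -- Pool.Agent.Helper38_ASE.RFH

section -- Pool.Agent.Helper38_ASE.RFN

/-!
# Squad ASE, row RFN: equivariance of the data at a reflection line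
-/

open scoped BigOperators

set_option autoImplicit false
set_option linter.unusedSectionVars false

noncomputable section

namespace Pool.Agent.PP.SE.H38

open Pool.Agent.Helper51_AWC Pool.Agent.Helper79_WRA Pool.Agent.PP Pool.Agent.PP.KF
open Pool.Agent.PP.K9 Pool.Agent.PP.K9.H97 Pool.Agent.PP.H75 Pool.Agent.PP.T3 Pool.Agent.PP.SO
open Pool.Agent.PP.SD

attribute [local instance] Ideal.Quotient.field

/-- conjugation of functions on `G` -/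
def cg {G : Type} [Group G] (t : G) (χ : G → ℂ) : G → ℂ := fun g => χ (t⁻¹ * g * t)

theorem cg_inj {G : Type} [Group G] (t : G) : Function.Injective (cg t) := by
  intro χ ψ h
  funext g
  have h1 := congrFun h (t * g * t⁻¹)
  have h2 : t⁻¹ * (t * g * t⁻¹) * t = g := by group
  unfold cg at h1
  simpa only [h2] using h1

theorem cg_one {G : Type} [Group G] (t : G) (χ : G → ℂ) : cg t χ 1 = χ 1 := by
  unfold cg
  rw [mul_one, inv_mul_cancel]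

theorem cg_inv {G : Type} [Group G] (t : G) (χ : G → ℂ) (g : G) :
    cg t χ (t * g * t⁻¹)⁻¹ = χ g⁻¹ := by
  unfold cg
  have h : t⁻¹ * (t * g * t⁻¹)⁻¹ * t = g⁻¹ := by group
  rw [h]

theorem rfn (rfl' : RflStmt) (rfm : RfmStmt) (val : ValStmt) (geb : GebStmt) (acb : AcbStmt) :
    RfnStmt := by
  intro ℓ _ M _ hM h2 V₀ G _ _ _ _ E₀ hF B hB W hW σ hσ t ht htv N N' e e' O O' hC hC' hNN D hD hD'
  obtain ⟨hL1, hL2⟩ := rfl' ℓ M hM h2 V₀ G E₀ hF B hB W hW σ hσ t ht htv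
  have hM1 := rfm ℓ M hM h2 V₀ G E₀ hF B hB W hW σ hσ t ht htv N N' e e' O O' hC hC' hNN
  obtain ⟨⟨χ₀, hχ₀, hχ₀N⟩, -⟩ := val ℓ M hM h2 V₀ G E₀ hF B hB W hW N e O hC D hD
  obtain ⟨-, gns, -, -, gpr, -, -, gmp, -, -⟩ := geb ℓ V₀ E₀ σ hσ W
  obtain ⟨-, hac⟩ := acb ℓ M hM h2 V₀ G E₀ hF B hB.toSb
  obtain ⟨-, -, hA, hBij, -, -, hcard, -⟩ := hac W σ hσ
  have hN : ∀ χ ∈ Ch B W, (cg t χ ∈ N' ↔ χ ∈ N) := hNN
  have he : ∀ χ ∈ Ch B W, e' (cg t χ) = e χ := fun χ hχ => (hM1 χ hχ).1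
  have hO : ∀ χ ∈ Ch B W, χ ∉ N → O' (cg t χ) = {s | (fun v => s (σ v)) ∈ O χ} :=
    fun χ hχ => (hM1 χ hχ).2
  have hCh : ∀ χ ∈ Ch B W, cg t χ ∈ Ch B (mp σ W) := fun χ hχ => (hL1 χ hχ).1
  have hacg : ∀ χ ∈ Ch B W, ac B σ χ = cg t χ := fun χ hχ => (hL1 χ hχ).2.1
  have hrq : ∀ χ ∈ Ch B W, ∀ ψ ∈ Ch B W,
      (rq ℓ B (mp σ W) (cg t χ) (cg t ψ) ↔ rq ℓ B W χ ψ) := fun χ hχ => (hL1 χ hχ).2.2.2.1
  have hnu : ∀ χ ∈ Ch B W, ∀ w, nu B (cg t χ) (σ w) = nu B χ w := by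
    intro χ hχ w
    rw [← hacg χ hχ]
    exact (hA χ hχ).2.2.2.1 w
  have hU : D.U (mp σ W) = D.U W := by
    have h1 := hD.dU χ₀ hχ₀ hχ₀N
    have h3 := hD'.dU (cg t χ₀) (hCh χ₀ hχ₀) (fun h => hχ₀N ((hN χ₀ hχ₀).1 h))
    rw [he χ₀ hχ₀, hcard, cg_one, h1] at h3
    exact_mod_cast h3.symm
  refine ⟨hU, ?_, ?_, ?_⟩
  · intro g
    rw [hD'.de, hD.de]
    symm
    refine finsum_mem_eq_of_bijOn (cg t) ⟨?_, (cg_inj t).injOn, ?_⟩ ?_
    · rintro χ ⟨hχ, hm⟩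
      exact ⟨hCh χ hχ, (hN χ hχ).2 hm⟩
    · rintro χ' ⟨hχ', hm⟩
      obtain ⟨χ, hχ, rfl⟩ := hL2 χ' hχ'
      exact ⟨χ, ⟨hχ, (hN χ hχ).1 hm⟩, rfl⟩
    · rintro χ ⟨hχ, hm⟩
      rw [he χ hχ, hcard, cg_one, gns, hU, cg_inv]
  · intro g hg hgW
    have hgσ : σ * g * σ⁻¹ ∈ E₀ := E₀.mul_mem (E₀.mul_mem hσ hg) (E₀.inv_mem hσ)
    have hmp : mp (σ * g * σ⁻¹) (mp σ W) = mp σ W := by
      have h1 := (geb ℓ V₀ E₀ (σ * g * σ⁻¹) hgσ W).2.2.2.2.2.2.2.1 σ hσ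
      have h3 := (geb ℓ V₀ E₀ σ hσ W).2.2.2.2.2.2.2.1 g hg
      rw [h1, inv_mul_cancel_right, ← h3, hgW]
    rw [hD'.df _ hgσ hmp, hD.df _ hg hgW]
    have hacc : ∀ χ ∈ Ch B W, (ac B (σ * g * σ⁻¹) (cg t χ) = cg t χ ↔ ac B g χ = χ) := by
      intro χ hχ
      have h1 : ac B (σ * g * σ⁻¹) (ac B σ χ) = ac B σ (ac B g χ) := by
        have h3 := (hA χ hχ).2.2.1 (σ * g * σ⁻¹) hgσ
        have h4 := ((hac W g hg).2.2.1 χ hχ).2.2.1 σ hσ
        rw [← h3, ← h4, inv_mul_cancel_right]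
      rw [← hacg χ hχ, h1]
      have h5 : ac B g χ ∈ Ch B W := by
        have := ((hac W g hg).2.2.1 χ hχ).1
        rwa [hgW] at this
      exact ⟨fun h => hBij.injOn h5 hχ h, fun h => by rw [h]⟩
    have himg : {χ | χ ∈ Iv B (mp σ W) (fun _ => 1) ∧ χ ∈ N' ∧ ac B (σ * g * σ⁻¹) χ = χ} =
        cg t '' {χ | χ ∈ Iv B W (fun _ => 1) ∧ χ ∈ N ∧ ac B g χ = χ} := by
      ext χ'
      constructor
      · rintro ⟨⟨hχ', hnu'⟩, hm, hfix⟩
        obtain ⟨χ, hχ, rfl⟩ := hL2 χ' hχ'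
        refine ⟨χ, ⟨⟨hχ, ?_⟩, (hN χ hχ).1 hm, (hacc χ hχ).1 hfix⟩, rfl⟩
        intro w hw
        rw [← hnu χ hχ w]
        exact hnu' (σ w) ⟨w, hw, rfl⟩
      · rintro ⟨χ, ⟨⟨hχ, hnu'⟩, hm, hfix⟩, rfl⟩
        refine ⟨⟨hCh χ hχ, ?_⟩, (hN χ hχ).2 hm, (hacc χ hχ).2 hfix⟩
        rintro w ⟨w', hw', rfl⟩
        exact (hnu χ hχ w').trans (hnu' w' hw')
    rw [himg, Set.ncard_image_of_injective _ (cg_inj t)]
  · intro χ hχ ψ hψ
    constructor
    · intro x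
      show D.D (mp σ W) (cg t χ) (σ x) = D.D W χ x
      rw [hD'.dD _ (hCh χ hχ), hD.dD χ hχ, gpr, hnu χ hχ, he χ hχ]
      by_cases hm : χ ∈ N
      · rw [if_pos hm, if_pos ((hN χ hχ).2 hm)]
      · rw [if_neg hm, if_neg (fun h => hm ((hN χ hχ).1 h)), hO χ hχ hm]
        have hsum : ∑ᶠ s ∈ {s : V₀ → ℂ | (fun v => s (σ v)) ∈ O χ}, s (σ x) =
            ∑ᶠ s ∈ O χ, s x := by
          refine finsum_mem_eq_of_bijOn (fun s v => s (σ v)) ⟨fun s hs => hs, ?_, ?_⟩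
            (fun s _ => rfl)
          · intro s _ s' _ h
            funext v
            have h1 := congrFun h (σ⁻¹ v)
            have h3 : σ (σ⁻¹ v) = v := MulAut.apply_inv_self _ σ v
            simp only [h3] at h1
            exact h1
          · intro s hs
            refine ⟨fun v => s (σ⁻¹ v), ?_, ?_⟩
            · show (fun v => s (σ⁻¹ (σ v))) ∈ O χ
              have h3 : (fun v => s (σ⁻¹ (σ v))) = s := by
                funext v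
                rw [MulAut.inv_apply_self]
              rw [h3]
              exact hs
            · funext v
              show s (σ⁻¹ (σ v)) = s v
              rw [MulAut.inv_apply_self]
        rw [hsum]
    · show D.R (mp σ W) (cg t χ) (cg t ψ) = D.R W χ ψ
      rw [hD'.dR _ (hCh χ hχ) _ (hCh ψ hψ), hD.dR χ hχ ψ hψ, he χ hχ, he ψ hψ, gns]
      by_cases hm : χ ∈ N ∧ ψ ∈ N
      · rw [if_pos hm, if_pos ⟨(hN χ hχ).2 hm.1, (hN ψ hψ).2 hm.2⟩]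
        by_cases hr : rq ℓ B W χ ψ
        · rw [if_pos hr, if_pos ((hrq χ hχ ψ hψ).2 hr)]
        · rw [if_neg hr, if_neg (fun h => hr ((hrq χ hχ ψ hψ).1 h))]
      · rw [if_neg hm, if_neg (fun h => hm ⟨(hN χ hχ).1 h.1, (hN ψ hψ).1 h.2⟩)]

end Pool.Agent.PP.SE.H38
end
end -- Pool.Agent.Helper38_ASE.RFN

section -- Pool.Agent.Helper40_ASO.LBG

/-!
Squad ASO, row LBG: the local block of `W ≠ ⊥` has the defect group `V` and inertial index one.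
-/

open scoped BigOperators

noncomputable section

namespace Pool.Agent.PP.SO.H40

open Pool.Agent.Helper51_AWC Pool.Agent.Helper79_WRA Pool.Agent.PP Pool.Agent.PP.KF
open Pool.Agent.PP.K9 Pool.Agent.PP.K9.H97 Pool.Agent.PP.H75 Pool.Agent.PP.T3
open Pool.Agent.PP.T3.H85

attribute [local instance] Ideal.Quotient.field

/-- LBG -/
theorem lbg : LbgStmt := by
  intro ℓ _ M _ hM V₀ G _ _ _ _ E₀ hFr B hB W hW
  have hF : GoodF ℓ (FF M) := H50.fld ℓ Fact.out M hM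
  have hL := hB.ld
  have hLc := hB.lb W
  have hVX : B.i.range ≤ B.C W := by
    rintro _ ⟨v, rfl⟩
    refine Subgroup.mem_centralizer_iff.2 ?_
    rintro _ ⟨w, _, rfl⟩
    rw [← map_mul, ← map_mul, mul_comm]
  have hCX : Subgroup.centralizer (B.i.range : Set G) ≤ B.C W := by
    refine Subgroup.centralizer_le ?_
    rintro _ ⟨w, _, rfl⟩
    exact ⟨w, rfl⟩
  have heC : IsCl (fun t : B.C W => B.e t) := fun x y => hL.blk.1.1 x y
  have hVcard : Nat.card (B.i.range.subgroupOf (B.C W)) = Nat.card B.i.range :=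
    Nat.card_congr (Subgroup.subgroupOfEquivOfLe hVX).toEquiv
  have hVp : IsPGroup ℓ (B.i.range.subgroupOf (B.C W)) :=
    hL.tp.pg.of_equiv (Subgroup.subgroupOfEquivOfLe hVX).symm
  have hTb : Tp ℓ (fun t : B.C W => B.b W t) (B.i.range.subgroupOf (B.C W)) := by
    refine ⟨hVp, gd_of_gam hVX hCX hL.gam hLc.gam, ?_⟩
    intro Q hQ hQb
    have h1 := gd_map (gd_of_mul hF heC hLc.blk.blk.1.1 hLc.und hQ hQb)
    have hcard : Nat.card (Q.map (B.C W).subtype) = Nat.card Q :=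
      (Nat.card_congr (Q.equivMapOfInjective (B.C W).subtype
        (B.C W).subtype_injective).toEquiv).symm
    have h2 := hL.tp.mx _ (hQ.map (B.C W).subtype) h1
    rw [hcard] at h2
    rw [hVcard]
    exact h2
  refine ⟨ld_of hVX hCX hL.ab hLc.blk.blk hL.gam hLc.gam hTb, ?_⟩
  rw [ix_eq hVX hCX hL.gam.supp, Subgroup.relIndex_eq_one]
  intro t ht
  obtain ⟨σ, hσ, hσt⟩ := hB.act t ht.1
  obtain ⟨w, hwW, hw1⟩ := (Subgroup.ne_bot_iff_exists_ne_one).1 hW |>.elim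
    (fun a ha => (⟨(a : V₀), a.2, fun h => ha (Subtype.ext h)⟩ : ∃ w : V₀, w ∈ W ∧ w ≠ 1))
  have hcw : B.i w * t = t * B.i w :=
    Subgroup.mem_centralizer_iff.1 ht.2 (B.i w) ⟨w, hwW, rfl⟩
  have hfix : σ w = w := by
    apply hB.inj
    rw [← hσt w, ← hcw, mul_inv_cancel_right]
  have hσ1 : σ = 1 := by
    by_contra hne
    exact hw1 (hFr.fr σ hσ hne w hfix)
  refine Subgroup.mem_centralizer_iff.2 ?_
  rintro _ ⟨v, rfl⟩
  have h := hσt v
  rw [hσ1, MulAut.one_apply] at h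
  calc B.i v * t = t * B.i v * t⁻¹ * t := by rw [h]
    _ = t * B.i v := by group

end Pool.Agent.PP.SO.H40
end
end -- Pool.Agent.Helper40_ASO.LBG

section -- Pool.Agent.Helper43_ASO.Asm

/-!
# Squad ASO: the statements, closed

`fno_ : FnoStmt`: blocks with abelian defect group of order `ℓ ^ 2` modulo `O_ℓ(G)`, `ℓ ≥ 5`, and an
inertial quotient which acts freely.
-/

noncomputable section

namespace Pool.Agent.PP.SO

open Pool.Agent.PP Pool.Agent.PP.K9 Pool.Agent.PP.T3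

theorem brd_ : BrdStmt := H97.brd
theorem ntm_ : NtmStmt := H10.ntm
theorem gau_ : GauStmt := H27.gau
theorem rty_ : RtyStmt := H70.rty SOR.uni_ SOR.brx_
theorem rtx_ : RtxStmt := H70.rtx rty_
theorem lbu_ : LbuStmt := H89.lbu
theorem lbg_ : LbgStmt := H40.lbg
theorem sye_ : SyeStmt := H1.sye lbu_ lbg_
theorem dgv_ : DgvStmt := H79.dgv hta_
theorem cjt_ : CjtStmt := H69.cjt lbu_
theorem fuw_ : FuwStmt := H76.fuw
theorem iso_ : IsoStmt := H81.iso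
theorem nsv_ : NsvStmt := H33.nsv lbg_ iso_
theorem mul_ : MulStmt := H3.mul nsv_
theorem prj_ : PrjStmt := H59.prj
theorem cng_ : CngStmt := H35.cng prj_ nsv_ dgv_
theorem lac_ : LacStmt := H10L.lac cng_
theorem mbi_ : MbiStmt := H9.mbi
theorem lbs_ : LbsStmt := H62.lbs mbi_
theorem gpr_ : GprStmt := H82.gpr nsv_ fuw_ cjt_
theorem ssl_ : SslStmt := H59.ssl gpr_ nsv_ cjt_
theorem wth_ : WthStmt := H79.wth ssl_ nsv_
theorem w12a_ : W12AStmt := H63.w12a K9.wbo_ nsv_ fuw_ cjt_ mul_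
theorem w12b_ : W12BStmt := H10W.w12b ssl_ nsv_
theorem wze_ : WzeStmt := H65.wze T3.smg_
theorem m12_ : M12Stmt := H25.m12 mbi_ wze_
theorem fin_ : FinStmt := H48.fin lac_ lbs_ mbi_ wth_ w12a_ w12b_ m12_ wze_
theorem ppc_ : PpcStmt := H9P.ppc
theorem cpg_ : CpgStmt := H90.cpg fin_ rtx_ ppc_ homr_
theorem pex_ : PexStmt := H48.pex
theorem inf_ : InfStmt := H3.inf
theorem onb_ : OnbStmt := H86.onb
theorem cmg_ : CmgStmt := H43.cmg
theorem cmi_ : CmiStmt := H76.cmi inf_ onb_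
theorem cmo_ : CmoStmt := H47.cmo
theorem cmb_ : CmbStmt := H15.cmb cmg_ cmi_ cmo_
theorem cmp_ : CmpStmt := H65.cmp cmb_
theorem ltb_ : LTbStmt := H37.ltb
theorem lsm_ : LSmStmt := H35.lsm ltb_
theorem lhf_ : LHfStmt := H13.lhf ltb_ lsm_
theorem lt1_ : LT1Stmt := H56.lt1 lsm_
theorem lid_ : LIdStmt := H35.lid lt1_
theorem lav_ : LAvStmt := H69.lav
theorem lc1_ : LC1Stmt := H45.lc1 lav_
theorem lc2_ : LC2Stmt := H25.lc2 ltb_ lsm_
theorem lcm_ : LCmStmt := H18.lcm ltb_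
theorem lqu_ : LQuStmt := H91.lqu lcm_
theorem lqs_ : LQsStmt := H91.lqs
theorem lc3_ : LC3Stmt := H17.lc3 lqu_ lqs_ lcm_ ltb_
theorem lia_ : LIaStmt := H92.lia lhf_ lid_ lc1_ lc2_ lc3_
theorem rsl_ : RslStmt := H62.rsl
theorem kcp_ : KcpStmt := H67.kcp
theorem km1_ : Km1Stmt := H65.km1 rsl_ kcp_
theorem km2_ : Km2Stmt := H13.km2 rsl_ km1_
theorem kar_ : KarStmt := H84.kar km2_ lia_ kcp_
theorem kcm_ : KcmStmt := H13.kcm cpg_ hco_ kar_
theorem k2b_ : K2bStmt := H7.k2b kcm_ cmp_ pex_ cjt_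
theorem kln_ : KlnStmt := H43.kln T3.loc_ T3.lsb_ T3.rgl_ T8.rg1_ T8.lfr_ T3.co1_ T3.smg_ T3.lrk_ T6.cpl_
theorem esy_ : EsyStmt := H43.esy
theorem s2a_ : S2aStmt := H43.s2a sye_ k2b_ kln_ esy_ T3.nvt_ T8.lfr_ K9.chv_
theorem frd_ : FrdStmt := H43.frd T3.flt_ T2.dza_ T8.qt3_ K9.H34.inx
theorem fno_ : FnoStmt := H43.fno frd_ s2a_ T5.t5a_

end Pool.Agent.PP.SO
end
end -- Pool.Agent.Helper43_ASO.Asm

section -- Pool.Agent.Helper43_ASE.AsmC

/-!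
# Squad ASE, block C: the statements, closed
-/

open scoped BigOperators

noncomputable section

namespace Pool.Agent.PP.SE.H43A

open Pool.Agent.Helper51_AWC Pool.Agent.Helper79_WRA Pool.Agent.PP Pool.Agent.PP.KF
open Pool.Agent.PP.K9 Pool.Agent.PP.K9.H97 Pool.Agent.PP.H75 Pool.Agent.PP.T3 Pool.Agent.PP.SO
open Pool.Agent.PP.SD Pool.Agent.PP.SE

attribute [local instance] Ideal.Quotient.field

/-! ## The rows of ASD -/

theorem lbd : SD.LbdStmt := SD.H25.lbd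
theorem syd : SydStmt := SD.H3.syd lbu_ lbd
theorem cjd : CjdStmt := SD.H69.cjd lbu_
theorem fcd : FcdStmt := SD.H79.fcd T3.smg_
theorem nsd : NsdStmt := SD.H7.nsd lbd
theorem rda : RdaStmt := SD.H49.rda
theorem pml : PmlStmt := SD.H49.pml K9.rot_ T3.lrk_
theorem kld : KldStmt := SD.H77.kld pml lbd T6.cpl_ T3.smg_ T3.loc_ T3.lsb_ T8.lfr_ K9.H3.lbd
theorem lnt : LntStmt := SD.H1.lnt
theorem lnn : LnnStmt := SD.H91.lnn lnt T3.nvt_
theorem lnh : LnhStmt := SD.H15.lnh lnn K9.chv_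
theorem esd : EsdStmt := SD.H20.esd

/-! ## The rows of ASE, block C -/

theorem prb : PrbStmt := SE.H85.prb
theorem mpb : MpbStmt := SE.H9.mpb
theorem czb : CzbStmt := SE.H97.czb fcd
theorem acb : AcbStmt := SE.H94.acb cjd
theorem xwd : XwdStmt := SE.H30.xwd syd cjd
theorem lmb : LmbStmt := SE.H49.lmb kld lnh lnn rda K9.H3.lbd
theorem f1s : F1sStmt := SE.H65.f1s
theorem chg : ChgStmt := SE.H49.chg nsd syd cjd
theorem lmc : LmcStmt := SE.H31.lmc xwd lmb f1s chg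
theorem fxs : FxsStmt := SE.H92.fxs xwd lmb f1s
theorem fxl : FxlStmt := SE.H35.fxl fxs
theorem lme : LmeStmt := SE.H91.lme lmb lmc
theorem fxe : FxeStmt := SE.H60.fxe fxl
theorem sxa : SxaStmt := SE.H63.sxa
theorem sxl : SxlStmt := SE.H52.sxl
theorem cen : CenStmt := SE.H2.cen
theorem peg : PegStmt := SE.H8.peg
theorem bre : BreStmt := SE.H13.bre
theorem tpg : TpgStmt := SE.H62.tpg
theorem llw : LlwStmt := SE.H2.llw prb
theorem sxb : SxbStmt := SE.H47.sxb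
theorem cgs : CgsStmt := SE.H2.cgs
theorem chz : ChzStmt := SE.H8.chz

theorem blg : BlgStmt := SE.H91.blg bre SO.inf_
theorem ind : IndStmt := SE.H91.ind
theorem vnu : VnuStmt := SE.H42.vnu cen blg chz
theorem sbg : SbgStmt := SE.H97.sbg cen blg tpg
theorem sdg : SdgStmt := SE.H42.sdg sbg cen blg chz

/-! ## The rows which depend on TGG -/

theorem lng' (tgg : TggStmt) : LngStmt := SE.H16.lng sbg blg tgg lmb
theorem xcg' (tgg : TggStmt) : XcgStmt := SE.H67.xcg cen blg tgg ind vnu llw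
theorem exg' (tgg : TggStmt) : ExgStmt := SE.H8.exg cen blg ind vnu llw (xcg' tgg)
theorem cge' (tgg : TggStmt) : CgeStmt :=
  SE.H74.cgf sxa sxl sxb cgs cen peg sdg tgg (lng' tgg) (xcg' tgg) (exg' tgg)
theorem fxc' (tgg : TggStmt) : FxcStmt := SE.H43.fxc (cge' tgg) fxe czb acb
theorem xce' (tgg : TggStmt) : XceStmt := SE.H81.xch (fxc' tgg) prb mpb acb

/-! ## The final deduction -/

theorem kae' (tgg : TggStmt) (rsx : RsxStmt) (cme : CmeStmt) : KaeStmt :=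
  SE.H4.kae rsx cme lme fxe (cge' tgg) (xce' tgg) kld SO.pex_
theorem yye' (kae : KaeStmt) : YyeStmt :=
  SE.H43Y.yye2 kae lme lmb kl_ K9.H3.lbd K9.chv_ T3.nvt_
theorem s2f' (tgg : TggStmt) (rsx : RsxStmt) (cme : CmeStmt) : S2fStmt :=
  SE.H60.s2f (yye' (kae' tgg rsx cme)) esd syd

/-! ## Closed forms -/

theorem tgg : TggStmt := SE.H42.tgg cen bre
theorem lng : LngStmt := lng' tgg
theorem xcg : XcgStmt := xcg' tgg
theorem exg : ExgStmt := exg' tgg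
theorem cge : CgeStmt := cge' tgg
theorem fxc : FxcStmt := fxc' tgg
theorem xce : XceStmt := xce' tgg
theorem kae (rsx : RsxStmt) (cme : CmeStmt) : KaeStmt := kae' tgg rsx cme
theorem yye (rsx : RsxStmt) (cme : CmeStmt) : YyeStmt := yye' (kae rsx cme)
theorem s2f (rsx : RsxStmt) (cme : CmeStmt) : S2fStmt := s2f' tgg rsx cme

end Pool.Agent.PP.SE.H43A
end
end -- Pool.Agent.Helper43_ASE.AsmC

section -- Pool.Agent.Helper46_ASE.RFL

/-!
# Squad ASE, row RFL (transport of `Nn`), helper46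
-/

open scoped BigOperators

set_option linter.unusedSectionVars false

noncomputable section

namespace Pool.Agent.PP.SE.H46

open Pool.Agent.Helper51_AWC Pool.Agent.Helper79_WRA Pool.Agent.PP Pool.Agent.PP.KF
open Pool.Agent.PP.K9 Pool.Agent.PP.K9.H97 Pool.Agent.PP.H75 Pool.Agent.PP.T3 Pool.Agent.PP.SO
open Pool.Agent.PP.SD

attribute [local instance] Ideal.Quotient.field

section tools

variable {V₀ G : Type} [CommGroup V₀] [Group G] {ℓ : ℕ}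
  {M : Ideal (integralClosure ℤ ℂ)} [M.IsMaximal] {B : Bk (FF M) V₀ G}

/-- conjugation of functions -/
def cc (t : G) (a : G → ℂ) : G → ℂ := fun g => a (t⁻¹ * g * t)

theorem cc_conj (t : G) (a : G → ℂ) (g : G) : cc t a (t * g * t⁻¹) = a g := by
  change a (t⁻¹ * (t * g * t⁻¹) * t) = a g
  congr 1
  group

theorem ch_conj {W : Subgroup V₀} {χ : G → ℂ} (hχ : χ ∈ Ch B W) {h : G} (hh : h ∈ B.C W) (y : G) :
    χ (h * y * h⁻¹) = χ y := by
  by_cases hy : y ∈ B.C W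
  · exact irr_conj hχ.2.1 (⟨y, hy⟩ : B.C W) ⟨h, hh⟩
  · have hy' : h * y * h⁻¹ ∉ B.C W := by
      intro h'
      apply hy
      have h2 := (B.C W).mul_mem ((B.C W).mul_mem ((B.C W).inv_mem hh) h') hh
      have e : h⁻¹ * (h * y * h⁻¹) * h = y := by group
      rwa [e] at h2
    rw [hχ.1 y hy, hχ.1 _ hy']

theorem reg_conj (t g : G) : Reg ℓ (t * g * t⁻¹) ↔ Reg ℓ g := by
  unfold Reg
  have h1 : t * g * t⁻¹ = MulAut.conj t g := rfl
  rw [h1, MulEquiv.orderOf_eq]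

/-- the values -/
theorem vx_conj {σ : MulAut V₀} {t : G} (hact : ∀ v, t * B.i v * t⁻¹ = B.i (σ v))
    (hbh : ∀ x, bh B ⊤ (t * x * t⁻¹) = bh B ⊤ x) (χ : G → ℂ) (x : V₀) :
    vx B (cc t χ) (σ x) = vx B χ x := by
  unfold vx
  congr 1
  rw [← finsum_comp_equiv (MulAut.conj t).toEquiv]
  refine finsum_congr fun s => ?_
  change bh B ⊤ (t * s * t⁻¹) * χ (t⁻¹ * (B.i (σ x) * (t * s * t⁻¹)) * t) = _
  rw [hbh, ← hact x]
  congr 2
  group

/-- equality at the regular elements -/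
theorem rq_conj {W W' : Subgroup V₀} {t : G} (hC : ∀ x, t * x * t⁻¹ ∈ B.C W' ↔ x ∈ B.C W)
    (χ ψ : G → ℂ) : rq ℓ B W' (cc t χ) (cc t ψ) ↔ rq ℓ B W χ ψ := by
  constructor
  · intro h g hg hr
    have h1 := h (t * g * t⁻¹) ((hC g).2 hg) ((reg_conj t g).2 hr)
    rwa [cc_conj, cc_conj] at h1
  · intro h g hg hr
    have e : t * (t⁻¹ * g * t) * t⁻¹ = g := by group
    have h1 : t⁻¹ * g * t ∈ B.C W := by
      rw [← hC, e]
      exact hg
    have h2 : Reg ℓ (t⁻¹ * g * t) := by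
      rw [← reg_conj t, e]
      exact hr
    exact h _ h1 h2

end tools

theorem rfl_row (hGEB : GebStmt) (hACB : AcbStmt) (hCJD : SD.CjdStmt) : RflStmt := by
  intro ℓ _ M _ hM hℓ2 V₀ G _ _ _ _ E₀ hFq B hB W hW σ hσ t ht hact
  have hcj := fun W => hCJD ℓ M hM hℓ2 V₀ G E₀ hFq B hB.toSb σ hσ t ht hact W
  have hacb := (hACB ℓ M hM hℓ2 V₀ G E₀ hFq B hB.toSb).2 W σ hσ
  obtain ⟨-, hnS, -, -, -, -, hkW, -, -, -⟩ := hGEB ℓ V₀ E₀ σ hσ W
  have hC : ∀ x, t * x * t⁻¹ ∈ B.C (mp σ W) ↔ x ∈ B.C W := (hcj W).2.1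
  have hac : ∀ χ ∈ Ch B W, ac B σ χ = cc t χ := by
    intro χ hχ
    funext x
    exact hacb.1 t ht hact χ hχ.1 (fun z hz g => ch_conj hχ hz g) x
  have hch : ∀ χ ∈ Ch B W, cc t χ ∈ Ch B (mp σ W) := by
    intro χ hχ
    rw [← hac χ hχ]
    exact (hacb.2.2.1 χ hχ).1
  have htop : (⊤ : Subgroup V₀).map σ.toMonoidHom = ⊤ :=
    Subgroup.map_top_of_surjective _ σ.surjective
  have hbh : ∀ x, bh B ⊤ (t * x * t⁻¹) = bh B ⊤ x := by
    intro x
    have h1 := (hcj ⊤).2.2.2.1 x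
    rwa [htop] at h1
  have hvx : ∀ (χ : G → ℂ) x, vx B (cc t χ) (σ x) = vx B χ x := vx_conj hact hbh
  have hmem : ∀ y ∈ kW E₀ (mp σ W), ∃ x ∈ kW E₀ W, σ x = y := by
    intro y hy
    have e : σ (σ⁻¹ y) = y := MulEquiv.apply_symm_apply _ _
    refine ⟨σ⁻¹ y, ?_, e⟩
    rw [← hkW, e]
    exact hy
  refine ⟨fun χ hχ => ⟨hch χ hχ, hac χ hχ, hvx χ, fun ψ _ => rq_conj hC χ ψ, ?_⟩, ?_⟩
  · intro xc xc' hxc
    have h2 : (∀ y ∈ kW E₀ (mp σ W), ∀ y' ∈ kW E₀ (mp σ W), y ≠ 1 → y' ≠ 1 →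
        vx B (cc t χ) y = vx B (cc t χ) y') ↔
        ∀ y ∈ kW E₀ W, ∀ y' ∈ kW E₀ W, y ≠ 1 → y' ≠ 1 → vx B χ y = vx B χ y' := by
      constructor
      · intro h y hy y' hy' h1 h1'
        rw [← hvx χ y, ← hvx χ y']
        exact h _ ((hkW y).2 hy) _ ((hkW y').2 hy')
          (fun h0 => h1 (σ.injective (h0.trans (map_one σ).symm)))
          (fun h0 => h1' (σ.injective (h0.trans (map_one σ).symm)))
      · intro h y hy y' hy' h1 h1'
        obtain ⟨x, hx, rfl⟩ := hmem y hy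
        obtain ⟨x', hx', rfl⟩ := hmem y' hy'
        rw [hvx, hvx]
        exact h x hx x' hx' (fun h0 => h1 (by rw [h0, map_one]))
          (fun h0 => h1' (by rw [h0, map_one]))
    have h3 : (nS E₀ (mp σ W) = ℓ - 1 → ¬ rq ℓ B (mp σ W) (cc t χ) xc') ↔
        (nS E₀ W = ℓ - 1 → ¬ rq ℓ B W χ xc) := by
      rw [hnS]
      refine imp_congr_right fun h => not_congr ?_
      rw [hxc h]
      exact rq_conj hC χ xc
    exact ⟨fun h => ⟨hχ, h2.1 h.2.1, h3.1 h.2.2⟩, fun h => ⟨hch χ hχ, h2.2 h.2.1, h3.2 h.2.2⟩⟩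
  · intro χ' hχ'
    obtain ⟨χ, hχ, h⟩ := hacb.2.2.2.1.surjOn hχ'
    exact ⟨χ, hχ, by rw [← h, hac χ hχ]; rfl⟩

end Pool.Agent.PP.SE.H46
end
end -- Pool.Agent.Helper46_ASE.RFL

section -- Pool.Agent.Helper64_ASD.RWD

/-!
# Squad ASD, row RWD: properties of `Rw`
-/

namespace Pool.Agent.PP.SD.H64

open Pool.Agent.PP.SD

section aux

variable {V₀ : Type} [CommGroup V₀] {E₀ : Subgroup (MulAut V₀)}

theorem map_aux {σ : MulAut V₀} (hσ : σ ∈ E₀) {W : Subgroup V₀} (h : Rw E₀ W) :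
    Rw E₀ (W.map σ.toMonoidHom) := by
  refine ⟨?_, ?_⟩
  · intro h0
    apply h.1
    rw [Subgroup.map_eq_bot_iff] at h0
    rw [eq_bot_iff]
    intro x hx
    have h1 : σ x = 1 := h0 hx
    rw [Subgroup.mem_bot]
    exact σ.injective (h1.trans (map_one σ).symm)
  · intro τ hτ hfix
    have h1 : σ⁻¹ * τ * σ = 1 := by
      apply h.2 _ (E₀.mul_mem (E₀.mul_mem (E₀.inv_mem hσ) hτ) hσ)
      intro w hw
      have h2 : τ (σ w) = σ w := hfix _ ⟨w, hw, rfl⟩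
      rw [MulAut.mul_apply, MulAut.mul_apply, h2, MulAut.inv_apply_self]
    have h3 : τ = σ * (σ⁻¹ * τ * σ) * σ⁻¹ := by group
    rw [h3, h1]
    group

end aux

/-- RWD -/
theorem rwd : RwdStmt := by
  intro ℓ _ V₀ _ _ E₀ hF
  have hℓ : ℓ.Prime := Fact.out
  refine ⟨?_, ?_, ?_, ?_, ?_⟩
  · rintro W W' ⟨h0, h1⟩ hle
    refine ⟨?_, ?_⟩
    · intro h
      apply h0
      rw [eq_bot_iff, ← h]
      exact hle
    · intro σ hσ hfix
      exact h1 σ hσ (fun w hw => hfix w (hle hw))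
  · intro σ hσ W
    constructor
    · intro h
      have h1 := map_aux (E₀.inv_mem hσ) h
      have h2 : (W.map σ.toMonoidHom).map (σ⁻¹ : MulAut V₀).toMonoidHom = W := by
        ext x
        constructor
        · rintro ⟨_, ⟨w, hw, rfl⟩, rfl⟩
          have h3 : (σ⁻¹ : MulAut V₀) (σ w) = w := MulAut.inv_apply_self _ _ _
          exact h3.symm ▸ hw
        · intro hx
          exact ⟨σ x, ⟨x, hx, rfl⟩, MulAut.inv_apply_self _ _ _⟩
      rw [h2] at h1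
      exact h1
    · intro h
      exact map_aux hσ h
  · refine ⟨?_, ?_⟩
    · intro h
      have h1 : Nat.card V₀ = 1 := by
        rw [← Subgroup.card_top, h, Subgroup.card_bot]
      rw [hF.cd] at h1
      have h2 := hℓ.two_le
      nlinarith
    · intro σ _ hfix
      ext v
      exact hfix v trivial
  · rintro W ⟨_, h1⟩ σ hσ τ hτ hst
    have h2 : σ⁻¹ * τ = 1 := by
      apply h1 _ (E₀.mul_mem (E₀.inv_mem hσ) hτ)
      intro w hw
      rw [MulAut.mul_apply, ← hst w hw, MulAut.inv_apply_self]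
    have h3 := inv_mul_eq_one.1 h2
    exact h3
  · intro W hW
    have h1 : Nat.card W ∣ ℓ ^ 2 := by
      rw [← hF.cd]
      exact Subgroup.card_subgroup_dvd_card W
    obtain ⟨k, hk, hk2⟩ := (Nat.dvd_prime_pow hℓ).1 h1
    interval_cases k
    · exfalso
      apply hW
      rw [pow_zero] at hk2
      exact Subgroup.eq_bot_of_card_eq W hk2
    · right
      rw [hk2, pow_one]
    · left
      apply Subgroup.eq_top_of_card_eq
      rw [hk2, hF.cd]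

end Pool.Agent.PP.SD.H64
end -- Pool.Agent.Helper64_ASD.RWD

section -- Pool.Agent.Helper69_ASE.LNC

noncomputable section

namespace Pool.Agent.PP.SE.H69

open Pool.Agent.Helper51_AWC Pool.Agent.Helper79_WRA Pool.Agent.PP Pool.Agent.PP.KF
open Pool.Agent.PP.K9 Pool.Agent.PP.K9.H97 Pool.Agent.PP.H75 Pool.Agent.PP.T3 Pool.Agent.PP.SO
open Pool.Agent.PP.SD

attribute [local instance] Ideal.Quotient.field

theorem lnc (h : LmeStmt) : LncStmt := by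
  intro ℓ _ M _ hM h2 V₀ G _ _ _ _ E₀ hF B hB hc
  obtain ⟨_, h3, h4⟩ := h ℓ M hM h2 V₀ G E₀ hF B hB
  rw [← h3]
  exact h4 E₀ le_rfl hc

end Pool.Agent.PP.SE.H69
end
end -- Pool.Agent.Helper69_ASE.LNC

section -- Pool.Agent.Helper98_ASE.AsmS

/-!
# Squad ASE: the statements of block S, closed
-/

noncomputable section

namespace Pool.Agent.PP.SE

open Pool.Agent.PP Pool.Agent.PP.K9 Pool.Agent.PP.T3 Pool.Agent.PP.SO Pool.Agent.PP.SD

theorem prb_ : PrbStmt := H43A.prb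
theorem mpb_ : MpbStmt := H43A.mpb
theorem czb_ : CzbStmt := H43A.czb
theorem acb_ : AcbStmt := H43A.acb
theorem lme_ : LmeStmt := H43A.lme
theorem rwd_ : SD.RwdStmt := SD.H64.rwd
theorem dgd_ : SD.DgdStmt := SD.H86.dgd SO.hta_

theorem gea_ : GeaStmt := H96.gea
theorem geb_ : GebStmt := H82.geb
theorem gec_ : GecStmt := H41.gec gea_
theorem vxm_ : VxmStmt := H66.vxm gea_ czb_ acb_ H43A.nsd H43A.rda rwd_ SO.homr_
theorem vxo_ : VxoStmt :=
  H49.vxo gea_ vxm_ H43A.rda SO.hlnk_ T3.smg_ T3.co1_ T3.co2_ T3.fus_ K9.wbo_ H43A.nsd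
theorem vxg_ : VxgStmt := H49.vxg T6.sec_ H43A.rda SO.hlnk_ H43A.nsd
theorem ibv_ : IbvStmt := H76.ibv gea_ gec_ vxm_ vxo_
theorem lnc_ : LncStmt := H69.lnc lme_
theorem cnt_ : CntStmt := H86.cnt gea_ lnc_ H43A.rda H43A.kld H43A.lnh
theorem str_ : StrStmt := H41.str gec_ vxm_ ibv_ cnt_ K9.H25.grb
theorem xir_ : XirStmt := H52.xir gec_ vxo_
theorem rps_ : RpsStmt := H95.rps T6.sec_ T6.ips_ K9.wbo_ H43A.rda H43A.lbd H43A.nsd
theorem rpv_ : RpvStmt := H86.rpv gea_ gec_ rps_ vxm_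
theorem dcr_ : DcrStmt := H24.dcr K9.H27.prt K9.ada_ K9.rot_
theorem mat_ : MatStmt := H72.mat str_ xir_ rpv_ dcr_ vxm_
theorem cyw_ : CywStmt := H31W.cyw gea_ gec_ vxm_ str_ xir_ rpv_ mat_
theorem snu_ : SnuStmt := H33.snu gec_ vxm_
theorem val_ : ValStmt := H77.val gea_ gec_ vxm_ czb_
theorem rfa_ : RfaStmt := H65.rfa gea_ gec_ vxm_ czb_
theorem rfb_ : RfbStmt := H16.rfb snu_ gec_ gea_
theorem rfc_ : RfcStmt := H95.rfc val_ vxm_ gea_ gec_
theorem rfd_ : RfdStmt := H44.rfd snu_ gec_ gea_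
theorem rfe_ : RfeStmt := H86.rfe gea_ vxm_ snu_ val_
theorem rff_ : RffStmt := H27.rff snu_ val_ acb_ gea_
theorem rfg_ : RfgStmt := H13.rfg snu_ val_ vxg_ rfa_ vxm_ czb_ gea_
theorem rfh_ : RfhStmt := H38.rfh val_ dgd_ vxm_
theorem rfi_ : RfiStmt := H44.rfi val_ rfg_ rfh_ SO.prj_
theorem rfj_ : RfjStmt := H65.rfj val_ snu_ gea_ czb_ vxm_
theorem rfl_ : RflStmt := H46.rfl_row geb_ acb_ H43A.cjd
theorem rfm_ : RfmStmt := H32.rfm geb_ gec_ vxm_ rfl_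
theorem rfn_ : RfnStmt := H38.rfn rfl_ rfm_ val_ geb_ acb_
theorem rna_ : RnaStmt := H67.rna H43A.nsd czb_
theorem rnc_ : RncStmt := H3.rnc H43A.cjd rwd_

end Pool.Agent.PP.SE
end
end -- Pool.Agent.Helper98_ASE.AsmS

section -- Pool.Agent.Helper98_ASE.AsmR

/-!
# Squad ASE: existence of the local data, closed
-/

noncomputable section

namespace Pool.Agent.PP.SE

open Pool.Agent.PP Pool.Agent.PP.K9 Pool.Agent.PP.T3 Pool.Agent.PP.SO Pool.Agent.PP.SD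

theorem rfk_ : RfkStmt := H86.rfk gea_ vxm_ snu_ val_ rfj_ acb_
theorem rfp_ : RfpStmt := H41.rfp rfm_ acb_ czb_ gec_ vxm_
theorem rnb_ : RnbStmt := H20.rnb H43A.nsd dgd_

/-- existence of the local data -/
theorem rsx_ : RsxStmt := H45.rsx cyw_ rfa_ rfb_ rfc_ rfd_ rfe_ rff_ rfg_ rfh_ rfi_ rfj_ rfk_ rfl_
  rfm_ rfn_ rfp_ rna_ rnb_ rnc_ prb_ mpb_ val_ acb_ gea_ vxm_

end Pool.Agent.PP.SE
end
end -- Pool.Agent.Helper98_ASE.AsmR
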