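import Pool.Agent.Helper12_AWB.B200
import Pool.Agent.Helper12_AWB.B215
import Pool.Agent.Helper12_AWB.B220
import Pool.Agent.Helper12_AWB.B257
import Pool.Agent.Helper12_AWB.B273
import Pool.Agent.Helper12_AWB.B287
import Pool.Agent.Helper12_AWB.B290
import Pool.Agent.Helper12_AWB.B296
import Pool.Agent.Helper12_AWB.B297

/-!
# Merged copies (generated) of the modules

* `Pool.Agent.Helper41_PFD.FIN`
* `Pool.Agent.Helper13_WAT.NLB`
* `Pool.Agent.Helper24_WAT.FOU`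
* `Pool.Agent.Helper38_WAT.DBL`
* `Pool.Agent.Helper60_WAT.CPV`
* `Pool.Agent.Helper98_ASE.AsmW`
* `Pool.Agent.Helper98_ASE.Asm`
* `Pool.Agent.Helper66_WAT.Asm`
* `Pool.Agent.Helper67_WAX.CTX`
* `Pool.Agent.Helper69_WAX.LXA`
* `Pool.Agent.WAX.Asm`
* `Pool.Agent.PFD.AsmD5b`
-/

set_option autoImplicit false

section -- Pool.Agent.Helper41_PFD.FIN

noncomputable section

namespace Pool.Agent.PFD.H41

open Pool.Agent.PP

theorem fin (hFnx : TX.FnxStmt) (hFnd : FndStmt) : FinStmt := by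
  intro ℓ _ M _ hM G _ _ hc χ hχ D hD hne hab th hth a ha hd r hr hor
  rcases hor with h | h | h | h | h | ⟨U, h1, h2, h3, h4⟩
  · exact hFnx ℓ M hM G hc χ hχ D hD hne hab th hth a ha hd r hr (Or.inl h)
  · exact hFnx ℓ M hM G hc χ hχ D hD hne hab th hth a ha hd r hr (Or.inr (Or.inl h))
  · exact hFnx ℓ M hM G hc χ hχ D hD hne hab th hth a ha hd r hr (Or.inr (Or.inr (Or.inl h)))
  · exact hFnx ℓ M hM G hc χ hχ D hD hne hab th hth a ha hd r hr
      (Or.inr (Or.inr (Or.inr (Or.inl h))))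
  · exact hFnx ℓ M hM G hc χ hχ D hD hne hab th hth a ha hd r hr
      (Or.inr (Or.inr (Or.inr (Or.inr (Or.inl h)))))
  · exact hFnd ℓ M hM G hc χ hχ D hD hne hab th hth U h1 h2 h3 h4

end Pool.Agent.PFD.H41
end
end -- Pool.Agent.Helper41_PFD.FIN

section -- Pool.Agent.Helper13_WAT.NLB

/-!
# WAT, row NLB: the local block of the normaliser block and the normaliser block of the local block
-/

open scoped BigOperators

noncomputable section

namespace Pool.Agent.PP.TV.H13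

open Pool.Agent.Helper51_AWC Pool.Agent.Helper79_WRA Pool.Agent.PP Pool.Agent.PP.KF
open Pool.Agent.PP.K9 Pool.Agent.PP.K9.H97 Pool.Agent.PP.H75 Pool.Agent.PP.T3 Pool.Agent.PP.T2

attribute [local instance] Ideal.Quotient.field

section nested

variable {F G : Type} [Field F] [Group G] [Finite G]

-- a block of a subgroup of a subgroup, as a function on the group
omit [Finite G] in
theorem bx_ext (X : Subgroup G) (K : Subgroup X) {c : X → F} (hc : Bx K c) :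
    Bx (K.map X.subtype) (PP.ext0 X c) := by
  refine ⟨?_, ?_⟩
  · intro x hx
    by_cases h : x ∈ X
    · rw [H46.ext0_of_mem _ h]
      apply hc.supp
      intro h'
      exact hx ⟨⟨x, h⟩, h', rfl⟩
    · exact H46.ext0_of_not_mem _ h
  · obtain ⟨φ, hφ⟩ : ∃ φ : ↥(K.map X.subtype) ≃* K, ∀ t, (((φ t : K) : X) : G) = t := by
      refine ⟨(K.equivMapOfInjective X.subtype X.subtype_injective).symm, fun t => ?_⟩
      have h1 := (K.equivMapOfInjective X.subtype X.subtype_injective).apply_symm_apply t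
      have h2 := congrArg (fun s : ↥(K.map X.subtype) => (s : G)) h1
      exact h2
    have h1 := H20.IsBlk_equiv φ hc.blk
    have h2 : (fun t : ↥(K.map X.subtype) => PP.ext0 X c (t : G)) =
        fun t : ↥(K.map X.subtype) => c ((φ t : K) : X) := by
      funext t
      rw [← hφ t, H46.ext0_of_mem _ ((φ t : K) : X).2]
    rw [h2]
    exact h1

omit [Finite G] in
theorem ln_ext (X : Subgroup G) (K : Subgroup X) (c : X → F) :
    ln (fun t : K => c t) = lnum (K.map X.subtype) (PP.ext0 X c) := by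
  rw [← Pool.Agent.PP.H97.lnum_map, H46.restr_ext0]
  rfl

/-- the block over `γ` is unique -/
theorem eq_of_gam {ℓ : ℕ} (hF : GoodF ℓ F) {V Y : Subgroup G} (hVp : IsPGroup ℓ V) (hVY : V ≤ Y)
    {β β' γ : G → F} (hβ : Bx Y β) (hβ' : Bx Y β') (hγ : γ ≠ 0) (h1 : mulF (br V β) γ = γ)
    (h2 : mulF (br V β') γ = γ) : β = β' := by
  rcases hβ.dich hβ' with h | h
  · exact h
  · exfalso
    apply hγ
    have h3 := br_mulF H74.orb hF hVp (fun p hp => hβ.ix.inv (hVY hp))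
      (fun p hp => hβ'.ix.inv (hVY hp))
    have h4 : br V (mulF β β') = 0 := by
      rw [h]
      funext x
      by_cases hx : x ∈ Subgroup.centralizer (V : Set G)
      · rw [H66.br_of_mem hx]
      · rw [H66.br_of_not_mem hx]
        rfl
    rw [h4] at h3
    calc γ = mulF (br V β) (mulF (br V β') γ) := by rw [h2, h1]
      _ = mulF (mulF (br V β) (br V β')) γ := (H20.mulF_assoc _ _ _).symm
      _ = 0 := by
        rw [← h3]
        funext x
        unfold mulF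
        simp

/-- the blocks over `γ` in the subgroup and in the group -/
theorem gam_ext {V X : Subgroup G} (hVX : V ≤ X) (hCX : Subgroup.centralizer (V : Set G) ≤ X)
    {c : X → F} {γ : G → F} (hγ : ∀ x, x ∉ Subgroup.centralizer (V : Set G) → γ x = 0)
    (h : mulF (br (V.subgroupOf X) c) (fun t : X => γ t) = fun t : X => γ t) :
    mulF (br V (PP.ext0 X c)) γ = γ := by
  have hs : ∀ x, x ∉ X → br V (PP.ext0 X c) x = 0 := fun x hx =>
    H66.br_of_not_mem (fun h => hx (hCX h))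
  have hs' : ∀ x, x ∉ X → γ x = 0 := fun x hx => hγ x (fun h => hx (hCX h))
  apply eq_of_res (mulF_supp X hs hs') hs'
  rw [mulF_res X γ hs]
  have h2 : (fun t : X => br V (PP.ext0 X c) t) = br (V.subgroupOf X) c :=
    funext (br_ext0 hVX c)
  rw [h2, h]

end nested

theorem nlb : NlbStmt := by
  intro ℓ _ M _ hM G _ _ e V γ hL z hz b hb U hU f hf z' hz' c hc U' hU' f' hf'
  subst hU
  subst hU'
  have hF : GoodF ℓ (FF M) := H50.fld ℓ Fact.out M hM
  have hUX : U ≤ Subgroup.normalizer (U : Set G) := Subgroup.le_normalizer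
  have hCX : Subgroup.centralizer (U : Set G) ≤ Subgroup.normalizer (U : Set G) :=
    H85.cent_le_norm U
  have hUC : U ≤ Cu z := fun v hv =>
    Subgroup.mem_centralizer_singleton_iff.2 (hL.ab v hv z hz)
  have hCC : Subgroup.centralizer (U : Set G) ≤ Cu z := fun g hg =>
    Subgroup.mem_centralizer_singleton_iff.2 (Subgroup.mem_centralizer_iff.1 hg z hz).symm
  -- the two blocks of `N(U) ∩ C(z)`
  have hK : (Cu z').map (Subgroup.normalizer (U : Set G)).subtype =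
      Subgroup.normalizer (U : Set G) ⊓ Cu z := by
    have h1 := Pool.Agent.PP.H97.centralizer_map (Subgroup.normalizer (U : Set G)) z'
    rw [hz'] at h1
    rw [inf_comm]
    exact h1
  have hK' : (Subgroup.normalizer ((U.subgroupOf (Cu z) : Subgroup (Cu z)) : Set (Cu z))).map
      (Cu z).subtype = Subgroup.normalizer (U : Set G) ⊓ Cu z := by
    rw [← norm_sub hUC, Subgroup.subgroupOf_map_subtype, inf_assoc, inf_idem]
  have hβ := bx_ext _ _ hc.blk
  have hβ' := bx_ext _ _ hf'.blk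
  rw [hK] at hβ
  rw [hK'] at hβ'
  have h1 := gam_ext hUX hCX hL.gam.supp hc.gam
  have h2 : mulF (br U (PP.ext0 (Cu z) f')) γ = γ := by
    have h3 : br U (PP.ext0 (Cu z) f') = br U b := by
      apply eq_of_res (N := Cu z) (fun x hx => H66.br_of_not_mem (fun h => hx (hCC h)))
        (fun x hx => H66.br_of_not_mem (fun h => hx (hCC h)))
      have h4 : (fun t : Cu z => br U (PP.ext0 (Cu z) f') t) = br (U.subgroupOf (Cu z)) f' :=
        funext (br_ext0 hUC f')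
      rw [h4, hf'.brV]
      funext t
      rw [← br_ext0 hUC (fun t : Cu z => b t) t, H46.ext0_restr hb.blk.supp]
    rw [h3, hb.gam]
  have h3 := eq_of_gam hF hL.tp.pg (le_inf hUX hUC) hβ hβ' hL.gam.ne h1 h2
  rw [ln_ext, ln_ext, hK, hK', h3]

end Pool.Agent.PP.TV.H13
end
end -- Pool.Agent.Helper13_WAT.NLB

section -- Pool.Agent.Helper24_WAT.FOU

/-!
# Row FOU of the squad WAT: Fourier inversion on a quotient
-/

set_option autoImplicit false

open scoped BigOperators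

namespace Pool.Agent.PP.TV.H24

/-- the sum over all characters of the quotient -/
theorem fou_key (V : Type) [CommGroup V] [Fintype V] (V₀ : Subgroup V) [Fintype V₀]
    [Fintype (V ⧸ V₀)] [DecidableEq (V ⧸ V₀)] (f : V → ℂ)
    (hf : ∀ lam : V →* ℂ, (∀ v ∈ V₀, lam v = 1) → (∃ v, lam v ≠ 1) → ∑ v : V, f v * lam v = 0)
    (z : V) : (Fintype.card (V ⧸ V₀) : ℂ) * ∑ w : V₀, f (z * w) = ∑ v : V, f v := by
  classical
  let cl : V → Additive (V ⧸ V₀) := fun v => Additive.ofMul (v : V ⧸ V₀)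
  letI : Fintype (Additive (V ⧸ V₀)) := inferInstanceAs (Fintype (V ⧸ V₀))
  have hcl : ∀ a b : V, cl (a * b) = cl a + cl b := fun a b => rfl
  have hcl1 : cl 1 = 0 := rfl
  -- the double sum
  have h1 : ∑ ψ : AddChar (Additive (V ⧸ V₀)) ℂ, ψ (-cl z) * ∑ v : V, f v * ψ (cl v) =
      ∑ v : V, f v := by
    rw [Finset.sum_eq_single (0 : AddChar (Additive (V ⧸ V₀)) ℂ)]
    · simp
    · intro ψ _ hψ
      let lam : V →* ℂ :=
        { toFun := fun v => ψ (cl v)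
          map_one' := by
            rw [hcl1]
            exact ψ.map_zero_eq_one
          map_mul' := fun a b => by
            rw [hcl]
            exact ψ.map_add_eq_mul _ _ }
      have h2 : ∑ v : V, f v * lam v = 0 := by
        apply hf
        · intro v hv
          have h3 : cl v = 0 := by
            change Additive.ofMul (v : V ⧸ V₀) = Additive.ofMul 1
            rw [(QuotientGroup.eq_one_iff v).2 hv]
          change ψ (cl v) = 1
          rw [h3]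
          exact ψ.map_zero_eq_one
        · obtain ⟨x, hx⟩ := AddChar.ne_zero_iff.1 hψ
          obtain ⟨v, hv⟩ := QuotientGroup.mk_surjective (Additive.toMul x)
          refine ⟨v, ?_⟩
          change ψ (cl v) ≠ 1
          have h4 : cl v = x := by
            change Additive.ofMul (v : V ⧸ V₀) = x
            rw [hv]
            rfl
          rw [h4]
          exact hx
      change ψ (-cl z) * ∑ v : V, f v * lam v = 0
      rw [h2, mul_zero]
    · intro h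
      exact absurd (Finset.mem_univ _) h
  have h2 : ∑ ψ : AddChar (Additive (V ⧸ V₀)) ℂ, ψ (-cl z) * ∑ v : V, f v * ψ (cl v) =
      ∑ v : V, f v * ∑ ψ : AddChar (Additive (V ⧸ V₀)) ℂ, ψ (-cl z + cl v) := by
    simp_rw [Finset.mul_sum]
    rw [Finset.sum_comm]
    refine Finset.sum_congr rfl fun v _ => Finset.sum_congr rfl fun ψ _ => ?_
    rw [ψ.map_add_eq_mul]
    ring
  have h3 : ∀ v : V, ∑ ψ : AddChar (Additive (V ⧸ V₀)) ℂ, ψ (-cl z + cl v) =
      if z⁻¹ * v ∈ V₀ then (Fintype.card (V ⧸ V₀) : ℂ) else 0 := by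
    intro v
    rw [AddChar.sum_apply_eq_ite]
    have h4 : (-cl z + cl v = 0) ↔ z⁻¹ * v ∈ V₀ := by
      rw [← QuotientGroup.eq_one_iff]
      rfl
    have h5 : Fintype.card (Additive (V ⧸ V₀)) = Fintype.card (V ⧸ V₀) := rfl
    rw [h5]
    by_cases h : z⁻¹ * v ∈ V₀
    · rw [if_pos h, if_pos (h4.2 h)]
    · rw [if_neg h, if_neg (fun h' => h (h4.1 h'))]
  rw [h2] at h1
  rw [← h1, Finset.mul_sum]
  have h6 : ∑ v : V, f v * ∑ ψ : AddChar (Additive (V ⧸ V₀)) ℂ, ψ (-cl z + cl v) =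
      ∑ v ∈ Finset.univ.filter (fun v : V => z⁻¹ * v ∈ V₀),
        (Fintype.card (V ⧸ V₀) : ℂ) * f v := by
    rw [Finset.sum_filter]
    refine Finset.sum_congr rfl fun v _ => ?_
    rw [h3]
    split_ifs
    · ring
    · ring
  rw [h6]
  refine Finset.sum_bij (fun (w : V₀) _ => z * (w : V)) ?_ ?_ ?_ ?_
  · intro w _
    rw [Finset.mem_filter]
    refine ⟨Finset.mem_univ _, ?_⟩
    rw [inv_mul_cancel_left]
    exact w.2
  · intro w _ w' _ h
    exact Subtype.ext (mul_left_cancel h)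
  · intro v hv
    rw [Finset.mem_filter] at hv
    exact ⟨⟨z⁻¹ * v, hv.2⟩, Finset.mem_univ _, mul_inv_cancel_left z v⟩
  · intro w _
    rfl

/-- **FOU**. -/
theorem fou : FouStmt := by
  classical
  intro V _ _ V₀ f hf z
  haveI : Fintype V := Fintype.ofFinite V
  haveI : Fintype V₀ := Fintype.ofFinite V₀
  haveI : Fintype (V ⧸ V₀) := Fintype.ofFinite (V ⧸ V₀)
  have hf' : ∀ lam : V →* ℂ, (∀ v ∈ V₀, lam v = 1) → (∃ v, lam v ≠ 1) →
      ∑ v : V, f v * lam v = 0 := by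
    intro lam h1 h2
    have h3 := hf lam h1 h2
    rwa [finsum_eq_sum_of_fintype] at h3
  have k1 := fou_key V V₀ f hf' z
  have k2 := fou_key V V₀ f hf' 1
  have hc : (Fintype.card (V ⧸ V₀) : ℂ) ≠ 0 := by
    exact_mod_cast Fintype.card_ne_zero
  rw [finsum_eq_sum_of_fintype, finsum_eq_sum_of_fintype]
  apply mul_left_cancel₀ hc
  rw [k1, ← k2]
  simp only [one_mul]

end Pool.Agent.PP.TV.H24
end -- Pool.Agent.Helper24_WAT.FOU

section -- Pool.Agent.Helper38_WAT.DBL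

/-!
# Squad WAT, row DBL: local blocks of local blocks
-/

open scoped BigOperators

noncomputable section

namespace Pool.Agent.PP.TV.H38

open Pool.Agent.Helper51_AWC Pool.Agent.Helper79_WRA Pool.Agent.PP Pool.Agent.PP.KF
open Pool.Agent.PP.K9 Pool.Agent.PP.K9.H97 Pool.Agent.PP.H75 Pool.Agent.PP.T3 Pool.Agent.PP.T2
open Pool.Agent.PP.T5 Pool.Agent.PP.TB
open Pool.Agent.PP.T8 (Rv Fq Fr Qt3Stmt FqtStmt)

attribute [local instance] Ideal.Quotient.field

section uni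

variable {ℓ : ℕ} {F G : Type} [Field F] [Group G] [Finite G]

omit [Finite G] in
/-- `ln` is invariant under isomorphisms -/
theorem ln_equiv {A B : Type} [Group A] [Group B] (φ : A ≃* B) (b : B → F) :
    ln (fun t : A => b (φ t)) = ln b := by
  unfold ln
  exact PP.H97.ncard_comp φ b

/-- two blocks of a subgroup over the same block of the centraliser of `V` are equal -/
theorem bx_uni (hF : GoodF ℓ F) {V X : Subgroup G} (hV : IsPGroup ℓ V) (hVX : V ≤ X)
    {γ : G → F} (hγ : γ ≠ 0) {β β' : G → F} (hβ : Bx X β) (hβ' : Bx X β')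
    (h : mulF (br V β) γ = γ) (h' : mulF (br V β') γ = γ) : β = β' := by
  rcases hβ.dich hβ' with h1 | h1
  · exact h1
  · exfalso
    apply hγ
    have hi : ∀ {b : G → F}, Bx X b → H66.Inv V b := by
      intro b hb p hp t
      have h2 := hb.ix.inv (hVX hp)
      exact (cj_eq_iff p b).1 h2 t
    have h3 := H66.br_mulF hF hV (hi hβ) (hi hβ')
    rw [h1] at h3
    have h4 : br V (0 : G → F) = 0 := by
      funext x
      by_cases hx : x ∈ Subgroup.centralizer (V : Set G)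
      · rw [H66.br_of_mem hx]
      · rw [H66.br_of_not_mem hx]
        rfl
    rw [h4] at h3
    rw [← h, ← h', ← H20.mulF_assoc, ← h3, H20.zero_mulF]

end uni

section dbl

variable {F G : Type} [Field F] [Group G] [Finite G]

omit [Finite G] in
/-- the centraliser of `v` in the centraliser of `u` -/
def dequiv (u : G) (v : Cu u) :
    (Cu u ⊓ Cu (v : G) : Subgroup G) ≃* (Cu v : Subgroup (Cu u)) where
  toFun t := ⟨⟨(t : G), t.2.1⟩,
    Subgroup.mem_centralizer_singleton_iff.2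
      (Subtype.ext (Subgroup.mem_centralizer_singleton_iff.1 t.2.2))⟩
  invFun t := ⟨((t : Cu u) : G), (t : Cu u).2,
    Subgroup.mem_centralizer_singleton_iff.2
      (congrArg Subtype.val (Subgroup.mem_centralizer_singleton_iff.1 t.2))⟩
  left_inv _ := rfl
  right_inv _ := rfl
  map_mul' _ _ := rfl

theorem key {V : Subgroup G} {γ : G → F} (hab : ∀ a ∈ V, ∀ b ∈ V, a * b = b * a)
    (hγ : Bx (Subgroup.centralizer (V : Set G)) γ) {u : G} (hu : u ∈ V) (v : Cu u)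
    {c : Cu u → F} (hc : Bx (Cu v) c)
    (hg : mulF (br (V.subgroupOf (Cu u)) c) (fun t : Cu u => γ t) = fun t : Cu u => γ t) :
    Bx (Cu u ⊓ Cu (v : G)) (H75.ext0 (Cu u) c) ∧
      mulF (br V (H75.ext0 (Cu u) c)) γ = γ ∧
      ln (fun t : Cu v => c t) =
        ln (fun t : (Cu u ⊓ Cu (v : G) : Subgroup G) => H75.ext0 (Cu u) c t) := by
  have hVX : V ≤ Cu u := fun v hv => Subgroup.mem_centralizer_singleton_iff.2 (hab v hv u hu)
  have hCX : Subgroup.centralizer (V : Set G) ≤ Cu u := fun g hg =>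
    Subgroup.mem_centralizer_singleton_iff.2 (Subgroup.mem_centralizer_iff.1 hg u hu).symm
  have he : (fun t : (Cu u ⊓ Cu (v : G) : Subgroup G) => H75.ext0 (Cu u) c t) =
      fun t => (fun s : Cu v => c s) (dequiv u v t) := by
    funext t
    exact H75.ext0_apply (Cu u) c ⟨(t : G), t.2.1⟩
  refine ⟨⟨?_, ?_⟩, ?_, ?_⟩
  · intro x hx
    by_cases hxu : x ∈ Cu u
    · have h1 := H75.ext0_apply (Cu u) c ⟨x, hxu⟩
      rw [h1]
      apply hc.supp
      intro h2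
      apply hx
      exact ⟨hxu, Subgroup.mem_centralizer_singleton_iff.2
        (congrArg Subtype.val (Subgroup.mem_centralizer_singleton_iff.1 h2))⟩
    · exact H75.ext0_supp (Cu u) c x hxu
  · rw [he]
    exact H20.IsBlk_equiv (dequiv u v) hc.blk
  · apply eq_of_res (N := Cu u)
    · apply H75.mulF_supp (Cu u)
      · intro x hx
        exact H66.br_of_not_mem (fun h => hx (hCX h))
      · intro x hx
        exact hγ.supp x (fun h => hx (hCX h))
    · intro x hx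
      exact hγ.supp x (fun h => hx (hCX h))
    · rw [H75.mulF_res (Cu u) γ (fun x hx => H66.br_of_not_mem (fun h => hx (hCX h)))]
      rw [← hg]
      have h1 : (fun t : Cu u => br V (H75.ext0 (Cu u) c) t) = br (V.subgroupOf (Cu u)) c := by
        funext t
        by_cases ht : (t : G) ∈ Subgroup.centralizer (V : Set G)
        · rw [H66.br_of_mem ht, H66.br_of_mem ((cent_sub hVX t).2 ht), H75.ext0_apply]
        · rw [H66.br_of_not_mem ht, H66.br_of_not_mem (fun h => ht ((cent_sub hVX t).1 h))]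
      rw [h1, hg, hg]
  · rw [he]
    exact (ln_equiv (dequiv u v) (fun s : Cu v => c s)).symm

end dbl

/-- DBL -/
theorem dbl : DblStmt := by
  intro ℓ _ M _ hM G _ _ e V γ hL u hu u' hu' b b' hb hb' v v' hv hv' hC c c' hc hc'
  have hF : GoodF ℓ (FF M) := H50.fld ℓ Fact.out M hM
  obtain ⟨h1, h2, h3⟩ := key hL.ab hL.gam hu v hc.blk hc.gam
  obtain ⟨h1', h2', h3'⟩ := key hL.ab hL.gam hu' v' hc'.blk hc'.gam
  rw [h3, h3']
  have hVX : V ≤ Cu u ⊓ Cu (v : G) := fun x hx =>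
    ⟨Subgroup.mem_centralizer_singleton_iff.2 (hL.ab x hx u hu),
      Subgroup.mem_centralizer_singleton_iff.2 (hL.ab x hx v hv)⟩
  generalize hX : (Cu u ⊓ Cu (v : G) : Subgroup G) = X at *
  generalize hX' : (Cu u' ⊓ Cu (v' : G) : Subgroup G) = X' at *
  subst hC
  have h4 := bx_uni hF hL.tp.pg hVX hL.gam.ne h1 h1' h2 h2'
  rw [h4]

end Pool.Agent.PP.TV.H38
end
end -- Pool.Agent.Helper38_WAT.DBL

section -- Pool.Agent.Helper60_WAT.CPV

/-!
# Squad WAT, row CPV: coprime action of the inertial group on the defect group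
-/

set_option autoImplicit false

open scoped BigOperators

noncomputable section

namespace Pool.Agent.PP.TV.H60

open Pool.Agent.Helper51_AWC Pool.Agent.Helper79_WRA Pool.Agent.PP Pool.Agent.PP.KF
open Pool.Agent.PP.K9 Pool.Agent.PP.K9.H97 Pool.Agent.PP.H75 Pool.Agent.PP.T3 Pool.Agent.PP.T2
open Pool.Agent.PP.T5 Pool.Agent.PP.TB
open Pool.Agent.PP.T8 (Rv Fq Fr)

attribute [local instance] Ideal.Quotient.field

/-- the projection on the fixed points of a coprime group of automorphisms -/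
theorem proj (ℓ : ℕ) [hℓ : Fact ℓ.Prime] (V : Type) [CommGroup V] [Finite V] (hV : IsPGroup ℓ V)
    (S : Subgroup (MulAut V)) (hS : ¬ ℓ ∣ Nat.card S) :
    ∃ π : V →* V, (∀ v, ∀ s ∈ S, s (π v) = π v ∧ π (s v) = π v) ∧
      (∀ v, (∀ s ∈ S, s v = v) → π v = v) ∧
      ∀ W : Subgroup V, (∀ v, ∀ s ∈ S, s v * v⁻¹ ∈ W) → ∀ v, π v * v⁻¹ ∈ W := by
  classical
  have : Finite (MulAut V) := Finite.of_injective (fun g : MulAut V => (g : V → V))
    (fun g h hgh => MulEquiv.ext (fun x => congrFun hgh x))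
  have := Fintype.ofFinite S
  obtain ⟨a, ha⟩ := IsPGroup.iff_card.1 hV
  have hexp : ∀ v : V, v ^ ℓ ^ a = 1 := by
    intro v
    rw [← ha]
    exact pow_card_eq_one'
  obtain ⟨P, hP⟩ : ∃ P : V →* V, ∀ v, P v = ∏ s : S, (s : MulAut V) v := by
    refine ⟨{ toFun := fun v => ∏ s : S, (s : MulAut V) v, map_one' := ?_, map_mul' := ?_ },
      fun v => rfl⟩
    · simp
    · intro v w
      simp [Finset.prod_mul_distrib]
  have hP1 : ∀ v, ∀ s ∈ S, s (P v) = P v := by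
    intro v s hs
    rw [hP, map_prod]
    refine Fintype.prod_equiv (Equiv.mulLeft (⟨s, hs⟩ : S)) _ _ fun t => ?_
    rfl
  have hP2 : ∀ v, ∀ s ∈ S, P (s v) = P v := by
    intro v s hs
    rw [hP, hP]
    refine Fintype.prod_equiv (Equiv.mulRight (⟨s, hs⟩ : S)) _ _ fun t => ?_
    rfl
  obtain ⟨m', hm'⟩ : ∃ m' : ℕ, ∀ v : V, (v ^ Nat.card S) ^ m' = v := by
    have hco : Nat.Coprime (Nat.card S) (ℓ ^ a) :=
      (((Nat.Prime.coprime_iff_not_dvd hℓ.out).2 hS).symm).pow_right a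
    obtain ⟨m', hm'⟩ : ∃ m' : ℕ, Nat.card S * m' ≡ 1 [MOD ℓ ^ a] := by
      rcases Nat.eq_zero_or_pos a with h0 | h0
      · refine ⟨0, ?_⟩
        rw [h0, pow_zero]
        exact Nat.modEq_one
      · have hk : 1 < ℓ ^ a := Nat.one_lt_pow h0.ne' hℓ.out.one_lt
        obtain ⟨m', -, h⟩ := Nat.exists_mul_mod_eq_one_of_coprime hco hk
        refine ⟨m', ?_⟩
        unfold Nat.ModEq
        rw [h, Nat.mod_eq_of_lt hk]
    refine ⟨m', fun v => ?_⟩
    rw [← pow_mul]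
    have h1 : Nat.card S * m' ≡ 1 [MOD orderOf v] :=
      hm'.of_dvd (orderOf_dvd_of_pow_eq_one (hexp v))
    have h2 := pow_eq_pow_iff_modEq.2 h1
    rwa [pow_one] at h2
  refine ⟨(powMonoidHom m').comp P, ?_, ?_, ?_⟩
  · intro v s hs
    change s (P v ^ m') = P v ^ m' ∧ P (s v) ^ m' = P v ^ m'
    rw [map_pow, hP1 v s hs, hP2 v s hs]
    exact ⟨rfl, rfl⟩
  · intro v hv
    have e : P v = v ^ Nat.card S := by
      rw [hP, Finset.prod_congr rfl (fun (s : S) _ => hv s s.2), Finset.prod_const,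
        Finset.card_univ, Nat.card_eq_fintype_card]
    change P v ^ m' = v
    rw [e, hm']
  · intro W hW v
    have e : P v * (v ^ Nat.card S)⁻¹ ∈ W := by
      have h1 : P v * (v ^ Nat.card S)⁻¹ = ∏ s : S, ((s : MulAut V) v * v⁻¹) := by
        rw [Finset.prod_mul_distrib, hP, Finset.prod_const, Finset.card_univ,
          Nat.card_eq_fintype_card, inv_pow]
      rw [h1]
      exact W.prod_mem fun s _ => hW v s s.2
    have h2 : P v ^ m' * v⁻¹ = (P v * (v ^ Nat.card S)⁻¹) ^ m' := by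
      rw [mul_pow, inv_pow, hm']
    change P v ^ m' * v⁻¹ ∈ W
    rw [h2]
    exact W.pow_mem e m'

/-- Coprime action of a subgroup of the normaliser. -/
theorem cop (ℓ : ℕ) [hℓ : Fact ℓ.Prime] {G : Type} [Group G] [Finite G] (V T : Subgroup G)
    (hab : ∀ a ∈ V, ∀ b ∈ V, a * b = b * a) (hV : IsPGroup ℓ V)
    (hT : T ≤ Subgroup.normalizer (V : Set G))
    (hi : ¬ ℓ ∣ (Subgroup.centralizer (V : Set G)).relIndex T) :
    ⁅T, V⁆ ≤ V ∧ (V ⊓ Subgroup.centralizer (T : Set G)) ⊓ ⁅T, V⁆ = ⊥ ∧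
      ∀ v ∈ V, ∃ z ∈ V ⊓ Subgroup.centralizer (T : Set G), ∃ w ∈ ⁅T, V⁆, v = z * w := by
  have hle : ⁅T, V⁆ ≤ V := by
    rw [Subgroup.commutator_le]
    intro t ht v hv
    have h1 := (Subgroup.mem_normalizer_iff.1 (hT ht) v).1 hv
    exact V.mul_mem h1 (V.inv_mem hv)
  obtain ⟨φ, hφ, hk⟩ : ∃ φ : T →* MulAut V, (∀ (t : T) (v : V), ((φ t v : V) : G) =
      (t : G) * v * (t : G)⁻¹) ∧ φ.ker = (Subgroup.centralizer (V : Set G)).subgroupOf T := by
    refine ⟨V.normalizerMonoidHom.comp (Subgroup.inclusion hT), fun t v => rfl, ?_⟩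
    rw [← MonoidHom.comap_ker, Subgroup.normalizerMonoidHom_ker]
    rfl
  let _ : CommGroup V := { (inferInstance : Group V) with
    mul_comm := fun a b => Subtype.ext (hab a a.2 b b.2) }
  have hS : ¬ ℓ ∣ Nat.card φ.range := by
    rw [← Subgroup.index_ker, hk]
    exact hi
  obtain ⟨π, h1, h2, h3⟩ := proj ℓ V hV φ.range hS
  have hcm : ∀ (t : T) (v : V), ((φ t v * v⁻¹ : V) : G) =
      (t : G) * v * (t : G)⁻¹ * (v : G)⁻¹ := by
    intro t v
    change ((φ t v : V) : G) * (v : G)⁻¹ = _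
    rw [hφ]
  refine ⟨hle, ?_, ?_⟩
  · rw [Subgroup.eq_bot_iff_forall]
    rintro v ⟨⟨hv, hvT⟩, hvc⟩
    have h4 : π ⟨v, hv⟩ = ⟨v, hv⟩ := by
      apply h2
      rintro s ⟨t, rfl⟩
      apply Subtype.ext
      rw [hφ]
      change (t : G) * v * (t : G)⁻¹ = v
      rw [Subgroup.mem_centralizer_iff.1 hvT t t.2, mul_inv_cancel_right]
    have h5 : ⁅T, V⁆ ≤ π.ker.map V.subtype := by
      rw [Subgroup.commutator_le]
      intro t ht w hw
      refine ⟨φ ⟨t, ht⟩ ⟨w, hw⟩ * (⟨w, hw⟩ : V)⁻¹, ?_, hcm ⟨t, ht⟩ ⟨w, hw⟩⟩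
      change π _ = 1
      rw [map_mul, map_inv, (h1 ⟨w, hw⟩ (φ ⟨t, ht⟩) ⟨_, rfl⟩).2, mul_inv_cancel]
    obtain ⟨w, hw, hwv⟩ := h5 hvc
    have h6 : w = ⟨v, hv⟩ := Subtype.ext hwv
    rw [h6] at hw
    have h7 : π ⟨v, hv⟩ = 1 := hw
    rw [h4] at h7
    exact congrArg Subtype.val h7
  · intro v hv
    have h4 := h3 (⁅T, V⁆.subgroupOf V) (by
      rintro w s ⟨t, rfl⟩
      rw [Subgroup.mem_subgroupOf, hcm]
      exact Subgroup.commutator_mem_commutator t.2 w.2) ⟨v, hv⟩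
    rw [Subgroup.mem_subgroupOf] at h4
    have h5 : ((π ⟨v, hv⟩ : V) : G) * v⁻¹ ∈ ⁅T, V⁆ := h4
    have h6 : v * ((π ⟨v, hv⟩ : V) : G)⁻¹ ∈ ⁅T, V⁆ := by
      have := ⁅T, V⁆.inv_mem h5
      rwa [mul_inv_rev, inv_inv] at this
    refine ⟨π ⟨v, hv⟩, ⟨(π ⟨v, hv⟩).2, ?_⟩, v * ((π ⟨v, hv⟩ : V) : G)⁻¹, h6, ?_⟩
    · refine Subgroup.mem_centralizer_iff.2 fun t ht => ?_
      have h7 := congrArg Subtype.val (h1 ⟨v, hv⟩ (φ ⟨t, ht⟩) ⟨_, rfl⟩).1
      rw [hφ] at h7
      change t * ((π ⟨v, hv⟩ : V) : G) * t⁻¹ = _ at h7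
      exact mul_inv_eq_iff_eq_mul.1 h7
    · rw [← mul_assoc, hab _ (π ⟨v, hv⟩).2 v hv, mul_inv_cancel_right]

/-- Row CPV. -/
theorem cpv : CpvStmt := by
  intro ℓ hℓ F _ _ G _ _ e V γ hL hi
  exact cop ℓ V (Tg V γ) hL.ab hL.tp.pg inf_le_left hi

end Pool.Agent.PP.TV.H60
end
end -- Pool.Agent.Helper60_WAT.CPV

section -- Pool.Agent.Helper98_ASE.AsmW

/-!
# Squad ASE: the statements of blocks W, R, L, closed
-/

noncomputable section

namespace Pool.Agent.PP.SE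

open Pool.Agent.PP Pool.Agent.PP.K9 Pool.Agent.PP.T3 Pool.Agent.PP.SO Pool.Agent.PP.SD

/-! ## Block W -/

theorem fmb_ : FmbStmt := H44.fmb czb_ acb_ prb_
theorem cxv_ : CxvStmt := H3.cxv K9.wbo_ H43A.nsd
theorem cn3_ : Cn3Stmt := H95.cn3
theorem x3s_ : X3sStmt := H79.x3s czb_
theorem hxy_ : HxyStmt := H47.hxy
theorem hyc_ : HycStmt := H55.hyc czb_
theorem cn2_ : Cn2Stmt := H94.cn2
theorem fri_ : FriStmt := H79.fri
theorem mbs_ : MbsStmt := H63.mbs SO.mbi_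
theorem lt2_ : Lt2Stmt := H48.lt2 mbs_ fri_
theorem let_ : LetStmt := H61.let_
theorem lfm_ : LfmStmt := H61.lfm prb_
theorem xem_ : XemStmt := H81.xem T3.smg_ czb_
theorem fva_ : FvaStmt := H86.fva
theorem tya_ : TyaStmt := H82.tya
theorem brv_ : BrvStmt := H33.brv tya_ fva_
theorem fwb_ : FwbStmt := H94.fwb SO.mbi_ xem_
theorem ft3_ : Ft3Stmt := H47.ft3
theorem gdh_ : GdhStmt := H84.gdh SO.mbi_
theorem dvs_ : DvsStmt := H1.dvs prb_
theorem ppc_ : PpcStmt := H62P.ppc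

/-! ## Block R -/

theorem rte_ : RteStmt := H66.rte_
theorem hza_ : HzaStmt := H30.hza T5.deg_ SO.prj_ K9.H69.fmg KF.H25.idm K9.wbo_
theorem rxe_ : RxeStmt := H74.rxe
theorem hte_ : HteStmt := H91.hte hza_ rxe_ TB.nzf_ T5.pr5_ T5.deg_ T5.inq_ SO.homr_ SO.hixe_
  SO.hlnk_ K9.wbo_
theorem hsg_ : HsgStmt := H74.hsg hte_ SO.hrat_ SO.hfro_ SO.hfpr_ SO.hfce_ SO.hixe_
theorem etm_ : EtmStmt := H45.etm
theorem etc_ : EtcStmt := H91.etc etm_ hte_
theorem etg_ : EtgStmt := H44.etg K9.wbo_ SO.hlnk_ T3.prm_ SO.rtc_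
theorem etq_ : EtqStmt := H31Q.etq etm_ etg_ SO.hlnk_
theorem ets_ : EtsStmt := H59.ets etc_ etg_ SO.hrat_ SO.homr_ SO.hixe_
theorem hse_ : HseStmt := H66.hse hsg_ etq_ ets_ SO.hl12_ SO.hixe_
theorem etv_ : EtvStmt := H3.etv etc_

/-! ## Block L -/

theorem gxa_ : GxaStmt := H56.gxa
theorem gid_ : GidStmt := H72.gid SO.lt1_ gxa_
theorem gsc_ : GscStmt := H72.gsc SO.lav_
theorem gdp_ : GdpStmt := H33.gdp SO.lcm_
theorem gdi_ : GdiStmt := H83.gdi gdp_ SO.ltb_
theorem ke1_ : Ke1Stmt := H18.ke1 SO.rsl_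
theorem klp_ : KlpStmt := H96.klp prb_ mpb_
theorem eiv_ : EivStmt := H20.eiv acb_ czb_ fmb_ mpb_
theorem hex_ : HexStmt := H82.hex eiv_ hse_
theorem csb_ : CsbStmt := H65.csb
theorem mqc_ : MqcStmt := H44.mqc prb_
theorem mqa_ : MqaStmt := H16.mqa prb_ csb_
theorem mqb_ : MqbStmt := H97.mqb prb_ csb_
theorem hmx_ : HmxStmt := H48.hmx

end Pool.Agent.PP.SE
end
end -- Pool.Agent.Helper98_ASE.AsmW

section -- Pool.Agent.Helper98_ASE.Asm

/-!
# Squad ASE: comparison of two data, the number of modular characters, closed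
-/

noncomputable section

namespace Pool.Agent.PP.SE

open Pool.Agent.PP Pool.Agent.PP.K9 Pool.Agent.PP.T3 Pool.Agent.PP.SO Pool.Agent.PP.SD

theorem fud_ : SD.FudStmt := SD.H87.fud
theorem cnd_ : SD.CndStmt :=
  SD.H49.cnd SO.prj_ dgd_ H43A.rda SO.homr_ SO.htz_ SO.hlnk_ T3.inr_ T3.smg_
theorem x3c_ : X3cStmt := H58.x3c czb_
theorem x2c_ : X2cStmt := H98X.x2c acb_ fud_
theorem x2r_ : X2rStmt := H47.x2r x2c_ fmb_ prb_ czb_
theorem psc_ : SD.PscStmt := SD.H92.psc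
theorem fbr_ : FbrStmt := H40.fbr psc_ fud_ H43A.cjd T3.smg_ K9.rot_
theorem sle_ : SleStmt := H65.sle fbr_ cxv_ acb_ prb_ mpb_
theorem x3r_ : X3rStmt := H81.x3r x3c_ sle_ cn3_ x3s_ fmb_ acb_ prb_ czb_
theorem hye_ : HyeStmt := H81.hye hyc_ sle_ czb_ acb_
theorem hyf_ : HyfStmt := H55.hyf hyc_ sle_ cn2_ x3s_ fmb_ acb_ czb_
theorem hkf_ : HkfStmt := H20.hkf hxy_ hyf_ hye_ prb_
theorem lmn_ : LmnStmt := H63.lmn cnd_
theorem wta_ : WtaStmt := H13.wta hye_ czb_ SO.pex_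
theorem fwa_ : FwaStmt := H18.fwa hxy_ hye_ SO.mbi_
theorem fwd_ : FwdStmt := H13.fwd fwa_ fwb_ brv_ wta_ fva_
theorem gdv_ : GdvStmt := H41.gdv gdh_ tya_ fva_
theorem dav_ : DavStmt := H94.dav gdv_ wta_ prb_
theorem ts1_ : Ts1Stmt := H59.ts1 lfm_ x3r_
theorem ts2_ : Ts2Stmt := H60.ts2 x2c_ xem_ fva_ SO.mbi_
theorem ts3_ : Ts3Stmt := H56.ts3 x2c_ x2r_ lfm_ fmb_ prb_ mpb_
theorem ts4_ : Ts4Stmt := H60.ts4 hxy_ hkf_ SO.m12_ prb_ SO.mbi_
theorem ts5_ : Ts5Stmt :=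
  H30.ts5 lt2_ lmn_ let_ ts1_ ts2_ ts3_ ts4_ xem_ etv_ fva_ ft3_ prb_ czb_

/-- the relation -/
theorem fie_ : FieStmt := H71.fie ts5_ fwd_ dav_ dvs_ wta_ prb_

theorem gco_ : GcoStmt := H83.gco gid_ gsc_ gdi_ SO.lhf_ SO.lia_
theorem ke2_ : Ke2Stmt := H17.ke2 SO.rsl_ prb_ ke1_
theorem kre_ : KreStmt := H46.kre ke2_ klp_ gco_ prb_ mpb_
theorem cpx_ : CpxStmt := H81.cpx rte_ fie_ ppc_

/-- comparison of two data -/
theorem cme_ : CmeStmt := H13.cme cpx_ hex_ mqc_ mqa_ mqb_ hmx_ kre_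

theorem tgg_ : TggStmt := H42.tgg H43A.cen H43A.bre

/-- the number of modular characters modulo `ℓ ^ 2` -/
theorem kae_ : KaeStmt := H43A.kae' tgg_ rsx_ cme_

/-- the theorem for block idempotents -/
theorem s2f_ : S2fStmt := H43A.s2f' tgg_ rsx_ cme_

end Pool.Agent.PP.SE
end
end -- Pool.Agent.Helper98_ASE.Asm

section -- Pool.Agent.Helper66_WAT.Asm

/-!
# Squad WAT: the statements, closed

`abr_ : AbrStmt`: the theorem for blocks; `fnw_ : FnwStmt`: the final theorem.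
-/

open scoped BigOperators

noncomputable section

namespace Pool.Agent.PP.TV

theorem clv_ : ClvStmt := H13.clv

theorem cpv_ : CpvStmt := H60.cpv

theorem dbl_ : DblStmt := H38.dbl

theorem fou_ : FouStmt := H24.fou

theorem nlb_ : NlbStmt := H13.nlb

theorem smm_ : SmmStmt := H88.smm T5.co3_ T3.smg_ T3.lrk_

theorem tgi_ : TgiStmt := H46.tgi TB.zcp_ TB.zin_

theorem tsn_ : TsnStmt := H66.tsn T2.pwu_ T3.qt1_ T8.qt3_ T3.lcj_ T8.fqt_ T2.ort_ T2.teb_

theorem tva_ : TvaStmt := H89.tva tgi_ TB.zcp_ TB.poz_ TB.pjz_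

theorem wat_ : WatStmt :=
  H13.wat TW.sta_ tva_ smm_ fou_ cpv_ dbl_ T3.loc_ T3.lsb_ TB.zcp_ K9.H34.inx

theorem rb2_ : Rb2Stmt := H47.rb2 (fun ℓ => TW.tt_ ℓ) SE.s2f_

theorem abr_ : AbrStmt :=
  H38.abr wat_ tsn_ nlb_ clv_ rb2_ cpv_ T8.t8a_ T2.fst_ T3.loc_ T3.lsb_ K9.H34.inx

theorem fnw_ : FnwStmt :=
  H66.fnw T3.flt_ T2.dza_ T8.qt3_ K9.H34.inx T12.tca_ T3.t3a_ abr_ clv_

end Pool.Agent.PP.TV
end
end -- Pool.Agent.Helper66_WAT.Asm

section -- Pool.Agent.Helper67_WAX.CTX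

/-!
# Squad WAX (MP_6a3f1a_al), row CTX (helper67)
-/

open scoped BigOperators

noncomputable section

namespace Pool.Agent.PP.TX.H67

open Pool.Agent.PP Pool.Agent.PP.TX

theorem ctx (hclr : ClrStmt) (hclv : TV.ClvStmt) : CtxStmt := by
  intro ℓ _ F _ hF G A _ _ _ _ e V γ f V' γ' h1 h2 h3 h4 a hT
  obtain ⟨hr, hab⟩ := hclr ℓ F hF G A e V γ f V' γ' h1 h2 h3 h4
  obtain ⟨-, hfc, hix⟩ := hclv ℓ F hF G A e V γ f V' γ' h1 h2 h3 h4
  rcases hT with ⟨h5, h6, h7⟩ | ⟨r, h5, h6⟩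
  · exact Or.inl ⟨h5, hfc h6, hix.trans h7⟩
  · refine Or.inr ⟨r, hr r h5, ?_⟩
    rcases h6 with ⟨h7, h8⟩ | ⟨h7, h8, h9⟩ | h7
    · exact Or.inl ⟨lt_of_le_of_lt hix h7, h8⟩
    · exact Or.inr (Or.inl ⟨h7, hab h8, h9⟩)
    · exact Or.inr (Or.inr h7)

end Pool.Agent.PP.TX.H67
end
end -- Pool.Agent.Helper67_WAX.CTX

section -- Pool.Agent.Helper69_WAX.LXA

/-!
# Squad WAX, row LXA: small inertial quotients
-/

set_option autoImplicit false

noncomputable section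

namespace Pool.Agent.PP.TX.H69

open Pool.Agent.Helper51_AWC Pool.Agent.Helper79_WRA Pool.Agent.PP Pool.Agent.PP.KF
open Pool.Agent.PP.K9 Pool.Agent.PP.K9.H97 Pool.Agent.PP.H75 Pool.Agent.PP.T3 Pool.Agent.PP.T2
open Pool.Agent.PP.T5 Pool.Agent.PP.TB Pool.Agent.PP.TV Pool.Agent.PP.TX
open Pool.Agent.PP.T8 (Rv Fq Fr Ei Hk Rk Fd In)

attribute [local instance] Ideal.Quotient.field

/-- Row LXA. -/
theorem lxa (ln0 : Ln0Stmt) (bnk : BnkStmt) : LxaStmt := by
  intro ℓ hℓ M _ hM G _ _ e V γ hL hZ hix r hr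
  by_cases hV : V = ⊥
  · exact (ln0 ℓ M hM G e V γ hL hV).trans (Nat.one_le_pow _ _ hℓ.out.pos)
  obtain ⟨b, hb⟩ : ∃ b, Monoid.exponent V = ℓ ^ b := by
    obtain ⟨n, hn⟩ := IsPGroup.iff_card.1 hL.tp.pg
    have h1 : Monoid.exponent V ∣ ℓ ^ n := by
      rw [← hn]
      exact Group.exponent_dvd_nat_card
    obtain ⟨b, -, hb⟩ := (Nat.dvd_prime_pow hℓ.out).1 h1
    exact ⟨b, hb⟩
  have hb0 : 0 < b := by
    rcases Nat.eq_zero_or_pos b with h | h
    · exfalso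
      rw [h, pow_zero, Monoid.exp_eq_one_iff] at hb
      haveI := hb; exact hV (Subgroup.eq_bot_of_subsingleton V)
    · exact h
  by_cases h2 : ℓ = 2
  · exfalso
    apply hV
    have h3 : ix V γ = 1 := by
      have h4 : ix V γ ≠ 0 := by
        unfold ix
        exact Subgroup.index_ne_zero_of_finite
      omega
    have h5 : Tg V γ ≤ Subgroup.centralizer (V : Set G) := Subgroup.relIndex_eq_one.1 h3
    rw [eq_bot_iff, ← hZ]
    intro v hv
    refine Subgroup.mem_inf.2 ⟨hv, ?_⟩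
    rw [Subgroup.mem_centralizer_iff]
    intro t ht
    exact (Subgroup.mem_centralizer_iff.1 (h5 ht) v hv).symm
  · have h3 := bnk ℓ M hM h2 G e V γ hL b 1 Nat.one_pos hb0 hb (Or.inr (Or.inl hix))
      (Or.inr (Or.inl hix))
    rw [Nat.sub_self, pow_zero, mul_one, pow_one] at h3
    have h4 : 0 < Nat.card (Uw ℓ V) := Nat.card_pos
    exact Nat.le_of_mul_le_mul_right (h3.trans hr) h4

end Pool.Agent.PP.TX.H69
end
end -- Pool.Agent.Helper69_WAX.LXA

section -- Pool.Agent.WAX.Asm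

/-!
# Squad WAX: the statements, closed

`txa_ : TxaStmt`: the theorem for blocks; `fnx_ : FnxStmt`: the final theorem.
-/

noncomputable section

namespace Pool.Agent.PP.TX

open Pool.Agent.PP Pool.Agent.PP.K9

theorem ln0_ : Ln0Stmt := H21.ln0 K9.H3.lbd K9.dzo_
theorem bnk_ : BnkStmt := H82.bnk T2.pr2_ T2.fxs_ T2.stg_ T8.dat_ T8.hgt_ T8.bn8_ T8.rtr_ T8.hkx_
theorem krg_ : KrgStmt :=
  H52.krg T3.rgl_ T3.inr_ T3.glp_ T3.co1_ T3.lpw_ T3.cgr_ T3.dgc_ K9.H34.inx K9.H3.lbd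
theorem lxa_ : LxaStmt := H69.lxa ln0_ bnk_
theorem lxb_ : LxbStmt := H7.lxb ln0_ bnk_ krg_ T8.rtr_ TB.uwa_
theorem lxc_ : LxcStmt := H25.lxc TB.bnd_ TW.sta_
theorem lnw_ : LnwStmt :=
  H84.lnw TV.wat_ T3.loc_ T3.lsb_ T3.psg_ T8.qt3_ T8.fqt_ K9.H02.pug
theorem clr_ : ClrStmt := H76.clr TB.uwa_
theorem ctx_ : CtxStmt := H67.ctx clr_ TV.clv_
theorem ltx_ : LtxStmt := H58.ltx lnw_ ctx_ TV.cpv_ ln0_ lxa_ lxb_ lxc_ T8.lfr_
theorem gen_ : GenStmt := H17.gen T8.fqt_ T2.fst_ T8.ts8_ T2.dvx_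
theorem txa_ : TxaStmt := H58.txa gen_ ctx_ ltx_

/-- the final theorem -/
theorem fnx_ : FnxStmt :=
  H20.fnx TV.fnw_ T3.flt_ T2.dza_ T8.qt3_ K9.H34.inx TB.uwa_ ctx_ txa_

end Pool.Agent.PP.TX
end
end -- Pool.Agent.WAX.Asm

section -- Pool.Agent.PFD.AsmD5b

/-!
# Squad PFD, block D5b: assembly
-/

open scoped BigOperators

noncomputable section

namespace Pool.Agent.PFD

open Pool.Agent.PP Pool.Agent.PP.K9

theorem kxe_of (keg : KegStmt) : KxeStmt := H11.kxe keg H34.trn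

theorem edf_ : EdfStmt := H91.edf (H91.eda H91.edc H91.edv) H91.edc H91.edv

theorem spe_ : SpeStmt := H65.spe edf_ H6.lke K9.H34.inx

theorem ksm_ : KsmStmt := H31.ksm TV.tgi_ TB.zcp_ TB.poz_ TB.pjz_ TV.smm_

theorem leq_of (keg : KegStmt) : LeqStmt :=
  H11.leq (kxe_of keg) H24.ncg ksm_ H6.lke H63.lnt H6.spx TW.sta_ T3.lsb_ K9.H34.inx

theorem chr_ : ChrStmt := H39.chr H39.rqa

theorem mny_of (keg : KegStmt) : MnyStmt :=
  H11.mny chr_ H64.yad H94b.bnr (leq_of keg) H6.spx H41.spj H6.eix T3.nvt_ T3.lcj_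

theorem fnd_of (keg : KegStmt) : FndStmt := H95.fnd (mny_of keg) spe_ T3.flt_ T2.dza_

theorem fne_of (keg : KegStmt) : H66.FneStmt := H66.fne (mny_of keg) spe_ T3.flt_ T3.psg_

theorem fin_of (keg : KegStmt) : FinStmt := H41.fin TX.fnx_ (fnd_of keg)

end Pool.Agent.PFD
end
end -- Pool.Agent.PFD.AsmD5b
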