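import Pool.Agent.Helper12_AWB.B298

/-!
# Merged copies (generated) of the modules

* `Pool.Agent.Helper10_PSS.ADS`
* `Pool.Agent.Helper15_PSS.EXC`
* `Pool.Agent.Helper24_PSS.LTX`
* `Pool.Agent.Helper49_PSS.TWN`
* `Pool.Agent.Helper60_PSS.IZX`
* `Pool.Agent.Helper63_PSS.FRT`
* `Pool.Agent.Helper77_PSS.QRQ`
* `Pool.Agent.Helper11_PSS.LenA`
* `Pool.Agent.Helper16_PSS.MNN`
* `Pool.Agent.Helper66_PSS.AsmG`
* `Pool.Agent.Helper3_PST.SRY`
* `Pool.Agent.Helper81_PST.ADP`
-/

set_option autoImplicit false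

section -- Pool.Agent.Helper10_PSS.ADS

/-!
# Squad PSS, row ADS: the class (A) + (S) is admissible
-/

namespace Pool.Agent.PSS.H10

open Pool.Agent.PSS

section

variable {V V' : Type} [Group V] [Group V'] {E : Subgroup (MulAut V)} {E' : Subgroup (MulAut V')}
  {π : V →* V'}

theorem qr_comm (hQ : Qr E E' π) (hab : ∀ a b : V, a * b = b * a) :
    ∀ a b : V', a * b = b * a := by
  intro a b
  obtain ⟨x, rfl⟩ := hQ.sur a
  obtain ⟨y, rfl⟩ := hQ.sur b
  rw [← map_mul, hab, map_mul]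

theorem qr_pow (hQ : Qr E E' π) {a' : MulAut V'} (ha' : a' ∈ E') : a' ^ Nat.card E = 1 := by
  obtain ⟨a, ha, h⟩ := hQ.lif a' ha'
  have h1 : ∀ (k : ℕ) (v : V), π ((a ^ k) v) = (a' ^ k) (π v) := by
    intro k
    induction k with
    | zero => intro v; rw [pow_zero, pow_zero]; rfl
    | succ k ih =>
      intro v
      rw [pow_succ, pow_succ, MulAut.mul_apply, MulAut.mul_apply, ih, h]
  have h2 : (⟨a, ha⟩ : E) ^ Nat.card E = 1 := pow_card_eq_one'
  have h3 : a ^ Nat.card E = 1 := congrArg Subtype.val h2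
  ext w
  obtain ⟨v, rfl⟩ := hQ.sur w
  rw [← h1, h3]
  rfl

theorem qr_card [Finite V'] (hQ : Qr E E' π) {ℓ : ℕ} (hl : ℓ.Prime) (hE : ¬ ℓ ∣ Nat.card E) :
    ¬ ℓ ∣ Nat.card E' := by
  intro h
  have : Fact ℓ.Prime := ⟨hl⟩
  have : Finite (MulAut V') := Finite.of_injective (fun a : MulAut V' => (a : V' → V'))
    DFunLike.coe_injective
  obtain ⟨x, hx⟩ := exists_prime_orderOf_dvd_card' ℓ h
  apply hE
  rw [← hx]
  apply orderOf_dvd_of_pow_eq_one
  apply Subtype.ext
  exact qr_pow hQ x.2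

end

theorem ads (hc : CyqStmt) : AdsStmt := by
  intro ℓ hl
  refine ⟨?_, ?_, ?_, ?_⟩
  · rintro V _ E W ⟨C, U, X, h⟩ h0
    apply h.nt
    rw [eq_bot_iff, ← h0, ← h.uw]
    exact le_sup_left
  · rintro V _ E W ⟨C, U, X, h⟩ a ha w hw
    have h1 : W.map a.toMonoidHom ≤ W := by
      rw [← h.uw, Subgroup.map_sup]
      apply sup_le
      · rintro _ ⟨u, hu, rfl⟩
        exact (le_sup_left : U ≤ U ⊔ X) (h.su a ha u hu)
      · rintro _ ⟨u, hu, rfl⟩
        exact (le_sup_right : X ≤ U ⊔ X) (h.sx a ha u hu)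
    exact h1 ⟨w, hw, rfl⟩
  · rintro V V' _ _ E E' W π hQ ⟨C, U, X, h⟩
    have hinj : Function.Injective π.toMonoidHom := π.injective
    have hst : ∀ S : Subgroup V, (∀ a ∈ E, ∀ u ∈ S, a u ∈ S) → ∀ a ∈ E',
        ∀ u ∈ S.map π.toMonoidHom, a u ∈ S.map π.toMonoidHom := by
      rintro S hS a' ha' _ ⟨u, hu, rfl⟩
      obtain ⟨a, ha, h1⟩ := hQ.lif a' ha'
      exact ⟨a u, hS a ha u hu, h1 u⟩
    have hker : π.toMonoidHom.ker = ⊥ := (MonoidHom.ker_eq_bot_iff _).2 hinj
    refine ⟨C.map π.toMonoidHom, U.map π.toMonoidHom, X.map π.toMonoidHom, qr_comm hQ h.ab, ?_, ?_,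
      ?_, ?_, ?_, ?_, hst U h.su, hst X h.sx, ?_⟩
    · exact hc.1 V V' E E' _ h.ab hQ C h.cy (by rw [hker, inf_bot_eq])
    · rw [← Subgroup.map_inf _ _ _ hinj, h.cw, Subgroup.map_bot]
    · rw [← Subgroup.map_sup, h.jn]
      exact Subgroup.map_top_of_surjective _ hQ.sur
    · rw [← Subgroup.map_inf _ _ _ hinj, h.ux, Subgroup.map_bot]
    · rw [← Subgroup.map_sup, h.uw]
    · intro h0
      exact h.nt ((Subgroup.map_eq_bot_iff_of_injective _ hinj).1 h0)
    · rintro a' ha' _ ⟨u, hu, rfl⟩ hu1 hfix _ ⟨w, hw, rfl⟩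
      obtain ⟨a, ha, h1⟩ := hQ.lif a' ha'
      have h2 : a u = u := by
        apply hinj
        rw [h1]
        exact hfix
      have h3 : u ≠ 1 := by
        rintro rfl
        exact hu1 (map_one _)
      rw [← h1, h.fr a ha u hu h3 h2 w hw]
  · rintro V V' _ _ _ _ E E' W π hp hE hab hQ ⟨C, U, X, h⟩ hker ⟨v, hv⟩
    have hab' := qr_comm hQ hab
    have hE' := qr_card hQ hl hE
    have hp' : IsPGroup ℓ V' := hp.of_surjective π hQ.sur
    have h1 : Cyc E' (C.map π) := hc.1 V V' E E' π hab hQ C h.cy (by rw [hker]; exact h.cw)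
    have h2 : C.map π = ⊤ := by
      have h3 : (C ⊔ W).map π = ⊤ := by
        rw [h.jn]
        exact Subgroup.map_top_of_surjective _ hQ.sur
      rw [Subgroup.map_sup] at h3
      have h4 : W.map π = ⊥ := by
        rw [eq_bot_iff]
        rintro _ ⟨w, hw, rfl⟩
        rw [← hker] at hw
        exact (MonoidHom.mem_ker).1 hw
      rwa [h4, sup_bot_eq] at h3
    rw [h2] at h1
    have h5 : (⊤ : Subgroup V') ≠ ⊥ := by
      intro h0
      apply hv
      have h6 : v ∈ (⊤ : Subgroup V') := Subgroup.mem_top v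
      rw [h0] at h6
      exact (Subgroup.mem_bot).1 h6
    obtain ⟨C₁, Y₁, k1, k2, k3, k4, k5, k6⟩ := hc.2 ℓ V' E' hl hp' hE' hab' ⊤ h1 h5
    refine ⟨Y₁, C₁, Y₁, ⊥, hab', k1, k2, k3, inf_bot_eq _, sup_bot_eq _, k4, k5, ?_, k6⟩
    intro a _ x hx
    rw [Subgroup.mem_bot] at hx ⊢
    rw [hx, map_one]

end Pool.Agent.PSS.H10
end -- Pool.Agent.Helper10_PSS.ADS

section -- Pool.Agent.Helper15_PSS.EXC

/-!
# Squad PSS, row EXC: the block of `N(R)`, `R ≤ V`, with the subpair `(V, γ)`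
-/

open scoped BigOperators

noncomputable section

namespace Pool.Agent.PSS.H15

open Pool.Agent.Helper51_AWC Pool.Agent.Helper79_WRA Pool.Agent.PP Pool.Agent.PP.KF
open Pool.Agent.PP.K9 Pool.Agent.PP.K9.H97 Pool.Agent.PP.H75 Pool.Agent.PP.T3
open Pool.Agent.PFD Pool.Agent.PSS

attribute [local instance] Ideal.Quotient.field

/-- the zero extension is additive -/
theorem ext0_add {F X : Type} [Field F] [Group X] [Finite X] (K : Subgroup X) (a b : K → F) :
    H75.ext0 K (a + b) = H75.ext0 K a + H75.ext0 K b := by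
  funext x
  by_cases hx : x ∈ K
  · have h1 := H75.ext0_apply K (a + b) ⟨x, hx⟩
    have h2 := H75.ext0_apply K a ⟨x, hx⟩
    have h3 := H75.ext0_apply K b ⟨x, hx⟩
    simp only at h1 h2 h3
    rw [Pi.add_apply, h1, h2, h3, Pi.add_apply]
  · rw [Pi.add_apply, H75.ext0_supp K _ x hx, H75.ext0_supp K _ x hx, H75.ext0_supp K _ x hx,
      add_zero]

theorem ext0_zero {F X : Type} [Field F] [Group X] [Finite X] (K : Subgroup X) :
    H75.ext0 K (0 : K → F) = 0 := by
  funext x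
  by_cases hx : x ∈ K
  · have h1 := H75.ext0_apply K (0 : K → F) ⟨x, hx⟩
    simp only at h1
    rw [h1]
    rfl
  · rw [H75.ext0_supp K _ x hx]
    rfl

theorem br_add {F X : Type} [Field F] [Group X] [Finite X] (V : Subgroup X) (a b : X → F) :
    br V (a + b) = br V a + br V b := by
  funext x
  by_cases hx : x ∈ Subgroup.centralizer (V : Set X)
  · rw [Pi.add_apply, H66.br_of_mem hx, H66.br_of_mem hx, H66.br_of_mem hx, Pi.add_apply]
  · rw [Pi.add_apply, H66.br_of_not_mem hx, H66.br_of_not_mem hx, H66.br_of_not_mem hx, add_zero]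

theorem br_zero {F X : Type} [Field F] [Group X] [Finite X] (V : Subgroup X) :
    br V (0 : X → F) = 0 := by
  funext x
  by_cases hx : x ∈ Subgroup.centralizer (V : Set X)
  · rw [H66.br_of_mem hx]
  · rw [H66.br_of_not_mem hx]
    rfl

theorem exc (bnr : BnrStmt) : ExcStmt := by
  intro ℓ _ M _ hM G _ _ e V γ hL R hRV
  classical
  have hF : GoodF ℓ (FF M) := H50.fld ℓ Fact.out M hM
  have hR : IsPGroup ℓ R := hL.tp.pg.to_le hRV
  have hVC : V ≤ Subgroup.centralizer (V : Set G) := by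
    intro a ha
    rw [Subgroup.mem_centralizer_iff]
    intro b hb
    exact hL.ab b hb a ha
  have hCC : Subgroup.centralizer (V : Set G) ≤ Subgroup.centralizer (R : Set G) :=
    Subgroup.centralizer_le (show (R : Set G) ⊆ V from hRV)
  have hCN : Subgroup.centralizer (R : Set G) ≤ Subgroup.normalizer (R : Set G) :=
    Subgroup.centralizer_le_normalizer _
  have hVN : V ≤ Subgroup.normalizer (R : Set G) := hVC.trans (hCC.trans hCN)
  have hCVN : Subgroup.centralizer (V : Set G) ≤ Subgroup.normalizer (R : Set G) :=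
    hCC.trans hCN
  have hbrR : IsIdem (fun t : Subgroup.normalizer (R : Set G) => br R e t) :=
    (H20.brm ℓ (FF M) hF G R _ hR hCN le_rfl).2.2 e hL.blk.1
  have hbs : ∀ x, x ∉ Subgroup.normalizer (R : Set G) → br R e x = 0 := by
    intro x hx
    exact H66.br_of_not_mem (fun h => hx (hCN h))
  have hIV : Ix (Subgroup.centralizer (V : Set G)) (br V e) :=
    ⟨fun x hx => H66.br_of_not_mem hx,
      (H20.brm ℓ (FF M) hF G V _ hL.tp.pg le_rfl (Subgroup.centralizer_le_normalizer _)).2.2 e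
        hL.blk.1⟩
  have hγ0 : γ ≠ 0 := hL.gam.ne
  -- the block `c`
  obtain ⟨c, hc, hcc, hc3⟩ := K9.H24.exists_blk
    (fun a : Subgroup.normalizer (R : Set G) → FF M =>
      mulF γ (br V (H75.ext0 (Subgroup.normalizer (R : Set G)) a)))
    (by
      change mulF γ (br V (H75.ext0 (Subgroup.normalizer (R : Set G)) 0)) = 0
      rw [ext0_zero, br_zero]
      exact H46.mulF_zero _)
    (fun a b => by
      change mulF γ (br V (H75.ext0 (Subgroup.normalizer (R : Set G)) (a + b))) =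
        mulF γ (br V (H75.ext0 (Subgroup.normalizer (R : Set G)) a)) +
        mulF γ (br V (H75.ext0 (Subgroup.normalizer (R : Set G)) b))
      rw [ext0_add, br_add]
      exact H46.mulF_add _ _ _) hbrR (by
      change mulF γ (br V (H75.ext0 (Subgroup.normalizer (R : Set G))
        (fun t : Subgroup.normalizer (R : Set G) => br R e t))) ≠ 0
      rw [H75.ext0_res _ hbs, C2.H3.br_br hRV, hL.gam.ix.comm hIV, hL.und]
      exact hγ0)
  change mulF γ (br V (H75.ext0 (Subgroup.normalizer (R : Set G)) c)) ≠ 0 at hc3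
  obtain ⟨δ, hδ⟩ : ∃ δ : G → FF M, δ = H75.ext0 (Subgroup.normalizer (R : Set G)) c := ⟨_, rfl⟩
  rw [← hδ] at hc3
  have hδs : ∀ x, x ∉ Subgroup.normalizer (R : Set G) → δ x = 0 := by
    rw [hδ]
    exact H75.ext0_supp _ c
  have hδC : (fun t : Subgroup.normalizer (R : Set G) => δ t) = c := by
    rw [hδ]
    exact funext (H75.ext0_apply _ c)
  have hVp : IsPGroup ℓ (V.subgroupOf (Subgroup.normalizer (R : Set G))) :=
    hL.tp.pg.comap_of_injective (Subgroup.normalizer (R : Set G)).subtype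
      (Subgroup.normalizer (R : Set G)).subtype_injective
  have hIx : Ix (Subgroup.centralizer (V : Set G)) (br V δ) := by
    refine ⟨fun x hx => H66.br_of_not_mem hx, ?_⟩
    have h1 := (H20.brm ℓ (FF M) hF (Subgroup.normalizer (R : Set G))
      (V.subgroupOf (Subgroup.normalizer (R : Set G))) _ hVp le_rfl
      (Subgroup.centralizer_le_normalizer _)).2.2 _ hc.1
    have h2 : (fun t : Subgroup.centralizer (V : Set G) => br V δ t) = fun t =>
        br (V.subgroupOf (Subgroup.normalizer (R : Set G))) c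
          ((H85.cequiv hVN hCVN).symm t : Subgroup.normalizer (R : Set G)) := by
      funext t
      rw [H66.br_of_mem t.2, H66.br_of_mem ((H85.cequiv hVN hCVN).symm t).2]
      rw [← hδC]
      rfl
    rw [h2]
    exact (H20.IsIdem_equiv (H85.cequiv hVN hCVN).symm).2 h1
  have hγc : mulF (br V δ) γ = γ := by
    rw [hIx.comm hL.gam.ix]
    rcases hL.gam.dich' hIx with h2 | h2
    · exact h2
    · exact absurd h2 hc3
  -- the order of the defect groups
  obtain ⟨g, -, hg⟩ := bnr ℓ M hM G e V γ hL R hR c hc hcc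
  have hT : Tp ℓ c (V.subgroupOf (Subgroup.normalizer (R : Set G))) := by
    refine ⟨hVp, ?_, ?_⟩
    · have h1 : br V δ ≠ 0 := by
        intro h
        apply hc3
        rw [h]
        exact H46.mulF_zero _
      obtain ⟨x, hx, hx0⟩ := C2.H3.gd_of_br' h1
      refine ⟨⟨x, hCVN hx⟩, (cent_sub hVN _).2 hx, ?_⟩
      have h2 := congrFun hδC ⟨x, hCVN hx⟩
      rw [← h2]
      exact hx0
    · intro Q hQ hQc
      refine (hg.tp.mx Q hQ hQc).trans ?_
      have h1 : Nat.card ((conjS g V).subgroupOf (Subgroup.normalizer (R : Set G))) ≤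
          Nat.card (conjS g V) := by
        refine Nat.card_le_card_of_injective
          (fun x => (⟨(x : Subgroup.normalizer (R : Set G)), Subgroup.mem_subgroupOf.1 x.2⟩ :
            conjS g V)) ?_
        intro x y hxy
        apply Subtype.ext
        apply Subtype.ext
        exact congrArg (fun t : conjS g V => (t : G)) hxy
      rw [card_conjS] at h1
      rwa [Nat.card_congr (Subgroup.subgroupOfEquivOfLe hVN).toEquiv]
  have h1 := H85.ld_of hVN hCVN hL.ab (b := δ) (γ := γ) (by rw [hδC]; exact hc) hL.gam hγc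
    (by rw [hδC]; exact hT)
  rw [hδC] at h1
  exact ⟨c, h1⟩

end Pool.Agent.PSS.H15
end
end -- Pool.Agent.Helper15_PSS.EXC

section -- Pool.Agent.Helper24_PSS.LTX

/-!
# Squad PSS (MP_6a3f1a_al), row LTX: the number `lnum T γ` in a subgroup `X ≥ C(V)`
-/

open scoped BigOperators

noncomputable section

namespace Pool.Agent.PSS.H24

open Pool.Agent.Helper51_AWC Pool.Agent.Helper79_WRA Pool.Agent.PP Pool.Agent.PP.KF
open Pool.Agent.PP.K9 Pool.Agent.PP.K9.H97 Pool.Agent.PP.H75 Pool.Agent.PP.T3 Pool.Agent.PP.T2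

/-- `lnum` of a subgroup of `X` -/
theorem lnum_sub {F G : Type} [Field F] [Group G] (X Y : Subgroup G) (hY : Y ≤ X) (a : G → F) :
    lnum (Y.subgroupOf X) (fun t : X => a t) = lnum Y a := by
  have h1 := Pool.Agent.PP.H75.lnum_map X.subtype X.subtype_injective (Y.subgroupOf X) a
  rw [Subgroup.map_subgroupOf_eq_of_le hY] at h1
  exact h1.symm

theorem ltx : LtxStmt := by
  intro ℓ F _ G _ _ e V γ hL X hCX
  have hVX : V ≤ X := fun v hv => hCX (Subgroup.mem_centralizer_iff.2 fun w hw =>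
    hL.ab w hw v hv)
  have hT := H85.Tg_eq hVX hCX hL.gam.supp
  refine ⟨?_, fun v => ?_⟩
  · rw [hT]
    exact lnum_sub X _ inf_le_right γ
  · rw [hT]
    have h1 : (Tg V γ ⊓ X).subgroupOf X ⊓ Cu v = (Tg V γ ⊓ X ⊓ Cu (v : G)).subgroupOf X := by
      ext t
      rw [Subgroup.mem_inf, Subgroup.mem_subgroupOf, Subgroup.mem_subgroupOf, Subgroup.mem_inf,
        Subgroup.mem_inf (p := Tg V γ ⊓ X)]
      refine and_congr (Subgroup.mem_inf).symm.symm ?_
      rw [Subgroup.mem_centralizer_singleton_iff, Subgroup.mem_centralizer_singleton_iff]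
      exact ⟨fun h => congrArg Subtype.val h, fun h => Subtype.ext h⟩
    rw [h1]
    exact lnum_sub X _ (inf_le_left.trans inf_le_right) γ

end Pool.Agent.PSS.H24
end
end -- Pool.Agent.Helper24_PSS.LTX

section -- Pool.Agent.Helper49_PSS.TWN

/-!
# Squad PSS, rows TWN and CYQ (helper49)
-/

set_option autoImplicit false

open scoped BigOperators

namespace Pool.Agent.PSS.H49

open Pool.Agent.Helper51_AWC Pool.Agent.Helper79_WRA Pool.Agent.PP Pool.Agent.PP.KF
open Pool.Agent.PP.K9 Pool.Agent.PP.K9.H97 Pool.Agent.PP.H75 Pool.Agent.PP.T3 Pool.Agent.PP.T2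
open Pool.Agent.PFD (Ei)
open Pool.Agent.PSS

/-- TWN: the inertial group normalises an `E`-stable subgroup. -/
theorem twn : TwnStmt := by
  intro F G _ V γ W hWV hE
  have key : ∀ t ∈ Tg V γ, ∀ w ∈ W, t * w * t⁻¹ ∈ W := by
    intro t ht w hw
    have htn : t ∈ Subgroup.normalizer (V : Set G) := ht.1
    have h1 : V.normalizerMonoidHom ⟨t, htn⟩ ∈ Ei V γ :=
      Subgroup.mem_map_of_mem _ (Subgroup.mem_subgroupOf.2 ht)
    have h2 := hE _ h1 ⟨w, hWV hw⟩ (Subgroup.mem_subgroupOf.2 hw)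
    exact h2
  intro t ht
  rw [Subgroup.mem_normalizer_iff]
  intro w
  constructor
  · exact key t ht w
  · intro h
    have h1 := key t⁻¹ (inv_mem ht) _ h
    have h2 : t⁻¹ * (t * w * t⁻¹) * t⁻¹⁻¹ = w := by group
    rwa [h2] at h1

/-- products of cyclic subgroups in quotients -/
theorem cyq1 {V V' : Type} [Group V] [Group V'] {E : Subgroup (MulAut V)}
    {E' : Subgroup (MulAut V')} {π : V →* V'} (hq : Qr E E' π) (C : Subgroup V) (hC : Cyc E C) : C ⊓ π.ker = ⊥ → Cyc E' (C.map π) := by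
  induction hC with
  | bot =>
    intro _
    rw [Subgroup.map_bot]
    exact Cyc.bot
  | mul C Y _ hy hs hd ih =>
    intro h
    have hC0 : C ⊓ π.ker = ⊥ := by
      rw [eq_bot_iff, ← h]
      exact inf_le_inf_right _ le_sup_left
    rw [Subgroup.map_sup]
    refine Cyc.mul _ _ (ih hC0) ?_ ?_ ?_
    · obtain ⟨y, hy1, hy2⟩ := hy
      refine ⟨π y, Subgroup.mem_map_of_mem _ hy1, ?_⟩
      rintro _ ⟨x, hx, rfl⟩
      obtain ⟨k, hk⟩ := hy2 x hx
      exact ⟨k, by rw [hk, map_zpow]⟩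
    · rintro a' ha' _ ⟨y, hy1, rfl⟩
      obtain ⟨a, ha, haa⟩ := hq.lif a' ha'
      rw [← haa]
      exact Subgroup.mem_map_of_mem _ (hs a ha y hy1)
    · rw [eq_bot_iff]
      rintro _ ⟨⟨c, hc, rfl⟩, ⟨y, hy1, hyc⟩⟩
      have h1 : c * y⁻¹ ∈ (C ⊔ Y) ⊓ π.ker := by
        refine Subgroup.mem_inf.2 ⟨(C ⊔ Y).mul_mem (Subgroup.mem_sup_left hc)
          ((C ⊔ Y).inv_mem (Subgroup.mem_sup_right hy1)), ?_⟩
        rw [MonoidHom.mem_ker, map_mul, map_inv, hyc, mul_inv_cancel]
      rw [h, Subgroup.mem_bot, mul_inv_eq_one] at h1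
      have h2 : c ∈ C ⊓ Y := ⟨hc, by rw [h1]; exact hy1⟩
      rw [hd, Subgroup.mem_bot] at h2
      rw [Subgroup.mem_bot, h2, map_one]

/-- an automorphism of order prime to `ℓ` of a cyclic `ℓ`-group with a nontrivial fixed point -/
theorem fix_cyc {ℓ : ℕ} {V : Type} [Group V] [Finite V] {E : Subgroup (MulAut V)}
    (hl : ℓ.Prime) (hp : IsPGroup ℓ V) (hE : ¬ ℓ ∣ Nat.card E) {y0 u : V} {a : MulAut V}
    (ha : a ∈ E) {k j : ℤ} (hk : a y0 = y0 ^ k) (hu : u = y0 ^ j) (hu1 : u ≠ 1)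
    (hau : a u = u) : a y0 = y0 := by
  have : Fact ℓ.Prime := ⟨hl⟩
  obtain ⟨n, hn⟩ := IsPGroup.iff_orderOf.1 hp y0
  have hlZ : Prime (ℓ : ℤ) := Nat.prime_iff_prime_int.1 hl
  have h1 : ((ℓ : ℤ) ^ n) ∣ j * (k - 1) := by
    have h2 : y0 ^ (j * (k - 1)) = 1 := by
      rw [hu, map_zpow, hk, ← zpow_mul] at hau
      rw [mul_sub, mul_one, zpow_sub, mul_comm j k, hau, mul_inv_cancel]
    have h3 := orderOf_dvd_iff_zpow_eq_one.2 h2
    rw [hn] at h3
    exact_mod_cast h3
  have hlk : (ℓ : ℤ) ∣ k - 1 := by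
    by_contra h
    have h2 : IsCoprime ((ℓ : ℤ) ^ n) (k - 1) :=
      IsCoprime.pow_left ((Prime.coprime_iff_not_dvd hlZ).2 h)
    have h3 := h2.dvd_of_dvd_mul_right h1
    apply hu1
    rw [hu]
    apply orderOf_dvd_iff_zpow_eq_one.1
    rw [hn]
    exact_mod_cast h3
  have hpow : ∀ i : ℕ, (a ^ i) y0 = y0 ^ (k ^ i) := by
    intro i
    induction i with
    | zero => rw [pow_zero, pow_zero, zpow_one, MulAut.one_apply]
    | succ i ih =>
      rw [pow_succ, MulAut.mul_apply, hk, map_zpow, ih, ← zpow_mul, pow_succ]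
  set N := orderOf a with hN
  have hNE : N ∣ Nat.card E := Subgroup.orderOf_dvd_natCard E ha
  set S := ∑ i ∈ Finset.range N, k ^ i with hS
  have hS1 : ¬ (ℓ : ℤ) ∣ S := by
    intro h
    apply hE
    refine dvd_trans ?_ hNE
    have h2 : (ℓ : ℤ) ∣ S - N := by
      have h3 : S - N = ∑ i ∈ Finset.range N, (k ^ i - 1) := by
        rw [Finset.sum_sub_distrib, Finset.sum_const, Finset.card_range, nsmul_eq_mul, mul_one]
      rw [h3]
      apply Finset.dvd_sum
      intro i _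
      exact hlk.trans (sub_one_dvd_pow_sub_one k i)
    have h4 : (ℓ : ℤ) ∣ N := by
      have := dvd_sub h h2
      rwa [sub_sub_cancel] at this
    exact_mod_cast h4
  have h5 : ((ℓ : ℤ) ^ n) ∣ S * (k - 1) := by
    rw [hS, geom_sum_mul]
    have h2 : y0 ^ (k ^ N - 1) = 1 := by
      rw [zpow_sub, ← hpow, hN, pow_orderOf_eq_one, MulAut.one_apply, zpow_one, mul_inv_cancel]
    have h3 := orderOf_dvd_iff_zpow_eq_one.2 h2
    rw [hn] at h3
    exact_mod_cast h3
  have h6 : IsCoprime ((ℓ : ℤ) ^ n) S :=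
    IsCoprime.pow_left ((Prime.coprime_iff_not_dvd hlZ).2 hS1)
  have h7 := h6.dvd_of_dvd_mul_left h5
  have h8 : y0 ^ (k - 1) = 1 := by
    apply orderOf_dvd_iff_zpow_eq_one.1
    rw [hn]
    exact_mod_cast h7
  rw [hk]
  have h9 : y0 ^ k = y0 ^ (k - 1) * y0 := by
    rw [← zpow_add_one, sub_add_cancel]
  rw [h9, h8, one_mul]

/-- CYQ. -/
theorem cyq : CyqStmt := by
  refine ⟨fun V V' _ _ E E' π _ hq C hC h => cyq1 hq C hC h, ?_⟩
  intro ℓ V _ _ E hl hp hE hab C hC
  induction hC with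
  | bot =>
    intro h
    exact absurd rfl h
  | mul C Y hC hy hs hd ih =>
    intro h
    by_cases hY : Y = ⊥
    · rw [hY, sup_bot_eq] at h ⊢
      exact ih h
    · refine ⟨C, Y, hC, hd, rfl, hY, hs, ?_⟩
      intro a ha u hu hu1 hau y hy1
      obtain ⟨y0, hy0, hy2⟩ := hy
      obtain ⟨k, hk⟩ := hy2 _ (hs a ha y0 hy0)
      obtain ⟨j, hj⟩ := hy2 u hu
      obtain ⟨i, hi⟩ := hy2 y hy1
      have h1 := fix_cyc hl hp hE ha hk hj hu1 hau
      rw [hi, map_zpow, h1]

end Pool.Agent.PSS.H49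
end -- Pool.Agent.Helper49_PSS.TWN

section -- Pool.Agent.Helper60_PSS.IZX

/-!
# Squad PSS, row IZX: the indices in a subgroup which contains the inertial group
-/

noncomputable section

namespace Pool.Agent.PSS.H60

open Pool.Agent.Helper51_AWC Pool.Agent.Helper79_WRA Pool.Agent.PP Pool.Agent.PP.KF
open Pool.Agent.PP.K9 Pool.Agent.PP.K9.H97 Pool.Agent.PP.H75 Pool.Agent.PP.T3 Pool.Agent.PP.T2
open Pool.Agent.PP.TB (Zd Star iz cz)

theorem sub_inf {G : Type} [Group G] (A B X : Subgroup G) :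
    A.subgroupOf X ⊓ B.subgroupOf X = (A ⊓ B).subgroupOf X := by
  ext t
  simp only [Subgroup.mem_inf, Subgroup.mem_subgroupOf]

theorem Cu_sub {G : Type} [Group G] (X : Subgroup G) (v : X) :
    (Cu v : Subgroup X) = (Cu (v : G)).subgroupOf X := by
  ext t
  rw [Subgroup.mem_subgroupOf]
  unfold Cu
  rw [Subgroup.mem_centralizer_singleton_iff, Subgroup.mem_centralizer_singleton_iff]
  constructor
  · intro h
    exact congrArg Subtype.val h
  · intro h
    exact Subtype.ext h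

theorem izx : IzxStmt := by
  intro ℓ F _ G _ _ e V γ hL X hTX
  have hCX : Subgroup.centralizer (V : Set G) ≤ X := (H66.cent_le_Tg hL).trans hTX
  have hVX : V ≤ X := by
    intro v hv
    apply hCX
    rw [Subgroup.mem_centralizer_iff]
    intro w hw
    exact hL.ab w hw v hv
  have hT : Tg (V.subgroupOf X) (fun t : X => γ t) = (Tg V γ).subgroupOf X := by
    rw [H85.Tg_eq hVX hCX hL.gam.supp, inf_eq_left.2 hTX]
  constructor
  · unfold Pool.Agent.PP.TB.iz
    rw [hT, H85.cent_eq hVX, sub_inf]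
    exact Subgroup.relIndex_subgroupOf hTX
  · intro v
    unfold Pool.Agent.PP.TB.cz
    rw [hT, H85.cent_eq hVX, Cu_sub, sub_inf, sub_inf]
    exact Subgroup.relIndex_subgroupOf (inf_le_left.trans hTX)

end Pool.Agent.PSS.H60
end
end -- Pool.Agent.Helper60_PSS.IZX

section -- Pool.Agent.Helper63_PSS.FRT

/-!
# Squad PSS, row FRT: the theorem of Fong and Reynolds for `br_V e`
-/

open scoped BigOperators

set_option linter.unusedSectionVars false

noncomputable section

namespace Pool.Agent.PSS.H63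

open Pool.Agent.Helper51_AWC Pool.Agent.Helper79_WRA Pool.Agent.PP Pool.Agent.PP.KF
open Pool.Agent.PP.K9 Pool.Agent.PP.K9.H97 Pool.Agent.PP.H75 Pool.Agent.PP.T3 Pool.Agent.PP.T2

attribute [local instance] Ideal.Quotient.field

section gen

variable {F A : Type} [Field F] [Group A] [Finite A]

/-- `ℓ`-numbers of conjugates -/
theorem lnum_conj {e b : A → F} (he : IsCl e) (g : A) :
    lnum (st (cj g b)) (mulF e (cj g b)) = lnum (st b) (mulF e b) := by
  have h3 : (st b).map (MulAut.conj g).toMonoidHom = st (cj g b) := by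
    ext y
    rw [Subgroup.mem_map, mem_st]
    constructor
    · rintro ⟨t, ht, rfl⟩
      change cj (g * t * g⁻¹) (cj g b) = cj g b
      rw [cj_cj]
      have h4 : cj t b = b := ht
      conv_rhs => rw [← h4, cj_cj]
      congr 1
      group
    · intro h
      refine ⟨g⁻¹ * y * g, ?_, ?_⟩
      · change cj (g⁻¹ * y * g) b = b
        have h' := congrArg (cj g⁻¹) h
        rw [cj_inv_cj, cj_cj, cj_cj] at h'
        exact h'
      · change g * (g⁻¹ * y * g) * g⁻¹ = y
        group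
  rw [← h3, lnum_map _ (MulAut.conj g).injective]
  congr 1
  have e1 : mulF e (cj g b) = cj g (mulF e b) := by rw [cj_mulF, cj_isCl g he]
  rw [e1]
  funext x
  change mulF e b (g⁻¹ * (g * x * g⁻¹) * g) = mulF e b x
  congr 1
  group

/-- the theorem of Fong and Reynolds, the number of the irreducible modular characters -/
theorem fong {C : Subgroup A} {ℓ : ℕ} (hF : GoodF ℓ F) {e b : A → F} (h : Bd C b) (he : IsBlk e)
    (hne : mulF e b ≠ 0) : ln e = lnum (st b) (mulF e b) := by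
  have := Fintype.ofFinite (Om b)
  have h1 := (h.fam2 he.1).card H20.ibf H20.ibj H20.ibn H20.eig hF
  rw [h.sum_eq he hne] at h1
  have h2 : ∀ f : Om b, Nat.card (MulAction.stabilizer A f) *
      lnum (MulAction.stabilizer A f) (mulF e f.1) =
        Nat.card (st b) * lnum (st b) (mulF e b) := by
    intro f
    have h3 : Nat.card (MulAction.stabilizer A f) = Nat.card (st b) := by
      have k1 : (MulAction.stabilizer A f).index = Fintype.card (Om b) := by
        rw [MulAction.index_stabilizer, ← Nat.card_eq_fintype_card, ← Set.ncard_univ]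
        congr 1
        ext f'
        constructor
        · intro _
          trivial
        · intro _
          obtain ⟨g, rfl⟩ := omk_surj f
          obtain ⟨g', rfl⟩ := omk_surj f'
          refine ⟨g' * g⁻¹, ?_⟩
          apply Subtype.ext
          change cj (g' * g⁻¹) (cj g b) = cj g' b
          rw [cj_cj]
          congr 1
          group
      have k2 := (MulAction.stabilizer A f).card_mul_index
      have k3 := (st b).card_mul_index
      rw [k1] at k2
      rw [index_st] at k3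
      have k4 : 0 < Fintype.card (Om b) := Fintype.card_pos_iff.2 ⟨f⟩
      exact Nat.eq_of_mul_eq_mul_right k4 (k2.trans k3.symm)
    rw [h3, om_stab]
    obtain ⟨g, rfl⟩ := omk_surj f
    congr 1
    exact lnum_conj he.1.1 g
  rw [Finset.sum_congr rfl fun f _ => h2 f, Finset.sum_const, Finset.card_univ, smul_eq_mul,
    ← index_st, ← mul_assoc, mul_comm ((st b).index), (st b).card_mul_index] at h1
  exact Nat.eq_of_mul_eq_mul_left Nat.card_pos h1

end gen

/-- FRT -/
theorem frt : FrtStmt := by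
  intro ℓ _ M _ hM G _ _ e V γ hL
  have hF : GoodF ℓ (FF M) := H50.fld ℓ Fact.out M hM
  obtain ⟨hN, -⟩ := H85.nvt ℓ M hM G e V γ hL
  have hCX := H85.cent_le_norm V
  have hnor : (Subgroup.centralizer ((V.subgroupOf (Subgroup.normalizer (V : Set G)) :
      Subgroup (Subgroup.normalizer (V : Set G))) :
      Set (Subgroup.normalizer (V : Set G)))).Normal := by
    have : (V.subgroupOf (Subgroup.normalizer (V : Set G))).Normal :=
      Subgroup.normal_in_normalizer
    exact inferInstance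
  have hbd : Bd _ (fun t : Subgroup.normalizer (V : Set G) => γ t) :=
    ⟨hnor, hN.gam.supp, hN.gam.blk⟩
  have hund : mulF (fun t : Subgroup.normalizer (V : Set G) => br V e t)
      (fun t : Subgroup.normalizer (V : Set G) => γ t) =
      fun t : Subgroup.normalizer (V : Set G) => γ t := by
    rw [← mulF_res _ γ (fun x hx => H66.br_of_not_mem (fun h => hx (hCX h))), hL.und]
  have h1 := fong hF hbd hN.blk (by rw [hund]; exact hbd.ne)
  rw [h1, hund]
  have h2 : (st (fun t : Subgroup.normalizer (V : Set G) => γ t)).map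
      (Subgroup.normalizer (V : Set G)).subtype = Tg V γ := by
    ext y
    rw [Subgroup.mem_map]
    constructor
    · rintro ⟨t, ht, rfl⟩
      refine ⟨t.2, ?_⟩
      intro x
      have h3 := (cj_eq_iff t _).1 ht
      by_cases hx : x ∈ Subgroup.normalizer (V : Set G)
      · exact h3 ⟨x, hx⟩
      · rw [hL.gam.supp x (fun h' => hx (hCX h')), hL.gam.supp]
        intro h'
        apply hx
        have h4 := (Subgroup.normalizer (V : Set G)).mul_mem
          ((Subgroup.normalizer (V : Set G)).mul_mem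
            ((Subgroup.normalizer (V : Set G)).inv_mem t.2) (hCX h')) t.2
        have e1 : (t : G)⁻¹ * (t * x * (t : G)⁻¹) * t = x := by group
        exact e1 ▸ h4
    · rintro ⟨h3, h4⟩
      refine ⟨⟨y, h3⟩, ?_, rfl⟩
      change (⟨y, h3⟩ : Subgroup.normalizer (V : Set G)) ∈
        st (fun t : Subgroup.normalizer (V : Set G) => γ t)
      rw [mem_st, cj_eq_iff]
      intro x
      exact h4 x
  rw [← h2, lnum_map _ (Subgroup.subtype_injective _)]
  rfl

end Pool.Agent.PSS.H63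
end
end -- Pool.Agent.Helper63_PSS.FRT

section -- Pool.Agent.Helper77_PSS.QRQ

/-!
# Squad PSS, row QRQ (helper77): the inertial quotient of the blocks of a quotient
-/

set_option autoImplicit false

open scoped BigOperators

noncomputable section

namespace Pool.Agent.PSS.H77

open Pool.Agent.Helper51_AWC Pool.Agent.Helper79_WRA Pool.Agent.PP Pool.Agent.PP.KF
open Pool.Agent.PP.K9 Pool.Agent.PP.K9.H97 Pool.Agent.PP.H75 Pool.Agent.PP.T3 Pool.Agent.PP.T2
open Pool.Agent.PP.TB (Zd Star iz cz)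
open Pool.Agent.PFD (Ei)

attribute [local instance] Ideal.Quotient.field

theorem mem_Ei {G F : Type} [Group G] {V : Subgroup G} {γ : G → F} {x : MulAut V} :
    x ∈ Ei V γ ↔ ∃ t ∈ Tg V γ, ∀ v : V, ((x v : V) : G) = t * v * t⁻¹ := by
  constructor
  · rintro ⟨y, hy, rfl⟩
    exact ⟨(y : G), hy, fun v => rfl⟩
  · rintro ⟨t, ht, h⟩
    refine ⟨⟨t, ht.1⟩, ht, ?_⟩
    apply MulEquiv.ext
    intro v
    apply Subtype.ext
    rw [h v]
    rfl

/-- the type of a conjugate -/
theorem tp_cj {G F : Type} [Group G] [Finite G] [Field F] {ℓ : ℕ} {e : G → F} (he : IsCl e)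
    {V : Subgroup G} (h : Tp ℓ e V) (q : G) : Tp ℓ e (conjS q V) := by
  refine ⟨h.pg.map _, ?_, fun Q hQ hg => ?_⟩
  · obtain ⟨x, hx, hb⟩ := h.gd
    refine ⟨q * x * q⁻¹, ?_, by rw [he]; exact hb⟩
    rw [Subgroup.mem_centralizer_iff] at hx ⊢
    intro y hy
    have hy' : q⁻¹ * y * q ∈ V := mem_conjS.1 hy
    have h1 := hx _ hy'
    have h2 : q * (q⁻¹ * y * q * x) * q⁻¹ = q * (x * (q⁻¹ * y * q)) * q⁻¹ := by rw [h1]
    have e1 : q * (q⁻¹ * y * q * x) * q⁻¹ = y * (q * x * q⁻¹) := by group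
    have e2 : q * (x * (q⁻¹ * y * q)) * q⁻¹ = q * x * q⁻¹ * y := by group
    rw [e1, e2] at h2
    exact h2
  · have h1 : Nat.card (conjS q V) = Nat.card V := Nat.card_congr (conjSEquiv q V).toEquiv.symm
    rw [h1]
    exact h.mx Q hQ hg

/-- the image of the subgroup of a subgroup which is everything -/
theorem map_sub {G A : Type} [Group G] [Group A] (p : G →* A) {N : Subgroup G} (hN : N = ⊤)
    (V : Subgroup G) : (V.subgroupOf N).map (p.comp N.subtype) = V.map p := by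
  subst hN
  ext y
  constructor
  · rintro ⟨x, hx, rfl⟩
    exact ⟨(x : G), hx, rfl⟩
  · rintro ⟨x, hx, rfl⟩
    exact ⟨⟨x, trivial⟩, hx, rfl⟩

theorem push_sub {G A F : Type} [Group G] [Group A] [Finite G] [Finite A] [Field F] (p : G →* A)
    {N : Subgroup G} (hN : N = ⊤) (a : G → F) :
    push (p.comp N.subtype) (fun t : N => a t) = push p a := by
  subst hN
  classical
  have := Fintype.ofFinite G
  funext y
  rw [push_eq, push_eq, ← Equiv.sum_comp (Subgroup.topEquiv (G := G)).toEquiv]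
  rfl

theorem qrq (hQ1 : T3.Qt1Stmt) (hQ3 : Pool.Agent.PP.T8.Qt3Stmt) : QrqStmt := by
  intro ℓ _ M _ hM G _ _ e V γ hLd W hWV hWn A _ _ p hp hker f hf hff
  have hF : GoodF ℓ (FF M) := H50.fld ℓ Fact.out M hM
  have hVp : IsPGroup ℓ V := hLd.tp.pg
  have hWp : IsPGroup ℓ W := hVp.to_le hWV
  have hN : Subgroup.normalizer (W : Set G) = ⊤ := Subgroup.normalizer_eq_top W
  obtain ⟨p', hp'⟩ : ∃ p' : Subgroup.normalizer (W : Set G) →* A,
      p' = p.comp (Subgroup.normalizer (W : Set G)).subtype := ⟨_, rfl⟩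
  have hp'a : ∀ x : Subgroup.normalizer (W : Set G), p' x = p x := fun x => by rw [hp']; rfl
  have hp's : Function.Surjective p' := by
    intro y
    obtain ⟨x, hx⟩ := hp y
    exact ⟨⟨x, by rw [hN]; trivial⟩, by rw [hp'a]; exact hx⟩
  have hp'k : p'.ker = W.subgroupOf (Subgroup.normalizer (W : Set G)) := by
    ext x
    rw [MonoidHom.mem_ker, hp'a, ← MonoidHom.mem_ker, hker]
    rfl
  have hbr : br W e = e := KF.H55.br_idem hF hWn hWp hLd.blk.1
  have hff' : mulF (push p' (fun t : Subgroup.normalizer (W : Set G) => br W e t)) f = f := by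
    rw [hbr, hp', push_sub p hN e]
    exact hff
  -- the type
  obtain ⟨k, -, hk⟩ := hQ1 ℓ M hM G e V γ hLd W hWp A p' hp's hp'k f hf hff'
  have hTp : Tp ℓ f (V.map p) := by
    rw [hp', map_sub p hN] at hk
    have h1 := tp_cj hf.1.1 hk (p k)⁻¹
    have h2 : conjS (p k)⁻¹ ((conjS k V).map p) = V.map p := by
      ext y
      rw [mem_conjS, inv_inv, Subgroup.mem_map, Subgroup.mem_map]
      constructor
      · rintro ⟨x, hx, hxy⟩
        refine ⟨k⁻¹ * x * k, mem_conjS.1 hx, ?_⟩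
        rw [map_mul, map_mul, map_inv, hxy]
        group
      · rintro ⟨x, hx, hxy⟩
        refine ⟨k * x * k⁻¹, mem_conjS.2 ?_, ?_⟩
        · have : k⁻¹ * (k * x * k⁻¹) * k = x := by group
          rw [this]
          exact hx
        · rw [map_mul, map_mul, map_inv, hxy]
    rw [h2] at h1
    exact h1
  have hV' : (V.subgroupOf (Subgroup.normalizer (W : Set G))).map p' = V.map p := by
    rw [hp']
    exact map_sub p hN V
  obtain ⟨γ', hLd', hFe⟩ := hQ3 ℓ M hM G e V γ hLd W hWV A p' hp's hp'k f hf hff'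
    (by rw [hV']; exact hTp)
  rw [hV'] at hLd' hFe
  obtain ⟨n, hn, hFe⟩ := hFe
  have hnV : ∀ v : G, v ∈ V ↔ n * v * n⁻¹ ∈ V := fun v => Subgroup.mem_normalizer_iff.1 hn v
  refine ⟨γ', hLd', ?_⟩
  let π : V →* V.map p :=
    { toFun := fun v => ⟨p (n * v * n⁻¹), ⟨n * v * n⁻¹, (hnV v).1 v.2, rfl⟩⟩
      map_one' := by
        apply Subtype.ext
        show p (n * ((1 : V) : G) * n⁻¹) = 1
        rw [Subgroup.coe_one, mul_one, mul_inv_cancel, map_one]
      map_mul' := fun v w => by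
        apply Subtype.ext
        show p (n * ((v * w : V) : G) * n⁻¹) = p (n * v * n⁻¹) * p (n * w * n⁻¹)
        rw [← map_mul, Subgroup.coe_mul]
        congr 1
        group }
  have hπ : ∀ v : V, ((π v : V.map p) : A) = p (n * v * n⁻¹) := fun v => rfl
  refine ⟨π, ?_, ?_, ?_⟩
  · ext v
    rw [MonoidHom.mem_ker, Subgroup.mem_subgroupOf]
    have h1 : π v = 1 ↔ n * (v : G) * n⁻¹ ∈ W := by
      rw [← hker, MonoidHom.mem_ker, ← hπ v]
      constructor
      · intro h
        rw [h]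
        rfl
      · intro h
        exact Subtype.ext h
    rw [h1]
    constructor
    · intro h
      have h2 := hWn.conj_mem _ h n⁻¹
      have h3 : n⁻¹ * (n * (v : G) * n⁻¹) * n⁻¹⁻¹ = v := by group
      rwa [h3] at h2
    · intro h
      exact hWn.conj_mem _ h n
  · rintro ⟨y, u, hu, rfl⟩
    have h1 : n⁻¹ * u * n ∈ V := by
      rw [hnV]
      have : n * (n⁻¹ * u * n) * n⁻¹ = u := by group
      rw [this]
      exact hu
    refine ⟨⟨n⁻¹ * u * n, h1⟩, Subtype.ext ?_⟩
    rw [hπ]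
    show p (n * (n⁻¹ * u * n) * n⁻¹) = p u
    congr 1
    group
  · intro a' ha'
    obtain ⟨t', ht', h'⟩ := mem_Ei.1 ha'
    obtain ⟨t, ht, h⟩ := hFe t' ht'
    have htN : t ∈ Subgroup.normalizer (V : Set G) := ht.1
    refine ⟨V.normalizerMonoidHom ⟨t, htN⟩, ⟨⟨t, htN⟩, ht, rfl⟩, fun v => Subtype.ext ?_⟩
    rw [hπ, h' (π v), hπ]
    have h2 := h v v.2 ⟨n * v * n⁻¹, by rw [hN]; trivial⟩
      ⟨n * (t * v * t⁻¹) * n⁻¹, by rw [hN]; trivial⟩ rfl rfl
    rw [hp'a, hp'a] at h2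
    exact h2

end Pool.Agent.PSS.H77
end
end -- Pool.Agent.Helper77_PSS.QRQ

section -- Pool.Agent.Helper11_PSS.LenA

/-!
Squad PSS: LEN without hypotheses.
-/

noncomputable section

namespace Pool.Agent.PSS.H11

open Pool.Agent.PP Pool.Agent.PP.K9

theorem len_ : LenStmt :=
  len H33.qrx (H77.qrq T3.qt1_ T8.qt3_) H49.twn (H15.exc PFD.H94b.bnr) H63.frt H24.ltx H60.izx
    H86.qln PFD.ksm_ PFD.H63.lnt PFD.H6.lke T3.lsb_ TW.sta_ K9.H34.inx K9.H75.lbr

end Pool.Agent.PSS.H11
end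
end -- Pool.Agent.Helper11_PSS.LenA

section -- Pool.Agent.Helper16_PSS.MNN

/-!
# PSS, row MNN: the alternating sums of the images are zero, for an admissible class
-/

open scoped BigOperators

noncomputable section

namespace Pool.Agent.PSS.H16

open Pool.Agent.Helper51_AWC Pool.Agent.Helper79_WRA Pool.Agent.PP Pool.Agent.PP.KF
open Pool.Agent.PP.K9 Pool.Agent.PP.K9.H97 Pool.Agent.PP.H75 Pool.Agent.PP.T3 Pool.Agent.PP.T2
open Pool.Agent.PFD (Ei)

attribute [local instance] Ideal.Quotient.field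

theorem mnn (qrx : QrxStmt) (qrj : QrjStmt) (chr : PFD.ChrStmt) (yad : PFD.YadStmt)
    (bnr : PFD.BnrStmt) (lcj : T3.LcjStmt) : MnnStmt := by
  intro K hAdm hLen ℓ hℓ M _ hM
  have hA : Adm ℓ K := hAdm ℓ Fact.out
  have hF : GoodF ℓ (FF M) := H50.fld ℓ Fact.out M hM
  suffices hmain : ∀ n : ℕ, ∀ (G : Type) [Group G] [Finite G] (e : G → FF M) (V : Subgroup G)
      (γ : G → FF M), Ld ℓ e V γ → ∀ W : Subgroup V, K ℓ V (Ei V γ) W →
      ∀ (A : Type) [Group A] [Finite A], Nat.card A = n → ∀ p : G →* A, Function.Surjective p →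
      p.ker ≤ V → p.ker ≠ V → YY ℓ ⊤ (push p e) = 0 by
    intro G _ _ e V γ h1 W h2 A _ _ p h3 h4 h5
    exact hmain _ G e V γ h1 W h2 A rfl p h3 h4 h5
  intro n
  induction n using Nat.strong_induction_on with
  | _ n ih =>
  intro G _ _ e V γ hL W hS A _ _ hn p hp hK hKV
  have hY : ∀ R : Subgroup G, IsPGroup ℓ R → p.ker ≤ R → p.ker ≠ R → Gd e R →
      Nat.card R < Nat.card V → YQ ℓ e R = 0 := by
    intro R hR hKR hne _ hRV
    have hfid : IsIdem (fun t : Subgroup.normalizer (R : Set G) => br R e t) :=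
      (H20.brm ℓ (FF M) hF G R (Subgroup.normalizer (R : Set G)) hR
        (Subgroup.centralizer_le_normalizer _) le_rfl).2.2 e hL.blk.1
    unfold YQ
    refine yad ℓ (FF M) hF _ _ _ (QuotientGroup.mk'_surjective _) _ hfid ?_
    intro c hc1 hc2
    obtain ⟨g, hg, hL1⟩ := bnr ℓ M hM G e V γ hL R hR c hc1 hc2
    have hL' : Ld ℓ e (conjS g V) (cj g γ) := (lcj ℓ (FF M) hF G e V γ hL g).1
    have hCN : Subgroup.centralizer ((conjS g V : Subgroup G) : Set G) ≤
        Subgroup.normalizer (R : Set G) :=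
      (Subgroup.centralizer_le hg).trans (Subgroup.centralizer_le_normalizer _)
    have hVN : conjS g V ≤ Subgroup.normalizer (R : Set G) := by
      intro x hx
      apply hCN
      rw [Subgroup.mem_centralizer_iff]
      intro y hy
      exact hL'.ab y hy x hx
    obtain ⟨π₁, -, hQ₁⟩ := qrj (FF M) G V γ g
    obtain ⟨π₂, -, hQ₂⟩ := qrx ℓ (FF M) G e _ _ hL' _ hCN
    have hS1 := hA.iso _ _ _ _ _ π₂ hQ₂ (hA.iso _ _ _ _ _ π₁ hQ₁ hS)
    have hRN : R ≤ Subgroup.normalizer (R : Set G) := Subgroup.le_normalizer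
    have hcR : Nat.card (R.subgroupOf (Subgroup.normalizer (R : Set G))) = Nat.card R :=
      Nat.card_congr (Subgroup.subgroupOfEquivOfLe hRN).toEquiv
    have hlt : Nat.card (Subgroup.normalizer (R : Set G) ⧸
        R.subgroupOf (Subgroup.normalizer (R : Set G))) < n := by
      have h1 := (R.subgroupOf
        (Subgroup.normalizer (R : Set G))).card_eq_card_quotient_mul_card_subgroup
      have h2 : Nat.card (Subgroup.normalizer (R : Set G)) ≤ Nat.card G :=
        Subgroup.card_le_card_group _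
      have h3 : Nat.card G = Nat.card A * Nat.card p.ker := by
        rw [p.ker.card_eq_card_quotient_mul_card_subgroup]
        rw [Nat.card_congr (QuotientGroup.quotientKerEquivOfSurjective p hp).toEquiv]
      have h4 : Nat.card p.ker < Nat.card R := by
        refine lt_of_le_of_ne (Subgroup.card_le_of_le hKR) (fun h => hne ?_)
        exact Subgroup.eq_of_le_of_card_ge hKR h.ge
      have h5 : 0 < Nat.card A := Nat.card_pos
      rw [hcR] at h1
      rw [h1, h3, hn] at h2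
      rw [hn] at h5
      by_contra h6
      have h7 : n * Nat.card R ≤ Nat.card (Subgroup.normalizer (R : Set G) ⧸
          R.subgroupOf (Subgroup.normalizer (R : Set G))) * Nat.card R :=
        Nat.mul_le_mul_right _ (not_lt.1 h6)
      have h8 : n * Nat.card p.ker < n * Nat.card R := Nat.mul_lt_mul_of_pos_left h4 h5
      omega
    refine ih _ hlt _ c _ _ hL1 _ hS1 _ rfl _ (QuotientGroup.mk'_surjective _) ?_ ?_
    · rw [QuotientGroup.ker_mk']
      intro x hx
      exact Subgroup.mem_subgroupOf.2 (hg (Subgroup.mem_subgroupOf.1 hx))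
    · rw [QuotientGroup.ker_mk']
      intro h
      have h1 : Nat.card ((conjS g V).subgroupOf (Subgroup.normalizer (R : Set G))) =
          Nat.card V := by
        rw [Nat.card_congr (Subgroup.subgroupOfEquivOfLe hVN).toEquiv,
          Pool.Agent.Helper51_AWC.card_conjS]
      rw [← h, hcR] at h1
      omega
  rw [chr ℓ M hM G e hL.blk V hL.tp A p hp hK hKV hY]
  rw [hLen ℓ M hM G e V γ hL (Or.inr ⟨W, hS⟩), sub_self, mul_zero]

end Pool.Agent.PSS.H16
end
end -- Pool.Agent.Helper16_PSS.MNN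

section -- Pool.Agent.Helper66_PSS.AsmG

/-!
# Squad PSS, group level: assembly

`fns_of`: the final theorem from LEN and STO.
-/

noncomputable section

namespace Pool.Agent.PSS.H66

open Pool.Agent.PP

theorem mnn_ : MnnStmt :=
  H16.mnn H33.qrx H21.qrj PFD.chr_ PFD.H64.yad PFD.H94b.bnr T3.lcj_

theorem ads_ : AdsStmt := H10.ads H49.cyq

theorem cln_ : ClnStmt := H44.cln H49.cyq PFD.edf_ PFD.H6.lke K9.H34.inx

theorem qrq_ : QrqStmt := H77.qrq T3.qt1_ T8.qt3_

theorem exc_ : ExcStmt := H15.exc PFD.H94b.bnr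

theorem fns_of (len : LenStmt) (sto : StoStmt) : FnsStmt :=
  fns (mnn_ KS ads_ (len KS ads_ sto)) cln_ T3.flt_ T3.psg_

end Pool.Agent.PSS.H66
end
end -- Pool.Agent.Helper66_PSS.AsmG

section -- Pool.Agent.Helper3_PST.SRY

/-!
# PST, block GV, row SRY: the series of a cyclic factor
-/

noncomputable section

namespace Pool.Agent.PST.GU.H3

open Pool.Agent.PSS

theorem sry : SryStmt := by
  intro ℓ V _ _ E U C Y hl hp hE hC
  have hf : Fact ℓ.Prime := ⟨hl⟩
  suffices hmain : ∀ n : ℕ, ∀ Y : Subgroup V, Nat.card Y = n → (∀ a ∈ E, ∀ v ∈ Y, a v ∈ Y) →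
      (∃ y ∈ Y, ∀ x ∈ Y, ∃ k : ℤ, x = y ^ k) → C ⊓ Y = ⊥ →
      (Y ≠ ⊥ → ∀ a ∈ E, (∀ y ∈ Y, a y = y) → ∀ u ∈ U, u ≠ 1 → a u = u → ∀ x ∈ U, a x = x) →
      Sr ℓ E U C (C ⊔ Y) from hmain _ Y rfl
  intro n
  induction n using Nat.strong_induction_on with
  | _ n ih =>
  intro Y hn hY hcyc hCY hfr
  by_cases hY0 : Y = ⊥
  · rw [hY0, sup_bot_eq]
    exact Relation.ReflTransGen.refl
  obtain ⟨y, hy, hgen⟩ := hcyc
  have hYz : Y = Subgroup.zpowers y := by
    apply le_antisymm
    · intro x hx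
      obtain ⟨k, rfl⟩ := hgen x hx
      exact Subgroup.zpow_mem_zpowers y k
    · rw [Subgroup.zpowers_le]
      exact hy
  have hy1 : y ≠ 1 := by
    rintro rfl
    apply hY0
    rw [hYz, Subgroup.zpowers_one_eq_bot]
  obtain ⟨r, hr⟩ := IsPGroup.iff_orderOf.1 hp y
  have hr0 : r ≠ 0 := by
    rintro rfl
    rw [pow_zero, orderOf_eq_one_iff] at hr
    exact hy1 hr
  obtain ⟨s, rfl⟩ : ∃ s, r = s + 1 := ⟨r - 1, by omega⟩
  -- the element of order `ℓ`
  have hz1 : y ^ ℓ ^ s ≠ 1 := by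
    intro h
    have h1 := orderOf_dvd_of_pow_eq_one h
    rw [hr] at h1
    exact absurd ((Nat.pow_dvd_pow_iff_le_right hl.one_lt).1 h1) (by omega)
  obtain ⟨Y₁, hY₁⟩ : ∃ Y₁ : Subgroup V, Y₁ = Subgroup.zpowers (y ^ ℓ) := ⟨_, rfl⟩
  have hle : Y₁ ≤ Y := by
    rw [hY₁, Subgroup.zpowers_le]
    exact Y.pow_mem hy ℓ
  have key : ∀ a ∈ E, a y * y⁻¹ ∈ Y₁ → a y = y := by
    intro a ha h
    obtain ⟨k, hk⟩ := hgen (a y) (hY a ha y hy)
    rw [hY₁] at h
    obtain ⟨m, hm⟩ := Subgroup.mem_zpowers_iff.1 h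
    refine H49.fix_cyc hl hp hE ha hk (u := y ^ ℓ ^ s) (j := ((ℓ ^ s : ℕ) : ℤ))
      (zpow_natCast y _).symm hz1 ?_
    have h1 : a y = (y ^ ℓ) ^ m * y := by rw [hm, inv_mul_cancel_right]
    have h2 : ((y ^ ℓ) ^ m) ^ ℓ ^ s = 1 := by
      rw [← zpow_natCast, ← zpow_mul, mul_comm, zpow_mul, zpow_natCast, ← pow_mul, ← pow_succ',
        ← hr, pow_orderOf_eq_one, one_zpow]
    rw [map_pow, h1, mul_pow, h2, one_mul]
  have hst1 : ∀ a ∈ E, ∀ v ∈ Y₁, a v ∈ Y₁ := by
    intro a ha v hv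
    rw [hY₁] at hv ⊢
    obtain ⟨m, rfl⟩ := Subgroup.mem_zpowers_iff.1 hv
    obtain ⟨k, hk⟩ := hgen (a y) (hY a ha y hy)
    rw [map_zpow, map_pow, hk]
    refine Subgroup.zpow_mem _ ?_ m
    have h1 : (y ^ k) ^ ℓ = (y ^ ℓ) ^ k := by
      rw [← zpow_natCast, ← zpow_natCast, ← zpow_mul, ← zpow_mul, mul_comm]
    rw [h1]
    exact Subgroup.zpow_mem_zpowers _ k
  have hcY : Nat.card Y = ℓ ^ (s + 1) := by
    rw [hYz, Nat.card_zpowers, hr]
  have hcY1 : Nat.card Y₁ = ℓ ^ s := by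
    rw [hY₁, Nat.card_zpowers, orderOf_pow' y hl.ne_zero, hr,
      Nat.gcd_eq_right (dvd_pow_self ℓ (Nat.succ_ne_zero s)), pow_succ, Nat.mul_div_cancel _ hl.pos]
  have hCY1 : C ⊓ Y₁ = ⊥ := by
    rw [eq_bot_iff, ← hCY]
    exact inf_le_inf_left _ hle
  have ih1 := ih (Nat.card Y₁) (by
      rw [← hn, hcY, hcY1]
      exact Nat.pow_lt_pow_right hl.one_lt (Nat.lt_succ_self s)) Y₁ rfl hst1
    ⟨y ^ ℓ, by rw [hY₁]; exact Subgroup.mem_zpowers _, fun x hx => by
      rw [hY₁] at hx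
      obtain ⟨k, hk⟩ := Subgroup.mem_zpowers_iff.1 hx
      exact ⟨k, hk.symm⟩⟩ hCY1 (by
      intro hne a ha hfix
      apply hfr hY0 a ha
      have h1 : a y = y := by
        obtain ⟨k, hk⟩ := hgen (a y) (hY a ha y hy)
        refine H49.fix_cyc hl hp hE ha hk (u := y ^ ℓ) (j := (ℓ : ℤ))
          (zpow_natCast y _).symm ?_ (hfix _ (by rw [hY₁]; exact Subgroup.mem_zpowers _))
        intro h
        apply hne
        rw [hY₁, h, Subgroup.zpowers_one_eq_bot]
      intro x hx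
      obtain ⟨k, rfl⟩ := hgen x hx
      rw [map_zpow, h1])
  refine Relation.ReflTransGen.tail ih1 ⟨sup_le_sup_left hle C, ?_, ?_, ?_⟩
  · have h1 : C ⊔ Y = Y ⊔ (C ⊔ Y₁) := by
      apply le_antisymm
      · exact sup_le (le_sup_of_le_right le_sup_left) le_sup_left
      · exact sup_le le_sup_right (sup_le le_sup_left (hle.trans le_sup_right))
    have h2 : (C ⊔ Y₁) ⊓ Y = Y₁ := by
      apply le_antisymm
      · intro x hx
        obtain ⟨hx1, hx2⟩ := Subgroup.mem_inf.1 hx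
        obtain ⟨c, hc, z, hz, rfl⟩ := Subgroup.mem_sup.1 hx1
        have h3 : c ∈ C ⊓ Y := by
          refine Subgroup.mem_inf.2 ⟨hc, ?_⟩
          have h4 := Y.mul_mem hx2 (Y.inv_mem (hle hz))
          rwa [mul_inv_cancel_right] at h4
        rw [hCY, Subgroup.mem_bot] at h3
        rw [h3, one_mul]
        exact hz
      · exact le_inf le_sup_right hle
    rw [h1, Subgroup.relIndex_sup_right, ← Subgroup.inf_relIndex_right, h2]
    have h5 := Subgroup.relIndex_mul_relIndex ⊥ Y₁ Y bot_le hle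
    rw [Subgroup.relIndex_bot_left, Subgroup.relIndex_bot_left, hcY, hcY1, pow_succ] at h5
    exact Nat.eq_of_mul_eq_mul_left (pow_pos hl.pos s) h5
  · intro a ha v hv
    obtain ⟨c, hc, z, hz, rfl⟩ := Subgroup.mem_sup.1 hv
    rw [map_mul]
    exact Subgroup.mul_mem_sup (hC a ha c hc) (hY a ha z hz)
  · intro a ha hfix
    apply hfr hY0 a ha
    have h1 : a y = y := by
      apply key a ha
      have h2 := hfix y (Subgroup.mem_sup_right hy)
      obtain ⟨c, hc, z, hz, hcz⟩ := Subgroup.mem_sup.1 h2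
      have h3 : c ∈ C ⊓ Y := by
        refine Subgroup.mem_inf.2 ⟨hc, ?_⟩
        have h4 : c = a y * y⁻¹ * z⁻¹ := by rw [← hcz, mul_inv_cancel_right]
        rw [h4]
        exact Y.mul_mem (Y.mul_mem (hY a ha y hy) (Y.inv_mem hy)) (Y.inv_mem (hle hz))
      rw [hCY, Subgroup.mem_bot] at h3
      rw [h3, one_mul] at hcz
      rw [← hcz]
      exact hz
    intro x hx
    obtain ⟨k, rfl⟩ := hgen x hx
    rw [map_zpow, h1]

end Pool.Agent.PST.GU.H3
end
end -- Pool.Agent.Helper3_PST.SRY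

section -- Pool.Agent.Helper81_PST.ADP

/-!
# Squad PST, row ADP (helper81): the class `KP` is admissible
-/

set_option autoImplicit false

namespace Pool.Agent.PST.H81

open Pool.Agent.PSS
open Pool.Agent.PSS.H10 (qr_comm qr_card)

/-- ADP -/
theorem adp (hM : MsuStmt) : AdpStmt := by
  intro ℓ hl
  refine ⟨?_, ?_, ?_, ?_⟩
  · rintro V _ E W ⟨_, _, U, X, h⟩ h0
    apply h.nt
    rw [eq_bot_iff, ← h0, ← h.uw]
    exact le_sup_left
  · rintro V _ E W ⟨_, _, U, X, h⟩ a ha w hw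
    have h1 : W.map a.toMonoidHom ≤ W := by
      rw [← h.uw, Subgroup.map_sup]
      apply sup_le
      · rintro _ ⟨u, hu, rfl⟩
        exact (le_sup_left : U ≤ U ⊔ X) (h.su a ha u hu)
      · rintro _ ⟨u, hu, rfl⟩
        exact (le_sup_right : X ≤ U ⊔ X) (h.sx a ha u hu)
    exact h1 ⟨w, hw, rfl⟩
  · rintro V V' _ _ E E' W π hQ ⟨hab, hcm, U, X, h⟩
    have hinj : Function.Injective π.toMonoidHom := π.injective
    have hst : ∀ S : Subgroup V, (∀ a ∈ E, ∀ u ∈ S, a u ∈ S) → ∀ a ∈ E',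
        ∀ u ∈ S.map π.toMonoidHom, a u ∈ S.map π.toMonoidHom := by
      rintro S hS a' ha' _ ⟨u, hu, rfl⟩
      obtain ⟨a, ha, h1⟩ := hQ.lif a' ha'
      exact ⟨a u, hS a ha u hu, h1 u⟩
    refine ⟨qr_comm hQ hab, ?_, U.map π.toMonoidHom, X.map π.toMonoidHom, ?_, ?_, ?_,
      hst U h.su, hst X h.sx, ?_⟩
    · intro a' ha' b' hb' v'
      obtain ⟨a, ha, h1⟩ := hQ.lif a' ha'
      obtain ⟨b, hb, h2⟩ := hQ.lif b' hb'
      obtain ⟨v, rfl⟩ := hQ.sur v'
      refine ⟨a (b v) * (b (a v))⁻¹, hcm a ha b hb v, ?_⟩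
      rw [map_mul, map_inv, h1, h2, h2, h1]
    · rw [← Subgroup.map_inf _ _ _ hinj, h.ux, Subgroup.map_bot]
    · rw [← Subgroup.map_sup, h.uw]
    · intro h0
      exact h.nt ((Subgroup.map_eq_bot_iff_of_injective _ hinj).1 h0)
    · rintro a' ha' _ ⟨u, hu, rfl⟩ hu1 hfix _ ⟨w, hw, rfl⟩
      obtain ⟨a, ha, h1⟩ := hQ.lif a' ha'
      have h2 : a u = u := by
        apply hinj
        rw [h1]
        exact hfix
      have h3 : u ≠ 1 := by
        rintro rfl
        exact hu1 (map_one _)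
      rw [← h1, h.fr a ha u hu h3 h2 w hw]
  · rintro V V' _ _ _ _ E E' W π hp hE _ hQ ⟨hab, hcm, U, X, h⟩ hker ⟨v, hv⟩
    have hab' := qr_comm hQ hab
    have hcm' : ∀ a ∈ E', ∀ b ∈ E', ∀ v : V', a (b v) = b (a v) := by
      intro a' ha' b' hb' v'
      obtain ⟨a, ha, h1⟩ := hQ.lif a' ha'
      obtain ⟨b, hb, h2⟩ := hQ.lif b' hb'
      obtain ⟨v, rfl⟩ := hQ.sur v'
      have h3 : π (a (b v) * (b (a v))⁻¹) = 1 := by
        rw [← MonoidHom.mem_ker, hker]
        exact hcm a ha b hb v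
      rw [map_mul, map_inv, h1, h2, h2, h1, mul_inv_eq_one] at h3
      exact h3
    obtain ⟨W', hW'⟩ := hM V' E' ⟨v, hv⟩ hcm'
    refine ⟨W', hab', ?_, W', ⊥, hW'⟩
    intro a ha b hb v
    rw [hcm' a ha b hb v, mul_inv_cancel]
    exact W'.one_mem

end Pool.Agent.PST.H81
end -- Pool.Agent.Helper81_PST.ADP
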