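import Pool.Agent.Helper12_AWB.B197
import Pool.Agent.Helper12_AWB.B240
import Pool.Agent.Helper12_AWB.B265
import Pool.Agent.Helper12_AWB.B285
import Pool.Agent.Helper12_AWB.B292

/-!
# Merged copies (generated) of the modules

* `Pool.Agent.Helper12_PFC.LMB`
* `Pool.Agent.Helper12_PFC.NKA`
* `Pool.Agent.Helper24_PFC.FPS`
* `Pool.Agent.Helper33_PFD.JLX`
* `Pool.Agent.Helper62_PFC.UNT`
* `Pool.Agent.Helper64_PFD.SPF`
* `Pool.Agent.Helper76_PFC.LCP`
* `Pool.Agent.Helper91_PFD.PBX`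
* `Pool.Agent.Helper66_PFD.AsmBlk`
-/

set_option autoImplicit false

section -- Pool.Agent.Helper12_PFC.LMB

set_option autoImplicit false

open scoped BigOperators

noncomputable section

namespace Pool.Agent.PFC.H12

open Pool.Agent.Helper51_AWC Pool.Agent.Helper79_WRA Pool.Agent.PP Pool.Agent.PP.KF
open Pool.Agent.PP.K9 Pool.Agent.PP.K9.H97 Pool.Agent.PP.H75 Pool.Agent.PP.T3 Pool.Agent.PP.T2
open Pool.Agent.PP.T8 (Fr rs pw)

attribute [local instance] Ideal.Quotient.field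

theorem lmb_cen (rg1 : T8.Rg1Stmt) (cens : T3.CenStmt) (psg : T3.PsgStmt) (ℓ : ℕ)
    [hℓ : Fact ℓ.Prime] (M : Ideal (integralClosure ℤ ℂ)) [M.IsMaximal]
    (hM : (ℓ : integralClosure ℤ ℂ) ∈ M) (H : Type) [Group H] [Finite H] (b : H → FF M)
    (hb : IsBlk b) (V : Subgroup H) (hV : Tp ℓ b V) (hVc : V ≤ Subgroup.center H) :
    ∃ q : FF M, q ≠ 0 ∧ ∀ κ ∈ IrrE M b, ∀ a : H → FF M, mulF a b = a →
      ∑ᶠ v : V, a v = q * ∑ᶠ t : H, a t * rr M (κ t) := by
  classical
  obtain ⟨⟨c, hc⟩, hcard⟩ := cens ℓ M hM H b hb V hV hVc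
  have hF : GoodF ℓ (FF M) := H50.fld ℓ hℓ.out M hM
  have hFH : Fintype H := Fintype.ofFinite H
  have hFV : Fintype V := Fintype.ofFinite V
  have wbo : WboStmt := H82W.wbo (H82.trb H53.tra)
  have hq : ((Nat.card V * c : ℂ) / Nat.card H) ∈ RM M :=
    (T8.H87.knz_cen rg1 cens psg ℓ M hM H b hb V hV hVc c hc).1
  have hn : V.Normal := ⟨fun n hn g => by
    have h1 := Subgroup.mem_center_iff.1 (hVc hn) g
    rw [h1, mul_assoc, mul_inv_cancel, mul_one]
    exact hn⟩
  -- the values at the regular elements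
  have htop : Subgroup.centralizer (V : Set H) = ⊤ := by
    rw [eq_top_iff]
    intro g _
    rw [Subgroup.mem_centralizer_iff]
    intro v hv
    exact (Subgroup.mem_center_iff.1 (hVc hv) g).symm
  have hbrb : br V b = b := funext fun x => H66.br_of_mem (by
    rw [htop]
    exact Subgroup.mem_top x)
  have hL : Ld ℓ b V b := by
    refine ⟨hb, hV, ?_, ⟨?_, ?_⟩, ?_⟩
    · intro a ha b hb
      exact (Subgroup.mem_center_iff.1 (hVc ha) b).symm
    · intro x hx
      rw [htop] at hx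
      exact absurd (Subgroup.mem_top x) hx
    · have h1 : ∀ C : Subgroup H, C = ⊤ → IsBlk (fun t : C => b t) := by
        rintro _ rfl
        exact H9.blk_tr Subgroup.topEquiv hb
      exact h1 _ htop
    · rw [hbrb]
      exact hb.1.2
  have hix : ix V b = 1 := by
    unfold ix
    rw [htop]
    exact Subgroup.relIndex_top_left _
  have hreg : ∀ κ ∈ IrrE M b, ∀ κ' ∈ IrrE M b, ∀ s : H, Reg ℓ s → κ s = κ' s :=
    rg1 ℓ M hM H b V b hL hix
  obtain ⟨hid1, -, -⟩ := H25.idm M H b hb.1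
  have sing : ∀ s : H, ¬ Reg ℓ s → b s = 0 := by
    intro s h
    rw [← (hid1 s).2, H25.eh_sing wbo ℓ M hM b hb.1 s h, rr_zero]
  have regi : ∀ s : H, Reg ℓ s → Reg ℓ s⁻¹ := by
    intro s hs
    unfold Reg
    rw [orderOf_inv]
    exact hs
  have val : ∀ κ ∈ IrrE M b, ∀ s : H, Reg ℓ s →
      b s = rr M ((Nat.card V * c : ℂ) / Nat.card H) * rr M (κ s⁻¹) := by
    intro κ hκ s hs
    have h1 : eh M b s = ((Nat.card V * c : ℂ) / Nat.card H) * κ s⁻¹ := by
      rw [K9.H25.eh_eq]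
      have h2 : ∀ χ ∈ (K9.H25.irrE_finite M b).toFinset, χ 1 * χ s⁻¹ = (c : ℂ) * κ s⁻¹ := by
        intro χ hχ
        rw [Set.Finite.mem_toFinset] at hχ
        rw [hc.2 χ hχ, hreg χ hχ κ hκ _ (regi s hs)]
      rw [Finset.sum_congr rfl h2, Finset.sum_const, ← Set.ncard_eq_toFinset_card _
        (K9.H25.irrE_finite M b), hcard, nsmul_eq_mul, ← Nat.card_eq_fintype_card]
      ring
    rw [← (hid1 s).2, h1, rr_mul hq (RM_of_int (irr_integral hκ.1 _))]
  obtain ⟨N, hN0, hN1⟩ := H27.prt ℓ H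
  have notreg : ∀ s u : H, Commute s u → Reg ℓ s → (∃ m : ℕ, u ^ ℓ ^ m = 1) → u ≠ 1 →
      ¬ Reg ℓ (s * u) := by
    intro s u hsu hs hu hu1 h
    have h1 := hN1 s u hsu hs hu
    have h2 := hN1 (s * u) 1 (Commute.one_right _) h ⟨0, by simp⟩
    rw [mul_one] at h2
    rw [h1] at h2
    exact hu1 (by simpa using h2.symm)
  refine ⟨rr M ((Nat.card V * c : ℂ) / Nat.card H), ?_, ?_⟩
  · intro h0
    have hne : (IrrE M b).Nonempty := by
      apply Set.nonempty_of_ncard_ne_zero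
      rw [hcard]
      exact Nat.card_pos.ne'
    obtain ⟨κ, hκ⟩ := hne
    obtain ⟨s, hs⟩ := Function.ne_iff.1 hb.2.1
    have hsr : Reg ℓ s := by
      by_contra h
      exact hs (sing s h)
    apply hs
    rw [val κ hκ s hsr, h0, zero_mul]
    rfl
  · intro κ hκ a ha
    have key : ∀ t : H, ∑ v : V, b (t⁻¹ * v) =
        rr M ((Nat.card V * c : ℂ) / Nat.card H) * rr M (κ t) := by
      intro t
      obtain ⟨hs, n, hn'⟩ := hN0 t
      obtain ⟨s, hsd⟩ : ∃ s, s = t ^ N := ⟨_, rfl⟩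
      obtain ⟨y, hyd⟩ : ∃ y, y = s⁻¹ * t := ⟨_, rfl⟩
      rw [← hsd] at hs hn'
      have hst : Commute s t := by rw [hsd]; exact (Commute.refl t).pow_left N
      have hsy : Commute s y := by
        rw [hyd]
        exact ((Commute.refl s).inv_right).mul_right hst
      have hty : t = s * y := by rw [hyd]; group
      have hy : y ^ ℓ ^ n = 1 := by rw [hyd]; exact hn'
      have h1 : t ^ ℓ ^ n = s ^ ℓ ^ n := by
        rw [hty, hsy.mul_pow, hy, mul_one]
      have h2 : rr M (κ t) = rr M (κ s) := T8.H87.rr_reg M hM hκ.1 t s n h1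
      have h3 : b s⁻¹ = rr M ((Nat.card V * c : ℂ) / Nat.card H) * rr M (κ t) := by
        rw [val κ hκ s⁻¹ (regi s hs), inv_inv, h2]
      have hcomV : ∀ v ∈ V, ∀ g : H, Commute v g := fun v hv g =>
        (Subgroup.mem_center_iff.1 (hVc hv) g).symm
      have hlV : ∀ v ∈ V, ∃ m : ℕ, v ^ ℓ ^ m = 1 := by
        intro v hv
        obtain ⟨m, hm⟩ := hV.pg ⟨v, hv⟩
        exact ⟨m, by simpa using congrArg Subtype.val hm⟩
      have hzero : ∀ v ∈ V, v ≠ y → b (t⁻¹ * v) = 0 := by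
        intro v hv hvy
        have e : t⁻¹ * v = s⁻¹ * (y⁻¹ * v) := by
          rw [hty, hsy.eq]; group
        rw [e]
        apply sing
        apply notreg
        · exact (hsy.inv_inv).mul_right ((hcomV v hv s⁻¹).symm)
        · exact regi s hs
        · obtain ⟨m, hm⟩ := hlV v hv
          refine ⟨n + m, ?_⟩
          have hc1 : Commute y⁻¹ v := (hcomV v hv y⁻¹).symm
          rw [hc1.mul_pow, pow_add, pow_mul, inv_pow, hy, inv_one, one_pow, one_mul,
            mul_comm (ℓ ^ n), pow_mul, hm, one_pow]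
        · intro h
          exact hvy (inv_mul_eq_one.1 h).symm
      rw [← h3]
      by_cases hyV : y ∈ V
      · rw [Finset.sum_eq_single (⟨y, hyV⟩ : V)]
        · congr 1
          change t⁻¹ * y = s⁻¹
          rw [hty, hsy.eq]; group
        · intro v _ hv
          apply hzero v v.2
          intro h
          exact hv (Subtype.ext h)
        · intro h
          exact absurd (Finset.mem_univ _) h
      · have h4 : b s⁻¹ = 0 := by
          by_contra hne
          apply hyV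
          have hz : IsPGroup ℓ (Subgroup.zpowers y) := by
            rintro ⟨z, hz⟩
            obtain ⟨k, rfl⟩ := Subgroup.mem_zpowers_iff.1 hz
            refine ⟨n, ?_⟩
            apply Subtype.ext
            simp only [Subgroup.coe_pow, Subgroup.coe_one]
            rw [← zpow_natCast, ← zpow_mul, mul_comm, zpow_mul, zpow_natCast, hy, one_zpow]
          have hQ : IsPGroup ℓ (Subgroup.zpowers y ⊔ V : Subgroup H) :=
            IsPGroup.to_sup_of_normal_right hz hV.pg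
          have hle : (Subgroup.zpowers y ⊔ V : Subgroup H) ≤ Subgroup.centralizer {s⁻¹} := by
            apply sup_le
            · rw [Subgroup.zpowers_le, Subgroup.mem_centralizer_iff]
              intro x hx
              rw [Set.mem_singleton_iff.1 hx]
              exact (hsy.inv_left).eq
            · intro v hv
              rw [Subgroup.mem_centralizer_iff]
              intro x hx
              exact ((hcomV v hv x).symm).eq
          have hgd : Gd b (Subgroup.zpowers y ⊔ V : Subgroup H) := by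
            refine ⟨s⁻¹, ?_, hne⟩
            rw [Subgroup.mem_centralizer_iff]
            intro x hx
            exact (Subgroup.mem_centralizer_iff.1 (hle hx) s⁻¹ rfl).symm
          have hmx := hV.mx _ hQ hgd
          have heq : V = Subgroup.zpowers y ⊔ V :=
            Subgroup.eq_of_le_of_card_ge le_sup_right hmx
          rw [heq]
          exact (le_sup_left : Subgroup.zpowers y ≤ _) (Subgroup.mem_zpowers y)
        rw [h4]
        apply Finset.sum_eq_zero
        intro v _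
        apply hzero v v.2
        intro h
        exact hyV (h ▸ v.2)
    rw [finsum_eq_sum_of_fintype, finsum_eq_sum_of_fintype]
    have h5 : ∀ v : V, a v = ∑ t : H, a t * b (t⁻¹ * v) := by
      intro v
      have := congrFun ha (v : H)
      rw [← this]
      change ∑ᶠ t, a t * b (t⁻¹ * v) = _
      rw [finsum_eq_sum_of_fintype]
    rw [Finset.sum_congr rfl fun v _ => h5 v, Finset.sum_comm, Finset.mul_sum]
    refine Finset.sum_congr rfl fun t _ => ?_
    rw [← Finset.mul_sum, key t]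
    ring

/-- LMB -/
theorem lmb (rg1 : T8.Rg1Stmt) (cens : T3.CenStmt) (psg : T3.PsgStmt) : LmbStmt := by
  intro ℓ hℓ M _ hM G _ _ e V γ hL
  have hF : GoodF ℓ (FF M) := H50.fld ℓ Fact.out M hM
  obtain ⟨C, hC⟩ : ∃ C : Subgroup G, C = Subgroup.centralizer (V : Set G) := ⟨_, rfl⟩
  have hVC : V ≤ C := by
    intro v hv
    rw [hC, Subgroup.mem_centralizer_iff]
    intro w hw
    exact hL.ab w hw v hv
  have hbx : Bx C γ := by rw [hC]; exact hL.gam
  have hVz : V.subgroupOf C ≤ Subgroup.center C := by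
    intro v hv
    rw [Subgroup.mem_center_iff]
    intro g
    have h1 : (g : G) ∈ Subgroup.centralizer (V : Set G) := by rw [← hC]; exact g.2
    exact Subtype.ext (Subgroup.mem_centralizer_iff.1 h1 v hv).symm
  have hVcard : Nat.card (V.subgroupOf C) = Nat.card V :=
    Nat.card_congr (Subgroup.subgroupOfEquivOfLe hVC).toEquiv
  have hbrcl : IsCl (fun t : C => br V e t) := by
    intro x y
    have h1 : ∀ t : C, br V e t = e t := fun t =>
      H66.br_of_mem (by rw [← hC]; exact t.2)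
    have h2 := h1 (y * x * y⁻¹)
    have h3 := h1 x
    change br V e ((y * x * y⁻¹ : C) : G) = br V e (x : G)
    rw [h2, h3]
    exact hL.blk.1.1 _ _
  have hmul : mulF (fun t : C => br V e t) (fun t : C => γ t) = fun t : C => γ t := by
    have hs : ∀ x, x ∉ C → br V e x = 0 := fun x hx => H66.br_of_not_mem (by rw [← hC]; exact hx)
    rw [← mulF_res C γ hs, hL.und]
  have hT : Tp ℓ (fun t : C => γ t) (V.subgroupOf C) := by
    refine ⟨hL.tp.pg.of_equiv (Subgroup.subgroupOfEquivOfLe hVC).symm, ?_, ?_⟩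
    · have hne : (fun t : C => γ t) ≠ 0 := hbx.blk.2.1
      obtain ⟨t, ht⟩ := Function.ne_iff.1 hne
      refine ⟨t, ?_, ht⟩
      rw [Subgroup.mem_centralizer_iff]
      intro v hv
      exact (Subgroup.mem_center_iff.1 (hVz hv) t).symm
    · intro Q hQ hQg
      have h1 := gd_of_mul hF hbrcl hbx.blk.1.1 hmul hQ hQg
      have h2 : Gd (fun t : C => e t) Q := by
        obtain ⟨g, hg1, hg2⟩ := h1
        refine ⟨g, hg1, ?_⟩
        change br V e (g : G) ≠ 0 at hg2
        rw [H66.br_of_mem (by rw [← hC]; exact g.2)] at hg2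
        exact hg2
      have hcard : Nat.card (Q.map C.subtype) = Nat.card Q :=
        (Nat.card_congr (Q.equivMapOfInjective C.subtype C.subtype_injective).toEquiv).symm
      have h3 := hL.tp.mx _ (hQ.map C.subtype) (gd_map h2)
      rw [hcard] at h3
      rw [hVcard]
      exact h3
  subst hC
  obtain ⟨q, hq0, hq⟩ := lmb_cen rg1 cens psg ℓ M hM _ _ hbx.blk _ hT hVz
  refine ⟨q, hq0, ?_⟩
  intro κ hκ a ha hag
  have h1 := hq κ hκ (fun t => a t) (by
    rw [← mulF_res _ γ ha, hag])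
  rw [← h1]
  exact (finsum_comp_equiv (Subgroup.subgroupOfEquivOfLe hVC).toEquiv
    (f := fun v : V => a v)).symm

end Pool.Agent.PFC.H12
end
end -- Pool.Agent.Helper12_PFC.LMB

section -- Pool.Agent.Helper12_PFC.NKA

set_option autoImplicit false

open scoped BigOperators

namespace Pool.Agent.PFC.H12

/-- a finite commutative `ℓ`-group acting on a stable nonzero subspace in characteristic `ℓ` fixes a
nonzero vector -/
theorem fixv (ℓ : ℕ) [Fact ℓ.Prime] (F W L : Type) [Field F] [CharP F ℓ] [CommGroup W]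
    [Finite W] [AddCommGroup L] [Module F L] (ρ : W →* (L →ₗ[F] L)) (hW : IsPGroup ℓ W)
    (N : Submodule F L) (hN : ∀ w, ∀ x ∈ N, ρ w x ∈ N) (h0 : N ≠ ⊥) :
    ∃ x ∈ N, x ≠ 0 ∧ ∀ w, ρ w x = x := by
  classical
  haveI : Fintype W := Fintype.ofFinite W
  obtain ⟨x0, hx0, hx0'⟩ := (Submodule.ne_bot_iff N).1 h0
  haveI : Nontrivial L := ⟨⟨x0, 0, hx0'⟩⟩
  haveI : CharP (Module.End F L) ℓ :=
    charP_of_injective_algebraMap (FaithfulSMul.algebraMap_injective F (Module.End F L)) ℓ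
  have key : ∀ S : Finset W, ∃ x ∈ N, x ≠ 0 ∧ ∀ w ∈ S, ρ w x = x := by
    intro S
    induction S using Finset.induction_on with
    | empty => exact ⟨x0, hx0, hx0', by simp⟩
    | insert w S hw ih =>
      obtain ⟨x, hx, hx', hS⟩ := ih
      obtain ⟨a, ha⟩ := hW w
      let T : Module.End F L := (ρ w : Module.End F L) - 1
      have hT : T ^ (ℓ ^ a) = 0 := by
        have h1 : T ^ (ℓ ^ a) = (ρ w : Module.End F L) ^ (ℓ ^ a) - 1 ^ (ℓ ^ a) :=
          sub_pow_char_pow_of_commute ℓ a (Commute.one_right _)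
        rw [h1, one_pow]
        have h2 : (ρ w : Module.End F L) ^ (ℓ ^ a) = 1 := by
          have := map_pow ρ w (ℓ ^ a)
          rw [ha, map_one] at this
          exact this.symm
        rw [h2, sub_self]
      have hex : ∃ k, (T ^ k) x = 0 := ⟨ℓ ^ a, by rw [hT]; rfl⟩
      have hk := Nat.find_spec hex
      have hk0 : Nat.find hex ≠ 0 := by
        intro h
        rw [h] at hk
        exact hx' (by simpa using hk)
      obtain ⟨k, hk1⟩ := Nat.exists_eq_succ_of_ne_zero hk0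
      have hne : (T ^ k) x ≠ 0 := Nat.find_min hex (by omega)
      have hTN : ∀ j, (T ^ j) x ∈ N ∧ ∀ v ∈ S, ρ v ((T ^ j) x) = (T ^ j) x := by
        intro j
        induction j with
        | zero => exact ⟨by simpa using hx, by simpa using hS⟩
        | succ j ihj =>
          have e : (T ^ (j + 1)) x = ρ w ((T ^ j) x) - (T ^ j) x := by
            rw [pow_succ']
            rfl
          refine ⟨?_, ?_⟩
          · rw [e]; exact N.sub_mem (hN w _ ihj.1) ihj.1
          · intro v hv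
            rw [e, map_sub, ihj.2 v hv]
            have : ρ v (ρ w ((T ^ j) x)) = ρ w (ρ v ((T ^ j) x)) := by
              have h3 : ρ v * ρ w = ρ w * ρ v := by rw [← map_mul, ← map_mul, mul_comm]
              exact congrArg (fun f : L →ₗ[F] L => f ((T ^ j) x)) h3
            rw [this, ihj.2 v hv]
      refine ⟨(T ^ k) x, (hTN k).1, hne, ?_⟩
      intro v hv
      rcases Finset.mem_insert.1 hv with rfl | hv
      · have e : (T ^ (k + 1)) x = ρ v ((T ^ k) x) - (T ^ k) x := by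
          rw [pow_succ']
          rfl
        have : (T ^ (k + 1)) x = 0 := by rw [← Nat.succ_eq_add_one, ← hk1]; exact hk
        rw [e] at this
        exact sub_eq_zero.1 this
      · exact (hTN k).2 v hv
  obtain ⟨x, h1, h2, h3⟩ := key Finset.univ
  exact ⟨x, h1, h2, fun w => h3 w (Finset.mem_univ w)⟩

theorem nka : NkaStmt := by
  intro ℓ _ F W L _ _ _ _ _ _ _ ρ hW
  refine ⟨?_, fun N hN h0 => fixv ℓ F W L ρ hW N hN h0⟩
  intro N hN hx
  by_contra htop
  let ρ' : W →* (Module.Dual F L →ₗ[F] Module.Dual F L) :=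
    { toFun := fun w => (ρ w).dualMap
      map_one' := by ext f x; simp
      map_mul' := fun v w => by
        ext f x
        have : ρ v * ρ w = ρ w * ρ v := by rw [← map_mul, ← map_mul, mul_comm]
        rw [map_mul, this]
        rfl }
  have hD : (N.dualAnnihilator : Submodule F (Module.Dual F L)) ≠ ⊥ := by
    intro h
    apply htop
    have := Subspace.dualAnnihilator_inj (W := N) (W' := (⊤ : Submodule F L))
    exact this.1 (by rw [h, Submodule.dualAnnihilator_top])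
  obtain ⟨f, hf, hf0, hfix⟩ := fixv ℓ F W (Module.Dual F L) ρ' hW N.dualAnnihilator
    (by
      intro w f hf
      rw [Submodule.mem_dualAnnihilator] at hf ⊢
      intro x hx
      exact hf _ (hN w x hx)) hD
  apply hf0
  ext x
  obtain ⟨n, hn, y, hxy⟩ := hx x
  haveI : Fintype W := Fintype.ofFinite W
  rw [hxy, map_add, finsum_eq_sum_of_fintype, map_sum]
  have h1 : f n = 0 := (Submodule.mem_dualAnnihilator f).1 hf n hn
  have h2 : ∀ w, f (ρ w (y w) - y w) = 0 := by
    intro w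
    rw [map_sub]
    have := LinearMap.congr_fun (hfix w) (y w)
    change f (ρ w (y w)) = f (y w) at this
    rw [this, sub_self]
  rw [h1, Finset.sum_congr rfl (fun w _ => h2 w)]
  simp

end Pool.Agent.PFC.H12
end -- Pool.Agent.Helper12_PFC.NKA

section -- Pool.Agent.Helper24_PFC.FPS

/-!
# Squad PFC, block B6, row FPS
-/

open scoped BigOperators

noncomputable section

namespace Pool.Agent.PFC.H24

open Pool.Agent.Helper51_AWC Pool.Agent.Helper79_WRA Pool.Agent.PP Pool.Agent.PP.KF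
open Pool.Agent.PP.K9 Pool.Agent.PP.K9.H97 Pool.Agent.PP.H75 Pool.Agent.PP.T3 Pool.Agent.PP.T2
open Pool.Agent.PP.T8 (Fr rs pw)

attribute [local instance] Ideal.Quotient.field

/-- the bimodule action on the corner, as functions -/
theorem cv_bi {F G W : Type} [Field F] [Group G] [Finite G] [Group W] {j : G → F}
    (hj : mulF j j = j) (ι : W →* G) (hv : ∀ w x, j (ι w * x * (ι w)⁻¹) = j x) (w : W × W)
    (a : Crn hj) (y : G) :
    cv (bi F (jal hj ι hv) w a) y = cv a ((ι w.1)⁻¹ * y * ι w.2) := by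
  have h1 : bi F (jal hj ι hv) w a = jal hj ι hv w.1 * (a * jal hj ι hv w.2⁻¹) := rfl
  rw [h1, cv_mul, cv_mul, cv_jal, cv_jal, H20.mulF_assoc, ← H20.mulF_assoc j, cv_l,
    dl_comm (hv w.2⁻¹), ← H20.mulF_assoc (cv a), cv_r, mulF_dl_r, mulF_dl_l]
  rw [map_inv, inv_inv]

theorem fps (hCPS : CpsStmt) (hFSN : FsnStmt) (hPSX : PsxStmt) : FpsStmt := by
  intro ℓ _ M _ hℓ G _ _ e V γ hLd j hJ W E _ _ _ ι hι hrange φ hφ hj hv
  have : CharP (FF M) ℓ := Pool.Agent.Helper79_WRA.H62.charP_FF hℓ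
  have hmem : ∀ w, ι w ∈ V := fun w => by rw [← hrange]; exact ⟨w, rfl⟩
  have hW : IsPGroup ℓ W := by
    have h1 : IsPGroup ℓ V := hLd.tp.pg
    let ψ : W →* V := ι.codRestrict V hmem
    exact h1.of_injective ψ fun a b hab => hι (congrArg Subtype.val hab)
  have hWW : IsPGroup ℓ (W × W) := by
    obtain ⟨n, hn⟩ := (IsPGroup.iff_card).1 hW
    exact (IsPGroup.iff_card).2 ⟨n + n, by rw [Nat.card_prod, hn, pow_add]⟩
  obtain ⟨h1, h2, _⟩ := hCPS ℓ (FF M) G W ι hι hW j hj hv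
  obtain ⟨Ω, i1, i2, b, c, hfr, hst⟩ := hPSX ℓ (FF M) (W × W) (Crn hj) (bi (FF M) (jal hj ι hv)) _
    hWW (fun x y => mul_comm x y) h1
  refine ⟨Ω, i1, i2, b, c, hfr, fun ω => ?_⟩
  obtain ⟨⟨g, hg⟩, hne⟩ := hst ω
  set K := MulAction.stabilizer (W × W) ω with hK
  obtain ⟨a, ha, hab⟩ := SetLike.not_le_iff_exists.1 hne
  rw [h2 K a ha] at hab
  push Not at hab
  obtain ⟨h, hh, hne0⟩ := hab
  -- the elements of `K`
  have hKm : ∀ u w : W, ι u = g * ι w * g⁻¹ → ((u, w) : W × W) ∈ K := by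
    intro u w huw
    rw [hg]
    change ι u * g = g * ι w
    rw [huw, inv_mul_cancel_right]
  obtain ⟨t, ht, htv⟩ := hFSN ℓ M hℓ G e V γ hLd j hJ g (cv a) (cv_l hj a) (cv_r hj a) (by
    intro v hvV hgv y
    rw [← hrange] at hvV hgv
    obtain ⟨w, rfl⟩ := hvV
    obtain ⟨u, hu⟩ := hgv
    have hfix : bi (FF M) (jal hj ι hv) (u, w) a = a := ha _ (hKm u w hu)
    have := cv_bi hj ι hv (u, w) a (g * ι w * g⁻¹ * y * (ι w)⁻¹)
    rw [hfix] at this
    rw [this]
    congr 1
    change (ι u)⁻¹ * (g * ι w * g⁻¹ * y * (ι w)⁻¹) * ι w = y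
    rw [← hu]
    group) ⟨h, by
      intro v hvV hgv
      rw [← hrange] at hvV hgv
      obtain ⟨w, rfl⟩ := hvV
      obtain ⟨u, hu⟩ := hgv
      have := hh _ (hKm u w hu)
      change ι u * h = h * ι w at this
      rw [← hu]
      exact this, hne0⟩
  obtain ⟨x, hx⟩ := hφ t ht
  refine ⟨x, Subgroup.comap ((MulAut.conj g).toMonoidHom.comp ι) V, ?_⟩
  ext ⟨u, w⟩
  rw [hg]
  change ι u * g = g * ι w ↔ _
  rw [tw, Subgroup.mem_map]
  have hR : ∀ r : W, r ∈ Subgroup.comap ((MulAut.conj g).toMonoidHom.comp ι) V ↔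
      g * ι r * g⁻¹ ∈ V := fun r => Iff.rfl
  constructor
  · intro huw
    have h3 : ι u = g * ι w * g⁻¹ := by rw [← huw, mul_inv_cancel_right]
    have h4 : g * ι w * g⁻¹ ∈ V := by rw [← h3]; exact hmem u
    refine ⟨w, (hR w).2 h4, ?_⟩
    have h5 : φ x w = u := by
      apply hι
      rw [hx, htv (ι w) (hmem w) h4, h3]
    exact Prod.ext h5 rfl
  · rintro ⟨r, hr, hrw⟩
    have h5 : φ x r = u := congrArg Prod.fst hrw
    have h6 : r = w := congrArg Prod.snd hrw
    subst h6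
    rw [← h5, hx, htv (ι r) (hmem r) ((hR r).1 hr), inv_mul_cancel_right]

end Pool.Agent.PFC.H24
end
end -- Pool.Agent.Helper24_PFC.FPS

section -- Pool.Agent.Helper33_PFD.JLX

/-!
# Squad PFD, row JLX: the local algebra at `Q`, if only `C(V)` centralises `Q` in the inertial group
-/

open scoped BigOperators

noncomputable section

namespace Pool.Agent.PFD.H33

open Pool.Agent.Helper51_AWC Pool.Agent.Helper79_WRA Pool.Agent.PP Pool.Agent.PP.KF
open Pool.Agent.PP.K9 Pool.Agent.PP.K9.H97 Pool.Agent.PP.H75 Pool.Agent.PP.T3 Pool.Agent.PP.T2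
open Pool.Agent.PFC (Jd Crn jal Pj PIn Ctf ls Cz cv)

attribute [local instance] Ideal.Quotient.field

/-- the local algebra of an idempotent under a local block of inertial index one -/
theorem lpx (lno : PFC.LnoStmt) (rep : PFC.RepStmt) (nnz : PFC.NnzStmt) (pic : PFC.PicStmt)
    (ℓ : ℕ) [Fact ℓ.Prime] (M : Ideal (integralClosure ℤ ℂ)) [M.IsMaximal]
    (hM : (ℓ : integralClosure ℤ ℂ) ∈ M) (G : Type) [Group G] [Finite G] (e : G → FF M)
    (V : Subgroup G) (γ : G → FF M) (hL : Ld ℓ e V γ) (W : Subgroup G) (hWV : W ≤ V)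
    (hfr : ∀ t ∈ Tg V γ, (∀ u ∈ W, t * u = u * t) → t ∈ Subgroup.centralizer (V : Set G))
    (f : G → FF M) (hf : T6.Lw V γ W f) (j : Subgroup.centralizer (W : Set G) → FF M)
    (hjj : mulF j j = j)
    (hjv : ∀ v : Subgroup.centralizer (W : Set G), (v : G) ∈ V → ∀ x, j (v * x * v⁻¹) = j x)
    (hfj : mulF (fun t : Subgroup.centralizer (W : Set G) => f t) j = j)
    (hjg : mulF (br (V.subgroupOf (Subgroup.centralizer (W : Set G))) j)
      (fun t : Subgroup.centralizer (W : Set G) => γ t) =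
        br (V.subgroupOf (Subgroup.centralizer (W : Set G))) j)
    (hnz : ∀ κ ∈ IrrE M (fun t : Subgroup.centralizer (V : Set G) => γ t),
      ∑ᶠ t : Subgroup.centralizer (V : Set G), PP.ext0 (Subgroup.centralizer (W : Set G)) j t *
        rr M (κ t) ≠ 0) :
    ∃ n π, Pj j n π := by
  have hF : GoodF ℓ (FF M) := H50.fld ℓ Fact.out M hM
  obtain ⟨hLd, hTg⟩ := (T6.H39.lwd ℓ M hM G e V γ hL W hWV).2 f hf
  have hVX : V ≤ Subgroup.centralizer (W : Set G) := fun v hv =>
    Subgroup.mem_centralizer_iff.2 fun w hw => hL.ab w (hWV hw) v hv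
  have hCX : Subgroup.centralizer (V : Set G) ≤ Subgroup.centralizer (W : Set G) :=
    Subgroup.centralizer_le (fun w hw => hWV hw)
  have hix : ix (V.subgroupOf (Subgroup.centralizer (W : Set G)))
      (fun t : Subgroup.centralizer (W : Set G) => γ t) = 1 := by
    refine Subgroup.relIndex_eq_one.2 fun t ht => ?_
    have h1 : (t : G) ∈ Tg V γ := (hTg t).1 ht
    have h2 : ∀ u ∈ W, (t : G) * u = u * t := fun u hu =>
      (Subgroup.mem_centralizer_iff.1 t.2 u hu).symm
    exact (cent_sub hVX t).2 (hfr t h1 h2)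
  obtain ⟨fH, hfH⟩ : ∃ fH : Subgroup.centralizer (W : Set G) → FF M,
    fH = fun t : Subgroup.centralizer (W : Set G) => f t := ⟨_, rfl⟩
  rw [← hfH] at hLd hfj
  have hfI : IsIdem fH := hLd.blk.1
  have h1 := lno ℓ M hM _ fH _ _ hLd hix
  obtain ⟨N, ρ, hirr, hone, hnil, hφ⟩ := rep ℓ (FF M) hF _ fH hfI h1
  obtain ⟨χ, hχ⟩ := T8.H14.irrE_nonempty M hfI hLd.blk.2.1
  obtain ⟨z, hz⟩ := hφ _ (PFC.H8.rr_TT M hM hχ.1) (PFC.H8.actF_rr M hfI hχ)
  have h2 := nnz ℓ M hM _ fH _ _ hLd hix j hjj (fun v hv x => hjv v hv x) hjg (by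
    intro κ hκ
    obtain ⟨φ, hφe⟩ : ∃ φ, φ = T3.H85.cequiv hVX hCX := ⟨_, rfl⟩
    have hκ' : (fun t => κ (φ.symm t)) ∈ IrrE M
        (fun t : Subgroup.centralizer (V : Set G) => γ t) := by
      apply T8.H14.irrE_equiv φ.symm hL.gam.blk.1.1
      rw [hφe]
      exact hκ
    have h3 := hnz _ hκ'
    rw [← finsum_comp_equiv φ.toEquiv] at h3
    intro h4
    apply h3
    rw [← h4]
    refine finsum_congr fun t => ?_
    have h5 : ((φ.toEquiv t : Subgroup.centralizer (V : Set G)) : G) =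
        ((t : Subgroup.centralizer (W : Set G)) : G) := by
      rw [hφe]
      rfl
    have h6 : φ.symm (φ.toEquiv t) = t := φ.symm_apply_apply t
    rw [h6, h5, PP.ext0, dif_pos t.1.2]) χ hχ
  have := Fintype.ofFinite (Subgroup.centralizer (W : Set G))
  have h3 : (ev ρ j).trace ≠ 0 := by
    intro h4
    apply h2
    have h5 : ∀ h, rr M (χ h) = z * PP.tr ρ h := fun h => congrFun hz h
    have h6 : (ev ρ j).trace = ∑ h, j h * PP.tr ρ h := by
      rw [ev, finsum_eq_sum_of_fintype, Matrix.trace_sum]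
      exact Finset.sum_congr rfl fun h _ => by rw [Matrix.trace_smul, smul_eq_mul, PP.tr]
    rw [finsum_eq_sum_of_fintype]
    have h7 : ∀ h, j h * rr M (χ h) = z * (j h * PP.tr ρ h) := fun h => by rw [h5]; ring
    rw [Finset.sum_congr rfl fun h _ => h7 h, ← Finset.mul_sum, ← h6, h4, mul_zero]
  refine pic (FF M) _ N ρ hirr j hjj h3 fun a ha _ hev => hnil a ?_ hev
  rw [← ha, ← mulF_assoc, hfj]

/-- JLX -/
theorem jlx (lno : PFC.LnoStmt) (rep : PFC.RepStmt) (nnz : PFC.NnzStmt) (pic : PFC.PicStmt) :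
    JlxStmt := by
  intro ℓ _ M _ hM G _ _ e V γ hL j hj W hWV hfr
  have hF : GoodF ℓ (FF M) := H50.fld ℓ Fact.out M hM
  have hVX : V ≤ Subgroup.centralizer (W : Set G) := by
    intro x hx
    rw [Subgroup.mem_centralizer_iff]
    intro q hq
    exact hL.ab q (hWV hq) x hx
  have hCX : Subgroup.centralizer (V : Set G) ≤ Subgroup.centralizer (W : Set G) :=
    Subgroup.centralizer_le (fun x hx => hWV hx)
  obtain ⟨f, hf⟩ := (T6.H39.lwd ℓ M hM G e V γ hL W hWV).1
  have hbr : ∀ a : G → FF M, (fun t : Subgroup.centralizer (W : Set G) => br W a t) =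
      fun t : Subgroup.centralizer (W : Set G) => a t := by
    intro a
    funext t
    exact H66.br_of_mem t.2
  have hbs : ∀ (a : G → FF M) x, x ∉ Subgroup.centralizer (W : Set G) → br W a x = 0 :=
    fun a x hx => H66.br_of_not_mem hx
  have hjW : H66.Inv W j := fun p hp x => hj.iv p (hWV hp) x
  have hWp : IsPGroup ℓ W := hL.tp.pg.to_le hWV
  -- the restriction is an idempotent
  have h1 : mulF (fun t : Subgroup.centralizer (W : Set G) => j t)
      (fun t : Subgroup.centralizer (W : Set G) => j t) =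
      fun t : Subgroup.centralizer (W : Set G) => j t := by
    have h2 := mulF_res (Subgroup.centralizer (W : Set G)) (br W j) (hbs j)
    rw [← H66.br_mulF hF hWp hjW hjW, hj.id, hbr] at h2
    exact h2.symm
  -- it is under `f`
  have h3 : mulF (fun t : Subgroup.centralizer (W : Set G) => f t)
      (fun t : Subgroup.centralizer (W : Set G) => j t) =
      fun t : Subgroup.centralizer (W : Set G) => j t := by
    have h4 := mulF_res (Subgroup.centralizer (W : Set G)) f (hbs j)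
    rw [hj.lb W hWV f hf, hbr] at h4
    rw [H46.mulF_comm hf.blk.blk.1.1]
    exact h4.symm
  -- the Brauer image at `V`
  have h5 : br (V.subgroupOf (Subgroup.centralizer (W : Set G)))
      (fun t : Subgroup.centralizer (W : Set G) => j t) =
      fun t : Subgroup.centralizer (W : Set G) => br V j t := by
    funext t
    by_cases ht : (t : G) ∈ Subgroup.centralizer (V : Set G)
    · rw [H66.br_of_mem ht, H66.br_of_mem ((cent_sub hVX t).2 ht)]
    · rw [H66.br_of_not_mem ht, H66.br_of_not_mem (fun h => ht ((cent_sub hVX t).1 h))]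
  have h6 : mulF (br (V.subgroupOf (Subgroup.centralizer (W : Set G)))
      (fun t : Subgroup.centralizer (W : Set G) => j t))
      (fun t : Subgroup.centralizer (W : Set G) => γ t) =
      br (V.subgroupOf (Subgroup.centralizer (W : Set G)))
      (fun t : Subgroup.centralizer (W : Set G) => j t) := by
    rw [h5, ← mulF_res (Subgroup.centralizer (W : Set G)) γ
      (fun x hx => H66.br_of_not_mem (fun h => hx (hCX h))),
      (PFC.H52.jun ℓ M hM G e V γ hL j hj).2.2]
  refine lpx lno rep nnz pic ℓ M hM G e V γ hL W hWV hfr f hf _ h1 (fun v hv x => ?_) h3 h6 ?_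
  · exact hj.iv v hv x
  · intro κ hκ h7
    apply hj.nz κ hκ
    rw [← h7]
    apply finsum_congr
    intro t
    rw [H46.ext0_of_mem _ (hCX t.2)]

end Pool.Agent.PFD.H33
end
end -- Pool.Agent.Helper33_PFD.JLX

section -- Pool.Agent.Helper62_PFC.UNT

/-!
# Row UNT of squad PFC (MP_6a3f1a_al)
-/

set_option autoImplicit false

open scoped BigOperators

noncomputable section

namespace Pool.Agent.PFC.H62

open Pool.Agent.Helper51_AWC Pool.Agent.Helper79_WRA Pool.Agent.PP Pool.Agent.PP.KF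
open Pool.Agent.PP.K9 Pool.Agent.PP.K9.H97 Pool.Agent.PP.H75 Pool.Agent.PP.T3 Pool.Agent.PP.T2
open Pool.Agent.PP.T8 (Fr rs pw)

attribute [local instance] Ideal.Quotient.field

section gen

variable {F G : Type} [Field F] [Group G] [Finite G]

theorem dl_cj (t : G) (j : G → F) : mulF (dl F t) j = mulF (H75.cj t j) (dl F t) := by
  rw [mulF_dl_l, mulF_dl_r]
  funext y
  unfold H75.cj
  congr 1
  group

theorem dl_one_mul (x : G → F) : mulF (dl F (1 : G)) x = x := by
  rw [mulF_dl_l]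
  funext y
  simp

theorem mul_dl_one (x : G → F) : mulF x (dl F (1 : G)) = x := by
  rw [mulF_dl_r]
  funext y
  simp

theorem dl_inv_cj (t : G) (j : G → F) :
    mulF j (dl F t⁻¹) = mulF (dl F t⁻¹) (H75.cj t j) := by
  have h := dl_cj t j
  have h1 : mulF (dl F t⁻¹) (mulF (mulF (dl F t) j) (dl F t⁻¹)) = mulF j (dl F t⁻¹) := by
    rw [← H20.mulF_assoc, ← H20.mulF_assoc, dl_mul, inv_mul_cancel, dl_one_mul]
  rw [← h1, h, H20.mulF_assoc (H75.cj t j), dl_mul, mul_inv_cancel, mul_dl_one]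

end gen

theorem unt (cjj : CjjStmt) (jcj : JcjStmt) : UntStmt := by
  intro ℓ _ M _ hM G _ _ e V γ hL j hJ W _ _ ι hι hιV hj hv t ht s hs
  obtain ⟨a, b, ha, hb, ha1, ha2, hb1, hb2, hab, hba⟩ :=
    cjj ℓ M hM G e V γ hL j (H75.cj t j) hJ (jcj ℓ M hM G e V γ hL j hJ t ht)
  have hy1 : mulF j (mulF a (dl (FF M) t)) = mulF a (dl (FF M) t) := by
    rw [← H20.mulF_assoc, ha1]
  have hy2 : mulF (mulF a (dl (FF M) t)) j = mulF a (dl (FF M) t) := by
    rw [H20.mulF_assoc, dl_cj, ← H20.mulF_assoc, ha2]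
  have hz1 : mulF j (mulF (dl (FF M) t⁻¹) b) = mulF (dl (FF M) t⁻¹) b := by
    rw [← H20.mulF_assoc, dl_inv_cj, H20.mulF_assoc, hb1]
  have hz2 : mulF (mulF (dl (FF M) t⁻¹) b) j = mulF (dl (FF M) t⁻¹) b := by
    rw [H20.mulF_assoc, hb2]
  refine ⟨mkc hj (mulF a (dl (FF M) t)) ⟨hy1, hy2⟩, mkc hj (mulF (dl (FF M) t⁻¹) b) ⟨hz1, hz2⟩,
    ?_, ?_, ?_⟩
  · apply cv_inj
    rw [cv_mul, cv_mkc, cv_mkc, cv_one, H20.mulF_assoc, ← H20.mulF_assoc (dl (FF M) t), dl_mul,
      mul_inv_cancel, dl_one_mul, hab]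
  · apply cv_inj
    rw [cv_mul, cv_mkc, cv_mkc, cv_one, H20.mulF_assoc, ← H20.mulF_assoc b, hba, ← dl_cj,
      ← H20.mulF_assoc, dl_mul, inv_mul_cancel, dl_one_mul]
  · intro w
    apply cv_inj
    rw [cv_mul, cv_mul, cv_mkc, cv_jal, cv_jal, H20.mulF_assoc (dl (FF M) (ι (s w))), hy1]
    have h1 : ∀ x, a (ι (s w) * x * (ι (s w))⁻¹) = a x := by
      intro x
      exact ha _ (hιV ▸ ⟨s w, rfl⟩) x
    calc mulF (mulF a (dl (FF M) t)) (mulF (dl (FF M) (ι w)) j)
        = mulF a (mulF (mulF (dl (FF M) t) (dl (FF M) (ι w))) j) := by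
          rw [H20.mulF_assoc, H20.mulF_assoc]
      _ = mulF a (mulF (mulF (dl (FF M) (ι (s w))) (dl (FF M) t)) j) := by
          rw [dl_mul, dl_mul, hs]
          congr 3
          group
      _ = mulF (mulF (dl (FF M) (ι (s w))) a) (mulF (dl (FF M) t) j) := by
          rw [dl_comm h1, H20.mulF_assoc, H20.mulF_assoc]
      _ = mulF (dl (FF M) (ι (s w))) (mulF (mulF a (dl (FF M) t)) j) := by
          rw [H20.mulF_assoc, H20.mulF_assoc]
      _ = mulF (dl (FF M) (ι (s w))) (mulF a (dl (FF M) t)) := by rw [hy2]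

end Pool.Agent.PFC.H62
end
end -- Pool.Agent.Helper62_PFC.UNT

section -- Pool.Agent.Helper64_PFD.SPF

/-!
# Squad PFD, row SPF: the fixed points of the inertial group
-/

namespace Pool.Agent.PFD.H64

open Pool.Agent.Helper51_AWC Pool.Agent.Helper79_WRA Pool.Agent.PP Pool.Agent.PP.KF
open Pool.Agent.PP.K9 Pool.Agent.PP.K9.H97 Pool.Agent.PP.H75 Pool.Agent.PP.T3 Pool.Agent.PP.T2

/-- the elements of the join of two commuting subgroups are products -/
lemma mem_join {G : Type} [Group G] {V U W : Subgroup G}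
    (hab : ∀ a ∈ V, ∀ b ∈ V, a * b = b * a) (hU : U ≤ V) (hW : W ≤ V) (hj : U ⊔ W = V)
    {v : G} (hv : v ∈ V) : ∃ u ∈ U, ∃ w ∈ W, v = u * w := by
  obtain ⟨S, hS⟩ : ∃ S : Subgroup G, ∀ x, x ∈ S ↔ ∃ u ∈ U, ∃ w ∈ W, x = u * w := by
    refine ⟨{ carrier := {x | ∃ u ∈ U, ∃ w ∈ W, x = u * w}
              mul_mem' := ?_
              one_mem' := ⟨1, U.one_mem, 1, W.one_mem, (one_mul 1).symm⟩
              inv_mem' := ?_ }, fun x => Iff.rfl⟩
    · rintro a b ⟨u, hu, w, hw, rfl⟩ ⟨u', hu', w', hw', rfl⟩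
      refine ⟨u * u', U.mul_mem hu hu', w * w', W.mul_mem hw hw', ?_⟩
      have h1 : w * u' = u' * w := hab w (hW hw) u' (hU hu')
      calc u * w * (u' * w') = u * (w * u') * w' := by group
        _ = u * (u' * w) * w' := by rw [h1]
        _ = u * u' * (w * w') := by group
    · rintro a ⟨u, hu, w, hw, rfl⟩
      refine ⟨u⁻¹, U.inv_mem hu, w⁻¹, W.inv_mem hw, ?_⟩
      have h1 : u * w = w * u := hab u (hU hu) w (hW hw)
      rw [h1, mul_inv_rev]
  have h1 : V ≤ S := by
    rw [← hj]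
    refine sup_le (fun u hu => (hS u).2 ⟨u, hu, 1, W.one_mem, (mul_one u).symm⟩)
      fun w hw => (hS w).2 ⟨1, U.one_mem, w, hw, (one_mul w).symm⟩
  exact (hS v).1 (h1 hv)

/-- SPF -/
theorem spf : SpfStmt := by
  intro ℓ F _ G _ _ e V γ hL U W hS t ht v hv htv
  obtain ⟨u, hu, w, hw, rfl⟩ := mem_join hL.ab hS.lu hS.lw hS.jn hv
  have h1 : (t * u * t⁻¹) * (t * w * t⁻¹) = u * w := by
    calc (t * u * t⁻¹) * (t * w * t⁻¹) = t * (u * w) * t⁻¹ := by group
      _ = u * w * t * t⁻¹ := by rw [htv]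
      _ = u * w := by group
  have h2 : u⁻¹ * (t * u * t⁻¹) = w * (t * w * t⁻¹)⁻¹ := by
    rw [eq_mul_inv_iff_mul_eq, mul_assoc, h1]
    group
  have h3 : u⁻¹ * (t * u * t⁻¹) ∈ U ⊓ W := by
    refine Subgroup.mem_inf.2 ⟨U.mul_mem (U.inv_mem hu) (hS.su t ht u hu), ?_⟩
    rw [h2]
    exact W.mul_mem hw (W.inv_mem (hS.sw t ht w hw))
  rw [hS.dj, Subgroup.mem_bot, inv_mul_eq_one] at h3
  by_cases hu1 : u = 1
  · right
    rw [hu1, one_mul]
    exact hw
  · left
    refine hS.fr t ht u hu hu1 ?_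
    calc t * u = t * u * t⁻¹ * t := by group
      _ = u * t := by rw [← h3]

end Pool.Agent.PFD.H64
end -- Pool.Agent.Helper64_PFD.SPF

section -- Pool.Agent.Helper76_PFC.LCP

/-! Row LCP of squad PFC: from the local algebra `Pj` to the local data `Lcq`. -/

open scoped BigOperators

noncomputable section

namespace Pool.Agent.PFC.H76

open Pool.Agent.Helper51_AWC Pool.Agent.Helper79_WRA Pool.Agent.PP Pool.Agent.PP.KF
open Pool.Agent.PP.K9 Pool.Agent.PP.K9.H97 Pool.Agent.PP.H75 Pool.Agent.PP.T3 Pool.Agent.PP.T2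
open Pool.Agent.PP.T8 (Fr rs pw)
open Pool.Agent.PFC

attribute [local instance] Ideal.Quotient.field

section maps

variable {F H : Type} [Field F] [Group H] [Finite H] {j : H → F} (hj : mulF j j = j) {n : ℕ}
  {π : (H → F) →ₗ[F] Matrix (Fin n) (Fin n) F}

/-- the homomorphism `π` on the corner -/
def pc (hπ : Pj j n π) : Crn hj →ₐ[F] Matrix (Fin n) (Fin n) F :=
  AlgHom.ofLinearMap
    { toFun := fun a : Crn hj => π (cv a)
      map_add' := fun a b => by rw [cv_add, map_add]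
      map_smul' := fun r a => by rw [cv_smul, map_smul]; rfl }
    (by
      change π (cv (1 : Crn hj)) = 1
      rw [cv_one]
      exact hπ.one)
    (fun a b => by
      change π (cv (a * b)) = π (cv a) * π (cv b)
      rw [cv_mul]
      exact hπ.mul _ _ (cv_l hj a) (cv_r hj a) (cv_l hj b) (cv_r hj b))

theorem pc_apply (hπ : Pj j n π) (a : Crn hj) : pc hj hπ a = π (cv a) := rfl

theorem cv_pow (b : Crn hj) (N : ℕ) : cv (b ^ (N + 1)) = (mulF (cv b))^[N] (cv b) := by
  induction N with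
  | zero => rw [zero_add, pow_one]; rfl
  | succ N ih =>
    rw [pow_succ' b (N + 1), cv_mul, ih, Function.iterate_succ_apply']

end maps

theorem lcp (hcbr : CbrStmt) : LcpStmt := by
  intro ℓ _ F _ _ G W _ _ _ _ ι hι hpW j hj hv Q n π hπ
  obtain ⟨hc, β, hβs, -, hβk⟩ := hcbr ℓ F G W ι hι hpW j hj hv Q
  refine ⟨(pc hc hπ).comp β, hπ.pos, ?_, ?_, ?_, hπ.cop⟩
  · intro B
    obtain ⟨a, h1, h2, h3⟩ := hπ.sur B
    obtain ⟨a', ha'⟩ := hβs (mkc hc a ⟨h1, h2⟩)
    refine ⟨a', ?_⟩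
    rw [AlgHom.comp_apply, ha', pc_apply, cv_mkc, h3]
  · intro a ha
    rw [AlgHom.comp_apply, (hβk a).2 ha, map_zero]
  · intro a ha
    rw [AlgHom.comp_apply, pc_apply] at ha
    obtain ⟨N, hN⟩ := hπ.nil (cv (β a)) (cv_l hc _) (cv_r hc _) ha
    refine ⟨N + 1, ?_⟩
    have h1 : β (a ^ (N + 1)) = 0 := by
      apply cv_inj hc
      rw [map_pow, cv_pow hc, hN]
      rfl
    have h2 := (hβk _).1 h1
    exact h2

end Pool.Agent.PFC.H76
end
end -- Pool.Agent.Helper76_PFC.LCP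

section -- Pool.Agent.Helper91_PFD.PBX

/-!
# Squad PFD, row PBX: the input of `PmzStmt` for blocks, from the rows of block D5
-/

set_option autoImplicit false

noncomputable section

namespace Pool.Agent.PFD.H91

open Pool.Agent.Helper51_AWC Pool.Agent.Helper79_WRA Pool.Agent.PP Pool.Agent.PP.KF
open Pool.Agent.PP.K9 Pool.Agent.PP.K9.H97 Pool.Agent.PP.H75 Pool.Agent.PP.T3 Pool.Agent.PP.T2
open Pool.Agent.PFC (Jd Crn jal Pj PIn Ctf ls Cz cv)

attribute [local instance] Ideal.Quotient.field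

/-- row PBX -/
theorem pbx (spf : SpfStmt) (jlx : JlxStmt) (egx : EgxStmt) (ful : FulStmt) (lsg : LsgStmt)
    (ctr : CtrStmt) (jex : PFC.JexStmt) (jun : PFC.JunStmt) (ffa : PFC.FfaStmt)
    (fps : PFC.FpsStmt) (lcp : PFC.LcpStmt) (unt : PFC.UntStmt) : PbxStmt := by
  intro ℓ hℓ M iM hM G iG iFG e V γ hL U W hS
  obtain ⟨V', E, iV, iFV, iE, iFE, ι, φ, X, hι, hr, hXW, hctx, hEi, hT1, hT2⟩ :=
    egx ℓ M hM G e V γ hL U W hS
  obtain ⟨j, hj⟩ := jex ℓ M hM G e V γ hL
  have hg : GoodF ℓ (FF M) := H50.fld ℓ hℓ.out M hM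
  haveI : CharP (FF M) ℓ := hg.char
  have hmem : ∀ w : V', ι w ∈ V := fun w => by rw [← hr]; exact ⟨w, rfl⟩
  have hv : ∀ w x, j (ι w * x * (ι w)⁻¹) = j x := fun w x => hj.iv (ι w) (hmem w) x
  obtain ⟨hfin, hfrm, hloc, htop⟩ := ffa ℓ M hM G e V γ hL j hj V' ι hι hr hj.id hv
  have hje : mulF e j = j := (jun ℓ M hM G e V γ hL j hj).2.1
  have hful := ful ℓ M hM G e V γ hL j hj
  refine ⟨V', E, Crn hj.id, iV, iFV, iE, iFE, inferInstance, inferInstance, ι, φ, X,
    jal hj.id ι hv, hι, hr, hXW, hctx, ?_, hEi, hT1, hT2, ?_, ?_⟩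
  · refine ⟨hfin, hfrm, hloc, fps ℓ M hM G e V γ hL j hj V' E ι hι hr φ hT1 hj.id hv, htop,
      ?_, ?_⟩
    · intro Q hQ
      obtain ⟨u, huQ, huX⟩ := SetLike.not_le_iff_exists.1 hQ
      have h1 : Q.map ι ≤ V := by
        rw [← hr]
        rintro _ ⟨w, -, rfl⟩
        exact ⟨w, rfl⟩
      have huW : ι u ∉ W := by
        intro h
        rw [← hXW] at h
        obtain ⟨w, hw, hwu⟩ := h
        exact huX (hι hwu ▸ hw)
      obtain ⟨n, π, hπ⟩ := jlx ℓ M hM G e V γ hL j hj (Q.map ι) h1 (by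
        intro t ht hc
        rcases spf ℓ (FF M) G e V γ hL U W hS t ht (ι u) (hmem u)
          (hc (ι u) (Subgroup.mem_map_of_mem ι huQ)) with h | h
        · exact h
        · exact absurd h huW)
      obtain ⟨π', hπ'⟩ := lcp ℓ (FF M) G V' ι hι hctx.pg j hj.id hv Q n π hπ
      exact ⟨n, π', hπ'⟩
    · intro x
      obtain ⟨t, ht, htw⟩ := hT2 x
      exact unt ℓ M hM G e V γ hL j hj V' ι hι hr hj.id hv t ht (φ x) htw
  · exact lsg ℓ (FF M) hg G e j hL.blk.1 hje hj.id hful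
  · rw [ctr (FF M) G e j hL.blk.1 hje hj.id hful]
    exact H50.chp ℓ hℓ.out M hM G e hL.blk.1

end Pool.Agent.PFD.H91
end
end -- Pool.Agent.Helper91_PFD.PBX

section -- Pool.Agent.Helper66_PFD.AsmBlk

/-!
# Squad PFD, block D5a: assembly (`PbxStmt`)
-/

noncomputable section

namespace Pool.Agent.PFD.H66

open Pool.Agent.PP

theorem lno_ : PFC.LnoStmt := PFC.H51.lno K9.wbo_ T3.lrk_ T8.rg1_

theorem nnz_ : PFC.NnzStmt := PFC.H8.nnz T8.lft_ T8.omi_ T8.knz_ T3.nit_ T3.nil_ T3.dgc_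

theorem jex_ : PFC.JexStmt := PFC.H45.jex T8.idp_ T8.rk1_ T8.knz_ T3.dgc_ KF.H25.idm

theorem lmb_ : PFC.LmbStmt := PFC.H12.lmb T8.rg1_ T3.cen_ T3.psg_

theorem cfb_ : PFC.CfbStmt :=
  PFC.H77.cfb (PFC.H23.cfa PFC.H52.jun PFC.H44.nph lmb_) PFC.H12.nka lmb_ PFC.H52.jun

theorem ffa_ : PFC.FfaStmt := PFC.H9F.ffa cfb_ PFC.H38.cps

theorem fps_ : PFC.FpsStmt := PFC.H24.fps PFC.H38.cps (PFC.H75.fsn PFC.H33.fuw) PFC.H10.psx

theorem lcp_ : PFC.LcpStmt := PFC.H76.lcp (PFC.H70.cbr PFC.H38.cps)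

theorem unt_ : PFC.UntStmt :=
  PFC.H62.unt (PFC.H70.cjj lno_ PFC.H29.rep T6.H39.lwd) PFC.H75.jcj

theorem ful_ : FulStmt := H52.ful T8.lft_ T8.omi_ T8.knz_ T3.dgc_ K9.H34.inx

theorem pbx_ : PbxStmt :=
  H91.pbx H64.spf (H33.jlx lno_ PFC.H29.rep nnz_ PFC.H24.pic) (H63.egx H64.spf) ful_ H29.lsg
    H61.ctr jex_ PFC.H52.jun ffa_ fps_ lcp_ unt_

end Pool.Agent.PFD.H66
end
end -- Pool.Agent.Helper66_PFD.AsmBlk
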