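import Pool.Agent.Helper12_AWB.B300

/-!
# Merged copies (generated) of the modules

* `Pool.Agent.Helper2_PSS.BLG`
* `Pool.Agent.Helper4_PSS.STG`
* `Pool.Agent.Helper4_PSS.STO`
* `Pool.Agent.Helper69_PSS.CYP`
* `Pool.Agent.PSS.AllS6`
* `Pool.Agent.Helper91_PST.K4R`
* `Pool.Agent.Helper91_PST.KNG`
* `Pool.Agent.Helper91_PST.KNH`
-/

set_option autoImplicit false

section -- Pool.Agent.Helper2_PSS.BLG

/-!
# Squad PSS, row BLG

The field `blk` of the class `Cl` if the centraliser of `V` is local: an element of the Brauer kernel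
at `V` is not a unit of the centraliser, so it is nilpotent (Fitting), and `e ^ m - e` is in the Brauer
kernel at `Q` for all `m ≥ 1`.
-/

open scoped BigOperators

noncomputable section

namespace Pool.Agent.PSS.H2

open Pool.Agent.PSS
open Pool.Agent.PFC (Cz IsTv)

section

variable {F V A : Type} [Field F] [CommGroup V] [Ring A] [Algebra F A]

theorem blg_cw (α : V →* A) (u : V) (a : A) : cw F α u a = α u * (a * α u⁻¹) := rfl

theorem blg_inv (α : V →* A) (u : V) : α u * α u⁻¹ = 1 := by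
  rw [← map_mul, mul_inv_cancel, map_one]

theorem blg_inv' (α : V →* A) (u : V) : α u⁻¹ * α u = 1 := by
  rw [← map_mul, inv_mul_cancel, map_one]

theorem blg_com (α : V →* A) (Q : Subgroup V) (a : A) :
    a ∈ FxR (cw F α) Q ↔ ∀ u ∈ Q, α u * a = a * α u := by
  constructor
  · intro h u hu
    have h1 : α u * (a * α u⁻¹) = a := h u hu
    calc α u * a = α u * (a * (α u⁻¹ * α u)) := by rw [blg_inv', mul_one]
      _ = (α u * (a * α u⁻¹)) * α u := by simp only [mul_assoc]
      _ = a * α u := by rw [h1]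
  · intro h u hu
    show α u * (a * α u⁻¹) = a
    rw [← mul_assoc, h u hu, mul_assoc, blg_inv, mul_one]

theorem blg_cz (α : V →* A) (a : A) : a ∈ FxR (cw F α) ⊤ ↔ a ∈ Cz F α ⊤ := by
  rw [blg_com]
  constructor
  · intro h
    refine (Subalgebra.mem_centralizer_iff F).2 ?_
    rintro g ⟨u, hu, rfl⟩
    exact h u (Subgroup.mem_top u)
  · intro h u _
    exact (Subalgebra.mem_centralizer_iff F).1 h (α u) ⟨u, Subgroup.mem_top u, rfl⟩

theorem blg_fmul (α : V →* A) (Q : Subgroup V) {a b : A} (ha : a ∈ FxR (cw F α) Q)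
    (hb : b ∈ FxR (cw F α) Q) : a * b ∈ FxR (cw F α) Q := by
  rw [blg_com] at ha hb ⊢
  intro u hu
  rw [← mul_assoc, ha u hu, mul_assoc, hb u hu, mul_assoc]

theorem blg_mul (α : V →* A) (Q : Subgroup V) {x n : A} (hx : x ∈ FxR (cw F α) Q)
    (hn : n ∈ BKR (cw F α) Q) : x * n ∈ BKR (cw F α) Q := by
  refine Submodule.span_induction (p := fun n _ => x * n ∈ BKR (cw F α) Q) ?_ ?_ ?_ ?_ hn
  · rintro m ⟨P', S, a, hP, hS, ha, rfl⟩
    refine Submodule.subset_span ⟨P', S, x * a, hP, hS, ?_, ?_⟩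
    · refine blg_fmul α P' ?_ ha
      intro h hh
      exact hx h (hP.le hh)
    · rw [Finset.mul_sum]
      refine Finset.sum_congr rfl ?_
      intro s hs
      have h1 := (blg_com α Q x).1 hx s (hS.1 s hs)
      rw [blg_cw, blg_cw, ← mul_assoc, ← h1]
      simp only [mul_assoc]
  · rw [mul_zero]
    exact Submodule.zero_mem _
  · intro a b _ _ ha hb
    rw [mul_add]
    exact Submodule.add_mem _ ha hb
  · intro c a _ ha
    rw [mul_smul_comm]
    exact Submodule.smul_mem _ c ha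

end

/-- a nilpotent-or-left-invertible dichotomy in a local finite-dimensional algebra -/
theorem blg_fit {F C : Type} [Field F] [Ring C] [Algebra F C] [FiniteDimensional F C]
    (hl : IsLocalRing C) (e : C) : (∃ n : ℕ, 0 < n ∧ e ^ n = 0) ∨ ∃ d : C, d * e = 1 := by
  have h1 := LinearMap.eventually_isCompl_ker_pow_range_pow (LinearMap.mulRight F e)
  obtain ⟨n, hn, h2⟩ := (Filter.eventually_atTop.1 (h1.and (Filter.eventually_gt_atTop 0))).imp
    (fun n h => h n le_rfl)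
  have h3 : (1 : C) ∈ LinearMap.ker (LinearMap.mulRight F e ^ n) ⊔
      LinearMap.range (LinearMap.mulRight F e ^ n) := by
    rw [hn.sup_eq_top]
    exact Submodule.mem_top
  have h4 : ∀ c : C, (LinearMap.mulRight F e ^ n) c = c * e ^ n := by
    intro c
    rw [LinearMap.pow_mulRight]
    rfl
  obtain ⟨a, ha, b, hb, hab⟩ := Submodule.mem_sup.1 h3
  rw [LinearMap.mem_ker, h4] at ha
  obtain ⟨c, hc⟩ := hb
  rw [h4] at hc
  rcases hl.isUnit_or_isUnit_of_add_one hab with h5 | h5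
  · left
    exact ⟨n, h2, (h5.mul_right_eq_zero).1 ha⟩
  · right
    obtain ⟨u, hu⟩ := h5
    refine ⟨(↑u⁻¹ : C) * (c * e ^ (n - 1)), ?_⟩
    have h6 : e ^ (n - 1) * e = e ^ n := by
      rw [← pow_succ, Nat.sub_add_cancel h2]
    rw [mul_assoc, mul_assoc, h6, hc, ← hu, Units.inv_mul]

theorem blg : BlgStmt := by
  intro F V A _ _ _ _ _ _ α hloc hone Q e heV hidQ heB
  have heC : e ∈ Cz F α ⊤ := (blg_cz α e).1 heV
  have heQ : e ∈ FxR (cw F α) Q := fun h _ => heV h (Subgroup.mem_top h)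
  have hpow : ∀ m : ℕ, 0 < m → e ^ m - e ∈ BKR (cw F α) Q := by
    intro m hm
    induction m, hm using Nat.le_induction with
    | base =>
      have h1 : e ^ Nat.succ 0 - e = 0 := by
        rw [Nat.succ_eq_add_one, zero_add, pow_one, sub_self]
      rw [h1]
      exact Submodule.zero_mem _
    | succ m hm ih =>
      have h1 : e ^ (m + 1) - e = e * (e ^ m - e) + (e * e - e) := by
        rw [pow_succ', mul_sub]
        abel
      rw [h1]
      exact Submodule.add_mem _ (blg_mul α Q heQ ih) hidQ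
  rcases blg_fit (F := F) (C := Cz F α ⊤) hloc ⟨e, heC⟩ with ⟨n, hn, h0⟩ | ⟨d, hd⟩
  · have h1 : e ^ n = 0 := by
      have h2 := congrArg (fun t : Cz F α ⊤ => (t : A)) h0
      simpa using h2
    have h3 := hpow n hn
    rw [h1, zero_sub] at h3
    exact (Submodule.neg_mem_iff _).1 h3
  · exfalso
    apply hone
    have h2 := congrArg (fun t : Cz F α ⊤ => (t : A)) hd
    have h3 : (d : A) * e = 1 := by simpa using h2
    rw [← h3]
    exact blg_mul α ⊤ ((blg_cz α _).2 d.2) heB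

end Pool.Agent.PSS.H2
end
end -- Pool.Agent.Helper2_PSS.BLG

section -- Pool.Agent.Helper4_PSS.STG

/-!
# The input of the group level from a theorem for algebras with an arbitrary property `P`
-/

set_option autoImplicit false

noncomputable section

namespace Pool.Agent.PSS.H4

open Pool.Agent.Helper51_AWC Pool.Agent.Helper79_WRA Pool.Agent.PP Pool.Agent.PP.KF
open Pool.Agent.PP.K9 Pool.Agent.PP.K9.H97 Pool.Agent.PP.H75 Pool.Agent.PP.T3 Pool.Agent.PP.T2
open Pool.Agent.PFD (Ei)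
open Pool.Agent.PFC (Jd Crn jal Cz cv)

attribute [local instance] Ideal.Quotient.field

/-- If the class `K` is contained in the property `P`, and for algebras with the property `P` the
dimensions of the centres of `A` and `N_W(A)` are equal, then the numbers of characters are equal. -/
theorem stogen (clg : ClgStmt) (jnw : JnwStmt) (nwg : NwgStmt) (dzc : DzcStmt)
    (jex : PFC.JexStmt) (P : PrV) (K : Kl)
    (hKP : ∀ (ℓ : ℕ) (V : Type) [CommGroup V] [Finite V] (E : Subgroup (MulAut V))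
      (W : Subgroup V), IsPGroup ℓ V → ¬ ℓ ∣ Nat.card E → K ℓ V E W → P V E E.subtype W)
    (bsg : BsgStmt P) : StoFor K := by
  intro ℓ hℓ M iM hM G iG iFG e V γ hL W hWV hK c hc
  have hg : GoodF ℓ (FF M) := H50.fld ℓ hℓ.out M hM
  have : CharP (FF M) ℓ := hg.char
  have : IsAlgClosed (FF M) := hg.closed
  have hix : ¬ ℓ ∣ ix V γ :=
    K9.H34.inx ℓ M hM G e hL.blk V hL.tp hL.ab γ hL.gam.supp hL.gam.blk hL.und
  let iC : CommGroup V := { (inferInstance : Group V) with
    mul_comm := fun a b => Subtype.ext (hL.ab a a.2 b b.2) }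
  have hfin : Finite V := inferInstance
  let iFV : Fintype V := Fintype.ofFinite V
  have hfinM : Finite (MulAut V) := Finite.of_injective (fun f : MulAut V => (f : V → V))
    DFunLike.coe_injective
  let iFE : Fintype (Ei V γ) := Fintype.ofFinite _
  have hmap : ∀ x : Ei V γ, ∃ t ∈ Tg V γ, ∀ w : V, V.subtype ((Ei V γ).subtype x w) =
      t * V.subtype w * t⁻¹ := by
    rintro ⟨x, t, ht, rfl⟩
    exact ⟨t, ht, fun w => rfl⟩
  have hmap2 : ∀ t ∈ Tg V γ, ∃ x : Ei V γ, ∀ w : V, V.subtype ((Ei V γ).subtype x w) =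
      t * V.subtype w * t⁻¹ := by
    intro t ht
    have h2 : t ∈ Subgroup.normalizer (V : Set G) := (Subgroup.mem_inf.1 ht).1
    exact ⟨⟨V.normalizerMonoidHom ⟨t, h2⟩, ⟨⟨t, h2⟩, ht, rfl⟩⟩, fun w => rfl⟩
  have hW : (W.subgroupOf V).map V.subtype = W := Subgroup.map_subgroupOf_eq_of_le hWV
  obtain ⟨j, hj⟩ := jex ℓ M hM G e V γ hL
  have hv : ∀ (w : V) x, j (V.subtype w * x * (V.subtype w)⁻¹) = j x :=
    fun w x => hj.iv w w.2 x
  have hA := clg ℓ M hM G e V γ hL j hj V (Ei V γ) V.subtype Subtype.val_injective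
    V.range_subtype (Ei V γ).subtype hmap2 hmap hj.id hv
  have hj' := jnw ℓ M hM G e V γ hL W hWV c hc j hj
  obtain ⟨nw⟩ := nwg ℓ (FF M) G V V.subtype Subtype.val_injective hL.tp.pg (W.subgroupOf V) W hW
    j hj.id hv hj'.id
  have hcop : ¬ ℓ ∣ Nat.card (Ei V γ) := by
    rw [PFD.H63.card_Ei]
    exact hix
  have h := bsg ℓ (FF M) V (Ei V γ) (Crn hj.id) (Crn hj'.id) (Ei V γ).subtype
    (jal hj.id V.subtype hv) (W.subgroupOf V) hL.tp.pg hcop
    (hKP ℓ V (Ei V γ) (W.subgroupOf V) hL.tp.pg hcop hK) hA nw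
  rw [dzc ℓ M hM G e V γ hL j hj hj.id, dzc ℓ M hM _ c _ _ hc _ hj' hj'.id] at h
  exact h

end Pool.Agent.PSS.H4
end
end -- Pool.Agent.Helper4_PSS.STG

section -- Pool.Agent.Helper4_PSS.STO

/-!
# Squad PSS, row STOALG: the input of the group level from the theorem for algebras
-/

set_option autoImplicit false

noncomputable section

namespace Pool.Agent.PSS.H4

open Pool.Agent.Helper51_AWC Pool.Agent.Helper79_WRA Pool.Agent.PP Pool.Agent.PP.KF
open Pool.Agent.PP.K9 Pool.Agent.PP.K9.H97 Pool.Agent.PP.H75 Pool.Agent.PP.T3 Pool.Agent.PP.T2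
open Pool.Agent.PFD (Ei)
open Pool.Agent.PFC (Jd Crn jal Cz cv)

attribute [local instance] Ideal.Quotient.field

/-- row STOALG -/
theorem stoalg (clg : ClgStmt) (jnw : JnwStmt) (nwg : NwgStmt) (dzc : DzcStmt) (cyp : CypStmt)
    (jex : PFC.JexStmt) : StoAlgStmt := by
  intro ats ℓ hℓ M iM hM G iG iFG e V γ hL W hWV hK c hc
  have hg : GoodF ℓ (FF M) := H50.fld ℓ hℓ.out M hM
  have : CharP (FF M) ℓ := hg.char
  have : IsAlgClosed (FF M) := hg.closed
  have hix : ¬ ℓ ∣ ix V γ :=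
    K9.H34.inx ℓ M hM G e hL.blk V hL.tp hL.ab γ hL.gam.supp hL.gam.blk hL.und
  let iC : CommGroup V := { (inferInstance : Group V) with
    mul_comm := fun a b => Subtype.ext (hL.ab a a.2 b b.2) }
  have hfin : Finite V := inferInstance
  let iFV : Fintype V := Fintype.ofFinite V
  have hfinM : Finite (MulAut V) := Finite.of_injective (fun f : MulAut V => (f : V → V))
    DFunLike.coe_injective
  let iFE : Fintype (Ei V γ) := Fintype.ofFinite _
  have hmap : ∀ x : Ei V γ, ∃ t ∈ Tg V γ, ∀ w : V, V.subtype ((Ei V γ).subtype x w) =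
      t * V.subtype w * t⁻¹ := by
    rintro ⟨x, t, ht, rfl⟩
    exact ⟨t, ht, fun w => rfl⟩
  have hmap2 : ∀ t ∈ Tg V γ, ∃ x : Ei V γ, ∀ w : V, V.subtype ((Ei V γ).subtype x w) =
      t * V.subtype w * t⁻¹ := by
    intro t ht
    have h2 : t ∈ Subgroup.normalizer (V : Set G) := (Subgroup.mem_inf.1 ht).1
    exact ⟨⟨V.normalizerMonoidHom ⟨t, h2⟩, ⟨⟨t, h2⟩, ht, rfl⟩⟩, fun w => rfl⟩
  have hW : (W.subgroupOf V).map V.subtype = W := Subgroup.map_subgroupOf_eq_of_le hWV
  obtain ⟨C, U, X, hS⟩ := hK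
  obtain ⟨n, ψ, hcyp, hrs, hfre⟩ := cyp V (Ei V γ) C (W.subgroupOf V) U X hS
  obtain ⟨j, hj⟩ := jex ℓ M hM G e V γ hL
  have hv : ∀ (w : V) x, j (V.subtype w * x * (V.subtype w)⁻¹) = j x :=
    fun w x => hj.iv w w.2 x
  have hA := clg ℓ M hM G e V γ hL j hj V (Ei V γ) V.subtype Subtype.val_injective
    V.range_subtype (Ei V γ).subtype hmap2 hmap hj.id hv
  have hj' := jnw ℓ M hM G e V γ hL W hWV c hc j hj
  obtain ⟨nw⟩ := nwg ℓ (FF M) G V V.subtype Subtype.val_injective hL.tp.pg (W.subgroupOf V) W hW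
    j hj.id hv hj'.id
  have hcop : ¬ ℓ ∣ Nat.card (Ei V γ) := by
    rw [PFD.H63.card_Ei]
    exact hix
  have h := ats n ℓ (FF M) V (Ei V γ) (Crn hj.id) (Crn hj'.id) (Ei V γ).subtype
    (jal hj.id V.subtype hv) (W.subgroupOf V) ψ hL.tp.pg hcop hcyp hrs (Or.inr hfre) hA nw
  rw [dzc ℓ M hM G e V γ hL j hj hj.id, dzc ℓ M hM _ c _ _ hc _ hj' hj'.id] at h
  exact h

end Pool.Agent.PSS.H4
end
end -- Pool.Agent.Helper4_PSS.STO

section -- Pool.Agent.Helper69_PSS.CYP

/-!
# Squad PSS, row CYP (helper69): the class `Sx` in the form of `DefsS.lean`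
-/

noncomputable section

namespace Pool.Agent.PSS.H69

/-- The restriction of an action to a stable subgroup. -/
def rsh {V E : Type} [CommGroup V] [Group E] (φ : E →* MulAut V) (W : Subgroup V)
    (h : ∀ e : E, ∀ w ∈ W, φ e w ∈ W) : E →* MulAut W where
  toFun := fun e =>
    { toFun := fun w => ⟨φ e w, h e w w.2⟩
      invFun := fun w => ⟨φ e⁻¹ w, h e⁻¹ w w.2⟩
      left_inv := by
        intro w
        apply Subtype.ext
        change φ e⁻¹ (φ e (w : V)) = w
        rw [← MulAut.mul_apply, ← map_mul, inv_mul_cancel, map_one, MulAut.one_apply]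
      right_inv := by
        intro w
        apply Subtype.ext
        change φ e (φ e⁻¹ (w : V)) = w
        rw [← MulAut.mul_apply, ← map_mul, mul_inv_cancel, map_one, MulAut.one_apply]
      map_mul' := by
        intro x y
        apply Subtype.ext
        change φ e ((x : V) * (y : V)) = φ e x * φ e y
        exact map_mul _ _ _ }
  map_one' := by
    apply MulEquiv.ext
    intro w
    apply Subtype.ext
    change φ 1 (w : V) = w
    rw [map_one, MulAut.one_apply]
  map_mul' := by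
    intro a b
    apply MulEquiv.ext
    intro w
    apply Subtype.ext
    change φ (a * b) (w : V) = φ a (φ b w)
    rw [map_mul, MulAut.mul_apply]

theorem rsh_apply {V E : Type} [CommGroup V] [Group E] (φ : E →* MulAut V) (W : Subgroup V)
    (h : ∀ e : E, ∀ w ∈ W, φ e w ∈ W) (e : E) (w : W) : (rsh φ W h e w : V) = φ e w := rfl

/-- A product of cyclic stable subgroups is stable. -/
theorem cyc_st {V : Type} [CommGroup V] {E : Subgroup (MulAut V)} {C : Subgroup V}
    (hC : Cyc E C) : ∀ a ∈ E, ∀ c ∈ C, a c ∈ C := by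
  induction hC with
  | bot =>
    intro a _ c hc
    rw [Subgroup.mem_bot] at hc ⊢
    rw [hc, map_one]
  | mul C Y hC hcyc hst hCY ih =>
    intro a ha c hc
    obtain ⟨y, hy, z, hz, rfl⟩ := Subgroup.mem_sup.mp hc
    rw [map_mul]
    exact Subgroup.mul_mem_sup (ih a ha y hy) (hst a ha z hz)

/-- The claim. -/
theorem claim {V : Type} [CommGroup V] {E : Subgroup (MulAut V)} {C : Subgroup V}
    (hC : Cyc E C) : ∀ (V₁ E₁ : Type) [CommGroup V₁] [Group E₁] (φ : E₁ →* MulAut V₁)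
    (i : V₁ →* V), Function.Injective i → (∀ x, ∃ a ∈ E, ∀ v, i (φ x v) = a (i v)) →
    ∀ W₁ : Subgroup V₁, (∀ x, ∀ w ∈ W₁, φ x w ∈ W₁) → C ⊓ W₁.map i = ⊥ →
    C ⊔ W₁.map i = i.range → ∃ n, Cyp n V₁ E₁ φ W₁ := by
  induction hC with
  | bot =>
    intro V₁ E₁ _ _ φ i hi _ W₁ _ _ h2
    refine ⟨0, ?_⟩
    change W₁ = ⊤
    rw [bot_sup_eq, MonoidHom.range_eq_map] at h2
    exact Subgroup.map_injective hi h2
  | mul C Y hC hcyc hst hCY ih =>
    intro V₁ E₁ _ _ φ i hi hφ W₁ hW₁ h1 h2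
    have hCst := cyc_st hC
    have hYr : Y ≤ i.range := by
      rw [← h2]
      exact le_trans le_sup_right le_sup_left
    have hCr : C ≤ i.range := by
      rw [← h2]
      exact le_trans le_sup_left le_sup_left
    have hWr : W₁.map i ≤ i.range := by
      rw [← h2]
      exact le_sup_right
    have hCW : C ⊓ W₁.map i = ⊥ := by
      rw [eq_bot_iff, ← h1]
      exact inf_le_inf_right _ le_sup_left
    set W' : Subgroup V₁ := (C ⊔ W₁.map i).comap i with hW'
    set Y₁ : Subgroup V₁ := Y.comap i with hY₁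
    have hmap : W'.map i = C ⊔ W₁.map i := by
      rw [hW', Subgroup.map_comap_eq]
      exact inf_eq_right.mpr (sup_le hCr hWr)
    have hWW : W₁ ≤ W' := by
      intro w hw
      rw [hW', Subgroup.mem_comap]
      exact Subgroup.mem_sup_right (Subgroup.mem_map_of_mem i hw)
    have hsw : ∀ e : E₁, ∀ u ∈ W', φ e u ∈ W' := by
      intro e u hu
      rw [hW', Subgroup.mem_comap] at hu ⊢
      obtain ⟨a, ha, hae⟩ := hφ e
      rw [hae]
      obtain ⟨c, hc, w, hw, hcw⟩ := Subgroup.mem_sup.mp hu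
      rw [← hcw, map_mul]
      refine Subgroup.mul_mem_sup (hCst a ha c hc) ?_
      obtain ⟨w₁, hw₁, rfl⟩ := Subgroup.mem_map.mp hw
      rw [← hae]
      exact Subgroup.mem_map_of_mem i (hW₁ e w₁ hw₁)
    have hcompl : IsCompl Y₁ W' := by
      constructor
      · rw [disjoint_iff, eq_bot_iff]
        intro v hv
        obtain ⟨hv1, hv2⟩ := Subgroup.mem_inf.mp hv
        rw [hY₁, Subgroup.mem_comap] at hv1
        rw [hW', Subgroup.mem_comap] at hv2
        obtain ⟨c, hc, w, hw, hcw⟩ := Subgroup.mem_sup.mp hv2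
        have hw1 : w ∈ (C ⊔ Y) ⊓ W₁.map i := by
          refine Subgroup.mem_inf.mpr ⟨?_, hw⟩
          have h3 : w = c⁻¹ * i v := by
            rw [← hcw]
            group
          rw [h3]
          exact Subgroup.mul_mem_sup (C.inv_mem hc) hv1
        rw [h1, Subgroup.mem_bot] at hw1
        have h4 : i v ∈ C ⊓ Y := by
          refine Subgroup.mem_inf.mpr ⟨?_, hv1⟩
          rw [← hcw, hw1, mul_one]
          exact hc
        rw [hCY, Subgroup.mem_bot] at h4
        rw [Subgroup.mem_bot]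
        apply hi
        rw [h4, map_one]
      · rw [codisjoint_iff, eq_top_iff]
        intro v _
        have hv : i v ∈ Y ⊔ (C ⊔ W₁.map i) := by
          have h3 : i v ∈ (C ⊔ Y) ⊔ W₁.map i := by
            rw [h2]
            exact ⟨v, rfl⟩
          have h4 : (C ⊔ Y) ⊔ W₁.map i ≤ Y ⊔ (C ⊔ W₁.map i) :=
            sup_le (sup_le (le_trans le_sup_left le_sup_right) le_sup_left)
              (le_trans le_sup_right le_sup_right)
          exact h4 h3
        obtain ⟨y, hy, z, hz, hyz⟩ := Subgroup.mem_sup.mp hv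
        obtain ⟨y₁, rfl⟩ := hYr hy
        obtain ⟨z₁, rfl⟩ := (sup_le hCr hWr) hz
        have h5 : v = y₁ * z₁ := by
          apply hi
          rw [← hyz, map_mul]
        rw [h5]
        exact Subgroup.mul_mem_sup hy hz
    have hcyc1 : IsCyclic Y₁ := by
      obtain ⟨y, hy, hgen⟩ := hcyc
      obtain ⟨y₁, rfl⟩ := hYr hy
      refine ⟨⟨⟨y₁, hy⟩, ?_⟩⟩
      intro x
      obtain ⟨k, hk⟩ := hgen (i x) x.2
      refine ⟨k, ?_⟩
      apply Subtype.ext
      apply hi
      rw [hk, ← map_zpow]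
      rfl
    have hsy : ∀ e : E₁, ∀ u ∈ Y₁, φ e u ∈ Y₁ := by
      intro e u hu
      rw [hY₁, Subgroup.mem_comap] at hu ⊢
      obtain ⟨a, ha, hae⟩ := hφ e
      rw [hae]
      exact hst a ha _ hu
    have hsub : (W₁.subgroupOf W').map (i.comp W'.subtype) = W₁.map i := by
      rw [← Subgroup.map_map, Subgroup.subgroupOf_map_subtype, inf_eq_left.mpr hWW]
    obtain ⟨n, hn⟩ := ih W' E₁ (rsh φ W' hsw) (i.comp W'.subtype)
      (hi.comp W'.subtype_injective)
      (by
        intro x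
        obtain ⟨a, ha, hae⟩ := hφ x
        exact ⟨a, ha, fun v => hae v⟩)
      (W₁.subgroupOf W')
      (by
        intro x w hw
        rw [Subgroup.mem_subgroupOf] at hw ⊢
        exact hW₁ x _ hw)
      (by rw [hsub]; exact hCW)
      (by rw [hsub, MonoidHom.range_comp, Subgroup.range_subtype, hmap])
    refine ⟨n + 1, Y₁, W', rsh φ W' hsw, ⟨hcompl, hcyc1, hsy, hsw⟩, hWW, ?_, hn⟩
    intro e w
    rfl

theorem cyp : CypStmt := by
  intro V _ _ E C W U X h
  have hst : ∀ e : E, ∀ w ∈ W, E.subtype e w ∈ W := by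
    intro e w hw
    rw [← h.uw] at hw ⊢
    obtain ⟨u, hu, x, hx, rfl⟩ := Subgroup.mem_sup.mp hw
    rw [map_mul]
    exact Subgroup.mul_mem_sup (h.su e e.2 u hu) (h.sx e e.2 x hx)
  obtain ⟨n, hn⟩ := claim h.cy V E E.subtype (MonoidHom.id V) (fun _ _ h => h)
    (fun x => ⟨x, x.2, fun v => rfl⟩) W hst
    (by rw [Subgroup.map_id]; exact h.cw)
    (by rw [Subgroup.map_id, h.jn, MonoidHom.range_eq_map, Subgroup.map_id])
  have hUW : U ≤ W := by
    rw [← h.uw]
    exact le_sup_left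
  have hXW : X ≤ W := by
    rw [← h.uw]
    exact le_sup_right
  refine ⟨n, rsh E.subtype W hst, hn, fun e w => rfl, U.subgroupOf W, X.subgroupOf W, ?_, ?_,
    ?_, ?_, ?_⟩
  · intro hb
    apply h.nt
    have h2 := Subgroup.subgroupOf_map_subtype U W
    rw [hb, Subgroup.map_bot, inf_eq_left.mpr hUW] at h2
    exact h2.symm
  · constructor
    · rw [disjoint_iff, eq_bot_iff]
      intro v hv
      obtain ⟨hv1, hv2⟩ := Subgroup.mem_inf.mp hv
      rw [Subgroup.mem_subgroupOf] at hv1 hv2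
      have h3 : (v : V) ∈ U ⊓ X := Subgroup.mem_inf.mpr ⟨hv1, hv2⟩
      rw [h.ux, Subgroup.mem_bot] at h3
      rw [Subgroup.mem_bot]
      exact Subtype.ext h3
    · rw [codisjoint_iff, eq_top_iff]
      intro v _
      have hv : (v : V) ∈ U ⊔ X := by
        rw [h.uw]
        exact v.2
      obtain ⟨u, hu, x, hx, hux⟩ := Subgroup.mem_sup.mp hv
      have h5 : v = (⟨u, hUW hu⟩ : W) * ⟨x, hXW hx⟩ := Subtype.ext hux.symm
      rw [h5]
      exact Subgroup.mul_mem_sup (Subgroup.mem_subgroupOf.mpr hu)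
        (Subgroup.mem_subgroupOf.mpr hx)
  · intro e u hu
    rw [Subgroup.mem_subgroupOf] at hu ⊢
    exact h.su e e.2 _ hu
  · intro e u hu
    rw [Subgroup.mem_subgroupOf] at hu ⊢
    exact h.sx e e.2 _ hu
  · intro e u hu hu1 heu
    rw [Subgroup.mem_subgroupOf] at hu
    apply MulEquiv.ext
    intro w
    apply Subtype.ext
    change (e : MulAut V) (w : V) = w
    refine h.fr e e.2 u hu ?_ ?_ w w.2
    · intro h0
      exact hu1 (Subtype.ext h0)
    · exact Subtype.ext_iff.mp heu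

end Pool.Agent.PSS.H69
end
end -- Pool.Agent.Helper69_PSS.CYP

section -- Pool.Agent.PSS.AllS6

/-!
# Squad PSS, block S6: assembly (`StoAlgStmt`, and the general form for a property `P`)
-/

set_option autoImplicit false

noncomputable section

namespace Pool.Agent.PSS.AllS6

open Pool.Agent.PP

theorem rfg_ : RfgStmt := H44R.rfg

theorem blg_ : BlgStmt := H2.blg

theorem jnw_ : JnwStmt := H41.jnw

theorem nwg_ : NwgStmt := H29.nwg

theorem cyp_ : CypStmt := H69.cyp

theorem clg_ : ClgStmt :=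
  H4.clg rfg_ blg_ PFD.H66.ffa_ PFD.H66.fps_ PFD.H66.unt_ T8.lft_ T8.omi_ T8.knz_ T3.dgc_
    K9.H34.inx

theorem dzc_ : DzcStmt := H4.dzc PFD.H66.ful_

theorem stoalg_ : StoAlgStmt := H4.stoalg clg_ jnw_ nwg_ dzc_ cyp_ PFD.H66.jex_

theorem stogen_ (P : PrV) (K : Kl)
    (hKP : ∀ (ℓ : ℕ) (V : Type) [CommGroup V] [Finite V] (E : Subgroup (MulAut V))
      (W : Subgroup V), IsPGroup ℓ V → ¬ ℓ ∣ Nat.card E → K ℓ V E W → P V E E.subtype W)
    (bsg : BsgStmt P) : StoFor K :=
  H4.stogen clg_ jnw_ nwg_ dzc_ PFD.H66.jex_ P K hKP bsg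

end Pool.Agent.PSS.AllS6

end
end -- Pool.Agent.PSS.AllS6

section -- Pool.Agent.Helper91_PST.K4R

/-!
# Squad PST, row K4R: from the class `K4 L` to the property `Rt4`
-/

set_option autoImplicit false

noncomputable section

namespace Pool.Agent.PST.GU.H91

open Pool.Agent.PSS Pool.Agent.PSS.H69 Pool.Agent.PST Pool.Agent.PST.GU

theorem sr_le {ℓ : ℕ} {V : Type} [Group V] {E : Subgroup (MulAut V)} {U W P : Subgroup V}
    (hW : ∀ a ∈ E, ∀ v ∈ W, a v ∈ W) (h : Sr ℓ E U W P) :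
    W ≤ P ∧ ∀ a ∈ E, ∀ v ∈ P, a v ∈ P := by
  unfold Sr at h
  induction h with
  | refl => exact ⟨le_rfl, hW⟩
  | tail _ hs ih => exact ⟨ih.1.trans hs.le, hs.st⟩

theorem k4r (rgv : RgvStmt) (ecg : EcgStmt) (knh : KnhStmt) : K4rStmt := by
  intro L ℓ V _ _ E W hℓ hpg hcop hK
  obtain ⟨P, U, h⟩ := hK
  obtain ⟨hWP, hPst⟩ := sr_le h.w1.st h.wp
  have hcard : Nat.card W = ℓ := by
    rw [← Subgroup.relIndex_bot_left]
    exact h.w1.ix
  have hTst : ∀ a ∈ E, ∀ v ∈ W ⊔ U, a v ∈ W ⊔ U := by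
    intro a ha v hv
    obtain ⟨w, hw, u, hu, rfl⟩ := Subgroup.mem_sup.mp hv
    rw [map_mul]
    exact Subgroup.mul_mem_sup (h.w1.st a ha w hw) (h.su a ha u hu)
  have ham : ∀ a ∈ E, ∀ b ∈ E, ∀ v : V, a (b v) * (b (a v))⁻¹ ∈ W ⊔ U := by
    intro a ha b hb v
    have hv : v ∈ P ⊔ U := by
      rw [h.jn]
      exact Subgroup.mem_top v
    obtain ⟨p, hp, u, hu, rfl⟩ := Subgroup.mem_sup.mp hv
    have h1 : a (b (p * u)) * (b (a (p * u)))⁻¹ = a (b u) * (b (a u))⁻¹ := by
      rw [map_mul, map_mul, map_mul, map_mul, h.cm a ha b hb p hp, mul_inv]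
      rw [mul_comm (b (a p)) (a (b u)), mul_assoc, mul_inv_cancel_left]
    rw [h1]
    exact (le_sup_right : U ≤ W ⊔ U) (U.mul_mem (h.su a ha _ (h.su b hb u hu))
      (U.inv_mem (h.su b hb _ (h.su a ha u hu))))
  have hreg : ∀ P' : Subgroup V, W ⊔ U ≤ P' → (∀ a ∈ E, ∀ v ∈ P', a v ∈ P') →
      ∃ u ∈ P', ∀ a ∈ E, a u = u → ∀ w ∈ P', a w = w := by
    intro P' hTP' hP'
    exact rgv ℓ V E P W U P' hℓ hpg hcop h.cm h.w1 hPst hWP h.su h.nt h.pu h.jn hTP' hP'
  have hch : ChB ℓ E ⊤ (W ⊔ U) := ecg ℓ V E (W ⊔ U) hℓ hpg hTst ham hreg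
  obtain ⟨n, hn⟩ := knh ℓ V E (W ⊔ U) hch
  have hst : ∀ e : E, ∀ v ∈ W ⊔ U, E.subtype e v ∈ W ⊔ U := fun e v hv => hTst e e.2 v hv
  have hWT : W ≤ W ⊔ U := le_sup_left
  have hUT : U ≤ W ⊔ U := le_sup_right
  refine ⟨n, W ⊔ U, rsh E.subtype (W ⊔ U) hst, hWT, fun e w hw => h.w1.st e e.2 w hw, ?_,
    fun e w => rfl, ?_, U.subgroupOf (W ⊔ U), ⟨?_, ?_⟩, ?_, ?_, ?_, ?_⟩
  · rw [hcard]
    exact hn
  · rw [Nat.card_congr (Subgroup.subgroupOfEquivOfLe hWT).toEquiv, hcard]
    exact hℓ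
  · rw [disjoint_iff, eq_bot_iff]
    intro v hv
    obtain ⟨hv1, hv2⟩ := Subgroup.mem_inf.mp hv
    rw [Subgroup.mem_subgroupOf] at hv1 hv2
    have h3 : (v : V) ∈ P ⊓ U := Subgroup.mem_inf.mpr ⟨hWP hv1, hv2⟩
    rw [h.pu, Subgroup.mem_bot] at h3
    rw [Subgroup.mem_bot]
    exact Subtype.ext h3
  · rw [codisjoint_iff, eq_top_iff]
    intro v _
    obtain ⟨w, hw, u, hu, hwu⟩ := Subgroup.mem_sup.mp v.2
    have h5 : v = (⟨w, hWT hw⟩ : (W ⊔ U : Subgroup V)) * ⟨u, hUT hu⟩ := Subtype.ext hwu.symm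
    rw [h5]
    exact Subgroup.mul_mem_sup (Subgroup.mem_subgroupOf.mpr hw) (Subgroup.mem_subgroupOf.mpr hu)
  · intro hb
    apply h.nt
    have h2 := Subgroup.subgroupOf_map_subtype U (W ⊔ U)
    rw [hb, Subgroup.map_bot, inf_eq_left.mpr hUT] at h2
    exact h2.symm
  · intro e w hw
    rw [Subgroup.mem_subgroupOf] at hw ⊢
    exact h.w1.st e e.2 _ hw
  · intro e u hu
    rw [Subgroup.mem_subgroupOf] at hu ⊢
    exact h.su e e.2 _ hu
  · intro e hew u hu hu1 heu
    rw [Subgroup.mem_subgroupOf] at hu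
    have hfW : ∀ w ∈ W, (e : MulAut V) w = w := by
      intro w hw
      have h6 := hew ⟨w, hWT hw⟩ (Subgroup.mem_subgroupOf.mpr hw)
      exact Subtype.ext_iff.mp h6
    have hfU : ∀ x ∈ U, (e : MulAut V) x = x := by
      refine h.w1.fr e e.2 ?_ u hu ?_ ?_
      · intro v hv
        rw [hfW v hv, mul_inv_cancel]
        exact Subgroup.mem_bot.mpr rfl
      · intro h0
        exact hu1 (Subtype.ext h0)
      · exact Subtype.ext_iff.mp heu
    apply MulEquiv.ext
    intro v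
    apply Subtype.ext
    change (e : MulAut V) (v : V) = v
    obtain ⟨w, hw, u', hu', hwu⟩ := Subgroup.mem_sup.mp v.2
    rw [← hwu, map_mul, hfW w hw, hfU u' hu']

end Pool.Agent.PST.GU.H91
end
end -- Pool.Agent.Helper91_PST.K4R

section -- Pool.Agent.Helper91_PST.KNG

/-!
# Squad PST, row KNG: from `ChB`, `Frw` to `Chn`, `Fre` (edit of `Helper10_PST/KNF.lean`)
-/

set_option autoImplicit false

noncomputable section

namespace Pool.Agent.PST.H91

open Pool.Agent.PSS Pool.Agent.PSS.H69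

theorem chb_le {ℓ : ℕ} {V : Type} [Group V] {E : Subgroup (MulAut V)} {P W : Subgroup V}
    (h : ChB ℓ E P W) : W ≤ P := by
  induction h with
  | refl P => exact le_rfl
  | step P P' W hs _ ih => exact ih.trans hs.le

/-- The claim. -/
theorem claimB {ℓ : ℕ} {V : Type} [CommGroup V] {E : Subgroup (MulAut V)} {P W : Subgroup V}
    (hC : ChB ℓ E P W) : ∀ (V₁ E₁ : Type) [CommGroup V₁] [Group E₁] (φ : E₁ →* MulAut V₁)
    (i : V₁ →* V), Function.Injective i → (∀ x, ∃ a ∈ E, ∀ v, i (φ x v) = a (i v)) →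
    i.range = P → ∃ n, Chn ℓ n V₁ E₁ φ (W.comap i) := by
  induction hC with
  | refl P =>
    intro V₁ E₁ _ _ φ i hi _ hr
    refine ⟨0, ?_⟩
    change P.comap i = ⊤
    rw [eq_top_iff]
    intro v _
    rw [Subgroup.mem_comap, ← hr]
    exact ⟨v, rfl⟩
  | step P P' W hs hch ih =>
    intro V₁ E₁ _ _ φ i hi hφ hr
    have hsw : ∀ e : E₁, ∀ u ∈ P'.comap i, φ e u ∈ P'.comap i := by
      intro e u hu
      rw [Subgroup.mem_comap] at hu ⊢
      obtain ⟨a, ha, hae⟩ := hφ e
      rw [hae]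
      exact hs.st a ha _ hu
    have hmap : (P'.comap i).map i = P' := by
      rw [Subgroup.map_comap_eq, hr]
      exact inf_eq_right.mpr hs.le
    have hiP : ∀ u : V₁, i u ∈ P := by
      intro u
      rw [← hr]
      exact ⟨u, rfl⟩
    obtain ⟨n, hn⟩ := ih (P'.comap i) E₁ (rsh φ (P'.comap i) hsw) (i.comp (P'.comap i).subtype)
      (hi.comp (P'.comap i).subtype_injective)
      (by
        intro x
        obtain ⟨a, ha, hae⟩ := hφ x
        exact ⟨a, ha, fun v => hae v⟩)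
      (by rw [MonoidHom.range_comp, Subgroup.range_subtype, hmap])
    refine ⟨n + 1, P'.comap i, rsh φ (P'.comap i) hsw, Or.inr ?_, ?_, fun e w => rfl, hn⟩
    · refine ⟨hsw, ?_, ?_, ?_, ?_⟩
      · intro v
        rw [Subgroup.mem_comap, map_pow]
        exact hs.pw _ (hiP v)
      · intro e v hv h u
        obtain ⟨a, ha, hae⟩ := hφ e
        rw [Subgroup.mem_comap, map_mul, map_inv, hae] at h ⊢
        exact hs.fr a ha (i v) (hiP v) (fun h' => hv h') h (i u) (hiP u)
      · intro e f v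
        obtain ⟨a, ha, hae⟩ := hφ e
        obtain ⟨b, hb, hbf⟩ := hφ f
        rw [Subgroup.mem_comap, map_mul, map_inv, hae, hbf, hbf, hae]
        exact hs.am a ha b hb (i v) (hiP v)
      · obtain ⟨u, hu, hfix⟩ := hs.rg
        have hur : u ∈ i.range := by
          rw [hr]
          exact hs.le hu
        obtain ⟨w₀, rfl⟩ := hur
        refine ⟨w₀, hu, ?_⟩
        intro e he w hw
        obtain ⟨a, ha, hae⟩ := hφ e
        apply hi
        rw [hae]
        refine hfix a ha ?_ (i w) hw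
        rw [← hae, he]
    · intro w hw
      rw [Subgroup.mem_comap] at hw ⊢
      exact chb_le hch hw

theorem kng : KngStmt := by
  intro ℓ V _ _ E W U X hch h
  have hst : ∀ e : E, ∀ w ∈ W, E.subtype e w ∈ W := by
    intro e w hw
    rw [← h.uw] at hw ⊢
    obtain ⟨u, hu, x, hx, rfl⟩ := Subgroup.mem_sup.mp hw
    rw [map_mul]
    exact Subgroup.mul_mem_sup (h.su e e.2 u hu) (h.sx e e.2 x hx)
  obtain ⟨n, hn⟩ := claimB hch V E E.subtype (MonoidHom.id V) (fun _ _ h => h)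
    (fun x => ⟨x, x.2, fun v => rfl⟩)
    (by rw [MonoidHom.range_eq_map, Subgroup.map_id])
  have hUW : U ≤ W := by
    rw [← h.uw]
    exact le_sup_left
  have hXW : X ≤ W := by
    rw [← h.uw]
    exact le_sup_right
  refine ⟨n, rsh E.subtype W hst, hn, fun e w => rfl, U.subgroupOf W, X.subgroupOf W, ?_, ?_,
    ?_, ?_, ?_⟩
  · intro hb
    apply h.nt
    have h2 := Subgroup.subgroupOf_map_subtype U W
    rw [hb, Subgroup.map_bot, inf_eq_left.mpr hUW] at h2
    exact h2.symm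
  · constructor
    · rw [disjoint_iff, eq_bot_iff]
      intro v hv
      obtain ⟨hv1, hv2⟩ := Subgroup.mem_inf.mp hv
      rw [Subgroup.mem_subgroupOf] at hv1 hv2
      have h3 : (v : V) ∈ U ⊓ X := Subgroup.mem_inf.mpr ⟨hv1, hv2⟩
      rw [h.ux, Subgroup.mem_bot] at h3
      rw [Subgroup.mem_bot]
      exact Subtype.ext h3
    · rw [codisjoint_iff, eq_top_iff]
      intro v _
      have hv : (v : V) ∈ U ⊔ X := by
        rw [h.uw]
        exact v.2
      obtain ⟨u, hu, x, hx, hux⟩ := Subgroup.mem_sup.mp hv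
      have h5 : v = (⟨u, hUW hu⟩ : W) * ⟨x, hXW hx⟩ := Subtype.ext hux.symm
      rw [h5]
      exact Subgroup.mul_mem_sup (Subgroup.mem_subgroupOf.mpr hu)
        (Subgroup.mem_subgroupOf.mpr hx)
  · intro e u hu
    rw [Subgroup.mem_subgroupOf] at hu ⊢
    exact h.su e e.2 _ hu
  · intro e u hu
    rw [Subgroup.mem_subgroupOf] at hu ⊢
    exact h.sx e e.2 _ hu
  · intro e u hu hu1 heu
    rw [Subgroup.mem_subgroupOf] at hu
    apply MulEquiv.ext
    intro w
    apply Subtype.ext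
    change (e : MulAut V) (w : V) = w
    refine h.fr e e.2 u hu ?_ ?_ w w.2
    · intro h0
      exact hu1 (Subtype.ext h0)
    · exact Subtype.ext_iff.mp heu

end Pool.Agent.PST.H91
end
end -- Pool.Agent.Helper91_PST.KNG

section -- Pool.Agent.Helper91_PST.KNH

/-!
# Squad PST, row KNH: from `ChB` to `Chn`
-/

set_option autoImplicit false

noncomputable section

namespace Pool.Agent.PST.GU.H91

open Pool.Agent.PSS Pool.Agent.PST Pool.Agent.PST.GU

theorem knh : KnhStmt := by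
  intro ℓ V _ _ E T hch
  obtain ⟨n, hn⟩ := Pool.Agent.PST.H91.claimB hch V E E.subtype (MonoidHom.id V) (fun _ _ h => h)
    (fun x => ⟨x, x.2, fun v => rfl⟩)
    (by rw [MonoidHom.range_eq_map, Subgroup.map_id])
  exact ⟨n, hn⟩

end Pool.Agent.PST.GU.H91
end
end -- Pool.Agent.Helper91_PST.KNH
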