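import Pool.Agent.Helper12_AWB.B299
import Pool.Agent.Helper12_AWB.B301

/-!
# Merged copies (generated) of the modules

* `Pool.Agent.HFC.Stmts`
* `Pool.Agent.Helper10_PST.ADR`
* `Pool.Agent.Helper1_PST.CYM`
* `Pool.Agent.Helper20_PST.FVS`
* `Pool.Agent.Helper23_PST.YKR`
* `Pool.Agent.Helper3_PST.FNK`
* `Pool.Agent.Helper3_PST.LET`
* `Pool.Agent.Helper3_PST.YMT`
* `Pool.Agent.Helper41_PST.STR`
* `Pool.Agent.Helper41_PST.YUM`
* `Pool.Agent.Helper62_PST.ADV`
* `Pool.Agent.Helper68_PST.CLU`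
* `Pool.Agent.Helper68_PST.K3R`
* `Pool.Agent.Helper68_PST.RSQ`
* `Pool.Agent.Helper3_PST.AsmU`
* `Pool.Agent.Helper3_PST.STV`
* `Pool.Agent.Helper3_PST.CLV`
* `Pool.Agent.Helper81_HFC.CLB`
-/

set_option autoImplicit false

section -- Pool.Agent.HFC.Stmts

/-!
# Squad HFC (MP_6a3f1a_al): the final class of the theorem on abelian defect groups

On top of `PST` (theorem (S++), theorem (R)), `WAT` (theorem of Watanabe) and `AT3` (`3 |E| ≤ ℓ`).

* `LP`: the terminal class `rank at most two, or 3 |E| ≤ ℓ` (instead of `GU.LR`).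
* `Hp K`: the pairs `(V, E)`, `V = C × V₀`, `E` trivial on `C`, `V₀` stable, `(V₀, E)` in the class `K`.
  `Kh K`: the same as a class of triples, `W = V` (so that the condition on quotients is empty).
* `ClW`: the clean hypotheses, as `GU.ClV`, but `U` is generated by two elements or `T` induces at most
  `ℓ / 3` automorphisms on `U`.

Rows: ADL YKL (terminal class), HPQ ADH LEH (central factor), CLA CLB (clean hypotheses).  All rows are
independent; a row may take the rows which it uses as hypotheses.  Complete proofs in the docstrings.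
-/

open scoped BigOperators

noncomputable section

namespace Pool.Agent.HFC

open Pool.Agent.Helper51_AWC Pool.Agent.Helper79_WRA Pool.Agent.PP Pool.Agent.PP.KF
open Pool.Agent.PP.K9 Pool.Agent.PP.K9.H97 Pool.Agent.PP.H75 Pool.Agent.PP.T3 Pool.Agent.PP.T2
open Pool.Agent.PFD (Ei)
open Pool.Agent.PSS Pool.Agent.PST Pool.Agent.PST.GU

attribute [local instance] Ideal.Quotient.field

/-! ## Definitions -/

/-- the terminal class: rank at most two, or at most `ℓ / 3` automorphisms, `ℓ ≥ 5` -/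
def LP : Kt := fun ℓ V _ E => TW.R2 ℓ V ∨ (5 ≤ ℓ ∧ Finite E ∧ 3 * Nat.card E ≤ ℓ)

/-- `V = C × V₀`, `E` is trivial on `C`, `V₀` is stable, `(V₀, E)` is in the class `K` -/
def Hp (K : Kl) (ℓ : ℕ) (V : Type) [Group V] (E : Subgroup (MulAut V)) : Prop :=
  (∀ a b : V, a * b = b * a) ∧ ∃ C V₀ : Subgroup V, C ⊓ V₀ = ⊥ ∧ C ⊔ V₀ = ⊤ ∧
    (∀ a ∈ E, ∀ c ∈ C, a c = c) ∧ (∀ a ∈ E, ∀ v ∈ V₀, a v ∈ V₀) ∧
    (V₀ = ⊥ ∨ ∃ W₀ : Subgroup V₀, K ℓ V₀ (rse E V₀) W₀)

/-- `Hp K` as a class of triples -/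
def Kh (K : Kl) : Kl := fun ℓ V _ E W => W = ⊤ ∧ W ≠ ⊥ ∧ Hp K ℓ V E

/-- The maps `U → H`, `u ↦ t u t⁻¹`, for `t ∈ T`. -/
def Ind {H : Type} [Group H] (T : Set H) (U : Subgroup H) : Set (U → H) :=
  {f | ∃ t ∈ T, ∀ u : U, f u = t * u * t⁻¹}

/-- The clean hypotheses: as `GU.ClV`, with a weaker condition `gn`. -/
structure ClW (ℓ : ℕ) {H : Type} [Group H] (T : Set H) (D : Subgroup H) (s : ℕ)
    (Y : Fin s → Subgroup H) (U : Subgroup H) : Prop where
  jn : (⨆ i, Y i) ⊔ U = D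
  dy : ∀ i, Y i ⊓ (⨆ j, ⨆ (_ : j < i), Y j) = ⊥
  du : (⨆ i, Y i) ⊓ U = ⊥
  cy : ∀ i, ∃ y ∈ Y i, ∀ x ∈ Y i, ∃ k : ℤ, x = y ^ k
  gn : (∃ x y : H, U = Subgroup.closure {x, y}) ∨ (5 ≤ ℓ ∧ 3 * (Ind T U).ncard ≤ ℓ)
  sy : ∀ i, ∀ t ∈ T, ∀ y ∈ Y i, t * y * t⁻¹ ∈ Y i
  su : ∀ t ∈ T, ∀ u ∈ U, t * u * t⁻¹ ∈ U
  fr : ∀ i, Y i ≠ ⊥ → ∀ t ∈ T, (∀ y ∈ Y i, t * y = y * t) → ∀ u ∈ U, u ≠ 1 →
    t * u = u * t → t ∈ Subgroup.centralizer (U : Set H)

/-! ## 1. The terminal class -/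

/-- ADL: the terminal class is closed under quotients.

Proof.  `R2`: `GU.AdrStmt`.  Second case: if `π` is surjective and every element of `E'` is induced by an
element of `E` (`Qr`), then `a' ↦` a chosen lift is an injective map `E' → E` (the lift determines `a'`, as `π` is
surjective), so `E'` is finite and `|E'| ≤ |E|`. -/
def AdlStmt : Prop := GU.AdrStmt → ∀ ℓ : ℕ, ℓ.Prime → AdT ℓ LP

/-- YKL: the theorem is known for the terminal class.

Proof.  `YkFor LR`, or `T3.T3aStmt` with `Nat.card (Ei V γ) = ix V γ` (`PFD.H63.card_Ei`,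
`Helper63_PFD/EGX.lean`). -/
def YklStmt : Prop := YkFor LR → T3.T3aStmt → YkFor LP

/-- MNL: the theorem for the union over the terminal class `LP`.

Proof.  As `sto_kf`, `sto_kv`, `adm_kv`, `len_kv`, `mnn_kv` (`Helper3_PST/AsmU.lean`, `AsmV.lean`) with `LP` instead
of `LR`: `YMT`, `LET`, `STT`, `STV`, `ADW` are stated for every terminal class. -/
def MnlStmt : Prop := (∀ ℓ : ℕ, ℓ.Prime → AdT ℓ LP) → YkFor LP → ∀ K : Kl,
  (∀ ℓ : ℕ, ℓ.Prime → Adm ℓ K) → StoFor K →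
  (∀ ℓ : ℕ, ℓ.Prime → Adm ℓ (KV K LP)) ∧ LenFor (KV K LP)

/-! ## 2. The central factor -/

/-- HPQ: quotients by a subgroup of the central factor.

Proof.  `C' = C.map π`, `V₀' = V₀.map π`.  `π c = π v`, `c ∈ C`, `v ∈ V₀`, implies `c⁻¹ v ∈ π.ker ≤ C`, so
`v ∈ C ⊓ V₀ = ⊥`.  `C' ⊔ V₀' = ⊤`: `π` is surjective (`Subgroup.map_sup`).  `E'` is trivial on `C'`, `V₀'` is stable:
`Qr.lif`.  `V₀ = ⊥` implies `V₀' = ⊥`.  Otherwise `RsqStmt` for `U = V₀` (`V₀ ⊓ π.ker ≤ V₀ ⊓ C = ⊥`): `τ`, and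
`Adm.iso`: `K ℓ V₀' (rse E' V₀') (W₀.map τ)`. -/
def HpqStmt : Prop := RsqStmt → ∀ (K : Kl) (ℓ : ℕ), Adm ℓ K → ∀ (V V' : Type) [Group V] [Group V']
  (E : Subgroup (MulAut V)) (E' : Subgroup (MulAut V')) (π : V →* V'), Qr E E' π →
  (∀ a b : V, a * b = b * a) → ∀ C V₀ : Subgroup V, C ⊓ V₀ = ⊥ → C ⊔ V₀ = ⊤ →
  (∀ a ∈ E, ∀ c ∈ C, a c = c) → (∀ a ∈ E, ∀ v ∈ V₀, a v ∈ V₀) →
  (V₀ = ⊥ ∨ ∃ W₀ : Subgroup V₀, K ℓ V₀ (rse E V₀) W₀) → π.ker ≤ C → Hp K ℓ V' E'

/-- ADH: the class `Kh K` is admissible.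

Proof.  `nt`, `st`: definition.  `iso`: `HPQ` (`π.ker = ⊥`), `(⊤ : Subgroup V).map π = ⊤`.  `quo`: `π.ker = ⊤` and `π`
is surjective, so `V'` is trivial, a contradiction. -/
def AdhStmt : Prop := HpqStmt → RsqStmt → ∀ K : Kl, (∀ ℓ : ℕ, ℓ.Prime → Adm ℓ K) →
  ∀ ℓ : ℕ, ℓ.Prime → Adm ℓ (Kh K)

/-- LEH: the number of modular characters of the blocks in `Kh K`.

Proof.  Claim, by strong induction on `|G|`: `Ld ℓ e V γ` and `V = ⊥` or `Hp K ℓ V (Ei V γ)` imply
`ln e = ln (br_V e|N(V))`; by FRT the right side is `lnum (Tg V γ) γ`.  `V = ⊥`: `LenFor K`.  Let `C`, `V₀` be as in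
`Hp`.  If `C = ⊥` then `V₀ = ⊤`: `V₀ = ⊥` gives `V = ⊥`; otherwise `Adm.iso` for `Subgroup.topEquiv`
(`Qr (rse E ⊤) E`) gives `K ℓ V E W`, `LenFor K`.  If `C ≠ ⊥` let `z ≠ 1` be (the image in `G` of) an element of `C`.
Every `t ∈ Tg V γ` induces an element of `Ei V γ`, which fixes `z`, so `Tg V γ ≤ Cu z` and `z ∈ TV.Zf V γ`.

(1) `C(z) ≠ G`: `T3.LocStmt`: `b` with `Lc e V γ z b`; `TV.WatStmt`: `ln (b|Cu z) = ln e`.  `T3.LsbStmt`: `Ld` for
`b|Cu z`, `V.subgroupOf (Cu z)`.  `QrxStmt` for `X = Cu z` (`V` is commutative, `C(V) ≤ C(z)`): `π`, and HPQ for `π` (an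
isomorphism, kernel `⊥`) gives `Hp K` in `Cu z`.  Induction, FRT in `Cu z` and LTX: `ln (b|Cu z) = lnum (Tg V γ ⊓ Cu
z) γ = lnum (Tg V γ) γ`.

(2) `C(z) = G`: `Z = Subgroup.zpowers z`, central, `p : G → G / Z`.  QLN for `p`: let `f` be a block of `G / Z` with
`mulF (push p e) f = f`.  `QrqStmt` for `W = Z`: `γ'`, `π` with `π.ker = Z.subgroupOf V ≤ C`.  HPQ: `Hp K` for
`V.map p`.  Induction. -/
def LehStmt : Prop := TV.WatStmt → T3.LocStmt → T3.LsbStmt → QrxStmt → QrqStmt → QlnStmt →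
  FrtStmt → LtxStmt → HpqStmt → RsqStmt → ∀ K : Kl, (∀ ℓ : ℕ, ℓ.Prime → Adm ℓ K) → LenFor K →
  LenFor (Kh K)

/-! ## 3. The clean hypotheses -/

/-- CLA: from `ClP` to `KP`, for an arbitrary abelian `ℓ`-subgroup.

Proof.  `H97.clp` (`Helper97_PST/CLP.lean`) with `E` instead of `Ei V γ` (used there: every element of `E` is
induced by an element of `T`; `¬ ℓ ∣ |E|`; `V` is a commutative `ℓ`-group). -/
def ClaStmt : Prop := MsuStmt → PFD.EdfStmt → ∀ (ℓ : ℕ) [Fact ℓ.Prime] (G : Type) [Group G]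
  [Finite G] (T : Set G) (V : Subgroup G), V ≠ ⊥ → IsPGroup ℓ V →
  (∀ a b : V, a * b = b * a) → ∀ E : Subgroup (MulAut V), ¬ ℓ ∣ Nat.card E →
  (∀ a ∈ E, ∃ t ∈ T, ∀ v : V, ((a v : V) : G) = t * v * t⁻¹) → ∀ W U : Subgroup G,
  ClP ℓ T V W U → ∃ W₀ : Subgroup V, KP ℓ V E W₀

/-- CLB: from `ClW` to the union, for an arbitrary abelian `ℓ`-subgroup.

Proof.  `GU.H3.clv` (`Helper3_PST/CLV.lean`) with `E` instead of `Ei V γ`.  New: the terminal condition `LP ℓ U'
(rse E U')`, `U' = U.subgroupOf V`, in the second case of `gn`: an automorphism in `rse E U'` is the restriction of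
some `a ∈ E`, which is induced by some `t ∈ T`, so it is determined by the element `u ↦ t u t⁻¹` of `Ind T U`
(`U ≤ V`); so `|rse E U'| ≤ (Ind T U).ncard` (`Ind T U` is finite: `G` is finite), and the order is finite.  In the case
`V = U`: the same for `E` instead of `rse E U'`. -/
def ClbStmt : Prop := SryStmt → MsuStmt → ∀ (ℓ : ℕ) [Fact ℓ.Prime] (G : Type) [Group G]
  [Finite G] (T : Set G) (V : Subgroup G), V ≠ ⊥ → IsPGroup ℓ V →
  (∀ a b : V, a * b = b * a) → ∀ E : Subgroup (MulAut V), ¬ ℓ ∣ Nat.card E →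
  (∀ a ∈ E, ∃ t ∈ T, ∀ v : V, ((a v : V) : G) = t * v * t⁻¹) → ∀ (s : ℕ)
  (Y : Fin s → Subgroup G) (U : Subgroup G), ClW ℓ T V s Y U →
  ∃ W₀ : Subgroup V, KV KP LP ℓ V E W₀

/-- CLH: the class of the final theorem.

Proof.  `E = Ei V γ`, `C' = C.subgroupOf V`, `V₀' = D₀.subgroupOf V`.  The first four conditions of `Hp`: from the
hypotheses (the elements of `E` are induced by elements of `Tg V γ`, as in `H97.clp`).  `D₀ = ⊥`: `V₀' = ⊥`.
Otherwise CLA or CLB for the group `G`, `T = Tg V γ`, the subgroup `D₀` and the automorphisms of `D₀` which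
correspond to `rse E V₀'` under `V₀' ≃* D₀` (`Subgroup.subgroupOfEquivOfLe`); then `Adm.iso` for this
isomorphism.  `¬ ℓ ∣ |rse E V₀'|`: every element is induced by an element of `E`, and `ℓ` does not divide `|E|`
(`K9.InxStmt` as in `H97.clp`): `rse E V₀'` is a quotient of `E`. -/
def ClhStmt : Prop := ClaStmt → ClbStmt → MsuStmt → PFD.EdfStmt → SryStmt → PFD.LkeStmt →
  K9.InxStmt → (∀ ℓ : ℕ, ℓ.Prime → Adm ℓ (KV KP LP)) →
  ∀ (ℓ : ℕ) [Fact ℓ.Prime] (M : Ideal (integralClosure ℤ ℂ)) [M.IsMaximal],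
  (ℓ : integralClosure ℤ ℂ) ∈ M → ∀ (G : Type) [Group G] [Finite G] (e : G → FF M)
  (V : Subgroup G) (γ : G → FF M), Ld ℓ e V γ → V ≠ ⊥ → ∀ C D₀ : Subgroup G, C ⊓ D₀ = ⊥ →
  C ⊔ D₀ = V → (∀ t ∈ Tg V γ, ∀ c ∈ C, t * c = c * t) → (∀ t ∈ Tg V γ, ∀ d ∈ D₀, t * d * t⁻¹ ∈ D₀) →
  ((∃ W U : Subgroup G, ClP ℓ (Tg V γ : Set G) D₀ W U) ∨
    ∃ (s : ℕ) (Y : Fin s → Subgroup G) (U : Subgroup G), ClW ℓ (Tg V γ : Set G) D₀ s Y U) →
  ∃ W₀ : Subgroup V, Kh (KV KP LP) ℓ V (Ei V γ) W₀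

end Pool.Agent.HFC
end
end -- Pool.Agent.HFC.Stmts

section -- Pool.Agent.Helper10_PST.ADR

/-!
# Squad PST, row ADR (helper10): the class of the groups of rank at most two is closed under quotients
-/

noncomputable section

namespace Pool.Agent.PST.GU.H10

open Pool.Agent.PSS Pool.Agent.PP

theorem adr : AdrStmt := by
  intro ℓ hℓ
  have hF : Fact ℓ.Prime := ⟨hℓ⟩
  refine ⟨?_, ?_⟩
  · intro V V' _ _ E E' π _ h
    exact TW.r2_subCl ℓ V' V π.symm.toMonoidHom π.symm.injective h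
  · intro V V' iV _ iV' _ E E' π hp _ hc hq h _
    obtain ⟨hf, hp', hcomm, hn⟩ := h
    have hc' : ∀ a b : V', a * b = b * a := by
      intro a b
      obtain ⟨a, rfl⟩ := hq.sur a
      obtain ⟨b, rfl⟩ := hq.sur b
      rw [← map_mul, ← map_mul, hc]
    have hgen : ∃ x y : V, Subgroup.closure ({x, y} : Set V) = ⊤ := by
      let cV : CommGroup V := { iV with mul_comm := hc }
      exact TW.gen_of (Q := V) (ℓ := ℓ) hp hn
    obtain ⟨x, y, hxy⟩ := hgen
    have hxy' : ∀ q : V', q ∈ Subgroup.closure ({π x, π y} : Set V') := by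
      intro q
      obtain ⟨v, rfl⟩ := hq.sur q
      have h1 : v ∈ Subgroup.closure ({x, y} : Set V) := by
        rw [hxy]
        exact Subgroup.mem_top v
      have h2 : π v ∈ (Subgroup.closure ({x, y} : Set V)).map π := Subgroup.mem_map_of_mem π h1
      rw [MonoidHom.map_closure, Set.image_pair] at h2
      exact h2
    have hn' : {x : V' | x ^ ℓ = 1}.ncard ≤ ℓ ^ 2 := by
      let cV' : CommGroup V' := { iV' with mul_comm := hc' }
      exact TW.ncard_le (Q := V') hℓ.pos hxy'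
    exact ⟨inferInstance, hp.of_surjective π hq.sur, hc', hn'⟩

end Pool.Agent.PST.GU.H10
end
end -- Pool.Agent.Helper10_PST.ADR

section -- Pool.Agent.Helper1_PST.CYM

set_option autoImplicit false

open scoped BigOperators

noncomputable section

namespace Pool.Agent.PST.GU.H1

open Pool.Agent.PSS Pool.Agent.PST.GU

theorem cym (hYum : YumStmt) : CymStmt := by
  refine ⟨?_, ?_⟩
  · intro ℓ V V' _ _ E E' π hQ U hU hUk C hC
    induction hC with
    | bot =>
      intro _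
      rw [Subgroup.map_bot]
      exact Cyu.bot
    | mul C Y hC hY hCY ih =>
      intro hk
      have hCk : C ⊓ π.ker = ⊥ := by
        rw [eq_bot_iff, ← hk]
        exact inf_le_inf_right _ le_sup_left
      have hYk : Y ⊓ π.ker = ⊥ := by
        rw [eq_bot_iff, ← hk]
        exact inf_le_inf_right _ le_sup_right
      rw [Subgroup.map_sup]
      refine Cyu.mul _ _ (ih hCk) (hYum ℓ V V' E E' π hQ U Y hU hY hYk hUk) ?_
      rw [eq_bot_iff]
      rintro x ⟨⟨c, hc, hcx⟩, ⟨y, hy, hyx⟩⟩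
      have h1 : c⁻¹ * y ∈ (C ⊔ Y) ⊓ π.ker := by
        refine ⟨Subgroup.mul_mem _ (Subgroup.inv_mem _ (Subgroup.mem_sup_left hc))
          (Subgroup.mem_sup_right hy), ?_⟩
        show c⁻¹ * y ∈ π.ker
        rw [MonoidHom.mem_ker, map_mul, map_inv, hcx, hyx, inv_mul_cancel]
      rw [hk, Subgroup.mem_bot, inv_mul_eq_one] at h1
      subst h1
      have h2 : c ∈ C ⊓ Y := ⟨hc, hy⟩
      rw [hCY, Subgroup.mem_bot] at h2
      rw [Subgroup.mem_bot, ← hcx, h2, map_one]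
  · intro ℓ V _ E U C hC hne
    cases hC with
    | bot => exact absurd rfl hne
    | mul C Y hC hY hCY => exact ⟨C, Y, hC, hY, hCY, rfl⟩

end Pool.Agent.PST.GU.H1
end
end -- Pool.Agent.Helper1_PST.CYM

section -- Pool.Agent.Helper20_PST.FVS

/-!
# Squad PST, block GU, row FVS: the final theorem for the union of (A) + (S) and (R)
-/

set_option autoImplicit false

noncomputable section

namespace Pool.Agent.PST.GU.H20

open Pool.Agent.Helper51_AWC Pool.Agent.Helper79_WRA Pool.Agent.PP Pool.Agent.PP.KF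
open Pool.Agent.PP.K9 Pool.Agent.PP.K9.H97 Pool.Agent.PP.H75 Pool.Agent.PP.T3 Pool.Agent.PP.T2
open Pool.Agent.PFD (Ei)
open Pool.Agent.PSS

attribute [local instance] Ideal.Quotient.field

/-- row FVS -/
theorem fvs (fnk : FnkStmt) (clu : CluStmt) (cln : ClnStmt) (mnn : MnnFor (KU KS LR)) :
    FvsStmt := by
  intro ℓ hℓ M iM hM G iG iFG hc χ hχ H iH p hp hpk ψ hψ hψχ D hD hDO hab θ hθ hC
  have hfH : Finite H := Finite.of_surjective p hp
  refine fnk (KU KS LR) mnn ℓ M hM G hc χ hχ H p hp hpk ψ hψ hψχ D hD hDO hab θ hθ ?_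
  intro e γ hL hTg hne
  rw [← hTg] at hC
  rcases hC with ⟨s, Y, W, U, hC⟩ | ⟨s, Y, U, hC⟩
  · obtain ⟨W₀, h⟩ := cln ℓ M hM H e D γ hL hne s Y W U hC
    exact ⟨W₀, Or.inl h⟩
  · exact clu ℓ M hM H e D γ hL hne s Y U hC

end Pool.Agent.PST.GU.H20
end
end -- Pool.Agent.Helper20_PST.FVS

section -- Pool.Agent.Helper23_PST.YKR

/-!
# PST, row YKR: the known theorem for the groups of rank at most two
-/

open scoped BigOperators

noncomputable section

namespace Pool.Agent.PST.GU.H23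

open Pool.Agent.Helper51_AWC Pool.Agent.Helper79_WRA Pool.Agent.PP Pool.Agent.PP.KF
open Pool.Agent.PP.K9 Pool.Agent.PP.K9.H97 Pool.Agent.PP.H75 Pool.Agent.PP.T3 Pool.Agent.PP.T2
open Pool.Agent.PFD (Ei)
open Pool.Agent.PSS

attribute [local instance] Ideal.Quotient.field

theorem ykr (hT : ∀ (ℓ : ℕ) [Fact ℓ.Prime], TW.Tt ℓ) (hS : SE.S2fStmt) (pos : T3.PosStmt) :
    YkrStmt := by
  intro ℓ _ M _ hM G _ _ e V γ hL hV hR
  have hF : GoodF ℓ (FF M) := H50.fld ℓ Fact.out M hM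
  exact TW.rk2_blk hT hS M hM e hL.blk
    (pos ℓ (FF M) hF G e hL.blk V hL.tp.pg hV hL.tp.gd) V hL.tp hR

end Pool.Agent.PST.GU.H23
end
end -- Pool.Agent.Helper23_PST.YKR

section -- Pool.Agent.Helper3_PST.FNK

/-!
# PST, block GU, row FNK: the final theorem for a class `K`
-/

open scoped BigOperators

set_option autoImplicit false

noncomputable section

namespace Pool.Agent.PST.GU.H3

open Pool.Agent.Helper51_AWC Pool.Agent.Helper79_WRA Pool.Agent.PP Pool.Agent.PP.KF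
open Pool.Agent.PP.K9 Pool.Agent.PP.K9.H97 Pool.Agent.PP.H75 Pool.Agent.PP.T3 Pool.Agent.PP.T2
open Pool.Agent.PFD (Ei)
open Pool.Agent.PSS

attribute [local instance] Ideal.Quotient.field

theorem fnk (hF : T3.FltStmt) (hP : T3.PsgStmt) : FnkStmt := by
  intro K hMnn ℓ hfact M _ hM G _ _ hc χ hχ H _ hfH p hp hpk ψ hψ hψχ D hD hDO hab θ hθ hK
  have hℓ := hfact.out
  have hGF : GoodF ℓ (FF M) := H50.fld ℓ hℓ M hM
  obtain ⟨e, he, h1, h2⟩ := H50.bid ℓ hℓ M hM G χ hχ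
  have hn : (opCore ℓ G).Normal := H75.opCore_normal (A := G) ℓ
  have hOp : IsPGroup ℓ (opCore ℓ G) := H75.opCore_isPGroup hℓ
  -- the block of `H`
  have hkp : IsPGroup ℓ p.ker := hOp.to_le hpk
  have hkc : p.ker ≤ Subgroup.center G := hpk.trans hc
  have hb : IsBlk (push p e) := hP ℓ (FF M) hGF G H p hp hkc hkp e he
  have hlab : labF M (fun x => ψ (p x)) = labF M χ := by
    funext g
    exact (red_eq_iff (omega_integral _ (H3.irr_infl hp hψ) g) (omega_integral _ hχ g)).2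
      (hψχ g)
  have hr : res M (push p e) ψ = 1 := by
    rw [H3.res_push hp he.1.1 hψ, H50.res_of_lab hlab e]
    exact h1
  obtain ⟨γ, hγ, hTg⟩ := hF ℓ M hM H ψ hψ (push p e) hb hr D hD hab θ hθ
  -- the quotient by the image of `O_ℓ(G)`
  have hcO : (opCore ℓ G).map p ≤ Subgroup.center H := by
    rintro _ ⟨x, hx, rfl⟩
    rw [Subgroup.mem_center_iff]
    intro y
    obtain ⟨g, rfl⟩ := hp y
    rw [← map_mul, ← map_mul, Subgroup.mem_center_iff.1 (hc hx) g]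
  have hle : (opCore ℓ G).map p ≤ D := PFD.H66.cen_le hγ.tp _ (hOp.map p) hcO
  have hDb : D ≠ ⊥ := by
    rintro rfl
    exact hDO (le_antisymm bot_le hle)
  obtain ⟨W₀, hS⟩ := hK (push p e) γ hγ hTg hDb
  have hn2 : ((opCore ℓ G).map p).Normal := hn.map p hp
  obtain ⟨q, hq⟩ : ∃ q : H →* H ⧸ (opCore ℓ G).map p,
    q = QuotientGroup.mk' ((opCore ℓ G).map p) := ⟨_, rfl⟩
  have hqk : q.ker = (opCore ℓ G).map p := by
    rw [hq]
    exact QuotientGroup.ker_mk' _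
  have hqs : Function.Surjective q := by
    rw [hq]
    exact QuotientGroup.mk'_surjective _
  have hrs : Function.Surjective (q.comp p) := hqs.comp hp
  have hrk : (q.comp p).ker = opCore ℓ G := by
    rw [← MonoidHom.comap_ker, hqk, Subgroup.comap_map_eq, sup_eq_left.2 hpk]
  have heq := H75.altSum_central H20.nls H20.brm H63.smt H94.nch
    (H50.dic H20.ibn H20.nls H20.brm) hℓ M hM hGF hrs hrk (by rw [hrk]; exact hOp)
    (by rw [hrk]; exact hc) χ hχ e he h1 h2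
  have h0 : YY ℓ (⊤ : Subgroup (H ⧸ (opCore ℓ G).map p)) (push q (push p e)) = 0 :=
    hMnn ℓ M hM H (push p e) D γ hγ W₀ hS (H ⧸ (opCore ℓ G).map p) q hqs
      (by rw [hqk]; exact hle) (by rw [hqk]; exact fun h => hDO h.symm)
  rw [H32.push_comp, h0, mul_zero] at heq
  rcases mul_eq_zero.1 heq with h | h
  · exact absurd h (by exact_mod_cast (Nat.card_pos (α := G)).ne')
  · exact h

end Pool.Agent.PST.GU.H3
end
end -- Pool.Agent.Helper3_PST.FNK

section -- Pool.Agent.Helper3_PST.LET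

/-!
# PST, block GU, row LET: the number of modular characters for a terminal class
-/

open scoped BigOperators

noncomputable section

namespace Pool.Agent.PST.GU.H3

open Pool.Agent.Helper51_AWC Pool.Agent.Helper79_WRA Pool.Agent.PP Pool.Agent.PP.KF
open Pool.Agent.PP.K9 Pool.Agent.PP.K9.H97 Pool.Agent.PP.H75 Pool.Agent.PP.T3 Pool.Agent.PP.T2
open Pool.Agent.PFD (Ei)
open Pool.Agent.PSS

attribute [local instance] Ideal.Quotient.field

theorem let_ (qrx : QrxStmt) (qrj : QrjStmt) (chr : PFD.ChrStmt) (yad : PFD.YadStmt)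
    (bnr : PFD.BnrStmt) (lcj : T3.LcjStmt) (lbr : K9.LbrStmt) : LetStmt := by
  intro L hAdm hMn ℓ hℓ M _ hM G _ _ e V γ hL hc
  have hA : AdT ℓ L := hAdm ℓ Fact.out
  have hF : GoodF ℓ (FF M) := H50.fld ℓ Fact.out M hM
  by_cases hV : V = ⊥
  · have h1 := (lbr ℓ (FF M) hF G e hL.blk.1 V (Subgroup.normalizer (V : Set G)) hL.tp.pg
      Subgroup.le_normalizer le_rfl).1
    have hN : Subgroup.normalizer (V : Set G) = ⊤ := by
      have hnV : V.Normal := by
        rw [hV]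
        exact Subgroup.normal_bot
      exact Subgroup.normalizer_eq_top_iff.2 hnV
    have h2 : ln e = lnum (Subgroup.normalizer (V : Set G)) e := by
      rw [hN]
      exact (H35.lnum_top e).symm
    rw [h2, h1]
    rfl
  have hk : (MonoidHom.id G).ker = ⊥ := (MonoidHom.ker_eq_bot_iff _).2 fun _ _ h => h
  have hK : (MonoidHom.id G).ker ≤ V := by
    rw [hk]
    exact bot_le
  have hKV : (MonoidHom.id G).ker ≠ V := by
    rw [hk]
    exact fun h => hV h.symm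
  have h0 := hMn ℓ M hM G e V γ hL hc G (MonoidHom.id G) (fun x => ⟨x, rfl⟩) hK hKV
  have hY : ∀ R : Subgroup G, IsPGroup ℓ R → (MonoidHom.id G).ker ≤ R →
      (MonoidHom.id G).ker ≠ R → Gd e R → Nat.card R < Nat.card V → YQ ℓ e R = 0 := by
    intro R hR _ _ _ hRV
    have hfid : IsIdem (fun t : Subgroup.normalizer (R : Set G) => br R e t) :=
      (H20.brm ℓ (FF M) hF G R (Subgroup.normalizer (R : Set G)) hR
        (Subgroup.centralizer_le_normalizer _) le_rfl).2.2 e hL.blk.1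
    unfold YQ
    refine yad ℓ (FF M) hF _ _ _ (QuotientGroup.mk'_surjective _) _ hfid ?_
    intro c hc1 hc2
    obtain ⟨g, hg, hL1⟩ := bnr ℓ M hM G e V γ hL R hR c hc1 hc2
    have hL' : Ld ℓ e (conjS g V) (cj g γ) := (lcj ℓ (FF M) hF G e V γ hL g).1
    have hCN : Subgroup.centralizer ((conjS g V : Subgroup G) : Set G) ≤
        Subgroup.normalizer (R : Set G) :=
      (Subgroup.centralizer_le hg).trans (Subgroup.centralizer_le_normalizer _)
    have hVN : conjS g V ≤ Subgroup.normalizer (R : Set G) := by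
      intro x hx
      apply hCN
      rw [Subgroup.mem_centralizer_iff]
      intro y hy
      exact hL'.ab y hy x hx
    obtain ⟨π₁, -, hQ₁⟩ := qrj (FF M) G V γ g
    obtain ⟨π₂, -, hQ₂⟩ := qrx ℓ (FF M) G e _ _ hL' _ hCN
    have hS1 := hA.iso _ _ _ _ π₂ hQ₂ (hA.iso _ _ _ _ π₁ hQ₁ hc)
    have hRN : R ≤ Subgroup.normalizer (R : Set G) := Subgroup.le_normalizer
    have hcR : Nat.card (R.subgroupOf (Subgroup.normalizer (R : Set G))) = Nat.card R :=
      Nat.card_congr (Subgroup.subgroupOfEquivOfLe hRN).toEquiv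
    refine hMn ℓ M hM _ c _ _ hL1 hS1 _ _ (QuotientGroup.mk'_surjective _) ?_ ?_
    · rw [QuotientGroup.ker_mk']
      intro x hx
      exact Subgroup.mem_subgroupOf.2 (hg (Subgroup.mem_subgroupOf.1 hx))
    · rw [QuotientGroup.ker_mk']
      intro h
      have h1 : Nat.card ((conjS g V).subgroupOf (Subgroup.normalizer (R : Set G))) =
          Nat.card V := by
        rw [Nat.card_congr (Subgroup.subgroupOfEquivOfLe hVN).toEquiv,
          Pool.Agent.Helper51_AWC.card_conjS]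
      rw [← h, hcR] at h1
      omega
  rw [chr ℓ M hM G e hL.blk V hL.tp G (MonoidHom.id G) (fun x => ⟨x, rfl⟩) hK hKV hY] at h0
  have hG : (Nat.card G : ℤ) ≠ 0 := by exact_mod_cast (Nat.card_pos (α := G)).ne'
  rcases mul_eq_zero.1 h0 with h | h
  · exact absurd h hG
  · exact_mod_cast sub_eq_zero.1 h

end Pool.Agent.PST.GU.H3
end
end -- Pool.Agent.Helper3_PST.LET

section -- Pool.Agent.Helper3_PST.YMT

/-!
# PST, block GU, row YMT: the alternating sums of the images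
-/

open scoped BigOperators

noncomputable section

namespace Pool.Agent.PST.GU.H3

open Pool.Agent.Helper51_AWC Pool.Agent.Helper79_WRA Pool.Agent.PP Pool.Agent.PP.KF
open Pool.Agent.PP.K9 Pool.Agent.PP.K9.H97 Pool.Agent.PP.H75 Pool.Agent.PP.T3 Pool.Agent.PP.T2
open Pool.Agent.PP.TB (Zd Star iz cz)
open Pool.Agent.PFD (Ei)
open Pool.Agent.PSS

attribute [local instance] Ideal.Quotient.field

theorem ncard_E {ℓ : ℕ} [Fact ℓ.Prime] {M : Ideal (integralClosure ℤ ℂ)} [M.IsMaximal]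
    (hM : (ℓ : integralClosure ℤ ℂ) ∈ M) {G : Type} [Group G] [Finite G] {e : G → FF M}
    {V : Subgroup G} {γ : G → FF M} (hL : Ld ℓ e V γ) (lke : PFD.LkeStmt) (inx : K9.InxStmt) :
    ¬ ℓ ∣ Nat.card (Ei V γ) := by
  obtain ⟨l1, -⟩ := lke ℓ (FF M) G e V γ hL
  have hix : ¬ ℓ ∣ ix V γ :=
    inx ℓ M hM G e hL.blk V hL.tp hL.ab γ hL.gam.supp hL.gam.blk hL.und
  have hiz : iz V V γ = ix V γ := by
    unfold iz ix
    rw [inf_eq_left.2 (T3.H66.cent_le_Tg hL)]
  rw [← l1, hiz]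
  exact hix

theorem ymt (yad : PFD.YadStmt) (qrq : QrqStmt) (lke : PFD.LkeStmt) (inx : K9.InxStmt) :
    YmtStmt := by
  intro L hAdm hY ℓ hℓ M _ hM G _ _ e V γ hL hc A _ _ p hp hK hKV
  have hF : GoodF ℓ (FF M) := H50.fld ℓ Fact.out M hM
  have hA := hAdm ℓ hℓ.out
  have h1 := yad ℓ (FF M) hF A A (MonoidHom.id A) (fun x => ⟨x, rfl⟩) (push p e)
    (push_isIdem hp hL.blk.1) ?_
  · rw [push_id] at h1
    exact h1
  intro f hf hfe
  rw [push_id]
  obtain ⟨γ', hL', π, hπ, hq⟩ := qrq ℓ M hM G e V γ hL p.ker hK inferInstance A p hp rfl f hf hfe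
  have hne : V.map p ≠ ⊥ := by
    intro h
    apply hKV
    refine le_antisymm hK ?_
    intro x hx
    rw [MonoidHom.mem_ker]
    have h2 : p x ∈ V.map p := Subgroup.mem_map_of_mem p hx
    rw [h] at h2
    exact Subgroup.mem_bot.1 h2
  refine hY ℓ M hM A f (V.map p) γ' hL' hne ?_
  exact hA.quo V (V.map p) (Ei V γ) _ π hL.tp.pg (ncard_E hM hL lke inx)
    (fun a c => Subtype.ext (hL.ab _ a.2 _ c.2)) hq hc (Subgroup.ne_bot_iff_exists_ne_one.1 hne)

end Pool.Agent.PST.GU.H3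
end
end -- Pool.Agent.Helper3_PST.YMT

section -- Pool.Agent.Helper41_PST.STR

/-! Squad PST, block GU, row STR: the input of the group level for the class `K3 L`. -/

open scoped BigOperators

noncomputable section

namespace Pool.Agent.PST.GU.H41

open Pool.Agent.PSS

/-- the statement of `PSS.AllS6.stogen_` -/
def StogenStmt : Prop := ∀ (P : PrV) (K : Kl),
  (∀ (ℓ : ℕ) (V : Type) [CommGroup V] [Finite V] (E : Subgroup (MulAut V)) (W : Subgroup V),
    IsPGroup ℓ V → ¬ ℓ ∣ Nat.card E → K ℓ V E W → P V E E.subtype W) →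
  BsgStmt P → StoFor K

theorem str (k3r : K3rStmt) (stogen : StogenStmt) : StrStmt := by
  intro hatg L
  have h : StoFor (fun ℓ V _ E W => ℓ.Prime ∧ K3 L ℓ V E W) := by
    refine stogen Rt3 _ ?_ ?_
    · intro ℓ V _ _ E W hp hE hK
      exact k3r L ℓ V E W hK.1 hp hE hK.2
    · intro ℓ _ F V E A B _ _ _ _ _ _ _ _ _ _ _ φ α W hp hE hR hA hB
      obtain ⟨n, T, ψ, hWT, hst, hc, hr, hR⟩ := hR
      exact hatg n ℓ F V E A B φ α T W ψ hp hE hWT hst hc hr hR hA hB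
  intro ℓ hℓ M _ hM G _ _ e V γ hL W hW hK c hc
  exact h ℓ M hM G e V γ hL W hW ⟨hℓ.out, hK⟩ c hc

end Pool.Agent.PST.GU.H41
end
end -- Pool.Agent.Helper41_PST.STR

section -- Pool.Agent.Helper41_PST.YUM

/-! Squad PST, block GU, row YUM: the image of a factor. -/

open scoped BigOperators

noncomputable section

namespace Pool.Agent.PST.GU.H41

open Pool.Agent.PSS

theorem yum : YumStmt := by
  intro ℓ V V' _ _ E E' π hQ U Y hU hY hYk hUk
  have hinj : ∀ S : Subgroup V, S ⊓ π.ker = ⊥ → ∀ a ∈ S, ∀ b ∈ S, π a = π b → a = b := by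
    intro S hS a ha b hb h
    have h1 : a * b⁻¹ ∈ S ⊓ π.ker :=
      ⟨S.mul_mem ha (S.inv_mem hb), by
        show a * b⁻¹ ∈ π.ker
        rw [MonoidHom.mem_ker, map_mul, map_inv, h, mul_inv_cancel]⟩
    rw [hS, Subgroup.mem_bot] at h1
    exact mul_inv_eq_one.1 h1
  refine ⟨?_, ?_, ?_⟩
  · have h1 : Nat.card (π '' (Y : Set V)) = Nat.card (Y : Set V) :=
      Nat.card_image_of_injOn fun a ha b hb h => hinj Y hYk a ha b hb h
    exact h1.trans hY.cd
  · rintro a' ha' _ ⟨y, hy, rfl⟩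
    obtain ⟨a, ha, h⟩ := hQ.lif a' ha'
    exact ⟨a y, hY.st a ha y hy, h y⟩
  · rintro a' ha' h1 _ ⟨u, hu, rfl⟩ h2 h3 _ ⟨x, hx, rfl⟩
    obtain ⟨a, ha, h⟩ := hQ.lif a' ha'
    have h4 : ∀ y ∈ Y, a y = y := fun y hy =>
      hinj Y hYk _ (hY.st a ha y hy) _ hy (by rw [h, h1 _ ⟨y, hy, rfl⟩])
    have h5 : u ≠ 1 := by
      rintro rfl
      exact h2 (map_one π)
    have h6 : a u = u := hinj U hUk _ (hU a ha u hu) _ hu (by rw [h, h3])
    rw [← h, hY.fr a ha h4 u hu h5 h6 x hx]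

end Pool.Agent.PST.GU.H41
end
end -- Pool.Agent.Helper41_PST.YUM

section -- Pool.Agent.Helper62_PST.ADV

/-! Squad PST (MP_6a3f1a_al), block GU, row ADV (helper62): the union is admissible. -/

set_option autoImplicit false

noncomputable section

namespace Pool.Agent.PST.GU.H62

open Pool.Agent.PSS

theorem adv (hSui : SuiStmt) (hSuq : SuqStmt) : AdvStmt := by
  intro K L ℓ hℓ hK hL
  refine ⟨?_, ?_, ?_, ?_⟩
  · rintro V _ E W (h | h | h)
    · exact hK.nt V E W h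
    · exact h.2.1
    · obtain ⟨C, U, h⟩ := h
      intro hW
      have h1 := h.yw.cd
      rw [hW, Subgroup.card_bot] at h1
      exact hℓ.ne_one h1.symm
  · rintro V _ E W (h | h | h)
    · exact hK.st V E W h
    · intro a _ w _
      rw [h.1]
      exact Subgroup.mem_top _
    · obtain ⟨C, U, h⟩ := h
      exact h.yw.st
  · rintro V V' _ _ E E' W π hπ (h | h | h)
    · exact Or.inl (hK.iso V V' E E' W π hπ h)
    · refine Or.inr (Or.inl ⟨?_, ?_, hL.iso V V' E E' π hπ h.2.2⟩)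
      · rw [h.1]
        exact Subgroup.map_top_of_surjective _ hπ.sur
      · intro hb
        apply h.2.1
        rw [eq_bot_iff]
        intro w hw
        have h1 : π w ∈ W.map π.toMonoidHom := ⟨w, hw, rfl⟩
        rw [hb, Subgroup.mem_bot] at h1
        rw [Subgroup.mem_bot]
        exact π.injective (h1.trans (map_one π).symm)
    · obtain ⟨C, U, h⟩ := h
      exact Or.inr (Or.inr ⟨_, _, hSui L ℓ hL V V' E E' π hπ C W U h⟩)
  · rintro V V' _ _ _ _ E E' W π hp hE hc hπ (h | h | h) hker hne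
    · obtain ⟨W', h'⟩ := hK.quo V V' E E' W π hp hE hc hπ h hker hne
      exact ⟨W', Or.inl h'⟩
    · exfalso
      obtain ⟨v, hv⟩ := hne
      obtain ⟨u, rfl⟩ := hπ.sur v
      apply hv
      have h1 : u ∈ π.ker := by
        rw [hker, h.1]
        exact Subgroup.mem_top _
      exact h1
    · obtain ⟨C, U, h⟩ := h
      obtain ⟨W', h' | h'⟩ := hSuq L ℓ hL V V' E E' π hπ C W U h hker hne
      · exact ⟨W', Or.inr (Or.inl h')⟩
      · exact ⟨W', Or.inr (Or.inr h')⟩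

end Pool.Agent.PST.GU.H62
end
end -- Pool.Agent.Helper62_PST.ADV

section -- Pool.Agent.Helper68_PST.CLU

/-! PST, row CLU: from the clean hypotheses to the class. -/

set_option autoImplicit false

open scoped BigOperators

noncomputable section

namespace Pool.Agent.PST.GU.H68

open Pool.Agent.Helper51_AWC Pool.Agent.Helper79_WRA Pool.Agent.PP Pool.Agent.PP.KF
open Pool.Agent.PP.K9 Pool.Agent.PP.K9.H97 Pool.Agent.PP.H75 Pool.Agent.PP.T3 Pool.Agent.PP.T2
open Pool.Agent.PFD (Ei)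
open Pool.Agent.PSS Pool.Agent.PST.GU

attribute [local instance] Ideal.Quotient.field

/-- two generators give rank at most two -/
theorem r2_of {ℓ : ℕ} [hℓ : Fact ℓ.Prime] {G Q : Type} [Group G] [Group Q] [Finite Q] (f : Q →* G)
    (hf : Function.Injective f) (x y : G) (hr : f.range = Subgroup.closure {x, y})
    (hab : ∀ a b : Q, a * b = b * a) (hp : IsPGroup ℓ Q) : TW.R2 ℓ Q := by
  refine ⟨inferInstance, hp, hab, ?_⟩
  let _ : CommGroup Q := { (inferInstance : Group Q) with mul_comm := hab }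
  have hx : x ∈ f.range := by
    rw [hr]
    exact Subgroup.subset_closure (Set.mem_insert _ _)
  have hy : y ∈ f.range := by
    rw [hr]
    exact Subgroup.subset_closure (Set.mem_insert_of_mem _ rfl)
  obtain ⟨a, rfl⟩ := hx
  obtain ⟨b, rfl⟩ := hy
  refine TW.ncard_le (Q := Q) hℓ.out.pos (x := a) (y := b) fun q => ?_
  have h1 : f q ∈ (Subgroup.closure ({a, b} : Set Q)).map f := by
    rw [MonoidHom.map_closure, Set.image_pair, ← hr]
    exact ⟨q, rfl⟩
  obtain ⟨q', hq', hqq⟩ := h1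
  rw [← hf hqq]
  exact hq'

/-- CLU -/
theorem clu (cln : ClnStmt) : CluStmt := by
  intro ℓ hℓ M _ hM G _ _ e V γ hL hV s Y U h
  have hab : ∀ a b : V, a * b = b * a := fun a b => Subtype.ext (hL.ab a a.2 b b.2)
  by_cases hU : U = ⊥
  · obtain ⟨W₀, hW₀⟩ := cln ℓ M hM G e V γ hL hV s Y ⊥ ⊥
      { jn := by rw [← hU]; exact h.jn
        dy := h.dy
        dw := by rw [inf_bot_eq]
        cy := by
          intro i
          have : IsCyclic (Y i) := isCyclic_of_prime_card (h.cd i)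
          obtain ⟨y, hy⟩ := IsCyclic.exists_generator (α := Y i)
          refine ⟨y, y.2, fun x hx => ?_⟩
          obtain ⟨k, hk⟩ := Subgroup.mem_zpowers_iff.1 (hy ⟨x, hx⟩)
          refine ⟨k, ?_⟩
          rw [← Subgroup.coe_zpow, hk]
        sy := h.sy
        sw := by
          intro t _ w hw
          rw [Subgroup.mem_bot] at hw ⊢
          rw [hw, mul_one, mul_inv_cancel]
        su := by
          intro t _ w hw
          rw [Subgroup.mem_bot] at hw ⊢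
          rw [hw, mul_one, mul_inv_cancel]
        uw := le_rfl
        nt := fun _ => rfl
        fr := by
          intro t _ u hu hu1
          exact absurd (Subgroup.mem_bot.1 hu) hu1 }
    exact ⟨W₀, Or.inl hW₀⟩
  · -- stable subgroups
    have hst : ∀ Z : Subgroup G, (∀ t ∈ Tg V γ, ∀ z ∈ Z, t * z * t⁻¹ ∈ Z) →
        ∀ a ∈ Ei V γ, ∀ z ∈ Z.subgroupOf V, a z ∈ Z.subgroupOf V := by
      rintro Z hZ _ ⟨⟨t, htn⟩, ht, rfl⟩ z hz
      rw [Subgroup.mem_subgroupOf]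
      exact hZ t (Subgroup.mem_subgroupOf.1 ht) z (Subgroup.mem_subgroupOf.1 hz)
    have hYV : ∀ i, Y i ≤ V := fun i => (le_iSup Y i).trans (le_sup_left.trans h.jn.le)
    have hUV : U ≤ V := le_sup_right.trans h.jn.le
    have hYu : ∀ i, Yu ℓ (Ei V γ) (U.subgroupOf V) ((Y i).subgroupOf V) := by
      intro i
      refine ⟨?_, hst _ (h.sy i), ?_⟩
      · rw [Nat.card_congr (Subgroup.subgroupOfEquivOfLe (hYV i)).toEquiv]
        exact h.cd i
      · rintro _ ⟨⟨t, htn⟩, ht, rfl⟩ hfix u hu hu1 hfu x hx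
        have h7 : t * (u : G) * t⁻¹ = u := congrArg Subtype.val hfu
        have h8 : ∀ y ∈ Y i, t * y = y * t := by
          intro y hy
          have h9 : t * y * t⁻¹ = y :=
            congrArg Subtype.val (hfix ⟨y, hYV i hy⟩ (Subgroup.mem_subgroupOf.2 hy))
          exact mul_inv_eq_iff_eq_mul.1 h9
        have h10 := h.fr i t (Subgroup.mem_subgroupOf.1 ht) h8 u (Subgroup.mem_subgroupOf.1 hu)
          (fun h0 => hu1 (Subtype.ext h0)) (mul_inv_eq_iff_eq_mul.1 h7)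
        apply Subtype.ext
        show t * (x : G) * t⁻¹ = x
        have h11 : (x : G) * t = t * x :=
          (Subgroup.mem_centralizer_iff.1 h10) x (Subgroup.mem_subgroupOf.1 hx)
        rw [← h11, mul_inv_cancel_right]
    -- the product of the first factors
    have hD : ∀ n : ℕ, n ≤ s → Cyu ℓ (Ei V γ) (U.subgroupOf V)
        ((⨆ j : Fin s, ⨆ (_ : (j : ℕ) < n), Y j).subgroupOf V) := by
      intro n
      induction n with
      | zero =>
        intro _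
        have h0 : (⨆ j : Fin s, ⨆ (_ : (j : ℕ) < 0), Y j) = ⊥ := by
          rw [eq_bot_iff]
          refine iSup_le fun j => iSup_le fun hj => ?_
          omega
        rw [h0, Subgroup.bot_subgroupOf]
        exact Cyu.bot
      | succ n ih =>
        intro hn
        have h0 : (⨆ j : Fin s, ⨆ (_ : (j : ℕ) < n + 1), Y j) =
            (⨆ j : Fin s, ⨆ (_ : (j : ℕ) < n), Y j) ⊔ Y ⟨n, hn⟩ := by
          apply le_antisymm
          · refine iSup_le fun j => iSup_le fun hj => ?_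
            rcases Nat.lt_or_ge (j : ℕ) n with h1 | h1
            · exact (le_iSup₂ (f := fun (j : Fin s) (_ : (j : ℕ) < n) => Y j) j h1).trans
                le_sup_left
            · have h2 : j = ⟨n, hn⟩ := Fin.ext (by show (j : ℕ) = n; omega)
              rw [h2]
              exact le_sup_right
          · refine sup_le ?_ ?_
            · refine iSup_le fun j => iSup_le fun hj => ?_
              exact le_iSup₂_of_le j (Nat.lt_succ_of_lt hj) le_rfl
            · exact le_iSup₂_of_le (⟨n, hn⟩ : Fin s) (Nat.lt_succ_self n) le_rfl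
        have hle : (⨆ j : Fin s, ⨆ (_ : (j : ℕ) < n), Y j) ≤ V :=
          iSup_le fun j => iSup_le fun _ => hYV j
        rw [h0, Subgroup.subgroupOf_sup hle (hYV _)]
        refine Cyu.mul _ _ (ih (by omega)) (hYu _) ?_
        rw [eq_bot_iff]
        rintro ⟨x, hxV⟩ ⟨hx1, hx2⟩
        have h3 : x ∈ Y ⟨n, hn⟩ ⊓ (⨆ j, ⨆ (_ : j < (⟨n, hn⟩ : Fin s)), Y j) :=
          ⟨Subgroup.mem_subgroupOf.1 hx2, Subgroup.mem_subgroupOf.1 hx1⟩
        rw [h.dy, Subgroup.mem_bot] at h3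
        rw [Subgroup.mem_bot]
        exact Subtype.ext h3
    obtain ⟨x, y, hxy⟩ := h.gn
    cases s with
    | zero =>
      have h1 : (⨆ i, Y i) = ⊥ := by
        rw [eq_bot_iff]
        exact iSup_le fun i => i.elim0
      have h2 : U = V := by
        have h3 := h.jn
        rwa [h1, bot_sup_eq] at h3
      refine ⟨⊤, Or.inr (Or.inl ⟨rfl, ?_, ?_⟩)⟩
      · intro h4
        apply hV
        rw [eq_bot_iff]
        intro x hx
        have h5 : (⟨x, hx⟩ : V) ∈ (⊤ : Subgroup V) := trivial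
        rw [h4, Subgroup.mem_bot] at h5
        rw [Subgroup.mem_bot]
        exact congrArg Subtype.val h5
      · refine r2_of (ℓ := ℓ) V.subtype V.subtype_injective x y ?_ hab hL.tp.1
        rw [V.range_subtype, ← h2, hxy]
    | succ n =>
      have hle : (⨆ j : Fin (n + 1), ⨆ (_ : (j : ℕ) < n), Y j) ≤ V :=
        iSup_le fun j => iSup_le fun _ => hYV j
      have hall : (⨆ j : Fin (n + 1), ⨆ (_ : (j : ℕ) < n), Y j) ⊔ Y (Fin.last n) = ⨆ i, Y i := by
        apply le_antisymm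
        · exact sup_le (iSup_le fun j => iSup_le fun _ => le_iSup Y j) (le_iSup Y _)
        · refine iSup_le fun j => ?_
          rcases Nat.lt_or_ge (j : ℕ) n with h1 | h1
          · exact (le_iSup₂ (f := fun (j : Fin (n + 1)) (_ : (j : ℕ) < n) => Y j) j h1).trans
              le_sup_left
          · have h2 : j = Fin.last n := Fin.ext (by show (j : ℕ) = n; omega)
            rw [h2]
            exact le_sup_right
      refine ⟨(Y (Fin.last n)).subgroupOf V, Or.inr (Or.inr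
        ⟨(⨆ j : Fin (n + 1), ⨆ (_ : (j : ℕ) < n), Y j).subgroupOf V, U.subgroupOf V, ?_⟩)⟩
      refine ⟨hab, hD n (by omega), hYu _, hst U h.su, ?_, ?_, ?_, ?_, ?_⟩
      · intro h1
        apply hU
        rw [eq_bot_iff]
        intro u hu
        have h6 : (⟨u, hUV hu⟩ : V) ∈ U.subgroupOf V := Subgroup.mem_subgroupOf.2 hu
        rw [h1, Subgroup.mem_bot] at h6
        rw [Subgroup.mem_bot]
        exact congrArg Subtype.val h6
      · rw [eq_bot_iff]
        rintro ⟨z, hzV⟩ ⟨hz1, hz2⟩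
        have h3 : z ∈ Y (Fin.last n) ⊓ (⨆ j, ⨆ (_ : j < Fin.last n), Y j) :=
          ⟨Subgroup.mem_subgroupOf.1 hz2, Subgroup.mem_subgroupOf.1 hz1⟩
        rw [h.dy, Subgroup.mem_bot] at h3
        rw [Subgroup.mem_bot]
        exact Subtype.ext h3
      · rw [← Subgroup.subgroupOf_sup hle (hYV _), hall, eq_bot_iff]
        rintro ⟨z, hzV⟩ ⟨hz1, hz2⟩
        have h3 : z ∈ (⨆ i, Y i) ⊓ U :=
          ⟨Subgroup.mem_subgroupOf.1 hz1, Subgroup.mem_subgroupOf.1 hz2⟩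
        rw [h.du, Subgroup.mem_bot] at h3
        rw [Subgroup.mem_bot]
        exact Subtype.ext h3
      · rw [← Subgroup.subgroupOf_sup hle (hYV _), hall,
          ← Subgroup.subgroupOf_sup (iSup_le hYV) hUV, h.jn, Subgroup.subgroupOf_self]
      · refine r2_of (ℓ := ℓ) (V.subtype.comp (U.subgroupOf V).subtype)
          (V.subtype_injective.comp (U.subgroupOf V).subtype_injective) x y ?_ ?_
          (hL.tp.1.to_subgroup _)
        · rw [MonoidHom.range_comp, Subgroup.range_subtype, Subgroup.subgroupOf_map_subtype,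
            inf_eq_left.mpr hUV, hxy]
        · intro a b
          exact Subtype.ext (hab a b)

end Pool.Agent.PST.GU.H68
end
end -- Pool.Agent.Helper68_PST.CLU

section -- Pool.Agent.Helper68_PST.K3R

/-! PST, row K3R: from the class `K3 L` to the property `Rt3`. -/

set_option autoImplicit false

noncomputable section

namespace Pool.Agent.PST.GU.H68

open Pool.Agent.PSS Pool.Agent.PST.GU

theorem cyc_of_cyu {V : Type} [CommGroup V] {ℓ : ℕ} (hℓ : ℓ.Prime) {E : Subgroup (MulAut V)}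
    {U C : Subgroup V} (hC : Cyu ℓ E U C) : Cyc E C := by
  induction hC with
  | bot => exact Cyc.bot
  | mul C Y hC hY hCY ih =>
    refine Cyc.mul C Y ih ?_ hY.st hCY
    have : Fact ℓ.Prime := ⟨hℓ⟩
    have : IsCyclic Y := isCyclic_of_prime_card hY.cd
    obtain ⟨y, hy⟩ := IsCyclic.exists_generator (α := Y)
    refine ⟨y, y.2, fun x hx => ?_⟩
    obtain ⟨k, hk⟩ := Subgroup.mem_zpowers_iff.1 (hy ⟨x, hx⟩)
    refine ⟨k, ?_⟩
    rw [← Subgroup.coe_zpow, hk]

/-- K3R -/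
theorem k3r : K3rStmt := by
  intro L ℓ V _ _ E W hℓ _ _ hK
  obtain ⟨C, U, hS⟩ := hK
  have hcyc := cyc_of_cyu hℓ hS.cy
  have hWst : ∀ e : E, ∀ w ∈ W, E.subtype e w ∈ W := fun e w hw => hS.yw.st e e.2 w hw
  have hUst : ∀ e : E, ∀ u ∈ U, E.subtype e u ∈ U := fun e u hu => hS.su e e.2 u hu
  obtain ⟨T, hT⟩ : ∃ T : Subgroup V, T = W ⊔ U := ⟨_, rfl⟩
  have hWT : W ≤ T := hT ▸ le_sup_left
  have hUT : U ≤ T := hT ▸ le_sup_right
  have hTst : ∀ e : E, ∀ w ∈ T, E.subtype e w ∈ T := by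
    intro e w hw
    rw [hT] at hw ⊢
    obtain ⟨x, hx, u, hu, rfl⟩ := Subgroup.mem_sup.mp hw
    rw [map_mul]
    exact Subgroup.mul_mem_sup (hWst e x hx) (hUst e u hu)
  have hWU : ∀ x, x ∈ W → x ∈ U → x = 1 := by
    intro x h1 h2
    have h3 : x ∈ (C ⊔ W) ⊓ U := ⟨Subgroup.mem_sup_right h1, h2⟩
    rwa [hS.cu, Subgroup.mem_bot] at h3
  have hCT : C ⊓ T = ⊥ := by
    rw [Subgroup.eq_bot_iff_forall]
    rintro x ⟨h1, h2⟩
    rw [hT] at h2
    obtain ⟨w, hw, u, hu, rfl⟩ := Subgroup.mem_sup.mp h2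
    have h3 : u ∈ (C ⊔ W) ⊓ U := by
      refine ⟨?_, hu⟩
      have h4 : u = (w * u) * w⁻¹ := by rw [mul_comm w u, mul_inv_cancel_right]
      rw [h4]
      exact Subgroup.mul_mem_sup h1 (W.inv_mem hw)
    rw [hS.cu, Subgroup.mem_bot] at h3
    rw [h3, mul_one] at h1 ⊢
    have h5 : w ∈ C ⊓ W := ⟨h1, hw⟩
    rwa [hS.cw, Subgroup.mem_bot] at h5
  have hCTt : C ⊔ T = ⊤ := by
    rw [hT, ← sup_assoc]
    exact hS.jn
  obtain ⟨n, hn⟩ := H69.claim hcyc V E E.subtype (MonoidHom.id V) (fun _ _ h => h)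
    (fun x => ⟨x, x.2, fun v => rfl⟩) T hTst (by rw [Subgroup.map_id]; exact hCT)
    (by rw [Subgroup.map_id, hCTt, MonoidHom.range_eq_map, Subgroup.map_id])
  refine ⟨n, T, H69.rsh E.subtype T hTst, hWT, hWst, hn, fun e w => rfl, ?_,
    U.subgroupOf T, ?_, ?_, ?_, ?_, ?_⟩
  · rw [Nat.card_congr (Subgroup.subgroupOfEquivOfLe hWT).toEquiv, hS.yw.cd]
    exact hℓ
  · constructor
    · rw [disjoint_iff, Subgroup.eq_bot_iff_forall]
      rintro v ⟨h1, h2⟩
      exact Subtype.ext (hWU v h1 h2)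
    · rw [codisjoint_iff, eq_top_iff]
      intro v _
      have hv : (v : V) ∈ W ⊔ U := hT ▸ v.2
      obtain ⟨w, hw, u, hu, hwu⟩ := Subgroup.mem_sup.mp hv
      have h5 : v = (⟨w, hWT hw⟩ : T) * ⟨u, hUT hu⟩ := Subtype.ext hwu.symm
      rw [h5]
      exact Subgroup.mul_mem_sup (Subgroup.mem_subgroupOf.mpr hw) (Subgroup.mem_subgroupOf.mpr hu)
  · intro h0
    apply hS.nt
    rw [Subgroup.eq_bot_iff_forall]
    intro u hu
    have h1 : (⟨u, hUT hu⟩ : T) ∈ U.subgroupOf T := Subgroup.mem_subgroupOf.2 hu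
    rw [h0, Subgroup.mem_bot] at h1
    exact congrArg Subtype.val h1
  · intro e w hw
    exact hWst e _ hw
  · intro e u hu
    exact hUst e _ hu
  · intro e hew u hu hu1 heu
    have h1 : ∀ y ∈ W, (e : MulAut V) y = y := by
      intro y hy
      exact congrArg Subtype.val (hew ⟨y, hWT hy⟩ (Subgroup.mem_subgroupOf.2 hy))
    have h2 := hS.yw.fr e e.2 h1 u hu (fun h0 => hu1 (Subtype.ext h0)) (congrArg Subtype.val heu)
    apply MulEquiv.ext
    intro v
    apply Subtype.ext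
    change (e : MulAut V) (v : V) = v
    have hv : (v : V) ∈ W ⊔ U := hT ▸ v.2
    obtain ⟨w, hw, x, hx, hwx⟩ := Subgroup.mem_sup.mp hv
    rw [← hwx, map_mul, h1 w hw, h2 x hx]

end Pool.Agent.PST.GU.H68
end
end -- Pool.Agent.Helper68_PST.K3R

section -- Pool.Agent.Helper68_PST.RSQ

/-! PST, rows RSQ, SUI, SUQ: images of the decomposition `V = C × W × U`. -/

set_option autoImplicit false

noncomputable section

namespace Pool.Agent.PST.GU.H68

open Pool.Agent.PSS Pool.Agent.PST.GU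

/-- the restriction of an automorphism to a stable subgroup -/
def rst {V : Type} [Group V] (E : Subgroup (MulAut V)) (U : Subgroup V)
    (hU : ∀ a ∈ E, ∀ u ∈ U, a u ∈ U) (a : MulAut V) (ha : a ∈ E) : MulAut U where
  toFun u := ⟨a u, hU a ha u u.2⟩
  invFun u := ⟨a⁻¹ u, hU a⁻¹ (E.inv_mem ha) u u.2⟩
  left_inv u := by
    apply Subtype.ext
    change a⁻¹ (a (u : V)) = u
    rw [← MulAut.mul_apply, inv_mul_cancel, MulAut.one_apply]
  right_inv u := by
    apply Subtype.ext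
    change a (a⁻¹ (u : V)) = u
    rw [← MulAut.mul_apply, mul_inv_cancel, MulAut.one_apply]
  map_mul' u v := by
    apply Subtype.ext
    change a ((u : V) * v) = a u * a v
    rw [map_mul]

theorem rst_mem {V : Type} [Group V] (E : Subgroup (MulAut V)) (U : Subgroup V)
    (hU : ∀ a ∈ E, ∀ u ∈ U, a u ∈ U) (a : MulAut V) (ha : a ∈ E) :
    rst E U hU a ha ∈ rse E U := ⟨a, ha, fun _ => rfl⟩

/-- injectivity on a subgroup -/
theorem inj_of {V V' : Type} [Group V] [Group V'] (π : V →* V') (U : Subgroup V)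
    (hk : U ⊓ π.ker = ⊥) {u v : V} (hu : u ∈ U) (hv : v ∈ U) (h : π u = π v) : u = v := by
  have h1 : u * v⁻¹ ∈ U ⊓ π.ker := by
    refine ⟨U.mul_mem hu (U.inv_mem hv), ?_⟩
    change π (u * v⁻¹) = 1
    rw [map_mul, map_inv, h, mul_inv_cancel]
  rw [hk, Subgroup.mem_bot] at h1
  exact mul_inv_eq_one.1 h1

/-- RSQ -/
theorem rsq : RsqStmt := by
  intro V V' _ _ E E' π hq U hU hk
  have hb : Function.Bijective (π.subgroupMap U) :=
    ⟨fun u v h => Subtype.ext (inj_of π U hk u.2 v.2 (congrArg Subtype.val h)),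
      π.subgroupMap_surjective U⟩
  refine ⟨MulEquiv.ofBijective (π.subgroupMap U) hb, fun u => rfl, ?_, ?_⟩
  · exact (MulEquiv.ofBijective (π.subgroupMap U) hb).surjective
  · rintro b' ⟨a', ha', hb'⟩
    obtain ⟨a, ha, haa⟩ := hq.lif a' ha'
    refine ⟨rst E U hU a ha, rst_mem E U hU a ha, fun u => ?_⟩
    apply Subtype.ext
    have h1 := hb' (MulEquiv.ofBijective (π.subgroupMap U) hb u)
    refine Eq.trans ?_ h1.symm
    exact haa u

/-- SUI -/
theorem sui (yum : YumStmt) (cym : CymStmt) : SuiStmt := by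
  intro L ℓ hL V V' _ _ E E' π hq C W U hS
  have hker : π.toMonoidHom.ker = ⊥ := (MonoidHom.ker_eq_bot_iff _).2 π.injective
  have hinj : Function.Injective π.toMonoidHom := π.injective
  have hk : ∀ Y : Subgroup V, Y ⊓ π.toMonoidHom.ker = ⊥ := by
    intro Y
    rw [hker, inf_bot_eq]
  obtain ⟨τ, -, hτ⟩ := rsq V V' E E' π.toMonoidHom hq U hS.su (hk U)
  refine ⟨?_, ?_, ?_, ?_, ?_, ?_, ?_, ?_, ?_⟩
  · intro a b
    obtain ⟨x, rfl⟩ := π.surjective a
    obtain ⟨y, rfl⟩ := π.surjective b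
    rw [← map_mul, hS.ab, map_mul]
  · exact cym.1 ℓ V V' E E' π.toMonoidHom hq U hS.su (hk U) C hS.cy (hk C)
  · exact yum ℓ V V' E E' π.toMonoidHom hq U W hS.su hS.yw (hk W) (hk U)
  · rintro a' ha' _ ⟨u, hu, rfl⟩
    obtain ⟨a, ha, haa⟩ := hq.lif a' ha'
    exact ⟨a u, hS.su a ha u hu, haa u⟩
  · intro h
    exact hS.nt ((Subgroup.map_eq_bot_iff_of_injective U hinj).1 h)
  · rw [← Subgroup.map_inf_eq C W _ hinj, hS.cw, Subgroup.map_bot]
  · rw [← Subgroup.map_sup, ← Subgroup.map_inf_eq (C ⊔ W) U _ hinj, hS.cu, Subgroup.map_bot]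
  · rw [← Subgroup.map_sup, ← Subgroup.map_sup, hS.jn]
    exact Subgroup.map_top_of_surjective _ hq.sur
  · exact hL.iso U (U.map π.toMonoidHom) (rse E U) (rse E' (U.map π.toMonoidHom)) τ hτ hS.tm

/-- an element of a product of two subgroups of a commutative group -/
theorem mem_sup' {V : Type} [Group V] (hab : ∀ a b : V, a * b = b * a) {A B : Subgroup V} {x : V}
    (hx : x ∈ A ⊔ B) : ∃ a ∈ A, ∃ b ∈ B, a * b = x := by
  let _ : CommGroup V := { (inferInstance : Group V) with mul_comm := hab }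
  exact Subgroup.mem_sup.1 hx

/-- SUQ -/
theorem suq (yum : YumStmt) (cym : CymStmt) : SuqStmt := by
  intro L ℓ hL V V' _ _ E E' π hq C W U hS hker hne
  have hab := hS.ab
  -- the intersections with the kernel
  have hCW : C ⊓ W = ⊥ := hS.cw
  have hcu : ∀ x, x ∈ C ⊔ W → x ∈ U → x = 1 := by
    intro x h1 h2
    have h3 : x ∈ (C ⊔ W) ⊓ U := ⟨h1, h2⟩
    rwa [hS.cu, Subgroup.mem_bot] at h3
  have hcw : ∀ x, x ∈ C → x ∈ W → x = 1 := by
    intro x h1 h2
    have h3 : x ∈ C ⊓ W := ⟨h1, h2⟩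
    rwa [hS.cw, Subgroup.mem_bot] at h3
  have hCU : ∀ x, x ∈ C ⊔ U → x ∈ W → x = 1 := by
    intro x h1 h2
    obtain ⟨c, hc, u, hu, rfl⟩ := mem_sup' hab h1
    have h3 : u = 1 := by
      refine hcu u ?_ hu
      have h4 : u = c⁻¹ * (c * u) := by rw [inv_mul_cancel_left]
      rw [h4]
      exact (C ⊔ W).mul_mem ((C ⊔ W).inv_mem (Subgroup.mem_sup_left hc)) (Subgroup.mem_sup_right h2)
    rw [h3, mul_one] at h2 ⊢
    exact hcw c hc h2
  have hUk : U ⊓ π.ker = ⊥ := by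
    rw [hker, Subgroup.eq_bot_iff_forall]
    rintro x ⟨h1, h2⟩
    exact hCU x (Subgroup.mem_sup_right h1) h2
  have hCk : C ⊓ π.ker = ⊥ := by rw [hker, hS.cw]
  have hWm : W.map π = ⊥ := by
    rw [← hker]
    exact (Subgroup.map_eq_bot_iff _).2 le_rfl
  obtain ⟨τ, hτv, hτ⟩ := rsq V V' E E' π hq U hS.su hUk
  have htm := hL.iso U (U.map π) (rse E U) (rse E' (U.map π)) τ hτ hS.tm
  have hsu : ∀ a' ∈ E', ∀ u' ∈ U.map π, a' u' ∈ U.map π := by
    rintro a' ha' _ ⟨u, hu, rfl⟩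
    obtain ⟨a, ha, haa⟩ := hq.lif a' ha'
    exact ⟨a u, hS.su a ha u hu, haa u⟩
  by_cases hC : C = ⊥
  · -- the terminal case
    have htop : U.map π = ⊤ := by
      have h1 : (C ⊔ W ⊔ U).map π = ⊤ := by
        rw [hS.jn]
        exact Subgroup.map_top_of_surjective _ hq.sur
      rwa [hC, bot_sup_eq, Subgroup.map_sup, hWm, bot_sup_eq] at h1
    refine ⟨⊤, Or.inl ⟨rfl, ?_, ?_⟩⟩
    · obtain ⟨v, hv⟩ := hne
      intro h
      have h1 : v ∈ (⊤ : Subgroup V') := Subgroup.mem_top v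
      rw [h, Subgroup.mem_bot] at h1
      exact hv h1
    · have hbi : Function.Bijective (U.map π).subtype := by
        refine ⟨(U.map π).subtype_injective, fun v => ?_⟩
        have h1 : v ∈ U.map π := by
          rw [htop]
          exact Subgroup.mem_top v
        exact ⟨⟨v, h1⟩, rfl⟩
      refine hL.iso (U.map π) V' (rse E' (U.map π)) E' (MulEquiv.ofBijective _ hbi) ⟨hbi.2, ?_⟩ htm
      intro a' ha'
      exact ⟨rst E' (U.map π) hsu a' ha', rst_mem E' (U.map π) hsu a' ha', fun v => rfl⟩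
  · obtain ⟨C₁, Y₁, hC₁, hY₁, hCY, hCY2⟩ := cym.2 ℓ V E U C hS.cy hC
    have hC₁C : C₁ ≤ C := hCY2 ▸ le_sup_left
    have hY₁C : Y₁ ≤ C := hCY2 ▸ le_sup_right
    have hC₁k : C₁ ⊓ π.ker = ⊥ := by
      rw [eq_bot_iff, ← hCk]
      exact inf_le_inf_right _ hC₁C
    have hY₁k : Y₁ ⊓ π.ker = ⊥ := by
      rw [eq_bot_iff, ← hCk]
      exact inf_le_inf_right _ hY₁C
    refine ⟨Y₁.map π, Or.inr ⟨C₁.map π, U.map π, ?_, ?_, ?_, hsu, ?_, ?_, ?_, ?_, htm⟩⟩
    · intro a b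
      obtain ⟨x, rfl⟩ := hq.sur a
      obtain ⟨y, rfl⟩ := hq.sur b
      rw [← map_mul, hab, map_mul]
    · exact cym.1 ℓ V V' E E' π hq U hS.su hUk C₁ hC₁ hC₁k
    · exact yum ℓ V V' E E' π hq U Y₁ hS.su hY₁ hY₁k hUk
    · intro h
      apply hS.nt
      rw [Subgroup.eq_bot_iff_forall]
      intro u hu
      have h1 : π u ∈ U.map π := ⟨u, hu, rfl⟩
      rw [h, Subgroup.mem_bot] at h1
      exact inj_of π U hUk hu U.one_mem (h1.trans (map_one π).symm)
    · rw [Subgroup.eq_bot_iff_forall]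
      rintro _ ⟨⟨c, hc, rfl⟩, ⟨y, hy, hcy⟩⟩
      have h1 : y = c := inj_of π C hCk (hY₁C hy) (hC₁C hc) hcy
      have h2 : c ∈ C₁ ⊓ Y₁ := ⟨hc, h1 ▸ hy⟩
      rw [hCY, Subgroup.mem_bot] at h2
      rw [h2, map_one]
    · rw [← Subgroup.map_sup, hCY2, Subgroup.eq_bot_iff_forall]
      rintro _ ⟨⟨c, hc, rfl⟩, ⟨u, hu, huc⟩⟩
      have h1 : (C ⊔ U) ⊓ π.ker = ⊥ := by
        rw [hker, Subgroup.eq_bot_iff_forall]
        rintro x ⟨h1, h2⟩
        exact hCU x h1 h2
      have h2 : u = c := inj_of π (C ⊔ U) h1 (Subgroup.mem_sup_right hu) (Subgroup.mem_sup_left hc) huc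
      have h3 : u = 1 := hcu u (h2 ▸ Subgroup.mem_sup_left hc) hu
      rw [← h2, h3, map_one]
    · have h1 : (C ⊔ W ⊔ U).map π = ⊤ := by
        rw [hS.jn]
        exact Subgroup.map_top_of_surjective _ hq.sur
      rw [Subgroup.map_sup, Subgroup.map_sup, hWm, sup_bot_eq] at h1
      rw [← Subgroup.map_sup, hCY2]
      exact h1

end Pool.Agent.PST.GU.H68
end
end -- Pool.Agent.Helper68_PST.RSQ

section -- Pool.Agent.Helper3_PST.AsmU

/-!
# Squad PST, block GU: assembly of the group level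

`fvs_of`: the final theorem for the union of (A) + (S) and (R), from the input of the algebras.
-/

noncomputable section

namespace Pool.Agent.PST.GU.H3

open Pool.Agent.PP Pool.Agent.PSS

theorem adr_ : AdrStmt := GU.H10.adr

theorem ykr_ : YkrStmt := GU.H23.ykr (fun ℓ _ => TW.tt_ ℓ) SE.s2f_ T3.pos_

theorem ymt_ : YmtStmt := ymt PFD.H64.yad PSS.H66.qrq_ PFD.H6.lke K9.H34.inx

theorem let__ : LetStmt :=
  let_ H33.qrx H21.qrj PFD.chr_ PFD.H64.yad PFD.H94b.bnr T3.lcj_ K9.H75.lbr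

theorem stt_ : SttStmt :=
  stt H33.qrx H63.frt H24.ltx H60.izx PFD.ksm_ T3.lsb_ TW.sta_

/-- rank at most two, the numbers of the ordinary characters -/
theorem sto_kf : StoFor (Kf LR) := stt_ LR adr_ (let__ LR adr_ (ymt_ LR adr_ ykr_))

/-- theorem (R), the numbers of the ordinary characters -/
theorem sto_k3 (atr : AtgStmt BR.Rtp) (L : Kt) : StoFor (K3 L) :=
  GU.H41.str GU.H68.k3r AllS6.stogen_ atr L

theorem sto_ku (atr : AtgStmt BR.Rtp) (K : Kl) (h : StoFor K) : StoFor (KU K LR) := by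
  intro ℓ hℓ M _ hM G _ _ e V γ hL W hW hK c hc
  rcases hK with hK | hK | hK
  · exact h ℓ M hM G e V γ hL W hW hK c hc
  · exact sto_kf ℓ M hM G e V γ hL W hW hK c hc
  · exact sto_k3 atr LR ℓ M hM G e V γ hL W hW hK c hc

theorem adv_ : AdvStmt :=
  GU.H62.adv (GU.H68.sui GU.H41.yum (GU.H1.cym GU.H41.yum))
    (GU.H68.suq GU.H41.yum (GU.H1.cym GU.H41.yum))

theorem adm_ku (K : Kl) (h : ∀ ℓ : ℕ, ℓ.Prime → Adm ℓ K) : ∀ ℓ : ℕ, ℓ.Prime →
    Adm ℓ (KU K LR) := fun ℓ hℓ => adv_ K LR ℓ hℓ (h ℓ hℓ) (adr_ ℓ hℓ)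

theorem len_ku (atr : AtgStmt BR.Rtp) (K : Kl) (h : ∀ ℓ : ℕ, ℓ.Prime → Adm ℓ K)
    (hs : StoFor K) : LenFor (KU K LR) :=
  PSS.H11.len_ (KU K LR) (adm_ku K h) (sto_ku atr K hs)

theorem mnn_ku (atr : AtgStmt BR.Rtp) (K : Kl) (h : ∀ ℓ : ℕ, ℓ.Prime → Adm ℓ K)
    (hs : StoFor K) : MnnFor (KU K LR) :=
  PSS.H66.mnn_ (KU K LR) (adm_ku K h) (len_ku atr K h hs)

theorem fnk_ : FnkStmt := fnk T3.flt_ T3.psg_

theorem fvs_of (atr : AtgStmt BR.Rtp) (sto : StoStmt) : FvsStmt :=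
  GU.H20.fvs fnk_ (GU.H68.clu PSS.H66.cln_) PSS.H66.cln_ (mnn_ku atr KS PSS.H66.ads_ sto)

end Pool.Agent.PST.GU.H3
end
end -- Pool.Agent.Helper3_PST.AsmU

section -- Pool.Agent.Helper3_PST.STV

/-!
# Squad PST, block GV, row STV: the input of the group level for the class `K4 L`
-/

open scoped BigOperators

noncomputable section

namespace Pool.Agent.PST.GU.H3

open Pool.Agent.PSS

theorem stv (k4r : K4rStmt) (stogen : GU.H41.StogenStmt) : StvStmt := by
  intro hatg L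
  have h : StoFor (fun ℓ V _ E W => ℓ.Prime ∧ K4 L ℓ V E W) := by
    refine stogen Rt4 _ ?_ ?_
    · intro ℓ V _ _ E W hp hE hK
      exact k4r L ℓ V E W hK.1 hp hE hK.2
    · intro ℓ hℓ F V E A B _ _ _ _ _ _ _ _ _ _ _ φ α W hp hE hR hA hB
      obtain ⟨n, T, ψ, hWT, hst, hc, hr, hR⟩ := hR
      have hcard : Nat.card W = ℓ := by
        have h1 : (Nat.card (W.subgroupOf T)).Prime := hR.1
        rw [Nat.card_congr (Subgroup.subgroupOfEquivOfLe hWT).toEquiv] at h1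
        obtain ⟨m, hm⟩ := IsPGroup.iff_card.1 (hp.to_subgroup W)
        rw [hm] at h1 ⊢
        rw [h1.eq_one_of_pow, pow_one]
      rw [hcard] at hc
      exact hatg n ℓ F V E A B φ α T W ψ hp hE hWT hst hc hr hR hA hB
  intro ℓ hℓ M _ hM G _ _ e V γ hL W hW hK c hc
  exact h ℓ M hM G e V γ hL W hW ⟨hℓ.out, hK⟩ c hc

end Pool.Agent.PST.GU.H3
end
end -- Pool.Agent.Helper3_PST.STV

section -- Pool.Agent.Helper3_PST.CLV

/-!
# Squad PST, block GV, row CLV: from the clean hypotheses to the class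
-/

set_option autoImplicit false

open scoped BigOperators

noncomputable section

namespace Pool.Agent.PST.GU.H3

open Pool.Agent.Helper51_AWC Pool.Agent.Helper79_WRA Pool.Agent.PP Pool.Agent.PP.KF
open Pool.Agent.PP.K9 Pool.Agent.PP.K9.H97 Pool.Agent.PP.H75 Pool.Agent.PP.T3 Pool.Agent.PP.T2
open Pool.Agent.PP.TB (Zd Star iz cz)
open Pool.Agent.PFD (Ei)
open Pool.Agent.PSS

attribute [local instance] Ideal.Quotient.field

theorem so_ne {G : Type} [Group G] {U V : Subgroup G} (hUV : U ≤ V) (hU : U ≠ ⊥) :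
    U.subgroupOf V ≠ ⊥ := by
  intro h1
  apply hU
  rw [eq_bot_iff]
  intro u hu
  have h6 : (⟨u, hUV hu⟩ : V) ∈ U.subgroupOf V := Subgroup.mem_subgroupOf.2 hu
  rw [h1, Subgroup.mem_bot] at h6
  rw [Subgroup.mem_bot]
  exact congrArg Subtype.val h6

theorem clv (sry : SryStmt) (msu : MsuStmt) (lke : PFD.LkeStmt) (inx : K9.InxStmt) :
    ClvStmt := by
  intro ℓ hℓ M _ hM G _ _ e V γ hL hV s Y U h
  have hab : ∀ a b : V, a * b = b * a := fun a b => Subtype.ext (hL.ab a a.2 b b.2)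
  -- the order of `Ei`
  have hcop : ¬ ℓ ∣ Nat.card (Ei V γ) := by
    have h1 := (lke ℓ (FF M) G e V γ hL).1
    rw [← h1]
    have h2 := inx ℓ M hM G e hL.blk V hL.tp hL.ab γ hL.gam.supp hL.gam.blk hL.und
    have h3 : iz V V γ = (Subgroup.centralizer (V : Set G)).relIndex
        (Subgroup.normalizer (V : Set G) ⊓ stabF γ) := by
      unfold iz
      rw [Subgroup.inf_relIndex_right]
      rfl
    rw [h3]
    exact h2
  -- stable subgroups
  have hst : ∀ Z : Subgroup G, (∀ t ∈ Tg V γ, ∀ z ∈ Z, t * z * t⁻¹ ∈ Z) →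
      ∀ a ∈ Ei V γ, ∀ z ∈ Z.subgroupOf V, a z ∈ Z.subgroupOf V := by
    rintro Z hZ _ ⟨⟨t, htn⟩, ht, rfl⟩ z hz
    rw [Subgroup.mem_subgroupOf]
    exact hZ t (Subgroup.mem_subgroupOf.1 ht) z (Subgroup.mem_subgroupOf.1 hz)
  have hYV : ∀ i, Y i ≤ V := fun i => (le_iSup Y i).trans (le_sup_left.trans h.jn.le)
  have hUV : U ≤ V := le_sup_right.trans h.jn.le
  have hPV : (⨆ i, Y i) ≤ V := le_sup_left.trans h.jn.le
  -- generators
  have hgen : ∀ i, ∃ y : V, y ∈ (Y i).subgroupOf V ∧ ∀ x ∈ (Y i).subgroupOf V, ∃ k : ℤ,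
      x = y ^ k := by
    intro i
    obtain ⟨y, hy, hgen⟩ := h.cy i
    refine ⟨⟨y, hYV i hy⟩, Subgroup.mem_subgroupOf.2 hy, fun x hx => ?_⟩
    obtain ⟨k, hk⟩ := hgen x (Subgroup.mem_subgroupOf.1 hx)
    exact ⟨k, Subtype.ext (by rw [Subgroup.coe_zpow]; exact hk)⟩
  -- `E` is commutative on the product of the cyclic factors
  have hcmP : ∀ a ∈ Ei V γ, ∀ b ∈ Ei V γ, ∀ v ∈ (⨆ i, Y i).subgroupOf V,
      a (b v) = b (a v) := by
    intro a ha b hb v hv
    obtain ⟨Z, hZ⟩ : ∃ Z : Subgroup V, ∀ v, v ∈ Z ↔ a (b v) = b (a v) :=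
      ⟨MonoidHom.eqLocus (a * b : MulAut V).toMonoidHom (b * a : MulAut V).toMonoidHom,
        fun v => Iff.rfl⟩
    have h1 : (⨆ i, Y i) ≤ Z.map V.subtype := by
      refine iSup_le fun i => ?_
      intro x hx
      refine ⟨⟨x, hYV i hx⟩, ?_, rfl⟩
      obtain ⟨y, hy, hg⟩ := hgen i
      obtain ⟨k, hk⟩ := hg ⟨x, hYV i hx⟩ (Subgroup.mem_subgroupOf.2 hx)
      obtain ⟨m, hm⟩ := hg _ (hst _ (h.sy i) a ha y hy)
      obtain ⟨n, hn⟩ := hg _ (hst _ (h.sy i) b hb y hy)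
      have e1 : a (b y) = b (a y) := by
        rw [hm, hn, map_zpow, map_zpow, hm, hn, ← zpow_mul, ← zpow_mul, mul_comm]
      rw [SetLike.mem_coe, hZ, hk, map_zpow, map_zpow, map_zpow, map_zpow, e1]
    obtain ⟨w, hw, hwv⟩ := h1 (Subgroup.mem_subgroupOf.1 hv)
    have h2 : w = v := Subtype.ext hwv
    rw [← h2]
    exact (hZ w).1 hw
  by_cases hU : U = ⊥
  · -- `V = P`
    have hP : (⨆ i, Y i) = V := by
      have h1 := h.jn
      rwa [hU, sup_bot_eq] at h1
    have hEc : ∀ a ∈ Ei V γ, ∀ b ∈ Ei V γ, ∀ v : V, a (b v) = b (a v) := by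
      intro a ha b hb v
      refine hcmP a ha b hb v (Subgroup.mem_subgroupOf.2 ?_)
      rw [hP]
      exact v.2
    have hne : ∃ v : V, v ≠ 1 := by
      by_contra hc
      push Not at hc
      apply hV
      rw [eq_bot_iff]
      intro x hx
      have h1 := hc ⟨x, hx⟩
      rw [Subgroup.mem_bot]
      exact congrArg Subtype.val h1
    obtain ⟨W', h1⟩ := msu V (Ei V γ) hne hEc
    refine ⟨W', Or.inl ⟨hab, ?_, W', ⊥, h1⟩⟩
    intro a ha b hb v
    rw [hEc a ha b hb v, mul_inv_cancel]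
    exact one_mem W'
  obtain ⟨x, y, hxy⟩ := h.gn
  by_cases hP : (⨆ i, Y i) = ⊥
  · -- `V = U`
    have h2 : U = V := by
      have h3 := h.jn
      rwa [hP, bot_sup_eq] at h3
    refine ⟨⊤, Or.inr (Or.inl ⟨rfl, ?_, ?_⟩)⟩
    · intro h4
      apply hV
      rw [eq_bot_iff]
      intro x hx
      have h5 : (⟨x, hx⟩ : V) ∈ (⊤ : Subgroup V) := trivial
      rw [h4, Subgroup.mem_bot] at h5
      rw [Subgroup.mem_bot]
      exact congrArg Subtype.val h5
    · refine GU.H68.r2_of (ℓ := ℓ) V.subtype V.subtype_injective x y ?_ hab hL.tp.1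
      rw [V.range_subtype, ← h2, hxy]
  -- the series
  have hfr : ∀ i, (Y i).subgroupOf V ≠ ⊥ → ∀ a ∈ Ei V γ, (∀ y ∈ (Y i).subgroupOf V, a y = y) →
      ∀ u ∈ U.subgroupOf V, u ≠ 1 → a u = u → ∀ x ∈ U.subgroupOf V, a x = x := by
    intro i hi
    rintro _ ⟨⟨t, htn⟩, ht, rfl⟩ hfix u hu hu1 hfu x hx
    have h0 : Y i ≠ ⊥ := by
      rintro h0
      apply hi
      rw [h0]
      exact Subgroup.bot_subgroupOf V
    have h7 : t * (u : G) * t⁻¹ = u := congrArg Subtype.val hfu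
    have h8 : ∀ y ∈ Y i, t * y = y * t := by
      intro y hy
      have h9 : t * y * t⁻¹ = y :=
        congrArg Subtype.val (hfix ⟨y, hYV i hy⟩ (Subgroup.mem_subgroupOf.2 hy))
      exact mul_inv_eq_iff_eq_mul.1 h9
    have h10 := h.fr i h0 t (Subgroup.mem_subgroupOf.1 ht) h8 u (Subgroup.mem_subgroupOf.1 hu)
      (fun h0 => hu1 (Subtype.ext h0)) (mul_inv_eq_iff_eq_mul.1 h7)
    apply Subtype.ext
    show t * (x : G) * t⁻¹ = x
    have h11 : (x : G) * t = t * x :=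
      (Subgroup.mem_centralizer_iff.1 h10) x (Subgroup.mem_subgroupOf.1 hx)
    rw [← h11, mul_inv_cancel_right]
  have hD : ∀ n : ℕ, n ≤ s →
      (∀ a ∈ Ei V γ, ∀ v ∈ (⨆ j : Fin s, ⨆ (_ : (j : ℕ) < n), Y j).subgroupOf V,
        a v ∈ (⨆ j : Fin s, ⨆ (_ : (j : ℕ) < n), Y j).subgroupOf V) ∧
      Sr ℓ (Ei V γ) (U.subgroupOf V) ⊥
        ((⨆ j : Fin s, ⨆ (_ : (j : ℕ) < n), Y j).subgroupOf V) := by
    intro n
    induction n with
    | zero =>
      intro _
      have h0 : (⨆ j : Fin s, ⨆ (_ : (j : ℕ) < 0), Y j) = ⊥ := by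
        rw [eq_bot_iff]
        refine iSup_le fun j => iSup_le fun hj => ?_
        omega
      rw [h0, Subgroup.bot_subgroupOf]
      refine ⟨?_, Relation.ReflTransGen.refl⟩
      intro a _ v hv
      rw [Subgroup.mem_bot] at hv ⊢
      rw [hv, map_one]
    | succ n ih =>
      intro hn
      have h0 : (⨆ j : Fin s, ⨆ (_ : (j : ℕ) < n + 1), Y j) =
          (⨆ j : Fin s, ⨆ (_ : (j : ℕ) < n), Y j) ⊔ Y ⟨n, hn⟩ := by
        apply le_antisymm
        · refine iSup_le fun j => iSup_le fun hj => ?_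
          rcases Nat.lt_or_ge (j : ℕ) n with h1 | h1
          · exact (le_iSup₂ (f := fun (j : Fin s) (_ : (j : ℕ) < n) => Y j) j h1).trans
              le_sup_left
          · have h2 : j = ⟨n, hn⟩ := Fin.ext (by show (j : ℕ) = n; omega)
            rw [h2]
            exact le_sup_right
        · refine sup_le ?_ ?_
          · refine iSup_le fun j => iSup_le fun hj => ?_
            exact le_iSup₂_of_le j (Nat.lt_succ_of_lt hj) le_rfl
          · exact le_iSup₂_of_le (⟨n, hn⟩ : Fin s) (Nat.lt_succ_self n) le_rfl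
      have hle : (⨆ j : Fin s, ⨆ (_ : (j : ℕ) < n), Y j) ≤ V :=
        iSup_le fun j => iSup_le fun _ => hYV j
      obtain ⟨ih1, ih2⟩ := ih (by omega)
      rw [h0, Subgroup.subgroupOf_sup hle (hYV _)]
      have hdis : (⨆ j : Fin s, ⨆ (_ : (j : ℕ) < n), Y j).subgroupOf V ⊓
          (Y ⟨n, hn⟩).subgroupOf V = ⊥ := by
        rw [eq_bot_iff]
        rintro ⟨x, hxV⟩ ⟨hx1, hx2⟩
        have h3 : x ∈ Y ⟨n, hn⟩ ⊓ (⨆ j, ⨆ (_ : j < (⟨n, hn⟩ : Fin s)), Y j) :=
          ⟨Subgroup.mem_subgroupOf.1 hx2, Subgroup.mem_subgroupOf.1 hx1⟩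
        rw [h.dy, Subgroup.mem_bot] at h3
        rw [Subgroup.mem_bot]
        exact Subtype.ext h3
      let _ : CommGroup V := { (inferInstance : Group V) with mul_comm := hab }
      refine ⟨?_, Relation.ReflTransGen.trans ih2 ?_⟩
      · intro a ha v hv
        obtain ⟨c, hc, z, hz, rfl⟩ := Subgroup.mem_sup.1 hv
        rw [map_mul]
        exact Subgroup.mul_mem_sup (ih1 a ha c hc) (hst _ (h.sy _) a ha z hz)
      · obtain ⟨y, hy, hg⟩ := hgen ⟨n, hn⟩
        exact sry ℓ V (Ei V γ) (U.subgroupOf V) _ _ hℓ.out hL.tp.1 hcop ih1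
          (hst _ (h.sy _)) ⟨y, hy, hg⟩ hdis (hfr _)
  obtain ⟨hD1, hD2⟩ := hD s le_rfl
  have hall : (⨆ j : Fin s, ⨆ (_ : (j : ℕ) < s), Y j) = ⨆ i, Y i := by
    apply le_antisymm
    · exact iSup_le fun j => iSup_le fun _ => le_iSup Y j
    · refine iSup_le fun j => ?_
      exact le_iSup₂_of_le j j.2 le_rfl
  rw [hall] at hD1 hD2
  rcases Relation.ReflTransGen.cases_head hD2 with h0 | ⟨W₀, hW1, hW2⟩
  · exact absurd h0.symm (so_ne hPV hP)
  refine ⟨W₀, Or.inr (Or.inr ⟨(⨆ i, Y i).subgroupOf V, U.subgroupOf V, ?_⟩)⟩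
  refine ⟨hab, hcmP, hW1, hW2, hst U h.su, so_ne hUV hU, ?_, ?_, ?_⟩
  · rw [eq_bot_iff]
    rintro ⟨z, hzV⟩ ⟨hz1, hz2⟩
    have h3 : z ∈ (⨆ i, Y i) ⊓ U :=
      ⟨Subgroup.mem_subgroupOf.1 hz1, Subgroup.mem_subgroupOf.1 hz2⟩
    rw [h.du, Subgroup.mem_bot] at h3
    rw [Subgroup.mem_bot]
    exact Subtype.ext h3
  · rw [← Subgroup.subgroupOf_sup hPV hUV, h.jn, Subgroup.subgroupOf_self]
  · refine GU.H68.r2_of (ℓ := ℓ) (V.subtype.comp (U.subgroupOf V).subtype)
      (V.subtype_injective.comp (U.subgroupOf V).subtype_injective) x y ?_ ?_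
      (hL.tp.1.to_subgroup _)
    · rw [MonoidHom.range_comp, Subgroup.range_subtype, Subgroup.subgroupOf_map_subtype,
        inf_eq_left.mpr hUV, hxy]
    · intro a b
      exact Subtype.ext (hab a b)

end Pool.Agent.PST.GU.H3
end
end -- Pool.Agent.Helper3_PST.CLV

section -- Pool.Agent.Helper81_HFC.CLB

/-!
# Squad HFC, row CLB (helper81): from `ClW` to the union, for an arbitrary abelian `ℓ`-subgroup
-/

set_option autoImplicit false

open scoped BigOperators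

noncomputable section

namespace Pool.Agent.HFC.H81

open Pool.Agent.Helper51_AWC Pool.Agent.Helper79_WRA Pool.Agent.PP Pool.Agent.PP.KF
open Pool.Agent.PP.K9 Pool.Agent.PP.K9.H97 Pool.Agent.PP.H75 Pool.Agent.PP.T3 Pool.Agent.PP.T2
open Pool.Agent.PFD (Ei)
open Pool.Agent.PSS Pool.Agent.PST Pool.Agent.PST.GU

attribute [local instance] Ideal.Quotient.field

/-- automorphisms induced by elements of `T` are determined by elements of `Ind T U` -/
theorem card_le_ind {G Q : Type} [Group G] [Group Q] [Finite G] (T : Set G) (U : Subgroup G)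
    (f : Q →* G) (hf : Function.Injective f) (hr : f.range = U) (E : Subgroup (MulAut Q))
    (hE : ∀ a ∈ E, ∃ t ∈ T, ∀ q : Q, f (a q) = t * f q * t⁻¹) :
    Nat.card E ≤ (Ind T U).ncard := by
  have hq : ∀ u : U, ∃ q : Q, f q = u := by
    rintro ⟨u, hu⟩
    rw [← hr] at hu
    exact hu
  choose q hq using hq
  have : Finite U := inferInstance
  have : Finite (Ind T U) := Set.toFinite _
  rw [← Nat.card_coe_set_eq]
  refine Nat.card_le_card_of_injective
    (fun a : E => (⟨fun u : U => f ((a : MulAut Q) (q u)), ?_⟩ : Ind T U)) ?_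
  · obtain ⟨t, ht, h1⟩ := hE a a.2
    refine ⟨t, ht, fun u => ?_⟩
    have h2 := h1 (q u)
    rw [hq] at h2
    exact h2
  · rintro ⟨a, ha⟩ ⟨b, hb⟩ hab
    have h1 : (fun u : U => f (a (q u))) = fun u : U => f (b (q u)) := congrArg Subtype.val hab
    apply Subtype.ext
    apply MulEquiv.ext
    intro x
    have hx : f x ∈ U := by
      rw [← hr]
      exact ⟨x, rfl⟩
    have h2 : q ⟨f x, hx⟩ = x := hf (hq ⟨f x, hx⟩)
    have h3 := congrFun h1 ⟨f x, hx⟩
    simp only [h2] at h3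
    exact hf h3

/-- the terminal condition -/
theorem lp_of {ℓ : ℕ} [hℓ : Fact ℓ.Prime] {G Q : Type} [Group G] [Group Q] [Finite G] (T : Set G)
    (U : Subgroup G)
    (gn : (∃ x y : G, U = Subgroup.closure {x, y}) ∨ (5 ≤ ℓ ∧ 3 * (Ind T U).ncard ≤ ℓ))
    (f : Q →* G) (hf : Function.Injective f) (hr : f.range = U) (hab : ∀ a b : Q, a * b = b * a)
    (hp : IsPGroup ℓ Q) (E : Subgroup (MulAut Q))
    (hE : ∀ a ∈ E, ∃ t ∈ T, ∀ q : Q, f (a q) = t * f q * t⁻¹) : LP ℓ Q E := by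
  have : Finite Q := Finite.of_injective f hf
  rcases gn with ⟨x, y, hxy⟩ | ⟨h5, h3⟩
  · exact Or.inl (GU.H68.r2_of (ℓ := ℓ) f hf x y (hr.trans hxy) hab hp)
  · have : Finite (MulAut Q) := Finite.of_injective (fun a : MulAut Q => (a : Q → Q))
      (fun a b h => MulEquiv.ext fun x => congrFun h x)
    exact Or.inr ⟨h5, inferInstance,
      (Nat.mul_le_mul_left 3 (card_le_ind T U f hf hr E hE)).trans h3⟩

theorem clb : ClbStmt := by
  intro sry msu ℓ hℓ G _ _ T V hV hpV hab E hcop hE s Y U h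
  -- stable subgroups
  have hst : ∀ Z : Subgroup G, (∀ t ∈ T, ∀ z ∈ Z, t * z * t⁻¹ ∈ Z) →
      ∀ a ∈ E, ∀ z ∈ Z.subgroupOf V, a z ∈ Z.subgroupOf V := by
    intro Z hZ a ha z hz
    obtain ⟨t, ht, hta⟩ := hE a ha
    rw [Subgroup.mem_subgroupOf, hta]
    exact hZ t ht z (Subgroup.mem_subgroupOf.1 hz)
  have hYV : ∀ i, Y i ≤ V := fun i => (le_iSup Y i).trans (le_sup_left.trans h.jn.le)
  have hUV : U ≤ V := le_sup_right.trans h.jn.le
  have hPV : (⨆ i, Y i) ≤ V := le_sup_left.trans h.jn.le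
  -- generators
  have hgen : ∀ i, ∃ y : V, y ∈ (Y i).subgroupOf V ∧ ∀ x ∈ (Y i).subgroupOf V, ∃ k : ℤ,
      x = y ^ k := by
    intro i
    obtain ⟨y, hy, hgen⟩ := h.cy i
    refine ⟨⟨y, hYV i hy⟩, Subgroup.mem_subgroupOf.2 hy, fun x hx => ?_⟩
    obtain ⟨k, hk⟩ := hgen x (Subgroup.mem_subgroupOf.1 hx)
    exact ⟨k, Subtype.ext (by rw [Subgroup.coe_zpow]; exact hk)⟩
  -- `E` is commutative on the product of the cyclic factors
  have hcmP : ∀ a ∈ E, ∀ b ∈ E, ∀ v ∈ (⨆ i, Y i).subgroupOf V,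
      a (b v) = b (a v) := by
    intro a ha b hb v hv
    obtain ⟨Z, hZ⟩ : ∃ Z : Subgroup V, ∀ v, v ∈ Z ↔ a (b v) = b (a v) :=
      ⟨MonoidHom.eqLocus (a * b : MulAut V).toMonoidHom (b * a : MulAut V).toMonoidHom,
        fun v => Iff.rfl⟩
    have h1 : (⨆ i, Y i) ≤ Z.map V.subtype := by
      refine iSup_le fun i => ?_
      intro x hx
      refine ⟨⟨x, hYV i hx⟩, ?_, rfl⟩
      obtain ⟨y, hy, hg⟩ := hgen i
      obtain ⟨k, hk⟩ := hg ⟨x, hYV i hx⟩ (Subgroup.mem_subgroupOf.2 hx)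
      obtain ⟨m, hm⟩ := hg _ (hst _ (h.sy i) a ha y hy)
      obtain ⟨n, hn⟩ := hg _ (hst _ (h.sy i) b hb y hy)
      have e1 : a (b y) = b (a y) := by
        rw [hm, hn, map_zpow, map_zpow, hm, hn, ← zpow_mul, ← zpow_mul, mul_comm]
      rw [SetLike.mem_coe, hZ, hk, map_zpow, map_zpow, map_zpow, map_zpow, e1]
    obtain ⟨w, hw, hwv⟩ := h1 (Subgroup.mem_subgroupOf.1 hv)
    have h2 : w = v := Subtype.ext hwv
    rw [← h2]
    exact (hZ w).1 hw
  by_cases hU : U = ⊥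
  · -- `V = P`
    have hP : (⨆ i, Y i) = V := by
      have h1 := h.jn
      rwa [hU, sup_bot_eq] at h1
    have hEc : ∀ a ∈ E, ∀ b ∈ E, ∀ v : V, a (b v) = b (a v) := by
      intro a ha b hb v
      refine hcmP a ha b hb v (Subgroup.mem_subgroupOf.2 ?_)
      rw [hP]
      exact v.2
    have hne : ∃ v : V, v ≠ 1 := by
      by_contra hc
      push Not at hc
      apply hV
      rw [eq_bot_iff]
      intro x hx
      have h1 := hc ⟨x, hx⟩
      rw [Subgroup.mem_bot]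
      exact congrArg Subtype.val h1
    obtain ⟨W', h1⟩ := msu V (E) hne hEc
    refine ⟨W', Or.inl ⟨hab, ?_, W', ⊥, h1⟩⟩
    intro a ha b hb v
    rw [hEc a ha b hb v, mul_inv_cancel]
    exact one_mem W'
  by_cases hP : (⨆ i, Y i) = ⊥
  · -- `V = U`
    have h2 : U = V := by
      have h3 := h.jn
      rwa [hP, bot_sup_eq] at h3
    refine ⟨⊤, Or.inr (Or.inl ⟨rfl, ?_, ?_⟩)⟩
    · intro h4
      apply hV
      rw [eq_bot_iff]
      intro x hx
      have h5 : (⟨x, hx⟩ : V) ∈ (⊤ : Subgroup V) := trivial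
      rw [h4, Subgroup.mem_bot] at h5
      rw [Subgroup.mem_bot]
      exact congrArg Subtype.val h5
    · refine lp_of (ℓ := ℓ) T U h.gn V.subtype V.subtype_injective ?_ hab hpV E hE
      rw [V.range_subtype, h2]
  -- the series
  have hfr : ∀ i, (Y i).subgroupOf V ≠ ⊥ → ∀ a ∈ E, (∀ y ∈ (Y i).subgroupOf V, a y = y) →
      ∀ u ∈ U.subgroupOf V, u ≠ 1 → a u = u → ∀ x ∈ U.subgroupOf V, a x = x := by
    intro i hi a ha hfix u hu hu1 hfu x hx
    obtain ⟨t, ht, hta⟩ := hE a ha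
    have h0 : Y i ≠ ⊥ := by
      rintro h0
      apply hi
      rw [h0]
      exact Subgroup.bot_subgroupOf V
    have h7 : t * (u : G) * t⁻¹ = u := by
      rw [← hta]
      exact congrArg Subtype.val hfu
    have h8 : ∀ y ∈ Y i, t * y = y * t := by
      intro y hy
      have h9 : t * y * t⁻¹ = y := by
        have h12 := hta ⟨y, hYV i hy⟩
        rw [hfix ⟨y, hYV i hy⟩ (Subgroup.mem_subgroupOf.2 hy)] at h12
        exact h12.symm
      exact mul_inv_eq_iff_eq_mul.1 h9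
    have h10 := h.fr i h0 t ht h8 u (Subgroup.mem_subgroupOf.1 hu)
      (fun h0 => hu1 (Subtype.ext h0)) (mul_inv_eq_iff_eq_mul.1 h7)
    apply Subtype.ext
    rw [hta]
    have h11 : (x : G) * t = t * x :=
      (Subgroup.mem_centralizer_iff.1 h10) x (Subgroup.mem_subgroupOf.1 hx)
    rw [← h11, mul_inv_cancel_right]
  have hD : ∀ n : ℕ, n ≤ s →
      (∀ a ∈ E, ∀ v ∈ (⨆ j : Fin s, ⨆ (_ : (j : ℕ) < n), Y j).subgroupOf V,
        a v ∈ (⨆ j : Fin s, ⨆ (_ : (j : ℕ) < n), Y j).subgroupOf V) ∧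
      Sr ℓ (E) (U.subgroupOf V) ⊥
        ((⨆ j : Fin s, ⨆ (_ : (j : ℕ) < n), Y j).subgroupOf V) := by
    intro n
    induction n with
    | zero =>
      intro _
      have h0 : (⨆ j : Fin s, ⨆ (_ : (j : ℕ) < 0), Y j) = ⊥ := by
        rw [eq_bot_iff]
        refine iSup_le fun j => iSup_le fun hj => ?_
        omega
      rw [h0, Subgroup.bot_subgroupOf]
      refine ⟨?_, Relation.ReflTransGen.refl⟩
      intro a _ v hv
      rw [Subgroup.mem_bot] at hv ⊢
      rw [hv, map_one]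
    | succ n ih =>
      intro hn
      have h0 : (⨆ j : Fin s, ⨆ (_ : (j : ℕ) < n + 1), Y j) =
          (⨆ j : Fin s, ⨆ (_ : (j : ℕ) < n), Y j) ⊔ Y ⟨n, hn⟩ := by
        apply le_antisymm
        · refine iSup_le fun j => iSup_le fun hj => ?_
          rcases Nat.lt_or_ge (j : ℕ) n with h1 | h1
          · exact (le_iSup₂ (f := fun (j : Fin s) (_ : (j : ℕ) < n) => Y j) j h1).trans
              le_sup_left
          · have h2 : j = ⟨n, hn⟩ := Fin.ext (by show (j : ℕ) = n; omega)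
            rw [h2]
            exact le_sup_right
        · refine sup_le ?_ ?_
          · refine iSup_le fun j => iSup_le fun hj => ?_
            exact le_iSup₂_of_le j (Nat.lt_succ_of_lt hj) le_rfl
          · exact le_iSup₂_of_le (⟨n, hn⟩ : Fin s) (Nat.lt_succ_self n) le_rfl
      have hle : (⨆ j : Fin s, ⨆ (_ : (j : ℕ) < n), Y j) ≤ V :=
        iSup_le fun j => iSup_le fun _ => hYV j
      obtain ⟨ih1, ih2⟩ := ih (by omega)
      rw [h0, Subgroup.subgroupOf_sup hle (hYV _)]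
      have hdis : (⨆ j : Fin s, ⨆ (_ : (j : ℕ) < n), Y j).subgroupOf V ⊓
          (Y ⟨n, hn⟩).subgroupOf V = ⊥ := by
        rw [eq_bot_iff]
        rintro ⟨x, hxV⟩ ⟨hx1, hx2⟩
        have h3 : x ∈ Y ⟨n, hn⟩ ⊓ (⨆ j, ⨆ (_ : j < (⟨n, hn⟩ : Fin s)), Y j) :=
          ⟨Subgroup.mem_subgroupOf.1 hx2, Subgroup.mem_subgroupOf.1 hx1⟩
        rw [h.dy, Subgroup.mem_bot] at h3
        rw [Subgroup.mem_bot]
        exact Subtype.ext h3
      let _ : CommGroup V := { (inferInstance : Group V) with mul_comm := hab }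
      refine ⟨?_, Relation.ReflTransGen.trans ih2 ?_⟩
      · intro a ha v hv
        obtain ⟨c, hc, z, hz, rfl⟩ := Subgroup.mem_sup.1 hv
        rw [map_mul]
        exact Subgroup.mul_mem_sup (ih1 a ha c hc) (hst _ (h.sy _) a ha z hz)
      · obtain ⟨y, hy, hg⟩ := hgen ⟨n, hn⟩
        exact sry ℓ V (E) (U.subgroupOf V) _ _ hℓ.out hpV hcop ih1
          (hst _ (h.sy _)) ⟨y, hy, hg⟩ hdis (hfr _)
  obtain ⟨hD1, hD2⟩ := hD s le_rfl
  have hall : (⨆ j : Fin s, ⨆ (_ : (j : ℕ) < s), Y j) = ⨆ i, Y i := by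
    apply le_antisymm
    · exact iSup_le fun j => iSup_le fun _ => le_iSup Y j
    · refine iSup_le fun j => ?_
      exact le_iSup₂_of_le j j.2 le_rfl
  rw [hall] at hD1 hD2
  rcases Relation.ReflTransGen.cases_head hD2 with h0 | ⟨W₀, hW1, hW2⟩
  · exact absurd h0.symm (GU.H3.so_ne hPV hP)
  refine ⟨W₀, Or.inr (Or.inr ⟨(⨆ i, Y i).subgroupOf V, U.subgroupOf V, ?_⟩)⟩
  refine ⟨hab, hcmP, hW1, hW2, hst U h.su, GU.H3.so_ne hUV hU, ?_, ?_, ?_⟩
  · rw [eq_bot_iff]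
    rintro ⟨z, hzV⟩ ⟨hz1, hz2⟩
    have h3 : z ∈ (⨆ i, Y i) ⊓ U :=
      ⟨Subgroup.mem_subgroupOf.1 hz1, Subgroup.mem_subgroupOf.1 hz2⟩
    rw [h.du, Subgroup.mem_bot] at h3
    rw [Subgroup.mem_bot]
    exact Subtype.ext h3
  · rw [← Subgroup.subgroupOf_sup hPV hUV, h.jn, Subgroup.subgroupOf_self]
  · refine lp_of (ℓ := ℓ) T U h.gn (V.subtype.comp (U.subgroupOf V).subtype)
      (V.subtype_injective.comp (U.subgroupOf V).subtype_injective) ?_ ?_
      (hpV.to_subgroup _) _ ?_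
    · rw [MonoidHom.range_comp, Subgroup.range_subtype, Subgroup.subgroupOf_map_subtype,
        inf_eq_left.mpr hUV]
    · intro a b
      exact Subtype.ext (hab a b)
    · rintro a' ⟨a, ha, haa⟩
      obtain ⟨t, ht, hta⟩ := hE a ha
      refine ⟨t, ht, fun q => ?_⟩
      have h1 : ((a' q : U.subgroupOf V) : V) = a q := haa q
      show (((a' q : U.subgroupOf V) : V) : G) = t * ((q : V) : G) * t⁻¹
      rw [h1, hta]

end Pool.Agent.HFC.H81
end
end -- Pool.Agent.Helper81_HFC.CLB
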