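import Pool.Agent.Helper12_AWB.B037
import Pool.Agent.Helper12_AWB.B043
import Pool.Agent.Helper12_AWB.B298
import Pool.Agent.Helper12_AWB.B300

/-!
# Merged copies (generated) of the modules

* `Pool.Agent.Helper66_PFD.Top`
* `Pool.Agent.Helper92_PFD.CYB`
* `Pool.Agent.Helper66_PFD.Asm`
-/

set_option autoImplicit false

section -- Pool.Agent.Helper66_PFD.Top

/-!
# Squad PFD: the junctions of the blocks D3, D4, D6 (`MeqStmt`) and of D5 (`KxeStmt`)
-/

open scoped BigOperators

noncomputable section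

namespace Pool.Agent.PFD.H66

open Pool.Agent.Helper51_AWC Pool.Agent.Helper79_WRA Pool.Agent.PP Pool.Agent.PP.KF
open Pool.Agent.PP.K9 Pool.Agent.PP.K9.H97 Pool.Agent.PP.H75 Pool.Agent.PP.T3 Pool.Agent.PP.T2
open Pool.Agent.PFC (PIn PMid Ctf ls Cz PmzStmt)

attribute [local instance] Ideal.Quotient.field

theorem meq (wit : Pool.Agent.PFD.D3.WitStmt) (box : Pool.Agent.PFD.D3.BoxStmt)
    (txt : Pool.Agent.PFD.D6.TxtStmt) (m : Pool.Agent.PFD.D4.MeqStmt) :
    MeqStmt := by
  intro F V E A _ _ _ _ _ _ _ _ ℓ _ φ W α hc hp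
  have : Fact ℓ.Prime := ⟨hc.pr⟩
  obtain ⟨z, ⟨X⟩⟩ := txt F V E A ℓ φ W α hc hp
  obtain ⟨c, ⟨o⟩⟩ := wit ℓ F
  obtain ⟨U, hU, hs⟩ := hc.cmp
  have hnt : ∃ u ∈ U, u ≠ 1 := by
    by_contra h
    push Not at h
    have h1 : U = ⊥ := (Subgroup.eq_bot_iff_forall U).2 h
    obtain ⟨u, hu⟩ := hc.nt
    have h2 := hU.sup_eq_top
    rw [h1, bot_sup_eq] at h2
    exact hu (h2 ▸ Subgroup.mem_top u)
  have hC : CtW ℓ φ U W := by
    refine ⟨hc.pr, hc.pg, inferInstance, hc.cop, hs, hc.stab, hU.inf_eq_bot, hU.sup_eq_top, hnt, ?_⟩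
    intro e u hu h
    rcases hc.free e u h with h1 | h1
    · exact Or.inl h1
    · refine Or.inr ?_
      have h2 : u ∈ U ⊓ W := ⟨hu, h1⟩
      rw [hU.inf_eq_bot] at h2
      exact Subgroup.mem_bot.1 h2
  obtain ⟨Γ, _, _, _, _, ⟨B⟩⟩ := box (WittVector ℓ F) F V E ℓ c o φ U W z hC
  exact ⟨z, m (WittVector ℓ F) F V E A Γ ℓ c o φ W z B X hc.stab⟩

theorem kxe (keg : KegStmt) (trn : TrnStmt) : KxeStmt := by
  intro ℓ hℓ M hMm hM G _ _ e V γ hL U W hS
  obtain ⟨V', E, i1, i2, i3, i4, ι, φ, h1, h2, h3, h4, h5, h6⟩ :=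
    keg ℓ M hM G e V γ hL U W hS
  rw [h6]
  exact trn (FF M) G V γ V' E ι φ h1 h2 h3 h4 h5

end Pool.Agent.PFD.H66
end
end -- Pool.Agent.Helper66_PFD.Top

section -- Pool.Agent.Helper92_PFD.CYB

/-!
# Squad PFD: row CYB (helper92)

A finite commutative group `H` which acts on a finite commutative group with a stable subgroup
`U ≠ 1` on which the action is free, of coprime order, is cyclic: take a maximal ideal of `ℤ[H]`
which contains the annihilator of `U`; for `g ≠ 1` the element `1 + g + .. + g ^ (n - 1)` kills `U`,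
so `g` is not one in the residue field.
-/

open scoped BigOperators

noncomputable section

namespace Pool.Agent.PFD.H92

open Pool.Agent.PFC (Ctf)

section cyc

variable {V H : Type} [CommGroup V] [CommGroup H]

/-- the action on the additive group -/
def act (φ : H →* MulAut V) : H →* AddMonoid.End (Additive V) where
  toFun h := MonoidHom.toAdditive (φ h).toMonoidHom
  map_one' := by
    ext v
    show Additive.ofMul (φ 1 (Additive.toMul v)) = v
    rw [map_one]
    rfl
  map_mul' a b := by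
    ext v
    show Additive.ofMul (φ (a * b) (Additive.toMul v)) =
      Additive.ofMul (φ a (φ b (Additive.toMul v)))
    rw [map_mul]
    rfl

/-- the action of the group ring -/
def actR (φ : H →* MulAut V) : MonoidAlgebra ℤ H →ₐ[ℤ] AddMonoid.End (Additive V) :=
  MonoidAlgebra.lift ℤ (AddMonoid.End (Additive V)) H (act φ)

/-- the annihilator of `U` -/
def ann (φ : H →* MulAut V) (U : Subgroup V) : Ideal (MonoidAlgebra ℤ H) where
  carrier := {r | ∀ u ∈ U, actR φ r (Additive.ofMul u) = 0}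
  add_mem' := fun {a b} ha hb u hu => by
    rw [map_add]
    show actR φ a (Additive.ofMul u) + actR φ b (Additive.ofMul u) = 0
    rw [ha u hu, hb u hu, add_zero]
  zero_mem' := fun u _ => by
    rw [map_zero]
    rfl
  smul_mem' := fun c a ha u hu => by
    rw [smul_eq_mul, map_mul]
    show actR φ c (actR φ a (Additive.ofMul u)) = 0
    rw [ha u hu, map_zero]

theorem end_sum {A : Type} [AddCommGroup A] {ι : Type} (s : Finset ι) (F : ι → AddMonoid.End A)
    (x : A) : (∑ i ∈ s, F i) x = ∑ i ∈ s, F i x := by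
  classical
  induction s using Finset.induction_on with
  | empty => rfl
  | insert a s ha ih =>
    rw [Finset.sum_insert ha, Finset.sum_insert ha, ← ih]
    rfl

theorem cyc [Finite V] [Finite H] (φ : H →* MulAut V) (U : Subgroup V) (hU : U ≠ ⊥)
    (hst : ∀ h, ∀ u ∈ U, φ h u ∈ U) (hfree : ∀ h, ∀ u ∈ U, φ h u = u → h = 1 ∨ u = 1)
    (hcop : Nat.Coprime (Nat.card H) (Nat.card V)) : IsCyclic H := by
  have hne : ann φ U ≠ ⊤ := by
    intro h
    have h1 : (1 : MonoidAlgebra ℤ H) ∈ ann φ U := by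
      rw [h]
      exact Submodule.mem_top
    apply hU
    rw [Subgroup.eq_bot_iff_forall]
    intro u hu
    have h2 := h1 u hu
    rw [map_one] at h2
    exact h2
  obtain ⟨m, hm, hle⟩ := Ideal.exists_le_maximal _ hne
  have hprime : m.IsPrime := hm.isPrime
  let π := Ideal.Quotient.mk m
  let χ : H →* (MonoidAlgebra ℤ H ⧸ m) := (π : MonoidAlgebra ℤ H →* _).comp
    (MonoidAlgebra.of ℤ H)
  have hχ : ∀ h, χ h = π (MonoidAlgebra.of ℤ H h) := fun h => rfl
  refine isCyclic_of_injective_ringHom χ ?_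
  rw [injective_iff_map_eq_one]
  intro g hg
  by_contra hg1
  -- the order of `g` vanishes in the residue field
  have hN : (∑ i ∈ Finset.range (orderOf g), MonoidAlgebra.of ℤ H (g ^ i)) ∈ ann φ U := by
    intro u hu
    rw [map_sum, end_sum]
    have h1 : ∀ h : H, actR φ (MonoidAlgebra.of ℤ H h) (Additive.ofMul u) =
        Additive.ofMul (φ h u) := fun h => by
      unfold actR
      rw [MonoidAlgebra.lift_of]
      rfl
    have h2 : ∑ i ∈ Finset.range (orderOf g),
        actR φ (MonoidAlgebra.of ℤ H (g ^ i)) (Additive.ofMul u) =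
        Additive.ofMul (∏ i ∈ Finset.range (orderOf g), φ (g ^ i) u) := by
      rw [ofMul_prod]
      exact Finset.sum_congr rfl fun i _ => h1 _
    rw [h2]
    have h3 : φ g (∏ i ∈ Finset.range (orderOf g), φ (g ^ i) u) =
        ∏ i ∈ Finset.range (orderOf g), φ (g ^ i) u := by
      rw [map_prod]
      have h4 : ∀ i, φ g (φ (g ^ i) u) = φ (g ^ (i + 1)) u := fun i => by
        rw [pow_succ', map_mul]
        rfl
      rw [Finset.prod_congr rfl fun i _ => h4 i]
      have h5 := Finset.prod_range_succ' (fun i => φ (g ^ i) u) (orderOf g)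
      have h6 := Finset.prod_range_succ (fun i => φ (g ^ i) u) (orderOf g)
      rw [h6] at h5
      have h7 : φ (g ^ orderOf g) u = φ (g ^ 0) u := by rw [pow_orderOf_eq_one, pow_zero]
      simp only [h7] at h5
      exact (mul_right_cancel h5).symm
    have h8 : (∏ i ∈ Finset.range (orderOf g), φ (g ^ i) u) ∈ U :=
      Subgroup.prod_mem _ fun i _ => hst _ _ hu
    rcases hfree g _ h8 h3 with h9 | h9
    · exact absurd h9 hg1
    · rw [h9]
      rfl
  have h1 : ((orderOf g : ℕ) : MonoidAlgebra ℤ H ⧸ m) = 0 := by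
    have h2 := Ideal.Quotient.eq_zero_iff_mem.2 (hle hN)
    rw [map_sum] at h2
    have h3 : ∀ i ∈ Finset.range (orderOf g), (Ideal.Quotient.mk m)
        (MonoidAlgebra.of ℤ H (g ^ i)) = 1 := fun i _ => by
      rw [map_pow, map_pow]
      have h4 : (Ideal.Quotient.mk m) (MonoidAlgebra.of ℤ H g) = 1 := hg
      rw [h4, one_pow]
    rw [Finset.sum_congr rfl h3, Finset.sum_const, Finset.card_range, nsmul_eq_mul,
      mul_one] at h2
    exact h2
  -- the order of `V` vanishes in the residue field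
  have h2 : ((Nat.card V : ℕ) : MonoidAlgebra ℤ H ⧸ m) = 0 := by
    have h3 : ((Nat.card V : ℕ) : MonoidAlgebra ℤ H) ∈ ann φ U := by
      intro u hu
      rw [map_natCast]
      show (Nat.card V) • (Additive.ofMul u) = 0
      rw [← ofMul_pow, pow_card_eq_one']
      rfl
    have h4 := Ideal.Quotient.eq_zero_iff_mem.2 (hle h3)
    rwa [map_natCast] at h4
  have h3 : Nat.Coprime (orderOf g) (Nat.card V) :=
    Nat.Coprime.coprime_dvd_left (orderOf_dvd_natCard g) hcop
  obtain ⟨a, b, hab⟩ := (Nat.isCoprime_iff_coprime.2 h3)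
  have h4 : ((a * (orderOf g : ℤ) + b * (Nat.card V : ℤ) : ℤ) : MonoidAlgebra ℤ H ⧸ m) = 1 := by
    rw [hab, Int.cast_one]
  rw [Int.cast_add, Int.cast_mul, Int.cast_mul, Int.cast_natCast, Int.cast_natCast, h1, h2,
    mul_zero, mul_zero, add_zero] at h4
  exact zero_ne_one h4

end cyc

section coc

variable {F E : Type} [CommRing F] [Group E] (z : Coc F E)

theorem coc_mul (x y y' : E) (h1 : x * y = y * x) (h2 : x * y' = y' * x)
    (c1 : z.c x y = z.c y x) (c2 : z.c x y' = z.c y' x) :
    z.c x (y * y') = z.c (y * y') x := by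
  have a1 := z.coc x y y'
  have a2 := z.coc y y' x
  have a3 := z.coc y x y'
  rw [h1] at a1
  rw [← h2] at a2
  -- a1 : c x y * c (y x) y' = c y y' * c x (y y')
  -- a2 : c y y' * c (y y') x = c y' x * c y (x y')
  -- a3 : c y x * c (y x) y' = c x y' * c y (x y')
  rw [← c1, a1, c2, ← a2] at a3
  exact mul_left_cancel a3

theorem coc_pow (x y : E) (h : x * y = y * x) (c : z.c x y = z.c y x) (n : ℕ) :
    z.c x (y ^ n) = z.c (y ^ n) x := by
  induction n with
  | zero => rw [pow_zero, z.one_left, z.one_right]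
  | succ n ih =>
    rw [pow_succ]
    exact coc_mul z x (y ^ n) y (Commute.pow_right h n) h ih c

end coc

theorem cyb : CybStmt := by
  intro F V E _ _ _ _ _ ℓ φ W z hc e f hef
  classical
  obtain ⟨U, hUW, hUst⟩ := hc.cmp
  -- the commutative group generated by `e` and `f`
  have hcomm : ∀ x ∈ ({e, f} : Set E), ∀ y ∈ ({e, f} : Set E), x * y = y * x := by
    intro x hx y hy
    rcases hx with rfl | hx <;> rcases hy with rfl | hy
    · rfl
    · rw [Set.mem_singleton_iff] at hy
      rw [hy, hef]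
    · rw [Set.mem_singleton_iff] at hx
      rw [hx, hef]
    · rw [Set.mem_singleton_iff] at hx hy
      rw [hx, hy]
  let H := Subgroup.closure ({e, f} : Set E)
  have hmc : IsMulCommutative H := Subgroup.isMulCommutative_closure hcomm
  let iH : CommGroup H := { (inferInstance : Group H) with
    mul_comm := fun a b => hmc.is_comm.comm a b }
  have hU : U ≠ ⊥ := by
    intro h
    obtain ⟨u, hu⟩ := hc.nt
    have h1 : W = ⊤ := by
      have h2 := hUW.sup_eq_top
      rwa [h, bot_sup_eq] at h2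
    rw [h1] at hu
    exact hu (Subgroup.mem_top u)
  have hcop : Nat.Coprime (Nat.card H) (Nat.card V) := by
    have hfact : Fact ℓ.Prime := ⟨hc.pr⟩
    obtain ⟨n, hn⟩ := (IsPGroup.iff_card (p := ℓ) (G := V)).1 hc.pg
    rw [hn]
    refine Nat.Coprime.pow_right n ?_
    rw [Nat.coprime_comm, Nat.Prime.coprime_iff_not_dvd hc.pr]
    exact fun h => hc.cop (h.trans (Subgroup.card_subgroup_dvd_card H))
  have hcyc : @IsCyclic H iH.toGroup.toDivInvMonoid.toPow := by
    refine @cyc V H _ iH _ _ (φ.comp H.subtype) U hU (fun h u hu => hUst _ u hu)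
      (fun h u hu hfix => ?_) hcop
    rcases hc.free (h : E) u hfix with h1 | h1
    · exact Or.inl (Subtype.ext h1)
    · right
      have h2 : u ∈ U ⊓ W := ⟨hu, h1⟩
      rw [hUW.inf_eq_bot] at h2
      exact Subgroup.mem_bot.1 h2
  obtain ⟨g, hg⟩ := hcyc
  have hpow : ∀ x : H, ∃ n : ℕ, (x : E) = (g : E) ^ n := fun x => by
    obtain ⟨n, hn⟩ := (mem_powers_iff_mem_zpowers).2 (hg x)
    exact ⟨n, by rw [← hn]; rfl⟩
  obtain ⟨a, ha⟩ := hpow ⟨e, Subgroup.subset_closure (Set.mem_insert e {f})⟩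
  obtain ⟨b, hb⟩ := hpow ⟨f, Subgroup.subset_closure
    (Set.mem_insert_of_mem e (Set.mem_singleton f))⟩
  have ha' : e = (g : E) ^ a := ha
  have hb' : f = (g : E) ^ b := hb
  rw [ha', hb']
  refine coc_pow z _ _ (Commute.pow_left (Commute.refl _) a) ?_ b
  exact (coc_pow z (g : E) (g : E) rfl rfl a).symm

end Pool.Agent.PFD.H92
end
end -- Pool.Agent.Helper92_PFD.CYB

section -- Pool.Agent.Helper66_PFD.Asm

/-!
# Squad PFD: assembly of the final theorem

`kal_ : KalStmt`: the theorem for algebras; `keg_ : KegStmt`: blocks with an inertial index which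
acts freely have the same number of ordinary characters as their Brauer correspondents;
`leq_ : LeqStmt`: the number of modular characters of a block; `mny_ : MnyStmt`: the alternating
sums; `fnd_ : FndStmt`, `fne_ : FneStmt`: the final theorem.
-/

noncomputable section

namespace Pool.Agent.PFD.H66

open Pool.Agent.PP

theorem kal_ : KalStmt :=
  kal (meq H52.wit D3.H18.box D6.H79.txt_top H36.meq) (H49k.kct H92.cyb)

theorem keg_ : KegStmt := keg pbx_ pmz_ kal_

theorem leq_ : LeqStmt := leq_of keg_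

theorem mny_ : MnyStmt := mny_of keg_

theorem fnd_ : FndStmt := fnd_of keg_

theorem fne_ : FneStmt := fne_of keg_

theorem fin_ : FinStmt := fin_of keg_

end Pool.Agent.PFD.H66
end
end -- Pool.Agent.Helper66_PFD.Asm
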