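import Pool.Agent.Helper12_AWB.B190
import Pool.Agent.Helper12_AWB.B191
import Pool.Agent.Helper12_AWB.B193
import Pool.Agent.Helper12_AWB.B299
import Pool.Agent.Helper12_AWB.B301
import Pool.Agent.Helper12_AWB.B303

/-!
# Merged copies (generated) of the modules

* `Pool.Agent.Helper66_PSS.AsmS5`
* `Pool.Agent.Helper66_PSS.Asm`
-/

set_option autoImplicit false

section -- Pool.Agent.Helper66_PSS.AsmS5

/-!
# Squad PSS, block S5: assembly (`bas_ : BasStmt` without hypotheses)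
-/

noncomputable section

namespace Pool.Agent.PSS.H66

open Pool.Agent.PSS.S5 Pool.Agent.PSS.S5.H18

theorem s5_fit : FitStmt := S5.H20.fit

theorem s5_pcx : PcxStmt := S5.H84.pcx s5_fit

theorem s5_zsm : ZsmStmt := H10.zsm

theorem s5_zcf : ZcfStmt := S5.H85.zcf

theorem s5_coe : CoeStmt := H68.coe

theorem s5_nak : NakStmt := S5.H44.nak

theorem s5_mdv : MdvStmt := S5.H95.mdv

theorem s5_ryn : RynStmt := S5.H70.ryn

theorem s5_leq : LeqStmt := S5.H55.leq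

theorem s5_lsu : LsuStmt := S5.H1.lsu bki_

theorem s5_lcn : LcnStmt := S5.H80.lcn

theorem s5_lbr : LbrStmt := S5.H13.lbr s5_leq bbk_

theorem s5_rtn : RtnStmt := S5.H97.rtn dfr_ drf_ rfu_ qor_

theorem s5_rbk : RbkStmt := S5.H32.rbk s5_rtn

theorem s5_bpt : BptStmt := H68.bpt s5_rbk s5_fit zrt_ bki_

theorem s5_bor : BorStmt := S5.H7.bor s5_bpt s5_leq s5_lsu s5_lcn mck_ bpu_ bqx_

theorem s5_stb : StbStmt := H37.stb s5_bor s5_lbr s5_lcn s5_pcx bcl_ bqx_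

theorem s5_sgn : SgnStmt := S5.H81.sgn

theorem s5_tpl : TplStmt := H37.tpl s5_sgn s5_nak

theorem s5_tpj : TpjStmt := S5.H6.tpj s5_tpl s5_lbr mck_ bpu_ bqx_ zrt_

theorem s5_rfj : RfjStmt := S5.H94.rfj dfr_ drf_

theorem s5_clj : CljStmt := clj s5_stb s5_tpj s5_rfj

theorem s5_rdl : RdlStmt := rdl s5_pcx s5_zsm s5_zcf s5_coe s5_bpt s5_rtn cnw s5_clj

theorem s5_lcq : LcqStmt := S5.H39.lcq bpu_ bbk_

theorem s5_lnp : LnpStmt := S5.H39.lnp nfp_ dfr_ nfd_ drf_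

theorem s5_lns : LnsStmt := H46.lns nfr_ frb_

theorem s5_lnt : LntStmt := H5.lnt frb_

theorem s5_lnl : LnlStmt := S5.H62.lnl s5_lnp s5_lnt s5_nak

theorem s5_lnw : LnwStmt := S5.H29.lnw s5_lnp s5_lns s5_lnl

theorem s5_nqt : NqtStmt :=
  S5.H77T.nqt S5.H23.nqa (S5.H77.nqf frb_) S5.H70.Nqp.nqp S5.H8.nqr S5.H19.nqs S5.H8.nqb

theorem s5_nzs : NzsStmt := S5.H8.nzs bqx_ bpu_ mck_

theorem s5_ndm : NdmStmt := H10.ndm (S5.H8.ndl PFC.H41.dim) s5_mdv

theorem s5_kln : KlnStmt := S5.H83.kln S5.H83.lcp PFD.H66.pmz_ PFD.H66.kal_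

theorem s5_nil : NilStmt := nil s5_lcq s5_nqt S5.H53.lqx s5_kln s5_nzs s5_ryn s5_ndm bqx_

theorem s5_lkc : LkcStmt := H10.lkc s5_lcq s5_nil S5.H53.lqx bqx_

theorem s5_lkn : LknStmt := S5.H29.lkn s5_kln s5_lkc

/-- the base case -/
theorem bas_ : BasStmt := bas s5_rdl s5_lkn s5_lnw S5.H27.von H10.frc

end Pool.Agent.PSS.H66
end
end -- Pool.Agent.Helper66_PSS.AsmS5

section -- Pool.Agent.Helper66_PSS.Asm

/-!
# Squad PSS: theorem (S), without hypotheses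

`ats_ : AtsStmt` (the theorem for algebras), `sto_ : StoStmt` (the numbers of the ordinary characters of
the blocks), `fns_ : FnsStmt` (the final theorem).
-/

noncomputable section

namespace Pool.Agent.PSS.H66

theorem ats_ : AtsStmt := ats All.stp bas_

theorem sto_ : StoStmt := AllS6.stoalg_ ats_

theorem fns_ : FnsStmt := fns_of H11.len_ sto_

end Pool.Agent.PSS.H66
end
end -- Pool.Agent.Helper66_PSS.Asm
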