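import Pool.Agent.Helper12_AWB.B199
import Pool.Agent.Helper12_AWB.B286
import Pool.Agent.Helper12_AWB.B304

/-!
# Merged copies (generated) of the modules

* `Pool.Agent.Helper21_PSS.RTV`
* `Pool.Agent.Helper25_PSS.LRN`
* `Pool.Agent.Helper44_PSS.SNL`
* `Pool.Agent.Helper49_PSS.BSR`
* `Pool.Agent.Helper86_PSS.SGX`
* `Pool.Agent.Helper3_PST.AsmR`
-/

set_option autoImplicit false

section -- Pool.Agent.Helper21_PSS.RTV

/-!
# Row pss:RTV, the property of theorem (R) is invariant under isomorphisms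
-/

namespace Pool.Agent.PSS.BR.H21

open Pool.Agent.PSS.S5

theorem rtv : RtvStmt := by
  intro V U E _ _ _ φ ψ W s h hP
  obtain ⟨hp, U0, hc, hne, hW, hU, hT⟩ := hP
  have hs : ∀ (Y : Subgroup V) (u : U), u ∈ Y.comap s.toMonoidHom ↔ s u ∈ Y := fun Y u => Iff.rfl
  refine ⟨?_, U0.comap s.toMonoidHom, ⟨?_, ?_⟩, ?_, ?_, ?_, ?_⟩
  · have e : Nat.card (W.comap s.toMonoidHom) = Nat.card W :=
      Nat.card_congr (s.toEquiv.subtypeEquiv (fun u => hs W u))
    rw [e]
    exact hp
  · rw [Subgroup.disjoint_def]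
    intro x hx hx'
    have h1 := Subgroup.disjoint_def.1 hc.1 ((hs W x).1 hx) ((hs U0 x).1 hx')
    exact s.injective (by rw [h1, map_one])
  · rw [codisjoint_iff, eq_top_iff]
    intro x _
    have h1 : s x ∈ W ⊔ U0 := by
      rw [codisjoint_iff.1 hc.2]
      trivial
    obtain ⟨w, hw, u, hu, hwu⟩ := Subgroup.mem_sup.1 h1
    refine Subgroup.mem_sup.2 ⟨s.symm w, ?_, s.symm u, ?_, ?_⟩
    · rw [hs, s.apply_symm_apply]
      exact hw
    · rw [hs, s.apply_symm_apply]
      exact hu
    · rw [← map_mul, hwu, s.symm_apply_apply]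
  · intro h0
    apply hne
    rw [eq_bot_iff]
    intro v hv
    have h1 : s.symm v ∈ U0.comap s.toMonoidHom := by
      rw [hs, s.apply_symm_apply]
      exact hv
    rw [h0, Subgroup.mem_bot] at h1
    rw [Subgroup.mem_bot]
    have h2 := congrArg s h1
    rwa [s.apply_symm_apply, map_one] at h2
  · intro e w hw
    rw [hs] at hw ⊢
    rw [h]
    exact hW e _ hw
  · intro e u hu
    rw [hs] at hu ⊢
    rw [h]
    exact hU e _ hu
  · intro e hw u hu hu1 hfix
    have h1 : φ e = 1 := by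
      refine hT e (fun w hwW => ?_) (s u) ((hs U0 u).1 hu) ?_ ?_
      · have h2 := hw (s.symm w) (by rw [hs, s.apply_symm_apply]; exact hwW)
        have h3 := h e (s.symm w)
        rw [h2, s.apply_symm_apply] at h3
        exact h3.symm
      · intro h2
        exact hu1 (s.injective (by rw [h2, map_one]))
      · rw [← h, hfix]
    ext x
    have h2 := h e x
    rw [h1] at h2
    exact s.injective h2

end Pool.Agent.PSS.BR.H21
end -- Pool.Agent.Helper21_PSS.RTV

section -- Pool.Agent.Helper25_PSS.LRN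

/-! Squad PSS, row LRN: the dimension formula for the algebras in `Lc` (assembly). -/

noncomputable section

namespace Pool.Agent.PSS.BR.H25

open Pool.Agent.PFC (Cz Lcq)
open Pool.Agent.PFE (SG Nt It Tr tj Ctn)
open Pool.Agent.PSS.S5

theorem lrn (hlcp : LcpStmt) (hlkc : LkcStmt) (hrin : Pool.Agent.PFE.RinStmt) : LrnStmt := by
  intro ℓ _ F V C A S S0 _ _ _ _ _ _ _ _ _ _ _ _ _ _ E' α W U _ θ q q0 hW h1 h2 h3 h4 h5 h6 h7
    h8 h9 h10
  classical
  haveI : Finite (MulAut V) :=
    Finite.of_injective (fun e : MulAut V => (e : V → V)) (fun a b h => MulEquiv.ext (congrFun h))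
  haveI : Fintype E' := Fintype.ofFinite E'
  refine hrin ℓ F V E' A W C S S0 E'.subtype (fun Q => ¬ Q ≤ W ∧ ¬ Q ≤ U) α W.subtype U θ q q0
    h4 ?_ hW Subtype.val_injective ?_ ?_ h3 ?_ ?_ h5 ?_ h9 h10
  · refine hlcp ℓ F V E' A E'.subtype α _ h4.pg h8 ?_
    intro Q hQ
    refine hlkc ℓ F V E' A E'.subtype α Q h4.pg h8 ?_
    intro e he
    rw [h4.cf Q hQ e he, map_one]
  · rw [Subgroup.range_subtype]; exact h1
  · rw [Subgroup.range_subtype]; exact h2
  · exact fun c => h6 c
  · exact fun e => h7 e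
  · intro Q hQ
    rw [Subgroup.range_subtype]
    by_contra hc
    push Not at hc
    exact hQ hc

end Pool.Agent.PSS.BR.H25
end
end -- Pool.Agent.Helper25_PSS.LRN

section -- Pool.Agent.Helper44_PSS.SNL

/-! Squad PSS (MP_6a3f1a_al), row SNL (helper44): elements fixed by `V1` are traces. -/

set_option autoImplicit false

open scoped BigOperators

noncomputable section

namespace Pool.Agent.PSS.BR.H44

open Pool.Agent.PSS

theorem sum_cos {G W : Type} [Group G] [Group W] [Fintype W] (ι : W →* G)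
    (hι : Function.Injective ι) [Fintype G] [Fintype (G ⧸ ι.range)]
    {N : Type} [AddCommMonoid N] (f : G → N) :
    ∑ q : G ⧸ ι.range, ∑ w : W, f (q.out * ι w) = ∑ g, f g := by
  rw [← Fintype.sum_prod_type']
  refine Fintype.sum_bijective (fun x : (G ⧸ ι.range) × W => x.1.out * ι x.2) ?_ _ _
    fun x => rfl
  have hmk : ∀ x : (G ⧸ ι.range) × W, ((x.1.out * ι x.2 : G) : G ⧸ ι.range) = x.1 := by
    intro x
    rw [QuotientGroup.mk_mul_of_mem _ (⟨x.2, rfl⟩ : ι x.2 ∈ ι.range)]
    exact QuotientGroup.out_eq' _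
  constructor
  · intro x y hxy
    have h1 : x.1 = y.1 := by
      rw [← hmk x, ← hmk y]
      exact congrArg _ hxy
    have h2 : x.2 = y.2 := by
      apply hι
      have h3 : x.1.out * ι x.2 = y.1.out * ι y.2 := hxy
      rw [h1] at h3
      exact mul_left_cancel h3
    exact Prod.ext h1 h2
  · intro g
    have h1 : ((g : G ⧸ ι.range).out)⁻¹ * g ∈ ι.range := by
      rw [← QuotientGroup.eq]
      exact QuotientGroup.out_eq' _
    obtain ⟨w, hw⟩ := h1
    refine ⟨((g : G ⧸ ι.range), w), ?_⟩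
    change (g : G ⧸ ι.range).out * ι w = g
    rw [hw, mul_inv_cancel_left]

theorem snl : SnlStmt := by
  intro F V V1 B K _ _ _ _ _ _ _ _ α i lam x y hi hRF b hb
  classical
  have := Fintype.ofFinite (V ⧸ i.range)
  obtain ⟨g, hg⟩ : ∃ g : V → B, g = fun v =>
      ∑ k, lam (b * (x k * α v)) • (α v⁻¹ * y k) := ⟨_, rfl⟩
  have hgv : ∀ v, g v = ∑ k, lam (b * (x k * α v)) • (α v⁻¹ * y k) := fun v => by rw [hg]
  have hbs : b = ∑ v, g v := by
    have h1 := hRF.e2 b
    rw [Finset.sum_comm] at h1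
    rw [hg]
    exact h1.symm
  have hgu : ∀ (v : V) (u : V1), g (v * i u) = α (i u⁻¹) * g v := by
    intro v u
    rw [hgv, hgv, Finset.mul_sum]
    refine Finset.sum_congr rfl fun k _ => ?_
    have e1 : lam (b * (x k * α (v * i u))) = lam (b * (x k * α v)) := by
      have e2 : b * (x k * α (v * i u)) = b * (x k * α v) * α (i u) := by
        rw [map_mul]
        simp only [mul_assoc]
      rw [e2, hRF.sym, ← mul_assoc, hb]
    have e3 : α (v * i u)⁻¹ * y k = α (i u⁻¹) * (α v⁻¹ * y k) := by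
      rw [mul_inv_rev, map_mul, mul_assoc, map_inv i]
    rw [e1, e3, mul_smul_comm]
  refine ⟨∑ q : V ⧸ i.range, g q.out, ?_⟩
  conv_lhs => rw [hbs]
  rw [← sum_cos i hi g]
  have h1 : ∀ q : V ⧸ i.range, ∑ w : V1, g (q.out * i w) = ∑ w : V1, α (i w) * g q.out := by
    intro q
    rw [Finset.sum_congr rfl fun w _ => hgu q.out w]
    exact Fintype.sum_equiv (Equiv.inv V1) _ _ fun w => rfl
  rw [Finset.sum_congr rfl fun q _ => h1 q, Finset.sum_comm]
  refine Finset.sum_congr rfl fun w _ => ?_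
  rw [Finset.mul_sum]

end Pool.Agent.PSS.BR.H44
end
end -- Pool.Agent.Helper44_PSS.SNL

section -- Pool.Agent.Helper49_PSS.BSR

/-!
# Squad PSS: BSR, theorem (R) as a base case (helper49, assembly)
-/

open scoped BigOperators

noncomputable section

namespace Pool.Agent.PSS.BR.H49

open Pool.Agent.PFE (SG)

theorem bsr (rct : RctStmt) (sgx : SgxStmt) (snw : SnwStmt) (lrn : LrnStmt) (rdl : S5.RdlStmt)
    (lnw : S5.LnwStmt) : BsrStmt := by
  intro ℓ _ F V E A B _ _ _ _ _ _ _ _ _ _ _ φ α W hP hE hR hA hN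
  have hst : ∀ e : E, ∀ w ∈ W, φ e w ∈ W := by
    obtain ⟨-, U, -, -, h, -⟩ := hR
    exact h
  refine rdl ℓ F V E A B φ α W hP hE hst hA hN ?_
  intro E' Y Y' _ _ _ _ αY hE' hLc NY
  classical
  obtain ⟨hcard, U, hinf, hsup, hU, hC, C, _, _, _, θ, hθ1, hθ2, hθ3⟩ :=
    rct ℓ V E φ W E' hP hE hR hE'
  obtain ⟨S, _, _, q, hq⟩ := sgx F V W C Y αY W.subtype θ
  obtain ⟨S0, _, _, q0, hq0⟩ := sgx F V W Unit Y αY W.subtype (1 : Unit →* MulAut W)
  have hst' : ∀ e : E', ∀ w ∈ W, E'.subtype e w ∈ W := by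
    intro e w hw
    obtain ⟨x, hx⟩ := hE' e.2
    have h1 : E'.subtype e w = φ x w := by
      rw [hx]
      rfl
    rw [h1]
    exact hst x w hw
  have hLc' := lnw ℓ F V E' Y Y' E'.subtype αY W NY hP hst' hLc
  obtain ⟨lam, K, _, x, y, hrf, -⟩ := hLc'.frm
  have key : ∀ (W' : Subgroup V), W' = W → ∃ N' : IsNW F αY W' Y', N'.nwh = NY.nwh := by
    intro W' h
    subst h
    exact ⟨NY, rfl⟩
  obtain ⟨N', hN'⟩ := key W.subtype.range (Subgroup.range_subtype W)
  rw [← hN'] at hrf
  obtain ⟨q', hq'⟩ := snw ℓ F V W C Y S Y' K αY W.subtype θ q N' lam x y hcard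
    (Subgroup.subtype_injective W) hrf hq
  obtain ⟨q0', hq0'⟩ := snw ℓ F V W Unit Y S0 Y' K αY W.subtype 1 q0 N' lam x y hcard
    (Subgroup.subtype_injective W) hrf hq0
  rw [hN'] at hq' hq0'
  rw [lrn ℓ F V C Y S S0 E' αY W U θ q q0 hcard hinf hsup hU hC hθ1 hθ2 hθ3 hLc hq hq0,
    lrn ℓ F V C Y' S S0 E' NY.nwh W U θ q' q0' hcard hinf hsup hU hC hθ1 hθ2 hθ3 hLc' hq' hq0']

end Pool.Agent.PSS.BR.H49
end
end -- Pool.Agent.Helper49_PSS.BSR

section -- Pool.Agent.Helper86_PSS.SGX

/-! PSS, row SGX: the graded algebra `S(A)` exists. -/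

set_option autoImplicit false

open scoped BigOperators

noncomputable section

namespace Pool.Agent.PSS.H86

open Pool.Agent.PFE (SG Nt It Tr tj)

variable {F V V1 C A : Type} [Field F] [CommGroup V] [CommGroup V1] [Fintype V1]
  [CommGroup C] [Fintype C] [Ring A] [Algebra F A]

section

variable (twl : PFE.S.TwlStmt) (α : V →* A) (i : V1 →* V) (θ : C →* MulAut V1)

include twl

theorem N_mul {c d : C} {a b : A} (ha : a ∈ Nt F α i (θ c)) (hb : b ∈ Nt F α i (θ d)) :
    a * b ∈ Nt F α i (θ (c * d)) := by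
  have h := (twl.1 F V V1 A α i).2.1 (θ c) (θ d) a b ha hb
  rwa [← map_mul, mul_comm d c] at h

theorem N_one : (1 : A) ∈ Nt F α i (θ 1) := by
  rw [map_one]
  exact (twl.1 F V V1 A α i).2.2.1

theorem I_mulL {c d : C} {a b : A} (ha : a ∈ Nt F α i (θ c)) (hb : b ∈ It F α i (θ d)) :
    a * b ∈ It F α i (θ (c * d)) := by
  have h1 : It F α i (θ d) ≤ (It F α i (θ (c * d))).comap (LinearMap.mulLeft F a) := by
    apply Submodule.span_le.2
    rintro x (⟨m, rfl⟩ | ⟨v, m, hm, rfl⟩)
    · change a * Tr F α i (θ d) m ∈ It F α i (θ (c * d))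
      have h := (twl.1 F V V1 A α i).2.2.2.2.2.1 (θ c) (θ d) a m ha
      rw [← map_mul, mul_comm d c] at h
      rw [h]
      exact Submodule.subset_span (Or.inl ⟨_, rfl⟩)
    · change a * (α (i v) * m - m) ∈ It F α i (θ (c * d))
      have h := ((twl.1 F V V1 A α i).1 (θ c) a).1 ha ((θ c)⁻¹ v)
      have h2 : (θ c) ((θ c)⁻¹ v) = v := by
        rw [← MulAut.mul_apply, mul_inv_cancel, MulAut.one_apply]
      rw [h2] at h
      have h3 : a * (α (i v) * m - m) = α (i ((θ c)⁻¹ v)) * (a * m) - a * m := by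
        rw [mul_sub, ← mul_assoc, ← h, mul_assoc]
      rw [h3]
      exact Submodule.subset_span (Or.inr ⟨_, _, N_mul twl α i θ ha hm, rfl⟩)
  exact h1 hb

theorem I_mulR {c d : C} {a b : A} (ha : a ∈ It F α i (θ c)) (hb : b ∈ Nt F α i (θ d)) :
    a * b ∈ It F α i (θ (c * d)) := by
  have h1 : It F α i (θ c) ≤ (It F α i (θ (c * d))).comap (LinearMap.mulRight F b) := by
    apply Submodule.span_le.2
    rintro x (⟨m, rfl⟩ | ⟨v, m, hm, rfl⟩)
    · change Tr F α i (θ c) m * b ∈ It F α i (θ (c * d))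
      have h := (twl.1 F V V1 A α i).2.2.2.2.2.2 (θ c) (θ d) m b hb
      rw [← map_mul, mul_comm d c] at h
      rw [h]
      exact Submodule.subset_span (Or.inl ⟨_, rfl⟩)
    · change (α (i v) * m - m) * b ∈ It F α i (θ (c * d))
      rw [sub_mul, mul_assoc]
      exact Submodule.subset_span (Or.inr ⟨_, _, N_mul twl α i θ hm hb, rfl⟩)
  exact h1 ha

/-- the subalgebra of the graded elements -/
def gsb : Subalgebra F (MonoidAlgebra A C) where
  carrier := {f | ∀ c, f.coeff c ∈ Nt F α i (θ c)}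
  mul_mem' := by
    classical
    intro f g hf hg ε
    rw [MonoidAlgebra.coeff_mul]
    refine Submodule.sum_mem _ fun x _ => Submodule.sum_mem _ fun y _ => ?_
    dsimp only
    split_ifs with h
    · rw [← h]
      exact N_mul twl α i θ (hf x) (hg y)
    · exact Submodule.zero_mem _
  one_mem' := by
    classical
    intro ε
    rw [MonoidAlgebra.one_def, MonoidAlgebra.coeff_single, Finsupp.single_apply]
    split_ifs with h
    · rw [← h]
      exact N_one twl α i θ
    · exact Submodule.zero_mem _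
  add_mem' := by
    intro f g hf hg ε
    rw [MonoidAlgebra.coeff_add, Finsupp.add_apply]
    exact Submodule.add_mem _ (hf ε) (hg ε)
  zero_mem' := by
    intro ε
    exact Submodule.zero_mem _
  algebraMap_mem' := by
    classical
    intro r ε
    rw [Algebra.algebraMap_eq_smul_one, MonoidAlgebra.coeff_smul, Finsupp.smul_apply,
      MonoidAlgebra.one_def, MonoidAlgebra.coeff_single, Finsupp.single_apply]
    refine Submodule.smul_mem _ _ ?_
    split_ifs with h
    · rw [← h]
      exact N_one twl α i θ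
    · exact Submodule.zero_mem _

/-- the ideal of the elements with components in the kernels -/
def gid : Ideal (gsb (F := F) twl α i θ) where
  carrier := {f | ∀ c, f.1.coeff c ∈ It F α i (θ c)}
  add_mem' := by
    intro f g hf hg ε
    change (f.1 + g.1).coeff ε ∈ _
    rw [MonoidAlgebra.coeff_add, Finsupp.add_apply]
    exact Submodule.add_mem _ (hf ε) (hg ε)
  zero_mem' := by
    intro ε
    exact Submodule.zero_mem _
  smul_mem' := by
    classical
    intro f g hg ε
    change (f.1 * g.1).coeff ε ∈ _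
    rw [MonoidAlgebra.coeff_mul]
    refine Submodule.sum_mem _ fun x _ => Submodule.sum_mem _ fun y _ => ?_
    dsimp only
    split_ifs with h
    · rw [← h]
      exact I_mulL twl α i θ (f.2 x) (hg y)
    · exact Submodule.zero_mem _

theorem gid_two : (gid (F := F) twl α i θ).IsTwoSided := by
  classical
  constructor
  intro f g hf ε
  change (f.1 * g.1).coeff ε ∈ _
  rw [MonoidAlgebra.coeff_mul]
  refine Submodule.sum_mem _ fun x _ => Submodule.sum_mem _ fun y _ => ?_
  dsimp only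
  split_ifs with h
  · rw [← h]
    exact I_mulR twl α i θ (hf x) (g.2 y)
  · exact Submodule.zero_mem _

/-- the element `a` in degree `c` -/
def gsi (c : C) : Nt F α i (θ c) →ₗ[F] gsb (F := F) twl α i θ where
  toFun := fun a => ⟨MonoidAlgebra.single c (a : A), by
    classical
    intro δ
    rw [MonoidAlgebra.coeff_single, Finsupp.single_apply]
    split_ifs with h
    · rw [← h]
      exact a.2
    · exact Submodule.zero_mem _⟩
  map_add' := by
    intro a b
    apply Subtype.ext
    exact MonoidAlgebra.single_add _ _ _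
  map_smul' := by
    intro r a
    apply Subtype.ext
    exact (MonoidAlgebra.smul_single _ _ _).symm

theorem gsm (f : ∀ c : C, Nt F α i (θ c)) (δ : C) :
    (∑ c, gsi twl α i θ c (f c)).1.coeff δ = f δ := by
  classical
  have h1 : (∑ c, gsi twl α i θ c (f c)).1 = ∑ c, MonoidAlgebra.single c (f c : A) := by
    rw [AddSubmonoidClass.coe_finsetSum]
    rfl
  rw [h1]
  have h2 : (∑ c, MonoidAlgebra.single c (f c : A)).coeff δ =
      ∑ c, (MonoidAlgebra.single c (f c : A)).coeff δ := by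
    rw [MonoidAlgebra.coeff_sum, Finsupp.finsetSum_apply]
  rw [h2, Finset.sum_eq_single δ]
  · rw [MonoidAlgebra.coeff_single, Finsupp.single_eq_same]
  · intro ε _ h
    rw [MonoidAlgebra.coeff_single, Finsupp.single_apply, if_neg h]
  · intro h
    exact (h (Finset.mem_univ δ)).elim

end

/-- SGX -/
theorem sgx (twl : PFE.S.TwlStmt) : BR.SgxStmt := by
  classical
  intro F V V1 C A _ _ _ _ _ _ _ _ α i θ
  have := gid_two (F := F) twl α i θ
  have hex : ∀ c : C, ∃ q : A →ₗ[F] (gsb (F := F) twl α i θ ⧸ gid (F := F) twl α i θ),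
      q.comp (Nt F α i (θ c)).subtype =
        (Ideal.Quotient.mkₐ F (gid (F := F) twl α i θ)).toLinearMap.comp (gsi twl α i θ c) :=
    fun c => LinearMap.exists_extend _
  choose q hq using hex
  have key : ∀ (c : C) (a : A) (ha : a ∈ Nt F α i (θ c)),
      q c a = Ideal.Quotient.mk (gid (F := F) twl α i θ) (gsi twl α i θ c ⟨a, ha⟩) := by
    intro c a ha
    have h := LinearMap.congr_fun (hq c) ⟨a, ha⟩
    exact h
  refine ⟨gsb (F := F) twl α i θ ⧸ gid (F := F) twl α i θ, inferInstance, inferInstance, q, ?_⟩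
  refine
    { sur := ?_
      ker := ?_
      mul := ?_
      one := ?_ }
  · intro x
    obtain ⟨f, rfl⟩ := Ideal.Quotient.mk_surjective x
    refine ⟨fun c => f.1.coeff c, f.2, ?_⟩
    rw [Finset.sum_congr rfl (fun c _ => key c _ (f.2 c)), ← map_sum]
    refine congrArg _ (Subtype.ext ?_)
    apply MonoidAlgebra.coeff_injective
    ext c
    rw [gsm twl α i θ (fun c => ⟨f.1.coeff c, f.2 c⟩)]
  · intro a ha
    rw [Finset.sum_congr rfl (fun c _ => key c _ (ha c)), ← map_sum,
      Ideal.Quotient.eq_zero_iff_mem]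
    constructor
    · intro h c
      have h2 := h c
      rwa [gsm] at h2
    · intro h c
      rw [gsm]
      exact h c
  · intro c d a ha b hb
    rw [key c a ha, key d b hb, key (c * d) (a * b) (N_mul twl α i θ ha hb), ← map_mul]
    refine congrArg _ (Subtype.ext ?_)
    change MonoidAlgebra.single (c * d) (a * b) =
      MonoidAlgebra.single c a * MonoidAlgebra.single d b
    rw [MonoidAlgebra.single_mul_single]
  · rw [key 1 1 (N_one twl α i θ)]
    exact map_one (Ideal.Quotient.mk (gid (F := F) twl α i θ))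

end Pool.Agent.PSS.H86
end
end -- Pool.Agent.Helper86_PSS.SGX

section -- Pool.Agent.Helper3_PST.AsmR

/-!
# Squad PST, block GU: theorem (R) as a base case, without hypotheses

`bsr_ : BR.BsrStmt` (the base case), `atr_ : AtgStmt BR.Rtp` (the theorem for algebras).
-/

noncomputable section

namespace Pool.Agent.PST.GU.H3

open Pool.Agent.PSS Pool.Agent.PSS.BR

theorem lrn_ : LrnStmt := BR.H25.lrn S5.H83.lcp PSS.H66.s5_lkc PFE.H3.rin_

theorem bsr_ : BsrStmt :=
  BR.H49.bsr Pool.Agent.Helper10.PSS.RCT.rct (PSS.H86.sgx PFE.H56.twl) (BR.H49.snw BR.H44.snl)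
    lrn_ PSS.H66.s5_rdl PSS.H66.s5_lnw

theorem atr_ : AtgStmt Rtp := atg Rtp BR.H21.rtv PSS.All.stp bsr_

end Pool.Agent.PST.GU.H3
end
end -- Pool.Agent.Helper3_PST.AsmR
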