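import Pool.Agent.Helper12_AWB.B304

/-!
# Merged copies (generated) of the modules

* `Pool.Agent.Helper20_PST.REB`
* `Pool.Agent.Helper27_PST.MSU`
* `Pool.Agent.Helper69_PST.FNP`
* `Pool.Agent.Helper85_PST.REA`
* `Pool.Agent.Helper92_PST.ECB`
* `Pool.Agent.PST.AllGS`
-/

set_option autoImplicit false

section -- Pool.Agent.Helper20_PST.REB

/-!
# Squad PST, block GS, row REB: regular elements in the class `KP`
-/

set_option autoImplicit false

noncomputable section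

open scoped BigOperators

namespace Pool.Agent.PST.H20

open Pool.Agent.PSS

/-- roots of an order prime to the order of the group -/
theorem rootc {ℓ : ℕ} {V : Type} [CommGroup V] [Finite V] (hℓ : ℓ.Prime) (hV : IsPGroup ℓ V)
    (P : Subgroup V) (n : ℕ) (hn : ¬ ℓ ∣ n) (v : V) (hv : v ∈ P) : ∃ u ∈ P, u ^ n = v := by
  have hf : Fact ℓ.Prime := ⟨hℓ⟩
  obtain ⟨s, hs⟩ := IsPGroup.iff_card.1 (hV.to_subgroup P)
  have hc : (Nat.card P).Coprime n := by
    rw [hs]
    exact ((Nat.Prime.coprime_iff_not_dvd hℓ).2 hn).pow_left s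
  obtain ⟨u, hu⟩ := (Nat.Coprime.pow_left_bijective hc).surjective ⟨v, hv⟩
  exact ⟨u.1, u.2, congrArg Subtype.val hu⟩

/-- the elements of `E` which are trivial on `P / W` -/
def Kpw {V : Type} [CommGroup V] (E : Subgroup (MulAut V)) (P W : Subgroup V)
    (hW : ∀ a ∈ E, ∀ w ∈ W, a w ∈ W) (hP : ∀ a ∈ E, ∀ w ∈ P, a w ∈ P) :
    Subgroup (MulAut V) where
  carrier := {a | a ∈ E ∧ ∀ v ∈ P, a v * v⁻¹ ∈ W}
  one_mem' := ⟨E.one_mem, fun v _ => by
    rw [MulAut.one_apply, mul_inv_cancel]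
    exact W.one_mem⟩
  mul_mem' := by
    rintro a b ⟨ha, ha2⟩ ⟨hb, hb2⟩
    refine ⟨E.mul_mem ha hb, fun v hv => ?_⟩
    have h1 : (a * b) v * v⁻¹ = a (b v * v⁻¹) * (a v * v⁻¹) := by
      rw [MulAut.mul_apply, map_mul, map_inv, mul_assoc, inv_mul_cancel_left]
    rw [h1]
    exact W.mul_mem (hW a ha _ (hb2 v hv)) (ha2 v hv)
  inv_mem' := by
    rintro a ⟨ha, ha2⟩
    refine ⟨E.inv_mem ha, fun v hv => ?_⟩
    have h1 := ha2 (a⁻¹ v) (hP _ (E.inv_mem ha) v hv)
    rw [MulAut.apply_inv_self] at h1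
    have h2 := W.inv_mem h1
    rw [mul_inv_rev, inv_inv] at h2
    exact h2

/-- row REB -/
theorem reb (rea : ReaStmt) : RebStmt := by
  intro ℓ V iV ifV E W U X P hℓ hpg hE hF hcm hWP hP
  have hWst : ∀ a ∈ E, ∀ w ∈ W, a w ∈ W := by
    intro a ha w hw
    rw [← hF.uw] at hw ⊢
    obtain ⟨y, hy, z, hz, rfl⟩ := Subgroup.mem_sup.1 hw
    rw [map_mul]
    exact Subgroup.mem_sup.2 ⟨a y, hF.su a ha y hy, a z, hF.sx a ha z hz, rfl⟩
  have hUW : U ≤ W := by
    rw [← hF.uw]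
    exact le_sup_left
  obtain ⟨K, hKdef⟩ : ∃ K, K = Kpw E P W hWst hP := ⟨_, rfl⟩
  have hK : ∀ a, a ∈ K ↔ (a ∈ E ∧ ∀ v ∈ P, a v * v⁻¹ ∈ W) := by
    intro a
    rw [hKdef]
    exact Iff.rfl
  have hKE : K ≤ E := fun a ha => ((hK a).1 ha).1
  have hnorm : ∀ a ∈ E, ∀ k ∈ K, a⁻¹ * k * a ∈ K := by
    intro a ha k hk
    obtain ⟨hk1, hk2⟩ := (hK k).1 hk
    refine (hK _).2 ⟨E.mul_mem (E.mul_mem (E.inv_mem ha) hk1) ha, fun v hv => ?_⟩
    have h1 := hWst _ (E.inv_mem ha) _ (hk2 (a v) (hP a ha v hv))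
    rw [map_mul, map_inv, MulAut.inv_apply_self] at h1
    rw [MulAut.mul_apply, MulAut.mul_apply]
    exact h1
  let Q : Subgroup V :=
    { carrier := {v | v ∈ P ∧ ∀ k ∈ K, k v = v}
      one_mem' := ⟨P.one_mem, fun k _ => map_one k⟩
      mul_mem' := by
        rintro x y ⟨hx, hx2⟩ ⟨hy, hy2⟩
        exact ⟨P.mul_mem hx hy, fun k hk => by rw [map_mul, hx2 k hk, hy2 k hk]⟩
      inv_mem' := by
        rintro x ⟨hx, hx2⟩
        exact ⟨P.inv_mem hx, fun k hk => by rw [map_inv, hx2 k hk]⟩ }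
  have hQ : ∀ v, v ∈ Q ↔ (v ∈ P ∧ ∀ k ∈ K, k v = v) := fun v => Iff.rfl
  have hQst : ∀ a ∈ E, ∀ u ∈ Q, a u ∈ Q := by
    intro a ha v hv
    obtain ⟨hv1, hv2⟩ := (hQ v).1 hv
    refine (hQ _).2 ⟨hP a ha v hv1, fun k hk => ?_⟩
    have h1 := congrArg a (hv2 _ (hnorm a ha k hk))
    rw [MulAut.mul_apply, MulAut.mul_apply, MulAut.apply_inv_self] at h1
    exact h1
  have hQcm : ∀ a ∈ E, ∀ b ∈ E, ∀ v ∈ Q, a (b v) = b (a v) := by
    intro a ha b hb v hv
    obtain ⟨hv1, hv2⟩ := (hQ v).1 hv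
    have hba : b * a ∈ E := E.mul_mem hb ha
    have hk : (b * a)⁻¹ * (a * b) ∈ K := by
      refine (hK _).2 ⟨E.mul_mem (E.inv_mem hba) (E.mul_mem ha hb), fun w hw => ?_⟩
      have h1 := hWst _ (E.inv_mem hba) _ (hcm a ha b hb w)
      rw [map_mul, map_inv] at h1
      have h2 : (b * a)⁻¹ (b (a w)) = w := MulAut.inv_apply_self _ (b * a) w
      rw [h2] at h1
      rw [MulAut.mul_apply, MulAut.mul_apply]
      exact h1
    have h3 := hv2 _ hk
    rw [MulAut.mul_apply] at h3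
    have h4 := congrArg (b * a) h3
    rw [MulAut.apply_inv_self] at h4
    exact h4
  have hnK : ¬ ℓ ∣ Nat.card K := fun h => hE (h.trans (Subgroup.card_dvd_of_le hKE))
  have hPQ : ∀ v ∈ P, ∃ x ∈ Q, ∃ w ∈ W, v = x * w := by
    intro v hv
    have hfM : Finite (MulAut V) := Finite.of_injective (fun f : MulAut V => (f : V → V))
      DFunLike.coe_injective
    have iK : Fintype K := Fintype.ofFinite K
    obtain ⟨u, hu, huv⟩ := rootc hℓ hpg P (Nat.card K) hnK v hv
    obtain ⟨x, hx⟩ : ∃ x : V, x = ∏ k : K, k.1 u := ⟨_, rfl⟩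
    have hxQ : x ∈ Q := by
      refine (hQ x).2 ⟨?_, fun k hk => ?_⟩
      · rw [hx]
        exact P.prod_mem fun k _ => hP k.1 (hKE k.2) u hu
      · rw [hx, map_prod]
        exact Fintype.prod_equiv (Equiv.mulLeft (⟨k, hk⟩ : K)) _ _ fun y => rfl
    have hxW : x * v⁻¹ ∈ W := by
      have h1 : x * v⁻¹ = ∏ k : K, (k.1 u * u⁻¹) := by
        rw [Finset.prod_mul_distrib, ← hx, Finset.prod_const, Finset.card_univ,
          ← Nat.card_eq_fintype_card, inv_pow, huv]
      rw [h1]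
      exact W.prod_mem fun k _ => ((hK k.1).1 k.2).2 u hu
    refine ⟨x, hxQ, x⁻¹ * v, ?_, by rw [mul_inv_cancel_left]⟩
    have h2 := W.inv_mem hxW
    rw [mul_inv_rev, inv_inv, mul_comm] at h2
    exact h2
  obtain ⟨q, hq, hqr⟩ := rea ℓ V E Q hℓ hpg hE hQst hQcm
  by_cases hA : ∀ k ∈ K, ∀ w ∈ W, k w = w
  · refine ⟨q, ((hQ q).1 hq).1, fun a ha haq w hw => ?_⟩
    obtain ⟨x, hx, y, hy, rfl⟩ := hPQ w hw
    have hyQ : y ∈ Q := (hQ y).2 ⟨hWP hy, fun k hk => hA k hk y hy⟩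
    rw [map_mul, hqr a ha haq x hx, hqr a ha haq y hyQ]
  · push Not at hA
    obtain ⟨k, hk, w0, hw0, hkw⟩ := hA
    have hQU : ∀ x ∈ Q, x ∈ U → x = 1 := by
      intro x hx hxU
      by_contra hne
      exact hkw (hF.fr k (hKE hk) x hxU hne (((hQ x).1 hx).2 k hk) w0 hw0)
    obtain ⟨u0, hu0, hu1⟩ : ∃ u ∈ U, u ≠ 1 := by
      by_contra hcon
      push Not at hcon
      exact hF.nt ((Subgroup.eq_bot_iff_forall U).2 hcon)
    refine ⟨q * u0, P.mul_mem ((hQ q).1 hq).1 (hWP (hUW hu0)), fun a ha hau w hw => ?_⟩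
    rw [map_mul] at hau
    have h1 : q⁻¹ * a q = u0 * (a u0)⁻¹ := by
      rw [eq_mul_inv_iff_mul_eq, mul_assoc, hau, inv_mul_cancel_left]
    have h2 : q⁻¹ * a q = 1 := hQU _ (Q.mul_mem (Q.inv_mem hq) (hQst a ha q hq)) (by
      rw [h1]
      exact U.mul_mem hu0 (U.inv_mem (hF.su a ha u0 hu0)))
    have h3 : a q = q := (inv_mul_eq_one.1 h2).symm
    have h4 : a u0 = u0 := by
      rw [h1] at h2
      exact (mul_inv_eq_one.1 h2).symm
    obtain ⟨x, hx, y, hy, rfl⟩ := hPQ w hw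
    rw [map_mul, hqr a ha h3 x hx, hF.fr a ha u0 hu0 hu1 h4 y hy]

end Pool.Agent.PST.H20
end
end -- Pool.Agent.Helper20_PST.REB

section -- Pool.Agent.Helper27_PST.MSU

set_option autoImplicit false

namespace Pool.Agent.PST.H27

open Pool.Agent.PSS

theorem msu : MsuStmt := by
  intro V _ _ E hV hc
  obtain ⟨v₀, hv₀⟩ := hV
  let S : Set (Subgroup V) := {W | W ≠ ⊥ ∧ ∀ a ∈ E, ∀ u ∈ W, a u ∈ W}
  have hS : S.Nonempty := by
    refine ⟨⊤, fun h => hv₀ ?_, fun a _ u _ => Subgroup.mem_top _⟩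
    have h1 : v₀ ∈ (⊥ : Subgroup V) := h ▸ Subgroup.mem_top v₀
    exact Subgroup.mem_bot.1 h1
  obtain ⟨W, hW, hmin⟩ := (wellFounded_lt (α := Subgroup V)).has_min S hS
  refine ⟨W, ⟨inf_bot_eq W, sup_bot_eq W, hW.1, hW.2, fun a _ x hx => ?_, ?_⟩⟩
  · rw [Subgroup.mem_bot.1 hx, map_one]
    exact Subgroup.one_mem _
  · intro a ha u hu hu1 hau w hw
    let C : Subgroup V :=
      { carrier := {v | v ∈ W ∧ a v = v}
        mul_mem' := fun {x y} hx hy => ⟨W.mul_mem hx.1 hy.1, by rw [map_mul, hx.2, hy.2]⟩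
        one_mem' := ⟨W.one_mem, map_one a⟩
        inv_mem' := fun {x} hx => ⟨W.inv_mem hx.1, by rw [map_inv, hx.2]⟩ }
    have hCW : C ≤ W := fun x hx => hx.1
    have hCS : C ∈ S := by
      refine ⟨fun h => hu1 ?_, fun b hb v hv => ⟨hW.2 b hb v hv.1, ?_⟩⟩
      · have h1 : u ∈ C := ⟨hu, hau⟩
        rw [h] at h1
        exact Subgroup.mem_bot.1 h1
      · rw [hc a ha b hb v, hv.2]
    have h1 : C = W := by
      by_contra hne
      exact hmin C hCS (lt_of_le_of_ne hCW hne)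
    have h2 : w ∈ C := h1 ▸ hw
    exact h2.2

end Pool.Agent.PST.H27
end -- Pool.Agent.Helper27_PST.MSU

section -- Pool.Agent.Helper69_PST.FNP

/-!
# Squad PST, row FNP: the final theorem (edit of `Helper21_PST/FNT.lean`)
-/

open scoped BigOperators

set_option autoImplicit false

noncomputable section

namespace Pool.Agent.PST.H69

open Pool.Agent.Helper51_AWC Pool.Agent.Helper79_WRA Pool.Agent.PP Pool.Agent.PP.KF
open Pool.Agent.PP.K9 Pool.Agent.PP.K9.H97 Pool.Agent.PP.H75 Pool.Agent.PP.T3 Pool.Agent.PP.T2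
open Pool.Agent.PSS

attribute [local instance] Ideal.Quotient.field

theorem fnp (hMnn : MnnFor KP) (hClp : ClpStmt) (hF : T3.FltStmt) (hP : T3.PsgStmt) :
    FnpStmt := by
  intro ℓ hfact M _ hM G _ _ hc χ hχ H _ p hp hpk ψ hψ hψχ D hD hDO hab θ hθ hC
  have hℓ := hfact.out
  have hGF : GoodF ℓ (FF M) := H50.fld ℓ hℓ M hM
  have hfH : Finite H := Finite.of_surjective p hp
  obtain ⟨e, he, h1, h2⟩ := H50.bid ℓ hℓ M hM G χ hχ
  have hn : (opCore ℓ G).Normal := H75.opCore_normal (A := G) ℓ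
  have hOp : IsPGroup ℓ (opCore ℓ G) := H75.opCore_isPGroup hℓ
  -- the block of `H`
  have hkp : IsPGroup ℓ p.ker := hOp.to_le hpk
  have hkc : p.ker ≤ Subgroup.center G := hpk.trans hc
  have hb : IsBlk (push p e) := hP ℓ (FF M) hGF G H p hp hkc hkp e he
  have hlab : labF M (fun x => ψ (p x)) = labF M χ := by
    funext g
    exact (red_eq_iff (omega_integral _ (H3.irr_infl hp hψ) g) (omega_integral _ hχ g)).2
      (hψχ g)
  have hr : res M (push p e) ψ = 1 := by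
    rw [H3.res_push hp he.1.1 hψ, H50.res_of_lab hlab e]
    exact h1
  obtain ⟨γ, hγ, hTg⟩ := hF ℓ M hM H ψ hψ (push p e) hb hr D hD hab θ hθ
  rw [← hTg] at hC
  -- the quotient by the image of `O_ℓ(G)`
  have hcO : (opCore ℓ G).map p ≤ Subgroup.center H := by
    rintro _ ⟨x, hx, rfl⟩
    rw [Subgroup.mem_center_iff]
    intro y
    obtain ⟨g, rfl⟩ := hp y
    rw [← map_mul, ← map_mul, Subgroup.mem_center_iff.1 (hc hx) g]
  have hle : (opCore ℓ G).map p ≤ D := PFD.H66.cen_le hγ.tp _ (hOp.map p) hcO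
  have hDb : D ≠ ⊥ := by
    rintro rfl
    exact hDO (le_antisymm bot_le hle)
  obtain ⟨W, U, hC⟩ := hC
  obtain ⟨W₀, hS⟩ := hClp ℓ M hM H (push p e) D γ hγ hDb W U hC
  have hn2 : ((opCore ℓ G).map p).Normal := hn.map p hp
  obtain ⟨q, hq⟩ : ∃ q : H →* H ⧸ (opCore ℓ G).map p,
    q = QuotientGroup.mk' ((opCore ℓ G).map p) := ⟨_, rfl⟩
  have hqk : q.ker = (opCore ℓ G).map p := by
    rw [hq]
    exact QuotientGroup.ker_mk' _
  have hqs : Function.Surjective q := by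
    rw [hq]
    exact QuotientGroup.mk'_surjective _
  have hrs : Function.Surjective (q.comp p) := hqs.comp hp
  have hrk : (q.comp p).ker = opCore ℓ G := by
    rw [← MonoidHom.comap_ker, hqk, Subgroup.comap_map_eq, sup_eq_left.2 hpk]
  have heq := H75.altSum_central H20.nls H20.brm H63.smt H94.nch
    (H50.dic H20.ibn H20.nls H20.brm) hℓ M hM hGF hrs hrk (by rw [hrk]; exact hOp)
    (by rw [hrk]; exact hc) χ hχ e he h1 h2
  have h0 : YY ℓ (⊤ : Subgroup (H ⧸ (opCore ℓ G).map p)) (push q (push p e)) = 0 :=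
    hMnn ℓ M hM H (push p e) D γ hγ W₀ hS (H ⧸ (opCore ℓ G).map p) q hqs
      (by rw [hqk]; exact hle) (by rw [hqk]; exact fun h => hDO h.symm)
  rw [H32.push_comp, h0, mul_zero] at heq
  rcases mul_eq_zero.1 heq with h | h
  · exact absurd h (by exact_mod_cast (Nat.card_pos (α := G)).ne')
  · exact h

end Pool.Agent.PST.H69
end
end -- Pool.Agent.Helper69_PST.FNP

section -- Pool.Agent.Helper85_PST.REA

/-! Squad PST, row REA (helper85): a commutative group of operators has a regular element. -/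

set_option autoImplicit false

open scoped BigOperators

noncomputable section

namespace Pool.Agent.PST.H85

open Pool.Agent.PST

/-- the elements of `E` which fix `q` -/
def St {V : Type} [CommGroup V] (E : Subgroup (MulAut V)) (q : V) : Subgroup (MulAut V) where
  carrier := {a | a ∈ E ∧ a q = q}
  one_mem' := ⟨E.one_mem, rfl⟩
  mul_mem' := by
    rintro a b ⟨ha, ha'⟩ ⟨hb, hb'⟩
    refine ⟨E.mul_mem ha hb, ?_⟩
    rw [MulAut.mul_apply, hb', ha']
  inv_mem' := by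
    rintro a ⟨ha, ha'⟩
    refine ⟨E.inv_mem ha, ?_⟩
    calc a⁻¹ q = a⁻¹ (a q) := by rw [ha']
      _ = q := by rw [← MulAut.mul_apply, inv_mul_cancel, MulAut.one_apply]

theorem rea : ReaStmt := by
  classical
  intro ℓ V _ _ E Q hℓ hV hE hQ hcm
  have : Fact ℓ.Prime := ⟨hℓ⟩
  obtain ⟨q, hqQ, hmin⟩ := Set.exists_min_image (Q : Set V) (fun q => Nat.card (St E q))
    (Set.toFinite _) ⟨1, Q.one_mem⟩
  refine ⟨q, hqQ, ?_⟩
  intro c hcE hcq w hw
  by_contra hcw
  let C := St E q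
  have hCE : C ≤ E := fun a ha => ha.1
  have hdvd : Nat.card C ∣ Nat.card E := Subgroup.card_dvd_of_le hCE
  have hcop : (Nat.card V).Coprime (Nat.card C) := by
    obtain ⟨k, hk⟩ := IsPGroup.iff_card.1 hV
    rw [hk]
    apply Nat.Coprime.pow_left
    rw [hℓ.coprime_iff_not_dvd]
    exact fun h => hE (h.trans hdvd)
  obtain ⟨z, hz⟩ : ∃ z : ℤ, ∀ v : V, (v ^ z) ^ (Nat.card C) = v :=
    ⟨(Nat.card V).gcdB (Nat.card C), fun v => (powCoprime hcop).right_inv v⟩
  have : Fintype C := Fintype.ofFinite C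
  let p : V →* V := ∏ c : C, ((c : MulAut V).toMonoidHom).comp (zpowGroupHom z)
  have hp : ∀ v, p v = ∏ c : C, (c : MulAut V) (v ^ z) := by
    intro v
    simp only [p, MonoidHom.finsetProd_apply]
    rfl
  have hpQ : ∀ v ∈ Q, p v ∈ Q := by
    intro v hv
    rw [hp]
    exact Q.prod_mem fun c _ => hQ _ (hCE c.2) _ (Q.zpow_mem hv z)
  have hpc : ∀ c : C, ∀ v, (c : MulAut V) (p v) = p v := by
    intro c v
    rw [hp, map_prod]
    exact Fintype.prod_equiv (Equiv.mulLeft c) _ _ fun c' => rfl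
  have hpf : ∀ v, (∀ c : C, (c : MulAut V) v = v) → p v = v := by
    intro v hv
    rw [hp, Finset.prod_congr rfl fun c _ => by rw [map_zpow, hv c], Finset.prod_const,
      Finset.card_univ, ← Nat.card_eq_fintype_card]
    exact hz v
  have hpa : ∀ a ∈ E, ∀ v ∈ Q, a (p v) = p (a v) := by
    intro a ha v hv
    rw [hp, hp, map_prod]
    refine Finset.prod_congr rfl fun c _ => ?_
    rw [hcm a ha c (hCE c.2) _ (Q.zpow_mem hv z), map_zpow a]
  have hpq : p q = q := hpf q fun c => c.2.2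
  let y : V := w * (p w)⁻¹
  have hyQ : y ∈ Q := Q.mul_mem hw (Q.inv_mem (hpQ w hw))
  have hpy : p y = 1 := by
    change p (w * (p w)⁻¹) = 1
    rw [map_mul, map_inv, hpf (p w) (fun c => hpc c w), mul_inv_cancel]
  have hcC : c ∈ C := ⟨hcE, hcq⟩
  have hcy : c y ≠ y := by
    intro h
    apply hcw
    change c (w * (p w)⁻¹) = w * (p w)⁻¹ at h
    rw [map_mul, map_inv, hpc ⟨c, hcC⟩ w] at h
    exact mul_right_cancel h
  have hle : St E (q * y) ≤ C := by
    intro a ha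
    refine ⟨ha.1, ?_⟩
    have h1 : p (q * y) = q := by rw [map_mul, hpq, hpy, mul_one]
    have h2 := hpa a ha.1 (q * y) (Q.mul_mem hqQ hyQ)
    rw [ha.2, h1] at h2
    exact h2
  have heq := Subgroup.eq_of_le_of_card_ge hle (hmin (q * y) (Q.mul_mem hqQ hyQ))
  have hc2 : c ∈ St E (q * y) := by
    rw [heq]
    exact hcC
  apply hcy
  have h3 := hc2.2
  rw [map_mul, hcq] at h3
  exact mul_left_cancel h3

end Pool.Agent.PST.H85
end
end -- Pool.Agent.Helper85_PST.REA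

section -- Pool.Agent.Helper92_PST.ECB

/-!
# Row ECB of squad PST: the chain for the class KP (helper92)

The row REB is a hypothesis.
-/

set_option autoImplicit false

namespace Pool.Agent.PST.H92

open Pool.Agent.PST Pool.Agent.PSS

theorem ecb (hREB : RebStmt) : EcbStmt := by
  intro ℓ V _ _ E W hl hp hcop hKP
  obtain ⟨_, hcm, U, X, hF⟩ := hKP
  have key : ∀ n : ℕ, ∀ P : Subgroup V, Nat.card P = n → W ≤ P →
      (∀ a ∈ E, ∀ u ∈ P, a u ∈ P) → ChB ℓ E P W := by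
    intro n
    induction n using Nat.strong_induction_on with
    | _ n ih =>
    intro P hn hP hst
    by_cases hPW : P = W
    · rw [hPW]
      exact ChB.refl W
    have hWst : ∀ a ∈ E, ∀ u ∈ W, a u ∈ W := by
      intro a ha u hu
      rw [← hF.uw] at hu ⊢
      obtain ⟨y, hy, x, hx, rfl⟩ := Subgroup.mem_sup.1 hu
      rw [map_mul]
      exact Subgroup.mul_mem_sup (hF.su a ha y hy) (hF.sx a ha x hx)
    obtain ⟨P', ⟨hP0, hPP, hPs⟩, hmax⟩ :=
      (Set.toFinite {Q : Subgroup V | W ≤ Q ∧ Q < P ∧ ∀ a ∈ E, ∀ u ∈ Q, a u ∈ Q}).exists_maximal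
        ⟨W, le_refl W, lt_of_le_of_ne hP (Ne.symm hPW), hWst⟩
    have hm : ∀ Q : Subgroup V, (∀ a ∈ E, ∀ u ∈ Q, a u ∈ Q) → P' < Q → Q ≤ P → Q = P := by
      intro Q hQs hQ1 hQ2
      by_contra hne
      have h3 := hmax ⟨hP0.trans hQ1.le, lt_of_le_of_ne hQ2 hne, hQs⟩ hQ1.le
      exact absurd hQ1 (not_lt_of_ge h3)
    have hcard : Nat.card P' < n := by
      rw [← hn]
      by_contra hcon
      exact hPP.ne (Subgroup.eq_of_le_of_card_ge hPP.le (not_lt.1 hcon))
    refine ChB.step P P' W ⟨hPP.le, hPs, ?_, ?_, ?_, ?_⟩ (ih _ hcard P' rfl hP0 hPs)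
    · let R : Subgroup V :=
        { carrier := {v | v ∈ P ∧ v ^ ℓ ∈ P'}
          mul_mem' := by
            rintro v w ⟨hv, hv'⟩ ⟨hw, hw'⟩
            refine ⟨P.mul_mem hv hw, ?_⟩
            rw [mul_pow]
            exact P'.mul_mem hv' hw'
          one_mem' := ⟨P.one_mem, by rw [one_pow]; exact P'.one_mem⟩
          inv_mem' := by
            rintro v ⟨hv, hv'⟩
            refine ⟨P.inv_mem hv, ?_⟩
            rw [inv_pow]
            exact P'.inv_mem hv' }
      have hR : R = P := by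
        apply hm R
        · rintro a ha u ⟨hu, hu'⟩
          refine ⟨hst a ha u hu, ?_⟩
          rw [← map_pow]
          exact hPs a ha _ hu'
        · obtain ⟨v, hv, hv'⟩ := SetLike.exists_of_lt hPP
          have hex : ∃ k, v ^ (ℓ ^ k) ∈ P' := by
            obtain ⟨k, hk⟩ := hp v
            exact ⟨k, by rw [hk]; exact P'.one_mem⟩
          classical
          obtain ⟨k, hk, hk'⟩ : ∃ k, v ^ (ℓ ^ k) ∈ P' ∧ ∀ m < k, v ^ (ℓ ^ m) ∉ P' :=
            ⟨Nat.find hex, Nat.find_spec hex, fun m hm => Nat.find_min hex hm⟩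
          obtain ⟨j, rfl⟩ : ∃ j, k = j + 1 := by
            rcases k with _ | j
            · rw [pow_zero, pow_one] at hk
              exact absurd hk hv'
            · exact ⟨j, rfl⟩
          apply SetLike.lt_iff_le_and_exists.2
          refine ⟨fun x hx => ⟨hPP.le hx, P'.pow_mem hx _⟩, v ^ (ℓ ^ j), ⟨P.pow_mem hv _, ?_⟩,
            hk' j (Nat.lt_succ_self j)⟩
          rw [← pow_mul, ← pow_succ]
          exact hk
        · exact fun x hx => hx.1
      intro v hv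
      rw [← hR] at hv
      exact hv.2
    · intro a ha v hv hv1 hv2 w hw
      let R : Subgroup V :=
        { carrier := {v | v ∈ P ∧ a v * v⁻¹ ∈ P'}
          mul_mem' := by
            rintro v w ⟨hv, hv'⟩ ⟨hw, hw'⟩
            refine ⟨P.mul_mem hv hw, ?_⟩
            have h6 : a (v * w) * (v * w)⁻¹ = (a v * v⁻¹) * (a w * w⁻¹) := by
              rw [map_mul, mul_inv]
              exact mul_mul_mul_comm _ _ _ _
            rw [h6]
            exact P'.mul_mem hv' hw'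
          one_mem' := ⟨P.one_mem, by rw [map_one, inv_one, mul_one]; exact P'.one_mem⟩
          inv_mem' := by
            rintro v ⟨hv, hv'⟩
            refine ⟨P.inv_mem hv, ?_⟩
            have h6 : a v⁻¹ * v⁻¹⁻¹ = (a v * v⁻¹)⁻¹ := by
              rw [map_inv, ← mul_inv]
            rw [h6]
            exact P'.inv_mem hv' }
      have hR : R = P := by
        apply hm R
        · rintro b hb u ⟨hu, hu'⟩
          refine ⟨hst b hb u hu, ?_⟩
          have h6 : a (b u) * (b u)⁻¹ = (a (b u) * (b (a u))⁻¹) * b (a u * u⁻¹) := by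
            rw [map_mul, map_inv]
            group
          rw [h6]
          exact P'.mul_mem (hP0 (hcm a ha b hb u)) (hPs b hb _ hu')
        · apply SetLike.lt_iff_le_and_exists.2
          refine ⟨fun x hx => ⟨hPP.le hx, P'.mul_mem (hPs a ha x hx) (P'.inv_mem hx)⟩, v,
            ⟨hv, hv2⟩, hv1⟩
        · exact fun x hx => hx.1
      rw [← hR] at hw
      exact hw.2
    · intro a ha b hb v _
      exact hP0 (hcm a ha b hb v)
    · exact hREB ℓ V E W U X P' hl hp hcop hF hcm hP0 hPs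
  exact key _ ⊤ rfl le_top (fun a _ u _ => Subgroup.mem_top _)

end Pool.Agent.PST.H92
end -- Pool.Agent.Helper92_PST.ECB

section -- Pool.Agent.PST.AllGS

/-!
# Squad PST, block GS: assembly (helper11)

`fnp_of : StqStmt → FnpStmt`: the final theorem of (S++) from the step.
-/

noncomputable section

namespace Pool.Agent.PST.GS

open Pool.Agent.PP Pool.Agent.PSS

theorem rea_ : ReaStmt := H85.rea

theorem reb_ : RebStmt := H20.reb rea_

theorem msu_ : MsuStmt := H27.msu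

theorem ecb_ : EcbStmt := H92.ecb reb_

theorem kng_ : KngStmt := H91.kng

theorem adp_ : AdpStmt := H81.adp msu_

theorem clp_ : ClpStmt := H97.clp msu_ PFD.edf_ PFD.H6.lke K9.H34.inx

theorem stl_ : StlStmt :=
  H68.stl ecb_ kng_ AllS6.clg_ AllS6.jnw_ AllS6.nwg_ AllS6.dzc_ PFD.H66.jex_

theorem atq_of (stq : StqStmt) : AtqStmt := H11.atq PSS.All.stp stq PSS.H66.bas_

theorem stoKP_of (stq : StqStmt) : StoFor KP := stl_ (atq_of stq)

theorem lenKP_of (stq : StqStmt) : LenFor KP := PSS.H11.len_ KP adp_ (stoKP_of stq)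

theorem mnnKP_of (stq : StqStmt) : MnnFor KP := PSS.H66.mnn_ KP adp_ (lenKP_of stq)

theorem fnp_of (stq : StqStmt) : FnpStmt := H69.fnp (mnnKP_of stq) clp_ T3.flt_ T3.psg_

end Pool.Agent.PST.GS
end
end -- Pool.Agent.PST.AllGS
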