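import Pool.Agent.Helper12_AWB.B194
import Pool.Agent.Helper12_AWB.B198
import Pool.Agent.Helper12_AWB.B302
import Pool.Agent.Helper12_AWB.B305
import Pool.Agent.Helper12_AWB.B306

/-!
# Merged copies (generated) of the modules

* `Pool.Agent.Helper17_HFC.LEH`
* `Pool.Agent.Helper29_HFC.ADH`
* `Pool.Agent.Helper29_HFC.CLA`
* `Pool.Agent.Helper32_HFC.CLH`
* `Pool.Agent.Helper39_PST.ADW`
* `Pool.Agent.Helper49_PST.FVX`
* `Pool.Agent.Helper5_PST.AGQ`
* `Pool.Agent.Helper62_PST.ECG`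
* `Pool.Agent.Helper69_PST.RGV`
* `Pool.Agent.Helper94_PST.SVI`
* `Pool.Agent.Helper3_PST.AsmV`
* `Pool.Agent.Helper3_PST.AllV`
* `Pool.Agent.Helper52_HFC.HPQ`
* `Pool.Agent.Helper64_HFC.YKL`
* `Pool.Agent.PST.Fin`
* `Pool.Agent.Helper66_HFC.FIN`
* `Pool.Agent.Helper66_HFC.MNL`
* `Pool.Agent.Helper77_HFC.ADL`
* `Pool.Agent.Helper66_HFC.Asm`
-/

set_option autoImplicit false

section -- Pool.Agent.Helper17_HFC.LEH

/-!
# Squad HFC, row LEH: the number of modular characters, the central factor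
-/

open scoped BigOperators

noncomputable section

namespace Pool.Agent.HFC.H17

open Pool.Agent.Helper51_AWC Pool.Agent.Helper79_WRA Pool.Agent.PP Pool.Agent.PP.KF
open Pool.Agent.PP.K9 Pool.Agent.PP.K9.H97 Pool.Agent.PP.H75 Pool.Agent.PP.T3 Pool.Agent.PP.T2
open Pool.Agent.PFD (Ei)
open Pool.Agent.PSS Pool.Agent.PST Pool.Agent.PST.GU

attribute [local instance] Ideal.Quotient.field

theorem cen_le_Cu {G : Type} [Group G] {V : Subgroup G} {v : G} (hv : v ∈ V) :
    Subgroup.centralizer (V : Set G) ≤ Cu v := fun g hg =>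
  Subgroup.mem_centralizer_singleton_iff.2 (Subgroup.mem_centralizer_iff.1 hg v hv).symm

theorem Cu_lt {G : Type} [Group G] [Finite G] {v : G} (hv : v ∉ Subgroup.center G) :
    Nat.card (Cu v) < Nat.card G := by
  refine lt_of_le_of_ne (Subgroup.card_le_card_group _) (fun h => hv ?_)
  rw [Subgroup.mem_center_iff]
  intro g
  have h1 : g ∈ Cu v := by
    rw [(Subgroup.card_eq_iff_eq_top _).1 h]
    exact Subgroup.mem_top g
  exact Subgroup.mem_centralizer_singleton_iff.1 h1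

/-- the automorphisms of `⊤` which are induced by `E` -/
lemma qr_top {V : Type} [Group V] (E : Subgroup (MulAut V)) :
    Qr (rse E (⊤ : Subgroup V)) E
      (Subgroup.topEquiv : (⊤ : Subgroup V) ≃* V).toMonoidHom := by
  refine ⟨(Subgroup.topEquiv : (⊤ : Subgroup V) ≃* V).surjective, ?_⟩
  intro a ha
  obtain ⟨a', h'⟩ : ∃ a' : MulAut (⊤ : Subgroup V), ∀ u : (⊤ : Subgroup V),
      ((a' u : (⊤ : Subgroup V)) : V) = a u :=
    ⟨((Subgroup.topEquiv : (⊤ : Subgroup V) ≃* V).trans a).trans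
      (Subgroup.topEquiv : (⊤ : Subgroup V) ≃* V).symm, fun _ => rfl⟩
  exact ⟨a', ⟨a, ha, h'⟩, fun u => h' u⟩

/-- an element of `V` which is fixed by the inertial quotient commutes with the inertial group -/
lemma comm_of_fix {F G : Type} [Group G] {V : Subgroup G} {γ : G → F} {c : V}
    (hc : ∀ a ∈ Ei V γ, a c = c) : ∀ t ∈ Tg V γ, t * (c : G) = c * t := by
  intro t ht
  have htn : t ∈ Subgroup.normalizer (V : Set G) := ht.1
  have h1 : V.normalizerMonoidHom ⟨t, htn⟩ ∈ Ei V γ :=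
    Subgroup.mem_map_of_mem _ (Subgroup.mem_subgroupOf.2 ht)
  have h2 := congrArg (fun x : V => (x : G)) (hc _ h1)
  have h3 : t * (c : G) * t⁻¹ = c := h2
  exact mul_inv_eq_iff_eq_mul.1 h3

theorem leh : LehStmt := by
  intro wat loc lsb qrx qrq qln frt ltx hpq rsq K hK hlen ℓ hℓ M _ hM
  have hF : GoodF ℓ (FF M) := H50.fld ℓ Fact.out M hM
  have hA : Adm ℓ K := hK ℓ hℓ.out
  suffices hmain : ∀ n : ℕ, ∀ (G : Type) [Group G] [Finite G], Nat.card G = n →
      ∀ (e : G → FF M) (V : Subgroup G) (γ : G → FF M), Ld ℓ e V γ →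
      (V = ⊥ ∨ Hp K ℓ V (Ei V γ)) →
      ln e = ln (fun t : Subgroup.normalizer (V : Set G) => br V e t) by
    intro G _ _ e V γ h1 h2
    refine hmain _ G rfl e V γ h1 ?_
    rcases h2 with h | ⟨W, hW⟩
    · exact Or.inl h
    · exact Or.inr hW.2.2
  intro n
  induction n using Nat.strong_induction_on with
  | _ n ih =>
  intro G _ _ hn e V γ hL hc
  rcases hc with hV | hHp
  · exact hlen ℓ M hM G e V γ hL (Or.inl hV)
  obtain ⟨hab, C, V₀, hi, hs, hC, hV0, hd⟩ := hHp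
  by_cases hCb : C = ⊥
  · -- no central factor
    rw [hCb, bot_sup_eq] at hs
    subst hs
    refine hlen ℓ M hM G e V γ hL ?_
    rcases hd with hd | ⟨W₀, hd⟩
    · left
      rw [eq_bot_iff]
      intro v hv
      have h1 : (⟨v, hv⟩ : V) ∈ (⊤ : Subgroup V) := Subgroup.mem_top _
      rw [hd, Subgroup.mem_bot] at h1
      rw [Subgroup.mem_bot]
      exact congrArg (fun x : V => (x : G)) h1
    · right
      exact ⟨_, hA.iso _ V _ (Ei V γ) W₀ _ (qr_top (Ei V γ)) hd⟩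
  obtain ⟨⟨c, hcC⟩, hc1⟩ := (Subgroup.ne_bot_iff_exists_ne_one.1 hCb)
  have hcV : c ≠ 1 := fun h => hc1 (Subtype.ext h)
  have hcG : (c : G) ≠ 1 := fun h => hcV (Subtype.ext h)
  have hzV : (c : G) ∈ V := c.2
  have hcomm : ∀ t ∈ Tg V γ, t * (c : G) = c * t :=
    comm_of_fix (fun a ha => hC a ha c hcC)
  have hTC : Tg V γ ≤ Cu (c : G) := fun t ht =>
    Subgroup.mem_centralizer_singleton_iff.2 (hcomm t ht)
  have hzf : (c : G) ∈ TV.Zf V γ :=
    ⟨hzV, Subgroup.mem_centralizer_iff.2 fun t ht => hcomm t ht⟩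
  by_cases hcen : (c : G) ∈ Subgroup.center G
  · -- a central element: the quotient
    obtain ⟨Z, hZ⟩ : ∃ Z : Subgroup G, Z = Subgroup.zpowers (c : G) := ⟨_, rfl⟩
    have hZV : Z ≤ V := by
      rw [hZ, Subgroup.zpowers_le]
      exact hzV
    have hZc : Z ≤ Subgroup.center G := by
      rw [hZ, Subgroup.zpowers_le]
      exact hcen
    have hZn : Z.Normal := by
      refine ⟨fun x hx g => ?_⟩
      have h1 := Subgroup.mem_center_iff.1 (hZc hx) g
      rw [h1, mul_assoc, mul_inv_cancel, mul_one]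
      exact hx
    have hne : Z ≠ ⊥ := by
      rw [hZ]
      exact fun h => hcG (Subgroup.zpowers_eq_bot.1 h)
    have hlt : Nat.card (G ⧸ Z) < n := by
      rw [← hn, Subgroup.card_eq_card_quotient_mul_card_subgroup Z]
      have h1 : 1 < Nat.card Z := by
        rw [Subgroup.one_lt_card_iff_ne_bot]
        exact hne
      have h2 : 0 < Nat.card (G ⧸ Z) := Nat.card_pos
      nlinarith
    have hker : (QuotientGroup.mk' Z).ker = Z := QuotientGroup.ker_mk' Z
    apply qln ℓ (FF M) hF G (G ⧸ Z) (QuotientGroup.mk' Z) (QuotientGroup.mk'_surjective Z) V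
      hL.tp.pg (by rw [hker]; exact hZV) e hL.blk.1
    intro f hf hfe
    obtain ⟨γ', hL', π, hπ, hq⟩ := qrq ℓ M hM G e V γ hL Z hZV hZn (G ⧸ Z) (QuotientGroup.mk' Z)
      (QuotientGroup.mk'_surjective Z) hker f hf hfe
    have hkC : π.ker ≤ C := by
      rw [hπ]
      intro v hv
      rw [Subgroup.mem_subgroupOf, hZ, Subgroup.mem_zpowers_iff] at hv
      obtain ⟨k, hk⟩ := hv
      have h1 : v = c ^ k := Subtype.ext (by rw [SubgroupClass.coe_zpow]; exact hk.symm)
      rw [h1]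
      exact C.zpow_mem hcC k
    exact ih _ hlt (G ⧸ Z) rfl f _ γ' hL'
      (Or.inr (hpq rsq K ℓ hA V _ (Ei V γ) _ π hq hab C V₀ hi hs hC hV0 hd hkC))
  · -- the local block
    obtain ⟨⟨b, hb⟩, -⟩ := loc ℓ (FF M) hF G e V γ hL c hzV
    obtain ⟨m1, -⟩ := lsb ℓ M hM G e V γ hL c hzV b hb
    have w1 := wat ℓ M hM G e V γ hL c hzf b hb
    obtain ⟨π, -, hq⟩ := qrx ℓ (FF M) G e V γ hL (Cu (c : G)) (cen_le_Cu hzV)
    have hkC : π.toMonoidHom.ker ≤ C := by
      rw [(MonoidHom.ker_eq_bot_iff _).2 π.injective]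
      exact bot_le
    have h3 := hpq rsq K ℓ hA V _ (Ei V γ) _ π.toMonoidHom hq hab C V₀ hi hs hC hV0 hd hkC
    have hlt : Nat.card (Cu (c : G)) < n := by
      rw [← hn]
      exact Cu_lt hcen
    rw [← w1, ih _ hlt (Cu (c : G)) rfl _ _ _ m1 (Or.inr h3),
      frt ℓ M hM (Cu (c : G)) _ _ _ m1, frt ℓ M hM G e V γ hL,
      (ltx ℓ (FF M) G e V γ hL (Cu (c : G)) (cen_le_Cu hzV)).1, inf_eq_left.2 hTC]

end Pool.Agent.HFC.H17
end
end -- Pool.Agent.Helper17_HFC.LEH

section -- Pool.Agent.Helper29_HFC.ADH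

/-!
# Squad HFC, row ADH: the class `Kh K` is admissible
-/

set_option autoImplicit false

open scoped BigOperators

noncomputable section

namespace Pool.Agent.HFC.H29

open Pool.Agent.PSS Pool.Agent.PST Pool.Agent.PST.GU

theorem adh : AdhStmt := by
  intro hpq rsq K hK ℓ hℓ
  refine ⟨?_, ?_, ?_, ?_⟩
  · intro V _ E W h
    exact h.2.1
  · intro V _ E W h a _ w _
    rw [h.1]
    exact Subgroup.mem_top _
  · intro V V' _ _ E E' W π hq h
    obtain ⟨hW, hne, hab, C, V₀, h1, h2, h3, h4, h5⟩ := h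
    refine ⟨?_, ?_, ?_⟩
    · rw [hW]
      exact Subgroup.map_top_of_surjective _ hq.sur
    · intro hbot
      apply hne
      rw [Subgroup.map_eq_bot_iff] at hbot
      rw [eq_bot_iff]
      intro w hw
      have h6 := hbot hw
      rw [MonoidHom.mem_ker] at h6
      rw [Subgroup.mem_bot]
      exact π.injective (h6.trans (map_one π).symm)
    · refine hpq rsq K ℓ (hK ℓ hℓ) V V' E E' π.toMonoidHom hq hab C V₀ h1 h2 h3 h4 h5 ?_
      intro v hv
      rw [MonoidHom.mem_ker] at hv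
      have h6 : v = 1 := π.injective (hv.trans (map_one π).symm)
      rw [h6]
      exact one_mem C
  · intro V V' _ _ _ _ E E' W π _ _ _ hq h hker hne
    exfalso
    obtain ⟨v, hv⟩ := hne
    obtain ⟨u, rfl⟩ := hq.sur v
    apply hv
    have h6 : u ∈ π.ker := by
      rw [hker, h.1]
      exact Subgroup.mem_top _
    exact MonoidHom.mem_ker.1 h6

end Pool.Agent.HFC.H29
end
end -- Pool.Agent.Helper29_HFC.ADH

section -- Pool.Agent.Helper29_HFC.CLA

/-!
# Squad HFC, row CLA: from the clean hypotheses to the class `KP`, for an arbitrary abelian subgroup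
-/

set_option autoImplicit false

open scoped BigOperators

noncomputable section

namespace Pool.Agent.HFC.H29

open Pool.Agent.PSS Pool.Agent.PST Pool.Agent.PST.GU

theorem ne_bot_of {G : Type} [Group G] {U V : Subgroup G} (hUV : U ≤ V) (hU : U ≠ ⊥) :
    U.subgroupOf V ≠ ⊥ := by
  intro h1
  apply hU
  rw [eq_bot_iff]
  intro u hu
  have h6 : (⟨u, hUV hu⟩ : V) ∈ U.subgroupOf V := Subgroup.mem_subgroupOf.2 hu
  rw [h1, Subgroup.mem_bot] at h6
  rw [Subgroup.mem_bot]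
  exact congrArg Subtype.val h6

theorem cla : ClaStmt := by
  intro msu edf ℓ hℓ G _ _ T V hV hp hab E hcop hE W U h
  -- stable subgroups
  have hst : ∀ Z : Subgroup G, (∀ t ∈ T, ∀ z ∈ Z, t * z * t⁻¹ ∈ Z) →
      ∀ a ∈ E, ∀ z ∈ Z.subgroupOf V, a z ∈ Z.subgroupOf V := by
    intro Z hZ a ha z hz
    obtain ⟨t, ht, hta⟩ := hE a ha
    rw [Subgroup.mem_subgroupOf, hta z]
    exact hZ t ht z (Subgroup.mem_subgroupOf.1 hz)
  -- commutators
  have hcm : ∀ a ∈ E, ∀ b ∈ E, ∀ v : V, a (b v) * (b (a v))⁻¹ ∈ W.subgroupOf V := by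
    intro a ha b hb v
    obtain ⟨s, hs, ea⟩ := hE a ha
    obtain ⟨t, ht, eb⟩ := hE b hb
    rw [Subgroup.mem_subgroupOf]
    have h1 := h.cm s hs t ht ((b (a v) : V) : G) (b (a v)).2
    have h2 : s * t * s⁻¹ * t⁻¹ * ((b (a v) : V) : G) * (s * t * s⁻¹ * t⁻¹)⁻¹ *
        ((b (a v) : V) : G)⁻¹ = ((a (b v) * (b (a v))⁻¹ : V) : G) := by
      rw [Subgroup.coe_mul, Subgroup.coe_inv, ea (b v), eb v, eb (a v), ea v]
      group
    rw [h2] at h1
    exact h1
  by_cases hU : U = ⊥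
  · -- `W = 1`
    have hW : W = ⊥ := h.nt hU
    have hEc : ∀ a ∈ E, ∀ b ∈ E, ∀ v : V, a (b v) = b (a v) := by
      intro a ha b hb v
      have h1 := hcm a ha b hb v
      rw [hW, Subgroup.bot_subgroupOf, Subgroup.mem_bot] at h1
      exact mul_inv_eq_one.1 h1
    have hne : ∃ v : V, v ≠ 1 := by
      by_contra hc
      push Not at hc
      apply hV
      rw [eq_bot_iff]
      intro x hx
      have h1 := hc ⟨x, hx⟩
      rw [Subgroup.mem_bot]
      exact congrArg Subtype.val h1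
    obtain ⟨W', h1⟩ := msu V E hne hEc
    refine ⟨W', hab, ?_, W', ⊥, h1⟩
    intro a ha b hb v
    rw [hEc a ha b hb v, mul_inv_cancel]
    exact one_mem W'
  · have hUV : U ≤ V := h.uw.trans h.wd
    obtain ⟨U', X', x1, x2, x3, x4, x5, x6⟩ := Pool.Agent.PSS.H44.relEdf edf Fact.out hp hab
      E hcop (U.subgroupOf V) (W.subgroupOf V)
      (fun u hu => Subgroup.mem_subgroupOf.2 (h.uw (Subgroup.mem_subgroupOf.1 hu)))
      (ne_bot_of hUV hU) (hst U h.su) (hst W h.sw)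
      (by
        intro a ha u hu hu1 hfix w hw
        obtain ⟨t, ht, hta⟩ := hE a ha
        have h7 : t * (u : G) * t⁻¹ = u := by
          rw [← hta u, hfix]
        have h8 := h.fr t ht u (Subgroup.mem_subgroupOf.1 hu)
          (fun h => hu1 (Subtype.ext h)) (mul_inv_eq_iff_eq_mul.1 h7)
        apply Subtype.ext
        rw [hta w]
        have h9 : (w : G) * t = t * w :=
          (Subgroup.mem_centralizer_iff.1 h8) w (Subgroup.mem_subgroupOf.1 hw)
        rw [← h9, mul_inv_cancel_right])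
    exact ⟨W.subgroupOf V, hab, hcm, U', X',
      { ux := x1
        uw := x2
        nt := x3
        su := x4
        sx := x5
        fr := x6 }⟩

end Pool.Agent.HFC.H29
end
end -- Pool.Agent.Helper29_HFC.CLA

section -- Pool.Agent.Helper32_HFC.CLH

/-!
# Squad HFC, row CLH: the class of the final theorem (central factor)
-/

set_option autoImplicit false

open scoped BigOperators

noncomputable section

namespace Pool.Agent.HFC.H32

open Pool.Agent.Helper51_AWC Pool.Agent.Helper79_WRA Pool.Agent.PP Pool.Agent.PP.KF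
open Pool.Agent.PP.K9 Pool.Agent.PP.K9.H97 Pool.Agent.PP.H75 Pool.Agent.PP.T3 Pool.Agent.PP.T2
open Pool.Agent.PP.TB (Zd Star iz cz)
open Pool.Agent.PFD (Ei)
open Pool.Agent.PSS Pool.Agent.PST Pool.Agent.PST.GU

attribute [local instance] Ideal.Quotient.field

/-- the action of `E` on the stable subgroup `D ≤ V`, as automorphisms of `D` -/
def resG {G : Type} [Group G] {V D : Subgroup G} (hDV : D ≤ V) (E : Subgroup (MulAut V))
    (hst : ∀ a ∈ E, ∀ d : D, ((a ⟨d, hDV d.2⟩ : V) : G) ∈ D) : E →* MulAut D where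
  toFun a :=
    { toFun := fun d => ⟨(((a : MulAut V) ⟨d, hDV d.2⟩ : V) : G), hst a a.2 d⟩
      invFun := fun d => ⟨(((a : MulAut V)⁻¹ ⟨d, hDV d.2⟩ : V) : G), hst _ (E.inv_mem a.2) d⟩
      left_inv := by
        intro d
        apply Subtype.ext
        change (((a : MulAut V)⁻¹ ((a : MulAut V) ⟨d, hDV d.2⟩) : V) : G) = d
        rw [← MulAut.mul_apply, inv_mul_cancel, MulAut.one_apply]
      right_inv := by
        intro d
        apply Subtype.ext
        change (((a : MulAut V) ((a : MulAut V)⁻¹ ⟨d, hDV d.2⟩) : V) : G) = d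
        rw [← MulAut.mul_apply, mul_inv_cancel, MulAut.one_apply]
      map_mul' := by
        intro u v
        apply Subtype.ext
        change (((a : MulAut V) (⟨u, hDV u.2⟩ * ⟨v, hDV v.2⟩) : V) : G) = _
        rw [map_mul]
        rfl }
  map_one' := by
    ext d
    rfl
  map_mul' := by
    intro a b
    ext d
    rfl

theorem clh : ClhStmt := by
  intro cla clb msu edf sry lke inx hadm ℓ hℓ M _ hM G _ _ e V γ hL hV C D₀ hCD hCV hC hD hcl
  have hab : ∀ a b : V, a * b = b * a := fun a b => Subtype.ext (hL.ab a a.2 b b.2)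
  have hCle : C ≤ V := hCV ▸ le_sup_left
  have hDle : D₀ ≤ V := hCV ▸ le_sup_right
  -- the order of `Ei`
  have hcop : ¬ ℓ ∣ Nat.card (Ei V γ) := by
    have h1 := (lke ℓ (FF M) G e V γ hL).1
    rw [← h1]
    have h2 := inx ℓ M hM G e hL.blk V hL.tp hL.ab γ hL.gam.supp hL.gam.blk hL.und
    have h3 : iz V V γ = (Subgroup.centralizer (V : Set G)).relIndex
        (Subgroup.normalizer (V : Set G) ⊓ stabF γ) := by
      unfold iz
      rw [Subgroup.inf_relIndex_right]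
      rfl
    rw [h3]
    exact h2
  -- elements of `Ei` are induced by elements of `Tg`
  have hEi : ∀ a ∈ Ei V γ, ∃ t ∈ Tg V γ, ∀ v : V, ((a v : V) : G) = t * v * t⁻¹ := by
    rintro _ ⟨⟨t, htn⟩, ht, rfl⟩
    exact ⟨t, Subgroup.mem_subgroupOf.1 ht, fun v => rfl⟩
  have hst : ∀ a ∈ Ei V γ, ∀ d : D₀, ((a ⟨d, hDle d.2⟩ : V) : G) ∈ D₀ := by
    intro a ha d
    obtain ⟨t, ht, h⟩ := hEi a ha
    rw [h]
    exact hD t ht d d.2
  have hne : (⊤ : Subgroup V) ≠ ⊥ := by
    intro h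
    apply hV
    rw [eq_bot_iff]
    intro x hx
    have h1 : (⟨x, hx⟩ : V) ∈ (⊤ : Subgroup V) := Subgroup.mem_top _
    rw [h, Subgroup.mem_bot] at h1
    rw [Subgroup.mem_bot]
    exact congrArg Subtype.val h1
  refine ⟨⊤, rfl, hne, hab, C.subgroupOf V, D₀.subgroupOf V, ?_, ?_, ?_, ?_, ?_⟩
  · rw [Subgroup.eq_bot_iff_forall]
    rintro x ⟨h1, h2⟩
    have h3 : (x : G) ∈ C ⊓ D₀ := ⟨Subgroup.mem_subgroupOf.1 h1, Subgroup.mem_subgroupOf.1 h2⟩
    rw [hCD, Subgroup.mem_bot] at h3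
    exact Subtype.ext h3
  · rw [← Subgroup.subgroupOf_sup hCle hDle, hCV, Subgroup.subgroupOf_self]
  · intro a ha c hc
    obtain ⟨t, ht, h⟩ := hEi a ha
    apply Subtype.ext
    rw [h, hC t ht c (Subgroup.mem_subgroupOf.1 hc), mul_inv_cancel_right]
  · intro a ha v hv
    rw [Subgroup.mem_subgroupOf]
    exact hst a ha ⟨v, Subgroup.mem_subgroupOf.1 hv⟩
  · by_cases hD0 : D₀ = ⊥
    · left
      rw [hD0, Subgroup.bot_subgroupOf]
    · right
      set E₀ : Subgroup (MulAut D₀) := (resG hDle (Ei V γ) hst).range with hE₀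
      have hcop0 : ¬ ℓ ∣ Nat.card E₀ := by
        intro h
        apply hcop
        exact h.trans (Subgroup.card_dvd_of_surjective _ (resG hDle (Ei V γ) hst).rangeRestrict_surjective)
      have hpD : IsPGroup ℓ D₀ := hL.tp.1.to_le hDle
      have habD : ∀ a b : D₀, a * b = b * a := fun a b =>
        Subtype.ext (hL.ab a (hDle a.2) b (hDle b.2))
      have hind : ∀ a ∈ E₀, ∃ t ∈ (Tg V γ : Set G), ∀ v : D₀, ((a v : D₀) : G) = t * v * t⁻¹ := by
        rintro _ ⟨⟨a, ha⟩, rfl⟩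
        obtain ⟨t, ht, h⟩ := hEi a ha
        exact ⟨t, ht, fun v => h ⟨v, hDle v.2⟩⟩
      have hmain : ∃ W₁ : Subgroup D₀, KV KP LP ℓ D₀ E₀ W₁ := by
        rcases hcl with ⟨W, U, h⟩ | ⟨s, Y, U, h⟩
        · obtain ⟨W₁, h1⟩ := cla msu edf ℓ G (Tg V γ : Set G) D₀ hD0 hpD habD E₀ hcop0 hind W U h
          exact ⟨W₁, Or.inl h1⟩
        · exact clb sry msu ℓ G (Tg V γ : Set G) D₀ hD0 hpD habD E₀ hcop0 hind s Y U h
      obtain ⟨W₁, h1⟩ := hmain
      set π : D₀ ≃* D₀.subgroupOf V := (Subgroup.subgroupOfEquivOfLe hDle).symm with hπ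
      refine ⟨W₁.map π.toMonoidHom, ?_⟩
      refine (hadm ℓ hℓ.out).iso D₀ (D₀.subgroupOf V) E₀ (rse (Ei V γ) (D₀.subgroupOf V)) W₁ π ?_ h1
      refine ⟨π.surjective, ?_⟩
      rintro a' ⟨a, ha, hau⟩
      refine ⟨resG hDle (Ei V γ) hst ⟨a, ha⟩, ⟨⟨a, ha⟩, rfl⟩, fun v => ?_⟩
      apply Subtype.ext
      have h2 := hau (π v)
      change (((π (resG hDle (Ei V γ) hst ⟨a, ha⟩ v) : D₀.subgroupOf V) : V)) = ((a' (π v) : D₀.subgroupOf V) : V)
      rw [h2]
      rfl

end Pool.Agent.HFC.H32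
end
end -- Pool.Agent.Helper32_HFC.CLH

section -- Pool.Agent.Helper39_PST.ADW

/-! Squad PST (MP_6a3f1a_al), block GV, row ADW (helper39): the union is admissible. -/

set_option autoImplicit false

noncomputable section

namespace Pool.Agent.PST.GU.H39

open Pool.Agent.PSS

theorem adw (hSvi : SviStmt) (hSvq : SvqStmt) : AdwStmt := by
  intro K L ℓ hℓ hK hL
  refine ⟨?_, ?_, ?_, ?_⟩
  · rintro V _ E W (h | h | h)
    · exact hK.nt V E W h
    · exact h.2.1
    · obtain ⟨P, U, h⟩ := h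
      intro hW
      have h1 := h.w1.ix
      rw [hW, Subgroup.relIndex_bot_left, Subgroup.card_bot] at h1
      exact hℓ.ne_one h1.symm
  · rintro V _ E W (h | h | h)
    · exact hK.st V E W h
    · intro a _ w _
      rw [h.1]
      exact Subgroup.mem_top _
    · obtain ⟨P, U, h⟩ := h
      exact h.w1.st
  · rintro V V' _ _ E E' W π hπ (h | h | h)
    · exact Or.inl (hK.iso V V' E E' W π hπ h)
    · refine Or.inr (Or.inl ⟨?_, ?_, hL.iso V V' E E' π hπ h.2.2⟩)
      · rw [h.1]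
        exact Subgroup.map_top_of_surjective _ hπ.sur
      · intro hb
        apply h.2.1
        rw [eq_bot_iff]
        intro w hw
        have h1 : π w ∈ W.map π.toMonoidHom := ⟨w, hw, rfl⟩
        rw [hb, Subgroup.mem_bot] at h1
        rw [Subgroup.mem_bot]
        exact π.injective (h1.trans (map_one π).symm)
    · obtain ⟨P, U, h⟩ := h
      exact Or.inr (Or.inr ⟨_, _, hSvi L ℓ hL V V' E E' π hπ P W U h⟩)
  · rintro V V' _ _ _ _ E E' W π hp hE hc hπ (h | h | h) hker hne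
    · obtain ⟨W', h'⟩ := hK.quo V V' E E' W π hp hE hc hπ h hker hne
      exact ⟨W', Or.inl h'⟩
    · exfalso
      obtain ⟨v, hv⟩ := hne
      obtain ⟨u, rfl⟩ := hπ.sur v
      apply hv
      have h1 : u ∈ π.ker := by
        rw [hker, h.1]
        exact Subgroup.mem_top _
      exact h1
    · obtain ⟨P, U, h⟩ := h
      obtain ⟨W', h' | h'⟩ := hSvq L ℓ hL V V' E E' π hπ P W U h hker hne
      · exact ⟨W', Or.inr (Or.inl h')⟩
      · exact ⟨W', Or.inr (Or.inr h')⟩

end Pool.Agent.PST.GU.H39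
end
end -- Pool.Agent.Helper39_PST.ADW

section -- Pool.Agent.Helper49_PST.FVX

/-!
# Squad PST, block GV, row FVX (helper49): the final theorem for the union of (S++) and (R)
-/

set_option autoImplicit false

noncomputable section

namespace Pool.Agent.PST.GU.H49

open Pool.Agent.Helper51_AWC Pool.Agent.Helper79_WRA Pool.Agent.PP Pool.Agent.PP.KF
open Pool.Agent.PP.K9 Pool.Agent.PP.K9.H97 Pool.Agent.PP.H75 Pool.Agent.PP.T3 Pool.Agent.PP.T2
open Pool.Agent.PFD (Ei)
open Pool.Agent.PSS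

attribute [local instance] Ideal.Quotient.field

/-- row FVX -/
theorem fvx (fnk : FnkStmt) (clv : ClvStmt) (clp : ClpStmt) (mnn : MnnFor (KV KP LR)) :
    FvxStmt := by
  intro ℓ hℓ M iM hM G iG iFG hc χ hχ H iH p hp hpk ψ hψ hψχ D hD hDO hab θ hθ hC
  have hfH : Finite H := Finite.of_surjective p hp
  refine fnk (KV KP LR) mnn ℓ M hM G hc χ hχ H p hp hpk ψ hψ hψχ D hD hDO hab θ hθ ?_
  intro e γ hL hTg hne
  rw [← hTg] at hC
  rcases hC with ⟨W, U, hC⟩ | ⟨s, Y, U, hC⟩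
  · obtain ⟨W₀, h⟩ := clp ℓ M hM H e D γ hL hne W U hC
    exact ⟨W₀, Or.inl h⟩
  · exact clv ℓ M hM H e D γ hL hne s Y U hC

end Pool.Agent.PST.GU.H49
end
end -- Pool.Agent.Helper49_PST.FVX

section -- Pool.Agent.Helper5_PST.AGQ

/-!
# Squad PST, row AGQ: the generic iteration
-/

noncomputable section

namespace Pool.Agent.PST.GU.H5

open Pool.Agent.PSS

theorem agq : AgqRow := by
  intro P hP stp stq bas n
  induction n with
  | zero =>
    intro ℓ _ F V E A B _ _ _ _ _ _ _ _ _ _ _ φ α T W ψ hp hE hWT hst hc hr hw hA hB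
    change T = ⊤ at hc
    subst hc
    have h1 := hP (⊤ : Subgroup V) V E ψ φ (W.subgroupOf ⊤)
      (Subgroup.topEquiv (G := V)).symm (by
        intro e v
        apply Subtype.ext
        exact (hr e ⟨v, Subgroup.mem_top v⟩).symm) hw
    have h2 : (W.subgroupOf ⊤).comap (Subgroup.topEquiv (G := V)).symm.toMonoidHom = W := by
      ext v
      exact Iff.rfl
    rw [h2] at h1
    exact bas ℓ F V E A B φ α W hp hE h1 hA hB
  | succ n ih =>
    intro ℓ _ F V E A B _ _ _ _ _ _ _ _ _ _ _ φ α T W ψ hp hE hWT hst hc hr hw hA hB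
    obtain ⟨W', ψ', hY, hTW, hr', hc'⟩ := hc
    have : Fintype W' := Fintype.ofFinite W'
    have hWW : W ≤ W' := hWT.trans hTW
    have key : ∃ (F' C B' : Type) (_ : Field F') (_ : IsAlgClosed F') (_ : CharP F' ℓ)
        (_ : Ring C) (_ : Algebra F' C) (_ : Ring B') (_ : Algebra F' B') (γ : W' →* C)
        (_ : IsNW F' γ (W.subgroupOf W') B'), Cl F' ψ' γ ∧
        Module.finrank F' (Subalgebra.center F' C) = Module.finrank F (Subalgebra.center F A) ∧
        Module.finrank F' (Subalgebra.center F' B') =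
          Module.finrank F (Subalgebra.center F B) := by
      rcases hY with ⟨Y, hY⟩ | hY
      · exact stp ℓ F V E A B φ α Y W' W ψ' hp hE hY hr' hWW hst hA hB
      · exact stq ℓ F V E A B φ α W' W ψ' hp hE hY hr' hWW hst hA hB
    obtain ⟨F', C, B', i1, i2, i3, i4, i5, i6, i7, γ, nw, hC, h1, h2⟩ := key
    let s : T ≃* (T.subgroupOf W') := (Subgroup.subgroupOfEquivOfLe hTW).symm
    have hs : ∀ w : T, (((s w : T.subgroupOf W') : W') : V) = w := by
      intro w
      rfl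
    have hrs : IsRs ψ' (T.subgroupOf W') (trA s ψ) := by
      intro e w
      apply Subtype.ext
      rw [hr']
      obtain ⟨v, rfl⟩ := s.surjective w
      rw [trA_apply, s.symm_apply_apply, hs, hs]
      exact hr e v
    have hfin := ih ℓ F' W' E C B' ψ' γ (T.subgroupOf W') (W.subgroupOf W') (trA s ψ)
      (hp.to_subgroup W') hE ?_ ?_ hc' hrs ?_ hC nw
    · rw [← h1, ← h2]
      exact hfin
    · intro w hw
      exact hWT hw
    · intro e w hw'
      change ((ψ' e w : W') : V) ∈ W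
      rw [hr']
      exact hst e _ hw'
    · have h3 := hP T (T.subgroupOf W') E ψ (trA s ψ) (W.subgroupOf T) s.symm (by
        intro e u
        obtain ⟨v, rfl⟩ := s.surjective u
        rw [trA_apply, s.symm_apply_apply, s.symm_apply_apply]) hw
      have h4 : (W.subgroupOf T).comap s.symm.toMonoidHom =
          (W.subgroupOf W').subgroupOf (T.subgroupOf W') := by
        ext u
        obtain ⟨v, rfl⟩ := s.surjective u
        change ((s.symm (s v) : T) : V) ∈ W ↔ (((s v : T.subgroupOf W') : W') : V) ∈ W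
        rw [s.symm_apply_apply, hs]
      rw [h4] at h3
      exact h3

end Pool.Agent.PST.GU.H5
end
end -- Pool.Agent.Helper5_PST.AGQ

section -- Pool.Agent.Helper62_PST.ECG

/-!
# Squad PST, block GV, row ECG (helper62): the chain if all stable subgroups above `T` have regular
elements (edit of the row ECB of helper92)
-/

set_option autoImplicit false

namespace Pool.Agent.PST.GU.H62

open Pool.Agent.PST Pool.Agent.PSS

theorem ecg : EcgStmt := by
  intro ℓ V _ _ E W hl hp hWst hcm hreg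
  have key : ∀ n : ℕ, ∀ P : Subgroup V, Nat.card P = n → W ≤ P →
      (∀ a ∈ E, ∀ u ∈ P, a u ∈ P) → ChB ℓ E P W := by
    intro n
    induction n using Nat.strong_induction_on with
    | _ n ih =>
    intro P hn hP hst
    by_cases hPW : P = W
    · rw [hPW]
      exact ChB.refl W
    obtain ⟨P', ⟨hP0, hPP, hPs⟩, hmax⟩ :=
      (Set.toFinite {Q : Subgroup V | W ≤ Q ∧ Q < P ∧ ∀ a ∈ E, ∀ u ∈ Q, a u ∈ Q}).exists_maximal
        ⟨W, le_refl W, lt_of_le_of_ne hP (Ne.symm hPW), hWst⟩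
    have hm : ∀ Q : Subgroup V, (∀ a ∈ E, ∀ u ∈ Q, a u ∈ Q) → P' < Q → Q ≤ P → Q = P := by
      intro Q hQs hQ1 hQ2
      by_contra hne
      have h3 := hmax ⟨hP0.trans hQ1.le, lt_of_le_of_ne hQ2 hne, hQs⟩ hQ1.le
      exact absurd hQ1 (not_lt_of_ge h3)
    have hcard : Nat.card P' < n := by
      rw [← hn]
      by_contra hcon
      exact hPP.ne (Subgroup.eq_of_le_of_card_ge hPP.le (not_lt.1 hcon))
    refine ChB.step P P' W ⟨hPP.le, hPs, ?_, ?_, ?_, ?_⟩ (ih _ hcard P' rfl hP0 hPs)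
    · let R : Subgroup V :=
        { carrier := {v | v ∈ P ∧ v ^ ℓ ∈ P'}
          mul_mem' := by
            rintro v w ⟨hv, hv'⟩ ⟨hw, hw'⟩
            refine ⟨P.mul_mem hv hw, ?_⟩
            rw [mul_pow]
            exact P'.mul_mem hv' hw'
          one_mem' := ⟨P.one_mem, by rw [one_pow]; exact P'.one_mem⟩
          inv_mem' := by
            rintro v ⟨hv, hv'⟩
            refine ⟨P.inv_mem hv, ?_⟩
            rw [inv_pow]
            exact P'.inv_mem hv' }
      have hR : R = P := by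
        apply hm R
        · rintro a ha u ⟨hu, hu'⟩
          refine ⟨hst a ha u hu, ?_⟩
          rw [← map_pow]
          exact hPs a ha _ hu'
        · obtain ⟨v, hv, hv'⟩ := SetLike.exists_of_lt hPP
          have hex : ∃ k, v ^ (ℓ ^ k) ∈ P' := by
            obtain ⟨k, hk⟩ := hp v
            exact ⟨k, by rw [hk]; exact P'.one_mem⟩
          classical
          obtain ⟨k, hk, hk'⟩ : ∃ k, v ^ (ℓ ^ k) ∈ P' ∧ ∀ m < k, v ^ (ℓ ^ m) ∉ P' :=
            ⟨Nat.find hex, Nat.find_spec hex, fun m hm => Nat.find_min hex hm⟩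
          obtain ⟨j, rfl⟩ : ∃ j, k = j + 1 := by
            rcases k with _ | j
            · rw [pow_zero, pow_one] at hk
              exact absurd hk hv'
            · exact ⟨j, rfl⟩
          apply SetLike.lt_iff_le_and_exists.2
          refine ⟨fun x hx => ⟨hPP.le hx, P'.pow_mem hx _⟩, v ^ (ℓ ^ j), ⟨P.pow_mem hv _, ?_⟩,
            hk' j (Nat.lt_succ_self j)⟩
          rw [← pow_mul, ← pow_succ]
          exact hk
        · exact fun x hx => hx.1
      intro v hv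
      rw [← hR] at hv
      exact hv.2
    · intro a ha v hv hv1 hv2 w hw
      let R : Subgroup V :=
        { carrier := {v | v ∈ P ∧ a v * v⁻¹ ∈ P'}
          mul_mem' := by
            rintro v w ⟨hv, hv'⟩ ⟨hw, hw'⟩
            refine ⟨P.mul_mem hv hw, ?_⟩
            have h6 : a (v * w) * (v * w)⁻¹ = (a v * v⁻¹) * (a w * w⁻¹) := by
              rw [map_mul, mul_inv]
              exact mul_mul_mul_comm _ _ _ _
            rw [h6]
            exact P'.mul_mem hv' hw'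
          one_mem' := ⟨P.one_mem, by rw [map_one, inv_one, mul_one]; exact P'.one_mem⟩
          inv_mem' := by
            rintro v ⟨hv, hv'⟩
            refine ⟨P.inv_mem hv, ?_⟩
            have h6 : a v⁻¹ * v⁻¹⁻¹ = (a v * v⁻¹)⁻¹ := by
              rw [map_inv, ← mul_inv]
            rw [h6]
            exact P'.inv_mem hv' }
      have hR : R = P := by
        apply hm R
        · rintro b hb u ⟨hu, hu'⟩
          refine ⟨hst b hb u hu, ?_⟩
          have h6 : a (b u) * (b u)⁻¹ = (a (b u) * (b (a u))⁻¹) * b (a u * u⁻¹) := by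
            rw [map_mul, map_inv]
            group
          rw [h6]
          exact P'.mul_mem (hP0 (hcm a ha b hb u)) (hPs b hb _ hu')
        · apply SetLike.lt_iff_le_and_exists.2
          refine ⟨fun x hx => ⟨hPP.le hx, P'.mul_mem (hPs a ha x hx) (P'.inv_mem hx)⟩, v,
            ⟨hv, hv2⟩, hv1⟩
        · exact fun x hx => hx.1
      rw [← hR] at hw
      exact hw.2
    · intro a ha b hb v _
      exact hP0 (hcm a ha b hb v)
    · exact hreg P' hP0 hPs
  exact key _ ⊤ rfl le_top (fun a _ u _ => Subgroup.mem_top _)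

end Pool.Agent.PST.GU.H62
end -- Pool.Agent.Helper62_PST.ECG

section -- Pool.Agent.Helper69_PST.RGV

noncomputable section

namespace Pool.Agent.PST.GU.H69

open Pool.Agent.PST Pool.Agent.PST.GU

theorem rgv (hREA : ReaStmt) : RgvStmt := by
  intro ℓ V _ _ E P W U Q hℓ hp hE hcm hS hstP hWP hstU hU hPU hPUt hWUQ hstQ
  have hWQ : W ≤ Q := le_trans le_sup_left hWUQ
  have hUQ : U ≤ Q := le_trans le_sup_right hWUQ
  obtain ⟨q, hq, hqf⟩ := hREA ℓ V E (Q ⊓ P) hℓ hp hE
    (fun a ha u hu => ⟨hstQ a ha u hu.1, hstP a ha u hu.2⟩)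
    (fun a ha b hb v hv => hcm a ha b hb v hv.2)
  obtain ⟨u0, hu0, hu1⟩ : ∃ u ∈ U, u ≠ 1 := by
    by_contra hne
    push Not at hne
    exact hU ((Subgroup.eq_bot_iff_forall U).2 hne)
  refine ⟨q * u0, Q.mul_mem hq.1 (hUQ hu0), ?_⟩
  intro a ha hfix
  rw [map_mul] at hfix
  have hkey : q⁻¹ * a q = u0 * (a u0)⁻¹ := by
    have h1 : a q = q * u0 * (a u0)⁻¹ := by rw [← hfix, mul_inv_cancel_right]
    rw [h1]; simp only [← mul_assoc]; rw [inv_mul_cancel, one_mul]
  have hmem : q⁻¹ * a q ∈ P ⊓ U := by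
    refine ⟨P.mul_mem (P.inv_mem hq.2) (hstP a ha q hq.2), ?_⟩
    rw [hkey]
    exact U.mul_mem hu0 (U.inv_mem (hstU a ha u0 hu0))
  rw [hPU, Subgroup.mem_bot] at hmem
  have haq : a q = q := by
    rw [inv_mul_eq_one] at hmem
    exact hmem.symm
  have hau : a u0 = u0 := by
    rw [hkey, mul_inv_eq_one] at hmem
    exact hmem.symm
  have hfP := hqf a ha haq
  have hfU : ∀ x ∈ U, a x = x := by
    refine hS.fr a ha ?_ u0 hu0 hu1 hau
    intro v hv
    rw [Subgroup.mem_bot, hfP v ⟨hWQ hv, hWP hv⟩, mul_inv_cancel]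
  intro w hw
  have hw' : w ∈ P ⊔ U := by rw [hPUt]; trivial
  obtain ⟨p, hpP, u, huU, rfl⟩ := Subgroup.mem_sup.1 hw'
  have hpQ : p ∈ Q := by
    have := Q.mul_mem hw (Q.inv_mem (hUQ huU))
    rwa [mul_inv_cancel_right] at this
  rw [map_mul, hfP p ⟨hpQ, hpP⟩, hfU u huU]

end Pool.Agent.PST.GU.H69
end
end -- Pool.Agent.Helper69_PST.RGV

section -- Pool.Agent.Helper94_PST.SVI

/-! Squad PST, block GV, row SVI (helper94). -/

noncomputable section

namespace Pool.Agent.PST.GU.H94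

open Pool.Agent.Helper51_AWC Pool.Agent.Helper79_WRA Pool.Agent.PP Pool.Agent.PP.KF
open Pool.Agent.PP.K9 Pool.Agent.PP.K9.H97 Pool.Agent.PP.H75 Pool.Agent.PP.T3 Pool.Agent.PP.T2
open Pool.Agent.PFD (Ei)
open Pool.Agent.PSS

theorem svi (srq : SrqStmt) (rsq : RsqStmt) : SviStmt := by
  intro L ℓ hL V V' _ _ E E' π hQ P W U h
  have hinj : Function.Injective π.toMonoidHom := π.injective
  have hker : π.toMonoidHom.ker = ⊥ := (MonoidHom.ker_eq_bot_iff _).2 hinj
  have hbot : (⊥ : Subgroup V).map π.toMonoidHom = ⊥ := Subgroup.map_bot _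
  have hU : U ⊓ π.toMonoidHom.ker = ⊥ := by
    rw [hker]
    exact inf_bot_eq _
  obtain ⟨s1, s2⟩ := srq ℓ V V' E E' π.toMonoidHom hQ U h.su hU
  refine ⟨?_, ?_, ?_, ?_, ?_, ?_, ?_, ?_, ?_⟩
  · intro a b
    obtain ⟨x, rfl⟩ := hQ.sur a
    obtain ⟨y, rfl⟩ := hQ.sur b
    rw [← map_mul, h.ab, map_mul]
  · intro a' ha' b' hb' v' hv'
    obtain ⟨v, hv, rfl⟩ := Subgroup.mem_map.1 hv'
    obtain ⟨a, ha, ha2⟩ := hQ.lif a' ha'
    obtain ⟨b, hb, hb2⟩ := hQ.lif b' hb'
    rw [← hb2, ← ha2, ← ha2, ← hb2, h.cm a ha b hb v hv]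
  · have h1 := s1 ⊥ W (by rw [hker]) h.w1
    rw [hbot] at h1
    exact h1
  · exact s2 W P (by rw [hker]; exact bot_le) h.wp
  · intro a' ha' u' hu'
    obtain ⟨u, hu, rfl⟩ := Subgroup.mem_map.1 hu'
    obtain ⟨a, ha, ha2⟩ := hQ.lif a' ha'
    rw [← ha2]
    exact Subgroup.mem_map_of_mem _ (h.su a ha u hu)
  · intro h1
    exact h.nt ((Subgroup.map_eq_bot_iff_of_injective U hinj).1 h1)
  · rw [← Subgroup.map_inf _ _ _ hinj, h.pu, hbot]
  · rw [← Subgroup.map_sup, h.jn]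
    exact Subgroup.map_top_of_surjective _ hQ.sur
  · obtain ⟨τ, -, hQ'⟩ := rsq V V' E E' π.toMonoidHom hQ U h.su hU
    exact hL.iso _ _ _ _ τ hQ' h.tm

end Pool.Agent.PST.GU.H94
end
end -- Pool.Agent.Helper94_PST.SVI

section -- Pool.Agent.Helper3_PST.AsmV

/-!
# Squad PST, block GV: assembly

`fvx_of`: the final theorem for the union of (S++) and (R), from the step `StqStmt`.
-/

noncomputable section

namespace Pool.Agent.PST.GU.H3

open Pool.Agent.PP Pool.Agent.PSS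

theorem agr_of (stq : StqStmt) : AgqStmt BR.Rtp :=
  GU.H5.agq BR.Rtp BR.H21.rtv PSS.All.stp stq bsr_

theorem k4r_ : K4rStmt := GU.H91.k4r (GU.H69.rgv GS.rea_) GU.H62.ecg GU.H91.knh

/-- theorem (R), the numbers of the ordinary characters -/
theorem sto_k4 (stq : StqStmt) (L : Kt) : StoFor (K4 L) := stv k4r_ AllS6.stogen_ (agr_of stq) L

theorem sto_kv (stq : StqStmt) (K : Kl) (h : StoFor K) : StoFor (KV K LR) := by
  intro ℓ hℓ M _ hM G _ _ e V γ hL W hW hK c hc
  rcases hK with hK | hK | hK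
  · exact h ℓ M hM G e V γ hL W hW hK c hc
  · exact sto_kf ℓ M hM G e V γ hL W hW hK c hc
  · exact sto_k4 stq LR ℓ M hM G e V γ hL W hW hK c hc

theorem adw_ : AdwStmt := GU.H39.adw (GU.H94.svi srq GU.H68.rsq) (GU.H92.svq srq GU.H68.rsq)

theorem adm_kv (K : Kl) (h : ∀ ℓ : ℕ, ℓ.Prime → Adm ℓ K) : ∀ ℓ : ℕ, ℓ.Prime →
    Adm ℓ (KV K LR) := fun ℓ hℓ => adw_ K LR ℓ hℓ (h ℓ hℓ) (adr_ ℓ hℓ)

theorem len_kv (stq : StqStmt) (K : Kl) (h : ∀ ℓ : ℕ, ℓ.Prime → Adm ℓ K) (hs : StoFor K) :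
    LenFor (KV K LR) := PSS.H11.len_ (KV K LR) (adm_kv K h) (sto_kv stq K hs)

theorem mnn_kv (stq : StqStmt) (K : Kl) (h : ∀ ℓ : ℕ, ℓ.Prime → Adm ℓ K) (hs : StoFor K) :
    MnnFor (KV K LR) := PSS.H66.mnn_ (KV K LR) (adm_kv K h) (len_kv stq K h hs)

theorem fvx_clv (clv : ClvStmt) (stq : StqStmt) : FvxStmt :=
  GU.H49.fvx fnk_ clv GS.clp_ (mnn_kv stq KP GS.adp_ (GS.stoKP_of stq))

end Pool.Agent.PST.GU.H3
end
end -- Pool.Agent.Helper3_PST.AsmV

section -- Pool.Agent.Helper3_PST.AllV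

/-!
# Squad PST, block GV: the union of (S++) and (R), from the step `StqStmt`
-/

noncomputable section

namespace Pool.Agent.PST.GU.H3

open Pool.Agent.PP Pool.Agent.PSS

theorem clv_ : ClvStmt := clv sry GS.msu_ PFD.H6.lke K9.H34.inx

/-- the final theorem for the union of (S++) and (R), from the step -/
theorem fvx_of (stq : StqStmt) : FvxStmt := fvx_clv clv_ stq

end Pool.Agent.PST.GU.H3
end
end -- Pool.Agent.Helper3_PST.AllV

section -- Pool.Agent.Helper52_HFC.HPQ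

/-!
Row HPQ: quotients by a subgroup of the central factor.
-/

namespace Pool.Agent.HFC.H52

open Pool.Agent.PSS Pool.Agent.PST Pool.Agent.PST.GU

theorem hpq : HpqStmt := by
  intro hRS K ℓ hA V V' _ _ E E' π hQ hab C V₀ hinf hsup hC hV0 hK hker
  have hab' : ∀ a b : V', a * b = b * a := by
    intro a b
    obtain ⟨x, rfl⟩ := hQ.sur a
    obtain ⟨y, rfl⟩ := hQ.sur b
    rw [← map_mul, hab, map_mul]
  refine ⟨hab', C.map π, V₀.map π, ?_, ?_, ?_, ?_, ?_⟩
  · rw [Subgroup.eq_bot_iff_forall]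
    rintro _ ⟨⟨c, hc, rfl⟩, ⟨v, hv, hcv⟩⟩
    have h1 : c⁻¹ * v ∈ π.ker := by
      rw [MonoidHom.mem_ker, map_mul, map_inv, hcv, inv_mul_cancel]
    have h2 : v ∈ C := by
      have h4 := C.mul_mem hc (hker h1)
      rwa [mul_inv_cancel_left] at h4
    have h3 : v ∈ C ⊓ V₀ := ⟨h2, hv⟩
    rw [hinf, Subgroup.mem_bot] at h3
    rw [← hcv, h3, map_one]
  · rw [← Subgroup.map_sup, hsup]
    exact Subgroup.map_top_of_surjective π hQ.sur
  · rintro a' ha' _ ⟨c, hc, rfl⟩
    obtain ⟨a, ha, h⟩ := hQ.lif a' ha'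
    rw [← h, hC a ha c hc]
  · rintro a' ha' _ ⟨v, hv, rfl⟩
    obtain ⟨a, ha, h⟩ := hQ.lif a' ha'
    rw [← h]
    exact ⟨a v, hV0 a ha v hv, rfl⟩
  · rcases hK with h0 | ⟨W₀, hW⟩
    · left
      rw [h0, Subgroup.map_bot]
    · right
      have h1 : V₀ ⊓ π.ker = ⊥ := by
        rw [eq_bot_iff, ← hinf]
        exact fun x hx => ⟨hker hx.2, hx.1⟩
      obtain ⟨τ, _, hq⟩ := hRS V V' E E' π hQ V₀ hV0 h1
      exact ⟨_, hA.iso _ _ _ _ W₀ τ hq hW⟩

end Pool.Agent.HFC.H52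
end -- Pool.Agent.Helper52_HFC.HPQ

section -- Pool.Agent.Helper64_HFC.YKL

/-!
# Row YKL of HFC (helper64): the theorem is known for the terminal class
-/

open scoped BigOperators

noncomputable section

namespace Pool.Agent.HFC.H64

open Pool.Agent.Helper51_AWC Pool.Agent.Helper79_WRA Pool.Agent.PP Pool.Agent.PP.KF
open Pool.Agent.PP.K9 Pool.Agent.PP.K9.H97 Pool.Agent.PP.H75 Pool.Agent.PP.T3 Pool.Agent.PP.T2
open Pool.Agent.PFD (Ei)
open Pool.Agent.PSS Pool.Agent.PST Pool.Agent.PST.GU Pool.Agent.HFC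

attribute [local instance] Ideal.Quotient.field

/-- row YKL -/
theorem ykl : YklStmt := by
  intro hR hT ℓ hℓ M hMm hM G _ _ e V γ hL hV hK
  rcases hK with hK | ⟨h5, hfin, hc⟩
  · exact hR ℓ M hM G e V γ hL hV hK
  · rw [PFD.H63.card_Ei] at hc
    exact hT ℓ M hM G e V γ hL hV h5 hc

end Pool.Agent.HFC.H64
end
end -- Pool.Agent.Helper64_HFC.YKL

section -- Pool.Agent.PST.Fin

/-!
# Squad PST: the final theorems without hypotheses

* `fnp_`: theorem (S++).
* `fvx_`: the union of (S++), theorem (R) and rank two.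
-/

noncomputable section

namespace Pool.Agent.PST.Fin

open Pool.Agent.PSS Pool.Agent.PSS.H66

theorem etc_ : ET.EtcStmt :=
  ETA.etc_of s5_pcx s5_bpt s5_fit s5_bor s5_rbk s5_coe s5_clj S5.H83.lcp s5_lkc

theorem stq_ : StqStmt := All.stq_ etc_

/-- theorem (S++) -/
theorem fnp_ : FnpStmt := GS.fnp_of stq_

/-- the union of (S++) with theorem (R) and with rank two -/
theorem fvx_ : GU.FvxStmt := GU.H3.fvx_of stq_

end Pool.Agent.PST.Fin
end
end -- Pool.Agent.PST.Fin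

section -- Pool.Agent.Helper66_HFC.FIN

/-!
# Squad HFC: the final theorem, from the rows
-/

open scoped BigOperators

noncomputable section

namespace Pool.Agent.HFC.H66

open Pool.Agent.Helper51_AWC Pool.Agent.Helper79_WRA Pool.Agent.PP Pool.Agent.PP.KF
open Pool.Agent.PP.K9 Pool.Agent.PP.K9.H97 Pool.Agent.PP.H75 Pool.Agent.PP.T3 Pool.Agent.PP.T2
open Pool.Agent.PFD (Ei)
open Pool.Agent.PSS Pool.Agent.PST Pool.Agent.PST.GU

attribute [local instance] Ideal.Quotient.field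

/-- the final theorem of the squad -/
def FinStmt : Prop := ∀ (ℓ : ℕ) [Fact ℓ.Prime] (M : Ideal (integralClosure ℤ ℂ)) [M.IsMaximal],
  (ℓ : integralClosure ℤ ℂ) ∈ M → ∀ (G : Type) [Group G] [Finite G],
  opCore ℓ G ≤ Subgroup.center G → ∀ χ ∈ Irr G, ∀ (H : Type) [Group H] (p : G →* H),
  Function.Surjective p → p.ker ≤ opCore ℓ G → ∀ ψ ∈ Irr H,
  (∀ g : G, Cong M (omega (MonoidHom.id G) (fun x => ψ (p x)) g)
    (omega (MonoidHom.id G) χ g)) →
  ∀ D : Subgroup H, ML.IsDef ℓ M ψ D → D ≠ (opCore ℓ G).map p →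
  (∀ x ∈ D, ∀ y ∈ D, x * y = y * x) →
  ∀ th ∈ IrrBlock M (Subgroup.centralizer (D : Set H)).subtype ψ,
  ∀ C D₀ : Subgroup H, C ⊓ D₀ = ⊥ → C ⊔ D₀ = D → (∀ t ∈ Iner M D th, ∀ c ∈ C, t * c = c * t) →
  (∀ t ∈ Iner M D th, ∀ d ∈ D₀, t * d * t⁻¹ ∈ D₀) →
  ((∃ W U : Subgroup H, ClP ℓ (Iner M D th) D₀ W U) ∨
    ∃ (s : ℕ) (Y : Fin s → Subgroup H) (U : Subgroup H), ClW ℓ (Iner M D th) D₀ s Y U) →
  altSum ℓ M χ = 0

theorem fin (adl : AdlStmt) (ykl : YklStmt) (mnl : MnlStmt) (hpq : HpqStmt) (adh : AdhStmt)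
    (leh : LehStmt) (cla : ClaStmt) (clb : ClbStmt) (clh : ClhStmt) : FinStmt := by
  have had : ∀ ℓ : ℕ, ℓ.Prime → AdT ℓ LP := adl GU.H3.adr_
  have hyk : YkFor LP := ykl GU.H3.ykr_ T3.t3a_
  obtain ⟨ha, hl⟩ := mnl had hyk KP GS.adp_ (GS.stoKP_of Fin.stq_)
  have hm : MnnFor (Kh (KV KP LP)) :=
    PSS.H66.mnn_ (Kh (KV KP LP)) (adh hpq GU.H68.rsq (KV KP LP) ha)
      (leh TV.wat_ T3.loc_ T3.lsb_ H33.qrx PSS.H66.qrq_ PSS.H86.qln H63.frt H24.ltx hpq
        GU.H68.rsq (KV KP LP) ha hl)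
  intro ℓ hℓ M iM hM G iG iFG hc χ hχ H iH p hp hpk ψ hψ hψχ D hD hDO hab θ hθ C D₀ h1 h2 h3 h4 hC
  have hfH : Finite H := Finite.of_surjective p hp
  refine GU.H3.fnk_ (Kh (KV KP LP)) hm ℓ M hM G hc χ hχ H p hp hpk ψ hψ hψχ D hD hDO hab θ hθ ?_
  intro e γ hL hTg hne
  rw [← hTg] at h3 h4 hC
  exact clh cla clb GS.msu_ PFD.edf_ GU.H3.sry PFD.H6.lke K9.H34.inx ha ℓ M hM H e D γ hL hne C D₀
    h1 h2 h3 h4 hC

end Pool.Agent.HFC.H66
end
end -- Pool.Agent.Helper66_HFC.FIN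

section -- Pool.Agent.Helper66_HFC.MNL

/-!
# Squad HFC, row MNL: the theorem for the union over the terminal class `LP`
-/

open scoped BigOperators

noncomputable section

namespace Pool.Agent.HFC.H66

open Pool.Agent.PP Pool.Agent.PSS Pool.Agent.PST Pool.Agent.PST.GU Pool.Agent.PST.GU.H3

theorem mnl : MnlStmt := by
  intro had hyk K ha hs
  have hadm : ∀ ℓ : ℕ, ℓ.Prime → Adm ℓ (KV K LP) :=
    fun ℓ hℓ => adw_ K LP ℓ hℓ (ha ℓ hℓ) (had ℓ hℓ)
  have hkf : StoFor (Kf LP) := stt_ LP had (let__ LP had (ymt_ LP had hyk))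
  have hsto : StoFor (KV K LP) := by
    intro ℓ hℓ M _ hM G _ _ e V γ hL W hW hK c hc
    rcases hK with hK | hK | hK
    · exact hs ℓ M hM G e V γ hL W hW hK c hc
    · exact hkf ℓ M hM G e V γ hL W hW hK c hc
    · exact sto_k4 Fin.stq_ LP ℓ M hM G e V γ hL W hW hK c hc
  exact ⟨hadm, PSS.H11.len_ (KV K LP) hadm hsto⟩

end Pool.Agent.HFC.H66
end
end -- Pool.Agent.Helper66_HFC.MNL

section -- Pool.Agent.Helper77_HFC.ADL

/-!
Row ADL of table hfc: the terminal class is closed under quotients.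
-/

noncomputable section

namespace Pool.Agent.HFC.H77

open Pool.Agent.PSS Pool.Agent.PST Pool.Agent.PST.GU

theorem card_le {V V' : Type} [Group V] [Group V'] {E : Subgroup (MulAut V)}
    {E' : Subgroup (MulAut V')} {π : V →* V'} (h : Qr E E' π) (hf : Finite E) :
    Finite E' ∧ Nat.card E' ≤ Nat.card E := by
  have h1 : ∀ a' : E', ∃ a : E, ∀ v, π ((a : MulAut V) v) = (a' : MulAut V') (π v) := by
    intro a'
    obtain ⟨a, ha, h2⟩ := h.lif a' a'.2
    exact ⟨⟨a, ha⟩, h2⟩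
  choose f hf2 using h1
  have hinj : Function.Injective f := by
    intro a' b' hab
    apply Subtype.ext
    apply MulEquiv.ext
    intro x
    obtain ⟨v, rfl⟩ := h.sur x
    rw [← hf2 a' v, ← hf2 b' v, hab]
  exact ⟨Finite.of_injective f hinj, Nat.card_le_card_of_injective f hinj⟩

/-- ADL. -/
theorem adl : AdlStmt := by
  intro hadr ℓ hℓ
  refine ⟨?_, ?_⟩
  · intro V V' _ _ E E' π hQ h
    rcases h with h | ⟨h5, hf, hc⟩
    · exact Or.inl ((hadr ℓ hℓ).iso V V' E E' π hQ h)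
    · obtain ⟨h1, h2⟩ := card_le hQ hf
      exact Or.inr ⟨h5, h1, by omega⟩
  · intro V V' _ _ _ _ E E' π hV hE hab hQ h hne
    rcases h with h | ⟨h5, hf, hc⟩
    · exact Or.inl ((hadr ℓ hℓ).quo V V' E E' π hV hE hab hQ h hne)
    · obtain ⟨h1, h2⟩ := card_le hQ hf
      exact Or.inr ⟨h5, h1, by omega⟩

end Pool.Agent.HFC.H77
end
end -- Pool.Agent.Helper77_HFC.ADL

section -- Pool.Agent.Helper66_HFC.Asm

/-!
# Squad HFC: the final theorem, without hypotheses
-/

noncomputable section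

namespace Pool.Agent.HFC.H66

theorem fin_ : FinStmt :=
  fin H77.adl H64.ykl mnl H52.hpq H29.adh H17.leh H29.cla H81.clb H32.clh

end Pool.Agent.HFC.H66
end
end -- Pool.Agent.Helper66_HFC.Asm
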